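/-!
Empty declarations of the namespaces used in this folder (so that `open` works with few imports).
-/

namespace Pool
end Pool
namespace Pool.Agent
end Pool.Agent
namespace Pool.Agent.GaussPoset
end Pool.Agent.GaussPoset
namespace Pool.Agent.GaussPoset.Bal
end Pool.Agent.GaussPoset.Bal
namespace Pool.Agent.GaussPoset.CEl
end Pool.Agent.GaussPoset.CEl
namespace Pool.Agent.GaussPoset.Chk
end Pool.Agent.GaussPoset.Chk
namespace Pool.Agent.GaussPoset.Cl
end Pool.Agent.GaussPoset.Cl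
namespace Pool.Agent.GaussPoset.Cp
end Pool.Agent.GaussPoset.Cp
namespace Pool.Agent.GaussPoset.Cs
end Pool.Agent.GaussPoset.Cs
namespace Pool.Agent.GaussPoset.Cy
end Pool.Agent.GaussPoset.Cy
namespace Pool.Agent.GaussPoset.Dd
end Pool.Agent.GaussPoset.Dd
namespace Pool.Agent.GaussPoset.EK
end Pool.Agent.GaussPoset.EK
namespace Pool.Agent.GaussPoset.EK.ClDL
end Pool.Agent.GaussPoset.EK.ClDL
namespace Pool.Agent.GaussPoset.EK.FoldDL
end Pool.Agent.GaussPoset.EK.FoldDL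
namespace Pool.Agent.GaussPoset.Ec
end Pool.Agent.GaussPoset.Ec
namespace Pool.Agent.GaussPoset.El
end Pool.Agent.GaussPoset.El
namespace Pool.Agent.GaussPoset.Ew
end Pool.Agent.GaussPoset.Ew
namespace Pool.Agent.GaussPoset.F4
end Pool.Agent.GaussPoset.F4
namespace Pool.Agent.GaussPoset.F5
end Pool.Agent.GaussPoset.F5
namespace Pool.Agent.GaussPoset.F6
end Pool.Agent.GaussPoset.F6
namespace Pool.Agent.GaussPoset.Fi
end Pool.Agent.GaussPoset.Fi
namespace Pool.Agent.GaussPoset.Fs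
end Pool.Agent.GaussPoset.Fs
namespace Pool.Agent.GaussPoset.Gq
end Pool.Agent.GaussPoset.Gq
namespace Pool.Agent.GaussPoset.Hc
end Pool.Agent.GaussPoset.Hc
namespace Pool.Agent.GaussPoset.Hul
end Pool.Agent.GaussPoset.Hul
namespace Pool.Agent.GaussPoset.J10
end Pool.Agent.GaussPoset.J10
namespace Pool.Agent.GaussPoset.J6
end Pool.Agent.GaussPoset.J6
namespace Pool.Agent.GaussPoset.J8
end Pool.Agent.GaussPoset.J8
namespace Pool.Agent.GaussPoset.Jk
end Pool.Agent.GaussPoset.Jk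
namespace Pool.Agent.GaussPoset.K2
end Pool.Agent.GaussPoset.K2
namespace Pool.Agent.GaussPoset.Mp
end Pool.Agent.GaussPoset.Mp
namespace Pool.Agent.GaussPoset.Nl
end Pool.Agent.GaussPoset.Nl
namespace Pool.Agent.GaussPoset.Nl.Odd0
end Pool.Agent.GaussPoset.Nl.Odd0
namespace Pool.Agent.GaussPoset.Np
end Pool.Agent.GaussPoset.Np
namespace Pool.Agent.GaussPoset.Qd
end Pool.Agent.GaussPoset.Qd
namespace Pool.Agent.GaussPoset.R3
end Pool.Agent.GaussPoset.R3
namespace Pool.Agent.GaussPoset.Sg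
end Pool.Agent.GaussPoset.Sg
namespace Pool.Agent.GaussPoset.Sm
end Pool.Agent.GaussPoset.Sm
namespace Pool.Agent.GaussPoset.Sm.FdX
end Pool.Agent.GaussPoset.Sm.FdX
namespace Pool.Agent.GaussPoset.So
end Pool.Agent.GaussPoset.So
namespace Pool.Agent.GaussPoset.St
end Pool.Agent.GaussPoset.St
namespace Pool.Agent.GaussPoset.TriS
end Pool.Agent.GaussPoset.TriS
namespace Pool.Agent.GaussPoset.Tv
end Pool.Agent.GaussPoset.Tv
namespace Pool.Agent.GaussPoset.Tw
end Pool.Agent.GaussPoset.Tw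
namespace Pool.Agent.GaussPoset.W1
end Pool.Agent.GaussPoset.W1
namespace Pool.Agent.GaussPoset.W4
end Pool.Agent.GaussPoset.W4
namespace Pool.Agent.GaussPoset.W6
end Pool.Agent.GaussPoset.W6
namespace Pool.Agent.GaussPoset.W7
end Pool.Agent.GaussPoset.W7
namespace Pool.Agent.GaussPoset.W7h
end Pool.Agent.GaussPoset.W7h
namespace Pool.Agent.GaussPoset.Wd
end Pool.Agent.GaussPoset.Wd
namespace Pool.Agent.GaussPoset.Wd.GJ
end Pool.Agent.GaussPoset.Wd.GJ
namespace Pool.Agent.GaussPoset.Wd.Qd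
end Pool.Agent.GaussPoset.Wd.Qd
namespace Pool.Agent.GaussPoset.Win
end Pool.Agent.GaussPoset.Win
namespace Pool.Agent.GaussPoset.Win.Cu
end Pool.Agent.GaussPoset.Win.Cu
namespace Pool.Agent.GaussPoset.Win.Ev
end Pool.Agent.GaussPoset.Win.Ev
namespace Pool.Agent.GaussPoset.Win.H2
end Pool.Agent.GaussPoset.Win.H2
namespace Pool.Agent.GaussPoset.Win.I2
end Pool.Agent.GaussPoset.Win.I2
namespace Pool.Agent.GaussPoset.Win.I2.Side0
end Pool.Agent.GaussPoset.Win.I2.Side0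
namespace Pool.Agent.GaussPoset.Win.J5
end Pool.Agent.GaussPoset.Win.J5
namespace Pool.Agent.GaussPoset.Win.K2
end Pool.Agent.GaussPoset.Win.K2
namespace Pool.Agent.GaussPoset.Win.K2.Tr
end Pool.Agent.GaussPoset.Win.K2.Tr
namespace Pool.Agent.GaussPoset.Win.Kd
end Pool.Agent.GaussPoset.Win.Kd
namespace Pool.Agent.GaussPoset.Win.NF
end Pool.Agent.GaussPoset.Win.NF
namespace Pool.Agent.GaussPoset.Win.Pa
end Pool.Agent.GaussPoset.Win.Pa
namespace Pool.Agent.GaussPoset.Win.Pb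
end Pool.Agent.GaussPoset.Win.Pb
namespace Pool.Agent.GaussPoset.Win.Pb.DLe
end Pool.Agent.GaussPoset.Win.Pb.DLe
namespace Pool.Agent.GaussPoset.Win.Pf
end Pool.Agent.GaussPoset.Win.Pf
namespace Pool.Agent.GaussPoset.Win.Pf.Flp
end Pool.Agent.GaussPoset.Win.Pf.Flp
namespace Pool.Agent.GaussPoset.Win.Pn
end Pool.Agent.GaussPoset.Win.Pn
namespace Pool.Agent.GaussPoset.Win.Rc
end Pool.Agent.GaussPoset.Win.Rc
namespace Pool.Agent.GaussPoset.Win.Rd
end Pool.Agent.GaussPoset.Win.Rd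
namespace Pool.Agent.GaussPoset.Win.Rd.TS
end Pool.Agent.GaussPoset.Win.Rd.TS
namespace Pool.Agent.GaussPoset.Win.SO
end Pool.Agent.GaussPoset.Win.SO
namespace Pool.Agent.GaussPoset.Win.SO.CP
end Pool.Agent.GaussPoset.Win.SO.CP
namespace Pool.Agent.GaussPoset.Win.Si
end Pool.Agent.GaussPoset.Win.Si
namespace Pool.Agent.GaussPoset.Win.Si.DLt
end Pool.Agent.GaussPoset.Win.Si.DLt
namespace Pool.Agent.GaussPoset.Win.Si.Two
end Pool.Agent.GaussPoset.Win.Si.Two
namespace Pool.Agent.GaussPoset.Win.So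
end Pool.Agent.GaussPoset.Win.So
namespace Pool.Agent.GaussPoset.Win.So.CrV
end Pool.Agent.GaussPoset.Win.So.CrV
namespace Pool.Agent.GaussPoset.Win.So.LowD
end Pool.Agent.GaussPoset.Win.So.LowD
namespace Pool.Agent.GaussPoset.Win.So.OS
end Pool.Agent.GaussPoset.Win.So.OS
namespace Pool.Agent.GaussPoset.Win.So.RefD
end Pool.Agent.GaussPoset.Win.So.RefD
namespace Pool.Agent.GaussPoset.Win.So.RefL
end Pool.Agent.GaussPoset.Win.So.RefL
namespace Pool.Agent.GaussPoset.Win.So.TT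
end Pool.Agent.GaussPoset.Win.So.TT
namespace Pool.Agent.GaussPoset.Win.So.TgP
end Pool.Agent.GaussPoset.Win.So.TgP
namespace Pool.Agent.GaussPoset.Win.So.TogL
end Pool.Agent.GaussPoset.Win.So.TogL
namespace Pool.Agent.GaussPoset.Win.So.TogU
end Pool.Agent.GaussPoset.Win.So.TogU
namespace Pool.Agent.GaussPoset.Win.So.UpD
end Pool.Agent.GaussPoset.Win.So.UpD
namespace Pool.Agent.GaussPoset.Win.T6N
end Pool.Agent.GaussPoset.Win.T6N
namespace Pool.Agent.GaussPoset.Win.T8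
end Pool.Agent.GaussPoset.Win.T8
namespace Pool.Agent.GaussPoset.Win.Tp
end Pool.Agent.GaussPoset.Win.Tp
namespace Pool.Agent.GaussPoset.Win.Ut
end Pool.Agent.GaussPoset.Win.Ut
namespace Pool.Agent.GaussPoset.Win.W4
end Pool.Agent.GaussPoset.Win.W4
namespace Pool.Agent.GaussPoset.Win.W4.DLg
end Pool.Agent.GaussPoset.Win.W4.DLg
namespace Pool.Agent.GaussPoset.Win.W4.DLr
end Pool.Agent.GaussPoset.Win.W4.DLr
namespace Pool.Agent.GaussPoset.Win.W4.PRow
end Pool.Agent.GaussPoset.Win.W4.PRow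
namespace Pool.Agent.GaussPoset.Win.W4.Rg
end Pool.Agent.GaussPoset.Win.W4.Rg
namespace Pool.Agent.GaussPoset.Win.W4.Rr
end Pool.Agent.GaussPoset.Win.W4.Rr
namespace Pool.Agent.GaussPoset.Win.W4.Tri
end Pool.Agent.GaussPoset.Win.W4.Tri
namespace Pool.Agent.GaussPoset.Win.Xg
end Pool.Agent.GaussPoset.Win.Xg
namespace Pool.Agent.GaussPoset.Yg
end Pool.Agent.GaussPoset.Yg
namespace Pool.Agent.GaussRot
end Pool.Agent.GaussRot
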