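import Mathlib
import Pool.Agent.W_448zz_h61.Ns

/-! From `Pool.Agent.W_MP_448cb3_h96.Basic` -/

namespace Pool.Agent.GaussPoset

set_option linter.unusedSectionVars false

open Polynomial Finset

universe u

section Toggle

variable {P : Type u} [Fintype P] [PartialOrder P] [DecidableEq P]

/-- `F` is an upper set, `l` is weakly increasing off `F` and strictly decreasing on `F`. -/
def Conf (F : Finset P) (l : P → ℕ) : Prop :=
  (∀ x y, x ≤ y → x ∈ F → y ∈ F) ∧ (∀ x y, x ≤ y → x ∉ F → y ∉ F → l x ≤ l y) ∧
    (∀ x y, x < y → x ∈ F → y ∈ F → l y < l x)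

/-- configurations contributing to `U_m` -/
def Val (m : ℕ) (r : P → ℕ) (F : Finset P) : Prop :=
  Conf F r ∧ ∀ x ∈ F, m < r x

lemma val_empty_iff (m : ℕ) (r : P → ℕ) : Val m r ∅ ↔ Monotone r := by
  unfold Val Conf
  constructor
  · rintro ⟨⟨_, h, _⟩, _⟩ x y hxy
    exact h x y hxy (by simp) (by simp)
  · intro h
    refine ⟨⟨by simp, fun x y hxy _ _ => h hxy, by simp⟩, by simp⟩

/-- the toggling element -/
lemma toggle_val (m : ℕ) (r : P → ℕ) (x : P) (hmax : ∀ y, r y ≤ r x)
    (hx : ∀ y, x < y → r y < r x) (hm : m < r x) (F : Finset P) (hF : Val m r F) :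
    Val m r (if x ∈ F then F.erase x else insert x F) := by
  obtain ⟨⟨h1, h2, h3⟩, h4⟩ := hF
  by_cases hxF : x ∈ F
  · rw [if_pos hxF]
    refine ⟨⟨?_, ?_, ?_⟩, ?_⟩
    · intro a b hab ha
      rw [mem_erase] at ha ⊢
      refine ⟨?_, h1 a b hab ha.2⟩
      rintro rfl
      have := h3 a b (lt_of_le_of_ne hab ha.1) ha.2 hxF
      exact absurd (hmax a) (not_le.mpr this)
    · intro a b hab ha hb
      rw [mem_erase, not_and_or, not_not] at ha hb
      rcases hb with rfl | hb
      · exact hmax a
      · rcases ha with rfl | ha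
        · exact absurd (h1 a b hab hxF) hb
        · exact h2 a b hab ha hb
    · intro a b hab ha hb
      exact h3 a b hab (mem_of_mem_erase ha) (mem_of_mem_erase hb)
    · intro a ha
      exact h4 a (mem_of_mem_erase ha)
  · rw [if_neg hxF]
    have hup : ∀ y, x < y → y ∈ F := by
      intro y hy
      by_contra hyF
      have := h2 x y hy.le hxF hyF
      exact absurd (hx y hy) (not_lt.mpr this)
    have hdown : ∀ y, y < x → y ∉ F := fun y hy hyF => hxF (h1 y x hy.le hyF)
    refine ⟨⟨?_, ?_, ?_⟩, ?_⟩
    · intro a b hab ha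
      rw [mem_insert] at ha ⊢
      rcases ha with rfl | ha
      · rcases eq_or_lt_of_le hab with h | h
        · exact Or.inl h.symm
        · exact Or.inr (hup b h)
      · exact Or.inr (h1 a b hab ha)
    · intro a b hab ha hb
      rw [mem_insert, not_or] at ha hb
      exact h2 a b hab ha.2 hb.2
    · intro a b hab ha hb
      rw [mem_insert] at ha hb
      rcases ha with rfl | ha
      · exact hx b hab
      · rcases hb with rfl | hb
        · exact absurd ha (hdown a hab)
        · exact h3 a b hab ha hb
    · intro a ha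
      rw [mem_insert] at ha
      rcases ha with rfl | ha
      · exact hm
      · exact h4 a ha

lemma exists_toggle [Nonempty P] (r : P → ℕ) :
    ∃ x, (∀ y, r y ≤ r x) ∧ ∀ y, x < y → r y < r x := by
  classical
  obtain ⟨x0, -, hx0⟩ := Finset.exists_max_image (univ : Finset P) r univ_nonempty
  let S : Finset P := univ.filter (fun y => r y = r x0)
  have hS : S.Nonempty := ⟨x0, by simp [S]⟩
  obtain ⟨x, hx⟩ := S.exists_maximal hS
  have hxS : r x = r x0 := by simpa [S] using hx.1
  refine ⟨x, fun y => by rw [hxS]; exact hx0 y (mem_univ y), fun y hy => ?_⟩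
  refine lt_of_le_of_ne (by rw [hxS]; exact hx0 y (mem_univ y)) ?_
  intro h
  have hyS : y ∈ S := by simp [S, h, hxS]
  exact absurd (hx.2 hyS hy.le) (not_le_of_gt hy)

open Classical in
lemma sum_val (m : ℕ) (r : P → ℕ) :
    ∑ F : Finset P, (if Val m r F then (-1 : ℤ) ^ F.card else 0) =
      if Monotone r ∧ ∀ x, r x ≤ m then 1 else 0 := by
  by_cases hr : ∀ x, r x ≤ m
  · have h1 : ∀ F : Finset P, F ≠ ∅ → (if Val m r F then (-1 : ℤ) ^ F.card else 0) = 0 := by
      intro F hF
      rw [if_neg]
      rintro ⟨_, h4⟩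
      obtain ⟨x, hx⟩ := Finset.nonempty_iff_ne_empty.mpr hF
      exact absurd (h4 x hx) (not_lt.mpr (hr x))
    rw [Finset.sum_eq_single ∅ (fun F _ hF => h1 F hF) (by simp)]
    simp only [val_empty_iff, card_empty, pow_zero]
    by_cases hm : Monotone r
    · simp [hm, hr]
    · simp [hm]
  · have hr' := hr
    push Not at hr
    obtain ⟨x1, hx1⟩ := hr
    have : Nonempty P := ⟨x1⟩
    obtain ⟨x, hmax, hx⟩ := exists_toggle r
    have hm : m < r x := lt_of_lt_of_le hx1 (hmax x1)
    rw [if_neg (fun h => hr' h.2)]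
    rw [← Finset.sum_filter]
    refine Finset.sum_involution (fun F _ => if x ∈ F then F.erase x else insert x F) ?_ ?_ ?_ ?_
    · intro F hF
      by_cases hxF : x ∈ F
      · simp only [if_pos hxF]
        have : F.card = (F.erase x).card + 1 := by
          rw [card_erase_of_mem hxF]
          have := card_pos.mpr ⟨x, hxF⟩
          omega
        rw [this, pow_succ]; ring
      · simp only [if_neg hxF]
        rw [card_insert_of_notMem hxF, pow_succ]; ring
    · intro F hF _
      by_cases hxF : x ∈ F
      · simp only [if_pos hxF]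
        intro h
        rw [← h] at hxF
        simp at hxF
      · simp only [if_neg hxF]
        intro h
        rw [← h] at hxF
        simp at hxF
    · intro F hF
      rw [mem_filter] at hF ⊢
      exact ⟨mem_univ _, toggle_val m r x hmax hx hm F hF.2⟩
    · intro F hF
      by_cases hxF : x ∈ F
      · simp [hxF]
      · simp [hxF]

end Toggle

end Pool.Agent.GaussPoset
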