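import Mathlib
import Pool.Agent.W_448zz_h61.Ns
import Pool.Agent.W_MP_448cb3_h96.Defs

/-! From `Pool.Agent.W_MP_448cb3_h96.Dual` -/

namespace Pool.Agent.GaussPoset

set_option linter.unusedSectionVars false

open Polynomial Finset

universe u

variable {P : Type u} [Fintype P] [PartialOrder P]

lemma sum_fin_le {m : ℕ} (σ : P → Fin (m + 1)) : ∑ x, (σ x : ℕ) ≤ Fintype.card P * m := by
  calc ∑ x, (σ x : ℕ) ≤ ∑ _x : P, m := Finset.sum_le_sum fun x _ => Nat.lt_succ_iff.mp (σ x).2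
    _ = Fintype.card P * m := by rw [Finset.sum_const, smul_eq_mul, Finset.card_univ]

lemma U_dual (m : ℕ) : U Pᵒᵈ m = reflect (Fintype.card P * m) (U P m) := by
  classical
  unfold U
  have h1 : ∀ (s : Finset (P → Fin (m + 1))),
      reflect (Fintype.card P * m) (∑ σ ∈ s, (X : ℤ[X]) ^ (∑ x, (σ x : ℕ))) =
      ∑ σ ∈ s, X ^ (Fintype.card P * m - ∑ x, (σ x : ℕ)) := by
    intro s
    induction s using Finset.induction_on with
    | empty => simp
    | insert a s ha ih =>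
      rw [Finset.sum_insert ha, Finset.sum_insert ha, reflect_add, ih]
      congr 1
      rw [reflect_monomial, revAt_le (sum_fin_le a)]
  rw [h1]
  refine Finset.sum_bij' (fun σ _ x => Fin.rev (σ (OrderDual.toDual x)))
    (fun σ _ x => Fin.rev (σ (OrderDual.ofDual x))) ?_ ?_ ?_ ?_ ?_
  · intro σ hσ
    simp only [mem_filter, mem_univ, true_and] at hσ ⊢
    intro x y hxy
    exact Fin.rev_le_rev.mpr (hσ (OrderDual.toDual_le_toDual.mpr hxy))
  · intro σ hσ
    simp only [mem_filter, mem_univ, true_and] at hσ ⊢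
    intro x y hxy
    exact Fin.rev_le_rev.mpr (hσ (OrderDual.ofDual_le_ofDual.mpr hxy))
  · intro σ _
    funext x
    simp
  · intro σ _
    funext x
    simp
  · intro σ _
    change X ^ (∑ x : Pᵒᵈ, (σ x : ℕ)) = X ^ (Fintype.card P * m -
      ∑ x : P, (((Fin.rev (σ (OrderDual.toDual x)) : Fin (m + 1)) : ℕ)))
    congr 1
    have h2 : ∑ x : P, (((Fin.rev (σ (OrderDual.toDual x)) : Fin (m + 1)) : ℕ)) +
        ∑ x : Pᵒᵈ, (σ x : ℕ) = Fintype.card P * m := by
      have h3 : ∑ x : Pᵒᵈ, (σ x : ℕ) = ∑ x : P, (σ (OrderDual.toDual x) : ℕ) := rfl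
      rw [h3, ← Finset.sum_add_distrib]
      have h4 : ∀ x : P, ((Fin.rev (σ (OrderDual.toDual x)) : Fin (m + 1)) : ℕ) +
          (σ (OrderDual.toDual x) : ℕ) = m := by
        intro x
        rw [Fin.val_rev]
        have := (σ (OrderDual.toDual x)).2
        omega
      rw [Finset.sum_congr rfl (fun x _ => h4 x), Finset.sum_const, smul_eq_mul, card_univ]
    omega

lemma natDegree_U (m : ℕ) : (U P m).natDegree ≤ Fintype.card P * m := by
  classical
  unfold U
  refine natDegree_sum_le_of_forall_le _ _ fun σ _ => ?_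
  rw [natDegree_X_pow]
  exact sum_fin_le σ

lemma reflect_prod {n : ℕ} (k : Fin n → ℕ) :
    reflect (∑ i, k i) (∏ i, (1 - (X : ℤ[X]) ^ (k i))) = (-1) ^ n * ∏ i, (1 - X ^ (k i)) ∧
    (∏ i, (1 - (X : ℤ[X]) ^ (k i))).natDegree ≤ ∑ i, k i := by
  have hdeg : ∀ a : ℕ, (1 - (X : ℤ[X]) ^ a).natDegree ≤ a := by
    intro a
    refine (natDegree_sub_le _ _).trans ?_
    simp
  have hdeg2 : ∀ s : Finset (Fin n), (∏ i ∈ s, (1 - (X : ℤ[X]) ^ (k i))).natDegree ≤
      ∑ i ∈ s, k i := by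
    intro s
    refine (natDegree_prod_le _ _).trans ?_
    exact Finset.sum_le_sum fun i _ => hdeg (k i)
  refine ⟨?_, hdeg2 univ⟩
  have h1 : ∀ s : Finset (Fin n), reflect (∑ i ∈ s, k i) (∏ i ∈ s, (1 - (X : ℤ[X]) ^ (k i))) =
      (-1) ^ s.card * ∏ i ∈ s, (1 - X ^ (k i)) := by
    intro s
    induction s using Finset.induction_on with
    | empty => simp
    | insert a s ha ih =>
      rw [Finset.sum_insert ha, Finset.prod_insert ha,
        reflect_mul _ _ (hdeg (k a)) (hdeg2 s), ih, Finset.card_insert_of_notMem ha]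
      have : reflect (k a) (1 - (X : ℤ[X]) ^ (k a)) = -(1 - X ^ (k a)) := by
        rw [reflect_sub, reflect_monomial, revAt_le (le_refl _), ← pow_zero X,
          reflect_monomial, revAt_le (Nat.zero_le _)]
        simp
      rw [this]
      ring
  have := h1 univ
  simpa using this

theorem dual_gauss {h : Fin (Fintype.card P) → ℕ}
    (hU : ∀ m : ℕ, U P m * ∏ i, (1 - (X : ℤ[X]) ^ (h i)) = ∏ i, (1 - (X : ℤ[X]) ^ (m + h i)))
    (m : ℕ) : U Pᵒᵈ m * ∏ i, (1 - (X : ℤ[X]) ^ (h i)) = ∏ i, (1 - (X : ℤ[X]) ^ (m + h i)) := by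
  obtain ⟨h1, h2⟩ := reflect_prod h
  obtain ⟨h3, h4⟩ := reflect_prod (fun i => m + h i)
  have h5 : ∑ i, (m + h i) = Fintype.card P * m + ∑ i, h i := by
    rw [Finset.sum_add_distrib, Finset.sum_const, smul_eq_mul, Finset.card_univ, Fintype.card_fin]
  have h6 := congrArg (reflect (Fintype.card P * m + ∑ i, h i)) (hU m)
  rw [reflect_mul _ _ (natDegree_U m) h2, h1, ← h5, h3, ← U_dual] at h6
  have h7 : ((-1 : ℤ[X]) ^ Fintype.card P) * (U Pᵒᵈ m * ∏ i, (1 - (X : ℤ[X]) ^ (h i))) =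
      (-1) ^ Fintype.card P * ∏ i, (1 - (X : ℤ[X]) ^ (m + h i)) := by
    rw [← h6]; ring
  exact mul_left_cancel₀ (pow_ne_zero _ (by norm_num)) h7

end Pool.Agent.GaussPoset
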