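import Mathlib
import Pool.Agent.W_448zz_h61.Ns

/-! From `Pool.Agent.W_MP_448cb3_h96.PolyA` -/

namespace Pool.Agent.GaussPoset

open Polynomial Finset

lemma poly_sum_coeff {α β : Type*} (A : Finset α) (B : Finset β) (R : α → ℕ) (Q : β → ℕ)
    (b N : ℕ) (hR : ∀ a ∈ A, R a ≤ b) (hQ : ∀ a ∈ B, Q a ≤ b)
    (hdvd : (1 + X : ℤ[X]) ^ b ∣ X ^ N * (∑ a ∈ A, (1 + X) ^ (b + 1 - R a) +
      ∑ a ∈ B, X ^ (1 + Q a) * (1 + X) ^ (b + 1 - Q a))) (M : ℕ) (hM2 : 2 ≤ M) (hMb : M ≤ b + 1) :
    ((A.filter (fun a => R a = M)).card : ℤ) + ∑ a ∈ B.filter (fun a => M ≤ Q a),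
      (-1) ^ (1 + M) * ((1 + Q a).choose (Q a - M) : ℤ) = 0 := by
  have h1 : (1 + X : ℤ[X]) ^ b ∣ (∑ a ∈ A, (1 + X) ^ (b + 1 - R a) +
      ∑ a ∈ B, X ^ (1 + Q a) * (1 + X) ^ (b + 1 - Q a)) := by
    refine IsCoprime.dvd_of_dvd_mul_left ?_ hdvd
    apply IsCoprime.pow
    exact ⟨1, -1, by ring⟩
  obtain ⟨T, hT⟩ := h1
  have h2 := congrArg (Polynomial.compRingHom (X + C (-1))) hT
  rw [map_add, map_sum, map_sum, map_mul] at h2
  simp only [map_mul, map_pow, map_add, map_one, Polynomial.coe_compRingHom_apply, X_comp] at h2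
  have h3 : (1 + (X + C (-1)) : ℤ[X]) = X := by simp
  rw [h3] at h2
  have h4 : ∀ d < b, (∑ a ∈ A, (X : ℤ[X]) ^ (b + 1 - R a) +
      ∑ a ∈ B, (X + C (-1)) ^ (1 + Q a) * X ^ (b + 1 - Q a)).coeff d = 0 := by
    rw [← X_pow_dvd_iff, h2]
    exact Dvd.intro _ rfl
  have h5 := h4 (b + 1 - M) (by omega)
  rw [coeff_add, Polynomial.finsetSum_coeff, Polynomial.finsetSum_coeff] at h5
  have h6 : ∑ a ∈ A, ((X : ℤ[X]) ^ (b + 1 - R a)).coeff (b + 1 - M) =
      ((A.filter (fun a => R a = M)).card : ℤ) := by
    rw [Finset.card_filter]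
    push_cast
    refine Finset.sum_congr rfl fun a ha => ?_
    rw [coeff_X_pow]
    have := hR a ha
    by_cases h7 : R a = M
    · rw [if_pos h7, if_pos (by omega)]
    · rw [if_neg h7, if_neg (by omega)]
  have h7 : ∑ a ∈ B, (((X : ℤ[X]) + C (-1)) ^ (1 + Q a) * X ^ (b + 1 - Q a)).coeff (b + 1 - M) =
      ∑ a ∈ B.filter (fun a => M ≤ Q a), (-1) ^ (1 + M) * ((1 + Q a).choose (Q a - M) : ℤ) := by
    rw [Finset.sum_filter]
    refine Finset.sum_congr rfl fun a ha => ?_
    have h8 := hQ a ha
    rw [coeff_mul_X_pow']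
    by_cases h9 : M ≤ Q a
    · rw [if_pos h9, if_pos (by omega), coeff_X_add_C_pow,
        show b + 1 - M - (b + 1 - Q a) = Q a - M by omega,
        show 1 + Q a - (Q a - M) = 1 + M by omega]
    · rw [if_neg h9, if_neg (by omega)]
  rw [h6, h7] at h5
  exact h5

lemma poly_main {α β : Type*} (A : Finset α) (B : Finset β) (R : α → ℕ) (Q : β → ℕ)
    (b N : ℕ) (hR : ∀ a ∈ A, R a ≤ b) (hQ : ∀ a ∈ B, Q a ≤ b)
    (hdvd : (1 + X : ℤ[X]) ^ b ∣ X ^ N * (∑ a ∈ A, (1 + X) ^ (b + 1 - R a) +
      ∑ a ∈ B, X ^ (1 + Q a) * (1 + X) ^ (b + 1 - Q a))) :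
    (∀ a ∈ A, R a ≤ 2) ∧ (∀ a ∈ B, Q a ≤ 2) ∧
      (A.filter (fun a => R a = 2)).card = (B.filter (fun a => Q a = 2)).card := by
  classical
  have key := poly_sum_coeff A B R Q b N hR hQ hdvd
  have hmax : (∀ a ∈ A, R a ≤ 2) ∧ (∀ a ∈ B, Q a ≤ 2) := by
    -- downward induction on a bound for both
    have step : ∀ M, 3 ≤ M → M ≤ b → (∀ a ∈ A, R a ≤ M) → (∀ a ∈ B, Q a ≤ M) →
        (∀ a ∈ A, R a ≤ M - 1) ∧ (∀ a ∈ B, Q a ≤ M - 1) := by
      intro M hM3 hMb hA hB
      have k1 := key M (by omega) (by omega)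
      have k2 := key (M - 1) (by omega) (by omega)
      have e1 : ∑ a ∈ B.filter (fun a => M ≤ Q a),
          (-1 : ℤ) ^ (1 + M) * ((1 + Q a).choose (Q a - M) : ℤ) =
          (-1) ^ (1 + M) * ((B.filter (fun a => Q a = M)).card : ℤ) := by
        have : B.filter (fun a => M ≤ Q a) = B.filter (fun a => Q a = M) := by
          refine Finset.filter_congr fun a ha => ?_
          have := hB a ha
          omega
        rw [this, Finset.sum_congr rfl (g := fun _ => (-1 : ℤ) ^ (1 + M)), Finset.sum_const,
          nsmul_eq_mul, mul_comm]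
        intro a ha
        rw [mem_filter] at ha
        rw [ha.2, Nat.sub_self, Nat.choose_zero_right]
        simp
      have e2 : ∑ a ∈ B.filter (fun a => M - 1 ≤ Q a),
          (-1 : ℤ) ^ (1 + (M - 1)) * ((1 + Q a).choose (Q a - (M - 1)) : ℤ) =
          (-1) ^ M * (((B.filter (fun a => Q a = M - 1)).card : ℤ) +
            (M + 1) * ((B.filter (fun a => Q a = M)).card : ℤ)) := by
        have h1 : B.filter (fun a => M - 1 ≤ Q a) = B.filter (fun a => Q a = M - 1) ∪
            B.filter (fun a => Q a = M) := by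
          ext a
          rw [mem_union, mem_filter, mem_filter, mem_filter]
          constructor
          · rintro ⟨ha, h⟩
            have := hB a ha
            have h3 : Q a = M - 1 ∨ Q a = M := by omega
            rcases h3 with h3 | h3
            · exact Or.inl ⟨ha, h3⟩
            · exact Or.inr ⟨ha, h3⟩
          · rintro (⟨ha, h⟩ | ⟨ha, h⟩)
            · exact ⟨ha, by omega⟩
            · exact ⟨ha, by omega⟩
        have h2 : Disjoint (B.filter (fun a => Q a = M - 1)) (B.filter (fun a => Q a = M)) := by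
          rw [Finset.disjoint_left]
          intro a ha hb
          rw [mem_filter] at ha hb
          omega
        rw [h1, Finset.sum_union h2]
        rw [Finset.sum_congr rfl (g := fun _ => (-1 : ℤ) ^ M) (s₁ := B.filter (fun a => Q a = M - 1)),
          Finset.sum_congr rfl (g := fun _ => (-1 : ℤ) ^ M * (M + 1))
            (s₁ := B.filter (fun a => Q a = M)), Finset.sum_const, Finset.sum_const,
          nsmul_eq_mul, nsmul_eq_mul]
        · ring
        · intro a ha
          rw [mem_filter] at ha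
          rw [ha.2, show M - (M - 1) = 1 by omega, Nat.choose_one_right,
            show 1 + (M - 1) = M by omega]
          push_cast
          ring
        · intro a ha
          rw [mem_filter] at ha
          rw [ha.2, Nat.sub_self, Nat.choose_zero_right, show 1 + (M - 1) = M by omega]
          simp
      rw [e1] at k1
      rw [e2] at k2
      set x := ((A.filter (fun a => R a = M)).card : ℤ) with hx
      set y := ((B.filter (fun a => Q a = M)).card : ℤ) with hy
      set x' := ((A.filter (fun a => R a = M - 1)).card : ℤ) with hx'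
      set y' := ((B.filter (fun a => Q a = M - 1)).card : ℤ) with hy'
      have hx0 : 0 ≤ x := by positivity
      have hy0 : 0 ≤ y := by positivity
      have hx'0 : 0 ≤ x' := by positivity
      have hy'0 : 0 ≤ y' := by positivity
      have hxy : x = 0 ∧ y = 0 := by
        rcases Nat.even_or_odd M with hev | hod
        · rw [hev.neg_one_pow] at k2
          rw [(Even.one_add hev).neg_one_pow] at k1
          have hM0 : (0 : ℤ) ≤ (M : ℤ) := by positivity
          have : (M + 1) * y ≥ y := by nlinarith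
          constructor <;> nlinarith
        · have : Even (1 + M) := by
            rw [Nat.even_add]; simp [Nat.not_even_one, hod]
          rw [this.neg_one_pow] at k1
          constructor <;> linarith
      constructor
      · intro a ha
        have h3 := hA a ha
        by_contra h4
        have h5 : a ∈ A.filter (fun a => R a = M) := by
          rw [mem_filter]; exact ⟨ha, by omega⟩
        have h6 : (A.filter (fun a => R a = M)).card = 0 := Nat.cast_eq_zero.mp hxy.1
        rw [Finset.card_eq_zero] at h6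
        rw [h6] at h5
        exact absurd h5 (notMem_empty _)
      · intro a ha
        have h3 := hB a ha
        by_contra h4
        have h5 : a ∈ B.filter (fun a => Q a = M) := by
          rw [mem_filter]; exact ⟨ha, by omega⟩
        have h6 : (B.filter (fun a => Q a = M)).card = 0 := Nat.cast_eq_zero.mp hxy.2
        rw [Finset.card_eq_zero] at h6
        rw [h6] at h5
        exact absurd h5 (notMem_empty _)
    have down : ∀ k M, M ≤ b → M ≤ 2 + k → (∀ a ∈ A, R a ≤ M) → (∀ a ∈ B, Q a ≤ M) →
        (∀ a ∈ A, R a ≤ 2) ∧ (∀ a ∈ B, Q a ≤ 2) := by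
      intro k
      induction k with
      | zero =>
        intro M _ h2 hA hB
        exact ⟨fun a ha => (hA a ha).trans h2, fun a ha => (hB a ha).trans h2⟩
      | succ k ih =>
        intro M hMb h2 hA hB
        by_cases h3 : M ≤ 2
        · exact ⟨fun a ha => (hA a ha).trans h3, fun a ha => (hB a ha).trans h3⟩
        · obtain ⟨h4, h5⟩ := step M (by omega) hMb hA hB
          exact ih (M - 1) (by omega) (by omega) h4 h5
    exact down b b le_rfl (by omega) hR hQ
  refine ⟨hmax.1, hmax.2, ?_⟩
  by_cases hb : b = 0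
  · have e1 : A.filter (fun a => R a = 2) = ∅ := by
      rw [Finset.filter_eq_empty_iff]
      intro a ha
      have := hR a ha
      omega
    have e2 : B.filter (fun a => Q a = 2) = ∅ := by
      rw [Finset.filter_eq_empty_iff]
      intro a ha
      have := hQ a ha
      omega
    rw [e1, e2]
    rfl
  have k1 := key 2 le_rfl (by omega)
  have : B.filter (fun a => 2 ≤ Q a) = B.filter (fun a => Q a = 2) := by
    refine Finset.filter_congr fun a ha => ?_
    have := hmax.2 a ha
    omega
  rw [this, Finset.sum_congr rfl (g := fun _ => (-1 : ℤ)), Finset.sum_const] at k1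
  · simp only [nsmul_eq_mul] at k1
    have : ((A.filter (fun a => R a = 2)).card : ℤ) = ((B.filter (fun a => Q a = 2)).card : ℤ) := by
      linarith
    exact_mod_cast this
  · intro a ha
    rw [mem_filter] at ha
    rw [ha.2]
    norm_num

end Pool.Agent.GaussPoset
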