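import Mathlib
import Pool.Agent.W_448zz_h61.Ns
import Pool.Agent.W_448zz_h61.M002
import Pool.Agent.W_448zz_h61.M003
import Pool.Agent.W_448zz_h61.M004

/-! From `Pool.Agent.W_MP_448cb3_h96.Heights` -/

section

namespace Pool.Agent.GaussPoset

set_option linter.unusedSectionVars false

open Polynomial Finset

universe u

variable {P : Type u} [Fintype P] [PartialOrder P] [DecidableEq P]

lemma constantCoeff_Den {n : ℕ} {h : Fin n → ℕ} (hpos : ∀ i, 0 < h i) :
    PowerSeries.constantCoeff (Den h) = 1 := by
  unfold Den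
  rw [map_prod]
  refine Finset.prod_eq_one fun i _ => ?_
  rw [map_sub, map_one, map_pow, PowerSeries.constantCoeff_X, zero_pow (hpos i).ne', sub_zero]

lemma exq_C_X_pow_mul (N M : ℕ) (f : Polynomial (PowerSeries ℤ)) :
    exq N (C (PowerSeries.X ^ M) * f) = if M ≤ N then exq (N - M) f else 0 := by
  ext k
  rw [coeff_exq, Polynomial.coeff_C_mul, PowerSeries.coeff_X_pow_mul']
  split_ifs
  · rw [coeff_exq]
  · rfl

lemma exq_zero (f : Polynomial (PowerSeries ℤ)) :
    exq 0 f = f.map (PowerSeries.constantCoeff (R := ℤ)) := by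
  ext k
  rw [coeff_exq, Polynomial.coeff_map, PowerSeries.coeff_zero_eq_constantCoeff]

open Classical in
lemma window_fact (j : ℕ) {h : Fin (Fintype.card P) → ℕ} (hpos : ∀ i, 0 < h i)
    (hU : ∀ m : ℕ, U P m * ∏ i, (1 - (X : ℤ[X]) ^ (h i)) = ∏ i, (1 - (X : ℤ[X]) ^ (m + h i))) :
    ∃ R : Polynomial (PowerSeries ℤ),
      W P j = C (PowerSeries.X ^ (∑ i, min j (h i - 1))) *
        (((1 + X : ℤ[X]) ^ ((univ.filter (fun i => h i - 1 = j)).card)).map
          (PowerSeries.C : ℤ →+* PowerSeries ℤ) * R) ∧
      R.map (PowerSeries.constantCoeff (R := ℤ)) =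
        X ^ (univ.filter (fun i => h i - 1 < j)).card := by
  have hD1 := constantCoeff_Den hpos
  have hunit : IsUnit (Den h) := by
    rw [PowerSeries.isUnit_iff_constantCoeff, hD1]; exact isUnit_one
  obtain ⟨D', hD'⟩ := hunit.exists_right_inv
  have hD2 : PowerSeries.constantCoeff D' = 1 := by
    have := congrArg (PowerSeries.constantCoeff (R := ℤ)) hD'
    rw [map_mul, hD1, one_mul, map_one] at this
    exact this
  let fac : Fin (Fintype.card P) → Polynomial (PowerSeries ℤ) := fun i =>
    C (PowerSeries.X ^ (j - (h i - 1))) + C (PowerSeries.X ^ ((h i - 1) - j)) * X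
  refine ⟨(∏ i ∈ univ.filter (fun i => ¬ (h i - 1 = j)), fac i) * C D', ?_, ?_⟩
  · have hW := W_identity j hpos hU
    have h1 : W P j = (W P j * C (Den h)) * C D' := by
      rw [mul_assoc, ← C_mul, hD', C_1, mul_one]
    have h2 : ∏ i, (C (PowerSeries.X ^ j) + C (PowerSeries.X ^ (h i - 1)) * X) =
        C (PowerSeries.X ^ (∑ i, min j (h i - 1))) * ∏ i, fac i := by
      rw [← Finset.prod_pow_eq_pow_sum, map_prod, ← Finset.prod_mul_distrib]
      refine Finset.prod_congr rfl fun i _ => ?_
      simp only [fac]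
      rw [mul_add, ← C_mul, ← pow_add, ← mul_assoc, ← C_mul, ← pow_add]
      have e1 : min j (h i - 1) + (j - (h i - 1)) = j := by omega
      have e2 : min j (h i - 1) + (h i - 1 - j) = h i - 1 := by omega
      rw [e1, e2]
    have h3 : ∏ i, fac i = ((1 + X : ℤ[X]) ^ ((univ.filter (fun i => h i - 1 = j)).card)).map
          (PowerSeries.C : ℤ →+* PowerSeries ℤ) *
          ∏ i ∈ univ.filter (fun i => ¬ (h i - 1 = j)), fac i := by
      rw [← Finset.prod_filter_mul_prod_filter_not univ (fun i => h i - 1 = j)]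
      congr 1
      rw [Finset.prod_congr rfl (g := fun _ => (1 + X : Polynomial (PowerSeries ℤ)))]
      · rw [Finset.prod_const]
        simp
      · intro i hi
        simp only [mem_filter, mem_univ, true_and] at hi
        simp only [fac]
        rw [hi]
        simp
    rw [h1, hW, h2, h3]
    ring
  · rw [Polynomial.map_mul, Polynomial.map_C, hD2, C_1, mul_one, Polynomial.map_prod]
    have h4 : ∀ i ∈ univ.filter (fun i => ¬ (h i - 1 = j)),
        (fac i).map (PowerSeries.constantCoeff (R := ℤ)) =
          if h i - 1 < j then (X : ℤ[X]) else 1 := by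
      intro i hi
      simp only [mem_filter, mem_univ, true_and] at hi
      simp only [fac]
      have e0 : ∀ k : ℕ, PowerSeries.constantCoeff ((PowerSeries.X : PowerSeries ℤ) ^ k) =
          (0 : ℤ) ^ k := by
        intro k; rw [map_pow, PowerSeries.constantCoeff_X]
      rw [Polynomial.map_add, Polynomial.map_mul, Polynomial.map_C, Polynomial.map_C,
        Polynomial.map_X, e0, e0]
      split_ifs with h5
      · rw [zero_pow (M₀ := ℤ) (n := j - (h i - 1)) (by omega),
          show h i - 1 - j = 0 by omega]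
        simp
      · rw [zero_pow (M₀ := ℤ) (n := h i - 1 - j) (by omega),
          show j - (h i - 1) = 0 by omega]
        simp
    rw [Finset.prod_congr rfl h4, Finset.prod_ite, Finset.prod_const_one, mul_one,
      Finset.prod_const, Finset.filter_filter]
    congr 2
    ext i
    simp only [mem_filter, mem_univ, true_and]
    omega

/-- the level sets -/
noncomputable def lv (P : Type u) [Fintype P] [PartialOrder P] [DecidableEq P] (j : ℕ) :
    Finset P := univ.filter (fun x => lev x = j)

/-- number of elements on levels `< j` -/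
noncomputable def below (P : Type u) [Fintype P] [PartialOrder P] [DecidableEq P] (j : ℕ) :
    ℕ := (univ.filter (fun x : P => lev x < j)).card

lemma mem_lv {j : ℕ} {x : P} : x ∈ lv P j ↔ lev x = j := by
  unfold lv; simp

lemma rho_zero (j : ℕ) (x : P) : rho j 0 x = -((j - lev x : ℕ) : ℤ) := by
  unfold rho; simp

lemma FI_zero (j : ℕ) (x : P) : FI j 0 x ↔ lev x < j := by
  constructor
  · rintro (h | ⟨z, hz, h⟩)
    · rw [rho_zero] at h; omega
    · rw [rho_zero, rho_zero] at h; omega
  · intro h
    left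
    rw [rho_zero]; omega

lemma FA_zero (j : ℕ) (x : P) : FA j 0 x ↔ j < lev x := by
  constructor
  · rintro ⟨y, hy, h⟩
    rw [rho_zero, rho_zero] at h
    have := lev_strictAnti hy
    omega
  · intro h
    obtain ⟨y, hy, hy2⟩ := exists_lev_succ (x := x) (k := lev x - 1) (by omega)
    refine ⟨y, hy, ?_⟩
    rw [rho_zero, rho_zero]; omega

lemma Z_zero (j : ℕ) : Z P j 0 = X ^ (below P j) * (1 + X) ^ (lv P j).card := by
  classical
  unfold Z
  rw [Finset.piAntidiag_zero, Finset.sum_singleton]
  have hA : Adm j (0 : P → ℕ) := by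
    intro x
    rw [FI_zero, FA_zero]; omega
  rw [if_pos hA]
  congr 2
  · unfold nf below
    congr 1
    ext x
    simp [FI_zero]
  · congr 1
    ext x
    simp only [Pk, lv, mem_filter, mem_univ, true_and, FI_zero, FA_zero]
    omega

lemma X_pow_mul_inj {a b c d : ℕ} (h : (X : ℤ[X]) ^ a * (1 + X) ^ b = X ^ c * (1 + X) ^ d) :
    a = c ∧ b = d := by
  have h1 := congrArg (fun f : ℤ[X] => f.eval 1) h
  simp only [eval_mul, eval_pow, eval_X, one_pow, one_mul, eval_add, eval_one] at h1
  have h2 : b = d := by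
    have h3 : (2 : ℕ) ^ b = 2 ^ d := by
      have h4 : ((2 : ℤ)) ^ b = 2 ^ d := by
        rw [show (2 : ℤ) = 1 + 1 by norm_num]; exact h1
      exact_mod_cast h4
    exact Nat.pow_right_injective (le_refl 2) h3
  refine ⟨?_, h2⟩
  rw [h2] at h
  have h5 : ((1 : ℤ[X]) + X) ^ d ≠ 0 := by
    intro h6
    have := congrArg (fun f : ℤ[X] => f.eval 1) h6
    simp only [eval_pow, eval_add, eval_one, eval_X, eval_zero] at this
    norm_num at this
  have h7 := mul_right_cancel₀ h5 h
  have h8 := congrArg Polynomial.natDegree h7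
  simpa using h8

lemma X_pow_mul_ne_zero (a b : ℕ) : (X : ℤ[X]) ^ a * (1 + X) ^ b ≠ 0 := by
  intro h
  have := congrArg (fun f : ℤ[X] => f.eval 1) h
  simp only [eval_mul, eval_pow, eval_X, one_pow, one_mul, eval_add, eval_one, eval_zero] at this
  norm_num at this

open Classical in
/-- the numbers of the `h_i` with given value are the sizes of the levels, and all the
energy `n` window polynomials are divisible by `(1+t)^{b_j}` -/
theorem window_main (j : ℕ) {h : Fin (Fintype.card P) → ℕ} (hpos : ∀ i, 0 < h i)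
    (hU : ∀ m : ℕ, U P m * ∏ i, (1 - (X : ℤ[X]) ^ (h i)) = ∏ i, (1 - (X : ℤ[X]) ^ (m + h i))) :
    (univ.filter (fun i => h i - 1 < j)).card = below P j ∧
    (univ.filter (fun i => h i - 1 = j)).card = (lv P j).card ∧
    ∀ n, (1 + X : ℤ[X]) ^ (lv P j).card ∣ Z P j n := by
  obtain ⟨R, hW, hR⟩ := window_fact j hpos hU
  set M := ∑ i, min j (h i - 1) with hM
  set R' := ((1 + X : ℤ[X]) ^ ((univ.filter (fun i => h i - 1 = j)).card)).map
          (PowerSeries.C : ℤ →+* PowerSeries ℤ) * R with hR'
  have h0 : exq 0 R' = X ^ (univ.filter (fun i => h i - 1 < j)).card *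
      (1 + X) ^ ((univ.filter (fun i => h i - 1 = j)).card) := by
    rw [hR', exq_map_mul, exq_zero, hR, mul_comm]
  have key : ∀ N, (if M ≤ N then exq (N - M) R' else 0) =
      if M0 P j ≤ N then Z P j (N - M0 P j) else 0 := by
    intro N
    rw [← exq_C_X_pow_mul, ← hW, exq_W]
  have hle1 : M0 P j ≤ M := by
    by_contra hcon
    have := key M
    rw [if_pos le_rfl, if_neg hcon, Nat.sub_self, h0] at this
    exact X_pow_mul_ne_zero _ _ this
  have hle2 : M ≤ M0 P j := by
    by_contra hcon
    have := key (M0 P j)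
    rw [if_neg hcon, if_pos le_rfl, Nat.sub_self, Z_zero] at this
    exact X_pow_mul_ne_zero _ _ this.symm
  have hMM : M = M0 P j := le_antisymm hle2 hle1
  have key2 : ∀ n, Z P j n = exq n R' := by
    intro n
    have := key (n + M)
    rw [← hMM, if_pos (Nat.le_add_left _ _), if_pos (Nat.le_add_left _ _),
      Nat.add_sub_cancel] at this
    exact this.symm
  have h1 := key2 0
  rw [Z_zero, h0] at h1
  obtain ⟨h2, h3⟩ := X_pow_mul_inj h1
  refine ⟨h2.symm, h3.symm, fun n => ?_⟩
  rw [key2 n, hR', exq_map_mul, h3]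
  exact Dvd.intro _ rfl

theorem dvd_Z (hG : IsGaussian P) (j n : ℕ) : (1 + X : ℤ[X]) ^ (lv P j).card ∣ Z P j n := by
  obtain ⟨h, hpos, hU⟩ := hG
  exact (window_main j hpos hU).2.2 n

end Pool.Agent.GaussPoset

end

/-! From `Pool.Agent.W_MP_448cb3_h96.Graded` -/

section

namespace Pool.Agent.GaussPoset

set_option linter.unusedSectionVars false

open Polynomial Finset

universe u

variable {P : Type u} [Fintype P] [PartialOrder P] [DecidableEq P]

lemma W_zero_coeff (k : ℕ) : (W P 0).coeff k =
    ∑ F : Finset P, if F.card = k then G F else 0 := by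
  unfold W
  rw [Polynomial.finsetSum_coeff]
  refine Finset.sum_congr rfl fun F _ => ?_
  rw [Polynomial.coeff_C_mul_X_pow, zero_mul, pow_zero, one_mul]
  by_cases h : F.card = k
  · rw [if_pos h, if_pos h.symm]
  · rw [if_neg h, if_neg (fun h' => h h'.symm)]

lemma G_empty {h : Fin (Fintype.card P) → ℕ} (hpos : ∀ i, 0 < h i)
    (hU : ∀ m : ℕ, U P m * ∏ i, (1 - (X : ℤ[X]) ^ (h i)) = ∏ i, (1 - (X : ℤ[X]) ^ (m + h i))) :
    G (∅ : Finset P) * Den h = 1 := by
  have h1 := congrArg (fun f => Polynomial.coeff f 0) (W_identity 0 hpos hU)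
  simp only [Polynomial.coeff_mul_C] at h1
  rw [W_zero_coeff, Finset.sum_eq_single (∅ : Finset P), if_pos Finset.card_empty,
    Polynomial.coeff_zero_prod] at h1
  · rw [h1]
    refine Finset.prod_eq_one fun i _ => ?_
    simp
  · intro F _ hF
    rw [if_neg]
    rwa [Finset.card_eq_zero]
  · intro hh
    exact absurd (mem_univ _) hh

lemma G_univ {h : Fin (Fintype.card P) → ℕ} (hpos : ∀ i, 0 < h i)
    (hU : ∀ m : ℕ, U P m * ∏ i, (1 - (X : ℤ[X]) ^ (h i)) = ∏ i, (1 - (X : ℤ[X]) ^ (m + h i))) :
    G (univ : Finset P) * Den h = PowerSeries.X ^ (∑ i, (h i - 1)) := by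
  have h1 := congrArg (fun f => Polynomial.coeff f (Fintype.card P)) (W_identity 0 hpos hU)
  simp only [Polynomial.coeff_mul_C] at h1
  rw [W_zero_coeff, Finset.sum_eq_single (univ : Finset P), if_pos Finset.card_univ] at h1
  · have h2 := Polynomial.coeff_prod_of_natDegree_le (univ : Finset (Fin (Fintype.card P)))
      (fun i => C (PowerSeries.X ^ 0) + C (PowerSeries.X ^ (h i - 1)) *
        (X : Polynomial (PowerSeries ℤ))) 1 (by
          intro i _
          compute_degree)
    rw [Finset.card_univ, Fintype.card_fin, mul_one] at h2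
    rw [h1, h2, ← Finset.prod_pow_eq_pow_sum]
    refine Finset.prod_congr rfl fun i _ => ?_
    rw [Polynomial.coeff_add, Polynomial.coeff_C_mul, Polynomial.coeff_X_one,
      Polynomial.coeff_C_succ, zero_add, mul_one]
  · intro F _ hF
    rw [if_neg]
    rwa [Finset.card_eq_iff_eq_univ]
  · intro hh
    exact absurd (mem_univ _) hh

lemma conf_univ (l : P → ℕ) : Conf univ l ↔ StrictAnti l := by
  unfold Conf
  constructor
  · rintro ⟨-, -, h⟩ x y hxy
    exact h x y hxy (mem_univ _) (mem_univ _)
  · intro h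
    exact ⟨fun x y _ _ => mem_univ _, fun x y _ hx => absurd (mem_univ x) hx,
      fun x y hxy _ _ => h hxy⟩

lemma conf_empty (l : P → ℕ) : Conf ∅ l ↔ Monotone l := by
  unfold Conf
  constructor
  · rintro ⟨-, h, -⟩ x y hxy
    exact h x y hxy (notMem_empty _) (notMem_empty _)
  · intro h
    exact ⟨fun x y _ hx => absurd hx (notMem_empty _), fun x y hxy _ _ => h hxy,
      fun x y _ hx => absurd hx (notMem_empty _)⟩

open Classical in
lemma card_anti {h : Fin (Fintype.card P) → ℕ} (hpos : ∀ i, 0 < h i)
    (hU : ∀ m : ℕ, U P m * ∏ i, (1 - (X : ℤ[X]) ^ (h i)) = ∏ i, (1 - (X : ℤ[X]) ^ (m + h i)))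
    (N : ℕ) :
    (((univ : Finset P).piAntidiag N).filter (fun l => StrictAnti l)).card =
      if ∑ i, (h i - 1) ≤ N then
        (((univ : Finset P).piAntidiag (N - ∑ i, (h i - 1))).filter (fun l => Antitone l)).card
      else 0 := by
  have h1 := G_empty hpos hU
  have h2 := G_univ hpos hU
  have h3 : G (∅ : Finset Pᵒᵈ) * Den h = 1 := G_empty (P := Pᵒᵈ) hpos (dual_gauss hU)
  have h4 : G (univ : Finset P) = PowerSeries.X ^ (∑ i, (h i - 1)) * G (∅ : Finset Pᵒᵈ) := by
    calc G (univ : Finset P) = G (univ : Finset P) * (G (∅ : Finset Pᵒᵈ) * Den h) := by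
          rw [h3, mul_one]
      _ = (G (univ : Finset P) * Den h) * G (∅ : Finset Pᵒᵈ) := by ring
      _ = _ := by rw [h2]
  have h5 := congrArg (PowerSeries.coeff N) h4
  rw [PowerSeries.coeff_X_pow_mul'] at h5
  unfold G at h5
  rw [PowerSeries.coeff_mk, PowerSeries.coeff_mk] at h5
  have h6 : ∀ l : Pᵒᵈ → ℕ, Conf (∅ : Finset Pᵒᵈ) l ↔
      Antitone (fun x : P => l (OrderDual.toDual x)) := by
    intro l
    rw [conf_empty]
    constructor
    · intro hl x y hxy
      exact hl (OrderDual.toDual_le_toDual.mpr hxy)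
    · intro hl x y hxy
      exact hl (a := OrderDual.ofDual y) (b := OrderDual.ofDual x) hxy
  have h7 : (((univ : Finset P).piAntidiag N).filter (fun l => StrictAnti l)) =
      (((univ : Finset P).piAntidiag N).filter (fun l => Conf univ l)) := by
    refine Finset.filter_congr fun l _ => (conf_univ l).symm
  rw [h7]
  split_ifs at h5 ⊢ with h8
  · have h9 : (((univ : Finset P).piAntidiag (N - ∑ i, (h i - 1))).filter
        (fun l => Antitone l)).card =
        ((((univ : Finset Pᵒᵈ).piAntidiag (N - ∑ i, (h i - 1))).filter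
          (fun l => Conf (∅ : Finset Pᵒᵈ) l))).card := by
      refine Finset.card_bij (fun l _ => fun y : Pᵒᵈ => l (OrderDual.ofDual y)) ?_ ?_ ?_
      · intro l hl
        rw [mem_filter, mem_piAntidiag] at hl
        rw [mem_filter, mem_piAntidiag]
        exact ⟨⟨hl.1.1, fun i _ => mem_univ i⟩, (h6 _).mpr hl.2⟩
      · intro l _ l' _ hh
        funext x
        exact congrFun hh (OrderDual.toDual x)
      · intro l hl
        rw [mem_filter, mem_piAntidiag] at hl
        refine ⟨fun x => l (OrderDual.toDual x), ?_, rfl⟩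
        rw [mem_filter, mem_piAntidiag]
        exact ⟨⟨hl.1.1, fun i _ => mem_univ i⟩, (h6 l).mp hl.2⟩
    rw [h9]
    exact_mod_cast h5
  · exact_mod_cast h5

lemma sum_lev_eq {h : Fin (Fintype.card P) → ℕ} (hpos : ∀ i, 0 < h i)
    (hU : ∀ m : ℕ, U P m * ∏ i, (1 - (X : ℤ[X]) ^ (h i)) = ∏ i, (1 - (X : ℤ[X]) ^ (m + h i))) :
    ∑ i, (h i - 1) = ∑ x : P, lev x := by
  classical
  have h1 := card_anti hpos hU
  apply le_antisymm
  · by_contra hcon
    have h2 := h1 (∑ x : P, lev x)
    rw [if_neg hcon, Finset.card_eq_zero, Finset.filter_eq_empty_iff] at h2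
    refine h2 (x := lev) ?_ lev_strictAnti
    rw [mem_piAntidiag]
    exact ⟨rfl, fun _ _ => mem_univ _⟩
  · have h2 := h1 (∑ i, (h i - 1))
    have hant : Antitone (0 : P → ℕ) := fun _ _ _ => le_rfl
    rw [if_pos le_rfl, Nat.sub_self, Finset.piAntidiag_zero, Finset.filter_singleton,
      if_pos hant, Finset.card_singleton] at h2
    have h3 : (((univ : Finset P).piAntidiag (∑ i, (h i - 1))).filter
      (fun l => StrictAnti l)).Nonempty := by
      rw [← Finset.card_pos, h2]; exact Nat.one_pos
    obtain ⟨l, hl⟩ := h3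
    rw [mem_filter, mem_piAntidiag] at hl
    rw [← hl.1.1]
    exact Finset.sum_le_sum fun x _ => lev_le hl.2 x

theorem strictAnti_sub (hG : IsGaussian P) {l : P → ℕ} (hl : StrictAnti l) {x y : P}
    (hxy : x ≤ y) : l y + lev x ≤ l x + lev y := by
  classical
  obtain ⟨h, hpos, hU⟩ := hG
  have h1 := card_anti hpos hU
  have h2 := sum_lev_eq hpos hU
  rw [h2] at h1
  have h3 : ∑ x : P, lev x ≤ ∑ x, l x := Finset.sum_le_sum fun x _ => lev_le hl x
  have h4 := h1 (∑ x, l x)
  rw [if_pos h3] at h4
  have h5 := Finset.surj_on_of_inj_on_of_card_le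
    (s := ((univ : Finset P).piAntidiag (∑ x, l x - ∑ x, lev x)).filter (fun l => Antitone l))
    (t := ((univ : Finset P).piAntidiag (∑ x, l x)).filter (fun l => StrictAnti l))
    (fun μ _ x => μ x + lev x) (by
      intro μ hμ
      rw [mem_filter, mem_piAntidiag] at hμ ⊢
      refine ⟨⟨?_, fun _ _ => mem_univ _⟩, ?_⟩
      · rw [Finset.sum_add_distrib]
        have h6 : ∑ x, μ x = ∑ x, l x - ∑ x, lev x := hμ.1.1
        omega
      · intro a b hab
        have h7 := lev_strictAnti hab
        have h8 := hμ.2 hab.le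
        change μ b + lev b < μ a + lev a
        omega) (by
      intro μ ν _ _ hh
      funext x
      have := congrFun hh x
      change μ x + lev x = ν x + lev x at this
      omega) h4.le
  obtain ⟨μ, hμ, hlμ⟩ := h5 l (by
    rw [mem_filter, mem_piAntidiag]
    exact ⟨⟨rfl, fun _ _ => mem_univ _⟩, hl⟩)
  rw [mem_filter] at hμ
  have h9 := hμ.2 hxy
  rw [hlμ]
  change μ y + lev y + lev x ≤ μ x + lev x + lev y
  omega

open Classical in
theorem lev_covBy (hG : IsGaussian P) {z x : P} (hzx : z ⋖ x) : lev z = lev x + 1 := by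
  set K := ∑ y : P, lev y with hK
  have hK2 : ∀ y : P, lev y ≤ K := fun y => Finset.single_le_sum
    (f := fun y : P => lev y) (fun _ _ => Nat.zero_le _) (mem_univ y)
  set c : P → ℕ := fun y => (univ.filter (fun w => y < w ∧ w ≤ x)).card with hc
  have hstr : StrictAnti (fun y => if y ≤ x then K + c y else lev y) := by
    intro a b hab
    change (if b ≤ x then K + c b else lev b) < (if a ≤ x then K + c a else lev a)
    by_cases hb : b ≤ x
    · rw [if_pos hb, if_pos (hab.le.trans hb)]
      have : c b < c a := by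
        apply Finset.card_lt_card
        rw [Finset.ssubset_iff_of_subset]
        · refine ⟨b, ?_, ?_⟩
          · simp [hab, hb]
          · simp
        · intro w hw
          simp only [mem_filter, mem_univ, true_and] at hw ⊢
          exact ⟨hab.trans hw.1, hw.2⟩
      omega
    · rw [if_neg hb]
      have h1 := lev_strictAnti hab
      have h2 := hK2 a
      split_ifs
      · omega
      · exact h1
  have h1 := strictAnti_sub hG hstr hzx.le
  simp only [hzx.le, le_refl, if_true] at h1
  have h2 : c x = 0 := by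
    rw [hc]
    simp only
    rw [Finset.card_eq_zero, Finset.filter_eq_empty_iff]
    rintro w _ ⟨h3, h4⟩
    exact lt_irrefl _ (h3.trans_le h4)
  have h3 : c z = 1 := by
    rw [hc]
    simp only
    rw [Finset.card_eq_one]
    refine ⟨x, ?_⟩
    ext w
    simp only [mem_filter, mem_univ, true_and, mem_singleton]
    constructor
    · rintro ⟨h4, h5⟩
      by_contra h6
      exact hzx.2 h4 (lt_of_le_of_ne h5 h6)
    · rintro rfl
      exact ⟨hzx.1, le_rfl⟩
  have h4 := lev_strictAnti hzx.1
  omega

theorem gauss_dual (hG : IsGaussian P) : IsGaussian Pᵒᵈ := by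
  obtain ⟨h, hpos, hU⟩ := hG
  exact ⟨h, hpos, dual_gauss hU⟩

/-- colevel: length of a longest chain strictly below `x` -/
noncomputable def colev (x : P) : ℕ := lev (OrderDual.toDual x)

theorem colev_covBy (hG : IsGaussian P) {z x : P} (hzx : z ⋖ x) : colev x = colev z + 1 :=
  lev_covBy (gauss_dual hG) (z := OrderDual.toDual x) (x := OrderDual.toDual z) (by simpa using hzx)

theorem card_lv_zero (hG : IsGaussian P) (j : ℕ) : (lv Pᵒᵈ j).card = (lv P j).card := by
  classical
  obtain ⟨h, hpos, hU⟩ := hG
  have h1 := (window_main (P := P) j hpos hU).2.1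
  have h2 := (window_main (P := Pᵒᵈ) j hpos (dual_gauss hU)).2.1
  rw [← h1]
  exact h2.symm

end Pool.Agent.GaussPoset

end

/-! From `Pool.Agent.W_MP_448cb3_h96.Energy1` -/

section

namespace Pool.Agent.GaussPoset

set_option linter.unusedSectionVars false

open Polynomial Finset

universe u

variable {P : Type u} [Fintype P] [PartialOrder P] [DecidableEq P]

/-- `P` is Gaussian, and all maximal chains have `r + 1` elements -/
structure Gr (P : Type u) [Fintype P] [PartialOrder P] (r : ℕ) : Prop where
  gauss : IsGaussian P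
  hr : ∀ x : P, lev x + colev x = r

lemma exists_above : ∀ (n : ℕ) {x : P} {j : ℕ}, lev x = j + n → ∃ y, x ≤ y ∧ lev y = j := by
  intro n
  induction n with
  | zero => intro x j h; exact ⟨x, le_rfl, h⟩
  | succ n ih =>
    intro x j h
    obtain ⟨y, hy, hy2⟩ := exists_lev_succ (x := x) (k := j + n) (by omega)
    obtain ⟨w, hw, hw2⟩ := ih hy2
    exact ⟨w, hy.le.trans hw, hw2⟩

lemma exists_above' {x : P} {j : ℕ} (h : j ≤ lev x) : ∃ y, x ≤ y ∧ lev y = j :=
  exists_above (lev x - j) (by omega)

lemma Gr.dual {r : ℕ} (H : Gr P r) : Gr Pᵒᵈ r := by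
  refine ⟨gauss_dual H.gauss, fun x => ?_⟩
  have := H.hr (OrderDual.ofDual x)
  unfold colev at this ⊢
  have e1 : lev (P := Pᵒᵈᵒᵈ) (OrderDual.toDual x) = lev (OrderDual.ofDual x) := rfl
  have e2 : lev (P := Pᵒᵈ) (OrderDual.toDual (OrderDual.ofDual x)) = lev x := rfl
  omega

lemma Gr.lev_le {r : ℕ} (H : Gr P r) (x : P) : lev x ≤ r := by
  have := H.hr x; omega

lemma Gr.exists_below {r : ℕ} (H : Gr P r) {x : P} {j : ℕ} (h1 : lev x ≤ j) (h2 : j ≤ r) :
    ∃ z, z ≤ x ∧ lev z = j := by
  have h3 := H.hr x
  obtain ⟨y, hy, hy2⟩ := exists_above' (P := Pᵒᵈ) (x := OrderDual.toDual x) (j := r - j)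
    (by unfold colev at h3; omega)
  refine ⟨OrderDual.ofDual y, OrderDual.le_toDual.mp hy |>.trans le_rfl, ?_⟩
  have h4 := H.hr (OrderDual.ofDual y)
  unfold colev at h4
  rw [OrderDual.toDual_ofDual, hy2] at h4
  omega

lemma Gr.covBy_iff {r : ℕ} (H : Gr P r) {z x : P} : z ⋖ x ↔ z < x ∧ lev z = lev x + 1 := by
  constructor
  · intro h
    exact ⟨h.1, lev_covBy H.gauss h⟩
  · rintro ⟨h1, h2⟩
    refine ⟨h1, fun w hw hw2 => ?_⟩
    have := lev_strictAnti hw
    have := lev_strictAnti hw2
    omega

lemma rho_single (j : ℕ) (a x : P) : rho j (Pi.single a 1) x =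
    (if x = a then 1 else 0) - ((j - lev x : ℕ) : ℤ) := by
  unfold rho
  by_cases h : x = a
  · subst h; simp
  · simp [h]

lemma sum_piAntidiag_one {M : Type*} [AddCommMonoid M] (f : (P → ℕ) → M) :
    ∑ e ∈ (univ : Finset P).piAntidiag 1, f e = ∑ a : P, f (Pi.single a 1) := by
  symm
  refine Finset.sum_bij (fun a _ => Pi.single a 1) ?_ ?_ ?_ (fun _ _ => rfl)
  · intro a _
    rw [mem_piAntidiag]
    refine ⟨?_, fun _ _ => mem_univ _⟩
    simp
  · intro a _ b _ h
    have := congrFun h a
    by_contra hab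
    rw [Pi.single_eq_same, Pi.single_eq_of_ne hab] at this
    exact absurd this one_ne_zero
  · intro e he
    rw [mem_piAntidiag] at he
    have hne : ∃ a, e a ≠ 0 := by
      by_contra hcon
      push Not at hcon
      have : univ.sum e = 0 := Finset.sum_eq_zero fun x _ => hcon x
      omega
    obtain ⟨a, ha⟩ := hne
    refine ⟨a, mem_univ _, ?_⟩
    have h1 := Finset.add_sum_erase univ e (mem_univ a)
    rw [he.1] at h1
    have h2 : ∑ x ∈ univ.erase a, e x = 0 := by omega
    rw [Finset.sum_eq_zero_iff] at h2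
    funext x
    by_cases hx : x = a
    · subst hx; rw [Pi.single_eq_same]; omega
    · rw [Pi.single_eq_of_ne hx]
      exact (h2 x (mem_erase.mpr ⟨hx, mem_univ _⟩)).symm

section Cases

variable (j : ℕ) (a : P)

lemma FI_case1 (ha : lev a = j) (x : P) : FI j (Pi.single a 1) x ↔ lev x < j := by
  unfold FI
  constructor
  · rintro (h | ⟨z, hz, h⟩)
    · rw [rho_single] at h
      split_ifs at h with h1 <;> omega
    · rw [rho_single, rho_single] at h
      have := lev_strictAnti hz
      split_ifs at h with h1 h2 h2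
      · subst h1; subst h2; exact absurd hz (lt_irrefl _)
      · omega
      · subst h2; omega
      · omega
  · intro h
    left
    rw [rho_single, if_neg (by rintro rfl; omega)]
    omega

lemma FA_case1 (ha : lev a = j) (x : P) : FA j (Pi.single a 1) x ↔ j < lev x := by
  unfold FA
  constructor
  · rintro ⟨y, hy, h⟩
    rw [rho_single, rho_single] at h
    have := lev_strictAnti hy
    split_ifs at h with h1 h2 h2
    · subst h1; subst h2; exact absurd hy (lt_irrefl _)
    · omega
    · subst h2; omega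
    · omega
  · intro h
    obtain ⟨y, hy, hy2⟩ := exists_above' (x := x) (j := j) h.le
    have hne : x ≠ y := by rintro rfl; omega
    refine ⟨y, lt_of_le_of_ne hy hne, ?_⟩
    rw [rho_single, rho_single, if_neg (by rintro rfl; omega)]
    split_ifs <;> omega

lemma FI_case2 (ha : lev a + 1 = j) (x : P) :
    FI j (Pi.single a 1) x ↔ lev x < j ∧ x ≠ a := by
  unfold FI
  constructor
  · rintro (h | ⟨z, hz, h⟩)
    · rw [rho_single] at h
      split_ifs at h with h1
      · subst h1; omega
      · exact ⟨by omega, h1⟩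
    · rw [rho_single, rho_single] at h
      have := lev_strictAnti hz
      split_ifs at h with h1 h2 h2
      · subst h1; subst h2; exact absurd hz (lt_irrefl _)
      · subst h1; omega
      · subst h2; exact ⟨by omega, h1⟩
      · exact ⟨by omega, h1⟩
  · rintro ⟨h, h1⟩
    left
    rw [rho_single, if_neg h1]
    omega

lemma FA_case2 (ha : lev a + 1 = j) (x : P) :
    FA j (Pi.single a 1) x ↔ j < lev x ∨ (lev x = j ∧ x < a) := by
  unfold FA
  constructor
  · rintro ⟨y, hy, h⟩
    rw [rho_single, rho_single] at h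
    have := lev_strictAnti hy
    split_ifs at h with h1 h2 h2
    · subst h1; subst h2; exact absurd hy (lt_irrefl _)
    · subst h1; omega
    · subst h2
      by_cases h3 : j < lev x
      · exact Or.inl h3
      · exact Or.inr ⟨by omega, hy⟩
    · left; omega
  · rintro (h | ⟨h, h2⟩)
    · obtain ⟨y, hy, hy2⟩ := exists_above' (x := x) (j := j) h.le
      have hne : x ≠ y := by rintro rfl; omega
      refine ⟨y, lt_of_le_of_ne hy hne, ?_⟩
      rw [rho_single, rho_single, if_neg (by rintro rfl; omega), if_neg (by rintro rfl; omega)]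
      omega
    · refine ⟨a, h2, ?_⟩
      rw [rho_single, rho_single, if_neg h2.ne, if_pos rfl]
      omega

lemma FI_case3 (ha : lev a = j + 1) (x : P) :
    FI j (Pi.single a 1) x ↔ lev x < j ∨ (lev x = j ∧ a < x) := by
  unfold FI
  constructor
  · rintro (h | ⟨z, hz, h⟩)
    · rw [rho_single] at h
      split_ifs at h with h1
      · subst h1; omega
      · left; omega
    · rw [rho_single, rho_single] at h
      have := lev_strictAnti hz
      split_ifs at h with h1 h2 h2
      · subst h1; subst h2; exact absurd hz (lt_irrefl _)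
      · subst h1; omega
      · subst h2
        by_cases h3 : lev x < j
        · exact Or.inl h3
        · exact Or.inr ⟨by omega, hz⟩
      · left; omega
  · rintro (h | ⟨h, h2⟩)
    · left
      rw [rho_single, if_neg (by rintro rfl; omega)]
      omega
    · right
      refine ⟨a, h2, ?_⟩
      rw [rho_single, rho_single, if_neg h2.ne', if_pos rfl]
      omega

lemma FA_case3 (ha : lev a = j + 1) (x : P) :
    FA j (Pi.single a 1) x ↔ j < lev x ∧ x ≠ a := by
  unfold FA
  constructor
  · rintro ⟨y, hy, h⟩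
    rw [rho_single, rho_single] at h
    have := lev_strictAnti hy
    split_ifs at h with h1 h2 h2
    · subst h1; subst h2; exact absurd hy (lt_irrefl _)
    · subst h1; omega
    · subst h2; exact ⟨by omega, h1⟩
    · exact ⟨by omega, h1⟩
  · rintro ⟨h, h1⟩
    obtain ⟨y, hy, hy2⟩ := exists_above' (x := x) (j := j) h.le
    have hne : x ≠ y := by rintro rfl; omega
    refine ⟨y, lt_of_le_of_ne hy hne, ?_⟩
    rw [rho_single, rho_single, if_neg h1, if_neg (by rintro rfl; omega)]
    omega

lemma not_adm_case4 {r : ℕ} (H : Gr P r) (hj : j ≤ r) (ha : lev a + 1 < j) :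
    ¬ Adm j (Pi.single a 1) := by
  intro hA
  obtain ⟨z, hz, hz2⟩ := H.exists_below (x := a) (j := lev a + 1) (by omega) (by omega)
  have hne : z ≠ a := by rintro rfl; omega
  refine hA z ⟨Or.inl ?_, a, lt_of_le_of_ne hz hne, ?_⟩
  · rw [rho_single, if_neg hne]; omega
  · rw [rho_single, rho_single, if_neg hne, if_pos rfl]; omega

lemma not_adm_case5 (ha : j + 1 < lev a) : ¬ Adm j (Pi.single a 1) := by
  intro hA
  obtain ⟨y, hy, hy2⟩ := exists_above' (x := a) (j := j + 1) ha.le
  obtain ⟨w, hw, hw2⟩ := exists_above' (x := y) (j := j) (by omega)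
  have hne : y ≠ a := by rintro rfl; omega
  have hne2 : y ≠ w := by rintro rfl; omega
  refine hA y ⟨Or.inr ⟨a, lt_of_le_of_ne hy hne.symm, ?_⟩, w, lt_of_le_of_ne hw hne2, ?_⟩
  · rw [rho_single, rho_single, if_neg hne, if_pos rfl]; omega
  · rw [rho_single, rho_single, if_neg hne, if_neg (by rintro rfl; omega)]; omega

end Cases

/-- number of elements of level `j` below `a` -/
noncomputable def dn (j : ℕ) (a : P) : ℕ := by
  classical exact ((lv P j).filter (fun v => v < a)).card

/-- number of elements of level `j` above `a` -/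
noncomputable def up (j : ℕ) (a : P) : ℕ := by
  classical exact ((lv P j).filter (fun v => a < v)).card

open Classical in
lemma term_case1 (j : ℕ) (a : P) (ha : lev a = j) :
    (if Adm j (Pi.single a 1) then (X : ℤ[X]) ^ (nf j (Pi.single a 1)) *
      (1 + X) ^ (Pk j (Pi.single a 1)).card else 0) = X ^ (below P j) * (1 + X) ^ (lv P j).card := by
  have hA : Adm j (Pi.single a 1) := by
    intro x
    rw [FI_case1 j a ha, FA_case1 j a ha]; omega
  rw [if_pos hA]
  congr 2
  · unfold nf below
    congr 1
    ext x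
    simp [FI_case1 j a ha]
  · congr 1
    ext x
    simp only [Pk, lv, mem_filter, mem_univ, true_and, FI_case1 j a ha, FA_case1 j a ha]
    omega

open Classical in
lemma term_case2 (j : ℕ) (a : P) (ha : lev a + 1 = j) :
    X * (if Adm j (Pi.single a 1) then (X : ℤ[X]) ^ (nf j (Pi.single a 1)) *
      (1 + X) ^ (Pk j (Pi.single a 1)).card else 0) =
      X ^ (below P j) * (1 + X) ^ ((lv P j).card + 1 - dn j a) := by
  have hA : Adm j (Pi.single a 1) := by
    intro x
    rw [FI_case2 j a ha, FA_case2 j a ha]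
    omega
  rw [if_pos hA, ← mul_assoc, ← pow_succ']
  have h1 : nf j (Pi.single a 1) + 1 = below P j := by
    unfold nf below
    have : (univ.filter (fun x : P => lev x < j)) =
        insert a (univ.filter (fun x => FI j (Pi.single a 1) x)) := by
      ext x
      simp only [mem_filter, mem_univ, true_and, mem_insert, FI_case2 j a ha]
      by_cases hx : x = a
      · subst hx; simp; omega
      · simp [hx]
    rw [this, Finset.card_insert_of_notMem]
    simp [FI_case2 j a ha]
  have h2 : (Pk j (Pi.single a 1)).card = (lv P j).card + 1 - dn j a := by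
    have h3 : Pk j (Pi.single a 1) = insert a ((lv P j).filter (fun v => ¬ v < a)) := by
      ext x
      simp only [Pk, mem_filter, mem_univ, true_and, mem_insert, mem_lv, FI_case2 j a ha,
        FA_case2 j a ha]
      by_cases hx : x = a
      · subst hx; simp; omega
      · simp only [hx, ne_eq, not_false_eq_true, and_true, false_or, not_or, not_and]
        constructor
        · rintro ⟨h4, h5, h6⟩
          exact ⟨by omega, h6 (by omega)⟩
        · rintro ⟨h4, h5⟩
          exact ⟨by omega, by omega, fun _ => h5⟩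
    rw [h3, Finset.card_insert_of_notMem]
    · have h4 := Finset.card_filter_add_card_filter_not (s := lv P j) (fun v => v < a)
      unfold dn
      omega
    · simp only [mem_filter, mem_lv]
      omega
  rw [h1, h2]

open Classical in
lemma term_case3 (j : ℕ) (a : P) (ha : lev a = j + 1) :
    (if Adm j (Pi.single a 1) then (X : ℤ[X]) ^ (nf j (Pi.single a 1)) *
      (1 + X) ^ (Pk j (Pi.single a 1)).card else 0) =
      X ^ (below P j) * (X ^ (up j a) * (1 + X) ^ ((lv P j).card + 1 - up j a)) := by
  have hA : Adm j (Pi.single a 1) := by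
    intro x
    rw [FI_case3 j a ha, FA_case3 j a ha]
    omega
  rw [if_pos hA, ← mul_assoc, ← pow_add]
  have h1 : nf j (Pi.single a 1) = below P j + up j a := by
    unfold nf below up
    have : (univ.filter (fun x => FI j (Pi.single a 1) x)) =
        (univ.filter (fun x : P => lev x < j)) ∪ ((lv P j).filter (fun v => a < v)) := by
      ext x
      simp only [mem_filter, mem_univ, true_and, mem_union, mem_lv, FI_case3 j a ha]
    rw [this, Finset.card_union_of_disjoint]
    rw [Finset.disjoint_left]
    intro x hx hx2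
    simp only [mem_filter, mem_univ, true_and, mem_lv] at hx hx2
    omega
  have h2 : (Pk j (Pi.single a 1)).card = (lv P j).card + 1 - up j a := by
    have h3 : Pk j (Pi.single a 1) = insert a ((lv P j).filter (fun v => ¬ a < v)) := by
      ext x
      simp only [Pk, mem_filter, mem_univ, true_and, mem_insert, mem_lv, FI_case3 j a ha,
        FA_case3 j a ha]
      by_cases hx : x = a
      · subst hx; simp; omega
      · simp only [hx, ne_eq, not_false_eq_true, and_true, false_or, not_or, not_and]
        constructor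
        · rintro ⟨⟨h4, h5⟩, h6⟩
          exact ⟨by omega, h5 (by omega)⟩
        · rintro ⟨h4, h5⟩
          exact ⟨⟨by omega, fun _ => h5⟩, by omega⟩
    rw [h3, Finset.card_insert_of_notMem]
    · have h4 := Finset.card_filter_add_card_filter_not (s := lv P j) (fun v => a < v)
      unfold up
      omega
    · simp only [mem_filter, mem_lv]
      omega
  rw [h1, h2]

lemma Z_one {r : ℕ} (H : Gr P r) {j : ℕ} (hj : j ≤ r) :
    X * Z P j 1 = X ^ (below P j) * (∑ _a ∈ lv P j, X * (1 + X) ^ (lv P j).card +
      (∑ a ∈ univ.filter (fun a : P => lev a + 1 = j), (1 + X) ^ ((lv P j).card + 1 - dn j a) +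
      ∑ a ∈ lv P (j + 1), X ^ (1 + up j a) * (1 + X) ^ ((lv P j).card + 1 - up j a))) := by
  classical
  unfold Z
  rw [sum_piAntidiag_one, Finset.mul_sum]
  have key : ∀ a : P, (X : ℤ[X]) * (if Adm j (Pi.single a 1) then (X : ℤ[X]) ^
      (nf j (Pi.single a 1)) * (1 + X) ^ (Pk j (Pi.single a 1)).card else 0) =
      X ^ (below P j) * ((if a ∈ lv P j then X * (1 + X) ^ (lv P j).card else 0) +
      ((if a ∈ univ.filter (fun a => lev a + 1 = j) then
        (1 + X) ^ ((lv P j).card + 1 - dn j a) else 0) +
      (if a ∈ lv P (j + 1) then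
        X ^ (1 + up j a) * (1 + X) ^ ((lv P j).card + 1 - up j a) else 0))) := by
    intro a
    simp only [mem_lv, mem_filter, mem_univ, true_and]
    by_cases h1 : lev a = j
    · rw [term_case1 j a h1, if_pos h1, if_neg (by omega), if_neg (by omega)]
      ring
    by_cases h2 : lev a + 1 = j
    · rw [term_case2 j a h2, if_neg h1, if_pos h2, if_neg (by omega)]
      ring
    by_cases h3 : lev a = j + 1
    · rw [term_case3 j a h3, if_neg h1, if_neg h2, if_pos h3]
      ring
    rw [if_neg h1, if_neg h2, if_neg h3, if_neg]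
    · ring
    · by_cases h4 : lev a < j
      · exact not_adm_case4 j a H hj (by omega)
      · exact not_adm_case5 j a (by omega)
  rw [Finset.sum_congr rfl (fun a _ => key a), ← Finset.mul_sum]
  congr 1
  rw [Finset.sum_add_distrib, Finset.sum_add_distrib, Finset.sum_ite_mem, Finset.sum_ite_mem,
    Finset.sum_ite_mem, univ_inter, univ_inter, univ_inter]

lemma dn_le (j : ℕ) (a : P) : dn j a ≤ (lv P j).card := by
  classical exact Finset.card_filter_le _ _

lemma up_le (j : ℕ) (a : P) : up j a ≤ (lv P j).card := by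
  classical exact Finset.card_filter_le _ _

/-- consequences of energy one -/
theorem energy_one {r : ℕ} (H : Gr P r) {j : ℕ} (hj : j ≤ r) :
    (∀ a : P, lev a + 1 = j → dn j a ≤ 2) ∧ (∀ a : P, lev a = j + 1 → up j a ≤ 2) ∧
    ((univ.filter (fun a : P => lev a + 1 = j)).filter (fun a => dn j a = 2)).card =
      ((lv P (j + 1)).filter (fun a => up j a = 2)).card := by
  have h1 : (1 + X : ℤ[X]) ^ (lv P j).card ∣ X * Z P j 1 :=
    Dvd.dvd.mul_left (dvd_Z H.gauss j 1) _
  rw [Z_one H hj, mul_add] at h1
  have h2 : (1 + X : ℤ[X]) ^ (lv P j).card ∣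
      X ^ (below P j) * ∑ _a ∈ lv P j, X * (1 + X) ^ (lv P j).card := by
    refine Dvd.dvd.mul_left (Finset.dvd_sum fun a _ => ?_) _
    exact Dvd.intro_left _ rfl
  have h3 := (dvd_add_right h2).mp h1
  obtain ⟨h4, h5, h6⟩ := poly_main (univ.filter (fun a => lev a + 1 = j)) (lv P (j + 1)) (dn j)
    (up j) (lv P j).card (below P j) (fun a _ => dn_le j a) (fun a _ => up_le j a) h3
  refine ⟨fun a ha => h4 a (by simp [ha]), fun a ha => h5 a (mem_lv.mpr ha), h6⟩

end Pool.Agent.GaussPoset

end
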