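import Mathlib
import Pool.Agent.W_448zz_h61.Ns
import Pool.Agent.W_448zz_h61.M005
import Pool.Agent.W_448zz_h61.M006

/-! From `Pool.Agent.W_MP_448cb3_h96.LatticeA` -/

section

namespace Pool.Agent.GaussPoset

set_option linter.unusedSectionVars false

open Finset

universe u

section Lat

variable {P : Type u} [Fintype P] [Lattice P] [DecidableEq P]

/-- the pair condition: two elements have a common lower cover iff they have a common
upper cover -/
def PairUp (P : Type u) [Lattice P] : Prop :=
  ∀ v v' w : P, v ≠ v' → w ⋖ v → w ⋖ v' → v ⋖ v ⊔ v' ∧ v' ⋖ v ⊔ v'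

def PairDown (P : Type u) [Lattice P] : Prop :=
  ∀ v v' y : P, v ≠ v' → v ⋖ y → v' ⋖ y → v ⊓ v' ⋖ v ∧ v ⊓ v' ⋖ v'

lemma semimod (hU : PairUp P) : ∀ (n : ℕ) (a b c : P), lev a ≤ lev b + n → a ⋖ c → a ≤ b →
    b ⩿ b ⊔ c := by
  intro n
  induction n with
  | zero =>
    intro a b c hn hac hab
    have : a = b := by
      by_contra hne
      have := lev_strictAnti (lt_of_le_of_ne hab hne)
      omega
    subst this
    rw [sup_eq_right.mpr hac.le]
    exact hac.wcovBy
  | succ n ih =>
    intro a b c hn hac hab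
    rcases eq_or_lt_of_le hab with h | h
    · subst h
      rw [sup_eq_right.mpr hac.le]
      exact hac.wcovBy
    · obtain ⟨a', ha', ha'b⟩ := exists_covBy_le_of_lt h
      by_cases hc : a' = c
      · subst hc
        rw [sup_eq_left.mpr ha'b]
        exact WCovBy.rfl
      · obtain ⟨-, h2⟩ := hU c a' a (fun h => hc h.symm) hac ha'
        have h3 := lev_strictAnti ha'.lt
        have h4 := ih a' b (c ⊔ a') (by omega) h2 ha'b
        have h5 : b ⊔ (c ⊔ a') = b ⊔ c := by
          rw [← sup_assoc, sup_eq_left.mpr (ha'b.trans le_sup_left)]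
        rwa [h5] at h4

lemma semimod' (hU : PairUp P) {a c : P} (hac : a ⋖ c) (b : P) : a ⊔ b ⩿ c ⊔ b := by
  have h := semimod hU (lev a) a (a ⊔ b) c (Nat.le_add_left _ _) hac le_sup_left
  have h2 : a ⊔ b ⊔ c = c ⊔ b := by
    rw [sup_right_comm, sup_eq_right.mpr hac.le]
  rwa [h2] at h

variable {r : ℕ}

/-- rank -/
lemma colev_lt (H : Gr P r) {x y : P} (h : x < y) : colev x < colev y := by
  have h1 := H.hr x
  have h2 := H.hr y
  have h3 := lev_strictAnti h
  omega

lemma colev_cov (H : Gr P r) {x y : P} (h : x ⋖ y) : colev y = colev x + 1 :=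
  colev_covBy H.gauss h

lemma colev_wcov (H : Gr P r) {x y : P} (h : x ⩿ y) : colev y ≤ colev x + 1 := by
  rcases h.covBy_or_eq with h | h
  · exact (colev_cov H h).le
  · rw [h]; omega

lemma rank_ineq_aux (H : Gr P r) (hU : PairUp P) (x y : P) : ∀ (n : ℕ) (z : P), z ≤ x →
    colev x ≤ colev z + n → colev (x ⊔ y) + colev z ≤ colev (z ⊔ y) + colev x := by
  intro n
  induction n with
  | zero =>
    intro z hz hn
    have : z = x := by
      by_contra hne
      have := colev_lt H (lt_of_le_of_ne hz hne)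
      omega
    subst this
    exact le_rfl
  | succ n ih =>
    intro z hz hn
    rcases eq_or_lt_of_le hz with h | h
    · subst h; exact le_rfl
    · obtain ⟨z', hz', hz'x⟩ := exists_covBy_le_of_lt h
      have h1 := colev_cov H hz'
      have h2 := ih z' hz'x (by omega)
      have h3 := colev_wcov H (semimod' hU hz' y)
      omega

lemma rank_ineq (H : Gr P r) (hU : PairUp P) (x y : P) :
    colev (x ⊔ y) + colev (x ⊓ y) ≤ colev x + colev y := by
  have h := rank_ineq_aux H hU x y (colev x) (x ⊓ y) inf_le_left (Nat.le_add_left _ _)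
  have h2 : x ⊓ y ⊔ y = y := sup_eq_right.mpr inf_le_right
  rw [h2] at h
  omega

open Classical in
/-- the set of elements below `x` with exactly one lower cover -/
noncomputable def JI (x : P) : Finset P :=
  univ.filter (fun p => p ≤ x ∧ ∃ q, q ⋖ p ∧ ∀ q', q' ⋖ p → q' = q)

lemma mem_JI {x p : P} : p ∈ JI x ↔ p ≤ x ∧ ∃ q, q ⋖ p ∧ ∀ q', q' ⋖ p → q' = q := by
  unfold JI; simp

lemma JI_inf (x y : P) : JI (x ⊓ y) = JI x ∩ JI y := by
  ext p
  rw [mem_inter, mem_JI, mem_JI, mem_JI, le_inf_iff]
  tauto

lemma JI_mono {x y : P} (h : x ≤ y) : JI x ⊆ JI y := by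
  intro p hp
  rw [mem_JI] at hp ⊢
  exact ⟨hp.1.trans h, hp.2⟩

/-- every element has at most two lower covers -/
def TwoLow (P : Type u) [Lattice P] : Prop :=
  ∀ x a b c : P, a ⋖ x → b ⋖ x → c ⋖ x → a ≠ b → c = a ∨ c = b

lemma card_JI (H : Gr P r) (hD : PairDown P) (hT : TwoLow P) : ∀ (n : ℕ) (x : P), colev x ≤ n →
    (JI x).card = colev x := by
  intro n
  induction n with
  | zero =>
    intro x hx
    have h0 : colev x = 0 := Nat.le_zero.mp hx
    rw [h0, Finset.card_eq_zero, Finset.eq_empty_iff_forall_notMem]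
    intro p hp
    rw [mem_JI] at hp
    obtain ⟨hpx, q, hq, -⟩ := hp
    have := colev_lt H (hq.lt.trans_le hpx)
    omega
  | succ n ih =>
    intro x hx
    by_cases h0 : colev x = 0
    · exact ih x (by omega)
    · have h1 := H.hr x
      have h2 := H.lev_le x
      obtain ⟨z, hz, hz2⟩ := H.exists_below (x := x) (j := lev x + 1) (by omega) (by omega)
      have hzx : z ⋖ x := H.covBy_iff.mpr ⟨lt_of_le_of_ne hz (by rintro rfl; omega), hz2⟩
      have hcz := colev_cov H hzx
      by_cases hone : ∀ q, q ⋖ x → q = z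
      · have hJ : JI x = insert x (JI z) := by
          ext p
          rw [mem_insert, mem_JI, mem_JI]
          constructor
          · rintro ⟨hpx, hp⟩
            rcases eq_or_lt_of_le hpx with h | h
            · exact Or.inl h
            · right
              obtain ⟨q, hpq, hq⟩ := exists_le_covBy_of_lt h
              rw [hone q hq] at hpq
              exact ⟨hpq, hp⟩
          · rintro (h | ⟨h, hp⟩)
            · subst h
              exact ⟨le_rfl, z, hzx, hone⟩
            · exact ⟨h.trans hz, hp⟩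
        rw [hJ, Finset.card_insert_of_notMem, ih z (by omega), hcz]
        intro hmem
        rw [mem_JI] at hmem
        exact lt_irrefl _ (hzx.lt.trans_le hmem.1)
      · push Not at hone
        obtain ⟨q, hq, hqz⟩ := hone
        have hJ : JI x = JI q ∪ JI z := by
          ext p
          rw [mem_union, mem_JI, mem_JI, mem_JI]
          constructor
          · rintro ⟨hpx, s, hs, hs2⟩
            have hne : p ≠ x := by
              rintro rfl
              exact hqz ((hs2 q hq).trans (hs2 z hzx).symm)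
            obtain ⟨t, hpt, ht⟩ := exists_le_covBy_of_lt (lt_of_le_of_ne hpx hne)
            rcases hT x q z t hq hzx ht hqz with h | h
            · subst h; exact Or.inl ⟨hpt, s, hs, hs2⟩
            · subst h; exact Or.inr ⟨hpt, s, hs, hs2⟩
          · rintro (⟨h, hp⟩ | ⟨h, hp⟩)
            · exact ⟨h.trans hq.le, hp⟩
            · exact ⟨h.trans hz, hp⟩
        obtain ⟨h3, h4⟩ := hD q z x hqz hq hzx
        have h5 := colev_cov H hq
        have h6 := colev_cov H h3
        have h7 := Finset.card_union_add_card_inter (JI q) (JI z)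
        rw [← hJ, ← JI_inf, ih q (by omega), ih z (by omega), ih (q ⊓ z) (by omega)] at h7
        omega

lemma JI_sup (H : Gr P r) (hU : PairUp P) (hD : PairDown P) (hT : TwoLow P) (x y : P) :
    JI (x ⊔ y) = JI x ∪ JI y := by
  have hc := fun x : P => card_JI H hD hT (colev x) x le_rfl
  symm
  apply Finset.eq_of_subset_of_card_le
  · exact Finset.union_subset (JI_mono le_sup_left) (JI_mono le_sup_right)
  · have h1 := Finset.card_union_add_card_inter (JI x) (JI y)
    rw [← JI_inf, hc, hc, hc] at h1
    have h2 := rank_ineq H hU x y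
    rw [hc]
    omega

lemma le_of_JI (H : Gr P r) (hD : PairDown P) (hT : TwoLow P) {x y : P} (h : JI x ⊆ JI y) :
    x ≤ y := by
  have hc := fun x : P => card_JI H hD hT (colev x) x le_rfl
  have h1 : JI (x ⊓ y) = JI x := by
    rw [JI_inf]; exact Finset.inter_eq_left.mpr h
  have h2 : colev (x ⊓ y) = colev x := by rw [← hc, ← hc, h1]
  by_contra hne
  have h3 : x ⊓ y < x := by
    refine lt_of_le_of_ne inf_le_left ?_
    intro h4
    exact hne (inf_eq_left.mp h4)
  have := colev_lt H h3
  omega

theorem distrib_of_pairs (H : Gr P r) (hU : PairUp P) (hD : PairDown P) (hT : TwoLow P)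
    (x y z : P) : (x ⊔ y) ⊓ (x ⊔ z) ≤ x ⊔ y ⊓ z := by
  apply le_of_JI H hD hT
  rw [JI_inf, JI_sup H hU hD hT, JI_sup H hU hD hT, JI_sup H hU hD hT, JI_inf]
  intro p hp
  simp only [mem_inter, mem_union] at hp ⊢
  tauto

end Lat

section Ord

variable {P : Type u} [Fintype P] [PartialOrder P] [DecidableEq P] {r : ℕ}

/-- every element covers at most two elements -/
lemma two_low (H : Gr P r) {x a b c : P} (ha : a ⋖ x) (hb : b ⋖ x) (hc : c ⋖ x) (hab : a ≠ b) :
    c = a ∨ c = b := by
  classical
  have hla := (H.covBy_iff.mp ha).2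
  have h1 := (energy_one H (j := lev x + 1) (by have := H.lev_le a; omega)).1 x rfl
  by_contra hcon
  push Not at hcon
  have h2 : ({a, b, c} : Finset P) ⊆ (lv P (lev x + 1)).filter (fun v => v < x) := by
    intro z hz
    simp only [mem_insert, mem_singleton] at hz
    rw [mem_filter, mem_lv]
    rcases hz with h | h | h
    · subst h; exact ⟨(H.covBy_iff.mp ha).2, ha.lt⟩
    · subst h; exact ⟨(H.covBy_iff.mp hb).2, hb.lt⟩
    · subst h; exact ⟨(H.covBy_iff.mp hc).2, hc.lt⟩
  have h3 := Finset.card_le_card h2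
  rw [Finset.card_eq_three.mpr ⟨a, b, c, hab, hcon.1.symm, hcon.2.symm, rfl⟩] at h3
  unfold dn at h1
  omega

/-- every element is covered by at most two elements -/
lemma two_up (H : Gr P r) {x a b c : P} (ha : x ⋖ a) (hb : x ⋖ b) (hc : x ⋖ c) (hab : a ≠ b) :
    c = a ∨ c = b := by
  classical
  have hla := (H.covBy_iff.mp ha).2
  have hlb := (H.covBy_iff.mp hb).2
  have hlc := (H.covBy_iff.mp hc).2
  have h1 := (energy_one H (j := lev a) (H.lev_le a)).2.1 x hla
  by_contra hcon
  push Not at hcon
  have h2 : ({a, b, c} : Finset P) ⊆ (lv P (lev a)).filter (fun v => x < v) := by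
    intro z hz
    simp only [mem_insert, mem_singleton] at hz
    rw [mem_filter, mem_lv]
    rcases hz with h | h | h
    · subst h; exact ⟨rfl, ha.lt⟩
    · subst h; exact ⟨by omega, hb.lt⟩
    · subst h; exact ⟨by omega, hc.lt⟩
  have h3 := Finset.card_le_card h2
  rw [Finset.card_eq_three.mpr ⟨a, b, c, hab, hcon.1.symm, hcon.2.symm, rfl⟩] at h3
  unfold up at h1
  omega

lemma dn_eq_two_iff (H : Gr P r) {j : ℕ} {y : P} (hy : lev y + 1 = j) :
    dn j y = 2 ↔ ∃ v v', v ≠ v' ∧ v ⋖ y ∧ v' ⋖ y := by
  classical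
  constructor
  · intro h
    unfold dn at h
    rw [Finset.card_eq_two] at h
    obtain ⟨v, v', hne, h⟩ := h
    have hv : v ∈ (lv P j).filter (fun v => v < y) := by rw [h]; simp
    have hv' : v' ∈ (lv P j).filter (fun v => v < y) := by rw [h]; simp
    rw [mem_filter, mem_lv] at hv hv'
    exact ⟨v, v', hne, H.covBy_iff.mpr ⟨hv.2, by omega⟩, H.covBy_iff.mpr ⟨hv'.2, by omega⟩⟩
  · rintro ⟨v, v', hne, hv, hv'⟩
    have h1 := H.covBy_iff.mp hv
    have h2 := H.covBy_iff.mp hv'
    unfold dn
    rw [Finset.card_eq_two]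
    refine ⟨v, v', hne, ?_⟩
    ext z
    rw [mem_filter, mem_lv, mem_insert, mem_singleton]
    constructor
    · rintro ⟨h3, h4⟩
      exact two_low H hv hv' (H.covBy_iff.mpr ⟨h4, by omega⟩) hne
    · rintro (h | h)
      · subst h; exact ⟨by omega, h1.1⟩
      · subst h; exact ⟨by omega, h2.1⟩

lemma up_eq_two_iff (H : Gr P r) {j : ℕ} {w : P} (hw : lev w = j + 1) :
    up j w = 2 ↔ ∃ v v', v ≠ v' ∧ w ⋖ v ∧ w ⋖ v' := by
  classical
  constructor
  · intro h
    unfold up at h
    rw [Finset.card_eq_two] at h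
    obtain ⟨v, v', hne, h⟩ := h
    have hv : v ∈ (lv P j).filter (fun v => w < v) := by rw [h]; simp
    have hv' : v' ∈ (lv P j).filter (fun v => w < v) := by rw [h]; simp
    rw [mem_filter, mem_lv] at hv hv'
    exact ⟨v, v', hne, H.covBy_iff.mpr ⟨hv.2, by omega⟩, H.covBy_iff.mpr ⟨hv'.2, by omega⟩⟩
  · rintro ⟨v, v', hne, hv, hv'⟩
    have h1 := H.covBy_iff.mp hv
    have h2 := H.covBy_iff.mp hv'
    unfold up
    rw [Finset.card_eq_two]
    refine ⟨v, v', hne, ?_⟩
    ext z
    rw [mem_filter, mem_lv, mem_insert, mem_singleton]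
    constructor
    · rintro ⟨h3, h4⟩
      exact two_up H hv hv' (H.covBy_iff.mpr ⟨h4, by omega⟩) hne
    · rintro (h | h)
      · subst h; exact ⟨by omega, h1.1⟩
      · subst h; exact ⟨by omega, h2.1⟩

/-- number of elements covering two elements of level `j` equals number of elements covered by
two elements of level `j` -/
lemma count_eq (H : Gr P r) {j : ℕ} (hj : j ≤ r) :
    ((univ.filter (fun a : P => lev a + 1 = j)).filter (fun a => dn j a = 2)).card =
      ((lv P (j + 1)).filter (fun a => up j a = 2)).card :=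
  (energy_one H hj).2.2

end Ord

section Lat2

variable {P : Type u} [Fintype P] [Lattice P] [DecidableEq P] {r : ℕ}

lemma lev_eq_of_cov (H : Gr P r) {v v' w : P} (h : w ⋖ v) (h' : w ⋖ v') : lev v = lev v' := by
  have h1 := (H.covBy_iff.mp h).2
  have h2 := (H.covBy_iff.mp h').2
  omega

lemma eq_of_le_of_lev (_H : Gr P r) {v v' : P} (h : v ≤ v') (h2 : lev v ≤ lev v') : v = v' := by
  by_contra hne
  have := lev_strictAnti (lt_of_le_of_ne h hne)
  omega

/-- the statement proved by induction on the level `k` -/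
def PairLevel (P : Type u) [Fintype P] [Lattice P] (k : ℕ) : Prop :=
  ∀ v v' : P, lev v = k → lev v' = k → v ≠ v' →
    ((∃ w, w ⋖ v ∧ w ⋖ v') ↔ (∃ y, v ⋖ y ∧ v' ⋖ y))

lemma pair_up_step (H : Gr P r) {k : ℕ} (ih : ∀ j < k, PairLevel P j) {v v' w : P}
    (hv : lev v = k) (hne : v ≠ v') (hw : w ⋖ v) (hw' : w ⋖ v') :
    v ⋖ v ⊔ v' ∧ v' ⋖ v ⊔ v' := by
  have hv' : lev v' = k := by rw [← lev_eq_of_cov H hw hw', hv]
  have hlw := (H.covBy_iff.mp hw).2
  have h1 : v < v ⊔ v' := by
    refine lt_of_le_of_ne le_sup_left ?_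
    intro h
    have : v' ≤ v := by rw [h]; exact le_sup_right
    exact hne (eq_of_le_of_lev H this (by omega)).symm
  have h2 : v' < v ⊔ v' := by
    refine lt_of_le_of_ne le_sup_right ?_
    intro h
    have : v ≤ v' := by rw [h]; exact le_sup_left
    exact hne (eq_of_le_of_lev H this (by omega))
  have h3 := lev_strictAnti h1
  by_cases h4 : lev (v ⊔ v') + 1 = k
  · exact ⟨H.covBy_iff.mpr ⟨h1, by omega⟩, H.covBy_iff.mpr ⟨h2, by omega⟩⟩
  · exfalso
    obtain ⟨c, hvc, hc⟩ := exists_le_covBy_of_lt h1
    obtain ⟨c', hvc', hc'⟩ := exists_le_covBy_of_lt h2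
    have hcc : c ≠ c' := by
      rintro rfl
      exact lt_irrefl _ (hc.lt.trans_le (sup_le hvc hvc'))
    have hlc := (H.covBy_iff.mp hc).2
    have hlc' := (H.covBy_iff.mp hc').2
    obtain ⟨d, hd, hd'⟩ := (ih (lev (v ⊔ v') + 1) (by omega) c c' hlc hlc' hcc).mpr
      ⟨v ⊔ v', hc, hc'⟩
    have hld := (H.covBy_iff.mp hd).2
    have h5 : c ⊓ c' < c := by
      refine lt_of_le_of_ne inf_le_left ?_
      intro h
      have : c ≤ c' := inf_eq_left.mp h
      exact hcc (eq_of_le_of_lev H this (by omega))
    have h6 : c ⊓ c' = d := by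
      symm
      apply eq_of_le_of_lev H (le_inf hd.le hd'.le)
      have := lev_strictAnti h5
      omega
    have h7 : w ≤ d := by
      rw [← h6]
      exact le_inf (hw.le.trans hvc) (hw'.le.trans hvc')
    have h8 : w < d := by
      refine lt_of_le_of_ne h7 ?_
      rintro rfl
      omega
    obtain ⟨v1, hwv1, hv1d⟩ := exists_covBy_le_of_lt h8
    rcases two_up H hw hw' hwv1 hne with h | h
    · subst h
      exact lt_irrefl _ (hc'.lt.trans_le (sup_le (hv1d.trans hd'.le) hvc'))
    · subst h
      exact lt_irrefl _ (hc.lt.trans_le (sup_le hvc (hv1d.trans hd.le)))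

lemma pair_level_step (H : Gr P r) {k : ℕ} (ih : ∀ j < k, PairLevel P j) : PairLevel P k := by
  classical
  intro v v' hv hv' hne
  constructor
  · rintro ⟨w, hw, hw'⟩
    exact ⟨_, pair_up_step H ih hv hne hw hw'⟩
  · rintro ⟨y, hy, hy'⟩
    have hk : k ≤ r := by rw [← hv]; exact H.lev_le v
    have hly := (H.covBy_iff.mp hy).2
    -- the injection
    have hex : ∀ w ∈ (lv P (k + 1)).filter (fun a => up k a = 2), ∃ y v v', v ≠ v' ∧ w ⋖ v ∧
        w ⋖ v' ∧ v ⋖ y ∧ v' ⋖ y := by
      intro w hw
      rw [mem_filter, mem_lv] at hw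
      obtain ⟨v1, v2, hne12, h1, h2⟩ := (up_eq_two_iff H hw.1).mp hw.2
      have hl1 := (H.covBy_iff.mp h1).2
      have h3 := pair_up_step H ih (by omega) hne12 h1 h2
      exact ⟨v1 ⊔ v2, v1, v2, hne12, h1, h2, h3.1, h3.2⟩
    choose f hf using hex
    have hcount := count_eq H hk
    have hsurj := Finset.surj_on_of_inj_on_of_card_le
      (s := (lv P (k + 1)).filter (fun a => up k a = 2))
      (t := (univ.filter (fun a : P => lev a + 1 = k)).filter (fun a => dn k a = 2)) f
      (by
        intro w hw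
        obtain ⟨v1, v2, hne12, h1, h2, h3, h4⟩ := hf w hw
        rw [mem_filter, mem_lv] at hw
        have hl1 := (H.covBy_iff.mp h1).2
        have hl3 := (H.covBy_iff.mp h3).2
        rw [mem_filter, mem_filter]
        refine ⟨⟨mem_univ _, by omega⟩, ?_⟩
        exact (dn_eq_two_iff H (by omega)).mpr ⟨v1, v2, hne12, h3, h4⟩)
      (by
        intro w1 w2 hw1 hw2 heq
        obtain ⟨v1, v2, hne12, h1, h2, h3, h4⟩ := hf w1 hw1
        obtain ⟨u1, u2, hneu, g1, g2, g3, g4⟩ := hf w2 hw2
        rw [← heq] at g3 g4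
        have key : ∀ w, w ⋖ v1 → w ⋖ v2 → w = v1 ⊓ v2 := by
          intro w hwv1 hwv2
          apply eq_of_le_of_lev H (le_inf hwv1.le hwv2.le)
          have h5 : v1 ⊓ v2 < v1 := by
            refine lt_of_le_of_ne inf_le_left ?_
            intro h
            have h6 : v1 ≤ v2 := inf_eq_left.mp h
            have := lev_eq_of_cov H hwv1 hwv2
            exact hne12 (eq_of_le_of_lev H h6 (by omega))
          have := lev_strictAnti h5
          have := (H.covBy_iff.mp hwv1).2
          omega
        have h5 : w2 ⋖ v1 ∧ w2 ⋖ v2 := by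
          rcases two_low H h3 h4 g3 hne12 with e1 | e1 <;>
          rcases two_low H h3 h4 g4 hne12 with e2 | e2 <;> subst e1 <;> subst e2
          · exact absurd rfl hneu
          · exact ⟨g1, g2⟩
          · exact ⟨g2, g1⟩
          · exact absurd rfl hneu
        rw [key w1 h1 h2, key w2 h5.1 h5.2])
      hcount.le
    obtain ⟨w, hw, hwy⟩ := hsurj y (by
      rw [mem_filter, mem_filter]
      refine ⟨⟨mem_univ _, by omega⟩, ?_⟩
      exact (dn_eq_two_iff H (by omega)).mpr ⟨v, v', hne, hy, hy'⟩)
    obtain ⟨v1, v2, hne12, h1, h2, h3, h4⟩ := hf w hw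
    rw [← hwy] at h3 h4
    refine ⟨w, ?_⟩
    rcases two_low H h3 h4 hy hne12 with e1 | e1 <;>
    rcases two_low H h3 h4 hy' hne12 with e2 | e2 <;> subst e1 <;> subst e2
    · exact absurd rfl hne
    · exact ⟨h1, h2⟩
    · exact ⟨h2, h1⟩
    · exact absurd rfl hne

lemma pair_level (H : Gr P r) : ∀ k, PairLevel P k := by
  intro k
  induction k using Nat.strong_induction_on with
  | _ k ih => exact pair_level_step H ih

theorem lattice_pairs (H : Gr P r) : PairUp P ∧ PairDown P ∧ TwoLow P := by
  refine ⟨?_, ?_, ?_⟩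
  · intro v v' w hne hw hw'
    exact pair_up_step H (fun j _ => pair_level H j) rfl hne hw hw'
  · intro v v' y hne hy hy'
    have h1 := (H.covBy_iff.mp hy).2
    have h2 := (H.covBy_iff.mp hy').2
    obtain ⟨w, hw, hw'⟩ := (pair_level H (lev v) v v' rfl (by omega) hne).mpr ⟨y, hy, hy'⟩
    have h5 : v ⊓ v' < v := by
      refine lt_of_le_of_ne inf_le_left ?_
      intro h
      have h6 : v ≤ v' := inf_eq_left.mp h
      exact hne (eq_of_le_of_lev H h6 (by omega))
    have h6 : w = v ⊓ v' := by
      apply eq_of_le_of_lev H (le_inf hw.le hw'.le)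
      have := lev_strictAnti h5
      have := (H.covBy_iff.mp hw).2
      omega
    rw [← h6]
    exact ⟨hw, hw'⟩
  · intro x a b c ha hb hc hab
    exact two_low H ha hb hc hab

/-- a lattice which is Gaussian (with all maximal chains of the same length) is distributive -/
theorem lattice_distrib (H : Gr P r) (x y z : P) : (x ⊔ y) ⊓ (x ⊔ z) ≤ x ⊔ y ⊓ z := by
  obtain ⟨hU, hD, hT⟩ := lattice_pairs H
  exact distrib_of_pairs H hU hD hT x y z

end Lat2

end Pool.Agent.GaussPoset

end

/-! From `Pool.Agent.W_MP_448cb3_h96.MainA` -/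

section

namespace Pool.Agent.GaussPoset

set_option linter.unusedSectionVars false

open Finset

universe u

variable {P : Type u} [Fintype P] [PartialOrder P] [DecidableEq P]

lemma lev_add_colev_cov (hG : IsGaussian P) {x y : P} (h : x ⋖ y) :
    lev x + colev x = lev y + colev y := by
  have h1 := lev_covBy hG h
  have h2 := colev_covBy hG h
  omega

lemma lev_add_colev_le (hG : IsGaussian P) : ∀ (n : ℕ) {x y : P}, lev x ≤ n → x ≤ y →
    lev x + colev x = lev y + colev y := by
  intro n
  induction n with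
  | zero =>
    intro x y hn hxy
    have : x = y := by
      by_contra hne
      have := lev_strictAnti (lt_of_le_of_ne hxy hne)
      omega
    rw [this]
  | succ n ih =>
    intro x y hn hxy
    rcases eq_or_lt_of_le hxy with h | h
    · rw [h]
    · obtain ⟨c, hc, hcy⟩ := exists_covBy_le_of_lt h
      have h1 := lev_covBy hG hc
      rw [lev_add_colev_cov hG hc]
      exact ih (by omega) hcy

theorem distrib_of_glb_lub {r : ℕ} (H : Gr P r) (hJ : ∀ x y : P, ∃ z, IsLUB {x, y} z)
    (hM : ∀ x y : P, ∃ z, IsGLB {x, y} z) : IsDistribLatticeOrder P := by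
  classical
  let L : Lattice P :=
    { (inferInstance : PartialOrder P) with
      sup := fun x y => Classical.choose (hJ x y)
      inf := fun x y => Classical.choose (hM x y)
      le_sup_left := fun x y => (Classical.choose_spec (hJ x y)).1 (by simp)
      le_sup_right := fun x y => (Classical.choose_spec (hJ x y)).1 (by simp)
      sup_le := fun x y z hx hy => (Classical.choose_spec (hJ x y)).2 (by
        intro t ht
        simp only [Set.mem_insert_iff, Set.mem_singleton_iff] at ht
        rcases ht with rfl | rfl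
        · exact hx
        · exact hy)
      inf_le_left := fun x y => (Classical.choose_spec (hM x y)).1 (by simp)
      inf_le_right := fun x y => (Classical.choose_spec (hM x y)).1 (by simp)
      le_inf := fun x y z hx hy => (Classical.choose_spec (hM y z)).2 (by
        intro t ht
        simp only [Set.mem_insert_iff, Set.mem_singleton_iff] at ht
        rcases ht with rfl | rfl
        · exact hx
        · exact hy) }
  have h1 := @lattice_distrib P _ L _ r H
  exact ⟨{ L with le_sup_inf := h1 }, fun x y => Iff.rfl⟩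

lemma lub_pair {x y z : P} (h : IsLUB {x, y} z) : x ≤ z ∧ y ≤ z ∧ ∀ w, x ≤ w → y ≤ w → z ≤ w := by
  refine ⟨h.1 (by simp), h.1 (by simp), fun w hx hy => h.2 ?_⟩
  intro t ht
  simp only [Set.mem_insert_iff, Set.mem_singleton_iff] at ht
  rcases ht with rfl | rfl
  · exact hx
  · exact hy

theorem distrib_of_lub (hG : IsGaussian P) (hJ : ∀ x y : P, ∃ z, IsLUB {x, y} z) :
    IsDistribLatticeOrder P := by
  classical
  rcases isEmpty_or_nonempty P with hP | ⟨⟨x0⟩⟩
  · refine ⟨{ (inferInstance : PartialOrder P) with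
      sup := fun x _ => x
      inf := fun x _ => x
      le_sup_left := fun x => hP.elim x
      le_sup_right := fun x => hP.elim x
      sup_le := fun x => hP.elim x
      inf_le_left := fun x => hP.elim x
      inf_le_right := fun x => hP.elim x
      le_inf := fun x => hP.elim x
      le_sup_inf := fun x => hP.elim x }, fun x => hP.elim x⟩
  · -- graded
    have hconst : ∀ x y : P, lev x + colev x = lev y + colev y := by
      intro x y
      obtain ⟨z, hz⟩ := hJ x y
      obtain ⟨h1, h2, -⟩ := lub_pair hz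
      rw [lev_add_colev_le hG (lev x) le_rfl h1, lev_add_colev_le hG (lev y) le_rfl h2]
    have H : Gr P (lev x0 + colev x0) := ⟨hG, fun x => hconst x x0⟩
    -- unique element on level zero
    have h0 : ∀ x y : P, lev x = 0 → lev y = 0 → x = y := by
      intro x y hx hy
      obtain ⟨z, hz⟩ := hJ x y
      obtain ⟨h1, h2, -⟩ := lub_pair hz
      have e1 : x = z := by
        by_contra hne
        have := lev_strictAnti (lt_of_le_of_ne h1 hne)
        omega
      have e2 : y = z := by
        by_contra hne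
        have := lev_strictAnti (lt_of_le_of_ne h2 hne)
        omega
      rw [e1, e2]
    have h1 : (lv P 0).card ≤ 1 := by
      rw [Finset.card_le_one]
      intro a ha b hb
      exact h0 a b (mem_lv.mp ha) (mem_lv.mp hb)
    rw [← card_lv_zero hG 0, Finset.card_le_one] at h1
    obtain ⟨b0, hb0, hb0l⟩ := exists_above' (P := Pᵒᵈ) (x := OrderDual.toDual x0) (j := 0)
      (Nat.zero_le _)
    have hbot : ∀ x : P, OrderDual.ofDual b0 ≤ x := by
      intro x
      obtain ⟨b, hb, hbl⟩ := exists_above' (P := Pᵒᵈ) (x := OrderDual.toDual x) (j := 0)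
        (Nat.zero_le _)
      have : b0 = b := h1 b0 (mem_lv.mpr hb0l) b (mem_lv.mpr hbl)
      rw [this]
      exact hb
    refine distrib_of_glb_lub H hJ ?_
    intro x y
    obtain ⟨z, hz, hzmin⟩ := Finset.exists_min_image (univ.filter (fun z : P => z ≤ x ∧ z ≤ y)) lev
      ⟨OrderDual.ofDual b0, by simp [hbot]⟩
    simp only [mem_filter, mem_univ, true_and] at hz hzmin
    refine ⟨z, ?_, ?_⟩
    · intro t ht
      simp only [Set.mem_insert_iff, Set.mem_singleton_iff] at ht
      rcases ht with rfl | rfl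
      · exact hz.1
      · exact hz.2
    · intro t ht
      have htx : t ≤ x := ht (by simp)
      have hty : t ≤ y := ht (by simp)
      obtain ⟨u, hu⟩ := hJ z t
      obtain ⟨h2, h3, h4⟩ := lub_pair hu
      have h5 := hzmin u ⟨h4 x hz.1 htx, h4 y hz.2 hty⟩
      have : z = u := by
        by_contra hne
        have := lev_strictAnti (lt_of_le_of_ne h2 hne)
        omega
      rw [this]
      exact h3

end Pool.Agent.GaussPoset

end

/-! From `Pool.Agent.W_MP_448cb3_h96.Struct` -/

section

namespace Pool.Agent.GaussPoset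

set_option linter.unusedSectionVars false

open Finset

universe u

variable {P : Type u} [Fintype P] [PartialOrder P] [DecidableEq P]

lemma gr_of_connected (hG : IsGaussian P) (hc : (SimpleGraph.hasse P).Connected) :
    ∃ r, Gr P r := by
  obtain ⟨x0⟩ := hc.nonempty
  refine ⟨lev x0 + colev x0, hG, fun x => ?_⟩
  have h1 := hc.preconnected x0 x
  rw [SimpleGraph.reachable_iff_reflTransGen] at h1
  induction h1 with
  | refl => rfl
  | tail _ hbc ih =>
    rw [SimpleGraph.hasse_adj] at hbc
    rcases hbc with h | h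
    · rw [← lev_add_colev_cov hG h, ih]
    · rw [lev_add_colev_cov hG h, ih]

variable {r : ℕ}

end Pool.Agent.GaussPoset

end

/-! From `Pool.Agent.W_MP_448cb3_h96.Modular` -/

section

namespace Pool.Agent.GaussPoset

set_option linter.unusedSectionVars false

open Finset

universe u

variable {P : Type u} [Fintype P] [PartialOrder P] [DecidableEq P] {r : ℕ}

open Classical in
/-- number of common upper covers -/
noncomputable def ucv (v v' : P) : ℕ := (univ.filter (fun y : P => v ⋖ y ∧ v' ⋖ y)).card

open Classical in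
/-- number of common lower covers -/
noncomputable def dcv (v v' : P) : ℕ := (univ.filter (fun y : P => y ⋖ v ∧ y ⋖ v')).card

/-- modularity -/
def Modl (P : Type u) [Fintype P] [PartialOrder P] : Prop :=
  ∀ v v' : P, v ≠ v' → ucv v v' = dcv v v'

lemma two_le_ucv {v v' : P} (h : 2 ≤ ucv v v') : ∃ y y', y ≠ y' ∧ v ⋖ y ∧ v' ⋖ y ∧ v ⋖ y' ∧ v' ⋖ y' := by
  classical
  unfold ucv at h
  obtain ⟨y, hy, y', hy', hne⟩ := Finset.one_lt_card.mp h
  simp only [mem_filter, mem_univ, true_and] at hy hy'
  exact ⟨y, y', hne, hy.1, hy.2, hy'.1, hy'.2⟩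

lemma ucv_le_one (H : Gr P r) (hM : Modl P) : ∀ (k : ℕ) (v v' : P), lev v = k → v ≠ v' →
    ucv v v' ≤ 1 := by
  classical
  intro k
  induction k with
  | zero =>
    intro v v' hv hne
    by_contra hcon
    obtain ⟨y, y', -, h1, -, -, -⟩ := two_le_ucv (by omega : 2 ≤ ucv v v')
    have := (H.covBy_iff.mp h1).2
    omega
  | succ k ih =>
    intro v v' hv hne
    by_contra hcon
    obtain ⟨y, y', hyy, h1, h2, h3, h4⟩ := two_le_ucv (by omega : 2 ≤ ucv v v')
    have hl := (H.covBy_iff.mp h1).2
    have h5 := ih y y' (by omega) hyy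
    rw [hM y y' hyy] at h5
    unfold dcv at h5
    have h6 : ({v, v'} : Finset P) ⊆ univ.filter (fun w : P => w ⋖ y ∧ w ⋖ y') := by
      intro z hz
      simp only [mem_insert, mem_singleton] at hz
      simp only [mem_filter, mem_univ, true_and]
      rcases hz with rfl | rfl
      · exact ⟨h1, h3⟩
      · exact ⟨h2, h4⟩
    have h7 := Finset.card_le_card h6
    rw [Finset.card_pair hne] at h7
    omega

lemma cU (hM : Modl P) {v v' w : P} (hne : v ≠ v') (h1 : w ⋖ v) (h2 : w ⋖ v') :
    ∃ y, v ⋖ y ∧ v' ⋖ y := by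
  classical
  have h3 : 0 < dcv v v' := by
    unfold dcv
    rw [Finset.card_pos]
    exact ⟨w, by simp [h1, h2]⟩
  rw [← hM v v' hne] at h3
  unfold ucv at h3
  rw [Finset.card_pos] at h3
  obtain ⟨y, hy⟩ := h3
  simp only [mem_filter, mem_univ, true_and] at hy
  exact ⟨y, hy⟩

lemma cD (hM : Modl P) {v v' y : P} (hne : v ≠ v') (h1 : v ⋖ y) (h2 : v' ⋖ y) :
    ∃ w, w ⋖ v ∧ w ⋖ v' := by
  classical
  have h3 : 0 < ucv v v' := by
    unfold ucv
    rw [Finset.card_pos]
    exact ⟨y, by simp [h1, h2]⟩
  rw [hM v v' hne] at h3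
  unfold dcv at h3
  rw [Finset.card_pos] at h3
  obtain ⟨y, hy⟩ := h3
  simp only [mem_filter, mem_univ, true_and] at hy
  exact ⟨y, hy⟩

lemma uniqD (H : Gr P r) (hM : Modl P) {v v' w w' : P} (hne : v ≠ v') (h1 : w ⋖ v) (h2 : w ⋖ v')
    (h3 : w' ⋖ v) (h4 : w' ⋖ v') : w = w' := by
  classical
  have h5 := ucv_le_one H hM _ v v' rfl hne
  rw [hM v v' hne] at h5
  unfold dcv at h5
  rw [Finset.card_le_one] at h5
  exact h5 w (by simp [h1, h2]) w' (by simp [h3, h4])

/-- `z` is the join of `x` and `y` -/
def Jn (x y z : P) : Prop := x ≤ z ∧ y ≤ z ∧ ∀ w, x ≤ w → y ≤ w → z ≤ w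

lemma Jn.symm' {x y z : P} (h : Jn x y z) : Jn y x z := ⟨h.2.1, h.1, fun w h1 h2 => h.2.2 w h2 h1⟩

/-- joins exist on the levels at most `k` -/
def JS (P : Type u) [Fintype P] [PartialOrder P] (k : ℕ) : Prop :=
  ∀ x y : P, lev x ≤ k → lev y ≤ k → ∃ z, Jn x y z

lemma eq_of_le_of_lev' {v v' : P} (h : v ≤ v') (h2 : lev v ≤ lev v') : v = v' := by
  by_contra hne
  have := lev_strictAnti (lt_of_le_of_ne h hne)
  omega

lemma lev_anti {v v' : P} (h : v ≤ v') : lev v' ≤ lev v := by
  rcases eq_or_lt_of_le h with h | h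
  · rw [h]
  · exact (lev_strictAnti h).le

/-- a common upper cover is the join -/
lemma join_of_cover (H : Gr P r) {k : ℕ} (hJ : JS P k) {a b p : P} (hne : a ≠ b) (ha : lev a ≤ k)
    (h1 : a ⋖ p) (h2 : b ⋖ p) : Jn a b p := by
  have hla := (H.covBy_iff.mp h1).2
  have hlb := (H.covBy_iff.mp h2).2
  obtain ⟨q, hq⟩ := hJ a b ha (by omega)
  have h3 : q ≤ p := hq.2.2 p h1.le h2.le
  have h4 : a < q := by
    refine lt_of_le_of_ne hq.1 ?_
    rintro rfl
    exact hne (eq_of_le_of_lev' hq.2.1 (by omega)).symm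
  have h5 : q = p := by
    rcases eq_or_lt_of_le h3 with h | h
    · exact h
    · exact absurd h (h1.2 h4)
  rw [← h5]
  exact hq

lemma SM (H : Gr P r) (hM : Modl P) {k : ℕ} (hJ : JS P k) : ∀ (n : ℕ) (a b c : P),
    lev a ≤ lev b + n → a ⋖ c → a ≤ b → lev c ≤ k → ∃ z, Jn b c z ∧ (b = z ∨ b ⋖ z) := by
  intro n
  induction n with
  | zero =>
    intro a b c hn hac hab _
    have := eq_of_le_of_lev' hab hn
    subst this
    exact ⟨c, ⟨hac.le, le_rfl, fun w _ h => h⟩, Or.inr hac⟩
  | succ n ih =>
    intro a b c hn hac hab hck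
    rcases eq_or_lt_of_le hab with h | h
    · subst h
      exact ⟨c, ⟨hac.le, le_rfl, fun w _ h => h⟩, Or.inr hac⟩
    · obtain ⟨a', ha', ha'b⟩ := exists_covBy_le_of_lt h
      by_cases hc : a' = c
      · subst hc
        exact ⟨b, ⟨le_rfl, ha'b, fun w h _ => h⟩, Or.inl rfl⟩
      · obtain ⟨p, hcp, hap⟩ := cU hM (fun h => hc h.symm) hac ha'
        have h1 := (H.covBy_iff.mp hac).2
        have h2 := (H.covBy_iff.mp ha').2
        have h3 := (H.covBy_iff.mp hcp).2
        obtain ⟨z, hz, hz2⟩ := ih a' b p (by omega) hap ha'b (by omega)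
        have hj := join_of_cover H hJ hc (by omega) hap hcp
        refine ⟨z, ⟨hz.1, hcp.le.trans hz.2.1, fun w hbw hcw => ?_⟩, hz2⟩
        exact hz.2.2 w hbw (hj.2.2 w (ha'b.trans hbw) hcw)

lemma QQ (H : Gr P r) (hM : Modl P) {k : ℕ} (hJ : JS P k) {a b d x : P} (hne : a ≠ b)
    (hda : d ⋖ a) (hdb : d ⋖ b) (hak : lev a ≤ k) (hxk : lev x ≤ k + 1) (hxa : x ≤ a)
    (hxb : x ≤ b) : x ≤ d := by
  have hl1 := (H.covBy_iff.mp hda).2
  have hl2 := (H.covBy_iff.mp hdb).2
  -- first the case of low level
  have key : ∀ x, lev x ≤ k → x ≤ a → x ≤ b → x ≤ d := by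
    intro x hxk hxa hxb
    by_cases hdk : lev d ≤ k
    · obtain ⟨m, hm⟩ := hJ x d hxk hdk
      have h1 : m ≤ a := hm.2.2 a hxa hda.le
      have h2 : m ≤ b := hm.2.2 b hxb hdb.le
      rcases eq_or_lt_of_le hm.2.1 with h | h
      · rw [h]; exact hm.1
      · exfalso
        have e1 : m = a := by
          rcases eq_or_lt_of_le h1 with h' | h'
          · exact h'
          · exact absurd h' (hda.2 h)
        have e2 : m = b := by
          rcases eq_or_lt_of_le h2 with h' | h'
          · exact h'
          · exact absurd h' (hdb.2 h)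
        exact hne (e1.symm.trans e2)
    · exfalso
      have e1 := eq_of_le_of_lev' hxa (by omega)
      have e2 := eq_of_le_of_lev' hxb (by omega)
      exact hne (e1.symm.trans e2)
  by_cases hx : lev x ≤ k
  · exact key x hx hxa hxb
  · have hne1 : x ≠ a := by rintro rfl; omega
    have hne2 : x ≠ b := by rintro rfl; omega
    obtain ⟨x1, hx1, hx1a⟩ := exists_covBy_le_of_lt (lt_of_le_of_ne hxa hne1)
    obtain ⟨x2, hx2, hx2b⟩ := exists_covBy_le_of_lt (lt_of_le_of_ne hxb hne2)
    have hlx1 := (H.covBy_iff.mp hx1).2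
    have hlx2 := (H.covBy_iff.mp hx2).2
    by_cases hb1 : x1 ≤ b
    · exact hx1.le.trans (key x1 (by omega) hx1a hb1)
    by_cases ha2 : x2 ≤ a
    · exact hx2.le.trans (key x2 (by omega) ha2 hx2b)
    have hne12 : x1 ≠ x2 := by rintro rfl; exact hb1 hx2b
    obtain ⟨p, hp1, hp2⟩ := cU hM hne12 hx1 hx2
    obtain ⟨z, hz1, hz2⟩ := cU hM hne hda hdb
    have hj := join_of_cover H hJ hne12 (by omega) hp1 hp2
    have hpz : p ≤ z := hj.2.2 z (hx1a.trans hz1.le) (hx2b.trans hz2.le)
    have hlp := (H.covBy_iff.mp hp1).2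
    have hlz := (H.covBy_iff.mp hz1).2
    rcases eq_or_lt_of_le hpz with h | h
    · subst h
      have e1 := eq_of_le_of_lev' hx1a (by omega)
      have e2 := eq_of_le_of_lev' hx2b (by
        have := (H.covBy_iff.mp hp2).2
        have := (H.covBy_iff.mp hz2).2
        omega)
      subst e1
      subst e2
      exact (uniqD H hM hne hx1 hx2 hda hdb).le
    · obtain ⟨c, hpc, hcz⟩ := exists_le_covBy_of_lt h
      rcases two_low H hz1 hz2 hcz hne with h' | h'
      · subst h'
        exact absurd (hp2.le.trans hpc) ha2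
      · subst h'
        exact absurd (hp1.le.trans hpc) hb1

lemma jstep (H : Gr P r) (hM : Modl P) {k : ℕ} (hJ : JS P k) {x y : P} (hx : lev x = k + 1)
    (hy : lev y ≤ k + 1) (hex : ∀ x1, x ⋖ x1 → ∃ s, Jn x1 y s) : ∃ s, Jn x y s := by
  by_cases hyx : y ≤ x
  · exact ⟨x, le_rfl, hyx, fun w h _ => h⟩
  obtain ⟨x0, hx0, hlx0⟩ := exists_lev_succ hx
  have hcx0 : x ⋖ x0 := H.covBy_iff.mpr ⟨hx0, by omega⟩
  have hup : ∀ w, x ≤ w → y ≤ w → ∃ x1, x ⋖ x1 ∧ x1 ≤ w := by
    intro w hxw hyw
    have : x < w := lt_of_le_of_ne hxw (by rintro rfl; exact hyx hyw)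
    exact exists_covBy_le_of_lt this
  by_cases hone : ∀ x1, x ⋖ x1 → x1 = x0
  · obtain ⟨s, hs⟩ := hex x0 hcx0
    refine ⟨s, hcx0.le.trans hs.1, hs.2.1, fun w hxw hyw => ?_⟩
    obtain ⟨x1, h1, h2⟩ := hup w hxw hyw
    rw [hone x1 h1] at h2
    exact hs.2.2 w h2 hyw
  · push Not at hone
    obtain ⟨x1, hcx1, hne⟩ := hone
    have hup2 : ∀ w, x ≤ w → y ≤ w → x0 ≤ w ∨ x1 ≤ w := by
      intro w hxw hyw
      obtain ⟨x2, h1, h2⟩ := hup w hxw hyw
      rcases two_up H hcx0 hcx1 h1 (fun h => hne h.symm) with h | h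
      · subst h; exact Or.inl h2
      · subst h; exact Or.inr h2
    obtain ⟨s0, hs0⟩ := hex x0 hcx0
    obtain ⟨s1, hs1⟩ := hex x1 hcx1
    have hlx1 := (H.covBy_iff.mp hcx1).2
    by_cases h01 : s0 ≤ s1
    · refine ⟨s0, hcx0.le.trans hs0.1, hs0.2.1, fun w hxw hyw => ?_⟩
      rcases hup2 w hxw hyw with h | h
      · exact hs0.2.2 w h hyw
      · exact h01.trans (hs1.2.2 w h hyw)
    by_cases h10 : s1 ≤ s0
    · refine ⟨s1, hcx1.le.trans hs1.1, hs1.2.1, fun w hxw hyw => ?_⟩
      rcases hup2 w hxw hyw with h | h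
      · exact h10.trans (hs0.2.2 w h hyw)
      · exact hs1.2.2 w h hyw
    exfalso
    obtain ⟨p, hp0, hp1⟩ := cU hM (fun h => hne h.symm) hcx0 hcx1
    have hlp := (H.covBy_iff.mp hp0).2
    obtain ⟨t0, ht0, ht0c⟩ := SM H hM hJ (lev x0) x0 s0 p (Nat.le_add_left _ _) hp0 hs0.1
      (by omega)
    obtain ⟨t1, ht1, ht1c⟩ := SM H hM hJ (lev x1) x1 s1 p (Nat.le_add_left _ _) hp1 hs1.1
      (by omega)
    have htt : t0 = t1 := by
      apply le_antisymm
      · apply ht0.2.2 t1 _ ht1.2.1
        exact hs0.2.2 t1 (hp0.le.trans ht1.2.1) (hs1.2.1.trans ht1.1)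
      · apply ht1.2.2 t0 _ ht0.2.1
        exact hs1.2.2 t0 (hp1.le.trans ht0.2.1) (hs0.2.1.trans ht0.1)
    rw [← htt] at ht1 ht1c
    have hc0 : s0 ⋖ t0 := by
      rcases ht0c with h | h
      · exfalso
        apply h10
        rw [h]
        exact ht1.1
      · exact h
    have hc1 : s1 ⋖ t0 := by
      rcases ht1c with h | h
      · exfalso
        apply h01
        rw [h]
        exact ht0.1
      · exact h
    have hs01 : s0 ≠ s1 := by rintro rfl; exact h01 le_rfl
    obtain ⟨d, hd0, hd1⟩ := cD hM hs01 hc0 hc1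
    have hls0 := lev_anti hs0.1
    have hx_d : x ≤ d := QQ H hM hJ hs01 hd0 hd1 (by omega) (by omega)
      (hcx0.le.trans hs0.1) (hcx1.le.trans hs1.1)
    have hy_d : y ≤ d := QQ H hM hJ hs01 hd0 hd1 (by omega) hy hs0.2.1 hs1.2.1
    rcases hup2 d hx_d hy_d with h | h
    · exact lt_irrefl _ (hd0.lt.trans_le (hs0.2.2 d h hy_d))
    · exact lt_irrefl _ (hd1.lt.trans_le (hs1.2.2 d h hy_d))

lemma js_all (H : Gr P r) (hM : Modl P) (htop : ∀ x y : P, lev x = 0 → lev y = 0 → x = y) :
    ∀ k, JS P k := by
  intro k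
  induction k with
  | zero =>
    intro x y hx hy
    have := htop x y (by omega) (by omega)
    subst this
    exact ⟨x, le_rfl, le_rfl, fun w h _ => h⟩
  | succ k ih =>
    have step1 : ∀ x y : P, lev x = k + 1 → lev y ≤ k → ∃ z, Jn x y z := by
      intro x y hx hy
      refine jstep H hM ih hx (by omega) fun x1 hx1 => ?_
      have := (H.covBy_iff.mp hx1).2
      exact ih x1 y (by omega) hy
    intro x y hx hy
    by_cases hx' : lev x ≤ k
    · by_cases hy' : lev y ≤ k
      · exact ih x y hx' hy'
      · obtain ⟨z, hz⟩ := step1 y x (by omega) hx'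
        exact ⟨z, hz.symm'⟩
    · by_cases hy' : lev y ≤ k
      · exact step1 x y (by omega) hy'
      · refine jstep H hM ih (by omega) (by omega) fun x1 hx1 => ?_
        have := (H.covBy_iff.mp hx1).2
        obtain ⟨z, hz⟩ := step1 y x1 (by omega) (by omega)
        exact ⟨z, hz.symm'⟩

/-- unique maximal element from connectedness and the diamond property -/
lemma unique_top (_H : Gr P r) (hM : Modl P) (hc : (SimpleGraph.hasse P).Connected) (x y : P)
    (hx : lev x = 0) (hy : lev y = 0) : x = y := by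
  have hd : ∀ a b c : P, a ⋖ b → a ⋖ c →
      ∃ d, Relation.ReflGen (· ⋖ ·) b d ∧ Relation.ReflTransGen (· ⋖ ·) c d := by
    intro a b c hb hcc
    by_cases hbc : b = c
    · subst hbc
      exact ⟨b, Relation.ReflGen.refl, Relation.ReflTransGen.refl⟩
    · obtain ⟨y, h1, h2⟩ := cU hM hbc hb hcc
      exact ⟨y, Relation.ReflGen.single h1, Relation.ReflTransGen.single h2⟩
  have heq := Relation.equivalence_join_reflTransGen hd
  have hall : ∀ x y : P, Relation.Join (Relation.ReflTransGen (· ⋖ ·)) x y := by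
    intro x y
    have h1 := hc.preconnected x y
    rw [SimpleGraph.reachable_iff_reflTransGen] at h1
    induction h1 with
    | refl => exact heq.refl x
    | tail _ hbc ih =>
      refine heq.trans ih ?_
      rw [SimpleGraph.hasse_adj] at hbc
      rcases hbc with h | h
      · exact ⟨_, Relation.ReflTransGen.single h, Relation.ReflTransGen.refl⟩
      · exact ⟨_, Relation.ReflTransGen.refl, Relation.ReflTransGen.single h⟩
  have hle : ∀ {a b : P}, Relation.ReflTransGen (· ⋖ ·) a b → a ≤ b := by
    intro a b h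
    induction h with
    | refl => exact le_rfl
    | tail _ hbc ih => exact ih.trans hbc.le
  obtain ⟨z, hz1, hz2⟩ := hall x y
  have e1 := eq_of_le_of_lev' (hle hz1) (by omega)
  have e2 := eq_of_le_of_lev' (hle hz2) (by omega)
  rw [e1, e2]

theorem distrib_of_modl (hG : IsGaussian P) (hc : (SimpleGraph.hasse P).Connected)
    (hM : Modl P) : IsDistribLatticeOrder P := by
  obtain ⟨r, H⟩ := gr_of_connected hG hc
  have hJ := js_all H hM (unique_top H hM hc)
  refine distrib_of_lub hG fun x y => ?_
  obtain ⟨z, hz⟩ := hJ (lev x + lev y) x y (by omega) (by omega)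
  refine ⟨z, ?_, ?_⟩
  · intro t ht
    simp only [Set.mem_insert_iff, Set.mem_singleton_iff] at ht
    rcases ht with rfl | rfl
    · exact hz.1
    · exact hz.2.1
  · intro t ht
    exact hz.2.2 t (ht (by simp)) (ht (by simp))

end Pool.Agent.GaussPoset

end

/-! From `Pool.Agent.W_MP_448cb3_h96.Energy3` -/

section

namespace Pool.Agent.GaussPoset

set_option linter.unusedSectionVars false

open Polynomial Finset

universe u

variable {P : Type u} [Fintype P] [PartialOrder P] [DecidableEq P] {r j : ℕ} {e : P → ℕ}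

lemma rho_ge {x : P} (h : j ≤ lev x) : rho j e x = e x := by
  unfold rho
  rw [Nat.sub_eq_zero_of_le h]; simp

lemma E3_rho_le (x : P) : rho j e x ≤ e x := by
  unfold rho; omega

/-- neighbours in the Hasse diagram -/
def adjS (g v : P) : Prop := g ⋖ v ∨ v ⋖ g

lemma adj_lev (H : Gr P r) {g v : P} (h : adjS g v) (hv : lev v = j) :
    (lev g = j + 1 ∧ g ⋖ v) ∨ (lev g + 1 = j ∧ v ⋖ g) := by
  rcases h with h | h
  · left
    exact ⟨by have := (H.covBy_iff.mp h).2; omega, h⟩
  · right
    exact ⟨by have := (H.covBy_iff.mp h).2; omega, h⟩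

lemma adj_ne (H : Gr P r) {g v : P} (h : adjS g v) (hv : lev v = j) : lev g ≠ j := by
  rcases adj_lev H h hv with h' | h' <;> omega

lemma two_adj (H : Gr P r) {g a b c : P} (ha : lev a = j) (hb : lev b = j) (hc : lev c = j)
    (h1 : adjS g a) (h2 : adjS g b) (h3 : adjS g c) (hab : a ≠ b) : c = a ∨ c = b := by
  rcases adj_lev H h1 ha with h1 | h1 <;> rcases adj_lev H h2 hb with h2 | h2 <;>
    rcases adj_lev H h3 hc with h3 | h3
  · exact two_up H h1.2 h2.2 h3.2 hab
  · omega
  · omega
  · omega
  · omega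
  · omega
  · omega
  · exact two_low H h1.2 h2.2 h3.2 hab

lemma mem_Pk {x : P} : x ∈ Pk j e ↔ ¬ FI j e x ∧ ¬ FA j e x := by
  classical
  unfold Pk
  simp

lemma site_FI (H : Gr P r) (hA : Adm j e) {v : P} (hv : lev v = j) (h : FI j e v) :
    ∃ g, g ⋖ v ∧ e v < e g := by
  rcases h with h | ⟨z, hz, hzv⟩
  · rw [rho_ge hv.ge] at h; omega
  · have hlz := lev_strictAnti hz
    rw [rho_ge hv.ge, rho_ge (by omega : j ≤ lev z)] at hzv
    obtain ⟨c, hzc, hcv⟩ := exists_le_covBy_of_lt hz
    refine ⟨c, hcv, ?_⟩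
    by_contra hcon
    have hlc := (H.covBy_iff.mp hcv).2
    have hne : z ≠ c := by rintro rfl; omega
    refine hA c ⟨Or.inr ⟨z, lt_of_le_of_ne hzc hne, ?_⟩, v, hcv.lt, ?_⟩
    · rw [rho_ge (by omega), rho_ge (by omega)]; omega
    · rw [rho_ge (by omega), rho_ge hv.ge]; omega

lemma site_FA (H : Gr P r) (hA : Adm j e) {v : P} (hv : lev v = j) (h : FA j e v) :
    ∃ g, v ⋖ g ∧ e v < e g := by
  obtain ⟨y, hy, hvy⟩ := h
  have hly := lev_strictAnti hy
  obtain ⟨c, hvc, hcy⟩ := exists_covBy_le_of_lt hy
  have hlc := (H.covBy_iff.mp hvc).2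
  refine ⟨c, hvc, ?_⟩
  by_contra hcon
  rw [rho_ge hv.ge] at hvy
  have hrc : rho j e c = (e c : ℤ) - 1 := by
    unfold rho
    rw [show j - lev c = 1 by omega]; simp
  have hne : c ≠ y := by
    rintro rfl
    omega
  refine hA c ⟨Or.inr ⟨v, hvc.lt, ?_⟩, y, lt_of_le_of_ne hcy hne, ?_⟩
  · rw [hrc, rho_ge hv.ge]; omega
  · rw [hrc]; omega

lemma site_killed (H : Gr P r) (hA : Adm j e) {v : P} (hv : lev v = j) (h : v ∉ Pk j e) :
    ∃ g, adjS g v ∧ e v < e g := by
  rw [mem_Pk] at h
  by_cases h1 : FI j e v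
  · obtain ⟨g, hg, hg2⟩ := site_FI H hA hv h1
    exact ⟨g, Or.inl hg, hg2⟩
  · by_cases h2 : FA j e v
    · obtain ⟨g, hg, hg2⟩ := site_FA H hA hv h2
      exact ⟨g, Or.inr hg, hg2⟩
    · exact absurd ⟨h1, h2⟩ h

lemma sum_ge2 {x y : P} (h : x ≠ y) : e x + e y ≤ ∑ z, e z := by
  calc e x + e y = ∑ z ∈ ({x, y} : Finset P), e z := by rw [Finset.sum_pair h]
    _ ≤ ∑ z, e z := Finset.sum_le_sum_of_subset (subset_univ _)

lemma sum_ge3 {x y z : P} (h1 : x ≠ y) (h2 : x ≠ z) (h3 : y ≠ z) : e x + e y + e z ≤ ∑ w, e w := by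
  calc e x + e y + e z = ∑ w ∈ ({x, y, z} : Finset P), e w := by
        rw [Finset.sum_insert (by simp [h1, h2]), Finset.sum_pair h3]; ring
    _ ≤ ∑ w, e w := Finset.sum_le_sum_of_subset (subset_univ _)

lemma sum_ge4 {x y z t : P} (h1 : x ≠ y) (h2 : x ≠ z) (h3 : x ≠ t) (h4 : y ≠ z) (h5 : y ≠ t)
    (h6 : z ≠ t) : e x + e y + e z + e t ≤ ∑ w, e w := by
  calc e x + e y + e z + e t = ∑ w ∈ ({x, y, z, t} : Finset P), e w := by
        rw [Finset.sum_insert (by simp [h1, h2, h3]), Finset.sum_insert (by simp [h4, h5]),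
          Finset.sum_pair h6]; ring
    _ ≤ ∑ w, e w := Finset.sum_le_sum_of_subset (subset_univ _)

lemma two_mem {s : Finset P} (h : s.card ≤ 1) {x y : P} (hx : x ∈ s) (hy : y ∈ s) : x = y :=
  Finset.card_le_one.mp h x hx y hy

/-- an excited element next to the window which is not a peak is killed by a site -/
lemma off_killed (H : Gr P r) (hA : Adm j e) (hs : ∑ x, e x = 3) (h3 : (lv P j).card = 3)
    (hpk : (Pk j e).card ≤ 1) {g : P} (hg1 : lev g = j + 1 ∨ lev g + 1 = j) (hge : 1 ≤ e g)
    (hg : g ∉ Pk j e) : ∃ v, lev v = j ∧ adjS g v ∧ e g ≤ e v := by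
  classical
  by_contra hcon
  push Not at hcon
  -- the deeper element
  have hdeep : ∃ x, x ≠ g ∧ e x = 2 ∧ e g = 1 ∧ x ∈ Pk j e ∧ (lev x ≠ j + 1 ∧ lev x + 1 ≠ j
      ∧ lev x ≠ j) := by
    rcases hg1 with hg1 | hg1
    · -- lower side
      have hrg : rho j e g = e g := rho_ge (by omega)
      rw [mem_Pk] at hg
      have hnFA : ¬ FA j e g := by
        rintro ⟨y, hy, hgy⟩
        rw [hrg] at hgy
        have hly := lev_strictAnti hy
        obtain ⟨v, hgv, hvy⟩ := exists_covBy_le_of_lt hy
        have hlv := (H.covBy_iff.mp hgv).2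
        have h1 := hcon v (by omega) (Or.inl hgv)
        by_cases hvy2 : v = y
        · subst hvy2
          rw [rho_ge (by omega)] at hgy; omega
        · refine hA v ⟨Or.inr ⟨g, hgv.lt, ?_⟩, y, lt_of_le_of_ne hvy hvy2, ?_⟩
          · rw [hrg, rho_ge (by omega)]; omega
          · rw [rho_ge (by omega)]; omega
      have hFI : FI j e g := by
        by_contra h; exact hg ⟨h, hnFA⟩
      rcases hFI with h | ⟨z, hz, hzg⟩
      · rw [hrg] at h; omega
      · have hlz := lev_strictAnti hz
        rw [hrg, rho_ge (by omega : j ≤ lev z)] at hzg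
        have hne : z ≠ g := hz.ne
        have h1 := sum_ge2 (e := e) hne
        have hez : e z = 2 := by omega
        have heg : e g = 1 := by omega
        have hrest : ∀ w, w ≠ z → w ≠ g → e w = 0 := by
          intro w hwz hwg
          have := sum_ge3 (e := e) hne (fun h => hwz h.symm) (fun h => hwg h.symm)
          omega
        refine ⟨z, hne, hez, heg, ?_, by omega, by omega, by omega⟩
        rw [mem_Pk]
        constructor
        · rintro (h | ⟨z', hz', hzz⟩)
          · rw [rho_ge (by omega)] at h; omega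
          · have h2 := hrest z' hz'.ne (hz'.trans hz).ne
            have h3 := E3_rho_le (j := j) (e := e) z'
            rw [rho_ge (by omega : j ≤ lev z)] at hzz; omega
        · rintro ⟨y, hy, hzy⟩
          have h3 := E3_rho_le (j := j) (e := e) y
          rw [rho_ge (by omega : j ≤ lev z)] at hzy
          by_cases hyg : y = g
          · subst hyg; omega
          · have := hrest y hy.ne' hyg; omega
    · -- upper side
      have hrg : rho j e g = (e g : ℤ) - 1 := by
        unfold rho
        rw [show j - lev g = 1 by omega]; simp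
      rw [mem_Pk] at hg
      have hnFI : ¬ FI j e g := by
        rintro (h | ⟨z, hz, hzg⟩)
        · rw [hrg] at h; omega
        · rw [hrg] at hzg
          have hlz := lev_strictAnti hz
          obtain ⟨v, hzv, hvg⟩ := exists_le_covBy_of_lt hz
          have hlv := (H.covBy_iff.mp hvg).2
          have h1 := hcon v (by omega) (Or.inr hvg)
          have hrz : rho j e z = e z := rho_ge (by omega)
          by_cases hzv2 : z = v
          · subst hzv2; omega
          · refine hA v ⟨Or.inr ⟨z, lt_of_le_of_ne hzv hzv2, ?_⟩, g, hvg.lt, ?_⟩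
            · rw [rho_ge (by omega : j ≤ lev v)]; omega
            · rw [hrg, rho_ge (by omega : j ≤ lev v)]; omega
      have hFA : FA j e g := by
        by_contra h; exact hg ⟨hnFI, h⟩
      obtain ⟨y, hy, hgy⟩ := hFA
      have hly := lev_strictAnti hy
      have hne : y ≠ g := hy.ne'
      have h1 := sum_ge2 (e := e) hne
      have hry : rho j e y = (e y : ℤ) - ((j - lev y : ℕ) : ℤ) := rfl
      have hez : e y = 2 := by omega
      have heg : e g = 1 := by omega
      have hlevy : lev y + 2 = j := by omega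
      have hrest : ∀ w, w ≠ y → w ≠ g → e w = 0 := by
        intro w hwz hwg
        have := sum_ge3 (e := e) hne (fun h => hwz h.symm) (fun h => hwg h.symm)
        omega
      refine ⟨y, hne, hez, heg, ?_, by omega, by omega, by omega⟩
      rw [mem_Pk]
      constructor
      · rintro (h | ⟨z', hz', hzz⟩)
        · omega
        · have h3 := E3_rho_le (j := j) (e := e) z'
          by_cases hzg : z' = g
          · subst hzg; omega
          · have h2 := hrest z' hz'.ne hzg
            omega
      · rintro ⟨w, hw, hyw⟩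
        have h2 := hrest w hw.ne' (hy.trans hw).ne'
        have hlw := lev_strictAnti hw
        have hrw : rho j e w = (e w : ℤ) - ((j - lev w : ℕ) : ℤ) := rfl
        omega
  obtain ⟨x, hxg, hex, heg, hxP, hlx1, hlx2, hlx3⟩ := hdeep
  obtain ⟨a, b, c, hab, hac, hbc, habc⟩ := Finset.card_eq_three.mp h3
  have hrest : ∀ w, w ≠ x → w ≠ g → e w = 0 := by
    intro w hwz hwg
    have := sum_ge3 (e := e) hxg (fun h => hwz h.symm) (fun h => hwg h.symm)
    omega
  have hla : lev a = j := by rw [← mem_lv, habc]; simp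
  have hlb : lev b = j := by rw [← mem_lv, habc]; simp
  have hlc : lev c = j := by rw [← mem_lv, habc]; simp
  have hkill : ∀ s, lev s = j → adjS g s := by
    intro s hls
    have hsP : s ∉ Pk j e := by
      intro hsP
      have := two_mem hpk hsP hxP
      subst this
      exact hlx3 hls
    obtain ⟨g', hg', hlt⟩ := site_killed H hA hls hsP
    have : g' = g := by
      by_contra hgg
      have hx' : g' ≠ x := by
        rintro rfl
        rcases adj_lev H hg' hls with h | h
        · exact hlx1 h.1
        · exact hlx2 h.1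
      have := hrest g' hx' hgg
      omega
    rwa [this] at hg'
  rcases two_adj H hla hlb hlc (hkill a hla) (hkill b hlb) (hkill c hlc) hab with h | h
  · exact hac h.symm
  · exact hbc h.symm

/-- the excess function of a star with two rays -/
def e3 (v g g' : P) : P → ℕ := fun x => if x = v ∨ x = g ∨ x = g' then 1 else 0

/-- classification of the energy three configurations with few peaks -/
theorem classify (H : Gr P r) (hA : Adm j e) (hs : ∑ x, e x = 3)
    (h3 : (lv P j).card = 3) (hpk : (Pk j e).card ≤ 1) :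
    ∃ v0 v1 v2 g g', lev v0 = j ∧ lev v1 = j ∧ lev v2 = j ∧ v0 ≠ v1 ∧ v0 ≠ v2 ∧ v1 ≠ v2 ∧
      adjS g v0 ∧ adjS g v1 ∧ adjS g' v0 ∧ adjS g' v2 ∧ e = e3 v0 g g' := by
  classical
  obtain ⟨a, b, c, hab, hac, hbc, habc⟩ := Finset.card_eq_three.mp h3
  have hla : lev a = j := by rw [← mem_lv, habc]; simp
  have hlb : lev b = j := by rw [← mem_lv, habc]; simp
  have hlc : lev c = j := by rw [← mem_lv, habc]; simp
  -- two killed sites
  have hex : ∃ v1 v2 v3, lev v1 = j ∧ lev v2 = j ∧ lev v3 = j ∧ v1 ≠ v2 ∧ v1 ≠ v3 ∧ v2 ≠ v3 ∧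
      v1 ∉ Pk j e ∧ v2 ∉ Pk j e ∧ ∀ s, lev s = j → s = v1 ∨ s = v2 ∨ s = v3 := by
    have hall : ∀ s, lev s = j → s = a ∨ s = b ∨ s = c := by
      intro s hs
      rw [← mem_lv, habc] at hs
      simpa using hs
    by_cases haP : a ∈ Pk j e
    · refine ⟨b, c, a, hlb, hlc, hla, hbc, hab.symm, hac.symm, ?_, ?_, ?_⟩
      · intro h; exact hab (two_mem hpk haP h)
      · intro h; exact hac (two_mem hpk haP h)
      · intro s hs; rcases hall s hs with h | h | h <;> simp [h]
    · by_cases hbP : b ∈ Pk j e
      · refine ⟨a, c, b, hla, hlc, hlb, hac, hab, hbc.symm, haP, ?_, ?_⟩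
        · intro h; exact hbc (two_mem hpk hbP h)
        · intro s hs; rcases hall s hs with h | h | h <;> simp [h]
      · exact ⟨a, b, c, hla, hlb, hlc, hab, hac, hbc, haP, hbP, hall⟩
  obtain ⟨v1, v2, v3, hl1, hl2, hl3, h12, h13, h23, hk1, hk2, hall⟩ := hex
  obtain ⟨g1, hg1, he1⟩ := site_killed H hA hl1 hk1
  obtain ⟨g2, hg2, he2⟩ := site_killed H hA hl2 hk2
  have hlg : ∀ {g v : P}, adjS g v → lev v = j → lev g = j + 1 ∨ lev g + 1 = j := by
    intro g v h hv
    rcases adj_lev H h hv with h | h
    · exact Or.inl h.1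
    · exact Or.inr h.1
  by_cases hB : ∀ s, lev s = j → e s = 0
  · -- no energy on sites
    exfalso
    have hpeak : ∀ {g v : P}, adjS g v → lev v = j → 1 ≤ e g → g ∈ Pk j e := by
      intro g v hadj hv hge
      by_contra hg
      obtain ⟨v', hv', -, hv'2⟩ := off_killed H hA hs h3 hpk (hlg hadj hv) hge hg
      have := hB v' hv'
      omega
    have hp1 := hpeak hg1 hl1 (by omega)
    have hp2 := hpeak hg2 hl2 (by omega)
    have h12g := two_mem hpk hp1 hp2
    subst h12g
    by_cases hv3 : v3 ∈ Pk j e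
    · have := two_mem hpk hp1 hv3
      exact adj_ne H hg1 hl1 (by rw [this]; exact hl3)
    · obtain ⟨g3, hg3, he3⟩ := site_killed H hA hl3 hv3
      have hp3 := hpeak hg3 hl3 (by omega)
      have h13g := two_mem hpk hp1 hp3
      subst h13g
      rcases two_adj H hl1 hl2 hl3 hg1 hg2 hg3 h12 with h | h
      · exact h13 h.symm
      · exact h23 h.symm
  · push Not at hB
    obtain ⟨v0, hl0, he0⟩ := hB
    have hv0g : ∀ {g v : P}, adjS g v → lev v = j → v0 ≠ g := by
      rintro g v h hv rfl
      exact adj_ne H h hv hl0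
    by_cases hgg : g1 = g2
    · exfalso
      subst hgg
      have hgP : g1 ∈ Pk j e := by
        by_contra hg
        obtain ⟨v', hv', hadj, hle⟩ := off_killed H hA hs h3 hpk (hlg hg1 hl1) (by omega) hg
        rcases two_adj H hl1 hl2 hv' hg1 hg2 hadj h12 with h | h
        · subst h; omega
        · subst h; omega
      have hv3 : v3 ∉ Pk j e := by
        intro hv3
        have := two_mem hpk hgP hv3
        exact adj_ne H hg1 hl1 (by rw [this]; exact hl3)
      obtain ⟨g3, hg3, he3⟩ := site_killed H hA hl3 hv3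
      have hne : g1 ≠ g3 := by
        rintro rfl
        rcases two_adj H hl1 hl2 hl3 hg1 hg2 hg3 h12 with h | h
        · exact h13 h.symm
        · exact h23 h.symm
      have hsum := sum_ge3 (e := e) (hv0g hg1 hl1) (hv0g hg3 hl3) hne
      rcases hall v0 hl0 with h | h | h
      · subst h; omega
      · subst h; omega
      · subst h; omega
    · have hsum := sum_ge3 (e := e) (hv0g hg1 hl1) (hv0g hg2 hl2) hgg
      have hv03 : v0 = v3 := by
        rcases hall v0 hl0 with h | h | h
        · subst h; omega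
        · subst h; omega
        · exact h
      subst hv03
      have hrest : ∀ w, w ≠ v0 → w ≠ g1 → w ≠ g2 → e w = 0 := by
        intro w hw1 hw2 hw3
        have := sum_ge4 (e := e) (hv0g hg1 hl1) (hv0g hg2 hl2) (fun h => hw1 h.symm) hgg
          (fun h => hw2 h.symm) (fun h => hw3 h.symm)
        omega
      have hv0P : v0 ∈ Pk j e := by
        by_contra hv0
        obtain ⟨g3, hg3, he3⟩ := site_killed H hA hl0 hv0
        have h1 : g3 ≠ v0 := fun h => hv0g hg3 hl0 h.symm
        by_cases e1 : g3 = g1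
        · subst e1; omega
        · by_cases e2 : g3 = g2
          · subst e2; omega
          · have := hrest g3 h1 e1 e2
            omega
      have hadj : ∀ {g v : P}, adjS g v → lev v = j → 1 ≤ e g → adjS g v0 := by
        intro g v hadj hv hge
        have hgP : g ∉ Pk j e := by
          intro hg
          exact hv0g hadj hv (two_mem hpk hv0P hg)
        obtain ⟨v', hv', hadj', hle⟩ := off_killed H hA hs h3 hpk (hlg hadj hv) hge hgP
        have : v' = v0 := by
          rcases hall v' hv' with h | h | h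
          · subst h; omega
          · subst h; omega
          · exact h
        rwa [this] at hadj'
      refine ⟨v0, v1, v2, g1, g2, hl0, hl1, hl2, h13.symm, h23.symm, h12,
        hadj hg1 hl1 (by omega), hg1, hadj hg2 hl2 (by omega), hg2, ?_⟩
      funext x
      unfold e3
      split_ifs with hx
      · rcases hx with rfl | rfl | rfl <;> omega
      · push Not at hx
        exact hrest x hx.1 hx.2.1 hx.2.2

end Pool.Agent.GaussPoset

end

/-! From `Pool.Agent.W_MP_448cb3_h96.Energy3b` -/

section

namespace Pool.Agent.GaussPoset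

set_option linter.unusedSectionVars false

open Polynomial Finset

universe u

variable {P : Type u} [Fintype P] [PartialOrder P] [DecidableEq P] {r j : ℕ}

section Star

variable {a b c g g' : P}

lemma e3_le_one (x : P) : e3 a g g' x ≤ 1 := by
  unfold e3; split_ifs <;> omega

lemma e3_pos {x : P} (h : 1 ≤ e3 a g g' x) : x = a ∨ x = g ∨ x = g' := by
  by_contra hcon
  unfold e3 at h
  rw [if_neg hcon] at h
  omega

lemma e3_eq_one {x : P} (h : x = a ∨ x = g ∨ x = g') : e3 a g g' x = 1 := by
  unfold e3; rw [if_pos h]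

lemma e3_eq_zero {x : P} (h : ¬ (x = a ∨ x = g ∨ x = g')) : e3 a g g' x = 0 := by
  unfold e3; rw [if_neg h]

/-- the hypotheses on a star -/
structure Star (j : ℕ) (a b c g g' : P) : Prop where
  la : lev a = j
  lb : lev b = j
  lc : lev c = j
  hab : a ≠ b
  hac : a ≠ c
  hbc : b ≠ c
  hall : ∀ s : P, lev s = j → s = a ∨ s = b ∨ s = c
  g1 : adjS g a
  g2 : adjS g b
  g3 : adjS g' a
  g4 : adjS g' c

lemma e3_swap : e3 a g g' = e3 a g' g := by
  funext x
  unfold e3
  congr 1
  simp only [eq_iff_iff]
  tauto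

lemma Star.ne (H : Gr P r) (S : Star j a b c g g') : g ≠ g' := by
  rintro rfl
  rcases two_adj H S.la S.lb S.lc S.g1 S.g2 S.g4 S.hab with h | h
  · exact S.hac h.symm
  · exact S.hbc h.symm

lemma Star.off (H : Gr P r) (S : Star j a b c g g') : a ≠ g := by
  rintro rfl
  exact adj_ne H S.g1 S.la S.la

lemma Star.FI_iff (H : Gr P r) (S : Star j a b c g g') (x : P) :
    FI j (e3 a g g') x ↔ lev x < j ∨ (x = b ∧ lev g = j + 1) ∨ (x = c ∧ lev g' = j + 1) := by
  constructor
  · intro h
    by_cases hx : lev x < j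
    · exact Or.inl hx
    · right
      rcases h with h | ⟨z, hz, hzx⟩
      · rw [rho_ge (by omega)] at h; omega
      · have hlz := lev_strictAnti hz
        rw [rho_ge (by omega), rho_ge (by omega)] at hzx
        have hz1 := e3_le_one (a := a) (g := g) (g' := g') z
        have hz2 := e3_pos (a := a) (g := g) (g' := g') (x := z) (by omega)
        have hx0 : e3 a g g' x = 0 := by omega
        have hxa : x ≠ a := by
          rintro rfl
          have := e3_eq_one (a := x) (g := g) (g' := g') (x := x) (Or.inl rfl)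
          omega
        rcases hz2 with h | h | h
        · subst h; have := S.la; omega
        · subst h
          rcases adj_lev H S.g1 S.la with h1 | h1
          · left
            have hlx : lev x = j := by omega
            rcases two_adj H S.la S.lb hlx S.g1 S.g2 (Or.inl (H.covBy_iff.mpr ⟨hz, by omega⟩))
              S.hab with h2 | h2
            · exact absurd h2 hxa
            · exact ⟨h2, h1.1⟩
          · omega
        · subst h
          rcases adj_lev H S.g3 S.la with h1 | h1
          · right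
            have hlx : lev x = j := by omega
            rcases two_adj H S.la S.lc hlx S.g3 S.g4 (Or.inl (H.covBy_iff.mpr ⟨hz, by omega⟩))
              S.hac with h2 | h2
            · exact absurd h2 hxa
            · exact ⟨h2, h1.1⟩
          · omega
  · rintro (h | ⟨h, h2⟩ | ⟨h, h2⟩)
    · by_cases hx : 1 ≤ e3 a g g' x
      · rcases e3_pos hx with h1 | h1 | h1
        · subst h1; have := S.la; omega
        · subst h1
          rcases adj_lev H S.g1 S.la with h1 | h1
          · omega
          · right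
            refine ⟨a, h1.2.lt, ?_⟩
            rw [rho_ge (x := a) (by rw [S.la]), e3_eq_one (Or.inl rfl)]
            unfold rho
            have := e3_le_one (a := a) (g := x) (g' := g') x
            omega
        · subst h1
          rcases adj_lev H S.g3 S.la with h1 | h1
          · omega
          · right
            refine ⟨a, h1.2.lt, ?_⟩
            rw [rho_ge (x := a) (by rw [S.la]), e3_eq_one (Or.inl rfl)]
            unfold rho
            have := e3_le_one (a := a) (g := g) (g' := x) x
            omega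
      · left
        unfold rho
        omega
    · subst h
      rcases adj_lev H S.g2 S.lb with h1 | h1
      · right
        refine ⟨g, h1.2.lt, ?_⟩
        have hz : e3 a g g' x = 0 := by
          apply e3_eq_zero
          rintro (h3 | h3 | h3)
          · exact S.hab h3.symm
          · subst h3; have := S.lb; omega
          · subst h3; exact adj_ne H S.g3 S.la S.lb
        rw [rho_ge (by rw [S.lb]), rho_ge (by omega), hz,
          e3_eq_one (x := g) (Or.inr (Or.inl rfl))]
        norm_num
      · omega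
    · subst h
      rcases adj_lev H S.g4 S.lc with h1 | h1
      · right
        refine ⟨g', h1.2.lt, ?_⟩
        have hz : e3 a g g' x = 0 := by
          apply e3_eq_zero
          rintro (h3 | h3 | h3)
          · exact S.hac h3.symm
          · subst h3; exact adj_ne H S.g1 S.la S.lc
          · subst h3; have := S.lc; omega
        rw [rho_ge (by rw [S.lc]), rho_ge (by omega), hz,
          e3_eq_one (x := g') (Or.inr (Or.inr rfl))]
        norm_num
      · omega

lemma Star.FA_iff (H : Gr P r) (S : Star j a b c g g') (x : P) :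
    FA j (e3 a g g') x ↔ j < lev x ∨ (x = b ∧ lev g + 1 = j) ∨ (x = c ∧ lev g' + 1 = j) := by
  constructor
  · rintro ⟨y, hy, hxy⟩
    by_cases hx : j < lev x
    · exact Or.inl hx
    · right
      have hly := lev_strictAnti hy
      have hy1 := e3_le_one (a := a) (g := g) (g' := g') y
      have hry : rho j (e3 a g g') y = (e3 a g g' y : ℤ) - ((j - lev y : ℕ) : ℤ) := rfl
      have hrx : rho j (e3 a g g') x = (e3 a g g' x : ℤ) - ((j - lev x : ℕ) : ℤ) := rfl
      have hlx : lev x = j ∧ e3 a g g' y = 1 ∧ lev y + 1 = j ∧ e3 a g g' x = 0 := by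
        by_cases hy0 : 1 ≤ e3 a g g' y
        · have hly2 : lev y + 1 = j := by
            rcases e3_pos hy0 with h | h | h
            · subst h; have := S.la; omega
            · subst h
              rcases adj_lev H S.g1 S.la with h1 | h1 <;> omega
            · subst h
              rcases adj_lev H S.g3 S.la with h1 | h1 <;> omega
          omega
        · omega
      obtain ⟨h1, h2, h3, h4⟩ := hlx
      have hxa : x ≠ a := by
        rintro rfl
        have := e3_eq_one (a := x) (g := g) (g' := g') (x := x) (Or.inl rfl)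
        omega
      have hcov : x ⋖ y := H.covBy_iff.mpr ⟨hy, by omega⟩
      rcases e3_pos (a := a) (g := g) (g' := g') (x := y) (by omega) with h | h | h
      · subst h; have := S.la; omega
      · subst h
        rcases two_adj H S.la S.lb h1 S.g1 S.g2 (Or.inr hcov) S.hab with h5 | h5
        · exact absurd h5 hxa
        · exact Or.inl ⟨h5, h3⟩
      · subst h
        rcases two_adj H S.la S.lc h1 S.g3 S.g4 (Or.inr hcov) S.hac with h5 | h5
        · exact absurd h5 hxa
        · exact Or.inr ⟨h5, h3⟩
  · rintro (h | ⟨h, h2⟩ | ⟨h, h2⟩)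
    · by_cases hx : 1 ≤ e3 a g g' x
      · have hx1 := e3_le_one (a := a) (g := g) (g' := g') x
        refine ⟨a, ?_, ?_⟩
        · rcases e3_pos hx with h1 | h1 | h1
          · subst h1; have := S.la; omega
          · subst h1
            rcases adj_lev H S.g1 S.la with h1 | h1
            · exact h1.2.lt
            · omega
          · subst h1
            rcases adj_lev H S.g3 S.la with h1 | h1
            · exact h1.2.lt
            · omega
        · rw [rho_ge (by omega), rho_ge (x := a) (by rw [S.la]), e3_eq_one (x := a) (Or.inl rfl)]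
          omega
      · obtain ⟨y, hy, hy2⟩ := exists_above' (x := x) (j := j) h.le
        have hne : x ≠ y := by rintro rfl; omega
        refine ⟨y, lt_of_le_of_ne hy hne, ?_⟩
        rw [rho_ge (by omega), rho_ge (by omega)]
        omega
    · subst h
      rcases adj_lev H S.g2 S.lb with h1 | h1
      · omega
      · refine ⟨g, h1.2.lt, ?_⟩
        have hz : e3 a g g' x = 0 := by
          apply e3_eq_zero
          rintro (h3 | h3 | h3)
          · exact S.hab h3.symm
          · subst h3; have := S.lb; omega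
          · subst h3; exact adj_ne H S.g3 S.la S.lb
        rw [rho_ge (by rw [S.lb]), hz]
        unfold rho
        rw [e3_eq_one (x := g) (Or.inr (Or.inl rfl))]
        omega
    · subst h
      rcases adj_lev H S.g4 S.lc with h1 | h1
      · omega
      · refine ⟨g', h1.2.lt, ?_⟩
        have hz : e3 a g g' x = 0 := by
          apply e3_eq_zero
          rintro (h3 | h3 | h3)
          · exact S.hac h3.symm
          · subst h3; exact adj_ne H S.g1 S.la S.lc
          · subst h3; have := S.lc; omega
        rw [rho_ge (by rw [S.lc]), hz]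
        unfold rho
        rw [e3_eq_one (x := g') (Or.inr (Or.inr rfl))]
        omega

lemma Star.adm (H : Gr P r) (S : Star j a b c g g') : Adm j (e3 a g g') := by
  intro x
  rw [S.FI_iff H, S.FA_iff H]
  rintro ⟨h1 | ⟨h1, h2⟩ | ⟨h1, h2⟩, h3 | ⟨h3, h4⟩ | ⟨h3, h4⟩⟩
  · omega
  · subst h3; have := S.lb; omega
  · subst h3; have := S.lc; omega
  · subst h1; have := S.lb; omega
  · omega
  · exact S.hbc (h1.symm.trans h3)
  · subst h1; have := S.lc; omega
  · exact S.hbc (h3.symm.trans h1)
  · omega

lemma Star.pk (H : Gr P r) (S : Star j a b c g g') : Pk j (e3 a g g') = {a} := by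
  ext x
  rw [mem_Pk, S.FI_iff H, S.FA_iff H, mem_singleton]
  constructor
  · rintro ⟨h1, h2⟩
    push Not at h1 h2
    have hlx : lev x = j := by omega
    rcases S.hall x hlx with h | h | h
    · exact h
    · exfalso
      rcases adj_lev H S.g1 S.la with h3 | h3
      · exact h1.2.1 h h3.1
      · exact h2.2.1 h h3.1
    · exfalso
      rcases adj_lev H S.g3 S.la with h3 | h3
      · exact h1.2.2 h h3.1
      · exact h2.2.2 h h3.1
  · rintro rfl
    have := S.la
    constructor
    · rintro (h | ⟨h, -⟩ | ⟨h, -⟩)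
      · omega
      · exact S.hab h
      · exact S.hac h
    · rintro (h | ⟨h, -⟩ | ⟨h, -⟩)
      · omega
      · exact S.hab h
      · exact S.hac h

/-- sign of an off-site element -/
noncomputable def sg (j : ℕ) (g : P) : ℤ := if lev g = j + 1 then -1 else 1

lemma Star.nf_sign (H : Gr P r) (S : Star j a b c g g') :
    (-1 : ℤ) ^ (nf j (e3 a g g')) = (-1) ^ (below P j) * (sg j g * sg j g') := by
  classical
  have h1 : (univ.filter (fun x => FI j (e3 a g g') x)) =
      (univ.filter (fun x : P => lev x < j)) ∪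
        ((if lev g = j + 1 then {b} else ∅) ∪ (if lev g' = j + 1 then {c} else ∅)) := by
    ext x
    rw [mem_filter, S.FI_iff H, mem_union, mem_union, mem_filter]
    have e1 : x ∈ (if lev g = j + 1 then ({b} : Finset P) else ∅) ↔ x = b ∧ lev g = j + 1 := by
      split_ifs with h <;> simp [h]
    have e2 : x ∈ (if lev g' = j + 1 then ({c} : Finset P) else ∅) ↔ x = c ∧ lev g' = j + 1 := by
      split_ifs with h <;> simp [h]
    rw [e1, e2]
    simp
  have h2 : nf j (e3 a g g') = below P j + ((if lev g = j + 1 then 1 else 0) +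
      (if lev g' = j + 1 then 1 else 0)) := by
    unfold nf below
    rw [h1, Finset.card_union_of_disjoint, Finset.card_union_of_disjoint]
    · congr 1
      congr 1
      · split_ifs <;> simp
      · split_ifs <;> simp
    · split_ifs
      · rw [Finset.disjoint_singleton]; exact S.hbc
      · exact Finset.disjoint_empty_right _
      · exact Finset.disjoint_empty_left _
      · exact Finset.disjoint_empty_left _
    · rw [Finset.disjoint_left]
      intro x hx hx2
      rw [mem_filter] at hx
      rw [mem_union] at hx2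
      have hlb := S.lb
      have hlc := S.lc
      rcases hx2 with hx2 | hx2
      · split_ifs at hx2
        · rw [mem_singleton] at hx2; subst hx2; omega
        · exact absurd hx2 (notMem_empty _)
      · split_ifs at hx2
        · rw [mem_singleton] at hx2; subst hx2; omega
        · exact absurd hx2 (notMem_empty _)
  rw [h2, pow_add, pow_add]
  unfold sg
  congr 1
  split_ifs <;> norm_num

end Star

end Pool.Agent.GaussPoset

end

/-! From `Pool.Agent.W_448win_h16.Defs` -/

section

/-!
Window calculus for Gaussian posets (MP_448cb3_co, M = 1): definitions.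
`e : P → ℕ` is an excess function, `i` the window level; elements of level `i` are the sites,
elements of level `> i` are lower, elements of level `< i` are upper, `i+1` and `i-1` are near.
-/

namespace Pool.Agent.GaussPoset.Win

set_option linter.unusedSectionVars false

open Finset

universe u

/-- coefficient ring: power series in `dd` -/
abbrev A := PowerSeries ℤ

/-- the variable of `A` -/
noncomputable def dd : A := PowerSeries.X

/-- the image of `X`, a unit -/
noncomputable def xx : A := dd - 1

/-- the inverse of `xx` -/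
noncomputable def xi : A := -(PowerSeries.mk fun _ => (1 : ℤ))

/-- evaluation of an integer polynomial at `xx` -/
noncomputable def ev : Polynomial ℤ →+* A := Polynomial.eval₂RingHom (Int.castRingHom A) xx

section Data

variable {P : Type u} [Fintype P] [PartialOrder P] [DecidableEq P]

/-- some lower cover has a larger label -/
def FD (e : P → ℕ) (z : P) : Prop := ∃ z', z' ⋖ z ∧ e z < e z'

/-- some upper cover has a label which is at least as large -/
def GU (e : P → ℕ) (z : P) : Prop := ∃ y, z ⋖ y ∧ e z ≤ e y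

/-- some upper cover has a larger label -/
def FU (e : P → ℕ) (u : P) : Prop := ∃ y, u ⋖ y ∧ e u < e y

/-- some lower cover has a label which is at least as large -/
def GD (e : P → ℕ) (u : P) : Prop := ∃ z, z ⋖ u ∧ e u ≤ e z

/-- admissibility below the window -/
def AdmL (i : ℕ) (e : P → ℕ) : Prop := ∀ z : P, i < lev z → ¬ (FD e z ∧ GU e z)

/-- admissibility above the window -/
def AdmU (i : ℕ) (e : P → ℕ) : Prop := ∀ u : P, lev u < i → ¬ (FU e u ∧ GD e u)

open Classical in
/-- number of lower elements with `FD` -/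
noncomputable def aL (i : ℕ) (e : P → ℕ) : ℕ :=
  (univ.filter (fun z : P => i < lev z ∧ FD e z)).card

open Classical in
/-- number of free lower elements -/
noncomputable def pL (i : ℕ) (e : P → ℕ) : ℕ :=
  (univ.filter (fun z : P => i < lev z ∧ ¬ FD e z ∧ ¬ GU e z)).card

open Classical in
/-- number of upper elements with `FU` -/
noncomputable def aU (i : ℕ) (e : P → ℕ) : ℕ :=
  (univ.filter (fun z : P => lev z < i ∧ FU e z)).card

open Classical in
/-- number of free upper elements -/
noncomputable def pU (i : ℕ) (e : P → ℕ) : ℕ :=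
  (univ.filter (fun z : P => lev z < i ∧ ¬ FU e z ∧ ¬ GD e z)).card

open Classical in
/-- sites forced by the lower part -/
noncomputable def AL (i : ℕ) (e : P → ℕ) : Finset P := (lv P i).filter (fun v => FD e v)

open Classical in
/-- sites forced by the upper part -/
noncomputable def AU (i : ℕ) (e : P → ℕ) : Finset P := (lv P i).filter (fun v => FU e v)

open Classical in
/-- the coefficient of a configuration -/
noncomputable def cw (i : ℕ) (e : P → ℕ) : A :=
  if AdmL i e ∧ AdmU i e then xx ^ aL i e * xi ^ (aU i e + pU i e) * dd ^ (pL i e + pU i e) else 0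

/-- indicator of `B ⊆ S` and `C ∩ S = ∅` -/
noncomputable def chi (B C S : Finset P) : A := if B ⊆ S ∧ Disjoint C S then 1 else 0

/-- the function of the configuration `e` -/
noncomputable def Fe (i : ℕ) (e : P → ℕ) (S : Finset P) : A := cw i e * chi (AL i e) (AU i e) S

/-- the term of the configuration `e` -/
noncomputable def trm (i : ℕ) (e : P → ℕ) : A :=
  if Disjoint (AL i e) (AU i e) then
    cw i e * (xx ^ (AL i e).card * dd ^ ((lv P i).card - (AL i e).card - (AU i e).card))
  else 0

/-- weighted sum over the subsets of the window -/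
noncomputable def II (i : ℕ) (f : Finset P → A) : A := ∑ S ∈ (lv P i).powerset, xx ^ S.card * f S

/-- configurations with at most `k` deficits -/
def Cheap (k i : ℕ) (e : P → ℕ) : Prop :=
  ¬ AdmL i e ∨ ¬ AdmU i e ∨ ¬ Disjoint (AL i e) (AU i e) ∨
    (AL i e).card + (AU i e).card ≤ pL i e + pU i e + k

/-- functions on subsets of `V` with at most `k` deficits -/
def Rk (V : Finset P) (k : ℕ) (f : Finset P → A) : Prop :=
  ∃ c : Finset P → A, (∀ T, T ⊆ V → dd ^ (T.card - k) ∣ c T) ∧
    ∀ S, S ⊆ V → f S = ∑ T ∈ S.powerset, c T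

open Classical in
/-- upper covers -/
noncomputable def uc (x : P) : Finset P := univ.filter (fun y => x ⋖ y)

open Classical in
/-- lower covers -/
noncomputable def dc (x : P) : Finset P := univ.filter (fun y => y ⋖ x)

open Classical in
/-- near elements -/
noncomputable def near (P : Type u) [Fintype P] [PartialOrder P] [DecidableEq P] (i : ℕ) :
    Finset P := univ.filter (fun x : P => lev x = i + 1 ∨ lev x + 1 = i)

open Classical in
/-- double lower near elements -/
noncomputable def dbL (P : Type u) [Fintype P] [PartialOrder P] [DecidableEq P] (i : ℕ) :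
    Finset P := univ.filter (fun x : P => lev x = i + 1 ∧ (uc x).card = 2)

open Classical in
/-- double upper near elements -/
noncomputable def dbU (P : Type u) [Fintype P] [PartialOrder P] [DecidableEq P] (i : ℕ) :
    Finset P := univ.filter (fun x : P => lev x + 1 = i ∧ (dc x).card = 2)

/-- level `i` is good -/
def Good (P : Type u) [Fintype P] [PartialOrder P] [DecidableEq P] (i : ℕ) : Prop :=
  ∀ v v' : P, lev v = i → lev v' = i → v ≠ v' → ucv v v' = dcv v v'

open Classical in
/-- single-up elements of level `i+2` below a double-up element -/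
noncomputable def PD (P : Type u) [Fintype P] [PartialOrder P] [DecidableEq P] (i : ℕ) :
    Finset P := univ.filter (fun z : P => lev z = i + 2 ∧ (uc z).card = 1 ∧
      ∃ w, z ⋖ w ∧ (uc w).card = 2)

open Classical in
/-- single-down elements of level `i-2` above a double-down element -/
noncomputable def PU (P : Type u) [Fintype P] [PartialOrder P] [DecidableEq P] (i : ℕ) :
    Finset P := univ.filter (fun x : P => lev x + 2 = i ∧ (dc x).card = 1 ∧
      ∃ u, u ⋖ x ∧ (dc u).card = 2)

/-- weight of a lower near element `w` with label `a` -/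
noncomputable def wtL (e : P → ℕ) (w : P) (a : ℕ) (S : Finset P) : A :=
  (if ∀ v ∈ uc w, e v < a then dd else 1) * (if ∀ v ∈ uc w, e v < a → v ∈ S then 1 else 0)

/-- weight of an upper near element `u` with label `b` -/
noncomputable def wtU (e : P → ℕ) (u : P) (b : ℕ) (S : Finset P) : A :=
  (if ∀ v ∈ dc u, e v < b then xi * dd else 1) * (if ∀ v ∈ dc u, e v < b → v ∉ S then 1 else 0)

/-- weight of a near element -/
noncomputable def wt (i : ℕ) (e : P → ℕ) (x : P) (a : ℕ) (S : Finset P) : A :=
  if lev x = i + 1 then wtL e x a S else wtU e x a S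

open Classical in
/-- near elements touched by a far element with positive label -/
noncomputable def Tch (i : ℕ) (e : P → ℕ) : Finset P :=
  univ.filter (fun x : P => (lev x = i + 1 ∧ ∃ z, z ⋖ x ∧ 0 < e z) ∨
    (lev x + 1 = i ∧ ∃ y, x ⋖ y ∧ 0 < e y))

/-- `psi` matches the double lower and the double upper near elements outside `K` -/
structure Mat (P : Type u) [Fintype P] [PartialOrder P] [DecidableEq P] (i : ℕ) (K : Finset P)
    (psi : P → P) : Prop where
  invol : ∀ x, x ∈ dbL P i ∪ dbU P i → x ∉ K → psi (psi x) = x ∧ psi x ∉ K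
  low : ∀ x, x ∈ dbL P i → x ∉ K → psi x ∈ dbU P i ∧ dc (psi x) = uc x
  upp : ∀ x, x ∈ dbU P i → x ∉ K → psi x ∈ dbL P i ∧ uc (psi x) = dc x

open Classical in
/-- the free near elements of a configuration -/
noncomputable def Rst (i : ℕ) (K : Finset P) (psi : P → P) (e : P → ℕ) : Finset P :=
  (near P i).filter (fun x => x ∉ K ∧ x ∉ Tch i e ∧
    ¬ (x ∈ dbL P i ∪ dbU P i ∧ psi x ∈ Tch i e))

/-- cores: the free near elements have label zero -/
def IsCore (i : ℕ) (K : Finset P) (psi : P → P) (e : P → ℕ) : Prop :=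
  ∀ x ∈ Rst i K psi e, e x = 0

/-- label one on `z` and its upper covers -/
noncomputable def cl (z : P) : P → ℕ := fun y => if y = z ∨ y ∈ uc z then 1 else 0

/-- label one on `x` and its lower covers -/
noncomputable def cu (x : P) : P → ℕ := fun y => if y = x ∨ y ∈ dc x then 1 else 0

/-- label one on `a` only -/
def sg (a : P) : P → ℕ := Pi.single a 1

open Classical in
/-- lower elements of level at least `i+2` with positive label -/
noncomputable def LF (i : ℕ) (e : P → ℕ) : Finset P :=
  univ.filter (fun z : P => i + 2 ≤ lev z ∧ 0 < e z)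

open Classical in
/-- upper elements of level at most `i-2` with positive label -/
noncomputable def UF (i : ℕ) (e : P → ℕ) : Finset P :=
  univ.filter (fun z : P => lev z + 2 ≤ i ∧ 0 < e z)

open Classical in
/-- touched lower near elements -/
noncomputable def TL (i : ℕ) (e : P → ℕ) : Finset P :=
  univ.filter (fun x : P => lev x = i + 1 ∧ ∃ z, z ⋖ x ∧ 0 < e z)

open Classical in
/-- touched upper near elements -/
noncomputable def TU (i : ℕ) (e : P → ℕ) : Finset P :=
  univ.filter (fun x : P => lev x + 1 = i ∧ ∃ y, x ⋖ y ∧ 0 < e y)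

lemma mem_uc {x y : P} : y ∈ uc x ↔ x ⋖ y := by
  classical
  unfold uc; simp

lemma mem_dc {x y : P} : y ∈ dc x ↔ y ⋖ x := by
  classical
  unfold dc; simp

end Data

end Pool.Agent.GaussPoset.Win

end

/-! From `Pool.Agent.W_448win_h16.NormA` -/

section

/-! Ring facts. -/

namespace Pool.Agent.GaussPoset.Win

set_option linter.unusedSectionVars false

open Finset

universe u

variable {P : Type u} [Fintype P] [PartialOrder P] [DecidableEq P] {r : ℕ}

lemma xx_mul_xi : xx * xi = 1 := by
  have h1 : (PowerSeries.mk fun _ => (1 : ℤ)) * (1 - PowerSeries.X) = (1 : PowerSeries ℤ) :=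
    PowerSeries.mk_one_mul_one_sub_eq_one ℤ
  unfold xx xi dd
  linear_combination h1

lemma one_add_xx : 1 + xx = dd := by
  unfold xx
  ring

lemma one_add_xi : 1 + xi = xi * dd := by
  rw [← one_add_xx, mul_add, mul_one, mul_comm xi xx, xx_mul_xi, add_comm]

lemma cc_xx : PowerSeries.constantCoeff xx = (-1 : ℤ) := by
  unfold xx dd
  rw [map_sub, PowerSeries.constantCoeff_X, map_one, zero_sub]

lemma cc_xi : PowerSeries.constantCoeff xi = (-1 : ℤ) := by
  have h1 := congrArg (PowerSeries.constantCoeff (R := ℤ)) xx_mul_xi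
  rw [map_mul, cc_xx, map_one] at h1
  linarith

lemma ev_X : ev (Polynomial.X) = xx := by
  unfold ev
  rw [Polynomial.coe_eval₂RingHom, Polynomial.eval₂_X]

lemma ev_one_add : ev (1 + Polynomial.X) = dd := by
  rw [map_add, map_one, ev_X, one_add_xx]

/-- divisibility by one more power kills the constant coefficient -/
lemma cc_of_dvd {k : ℕ} {y : A} (h : dd ^ (k + 1) ∣ dd ^ k * y) :
    PowerSeries.constantCoeff y = (0 : ℤ) := by
  have h0 : (dd : A) ≠ 0 := PowerSeries.X_ne_zero
  obtain ⟨c, hc⟩ := h
  rw [pow_succ, mul_assoc] at hc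
  have h1 := mul_left_cancel₀ (pow_ne_zero k h0) hc
  rw [h1, map_mul]
  unfold dd
  rw [PowerSeries.constantCoeff_X, zero_mul]

end Pool.Agent.GaussPoset.Win

end

/-! From `Pool.Agent.W_448win_h16.FactA` -/

section

/-! Covers. -/

namespace Pool.Agent.GaussPoset.Win

set_option linter.unusedSectionVars false

open Finset

universe u

variable {P : Type u} [Fintype P] [PartialOrder P] [DecidableEq P] {r : ℕ}

lemma mem_near {i : ℕ} {x : P} : x ∈ near P i ↔ lev x = i + 1 ∨ lev x + 1 = i := by
  classical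
  unfold near; simp

lemma mem_dbL {i : ℕ} {x : P} : x ∈ dbL P i ↔ lev x = i + 1 ∧ (uc x).card = 2 := by
  classical
  unfold dbL; simp

lemma mem_dbU {i : ℕ} {x : P} : x ∈ dbU P i ↔ lev x + 1 = i ∧ (dc x).card = 2 := by
  classical
  unfold dbU; simp

lemma mem_Tch {i : ℕ} {e : P → ℕ} {x : P} : x ∈ Tch i e ↔
    (lev x = i + 1 ∧ ∃ z, z ⋖ x ∧ 0 < e z) ∨ (lev x + 1 = i ∧ ∃ y, x ⋖ y ∧ 0 < e y) := by
  classical
  unfold Tch; simp

lemma lev_uc (H : Gr P r) {x v : P} (h : v ∈ uc x) : lev x = lev v + 1 :=
  (H.covBy_iff.mp (mem_uc.mp h)).2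

lemma lev_dc (H : Gr P r) {x v : P} (h : v ∈ dc x) : lev v = lev x + 1 :=
  (H.covBy_iff.mp (mem_dc.mp h)).2

/-- from `exists_lev_succ` and `H.covBy_iff` -/
lemma uc_nonempty (H : Gr P r) {x : P} (h : 1 ≤ lev x) : (uc x).Nonempty := by
  obtain ⟨y, hy, hy2⟩ := exists_lev_succ (x := x) (k := lev x - 1) (by omega)
  exact ⟨y, mem_uc.mpr (H.covBy_iff.mpr ⟨hy, by omega⟩)⟩

/-- from `H.exists_below` and `H.covBy_iff` -/
lemma dc_nonempty (H : Gr P r) {x : P} (h : lev x < r) : (dc x).Nonempty := by
  obtain ⟨z, hz, hz2⟩ := H.exists_below (x := x) (j := lev x + 1) (by omega) (by omega)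
  have hne : z ≠ x := by
    intro h1
    subst h1
    omega
  exact ⟨z, mem_dc.mpr (H.covBy_iff.mpr ⟨lt_of_le_of_ne hz hne, hz2⟩)⟩

/-- at most two upper covers: `two_up`, or `energy_one` and `up` -/
lemma uc_card_le (H : Gr P r) (x : P) : (uc x).card ≤ 2 := by
  classical
  rcases (uc x).eq_empty_or_nonempty with h0 | ⟨a, ha⟩
  · rw [h0, Finset.card_empty]
    omega
  · have hla := lev_uc H ha
    have h1 := (energy_one H (j := lev a) (H.lev_le a)).2.1 x hla
    refine le_trans (Finset.card_le_card ?_) h1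
    intro y hy
    rw [mem_filter, mem_lv]
    have hly := lev_uc H hy
    exact ⟨by omega, (mem_uc.mp hy).lt⟩

/-- at most two lower covers: `two_low`, or `energy_one` and `dn` -/
lemma dc_card_le (H : Gr P r) (x : P) : (dc x).card ≤ 2 := by
  classical
  rcases (dc x).eq_empty_or_nonempty with h0 | ⟨a, ha⟩
  · rw [h0, Finset.card_empty]
    omega
  · have hla := lev_dc H ha
    have h1 := (energy_one H (j := lev x + 1) (by have := H.lev_le a; omega)).1 x rfl
    refine le_trans (Finset.card_le_card ?_) h1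
    intro y hy
    rw [mem_filter, mem_lv]
    exact ⟨lev_dc H hy, (mem_dc.mp hy).lt⟩

end Pool.Agent.GaussPoset.Win

end

/-! From `Pool.Agent.W_448win_h16.LowA` -/

section

/-! Sites of far elements, propagation of positive labels. -/

namespace Pool.Agent.GaussPoset.Win

set_option linter.unusedSectionVars false

open Finset

universe u

variable {P : Type u} [Fintype P] [PartialOrder P] [DecidableEq P] {r : ℕ}

/-- the sites above a far lower element -/
noncomputable def sts (i : ℕ) (z : P) : Finset P := by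
  classical exact (lv P i).filter (fun v => z < v)

/-- the sites below a far upper element -/
noncomputable def stD (i : ℕ) (x : P) : Finset P := by
  classical exact (lv P i).filter (fun v => v < x)

lemma mem_sts {i : ℕ} {z v : P} : v ∈ sts i z ↔ lev v = i ∧ z < v := by
  classical
  unfold sts; rw [mem_filter, mem_lv]

lemma mem_stD {i : ℕ} {x v : P} : v ∈ stD i x ↔ lev v = i ∧ v < x := by
  classical
  unfold stD; rw [mem_filter, mem_lv]

lemma card_sts (i : ℕ) (z : P) : (sts i z).card = up i z := rfl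

lemma card_stD (i : ℕ) (z : P) : (stD i z).card = dn i z := rfl

/-- for `z` at level `i + 2`: a site is above `z` iff it is an upper cover of an upper cover
(`exists_covBy_le_of_lt`, levels) -/
lemma mem_sts_iff (H : Gr P r) {i : ℕ} {z v : P} (hz : lev z = i + 2) :
    v ∈ sts i z ↔ ∃ w ∈ uc z, v ∈ uc w := by
  rw [mem_sts]
  constructor
  · rintro ⟨hv, hzv⟩
    obtain ⟨w, h1, h2⟩ := exists_covBy_le_of_lt hzv
    have h3 := (H.covBy_iff.1 h1).2
    have h4 : w ≠ v := by
      rintro rfl
      omega
    exact ⟨w, mem_uc.2 h1, mem_uc.2 (H.covBy_iff.2 ⟨lt_of_le_of_ne h2 h4, by omega⟩)⟩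
  · rintro ⟨w, h1, h2⟩
    have h3 := H.covBy_iff.1 (mem_uc.1 h1)
    have h4 := H.covBy_iff.1 (mem_uc.1 h2)
    exact ⟨by omega, h3.1.trans h4.1⟩

/-- mirror image of `mem_sts_iff` -/
lemma mem_stD_iff (H : Gr P r) {i : ℕ} {x v : P} (hx : lev x + 2 = i) :
    v ∈ stD i x ↔ ∃ u ∈ dc x, v ∈ dc u := by
  rw [mem_stD]
  constructor
  · rintro ⟨hv, hvx⟩
    obtain ⟨u, h1, h2⟩ := exists_covBy_le_of_lt hvx
    have h3 := (H.covBy_iff.1 h1).2
    have h4 : u ≠ x := by
      rintro rfl
      omega
    exact ⟨u, mem_dc.2 (H.covBy_iff.2 ⟨lt_of_le_of_ne h2 h4, by omega⟩), mem_dc.2 h1⟩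
  · rintro ⟨w, h1, h2⟩
    have h3 := H.covBy_iff.1 (mem_dc.1 h1)
    have h4 := H.covBy_iff.1 (mem_dc.1 h2)
    exact ⟨by omega, h4.1.trans h3.1⟩

/-- If `e z > 0` and the upper cover `y` of `z` has label `0` then `y` has `FD` (by `z`) and `GU` (it has
an upper cover, `uc_nonempty`), against admissibility (`lev y = lev z - 1 > i`). -/
theorem pos_up (H : Gr P r) {i : ℕ} {e : P → ℕ} (hA : AdmL i e) {z y : P} (hz : i + 2 ≤ lev z)
    (he : 0 < e z) (hzy : z ⋖ y) : 0 < e y := by
  by_contra hcon
  have h0 : e y = 0 := by omega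
  have h1 := (H.covBy_iff.1 hzy).2
  obtain ⟨t, ht⟩ := uc_nonempty H (x := y) (by omega)
  exact hA y (by omega) ⟨⟨z, hzy, by omega⟩, ⟨t, mem_uc.1 ht, by omega⟩⟩

/-- mirror image of `pos_up` (`dc_nonempty`, `lev y < i ≤ r`) -/
theorem pos_dn (H : Gr P r) {i : ℕ} (hi : i ≤ r) {e : P → ℕ} (hA : AdmU i e) {x y : P}
    (hx : lev x + 2 ≤ i) (he : 0 < e x) (hyx : y ⋖ x) : 0 < e y := by
  by_contra hcon
  have h0 : e y = 0 := by omega
  have h1 := (H.covBy_iff.1 hyx).2
  obtain ⟨t, ht⟩ := dc_nonempty H (x := y) (by omega)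
  exact hA y (by omega) ⟨⟨x, hyx, by omega⟩, ⟨t, mem_dc.1 ht, by omega⟩⟩

/-- If no lower near element is touched then all far lower labels are zero: a far lower element with
positive label and `pos_up` (go up by covers to level `i + 2`) give a touched near element. -/
theorem far_zero_of_TL (H : Gr P r) {i : ℕ} {e : P → ℕ} (hA : AdmL i e) (hT : TL i e = ∅)
    {z : P} (hz : i + 2 ≤ lev z) : e z = 0 := by
  classical
  have key : ∀ n : ℕ, ∀ z : P, lev z = i + 2 + n → 0 < e z → False := by
    intro n
    induction n with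
    | zero =>
      intro z h1 h2
      obtain ⟨w, hw⟩ := uc_nonempty H (x := z) (by omega)
      have h3 := lev_uc H hw
      have h4 : w ∈ TL i e := by
        unfold TL
        rw [Finset.mem_filter]
        exact ⟨mem_univ _, by omega, z, mem_uc.1 hw, h2⟩
      rw [hT] at h4
      exact absurd h4 (Finset.notMem_empty _)
    | succ n ih =>
      intro z h1 h2
      obtain ⟨w, hw⟩ := uc_nonempty H (x := z) (by omega)
      have h3 := lev_uc H hw
      exact ih w (by omega) (pos_up H hA (by omega) h2 (mem_uc.1 hw))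
  by_contra hne
  exact key (lev z - (i + 2)) z (by omega) (Nat.pos_of_ne_zero hne)

/-- mirror image of `far_zero_of_TL` -/
theorem far_zero_of_TU (H : Gr P r) {i : ℕ} (hi : i ≤ r) {e : P → ℕ} (hA : AdmU i e)
    (hT : TU i e = ∅) {z : P} (hz : lev z + 2 ≤ i) : e z = 0 := by
  classical
  have key : ∀ n : ℕ, ∀ z : P, lev z + 2 + n = i → 0 < e z → False := by
    intro n
    induction n with
    | zero =>
      intro z h1 h2
      obtain ⟨w, hw⟩ := dc_nonempty H (x := z) (by omega)
      have h3 := lev_dc H hw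
      have h4 : w ∈ TU i e := by
        unfold TU
        rw [Finset.mem_filter]
        exact ⟨mem_univ _, by omega, z, mem_dc.1 hw, h2⟩
      rw [hT] at h4
      exact absurd h4 (Finset.notMem_empty _)
    | succ n ih =>
      intro z h1 h2
      obtain ⟨w, hw⟩ := dc_nonempty H (x := z) (by omega)
      have h3 := lev_dc H hw
      exact ih w (by omega) (pos_dn H hi hA (by omega) h2 (mem_dc.1 hw))
  by_contra hne
  exact key (i - (lev z + 2)) z (by omega) (Nat.pos_of_ne_zero hne)

end Pool.Agent.GaussPoset.Win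

end

/-! From `Pool.Agent.W_448win_h16.NormC` -/

section

/-! Forced elements, level by level. -/

namespace Pool.Agent.GaussPoset.Win

set_option linter.unusedSectionVars false

open Finset

universe u

variable {P : Type u} [Fintype P] [PartialOrder P] [DecidableEq P] {r : ℕ}

/-- On level `≥ i` the function `rho` is `e`, and lower covers have level one more
(`H.covBy_iff`). -/
theorem FIc_low (H : Gr P r) {i : ℕ} {e : P → ℕ} {x : P} (hx : i ≤ lev x) :
    FIc i e x ↔ FD e x := by
  unfold FIc FD rho
  constructor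
  · rintro (h | ⟨z, hz, h⟩)
    · omega
    · have h1 := (H.covBy_iff.mp hz).2
      exact ⟨z, hz, by omega⟩
  · rintro ⟨z, hz, h⟩
    have h1 := (H.covBy_iff.mp hz).2
    exact Or.inr ⟨z, hz, by omega⟩

/-- On level `> i` upper covers have level `≥ i`. -/
theorem FAc_low (H : Gr P r) {i : ℕ} {e : P → ℕ} {x : P} (hx : i < lev x) :
    FAc i e x ↔ GU e x := by
  unfold FAc GU rho
  constructor
  · rintro ⟨y, hy, h⟩
    have h1 := (H.covBy_iff.mp hy).2
    exact ⟨y, hy, by omega⟩
  · rintro ⟨y, hy, h⟩
    have h1 := (H.covBy_iff.mp hy).2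
    exact ⟨y, hy, by omega⟩

/-- On level `≤ i` an upper cover `y` of `x` has `i - lev y = i - lev x + 1`, so
`rho x ≤ rho y` means `e x < e y`. -/
theorem FAc_up (H : Gr P r) {i : ℕ} {e : P → ℕ} {x : P} (hx : lev x ≤ i) :
    FAc i e x ↔ FU e x := by
  unfold FAc FU rho
  constructor
  · rintro ⟨y, hy, h⟩
    have h1 := (H.covBy_iff.mp hy).2
    exact ⟨y, hy, by omega⟩
  · rintro ⟨y, hy, h⟩
    have h1 := (H.covBy_iff.mp hy).2
    exact ⟨y, hy, by omega⟩

/-- On level `< i` a lower cover `z` has `i - lev z = i - lev x - 1`, so `rho x < rho z` means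
`e x ≤ e z`. -/
theorem FIc_up (H : Gr P r) {i : ℕ} {e : P → ℕ} {x : P} (hx : lev x < i) :
    FIc i e x ↔ (e x < i - lev x ∨ GD e x) := by
  unfold FIc GD rho
  constructor
  · rintro (h | ⟨z, hz, h⟩)
    · exact Or.inl (by omega)
    · have h1 := (H.covBy_iff.mp hz).2
      exact Or.inr ⟨z, hz, by omega⟩
  · rintro (h | ⟨z, hz, h⟩)
    · exact Or.inl (by omega)
    · have h1 := (H.covBy_iff.mp hz).2
      exact Or.inr ⟨z, hz, by omega⟩

/-- If the upper part is admissible and `u` is an upper element all of whose lower covers have a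
smaller label then `e u ≥ i - lev u`. Induction on `i - lev u`: take a lower cover `z` (exists,
`lev u < i ≤ r`, `H.exists_below` and `H.covBy_iff`); `e z < e u`, so `FU e z`; if `lev z = i`
then `e u ≥ 1`; otherwise `¬ GD e z` by admissibility and by induction `e z ≥ i - lev z`. -/
theorem big_of_not_GD (H : Gr P r) {i : ℕ} (hi : i ≤ r) {e : P → ℕ} (hA : AdmU i e) {u : P}
    (hu : lev u < i) (h : ¬ GD e u) : i - lev u ≤ e u := by
  have key : ∀ (n : ℕ) (u : P), i - lev u = n + 1 → ¬ GD e u → n + 1 ≤ e u := by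
    intro n
    induction n with
    | zero =>
      intro u hn hg
      obtain ⟨z, hz, hz2⟩ := H.exists_below (x := u) (j := lev u + 1) (by omega) (by omega)
      have hlt : z < u := lt_of_le_of_ne hz (by rintro rfl; omega)
      have hc : z ⋖ u := H.covBy_iff.mpr ⟨hlt, hz2⟩
      have h1 : ¬ e u ≤ e z := fun h2 => hg ⟨z, hc, h2⟩
      omega
    | succ n ih =>
      intro u hn hg
      obtain ⟨z, hz, hz2⟩ := H.exists_below (x := u) (j := lev u + 1) (by omega) (by omega)
      have hlt : z < u := lt_of_le_of_ne hz (by rintro rfl; omega)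
      have hc : z ⋖ u := H.covBy_iff.mpr ⟨hlt, hz2⟩
      have h1 : ¬ e u ≤ e z := fun h2 => hg ⟨z, hc, h2⟩
      have h2 : FU e z := ⟨u, hc, by omega⟩
      have h3 : ¬ GD e z := fun h4 => hA z (by omega) ⟨h2, h4⟩
      have h4 := ih z (by omega) h3
      omega
  obtain ⟨n, hn⟩ : ∃ n, i - lev u = n + 1 := ⟨i - lev u - 1, by omega⟩
  rw [hn]
  exact key n u hn h

end Pool.Agent.GaussPoset.Win

end

/-! From `Pool.Agent.W_448win_h16.NormD` -/

section

/-! Admissibility and counting. -/

namespace Pool.Agent.GaussPoset.Win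

set_option linter.unusedSectionVars false

open Finset

universe u

variable {P : Type u} [Fintype P] [PartialOrder P] [DecidableEq P] {r : ℕ}

theorem NormD_mem_AL (i : ℕ) (e : P → ℕ) (x : P) : x ∈ AL i e ↔ lev x = i ∧ FD e x := by
  classical
  unfold AL
  rw [Finset.mem_filter, mem_lv]

theorem NormD_mem_AU (i : ℕ) (e : P → ℕ) (x : P) : x ∈ AU i e ↔ lev x = i ∧ FU e x := by
  classical
  unfold AU
  rw [Finset.mem_filter, mem_lv]

theorem NormD_AL (i : ℕ) (e : P → ℕ) [DecidablePred fun z : P => lev z = i ∧ FD e z] :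
    (AL i e).card = (univ.filter (fun z : P => lev z = i ∧ FD e z)).card := by
  congr 1
  ext x
  rw [NormD_mem_AL, Finset.mem_filter]
  simp

theorem NormD_AU (i : ℕ) (e : P → ℕ) [DecidablePred fun z : P => lev z = i ∧ FU e z] :
    (AU i e).card = (univ.filter (fun z : P => lev z = i ∧ FU e z)).card := by
  congr 1
  ext x
  rw [NormD_mem_AU, Finset.mem_filter]
  simp

theorem NormD_FIc_up (H : Gr P r) {i : ℕ} (hi : i ≤ r) {e : P → ℕ} (hA : AdmU i e) {x : P}
    (hx : lev x < i) : FIc i e x ↔ GD e x := by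
  rw [FIc_up H hx]
  constructor
  · rintro (h | h)
    · by_contra hG
      have := big_of_not_GD H hi hA hx hG
      omega
    · exact h
  · exact fun h => Or.inr h

/-- Admissibility splits. Sites: `FIc` is `FD`, `FAc` is `FU` (`FIc_low`, `FAc_up`); lower elements:
`FIc_low`, `FAc_low`; upper elements: `FAc_up`, `FIc_up`, `big_of_not_GD`. -/
theorem adm_split (H : Gr P r) {i : ℕ} (hi : i ≤ r) (e : P → ℕ) :
    (∀ x, ¬ (FIc i e x ∧ FAc i e x)) ↔ AdmL i e ∧ AdmU i e ∧ Disjoint (AL i e) (AU i e) := by
  constructor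
  · intro h
    refine ⟨?_, ?_, ?_⟩
    · rintro z hz ⟨h1, h2⟩
      exact h z ⟨(FIc_low H hz.le).2 h1, (FAc_low H hz).2 h2⟩
    · rintro u hu ⟨h1, h2⟩
      exact h u ⟨(FIc_up H hu).2 (Or.inr h2), (FAc_up H hu.le).2 h1⟩
    · rw [Finset.disjoint_left]
      intro v hv hv'
      rw [NormD_mem_AL] at hv
      rw [NormD_mem_AU] at hv'
      exact h v ⟨(FIc_low H hv.1.ge).2 hv.2, (FAc_up H hv.1.le).2 hv'.2⟩
  · rintro ⟨hL, hU, hd⟩ x ⟨h1, h2⟩
    rcases Nat.lt_trichotomy (lev x) i with hx | hx | hx
    · have h3 := (FAc_up H hx.le).1 h2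
      have h4 : ¬ GD e x := fun h => hU x hx ⟨h3, h⟩
      rcases (FIc_up H hx).1 h1 with h5 | h5
      · have := big_of_not_GD H hi hU hx h4
        omega
      · exact h4 h5
    · have h3 := (FAc_up H hx.le).1 h2
      have h4 := (FIc_low H hx.ge).1 h1
      rw [Finset.disjoint_left] at hd
      refine hd (a := x) ?_ ?_
      · rw [NormD_mem_AL]
        exact ⟨hx, h4⟩
      · rw [NormD_mem_AU]
        exact ⟨hx, h3⟩
    · exact hL x hx ⟨(FIc_low H hx.le).1 h1, (FAc_low H hx).1 h2⟩

open Classical in
/-- The number of `FIc` elements: lower `FD` elements (`aL`), sites in `AL`, and upper elements with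
`GD` (under admissibility `FIc` is `GD` there, by `big_of_not_GD`); the upper elements split into
`FU`, `GD`, and neither. -/
theorem card_FIc (H : Gr P r) {i : ℕ} (hi : i ≤ r) {e : P → ℕ}
    (h : AdmL i e ∧ AdmU i e ∧ Disjoint (AL i e) (AU i e)) :
    (univ.filter (fun x => FIc i e x)).card + aU i e + pU i e =
      aL i e + (AL i e).card + below P i := by
  obtain ⟨hL, hU, hd⟩ := h
  have hAL := NormD_AL (P := P) i e
  have hmain : (univ.filter (fun x => FIc i e x)).card +
      (univ.filter (fun z : P => lev z < i ∧ FU e z)).card +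
      (univ.filter (fun z : P => lev z < i ∧ ¬ FU e z ∧ ¬ GD e z)).card =
      (univ.filter (fun z : P => i < lev z ∧ FD e z)).card +
      (univ.filter (fun z : P => lev z = i ∧ FD e z)).card +
      (univ.filter (fun z : P => lev z < i)).card := by
    rw [Finset.card_filter, Finset.card_filter, Finset.card_filter, Finset.card_filter,
      Finset.card_filter, Finset.card_filter, ← Finset.sum_add_distrib,
      ← Finset.sum_add_distrib, ← Finset.sum_add_distrib, ← Finset.sum_add_distrib]
    refine Finset.sum_congr rfl fun x _ => ?_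
    rcases Nat.lt_trichotomy (lev x) i with hx | hx | hx
    · have hF : FIc i e x ↔ GD e x := NormD_FIc_up H hi hU hx
      have h1 : ¬ (i < lev x) := by omega
      have h2 : ¬ (lev x = i) := by omega
      have h3 := hU x hx
      by_cases hG : GD e x
      · have h4 : ¬ FU e x := fun h => h3 ⟨h, hG⟩
        simp [hF, hx, h1, h2, hG, h4]
      · by_cases hU' : FU e x
        · simp [hF, hx, h1, h2, hG, hU']
        · simp [hF, hx, h1, h2, hG, hU']
    · have hF : FIc i e x ↔ FD e x := FIc_low H hx.ge
      have h1 : ¬ (i < lev x) := by omega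
      have h2 : ¬ (lev x < i) := by omega
      simp [hF, hx]
    · have hF : FIc i e x ↔ FD e x := FIc_low H hx.le
      have h1 : ¬ (lev x = i) := by omega
      have h2 : ¬ (lev x < i) := by omega
      simp [hF, hx, h1, h2]
  have e1 : aU i e = (univ.filter (fun z : P => lev z < i ∧ FU e z)).card := by
    unfold aU
    congr
  have e2 : pU i e = (univ.filter (fun z : P => lev z < i ∧ ¬ FU e z ∧ ¬ GD e z)).card := by
    unfold pU
    congr
  have e3 : aL i e = (univ.filter (fun z : P => i < lev z ∧ FD e z)).card := by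
    unfold aL
    congr
  have e4 : below P i = (univ.filter (fun z : P => lev z < i)).card := by
    unfold below
    congr
  rw [e1, e2, e3, e4, hAL]
  exact hmain

open Classical in
/-- The number of free elements: `pL` lower ones, `pU` upper ones, and the sites outside
`AL ∪ AU`. -/
theorem card_free (H : Gr P r) {i : ℕ} (hi : i ≤ r) {e : P → ℕ}
    (h : AdmL i e ∧ AdmU i e ∧ Disjoint (AL i e) (AU i e)) :
    (univ.filter (fun x => ¬ FIc i e x ∧ ¬ FAc i e x)).card =
      pL i e + pU i e + ((lv P i).card - (AL i e).card - (AU i e).card) := by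
  obtain ⟨hL, hU, hd⟩ := h
  have hAL := NormD_AL (P := P) i e
  have hAU := NormD_AU (P := P) i e
  have hmain : (univ.filter (fun x => ¬ FIc i e x ∧ ¬ FAc i e x)).card +
      (univ.filter (fun z : P => lev z = i ∧ FD e z)).card +
      (univ.filter (fun z : P => lev z = i ∧ FU e z)).card =
      (univ.filter (fun z : P => i < lev z ∧ ¬ FD e z ∧ ¬ GU e z)).card +
      (univ.filter (fun z : P => lev z < i ∧ ¬ FU e z ∧ ¬ GD e z)).card +
      (univ.filter (fun z : P => lev z = i)).card := by
    rw [Finset.card_filter, Finset.card_filter, Finset.card_filter, Finset.card_filter,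
      Finset.card_filter, Finset.card_filter, ← Finset.sum_add_distrib,
      ← Finset.sum_add_distrib, ← Finset.sum_add_distrib, ← Finset.sum_add_distrib]
    refine Finset.sum_congr rfl fun x _ => ?_
    rcases Nat.lt_trichotomy (lev x) i with hx | hx | hx
    · have hF : FIc i e x ↔ GD e x := NormD_FIc_up H hi hU hx
      have hF2 : FAc i e x ↔ FU e x := FAc_up H hx.le
      have h1 : ¬ (i < lev x) := by omega
      have h2 : ¬ (lev x = i) := by omega
      by_cases hG : GD e x
      · by_cases hU' : FU e x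
        · simp [hF, hF2, hx, h1, h2, hG, hU']
        · simp [hF, hF2, hx, h1, h2, hG, hU']
      · by_cases hU' : FU e x
        · simp [hF, hF2, hx, h1, h2, hG, hU']
        · simp [hF, hF2, hx, h1, h2, hG, hU']
    · have hF : FIc i e x ↔ FD e x := FIc_low H hx.ge
      have hF2 : FAc i e x ↔ FU e x := FAc_up H hx.le
      by_cases hG : FD e x
      · by_cases hU' : FU e x
        · exfalso
          rw [Finset.disjoint_left] at hd
          refine hd (a := x) ?_ ?_
          · rw [NormD_mem_AL]
            exact ⟨hx, hG⟩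
          · rw [NormD_mem_AU]
            exact ⟨hx, hU'⟩
        · simp [hF, hF2, hx, hG, hU']
      · by_cases hU' : FU e x
        · simp [hF, hF2, hx, hG, hU']
        · simp [hF, hF2, hx, hG, hU']
    · have hF : FIc i e x ↔ FD e x := FIc_low H hx.le
      have hF2 : FAc i e x ↔ GU e x := FAc_low H hx
      have h1 : ¬ (lev x = i) := by omega
      have h2 : ¬ (lev x < i) := by omega
      by_cases hG : FD e x
      · by_cases hU' : GU e x
        · simp [hF, hF2, hx, h1, h2, hG, hU']
        · simp [hF, hF2, hx, h1, h2, hG, hU']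
      · by_cases hU' : GU e x
        · simp [hF, hF2, hx, h1, h2, hG, hU']
        · simp [hF, hF2, hx, h1, h2, hG, hU']
  have e1 : pL i e = (univ.filter (fun z : P => i < lev z ∧ ¬ FD e z ∧ ¬ GU e z)).card := by
    unfold pL
    congr
  have e2 : pU i e = (univ.filter (fun z : P => lev z < i ∧ ¬ FU e z ∧ ¬ GD e z)).card := by
    unfold pU
    congr
  have e3 : (lv P i).card = (univ.filter (fun z : P => lev z = i)).card := by
    unfold lv
    congr
  have hle : (AL i e).card + (AU i e).card ≤ (lv P i).card := by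
    rw [← Finset.card_union_of_disjoint hd]
    refine Finset.card_le_card (Finset.union_subset ?_ ?_)
    · unfold AL
      exact Finset.filter_subset _ _
    · unfold AU
      exact Finset.filter_subset _ _
  rw [← e1, ← e2, ← e3, ← hAL, ← hAU] at hmain
  omega

end Pool.Agent.GaussPoset.Win

end

/-! From `Pool.Agent.W_448win_h16.NormE` -/

section

/-! Normal form of the window polynomial. -/

namespace Pool.Agent.GaussPoset.Win

set_option linter.unusedSectionVars false

open Finset

universe u

variable {P : Type u} [Fintype P] [PartialOrder P] [DecidableEq P] {r : ℕ}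

open Classical in
/-- Normal form of one configuration: combine `sum_vd`, `sum_vd_cov`, `adm_split`, `card_FIc`,
`card_free`, `ev_X`, `ev_one_add` and `xx * xi = 1` (multiply by `xi ^ below`: the number of
`FIc` elements is `aL + |AL| + below - aU - pU`). -/
theorem ev_term (H : Gr P r) {i : ℕ} (hi : i ≤ r) (e : P → ℕ) :
    ev (if Adm i e then Polynomial.X ^ (nf i e) * (1 + Polynomial.X) ^ (Pk i e).card else 0) *
      xi ^ (below P i) = trm i e := by
  rw [← sum_vd, sum_vd_cov]
  by_cases h : ∀ x, ¬ (FIc i e x ∧ FAc i e x)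
  · have h' := (adm_split H hi e).1 h
    have h1 := card_FIc H hi h'
    have h2 := card_free H hi h'
    rw [if_pos h, h2, map_mul, map_pow, map_pow, ev_X, ev_one_add]
    unfold trm
    rw [if_pos h'.2.2]
    unfold cw
    rw [if_pos ⟨h'.1, h'.2.1⟩]
    set N := (univ.filter (fun x => FIc i e x)).card with hN
    have h3 : xx ^ N * xi ^ (below P i) =
        xx ^ (aL i e + (AL i e).card) * xi ^ (aU i e + pU i e) := by
      have h4 : ∀ m : ℕ, xx ^ m * xi ^ m = 1 := fun m => by
        rw [← mul_pow, xx_mul_xi, one_pow]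
      calc xx ^ N * xi ^ (below P i)
          = xx ^ N * xi ^ (below P i) * (xx ^ (aU i e + pU i e) * xi ^ (aU i e + pU i e)) := by
            rw [h4, mul_one]
        _ = xx ^ (N + aU i e + pU i e) * xi ^ (below P i) * xi ^ (aU i e + pU i e) := by
            ring
        _ = xx ^ (aL i e + (AL i e).card) * xi ^ (aU i e + pU i e) *
              (xx ^ (below P i) * xi ^ (below P i)) := by
            rw [h1]
            ring
        _ = _ := by rw [h4, mul_one]
    calc xx ^ N * dd ^ (pL i e + pU i e + ((lv P i).card - (AL i e).card - (AU i e).card)) *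
          xi ^ (below P i)
        = (xx ^ N * xi ^ (below P i)) * dd ^ (pL i e + pU i e) *
            dd ^ ((lv P i).card - (AL i e).card - (AU i e).card) := by
          rw [pow_add dd (pL i e + pU i e)]
          ring
      _ = _ := by
          rw [h3, pow_add xx]
          ring
  · rw [if_neg h, map_zero, zero_mul]
    unfold trm
    by_cases hd : Disjoint (AL i e) (AU i e)
    · rw [if_pos hd]
      unfold cw
      rw [if_neg, zero_mul]
      rintro ⟨h1, h2⟩
      exact h ((adm_split H hi e).2 ⟨h1, h2, hd⟩)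
    · rw [if_neg hd]

/-- The window divisibility in normal form: `dvd_Z`, mapped by `ev`, multiplied by
`xi ^ below`, and `ev_term` for every summand. -/
theorem dvd_sum_trm (H : Gr P r) {i : ℕ} (hi : i ≤ r) (n : ℕ) :
    dd ^ (lv P i).card ∣ ∑ e ∈ (univ : Finset P).piAntidiag n, trm i e := by
  have h1 := map_dvd ev (dvd_Z H.gauss i n)
  rw [map_pow, ev_one_add] at h1
  have h2 := Dvd.dvd.mul_right h1 (xi ^ below P i)
  unfold Z at h2
  rw [map_sum, Finset.sum_mul] at h2
  rwa [Finset.sum_congr rfl fun e _ => ev_term H hi e] at h2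

/-- Weighted sum of `chi B C` over the subsets of the window. If `B` and `C` meet both sides are
`0`. Otherwise the sets `S` are `B ∪ S'` with `S'` a subset of the rest of the window:
`xx ^ |B| * (1 + xx) ^ (|V| - |B| - |C|)` (`Finset.sum_pow_mul_eq_add_pow`). -/
theorem II_chi {i : ℕ} {B C : Finset P} (hB : B ⊆ lv P i) (hC : C ⊆ lv P i) :
    II i (chi B C) = if Disjoint B C then xx ^ B.card * dd ^ ((lv P i).card - B.card - C.card)
      else 0 := by
  unfold II chi
  split_ifs with hd
  · have h1 : ∑ S ∈ (lv P i).powerset, xx ^ S.card * (if B ⊆ S ∧ Disjoint C S then (1 : A) else 0) =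
        ∑ S ∈ (lv P i).powerset.filter (fun S => B ⊆ S ∧ Disjoint C S), xx ^ S.card := by
      rw [Finset.sum_filter]
      refine Finset.sum_congr rfl fun S _ => ?_
      split_ifs <;> simp
    have h2 : ∑ S ∈ (lv P i).powerset.filter (fun S => B ⊆ S ∧ Disjoint C S), xx ^ S.card =
        ∑ T ∈ ((lv P i \ B) \ C).powerset, xx ^ (B ∪ T).card := by
      symm
      refine Finset.sum_nbij' (fun T => B ∪ T) (fun S => S \ B) ?_ ?_ ?_ ?_ ?_
      · intro T hT
        rw [mem_powerset] at hT
        rw [mem_filter, mem_powerset]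
        refine ⟨union_subset hB (hT.trans (sdiff_subset.trans sdiff_subset)),
          subset_union_left, ?_⟩
        rw [disjoint_union_right]
        refine ⟨hd.symm, ?_⟩
        exact (disjoint_of_subset_left hT sdiff_disjoint).symm
      · intro S hS
        rw [mem_filter, mem_powerset] at hS
        rw [mem_powerset]
        intro x hx
        rw [mem_sdiff] at hx
        rw [mem_sdiff, mem_sdiff]
        exact ⟨⟨hS.1 hx.1, hx.2⟩, fun h => (disjoint_left.1 hS.2.2 h) hx.1⟩
      · intro T hT
        rw [mem_powerset] at hT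
        have h3 : Disjoint B T := by
          rw [disjoint_left]
          intro x hx hxT
          have := hT hxT
          rw [mem_sdiff, mem_sdiff] at this
          exact this.1.2 hx
        exact h3.sup_sdiff_cancel_left
      · intro S hS
        rw [mem_filter, mem_powerset] at hS
        exact union_sdiff_of_subset hS.2.1
      · intro T _
        rfl
    have h3 : ∀ T ∈ ((lv P i \ B) \ C).powerset, xx ^ (B ∪ T).card = xx ^ B.card * xx ^ T.card := by
      intro T hT
      rw [mem_powerset] at hT
      rw [card_union_of_disjoint, pow_add]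
      rw [disjoint_left]
      intro x hx hxT
      have := hT hxT
      rw [mem_sdiff, mem_sdiff] at this
      exact this.1.2 hx
    have h4 : ((lv P i \ B) \ C).card = (lv P i).card - B.card - C.card := by
      rw [card_sdiff_of_subset, card_sdiff_of_subset hB]
      intro x hx
      rw [mem_sdiff]
      exact ⟨hC hx, fun h => (disjoint_left.1 hd h) hx⟩
    rw [h1, h2, Finset.sum_congr rfl h3, ← Finset.mul_sum, ← h4, ← one_add_xx, add_comm 1 xx,
      ← Finset.sum_pow_mul_eq_add_pow]
    simp
  · refine Finset.sum_eq_zero fun S _ => ?_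
    rw [if_neg, mul_zero]
    rintro ⟨h1, h2⟩
    exact hd (disjoint_of_subset_left h1 h2.symm)

/-- `II_chi` with the constant factor `cw`. -/
theorem II_Fe (i : ℕ) (e : P → ℕ) : II i (Fe i e) = trm i e := by
  have h1 : II i (Fe i e) = cw i e * II i (chi (AL i e) (AU i e)) := by
    unfold II Fe
    rw [Finset.mul_sum]
    refine Finset.sum_congr rfl fun S _ => ?_
    ring
  classical
  have h2 : AL i e ⊆ lv P i := fun x hx => by
    unfold AL at hx
    exact (mem_filter.1 hx).1
  have h3 : AU i e ⊆ lv P i := fun x hx => by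
    unfold AU at hx
    exact (mem_filter.1 hx).1
  rw [h1, II_chi h2 h3]
  unfold trm
  split_ifs
  · rfl
  · rw [mul_zero]

end Pool.Agent.GaussPoset.Win

end

/-! From `Pool.Agent.W_448win_h16.LowC` -/

section

/-! Parts with at most one positive near label. -/

namespace Pool.Agent.GaussPoset.Win

set_option linter.unusedSectionVars false

open Finset

universe u

variable {P : Type u} [Fintype P] [PartialOrder P] [DecidableEq P] {r : ℕ}

/-- If all lower labels are zero the lower part is trivial (every lower element has `GU`,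
no lower cover has positive label). -/
theorem low_none (H : Gr P r) {i : ℕ} {e : P → ℕ} (h : ∀ z, i < lev z → e z = 0) :
    AdmL i e ∧ AL i e = ∅ ∧ aL i e = 0 ∧ pL i e = 0 := by
  classical
  have hFD : ∀ z : P, i ≤ lev z → ¬ FD e z := by
    rintro z hz ⟨z', h1, h2⟩
    have h3 := (H.covBy_iff.1 h1).2
    rw [h z' (by omega)] at h2
    omega
  have hGU : ∀ z : P, i < lev z → GU e z := by
    intro z hz
    obtain ⟨y, hy⟩ := uc_nonempty H (x := z) (by omega)
    refine ⟨y, mem_uc.1 hy, ?_⟩
    rw [h z hz]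
    exact Nat.zero_le _
  refine ⟨fun z hz h1 => hFD z hz.le h1.1, ?_, ?_, ?_⟩
  · unfold AL
    rw [Finset.filter_eq_empty_iff]
    intro v hv
    rw [mem_lv] at hv
    exact hFD v (by omega)
  · unfold aL
    rw [Finset.card_eq_zero, Finset.filter_eq_empty_iff]
    rintro z _ ⟨h1, h2⟩
    exact hFD z h1.le h2
  · unfold pL
    rw [Finset.card_eq_zero, Finset.filter_eq_empty_iff]
    rintro z _ ⟨h1, h2, h3⟩
    exact h3 (hGU z h1)

/-- mirror image of `low_none` -/
theorem upp_none (H : Gr P r) {i : ℕ} (hi : i ≤ r) {e : P → ℕ} (h : ∀ z, lev z < i → e z = 0) :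
    AdmU i e ∧ AU i e = ∅ ∧ aU i e = 0 ∧ pU i e = 0 := by
  classical
  have hFU : ∀ z : P, lev z ≤ i → ¬ FU e z := by
    rintro z hz ⟨y, h1, h2⟩
    have h3 := (H.covBy_iff.1 h1).2
    rw [h y (by omega)] at h2
    omega
  have hGD : ∀ z : P, lev z < i → GD e z := by
    intro z hz
    obtain ⟨y, hy⟩ := dc_nonempty H (x := z) (by omega)
    refine ⟨y, mem_dc.1 hy, ?_⟩
    rw [h z hz]
    exact Nat.zero_le _
  refine ⟨fun z hz h1 => hFU z hz.le h1.1, ?_, ?_, ?_⟩
  · unfold AU
    rw [Finset.filter_eq_empty_iff]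
    intro v hv
    rw [mem_lv] at hv
    exact hFU v (by omega)
  · unfold aU
    rw [Finset.card_eq_zero, Finset.filter_eq_empty_iff]
    rintro z _ ⟨h1, h2⟩
    exact hFU z h1.le h2
  · unfold pU
    rw [Finset.card_eq_zero, Finset.filter_eq_empty_iff]
    rintro z _ ⟨h1, h2, h3⟩
    exact h3 (hGD z h1)

/-- Only the near element `w` has a positive label on level `i + 1`. The sites with `FD` are the
sites `v` above `w` with `e v < e w` (lower covers of sites have level `i + 1`). If all sites above
`w` have a smaller label then there is a free lower element: take a lower element `y` with `e y`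
maximal and, among these, `lev y` minimal. `e y ≥ e w > 0`. `FD e y` fails by maximality. If
`GU e y`, say `y ⋖ t` with `e y ≤ e t`: if `t` is a lower element then `e t` is maximal as well and
`lev t < lev y`, contradiction; if `t` is a site then `lev y = i + 1`, so `y = w` (positive label),
and `e w ≤ e t` contradicts the hypothesis. -/
theorem low_one (H : Gr P r) {i : ℕ} {e : P → ℕ} {w : P} (hw : lev w = i + 1)
    (h1 : ∀ w', lev w' = i + 1 → w' ≠ w → e w' = 0) :
    AL i e = (uc w).filter (fun v => e v < e w) ∧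
      ((∀ v ∈ uc w, e v < e w) → 1 ≤ pL i e) := by
  classical
  constructor
  · ext v
    unfold AL
    rw [Finset.mem_filter, Finset.mem_filter, mem_lv, mem_uc]
    constructor
    · rintro ⟨hv, z', hz', he⟩
      have h2 := (H.covBy_iff.1 hz').2
      have h3 : z' = w := by
        by_contra hne
        rw [h1 z' (by omega) hne] at he
        omega
      rw [← h3]
      exact ⟨hz', he⟩
    · rintro ⟨hv, he⟩
      have h2 := (H.covBy_iff.1 hv).2
      exact ⟨by omega, w, hv, he⟩
  · intro hall
    obtain ⟨v0, hv0⟩ := uc_nonempty H (x := w) (by omega)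
    have hew : 0 < e w := lt_of_le_of_lt (Nat.zero_le _) (hall v0 hv0)
    obtain ⟨y0, hy0, hmax⟩ := Finset.exists_max_image (univ.filter (fun y : P => i < lev y)) e
      ⟨w, by rw [Finset.mem_filter]; exact ⟨mem_univ _, by omega⟩⟩
    obtain ⟨y1, hy1, hmin⟩ := Finset.exists_min_image
      (univ.filter (fun y : P => i < lev y ∧ e y = e y0)) (fun y => lev y)
      ⟨y0, by rw [Finset.mem_filter] at hy0 ⊢; exact ⟨mem_univ _, hy0.2, rfl⟩⟩
    rw [Finset.mem_filter] at hy1 hy0
    have hmax' : ∀ t : P, i < lev t → e t ≤ e y0 := fun t ht => hmax t (by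
      rw [Finset.mem_filter]; exact ⟨mem_univ _, ht⟩)
    have hmin' : ∀ t : P, i < lev t → e t = e y0 → lev y1 ≤ lev t := fun t ht h => hmin t (by
      rw [Finset.mem_filter]; exact ⟨mem_univ _, ht, h⟩)
    unfold pL
    rw [Nat.one_le_iff_ne_zero, ← Nat.pos_iff_ne_zero, Finset.card_pos]
    refine ⟨y1, ?_⟩
    rw [Finset.mem_filter]
    refine ⟨mem_univ _, hy1.2.1, ?_, ?_⟩
    · rintro ⟨z', hz', he⟩
      have h2 := (H.covBy_iff.1 hz').2
      have h3 := hmax' z' (by omega)
      have h4 := hy1.2.2
      omega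
    · rintro ⟨t, ht, he⟩
      have h2 := (H.covBy_iff.1 ht).2
      have h4 := hy1.2.2
      have h5 := hy1.2.1
      by_cases h6 : i < lev t
      · have h7 := hmax' t h6
        have h8 := hmin' t h6 (by omega)
        omega
      · have h9 := hmax' w (by omega)
        have h7 : y1 = w := by
          by_contra hne
          have h8 := h1 y1 (by omega) hne
          omega
        rw [h7] at ht he
        have h8 := hall t (mem_uc.2 ht)
        omega

/-- mirror image of `low_one` -/
theorem upp_one (H : Gr P r) {i : ℕ} (hi : i ≤ r) {e : P → ℕ} {u : P} (hu : lev u + 1 = i)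
    (h1 : ∀ u', lev u' + 1 = i → u' ≠ u → e u' = 0) :
    AU i e = (dc u).filter (fun v => e v < e u) ∧
      ((∀ v ∈ dc u, e v < e u) → 1 ≤ pU i e) := by
  classical
  constructor
  · ext v
    unfold AU
    rw [Finset.mem_filter, Finset.mem_filter, mem_lv, mem_dc]
    constructor
    · rintro ⟨hv, z', hz', he⟩
      have h2 := (H.covBy_iff.1 hz').2
      have h3 : z' = u := by
        by_contra hne
        rw [h1 z' (by omega) hne] at he
        omega
      rw [← h3]
      exact ⟨hz', he⟩
    · rintro ⟨hv, he⟩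
      have h2 := (H.covBy_iff.1 hv).2
      exact ⟨by omega, u, hv, he⟩
  · intro hall
    obtain ⟨v0, hv0⟩ := dc_nonempty H (x := u) (by omega)
    have heu : 0 < e u := lt_of_le_of_lt (Nat.zero_le _) (hall v0 hv0)
    obtain ⟨y0, hy0, hmax⟩ := Finset.exists_max_image (univ.filter (fun y : P => lev y < i)) e
      ⟨u, by rw [Finset.mem_filter]; exact ⟨mem_univ _, by omega⟩⟩
    obtain ⟨y1, hy1, hmin⟩ := Finset.exists_max_image
      (univ.filter (fun y : P => lev y < i ∧ e y = e y0)) (fun y => lev y)
      ⟨y0, by rw [Finset.mem_filter] at hy0 ⊢; exact ⟨mem_univ _, hy0.2, rfl⟩⟩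
    rw [Finset.mem_filter] at hy1 hy0
    have hmax' : ∀ t : P, lev t < i → e t ≤ e y0 := fun t ht => hmax t (by
      rw [Finset.mem_filter]; exact ⟨mem_univ _, ht⟩)
    have hmin' : ∀ t : P, lev t < i → e t = e y0 → lev t ≤ lev y1 := fun t ht h => hmin t (by
      rw [Finset.mem_filter]; exact ⟨mem_univ _, ht, h⟩)
    unfold pU
    rw [Nat.one_le_iff_ne_zero, ← Nat.pos_iff_ne_zero, Finset.card_pos]
    refine ⟨y1, ?_⟩
    rw [Finset.mem_filter]
    refine ⟨mem_univ _, hy1.2.1, ?_, ?_⟩
    · rintro ⟨t, ht, he⟩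
      have h2 := (H.covBy_iff.1 ht).2
      have h5 := hy1.2.1
      have h3 := hmax' t (by omega)
      have h4 := hy1.2.2
      omega
    · rintro ⟨t, ht, he⟩
      have h2 := (H.covBy_iff.1 ht).2
      have h4 := hy1.2.2
      have h5 := hy1.2.1
      by_cases h6 : lev t < i
      · have h7 := hmax' t h6
        have h8 := hmin' t h6 (by omega)
        omega
      · have h9 := hmax' u (by omega)
        have h7 : y1 = u := by
          by_contra hne
          have h8 := h1 y1 (by omega) hne
          omega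
        rw [h7] at ht he
        have h8 := hall t (mem_dc.2 ht)
        omega

end Pool.Agent.GaussPoset.Win

end

/-! From `Pool.Agent.W_448co_h5.PartA` -/

section

/-! Parts of a graded poset: additivity of the data of a configuration. Nothing is assumed about
the number of maximal elements. -/

namespace Pool.Agent.GaussPoset.Win

set_option linter.unusedSectionVars false

open Finset

universe u

variable {P : Type u} [Fintype P] [PartialOrder P] [DecidableEq P] {r : ℕ}

/-- closed upwards, and closed downwards at the levels smaller than `i` -/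
structure Part (i : ℕ) (C : Finset P) : Prop where
  up : ∀ {x y : P}, x ∈ C → x ⋖ y → y ∈ C
  dn : ∀ {x y : P}, y ∈ C → lev y < i → x ⋖ y → x ∈ C

/-- the configuration `e` is supported on `C` -/
def Spt (C : Finset P) (e : P → ℕ) : Prop := ∀ x, x ∉ C → e x = 0

/-- the sites of the part `C` -/
noncomputable def st (i : ℕ) (C : Finset P) : Finset P := C.filter (fun v => lev v = i)

/-- the term of a configuration supported on `C` -/
noncomputable def tC (i : ℕ) (C : Finset P) (e : P → ℕ) : A :=
  if Disjoint (AL i e) (AU i e) then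
    cw i e * (xx ^ (AL i e).card * dd ^ ((st i C).card - (AL i e).card - (AU i e).card))
  else 0

/-- the window sum of the part `C` -/
noncomputable def ZC (i : ℕ) (C : Finset P) (n : ℕ) : A :=
  ∑ e ∈ C.piAntidiag n, tC i C e

lemma mem_st {i : ℕ} {C : Finset P} {v : P} : v ∈ st i C ↔ v ∈ C ∧ lev v = i := by
  unfold st; rw [mem_filter]

lemma Part.union {i : ℕ} {C D : Finset P} (hC : Part i C) (hD : Part i D) : Part i (C ∪ D) where
  up := by
    intro x y hx hxy
    rcases mem_union.1 hx with h | h
    · exact mem_union_left _ (hC.up h hxy)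
    · exact mem_union_right _ (hD.up h hxy)
  dn := by
    intro x y hy hl hxy
    rcases mem_union.1 hy with h | h
    · exact mem_union_left _ (hC.dn h hl hxy)
    · exact mem_union_right _ (hD.dn h hl hxy)

section one

variable {i : ℕ} {C : Finset P} {e : P → ℕ}

lemma FD_mem (hC : Part i C) (he : Spt C e) {z : P} (h : FD e z) : z ∈ C := by
  obtain ⟨z', hz', hlt⟩ := h
  by_contra hz
  have : z' ∈ C := by
    by_contra h'
    rw [he z' h'] at hlt
    omega
  exact hz (hC.up this hz')

lemma FU_mem (H : Gr P r) (hC : Part i C) (he : Spt C e) {u : P} (hu : lev u ≤ i)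
    (h : FU e u) : u ∈ C := by
  obtain ⟨y, hy, hlt⟩ := h
  have hyC : y ∈ C := by
    by_contra h'
    rw [he y h'] at hlt
    omega
  have := lev_uc H (mem_uc.2 hy)
  exact hC.dn hyC (by omega) hy

lemma GU_out (H : Gr P r) (he : Spt C e) {z : P} (hz : z ∉ C) (h1 : 1 ≤ lev z) : GU e z := by
  obtain ⟨y, hy⟩ := uc_nonempty H h1
  exact ⟨y, mem_uc.1 hy, by rw [he z hz]; exact Nat.zero_le _⟩

lemma GD_out (H : Gr P r) (he : Spt C e) {u : P} (hu : u ∉ C) (h1 : lev u < r) : GD e u := by
  obtain ⟨z, hz⟩ := dc_nonempty H h1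
  exact ⟨z, mem_dc.1 hz, by rw [he u hu]; exact Nat.zero_le _⟩

lemma AL_sub (hC : Part i C) (he : Spt C e) : AL i e ⊆ st i C := by
  classical
  intro v hv
  rw [NormD_mem_AL] at hv
  exact mem_st.2 ⟨FD_mem hC he hv.2, hv.1⟩

lemma AU_sub (H : Gr P r) (hC : Part i C) (he : Spt C e) : AU i e ⊆ st i C := by
  classical
  intro v hv
  rw [NormD_mem_AU] at hv
  exact mem_st.2 ⟨FU_mem H hC he hv.1.le hv.2, hv.1⟩

end one

section two

variable {i : ℕ} {C D : Finset P} {e f : P → ℕ}

lemma Spt.add (he : Spt C e) (hf : Spt D f) : Spt (C ∪ D) (e + f) := by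
  intro x hx
  rw [mem_union, not_or] at hx
  rw [Pi.add_apply, he x hx.1, hf x hx.2]

lemma zero_right (hCD : Disjoint C D) (hf : Spt D f) {x : P} (hx : x ∈ C) : f x = 0 :=
  hf x (disjoint_left.1 hCD hx)

lemma FD_add_left (hD : Part i D) (hCD : Disjoint C D) (hf : Spt D f)
    {z : P} (hz : z ∈ C) : FD (e + f) z ↔ FD e z := by
  have h0 := zero_right hCD hf hz
  have h1 : ∀ z', z' ⋖ z → f z' = 0 := by
    intro z' hz'
    by_contra h
    have : z' ∈ D := by
      by_contra h'
      exact h (hf z' h')
    exact disjoint_left.1 hCD hz (hD.up this hz')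
  unfold FD
  constructor
  · rintro ⟨z', hz', hlt⟩
    refine ⟨z', hz', ?_⟩
    simpa [h0, h1 z' hz'] using hlt
  · rintro ⟨z', hz', hlt⟩
    refine ⟨z', hz', ?_⟩
    simpa [h0, h1 z' hz'] using hlt

lemma FD_add (hC : Part i C) (hD : Part i D) (hCD : Disjoint C D) (he : Spt C e) (hf : Spt D f)
    (z : P) : FD (e + f) z ↔ FD e z ∨ FD f z := by
  by_cases hz : z ∈ C
  · rw [FD_add_left hD hCD hf hz]
    refine ⟨Or.inl, fun h => h.elim id fun h => ?_⟩
    exact absurd (FD_mem hD hf h) (disjoint_left.1 hCD hz)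
  · by_cases hz2 : z ∈ D
    · rw [add_comm e f, FD_add_left hC hCD.symm he hz2]
      refine ⟨Or.inr, fun h => h.elim (fun h => ?_) id⟩
      exact absurd (FD_mem hC he h) hz
    · constructor
      · intro h
        have := FD_mem (hC.union hD) (he.add hf) h
        rw [mem_union] at this
        exact absurd this (not_or.2 ⟨hz, hz2⟩)
      · rintro (h | h)
        · exact absurd (FD_mem hC he h) hz
        · exact absurd (FD_mem hD hf h) hz2

lemma GU_add_left (hC : Part i C) (hCD : Disjoint C D) (hf : Spt D f)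
    {z : P} (hz : z ∈ C) : GU (e + f) z ↔ GU e z := by
  have h0 := zero_right hCD hf hz
  have h1 : ∀ y, z ⋖ y → f y = 0 := fun y hy => zero_right hCD hf (hC.up hz hy)
  unfold GU
  constructor
  · rintro ⟨y, hy, hlt⟩
    refine ⟨y, hy, ?_⟩
    simpa [h0, h1 y hy] using hlt
  · rintro ⟨y, hy, hlt⟩
    refine ⟨y, hy, ?_⟩
    simpa [h0, h1 y hy] using hlt

lemma FU_add_left (hC : Part i C) (hCD : Disjoint C D) (hf : Spt D f)
    {z : P} (hz : z ∈ C) : FU (e + f) z ↔ FU e z := by
  have h0 := zero_right hCD hf hz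
  have h1 : ∀ y, z ⋖ y → f y = 0 := fun y hy => zero_right hCD hf (hC.up hz hy)
  unfold FU
  constructor
  · rintro ⟨y, hy, hlt⟩
    refine ⟨y, hy, ?_⟩
    simpa [h0, h1 y hy] using hlt
  · rintro ⟨y, hy, hlt⟩
    refine ⟨y, hy, ?_⟩
    simpa [h0, h1 y hy] using hlt

lemma FU_add (H : Gr P r) (hC : Part i C) (hD : Part i D) (hCD : Disjoint C D) (he : Spt C e)
    (hf : Spt D f) {u : P} (hu : lev u ≤ i) : FU (e + f) u ↔ FU e u ∨ FU f u := by
  by_cases hz : u ∈ C
  · rw [FU_add_left hC hCD hf hz]
    refine ⟨Or.inl, fun h => h.elim id fun h => ?_⟩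
    exact absurd (FU_mem H hD hf hu h) (disjoint_left.1 hCD hz)
  · by_cases hz2 : u ∈ D
    · rw [add_comm e f, FU_add_left hD hCD.symm he hz2]
      refine ⟨Or.inr, fun h => h.elim (fun h => ?_) id⟩
      exact absurd (FU_mem H hC he hu h) hz
    · constructor
      · intro h
        have := FU_mem H (hC.union hD) (he.add hf) hu h
        rw [mem_union] at this
        exact absurd this (not_or.2 ⟨hz, hz2⟩)
      · rintro (h | h)
        · exact absurd (FU_mem H hC he hu h) hz
        · exact absurd (FU_mem H hD hf hu h) hz2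

lemma GD_add_left (hC : Part i C) (hCD : Disjoint C D) (hf : Spt D f)
    {u : P} (hu : u ∈ C) (hl : lev u < i) : GD (e + f) u ↔ GD e u := by
  have h0 := zero_right hCD hf hu
  have h1 : ∀ z, z ⋖ u → f z = 0 := fun z hz => zero_right hCD hf (hC.dn hu hl hz)
  unfold GD
  constructor
  · rintro ⟨y, hy, hlt⟩
    refine ⟨y, hy, ?_⟩
    simpa [h0, h1 y hy] using hlt
  · rintro ⟨y, hy, hlt⟩
    refine ⟨y, hy, ?_⟩
    simpa [h0, h1 y hy] using hlt

end two

end Pool.Agent.GaussPoset.Win

end

/-! From `Pool.Agent.W_448win_h16.RkA` -/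

section

/-! Functions with few deficits. -/

namespace Pool.Agent.GaussPoset.Win

set_option linter.unusedSectionVars false

open Finset

universe u

variable {P : Type u} [Fintype P] [PartialOrder P] [DecidableEq P] {r : ℕ}

/-- zero -/
lemma Rk_zero (V : Finset P) (k : ℕ) : Rk V k (fun _ => 0) := by
  refine ⟨fun _ => 0, fun T _ => dvd_zero _, fun S _ => ?_⟩
  rw [Finset.sum_const_zero]

/-- constants: `c ∅ = a`, other coefficients `0` -/
lemma Rk_const (V : Finset P) (k : ℕ) (a : A) : Rk V k (fun _ => a) := by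
  refine ⟨fun T => if T = ∅ then a else 0, fun T _ => ?_, fun S _ => ?_⟩
  · beta_reduce
    by_cases h : T = ∅
    · rw [if_pos h, h, Finset.card_empty, Nat.zero_sub, pow_zero]
      exact one_dvd _
    · rw [if_neg h]
      exact dvd_zero _
  · rw [Finset.sum_ite_eq' S.powerset ∅ (fun _ => a), if_pos (Finset.empty_mem_powerset S)]

/-- sums: add the coefficients -/
lemma Rk_add {V : Finset P} {k : ℕ} {f g : Finset P → A} (hf : Rk V k f) (hg : Rk V k g) :
    Rk V k (fun S => f S + g S) := by
  obtain ⟨c, hc1, hc2⟩ := hf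
  obtain ⟨d, hd1, hd2⟩ := hg
  refine ⟨fun T => c T + d T, fun T hT => dvd_add (hc1 T hT) (hd1 T hT), fun S hS => ?_⟩
  rw [Finset.sum_add_distrib, ← hc2 S hS, ← hd2 S hS]

/-- finite sums, by induction from `Rk_zero`, `Rk_add` -/
lemma Rk_sum {ι : Type*} {V : Finset P} {k : ℕ} (s : Finset ι) {f : ι → Finset P → A}
    (hf : ∀ x ∈ s, Rk V k (f x)) : Rk V k (fun S => ∑ x ∈ s, f x S) := by
  classical
  induction s using Finset.induction_on with
  | empty => simpa using Rk_zero V k
  | insert a s ha ih =>
    have h1 := Rk_add (hf a (Finset.mem_insert_self a s))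
      (ih fun x hx => hf x (Finset.mem_insert_of_mem hx))
    have h2 : (fun S => ∑ x ∈ insert a s, f x S) = fun S => f a S + ∑ x ∈ s, f x S := by
      funext S
      rw [Finset.sum_insert ha]
    rw [h2]
    exact h1

/-- `T.card - l ≤ T.card - k` -/
lemma Rk_mono {V : Finset P} {k l : ℕ} (h : k ≤ l) {f : Finset P → A} (hf : Rk V k f) :
    Rk V l f := by
  obtain ⟨c, hc1, hc2⟩ := hf
  exact ⟨c, fun T hT => (pow_dvd_pow dd (Nat.sub_le_sub_left h _)).trans (hc1 T hT), hc2⟩

/-- only the values on subsets of `V` matter -/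
lemma Rk_congr {V : Finset P} {k : ℕ} {f g : Finset P → A} (h : ∀ S, S ⊆ V → f S = g S)
    (hf : Rk V k f) : Rk V k g := by
  obtain ⟨c, hc1, hc2⟩ := hf
  exact ⟨c, hc1, fun S hS => by rw [← h S hS, hc2 S hS]⟩

end Pool.Agent.GaussPoset.Win

end

/-! From `Pool.Agent.W_448win_h16.RkC` -/

section

/-! Monomials and cheap configurations. -/

namespace Pool.Agent.GaussPoset.Win

set_option linter.unusedSectionVars false

open Finset

universe u

variable {P : Type u} [Fintype P] [PartialOrder P] [DecidableEq P] {r : ℕ}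

lemma RkC_chi_zero {B C : Finset P} (h : ¬ Disjoint B C) (S : Finset P) : chi B C S = 0 := by
  classical
  unfold chi
  rw [if_neg]
  rintro ⟨h1, h2⟩
  exact h (disjoint_comm.1 (Disjoint.mono_right h1 h2))

lemma RkC_alt (s : Finset P) :
    ∑ t ∈ s.powerset, ((-1 : A)) ^ t.card = if s = ∅ then 1 else 0 := by
  have h := Finset.sum_pow_mul_eq_add_pow (-1 : A) 1 s
  simp only [one_pow, mul_one, neg_add_cancel] at h
  rw [h]
  by_cases hs : s = ∅
  · simp [hs]
  · rw [if_neg hs, zero_pow]
    exact fun h0 => hs (Finset.card_eq_zero.1 h0)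

lemma RkC_sum {B C : Finset P} (hBC : Disjoint B C) (S : Finset P) (a : A) :
    ∑ T ∈ S.powerset, (if B ⊆ T ∧ T ⊆ B ∪ C then a * (-1) ^ (T.card - B.card) else 0) =
      a * chi B C S := by
  classical
  by_cases hBS : B ⊆ S
  · have h1 : ∑ T ∈ S.powerset,
        (if B ⊆ T ∧ T ⊆ B ∪ C then a * (-1) ^ (T.card - B.card) else 0) =
        ∑ T ∈ (C ∩ S).powerset.image (fun T' => B ∪ T'),
          (if B ⊆ T ∧ T ⊆ B ∪ C then a * (-1) ^ (T.card - B.card) else 0) := by
      symm
      apply Finset.sum_subset
      · intro T hT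
        obtain ⟨T', hT', rfl⟩ := Finset.mem_image.1 hT
        rw [Finset.mem_powerset] at hT' ⊢
        exact Finset.union_subset hBS (hT'.trans Finset.inter_subset_right)
      · intro T hT hT2
        rw [if_neg]
        rintro ⟨h2, h3⟩
        apply hT2
        rw [Finset.mem_image]
        refine ⟨T \ B, ?_, Finset.union_sdiff_of_subset h2⟩
        rw [Finset.mem_powerset] at hT ⊢
        intro x hx
        rw [Finset.mem_sdiff] at hx
        have h4 := h3 hx.1
        rw [Finset.mem_union] at h4
        rw [Finset.mem_inter]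
        exact ⟨h4.resolve_left hx.2, hT hx.1⟩
    have hd : ∀ T' ∈ (C ∩ S).powerset, Disjoint B T' := by
      intro T' hT'
      exact Disjoint.mono_right ((Finset.mem_powerset.1 hT').trans Finset.inter_subset_left) hBC
    rw [h1, Finset.sum_image]
    · have h2 : ∀ T' ∈ (C ∩ S).powerset,
          (if B ⊆ B ∪ T' ∧ B ∪ T' ⊆ B ∪ C then a * (-1) ^ ((B ∪ T').card - B.card) else 0) =
            a * (-1 : A) ^ T'.card := by
        intro T' hT'
        rw [if_pos, Finset.card_union_of_disjoint (hd T' hT'), Nat.add_sub_cancel_left]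
        refine ⟨Finset.subset_union_left, Finset.union_subset_union_right ?_⟩
        exact (Finset.mem_powerset.1 hT').trans Finset.inter_subset_left
      rw [Finset.sum_congr rfl h2, ← Finset.mul_sum, RkC_alt]
      congr 1
      unfold chi
      by_cases h5 : C ∩ S = ∅
      · rw [if_pos h5, if_pos ⟨hBS, Finset.disjoint_iff_inter_eq_empty.2 h5⟩]
      · rw [if_neg h5, if_neg]
        rintro ⟨-, h6⟩
        exact h5 (Finset.disjoint_iff_inter_eq_empty.1 h6)
    · intro T1 h1 T2 h2 h12
      have e1 := hd T1 h1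
      have e2 := hd T2 h2
      have h12' : B ∪ T1 = B ∪ T2 := h12
      have := congrArg (fun Z => Z \ B) h12'
      simp only [Finset.union_sdiff_left] at this
      rwa [Finset.sdiff_eq_self_of_disjoint e1.symm, Finset.sdiff_eq_self_of_disjoint e2.symm]
        at this
  · have h1 : ∀ T ∈ S.powerset,
        (if B ⊆ T ∧ T ⊆ B ∪ C then a * (-1) ^ (T.card - B.card) else 0) = (0 : A) := by
      intro T hT
      rw [if_neg]
      rintro ⟨h2, -⟩
      exact hBS (h2.trans (Finset.mem_powerset.1 hT))
    rw [Finset.sum_eq_zero h1]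
    unfold chi
    rw [if_neg (fun h => hBS h.1), mul_zero]

/-- A monomial. If `B` and `C` meet, `chi B C S = 0` for all `S`. Otherwise take
`c T = a * (-1) ^ (|T| - |B|)` for `B ⊆ T ⊆ B ∪ C` and `0` otherwise:
`∑ T ⊆ S, c T = a * [B ⊆ S] * ∑ T' ⊆ C ∩ S, (-1) ^ |T'| = a * [B ⊆ S] * [C ∩ S = ∅]`. All these `T`
have `|T| - k ≤ |B| + |C| - k ≤ p`. -/
lemma Rk_chi {V B C : Finset P} {k p : ℕ} (hB : B ⊆ V) (hC : C ⊆ V)
    (hp : B.card + C.card ≤ p + k) {a : A} (ha : dd ^ p ∣ a) :
    Rk V k (fun S => a * chi B C S) := by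
  classical
  by_cases hBC : Disjoint B C
  · refine ⟨fun T => if B ⊆ T ∧ T ⊆ B ∪ C then a * (-1) ^ (T.card - B.card) else 0, ?_, ?_⟩
    · intro T _
      by_cases h : B ⊆ T ∧ T ⊆ B ∪ C
      · have h1 : T.card ≤ B.card + C.card :=
          (Finset.card_le_card h.2).trans (Finset.card_union_le _ _)
        have h2 : dd ^ (T.card - k) ∣ dd ^ p := pow_dvd_pow _ (by omega)
        simp only [if_pos h]
        exact Dvd.dvd.mul_right (h2.trans ha) _
      · simp only [if_neg h]
        exact dvd_zero _
    · intro S _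
      exact (RkC_sum hBC S a).symm
  · refine Rk_congr (f := fun _ => 0) ?_ (Rk_zero V k)
    intro S _
    simp only [RkC_chi_zero hBC S, mul_zero]

/-- `∑ S ⊆ V, xx ^ |S| * f S = ∑ T ⊆ V, c T * xx ^ |T| * dd ^ (|V| - |T|)` (exchange the sums, the
inner sum over `T ⊆ S ⊆ V` is `xx ^ |T| * (1 + xx) ^ (|V| - |T|)`, or use `II_chi` with
`C = ∅`), and `(|T| - k) + (|V| - |T|) ≥ |V| - k`. -/
theorem Rk_II {i k : ℕ} {f : Finset P → A} (hf : Rk (lv P i) k f) :
    dd ^ ((lv P i).card - k) ∣ II i f := by
  classical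
  obtain ⟨c, hc, hf⟩ := hf
  have h1 : II i f = ∑ T ∈ (lv P i).powerset, c T * II i (chi T ∅) := by
    unfold II
    simp only [Finset.mul_sum]
    rw [Finset.sum_comm]
    apply Finset.sum_congr rfl
    intro S hS
    rw [hf S (Finset.mem_powerset.1 hS), Finset.mul_sum]
    have h2 : ∑ T ∈ S.powerset, xx ^ S.card * c T =
        ∑ T ∈ S.powerset, c T * (xx ^ S.card * chi T ∅ S) := by
      apply Finset.sum_congr rfl
      intro T hT
      unfold chi
      rw [if_pos ⟨Finset.mem_powerset.1 hT, Finset.disjoint_empty_left S⟩]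
      ring
    rw [h2]
    apply Finset.sum_subset
    · exact Finset.powerset_mono.2 (Finset.mem_powerset.1 hS)
    · intro T _ hT
      unfold chi
      rw [if_neg (fun h => hT (Finset.mem_powerset.2 h.1))]
      ring
  rw [h1]
  apply Finset.dvd_sum
  intro T hT
  have hT' := Finset.mem_powerset.1 hT
  rw [II_chi hT' (Finset.empty_subset _), if_pos (Finset.disjoint_empty_right T),
    Finset.card_empty, Nat.sub_zero]
  have h3 : dd ^ ((lv P i).card - k) ∣ dd ^ (T.card - k) * dd ^ ((lv P i).card - T.card) := by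
    rw [← pow_add]
    apply pow_dvd_pow
    have := Finset.card_le_card hT'
    omega
  have h4 : dd ^ (T.card - k) * dd ^ ((lv P i).card - T.card) ∣
      c T * dd ^ ((lv P i).card - T.card) := mul_dvd_mul_right (hc T hT') _
  have h5 : c T * (xx ^ T.card * dd ^ ((lv P i).card - T.card)) =
      (c T * dd ^ ((lv P i).card - T.card)) * xx ^ T.card := by ring
  rw [h5]
  exact Dvd.dvd.mul_right (h3.trans h4) _

/-- Cheap configurations: if admissible and disjoint use `Rk_chi` with `p = pL + pU` (`cw` is
divisible by `dd ^ (pL + pU)`), otherwise the function vanishes (`chi` is `0` if `AL` and `AU`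
meet). -/
theorem Rk_of_cheap {k i : ℕ} {e : P → ℕ} (h : Cheap k i e) : Rk (lv P i) k (Fe i e) := by
  classical
  by_cases hA : AdmL i e ∧ AdmU i e
  · by_cases hD : Disjoint (AL i e) (AU i e)
    · have h1 : (AL i e).card + (AU i e).card ≤ pL i e + pU i e + k := by
        rcases h with h1 | h1 | h1 | h1
        · exact absurd hA.1 h1
        · exact absurd hA.2 h1
        · exact absurd hD h1
        · exact h1
      refine Rk_chi (p := pL i e + pU i e) ?_ ?_ h1 ?_
      · unfold AL
        exact Finset.filter_subset _ _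
      · unfold AU
        exact Finset.filter_subset _ _
      · unfold cw
        rw [if_pos hA]
        exact Dvd.intro_left _ rfl
    · refine Rk_congr (f := fun _ => 0) ?_ (Rk_zero _ k)
      intro S _
      unfold Fe
      rw [RkC_chi_zero hD S, mul_zero]
  · refine Rk_congr (f := fun _ => 0) ?_ (Rk_zero _ k)
    intro S _
    unfold Fe cw
    rw [if_neg hA, zero_mul]

/-- the term of a cheap configuration (`II_Fe`, `Rk_of_cheap`, `Rk_II`) -/
theorem dvd_trm_of_cheap {k i : ℕ} {e : P → ℕ} (h : Cheap k i e) :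
    dd ^ ((lv P i).card - k) ∣ trm i e := by
  rw [← II_Fe]
  exact Rk_II (Rk_of_cheap h)

lemma Cheap.mono {k l i : ℕ} {e : P → ℕ} (h : k ≤ l) (hc : Cheap k i e) : Cheap l i e := by
  unfold Cheap at hc ⊢
  rcases hc with h1 | h1 | h1 | h1
  · exact Or.inl h1
  · exact Or.inr (Or.inl h1)
  · exact Or.inr (Or.inr (Or.inl h1))
  · exact Or.inr (Or.inr (Or.inr (by omega)))

end Pool.Agent.GaussPoset.Win

end
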