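import Mathlib
import Pool.Agent.W_448zz_h61.Ns
import Pool.Agent.W_448zz_h61.M007

/-! From `Pool.Agent.W_448ev_h61.EvA` -/

section

/-!
# Verified evaluator for window sums (MP_448cb3_co), part A: programs

A program assigns labels to elements (coded by natural numbers) and checks the elements. All
functions which the kernel has to run are written with recursors.
-/

namespace Pool.Agent.GaussPoset.Win.Ev

/-- a program: assign a label `≥ lb` to `x`; check a site, a lower or an upper element; jump to `q`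
if all labels of `xs` are zero (`q` is the program `p` without its first `k` steps) -/
inductive Prog where
  | nil : Prog
  | asg (x lb : ℕ) (caps : List (ℕ × List ℕ)) (p : Prog) : Prog
  | site (x : ℕ) (dl ul : List ℕ) (p : Prog) : Prog
  | low (x : ℕ) (o inn : List ℕ) (p : Prog) : Prog
  | upp (x : ℕ) (o inn : List ℕ) (p : Prog) : Prog
  | skp (xs : List ℕ) (k : ℕ) (q p : Prog) : Prog
  deriving DecidableEq

/-- digit `x` of `v` in base 32 -/
def dg (v x : ℕ) : ℕ := Nat.mod (Nat.div v (Nat.pow 32 x)) 32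

/-- some element of the list has a label larger than `l` -/
noncomputable def gtA (v l : ℕ) (o : List ℕ) : Bool :=
  List.rec false (fun y _ r => Bool.rec r true (Nat.ble (Nat.succ l) (dg v y))) o

/-- some element of the list has a label at least `l` -/
noncomputable def geA (v l : ℕ) (o : List ℕ) : Bool :=
  List.rec false (fun y _ r => Bool.rec r true (Nat.ble l (dg v y))) o

/-- all labels of the list are zero -/
noncomputable def zeA (v : ℕ) (o : List ℕ) : Bool :=
  List.rec true (fun y _ r => Bool.rec false r (Nat.beq (dg v y) 0)) o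

/-- largest useful label -/
noncomputable def capOf (v b : ℕ) (cs : List (ℕ × List ℕ)) : ℕ :=
  List.rec b (fun c _ r => Bool.rec r (Bool.rec r (dg v c.1) (Nat.ble (dg v c.1) r))
    (geA v (dg v c.1) c.2)) cs

/-- `g lb + g (lb + 1) + …`, `c` terms -/
noncomputable def loop (g : ℕ → ℤ) (lb c : ℕ) : ℤ :=
  Nat.rec (Int.ofNat 0) (fun c r => Int.add r (g (Nat.add lb c))) c

/-- sign -/
def sg (n : ℕ) : ℤ := bif Nat.beq (Nat.mod n 2) 0 then 1 else -1

/-- coefficient of `d^k` of `xx^n1 * xi^n2`, `k ≤ 2` -/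
def cf (n1 n2 : ℕ) : ℕ → ℤ
  | 0 => sg (Nat.add n1 n2)
  | 1 => sg (Nat.add n1 n2) * ((n2 : ℤ) - n1)
  | 2 => sg (Nat.add n1 n2) * (((n1 : ℤ) - n2) * ((n1 : ℤ) - n2 - 1) / 2)
  | _ => 0

/-- the evaluator: coefficient of `d^m`; arguments labels, energy left, exponents of `xx`, `xi`, `dd` -/
noncomputable def ev (m : ℕ) (p : Prog) : ℕ → ℕ → ℕ → ℕ → ℕ → ℤ :=
  Prog.rec (motive := fun _ => ℕ → ℕ → ℕ → ℕ → ℕ → ℤ)
    (fun _ b n1 n2 f => Bool.rec (Int.ofNat 0) (cf n1 n2 (Nat.sub m f)) (Nat.beq b 0))
    (fun x lb caps _ K v b n1 n2 f =>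
      loop (fun k => K (Nat.add v (Nat.mul k (Nat.pow 32 x))) (Nat.sub b k) n1 n2 f) lb
        (Nat.sub (Nat.succ (capOf v b caps)) lb))
    (fun x dl ul _ K v b n1 n2 f =>
      Bool.rec
        (Bool.rec
          (Bool.rec (K v b n1 n2 (Nat.succ f)) (Int.ofNat 0) (Nat.ble m f))
          (K v b n1 n2 f) (gtA v (dg v x) ul))
        (Bool.rec (K v b (Nat.succ n1) n2 f) (Int.ofNat 0) (gtA v (dg v x) ul))
        (gtA v (dg v x) dl))
    (fun x o inn _ K v b n1 n2 f =>
      Bool.rec
        (Bool.rec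
          (Bool.rec (K v b n1 n2 (Nat.succ f)) (Int.ofNat 0) (Nat.ble m f))
          (K v b n1 n2 f) (geA v (dg v x) inn))
        (Bool.rec (K v b (Nat.succ n1) n2 f) (Int.ofNat 0) (geA v (dg v x) inn))
        (gtA v (dg v x) o))
    (fun x o inn _ K v b n1 n2 f =>
      Bool.rec
        (Bool.rec
          (Bool.rec (K v b n1 (Nat.succ n2) (Nat.succ f)) (Int.ofNat 0) (Nat.ble m f))
          (K v b n1 n2 f) (geA v (dg v x) inn))
        (Bool.rec (K v b n1 (Nat.succ n2) f) (Int.ofNat 0) (geA v (dg v x) inn))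
        (gtA v (dg v x) o))
    (fun xs _ _ _ Kq Kp v b n1 n2 f =>
      Bool.rec (Kp v b n1 n2 f) (Kq v b n1 n2 f) (zeA v xs))
    p

end Pool.Agent.GaussPoset.Win.Ev

end

/-! From `Pool.Agent.W_448ev_h61.EvMk` -/

section

namespace Pool.Agent.GaussPoset.Win.Ev

/-- code of the element `a` of row `r` -/
def cd (r a : ℕ) : ℕ := r * 32 + a

/-- upper neighbours of `(r, a)` in the strip with rows `[lo, hi]` -/
def upN (lo hi : List ℕ) (r a : ℕ) : List ℕ :=
  match r with
  | 0 => []
  | r + 1 =>
    (bif Nat.ble (lo.getD r 0 + 1) a && Nat.ble a (hi.getD r 0 + 1) then [cd r (a - 1)] else []) ++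
    (bif Nat.ble (lo.getD r 0) a && Nat.ble a (hi.getD r 0) then [cd r a] else [])

/-- lower neighbours of `(r, a)` in the strip with `R` rows `[lo, hi]` -/
def dnN (lo hi : List ℕ) (R r a : ℕ) : List ℕ :=
  bif Nat.ble R (r + 1) then [] else
    (bif Nat.ble (lo.getD (r + 1) 0) a && Nat.ble a (hi.getD (r + 1) 0) then [cd (r + 1) a] else []) ++
    (bif Nat.ble (lo.getD (r + 1) 0) (a + 1) && Nat.ble (a + 1) (hi.getD (r + 1) 0) then
      [cd (r + 1) (a + 1)] else [])

/-- row `r` -/
def rowN (lo hi : List ℕ) (r : ℕ) : List ℕ :=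
  (List.range (hi.getD r 0 + 1 - lo.getD r 0)).map (fun k => lo.getD r 0 + k)

/-- assignments of row `r` of the lower part -/
def asgL (lo hi : List ℕ) (r : ℕ) (p : Prog) : Prog :=
  (rowN lo hi r).foldr (fun a p => Prog.asg (cd r a) 0
    ((upN lo hi r a).map (fun y => (y, upN lo hi (y / 32) (y % 32)))) p) p

/-- assignments of row `r` of the upper part -/
def asgU (lo hi : List ℕ) (R r : ℕ) (p : Prog) : Prog :=
  (rowN lo hi r).foldr (fun a p => Prog.asg (cd r a) 0
    ((dnN lo hi R r a).map (fun y => (y, dnN lo hi R (y / 32) (y % 32)))) p) p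

/-- checks of row `r` of the lower part -/
def chkL (lo hi : List ℕ) (R r : ℕ) (p : Prog) : Prog :=
  (rowN lo hi r).foldr (fun a p => Prog.low (cd r a) (dnN lo hi R r a) (upN lo hi r a) p) p

/-- checks of row `r` of the upper part -/
def chkU (lo hi : List ℕ) (R r : ℕ) (p : Prog) : Prog :=
  (rowN lo hi r).foldr (fun a p => Prog.upp (cd r a) (upN lo hi r a) (dnN lo hi R r a) p) p

/-- number of steps -/
def len : Prog → ℕ
  | Prog.nil => 0
  | Prog.asg _ _ _ p => len p + 1
  | Prog.site _ _ _ p => len p + 1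
  | Prog.low _ _ _ p => len p + 1
  | Prog.upp _ _ _ p => len p + 1
  | Prog.skp _ _ _ p => len p + 1

/-- lower part from row `r` (assigned) to row `r + n`, then `q` -/
def lowP (lo hi : List ℕ) (R : ℕ) (q : Prog) : ℕ → ℕ → Prog
  | r, 0 => chkL lo hi R r q
  | r, n + 1 =>
    let p := asgL lo hi (r + 1) (chkL lo hi R r (lowP lo hi R q (r + 1) n))
    Prog.skp ((rowN lo hi r).map (cd r)) (len p - len q) q p

/-- upper part from row `r` (assigned) up to row `0`, then `q` -/
def uppP (lo hi : List ℕ) (R : ℕ) (q : Prog) : ℕ → Prog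
  | 0 => chkU lo hi R 0 q
  | r + 1 =>
    let p := asgU lo hi R r (chkU lo hi R (r + 1) (uppP lo hi R q r))
    Prog.skp ((rowN lo hi (r + 1)).map (cd (r + 1))) (len p - len q) q p

/-- near part: sites from left to right, each with its neighbours, which are not yet in `done` -/
def nearP (lo hi : List ℕ) (R s : ℕ) (q : Prog) : List ℕ → List ℕ → Prog
  | _, [] => q
  | done, a :: t =>
    let nb := (dnN lo hi R s a ++ upN lo hi s a).filter (fun y => !(done.contains y))
    Prog.asg (cd s a) 0 [] (nb.foldr (fun y p => Prog.asg y 0 [] p)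
      (Prog.site (cd s a) (dnN lo hi R s a) (upN lo hi s a) (nearP lo hi R s q (nb ++ done) t)))

/-- program for the strip with rows `0 .. R-1`, sites = row `s`, `1 ≤ s`, `s + 1 < R` -/
def mk (lo hi : List ℕ) (R s : ℕ) : Prog :=
  nearP lo hi R s (lowP lo hi R (uppP lo hi R Prog.nil (s - 1)) (s + 1) (R - s - 2)) []
    (rowN lo hi s)

end Pool.Agent.GaussPoset.Win.Ev

end

/-! From `Pool.Agent.W_448ev_h61.EvB` -/

section

/-!
# Verified evaluator, part B: coefficients of `xx^n1 * xi^n2 * dd^f`, digits, equations of the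
evaluator
-/

namespace Pool.Agent.GaussPoset.Win.Ev

open PowerSeries

lemma sg_eq (n : ℕ) : sg n = (-1) ^ n := by
  unfold sg
  show cond (Nat.beq (n % 2) 0) (1 : ℤ) (-1) = (-1) ^ n
  rcases Nat.even_or_odd n with h | h
  · rw [Nat.even_iff.1 h, h.neg_one_pow]; rfl
  · rw [Nat.odd_iff.1 h, h.neg_one_pow]; rfl

lemma coeff_zero_xx_mul (F : A) : coeff 0 (xx * F) = - coeff 0 F := by
  unfold xx dd
  rw [sub_mul, one_mul, map_sub, PowerSeries.coeff_zero_X_mul, zero_sub]

lemma coeff_succ_xx_mul (k : ℕ) (F : A) :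
    coeff (k + 1) (xx * F) = coeff k F - coeff (k + 1) F := by
  unfold xx dd
  rw [sub_mul, one_mul, map_sub, PowerSeries.coeff_succ_X_mul]

lemma xx_xi_mul (F : A) : xx * (xi * F) = F := by
  rw [← mul_assoc, xx_mul_xi, one_mul]

lemma coeff_zero_xi_mul (F : A) : coeff 0 (xi * F) = - coeff 0 F := by
  have h := coeff_zero_xx_mul (xi * F)
  rw [xx_xi_mul] at h
  rw [h, neg_neg]

lemma coeff_succ_xi_mul (k : ℕ) (F : A) :
    coeff (k + 1) (xi * F) = coeff k (xi * F) - coeff (k + 1) F := by
  have h := coeff_succ_xx_mul k (xi * F)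
  rw [xx_xi_mul] at h
  rw [h]
  ring

lemma cf_key : ∀ n1 n2 : ℕ,
    coeff 0 (xx ^ n1 * xi ^ n2 : A) = (-1 : ℤ) ^ (n1 + n2) ∧
    coeff 1 (xx ^ n1 * xi ^ n2 : A) = (-1 : ℤ) ^ (n1 + n2) * ((n2 : ℤ) - n1) ∧
    2 * coeff 2 (xx ^ n1 * xi ^ n2 : A) =
      (-1 : ℤ) ^ (n1 + n2) * (((n1 : ℤ) - n2) * ((n1 : ℤ) - n2 - 1)) := by
  intro n1
  induction n1 with
  | zero =>
    intro n2
    induction n2 with
    | zero =>
      refine ⟨by simp, ?_, ?_⟩
      · simp [PowerSeries.coeff_one]
      · simp [PowerSeries.coeff_one]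
    | succ n2 ih =>
      obtain ⟨h0, h1, h2⟩ := ih
      rw [pow_zero, one_mul] at h0 h1 h2
      have e0 : coeff 0 (xi ^ (n2 + 1) : A) = - coeff 0 (xi ^ n2 : A) := by
        rw [pow_succ', coeff_zero_xi_mul]
      have e1 : coeff 1 (xi ^ (n2 + 1) : A) = coeff 0 (xi ^ (n2 + 1) : A) - coeff 1 (xi ^ n2 : A) := by
        rw [pow_succ']; exact coeff_succ_xi_mul 0 _
      have e2 : coeff 2 (xi ^ (n2 + 1) : A) = coeff 1 (xi ^ (n2 + 1) : A) - coeff 2 (xi ^ n2 : A) := by
        rw [pow_succ']; exact coeff_succ_xi_mul 1 _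
      rw [pow_zero, one_mul, e2, e1, e0, h0, h1]
      refine ⟨?_, ?_, ?_⟩
      · rw [← add_assoc, pow_succ]; ring
      · rw [← add_assoc, pow_succ]; push_cast; ring
      · rw [mul_sub, h2, ← add_assoc, pow_succ]; push_cast; ring
  | succ n1 ih =>
    intro n2
    obtain ⟨h0, h1, h2⟩ := ih n2
    have e0 : coeff 0 (xx ^ (n1 + 1) * xi ^ n2 : A) = - coeff 0 (xx ^ n1 * xi ^ n2 : A) := by
      rw [pow_succ', mul_assoc, coeff_zero_xx_mul]
    have e1 : coeff 1 (xx ^ (n1 + 1) * xi ^ n2 : A) =
        coeff 0 (xx ^ n1 * xi ^ n2 : A) - coeff 1 (xx ^ n1 * xi ^ n2 : A) := by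
      rw [pow_succ', mul_assoc]; exact coeff_succ_xx_mul 0 _
    have e2 : coeff 2 (xx ^ (n1 + 1) * xi ^ n2 : A) =
        coeff 1 (xx ^ n1 * xi ^ n2 : A) - coeff 2 (xx ^ n1 * xi ^ n2 : A) := by
      rw [pow_succ', mul_assoc]; exact coeff_succ_xx_mul 1 _
    have e3 : n1 + 1 + n2 = n1 + n2 + 1 := by omega
    rw [e0, e1, e2, h0, h1, e3]
    refine ⟨?_, ?_, ?_⟩
    · rw [pow_succ]; ring
    · rw [pow_succ]; push_cast; ring
    · rw [mul_sub, h2, pow_succ]; push_cast; ring

theorem cf_eq (n1 n2 : ℕ) : ∀ k, k ≤ 2 → coeff k (xx ^ n1 * xi ^ n2 : A) = cf n1 n2 k := by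
  obtain ⟨h0, h1, h2⟩ := cf_key n1 n2
  intro k hk
  have e : sg (Nat.add n1 n2) = (-1) ^ (n1 + n2) := sg_eq (n1 + n2)
  interval_cases k
  · show _ = sg (Nat.add n1 n2)
    rw [e, h0]
  · show _ = sg (Nat.add n1 n2) * ((n2 : ℤ) - n1)
    rw [e, h1]
  · show _ = sg (Nat.add n1 n2) * (((n1 : ℤ) - n2) * ((n1 : ℤ) - n2 - 1) / 2)
    rw [e]
    have h3 : (((n1 : ℤ) - n2) * ((n1 : ℤ) - n2 - 1) / 2) * 2 = ((n1 : ℤ) - n2) * ((n1 : ℤ) - n2 - 1) := by
      apply Int.ediv_mul_cancel
      have := Int.even_mul_pred_self ((n1 : ℤ) - n2)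
      exact this.two_dvd
    rw [← h3] at h2
    have h4 : 2 * coeff 2 (xx ^ n1 * xi ^ n2 : A) =
      2 * ((-1 : ℤ) ^ (n1 + n2) * (((n1 : ℤ) - n2) * ((n1 : ℤ) - n2 - 1) / 2)) := by
      rw [h2]; ring
    exact mul_left_cancel₀ (by norm_num) h4

/-- the value at the end of a program -/
lemma coeff_end {m n1 n2 f : ℕ} (hm : m ≤ 2) (hf : f ≤ m) :
    coeff m (xx ^ n1 * xi ^ n2 * dd ^ f : A) = cf n1 n2 (m - f) := by
  unfold dd
  rw [PowerSeries.coeff_mul_X_pow', if_pos hf]
  exact cf_eq n1 n2 _ (by omega)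

lemma coeff_big {m n1 n2 f : ℕ} (hf : m < f) (F : A) :
    coeff m (xx ^ n1 * xi ^ n2 * dd ^ f * F : A) = 0 := by
  have : (xx ^ n1 * xi ^ n2 * dd ^ f * F : A) = (xx ^ n1 * xi ^ n2 * F) * dd ^ f := by ring
  rw [this]
  unfold dd
  rw [PowerSeries.coeff_mul_X_pow', if_neg (by omega)]

/-! digits -/

lemma dg_def (v x : ℕ) : dg v x = v / 32 ^ x % 32 := rfl

lemma dg_add {v x k : ℕ} (hk : k < 32) (h0 : dg v x = 0) (y : ℕ) :
    dg (v + k * 32 ^ x) y = if y = x then k else dg v y := by
  rw [dg_def] at h0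
  rw [dg_def, dg_def]
  rcases Nat.lt_trichotomy y x with h | h | h
  · rw [if_neg (by omega)]
    obtain ⟨c, rfl⟩ : ∃ c, x = y + (c + 1) := ⟨x - y - 1, by omega⟩
    have e1 : k * 32 ^ (y + (c + 1)) = 32 ^ y * (32 * (k * 32 ^ c)) := by
      rw [pow_add, pow_succ]; ring
    rw [e1, Nat.add_mul_div_left _ _ (by positivity), Nat.add_mul_mod_self_left]
  · subst h
    rw [if_pos rfl, Nat.add_mul_div_right _ _ (by positivity), Nat.add_mod, h0, Nat.zero_add,
      Nat.mod_mod, Nat.mod_eq_of_lt hk]
  · rw [if_neg (by omega)]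
    obtain ⟨c, rfl⟩ : ∃ c, y = x + (c + 1) := ⟨y - x - 1, by omega⟩
    have e1 : 32 ^ (x + (c + 1)) = 32 ^ x * (32 * 32 ^ c) := by
      rw [pow_add, pow_succ]; ring
    rw [e1, ← Nat.div_div_eq_div_mul, ← Nat.div_div_eq_div_mul, ← Nat.div_div_eq_div_mul,
      ← Nat.div_div_eq_div_mul, Nat.add_mul_div_right _ _ (by positivity)]
    have e2 : (v / 32 ^ x + k) / 32 = v / 32 ^ x / 32 := by omega
    rw [e2]

/-! equations of the auxiliary functions -/

lemma rec_cond {α : Type*} (c : Bool) (a b : α) : @Bool.rec (fun _ => α) b a c = cond c a b := by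
  cases c <;> rfl

lemma gtA_cons (v l y : ℕ) (t : List ℕ) :
    gtA v l (y :: t) = cond (Nat.ble (Nat.succ l) (dg v y)) true (gtA v l t) := by
  have e : gtA v l (y :: t) =
    @Bool.rec (fun _ => Bool) (gtA v l t) true (Nat.ble (Nat.succ l) (dg v y)) := rfl
  rw [e, rec_cond]

lemma geA_cons (v l y : ℕ) (t : List ℕ) :
    geA v l (y :: t) = cond (Nat.ble l (dg v y)) true (geA v l t) := by
  have e : geA v l (y :: t) =
    @Bool.rec (fun _ => Bool) (geA v l t) true (Nat.ble l (dg v y)) := rfl
  rw [e, rec_cond]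

lemma zeA_cons (v y : ℕ) (t : List ℕ) :
    zeA v (y :: t) = cond (Nat.beq (dg v y) 0) (zeA v t) false := by
  have e : zeA v (y :: t) =
    @Bool.rec (fun _ => Bool) false (zeA v t) (Nat.beq (dg v y) 0) := rfl
  rw [e, rec_cond]

lemma capOf_cons (v b : ℕ) (c : ℕ × List ℕ) (t : List (ℕ × List ℕ)) :
    capOf v b (c :: t) = cond (geA v (dg v c.1) c.2)
        (cond (Nat.ble (dg v c.1) (capOf v b t)) (dg v c.1) (capOf v b t)) (capOf v b t) := by
  have e : capOf v b (c :: t) = @Bool.rec (fun _ => ℕ) (capOf v b t)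
      (@Bool.rec (fun _ => ℕ) (capOf v b t) (dg v c.1) (Nat.ble (dg v c.1) (capOf v b t)))
      (geA v (dg v c.1) c.2) := rfl
  rw [e, rec_cond, rec_cond]

lemma gtA_eq (v l : ℕ) (o : List ℕ) : gtA v l o = true ↔ ∃ y ∈ o, l < dg v y := by
  induction o with
  | nil => exact ⟨fun h => absurd h (by show ¬ (false = true); simp), fun ⟨y, hy, _⟩ => by simp at hy⟩
  | cons y t ih =>
    rw [gtA_cons]
    cases hc : Nat.ble (Nat.succ l) (dg v y) with
    | true =>
      have := Nat.le_of_ble_eq_true hc
      simp only [cond_true, true_iff]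
      exact ⟨y, by simp, this⟩
    | false =>
      have h1 : ¬ l < dg v y := fun h => by
        have := Nat.ble_eq_true_of_le (show Nat.succ l ≤ dg v y from h)
        rw [hc] at this
        exact absurd this (by simp)
      rw [cond_false, ih]
      constructor
      · rintro ⟨z, hz, h2⟩
        exact ⟨z, List.mem_cons_of_mem _ hz, h2⟩
      · rintro ⟨z, hz, h2⟩
        rcases List.mem_cons.1 hz with rfl | h
        · exact absurd h2 h1
        · exact ⟨z, h, h2⟩

lemma geA_eq (v l : ℕ) (o : List ℕ) : geA v l o = true ↔ ∃ y ∈ o, l ≤ dg v y := by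
  induction o with
  | nil => exact ⟨fun h => absurd h (by show ¬ (false = true); simp), fun ⟨y, hy, _⟩ => by simp at hy⟩
  | cons y t ih =>
    rw [geA_cons]
    cases hc : Nat.ble l (dg v y) with
    | true =>
      have := Nat.le_of_ble_eq_true hc
      simp only [cond_true, true_iff]
      exact ⟨y, by simp, this⟩
    | false =>
      have h1 : ¬ l ≤ dg v y := fun h => by
        have := Nat.ble_eq_true_of_le h
        rw [hc] at this
        exact absurd this (by simp)
      rw [cond_false, ih]
      constructor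
      · rintro ⟨z, hz, h2⟩
        exact ⟨z, List.mem_cons_of_mem _ hz, h2⟩
      · rintro ⟨z, hz, h2⟩
        rcases List.mem_cons.1 hz with rfl | h
        · exact absurd h2 h1
        · exact ⟨z, h, h2⟩

lemma zeA_eq (v : ℕ) (o : List ℕ) : zeA v o = true ↔ ∀ y ∈ o, dg v y = 0 := by
  induction o with
  | nil => exact ⟨fun _ y hy => by simp at hy, fun _ => rfl⟩
  | cons y t ih =>
    rw [zeA_cons]
    cases hc : Nat.beq (dg v y) 0 with
    | true =>
      have := Nat.eq_of_beq_eq_true hc
      rw [cond_true, ih]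
      constructor
      · intro h z hz
        rcases List.mem_cons.1 hz with rfl | h'
        · exact this
        · exact h z h'
      · intro h z hz
        exact h z (List.mem_cons_of_mem _ hz)
    | false =>
      have := Nat.ne_of_beq_eq_false hc
      rw [cond_false]
      constructor
      · intro h; exact absurd h (by simp)
      · intro h; exact absurd (h y (by simp)) this

/-- properties of the cap -/
lemma capOf_spec (v b : ℕ) (cs : List (ℕ × List ℕ)) :
    capOf v b cs ≤ b ∧ ∀ k, capOf v b cs < k → k ≤ b →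
      ∃ c ∈ cs, dg v c.1 < k ∧ ∃ z ∈ c.2, dg v c.1 ≤ dg v z := by
  induction cs with
  | nil => exact ⟨le_rfl, fun k h1 h2 => absurd h2 (by show ¬ k ≤ b; have : b < k := h1; omega)⟩
  | cons c t ih =>
    obtain ⟨ih1, ih2⟩ := ih
    have lift : ∀ k, capOf v b t < k → k ≤ b →
        ∃ c' ∈ c :: t, dg v c'.1 < k ∧ ∃ z ∈ c'.2, dg v c'.1 ≤ dg v z := by
      intro k h1 h2
      obtain ⟨c', h3, h4⟩ := ih2 k h1 h2
      exact ⟨c', List.mem_cons_of_mem _ h3, h4⟩
    rw [capOf_cons]
    cases hg : geA v (dg v c.1) c.2 with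
    | false => rw [cond_false]; exact ⟨ih1, lift⟩
    | true =>
      rw [cond_true]
      cases hb : Nat.ble (dg v c.1) (capOf v b t) with
      | false => rw [cond_false]; exact ⟨ih1, lift⟩
      | true =>
        rw [cond_true]
        have h1 := Nat.le_of_ble_eq_true hb
        refine ⟨h1.trans ih1, fun k h2 h3 => ?_⟩
        exact ⟨c, by simp, h2, (geA_eq _ _ _).1 hg⟩

lemma loop_eq (g : ℕ → ℤ) (lb c : ℕ) : loop g lb c = ∑ k ∈ Finset.range c, g (lb + k) := by
  induction c with
  | zero => rfl
  | succ c ih =>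
    rw [Finset.sum_range_succ, ← ih]
    rfl

end Pool.Agent.GaussPoset.Win.Ev

end

/-! From `Pool.Agent.W_448ev_h61.EvC` -/

section

/-!
# Verified evaluator, part C: meaning of a program, correctness of the evaluator
-/

namespace Pool.Agent.GaussPoset.Win.Ev

open PowerSeries

lemma nbeq {a b : ℕ} : Nat.beq a b = false ↔ a ≠ b := by
  constructor
  · exact Nat.ne_of_beq_eq_false
  · intro h
    cases hc : Nat.beq a b with
    | false => rfl
    | true => exact absurd (Nat.eq_of_beq_eq_true hc) h

/-- weight of a site -/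
noncomputable def wS (L : ℕ → ℕ) (x : ℕ) (dl ul : List ℕ) : A :=
  if ∃ y ∈ dl, L x < L y then (if ∃ y ∈ ul, L x < L y then 0 else xx)
  else (if ∃ y ∈ ul, L x < L y then 1 else dd)

/-- weight of a lower element -/
noncomputable def wL (L : ℕ → ℕ) (x : ℕ) (o inn : List ℕ) : A :=
  if ∃ y ∈ o, L x < L y then (if ∃ y ∈ inn, L x ≤ L y then 0 else xx)
  else (if ∃ y ∈ inn, L x ≤ L y then 1 else dd)

/-- weight of an upper element -/
noncomputable def wU (L : ℕ → ℕ) (x : ℕ) (o inn : List ℕ) : A :=
  if ∃ y ∈ o, L x < L y then (if ∃ y ∈ inn, L x ≤ L y then 0 else xi)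
  else (if ∃ y ∈ inn, L x ≤ L y then 1 else xi * dd)

/-- meaning of a program: labels given so far, energy left -/
noncomputable def sem : Prog → (ℕ → ℕ) → ℕ → A
  | Prog.nil, _, b => if b = 0 then 1 else 0
  | Prog.asg x lb _ p, L, b =>
      ∑ k ∈ Finset.range (b + 1), if lb ≤ k then sem p (Function.update L x k) (b - k) else 0
  | Prog.site x dl ul p, L, b => wS L x dl ul * sem p L b
  | Prog.low x o inn p, L, b => wL L x o inn * sem p L b
  | Prog.upp x o inn p, L, b => wU L x o inn * sem p L b
  | Prog.skp _ _ _ p, L, b => sem p L b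

/-- `p` checks `y` with `x` outside and `zs` inside, none of them is assigned in `p` -/
def capOK (x y : ℕ) (zs : List ℕ) : Prog → Bool
  | Prog.nil => false
  | Prog.asg x' _ _ p => !(Nat.beq x' x) && !(Nat.beq x' y) && !(zs.contains x') && capOK x y zs p
  | Prog.site _ _ _ p => capOK x y zs p
  | Prog.low y' o inn p =>
      (Nat.beq y' y && o.contains x && zs.all (fun z => inn.contains z)) || capOK x y zs p
  | Prog.upp y' o inn p =>
      (Nat.beq y' y && o.contains x && zs.all (fun z => inn.contains z)) || capOK x y zs p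
  | Prog.skp _ _ _ p => capOK x y zs p

/-- the assigned elements -/
def asgs : Prog → List ℕ
  | Prog.nil => []
  | Prog.asg x _ _ p => x :: asgs p
  | Prog.site _ _ _ p => asgs p
  | Prog.low _ _ _ p => asgs p
  | Prog.upp _ _ _ p => asgs p
  | Prog.skp _ _ _ p => asgs p

/-- after `k` steps, in which nothing happens if the labels of `Z` are zero, `p` becomes `q` -/
def skipOK : ℕ → List ℕ → Prog → Prog → Bool
  | 0, _, p, q => decide (p = q)
  | k + 1, Z, Prog.asg x lb caps p, q =>
      Nat.beq lb 0 && caps.any (fun c => Z.contains c.1 && !c.2.isEmpty) && skipOK k (x :: Z) p q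
  | k + 1, Z, Prog.low x o inn p, q =>
      Z.contains x && o.all (fun y => Z.contains y) && !inn.isEmpty && skipOK k Z p q
  | k + 1, Z, Prog.upp x o inn p, q =>
      Z.contains x && o.all (fun y => Z.contains y) && !inn.isEmpty && skipOK k Z p q
  | k + 1, Z, Prog.skp _ _ _ p, q => skipOK k Z p q
  | _ + 1, _, Prog.nil, _ => false
  | _ + 1, _, Prog.site _ _ _ _, _ => false

/-- validity of a program -/
def valid : Prog → Bool
  | Prog.nil => true
  | Prog.asg x _ caps p => !((asgs p).contains x) && caps.all (fun c => !(Nat.beq c.1 x) && capOK x c.1 c.2 p) &&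
      valid p
  | Prog.site _ _ _ p => valid p
  | Prog.low _ _ _ p => valid p
  | Prog.upp _ _ _ p => valid p
  | Prog.skp xs k q p => skipOK k xs p q && valid q && valid p

lemma upd_ne {L : ℕ → ℕ} {x k y : ℕ} (h : y ≠ x) : Function.update L x k y = L y :=
  Function.update_of_ne h k L

theorem dead {x y : ℕ} {zs : List ℕ} : ∀ (p : Prog), capOK x y zs p = true → ∀ (L : ℕ → ℕ) (b : ℕ),
    L y < L x → (∃ z ∈ zs, L y ≤ L z) → sem p L b = 0 := by
  intro p
  induction p with
  | nil => intro h; exact absurd h (by simp [capOK])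
  | asg x' lb caps p ih =>
    intro h L b h1 h2
    simp only [capOK, Bool.and_eq_true, Bool.not_eq_true', nbeq] at h
    obtain ⟨⟨⟨h3, h4⟩, h5⟩, h6⟩ := h
    have h5' : x' ∉ zs := by
      intro h7
      rw [List.contains_iff_mem.2 h7] at h5
      exact absurd h5 (by simp)
    unfold sem
    refine Finset.sum_eq_zero fun k _ => ?_
    split_ifs with hk
    · refine ih h6 _ _ ?_ ?_
      · rw [upd_ne (Ne.symm h3), upd_ne (Ne.symm h4)]
        exact h1
      · obtain ⟨z, hz, hz2⟩ := h2
        refine ⟨z, hz, ?_⟩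
        have hzx : z ≠ x' := fun h8 => h5' (by rw [← h8]; exact hz)
        rw [upd_ne (Ne.symm h4), upd_ne hzx]
        exact hz2
    · rfl
  | site x' dl ul p ih =>
    intro h L b h1 h2
    unfold sem
    rw [ih h L b h1 h2, mul_zero]
  | low y' o inn p ih =>
    intro h L b h1 h2
    unfold sem
    simp only [capOK, Bool.or_eq_true, Bool.and_eq_true] at h
    rcases h with ⟨⟨h3, h4⟩, h5⟩ | h3
    · have h6 : y' = y := Nat.eq_of_beq_eq_true h3
      subst h6
      have h7 : x ∈ o := List.contains_iff_mem.1 h4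
      obtain ⟨z, hz, hz2⟩ := h2
      have h8 : z ∈ inn := List.contains_iff_mem.1 (List.all_eq_true.1 h5 z hz)
      unfold wL
      rw [if_pos ⟨x, h7, h1⟩, if_pos ⟨z, h8, hz2⟩, zero_mul]
    · rw [ih h3 L b h1 h2, mul_zero]
  | upp y' o inn p ih =>
    intro h L b h1 h2
    unfold sem
    simp only [capOK, Bool.or_eq_true, Bool.and_eq_true] at h
    rcases h with ⟨⟨h3, h4⟩, h5⟩ | h3
    · have h6 : y' = y := Nat.eq_of_beq_eq_true h3
      subst h6
      have h7 : x ∈ o := List.contains_iff_mem.1 h4
      obtain ⟨z, hz, hz2⟩ := h2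
      have h8 : z ∈ inn := List.contains_iff_mem.1 (List.all_eq_true.1 h5 z hz)
      unfold wU
      rw [if_pos ⟨x, h7, h1⟩, if_pos ⟨z, h8, hz2⟩, zero_mul]
    · rw [ih h3 L b h1 h2, mul_zero]
  | skp xs k q p ihq ih =>
    intro h L b h1 h2
    unfold sem
    exact ih h L b h1 h2

theorem skip_sem : ∀ (k : ℕ) (Z : List ℕ) (p q : Prog), skipOK k Z p q = true → valid p = true →
    ∀ (L : ℕ → ℕ) (b : ℕ), (∀ y ∈ Z, L y = 0) → (∀ x ∈ asgs p, L x = 0) → sem p L b = sem q L b := by
  intro k
  induction k with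
  | zero =>
    intro Z p q h _ L b _ _
    unfold skipOK at h
    rw [of_decide_eq_true h]
  | succ k ih =>
    intro Z p q h hv L b hZ hA
    match p, h, hv, hA with
    | Prog.nil, h, _, _ => exact absurd h (by simp [skipOK])
    | Prog.site _ _ _ _, h, _, _ => exact absurd h (by simp [skipOK])
    | Prog.skp _ _ _ p, h, hv, hA =>
      rw [skipOK] at h
      simp only [valid, Bool.and_eq_true] at hv
      rw [sem]
      exact ih Z p q h hv.2 L b hZ hA
    | Prog.low x o inn p, h, hv, hA =>
      rw [skipOK] at h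
      simp only [Bool.and_eq_true, Bool.not_eq_true'] at h
      obtain ⟨⟨⟨h1, h2⟩, h3⟩, h4⟩ := h
      rw [valid] at hv
      rw [sem, ih Z p q h4 hv L b hZ hA]
      have e1 : L x = 0 := hZ x (List.contains_iff_mem.1 h1)
      have e2 : ¬ ∃ y ∈ o, L x < L y := by
        rintro ⟨y, hy, hlt⟩
        have := hZ y (List.contains_iff_mem.1 (List.all_eq_true.1 h2 y hy))
        omega
      have e3 : ∃ y ∈ inn, L x ≤ L y := by
        cases inn with
        | nil => exact absurd h3 (by simp)
        | cons z t => exact ⟨z, by simp, by rw [e1]; exact Nat.zero_le _⟩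
      unfold wL
      rw [if_neg e2, if_pos e3, one_mul]
    | Prog.upp x o inn p, h, hv, hA =>
      rw [skipOK] at h
      simp only [Bool.and_eq_true, Bool.not_eq_true'] at h
      obtain ⟨⟨⟨h1, h2⟩, h3⟩, h4⟩ := h
      rw [valid] at hv
      rw [sem, ih Z p q h4 hv L b hZ hA]
      have e1 : L x = 0 := hZ x (List.contains_iff_mem.1 h1)
      have e2 : ¬ ∃ y ∈ o, L x < L y := by
        rintro ⟨y, hy, hlt⟩
        have := hZ y (List.contains_iff_mem.1 (List.all_eq_true.1 h2 y hy))
        omega
      have e3 : ∃ y ∈ inn, L x ≤ L y := by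
        cases inn with
        | nil => exact absurd h3 (by simp)
        | cons z t => exact ⟨z, by simp, by rw [e1]; exact Nat.zero_le _⟩
      unfold wU
      rw [if_neg e2, if_pos e3, one_mul]
    | Prog.asg x lb caps p, h, hv, hA =>
      rw [skipOK] at h
      simp only [Bool.and_eq_true] at h
      obtain ⟨⟨h1, h2⟩, h3⟩ := h
      simp only [valid, Bool.and_eq_true] at hv
      obtain ⟨⟨v1, v2⟩, v3⟩ := hv
      have hlb : lb = 0 := Nat.eq_of_beq_eq_true h1
      obtain ⟨c, hc, hc2⟩ := List.any_eq_true.1 h2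
      rw [Bool.and_eq_true] at hc2
      obtain ⟨hc3, hc4⟩ := hc2
      have hx0 : L x = 0 := hA x (by rw [asgs]; simp)
      have hu : Function.update L x 0 = L := by
        rw [← hx0]; exact Function.update_eq_self x L
      have hcy : L c.1 = 0 := hZ c.1 (List.contains_iff_mem.1 hc3)
      have hok0 := List.all_eq_true.1 v2 c hc
      rw [Bool.and_eq_true, Bool.not_eq_true', nbeq] at hok0
      obtain ⟨hcx, hok⟩ := hok0
      rw [sem, Finset.sum_eq_single 0]
      · rw [hlb, if_pos le_rfl, hu, Nat.sub_zero]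
        refine ih (x :: Z) p q h3 v3 L b ?_ (fun y hy => hA y (by rw [asgs]; exact List.mem_cons_of_mem _ hy))
        intro y hy
        rcases List.mem_cons.1 hy with rfl | h5
        · exact hx0
        · exact hZ y h5
      · intro k' _ hk'
        split_ifs
        · obtain ⟨z, hz⟩ : ∃ z, z ∈ c.2 := by
            cases hc5 : c.2 with
            | nil => rw [hc5] at hc4; exact absurd hc4 (by simp)
            | cons z t => exact ⟨z, by simp⟩
          refine dead p hok _ _ ?_ ⟨z, hz, ?_⟩
          · rw [Function.update_self, upd_ne hcx, hcy]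
            omega
          · rw [upd_ne hcx, hcy]
            exact Nat.zero_le _
        · rfl
      · intro h6
        exact absurd (Finset.mem_range.2 (Nat.succ_pos b)) h6

/-- the elements assigned in `q` are assigned in `p` -/
lemma asgs_skip : ∀ (k : ℕ) (Z : List ℕ) (p q : Prog), skipOK k Z p q = true →
    ∀ x ∈ asgs q, x ∈ asgs p := by
  intro k
  induction k with
  | zero =>
    intro Z p q h x hx
    unfold skipOK at h
    rw [of_decide_eq_true h]
    exact hx
  | succ k ih =>
    intro Z p q h x hx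
    match p, h with
    | Prog.nil, h => exact absurd h (by simp [skipOK])
    | Prog.site _ _ _ _, h => exact absurd h (by simp [skipOK])
    | Prog.skp _ _ _ p, h =>
      rw [skipOK] at h
      rw [asgs]
      exact ih Z p q h x hx
    | Prog.low _ _ _ p, h =>
      rw [skipOK] at h
      rw [asgs]
      simp only [Bool.and_eq_true] at h
      exact ih Z p q h.2 x hx
    | Prog.upp _ _ _ p, h =>
      rw [skipOK] at h
      rw [asgs]
      simp only [Bool.and_eq_true] at h
      exact ih Z p q h.2 x hx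
    | Prog.asg x' lb caps p, h =>
      rw [skipOK] at h
      rw [asgs]
      simp only [Bool.and_eq_true] at h
      exact List.mem_cons_of_mem _ (ih (x' :: Z) p q h.2 x hx)

/-- THE EVALUATOR IS CORRECT. -/
theorem ev_eq {m : ℕ} (hm : m ≤ 2) : ∀ (p : Prog), valid p = true →
    ∀ (L : ℕ → ℕ) (v b n1 n2 f : ℕ), (∀ x, dg v x = L x) → (∀ x ∈ asgs p, L x = 0) → b < 32 →
    f ≤ m → ev m p v b n1 n2 f = coeff m (xx ^ n1 * xi ^ n2 * dd ^ f * sem p L b : A) := by
  intro p
  induction p with
  | nil =>
    intro _ L v b n1 n2 f _ _ _ hf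
    have e : ev m Prog.nil v b n1 n2 f = cond (Nat.beq b 0) (cf n1 n2 (Nat.sub m f)) 0 := by
      rw [← rec_cond]; rfl
    rw [e]
    unfold sem
    cases hb : Nat.beq b 0 with
    | true =>
      rw [cond_true, if_pos (Nat.eq_of_beq_eq_true hb), mul_one]
      exact (coeff_end hm hf).symm
    | false => rw [cond_false, if_neg (Nat.ne_of_beq_eq_false hb), mul_zero, map_zero]
  | asg x lb caps p ih =>
    intro hv L v b n1 n2 f hL hA hb hf
    simp only [valid, Bool.and_eq_true, Bool.not_eq_true'] at hv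
    obtain ⟨⟨v1, v2⟩, v3⟩ := hv
    have v1' : x ∉ asgs p := by
      intro h
      rw [List.contains_iff_mem.2 h] at v1
      exact absurd v1 (by simp)
    have hx0 : L x = 0 := hA x (by rw [asgs]; simp)
    have e : ev m (Prog.asg x lb caps p) v b n1 n2 f =
        loop (fun k => ev m p (v + k * 32 ^ x) (b - k) n1 n2 f) lb (capOf v b caps + 1 - lb) := rfl
    obtain ⟨c1, c2⟩ := capOf_spec v b caps
    rw [e, loop_eq, sem, Finset.mul_sum, map_sum]
    have hrec : ∀ k, k ≤ b → ev m p (v + k * 32 ^ x) (b - k) n1 n2 f =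
        coeff m (xx ^ n1 * xi ^ n2 * dd ^ f * sem p (Function.update L x k) (b - k) : A) := by
      intro k hk
      refine ih v3 _ _ _ _ _ _ ?_ ?_ (by omega) hf
      · intro y
        rw [dg_add (by omega) (by rw [hL]; exact hx0)]
        by_cases hy : y = x
        · rw [if_pos hy, hy, Function.update_self]
        · rw [if_neg hy, upd_ne hy, hL]
      · intro y hy
        have : y ≠ x := by rintro rfl; exact v1' hy
        rw [upd_ne this]
        exact hA y (by rw [asgs]; exact List.mem_cons_of_mem _ hy)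
    have e1 : ∑ k ∈ Finset.range (capOf v b caps + 1 - lb),
        ev m p (v + (lb + k) * 32 ^ x) (b - (lb + k)) n1 n2 f =
        ∑ k ∈ Finset.Ico lb (capOf v b caps + 1),
          coeff m (xx ^ n1 * xi ^ n2 * dd ^ f * sem p (Function.update L x k) (b - k) : A) := by
      rw [Finset.sum_Ico_eq_sum_range]
      refine Finset.sum_congr rfl fun k hk => hrec _ ?_
      have := Finset.mem_range.1 hk
      omega
    have e2 : ∀ k ∈ Finset.range (b + 1),
        coeff m (xx ^ n1 * xi ^ n2 * dd ^ f *
          (if lb ≤ k then sem p (Function.update L x k) (b - k) else 0) : A) =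
        if lb ≤ k ∧ k < capOf v b caps + 1 then
          coeff m (xx ^ n1 * xi ^ n2 * dd ^ f * sem p (Function.update L x k) (b - k) : A) else 0 := by
      intro k hk
      have hkb := Finset.mem_range.1 hk
      by_cases h1 : lb ≤ k
      · rw [if_pos h1]
        by_cases h2 : k < capOf v b caps + 1
        · rw [if_pos ⟨h1, h2⟩]
        · rw [if_neg (fun h => h2 h.2)]
          obtain ⟨c, hc, hc1, z, hz, hz1⟩ := c2 k (by omega) (by omega)
          have hok0 := List.all_eq_true.1 v2 c hc
          rw [Bool.and_eq_true, Bool.not_eq_true', nbeq] at hok0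
          obtain ⟨hcx, hok⟩ := hok0
          rw [hL] at hc1 hz1
          rw [hL] at hz1
          rw [dead p hok _ _ ?_ ⟨z, hz, ?_⟩, mul_zero, map_zero]
          · rw [Function.update_self, upd_ne hcx]
            exact hc1
          · rw [upd_ne hcx]
            by_cases hzx : z = x
            · rw [hzx, Function.update_self]
              omega
            · rw [upd_ne hzx]
              exact hz1
      · rw [if_neg h1, if_neg (fun h => h1 h.1), mul_zero, map_zero]
    rw [e1, Finset.sum_congr rfl e2, ← Finset.sum_filter]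
    refine Finset.sum_congr ?_ fun _ _ => rfl
    ext k
    simp only [Finset.mem_Ico, Finset.mem_filter, Finset.mem_range]
    omega
  | site x dl ul p ih =>
    intro hv L v b n1 n2 f hL hA hb hf
    rw [valid] at hv
    have e : ev m (Prog.site x dl ul p) v b n1 n2 f =
        cond (gtA v (dg v x) dl) (cond (gtA v (dg v x) ul) 0 (ev m p v b (n1 + 1) n2 f))
          (cond (gtA v (dg v x) ul) (ev m p v b n1 n2 f)
            (cond (Nat.ble m f) 0 (ev m p v b n1 n2 (f + 1)))) := by
      simp only [← rec_cond]; rfl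
    have g1 : gtA v (dg v x) dl = true ↔ ∃ y ∈ dl, L x < L y := by
      rw [gtA_eq]; simp only [hL]
    have g2 : gtA v (dg v x) ul = true ↔ ∃ y ∈ ul, L x < L y := by
      rw [gtA_eq]; simp only [hL]
    rw [e, sem]
    unfold wS
    cases h1 : gtA v (dg v x) dl with
    | true =>
      rw [cond_true, if_pos (g1.1 h1)]
      cases h2 : gtA v (dg v x) ul with
      | true => rw [cond_true, if_pos (g2.1 h2), zero_mul, mul_zero, map_zero]
      | false =>
        rw [cond_false, if_neg (fun h => by rw [g2.2 h] at h2; exact absurd h2 (by simp)),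
          ih hv L v b _ n2 f hL hA hb hf]
        congr 1
        ring
    | false =>
      rw [cond_false, if_neg (fun h => by rw [g1.2 h] at h1; exact absurd h1 (by simp))]
      cases h2 : gtA v (dg v x) ul with
      | true =>
        rw [cond_true, if_pos (g2.1 h2), ih hv L v b n1 n2 f hL hA hb hf, one_mul]
      | false =>
        rw [cond_false, if_neg (fun h => by rw [g2.2 h] at h2; exact absurd h2 (by simp))]
        cases h3 : Nat.ble m f with
        | true =>
          have h4 : m < f + 1 := Nat.lt_succ_of_le (Nat.le_of_ble_eq_true h3)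
          rw [cond_true]
          have h5 : (xx ^ n1 * xi ^ n2 * dd ^ f * (dd * sem p L b) : A) =
            xx ^ n1 * xi ^ n2 * dd ^ (f + 1) * sem p L b := by ring
          rw [h5, coeff_big h4]
        | false =>
          have h4 : ¬ m ≤ f := fun h => by
            have := Nat.ble_eq_true_of_le h
            rw [h3] at this
            exact absurd this (by simp)
          rw [cond_false, ih hv L v b n1 n2 (f + 1) hL hA hb (by omega)]
          congr 1
          ring
  | low x o inn p ih =>
    intro hv L v b n1 n2 f hL hA hb hf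
    rw [valid] at hv
    have e : ev m (Prog.low x o inn p) v b n1 n2 f =
        cond (gtA v (dg v x) o) (cond (geA v (dg v x) inn) 0 (ev m p v b (n1 + 1) n2 f))
          (cond (geA v (dg v x) inn) (ev m p v b n1 n2 f)
            (cond (Nat.ble m f) 0 (ev m p v b n1 n2 (f + 1)))) := by
      simp only [← rec_cond]; rfl
    have g1 : gtA v (dg v x) o = true ↔ ∃ y ∈ o, L x < L y := by
      rw [gtA_eq]; simp only [hL]
    have g2 : geA v (dg v x) inn = true ↔ ∃ y ∈ inn, L x ≤ L y := by
      rw [geA_eq]; simp only [hL]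
    rw [e, sem]
    unfold wL
    cases h1 : gtA v (dg v x) o with
    | true =>
      rw [cond_true, if_pos (g1.1 h1)]
      cases h2 : geA v (dg v x) inn with
      | true => rw [cond_true, if_pos (g2.1 h2), zero_mul, mul_zero, map_zero]
      | false =>
        rw [cond_false, if_neg (fun h => by rw [g2.2 h] at h2; exact absurd h2 (by simp)),
          ih hv L v b _ n2 f hL hA hb hf]
        congr 1
        ring
    | false =>
      rw [cond_false, if_neg (fun h => by rw [g1.2 h] at h1; exact absurd h1 (by simp))]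
      cases h2 : geA v (dg v x) inn with
      | true =>
        rw [cond_true, if_pos (g2.1 h2), ih hv L v b n1 n2 f hL hA hb hf, one_mul]
      | false =>
        rw [cond_false, if_neg (fun h => by rw [g2.2 h] at h2; exact absurd h2 (by simp))]
        cases h3 : Nat.ble m f with
        | true =>
          have h4 : m < f + 1 := Nat.lt_succ_of_le (Nat.le_of_ble_eq_true h3)
          rw [cond_true]
          have h5 : (xx ^ n1 * xi ^ n2 * dd ^ f * (dd * sem p L b) : A) =
            xx ^ n1 * xi ^ n2 * dd ^ (f + 1) * sem p L b := by ring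
          rw [h5, coeff_big h4]
        | false =>
          have h4 : ¬ m ≤ f := fun h => by
            have := Nat.ble_eq_true_of_le h
            rw [h3] at this
            exact absurd this (by simp)
          rw [cond_false, ih hv L v b n1 n2 (f + 1) hL hA hb (by omega)]
          congr 1
          ring
  | upp x o inn p ih =>
    intro hv L v b n1 n2 f hL hA hb hf
    rw [valid] at hv
    have e : ev m (Prog.upp x o inn p) v b n1 n2 f =
        cond (gtA v (dg v x) o) (cond (geA v (dg v x) inn) 0 (ev m p v b n1 (n2 + 1) f))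
          (cond (geA v (dg v x) inn) (ev m p v b n1 n2 f)
            (cond (Nat.ble m f) 0 (ev m p v b n1 (n2 + 1) (f + 1)))) := by
      simp only [← rec_cond]; rfl
    have g1 : gtA v (dg v x) o = true ↔ ∃ y ∈ o, L x < L y := by
      rw [gtA_eq]; simp only [hL]
    have g2 : geA v (dg v x) inn = true ↔ ∃ y ∈ inn, L x ≤ L y := by
      rw [geA_eq]; simp only [hL]
    rw [e, sem]
    unfold wU
    cases h1 : gtA v (dg v x) o with
    | true =>
      rw [cond_true, if_pos (g1.1 h1)]
      cases h2 : geA v (dg v x) inn with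
      | true => rw [cond_true, if_pos (g2.1 h2), zero_mul, mul_zero, map_zero]
      | false =>
        rw [cond_false, if_neg (fun h => by rw [g2.2 h] at h2; exact absurd h2 (by simp)),
          ih hv L v b n1 _ f hL hA hb hf]
        congr 1
        ring
    | false =>
      rw [cond_false, if_neg (fun h => by rw [g1.2 h] at h1; exact absurd h1 (by simp))]
      cases h2 : geA v (dg v x) inn with
      | true =>
        rw [cond_true, if_pos (g2.1 h2), ih hv L v b n1 n2 f hL hA hb hf, one_mul]
      | false =>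
        rw [cond_false, if_neg (fun h => by rw [g2.2 h] at h2; exact absurd h2 (by simp))]
        cases h3 : Nat.ble m f with
        | true =>
          have h4 : m < f + 1 := Nat.lt_succ_of_le (Nat.le_of_ble_eq_true h3)
          rw [cond_true]
          have h5 : (xx ^ n1 * xi ^ n2 * dd ^ f * (xi * dd * sem p L b) : A) =
            xx ^ n1 * xi ^ (n2 + 1) * dd ^ (f + 1) * sem p L b := by ring
          rw [h5, coeff_big h4]
        | false =>
          have h4 : ¬ m ≤ f := fun h => by
            have := Nat.ble_eq_true_of_le h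
            rw [h3] at this
            exact absurd this (by simp)
          rw [cond_false, ih hv L v b n1 (n2 + 1) (f + 1) hL hA hb (by omega)]
          congr 1
          ring
  | skp xs k q p ihq ih =>
    intro hv L v b n1 n2 f hL hA hb hf
    simp only [valid, Bool.and_eq_true] at hv
    obtain ⟨⟨v1, v2⟩, v3⟩ := hv
    have e : ev m (Prog.skp xs k q p) v b n1 n2 f =
        cond (zeA v xs) (ev m q v b n1 n2 f) (ev m p v b n1 n2 f) := by
      rw [← rec_cond]; rfl
    rw [e, sem]
    cases h1 : zeA v xs with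
    | false => rw [cond_false]; exact ih v3 L v b n1 n2 f hL hA hb hf
    | true =>
      have hz : ∀ y ∈ xs, L y = 0 := fun y hy => by
        rw [← hL]; exact (zeA_eq _ _).1 h1 y hy
      rw [cond_true, skip_sem k xs p q v1 v3 L b hz hA]
      refine ihq v2 L v b n1 n2 f hL ?_ hb hf
      intro x hx
      exact hA x (asgs_skip k xs p q v1 x hx)

end Pool.Agent.GaussPoset.Win.Ev

end

/-! From `Pool.Agent.W_448ev_h61.EvD` -/

section

/-!
# Verified evaluator, part D: the meaning of a program is a sum over configurations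
-/

namespace Pool.Agent.GaussPoset.Win.Ev

open Finset

/-- product of all weights -/
noncomputable def prodW : Prog → (ℕ → ℕ) → A
  | Prog.nil, _ => 1
  | Prog.asg _ _ _ p, M => prodW p M
  | Prog.site x dl ul p, M => wS M x dl ul * prodW p M
  | Prog.low x o inn p, M => wL M x o inn * prodW p M
  | Prog.upp x o inn p, M => wU M x o inn * prodW p M
  | Prog.skp _ _ _ p, M => prodW p M

/-- lower bounds -/
def lbs : Prog → (ℕ → ℕ) → Prop
  | Prog.nil, _ => True
  | Prog.asg x lb _ p, M => lb ≤ M x ∧ lbs p M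
  | Prog.site _ _ _ p, M => lbs p M
  | Prog.low _ _ _ p, M => lbs p M
  | Prog.upp _ _ _ p, M => lbs p M
  | Prog.skp _ _ _ p, M => lbs p M

/-- checked elements and their neighbours are not assigned later -/
def dsj : Prog → Bool
  | Prog.nil => true
  | Prog.asg _ _ _ p => dsj p
  | Prog.site x dl ul p => !((asgs p).contains x) && dl.all (fun y => !((asgs p).contains y)) &&
      ul.all (fun y => !((asgs p).contains y)) && dsj p
  | Prog.low x o inn p => !((asgs p).contains x) && o.all (fun y => !((asgs p).contains y)) &&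
      inn.all (fun y => !((asgs p).contains y)) && dsj p
  | Prog.upp x o inn p => !((asgs p).contains x) && o.all (fun y => !((asgs p).contains y)) &&
      inn.all (fun y => !((asgs p).contains y)) && dsj p
  | Prog.skp _ _ _ p => dsj p

lemma lbs_asg {x lb : ℕ} {caps : List (ℕ × List ℕ)} {p : Prog} {M : ℕ → ℕ} :
    lbs (Prog.asg x lb caps p) M ↔ lb ≤ M x ∧ lbs p M := Iff.rfl

lemma lbs_nil {M : ℕ → ℕ} : lbs Prog.nil M := trivial

lemma lbs_congr : ∀ (p : Prog) {M N : ℕ → ℕ}, (∀ x ∈ asgs p, M x = N x) → (lbs p M ↔ lbs p N) := by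
  intro p
  induction p with
  | nil => intro M N _; rfl
  | asg x lb caps p ih =>
    intro M N h
    rw [asgs] at h
    rw [lbs_asg, lbs_asg, h x (by simp), ih fun y hy => h y (List.mem_cons_of_mem _ hy)]
  | site x dl ul p ih => intro M N h; exact ih h
  | low x o inn p ih => intro M N h; exact ih h
  | upp x o inn p ih => intro M N h; exact ih h
  | skp xs k q p _ ih => intro M N h; exact ih h

lemma sum_insert_anti {s : Finset ℕ} {i : ℕ} (hi : i ∉ s) (n : ℕ) (F : (ℕ → ℕ) → A) :
    ∑ e ∈ (insert i s).piAntidiag n, F e =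
      ∑ k ∈ range (n + 1), ∑ e ∈ s.piAntidiag (n - k), F (fun t => e t + if t = i then k else 0) := by
  rw [← Finset.cons_eq_insert i s hi, Finset.piAntidiag_cons hi, Finset.sum_disjiUnion]
  rw [Finset.Nat.sum_antidiagonal_eq_sum_range_succ_mk]
  refine Finset.sum_congr rfl fun k _ => ?_
  rw [Finset.sum_map]
  rfl

lemma not_contains {l : List ℕ} {x : ℕ} (h : l.contains x = false) : x ∉ l := by
  intro h'
  rw [List.contains_iff_mem.2 h'] at h
  exact absurd h (by simp)

lemma wS_congr {L M : ℕ → ℕ} {x : ℕ} {dl ul : List ℕ} (h : L x = M x) (h1 : ∀ y ∈ dl, L y = M y)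
    (h2 : ∀ y ∈ ul, L y = M y) : wS L x dl ul = wS M x dl ul := by
  have e1 : (∃ y ∈ dl, L x < L y) ↔ ∃ y ∈ dl, M x < M y := by
    constructor
    · rintro ⟨y, hy, h3⟩; exact ⟨y, hy, by rw [← h, ← h1 y hy]; exact h3⟩
    · rintro ⟨y, hy, h3⟩; exact ⟨y, hy, by rw [h, h1 y hy]; exact h3⟩
  have e2 : (∃ y ∈ ul, L x < L y) ↔ ∃ y ∈ ul, M x < M y := by
    constructor
    · rintro ⟨y, hy, h3⟩; exact ⟨y, hy, by rw [← h, ← h2 y hy]; exact h3⟩
    · rintro ⟨y, hy, h3⟩; exact ⟨y, hy, by rw [h, h2 y hy]; exact h3⟩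
  unfold wS
  simp only [e1, e2]

lemma wL_congr {L M : ℕ → ℕ} {x : ℕ} {dl ul : List ℕ} (h : L x = M x) (h1 : ∀ y ∈ dl, L y = M y)
    (h2 : ∀ y ∈ ul, L y = M y) : wL L x dl ul = wL M x dl ul := by
  have e1 : (∃ y ∈ dl, L x < L y) ↔ ∃ y ∈ dl, M x < M y := by
    constructor
    · rintro ⟨y, hy, h3⟩; exact ⟨y, hy, by rw [← h, ← h1 y hy]; exact h3⟩
    · rintro ⟨y, hy, h3⟩; exact ⟨y, hy, by rw [h, h1 y hy]; exact h3⟩
  have e2 : (∃ y ∈ ul, L x ≤ L y) ↔ ∃ y ∈ ul, M x ≤ M y := by
    constructor
    · rintro ⟨y, hy, h3⟩; exact ⟨y, hy, by rw [← h, ← h2 y hy]; exact h3⟩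
    · rintro ⟨y, hy, h3⟩; exact ⟨y, hy, by rw [h, h2 y hy]; exact h3⟩
  unfold wL
  simp only [e1, e2]

lemma wU_congr {L M : ℕ → ℕ} {x : ℕ} {dl ul : List ℕ} (h : L x = M x) (h1 : ∀ y ∈ dl, L y = M y)
    (h2 : ∀ y ∈ ul, L y = M y) : wU L x dl ul = wU M x dl ul := by
  have e1 : (∃ y ∈ dl, L x < L y) ↔ ∃ y ∈ dl, M x < M y := by
    constructor
    · rintro ⟨y, hy, h3⟩; exact ⟨y, hy, by rw [← h, ← h1 y hy]; exact h3⟩
    · rintro ⟨y, hy, h3⟩; exact ⟨y, hy, by rw [h, h1 y hy]; exact h3⟩
  have e2 : (∃ y ∈ ul, L x ≤ L y) ↔ ∃ y ∈ ul, M x ≤ M y := by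
    constructor
    · rintro ⟨y, hy, h3⟩; exact ⟨y, hy, by rw [← h, ← h2 y hy]; exact h3⟩
    · rintro ⟨y, hy, h3⟩; exact ⟨y, hy, by rw [h, h2 y hy]; exact h3⟩
  unfold wU
  simp only [e1, e2]

lemma add_eq_of_notMem {L M : ℕ → ℕ} {s : Finset ℕ} {n x : ℕ} (hM : M ∈ s.piAntidiag n)
    (hx : x ∉ s) : L x = (L + M) x := by
  have : M x = 0 := by
    by_contra h
    exact hx ((mem_piAntidiag.1 hM).2 x h)
  rw [Pi.add_apply, this, add_zero]

/-- THE MEANING OF A PROGRAM. -/
theorem sem_sum : ∀ (p : Prog), valid p = true → dsj p = true → ∀ (L : ℕ → ℕ) (b : ℕ),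
    (∀ x ∈ asgs p, L x = 0) →
    sem p L b = ∑ M ∈ (asgs p).toFinset.piAntidiag b,
      (by classical exact if lbs p M then prodW p (L + M) else 0) := by
  classical
  intro p
  induction p with
  | nil =>
    intro _ _ L b _
    unfold sem
    rw [asgs, List.toFinset_nil, piAntidiag_empty]
    split_ifs with h
    · rw [sum_singleton, if_pos lbs_nil]; rfl
    · rw [sum_empty]
  | asg x lb caps p ih =>
    intro hv hd L b hA
    simp only [valid, Bool.and_eq_true, Bool.not_eq_true'] at hv
    obtain ⟨⟨v1, v2⟩, v3⟩ := hv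
    have v1' : x ∉ (asgs p).toFinset := by
      rw [List.mem_toFinset]; exact not_contains v1
    have hx0 : L x = 0 := hA x (by rw [asgs]; simp)
    rw [sem, asgs, List.toFinset_cons, sum_insert_anti v1']
    refine Finset.sum_congr rfl fun k _ => ?_
    have hA' : ∀ y ∈ asgs p, Function.update L x k y = 0 := by
      intro y hy
      have : y ≠ x := by
        rintro rfl
        exact v1' (List.mem_toFinset.2 hy)
      rw [upd_ne this]
      exact hA y (by rw [asgs]; exact List.mem_cons_of_mem _ hy)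
    by_cases hk : lb ≤ k
    · rw [if_pos hk, ih v3 hd _ _ hA']
      refine Finset.sum_congr rfl fun M hM => ?_
      have hMx : M x = 0 := by
        by_contra h
        exact v1' ((mem_piAntidiag.1 hM).2 x h)
      have e1 : lbs (Prog.asg x lb caps p) (fun t => M t + if t = x then k else 0) ↔ lbs p M := by
        rw [lbs_asg, if_pos rfl, hMx, Nat.zero_add]
        constructor
        · rintro ⟨_, h⟩
          refine (lbs_congr p fun y hy => ?_).1 h
          have : y ≠ x := by
            rintro rfl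
            exact v1' (List.mem_toFinset.2 hy)
          show M y + (if y = x then k else 0) = M y
          rw [if_neg this, Nat.add_zero]
        · intro h
          refine ⟨hk, (lbs_congr p fun y hy => ?_).2 h⟩
          have : y ≠ x := by
            rintro rfl
            exact v1' (List.mem_toFinset.2 hy)
          show M y + (if y = x then k else 0) = M y
          rw [if_neg this, Nat.add_zero]
      have e2 : Function.update L x k + M = L + fun t => M t + if t = x then k else 0 := by
        funext y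
        rw [Pi.add_apply, Pi.add_apply]
        by_cases hy : y = x
        · subst hy
          rw [Function.update_self, if_pos rfl, hx0, hMx]
          omega
        · rw [upd_ne hy, if_neg hy, Nat.add_zero]
      by_cases h : lbs p M
      · rw [if_pos h, if_pos (e1.2 h), prodW, e2]
      · rw [if_neg h, if_neg (fun h' => h (e1.1 h'))]
    · rw [if_neg hk, eq_comm]
      refine Finset.sum_eq_zero fun M hM => ?_
      have hMx : M x = 0 := by
        by_contra h
        exact v1' ((mem_piAntidiag.1 hM).2 x h)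
      rw [if_neg]
      rw [lbs_asg]
      rintro ⟨h, _⟩
      rw [if_pos rfl, hMx, Nat.zero_add] at h
      exact hk h
  | site x dl ul p ih =>
    intro hv hd L b hA
    rw [valid] at hv
    simp only [dsj, Bool.and_eq_true, Bool.not_eq_true'] at hd
    obtain ⟨⟨⟨d1, d2⟩, d3⟩, d4⟩ := hd
    rw [sem, ih hv d4 L b hA, mul_sum]
    refine Finset.sum_congr rfl fun M hM => ?_
    have hM' : M ∈ (asgs p).toFinset.piAntidiag b := hM
    have e1 : wS L x dl ul = wS (L + M) x dl ul := by
      apply wS_congr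
      · exact add_eq_of_notMem hM' (by rw [List.mem_toFinset]; exact not_contains d1)
      · intro y hy
        have h := List.all_eq_true.1 d2 y hy
        rw [Bool.not_eq_true'] at h
        exact add_eq_of_notMem hM' (by rw [List.mem_toFinset]; exact not_contains h)
      · intro y hy
        have h := List.all_eq_true.1 d3 y hy
        rw [Bool.not_eq_true'] at h
        exact add_eq_of_notMem hM' (by rw [List.mem_toFinset]; exact not_contains h)
    rw [mul_ite, mul_zero, e1]
    rfl
  | low x dl ul p ih =>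
    intro hv hd L b hA
    rw [valid] at hv
    simp only [dsj, Bool.and_eq_true, Bool.not_eq_true'] at hd
    obtain ⟨⟨⟨d1, d2⟩, d3⟩, d4⟩ := hd
    rw [sem, ih hv d4 L b hA, mul_sum]
    refine Finset.sum_congr rfl fun M hM => ?_
    have hM' : M ∈ (asgs p).toFinset.piAntidiag b := hM
    have e1 : wL L x dl ul = wL (L + M) x dl ul := by
      apply wL_congr
      · exact add_eq_of_notMem hM' (by rw [List.mem_toFinset]; exact not_contains d1)
      · intro y hy
        have h := List.all_eq_true.1 d2 y hy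
        rw [Bool.not_eq_true'] at h
        exact add_eq_of_notMem hM' (by rw [List.mem_toFinset]; exact not_contains h)
      · intro y hy
        have h := List.all_eq_true.1 d3 y hy
        rw [Bool.not_eq_true'] at h
        exact add_eq_of_notMem hM' (by rw [List.mem_toFinset]; exact not_contains h)
    rw [mul_ite, mul_zero, e1]
    rfl
  | upp x dl ul p ih =>
    intro hv hd L b hA
    rw [valid] at hv
    simp only [dsj, Bool.and_eq_true, Bool.not_eq_true'] at hd
    obtain ⟨⟨⟨d1, d2⟩, d3⟩, d4⟩ := hd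
    rw [sem, ih hv d4 L b hA, mul_sum]
    refine Finset.sum_congr rfl fun M hM => ?_
    have hM' : M ∈ (asgs p).toFinset.piAntidiag b := hM
    have e1 : wU L x dl ul = wU (L + M) x dl ul := by
      apply wU_congr
      · exact add_eq_of_notMem hM' (by rw [List.mem_toFinset]; exact not_contains d1)
      · intro y hy
        have h := List.all_eq_true.1 d2 y hy
        rw [Bool.not_eq_true'] at h
        exact add_eq_of_notMem hM' (by rw [List.mem_toFinset]; exact not_contains h)
      · intro y hy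
        have h := List.all_eq_true.1 d3 y hy
        rw [Bool.not_eq_true'] at h
        exact add_eq_of_notMem hM' (by rw [List.mem_toFinset]; exact not_contains h)
    rw [mul_ite, mul_zero, e1]
    rfl
  | skp xs k q p _ ih =>
    intro hv hd L b hA
    simp only [valid, Bool.and_eq_true] at hv
    obtain ⟨⟨_, _⟩, v3⟩ := hv
    exact ih v3 hd L b hA

/-- the value of a program as a sum over configurations -/
theorem ev_sum {m : ℕ} (hm : m ≤ 2) {p : Prog} (hv : valid p = true) (hd : dsj p = true) {n : ℕ}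
    (hn : n < 32) :
    ev m p 0 n 0 0 0 = PowerSeries.coeff m (∑ M ∈ (asgs p).toFinset.piAntidiag n,
      (by classical exact if lbs p M then prodW p M else 0) : A) := by
  classical
  rw [ev_eq hm p hv (fun _ => 0) 0 n 0 0 0 (fun x => by rw [dg_def, Nat.zero_div]) (fun _ _ => rfl)
    hn (Nat.zero_le m), pow_zero, pow_zero, pow_zero, one_mul, one_mul, one_mul,
    sem_sum p hv hd _ _ (fun _ _ => rfl)]
  congr 1
  refine Finset.sum_congr rfl fun M _ => ?_
  have : (fun _ => 0 : ℕ → ℕ) + M = M := by
    funext x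
    rw [Pi.add_apply, Nat.zero_add]
  rw [this]

end Pool.Agent.GaussPoset.Win.Ev

end
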