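import Mathlib
import Pool.Agent.W_448zz_h61.Ns
import Pool.Agent.W_448zz_h61.M007

/-! From `Pool.Agent.W_448win_h16.ExpC` -/

section

/-! Explicit configurations. -/

namespace Pool.Agent.GaussPoset.Win

set_option linter.unusedSectionVars false

open Finset

universe u

variable {P : Type u} [Fintype P] [PartialOrder P] [DecidableEq P] {r : ℕ}

lemma ExpC_cov (H : Gr P r) {z x : P} (h : z ⋖ x) : lev z = lev x + 1 := (H.covBy_iff.1 h).2

/-- a lower element of label zero has `GU` -/
lemma ExpC_GU (H : Gr P r) {e : P → ℕ} {x : P} (h : 1 ≤ lev x) (h0 : e x = 0) : GU e x := by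
  obtain ⟨t, ht⟩ := uc_nonempty H (x := x) h
  exact ⟨t, mem_uc.1 ht, by omega⟩

/-- an upper element of label zero has `GD` -/
lemma ExpC_GD (H : Gr P r) {e : P → ℕ} {x : P} (h : lev x < r) (h0 : e x = 0) : GD e x := by
  obtain ⟨t, ht⟩ := dc_nonempty H (x := x) h
  exact ⟨t, mem_dc.1 ht, by omega⟩

lemma ExpC_noFU (H : Gr P r) {i : ℕ} {e : P → ℕ} (h0 : ∀ u, lev u < i → e u = 0) {u : P}
    (hu : lev u ≤ i) : ¬ FU e u := by
  rintro ⟨y, hy, hlt⟩
  have h1 := ExpC_cov H hy
  have h2 := h0 y (by omega)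
  omega

lemma ExpC_AdmU (H : Gr P r) {i : ℕ} {e : P → ℕ} (h0 : ∀ u, lev u < i → e u = 0) : AdmU i e := by
  rintro u hu ⟨h1, -⟩
  exact ExpC_noFU H h0 hu.le h1

lemma ExpC_aU (H : Gr P r) {i : ℕ} {e : P → ℕ} (h0 : ∀ u, lev u < i → e u = 0) : aU i e = 0 := by
  classical
  unfold aU
  rw [Finset.card_eq_zero, Finset.filter_eq_empty_iff]
  rintro u - ⟨hu, h1⟩
  exact ExpC_noFU H h0 hu.le h1

lemma ExpC_pU (H : Gr P r) {i : ℕ} (hi : i ≤ r) {e : P → ℕ} (h0 : ∀ u, lev u < i → e u = 0) :
    pU i e = 0 := by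
  classical
  unfold pU
  rw [Finset.card_eq_zero, Finset.filter_eq_empty_iff]
  rintro u - ⟨hu, -, h1⟩
  exact h1 (ExpC_GD H (by omega) (h0 u hu))

lemma ExpC_AU (H : Gr P r) {i : ℕ} {e : P → ℕ} (h0 : ∀ u, lev u < i → e u = 0) : AU i e = ∅ := by
  classical
  unfold AU
  rw [Finset.filter_eq_empty_iff]
  intro u hu h1
  exact ExpC_noFU H h0 (mem_lv.1 hu).le h1

/-- the value of a configuration whose upper part is zero -/
lemma ExpC_Fe (H : Gr P r) {i : ℕ} (hi : i ≤ r) {e : P → ℕ} (h0 : ∀ u, lev u < i → e u = 0)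
    (Sa Sp : Finset P) (ha : ∀ x, (i < lev x ∧ FD e x) ↔ x ∈ Sa)
    (hp : ∀ x, (i < lev x ∧ ¬ FD e x ∧ ¬ GU e x) ↔ x ∈ Sp)
    (hn : ∀ x, i < lev x → ¬ (FD e x ∧ GU e x)) (S : Finset P) :
    Fe i e S = xx ^ Sa.card * dd ^ Sp.card * chi (AL i e) ∅ S := by
  classical
  have h1 : aL i e = Sa.card := by
    unfold aL
    congr 1
    ext x
    rw [Finset.mem_filter, ← ha x]
    simp
  have h2 : pL i e = Sp.card := by
    unfold pL
    congr 1
    ext x
    rw [Finset.mem_filter, ← hp x]
    simp
  unfold Fe cw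
  rw [if_pos ⟨hn, ExpC_AdmU H h0⟩, h1, h2, ExpC_aU H h0, ExpC_pU H hi h0, ExpC_AU H h0]
  simp

lemma ExpC_cl_z (z : P) : cl z z = 1 := by
  unfold cl; simp

lemma ExpC_cl_uc {z x : P} (h : x ∈ uc z) : cl z x = 1 := by
  unfold cl; rw [if_pos (Or.inr h)]

lemma ExpC_cl_le (z x : P) : cl z x ≤ 1 := by
  unfold cl; split_ifs <;> omega

lemma ExpC_cl_pos {z x : P} (h : 0 < cl z x) : x = z ∨ x ∈ uc z := by
  unfold cl at h
  by_contra hcon
  rw [if_neg hcon] at h
  omega

lemma ExpC_sg_self (a : P) : sg a a = 1 := by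
  unfold sg; simp

lemma ExpC_sg_ne {a x : P} (h : x ≠ a) : sg a x = 0 := by
  unfold sg; simp [h]

lemma ExpC_lev_uc (H : Gr P r) {i : ℕ} {z w : P} (hz : lev z = i + 2) (h : w ∈ uc z) :
    lev w = i + 1 := by
  have := lev_uc H h
  omega

/-- `cl z`: the upper covers of `z` are free (their sites have label `0`, `z` has label `1`), `z` has
`GU`; the sites above `z` have `FD`; all other lower elements have label `0`, `GU` and no `FD`. -/
theorem Fe_cl (H : Gr P r) {i : ℕ} (hi : i ≤ r) {z : P} (hz : lev z = i + 2) (S : Finset P) :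
    Fe i (cl z) S = dd ^ (uc z).card * chi (sts i z) ∅ S := by
  classical
  have hlow : ∀ x, 0 < cl z x → i < lev x := by
    intro x hx
    rcases ExpC_cl_pos hx with h | h
    · rw [h]; omega
    · rw [ExpC_lev_uc H hz h]; omega
  have h0 : ∀ u, lev u < i → cl z u = 0 := by
    intro u hu
    by_contra hcon
    have := hlow u (Nat.pos_of_ne_zero hcon)
    omega
  have hs0 : ∀ u, lev u = i → cl z u = 0 := by
    intro u hu
    by_contra hcon
    have := hlow u (Nat.pos_of_ne_zero hcon)
    omega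
  have hFD : ∀ x, i < lev x → ¬ FD (cl z) x := by
    rintro x hx ⟨z', hz', hlt⟩
    have h1 := ExpC_cl_le z z'
    have h2 : cl z x = 0 := by omega
    rcases ExpC_cl_pos (z := z) (x := z') (by omega) with h | h
    · have h3 : cl z x = 1 := ExpC_cl_uc (mem_uc.2 (h ▸ hz'))
      omega
    · have h3 := ExpC_lev_uc H hz h
      have h4 := ExpC_cov H hz'
      omega
  have hAL : AL i (cl z) = sts i z := by
    ext v
    unfold AL
    rw [Finset.mem_filter, mem_lv]
    constructor
    · rintro ⟨hv, z', hz', hlt⟩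
      rcases ExpC_cl_pos (z := z) (x := z') (by omega) with h | h
      · have h3 := ExpC_cov H hz'
        rw [h] at h3
        omega
      · exact (mem_sts_iff H hz).2 ⟨z', h, mem_uc.2 hz'⟩
    · intro hv
      have hv1 := (mem_sts.1 hv).1
      obtain ⟨w, hw, hwv⟩ := (mem_sts_iff H hz).1 hv
      refine ⟨hv1, w, mem_uc.1 hwv, ?_⟩
      rw [hs0 v hv1, ExpC_cl_uc hw]
      exact one_pos
  rw [ExpC_Fe H hi h0 ∅ (uc z) ?_ ?_ ?_, hAL]
  · simp
  · intro x
    constructor
    · rintro ⟨h1, h2⟩
      exact absurd h2 (hFD x h1)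
    · intro h
      exact absurd h (Finset.notMem_empty _)
  · intro x
    constructor
    · rintro ⟨h1, -, h3⟩
      by_contra hx
      apply h3
      by_cases hxz : x = z
      · obtain ⟨w, hw⟩ := uc_nonempty H (x := z) (by omega)
        refine ⟨w, by rw [hxz]; exact mem_uc.1 hw, ?_⟩
        rw [hxz, ExpC_cl_z, ExpC_cl_uc hw]
      · refine ExpC_GU H (by omega) ?_
        by_contra hne
        rcases ExpC_cl_pos (Nat.pos_of_ne_zero hne) with h | h
        · exact hxz h
        · exact hx h
    · intro hx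
      have h1 := ExpC_lev_uc H hz hx
      refine ⟨by omega, hFD x (by omega), ?_⟩
      rintro ⟨y, hy, hle⟩
      have h2 := ExpC_cov H hy
      have h3 := hs0 y (by omega)
      rw [ExpC_cl_uc hx] at hle
      omega
  · rintro x h1 ⟨h2, -⟩
    exact hFD x h1 h2

/-- `cl z + sg z`: label two on `z`: the upper covers of `z` have `FD` and not `GU`, `z` is free. -/
theorem Fe_cl_z (H : Gr P r) {i : ℕ} (hi : i ≤ r) {z : P} (hz : lev z = i + 2) (S : Finset P) :
    Fe i (cl z + sg z) S = xx ^ (uc z).card * dd * chi (sts i z) ∅ S := by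
  classical
  set e : P → ℕ := cl z + sg z with he
  have hev : ∀ x, e x = cl z x + sg z x := fun x => rfl
  have hez : e z = 2 := by rw [hev, ExpC_cl_z, ExpC_sg_self]
  have hne : ∀ {x}, x ≠ z → e x = cl z x := by
    intro x hx
    rw [hev, ExpC_sg_ne hx, Nat.add_zero]
  have huz : ∀ {w}, w ∈ uc z → w ≠ z := by
    rintro w hw rfl
    have := ExpC_lev_uc H hz hw
    omega
  have heu : ∀ {w}, w ∈ uc z → e w = 1 := by
    intro w hw
    rw [hne (huz hw), ExpC_cl_uc hw]
  have hpos : ∀ {x}, 0 < e x → x = z ∨ x ∈ uc z := by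
    intro x hx
    by_cases h : x = z
    · exact Or.inl h
    · rw [hne h] at hx
      exact ExpC_cl_pos hx
  have hle2 : ∀ x, e x ≤ 2 := by
    intro x
    by_cases h : x = z
    · rw [h, hez]
    · rw [hne h]
      exact (ExpC_cl_le z x).trans (by omega)
  have hlow : ∀ x, 0 < e x → i < lev x := by
    intro x hx
    rcases hpos hx with h | h
    · rw [h]; omega
    · rw [ExpC_lev_uc H hz h]; omega
  have h0 : ∀ u, lev u < i → e u = 0 := by
    intro u hu
    by_contra hcon
    have := hlow u (Nat.pos_of_ne_zero hcon)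
    omega
  have hs0 : ∀ u, lev u = i → e u = 0 := by
    intro u hu
    by_contra hcon
    have := hlow u (Nat.pos_of_ne_zero hcon)
    omega
  have hFD : ∀ x, i < lev x → FD e x → x ∈ uc z := by
    rintro x hx ⟨z', hz', hlt⟩
    rcases hpos (x := z') (by omega) with h | h
    · exact mem_uc.2 (h ▸ hz')
    · have h3 := ExpC_lev_uc H hz h
      have h4 := ExpC_cov H hz'
      omega
  have hFD' : ∀ x, x ∈ uc z → FD e x := by
    intro x hx
    refine ⟨z, mem_uc.1 hx, ?_⟩
    rw [heu hx, hez]
    omega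
  have hGU : ∀ x, x ∈ uc z → ¬ GU e x := by
    rintro x hx ⟨y, hy, hle⟩
    have h1 := ExpC_lev_uc H hz hx
    have h2 := ExpC_cov H hy
    have h3 := hs0 y (by omega)
    rw [heu hx] at hle
    omega
  have hAL : AL i e = sts i z := by
    ext v
    unfold AL
    rw [Finset.mem_filter, mem_lv]
    constructor
    · rintro ⟨hv, z', hz', hlt⟩
      rcases hpos (x := z') (by omega) with h | h
      · have h3 := ExpC_cov H hz'
        rw [h] at h3
        omega
      · exact (mem_sts_iff H hz).2 ⟨z', h, mem_uc.2 hz'⟩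
    · intro hv
      have hv1 := (mem_sts.1 hv).1
      obtain ⟨w, hw, hwv⟩ := (mem_sts_iff H hz).1 hv
      refine ⟨hv1, w, mem_uc.1 hwv, ?_⟩
      rw [hs0 v hv1, heu hw]
      exact one_pos
  rw [ExpC_Fe H hi h0 (uc z) {z} ?_ ?_ ?_, hAL]
  · simp
  · intro x
    constructor
    · rintro ⟨h1, h2⟩
      exact hFD x h1 h2
    · intro h
      have h1 := ExpC_lev_uc H hz h
      exact ⟨by omega, hFD' x h⟩
  · intro x
    rw [Finset.mem_singleton]
    constructor
    · rintro ⟨h1, h2, h3⟩
      by_contra hx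
      apply h3
      refine ExpC_GU H (by omega) ?_
      by_contra hne0
      rcases hpos (Nat.pos_of_ne_zero hne0) with h | h
      · exact hx h
      · exact h2 (hFD' x h)
    · intro hx
      rw [hx]
      refine ⟨by omega, ?_, ?_⟩
      · rintro ⟨z', hz', hlt⟩
        have h1 := hle2 z'
        omega
      · rintro ⟨y, hy, hle⟩
        have h1 := heu (mem_uc.2 hy)
        omega
  · rintro x h1 ⟨h2, h3⟩
    exact hGU x (hFD x h1 h2) h3

/-- label one on a common site `v` of all upper covers of `z`: they have `GU`, no element is free, and `v`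
loses `FD`. -/
theorem Fe_cl_v (H : Gr P r) {i : ℕ} (hi : i ≤ r) {z v : P} (hz : lev z = i + 2)
    (hv : lev v = i) (hc : ∀ w ∈ uc z, v ∈ uc w) (S : Finset P) :
    Fe i (cl z + sg v) S = chi ((sts i z).erase v) ∅ S := by
  classical
  set e : P → ℕ := cl z + sg v with he
  have hev : ∀ x, e x = cl z x + sg v x := fun x => rfl
  have hvz : v ≠ z := by
    rintro rfl
    omega
  have hvu : v ∉ uc z := by
    intro h
    have := ExpC_lev_uc H hz h
    omega
  have hclv : cl z v = 0 := by
    by_contra hcon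
    rcases ExpC_cl_pos (Nat.pos_of_ne_zero hcon) with h | h
    · exact hvz h
    · exact hvu h
  have hev1 : e v = 1 := by rw [hev, hclv, ExpC_sg_self]
  have hne : ∀ {x}, x ≠ v → e x = cl z x := by
    intro x hx
    rw [hev, ExpC_sg_ne hx, Nat.add_zero]
  have hez : e z = 1 := by rw [hne hvz.symm, ExpC_cl_z]
  have heu : ∀ {w}, w ∈ uc z → e w = 1 := by
    intro w hw
    have h1 : w ≠ v := by
      rintro rfl
      exact hvu hw
    rw [hne h1, ExpC_cl_uc hw]
  have hpos : ∀ {x}, 0 < e x → x = z ∨ x ∈ uc z ∨ x = v := by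
    intro x hx
    by_cases h : x = v
    · exact Or.inr (Or.inr h)
    · rw [hne h] at hx
      rcases ExpC_cl_pos hx with h' | h'
      · exact Or.inl h'
      · exact Or.inr (Or.inl h')
  have hle1 : ∀ x, e x ≤ 1 := by
    intro x
    by_cases h : x = v
    · rw [h, hev1]
    · rw [hne h]
      exact ExpC_cl_le z x
  have hlow : ∀ x, 0 < e x → i ≤ lev x := by
    intro x hx
    rcases hpos hx with h | h | h
    · rw [h]; omega
    · rw [ExpC_lev_uc H hz h]; omega
    · rw [h]; omega
  have h0 : ∀ u, lev u < i → e u = 0 := by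
    intro u hu
    by_contra hcon
    have := hlow u (Nat.pos_of_ne_zero hcon)
    omega
  have hs0 : ∀ u, lev u = i → u ≠ v → e u = 0 := by
    intro u hu huv
    by_contra hcon
    rcases hpos (Nat.pos_of_ne_zero hcon) with h | h | h
    · rw [h] at hu; omega
    · have := ExpC_lev_uc H hz h
      omega
    · exact huv h
  have hFD : ∀ x, i < lev x → ¬ FD e x := by
    rintro x hx ⟨z', hz', hlt⟩
    have h1 := hle1 z'
    have h2 : e x = 0 := by omega
    rcases hpos (x := z') (by omega) with h | h | h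
    · have h3 : e x = 1 := heu (mem_uc.2 (h ▸ hz'))
      omega
    · have h3 := ExpC_lev_uc H hz h
      have h4 := ExpC_cov H hz'
      omega
    · have h4 := ExpC_cov H hz'
      rw [h] at h4
      omega
  have hGU : ∀ x, i < lev x → GU e x := by
    intro x hx
    by_cases hx0 : e x = 0
    · exact ExpC_GU H (by omega) hx0
    · rcases hpos (Nat.pos_of_ne_zero hx0) with h | h | h
      · obtain ⟨w, hw⟩ := uc_nonempty H (x := z) (by omega)
        refine ⟨w, by rw [h]; exact mem_uc.1 hw, ?_⟩
        rw [h, hez, heu hw]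
      · refine ⟨v, mem_uc.1 (hc x h), ?_⟩
        rw [heu h, hev1]
      · rw [h] at hx
        omega
  have hAL : AL i e = (sts i z).erase v := by
    ext t
    unfold AL
    rw [Finset.mem_filter, mem_lv, Finset.mem_erase]
    constructor
    · rintro ⟨ht, z', hz', hlt⟩
      have h1 := hle1 z'
      refine ⟨?_, ?_⟩
      · rintro rfl
        omega
      · rcases hpos (x := z') (by omega) with h | h | h
        · have h3 := ExpC_cov H hz'
          rw [h] at h3
          omega
        · exact (mem_sts_iff H hz).2 ⟨z', h, mem_uc.2 hz'⟩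
        · have h3 := ExpC_cov H hz'
          rw [h] at h3
          omega
    · rintro ⟨htv, ht⟩
      have hv1 := (mem_sts.1 ht).1
      obtain ⟨w, hw, hwv⟩ := (mem_sts_iff H hz).1 ht
      refine ⟨hv1, w, mem_uc.1 hwv, ?_⟩
      rw [hs0 t hv1 htv, heu hw]
      exact one_pos
  rw [ExpC_Fe H hi h0 ∅ ∅ ?_ ?_ ?_, hAL]
  · simp
  · intro x
    constructor
    · rintro ⟨h1, h2⟩
      exact absurd h2 (hFD x h1)
    · intro h
      exact absurd h (Finset.notMem_empty _)
  · intro x
    constructor
    · rintro ⟨h1, -, h3⟩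
      exact absurd (hGU x h1) h3
    · intro h
      exact absurd h (Finset.notMem_empty _)
  · rintro x h1 ⟨h2, -⟩
    exact hFD x h1 h2

/-- lower bound for the number of free lower elements -/
lemma ExpC_pL {i : ℕ} {e : P → ℕ} (s : Finset P)
    (hs : ∀ x ∈ s, i < lev x ∧ ¬ FD e x ∧ ¬ GU e x) : s.card ≤ pL i e := by
  classical
  unfold pL
  apply Finset.card_le_card
  intro x hx
  rw [Finset.mem_filter]
  exact ⟨mem_univ _, hs x hx⟩

/-- The other positions of an additional unit on `z`, its covers, or the sites cost nothing: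
`y ∈ uc z`: `pL = 2`, `AL = sts i z`. `y` a site not above `z`: the same. `y` a site above exactly one
of the two upper covers: `pL ≥ 1`, `AL = sts i z \ {y}`. In all cases `|AL| ≤ pL + (up i z - 2)`. -/
theorem cheap_cl (H : Gr P r) {i : ℕ} (hi : i ≤ r) {z y : P} (hz : lev z = i + 2)
    (h2 : (uc z).card = 2)
    (hy : y ∈ uc z ∨ (lev y = i ∧ ¬ ∀ w ∈ uc z, y ∈ uc w)) :
    Cheap (up i z - 2) i (cl z + sg y) := by
  classical
  set e : P → ℕ := cl z + sg y with he
  have hev : ∀ x, e x = cl z x + sg y x := fun x => rfl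
  have hyz : y ≠ z := by
    rintro rfl
    rcases hy with h | h
    · have := ExpC_lev_uc H hz h
      omega
    · omega
  have hne : ∀ {x}, x ≠ y → e x = cl z x := by
    intro x hx
    rw [hev, ExpC_sg_ne hx, Nat.add_zero]
  have hez : e z = 1 := by rw [hne hyz.symm, ExpC_cl_z]
  have hpos : ∀ {x}, 0 < e x → x = z ∨ x ∈ uc z ∨ x = y := by
    intro x hx
    by_cases h : x = y
    · exact Or.inr (Or.inr h)
    · rw [hne h] at hx
      rcases ExpC_cl_pos hx with h' | h'
      · exact Or.inl h'
      · exact Or.inr (Or.inl h')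
  have hylev : i ≤ lev y := by
    rcases hy with h | h
    · have := ExpC_lev_uc H hz h
      omega
    · omega
  have hylev2 : lev y ≤ i + 1 := by
    rcases hy with h | h
    · have := ExpC_lev_uc H hz h
      omega
    · omega
  have heu1 : ∀ {w}, w ∈ uc z → 1 ≤ e w := by
    intro w hw
    rw [hev, ExpC_cl_uc hw]
    omega
  have h0 : ∀ u, lev u < i → e u = 0 := by
    intro u hu
    by_contra hcon
    rcases hpos (Nat.pos_of_ne_zero hcon) with h | h | h
    · rw [h] at hu; omega
    · have := ExpC_lev_uc H hz h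
      omega
    · rw [h] at hu; omega
  -- the only label above one can be at `y`, a cover of `z`
  have hFDu : ∀ w, w ∈ uc z → ¬ FD e w := by
    rintro w hw ⟨z', hz', hlt⟩
    have h1 := heu1 hw
    have h3 := ExpC_lev_uc H hz hw
    have h4 := ExpC_cov H hz'
    have h5 : z' ≠ y := by
      rintro rfl
      omega
    rw [hne h5] at hlt
    have := ExpC_cl_le z z'
    omega
  have hALsub : AL i e ⊆ sts i z := by
    intro v hv
    unfold AL at hv
    rw [Finset.mem_filter, mem_lv] at hv
    obtain ⟨hv1, z', hz', hlt⟩ := hv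
    have h4 := ExpC_cov H hz'
    rcases hpos (x := z') (by omega) with h | h | h
    · rw [h] at h4
      omega
    · exact (mem_sts_iff H hz).2 ⟨z', h, mem_uc.2 hz'⟩
    · rcases hy with h' | h'
      · rw [← h] at h'
        exact (mem_sts_iff H hz).2 ⟨z', h', mem_uc.2 hz'⟩
      · rw [h] at h4
        omega
  have hcard : (AL i e).card ≤ up i z := by
    rw [← card_sts]
    exact Finset.card_le_card hALsub
  have hAU : (AU i e).card = 0 := by rw [ExpC_AU H h0, Finset.card_empty]
  right; right; right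
  rw [hAU, ExpC_pU H hi h0]
  -- covers not below `y` are free
  have hfree : ∀ w, w ∈ uc z → y ∉ uc w → (i < lev w ∧ ¬ FD e w ∧ ¬ GU e w) := by
    intro w hw hyw
    have h3 := ExpC_lev_uc H hz hw
    refine ⟨by omega, hFDu w hw, ?_⟩
    rintro ⟨t, ht, hle⟩
    have h4 := ExpC_cov H ht
    have h5 := heu1 hw
    rcases hpos (x := t) (by omega) with h | h | h
    · rw [h] at h4
      omega
    · have := ExpC_lev_uc H hz h
      omega
    · exact hyw (mem_uc.2 (h ▸ ht))
  by_cases hall : ∀ w ∈ uc z, y ∉ uc w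
  · have h3 := ExpC_pL (i := i) (e := e) (uc z) (fun w hw => hfree w hw (hall w hw))
    omega
  · push Not at hall
    obtain ⟨w, hw, hyw⟩ := hall
    have hyi : lev y = i := by
      have h3 := ExpC_lev_uc H hz hw
      have h4 := lev_uc H hyw
      omega
    have hy2 : ¬ ∀ w ∈ uc z, y ∈ uc w := by
      rcases hy with h | h
      · have := ExpC_lev_uc H hz h
        omega
      · exact h.2
    push Not at hy2
    obtain ⟨w', hw', hyw'⟩ := hy2
    have h3 := ExpC_pL (i := i) (e := e) {w'} (by
      intro x hx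
      rw [Finset.mem_singleton] at hx
      rw [hx]
      exact hfree w' hw' hyw')
    rw [Finset.card_singleton] at h3
    have hys : y ∈ sts i z := (mem_sts_iff H hz).2 ⟨w, hw, hyw⟩
    have hynot : y ∉ AL i e := by
      intro hmem
      unfold AL at hmem
      rw [Finset.mem_filter] at hmem
      obtain ⟨-, z', hz', hlt⟩ := hmem
      have h5 : z' ≠ y := by
        rintro rfl
        exact absurd hz'.1 (lt_irrefl _)
      have h6 : e y = cl z y + sg y y := hev y
      rw [ExpC_sg_self] at h6
      rw [hne h5] at hlt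
      have := ExpC_cl_le z z'
      omega
    have h7 : AL i e ⊆ (sts i z).erase y := by
      intro x hx
      rw [Finset.mem_erase]
      refine ⟨?_, hALsub hx⟩
      rintro rfl
      exact hynot hx
    have h8 := Finset.card_le_card h7
    rw [Finset.card_erase_of_mem hys, card_sts] at h8
    omega

/-- the second alternative of `two_touched`: all labels one, the two touched elements are free, and
`AL` is the union of their sites -/
theorem cheap_ind (H : Gr P r) {i : ℕ} (hi : i ≤ r) {e : P → ℕ}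
    (h2 : (TL i e).card = 2) (hU : TU i e ∪ UF i e = ∅)
    (he : ∀ x, e x = if x ∈ TL i e ∪ LF i e then 1 else 0) (k : ℕ)
    (hk : ((TL i e).biUnion uc).card ≤ 2 + k) : Cheap k i e := by
  classical
  have hTL : ∀ x, x ∈ TL i e → lev x = i + 1 := by
    intro x hx
    unfold TL at hx
    rw [Finset.mem_filter] at hx
    exact hx.2.1
  have hLF : ∀ x, x ∈ LF i e → i + 2 ≤ lev x := by
    intro x hx
    unfold LF at hx
    rw [Finset.mem_filter] at hx
    exact hx.2.1
  have hle1 : ∀ x, e x ≤ 1 := by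
    intro x
    rw [he x]
    split_ifs <;> omega
  have hpos : ∀ {x}, 0 < e x → x ∈ TL i e ∨ x ∈ LF i e := by
    intro x hx
    rw [← Finset.mem_union]
    by_contra hcon
    rw [he x, if_neg hcon] at hx
    omega
  have heTL : ∀ {x}, x ∈ TL i e → e x = 1 := by
    intro x hx
    rw [he x, if_pos (Finset.mem_union_left _ hx)]
  have hlow : ∀ x, 0 < e x → i < lev x := by
    intro x hx
    rcases hpos hx with h | h
    · rw [hTL x h]; omega
    · have := hLF x h
      omega
  have h0 : ∀ u, lev u < i → e u = 0 := by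
    intro u hu
    by_contra hcon
    have := hlow u (Nat.pos_of_ne_zero hcon)
    omega
  have hAU : (AU i e).card = 0 := by rw [ExpC_AU H h0, Finset.card_empty]
  right; right; right
  rw [hAU, ExpC_pU H hi h0]
  have h3 := ExpC_pL (i := i) (e := e) (TL i e) (by
    intro x hx
    have h4 := hTL x hx
    refine ⟨by omega, ?_, ?_⟩
    · rintro ⟨z', hz', hlt⟩
      have h5 := hle1 z'
      rw [heTL hx] at hlt
      omega
    · rintro ⟨y, hy, hle⟩
      rw [heTL hx] at hle
      have h5 := hlow y (by omega)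
      have h6 := ExpC_cov H hy
      omega)
  have h4 : AL i e ⊆ (TL i e).biUnion uc := by
    intro v hv
    unfold AL at hv
    rw [Finset.mem_filter, mem_lv] at hv
    obtain ⟨hv1, z', hz', hlt⟩ := hv
    have h5 := ExpC_cov H hz'
    rw [Finset.mem_biUnion]
    rcases hpos (x := z') (by omega) with h | h
    · exact ⟨z', h, mem_uc.2 hz'⟩
    · have := hLF z' h
      omega
  have h5 := Finset.card_le_card h4
  omega

end Pool.Agent.GaussPoset.Win

end

/-! From `Pool.Agent.W_448win_h16.ExpD` -/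

section

/-! Explicit terms. -/

namespace Pool.Agent.GaussPoset.Win

set_option linter.unusedSectionVars false

open Finset

universe u

variable {P : Type u} [Fintype P] [PartialOrder P] [DecidableEq P] {r : ℕ}

lemma ExpD_II_mul (i : ℕ) (a : A) (f : Finset P → A) :
    II i (fun S => a * f S) = a * II i f := by
  unfold II
  rw [Finset.mul_sum]
  exact Finset.sum_congr rfl fun S _ => by ring

lemma ExpD_low {i : ℕ} {e : P → ℕ} {a : A} {B : Finset P} (hB : B ⊆ lv P i)
    (h : ∀ S, Fe i e S = a * chi B ∅ S) :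
    trm i e = a * (xx ^ B.card * dd ^ ((lv P i).card - B.card)) := by
  have e1 : Fe i e = fun S => a * chi B ∅ S := funext h
  rw [← II_Fe, e1, ExpD_II_mul, II_chi hB (Finset.empty_subset _),
    if_pos (Finset.disjoint_empty_right B), Finset.card_empty, Nat.sub_zero]

lemma ExpD_sts_sub (i : ℕ) (z : P) : sts i z ⊆ lv P i := fun _ hv => mem_lv.2 (mem_sts.1 hv).1

/-- the term of a configuration without lower part, from its upper data -/
lemma ExpD_upp (H : Gr P r) {i : ℕ} {e : P → ℕ} (h0 : ∀ z, i < lev z → e z = 0)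
    {B C D : Finset P} (hB : ∀ u ∈ B, lev u < i) (hC : ∀ u ∈ C, lev u < i)
    (hD : ∀ u ∈ D, lev u = i) (hBC : B ⊆ C)
    (hFU : ∀ u, lev u < i → (FU e u ↔ u ∈ B)) (hGD : ∀ u, lev u < i → (GD e u ↔ u ∉ C))
    (hS : ∀ w, lev w = i → (FU e w ↔ w ∈ D)) :
    trm i e = xi ^ (B.card + (C \ B).card) * dd ^ ((C \ B).card + ((lv P i).card - D.card)) := by
  classical
  obtain ⟨hAdmL, hAL, haL, hpL⟩ := low_none H h0
  have hAdmU : AdmU i e := by
    intro u hu h1
    exact (hGD u hu).1 h1.2 (hBC ((hFU u hu).1 h1.1))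
  have hAU : AU i e = D := by
    ext w
    unfold AU
    rw [Finset.mem_filter, mem_lv]
    constructor
    · rintro ⟨h1, h2⟩
      exact (hS w h1).1 h2
    · intro h1
      exact ⟨hD w h1, (hS w (hD w h1)).2 h1⟩
  have haU : aU i e = B.card := by
    unfold aU
    congr 1
    ext u
    rw [Finset.mem_filter]
    constructor
    · rintro ⟨-, h1, h2⟩
      exact (hFU u h1).1 h2
    · intro h1
      exact ⟨mem_univ _, hB u h1, (hFU u (hB u h1)).2 h1⟩
  have hpU : pU i e = (C \ B).card := by
    unfold pU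
    congr 1
    ext u
    rw [Finset.mem_filter, Finset.mem_sdiff]
    constructor
    · rintro ⟨-, h1, h2, h3⟩
      rw [hFU u h1] at h2
      rw [hGD u h1, not_not] at h3
      exact ⟨h3, h2⟩
    · rintro ⟨h1, h2⟩
      have h3 := hC u h1
      exact ⟨mem_univ _, h3, fun h => h2 ((hFU u h3).1 h), fun h => (hGD u h3).1 h h1⟩
  unfold trm cw
  rw [hAL, hAU, if_pos (Finset.disjoint_empty_left D), if_pos ⟨hAdmL, hAdmU⟩, haL, haU, hpL, hpU,
    Finset.card_empty, Nat.sub_zero, pow_zero, zero_add, one_mul, one_mul, mul_assoc, ← pow_add]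

lemma ExpD_cu_x (x : P) : cu x x = 1 := by
  unfold cu
  rw [if_pos (Or.inl rfl)]

lemma ExpD_cu_dc {x y : P} (h : y ∈ dc x) : cu x y = 1 := by
  unfold cu
  rw [if_pos (Or.inr h)]

lemma ExpD_cu_zero {x y : P} (h1 : y ≠ x) (h2 : y ∉ dc x) : cu x y = 0 := by
  unfold cu
  rw [if_neg (not_or.2 ⟨h1, h2⟩)]

lemma ExpD_sg_self (x : P) : sg x x = 1 := by
  unfold sg
  rw [Pi.single_eq_same]

lemma ExpD_sg_ne {x y : P} (h : y ≠ x) : sg x y = 0 := by
  unfold sg
  rw [Pi.single_eq_of_ne h]

/-- The terms. From `Fe_cl` and `II_chi`, `II_Fe`. -/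
theorem trm_cl (H : Gr P r) {i : ℕ} (hi : i ≤ r) {z : P} (hz : lev z = i + 2) :
    trm i (cl z) = xx ^ (up i z) * dd ^ ((uc z).card + ((lv P i).card - up i z)) := by
  rw [ExpD_low (ExpD_sts_sub i z) (Fe_cl H hi hz), card_sts, pow_add]
  ring

/-- mirror image: `AU` has `dn i x` elements, `pU = (dc x).card`, `aU = 0` -/
theorem trm_cu (H : Gr P r) {i : ℕ} (hi : i ≤ r) {x : P} (hx : lev x + 2 = i) :
    trm i (cu x) = xi ^ (dc x).card * dd ^ ((dc x).card + ((lv P i).card - dn i x)) := by
  classical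
  have hxx := ExpD_cu_x x
  have hxd : ∀ y ∈ dc x, cu x y = 1 := fun y hy => ExpD_cu_dc hy
  have hx0 : ∀ y, y ≠ x → y ∉ dc x → cu x y = 0 := fun y h1 h2 => ExpD_cu_zero h1 h2
  have hlev : ∀ y ∈ dc x, lev y + 1 = i := by
    intro y hy
    have := lev_dc H hy
    omega
  have hfar : ∀ y, i ≤ lev y → cu x y = 0 := by
    intro y hy
    refine hx0 y ?_ ?_
    · rintro rfl
      omega
    · intro h
      have := hlev y h
      omega
  have hpos : ∀ y, 0 < cu x y → y = x ∨ y ∈ dc x := by
    intro y hy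
    by_contra hcon
    push Not at hcon
    rw [hx0 y hcon.1 hcon.2] at hy
    omega
  have key := ExpD_upp H (i := i) (e := cu x) (B := ∅) (C := dc x) (D := stD i x)
    (fun z hz => hfar z hz.le) (fun u hu => absurd hu (Finset.notMem_empty u))
    (fun u hu => by
      have := hlev u hu
      omega) (fun u hu => (mem_stD.1 hu).1) (Finset.empty_subset _) ?_ ?_ ?_
  · rw [key, Finset.card_empty, zero_add, Finset.sdiff_empty, card_stD]
  · intro u hu
    constructor
    · rintro ⟨y, huy, hlt⟩
      exfalso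
      have h1 := (H.covBy_iff.1 huy).2
      rcases hpos y (by omega) with rfl | h
      · rw [hxx, hxd u (mem_dc.2 huy)] at hlt
        omega
      · have := hlev y h
        omega
    · intro h
      exact absurd h (Finset.notMem_empty u)
  · intro u hu
    constructor
    · rintro ⟨z, hz, hle⟩ hud
      have h1 := (H.covBy_iff.1 hz).2
      have h2 := hlev u hud
      rw [hxd u hud, hfar z (by omega)] at hle
      omega
    · intro hud
      obtain ⟨z, hz⟩ := dc_nonempty H (x := u) (by omega)
      refine ⟨z, mem_dc.1 hz, ?_⟩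
      by_cases hux : u = x
      · subst hux
        rw [hxx, hxd z hz]
      · rw [hx0 u hux hud]
        exact Nat.zero_le _
  · intro w hw
    rw [mem_stD_iff H hx]
    constructor
    · rintro ⟨y, hwy, hlt⟩
      have h1 := (H.covBy_iff.1 hwy).2
      rcases hpos y (by omega) with rfl | h
      · omega
      · exact ⟨y, h, mem_dc.2 hwy⟩
    · rintro ⟨u, hu, hwu⟩
      refine ⟨u, mem_dc.1 hwu, ?_⟩
      rw [hxd u hu, hfar w (by omega)]
      omega

/-- from `Fe_cl_z` -/
theorem trm_cl_z (H : Gr P r) {i : ℕ} (hi : i ≤ r) {z : P} (hz : lev z = i + 2) :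
    trm i (cl z + sg z) =
      xx ^ ((uc z).card + up i z) * dd ^ (1 + ((lv P i).card - up i z)) := by
  rw [ExpD_low (ExpD_sts_sub i z) (Fe_cl_z H hi hz), card_sts, pow_add, pow_add]
  ring

/-- mirror image of `trm_cl_z`: `aU = (dc x).card`, `pU = 1` -/
theorem trm_cu_x (H : Gr P r) {i : ℕ} (hi : i ≤ r) {x : P} (hx : lev x + 2 = i) :
    trm i (cu x + sg x) = xi ^ ((dc x).card + 1) * dd ^ (1 + ((lv P i).card - dn i x)) := by
  classical
  obtain ⟨e, he⟩ : ∃ e : P → ℕ, e = cu x + sg x := ⟨_, rfl⟩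
  rw [← he]
  have hlev : ∀ y ∈ dc x, lev y + 1 = i := by
    intro y hy
    have := lev_dc H hy
    omega
  have hxn : x ∉ dc x := by
    intro h
    have := hlev x h
    omega
  have hxx : e x = 2 := by
    rw [he, Pi.add_apply, ExpD_cu_x, ExpD_sg_self]
  have hxd : ∀ y ∈ dc x, e y = 1 := by
    intro y hy
    rw [he, Pi.add_apply, ExpD_cu_dc hy, ExpD_sg_ne]
    rintro rfl
    exact hxn hy
  have hx0 : ∀ y, y ≠ x → y ∉ dc x → e y = 0 := by
    intro y h1 h2
    rw [he, Pi.add_apply, ExpD_cu_zero h1 h2, ExpD_sg_ne h1]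
  have hfar : ∀ y, i ≤ lev y → e y = 0 := by
    intro y hy
    refine hx0 y ?_ ?_
    · rintro rfl
      omega
    · intro h
      have := hlev y h
      omega
  have hpos : ∀ y, 0 < e y → y = x ∨ y ∈ dc x := by
    intro y hy
    by_contra hcon
    push Not at hcon
    rw [hx0 y hcon.1 hcon.2] at hy
    omega
  have hsd : (insert x (dc x)) \ dc x = {x} := by
    ext y
    rw [Finset.mem_sdiff, Finset.mem_insert, Finset.mem_singleton]
    constructor
    · rintro ⟨h1 | h1, h2⟩
      · exact h1
      · exact absurd h1 h2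
    · rintro rfl
      exact ⟨Or.inl rfl, hxn⟩
  have key := ExpD_upp H (i := i) (e := e) (B := dc x) (C := insert x (dc x)) (D := stD i x)
    (fun z hz => hfar z hz.le) (fun u hu => by
      have := hlev u hu
      omega)
    (fun u hu => by
      rcases Finset.mem_insert.1 hu with rfl | h
      · omega
      · have := hlev u h
        omega) (fun u hu => (mem_stD.1 hu).1) (Finset.subset_insert _ _) ?_ ?_ ?_
  · rw [key, hsd, Finset.card_singleton, card_stD]
  · intro u hu
    constructor
    · rintro ⟨y, huy, hlt⟩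
      have h1 := (H.covBy_iff.1 huy).2
      rcases hpos y (by omega) with rfl | h
      · exact mem_dc.2 huy
      · have := hlev y h
        omega
    · intro h
      refine ⟨x, mem_dc.1 h, ?_⟩
      rw [hxx, hxd u h]
      omega
  · intro u hu
    constructor
    · rintro ⟨z, hz, hle⟩ hud
      have h1 := (H.covBy_iff.1 hz).2
      rcases Finset.mem_insert.1 hud with rfl | h
      · rw [hxx, hxd z (mem_dc.2 hz)] at hle
        omega
      · have h2 := hlev u h
        rw [hxd u h, hfar z (by omega)] at hle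
        omega
    · intro hud
      rw [Finset.mem_insert, not_or] at hud
      obtain ⟨z, hz⟩ := dc_nonempty H (x := u) (by omega)
      refine ⟨z, mem_dc.1 hz, ?_⟩
      rw [hx0 u hud.1 hud.2]
      exact Nat.zero_le _
  · intro w hw
    rw [mem_stD_iff H hx]
    constructor
    · rintro ⟨y, hwy, hlt⟩
      have h1 := (H.covBy_iff.1 hwy).2
      rcases hpos y (by omega) with rfl | h
      · omega
      · exact ⟨y, h, mem_dc.2 hwy⟩
    · rintro ⟨u, hu, hwu⟩
      refine ⟨u, mem_dc.1 hwu, ?_⟩
      rw [hxd u hu, hfar w (by omega)]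
      omega

/-- from `Fe_cl_v` -/
theorem trm_cl_v (H : Gr P r) {i : ℕ} (hi : i ≤ r) {z v : P} (hz : lev z = i + 2)
    (hv : lev v = i) (hzv : z < v) (hc : ∀ w ∈ uc z, v ∈ uc w) :
    trm i (cl z + sg v) = xx ^ (up i z - 1) * dd ^ ((lv P i).card - (up i z - 1)) := by
  classical
  have h1 : ∀ S, Fe i (cl z + sg v) S = 1 * chi ((sts i z).erase v) ∅ S := by
    intro S
    rw [Fe_cl_v H hi hz hv hc S, one_mul]
  rw [ExpD_low ((Finset.erase_subset _ _).trans (ExpD_sts_sub i z)) h1,
    Finset.card_erase_of_mem (mem_sts.2 ⟨hv, hzv⟩), card_sts, one_mul]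

/-- mirror image of `trm_cl_v` -/
theorem trm_cu_v (H : Gr P r) {i : ℕ} (hi : i ≤ r) {x v : P} (hx : lev x + 2 = i)
    (hv : lev v = i) (hvx : v < x) (hc : ∀ u ∈ dc x, v ∈ dc u) :
    trm i (cu x + sg v) = dd ^ ((lv P i).card - (dn i x - 1)) := by
  classical
  obtain ⟨e, he⟩ : ∃ e : P → ℕ, e = cu x + sg v := ⟨_, rfl⟩
  rw [← he]
  have hlev : ∀ y ∈ dc x, lev y + 1 = i := by
    intro y hy
    have := lev_dc H hy
    omega
  have hxv : x ≠ v := by
    rintro rfl
    omega
  have hvn : v ∉ dc x := by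
    intro h
    have := hlev v h
    omega
  have hxx : e x = 1 := by
    rw [he, Pi.add_apply, ExpD_cu_x, ExpD_sg_ne hxv]
  have hvv : e v = 1 := by
    rw [he, Pi.add_apply, ExpD_cu_zero hxv.symm hvn, ExpD_sg_self]
  have hxd : ∀ y ∈ dc x, e y = 1 := by
    intro y hy
    rw [he, Pi.add_apply, ExpD_cu_dc hy, ExpD_sg_ne]
    rintro rfl
    exact hvn hy
  have hx0 : ∀ y, y ≠ x → y ∉ dc x → y ≠ v → e y = 0 := by
    intro y h1 h2 h3
    rw [he, Pi.add_apply, ExpD_cu_zero h1 h2, ExpD_sg_ne h3]
  have hfar : ∀ y, i ≤ lev y → y ≠ v → e y = 0 := by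
    intro y hy h3
    refine hx0 y ?_ ?_ h3
    · rintro rfl
      omega
    · intro h
      have := hlev y h
      omega
  have hpos : ∀ y, 0 < e y → y = x ∨ y ∈ dc x ∨ y = v := by
    intro y hy
    by_contra hcon
    push Not at hcon
    rw [hx0 y hcon.1 hcon.2.1 hcon.2.2] at hy
    omega
  have hle1 : ∀ y, e y ≤ 1 := by
    intro y
    rcases Nat.eq_zero_or_pos (e y) with h | h
    · omega
    · rcases hpos y h with h1 | h1 | h1
      · rw [h1, hxx]
      · rw [hxd y h1]
      · rw [h1, hvv]
  have key := ExpD_upp H (i := i) (e := e) (B := ∅) (C := ∅) (D := (stD i x).erase v)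
    (fun z hz => hfar z hz.le (by rintro rfl; omega)) (fun u hu => absurd hu (Finset.notMem_empty u))
    (fun u hu => absurd hu (Finset.notMem_empty u))
    (fun u hu => (mem_stD.1 (Finset.mem_of_mem_erase hu)).1) (Finset.empty_subset _) ?_ ?_ ?_
  · rw [key, Finset.sdiff_empty, Finset.card_empty, zero_add, zero_add, pow_zero, one_mul,
      Finset.card_erase_of_mem (mem_stD.2 ⟨hv, hvx⟩), card_stD]
  · intro u hu
    constructor
    · rintro ⟨y, huy, hlt⟩
      exfalso
      have h1 := (H.covBy_iff.1 huy).2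
      rcases hpos y (by omega) with rfl | h | rfl
      · rw [hxx, hxd u (mem_dc.2 huy)] at hlt
        omega
      · have := hlev y h
        omega
      · omega
    · intro h
      exact absurd h (Finset.notMem_empty u)
  · intro u hu
    constructor
    · intro _ hud
      exact absurd hud (Finset.notMem_empty u)
    · intro _
      by_cases hux : u ∈ dc x
      · refine ⟨v, mem_dc.1 (hc u hux), ?_⟩
        rw [hvv]
        exact hle1 u
      · obtain ⟨z, hz⟩ := dc_nonempty H (x := u) (by omega)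
        refine ⟨z, mem_dc.1 hz, ?_⟩
        by_cases hux2 : u = x
        · subst hux2
          rw [hxx, hxd z hz]
        · rw [hx0 u hux2 hux (by rintro rfl; omega)]
          exact Nat.zero_le _
  · intro w hw
    rw [Finset.mem_erase, mem_stD_iff H hx]
    constructor
    · rintro ⟨y, hwy, hlt⟩
      have h1 := (H.covBy_iff.1 hwy).2
      have h2 := hle1 y
      refine ⟨?_, ?_⟩
      · rintro rfl
        rw [hvv] at hlt
        omega
      · rcases hpos y (by omega) with rfl | h | rfl
        · omega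
        · exact ⟨y, h, mem_dc.2 hwy⟩
        · omega
    · rintro ⟨hwv, u, hu, hwu⟩
      refine ⟨u, mem_dc.1 hwu, ?_⟩
      rw [hxd u hu, hfar w (by omega) hwv]
      omega

end Pool.Agent.GaussPoset.Win

end
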