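import Mathlib
import Pool.Agent.W_448zz_h61.Ns
import Pool.Agent.W_448zz_h61.M007

/-! From `Pool.Agent.W_448win_h16.FactB` -/

section

/-! Raising the label of a lower near element. -/

namespace Pool.Agent.GaussPoset.Win

set_option linter.unusedSectionVars false

open Finset

universe u

variable {P : Type u} [Fintype P] [PartialOrder P] [DecidableEq P] {r : ℕ}

/-- Raising the label of an untouched lower near element `x` with label `0` to `a`. Its lower covers
have label `0`; they have `GU` before and after (label `0 ≤` any label, `x` is an upper cover), and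
their `FD` does not depend on the label of `x`. `x` itself: `FD` is false before and after (all
lower covers have label `0`), `GU` is true before (it has an upper cover, `uc_nonempty`) and after
the change it holds iff some site `v` above `x` has `a ≤ e v`. So `aL` is unchanged, `pL` grows by
one iff all sites above `x` have label `< a`. A site `v` has `FD` after the change iff it had it
before or `x ⋖ v` and `e v < a`. The upper part does not see `x`. If the configuration was not
admissible it remains so. Hence `Fe` is multiplied by `wtL e x a S`. -/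
theorem factL (H : Gr P r) {i : ℕ} {e : P → ℕ} {x : P} (hx : lev x = i + 1)
    (hu : ∀ z, z ⋖ x → e z = 0) (h0 : e x = 0) (a : ℕ) (S : Finset P) :
    Fe i (e + Pi.single x a) S = Fe i e S * wtL e x a S := by
  classical
  obtain ⟨e', he'⟩ : ∃ e', e' = e + Pi.single x a := ⟨_, rfl⟩
  rw [← he']
  have hex : e' x = a := by rw [he', Pi.add_apply, Pi.single_eq_same, h0, zero_add]
  have hey : ∀ y, y ≠ x → e' y = e y := fun y hy => by
    rw [he', Pi.add_apply, Pi.single_eq_of_ne hy, add_zero]
  have hcov : ∀ {p q : P}, p ⋖ q → lev p = lev q + 1 := fun h => (H.covBy_iff.mp h).2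
  have hFDx : ¬ FD e' x := by
    rintro ⟨z', hz', hlt⟩
    have hne : z' ≠ x := by
      rintro rfl
      exact hz'.1.false
    rw [hey z' hne, hu z' hz'] at hlt
    omega
  have hFDx0 : ¬ FD e x := by
    rintro ⟨z', hz', hlt⟩
    rw [hu z' hz'] at hlt
    omega
  obtain ⟨y0, hy0⟩ := uc_nonempty H (x := x) (by omega)
  have hGUx0 : GU e x := ⟨y0, mem_uc.1 hy0, by rw [h0]; exact Nat.zero_le _⟩
  have hFD : ∀ z, i < lev z → (FD e' z ↔ FD e z) := by
    intro z hz
    by_cases hzx : z = x
    · subst hzx
      exact iff_of_false hFDx hFDx0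
    · unfold FD
      refine exists_congr fun z' => and_congr_right fun hz' => ?_
      have hne : z' ≠ x := by
        rintro rfl
        have := hcov hz'
        omega
      rw [hey z hzx, hey z' hne]
  have hGU : ∀ z, z ≠ x → (GU e' z ↔ GU e z) := by
    intro z hzx
    by_cases hc : z ⋖ x
    · exact iff_of_true ⟨x, hc, by rw [hey z hzx, hu z hc]; exact Nat.zero_le _⟩
        ⟨x, hc, by rw [hu z hc]; exact Nat.zero_le _⟩
    · unfold GU
      refine exists_congr fun y => and_congr_right fun hy => ?_
      have hne : y ≠ x := by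
        rintro rfl
        exact hc hy
      rw [hey z hzx, hey y hne]
  have hGUx : GU e' x ↔ ¬ ∀ v ∈ uc x, e v < a := by
    unfold GU
    push Not
    refine exists_congr fun v => ?_
    rw [mem_uc]
    refine and_congr_right fun hv => ?_
    have hne : v ≠ x := by
      rintro rfl
      exact hv.1.false
    rw [hex, hey v hne]
  have hAdmL : AdmL i e' ↔ AdmL i e := by
    unfold AdmL
    refine forall_congr' fun z => forall_congr' fun hz => not_congr ?_
    by_cases hzx : z = x
    · subst hzx
      exact iff_of_false (fun h => hFDx h.1) (fun h => hFDx0 h.1)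
    · rw [hFD z hz, hGU z hzx]
  have hFU : ∀ z, lev z ≤ i → (FU e' z ↔ FU e z) := by
    intro z hz
    unfold FU
    refine exists_congr fun y => and_congr_right fun hy => ?_
    have h1 := hcov hy
    rw [hey z (by rintro rfl; omega), hey y (by rintro rfl; omega)]
  have hGD : ∀ z, lev z < i → (GD e' z ↔ GD e z) := by
    intro z hz
    unfold GD
    refine exists_congr fun y => and_congr_right fun hy => ?_
    have h1 := hcov hy
    rw [hey z (by rintro rfl; omega), hey y (by rintro rfl; omega)]
  have hAdmU : AdmU i e' ↔ AdmU i e := by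
    unfold AdmU
    refine forall_congr' fun z => forall_congr' fun hz => not_congr ?_
    rw [hFU z hz.le, hGD z hz]
  have haL : aL i e' = aL i e := by
    unfold aL
    refine congrArg _ (filter_congr fun z _ => and_congr_right fun hz => ?_)
    rw [hFD z hz]
  have haU : aU i e' = aU i e := by
    unfold aU
    refine congrArg _ (filter_congr fun z _ => and_congr_right fun hz => ?_)
    rw [hFU z hz.le]
  have hpU : pU i e' = pU i e := by
    unfold pU
    refine congrArg _ (filter_congr fun z _ => and_congr_right fun hz => ?_)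
    rw [hFU z hz.le, hGD z hz]
  have hpL : pL i e' = pL i e + if ∀ v ∈ uc x, e v < a then 1 else 0 := by
    unfold pL
    have h1 : univ.filter (fun z : P => i < lev z ∧ ¬ FD e z ∧ ¬ GU e z) =
        (univ.filter (fun z : P => i < lev z ∧ ¬ FD e' z ∧ ¬ GU e' z)).erase x := by
      ext z
      rw [mem_erase, mem_filter, mem_filter]
      by_cases hzx : z = x
      · subst hzx
        exact iff_of_false (fun h => h.2.2.2 hGUx0) (fun h => h.1 rfl)
      · constructor
        · rintro ⟨h2, h3, h4, h5⟩
          exact ⟨hzx, h2, h3, by rw [hFD z h3]; exact h4, by rw [hGU z hzx]; exact h5⟩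
        · rintro ⟨-, h2, h3, h4, h5⟩
          exact ⟨h2, h3, by rw [← hFD z h3]; exact h4, by rw [← hGU z hzx]; exact h5⟩
    rw [h1]
    by_cases hc : ∀ v ∈ uc x, e v < a
    · rw [if_pos hc, card_erase_add_one]
      rw [mem_filter]
      refine ⟨mem_univ _, by omega, hFDx, ?_⟩
      rw [hGUx]
      exact not_not.2 hc
    · rw [if_neg hc, add_zero, erase_eq_of_notMem]
      intro h2
      rw [mem_filter] at h2
      exact h2.2.2.2 (hGUx.2 hc)
  have hAU : AU i e' = AU i e := by
    unfold AU
    refine filter_congr fun z hz => ?_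
    rw [mem_lv] at hz
    rw [hFU z hz.le]
  have hAL : ∀ v, v ∈ AL i e' ↔ v ∈ AL i e ∨ (x ⋖ v ∧ e v < a) := by
    intro v
    unfold AL
    rw [mem_filter, mem_filter, mem_lv]
    constructor
    · rintro ⟨hv, z', hz', hlt⟩
      have hvx : v ≠ x := by rintro rfl; omega
      rw [hey v hvx] at hlt
      by_cases hzx : z' = x
      · subst hzx
        rw [hex] at hlt
        exact Or.inr ⟨hz', hlt⟩
      · rw [hey z' hzx] at hlt
        exact Or.inl ⟨hv, z', hz', hlt⟩
    · rintro (⟨hv, z', hz', hlt⟩ | ⟨hv, hlt⟩)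
      · have hvx : v ≠ x := by rintro rfl; omega
        refine ⟨hv, z', hz', ?_⟩
        have hzx : z' ≠ x := by
          rintro rfl
          rw [h0] at hlt
          omega
        rw [hey v hvx, hey z' hzx]
        exact hlt
      · have h1 := hcov hv
        have hvx : v ≠ x := by rintro rfl; omega
        refine ⟨by omega, x, hv, ?_⟩
        rw [hey v hvx, hex]
        exact hlt
  have hchi : chi (AL i e') (AU i e') S = chi (AL i e) (AU i e) S *
      (if ∀ v ∈ uc x, e v < a → v ∈ S then 1 else 0) := by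
    unfold chi
    rw [hAU]
    have h1 : AL i e' ⊆ S ↔ AL i e ⊆ S ∧ ∀ v ∈ uc x, e v < a → v ∈ S := by
      constructor
      · intro h
        exact ⟨fun v hv => h ((hAL v).2 (Or.inl hv)), fun v hv hlt =>
          h ((hAL v).2 (Or.inr ⟨mem_uc.1 hv, hlt⟩))⟩
      · rintro ⟨h2, h3⟩ v hv
        rcases (hAL v).1 hv with h4 | ⟨h4, h5⟩
        · exact h2 h4
        · exact h3 v (mem_uc.2 h4) h5
    by_cases hc : ∀ v ∈ uc x, e v < a → v ∈ S
    · rw [if_pos hc, mul_one]
      refine if_congr ?_ rfl rfl
      rw [h1]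
      exact ⟨fun h => ⟨h.1.1, h.2⟩, fun h => ⟨⟨h.1, hc⟩, h.2⟩⟩
    · rw [if_neg hc, mul_zero, if_neg]
      intro h
      exact hc (h1.1 h.1).2
  unfold Fe
  rw [hchi]
  unfold wtL
  have hcw : cw i e' = cw i e * (if ∀ v ∈ uc x, e v < a then dd else 1) := by
    unfold cw
    rw [hAdmL, hAdmU, haL, haU, hpU, hpL]
    by_cases hc : AdmL i e ∧ AdmU i e
    · rw [if_pos hc, if_pos hc]
      split_ifs with h1
      · ring
      · ring
    · rw [if_neg hc, if_neg hc, zero_mul]
  rw [hcw]
  ring

end Pool.Agent.GaussPoset.Win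

end

/-! From `Pool.Agent.W_448win_h16.FactC` -/

section

/-! Raising the label of an upper near element. -/

namespace Pool.Agent.GaussPoset.Win

set_option linter.unusedSectionVars false

open Finset

universe u

variable {P : Type u} [Fintype P] [PartialOrder P] [DecidableEq P] {r : ℕ}

/-- Mirror image of `factL`: an untouched upper near element `x` with label `0` is raised to `b`.
Its upper covers have label `0`, they have `GD` before and after. `x`: `FU` false before and after,
`GD` true before (`dc_nonempty`, `lev x + 1 = i ≤ r`), after iff some site `v` below `x` has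
`b ≤ e v`. `pU` grows by one iff all sites below have label `< b` (this gives the factor
`xi * dd`). A site `v` has `FU` after iff it had it before or `v ⋖ x` and `e v < b`. -/
theorem factU (H : Gr P r) {i : ℕ} (hi : i ≤ r) {e : P → ℕ} {x : P} (hx : lev x + 1 = i)
    (hu : ∀ y, x ⋖ y → e y = 0) (h0 : e x = 0) (b : ℕ) (S : Finset P) :
    Fe i (e + Pi.single x b) S = Fe i e S * wtU e x b S := by
  classical
  obtain ⟨e', he'⟩ : ∃ e', e' = e + Pi.single x b := ⟨_, rfl⟩
  rw [← he']
  have hex : e' x = b := by rw [he', Pi.add_apply, Pi.single_eq_same, h0, zero_add]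
  have hey : ∀ y, y ≠ x → e' y = e y := fun y hy => by
    rw [he', Pi.add_apply, Pi.single_eq_of_ne hy, add_zero]
  have hcov : ∀ {p q : P}, p ⋖ q → lev p = lev q + 1 := fun h => (H.covBy_iff.mp h).2
  have hFUx : ¬ FU e' x := by
    rintro ⟨z', hz', hlt⟩
    have hne : z' ≠ x := by
      rintro rfl
      exact hz'.1.false
    rw [hey z' hne, hu z' hz'] at hlt
    omega
  have hFUx0 : ¬ FU e x := by
    rintro ⟨z', hz', hlt⟩
    rw [hu z' hz'] at hlt
    omega
  obtain ⟨y0, hy0⟩ := dc_nonempty H (x := x) (by omega)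
  have hGDx0 : GD e x := ⟨y0, mem_dc.1 hy0, by rw [h0]; exact Nat.zero_le _⟩
  have hFU : ∀ z, lev z < i → (FU e' z ↔ FU e z) := by
    intro z hz
    by_cases hzx : z = x
    · subst hzx
      exact iff_of_false hFUx hFUx0
    · unfold FU
      refine exists_congr fun z' => and_congr_right fun hz' => ?_
      have hne : z' ≠ x := by
        rintro rfl
        have := hcov hz'
        omega
      rw [hey z hzx, hey z' hne]
  have hGD : ∀ z, z ≠ x → (GD e' z ↔ GD e z) := by
    intro z hzx
    by_cases hc : x ⋖ z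
    · exact iff_of_true ⟨x, hc, by rw [hey z hzx, hu z hc]; exact Nat.zero_le _⟩
        ⟨x, hc, by rw [hu z hc]; exact Nat.zero_le _⟩
    · unfold GD
      refine exists_congr fun y => and_congr_right fun hy => ?_
      have hne : y ≠ x := by
        rintro rfl
        exact hc hy
      rw [hey z hzx, hey y hne]
  have hGDx : GD e' x ↔ ¬ ∀ v ∈ dc x, e v < b := by
    unfold GD
    push Not
    refine exists_congr fun v => ?_
    rw [mem_dc]
    refine and_congr_right fun hv => ?_
    have hne : v ≠ x := by
      rintro rfl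
      exact hv.1.false
    rw [hex, hey v hne]
  have hAdmU : AdmU i e' ↔ AdmU i e := by
    unfold AdmU
    refine forall_congr' fun z => forall_congr' fun hz => not_congr ?_
    by_cases hzx : z = x
    · subst hzx
      exact iff_of_false (fun h => hFUx h.1) (fun h => hFUx0 h.1)
    · rw [hFU z hz, hGD z hzx]
  have hFD : ∀ z, i ≤ lev z → (FD e' z ↔ FD e z) := by
    intro z hz
    unfold FD
    refine exists_congr fun y => and_congr_right fun hy => ?_
    have h1 := hcov hy
    rw [hey z (by rintro rfl; omega), hey y (by rintro rfl; omega)]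
  have hGU : ∀ z, i < lev z → (GU e' z ↔ GU e z) := by
    intro z hz
    unfold GU
    refine exists_congr fun y => and_congr_right fun hy => ?_
    have h1 := hcov hy
    rw [hey z (by rintro rfl; omega), hey y (by rintro rfl; omega)]
  have hAdmL : AdmL i e' ↔ AdmL i e := by
    unfold AdmL
    refine forall_congr' fun z => forall_congr' fun hz => not_congr ?_
    rw [hFD z hz.le, hGU z hz]
  have haU : aU i e' = aU i e := by
    unfold aU
    refine congrArg _ (filter_congr fun z _ => and_congr_right fun hz => ?_)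
    rw [hFU z hz]
  have haL : aL i e' = aL i e := by
    unfold aL
    refine congrArg _ (filter_congr fun z _ => and_congr_right fun hz => ?_)
    rw [hFD z hz.le]
  have hpL : pL i e' = pL i e := by
    unfold pL
    refine congrArg _ (filter_congr fun z _ => and_congr_right fun hz => ?_)
    rw [hFD z hz.le, hGU z hz]
  have hpU : pU i e' = pU i e + if ∀ v ∈ dc x, e v < b then 1 else 0 := by
    unfold pU
    have h1 : univ.filter (fun z : P => lev z < i ∧ ¬ FU e z ∧ ¬ GD e z) =
        (univ.filter (fun z : P => lev z < i ∧ ¬ FU e' z ∧ ¬ GD e' z)).erase x := by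
      ext z
      rw [mem_erase, mem_filter, mem_filter]
      by_cases hzx : z = x
      · subst hzx
        exact iff_of_false (fun h => h.2.2.2 hGDx0) (fun h => h.1 rfl)
      · constructor
        · rintro ⟨h2, h3, h4, h5⟩
          exact ⟨hzx, h2, h3, by rw [hFU z h3]; exact h4, by rw [hGD z hzx]; exact h5⟩
        · rintro ⟨-, h2, h3, h4, h5⟩
          exact ⟨h2, h3, by rw [← hFU z h3]; exact h4, by rw [← hGD z hzx]; exact h5⟩
    rw [h1]
    by_cases hc : ∀ v ∈ dc x, e v < b
    · rw [if_pos hc, card_erase_add_one]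
      rw [mem_filter]
      refine ⟨mem_univ _, by omega, hFUx, ?_⟩
      rw [hGDx]
      exact not_not.2 hc
    · rw [if_neg hc, add_zero, erase_eq_of_notMem]
      intro h2
      rw [mem_filter] at h2
      exact h2.2.2.2 (hGDx.2 hc)
  have hAL : AL i e' = AL i e := by
    unfold AL
    refine filter_congr fun z hz => ?_
    rw [mem_lv] at hz
    rw [hFD z hz.ge]
  have hAU : ∀ v, v ∈ AU i e' ↔ v ∈ AU i e ∨ (v ⋖ x ∧ e v < b) := by
    intro v
    unfold AU
    rw [mem_filter, mem_filter, mem_lv]
    constructor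
    · rintro ⟨hv, z', hz', hlt⟩
      have hvx : v ≠ x := by rintro rfl; omega
      rw [hey v hvx] at hlt
      by_cases hzx : z' = x
      · subst hzx
        rw [hex] at hlt
        exact Or.inr ⟨hz', hlt⟩
      · rw [hey z' hzx] at hlt
        exact Or.inl ⟨hv, z', hz', hlt⟩
    · rintro (⟨hv, z', hz', hlt⟩ | ⟨hv, hlt⟩)
      · have hvx : v ≠ x := by rintro rfl; omega
        refine ⟨hv, z', hz', ?_⟩
        have hzx : z' ≠ x := by
          rintro rfl
          rw [h0] at hlt
          omega
        rw [hey v hvx, hey z' hzx]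
        exact hlt
      · have h1 := hcov hv
        have hvx : v ≠ x := by rintro rfl; omega
        refine ⟨by omega, x, hv, ?_⟩
        rw [hey v hvx, hex]
        exact hlt
  have hchi : chi (AL i e') (AU i e') S = chi (AL i e) (AU i e) S *
      (if ∀ v ∈ dc x, e v < b → v ∉ S then 1 else 0) := by
    unfold chi
    rw [hAL]
    have h1 : Disjoint (AU i e') S ↔ Disjoint (AU i e) S ∧ ∀ v ∈ dc x, e v < b → v ∉ S := by
      rw [disjoint_left, disjoint_left]
      constructor
      · intro h
        exact ⟨fun v hv => h ((hAU v).2 (Or.inl hv)), fun v hv hlt =>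
          h ((hAU v).2 (Or.inr ⟨mem_dc.1 hv, hlt⟩))⟩
      · rintro ⟨h2, h3⟩ v hv
        rcases (hAU v).1 hv with h4 | ⟨h4, h5⟩
        · exact h2 h4
        · exact h3 v (mem_dc.2 h4) h5
    by_cases hc : ∀ v ∈ dc x, e v < b → v ∉ S
    · rw [if_pos hc, mul_one]
      refine if_congr ?_ rfl rfl
      rw [h1]
      exact ⟨fun h => ⟨h.1, h.2.1⟩, fun h => ⟨h.1, h.2, hc⟩⟩
    · rw [if_neg hc, mul_zero, if_neg]
      intro h
      exact hc (h1.1 h.2).2
  unfold Fe
  rw [hchi]
  unfold wtU
  have hcw : cw i e' = cw i e * (if ∀ v ∈ dc x, e v < b then xi * dd else 1) := by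
    unfold cw
    rw [hAdmL, hAdmU, haL, haU, hpU, hpL]
    by_cases hc : AdmL i e ∧ AdmU i e
    · rw [if_pos hc, if_pos hc]
      split_ifs with h1
      · ring
      · ring
    · rw [if_neg hc, if_neg hc, zero_mul]
  rw [hcw]
  ring

/-- `factL` and `factU` together -/
theorem fact (H : Gr P r) {i : ℕ} (hi : i ≤ r) {e : P → ℕ} {x : P} (hx : x ∈ near P i)
    (hu : x ∉ Tch i e) (h0 : e x = 0) (a : ℕ) (S : Finset P) :
    Fe i (e + Pi.single x a) S = Fe i e S * wt i e x a S := by
  rw [mem_near] at hx
  rw [mem_Tch, not_or] at hu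
  unfold wt
  rcases hx with hx | hx
  · rw [if_pos hx]
    refine factL H hx (fun z hz => ?_) h0 a S
    by_contra hne
    exact hu.1 ⟨hx, z, hz, Nat.pos_of_ne_zero hne⟩
  · rw [if_neg (by omega)]
    refine factU H hi hx (fun y hy => ?_) h0 a S
    by_contra hne
    exact hu.2 ⟨hx, y, hy, Nat.pos_of_ne_zero hne⟩

end Pool.Agent.GaussPoset.Win

end

/-! From `Pool.Agent.W_448win_h16.FactD` -/

section

/-! Several near elements. -/

namespace Pool.Agent.GaussPoset.Win

set_option linter.unusedSectionVars false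

open Finset

universe u

variable {P : Type u} [Fintype P] [PartialOrder P] [DecidableEq P] {r : ℕ}

lemma FactD_Tch (H : Gr P r) {i : ℕ} {e l : P → ℕ} (hl : ∀ x, x ∉ near P i → l x = 0) {x : P} :
    x ∈ Tch i (e + l) ↔ x ∈ Tch i e := by
  have key : ∀ z, lev z = i + 2 ∨ lev z + 2 = i → (e + l) z = e z := by
    intro z hz
    rw [Pi.add_apply, hl z (fun h => ?_), add_zero]
    rw [mem_near] at h
    omega
  rw [mem_Tch, mem_Tch]
  constructor
  · rintro (⟨h, z, hz, h0⟩ | ⟨h, z, hz, h0⟩)
    · have h1 := (H.covBy_iff.mp hz).2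
      rw [key z (by omega)] at h0
      exact Or.inl ⟨h, z, hz, h0⟩
    · have h1 := (H.covBy_iff.mp hz).2
      rw [key z (by omega)] at h0
      exact Or.inr ⟨h, z, hz, h0⟩
  · rintro (⟨h, z, hz, h0⟩ | ⟨h, z, hz, h0⟩)
    · have h1 := (H.covBy_iff.mp hz).2
      rw [← key z (by omega)] at h0
      exact Or.inl ⟨h, z, hz, h0⟩
    · have h1 := (H.covBy_iff.mp hz).2
      rw [← key z (by omega)] at h0
      exact Or.inr ⟨h, z, hz, h0⟩

lemma FactD_wt (H : Gr P r) {i : ℕ} {e l : P → ℕ} (hl : ∀ x, x ∉ near P i → l x = 0) {x : P}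
    (hx : x ∈ near P i) (a : ℕ) (S : Finset P) : wt i (e + l) x a S = wt i e x a S := by
  have key : ∀ z, lev z = i → (e + l) z = e z := by
    intro z hz
    rw [Pi.add_apply, hl z (fun h => ?_), add_zero]
    rw [mem_near] at h
    omega
  rw [mem_near] at hx
  unfold wt
  by_cases h : lev x = i + 1
  · rw [if_pos h, if_pos h]
    unfold wtL
    have e1 : ∀ v ∈ uc x, (e + l) v = e v := fun v hv => key v (by
      have := lev_uc H hv
      omega)
    have e2 : (∀ v ∈ uc x, (e + l) v < a) ↔ (∀ v ∈ uc x, e v < a) := by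
      constructor
      · intro h1 v hv
        rw [← e1 v hv]
        exact h1 v hv
      · intro h1 v hv
        rw [e1 v hv]
        exact h1 v hv
    have e3 : (∀ v ∈ uc x, (e + l) v < a → v ∈ S) ↔ (∀ v ∈ uc x, e v < a → v ∈ S) := by
      constructor
      · intro h1 v hv
        rw [← e1 v hv]
        exact h1 v hv
      · intro h1 v hv
        rw [e1 v hv]
        exact h1 v hv
    simp only [e2, e3]
  · rw [if_neg h, if_neg h]
    unfold wtU
    have e1 : ∀ v ∈ dc x, (e + l) v = e v := fun v hv => key v (by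
      have := lev_dc H hv
      omega)
    have e2 : (∀ v ∈ dc x, (e + l) v < a) ↔ (∀ v ∈ dc x, e v < a) := by
      constructor
      · intro h1 v hv
        rw [← e1 v hv]
        exact h1 v hv
      · intro h1 v hv
        rw [e1 v hv]
        exact h1 v hv
    have e3 : (∀ v ∈ dc x, (e + l) v < a → v ∉ S) ↔ (∀ v ∈ dc x, e v < a → v ∉ S) := by
      constructor
      · intro h1 v hv
        rw [← e1 v hv]
        exact h1 v hv
      · intro h1 v hv
        rw [e1 v hv]
        exact h1 v hv
    simp only [e2, e3]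

/-- Several near elements at once: induction on `R`. Adding labels on near elements changes neither
`Tch` (it depends on labels at levels `i+2` and `i-2`) nor `wt i e x` (it depends on labels of
sites). In the step for `insert x R'` write
`l = l' + Pi.single x (l x)` with `l'` zero at `x`, apply the induction hypothesis to `l'` and
`fact` to `e + l'`. -/
theorem fact_many (H : Gr P r) {i : ℕ} (hi : i ≤ r) {e : P → ℕ} (R : Finset P)
    (hR : R ⊆ near P i) (hT : ∀ x ∈ R, x ∉ Tch i e) (h0 : ∀ x ∈ R, e x = 0) (l : P → ℕ)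
    (hl : ∀ x, x ∉ R → l x = 0) (S : Finset P) :
    Fe i (e + l) S = Fe i e S * ∏ x ∈ R, wt i e x (l x) S := by
  induction R using Finset.induction_on generalizing l with
  | empty =>
    have h1 : l = 0 := funext fun x => hl x (Finset.notMem_empty x)
    rw [h1, add_zero, Finset.prod_empty, mul_one]
  | insert x R hx ih =>
    have hne : ∀ y, y ∉ near P i → Function.update l x 0 y = 0 := by
      intro y hy
      by_cases h : y = x
      · rw [h, Function.update_self]
      · rw [Function.update_of_ne h]
        exact hl y (fun h2 => hy (hR h2))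
    have hl' : ∀ y, y ∉ R → Function.update l x 0 y = 0 := by
      intro y hy
      by_cases h : y = x
      · rw [h, Function.update_self]
      · rw [Function.update_of_ne h]
        refine hl y (fun h2 => ?_)
        rcases Finset.mem_insert.mp h2 with h3 | h3
        · exact h h3
        · exact hy h3
    have h1 := ih (fun y hy => hR (Finset.mem_insert_of_mem hy))
      (fun y hy => hT y (Finset.mem_insert_of_mem hy))
      (fun y hy => h0 y (Finset.mem_insert_of_mem hy)) (Function.update l x 0) hl'
    have hxn : x ∈ near P i := hR (Finset.mem_insert_self x R)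
    have h2 := fact H hi (e := e + Function.update l x 0) hxn
      (fun h => hT x (Finset.mem_insert_self x R) ((FactD_Tch H hne).mp h))
      (by rw [Pi.add_apply, Function.update_self, add_zero]
          exact h0 x (Finset.mem_insert_self x R)) (l x) S
    have h3 : e + l = e + Function.update l x 0 + Pi.single x (l x) := by
      funext y
      by_cases h : y = x
      · subst h
        simp
      · simp [Function.update_of_ne h, Pi.single_eq_of_ne h]
    rw [h3, h2, h1, FactD_wt H hne hxn, Finset.prod_insert hx]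
    have h4 : ∏ y ∈ R, wt i e y (Function.update l x 0 y) S = ∏ y ∈ R, wt i e y (l y) S := by
      refine Finset.prod_congr rfl fun y hy => ?_
      have h5 : y ≠ x := by
        rintro rfl
        exact hx hy
      rw [Function.update_of_ne h5]
    rw [h4]
    ring

end Pool.Agent.GaussPoset.Win

end

/-! From `Pool.Agent.W_448win_h16.ExpA` -/

section

/-! Weights of near elements. -/

namespace Pool.Agent.GaussPoset.Win

set_option linter.unusedSectionVars false

open Finset

universe u

variable {P : Type u} [Fintype P] [PartialOrder P] [DecidableEq P] {r : ℕ}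

/-- all labels below and above the window are zero: all data are trivial (`low_none`, `upp_none`) -/
theorem Fe_sites (H : Gr P r) {i : ℕ} (hi : i ≤ r) {e : P → ℕ} (h : ∀ z, lev z ≠ i → e z = 0)
    (S : Finset P) : Fe i e S = 1 := by
  obtain ⟨a1, a2, a3, a4⟩ := low_none H (i := i) (e := e) (fun z hz => h z (by omega))
  obtain ⟨b1, b2, b3, b4⟩ := upp_none H hi (e := e) (fun z hz => h z (by omega))
  unfold Fe cw chi
  rw [if_pos ⟨a1, b1⟩, a2, a3, a4, b2, b3, b4]
  simp

/-- `wt i e x 0 = 1` for a near element (`uc_nonempty`, `dc_nonempty`) -/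
theorem wt_zero (H : Gr P r) {i : ℕ} (hi : i ≤ r) {x : P} (hx : x ∈ near P i) (e : P → ℕ)
    (S : Finset P) : wt i e x 0 S = 1 := by
  unfold wt
  rw [mem_near] at hx
  split_ifs with h
  · unfold wtL
    obtain ⟨v, hv⟩ := uc_nonempty H (x := x) (by omega)
    rw [if_neg (fun h1 => absurd (h1 v hv) (Nat.not_lt_zero _)),
      if_pos (fun v _ h1 => absurd h1 (Nat.not_lt_zero _)), mul_one]
  · unfold wtU
    obtain ⟨v, hv⟩ := dc_nonempty H (x := x) (by omega)
    rw [if_neg (fun h1 => absurd (h1 v hv) (Nat.not_lt_zero _)),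
      if_pos (fun v _ h1 => absurd h1 (Nat.not_lt_zero _)), mul_one]

lemma ExpA_wtL {e : P → ℕ} {w : P} {a : ℕ} (S : Finset P) :
    wtL e w a S = (if ∀ v ∈ uc w, e v < a then dd else 1) *
      chi ((uc w).filter (fun v => e v < a)) ∅ S := by
  unfold wtL chi
  congr 1
  refine if_congr ?_ rfl rfl
  constructor
  · intro h
    refine ⟨fun v hv => ?_, Finset.disjoint_empty_left _⟩
    rw [Finset.mem_filter] at hv
    exact h v hv.1 hv.2
  · intro h v hv hv2
    exact h.1 (Finset.mem_filter.2 ⟨hv, hv2⟩)

lemma ExpA_wtU {e : P → ℕ} {u : P} {b : ℕ} (S : Finset P) :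
    wtU e u b S = (if ∀ v ∈ dc u, e v < b then xi * dd else 1) *
      chi ∅ ((dc u).filter (fun v => e v < b)) S := by
  unfold wtU chi
  congr 1
  refine if_congr ?_ rfl rfl
  constructor
  · intro h
    refine ⟨Finset.empty_subset _, ?_⟩
    rw [Finset.disjoint_left]
    intro v hv
    rw [Finset.mem_filter] at hv
    exact h v hv.1 hv.2
  · intro h v hv hv2
    exact Finset.disjoint_left.1 h.2 (Finset.mem_filter.2 ⟨hv, hv2⟩)

lemma ExpA_wt_low {i : ℕ} {x : P} (hx : lev x = i + 1) (e : P → ℕ) (a : ℕ) :
    wt i e x a = wtL e x a := by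
  funext S
  unfold wt
  rw [if_pos hx]

lemma ExpA_wt_upp {i : ℕ} {x : P} (hx : lev x + 1 = i) (e : P → ℕ) (a : ℕ) :
    wt i e x a = wtU e x a := by
  funext S
  unfold wt
  rw [if_neg (by omega)]

/-- the labels on `R` set to zero -/
def er (R : Finset P) (e : P → ℕ) : P → ℕ := fun x => if x ∈ R then 0 else e x

/-- `fact_many` for `er R e` and `l` the restriction of `e` to `R` -/
theorem peel (H : Gr P r) {i : ℕ} (hi : i ≤ r) {R : Finset P} (hR : R ⊆ near P i) {e : P → ℕ}
    (hT : ∀ x ∈ R, x ∉ Tch i e) (S : Finset P) :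
    Fe i e S = Fe i (er R e) S * ∏ x ∈ R, wt i e x (e x) S := by
  have hsum : er R e + (fun x => if x ∈ R then e x else 0) = e := by
    funext x
    rw [Pi.add_apply]
    unfold er
    by_cases h : x ∈ R
    · rw [if_pos h, if_pos h, zero_add]
    · rw [if_neg h, if_neg h, add_zero]
  have hpos : ∀ x, 0 < er R e x → 0 < e x := by
    intro x hx
    unfold er at hx
    split_ifs at hx with h
    · exact absurd hx (lt_irrefl _)
    · exact hx
  have h1 := fact_many H hi (e := er R e) R hR
    (by
      intro x hx hx2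
      refine hT x hx ?_
      rw [mem_Tch] at hx2 ⊢
      rcases hx2 with ⟨h1, z, h2, h3⟩ | ⟨h1, y, h2, h3⟩
      · exact Or.inl ⟨h1, z, h2, hpos z h3⟩
      · exact Or.inr ⟨h1, y, h2, hpos y h3⟩)
    (by
      intro x hx
      unfold er
      rw [if_pos hx])
    (fun x => if x ∈ R then e x else 0)
    (by
      intro x hx
      change (if x ∈ R then e x else 0) = 0
      rw [if_neg hx]) S
  rw [hsum] at h1
  rw [h1]
  congr 1
  refine Finset.prod_congr rfl fun x hx => ?_
  have h2 : (if x ∈ R then e x else 0) = e x := if_pos hx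
  change wt i (er R e) x (if x ∈ R then e x else 0) S = wt i e x (e x) S
  rw [h2]
  have hsite : ∀ v : P, lev v = i → er R e v = e v := by
    intro v hv
    unfold er
    rw [if_neg]
    intro hvR
    have := mem_near.1 (hR hvR)
    omega
  have hxn := mem_near.1 (hR hx)
  unfold wt
  split_ifs with h3
  · have hu : ∀ v ∈ uc x, er R e v = e v := fun v hv => hsite v (by
      have := lev_uc H hv
      omega)
    unfold wtL
    congr 1
    · refine if_congr (forall₂_congr fun v hv => ?_) rfl rfl
      rw [hu v hv]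
    · refine if_congr (forall₂_congr fun v hv => ?_) rfl rfl
      rw [hu v hv]
  · have hu : ∀ v ∈ dc x, er R e v = e v := fun v hv => hsite v (by
      have := lev_dc H hv
      omega)
    unfold wtU
    congr 1
    · refine if_congr (forall₂_congr fun v hv => ?_) rfl rfl
      rw [hu v hv]
    · refine if_congr (forall₂_congr fun v hv => ?_) rfl rfl
      rw [hu v hv]

end Pool.Agent.GaussPoset.Win

end

/-! From `Pool.Agent.W_448win_h16.EtC` -/

section

/-! Energy two: the terms of near elements and sites. -/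

namespace Pool.Agent.GaussPoset.Win

set_option linter.unusedSectionVars false

open Finset

universe u

variable {P : Type u} [Fintype P] [PartialOrder P] [DecidableEq P] {r : ℕ}

lemma EtC_sg (a x : P) : sg a x = if x = a then 1 else 0 := by
  unfold sg
  rw [Pi.single_apply]

lemma EtC_sg2 (a b x : P) :
    (sg a + sg b : P → ℕ) x = (if x = a then 1 else 0) + (if x = b then 1 else 0) := by
  rw [Pi.add_apply, EtC_sg, EtC_sg]

lemma EtC_uc_sub (H : Gr P r) {i : ℕ} {w : P} (hw : lev w = i + 1) : uc w ⊆ lv P i := by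
  intro v hv
  have := lev_uc H hv
  rw [mem_lv]
  omega

lemma EtC_dc_sub (H : Gr P r) {i : ℕ} {u : P} (hu : lev u + 1 = i) : dc u ⊆ lv P i := by
  intro v hv
  have := lev_dc H hv
  rw [mem_lv]
  omega

/-- a configuration supported on the sites and on a set of near elements -/
lemma EtC_peel (H : Gr P r) {i : ℕ} (hi : i ≤ r) {R : Finset P} (hR : R ⊆ near P i)
    {e : P → ℕ} (h : ∀ z, lev z ≠ i → z ∉ R → e z = 0) (S : Finset P) :
    Fe i e S = ∏ x ∈ R, wt i e x (e x) S := by
  have hfar : ∀ z, z ∉ near P i → lev z ≠ i → e z = 0 := fun z hz hz2 =>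
    h z hz2 fun hzR => hz (hR hzR)
  rw [peel H hi hR ?_ S, Fe_sites H hi ?_ S, one_mul]
  · intro z hz
    unfold er
    split_ifs with h1
    · rfl
    · exact h z hz h1
  · intro x _ hxT
    rw [mem_Tch] at hxT
    rcases hxT with ⟨h1, z, h2, h3⟩ | ⟨h1, z, h2, h3⟩
    · have h4 := (H.covBy_iff.1 h2).2
      rw [hfar z (by rw [mem_near]; omega) (by omega)] at h3
      exact absurd h3 (lt_irrefl _)
    · have h4 := (H.covBy_iff.1 h2).2
      rw [hfar z (by rw [mem_near]; omega) (by omega)] at h3
      exact absurd h3 (lt_irrefl _)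

lemma EtC_chi_mul (B C B' C' S : Finset P) :
    chi B C S * chi B' C' S = chi (B ∪ B') (C ∪ C') S := by
  unfold chi
  by_cases h1 : B ⊆ S ∧ Disjoint C S
  · by_cases h2 : B' ⊆ S ∧ Disjoint C' S
    · rw [if_pos h1, if_pos h2, if_pos, mul_one]
      exact ⟨union_subset h1.1 h2.1, disjoint_union_left.2 ⟨h1.2, h2.2⟩⟩
    · rw [if_neg h2, mul_zero, if_neg]
      rintro ⟨h3, h4⟩
      exact h2 ⟨(subset_union_right).trans h3, (disjoint_union_left.1 h4).2⟩
  · rw [if_neg h1, zero_mul, if_neg]
    rintro ⟨h3, h4⟩
    exact h1 ⟨(subset_union_left).trans h3, (disjoint_union_left.1 h4).1⟩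

/-- the term of a configuration whose function is a multiple of a `chi` -/
lemma EtC_trm {i : ℕ} {e : P → ℕ} {c : A} {B C : Finset P} (hB : B ⊆ lv P i)
    (hC : C ⊆ lv P i) (hf : ∀ S, Fe i e S = c * chi B C S) :
    trm i e = c * if Disjoint B C then xx ^ B.card * dd ^ ((lv P i).card - B.card - C.card)
      else 0 := by
  rw [← II_chi hB hC, ← II_Fe]
  unfold II
  rw [Finset.mul_sum]
  refine Finset.sum_congr rfl fun S _ => ?_
  rw [hf S]
  ring

/-- lower near element, no labels on its sites -/
lemma EtC_wL {e : P → ℕ} {w : P} {a : ℕ} (h : ∀ v ∈ uc w, e v < a) (S : Finset P) :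
    wtL e w a S = dd * chi (uc w) ∅ S := by
  rw [ExpA_wtL, if_pos h, Finset.filter_true_of_mem h]

/-- upper near element, no labels on its sites -/
lemma EtC_wU {e : P → ℕ} {u : P} {a : ℕ} (h : ∀ v ∈ dc u, e v < a) (S : Finset P) :
    wtU e u a S = xi * dd * chi ∅ (dc u) S := by
  rw [ExpA_wtU, if_pos h, Finset.filter_true_of_mem h]

/-- `Fe_sites` -/
theorem trm_ss (H : Gr P r) {i : ℕ} (hi : i ≤ r) {v v' : P} (hv : lev v = i)
    (hv' : lev v' = i) : trm i (sg v + sg v') = dd ^ (lv P i).card := by
  have hf : ∀ S, Fe i (sg v + sg v') S = 1 * chi ∅ ∅ S := by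
    intro S
    rw [Fe_sites H hi]
    · unfold chi
      rw [if_pos ⟨empty_subset _, disjoint_empty_left _⟩, mul_one]
    · intro z hz
      rw [EtC_sg2, if_neg (by rintro rfl; exact hz hv), if_neg (by rintro rfl; exact hz hv')]
  rw [EtC_trm (empty_subset _) (empty_subset _) hf, if_pos (disjoint_empty_left _)]
  simp

/-- Two different lower near elements: `fact` twice, starting with `Fe_sites` for `e = 0`: the weights are
`dd * [uc w ⊆ S]`, so the function is `dd ^ 2 * chi (uc w ∪ uc w') ∅`; `II_Fe`, `II_chi`. -/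
theorem trm_LL (H : Gr P r) {i : ℕ} (hi : 1 ≤ i) (hi2 : i + 1 ≤ r) {w w' : P}
    (hw : lev w = i + 1) (hw' : lev w' = i + 1) (hne : w ≠ w') :
    trm i (sg w + sg w') = xx ^ (uc w ∪ uc w').card *
      dd ^ (2 + ((lv P i).card - (uc w ∪ uc w').card)) := by
  have hs : ∀ v, lev v = i → (sg w + sg w' : P → ℕ) v = 0 := by
    intro v hv
    rw [EtC_sg2, if_neg (by rintro rfl; omega), if_neg (by rintro rfl; omega)]
  have h1 : (sg w + sg w' : P → ℕ) w = 1 := by
    rw [EtC_sg2, if_pos rfl, if_neg hne]
  have h2 : (sg w + sg w' : P → ℕ) w' = 1 := by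
    rw [EtC_sg2, if_neg hne.symm, if_pos rfl]
  have hf : ∀ S, Fe i (sg w + sg w') S = (dd * dd) * chi (uc w ∪ uc w') ∅ S := by
    intro S
    rw [EtC_peel H (by omega) (R := {w, w'}), Finset.prod_pair hne, h1, h2, ExpA_wt_low hw,
      ExpA_wt_low hw', EtC_wL, EtC_wL]
    · have h3 := EtC_chi_mul (uc w) ∅ (uc w') ∅ S
      rw [union_empty] at h3
      rw [← h3]
      ring
    · intro v hv
      rw [hs v (mem_lv.1 (EtC_uc_sub H hw' hv))]
      exact one_pos
    · intro v hv
      rw [hs v (mem_lv.1 (EtC_uc_sub H hw hv))]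
      exact one_pos
    · intro x hx
      rw [mem_insert, mem_singleton] at hx
      rw [mem_near]
      rcases hx with rfl | rfl
      · exact Or.inl hw
      · exact Or.inl hw'
    · intro z _ hz
      rw [mem_insert, mem_singleton] at hz
      push Not at hz
      rw [EtC_sg2, if_neg hz.1, if_neg hz.2]
  rw [EtC_trm (union_subset (EtC_uc_sub H hw) (EtC_uc_sub H hw')) (empty_subset _) hf,
    if_pos (disjoint_empty_right _), card_empty, Nat.sub_zero, pow_add]
  ring

/-- label two on one lower near element: weight `dd * [uc w ⊆ S]` -/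
theorem trm_L2 (H : Gr P r) {i : ℕ} (hi : 1 ≤ i) (hi2 : i + 1 ≤ r) {w : P}
    (hw : lev w = i + 1) :
    trm i (sg w + sg w) = xx ^ (uc w).card * dd ^ (1 + ((lv P i).card - (uc w).card)) := by
  have hs : ∀ v, lev v = i → (sg w + sg w : P → ℕ) v = 0 := by
    intro v hv
    rw [EtC_sg2, if_neg (by rintro rfl; omega)]
  have h1 : (sg w + sg w : P → ℕ) w = 2 := by
    rw [EtC_sg2, if_pos rfl]
  have hf : ∀ S, Fe i (sg w + sg w) S = dd * chi (uc w) ∅ S := by
    intro S
    rw [EtC_peel H (by omega) (R := {w}), Finset.prod_singleton, h1, ExpA_wt_low hw, EtC_wL]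
    · intro v hv
      rw [hs v (mem_lv.1 (EtC_uc_sub H hw hv))]
      exact two_pos
    · intro x hx
      rw [mem_singleton] at hx
      rw [mem_near, hx]
      exact Or.inl hw
    · intro z _ hz
      rw [mem_singleton] at hz
      rw [EtC_sg2, if_neg hz]
  rw [EtC_trm (EtC_uc_sub H hw) (empty_subset _) hf,
    if_pos (disjoint_empty_right _), card_empty, Nat.sub_zero, pow_add]
  ring

/-- two different upper near elements: `(xi * dd) ^ 2 * chi ∅ (dc u ∪ dc u')` -/
theorem trm_UU (H : Gr P r) {i : ℕ} (hi : 1 ≤ i) (hi2 : i + 1 ≤ r) {u u' : P}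
    (hu : lev u + 1 = i) (hu' : lev u' + 1 = i) (hne : u ≠ u') :
    trm i (sg u + sg u') = xi ^ 2 * dd ^ (2 + ((lv P i).card - (dc u ∪ dc u').card)) := by
  have hs : ∀ v, lev v = i → (sg u + sg u' : P → ℕ) v = 0 := by
    intro v hv
    rw [EtC_sg2, if_neg (by rintro rfl; omega), if_neg (by rintro rfl; omega)]
  have h1 : (sg u + sg u' : P → ℕ) u = 1 := by
    rw [EtC_sg2, if_pos rfl, if_neg hne]
  have h2 : (sg u + sg u' : P → ℕ) u' = 1 := by
    rw [EtC_sg2, if_neg hne.symm, if_pos rfl]
  have hf : ∀ S, Fe i (sg u + sg u') S =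
      ((xi * dd) * (xi * dd)) * chi ∅ (dc u ∪ dc u') S := by
    intro S
    rw [EtC_peel H (by omega) (R := {u, u'}), Finset.prod_pair hne, h1, h2, ExpA_wt_upp hu,
      ExpA_wt_upp hu', EtC_wU, EtC_wU]
    · have h3 := EtC_chi_mul ∅ (dc u) ∅ (dc u') S
      rw [union_empty] at h3
      rw [← h3]
      ring
    · intro v hv
      rw [hs v (mem_lv.1 (EtC_dc_sub H hu' hv))]
      exact one_pos
    · intro v hv
      rw [hs v (mem_lv.1 (EtC_dc_sub H hu hv))]
      exact one_pos
    · intro x hx
      rw [mem_insert, mem_singleton] at hx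
      rw [mem_near]
      rcases hx with rfl | rfl
      · exact Or.inr hu
      · exact Or.inr hu'
    · intro z _ hz
      rw [mem_insert, mem_singleton] at hz
      push Not at hz
      rw [EtC_sg2, if_neg hz.1, if_neg hz.2]
  rw [EtC_trm (empty_subset _) (union_subset (EtC_dc_sub H hu) (EtC_dc_sub H hu')) hf,
    if_pos (disjoint_empty_left _), card_empty, Nat.sub_zero, pow_add]
  ring

/-- label two on one upper near element -/
theorem trm_U2 (H : Gr P r) {i : ℕ} (hi : 1 ≤ i) (hi2 : i + 1 ≤ r) {u : P}
    (hu : lev u + 1 = i) :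
    trm i (sg u + sg u) = xi * dd ^ (1 + ((lv P i).card - (dc u).card)) := by
  have hs : ∀ v, lev v = i → (sg u + sg u : P → ℕ) v = 0 := by
    intro v hv
    rw [EtC_sg2, if_neg (by rintro rfl; omega)]
  have h1 : (sg u + sg u : P → ℕ) u = 2 := by
    rw [EtC_sg2, if_pos rfl]
  have hf : ∀ S, Fe i (sg u + sg u) S = (xi * dd) * chi ∅ (dc u) S := by
    intro S
    rw [EtC_peel H (by omega) (R := {u}), Finset.prod_singleton, h1, ExpA_wt_upp hu, EtC_wU]
    · intro v hv
      rw [hs v (mem_lv.1 (EtC_dc_sub H hu hv))]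
      exact two_pos
    · intro x hx
      rw [mem_singleton] at hx
      rw [mem_near, hx]
      exact Or.inr hu
    · intro z _ hz
      rw [mem_singleton] at hz
      rw [EtC_sg2, if_neg hz]
  rw [EtC_trm (empty_subset _) (EtC_dc_sub H hu) hf,
    if_pos (disjoint_empty_left _), card_empty, Nat.sub_zero, pow_add]
  ring

/-- one lower and one upper near element: `dd * (xi * dd) * chi (uc w) (dc u)` -/
theorem trm_LU (H : Gr P r) {i : ℕ} (hi : 1 ≤ i) (hi2 : i + 1 ≤ r) {w u : P}
    (hw : lev w = i + 1) (hu : lev u + 1 = i) :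
    trm i (sg w + sg u) = if Disjoint (uc w) (dc u) then
      xx ^ (uc w).card * xi * dd ^ (2 + ((lv P i).card - (uc w).card - (dc u).card)) else 0 := by
  have hne : w ≠ u := by
    rintro rfl
    omega
  have hs : ∀ v, lev v = i → (sg w + sg u : P → ℕ) v = 0 := by
    intro v hv
    rw [EtC_sg2, if_neg (by rintro rfl; omega), if_neg (by rintro rfl; omega)]
  have h1 : (sg w + sg u : P → ℕ) w = 1 := by
    rw [EtC_sg2, if_pos rfl, if_neg hne]
  have h2 : (sg w + sg u : P → ℕ) u = 1 := by
    rw [EtC_sg2, if_neg hne.symm, if_pos rfl]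
  have hf : ∀ S, Fe i (sg w + sg u) S = (dd * (xi * dd)) * chi (uc w) (dc u) S := by
    intro S
    rw [EtC_peel H (by omega) (R := {w, u}), Finset.prod_pair hne, h1, h2, ExpA_wt_low hw,
      ExpA_wt_upp hu, EtC_wL, EtC_wU]
    · have h3 := EtC_chi_mul (uc w) ∅ ∅ (dc u) S
      rw [union_empty, empty_union] at h3
      rw [← h3]
      ring
    · intro v hv
      rw [hs v (mem_lv.1 (EtC_dc_sub H hu hv))]
      exact one_pos
    · intro v hv
      rw [hs v (mem_lv.1 (EtC_uc_sub H hw hv))]
      exact one_pos
    · intro x hx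
      rw [mem_insert, mem_singleton] at hx
      rw [mem_near]
      rcases hx with rfl | rfl
      · exact Or.inl hw
      · exact Or.inr hu
    · intro z _ hz
      rw [mem_insert, mem_singleton] at hz
      push Not at hz
      rw [EtC_sg2, if_neg hz.1, if_neg hz.2]
  rw [EtC_trm (EtC_uc_sub H hw) (EtC_dc_sub H hu) hf]
  split_ifs
  · rw [pow_add]
    ring
  · rw [mul_zero]

/-- lower near element and site: `Fe_sites` for `sg v`, then the weight of `w` with label one: `1 * [uc w \ {v} ⊆ S]` if
`v` is above `w`, `dd * [uc w ⊆ S]` otherwise -/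
theorem trm_Lv (H : Gr P r) {i : ℕ} (hi : 1 ≤ i) (hi2 : i + 1 ≤ r) {w v : P}
    (hw : lev w = i + 1) (hv : lev v = i) :
    trm i (sg w + sg v) = if v ∈ uc w then
      xx ^ ((uc w).card - 1) * dd ^ ((lv P i).card - ((uc w).card - 1)) else
      xx ^ (uc w).card * dd ^ (1 + ((lv P i).card - (uc w).card)) := by
  have hne : w ≠ v := by
    rintro rfl
    omega
  have h1 : (sg w + sg v : P → ℕ) w = 1 := by
    rw [EtC_sg2, if_pos rfl, if_neg hne]
  have hsv : (sg w + sg v : P → ℕ) v = 1 := by
    rw [EtC_sg2, if_neg hne.symm, if_pos rfl]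
  have hs : ∀ x, lev x = i → x ≠ v → (sg w + sg v : P → ℕ) x = 0 := by
    intro x hx hxv
    rw [EtC_sg2, if_neg (by rintro rfl; omega), if_neg hxv]
  have hp : ∀ S, Fe i (sg w + sg v) S = wtL (sg w + sg v) w 1 S := by
    intro S
    rw [EtC_peel H (by omega) (R := {w}), Finset.prod_singleton, h1, ExpA_wt_low hw]
    · intro x hx
      rw [mem_singleton] at hx
      rw [mem_near, hx]
      exact Or.inl hw
    · intro z hzi hz
      rw [mem_singleton] at hz
      rw [EtC_sg2, if_neg hz, if_neg (by rintro rfl; exact hzi hv)]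
  by_cases hvw : v ∈ uc w
  · rw [if_pos hvw]
    have hfil : (uc w).filter (fun x => (sg w + sg v : P → ℕ) x < 1) = (uc w).erase v := by
      ext x
      rw [mem_filter, mem_erase]
      constructor
      · rintro ⟨h2, h3⟩
        refine ⟨?_, h2⟩
        rintro rfl
        rw [hsv] at h3
        exact absurd h3 (lt_irrefl _)
      · rintro ⟨h2, h3⟩
        refine ⟨h3, ?_⟩
        rw [hs x (mem_lv.1 (EtC_uc_sub H hw h3)) h2]
        exact one_pos
    have hf : ∀ S, Fe i (sg w + sg v) S = 1 * chi ((uc w).erase v) ∅ S := by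
      intro S
      rw [hp S, ExpA_wtL, hfil, if_neg]
      intro h2
      have h3 := h2 v hvw
      rw [hsv] at h3
      exact absurd h3 (lt_irrefl _)
    rw [EtC_trm ((erase_subset _ _).trans (EtC_uc_sub H hw)) (empty_subset _) hf,
      if_pos (disjoint_empty_right _), card_empty, Nat.sub_zero, card_erase_of_mem hvw, one_mul]
  · rw [if_neg hvw]
    have hf : ∀ S, Fe i (sg w + sg v) S = dd * chi (uc w) ∅ S := by
      intro S
      rw [hp S, EtC_wL]
      intro x hx
      rw [hs x (mem_lv.1 (EtC_uc_sub H hw hx)) (by rintro rfl; exact hvw hx)]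
      exact one_pos
    rw [EtC_trm (EtC_uc_sub H hw) (empty_subset _) hf,
      if_pos (disjoint_empty_right _), card_empty, Nat.sub_zero, pow_add]
    ring

/-- upper near element and site: weight `[dc u \ {v} ∩ S = ∅]` if `v` is below `u`, `xi * dd * [dc u ∩ S = ∅]`
otherwise -/
theorem trm_Uv (H : Gr P r) {i : ℕ} (hi : 1 ≤ i) (hi2 : i + 1 ≤ r) {u v : P}
    (hu : lev u + 1 = i) (hv : lev v = i) :
    trm i (sg u + sg v) = if v ∈ dc u then dd ^ ((lv P i).card - ((dc u).card - 1)) else
      xi * dd ^ (1 + ((lv P i).card - (dc u).card)) := by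
  have hne : u ≠ v := by
    rintro rfl
    omega
  have h1 : (sg u + sg v : P → ℕ) u = 1 := by
    rw [EtC_sg2, if_pos rfl, if_neg hne]
  have hsv : (sg u + sg v : P → ℕ) v = 1 := by
    rw [EtC_sg2, if_neg hne.symm, if_pos rfl]
  have hs : ∀ x, lev x = i → x ≠ v → (sg u + sg v : P → ℕ) x = 0 := by
    intro x hx hxv
    rw [EtC_sg2, if_neg (by rintro rfl; omega), if_neg hxv]
  have hp : ∀ S, Fe i (sg u + sg v) S = wtU (sg u + sg v) u 1 S := by
    intro S
    rw [EtC_peel H (by omega) (R := {u}), Finset.prod_singleton, h1, ExpA_wt_upp hu]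
    · intro x hx
      rw [mem_singleton] at hx
      rw [mem_near, hx]
      exact Or.inr hu
    · intro z hzi hz
      rw [mem_singleton] at hz
      rw [EtC_sg2, if_neg hz, if_neg (by rintro rfl; exact hzi hv)]
  by_cases hvu : v ∈ dc u
  · rw [if_pos hvu]
    have hfil : (dc u).filter (fun x => (sg u + sg v : P → ℕ) x < 1) = (dc u).erase v := by
      ext x
      rw [mem_filter, mem_erase]
      constructor
      · rintro ⟨h2, h3⟩
        refine ⟨?_, h2⟩
        rintro rfl
        rw [hsv] at h3
        exact absurd h3 (lt_irrefl _)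
      · rintro ⟨h2, h3⟩
        refine ⟨h3, ?_⟩
        rw [hs x (mem_lv.1 (EtC_dc_sub H hu h3)) h2]
        exact one_pos
    have hf : ∀ S, Fe i (sg u + sg v) S = 1 * chi ∅ ((dc u).erase v) S := by
      intro S
      rw [hp S, ExpA_wtU, hfil, if_neg]
      intro h2
      have h3 := h2 v hvu
      rw [hsv] at h3
      exact absurd h3 (lt_irrefl _)
    rw [EtC_trm (empty_subset _) ((erase_subset _ _).trans (EtC_dc_sub H hu)) hf,
      if_pos (disjoint_empty_left _), card_empty, Nat.sub_zero, card_erase_of_mem hvu, one_mul,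
      pow_zero, one_mul]
  · rw [if_neg hvu]
    have hf : ∀ S, Fe i (sg u + sg v) S = (xi * dd) * chi ∅ (dc u) S := by
      intro S
      rw [hp S, EtC_wU]
      intro x hx
      rw [hs x (mem_lv.1 (EtC_dc_sub H hu hx)) (by rintro rfl; exact hvu hx)]
      exact one_pos
    rw [EtC_trm (empty_subset _) (EtC_dc_sub H hu) hf,
      if_pos (disjoint_empty_left _), card_empty, Nat.sub_zero, pow_add]
    ring

end Pool.Agent.GaussPoset.Win

end
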