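import Mathlib
import Pool.Agent.W_448zz_h61.Ns
import Pool.Agent.W_448zz_h61.M009
import Pool.Agent.W_448zz_h61.M010

/-! From `Pool.Agent.W_448win_h16.EtD` -/

section

/-! Coefficients. -/

namespace Pool.Agent.GaussPoset.Win

set_option linter.unusedSectionVars false

open Finset

universe u

variable {P : Type u} [Fintype P] [PartialOrder P] [DecidableEq P] {r : ℕ}

lemma EtD_c (m : ℕ) (y : A) :
    PowerSeries.coeff m (y * dd ^ m) = PowerSeries.coeff 0 y ∧
    PowerSeries.coeff (m + 1) (y * dd ^ m) = PowerSeries.coeff 1 y ∧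
    PowerSeries.coeff m (y * dd ^ (m + 1)) = (0 : ℤ) ∧
    PowerSeries.coeff (m + 1) (y * dd ^ (m + 1)) = PowerSeries.coeff 0 y := by
  unfold dd
  refine ⟨?_, ?_, ?_, ?_⟩
  · rw [PowerSeries.coeff_mul_X_pow', if_pos le_rfl, Nat.sub_self]
  · rw [PowerSeries.coeff_mul_X_pow', if_pos (Nat.le_succ m), Nat.add_sub_cancel_left]
  · rw [PowerSeries.coeff_mul_X_pow', if_neg (by omega)]
  · rw [PowerSeries.coeff_mul_X_pow', if_pos le_rfl, Nat.sub_self]

lemma EtD_mul0 (y z : A) :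
    PowerSeries.coeff 0 (y * z) = PowerSeries.coeff 0 y * PowerSeries.coeff 0 z := by
  rw [PowerSeries.coeff_mul, Finset.Nat.antidiagonal_zero, Finset.sum_singleton]

lemma EtD_mul1 (y z : A) :
    PowerSeries.coeff 1 (y * z) = PowerSeries.coeff 0 y * PowerSeries.coeff 1 z +
      PowerSeries.coeff 1 y * PowerSeries.coeff 0 z := by
  rw [PowerSeries.coeff_mul, Finset.Nat.sum_antidiagonal_eq_sum_range_succ_mk]
  rw [Finset.sum_range_succ, Finset.sum_range_one]

lemma EtD_x0 : PowerSeries.coeff 0 xx = (-1 : ℤ) := by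
  unfold xx dd
  rw [map_sub]
  simp

lemma EtD_x1 : PowerSeries.coeff 1 xx = (1 : ℤ) := by
  unfold xx dd
  rw [map_sub, PowerSeries.coeff_one_X, PowerSeries.coeff_one]
  simp

lemma EtD_i0 : PowerSeries.coeff 0 xi = (-1 : ℤ) := by
  unfold xi
  rw [map_neg, PowerSeries.coeff_mk]

lemma EtD_i1 : PowerSeries.coeff 1 xi = (-1 : ℤ) := by
  unfold xi
  rw [map_neg, PowerSeries.coeff_mk]

/-- Coefficients of `dd ^ m * y` at `m` and `m + 1` are those of `y` at `0` and `1`; larger powers of `dd`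
contribute zero. `xx = -1 + dd`, `xi = -1 - dd - dd ^ 2 - ...`. -/
theorem coeff_table (m : ℕ) :
    (PowerSeries.coeff m (xx ^ 4 * dd ^ m) = (1 : ℤ) ∧
      PowerSeries.coeff (m + 1) (xx ^ 4 * dd ^ m) = (-4 : ℤ)) ∧
    (PowerSeries.coeff m (xx ^ 3 * dd ^ (m + 1)) = (0 : ℤ) ∧
      PowerSeries.coeff (m + 1) (xx ^ 3 * dd ^ (m + 1)) = (-1 : ℤ)) ∧
    (PowerSeries.coeff m (xi ^ 2 * dd ^ m) = (1 : ℤ) ∧
      PowerSeries.coeff (m + 1) (xi ^ 2 * dd ^ m) = (2 : ℤ)) ∧
    (PowerSeries.coeff m (xi ^ 2 * dd ^ (m + 1)) = (0 : ℤ) ∧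
      PowerSeries.coeff (m + 1) (xi ^ 2 * dd ^ (m + 1)) = (1 : ℤ)) ∧
    (PowerSeries.coeff m (xx ^ 2 * xi * dd ^ m) = (-1 : ℤ) ∧
      PowerSeries.coeff (m + 1) (xx ^ 2 * xi * dd ^ m) = (1 : ℤ)) ∧
    (PowerSeries.coeff m (xx ^ 2 * xi * dd ^ (m + 1)) = (0 : ℤ) ∧
      PowerSeries.coeff (m + 1) (xx ^ 2 * xi * dd ^ (m + 1)) = (-1 : ℤ)) ∧
    (PowerSeries.coeff m (xx * xi * dd ^ (m + 1)) = (0 : ℤ) ∧
      PowerSeries.coeff (m + 1) (xx * xi * dd ^ (m + 1)) = (1 : ℤ)) ∧
    (PowerSeries.coeff m (xx ^ 2 * dd ^ (m + 1)) = (0 : ℤ) ∧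
      PowerSeries.coeff (m + 1) (xx ^ 2 * dd ^ (m + 1)) = (1 : ℤ)) ∧
    (PowerSeries.coeff m (xi * dd ^ (m + 1)) = (0 : ℤ) ∧
      PowerSeries.coeff (m + 1) (xi * dd ^ (m + 1)) = (-1 : ℤ)) ∧
    (PowerSeries.coeff m (xx * dd ^ (m + 1)) = (0 : ℤ) ∧
      PowerSeries.coeff (m + 1) (xx * dd ^ (m + 1)) = (-1 : ℤ)) ∧
    (PowerSeries.coeff m (dd ^ (m + 1)) = (0 : ℤ) ∧
      PowerSeries.coeff (m + 1) (dd ^ (m + 1)) = (1 : ℤ)) := by
  have e2 : (xx ^ 2 : A) = xx * xx := by ring
  have e3 : (xx ^ 3 : A) = xx * (xx * xx) := by ring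
  have e4 : (xx ^ 4 : A) = (xx * xx) * (xx * xx) := by ring
  have i2 : (xi ^ 2 : A) = xi * xi := by ring
  rw [e2, e3, e4, i2]
  have o0 : PowerSeries.coeff 0 (1 : A) = (1 : ℤ) := by simp
  have o1 : PowerSeries.coeff m (dd ^ (m + 1)) = (0 : ℤ) := by
    have h1 := (EtD_c m 1).2.2.1
    rwa [one_mul] at h1
  have o2 : PowerSeries.coeff (m + 1) (dd ^ (m + 1)) = (1 : ℤ) := by
    have h1 := (EtD_c m 1).2.2.2
    rwa [one_mul, o0] at h1
  have h := fun y : A => EtD_c m y
  refine ⟨⟨?_, ?_⟩, ⟨?_, ?_⟩, ⟨?_, ?_⟩, ⟨?_, ?_⟩, ⟨?_, ?_⟩, ⟨?_, ?_⟩, ⟨?_, ?_⟩, ⟨?_, ?_⟩,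
    ⟨?_, ?_⟩, ⟨?_, ?_⟩, ⟨o1, o2⟩⟩
  all_goals
    first
    | rw [(h _).2.2.1]
    | (rw [(h _).2.2.2]; simp only [EtD_mul0, EtD_mul1, EtD_x0, EtD_x1, EtD_i0, EtD_i1] <;> norm_num)
    | (rw [(h _).2.1]; simp only [EtD_mul0, EtD_mul1, EtD_x0, EtD_x1, EtD_i0, EtD_i1] <;> norm_num)
    | (rw [(h _).1]; simp only [EtD_mul0, EtD_mul1, EtD_x0, EtD_x1, EtD_i0, EtD_i1] <;> norm_num)

/-- multiples of `dd ^ (m + 2)` do not contribute -/
theorem coeff_high (m k : ℕ) (hk : m + 2 ≤ k) (y : A) :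
    PowerSeries.coeff m (y * dd ^ k) = (0 : ℤ) ∧
      PowerSeries.coeff (m + 1) (y * dd ^ k) = (0 : ℤ) := by
  unfold dd
  constructor
  · rw [PowerSeries.coeff_mul_X_pow', if_neg (by omega)]
  · rw [PowerSeries.coeff_mul_X_pow', if_neg (by omega)]

end Pool.Agent.GaussPoset.Win

end

/-! From `Pool.Agent.W_448win_h16.EtE` -/

section

/-! Energy two: the table of coefficients. -/

namespace Pool.Agent.GaussPoset.Win

set_option linter.unusedSectionVars false

open Finset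

universe u

variable {P : Type u} [Fintype P] [PartialOrder P] [DecidableEq P] {r : ℕ}

/-- coefficient of `dd ^ (b - 2)` -/
noncomputable def c0 (i : ℕ) (e : P → ℕ) : ℤ :=
  PowerSeries.coeff ((lv P i).card - 2) (trm i e)

/-- coefficient of `dd ^ (b - 1)` -/
noncomputable def c1 (i : ℕ) (e : P → ℕ) : ℤ :=
  PowerSeries.coeff ((lv P i).card - 1) (trm i e)

/-- number of common sites -/
noncomputable def tt (s s' : Finset P) : ℤ := ((s ∩ s').card : ℤ)

/-- same sites -/
noncomputable def ee (s s' : Finset P) : ℤ := if s = s' then 1 else 0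

/-- indicator of a set with two elements -/
noncomputable def d2 (s : Finset P) : ℤ := if s.card = 2 then 1 else 0

/-- indicator of a set with one element -/
noncomputable def d1 (s : Finset P) : ℤ := if s.card = 1 then 1 else 0

lemma EtE_uc_sub (H : Gr P r) {i : ℕ} {w : P} (hw : lev w = i + 1) : uc w ⊆ lv P i := by
  intro v hv
  have := lev_uc H hv
  exact mem_lv.2 (by omega)

lemma EtE_dc_sub (H : Gr P r) {i : ℕ} {u : P} (hu : lev u + 1 = i) : dc u ⊆ lv P i := by
  intro v hv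
  have := lev_dc H hv
  exact mem_lv.2 (by omega)

lemma EtE_uc_card (H : Gr P r) {w : P} (hw : 1 ≤ lev w) :
    (uc w).card = 1 ∨ (uc w).card = 2 := by
  have h1 := uc_card_le H w
  have h2 := (uc_nonempty H hw).card_pos
  omega

lemma EtE_dc_card (H : Gr P r) {u : P} (hu : lev u < r) :
    (dc u).card = 1 ∨ (dc u).card = 2 := by
  have h1 := dc_card_le H u
  have h2 := (dc_nonempty H hu).card_pos
  omega

lemma EtE_22 {s s' : Finset P} (h : s.card = 2) (h' : s'.card = 2) :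
    (tt s s' = 0 ∧ ee s s' = 0 ∧ (s ∪ s').card = 4) ∨
    (tt s s' = 1 ∧ ee s s' = 0 ∧ (s ∪ s').card = 3) ∨
    (tt s s' = 2 ∧ ee s s' = 1 ∧ (s ∪ s').card = 2) := by
  have h1 := Finset.card_union_add_card_inter s s'
  have h2 : (s ∩ s').card ≤ s.card := Finset.card_le_card Finset.inter_subset_left
  have h3 : s = s' ↔ (s ∩ s').card = 2 := by
    constructor
    · rintro rfl
      rw [Finset.inter_self, h]
    · intro h4
      have e1 : s ∩ s' = s := Finset.eq_of_subset_of_card_le Finset.inter_subset_left (by omega)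
      have e2 : s ∩ s' = s' := Finset.eq_of_subset_of_card_le Finset.inter_subset_right (by omega)
      exact e1.symm.trans e2
  unfold tt ee
  rcases (by omega : (s ∩ s').card = 0 ∨ (s ∩ s').card = 1 ∨ (s ∩ s').card = 2) with h4 | h4 | h4
  · left
    refine ⟨by rw [h4]; rfl, ?_, by omega⟩
    rw [if_neg]
    rw [h3]
    omega
  · right; left
    refine ⟨by rw [h4]; rfl, ?_, by omega⟩
    rw [if_neg]
    rw [h3]
    omega
  · right; right
    refine ⟨by rw [h4]; rfl, ?_, by omega⟩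
    rw [if_pos (h3.2 h4)]

lemma EtE_21 {s s' : Finset P} (h : s.card + s'.card = 3) (h' : 1 ≤ s.card) (h'' : 1 ≤ s'.card) :
    (tt s s' = 0 ∧ (s ∪ s').card = 3) ∨ (tt s s' = 1 ∧ (s ∪ s').card = 2) := by
  have h1 := Finset.card_union_add_card_inter s s'
  have h2 : (s ∩ s').card ≤ s.card := Finset.card_le_card Finset.inter_subset_left
  have h3 : (s ∩ s').card ≤ s'.card := Finset.card_le_card Finset.inter_subset_right
  unfold tt
  rcases (by omega : (s ∩ s').card = 0 ∨ (s ∩ s').card = 1) with h4 | h4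
  · left
    exact ⟨by rw [h4]; rfl, by omega⟩
  · right
    exact ⟨by rw [h4]; rfl, by omega⟩

lemma EtE_disj {s s' : Finset P} : Disjoint s s' ↔ tt s s' = 0 := by
  unfold tt
  rw [Finset.disjoint_iff_inter_eq_empty, ← Finset.card_eq_zero]
  exact Nat.cast_eq_zero.symm

lemma EtE_of {i m : ℕ} {e : P → ℕ} (hm : (lv P i).card = m + 2) {y : A} {x0 x1 : ℤ}
    (h : trm i e = y)
    (h0 : PowerSeries.coeff m y = x0 ∧ PowerSeries.coeff (m + 1) y = x1) :
    c0 i e = x0 ∧ c1 i e = x1 := by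
  have e1 : (lv P i).card - 2 = m := by omega
  have e2 : (lv P i).card - 1 = m + 1 := by omega
  unfold c0 c1
  rw [e1, e2, h]
  exact h0

lemma EtE_high {i m k : ℕ} {e : P → ℕ} (hm : (lv P i).card = m + 2) {y : A}
    (h : trm i e = y * dd ^ k) (hk : m + 2 ≤ k) : c0 i e = 0 ∧ c1 i e = 0 :=
  EtE_of hm h (coeff_high m k hk y)

lemma EtE_tt_self (s : Finset P) : tt s s = s.card := by
  unfold tt
  rw [Finset.inter_self]

lemma EtE_ee_self (s : Finset P) : ee s s = 1 := if_pos rfl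

lemma EtE_d2_one {s : Finset P} (h : s.card = 1) : d2 s = 0 := by
  unfold d2
  rw [if_neg (by omega)]

lemma EtE_d2_two {s : Finset P} (h : s.card = 2) : d2 s = 1 := if_pos h

lemma EtE_d1_two {s : Finset P} (h : s.card = 2) : d1 s = 0 := by
  unfold d1
  rw [if_neg (by omega)]

lemma EtE_d1_one {s : Finset P} (h : s.card = 1) : d1 s = 1 := if_pos h

/-- Lower-lower, all pairs. `w ≠ w'`: `trm_LL`; the cardinality of the union is `4 - t` for two doubles, `3 - t` for a
double and a single, at most two otherwise; for doubles `4` iff `1 - t + [same] = 1`, `3` iff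
`t - 2 [same] = 1`. `w = w'`: `trm_L2`. Table: `coeff_table`, `coeff_high`
with `m = b - 2` (the exponents of `dd` are at least `b - 2`; `b ≥ |uc w ∪ uc w'|` since these are sites). -/
theorem c_LL (H : Gr P r) {i : ℕ} (hi : 1 ≤ i) (hi2 : i + 1 ≤ r) (hb : 2 ≤ (lv P i).card)
    {w w' : P} (hw : lev w = i + 1) (hw' : lev w' = i + 1) :
    c0 i (sg w + sg w') =
      d2 (uc w) * d2 (uc w') * (1 - tt (uc w) (uc w') + ee (uc w) (uc w')) ∧
    c1 i (sg w + sg w') =
      d2 (uc w) * d2 (uc w') * (-4 + 3 * tt (uc w) (uc w') - 2 * ee (uc w) (uc w') +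
        (if w = w' then 1 else 0)) -
      (d2 (uc w) * d1 (uc w') + d1 (uc w) * d2 (uc w')) * (1 - tt (uc w) (uc w')) := by
  obtain ⟨m, hm⟩ : ∃ m, (lv P i).card = m + 2 := ⟨(lv P i).card - 2, by omega⟩
  obtain ⟨⟨a0, a1⟩, ⟨b0, b1⟩, -, -, -, -, -, ⟨j0, j1⟩, -, ⟨l0, l1⟩, -⟩ := coeff_table m
  have hc := EtE_uc_card H (w := w) (by omega)
  have hc' := EtE_uc_card H (w := w') (by omega)
  have hU : (uc w ∪ uc w').card ≤ m + 2 := by
    rw [← hm]
    exact Finset.card_le_card (Finset.union_subset (EtE_uc_sub H hw) (EtE_uc_sub H hw'))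
  by_cases hww : w = w'
  · subst hww
    have ht := trm_L2 H hi hi2 hw
    rw [if_pos rfl, EtE_tt_self, EtE_ee_self]
    rcases hc with h | h
    · rw [EtE_d2_one h, h]
      have h2 := EtE_high (e := sg w + sg w) hm ht (by omega)
      rw [h2.1, h2.2]
      constructor <;> ring
    · rw [EtE_d2_two h, EtE_d1_two h, h]
      rw [h, show 1 + ((lv P i).card - 2) = m + 1 by omega] at ht
      have h2 := EtE_of hm ht ⟨j0, j1⟩
      rw [h2.1, h2.2]
      constructor <;> norm_num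
  · have ht := trm_LL H hi hi2 hw hw' hww
    rw [if_neg hww]
    rcases hc with h | h <;> rcases hc' with h' | h'
    · rw [EtE_d2_one h, EtE_d2_one h']
      have h3 : (uc w ∪ uc w').card ≤ 2 := by
        have := Finset.card_union_le (uc w) (uc w')
        omega
      have h2 := EtE_high (e := sg w + sg w') hm ht (by omega)
      rw [h2.1, h2.2]
      constructor <;> ring
    · rw [EtE_d2_one h, EtE_d2_two h', EtE_d1_one h, EtE_d1_two h']
      rcases EtE_21 (s := uc w) (s' := uc w') (by omega) (by omega) (by omega) with ⟨h3, h4⟩ | ⟨h3, h4⟩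
      · rw [h4, show 2 + ((lv P i).card - 3) = m + 1 by omega] at ht
        have h2 := EtE_of hm ht ⟨b0, b1⟩
        rw [h2.1, h2.2, h3]
        constructor <;> norm_num
      · have h2 := EtE_high (e := sg w + sg w') hm ht (by omega)
        rw [h2.1, h2.2, h3]
        constructor <;> ring
    · rw [EtE_d2_two h, EtE_d2_one h', EtE_d1_two h, EtE_d1_one h']
      rcases EtE_21 (s := uc w) (s' := uc w') (by omega) (by omega) (by omega) with ⟨h3, h4⟩ | ⟨h3, h4⟩
      · rw [h4, show 2 + ((lv P i).card - 3) = m + 1 by omega] at ht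
        have h2 := EtE_of hm ht ⟨b0, b1⟩
        rw [h2.1, h2.2, h3]
        constructor <;> norm_num
      · have h2 := EtE_high (e := sg w + sg w') hm ht (by omega)
        rw [h2.1, h2.2, h3]
        constructor <;> ring
    · rw [EtE_d2_two h, EtE_d2_two h', EtE_d1_two h, EtE_d1_two h']
      rcases EtE_22 h h' with ⟨h3, h4, h5⟩ | ⟨h3, h4, h5⟩ | ⟨h3, h4, h5⟩
      · rw [h5, show 2 + ((lv P i).card - 4) = m by omega] at ht
        have h2 := EtE_of hm ht ⟨a0, a1⟩
        rw [h2.1, h2.2, h3, h4]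
        constructor <;> norm_num
      · rw [h5, show 2 + ((lv P i).card - 3) = m + 1 by omega] at ht
        have h2 := EtE_of hm ht ⟨b0, b1⟩
        rw [h2.1, h2.2, h3, h4]
        constructor <;> norm_num
      · have h2 := EtE_high (e := sg w + sg w') hm ht (by omega)
        rw [h2.1, h2.2, h3, h4]
        constructor <;> norm_num

/-- Upper-upper, all pairs: `trm_UU`, `trm_U2`. -/
theorem c_UU (H : Gr P r) {i : ℕ} (hi : 1 ≤ i) (hi2 : i + 1 ≤ r) (hb : 2 ≤ (lv P i).card)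
    {u u' : P} (hu : lev u + 1 = i) (hu' : lev u' + 1 = i) :
    c0 i (sg u + sg u') =
      d2 (dc u) * d2 (dc u') * (1 - tt (dc u) (dc u') + ee (dc u) (dc u')) ∧
    c1 i (sg u + sg u') =
      d2 (dc u) * d2 (dc u') * (2 - tt (dc u) (dc u') - (if u = u' then 1 else 0)) +
      (d2 (dc u) * d1 (dc u') + d1 (dc u) * d2 (dc u')) * (1 - tt (dc u) (dc u')) := by
  obtain ⟨m, hm⟩ : ∃ m, (lv P i).card = m + 2 := ⟨(lv P i).card - 2, by omega⟩
  obtain ⟨-, -, ⟨a0, a1⟩, ⟨b0, b1⟩, -, -, -, -, ⟨j0, j1⟩, -, -⟩ := coeff_table m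
  have hc := EtE_dc_card H (u := u) (by omega)
  have hc' := EtE_dc_card H (u := u') (by omega)
  have hU : (dc u ∪ dc u').card ≤ m + 2 := by
    rw [← hm]
    exact Finset.card_le_card (Finset.union_subset (EtE_dc_sub H hu) (EtE_dc_sub H hu'))
  by_cases hww : u = u'
  · subst hww
    have ht := trm_U2 H hi hi2 hu
    rw [if_pos rfl, EtE_tt_self, EtE_ee_self]
    rcases hc with h | h
    · rw [EtE_d2_one h, h]
      have h2 := EtE_high (e := sg u + sg u) hm ht (by omega)
      rw [h2.1, h2.2]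
      constructor <;> ring
    · rw [EtE_d2_two h, EtE_d1_two h, h]
      rw [h, show 1 + ((lv P i).card - 2) = m + 1 by omega] at ht
      have h2 := EtE_of hm ht ⟨j0, j1⟩
      rw [h2.1, h2.2]
      constructor <;> norm_num
  · have ht := trm_UU H hi hi2 hu hu' hww
    rw [if_neg hww]
    rcases hc with h | h <;> rcases hc' with h' | h'
    · rw [EtE_d2_one h, EtE_d2_one h']
      have h3 : (dc u ∪ dc u').card ≤ 2 := by
        have := Finset.card_union_le (dc u) (dc u')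
        omega
      have h2 := EtE_high (e := sg u + sg u') hm ht (by omega)
      rw [h2.1, h2.2]
      constructor <;> ring
    · rw [EtE_d2_one h, EtE_d2_two h', EtE_d1_one h, EtE_d1_two h']
      rcases EtE_21 (s := dc u) (s' := dc u') (by omega) (by omega) (by omega) with ⟨h3, h4⟩ | ⟨h3, h4⟩
      · rw [h4, show 2 + ((lv P i).card - 3) = m + 1 by omega] at ht
        have h2 := EtE_of hm ht ⟨b0, b1⟩
        rw [h2.1, h2.2, h3]
        constructor <;> norm_num
      · have h2 := EtE_high (e := sg u + sg u') hm ht (by omega)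
        rw [h2.1, h2.2, h3]
        constructor <;> ring
    · rw [EtE_d2_two h, EtE_d2_one h', EtE_d1_two h, EtE_d1_one h']
      rcases EtE_21 (s := dc u) (s' := dc u') (by omega) (by omega) (by omega) with ⟨h3, h4⟩ | ⟨h3, h4⟩
      · rw [h4, show 2 + ((lv P i).card - 3) = m + 1 by omega] at ht
        have h2 := EtE_of hm ht ⟨b0, b1⟩
        rw [h2.1, h2.2, h3]
        constructor <;> norm_num
      · have h2 := EtE_high (e := sg u + sg u') hm ht (by omega)
        rw [h2.1, h2.2, h3]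
        constructor <;> ring
    · rw [EtE_d2_two h, EtE_d2_two h', EtE_d1_two h, EtE_d1_two h']
      rcases EtE_22 h h' with ⟨h3, h4, h5⟩ | ⟨h3, h4, h5⟩ | ⟨h3, h4, h5⟩
      · rw [h5, show 2 + ((lv P i).card - 4) = m by omega] at ht
        have h2 := EtE_of hm ht ⟨a0, a1⟩
        rw [h2.1, h2.2, h3, h4]
        constructor <;> norm_num
      · rw [h5, show 2 + ((lv P i).card - 3) = m + 1 by omega] at ht
        have h2 := EtE_of hm ht ⟨b0, b1⟩
        rw [h2.1, h2.2, h3, h4]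
        constructor <;> norm_num
      · have h2 := EtE_high (e := sg u + sg u') hm ht (by omega)
        rw [h2.1, h2.2, h3, h4]
        constructor <;> norm_num

/-- Lower-upper: `trm_LU`. -/
theorem c_LU (H : Gr P r) {i : ℕ} (hi : 1 ≤ i) (hi2 : i + 1 ≤ r) (hb : 2 ≤ (lv P i).card)
    {w u : P} (hw : lev w = i + 1) (hu : lev u + 1 = i) :
    c0 i (sg w + sg u) =
      -(d2 (uc w) * d2 (dc u) * (1 - tt (uc w) (dc u) + ee (uc w) (dc u))) ∧
    c1 i (sg w + sg u) =
      d2 (uc w) * d2 (dc u) * (1 - tt (uc w) (dc u) + ee (uc w) (dc u)) -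
      d2 (uc w) * d1 (dc u) * (1 - tt (uc w) (dc u)) +
      d1 (uc w) * d2 (dc u) * (1 - tt (uc w) (dc u)) := by
  obtain ⟨m, hm⟩ : ∃ m, (lv P i).card = m + 2 := ⟨(lv P i).card - 2, by omega⟩
  obtain ⟨-, -, -, -, ⟨a0, a1⟩, ⟨b0, b1⟩, ⟨g0, g1⟩, -, -, -, -⟩ := coeff_table m
  have hc := EtE_uc_card H (w := w) (by omega)
  have hc' := EtE_dc_card H (u := u) (by omega)
  have hU : (uc w ∪ dc u).card ≤ m + 2 := by
    rw [← hm]
    exact Finset.card_le_card (Finset.union_subset (EtE_uc_sub H hw) (EtE_dc_sub H hu))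
  have ht := trm_LU H hi hi2 hw hu
  have hz : tt (uc w) (dc u) ≠ 0 → c0 i (sg w + sg u) = 0 ∧ c1 i (sg w + sg u) = 0 := by
    intro h
    rw [if_neg (fun h1 => h (EtE_disj.1 h1))] at ht
    exact EtE_of hm ht ⟨map_zero _, map_zero _⟩
  rcases hc with h | h <;> rcases hc' with h' | h'
  · rw [EtE_d2_one h, EtE_d2_one h']
    have h2 : c0 i (sg w + sg u) = 0 ∧ c1 i (sg w + sg u) = 0 := by
      by_cases h0 : tt (uc w) (dc u) = 0
      · rw [if_pos (EtE_disj.2 h0)] at ht
        exact EtE_high hm ht (by omega)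
      · exact hz h0
    rw [h2.1, h2.2]
    constructor <;> ring
  · rw [EtE_d2_one h, EtE_d2_two h', EtE_d1_one h, EtE_d1_two h']
    rcases EtE_21 (s := uc w) (s' := dc u) (by omega) (by omega) (by omega) with ⟨h3, h4⟩ | ⟨h3, h4⟩
    · rw [if_pos (EtE_disj.2 h3), h, h', pow_one,
        show 2 + ((lv P i).card - 1 - 2) = m + 1 by omega] at ht
      have h2 := EtE_of hm ht ⟨g0, g1⟩
      rw [h2.1, h2.2, h3]
      constructor <;> norm_num
    · have h2 := hz (by rw [h3]; norm_num)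
      rw [h2.1, h2.2, h3]
      constructor <;> ring
  · rw [EtE_d2_two h, EtE_d2_one h', EtE_d1_two h, EtE_d1_one h']
    rcases EtE_21 (s := uc w) (s' := dc u) (by omega) (by omega) (by omega) with ⟨h3, h4⟩ | ⟨h3, h4⟩
    · rw [if_pos (EtE_disj.2 h3), h, h', show 2 + ((lv P i).card - 2 - 1) = m + 1 by omega] at ht
      have h2 := EtE_of hm ht ⟨b0, b1⟩
      rw [h2.1, h2.2, h3]
      constructor <;> norm_num
    · have h2 := hz (by rw [h3]; norm_num)
      rw [h2.1, h2.2, h3]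
      constructor <;> ring
  · rw [EtE_d2_two h, EtE_d2_two h', EtE_d1_two h, EtE_d1_two h']
    rcases EtE_22 h h' with ⟨h3, h4, h5⟩ | ⟨h3, h4, h5⟩ | ⟨h3, h4, h5⟩
    · rw [if_pos (EtE_disj.2 h3), h, h', show 2 + ((lv P i).card - 2 - 2) = m by omega] at ht
      have h2 := EtE_of hm ht ⟨a0, a1⟩
      rw [h2.1, h2.2, h3, h4]
      constructor <;> norm_num
    · have h2 := hz (by rw [h3]; norm_num)
      rw [h2.1, h2.2, h3, h4]
      constructor <;> norm_num
    · have h2 := hz (by rw [h3]; norm_num)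
      rw [h2.1, h2.2, h3, h4]
      constructor <;> norm_num

/-- lower near element and site: `trm_Lv` -/
theorem c_Lv (H : Gr P r) {i : ℕ} (hi : 1 ≤ i) (hi2 : i + 1 ≤ r) (hb : 2 ≤ (lv P i).card)
    {w v : P} (hw : lev w = i + 1) (hv : lev v = i) :
    c0 i (sg w + sg v) = 0 ∧
    c1 i (sg w + sg v) = d2 (uc w) * (1 - 2 * (if v ∈ uc w then 1 else 0)) := by
  obtain ⟨m, hm⟩ : ∃ m, (lv P i).card = m + 2 := ⟨(lv P i).card - 2, by omega⟩
  obtain ⟨-, -, -, -, -, -, -, ⟨a0, a1⟩, -, ⟨b0, b1⟩, -⟩ := coeff_table m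
  have hc := EtE_uc_card H (w := w) (by omega)
  have ht := trm_Lv H hi hi2 hw hv
  by_cases hvw : v ∈ uc w
  · rw [if_pos hvw] at ht
    rw [if_pos hvw]
    rcases hc with h | h
    · rw [EtE_d2_one h]
      have h2 := EtE_high (e := sg w + sg v) hm ht (by omega)
      rw [h2.1, h2.2]
      constructor <;> ring
    · rw [EtE_d2_two h]
      rw [h, show 2 - 1 = 1 from rfl, pow_one, show (lv P i).card - 1 = m + 1 by omega] at ht
      have h2 := EtE_of hm ht ⟨b0, b1⟩
      rw [h2.1, h2.2]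
      constructor <;> norm_num
  · rw [if_neg hvw] at ht
    rw [if_neg hvw]
    rcases hc with h | h
    · rw [EtE_d2_one h]
      have h2 := EtE_high (e := sg w + sg v) hm ht (by omega)
      rw [h2.1, h2.2]
      constructor <;> ring
    · rw [EtE_d2_two h]
      rw [h, show 1 + ((lv P i).card - 2) = m + 1 by omega] at ht
      have h2 := EtE_of hm ht ⟨a0, a1⟩
      rw [h2.1, h2.2]
      constructor <;> norm_num

/-- upper near element and site: `trm_Uv` -/
theorem c_Uv (H : Gr P r) {i : ℕ} (hi : 1 ≤ i) (hi2 : i + 1 ≤ r) (hb : 2 ≤ (lv P i).card)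
    {u v : P} (hu : lev u + 1 = i) (hv : lev v = i) :
    c0 i (sg u + sg v) = 0 ∧
    c1 i (sg u + sg v) = -(d2 (dc u) * (1 - 2 * (if v ∈ dc u then 1 else 0))) := by
  obtain ⟨m, hm⟩ : ∃ m, (lv P i).card = m + 2 := ⟨(lv P i).card - 2, by omega⟩
  obtain ⟨-, -, -, -, -, -, -, -, ⟨a0, a1⟩, -, ⟨b0, b1⟩⟩ := coeff_table m
  have hc := EtE_dc_card H (u := u) (by omega)
  have ht := trm_Uv H hi hi2 hu hv
  by_cases hvw : v ∈ dc u
  · rw [if_pos hvw] at ht
    rw [if_pos hvw]
    rcases hc with h | h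
    · rw [EtE_d2_one h]
      have h2 := EtE_high (e := sg u + sg v) (y := 1) hm (by rw [one_mul]; exact ht) (by omega)
      rw [h2.1, h2.2]
      constructor <;> ring
    · rw [EtE_d2_two h]
      rw [h, show 2 - 1 = 1 from rfl, show (lv P i).card - 1 = m + 1 by omega] at ht
      have h2 := EtE_of hm ht ⟨b0, b1⟩
      rw [h2.1, h2.2]
      constructor <;> norm_num
  · rw [if_neg hvw] at ht
    rw [if_neg hvw]
    rcases hc with h | h
    · rw [EtE_d2_one h]
      have h2 := EtE_high (e := sg u + sg v) hm ht (by omega)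
      rw [h2.1, h2.2]
      constructor <;> ring
    · rw [EtE_d2_two h]
      rw [h, show 1 + ((lv P i).card - 2) = m + 1 by omega] at ht
      have h2 := EtE_of hm ht ⟨a0, a1⟩
      rw [h2.1, h2.2]
      constructor <;> norm_num

lemma EtE_mem_PD {i : ℕ} {z : P} : z ∈ PD P i ↔ lev z = i + 2 ∧ (uc z).card = 1 ∧
    ∃ w, z ⋖ w ∧ (uc w).card = 2 := by
  classical
  unfold PD; simp

lemma EtE_mem_PU {i : ℕ} {x : P} : x ∈ PU P i ↔ lev x + 2 = i ∧ (dc x).card = 1 ∧
    ∃ u, u ⋖ x ∧ (dc u).card = 2 := by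
  classical
  unfold PU; simp

/-- sites: `trm_ss`; far elements: `trm_cl`, `trm_cu`: for `z` with one upper cover `w`, `up i z` is the number of
upper covers of `w` (`mem_sts_iff`), it is two iff `z ∈ PD P i` -/
theorem c_rest (H : Gr P r) {i : ℕ} (hi : 1 ≤ i) (hi2 : i + 1 ≤ r) (hb : 2 ≤ (lv P i).card) :
    (∀ v v' : P, lev v = i → lev v' = i → c0 i (sg v + sg v') = 0 ∧ c1 i (sg v + sg v') = 0) ∧
    (∀ z : P, lev z = i + 2 → (uc z).card = 1 → c0 i (cl z) = 0 ∧
      (z ∈ PD P i → c1 i (cl z) = 1) ∧ (z ∉ PD P i → c1 i (cl z) = 0)) ∧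
    (∀ x : P, lev x + 2 = i → (dc x).card = 1 → c0 i (cu x) = 0 ∧
      (x ∈ PU P i → c1 i (cu x) = -1) ∧ (x ∉ PU P i → c1 i (cu x) = 0)) := by
  obtain ⟨m, hm⟩ : ∃ m, (lv P i).card = m + 2 := ⟨(lv P i).card - 2, by omega⟩
  obtain ⟨-, -, -, -, -, -, -, ⟨a0, a1⟩, ⟨b0, b1⟩, -, -⟩ := coeff_table m
  refine ⟨?_, ?_, ?_⟩
  · intro v v' hv hv'
    have ht := trm_ss H (by omega) hv hv'
    exact EtE_high (y := 1) hm (by rw [one_mul]; exact ht) (by omega)
  · intro z hz h1
    have ht := trm_cl H (by omega) hz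
    obtain ⟨w, hw⟩ := Finset.card_eq_one.1 h1
    have hwz : w ∈ uc z := by rw [hw]; exact Finset.mem_singleton_self w
    have hsts : sts i z = uc w := by
      ext v
      rw [mem_sts_iff H hz]
      constructor
      · rintro ⟨w', hw', hv⟩
        rw [hw, Finset.mem_singleton] at hw'
        rw [← hw']
        exact hv
      · intro hv
        exact ⟨w, hwz, hv⟩
    have hup : up i z = (uc w).card := by rw [← card_sts, hsts]
    have hlw := lev_uc H hwz
    have hPD : z ∈ PD P i ↔ (uc w).card = 2 := by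
      rw [EtE_mem_PD]
      constructor
      · rintro ⟨-, -, w', hw', hc⟩
        have h2 := mem_uc.2 hw'
        rw [hw, Finset.mem_singleton] at h2
        rw [← h2]
        exact hc
      · intro hc
        exact ⟨hz, h1, w, mem_uc.1 hwz, hc⟩
    rcases EtE_uc_card H (w := w) (by omega) with h | h
    · have h2 := EtE_high (e := cl z) hm ht (by omega)
      refine ⟨h2.1, fun h3 => ?_, fun _ => h2.2⟩
      rw [hPD] at h3
      omega
    · rw [hup, h, h1, show 1 + ((lv P i).card - 2) = m + 1 by omega] at ht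
      have h2 := EtE_of hm ht ⟨a0, a1⟩
      exact ⟨h2.1, fun _ => h2.2, fun h3 => absurd (hPD.2 h) h3⟩
  · intro x hx h1
    have ht := trm_cu H (by omega) hx
    obtain ⟨u, hu⟩ := Finset.card_eq_one.1 h1
    have hux : u ∈ dc x := by rw [hu]; exact Finset.mem_singleton_self u
    have hstD : stD i x = dc u := by
      ext v
      rw [mem_stD_iff H hx]
      constructor
      · rintro ⟨u', hu', hv⟩
        rw [hu, Finset.mem_singleton] at hu'
        rw [← hu']
        exact hv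
      · intro hv
        exact ⟨u, hux, hv⟩
    have hdn : dn i x = (dc u).card := by rw [← card_stD, hstD]
    have hlu := lev_dc H hux
    have hPU : x ∈ PU P i ↔ (dc u).card = 2 := by
      rw [EtE_mem_PU]
      constructor
      · rintro ⟨-, -, u', hu', hc⟩
        have h2 := mem_dc.2 hu'
        rw [hu, Finset.mem_singleton] at h2
        rw [← h2]
        exact hc
      · intro hc
        exact ⟨hx, h1, u, mem_dc.1 hux, hc⟩
    rcases EtE_dc_card H (u := u) (by omega) with h | h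
    · have h2 := EtE_high (e := cu x) hm ht (by omega)
      refine ⟨h2.1, fun h3 => ?_, fun _ => h2.2⟩
      rw [hPU] at h3
      omega
    · rw [hdn, h, h1, pow_one, show 1 + ((lv P i).card - 2) = m + 1 by omega] at ht
      have h2 := EtE_of hm ht ⟨b0, b1⟩
      exact ⟨h2.1, fun _ => h2.2, fun h3 => absurd (hPU.2 h) h3⟩

end Pool.Agent.GaussPoset.Win

end
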