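import Mathlib
import Pool.Agent.W_448zz_h61.Ns
import Pool.Agent.W_448zz_h61.M005

/-! From `Pool.Agent.W_448hul_h24.Peak` -/

section

/-!
# Joins and windows of single sites (MP_448cb3_co, arbitrary number of maximal elements)

`Jn x`: the element `x` is below two different maximal elements.  `En i w` is the sum of
`lev y - i` over the elements `y ≥ w`.  Here: a configuration of window `i` with fewer peaks than
maximal elements has energy at least `En i w` for some join `w`, with equality only for the
configuration `ew i w`.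
-/

namespace Pool.Agent.GaussPoset.Hul

set_option linter.unusedSectionVars false

open Finset

universe u

variable {P : Type u} [Fintype P] [PartialOrder P] [DecidableEq P]

/-- `x` is below two different maximal elements -/
def Jn (x : P) : Prop := ∃ v v' : P, lev v = 0 ∧ lev v' = 0 ∧ v ≠ v' ∧ x ≤ v ∧ x ≤ v'

lemma top_unique {x v v' : P} (hx : ¬ Jn x) (hv : lev v = 0) (hv' : lev v' = 0) (h : x ≤ v)
    (h' : x ≤ v') : v = v' := by
  by_contra hne
  exact hx ⟨v, v', hv, hv', hne, h, h'⟩

open Classical in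
/-- energy of the join `w` in window `i` -/
noncomputable def En (i : ℕ) (w : P) : ℕ := ∑ y ∈ univ.filter (fun y => w ≤ y), (lev y - i)

section Rho

variable {i : ℕ} {e : P → ℕ}

lemma not_FA_lt {x y : P} (hx : ¬ FA i e x) (hxy : x < y) : rho i e y < rho i e x := by
  by_contra h
  exact hx ⟨y, hxy, not_lt.1 h⟩

lemma not_FA_up (hA : Adm i e) {x y : P} (hx : ¬ FA i e x) (hxy : x ≤ y) : ¬ FA i e y := by
  rcases eq_or_lt_of_le hxy with h | h
  · rwa [← h]
  · intro hy
    exact hA y ⟨Or.inr ⟨x, h, not_FA_lt hx h⟩, hy⟩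

lemma lev_le_rho (hA : Adm i e) : ∀ (n : ℕ) {x : P}, lev x = n → ¬ FA i e x →
    (lev x : ℤ) - i ≤ rho i e x := by
  intro n
  induction n with
  | zero =>
    intro x hx _
    unfold rho
    rw [hx]
    simp
  | succ n ih =>
    intro x hx hFA
    obtain ⟨y, hy, hy2⟩ := exists_lev_succ hx
    have h1 := ih hy2 (not_FA_up hA hFA hy.le)
    have h2 := not_FA_lt hFA hy
    rw [hy2] at h1
    rw [hx]
    push_cast
    linarith

lemma exists_not_FA : ∀ (n : ℕ) {x : P}, lev x = n → ∃ y, x ≤ y ∧ ¬ FA i e y ∧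
    rho i e x ≤ rho i e y := by
  intro n
  induction n using Nat.strong_induction_on with
  | _ n ih =>
    intro x hx
    by_cases h : FA i e x
    · obtain ⟨y, hy, hy2⟩ := h
      obtain ⟨y', h1, h2, h3⟩ := ih (lev y) (by rw [← hx]; exact lev_strictAnti hy) rfl
      exact ⟨y', hy.le.trans h1, h2, hy2.trans h3⟩
    · exact ⟨x, le_rfl, h, le_rfl⟩

lemma le_e_of_rho {x : P} (h : (lev x : ℤ) - i ≤ rho i e x) : lev x - i ≤ e x := by
  unfold rho at h
  omega

lemma rho_le_e (x : P) : rho i e x ≤ e x := by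
  unfold rho
  omega

open Classical in
lemma En_le_of_rho {w : P} (h : ∀ u, w ≤ u → (lev u : ℤ) - i ≤ rho i e u) :
    En i w ≤ ∑ x, e x := by
  unfold En
  refine (Finset.sum_le_sum fun u hu => ?_).trans
    (Finset.sum_le_sum_of_subset (Finset.subset_univ (univ.filter fun y => w ≤ y)))
  exact le_e_of_rho (h u (Finset.mem_filter.1 hu).2)

open Classical in
lemma En_lt_of_rho {w y : P} (h : ∀ u, w ≤ u → (lev u : ℤ) - i ≤ rho i e u)
    (hy : w ≤ y → lev y - i < e y) (hy' : ¬ w ≤ y → 0 < e y) : En i w < ∑ x, e x := by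
  have h1 : ∀ u ∈ univ.filter (fun u => w ≤ u), lev u - i ≤ e u := fun u hu =>
    le_e_of_rho (h u (Finset.mem_filter.1 hu).2)
  by_cases hwy : w ≤ y
  · unfold En
    refine lt_of_lt_of_le (Finset.sum_lt_sum h1 ⟨y, by simp [hwy], hy hwy⟩) ?_
    exact Finset.sum_le_sum_of_subset (Finset.subset_univ _)
  · unfold En
    refine lt_of_le_of_lt (Finset.sum_le_sum h1) ?_
    exact Finset.sum_lt_sum_of_subset (Finset.subset_univ _) (Finset.mem_univ y) (by simp [hwy])
      (hy' hwy) fun _ _ _ => Nat.zero_le _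

/-- an element covering `w` below `v` -/
lemma exists_cov {w v : P} (h : w < v) : ∃ x, w ⋖ x ∧ x ≤ v := by
  classical
  obtain ⟨x, hx, hmax⟩ := Finset.exists_max_image (univ.filter fun x => w < x ∧ x ≤ v) lev
    ⟨v, by simp [h]⟩
  rw [Finset.mem_filter] at hx
  refine ⟨x, ⟨hx.2.1, fun t h1 h2 => ?_⟩, hx.2.2⟩
  have h3 := hmax t (by simp [h1, h2.le.trans hx.2.2])
  have h4 := lev_strictAnti h2
  omega

variable {r : ℕ}

lemma exists_between (hG : IsGaussian P) {w v : P} (h : w ≤ v) {k : ℕ} (h1 : lev v ≤ k)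
    (h2 : k ≤ lev w) : ∃ s, w ≤ s ∧ s ≤ v ∧ lev s = k := by
  obtain ⟨n, hn⟩ : ∃ n, lev w = k + n := ⟨lev w - k, by omega⟩
  induction n generalizing w with
  | zero => exact ⟨w, le_rfl, h, hn⟩
  | succ n ih =>
    have hlt : w < v := lt_of_le_of_ne h (by rintro rfl; omega)
    obtain ⟨x, hx, hx2⟩ := exists_cov hlt
    have h3 := lev_covBy hG hx
    obtain ⟨s, h4, h5, h6⟩ := ih hx2 (by omega) (by omega)
    exact ⟨s, hx.1.le.trans h4, h5, h6⟩

/-- a column without a peak costs more than some join -/
lemma zig (H : Gr P r) (hi : i ≤ r) (hone : ∀ x : P, lev x ≤ i → ¬ Jn x) (hA : Adm i e)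
    (hJ : ∀ x : P, Jn x → FA i e x) {v : P} (hv : lev v = 0)
    (hnp : ∀ p, p ≤ v → ¬ FI i e p → FA i e p) : ∃ w : P, Jn w ∧ En i w < ∑ x, e x := by
  classical
  -- the set of the elements of the column which are not forced out
  obtain ⟨s, hs, hs2⟩ := H.exists_below (x := v) (j := i) (by omega) hi
  obtain ⟨y0, h01, h02, h03⟩ := exists_not_FA (i := i) (e := e) (lev s) (x := s) rfl
  have hy0v : y0 ≤ v := by
    obtain ⟨v', h1, h2⟩ := exists_above' (x := y0) (j := 0) (Nat.zero_le _)
    have h3 := top_unique (hone s hs2.le) hv h2 hs (h01.trans h1)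
    rw [h3]
    exact h1
  have hs0 : 0 ≤ rho i e s := by
    unfold rho
    omega
  obtain ⟨x, hx, hmax⟩ := Finset.exists_max_image (univ.filter fun x => x ≤ v ∧ ¬ FA i e x)
    (fun x => rho i e x) ⟨y0, by simp [hy0v, h02]⟩
  rw [Finset.mem_filter] at hx
  have hR0 : 0 ≤ rho i e x := hs0.trans (h03.trans (hmax y0 (by simp [hy0v, h02])))
  have hmem : ∀ t, t ≤ v → ¬ FA i e t → rho i e t ≤ rho i e x := fun t h1 h2 =>
    hmax t (by simp [h1, h2])
  have hFI : FI i e x := by
    by_contra hFI
    exact hx.2.2 (hnp x hx.2.1 hFI)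
  obtain ⟨z, hz, hz2⟩ : ∃ z, z < x ∧ rho i e x < rho i e z := by
    rcases hFI with h | h
    · exact absurd h (not_lt.2 hR0)
    · exact h
  obtain ⟨y, hy1, hy2, hy3⟩ := exists_not_FA (i := i) (e := e) (lev z) (x := z) rfl
  have hyv : ¬ y ≤ v := fun h => by
    have := hmem y h hy2
    omega
  obtain ⟨v', hv1, hv2⟩ := exists_above' (x := y) (j := 0) (Nat.zero_le _)
  have hzJ : Jn z := ⟨v, v', hv, hv2, fun h => hyv (by rw [h]; exact hv1), hz.le.trans hx.2.1,
    hy1.trans hv1⟩
  have hnotFI : ∀ u, FA i e u → z ≤ u → rho i e z ≤ rho i e u := by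
    intro u hu hzu
    rcases eq_or_lt_of_le hzu with h | h
    · rw [h]
    · by_contra hlt
      exact hA u ⟨Or.inr ⟨z, h, not_le.1 hlt⟩, hu⟩
  have claimA : ∀ u, z ≤ u → u ≤ v → ¬ Jn u → ¬ FA i e u := by
    intro u h1 h2 h3 h4
    obtain ⟨y', h5, h6, h7⟩ := exists_not_FA (i := i) (e := e) (lev u) (x := u) rfl
    obtain ⟨v'', h8, h9⟩ := exists_above' (x := y') (j := 0) (Nat.zero_le _)
    have h10 := top_unique h3 hv h9 h2 (h5.trans h8)
    have h11 := hmem y' (by rw [h10]; exact h8) h6
    have h12 := hnotFI u h4 h1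
    omega
  -- the join
  obtain ⟨w, hw, hmin⟩ := Finset.exists_min_image (univ.filter fun w => Jn w ∧ z ≤ w ∧ w ≤ v)
    (fun w => lev w) ⟨z, by simp [hzJ, hz.le.trans hx.2.1]⟩
  rw [Finset.mem_filter] at hw
  obtain ⟨-, hwJ, hzw, hwv⟩ := hw
  have hlw : i < lev w := by
    by_contra h
    exact hone w (not_lt.1 h) hwJ
  have hwlt : w < v := lt_of_le_of_ne hwv (by rintro rfl; omega)
  obtain ⟨x', hx'1, hx'2⟩ := exists_cov hwlt
  have hx'3 := lev_covBy H.gauss hx'1
  have hx'J : ¬ Jn x' := by
    intro h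
    have := hmin x' (by simp [h, hzw.trans hx'1.1.le, hx'2])
    omega
  have hx'F : ¬ FA i e x' := claimA x' (hzw.trans hx'1.1.le) hx'2 hx'J
  have h20 := lev_le_rho hA (lev x') rfl hx'F
  have h21 := hmem x' hx'2 hx'F
  have h22 : (lev w : ℤ) - i ≤ rho i e z := by
    rw [hx'3]
    push_cast
    omega
  have hall : ∀ u, w ≤ u → (lev u : ℤ) - i ≤ rho i e u := by
    intro u hu
    by_cases hF : FA i e u
    · have h1 := hnotFI u hF (hzw.trans hu)
      have h2 : lev u ≤ lev w := lev_strictAnti.antitone hu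
      omega
    · exact lev_le_rho hA (lev u) rfl hF
  refine ⟨w, hwJ, En_lt_of_rho (y := y) hall (fun h => ?_) fun _ => ?_⟩
  · have hne : w ≠ y := by
      rintro rfl
      exact hy2 (hJ w hwJ)
    have h1 := lev_strictAnti (lt_of_le_of_ne h hne)
    unfold rho at hy3 h22
    omega
  · have h1 := rho_le_e (i := i) (e := e) y
    omega

end Rho

end Pool.Agent.GaussPoset.Hul

end

/-! From `Pool.Agent.W_448hul_h24.Conf` -/

section

/-!
# The configurations of least energy

The configuration `ew i w` (label `lev y - i` above `w`, `0` elsewhere), its forced elements and its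
peaks; every other configuration of energy at most the least energy of a join has at least as many
peaks as there are maximal elements.
-/

namespace Pool.Agent.GaussPoset.Hul

set_option linter.unusedSectionVars false

open Finset

universe u

variable {P : Type u} [Fintype P] [PartialOrder P] [DecidableEq P]

open Classical in
/-- the cheapest configuration with the join `w` as a peak -/
noncomputable def ew (i : ℕ) (w x : P) : ℕ := if w ≤ x then lev x - i else 0

lemma sum_ew (i : ℕ) (w : P) : ∑ x, ew i w x = En i w := by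
  classical
  unfold ew En
  rw [Finset.sum_filter]

lemma rho_ew_up {i : ℕ} {w x : P} (h : w ≤ x) : rho i (ew i w) x = (lev x : ℤ) - i := by
  unfold rho ew
  rw [if_pos h]
  omega

lemma rho_ew_not {i : ℕ} {w x : P} (h : ¬ w ≤ x) :
    rho i (ew i w) x = -((i - lev x : ℕ) : ℤ) := by
  unfold rho ew
  rw [if_neg h]
  simp

lemma rho_ew_small {i : ℕ} {w x : P} (h : lev x ≤ i) : rho i (ew i w) x = (lev x : ℤ) - i := by
  by_cases hx : w ≤ x
  · exact rho_ew_up hx
  · rw [rho_ew_not hx]
    omega

lemma FI_ew {i : ℕ} {w : P} (x : P) :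
    FI i (ew i w) x ↔ lev x < i ∨ w < x := by
  constructor
  · intro h
    by_contra hcon
    push Not at hcon
    obtain ⟨h1, h2⟩ := hcon
    have h3 : 0 ≤ rho i (ew i w) x := by
      by_cases hx : w ≤ x
      · rw [rho_ew_up hx]
        omega
      · rw [rho_ew_not hx]
        omega
    rcases h with h | ⟨z, hz, hz2⟩
    · omega
    · by_cases hwz : w ≤ z
      · exact h2 (lt_of_le_of_lt hwz hz)
      · rw [rho_ew_not hwz] at hz2
        omega
  · rintro (h | h)
    · left
      rw [rho_ew_small h.le]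
      omega
    · right
      refine ⟨w, h, ?_⟩
      rw [rho_ew_up h.le, rho_ew_up le_rfl]
      have := lev_strictAnti h
      omega

lemma FA_ew {i : ℕ} {w : P} (x : P) : FA i (ew i w) x ↔ i < lev x ∧ ¬ w ≤ x := by
  constructor
  · rintro ⟨y, hy, hy2⟩
    have h1 := lev_strictAnti hy
    by_contra hcon
    by_cases hx : w ≤ x
    · rw [rho_ew_up hx, rho_ew_up (hx.trans hy.le)] at hy2
      omega
    · have h2 : lev x ≤ i := by
        by_contra h
        exact hcon ⟨not_le.1 h, hx⟩
      rw [rho_ew_small h2, rho_ew_small (h1.le.trans h2)] at hy2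
      omega
  · rintro ⟨h1, h2⟩
    obtain ⟨y, hy, hy2⟩ := exists_above' (x := x) (j := i) h1.le
    refine ⟨y, lt_of_le_of_ne hy (by rintro rfl; omega), ?_⟩
    rw [rho_ew_not h2, rho_ew_small hy2.le]
    omega

lemma adm_ew {i : ℕ} {w : P} (hw : i < lev w) : Adm i (ew i w) := by
  intro x hx
  rw [FI_ew, FA_ew] at hx
  obtain ⟨h1 | h1, h2, h3⟩ := hx
  · omega
  · exact h3 h1.le

lemma ew_inj {i : ℕ} {w w' : P} (hw : i < lev w) (hw' : i < lev w') (h : ew i w = ew i w') :
    w = w' := by
  have h1 := congrFun h w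
  have h2 := congrFun h w'
  unfold ew at h1 h2
  rw [if_pos le_rfl] at h1
  rw [if_pos (le_refl w')] at h2
  have h3 : w' ≤ w := by
    by_contra hcon
    rw [if_neg hcon] at h1
    omega
  have h4 : w ≤ w' := by
    by_contra hcon
    rw [if_neg hcon] at h2
    omega
  exact le_antisymm h4 h3

open Classical in
/-- number of elements of level at least `i` above `w` -/
noncomputable def uc (i : ℕ) (w : P) : ℕ := (univ.filter (fun x => w ≤ x ∧ i ≤ lev x)).card

lemma nf_ew {i : ℕ} {w : P} (hw : i < lev w) : nf i (ew i w) + 1 = below P i + uc i w := by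
  classical
  unfold nf below uc
  have h1 : (univ.filter fun x => FI i (ew i w) x) = (univ.filter fun x : P => lev x < i) ∪
      (univ.filter fun x => w < x ∧ i ≤ lev x) := by
    ext x
    simp only [mem_filter, mem_univ, true_and, mem_union, FI_ew]
    constructor
    · rintro (h | h)
      · exact Or.inl h
      · by_cases hx : lev x < i
        · exact Or.inl hx
        · exact Or.inr ⟨h, by omega⟩
    · rintro (h | h)
      · exact Or.inl h
      · exact Or.inr h.1
  have h2 : (univ.filter fun x => w ≤ x ∧ i ≤ lev x) =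
      insert w (univ.filter fun x => w < x ∧ i ≤ lev x) := by
    ext x
    simp only [mem_filter, mem_univ, true_and, mem_insert]
    constructor
    · rintro ⟨h3, h4⟩
      rcases eq_or_lt_of_le h3 with h | h
      · exact Or.inl h.symm
      · exact Or.inr ⟨h, h4⟩
    · rintro (h | h)
      · subst h
        exact ⟨le_rfl, hw.le⟩
      · exact ⟨h.1.le, h.2⟩
  rw [h1, h2, card_insert_of_notMem (by simp), card_union_of_disjoint]
  · ring
  · rw [Finset.disjoint_left]
    intro x hx hx2
    simp only [mem_filter, mem_univ, true_and] at hx hx2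
    omega

open Classical in
lemma Pk_ew {i : ℕ} {w : P} (hw : i < lev w) :
    (Pk i (ew i w)).card + ((lv P i).filter fun s => w ≤ s).card = (lv P i).card + 1 := by
  classical
  have h1 : Pk i (ew i w) = insert w ((lv P i).filter fun s => ¬ w ≤ s) := by
    ext x
    simp only [Pk, mem_filter, mem_univ, true_and, mem_insert, mem_lv, FI_ew, FA_ew]
    constructor
    · rintro ⟨h3, h4⟩
      push Not at h3 h4
      by_cases hx : w ≤ x
      · left
        by_contra hne
        exact h3.2 (lt_of_le_of_ne hx (Ne.symm hne))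
      · right
        refine ⟨?_, hx⟩
        by_contra hne
        exact hx (h4 (lt_of_le_of_ne h3.1 (Ne.symm hne)))
    · rintro (h | ⟨h, h'⟩)
      · subst h
        exact ⟨by simp [hw.le], by simp⟩
      · refine ⟨?_, by omega⟩
        push Not
        exact ⟨by omega, fun h2 => h' h2.le⟩
  rw [h1, card_insert_of_notMem (by simp), ← Finset.card_filter_add_card_filter_not (s := lv P i)
    (fun s => w ≤ s)]
  ring

variable {r i : ℕ}

/-- below every maximal element there is one site, and different sites have different tops -/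
lemma site_unique (H : Gr P r) (hi : i ≤ r) (hone : ∀ x : P, lev x ≤ i → ¬ Jn x)
    (hcard : (lv P i).card = (lv P 0).card) {s s' v : P} (hs : lev s = i) (hs' : lev s' = i)
    (hv : lev v = 0) (h : s ≤ v) (h' : s' ≤ v) : s = s' := by
  classical
  have hex : ∀ s : P, ∃ v, s ≤ v ∧ lev v = 0 := fun s => exists_above' (Nat.zero_le _)
  choose f hf hf2 using hex
  have hsurj : Set.SurjOn f (lv P i) (lv P 0) := by
    intro v hv
    rw [Finset.mem_coe, mem_lv] at hv
    obtain ⟨s, h1, h2⟩ := H.exists_below (x := v) (j := i) (by omega) hi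
    refine ⟨s, by rw [Finset.mem_coe, mem_lv]; exact h2, ?_⟩
    exact top_unique (hone s h2.le) (hf2 s) hv (hf s) h1
  have hinj := Finset.injOn_of_surjOn_of_card_le f (fun s _ => by
    rw [Finset.mem_coe, mem_lv]
    exact hf2 s) hsurj hcard.le
  have e1 : f s = v := top_unique (hone s hs.le) (hf2 s) hv (hf s) h
  have e2 : f s' = v := top_unique (hone s' hs'.le) (hf2 s') hv (hf s') h'
  exact hinj (by rw [Finset.mem_coe, mem_lv]; exact hs) (by rw [Finset.mem_coe, mem_lv]; exact hs')
    (e1.trans e2.symm)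

lemma En_lt {w u : P} (hw : i < lev w) (h : w < u) : En i u < En i w := by
  classical
  unfold En
  refine Finset.sum_lt_sum_of_subset (i := w) ?_ (by simp) (by simp [h.not_ge]) (by omega)
    fun _ _ _ => Nat.zero_le _
  intro x hx
  simp only [mem_filter, mem_univ, true_and] at hx ⊢
  exact h.le.trans hx

open Classical in
/-- a join of least energy is below exactly two sites -/
lemma two_sites (H : Gr P r) (hi : i ≤ r) (hone : ∀ x : P, lev x ≤ i → ¬ Jn x)
    (hcard : (lv P i).card = (lv P 0).card) {w : P} (hwJ : Jn w)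
    (hmin : ∀ u : P, Jn u → En i w ≤ En i u) :
    ((lv P i).filter fun s => w ≤ s).card = 2 := by
  classical
  have hlw : i < lev w := by
    by_contra h
    exact hone w (not_lt.1 h) hwJ
  have hup : ∀ u, w < u → ¬ Jn u := fun u hu hJ => by
    have h1 := hmin u hJ
    have h2 := En_lt hlw hu
    omega
  apply le_antisymm
  · have hex : ∀ s, s ∈ (lv P i).filter (fun s => w ≤ s) → ∃ x, w ⋖ x ∧ x ≤ s := by
      intro s hs
      rw [mem_filter, mem_lv] at hs
      exact exists_cov (lt_of_le_of_ne hs.2 (by rintro rfl; omega))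
    choose! g hg hg2 using hex
    obtain ⟨j, hj⟩ : ∃ j, lev w = j + 1 := ⟨lev w - 1, by omega⟩
    have h2 : up j w ≤ 2 := (energy_one H (j := j) (by have := H.lev_le w; omega)).2.1 w hj
    refine le_trans ?_ h2
    unfold up
    refine Finset.card_le_card_of_injOn g ?_ ?_
    · intro s hs
      have h3 := hg s hs
      have h4 := lev_covBy H.gauss h3
      rw [Finset.mem_coe, mem_filter, mem_lv]
      exact ⟨by omega, h3.1⟩
    · intro s hs s' hs' hss
      have h5 := hg s hs
      have h6 := hg2 s hs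
      have h7 := hg2 s' hs'
      rw [← hss] at h7
      rw [Finset.mem_coe, mem_filter, mem_lv] at hs hs'
      obtain ⟨v, h8, h9⟩ := exists_above' (x := s) (j := 0) (Nat.zero_le _)
      obtain ⟨v', h10, h11⟩ := exists_above' (x := s') (j := 0) (Nat.zero_le _)
      have h12 := top_unique (hup _ h5.1) h9 h11 (h6.trans h8) (h7.trans h10)
      exact site_unique H hi hone hcard hs.1 hs'.1 h9 h8 (by rw [h12]; exact h10)
  · obtain ⟨v, v', h1, h2, h3, h4, h5⟩ := hwJ
    obtain ⟨s, h6, h7, h8⟩ := exists_between H.gauss h4 (k := i) (by omega) hlw.le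
    obtain ⟨s', h9, h10, h11⟩ := exists_between H.gauss h5 (k := i) (by omega) hlw.le
    have hne : s ≠ s' := by
      rintro rfl
      exact h3 (top_unique (hone s h8.le) h1 h2 h7 h10)
    have h12 : ({s, s'} : Finset P) ⊆ (lv P i).filter fun s => w ≤ s := by
      intro x hx
      rw [mem_insert, mem_singleton] at hx
      rw [mem_filter, mem_lv]
      rcases hx with rfl | rfl
      · exact ⟨h8, h6⟩
      · exact ⟨h11, h9⟩
    have h13 := Finset.card_le_card h12
    rwa [Finset.card_pair hne] at h13

/-- the dichotomy for a configuration of small energy -/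
lemma few_peaks (H : Gr P r) (hi : i ≤ r) (hone : ∀ x : P, lev x ≤ i → ¬ Jn x)
    (hcard : (lv P i).card = (lv P 0).card) {E : ℕ} (hE : ∀ w : P, Jn w → E ≤ En i w)
    {e : P → ℕ} (hA : Adm i e) (he : ∑ x, e x = E) (hpk : (Pk i e).card < (lv P i).card) :
    ∃ w : P, Jn w ∧ En i w = E ∧ e = ew i w := by
  classical
  by_cases hJ : ∀ x : P, Jn x → FA i e x
  · exfalso
    by_cases hpe : ∀ v : P, lev v = 0 → ∃ p, p ≤ v ∧ ¬ FI i e p ∧ ¬ FA i e p
    · choose! g hg hg2 hg3 using hpe
      have h1 : (lv P 0).card ≤ (Pk i e).card := by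
        refine Finset.card_le_card_of_injOn g ?_ ?_
        · intro v hv
          rw [Finset.mem_coe, mem_lv] at hv
          rw [Finset.mem_coe]
          simp only [Pk, mem_filter, mem_univ, true_and]
          exact ⟨hg2 v hv, hg3 v hv⟩
        · intro v hv v' hv' hvv
          rw [Finset.mem_coe, mem_lv] at hv hv'
          have h2 := hg v hv
          have h3 := hg v' hv'
          rw [← hvv] at h3
          exact top_unique (fun h => hg3 v hv (hJ _ h)) hv hv' h2 h3
      omega
    · push Not at hpe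
      obtain ⟨v, hv, hv2⟩ := hpe
      obtain ⟨w, hw, hw2⟩ := zig H hi hone hA hJ hv hv2
      have := hE w hw
      omega
  · push Not at hJ
    obtain ⟨w, hwJ, hwF⟩ := hJ
    have hlw : i < lev w := by
      by_contra h
      exact hone w (not_lt.1 h) hwJ
    have hall : ∀ u, w ≤ u → (lev u : ℤ) - i ≤ rho i e u := fun u hu =>
      lev_le_rho hA (lev u) rfl (not_FA_up hA hwF hu)
    have h1 := En_le_of_rho hall
    have h2 := hE w hwJ
    have h3 : En i w = ∑ x, e x := by omega
    refine ⟨w, hwJ, by omega, ?_⟩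
    have h4 : ∀ x ∈ (univ : Finset P), ew i w x ≤ e x := by
      intro x _
      unfold ew
      split_ifs with hx
      · exact le_e_of_rho (hall x hx)
      · exact Nat.zero_le _
    rw [← sum_ew] at h3
    have h5 := (Finset.sum_eq_sum_iff_of_le h4).1 h3
    funext x
    exact (h5 x (mem_univ x)).symm

end Pool.Agent.GaussPoset.Hul

end

/-! From `Pool.Agent.W_448hul_h24.Hull` -/

section

/-!
# Lemma H: the joins of least energy have both parities

`P` Gaussian with levels `0..r`, `i ≤ r`, no element of level at most `i` is below two maximal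
elements, level `i` has as many elements as level `0`.  `E` is a lower bound for the energies
`En i w = ∑_(y ≥ w) (lev y - i)` of the joins (elements below two maximal elements).  Then the
number of the joins of energy `E` with an even number of elements above them equals the number of
those with an odd number.
-/

namespace Pool.Agent.GaussPoset.Hul

set_option linter.unusedSectionVars false

open Polynomial Finset

universe u

variable {P : Type u} [Fintype P] [PartialOrder P] [DecidableEq P] {r i : ℕ}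

open Classical in
/-- the sum over the joins of least energy, counted from level `i` -/
theorem hull_uc (H : Gr P r) (hi : i ≤ r) (hone : ∀ x : P, lev x ≤ i → ¬ Jn x)
    (hcard : (lv P i).card = (lv P 0).card) {E : ℕ} (hE : ∀ w : P, Jn w → E ≤ En i w) :
    ∑ w ∈ univ.filter (fun w : P => Jn w ∧ En i w = E), (-1 : ℤ) ^ uc i w = 0 := by
  obtain ⟨W, hW⟩ : ∃ W, W = univ.filter (fun w : P => Jn w ∧ En i w = E) := ⟨_, rfl⟩
  rw [← hW]
  rcases W.eq_empty_or_nonempty with hne | ⟨w0, hw0⟩
  · rw [hne, Finset.sum_empty]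
  have hmem : ∀ w ∈ W, Jn w ∧ En i w = E := fun w hw => by
    rw [hW, mem_filter] at hw
    exact hw.2
  have hlev : ∀ w ∈ W, i < lev w := fun w hw => by
    by_contra h
    exact hone w (not_lt.1 h) (hmem w hw).1
  have hsites : ∀ w ∈ W, ((lv P i).filter fun s => w ≤ s).card = 2 := fun w hw =>
    two_sites H hi hone hcard (hmem w hw).1 fun u hu => by
      rw [(hmem w hw).2]
      exact hE u hu
  obtain ⟨M, hM⟩ : ∃ M, (lv P i).card = M + 1 := by
    refine ⟨(lv P i).card - 1, ?_⟩
    have h1 := hsites w0 hw0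
    have h2 := Finset.card_filter_le (lv P i) (fun s => w0 ≤ s)
    omega
  have hPk : ∀ w ∈ W, (Pk i (ew i w)).card = M := fun w hw => by
    have h1 := Pk_ew (hlev w hw)
    rw [hsites w hw] at h1
    omega
  -- the terms
  let t : (P → ℕ) → ℤ[X] := fun e =>
    if Adm i e then X ^ (nf i e) * (1 + X) ^ (Pk i e).card else 0
  have hZ : Z P i E = ∑ e ∈ (univ : Finset P).piAntidiag E, t e := rfl
  have hsub : W.image (ew i) ⊆ (univ : Finset P).piAntidiag E := by
    intro e he
    obtain ⟨w, hw, rfl⟩ := mem_image.1 he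
    rw [mem_piAntidiag]
    exact ⟨by rw [sum_ew]; exact (hmem w hw).2, fun _ _ => mem_univ _⟩
  have hdvd : (1 + X : ℤ[X]) ^ (M + 1) ∣
      ∑ e ∈ (univ : Finset P).piAntidiag E \ W.image (ew i), t e := by
    refine Finset.dvd_sum fun e he => ?_
    rw [mem_sdiff, mem_piAntidiag] at he
    show (1 + X : ℤ[X]) ^ (M + 1) ∣ if Adm i e then _ else _
    split_ifs with hA
    · refine Dvd.dvd.mul_left (pow_dvd_pow _ ?_) _
      by_contra hlt
      obtain ⟨w, h1, h2, h3⟩ := few_peaks H hi hone hcard hE hA he.1.1 (by omega)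
      refine he.2 (mem_image.2 ⟨w, ?_, h3.symm⟩)
      rw [hW]
      simp [h1, h2]
    · exact dvd_zero _
  have hZd := dvd_Z H.gauss i E
  rw [hM, hZ, ← Finset.sum_sdiff hsub] at hZd
  have h1 := (dvd_add_right hdvd).1 hZd
  have hinj : Set.InjOn (ew i) (W : Set P) := fun w hw w' hw' h =>
    ew_inj (hlev w hw) (hlev w' hw') h
  rw [Finset.sum_image hinj] at h1
  have h2 : ∑ w ∈ W, t (ew i w) = (1 + X : ℤ[X]) ^ M * ∑ w ∈ W, X ^ nf i (ew i w) := by
    rw [Finset.mul_sum]
    refine Finset.sum_congr rfl fun w hw => ?_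
    show (if Adm i (ew i w) then _ else _) = _
    rw [if_pos (adm_ew (hlev w hw)), hPk w hw, mul_comm]
  rw [h2, pow_succ] at h1
  have hne : (1 + X : ℤ[X]) ^ M ≠ 0 := by
    have h3 := X_pow_mul_ne_zero 0 M
    rwa [pow_zero, one_mul] at h3
  have h4 := (mul_dvd_mul_iff_left hne).1 h1
  obtain ⟨g, hg⟩ := h4
  have h5 := congrArg (Polynomial.eval (-1)) hg
  rw [Polynomial.eval_finsetSum, Polynomial.eval_mul] at h5
  simp only [eval_pow, eval_X, eval_add, eval_one, add_neg_cancel, zero_mul] at h5
  have h6 : ∀ w ∈ W, (-1 : ℤ) ^ uc i w = -(-1) ^ below P i * (-1) ^ nf i (ew i w) := by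
    intro w hw
    have h7 := nf_ew (hlev w hw)
    have h8 : (-1 : ℤ) ^ (below P i + uc i w) = (-1) ^ (nf i (ew i w) + 1) := by rw [← h7]
    have h9 : ((-1 : ℤ) ^ below P i) * (-1) ^ below P i = 1 := by
      rw [← mul_pow]
      norm_num
    rw [pow_add, pow_succ] at h8
    calc (-1 : ℤ) ^ uc i w = ((-1) ^ below P i * (-1) ^ below P i) * (-1) ^ uc i w := by
          rw [h9, one_mul]
      _ = (-1) ^ below P i * ((-1) ^ below P i * (-1) ^ uc i w) := by ring
      _ = _ := by
          rw [h8]
          ring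
  rw [Finset.sum_congr rfl h6, ← Finset.mul_sum, h5, mul_zero]

open Classical in
/-- the number of elements of a level of single sites above `w` is the number of tops above `w` -/
lemma level_card (H : Gr P r) (hi : i ≤ r) (hone : ∀ x : P, lev x ≤ i → ¬ Jn x)
    (hcard : (lv P i).card = (lv P 0).card) {w : P} (hw : i ≤ lev w) :
    ((lv P i).filter fun s => w ≤ s).card = ((lv P 0).filter fun s => w ≤ s).card := by
  have hex : ∀ s : P, ∃ v, s ≤ v ∧ lev v = 0 := fun s => exists_above' (Nat.zero_le _)
  choose f hf hf2 using hex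
  refine Finset.card_bij (fun s _ => f s) ?_ ?_ ?_
  · intro s hs
    rw [mem_filter, mem_lv] at hs ⊢
    exact ⟨hf2 s, hs.2.trans (hf s)⟩
  · intro s hs s' hs' h
    rw [mem_filter, mem_lv] at hs hs'
    exact site_unique H hi hone hcard hs.1 hs'.1 (hf2 s) (hf s) (by rw [h]; exact hf s')
  · intro v hv
    rw [mem_filter, mem_lv] at hv
    obtain ⟨s, h1, h2, h3⟩ := exists_between H.gauss hv.2 (k := i) (by omega) hw
    refine ⟨s, by rw [mem_filter, mem_lv]; exact ⟨h3, h1⟩, ?_⟩
    exact top_unique (hone s h3.le) (hf2 s) hv.1 (hf s) h2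

open Classical in
/-- the number of elements above `w` (with `w`) -/
noncomputable def ua (w : P) : ℕ := (univ.filter (fun x => w ≤ x)).card

open Classical in
/-- the number of elements of level `k` above `w` -/
noncomputable def cc (k : ℕ) (w : P) : ℕ := ((lv P k).filter (fun x => w ≤ x)).card

open Classical in
lemma sum_levels (w : P) (f : ℕ → ℕ) (i : ℕ) :
    ∑ x ∈ univ.filter (fun x : P => w ≤ x ∧ lev x < i), f (lev x) =
      ∑ k ∈ Finset.range i, f k * cc k w := by
  rw [← Finset.sum_fiberwise_of_maps_to (t := Finset.range i) (g := fun x : P => lev x)]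
  · refine Finset.sum_congr rfl fun k hk => ?_
    rw [Finset.sum_congr rfl (g := fun _ => f k)]
    · rw [Finset.sum_const, smul_eq_mul, mul_comm]
      unfold cc
      congr 2
      ext x
      simp only [mem_filter, mem_univ, true_and, mem_lv]
      constructor
      · rintro ⟨⟨h1, -⟩, h2⟩
        exact ⟨h2, h1⟩
      · rintro ⟨h1, h2⟩
        refine ⟨⟨h2, ?_⟩, h1⟩
        rw [h1]
        exact Finset.mem_range.1 hk
    · intro x hx
      rw [(mem_filter.1 hx).2]
  · intro x hx
    rw [mem_filter] at hx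
    exact Finset.mem_range.2 hx.2.2

lemma cc_eq (H : Gr P r) (hi : i ≤ r) (hone : ∀ x : P, lev x ≤ i → ¬ Jn x) {M : ℕ}
    (hcard : ∀ k ≤ i, (lv P k).card = M) {w : P} (hw : i ≤ lev w) {k : ℕ} (hk : k ≤ i) :
    cc k w = cc 0 w := by
  classical
  exact level_card H (hk.trans hi) (fun x hx => hone x (hx.trans hk))
    (by rw [hcard k hk, hcard 0 (Nat.zero_le _)]) (hk.trans hw)

/-- the number of elements above `w` -/
lemma ua_eq (H : Gr P r) (hi : i ≤ r) (hone : ∀ x : P, lev x ≤ i → ¬ Jn x) {M : ℕ}
    (hcard : ∀ k ≤ i, (lv P k).card = M) {w : P} (hw : i ≤ lev w) :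
    ua w = uc i w + cc 0 w * i := by
  classical
  have h1 := sum_levels w (fun _ => 1) i
  simp only [one_mul, Finset.sum_const, smul_eq_mul, mul_one] at h1
  rw [Finset.sum_congr rfl (g := fun _ => cc 0 w) fun k hk =>
    cc_eq H hi hone hcard hw (Finset.mem_range.1 hk).le, Finset.sum_const, Finset.card_range,
    smul_eq_mul] at h1
  rw [mul_comm, ← h1]
  unfold ua uc
  rw [← Finset.card_filter_add_card_filter_not (s := univ.filter fun x : P => w ≤ x)
    (fun x => i ≤ lev x), Finset.filter_filter, Finset.filter_filter]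
  simp only [not_le]

open Classical in
/-- LEMMA H.  The levels `0, ..., i` consist of single sites: no element of them is below two
maximal elements, and they have the same number of elements.  Then the joins of least energy
`En i w` have both parities of the number `ua w` of elements above them, equally often. -/
theorem hull (H : Gr P r) (hi : i ≤ r) (hone : ∀ x : P, lev x ≤ i → ¬ Jn x)
    (hcard : ∀ k ≤ i, (lv P k).card = (lv P 0).card) {E : ℕ}
    (hE : ∀ w : P, Jn w → E ≤ En i w) :
    ∑ w ∈ univ.filter (fun w : P => Jn w ∧ En i w = E), (-1 : ℤ) ^ ua w = 0 := by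
  have h1 := hull_uc H hi hone (hcard i le_rfl) hE
  rw [← h1]
  refine Finset.sum_congr rfl fun w hw => ?_
  rw [mem_filter] at hw
  obtain ⟨-, hwJ, hwE⟩ := hw
  have hlw : i < lev w := by
    by_contra h
    exact hone w (not_lt.1 h) hwJ
  have h2 := two_sites H hi hone (hcard i le_rfl) hwJ fun u hu => by
    rw [hwE]
    exact hE u hu
  have h3 : cc 0 w = 2 := by
    rw [← cc_eq H hi hone hcard hlw.le le_rfl]
    exact h2
  rw [ua_eq H hi hone hcard hlw.le, h3, pow_add, pow_mul]
  norm_num

open Classical in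
/-- window `0`, no hypothesis -/
theorem hull_zero (H : Gr P r) {E : ℕ} (hE : ∀ w : P, Jn w → E ≤ En 0 w) :
    ∑ w ∈ univ.filter (fun w : P => Jn w ∧ En 0 w = E), (-1 : ℤ) ^ ua w = 0 := by
  refine hull H (Nat.zero_le _) (fun x hx hJ => ?_) (fun k hk => by
    rw [Nat.le_zero.1 hk]) hE
  obtain ⟨v, v', h1, h2, h3, h4, h5⟩ := hJ
  have h6 : ∀ v : P, x ≤ v → x = v := fun v hv => by
    by_contra hne
    have := lev_strictAnti (lt_of_le_of_ne hv hne)
    omega
  exact h3 ((h6 v h4).symm.trans (h6 v' h5))

section Straight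

lemma cc_self (w : P) : cc (lev w) w = 1 := by
  classical
  unfold cc
  rw [Finset.card_eq_one]
  refine ⟨w, ?_⟩
  ext x
  simp only [mem_filter, mem_lv, mem_singleton]
  constructor
  · rintro ⟨h1, h2⟩
    by_contra hne
    have := lev_strictAnti (lt_of_le_of_ne h2 (Ne.symm hne))
    omega
  · rintro rfl
    exact ⟨rfl, le_rfl⟩

/-- the energy as a sum over the levels -/
lemma En_levels (i : ℕ) (w : P) :
    En i w = ∑ k ∈ Finset.range (lev w), (k - i) * cc k w + (lev w - i) := by
  classical
  have h1 := sum_levels w (fun k => k - i) (lev w + 1)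
  rw [Finset.sum_range_succ, cc_self, mul_one] at h1
  rw [← h1]
  unfold En
  congr 1
  ext x
  simp only [mem_filter, mem_univ, true_and]
  constructor
  · intro h
    exact ⟨h, Nat.lt_succ_of_le (lev_strictAnti.antitone h)⟩
  · exact fun h => h.1

lemma ua_levels (w : P) : ua w = ∑ k ∈ Finset.range (lev w), cc k w + 1 := by
  classical
  have h1 := sum_levels w (fun _ => 1) (lev w + 1)
  rw [Finset.sum_range_succ, cc_self, mul_one] at h1
  simp only [one_mul, Finset.sum_const, smul_eq_mul, mul_one] at h1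
  rw [← h1]
  unfold ua
  congr 1
  ext x
  simp only [mem_filter, mem_univ, true_and]
  constructor
  · intro h
    exact ⟨h, Nat.lt_succ_of_le (lev_strictAnti.antitone h)⟩
  · exact fun h => h.1

end Straight

end Pool.Agent.GaussPoset.Hul

end
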