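import Mathlib
import Pool.Agent.W_448zz_h61.Ns
import Pool.Agent.W_448zz_h61.M007
import Pool.Agent.W_448zz_h61.M012

/-! From `Pool.Agent.W_448g_h5.GA` -/

section

/-!
Gaussian posets in which every maximal element covers two elements: the levels above the first bad
level.
-/

namespace Pool.Agent.GaussPoset.Win

set_option linter.unusedSectionVars false

open Finset

universe u

variable {P : Type u} [Fintype P] [PartialOrder P] [DecidableEq P] {r : ℕ}

lemma mem_PD {i : ℕ} {z : P} : z ∈ PD P i ↔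
    lev z = i + 2 ∧ (uc z).card = 1 ∧ ∃ w, z ⋖ w ∧ (uc w).card = 2 := by
  classical
  unfold PD
  rw [mem_filter]
  simp

lemma mem_PU {i : ℕ} {x : P} : x ∈ PU P i ↔
    lev x + 2 = i ∧ (dc x).card = 1 ∧ ∃ u, u ⋖ x ∧ (dc u).card = 2 := by
  classical
  unfold PU
  rw [mem_filter]
  simp

lemma ucv_pos {v v' y : P} (h1 : v ⋖ y) (h2 : v' ⋖ y) : 0 < ucv v v' := by
  classical
  unfold ucv
  rw [Finset.card_pos]
  exact ⟨y, by simp [h1, h2]⟩

lemma dcv_pos {v v' w : P} (h1 : w ⋖ v) (h2 : w ⋖ v') : 0 < dcv v v' := by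
  classical
  unfold dcv
  rw [Finset.card_pos]
  exact ⟨w, by simp [h1, h2]⟩

lemma exists_of_ucv {v v' : P} (h : 0 < ucv v v') : ∃ y, v ⋖ y ∧ v' ⋖ y := by
  classical
  unfold ucv at h
  rw [Finset.card_pos] at h
  obtain ⟨y, hy⟩ := h
  simp only [mem_filter, mem_univ, true_and] at hy
  exact ⟨y, hy⟩

lemma exists_of_dcv {v v' : P} (h : 0 < dcv v v') : ∃ w, w ⋖ v ∧ w ⋖ v' := by
  classical
  unfold dcv at h
  rw [Finset.card_pos] at h
  obtain ⟨y, hy⟩ := h
  simp only [mem_filter, mem_univ, true_and] at hy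
  exact ⟨y, hy⟩

lemma lev_cov (H : Gr P r) {z x : P} (h : z ⋖ x) : lev z = lev x + 1 := (H.covBy_iff.mp h).2

/-- a common upper cover gives a common lower cover -/
lemma down_of_up {i : ℕ} (hg : Good P i) {v v' y : P} (hv : lev v = i) (hv' : lev v' = i)
    (hne : v ≠ v') (h1 : v ⋖ y) (h2 : v' ⋖ y) : ∃ w, w ⋖ v ∧ w ⋖ v' := by
  have h := ucv_pos h1 h2
  rw [hg v v' hv hv' hne] at h
  exact exists_of_dcv h

/-- a common lower cover gives a common upper cover -/
lemma up_of_down {i : ℕ} (hg : Good P i) {v v' w : P} (hv : lev v = i) (hv' : lev v' = i)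
    (hne : v ≠ v') (h1 : w ⋖ v) (h2 : w ⋖ v') : ∃ y, v ⋖ y ∧ v' ⋖ y := by
  have h := dcv_pos h1 h2
  rw [← hg v v' hv hv' hne] at h
  exact exists_of_ucv h

lemma uc_unique {x a b : P} (h : (uc x).card = 1) (ha : x ⋖ a) (hb : x ⋖ b) : a = b :=
  Finset.card_le_one.mp h.le a (mem_uc.mpr ha) b (mem_uc.mpr hb)

lemma dc_unique {x a b : P} (h : (dc x).card = 1) (ha : a ⋖ x) (hb : b ⋖ x) : a = b :=
  Finset.card_le_one.mp h.le a (mem_dc.mpr ha) b (mem_dc.mpr hb)

lemma uc_card_cases (H : Gr P r) {x : P} (h : 1 ≤ lev x) : (uc x).card = 1 ∨ (uc x).card = 2 := by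
  have h1 := uc_card_le H x
  have h2 := Finset.card_pos.mpr (uc_nonempty H h)
  omega

lemma dc_card_cases {x z : P} (H : Gr P r) (h : z ⋖ x) : (dc x).card = 1 ∨ (dc x).card = 2 := by
  have h1 := dc_card_le H x
  have h2 : 0 < (dc x).card := Finset.card_pos.mpr ⟨z, mem_dc.mpr h⟩
  omega

lemma exists_other_dc {x z : P} (h : (dc x).card = 2) : ∃ z', z' ⋖ x ∧ z' ≠ z := by
  obtain ⟨b, hb, hne⟩ := Finset.exists_mem_ne (by omega : 1 < (dc x).card) z
  exact ⟨b, mem_dc.mp hb, hne⟩

lemma exists_other_uc {x y : P} (h : (uc x).card = 2) : ∃ y', x ⋖ y' ∧ y' ≠ y := by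
  obtain ⟨b, hb, hne⟩ := Finset.exists_mem_ne (by omega : 1 < (uc x).card) y
  exact ⟨b, mem_uc.mp hb, hne⟩

lemma dc_three (H : Gr P r) {x a b c : P} (ha : a ⋖ x) (hb : b ⋖ x) (hc : c ⋖ x) (hab : a ≠ b)
    (hac : a ≠ c) (hbc : b ≠ c) : False := by
  have h1 := dc_card_le H x
  have h2 : ({a, b, c} : Finset P) ⊆ dc x := by
    intro y hy
    simp only [mem_insert, mem_singleton] at hy
    rcases hy with rfl | rfl | rfl
    · exact mem_dc.mpr ha
    · exact mem_dc.mpr hb
    · exact mem_dc.mpr hc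
  have h3 := Finset.card_le_card h2
  rw [Finset.card_eq_three.mpr ⟨a, b, c, hab, hac, hbc, rfl⟩] at h3
  omega

lemma uc_three (H : Gr P r) {x a b c : P} (ha : x ⋖ a) (hb : x ⋖ b) (hc : x ⋖ c) (hab : a ≠ b)
    (hac : a ≠ c) (hbc : b ≠ c) : False := by
  have h1 := uc_card_le H x
  have h2 : ({a, b, c} : Finset P) ⊆ uc x := by
    intro y hy
    simp only [mem_insert, mem_singleton] at hy
    rcases hy with rfl | rfl | rfl
    · exact mem_uc.mpr ha
    · exact mem_uc.mpr hb
    · exact mem_uc.mpr hc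
  have h3 := Finset.card_le_card h2
  rw [Finset.card_eq_three.mpr ⟨a, b, c, hab, hac, hbc, rfl⟩] at h3
  omega

/-- level zero is good -/
theorem good_zero (H : Gr P r) : Good P 0 := by
  classical
  intro v v' hv hv' hne
  have h0 : ucv v v' = 0 := by
    by_contra h
    obtain ⟨y, h1, -⟩ := exists_of_ucv (Nat.pos_of_ne_zero h)
    have := lev_cov H h1
    omega
  have h1 : dcv v v' = 0 := by
    by_contra h
    obtain ⟨w, h1, h2⟩ := exists_of_dcv (Nat.pos_of_ne_zero h)
    have hl := lev_cov H h1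
    have h3 := (energy_one H (j := 0) (by omega)).2.2
    have h4 : ((univ.filter (fun a : P => lev a + 1 = 0)).filter (fun a => dn 0 a = 2)) = ∅ := by
      rw [Finset.filter_eq_empty_iff]
      intro a ha
      simp at ha
    rw [h4, Finset.card_empty] at h3
    have h5 := Finset.card_eq_zero.mp h3.symm
    rw [Finset.filter_eq_empty_iff] at h5
    refine h5 (mem_lv.mpr (show lev w = 0 + 1 by omega)) ?_
    refine le_antisymm ((energy_one H (j := 0) (by omega)).2.1 w (by omega)) ?_
    unfold up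
    have h6 : ({v, v'} : Finset P) ⊆ (lv P 0).filter (fun x => w < x) := by
      intro x hx
      simp only [mem_insert, mem_singleton] at hx
      rw [mem_filter, mem_lv]
      rcases hx with rfl | rfl
      · exact ⟨hv, h1.lt⟩
      · exact ⟨hv', h2.lt⟩
    have h7 := Finset.card_le_card h6
    rwa [Finset.card_pair hne] at h7
  rw [h0, h1]

/-- elements of level one have one upper cover -/
lemma uc_level_one (H : Gr P r) {x : P} (hx : lev x = 1) : (uc x).card = 1 := by
  classical
  rcases uc_card_cases H (x := x) (by omega) with h | h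
  · exact h
  · exfalso
    obtain ⟨y, hy⟩ := uc_nonempty H (x := x) (by omega)
    rw [mem_uc] at hy
    obtain ⟨y', hy', hne⟩ := exists_other_uc (y := y) h
    have l1 := lev_cov H hy
    have l2 := lev_cov H hy'
    obtain ⟨t, ht, -⟩ := up_of_down (good_zero H) (v := y) (v' := y') (by omega) (by omega)
      hne.symm hy hy'
    have l3 := lev_cov H ht
    omega

end Pool.Agent.GaussPoset.Win

end

/-! From `Pool.Agent.W_448cp_h96.CA` -/

section

/-!
# Component rows (MP_448cb3_co, general case)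

The elements of level at most `j` below a maximal element form a planar strip if the levels less
than `j` are good.
-/

namespace Pool.Agent.GaussPoset.Cp

set_option linter.unusedSectionVars false

open Finset Win

universe u

variable {P : Type u} [Fintype P] [PartialOrder P] [DecidableEq P] {r j : ℕ}

/-- no element of level at most `j` is below two maximal elements -/
theorem no_join (H : Gr P r) (hg : ∀ l, l < j → Good P l) : ∀ x : P, lev x ≤ j → ¬ Hul.Jn x := by
  suffices key : ∀ (n : ℕ) (x : P), lev x = n → n ≤ j → ¬ Hul.Jn x from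
    fun x hx => key _ x rfl hx
  intro n
  induction n with
  | zero =>
    rintro x hx - ⟨v, v', h1, h2, h3, h4, h5⟩
    have h6 : ∀ v : P, x ≤ v → x = v := fun v hv => by
      by_contra hne
      have := lev_strictAnti (lt_of_le_of_ne hv hne)
      omega
    exact h3 ((h6 v h4).symm.trans (h6 v' h5))
  | succ n ih =>
    rintro x hx hn ⟨v, v', h1, h2, h3, h4, h5⟩
    have hxv : x < v := lt_of_le_of_ne h4 (by rintro rfl; omega)
    have hxv' : x < v' := lt_of_le_of_ne h5 (by rintro rfl; omega)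
    obtain ⟨y, hy, hy2⟩ := Hul.exists_cov hxv
    obtain ⟨y', hy', hy2'⟩ := Hul.exists_cov hxv'
    have hl := lev_covBy H.gauss hy
    have hl' := lev_covBy H.gauss hy'
    by_cases hyy : y = y'
    · exact ih y (by omega) (by omega) ⟨v, v', h1, h2, h3, hy2, hyy ▸ hy2'⟩
    · have hg' := hg n (by omega) y y' (by omega) (by omega) hyy
      have hd := dcv_pos hy hy'
      rw [← hg'] at hd
      obtain ⟨w, hw, hw'⟩ := exists_of_ucv hd
      obtain ⟨t, ht, ht2⟩ := exists_above' (x := w) (j := 0) (Nat.zero_le _)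
      have e1 := Hul.top_unique (ih y (by omega) (by omega)) h1 ht2 hy2 (hw.le.trans ht)
      have e2 := Hul.top_unique (ih y' (by omega) (by omega)) h2 ht2 hy2' (hw'.le.trans ht)
      exact h3 (e1.trans e2.symm)

/-- everything above an element of level `≤ j` below `t` is below `t` -/
lemma up_le (H : Gr P r) (hg : ∀ l, l < j → Good P l) {z t y : P} (ht : lev t = 0) (hz : z ≤ t)
    (hzj : lev z ≤ j) (hzy : z ≤ y) : y ≤ t := by
  obtain ⟨s, hs, hs2⟩ := exists_above' (x := y) (j := 0) (Nat.zero_le _)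
  have := Hul.top_unique (no_join H hg z hzj) ht hs2 hz (hzy.trans hs)
  rw [this]
  exact hs

/-- The elements of level `≤ j` below the maximal element `t` form a planar strip: level `k` is the
interval `e k (lo k), …, e k (hi k)`, and the upper covers of `e (k+1) s` are `e k s` and
`e k (s-1)` as far as they exist. -/
structure Comp (j : ℕ) (t : P) (lo hi : ℕ → ℕ) (e : ℕ → ℕ → P) : Prop where
  lo_zero : lo 0 = 0
  hi_zero : hi 0 = 0
  top : e 0 0 = t
  lo_step : ∀ k, k < j → lo (k + 1) = lo k ∨ lo (k + 1) = lo k + 1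
  hi_step : ∀ k, k < j → hi (k + 1) = hi k ∨ hi (k + 1) = hi k + 1
  lo_le : ∀ k, k ≤ j → lo k ≤ hi k
  lev_e : ∀ k s, k ≤ j → lo k ≤ s → s ≤ hi k → lev (e k s) = k
  le_t : ∀ k s, k ≤ j → lo k ≤ s → s ≤ hi k → e k s ≤ t
  inj : ∀ k s s', k ≤ j → lo k ≤ s → s ≤ hi k → lo k ≤ s' → s' ≤ hi k → e k s = e k s' → s = s'
  surj : ∀ z, z ≤ t → lev z ≤ j → ∃ s, lo (lev z) ≤ s ∧ s ≤ hi (lev z) ∧ e (lev z) s = z
  cov : ∀ k s s', k < j → lo (k + 1) ≤ s → s ≤ hi (k + 1) → lo k ≤ s' → s' ≤ hi k →
    (e (k + 1) s ⋖ e k s' ↔ s' = s ∨ s' + 1 = s)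

/-- adding one level -/
lemma Comp.extend (H : Gr P r) {k : ℕ} {t : P} (ht : lev t = 0) {lo hi : ℕ → ℕ} {e : ℕ → ℕ → P}
    (C : Comp k t lo hi e) {lo' hi' : ℕ} {f : ℕ → P} (hlo : lo' = lo k ∨ lo' = lo k + 1)
    (hhi : hi' = hi k ∨ hi' = hi k + 1) (hle : lo' ≤ hi')
    (hlev : ∀ s, lo' ≤ s → s ≤ hi' → lev (f s) = k + 1)
    (hinj : ∀ s s', lo' ≤ s → s ≤ hi' → lo' ≤ s' → s' ≤ hi' → f s = f s' → s = s')
    (hsurj : ∀ z, z ≤ t → lev z = k + 1 → ∃ s, lo' ≤ s ∧ s ≤ hi' ∧ f s = z)
    (hcov : ∀ s s', lo' ≤ s → s ≤ hi' → lo k ≤ s' → s' ≤ hi k →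
      (f s ⋖ e k s' ↔ s' = s ∨ s' + 1 = s)) :
    Comp (k + 1) t (Function.update lo (k + 1) lo') (Function.update hi (k + 1) hi')
      (Function.update e (k + 1) f) := by
  have hl : ∀ (g : ℕ → ℕ) (a : ℕ) (i : ℕ), i ≤ k →
      Function.update g (k + 1) a i = g i := fun g a i hi =>
    Function.update_of_ne (by omega) a g
  have hs : ∀ (g : ℕ → ℕ) (a : ℕ), Function.update g (k + 1) a (k + 1) = a :=
    fun g a => Function.update_self _ _ _
  have hlE : ∀ (i : ℕ), i ≤ k → Function.update e (k + 1) f i = e i := fun i hi =>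
    Function.update_of_ne (by omega) f e
  have hsE : Function.update e (k + 1) f (k + 1) = f := Function.update_self _ _ _
  have hft : ∀ s, lo' ≤ s → s ≤ hi' → f s ≤ t := by
    intro s h1 h2
    have h0 := C.lo_le k le_rfl
    -- one of `s`, `s - 1` is in the row
    have : ∃ s', lo k ≤ s' ∧ s' ≤ hi k ∧ (s' = s ∨ s' + 1 = s) := by
      by_cases hc : s ≤ hi k
      · exact ⟨s, by omega, hc, Or.inl rfl⟩
      · exact ⟨s - 1, by omega, by omega, by omega⟩
    obtain ⟨s', h3, h4, h5⟩ := this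
    exact ((hcov s s' h1 h2 h3 h4).2 h5).le.trans (C.le_t k s' le_rfl h3 h4)
  refine ⟨?_, ?_, ?_, ?_, ?_, ?_, ?_, ?_, ?_, ?_, ?_⟩
  · rw [hl _ _ _ (Nat.zero_le _)]; exact C.lo_zero
  · rw [hl _ _ _ (Nat.zero_le _)]; exact C.hi_zero
  · rw [hlE _ (Nat.zero_le _)]; exact C.top
  · intro i hi'
    rcases Nat.lt_or_ge i k with h | h
    · rw [hl _ _ _ h, hl _ _ _ h.le]
      exact C.lo_step i h
    · obtain rfl : i = k := by omega
      rw [hs, hl _ _ _ le_rfl]
      exact hlo
  · intro i hi'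
    rcases Nat.lt_or_ge i k with h | h
    · rw [hl _ _ _ h, hl _ _ _ h.le]
      exact C.hi_step i h
    · obtain rfl : i = k := by omega
      rw [hs, hl _ _ _ le_rfl]
      exact hhi
  · intro i hi'
    rcases Nat.lt_or_ge k i with h | h
    · obtain rfl : i = k + 1 := by omega
      rw [hs, hs]
      exact hle
    · rw [hl _ _ _ h, hl _ _ _ h]
      exact C.lo_le i h
  · intro i s hi' h1 h2
    rcases Nat.lt_or_ge k i with h | h
    · obtain rfl : i = k + 1 := by omega
      rw [hs] at h1 h2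
      rw [hsE]
      exact hlev s h1 h2
    · rw [hl _ _ _ h] at h1 h2
      rw [hlE _ h]
      exact C.lev_e i s h h1 h2
  · intro i s hi' h1 h2
    rcases Nat.lt_or_ge k i with h | h
    · obtain rfl : i = k + 1 := by omega
      rw [hs] at h1 h2
      rw [hsE]
      exact hft s h1 h2
    · rw [hl _ _ _ h] at h1 h2
      rw [hlE _ h]
      exact C.le_t i s h h1 h2
  · intro i s s' hi' h1 h2 h3 h4 h5
    rcases Nat.lt_or_ge k i with h | h
    · obtain rfl : i = k + 1 := by omega
      rw [hs] at h1 h2 h3 h4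
      rw [hsE] at h5
      exact hinj s s' h1 h2 h3 h4 h5
    · rw [hl _ _ _ h] at h1 h2 h3 h4
      rw [hlE _ h] at h5
      exact C.inj i s s' h h1 h2 h3 h4 h5
  · intro z hz hzl
    rcases Nat.lt_or_ge k (lev z) with h | h
    · have h6 : lev z = k + 1 := by omega
      rw [h6, hs, hs, hsE]
      exact hsurj z hz h6
    · rw [hl _ _ _ h, hl _ _ _ h, hlE _ h]
      exact C.surj z hz h
  · intro i s s' hi' h1 h2 h3 h4
    rcases Nat.lt_or_ge i k with h | h
    · rw [hl _ _ _ h] at h1 h2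
      rw [hl _ _ _ h.le] at h3 h4
      rw [hlE _ h, hlE _ h.le]
      exact C.cov i s s' h h1 h2 h3 h4
    · obtain rfl : i = k := by omega
      rw [hs] at h1 h2
      rw [hl _ _ _ le_rfl] at h3 h4
      rw [hsE, hlE _ le_rfl]
      exact hcov s s' h1 h2 h3 h4

end Pool.Agent.GaussPoset.Cp

end

/-! From `Pool.Agent.W_448cp_h96.CB` -/

section

/-!
# Component rows, part B: existence
-/

namespace Pool.Agent.GaussPoset.Cp

set_option linter.unusedSectionVars false

open Finset Win

universe u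

variable {P : Type u} [Fintype P] [PartialOrder P] [DecidableEq P] {r j : ℕ}

lemma dcv_unique {v v' z z' : P} (hd : dcv v v' = 1) (h1 : z ⋖ v) (h2 : z ⋖ v') (h3 : z' ⋖ v)
    (h4 : z' ⋖ v') : z = z' := by
  classical
  unfold dcv at hd
  obtain ⟨y, hy⟩ := Finset.card_eq_one.1 hd
  have e1 : z ∈ univ.filter (fun y : P => y ⋖ v ∧ y ⋖ v') := by simp [h1, h2]
  have e2 : z' ∈ univ.filter (fun y : P => y ⋖ v ∧ y ⋖ v') := by simp [h3, h4]
  rw [hy, mem_singleton] at e1 e2
  rw [e1, e2]

section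

variable {t : P} {lo hi : ℕ → ℕ} {e : ℕ → ℕ → P}

/-- the upper covers of a row element -/
lemma Comp.cov_up (C : Comp j t lo hi e) (H : Gr P r) (hg : ∀ l, l < j → Good P l)
    (ht : lev t = 0) {k s : ℕ} (hk : k < j) (h1 : lo (k + 1) ≤ s) (h2 : s ≤ hi (k + 1)) {y : P}
    (hy : e (k + 1) s ⋖ y) :
    ∃ s', lo k ≤ s' ∧ s' ≤ hi k ∧ y = e k s' ∧ (s' = s ∨ s' + 1 = s) := by
  have hl := C.lev_e (k + 1) s (by omega) h1 h2
  have hly := lev_cov H hy
  have hyt := up_le H hg ht (C.le_t (k + 1) s (by omega) h1 h2) (by omega) hy.le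
  obtain ⟨s', h3, h4, h5⟩ := C.surj y hyt (by omega)
  have hlk : lev y = k := by omega
  rw [hlk] at h3 h4 h5
  refine ⟨s', h3, h4, h5.symm, ?_⟩
  rw [← C.cov k s s' hk h1 h2 h3 h4, h5]
  exact hy

/-- neighbours of a row have exactly one common upper cover -/
lemma Comp.ucv_adj (C : Comp j t lo hi e) (H : Gr P r) (hg : ∀ l, l < j → Good P l)
    (ht : lev t = 0) {k s : ℕ} (hk : k ≤ j) (h1 : lo k ≤ s) (h2 : s + 1 ≤ hi k) :
    ucv (e k s) (e k (s + 1)) = 1 := by
  classical
  rcases Nat.eq_zero_or_pos k with rfl | hk0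
  · rw [C.hi_zero] at h2
    omega
  obtain ⟨k, rfl⟩ : ∃ i, k = i + 1 := ⟨k - 1, by omega⟩
  have hlo := C.lo_step k (by omega)
  have hhi := C.hi_step k (by omega)
  unfold ucv
  rw [Finset.card_eq_one]
  refine ⟨e k s, ?_⟩
  ext y
  simp only [mem_filter, mem_univ, true_and, mem_singleton]
  constructor
  · rintro ⟨h3, h4⟩
    obtain ⟨a, ha1, ha2, ha3, ha4⟩ := C.cov_up H hg ht (by omega) h1 (by omega) h3
    obtain ⟨b, hb1, hb2, hb3, hb4⟩ := C.cov_up H hg ht (by omega) (by omega) h2 h4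
    have hab := C.inj k a b (by omega) ha1 ha2 hb1 hb2 (ha3.symm.trans hb3)
    rw [ha3, show a = s by omega]
  · rintro rfl
    exact ⟨(C.cov k s s (by omega) h1 (by omega) (by omega) (by omega)).2 (Or.inl rfl),
      (C.cov k (s + 1) s (by omega) (by omega) h2 (by omega) (by omega)).2 (Or.inr rfl)⟩

/-- other pairs of a row have no common upper cover -/
lemma Comp.ucv_far (C : Comp j t lo hi e) (H : Gr P r) (hg : ∀ l, l < j → Good P l)
    (ht : lev t = 0) {k s s' : ℕ} (hk : k ≤ j) (h1 : lo k ≤ s) (h2 : s + 1 < s') (h3 : s' ≤ hi k) :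
    ucv (e k s) (e k s') = 0 := by
  classical
  rcases Nat.eq_zero_or_pos k with rfl | hk0
  · rw [C.hi_zero] at h3
    omega
  obtain ⟨k, rfl⟩ : ∃ i, k = i + 1 := ⟨k - 1, by omega⟩
  unfold ucv
  rw [Finset.card_eq_zero, Finset.filter_eq_empty_iff]
  rintro y - ⟨h4, h5⟩
  obtain ⟨a, ha1, ha2, ha3, ha4⟩ := C.cov_up H hg ht (by omega) h1 (by omega) h4
  obtain ⟨b, hb1, hb2, hb3, hb4⟩ := C.cov_up H hg ht (by omega) (by omega) h3 h5
  have hab := C.inj k a b (by omega) ha1 ha2 hb1 hb2 (ha3.symm.trans hb3)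
  omega

/-- elements of the next level below `t` have a cover in the row -/
lemma Comp.child (C : Comp j t lo hi e) (H : Gr P r) {z : P} (hz : z ≤ t) (hzl : lev z = j + 1)
    (ht : lev t = 0) : ∃ s, lo j ≤ s ∧ s ≤ hi j ∧ z ⋖ e j s := by
  have hlt : z < t := lt_of_le_of_ne hz (by rintro rfl; omega)
  obtain ⟨y, hy, hy2⟩ := Hul.exists_cov hlt
  have hly := lev_cov H hy
  obtain ⟨s, h1, h2, h3⟩ := C.surj y hy2 (by omega)
  have : lev y = j := by omega
  rw [this] at h1 h2 h3
  exact ⟨s, h1, h2, by rw [h3]; exact hy⟩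

/-- two covers in the row are neighbours -/
lemma Comp.child_adj (C : Comp j t lo hi e) (H : Gr P r) (hg : ∀ l, l < j + 1 → Good P l)
    (ht : lev t = 0) {z : P} {s s' : ℕ} (h1 : lo j ≤ s) (h2 : s ≤ hi j) (h3 : lo j ≤ s')
    (h4 : s' ≤ hi j) (h5 : z ⋖ e j s) (h6 : z ⋖ e j s') (hlt : s < s') : s' = s + 1 := by
  have hne : e j s ≠ e j s' := fun h => by
    have := C.inj j s s' le_rfl h1 h2 h3 h4 h
    omega
  have hd := dcv_pos h5 h6
  rw [← hg j (by omega) _ _ (C.lev_e j s le_rfl h1 h2) (C.lev_e j s' le_rfl h3 h4) hne] at hd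
  by_contra hcon
  rw [C.ucv_far H (fun l hl => hg l (by omega)) ht le_rfl h1 (by omega) h4] at hd
  omega

/-- one level down -/
theorem Comp.step (C : Comp j t lo hi e) (H : Gr P r) (hjr : j + 1 ≤ r)
    (hg : ∀ l, l < j + 1 → Good P l) (ht : lev t = 0) :
    ∃ lo' hi' e', Comp (j + 1) t lo' hi' e' := by
  classical
  have hg' : ∀ l, l < j → Good P l := fun l hl => hg l (by omega)
  have hle := C.lo_le j le_rfl
  rcases Nat.lt_or_ge (lo j) (hi j) with hlt | hge
  · -- at least two elements in the row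
    have hD : ∀ s, ∃ z : P, lo j ≤ s → s < hi j → z ⋖ e j s ∧ z ⋖ e j (s + 1) := by
      intro s
      by_cases hc : lo j ≤ s ∧ s < hi j
      · have h1 := C.ucv_adj H hg' ht le_rfl hc.1 hc.2
        have hne : e j s ≠ e j (s + 1) := fun h => by
          have := C.inj j s (s + 1) le_rfl hc.1 hc.2.le (by omega) hc.2 h
          omega
        rw [hg j (by omega) _ _ (C.lev_e j s le_rfl hc.1 hc.2.le)
          (C.lev_e j (s + 1) le_rfl (by omega) hc.2) hne] at h1
        obtain ⟨z, h2, h3⟩ := exists_of_dcv (by omega : 0 < dcv (e j s) (e j (s + 1)))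
        exact ⟨z, fun _ _ => ⟨h2, h3⟩⟩
      · exact ⟨t, fun h1 h2 => absurd ⟨h1, h2⟩ hc⟩
    choose D hD using hD
    have hDiff : ∀ s s', lo j ≤ s → s < hi j → lo j ≤ s' → s' ≤ hi j →
        (D s ⋖ e j s' ↔ s' = s ∨ s' = s + 1) := by
      intro s s' h1 h2 h3 h4
      obtain ⟨h5, h6⟩ := hD s h1 h2
      constructor
      · intro h
        rcases Nat.lt_trichotomy s' s with h7 | h7 | h7
        · have := C.child_adj H hg ht h3 h4 (s' := s + 1) (by omega) (by omega) h h6 (by omega)
          omega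
        · exact Or.inl h7
        · exact Or.inr (C.child_adj H hg ht h1 h2.le h3 h4 h5 h h7)
      · rintro (rfl | rfl)
        · exact h5
        · exact h6
    have hDne : ∀ s, lo j ≤ s → s + 1 < hi j → D s ≠ D (s + 1) := by
      intro s h1 h2 h
      have h3 := (hDiff (s + 1) s (by omega) h2 h1 (by omega)).1 (h ▸ (hD s h1 (by omega)).1)
      omega
    -- the pendants
    have hLe : ∃ (lo' : ℕ) (zL : P), (lo' = lo j ∨ lo' = lo j + 1) ∧
        (lo' = lo j → ∀ s', lo j ≤ s' → s' ≤ hi j → (zL ⋖ e j s' ↔ s' = lo j)) ∧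
        (∀ z, z ⋖ e j (lo j) → z = D (lo j) ∨ (lo' = lo j ∧ z = zL)) := by
      by_cases hL : ∃ z, z ⋖ e j (lo j) ∧ z ≠ D (lo j)
      · obtain ⟨z, h1, h2⟩ := hL
        refine ⟨lo j, z, Or.inl rfl, fun _ s' h3 h4 => ⟨fun h5 => ?_, ?_⟩, fun z' h3 => ?_⟩
        · by_contra hcon
          have h6 := C.child_adj H hg ht le_rfl hle h3 h4 h1 h5 (by omega)
          subst h6
          have h7 := C.ucv_adj H hg' ht le_rfl le_rfl h4
          have hne : e j (lo j) ≠ e j (lo j + 1) := fun h => by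
            have := C.inj j _ _ le_rfl le_rfl hle h3 h4 h
            omega
          rw [hg j (by omega) _ _ (C.lev_e j _ le_rfl le_rfl hle)
            (C.lev_e j _ le_rfl h3 h4) hne] at h7
          exact h2 (dcv_unique h7 h1 h5 (hD _ le_rfl hlt).1 (hD _ le_rfl hlt).2)
        · rintro rfl
          exact h1
        · by_contra hcon
          push Not at hcon
          exact dc_three H h1 h3 (hD _ le_rfl hlt).1 (fun h => hcon.2 rfl h.symm) h2 hcon.1
      · push Not at hL
        exact ⟨lo j + 1, t, Or.inr rfl, fun h => by omega, fun z hz => Or.inl (hL z hz)⟩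
    have hRe : ∃ (hi' : ℕ) (zR : P), (hi' = hi j ∨ hi' = hi j + 1) ∧
        (hi' = hi j + 1 → ∀ s', lo j ≤ s' → s' ≤ hi j → (zR ⋖ e j s' ↔ s' = hi j)) ∧
        (∀ z, z ⋖ e j (hi j) → z = D (hi j - 1) ∨ (hi' = hi j + 1 ∧ z = zR)) := by
      have h0 := hD (hi j - 1) (by omega) (by omega)
      rw [Nat.sub_add_cancel (by omega : 1 ≤ hi j)] at h0
      by_cases hR : ∃ z, z ⋖ e j (hi j) ∧ z ≠ D (hi j - 1)
      · obtain ⟨z, h1, h2⟩ := hR
        refine ⟨hi j + 1, z, Or.inr rfl, fun _ s' h3 h4 => ⟨fun h5 => ?_, ?_⟩, fun z' h3 => ?_⟩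
        · by_contra hcon
          have h6 := C.child_adj H hg ht h3 h4 hle le_rfl h5 h1 (by omega)
          have h7 := C.ucv_adj H hg' ht le_rfl h3 (s := s') (by omega)
          rw [← h6] at h7
          have hne : e j s' ≠ e j (hi j) := fun h => by
            have := C.inj j _ _ le_rfl h3 h4 hle le_rfl h
            omega
          rw [hg j (by omega) _ _ (C.lev_e j _ le_rfl h3 h4)
            (C.lev_e j _ le_rfl hle le_rfl) hne] at h7
          have h8 : hi j - 1 = s' := by omega
          rw [h8] at h0 h2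
          exact h2 (dcv_unique h7 h5 h1 h0.1 h0.2)
        · rintro rfl
          exact h1
        · by_contra hcon
          push Not at hcon
          exact dc_three H h1 h3 h0.2 (fun h => hcon.2 rfl h.symm) h2 hcon.1
      · push Not at hR
        exact ⟨hi j, t, Or.inl rfl, fun h => by omega, fun z hz => Or.inl (hR z hz)⟩
    obtain ⟨lo', zL, hlo, hLc, hLs⟩ := hLe
    obtain ⟨hi', zR, hhi, hRc, hRs⟩ := hRe
    set f : ℕ → P := fun s => if s ≤ lo j then zL else if s ≤ hi j then D (s - 1) else zR with hf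
    have hcov : ∀ s s', lo' ≤ s → s ≤ hi' → lo j ≤ s' → s' ≤ hi j →
        (f s ⋖ e j s' ↔ s' = s ∨ s' + 1 = s) := by
      intro s s' h1 h2 h3 h4
      by_cases h5 : s ≤ lo j
      · have h6 : f s = zL := by rw [hf]; simp only [if_pos h5]
        rw [h6, hLc (by omega) s' h3 h4]
        omega
      · by_cases h6 : s ≤ hi j
        · have h7 : f s = D (s - 1) := by rw [hf]; simp only [if_neg h5, if_pos h6]
          rw [h7, hDiff (s - 1) s' (by omega) (by omega) h3 h4]
          omega
        · have h7 : f s = zR := by rw [hf]; simp only [if_neg h5, if_neg h6]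
          rw [h7, hRc (by omega) s' h3 h4]
          omega
    refine ⟨_, _, _, C.extend H ht (lo' := lo') (hi' := hi') (f := f) hlo hhi (by omega) ?_ ?_ ?_
      hcov⟩
    · intro s h1 h2
      have : ∃ s', lo j ≤ s' ∧ s' ≤ hi j ∧ (s' = s ∨ s' + 1 = s) := by
        by_cases hc : s ≤ hi j
        · exact ⟨s, by omega, hc, Or.inl rfl⟩
        · exact ⟨s - 1, by omega, by omega, by omega⟩
      obtain ⟨s', h3, h4, h5⟩ := this
      have h6 := lev_cov H ((hcov s s' h1 h2 h3 h4).2 h5)
      rw [C.lev_e j s' le_rfl h3 h4] at h6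
      exact h6
    · have key : ∀ s s', lo' ≤ s → s' ≤ hi' → s < s' → f s ≠ f s' := by
        intro s s' h1 h2 h3 h4
        by_cases hc : s' ≤ hi j
        · have h5 := (hcov s' s' (by omega) h2 (by omega) hc).2 (Or.inl rfl)
          rw [← h4, hcov s s' h1 (by omega) (by omega) hc] at h5
          omega
        · have h5 := (hcov s' (s' - 1) (by omega) h2 (by omega) (by omega)).2 (by omega)
          rw [← h4, hcov s (s' - 1) h1 (by omega) (by omega) (by omega)] at h5
          have h6 : s = hi j := by omega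
          have h7 := (hcov s (s - 1) h1 (by omega) (by omega) (by omega)).2 (by omega)
          rw [h4, hcov s' (s - 1) (by omega) h2 (by omega) (by omega)] at h7
          omega
      intro s s' h1 h2 h3 h4 h5
      by_contra hne
      rcases Nat.lt_or_gt_of_ne hne with h | h
      · exact key s s' h1 h4 h h5
      · exact key s' s h3 h2 h h5.symm
    · intro z hz hzl
      obtain ⟨s', h1, h2, h3⟩ := C.child H hz hzl ht
      by_cases hc1 : s' = lo j
      · subst hc1
        rcases hLs z h3 with h4 | ⟨h4, h5⟩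
        · refine ⟨lo j + 1, by omega, by omega, ?_⟩
          rw [hf, h4]
          simp only [if_neg (by omega : ¬ lo j + 1 ≤ lo j), if_pos (by omega : lo j + 1 ≤ hi j),
            Nat.add_sub_cancel]
        · refine ⟨lo j, by omega, by omega, ?_⟩
          rw [hf, h5]
          simp only [le_refl, if_true]
      · by_cases hc2 : s' = hi j
        · subst hc2
          rcases hRs z h3 with h4 | ⟨h4, h5⟩
          · refine ⟨hi j, by omega, by omega, ?_⟩
            rw [hf, h4]
            simp only [if_neg (by omega : ¬ hi j ≤ lo j), le_refl, if_true]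
          · refine ⟨hi j + 1, by omega, by omega, ?_⟩
            rw [hf, h5]
            simp only [if_neg (by omega : ¬ hi j + 1 ≤ lo j),
              if_neg (by omega : ¬ hi j + 1 ≤ hi j)]
        · have h4 := hD s' h1 (by omega)
          have h5 := hD (s' - 1) (by omega) (by omega)
          rw [Nat.sub_add_cancel (by omega : 1 ≤ s')] at h5
          have h6 := hDne (s' - 1) (by omega) (by omega)
          rw [Nat.sub_add_cancel (by omega : 1 ≤ s')] at h6
          by_cases h7 : z = D s'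
          · refine ⟨s' + 1, by omega, by omega, ?_⟩
            rw [hf, h7]
            simp only [if_neg (by omega : ¬ s' + 1 ≤ lo j), if_pos (by omega : s' + 1 ≤ hi j),
              Nat.add_sub_cancel]
          · by_cases h8 : z = D (s' - 1)
            · refine ⟨s', by omega, by omega, ?_⟩
              rw [hf, h8]
              simp only [if_neg (by omega : ¬ s' ≤ lo j), if_pos h2]
            · exact (dc_three H h3 h4.1 h5.2 h7 h8 (Ne.symm h6)).elim
  · -- one element in the row
    have heq : hi j = lo j := by omega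
    have hlx := C.lev_e j (lo j) le_rfl le_rfl hle
    obtain ⟨z0, hz0, hz0l⟩ := H.exists_below (x := e j (lo j)) (j := j + 1) (by omega) hjr
    have hz0c : z0 ⋖ e j (lo j) := by
      rw [H.covBy_iff]
      exact ⟨lt_of_le_of_ne hz0 (by rintro rfl; omega), by omega⟩
    rcases dc_card_cases H hz0c with h1 | h1
    · refine ⟨_, _, _, C.extend H ht (lo' := lo j) (hi' := hi j) (f := fun _ => z0)
        (Or.inl rfl) (Or.inl rfl) hle ?_ ?_ ?_ ?_⟩
      · intro s h2 h3
        have := lev_cov H hz0c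
        omega
      · intro s s' h2 h3 h4 h5 _
        omega
      · intro z hz hzl
        obtain ⟨s', h2, h3, h4⟩ := C.child H hz hzl ht
        obtain rfl : s' = lo j := by omega
        exact ⟨lo j, le_rfl, hle, dc_unique h1 hz0c h4⟩
      · intro s s' h2 h3 h4 h5
        obtain rfl : s' = lo j := by omega
        refine ⟨fun _ => by omega, fun _ => hz0c⟩
    · obtain ⟨z1, hz1, hz10⟩ := exists_other_dc (z := z0) h1
      refine ⟨_, _, _, C.extend H ht (lo' := lo j) (hi' := hi j + 1)
        (f := fun s => if s ≤ lo j then z0 else z1)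
        (Or.inl rfl) (Or.inr rfl) (by omega) ?_ ?_ ?_ ?_⟩
      · intro s h2 h3
        have e1 := lev_cov H hz0c
        have e2 := lev_cov H hz1
        show lev (if s ≤ lo j then z0 else z1) = j + 1
        split_ifs <;> omega
      · intro s s' h2 h3 h4 h5 h6
        split_ifs at h6 with h7 h8 h8
        · omega
        · exact absurd h6.symm hz10
        · exact absurd h6 hz10
        · omega
      · intro z hz hzl
        obtain ⟨s', h2, h3, h4⟩ := C.child H hz hzl ht
        obtain rfl : s' = lo j := by omega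
        by_cases h5 : z = z0
        · exact ⟨lo j, le_rfl, by omega, by simp [h5]⟩
        · refine ⟨lo j + 1, by omega, by omega, ?_⟩
          simp only [if_neg (by omega : ¬ lo j + 1 ≤ lo j)]
          by_contra h6
          exact dc_three H h4 hz0c hz1 h5 (fun h => h6 h.symm) hz10.symm
      · intro s s' h2 h3 h4 h5
        obtain rfl : s' = lo j := by omega
        show (if s ≤ lo j then z0 else z1) ⋖ e j (lo j) ↔ _
        refine ⟨fun _ => by omega, fun _ => ?_⟩
        split_ifs
        · exact hz0c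
        · exact hz1

end

/-- the levels `≤ j` below a maximal element form a planar strip if the levels `< j` are good -/
theorem comp_exists (H : Gr P r) {t : P} (ht : lev t = 0) : ∀ {j : ℕ}, j ≤ r →
    (∀ l, l < j → Good P l) → ∃ lo hi e, Comp j t lo hi e := by
  intro j
  induction j with
  | zero =>
    intro _ _
    refine ⟨fun _ => 0, fun _ => 0, fun _ _ => t, ⟨rfl, rfl, rfl, fun k hk => by omega,
      fun k hk => by omega, fun _ _ => le_rfl, fun k s hk _ _ => by omega, fun _ _ _ _ _ => le_rfl,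
      fun k s s' _ h1 h2 h3 h4 _ => by omega, fun z hz hzl => ?_, fun k s s' hk => by omega⟩⟩
    refine ⟨0, le_rfl, le_rfl, ?_⟩
    by_contra hne
    have := lev_strictAnti (lt_of_le_of_ne hz (Ne.symm hne))
    omega
  | succ j ih =>
    intro hjr hg
    obtain ⟨lo, hi, e, C⟩ := ih (by omega) (fun l hl => hg l (by omega))
    exact C.step H hjr hg ht

end Pool.Agent.GaussPoset.Cp

end

/-! From `Pool.Agent.W_448cp_h96.CC` -/

section

/-!
# Component rows, part C: order, covers, end letters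
-/

namespace Pool.Agent.GaussPoset.Cp

set_option linter.unusedSectionVars false

open Finset Win

universe u

variable {P : Type u} [Fintype P] [PartialOrder P] [DecidableEq P] {r j : ℕ}
  {t : P} {lo hi : ℕ → ℕ} {e : ℕ → ℕ → P}

lemma Comp.mono (C : Comp j t lo hi e) {i : ℕ} (hi' : i ≤ j) : Comp i t lo hi e :=
  ⟨C.lo_zero, C.hi_zero, C.top, fun k hk => C.lo_step k (by omega),
    fun k hk => C.hi_step k (by omega), fun k hk => C.lo_le k (by omega),
    fun k s hk => C.lev_e k s (by omega), fun k s hk => C.le_t k s (by omega),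
    fun k s s' hk => C.inj k s s' (by omega), fun z hz hzl => C.surj z hz (by omega),
    fun k s s' hk => C.cov k s s' (by omega)⟩

lemma Comp.lo_mono (C : Comp j t lo hi e) {l : ℕ} : ∀ {d : ℕ}, l + d ≤ j →
    lo l ≤ lo (l + d) ∧ lo (l + d) ≤ lo l + d := by
  intro d
  induction d with
  | zero => intro _; simp
  | succ d ih =>
    intro h
    have h1 := ih (by omega)
    have h2 := C.lo_step (l + d) (by omega)
    rw [← Nat.add_assoc]
    omega

lemma Comp.hi_mono (C : Comp j t lo hi e) {l : ℕ} : ∀ {d : ℕ}, l + d ≤ j →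
    hi l ≤ hi (l + d) ∧ hi (l + d) ≤ hi l + d := by
  intro d
  induction d with
  | zero => intro _; simp
  | succ d ih =>
    intro h
    have h1 := ih (by omega)
    have h2 := C.hi_step (l + d) (by omega)
    rw [← Nat.add_assoc]
    omega

lemma Comp.hi_le (C : Comp j t lo hi e) {k : ℕ} (hk : k ≤ j) : hi k ≤ k := by
  have := C.hi_mono (l := 0) (d := k) (by omega)
  rw [Nat.zero_add, C.hi_zero] at this
  omega

/-- The order of a component: the elements of level `l` above `e (l+d) s` are the `e l s'` with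
`s - d ≤ s' ≤ s`. -/
theorem Comp.le_iff (C : Comp j t lo hi e) (H : Gr P r) (hg : ∀ l, l < j → Good P l)
    (ht : lev t = 0) {l s' : ℕ} (h3 : lo l ≤ s') (h4 : s' ≤ hi l) : ∀ {d s : ℕ}, l + d ≤ j →
    lo (l + d) ≤ s → s ≤ hi (l + d) → (e (l + d) s ≤ e l s' ↔ s' ≤ s ∧ s ≤ s' + d) := by
  intro d
  induction d with
  | zero =>
    intro s hd h1 h2
    simp only [Nat.add_zero] at h1 h2 ⊢
    constructor
    · intro h
      have h5 : e l s = e l s' := by
        by_contra hne
        have := lev_strictAnti (lt_of_le_of_ne h hne)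
        rw [C.lev_e l s (by omega) h1 h2, C.lev_e l s' (by omega) h3 h4] at this
        omega
      have := C.inj l s s' (by omega) h1 h2 h3 h4 h5
      omega
    · intro h
      rw [show s = s' by omega]
  | succ d ih =>
    intro s hd h1 h2
    rw [← Nat.add_assoc] at h1 h2 ⊢
    have e1 := C.lo_step (l + d) (by omega)
    have e2 := C.hi_step (l + d) (by omega)
    have e3 := C.lo_mono (l := l) (d := d) (by omega)
    have e4 := C.hi_mono (l := l) (d := d) (by omega)
    have e5 := C.lo_le (l + d) (by omega)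
    constructor
    · intro h
      have hlt : e (l + d + 1) s < e l s' := by
        refine lt_of_le_of_ne h (fun h6 => ?_)
        have h7 := C.lev_e (l + d + 1) s (by omega) h1 h2
        rw [h6, C.lev_e l s' (by omega) h3 h4] at h7
        omega
      obtain ⟨y, hy, hy2⟩ := Hul.exists_cov hlt
      obtain ⟨a, ha1, ha2, ha3, ha4⟩ := C.cov_up H hg ht (by omega) h1 h2 hy
      rw [ha3, ih (by omega) ha1 ha2] at hy2
      omega
    · rintro ⟨h5, h6⟩
      have : ∃ a, lo (l + d) ≤ a ∧ a ≤ hi (l + d) ∧ (a = s ∨ a + 1 = s) ∧ s' ≤ a ∧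
          a ≤ s' + d := by
        by_cases hc : s ≤ hi (l + d) ∧ s ≤ s' + d
        · exact ⟨s, by omega, hc.1, Or.inl rfl, h5, hc.2⟩
        · refine ⟨s - 1, ?_, ?_, ?_, ?_, ?_⟩ <;> omega
      obtain ⟨a, ha1, ha2, ha3, ha4, ha5⟩ := this
      exact ((C.cov (l + d) s a (by omega) h1 h2 ha1 ha2).2 ha3).le.trans
        ((ih (by omega) ha1 ha2).2 ⟨ha4, ha5⟩)

/-- the upper covers of a row element -/
lemma Comp.uc_eq (C : Comp j t lo hi e) (H : Gr P r) (hg : ∀ l, l < j → Good P l)
    (ht : lev t = 0) {k s : ℕ} (hk : k < j) (h1 : lo (k + 1) ≤ s) (h2 : s ≤ hi (k + 1)) :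
    uc (e (k + 1) s) = ((Finset.Icc (lo k) (hi k)).filter
      (fun s' => s' = s ∨ s' + 1 = s)).image (e k) := by
  classical
  ext y
  rw [mem_uc, mem_image]
  constructor
  · intro hy
    obtain ⟨a, ha1, ha2, ha3, ha4⟩ := C.cov_up H hg ht hk h1 h2 hy
    exact ⟨a, mem_filter.2 ⟨mem_Icc.2 ⟨ha1, ha2⟩, ha4⟩, ha3.symm⟩
  · rintro ⟨a, ha, rfl⟩
    rw [mem_filter, mem_Icc] at ha
    exact (C.cov k s a hk h1 h2 ha.1.1 ha.1.2).2 ha.2

lemma Comp.uc_card (C : Comp j t lo hi e) (H : Gr P r) (hg : ∀ l, l < j → Good P l)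
    (ht : lev t = 0) {k s : ℕ} (hk : k < j) (h1 : lo (k + 1) ≤ s) (h2 : s ≤ hi (k + 1)) :
    (uc (e (k + 1) s)).card =
      ((Finset.Icc (lo k) (hi k)).filter (fun s' => s' = s ∨ s' + 1 = s)).card := by
  classical
  rw [C.uc_eq H hg ht hk h1 h2, Finset.card_image_of_injOn]
  intro a ha b hb hab
  simp only [coe_filter, mem_Icc, Set.mem_setOf_eq] at ha hb
  exact C.inj k a b (by omega) ha.1.1 ha.1.2 hb.1.1 hb.1.2 hab

/-- single-up elements are ends with letter O -/
lemma Comp.single_up (C : Comp j t lo hi e) (H : Gr P r) (hg : ∀ l, l < j → Good P l)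
    (ht : lev t = 0) {k s : ℕ} (hk : k < j) (h1 : lo (k + 1) ≤ s) (h2 : s ≤ hi (k + 1)) :
    (uc (e (k + 1) s)).card = 1 ↔ s = lo k ∨ s = hi k + 1 := by
  classical
  have e1 := C.lo_step k hk
  have e2 := C.hi_step k hk
  have e3 := C.lo_le k hk.le
  rw [C.uc_card H hg ht hk h1 h2]
  constructor
  · intro h
    by_contra hcon
    have h3 : ((Finset.Icc (lo k) (hi k)).filter (fun s' => s' = s ∨ s' + 1 = s)) =
        {s - 1, s} := by
      ext a
      simp only [mem_filter, mem_Icc, mem_insert, mem_singleton]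
      omega
    rw [h3, Finset.card_pair (by omega)] at h
    omega
  · rintro (h | h)
    · have h3 : ((Finset.Icc (lo k) (hi k)).filter (fun s' => s' = s ∨ s' + 1 = s)) =
          {s} := by
        ext a
        simp only [mem_filter, mem_Icc, mem_singleton]
        omega
      rw [h3, Finset.card_singleton]
    · have h3 : ((Finset.Icc (lo k) (hi k)).filter (fun s' => s' = s ∨ s' + 1 = s)) =
          {s - 1} := by
        ext a
        simp only [mem_filter, mem_Icc, mem_singleton]
        omega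
      rw [h3, Finset.card_singleton]

lemma Comp.double_up (C : Comp j t lo hi e) (H : Gr P r) (hg : ∀ l, l < j → Good P l)
    (ht : lev t = 0) {k s : ℕ} (hk : k < j) (h1 : lo (k + 1) ≤ s) (h2 : s ≤ hi (k + 1)) :
    (uc (e (k + 1) s)).card = 2 ↔ lo k < s ∧ s ≤ hi k := by
  have e1 := C.lo_step k hk
  have e2 := C.hi_step k hk
  have h3 := C.single_up H hg ht hk h1 h2
  have h4 := uc_card_cases H (x := e (k + 1) s) (by rw [C.lev_e (k + 1) s (by omega) h1 h2]; omega)
  omega

/-- the lower covers of a row element -/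
lemma Comp.dc_eq (C : Comp j t lo hi e) (H : Gr P r) {k s : ℕ} (hk : k < j) (h1 : lo k ≤ s)
    (h2 : s ≤ hi k) :
    dc (e k s) = ((Finset.Icc (lo (k + 1)) (hi (k + 1))).filter
      (fun s' => s = s' ∨ s + 1 = s')).image (e (k + 1)) := by
  classical
  ext y
  rw [mem_dc, mem_image]
  constructor
  · intro hy
    have hly := lev_cov H hy
    rw [C.lev_e k s hk.le h1 h2] at hly
    obtain ⟨a, ha1, ha2, ha3⟩ := C.surj y (hy.le.trans (C.le_t k s hk.le h1 h2)) (by omega)
    rw [hly] at ha1 ha2 ha3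
    refine ⟨a, mem_filter.2 ⟨mem_Icc.2 ⟨ha1, ha2⟩, ?_⟩, ha3⟩
    rw [← C.cov k a s hk ha1 ha2 h1 h2, ha3]
    exact hy
  · rintro ⟨a, ha, rfl⟩
    rw [mem_filter, mem_Icc] at ha
    exact (C.cov k a s hk ha.1.1 ha.1.2 h1 h2).2 ha.2

lemma Comp.dc_card (C : Comp j t lo hi e) (H : Gr P r) {k s : ℕ} (hk : k < j) (h1 : lo k ≤ s)
    (h2 : s ≤ hi k) :
    (dc (e k s)).card =
      ((Finset.Icc (lo (k + 1)) (hi (k + 1))).filter (fun s' => s = s' ∨ s + 1 = s')).card := by
  classical
  rw [C.dc_eq H hk h1 h2, Finset.card_image_of_injOn]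
  intro a ha b hb hab
  simp only [coe_filter, mem_Icc, Set.mem_setOf_eq] at ha hb
  exact C.inj (k + 1) a b (by omega) ha.1.1 ha.1.2 hb.1.1 hb.1.2 hab

/-- single-down elements: closed ends (or the only element of a row with one lower cover) -/
lemma Comp.single_down (C : Comp j t lo hi e) (H : Gr P r) {k s : ℕ} (hk : k < j)
    (h1 : lo k ≤ s) (h2 : s ≤ hi k) :
    (dc (e k s)).card = 1 ↔ s < lo (k + 1) ∨ hi (k + 1) ≤ s := by
  classical
  have e1 := C.lo_step k hk
  have e2 := C.hi_step k hk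
  have e3 := C.lo_le (k + 1) (by omega)
  rw [C.dc_card H hk h1 h2]
  constructor
  · intro h
    by_contra hcon
    have h3 : ((Finset.Icc (lo (k + 1)) (hi (k + 1))).filter
        (fun s' => s = s' ∨ s + 1 = s')) = {s, s + 1} := by
      ext a
      simp only [mem_filter, mem_Icc, mem_insert, mem_singleton]
      omega
    rw [h3, Finset.card_pair (by omega)] at h
    omega
  · rintro (h | h)
    · have h3 : ((Finset.Icc (lo (k + 1)) (hi (k + 1))).filter
          (fun s' => s = s' ∨ s + 1 = s')) = {s + 1} := by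
        ext a
        simp only [mem_filter, mem_Icc, mem_singleton]
        omega
      rw [h3, Finset.card_singleton]
    · by_cases h5 : s < lo (k + 1)
      · have h3 : ((Finset.Icc (lo (k + 1)) (hi (k + 1))).filter
            (fun s' => s = s' ∨ s + 1 = s')) = {s + 1} := by
          ext a
          simp only [mem_filter, mem_Icc, mem_singleton]
          omega
        rw [h3, Finset.card_singleton]
      · have h3 : ((Finset.Icc (lo (k + 1)) (hi (k + 1))).filter
            (fun s' => s = s' ∨ s + 1 = s')) = {s} := by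
          ext a
          simp only [mem_filter, mem_Icc, mem_singleton]
          omega
        rw [h3, Finset.card_singleton]

/-- the top of an element -/
lemma exists_top (z : P) : ∃ t : P, lev t = 0 ∧ z ≤ t := by
  obtain ⟨t, h1, h2⟩ := exists_above' (x := z) (j := 0) (Nat.zero_le _)
  exact ⟨t, h2, h1⟩

/-- an element of level `≤ j` is below one maximal element only -/
lemma top_eq (H : Gr P r) (hg : ∀ l, l < j → Good P l) {z t t' : P} (hz : lev z ≤ j)
    (ht : lev t = 0) (ht' : lev t' = 0) (h : z ≤ t) (h' : z ≤ t') : t = t' :=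
  Hul.top_unique (no_join H hg z hz) ht ht' h h'

end Pool.Agent.GaussPoset.Cp

end

/-! From `Pool.Agent.W_448cp_h96.CD` -/

section

/-!
# Component rows, part D: `PD`, `PU` and counting by components
-/

namespace Pool.Agent.GaussPoset.Cp

set_option linter.unusedSectionVars false

open Finset Win

universe u

variable {P : Type u} [Fintype P] [PartialOrder P] [DecidableEq P] {r j : ℕ}
  {t : P} {lo hi : ℕ → ℕ} {e : ℕ → ℕ → P}

/-- the number of the ends with the letters C, O at the levels `i`, `i + 1` (row `i` has at least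
two elements) -/
def nPD (lo hi : ℕ → ℕ) (i : ℕ) : ℕ :=
  (if lo (i + 1) = lo i + 1 ∧ lo (i + 2) = lo (i + 1) ∧ lo i < hi i then 1 else 0) +
    (if hi (i + 1) = hi i ∧ hi (i + 2) = hi (i + 1) + 1 ∧ lo i < hi i then 1 else 0)

/-- the number of the ends with the letters C, O at the levels `i`, `i + 1` (row `i + 2` has at
least two elements) -/
def nPU (lo hi : ℕ → ℕ) (i : ℕ) : ℕ :=
  (if lo (i + 1) = lo i + 1 ∧ lo (i + 2) = lo (i + 1) ∧ lo (i + 2) < hi (i + 2) then 1 else 0) +
    (if hi (i + 1) = hi i ∧ hi (i + 2) = hi (i + 1) + 1 ∧ lo (i + 2) < hi (i + 2) then 1 else 0)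

lemma card_two_or {a b : ℕ} {p q : Prop} [Decidable p] [Decidable q] {S : Finset ℕ} (hab : a ≠ b)
    (h : ∀ s, s ∈ S ↔ (s = a ∧ p) ∨ (s = b ∧ q)) :
    S.card = (if p then 1 else 0) + (if q then 1 else 0) := by
  by_cases hp : p <;> by_cases hq : q
  · have : S = {a, b} := by
      ext s
      rw [h]
      simp [hp, hq]
    rw [this, if_pos hp, if_pos hq, Finset.card_pair hab]
  · have : S = {a} := by
      ext s
      rw [h]
      simp [hp, hq]
    rw [this, if_pos hp, if_neg hq, Finset.card_singleton]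
  · have : S = {b} := by
      ext s
      rw [h]
      simp [hp, hq]
    rw [this, if_neg hp, if_pos hq, Finset.card_singleton]
  · have : S = ∅ := by
      ext s
      rw [h]
      simp [hp, hq]
    rw [this, if_neg hp, if_neg hq, Finset.card_empty]

lemma Comp.mem_PD (C : Comp j t lo hi e) (H : Gr P r) (hg : ∀ l, l < j → Good P l)
    (ht : lev t = 0) {i s : ℕ} (hi2 : i + 2 ≤ j) (h1 : lo (i + 2) ≤ s) (h2 : s ≤ hi (i + 2)) :
    e (i + 2) s ∈ PD P i ↔ (s = lo (i + 1) ∧ lo i < s ∧ s ≤ hi i) ∨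
      (s = hi (i + 1) + 1 ∧ lo i < hi (i + 1) ∧ hi (i + 1) ≤ hi i) := by
  have hl := C.lev_e (i + 2) s hi2 h1 h2
  have e1 : lo (i + 2) = lo (i + 1) ∨ lo (i + 2) = lo (i + 1) + 1 := C.lo_step (i + 1) (by omega)
  have e2 : hi (i + 2) = hi (i + 1) ∨ hi (i + 2) = hi (i + 1) + 1 := C.hi_step (i + 1) (by omega)
  have e3 := C.lo_le (i + 1) (by omega)
  have e4 := C.lo_step i (by omega)
  have e5 := C.hi_step i (by omega)
  rw [Win.mem_PD, C.single_up H hg ht (k := i + 1) (by omega) h1 h2]
  constructor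
  · rintro ⟨-, h3, w, h4, h5⟩
    obtain ⟨a, ha1, ha2, ha3, ha4⟩ := C.cov_up H hg ht (k := i + 1) (by omega) h1 h2 h4
    subst ha3
    rw [C.double_up H hg ht (by omega) ha1 ha2] at h5
    rcases h3 with h3 | h3
    · left
      have : a = s := by omega
      subst this
      exact ⟨h3, h5⟩
    · right
      have : a = hi (i + 1) := by omega
      subst this
      exact ⟨h3, h5⟩
  · rintro (⟨h3, h4, h5⟩ | ⟨h3, h4, h5⟩)
    · refine ⟨hl, Or.inl h3, e (i + 1) s, ?_, ?_⟩
      · exact (C.cov (i + 1) s s (by omega) h1 h2 (by omega) (by omega)).2 (Or.inl rfl)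
      · rw [C.double_up H hg ht (by omega) (by omega) (by omega)]
        exact ⟨h4, h5⟩
    · refine ⟨hl, Or.inr h3, e (i + 1) (hi (i + 1)), ?_, ?_⟩
      · exact (C.cov (i + 1) s (hi (i + 1)) (by omega) h1 h2 e3 le_rfl).2 (Or.inr h3.symm)
      · rw [C.double_up H hg ht (by omega) e3 le_rfl]
        exact ⟨h4, h5⟩

/-- the single-up elements below a double-up element of a component -/
theorem Comp.card_PD (C : Comp j t lo hi e) (H : Gr P r) (hg : ∀ l, l < j → Good P l)
    (ht : lev t = 0) {i : ℕ} (hi2 : i + 2 ≤ j) :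
    ∀ [DecidablePred (· ≤ t)], ((PD P i).filter (· ≤ t)).card = nPD lo hi i := by
  intro _
  classical
  have e1 : lo (i + 2) = lo (i + 1) ∨ lo (i + 2) = lo (i + 1) + 1 := C.lo_step (i + 1) (by omega)
  have e2 : hi (i + 2) = hi (i + 1) ∨ hi (i + 2) = hi (i + 1) + 1 := C.hi_step (i + 1) (by omega)
  have e3 := C.lo_le (i + 1) (by omega)
  have e4 := C.lo_step i (by omega)
  have e5 := C.hi_step i (by omega)
  have h1 : (PD P i).filter (· ≤ t) = ((Finset.Icc (lo (i + 2)) (hi (i + 2))).filter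
      (fun s => (s = lo (i + 1) ∧ lo i < s ∧ s ≤ hi i) ∨
      (s = hi (i + 1) + 1 ∧ lo i < hi (i + 1) ∧ hi (i + 1) ≤ hi i))).image (e (i + 2)) := by
    ext z
    rw [mem_filter, mem_image]
    constructor
    · rintro ⟨h1, h2⟩
      have hz := (Win.mem_PD.1 h1).1
      obtain ⟨s, h3, h4, h5⟩ := C.surj z h2 (by omega)
      rw [hz] at h3 h4 h5
      refine ⟨s, mem_filter.2 ⟨mem_Icc.2 ⟨h3, h4⟩, ?_⟩, h5⟩
      rw [← C.mem_PD H hg ht hi2 h3 h4, h5]
      exact h1
    · rintro ⟨s, hs, rfl⟩
      rw [mem_filter, mem_Icc] at hs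
      exact ⟨(C.mem_PD H hg ht hi2 hs.1.1 hs.1.2).2 hs.2, C.le_t _ s hi2 hs.1.1 hs.1.2⟩
  rw [h1, Finset.card_image_of_injOn]
  · unfold nPD
    refine card_two_or (a := lo (i + 1)) (b := hi (i + 1) + 1) (by omega) (fun s => ?_)
    simp only [mem_filter, mem_Icc, mem_singleton]
    omega
  · intro a ha b hb hab
    simp only [coe_filter, mem_Icc, Set.mem_setOf_eq] at ha hb
    exact C.inj (i + 2) a b (by omega) ha.1.1 ha.1.2 hb.1.1 hb.1.2 hab

lemma Comp.mem_PU (C : Comp j t lo hi e) (H : Gr P r) {i s : ℕ} (hi2 : i + 2 ≤ j)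
    (h1 : lo i ≤ s) (h2 : s ≤ hi i) :
    e i s ∈ PU P (i + 2) ↔ (s + 1 = lo (i + 1) ∧ lo (i + 2) = lo (i + 1) ∧
        lo (i + 2) < hi (i + 2)) ∨
      (s = hi (i + 1) ∧ hi (i + 2) = hi (i + 1) + 1 ∧ lo (i + 2) < hi (i + 2)) := by
  have hl := C.lev_e i s (by omega) h1 h2
  have e1 : lo (i + 2) = lo (i + 1) ∨ lo (i + 2) = lo (i + 1) + 1 := C.lo_step (i + 1) (by omega)
  have e2 : hi (i + 2) = hi (i + 1) ∨ hi (i + 2) = hi (i + 1) + 1 := C.hi_step (i + 1) (by omega)
  have e3 := C.lo_le (i + 1) (by omega)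
  have e4 := C.lo_step i (by omega)
  have e5 := C.hi_step i (by omega)
  have e6 := C.lo_le (i + 2) (by omega)
  have hdc : ∀ {a : ℕ}, lo (i + 1) ≤ a → a ≤ hi (i + 1) → ((dc (e (i + 1) a)).card = 2 ↔
      lo (i + 2) ≤ a ∧ a < hi (i + 2)) := by
    intro a h3 h4
    have h5 : (dc (e (i + 1) a)).card = 1 ↔ a < lo (i + 2) ∨ hi (i + 2) ≤ a :=
      C.single_down H (k := i + 1) (by omega) h3 h4
    have h6 := dc_card_le H (e (i + 1) a)
    have h7 : (dc (e (i + 1) a)).card ≠ 0 := by
      rw [C.dc_card H (by omega) h3 h4]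
      intro h8
      rw [Finset.card_eq_zero, Finset.filter_eq_empty_iff] at h8
      have h9 : a ∈ Finset.Icc (lo (i + 2)) (hi (i + 2)) ∨
          a + 1 ∈ Finset.Icc (lo (i + 2)) (hi (i + 2)) := by
        rw [mem_Icc, mem_Icc]
        omega
      rcases h9 with h9 | h9
      · exact h8 h9 (Or.inl rfl)
      · exact h8 h9 (Or.inr rfl)
    omega
  rw [Win.mem_PU, C.single_down H (by omega) h1 h2]
  constructor
  · rintro ⟨-, h3, u, h4, h5⟩
    have h6 : u ∈ dc (e i s) := mem_dc.2 h4
    rw [C.dc_eq H (by omega) h1 h2, mem_image] at h6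
    obtain ⟨a, ha, rfl⟩ := h6
    rw [mem_filter, mem_Icc] at ha
    rw [hdc ha.1.1 ha.1.2] at h5
    omega
  · rintro (⟨h3, h4, h5⟩ | ⟨h3, h4, h5⟩)
    · refine ⟨by omega, by omega, e (i + 1) (s + 1), ?_, ?_⟩
      · exact (C.cov i (s + 1) s (by omega) (by omega) (by omega) h1 h2).2 (Or.inr rfl)
      · rw [hdc (by omega) (by omega)]
        omega
    · refine ⟨by omega, by omega, e (i + 1) s, ?_, ?_⟩
      · exact (C.cov i s s (by omega) (by omega) (by omega) h1 h2).2 (Or.inl rfl)
      · rw [hdc (by omega) (by omega)]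
        omega

/-- the single-down elements above a double-down element of a component -/
theorem Comp.card_PU (C : Comp j t lo hi e) (H : Gr P r) {i : ℕ} (hi2 : i + 2 ≤ j) :
    ∀ [DecidablePred (· ≤ t)], ((PU P (i + 2)).filter (· ≤ t)).card = nPU lo hi i := by
  intro _
  classical
  have e1 : lo (i + 2) = lo (i + 1) ∨ lo (i + 2) = lo (i + 1) + 1 := C.lo_step (i + 1) (by omega)
  have e2 : hi (i + 2) = hi (i + 1) ∨ hi (i + 2) = hi (i + 1) + 1 := C.hi_step (i + 1) (by omega)
  have e3 := C.lo_le (i + 1) (by omega)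
  have e4 := C.lo_step i (by omega)
  have e5 := C.hi_step i (by omega)
  have e6 := C.lo_le i (by omega)
  have h1 : (PU P (i + 2)).filter (· ≤ t) = ((Finset.Icc (lo i) (hi i)).filter
      (fun s => (s + 1 = lo (i + 1) ∧ lo (i + 2) = lo (i + 1) ∧ lo (i + 2) < hi (i + 2)) ∨
      (s = hi (i + 1) ∧ hi (i + 2) = hi (i + 1) + 1 ∧ lo (i + 2) < hi (i + 2)))).image (e i) := by
    ext z
    rw [mem_filter, mem_image]
    constructor
    · rintro ⟨h1, h2⟩
      have hz := (Win.mem_PU.1 h1).1
      have hz' : lev z = i := by omega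
      obtain ⟨s, h3, h4, h5⟩ := C.surj z h2 (by omega)
      rw [hz'] at h3 h4 h5
      refine ⟨s, mem_filter.2 ⟨mem_Icc.2 ⟨h3, h4⟩, ?_⟩, h5⟩
      rw [← C.mem_PU H hi2 h3 h4, h5]
      exact h1
    · rintro ⟨s, hs, rfl⟩
      rw [mem_filter, mem_Icc] at hs
      exact ⟨(C.mem_PU H hi2 hs.1.1 hs.1.2).2 hs.2, C.le_t _ s (by omega) hs.1.1 hs.1.2⟩
  rw [h1, Finset.card_image_of_injOn]
  · unfold nPU
    rcases Nat.eq_or_lt_of_le e6 with h7 | h7
    · -- one element in row `i`
      rcases Nat.lt_or_ge (lo i) (lo (i + 1)) with h8 | h8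
      · have : (Finset.Icc (lo i) (hi i)).filter
            (fun s => (s + 1 = lo (i + 1) ∧ lo (i + 2) = lo (i + 1) ∧ lo (i + 2) < hi (i + 2)) ∨
            (s = hi (i + 1) ∧ hi (i + 2) = hi (i + 1) + 1 ∧ lo (i + 2) < hi (i + 2))) =
            if lo (i + 2) = lo (i + 1) ∧ lo (i + 2) < hi (i + 2) then {lo i} else ∅ := by
          ext s
          split_ifs with h9
          · simp only [mem_filter, mem_Icc, mem_singleton]
            omega
          · simp only [mem_filter, mem_Icc, notMem_empty, iff_false]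
            omega
        rw [this]
        split_ifs <;> simp <;> omega
      · have : (Finset.Icc (lo i) (hi i)).filter
            (fun s => (s + 1 = lo (i + 1) ∧ lo (i + 2) = lo (i + 1) ∧ lo (i + 2) < hi (i + 2)) ∨
            (s = hi (i + 1) ∧ hi (i + 2) = hi (i + 1) + 1 ∧ lo (i + 2) < hi (i + 2))) =
            if hi (i + 1) = hi i ∧ hi (i + 2) = hi (i + 1) + 1 ∧ lo (i + 2) < hi (i + 2)
              then {lo i} else ∅ := by
          ext s
          split_ifs with h9
          · simp only [mem_filter, mem_Icc, mem_singleton]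
            omega
          · simp only [mem_filter, mem_Icc, notMem_empty, iff_false]
            omega
        rw [this]
        split_ifs <;> simp <;> omega
    · refine card_two_or (a := lo i) (b := hi i) (by omega) (fun s => ?_)
      simp only [mem_filter, mem_Icc, mem_singleton]
      omega
  · intro a ha b hb hab
    simp only [coe_filter, mem_Icc, Set.mem_setOf_eq] at ha hb
    exact C.inj i a b (by omega) ha.1.1 ha.1.2 hb.1.1 hb.1.2 hab

/-- a row as a finset -/
theorem Comp.row (C : Comp j t lo hi e) {k : ℕ} (hk : k ≤ j) [DecidablePred (· ≤ t)] :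
    (lv P k).filter (· ≤ t) = (Finset.Icc (lo k) (hi k)).image (e k) := by
  classical
  ext z
  rw [mem_filter, mem_image, mem_lv]
  constructor
  · rintro ⟨h1, h2⟩
    obtain ⟨s, h3, h4, h5⟩ := C.surj z h2 (by omega)
    rw [h1] at h3 h4 h5
    exact ⟨s, mem_Icc.2 ⟨h3, h4⟩, h5⟩
  · rintro ⟨s, hs, rfl⟩
    rw [mem_Icc] at hs
    exact ⟨C.lev_e k s hk hs.1 hs.2, C.le_t k s hk hs.1 hs.2⟩

theorem Comp.card_row (C : Comp j t lo hi e) {k : ℕ} (hk : k ≤ j) [DecidablePred (· ≤ t)] :
    ((lv P k).filter (· ≤ t)).card = hi k + 1 - lo k := by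
  classical
  rw [C.row hk, Finset.card_image_of_injOn, Nat.card_Icc]
  intro a ha b hb hab
  simp only [coe_Icc, Set.mem_Icc] at ha hb
  exact C.inj k a b hk ha.1 ha.2 hb.1 hb.2 hab

end Pool.Agent.GaussPoset.Cp

end
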