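import Mathlib
import Pool.Agent.W_448zz_h61.Ns
import Pool.Agent.W_448zz_h61.M007
import Pool.Agent.W_448zz_h61.M012

/-! From `Pool.Agent.W_448C_h48.StA` -/

section

/-!
# Strips of the first bad level (MP_448cb3_co, `b_1 = 2 b_0`), part A

No element of level at most `j` is below two maximal elements, single-up elements have a chain
above them, and a double element of level `j + 1` has both covers below the same maximal element.
-/

namespace Pool.Agent.GaussPoset.Win

set_option linter.unusedSectionVars false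

open Finset

universe u

variable {P : Type u} [Fintype P] [PartialOrder P] [DecidableEq P] {r j : ℕ}

lemma StA_ucv_pos {v v' y : P} (h : v ⋖ y) (h' : v' ⋖ y) : 1 ≤ ucv v v' := by
  classical
  unfold ucv
  exact Finset.card_pos.2 ⟨y, by simp [h, h']⟩

lemma StA_dcv_pos {v v' y : P} (h : y ⋖ v) (h' : y ⋖ v') : 1 ≤ dcv v v' := by
  classical
  unfold dcv
  exact Finset.card_pos.2 ⟨y, by simp [h, h']⟩

lemma StA_of_ucv {v v' : P} (h : 1 ≤ ucv v v') : ∃ y, v ⋖ y ∧ v' ⋖ y := by
  classical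
  unfold ucv at h
  obtain ⟨y, hy⟩ := Finset.card_pos.1 h
  rw [mem_filter] at hy
  exact ⟨y, hy.2⟩

lemma StA_of_dcv {v v' : P} (h : 1 ≤ dcv v v') : ∃ y, y ⋖ v ∧ y ⋖ v' := by
  classical
  unfold dcv at h
  obtain ⟨y, hy⟩ := Finset.card_pos.1 h
  rw [mem_filter] at hy
  exact ⟨y, hy.2⟩

end Pool.Agent.GaussPoset.Win

end

/-! From `Pool.Agent.W_448win_h16.DualA` -/

section

/-! Transfer to the dual poset. -/

namespace Pool.Agent.GaussPoset.Win

set_option linter.unusedSectionVars false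

open Finset OrderDual

universe u

variable {P : Type u} [Fintype P] [PartialOrder P] [DecidableEq P] {r : ℕ}

/-- a labelling seen on the dual -/
def eo (e : P → ℕ) : Pᵒᵈ → ℕ := fun y => e (ofDual y)

/-- `H.hr` and the definition of `colev` -/
lemma lev_od (H : Gr P r) (x : P) : lev (toDual x) = r - lev x := by
  have h := H.hr x
  unfold colev at h
  omega

/-- `toDual_covBy_toDual_iff` -/
lemma FD_od (e : P → ℕ) (x : P) : FD (eo e) (toDual x) ↔ FU e x := by
  constructor
  · rintro ⟨z, hz, h⟩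
    exact ⟨ofDual z, toDual_covBy_toDual_iff.mp hz, h⟩
  · rintro ⟨y, hy, h⟩
    exact ⟨toDual y, toDual_covBy_toDual_iff.mpr hy, h⟩

lemma FU_od (e : P → ℕ) (x : P) : FU (eo e) (toDual x) ↔ FD e x := by
  constructor
  · rintro ⟨z, hz, h⟩
    exact ⟨ofDual z, toDual_covBy_toDual_iff.mp hz, h⟩
  · rintro ⟨y, hy, h⟩
    exact ⟨toDual y, toDual_covBy_toDual_iff.mpr hy, h⟩

lemma GU_od (e : P → ℕ) (x : P) : GU (eo e) (toDual x) ↔ GD e x := by
  constructor
  · rintro ⟨z, hz, h⟩
    exact ⟨ofDual z, toDual_covBy_toDual_iff.mp hz, h⟩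
  · rintro ⟨y, hy, h⟩
    exact ⟨toDual y, toDual_covBy_toDual_iff.mpr hy, h⟩

lemma GD_od (e : P → ℕ) (x : P) : GD (eo e) (toDual x) ↔ GU e x := by
  constructor
  · rintro ⟨z, hz, h⟩
    exact ⟨ofDual z, toDual_covBy_toDual_iff.mp hz, h⟩
  · rintro ⟨y, hy, h⟩
    exact ⟨toDual y, toDual_covBy_toDual_iff.mpr hy, h⟩

/-- `lev (toDual x) > r - i` iff `lev x < i` -/
lemma AdmL_od (H : Gr P r) {i : ℕ} (hi : i ≤ r) (e : P → ℕ) :
    AdmL (r - i) (eo e) ↔ AdmU i e := by
  constructor
  · intro h u hu hc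
    have h1 := lev_od H u
    have h2 := H.hr u
    refine h (toDual u) (by omega) ?_
    rw [FD_od, GU_od]
    exact hc
  · intro h z hz hc
    have h1 := lev_od H (ofDual z)
    have h2 := H.hr (ofDual z)
    rw [toDual_ofDual] at h1
    refine h (ofDual z) (by omega) ?_
    rw [← FD_od, ← GU_od]
    exact hc

lemma AdmU_od (H : Gr P r) {i : ℕ} (hi : i ≤ r) (e : P → ℕ) :
    AdmU (r - i) (eo e) ↔ AdmL i e := by
  constructor
  · intro h u hu hc
    have h1 := lev_od H u
    have h2 := H.hr u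
    refine h (toDual u) (by omega) ?_
    rw [FU_od, GD_od]
    exact hc
  · intro h z hz hc
    have h1 := lev_od H (ofDual z)
    have h2 := H.hr (ofDual z)
    rw [toDual_ofDual] at h1
    refine h (ofDual z) (by omega) ?_
    rw [← FU_od, ← GD_od]
    exact hc

lemma mem_AL_od (H : Gr P r) {i : ℕ} (hi : i ≤ r) (e : P → ℕ) (x : P) :
    toDual x ∈ AL (r - i) (eo e) ↔ x ∈ AU i e := by
  classical
  have h1 := lev_od H x
  have h2 := H.hr x
  unfold AL AU
  rw [Finset.mem_filter, Finset.mem_filter, mem_lv, mem_lv, FD_od]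
  constructor
  · rintro ⟨h3, h4⟩
    exact ⟨by omega, h4⟩
  · rintro ⟨h3, h4⟩
    exact ⟨by omega, h4⟩

lemma mem_AU_od (H : Gr P r) {i : ℕ} (hi : i ≤ r) (e : P → ℕ) (x : P) :
    toDual x ∈ AU (r - i) (eo e) ↔ x ∈ AL i e := by
  classical
  have h1 := lev_od H x
  have h2 := H.hr x
  unfold AL AU
  rw [Finset.mem_filter, Finset.mem_filter, mem_lv, mem_lv, FU_od]
  constructor
  · rintro ⟨h3, h4⟩
    exact ⟨by omega, h4⟩
  · rintro ⟨h3, h4⟩
    exact ⟨by omega, h4⟩

end Pool.Agent.GaussPoset.Win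

end

/-! From `Pool.Agent.W_448win_h16.DualB` -/

section

/-! Transfer to the dual poset: numbers. -/

namespace Pool.Agent.GaussPoset.Win

set_option linter.unusedSectionVars false

open Finset OrderDual

universe u

variable {P : Type u} [Fintype P] [PartialOrder P] [DecidableEq P] {r : ℕ}

lemma dualb_card (p : Pᵒᵈ → Prop) (q : P → Prop) [DecidablePred p] [DecidablePred q]
    (h : ∀ x : P, p (toDual x) ↔ q x) :
    (univ.filter p).card = (univ.filter q).card := by
  refine Finset.card_bij (fun y _ => ofDual y) ?_ ?_ ?_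
  · intro y hy
    rw [mem_filter] at hy ⊢
    refine ⟨mem_univ _, ?_⟩
    rw [← h, toDual_ofDual]
    exact hy.2
  · intro a _ b _ hab
    exact ofDual.injective hab
  · intro x hx
    rw [mem_filter] at hx
    refine ⟨toDual x, ?_, rfl⟩
    rw [mem_filter]
    exact ⟨mem_univ _, (h x).mpr hx.2⟩

/-- cardinalities: `Finset.card_bij` with `ofDual` -/
lemma nums_od (H : Gr P r) {i : ℕ} (hi : i ≤ r) (e : P → ℕ) :
    aL (r - i) (eo e) = aU i e ∧ aU (r - i) (eo e) = aL i e ∧ pL (r - i) (eo e) = pU i e ∧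
      pU (r - i) (eo e) = pL i e ∧ (AL (r - i) (eo e)).card = (AU i e).card ∧
      (AU (r - i) (eo e)).card = (AL i e).card ∧ (lv Pᵒᵈ (r - i)).card = (lv P i).card := by
  classical
  have hl : ∀ x : P, lev (toDual x) = r - lev x := lev_od H
  have hr : ∀ x : P, lev x ≤ r := fun x => by have := H.hr x; omega
  have c1 : ∀ x : P, r - i < lev (toDual x) ↔ lev x < i := fun x => by
    have := hl x; have := hr x; omega
  have c2 : ∀ x : P, lev (toDual x) < r - i ↔ i < lev x := fun x => by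
    have := hl x; have := hr x; omega
  have c3 : ∀ x : P, lev (toDual x) = r - i ↔ lev x = i := fun x => by
    have := hl x; have := hr x; omega
  refine ⟨?_, ?_, ?_, ?_, ?_, ?_, ?_⟩
  · unfold aL aU
    refine dualb_card _ _ fun x => ?_
    rw [c1, FD_od]
  · unfold aL aU
    refine dualb_card _ _ fun x => ?_
    rw [c2, FU_od]
  · unfold pL pU
    refine dualb_card _ _ fun x => ?_
    rw [c1, FD_od, GU_od]
  · unfold pL pU
    refine dualb_card _ _ fun x => ?_
    rw [c2, FU_od, GD_od]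
  · refine Finset.card_bij (fun y _ => ofDual y) ?_ ?_ ?_
    · intro y hy
      exact (mem_AL_od H hi e (ofDual y)).mp hy
    · intro a _ b _ hab
      exact ofDual.injective hab
    · intro x hx
      exact ⟨toDual x, (mem_AL_od H hi e x).mpr hx, rfl⟩
  · refine Finset.card_bij (fun y _ => ofDual y) ?_ ?_ ?_
    · intro y hy
      exact (mem_AU_od H hi e (ofDual y)).mp hy
    · intro a _ b _ hab
      exact ofDual.injective hab
    · intro x hx
      exact ⟨toDual x, (mem_AU_od H hi e x).mpr hx, rfl⟩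
  · unfold lv
    exact dualb_card _ _ c3

lemma disj_od (H : Gr P r) {i : ℕ} (hi : i ≤ r) (e : P → ℕ) :
    Disjoint (AL (r - i) (eo e)) (AU (r - i) (eo e)) ↔ Disjoint (AL i e) (AU i e) := by
  rw [Finset.disjoint_left, Finset.disjoint_left]
  constructor
  · intro h x hx hx2
    exact h ((mem_AL_od H hi e x).mpr hx2) ((mem_AU_od H hi e x).mpr hx)
  · intro h y hy hy2
    exact h ((mem_AU_od H hi e (ofDual y)).mp hy2) ((mem_AL_od H hi e (ofDual y)).mp hy)

/-- uniqueness of the coefficients -/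
lemma dualb_unique {V : Finset P} {c c' : Finset P → A}
    (h : ∀ S, S ⊆ V → ∑ T ∈ S.powerset, c T = ∑ T ∈ S.powerset, c' T) :
    ∀ S, S ⊆ V → c S = c' S := by
  classical
  intro S
  induction S using Finset.strongInduction with
  | H S ih =>
    intro hS
    have h1 := h S hS
    rw [← Finset.add_sum_erase _ _ (Finset.mem_powerset_self S),
      ← Finset.add_sum_erase _ _ (Finset.mem_powerset_self S)] at h1
    have h2 : ∑ T ∈ S.powerset.erase S, c T = ∑ T ∈ S.powerset.erase S, c' T := by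
      refine Finset.sum_congr rfl fun T hT => ?_
      rw [Finset.mem_erase, Finset.mem_powerset] at hT
      exact ih T (Finset.ssubset_iff_subset_ne.mpr ⟨hT.2, hT.1⟩) (hT.2.trans hS)
    rw [h2] at h1
    exact add_right_cancel h1

/-- the function of `eo e` on the dual: sets are complemented in the window and `xx`, `xi dd`
exchanged. We only need: membership in `Rk` is the same. For a configuration the function is
`cw * chi AL AU`; it is in `Rk _ k` iff it is zero or `|AL| + |AU| ≤ pL + pU + k`. -/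
theorem Rk_Fe_iff {k i : ℕ} (e : P → ℕ) : Rk (lv P i) k (Fe i e) ↔ Cheap k i e := by
  classical
  refine ⟨fun h => ?_, Rk_of_cheap⟩
  by_contra hc
  unfold Cheap at hc
  push Not at hc
  obtain ⟨hL, hU, hD, hlt⟩ := hc
  obtain ⟨c, hc1, hc2⟩ := h
  set a : A := cw i e with ha
  have hALs : AL i e ⊆ lv P i := by
    unfold AL
    exact Finset.filter_subset _ _
  have hAUs : AU i e ⊆ lv P i := by
    unfold AU
    exact Finset.filter_subset _ _
  have hun := dualb_unique (V := lv P i) (c := c)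
    (c' := fun T => if AL i e ⊆ T ∧ T ⊆ AL i e ∪ AU i e then a * (-1) ^ (T.card - (AL i e).card)
      else 0) (by
      intro S hS
      rw [← hc2 S hS, RkC_sum hD S a]
      rfl)
  have hT : AL i e ∪ AU i e ⊆ lv P i := Finset.union_subset hALs hAUs
  have h1 := hun _ hT
  rw [if_pos ⟨Finset.subset_union_left, Finset.Subset.refl _⟩,
    Finset.card_union_of_disjoint hD, Nat.add_sub_cancel_left] at h1
  have h2 := hc1 _ hT
  rw [h1, Finset.card_union_of_disjoint hD, ha] at h2
  unfold cw at h2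
  rw [if_pos ⟨hL, hU⟩] at h2
  have h3 : dd ^ (pL i e + pU i e + 1) ∣ dd ^ (pL i e + pU i e) *
      (xx ^ aL i e * xi ^ (aU i e + pU i e) * (-1) ^ (AU i e).card) := by
    refine (pow_dvd_pow _ (show pL i e + pU i e + 1 ≤ (AL i e).card + (AU i e).card - k by
      omega)).trans (h2.trans (dvd_of_eq ?_))
    ring
  have h4 := cc_of_dvd h3
  rw [map_mul, map_mul, map_pow, map_pow, map_pow, map_neg, map_one, cc_xx, cc_xi] at h4
  have h5 : ((-1 : ℤ) ^ aL i e * (-1) ^ (aU i e + pU i e) * (-1) ^ (AU i e).card) ≠ 0 := by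
    rw [← pow_add, ← pow_add]
    exact pow_ne_zero _ (by norm_num)
  exact h5 h4

/-- from `Rk_Fe_iff`, `AdmL_od`, `AdmU_od`, `disj_od`, `nums_od` -/
theorem Rk_od (H : Gr P r) {i : ℕ} (hi : i ≤ r) (k : ℕ) (e : P → ℕ) :
    Rk (lv Pᵒᵈ (r - i)) k (Fe (r - i) (eo e)) ↔ Rk (lv P i) k (Fe i e) := by
  rw [Rk_Fe_iff, Rk_Fe_iff]
  unfold Cheap
  obtain ⟨-, -, h3, h4, h5, h6, -⟩ := nums_od H hi e
  rw [AdmL_od H hi, AdmU_od H hi, disj_od H hi, h3, h4, h5, h6, add_comm (AU i e).card,
    add_comm (pU i e)]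
  tauto

end Pool.Agent.GaussPoset.Win

end

/-! From `Pool.Agent.W_448win_h16.DualC` -/

section

/-! Transfer to the dual poset: structure. -/

namespace Pool.Agent.GaussPoset.Win

set_option linter.unusedSectionVars false

open Finset OrderDual

universe u

variable {P : Type u} [Fintype P] [PartialOrder P] [DecidableEq P] {r : ℕ}

lemma DualC_mem_map (s : Finset P) (y : Pᵒᵈ) : y ∈ s.map toDual.toEmbedding ↔ ofDual y ∈ s := by
  rw [Finset.mem_map]
  constructor
  · rintro ⟨x, hx, rfl⟩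
    exact hx
  · intro h
    exact ⟨ofDual y, h, rfl⟩

lemma DualC_cov (x y : Pᵒᵈ) : x ⋖ y ↔ ofDual y ⋖ ofDual x :=
  ⟨fun h => ofDual_covBy_ofDual_iff.mpr h, fun h => ofDual_covBy_ofDual_iff.mp h⟩

lemma DualC_lev (H : Gr P r) (x : Pᵒᵈ) : lev x + lev (ofDual x) = r := by
  have h1 := H.hr (ofDual x)
  unfold colev at h1
  rw [toDual_ofDual] at h1
  omega

/-- covers on the dual -/
lemma uc_od (x : P) : uc (toDual x) = (dc x).map toDual.toEmbedding := by
  ext y
  rw [DualC_mem_map, mem_uc, mem_dc, DualC_cov]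
  rfl

lemma dc_od (x : P) : dc (toDual x) = (uc x).map toDual.toEmbedding := by
  ext y
  rw [DualC_mem_map, mem_dc, mem_uc, DualC_cov]
  rfl

lemma cu_od (x : P) : eo (cu x) = cl (toDual x) := by
  classical
  funext y
  have hm : (y = toDual x ∨ y ∈ uc (toDual x)) ↔ (ofDual y = x ∨ ofDual y ∈ dc x) := by
    rw [uc_od, DualC_mem_map]
    exact Iff.rfl
  by_cases h : y = toDual x ∨ y ∈ uc (toDual x)
  · have e1 : cl (toDual x) y = 1 := by
      unfold cl
      exact if_pos h
    have e2 : cu x (ofDual y) = 1 := by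
      unfold cu
      exact if_pos (hm.mp h)
    rw [e1, ← e2]
    rfl
  · have e1 : cl (toDual x) y = 0 := by
      unfold cl
      exact if_neg h
    have e2 : cu x (ofDual y) = 0 := by
      unfold cu
      exact if_neg (fun h2 => h (hm.mpr h2))
    rw [e1, ← e2]
    rfl

lemma sg_od (x : P) : eo (sg x) = sg (toDual x) := by
  funext y
  unfold eo sg
  by_cases h : y = toDual x
  · rw [h]
    change (Pi.single x 1 : P → ℕ) x = (Pi.single (toDual x) 1 : Pᵒᵈ → ℕ) (toDual x)
    rw [Pi.single_eq_same, Pi.single_eq_same]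
  · rw [Pi.single_eq_of_ne h, Pi.single_eq_of_ne]
    intro h1
    exact h (by rw [← h1]; rfl)

lemma up_od (H : Gr P r) {i : ℕ} (hi : i ≤ r) (x : P) : up (r - i) (toDual x) = dn i x := by
  classical
  unfold up dn
  rw [← Finset.card_map (s := (lv P i).filter (fun v => v < x)) toDual.toEmbedding]
  congr 1
  ext y
  have h1 := DualC_lev H y
  rw [DualC_mem_map, Finset.mem_filter, Finset.mem_filter, mem_lv, mem_lv]
  constructor
  · rintro ⟨h3, h4⟩
    exact ⟨by omega, h4⟩
  · rintro ⟨h3, h4⟩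
    exact ⟨by omega, h4⟩

lemma DualC_dbL (H : Gr P r) {i : ℕ} (hi : i ≤ r) (y : Pᵒᵈ) :
    y ∈ dbL Pᵒᵈ (r - i) ↔ ofDual y ∈ dbU P i := by
  have h1 := DualC_lev H y
  have h2 : (uc y).card = (dc (ofDual y)).card := by
    have := uc_od (ofDual y)
    rw [toDual_ofDual] at this
    rw [this, Finset.card_map]
  rw [mem_dbL, mem_dbU, h2]
  constructor
  · rintro ⟨h3, h4⟩
    exact ⟨by omega, h4⟩
  · rintro ⟨h3, h4⟩
    exact ⟨by omega, h4⟩

lemma DualC_dbU (H : Gr P r) {i : ℕ} (hi : i ≤ r) (y : Pᵒᵈ) :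
    y ∈ dbU Pᵒᵈ (r - i) ↔ ofDual y ∈ dbL P i := by
  have h1 := DualC_lev H y
  have h2 : (dc y).card = (uc (ofDual y)).card := by
    have := dc_od (ofDual y)
    rw [toDual_ofDual] at this
    rw [this, Finset.card_map]
  rw [mem_dbL, mem_dbU, h2]
  constructor
  · rintro ⟨h3, h4⟩
    exact ⟨by omega, h4⟩
  · rintro ⟨h3, h4⟩
    exact ⟨by omega, h4⟩

lemma DualC_near (H : Gr P r) {i : ℕ} (hi : i ≤ r) (y : Pᵒᵈ) :
    y ∈ near Pᵒᵈ (r - i) ↔ ofDual y ∈ near P i := by
  have h1 := DualC_lev H y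
  rw [mem_near, mem_near]
  omega

lemma DualC_Tch (H : Gr P r) {i : ℕ} (hi : i ≤ r) (e : P → ℕ) (y : Pᵒᵈ) :
    y ∈ Tch (r - i) (eo e) ↔ ofDual y ∈ Tch i e := by
  have h1 := DualC_lev H y
  have h2 : (∃ z : Pᵒᵈ, z ⋖ y ∧ 0 < eo e z) ↔ ∃ z : P, ofDual y ⋖ z ∧ 0 < e z := by
    constructor
    · rintro ⟨z, hz, h⟩
      exact ⟨ofDual z, (DualC_cov _ _).mp hz, h⟩
    · rintro ⟨z, hz, h⟩
      exact ⟨toDual z, (DualC_cov _ _).mpr hz, h⟩
  have h3 : (∃ z : Pᵒᵈ, y ⋖ z ∧ 0 < eo e z) ↔ ∃ z : P, z ⋖ ofDual y ∧ 0 < e z := by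
    constructor
    · rintro ⟨z, hz, h⟩
      exact ⟨ofDual z, (DualC_cov _ _).mp hz, h⟩
    · rintro ⟨z, hz, h⟩
      exact ⟨toDual z, (DualC_cov _ _).mpr hz, h⟩
  rw [mem_Tch, mem_Tch, h2, h3]
  constructor
  · rintro (⟨h4, h5⟩ | ⟨h4, h5⟩)
    · exact Or.inr ⟨by omega, h5⟩
    · exact Or.inl ⟨by omega, h5⟩
  · rintro (⟨h4, h5⟩ | ⟨h4, h5⟩)
    · exact Or.inr ⟨by omega, h5⟩
    · exact Or.inl ⟨by omega, h5⟩

/-- the matching on the dual -/
theorem Mat_od (H : Gr P r) {i : ℕ} (hi : i ≤ r) {K : Finset P} {psi : P → P}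
    (hM : Mat P i K psi) :
    Mat Pᵒᵈ (r - i) (K.map toDual.toEmbedding) (fun y => toDual (psi (ofDual y))) := by
  refine ⟨?_, ?_, ?_⟩
  · intro x hx hK
    rw [Finset.mem_union, DualC_dbL H hi, DualC_dbU H hi] at hx
    rw [DualC_mem_map] at hK
    have h := hM.invol (ofDual x) (Finset.mem_union.mpr hx.symm) hK
    refine ⟨?_, ?_⟩
    · change toDual (psi (psi (ofDual x))) = x
      rw [h.1]
      rfl
    · rw [DualC_mem_map]
      exact h.2
  · intro x hx hK
    rw [DualC_dbL H hi] at hx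
    rw [DualC_mem_map] at hK
    have h := hM.upp (ofDual x) hx hK
    refine ⟨(DualC_dbU H hi _).mpr h.1, ?_⟩
    rw [dc_od, h.2]
    exact (uc_od (ofDual x)).symm
  · intro x hx hK
    rw [DualC_dbU H hi] at hx
    rw [DualC_mem_map] at hK
    have h := hM.low (ofDual x) hx hK
    refine ⟨(DualC_dbL H hi _).mpr h.1, ?_⟩
    rw [uc_od, h.2]
    exact (dc_od (ofDual x)).symm

lemma IsCore_od (H : Gr P r) {i : ℕ} (hi : i ≤ r) {K : Finset P} {psi : P → P} (e : P → ℕ) :
    IsCore (r - i) (K.map toDual.toEmbedding) (fun y => toDual (psi (ofDual y))) (eo e) ↔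
      IsCore i K psi e := by
  classical
  have key : ∀ y : Pᵒᵈ, y ∈ Rst (r - i) (K.map toDual.toEmbedding)
      (fun y => toDual (psi (ofDual y))) (eo e) ↔ ofDual y ∈ Rst i K psi e := by
    intro y
    unfold Rst
    rw [Finset.mem_filter, Finset.mem_filter, DualC_near H hi, DualC_mem_map, DualC_Tch H hi,
      DualC_Tch H hi, Finset.mem_union, Finset.mem_union, DualC_dbL H hi, DualC_dbU H hi,
      ofDual_toDual, or_comm (a := ofDual y ∈ dbU P i)]
  constructor
  · intro h x hx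
    exact h (toDual x) ((key (toDual x)).mpr hx)
  · intro h y hy
    exact h (ofDual y) ((key y).mp hy)

lemma TL_od (H : Gr P r) {i : ℕ} (hi : i ≤ r) (e : P → ℕ) :
    TL (r - i) (eo e) = (TU i e).map toDual.toEmbedding ∧
      TU (r - i) (eo e) = (TL i e).map toDual.toEmbedding := by
  classical
  constructor
  · ext y
    have h1 := DualC_lev H y
    have h2 : (∃ z : Pᵒᵈ, z ⋖ y ∧ 0 < eo e z) ↔ ∃ z : P, ofDual y ⋖ z ∧ 0 < e z := by
      constructor
      · rintro ⟨z, hz, h⟩
        exact ⟨ofDual z, (DualC_cov _ _).mp hz, h⟩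
      · rintro ⟨z, hz, h⟩
        exact ⟨toDual z, (DualC_cov _ _).mpr hz, h⟩
    rw [DualC_mem_map]
    unfold TL TU
    rw [Finset.mem_filter, Finset.mem_filter, h2]
    constructor
    · rintro ⟨-, h3, h4⟩
      exact ⟨Finset.mem_univ _, by omega, h4⟩
    · rintro ⟨-, h3, h4⟩
      exact ⟨Finset.mem_univ _, by omega, h4⟩
  · ext y
    have h1 := DualC_lev H y
    have h3 : (∃ z : Pᵒᵈ, y ⋖ z ∧ 0 < eo e z) ↔ ∃ z : P, z ⋖ ofDual y ∧ 0 < e z := by
      constructor
      · rintro ⟨z, hz, h⟩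
        exact ⟨ofDual z, (DualC_cov _ _).mp hz, h⟩
      · rintro ⟨z, hz, h⟩
        exact ⟨toDual z, (DualC_cov _ _).mpr hz, h⟩
    rw [DualC_mem_map]
    unfold TL TU
    rw [Finset.mem_filter, Finset.mem_filter, h3]
    constructor
    · rintro ⟨-, h3, h4⟩
      exact ⟨Finset.mem_univ _, by omega, h4⟩
    · rintro ⟨-, h3, h4⟩
      exact ⟨Finset.mem_univ _, by omega, h4⟩

lemma PD_od (H : Gr P r) {i : ℕ} (hi : i ≤ r) :
    PD Pᵒᵈ (r - i) = (PU P i).map toDual.toEmbedding ∧
      PU Pᵒᵈ (r - i) = (PD P i).map toDual.toEmbedding := by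
  classical
  have cu' : ∀ y : Pᵒᵈ, (uc y).card = (dc (ofDual y)).card := by
    intro y
    have := uc_od (ofDual y)
    rw [toDual_ofDual] at this
    rw [this, Finset.card_map]
  have cd' : ∀ y : Pᵒᵈ, (dc y).card = (uc (ofDual y)).card := by
    intro y
    have := dc_od (ofDual y)
    rw [toDual_ofDual] at this
    rw [this, Finset.card_map]
  constructor
  · ext y
    have h1 := DualC_lev H y
    have h2 : (∃ w : Pᵒᵈ, y ⋖ w ∧ (uc w).card = 2) ↔ ∃ w : P, w ⋖ ofDual y ∧ (dc w).card = 2 := by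
      constructor
      · rintro ⟨z, hz, h⟩
        exact ⟨ofDual z, (DualC_cov _ _).mp hz, by rw [← cu']; exact h⟩
      · rintro ⟨z, hz, h⟩
        exact ⟨toDual z, (DualC_cov _ _).mpr hz, by rw [cu']; exact h⟩
    rw [DualC_mem_map]
    unfold PD PU
    rw [Finset.mem_filter, Finset.mem_filter, h2, cu']
    constructor
    · rintro ⟨-, h3, h4⟩
      exact ⟨Finset.mem_univ _, by omega, h4⟩
    · rintro ⟨-, h3, h4⟩
      exact ⟨Finset.mem_univ _, by omega, h4⟩
  · ext y
    have h1 := DualC_lev H y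
    have h2 : (∃ w : Pᵒᵈ, w ⋖ y ∧ (dc w).card = 2) ↔ ∃ w : P, ofDual y ⋖ w ∧ (uc w).card = 2 := by
      constructor
      · rintro ⟨z, hz, h⟩
        exact ⟨ofDual z, (DualC_cov _ _).mp hz, by rw [← cd']; exact h⟩
      · rintro ⟨z, hz, h⟩
        exact ⟨toDual z, (DualC_cov _ _).mpr hz, by rw [cd']; exact h⟩
    rw [DualC_mem_map]
    unfold PD PU
    rw [Finset.mem_filter, Finset.mem_filter, h2, cd']
    constructor
    · rintro ⟨-, h3, h4⟩
      exact ⟨Finset.mem_univ _, by omega, h4⟩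
    · rintro ⟨-, h3, h4⟩
      exact ⟨Finset.mem_univ _, by omega, h4⟩

lemma Good_od (H : Gr P r) {i : ℕ} (hi : i ≤ r) : Good Pᵒᵈ (r - i) ↔ Good P i := by
  classical
  have hu : ∀ v v' : Pᵒᵈ, ucv v v' = dcv (ofDual v) (ofDual v') := by
    intro v v'
    unfold ucv dcv
    rw [← Finset.card_map (s := univ.filter (fun y : P => y ⋖ ofDual v ∧ y ⋖ ofDual v'))
      toDual.toEmbedding]
    congr 1
    ext y
    rw [DualC_mem_map, Finset.mem_filter, Finset.mem_filter, DualC_cov, DualC_cov]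
    simp
  have hd : ∀ v v' : Pᵒᵈ, dcv v v' = ucv (ofDual v) (ofDual v') := by
    intro v v'
    unfold ucv dcv
    rw [← Finset.card_map (s := univ.filter (fun y : P => ofDual v ⋖ y ∧ ofDual v' ⋖ y))
      toDual.toEmbedding]
    congr 1
    ext y
    rw [DualC_mem_map, Finset.mem_filter, Finset.mem_filter, DualC_cov, DualC_cov]
    simp
  constructor
  · intro h v v' h1 h2 h3
    have l1 := DualC_lev H (toDual v)
    have l2 := DualC_lev H (toDual v')
    rw [ofDual_toDual] at l1 l2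
    have := h (toDual v) (toDual v') (by omega) (by omega) (fun h4 => h3 (toDual.injective h4))
    rw [hu, hd] at this
    exact this.symm
  · intro h v v' h1 h2 h3
    have l1 := DualC_lev H v
    have l2 := DualC_lev H v'
    have := h (ofDual v) (ofDual v') (by omega) (by omega) (fun h4 => h3 (ofDual.injective h4))
    rw [hu, hd]
    exact this.symm

end Pool.Agent.GaussPoset.Win

end

/-! From `Pool.Agent.W_448C_h48.StG` -/

section

/-!
# The first bad level (MP_448cb3_co): no upper quads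
-/

namespace Pool.Agent.GaussPoset.Win

set_option linter.unusedSectionVars false

open Finset

universe u

variable {P : Type u} [Fintype P] [PartialOrder P] [DecidableEq P] {r j : ℕ}

/-- at most three elements of level `j` are below an element of level `j - 2`, if level `j - 1` is
good -/
theorem dn_le_three (H : Gr P r) {k : ℕ} (hg : Good P (k + 1)) {x : P} (hx : lev x = k) :
    dn (k + 2) x ≤ 3 := by
  classical
  have hsub : ((lv P (k + 2)).filter (fun v => v < x)) ⊆ (dc x).biUnion dc := by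
    intro v hv
    rw [mem_filter, mem_lv] at hv
    rw [mem_biUnion]
    obtain ⟨y, hy, hy2⟩ := exists_lev_succ (x := v) (k := k + 1) (by omega)
    obtain ⟨y', hy', hy2'⟩ := Hul.exists_cov hv.2
    have hl := lev_covBy H.gauss hy'
    refine ⟨y', ?_, mem_dc.2 hy'⟩
    rw [mem_dc]
    exact H.covBy_iff.2 ⟨lt_of_le_of_ne hy2' (by rintro rfl; omega), by omega⟩
  have h0 : dn (k + 2) x ≤ ((dc x).biUnion dc).card := by
    unfold dn
    exact Finset.card_le_card hsub
  refine h0.trans ?_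
  have hd := dc_card_le H x
  rcases Nat.lt_or_ge (dc x).card 2 with h1 | h1
  · have h2 : ((dc x).biUnion dc).card ≤ (dc x).card * 2 :=
      Finset.card_biUnion_le_card_mul _ _ _ fun y _ => dc_card_le H y
    omega
  · obtain ⟨y, y', hne, hyy⟩ := Finset.card_eq_two.1 (le_antisymm hd h1)
    have hy : y ⋖ x := by
      rw [← mem_dc, hyy]
      simp
    have hy' : y' ⋖ x := by
      rw [← mem_dc, hyy]
      simp
    have hl := lev_covBy H.gauss hy
    have hl' := lev_covBy H.gauss hy'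
    have hu := StA_ucv_pos hy hy'
    rw [hg y y' (by omega) (by omega) hne] at hu
    obtain ⟨z, hz, hz'⟩ := StA_of_dcv hu
    rw [hyy, Finset.biUnion_insert, Finset.singleton_biUnion]
    have h2 := Finset.card_union_add_card_inter (dc y) (dc y')
    have h3 : 0 < (dc y ∩ dc y').card :=
      Finset.card_pos.2 ⟨z, by rw [mem_inter, mem_dc, mem_dc]; exact ⟨hz, hz'⟩⟩
    have h4 := dc_card_le H y
    have h5 := dc_card_le H y'
    omega

end Pool.Agent.GaussPoset.Win

end
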