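import Mathlib
import Pool.Agent.W_448zz_h61.Ns
import Pool.Agent.W_448zz_h61.M011
import Pool.Agent.W_448zz_h61.M013
import Pool.Agent.W_448zz_h61.M014

/-! From `Pool.Agent.W_448C_h48.StB` -/

section

/-!
# Strips of the first bad level (MP_448cb3_co, `b_1 = 2 b_0`), part B

The elements of level `k ≤ j` below a maximal element form a path.
-/

namespace Pool.Agent.GaussPoset.Win

set_option linter.unusedSectionVars false

open Finset

universe u

variable {P : Type u} [Fintype P] [PartialOrder P] [DecidableEq P] {r j : ℕ}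

/-- the elements of level `k` below the maximal element `t` are `x lo, …, x hi`, a path -/
structure SL (P : Type u) [Fintype P] [PartialOrder P] [DecidableEq P] (k : ℕ) (t : P)
    (lo hi : ℕ) (x : ℕ → P) : Prop where
  lt : lo < hi
  hi_le : hi ≤ k
  lev_x : ∀ a, lo ≤ a → a ≤ hi → lev (x a) = k
  le_t : ∀ a, lo ≤ a → a ≤ hi → x a ≤ t
  inj : ∀ a b, lo ≤ a → a < b → b ≤ hi → x a ≠ x b
  surj : ∀ y, lev y = k → y ≤ t → ∃ a, lo ≤ a ∧ a ≤ hi ∧ x a = y
  nb : ∀ a, lo ≤ a → a < hi → ucv (x a) (x (a + 1)) = 1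
  far : ∀ a b, lo ≤ a → a + 1 < b → b ≤ hi → ucv (x a) (x b) = 0
  inner : ∀ a, lo < a → a < hi → (uc (x a)).card = 2
  left : (uc (x lo)).card = 1 → lo = 0
  right : (uc (x hi)).card = 1 → hi = k

lemma StB_ucv_comm (v v' : P) : ucv v v' = ucv v' v := by
  classical
  unfold ucv
  congr 1
  ext y
  simp only [mem_filter, mem_univ, true_and]
  exact and_comm

lemma StB_dcv_comm (v v' : P) : dcv v v' = dcv v' v := by
  classical
  unfold dcv
  congr 1
  ext y
  simp only [mem_filter, mem_univ, true_and]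
  exact and_comm

/-- an element with one common lower cover -/
lemma StB_unique {v v' z z' : P} (hd : dcv v v' = 1) (h1 : z ⋖ v) (h2 : z ⋖ v') (h3 : z' ⋖ v)
    (h4 : z' ⋖ v') : z = z' := by
  classical
  unfold dcv at hd
  obtain ⟨y, hy⟩ := Finset.card_eq_one.1 hd
  have e1 : z ∈ univ.filter (fun y : P => y ⋖ v ∧ y ⋖ v') := by simp [h1, h2]
  have e2 : z' ∈ univ.filter (fun y : P => y ⋖ v ∧ y ⋖ v') := by simp [h3, h4]
  rw [hy, mem_singleton] at e1 e2
  rw [e1, e2]

/-- two different elements above -/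
lemma StB_uc_pair (H : Gr P r) {z v v' : P} (h1 : z ⋖ v) (h2 : z ⋖ v') (hne : v ≠ v') :
    uc z = {v, v'} := by
  classical
  symm
  refine Finset.eq_of_subset_of_card_le ?_ ?_
  · intro x hx
    rw [mem_insert, mem_singleton] at hx
    rcases hx with rfl | rfl
    · exact mem_uc.2 h1
    · exact mem_uc.2 h2
  · rw [Finset.card_pair hne]
    exact uc_card_le H z

end Pool.Agent.GaussPoset.Win

end

/-! From `Pool.Agent.W_448cr_h63.CA` -/

section

/-!
# Component rows at good levels (MP_448cb3_co), part A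

All levels less than `j` are good.  No element of level at most `j` is below two maximal elements,
and the elements of level at most `j` below a maximal element have coordinates.
-/

namespace Pool.Agent.GaussPoset.Win

set_option linter.unusedSectionVars false

open Finset

universe u

variable {P : Type u} [Fintype P] [PartialOrder P] [DecidableEq P] {r j : ℕ}

/-- all levels less than `j` are good -/
structure GoodTo (P : Type u) [Fintype P] [PartialOrder P] [DecidableEq P] (r j : ℕ) : Prop where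
  H : Gr P r
  hr : j ≤ r
  good : ∀ l, l < j → Good P l

lemma GoodTo.mono (h : GoodTo P r j) {k : ℕ} (hk : k ≤ j) : GoodTo P r k :=
  ⟨h.H, by have := h.hr; omega, fun l hl => h.good l (by omega)⟩

/-- no element of level at most `j` is below two maximal elements -/
theorem GoodTo.no_join (h : GoodTo P r j) : ∀ x : P, lev x ≤ j → ¬ Hul.Jn x := by
  suffices key : ∀ (n : ℕ) (x : P), lev x = n → n ≤ j → ¬ Hul.Jn x from
    fun x hx => key _ x rfl hx
  intro n
  induction n with
  | zero =>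
    rintro x hx - ⟨v, v', h1, h2, h3, h4, h5⟩
    have h6 : ∀ v : P, x ≤ v → x = v := fun v hv => by
      by_contra hne
      have := lev_strictAnti (lt_of_le_of_ne hv hne)
      omega
    exact h3 ((h6 v h4).symm.trans (h6 v' h5))
  | succ n ih =>
    rintro x hx hn ⟨v, v', h1, h2, h3, h4, h5⟩
    have hxv : x < v := lt_of_le_of_ne h4 (by rintro rfl; omega)
    have hxv' : x < v' := lt_of_le_of_ne h5 (by rintro rfl; omega)
    obtain ⟨y, hy, hy2⟩ := Hul.exists_cov hxv
    obtain ⟨y', hy', hy2'⟩ := Hul.exists_cov hxv'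
    have hl := lev_covBy h.H.gauss hy
    have hl' := lev_covBy h.H.gauss hy'
    by_cases hyy : y = y'
    · exact ih y (by omega) (by omega) ⟨v, v', h1, h2, h3, hy2, hyy ▸ hy2'⟩
    · have hg := h.good n (by omega) y y' (by omega) (by omega) hyy
      have hd := StA_dcv_pos hy hy'
      rw [← hg] at hd
      obtain ⟨w, hw, hw'⟩ := StA_of_ucv hd
      obtain ⟨t, ht, ht2⟩ := exists_above' (x := w) (j := 0) (Nat.zero_le _)
      have e1 := Hul.top_unique (ih y (by omega) (by omega)) h1 ht2 hy2 (hw.le.trans ht)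
      have e2 := Hul.top_unique (ih y' (by omega) (by omega)) h2 ht2 hy2' (hw'.le.trans ht)
      exact h3 (e1.trans e2.symm)

/-- an element of level at most `j` is below exactly one maximal element -/
lemma GoodTo.top_eq (h : GoodTo P r j) {x t t' : P} (hx : lev x ≤ j) (ht : lev t = 0)
    (ht' : lev t' = 0) (h1 : x ≤ t) (h2 : x ≤ t') : t = t' :=
  Hul.top_unique (h.no_join x hx) ht ht' h1 h2

/-- all covers of an element of level at most `j` below `t` are below `t` -/
lemma GoodTo.cov_le (h : GoodTo P r j) {z v t : P} (hz : lev z ≤ j) (ht : lev t = 0)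
    (hzt : z ≤ t) (hzv : z ⋖ v) : v ≤ t := by
  obtain ⟨s, hs, hs2⟩ := exists_above' (x := v) (j := 0) (Nat.zero_le _)
  rw [h.top_eq hz ht hs2 hzt (hzv.le.trans hs)]
  exact hs

/-- the elements of level at most `j` below the maximal element `t`, in coordinates: level `k`
consists of `x k a`, `lo k ≤ a ≤ hi k`, and `x (k + 1) a` is covered by `x k a` and `x k (a - 1)`
(as far as they exist) -/
structure Comp (P : Type u) [Fintype P] [PartialOrder P] [DecidableEq P] (t : P) (j : ℕ)
    (lo hi : ℕ → ℕ) (x : ℕ → ℕ → P) : Prop where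
  lo0 : lo 0 = 0
  hi0 : hi 0 = 0
  x0 : x 0 0 = t
  lo_le : ∀ k, k < j → lo k ≤ lo (k + 1)
  lo_ge : ∀ k, k < j → lo (k + 1) ≤ lo k + 1
  hi_le : ∀ k, k < j → hi k ≤ hi (k + 1)
  hi_ge : ∀ k, k < j → hi (k + 1) ≤ hi k + 1
  lohi : ∀ k, k ≤ j → lo k ≤ hi k
  lev_x : ∀ k, k ≤ j → ∀ a, lo k ≤ a → a ≤ hi k → lev (x k a) = k
  le_t : ∀ k, k ≤ j → ∀ a, lo k ≤ a → a ≤ hi k → x k a ≤ t
  inj : ∀ k, k ≤ j → ∀ a b, lo k ≤ a → a < b → b ≤ hi k → x k a ≠ x k b
  surj : ∀ k, k ≤ j → ∀ y, lev y = k → y ≤ t → ∃ a, lo k ≤ a ∧ a ≤ hi k ∧ x k a = y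
  cov : ∀ k, k < j → ∀ a b, lo (k + 1) ≤ a → a ≤ hi (k + 1) → lo k ≤ b → b ≤ hi k →
    (x (k + 1) a ⋖ x k b ↔ b = a ∨ b + 1 = a)

variable {t : P} {lo hi : ℕ → ℕ} {x : ℕ → ℕ → P}

lemma Comp.inj' (C : Comp P t j lo hi x) {k : ℕ} (hk : k ≤ j) {a b : ℕ} (ha : lo k ≤ a)
    (ha' : a ≤ hi k) (hb : lo k ≤ b) (hb' : b ≤ hi k) (h : x k a = x k b) : a = b := by
  rcases Nat.lt_trichotomy a b with h1 | h1 | h1
  · exact absurd h (C.inj k hk a b ha h1 hb')
  · exact h1
  · exact absurd h.symm (C.inj k hk b a hb h1 ha')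

/-- the bounds of the indices -/
lemma Comp.hi_bd (C : Comp P t j lo hi x) : ∀ k, k ≤ j → hi k ≤ k := by
  intro k
  induction k with
  | zero => intro _; rw [C.hi0]
  | succ k ih =>
    intro hk
    have h1 := ih (by omega)
    have h2 := C.hi_ge k (by omega)
    omega

/-- restriction to fewer levels -/
lemma Comp.mono (C : Comp P t j lo hi x) {k : ℕ} (hk : k ≤ j) : Comp P t k lo hi x where
  lo0 := C.lo0
  hi0 := C.hi0
  x0 := C.x0
  lo_le := fun l hl => C.lo_le l (by omega)
  lo_ge := fun l hl => C.lo_ge l (by omega)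
  hi_le := fun l hl => C.hi_le l (by omega)
  hi_ge := fun l hl => C.hi_ge l (by omega)
  lohi := fun l hl => C.lohi l (by omega)
  lev_x := fun l hl => C.lev_x l (by omega)
  le_t := fun l hl => C.le_t l (by omega)
  inj := fun l hl => C.inj l (by omega)
  surj := fun l hl => C.surj l (by omega)
  cov := fun l hl => C.cov l (by omega)

/-- common upper covers of the elements of one row -/
lemma Comp.ucv_lt (C : Comp P t j lo hi x) (h : GoodTo P r j) (ht : lev t = 0) {k : ℕ}
    (hk : k ≤ j) {a b : ℕ} (ha : lo k ≤ a) (hab : a < b) (hb : b ≤ hi k) :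
    ucv (x k a) (x k b) = if b = a + 1 then 1 else 0 := by
  classical
  have hk0 : k ≠ 0 := by
    rintro rfl
    have := C.hi0
    omega
  obtain ⟨k, rfl⟩ : ∃ k', k = k' + 1 := ⟨k - 1, by omega⟩
  have e1 := C.lo_le k (by omega)
  have e2 := C.hi_ge k (by omega)
  have e3 := C.lo_ge k (by omega)
  have e4 := C.hi_le k (by omega)
  have key : ∀ w : P, x (k + 1) a ⋖ w → x (k + 1) b ⋖ w → b = a + 1 ∧ w = x k a := by
    intro w h1 h2
    have l1 := lev_cov h.H h1
    have l2 := C.lev_x (k + 1) hk a ha (by omega)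
    obtain ⟨c, c1, c2, rfl⟩ := C.surj k (by omega) w (by omega)
      (h.cov_le (by omega) ht (C.le_t _ hk a ha (by omega)) h1)
    rw [C.cov k (by omega) a c ha (by omega) c1 c2] at h1
    rw [C.cov k (by omega) b c (by omega) hb c1 c2] at h2
    have h3 : c = a := by omega
    exact ⟨by omega, by rw [h3]⟩
  unfold ucv
  split_ifs with hb1
  · rw [Finset.card_eq_one]
    refine ⟨x k a, ?_⟩
    ext w
    simp only [mem_filter, mem_univ, true_and, mem_singleton]
    constructor
    · rintro ⟨h1, h2⟩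
      exact (key w h1 h2).2
    · rintro rfl
      exact ⟨(C.cov k (by omega) a a ha (by omega) (by omega) (by omega)).2 (Or.inl rfl),
        (C.cov k (by omega) b a (by omega) hb (by omega) (by omega)).2 (Or.inr (by omega))⟩
  · rw [Finset.card_eq_zero, Finset.filter_eq_empty_iff]
    rintro w - ⟨h1, h2⟩
    exact hb1 (key w h1 h2).1

/-- common upper covers of the elements of one row, symmetric form -/
lemma Comp.ucv_eq (C : Comp P t j lo hi x) (h : GoodTo P r j) (ht : lev t = 0) {k : ℕ}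
    (hk : k ≤ j) {a b : ℕ} (ha : lo k ≤ a) (ha' : a ≤ hi k) (hb : lo k ≤ b) (hb' : b ≤ hi k)
    (hab : a ≠ b) :
    ucv (x k a) (x k b) = if b = a + 1 ∨ a = b + 1 then 1 else 0 := by
  rcases Nat.lt_or_ge a b with h1 | h1
  · rw [C.ucv_lt h ht hk ha h1 hb']
    exact if_congr (by omega) rfl rfl
  · rw [StB_ucv_comm, C.ucv_lt h ht hk hb (by omega) ha']
    exact if_congr (by omega) rfl rfl

/-- neighbours of level at most `j` are below the same maximal element -/
lemma GoodTo.top_of_ucv (h : GoodTo P r j) {v v' t : P} (hv : lev v ≤ j) (hu : 1 ≤ ucv v v')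
    (ht : lev t = 0) (hvt : v ≤ t) : v' ≤ t := by
  obtain ⟨y, hy, hy'⟩ := StA_of_ucv hu
  exact hy'.le.trans (h.cov_le hv ht hvt hy)

/-- extension by one row -/
lemma Comp.mk_step (C : Comp P t j lo hi x) (h : GoodTo P r (j + 1)) {l' h' : ℕ}
    {X : ℕ → P} (hl : lo j ≤ l' ∧ l' ≤ lo j + 1) (hh : hi j ≤ h' ∧ h' ≤ hi j + 1) (hlh : l' ≤ h')
    (hcov : ∀ a, l' ≤ a → a ≤ h' → ∀ b, lo j ≤ b → b ≤ hi j → (X a ⋖ x j b ↔ b = a ∨ b + 1 = a))
    (hinj : ∀ a b, l' ≤ a → a < b → b ≤ h' → X a ≠ X b)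
    (hsurj : ∀ y, lev y = j + 1 → y ≤ t → ∃ a, l' ≤ a ∧ a ≤ h' ∧ X a = y) :
    ∃ (lo' hi' : ℕ → ℕ) (x' : ℕ → ℕ → P), Comp P t (j + 1) lo' hi' x' ∧
      ∀ k, k ≤ j → lo' k = lo k ∧ hi' k = hi k ∧ x' k = x k := by
  have hsome : ∀ a, l' ≤ a → a ≤ h' → ∃ b, lo j ≤ b ∧ b ≤ hi j ∧ X a ⋖ x j b := by
    intro a h1 h2
    have := C.lohi j le_rfl
    rcases Nat.lt_or_ge (hi j) a with h3 | h3
    · exact ⟨a - 1, by omega, by omega, (hcov a h1 h2 _ (by omega) (by omega)).2 (by omega)⟩
    · exact ⟨a, by omega, h3, (hcov a h1 h2 _ (by omega) h3).2 (Or.inl rfl)⟩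
  have hlev : ∀ a, l' ≤ a → a ≤ h' → lev (X a) = j + 1 := by
    intro a h1 h2
    obtain ⟨b, b1, b2, b3⟩ := hsome a h1 h2
    rw [lev_cov h.H b3, C.lev_x j le_rfl b b1 b2]
  have hle : ∀ a, l' ≤ a → a ≤ h' → X a ≤ t := by
    intro a h1 h2
    obtain ⟨b, b1, b2, b3⟩ := hsome a h1 h2
    exact b3.le.trans (C.le_t j le_rfl b b1 b2)
  have e1 : ∀ k, k ≤ j → (if k ≤ j then lo k else l') = lo k := fun k hk => if_pos hk
  have e2 : ∀ k, k ≤ j → (if k ≤ j then hi k else h') = hi k := fun k hk => if_pos hk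
  have e3 : ∀ k, k ≤ j → (if k ≤ j then x k else X) = x k := fun k hk => if_pos hk
  have f1 : (if j + 1 ≤ j then lo (j + 1) else l') = l' := if_neg (by omega)
  have f2 : (if j + 1 ≤ j then hi (j + 1) else h') = h' := if_neg (by omega)
  have f3 : (if j + 1 ≤ j then x (j + 1) else X) = X := if_neg (by omega)
  refine ⟨fun k => if k ≤ j then lo k else l', fun k => if k ≤ j then hi k else h',
    fun k => if k ≤ j then x k else X, ⟨?_, ?_, ?_, ?_, ?_, ?_, ?_, ?_, ?_, ?_, ?_, ?_, ?_⟩,
    fun k hk => ⟨e1 k hk, e2 k hk, e3 k hk⟩⟩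
  · rw [e1 0 (Nat.zero_le _)]; exact C.lo0
  · rw [e2 0 (Nat.zero_le _)]; exact C.hi0
  · rw [e3 0 (Nat.zero_le _)]; exact C.x0
  · intro k hk
    rcases Nat.lt_or_ge k j with h1 | h1
    · rw [e1 k (by omega), e1 (k + 1) (by omega)]
      exact C.lo_le k h1
    · obtain rfl : k = j := by omega
      rw [e1 k le_rfl, f1]
      exact hl.1
  · intro k hk
    rcases Nat.lt_or_ge k j with h1 | h1
    · rw [e1 k (by omega), e1 (k + 1) (by omega)]
      exact C.lo_ge k h1
    · obtain rfl : k = j := by omega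
      rw [e1 k le_rfl, f1]
      exact hl.2
  · intro k hk
    rcases Nat.lt_or_ge k j with h1 | h1
    · rw [e2 k (by omega), e2 (k + 1) (by omega)]
      exact C.hi_le k h1
    · obtain rfl : k = j := by omega
      rw [e2 k le_rfl, f2]
      exact hh.1
  · intro k hk
    rcases Nat.lt_or_ge k j with h1 | h1
    · rw [e2 k (by omega), e2 (k + 1) (by omega)]
      exact C.hi_ge k h1
    · obtain rfl : k = j := by omega
      rw [e2 k le_rfl, f2]
      exact hh.2
  · intro k hk
    rcases Nat.lt_or_ge j k with h1 | h1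
    · obtain rfl : k = j + 1 := by omega
      rw [f1, f2]
      exact hlh
    · rw [e1 k h1, e2 k h1]
      exact C.lohi k h1
  · intro k hk
    rcases Nat.lt_or_ge j k with h1 | h1
    · obtain rfl : k = j + 1 := by omega
      rw [f1, f2, f3]
      exact hlev
    · rw [e1 k h1, e2 k h1, e3 k h1]
      exact C.lev_x k h1
  · intro k hk
    rcases Nat.lt_or_ge j k with h1 | h1
    · obtain rfl : k = j + 1 := by omega
      rw [f1, f2, f3]
      exact hle
    · rw [e1 k h1, e2 k h1, e3 k h1]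
      exact C.le_t k h1
  · intro k hk
    rcases Nat.lt_or_ge j k with h1 | h1
    · obtain rfl : k = j + 1 := by omega
      rw [f1, f2, f3]
      exact hinj
    · rw [e1 k h1, e2 k h1, e3 k h1]
      exact C.inj k h1
  · intro k hk
    rcases Nat.lt_or_ge j k with h1 | h1
    · obtain rfl : k = j + 1 := by omega
      rw [f1, f2, f3]
      exact hsurj
    · rw [e1 k h1, e2 k h1, e3 k h1]
      exact C.surj k h1
  · intro k hk
    rcases Nat.lt_or_ge k j with h1 | h1
    · rw [e1 k (by omega), e1 (k + 1) (by omega), e2 k (by omega), e2 (k + 1) (by omega),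
        e3 k (by omega), e3 (k + 1) (by omega)]
      exact C.cov k h1
    · obtain rfl : k = j := by omega
      rw [e1 k le_rfl, e2 k le_rfl, e3 k le_rfl, f1, f2, f3]
      intro a b h1 h2 h3 h4
      exact hcov a h1 h2 b h3 h4

end Pool.Agent.GaussPoset.Win

end

/-! From `Pool.Agent.W_448cp_h96.CE` -/

section

/-!
# Component rows, part E: the two structures `Cp.Comp` and `Win.Comp` are the same
-/

namespace Pool.Agent.GaussPoset.Cp

set_option linter.unusedSectionVars false

open Finset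

universe u

variable {P : Type u} [Fintype P] [PartialOrder P] [DecidableEq P] {r j : ℕ}
  {t : P} {lo hi : ℕ → ℕ} {e : ℕ → ℕ → P}

lemma Comp.toWin (C : Comp j t lo hi e) : Win.Comp P t j lo hi e where
  lo0 := C.lo_zero
  hi0 := C.hi_zero
  x0 := C.top
  lo_le := fun k hk => by have := C.lo_step k hk; omega
  lo_ge := fun k hk => by have := C.lo_step k hk; omega
  hi_le := fun k hk => by have := C.hi_step k hk; omega
  hi_ge := fun k hk => by have := C.hi_step k hk; omega
  lohi := fun k hk => C.lo_le k hk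
  lev_x := fun k hk a h1 h2 => C.lev_e k a hk h1 h2
  le_t := fun k hk a h1 h2 => C.le_t k a hk h1 h2
  inj := fun k hk a b h1 h2 h3 h4 => by
    have := C.inj k a b hk h1 (by omega) (by omega) h3 h4
    omega
  surj := fun k hk y hy hyt => by
    subst hy
    exact C.surj y hyt hk
  cov := fun k hk a b h1 h2 h3 h4 => C.cov k a b hk h1 h2 h3 h4

end Pool.Agent.GaussPoset.Cp

end
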