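import Mathlib
import Pool.Agent.W_448zz_h61.Ns
import Pool.Agent.W_448zz_h61.M007

/-! From `Pool.Agent.W_448co_h5.PartB` -/

section

/-! Multiplicativity of the term of a configuration over disjoint parts. -/

namespace Pool.Agent.GaussPoset.Win

set_option linter.unusedSectionVars false

open Finset

universe u

variable {P : Type u} [Fintype P] [PartialOrder P] [DecidableEq P] {r : ℕ}

variable {i : ℕ} {C D : Finset P} {e f : P → ℕ}

lemma AdmL_add (hC : Part i C) (hD : Part i D) (hCD : Disjoint C D)
    (he : Spt C e) (hf : Spt D f) : AdmL i (e + f) ↔ AdmL i e ∧ AdmL i f := by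
  constructor
  · intro h
    constructor
    · rintro z hz ⟨h1, h2⟩
      have hzC := FD_mem hC he h1
      exact h z hz ⟨(FD_add hC hD hCD he hf z).2 (Or.inl h1), (GU_add_left hC hCD hf hzC).2 h2⟩
    · rintro z hz ⟨h1, h2⟩
      have hzD := FD_mem hD hf h1
      refine h z hz ⟨(FD_add hC hD hCD he hf z).2 (Or.inr h1), ?_⟩
      rw [add_comm e f]
      exact (GU_add_left hD hCD.symm he hzD).2 h2
  · rintro ⟨h1, h2⟩ z hz ⟨h3, h4⟩
    rcases (FD_add hC hD hCD he hf z).1 h3 with h5 | h5
    · exact h1 z hz ⟨h5, (GU_add_left hC hCD hf (FD_mem hC he h5)).1 h4⟩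
    · rw [add_comm e f] at h4
      exact h2 z hz ⟨h5, (GU_add_left hD hCD.symm he (FD_mem hD hf h5)).1 h4⟩

lemma AdmU_add (H : Gr P r) (hC : Part i C) (hD : Part i D) (hCD : Disjoint C D)
    (he : Spt C e) (hf : Spt D f) : AdmU i (e + f) ↔ AdmU i e ∧ AdmU i f := by
  constructor
  · intro h
    constructor
    · rintro z hz ⟨h1, h2⟩
      have hzC := FU_mem H hC he hz.le h1
      exact h z hz ⟨(FU_add H hC hD hCD he hf hz.le).2 (Or.inl h1),
        (GD_add_left hC hCD hf hzC hz).2 h2⟩
    · rintro z hz ⟨h1, h2⟩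
      have hzD := FU_mem H hD hf hz.le h1
      refine h z hz ⟨(FU_add H hC hD hCD he hf hz.le).2 (Or.inr h1), ?_⟩
      rw [add_comm e f]
      exact (GD_add_left hD hCD.symm he hzD hz).2 h2
  · rintro ⟨h1, h2⟩ z hz ⟨h3, h4⟩
    rcases (FU_add H hC hD hCD he hf hz.le).1 h3 with h5 | h5
    · exact h1 z hz ⟨h5, (GD_add_left hC hCD hf (FU_mem H hC he hz.le h5) hz).1 h4⟩
    · rw [add_comm e f] at h4
      exact h2 z hz ⟨h5, (GD_add_left hD hCD.symm he (FU_mem H hD hf hz.le h5) hz).1 h4⟩

open Classical in
lemma AL_add (hC : Part i C) (hD : Part i D) (hCD : Disjoint C D)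
    (he : Spt C e) (hf : Spt D f) : AL i (e + f) = AL i e ∪ AL i f := by
  ext v
  rw [mem_union, NormD_mem_AL, NormD_mem_AL, NormD_mem_AL, FD_add hC hD hCD he hf]
  tauto

open Classical in
lemma AU_add (H : Gr P r) (hC : Part i C) (hD : Part i D) (hCD : Disjoint C D)
    (he : Spt C e) (hf : Spt D f) : AU i (e + f) = AU i e ∪ AU i f := by
  ext v
  rw [mem_union, NormD_mem_AU, NormD_mem_AU, NormD_mem_AU]
  constructor
  · rintro ⟨h1, h2⟩
    rcases (FU_add H hC hD hCD he hf h1.le).1 h2 with h | h
    · exact Or.inl ⟨h1, h⟩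
    · exact Or.inr ⟨h1, h⟩
  · rintro (⟨h1, h2⟩ | ⟨h1, h2⟩)
    · exact ⟨h1, (FU_add H hC hD hCD he hf h1.le).2 (Or.inl h2)⟩
    · exact ⟨h1, (FU_add H hC hD hCD he hf h1.le).2 (Or.inr h2)⟩

lemma st_disj (hCD : Disjoint C D) : Disjoint (st i C) (st i D) :=
  disjoint_of_subset_left (filter_subset _ _) (disjoint_of_subset_right (filter_subset _ _) hCD)

lemma card_st_union (hCD : Disjoint C D) :
    (st i (C ∪ D)).card = (st i C).card + (st i D).card := by
  unfold st
  rw [filter_union, card_union_of_disjoint]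
  exact st_disj hCD

lemma aL_add (hC : Part i C) (hD : Part i D) (hCD : Disjoint C D)
    (he : Spt C e) (hf : Spt D f) : aL i (e + f) = aL i e + aL i f := by
  classical
  unfold aL
  rw [← card_union_of_disjoint]
  · congr 1
    ext z
    simp only [mem_filter, mem_univ, true_and, mem_union]
    rw [FD_add hC hD hCD he hf]
    tauto
  · rw [disjoint_left]
    intro z hz hz'
    simp only [mem_filter, mem_univ, true_and] at hz hz'
    exact disjoint_left.1 hCD (FD_mem hC he hz.2) (FD_mem hD hf hz'.2)

lemma aU_add (H : Gr P r) (hC : Part i C) (hD : Part i D) (hCD : Disjoint C D)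
    (he : Spt C e) (hf : Spt D f) : aU i (e + f) = aU i e + aU i f := by
  classical
  unfold aU
  rw [← card_union_of_disjoint]
  · congr 1
    ext z
    simp only [mem_filter, mem_univ, true_and, mem_union]
    constructor
    · rintro ⟨h1, h2⟩
      rcases (FU_add H hC hD hCD he hf h1.le).1 h2 with h | h
      · exact Or.inl ⟨h1, h⟩
      · exact Or.inr ⟨h1, h⟩
    · rintro (⟨h1, h2⟩ | ⟨h1, h2⟩)
      · exact ⟨h1, (FU_add H hC hD hCD he hf h1.le).2 (Or.inl h2)⟩
      · exact ⟨h1, (FU_add H hC hD hCD he hf h1.le).2 (Or.inr h2)⟩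
  · rw [disjoint_left]
    intro z hz hz'
    simp only [mem_filter, mem_univ, true_and] at hz hz'
    exact disjoint_left.1 hCD (FU_mem H hC he hz.1.le hz.2) (FU_mem H hD hf hz'.1.le hz'.2)

lemma free_low_mem (H : Gr P r) (he : Spt C e) {z : P} (h1 : i < lev z) (h2 : ¬ GU e z) :
    z ∈ C := by
  by_contra h
  exact h2 (GU_out H he h (by omega))

lemma free_up_mem (H : Gr P r) (hir : i ≤ r) (he : Spt C e) {z : P} (h1 : lev z < i)
    (h2 : ¬ GD e z) : z ∈ C := by
  by_contra h
  exact h2 (GD_out H he h (by omega))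

lemma pL_add (H : Gr P r) (hC : Part i C) (hD : Part i D) (hCD : Disjoint C D)
    (he : Spt C e) (hf : Spt D f) : pL i (e + f) = pL i e + pL i f := by
  classical
  unfold pL
  rw [← card_union_of_disjoint]
  · congr 1
    ext z
    simp only [mem_filter, mem_univ, true_and, mem_union]
    constructor
    · rintro ⟨h1, h2, h3⟩
      rw [FD_add hC hD hCD he hf, not_or] at h2
      have hz := free_low_mem H (he.add hf) h1 h3
      rcases mem_union.1 hz with hz | hz
      · exact Or.inl ⟨h1, h2.1, fun h => h3 ((GU_add_left hC hCD hf hz).2 h)⟩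
      · refine Or.inr ⟨h1, h2.2, fun h => h3 ?_⟩
        rw [add_comm e f]
        exact (GU_add_left hD hCD.symm he hz).2 h
    · rintro (⟨h1, h2, h3⟩ | ⟨h1, h2, h3⟩)
      · have hz := free_low_mem H he h1 h3
        refine ⟨h1, ?_, fun h => h3 ((GU_add_left hC hCD hf hz).1 h)⟩
        rw [FD_add hC hD hCD he hf, not_or]
        exact ⟨h2, fun h => disjoint_left.1 hCD hz (FD_mem hD hf h)⟩
      · have hz := free_low_mem H hf h1 h3
        refine ⟨h1, ?_, fun h => h3 ?_⟩
        · rw [FD_add hC hD hCD he hf, not_or]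
          exact ⟨fun h => disjoint_left.1 hCD (FD_mem hC he h) hz, h2⟩
        · rw [add_comm e f] at h
          exact (GU_add_left hD hCD.symm he hz).1 h
  · rw [disjoint_left]
    intro z hz hz'
    simp only [mem_filter, mem_univ, true_and] at hz hz'
    exact disjoint_left.1 hCD (free_low_mem H he hz.1 hz.2.2) (free_low_mem H hf hz'.1 hz'.2.2)

lemma pU_add (H : Gr P r) (hir : i ≤ r) (hC : Part i C) (hD : Part i D) (hCD : Disjoint C D)
    (he : Spt C e) (hf : Spt D f) : pU i (e + f) = pU i e + pU i f := by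
  classical
  unfold pU
  rw [← card_union_of_disjoint]
  · congr 1
    ext z
    simp only [mem_filter, mem_univ, true_and, mem_union]
    constructor
    · rintro ⟨h1, h2, h3⟩
      rw [FU_add H hC hD hCD he hf h1.le, not_or] at h2
      have hz := free_up_mem H hir (he.add hf) h1 h3
      rcases mem_union.1 hz with hz | hz
      · exact Or.inl ⟨h1, h2.1, fun h => h3 ((GD_add_left hC hCD hf hz h1).2 h)⟩
      · refine Or.inr ⟨h1, h2.2, fun h => h3 ?_⟩
        rw [add_comm e f]
        exact (GD_add_left hD hCD.symm he hz h1).2 h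
    · rintro (⟨h1, h2, h3⟩ | ⟨h1, h2, h3⟩)
      · have hz := free_up_mem H hir he h1 h3
        refine ⟨h1, ?_, fun h => h3 ((GD_add_left hC hCD hf hz h1).1 h)⟩
        rw [FU_add H hC hD hCD he hf h1.le, not_or]
        exact ⟨h2, fun h => disjoint_left.1 hCD hz (FU_mem H hD hf h1.le h)⟩
      · have hz := free_up_mem H hir hf h1 h3
        refine ⟨h1, ?_, fun h => h3 ?_⟩
        · rw [FU_add H hC hD hCD he hf h1.le, not_or]
          exact ⟨fun h => disjoint_left.1 hCD (FU_mem H hC he h1.le h) hz, h2⟩
        · rw [add_comm e f] at h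
          exact (GD_add_left hD hCD.symm he hz h1).1 h
  · rw [disjoint_left]
    intro z hz hz'
    simp only [mem_filter, mem_univ, true_and] at hz hz'
    exact disjoint_left.1 hCD (free_up_mem H hir he hz.1 hz.2.2)
      (free_up_mem H hir hf hz'.1 hz'.2.2)

theorem cw_add (H : Gr P r) (hir : i ≤ r) (hC : Part i C) (hD : Part i D) (hCD : Disjoint C D)
    (he : Spt C e) (hf : Spt D f) : cw i (e + f) = cw i e * cw i f := by
  unfold cw
  rw [aL_add hC hD hCD he hf, aU_add H hC hD hCD he hf, pL_add H hC hD hCD he hf,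
    pU_add H hir hC hD hCD he hf]
  by_cases h : AdmL i (e + f) ∧ AdmU i (e + f)
  · rw [if_pos h]
    rw [AdmL_add hC hD hCD he hf, AdmU_add H hC hD hCD he hf] at h
    rw [if_pos ⟨h.1.1, h.2.1⟩, if_pos ⟨h.1.2, h.2.2⟩]
    ring
  · rw [if_neg h]
    by_cases h1 : AdmL i e ∧ AdmU i e
    · rw [if_neg (c := AdmL i f ∧ AdmU i f), mul_zero]
      intro h2
      apply h
      rw [AdmL_add hC hD hCD he hf, AdmU_add H hC hD hCD he hf]
      exact ⟨⟨h1.1, h2.1⟩, ⟨h1.2, h2.2⟩⟩
    · rw [if_neg h1, zero_mul]

lemma card_le_st (H : Gr P r) (hC : Part i C) (he : Spt C e)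
    (hd : Disjoint (AL i e) (AU i e)) : (AL i e).card + (AU i e).card ≤ (st i C).card := by
  rw [← card_union_of_disjoint hd]
  exact card_le_card (union_subset (AL_sub hC he) (AU_sub H hC he))

theorem tC_add (H : Gr P r) (hir : i ≤ r) (hC : Part i C) (hD : Part i D) (hCD : Disjoint C D)
    (he : Spt C e) (hf : Spt D f) : tC i (C ∪ D) (e + f) = tC i C e * tC i D f := by
  classical
  unfold tC
  rw [AL_add hC hD hCD he hf, AU_add H hC hD hCD he hf, cw_add H hir hC hD hCD he hf,
    card_st_union hCD]
  have h1 : Disjoint (AL i e) (AU i f) :=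
    disjoint_of_subset_left (AL_sub hC he) (disjoint_of_subset_right (AU_sub H hD hf)
      (st_disj hCD))
  have h2 : Disjoint (AL i f) (AU i e) :=
    disjoint_of_subset_left (AL_sub hD hf) (disjoint_of_subset_right (AU_sub H hC he)
      (st_disj hCD).symm)
  have h3 : Disjoint (AL i e) (AL i f) :=
    disjoint_of_subset_left (AL_sub hC he) (disjoint_of_subset_right (AL_sub hD hf)
      (st_disj hCD))
  have h4 : Disjoint (AU i e) (AU i f) :=
    disjoint_of_subset_left (AU_sub H hC he) (disjoint_of_subset_right (AU_sub H hD hf)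
      (st_disj hCD))
  by_cases h : Disjoint (AL i e) (AU i e)
  · by_cases h' : Disjoint (AL i f) (AU i f)
    · rw [if_pos h, if_pos h', if_pos]
      · rw [card_union_of_disjoint h3, card_union_of_disjoint h4]
        have c1 := card_le_st H hC he h
        have c2 := card_le_st H hD hf h'
        have : (st i C).card + (st i D).card - ((AL i e).card + (AL i f).card) -
            ((AU i e).card + (AU i f).card) =
            ((st i C).card - (AL i e).card - (AU i e).card) +
              ((st i D).card - (AL i f).card - (AU i f).card) := by omega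
        rw [this, pow_add dd]
        ring
      · rw [disjoint_union_left, disjoint_union_right, disjoint_union_right]
        exact ⟨⟨h, h1⟩, ⟨h2, h'⟩⟩
    · rw [if_neg h', mul_zero, if_neg]
      rw [disjoint_union_left, disjoint_union_right, disjoint_union_right]
      rintro ⟨-, -, h5⟩
      exact h' h5
  · rw [if_neg h, zero_mul, if_neg]
    rw [disjoint_union_left, disjoint_union_right, disjoint_union_right]
    rintro ⟨⟨h5, -⟩, -⟩
    exact h h5

end Pool.Agent.GaussPoset.Win

end

/-! From `Pool.Agent.W_448co_h5.PartC` -/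

section

/-! The window series of a part, and its multiplicativity over disjoint parts. -/

namespace Pool.Agent.GaussPoset.Win

set_option linter.unusedSectionVars false

open Finset

universe u

variable {P : Type u} [Fintype P] [PartialOrder P] [DecidableEq P] {r : ℕ}

variable {i : ℕ} {C D : Finset P}

/-- the window series of the part `C`; the variable records the energy -/
noncomputable def ZS (i : ℕ) (C : Finset P) : PowerSeries A := PowerSeries.mk (ZC i C)

lemma coeff_ZS (i : ℕ) (C : Finset P) (n : ℕ) : PowerSeries.coeff n (ZS i C) = ZC i C n := by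
  unfold ZS; rw [PowerSeries.coeff_mk]

lemma spt_of_mem {C : Finset P} {n : ℕ} {e : P → ℕ} (h : e ∈ C.piAntidiag n) : Spt C e := by
  intro x hx
  rw [mem_piAntidiag] at h
  by_contra h0
  exact hx (h.2 x h0)

/-- the part of a configuration on `C` -/
def rst (C : Finset P) (g : P → ℕ) : P → ℕ := fun x => if x ∈ C then g x else 0

lemma rst_spt (C : Finset P) (g : P → ℕ) : Spt C (rst C g) := by
  intro x hx
  unfold rst
  rw [if_neg hx]

lemma rst_sum (C : Finset P) (g : P → ℕ) : C.sum (rst C g) = C.sum g := by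
  refine Finset.sum_congr rfl fun x hx => ?_
  unfold rst
  rw [if_pos hx]

lemma rst_add_rst (hCD : Disjoint C D) {g : P → ℕ} (hg : Spt (C ∪ D) g) :
    rst C g + rst D g = g := by
  funext x
  rw [Pi.add_apply]
  unfold rst
  by_cases h1 : x ∈ C
  · rw [if_pos h1, if_neg (disjoint_left.1 hCD h1), add_zero]
  · by_cases h2 : x ∈ D
    · rw [if_neg h1, if_pos h2, zero_add]
    · rw [if_neg h1, if_neg h2, hg x]
      rw [mem_union]
      tauto

lemma rst_left {e f : P → ℕ} (hCD : Disjoint C D) (he : Spt C e) (hf : Spt D f) :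
    rst C (e + f) = e := by
  funext x
  unfold rst
  by_cases h1 : x ∈ C
  · rw [if_pos h1, Pi.add_apply, hf x (disjoint_left.1 hCD h1), add_zero]
  · rw [if_neg h1, he x h1]

lemma sum_zero_of {e : P → ℕ} (hCD : Disjoint C D) (he : Spt C e) : D.sum e = 0 :=
  Finset.sum_eq_zero fun x hx => he x (disjoint_right.1 hCD hx)

theorem ZC_union (H : Gr P r) (hir : i ≤ r) (hC : Part i C) (hD : Part i D)
    (hCD : Disjoint C D) (n : ℕ) :
    ZC i (C ∪ D) n = ∑ p ∈ antidiagonal n, ZC i C p.1 * ZC i D p.2 := by
  have h1 : ∑ p ∈ antidiagonal n, ZC i C p.1 * ZC i D p.2 =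
      ∑ q ∈ (antidiagonal n).sigma (fun p => C.piAntidiag p.1 ×ˢ D.piAntidiag p.2),
        tC i C q.2.1 * tC i D q.2.2 := by
    rw [Finset.sum_sigma]
    refine Finset.sum_congr rfl fun p _ => ?_
    unfold ZC
    rw [Finset.sum_mul_sum, ← Finset.sum_product']
  rw [h1]
  unfold ZC
  refine Finset.sum_bij'
    (i := fun g _ => (⟨(C.sum g, D.sum g), (rst C g, rst D g)⟩ :
      Σ _ : ℕ × ℕ, (P → ℕ) × (P → ℕ)))
    (j := fun q _ => q.2.1 + q.2.2) ?_ ?_ ?_ ?_ ?_
  · intro g hg
    have hs := spt_of_mem hg
    rw [mem_piAntidiag] at hg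
    rw [mem_sigma]
    refine ⟨?_, ?_⟩
    · rw [Finset.HasAntidiagonal.mem_antidiagonal]
      simp only
      rw [← Finset.sum_union hCD]
      exact hg.1
    · rw [mem_product, mem_piAntidiag, mem_piAntidiag]
      refine ⟨⟨rst_sum C g, fun x hx => ?_⟩, ⟨rst_sum D g, fun x hx => ?_⟩⟩
      · by_contra h; exact hx (rst_spt C g x h)
      · by_contra h; exact hx (rst_spt D g x h)
  · rintro ⟨⟨a, b⟩, ⟨e, f⟩⟩ hq
    rw [mem_sigma, mem_product] at hq
    simp only at hq
    obtain ⟨hab, he, hf⟩ := hq
    have hse := spt_of_mem he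
    have hsf := spt_of_mem hf
    rw [mem_piAntidiag] at he hf
    rw [Finset.HasAntidiagonal.mem_antidiagonal] at hab
    rw [mem_piAntidiag]
    simp only
    constructor
    · have h2 := sum_zero_of hCD hse
      have h3 := sum_zero_of hCD.symm hsf
      have h4 : C.sum (e + f) = a := by
        have : C.sum (e + f) = C.sum e + C.sum f := by
          rw [← Finset.sum_add_distrib]; rfl
        rw [this, he.1, h3, add_zero]
      have h5 : D.sum (e + f) = b := by
        have : D.sum (e + f) = D.sum e + D.sum f := by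
          rw [← Finset.sum_add_distrib]; rfl
        rw [this, hf.1, h2, zero_add]
      rw [Finset.sum_union hCD, h4, h5]
      exact hab
    · intro x hx
      by_contra h
      exact hx ((hse.add hsf) x h)
  · intro g hg
    exact rst_add_rst hCD (spt_of_mem hg)
  · rintro ⟨⟨a, b⟩, ⟨e, f⟩⟩ hq
    rw [mem_sigma, mem_product] at hq
    simp only at hq
    obtain ⟨hab, he, hf⟩ := hq
    have hse := spt_of_mem he
    have hsf := spt_of_mem hf
    rw [mem_piAntidiag] at he hf
    have h2 := sum_zero_of hCD hse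
    have h3 := sum_zero_of hCD.symm hsf
    have h4 : C.sum (e + f) = a := by
      have : C.sum (e + f) = C.sum e + C.sum f := by
        rw [← Finset.sum_add_distrib]; rfl
      rw [this, he.1, h3, add_zero]
    have h5 : D.sum (e + f) = b := by
      have : D.sum (e + f) = D.sum e + D.sum f := by
        rw [← Finset.sum_add_distrib]; rfl
      rw [this, hf.1, h2, zero_add]
    have h6 : rst C (e + f) = e := rst_left hCD hse hsf
    have h7 : rst D (e + f) = f := by
      rw [add_comm e f]
      exact rst_left hCD.symm hsf hse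
    simp only [h4, h5, h6, h7]
  · intro g hg
    have hs := spt_of_mem hg
    simp only
    rw [← tC_add H hir hC hD hCD (rst_spt C g) (rst_spt D g), rst_add_rst hCD hs]

theorem ZS_union (H : Gr P r) (hir : i ≤ r) (hC : Part i C) (hD : Part i D)
    (hCD : Disjoint C D) : ZS i (C ∪ D) = ZS i C * ZS i D := by
  ext1 n
  rw [coeff_ZS, PowerSeries.coeff_mul, ZC_union H hir hC hD hCD]
  simp only [coeff_ZS]

lemma FD_zero (z : P) : ¬ FD (0 : P → ℕ) z := by
  rintro ⟨_, _, h⟩
  exact absurd h (lt_irrefl _)

lemma FU_zero (z : P) : ¬ FU (0 : P → ℕ) z := by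
  rintro ⟨_, _, h⟩
  exact absurd h (lt_irrefl _)

/-- the term of the zero configuration -/
theorem tC_zero (H : Gr P r) (hir : i ≤ r) (C : Finset P) :
    tC i C (0 : P → ℕ) = dd ^ (st i C).card := by
  classical
  have h1 : AL i (0 : P → ℕ) = ∅ := by
    ext v
    rw [NormD_mem_AL]
    simp [FD_zero]
  have h2 : AU i (0 : P → ℕ) = ∅ := by
    ext v
    rw [NormD_mem_AU]
    simp [FU_zero]
  have h3 : AdmL i (0 : P → ℕ) := fun z _ h => FD_zero z h.1
  have h4 : AdmU i (0 : P → ℕ) := fun z _ h => FU_zero z h.1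
  have h5 : aL i (0 : P → ℕ) = 0 := by
    unfold aL
    rw [Finset.card_eq_zero, Finset.filter_eq_empty_iff]
    rintro z - ⟨_, h⟩
    exact FD_zero z h
  have h6 : aU i (0 : P → ℕ) = 0 := by
    unfold aU
    rw [Finset.card_eq_zero, Finset.filter_eq_empty_iff]
    rintro z - ⟨_, h⟩
    exact FU_zero z h
  have hs : Spt (∅ : Finset P) (0 : P → ℕ) := fun _ _ => rfl
  have h7 : pL i (0 : P → ℕ) = 0 := by
    unfold pL
    rw [Finset.card_eq_zero, Finset.filter_eq_empty_iff]
    rintro z - ⟨h, _, h'⟩
    exact absurd (free_low_mem H hs h h') (Finset.notMem_empty _)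
  have h8 : pU i (0 : P → ℕ) = 0 := by
    unfold pU
    rw [Finset.card_eq_zero, Finset.filter_eq_empty_iff]
    rintro z - ⟨h, _, h'⟩
    exact absurd (free_up_mem H hir hs h h') (Finset.notMem_empty _)
  have h9 : cw i (0 : P → ℕ) = 1 := by
    unfold cw
    rw [if_pos ⟨h3, h4⟩, h5, h6, h7, h8]
    simp
  unfold tC
  rw [h9, h1, h2, if_pos (disjoint_empty_left _)]
  simp

theorem ZC_zero (H : Gr P r) (hir : i ≤ r) (C : Finset P) :
    ZC i C 0 = dd ^ (st i C).card := by
  unfold ZC
  rw [Finset.piAntidiag_zero, Finset.sum_singleton, tC_zero H hir]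

theorem ZS_empty (H : Gr P r) (hir : i ≤ r) : ZS i (∅ : Finset P) = 1 := by
  ext1 n
  rw [coeff_ZS]
  rcases Nat.eq_zero_or_pos n with rfl | hn
  · rw [ZC_zero H hir]
    simp [st]
  · unfold ZC
    rw [Finset.piAntidiag_empty_of_ne_zero (by omega), Finset.sum_empty,
      PowerSeries.coeff_one, if_neg (by omega)]

theorem Part.biUnion {ι : Type*} [DecidableEq ι] (s : Finset ι) (c : ι → Finset P)
    (hc : ∀ a ∈ s, Part i (c a)) : Part i (s.biUnion c) where
  up := by
    intro x y hx hxy
    rw [mem_biUnion] at hx ⊢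
    obtain ⟨a, ha, hxa⟩ := hx
    exact ⟨a, ha, (hc a ha).up hxa hxy⟩
  dn := by
    intro x y hy hl hxy
    rw [mem_biUnion] at hy ⊢
    obtain ⟨a, ha, hya⟩ := hy
    exact ⟨a, ha, (hc a ha).dn hya hl hxy⟩

/-- FACTORISATION of the window series over pairwise disjoint parts -/
theorem ZS_biUnion (H : Gr P r) (hir : i ≤ r) {ι : Type*} [DecidableEq ι] (s : Finset ι)
    (c : ι → Finset P) (hc : ∀ a ∈ s, Part i (c a))
    (hd : ∀ a ∈ s, ∀ b ∈ s, a ≠ b → Disjoint (c a) (c b)) :
    ZS i (s.biUnion c) = ∏ a ∈ s, ZS i (c a) := by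
  induction s using Finset.induction_on with
  | empty => rw [Finset.biUnion_empty, Finset.prod_empty, ZS_empty H hir]
  | insert a s ha ih =>
    rw [Finset.biUnion_insert, Finset.prod_insert ha, ZS_union H hir, ih]
    · exact fun b hb => hc b (mem_insert_of_mem hb)
    · exact fun b hb b' hb' => hd b (mem_insert_of_mem hb) b' (mem_insert_of_mem hb')
    · exact hc a (mem_insert_self a s)
    · exact Part.biUnion s c fun b hb => hc b (mem_insert_of_mem hb)
    · rw [disjoint_biUnion_right]
      intro b hb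
      refine hd a (mem_insert_self a s) b (mem_insert_of_mem hb) ?_
      rintro rfl
      exact ha hb

end Pool.Agent.GaussPoset.Win

end

/-! From `Pool.Agent.W_448co_h5.PartD` -/

section

/-! Exact factorisation of the window series into the components, up to twice the distance of the
window to the first level at which components are joined. -/

namespace Pool.Agent.GaussPoset.Win

set_option linter.unusedSectionVars false

open Finset

universe u

variable {P : Type u} [Fintype P] [PartialOrder P] [DecidableEq P] {r : ℕ}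

variable {i l : ℕ}

/-- an admissible configuration which is positive at a lower element is positive at all lower
elements above it -/
theorem pos_above (H : Gr P r) {e : P → ℕ} (hA : AdmL i e) {y : P} (hy : i < lev y) :
    ∀ z, z ≤ y → 0 < e z → 0 < e y := by
  refine normb_induct (C := fun z => 0 < e z → 0 < e y) (fun h => h) ?_
  intro x z hxz hzy ih hx
  apply ih
  have h1 := lev_uc H (mem_uc.2 hxz)
  have h2 : lev y ≤ lev z := by
    rcases eq_or_lt_of_le hzy with h | h
    · rw [h]
    · exact (lev_strictAnti h).le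
  exact pos_up H hA (by omega) hx hxz

/-- a configuration which excites an element with two elements above it on each of the levels
`i+1,…,l` has energy more than `2 (l - i)` -/
theorem energy_join (H : Gr P r) {e : P → ℕ} (hA : AdmL i e) {z : P}
    (hz : l < lev z) (he : 0 < e z) (h2 : ∀ k, i < k → k ≤ l → 2 ≤ up k z) :
    2 * (l - i) + 1 ≤ ∑ x, e x := by
  classical
  set T : Finset P := insert z ((Finset.Ioc i l).biUnion
    (fun k => (lv P k).filter (fun v => z < v))) with hT
  have hzT : z ∉ (Finset.Ioc i l).biUnion (fun k => (lv P k).filter (fun v => z < v)) := by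
    rw [mem_biUnion]
    rintro ⟨k, -, h⟩
    exact absurd (mem_filter.1 h).2 (lt_irrefl z)
  have hcard : 2 * (l - i) + 1 ≤ T.card := by
    rw [hT, Finset.card_insert_of_notMem hzT, Finset.card_biUnion]
    · have h3 : ∑ _k ∈ Finset.Ioc i l, 2 ≤
          ∑ k ∈ Finset.Ioc i l, ((lv P k).filter (fun v => z < v)).card := by
        refine Finset.sum_le_sum fun k hk => ?_
        rw [Finset.mem_Ioc] at hk
        have := h2 k hk.1 hk.2
        unfold up at this
        convert this
      rw [Finset.sum_const, Nat.card_Ioc, smul_eq_mul] at h3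
      omega
    · intro k _ k' _ hkk'
      rw [Function.onFun, disjoint_left]
      intro x hx hx'
      rw [mem_filter, mem_lv] at hx hx'
      exact hkk' (hx.1.symm.trans hx'.1)
  have hpos : ∀ x ∈ T, 1 ≤ e x := by
    intro x hx
    rw [hT, mem_insert, mem_biUnion] at hx
    rcases hx with rfl | ⟨k, hk, hx⟩
    · exact he
    · rw [Finset.mem_Ioc] at hk
      rw [mem_filter, mem_lv] at hx
      exact pos_above H hA (by omega) z hx.2.le he
  calc 2 * (l - i) + 1 ≤ T.card := hcard
    _ = ∑ _x ∈ T, 1 := by simp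
    _ ≤ ∑ x ∈ T, e x := Finset.sum_le_sum hpos
    _ ≤ ∑ x, e x := Finset.sum_le_sum_of_subset (subset_univ T)

variable {ι : Type*} [DecidableEq ι] {κ : P → ι}

/-- `κ` labels the components of the levels `≤ l` (it is constant along covers there) -/
def Split (l : ℕ) (κ : P → ι) : Prop := ∀ {x y : P}, x ⋖ y → lev x ≤ l → κ x = κ y

lemma Split.le (hκ : Split l κ) {y : P} : ∀ x, x ≤ y → lev x ≤ l → κ x = κ y := by
  refine normb_induct (C := fun x => lev x ≤ l → κ x = κ y) (fun _ => rfl) ?_
  intro x z hxz _ ih hx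
  have h1 : lev z < lev x := lev_strictAnti hxz.lt
  exact (hκ hxz hx).trans (ih (by omega))

open Classical in
/-- the elements which are below the component `a` only -/
noncomputable def cext (l : ℕ) (κ : P → ι) (a : ι) : Finset P :=
  univ.filter (fun x => ∀ y, x ≤ y → lev y ≤ l → κ y = a)

lemma mem_cext {a : ι} {x : P} : x ∈ cext l κ a ↔ ∀ y, x ≤ y → lev y ≤ l → κ y = a := by
  classical
  unfold cext
  simp

lemma mem_cext_of_le (hκ : Split l κ) {x : P} (hx : lev x ≤ l) {a : ι} (ha : κ x = a) :
    x ∈ cext l κ a := by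
  rw [mem_cext]
  intro y hy _
  rw [← hκ.le x hy hx, ha]

theorem part_cext (H : Gr P r) (hil : i ≤ l) (hκ : Split l κ) (a : ι) :
    Part i (cext l κ a) where
  up := by
    intro x y hx hxy
    rw [mem_cext] at hx ⊢
    exact fun w hw hl => hx w (hxy.le.trans hw) hl
  dn := by
    intro x y hy hl hxy
    have h1 := lev_uc H (mem_uc.2 hxy)
    rw [mem_cext] at hy
    refine mem_cext_of_le hκ (by omega) ?_
    rw [hκ hxy (by omega)]
    exact hy y le_rfl (by omega)

lemma exists_top (x : P) : ∃ y, x ≤ y ∧ lev y = 0 := exists_above' (Nat.zero_le _)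

theorem disj_cext {a b : ι} (hab : a ≠ b) : Disjoint (cext l κ a) (cext l κ b) := by
  rw [disjoint_left]
  intro x hx hx'
  rw [mem_cext] at hx hx'
  obtain ⟨y, hy, hy0⟩ := exists_top x
  exact hab ((hx y hy (by omega)).symm.trans (hx' y hy (by omega)))

/-- the union of the extended components -/
noncomputable def cuni (l : ℕ) (κ : P → ι) : Finset P :=
  (univ.image κ).biUnion (cext l κ)

lemma le_mem_cuni (hκ : Split l κ) {x : P} (hx : lev x ≤ l) : x ∈ cuni l κ := by
  unfold cuni
  rw [mem_biUnion]
  exact ⟨κ x, mem_image_of_mem κ (mem_univ x), mem_cext_of_le hκ hx rfl⟩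

/-- between two comparable elements there is one on each level between -/
lemma exists_mid (H : Gr P r) {x y : P} (hxy : x ≤ y) {k : ℕ} (h1 : lev y ≤ k)
    (h2 : k ≤ lev x) : ∃ z, x ≤ z ∧ z ≤ y ∧ lev z = k := by
  have key : ∀ x, x ≤ y → k ≤ lev x → ∃ z, x ≤ z ∧ z ≤ y ∧ lev z = k := by
    refine normb_induct (C := fun x => k ≤ lev x → ∃ z, x ≤ z ∧ z ≤ y ∧ lev z = k) ?_ ?_
    · intro h
      exact ⟨y, le_rfl, le_rfl, by omega⟩
    · intro x z hxz hzy ih hx
      rcases Nat.eq_or_lt_of_le hx with h | h
      · exact ⟨x, le_rfl, hxz.le.trans hzy, h.symm⟩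
      · have h3 := lev_uc H (mem_uc.2 hxz)
        obtain ⟨w, hw1, hw2, hw3⟩ := ih (by omega)
        exact ⟨w, hxz.le.trans hw1, hw2, hw3⟩
  exact key x hxy h2

/-- an element outside the extended components has two elements above it on each level `≤ l` -/
theorem two_up (H : Gr P r) (hκ : Split l κ) {x : P} (hx : x ∉ cuni l κ) :
    l < lev x ∧ ∀ k, k ≤ l → 2 ≤ up k x := by
  classical
  have h0 : l < lev x := by
    by_contra h
    exact hx (le_mem_cuni hκ (by omega))
  refine ⟨h0, fun k hk => ?_⟩
  obtain ⟨y, hy, hy0⟩ := exists_top x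
  have h1 : x ∉ cext l κ (κ y) := by
    intro h
    apply hx
    unfold cuni
    rw [mem_biUnion]
    exact ⟨κ y, mem_image_of_mem κ (mem_univ y), h⟩
  rw [mem_cext] at h1
  push Not at h1
  obtain ⟨y', hy', hl', hne⟩ := h1
  have mk : ∀ w, x ≤ w → lev w ≤ l → ∃ v, x < v ∧ lev v = k ∧ κ v = κ w := by
    intro w hw hwl
    rcases Nat.lt_or_ge k (lev w) with h | h
    · obtain ⟨v, hv, hvk⟩ := exists_above' (x := w) (j := k) h.le
      refine ⟨v, lt_of_le_of_ne (hw.trans hv) ?_, hvk, (hκ.le w hv hwl).symm⟩
      rintro rfl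
      omega
    · obtain ⟨v, hv1, hv2, hv3⟩ := exists_mid H hw h (by omega)
      refine ⟨v, lt_of_le_of_ne hv1 ?_, hv3, hκ.le v hv2 (by omega)⟩
      rintro rfl
      omega
  obtain ⟨v, hv1, hv2, hv3⟩ := mk y hy (by omega)
  obtain ⟨v', hv1', hv2', hv3'⟩ := mk y' hy' hl'
  have hvv : v ≠ v' := by
    rintro rfl
    exact hne (hv3'.symm.trans hv3)
  unfold up
  rw [← Finset.card_pair hvv]
  apply Finset.card_le_card
  intro w hw
  rw [mem_insert, mem_singleton] at hw
  rw [mem_filter, mem_lv]
  rcases hw with rfl | rfl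
  · exact ⟨hv2, hv1⟩
  · exact ⟨hv2', hv1'⟩

lemma st_cuni (hil : i ≤ l) (hκ : Split l κ) : st i (cuni l κ) = lv P i := by
  ext v
  rw [mem_st, mem_lv]
  exact ⟨fun h => h.2, fun h => ⟨le_mem_cuni hκ (by omega), h⟩⟩

theorem ZS_cuni (H : Gr P r) (hir : i ≤ r) (hil : i ≤ l) (hκ : Split l κ) :
    ZS i (cuni l κ) = ∏ a ∈ univ.image κ, ZS i (cext l κ a) :=
  ZS_biUnion H hir _ _ (fun a _ => part_cext H hil hκ a) (fun _ _ _ _ h => disj_cext h)

/-- EXACT FACTORISATION: up to energy `2 (l - i)` the window sum of `P` is the product of the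
window series of the extended components -/
theorem sum_trm_eq (H : Gr P r) (hir : i ≤ r) (hil : i ≤ l) (hκ : Split l κ) {n : ℕ}
    (hn : n ≤ 2 * (l - i)) :
    ∑ e ∈ (univ : Finset P).piAntidiag n, trm i e =
      PowerSeries.coeff n (∏ a ∈ univ.image κ, ZS i (cext l κ a)) := by
  classical
  rw [← ZS_cuni H hir hil hκ, coeff_ZS]
  unfold ZC
  symm
  have hsub : (cuni l κ).piAntidiag n ⊆ (univ : Finset P).piAntidiag n := by
    intro e he
    have hs := spt_of_mem he
    rw [mem_piAntidiag] at he ⊢
    refine ⟨?_, fun x _ => mem_univ x⟩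
    rw [← he.1]
    symm
    exact Finset.sum_subset (subset_univ _) fun x _ hx => hs x hx
  rw [← Finset.sum_subset hsub]
  · refine Finset.sum_congr rfl fun e _ => ?_
    unfold tC trm
    rw [st_cuni hil hκ]
  · intro e he hne
    rw [mem_piAntidiag] at he hne
    have hne' : ¬ ∀ x, e x ≠ 0 → x ∈ cuni l κ := by
      intro h
      apply hne
      refine ⟨?_, h⟩
      rw [← he.1]
      refine Finset.sum_subset (subset_univ _) fun x _ hx => ?_
      by_contra h0
      exact hx (h x h0)
    push Not at hne'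
    obtain ⟨z, hz0, hz⟩ := hne'
    obtain ⟨hzl, h2⟩ := two_up H hκ hz
    unfold trm
    split_ifs with hd
    · unfold cw
      rw [if_neg, zero_mul]
      rintro ⟨hA, -⟩
      have := energy_join H hA hzl (by omega) (fun k _ hk => h2 k hk)
      have h3 : ∑ x, e x = n := he.1
      omega
    · rfl

/-- the sites are distributed over the extended components -/
theorem sum_card_st (hil : i ≤ l) (hκ : Split l κ) :
    ∑ a ∈ univ.image κ, (st i (cext l κ a)).card = (lv P i).card := by
  rw [← st_cuni hil hκ]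
  unfold cuni st
  rw [Finset.filter_biUnion, Finset.card_biUnion]
  intro a _ b _ hab
  exact disjoint_of_subset_left (filter_subset _ _)
    (disjoint_of_subset_right (filter_subset _ _) (disj_cext hab))

/-- the total is clean -/
theorem dvd_prod (H : Gr P r) (hir : i ≤ r) (hil : i ≤ l) (hκ : Split l κ) {n : ℕ}
    (hn : n ≤ 2 * (l - i)) :
    dd ^ (∑ a ∈ univ.image κ, (st i (cext l κ a)).card) ∣
      PowerSeries.coeff n (∏ a ∈ univ.image κ, ZS i (cext l κ a)) := by
  rw [sum_card_st hil hκ, ← sum_trm_eq H hir hil hκ hn]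
  exact dvd_sum_trm H hir n

end Pool.Agent.GaussPoset.Win

end

/-! From `Pool.Agent.W_448co_h5.Second` -/

section

/-! The pole bound of one part, and the second order lemma: the number `D ^ 2 - 2 own` is additive
under products of clean series. -/

namespace Pool.Agent.GaussPoset.Win

set_option linter.unusedSectionVars false

open Finset

universe u

section pole

variable {P : Type u} [Fintype P] [PartialOrder P] [DecidableEq P] {r : ℕ}

variable {i : ℕ} {C : Finset P} {e : P → ℕ}

/-- one factor `d` is always left: the largest label sits on a free element or on a site which is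
not forced -/
theorem exp_pos (H : Gr P r) (hC : Part i C) (he : Spt C e) (hne : (st i C).Nonempty)
    (hd : Disjoint (AL i e) (AU i e)) :
    1 ≤ pL i e + pU i e + ((st i C).card - (AL i e).card - (AU i e).card) := by
  classical
  by_contra hcon
  have h0 : pL i e = 0 ∧ pU i e = 0 ∧ (st i C).card - (AL i e).card - (AU i e).card = 0 := by
    omega
  obtain ⟨hpL, hpU, hst⟩ := h0
  have hcard := card_le_st H hC he hd
  have hall : ∀ v ∈ st i C, v ∈ AL i e ∨ v ∈ AU i e := by
    have hsub : AL i e ∪ AU i e ⊆ st i C := union_subset (AL_sub hC he) (AU_sub H hC he)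
    have heq : AL i e ∪ AU i e = st i C := by
      apply Finset.eq_of_subset_of_card_le hsub
      rw [card_union_of_disjoint hd]
      omega
    intro v hv
    rw [← heq, mem_union] at hv
    exact hv
  obtain ⟨v0, hv0⟩ := hne
  obtain ⟨x0, -, hx0⟩ := Finset.exists_max_image (univ : Finset P) e ⟨v0, mem_univ v0⟩
  set m := e x0 with hm
  have hmax : ∀ x, e x ≤ m := fun x => hx0 x (mem_univ x)
  have noFD : ∀ x, e x = m → ¬ FD e x := by
    rintro x hx ⟨z, _, hz⟩
    have := hmax z
    omega
  have noFU : ∀ x, e x = m → ¬ FU e x := by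
    rintro x hx ⟨z, _, hz⟩
    have := hmax z
    omega
  -- no site of `C` has the largest label
  have nosite : ∀ v, v ∈ C → lev v = i → e v ≠ m := by
    intro v hv hl hev
    rcases hall v (mem_st.2 ⟨hv, hl⟩) with h | h
    · rw [NormD_mem_AL] at h
      exact noFD v hev h.2
    · rw [NormD_mem_AU] at h
      exact noFU v hev h.2
  have hmpos : 0 < m := by
    rw [mem_st] at hv0
    have h1 := nosite v0 hv0.1 hv0.2
    have h2 := hmax v0
    omega
  have inC : ∀ x, e x = m → x ∈ C := by
    intro x hx
    by_contra h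
    rw [he x h] at hx
    omega
  -- lower elements
  have low : ∀ n, ∀ x, lev x = i + n → e x ≠ m := by
    intro n
    induction n with
    | zero => exact fun x hx hxm => nosite x (inC x hxm) hx hxm
    | succ n ih =>
      intro x hx hxm
      have h1 : ¬ (¬ FD e x ∧ ¬ GU e x) := by
        intro h
        have : 0 < pL i e := by
          unfold pL
          rw [Finset.card_pos]
          exact ⟨x, by rw [mem_filter]; exact ⟨mem_univ x, by omega, h.1, h.2⟩⟩
        omega
      have h2 : GU e x := by
        by_contra h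
        exact h1 ⟨noFD x hxm, h⟩
      obtain ⟨y, hy, hle⟩ := h2
      have h3 := lev_uc H (mem_uc.2 hy)
      have h4 := hmax y
      exact ih y (by omega) (by omega)
  have upp : ∀ n, ∀ x, lev x + n = i → e x ≠ m := by
    intro n
    induction n with
    | zero => exact fun x hx hxm => nosite x (inC x hxm) hx hxm
    | succ n ih =>
      intro x hx hxm
      have h1 : ¬ (¬ FU e x ∧ ¬ GD e x) := by
        intro h
        have : 0 < pU i e := by
          unfold pU
          rw [Finset.card_pos]
          exact ⟨x, by rw [mem_filter]; exact ⟨mem_univ x, by omega, h.1, h.2⟩⟩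
        omega
      have h2 : GD e x := by
        by_contra h
        exact h1 ⟨noFU x hxm, h⟩
      obtain ⟨y, hy, hle⟩ := h2
      have h3 := lev_dc H (mem_dc.2 hy)
      have h4 := hmax y
      exact ih y (by omega) (by omega)
  rcases Nat.le_total i (lev x0) with h | h
  · exact low (lev x0 - i) x0 (by omega) rfl
  · exact upp (i - lev x0) x0 (by omega) rfl

/-- every term of a part with a site has a factor `d` -/
theorem dd_dvd_tC (H : Gr P r) (hC : Part i C) (he : Spt C e)
    (hne : (st i C).Nonempty) : dd ∣ tC i C e := by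
  unfold tC cw
  split_ifs with h1 h2
  · have h3 := exp_pos H hC he hne h1
    have h4 : xx ^ aL i e * xi ^ (aU i e + pU i e) * dd ^ (pL i e + pU i e) *
        (xx ^ (AL i e).card * dd ^ ((st i C).card - (AL i e).card - (AU i e).card)) =
        dd ^ (pL i e + pU i e + ((st i C).card - (AL i e).card - (AU i e).card)) *
          (xx ^ aL i e * xi ^ (aU i e + pU i e) * xx ^ (AL i e).card) := by
      rw [pow_add dd (pL i e + pU i e)]
      ring
    rw [h4]
    exact Dvd.dvd.mul_right (dvd_pow_self dd (by omega)) _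
  · rw [zero_mul]; exact dvd_zero _
  · exact dvd_zero _

theorem dd_dvd_ZC (H : Gr P r) (hC : Part i C) (hne : (st i C).Nonempty) (n : ℕ) :
    dd ∣ ZC i C n := by
  unfold ZC
  exact Finset.dvd_sum fun e he => dd_dvd_tC H hC (spt_of_mem he) hne

end pole

section algebra

variable {b c eps : ℕ} {f g : PowerSeries A}

end algebra

end Pool.Agent.GaussPoset.Win

end

/-! From `Pool.Agent.W_448e_h97.EH` -/

section

/-! Case B: the unmatched elements of the window `j` (MP_448cb3_co). -/

namespace Pool.Agent.GaussPoset.EK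

set_option linter.unusedSectionVars false

open Finset Win St Polynomial Wd

universe u

variable {P : Type u} [Fintype P] [PartialOrder P] [DecidableEq P] {r i j : ℕ}

variable {ι : Type*} [DecidableEq ι] {κ : P → ι}

variable {K : Finset P} {psi : P → P}

lemma kap_of_cext {k : P} {a : ι} (hk : k ∈ dbL P i ∪ dbU P i) (h : k ∈ cext (i + 1) κ a) :
    κ k = a := by
  refine (mem_cext.1 h) k le_rfl ?_
  rcases mem_union.1 hk with h1 | h1
  · have := (mem_dbL.1 h1).1
    omega
  · have := (mem_dbU.1 h1).1
    omega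

end Pool.Agent.GaussPoset.EK

end
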