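import Mathlib
import Pool.Agent.W_448zz_h61.Ns
import Pool.Agent.W_448zz_h61.M002

/-! From `Pool.Agent.W_448fw_h5.FwA` -/

section

/-!
Window sums with frozen labels on a lower set and with lower bounds for the labels.
-/

namespace Pool.Agent.GaussPoset

set_option linter.unusedSectionVars false

open Polynomial Finset

universe u

variable {P : Type u} [Fintype P] [PartialOrder P] [DecidableEq P]

/-- constrained configurations: `e = g` on `D`, no element of `D` in the filter, and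
`rho ≥ β` off `D ∪ F` -/
def Cst (i : ℕ) (D : Finset P) (g β e : P → ℕ) (F : Finset P) : Prop :=
  Vd i e F ∧ (∀ x ∈ D, x ∉ F ∧ e x = g x) ∧ (∀ x, x ∉ D → x ∉ F → (β x : ℤ) ≤ rho i e x)

open Classical in
/-- constrained window sums -/
noncomputable def ZB (i : ℕ) (D : Finset P) (g β : P → ℕ) (n : ℕ) : ℤ[X] :=
  ∑ F : Finset P, ∑ _e ∈ ((univ : Finset P).piAntidiag n).filter (fun e => Cst i D g β e F),
    (X : ℤ[X]) ^ F.card

/-- the bounds produced by frozen labels -/
noncomputable def bg (D : Finset P) (g β : P → ℕ) (x : P) : ℕ := by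
  classical exact max (β x) ((D.filter (fun y => y ⋖ x)).sup g)

omit [Fintype P] [DecidableEq P] in
lemma le_bg (D : Finset P) (g β : P → ℕ) (x : P) : β x ≤ bg D g β x := le_max_left _ _

omit [Fintype P] [DecidableEq P] in
lemma le_bg' {D : Finset P} {g : P → ℕ} (β : P → ℕ) {x y : P} (hy : y ∈ D) (hxy : y ⋖ x) :
    g y ≤ bg D g β x := by
  classical
  refine le_trans ?_ (le_max_right _ _)
  exact Finset.le_sup (f := g) (mem_filter.mpr ⟨hy, hxy⟩)

omit [Fintype P] [DecidableEq P] in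
lemma bg_le {D : Finset P} {g β : P → ℕ} {x : P} {t : ℕ} (h1 : β x ≤ t)
    (h2 : ∀ y ∈ D, y ⋖ x → g y ≤ t) : bg D g β x ≤ t := by
  classical
  refine max_le h1 (Finset.sup_le fun y hy => ?_)
  rw [mem_filter] at hy
  exact h2 y hy.1 hy.2

omit [DecidableEq P] in
/-- a last element of a lower set below `x`, and the next element of a chain up to `x` -/
lemma exists_exit {D : Finset P} {x y : P} (hy : y ∈ D) (hx : x ∉ D) (hyx : y ≤ x) :
    ∃ y' x', y ≤ y' ∧ y' ∈ D ∧ y' ⋖ x' ∧ x' ∉ D ∧ x' ≤ x := by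
  classical
  let S : Finset P := univ.filter (fun z => z ∈ D ∧ y ≤ z ∧ z ≤ x)
  have hS : S.Nonempty := ⟨y, by simp [S, hy, hyx]⟩
  obtain ⟨z, hz⟩ := S.exists_maximal hS
  have hz1 : z ∈ D ∧ y ≤ z ∧ z ≤ x := by simpa [S] using hz.1
  have hne : z ≠ x := fun h => hx (h ▸ hz1.1)
  have hlt : z < x := lt_of_le_of_ne hz1.2.2 hne
  let T : Finset P := univ.filter (fun w => z < w ∧ w ≤ x)
  have hT : T.Nonempty := ⟨x, by simp [T, hlt]⟩
  obtain ⟨w, hw⟩ := T.exists_minimal hT
  have hw1 : z < w ∧ w ≤ x := by simpa [T] using hw.1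
  refine ⟨z, w, hz1.2.1, hz1.1, ⟨hw1.1, fun v hv1 hv2 => ?_⟩, ?_, hw1.2⟩
  · have hvT : v ∈ T := by simp [T, hv1, hv2.le.trans hw1.2]
    exact absurd (hw.2 hvT hv2.le) (not_le_of_gt hv2)
  · intro hwD
    have hwS : w ∈ S := by simp [S, hwD, hz1.2.1.trans hw1.1.le, hw1.2]
    exact absurd (hz.2 hwS hw1.1.le) (not_le_of_gt hw1.1)

omit [DecidableEq P] in
lemma rho_of_lt {i : ℕ} {e : P → ℕ} {x : P} (h : i < lev x) : rho i e x = e x := by
  unfold rho
  have : i - lev x = 0 := by omega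
  rw [this]; simp

section LemmaA

variable {i : ℕ} {D : Finset P} {g : P → ℕ} (β : P → ℕ)

lemma cst_iff (hD : ∀ x y, x ≤ y → y ∈ D → x ∈ D) (hlev : ∀ x ∈ D, i < lev x)
    (hg : ∀ x, x ∉ D → g x = 0) (hc : ∀ x ∈ D, ∀ y ∈ D, x ≤ y → g x ≤ g y)
    (e : P → ℕ) (F : Finset P) :
    Cst i D g β (fun x => e x + g x) F ↔ Cst i D 0 (bg D g β) e F := by
  have hr : ∀ x, rho i (fun x => e x + g x) x = rho i e x + g x := by
    intro x; unfold rho; push_cast; ring
  constructor
  · rintro ⟨⟨h1, h2, h3, h4⟩, h5, h6⟩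
    have he : ∀ x ∈ D, e x = 0 := fun x hx => by
      have := (h5 x hx).2
      simp only at this
      omega
    have hDF : ∀ x ∈ D, x ∉ F := fun x hx => (h5 x hx).1
    have hre : ∀ x ∈ D, rho i e x = 0 := fun x hx => by
      rw [rho_of_lt (hlev x hx), he x hx]; rfl
    have hoff : ∀ x, x ∉ D → x ∉ F → 0 ≤ rho i e x := by
      intro x hx hxF
      have := h2 x hxF
      rw [hr, hg x hx] at this
      simpa using this
    refine ⟨⟨h1, ?_, ?_, ?_⟩, ?_, ?_⟩
    · intro x hxF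
      by_cases hx : x ∈ D
      · rw [hre x hx]
      · exact hoff x hx hxF
    · intro x y hxy hxF hyF
      by_cases hx : x ∈ D
      · rw [hre x hx]
        by_cases hy : y ∈ D
        · rw [hre y hy]
        · exact hoff y hy hyF
      · have hy : y ∉ D := fun h => hx (hD x y hxy h)
        have := h3 x y hxy hxF hyF
        rw [hr, hr, hg x hx, hg y hy] at this
        simpa using this
    · intro x y hxy hxF hyF
      have := h4 x y hxy hxF hyF
      rw [hr, hr, hg x (fun h => hDF x h hxF), hg y (fun h => hDF y h hyF)] at this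
      simpa using this
    · intro x hx
      exact ⟨hDF x hx, by simpa using he x hx⟩
    · intro x hx hxF
      have h7 : (bg D g β x : ℤ) ≤ rho i e x := by
        have h8 : bg D g β x ≤ (rho i e x).toNat := by
          refine bg_le ?_ ?_
          · have := h6 x hx hxF
            rw [hr, hg x hx] at this
            have := hoff x hx hxF
            omega
          · intro y hy hyx
            have := h3 y x hyx.le (hDF y hy) hxF
            rw [hr, hr, hre y hy, hg x hx] at this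
            omega
        have := hoff x hx hxF
        omega
      exact h7
  · rintro ⟨⟨h1, h2, h3, h4⟩, h5, h6⟩
    have he : ∀ x ∈ D, e x = 0 := fun x hx => by simpa using (h5 x hx).2
    have hDF : ∀ x ∈ D, x ∉ F := fun x hx => (h5 x hx).1
    have hre : ∀ x ∈ D, rho i e x = 0 := fun x hx => by
      rw [rho_of_lt (hlev x hx), he x hx]; rfl
    refine ⟨⟨h1, ?_, ?_, ?_⟩, ?_, ?_⟩
    · intro x hxF
      rw [hr]
      have := h2 x hxF
      omega
    · intro x y hxy hxF hyF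
      rw [hr, hr]
      by_cases hx : x ∈ D
      · by_cases hy : y ∈ D
        · rw [hre x hx, hre y hy]
          have := hc x hx y hy hxy
          omega
        · rw [hre x hx, hg y hy]
          obtain ⟨y', x', h7, h8, h9, h10, h11⟩ := exists_exit hx hy hxy
          have hx'F : x' ∉ F := fun h => hyF (h1 x' y h11 h)
          have h12 := h3 x' y h11 hx'F hyF
          have h13 := h6 x' h10 hx'F
          have h14 := le_bg' (D := D) (g := g) β h8 h9
          have h15 := hc x hx y' h8 h7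
          have h16 : (g y' : ℤ) ≤ bg D g β x' := by exact_mod_cast h14
          have h17 : (g x : ℤ) ≤ g y' := by exact_mod_cast h15
          simp only [Nat.cast_zero, zero_add, add_zero]
          omega
      · have hy : y ∉ D := fun h => hx (hD x y hxy h)
        rw [hg x hx, hg y hy]
        have := h3 x y hxy hxF hyF
        simpa using this
    · intro x y hxy hxF hyF
      rw [hr, hr, hg x (fun h => hDF x h hxF), hg y (fun h => hDF y h hyF)]
      simpa using h4 x y hxy hxF hyF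
    · intro x hx
      refine ⟨hDF x hx, ?_⟩
      simp only [he x hx, zero_add]
    · intro x hx hxF
      rw [hr, hg x hx]
      have h7 := h6 x hx hxF
      have h8 : (β x : ℤ) ≤ bg D g β x := by exact_mod_cast le_bg D g β x
      simp only [Nat.cast_zero, add_zero]
      omega

lemma ZB_zero_of_not_compat (hlev : ∀ x ∈ D, i < lev x)
    (hc : ¬ ∀ x ∈ D, ∀ y ∈ D, x ≤ y → g x ≤ g y) (n : ℕ) : ZB i D g β n = 0 := by
  classical
  unfold ZB
  refine Finset.sum_eq_zero fun F _ => ?_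
  rw [Finset.filter_eq_empty_iff.mpr, Finset.sum_empty]
  intro e _ hC
  apply hc
  intro x hx y hy hxy
  have h1 := hC.1.2.2.1 x y hxy (hC.2.1 x hx).1 (hC.2.1 y hy).1
  rw [rho_of_lt (hlev x hx), rho_of_lt (hlev y hy), (hC.2.1 x hx).2, (hC.2.1 y hy).2] at h1
  exact_mod_cast h1

lemma ZB_zero_of_lt (n : ℕ) (hn : n < ∑ x ∈ D, g x) : ZB i D g β n = 0 := by
  classical
  unfold ZB
  refine Finset.sum_eq_zero fun F _ => ?_
  rw [Finset.filter_eq_empty_iff.mpr, Finset.sum_empty]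
  intro e he hC
  rw [mem_piAntidiag] at he
  have h1 : ∑ x ∈ D, g x ≤ ∑ x, e x := by
    rw [Finset.sum_congr rfl (fun x hx => ((hC.2.1 x hx).2).symm)]
    exact Finset.sum_le_sum_of_subset (subset_univ D)
  have h2 : ∑ x, e x = n := he.1
  omega

lemma ZB_shift (hD : ∀ x y, x ≤ y → y ∈ D → x ∈ D) (hlev : ∀ x ∈ D, i < lev x)
    (hg : ∀ x, x ∉ D → g x = 0) (hc : ∀ x ∈ D, ∀ y ∈ D, x ≤ y → g x ≤ g y) (n : ℕ) :
    ZB i D g β (n + ∑ x, g x) = ZB i D 0 (bg D g β) n := by
  classical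
  unfold ZB
  refine Finset.sum_congr rfl fun F _ => ?_
  symm
  refine Finset.sum_bij (fun e _ x => e x + g x) ?_ ?_ ?_ (fun _ _ => rfl)
  · intro e he
    rw [mem_filter, mem_piAntidiag] at he ⊢
    refine ⟨⟨?_, fun _ _ => mem_univ _⟩, (cst_iff β hD hlev hg hc e F).mpr he.2⟩
    have h1 : ∑ x, e x = n := he.1.1
    change ∑ x, (e x + g x) = _
    rw [Finset.sum_add_distrib, h1]
  · intro e _ e' _ h
    funext x
    have h3 : e x + g x = e' x + g x := congrFun h x
    omega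
  · intro e he
    rw [mem_filter, mem_piAntidiag] at he
    have hle : ∀ x, g x ≤ e x := by
      intro x
      by_cases hx : x ∈ D
      · exact ((he.2.2.1 x hx).2).ge
      · rw [hg x hx]; exact Nat.zero_le _
    have h2 : (fun x => (e x - g x) + g x) = e := by
      funext x
      have := hle x
      omega
    refine ⟨fun x => e x - g x, ?_, h2⟩
    rw [mem_filter, mem_piAntidiag]
    refine ⟨⟨?_, fun _ _ => mem_univ _⟩, ?_⟩
    · have h1 : ∑ x, e x = n + ∑ x, g x := he.1.1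
      have h3 : ∑ x, ((e x - g x) + g x) = ∑ x, e x :=
        Finset.sum_congr rfl fun x _ => congrFun h2 x
      rw [Finset.sum_add_distrib, h1] at h3
      change ∑ x, (e x - g x) = n
      omega
    · rw [← cst_iff β hD hlev hg hc, h2]
      exact he.2

/-- Lemma A in the form in which it is used -/
lemma dvd_ZB_shift (hD : ∀ x y, x ≤ y → y ∈ D → x ∈ D) (hlev : ∀ x ∈ D, i < lev x)
    (hg : ∀ x, x ∉ D → g x = 0) (p : ℤ[X]) (h : ∀ n, p ∣ ZB i D 0 (bg D g β) n) (n : ℕ) :
    p ∣ ZB i D g β n := by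
  by_cases hc : ∀ x ∈ D, ∀ y ∈ D, x ≤ y → g x ≤ g y
  · by_cases hn : n < ∑ x ∈ D, g x
    · rw [ZB_zero_of_lt β n hn]; exact dvd_zero p
    · have hs : ∑ x ∈ D, g x = ∑ x, g x :=
        Finset.sum_subset (subset_univ D) fun x _ hx => hg x hx
      obtain ⟨m, rfl⟩ : ∃ m, n = m + ∑ x, g x := ⟨n - ∑ x, g x, by omega⟩
      rw [ZB_shift β hD hlev hg hc]
      exact h m
  · rw [ZB_zero_of_not_compat β hlev hc]; exact dvd_zero p

end LemmaA

lemma ZB_congr {i : ℕ} {D : Finset P} {g g' β β' : P → ℕ} (hg : ∀ x ∈ D, g x = g' x)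
    (hb : ∀ x, x ∉ D → β x = β' x) (n : ℕ) : ZB i D g β n = ZB i D g' β' n := by
  classical
  unfold ZB
  refine Finset.sum_congr rfl fun F _ => ?_
  have h : ∀ e : P → ℕ, Cst i D g β e F ↔ Cst i D g' β' e F := by
    intro e
    unfold Cst
    refine and_congr Iff.rfl (and_congr ?_ ?_)
    · refine forall_congr' fun x => ⟨fun h hx => ?_, fun h hx => ?_⟩
      · rw [← hg x hx]; exact h hx
      · rw [hg x hx]; exact h hx
    · refine forall_congr' fun x => ⟨fun h hx => ?_, fun h hx => ?_⟩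
      · rw [← hb x hx]; exact h hx
      · rw [hb x hx]; exact h hx
  simp only [h]

end Pool.Agent.GaussPoset

end

/-! From `Pool.Agent.W_448fw_h5.FwB` -/

section

/-!
Bounded cleanness from unbounded cleanness.
-/

namespace Pool.Agent.GaussPoset

set_option linter.unusedSectionVars false

open Polynomial Finset

universe u

variable {P : Type u} [Fintype P] [PartialOrder P] [DecidableEq P]

open Classical in
/-- the principal lower set of `x` -/
noncomputable def dnf (x : P) : Finset P := univ.filter (fun y => y ≤ x)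

omit [DecidableEq P] in
lemma mem_dnf {x y : P} : y ∈ dnf x ↔ y ≤ x := by
  classical
  unfold dnf; simp

section LemmaB

variable {i : ℕ} {D : Finset P} {g : P → ℕ} (β : P → ℕ) (x0 : P)

/-- the part which is lost when the bound at `x0` is raised by one, with given labels below -/
def Fib (i : ℕ) (D : Finset P) (g β : P → ℕ) (x0 : P) (g' e : P → ℕ) (F : Finset P) : Prop :=
  Cst i D g β e F ∧ x0 ∉ F ∧ e x0 = β x0 ∧
    (∀ x, g' x = if x ∈ D ∪ dnf x0 then e x else 0)

lemma cst_update_iff (hx0 : x0 ∉ D) (hlx : i < lev x0) (e : P → ℕ) (F : Finset P) :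
    Cst i D g (Function.update β x0 (β x0 + 1)) e F ↔
      Cst i D g β e F ∧ ¬ (x0 ∉ F ∧ e x0 = β x0) := by
  have hr : rho i e x0 = e x0 := rho_of_lt hlx
  constructor
  · rintro ⟨h1, h2, h3⟩
    refine ⟨⟨h1, h2, ?_⟩, ?_⟩
    · intro x hx hxF
      have h4 := h3 x hx hxF
      by_cases hxx : x = x0
      · subst hxx
        rw [Function.update_self] at h4
        push_cast at h4
        omega
      · rwa [Function.update_of_ne hxx] at h4
    · rintro ⟨h4, h5⟩
      have h6 := h3 x0 hx0 h4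
      rw [Function.update_self, hr, h5] at h6
      push_cast at h6
      omega
  · rintro ⟨⟨h1, h2, h3⟩, h4⟩
    refine ⟨h1, h2, ?_⟩
    intro x hx hxF
    have h5 := h3 x hx hxF
    by_cases hxx : x = x0
    · subst hxx
      rw [Function.update_self]
      rw [hr] at h5 ⊢
      have h6 : e x ≠ β x := fun h => h4 ⟨hxF, h⟩
      push_cast
      omega
    · rwa [Function.update_of_ne hxx]

/-- the labels below `x0` which occur -/
def Gd (D : Finset P) (g β : P → ℕ) (x0 : P) (g' : P → ℕ) : Prop :=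
  (∀ x ∈ D, g' x = g x) ∧ g' x0 = β x0 ∧ (∀ x ≤ x0, g' x ≤ β x0) ∧
    (∀ x ≤ x0, x ∉ D → β x ≤ g' x) ∧ (∀ x, x ∉ D ∪ dnf x0 → g' x = 0)

lemma fib_iff
    (hlx : i < lev x0) (g' e : P → ℕ) (F : Finset P) :
    Fib i D g β x0 g' e F ↔ Gd D g β x0 g' ∧ Cst i (D ∪ dnf x0) g' β e F := by
  have hlx' : ∀ x ≤ x0, i < lev x := by
    intro x hx
    rcases eq_or_lt_of_le hx with h | h
    · rw [h]; exact hlx
    · have := lev_strictAnti h; omega
  constructor
  · rintro ⟨⟨h1, h2, h3⟩, h4, h5, h6⟩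
    have h7 : ∀ x ∈ D ∪ dnf x0, g' x = e x := fun x hx => by rw [h6 x, if_pos hx]
    have hx0F : ∀ x ≤ x0, x ∉ F := fun x hx hxF => h4 (h1.1 x x0 hx hxF)
    have hm : ∀ x ≤ x0, x ∈ D ∪ dnf x0 := fun x hx => mem_union_right _ (mem_dnf.mpr hx)
    refine ⟨⟨?_, ?_, ?_, ?_, ?_⟩, h1, ?_, ?_⟩
    · intro x hx
      rw [h7 x (mem_union_left _ hx)]
      exact (h2 x hx).2
    · rw [h7 x0 (hm x0 le_rfl), h5]
    · intro x hx
      rw [h7 x (hm x hx), ← h5]
      have h8 := h1.2.2.1 x x0 hx (hx0F x hx) h4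
      rw [rho_of_lt hlx, rho_of_lt (hlx' x hx)] at h8
      exact_mod_cast h8
    · intro x hx hxD
      rw [h7 x (hm x hx)]
      have h8 := h3 x hxD (hx0F x hx)
      rw [rho_of_lt (hlx' x hx)] at h8
      exact_mod_cast h8
    · intro x hx
      rw [h6 x, if_neg hx]
    · intro x hx
      refine ⟨?_, (h7 x hx).symm⟩
      rcases mem_union.mp hx with h | h
      · exact (h2 x h).1
      · exact hx0F x (mem_dnf.mp h)
    · intro x hx hxF
      exact h3 x (fun h => hx (mem_union_left _ h)) hxF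
  · rintro ⟨⟨g1, g2, g3, g4, g5⟩, h1, h2, h3⟩
    have hm : ∀ x ≤ x0, x ∈ D ∪ dnf x0 := fun x hx => mem_union_right _ (mem_dnf.mpr hx)
    refine ⟨⟨h1, ?_, ?_⟩, ?_, ?_, ?_⟩
    · intro x hx
      have h4 := h2 x (mem_union_left _ hx)
      exact ⟨h4.1, h4.2.trans (g1 x hx)⟩
    · intro x hx hxF
      by_cases hxx : x ≤ x0
      · rw [rho_of_lt (hlx' x hxx), (h2 x (hm x hxx)).2]
        exact_mod_cast g4 x hxx hx
      · refine h3 x ?_ hxF
        rw [mem_union, mem_dnf]
        rintro (h | h)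
        · exact hx h
        · exact hxx h
    · exact (h2 x0 (hm x0 le_rfl)).1
    · rw [(h2 x0 (hm x0 le_rfl)).2, g2]
    · intro x
      by_cases hx : x ∈ D ∪ dnf x0
      · rw [if_pos hx]; exact ((h2 x hx).2).symm
      · rw [if_neg hx]; exact g5 x hx

/-- Lemma B in the form in which it is used -/
lemma dvd_ZB_step (hx0 : x0 ∉ D) (hlx : i < lev x0) (p : ℤ[X]) (h1 : ∀ n, p ∣ ZB i D g β n)
    (h2 : ∀ g', Gd D g β x0 g' → ∀ n, p ∣ ZB i (D ∪ dnf x0) g' β n) (n : ℕ) :
    p ∣ ZB i D g (Function.update β x0 (β x0 + 1)) n := by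
  classical
  let Gs : Finset (P → ℕ) := Fintype.piFinset (fun _ => range (n + 1))
  have key : ZB i D g β n = ZB i D g (Function.update β x0 (β x0 + 1)) n +
      ∑ g' ∈ Gs, if Gd D g β x0 g' then ZB i (D ∪ dnf x0) g' β n else 0 := by
    have h3 : ∀ g' ∈ Gs, (if Gd D g β x0 g' then ZB i (D ∪ dnf x0) g' β n else 0) =
        ∑ F : Finset P, ∑ _e ∈ ((univ : Finset P).piAntidiag n).filter
          (fun e => Fib i D g β x0 g' e F), (X : ℤ[X]) ^ F.card := by
      intro g' _
      by_cases hG : Gd D g β x0 g'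
      · rw [if_pos hG]
        unfold ZB
        refine Finset.sum_congr rfl fun F _ => ?_
        have : ∀ e : P → ℕ, Fib i D g β x0 g' e F ↔ Cst i (D ∪ dnf x0) g' β e F := by
          intro e
          rw [fib_iff β x0 hlx]
          exact ⟨fun h => h.2, fun h => ⟨hG, h⟩⟩
        simp only [this]
      · rw [if_neg hG]
        symm
        refine Finset.sum_eq_zero fun F _ => ?_
        rw [Finset.filter_eq_empty_iff.mpr, Finset.sum_empty]
        intro e _ hC
        rw [fib_iff β x0 hlx] at hC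
        exact hG hC.1
    rw [Finset.sum_congr rfl h3, Finset.sum_comm]
    unfold ZB
    rw [← Finset.sum_add_distrib]
    refine Finset.sum_congr rfl fun F _ => ?_
    have h4 : ∑ g' ∈ Gs, ∑ _e ∈ ((univ : Finset P).piAntidiag n).filter
          (fun e => Fib i D g β x0 g' e F), (X : ℤ[X]) ^ F.card =
        ∑ _e ∈ ((univ : Finset P).piAntidiag n).filter
          (fun e => Cst i D g β e F ∧ (x0 ∉ F ∧ e x0 = β x0)), (X : ℤ[X]) ^ F.card := by
      have hmaps : ∀ e ∈ ((univ : Finset P).piAntidiag n).filter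
          (fun e => Cst i D g β e F ∧ (x0 ∉ F ∧ e x0 = β x0)),
          (fun x => if x ∈ D ∪ dnf x0 then e x else 0) ∈ Gs := by
        intro e he
        rw [mem_filter, mem_piAntidiag] at he
        rw [Fintype.mem_piFinset]
        intro x
        rw [mem_range]
        have h5 : e x ≤ ∑ y, e y := Finset.single_le_sum (fun y _ => Nat.zero_le _) (mem_univ x)
        have h6 : ∑ y, e y = n := he.1.1
        split_ifs <;> omega
      refine Eq.trans ?_ (Finset.sum_fiberwise_of_maps_to hmaps (fun _ => (X : ℤ[X]) ^ F.card))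
      refine Finset.sum_congr rfl fun g' _ => ?_
      refine Finset.sum_congr ?_ (fun _ _ => rfl)
      ext e
      simp only [mem_filter, Fib]
      constructor
      · rintro ⟨h5, h6, h7, h8, h9⟩
        exact ⟨⟨h5, h6, h7, h8⟩, funext fun x => (h9 x).symm⟩
      · rintro ⟨⟨h5, h6, h7, h8⟩, h9⟩
        exact ⟨h5, h6, h7, h8, fun x => (congrFun h9 x).symm⟩
    rw [h4]
    have h5 : ((univ : Finset P).piAntidiag n).filter
        (fun e => Cst i D g (Function.update β x0 (β x0 + 1)) e F) =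
        ((univ : Finset P).piAntidiag n).filter
        (fun e => Cst i D g β e F ∧ ¬ (x0 ∉ F ∧ e x0 = β x0)) := by
      refine Finset.filter_congr fun e _ => ?_
      rw [cst_update_iff β x0 hx0 hlx]
    rw [h5, ← Finset.filter_filter, ← Finset.filter_filter]
    have h6 := Finset.sum_filter_add_sum_filter_not
      (((univ : Finset P).piAntidiag n).filter (fun e => Cst i D g β e F))
      (fun e : P → ℕ => (x0 ∉ F ∧ e x0 = β x0)) (fun _ => (X : ℤ[X]) ^ F.card)
    rw [← h6, add_comm]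
  have h7 : ZB i D g (Function.update β x0 (β x0 + 1)) n = ZB i D g β n -
      ∑ g' ∈ Gs, if Gd D g β x0 g' then ZB i (D ∪ dnf x0) g' β n else 0 := by
    rw [key]; ring
  rw [h7]
  refine dvd_sub (h1 n) (Finset.dvd_sum fun g' _ => ?_)
  split_ifs with hG
  · exact h2 g' hG n
  · exact dvd_zero p

end LemmaB

/-- bounded cleanness from unbounded cleanness -/
theorem dvd_ZB_bounds (i : ℕ) (p : ℤ[X]) (DD : Set (Finset P)) (θ : P → ℕ)
    (hlow : ∀ D ∈ DD, ∀ x y, x ≤ y → y ∈ D → x ∈ D) (hlev : ∀ D ∈ DD, ∀ x ∈ D, i < lev x)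
    (hθ : ∀ x, 1 ≤ θ x → i < lev x) (c0 : ∀ D ∈ DD, ∀ n, p ∣ ZB i D 0 0 n)
    (c1 : ∀ D ∈ DD, ∀ x, x ∉ D → 1 ≤ θ x → D ∪ dnf x ∈ DD)
    (c2 : ∀ D ∈ DD, ∀ x, x ∉ D → 1 ≤ θ x → ∀ y ≤ x, y ∉ D → ∀ x', y ⋖ x' → ¬ x' ≤ x →
      θ x ≤ θ x' + 1) :
    ∀ D ∈ DD, ∀ β : P → ℕ, (∀ x, x ∉ D → β x ≤ θ x) → ∀ n, p ∣ ZB i D 0 β n := by
  classical
  have outer : ∀ N : ℕ, ∀ D ∈ DD, (Dᶜ).card = N → ∀ β : P → ℕ, (∀ x, x ∉ D → β x ≤ θ x) →
      ∀ n, p ∣ ZB i D 0 β n := by
    intro N
    induction N using Nat.strong_induction_on with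
    | _ N ihN =>
    intro D hDD hN
    have inner : ∀ s : ℕ, ∀ β : P → ℕ, (∑ x ∈ Dᶜ, β x = s) → (∀ x, x ∉ D → β x ≤ θ x) →
        ∀ n, p ∣ ZB i D 0 β n := by
      intro s
      induction s with
      | zero =>
        intro β hβ _ n
        have h0 : ∀ x, x ∉ D → β x = 0 := by
          intro x hx
          rw [Finset.sum_eq_zero_iff] at hβ
          exact hβ x (by simpa using hx)
        rw [ZB_congr (g' := 0) (β' := 0) (fun _ _ => rfl) (fun x hx => by simpa using h0 x hx)]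
        exact c0 D hDD n
      | succ s ihs =>
        intro β hβ hbd n
        obtain ⟨x0, hx0, hx0b⟩ : ∃ x0, x0 ∉ D ∧ 1 ≤ β x0 := by
          by_contra hcon
          push Not at hcon
          have : ∑ x ∈ Dᶜ, β x = 0 := Finset.sum_eq_zero fun x hx => by
            have := hcon x (by simpa using hx)
            omega
          omega
        let β' : P → ℕ := Function.update β x0 (β x0 - 1)
        have hβ'x : β' x0 = β x0 - 1 := Function.update_self _ _ _
        have hβ'n : ∀ x, x ≠ x0 → β' x = β x := fun x hx => Function.update_of_ne hx _ _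
        have hββ : β = Function.update β' x0 (β' x0 + 1) := by
          funext x
          by_cases hx : x = x0
          · subst hx
            rw [Function.update_self, hβ'x]; omega
          · rw [Function.update_of_ne hx, hβ'n x hx]
        have hle : ∀ x, β' x ≤ β x := by
          intro x
          by_cases hx : x = x0
          · subst hx; rw [hβ'x]; omega
          · rw [hβ'n x hx]
        have hθx0 : 1 ≤ θ x0 := hx0b.trans (hbd x0 hx0)
        have hsum : ∑ x ∈ Dᶜ, β' x = s := by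
          have h1 : ∑ x ∈ Dᶜ, β x = ∑ x ∈ Dᶜ, β' x + 1 := by
            rw [← Finset.add_sum_erase Dᶜ β (by simpa using hx0 : x0 ∈ Dᶜ),
              ← Finset.add_sum_erase Dᶜ β' (by simpa using hx0 : x0 ∈ Dᶜ), hβ'x]
            have h2 : ∑ x ∈ Dᶜ.erase x0, β x = ∑ x ∈ Dᶜ.erase x0, β' x :=
              Finset.sum_congr rfl fun x hx => (hβ'n x (ne_of_mem_erase hx)).symm
            omega
          omega
        rw [hββ]
        refine dvd_ZB_step β' x0 hx0 (hθ x0 hθx0) p
          (fun n => ihs β' hsum (fun x hx => (hle x).trans (hbd x hx)) n) ?_ n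
        intro g' hG n
        obtain ⟨g1, g2, g3, g4, g5⟩ := hG
        have hD' := c1 D hDD x0 hx0 hθx0
        refine dvd_ZB_shift β' (hlow _ hD') (hlev _ hD') g5 p (fun n => ?_) n
        refine ihN _ ?_ _ hD' rfl _ ?_ n
        · rw [← hN]
          apply Finset.card_lt_card
          rw [Finset.compl_ssubset_compl]
          rw [Finset.ssubset_iff_of_subset subset_union_left]
          exact ⟨x0, mem_union_right _ (mem_dnf.mpr le_rfl), hx0⟩
        · intro x hx
          rw [mem_union, mem_dnf, not_or] at hx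
          refine bg_le ((hle x).trans (hbd x hx.1)) ?_
          intro y hy hyx
          by_cases hyD : y ∈ D
          · rw [g1 y hyD]; exact Nat.zero_le _
          · have hyx0 : y ≤ x0 := by
              rcases mem_union.mp hy with h | h
              · exact absurd h hyD
              · exact mem_dnf.mp h
            have h1 := g3 y hyx0
            rw [hβ'x] at h1
            have h2 := c2 D hDD x0 hx0 hθx0 y hyx0 hyD x hyx hx.2
            have h3 := hbd x0 hx0
            omega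
    intro β hbd n
    exact inner _ β rfl hbd n
  intro D hDD β hbd n
  exact outer _ D hDD rfl β hbd n

/-- the same with frozen labels on `D` -/
theorem dvd_ZB_labels (i : ℕ) (p : ℤ[X]) (DD : Set (Finset P)) (θ : P → ℕ)
    (hlow : ∀ D ∈ DD, ∀ x y, x ≤ y → y ∈ D → x ∈ D) (hlev : ∀ D ∈ DD, ∀ x ∈ D, i < lev x)
    (hθ : ∀ x, 1 ≤ θ x → i < lev x) (c0 : ∀ D ∈ DD, ∀ n, p ∣ ZB i D 0 0 n)
    (c1 : ∀ D ∈ DD, ∀ x, x ∉ D → 1 ≤ θ x → D ∪ dnf x ∈ DD)
    (c2 : ∀ D ∈ DD, ∀ x, x ∉ D → 1 ≤ θ x → ∀ y ≤ x, y ∉ D → ∀ x', y ⋖ x' → ¬ x' ≤ x →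
      θ x ≤ θ x' + 1) {D : Finset P} (hD : D ∈ DD) (g : P → ℕ) (hg0 : ∀ x, x ∉ D → g x = 0)
    (hg : ∀ y ∈ D, ∀ x, x ∉ D → y ⋖ x → g y ≤ θ x) (n : ℕ) : p ∣ ZB i D g 0 n := by
  refine dvd_ZB_shift 0 (hlow D hD) (hlev D hD) hg0 p (fun n => ?_) n
  refine dvd_ZB_bounds i p DD θ hlow hlev hθ c0 c1 c2 D hD _ ?_ n
  intro x hx
  exact bg_le (Nat.zero_le _) fun y hy hyx => hg y hy x hx hyx

end Pool.Agent.GaussPoset

end

/-! From `Pool.Agent.W_448fw_h5.FwC` -/

section

/-!
The far window theorem: lower bound for the poles and exact leading term.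
-/

namespace Pool.Agent.GaussPoset

set_option linter.unusedSectionVars false

open Polynomial Finset

universe u

variable {P : Type u} [Fintype P] [PartialOrder P] [DecidableEq P]

open Classical in
/-- the elements of `R` which have an upper cover outside `R` -/
noncomputable def bdR (R : Finset P) : Finset P := R.filter (fun z => ∃ x, x ∉ R ∧ z ⋖ x)

open Classical in
/-- the cheapest excess function in which `z` is dangerous -/
noncomputable def ez (i : ℕ) (h : P → ℕ) (z x : P) : ℕ := if z ≤ x then min (h z) (lev x - i) else 0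

/-- cost of `z` at window `i` -/
noncomputable def cst (i : ℕ) (h : P → ℕ) (z : P) : ℕ := ∑ x, ez i h z x

/-- dangerous elements -/
def Dgz (h e : P → ℕ) (F : Finset P) (z : P) : Prop := z ∈ F ∨ h z ≤ e z

lemma sub_le_of_mem {i : ℕ} {e : P → ℕ} {F : Finset P} (hV : Vd i e F) {x : P} (hx : x ∈ F) :
    lev x - i ≤ e x := by
  have h1 := conf_toL hV
  have h2 := lev_le_of_upper h1.1 h1.2.2 x hx
  have h3 := toL_add hV x
  rw [if_pos hx] at h3
  omega

lemma rho_le (i : ℕ) (e : P → ℕ) (x : P) : rho i e x ≤ e x := by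
  unfold rho; omega

/-- a dangerous element costs -/
lemma ez_le {i : ℕ} {h e : P → ℕ} {F : Finset P} (hV : Vd i e F) {z : P} (hz : i < lev z)
    (hd : Dgz h e F z) (x : P) : ez i h z x ≤ e x := by
  classical
  unfold ez
  split_ifs with hzx
  · by_cases hx : x ∈ F
    · exact (min_le_right _ _).trans (sub_le_of_mem hV hx)
    · refine (min_le_left _ _).trans ?_
      have hzF : z ∉ F := fun h' => hx (hV.1 z x hzx h')
      have h1 : h z ≤ e z := hd.resolve_left hzF
      have h2 := hV.2.2.1 z x hzx hzF hx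
      rw [rho_of_lt hz] at h2
      have h3 := rho_le i e x
      omega
  · exact Nat.zero_le _

section Split

variable (i : ℕ) (R : Finset P) (h : P → ℕ)

open Classical in
/-- the part of the window sum without dangerous elements -/
noncomputable def ND (n : ℕ) : ℤ[X] :=
  ∑ F : Finset P, ∑ _e ∈ ((univ : Finset P).piAntidiag n).filter
    (fun e => Vd i e F ∧ ∀ z ∈ bdR R, ¬ Dgz h e F z), (X : ℤ[X]) ^ F.card

open Classical in
/-- the part of the window sum with dangerous elements -/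
noncomputable def DG (n : ℕ) : ℤ[X] :=
  ∑ F : Finset P, ∑ _e ∈ ((univ : Finset P).piAntidiag n).filter
    (fun e => Vd i e F ∧ ∃ z ∈ bdR R, Dgz h e F z), (X : ℤ[X]) ^ F.card

lemma Z_eq_sum (n : ℕ) : Z P i n = ∑ e ∈ (univ : Finset P).piAntidiag n, ∑ F : Finset P,
    (by classical exact if Vd i e F then (X : ℤ[X]) ^ F.card else 0) := by
  classical
  unfold Z
  refine Finset.sum_congr rfl fun e _ => ?_
  rw [← sum_vd]

lemma Z_split (n : ℕ) : Z P i n = ND i R h n + DG i R h n := by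
  classical
  rw [Z_eq_sum, Finset.sum_comm]
  unfold ND DG
  rw [← Finset.sum_add_distrib]
  refine Finset.sum_congr rfl fun F _ => ?_
  rw [← Finset.sum_filter]
  have h1 : ((univ : Finset P).piAntidiag n).filter
      (fun e => Vd i e F ∧ ∀ z ∈ bdR R, ¬ Dgz h e F z) =
      (((univ : Finset P).piAntidiag n).filter (fun e => Vd i e F)).filter
        (fun e => ¬ ∃ z ∈ bdR R, Dgz h e F z) := by
    rw [Finset.filter_filter]
    refine Finset.filter_congr fun e _ => ?_
    push Not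
    rfl
  have h2 : ((univ : Finset P).piAntidiag n).filter
      (fun e => Vd i e F ∧ ∃ z ∈ bdR R, Dgz h e F z) =
      (((univ : Finset P).piAntidiag n).filter (fun e => Vd i e F)).filter
        (fun e => ∃ z ∈ bdR R, Dgz h e F z) := by
    rw [Finset.filter_filter]
  rw [h1, h2, add_comm]
  exact (Finset.sum_filter_add_sum_filter_not _ _ _).symm

variable {i R h}

/-- without dangerous elements the filter does not meet `R` -/
lemma not_mem_of_not_dg {e : P → ℕ} {F : Finset P} (hlev : ∀ x ∈ R, i < lev x)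
    (hV : Vd i e F) (hnd : ∀ z ∈ bdR R, ¬ Dgz h e F z) : ∀ x ∈ R, x ∉ F := by
  classical
  by_contra hcon
  push Not at hcon
  obtain ⟨x, hxR, hxF⟩ := hcon
  have hne : (R ∩ F).Nonempty := ⟨x, mem_inter.mpr ⟨hxR, hxF⟩⟩
  obtain ⟨z, hz⟩ := (R ∩ F).exists_maximal hne
  have hz1 := mem_inter.mp hz.1
  have hlz := hlev z hz1.1
  obtain ⟨y, hy, -⟩ := exists_lev_succ (x := z) (k := lev z - 1) (by omega)
  let T : Finset P := univ.filter (fun w => z < w)
  obtain ⟨w, hw⟩ := T.exists_minimal ⟨y, by simp [T, hy]⟩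
  have hw1 : z < w := by simpa [T] using hw.1
  have hcov : z ⋖ w := ⟨hw1, fun v hv1 hv2 => by
    have hvT : v ∈ T := by simp [T, hv1]
    exact absurd (hw.2 hvT hv2.le) (not_le_of_gt hv2)⟩
  have hwF : w ∈ F := hV.1 z w hw1.le hz1.2
  have hwR : w ∉ R := by
    intro hwR
    exact absurd (hz.2 (mem_inter.mpr ⟨hwR, hwF⟩) hw1.le) (not_le_of_gt hw1)
  exact hnd z (mem_filter.mpr ⟨hz1.1, w, hwR, hcov⟩) (Or.inl hz1.2)

/-- the part without dangerous elements is a sum over frozen labels -/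
lemma dvd_ND (hlev : ∀ x ∈ R, i < lev x) (p : ℤ[X]) (n : ℕ)
    (hcl : ∀ g : P → ℕ, (∀ x, x ∉ R → g x = 0) → (∀ z ∈ bdR R, g z < h z) → p ∣ ZB i R g 0 n) :
    p ∣ ND i R h n := by
  classical
  let Gs : Finset (P → ℕ) := Fintype.piFinset (fun _ => range (n + 1))
  let Gg : (P → ℕ) → Prop := fun g => (∀ x, x ∉ R → g x = 0) ∧ ∀ z ∈ bdR R, g z < h z
  have key : ND i R h n = ∑ g ∈ Gs, if Gg g then ZB i R g 0 n else 0 := by
    have h1 : ∀ g ∈ Gs, (if Gg g then ZB i R g 0 n else 0) = ∑ F : Finset P,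
        ∑ _e ∈ ((univ : Finset P).piAntidiag n).filter (fun e => Gg g ∧ Cst i R g 0 e F),
          (X : ℤ[X]) ^ F.card := by
      intro g _
      split_ifs with hg
      · unfold ZB
        refine Finset.sum_congr rfl fun F _ => ?_
        refine Finset.sum_congr (Finset.filter_congr fun e _ => ?_) (fun _ _ => rfl)
        exact ⟨fun h => ⟨hg, h⟩, fun h => h.2⟩
      · symm
        refine Finset.sum_eq_zero fun F _ => ?_
        rw [Finset.filter_eq_empty_iff.mpr (fun e _ h => hg h.1), Finset.sum_empty]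
    rw [Finset.sum_congr rfl h1, Finset.sum_comm]
    unfold ND
    refine Finset.sum_congr rfl fun F _ => ?_
    have hmaps : ∀ e ∈ ((univ : Finset P).piAntidiag n).filter
        (fun e => Vd i e F ∧ ∀ z ∈ bdR R, ¬ Dgz h e F z),
        (fun x => if x ∈ R then e x else 0) ∈ Gs := by
      intro e he
      rw [mem_filter, mem_piAntidiag] at he
      rw [Fintype.mem_piFinset]
      intro x
      rw [mem_range]
      have h5 : e x ≤ ∑ y, e y := Finset.single_le_sum (fun y _ => Nat.zero_le _) (mem_univ x)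
      have h6 : ∑ y, e y = n := he.1.1
      split_ifs <;> omega
    refine Eq.trans (Finset.sum_fiberwise_of_maps_to hmaps (fun _ => (X : ℤ[X]) ^ F.card)).symm ?_
    refine Finset.sum_congr rfl fun g _ => ?_
    refine Finset.sum_congr ?_ (fun _ _ => rfl)
    ext e
    simp only [mem_filter]
    constructor
    · rintro ⟨⟨h5, h6, h7⟩, h8⟩
      have hRF := not_mem_of_not_dg hlev h6 h7
      have h9 : ∀ x, g x = if x ∈ R then e x else 0 := fun x => (congrFun h8 x).symm
      refine ⟨h5, ⟨?_, ?_⟩, h6, ?_, ?_⟩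
      · intro x hx
        rw [h9 x, if_neg hx]
      · intro z hz
        have hzR : z ∈ R := (mem_filter.mp hz).1
        rw [h9 z, if_pos hzR]
        by_contra hcon
        exact h7 z hz (Or.inr (not_lt.mp hcon))
      · intro x hx
        exact ⟨hRF x hx, by rw [h9 x, if_pos hx]⟩
      · intro x _ hxF
        simpa using h6.2.1 x hxF
    · rintro ⟨h5, ⟨h6, h7⟩, h8, h9, -⟩
      refine ⟨⟨h5, h8, ?_⟩, ?_⟩
      · intro z hz hd
        have hzR : z ∈ R := (mem_filter.mp hz).1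
        rcases hd with hd | hd
        · exact (h9 z hzR).1 hd
        · rw [(h9 z hzR).2] at hd
          exact absurd (h7 z hz) (not_lt.mpr hd)
      · funext x
        split_ifs with hx
        · exact (h9 x hx).2
        · exact (h6 x hx).symm
  rw [key]
  refine Finset.dvd_sum fun g _ => ?_
  split_ifs with hg
  · exact hcl g hg.1 hg.2
  · exact dvd_zero p

lemma DG_eq_zero {n : ℕ} (hlev : ∀ x ∈ R, i < lev x) (hn : ∀ z ∈ bdR R, n < cst i h z) :
    DG i R h n = 0 := by
  classical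
  unfold DG
  refine Finset.sum_eq_zero fun F _ => ?_
  rw [Finset.filter_eq_empty_iff.mpr, Finset.sum_empty]
  rintro e he ⟨hV, z, hz, hd⟩
  rw [mem_piAntidiag] at he
  have h1 : cst i h z ≤ ∑ x, e x :=
    Finset.sum_le_sum fun x _ => ez_le hV (hlev z (mem_filter.mp hz).1) hd x
  have h2 : ∑ x, e x = n := he.1
  have := hn z hz
  omega

lemma ez_self {z : P} (h2 : h z ≤ lev z - i) : ez i h z z = h z := by
  unfold ez
  rw [if_pos le_rfl]
  exact min_eq_left h2

lemma ez_inj {z z' : P} (h1 : 1 ≤ h z) (h2 : h z ≤ lev z - i) (h1' : 1 ≤ h z')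
    (h2' : h z' ≤ lev z' - i) (he : ez i h z = ez i h z') : z = z' := by
  have h3 : z' ≤ z := by
    by_contra hcon
    have := congrFun he z
    rw [ez_self h2] at this
    unfold ez at this
    rw [if_neg hcon] at this
    omega
  have h4 : z ≤ z' := by
    by_contra hcon
    have := congrFun he z'
    rw [ez_self h2'] at this
    unfold ez at this
    rw [if_neg hcon] at this
    omega
  exact le_antisymm h4 h3

lemma DG_eq {n : ℕ} (hlev : ∀ x ∈ R, i < lev x) (h1 : ∀ z ∈ bdR R, 1 ≤ h z)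
    (h2 : ∀ z ∈ bdR R, h z ≤ lev z - i) (hn : ∀ z ∈ bdR R, n ≤ cst i h z) :
    DG i R h n = ∑ z ∈ (bdR R).filter (fun z => cst i h z = n),
      (by classical exact if Adm i (ez i h z) then
        (X : ℤ[X]) ^ (nf i (ez i h z)) * (1 + X) ^ (Pk i (ez i h z)).card else 0) := by
  classical
  have h3 : ∀ z ∈ (bdR R).filter (fun z => cst i h z = n), (if Adm i (ez i h z) then
        (X : ℤ[X]) ^ (nf i (ez i h z)) * (1 + X) ^ (Pk i (ez i h z)).card else 0) =
        ∑ F : Finset P, if Vd i (ez i h z) F then (X : ℤ[X]) ^ F.card else 0 := by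
    intro z _
    rw [sum_vd]
  rw [Finset.sum_congr rfl h3, Finset.sum_comm]
  unfold DG
  refine Finset.sum_congr rfl fun F _ => ?_
  rw [← Finset.sum_filter]
  symm
  refine Finset.sum_bij (fun z _ => ez i h z) ?_ ?_ ?_ (fun _ _ => rfl)
  · intro z hz
    rw [mem_filter, mem_filter] at hz
    rw [mem_filter, mem_piAntidiag]
    refine ⟨⟨hz.1.2, fun _ _ => mem_univ _⟩, hz.2, z, hz.1.1, Or.inr ?_⟩
    exact (ez_self (h2 z hz.1.1)).ge
  · intro z hz z' hz' he
    rw [mem_filter, mem_filter] at hz hz'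
    exact ez_inj (h1 z hz.1.1) (h2 z hz.1.1) (h1 z' hz'.1.1) (h2 z' hz'.1.1) he
  · intro e he
    rw [mem_filter, mem_piAntidiag] at he
    obtain ⟨⟨he1, -⟩, hV, z, hz, hd⟩ := he
    have h4 : ∀ x, ez i h z x ≤ e x := ez_le hV (hlev z (mem_filter.mp hz).1) hd
    have h5 : ∑ x, e x = n := he1
    have h6 : cst i h z ≤ n := by
      rw [← h5]; exact Finset.sum_le_sum fun x _ => h4 x
    have h7 : cst i h z = n := le_antisymm h6 (hn z hz)
    have h8 : ez i h z = e := by
      funext x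
      have h9 : ∑ x, ez i h z x = ∑ x, e x := by
        rw [h5]; exact h7
      exact (Finset.sum_eq_sum_iff_of_le (fun x _ => h4 x)).mp h9 x (mem_univ x)
    refine ⟨z, ?_, h8⟩
    rw [mem_filter, mem_filter]
    refine ⟨⟨hz, h7⟩, ?_⟩
    rw [h8]; exact hV

end Split

end Pool.Agent.GaussPoset

end

/-! From `Pool.Agent.W_448fw_h5.FwD` -/

section

/-!
Cleanness of the unconstrained sums: passage to subtypes, disjoint unions, peaks.
-/

namespace Pool.Agent.GaussPoset

set_option linter.unusedSectionVars false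

open Polynomial Finset

universe u

section Sub

variable {P : Type u} [Fintype P] [PartialOrder P] [DecidableEq P]

/-- on an upper set the levels are the levels of the whole poset -/
lemma lev_subtype {p : P → Prop} [DecidablePred p] (hp : ∀ x y, x ≤ y → p x → p y)
    (x : {x : P // p x}) : lev x = lev (x : P) := by
  classical
  apply le_antisymm
  · obtain ⟨f, hf, hfx⟩ := Nat.sInf_mem (exists_strictAnti (x : P))
    have h1 : StrictAnti (fun y : {x : P // p x} => f (y : P)) := by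
      intro a b hab
      exact hf hab
    have h2 := lev_le h1 x
    exact h2.trans hfx.le
  · obtain ⟨f, hf, hfx⟩ := Nat.sInf_mem (exists_strictAnti x)
    let M : ℕ := ∑ y : {x : P // p x}, f y
    have hM : ∀ y, f y ≤ M := fun y => Finset.single_le_sum (fun _ _ => Nat.zero_le _) (mem_univ y)
    have h1 : StrictAnti (fun y : P => if h : p y then f ⟨y, h⟩ else M + 1 + lev y) := by
      intro a b hab
      by_cases ha : p a
      · have hb : p b := hp a b hab.le ha
        simp only [ha, hb, dif_pos]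
        exact hf (show (⟨a, ha⟩ : {x : P // p x}) < ⟨b, hb⟩ from hab)
      · by_cases hb : p b
        · simp only [ha, hb, dif_pos, dif_neg, not_false_eq_true]
          have := hM ⟨b, hb⟩
          omega
        · simp only [ha, hb, dif_neg, not_false_eq_true]
          have := lev_strictAnti hab
          omega
    have h2 := lev_le h1 (x : P)
    simp only [x.2, dif_pos] at h2
    exact h2.trans hfx.le

variable {D : Finset P} (hD : ∀ x y, x ≤ y → y ∈ D → x ∈ D)

include hD in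
lemma lev_off (x : {x : P // x ∉ D}) : lev x = lev (x : P) :=
  lev_subtype (p := fun x => x ∉ D) (fun x y hxy hx hy => hx (hD x y hxy hy)) x

/-- extension by zero -/
def ext0 (D : Finset P) (e : {x : P // x ∉ D} → ℕ) (x : P) : ℕ :=
  if h : x ∉ D then e ⟨x, h⟩ else 0

lemma ext0_of {e : {x : P // x ∉ D} → ℕ} {x : P} (h : x ∉ D) : ext0 D e x = e ⟨x, h⟩ := by
  unfold ext0
  rw [dif_pos h]

include hD in
lemma cst_off_iff {i : ℕ} (hlev : ∀ x ∈ D, i < lev x) (e : {x : P // x ∉ D} → ℕ)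
    (F : Finset {x : P // x ∉ D}) :
    Cst i D 0 0 (ext0 D e) (F.map (Function.Embedding.subtype _)) ↔ Vd i e F := by
  classical
  have hmem : ∀ x : P, x ∈ F.map (Function.Embedding.subtype _) ↔ ∃ h : x ∉ D, ⟨x, h⟩ ∈ F := by
    intro x
    rw [mem_map]
    constructor
    · rintro ⟨y, hy, rfl⟩
      exact ⟨y.2, hy⟩
    · rintro ⟨h, hx⟩
      exact ⟨⟨x, h⟩, hx, rfl⟩
  have hr : ∀ x : {x : P // x ∉ D}, rho i (ext0 D e) (x : P) = rho i e x := by
    intro x
    unfold rho
    rw [ext0_of x.2, lev_off hD x]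
  have hr0 : ∀ x ∈ D, rho i (ext0 D e) x = 0 := by
    intro x hx
    rw [rho_of_lt (hlev x hx)]
    unfold ext0
    rw [dif_neg (not_not.mpr hx)]; rfl
  constructor
  · rintro ⟨⟨h1, h2, h3, h4⟩, -, -⟩
    refine ⟨?_, ?_, ?_, ?_⟩
    · intro x y hxy hx
      have := (hmem y).mp (h1 x y hxy ((hmem x).mpr ⟨x.2, hx⟩))
      exact this.2
    · intro x hx
      rw [← hr]
      exact h2 x (fun h => hx ((hmem x).mp h).2)
    · intro x y hxy hx hy
      rw [← hr, ← hr]
      exact h3 x y hxy (fun h => hx ((hmem x).mp h).2) (fun h => hy ((hmem y).mp h).2)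
    · intro x y hxy hx hy
      rw [← hr, ← hr]
      exact h4 x y hxy ((hmem x).mpr ⟨x.2, hx⟩) ((hmem y).mpr ⟨y.2, hy⟩)
  · rintro ⟨h1, h2, h3, h4⟩
    have hoff : ∀ x, x ∉ F.map (Function.Embedding.subtype _) →
        0 ≤ rho i (ext0 D e) x := by
      intro x hx
      by_cases hxD : x ∈ D
      · rw [hr0 x hxD]
      · rw [hr ⟨x, hxD⟩]
        exact h2 ⟨x, hxD⟩ (fun h => hx ((hmem x).mpr ⟨hxD, h⟩))
    refine ⟨⟨?_, hoff, ?_, ?_⟩, ?_, ?_⟩
    · intro x y hxy hx
      obtain ⟨hxD, hx⟩ := (hmem x).mp hx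
      have hyD : y ∉ D := fun h => hxD (hD x y hxy h)
      exact (hmem y).mpr ⟨hyD, h1 ⟨x, hxD⟩ ⟨y, hyD⟩ hxy hx⟩
    · intro x y hxy hx hy
      by_cases hxD : x ∈ D
      · rw [hr0 x hxD]
        exact hoff y hy
      · have hyD : y ∉ D := fun h => hxD (hD x y hxy h)
        rw [hr ⟨x, hxD⟩, hr ⟨y, hyD⟩]
        exact h3 ⟨x, hxD⟩ ⟨y, hyD⟩ hxy (fun h => hx ((hmem x).mpr ⟨hxD, h⟩))
          (fun h => hy ((hmem y).mpr ⟨hyD, h⟩))
    · intro x y hxy hx hy
      obtain ⟨hxD, hx⟩ := (hmem x).mp hx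
      obtain ⟨hyD, hy⟩ := (hmem y).mp hy
      rw [hr ⟨x, hxD⟩, hr ⟨y, hyD⟩]
      exact h4 ⟨x, hxD⟩ ⟨y, hyD⟩ hxy hx hy
    · intro x hx
      refine ⟨fun h => ((hmem x).mp h).1 hx, ?_⟩
      unfold ext0
      rw [dif_neg (not_not.mpr hx)]; rfl
    · intro x _ hxF
      simpa using hoff x hxF

include hD in
/-- the unconstrained sum with the lower set `D` removed is the window sum of the rest -/
theorem ZB_off {i : ℕ} (hlev : ∀ x ∈ D, i < lev x) (n : ℕ) :
    ZB i D 0 0 n = Z {x : P // x ∉ D} i n := by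
  classical
  rw [Z_eq_sum, Finset.sum_comm]
  have h1 : ∀ F : Finset {x : P // x ∉ D}, ∑ e ∈ (univ : Finset {x : P // x ∉ D}).piAntidiag n,
      (if Vd i e F then (X : ℤ[X]) ^ F.card else 0) =
      ∑ _e ∈ ((univ : Finset {x : P // x ∉ D}).piAntidiag n).filter (fun e => Vd i e F),
        (X : ℤ[X]) ^ F.card := fun F => (Finset.sum_filter _ _).symm
  rw [Finset.sum_congr rfl (fun F _ => h1 F)]
  unfold ZB
  rw [Finset.sum_sigma', Finset.sum_sigma']
  symm
  refine Finset.sum_bij (fun a _ => (⟨a.1.map (Function.Embedding.subtype _), ext0 D a.2⟩ :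
    (_ : Finset P) × (P → ℕ))) ?_ ?_ ?_ ?_
  · rintro ⟨F, e⟩ ha
    simp only [mem_sigma, mem_univ, true_and, mem_filter, mem_piAntidiag] at ha ⊢
    refine ⟨⟨?_, fun _ _ => trivial⟩, (cst_off_iff hD hlev e F).mpr ha.2⟩
    have h2 : ∑ x, ext0 D e x = ∑ x ∈ univ.filter (fun x => x ∉ D), ext0 D e x := by
      symm
      refine Finset.sum_subset (Finset.filter_subset _ _) fun x _ hx => ?_
      unfold ext0
      rw [dif_neg]
      simpa using hx
    have h3 : ∑ x ∈ univ.filter (fun x => x ∉ D), ext0 D e x = ∑ x, e x := by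
      rw [Finset.sum_subtype (univ.filter (fun x => x ∉ D)) (p := fun x => x ∉ D) (by simp)]
      exact Finset.sum_congr rfl fun x _ => ext0_of x.2
    have h4 : ∑ x, e x = n := ha.1.1
    change ∑ x, ext0 D e x = n
    rw [h2, h3, h4]
  · rintro ⟨F, e⟩ _ ⟨F', e'⟩ _ h
    simp only [Sigma.mk.injEq, heq_eq_eq] at h ⊢
    refine ⟨Finset.map_injective _ h.1, ?_⟩
    funext x
    have := congrFun h.2 (x : P)
    rwa [ext0_of x.2, ext0_of x.2] at this
  · rintro ⟨F, e⟩ ha
    simp only [mem_sigma, mem_univ, true_and, mem_filter, mem_piAntidiag] at ha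
    obtain ⟨⟨ha1, -⟩, ha2⟩ := ha
    have hF : (F.subtype (fun x => x ∉ D)).map (Function.Embedding.subtype _) = F := by
      rw [Finset.subtype_map_of_mem]
      intro x hx hxD
      exact (ha2.2.1 x hxD).1 hx
    have he : ext0 D (fun x => e x) = e := by
      funext x
      unfold ext0
      by_cases h : x ∈ D
      · rw [dif_neg (not_not.mpr h)]
        exact ((ha2.2.1 x h).2).symm
      · rw [dif_pos h]
    refine ⟨⟨F.subtype (fun x => x ∉ D), fun x => e x⟩, ?_, ?_⟩
    · simp only [mem_sigma, mem_univ, true_and, mem_filter, mem_piAntidiag]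
      refine ⟨⟨?_, fun _ _ => trivial⟩, ?_⟩
      · have h2 : ∑ x, e x = ∑ x ∈ univ.filter (fun x => x ∉ D), e x := by
          symm
          refine Finset.sum_subset (Finset.filter_subset _ _) fun x _ hx => ?_
          have hxD : x ∈ D := by simpa using hx
          simpa using (ha2.2.1 x hxD).2
        rw [Finset.sum_subtype (univ.filter (fun x => x ∉ D)) (p := fun x => x ∉ D) (by simp)]
          at h2
        have h3 : ∑ x, e x = n := ha1
        rw [h3] at h2
        exact h2.symm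
      · rw [← cst_off_iff hD hlev, hF, he]
        exact ha2
    · simp only [Sigma.mk.injEq, heq_eq_eq]
      exact ⟨hF, he⟩
  · rintro ⟨F, e⟩ _
    simp only [card_map]

end Sub

section Window

variable {Q : Type u} [Fintype Q] [PartialOrder Q] [DecidableEq Q]

lemma map_one_add_X_pow (b : ℕ) : ((1 + X : ℤ[X]) ^ b).map (PowerSeries.C : ℤ →+* PowerSeries ℤ) =
    (1 + X) ^ b := by
  rw [Polynomial.map_pow, Polynomial.map_add, Polynomial.map_one, Polynomial.map_X]

/-- from the window polynomial to its coefficients -/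
lemma dvd_Z_of_dvd_W {i b : ℕ} (h : (1 + X : Polynomial (PowerSeries ℤ)) ^ b ∣ W Q i) (n : ℕ) :
    (1 + X : ℤ[X]) ^ b ∣ Z Q i n := by
  obtain ⟨f, hf⟩ := h
  have h1 := exq_W (P := Q) i (n + M0 Q i)
  rw [if_pos (Nat.le_add_left _ _), Nat.add_sub_cancel] at h1
  rw [← h1, hf, ← map_one_add_X_pow, exq_map_mul]
  exact dvd_mul_right _ _

/-- one factor `1 + X` can be checked on the coefficients -/
lemma dvd_W_of_dvd_Z {i : ℕ} (h : ∀ n, (1 + X : ℤ[X]) ∣ Z Q i n) :
    (1 + X : Polynomial (PowerSeries ℤ)) ∣ W Q i := by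
  have h1 : (W Q i).IsRoot (-1) := by
    unfold Polynomial.IsRoot
    ext N
    have h2 : PowerSeries.coeff N ((W Q i).eval (-1)) = (exq N (W Q i)).eval (-1) := by
      rw [Polynomial.eval_eq_sum_range' (n := max ((W Q i).natDegree + 1)
        ((exq N (W Q i)).natDegree + 1)) (by omega), Polynomial.eval_eq_sum_range'
        (n := max ((W Q i).natDegree + 1) ((exq N (W Q i)).natDegree + 1)) (by omega), map_sum]
      refine Finset.sum_congr rfl fun k _ => ?_
      rw [coeff_exq]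
      have h3 : ((-1 : PowerSeries ℤ) ^ k) = PowerSeries.C ((-1 : ℤ) ^ k) := by simp
      rw [h3, mul_comm, PowerSeries.coeff_C_mul, mul_comm]
    rw [h2, exq_W, map_zero]
    split_ifs with h4
    · obtain ⟨g, hg⟩ := h (N - M0 Q i)
      rw [hg, eval_mul, eval_add, eval_one, eval_X]
      ring
    · exact Polynomial.eval_zero
  have h2 := Polynomial.dvd_iff_isRoot.mpr h1
  rwa [map_neg, map_one, sub_neg_eq_add, add_comm] at h2

/-- a poset with an element of level at least `i` has a peak in every admissible configuration -/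
lemma one_le_pk {i : ℕ} (hx : ∃ x : Q, i ≤ lev x) (e : Q → ℕ) : 1 ≤ (Pk i e).card := by
  classical
  obtain ⟨x, hx⟩ := hx
  obtain ⟨a, -, ha⟩ := Finset.exists_max_image (univ : Finset Q) (fun y => rho i e y)
    ⟨x, mem_univ x⟩
  let S : Finset Q := univ.filter (fun y => rho i e y = rho i e a)
  obtain ⟨w, hw⟩ := S.exists_maximal ⟨a, by simp [S]⟩
  have hw1 : rho i e w = rho i e a := by simpa [S] using hw.1
  have h0 : 0 ≤ rho i e a := by
    have h1 := ha x (mem_univ x)
    have h2 : 0 ≤ rho i e x := by unfold rho; omega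
    exact h2.trans h1
  rw [Nat.one_le_iff_ne_zero, Ne, Finset.card_eq_zero, ← Ne, ← Finset.nonempty_iff_ne_empty]
  refine ⟨w, ?_⟩
  simp only [Pk, mem_filter, mem_univ, true_and]
  constructor
  · rintro (h1 | ⟨z, -, h1⟩)
    · rw [hw1] at h1; omega
    · rw [hw1] at h1
      exact absurd (ha z (mem_univ z)) (not_le.mpr h1)
  · rintro ⟨y, hy, h1⟩
    have h2 : rho i e y = rho i e a := le_antisymm (ha y (mem_univ y)) (by rw [← hw1]; exact h1)
    have h3 : y ∈ S := by simp [S, h2]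
    exact absurd (hw.2 h3 hy.le) (not_le_of_gt hy)

/-- the peak lemma -/
theorem dvd_W_one {i : ℕ} (hx : ∃ x : Q, i ≤ lev x) :
    (1 + X : Polynomial (PowerSeries ℤ)) ∣ W Q i := by
  classical
  refine dvd_W_of_dvd_Z fun n => ?_
  unfold Z
  refine Finset.dvd_sum fun e _ => ?_
  split_ifs with h
  · exact dvd_mul_of_dvd_right (dvd_pow_self _ (by have := one_le_pk hx e; omega)) _
  · exact dvd_zero _

end Window

end Pool.Agent.GaussPoset

end

/-! From `Pool.Agent.W_448fs_h5.FsD` -/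

section

/-!
From the values `U_m` to the order of the window polynomial.
-/

namespace Pool.Agent.GaussPoset.Fs

open Finset Polynomial

universe u

variable {Q : Type u} [Fintype Q] [PartialOrder Q] [DecidableEq Q]

/-- if `C U_m = P(q ^ (i + m + 1))` with `(1 - X) ^ k ∣ P`, then `(1 + X) ^ k` divides the window
polynomial -/
theorem dvd_W_of_eval {K : Type*} [Field K] (ψ : PowerSeries ℤ →+* K)
    (hψ : Function.Injective ψ) {i k : ℕ} (P : K[X]) (hP : (1 - X) ^ k ∣ P) {C0 : K}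
    (hC : C0 ≠ 0) (h : ∀ m : ℕ, C0 * ψ ((U Q m : ℤ[X]) : PowerSeries ℤ) =
      P.eval ((ψ PowerSeries.X) ^ (i + m + 1))) :
    (1 + X : Polynomial (PowerSeries ℤ)) ^ k ∣ W Q i := by
  have hinj : Function.Injective (fun m : ℕ => (ψ PowerSeries.X) ^ (i + m + 1)) := by
    intro a b hab
    simp only [← map_pow] at hab
    have := congrArg PowerSeries.order (hψ hab)
    rw [PowerSeries.order_X_pow, PowerSeries.order_X_pow] at this
    have h2 : i + a + 1 = i + b + 1 := by exact_mod_cast this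
    omega
  have key : C C0 * ((W Q i).map ψ).comp (-X) =
      C ((ψ PowerSeries.X) ^ (i * Fintype.card Q)) * P := by
    apply Polynomial.eq_of_infinite_eval_eq
    refine Set.infinite_of_injective_forall_mem hinj fun m => ?_
    simp only [Set.mem_ofPred_eq]
    rw [eval_mul, eval_mul, eval_C, eval_C, eval_comp, eval_neg, eval_X, ← h m]
    have h1 := W_eval (P := Q) i m
    have h2 : ((W Q i).map ψ).eval (-(ψ PowerSeries.X) ^ (i + m + 1)) =
        ψ ((W Q i).eval (-(PowerSeries.X : PowerSeries ℤ) ^ (i + m + 1))) := by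
      rw [eval_map, ← map_pow, ← map_neg, eval₂_hom]
    rw [h2, h1, map_mul, map_pow]
    ring
  have h3 : (1 - X : K[X]) ^ k ∣ ((W Q i).map ψ).comp (-X) := by
    have h4 : (1 - X : K[X]) ^ k ∣ C C0 * ((W Q i).map ψ).comp (-X) := by
      rw [key]; exact hP.mul_left _
    have h5 : ((W Q i).map ψ).comp (-X) = C C0⁻¹ * (C C0 * ((W Q i).map ψ).comp (-X)) := by
      rw [← mul_assoc, ← C_mul, inv_mul_cancel₀ hC, C_1, one_mul]
    rw [h5]
    exact h4.mul_left _
  have h6 : (1 + X : K[X]) ^ k ∣ (W Q i).map ψ := by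
    obtain ⟨g, hg⟩ := h3
    refine ⟨g.comp (-X), ?_⟩
    have h7 := congrArg (fun f : K[X] => f.comp (-X)) hg
    simp only [mul_comp, pow_comp, sub_comp, one_comp, X_comp, sub_neg_eq_add] at h7
    rw [← h7, comp_assoc, neg_comp, X_comp, neg_neg, comp_X]
  have h8 : ((1 + X : Polynomial (PowerSeries ℤ)) ^ k).map ψ = (1 + X) ^ k := by
    rw [Polynomial.map_pow, Polynomial.map_add, Polynomial.map_one, Polynomial.map_X]
  have hm : ((1 + X : Polynomial (PowerSeries ℤ)) ^ k).Monic := by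
    have := (monic_X_add_C (1 : PowerSeries ℤ)).pow k
    rwa [C_1, add_comm] at this
  rw [← h8, Polynomial.map_dvd_map ψ hψ hm] at h6
  exact h6

end Pool.Agent.GaussPoset.Fs

end

/-! From `Pool.Agent.W_448cl_h67.ClB` -/

section

/-!
The order of the window polynomial from finitely many values.
-/

namespace Pool.Agent.GaussPoset.Cl

set_option linter.unusedSectionVars false

open Polynomial Finset

universe u

variable {Q : Type u} [Fintype Q] [PartialOrder Q] [DecidableEq Q]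
variable {K : Type*} [Field K] {ψ : PowerSeries ℤ →+* K}

/-- the polynomial with the values `U_m` at `q ^ (m + 1)` -/
noncomputable def ff (Q : Type u) [Fintype Q] [PartialOrder Q] [DecidableEq Q]
    (ψ : PowerSeries ℤ →+* K) : K[X] := ((W Q 0).map ψ).comp (-X)

lemma ff_eval_neg (y : K) : (ff Q ψ).eval y = ((W Q 0).map ψ).eval (-y) := by
  unfold ff
  rw [eval_comp, eval_neg, eval_X]

lemma ff_eval (m : ℕ) : (ff Q ψ).eval ((ψ PowerSeries.X) ^ (m + 1)) =
    ψ ((U Q m : ℤ[X]) : PowerSeries ℤ) := by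
  rw [ff_eval_neg]
  have h1 := W_eval (P := Q) 0 m
  rw [Nat.zero_add, Nat.zero_mul, pow_zero, one_mul] at h1
  rw [← h1, ← map_pow, ← map_neg, eval_map, eval₂_hom]

lemma ff_natDegree : (ff Q ψ).natDegree ≤ Fintype.card Q := by
  have h1 : (W Q 0).natDegree ≤ Fintype.card Q := by
    unfold W
    refine natDegree_sum_le_of_forall_le _ _ fun F _ => ?_
    exact (natDegree_C_mul_X_pow_le _ _).trans (Finset.card_le_univ F)
  unfold ff
  refine (natDegree_comp_le).trans ?_
  rw [natDegree_neg, natDegree_X, Nat.mul_one]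
  exact (natDegree_map_le).trans h1

lemma W_rel (i : ℕ) (y : K) : ((W Q i).map ψ).eval (-((ψ PowerSeries.X) ^ i * y)) =
    (ψ PowerSeries.X) ^ (i * Fintype.card Q) * (ff Q ψ).eval y := by
  rw [ff_eval_neg]
  unfold W
  rw [Polynomial.map_sum, Polynomial.map_sum, eval_finsetSum, eval_finsetSum, Finset.mul_sum]
  refine Finset.sum_congr rfl fun F _ => ?_
  rw [Polynomial.map_mul, Polynomial.map_mul, Polynomial.map_pow, Polynomial.map_C,
    Polynomial.map_C, Polynomial.map_X, eval_mul, eval_mul, eval_C, eval_C, eval_pow, eval_pow,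
    eval_X, eval_X, map_mul, map_mul, map_pow, map_pow, Nat.zero_mul, pow_zero, one_mul]
  have hF : F.card ≤ Fintype.card Q := Finset.card_le_univ F
  have h1 : i * Fintype.card Q = i * (Fintype.card Q - F.card) + i * F.card := by
    rw [← Nat.mul_add, Nat.sub_add_cancel hF]
  rw [h1, pow_add, neg_pow, neg_pow y, mul_pow, ← pow_mul]
  ring

lemma ff_zero (hq : ψ PowerSeries.X ≠ 0) {i : ℕ} (hx : ∃ x : Q, i ≤ lev x) :
    (ff Q ψ).eval ((ψ PowerSeries.X) ^ i)⁻¹ = 0 := by
  have h1 := W_rel (Q := Q) (ψ := ψ) i ((ψ PowerSeries.X) ^ i)⁻¹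
  rw [mul_inv_cancel₀ (pow_ne_zero _ hq)] at h1
  obtain ⟨g, hg⟩ := dvd_W_one hx
  rw [hg, Polynomial.map_mul, eval_mul, Polynomial.map_add, Polynomial.map_one,
    Polynomial.map_X, eval_add, eval_one, eval_X, add_neg_cancel, zero_mul] at h1
  exact (mul_eq_zero.mp h1.symm).resolve_left (pow_ne_zero _ hq)

/-- from the order of `ff` to the order of `W` -/
theorem dvd_W_of_ff (hψ : Function.Injective ψ) {i k : ℕ}
    (h : (X - C ((ψ PowerSeries.X) ^ i)⁻¹) ^ k ∣ ff Q ψ) :
    (1 + X : Polynomial (PowerSeries ℤ)) ^ k ∣ W Q i := by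
  have hq : ψ PowerSeries.X ≠ 0 := by
    intro h0
    rw [← map_zero ψ] at h0
    exact PowerSeries.X_ne_zero (hψ h0)
  refine Fs.dvd_W_of_eval ψ hψ ((ff Q ψ).comp (C ((ψ PowerSeries.X) ^ i)⁻¹ * X)) ?_ one_ne_zero
    (fun m => ?_)
  · obtain ⟨g, hg⟩ := h
    rw [hg, mul_comp, pow_comp, sub_comp, X_comp, C_comp]
    have h1 : C ((ψ PowerSeries.X) ^ i)⁻¹ * X - C ((ψ PowerSeries.X) ^ i)⁻¹ =
        (1 - X) * -C ((ψ PowerSeries.X) ^ i)⁻¹ := by ring
    rw [h1, mul_pow]
    exact (Dvd.intro _ rfl).mul_right _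
  · rw [one_mul, eval_comp, eval_mul, eval_C, eval_X, ← ff_eval]
    congr 1
    rw [Nat.add_assoc, pow_add _ i (m + 1), ← mul_assoc, inv_mul_cancel₀ (pow_ne_zero _ hq),
      one_mul]

section Crit

variable {ℓ M i0 : ℕ}

/-- the factor of `f` from the levels -/
noncomputable def lf (ψ : PowerSeries ℤ →+* K) (ℓ : ℕ) : K[X] :=
  ∏ i ∈ range ℓ, (X - C ((ψ PowerSeries.X) ^ i)⁻¹)

lemma qpow_inj (hψ : Function.Injective ψ) : Function.Injective (fun m : ℕ =>
    (ψ PowerSeries.X) ^ m) := by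
  intro a b hab
  simp only [← map_pow] at hab
  have := congrArg PowerSeries.order (hψ hab)
  rw [PowerSeries.order_X_pow, PowerSeries.order_X_pow] at this
  exact_mod_cast this

lemma lf_dvd (hψ : Function.Injective ψ) (hq : ψ PowerSeries.X ≠ 0)
    (hx : ∀ i < ℓ, ∃ x : Q, i ≤ lev x) : lf ψ ℓ ∣ ff Q ψ := by
  unfold lf
  refine Finset.prod_dvd_of_coprime ?_ ?_
  · intro i _ k _ hik
    refine (Polynomial.pairwise_coprime_X_sub_C (K := K)
      (s := fun i : ℕ => ((ψ PowerSeries.X) ^ i)⁻¹) ?_) hik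
    intro a b hab
    exact qpow_inj hψ (inv_injective hab)
  · intro i hi
    rw [mem_range] at hi
    rw [dvd_iff_isRoot]
    exact ff_zero hq (hx i hi)

lemma lf_natDegree : (lf ψ ℓ).natDegree = ℓ := by
  unfold lf
  rw [natDegree_prod_of_monic _ _ fun i _ => monic_X_sub_C _]
  simp

lemma lf_monic : (lf ψ ℓ).Monic := by
  unfold lf
  exact monic_prod_of_monic _ _ fun i _ => monic_X_sub_C _

/-- from integer polynomials to the field -/
noncomputable def φ (ψ : PowerSeries ℤ →+* K) : ℤ[X] →+* K :=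
  ψ.comp (Polynomial.coeToPowerSeries.ringHom (R := ℤ))

lemma φ_apply (p : ℤ[X]) : φ ψ p = ψ ((p : ℤ[X]) : PowerSeries ℤ) := rfl

lemma φ_X : φ ψ X = ψ PowerSeries.X := by
  rw [φ_apply, Polynomial.coe_X]

lemma pow_ne_one' (hψ : Function.Injective ψ) {a : ℕ} (ha : 1 ≤ a) :
    (ψ PowerSeries.X) ^ a ≠ 1 := by
  intro h
  rw [← pow_zero (ψ PowerSeries.X)] at h
  have := qpow_inj hψ h
  omega

lemma φ_fac_ne (hψ : Function.Injective ψ) {a : ℕ} (ha : 1 ≤ a) :
    φ ψ (X ^ a - 1) ≠ 0 := by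
  rw [map_sub, map_pow, map_one, φ_X, sub_ne_zero]
  exact pow_ne_one' hψ ha

/-- a root from an interpolation sum with a common multiple `Z` of the denominators -/
lemma root_of_sum (hψ : Function.Injective ψ) {S : K[X]} (hS : S.natDegree ≤ M) {c : K}
    {u en E : ℕ → ℤ[X]} {Z : ℤ[X]} (hZ : φ ψ Z ≠ 0) (hev : ∀ m, S.eval ((ψ PowerSeries.X) ^ (m + 1)) =
      c * (φ ψ (u m) / φ ψ (en m)))
    (hE : ∀ m ≤ M, en m * (1 - X ^ (m + 1 + i0)) *
      (∏ m' ∈ (range (M + 1)).erase m, (X ^ (m + 1) - X ^ (m' + 1))) * E m = Z)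
    (hsum : ∑ m ∈ range (M + 1), u m * E m = 0) :
    S.eval ((ψ PowerSeries.X) ^ i0)⁻¹ = 0 := by
  classical
  set q : K := ψ PowerSeries.X with hqdef
  have hq : q ≠ 0 := by
    intro h0
    rw [hqdef, ← map_zero ψ] at h0
    exact PowerSeries.X_ne_zero (hψ h0)
  set a : K := (q ^ i0)⁻¹ with hadef
  have hnode : ∀ m : ℕ, a ≠ q ^ (m + 1) := by
    intro m h
    have h1 : q ^ (i0 + (m + 1)) = 1 := by
      rw [pow_add, ← h, hadef, mul_inv_cancel₀ (pow_ne_zero _ hq)]
    exact pow_ne_one' hψ (by omega) h1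
  have hinj : Set.InjOn (fun m : ℕ => q ^ (m + 1)) (range (M + 1) : Finset ℕ) := by
    intro x _ y _ h
    have := qpow_inj hψ h
    omega
  have hlt : S.degree < (range (M + 1)).card := by
    rw [card_range]
    exact lt_of_le_of_lt degree_le_natDegree (by exact_mod_cast Nat.lt_succ_of_le hS)
  rw [Lagrange.eq_interpolate hinj hlt, Lagrange.eval_interpolate_not_at_node _
    (fun m _ => hnode m)]
  have hterm : ∀ m ∈ range (M + 1), Lagrange.nodalWeight (range (M + 1))
      (fun m : ℕ => q ^ (m + 1)) m * (a - q ^ (m + 1))⁻¹ * S.eval (q ^ (m + 1)) =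
      (q ^ i0 * c * (φ ψ Z)⁻¹) * φ ψ (u m * E m) := by
    intro m hm
    have hm' := mem_range.mp hm
    have h6 : (a - q ^ (m + 1))⁻¹ = q ^ i0 * (φ ψ (1 - X ^ (m + 1 + i0)))⁻¹ := by
      rw [map_sub, map_pow, map_one, φ_X, ← hqdef]
      have h7 : a - q ^ (m + 1) = (q ^ i0)⁻¹ * (1 - q ^ (m + 1 + i0)) := by
        rw [mul_sub, mul_one, Nat.add_comm (m + 1) i0, pow_add q i0 (m + 1), ← mul_assoc,
          inv_mul_cancel₀ (pow_ne_zero _ hq), one_mul]
      rw [h7, mul_inv, inv_inv]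
    have h8 : Lagrange.nodalWeight (range (M + 1)) (fun m : ℕ => q ^ (m + 1)) m =
        (φ ψ (∏ m' ∈ (range (M + 1)).erase m, (X ^ (m + 1) - X ^ (m' + 1))))⁻¹ := by
      unfold Lagrange.nodalWeight
      rw [map_prod, ← Finset.prod_inv_distrib]
      refine Finset.prod_congr rfl fun k _ => ?_
      rw [map_sub, map_pow, map_pow, φ_X]
    have h9 := hE m (by omega)
    rw [← h9] at hZ
    rw [hev m, h6, h8, ← h9]
    rw [map_mul, map_mul, map_mul] at hZ
    obtain ⟨⟨⟨g1, g2⟩, g3⟩, g4⟩ : ((φ ψ (en m) ≠ 0 ∧ φ ψ (1 - X ^ (m + 1 + i0)) ≠ 0) ∧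
        φ ψ (∏ m' ∈ (range (M + 1)).erase m, (X ^ (m + 1) - X ^ (m' + 1))) ≠ 0) ∧
        φ ψ (E m) ≠ 0 := by
      obtain ⟨k1, k2⟩ := mul_ne_zero_iff.mp hZ
      obtain ⟨k3, k4⟩ := mul_ne_zero_iff.mp k1
      obtain ⟨k5, k6⟩ := mul_ne_zero_iff.mp k3
      exact ⟨⟨⟨k5, k6⟩, k4⟩, k2⟩
    rw [map_mul (φ ψ) (en m * (1 - X ^ (m + 1 + i0)) *
      ∏ m' ∈ (range (M + 1)).erase m, (X ^ (m + 1) - X ^ (m' + 1))) (E m),
      map_mul (φ ψ) (en m * (1 - X ^ (m + 1 + i0))), map_mul (φ ψ) (en m), map_mul (φ ψ) (u m)]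
    field_simp
  rw [Finset.sum_congr rfl hterm, ← Finset.mul_sum, ← map_sum, hsum, map_zero, mul_zero,
    mul_zero]

lemma lf_eval (hψ : Function.Injective ψ) (m : ℕ) :
    (lf ψ ℓ).eval ((ψ PowerSeries.X) ^ (m + 1)) * ∏ i ∈ range ℓ, (ψ PowerSeries.X) ^ i =
      φ ψ (∏ i ∈ range ℓ, (X ^ (m + 1 + i) - 1)) := by
  have hq : ψ PowerSeries.X ≠ 0 := by
    intro h0
    rw [← map_zero ψ] at h0
    exact PowerSeries.X_ne_zero (hψ h0)
  unfold lf
  rw [eval_prod, ← Finset.prod_mul_distrib, map_prod]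
  refine Finset.prod_congr rfl fun i _ => ?_
  rw [eval_sub, eval_X, eval_C, map_sub, map_pow, map_one, φ_X, sub_mul,
    ← pow_add, inv_mul_cancel₀ (pow_ne_zero _ hq)]

lemma R_eval (hψ : Function.Injective ψ) {R : K[X]} (hR : ff Q ψ = lf ψ ℓ * R) (m : ℕ) :
    R.eval ((ψ PowerSeries.X) ^ (m + 1)) = (∏ i ∈ range ℓ, (ψ PowerSeries.X) ^ i) *
      (φ ψ (U Q m) / φ ψ (∏ i ∈ range ℓ, (X ^ (m + 1 + i) - 1))) := by
  have h1 := ff_eval (Q := Q) (ψ := ψ) m
  rw [hR, eval_mul] at h1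
  have h2 := lf_eval (ℓ := ℓ) hψ m
  have h3 : φ ψ (∏ i ∈ range ℓ, (X ^ (m + 1 + i) - 1)) ≠ 0 := by
    rw [map_prod]
    exact Finset.prod_ne_zero_iff.mpr fun i _ => φ_fac_ne hψ (by omega)
  rw [← mul_div_assoc, eq_div_iff h3, ← h2, φ_apply, ← h1]
  ring

lemma lf_deg {R : K[X]} (hR : ff Q ψ = lf ψ ℓ * R) (hc : Fintype.card Q ≤ ℓ + M) :
    R.natDegree ≤ M := by
  by_cases hR0 : R = 0
  · rw [hR0, natDegree_zero]; exact Nat.zero_le _
  have h1 := ff_natDegree (Q := Q) (ψ := ψ)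
  rw [hR, lf_monic.natDegree_mul' hR0, lf_natDegree] at h1
  omega

/-! ### the cofactors -/

/-- `0 + 1 + ... + (n - 1)` -/
def tri : ℕ → ℕ
  | 0 => 0
  | n + 1 => tri n + n

lemma tri_add (a b : ℕ) : tri (a + b) = tri a + tri b + a * b := by
  induction b with
  | zero => simp [tri]
  | succ b ih =>
    rw [← Nat.add_assoc, tri, ih, tri]
    ring

/-- the cofactor of the denominator, up to sign -/
noncomputable def Eo (ℓ M i0 e m : ℕ) : ℤ[X] :=
  X ^ tri (M - m) * (∏ k ∈ range (M - m), (X ^ (m + ℓ + 1 + k) - 1)) *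
    (∏ k ∈ range m, (X ^ (M - m + 1 + k) - 1)) *
    ((∏ k ∈ range m, (X ^ (k + 1 + i0) - 1)) *
      ∏ k ∈ range (M - m), (X ^ (m + 1 + (k + 1) + i0) - 1)) ^ e

/-- the common multiple of the denominators, up to sign -/
noncomputable def Zo (ℓ M i0 e : ℕ) : ℤ[X] :=
  X ^ tri (M + 1) * (∏ k ∈ range (ℓ + M), (X ^ (k + 1) - 1)) *
    (∏ k ∈ range M, (X ^ (k + 1) - 1)) * (∏ k ∈ range (M + 1), (X ^ (k + 1 + i0) - 1)) ^ e

lemma φ_Zo_ne (hψ : Function.Injective ψ) {e : ℕ} : φ ψ (Zo ℓ M i0 e) ≠ 0 := by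
  unfold Zo
  rw [map_mul, map_mul, map_mul, map_pow, map_pow, φ_X, map_prod, map_prod, map_prod]
  refine mul_ne_zero (mul_ne_zero (mul_ne_zero (pow_ne_zero _ ?_) ?_) ?_) (pow_ne_zero _ ?_)
  · intro h0
    rw [← map_zero ψ] at h0
    exact PowerSeries.X_ne_zero (hψ h0)
  · exact Finset.prod_ne_zero_iff.mpr fun i _ => φ_fac_ne hψ (by omega)
  · exact Finset.prod_ne_zero_iff.mpr fun i _ => φ_fac_ne hψ (by omega)
  · exact Finset.prod_ne_zero_iff.mpr fun i _ => φ_fac_ne hψ (by omega)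

lemma prod_erase_split (m M : ℕ) (hm : m ≤ M) (g : ℕ → ℤ[X]) :
    ∏ k ∈ (range (M + 1)).erase m, g k = (∏ k ∈ range m, g k) *
      ∏ k ∈ range (M - m), g (m + (k + 1)) := by
  have h1 : ∏ k ∈ (range (M + 1)).erase m, g k =
      ∏ k ∈ range (M + 1), (if k = m then 1 else g k) := by
    rw [← Finset.prod_erase (range (M + 1)) (a := m) (f := fun k => if k = m then 1 else g k)
      (by simp)]
    refine Finset.prod_congr rfl fun k hk => ?_
    rw [if_neg (mem_erase.mp hk).1]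
  rw [h1]
  obtain ⟨d, rfl⟩ := Nat.exists_eq_add_of_le hm
  rw [Nat.add_assoc, Finset.prod_range_add, Nat.add_sub_cancel_left, Finset.prod_range_succ',
    Nat.add_zero, if_pos rfl, mul_one]
  congr 1
  · refine Finset.prod_congr rfl fun k hk => ?_
    rw [mem_range] at hk
    rw [if_neg (by omega)]
  · refine Finset.prod_congr rfl fun k _ => ?_
    rw [if_neg (by omega)]

lemma prod_low (m : ℕ) : ∏ k ∈ range m, ((X : ℤ[X]) ^ (m + 1) - X ^ (k + 1)) =
    X ^ tri (m + 1) * ∏ k ∈ range m, (X ^ (k + 1) - 1) := by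
  have h1 : ∀ n, n ≤ m → ∏ k ∈ range n, ((X : ℤ[X]) ^ (m + 1) - X ^ (k + 1)) =
      X ^ tri (n + 1) * ∏ k ∈ range n, (X ^ (m - k) - 1) := by
    intro n hn
    induction n with
    | zero => simp [tri]
    | succ n ih =>
      have h2 : (X : ℤ[X]) ^ (m + 1) = X ^ (n + 1) * X ^ (m - n) := by
        rw [← pow_add]
        congr 1
        omega
      have h3 : (X : ℤ[X]) ^ tri (n + 1 + 1) = X ^ tri (n + 1) * X ^ (n + 1) := by
        rw [← pow_add]
        rfl
      rw [Finset.prod_range_succ, Finset.prod_range_succ, ih (by omega), h2, h3]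
      ring
  rw [h1 m le_rfl]
  congr 1
  rw [← Finset.prod_range_reflect]
  refine Finset.prod_congr rfl fun k hk => ?_
  rw [mem_range] at hk
  rw [show m - (m - 1 - k) = k + 1 by omega]

lemma prod_high (m d : ℕ) : ∏ k ∈ range d, ((X : ℤ[X]) ^ (m + 1) - X ^ (m + (k + 1) + 1)) =
    (-1) ^ d * X ^ ((m + 1) * d) * ∏ k ∈ range d, (X ^ (k + 1) - 1) := by
  induction d with
  | zero => simp
  | succ d ih =>
    have h2 : (X : ℤ[X]) ^ (m + (d + 1) + 1) = X ^ (m + 1) * X ^ (d + 1) := by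
      rw [← pow_add]
      congr 1
      omega
    have h3 : (X : ℤ[X]) ^ ((m + 1) * (d + 1)) = X ^ ((m + 1) * d) * X ^ (m + 1) := by
      rw [← pow_add, Nat.mul_succ]
    rw [Finset.prod_range_succ, Finset.prod_range_succ, ih, h2, h3, pow_succ (-1 : ℤ[X]) d]
    ring

lemma fac_merge (a b : ℕ) (s : ℕ) : (∏ k ∈ range a, ((X : ℤ[X]) ^ (s + k) - 1)) *
    ∏ k ∈ range b, (X ^ (s + a + k) - 1) = ∏ k ∈ range (a + b), (X ^ (s + k) - 1) := by
  rw [Finset.prod_range_add]
  congr 1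
  refine Finset.prod_congr rfl fun k _ => ?_
  rw [Nat.add_assoc]

/-- the denominator divides the common multiple -/
theorem den_mul_Eo {m : ℕ} (hm : m ≤ M) (e : ℕ) :
    (∏ i ∈ range ℓ, ((X : ℤ[X]) ^ (m + 1 + i) - 1)) * (X ^ (m + 1 + i0) - 1) ^ e *
      (∏ m' ∈ (range (M + 1)).erase m, (X ^ (m + 1) - X ^ (m' + 1))) *
      ((-1) ^ m * Eo ℓ M i0 e m) = (-1) ^ M * Zo ℓ M i0 e := by
  rw [prod_erase_split m M hm]
  have h1 : ∏ k ∈ range (M - m), ((X : ℤ[X]) ^ (m + 1) - X ^ (m + (k + 1) + 1)) = _ :=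
    prod_high m (M - m)
  rw [prod_low, h1]
  unfold Eo Zo
  have e1 : tri (M + 1) = tri (m + 1) + tri (M - m) + (m + 1) * (M - m) := by
    rw [← tri_add]
    congr 1
    omega
  have e2 : (∏ k ∈ range m, ((X : ℤ[X]) ^ (k + 1) - 1)) *
      ((∏ i ∈ range ℓ, ((X : ℤ[X]) ^ (m + 1 + i) - 1)) *
        ∏ k ∈ range (M - m), (X ^ (m + ℓ + 1 + k) - 1)) =
      ∏ k ∈ range (ℓ + M), (X ^ (k + 1) - 1) := by
    have g1 := fac_merge ℓ (M - m) (m + 1)
    rw [show m + ℓ + 1 = m + 1 + ℓ by omega, g1]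
    have g2 := fac_merge m (ℓ + (M - m)) 1
    rw [show m + (ℓ + (M - m)) = ℓ + M by omega, show 1 + m = m + 1 by omega] at g2
    have g3 : ∀ n, ∏ k ∈ range n, ((X : ℤ[X]) ^ (1 + k) - 1) =
        ∏ k ∈ range n, (X ^ (k + 1) - 1) := fun n => by
      refine Finset.prod_congr rfl fun k _ => ?_
      rw [Nat.add_comm 1 k]
    rw [g3, g3] at g2
    exact g2
  have e3 : (∏ k ∈ range (M - m), ((X : ℤ[X]) ^ (k + 1) - 1)) *
      ∏ k ∈ range m, (X ^ (M - m + 1 + k) - 1) = ∏ k ∈ range M, (X ^ (k + 1) - 1) := by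
    have g2 := fac_merge (M - m) m 1
    have g3 : ∀ n, ∏ k ∈ range n, ((X : ℤ[X]) ^ (1 + k) - 1) =
        ∏ k ∈ range n, (X ^ (k + 1) - 1) := fun n => by
      refine Finset.prod_congr rfl fun k _ => ?_
      rw [Nat.add_comm 1 k]
    rw [g3, g3, show M - m + m = M by omega, show 1 + (M - m) = M - m + 1 by omega] at g2
    exact g2
  have e4 : (X ^ (m + 1 + i0) - 1 : ℤ[X]) * ((∏ k ∈ range m, (X ^ (k + 1 + i0) - 1)) *
      ∏ k ∈ range (M - m), (X ^ (m + 1 + (k + 1) + i0) - 1)) =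
      ∏ k ∈ range (M + 1), (X ^ (k + 1 + i0) - 1) := by
    obtain ⟨d, rfl⟩ := Nat.exists_eq_add_of_le hm
    rw [show m + d + 1 = m + (d + 1) by omega, Finset.prod_range_add, Nat.add_sub_cancel_left,
      Finset.prod_range_succ' _ d, Nat.add_zero]
    have g1 : ∏ k ∈ range d, ((X : ℤ[X]) ^ (m + 1 + (k + 1) + i0) - 1) =
        ∏ k ∈ range d, (X ^ (m + (k + 1) + 1 + i0) - 1) := by
      refine Finset.prod_congr rfl fun k _ => ?_
      rw [show m + 1 + (k + 1) + i0 = m + (k + 1) + 1 + i0 by omega]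
    rw [g1]
    ring
  have e5 : (-1 : ℤ[X]) ^ (M - m) * (-1) ^ m = (-1) ^ M := by
    rw [← pow_add, Nat.sub_add_cancel hm]
  have e6 : (X ^ (m + 1 + i0) - 1 : ℤ[X]) ^ e * ((∏ k ∈ range m, (X ^ (k + 1 + i0) - 1)) *
      ∏ k ∈ range (M - m), (X ^ (m + 1 + (k + 1) + i0) - 1)) ^ e =
      (∏ k ∈ range (M + 1), (X ^ (k + 1 + i0) - 1)) ^ e := by
    rw [← mul_pow, e4]
  rw [e1, ← e2, ← e3, ← e6, ← e5, pow_add, pow_add]
  ring

/-- **Criterion.**  A second zero at the level `i0`. -/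
theorem dvd_of_poly (hx : ∀ i < ℓ, ∃ x : Q, i ≤ lev x)
    (hc : Fintype.card Q ≤ ℓ + M) (hi0 : i0 < ℓ)
    (hsum : ∑ m ∈ range (M + 1), (-1) ^ m * (U Q m * Eo ℓ M i0 1 m) = 0) :
    (1 + X : Polynomial (PowerSeries ℤ)) ^ 2 ∣ W Q i0 := by
  classical
  have hψ : Function.Injective (algebraMap (PowerSeries ℤ) (FractionRing (PowerSeries ℤ))) :=
    IsFractionRing.injective _ _
  set ψ : PowerSeries ℤ →+* FractionRing (PowerSeries ℤ) := algebraMap _ _ with hψdef
  have hq : ψ PowerSeries.X ≠ 0 := by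
    intro h0
    rw [← map_zero ψ] at h0
    exact PowerSeries.X_ne_zero (hψ h0)
  refine dvd_W_of_ff hψ ?_
  obtain ⟨R, hR⟩ := lf_dvd (ψ := ψ) (Q := Q) hψ hq hx
  have hroot : R.eval ((ψ PowerSeries.X) ^ i0)⁻¹ = 0 := by
    refine root_of_sum (M := M) (E := fun m => (-1) ^ m * Eo ℓ M i0 1 m)
      (Z := -((-1) ^ M * Zo ℓ M i0 1)) hψ (lf_deg hR hc) ?_ (R_eval hψ hR) ?_ ?_
    · rw [map_neg, neg_ne_zero, map_mul]
      refine mul_ne_zero ?_ (φ_Zo_ne hψ)
      rw [map_pow, map_neg, map_one]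
      exact pow_ne_zero _ (neg_ne_zero.mpr one_ne_zero)
    · intro m hm
      rw [← den_mul_Eo hm 1, pow_one]
      ring
    · rw [← hsum]
      refine Finset.sum_congr rfl fun m _ => ?_
      ring
  have h1 : (X - C ((ψ PowerSeries.X) ^ i0)⁻¹) ∣ lf ψ ℓ := by
    unfold lf
    exact Finset.dvd_prod_of_mem _ (mem_range.mpr hi0)
  rw [hR, pow_two]
  exact mul_dvd_mul h1 (dvd_iff_isRoot.mpr hroot)

/-- **Criterion.**  A third zero at the level `i0`. -/
theorem dvd3_of_poly (hx : ∀ i < ℓ, ∃ x : Q, i ≤ lev x)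
    (hc : Fintype.card Q ≤ ℓ + (M + 1)) (hi0 : i0 < ℓ)
    (hsum : ∑ m ∈ range (M + 1 + 1), (-1) ^ m * (U Q m * Eo ℓ (M + 1) i0 1 m) = 0)
    (hsum3 : ∑ m ∈ range (M + 1), (-1) ^ m * (U Q m * Eo ℓ M i0 2 m) = 0) :
    (1 + X : Polynomial (PowerSeries ℤ)) ^ 3 ∣ W Q i0 := by
  classical
  have hψ : Function.Injective (algebraMap (PowerSeries ℤ) (FractionRing (PowerSeries ℤ))) :=
    IsFractionRing.injective _ _
  set ψ : PowerSeries ℤ →+* FractionRing (PowerSeries ℤ) := algebraMap _ _ with hψdef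
  have hq : ψ PowerSeries.X ≠ 0 := by
    intro h0
    rw [← map_zero ψ] at h0
    exact PowerSeries.X_ne_zero (hψ h0)
  refine dvd_W_of_ff hψ ?_
  obtain ⟨R, hR⟩ := lf_dvd (ψ := ψ) (Q := Q) hψ hq hx
  have hRdeg := lf_deg hR hc
  have hsig : ∀ N : ℕ, φ ψ ((-1) ^ N) ≠ 0 := by
    intro N
    rw [map_pow, map_neg, map_one]
    exact pow_ne_zero _ (neg_ne_zero.mpr one_ne_zero)
  set q : FractionRing (PowerSeries ℤ) := ψ PowerSeries.X with hqdef
  set a : FractionRing (PowerSeries ℤ) := (q ^ i0)⁻¹ with hadef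
  have hroot : R.eval a = 0 := by
    refine root_of_sum (M := M + 1) (E := fun m => (-1) ^ m * Eo ℓ (M + 1) i0 1 m)
      (Z := -((-1) ^ (M + 1) * Zo ℓ (M + 1) i0 1)) hψ hRdeg ?_ (R_eval hψ hR) ?_ ?_
    · rw [map_neg, neg_ne_zero, map_mul]
      exact mul_ne_zero (hsig _) (φ_Zo_ne hψ)
    · intro m hm
      rw [← den_mul_Eo hm 1, pow_one]
      ring
    · rw [← hsum]
      refine Finset.sum_congr rfl fun m _ => ?_
      ring
  obtain ⟨R', hR'⟩ := dvd_iff_isRoot.mpr hroot
  have hRdeg' : R'.natDegree ≤ M := by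
    by_cases hR0 : R' = 0
    · rw [hR0, natDegree_zero]; exact Nat.zero_le _
    rw [hR', (monic_X_sub_C a).natDegree_mul' hR0, natDegree_X_sub_C] at hRdeg
    omega
  have hRe' : ∀ m, R'.eval (q ^ (m + 1)) = (-q ^ i0 * ∏ i ∈ range ℓ, q ^ i) *
      (φ ψ (U Q m) / φ ψ ((∏ i ∈ range ℓ, (X ^ (m + 1 + i) - 1)) *
        (1 - X ^ (m + 1 + i0)))) := by
    intro m
    have h1 := R_eval hψ hR m
    rw [hR', eval_mul, eval_sub, eval_X, eval_C, ← hqdef] at h1
    have h7 : q ^ (m + 1) - a = -(q ^ i0)⁻¹ * φ ψ (1 - X ^ (m + 1 + i0)) := by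
      rw [map_sub, map_pow, map_one, φ_X, ← hqdef, neg_mul, mul_sub, mul_one,
        Nat.add_comm (m + 1) i0, pow_add q i0 (m + 1), ← mul_assoc,
        inv_mul_cancel₀ (pow_ne_zero _ hq), one_mul, neg_sub]
    have h8 : φ ψ (1 - X ^ (m + 1 + i0)) ≠ 0 := by
      rw [← neg_ne_zero, ← map_neg, neg_sub]
      exact φ_fac_ne hψ (by omega)
    have h9 : q ^ i0 ≠ 0 := pow_ne_zero _ hq
    have h10 : R'.eval (q ^ (m + 1)) = (-q ^ i0) * (φ ψ (1 - X ^ (m + 1 + i0)))⁻¹ *
        ((q ^ (m + 1) - a) * R'.eval (q ^ (m + 1))) := by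
      rw [h7]
      field_simp
    rw [h10, h1, map_mul, div_eq_mul_inv, div_eq_mul_inv, mul_inv]
    ring
  have hroot' : R'.eval a = 0 := by
    refine root_of_sum (M := M) (E := fun m => (-1) ^ m * Eo ℓ M i0 2 m)
      (Z := (-1) ^ M * Zo ℓ M i0 2) hψ hRdeg' ?_ hRe' ?_ ?_
    · rw [map_mul]
      exact mul_ne_zero (hsig _) (φ_Zo_ne hψ)
    · intro m hm
      rw [← den_mul_Eo hm 2]
      ring
    · rw [← hsum3]
      refine Finset.sum_congr rfl fun m _ => ?_
      ring
  have h1 : (X - C a) ∣ lf ψ ℓ := by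
    unfold lf
    exact Finset.dvd_prod_of_mem _ (mem_range.mpr hi0)
  rw [hR, hR', show (X - C a) ^ 3 = (X - C a) * ((X - C a) * (X - C a)) by ring]
  exact mul_dvd_mul h1 (mul_dvd_mul_left _ (dvd_iff_isRoot.mpr hroot'))

end Crit

end Pool.Agent.GaussPoset.Cl

end
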