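import Mathlib
import Pool.Agent.W_448zz_h61.Ns
import Pool.Agent.W_448zz_h61.M012
import Pool.Agent.W_448zz_h61.M017

/-! From `Pool.Agent.W_448cl_h67.ClA` -/

section

/-!
The bounded order-preserving maps of an up-set: recursion over the bound.
-/

namespace Pool.Agent.GaussPoset.Cl

set_option linter.unusedSectionVars false

open Polynomial Finset

universe u

variable {E : Type u} [Fintype E] [PartialOrder E] [DecidableEq E]

/-- up-sets -/
def Up (J : Finset E) : Prop := ∀ x ∈ J, ∀ y, x ≤ y → y ∈ J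

open Classical in
/-- the recursion -/
noncomputable def V : ℕ → Finset E → ℤ[X]
  | 0, _ => 1
  | m + 1, J => ∑ I ∈ J.powerset.filter Up, X ^ I.card * V m I

lemma V_zero (J : Finset E) : V 0 J = 1 := rfl

open Classical in
lemma V_succ (m : ℕ) (J : Finset E) :
    V (m + 1) J = ∑ I ∈ J.powerset.filter Up, X ^ I.card * V m I := rfl

open Classical in
/-- the support of a map -/
noncomputable def supp {m : ℕ} {J : Finset E} (σ : {x // x ∈ J} → Fin (m + 2)) : Finset E :=
  J.filter (fun x => ∃ h : x ∈ J, σ ⟨x, h⟩ ≠ 0)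

lemma mem_supp {m : ℕ} {J : Finset E} {σ : {x // x ∈ J} → Fin (m + 2)} {x : E} :
    x ∈ supp σ ↔ ∃ h : x ∈ J, σ ⟨x, h⟩ ≠ 0 := by
  classical
  unfold supp
  rw [mem_filter]
  exact ⟨fun h => h.2, fun h => ⟨h.choose, h⟩⟩

lemma supp_sub {m : ℕ} {J : Finset E} (σ : {x // x ∈ J} → Fin (m + 2)) : supp σ ⊆ J := by
  intro x hx
  obtain ⟨h, -⟩ := mem_supp.mp hx
  exact h

lemma supp_up {m : ℕ} {J : Finset E} (hJ : Up J) {σ : {x // x ∈ J} → Fin (m + 2)}
    (hσ : Monotone σ) : Up (supp σ) := by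
  intro x hx y hxy
  obtain ⟨h, h1⟩ := mem_supp.mp hx
  have hy := hJ x h y hxy
  refine mem_supp.mpr ⟨hy, fun h2 => h1 ?_⟩
  have h3 : σ ⟨x, h⟩ ≤ σ ⟨y, hy⟩ := hσ hxy
  rw [h2] at h3
  exact le_antisymm h3 (Fin.zero_le _)

/-- lifting a map from an up-set -/
def lift {m : ℕ} {J I : Finset E} (τ : {x // x ∈ I} → Fin (m + 1)) :
    {x // x ∈ J} → Fin (m + 2) :=
  fun x => if h : (x : E) ∈ I then (τ ⟨x, h⟩).succ else 0

lemma lift_mem {m : ℕ} {J I : Finset E} (τ : {x // x ∈ I} → Fin (m + 1)) {x : {x // x ∈ J}}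
    (h : (x : E) ∈ I) : (lift τ x : Fin (m + 2)) = (τ ⟨x, h⟩).succ := dif_pos h

lemma lift_not_mem {m : ℕ} {J I : Finset E} (τ : {x // x ∈ I} → Fin (m + 1))
    {x : {x // x ∈ J}} (h : (x : E) ∉ I) : (lift τ x : Fin (m + 2)) = 0 := dif_neg h

lemma supp_lift {m : ℕ} {J I : Finset E} (hI : I ⊆ J) (τ : {x // x ∈ I} → Fin (m + 1)) :
    supp (J := J) (lift τ) = I := by
  ext x
  rw [mem_supp]
  constructor
  · rintro ⟨h, h1⟩
    by_contra hx
    exact h1 (lift_not_mem τ (x := ⟨x, h⟩) hx)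
  · intro hx
    refine ⟨hI hx, ?_⟩
    rw [lift_mem τ (x := ⟨x, hI hx⟩) hx]
    exact Fin.succ_ne_zero _

lemma lift_mono {m : ℕ} {J I : Finset E} (hI : Up I) {τ : {x // x ∈ I} → Fin (m + 1)}
    (hτ : Monotone τ) : Monotone (lift (J := J) τ) := by
  intro x y hxy
  by_cases hx : (x : E) ∈ I
  · have hy : (y : E) ∈ I := hI x hx y hxy
    rw [lift_mem τ hx, lift_mem τ hy]
    exact Fin.succ_le_succ_iff.mpr (hτ (show (⟨x, hx⟩ : {x // x ∈ I}) ≤ ⟨y, hy⟩ from hxy))
  · rw [lift_not_mem τ hx]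
    exact Fin.zero_le _

lemma lift_sum {m : ℕ} {J I : Finset E} (hI : I ⊆ J) (τ : {x // x ∈ I} → Fin (m + 1)) :
    ∑ x : {x // x ∈ J}, ((lift τ x : Fin (m + 2)) : ℕ) = I.card + ∑ x : {x // x ∈ I}, (τ x : ℕ) := by
  classical
  have h1 : ∑ x : {x // x ∈ J}, ((lift τ x : Fin (m + 2)) : ℕ) =
      ∑ x ∈ J, (if h : x ∈ I then ((τ ⟨x, h⟩ : Fin (m + 1)) : ℕ) + 1 else 0) := by
    rw [← Finset.sum_coe_sort J]
    refine Finset.sum_congr rfl fun x _ => ?_
    by_cases hx : (x : E) ∈ I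
    · rw [lift_mem τ hx, dif_pos hx]
      rfl
    · rw [lift_not_mem τ hx, dif_neg hx]
      rfl
  have h2 : ∑ x ∈ J, (if h : x ∈ I then ((τ ⟨x, h⟩ : Fin (m + 1)) : ℕ) + 1 else 0) =
      ∑ x ∈ I, (if h : x ∈ I then ((τ ⟨x, h⟩ : Fin (m + 1)) : ℕ) + 1 else 0) := by
    refine (Finset.sum_subset hI fun x _ hx => ?_).symm
    rw [dif_neg hx]
  rw [h1, h2, ← Finset.sum_coe_sort I]
  have h3 : ∀ x : {x // x ∈ I}, (if h : (x : E) ∈ I then ((τ ⟨x, h⟩ : Fin (m + 1)) : ℕ) + 1
      else 0) = (τ x : ℕ) + 1 := by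
    intro x
    rw [dif_pos x.2]
  rw [Finset.sum_congr rfl fun x _ => h3 x, Finset.sum_add_distrib, add_comm]
  congr 1
  rw [Finset.sum_const, smul_eq_mul, mul_one, Finset.card_univ, Fintype.card_coe]

open Classical in
theorem U_succ {J : Finset E} (hJ : Up J) (m : ℕ) : U {x // x ∈ J} (m + 1) =
    ∑ I ∈ J.powerset.filter Up, X ^ I.card * U {x // x ∈ I} m := by
  unfold U
  rw [← Finset.sum_fiberwise_of_maps_to (g := fun σ => supp σ) (t := J.powerset.filter Up)]
  · refine Finset.sum_congr rfl fun I hI => ?_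
    rw [mem_filter, mem_powerset] at hI
    obtain ⟨hIJ, hIu⟩ := hI
    rw [Finset.mul_sum]
    symm
    refine Finset.sum_bij (fun τ _ => lift (J := J) τ) ?_ ?_ ?_ ?_
    · intro τ hτ
      rw [mem_filter] at hτ
      rw [mem_filter, mem_filter]
      exact ⟨⟨@Finset.mem_univ _ (_) _, lift_mono hIu hτ.2⟩,
        supp_lift hIJ τ⟩
    · intro τ _ τ' _ h
      funext x
      have h1 := congrFun h ⟨x, hIJ x.2⟩
      rw [lift_mem τ (x := ⟨x, hIJ x.2⟩) x.2, lift_mem τ' (x := ⟨x, hIJ x.2⟩) x.2] at h1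
      exact Fin.succ_injective _ h1
    · intro σ hσ
      rw [mem_filter, mem_filter] at hσ
      obtain ⟨⟨-, hm⟩, hs⟩ := hσ
      have hne : ∀ x : {x // x ∈ I}, σ ⟨x, hIJ x.2⟩ ≠ 0 := by
        intro x
        have h1 : (x : E) ∈ supp σ := by rw [hs]; exact x.2
        obtain ⟨h, h2⟩ := mem_supp.mp h1
        exact h2
      refine ⟨fun x => (σ ⟨x, hIJ x.2⟩).pred (hne x), ?_, ?_⟩
      · rw [mem_filter]
        refine ⟨@Finset.mem_univ _ (_) _, ?_⟩
        intro x y hxy
        exact Fin.pred_le_pred_iff.mpr (hm (show (⟨(x : E), hIJ x.2⟩ : {x // x ∈ J}) ≤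
          ⟨(y : E), hIJ y.2⟩ from hxy))
      · funext x
        by_cases hx : (x : E) ∈ I
        · rw [lift_mem _ hx]
          exact Fin.succ_pred _ _
        · rw [lift_not_mem _ hx]
          by_contra h0
          refine hx ?_
          rw [← hs]
          exact mem_supp.mpr ⟨x.2, fun h => h0 h.symm⟩
    · intro τ _
      rw [lift_sum hIJ, pow_add]
  · intro σ hσ
    rw [mem_filter] at hσ
    rw [mem_filter, mem_powerset]
    exact ⟨supp_sub σ, supp_up hJ hσ.2⟩

lemma U_zero_eq (P : Type u) [Fintype P] [PartialOrder P] : U P 0 = 1 := by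
  classical
  unfold U
  rw [Finset.sum_eq_single (fun _ => 0)]
  · have : (∑ x : P, (((fun _ => 0 : P → Fin (0 + 1)) x : Fin (0 + 1)) : ℕ)) = 0 :=
      Finset.sum_eq_zero fun x _ => rfl
    rw [this, pow_zero]
  · intro σ _ h
    refine absurd ?_ h
    funext x
    have := (σ x).2
    exact Fin.ext (by rw [Fin.val_zero]; omega)
  · intro h
    refine absurd ?_ h
    rw [mem_filter]
    exact ⟨@Finset.mem_univ _ (_) _, fun _ _ _ => le_rfl⟩

/-- the values of an up-set -/
theorem U_eq_V {J : Finset E} (hJ : Up J) (m : ℕ) : U {x // x ∈ J} m = V m J := by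
  classical
  induction m generalizing J with
  | zero => rw [U_zero_eq, V_zero]
  | succ m ih =>
    rw [U_succ hJ, V_succ]
    refine Finset.sum_congr rfl fun I hI => ?_
    rw [mem_filter] at hI
    rw [ih hI.2]

end Pool.Agent.GaussPoset.Cl

end

/-! From `Pool.Agent.W_448cl_h67.ClC` -/

section

/-!
Polynomial identities by substitution of a large number.
-/

namespace Pool.Agent.GaussPoset.Cl

set_option linter.unusedSectionVars false

open Polynomial Finset

/-- the coefficients of `p` are dominated by those of `P` -/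
def Dom (p : ℤ[X]) (P : ℕ[X]) : Prop := ∀ k, (p.coeff k).natAbs ≤ P.coeff k

lemma Dom.add {p q : ℤ[X]} {P Q : ℕ[X]} (h : Dom p P) (h' : Dom q Q) : Dom (p + q) (P + Q) := by
  intro k
  rw [coeff_add, coeff_add]
  exact (Int.natAbs_add_le _ _).trans (Nat.add_le_add (h k) (h' k))

lemma Dom.neg {p : ℤ[X]} {P : ℕ[X]} (h : Dom p P) : Dom (-p) P := by
  intro k
  rw [coeff_neg, Int.natAbs_neg]
  exact h k

lemma Dom.sub {p q : ℤ[X]} {P Q : ℕ[X]} (h : Dom p P) (h' : Dom q Q) : Dom (p - q) (P + Q) := by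
  rw [sub_eq_add_neg]
  exact h.add h'.neg

lemma Dom.zero : Dom 0 0 := fun k => by simp

lemma Dom.sum {ι : Type*} (s : Finset ι) {p : ι → ℤ[X]} {P : ι → ℕ[X]}
    (h : ∀ i ∈ s, Dom (p i) (P i)) : Dom (∑ i ∈ s, p i) (∑ i ∈ s, P i) := by
  classical
  induction s using Finset.induction_on with
  | empty => simpa using Dom.zero
  | insert a s ha ih =>
    rw [Finset.sum_insert ha, Finset.sum_insert ha]
    exact (h a (mem_insert_self a s)).add (ih fun i hi => h i (mem_insert_of_mem hi))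

lemma Dom.mul {p q : ℤ[X]} {P Q : ℕ[X]} (h : Dom p P) (h' : Dom q Q) : Dom (p * q) (P * Q) := by
  intro k
  rw [coeff_mul, coeff_mul]
  refine (Int.natAbs_sum_le _ _).trans (Finset.sum_le_sum fun x _ => ?_)
  rw [Int.natAbs_mul]
  exact Nat.mul_le_mul (h _) (h' _)

lemma Dom.X_pow (n : ℕ) : Dom (X ^ n) (X ^ n) := by
  intro k
  rw [coeff_X_pow, coeff_X_pow]
  split_ifs <;> simp

lemma Dom.one : Dom 1 1 := by
  have := Dom.X_pow 0
  simpa using this

lemma Dom.prod {ι : Type*} (s : Finset ι) {p : ι → ℤ[X]} {P : ι → ℕ[X]}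
    (h : ∀ i ∈ s, Dom (p i) (P i)) : Dom (∏ i ∈ s, p i) (∏ i ∈ s, P i) := by
  classical
  induction s using Finset.induction_on with
  | empty => simpa using Dom.one
  | insert a s ha ih =>
    rw [Finset.prod_insert ha, Finset.prod_insert ha]
    exact (h a (mem_insert_self a s)).mul (ih fun i hi => h i (mem_insert_of_mem hi))

lemma Dom.cast (P : ℕ[X]) : Dom (P.map (Nat.castRingHom ℤ)) P := by
  intro k
  rw [coeff_map]
  simp

lemma coeff_le_eval_one (P : ℕ[X]) (k : ℕ) : P.coeff k ≤ P.eval 1 := by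
  rw [eval_eq_sum, Polynomial.sum]
  simp only [one_pow, mul_one]
  by_cases hk : k ∈ P.support
  · exact Finset.single_le_sum (f := fun i => P.coeff i) (fun _ _ => Nat.zero_le _) hk
  · rw [notMem_support_iff.mp hk]
    exact Nat.zero_le _

/-- substitution of a large number -/
theorem eq_zero_of_eval {p : ℤ[X]} {P : ℕ[X]} (h : Dom p P) {B : ℕ} (hB : P.eval 1 < B)
    (h0 : p.eval (B : ℤ) = 0) : p = 0 := by
  by_contra hne
  -- the lowest coefficient
  set k := p.natTrailingDegree with hk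
  have hc : p.coeff k ≠ 0 := by
    have := trailingCoeff_nonzero_iff_nonzero.mpr hne
    rwa [trailingCoeff] at this
  obtain ⟨g, hg⟩ : X ^ k ∣ p := by
    rw [X_pow_dvd_iff]
    intro d hd
    exact coeff_eq_zero_of_lt_natTrailingDegree hd
  have hBpos : (B : ℤ) ≠ 0 := by
    have : 0 < B := by omega
    exact_mod_cast this.ne'
  have h1 : g.eval (B : ℤ) = 0 := by
    rw [hg, eval_mul, eval_pow, eval_X] at h0
    exact (mul_eq_zero.mp h0).resolve_left (pow_ne_zero _ hBpos)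
  have h2 : p.coeff k = g.coeff 0 := by
    rw [hg]
    have := coeff_X_pow_mul g k 0
    rwa [Nat.zero_add] at this
  have h3 : (B : ℤ) ∣ g.coeff 0 := by
    have h4 : (B : ℤ) - 0 ∣ g.eval (B : ℤ) - g.eval 0 := sub_dvd_eval_sub _ _ _
    rw [h1, sub_zero, zero_sub, dvd_neg, ← coeff_zero_eq_eval_zero] at h4
    exact h4
  have h5 : (g.coeff 0).natAbs < B := by
    rw [← h2]
    exact ((h k).trans (coeff_le_eval_one P k)).trans_lt hB
  rw [h2] at hc
  have h6 := Int.natAbs_dvd_natAbs.mpr h3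
  rw [Int.natAbs_natCast] at h6
  have h7 := Nat.le_of_dvd (Int.natAbs_pos.mpr hc) h6
  omega

end Pool.Agent.GaussPoset.Cl

end

/-! From `Pool.Agent.W_448cl_h67.ClD` -/

section

/-!
The evaluator.
-/

namespace Pool.Agent.GaussPoset.Cl

set_option linter.unusedSectionVars false

open Polynomial Finset

/-- number of bits below `n` -/
def pc : ℕ → ℕ → ℕ
  | 0, _ => 0
  | n + 1, m => pc n m + (if m.testBit n then 1 else 0)

section Spec

variable {R S : Type*} [CommSemiring R] [CommSemiring S]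

/-- sum of the values of the subsets of `J` -/
def row (J : ℕ) : List (ℕ × R) → R
  | [] => 0
  | (I, v) :: l => match Nat.beq (Nat.land I J) I with
    | true => v + row J l
    | false => row J l

/-- the states -/
def stR (n : ℕ) (b : R) (Us : List ℕ) : ℕ → List (ℕ × R)
  | 0 => Us.map (fun J => (J, if J = 0 then 1 else 0))
  | m + 1 => Us.map (fun J => (J, b ^ pc n J * row J (stR n b Us m)))

lemma row_map (f : R →+* S) (J : ℕ) (l : List (ℕ × R)) :
    f (row J l) = row J (l.map (fun x => (x.1, f x.2))) := by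
  induction l with
  | nil => simp [row]
  | cons x l ih =>
    obtain ⟨I, v⟩ := x
    simp only [row, List.map_cons]
    cases Nat.beq (Nat.land I J) I
    · exact ih
    · simp only [map_add, ih]

lemma stR_map (f : R →+* S) (n : ℕ) (b : R) (Us : List ℕ) (m : ℕ) :
    (stR n b Us m).map (fun x => (x.1, f x.2)) = stR n (f b) Us m := by
  induction m with
  | zero =>
    simp only [stR, List.map_map]
    refine List.map_congr_left fun J _ => ?_
    simp only [Function.comp_apply]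
    split_ifs
    · rw [map_one]
    · rw [map_zero]
  | succ m ih =>
    simp only [stR, List.map_map]
    refine List.map_congr_left fun J _ => ?_
    simp only [Function.comp_apply, map_mul, map_pow, row_map, ih]

/-- values -/
def uR (n : ℕ) (b : R) (Us : List ℕ) (J m : ℕ) : R := row J (stR n b Us m)

lemma uR_map (f : R →+* S) (n : ℕ) (b : R) (Us : List ℕ) (J m : ℕ) :
    f (uR n b Us J m) = uR n (f b) Us J m := by
  unfold uR
  rw [row_map, stR_map]

lemma stR_form (n : ℕ) (b : R) (Us : List ℕ) (m : ℕ) :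
    ∃ v : ℕ → R, stR n b Us m = Us.map (fun J => (J, v J)) := by
  cases m with
  | zero => exact ⟨_, rfl⟩
  | succ m => exact ⟨_, rfl⟩

end Spec

/-! ### the fast version -/

/-- `row` for numbers -/
def rowN (J : ℕ) : List (ℕ × ℕ) → ℕ
  | [] => 0
  | (I, v) :: l => match Nat.beq (Nat.land I J) I with
    | true => Nat.add v (rowN J l)
    | false => rowN J l

lemma rowN_eq (J : ℕ) (l : List (ℕ × ℕ)) : rowN J l = row J l := by
  induction l with
  | nil => rfl
  | cons x l ih =>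
    obtain ⟨I, v⟩ := x
    simp only [rowN, row]
    cases Nat.beq (Nat.land I J) I
    · exact ih
    · show v + rowN J l = v + row J l
      rw [ih]

/-- `B ^ pc` -/
def ws (n B : ℕ) (Us : List ℕ) : List (ℕ × ℕ) := Us.map (fun I => (I, B ^ pc n I))

/-- the initial state -/
def ini (Us : List ℕ) : List (ℕ × ℕ) := Us.map (fun J => (J, if J = 0 then 1 else 0))

/-- the next state; `Us` is decreasing -/
def stp : List (ℕ × ℕ) → List (ℕ × ℕ) → List (ℕ × ℕ)
  | (J, w) :: W, p :: st => (J, Nat.mul w (rowN J (p :: st))) :: stp W st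
  | _, _ => []

lemma stp_eq (w v : ℕ → ℕ) (l : List ℕ) (hl : l.Pairwise (fun a b => b < a)) :
    stp (l.map (fun J => (J, w J))) (l.map (fun J => (J, v J))) =
      l.map (fun J => (J, w J * row J (l.map (fun J => (J, v J))))) := by
  induction l with
  | nil => rfl
  | cons a l ih =>
    rw [List.pairwise_cons] at hl
    rw [List.map_cons, List.map_cons, List.map_cons, stp, ih hl.2, rowN_eq]
    congr 1
    refine List.map_congr_left fun J hJ => ?_
    have h1 : Nat.beq (Nat.land a J) a = false := by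
      rw [Bool.eq_false_iff]
      intro h
      have h2 : Nat.land a J = a := Nat.eq_of_beq_eq_true h
      have h3 : a &&& J ≤ J := Nat.and_le_right
      have h4 := hl.1 J hJ
      rw [show a &&& J = a from h2] at h3
      omega
    simp only [row, h1]

/-- the list of the states -/
def hist (W : List (ℕ × ℕ)) : ℕ → List (ℕ × ℕ) → List (List (ℕ × ℕ))
  | 0, st => [st]
  | m + 1, st => st :: hist W m (stp W st)

lemma stp_stR (n B : ℕ) {Us : List ℕ} (hs : Us.Pairwise (fun a b => b < a)) (m : ℕ) :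
    stp (ws n B Us) (stR n B Us m) = stR n B Us (m + 1) := by
  obtain ⟨v, hv⟩ := stR_form n B Us m
  rw [stR, hv]
  exact stp_eq (fun I => B ^ pc n I) v Us hs

lemma hist_eq (n B : ℕ) {Us : List ℕ} (hs : Us.Pairwise (fun a b => b < a)) (m m0 : ℕ) :
    hist (ws n B Us) m (stR n B Us m0) = (List.range' m0 (m + 1)).map (stR n B Us) := by
  induction m generalizing m0 with
  | zero => simp [hist]
  | succ m ih =>
    rw [hist, stp_stR n B hs, ih, List.range'_succ (n := m + 1)]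
    rfl

/-- the value of `J` -/
def lk (J : ℕ) : List (ℕ × ℕ) → ℕ
  | [] => 0
  | (I, v) :: l => match Nat.beq I J with
    | true => v
    | false => lk J l

lemma lk_eq (J : ℕ) (v : ℕ → ℕ) (l : List ℕ) (hJ : J ∈ l) :
    lk J (l.map (fun J => (J, v J))) = v J := by
  induction l with
  | nil => exact absurd hJ List.not_mem_nil
  | cons a l ih =>
    rw [List.map_cons, lk]
    by_cases h : a = J
    · rw [h, Nat.beq_refl]
    · have h1 : Nat.beq a J = false := by
        rw [Bool.eq_false_iff]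
        exact fun h2 => h (Nat.eq_of_beq_eq_true h2)
      rw [h1]
      exact ih ((List.mem_cons.mp hJ).resolve_left (Ne.symm h))

lemma lk_stR (n B : ℕ) {Us : List ℕ} {J : ℕ} (hJ : J ∈ Us) (m : ℕ) :
    lk J (stR n B Us (m + 1)) = B ^ pc n J * uR n B Us J m := by
  rw [stR]
  exact lk_eq J (fun J => B ^ pc n J * row J (stR n B Us m)) Us hJ

/-- products -/
def prodN : ℕ → (ℕ → ℕ) → ℕ
  | 0, _ => 1
  | n + 1, f => Nat.mul (prodN n f) (f n)

lemma prodN_eq (n : ℕ) (f : ℕ → ℕ) : prodN n f = ∏ i ∈ range n, f i := by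
  induction n with
  | zero => rfl
  | succ n ih => rw [Finset.prod_range_succ, ← ih]; rfl

/-- the cofactors -/
def eo (B ℓ M i0 e m : ℕ) : ℕ :=
  B ^ tri (M - m) * prodN (M - m) (fun k => B ^ (m + ℓ + 1 + k) - 1) *
    prodN m (fun k => B ^ (M - m + 1 + k) - 1) *
    (prodN m (fun k => B ^ (k + 1 + i0) - 1) *
      prodN (M - m) (fun k => B ^ (m + 1 + (k + 1) + i0) - 1)) ^ e

/-- dominating polynomials -/
noncomputable def eQ (ℓ M i0 e m : ℕ) : ℕ[X] :=
  X ^ tri (M - m) * (∏ k ∈ range (M - m), (X ^ (m + ℓ + 1 + k) + 1)) *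
    (∏ k ∈ range m, (X ^ (M - m + 1 + k) + 1)) *
    ((∏ k ∈ range m, (X ^ (k + 1 + i0) + 1)) *
      ∏ k ∈ range (M - m), (X ^ (m + 1 + (k + 1) + i0) + 1)) ^ e

lemma eo_eval {B : ℕ} (hB : 1 ≤ B) (ℓ M i0 e m : ℕ) :
    (Eo ℓ M i0 e m).eval (B : ℤ) = (eo B ℓ M i0 e m : ℤ) := by
  have h1 : ∀ a, 1 ≤ B ^ a := fun a => Nat.one_le_pow _ _ hB
  have h2 : ∀ (n : ℕ) (f : ℕ → ℕ), ((∏ k ∈ range n, (B ^ f k - 1) : ℕ) : ℤ) =
      ∏ k ∈ range n, ((B : ℤ) ^ f k - 1) := by
    intro n f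
    rw [Nat.cast_prod]
    refine Finset.prod_congr rfl fun k _ => ?_
    rw [Nat.cast_sub (h1 _)]
    push_cast
    rfl
  unfold Eo eo
  rw [prodN_eq, prodN_eq, prodN_eq, prodN_eq]
  simp only [eval_mul, eval_prod, eval_sub, eval_pow, eval_X, eval_one, Nat.cast_mul,
    Nat.cast_pow, h2]

lemma eo_dom (ℓ M i0 e m : ℕ) : Dom (Eo ℓ M i0 e m) (eQ ℓ M i0 e m) := by
  have h1 : ∀ (n : ℕ) (f : ℕ → ℕ), Dom (∏ k ∈ range n, ((X : ℤ[X]) ^ f k - 1))
      (∏ k ∈ range n, (X ^ f k + 1)) := fun n f =>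
    Dom.prod _ fun k _ => (Dom.X_pow _).sub Dom.one
  have h2 : ∀ (f : ℤ[X]) (g : ℕ[X]), Dom f g → ∀ k, Dom (f ^ k) (g ^ k) := by
    intro f g h k
    induction k with
    | zero => rw [pow_zero, pow_zero]; exact Dom.one
    | succ k ih => rw [pow_succ, pow_succ]; exact ih.mul h
  unfold Eo eQ
  exact (((Dom.X_pow _).mul (h1 _ _)).mul (h1 _ _)).mul (h2 _ _ ((h1 _ _).mul (h1 _ _)) _)

lemma eQ_eval {m M : ℕ} (hm : m ≤ M) (ℓ i0 e : ℕ) :
    (eQ ℓ M i0 e m).eval 1 = 2 ^ ((1 + e) * M) := by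
  unfold eQ
  simp only [eval_mul, eval_prod, eval_add, eval_pow, eval_X, eval_one, one_pow,
    Nat.reduceAdd, Finset.prod_const, Finset.card_range, one_mul]
  rw [← pow_add, ← pow_add, ← pow_mul, ← pow_add, Nat.sub_add_cancel hm,
    show m + (M - m) = M by omega]
  congr 1
  ring

/-! ### alternating sums -/

/-- the alternating sum vanishes -/
def alt (ee : ℕ → ℕ) (J : ℕ) : ℕ → List (List (ℕ × ℕ)) → ℕ → ℕ → Bool
  | _, [], a, b => Nat.beq a b
  | m, st :: l, a, b => alt ee J (m + 1) l b (Nat.add a (Nat.mul (lk J st) (ee m)))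

lemma alt_eq (ee : ℕ → ℕ) (J : ℕ) (st : ℕ → List (ℕ × ℕ)) (len : ℕ) : ∀ m m' a b,
    alt ee J m ((List.range' m' len).map st) a b = true →
    ((a : ℤ) - b) + ∑ k ∈ range len, (-1) ^ k * ((lk J (st (m' + k)) : ℤ) * ee (m + k)) = 0 := by
  induction len with
  | zero =>
    intro m m' a b h
    have h1 : a = b := Nat.eq_of_beq_eq_true h
    simp [h1]
  | succ len ih =>
    intro m m' a b h
    rw [List.range'_succ, List.map_cons] at h
    have h1 := ih (m + 1) (m' + 1) b (a + lk J (st m') * ee m) h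
    rw [Finset.sum_range_succ', pow_zero, one_mul, Nat.add_zero, Nat.add_zero]
    have h2 : ∀ k ∈ range len, (-1 : ℤ) ^ (k + 1) * ((lk J (st (m' + (k + 1))) : ℤ) *
        ee (m + (k + 1))) = -((-1) ^ k * ((lk J (st (m' + 1 + k)) : ℤ) * ee (m + 1 + k))) := by
      intro k _
      rw [show m' + (k + 1) = m' + 1 + k by omega, show m + (k + 1) = m + 1 + k by omega,
        pow_succ]
      ring
    rw [Finset.sum_congr rfl h2, Finset.sum_neg_distrib]
    push_cast at h1
    linarith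

/-- the first `n` entries -/
def take {α : Type} : ℕ → List α → List α
  | 0, _ => []
  | _ + 1, [] => []
  | n + 1, a :: l => a :: take n l

lemma take_range' {α : Type} (f : ℕ → α) (n : ℕ) : ∀ m len, n ≤ len →
    take n ((List.range' m len).map f) = (List.range' m n).map f := by
  induction n with
  | zero => intro m len _; rfl
  | succ n ih =>
    intro m len h
    obtain ⟨len, rfl⟩ : ∃ l, len = l + 1 := ⟨len - 1, by omega⟩
    rw [List.range'_succ, List.range'_succ, List.map_cons, List.map_cons, take,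
      ih (m + 1) len (by omega)]

/-- the check for one set; `x = (J, ℓ, M)`, `h` = the states from `1` on -/
def chk1 (B i0 e : ℕ) (h : List (List (ℕ × ℕ))) (x : ℕ × ℕ × ℕ) : Bool :=
  alt (eo B x.2.1 x.2.2 i0 e) x.1 0 (take (x.2.2 + 1) h) 0 0

/-- the sum of the first values -/
def sumU (J : ℕ) : List (List (ℕ × ℕ)) → ℕ
  | [] => 0
  | st :: l => Nat.add (lk J st) (sumU J l)

lemma sumU_eq (J : ℕ) (f : ℕ → List (ℕ × ℕ)) (n : ℕ) : ∀ m,
    sumU J ((List.range' m n).map f) = ∑ k ∈ range n, lk J (f (m + k)) := by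
  induction n with
  | zero => intro m; rfl
  | succ n ih =>
    intro m
    rw [List.range'_succ, List.map_cons, sumU, ih, Finset.sum_range_succ', Nat.add_zero]
    show lk J (f m) + _ = _
    rw [add_comm]
    congr 1
    refine Finset.sum_congr rfl fun k _ => ?_
    rw [show m + (k + 1) = m + 1 + k by omega]

/-- the size check; `h` = the states at `1` -/
def chk2 (B e : ℕ) (h : List (List (ℕ × ℕ))) (x : ℕ × ℕ × ℕ) : Bool :=
  Nat.blt (sumU x.1 (take (x.2.2 + 1) h) * 2 ^ ((1 + e) * x.2.2)) B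

/-- the identity, polynomials -/
theorem poly_zero {B i0 e n K J ℓ M : ℕ} {Us : List ℕ} (hJ : J ∈ Us) (hM : M ≤ K)
    (h1 : chk1 B i0 e ((List.range' 1 (K + 1)).map (stR n B Us)) (J, ℓ, M) = true)
    (h2 : chk2 B e ((List.range' 1 (K + 1)).map (stR n 1 Us)) (J, ℓ, M) = true) :
    ∑ m ∈ range (M + 1), (-1) ^ m * ((uR n (X : ℕ[X]) Us J m).map (Nat.castRingHom ℤ) *
      Eo ℓ M i0 e m) = 0 := by
  have h2' : (∑ m ∈ range (M + 1), uR n 1 Us J m) * 2 ^ ((1 + e) * M) < B := by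
    unfold chk2 at h2
    simp only at h2
    rw [take_range' _ _ _ _ (by omega), sumU_eq] at h2
    have h3 := Nat.blt_eq.mp h2
    refine lt_of_le_of_lt (le_of_eq ?_) h3
    congr 1
    refine Finset.sum_congr rfl fun k _ => ?_
    rw [Nat.add_comm 1 k, lk_stR _ _ hJ, one_pow, one_mul]
  have hB : 1 ≤ B := by omega
  have hdom : Dom (∑ m ∈ range (M + 1), (-1) ^ m *
      ((uR n (X : ℕ[X]) Us J m).map (Nat.castRingHom ℤ) * Eo ℓ M i0 e m))
      (∑ m ∈ range (M + 1), (uR n (X : ℕ[X]) Us J m * eQ ℓ M i0 e m)) := by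
    refine Dom.sum _ fun m _ => ?_
    have h3 := Dom.mul (Dom.cast (uR n (X : ℕ[X]) Us J m)) (eo_dom ℓ M i0 e m)
    rcases Nat.even_or_odd m with hm | hm
    · rw [hm.neg_one_pow, one_mul]; exact h3
    · rw [hm.neg_one_pow, neg_one_mul]; exact h3.neg
  refine eq_zero_of_eval hdom (B := B) ?_ ?_
  · rw [eval_finsetSum]
    refine lt_of_le_of_lt (le_of_eq ?_) h2'
    rw [Finset.sum_mul]
    refine Finset.sum_congr rfl fun m hm => ?_
    rw [mem_range] at hm
    rw [eval_mul, eQ_eval (by omega)]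
    congr 1
    have := uR_map (evalRingHom 1) n (X : ℕ[X]) Us J m
    rw [coe_evalRingHom, eval_X] at this
    exact this
  · unfold chk1 at h1
    simp only at h1
    rw [take_range' _ _ _ _ (by omega)] at h1
    have h3 := alt_eq _ _ _ _ _ _ _ _ h1
    rw [Nat.cast_zero, sub_zero, zero_add] at h3
    have hBz : (B : ℤ) ^ pc n J ≠ 0 := pow_ne_zero _ (by positivity)
    refine (mul_eq_zero.mp ?_).resolve_left hBz
    rw [← h3, eval_finsetSum, Finset.mul_sum]
    refine Finset.sum_congr rfl fun m _ => ?_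
    have h4 := uR_map (evalRingHom (B : ℕ)) n (X : ℕ[X]) Us J m
    rw [coe_evalRingHom, eval_X] at h4
    have h6 : ((uR n (X : ℕ[X]) Us J m).map (Nat.castRingHom ℤ)).eval (B : ℤ) =
        ((uR n B Us J m : ℕ) : ℤ) := by
      rw [← h4, eval_map]
      have h5 := Polynomial.eval₂_at_natCast (p := uR n (X : ℕ[X]) Us J m) (Nat.castRingHom ℤ) B
      simpa using h5
    rw [eval_mul, eval_pow, eval_neg, eval_one, eval_mul, h6, eo_eval hB, Nat.add_comm 1 m,
      lk_stR _ _ hJ, Nat.zero_add]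
    push_cast
    ring

end Pool.Agent.GaussPoset.Cl

end

/-! From `Pool.Agent.W_448cl_h67.ClE` -/

section

/-!
Coded up-sets.
-/

namespace Pool.Agent.GaussPoset.Cl

set_option linter.unusedSectionVars false

open Polynomial Finset

universe u

/-! ### the code -/

variable {P : Type u} [Fintype P] [PartialOrder P] [DecidableEq P]

/-- a coded part of the poset: `c a`, `a < n`; covers `cv a`, levels `lv a` -/
structure Cod (n : ℕ) (cv lv : ℕ → ℕ) (c : ℕ → P) : Prop where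
  inj : ∀ a < n, ∀ b < n, c a = c b → a = b
  cov : ∀ a < n, ∀ y, c a ⋖ y ↔ ∃ b < n, (cv a).testBit b = true ∧ c b = y
  lev : ∀ a < n, GaussPoset.lev (c a) = lv a

/-- the set with the code `J` -/
def toS (n : ℕ) (c : ℕ → P) (J : ℕ) : Finset P :=
  ((range n).filter (fun a => J.testBit a = true)).image c

lemma mem_toS {n : ℕ} {c : ℕ → P} {J : ℕ} {x : P} :
    x ∈ toS n c J ↔ ∃ a < n, J.testBit a = true ∧ c a = x := by
  unfold toS
  rw [mem_image]
  constructor
  · rintro ⟨a, ha, h⟩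
    rw [mem_filter, mem_range] at ha
    exact ⟨a, ha.1, ha.2, h⟩
  · rintro ⟨a, h1, h2, h3⟩
    exact ⟨a, mem_filter.mpr ⟨mem_range.mpr h1, h2⟩, h3⟩

lemma pc_eq (n J : ℕ) : pc n J = ((range n).filter (fun a => J.testBit a = true)).card := by
  induction n with
  | zero => rfl
  | succ n ih =>
    rw [pc, ih, Finset.range_add_one, Finset.filter_insert]
    split_ifs with h
    · rw [Finset.card_insert_of_notMem (by simp)]
    · rfl

/-- up-sets from covers -/
lemma up_of_cov {I : Finset P} (h : ∀ x ∈ I, ∀ y, x ⋖ y → y ∈ I) : Up I := by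
  have key : ∀ k : ℕ, ∀ x ∈ I, GaussPoset.lev x = k → ∀ y, x ≤ y → y ∈ I := by
    intro k
    induction k using Nat.strong_induction_on with
    | _ k ih =>
      intro x hx hk y hxy
      rcases eq_or_lt_of_le hxy with h1 | h1
      · rw [← h1]; exact hx
      · obtain ⟨v, hv, hvy⟩ := Hul.exists_cov h1
        exact ih _ (by rw [← hk]; exact lev_strictAnti hv.1) v (h x hx v hv) rfl y hvy
  exact fun x hx y hxy => key _ x hx rfl y hxy

/-- the check of the list of codes -/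
structure UsOK (N : ℕ) (cv : ℕ → ℕ) (Us : List ℕ) : Prop where
  zero : 0 ∈ Us
  sorted : Us.Pairwise (fun a b => b < a)
  valid : ∀ J ∈ Us, ∀ a < N, J.testBit a = true → Nat.land (cv a) J = cv a
  clos : ∀ J ∈ Us, ∀ a < N, J < 2 ^ a → Nat.land (cv a) J = cv a → J + 2 ^ a ∈ Us
  cv : ∀ a < N, cv a < 2 ^ a

lemma UsOK.nodup {N : ℕ} {cv : ℕ → ℕ} {Us : List ℕ} (h : UsOK N cv Us) : Us.Nodup :=
  h.sorted.imp fun h1 h2 => by omega

section Code

variable {n N : ℕ} {cv lv : ℕ → ℕ} {c : ℕ → P} {Us : List ℕ}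

lemma land_iff {I J n : ℕ} (hI : I < 2 ^ n) :
    Nat.land I J = I ↔ ∀ a < n, I.testBit a = true → J.testBit a = true := by
  constructor
  · intro h a _ ha
    have h1 : (I &&& J).testBit a = true := by
      rw [show I &&& J = I from h]; exact ha
    rw [Nat.testBit_land, Bool.and_eq_true] at h1
    exact h1.2
  · intro h
    show I &&& J = I
    refine Nat.eq_of_testBit_eq fun a => ?_
    rw [Nat.testBit_land]
    by_cases ha : a < n
    · cases h1 : I.testBit a
      · rfl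
      · rw [h a ha h1]; rfl
    · rw [Nat.testBit_lt_two_pow (lt_of_lt_of_le hI (Nat.pow_le_pow_right (by norm_num)
        (by omega)))]
      rfl

lemma Cod.mem_iff (C : Cod n cv lv c) {J a : ℕ} (ha : a < n) :
    c a ∈ toS n c J ↔ J.testBit a = true := by
  rw [mem_toS]
  constructor
  · rintro ⟨b, hb, h1, h2⟩
    rw [← C.inj b hb a ha h2]; exact h1
  · intro h
    exact ⟨a, ha, h, rfl⟩

lemma Cod.card (C : Cod n cv lv c) (J : ℕ) : (toS n c J).card = pc n J := by
  rw [pc_eq]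
  unfold toS
  rw [Finset.card_image_of_injOn]
  intro a ha b hb h
  rw [Finset.mem_coe, mem_filter, mem_range] at ha hb
  exact C.inj a ha.1 b hb.1 h

lemma Cod.sub_iff (C : Cod n cv lv c) {I J : ℕ} (hI : I < 2 ^ n) :
    Nat.land I J = I ↔ toS n c I ⊆ toS n c J := by
  rw [land_iff hI]
  constructor
  · intro h x hx
    obtain ⟨a, ha, h1, rfl⟩ := mem_toS.mp hx
    exact (C.mem_iff ha).mpr (h a ha h1)
  · intro h a ha h1
    exact (C.mem_iff ha).mp (h ((C.mem_iff ha).mpr h1))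

lemma Cod.inj' (C : Cod n cv lv c) {I J : ℕ} (hI : I < 2 ^ n) (hJ : J < 2 ^ n)
    (h : toS n c I = toS n c J) : I = J := by
  have h1 := (C.sub_iff hI).mpr h.subset
  have h2 := (C.sub_iff hJ).mpr h.symm.subset
  have h3 : Nat.land I J = Nat.land J I := Nat.land_comm I J
  rw [h1, h2] at h3
  exact h3

lemma Cod.up (C : Cod n cv lv c) (hU : UsOK N cv Us) (hn : n ≤ N) {J : ℕ} (hJ : J ∈ Us) :
    Up (toS n c J) := by
  refine up_of_cov fun x hx y hxy => ?_
  obtain ⟨a, ha, h1, rfl⟩ := mem_toS.mp hx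
  obtain ⟨b, hb, h2, rfl⟩ := (C.cov a ha y).mp hxy
  rw [C.mem_iff hb]
  have h3 := hU.valid J hJ a (by omega) h1
  have h4 := (land_iff (n := a) (hU.cv a (by omega))).mp h3
  refine h4 b ?_ h2
  by_contra hba
  rw [Nat.testBit_lt_two_pow (lt_of_lt_of_le (hU.cv a (by omega))
    (Nat.pow_le_pow_right (by norm_num) (by omega)))] at h2
  exact absurd h2 (by simp)

/-- every valid code is in the list -/
lemma UsOK.mem (hU : UsOK N cv Us) {k : ℕ} (hk : k ≤ N) {J : ℕ} (hJ : J < 2 ^ k)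
    (hv : ∀ a < k, J.testBit a = true → Nat.land (cv a) J = cv a) : J ∈ Us := by
  induction k generalizing J with
  | zero =>
    have : J = 0 := by
      rw [pow_zero] at hJ
      omega
    rw [this]
    exact hU.zero
  | succ k ih =>
    by_cases h : J.testBit k = true
    · have h1 : 2 ^ k ≤ J := Nat.ge_two_pow_of_testBit h
      obtain ⟨I, rfl⟩ : ∃ I, J = I + 2 ^ k := ⟨J - 2 ^ k, by omega⟩
      have hI : I < 2 ^ k := by
        rw [pow_succ] at hJ
        omega
      have hbit : ∀ a < k, (I + 2 ^ k).testBit a = I.testBit a := by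
        intro a ha
        rw [Nat.add_comm]
        exact Nat.testBit_two_pow_add_gt ha I
      have hsub : ∀ a ≤ k, Nat.land (cv a) (I + 2 ^ k) = cv a → Nat.land (cv a) I = cv a := by
        intro a ha h2
        rw [land_iff (n := k) (lt_of_lt_of_le (hU.cv a (by omega))
          (Nat.pow_le_pow_right (by norm_num) ha))] at h2 ⊢
        intro b hb h3
        rw [← hbit b hb]
        exact h2 b hb h3
      refine hU.clos I (ih (by omega) hI fun a ha h2 => ?_) k (by omega) hI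
        (hsub k le_rfl (hv k (by omega) h))
      exact hsub a (by omega) (hv a (by omega) (by rw [hbit a ha]; exact h2))
    · have h1 : J < 2 ^ k := by
        by_contra hcon
        have h2 : J / 2 ^ k = 1 := by
          rw [pow_succ] at hJ
          exact Nat.div_eq_of_lt_le (by omega) (by omega)
        refine h ?_
        rw [Nat.testBit_eq_decide_div_mod_eq, h2]
        rfl
      exact ih (by omega) h1 fun a ha h2 => hv a (by omega) h2

/-- every up-set has a code -/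
lemma Cod.exists_code (C : Cod n cv lv c) (hU : UsOK N cv Us) (hn : n ≤ N) {I : Finset P}
    (hI : ∀ x ∈ I, ∃ a < n, c a = x) (hup : Up I) : ∃ J ∈ Us, J < 2 ^ n ∧ toS n c J = I := by
  classical
  set J : ℕ := Nat.ofBits (fun a : Fin n => decide (c a ∈ I)) with hJ
  have hJn : J < 2 ^ n := Nat.ofBits_lt_two_pow _
  have hbit : ∀ a < n, J.testBit a = true ↔ c a ∈ I := by
    intro a ha
    rw [hJ, Nat.testBit_ofBits_lt _ _ ha]
    simp
  refine ⟨J, ?_, hJn, ?_⟩
  · refine hU.mem hn hJn fun a ha h1 => ?_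
    rw [land_iff (n := a) (hU.cv a (by omega))]
    intro b hb h2
    rw [hbit b (by omega)]
    exact hup _ ((hbit a ha).mp h1) _ ((C.cov a ha (c b)).mpr ⟨b, by omega, h2, rfl⟩).le
  · ext x
    rw [mem_toS]
    constructor
    · rintro ⟨a, ha, h1, rfl⟩
      exact (hbit a ha).mp h1
    · intro hx
      obtain ⟨a, ha, rfl⟩ := hI x hx
      exact ⟨a, ha, (hbit a ha).mpr hx, rfl⟩

lemma pc_stable {n N J : ℕ} (hn : n ≤ N) (hJ : J < 2 ^ n) : pc N J = pc n J := by
  rw [pc_eq, pc_eq]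
  congr 1
  ext a
  rw [mem_filter, mem_filter, mem_range, mem_range]
  refine ⟨fun h => ⟨?_, h.2⟩, fun h => ⟨by omega, h.2⟩⟩
  by_contra hcon
  rw [Nat.testBit_lt_two_pow (lt_of_lt_of_le hJ (Nat.pow_le_pow_right (by norm_num)
    (by omega)))] at h
  exact absurd h.2 (by simp)

lemma row_list {R : Type*} [CommSemiring R] (J : ℕ) (f : ℕ → R) (l : List ℕ) (hl : l.Nodup) :
    row J (l.map (fun I => (I, f I))) =
      ∑ I ∈ l.toFinset.filter (fun I => Nat.land I J = I), f I := by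
  induction l with
  | nil => simp [row]
  | cons I l ih =>
    rw [List.nodup_cons] at hl
    rw [List.map_cons, List.toFinset_cons, Finset.filter_insert, row]
    have ih' := ih hl.2
    cases h : Nat.beq (Nat.land I J) I
    · rw [if_neg, ← ih']
      intro h1
      rw [h1] at h
      have : Nat.beq I I = true := Nat.beq_refl I
      rw [this] at h
      exact absurd h (by simp)
    · have h1 : Nat.land I J = I := Nat.eq_of_beq_eq_true h
      rw [if_pos h1, Finset.sum_insert (fun h2 => hl.1 (List.mem_toFinset.mp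
        (mem_filter.mp h2).1)), ← ih']

/-- the values of the up-sets -/
theorem Cod.V_eq (C : Cod n cv lv c) (hU : UsOK N cv Us) (hn : n ≤ N) (m : ℕ) :
    ∀ J ∈ Us, J < 2 ^ n → V m (toS n c J) =
      (uR N (X : ℕ[X]) Us J m).map (Nat.castRingHom ℤ) := by
  classical
  induction m with
  | zero =>
    intro J _ _
    have h1 : uR N (X : ℕ[X]) Us J 0 = ∑ I ∈ Us.toFinset.filter
        (fun I => Nat.land I J = I), (if I = 0 then 1 else 0) := by
      unfold uR
      simp only [stR]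
      exact row_list J (fun I => if I = 0 then 1 else 0) Us hU.nodup
    have h2 : (0 : ℕ) ∈ Us.toFinset.filter (fun I => Nat.land I J = I) := by
      rw [mem_filter, List.mem_toFinset]
      exact ⟨hU.zero, Nat.zero_and J⟩
    rw [h1, V_zero, Finset.sum_ite_eq' _ 0, if_pos h2, Polynomial.map_one]
  | succ m ih =>
    intro J hJ hJn
    have h1 : uR N (X : ℕ[X]) Us J (m + 1) = ∑ I ∈ Us.toFinset.filter
        (fun I => Nat.land I J = I), X ^ pc N I * uR N X Us I m := by
      unfold uR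
      simp only [stR]
      exact row_list J (fun I => X ^ pc N I * row I (stR N X Us m)) Us hU.nodup
    rw [h1, V_succ, Polynomial.map_sum]
    symm
    have hlt : ∀ I, Nat.land I J = I → I < 2 ^ n := by
      intro I h
      have h2 : I &&& J ≤ J := Nat.and_le_right
      rw [show I &&& J = I from h] at h2
      omega
    refine Finset.sum_bij (fun I _ => toS n c I) ?_ ?_ ?_ ?_
    · intro I hI
      rw [mem_filter, List.mem_toFinset] at hI
      rw [mem_filter, mem_powerset]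
      exact ⟨(C.sub_iff (hlt I hI.2)).mp hI.2, C.up hU hn hI.1⟩
    · intro I hI I' hI' h
      rw [mem_filter] at hI hI'
      exact C.inj' (hlt I hI.2) (hlt I' hI'.2) h
    · intro I hI
      rw [mem_filter, mem_powerset] at hI
      obtain ⟨I', h2, h3, h4⟩ := C.exists_code hU hn (I := I) (fun x hx => by
        obtain ⟨a, ha, -, h⟩ := mem_toS.mp (hI.1 hx)
        exact ⟨a, ha, h⟩) hI.2
      refine ⟨I', ?_, h4⟩
      rw [mem_filter, List.mem_toFinset]
      refine ⟨h2, (C.sub_iff h3).mpr ?_⟩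
      rw [h4]
      exact hI.1
    · intro I hI
      rw [mem_filter, List.mem_toFinset] at hI
      have h2 := hlt I hI.2
      rw [Polynomial.map_mul, Polynomial.map_pow, Polynomial.map_X, C.card, ← pc_stable hn h2,
        ih I hI.1 h2]

/-- **Exact divisibility from the checks.** -/
theorem Cod.clean (C : Cod n cv lv c) (hU : UsOK N cv Us) (hn : n ≤ N) {B i0 K J ℓ M : ℕ}
    (hJ : J ∈ Us) (hJn : J < 2 ^ n) (hM : M ≤ K)
    (h1 : chk1 B i0 1 ((List.range' 1 (K + 1)).map (stR N B Us)) (J, ℓ, M) = true)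
    (h2 : chk2 B 1 ((List.range' 1 (K + 1)).map (stR N 1 Us)) (J, ℓ, M) = true)
    (hlev : ∃ a < n, J.testBit a = true ∧ ℓ ≤ lv a + 1) (hcard : pc N J ≤ ℓ + M)
    (hi0 : i0 < ℓ) :
    (1 + X : Polynomial (PowerSeries ℤ)) ^ 2 ∣ W {x : P // x ∈ toS n c J} i0 := by
  have hup := C.up hU hn hJ
  have h5 : ∀ m, U {x : P // x ∈ toS n c J} m =
      (uR N (X : ℕ[X]) Us J m).map (Nat.castRingHom ℤ) := fun m => by
    rw [U_eq_V hup, C.V_eq hU hn m J hJ hJn]
  refine dvd_of_poly (ℓ := ℓ) (M := M) ?_ ?_ hi0 ?_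
  · intro i hi
    obtain ⟨a, ha, hb, hla⟩ := hlev
    refine ⟨⟨c a, (C.mem_iff ha).mpr hb⟩, ?_⟩
    rw [lev_subtype (p := fun x => x ∈ toS n c J) (fun x y hxy hx => hup x hx y hxy)]
    rw [C.lev a ha]
    omega
  · rw [Fintype.card_coe, C.card, ← pc_stable hn hJn]
    exact hcard
  · simp only [h5]
    exact poly_zero hJ hM h1 h2

/-- **Third zero from the checks.** -/
theorem Cod.clean3 (C : Cod n cv lv c) (hU : UsOK N cv Us) (hn : n ≤ N) {B i0 K J ℓ M : ℕ}
    (hJ : J ∈ Us) (hJn : J < 2 ^ n) (hM : M + 1 ≤ K)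
    (h1 : chk1 B i0 1 ((List.range' 1 (K + 1)).map (stR N B Us)) (J, ℓ, M + 1) = true)
    (h2 : chk2 B 1 ((List.range' 1 (K + 1)).map (stR N 1 Us)) (J, ℓ, M + 1) = true)
    (h3 : chk1 B i0 2 ((List.range' 1 (K + 1)).map (stR N B Us)) (J, ℓ, M) = true)
    (h4 : chk2 B 2 ((List.range' 1 (K + 1)).map (stR N 1 Us)) (J, ℓ, M) = true)
    (hlev : ∃ a < n, J.testBit a = true ∧ ℓ ≤ lv a + 1) (hcard : pc N J ≤ ℓ + (M + 1))
    (hi0 : i0 < ℓ) :
    (1 + X : Polynomial (PowerSeries ℤ)) ^ 3 ∣ W {x : P // x ∈ toS n c J} i0 := by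
  have hup := C.up hU hn hJ
  have h5 : ∀ m, U {x : P // x ∈ toS n c J} m =
      (uR N (X : ℕ[X]) Us J m).map (Nat.castRingHom ℤ) := fun m => by
    rw [U_eq_V hup, C.V_eq hU hn m J hJ hJn]
  refine dvd3_of_poly (ℓ := ℓ) (M := M) ?_ ?_ hi0 ?_ ?_
  · intro i hi
    obtain ⟨a, ha, hb, hla⟩ := hlev
    refine ⟨⟨c a, (C.mem_iff ha).mpr hb⟩, ?_⟩
    rw [lev_subtype (p := fun x => x ∈ toS n c J) (fun x y hxy hx => hup x hx y hxy)]
    rw [C.lev a ha]
    omega
  · rw [Fintype.card_coe, C.card, ← pc_stable hn hJn]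
    exact hcard
  · simp only [h5]
    exact poly_zero hJ hM h1 h2
  · simp only [h5]
    exact poly_zero hJ (by omega) h3 h4

end Code

end Pool.Agent.GaussPoset.Cl

end

/-! From `Pool.Agent.W_448cl_h67.ClF` -/

section

/-!
Checks for one window of a coded poset.
-/

namespace Pool.Agent.GaussPoset.Cl

set_option linter.unusedSectionVars false

open Polynomial Finset

universe u

/-- decreasing lists -/
def desc : List ℕ → Bool
  | [] => true
  | [_] => true
  | a :: b :: l => Nat.blt b a && desc (b :: l)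

lemma desc_cons (l : List ℕ) : ∀ a, desc (a :: l) = true →
    (∀ b ∈ l, b < a) ∧ l.Pairwise (fun a b => b < a) := by
  induction l with
  | nil => intro a _; exact ⟨by simp, List.Pairwise.nil⟩
  | cons b l ih =>
    intro a h
    rw [desc, Bool.and_eq_true, Nat.blt_eq] at h
    obtain ⟨h1, h2⟩ := ih b h.2
    refine ⟨?_, List.pairwise_cons.mpr ⟨h1, h2⟩⟩
    intro c hc
    rcases List.mem_cons.mp hc with h3 | h3
    · rw [h3]; exact h.1
    · exact lt_trans (h1 c h3) h.1

lemma desc_pairwise {l : List ℕ} (h : desc l = true) : l.Pairwise (fun a b => b < a) := by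
  cases l with
  | nil => exact List.Pairwise.nil
  | cons a l => exact List.pairwise_cons.mpr (desc_cons l a h)

/-- the check of the list of the up-sets -/
def usChk (N : ℕ) (cv : ℕ → ℕ) (Us : List ℕ) : Bool :=
  Us.elem 0 && desc Us &&
  (Us.all fun J => (List.range N).all fun a => !J.testBit a || Nat.beq (Nat.land (cv a) J) (cv a)) &&
  (Us.all fun J => (List.range N).all fun a => Nat.ble (2 ^ a) J ||
    !(Nat.beq (Nat.land (cv a) J) (cv a)) || Us.elem (J + 2 ^ a)) &&
  ((List.range N).all fun a => Nat.blt (cv a) (2 ^ a))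

lemma usOK_of_chk {N : ℕ} {cv : ℕ → ℕ} {Us : List ℕ} (h : usChk N cv Us = true) :
    UsOK N cv Us := by
  unfold usChk at h
  simp only [Bool.and_eq_true] at h
  obtain ⟨⟨⟨⟨h1, h0⟩, h2⟩, h3⟩, h4⟩ := h
  rw [List.all_eq_true] at h2 h3 h4
  refine ⟨List.elem_iff.mp h1, desc_pairwise h0, ?_, ?_, ?_⟩
  · intro J hJ a ha hb
    have := h2 J hJ
    rw [List.all_eq_true] at this
    have h5 := this a (List.mem_range.mpr ha)
    rw [hb] at h5
    exact Nat.eq_of_beq_eq_true (by simpa using h5)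
  · intro J hJ a ha hlt hl
    have := h3 J hJ
    rw [List.all_eq_true] at this
    have h5 := this a (List.mem_range.mpr ha)
    rw [hl, Nat.beq_refl] at h5
    have h6 : Nat.ble (2 ^ a) J = false := by
      rw [Bool.eq_false_iff]
      intro h7
      exact absurd (Nat.le_of_ble_eq_true h7) (by omega)
    rw [h6] at h5
    exact List.elem_iff.mp (by simpa using h5)
  · intro a ha
    exact Nat.blt_eq.mp (h4 a (List.mem_range.mpr ha))

/-- the check of one window, order `b`: two or three -/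
def winChk (N B K : ℕ) (lv : ℕ → ℕ) (Us : List ℕ) (i0 bm : ℕ) (L : List (ℕ × ℕ × ℕ)) : Bool :=
  ((fun h => L.all (chk1 B i0 1 h)) (hist (ws N B Us) K (stp (ws N B Us) (ini Us)))) &&
  ((fun h => L.all (chk2 B 1 h)) (hist (ws N 1 Us) K (stp (ws N 1 Us) (ini Us)))) &&
  (L.all fun x => Nat.ble x.2.2 K && Nat.blt i0 x.2.1 && Nat.ble (pc N x.1) (x.2.1 + x.2.2) &&
    (List.range N).any fun a => x.1.testBit a && Nat.ble x.2.1 (lv a + 1)) &&
  (Us.all fun J => !(Nat.beq (Nat.land bm J) bm) || L.any fun x => Nat.beq x.1 J)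

/-- the check of one window, order three -/
def winChk3 (N B K : ℕ) (lv : ℕ → ℕ) (Us : List ℕ) (i0 bm : ℕ) (L : List (ℕ × ℕ × ℕ)) : Bool :=
  ((fun h => L.all fun x => chk1 B i0 1 h (x.1, x.2.1, x.2.2 + 1) && chk1 B i0 2 h x)
    (hist (ws N B Us) K (stp (ws N B Us) (ini Us)))) &&
  ((fun h => L.all fun x => chk2 B 1 h (x.1, x.2.1, x.2.2 + 1) && chk2 B 2 h x)
    (hist (ws N 1 Us) K (stp (ws N 1 Us) (ini Us)))) &&
  (L.all fun x => Nat.ble (x.2.2 + 1) K && Nat.blt i0 x.2.1 &&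
    Nat.ble (pc N x.1) (x.2.1 + (x.2.2 + 1)) &&
    (List.range N).any fun a => x.1.testBit a && Nat.ble x.2.1 (lv a + 1)) &&
  (Us.all fun J => !(Nat.beq (Nat.land bm J) bm) || L.any fun x => Nat.beq x.1 J)

variable {P : Type u} [Fintype P] [PartialOrder P] [DecidableEq P]
variable {n N : ℕ} {cv lv : ℕ → ℕ} {c : ℕ → P} {Us : List ℕ}

lemma hist_one (hU : UsOK N cv Us) (B K : ℕ) :
    hist (ws N B Us) K (stp (ws N B Us) (ini Us)) = (List.range' 1 (K + 1)).map (stR N B Us) := by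
  have h1 : ini Us = stR N B Us 0 := rfl
  rw [h1, stp_stR N B hU.sorted, hist_eq N B hU.sorted]

/-- **Order two for all up-sets above the base.** -/
theorem Cod.clean_of (C : Cod n cv lv c) (hU : UsOK N cv Us) (hn : n ≤ N) {B i0 K bm : ℕ}
    {L : List (ℕ × ℕ × ℕ)} (h : winChk N B K lv Us i0 bm L = true) {I : Finset P}
    (hI : ∀ x ∈ I, ∃ a < n, c a = x) (hup : Up I) (hbn : bm < 2 ^ n)
    (hb : ∀ a < n, bm.testBit a = true → c a ∈ I) :
    (1 + X : Polynomial (PowerSeries ℤ)) ^ 2 ∣ W {x : P // x ∈ I} i0 := by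
  unfold winChk at h
  simp only [Bool.and_eq_true] at h
  obtain ⟨⟨⟨h1, h2⟩, h3⟩, h4⟩ := h
  rw [hist_one hU] at h1 h2
  rw [List.all_eq_true] at h1 h2 h3 h4
  obtain ⟨J, hJ, hJn, rfl⟩ := C.exists_code hU hn hI hup
  have h5 := h4 J hJ
  have h6 : Nat.land bm J = bm := by
    rw [land_iff hbn]
    intro a ha h7
    exact (C.mem_iff ha).mp (hb a ha h7)
  rw [h6, Nat.beq_refl] at h5
  have h7 : (L.any fun x => Nat.beq x.1 J) = true := by simpa using h5
  rw [List.any_eq_true] at h7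
  obtain ⟨⟨J', ℓ, M⟩, hx, hxJ⟩ := h7
  have h8 : J' = J := Nat.eq_of_beq_eq_true hxJ
  subst h8
  have h9 := h3 _ hx
  simp only [Bool.and_eq_true] at h9
  obtain ⟨⟨⟨h10, h11⟩, h12⟩, h13⟩ := h9
  rw [List.any_eq_true] at h13
  obtain ⟨a, ha, hab⟩ := h13
  rw [Bool.and_eq_true] at hab
  have hM : M ≤ K := Nat.le_of_ble_eq_true h10
  refine C.clean hU hn hJ hJn hM (h1 _ hx) (h2 _ hx) ⟨a, ?_, hab.1,
    Nat.le_of_ble_eq_true hab.2⟩ (Nat.le_of_ble_eq_true h12) (Nat.blt_eq.mp h11)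
  by_contra hcon
  rw [Nat.testBit_lt_two_pow (lt_of_lt_of_le hJn (Nat.pow_le_pow_right (by norm_num)
    (by omega)))] at hab
  exact absurd hab.1 (by simp)

/-- **Order three for all up-sets above the base.** -/
theorem Cod.clean_of3 (C : Cod n cv lv c) (hU : UsOK N cv Us) (hn : n ≤ N) {B i0 K bm : ℕ}
    {L : List (ℕ × ℕ × ℕ)} (h : winChk3 N B K lv Us i0 bm L = true) {I : Finset P}
    (hI : ∀ x ∈ I, ∃ a < n, c a = x) (hup : Up I) (hbn : bm < 2 ^ n)
    (hb : ∀ a < n, bm.testBit a = true → c a ∈ I) :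
    (1 + X : Polynomial (PowerSeries ℤ)) ^ 3 ∣ W {x : P // x ∈ I} i0 := by
  unfold winChk3 at h
  simp only [Bool.and_eq_true] at h
  obtain ⟨⟨⟨h1, h2⟩, h3⟩, h4⟩ := h
  rw [hist_one hU] at h1 h2
  rw [List.all_eq_true] at h1 h2 h3 h4
  obtain ⟨J, hJ, hJn, rfl⟩ := C.exists_code hU hn hI hup
  have h5 := h4 J hJ
  have h6 : Nat.land bm J = bm := by
    rw [land_iff hbn]
    intro a ha h7
    exact (C.mem_iff ha).mp (hb a ha h7)
  rw [h6, Nat.beq_refl] at h5
  have h7 : (L.any fun x => Nat.beq x.1 J) = true := by simpa using h5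
  rw [List.any_eq_true] at h7
  obtain ⟨⟨J', ℓ, M⟩, hx, hxJ⟩ := h7
  have h8 : J' = J := Nat.eq_of_beq_eq_true hxJ
  subst h8
  have h9 := h3 _ hx
  have g1 := h1 _ hx
  have g2 := h2 _ hx
  simp only [Bool.and_eq_true] at h9 g1 g2
  obtain ⟨⟨⟨h10, h11⟩, h12⟩, h13⟩ := h9
  rw [List.any_eq_true] at h13
  obtain ⟨a, ha, hab⟩ := h13
  rw [Bool.and_eq_true] at hab
  have hM : M + 1 ≤ K := Nat.le_of_ble_eq_true h10
  refine C.clean3 hU hn hJ hJn hM g1.1 g2.1 g1.2 g2.2 ⟨a, ?_, hab.1,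
    Nat.le_of_ble_eq_true hab.2⟩ (Nat.le_of_ble_eq_true h12) (Nat.blt_eq.mp h11)
  by_contra hcon
  rw [Nat.testBit_lt_two_pow (lt_of_lt_of_le hJn (Nat.pow_le_pow_right (by norm_num)
    (by omega)))] at hab
  exact absurd hab.1 (by simp)

end Pool.Agent.GaussPoset.Cl

end

/-! From `Pool.Agent.W_448cl_h67.ClG` -/

section

/-!
The E6 strip: checks.
-/

namespace Pool.Agent.GaussPoset.Cl

/-- the up-sets of the E6 strip -/
def E6us : List ℕ := [65535, 32767, 16383, 8191, 6143, 4095, 3071, 2047, 1535, 1407, 1375, 1023, 511, 383, 351, 255, 127, 95, 63, 47, 31, 23, 15, 7, 3, 1, 0]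

/-- the covers -/
def E6cv : List ℕ := [0, 1, 2, 4, 4, 8, 24, 96, 64, 384, 256, 512, 1536, 6144, 8192, 16384]

/-- the levels -/
def E6lv : List ℕ := [0, 1, 2, 3, 3, 4, 4, 5, 5, 6, 6, 7, 7, 8, 9, 10]

theorem E6_us : UsOK 16 (fun a => E6cv.getD a 0) E6us :=
  usOK_of_chk (by decide +kernel)

/-- window 3 -/
def E6L3 : List (ℕ × ℕ × ℕ) := [(1375, 7, 1), (1407, 7, 2), (1535, 7, 3), (2047, 7, 4), (4095, 8, 4), (6143, 8, 4), (8191, 8, 5), (16383, 9, 5), (32767, 10, 5), (65535, 11, 5)]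

theorem E6_win3 : winChk 16 (2 ^ 50) 5 (fun a => E6lv.getD a 0) E6us 3 1375 E6L3 = true := by
  decide +kernel

/-- window 4 -/
def E6L4 : List (ℕ × ℕ × ℕ) := [(6143, 8, 4), (8191, 8, 5), (16383, 9, 5), (32767, 10, 5), (65535, 11, 5)]

theorem E6_win4 : winChk 16 (2 ^ 50) 5 (fun a => E6lv.getD a 0) E6us 4 6143 E6L4 = true := by
  decide +kernel

/-- window 5 -/
def E6L5 : List (ℕ × ℕ × ℕ) := [(16383, 9, 5), (32767, 10, 5), (65535, 11, 5)]

theorem E6_win5 : winChk 16 (2 ^ 50) 5 (fun a => E6lv.getD a 0) E6us 5 16383 E6L5 = true := by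
  decide +kernel

/-- window 6 -/
def E6L6 : List (ℕ × ℕ × ℕ) := [(32767, 10, 5), (65535, 11, 5)]

theorem E6_win6 : winChk 16 (2 ^ 50) 5 (fun a => E6lv.getD a 0) E6us 6 32767 E6L6 = true := by
  decide +kernel

/-- window 7 -/
def E6L7 : List (ℕ × ℕ × ℕ) := [(65535, 11, 5)]

theorem E6_win7 : winChk 16 (2 ^ 50) 5 (fun a => E6lv.getD a 0) E6us 7 65535 E6L7 = true := by
  decide +kernel

end Pool.Agent.GaussPoset.Cl

end

/-! From `Pool.Agent.W_448cl_h67.ClH` -/

section

/-!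
The E7 strip: checks.
-/

namespace Pool.Agent.GaussPoset.Cl

/-- the up-sets of the E7 strip -/
def E7us : List ℕ := [134217727, 67108863, 33554431, 16777215, 8388607, 6291455, 5767167, 4194303, 2097151, 1572863, 1048575, 786431, 720895, 704511, 524287, 393215, 262143, 196607, 180223, 131071, 98303, 94207, 65535, 49151, 32767, 28671, 24575, 20479, 19455, 19199, 19135, 16383, 12287, 8191, 6143, 4095, 3071, 2815, 2751, 2047, 1023, 767, 703, 511, 255, 191, 127, 95, 63, 47, 31, 15, 7, 3, 1, 0]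

/-- the covers -/
def E7cv : List ℕ := [0, 1, 2, 4, 8, 8, 16, 48, 192, 128, 768, 512, 1024, 3072, 2048, 12288, 24576, 32768, 98304, 131072, 393216, 1572864, 1048576, 6291456, 8388608, 16777216, 33554432]

/-- the levels -/
def E7lv : List ℕ := [0, 1, 2, 3, 4, 4, 5, 5, 6, 6, 7, 7, 8, 8, 8, 9, 9, 10, 10, 11, 11, 12, 12, 13, 14, 15, 16]

theorem E7_us : UsOK 27 (fun a => E7cv.getD a 0) E7us :=
  usOK_of_chk (by decide +kernel)

/-- window 4 -/
def E7L4 : List (ℕ × ℕ × ℕ) := [(19135, 9, 1), (19199, 9, 2), (19455, 9, 3), (20479, 9, 4), (24575, 9, 5), (28671, 9, 5), (32767, 9, 6), (65535, 10, 6), (94207, 10, 5), (98303, 10, 6), (131071, 10, 7), (196607, 11, 6), (262143, 11, 7), (393215, 11, 7), (524287, 11, 8), (720895, 12, 6), (786431, 12, 7), (1048575, 12, 8), (1572863, 12, 8), (2097151, 12, 9), (4194303, 13, 9), (5767167, 13, 8), (6291455, 13, 9), (8388607, 13, 10), (16777215, 14, 10), (33554431, 15, 10), (67108863, 16, 10), (134217727, 17, 10)]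

theorem E7_win4 : winChk 27 (2 ^ 100) 10 (fun a => E7lv.getD a 0) E7us 4 19135 E7L4 = true := by
  decide +kernel

/-- window 5 -/
def E7L5 : List (ℕ × ℕ × ℕ) := [(94207, 10, 5), (98303, 10, 6), (131071, 10, 7), (262143, 11, 7), (393215, 11, 7), (524287, 11, 8), (786431, 12, 7), (1048575, 12, 8), (1572863, 12, 8), (2097151, 12, 9), (4194303, 13, 9), (5767167, 13, 8), (6291455, 13, 9), (8388607, 13, 10), (16777215, 14, 10), (33554431, 15, 10), (67108863, 16, 10), (134217727, 17, 10)]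

theorem E7_win5 : winChk 27 (2 ^ 100) 10 (fun a => E7lv.getD a 0) E7us 5 94207 E7L5 = true := by
  decide +kernel

/-- window 6 -/
def E7L6 : List (ℕ × ℕ × ℕ) := [(393215, 11, 7), (524287, 11, 8), (1048575, 12, 8), (1572863, 12, 8), (2097151, 12, 9), (4194303, 13, 9), (5767167, 13, 8), (6291455, 13, 9), (8388607, 13, 10), (16777215, 14, 10), (33554431, 15, 10), (67108863, 16, 10), (134217727, 17, 10)]

theorem E7_win6 : winChk 27 (2 ^ 100) 10 (fun a => E7lv.getD a 0) E7us 6 393215 E7L6 = true := by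
  decide +kernel

/-- window 7 -/
def E7L7 : List (ℕ × ℕ × ℕ) := [(1572863, 12, 8), (2097151, 12, 9), (4194303, 13, 9), (5767167, 13, 8), (6291455, 13, 9), (8388607, 13, 10), (16777215, 14, 10), (33554431, 15, 10), (67108863, 16, 10), (134217727, 17, 10)]

theorem E7_win7 : winChk 27 (2 ^ 100) 10 (fun a => E7lv.getD a 0) E7us 7 1572863 E7L7 = true := by
  decide +kernel

theorem E7_win8 : winChk3 27 (2 ^ 100) 10 (fun a => E7lv.getD a 0) E7us 8 134217727
    [(134217727, 17, 9)] = true := by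
  decide +kernel

end Pool.Agent.GaussPoset.Cl

end

/-! From `Pool.Agent.W_448dd_h67.DdC` -/

section

/-!
The first pole of coded up-sets.
-/

namespace Pool.Agent.GaussPoset.Dd

set_option linter.unusedSectionVars false

open Polynomial Finset Cl

universe u

/-! ### reading the lowest coefficient -/

lemma X_pow_dvd_of_eval {p : ℤ[X]} {P : ℕ[X]} (h : Dom p P) {B N : ℕ} (hB : P.eval 1 < B)
    (h0 : (B : ℤ) ^ N ∣ p.eval (B : ℤ)) : X ^ N ∣ p := by
  by_contra hcon
  have hne : p ≠ 0 := by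
    rintro rfl
    exact hcon (dvd_zero _)
  set k := p.natTrailingDegree with hk
  have hc : p.coeff k ≠ 0 := by
    have := trailingCoeff_nonzero_iff_nonzero.mpr hne
    rwa [trailingCoeff] at this
  have hkN : k < N := by
    by_contra hkN
    refine hcon ?_
    rw [X_pow_dvd_iff]
    intro d hd
    exact coeff_eq_zero_of_lt_natTrailingDegree (by omega)
  obtain ⟨g, hg⟩ : X ^ k ∣ p := by
    rw [X_pow_dvd_iff]
    intro d hd
    exact coeff_eq_zero_of_lt_natTrailingDegree hd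
  have hBpos : (B : ℤ) ≠ 0 := by
    have : 0 < B := by omega
    exact_mod_cast this.ne'
  have h1 : (B : ℤ) ∣ g.eval (B : ℤ) := by
    rw [hg, eval_mul, eval_pow, eval_X] at h0
    obtain ⟨d, hd⟩ := Nat.exists_eq_add_of_lt hkN
    rw [hd, Nat.add_assoc, pow_add] at h0
    exact (dvd_pow_self _ (by omega)).trans
      ((mul_dvd_mul_iff_left (pow_ne_zero _ hBpos)).mp h0)
  have h2 : p.coeff k = g.coeff 0 := by
    rw [hg]
    have := coeff_X_pow_mul g k 0
    rwa [Nat.zero_add] at this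
  have h3 : (B : ℤ) ∣ g.coeff 0 := by
    have h4 : (B : ℤ) - 0 ∣ g.eval (B : ℤ) - g.eval 0 := sub_dvd_eval_sub _ _ _
    rw [sub_zero] at h4
    have h5 := dvd_sub h1 h4
    rw [sub_sub_cancel] at h5
    rwa [coeff_zero_eq_eval_zero]
  have h5 : (g.coeff 0).natAbs < B := by
    rw [← h2]
    exact ((h k).trans (coeff_le_eval_one P k)).trans_lt hB
  rw [h2] at hc
  have h6 := Int.natAbs_dvd_natAbs.mpr h3
  rw [Int.natAbs_natCast] at h6
  have h7 := Nat.le_of_dvd (Int.natAbs_pos.mpr hc) h6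
  omega

lemma coeff_of_eval {p : ℤ[X]} {P : ℕ[X]} (h : Dom p P) {B N : ℕ} {c : ℕ}
    (hB : P.eval 1 + c < B)
    (h0 : (B : ℤ) ^ (N + 1) ∣ p.eval (B : ℤ) - c * (B : ℤ) ^ N) :
    X ^ N ∣ p ∧ p.coeff N = c := by
  have hBpos : (B : ℤ) ≠ 0 := by
    have : 0 < B := by omega
    exact_mod_cast this.ne'
  have h1 : X ^ N ∣ p := by
    refine X_pow_dvd_of_eval h (B := B) (by omega) ?_
    have h2 : (B : ℤ) ^ N ∣ p.eval (B : ℤ) - c * (B : ℤ) ^ N :=
      (pow_dvd_pow _ (by omega)).trans h0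
    exact (dvd_sub_left (Dvd.intro_left _ rfl)).mp h2
  refine ⟨h1, ?_⟩
  obtain ⟨g, hg⟩ := h1
  have h2 : p.coeff N = g.coeff 0 := by
    rw [hg]
    have := coeff_X_pow_mul g N 0
    rwa [Nat.zero_add] at this
  have h3 : (B : ℤ) ∣ g.eval (B : ℤ) - c := by
    rw [hg, eval_mul, eval_pow, eval_X, pow_succ, mul_comm (c : ℤ), ← mul_sub] at h0
    exact (mul_dvd_mul_iff_left (pow_ne_zero _ hBpos)).mp h0
  have h4 : (B : ℤ) ∣ g.coeff 0 - c := by
    have h4 : (B : ℤ) - 0 ∣ g.eval (B : ℤ) - g.eval 0 := sub_dvd_eval_sub _ _ _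
    rw [sub_zero] at h4
    have h5 := dvd_sub h3 h4
    have h6 : g.eval (B : ℤ) - c - (g.eval (B : ℤ) - g.eval 0) = g.eval 0 - c := by ring
    rw [h6] at h5
    rwa [coeff_zero_eq_eval_zero]
  rw [h2]
  have h5 : (g.coeff 0).natAbs ≤ P.eval 1 := by
    rw [← h2]
    exact (h N).trans (coeff_le_eval_one P N)
  by_contra hcon
  have h6 := Int.natAbs_dvd_natAbs.mpr h4
  rw [Int.natAbs_natCast] at h6
  have h7 := Nat.le_of_dvd (Int.natAbs_pos.mpr (sub_ne_zero.mpr hcon)) h6
  have h8 : (g.coeff 0 - (c : ℤ)).natAbs ≤ (g.coeff 0).natAbs + c := by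
    have := Int.natAbs_sub_le (g.coeff 0) c
    rwa [Int.natAbs_natCast] at this
  omega

/-! ### the check -/

/-- the alternating sum as a pair -/
def altP (ee : ℕ → ℕ) (J : ℕ) : ℕ → List (List (ℕ × ℕ)) → ℕ → ℕ → ℕ × ℕ
  | _, [], a, b => (a, b)
  | m, st :: l, a, b => altP ee J (m + 1) l b (Nat.add a (Nat.mul (lk J st) (ee m)))

lemma altP_eq (ee : ℕ → ℕ) (J : ℕ) (st : ℕ → List (ℕ × ℕ)) (len : ℕ) : ∀ m m' a b,
    (((altP ee J m ((List.range' m' len).map st) a b).1 : ℤ) -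
      (altP ee J m ((List.range' m' len).map st) a b).2) = (-1) ^ len *
    (((a : ℤ) - b) + ∑ k ∈ range len, (-1) ^ k * ((lk J (st (m' + k)) : ℤ) * ee (m + k))) := by
  induction len with
  | zero =>
    intro m m' a b
    simp [altP]
  | succ len ih =>
    intro m m' a b
    rw [List.range'_succ, List.map_cons, altP]
    rw [ih (m + 1) (m' + 1) b (Nat.add a (Nat.mul (lk J (st m')) (ee m)))]
    rw [Finset.sum_range_succ', pow_zero, one_mul, Nat.add_zero, Nat.add_zero]
    have h2 : ∀ k ∈ range len, (-1 : ℤ) ^ (k + 1) * ((lk J (st (m' + (k + 1))) : ℤ) *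
        ee (m + (k + 1))) = -((-1) ^ k * ((lk J (st (m' + 1 + k)) : ℤ) * ee (m + 1 + k))) := by
      intro k _
      rw [show m' + (k + 1) = m' + 1 + k by omega, show m + (k + 1) = m + 1 + k by omega,
        pow_succ]
      ring
    rw [Finset.sum_congr rfl h2, Finset.sum_neg_distrib, pow_succ]
    have h3 : ((Nat.add a (Nat.mul (lk J (st m')) (ee m)) : ℕ) : ℤ) =
        a + lk J (st m') * ee m := by
      show ((a + lk J (st m') * ee m : ℕ) : ℤ) = _
      push_cast
      ring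
    rw [h3]
    generalize ∑ k ∈ range len, (-1 : ℤ) ^ k * ((lk J (st (m' + 1 + k)) : ℤ) *
      ee (m + 1 + k)) = S
    ring_nf

/-- congruence of the pair -/
def cmpP (D N : ℕ) (c : ℕ) (p : ℕ × ℕ) : Bool :=
  Nat.beq ((Nat.add p.2 (c * D ^ N)) % (D ^ (N + 1))) (p.1 % (D ^ (N + 1)))

/-- the check for one set, `M` odd (`s = false`) or even (`s = true`) -/
def chkL (B i0 : ℕ) (h : List (List (ℕ × ℕ))) (s : Bool) (J ℓ M N c : ℕ) : Bool :=
  cmpP B N c (match s with
    | false => altP (eo B ℓ M i0 1) J 0 (take (M + 1) h) 0 0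
    | true => (altP (eo B ℓ M i0 1) J 0 (take (M + 1) h) 0 0).swap)

/-- the size check -/
def chkS (B c : ℕ) (h : List (List (ℕ × ℕ))) (J M : ℕ) : Bool :=
  Nat.blt (Nat.add (sumU J (take (M + 1) h) * 2 ^ (2 * M)) c) B

/-- the lowest coefficient of the sum -/
theorem poly_low {B i0 n K J ℓ M n3 c : ℕ} {s : Bool} {Us : List ℕ} (hJ : J ∈ Us) (hM : M ≤ K)
    (hs : s = decide (M % 2 = 0))
    (h1 : chkL B i0 ((List.range' 1 (K + 1)).map (stR n B Us)) s J ℓ M (n3 + pc n J) c = true)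
    (h2 : chkS B c ((List.range' 1 (K + 1)).map (stR n 1 Us)) J M = true) :
    X ^ n3 ∣ (∑ m ∈ range (M + 1), (-1) ^ m * ((uR n (X : ℕ[X]) Us J m).map (Nat.castRingHom ℤ) *
      Eo ℓ M i0 1 m)) ∧
    (∑ m ∈ range (M + 1), (-1) ^ m * ((uR n (X : ℕ[X]) Us J m).map (Nat.castRingHom ℤ) *
      Eo ℓ M i0 1 m)).coeff n3 = c := by
  have h2' : (∑ m ∈ range (M + 1), uR n 1 Us J m) * 2 ^ (2 * M) + c < B := by
    unfold chkS at h2
    rw [take_range' _ _ _ _ (by omega), sumU_eq] at h2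
    have h3 := Nat.blt_eq.mp h2
    refine lt_of_le_of_lt (le_of_eq ?_) h3
    show _ = (∑ k ∈ range (M + 1), _) * 2 ^ (2 * M) + c
    congr 2
    refine Finset.sum_congr rfl fun k _ => ?_
    rw [Nat.add_comm 1 k, lk_stR _ _ hJ, one_pow, one_mul]
  have hB : 1 ≤ B := by omega
  have hdom : Dom (∑ m ∈ range (M + 1), (-1) ^ m *
      ((uR n (X : ℕ[X]) Us J m).map (Nat.castRingHom ℤ) * Eo ℓ M i0 1 m))
      (∑ m ∈ range (M + 1), (uR n (X : ℕ[X]) Us J m * eQ ℓ M i0 1 m)) := by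
    refine Dom.sum _ fun m _ => ?_
    have h3 := Dom.mul (Dom.cast (uR n (X : ℕ[X]) Us J m)) (eo_dom ℓ M i0 1 m)
    rcases Nat.even_or_odd m with hm | hm
    · rw [hm.neg_one_pow, one_mul]; exact h3
    · rw [hm.neg_one_pow, neg_one_mul]; exact h3.neg
  refine coeff_of_eval hdom (B := B) ?_ ?_
  · rw [eval_finsetSum]
    refine lt_of_le_of_lt (le_of_eq ?_) h2'
    rw [Finset.sum_mul]
    congr 1
    refine Finset.sum_congr rfl fun m hm => ?_
    rw [mem_range] at hm
    rw [eval_mul, eQ_eval (by omega)]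
    congr 1
    have := uR_map (evalRingHom 1) n (X : ℕ[X]) Us J m
    rw [coe_evalRingHom, eval_X] at this
    exact this
  · have hBz : (B : ℤ) ^ pc n J ≠ 0 := pow_ne_zero _ (by positivity)
    -- the value
    have hval : (B : ℤ) ^ pc n J * (∑ m ∈ range (M + 1), (-1) ^ m *
        ((uR n (X : ℕ[X]) Us J m).map (Nat.castRingHom ℤ) * Eo ℓ M i0 1 m)).eval (B : ℤ) =
        ∑ k ∈ range (M + 1), (-1) ^ k * ((lk J (stR n B Us (1 + k)) : ℤ) *
          eo B ℓ M i0 1 (0 + k)) := by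
      rw [eval_finsetSum, Finset.mul_sum]
      refine Finset.sum_congr rfl fun m _ => ?_
      have h4 := uR_map (evalRingHom (B : ℕ)) n (X : ℕ[X]) Us J m
      rw [coe_evalRingHom, eval_X] at h4
      have h6 : ((uR n (X : ℕ[X]) Us J m).map (Nat.castRingHom ℤ)).eval (B : ℤ) =
          ((uR n B Us J m : ℕ) : ℤ) := by
        rw [← h4, eval_map]
        have h5 := Polynomial.eval₂_at_natCast (p := uR n (X : ℕ[X]) Us J m)
          (Nat.castRingHom ℤ) B
        simpa using h5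
      rw [eval_mul, eval_pow, eval_neg, eval_one, eval_mul, h6, eo_eval hB, Nat.add_comm 1 m,
        lk_stR _ _ hJ, Nat.zero_add]
      push_cast
      ring
    have hpair := altP_eq (eo B ℓ M i0 1) J (stR n B Us) (M + 1) 0 1 0 0
    rw [Nat.cast_zero, sub_zero, zero_add, ← hval] at hpair
    unfold chkL at h1
    rw [take_range' _ _ _ _ (by omega)] at h1
    set p := altP (eo B ℓ M i0 1) J 0 ((List.range' 1 (M + 1)).map (stR n B Us)) 0 0 with hp
    have key : ∀ x y : ℕ, cmpP B (n3 + pc n J) c (x, y) = true →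
        (B : ℤ) ^ (n3 + pc n J + 1) ∣ (x : ℤ) - y - c * (B : ℤ) ^ (n3 + pc n J) := by
      intro x y h
      have h3 : (y + c * B ^ (n3 + pc n J)) ≡ x [MOD B ^ (n3 + pc n J + 1)] :=
        Nat.eq_of_beq_eq_true h
      have h4 := (Nat.modEq_iff_dvd.mp h3)
      push_cast at h4
      convert h4 using 1
      ring
    have hfin : (B : ℤ) ^ (n3 + pc n J + 1) ∣ (B : ℤ) ^ pc n J *
        (∑ m ∈ range (M + 1), (-1) ^ m *
        ((uR n (X : ℕ[X]) Us J m).map (Nat.castRingHom ℤ) * Eo ℓ M i0 1 m)).eval (B : ℤ) -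
        c * (B : ℤ) ^ (n3 + pc n J) := by
      subst hs
      rcases Nat.even_or_odd M with hM | hM
      · have h3 : M % 2 = 0 := Nat.even_iff.mp hM
        simp only [h3, decide_true] at h1
        have h4 := key p.2 p.1 h1
        rw [pow_succ, hM.neg_one_pow] at hpair
        convert h4 using 2
        linarith
      · have h3 : M % 2 = 1 := Nat.odd_iff.mp hM
        simp only [h3, one_ne_zero, decide_false] at h1
        have h4 := key p.1 p.2 h1
        rw [pow_succ, hM.neg_one_pow] at hpair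
        convert h4 using 2
        linarith
    have h5 : (B : ℤ) ^ (n3 + pc n J + 1) = (B : ℤ) ^ pc n J * (B : ℤ) ^ (n3 + 1) := by
      rw [← pow_add]
      congr 1
      omega
    have h6 : (c : ℤ) * (B : ℤ) ^ (n3 + pc n J) = (B : ℤ) ^ pc n J * (c * (B : ℤ) ^ n3) := by
      rw [pow_add]
      ring
    rw [h5, h6, ← mul_sub] at hfin
    exact (mul_dvd_mul_iff_left hBz).mp hfin

end Pool.Agent.GaussPoset.Dd

end

/-! From `Pool.Agent.W_448pb_h63.PcA` -/

section

/-!
Divisibility of a sum by commuting partial involutions (MP_448cb3_co).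
-/

namespace Pool.Agent.GaussPoset.Win.K2

open Finset

section abs

variable {E J R : Type*} [DecidableEq E] [DecidableEq J] [CommRing R]

/-- commuting partial involutions on a set of configurations -/
structure Ivl (Ω : Finset E) (Act : E → Finset J) (σ : J → E → E) (b : J → E → Prop) (t : E → R)
    (u : J → E → R) (d : R) : Prop where
  mem : ∀ e ∈ Ω, ∀ j ∈ Act e, σ j e ∈ Ω
  act : ∀ e ∈ Ω, ∀ j ∈ Act e, Act (σ j e) = Act e
  inv : ∀ e ∈ Ω, ∀ j ∈ Act e, σ j (σ j e) = e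
  own : ∀ e ∈ Ω, ∀ j ∈ Act e, (b j (σ j e) ↔ ¬ b j e)
  oth : ∀ e ∈ Ω, ∀ j ∈ Act e, ∀ j' ∈ Act e, j' ≠ j → (b j' (σ j e) ↔ b j' e)
  wt : ∀ e ∈ Ω, ∀ j ∈ Act e, b j e → t (σ j e) = t e * u j e
  wu : ∀ e ∈ Ω, ∀ j ∈ Act e, ∀ j' ∈ Act e, j' ≠ j → u j' (σ j e) = u j' e
  dv : ∀ e ∈ Ω, ∀ j ∈ Act e, d ∣ 1 + u j e

variable {Ω : Finset E} {Act : E → Finset J} {σ : J → E → E} {b : J → E → Prop} {t : E → R}
  {u : J → E → R} {d : R}

open Classical in
/-- the normalised configurations -/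
noncomputable def Nrm (Ω : Finset E) (Act : E → Finset J) (b : J → E → Prop) (D : Finset J) :
    Finset E :=
  Ω.filter (fun e => ∀ j ∈ Act e ∩ D, b j e)

/-- the collected weight -/
def clw (Act : E → Finset J) (t : E → R) (u : J → E → R) (D : Finset J) (e : E) : R :=
  t e * ∏ j ∈ Act e ∩ D, (1 + u j e)

lemma mem_Nrm {D : Finset J} {e : E} :
    e ∈ Nrm Ω Act b D ↔ e ∈ Ω ∧ ∀ j ∈ Act e ∩ D, b j e := by
  classical
  unfold Nrm
  rw [mem_filter]

lemma Ivl.step (I : Ivl Ω Act σ b t u d) {D : Finset J} {j0 : J} (hn : j0 ∉ D) :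
    ∑ e ∈ Nrm Ω Act b D, clw Act t u D e =
      ∑ e ∈ Nrm Ω Act b (insert j0 D), clw Act t u (insert j0 D) e := by
  classical
  have inter : ∀ e : E, j0 ∉ Act e → Act e ∩ insert j0 D = Act e ∩ D := by
    intro e h
    ext y
    simp only [mem_inter, mem_insert]
    constructor
    · rintro ⟨h1, rfl | h2⟩
      · exact absurd h1 h
      · exact ⟨h1, h2⟩
    · rintro ⟨h1, h2⟩
      exact ⟨h1, Or.inr h2⟩
  have inter' : ∀ e : E, j0 ∈ Act e → Act e ∩ insert j0 D = insert j0 (Act e ∩ D) := by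
    intro e h
    ext y
    simp only [mem_inter, mem_insert]
    constructor
    · rintro ⟨h1, rfl | h2⟩
      · exact Or.inl rfl
      · exact Or.inr ⟨h1, h2⟩
    · rintro (rfl | ⟨h1, h2⟩)
      · exact ⟨h, Or.inl rfl⟩
      · exact ⟨h1, Or.inr h2⟩
  rw [← Finset.sum_filter_add_sum_filter_not (Nrm Ω Act b D) (fun e => j0 ∈ Act e),
    ← Finset.sum_filter_add_sum_filter_not (Nrm Ω Act b (insert j0 D)) (fun e => j0 ∈ Act e)]
  congr 1
  · rw [← Finset.sum_filter_add_sum_filter_not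
      ((Nrm Ω Act b D).filter (fun e => j0 ∈ Act e)) (fun e => b j0 e)]
    have hA : ((Nrm Ω Act b D).filter (fun e => j0 ∈ Act e)).filter (fun e => b j0 e) =
        (Nrm Ω Act b (insert j0 D)).filter (fun e => j0 ∈ Act e) := by
      ext e
      simp only [mem_filter, mem_Nrm]
      constructor
      · rintro ⟨⟨⟨h1, h2⟩, h3⟩, h4⟩
        refine ⟨⟨h1, ?_⟩, h3⟩
        rw [inter' e h3]
        intro y hy
        rcases mem_insert.1 hy with rfl | hy
        · exact h4
        · exact h2 y hy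
      · rintro ⟨⟨h1, h2⟩, h3⟩
        rw [inter' e h3] at h2
        exact ⟨⟨⟨h1, fun y hy => h2 y (mem_insert_of_mem hy)⟩, h3⟩, h2 j0 (mem_insert_self _ _)⟩
    rw [hA]
    have hmap : ∀ e ∈ Ω, j0 ∈ Act e → (∀ j ∈ Act e ∩ D, b j e) →
        ∀ j ∈ Act (σ j0 e) ∩ D, b j (σ j0 e) := by
      intro e he h0 h2 j hj
      rw [I.act e he j0 h0] at hj
      have hj2 := mem_inter.1 hj
      rw [I.oth e he j0 h0 j hj2.1 (by rintro rfl; exact hn hj2.2)]
      exact h2 j hj
    have hB : ∑ e ∈ ((Nrm Ω Act b D).filter (fun e => j0 ∈ Act e)).filter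
        (fun e => ¬ b j0 e), clw Act t u D e =
        ∑ e ∈ (Nrm Ω Act b (insert j0 D)).filter (fun e => j0 ∈ Act e),
          clw Act t u D e * u j0 e := by
      symm
      refine Finset.sum_bij' (fun e _ => σ j0 e) (fun e _ => σ j0 e) ?_ ?_ ?_ ?_ ?_
      · intro e he
        rw [← hA] at he
        simp only [mem_filter, mem_Nrm] at he ⊢
        obtain ⟨⟨⟨h1, h2⟩, h3⟩, h4⟩ := he
        refine ⟨⟨⟨I.mem e h1 j0 h3, hmap e h1 h3 h2⟩, by rw [I.act e h1 j0 h3]; exact h3⟩, ?_⟩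
        rw [I.own e h1 j0 h3]
        exact fun h => h h4
      · intro e he
        rw [← hA]
        simp only [mem_filter, mem_Nrm] at he ⊢
        obtain ⟨⟨⟨h1, h2⟩, h3⟩, h4⟩ := he
        refine ⟨⟨⟨I.mem e h1 j0 h3, hmap e h1 h3 h2⟩, by rw [I.act e h1 j0 h3]; exact h3⟩, ?_⟩
        rw [I.own e h1 j0 h3]
        exact h4
      · intro e he
        rw [← hA] at he
        simp only [mem_filter, mem_Nrm] at he
        exact I.inv e he.1.1.1 j0 he.1.2
      · intro e he
        simp only [mem_filter, mem_Nrm] at he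
        exact I.inv e he.1.1.1 j0 he.1.2
      · intro e he
        rw [← hA] at he
        simp only [mem_filter, mem_Nrm] at he
        obtain ⟨⟨⟨h1, h2⟩, h3⟩, h4⟩ := he
        unfold clw
        rw [I.act e h1 j0 h3, I.wt e h1 j0 h3 h4]
        have h5 : ∏ y ∈ Act e ∩ D, (1 + u y (σ j0 e)) = ∏ y ∈ Act e ∩ D, (1 + u y e) := by
          refine Finset.prod_congr rfl fun y hy => ?_
          have hy2 := mem_inter.1 hy
          rw [I.wu e h1 j0 h3 y hy2.1 (by rintro rfl; exact hn hy2.2)]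
        rw [h5]
        ring
    rw [hB, ← Finset.sum_add_distrib]
    refine Finset.sum_congr rfl fun e he => ?_
    rw [mem_filter] at he
    unfold clw
    rw [inter' e he.2, Finset.prod_insert]
    · ring
    · intro h
      exact hn (mem_inter.1 h).2
  · have hA : (Nrm Ω Act b D).filter (fun e => ¬ j0 ∈ Act e) =
        (Nrm Ω Act b (insert j0 D)).filter (fun e => ¬ j0 ∈ Act e) := by
      ext e
      simp only [mem_filter, mem_Nrm]
      constructor
      · rintro ⟨⟨h1, h2⟩, h3⟩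
        exact ⟨⟨h1, by rw [inter e h3]; exact h2⟩, h3⟩
      · rintro ⟨⟨h1, h2⟩, h3⟩
        rw [inter e h3] at h2
        exact ⟨⟨h1, h2⟩, h3⟩
    rw [hA]
    refine Finset.sum_congr rfl fun e he => ?_
    rw [mem_filter] at he
    unfold clw
    rw [inter e he.2]

lemma Ivl.all_steps (I : Ivl Ω Act σ b t u d) (D : Finset J) :
    ∑ e ∈ Ω, t e = ∑ e ∈ Nrm Ω Act b D, clw Act t u D e := by
  classical
  induction D using Finset.induction_on with
  | empty =>
    have h1 : Nrm Ω Act b ∅ = Ω := by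
      ext e
      rw [mem_Nrm]
      simp
    rw [h1]
    refine Finset.sum_congr rfl fun e _ => ?_
    unfold clw
    simp
  | insert y D hy ih => rw [ih, I.step hy]

/-- DIVISIBILITY of the sum by commuting partial involutions -/
theorem Ivl.dvd (I : Ivl Ω Act σ b t u d) {N : ℕ}
    (hN : ∀ e ∈ Ω, d ^ N ∣ t e * d ^ (Act e).card) : d ^ N ∣ ∑ e ∈ Ω, t e := by
  classical
  rw [I.all_steps (Ω.biUnion Act)]
  refine Finset.dvd_sum fun e he => ?_
  rw [mem_Nrm] at he
  have h1 : Act e ∩ Ω.biUnion Act = Act e := by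
    rw [Finset.inter_eq_left]
    intro y hy
    rw [mem_biUnion]
    exact ⟨e, he.1, hy⟩
  unfold clw
  rw [h1]
  refine (hN e he.1).trans (mul_dvd_mul_left _ ?_)
  rw [← Finset.prod_const]
  exact Finset.prod_dvd_prod_of_dvd _ _ fun y hy => I.dv e he.1 y hy

end abs

end Pool.Agent.GaussPoset.Win.K2

end
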