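import Mathlib
import Pool.Agent.W_448zz_h61.Ns
import Pool.Agent.W_448zz_h61.M005
import Pool.Agent.W_448zz_h61.M017

/-! From `Pool.Agent.W_448fw_h5.FwF` -/

section

/-!
Window polynomials of disjoint unions.
-/

namespace Pool.Agent.GaussPoset

set_option linter.unusedSectionVars false

open Polynomial Finset

universe u

section Prod

variable {Q : Type u} [Fintype Q] [PartialOrder Q] [DecidableEq Q]
variable {ι : Type*} [Fintype ι] [DecidableEq ι] (c : Q → ι) (hc : ∀ x y, x ≤ y → c x = c y)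

include hc in
/-- generating functions of disjoint unions are products -/
theorem U_prod (m : ℕ) : U Q m = ∏ k, U {x : Q // c x = k} m := by
  classical
  unfold U
  rw [Finset.prod_univ_sum]
  refine Finset.sum_bij' (fun σ _ k x => σ (x : Q)) (fun τ _ x => τ (c x) ⟨x, rfl⟩) ?_ ?_ ?_ ?_ ?_
  · intro σ hσ
    rw [Fintype.mem_piFinset]
    intro k
    simp only [mem_filter, mem_univ, true_and] at hσ ⊢
    intro x y hxy
    exact hσ hxy
  · intro τ hτ
    rw [Fintype.mem_piFinset] at hτ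
    simp only [mem_filter, mem_univ, true_and] at hτ ⊢
    intro x y hxy
    have h1 := hτ (c y)
    have h2 : (⟨x, hc x y hxy⟩ : {x : Q // c x = c y}) ≤ ⟨y, rfl⟩ := hxy
    have h3 : τ (c x) ⟨x, rfl⟩ = τ (c y) ⟨x, hc x y hxy⟩ := by
      have : ∀ k (h : c x = k), τ (c x) ⟨x, rfl⟩ = τ k ⟨x, h⟩ := by
        rintro k rfl; rfl
      exact this _ _
    change τ (c x) ⟨x, rfl⟩ ≤ τ (c y) ⟨y, rfl⟩
    rw [h3]
    exact h1 h2
  · intro σ _
    rfl
  · intro τ _
    funext k x
    obtain ⟨x, rfl⟩ := x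
    rfl
  · intro σ _
    rw [Finset.prod_pow_eq_pow_sum]
    congr 1
    rw [← Finset.sum_fiberwise (s := univ) (g := c)]
    refine Finset.sum_congr rfl fun k _ => ?_
    rw [Finset.sum_subtype (univ.filter (fun x => c x = k)) (p := fun x => c x = k) (by simp)]

include hc in
theorem W_prod (i : ℕ) : W Q i = ∏ k, W {x : Q // c x = k} i := by
  classical
  apply Polynomial.eq_of_infinite_eval_eq
  have hinj : Function.Injective (fun m : ℕ => -(PowerSeries.X : PowerSeries ℤ) ^ (i + m + 1)) := by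
    intro a b hab
    simp only [neg_inj] at hab
    have := congrArg PowerSeries.order hab
    rw [PowerSeries.order_X_pow, PowerSeries.order_X_pow] at this
    have h2 : i + a + 1 = i + b + 1 := by exact_mod_cast this
    omega
  refine Set.infinite_of_injective_forall_mem hinj fun m => ?_
  simp only [Set.mem_ofPred_eq]
  rw [W_eval, eval_prod]
  simp only [W_eval]
  rw [Finset.prod_mul_distrib, Finset.prod_pow_eq_pow_sum, ← Finset.mul_sum]
  congr 1
  · congr 2
    rw [Fintype.card_eq_sum_ones, ← Finset.sum_fiberwise (s := univ) (g := c)]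
    refine Finset.sum_congr rfl fun k _ => ?_
    rw [Finset.sum_const, smul_eq_mul, mul_one, ← Fintype.card_subtype]
  · rw [U_prod c hc m]
    have := map_prod (Polynomial.coeToPowerSeries.ringHom (R := ℤ))
      (fun k => U {x : Q // c x = k} m) univ
    rw [Polynomial.coeToPowerSeries.ringHom_apply] at this
    rw [this]
    exact Finset.prod_congr rfl fun k _ => by simp

include hc in
/-- orders add up over the components -/
theorem dvd_W_prod (i : ℕ) (b : ι → ℕ)
    (h : ∀ k, (1 + X : Polynomial (PowerSeries ℤ)) ^ (b k) ∣ W {x : Q // c x = k} i) :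
    (1 + X : Polynomial (PowerSeries ℤ)) ^ (∑ k, b k) ∣ W Q i := by
  rw [W_prod c hc i, ← Finset.prod_pow_eq_pow_sum]
  exact Finset.prod_dvd_prod_of_dvd _ _ fun k _ => h k

end Prod

end Pool.Agent.GaussPoset

end

/-! From `Pool.Agent.W_448fw_h5.FwE` -/

section

/-!
The leading term of the far window theorem, computed.
-/

namespace Pool.Agent.GaussPoset

set_option linter.unusedSectionVars false

open Polynomial Finset

universe u

variable {P : Type u} [Fintype P] [PartialOrder P] [DecidableEq P]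

open Classical in
/-- number of elements of level `l` above `z` -/
noncomputable def nab (l : ℕ) (z : P) : ℕ := ((lv P l).filter (fun x => z ≤ x)).card

open Classical in
/-- number of elements above `z` on the levels `i, …, i + h z - 1` -/
noncomputable def nst (i : ℕ) (h : P → ℕ) (z : P) : ℕ :=
  (univ.filter (fun x => z ≤ x ∧ i ≤ lev x ∧ lev x < i + h z)).card

/-- the poset is graded: between comparable elements there is one on every level -/
def GradedBelow (P : Type u) [Fintype P] [PartialOrder P] : Prop :=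
  ∀ z x : P, z < x → ∃ w, z ≤ w ∧ w < x ∧ lev w = lev x + 1

section Exact

variable {i : ℕ} {h : P → ℕ} {z : P}

lemma rho_ez_of_le {x : P} (hzx : z ≤ x) (hx : lev x ≤ i + h z) :
    rho i (ez i h z) x = (lev x : ℤ) - i := by
  unfold rho ez
  rw [if_pos hzx]
  rcases le_total (lev x) i with h1 | h1
  · have : lev x - i = 0 := by omega
    rw [this, Nat.min_zero]
    push_cast [Nat.cast_sub h1]
    ring
  · have h2 : min (h z) (lev x - i) = lev x - i := min_eq_right (by omega)
    have h3 : i - lev x = 0 := by omega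
    rw [h2, h3, Nat.cast_sub h1]
    simp

lemma rho_ez_of_ge {x : P} (hzx : z ≤ x) (hx : i + h z ≤ lev x) :
    rho i (ez i h z) x = h z := by
  unfold rho ez
  rw [if_pos hzx]
  have h2 : min (h z) (lev x - i) = h z := min_eq_left (by omega)
  have h3 : i - lev x = 0 := by omega
  rw [h2, h3]
  simp

lemma rho_ez_of_not {x : P} (hzx : ¬ z ≤ x) :
    rho i (ez i h z) x = -((i - lev x : ℕ) : ℤ) := by
  unfold rho ez
  rw [if_neg hzx]
  simp

lemma rho_ez_le (x : P) : rho i (ez i h z) x ≤ h z := by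
  by_cases hzx : z ≤ x
  · rcases le_total (lev x) (i + h z) with h1 | h1
    · rw [rho_ez_of_le hzx h1]; omega
    · rw [rho_ez_of_ge hzx h1]
  · rw [rho_ez_of_not hzx]; omega

lemma FI_ez (hgr : GradedBelow P) (hz : h z ≤ lev z - i) (hz1 : 1 ≤ h z) (x : P) :
    FI i (ez i h z) x ↔ lev x < i ∨ (z ≤ x ∧ lev x < i + h z) := by
  unfold FI
  constructor
  · rintro (h1 | ⟨w, hw, h1⟩)
    · left
      by_cases hzx : z ≤ x
      · rcases le_total (lev x) (i + h z) with h2 | h2
        · rw [rho_ez_of_le hzx h2] at h1; omega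
        · rw [rho_ez_of_ge hzx h2] at h1; omega
      · rw [rho_ez_of_not hzx] at h1; omega
    · have hlw := lev_strictAnti hw
      by_cases hzx : z ≤ x
      · right
        refine ⟨hzx, ?_⟩
        by_contra hcon
        rw [rho_ez_of_ge hzx (not_lt.mp hcon)] at h1
        exact absurd (rho_ez_le (i := i) (h := h) (z := z) w) (not_le.mpr h1)
      · left
        have hzw : ¬ z ≤ w := fun h' => hzx (h'.trans hw.le)
        rw [rho_ez_of_not hzx, rho_ez_of_not hzw] at h1
        omega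
  · intro h1
    by_cases h2 : lev x < i
    · left
      by_cases hzx : z ≤ x
      · rw [rho_ez_of_le hzx (by omega)]; omega
      · rw [rho_ez_of_not hzx]; omega
    · obtain ⟨hzx, h3⟩ := h1.resolve_left h2
      right
      have hlt : z < x := by
        refine lt_of_le_of_ne hzx ?_
        rintro rfl
        omega
      obtain ⟨w, hw1, hw2, hw3⟩ := hgr z x hlt
      refine ⟨w, hw2, ?_⟩
      rw [rho_ez_of_le hzx (by omega), rho_ez_of_le hw1 (by omega)]
      omega

lemma FA_ez (x : P) :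
    FA i (ez i h z) x ↔ (i < lev x ∧ ¬ z ≤ x) ∨ (z ≤ x ∧ i + h z < lev x) := by
  unfold FA
  constructor
  · rintro ⟨y, hy, h1⟩
    have hly := lev_strictAnti hy
    by_cases hzx : z ≤ x
    · right
      refine ⟨hzx, ?_⟩
      by_contra hcon
      rw [rho_ez_of_le hzx (not_lt.mp hcon), rho_ez_of_le (hzx.trans hy.le) (by omega)] at h1
      omega
    · left
      refine ⟨?_, hzx⟩
      by_contra hcon
      rw [rho_ez_of_not hzx] at h1
      by_cases hzy : z ≤ y
      · rw [rho_ez_of_le hzy (by omega)] at h1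
        omega
      · rw [rho_ez_of_not hzy] at h1
        omega
  · rintro (⟨h1, h2⟩ | ⟨h1, h2⟩)
    · obtain ⟨y, hy, hy2⟩ := exists_above' (x := x) (j := i) h1.le
      have hne : x ≠ y := by rintro rfl; omega
      refine ⟨y, lt_of_le_of_ne hy hne, ?_⟩
      rw [rho_ez_of_not h2]
      by_cases hzy : z ≤ y
      · rw [rho_ez_of_le hzy (by omega)]; omega
      · rw [rho_ez_of_not hzy]; omega
    · obtain ⟨y, hy, hy2⟩ := exists_above' (x := x) (j := i + h z) h2.le
      have hne : x ≠ y := by rintro rfl; omega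
      refine ⟨y, lt_of_le_of_ne hy hne, ?_⟩
      rw [rho_ez_of_ge h1 h2.le, rho_ez_of_ge (h1.trans hy) hy2.ge]

lemma adm_ez (hgr : GradedBelow P) (hz : h z ≤ lev z - i) (hz1 : 1 ≤ h z) :
    Adm i (ez i h z) := by
  intro x
  rw [FI_ez hgr hz hz1, FA_ez]
  rintro ⟨h1 | ⟨h1, h2⟩, ⟨h3, h4⟩ | ⟨h3, h4⟩⟩
  · omega
  · omega
  · exact h4 h1
  · omega

lemma nf_ez (hgr : GradedBelow P) (hz : h z ≤ lev z - i) (hz1 : 1 ≤ h z) :
    nf i (ez i h z) = below P i + nst i h z := by
  classical
  unfold nf below nst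
  rw [← Finset.card_union_of_disjoint]
  · congr 1
    ext x
    simp only [mem_filter, mem_univ, true_and, mem_union, FI_ez hgr hz hz1]
    constructor
    · rintro (h1 | ⟨h1, h2⟩)
      · exact Or.inl h1
      · by_cases h3 : lev x < i
        · exact Or.inl h3
        · exact Or.inr ⟨h1, not_lt.mp h3, h2⟩
    · rintro (h1 | ⟨h1, h2, h3⟩)
      · exact Or.inl h1
      · exact Or.inr ⟨h1, h3⟩
  · rw [Finset.disjoint_left]
    intro x hx hx2
    simp only [mem_filter, mem_univ, true_and] at hx hx2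
    omega

lemma pk_ez (hgr : GradedBelow P) (hz : h z ≤ lev z - i) (hz1 : 1 ≤ h z) :
    (Pk i (ez i h z)).card + nab i z = (lv P i).card + nab (i + h z) z := by
  classical
  have h1 : Pk i (ez i h z) = ((lv P i).filter (fun x => ¬ z ≤ x)) ∪
      ((lv P (i + h z)).filter (fun x => z ≤ x)) := by
    ext x
    simp only [Pk, mem_filter, mem_univ, true_and, mem_union, mem_lv, FI_ez hgr hz hz1, FA_ez]
    by_cases hzx : z ≤ x
    · simp only [hzx, not_true_eq_false, and_false, true_and, false_or, and_true]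
      omega
    · simp only [hzx, not_false_eq_true, and_true, false_and, or_false, and_false]
      omega
  rw [h1, Finset.card_union_of_disjoint]
  · unfold nab
    have h2 := Finset.card_filter_add_card_filter_not (s := lv P i) (fun x => z ≤ x)
    omega
  · rw [Finset.disjoint_left]
    intro x hx hx2
    simp only [mem_filter, mem_lv] at hx hx2
    exact hx.2 hx2.2

lemma nab_le (z : P) (l : ℕ) : nab l z ≤ (lv P l).card := by
  classical
  exact Finset.card_filter_le _ _

end Exact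

/-- the data of the far window theorem at window `i` for the set `R` of unnatural elements:
order of cleanness `b`, thresholds `θ`, labels `h` -/
structure FarData (P : Type u) [Fintype P] [PartialOrder P] [DecidableEq P] (i : ℕ)
    (R : Finset P) (b : ℕ) (h : P → ℕ) : Prop where
  graded : GradedBelow P
  hlev : ∀ x ∈ R, i < lev x
  clean : ∀ g : P → ℕ, (∀ x, x ∉ R → g x = 0) → (∀ z ∈ bdR R, g z < h z) →
    ∀ n, (1 + X : ℤ[X]) ^ b ∣ ZB i R g 0 n
  one_le : ∀ z ∈ bdR R, 1 ≤ h z
  le_lev : ∀ z ∈ bdR R, h z ≤ lev z - i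

/-- the standard way to obtain the data -/
theorem farData_of_thresholds {i : ℕ} {R : Finset P} {b : ℕ} {h : P → ℕ} (hgr : GradedBelow P)
    (DD : Set (Finset P)) (θ : P → ℕ)
    (hlow : ∀ D ∈ DD, ∀ x y, x ≤ y → y ∈ D → x ∈ D) (hlev : ∀ D ∈ DD, ∀ x ∈ D, i < lev x)
    (hθ : ∀ x, 1 ≤ θ x → i < lev x) (c0 : ∀ D ∈ DD, ∀ n, (1 + X : ℤ[X]) ^ b ∣ ZB i D 0 0 n)
    (c1 : ∀ D ∈ DD, ∀ x, x ∉ D → 1 ≤ θ x → D ∪ dnf x ∈ DD)
    (c2 : ∀ D ∈ DD, ∀ x, x ∉ D → 1 ≤ θ x → ∀ y ≤ x, y ∉ D → ∀ x', y ⋖ x' → ¬ x' ≤ x →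
      θ x ≤ θ x' + 1)
    (hR : R ∈ DD) (h1 : ∀ z ∈ bdR R, 1 ≤ h z) (h2 : ∀ z ∈ bdR R, h z ≤ lev z - i)
    (h3 : ∀ z ∈ R, ∀ x, x ∉ R → z ⋖ x → h z ≤ θ x + 1) : FarData P i R b h where
  graded := hgr
  hlev := hlev R hR
  clean := by
    intro g hg0 hg n
    refine dvd_ZB_labels i _ DD θ hlow hlev hθ c0 c1 c2 hR g hg0 ?_ n
    intro y hy x hx hyx
    have h4 : y ∈ bdR R := by
      classical
      exact mem_filter.mpr ⟨hy, x, hx, hyx⟩
    have h5 := hg y h4
    have h6 := h3 y hy x hx hyx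
    omega
  one_le := h1
  le_lev := h2

/-- the far window theorem, lower bound: no pole below the minimal cost -/
theorem FarData.dvd_of_lt {i : ℕ} {R : Finset P} {b : ℕ} {h : P → ℕ} (H : FarData P i R b h)
    {n : ℕ} (hn : ∀ z ∈ bdR R, n < cst i h z) : (1 + X : ℤ[X]) ^ b ∣ Z P i n := by
  rw [Z_split i R h n, DG_eq_zero H.hlev hn, add_zero]
  exact dvd_ND H.hlev _ n fun g h1 h2 => H.clean g h1 h2 n

/-- the far window theorem, leading term -/
theorem FarData.dvd_lead {i : ℕ} {R : Finset P} {b : ℕ} {h : P → ℕ} (H : FarData P i R b h)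
    {n : ℕ} (hn : ∀ z ∈ bdR R, n ≤ cst i h z) : (1 + X : ℤ[X]) ^ b ∣ Z P i n -
      ∑ z ∈ (bdR R).filter (fun z => cst i h z = n), (X : ℤ[X]) ^ (below P i + nst i h z) *
        (1 + X) ^ ((lv P i).card + nab (i + h z) z - nab i z) := by
  classical
  rw [Z_split i R h n, DG_eq H.hlev H.one_le H.le_lev hn]
  have h1 : ∑ z ∈ (bdR R).filter (fun z => cst i h z = n), (if Adm i (ez i h z) then
        (X : ℤ[X]) ^ (nf i (ez i h z)) * (1 + X) ^ (Pk i (ez i h z)).card else 0) =
      ∑ z ∈ (bdR R).filter (fun z => cst i h z = n), (X : ℤ[X]) ^ (below P i + nst i h z) *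
        (1 + X) ^ ((lv P i).card + nab (i + h z) z - nab i z) := by
    refine Finset.sum_congr rfl fun z hz => ?_
    have hzR := (mem_filter.mp hz).1
    rw [if_pos (adm_ez H.graded (H.le_lev z hzR) (H.one_le z hzR)),
      nf_ez H.graded (H.le_lev z hzR) (H.one_le z hzR)]
    have h2 := pk_ez H.graded (H.le_lev z hzR) (H.one_le z hzR)
    have h3 : (Pk i (ez i h z)).card = (lv P i).card + nab (i + h z) z - nab i z := by omega
    rw [h3]
  rw [h1, add_sub_cancel_right]
  exact dvd_ND H.hlev _ n fun g h1 h2 => H.clean g h1 h2 n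

/-- leading coefficients of a sum divisible by a power of `1 + X` -/
lemma sum_sign_eq_zero {ι : Type*} (s : Finset ι) (a c : ι → ℕ) (b c0 : ℕ) (hc : c0 < b)
    (hle : ∀ z ∈ s, c0 ≤ c z) (hd : (1 + X : ℤ[X]) ^ b ∣ ∑ z ∈ s, X ^ (a z) * (1 + X) ^ (c z)) :
    ∑ z ∈ s.filter (fun z => c z = c0), (-1 : ℤ) ^ (a z) = 0 := by
  classical
  have h1 : ∑ z ∈ s, (X : ℤ[X]) ^ (a z) * (1 + X) ^ (c z) =
      (1 + X) ^ c0 * ∑ z ∈ s, X ^ (a z) * (1 + X) ^ (c z - c0) := by
    rw [Finset.mul_sum]
    refine Finset.sum_congr rfl fun z hz => ?_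
    have h2 : (1 + X : ℤ[X]) ^ (c z) = (1 + X) ^ c0 * (1 + X) ^ (c z - c0) := by
      rw [← pow_add]; congr 1; have := hle z hz; omega
    rw [h2]; ring
  have h3 : (1 + X : ℤ[X]) ^ b = (1 + X) ^ c0 * (1 + X) ^ (b - c0) := by
    rw [← pow_add]; congr 1; omega
  have hm : (1 + X : ℤ[X]).Monic := by
    have := monic_X_add_C (1 : ℤ)
    rwa [map_one, add_comm] at this
  rw [h1, h3] at hd
  have h4 := (mul_dvd_mul_iff_left (pow_ne_zero c0 hm.ne_zero)).mp hd
  obtain ⟨q, hq⟩ := (dvd_pow_self (1 + X : ℤ[X]) (by omega : b - c0 ≠ 0)).trans h4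
  have h5 := congrArg (Polynomial.eval (-1)) hq
  rw [eval_mul, eval_add, eval_one, eval_X] at h5
  rw [Polynomial.eval_finsetSum] at h5
  simp only [eval_mul, eval_pow, eval_add, eval_one, eval_X] at h5
  norm_num at h5
  rw [Finset.sum_filter]
  refine Eq.trans ?_ h5
  refine Finset.sum_congr rfl fun z hz => ?_
  by_cases hz2 : c z = c0
  · simp [hz2]
  · have h6 : c z - c0 ≠ 0 := by have := hle z hz; omega
    rw [if_neg hz2, zero_pow h6, mul_zero]

/-- the form used for Gaussian posets: if the whole window sum is divisible, the signs of the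
cheapest unnatural elements of maximal drop cancel -/
theorem FarData.sign_sum {i : ℕ} {R : Finset P} {b : ℕ} {h : P → ℕ} (H : FarData P i R b h)
    {n : ℕ} (hn : ∀ z ∈ bdR R, n ≤ cst i h z) (hZ : (1 + X : ℤ[X]) ^ b ∣ Z P i n)
    {c0 : ℕ} (hc : c0 < b)
    (hle : ∀ z ∈ bdR R, cst i h z = n → c0 + nab i z ≤ (lv P i).card + nab (i + h z) z) :
    ∑ z ∈ (bdR R).filter (fun z => cst i h z = n ∧
      c0 + nab i z = (lv P i).card + nab (i + h z) z), (-1 : ℤ) ^ (nst i h z) = 0 := by
  classical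
  have h1 := dvd_sub hZ (H.dvd_lead hn)
  rw [sub_sub_cancel] at h1
  have h2 := sum_sign_eq_zero _ _ _ b c0 hc (fun z hz => by
    rw [mem_filter] at hz
    have := hle z hz.1 hz.2
    omega) h1
  rw [Finset.filter_filter] at h2
  have h3 : (bdR R).filter (fun z => cst i h z = n ∧
      (lv P i).card + nab (i + h z) z - nab i z = c0) =
      (bdR R).filter (fun z => cst i h z = n ∧
      c0 + nab i z = (lv P i).card + nab (i + h z) z) := by
    refine Finset.filter_congr fun z _ => ?_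
    have := nab_le z i
    omega
  rw [h3] at h2
  simp only [pow_add] at h2
  rw [← Finset.mul_sum] at h2
  exact (mul_eq_zero.mp h2).resolve_left (pow_ne_zero _ (by norm_num))

end Pool.Agent.GaussPoset

end

/-! From `Pool.Agent.W_448fw_h5.FwN` -/

section

/-!
Charts of natural elements and maximal charts.
-/

namespace Pool.Agent.GaussPoset

set_option linter.unusedSectionVars false

open Finset

universe u

variable {P : Type u} [Fintype P] [PartialOrder P] [DecidableEq P]

/-- `p'` is one of the (at most two) predecessors of the cell `p` -/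
def Prd (p p' : ℕ × ℕ) : Prop :=
  (p.1 = p'.1 + 1 ∧ p.2 = p'.2) ∨ (p.1 = p'.1 ∧ p.2 = p'.2 + 1)

lemma Prd.le {p p' : ℕ × ℕ} (h : Prd p p') : p' ≤ p := by
  rcases h with h | h
  · exact ⟨by omega, by omega⟩
  · exact ⟨by omega, by omega⟩

lemma Prd.ne {p p' : ℕ × ℕ} (h : Prd p p') : p' ≠ p := by
  rintro rfl
  rcases h with h | h <;> omega

/-- the set of allowed cells is connected by predecessors -/
def Conn (S : ℕ × ℕ → Prop) : Prop :=
  ∀ c p, S c → S p → c ≤ p → c ≠ p → ∃ p', S p' ∧ c ≤ p' ∧ Prd p p'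

lemma conn_true : Conn (fun _ => True) := by
  rintro ⟨a, b⟩ ⟨s, c⟩ - - hle hne
  have h1 : a ≤ s := hle.1
  have h2 : b ≤ c := hle.2
  by_cases h3 : a < s
  · exact ⟨(s - 1, c), trivial, ⟨by simp only; omega, h2⟩, Or.inl ⟨by simp only; omega, rfl⟩⟩
  · have h4 : b < c := by
      rcases Nat.lt_or_ge b c with h | h
      · exact h
      · exact absurd (Prod.ext (by simp only; omega) (by simp only; omega)) hne
    exact ⟨(s, c - 1), trivial, ⟨h1, by simp only; omega⟩, Or.inr ⟨rfl, by simp only; omega⟩⟩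

lemma conn_shift : Conn (fun c => c.1 ≤ c.2) := by
  rintro ⟨a, b⟩ ⟨s, c⟩ hS hS' hle hne
  simp only at hS hS'
  have h1 : a ≤ s := hle.1
  have h2 : b ≤ c := hle.2
  by_cases h3 : a < s
  · exact ⟨(s - 1, c), by simp only; omega, ⟨by simp only; omega, h2⟩,
      Or.inl ⟨by simp only; omega, rfl⟩⟩
  · have h4 : b < c := by
      rcases Nat.lt_or_ge b c with h | h
      · exact h
      · exact absurd (Prod.ext (by simp only; omega) (by simp only; omega)) hne
    exact ⟨(s, c - 1), by simp only; omega, ⟨h1, by simp only; omega⟩,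
      Or.inr ⟨rfl, by simp only; omega⟩⟩

/-- a chart: an up-closed set `N` below the top `t` with coordinates in the cells `S` -/
structure Chart (t : P) (S : ℕ × ℕ → Prop) (N : Finset P) (co : P → ℕ × ℕ) : Prop where
  up : ∀ x ∈ N, ∀ y, x ≤ y → y ∈ N
  le_t : ∀ x ∈ N, x ≤ t
  inj : ∀ x ∈ N, ∀ y ∈ N, co x = co y → x = y
  le_iff : ∀ x ∈ N, ∀ y ∈ N, (x ≤ y ↔ co y ≤ co x)
  mem : ∀ x ∈ N, S (co x)
  low : ∀ x ∈ N, ∀ c ≤ co x, S c → ∃ y ∈ N, co y = c
  lev : ∀ x ∈ N, Pool.Agent.GaussPoset.lev x = (co x).1 + (co x).2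

section Ext

variable {t : P} {S : ℕ × ℕ → Prop} {N : Finset P} {co : P → ℕ × ℕ}

lemma exists_covBy_le {z y : P} (h : z < y) : ∃ w, z ⋖ w ∧ w ≤ y := by
  classical
  let T : Finset P := univ.filter (fun w => z < w ∧ w ≤ y)
  obtain ⟨w, hw⟩ := T.exists_minimal ⟨y, by simp [T, h]⟩
  have hw1 : z < w ∧ w ≤ y := by simpa [T] using hw.1
  refine ⟨w, ⟨hw1.1, fun v hv1 hv2 => ?_⟩, hw1.2⟩
  have hvT : v ∈ T := by simp [T, hv1, hv2.le.trans hw1.2]
  exact absurd (hw.2 hvT hv2.le) (not_le_of_gt hv2)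

/-- adding an element in the position of a free cell all of whose predecessors are occupied -/
theorem Chart.addCell (hS : Conn S) (hgr : GradedBelow P) (H : Chart t S N co) {z : P}
    {p : ℕ × ℕ} (hz : z ∉ N) (hp : S p) (hfree : ∀ y ∈ N, co y ≠ p)
    (huc : ∀ y, z ⋖ y ↔ y ∈ N ∧ Prd p (co y)) (hall : ∀ p', S p' → Prd p p' → ∃ y ∈ N, co y = p')
    (hex : ∃ y, z ⋖ y) : Chart t S (insert z N) (Function.update co z p) := by
  have hne : ∀ y ∈ N, y ≠ z := fun y hy h => hz (h ▸ hy)
  have hco : ∀ y ∈ N, Function.update co z p y = co y := fun y hy =>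
    Function.update_of_ne (hne y hy) _ _
  have hcz : Function.update co z p z = p := Function.update_self _ _ _
  have hup : ∀ y, z < y → y ∈ N ∧ co y ≤ p := by
    intro y hy
    obtain ⟨w, hw, hwy⟩ := exists_covBy_le hy
    have h1 := (huc w).mp hw
    have h2 := H.up w h1.1 y hwy
    exact ⟨h2, ((H.le_iff w h1.1 y h2).mp hwy).trans h1.2.le⟩
  have hlow : ∀ c, c ≤ p → S c → c ≠ p → ∃ y ∈ N, z < y ∧ co y = c := by
    intro c hc hSc hcp
    obtain ⟨p', hp', hcp', hpr⟩ := hS c p hSc hp hc hcp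
    obtain ⟨y', hy', hcy'⟩ := hall p' hp' hpr
    have hzy' : z ⋖ y' := (huc y').mpr ⟨hy', by rw [hcy']; exact hpr⟩
    obtain ⟨y, hy, hcy⟩ := H.low y' hy' c (by rw [hcy']; exact hcp') hSc
    have h1 : y' ≤ y := (H.le_iff y' hy' y hy).mpr (by rw [hcy, hcy']; exact hcp')
    exact ⟨y, hy, hzy'.1.trans_le h1, hcy⟩
  constructor
  · intro x hx y hxy
    rw [mem_insert] at hx ⊢
    rcases hx with rfl | hx
    · rcases eq_or_lt_of_le hxy with h | h
      · exact Or.inl h.symm
      · exact Or.inr (hup y h).1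
    · exact Or.inr (H.up x hx y hxy)
  · intro x hx
    rw [mem_insert] at hx
    rcases hx with rfl | hx
    · obtain ⟨y, hy⟩ := hex
      exact hy.le.trans (H.le_t y ((huc y).mp hy).1)
    · exact H.le_t x hx
  · intro x hx y hy h
    rw [mem_insert] at hx hy
    rcases hx with rfl | hx <;> rcases hy with rfl | hy
    · rfl
    · rw [hcz, hco y hy] at h
      exact absurd h.symm (hfree y hy)
    · rw [hcz, hco x hx] at h
      exact absurd h (hfree x hx)
    · rw [hco x hx, hco y hy] at h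
      exact H.inj x hx y hy h
  · intro x hx y hy
    rw [mem_insert] at hx hy
    rcases hx with rfl | hx <;> rcases hy with rfl | hy
    · simp
    · rw [hcz, hco y hy]
      constructor
      · intro h
        exact (hup y (lt_of_le_of_ne h (hne y hy).symm)).2
      · intro h
        obtain ⟨y', hy', hlt, hcy'⟩ := hlow (co y) h (H.mem y hy) (hfree y hy)
        rw [← H.inj y' hy' y hy hcy']
        exact hlt.le
    · rw [hcz, hco x hx]
      constructor
      · intro h
        exact absurd (H.up x hx y h) hz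
      · intro h
        obtain ⟨y', hy', hcy'⟩ := H.low x hx p h hp
        exact absurd hcy' (hfree y' hy')
    · rw [hco x hx, hco y hy]
      exact H.le_iff x hx y hy
  · intro x hx
    rw [mem_insert] at hx
    rcases hx with rfl | hx
    · rw [hcz]; exact hp
    · rw [hco x hx]; exact H.mem x hx
  · intro x hx c hc hSc
    rw [mem_insert] at hx
    rcases hx with rfl | hx
    · rw [hcz] at hc
      by_cases hcp : c = p
      · exact ⟨x, mem_insert_self _ _, by rw [hcz, hcp]⟩
      · obtain ⟨y, hy, -, hcy⟩ := hlow c hc hSc hcp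
        exact ⟨y, mem_insert_of_mem hy, by rw [hco y hy, hcy]⟩
    · rw [hco x hx] at hc
      obtain ⟨y, hy, hcy⟩ := H.low x hx c hc hSc
      exact ⟨y, mem_insert_of_mem hy, by rw [hco y hy, hcy]⟩
  · intro x hx
    rw [mem_insert] at hx
    rcases hx with rfl | hx
    · rw [hcz]
      obtain ⟨y, hy⟩ := hex
      have h1 := (huc y).mp hy
      have h2 : Pool.Agent.GaussPoset.lev x = Pool.Agent.GaussPoset.lev y + 1 := by
        obtain ⟨w, h3, h4, h5⟩ := hgr x y hy.1
        rcases eq_or_lt_of_le h3 with h6 | h6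
        · rw [h6]; exact h5
        · exact absurd h4 (hy.2 h6)
      have h3 := H.lev y h1.1
      rcases h1.2 with h4 | h4 <;> omega
    · rw [hco x hx]; exact H.lev x hx

/-- `N` cannot be extended -/
def MaxChart (S : ℕ × ℕ → Prop) (N : Finset P) (co : P → ℕ × ℕ) : Prop :=
  ∀ z, z ∉ N → ∀ p, S p → (∀ y ∈ N, co y ≠ p) → (∃ y, z ⋖ y) →
    (∀ p', S p' → Prd p p' → ∃ y ∈ N, co y = p') → ¬ ∀ y, z ⋖ y ↔ y ∈ N ∧ Prd p (co y)

/-- every chart extends to a maximal chart -/
theorem Chart.exists_max (hS : Conn S) (hgr : GradedBelow P) (H : Chart t S N co) :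
    ∃ N' co', Chart t S N' co' ∧ N ⊆ N' ∧ (∀ x ∈ N, co' x = co x) ∧ MaxChart S N' co' := by
  classical
  have key : ∀ m : ℕ, ∀ (N : Finset P) (co : P → ℕ × ℕ), Chart t S N co → (Nᶜ).card = m →
      ∃ N' co', Chart t S N' co' ∧ N ⊆ N' ∧ (∀ x ∈ N, co' x = co x) ∧ MaxChart S N' co' := by
    intro m
    induction m with
    | zero =>
      intro N co H hm
      refine ⟨N, co, H, Subset.refl N, fun _ _ => rfl, ?_⟩
      intro z hz
      rw [Finset.card_eq_zero, Finset.compl_eq_empty_iff] at hm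
      exact absurd (by rw [hm]; exact mem_univ z) hz
    | succ m ih =>
      intro N co H hm
      by_cases hmax : MaxChart S N co
      · exact ⟨N, co, H, Subset.refl N, fun _ _ => rfl, hmax⟩
      · unfold MaxChart at hmax
        push Not at hmax
        obtain ⟨z, hz, p, hp, hfree, hex, hall, huc⟩ := hmax
        have H' := H.addCell hS hgr hz hp hfree huc hall hex
        have hcard : ((insert z N)ᶜ).card = m := by
          have h1 : ((insert z N)ᶜ).card = Fintype.card P - (insert z N).card :=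
            Finset.card_compl _
          have h2 : (Nᶜ).card = Fintype.card P - N.card := Finset.card_compl _
          rw [Finset.card_insert_of_notMem hz] at h1
          omega
        obtain ⟨N', co', h1, h2, h3, h4⟩ := ih _ _ H' hcard
        refine ⟨N', co', h1, (subset_insert z N).trans h2, ?_, h4⟩
        intro x hx
        rw [h3 x (mem_insert_of_mem hx)]
        exact Function.update_of_ne (fun h : x = z => hz (h ▸ hx)) _ _
  exact key _ N co H rfl

end Ext

end Pool.Agent.GaussPoset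

end

/-! From `Pool.Agent.W_448fw_h5.FwG` -/

section

/-!
From component data to the data of the far window theorem.
-/

namespace Pool.Agent.GaussPoset

set_option linter.unusedSectionVars false

open Polynomial Finset

universe u

variable {P : Type u} [Fintype P] [PartialOrder P] [DecidableEq P]

lemma GradedBelow.lev_covBy (hgr : GradedBelow P) {z x : P} (h : z ⋖ x) : lev z = lev x + 1 := by
  obtain ⟨w, h1, h2, h3⟩ := hgr z x h.1
  rcases eq_or_lt_of_le h1 with h4 | h4
  · rw [h4]; exact h3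
  · exact absurd h2 (h.2 h4)

/-- lower sets which contain `R`, live on levels `> i` and avoid the base cells `B` -/
def Good (i : ℕ) (R : Finset P) (B : P → Prop) (D : Finset P) : Prop :=
  (∀ x y, x ≤ y → y ∈ D → x ∈ D) ∧ R ⊆ D ∧ (∀ x ∈ D, i < lev x) ∧ ∀ x ∈ D, ¬ B x

variable {ι : Type*}

/-- data of the component `k` at window `i`: order `b`, thresholds `θ`, base cells `B` -/
structure CompData (R : Finset P) (cp : P → ι) (k : ι) (i b : ℕ) (θ : P → ℕ) (B : P → Prop) :
    Prop where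
  clean : ∀ D, Good i R B D → ∀ _ : DecidableEq ι,
    (1 + X : Polynomial (PowerSeries ℤ)) ^ b ∣ W {x : {x : P // x ∉ D} // cp (x : P) = k} i
  lev : ∀ x, x ∉ R → cp x = k → 1 ≤ θ x → i < lev x
  base : ∀ x, x ∉ R → cp x = k → 1 ≤ θ x → ∀ y ≤ x, y ∉ R → ¬ B y
  step : ∀ x, x ∉ R → cp x = k → 1 ≤ θ x → ∀ y ≤ x, y ∉ R → ∀ x', x' ∉ R → y ⋖ x' →
    ¬ x' ≤ x → θ x ≤ θ x' + 1
  le : ∀ x, x ∉ R → cp x = k → θ x ≤ Pool.Agent.GaussPoset.lev x - i

open Classical in
/-- the canonical labels -/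
noncomputable def hcan (R : Finset P) (θ : P → ℕ) (z : P) : ℕ :=
  sInf {t | ∃ x, x ∉ R ∧ z ⋖ x ∧ t = θ x + 1}

lemma hcan_spec {R : Finset P} {θ : P → ℕ} {z : P} (hz : z ∈ bdR R) :
    ∃ x, x ∉ R ∧ z ⋖ x ∧ hcan R θ z = θ x + 1 := by
  classical
  obtain ⟨x, hx, hzx⟩ := (mem_filter.mp hz).2
  exact Nat.sInf_mem (⟨θ x + 1, x, hx, hzx, rfl⟩ : {t | ∃ x, x ∉ R ∧ z ⋖ x ∧ t = θ x + 1}.Nonempty)

lemma hcan_le {R : Finset P} {θ : P → ℕ} {z x : P} (hx : x ∉ R) (hzx : z ⋖ x) :
    hcan R θ z ≤ θ x + 1 :=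
  Nat.sInf_le ⟨x, hx, hzx, rfl⟩

/-- the far window theorem applies to components with component data -/
theorem farData_of_comp [Fintype ι] [DecidableEq ι] {i : ℕ} {R : Finset P}
    (hgr : GradedBelow P) (hR : ∀ x y, x ≤ y → y ∈ R → x ∈ R) (hRlev : ∀ x ∈ R, i < lev x)
    (cp : P → ι) (hcp : ∀ x y, x ≤ y → x ∉ R → cp x = cp y) (b : ι → ℕ) (θ : P → ℕ)
    (B : P → Prop) (hBR : ∀ x ∈ R, ¬ B x) (H : ∀ k, CompData R cp k i (b k) θ B) :
    FarData P i R (∑ k, b k) (hcan R θ) := by
  classical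
  let θ' : P → ℕ := fun x => if x ∈ R then 0 else θ x
  have hθ' : ∀ x, x ∉ R → θ' x = θ x := fun x hx => if_neg hx
  have hθ0 : ∀ x, 1 ≤ θ' x → x ∉ R := by
    intro x hx hxR
    have : θ' x = 0 := if_pos hxR
    omega
  refine farData_of_thresholds hgr {D | Good i R B D} θ' (fun D hD => hD.1)
    (fun D hD => hD.2.2.1) ?_ ?_ ?_ ?_ ⟨hR, Subset.refl R, hRlev, hBR⟩ ?_ ?_ ?_
  · intro x hx
    have hxR := hθ0 x hx
    rw [hθ' x hxR] at hx
    exact (H (cp x)).lev x hxR rfl hx
  · intro D hD n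
    rw [ZB_off hD.1 hD.2.2.1]
    refine dvd_Z_of_dvd_W ?_ n
    refine dvd_W_prod (fun x : {x : P // x ∉ D} => cp (x : P)) ?_ i b fun k => ?_
    · intro x y hxy
      exact hcp x y hxy fun h => x.2 (hD.2.1 h)
    · exact (H k).clean D hD inferInstance
  · intro D hD x hx hθx
    have hxR := hθ0 x hθx
    rw [hθ' x hxR] at hθx
    have hlx := (H (cp x)).lev x hxR rfl hθx
    refine ⟨?_, hD.2.1.trans subset_union_left, ?_, ?_⟩
    · intro a c hac hc
      rw [mem_union, mem_dnf] at hc ⊢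
      rcases hc with hc | hc
      · exact Or.inl (hD.1 a c hac hc)
      · exact Or.inr (hac.trans hc)
    · intro a ha
      rw [mem_union, mem_dnf] at ha
      rcases ha with ha | ha
      · exact hD.2.2.1 a ha
      · rcases eq_or_lt_of_le ha with h | h
        · rw [h]; exact hlx
        · have := lev_strictAnti h; omega
    · intro a ha
      rw [mem_union, mem_dnf] at ha
      rcases ha with ha | ha
      · exact hD.2.2.2 a ha
      · by_cases haR : a ∈ R
        · exact hBR a haR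
        · exact (H (cp x)).base x hxR rfl hθx a ha haR
  · intro D hD x hx hθx y hyx hyD x' hyx' hx'x
    have hxR := hθ0 x hθx
    have hyR : y ∉ R := fun h => hyD (hD.2.1 h)
    have hx'R : x' ∉ R := fun h => hyR (hR y x' hyx'.1.le h)
    rw [hθ' x hxR] at hθx ⊢
    rw [hθ' x' hx'R]
    exact (H (cp x)).step x hxR rfl hθx y hyx hyR x' hx'R hyx' hx'x
  · intro z hz
    obtain ⟨x, -, -, hx⟩ := hcan_spec (θ := θ) hz
    omega
  · intro z hz
    obtain ⟨x, hxR, hzx, hx⟩ := hcan_spec (θ := θ) hz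
    have h1 := hgr.lev_covBy hzx
    have h2 := (H (cp x)).le x hxR rfl
    have h3 := hRlev z (mem_filter.mp hz).1
    omega
  · intro z _ x hx hzx
    rw [hθ' x hx]
    exact hcan_le hx hzx

section Light

variable {R : Finset P} {cp : P → ι} {k : ι} {i : ℕ}

end Light

end Pool.Agent.GaussPoset

end

/-! From `Pool.Agent.W_448tw_h76.TwA` -/

section

/-!
Truncated cleanness (energies `< n0`), the step identity, redundant bounds.
-/

namespace Pool.Agent.GaussPoset

set_option linter.unusedSectionVars false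

open Polynomial Finset

universe u

variable {P : Type u} [Fintype P] [PartialOrder P] [DecidableEq P]

section Shift

variable {i : ℕ} {D : Finset P} {g : P → ℕ} (β : P → ℕ)

/-- Lemma A, truncated -/
lemma dvd_ZB_shift_lt (hD : ∀ x y, x ≤ y → y ∈ D → x ∈ D) (hlev : ∀ x ∈ D, i < lev x)
    (hg : ∀ x, x ∉ D → g x = 0) (p : ℤ[X]) (n0 : ℕ)
    (h : ∀ n < n0, p ∣ ZB i D 0 (bg D g β) n) (n : ℕ) (hn0 : n < n0) :
    p ∣ ZB i D g β n := by
  by_cases hc : ∀ x ∈ D, ∀ y ∈ D, x ≤ y → g x ≤ g y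
  · by_cases hn : n < ∑ x ∈ D, g x
    · rw [ZB_zero_of_lt β n hn]; exact dvd_zero p
    · have hs : ∑ x ∈ D, g x = ∑ x, g x :=
        Finset.sum_subset (subset_univ D) fun x _ hx => hg x hx
      obtain ⟨m, rfl⟩ : ∃ m, n = m + ∑ x, g x := ⟨n - ∑ x, g x, by omega⟩
      rw [ZB_shift β hD hlev hg hc]
      exact h m (by omega)
  · rw [ZB_zero_of_not_compat β hlev hc]; exact dvd_zero p

end Shift

section Step

variable {i : ℕ} {D : Finset P} {g : P → ℕ} (β : P → ℕ) (x0 : P)

open Classical in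
/-- raising the bound at `x0` by one: the identity -/
theorem ZB_step_eq (hx0 : x0 ∉ D) (hlx : i < lev x0) (n : ℕ) :
    ZB i D g β n = ZB i D g (Function.update β x0 (β x0 + 1)) n +
      ∑ g' ∈ Fintype.piFinset (fun _ : P => range (n + 1)),
        if Gd D g β x0 g' then ZB i (D ∪ dnf x0) g' β n else 0 := by
  set Gs : Finset (P → ℕ) := Fintype.piFinset (fun _ => range (n + 1)) with hGs
  have h3 : ∀ g' ∈ Gs, (if Gd D g β x0 g' then ZB i (D ∪ dnf x0) g' β n else 0) =
      ∑ F : Finset P, ∑ _e ∈ ((univ : Finset P).piAntidiag n).filter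
        (fun e => Fib i D g β x0 g' e F), (X : ℤ[X]) ^ F.card := by
    intro g' _
    by_cases hG : Gd D g β x0 g'
    · rw [if_pos hG]
      unfold ZB
      refine Finset.sum_congr rfl fun F _ => ?_
      have : ∀ e : P → ℕ, Fib i D g β x0 g' e F ↔ Cst i (D ∪ dnf x0) g' β e F := by
        intro e
        rw [fib_iff β x0 hlx]
        exact ⟨fun h => h.2, fun h => ⟨hG, h⟩⟩
      simp only [this]
    · rw [if_neg hG]
      symm
      refine Finset.sum_eq_zero fun F _ => ?_
      rw [Finset.filter_eq_empty_iff.mpr, Finset.sum_empty]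
      intro e _ hC
      rw [fib_iff β x0 hlx] at hC
      exact hG hC.1
  rw [Finset.sum_congr rfl h3, Finset.sum_comm]
  unfold ZB
  rw [← Finset.sum_add_distrib]
  refine Finset.sum_congr rfl fun F _ => ?_
  have h4 : ∑ g' ∈ Gs, ∑ _e ∈ ((univ : Finset P).piAntidiag n).filter
        (fun e => Fib i D g β x0 g' e F), (X : ℤ[X]) ^ F.card =
      ∑ _e ∈ ((univ : Finset P).piAntidiag n).filter
        (fun e => Cst i D g β e F ∧ (x0 ∉ F ∧ e x0 = β x0)), (X : ℤ[X]) ^ F.card := by
    have hmaps : ∀ e ∈ ((univ : Finset P).piAntidiag n).filter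
        (fun e => Cst i D g β e F ∧ (x0 ∉ F ∧ e x0 = β x0)),
        (fun x => if x ∈ D ∪ dnf x0 then e x else 0) ∈ Gs := by
      intro e he
      rw [mem_filter, mem_piAntidiag] at he
      rw [hGs, Fintype.mem_piFinset]
      intro x
      rw [mem_range]
      have h5 : e x ≤ ∑ y, e y := Finset.single_le_sum (fun y _ => Nat.zero_le _) (mem_univ x)
      have h6 : ∑ y, e y = n := he.1.1
      split_ifs <;> omega
    refine Eq.trans ?_ (Finset.sum_fiberwise_of_maps_to hmaps (fun _ => (X : ℤ[X]) ^ F.card))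
    refine Finset.sum_congr rfl fun g' _ => ?_
    refine Finset.sum_congr ?_ (fun _ _ => rfl)
    ext e
    simp only [mem_filter, Fib]
    constructor
    · rintro ⟨h5, h6, h7, h8, h9⟩
      exact ⟨⟨h5, h6, h7, h8⟩, funext fun x => (h9 x).symm⟩
    · rintro ⟨⟨h5, h6, h7, h8⟩, h9⟩
      exact ⟨h5, h6, h7, h8, fun x => (congrFun h9 x).symm⟩
  rw [h4]
  have h5 : ((univ : Finset P).piAntidiag n).filter
      (fun e => Cst i D g (Function.update β x0 (β x0 + 1)) e F) =
      ((univ : Finset P).piAntidiag n).filter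
      (fun e => Cst i D g β e F ∧ ¬ (x0 ∉ F ∧ e x0 = β x0)) := by
    refine Finset.filter_congr fun e _ => ?_
    rw [cst_update_iff β x0 hx0 hlx]
  rw [h5, ← Finset.filter_filter, ← Finset.filter_filter]
  have h6 := Finset.sum_filter_add_sum_filter_not
    (((univ : Finset P).piAntidiag n).filter (fun e => Cst i D g β e F))
    (fun e : P → ℕ => (x0 ∉ F ∧ e x0 = β x0)) (fun _ => (X : ℤ[X]) ^ F.card)
  rw [← h6, add_comm]

/-- raising a bound -/
lemma dvd_ZB_step_up (hx0 : x0 ∉ D) (hlx : i < lev x0) (p : ℤ[X]) (n : ℕ)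
    (h1 : p ∣ ZB i D g β n)
    (h2 : ∀ g', Gd D g β x0 g' → p ∣ ZB i (D ∪ dnf x0) g' β n) :
    p ∣ ZB i D g (Function.update β x0 (β x0 + 1)) n := by
  classical
  have key := ZB_step_eq (g := g) β x0 hx0 hlx n
  have h7 : ZB i D g (Function.update β x0 (β x0 + 1)) n = ZB i D g β n -
      ∑ g' ∈ Fintype.piFinset (fun _ : P => range (n + 1)),
        if Gd D g β x0 g' then ZB i (D ∪ dnf x0) g' β n else 0 := by
    rw [key]; ring
  rw [h7]
  refine dvd_sub h1 (Finset.dvd_sum fun g' _ => ?_)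
  split_ifs with hG
  · exact h2 g' hG
  · exact dvd_zero p

/-- lowering a bound -/
lemma dvd_ZB_step_down (hx0 : x0 ∉ D) (hlx : i < lev x0) (p : ℤ[X]) (n : ℕ)
    (h1 : p ∣ ZB i D g (Function.update β x0 (β x0 + 1)) n)
    (h2 : ∀ g', Gd D g β x0 g' → p ∣ ZB i (D ∪ dnf x0) g' β n) :
    p ∣ ZB i D g β n := by
  classical
  rw [ZB_step_eq (g := g) β x0 hx0 hlx n]
  refine dvd_add h1 (Finset.dvd_sum fun g' _ => ?_)
  split_ifs with hG
  · exact h2 g' hG
  · exact dvd_zero p

end Step

/-- bounds which follow from other bounds can be dropped -/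
lemma ZB_redundant {i : ℕ} {D : Finset P} {g β β' : P → ℕ}
    (h1 : ∀ x, x ∉ D → β x ≤ β' x)
    (h2 : ∀ y, y ∉ D → β' y ≤ β y ∨ ∃ x ≤ y, x ∉ D ∧ β' y ≤ β x) (n : ℕ) :
    ZB i D g β' n = ZB i D g β n := by
  classical
  unfold ZB
  refine Finset.sum_congr rfl fun F _ => ?_
  refine Finset.sum_congr (Finset.filter_congr fun e _ => ?_) (fun _ _ => rfl)
  unfold Cst
  refine and_congr_right fun hV => and_congr Iff.rfl ⟨fun h x hx hxF => ?_, fun h y hy hyF => ?_⟩
  · have := h x hx hxF
    have h3 : (β x : ℤ) ≤ β' x := by exact_mod_cast h1 x hx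
    exact h3.trans this
  · rcases h2 y hy with h3 | ⟨x, hxy, hx, h3⟩
    · have := h y hy hyF
      have h4 : (β' y : ℤ) ≤ β y := by exact_mod_cast h3
      exact h4.trans this
    · have hxF : x ∉ F := fun h' => hyF (hV.1 x y hxy h')
      have := h x hx hxF
      have h4 : (β' y : ℤ) ≤ β x := by exact_mod_cast h3
      exact h4.trans (this.trans (hV.2.2.1 x y hxy hxF hyF))

/-- bounded cleanness from unbounded cleanness, truncated -/
theorem dvd_ZB_bounds_lt (i : ℕ) (p : ℤ[X]) (n0 : ℕ) (DD : Set (Finset P)) (θ : P → ℕ)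
    (hlow : ∀ D ∈ DD, ∀ x y, x ≤ y → y ∈ D → x ∈ D) (hlev : ∀ D ∈ DD, ∀ x ∈ D, i < lev x)
    (hθ : ∀ x, 1 ≤ θ x → i < lev x) (c0 : ∀ D ∈ DD, ∀ n < n0, p ∣ ZB i D 0 0 n)
    (c1 : ∀ D ∈ DD, ∀ x, x ∉ D → 1 ≤ θ x → D ∪ dnf x ∈ DD)
    (c2 : ∀ D ∈ DD, ∀ x, x ∉ D → 1 ≤ θ x → ∀ y ≤ x, y ∉ D → ∀ x', y ⋖ x' → ¬ x' ≤ x →
      θ x ≤ θ x' + 1) :
    ∀ D ∈ DD, ∀ β : P → ℕ, (∀ x, x ∉ D → β x ≤ θ x) → ∀ n < n0, p ∣ ZB i D 0 β n := by
  classical
  have outer : ∀ N : ℕ, ∀ D ∈ DD, (Dᶜ).card = N → ∀ β : P → ℕ, (∀ x, x ∉ D → β x ≤ θ x) →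
      ∀ n < n0, p ∣ ZB i D 0 β n := by
    intro N
    induction N using Nat.strong_induction_on with
    | _ N ihN =>
    intro D hDD hN
    have inner : ∀ s : ℕ, ∀ β : P → ℕ, (∑ x ∈ Dᶜ, β x = s) → (∀ x, x ∉ D → β x ≤ θ x) →
        ∀ n < n0, p ∣ ZB i D 0 β n := by
      intro s
      induction s with
      | zero =>
        intro β hβ _ n hn
        have h0 : ∀ x, x ∉ D → β x = 0 := by
          intro x hx
          rw [Finset.sum_eq_zero_iff] at hβ
          exact hβ x (by simpa using hx)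
        rw [ZB_congr (g' := 0) (β' := 0) (fun _ _ => rfl) (fun x hx => by simpa using h0 x hx)]
        exact c0 D hDD n hn
      | succ s ihs =>
        intro β hβ hbd n hn
        obtain ⟨x0, hx0, hx0b⟩ : ∃ x0, x0 ∉ D ∧ 1 ≤ β x0 := by
          by_contra hcon
          push Not at hcon
          have : ∑ x ∈ Dᶜ, β x = 0 := Finset.sum_eq_zero fun x hx => by
            have := hcon x (by simpa using hx)
            omega
          omega
        let β' : P → ℕ := Function.update β x0 (β x0 - 1)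
        have hβ'x : β' x0 = β x0 - 1 := Function.update_self _ _ _
        have hβ'n : ∀ x, x ≠ x0 → β' x = β x := fun x hx => Function.update_of_ne hx _ _
        have hββ : β = Function.update β' x0 (β' x0 + 1) := by
          funext x
          by_cases hx : x = x0
          · subst hx
            rw [Function.update_self, hβ'x]; omega
          · rw [Function.update_of_ne hx, hβ'n x hx]
        have hle : ∀ x, β' x ≤ β x := by
          intro x
          by_cases hx : x = x0
          · subst hx; rw [hβ'x]; omega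
          · rw [hβ'n x hx]
        have hθx0 : 1 ≤ θ x0 := hx0b.trans (hbd x0 hx0)
        have hsum : ∑ x ∈ Dᶜ, β' x = s := by
          have h1 : ∑ x ∈ Dᶜ, β x = ∑ x ∈ Dᶜ, β' x + 1 := by
            rw [← Finset.add_sum_erase Dᶜ β (by simpa using hx0 : x0 ∈ Dᶜ),
              ← Finset.add_sum_erase Dᶜ β' (by simpa using hx0 : x0 ∈ Dᶜ), hβ'x]
            have h2 : ∑ x ∈ Dᶜ.erase x0, β x = ∑ x ∈ Dᶜ.erase x0, β' x :=
              Finset.sum_congr rfl fun x hx => (hβ'n x (ne_of_mem_erase hx)).symm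
            omega
          omega
        rw [hββ]
        refine dvd_ZB_step_up β' x0 hx0 (hθ x0 hθx0) p n
          (ihs β' hsum (fun x hx => (hle x).trans (hbd x hx)) n hn) ?_
        intro g' hG
        obtain ⟨g1, g2, g3, g4, g5⟩ := hG
        have hD' := c1 D hDD x0 hx0 hθx0
        refine dvd_ZB_shift_lt β' (hlow _ hD') (hlev _ hD') g5 p n0 (fun n hn => ?_) n hn
        refine ihN _ ?_ _ hD' rfl _ ?_ n hn
        · rw [← hN]
          apply Finset.card_lt_card
          rw [Finset.compl_ssubset_compl]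
          rw [Finset.ssubset_iff_of_subset subset_union_left]
          exact ⟨x0, mem_union_right _ (mem_dnf.mpr le_rfl), hx0⟩
        · intro x hx
          rw [mem_union, mem_dnf, not_or] at hx
          refine bg_le ((hle x).trans (hbd x hx.1)) ?_
          intro y hy hyx
          by_cases hyD : y ∈ D
          · rw [g1 y hyD]; exact Nat.zero_le _
          · have hyx0 : y ≤ x0 := by
              rcases mem_union.mp hy with h | h
              · exact absurd h hyD
              · exact mem_dnf.mp h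
            have h1 := g3 y hyx0
            rw [hβ'x] at h1
            have h2 := c2 D hDD x0 hx0 hθx0 y hyx0 hyD x hyx hx.2
            have h3 := hbd x0 hx0
            omega
    intro β hbd n hn
    exact inner _ β rfl hbd n hn
  intro D hDD β hbd n hn
  exact outer _ D hDD rfl β hbd n hn

/-- the same with frozen labels on `D` -/
theorem dvd_ZB_labels_lt (i : ℕ) (p : ℤ[X]) (n0 : ℕ) (DD : Set (Finset P)) (θ : P → ℕ)
    (hlow : ∀ D ∈ DD, ∀ x y, x ≤ y → y ∈ D → x ∈ D) (hlev : ∀ D ∈ DD, ∀ x ∈ D, i < lev x)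
    (hb : ∀ D ∈ DD, ∀ β : P → ℕ, (∀ x, x ∉ D → β x ≤ θ x) → ∀ n < n0, p ∣ ZB i D 0 β n)
    {D : Finset P} (hD : D ∈ DD) (g : P → ℕ) (hg0 : ∀ x, x ∉ D → g x = 0)
    (hg : ∀ y ∈ D, ∀ x, x ∉ D → y ⋖ x → g y ≤ θ x) (n : ℕ) (hn : n < n0) :
    p ∣ ZB i D g 0 n := by
  refine dvd_ZB_shift_lt 0 (hlow D hD) (hlev D hD) hg0 p n0 (fun n hn => ?_) n hn
  refine hb D hD _ ?_ n hn
  intro x hx
  exact bg_le (Nat.zero_le _) fun y hy hyx => hg y hy x hx hyx

end Pool.Agent.GaussPoset

end

/-! From `Pool.Agent.W_448tw_h76.TwB` -/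

section

/-!
The twin lemma: twins (elements with the same upper covers) of natural elements can be
admitted, with the same thresholds, as long as the energy is small.
-/

namespace Pool.Agent.GaussPoset

set_option linter.unusedSectionVars false

open Polynomial Finset

universe u

variable {P : Type u} [Fintype P] [PartialOrder P] [DecidableEq P]

omit [DecidableEq P] in
lemma lev_eq_of_up {x x' : P} (h : ∀ y, x < y ↔ x' < y) : lev x = lev x' := by
  have key : ∀ a b : P, (∀ y, a < y ↔ b < y) → lev a ≤ lev b := by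
    intro a b hab
    rcases Nat.eq_zero_or_pos (lev a) with h0 | h0
    · omega
    · obtain ⟨y, hy, hly⟩ := exists_lev_succ (x := a) (k := lev a - 1) (by omega)
      have h1 := lev_strictAnti ((hab y).mp hy)
      omega
  exact le_antisymm (key _ _ h) (key _ _ fun y => (h y).symm)

/-- a pair of twins `x, x'` with common threshold, for energies `< n0` -/
structure TwinPair (i : ℕ) (θ : P → ℕ) (n0 : ℕ) (x x' : P) : Prop where
  ne : x ≠ x'
  up : ∀ y, x < y ↔ x' < y
  one_le : 1 ≤ θ x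
  eq : θ x' = θ x
  le : θ x ≤ lev x - i
  costF : n0 ≤ ∑ y, (by classical exact if x ≤ y then lev y - i else 0) + θ x
  costT : n0 ≤ ∑ y, (by classical exact if x < y then min (θ x + 1) (lev y - i) else 0) +
    (2 * θ x + 1)

section Step

variable {i : ℕ} {p : ℤ[X]} {n0 : ℕ} {θ : P → ℕ} {x x' : P} {D : Finset P}

/-- bounds at the two twins -/
def st2 (x x' : P) (a a' : ℕ) (y : P) : ℕ := if y = x then a else if y = x' then a' else 0

lemma st2_update_right (hne : x ≠ x') (a b c : ℕ) :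
    Function.update (st2 x x' a b) x' c = st2 x x' a c := by
  funext y
  by_cases hy : y = x'
  · subst hy
    rw [Function.update_self]
    unfold st2
    rw [if_neg hne.symm, if_pos rfl]
  · rw [Function.update_of_ne hy]
    unfold st2
    simp only [if_neg hy]

lemma st2_update_left (a b c : ℕ) :
    Function.update (st2 x x' a b) x c = st2 x x' c b := by
  funext y
  by_cases hy : y = x
  · subst hy
    rw [Function.update_self]
    unfold st2
    rw [if_pos rfl]
  · rw [Function.update_of_ne hy]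
    unfold st2
    simp only [if_neg hy]

/-- no energy below the cost of two high labels -/
lemma ZB_st2_eq_zero (H : TwinPair i θ n0 x x') (hlx : i < lev x) (hx : x ∉ D) (hx' : x' ∉ D)
    (g : P → ℕ) {n : ℕ} (hn : n < n0) : ZB i D g (st2 x x' (θ x) (θ x + 1)) n = 0 := by
  classical
  have hlx' : i < lev x' := by rw [← lev_eq_of_up H.up]; exact hlx
  unfold ZB
  refine Finset.sum_eq_zero fun F _ => ?_
  rw [Finset.filter_eq_empty_iff.mpr, Finset.sum_empty]
  rintro e he ⟨hV, -, hβ⟩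
  rw [mem_piAntidiag] at he
  have hsum : ∑ y, e y = n := he.1
  by_cases hF : x ∈ F ∨ x' ∈ F
  · -- for an element `a` of the pair in `F`, the other one `a'` costs at least `θ x`
    have key : ∀ a a' : P, (∀ y, a < y ↔ a' < y) → a ≠ a' → a ∈ F → θ x ≤ e a' →
        ∑ y, (if a ≤ y then lev y - i else 0) + θ x ≤ ∑ y, e y := by
      intro a a' hup hne haF ha'
      have h0 : ¬ a ≤ a' := fun h => lt_irrefl a' ((hup a').mp (lt_of_le_of_ne h hne))
      have h1 : ∑ y, ((if a ≤ y then lev y - i else 0) + (if y = a' then θ x else 0)) ≤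
          ∑ y, e y := by
        refine Finset.sum_le_sum fun y _ => ?_
        by_cases hay : a ≤ y
        · have hya : y ≠ a' := fun h => h0 (h ▸ hay)
          rw [if_pos hay, if_neg hya, add_zero]
          exact sub_le_of_mem hV (hV.1 a y hay haF)
        · rw [if_neg hay, zero_add]
          split_ifs with h2
          · rw [h2]; exact ha'
          · exact Nat.zero_le _
      rw [Finset.sum_add_distrib, Finset.sum_ite_eq' univ a', if_pos (mem_univ _)] at h1
      exact h1
    have hswap : ∑ y, (if x ≤ y then lev y - i else 0) =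
        ∑ y, (if x' ≤ y then lev y - i else 0) := by
      have h3 : ∀ a : P, ∑ y, (if a ≤ y then lev y - i else 0) =
          (lev a - i) + ∑ y, (if a < y then lev y - i else 0) := by
        intro a
        rw [← Finset.add_sum_erase univ _ (mem_univ a), if_pos le_rfl,
          ← Finset.add_sum_erase univ (fun y => if a < y then lev y - i else 0) (mem_univ a),
          if_neg (lt_irrefl a), zero_add]
        congr 1
        refine Finset.sum_congr rfl fun y hy => ?_
        have hne := (mem_erase.mp hy).1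
        by_cases h4 : a < y
        · rw [if_pos h4, if_pos h4.le]
        · rw [if_neg h4, if_neg]
          intro h5
          exact h4 (lt_of_le_of_ne h5 (Ne.symm hne))
      rw [h3, h3, lev_eq_of_up H.up]
      congr 1
      exact Finset.sum_congr rfl fun y _ => by simp only [H.up y]
    have h1 : ∑ y, (if x ≤ y then lev y - i else 0) + θ x ≤ ∑ y, e y := by
      rcases hF with hF | hF
      · refine key x x' H.up H.ne hF ?_
        by_cases hx'F : x' ∈ F
        · have h2 := sub_le_of_mem hV hx'F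
          rw [← lev_eq_of_up H.up] at h2
          exact H.le.trans h2
        · have h2 := hβ x' hx' hx'F
          rw [rho_of_lt hlx'] at h2
          unfold st2 at h2
          rw [if_neg H.ne.symm, if_pos rfl] at h2
          have h3 : θ x + 1 ≤ e x' := by exact_mod_cast h2
          omega
      · rw [hswap]
        refine key x' x (fun y => (H.up y).symm) H.ne.symm hF ?_
        by_cases hxF : x ∈ F
        · exact H.le.trans (sub_le_of_mem hV hxF)
        · have h2 := hβ x hx hxF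
          rw [rho_of_lt hlx] at h2
          unfold st2 at h2
          rw [if_pos rfl] at h2
          exact_mod_cast h2
    have h2 := H.costF
    omega
  · push Not at hF
    have hβx := hβ x hx hF.1
    have hβx' := hβ x' hx' hF.2
    rw [rho_of_lt hlx] at hβx
    rw [rho_of_lt hlx'] at hβx'
    have h1 : st2 x x' (θ x) (θ x + 1) x = θ x := by unfold st2; rw [if_pos rfl]
    have h2 : st2 x x' (θ x) (θ x + 1) x' = θ x + 1 := by
      unfold st2; rw [if_neg H.ne.symm, if_pos rfl]
    rw [h1] at hβx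
    rw [h2] at hβx'
    have h3 : θ x ≤ e x := by exact_mod_cast hβx
    have h4 : θ x + 1 ≤ e x' := by exact_mod_cast hβx'
    have h5 : ∑ y, ((if x < y then min (θ x + 1) (lev y - i) else 0) +
        ((if y = x then θ x else 0) + (if y = x' then θ x + 1 else 0))) ≤ ∑ y, e y := by
      refine Finset.sum_le_sum fun y _ => ?_
      by_cases hxy : x < y
      · have hne : y ≠ x := hxy.ne'
        have hx'y := (H.up y).mp hxy
        have hne' : y ≠ x' := hx'y.ne'
        rw [if_pos hxy, if_neg hne, if_neg hne', add_zero, add_zero]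
        by_cases hyF : y ∈ F
        · exact (min_le_right _ _).trans (sub_le_of_mem hV hyF)
        · refine (min_le_left _ _).trans ?_
          have h6 := hV.2.2.1 x' y hx'y.le hF.2 hyF
          rw [rho_of_lt hlx'] at h6
          have h7 := rho_le i e y
          omega
      · rw [if_neg hxy, zero_add]
        by_cases hyx : y = x
        · subst hyx
          rw [if_pos rfl, if_neg H.ne, add_zero]
          exact h3
        · rw [if_neg hyx, zero_add]
          by_cases hyx' : y = x'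
          · subst hyx'
            rw [if_pos rfl]
            exact h4
          · rw [if_neg hyx']
            exact Nat.zero_le _
    rw [Finset.sum_add_distrib, Finset.sum_add_distrib, Finset.sum_ite_eq' univ x,
      Finset.sum_ite_eq' univ x', if_pos (mem_univ _), if_pos (mem_univ _)] at h5
    have h6 := H.costT
    omega

/-- the twin step -/
theorem dvd_ZB_twin_step (H : TwinPair i θ n0 x x') (hlx : i < lev x) (hx : x ∉ D) (hx' : x' ∉ D)
    (hmin : ∀ y < x', y ∈ D)
    (hlow : ∀ E : Finset P, E = D ∪ dnf x ∨ E = D ∪ dnf x' → ∀ a c, a ≤ c → c ∈ E → a ∈ E)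
    (hlev : ∀ E : Finset P, E = D ∪ dnf x ∨ E = D ∪ dnf x' → ∀ a ∈ E, i < lev a)
    (hc2 : ∀ y ≤ x, y ∉ D → ∀ w, y ⋖ w → ¬ w ≤ x → θ x ≤ θ w + 1)
    (hBC : ∀ E : Finset P, E = D ∪ dnf x ∨ E = D ∪ dnf x' →
      ∀ β : P → ℕ, (∀ y, y ∉ E → β y ≤ θ y) → ∀ n < n0, p ∣ ZB i E 0 β n)
    (n : ℕ) (hn : n < n0) : p ∣ ZB i D 0 0 n := by
  classical
  have hlx' : i < lev x' := by rw [← lev_eq_of_up H.up]; exact hlx
  have hs1 : ∀ a b, st2 x x' a b x = a := fun a b => by unfold st2; rw [if_pos rfl]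
  have hs2 : ∀ a b, st2 x x' a b x' = b := fun a b => by
    unfold st2; rw [if_neg H.ne.symm, if_pos rfl]
  have hs3 : ∀ a b y, y ≠ x → y ≠ x' → st2 x x' a b y = 0 := fun a b y h1 h2 => by
    unfold st2; rw [if_neg h1, if_neg h2]
  have hxx' : ¬ x ≤ x' := fun h => hx (hmin x (lt_of_le_of_ne h H.ne))
  have hx'x : ¬ x' ≤ x := fun h => by
    have h1 : x' < x := lt_of_le_of_ne h H.ne.symm
    exact lt_irrefl x ((H.up x).mpr h1)
  have stepA : ∀ k ≤ θ x, p ∣ ZB i D 0 (st2 x x' k (k + 1)) n → p ∣ ZB i D 0 (st2 x x' k k) n := by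
    intro k hk h
    refine dvd_ZB_step_down (st2 x x' k k) x' hx' hlx' p n ?_ ?_
    · rw [hs2, st2_update_right H.ne]
      exact h
    · intro g' hG
      obtain ⟨g1, g2, g3, g4, g5⟩ := hG
      rw [hs2] at g2 g3
      have hE : D ∪ dnf x' = D ∪ dnf x ∨ D ∪ dnf x' = D ∪ dnf x' := Or.inr rfl
      refine dvd_ZB_shift_lt _ (hlow _ hE) (hlev _ hE) g5 p n0 (fun n hn => ?_) n hn
      rw [ZB_redundant (β := st2 x x' k 0)]
      · refine hBC _ hE _ ?_ n hn
        intro y hy
        rw [mem_union, mem_dnf, not_or] at hy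
        by_cases hyx : y = x
        · subst hyx; rw [hs1]; exact hk
        · rw [hs3 k 0 y hyx (fun h => hy.2 h.le)]
          exact Nat.zero_le _
      · intro y hy
        rw [mem_union, mem_dnf, not_or] at hy
        refine le_trans ?_ (le_bg _ _ _ y)
        by_cases hyx : y = x
        · subst hyx; rw [hs1, hs1]
        · rw [hs3 k 0 y hyx (fun h => hy.2 h.le)]
          exact Nat.zero_le _
      · intro y hy
        rw [mem_union, mem_dnf, not_or] at hy
        have hdall : ∀ d ∈ D ∪ dnf x', d ∈ D ∨ d = x' := by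
          intro d hd
          rw [mem_union, mem_dnf] at hd
          rcases hd with hd | hd
          · exact Or.inl hd
          · rcases eq_or_lt_of_le hd with h1 | h1
            · exact Or.inr h1
            · exact Or.inl (hmin d h1)
        by_cases hxy : x < y
        · right
          refine ⟨x, hxy.le, ?_, ?_⟩
          · rw [mem_union, mem_dnf]
            rintro (h1 | h1)
            · exact hx h1
            · exact hxx' h1
          · rw [hs1]
            refine bg_le ?_ ?_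
            · rw [hs3 k k y hxy.ne' (fun h => hy.2 h.le)]
              exact Nat.zero_le _
            · intro d hd _
              rcases hdall d hd with h1 | h1
              · rw [g1 d h1]; exact Nat.zero_le _
              · rw [h1, g2]
        · left
          refine bg_le ?_ ?_
          · by_cases hyx : y = x
            · subst hyx; rw [hs1, hs1]
            · rw [hs3 k k y hyx (fun h => hy.2 h.le)]
              exact Nat.zero_le _
          · intro d hd hdy
            rcases hdall d hd with h1 | h1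
            · rw [g1 d h1]; exact Nat.zero_le _
            · exfalso
              rw [h1] at hdy
              exact hxy ((H.up y).mpr hdy.1)
  have stepB : ∀ k, k + 1 ≤ θ x → p ∣ ZB i D 0 (st2 x x' (k + 1) (k + 1)) n →
      p ∣ ZB i D 0 (st2 x x' k (k + 1)) n := by
    intro k hk h
    refine dvd_ZB_step_down (st2 x x' k (k + 1)) x hx hlx p n ?_ ?_
    · rw [hs1, st2_update_left]
      exact h
    · intro g' hG
      obtain ⟨g1, g2, g3, g4, g5⟩ := hG
      rw [hs1] at g2 g3
      have hE : D ∪ dnf x = D ∪ dnf x ∨ D ∪ dnf x = D ∪ dnf x' := Or.inl rfl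
      refine dvd_ZB_shift_lt _ (hlow _ hE) (hlev _ hE) g5 p n0 (fun n hn => ?_) n hn
      refine hBC _ hE _ ?_ n hn
      intro y hy
      rw [mem_union, mem_dnf, not_or] at hy
      have hyx : y ≠ x := fun h => hy.2 h.le
      by_cases hyx' : y = x'
      · subst hyx'
        refine bg_le ?_ ?_
        · rw [hs2, H.eq]; exact hk
        · intro d hd hdy
          have hdD := hmin d hdy.1
          rw [g1 d hdD]; exact Nat.zero_le _
      · refine bg_le ?_ ?_
        · rw [hs3 _ _ y hyx hyx']; exact Nat.zero_le _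
        · intro d hd hdy
          by_cases hdD : d ∈ D
          · rw [g1 d hdD]; exact Nat.zero_le _
          · have hdx : d ≤ x := by
              rcases mem_union.mp hd with h1 | h1
              · exact absurd h1 hdD
              · exact mem_dnf.mp h1
            have h1 := g3 d hdx
            have h2 := hc2 d hdx hdD y hdy hy.2
            omega
  have main : ∀ s k, k + s = θ x → p ∣ ZB i D 0 (st2 x x' k k) n := by
    intro s
    induction s with
    | zero =>
      intro k hk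
      refine stepA k (by omega) ?_
      have hk' : k = θ x := by omega
      rw [hk', ZB_st2_eq_zero H hlx hx hx' 0 hn]
      exact dvd_zero _
    | succ s ih =>
      intro k hk
      exact stepA k (by omega) (stepB k (by omega) (ih (k + 1) (by omega)))
  have h0 := main (θ x) 0 (by omega)
  have h1 : ZB i D 0 (st2 x x' 0 0) n = ZB i D 0 0 n := by
    refine ZB_congr (fun _ _ => rfl) (fun y _ => ?_) n
    unfold st2
    split_ifs <;> rfl
  rwa [h1] at h0

end Step

open Classical in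
/-- number of unbroken twin pairs -/
noncomputable def ubr (Tw : Finset (P × P)) (D : Finset P) : ℕ :=
  (Tw.filter (fun t => t.1 ∉ D ∧ t.2 ∉ D)).card

lemma ubr_mono (Tw : Finset (P × P)) {D E : Finset P} (h : D ⊆ E) : ubr Tw E ≤ ubr Tw D := by
  classical
  unfold ubr
  refine Finset.card_le_card fun t ht => ?_
  rw [mem_filter] at ht ⊢
  exact ⟨ht.1, fun h1 => ht.2.1 (h h1), fun h1 => ht.2.2 (h h1)⟩

lemma ubr_lt {Tw : Finset (P × P)} {D E : Finset P} (h : D ⊆ E) {t : P × P} (ht : t ∈ Tw)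
    (h1 : t.1 ∉ D ∧ t.2 ∉ D) (h2 : t.1 ∈ E ∨ t.2 ∈ E) : ubr Tw E < ubr Tw D := by
  classical
  unfold ubr
  refine Finset.card_lt_card ?_
  rw [Finset.ssubset_iff_of_subset]
  · refine ⟨t, mem_filter.mpr ⟨ht, h1⟩, fun h3 => ?_⟩
    rw [mem_filter] at h3
    rcases h2 with h2 | h2
    · exact h3.2.1 h2
    · exact h3.2.2 h2
  · intro t ht
    rw [mem_filter] at ht ⊢
    exact ⟨ht.1, fun h1 => ht.2.1 (h h1), fun h1 => ht.2.2 (h h1)⟩

/-- the twin lemma -/
theorem dvd_ZB_bounds_twins (i : ℕ) (p : ℤ[X]) (n0 : ℕ) (DD : Set (Finset P)) (θ : P → ℕ)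
    (Tw : Finset (P × P))
    (hlow : ∀ D ∈ DD, ∀ x y, x ≤ y → y ∈ D → x ∈ D) (hlev : ∀ D ∈ DD, ∀ x ∈ D, i < lev x)
    (hθ : ∀ x, 1 ≤ θ x → i < lev x)
    (c0 : ∀ D ∈ DD, (∀ t ∈ Tw, t.1 ∈ D ∨ t.2 ∈ D) → ∀ n < n0, p ∣ ZB i D 0 0 n)
    (c1 : ∀ D ∈ DD, ∀ x, x ∉ D → 1 ≤ θ x → D ∪ dnf x ∈ DD)
    (c2 : ∀ D ∈ DD, ∀ x, x ∉ D → 1 ≤ θ x → ∀ y ≤ x, y ∉ D → ∀ x', y ⋖ x' → ¬ x' ≤ x →
      θ x ≤ θ x' + 1)
    (htw : ∀ t ∈ Tw, TwinPair i θ n0 t.1 t.2)
    (hmin : ∀ t ∈ Tw, ∀ D ∈ DD, ∀ y < t.2, y ∈ D) :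
    ∀ D ∈ DD, ∀ β : P → ℕ, (∀ x, x ∉ D → β x ≤ θ x) → ∀ n < n0, p ∣ ZB i D 0 β n := by
  classical
  have hBC : ∀ s : ℕ, (∀ D ∈ DD, ubr Tw D ≤ s → ∀ n < n0, p ∣ ZB i D 0 0 n) →
      ∀ D ∈ DD, ubr Tw D ≤ s → ∀ β : P → ℕ, (∀ x, x ∉ D → β x ≤ θ x) → ∀ n < n0,
        p ∣ ZB i D 0 β n := by
    intro s hs D hD hu
    refine dvd_ZB_bounds_lt i p n0 {D | D ∈ DD ∧ ubr Tw D ≤ s} θ (fun D hD => hlow D hD.1)
      (fun D hD => hlev D hD.1) hθ (fun D hD => hs D hD.1 hD.2) ?_
      (fun D hD => c2 D hD.1) D ⟨hD, hu⟩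
    intro D hD x hx hθx
    exact ⟨c1 D hD.1 x hx hθx, (ubr_mono Tw subset_union_left).trans hD.2⟩
  have main : ∀ s : ℕ, ∀ D ∈ DD, ubr Tw D ≤ s → ∀ n < n0, p ∣ ZB i D 0 0 n := by
    intro s
    induction s with
    | zero =>
      intro D hD hu n hn
      refine c0 D hD ?_ n hn
      intro t ht
      by_contra hcon
      push Not at hcon
      have h1 : t ∈ Tw.filter (fun t => t.1 ∉ D ∧ t.2 ∉ D) := mem_filter.mpr ⟨ht, hcon⟩
      have h2 : 0 < ubr Tw D := Finset.card_pos.mpr ⟨t, h1⟩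
      omega
    | succ s ih =>
      intro D hD hu n hn
      by_cases hall : ∀ t ∈ Tw, t.1 ∈ D ∨ t.2 ∈ D
      · exact c0 D hD hall n hn
      · push Not at hall
        obtain ⟨t, ht, hx, hx'⟩ := hall
        have H := htw t ht
        have h1 : 1 ≤ θ t.2 := by rw [H.eq]; exact H.one_le
        have hDx := c1 D hD t.1 hx H.one_le
        have hDx' := c1 D hD t.2 hx' h1
        have hin : ∀ E : Finset P, E = D ∪ dnf t.1 ∨ E = D ∪ dnf t.2 → E ∈ DD ∧ ubr Tw E ≤ s := by
          rintro E (rfl | rfl)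
          · refine ⟨hDx, ?_⟩
            have := ubr_lt (E := D ∪ dnf t.1) subset_union_left ht ⟨hx, hx'⟩
              (Or.inl (mem_union_right _ (mem_dnf.mpr le_rfl)))
            omega
          · refine ⟨hDx', ?_⟩
            have := ubr_lt (E := D ∪ dnf t.2) subset_union_left ht ⟨hx, hx'⟩
              (Or.inr (mem_union_right _ (mem_dnf.mpr le_rfl)))
            omega
        exact dvd_ZB_twin_step H (hθ _ H.one_le) hx hx' (hmin t ht D hD)
          (fun E hE => hlow E (hin E hE).1) (fun E hE => hlev E (hin E hE).1)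
          (c2 D hD t.1 hx H.one_le) (fun E hE => hBC s ih E (hin E hE).1 (hin E hE).2) n hn
  intro D hD β hβ n hn
  exact hBC _ (main (ubr Tw D)) D hD le_rfl β hβ n hn

end Pool.Agent.GaussPoset

end

/-! From `Pool.Agent.W_448tw_h76.TwC` -/

section

/-!
The window sum as good labels plus bad configurations, in general form; the far window
theorem with blockers (FW+) and with second thresholds (FW2).
-/

namespace Pool.Agent.GaussPoset

set_option linter.unusedSectionVars false

open Polynomial Finset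

universe u

variable {P : Type u} [Fintype P] [PartialOrder P] [DecidableEq P]

/-- the labels on `R` -/
def lbl (R : Finset P) (e : P → ℕ) (x : P) : ℕ := if x ∈ R then e x else 0

lemma lbl_of {R : Finset P} {e : P → ℕ} {x : P} (h : x ∈ R) : lbl R e x = e x := if_pos h

lemma lbl_off {R : Finset P} {e : P → ℕ} {x : P} (h : x ∉ R) : lbl R e x = 0 := if_neg h

open Classical in
/-- the part of the window sum with bad labels on `R` or an element of `R` in the filter -/
noncomputable def RB (i : ℕ) (R : Finset P) (bad : (P → ℕ) → Prop) (n : ℕ) : ℤ[X] :=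
  ∑ F : Finset P, ∑ _e ∈ ((univ : Finset P).piAntidiag n).filter
    (fun e => Vd i e F ∧ ((∃ x ∈ R, x ∈ F) ∨ bad (lbl R e))), (X : ℤ[X]) ^ F.card

/-- the part with good labels is divisible -/
theorem dvd_Z_sub_RB {i : ℕ} {R : Finset P} (bad : (P → ℕ) → Prop) (p : ℤ[X]) (n : ℕ)
    (hcl : ∀ g : P → ℕ, (∀ x, x ∉ R → g x = 0) → ¬ bad g → p ∣ ZB i R g 0 n) :
    p ∣ Z P i n - RB i R bad n := by
  classical
  let Gs : Finset (P → ℕ) := Fintype.piFinset (fun _ => range (n + 1))
  let Gg : (P → ℕ) → Prop := fun g => (∀ x, x ∉ R → g x = 0) ∧ ¬ bad g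
  have key : Z P i n = RB i R bad n + ∑ g ∈ Gs, if Gg g then ZB i R g 0 n else 0 := by
    have h1 : ∀ g ∈ Gs, (if Gg g then ZB i R g 0 n else 0) = ∑ F : Finset P,
        ∑ _e ∈ ((univ : Finset P).piAntidiag n).filter (fun e => Gg g ∧ Cst i R g 0 e F),
          (X : ℤ[X]) ^ F.card := by
      intro g _
      split_ifs with hg
      · unfold ZB
        refine Finset.sum_congr rfl fun F _ => ?_
        refine Finset.sum_congr (Finset.filter_congr fun e _ => ?_) (fun _ _ => rfl)
        exact ⟨fun h => ⟨hg, h⟩, fun h => h.2⟩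
      · symm
        refine Finset.sum_eq_zero fun F _ => ?_
        rw [Finset.filter_eq_empty_iff.mpr (fun e _ h => hg h.1), Finset.sum_empty]
    rw [Finset.sum_congr rfl h1, Finset.sum_comm, Z_eq_sum, Finset.sum_comm]
    unfold RB
    rw [← Finset.sum_add_distrib]
    refine Finset.sum_congr rfl fun F _ => ?_
    rw [← Finset.sum_filter]
    have hmaps : ∀ e ∈ ((univ : Finset P).piAntidiag n).filter
        (fun e => Vd i e F ∧ ¬ ((∃ x ∈ R, x ∈ F) ∨ bad (lbl R e))), lbl R e ∈ Gs := by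
      intro e he
      rw [mem_filter, mem_piAntidiag] at he
      rw [Fintype.mem_piFinset]
      intro x
      rw [mem_range]
      have h5 : e x ≤ ∑ y, e y := Finset.single_le_sum (fun y _ => Nat.zero_le _) (mem_univ x)
      have h6 : ∑ y, e y = n := he.1.1
      unfold lbl
      split_ifs <;> omega
    have h2 : ∑ g ∈ Gs, ∑ _e ∈ ((univ : Finset P).piAntidiag n).filter
        (fun e => Gg g ∧ Cst i R g 0 e F), (X : ℤ[X]) ^ F.card =
        ∑ _e ∈ ((univ : Finset P).piAntidiag n).filter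
        (fun e => Vd i e F ∧ ¬ ((∃ x ∈ R, x ∈ F) ∨ bad (lbl R e))), (X : ℤ[X]) ^ F.card := by
      refine Eq.trans ?_ (Finset.sum_fiberwise_of_maps_to hmaps (fun _ => (X : ℤ[X]) ^ F.card))
      refine Finset.sum_congr rfl fun g _ => ?_
      refine Finset.sum_congr ?_ (fun _ _ => rfl)
      ext e
      simp only [mem_filter]
      constructor
      · rintro ⟨h5, ⟨h6, h7⟩, h8, h9, -⟩
        have h10 : lbl R e = g := by
          funext x
          by_cases hx : x ∈ R
          · rw [lbl_of hx]; exact (h9 x hx).2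
          · rw [lbl_off hx]; exact (h6 x hx).symm
        refine ⟨⟨h5, h8, ?_⟩, h10⟩
        rintro (⟨x, hx, hxF⟩ | hb)
        · exact (h9 x hx).1 hxF
        · rw [h10] at hb; exact h7 hb
      · rintro ⟨⟨h5, h6, h7⟩, h8⟩
        push Not at h7
        refine ⟨h5, ⟨?_, ?_⟩, h6, ?_, ?_⟩
        · intro x hx
          rw [← h8]; exact lbl_off hx
        · rw [← h8]; exact h7.2
        · intro x hx
          exact ⟨h7.1 x hx, by rw [← h8, lbl_of hx]⟩
        · intro x _ hxF
          simpa using h6.2.1 x hxF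
    rw [h2, ← Finset.filter_filter, ← Finset.filter_filter]
    exact (Finset.sum_filter_add_sum_filter_not _ _ _).symm
  rw [key, add_sub_cancel_left]
  refine Finset.dvd_sum fun g _ => ?_
  split_ifs with hg
  · exact hcl g hg.1 hg.2
  · exact dvd_zero p

/-- the bound `k` at `z` -/
def sgz (z : P) (k : ℕ) (x : P) : ℕ := if x = z then k else 0

lemma sgz_self (z : P) (k : ℕ) : sgz z k z = k := if_pos rfl

lemma sgz_ne {z x : P} (k : ℕ) (h : x ≠ z) : sgz z k x = 0 := if_neg h

/-- the window sum over configurations in which `z` has label at least `k` -/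
noncomputable def ZD (i : ℕ) (z : P) (k n : ℕ) : ℤ[X] := ZB i ∅ 0 (sgz z k) n

lemma cst_single_iff {i : ℕ} {z : P} {k : ℕ} (hz : i < lev z) (e : P → ℕ) (F : Finset P) :
    Cst i ∅ 0 (sgz z k) e F ↔ Vd i e F ∧ (z ∈ F ∨ k ≤ e z) := by
  unfold Cst
  refine and_congr_right fun hV => ⟨fun h => ?_, fun h => ⟨fun x hx => ?_, fun x _ hxF => ?_⟩⟩
  · by_cases hzF : z ∈ F
    · exact Or.inl hzF
    · right
      have := h.2 z (Finset.notMem_empty z) hzF
      rw [sgz_self, rho_of_lt hz] at this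
      exact_mod_cast this
  · exact absurd hx (Finset.notMem_empty x)
  · by_cases hxz : x = z
    · subst hxz
      rw [sgz_self, rho_of_lt hz]
      exact_mod_cast h.resolve_left hxF
    · rw [sgz_ne k hxz]
      simpa using hV.2.1 x hxF

open Classical in
lemma ZD_eq {i : ℕ} {z : P} {k n : ℕ} (hz : i < lev z) :
    ZD i z k n = ∑ F : Finset P, ∑ _e ∈ ((univ : Finset P).piAntidiag n).filter
      (fun e => Vd i e F ∧ (z ∈ F ∨ k ≤ e z)), (X : ℤ[X]) ^ F.card := by
  unfold ZD ZB
  refine Finset.sum_congr rfl fun F _ => ?_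
  refine Finset.sum_congr (Finset.filter_congr fun e _ => ?_) (fun _ _ => rfl)
  exact cst_single_iff hz e F

/-- exact evaluation of the bad part: blockers `T1` (kept as dangerous sums), cheapest
configurations of the elements of `T2` -/
theorem RB_eval {i : ℕ} {R : Finset P} {bad : (P → ℕ) → Prop} {n : ℕ} (h : P → ℕ)
    (T1 T2 : Finset P) (hlev : ∀ z ∈ T1, i < lev z) (h2 : ∀ z ∈ T2, 1 ≤ h z ∧ h z ≤ lev z - i)
    (hb1 : ∀ z ∈ T1, ∀ e F, Vd i e F → ∑ x, e x = n → Dgz h e F z →
      (∃ x ∈ R, x ∈ F) ∨ bad (lbl R e))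
    (hb2 : ∀ z ∈ T2, cst i h z = n → bad (lbl R (ez i h z)))
    (hall : ∀ e F, Vd i e F → ∑ x, e x = n → ((∃ x ∈ R, x ∈ F) ∨ bad (lbl R e)) →
      (∃ z ∈ T1, Dgz h e F z) ∨ ∃ z ∈ T2, e = ez i h z)
    (hone : ∀ z ∈ T1, ∀ z' ∈ T1, z ≠ z' → ∀ e F, Vd i e F → ∑ x, e x = n → Dgz h e F z →
      Dgz h e F z' → False)
    (hsep : ∀ z ∈ T1, ∀ z' ∈ T2, cst i h z' = n → ∀ F, Vd i (ez i h z') F →
      ¬ Dgz h (ez i h z') F z) :
    RB i R bad n = ∑ z ∈ T1, ZD i z (h z) n +
      ∑ z ∈ T2.filter (fun z => cst i h z = n),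
      (by classical exact if Adm i (ez i h z) then
        (X : ℤ[X]) ^ (nf i (ez i h z)) * (1 + X) ^ (Pk i (ez i h z)).card else 0) := by
  classical
  have h3 : ∀ z ∈ T2.filter (fun z => cst i h z = n), (if Adm i (ez i h z) then
        (X : ℤ[X]) ^ (nf i (ez i h z)) * (1 + X) ^ (Pk i (ez i h z)).card else 0) =
        ∑ F : Finset P, if Vd i (ez i h z) F then (X : ℤ[X]) ^ F.card else 0 := by
    intro z _
    rw [sum_vd]
  rw [Finset.sum_congr rfl h3, Finset.sum_comm,
    Finset.sum_congr rfl (fun z hz => ZD_eq (hlev z hz)), Finset.sum_comm]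
  unfold RB
  rw [← Finset.sum_add_distrib]
  refine Finset.sum_congr rfl fun F _ => ?_
  rw [← Finset.sum_filter]
  -- the first part
  have hA : ∑ z ∈ T1, ∑ _e ∈ ((univ : Finset P).piAntidiag n).filter
      (fun e => Vd i e F ∧ (z ∈ F ∨ h z ≤ e z)), (X : ℤ[X]) ^ F.card =
      ∑ _e ∈ ((univ : Finset P).piAntidiag n).filter
      (fun e => Vd i e F ∧ ∃ z ∈ T1, Dgz h e F z), (X : ℤ[X]) ^ F.card := by
    rw [← Finset.sum_biUnion]
    · refine Finset.sum_congr ?_ (fun _ _ => rfl)
      ext e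
      simp only [mem_biUnion, mem_filter]
      constructor
      · rintro ⟨z, hz, h5, h6, h7⟩
        exact ⟨h5, h6, z, hz, h7⟩
      · rintro ⟨h5, h6, z, hz, h7⟩
        exact ⟨z, hz, h5, h6, h7⟩
    · intro z hz z' hz' hne
      simp only [Function.onFun]
      rw [Finset.disjoint_left]
      intro e he he'
      rw [mem_filter, mem_piAntidiag] at he he'
      exact hone z hz z' hz' hne e F he.2.1 he.1.1 he.2.2 he'.2.2
  have hB : ∑ _z ∈ (T2.filter (fun z => cst i h z = n)).filter (fun z => Vd i (ez i h z) F),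
      (X : ℤ[X]) ^ F.card = ∑ _e ∈ ((univ : Finset P).piAntidiag n).filter
      (fun e => (Vd i e F ∧ ((∃ x ∈ R, x ∈ F) ∨ bad (lbl R e))) ∧ ¬ ∃ z ∈ T1, Dgz h e F z),
      (X : ℤ[X]) ^ F.card := by
    refine Finset.sum_bij (fun z _ => ez i h z) ?_ ?_ ?_ (fun _ _ => rfl)
    · intro z hz
      rw [mem_filter, mem_filter] at hz
      rw [mem_filter, mem_piAntidiag]
      refine ⟨⟨hz.1.2, fun _ _ => mem_univ _⟩, ⟨hz.2, Or.inr (hb2 z hz.1.1 hz.1.2)⟩, ?_⟩
      rintro ⟨z', hz', hd⟩
      exact hsep z' hz' z hz.1.1 hz.1.2 F hz.2 hd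
    · intro z hz z' hz' he
      rw [mem_filter, mem_filter] at hz hz'
      exact ez_inj (h2 z hz.1.1).1 (h2 z hz.1.1).2 (h2 z' hz'.1.1).1 (h2 z' hz'.1.1).2 he
    · intro e he
      rw [mem_filter, mem_piAntidiag] at he
      obtain ⟨⟨he1, -⟩, ⟨hV, hb⟩, hn1⟩ := he
      rcases hall e F hV he1 hb with h5 | ⟨z, hz, rfl⟩
      · exact absurd h5 hn1
      · refine ⟨z, ?_, rfl⟩
        rw [mem_filter, mem_filter]
        exact ⟨⟨hz, he1⟩, hV⟩
  rw [hA, hB]
  have h5 : ((univ : Finset P).piAntidiag n).filter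
      (fun e => Vd i e F ∧ ∃ z ∈ T1, Dgz h e F z) =
      (((univ : Finset P).piAntidiag n).filter
      (fun e => Vd i e F ∧ ((∃ x ∈ R, x ∈ F) ∨ bad (lbl R e)))).filter
      (fun e => ∃ z ∈ T1, Dgz h e F z) := by
    rw [Finset.filter_filter]
    refine Finset.filter_congr fun e he => ?_
    rw [mem_piAntidiag] at he
    constructor
    · rintro ⟨h6, z, hz, h7⟩
      exact ⟨⟨h6, hb1 z hz e F h6 he.1 h7⟩, z, hz, h7⟩
    · rintro ⟨⟨h6, -⟩, h7⟩
      exact ⟨h6, h7⟩
  have h6 : ((univ : Finset P).piAntidiag n).filter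
      (fun e => (Vd i e F ∧ ((∃ x ∈ R, x ∈ F) ∨ bad (lbl R e))) ∧ ¬ ∃ z ∈ T1, Dgz h e F z) =
      (((univ : Finset P).piAntidiag n).filter
      (fun e => Vd i e F ∧ ((∃ x ∈ R, x ∈ F) ∨ bad (lbl R e)))).filter
      (fun e => ¬ ∃ z ∈ T1, Dgz h e F z) := by
    rw [Finset.filter_filter]
  rw [h5, h6]
  exact (Finset.sum_filter_add_sum_filter_not _ _ _).symm

/-- the explicit leading terms -/
noncomputable def Lt (i : ℕ) (h : P → ℕ) (z : P) : ℤ[X] :=
  (X : ℤ[X]) ^ (below P i + nst i h z) * (1 + X) ^ ((lv P i).card + nab (i + h z) z - nab i z)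

lemma lead_eq {i : ℕ} {h : P → ℕ} {z : P} (hgr : GradedBelow P) (h1 : 1 ≤ h z)
    (h2 : h z ≤ lev z - i) : (by classical exact if Adm i (ez i h z) then
        (X : ℤ[X]) ^ (nf i (ez i h z)) * (1 + X) ^ (Pk i (ez i h z)).card else 0) = Lt i h z := by
  classical
  rw [if_pos (adm_ez hgr h2 h1), nf_ez hgr h2 h1]
  have h3 := pk_ez hgr h2 h1
  have h4 : (Pk i (ez i h z)).card = (lv P i).card + nab (i + h z) z - nab i z := by omega
  rw [h4, Lt]

/-- FW+ : far window theorem with blockers `R1`, at the single energy `n` -/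
theorem far_plus {i : ℕ} {R : Finset P} {h : P → ℕ} {n : ℕ} (p : ℤ[X]) (R1 : Finset P)
    (hgr : GradedBelow P) (hlev : ∀ x ∈ R, i < lev x) (hR1 : R1 ⊆ bdR R)
    (hcl : ∀ g : P → ℕ, (∀ x, x ∉ R → g x = 0) → (∀ z ∈ bdR R, g z < h z) → p ∣ ZB i R g 0 n)
    (h1 : ∀ z ∈ bdR R, z ∉ R1 → 1 ≤ h z ∧ h z ≤ lev z - i)
    (hn : ∀ z ∈ bdR R, z ∉ R1 → n ≤ cst i h z)
    (hpair : ∀ z ∈ R1, ∀ z' ∈ bdR R, z' ≠ z → n < ∑ x, max (ez i h z x) (ez i h z' x)) :
    p ∣ Z P i n - (∑ z ∈ R1, ZD i z (h z) n +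
      ∑ z ∈ (bdR R \ R1).filter (fun z => cst i h z = n), Lt i h z) := by
  classical
  have hpair' : ∀ z ∈ R1, ∀ z' ∈ bdR R, z' ≠ z → ∀ e F, Vd i e F → ∑ x, e x = n →
      Dgz h e F z → Dgz h e F z' → False := by
    intro z hz z' hz' hne e F hV hs hd hd'
    have h2 := ez_le hV (hlev z (mem_filter.mp (hR1 hz)).1) hd
    have h3 := ez_le hV (hlev z' (mem_filter.mp hz').1) hd'
    have h4 : ∑ x, max (ez i h z x) (ez i h z' x) ≤ ∑ x, e x :=
      Finset.sum_le_sum fun x _ => max_le (h2 x) (h3 x)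
    have := hpair z hz z' hz' hne
    omega
  have hev := RB_eval (i := i) (R := R) (bad := fun g => ∃ z ∈ bdR R, h z ≤ g z) (n := n) h R1
    (bdR R \ R1) (fun z hz => hlev z (mem_filter.mp (hR1 hz)).1) ?_ ?_ ?_ ?_ ?_ ?_
  · have hbadgood : p ∣ Z P i n - RB i R (fun g => ∃ z ∈ bdR R, h z ≤ g z) n := by
      refine dvd_Z_sub_RB _ p n fun g hg0 hg => hcl g hg0 fun z hz => ?_
      by_contra hcon
      exact hg ⟨z, hz, not_lt.mp hcon⟩
    rw [hev] at hbadgood
    have h6 : ∑ z ∈ (bdR R \ R1).filter (fun z => cst i h z = n), Lt i h z =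
        ∑ z ∈ (bdR R \ R1).filter (fun z => cst i h z = n),
        (if Adm i (ez i h z) then
        (X : ℤ[X]) ^ (nf i (ez i h z)) * (1 + X) ^ (Pk i (ez i h z)).card else 0) := by
      refine Finset.sum_congr rfl fun z hz => ?_
      rw [mem_filter, mem_sdiff] at hz
      have h7 := h1 z hz.1.1 hz.1.2
      exact (lead_eq hgr h7.1 h7.2).symm
    rw [h6]
    exact hbadgood
  · intro z hz
    rw [mem_sdiff] at hz
    exact h1 z hz.1 hz.2
  · intro z hz e F _ _ hd
    rcases hd with hd | hd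
    · exact Or.inl ⟨z, (mem_filter.mp (hR1 hz)).1, hd⟩
    · refine Or.inr ⟨z, hR1 hz, ?_⟩
      rw [lbl_of (mem_filter.mp (hR1 hz)).1]
      exact hd
  · intro z hz _
    rw [mem_sdiff] at hz
    refine ⟨z, hz.1, ?_⟩
    rw [lbl_of (mem_filter.mp hz.1).1, ez_self (h1 z hz.1 hz.2).2]
  · intro e F hV hs hb
    have hd : ∃ z ∈ bdR R, Dgz h e F z := by
      by_contra hcon
      push Not at hcon
      have h2 := not_mem_of_not_dg hlev hV hcon
      rcases hb with ⟨x, hx, hxF⟩ | ⟨z, hz, hz2⟩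
      · exact h2 x hx hxF
      · refine hcon z hz (Or.inr ?_)
        rwa [lbl_of (mem_filter.mp hz).1] at hz2
    obtain ⟨z, hz, hd⟩ := hd
    by_cases hz1 : z ∈ R1
    · exact Or.inl ⟨z, hz1, hd⟩
    · right
      refine ⟨z, mem_sdiff.mpr ⟨hz, hz1⟩, ?_⟩
      have h4 : ∀ x, ez i h z x ≤ e x := ez_le hV (hlev z (mem_filter.mp hz).1) hd
      have h6 : cst i h z ≤ n := by
        rw [← hs]; exact Finset.sum_le_sum fun x _ => h4 x
      have h7 : cst i h z = n := le_antisymm h6 (hn z hz hz1)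
      funext x
      have h9 : ∑ x, ez i h z x = ∑ x, e x := by
        rw [hs]; exact h7
      exact ((Finset.sum_eq_sum_iff_of_le (fun x _ => h4 x)).mp h9 x (mem_univ x)).symm
  · intro z hz z' hz' hne e F hV hs hd hd'
    exact hpair' z hz z' (hR1 hz') hne.symm e F hV hs hd hd'
  · intro z hz z' hz' hc F hV hd
    rw [mem_sdiff] at hz'
    have hne : z' ≠ z := fun h => hz'.2 (h ▸ hz)
    refine hpair' z hz z' hz'.1 hne _ F hV hc hd (Or.inr ?_)
    rw [ez_self (h1 z' hz'.1 hz'.2).2]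

/-- FW2, abstract: if the only bad configurations of energy `n` are the cheapest ones of the
elements of `T` -/
theorem far_bad {i : ℕ} {R : Finset P} {bad : (P → ℕ) → Prop} {n : ℕ} (h : P → ℕ) (p : ℤ[X])
    (T : Finset P) (hgr : GradedBelow P) (h2 : ∀ z ∈ T, 1 ≤ h z ∧ h z ≤ lev z - i)
    (hcl : ∀ g : P → ℕ, (∀ x, x ∉ R → g x = 0) → ¬ bad g → p ∣ ZB i R g 0 n)
    (hb2 : ∀ z ∈ T, cst i h z = n → bad (lbl R (ez i h z)))
    (hall : ∀ e F, Vd i e F → ∑ x, e x = n → ((∃ x ∈ R, x ∈ F) ∨ bad (lbl R e)) →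
      ∃ z ∈ T, e = ez i h z) :
    p ∣ Z P i n - ∑ z ∈ T.filter (fun z => cst i h z = n), Lt i h z := by
  classical
  have hev := RB_eval (i := i) (R := R) (bad := bad) (n := n) h ∅ T
    (fun z hz => absurd hz (Finset.notMem_empty z)) h2
    (fun z hz => absurd hz (Finset.notMem_empty z)) hb2
    (fun e F h3 h4 h5 => Or.inr (hall e F h3 h4 h5))
    (fun z hz => absurd hz (Finset.notMem_empty z)) (fun z hz => absurd hz (Finset.notMem_empty z))
  have h3 := dvd_Z_sub_RB bad p n hcl
  rw [hev, Finset.sum_empty, zero_add] at h3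
  have h6 : ∑ z ∈ T.filter (fun z => cst i h z = n), Lt i h z =
      ∑ z ∈ T.filter (fun z => cst i h z = n),
      (if Adm i (ez i h z) then
      (X : ℤ[X]) ^ (nf i (ez i h z)) * (1 + X) ^ (Pk i (ez i h z)).card else 0) := by
    refine Finset.sum_congr rfl fun z hz => ?_
    rw [mem_filter] at hz
    have h7 := h2 z hz.1
    exact (lead_eq hgr h7.1 h7.2).symm
  rw [h6]
  exact h3

/-- the consequence used for Gaussian posets: signs cancel -/
theorem sign_sum_of_dvd {i : ℕ} {h : P → ℕ} {n b : ℕ} (T : Finset P)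
    (hZ : (1 + X : ℤ[X]) ^ b ∣ Z P i n)
    (hd : (1 + X : ℤ[X]) ^ b ∣ Z P i n - ∑ z ∈ T, Lt i h z)
    {c0 : ℕ} (hc : c0 < b)
    (hle : ∀ z ∈ T, c0 + nab i z ≤ (lv P i).card + nab (i + h z) z) :
    ∑ z ∈ T.filter (fun z => c0 + nab i z = (lv P i).card + nab (i + h z) z),
      (-1 : ℤ) ^ (nst i h z) = 0 := by
  classical
  have h1 := dvd_sub hZ hd
  rw [sub_sub_cancel] at h1
  have h2 := sum_sign_eq_zero _ _ _ b c0 hc (fun z hz => by
    have := hle z hz
    omega) h1
  have h3 : T.filter (fun z => (lv P i).card + nab (i + h z) z - nab i z = c0) =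
      T.filter (fun z => c0 + nab i z = (lv P i).card + nab (i + h z) z) := by
    refine Finset.filter_congr fun z _ => ?_
    have := nab_le z i
    omega
  rw [h3] at h2
  simp only [pow_add] at h2
  rw [← Finset.mul_sum] at h2
  exact (mul_eq_zero.mp h2).resolve_left (pow_ne_zero _ (by norm_num))

end Pool.Agent.GaussPoset

end

/-! From `Pool.Agent.W_448tw_h76.TwD` -/

section

/-!
Component level forms: truncated data with twins, second thresholds.
-/

namespace Pool.Agent.GaussPoset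

set_option linter.unusedSectionVars false

open Polynomial Finset

universe u

variable {P : Type u} [Fintype P] [PartialOrder P] [DecidableEq P]
variable {ι : Type*}

/-- `D` contains an element of each twin pair -/
def Broken (Tw : Finset (P × P)) (D : Finset P) : Prop := ∀ t ∈ Tw, t.1 ∈ D ∨ t.2 ∈ D

/-- component data with twins: cleanness only for the lower sets which break all twin pairs -/
structure CompDataT (R : Finset P) (cp : P → ι) (k : ι) (i b : ℕ) (θ : P → ℕ) (B : P → Prop)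
    (Tw : Finset (P × P)) : Prop where
  clean : ∀ D, Good i R B D → Broken Tw D → ∀ _ : DecidableEq ι,
    (1 + X : Polynomial (PowerSeries ℤ)) ^ b ∣ W {x : {x : P // x ∉ D} // cp (x : P) = k} i
  lev : ∀ x, x ∉ R → cp x = k → 1 ≤ θ x → i < lev x
  base : ∀ x, x ∉ R → cp x = k → 1 ≤ θ x → ∀ y ≤ x, y ∉ R → ¬ B y
  step : ∀ x, x ∉ R → cp x = k → 1 ≤ θ x → ∀ y ≤ x, y ∉ R → ∀ x', x' ∉ R → y ⋖ x' →
    ¬ x' ≤ x → θ x ≤ θ x' + 1
  le : ∀ x, x ∉ R → cp x = k → θ x ≤ Pool.Agent.GaussPoset.lev x - i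

/-- bounded cleanness with frozen labels on `R` from component data with twins -/
theorem labels_of_compT [Fintype ι] [DecidableEq ι] {i : ℕ} {R : Finset P}
    (hR : ∀ x y, x ≤ y → y ∈ R → x ∈ R) (hRlev : ∀ x ∈ R, i < lev x)
    (cp : P → ι) (hcp : ∀ x y, x ≤ y → x ∉ R → cp x = cp y) (b : ι → ℕ) (θ : P → ℕ)
    (B : P → Prop) (hBR : ∀ x ∈ R, ¬ B x) (Tw : Finset (P × P)) (n0 : ℕ)
    (H : ∀ k, CompDataT R cp k i (b k) θ B Tw)
    (htw : ∀ t ∈ Tw, TwinPair i θ n0 t.1 t.2) (hmin : ∀ t ∈ Tw, ∀ y < t.2, y ∈ R)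
    (htR : ∀ t ∈ Tw, t.1 ∉ R ∧ t.2 ∉ R)
    (g : P → ℕ) (hg0 : ∀ x, x ∉ R → g x = 0)
    (hg : ∀ y ∈ R, ∀ x, x ∉ R → y ⋖ x → g y ≤ θ x) (n : ℕ) (hn : n < n0) :
    (1 + X : ℤ[X]) ^ (∑ k, b k) ∣ ZB i R g 0 n := by
  classical
  let θ' : P → ℕ := fun x => if x ∈ R then 0 else θ x
  have hθ' : ∀ x, x ∉ R → θ' x = θ x := fun x hx => if_neg hx
  have hθ0 : ∀ x, 1 ≤ θ' x → x ∉ R := by
    intro x hx hxR
    have : θ' x = 0 := if_pos hxR
    omega
  have hlow : ∀ D ∈ {D | Good i R B D}, ∀ x y, x ≤ y → y ∈ D → x ∈ D := fun D hD => hD.1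
  have hlev : ∀ D ∈ {D | Good i R B D}, ∀ x ∈ D, i < lev x := fun D hD => hD.2.2.1
  have hRR : R ∈ {D | Good i R B D} := ⟨hR, Subset.refl R, hRlev, hBR⟩
  refine dvd_ZB_labels_lt i _ n0 {D | Good i R B D} θ' hlow hlev ?_ hRR g hg0
    (fun y hy x hx hyx => by rw [hθ' x hx]; exact hg y hy x hx hyx) n hn
  refine dvd_ZB_bounds_twins i _ n0 {D | Good i R B D} θ' Tw hlow hlev ?_ ?_ ?_ ?_ ?_ ?_
  · intro x hx
    have hxR := hθ0 x hx
    rw [hθ' x hxR] at hx
    exact (H (cp x)).lev x hxR rfl hx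
  · intro D hD hbr n _
    rw [ZB_off hD.1 hD.2.2.1]
    refine dvd_Z_of_dvd_W ?_ n
    refine dvd_W_prod (fun x : {x : P // x ∉ D} => cp (x : P)) ?_ i b fun k => ?_
    · intro x y hxy
      exact hcp x y hxy fun h => x.2 (hD.2.1 h)
    · exact (H k).clean D hD hbr inferInstance
  · intro D hD x hx hθx
    have hxR := hθ0 x hθx
    rw [hθ' x hxR] at hθx
    have hlx := (H (cp x)).lev x hxR rfl hθx
    refine ⟨?_, hD.2.1.trans subset_union_left, ?_, ?_⟩
    · intro a c hac hc
      rw [mem_union, mem_dnf] at hc ⊢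
      rcases hc with hc | hc
      · exact Or.inl (hD.1 a c hac hc)
      · exact Or.inr (hac.trans hc)
    · intro a ha
      rw [mem_union, mem_dnf] at ha
      rcases ha with ha | ha
      · exact hD.2.2.1 a ha
      · rcases eq_or_lt_of_le ha with h | h
        · rw [h]; exact hlx
        · have := lev_strictAnti h; omega
    · intro a ha
      rw [mem_union, mem_dnf] at ha
      rcases ha with ha | ha
      · exact hD.2.2.2 a ha
      · by_cases haR : a ∈ R
        · exact hBR a haR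
        · exact (H (cp x)).base x hxR rfl hθx a ha haR
  · intro D hD x hx hθx y hyx hyD x' hyx' hx'x
    have hxR := hθ0 x hθx
    have hyR : y ∉ R := fun h => hyD (hD.2.1 h)
    have hx'R : x' ∉ R := fun h => hyR (hR y x' hyx'.1.le h)
    rw [hθ' x hxR] at hθx ⊢
    rw [hθ' x' hx'R]
    exact (H (cp x)).step x hxR rfl hθx y hyx hyR x' hx'R hyx' hx'x
  · intro t ht
    have h1 := htR t ht
    have h2 := htw t ht
    refine ⟨h2.ne, h2.up, ?_, ?_, ?_, ?_, ?_⟩
    · rw [hθ' _ h1.1]; exact h2.one_le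
    · rw [hθ' _ h1.1, hθ' _ h1.2]; exact h2.eq
    · rw [hθ' _ h1.1]; exact h2.le
    · rw [hθ' _ h1.1]; exact h2.costF
    · rw [hθ' _ h1.1]; exact h2.costT
  · intro t ht D hD y hy
    exact hD.2.1 (hmin t ht y hy)

/-- far data, truncated at energies `< n0` -/
structure FarT (P : Type u) [Fintype P] [PartialOrder P] [DecidableEq P] (i : ℕ)
    (R : Finset P) (b : ℕ) (h : P → ℕ) (n0 : ℕ) : Prop where
  graded : GradedBelow P
  hlev : ∀ x ∈ R, i < lev x
  clean : ∀ g : P → ℕ, (∀ x, x ∉ R → g x = 0) → (∀ z ∈ bdR R, g z < h z) →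
    ∀ n < n0, (1 + X : ℤ[X]) ^ b ∣ ZB i R g 0 n
  one_le : ∀ z ∈ bdR R, 1 ≤ h z
  le_lev : ∀ z ∈ bdR R, h z ≤ lev z - i

/-- truncated far data from component data with twins -/
theorem farT_of_compT [Fintype ι] [DecidableEq ι] {i : ℕ} {R : Finset P}
    (hgr : GradedBelow P) (hR : ∀ x y, x ≤ y → y ∈ R → x ∈ R) (hRlev : ∀ x ∈ R, i < lev x)
    (cp : P → ι) (hcp : ∀ x y, x ≤ y → x ∉ R → cp x = cp y) (b : ι → ℕ) (θ : P → ℕ)
    (B : P → Prop) (hBR : ∀ x ∈ R, ¬ B x) (Tw : Finset (P × P)) (n0 : ℕ)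
    (H : ∀ k, CompDataT R cp k i (b k) θ B Tw)
    (htw : ∀ t ∈ Tw, TwinPair i θ n0 t.1 t.2) (hmin : ∀ t ∈ Tw, ∀ y < t.2, y ∈ R)
    (htR : ∀ t ∈ Tw, t.1 ∉ R ∧ t.2 ∉ R) : FarT P i R (∑ k, b k) (hcan R θ) n0 where
  graded := hgr
  hlev := hRlev
  clean := by
    intro g hg0 hg n hn
    refine labels_of_compT hR hRlev cp hcp b θ B hBR Tw n0 H htw hmin htR g hg0 ?_ n hn
    intro y hy x hx hyx
    have h1 : y ∈ bdR R := by
      classical
      exact mem_filter.mpr ⟨hy, x, hx, hyx⟩
    have h2 := hg y h1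
    have h3 := hcan_le (θ := θ) hx hyx
    omega
  one_le := by
    intro z hz
    obtain ⟨x, -, -, hx⟩ := hcan_spec (θ := θ) hz
    omega
  le_lev := by
    classical
    intro z hz
    obtain ⟨x, hxR, hzx, hx⟩ := hcan_spec (θ := θ) hz
    have h1 := hgr.lev_covBy hzx
    have h2 := (H (cp x)).le x hxR rfl
    have h3 := hRlev z (mem_filter.mp hz).1
    omega

/-- the far window theorem, truncated: no pole below the minimal cost -/
theorem FarT.dvd_of_lt {i : ℕ} {R : Finset P} {b : ℕ} {h : P → ℕ} {n0 : ℕ}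
    (H : FarT P i R b h n0) {n : ℕ} (hn0 : n < n0) (hn : ∀ z ∈ bdR R, n < cst i h z) :
    (1 + X : ℤ[X]) ^ b ∣ Z P i n := by
  rw [Z_split i R h n, DG_eq_zero H.hlev hn, add_zero]
  exact dvd_ND H.hlev _ n fun g h1 h2 => H.clean g h1 h2 n hn0

/-- the far window theorem, truncated, leading term -/
theorem FarT.dvd_lead {i : ℕ} {R : Finset P} {b : ℕ} {h : P → ℕ} {n0 : ℕ}
    (H : FarT P i R b h n0) {n : ℕ} (hn0 : n < n0) (hn : ∀ z ∈ bdR R, n ≤ cst i h z) :
    (1 + X : ℤ[X]) ^ b ∣ Z P i n - ∑ z ∈ (bdR R).filter (fun z => cst i h z = n), Lt i h z := by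
  have h1 := far_plus ((1 + X : ℤ[X]) ^ b) ∅ H.graded H.hlev (Finset.empty_subset _)
    (fun g h1 h2 => H.clean g h1 h2 n hn0) (fun z hz _ => ⟨H.one_le z hz, H.le_lev z hz⟩)
    (fun z hz _ => hn z hz) (fun z hz => absurd hz (Finset.notMem_empty z))
  rwa [Finset.sum_empty, zero_add, Finset.sdiff_empty] at h1

section Two

variable {R : Finset P} {cp : P → ι} {θ θ' : P → ℕ}

/-- component `k` is hit beyond the threshold -/
def Hit (R : Finset P) (cp : P → ι) (θ : P → ℕ) (k : ι) (g : P → ℕ) : Prop :=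
  ∃ z ∈ R, ∃ x, x ∉ R ∧ z ⋖ x ∧ cp x = k ∧ θ x < g z

/-- two defects -/
def Bad2 (R : Finset P) (cp : P → ι) (θ θ' : P → ℕ) (g : P → ℕ) : Prop :=
  (∃ k, Hit R cp θ' k g) ∨ ∃ k k', k ≠ k' ∧ Hit R cp θ k g ∧ Hit R cp θ k' g

/-- labels with at most one defect -/
lemma clean_of_not_bad2 [Nonempty ι] {i n : ℕ} {p : ℤ[X]}
    (hcl : ∀ k0, ∀ g : P → ℕ, (∀ x, x ∉ R → g x = 0) →
      (∀ y ∈ R, ∀ x, x ∉ R → y ⋖ x → cp x = k0 → g y ≤ θ' x) →
      (∀ y ∈ R, ∀ x, x ∉ R → y ⋖ x → cp x ≠ k0 → g y ≤ θ x) → p ∣ ZB i R g 0 n)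
    (g : P → ℕ) (hg0 : ∀ x, x ∉ R → g x = 0) (hg : ¬ Bad2 R cp θ θ' g) : p ∣ ZB i R g 0 n := by
  classical
  unfold Bad2 at hg
  push Not at hg
  obtain ⟨h1, h2⟩ := hg
  have h3 : ∃ k0, ∀ k, k ≠ k0 → ¬ Hit R cp θ k g := by
    by_cases hex : ∃ k0, Hit R cp θ k0 g
    · obtain ⟨k0, hk0⟩ := hex
      exact ⟨k0, fun k hk hh => h2 k k0 hk hh hk0⟩
    · push Not at hex
      exact ⟨Classical.arbitrary ι, fun k _ => hex k⟩
  obtain ⟨k0, hk0⟩ := h3
  refine hcl k0 g hg0 ?_ ?_
  · intro y hy x hx hyx _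
    by_contra hcon
    exact h1 (cp x) ⟨y, hy, x, hx, hyx, rfl, not_le.mp hcon⟩
  · intro y hy x hx hyx hk
    by_contra hcon
    exact hk0 (cp x) hk ⟨y, hy, x, hx, hyx, rfl, not_le.mp hcon⟩

/-- cost of the label `t` at `z` -/
noncomputable def ct (i t : ℕ) (z : P) : ℕ := cst i (fun _ => t) z

/-- FW2: the double defects -/
theorem far_two {i n : ℕ} {p : ℤ[X]} (h : P → ℕ) (T : Finset P) (hgr : GradedBelow P)
    (hRlev : ∀ x ∈ R, i < lev x)
    (hcl : ∀ g : P → ℕ, (∀ x, x ∉ R → g x = 0) → ¬ Bad2 R cp θ θ' g → p ∣ ZB i R g 0 n)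
    (hF : ∀ z ∈ R, n < ∑ x, (by classical exact if z ≤ x then lev x - i else 0))
    (h2 : ∀ z ∈ R, ∀ x, x ∉ R → z ⋖ x → n < ct i (θ' x + 1) z)
    (hdiff : ∀ z ∈ R, ∀ z' ∈ R, z ≠ z' → ∀ x, x ∉ R → z ⋖ x → ∀ x', x' ∉ R → z' ⋖ x' →
      cp x ≠ cp x' → n < ∑ y, max (ez i (fun _ => θ x + 1) z y) (ez i (fun _ => θ x' + 1) z' y))
    (hsame : ∀ z ∈ R, ∀ x, x ∉ R → z ⋖ x → ∀ x', x' ∉ R → z ⋖ x' → cp x ≠ cp x' →
      (z ∈ T ∧ h z = max (θ x) (θ x') + 1 ∧ n ≤ cst i h z) ∨ n < ct i (max (θ x) (θ x') + 1) z)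
    (hT : ∀ z ∈ T, z ∈ R ∧ h z ≤ lev z - i ∧ ∃ x, x ∉ R ∧ z ⋖ x ∧ ∃ x', x' ∉ R ∧ z ⋖ x' ∧
      cp x ≠ cp x' ∧ h z = max (θ x) (θ x') + 1) :
    p ∣ Z P i n - ∑ z ∈ T.filter (fun z => cst i h z = n), Lt i h z := by
  classical
  have hct : ∀ t z, ct i t z = ∑ x, ez i (fun _ : P => t) z x := fun t z => rfl
  have hez : ∀ (h : P → ℕ) (z : P), ez i h z = ez i (fun _ => h z) z := fun h z => rfl
  refine far_bad (bad := Bad2 R cp θ θ') h p T hgr ?_ hcl ?_ ?_
  · intro z hz
    obtain ⟨-, h3, x, -, -, x', -, -, -, h4⟩ := hT z hz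
    exact ⟨by omega, h3⟩
  · intro z hz _
    obtain ⟨hzR, h3, x, hx, hzx, x', hx', hzx', hk, h4⟩ := hT z hz
    refine Or.inr ⟨cp x, cp x', hk, ⟨z, hzR, x, hx, hzx, rfl, ?_⟩, ⟨z, hzR, x', hx', hzx', rfl, ?_⟩⟩
    · rw [lbl_of hzR, ez_self h3]; omega
    · rw [lbl_of hzR, ez_self h3]; omega
  · intro e F hV hs hb
    have hle : ∀ z ∈ R, ∀ t, (z ∈ F ∨ t ≤ e z) → ∀ y, ez i (fun _ => t) z y ≤ e y := by
      intro z hz t ht
      exact ez_le (h := fun _ => t) hV (hRlev z hz) ht
    rcases hb with ⟨z, hz, hzF⟩ | ⟨k, z, hz, x, hx, hzx, -, hlt⟩ |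
      ⟨k, k', hkk, ⟨z, hz, x, hx, hzx, hcx, hlt⟩, ⟨z', hz', x', hx', hzx', hcx', hlt'⟩⟩
    · exfalso
      have h3 := hF z hz
      have h4 : ∑ x, (if z ≤ x then lev x - i else 0) ≤ ∑ x, e x := by
        refine Finset.sum_le_sum fun y _ => ?_
        split_ifs with hzy
        · exact sub_le_of_mem hV (hV.1 z y hzy hzF)
        · exact Nat.zero_le _
      omega
    · exfalso
      rw [lbl_of hz] at hlt
      have h3 := h2 z hz x hx hzx
      rw [hct] at h3
      have h4 := Finset.sum_le_sum fun y (_ : y ∈ (univ : Finset P)) =>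
        hle z hz (θ' x + 1) (Or.inr hlt) y
      omega
    · rw [lbl_of hz] at hlt
      rw [lbl_of hz'] at hlt'
      have hk : cp x ≠ cp x' := by rw [hcx, hcx']; exact hkk
      by_cases hzz : z = z'
      · subst hzz
        have h3 : max (θ x) (θ x') + 1 ≤ e z := by omega
        have h4 := hle z hz _ (Or.inr h3)
        rcases hsame z hz x hx hzx x' hx' hzx' hk with ⟨hzT, hh, hn⟩ | h5
        · refine ⟨z, hzT, ?_⟩
          have h6 : ∀ y, ez i h z y ≤ e y := by
            rw [hez h z, hh]; exact h4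
          have h7 : ∑ y, ez i h z y = ∑ y, e y := by
            refine le_antisymm (Finset.sum_le_sum fun y _ => h6 y) ?_
            rw [hs]; exact hn
          funext y
          exact ((Finset.sum_eq_sum_iff_of_le (fun y _ => h6 y)).mp h7 y (mem_univ y)).symm
        · exfalso
          rw [hct] at h5
          have h6 := Finset.sum_le_sum fun y (_ : y ∈ (univ : Finset P)) => h4 y
          omega
      · exfalso
        have h3 := hdiff z hz z' hz' hzz x hx hzx x' hx' hzx' hk
        have h4 := hle z hz (θ x + 1) (Or.inr hlt)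
        have h5 := hle z' hz' (θ x' + 1) (Or.inr hlt')
        have h6 := Finset.sum_le_sum fun y (_ : y ∈ (univ : Finset P)) => max_le (h4 y) (h5 y)
        omega

end Two

section CoordTwins

variable {R R' : Finset P} {cp : P → ι} {k : ι} {S : ℕ × ℕ → Prop} {co : P → ℕ × ℕ}

end CoordTwins

end Pool.Agent.GaussPoset

end

/-! From `Pool.Agent.W_448s7_h5.SevB` -/

section

/-!
The twin lemma at the cost of the cheapest twin pairs: exact leading term.
-/

namespace Pool.Agent.GaussPoset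

set_option linter.unusedSectionVars false

open Polynomial Finset

universe u

variable {P : Type u} [Fintype P] [PartialOrder P] [DecidableEq P]

open Classical in
/-- the cheapest excess function with two high labels at a twin pair -/
noncomputable def tez (i : ℕ) (θ : P → ℕ) (t : P × P) (y : P) : ℕ :=
  if y = t.1 then θ t.1 else if y = t.2 then θ t.1 + 1 else
    if t.1 < y then min (θ t.1 + 1) (lev y - i) else 0

/-- cost of a twin pair -/
noncomputable def tcst (i : ℕ) (θ : P → ℕ) (t : P × P) : ℕ := ∑ y, tez i θ t y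

open Classical in
/-- leading term of a twin pair -/
noncomputable def Tm (i : ℕ) (θ : P → ℕ) (t : P × P) : ℤ[X] :=
  ∑ F : Finset P, if Vd i (tez i θ t) F then (X : ℤ[X]) ^ F.card else 0

/-- a pair of twins -/
structure Twn (i : ℕ) (θ : P → ℕ) (t : P × P) : Prop where
  ne : t.1 ≠ t.2
  up : ∀ y, t.1 < y ↔ t.2 < y
  one_le : 1 ≤ θ t.1
  eq : θ t.2 = θ t.1
  lt : θ t.1 + 1 ≤ lev t.1 - i
  mono : ∀ y, t.1 < y → θ y ≤ θ t.1 + 1

section Basic

variable {i : ℕ} {θ : P → ℕ} {t : P × P}

lemma tez_fst : tez i θ t t.1 = θ t.1 := by unfold tez; rw [if_pos rfl]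

lemma tez_snd (h : t.1 ≠ t.2) : tez i θ t t.2 = θ t.1 + 1 := by
  unfold tez; rw [if_neg h.symm, if_pos rfl]

lemma tez_up {y : P} (H : Twn i θ t) (h : t.1 < y) :
    tez i θ t y = min (θ t.1 + 1) (lev y - i) := by
  unfold tez
  rw [if_neg h.ne', if_neg ((H.up y).mp h).ne', if_pos h]

lemma tez_off {y : P} (h1 : y ≠ t.1) (h2 : y ≠ t.2) (h3 : ¬ t.1 < y) : tez i θ t y = 0 := by
  unfold tez; rw [if_neg h1, if_neg h2, if_neg h3]

/-- where the excess vanishes -/
lemma tez_eq_zero (H : Twn i θ t) {y : P} (hy : i < lev y) (h : tez i θ t y = 0) :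
    ¬ t.1 ≤ y ∧ ¬ t.2 ≤ y := by
  have h1 : ¬ t.1 < y := by
    intro h1
    rw [tez_up H h1] at h
    omega
  have h2 : y ≠ t.1 := by
    rintro rfl
    rw [tez_fst] at h
    have := H.one_le
    omega
  have h3 : y ≠ t.2 := by
    rintro rfl
    rw [tez_snd H.ne] at h
    omega
  exact ⟨fun h4 => h1 (lt_of_le_of_ne h4 h2.symm),
    fun h4 => h1 ((H.up y).mpr (lt_of_le_of_ne h4 h3.symm))⟩

lemma tez_zero_of {y : P} (h1 : ¬ t.1 ≤ y) (h2 : ¬ t.2 ≤ y) : tez i θ t y = 0 :=
  tez_off (fun h => h1 h.ge) (fun h => h2 h.ge) (fun h => h1 h.le)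

/-- the excess is either zero or at least the threshold -/
lemma tez_ge (H : Twn i θ t) {y : P} (hle : θ y ≤ lev y - i) (h : tez i θ t y ≠ 0) :
    θ y ≤ tez i θ t y := by
  by_cases h1 : y = t.1
  · subst h1; rw [tez_fst]
  · by_cases h2 : y = t.2
    · subst h2
      rw [tez_snd H.ne, H.eq]; omega
    · by_cases h3 : t.1 < y
      · rw [tez_up H h3]
        have := H.mono y h3
        omega
      · exact absurd (tez_off h1 h2 h3) h

/-- the cost of a twin pair -/
lemma tcst_eq (H : Twn i θ t) : tcst i θ t =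
    ∑ y, (by classical exact if t.1 < y then min (θ t.1 + 1) (lev y - i) else 0) +
      (2 * θ t.1 + 1) := by
  classical
  have h1 : ∀ y, tez i θ t y = (if t.1 < y then min (θ t.1 + 1) (lev y - i) else 0) +
      ((if y = t.1 then θ t.1 else 0) + (if y = t.2 then θ t.1 + 1 else 0)) := by
    intro y
    by_cases h3 : t.1 < y
    · rw [tez_up H h3, if_pos h3, if_neg h3.ne', if_neg ((H.up y).mp h3).ne', add_zero, add_zero]
    · rw [if_neg h3]
      by_cases h1 : y = t.1
      · subst h1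
        rw [tez_fst, if_pos rfl, if_neg H.ne]
        omega
      · by_cases h2 : y = t.2
        · subst h2
          rw [tez_snd H.ne, if_neg h1, if_pos rfl]
          omega
        · rw [tez_off h1 h2 h3, if_neg h1, if_neg h2]
  unfold tcst
  rw [Finset.sum_congr rfl (fun y _ => h1 y), Finset.sum_add_distrib, Finset.sum_add_distrib,
    Finset.sum_ite_eq' univ t.1, Finset.sum_ite_eq' univ t.2, if_pos (mem_univ _),
    if_pos (mem_univ _)]
  omega

/-- a pair of twins in the sense of the twin lemma -/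
lemma Twn.pair (H : Twn i θ t) {n0 : ℕ} (hn : n0 ≤ tcst i θ t) : TwinPair i θ n0 t.1 t.2 where
  ne := H.ne
  up := H.up
  one_le := H.one_le
  eq := H.eq
  le := by have := H.lt; omega
  costT := by
    rw [← tcst_eq H]; exact hn
  costF := by
    classical
    refine hn.trans ?_
    rw [tcst_eq H]
    have h1 : ∑ y, (if t.1 ≤ y then lev y - i else 0) =
        (lev t.1 - i) + ∑ y, (if t.1 < y then lev y - i else 0) := by
      rw [← Finset.add_sum_erase univ _ (mem_univ t.1), if_pos le_rfl,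
        ← Finset.add_sum_erase univ (fun y => if t.1 < y then lev y - i else 0) (mem_univ t.1),
        if_neg (lt_irrefl _), zero_add]
      congr 1
      refine Finset.sum_congr rfl fun y hy => ?_
      have hne := (mem_erase.mp hy).1
      by_cases h4 : t.1 < y
      · rw [if_pos h4, if_pos h4.le]
      · rw [if_neg h4, if_neg]
        intro h5
        exact h4 (lt_of_le_of_ne h5 (Ne.symm hne))
    have h2 : ∑ y, (if t.1 < y then min (θ t.1 + 1) (lev y - i) else 0) ≤
        ∑ y, (if t.1 < y then lev y - i else 0) := by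
      refine Finset.sum_le_sum fun y _ => ?_
      split_ifs
      · exact min_le_right _ _
      · exact le_rfl
    have h3 := H.lt
    rw [h1]
    omega

end Basic

/-- Lemma A at `n0` for labels which are not all zero -/
lemma dvd_ZB_shift_pos {i : ℕ} {D : Finset P} {g : P → ℕ} (β : P → ℕ)
    (hD : ∀ x y, x ≤ y → y ∈ D → x ∈ D) (hlev : ∀ x ∈ D, i < lev x)
    (hg : ∀ x, x ∉ D → g x = 0) (p : ℤ[X]) (n0 : ℕ)
    (h : ∀ n < n0, p ∣ ZB i D 0 (bg D g β) n) (hpos : g ≠ 0) :
    p ∣ ZB i D g β n0 := by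
  have hs : ∑ x ∈ D, g x = ∑ x, g x :=
    Finset.sum_subset (subset_univ D) fun x _ hx => hg x hx
  have h1 : 1 ≤ ∑ x, g x := by
    by_contra hcon
    apply hpos
    funext x
    have h2 : g x ≤ ∑ y, g y := Finset.single_le_sum (fun y _ => Nat.zero_le _) (mem_univ x)
    show g x = 0
    omega
  by_cases hc : ∀ x ∈ D, ∀ y ∈ D, x ≤ y → g x ≤ g y
  · by_cases hn : n0 < ∑ x ∈ D, g x
    · rw [ZB_zero_of_lt β n0 hn]; exact dvd_zero p
    · obtain ⟨m, hm⟩ : ∃ m, n0 = m + ∑ x, g x := ⟨n0 - ∑ x, g x, by omega⟩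
      rw [hm, ZB_shift β hD hlev hg hc]
      exact h m (by omega)
  · rw [ZB_zero_of_not_compat β hlev hc]; exact dvd_zero p

section StepMod

variable {i : ℕ} {p : ℤ[X]} {n0 : ℕ} {D : Finset P} {β : P → ℕ} {x0 : P}

open Classical in
/-- raising a bound, modulo `p`, if all labels below `x0` which are not zero are clean -/
lemma step_mod (hx0 : x0 ∉ D) (hlx : i < lev x0)
    (h : ∀ g', Gd D 0 β x0 g' → g' ≠ 0 → p ∣ ZB i (D ∪ dnf x0) g' β n0) :
    p ∣ ZB i D 0 β n0 - ZB i D 0 (Function.update β x0 (β x0 + 1)) n0 -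
      (if β x0 = 0 ∧ ∀ y ≤ x0, y ∉ D → β y = 0 then ZB i (D ∪ dnf x0) 0 β n0 else 0) := by
  have key := ZB_step_eq (g := 0) β x0 hx0 hlx n0
  have h0 : (0 : P → ℕ) ∈ Fintype.piFinset (fun _ : P => range (n0 + 1)) := by
    rw [Fintype.mem_piFinset]
    intro x
    rw [mem_range]
    exact Nat.succ_pos _
  have h1 : Gd D 0 β x0 0 ↔ β x0 = 0 ∧ ∀ y ≤ x0, y ∉ D → β y = 0 := by
    unfold Gd
    constructor
    · rintro ⟨-, h2, -, h4, -⟩
      exact ⟨h2.symm, fun y hy hyD => Nat.le_zero.mp (h4 y hy hyD)⟩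
    · rintro ⟨h2, h3⟩
      refine ⟨fun _ _ => rfl, h2.symm, fun _ _ => Nat.zero_le _, fun y hy hyD => ?_, fun _ _ => rfl⟩
      rw [h3 y hy hyD]; exact Nat.zero_le _
  rw [← Finset.add_sum_erase _ _ h0] at key
  have h2 : (if Gd D 0 β x0 0 then ZB i (D ∪ dnf x0) 0 β n0 else 0) =
      (if β x0 = 0 ∧ ∀ y ≤ x0, y ∉ D → β y = 0 then ZB i (D ∪ dnf x0) 0 β n0 else 0) := by
    by_cases hc : Gd D 0 β x0 0
    · rw [if_pos hc, if_pos (h1.mp hc)]
    · rw [if_neg hc, if_neg (fun h => hc (h1.mpr h))]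
  rw [h2] at key
  rw [key]
  have h3 : ∀ a b c : ℤ[X], a + (b + c) - a - b = c := fun a b c => by ring
  rw [h3]
  refine Finset.dvd_sum fun g' hg' => ?_
  split_ifs with hG
  · exact h g' hG (ne_of_mem_erase hg')
  · exact dvd_zero p

end StepMod

section Sum

variable (i : ℕ) (θ : P → ℕ) (n0 : ℕ) (Tw : Finset (P × P))

open Classical in
/-- the pairs which contribute -/
noncomputable def tws (D : Finset P) (β : P → ℕ) : Finset (P × P) :=
  Tw.filter (fun t => (t.1 ∉ D ∧ t.2 ∉ D) ∧ tcst i θ t = n0 ∧ ∀ y, y ∉ D → β y ≤ tez i θ t y)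

/-- the sum of the leading terms of the pairs which contribute -/
noncomputable def tsum (D : Finset P) (β : P → ℕ) : ℤ[X] := ∑ t ∈ tws i θ n0 Tw D β, Tm i θ t

variable {i θ n0 Tw}

lemma mem_tws {D : Finset P} {β : P → ℕ} {t : P × P} : t ∈ tws i θ n0 Tw D β ↔
    t ∈ Tw ∧ (t.1 ∉ D ∧ t.2 ∉ D) ∧ tcst i θ t = n0 ∧ ∀ y, y ∉ D → β y ≤ tez i θ t y := by
  classical
  unfold tws; rw [mem_filter]

lemma tws_congr {D : Finset P} {β β' : P → ℕ} (h : ∀ y, y ∉ D → β y = β' y) :
    tws i θ n0 Tw D β = tws i θ n0 Tw D β' := by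
  ext t
  rw [mem_tws, mem_tws]
  refine and_congr_right fun _ => and_congr_right fun _ => and_congr_right fun _ =>
    forall_congr' fun y => ⟨fun h1 hy => ?_, fun h1 hy => ?_⟩
  · rw [← h y hy]; exact h1 hy
  · rw [h y hy]; exact h1 hy

open Classical in
/-- the recursion of the sum of the leading terms -/
lemma tsum_step (hT : ∀ t ∈ Tw, Twn i θ t) {D : Finset P} {β : P → ℕ} {x0 : P} (hx0 : x0 ∉ D)
    (hlx : i < lev x0) (hle : θ x0 ≤ lev x0 - i)
    (hb : β x0 + 1 ≤ θ x0) : tsum i θ n0 Tw D β =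
      tsum i θ n0 Tw D (Function.update β x0 (β x0 + 1)) +
      (if β x0 = 0 ∧ ∀ y ≤ x0, y ∉ D → β y = 0 then tsum i θ n0 Tw (D ∪ dnf x0) β else 0) := by
  have h1 : (tws i θ n0 Tw D β).filter (fun t => β x0 + 1 ≤ tez i θ t x0) =
      tws i θ n0 Tw D (Function.update β x0 (β x0 + 1)) := by
    ext t
    rw [mem_filter, mem_tws, mem_tws]
    constructor
    · rintro ⟨⟨h1, h2, h3, h4⟩, h5⟩
      refine ⟨h1, h2, h3, fun y hy => ?_⟩
      by_cases hyx : y = x0
      · subst hyx; rw [Function.update_self]; exact h5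
      · rw [Function.update_of_ne hyx]; exact h4 y hy
    · rintro ⟨h1, h2, h3, h4⟩
      have h5 := h4 x0 hx0
      rw [Function.update_self] at h5
      refine ⟨⟨h1, h2, h3, fun y hy => ?_⟩, h5⟩
      by_cases hyx : y = x0
      · subst hyx; omega
      · have := h4 y hy
        rwa [Function.update_of_ne hyx] at this
  have h2 : ∑ t ∈ (tws i θ n0 Tw D β).filter (fun t => ¬ β x0 + 1 ≤ tez i θ t x0), Tm i θ t =
      (if β x0 = 0 ∧ ∀ y ≤ x0, y ∉ D → β y = 0 then tsum i θ n0 Tw (D ∪ dnf x0) β else 0) := by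
    have hz : ∀ t ∈ (tws i θ n0 Tw D β).filter (fun t => ¬ β x0 + 1 ≤ tez i θ t x0),
        t ∈ Tw ∧ (t.1 ∉ D ∧ t.2 ∉ D) ∧ tcst i θ t = n0 ∧ (∀ y, y ∉ D → β y ≤ tez i θ t y) ∧
        tez i θ t x0 = 0 := by
      intro t ht
      rw [mem_filter, mem_tws] at ht
      obtain ⟨⟨h1, h2, h3, h4⟩, h5⟩ := ht
      refine ⟨h1, h2, h3, h4, ?_⟩
      by_contra hne
      have := tez_ge (hT t h1) hle hne
      omega
    have hdn : ∀ t ∈ Tw, tez i θ t x0 = 0 → ∀ y ≤ x0, tez i θ t y = 0 := by
      intro t ht h y hy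
      obtain ⟨h3, h4⟩ := tez_eq_zero (hT t ht) hlx h
      exact tez_zero_of (fun h5 => h3 (h5.trans hy)) (fun h5 => h4 (h5.trans hy))
    split_ifs with hc
    · unfold tsum
      refine Finset.sum_congr ?_ (fun _ _ => rfl)
      ext t
      constructor
      · intro ht
        obtain ⟨h1, h2, h3, h4, h5⟩ := hz t ht
        obtain ⟨h6, h7⟩ := tez_eq_zero (hT t h1) hlx h5
        rw [mem_tws]
        refine ⟨h1, ⟨?_, ?_⟩, h3, fun y hy => ?_⟩
        · rw [mem_union, mem_dnf, not_or]; exact ⟨h2.1, h6⟩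
        · rw [mem_union, mem_dnf, not_or]; exact ⟨h2.2, h7⟩
        · exact h4 y (fun h => hy (mem_union_left _ h))
      · intro ht
        rw [mem_tws] at ht
        obtain ⟨h1, ⟨h2, h2'⟩, h3, h4⟩ := ht
        rw [mem_union, mem_dnf, not_or] at h2 h2'
        have h5 : tez i θ t x0 = 0 := tez_zero_of h2.2 h2'.2
        rw [mem_filter, mem_tws]
        refine ⟨⟨h1, ⟨h2.1, h2'.1⟩, h3, fun y hy => ?_⟩, by omega⟩
        by_cases hyx : y ≤ x0
        · rw [hc.2 y hyx hy]; exact Nat.zero_le _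
        · refine h4 y ?_
          rw [mem_union, mem_dnf, not_or]
          exact ⟨hy, hyx⟩
    · rw [Finset.sum_eq_zero]
      intro t ht
      exfalso
      obtain ⟨h1, h2, h3, h4, h5⟩ := hz t ht
      refine hc ⟨?_, fun y hy hyD => ?_⟩
      · have := h4 x0 hx0
        omega
      · have := h4 y hyD
        rw [hdn t h1 h5 y hy] at this
        omega
  rw [← h2]
  unfold tsum
  rw [← h1]
  exact (Finset.sum_filter_add_sum_filter_not _ _ _).symm

end Sum

end Pool.Agent.GaussPoset

end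

/-! From `Pool.Agent.W_448s7_h5.SevC` -/

section

/-!
The twin step with exact leading term.
-/

namespace Pool.Agent.GaussPoset

set_option linter.unusedSectionVars false

open Polynomial Finset

universe u

variable {P : Type u} [Fintype P] [PartialOrder P] [DecidableEq P]

section Step

variable {i : ℕ} {p : ℤ[X]} {n0 : ℕ} {θ : P → ℕ} {x x' : P} {D : Finset P}

lemma tez_le_of (H : Twn i θ (x, x')) (hlx : i < lev x) (hx : x ∉ D) (hx' : x' ∉ D)
    {e : P → ℕ} {F : Finset P} (hC : Cst i D 0 (st2 x x' (θ x) (θ x + 1)) e F) (y : P) :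
    tez i θ (x, x') y ≤ e y := by
  have hll : lev x = lev x' := lev_eq_of_up H.up
  have hlt := H.lt
  have hne := H.ne
  simp only at hlt hne
  obtain ⟨hV, -, hβ⟩ := hC
  have h1 : θ x ≤ e x := by
    by_cases hxF : x ∈ F
    · have := sub_le_of_mem hV hxF
      omega
    · have h2 := hβ x hx hxF
      rw [rho_of_lt hlx] at h2
      unfold st2 at h2
      rw [if_pos rfl] at h2
      exact_mod_cast h2
  have h2 : θ x + 1 ≤ e x' := by
    by_cases hxF : x' ∈ F
    · have := sub_le_of_mem hV hxF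
      omega
    · have h2 := hβ x' hx' hxF
      rw [rho_of_lt (by omega)] at h2
      unfold st2 at h2
      rw [if_neg hne.symm, if_pos rfl] at h2
      exact_mod_cast h2
  by_cases hyx : y = x
  · subst hyx
    have := tez_fst (i := i) (θ := θ) (t := (y, x'))
    simp only at this
    rw [this]; exact h1
  · by_cases hyx' : y = x'
    · subst hyx'
      have := tez_snd (i := i) (θ := θ) (t := (x, y)) H.ne
      simp only at this
      rw [this]; exact h2
    · by_cases hxy : x < y
      · rw [tez_up H hxy]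
        by_cases hyF : y ∈ F
        · exact (min_le_right _ _).trans (sub_le_of_mem hV hyF)
        · refine (min_le_left _ _).trans ?_
          have hx'y := (H.up y).mp hxy
          simp only at hx'y
          have hx'F : x' ∉ F := fun h => hyF (hV.1 x' y hx'y.le h)
          have h3 := hV.2.2.1 x' y hx'y.le hx'F hyF
          rw [rho_of_lt (by omega)] at h3
          have h4 := rho_le i e y
          simp only
          omega
      · rw [tez_off hyx hyx' hxy]; exact Nat.zero_le _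

open Classical in
/-- the sum over all configurations with two high labels, at the least energy -/
lemma ZB_st2_exact (H : Twn i θ (x, x')) (hlx : i < lev x) (hDl : ∀ d ∈ D, i < lev d)
    (hx : x ∉ D) (hx' : x' ∉ D) (hup : ∀ y, x < y → y ∉ D) (hn : n0 ≤ tcst i θ (x, x')) :
    ZB i D 0 (st2 x x' (θ x) (θ x + 1)) n0 =
      if tcst i θ (x, x') = n0 then Tm i θ (x, x') else 0 := by
  have hll : lev x = lev x' := lev_eq_of_up H.up
  have heq : ∀ e F, e ∈ (univ : Finset P).piAntidiag n0 →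
      Cst i D 0 (st2 x x' (θ x) (θ x + 1)) e F → tcst i θ (x, x') = n0 ∧ e = tez i θ (x, x') := by
    intro e F he hC
    rw [mem_piAntidiag] at he
    have h1 := tez_le_of H hlx hx hx' hC
    have h2 : tcst i θ (x, x') ≤ ∑ y, e y := Finset.sum_le_sum fun y _ => h1 y
    have h3 : ∑ y, e y = n0 := he.1
    have h4 : tcst i θ (x, x') = n0 := by omega
    refine ⟨h4, ?_⟩
    funext y
    have h5 : ∑ y, tez i θ (x, x') y = ∑ y, e y := by rw [h3]; exact h4
    exact ((Finset.sum_eq_sum_iff_of_le (fun y _ => h1 y)).mp h5 y (mem_univ y)).symm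
  unfold ZB Tm
  by_cases hc : tcst i θ (x, x') = n0
  · rw [if_pos hc]
    refine Finset.sum_congr rfl fun F _ => ?_
    by_cases hV : Vd i (tez i θ (x, x')) F
    · rw [if_pos hV]
      have h1 : ((univ : Finset P).piAntidiag n0).filter
          (fun e => Cst i D 0 (st2 x x' (θ x) (θ x + 1)) e F) = {tez i θ (x, x')} := by
        ext e
        rw [mem_filter, mem_singleton]
        constructor
        · rintro ⟨h1, h2⟩
          exact (heq e F h1 h2).2
        · rintro rfl
          refine ⟨?_, hV, ?_, ?_⟩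
          · rw [mem_piAntidiag]
            exact ⟨hc, fun _ _ => mem_univ _⟩
          · intro d hd
            have h2 : tez i θ (x, x') d = 0 :=
              tez_off (fun h => hx (by have h' : d = x := h; rw [← h']; exact hd))
                (fun h => hx' (by have h' : d = x' := h; rw [← h']; exact hd)) (fun h => hup d h hd)
            refine ⟨fun hF => ?_, h2⟩
            have h3 := sub_le_of_mem hV hF
            have h4 := hDl d hd
            omega
          · intro y hy hyF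
            by_cases hyx : y = x
            · subst hyx
              rw [rho_of_lt hlx]
              have := tez_fst (i := i) (θ := θ) (t := (y, x'))
              simp only at this
              rw [this]
              unfold st2
              rw [if_pos rfl]
            · by_cases hyx' : y = x'
              · subst hyx'
                rw [rho_of_lt (by omega)]
                have := tez_snd (i := i) (θ := θ) (t := (x, y)) H.ne
                simp only at this
                rw [this]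
                unfold st2
                rw [if_neg hyx, if_pos rfl]
              · unfold st2
                rw [if_neg hyx, if_neg hyx']
                simpa using hV.2.1 y hyF
      rw [h1, Finset.sum_singleton]
    · rw [if_neg hV, Finset.sum_eq_zero]
      intro e he
      exfalso
      rw [mem_filter] at he
      have h1 := (heq e F he.1 he.2).2
      exact hV (h1 ▸ he.2.1)
  · rw [if_neg hc]
    refine Finset.sum_eq_zero fun F _ => ?_
    rw [Finset.sum_eq_zero]
    intro e he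
    exfalso
    rw [mem_filter] at he
    exact hc (heq e F he.1 he.2).1

open Classical in
/-- the twin step, exact -/
theorem twin_step_exact (H : Twn i θ (x, x')) (hlx : i < lev x) (hDl : ∀ d ∈ D, i < lev d)
    (hDlow : ∀ a c, a ≤ c → c ∈ D → a ∈ D) (hx : x ∉ D) (hx' : x' ∉ D)
    (hmin : ∀ y < x', y ∈ D)
    (hlow : ∀ E : Finset P, E = D ∪ dnf x ∨ E = D ∪ dnf x' → ∀ a c, a ≤ c → c ∈ E → a ∈ E)
    (hlev : ∀ E : Finset P, E = D ∪ dnf x ∨ E = D ∪ dnf x' → ∀ a ∈ E, i < lev a)
    (hc2 : ∀ y ≤ x, y ∉ D → ∀ w, y ⋖ w → ¬ w ≤ x → θ x ≤ θ w + 1)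
    (hBC : ∀ E : Finset P, E = D ∪ dnf x ∨ E = D ∪ dnf x' →
      ∀ β : P → ℕ, (∀ y, y ∉ E → β y ≤ θ y) → ∀ n < n0, p ∣ ZB i E 0 β n)
    (hn : n0 ≤ tcst i θ (x, x')) :
    p ∣ ZB i D 0 0 n0 - ((if tcst i θ (x, x') = n0 then Tm i θ (x, x') else 0) +
      ZB i (D ∪ dnf x) 0 (st2 x x' 0 1) n0 + ZB i (D ∪ dnf x') 0 0 n0) := by
  have hll : lev x = lev x' := lev_eq_of_up H.up
  have hlx' : i < lev x' := by omega
  have hne := H.ne
  have hθ := H.one_le
  have heq := H.eq
  simp only at hne hθ heq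
  have hs1 : ∀ a b, st2 x x' a b x = a := fun a b => by unfold st2; rw [if_pos rfl]
  have hs2 : ∀ a b, st2 x x' a b x' = b := fun a b => by
    unfold st2; rw [if_neg hne.symm, if_pos rfl]
  have hs3 : ∀ a b y, y ≠ x → y ≠ x' → st2 x x' a b y = 0 := fun a b y h1 h2 => by
    unfold st2; rw [if_neg h1, if_neg h2]
  have hxx' : ¬ x ≤ x' := fun h => hx (hmin x (lt_of_le_of_ne h hne))
  have hx'x : ¬ x' ≤ x := fun h => by
    have h1 : x' < x := lt_of_le_of_ne h hne.symm
    exact lt_irrefl x ((H.up x).mpr h1)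
  have stepA : ∀ k ≤ θ x, p ∣ ZB i D 0 (st2 x x' k k) n0 - ZB i D 0 (st2 x x' k (k + 1)) n0 -
      (if k = 0 then ZB i (D ∪ dnf x') 0 0 n0 else 0) := by
    intro k hk
    have h1 := step_mod (i := i) (p := p) (n0 := n0) (β := st2 x x' k k) hx' hlx' (by
      intro g' hG hg0
      obtain ⟨g1, g2, g3, g4, g5⟩ := hG
      rw [hs2] at g2 g3
      have hE : D ∪ dnf x' = D ∪ dnf x ∨ D ∪ dnf x' = D ∪ dnf x' := Or.inr rfl
      refine dvd_ZB_shift_pos _ (hlow _ hE) (hlev _ hE) g5 p n0 (fun n hn => ?_) hg0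
      rw [ZB_redundant (β := st2 x x' k 0)]
      · refine hBC _ hE _ ?_ n hn
        intro y hy
        rw [mem_union, mem_dnf, not_or] at hy
        by_cases hyx : y = x
        · subst hyx; rw [hs1]; exact hk
        · rw [hs3 k 0 y hyx (fun h => hy.2 h.le)]
          exact Nat.zero_le _
      · intro y hy
        rw [mem_union, mem_dnf, not_or] at hy
        refine le_trans ?_ (le_bg _ _ _ y)
        by_cases hyx : y = x
        · subst hyx; rw [hs1, hs1]
        · rw [hs3 k 0 y hyx (fun h => hy.2 h.le)]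
          exact Nat.zero_le _
      · intro y hy
        rw [mem_union, mem_dnf, not_or] at hy
        have hdall : ∀ d ∈ D ∪ dnf x', d ∈ D ∨ d = x' := by
          intro d hd
          rw [mem_union, mem_dnf] at hd
          rcases hd with hd | hd
          · exact Or.inl hd
          · rcases eq_or_lt_of_le hd with h1 | h1
            · exact Or.inr h1
            · exact Or.inl (hmin d h1)
        by_cases hxy : x < y
        · right
          refine ⟨x, hxy.le, ?_, ?_⟩
          · rw [mem_union, mem_dnf]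
            rintro (h1 | h1)
            · exact hx h1
            · exact hxx' h1
          · rw [hs1]
            refine bg_le ?_ ?_
            · rw [hs3 k k y hxy.ne' (fun h => hy.2 h.le)]
              exact Nat.zero_le _
            · intro d hd _
              rcases hdall d hd with h1 | h1
              · rw [g1 d h1]; exact Nat.zero_le _
              · rw [h1, g2]
        · left
          refine bg_le ?_ ?_
          · by_cases hyx : y = x
            · subst hyx; rw [hs1, hs1]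
            · rw [hs3 k k y hyx (fun h => hy.2 h.le)]
              exact Nat.zero_le _
          · intro d hd hdy
            rcases hdall d hd with h1 | h1
            · rw [g1 d h1]; exact Nat.zero_le _
            · exfalso
              rw [h1] at hdy
              exact hxy ((H.up y).mpr hdy.1))
    rw [hs2, st2_update_right hne] at h1
    by_cases hk0 : k = 0
    · subst hk0
      rw [if_pos rfl]
      have hcond : (0 : ℕ) = 0 ∧ ∀ y ≤ x', y ∉ D → st2 x x' 0 0 y = 0 :=
        ⟨rfl, fun y _ _ => by unfold st2; split_ifs <;> rfl⟩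
      rw [if_pos hcond] at h1
      have h2 : ZB i (D ∪ dnf x') 0 (st2 x x' 0 0) n0 = ZB i (D ∪ dnf x') 0 0 n0 := by
        refine ZB_congr (fun _ _ => rfl) (fun y _ => ?_) n0
        unfold st2
        split_ifs <;> rfl
      rw [h2] at h1
      exact h1
    · rw [if_neg hk0]
      rw [if_neg (fun h => hk0 h.1)] at h1
      exact h1
  have stepB : ∀ k, k + 1 ≤ θ x → p ∣ ZB i D 0 (st2 x x' k (k + 1)) n0 -
      ZB i D 0 (st2 x x' (k + 1) (k + 1)) n0 -
      (if k = 0 then ZB i (D ∪ dnf x) 0 (st2 x x' 0 1) n0 else 0) := by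
    intro k hk
    have h1 := step_mod (i := i) (p := p) (n0 := n0) (β := st2 x x' k (k + 1)) hx hlx (by
      intro g' hG hg0
      obtain ⟨g1, g2, g3, g4, g5⟩ := hG
      rw [hs1] at g2 g3
      have hE : D ∪ dnf x = D ∪ dnf x ∨ D ∪ dnf x = D ∪ dnf x' := Or.inl rfl
      refine dvd_ZB_shift_pos _ (hlow _ hE) (hlev _ hE) g5 p n0 (fun n hn => ?_) hg0
      refine hBC _ hE _ ?_ n hn
      intro y hy
      rw [mem_union, mem_dnf, not_or] at hy
      have hyx : y ≠ x := fun h => hy.2 h.le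
      by_cases hyx' : y = x'
      · subst hyx'
        refine bg_le ?_ ?_
        · rw [hs2, heq]; exact hk
        · intro d hd hdy
          have hdD := hmin d hdy.1
          rw [g1 d hdD]; exact Nat.zero_le _
      · refine bg_le ?_ ?_
        · rw [hs3 _ _ y hyx hyx']; exact Nat.zero_le _
        · intro d hd hdy
          by_cases hdD : d ∈ D
          · rw [g1 d hdD]; exact Nat.zero_le _
          · have hdx : d ≤ x := by
              rcases mem_union.mp hd with h1 | h1
              · exact absurd h1 hdD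
              · exact mem_dnf.mp h1
            have h1 := g3 d hdx
            have h2 := hc2 d hdx hdD y hdy hy.2
            omega)
    rw [hs1, st2_update_left] at h1
    by_cases hk0 : k = 0
    · subst hk0
      rw [if_pos rfl]
      have hcond : (0 : ℕ) = 0 ∧ ∀ y ≤ x, y ∉ D → st2 x x' 0 (0 + 1) y = 0 := by
        refine ⟨rfl, fun y hy _ => ?_⟩
        by_cases hyx : y = x
        · rw [hyx, hs1]
        · exact hs3 _ _ y hyx (fun h => hx'x (h ▸ hy))
      rw [if_pos hcond] at h1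
      exact h1
    · rw [if_neg hk0]
      rw [if_neg (fun h => hk0 h.1)] at h1
      exact h1
  have hup : ∀ y, x < y → y ∉ D := fun y hy hyD => hx (hDlow x y hy.le hyD)
  have hfin := ZB_st2_exact H hlx hDl hx hx' hup hn
  have main : ∀ s k, 1 ≤ k → k + s = θ x → p ∣ ZB i D 0 (st2 x x' k k) n0 -
      (if tcst i θ (x, x') = n0 then Tm i θ (x, x') else 0) := by
    intro s
    induction s with
    | zero =>
      intro k hk hks
      have h1 := stepA k (by omega)
      have hk' : k = θ x := by omega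
      rw [if_neg (by omega), hk', hfin, sub_zero] at h1
      rw [hk']
      exact h1
    | succ s ih =>
      intro k hk hks
      have h1 := stepA k (by omega)
      have h2 := stepB k (by omega)
      rw [if_neg (by omega), sub_zero] at h1 h2
      have h3 := ih (k + 1) (by omega) (by omega)
      have h4 := dvd_add (dvd_add h1 h2) h3
      refine h4.trans (dvd_of_eq ?_)
      ring
  have h1 := stepA 0 (Nat.zero_le _)
  have h2 := stepB 0 (by omega)
  have h3 := main (θ x - 1) 1 le_rfl (by omega)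
  rw [if_pos rfl] at h1 h2
  have h0 : ZB i D 0 (st2 x x' 0 0) n0 = ZB i D 0 0 n0 := by
    refine ZB_congr (fun _ _ => rfl) (fun y _ => ?_) n0
    unfold st2
    split_ifs <;> rfl
  rw [h0, zero_add] at h1
  rw [zero_add] at h2
  have h4 := dvd_add (dvd_add h1 h2) h3
  refine h4.trans (dvd_of_eq ?_)
  ring

end Step

end Pool.Agent.GaussPoset

end

/-! From `Pool.Agent.W_448s7_h5.SevD` -/

section

/-!
The twin lemma with exact leading term at the cost of the cheapest pairs.
-/

namespace Pool.Agent.GaussPoset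

set_option linter.unusedSectionVars false

open Polynomial Finset

universe u

variable {P : Type u} [Fintype P] [PartialOrder P] [DecidableEq P]

open Classical in
/-- the sum over the pairs, at an unbroken pair -/
lemma tsum_twin {i : ℕ} {θ : P → ℕ} {n0 : ℕ} {Tw : Finset (P × P)} {D : Finset P} {x x' : P}
    (hT : ∀ t ∈ Tw, Twn i θ t) (ht : (x, x') ∈ Tw) (hanti : (x', x) ∉ Tw)
    (hx : x ∉ D) (hx' : x' ∉ D) (hmin : ∀ y < x', y ∈ D) :
    tsum i θ n0 Tw D 0 = (if tcst i θ (x, x') = n0 then Tm i θ (x, x') else 0) +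
      tsum i θ n0 Tw (D ∪ dnf x) (st2 x x' 0 1) + tsum i θ n0 Tw (D ∪ dnf x') 0 := by
  have H := hT _ ht
  have hne := H.ne
  simp only at hne
  have hll : lev x = lev x' := lev_eq_of_up H.up
  have hxx' : ¬ x ≤ x' := fun h => hx (hmin x (lt_of_le_of_ne h hne))
  have hx'x : ¬ x' ≤ x := fun h => by
    have h1 : x' < x := lt_of_le_of_ne h hne.symm
    exact lt_irrefl x ((H.up x).mpr h1)
  have hsame : ∀ y, lev y = lev x → y ≤ x → y = x := by
    intro y hy hyx
    by_contra h
    have := lev_strictAnti (lt_of_le_of_ne hyx h)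
    omega
  have h1 : (tws i θ n0 Tw D 0).filter (fun t => ¬ (t.1 = x' ∨ t.2 = x')) =
      tws i θ n0 Tw (D ∪ dnf x') 0 := by
    ext t
    rw [mem_filter, mem_tws, mem_tws]
    constructor
    · rintro ⟨⟨h1, h2, h3, -⟩, h5⟩
      push Not at h5
      refine ⟨h1, ⟨?_, ?_⟩, h3, fun _ _ => Nat.zero_le _⟩
      · rw [mem_union, mem_dnf, not_or]
        exact ⟨h2.1, fun h => h2.1 (hmin _ (lt_of_le_of_ne h h5.1))⟩
      · rw [mem_union, mem_dnf, not_or]
        exact ⟨h2.2, fun h => h2.2 (hmin _ (lt_of_le_of_ne h h5.2))⟩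
    · rintro ⟨h1, ⟨h2, h2'⟩, h3, -⟩
      rw [mem_union, mem_dnf, not_or] at h2 h2'
      refine ⟨⟨h1, ⟨h2.1, h2'.1⟩, h3, fun _ _ => Nat.zero_le _⟩, ?_⟩
      rintro (h | h)
      · exact h2.2 h.le
      · exact h2'.2 h.le
  have hnot : (x, x') ∉ tws i θ n0 Tw (D ∪ dnf x) (st2 x x' 0 1) := by
    rw [mem_tws]
    rintro ⟨-, ⟨h, -⟩, -⟩
    exact h (mem_union_right _ (mem_dnf.mpr le_rfl))
  have h2 : (tws i θ n0 Tw D 0).filter (fun t => t.1 = x' ∨ t.2 = x') =
      (if tcst i θ (x, x') = n0 then {(x, x')} else ∅) ∪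
        tws i θ n0 Tw (D ∪ dnf x) (st2 x x' 0 1) := by
    ext t
    rw [mem_filter, mem_tws, mem_union, mem_tws]
    constructor
    · rintro ⟨⟨h1, h2, h3, -⟩, h5⟩
      by_cases h6 : t = (x, x')
      · left
        rw [if_pos (by rw [← h6]; exact h3), mem_singleton]
        exact h6
      · right
        have Ht := hT t h1
        have hl : lev t.1 = lev t.2 := lev_eq_of_up Ht.up
        have hn1 : ¬ t.1 ≤ x := by
          intro h
          rcases h5 with h5 | h5
          · rw [h5] at h; exact hx'x h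
          · have := hsame t.1 (by rw [hl, h5]; exact hll.symm) h
            exact h6 (Prod.ext this h5)
        have hn2 : ¬ t.2 ≤ x := by
          intro h
          rcases h5 with h5 | h5
          · have h7 := hsame t.2 (by rw [← hl, h5]; exact hll.symm) h
            apply hanti
            have : t = (x', x) := Prod.ext h5 h7
            rw [← this]; exact h1
          · rw [h5] at h; exact hx'x h
        refine ⟨h1, ⟨?_, ?_⟩, h3, fun y _ => ?_⟩
        · rw [mem_union, mem_dnf, not_or]; exact ⟨h2.1, hn1⟩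
        · rw [mem_union, mem_dnf, not_or]; exact ⟨h2.2, hn2⟩
        · unfold st2
          split_ifs with h8 h9
          · exact Nat.zero_le _
          · have h10 := Ht.one_le
            rcases h5 with h5 | h5
            · rw [h9, ← h5, tez_fst]; exact h10
            · rw [h9, ← h5, tez_snd Ht.ne]; omega
          · exact Nat.zero_le _
    · intro h
      rcases h with h | ⟨h1, ⟨h2, h2'⟩, h3, h4⟩
      · split_ifs at h with hc
        · rw [mem_singleton] at h
          rw [h]
          exact ⟨⟨ht, ⟨hx, hx'⟩, hc, fun _ _ => Nat.zero_le _⟩, Or.inr rfl⟩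
        · exact absurd h (Finset.notMem_empty _)
      · rw [mem_union, mem_dnf, not_or] at h2 h2'
        refine ⟨⟨h1, ⟨h2.1, h2'.1⟩, h3, fun _ _ => Nat.zero_le _⟩, ?_⟩
        by_contra hcon
        push Not at hcon
        have h5 := h4 x' (by
          rw [mem_union, mem_dnf, not_or]
          exact ⟨hx', hx'x⟩)
        unfold st2 at h5
        rw [if_neg hne.symm, if_pos rfl] at h5
        rw [tez_off hcon.1.symm hcon.2.symm (fun h => h2.1 (hmin _ h))] at h5
        omega
  have h3 : ∑ t ∈ (tws i θ n0 Tw D 0).filter (fun t => t.1 = x' ∨ t.2 = x'), Tm i θ t =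
      (if tcst i θ (x, x') = n0 then Tm i θ (x, x') else 0) +
      ∑ t ∈ tws i θ n0 Tw (D ∪ dnf x) (st2 x x' 0 1), Tm i θ t := by
    rw [h2, Finset.sum_union]
    · congr 1
      split_ifs with hc
      · rw [Finset.sum_singleton]
      · rw [Finset.sum_empty]
    · split_ifs with hc
      · rw [Finset.disjoint_singleton_left]; exact hnot
      · exact Finset.disjoint_empty_left _
  unfold tsum
  rw [← h3, ← h1]
  exact (Finset.sum_filter_add_sum_filter_not _ _ _).symm

/-- the twin lemma, exact form -/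
theorem dvd_ZB_exact (i : ℕ) (p : ℤ[X]) (n0 : ℕ) (DD : Set (Finset P)) (θ : P → ℕ)
    (Tw : Finset (P × P))
    (hlow : ∀ D ∈ DD, ∀ x y, x ≤ y → y ∈ D → x ∈ D) (hlev : ∀ D ∈ DD, ∀ x ∈ D, i < lev x)
    (hθ : ∀ x, 1 ≤ θ x → i < lev x) (hle : ∀ x, θ x ≤ lev x - i)
    (c0 : ∀ D ∈ DD, (∀ t ∈ Tw, t.1 ∈ D ∨ t.2 ∈ D) → ∀ n, p ∣ ZB i D 0 0 n)
    (c1 : ∀ D ∈ DD, ∀ x, x ∉ D → 1 ≤ θ x → D ∪ dnf x ∈ DD)
    (c2 : ∀ D ∈ DD, ∀ x, x ∉ D → 1 ≤ θ x → ∀ y ≤ x, y ∉ D → ∀ x', y ⋖ x' → ¬ x' ≤ x →
      θ x ≤ θ x' + 1)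
    (hT : ∀ t ∈ Tw, Twn i θ t) (hanti : ∀ x x', (x, x') ∈ Tw → (x', x) ∉ Tw)
    (hcost : ∀ t ∈ Tw, n0 ≤ tcst i θ t)
    (hmin : ∀ t ∈ Tw, ∀ D ∈ DD, ∀ y < t.2, y ∈ D) :
    ∀ D ∈ DD, ∀ β : P → ℕ, (∀ x, x ∉ D → β x ≤ θ x) →
      p ∣ ZB i D 0 β n0 - tsum i θ n0 Tw D β := by
  classical
  have hlt := dvd_ZB_bounds_twins i p n0 DD θ Tw hlow hlev hθ (fun D hD hb n _ => c0 D hD hb n)
    c1 c2 (fun t ht => (hT t ht).pair (hcost t ht)) hmin
  have outer : ∀ N : ℕ, ∀ D ∈ DD, (Dᶜ).card = N → ∀ β : P → ℕ, (∀ x, x ∉ D → β x ≤ θ x) →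
      p ∣ ZB i D 0 β n0 - tsum i θ n0 Tw D β := by
    intro N
    induction N using Nat.strong_induction_on with
    | _ N ihN =>
    intro D hDD hN
    have hsmall : ∀ x, x ∉ D → 1 ≤ θ x → ∀ β : P → ℕ, (∀ y, y ∉ D ∪ dnf x → β y ≤ θ y) →
        p ∣ ZB i (D ∪ dnf x) 0 β n0 - tsum i θ n0 Tw (D ∪ dnf x) β := by
      intro x hx hθx β hβ
      refine ihN _ ?_ _ (c1 D hDD x hx hθx) rfl β hβ
      rw [← hN]
      apply Finset.card_lt_card
      rw [Finset.compl_ssubset_compl]
      rw [Finset.ssubset_iff_of_subset subset_union_left]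
      exact ⟨x, mem_union_right _ (mem_dnf.mpr le_rfl), hx⟩
    have base : p ∣ ZB i D 0 0 n0 - tsum i θ n0 Tw D 0 := by
      by_cases hall : ∀ t ∈ Tw, t.1 ∈ D ∨ t.2 ∈ D
      · have h1 : tsum i θ n0 Tw D 0 = 0 := by
          unfold tsum
          rw [Finset.sum_eq_zero]
          intro t ht
          exfalso
          rw [mem_tws] at ht
          rcases hall t ht.1 with h | h
          · exact ht.2.1.1 h
          · exact ht.2.1.2 h
        rw [h1, sub_zero]
        exact c0 D hDD hall n0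
      · push Not at hall
        obtain ⟨⟨x, x'⟩, ht, hx, hx'⟩ := hall
        have H := hT _ ht
        have hθx := H.one_le
        have heq := H.eq
        simp only at hθx heq hx hx'
        have hθx' : 1 ≤ θ x' := by omega
        have hDx := c1 D hDD x hx hθx
        have hDx' := c1 D hDD x' hx' hθx'
        have hin : ∀ E : Finset P, E = D ∪ dnf x ∨ E = D ∪ dnf x' → E ∈ DD := by
          rintro E (rfl | rfl)
          · exact hDx
          · exact hDx'
        have hm : ∀ y < x', y ∈ D := hmin _ ht D hDD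
        have h1 := twin_step_exact (p := p) (n0 := n0) H (hθ x hθx) (hlev D hDD) (hlow D hDD) hx hx'
          hm (fun E hE => hlow E (hin E hE)) (fun E hE => hlev E (hin E hE))
          (c2 D hDD x hx hθx) (fun E hE => hlt E (hin E hE)) (hcost _ ht)
        have hx'x : ¬ x' ≤ x := fun h => by
          have h1 : x' < x := lt_of_le_of_ne h (fun h => H.ne h.symm)
          exact lt_irrefl x ((H.up x).mpr h1)
        have h2 := hsmall x hx hθx (st2 x x' 0 1) (by
          intro y hy
          unfold st2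
          split_ifs with h8 h9
          · exact Nat.zero_le _
          · rw [h9]; exact hθx'
          · exact Nat.zero_le _)
        have h3 := hsmall x' hx' hθx' 0 (fun _ _ => Nat.zero_le _)
        rw [tsum_twin hT ht (hanti _ _ ht) hx hx' hm]
        have h4 := dvd_add (dvd_add h1 h2) h3
        refine h4.trans (dvd_of_eq ?_)
        ring
    have inner : ∀ s : ℕ, ∀ β : P → ℕ, (∑ x ∈ Dᶜ, β x = s) → (∀ x, x ∉ D → β x ≤ θ x) →
        p ∣ ZB i D 0 β n0 - tsum i θ n0 Tw D β := by
      intro s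
      induction s with
      | zero =>
        intro β hβ _
        have h0 : ∀ x, x ∉ D → β x = 0 := by
          intro x hx
          rw [Finset.sum_eq_zero_iff] at hβ
          exact hβ x (by simpa using hx)
        rw [ZB_congr (g' := 0) (β' := 0) (fun _ _ => rfl) (fun x hx => by simpa using h0 x hx)]
        have h1 : tsum i θ n0 Tw D β = tsum i θ n0 Tw D 0 := by
          unfold tsum
          rw [tws_congr (β' := 0) (fun x hx => by simpa using h0 x hx)]
        rw [h1]
        exact base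
      | succ s ihs =>
        intro β hβ hbd
        obtain ⟨x0, hx0, hx0b⟩ : ∃ x0, x0 ∉ D ∧ 1 ≤ β x0 := by
          by_contra hcon
          push Not at hcon
          have : ∑ x ∈ Dᶜ, β x = 0 := Finset.sum_eq_zero fun x hx => by
            have := hcon x (by simpa using hx)
            omega
          omega
        let β' : P → ℕ := Function.update β x0 (β x0 - 1)
        have hβ'x : β' x0 = β x0 - 1 := Function.update_self _ _ _
        have hβ'n : ∀ x, x ≠ x0 → β' x = β x := fun x hx => Function.update_of_ne hx _ _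
        have hββ : β = Function.update β' x0 (β' x0 + 1) := by
          funext x
          by_cases hx : x = x0
          · subst hx
            rw [Function.update_self, hβ'x]; omega
          · rw [Function.update_of_ne hx, hβ'n x hx]
        have hle' : ∀ x, β' x ≤ β x := by
          intro x
          by_cases hx : x = x0
          · subst hx; rw [hβ'x]; omega
          · rw [hβ'n x hx]
        have hθx0 : 1 ≤ θ x0 := hx0b.trans (hbd x0 hx0)
        have hsum : ∑ x ∈ Dᶜ, β' x = s := by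
          have h1 : ∑ x ∈ Dᶜ, β x = ∑ x ∈ Dᶜ, β' x + 1 := by
            rw [← Finset.add_sum_erase Dᶜ β (by simpa using hx0 : x0 ∈ Dᶜ),
              ← Finset.add_sum_erase Dᶜ β' (by simpa using hx0 : x0 ∈ Dᶜ), hβ'x]
            have h2 : ∑ x ∈ Dᶜ.erase x0, β x = ∑ x ∈ Dᶜ.erase x0, β' x :=
              Finset.sum_congr rfl fun x hx => (hβ'n x (ne_of_mem_erase hx)).symm
            omega
          omega
        have hD' := c1 D hDD x0 hx0 hθx0
        have hbx := hbd x0 hx0
        have h1 := step_mod (p := p) (n0 := n0) (β := β') hx0 (hθ x0 hθx0) (by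
          intro g' hG hg0
          obtain ⟨g1, g2, g3, g4, g5⟩ := hG
          refine dvd_ZB_shift_pos β' (hlow _ hD') (hlev _ hD') g5 p n0 (fun n hn => ?_) hg0
          refine hlt _ hD' _ ?_ n hn
          intro x hx
          rw [mem_union, mem_dnf, not_or] at hx
          refine bg_le ((hle' x).trans (hbd x hx.1)) ?_
          intro y hy hyx
          by_cases hyD : y ∈ D
          · rw [g1 y hyD]; exact Nat.zero_le _
          · have hyx0 : y ≤ x0 := by
              rcases mem_union.mp hy with h | h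
              · exact absurd h hyD
              · exact mem_dnf.mp h
            have h1 := g3 y hyx0
            rw [hβ'x] at h1
            have h2 := c2 D hDD x0 hx0 hθx0 y hyx0 hyD x hyx hx.2
            omega)
        have h2 := tsum_step (n0 := n0) hT (D := D) (β := β') hx0 (hθ x0 hθx0) (hle x0)
          (by omega)
        have h3 := ihs β' hsum (fun x hx => (hle' x).trans (hbd x hx))
        rw [← hββ] at h1 h2
        rw [h2] at h3
        by_cases hc : β' x0 = 0 ∧ ∀ y ≤ x0, y ∉ D → β' y = 0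
        · rw [if_pos hc] at h1 h3
          have h4 := hsmall x0 hx0 hθx0 β' (fun y hy => by
            rw [mem_union, not_or] at hy
            exact (hle' y).trans (hbd y hy.1))
          have h5 := dvd_sub (dvd_sub h3 h1) h4
          refine h5.trans (dvd_of_eq ?_)
          ring
        · rw [if_neg hc, sub_zero] at h1
          rw [if_neg hc, add_zero] at h3
          have h5 := dvd_sub h3 h1
          refine h5.trans (dvd_of_eq ?_)
          ring
    intro β hbd
    exact inner _ β rfl hbd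
  intro D hDD β hbd
  exact outer _ D hDD rfl β hbd

end Pool.Agent.GaussPoset

end

/-! From `Pool.Agent.W_448s7_h27.FarIE` -/

section

/-!
Inclusion-exclusion over the set of components which are hit beyond their threshold: the
far window theorem for poles of higher order (MP_448cb3_co).
-/

namespace Pool.Agent.GaussPoset

set_option linter.unusedSectionVars false

open Polynomial Finset

universe u

variable {P : Type u} [Fintype P] [PartialOrder P] [DecidableEq P]
variable {κ : Type*} [Fintype κ] [DecidableEq κ]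

open Classical in
/-- sum over the valid configurations of energy `n` with the property `Q` -/
noncomputable def ZQ (i n : ℕ) (Q : (P → ℕ) → Finset P → Prop) : ℤ[X] :=
  ∑ F : Finset P, ∑ _e ∈ ((univ : Finset P).piAntidiag n).filter (fun e => Vd i e F ∧ Q e F),
    (X : ℤ[X]) ^ F.card

lemma ZQ_congr {i n : ℕ} {Q Q' : (P → ℕ) → Finset P → Prop}
    (h : ∀ e F, Vd i e F → ∑ x, e x = n → (Q e F ↔ Q' e F)) : ZQ i n Q = ZQ i n Q' := by
  classical
  unfold ZQ
  refine Finset.sum_congr rfl fun F _ => ?_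
  refine Finset.sum_congr (Finset.filter_congr fun e he => ?_) (fun _ _ => rfl)
  rw [mem_piAntidiag] at he
  constructor
  · rintro ⟨h1, h2⟩
    exact ⟨h1, (h e F h1 he.1).mp h2⟩
  · rintro ⟨h1, h2⟩
    exact ⟨h1, (h e F h1 he.1).mpr h2⟩

lemma ZQ_split (i n : ℕ) (Q A : (P → ℕ) → Finset P → Prop) :
    ZQ i n Q = ZQ i n (fun e F => Q e F ∧ A e F) + ZQ i n (fun e F => Q e F ∧ ¬ A e F) := by
  classical
  unfold ZQ
  rw [← Finset.sum_add_distrib]
  refine Finset.sum_congr rfl fun F _ => ?_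
  rw [← Finset.sum_filter_add_sum_filter_not
    (((univ : Finset P).piAntidiag n).filter (fun e => Vd i e F ∧ Q e F)) (fun e => A e F)
    (fun _ => (X : ℤ[X]) ^ F.card)]
  congr 1
  · refine Finset.sum_congr ?_ (fun _ _ => rfl)
    ext e
    simp only [mem_filter]
    tauto
  · refine Finset.sum_congr ?_ (fun _ _ => rfl)
    ext e
    simp only [mem_filter]
    tauto

lemma Z_eq_ZQ (i n : ℕ) : Z P i n = ZQ (P := P) i n (fun _ _ => True) := by
  classical
  rw [Z_eq_sum, Finset.sum_comm]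
  unfold ZQ
  refine Finset.sum_congr rfl fun F _ => ?_
  rw [← Finset.sum_filter]
  refine Finset.sum_congr ?_ (fun _ _ => rfl)
  ext e
  simp only [mem_filter, and_true]

lemma ND_eq_ZQ (i n : ℕ) (R : Finset P) (h : P → ℕ) :
    ND i R h n = ZQ i n (fun e F => ∀ z ∈ bdR R, ¬ Dgz h e F z) := by
  classical
  unfold ND ZQ
  refine Finset.sum_congr rfl fun F _ => ?_
  refine Finset.sum_congr ?_ (fun _ _ => rfl)
  ext e
  simp only [mem_filter]

/-- the sum over fibres -/
lemma ZQ_fiber (i n : ℕ) (Q : (P → ℕ) → Finset P → Prop) (K : (P → ℕ) → Finset P → Finset κ)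
    (S : Finset (Finset κ)) :
    ZQ i n (fun e F => Q e F ∧ K e F ∈ S) = ∑ s ∈ S, ZQ i n (fun e F => Q e F ∧ K e F = s) := by
  classical
  unfold ZQ
  rw [Finset.sum_comm]
  refine Finset.sum_congr rfl fun F _ => ?_
  rw [← Finset.sum_biUnion]
  · refine Finset.sum_congr ?_ (fun _ _ => rfl)
    ext e
    simp only [mem_filter, mem_biUnion]
    constructor
    · rintro ⟨h1, h2, h3, h4⟩
      exact ⟨K e F, h4, h1, h2, h3, rfl⟩
    · rintro ⟨s, hs, h1, h2, h3, h4⟩
      exact ⟨h1, h2, h3, h4 ▸ hs⟩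
  · intro s _ s' _ hne
    simp only [Function.onFun]
    rw [Finset.disjoint_left]
    intro e he he'
    rw [mem_filter] at he he'
    exact hne (he.2.2.2.symm.trans he'.2.2.2)

/-- exact defect sets -/
lemma dvd_ZQ_eq {i n d : ℕ} {p : ℤ[X]} {Q : (P → ℕ) → Finset P → Prop}
    {K : (P → ℕ) → Finset P → Finset κ}
    (h : ∀ S : Finset κ, S.card ≤ d → p ∣ ZQ i n (fun e F => Q e F ∧ K e F ⊆ S)) :
    ∀ S : Finset κ, S.card ≤ d → p ∣ ZQ i n (fun e F => Q e F ∧ K e F = S) := by
  classical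
  intro S
  induction S using Finset.strongInduction with
  | H S ih =>
  intro hS
  have h1 : ZQ i n (fun e F => Q e F ∧ K e F ⊆ S) =
      ∑ s ∈ S.powerset, ZQ i n (fun e F => Q e F ∧ K e F = s) := by
    rw [← ZQ_fiber]
    exact ZQ_congr fun e F _ _ => by rw [mem_powerset]
  have h2 : S.powerset = insert S S.ssubsets := by
    rw [Finset.ssubsets, Finset.insert_erase (Finset.mem_powerset_self S)]
  have h3 : S ∉ S.ssubsets := by
    rw [Finset.mem_ssubsets]
    exact fun h => h.2 (Finset.Subset.refl S)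
  rw [h2, Finset.sum_insert h3] at h1
  have h4 := h S hS
  rw [h1] at h4
  refine (dvd_add_left (Finset.dvd_sum fun s hs => ?_)).mp h4
  rw [Finset.mem_ssubsets] at hs
  exact ih s hs ((Finset.card_le_card hs.1).trans hS)

/-- at most `d` defects -/
theorem dvd_ZQ_card {i n d : ℕ} {p : ℤ[X]} {Q : (P → ℕ) → Finset P → Prop}
    {K : (P → ℕ) → Finset P → Finset κ}
    (h : ∀ S : Finset κ, S.card ≤ d → p ∣ ZQ i n (fun e F => Q e F ∧ K e F ⊆ S)) :
    p ∣ ZQ i n (fun e F => Q e F ∧ (K e F).card ≤ d) := by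
  classical
  have h1 : ZQ i n (fun e F => Q e F ∧ (K e F).card ≤ d) =
      ∑ s ∈ (univ : Finset (Finset κ)).filter (fun s => s.card ≤ d),
        ZQ i n (fun e F => Q e F ∧ K e F = s) := by
    rw [← ZQ_fiber]
    exact ZQ_congr fun e F _ _ => by rw [mem_filter]; simp
  rw [h1]
  refine Finset.dvd_sum fun s hs => ?_
  rw [mem_filter] at hs
  exact dvd_ZQ_eq h s hs.2

/-- **Inclusion-exclusion.**  `K e F ⊆ E` is the set of defects, `Q` excludes the hard defects;
for every `S ⊆ E` with at most `d` elements there is a system without dangerous elements iff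
`Q` holds and the defects are in `S`. -/
theorem far_ie {i n d : ℕ} {p : ℤ[X]} (Q : (P → ℕ) → Finset P → Prop)
    (K : (P → ℕ) → Finset P → Finset κ) (E : Finset κ)
    (R : Finset κ → Finset P) (h : Finset κ → P → ℕ)
    (hK : ∀ e F, K e F ⊆ E)
    (hND : ∀ S, S ⊆ E → S.card ≤ d → p ∣ ND i (R S) (h S) n)
    (hQ : ∀ S, S ⊆ E → S.card ≤ d → ∀ e F, Vd i e F → ∑ x, e x = n →
      ((∀ z ∈ bdR (R S), ¬ Dgz (h S) e F z) ↔ (Q e F ∧ K e F ⊆ S))) :
    p ∣ Z P i n - ZQ i n (fun e F => ¬ (Q e F ∧ (K e F).card ≤ d)) := by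
  classical
  have h1 : Z P i n = ZQ i n (fun e F => Q e F ∧ (K e F).card ≤ d) +
      ZQ i n (fun e F => ¬ (Q e F ∧ (K e F).card ≤ d)) := by
    rw [Z_eq_ZQ, ZQ_split i n (fun _ _ => True) (fun e F => Q e F ∧ (K e F).card ≤ d)]
    congr 1
    · exact ZQ_congr fun e F _ _ => by simp
    · exact ZQ_congr fun e F _ _ => by simp
  rw [h1, add_sub_cancel_right]
  refine dvd_ZQ_card fun S hS => ?_
  have h2 : ZQ i n (fun e F => Q e F ∧ K e F ⊆ S) =
      ZQ i n (fun e F => Q e F ∧ K e F ⊆ S ∩ E) :=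
    ZQ_congr fun e F _ _ => by
      rw [subset_inter_iff]
      exact ⟨fun h => ⟨h.1, h.2, hK e F⟩, fun h => ⟨h.1, h.2.1⟩⟩
  have h3 : (S ∩ E).card ≤ d := (Finset.card_le_card inter_subset_left).trans hS
  have h4 := hND (S ∩ E) inter_subset_right h3
  rw [ND_eq_ZQ] at h4
  rw [h2]
  have h5 : ZQ i n (fun e F => Q e F ∧ K e F ⊆ S ∩ E) =
      ZQ i n (fun e F => ∀ z ∈ bdR (R (S ∩ E)), ¬ Dgz (h (S ∩ E)) e F z) :=
    ZQ_congr fun e F hV hs => (hQ (S ∩ E) inter_subset_right h3 e F hV hs).symm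
  rw [h5]
  exact h4

/-- evaluation of a sum in which only cheapest configurations of single elements occur -/
theorem ZQ_lead {i n : ℕ} {Q : (P → ℕ) → Finset P → Prop} (h : P → ℕ) (T : Finset P)
    (hgr : GradedBelow P) (h2 : ∀ z ∈ T, 1 ≤ h z ∧ h z ≤ lev z - i)
    (hb : ∀ z ∈ T, cst i h z = n → ∀ F, Vd i (ez i h z) F → Q (ez i h z) F)
    (hall : ∀ e F, Vd i e F → ∑ x, e x = n → Q e F → ∃ z ∈ T, e = ez i h z) :
    ZQ i n Q = ∑ z ∈ T.filter (fun z => cst i h z = n), Lt i h z := by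
  classical
  have h3 : ∀ z ∈ T.filter (fun z => cst i h z = n), Lt i h z =
        ∑ F : Finset P, if Vd i (ez i h z) F then (X : ℤ[X]) ^ F.card else 0 := by
    intro z hz
    rw [mem_filter] at hz
    rw [sum_vd, ← lead_eq hgr (h2 z hz.1).1 (h2 z hz.1).2]
  rw [Finset.sum_congr rfl h3, Finset.sum_comm]
  unfold ZQ
  refine Finset.sum_congr rfl fun F _ => ?_
  rw [← Finset.sum_filter]
  symm
  refine Finset.sum_bij (fun z _ => ez i h z) ?_ ?_ ?_ (fun _ _ => rfl)
  · intro z hz
    rw [mem_filter, mem_filter] at hz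
    rw [mem_filter, mem_piAntidiag]
    exact ⟨⟨hz.1.2, fun _ _ => mem_univ _⟩, hz.2, hb z hz.1.1 hz.1.2 F hz.2⟩
  · intro z hz z' hz' he
    rw [mem_filter, mem_filter] at hz hz'
    exact ez_inj (h2 z hz.1.1).1 (h2 z hz.1.1).2 (h2 z' hz'.1.1).1 (h2 z' hz'.1.1).2 he
  · intro e he
    rw [mem_filter, mem_piAntidiag] at he
    obtain ⟨⟨he1, -⟩, hV, hq⟩ := he
    obtain ⟨z, hz, rfl⟩ := hall e F hV he1 hq
    refine ⟨z, ?_, rfl⟩
    rw [mem_filter, mem_filter]
    exact ⟨⟨hz, he1⟩, hV⟩

/-- **The window theorem of order `d + 1`**: signs of the cheapest bad elements cancel. -/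
theorem far_ie_sign {i n d b : ℕ} (Q : (P → ℕ) → Finset P → Prop)
    (K : (P → ℕ) → Finset P → Finset κ) (E : Finset κ)
    (R : Finset κ → Finset P) (h : Finset κ → P → ℕ)
    (hK : ∀ e F, K e F ⊆ E)
    (hND : ∀ S, S ⊆ E → S.card ≤ d → (1 + X : ℤ[X]) ^ b ∣ ND i (R S) (h S) n)
    (hQ : ∀ S, S ⊆ E → S.card ≤ d → ∀ e F, Vd i e F → ∑ x, e x = n →
      ((∀ z ∈ bdR (R S), ¬ Dgz (h S) e F z) ↔ (Q e F ∧ K e F ⊆ S)))
    (hZ : (1 + X : ℤ[X]) ^ b ∣ Z P i n)
    (hgr : GradedBelow P) (k : P → ℕ) (T : Finset P)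
    (h2 : ∀ z ∈ T, 1 ≤ k z ∧ k z ≤ lev z - i) (hcst : ∀ z ∈ T, cst i k z = n)
    (hb : ∀ z ∈ T, ∀ F, Vd i (ez i k z) F → ¬ (Q (ez i k z) F ∧ (K (ez i k z) F).card ≤ d))
    (hall : ∀ e F, Vd i e F → ∑ x, e x = n → ¬ (Q e F ∧ (K e F).card ≤ d) →
      ∃ z ∈ T, e = ez i k z)
    {c0 : ℕ} (hc : c0 < b)
    (hle : ∀ z ∈ T, c0 + nab i z ≤ (lv P i).card + nab (i + k z) z) :
    ∑ z ∈ T.filter (fun z => c0 + nab i z = (lv P i).card + nab (i + k z) z),
      (-1 : ℤ) ^ (nst i k z) = 0 := by
  classical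
  have h1 := far_ie Q K E R h hK hND hQ
  rw [ZQ_lead k T hgr h2 (fun z hz _ => hb z hz) hall] at h1
  have h3 : T.filter (fun z => cst i k z = n) = T :=
    Finset.filter_true_of_mem fun z hz => hcst z hz
  rw [h3] at h1
  exact sign_sum_of_dvd T hZ h1 hc hle

end Pool.Agent.GaussPoset

end

/-! From `Pool.Agent.W_448f4_h70.GA` -/

section

/-!
Twins with prescribed sums of two high labels, energies `< n0` (MP_448cb3_co, S7, windows 2, 3).
-/

namespace Pool.Agent.GaussPoset

set_option linter.unusedSectionVars false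

open Polynomial Finset

universe u

variable {P : Type u} [Fintype P] [PartialOrder P] [DecidableEq P]

/-- a pair of twins with the same threshold -/
structure TwP (θ : P → ℕ) (x x' : P) : Prop where
  ne : x ≠ x'
  up : ∀ y, x < y ↔ x' < y
  one_le : 1 ≤ θ x
  eq : θ x' = θ x

lemma Twn.toP {i : ℕ} {θ : P → ℕ} {t : P × P} (H : Twn i θ t) : TwP θ t.1 t.2 :=
  ⟨H.ne, H.up, H.one_le, H.eq⟩

section StepH

variable {i : ℕ} {p : ℤ[X]} {n0 : ℕ} {θ : P → ℕ} {x x' : P} {D : Finset P}

/-- the twin step, with the sum of two high labels as a hypothesis -/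
theorem dvd_ZB_twin_stepH (H : TwP θ x x')
    (hT : ∀ n < n0, p ∣ ZB i D 0 (st2 x x' (θ x) (θ x + 1)) n) (hlx : i < lev x) (hx : x ∉ D) (hx' : x' ∉ D)
    (hmin : ∀ y < x', y ∈ D)
    (hlow : ∀ E : Finset P, E = D ∪ dnf x ∨ E = D ∪ dnf x' → ∀ a c, a ≤ c → c ∈ E → a ∈ E)
    (hlev : ∀ E : Finset P, E = D ∪ dnf x ∨ E = D ∪ dnf x' → ∀ a ∈ E, i < lev a)
    (hc2 : ∀ y ≤ x, y ∉ D → ∀ w, y ⋖ w → ¬ w ≤ x → θ x ≤ θ w + 1)
    (hBC : ∀ E : Finset P, E = D ∪ dnf x ∨ E = D ∪ dnf x' →
      ∀ β : P → ℕ, (∀ y, y ∉ E → β y ≤ θ y) → ∀ n < n0, p ∣ ZB i E 0 β n)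
    (n : ℕ) (hn : n < n0) : p ∣ ZB i D 0 0 n := by
  classical
  have hlx' : i < lev x' := by rw [← lev_eq_of_up H.up]; exact hlx
  have hs1 : ∀ a b, st2 x x' a b x = a := fun a b => by unfold st2; rw [if_pos rfl]
  have hs2 : ∀ a b, st2 x x' a b x' = b := fun a b => by
    unfold st2; rw [if_neg H.ne.symm, if_pos rfl]
  have hs3 : ∀ a b y, y ≠ x → y ≠ x' → st2 x x' a b y = 0 := fun a b y h1 h2 => by
    unfold st2; rw [if_neg h1, if_neg h2]
  have hxx' : ¬ x ≤ x' := fun h => hx (hmin x (lt_of_le_of_ne h H.ne))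
  have hx'x : ¬ x' ≤ x := fun h => by
    have h1 : x' < x := lt_of_le_of_ne h H.ne.symm
    exact lt_irrefl x ((H.up x).mpr h1)
  have stepA : ∀ k ≤ θ x, p ∣ ZB i D 0 (st2 x x' k (k + 1)) n → p ∣ ZB i D 0 (st2 x x' k k) n := by
    intro k hk h
    refine dvd_ZB_step_down (st2 x x' k k) x' hx' hlx' p n ?_ ?_
    · rw [hs2, st2_update_right H.ne]
      exact h
    · intro g' hG
      obtain ⟨g1, g2, g3, g4, g5⟩ := hG
      rw [hs2] at g2 g3
      have hE : D ∪ dnf x' = D ∪ dnf x ∨ D ∪ dnf x' = D ∪ dnf x' := Or.inr rfl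
      refine dvd_ZB_shift_lt _ (hlow _ hE) (hlev _ hE) g5 p n0 (fun n hn => ?_) n hn
      rw [ZB_redundant (β := st2 x x' k 0)]
      · refine hBC _ hE _ ?_ n hn
        intro y hy
        rw [mem_union, mem_dnf, not_or] at hy
        by_cases hyx : y = x
        · subst hyx; rw [hs1]; exact hk
        · rw [hs3 k 0 y hyx (fun h => hy.2 h.le)]
          exact Nat.zero_le _
      · intro y hy
        rw [mem_union, mem_dnf, not_or] at hy
        refine le_trans ?_ (le_bg _ _ _ y)
        by_cases hyx : y = x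
        · subst hyx; rw [hs1, hs1]
        · rw [hs3 k 0 y hyx (fun h => hy.2 h.le)]
          exact Nat.zero_le _
      · intro y hy
        rw [mem_union, mem_dnf, not_or] at hy
        have hdall : ∀ d ∈ D ∪ dnf x', d ∈ D ∨ d = x' := by
          intro d hd
          rw [mem_union, mem_dnf] at hd
          rcases hd with hd | hd
          · exact Or.inl hd
          · rcases eq_or_lt_of_le hd with h1 | h1
            · exact Or.inr h1
            · exact Or.inl (hmin d h1)
        by_cases hxy : x < y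
        · right
          refine ⟨x, hxy.le, ?_, ?_⟩
          · rw [mem_union, mem_dnf]
            rintro (h1 | h1)
            · exact hx h1
            · exact hxx' h1
          · rw [hs1]
            refine bg_le ?_ ?_
            · rw [hs3 k k y hxy.ne' (fun h => hy.2 h.le)]
              exact Nat.zero_le _
            · intro d hd _
              rcases hdall d hd with h1 | h1
              · rw [g1 d h1]; exact Nat.zero_le _
              · rw [h1, g2]
        · left
          refine bg_le ?_ ?_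
          · by_cases hyx : y = x
            · subst hyx; rw [hs1, hs1]
            · rw [hs3 k k y hyx (fun h => hy.2 h.le)]
              exact Nat.zero_le _
          · intro d hd hdy
            rcases hdall d hd with h1 | h1
            · rw [g1 d h1]; exact Nat.zero_le _
            · exfalso
              rw [h1] at hdy
              exact hxy ((H.up y).mpr hdy.1)
  have stepB : ∀ k, k + 1 ≤ θ x → p ∣ ZB i D 0 (st2 x x' (k + 1) (k + 1)) n →
      p ∣ ZB i D 0 (st2 x x' k (k + 1)) n := by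
    intro k hk h
    refine dvd_ZB_step_down (st2 x x' k (k + 1)) x hx hlx p n ?_ ?_
    · rw [hs1, st2_update_left]
      exact h
    · intro g' hG
      obtain ⟨g1, g2, g3, g4, g5⟩ := hG
      rw [hs1] at g2 g3
      have hE : D ∪ dnf x = D ∪ dnf x ∨ D ∪ dnf x = D ∪ dnf x' := Or.inl rfl
      refine dvd_ZB_shift_lt _ (hlow _ hE) (hlev _ hE) g5 p n0 (fun n hn => ?_) n hn
      refine hBC _ hE _ ?_ n hn
      intro y hy
      rw [mem_union, mem_dnf, not_or] at hy
      have hyx : y ≠ x := fun h => hy.2 h.le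
      by_cases hyx' : y = x'
      · subst hyx'
        refine bg_le ?_ ?_
        · rw [hs2, H.eq]; exact hk
        · intro d hd hdy
          have hdD := hmin d hdy.1
          rw [g1 d hdD]; exact Nat.zero_le _
      · refine bg_le ?_ ?_
        · rw [hs3 _ _ y hyx hyx']; exact Nat.zero_le _
        · intro d hd hdy
          by_cases hdD : d ∈ D
          · rw [g1 d hdD]; exact Nat.zero_le _
          · have hdx : d ≤ x := by
              rcases mem_union.mp hd with h1 | h1
              · exact absurd h1 hdD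
              · exact mem_dnf.mp h1
            have h1 := g3 d hdx
            have h2 := hc2 d hdx hdD y hdy hy.2
            omega
  have main : ∀ s k, k + s = θ x → p ∣ ZB i D 0 (st2 x x' k k) n := by
    intro s
    induction s with
    | zero =>
      intro k hk
      refine stepA k (by omega) ?_
      have hk' : k = θ x := by omega
      rw [hk']
      exact hT n hn
    | succ s ih =>
      intro k hk
      exact stepA k (by omega) (stepB k (by omega) (ih (k + 1) (by omega)))
  have h0 := main (θ x) 0 (by omega)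
  have h1 : ZB i D 0 (st2 x x' 0 0) n = ZB i D 0 0 n := by
    refine ZB_congr (fun _ _ => rfl) (fun y _ => ?_) n
    unfold st2
    split_ifs <;> rfl
  rwa [h1] at h0

end StepH

/-- the twin lemma, with the sums of two high labels as hypotheses -/
theorem dvd_ZB_bounds_twinsH (i : ℕ) (p : ℤ[X]) (n0 : ℕ) (DD : Set (Finset P)) (θ : P → ℕ)
    (Tw : Finset (P × P))
    (hlow : ∀ D ∈ DD, ∀ x y, x ≤ y → y ∈ D → x ∈ D) (hlev : ∀ D ∈ DD, ∀ x ∈ D, i < lev x)
    (hθ : ∀ x, 1 ≤ θ x → i < lev x)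
    (c0 : ∀ D ∈ DD, (∀ t ∈ Tw, t.1 ∈ D ∨ t.2 ∈ D) → ∀ n < n0, p ∣ ZB i D 0 0 n)
    (c1 : ∀ D ∈ DD, ∀ x, x ∉ D → 1 ≤ θ x → D ∪ dnf x ∈ DD)
    (c2 : ∀ D ∈ DD, ∀ x, x ∉ D → 1 ≤ θ x → ∀ y ≤ x, y ∉ D → ∀ x', y ⋖ x' → ¬ x' ≤ x →
      θ x ≤ θ x' + 1)
    (htw : ∀ t ∈ Tw, TwP θ t.1 t.2)
    (hHT : ∀ t ∈ Tw, ∀ D ∈ DD, t.1 ∉ D → t.2 ∉ D → ∀ n < n0,
      p ∣ ZB i D 0 (st2 t.1 t.2 (θ t.1) (θ t.1 + 1)) n)
    (hmin : ∀ t ∈ Tw, ∀ D ∈ DD, ∀ y < t.2, y ∈ D) :
    ∀ D ∈ DD, ∀ β : P → ℕ, (∀ x, x ∉ D → β x ≤ θ x) → ∀ n < n0, p ∣ ZB i D 0 β n := by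
  classical
  have hBC : ∀ s : ℕ, (∀ D ∈ DD, ubr Tw D ≤ s → ∀ n < n0, p ∣ ZB i D 0 0 n) →
      ∀ D ∈ DD, ubr Tw D ≤ s → ∀ β : P → ℕ, (∀ x, x ∉ D → β x ≤ θ x) → ∀ n < n0,
        p ∣ ZB i D 0 β n := by
    intro s hs D hD hu
    refine dvd_ZB_bounds_lt i p n0 {D | D ∈ DD ∧ ubr Tw D ≤ s} θ (fun D hD => hlow D hD.1)
      (fun D hD => hlev D hD.1) hθ (fun D hD => hs D hD.1 hD.2) ?_
      (fun D hD => c2 D hD.1) D ⟨hD, hu⟩
    intro D hD x hx hθx
    exact ⟨c1 D hD.1 x hx hθx, (ubr_mono Tw subset_union_left).trans hD.2⟩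
  have main : ∀ s : ℕ, ∀ D ∈ DD, ubr Tw D ≤ s → ∀ n < n0, p ∣ ZB i D 0 0 n := by
    intro s
    induction s with
    | zero =>
      intro D hD hu n hn
      refine c0 D hD ?_ n hn
      intro t ht
      by_contra hcon
      push Not at hcon
      have h1 : t ∈ Tw.filter (fun t => t.1 ∉ D ∧ t.2 ∉ D) := mem_filter.mpr ⟨ht, hcon⟩
      have h2 : 0 < ubr Tw D := Finset.card_pos.mpr ⟨t, h1⟩
      omega
    | succ s ih =>
      intro D hD hu n hn
      by_cases hall : ∀ t ∈ Tw, t.1 ∈ D ∨ t.2 ∈ D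
      · exact c0 D hD hall n hn
      · push Not at hall
        obtain ⟨t, ht, hx, hx'⟩ := hall
        have H := htw t ht
        have h1 : 1 ≤ θ t.2 := by rw [H.eq]; exact H.one_le
        have hDx := c1 D hD t.1 hx H.one_le
        have hDx' := c1 D hD t.2 hx' h1
        have hin : ∀ E : Finset P, E = D ∪ dnf t.1 ∨ E = D ∪ dnf t.2 → E ∈ DD ∧ ubr Tw E ≤ s := by
          rintro E (rfl | rfl)
          · refine ⟨hDx, ?_⟩
            have := ubr_lt (E := D ∪ dnf t.1) subset_union_left ht ⟨hx, hx'⟩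
              (Or.inl (mem_union_right _ (mem_dnf.mpr le_rfl)))
            omega
          · refine ⟨hDx', ?_⟩
            have := ubr_lt (E := D ∪ dnf t.2) subset_union_left ht ⟨hx, hx'⟩
              (Or.inr (mem_union_right _ (mem_dnf.mpr le_rfl)))
            omega
        exact dvd_ZB_twin_stepH H (hHT t ht D hD hx hx') (hθ _ H.one_le) hx hx' (hmin t ht D hD)
          (fun E hE => hlow E (hin E hE).1) (fun E hE => hlev E (hin E hE).1)
          (c2 D hD t.1 hx H.one_le) (fun E hE => hBC s ih E (hin E hE).1 (hin E hE).2) n hn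
  intro D hD β hβ n hn
  exact hBC _ (main (ubr Tw D)) D hD le_rfl β hβ n hn

end Pool.Agent.GaussPoset

end

/-! From `Pool.Agent.W_448f4_h70.GB` -/

section

/-!
The twin lemma with exact leading term, with prescribed sums of two high labels
(MP_448cb3_co, S7, windows 2, 3).
-/

namespace Pool.Agent.GaussPoset

set_option linter.unusedSectionVars false

open Polynomial Finset

universe u

variable {P : Type u} [Fintype P] [PartialOrder P] [DecidableEq P]

section SumV

variable (i : ℕ) (θ : P → ℕ) (ld : P × P → Prop) (V : P × P → ℤ[X]) (Tw : Finset (P × P))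

open Classical in
/-- the pairs which contribute -/
noncomputable def twsV (D : Finset P) (β : P → ℕ) : Finset (P × P) :=
  Tw.filter (fun t => (t.1 ∉ D ∧ t.2 ∉ D) ∧ ld t ∧ ∀ y, y ∉ D → β y ≤ tez i θ t y)

/-- the sum of the leading terms of the pairs which contribute -/
noncomputable def tsumV (D : Finset P) (β : P → ℕ) : ℤ[X] := ∑ t ∈ twsV i θ ld Tw D β, V t

variable {i θ ld V Tw}

lemma mem_twsV {D : Finset P} {β : P → ℕ} {t : P × P} : t ∈ twsV i θ ld Tw D β ↔
    t ∈ Tw ∧ (t.1 ∉ D ∧ t.2 ∉ D) ∧ ld t ∧ ∀ y, y ∉ D → β y ≤ tez i θ t y := by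
  classical
  unfold twsV; rw [mem_filter]

lemma twsV_congr {D : Finset P} {β β' : P → ℕ} (h : ∀ y, y ∉ D → β y = β' y) :
    twsV i θ ld Tw D β = twsV i θ ld Tw D β' := by
  ext t
  rw [mem_twsV, mem_twsV]
  refine and_congr_right fun _ => and_congr_right fun _ => and_congr_right fun _ =>
    forall_congr' fun y => ⟨fun h1 hy => ?_, fun h1 hy => ?_⟩
  · rw [← h y hy]; exact h1 hy
  · rw [h y hy]; exact h1 hy

open Classical in
/-- the recursion of the sum of the leading terms -/
lemma tsumV_step (hT : ∀ t ∈ Tw, Twn i θ t) {D : Finset P} {β : P → ℕ} {x0 : P} (hx0 : x0 ∉ D)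
    (hlx : i < lev x0) (hle : θ x0 ≤ lev x0 - i)
    (hb : β x0 + 1 ≤ θ x0) : tsumV i θ ld V Tw D β =
      tsumV i θ ld V Tw D (Function.update β x0 (β x0 + 1)) +
      (if β x0 = 0 ∧ ∀ y ≤ x0, y ∉ D → β y = 0 then tsumV i θ ld V Tw (D ∪ dnf x0) β else 0) := by
  have h1 : (twsV i θ ld Tw D β).filter (fun t => β x0 + 1 ≤ tez i θ t x0) =
      twsV i θ ld Tw D (Function.update β x0 (β x0 + 1)) := by
    ext t
    rw [mem_filter, mem_twsV, mem_twsV]
    constructor
    · rintro ⟨⟨h1, h2, h3, h4⟩, h5⟩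
      refine ⟨h1, h2, h3, fun y hy => ?_⟩
      by_cases hyx : y = x0
      · subst hyx; rw [Function.update_self]; exact h5
      · rw [Function.update_of_ne hyx]; exact h4 y hy
    · rintro ⟨h1, h2, h3, h4⟩
      have h5 := h4 x0 hx0
      rw [Function.update_self] at h5
      refine ⟨⟨h1, h2, h3, fun y hy => ?_⟩, h5⟩
      by_cases hyx : y = x0
      · subst hyx; omega
      · have := h4 y hy
        rwa [Function.update_of_ne hyx] at this
  have h2 : ∑ t ∈ (twsV i θ ld Tw D β).filter (fun t => ¬ β x0 + 1 ≤ tez i θ t x0), V t =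
      (if β x0 = 0 ∧ ∀ y ≤ x0, y ∉ D → β y = 0 then tsumV i θ ld V Tw (D ∪ dnf x0) β else 0) := by
    have hz : ∀ t ∈ (twsV i θ ld Tw D β).filter (fun t => ¬ β x0 + 1 ≤ tez i θ t x0),
        t ∈ Tw ∧ (t.1 ∉ D ∧ t.2 ∉ D) ∧ ld t ∧ (∀ y, y ∉ D → β y ≤ tez i θ t y) ∧
        tez i θ t x0 = 0 := by
      intro t ht
      rw [mem_filter, mem_twsV] at ht
      obtain ⟨⟨h1, h2, h3, h4⟩, h5⟩ := ht
      refine ⟨h1, h2, h3, h4, ?_⟩
      by_contra hne
      have := tez_ge (hT t h1) hle hne
      omega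
    have hdn : ∀ t ∈ Tw, tez i θ t x0 = 0 → ∀ y ≤ x0, tez i θ t y = 0 := by
      intro t ht h y hy
      obtain ⟨h3, h4⟩ := tez_eq_zero (hT t ht) hlx h
      exact tez_zero_of (fun h5 => h3 (h5.trans hy)) (fun h5 => h4 (h5.trans hy))
    split_ifs with hc
    · unfold tsumV
      refine Finset.sum_congr ?_ (fun _ _ => rfl)
      ext t
      constructor
      · intro ht
        obtain ⟨h1, h2, h3, h4, h5⟩ := hz t ht
        obtain ⟨h6, h7⟩ := tez_eq_zero (hT t h1) hlx h5
        rw [mem_twsV]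
        refine ⟨h1, ⟨?_, ?_⟩, h3, fun y hy => ?_⟩
        · rw [mem_union, mem_dnf, not_or]; exact ⟨h2.1, h6⟩
        · rw [mem_union, mem_dnf, not_or]; exact ⟨h2.2, h7⟩
        · exact h4 y (fun h => hy (mem_union_left _ h))
      · intro ht
        rw [mem_twsV] at ht
        obtain ⟨h1, ⟨h2, h2'⟩, h3, h4⟩ := ht
        rw [mem_union, mem_dnf, not_or] at h2 h2'
        have h5 : tez i θ t x0 = 0 := tez_zero_of h2.2 h2'.2
        rw [mem_filter, mem_twsV]
        refine ⟨⟨h1, ⟨h2.1, h2'.1⟩, h3, fun y hy => ?_⟩, by omega⟩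
        by_cases hyx : y ≤ x0
        · rw [hc.2 y hyx hy]; exact Nat.zero_le _
        · refine h4 y ?_
          rw [mem_union, mem_dnf, not_or]
          exact ⟨hy, hyx⟩
    · rw [Finset.sum_eq_zero]
      intro t ht
      exfalso
      obtain ⟨h1, h2, h3, h4, h5⟩ := hz t ht
      refine hc ⟨?_, fun y hy hyD => ?_⟩
      · have := h4 x0 hx0
        omega
      · have := h4 y hyD
        rw [hdn t h1 h5 y hy] at this
        omega
  rw [← h2]
  unfold tsumV
  rw [← h1]
  exact (Finset.sum_filter_add_sum_filter_not _ _ _).symm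

end SumV

section StepV

variable {i : ℕ} {p : ℤ[X]} {n0 : ℕ} {θ : P → ℕ} {x x' : P} {D : Finset P}

open Classical in
/-- the twin step, exact -/
theorem twin_step_exactH {T0 : ℤ[X]} (H : Twn i θ (x, x')) (hlx : i < lev x) (hDl : ∀ d ∈ D, i < lev d)
    (hDlow : ∀ a c, a ≤ c → c ∈ D → a ∈ D) (hx : x ∉ D) (hx' : x' ∉ D)
    (hmin : ∀ y < x', y ∈ D)
    (hlow : ∀ E : Finset P, E = D ∪ dnf x ∨ E = D ∪ dnf x' → ∀ a c, a ≤ c → c ∈ E → a ∈ E)
    (hlev : ∀ E : Finset P, E = D ∪ dnf x ∨ E = D ∪ dnf x' → ∀ a ∈ E, i < lev a)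
    (hc2 : ∀ y ≤ x, y ∉ D → ∀ w, y ⋖ w → ¬ w ≤ x → θ x ≤ θ w + 1)
    (hBC : ∀ E : Finset P, E = D ∪ dnf x ∨ E = D ∪ dnf x' →
      ∀ β : P → ℕ, (∀ y, y ∉ E → β y ≤ θ y) → ∀ n < n0, p ∣ ZB i E 0 β n)
    (hV : p ∣ ZB i D 0 (st2 x x' (θ x) (θ x + 1)) n0 - T0) :
    p ∣ ZB i D 0 0 n0 - (T0 +
      ZB i (D ∪ dnf x) 0 (st2 x x' 0 1) n0 + ZB i (D ∪ dnf x') 0 0 n0) := by
  have hll : lev x = lev x' := lev_eq_of_up H.up
  have hlx' : i < lev x' := by omega
  have hne := H.ne
  have hθ := H.one_le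
  have heq := H.eq
  simp only at hne hθ heq
  have hs1 : ∀ a b, st2 x x' a b x = a := fun a b => by unfold st2; rw [if_pos rfl]
  have hs2 : ∀ a b, st2 x x' a b x' = b := fun a b => by
    unfold st2; rw [if_neg hne.symm, if_pos rfl]
  have hs3 : ∀ a b y, y ≠ x → y ≠ x' → st2 x x' a b y = 0 := fun a b y h1 h2 => by
    unfold st2; rw [if_neg h1, if_neg h2]
  have hxx' : ¬ x ≤ x' := fun h => hx (hmin x (lt_of_le_of_ne h hne))
  have hx'x : ¬ x' ≤ x := fun h => by
    have h1 : x' < x := lt_of_le_of_ne h hne.symm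
    exact lt_irrefl x ((H.up x).mpr h1)
  have stepA : ∀ k ≤ θ x, p ∣ ZB i D 0 (st2 x x' k k) n0 - ZB i D 0 (st2 x x' k (k + 1)) n0 -
      (if k = 0 then ZB i (D ∪ dnf x') 0 0 n0 else 0) := by
    intro k hk
    have h1 := step_mod (i := i) (p := p) (n0 := n0) (β := st2 x x' k k) hx' hlx' (by
      intro g' hG hg0
      obtain ⟨g1, g2, g3, g4, g5⟩ := hG
      rw [hs2] at g2 g3
      have hE : D ∪ dnf x' = D ∪ dnf x ∨ D ∪ dnf x' = D ∪ dnf x' := Or.inr rfl
      refine dvd_ZB_shift_pos _ (hlow _ hE) (hlev _ hE) g5 p n0 (fun n hn => ?_) hg0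
      rw [ZB_redundant (β := st2 x x' k 0)]
      · refine hBC _ hE _ ?_ n hn
        intro y hy
        rw [mem_union, mem_dnf, not_or] at hy
        by_cases hyx : y = x
        · subst hyx; rw [hs1]; exact hk
        · rw [hs3 k 0 y hyx (fun h => hy.2 h.le)]
          exact Nat.zero_le _
      · intro y hy
        rw [mem_union, mem_dnf, not_or] at hy
        refine le_trans ?_ (le_bg _ _ _ y)
        by_cases hyx : y = x
        · subst hyx; rw [hs1, hs1]
        · rw [hs3 k 0 y hyx (fun h => hy.2 h.le)]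
          exact Nat.zero_le _
      · intro y hy
        rw [mem_union, mem_dnf, not_or] at hy
        have hdall : ∀ d ∈ D ∪ dnf x', d ∈ D ∨ d = x' := by
          intro d hd
          rw [mem_union, mem_dnf] at hd
          rcases hd with hd | hd
          · exact Or.inl hd
          · rcases eq_or_lt_of_le hd with h1 | h1
            · exact Or.inr h1
            · exact Or.inl (hmin d h1)
        by_cases hxy : x < y
        · right
          refine ⟨x, hxy.le, ?_, ?_⟩
          · rw [mem_union, mem_dnf]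
            rintro (h1 | h1)
            · exact hx h1
            · exact hxx' h1
          · rw [hs1]
            refine bg_le ?_ ?_
            · rw [hs3 k k y hxy.ne' (fun h => hy.2 h.le)]
              exact Nat.zero_le _
            · intro d hd _
              rcases hdall d hd with h1 | h1
              · rw [g1 d h1]; exact Nat.zero_le _
              · rw [h1, g2]
        · left
          refine bg_le ?_ ?_
          · by_cases hyx : y = x
            · subst hyx; rw [hs1, hs1]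
            · rw [hs3 k k y hyx (fun h => hy.2 h.le)]
              exact Nat.zero_le _
          · intro d hd hdy
            rcases hdall d hd with h1 | h1
            · rw [g1 d h1]; exact Nat.zero_le _
            · exfalso
              rw [h1] at hdy
              exact hxy ((H.up y).mpr hdy.1))
    rw [hs2, st2_update_right hne] at h1
    by_cases hk0 : k = 0
    · subst hk0
      rw [if_pos rfl]
      have hcond : (0 : ℕ) = 0 ∧ ∀ y ≤ x', y ∉ D → st2 x x' 0 0 y = 0 :=
        ⟨rfl, fun y _ _ => by unfold st2; split_ifs <;> rfl⟩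
      rw [if_pos hcond] at h1
      have h2 : ZB i (D ∪ dnf x') 0 (st2 x x' 0 0) n0 = ZB i (D ∪ dnf x') 0 0 n0 := by
        refine ZB_congr (fun _ _ => rfl) (fun y _ => ?_) n0
        unfold st2
        split_ifs <;> rfl
      rw [h2] at h1
      exact h1
    · rw [if_neg hk0]
      rw [if_neg (fun h => hk0 h.1)] at h1
      exact h1
  have stepB : ∀ k, k + 1 ≤ θ x → p ∣ ZB i D 0 (st2 x x' k (k + 1)) n0 -
      ZB i D 0 (st2 x x' (k + 1) (k + 1)) n0 -
      (if k = 0 then ZB i (D ∪ dnf x) 0 (st2 x x' 0 1) n0 else 0) := by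
    intro k hk
    have h1 := step_mod (i := i) (p := p) (n0 := n0) (β := st2 x x' k (k + 1)) hx hlx (by
      intro g' hG hg0
      obtain ⟨g1, g2, g3, g4, g5⟩ := hG
      rw [hs1] at g2 g3
      have hE : D ∪ dnf x = D ∪ dnf x ∨ D ∪ dnf x = D ∪ dnf x' := Or.inl rfl
      refine dvd_ZB_shift_pos _ (hlow _ hE) (hlev _ hE) g5 p n0 (fun n hn => ?_) hg0
      refine hBC _ hE _ ?_ n hn
      intro y hy
      rw [mem_union, mem_dnf, not_or] at hy
      have hyx : y ≠ x := fun h => hy.2 h.le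
      by_cases hyx' : y = x'
      · subst hyx'
        refine bg_le ?_ ?_
        · rw [hs2, heq]; exact hk
        · intro d hd hdy
          have hdD := hmin d hdy.1
          rw [g1 d hdD]; exact Nat.zero_le _
      · refine bg_le ?_ ?_
        · rw [hs3 _ _ y hyx hyx']; exact Nat.zero_le _
        · intro d hd hdy
          by_cases hdD : d ∈ D
          · rw [g1 d hdD]; exact Nat.zero_le _
          · have hdx : d ≤ x := by
              rcases mem_union.mp hd with h1 | h1
              · exact absurd h1 hdD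
              · exact mem_dnf.mp h1
            have h1 := g3 d hdx
            have h2 := hc2 d hdx hdD y hdy hy.2
            omega)
    rw [hs1, st2_update_left] at h1
    by_cases hk0 : k = 0
    · subst hk0
      rw [if_pos rfl]
      have hcond : (0 : ℕ) = 0 ∧ ∀ y ≤ x, y ∉ D → st2 x x' 0 (0 + 1) y = 0 := by
        refine ⟨rfl, fun y hy _ => ?_⟩
        by_cases hyx : y = x
        · rw [hyx, hs1]
        · exact hs3 _ _ y hyx (fun h => hx'x (h ▸ hy))
      rw [if_pos hcond] at h1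
      exact h1
    · rw [if_neg hk0]
      rw [if_neg (fun h => hk0 h.1)] at h1
      exact h1
  have hup : ∀ y, x < y → y ∉ D := fun y hy hyD => hx (hDlow x y hy.le hyD)
  have main : ∀ s k, 1 ≤ k → k + s = θ x → p ∣ ZB i D 0 (st2 x x' k k) n0 -
      T0 := by
    intro s
    induction s with
    | zero =>
      intro k hk hks
      have h1 := stepA k (by omega)
      have hk' : k = θ x := by omega
      rw [if_neg (by omega), sub_zero, hk'] at h1
      rw [hk']
      have h2 := dvd_add h1 hV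
      refine h2.trans (dvd_of_eq ?_)
      ring
    | succ s ih =>
      intro k hk hks
      have h1 := stepA k (by omega)
      have h2 := stepB k (by omega)
      rw [if_neg (by omega), sub_zero] at h1 h2
      have h3 := ih (k + 1) (by omega) (by omega)
      have h4 := dvd_add (dvd_add h1 h2) h3
      refine h4.trans (dvd_of_eq ?_)
      ring
  have h1 := stepA 0 (Nat.zero_le _)
  have h2 := stepB 0 (by omega)
  have h3 := main (θ x - 1) 1 le_rfl (by omega)
  rw [if_pos rfl] at h1 h2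
  have h0 : ZB i D 0 (st2 x x' 0 0) n0 = ZB i D 0 0 n0 := by
    refine ZB_congr (fun _ _ => rfl) (fun y _ => ?_) n0
    unfold st2
    split_ifs <;> rfl
  rw [h0, zero_add] at h1
  rw [zero_add] at h2
  have h4 := dvd_add (dvd_add h1 h2) h3
  refine h4.trans (dvd_of_eq ?_)
  ring

end StepV

open Classical in
/-- the sum over the pairs, at an unbroken pair -/
lemma tsumV_twin {i : ℕ} {θ : P → ℕ} {ld : P × P → Prop} {V : P × P → ℤ[X]} {Tw : Finset (P × P)} {D : Finset P} {x x' : P}
    (hT : ∀ t ∈ Tw, Twn i θ t) (ht : (x, x') ∈ Tw) (hanti : (x', x) ∉ Tw)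
    (hx : x ∉ D) (hx' : x' ∉ D) (hmin : ∀ y < x', y ∈ D) :
    tsumV i θ ld V Tw D 0 = (if ld (x, x') then V (x, x') else 0) +
      tsumV i θ ld V Tw (D ∪ dnf x) (st2 x x' 0 1) + tsumV i θ ld V Tw (D ∪ dnf x') 0 := by
  have H := hT _ ht
  have hne := H.ne
  simp only at hne
  have hll : lev x = lev x' := lev_eq_of_up H.up
  have hxx' : ¬ x ≤ x' := fun h => hx (hmin x (lt_of_le_of_ne h hne))
  have hx'x : ¬ x' ≤ x := fun h => by
    have h1 : x' < x := lt_of_le_of_ne h hne.symm
    exact lt_irrefl x ((H.up x).mpr h1)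
  have hsame : ∀ y, lev y = lev x → y ≤ x → y = x := by
    intro y hy hyx
    by_contra h
    have := lev_strictAnti (lt_of_le_of_ne hyx h)
    omega
  have h1 : (twsV i θ ld Tw D 0).filter (fun t => ¬ (t.1 = x' ∨ t.2 = x')) =
      twsV i θ ld Tw (D ∪ dnf x') 0 := by
    ext t
    rw [mem_filter, mem_twsV, mem_twsV]
    constructor
    · rintro ⟨⟨h1, h2, h3, -⟩, h5⟩
      push Not at h5
      refine ⟨h1, ⟨?_, ?_⟩, h3, fun _ _ => Nat.zero_le _⟩
      · rw [mem_union, mem_dnf, not_or]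
        exact ⟨h2.1, fun h => h2.1 (hmin _ (lt_of_le_of_ne h h5.1))⟩
      · rw [mem_union, mem_dnf, not_or]
        exact ⟨h2.2, fun h => h2.2 (hmin _ (lt_of_le_of_ne h h5.2))⟩
    · rintro ⟨h1, ⟨h2, h2'⟩, h3, -⟩
      rw [mem_union, mem_dnf, not_or] at h2 h2'
      refine ⟨⟨h1, ⟨h2.1, h2'.1⟩, h3, fun _ _ => Nat.zero_le _⟩, ?_⟩
      rintro (h | h)
      · exact h2.2 h.le
      · exact h2'.2 h.le
  have hnot : (x, x') ∉ twsV i θ ld Tw (D ∪ dnf x) (st2 x x' 0 1) := by
    rw [mem_twsV]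
    rintro ⟨-, ⟨h, -⟩, -⟩
    exact h (mem_union_right _ (mem_dnf.mpr le_rfl))
  have h2 : (twsV i θ ld Tw D 0).filter (fun t => t.1 = x' ∨ t.2 = x') =
      (if ld (x, x') then {(x, x')} else ∅) ∪
        twsV i θ ld Tw (D ∪ dnf x) (st2 x x' 0 1) := by
    ext t
    rw [mem_filter, mem_twsV, mem_union, mem_twsV]
    constructor
    · rintro ⟨⟨h1, h2, h3, -⟩, h5⟩
      by_cases h6 : t = (x, x')
      · left
        rw [if_pos (by rw [← h6]; exact h3), mem_singleton]
        exact h6
      · right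
        have Ht := hT t h1
        have hl : lev t.1 = lev t.2 := lev_eq_of_up Ht.up
        have hn1 : ¬ t.1 ≤ x := by
          intro h
          rcases h5 with h5 | h5
          · rw [h5] at h; exact hx'x h
          · have := hsame t.1 (by rw [hl, h5]; exact hll.symm) h
            exact h6 (Prod.ext this h5)
        have hn2 : ¬ t.2 ≤ x := by
          intro h
          rcases h5 with h5 | h5
          · have h7 := hsame t.2 (by rw [← hl, h5]; exact hll.symm) h
            apply hanti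
            have : t = (x', x) := Prod.ext h5 h7
            rw [← this]; exact h1
          · rw [h5] at h; exact hx'x h
        refine ⟨h1, ⟨?_, ?_⟩, h3, fun y _ => ?_⟩
        · rw [mem_union, mem_dnf, not_or]; exact ⟨h2.1, hn1⟩
        · rw [mem_union, mem_dnf, not_or]; exact ⟨h2.2, hn2⟩
        · unfold st2
          split_ifs with h8 h9
          · exact Nat.zero_le _
          · have h10 := Ht.one_le
            rcases h5 with h5 | h5
            · rw [h9, ← h5, tez_fst]; exact h10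
            · rw [h9, ← h5, tez_snd Ht.ne]; omega
          · exact Nat.zero_le _
    · intro h
      rcases h with h | ⟨h1, ⟨h2, h2'⟩, h3, h4⟩
      · split_ifs at h with hc
        · rw [mem_singleton] at h
          rw [h]
          exact ⟨⟨ht, ⟨hx, hx'⟩, hc, fun _ _ => Nat.zero_le _⟩, Or.inr rfl⟩
        · exact absurd h (Finset.notMem_empty _)
      · rw [mem_union, mem_dnf, not_or] at h2 h2'
        refine ⟨⟨h1, ⟨h2.1, h2'.1⟩, h3, fun _ _ => Nat.zero_le _⟩, ?_⟩
        by_contra hcon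
        push Not at hcon
        have h5 := h4 x' (by
          rw [mem_union, mem_dnf, not_or]
          exact ⟨hx', hx'x⟩)
        unfold st2 at h5
        rw [if_neg hne.symm, if_pos rfl] at h5
        rw [tez_off hcon.1.symm hcon.2.symm (fun h => h2.1 (hmin _ h))] at h5
        omega
  have h3 : ∑ t ∈ (twsV i θ ld Tw D 0).filter (fun t => t.1 = x' ∨ t.2 = x'), V t =
      (if ld (x, x') then V (x, x') else 0) +
      ∑ t ∈ twsV i θ ld Tw (D ∪ dnf x) (st2 x x' 0 1), V t := by
    rw [h2, Finset.sum_union]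
    · congr 1
      split_ifs with hc
      · rw [Finset.sum_singleton]
      · rw [Finset.sum_empty]
    · split_ifs with hc
      · rw [Finset.disjoint_singleton_left]; exact hnot
      · exact Finset.disjoint_empty_left _
  unfold tsumV
  rw [← h3, ← h1]
  exact (Finset.sum_filter_add_sum_filter_not _ _ _).symm

open Classical in
/-- the twin lemma, exact form, with prescribed sums -/
theorem dvd_ZB_exactH (i : ℕ) (p : ℤ[X]) (n0 : ℕ) (ld : P × P → Prop) (V : P × P → ℤ[X]) (DD : Set (Finset P)) (θ : P → ℕ)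
    (Tw : Finset (P × P))
    (hlow : ∀ D ∈ DD, ∀ x y, x ≤ y → y ∈ D → x ∈ D) (hlev : ∀ D ∈ DD, ∀ x ∈ D, i < lev x)
    (hθ : ∀ x, 1 ≤ θ x → i < lev x) (hle : ∀ x, θ x ≤ lev x - i)
    (c0 : ∀ D ∈ DD, (∀ t ∈ Tw, t.1 ∈ D ∨ t.2 ∈ D) → ∀ n, p ∣ ZB i D 0 0 n)
    (c1 : ∀ D ∈ DD, ∀ x, x ∉ D → 1 ≤ θ x → D ∪ dnf x ∈ DD)
    (c2 : ∀ D ∈ DD, ∀ x, x ∉ D → 1 ≤ θ x → ∀ y ≤ x, y ∉ D → ∀ x', y ⋖ x' → ¬ x' ≤ x →
      θ x ≤ θ x' + 1)
    (hT : ∀ t ∈ Tw, Twn i θ t) (hanti : ∀ x x', (x, x') ∈ Tw → (x', x) ∉ Tw)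
    (hHT : ∀ t ∈ Tw, ∀ D ∈ DD, t.1 ∉ D → t.2 ∉ D → ∀ n < n0,
      p ∣ ZB i D 0 (st2 t.1 t.2 (θ t.1) (θ t.1 + 1)) n)
    (hV : ∀ t ∈ Tw, ∀ D ∈ DD, t.1 ∉ D → t.2 ∉ D →
      p ∣ ZB i D 0 (st2 t.1 t.2 (θ t.1) (θ t.1 + 1)) n0 - (if ld t then V t else 0))
    (hmin : ∀ t ∈ Tw, ∀ D ∈ DD, ∀ y < t.2, y ∈ D) :
    ∀ D ∈ DD, ∀ β : P → ℕ, (∀ x, x ∉ D → β x ≤ θ x) →
      p ∣ ZB i D 0 β n0 - tsumV i θ ld V Tw D β := by
  classical
  have hlt := dvd_ZB_bounds_twinsH i p n0 DD θ Tw hlow hlev hθ (fun D hD hb n _ => c0 D hD hb n)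
    c1 c2 (fun t ht => (hT t ht).toP) hHT hmin
  have outer : ∀ N : ℕ, ∀ D ∈ DD, (Dᶜ).card = N → ∀ β : P → ℕ, (∀ x, x ∉ D → β x ≤ θ x) →
      p ∣ ZB i D 0 β n0 - tsumV i θ ld V Tw D β := by
    intro N
    induction N using Nat.strong_induction_on with
    | _ N ihN =>
    intro D hDD hN
    have hsmall : ∀ x, x ∉ D → 1 ≤ θ x → ∀ β : P → ℕ, (∀ y, y ∉ D ∪ dnf x → β y ≤ θ y) →
        p ∣ ZB i (D ∪ dnf x) 0 β n0 - tsumV i θ ld V Tw (D ∪ dnf x) β := by
      intro x hx hθx β hβ
      refine ihN _ ?_ _ (c1 D hDD x hx hθx) rfl β hβ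
      rw [← hN]
      apply Finset.card_lt_card
      rw [Finset.compl_ssubset_compl]
      rw [Finset.ssubset_iff_of_subset subset_union_left]
      exact ⟨x, mem_union_right _ (mem_dnf.mpr le_rfl), hx⟩
    have base : p ∣ ZB i D 0 0 n0 - tsumV i θ ld V Tw D 0 := by
      by_cases hall : ∀ t ∈ Tw, t.1 ∈ D ∨ t.2 ∈ D
      · have h1 : tsumV i θ ld V Tw D 0 = 0 := by
          unfold tsumV
          rw [Finset.sum_eq_zero]
          intro t ht
          exfalso
          rw [mem_twsV] at ht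
          rcases hall t ht.1 with h | h
          · exact ht.2.1.1 h
          · exact ht.2.1.2 h
        rw [h1, sub_zero]
        exact c0 D hDD hall n0
      · push Not at hall
        obtain ⟨⟨x, x'⟩, ht, hx, hx'⟩ := hall
        have H := hT _ ht
        have hθx := H.one_le
        have heq := H.eq
        simp only at hθx heq hx hx'
        have hθx' : 1 ≤ θ x' := by omega
        have hDx := c1 D hDD x hx hθx
        have hDx' := c1 D hDD x' hx' hθx'
        have hin : ∀ E : Finset P, E = D ∪ dnf x ∨ E = D ∪ dnf x' → E ∈ DD := by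
          rintro E (rfl | rfl)
          · exact hDx
          · exact hDx'
        have hm : ∀ y < x', y ∈ D := hmin _ ht D hDD
        have h1 := twin_step_exactH (p := p) (n0 := n0) H (hθ x hθx) (hlev D hDD) (hlow D hDD) hx hx'
          hm (fun E hE => hlow E (hin E hE)) (fun E hE => hlev E (hin E hE))
          (c2 D hDD x hx hθx) (fun E hE => hlt E (hin E hE))
          (hV _ ht D hDD hx hx')
        have hx'x : ¬ x' ≤ x := fun h => by
          have h1 : x' < x := lt_of_le_of_ne h (fun h => H.ne h.symm)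
          exact lt_irrefl x ((H.up x).mpr h1)
        have h2 := hsmall x hx hθx (st2 x x' 0 1) (by
          intro y hy
          unfold st2
          split_ifs with h8 h9
          · exact Nat.zero_le _
          · rw [h9]; exact hθx'
          · exact Nat.zero_le _)
        have h3 := hsmall x' hx' hθx' 0 (fun _ _ => Nat.zero_le _)
        rw [tsumV_twin hT ht (hanti _ _ ht) hx hx' hm]
        have h4 := dvd_add (dvd_add h1 h2) h3
        refine h4.trans (dvd_of_eq ?_)
        ring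
    have inner : ∀ s : ℕ, ∀ β : P → ℕ, (∑ x ∈ Dᶜ, β x = s) → (∀ x, x ∉ D → β x ≤ θ x) →
        p ∣ ZB i D 0 β n0 - tsumV i θ ld V Tw D β := by
      intro s
      induction s with
      | zero =>
        intro β hβ _
        have h0 : ∀ x, x ∉ D → β x = 0 := by
          intro x hx
          rw [Finset.sum_eq_zero_iff] at hβ
          exact hβ x (by simpa using hx)
        rw [ZB_congr (g' := 0) (β' := 0) (fun _ _ => rfl) (fun x hx => by simpa using h0 x hx)]
        have h1 : tsumV i θ ld V Tw D β = tsumV i θ ld V Tw D 0 := by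
          unfold tsumV
          rw [twsV_congr (β' := 0) (fun x hx => by simpa using h0 x hx)]
        rw [h1]
        exact base
      | succ s ihs =>
        intro β hβ hbd
        obtain ⟨x0, hx0, hx0b⟩ : ∃ x0, x0 ∉ D ∧ 1 ≤ β x0 := by
          by_contra hcon
          push Not at hcon
          have : ∑ x ∈ Dᶜ, β x = 0 := Finset.sum_eq_zero fun x hx => by
            have := hcon x (by simpa using hx)
            omega
          omega
        let β' : P → ℕ := Function.update β x0 (β x0 - 1)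
        have hβ'x : β' x0 = β x0 - 1 := Function.update_self _ _ _
        have hβ'n : ∀ x, x ≠ x0 → β' x = β x := fun x hx => Function.update_of_ne hx _ _
        have hββ : β = Function.update β' x0 (β' x0 + 1) := by
          funext x
          by_cases hx : x = x0
          · subst hx
            rw [Function.update_self, hβ'x]; omega
          · rw [Function.update_of_ne hx, hβ'n x hx]
        have hle' : ∀ x, β' x ≤ β x := by
          intro x
          by_cases hx : x = x0
          · subst hx; rw [hβ'x]; omega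
          · rw [hβ'n x hx]
        have hθx0 : 1 ≤ θ x0 := hx0b.trans (hbd x0 hx0)
        have hsum : ∑ x ∈ Dᶜ, β' x = s := by
          have h1 : ∑ x ∈ Dᶜ, β x = ∑ x ∈ Dᶜ, β' x + 1 := by
            rw [← Finset.add_sum_erase Dᶜ β (by simpa using hx0 : x0 ∈ Dᶜ),
              ← Finset.add_sum_erase Dᶜ β' (by simpa using hx0 : x0 ∈ Dᶜ), hβ'x]
            have h2 : ∑ x ∈ Dᶜ.erase x0, β x = ∑ x ∈ Dᶜ.erase x0, β' x :=
              Finset.sum_congr rfl fun x hx => (hβ'n x (ne_of_mem_erase hx)).symm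
            omega
          omega
        have hD' := c1 D hDD x0 hx0 hθx0
        have hbx := hbd x0 hx0
        have h1 := step_mod (p := p) (n0 := n0) (β := β') hx0 (hθ x0 hθx0) (by
          intro g' hG hg0
          obtain ⟨g1, g2, g3, g4, g5⟩ := hG
          refine dvd_ZB_shift_pos β' (hlow _ hD') (hlev _ hD') g5 p n0 (fun n hn => ?_) hg0
          refine hlt _ hD' _ ?_ n hn
          intro x hx
          rw [mem_union, mem_dnf, not_or] at hx
          refine bg_le ((hle' x).trans (hbd x hx.1)) ?_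
          intro y hy hyx
          by_cases hyD : y ∈ D
          · rw [g1 y hyD]; exact Nat.zero_le _
          · have hyx0 : y ≤ x0 := by
              rcases mem_union.mp hy with h | h
              · exact absurd h hyD
              · exact mem_dnf.mp h
            have h1 := g3 y hyx0
            rw [hβ'x] at h1
            have h2 := c2 D hDD x0 hx0 hθx0 y hyx0 hyD x hyx hx.2
            omega)
        have h2 := tsumV_step (ld := ld) (V := V) hT (D := D) (β := β') hx0 (hθ x0 hθx0) (hle x0)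
          (by omega)
        have h3 := ihs β' hsum (fun x hx => (hle' x).trans (hbd x hx))
        rw [← hββ] at h1 h2
        rw [h2] at h3
        by_cases hc : β' x0 = 0 ∧ ∀ y ≤ x0, y ∉ D → β' y = 0
        · rw [if_pos hc] at h1 h3
          have h4 := hsmall x0 hx0 hθx0 β' (fun y hy => by
            rw [mem_union, not_or] at hy
            exact (hle' y).trans (hbd y hy.1))
          have h5 := dvd_sub (dvd_sub h3 h1) h4
          refine h5.trans (dvd_of_eq ?_)
          ring
        · rw [if_neg hc, sub_zero] at h1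
          rw [if_neg hc, add_zero] at h3
          have h5 := dvd_sub h3 h1
          refine h5.trans (dvd_of_eq ?_)
          ring
    intro β hbd
    exact inner _ β rfl hbd
  intro D hDD β hbd
  exact outer _ D hDD rfl β hbd

end Pool.Agent.GaussPoset

end

/-! From `Pool.Agent.W_448pg_h74.WrA` -/

section

/-!
The leading term of a twin pair with any threshold (MP_448cb3_co, S7, window `3`).
-/

namespace Pool.Agent.GaussPoset

set_option linter.unusedSectionVars false

open Polynomial Finset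

universe u

variable {P : Type u} [Fintype P] [PartialOrder P] [DecidableEq P]

section Term

variable {i : ℕ} {θ : P → ℕ} {t : P × P}

/-- the excess functions of a twin pair and of its second element differ only at the first
element -/
lemma tez_eq_ez (H : Twn i θ t) {y : P} (hy : y ≠ t.1) :
    tez i θ t y = ez i (fun _ => θ t.1 + 1) t.2 y := by
  have hl : lev t.1 = lev t.2 := lev_eq_of_up H.up
  have hlt := H.lt
  unfold ez
  by_cases h2 : y = t.2
  · rw [h2, tez_snd H.ne, if_pos le_rfl]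
    simp only
    omega
  · by_cases h3 : t.1 < y
    · rw [tez_up H h3, if_pos ((H.up y).mp h3).le]
    · rw [tez_off hy h2 h3, if_neg]
      intro h4
      exact h3 ((H.up y).mpr (lt_of_le_of_ne h4 (Ne.symm h2)))

/-- a twin pair contributes as its second element with the label `θ + 1` -/
theorem Tm_gen (hgr : GradedBelow P) (H : Twn i θ t) :
    Tm i θ t = Lt i (fun _ => θ t.1 + 1) t.2 := by
  classical
  have hl : lev t.1 = lev t.2 := lev_eq_of_up H.up
  have hθ := H.one_le
  have hlt := H.lt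
  have hnl : ¬ t.1 < t.2 := fun h => by have := lev_strictAnti h; omega
  have hnl' : ¬ t.2 < t.1 := fun h => by have := lev_strictAnti h; omega
  set e1 := tez i θ t with he1
  set e2 := ez i (fun _ => θ t.1 + 1) t.2 with he2
  have hr : ∀ y, y ≠ t.1 → rho i e1 y = rho i e2 y := fun y hy => by
    unfold rho
    rw [he1, he2, tez_eq_ez H hy]
  have hr1 : rho i e1 t.1 = (θ t.1 : ℤ) := by
    unfold rho
    rw [he1, tez_fst]
    omega
  have h2t : ¬ t.2 ≤ t.1 := fun h => hnl' (lt_of_le_of_ne h H.ne.symm)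
  have hr2 : rho i e2 t.1 = 0 := by
    unfold rho
    rw [he2]
    unfold ez
    rw [if_neg h2t]
    omega
  have hr3 : rho i e2 t.2 = (θ t.1 : ℤ) + 1 := by
    unfold rho
    rw [he2]
    unfold ez
    rw [if_pos le_rfl]
    simp only
    omega
  have hoff : ∀ y, y < t.1 → rho i e2 y = 0 := fun y hy => by
    have h1 := lev_strictAnti hy
    unfold rho
    rw [he2]
    unfold ez
    rw [if_neg (fun h => h2t (h.trans hy.le))]
    omega
  -- a cover of the first element
  obtain ⟨u, hu1, hu2⟩ : ∃ u, t.1 < u ∧ (θ t.1 : ℤ) ≤ rho i e2 u := by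
    obtain ⟨u, hu, hlu⟩ := exists_above' (x := t.1) (j := lev t.1 - 1) (by omega)
    have hne : t.1 ≠ u := by rintro h; rw [← h] at hlu; omega
    have hlt1 := lt_of_le_of_ne hu hne
    refine ⟨u, hlt1, ?_⟩
    unfold rho
    rw [he2]
    unfold ez
    rw [if_pos ((H.up u).mp hlt1).le]
    simp only
    omega
  have hFI : ∀ y, FI i e1 y ↔ FI i e2 y := by
    intro y
    by_cases hy : y = t.1
    · subst hy
      constructor
      · rintro (h | ⟨z, hz, h⟩)
        · rw [hr1] at h; omega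
        · rw [hr1, hr z hz.ne, hoff z hz] at h; omega
      · rintro (h | ⟨z, hz, h⟩)
        · rw [hr2] at h; omega
        · rw [hr2, hoff z hz] at h; omega
    · unfold FI
      rw [hr y hy]
      constructor
      · rintro (h | ⟨z, hz, h⟩)
        · exact Or.inl h
        · right
          by_cases hzt : z = t.1
          · subst hzt
            rw [hr1] at h
            exact ⟨t.2, (H.up y).mp hz, by rw [hr3]; omega⟩
          · exact ⟨z, hz, by rw [← hr z hzt]; exact h⟩
      · rintro (h | ⟨z, hz, h⟩)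
        · exact Or.inl h
        · by_cases hzt : z = t.1
          · subst hzt
            rw [hr2] at h
            exact Or.inl h
          · exact Or.inr ⟨z, hz, by rw [hr z hzt]; exact h⟩
  have hFA : ∀ y, FA i e1 y ↔ FA i e2 y := by
    intro y
    by_cases hy : y = t.1
    · subst hy
      constructor
      · intro _
        exact ⟨u, hu1, by rw [hr2]; omega⟩
      · intro _
        exact ⟨u, hu1, by rw [hr1, hr u hu1.ne']; exact hu2⟩
    · unfold FA
      rw [hr y hy]
      constructor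
      · rintro ⟨w, hw, h⟩
        by_cases hwt : w = t.1
        · subst hwt
          exact ⟨t.1, hw, by rw [hoff y hw, hr2]⟩
        · exact ⟨w, hw, by rw [← hr w hwt]; exact h⟩
      · rintro ⟨w, hw, h⟩
        by_cases hwt : w = t.1
        · subst hwt
          exact ⟨t.1, hw, by rw [hoff y hw, hr1]; omega⟩
        · exact ⟨w, hw, by rw [hr w hwt]; exact h⟩
  unfold Tm
  rw [Finset.sum_congr rfl (g := fun F => if Vd i e2 F then (X : ℤ[X]) ^ F.card else 0)
    (fun F _ => by
      have h9 : Vd i e1 F ↔ Vd i e2 F := by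
        rw [vd_iff, vd_iff]
        exact ⟨fun h => ⟨fun x hx => h.1 x ((hFI x).mpr hx), fun x hx => h.2 x ((hFA x).mpr hx)⟩,
          fun h => ⟨fun x hx => h.1 x ((hFI x).mp hx), fun x hx => h.2 x ((hFA x).mp hx)⟩⟩
      by_cases h10 : Vd i e2 F
      · rw [if_pos h10, if_pos (h9.mpr h10)]
      · rw [if_neg h10, if_neg (fun h => h10 (h9.mp h))]), sum_vd]
  exact lead_eq (h := fun _ => θ t.1 + 1) (z := t.2) hgr (by omega) (by omega)

end Term

end Pool.Agent.GaussPoset

end

/-! From `Pool.Agent.W_448f4_h70.JG` -/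

section

/-!
Twins with prescribed sums of two high labels, energies `< n0`, where elements which are covered
by the second twin only need not be frozen (MP_448cb3_co, S7, windows 2, 3).
-/

namespace Pool.Agent.GaussPoset

set_option linter.unusedSectionVars false

open Polynomial Finset

universe u

variable {P : Type u} [Fintype P] [PartialOrder P] [DecidableEq P]

section StepR

variable {i : ℕ} {p : ℤ[X]} {n0 : ℕ} {θ : P → ℕ} {x x' : P} {D : Finset P}

/-- the twin step, with the sum of two high labels as a hypothesis -/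
theorem dvd_ZB_twin_stepR (H : TwP θ x x')
    (hT : ∀ n < n0, p ∣ ZB i D 0 (st2 x x' (θ x) (θ x + 1)) n) (hlx : i < lev x) (hx : x ∉ D) (hx' : x' ∉ D)
    (hmin : ∀ y < x', y ∈ D ∨ (¬ y ≤ x ∧ ∀ w, y ⋖ w → w ≤ x'))
    (hlow : ∀ E : Finset P, E = D ∪ dnf x ∨ E = D ∪ dnf x' → ∀ a c, a ≤ c → c ∈ E → a ∈ E)
    (hlev : ∀ E : Finset P, E = D ∪ dnf x ∨ E = D ∪ dnf x' → ∀ a ∈ E, i < lev a)
    (hc2 : ∀ y ≤ x, y ∉ D → ∀ w, y ⋖ w → ¬ w ≤ x → θ x ≤ θ w + 1)
    (hBC : ∀ E : Finset P, E = D ∪ dnf x ∨ E = D ∪ dnf x' →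
      ∀ β : P → ℕ, (∀ y, y ∉ E → β y ≤ θ y) → ∀ n < n0, p ∣ ZB i E 0 β n)
    (n : ℕ) (hn : n < n0) : p ∣ ZB i D 0 0 n := by
  classical
  have hlx' : i < lev x' := by rw [← lev_eq_of_up H.up]; exact hlx
  have hs1 : ∀ a b, st2 x x' a b x = a := fun a b => by unfold st2; rw [if_pos rfl]
  have hs2 : ∀ a b, st2 x x' a b x' = b := fun a b => by
    unfold st2; rw [if_neg H.ne.symm, if_pos rfl]
  have hs3 : ∀ a b y, y ≠ x → y ≠ x' → st2 x x' a b y = 0 := fun a b y h1 h2 => by
    unfold st2; rw [if_neg h1, if_neg h2]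
  have hxx' : ¬ x ≤ x' := fun h => lt_irrefl x' ((H.up x').mp (lt_of_le_of_ne h H.ne))
  have hx'x : ¬ x' ≤ x := fun h => by
    have h1 : x' < x := lt_of_le_of_ne h H.ne.symm
    exact lt_irrefl x ((H.up x).mpr h1)
  have stepA : ∀ k ≤ θ x, p ∣ ZB i D 0 (st2 x x' k (k + 1)) n → p ∣ ZB i D 0 (st2 x x' k k) n := by
    intro k hk h
    refine dvd_ZB_step_down (st2 x x' k k) x' hx' hlx' p n ?_ ?_
    · rw [hs2, st2_update_right H.ne]
      exact h
    · intro g' hG
      obtain ⟨g1, g2, g3, g4, g5⟩ := hG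
      rw [hs2] at g2 g3
      have hE : D ∪ dnf x' = D ∪ dnf x ∨ D ∪ dnf x' = D ∪ dnf x' := Or.inr rfl
      refine dvd_ZB_shift_lt _ (hlow _ hE) (hlev _ hE) g5 p n0 (fun n hn => ?_) n hn
      rw [ZB_redundant (β := st2 x x' k 0)]
      · refine hBC _ hE _ ?_ n hn
        intro y hy
        rw [mem_union, mem_dnf, not_or] at hy
        by_cases hyx : y = x
        · subst hyx; rw [hs1]; exact hk
        · rw [hs3 k 0 y hyx (fun h => hy.2 h.le)]
          exact Nat.zero_le _
      · intro y hy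
        rw [mem_union, mem_dnf, not_or] at hy
        refine le_trans ?_ (le_bg _ _ _ y)
        by_cases hyx : y = x
        · subst hyx; rw [hs1, hs1]
        · rw [hs3 k 0 y hyx (fun h => hy.2 h.le)]
          exact Nat.zero_le _
      · intro y hy
        rw [mem_union, mem_dnf, not_or] at hy
        have hdall : ∀ d ∈ D ∪ dnf x', d ⋖ y → d ∈ D ∨ d = x' := by
          intro d hd hdy
          rw [mem_union, mem_dnf] at hd
          rcases hd with hd | hd
          · exact Or.inl hd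
          · rcases eq_or_lt_of_le hd with h1 | h1
            · exact Or.inr h1
            · rcases hmin d h1 with h2 | h2
              · exact Or.inl h2
              · exact absurd (h2.2 y hdy) hy.2
        by_cases hxy : x < y
        · right
          refine ⟨x, hxy.le, ?_, ?_⟩
          · rw [mem_union, mem_dnf]
            rintro (h1 | h1)
            · exact hx h1
            · exact hxx' h1
          · rw [hs1]
            refine bg_le ?_ ?_
            · rw [hs3 k k y hxy.ne' (fun h => hy.2 h.le)]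
              exact Nat.zero_le _
            · intro d hd hdy
              rcases hdall d hd hdy with h1 | h1
              · rw [g1 d h1]; exact Nat.zero_le _
              · rw [h1, g2]
        · left
          refine bg_le ?_ ?_
          · by_cases hyx : y = x
            · subst hyx; rw [hs1, hs1]
            · rw [hs3 k k y hyx (fun h => hy.2 h.le)]
              exact Nat.zero_le _
          · intro d hd hdy
            rcases hdall d hd hdy with h1 | h1
            · rw [g1 d h1]; exact Nat.zero_le _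
            · exfalso
              rw [h1] at hdy
              exact hxy ((H.up y).mpr hdy.1)
  have stepB : ∀ k, k + 1 ≤ θ x → p ∣ ZB i D 0 (st2 x x' (k + 1) (k + 1)) n →
      p ∣ ZB i D 0 (st2 x x' k (k + 1)) n := by
    intro k hk h
    refine dvd_ZB_step_down (st2 x x' k (k + 1)) x hx hlx p n ?_ ?_
    · rw [hs1, st2_update_left]
      exact h
    · intro g' hG
      obtain ⟨g1, g2, g3, g4, g5⟩ := hG
      rw [hs1] at g2 g3
      have hE : D ∪ dnf x = D ∪ dnf x ∨ D ∪ dnf x = D ∪ dnf x' := Or.inl rfl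
      refine dvd_ZB_shift_lt _ (hlow _ hE) (hlev _ hE) g5 p n0 (fun n hn => ?_) n hn
      refine hBC _ hE _ ?_ n hn
      intro y hy
      rw [mem_union, mem_dnf, not_or] at hy
      have hyx : y ≠ x := fun h => hy.2 h.le
      by_cases hyx' : y = x'
      · subst hyx'
        refine bg_le ?_ ?_
        · rw [hs2, H.eq]; exact hk
        · intro d hd hdy
          have hdD : d ∈ D := by
            rcases hmin d hdy.1 with h2 | h2
            · exact h2
            · rcases mem_union.mp hd with h3 | h3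
              · exact h3
              · exact absurd (mem_dnf.mp h3) h2.1
          rw [g1 d hdD]; exact Nat.zero_le _
      · refine bg_le ?_ ?_
        · rw [hs3 _ _ y hyx hyx']; exact Nat.zero_le _
        · intro d hd hdy
          by_cases hdD : d ∈ D
          · rw [g1 d hdD]; exact Nat.zero_le _
          · have hdx : d ≤ x := by
              rcases mem_union.mp hd with h1 | h1
              · exact absurd h1 hdD
              · exact mem_dnf.mp h1
            have h1 := g3 d hdx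
            have h2 := hc2 d hdx hdD y hdy hy.2
            omega
  have main : ∀ s k, k + s = θ x → p ∣ ZB i D 0 (st2 x x' k k) n := by
    intro s
    induction s with
    | zero =>
      intro k hk
      refine stepA k (by omega) ?_
      have hk' : k = θ x := by omega
      rw [hk']
      exact hT n hn
    | succ s ih =>
      intro k hk
      exact stepA k (by omega) (stepB k (by omega) (ih (k + 1) (by omega)))
  have h0 := main (θ x) 0 (by omega)
  have h1 : ZB i D 0 (st2 x x' 0 0) n = ZB i D 0 0 n := by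
    refine ZB_congr (fun _ _ => rfl) (fun y _ => ?_) n
    unfold st2
    split_ifs <;> rfl
  rwa [h1] at h0

end StepR

/-- the twin lemma, with the sums of two high labels as hypotheses -/
theorem dvd_ZB_bounds_twinsR (i : ℕ) (p : ℤ[X]) (n0 : ℕ) (DD : Set (Finset P)) (θ : P → ℕ)
    (Tw : Finset (P × P))
    (hlow : ∀ D ∈ DD, ∀ x y, x ≤ y → y ∈ D → x ∈ D) (hlev : ∀ D ∈ DD, ∀ x ∈ D, i < lev x)
    (hθ : ∀ x, 1 ≤ θ x → i < lev x)
    (c0 : ∀ D ∈ DD, (∀ t ∈ Tw, t.1 ∈ D ∨ t.2 ∈ D) → ∀ n < n0, p ∣ ZB i D 0 0 n)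
    (c1 : ∀ D ∈ DD, ∀ x, x ∉ D → 1 ≤ θ x → D ∪ dnf x ∈ DD)
    (c2 : ∀ D ∈ DD, ∀ x, x ∉ D → 1 ≤ θ x → ∀ y ≤ x, y ∉ D → ∀ x', y ⋖ x' → ¬ x' ≤ x →
      θ x ≤ θ x' + 1)
    (htw : ∀ t ∈ Tw, TwP θ t.1 t.2)
    (hHT : ∀ t ∈ Tw, ∀ D ∈ DD, t.1 ∉ D → t.2 ∉ D → ∀ n < n0,
      p ∣ ZB i D 0 (st2 t.1 t.2 (θ t.1) (θ t.1 + 1)) n)
    (hmin : ∀ t ∈ Tw, ∀ D ∈ DD, ∀ y < t.2, y ∈ D ∨ (¬ y ≤ t.1 ∧ ∀ w, y ⋖ w → w ≤ t.2)) :
    ∀ D ∈ DD, ∀ β : P → ℕ, (∀ x, x ∉ D → β x ≤ θ x) → ∀ n < n0, p ∣ ZB i D 0 β n := by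
  classical
  have hBC : ∀ s : ℕ, (∀ D ∈ DD, ubr Tw D ≤ s → ∀ n < n0, p ∣ ZB i D 0 0 n) →
      ∀ D ∈ DD, ubr Tw D ≤ s → ∀ β : P → ℕ, (∀ x, x ∉ D → β x ≤ θ x) → ∀ n < n0,
        p ∣ ZB i D 0 β n := by
    intro s hs D hD hu
    refine dvd_ZB_bounds_lt i p n0 {D | D ∈ DD ∧ ubr Tw D ≤ s} θ (fun D hD => hlow D hD.1)
      (fun D hD => hlev D hD.1) hθ (fun D hD => hs D hD.1 hD.2) ?_
      (fun D hD => c2 D hD.1) D ⟨hD, hu⟩
    intro D hD x hx hθx
    exact ⟨c1 D hD.1 x hx hθx, (ubr_mono Tw subset_union_left).trans hD.2⟩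
  have main : ∀ s : ℕ, ∀ D ∈ DD, ubr Tw D ≤ s → ∀ n < n0, p ∣ ZB i D 0 0 n := by
    intro s
    induction s with
    | zero =>
      intro D hD hu n hn
      refine c0 D hD ?_ n hn
      intro t ht
      by_contra hcon
      push Not at hcon
      have h1 : t ∈ Tw.filter (fun t => t.1 ∉ D ∧ t.2 ∉ D) := mem_filter.mpr ⟨ht, hcon⟩
      have h2 : 0 < ubr Tw D := Finset.card_pos.mpr ⟨t, h1⟩
      omega
    | succ s ih =>
      intro D hD hu n hn
      by_cases hall : ∀ t ∈ Tw, t.1 ∈ D ∨ t.2 ∈ D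
      · exact c0 D hD hall n hn
      · push Not at hall
        obtain ⟨t, ht, hx, hx'⟩ := hall
        have H := htw t ht
        have h1 : 1 ≤ θ t.2 := by rw [H.eq]; exact H.one_le
        have hDx := c1 D hD t.1 hx H.one_le
        have hDx' := c1 D hD t.2 hx' h1
        have hin : ∀ E : Finset P, E = D ∪ dnf t.1 ∨ E = D ∪ dnf t.2 → E ∈ DD ∧ ubr Tw E ≤ s := by
          rintro E (rfl | rfl)
          · refine ⟨hDx, ?_⟩
            have := ubr_lt (E := D ∪ dnf t.1) subset_union_left ht ⟨hx, hx'⟩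
              (Or.inl (mem_union_right _ (mem_dnf.mpr le_rfl)))
            omega
          · refine ⟨hDx', ?_⟩
            have := ubr_lt (E := D ∪ dnf t.2) subset_union_left ht ⟨hx, hx'⟩
              (Or.inr (mem_union_right _ (mem_dnf.mpr le_rfl)))
            omega
        exact dvd_ZB_twin_stepR H (hHT t ht D hD hx hx') (hθ _ H.one_le) hx hx' (hmin t ht D hD)
          (fun E hE => hlow E (hin E hE).1) (fun E hE => hlev E (hin E hE).1)
          (c2 D hD t.1 hx H.one_le) (fun E hE => hBC s ih E (hin E hE).1 (hin E hE).2) n hn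
  intro D hD β hβ n hn
  exact hBC _ (main (ubr Tw D)) D hD le_rfl β hβ n hn

end Pool.Agent.GaussPoset

end
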