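import Mathlib
import Pool.Agent.W_448zz_h61.Ns
import Pool.Agent.W_448zz_h61.M002

/-! From `Pool.Agent.W_448fy_h63.YA` -/

section

/-! Gaussian binomials and the entries of the row determinant of a Young diagram (MP_448cb3_co). -/

namespace Pool.Agent.GaussPoset.Yg

set_option linter.unusedSectionVars false

open Finset

section alg

variable {R : Type*} [CommRing R]

/-- Gaussian binomial coefficient -/
def qb (q : R) : ℕ → ℕ → R
  | _, 0 => 1
  | 0, _ + 1 => 0
  | n + 1, k + 1 => qb q n k + q ^ (k + 1) * qb q n (k + 1)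

lemma qb_zero (q : R) (n : ℕ) : qb q n 0 = 1 := by
  cases n <;> rfl

lemma qb_succ (q : R) (n k : ℕ) :
    qb q (n + 1) (k + 1) = qb q n k + q ^ (k + 1) * qb q n (k + 1) := rfl

lemma qb_gt (q : R) : ∀ n k : ℕ, n < k → qb q n k = 0 := by
  intro n
  induction n with
  | zero =>
    intro k hk
    obtain ⟨k, rfl⟩ : ∃ k', k = k' + 1 := ⟨k - 1, by omega⟩
    rfl
  | succ n ih =>
    intro k hk
    obtain ⟨k, rfl⟩ : ∃ k', k = k' + 1 := ⟨k - 1, by omega⟩
    rw [qb_succ, ih k (by omega), ih (k + 1) (by omega), mul_zero, add_zero]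

lemma qb_self (q : R) : ∀ n : ℕ, qb q n n = 1 := by
  intro n
  induction n with
  | zero => rfl
  | succ n ih => rw [qb_succ, ih, qb_gt q n (n + 1) (by omega), mul_zero, add_zero]

/-- product formula -/
theorem qb_prod (q : R) : ∀ n k : ℕ,
    qb q n k * ∏ u ∈ range k, (1 - q ^ (u + 1)) = ∏ u ∈ range k, (1 - q ^ (n - u)) := by
  intro n
  induction n with
  | zero =>
    intro k
    rcases Nat.eq_zero_or_pos k with rfl | hk
    · simp [qb_zero]
    · rw [qb_gt q 0 k hk, zero_mul]
      symm
      exact prod_eq_zero (mem_range.2 hk) (by simp)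
  | succ n ih =>
    intro k
    rcases Nat.eq_zero_or_pos k with rfl | hk
    · simp [qb_zero]
    obtain ⟨k, rfl⟩ : ∃ k', k = k' + 1 := ⟨k - 1, by omega⟩
    have h1 := ih k
    have h2 := ih (k + 1)
    rw [prod_range_succ, prod_range_succ] at h2
    rw [qb_succ, prod_range_succ' (fun u => 1 - q ^ (n + 1 - u))]
    have h3 : ∏ u ∈ range k, (1 - q ^ (n + 1 - (u + 1))) = ∏ u ∈ range k, (1 - q ^ (n - u)) :=
      prod_congr rfl fun u _ => by rw [show n + 1 - (u + 1) = n - u by omega]
    rw [h3, prod_range_succ, Nat.sub_zero]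
    rcases Nat.lt_or_ge n k with hnk | hnk
    · have h0 : ∏ u ∈ range k, (1 - q ^ (n - u)) = 0 :=
        prod_eq_zero (mem_range.2 hnk) (by simp)
      rw [h0] at h1 h2 ⊢
      rw [qb_gt q n (k + 1) (by omega), mul_zero, add_zero, zero_mul, ← mul_assoc, h1, zero_mul]
    · have e : q ^ (k + 1) * q ^ (n - k) = q ^ (n + 1) := by
        rw [← pow_add, show k + 1 + (n - k) = n + 1 by omega]
      linear_combination (1 - q ^ (k + 1)) * h1 + q ^ (k + 1) * h2 -
        (∏ u ∈ range k, (1 - q ^ (n - u))) * e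

/-- exponent `(t - s + 1)(t - s)/2` -/
def tr (s t : ℕ) : ℕ := if s ≤ t then (t - s + 1).choose 2 else (s - t).choose 2

lemma tr_succ (s t : ℕ) : s + tr s t = t + tr (s + 1) t := by
  unfold tr
  rcases Nat.lt_trichotomy s t with h | h | h
  · rw [if_pos h.le, if_pos (by omega)]
    obtain ⟨d, rfl⟩ : ∃ d, t = s + d + 1 := ⟨t - s - 1, by omega⟩
    rw [show s + d + 1 - s + 1 = (d + 1) + 1 by omega, show s + d + 1 - (s + 1) + 1 = d + 1 by omega,
      show ((d + 1) + 1).choose 2 = (d + 1).choose 1 + (d + 1).choose 2 from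
        Nat.choose_succ_succ' (d + 1) 1, Nat.choose_one_right]
    omega
  · subst h
    rw [if_pos le_rfl, if_neg (by omega)]
    simp
  · rw [if_neg (by omega), if_neg (by omega)]
    obtain ⟨d, rfl⟩ : ∃ d, s = t + d := ⟨s - t, by omega⟩
    rw [show t + d - t = d by omega, show t + d + 1 - t = d + 1 by omega,
      show (d + 1).choose 2 = d.choose 1 + d.choose 2 from Nat.choose_succ_succ' d 1,
      Nat.choose_one_right]
    omega

lemma tr_self (s : ℕ) : tr s s = 0 := by
  unfold tr
  rw [if_pos le_rfl]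
  simp

/-- entry of the determinant: row `s`, column `t`, row length `n`, bound `m` -/
def ent (q : R) (s t n m : ℕ) : R :=
  if s ≤ n + t then q ^ tr s t * qb q (m + n) (n + t - s) else 0

/-- shortening a row by one, positive length -/
theorem ent_sub (q : R) (s t n m : ℕ) :
    q ^ s * (ent q s t (n + 1) (m + 1) - ent q s t n (m + 1)) =
      q ^ (n + 1) * (q ^ t * ent q s t (n + 1) m) := by
  unfold ent
  rcases Nat.lt_trichotomy s (n + 1 + t) with h | h | h
  · rw [if_pos h.le, if_pos (by omega), if_pos h.le]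
    obtain ⟨K, hK⟩ : ∃ K, n + t - s = K := ⟨_, rfl⟩
    rw [show n + 1 + t - s = K + 1 by omega, hK, show m + 1 + (n + 1) = (m + (n + 1)) + 1 by omega,
      show m + 1 + n = m + (n + 1) by omega, qb_succ]
    have e : q ^ s * q ^ (K + 1) = q ^ (n + 1) * q ^ t := by
      rw [← pow_add, ← pow_add, show s + (K + 1) = n + 1 + t by omega]
    linear_combination (q ^ tr s t * qb q (m + (n + 1)) (K + 1)) * e
  · rw [if_pos h.le, if_neg (by omega), if_pos h.le, h, show n + 1 + t - (n + 1 + t) = 0 by omega,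
      qb_zero, qb_zero, pow_add]
    ring
  · rw [if_neg (by omega), if_neg (by omega), if_neg (by omega)]
    ring

/-- the shortened row is a multiple of the next row -/
theorem ent_next (q : R) (s t n m : ℕ) :
    q ^ s * ent q s t n (m + 1) = q ^ t * ent q (s + 1) t (n + 1) m := by
  unfold ent
  by_cases h : s ≤ n + t
  · rw [if_pos h, if_pos (by omega), ← mul_assoc, ← mul_assoc, ← pow_add, ← pow_add, tr_succ,
      show m + 1 + n = m + (n + 1) by omega, show n + 1 + t - (s + 1) = n + t - s by omega]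
  · rw [if_neg h, if_neg (by omega), mul_zero, mul_zero]

/-- empty row -/
theorem ent_zero (q : R) (s t m : ℕ) :
    q ^ s * ent q s t 0 (m + 1) = q ^ t * ent q s t 0 m + q ^ t * ent q (s + 1) t 0 m := by
  unfold ent
  simp only [zero_add, add_zero]
  rcases Nat.lt_trichotomy s t with h | h | h
  · rw [if_pos h.le, if_pos h.le, if_pos (show s + 1 ≤ t by omega)]
    obtain ⟨K, hK⟩ : ∃ K, t - (s + 1) = K := ⟨_, rfl⟩
    rw [show t - s = K + 1 by omega, hK, qb_succ]
    have e : q ^ s * q ^ (K + 1) = q ^ t := by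
      rw [← pow_add, show s + (K + 1) = t by omega]
    have e2 : q ^ s * q ^ tr s t = q ^ t * q ^ tr (s + 1) t := by
      rw [← pow_add, ← pow_add, tr_succ]
    linear_combination (q ^ tr s t * qb q m (K + 1)) * e + (qb q m K) * e2
  · subst h
    rw [if_pos le_rfl, if_pos le_rfl, if_neg (by omega), Nat.sub_self, qb_zero, qb_zero]
    ring
  · rw [if_neg (by omega), if_neg (by omega), if_neg (by omega)]
    ring

/-- bound zero: lower unitriangular -/
lemma ent_m0 (q : R) (s t n : ℕ) (h : s ≤ t) : ent q s t n 0 = if s = t then 1 else 0 := by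
  unfold ent
  rw [if_pos (by omega)]
  by_cases h1 : s = t
  · subst h1
    rw [if_pos rfl, tr_self, pow_zero, one_mul, show n + s - s = n by omega, Nat.zero_add, qb_self]
  · rw [if_neg h1, qb_gt q _ _ (by omega), mul_zero]

/-- empty rows: upper unitriangular -/
lemma ent_n0 (q : R) (s t m : ℕ) (h : t ≤ s) : ent q s t 0 m = if s = t then 1 else 0 := by
  unfold ent
  by_cases h1 : s = t
  · subst h1
    rw [if_pos rfl, if_pos (by omega), tr_self, pow_zero, one_mul, Nat.zero_add, Nat.sub_self,
      qb_zero]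
  · rw [if_neg h1, if_neg (by omega)]

end alg

end Pool.Agent.GaussPoset.Yg

end

/-! From `Pool.Agent.W_448fy_h63.YB` -/

section

/-! The recursion of the row determinant of a Young diagram (MP_448cb3_co). -/

namespace Pool.Agent.GaussPoset.Yg

set_option linter.unusedSectionVars false

open Finset Matrix

section alg

variable {R : Type*} [CommRing R] {l : ℕ}

/-- the row determinant -/
def DY (q : R) (m : ℕ) (lam : Fin l → ℕ) : R :=
  Matrix.det (Matrix.of fun s t : Fin l => ent q s t (lam s) m)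

/-- length of the next row -/
def nx (lam : Fin l → ℕ) (s : Fin l) : ℕ := if h : (s : ℕ) + 1 < l then lam ⟨s + 1, h⟩ else 0

/-- rows which end in a corner -/
def cor (lam : Fin l → ℕ) : Finset (Fin l) := univ.filter (fun s => nx lam s < lam s)

/-- remove the last cell of the rows in `T` -/
def subT (lam : Fin l → ℕ) (T : Finset (Fin l)) : Fin l → ℕ :=
  fun s => if s ∈ T then lam s - 1 else lam s

lemma nx_le {lam : Fin l → ℕ} (h : Antitone lam) (s : Fin l) : nx lam s ≤ lam s := by
  unfold nx
  split_ifs with h1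
  · exact h (by rw [Fin.le_def]; simp)
  · exact Nat.zero_le _

/-- the upper triangular matrix of the row operations -/
def UT (q : R) (lam : Fin l → ℕ) : Matrix (Fin l) (Fin l) R :=
  Matrix.of fun s u => if u = s then q ^ lam s else
    if (u : ℕ) = s + 1 then (if s ∈ cor lam then 0 else 1) else 0

lemma det_UT (q : R) (lam : Fin l → ℕ) : (UT q lam).det = q ^ ∑ s, lam s := by
  have h : (UT q lam).BlockTriangular id := by
    intro a b hab
    rw [id, id, Fin.lt_def] at hab
    unfold UT
    rw [Matrix.of_apply, if_neg (by rintro rfl; omega), if_neg (by omega)]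
  rw [Matrix.det_of_upperTriangular h, ← prod_pow_eq_pow_sum]
  refine prod_congr rfl fun s _ => ?_
  unfold UT
  rw [Matrix.of_apply, if_pos rfl]

lemma row_rel (q : R) {lam : Fin l → ℕ} (h : Antitone lam) (m : ℕ) (s t : Fin l) :
    q ^ (s : ℕ) * (ent q s t (lam s) (m + 1) -
        (if s ∈ cor lam then ent q s t (lam s - 1) (m + 1) else 0)) =
      ∑ u, UT q lam s u * (q ^ (t : ℕ) * ent q u t (lam u) m) := by
  have hsplit : ∑ u, UT q lam s u * (q ^ (t : ℕ) * ent q u t (lam u) m) =
      q ^ lam s * (q ^ (t : ℕ) * ent q s t (lam s) m) +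
      (if hs : (s : ℕ) + 1 < l then (if s ∈ cor lam then 0 else
        q ^ (t : ℕ) * ent q ((s : ℕ) + 1) t (lam ⟨s + 1, hs⟩) m) else 0) := by
    rw [← add_sum_erase univ _ (mem_univ s)]
    congr 1
    · unfold UT
      rw [Matrix.of_apply, if_pos rfl]
    · by_cases hs : (s : ℕ) + 1 < l
      · rw [dif_pos hs]
        rw [sum_eq_single (⟨(s : ℕ) + 1, hs⟩ : Fin l)]
        · unfold UT
          rw [Matrix.of_apply, if_neg (by rw [Fin.ext_iff]; simp), if_pos rfl]
          split_ifs <;> ring
        · intro u hu hu2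
          rw [mem_erase] at hu
          unfold UT
          rw [Matrix.of_apply, if_neg hu.1, if_neg (by
            intro h1
            exact hu2 (Fin.ext h1)), zero_mul]
        · intro h1
          exact absurd (mem_erase.2 ⟨by rw [ne_eq, Fin.ext_iff]; simp, mem_univ _⟩) h1
      · rw [dif_neg hs]
        refine sum_eq_zero fun u hu => ?_
        rw [mem_erase] at hu
        unfold UT
        rw [Matrix.of_apply, if_neg hu.1, if_neg (by have := u.2; omega), zero_mul]
  rw [hsplit]
  by_cases hc : s ∈ cor lam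
  · have hc1 : nx lam s < lam s := (mem_filter.1 hc).2
    obtain ⟨n, hn⟩ : ∃ n, lam s = n + 1 := ⟨lam s - 1, by omega⟩
    rw [if_pos hc, hn, Nat.add_sub_cancel, ent_sub]
    simp only [if_pos hc]
    split_ifs <;> ring
  · have hc1 : lam s ≤ nx lam s := by
      by_contra hcon
      exact hc (mem_filter.2 ⟨mem_univ _, by omega⟩)
    have hc2 := nx_le h s
    simp only [if_neg hc, sub_zero]
    unfold nx at hc1 hc2
    by_cases hs : (s : ℕ) + 1 < l
    · rw [dif_pos hs] at hc1 hc2
      rw [dif_pos hs, le_antisymm hc2 hc1]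
      rcases Nat.eq_zero_or_pos (lam s) with h0 | h0
      · rw [h0, ent_zero, pow_zero, one_mul]
      · obtain ⟨n, hn⟩ : ∃ n, lam s = n + 1 := ⟨lam s - 1, by omega⟩
        have e1 := ent_sub q (s : ℕ) (t : ℕ) n m
        have e2 := ent_next q (s : ℕ) (t : ℕ) n m
        rw [hn]
        linear_combination e1 + e2
    · rw [dif_neg hs] at hc1 hc2
      rw [dif_neg hs, show lam s = 0 by omega, ent_zero, pow_zero, one_mul,
        ent_n0 q ((s : ℕ) + 1) t m (by have := t.2; omega), if_neg (by have := t.2; omega)]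
      ring

/-- the recursion -/
theorem DY_rec [IsDomain R] {q : R} (hq : q ≠ 0) {lam : Fin l → ℕ} (h : Antitone lam) (m : ℕ) :
    ∑ T ∈ (cor lam).powerset, (-1) ^ T.card * DY q (m + 1) (subT lam T) =
      q ^ (∑ s, lam s) * DY q m lam := by
  classical
  set a : Fin l → Fin l → R := fun s t => ent q s t (lam s) (m + 1) with ha
  set b : Fin l → Fin l → R := fun s t =>
    if s ∈ cor lam then -ent q s t (lam s - 1) (m + 1) else 0 with hb
  have h1 : Matrix.det (Matrix.of (b + a)) =
      ∑ T : Finset (Fin l), Matrix.det (Matrix.of (T.piecewise b a)) :=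
    (Matrix.detRowAlternating (n := Fin l) (R := R)).toMultilinearMap.map_add_univ b a
  have h2 : ∀ T : Finset (Fin l), Matrix.det (Matrix.of (T.piecewise b a)) =
      if T ∈ (cor lam).powerset then (-1) ^ T.card * DY q (m + 1) (subT lam T) else 0 := by
    intro T
    by_cases hT : T ⊆ cor lam
    · rw [if_pos (mem_powerset.2 hT)]
      have e1 : (Matrix.of (T.piecewise b a) : Matrix (Fin l) (Fin l) R) =
          Matrix.of (fun s t => (if s ∈ T then (-1 : R) else 1) *
            (Matrix.of fun s t : Fin l => ent q s t (subT lam T s) (m + 1)) s t) := by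
        ext s t
        rw [Matrix.of_apply, Matrix.of_apply, Matrix.of_apply]
        by_cases hs : s ∈ T
        · rw [Finset.piecewise_eq_of_mem _ _ _ hs, if_pos hs, hb]
          simp only [if_pos (hT hs)]
          unfold subT
          rw [if_pos hs]
          ring
        · rw [Finset.piecewise_eq_of_notMem _ _ _ hs, if_neg hs, ha]
          unfold subT
          rw [if_neg hs]
          ring
      rw [e1, Matrix.det_mul_column]
      unfold DY
      congr 1
      rw [Finset.prod_ite_mem, Finset.univ_inter, Finset.prod_const]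
    · rw [if_neg (fun h3 => hT (mem_powerset.1 h3))]
      obtain ⟨s, hs, hs2⟩ := Finset.not_subset.1 hT
      refine Matrix.det_eq_zero_of_row_eq_zero s fun t => ?_
      rw [Matrix.of_apply, Finset.piecewise_eq_of_mem _ _ _ hs, hb]
      simp only [if_neg hs2]
  have h3 : ∑ T ∈ (cor lam).powerset, (-1) ^ T.card * DY q (m + 1) (subT lam T) =
      Matrix.det (Matrix.of (b + a)) := by
    rw [h1, Finset.sum_congr rfl (fun T _ => h2 T), Finset.sum_ite_mem, Finset.univ_inter]
  rw [h3]
  -- row operations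
  have h4 : (Matrix.of fun s t : Fin l => q ^ (s : ℕ) * (Matrix.of (b + a)) s t) =
      UT q lam * (Matrix.of fun u t : Fin l => q ^ (t : ℕ) *
        (Matrix.of fun s t : Fin l => ent q s t (lam s) m) u t) := by
    ext s t
    rw [Matrix.mul_apply, Matrix.of_apply, Matrix.of_apply, Pi.add_apply, Pi.add_apply]
    simp only [Matrix.of_apply]
    rw [← row_rel q h m s t, ha, hb]
    by_cases hs : s ∈ cor lam
    · simp only [if_pos hs]; ring
    · simp only [if_neg hs]; ring
  have h5 := congrArg Matrix.det h4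
  rw [Matrix.det_mul_column, Matrix.det_mul, det_UT, Matrix.det_mul_row] at h5
  have hne : (∏ i : Fin l, q ^ (i : ℕ)) ≠ 0 := prod_ne_zero_iff.2 fun i _ => pow_ne_zero _ hq
  apply mul_left_cancel₀ hne
  rw [h5]
  unfold DY
  ring

lemma DY_m0 (q : R) (lam : Fin l → ℕ) : DY q 0 lam = 1 := by
  unfold DY
  have h : (Matrix.of fun s t : Fin l => ent q s t (lam s) 0).BlockTriangular OrderDual.toDual := by
    intro a b hab
    have hab2 : a < b := hab
    rw [Fin.lt_def] at hab2
    rw [Matrix.of_apply, ent_m0 q a b (lam a) hab2.le, if_neg (by omega)]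
  rw [Matrix.det_of_lowerTriangular _ h]
  refine prod_eq_one fun s _ => ?_
  rw [Matrix.of_apply, ent_m0 q s s (lam s) le_rfl, if_pos rfl]

end alg

end Pool.Agent.GaussPoset.Yg

end

/-! From `Pool.Agent.W_448fy_h63.YC` -/

section

/-! Plane partitions of a Young shape and the row determinant (MP_448cb3_co). -/

namespace Pool.Agent.GaussPoset.Yg

set_option linter.unusedSectionVars false

open Finset

section cnt

variable {l n : ℕ}

open Classical in
/-- arrays with entries at most `m`, weakly decreasing, zero outside the shape -/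
noncomputable def FY (n m : ℕ) (lam : Fin l → ℕ) : Finset (Fin l × Fin n → ℕ) :=
  (Fintype.piFinset fun _ => range (m + 1)).filter
    (fun f => Antitone f ∧ ∀ p, lam p.1 ≤ p.2 → f p = 0)

lemma mem_FY {m : ℕ} {lam : Fin l → ℕ} {f : Fin l × Fin n → ℕ} :
    f ∈ FY n m lam ↔ (∀ p, f p ≤ m) ∧ Antitone f ∧ ∀ p, lam p.1 ≤ p.2 → f p = 0 := by
  classical
  unfold FY
  rw [mem_filter, Fintype.mem_piFinset]
  simp only [mem_range, Nat.lt_succ_iff]

/-- generating function -/
noncomputable def UY {R : Type*} [CommRing R] (q : R) (n m : ℕ) (lam : Fin l → ℕ) : R :=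
  ∑ f ∈ FY n m lam, q ^ ∑ p, f p

variable {lam : Fin l → ℕ}

lemma cor_pos {s : Fin l} (hs : s ∈ cor lam) : 1 ≤ lam s := by
  have := (mem_filter.1 hs).2
  omega

open Classical in
/-- rows whose corner cell has entry zero -/
noncomputable def Zr (hn : ∀ s, lam s ≤ n) (f : Fin l × Fin n → ℕ) : Finset (Fin l) :=
  (cor lam).filter (fun s => ∀ c : Fin n, (c : ℕ) + 1 = lam s → f (s, c) = 0)

lemma mem_FY_subT (hn : ∀ s, lam s ≤ n) {m : ℕ} {T : Finset (Fin l)} (hT : T ⊆ cor lam)
    {f : Fin l × Fin n → ℕ} :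
    f ∈ FY n m (subT lam T) ↔ f ∈ FY n m lam ∧ T ⊆ Zr hn f := by
  rw [mem_FY, mem_FY]
  constructor
  · rintro ⟨h1, h2, h3⟩
    refine ⟨⟨h1, h2, fun p hp => h3 p ?_⟩, fun s hs => ?_⟩
    · unfold subT
      split_ifs <;> omega
    · unfold Zr
      rw [mem_filter]
      refine ⟨hT hs, fun c hc => h3 (s, c) ?_⟩
      unfold subT
      simp only [if_pos hs]
      omega
  · rintro ⟨⟨h1, h2, h3⟩, h4⟩
    refine ⟨h1, h2, fun p hp => ?_⟩
    by_cases hp2 : lam p.1 ≤ p.2
    · exact h3 p hp2
    · unfold subT at hp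
      by_cases hs : p.1 ∈ T
      · have h5 := h4 hs
        unfold Zr at h5
        rw [mem_filter] at h5
        rw [if_pos hs] at hp
        exact h5.2 p.2 (by omega)
      · rw [if_neg hs] at hp
        exact absurd hp hp2

/-- below every cell there is a corner cell -/
lemma exists_cor (hn : ∀ s, lam s ≤ n) (p : Fin l × Fin n) (hp : (p.2 : ℕ) < lam p.1) :
    ∃ s ∈ cor lam, ∃ c : Fin n, (c : ℕ) + 1 = lam s ∧ p ≤ (s, c) := by
  classical
  set S : Finset (Fin l) := univ.filter (fun s => (p.2 : ℕ) < lam s) with hS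
  have hne : S.Nonempty := ⟨p.1, mem_filter.2 ⟨mem_univ _, hp⟩⟩
  have h1 := S.max'_mem hne
  set s := S.max' hne with hs
  have h2 : (p.2 : ℕ) < lam s := (mem_filter.1 h1).2
  have h3 : p.1 ≤ s := S.le_max' _ (mem_filter.2 ⟨mem_univ _, hp⟩)
  refine ⟨s, ?_, ⟨lam s - 1, by have := hn s; omega⟩, by simp only; omega, ?_⟩
  · unfold cor
    rw [mem_filter]
    refine ⟨mem_univ _, ?_⟩
    unfold nx
    split_ifs with h4
    · by_contra hcon
      have h5 : (⟨(s : ℕ) + 1, h4⟩ : Fin l) ∈ S := mem_filter.2 ⟨mem_univ _, by omega⟩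
      have h6 := S.le_max' _ h5
      rw [← hs, Fin.le_def] at h6
      simp at h6
    · omega
  · rw [Prod.le_def]
    refine ⟨h3, ?_⟩
    rw [Fin.le_def]
    simp only
    omega

lemma Zr_empty_iff (hn : ∀ s, lam s ≤ n) {m : ℕ} {f : Fin l × Fin n → ℕ} (hf : f ∈ FY n m lam) :
    Zr hn f = ∅ ↔ ∀ p : Fin l × Fin n, (p.2 : ℕ) < lam p.1 → 1 ≤ f p := by
  classical
  rw [mem_FY] at hf
  constructor
  · intro h p hp
    obtain ⟨s, hs, c, hc, hle⟩ := exists_cor hn p hp
    by_contra hcon
    have h1 := hf.2.1 hle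
    have h2 : s ∈ Zr hn f := by
      unfold Zr
      rw [mem_filter]
      refine ⟨hs, fun c' hc' => ?_⟩
      have : c' = c := Fin.ext (by omega)
      rw [this]
      omega
    rw [h] at h2
    exact absurd h2 (notMem_empty _)
  · intro h
    rw [eq_empty_iff_forall_notMem]
    intro s hs
    unfold Zr at hs
    rw [mem_filter] at hs
    have h1 := cor_pos hs.1
    have h2 := hn s
    have h3 := h (s, ⟨lam s - 1, by omega⟩) (by simp only; omega)
    have h4 := hs.2 ⟨lam s - 1, by omega⟩ (by simp only; omega)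
    omega

lemma sum_shape (hn : ∀ s, lam s ≤ n) :
    ∑ p : Fin l × Fin n, (if (p.2 : ℕ) < lam p.1 then 1 else 0) = ∑ s, lam s := by
  rw [Fintype.sum_prod_type]
  refine sum_congr rfl fun s _ => ?_
  have h1 : ∑ x : Fin n, (if (x : ℕ) < lam s then 1 else 0) =
      ∑ x ∈ range n, (if x < lam s then 1 else 0) := by
    rw [Finset.sum_range]
  simp only
  rw [h1, ← card_filter]
  have h2 : (range n).filter (fun x => x < lam s) = range (lam s) := by
    ext x
    rw [mem_filter, mem_range, mem_range]
    have := hn s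
    omega
  rw [h2, card_range]

variable {R : Type*} [CommRing R]

/-- the recursion for the generating function -/
theorem UY_rec (q : R) (h : Antitone lam) (hn : ∀ s, lam s ≤ n) (m : ℕ) :
    ∑ T ∈ (cor lam).powerset, (-1) ^ T.card * UY q n (m + 1) (subT lam T) =
      q ^ (∑ s, lam s) * UY q n m lam := by
  classical
  have h1 : ∀ T ∈ (cor lam).powerset, (-1) ^ T.card * UY q n (m + 1) (subT lam T) =
      ∑ f ∈ FY n (m + 1) lam, (if T ⊆ Zr hn f then (-1) ^ T.card * q ^ ∑ p, f p else 0) := by
    intro T hT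
    rw [mem_powerset] at hT
    unfold UY
    rw [mul_sum, ← sum_filter]
    refine sum_congr ?_ fun _ _ => rfl
    ext f
    rw [mem_filter, mem_FY_subT hn hT]
  rw [sum_congr rfl h1, sum_comm]
  have h2 : ∀ f ∈ FY n (m + 1) lam, ∑ T ∈ (cor lam).powerset,
      (if T ⊆ Zr hn f then (-1) ^ T.card * q ^ ∑ p, f p else 0) =
      if Zr hn f = ∅ then q ^ ∑ p, f p else 0 := by
    intro f _
    rw [← sum_filter]
    have e1 : (cor lam).powerset.filter (fun T => T ⊆ Zr hn f) = (Zr hn f).powerset := by
      ext T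
      rw [mem_filter, mem_powerset, mem_powerset]
      refine ⟨fun h => h.2, fun h => ⟨h.trans ?_, h⟩⟩
      unfold Zr
      exact filter_subset _ _
    rw [e1, ← sum_mul]
    have e2 := congrArg (Int.cast : ℤ → R) (sum_powerset_neg_one_pow_card (x := Zr hn f))
    rw [Int.cast_sum] at e2
    have e3 : ∑ T ∈ (Zr hn f).powerset, ((-1 : R)) ^ T.card = if Zr hn f = ∅ then 1 else 0 := by
      rw [show (if Zr hn f = ∅ then (1 : R) else 0) =
        (((if Zr hn f = ∅ then (1 : ℤ) else 0) : ℤ) : R) by split_ifs <;> simp, ← e2]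
      refine sum_congr rfl fun T _ => ?_
      push_cast
      rfl
    rw [e3]
    split_ifs <;> simp
  rw [sum_congr rfl h2, ← sum_filter]
  unfold UY
  rw [mul_sum]
  refine sum_bij' (fun f _ p => f p - 1) (fun g _ p => if (p.2 : ℕ) < lam p.1 then g p + 1 else 0)
    ?_ ?_ ?_ ?_ ?_
  · intro f hf
    rw [mem_filter] at hf
    obtain ⟨hf1, hf2⟩ := hf
    rw [mem_FY] at hf1 ⊢
    refine ⟨fun p => ?_, fun p p' hp => ?_, fun p hp => ?_⟩
    · have := hf1.1 p
      omega
    · have := hf1.2.1 hp
      simp only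
      omega
    · have := hf1.2.2 p hp
      omega
  · intro g hg
    rw [mem_FY] at hg
    have hmem : (fun p : Fin l × Fin n => if (p.2 : ℕ) < lam p.1 then g p + 1 else 0) ∈
        FY n (m + 1) lam := by
      rw [mem_FY]
      refine ⟨fun p => ?_, fun p p' hp => ?_, fun p hp => ?_⟩
      · have := hg.1 p
        split_ifs <;> omega
      · have h3 := hg.2.1 hp
        have h4 := h hp.1
        have h5 : (p.2 : ℕ) ≤ p'.2 := hp.2
        simp only
        split_ifs <;> omega
      · rw [if_neg (by omega)]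
    rw [mem_filter]
    refine ⟨hmem, (Zr_empty_iff hn hmem).2 fun p hp => ?_⟩
    rw [if_pos hp]
    omega
  · intro f hf
    rw [mem_filter] at hf
    obtain ⟨hf1, hf2⟩ := hf
    rw [Zr_empty_iff hn hf1] at hf2
    rw [mem_FY] at hf1
    funext p
    simp only
    by_cases hp : (p.2 : ℕ) < lam p.1
    · rw [if_pos hp]
      have := hf2 p hp
      omega
    · rw [if_neg hp]
      have := hf1.2.2 p (by omega)
      omega
  · intro g hg
    rw [mem_FY] at hg
    funext p
    simp only
    by_cases hp : (p.2 : ℕ) < lam p.1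
    · rw [if_pos hp]
      omega
    · rw [if_neg hp]
      have := hg.2.2 p (by omega)
      omega
  · intro f hf
    rw [mem_filter] at hf
    obtain ⟨hf1, hf2⟩ := hf
    rw [Zr_empty_iff hn hf1] at hf2
    rw [mem_FY] at hf1
    rw [← pow_add, ← sum_shape hn, ← sum_add_distrib]
    congr 1
    refine sum_congr rfl fun p _ => ?_
    by_cases hp : (p.2 : ℕ) < lam p.1
    · rw [if_pos hp]
      have := hf2 p hp
      omega
    · rw [if_neg hp]
      have := hf1.2.2 p (by omega)
      omega

lemma FY_m0 (n : ℕ) (lam : Fin l → ℕ) : FY n 0 lam = {fun _ => 0} := by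
  ext f
  rw [mem_FY, mem_singleton]
  constructor
  · rintro ⟨h1, -, -⟩
    funext p
    have := h1 p
    omega
  · rintro rfl
    exact ⟨fun _ => le_rfl, fun _ _ _ => le_rfl, fun _ _ => rfl⟩

lemma UY_m0 (q : R) (n : ℕ) (lam : Fin l → ℕ) : UY q n 0 lam = 1 := by
  unfold UY
  rw [FY_m0]
  simp

lemma subT_anti (h : Antitone lam) {T : Finset (Fin l)} (hT : T ⊆ cor lam) :
    Antitone (subT lam T) := by
  intro s s' hs
  rcases eq_or_lt_of_le hs with h1 | h1
  · rw [h1]
  have h2 := h hs
  unfold subT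
  by_cases h3 : s ∈ T
  · have h4 := (mem_filter.1 (hT h3)).2
    have h5 : lam s' ≤ nx lam s := by
      unfold nx
      have h6 : (s : ℕ) + 1 < l := by
        have h7 : (s : ℕ) < s' := h1
        have := s'.2
        omega
      rw [dif_pos h6]
      refine h ?_
      rw [Fin.le_def]
      have h7 : (s : ℕ) < s' := h1
      simp only
      omega
    split_ifs <;> omega
  · split_ifs <;> omega

lemma subT_le {T : Finset (Fin l)} (s : Fin l) : subT lam T s ≤ lam s := by
  unfold subT
  split_ifs <;> omega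

lemma subT_empty : subT lam ∅ = lam := by
  funext s
  unfold subT
  rw [if_neg (notMem_empty _)]

lemma subT_sum {T : Finset (Fin l)} (hT : T ⊆ cor lam) (hne : T ≠ ∅) :
    ∑ s, subT lam T s < ∑ s, lam s := by
  obtain ⟨s, hs⟩ := nonempty_iff_ne_empty.2 hne
  refine sum_lt_sum (fun i _ => subT_le i) ⟨s, mem_univ _, ?_⟩
  unfold subT
  rw [if_pos hs]
  have := cor_pos (hT hs)
  omega

/-- the generating function of the plane partitions of a Young shape is the row determinant -/
theorem UY_eq [IsDomain R] {q : R} (hq : q ≠ 0) : ∀ (N : ℕ) (m : ℕ) (lam : Fin l → ℕ),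
    Antitone lam → (∀ s, lam s ≤ n) → m + ∑ s, lam s ≤ N → UY q n m lam = DY q m lam := by
  intro N
  induction N with
  | zero =>
    intro m lam _ _ hN
    obtain rfl : m = 0 := by omega
    rw [UY_m0, DY_m0]
  | succ N ih =>
    intro m lam h hn hN
    rcases Nat.eq_zero_or_pos m with rfl | hm
    · rw [UY_m0, DY_m0]
    obtain ⟨m, rfl⟩ : ∃ m', m = m' + 1 := ⟨m - 1, by omega⟩
    have e1 := UY_rec q h hn m
    have e2 := DY_rec hq h m
    rw [← add_sum_erase _ _ (empty_mem_powerset (cor lam)), subT_empty] at e1 e2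
    rw [ih m lam h hn (by omega)] at e1
    have e3 : ∑ T ∈ (cor lam).powerset.erase ∅, (-1) ^ T.card * UY q n (m + 1) (subT lam T) =
        ∑ T ∈ (cor lam).powerset.erase ∅, (-1) ^ T.card * DY q (m + 1) (subT lam T) := by
      refine sum_congr rfl fun T hT => ?_
      rw [mem_erase, mem_powerset] at hT
      have h1 := subT_sum hT.2 hT.1
      rw [ih (m + 1) (subT lam T) (subT_anti h hT.2) (fun s => (subT_le s).trans (hn s)) (by omega)]
    rw [e3] at e1
    rw [card_empty, pow_zero, one_mul] at e1 e2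
    rw [← e2] at e1
    exact add_right_cancel e1

end cnt

end Pool.Agent.GaussPoset.Yg

end

/-! From `Pool.Agent.W_448fy_h63.YD` -/

section

/-! Order of the window polynomial of a Young shape (MP_448cb3_co). -/

namespace Pool.Agent.GaussPoset.Yg

set_option linter.unusedSectionVars false

open Finset

universe u

section pol

/-- the variable of the coefficient ring -/
noncomputable abbrev qq : PowerSeries ℤ := PowerSeries.X

lemma qq_ne : (qq : PowerSeries ℤ) ≠ 0 := PowerSeries.X_ne_zero

/-- one factor: `1 - q^(m + n - u)` up to a power of `q`, as a polynomial in the window variable -/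
noncomputable def gf (i n u : ℕ) : Polynomial (PowerSeries ℤ) :=
  Polynomial.C (qq ^ (i + 1 + u - n)) + Polynomial.C (qq ^ (n - (i + 1 + u))) * Polynomial.X

/-- the evaluation points -/
noncomputable def pt (i m : ℕ) : PowerSeries ℤ := -qq ^ (i + m + 1)

lemma gf_eval (i n u m : ℕ) (h : u ≤ m + n) :
    (gf i n u).eval (pt i m) = qq ^ (i + 1 + u - n) * (1 - qq ^ (m + n - u)) := by
  unfold gf pt
  rw [Polynomial.eval_add, Polynomial.eval_mul, Polynomial.eval_C, Polynomial.eval_C,
    Polynomial.eval_X]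
  have e : (qq : PowerSeries ℤ) ^ (n - (i + 1 + u)) * qq ^ (i + m + 1) =
      qq ^ (i + 1 + u - n) * qq ^ (m + n - u) := by
    rw [← pow_add, ← pow_add]
    congr 1
    omega
  linear_combination -e

lemma gf_prod_eval (i n K m : ℕ) :
    (∏ u ∈ range K, gf i n u).eval (pt i m) =
      qq ^ (∑ u ∈ range K, (i + 1 + u - n)) * ∏ u ∈ range K, (1 - qq ^ (m + n - u)) := by
  rw [Polynomial.eval_prod]
  by_cases hK : K ≤ m + n + 1
  · rw [← prod_pow_eq_pow_sum, ← prod_mul_distrib]
    refine prod_congr rfl fun u hu => ?_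
    rw [mem_range] at hu
    exact gf_eval i n u m (by omega)
  · have h1 : m + n ∈ range K := mem_range.2 (by omega)
    rw [prod_eq_zero h1, prod_eq_zero h1, mul_zero]
    · rw [Nat.sub_self, pow_zero, sub_self]
    · rw [gf_eval i n (m + n) m le_rfl, Nat.sub_self, pow_zero, sub_self, mul_zero]

/-- common denominator -/
noncomputable def dn (N : ℕ) : PowerSeries ℤ := ∏ u ∈ range N, (1 - qq ^ (u + 1))

lemma dn_ne (N : ℕ) : dn N ≠ 0 := by
  unfold dn
  rw [prod_ne_zero_iff]
  intro u _ h
  have h1 := congrArg (PowerSeries.constantCoeff (R := ℤ)) h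
  simp at h1

/-- entry polynomial -/
noncomputable def ep (i N0 N1 s t n : ℕ) : Polynomial (PowerSeries ℤ) :=
  if s ≤ n + t then
    Polynomial.C (qq ^ tr s t * qq ^ (N0 - ∑ u ∈ range (n + t - s), (i + 1 + u - n)) *
      ∏ u ∈ Ico (n + t - s) N1, (1 - qq ^ (u + 1))) * ∏ u ∈ range (n + t - s), gf i n u
  else 0

lemma ep_eval {i N0 N1 s t n m : ℕ} (h0 : ∑ u ∈ range (n + t - s), (i + 1 + u - n) ≤ N0)
    (h1 : n + t - s ≤ N1) :
    (ep i N0 N1 s t n).eval (pt i m) = qq ^ N0 * dn N1 * ent qq s t n m := by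
  unfold ep ent
  split_ifs with h
  · obtain ⟨K, hK⟩ : ∃ K, n + t - s = K := ⟨_, rfl⟩
    rw [hK] at h0 h1 ⊢
    rw [Polynomial.eval_mul, Polynomial.eval_C, gf_prod_eval, ← qb_prod]
    have e1 : dn N1 = (∏ u ∈ range K, (1 - (qq : PowerSeries ℤ) ^ (u + 1))) *
        ∏ u ∈ Ico K N1, (1 - qq ^ (u + 1)) := by
      unfold dn
      rw [prod_range_mul_prod_Ico _ h1]
    have e2 : (qq : PowerSeries ℤ) ^ N0 = qq ^ (N0 - ∑ u ∈ range K, (i + 1 + u - n)) *
        qq ^ (∑ u ∈ range K, (i + 1 + u - n)) := by
      rw [← pow_add]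
      congr 1
      omega
    rw [e1, e2]
    ring
  · simp

lemma ep_dvd {i N0 N1 s t n : ℕ} (hs : s ≤ i) (hn : i + 1 ≤ n) :
    (1 + Polynomial.X : Polynomial (PowerSeries ℤ)) ∣ ep i N0 N1 s t n := by
  unfold ep
  split_ifs with h
  · refine Dvd.dvd.mul_left ?_ _
    have h1 : n - (i + 1) ∈ range (n + t - s) := mem_range.2 (by omega)
    refine dvd_trans ?_ (dvd_prod_of_mem _ h1)
    unfold gf
    rw [show i + 1 + (n - (i + 1)) - n = 0 by omega, show n - (i + 1 + (n - (i + 1))) = 0 by omega]
    simp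
  · exact dvd_zero _

/-- cancel a nonzero constant -/
lemma dvd_of_C_mul {R : Type*} [CommRing R] [IsDomain R] {c : R} (hc : c ≠ 0)
    {p f : Polynomial R} (hp : p.Monic) (h : p ∣ Polynomial.C c * f) : p ∣ f := by
  rw [← Polynomial.modByMonic_eq_zero_iff_dvd hp] at h ⊢
  rw [← Polynomial.smul_eq_C_mul, Polynomial.smul_modByMonic] at h
  exact (smul_eq_zero.1 h).resolve_left hc

variable {l n : ℕ}

/-- the determinant of the entry polynomials -/
theorem det_ep_eval {lam : Fin l → ℕ} (hn : ∀ s, lam s ≤ n) (i m : ℕ) :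
    (Matrix.det (Matrix.of fun s t : Fin l =>
      ep i ((n + l) * (i + 1 + (n + l))) (n + l) s t (lam s))).eval (pt i m) =
      (qq ^ ((n + l) * (i + 1 + (n + l))) * dn (n + l)) ^ l * DY qq m lam := by
  have h1 := (Polynomial.evalRingHom (pt i m)).map_det (Matrix.of fun s t : Fin l =>
      ep i ((n + l) * (i + 1 + (n + l))) (n + l) s t (lam s))
  rw [Polynomial.coe_evalRingHom] at h1
  rw [h1]
  have h2 : (Polynomial.evalRingHom (pt i m)).mapMatrix (Matrix.of fun s t : Fin l =>
      ep i ((n + l) * (i + 1 + (n + l))) (n + l) s t (lam s)) =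
      Matrix.of (fun s t => (fun _ : Fin l => qq ^ ((n + l) * (i + 1 + (n + l))) * dn (n + l)) s *
        (Matrix.of fun s t : Fin l => ent qq s t (lam s) m) s t) := by
    refine Matrix.ext fun s t => ?_
    rw [RingHom.mapMatrix_apply, Matrix.map_apply, Matrix.of_apply, Matrix.of_apply,
      Matrix.of_apply, Polynomial.coe_evalRingHom]
    have h3 := hn s
    have h4 := t.2
    refine ep_eval (i := i) (N1 := n + l) (s := s) (t := t) (n := lam s) (m := m) ?_ (by omega)
    calc ∑ u ∈ range (lam s + t - s), (i + 1 + u - lam s)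
        ≤ ∑ u ∈ range (lam s + t - s), (i + 1 + (n + l)) := by
          refine sum_le_sum fun u hu => ?_
          rw [mem_range] at hu
          omega
      _ = (lam s + t - s) * (i + 1 + (n + l)) := by rw [sum_const, card_range, smul_eq_mul]
      _ ≤ (n + l) * (i + 1 + (n + l)) := Nat.mul_le_mul_right _ (by omega)
  rw [h2, Matrix.det_mul_column, prod_const, card_univ, Fintype.card_fin]
  rfl

theorem det_ep_dvd {lam : Fin l → ℕ} {i k N0 N1 : ℕ} (hk : k ≤ l)
    (hk2 : ∀ s : Fin l, (s : ℕ) < k → (s : ℕ) ≤ i ∧ i + 1 ≤ lam s) :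
    (1 + Polynomial.X : Polynomial (PowerSeries ℤ)) ^ k ∣
      Matrix.det (Matrix.of fun s t : Fin l => ep i N0 N1 s t (lam s)) := by
  classical
  have h1 : ∀ s t : Fin l, ∃ c, ep i N0 N1 s t (lam s) =
      (if (s : ℕ) < k then (1 + Polynomial.X : Polynomial (PowerSeries ℤ)) else 1) * c := by
    intro s t
    by_cases hs : (s : ℕ) < k
    · rw [if_pos hs]
      exact ep_dvd (hk2 s hs).1 (hk2 s hs).2
    · rw [if_neg hs]
      exact ⟨_, (one_mul _).symm⟩
  choose c hc using h1
  have h2 : (Matrix.of fun s t : Fin l => ep i N0 N1 s t (lam s)) =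
      Matrix.of (fun s t => (fun s : Fin l => if (s : ℕ) < k then
        (1 + Polynomial.X : Polynomial (PowerSeries ℤ)) else 1) s * (Matrix.of c) s t) := by
    ext1 s t
    rw [Matrix.of_apply, Matrix.of_apply, Matrix.of_apply, hc s t]
  rw [h2, Matrix.det_mul_column]
  refine Dvd.dvd.mul_right ?_ _
  rw [prod_ite, prod_const, prod_const_one, mul_one]
  have h3 : (univ.filter (fun s : Fin l => (s : ℕ) < k)).card = k := by
    have h4 : univ.filter (fun s : Fin l => (s : ℕ) < k) =
        (univ : Finset (Fin k)).map (Fin.castLEEmb hk) := by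
      ext s
      rw [mem_filter, mem_map]
      constructor
      · rintro ⟨-, h⟩
        exact ⟨⟨s, h⟩, mem_univ _, Fin.ext rfl⟩
      · rintro ⟨a, -, rfl⟩
        exact ⟨mem_univ _, a.2⟩
    rw [h4, card_map, card_univ, Fintype.card_fin]
  rw [h3]

end pol

section young

variable {Q : Type u} [Fintype Q] [PartialOrder Q] [DecidableEq Q] {l n : ℕ}

/-- the polynomial `U_m` of a poset isomorphic to the cells of a Young shape -/
theorem U_young {lam : Fin l → ℕ} (h : Antitone lam)
    (e : Q ≃ {p : Fin l × Fin n // (p.2 : ℕ) < lam p.1})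
    (he : ∀ x y : Q, x ≤ y ↔ (e y : Fin l × Fin n) ≤ e x) (m : ℕ) :
    ((U Q m : Polynomial ℤ) : PowerSeries ℤ) = UY qq n m lam := by
  classical
  have h1 : ((U Q m : Polynomial ℤ) : PowerSeries ℤ) =
      ∑ σ ∈ univ.filter (fun σ : Q → Fin (m + 1) => Monotone σ), qq ^ (∑ x, (σ x : ℕ)) := by
    unfold U
    rw [← Polynomial.coeToPowerSeries.ringHom_apply, map_sum]
    refine sum_congr ?_ fun σ _ => ?_
    · ext σ
      simp
    · rw [map_pow]
      simp
  rw [h1]
  unfold UY
  refine sum_bij' (fun σ _ p => if hp : (p.2 : ℕ) < lam p.1 then (σ (e.symm ⟨p, hp⟩) : ℕ) else 0)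
    (fun f _ x => (⟨f (e x) % (m + 1), Nat.mod_lt _ (Nat.succ_pos m)⟩ : Fin (m + 1)))
    ?_ ?_ ?_ ?_ ?_
  · intro σ hσ
    rw [mem_filter] at hσ
    rw [mem_FY]
    refine ⟨fun p => ?_, fun p p' hp => ?_, fun p hp => ?_⟩
    · split_ifs with hp
      · have := (σ (e.symm ⟨p, hp⟩)).2
        omega
      · exact Nat.zero_le _
    · simp only
      by_cases hp' : (p'.2 : ℕ) < lam p'.1
      · have h2 : (p.2 : ℕ) < lam p.1 := by
          have h3 := h hp.1
          have h4 : (p.2 : ℕ) ≤ p'.2 := hp.2
          omega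
        rw [dif_pos hp', dif_pos h2]
        have h3 : e.symm ⟨p', hp'⟩ ≤ e.symm ⟨p, h2⟩ := by
          rw [he, Equiv.apply_symm_apply, Equiv.apply_symm_apply]
          exact hp
        exact hσ.2 h3
      · rw [dif_neg hp']
        exact Nat.zero_le _
    · rw [dif_neg (by omega)]
  · intro f hf
    rw [mem_FY] at hf
    rw [mem_filter]
    refine ⟨mem_univ _, fun x y hxy => ?_⟩
    rw [Fin.le_def]
    simp only
    rw [Nat.mod_eq_of_lt (by have := hf.1 (e x); omega),
      Nat.mod_eq_of_lt (by have := hf.1 (e y); omega)]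
    exact hf.2.1 ((he x y).1 hxy)
  · intro σ hσ
    funext x
    apply Fin.ext
    simp only
    rw [dif_pos (e x).2]
    have : e.symm ⟨(e x : Fin l × Fin n), (e x).2⟩ = x := e.symm_apply_apply x
    rw [this]
    exact Nat.mod_eq_of_lt (σ x).2
  · intro f hf
    rw [mem_FY] at hf
    funext p
    simp only
    split_ifs with hp
    · rw [Equiv.apply_symm_apply]
      have h3 := hf.1 p
      exact Nat.mod_eq_of_lt (show f p < m + 1 by omega)
    · exact (hf.2.2 p (by omega)).symm
  · intro σ hσ
    congr 1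
    have h2 : ∑ p : Fin l × Fin n, (if hp : (p.2 : ℕ) < lam p.1 then
        (σ (e.symm ⟨p, hp⟩) : ℕ) else 0) =
        ∑ p : {p : Fin l × Fin n // (p.2 : ℕ) < lam p.1}, (σ (e.symm p) : ℕ) := by
      have h3 : ∑ p : Fin l × Fin n, (if hp : (p.2 : ℕ) < lam p.1 then
          (σ (e.symm ⟨p, hp⟩) : ℕ) else 0) =
          ∑ p ∈ univ.filter (fun p : Fin l × Fin n => (p.2 : ℕ) < lam p.1),
          (if hp : (p.2 : ℕ) < lam p.1 then (σ (e.symm ⟨p, hp⟩) : ℕ) else 0) := by
        symm
        refine sum_subset (filter_subset _ _) fun p _ hp => ?_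
        rw [mem_filter, not_and] at hp
        rw [dif_neg (hp (mem_univ _))]
      rw [h3, Finset.sum_subtype (p := fun p : Fin l × Fin n => (p.2 : ℕ) < lam p.1) _
        (fun p => by rw [mem_filter]; simp)]
      refine sum_congr rfl fun p _ => ?_
      rw [dif_pos p.2]
    rw [h2]
    exact (Equiv.sum_comp e.symm (fun x => (σ x : ℕ))).symm

/-- the order of the window polynomial of a Young shape -/
theorem young_dvd {lam : Fin l → ℕ} (h : Antitone lam) (hn : ∀ s, lam s ≤ n)
    (e : Q ≃ {p : Fin l × Fin n // (p.2 : ℕ) < lam p.1})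
    (he : ∀ x y : Q, x ≤ y ↔ (e y : Fin l × Fin n) ≤ e x) {i k : ℕ} (hk : k ≤ l)
    (hk2 : ∀ s : Fin l, (s : ℕ) < k → (s : ℕ) ≤ i ∧ i + 1 ≤ lam s) :
    (1 + Polynomial.X : Polynomial (PowerSeries ℤ)) ^ k ∣ W Q i := by
  have hmon : ((1 + Polynomial.X : Polynomial (PowerSeries ℤ)) ^ k).Monic := by
    apply Polynomial.Monic.pow
    rw [add_comm]
    exact Polynomial.monic_X_add_C 1
  have hc : ((qq ^ ((n + l) * (i + 1 + (n + l))) * dn (n + l)) ^ l : PowerSeries ℤ) ≠ 0 :=
    pow_ne_zero _ (mul_ne_zero (pow_ne_zero _ qq_ne) (dn_ne _))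
  refine dvd_of_C_mul hc hmon ?_
  have key : Polynomial.C ((qq ^ ((n + l) * (i + 1 + (n + l))) * dn (n + l)) ^ l) * W Q i =
      Polynomial.C (qq ^ (i * Fintype.card Q)) * Matrix.det (Matrix.of fun s t : Fin l =>
        ep i ((n + l) * (i + 1 + (n + l))) (n + l) s t (lam s)) := by
    apply Polynomial.eq_of_infinite_eval_eq
    have hinj : Function.Injective (fun m : ℕ => pt i m) := by
      intro a b hab
      unfold pt at hab
      simp only [neg_inj] at hab
      have := congrArg PowerSeries.order hab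
      rw [PowerSeries.order_X_pow, PowerSeries.order_X_pow] at this
      have h2 : i + a + 1 = i + b + 1 := by exact_mod_cast this
      omega
    refine Set.infinite_of_injective_forall_mem hinj fun m => ?_
    simp only [Set.mem_setOf_eq]
    rw [Polynomial.eval_mul, Polynomial.eval_C, Polynomial.eval_mul, Polynomial.eval_C,
      det_ep_eval hn, ← UY_eq qq_ne _ m lam h hn le_rfl, ← U_young h e he m]
    have h3 : (W Q i).eval (pt i m) = qq ^ (i * Fintype.card Q) *
        ((U Q m : Polynomial ℤ) : PowerSeries ℤ) := W_eval i m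
    rw [h3]
    ring
  rw [key]
  exact Dvd.dvd.mul_left (det_ep_dvd hk hk2) _

end young

end Pool.Agent.GaussPoset.Yg

end

/-! From `Pool.Agent.W_448fy_h63.YE` -/

section

/-! Order of the window polynomial of a Young shape, coordinate form (MP_448cb3_co). -/

namespace Pool.Agent.GaussPoset.Yg

set_option linter.unusedSectionVars false

open Finset

universe u

variable {Q : Type u} [Fintype Q] [PartialOrder Q] [DecidableEq Q]

/-- `Q` has coordinates in a Young shape (the greatest cell is `(0,0)`), `k ≤ i + 1`, and the cell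
`(k - 1, i)` belongs to the shape (if `k > 0`): the window polynomial at `i` has order at least `k`. -/
theorem young_dvd_co (co : Q → ℕ × ℕ) (hinj : Function.Injective co)
    (hle : ∀ x y : Q, x ≤ y ↔ co y ≤ co x) (hlow : ∀ x : Q, ∀ c ≤ co x, ∃ y, co y = c)
    {i k : ℕ} (hk : k ≤ i + 1) (hcell : ∀ s, s + 1 = k → ∃ x, co x = (s, i)) :
    (1 + Polynomial.X : Polynomial (PowerSeries ℤ)) ^ k ∣ W Q i := by
  classical
  rcases Nat.eq_zero_or_pos k with rfl | hk0
  · rw [pow_zero]
    exact one_dvd _
  obtain ⟨x0, hx0⟩ := hcell (k - 1) (by omega)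
  set l := (univ : Finset Q).sup (fun x => (co x).1 + 1) with hl
  set n := (univ : Finset Q).sup (fun x => (co x).2 + 1) with hn
  have hl1 : ∀ x : Q, (co x).1 < l := fun x =>
    Nat.lt_of_succ_le (le_sup (f := fun x : Q => (co x).1 + 1) (mem_univ x))
  have hn1 : ∀ x : Q, (co x).2 < n := fun x =>
    Nat.lt_of_succ_le (le_sup (f := fun x : Q => (co x).2 + 1) (mem_univ x))
  let lam : Fin l → ℕ := fun s => ((range n).filter (fun c => ∃ x, co x = ((s : ℕ), c))).card
  have hfil : ∀ s : Fin l, ∀ c : ℕ, (∃ x, co x = ((s : ℕ), c)) ↔ c < lam s := by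
    intro s c
    have h1 : ∀ c c' : ℕ, c' ≤ c → (∃ x, co x = ((s : ℕ), c)) → ∃ x, co x = ((s : ℕ), c') := by
      rintro c c' hc ⟨x, hx⟩
      exact hlow x _ (by rw [hx]; exact ⟨le_rfl, hc⟩)
    constructor
    · intro h
      have h2 : range (c + 1) ⊆ (range n).filter (fun c => ∃ x, co x = ((s : ℕ), c)) := by
        intro c' hc'
        rw [mem_range] at hc'
        obtain ⟨x, hx⟩ := h1 c c' (by omega) h
        rw [mem_filter, mem_range]
        refine ⟨?_, x, hx⟩
        have := hn1 x
        rw [hx] at this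
        exact this
      have h3 := card_le_card h2
      rw [card_range] at h3
      exact h3
    · intro h
      by_contra hcon
      have h2 : (range n).filter (fun c => ∃ x, co x = ((s : ℕ), c)) ⊆ range c := by
        intro c' hc'
        rw [mem_filter] at hc'
        rw [mem_range]
        by_contra h3
        exact hcon (h1 c' c (by omega) hc'.2)
      have h3 := card_le_card h2
      rw [card_range] at h3
      have h4 : lam s ≤ c := h3
      omega
  have hanti : Antitone lam := by
    intro s s' hs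
    by_contra hcon
    obtain ⟨x, hx⟩ := (hfil s' (lam s)).2 (by omega)
    obtain ⟨y, hy⟩ := hlow x ((s : ℕ), lam s) (by rw [hx]; exact ⟨hs, le_rfl⟩)
    have := (hfil s (lam s)).1 ⟨y, hy⟩
    omega
  have hlen : ∀ s, lam s ≤ n := by
    intro s
    have h1 := card_filter_le (range n) (fun c => ∃ x, co x = ((s : ℕ), c))
    rw [card_range] at h1
    exact h1
  let toF : Q → {p : Fin l × Fin n // (p.2 : ℕ) < lam p.1} := fun x =>
    ⟨(⟨(co x).1, hl1 x⟩, ⟨(co x).2, hn1 x⟩), (hfil ⟨(co x).1, hl1 x⟩ (co x).2).1 ⟨x, rfl⟩⟩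
  have hbij : Function.Bijective toF := by
    constructor
    · intro x y hxy
      have h1 := congrArg (fun p => ((p.1.1 : ℕ), (p.1.2 : ℕ))) hxy
      exact hinj h1
    · rintro ⟨⟨s, c⟩, hp⟩
      obtain ⟨x, hx⟩ := (hfil s c).2 hp
      refine ⟨x, ?_⟩
      apply Subtype.ext
      apply Prod.ext
      · apply Fin.ext
        change (co x).1 = s
        rw [hx]
      · apply Fin.ext
        change (co x).2 = c
        rw [hx]
  have hx1 := hl1 x0
  rw [hx0] at hx1
  refine young_dvd hanti hlen (Equiv.ofBijective toF hbij) ?_ (i := i) (k := k) ?_ ?_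
  · intro x y
    rw [hle]
    rfl
  · simp only at hx1
    omega
  · intro s hs
    refine ⟨by omega, ?_⟩
    obtain ⟨y, hy⟩ := hlow x0 ((s : ℕ), i) (by
      rw [hx0]
      exact ⟨by simp only; omega, le_rfl⟩)
    exact (hfil s i).1 ⟨y, hy⟩

end Pool.Agent.GaussPoset.Yg

end

/-! From `Pool.Agent.W_448fs_h63.SA` -/

section

/-! Shifted diagrams: the alternating sum `Psi` and its recursion (MP_448cb3_co). -/

namespace Pool.Agent.GaussPoset.Yg

set_option linter.unusedSectionVars false

open Finset Matrix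

section alg

variable {R : Type*} [CommRing R] {n : ℕ}

/-- generating function of a row of length `k` whose first entry is `l - c` (without the first
entry); for `k = 0` the indicator of `l = c` -/
def GF (q : R) (k c l : ℕ) : R :=
  match k with
  | 0 => if l = c then 1 else 0
  | κ + 1 => if c ≤ l then qb q (l - c + κ) κ else 0

lemma GF_zero (q : R) (c l : ℕ) : GF q 0 c l = if l = c then 1 else 0 := rfl

lemma GF_succ (q : R) (κ c l : ℕ) :
    GF q (κ + 1) c l = if c ≤ l then qb q (l - c + κ) κ else 0 := rfl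

lemma GF_lt (q : R) (k c l : ℕ) (h : l < c) : GF q k c l = 0 := by
  cases k with
  | zero => rw [GF_zero, if_neg (by omega)]
  | succ κ => rw [GF_succ, if_neg (by omega)]

lemma GF_self (q : R) (k c : ℕ) : GF q k c c = 1 := by
  cases k with
  | zero => rw [GF_zero, if_pos rfl]
  | succ κ => rw [GF_succ, if_pos le_rfl, Nat.sub_self, Nat.zero_add, qb_self]

lemma GF_shift (q : R) (k c l : ℕ) : GF q k (c + 1) (l + 1) = GF q k c l := by
  cases k with
  | zero =>
    rw [GF_zero, GF_zero]
    by_cases h : l = c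
    · rw [if_pos h, if_pos (by omega)]
    · rw [if_neg h, if_neg (by omega)]
  | succ κ =>
    rw [GF_succ, GF_succ]
    by_cases h : c ≤ l
    · rw [if_pos h, if_pos (by omega), show l + 1 - (c + 1) = l - c by omega]
    · rw [if_neg h, if_neg (by omega)]

/-- removing the last cell of a row -/
lemma GF_sub (q : R) (κ c l : ℕ) :
    GF q (κ + 1) c (l + 1) - GF q κ c (l + 1) = q ^ κ * GF q (κ + 1) c l := by
  cases κ with
  | zero =>
    rw [GF_succ, GF_succ, GF_zero, qb_zero, qb_zero, pow_zero, one_mul]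
    rcases Nat.lt_trichotomy c (l + 1) with h | h | h
    · rw [if_pos h.le, if_neg (by omega), if_pos (by omega), sub_zero]
    · rw [if_pos h.le, if_pos h.symm, if_neg (by omega), sub_self]
    · rw [if_neg (by omega), if_neg (by omega), if_neg (by omega), sub_zero]
  | succ κ =>
    rw [GF_succ, GF_succ, GF_succ]
    rcases Nat.lt_trichotomy c (l + 1) with h | h | h
    · rw [if_pos h.le, if_pos h.le, if_pos (by omega),
        show l + 1 - c + (κ + 1) = (l - c + (κ + 1)) + 1 by omega,
        show l + 1 - c + κ = l - c + (κ + 1) by omega, qb_succ]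
      ring
    · rw [if_pos h.le, if_pos h.le, if_neg (by omega), h, Nat.sub_self, Nat.zero_add, Nat.zero_add,
        qb_self, qb_self]
      ring
    · rw [if_neg (by omega), if_neg (by omega), if_neg (by omega)]
      ring

lemma GF_sub_zero (q : R) (κ c : ℕ) : GF q (κ + 1) c 0 - GF q κ c 0 = 0 := by
  rcases Nat.eq_zero_or_pos c with rfl | hc
  · rw [GF_self, GF_self, sub_self]
  · rw [GF_lt q _ c 0 hc, GF_lt q _ c 0 hc, sub_self]

/-- rows which end in a corner, shifted case -/
def corS (lam : Fin n → ℕ) : Finset (Fin n) :=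
  univ.filter (fun s => 1 ≤ lam s ∧ ∀ h : (s : ℕ) + 1 < n, lam ⟨s + 1, h⟩ + 1 < lam s)

/-- the alternating sum -/
noncomputable def Psi (q : R) (n m : ℕ) (lam : Fin n → ℕ) : R := by
  classical exact
  ∑ l ∈ (univ : Finset (Fin n → Fin (m + n))).filter (fun l => StrictAnti l),
    q ^ (∑ b, (l b : ℕ)) * Matrix.det (Matrix.of fun a b : Fin n => GF q (lam a) (n - 1 - a) (l b))

/-- the upper triangular matrix of the row operations, shifted case -/
def US (q : R) (lam : Fin n → ℕ) : Matrix (Fin n) (Fin n) R :=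
  Matrix.of fun s u => if u = s then q ^ (lam s - 1) else
    if (u : ℕ) = s + 1 then (if s ∈ corS lam then 0 else 1) else 0

lemma det_US (q : R) (lam : Fin n → ℕ) : (US q lam).det = q ^ ∑ s, (lam s - 1) := by
  have h : (US q lam).BlockTriangular id := by
    intro a b hab
    rw [id, id, Fin.lt_def] at hab
    unfold US
    rw [Matrix.of_apply, if_neg (by rintro rfl; omega), if_neg (by omega)]
  rw [Matrix.det_of_upperTriangular h, ← prod_pow_eq_pow_sum]
  refine prod_congr rfl fun s _ => ?_
  unfold US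
  rw [Matrix.of_apply, if_pos rfl]

lemma corS_not {lam : Fin n → ℕ} (h : StrictAnti lam) (h1 : ∀ s, 1 ≤ lam s) {s : Fin n}
    (hs : s ∉ corS lam) : ∃ h : (s : ℕ) + 1 < n, lam s = lam ⟨s + 1, h⟩ + 1 := by
  unfold corS at hs
  rw [mem_filter, not_and, not_and] at hs
  have h2 := hs (mem_univ _) (h1 s)
  push Not at h2
  obtain ⟨h3, h4⟩ := h2
  refine ⟨h3, ?_⟩
  have h5 : lam ⟨s + 1, h3⟩ < lam s := h (by rw [Fin.lt_def]; simp)
  omega

lemma row_relS (q : R) {lam : Fin n → ℕ} (h : StrictAnti lam) (h1 : ∀ s, 1 ≤ lam s) (s : Fin n)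
    (l : ℕ) :
    GF q (lam s) (n - 1 - s) (l + 1) -
        (if s ∈ corS lam then GF q (lam s - 1) (n - 1 - s) (l + 1) else 0) =
      ∑ u, US q lam s u * GF q (lam u) (n - 1 - u) l := by
  have hsplit : ∑ u, US q lam s u * GF q (lam u) (n - 1 - u) l =
      q ^ (lam s - 1) * GF q (lam s) (n - 1 - s) l +
      (if hs : (s : ℕ) + 1 < n then (if s ∈ corS lam then 0 else
        GF q (lam ⟨s + 1, hs⟩) (n - 1 - (s + 1)) l) else 0) := by
    rw [← add_sum_erase univ _ (mem_univ s)]
    congr 1
    · unfold US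
      rw [Matrix.of_apply, if_pos rfl]
    · by_cases hs : (s : ℕ) + 1 < n
      · rw [dif_pos hs]
        rw [sum_eq_single (⟨(s : ℕ) + 1, hs⟩ : Fin n)]
        · unfold US
          rw [Matrix.of_apply, if_neg (by rw [Fin.ext_iff]; simp), if_pos rfl]
          split_ifs <;> ring
        · intro u hu hu2
          rw [mem_erase] at hu
          unfold US
          rw [Matrix.of_apply, if_neg hu.1, if_neg (by
            intro h1
            exact hu2 (Fin.ext h1)), zero_mul]
        · intro h1
          exact absurd (mem_erase.2 ⟨by rw [ne_eq, Fin.ext_iff]; simp, mem_univ _⟩) h1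
      · rw [dif_neg hs]
        refine sum_eq_zero fun u hu => ?_
        rw [mem_erase] at hu
        unfold US
        rw [Matrix.of_apply, if_neg hu.1, if_neg (by have := u.2; omega), zero_mul]
  rw [hsplit]
  have h2 := h1 s
  obtain ⟨κ, hκ⟩ : ∃ κ, lam s = κ + 1 := ⟨lam s - 1, by omega⟩
  have h3 := GF_sub q κ (n - 1 - s) l
  rw [hκ, Nat.add_sub_cancel]
  by_cases hc : s ∈ corS lam
  · simp only [if_pos hc]
    split_ifs <;> linear_combination h3
  · obtain ⟨h4, h5⟩ := corS_not h h1 hc
    simp only [if_neg hc]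
    rw [dif_pos h4, sub_zero]
    have h6 : lam ⟨s + 1, h4⟩ = κ := by omega
    have h7 := GF_shift q κ (n - 1 - (s + 1)) l
    rw [show n - 1 - ((s : ℕ) + 1) + 1 = n - 1 - s by omega] at h7
    rw [h6]
    linear_combination h3 + h7

lemma row_relS_zero (q : R) {lam : Fin n → ℕ} (h : StrictAnti lam) (h1 : ∀ s, 1 ≤ lam s)
    (s : Fin n) :
    GF q (lam s) (n - 1 - s) 0 -
        (if s ∈ corS lam then GF q (lam s - 1) (n - 1 - s) 0 else 0) = 0 := by
  have h2 := h1 s
  obtain ⟨κ, hκ⟩ : ∃ κ, lam s = κ + 1 := ⟨lam s - 1, by omega⟩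
  by_cases hc : s ∈ corS lam
  · rw [if_pos hc, hκ, Nat.add_sub_cancel, GF_sub_zero]
  · obtain ⟨h4, h5⟩ := corS_not h h1 hc
    rw [if_neg hc, GF_lt q _ _ 0 (by omega), sub_zero]

/-- expansion of the determinant of differences of rows -/
lemma det_diff (q : R) (lam : Fin n → ℕ) (C : Finset (Fin n)) (c : Fin n → ℕ) (l : Fin n → ℕ) :
    Matrix.det (Matrix.of fun s b : Fin n => GF q (lam s) (c s) (l b) -
        (if s ∈ C then GF q (lam s - 1) (c s) (l b) else 0)) =
      ∑ T ∈ C.powerset, (-1) ^ T.card *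
        Matrix.det (Matrix.of fun s b : Fin n => GF q (subT lam T s) (c s) (l b)) := by
  classical
  set a : Fin n → Fin n → R := fun s b => GF q (lam s) (c s) (l b) with ha
  set b : Fin n → Fin n → R := fun s b => if s ∈ C then -GF q (lam s - 1) (c s) (l b) else 0 with hb
  have h0 : (Matrix.of fun s b : Fin n => GF q (lam s) (c s) (l b) -
        (if s ∈ C then GF q (lam s - 1) (c s) (l b) else 0)) = Matrix.of (b + a) := by
    refine Matrix.ext fun s t => ?_
    rw [Matrix.of_apply, Matrix.of_apply, Pi.add_apply, Pi.add_apply, ha, hb]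
    by_cases hs : s ∈ C
    · simp only [if_pos hs]; ring
    · simp only [if_neg hs]; ring
  have h1 : Matrix.det (Matrix.of (b + a)) =
      ∑ T : Finset (Fin n), Matrix.det (Matrix.of (T.piecewise b a)) :=
    (Matrix.detRowAlternating (n := Fin n) (R := R)).toMultilinearMap.map_add_univ b a
  have h2 : ∀ T : Finset (Fin n), Matrix.det (Matrix.of (T.piecewise b a)) =
      if T ∈ C.powerset then (-1) ^ T.card *
        Matrix.det (Matrix.of fun s b : Fin n => GF q (subT lam T s) (c s) (l b)) else 0 := by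
    intro T
    by_cases hT : T ⊆ C
    · rw [if_pos (mem_powerset.2 hT)]
      have e1 : (Matrix.of (T.piecewise b a) : Matrix (Fin n) (Fin n) R) =
          Matrix.of (fun s t => (if s ∈ T then (-1 : R) else 1) *
            (Matrix.of fun s b : Fin n => GF q (subT lam T s) (c s) (l b)) s t) := by
        refine Matrix.ext fun s t => ?_
        rw [Matrix.of_apply, Matrix.of_apply, Matrix.of_apply]
        by_cases hs : s ∈ T
        · rw [Finset.piecewise_eq_of_mem _ _ _ hs, if_pos hs, hb]
          simp only [if_pos (hT hs)]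
          unfold subT
          rw [if_pos hs]
          ring
        · rw [Finset.piecewise_eq_of_notMem _ _ _ hs, if_neg hs, ha]
          unfold subT
          rw [if_neg hs]
          ring
      rw [e1, Matrix.det_mul_column]
      congr 1
      rw [Finset.prod_ite_mem, Finset.univ_inter, Finset.prod_const]
    · rw [if_neg (fun h3 => hT (mem_powerset.1 h3))]
      obtain ⟨s, hs, hs2⟩ := Finset.not_subset.1 hT
      refine Matrix.det_eq_zero_of_row_eq_zero s fun t => ?_
      rw [Matrix.of_apply, Finset.piecewise_eq_of_mem _ _ _ hs, hb]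
      simp only [if_neg hs2]
  rw [h0, h1, Finset.sum_congr rfl (fun T _ => h2 T), Finset.sum_ite_mem, Finset.univ_inter]

/-- the recursion of the alternating sum -/
theorem Psi_rec (q : R) {m : ℕ} {lam : Fin n → ℕ} (h : StrictAnti lam) (h1 : ∀ s, 1 ≤ lam s) :
    ∑ T ∈ (corS lam).powerset, (-1) ^ T.card * Psi q n (m + 1) (subT lam T) =
      q ^ (∑ s, lam s) * Psi q n m lam := by
  classical
  have e1 : ∑ T ∈ (corS lam).powerset, (-1) ^ T.card * Psi q n (m + 1) (subT lam T) =
      ∑ l ∈ (univ : Finset (Fin n → Fin (m + 1 + n))).filter (fun l => StrictAnti l),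
        q ^ (∑ b, (l b : ℕ)) * Matrix.det (Matrix.of fun s b : Fin n =>
          GF q (lam s) (n - 1 - s) (l b) -
          (if s ∈ corS lam then GF q (lam s - 1) (n - 1 - s) (l b) else 0)) := by
    unfold Psi
    simp only [mul_sum]
    rw [sum_comm]
    refine sum_congr rfl fun l _ => ?_
    rw [det_diff q lam (corS lam) (fun s => n - 1 - s) (fun b => (l b : ℕ)), mul_sum]
    refine sum_congr rfl fun T _ => ?_
    ring
  rw [e1]
  -- only the labels without zero contribute
  rw [← sum_filter_add_sum_filter_not _ (fun l : Fin n → Fin (m + 1 + n) => ∀ b, 1 ≤ (l b : ℕ))]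
  have e2 : ∑ l ∈ ((univ : Finset (Fin n → Fin (m + 1 + n))).filter (fun l => StrictAnti l)).filter
      (fun l => ¬ ∀ b, 1 ≤ (l b : ℕ)),
        q ^ (∑ b, (l b : ℕ)) * Matrix.det (Matrix.of fun s b : Fin n =>
          GF q (lam s) (n - 1 - s) (l b) -
          (if s ∈ corS lam then GF q (lam s - 1) (n - 1 - s) (l b) else 0)) = 0 := by
    refine sum_eq_zero fun l hl => ?_
    have hl2 := (mem_filter.1 hl).2
    push Not at hl2
    obtain ⟨b, hb⟩ := hl2
    rw [Matrix.det_eq_zero_of_column_eq_zero b, mul_zero]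
    intro s
    rw [Matrix.of_apply, show ((l b : ℕ)) = 0 by omega]
    exact row_relS_zero q h h1 s
  rw [e2, add_zero]
  unfold Psi
  rw [mul_sum]
  refine sum_bij' (fun l _ b => (⟨(l b : ℕ) - 1, by have := (l b).2; have := b.2; omega⟩ : Fin (m + n)))
    (fun l _ b => (⟨(l b : ℕ) + 1, by have := (l b).2; omega⟩ : Fin (m + 1 + n))) ?_ ?_ ?_ ?_ ?_
  · intro l hl
    rw [mem_filter, mem_filter] at hl
    rw [mem_filter]
    refine ⟨mem_univ _, fun a b hab => ?_⟩
    have h2 : (l b : ℕ) < l a := hl.1.2 hab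
    have h3 := hl.2 b
    rw [Fin.lt_def]
    simp only
    omega
  · intro l hl
    rw [mem_filter] at hl
    rw [mem_filter, mem_filter]
    refine ⟨⟨mem_univ _, fun a b hab => ?_⟩, fun b => by simp⟩
    have h2 : (l b : ℕ) < l a := hl.2 hab
    rw [Fin.lt_def]
    simp only
    omega
  · intro l hl
    rw [mem_filter, mem_filter] at hl
    funext b
    apply Fin.ext
    have h3 := hl.2 b
    simp only
    omega
  · intro l hl
    funext b
    apply Fin.ext
    simp
  · intro l hl
    rw [mem_filter, mem_filter] at hl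
    have h3 : (Matrix.of fun s b : Fin n => GF q (lam s) (n - 1 - s) (l b) -
          (if s ∈ corS lam then GF q (lam s - 1) (n - 1 - s) (l b) else 0)) =
        US q lam * (Matrix.of fun u b : Fin n => GF q (lam u) (n - 1 - u) ((l b : ℕ) - 1)) := by
      refine Matrix.ext fun s b => ?_
      rw [Matrix.mul_apply, Matrix.of_apply]
      simp only [Matrix.of_apply]
      rw [← row_relS q h h1 s ((l b : ℕ) - 1)]
      have h4 := hl.2 b
      rw [show (l b : ℕ) - 1 + 1 = l b by omega]
    rw [h3, Matrix.det_mul, det_US]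
    have h5 : ∑ b, (l b : ℕ) + ∑ s, (lam s - 1) = ∑ s, lam s + ∑ b, ((l b : ℕ) - 1) := by
      rw [← sum_add_distrib, ← sum_add_distrib]
      refine sum_congr rfl fun b _ => ?_
      have h6 := hl.2 b
      have h7 := h1 b
      omega
    simp only
    rw [← mul_assoc, ← mul_assoc, ← pow_add, ← pow_add, h5]

end alg

end Pool.Agent.GaussPoset.Yg

end

/-! From `Pool.Agent.W_448fs_h63.SB` -/

section

/-! Shifted diagrams: bound zero and empty last row of the alternating sum (MP_448cb3_co). -/

namespace Pool.Agent.GaussPoset.Yg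

set_option linter.unusedSectionVars false

open Finset Matrix

section alg

variable {R : Type*} [CommRing R] {n : ℕ}

lemma anti_bounds {N : ℕ} {l : Fin n → Fin N} (hl : StrictAnti l) :
    (∀ b : Fin n, (l b : ℕ) + b + 1 ≤ N) ∧ ∀ b : Fin n, n ≤ (l b : ℕ) + b + 1 := by
  constructor
  · have key : ∀ k : ℕ, ∀ h : k < n, (l ⟨k, h⟩ : ℕ) + k + 1 ≤ N := by
      intro k
      induction k with
      | zero =>
        intro h
        have := (l ⟨0, h⟩).2
        omega
      | succ k ih =>
        intro h
        have h1 := ih (by omega)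
        have h2 : (l ⟨k + 1, h⟩ : ℕ) < l ⟨k, by omega⟩ := hl (by rw [Fin.lt_def]; simp)
        omega
    intro b
    exact key b b.2
  · have key : ∀ d : ℕ, ∀ k : ℕ, ∀ h : k < n, k + d + 1 = n → n ≤ (l ⟨k, h⟩ : ℕ) + k + 1 := by
      intro d
      induction d with
      | zero =>
        intro k h hk
        omega
      | succ d ih =>
        intro k h hk
        have h1 := ih (k + 1) (by omega) (by omega)
        have h2 : (l ⟨k + 1, by omega⟩ : ℕ) < l ⟨k, h⟩ := hl (by rw [Fin.lt_def]; simp)
        omega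
    intro b
    exact key (n - 1 - b) b b.2 (by have := b.2; omega)

/-- bound zero -/
theorem Psi_m0 (q : R) (lam : Fin n → ℕ) : Psi q n 0 lam = q ^ ∑ b : Fin n, (n - 1 - b) := by
  classical
  unfold Psi
  have h1 : (univ : Finset (Fin n → Fin (0 + n))).filter (fun l => StrictAnti l) =
      {fun b => ⟨n - 1 - b, by have := b.2; omega⟩} := by
    ext l
    rw [mem_filter, mem_singleton]
    constructor
    · rintro ⟨-, h⟩
      have h2 := anti_bounds h
      funext b
      apply Fin.ext
      have h3 := h2.1 b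
      have h4 := h2.2 b
      simp only
      omega
    · rintro rfl
      refine ⟨mem_univ _, fun a b hab => ?_⟩
      rw [Fin.lt_def] at hab ⊢
      have := b.2
      simp only
      omega
  rw [h1, sum_singleton]
  have h2 : Matrix.det (Matrix.of fun a b : Fin n => GF q (lam a) (n - 1 - a) (n - 1 - b)) = 1 := by
    have h : (Matrix.of fun a b : Fin n =>
        GF q (lam a) (n - 1 - a) (n - 1 - b)).BlockTriangular OrderDual.toDual := by
      intro a b hab
      have hab2 : a < b := hab
      rw [Fin.lt_def] at hab2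
      have := b.2
      rw [Matrix.of_apply, GF_lt q _ _ _ (by omega)]
    rw [Matrix.det_of_lowerTriangular _ h]
    refine prod_eq_one fun s _ => ?_
    rw [Matrix.of_apply, GF_self]
  simp only
  rw [h2, mul_one]

/-- an empty last row can be removed -/
theorem Psi_last (q : R) (m : ℕ) (lam : Fin (n + 1) → ℕ) (h0 : lam (Fin.last n) = 0) :
    Psi q (n + 1) m lam = q ^ n * Psi q n m (fun a => lam a.castSucc) := by
  classical
  unfold Psi
  rw [← sum_filter_add_sum_filter_not _
    (fun l : Fin (n + 1) → Fin (m + (n + 1)) => (l (Fin.last n) : ℕ) = 0)]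
  have e2 : ∑ l ∈ ((univ : Finset (Fin (n + 1) → Fin (m + (n + 1)))).filter
      (fun l => StrictAnti l)).filter (fun l => ¬ (l (Fin.last n) : ℕ) = 0),
      q ^ (∑ b, (l b : ℕ)) * Matrix.det (Matrix.of fun a b : Fin (n + 1) =>
        GF q (lam a) (n + 1 - 1 - a) (l b)) = 0 := by
    refine sum_eq_zero fun l hl => ?_
    rw [mem_filter, mem_filter] at hl
    have h1 := (anti_bounds hl.1.2).2
    rw [Matrix.det_eq_zero_of_row_eq_zero (Fin.last n), mul_zero]
    intro b
    rw [Matrix.of_apply, h0, GF_zero, if_neg]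
    rw [Fin.val_last, Nat.add_sub_cancel, Nat.sub_self]
    intro h2
    have h3 := h1 b
    have h4 := b.2
    have h5 : b = Fin.last n := Fin.ext (by rw [Fin.val_last]; omega)
    rw [h5] at h2
    exact hl.2 h2
  rw [e2, add_zero, mul_sum]
  refine sum_bij' (fun l _ b => (⟨(l b.castSucc : ℕ) - 1, by
      have := (l b.castSucc).2; have := b.2; omega⟩ : Fin (m + n)))
    (fun l _ b => (⟨if h : (b : ℕ) < n then (l ⟨b, h⟩ : ℕ) + 1 else 0, by
      split_ifs with h
      · have := (l ⟨b, h⟩).2
        omega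
      · omega⟩ : Fin (m + (n + 1)))) ?_ ?_ ?_ ?_ ?_
  · intro l hl
    rw [mem_filter, mem_filter] at hl
    rw [mem_filter]
    have h1 := (anti_bounds hl.1.2).2
    refine ⟨mem_univ _, fun a b hab => ?_⟩
    have h2 : (l b.castSucc : ℕ) < l a.castSucc := hl.1.2 (by
      rw [Fin.lt_def] at hab ⊢
      simpa using hab)
    have h3 := h1 b.castSucc
    have h4 := b.2
    rw [Fin.val_castSucc] at h3
    rw [Fin.lt_def]
    simp only
    omega
  · intro l hl
    rw [mem_filter] at hl
    rw [mem_filter, mem_filter]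
    refine ⟨⟨mem_univ _, fun a b hab => ?_⟩, ?_⟩
    · rw [Fin.lt_def] at hab ⊢
      simp only
      have hb := b.2
      rw [dif_pos (show (a : ℕ) < n by omega)]
      split_ifs with h
      · have h2 : (l ⟨b, h⟩ : ℕ) < l ⟨a, by omega⟩ := hl.2 (by rw [Fin.lt_def]; exact hab)
        omega
      · omega
    · simp
  · intro l hl
    rw [mem_filter, mem_filter] at hl
    have h1 := (anti_bounds hl.1.2).2
    funext b
    apply Fin.ext
    simp only
    split_ifs with h
    · have h3 := h1 b
      have h5 : (⟨(b : ℕ), h⟩ : Fin n).castSucc = b := Fin.ext rfl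
      rw [h5]
      omega
    · have h4 := b.2
      have h5 : b = Fin.last n := Fin.ext (by rw [Fin.val_last]; omega)
      rw [h5]
      exact hl.2.symm
  · intro l hl
    funext b
    apply Fin.ext
    simp
  · intro l hl
    rw [mem_filter, mem_filter] at hl
    have h1 := (anti_bounds hl.1.2).2
    have hpos : ∀ b : Fin n, 1 ≤ (l b.castSucc : ℕ) := by
      intro b
      have h3 := h1 b.castSucc
      rw [Fin.val_castSucc] at h3
      have := b.2
      omega
    have h2 : Matrix.det (Matrix.of fun a b : Fin (n + 1) => GF q (lam a) (n + 1 - 1 - a) (l b)) =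
        Matrix.det (Matrix.of fun a b : Fin n =>
          GF q (lam a.castSucc) (n - 1 - a) ((l b.castSucc : ℕ) - 1)) := by
      rw [Matrix.det_succ_row _ (Fin.last n), sum_eq_single (Fin.last n)]
      · rw [Matrix.of_apply, h0, hl.2, Fin.val_last, Nat.add_sub_cancel, Nat.sub_self, GF_self,
          ← two_mul, pow_mul, neg_one_sq, one_pow, one_mul, one_mul]
        congr 1
        refine Matrix.ext fun a b => ?_
        rw [Matrix.submatrix_apply, Matrix.of_apply, Matrix.of_apply, Fin.succAbove_last,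
          Fin.val_castSucc]
        have h3 := GF_shift q (lam a.castSucc) (n - 1 - a) ((l b.castSucc : ℕ) - 1)
        have h4 := hpos b
        have h5 := a.2
        rw [← h3]
        congr 1 <;> omega
      · intro b _ hb
        rw [Matrix.of_apply, h0, GF_zero, if_neg]
        · ring
        · rw [Fin.val_last, Nat.add_sub_cancel, Nat.sub_self]
          intro h3
          have h4 := h1 b
          have h5 := b.2
          exact hb (Fin.ext (by rw [Fin.val_last]; omega))
      · intro h
        exact absurd (mem_univ _) h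
    rw [h2, Fin.sum_univ_castSucc, hl.2, add_zero, ← mul_assoc, ← pow_add]
    congr 2
    have h6 : ∑ b : Fin n, (l b.castSucc : ℕ) = ∑ b : Fin n, (((l b.castSucc : ℕ) - 1) + 1) :=
      sum_congr rfl fun b _ => by have := hpos b; omega
    rw [h6, sum_add_distrib, sum_const, card_univ, Fintype.card_fin, smul_eq_mul, mul_one, add_comm]

lemma Psi_n0 (q : R) (m : ℕ) (lam : Fin 0 → ℕ) : Psi q 0 m lam = 1 := by
  classical
  unfold Psi
  have h1 : (univ : Finset (Fin 0 → Fin (m + 0))).filter (fun l => StrictAnti l) =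
      {fun b => b.elim0} := by
    ext l
    rw [mem_filter, mem_singleton]
    constructor
    · intro _
      exact Subsingleton.elim _ _
    · intro _
      exact ⟨mem_univ _, fun a => a.elim0⟩
  rw [h1, sum_singleton]
  simp

end alg

end Pool.Agent.GaussPoset.Yg

end

/-! From `Pool.Agent.W_448fs_h63.SC` -/

section

/-! Plane partitions of a shifted shape and the alternating sum (MP_448cb3_co). -/

namespace Pool.Agent.GaussPoset.Yg

set_option linter.unusedSectionVars false

open Finset

section cnt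

variable {n w : ℕ}

/-- order of the cells of a shifted shape: the second coordinate is the offset from the diagonal -/
def leS (p p' : Fin n × Fin w) : Prop :=
  (p.1 : ℕ) ≤ p'.1 ∧ (p.1 : ℕ) + p.2 ≤ (p'.1 : ℕ) + p'.2

open Classical in
/-- arrays with entries at most `m`, weakly decreasing, zero outside the shape -/
noncomputable def FS (w m : ℕ) (lam : Fin n → ℕ) : Finset (Fin n × Fin w → ℕ) :=
  (Fintype.piFinset fun _ => range (m + 1)).filter
    (fun f => (∀ p p', leS p p' → f p' ≤ f p) ∧ ∀ p, lam p.1 ≤ p.2 → f p = 0)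

lemma mem_FS {m : ℕ} {lam : Fin n → ℕ} {f : Fin n × Fin w → ℕ} :
    f ∈ FS w m lam ↔ (∀ p, f p ≤ m) ∧ (∀ p p', leS p p' → f p' ≤ f p) ∧
      ∀ p, lam p.1 ≤ p.2 → f p = 0 := by
  classical
  unfold FS
  rw [mem_filter, Fintype.mem_piFinset]
  simp only [mem_range, Nat.lt_succ_iff]

/-- generating function -/
noncomputable def USg {R : Type*} [CommRing R] (q : R) (w m : ℕ) (lam : Fin n → ℕ) : R :=
  ∑ f ∈ FS w m lam, q ^ ∑ p, f p

variable {lam : Fin n → ℕ}

lemma corS_pos {s : Fin n} (hs : s ∈ corS lam) : 1 ≤ lam s := (mem_filter.1 hs).2.1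

lemma sa_add (h : StrictAnti lam) {s s' : Fin n} (hs : s ≤ s') :
    (s' : ℕ) + lam s' ≤ s + lam s := by
  have key : ∀ d : ℕ, ∀ k : ℕ, ∀ h2 : k + d < n,
      (k + d) + lam ⟨k + d, h2⟩ ≤ k + lam ⟨k, by omega⟩ := by
    intro d
    induction d with
    | zero => intro k h2; exact le_rfl
    | succ d ih =>
      intro k h2
      have h3 := ih k (by omega)
      have h4 : lam ⟨k + (d + 1), h2⟩ < lam ⟨k + d, by omega⟩ := h (by rw [Fin.lt_def]; simp)
      omega
  have h1 : (s : ℕ) ≤ s' := hs
  have h2 := key (s' - s) s (by have := s'.2; omega)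
  have h3 : (⟨(s : ℕ) + (s' - s), by have := s'.2; omega⟩ : Fin n) = s' := Fin.ext (by
    simp only; omega)
  rw [h3] at h2
  have h4 : (⟨(s : ℕ), by omega⟩ : Fin n) = s := Fin.ext rfl
  rw [h4] at h2
  omega

open Classical in
/-- rows whose corner cell has entry zero -/
noncomputable def ZrS (lam : Fin n → ℕ) (f : Fin n × Fin w → ℕ) : Finset (Fin n) :=
  (corS lam).filter (fun s => ∀ c : Fin w, (c : ℕ) + 1 = lam s → f (s, c) = 0)

lemma mem_FS_subT {m : ℕ} {T : Finset (Fin n)} (hT : T ⊆ corS lam)
    {f : Fin n × Fin w → ℕ} :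
    f ∈ FS w m (subT lam T) ↔ f ∈ FS w m lam ∧ T ⊆ ZrS lam f := by
  rw [mem_FS, mem_FS]
  constructor
  · rintro ⟨h1, h2, h3⟩
    refine ⟨⟨h1, h2, fun p hp => h3 p ?_⟩, fun s hs => ?_⟩
    · unfold subT
      split_ifs <;> omega
    · unfold ZrS
      rw [mem_filter]
      refine ⟨hT hs, fun c hc => h3 (s, c) ?_⟩
      unfold subT
      simp only [if_pos hs]
      omega
  · rintro ⟨⟨h1, h2, h3⟩, h4⟩
    refine ⟨h1, h2, fun p hp => ?_⟩
    by_cases hp2 : lam p.1 ≤ p.2
    · exact h3 p hp2
    · unfold subT at hp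
      by_cases hs : p.1 ∈ T
      · have h5 := h4 hs
        unfold ZrS at h5
        rw [mem_filter] at h5
        rw [if_pos hs] at hp
        exact h5.2 p.2 (by omega)
      · rw [if_neg hs] at hp
        exact absurd hp hp2

/-- below every cell there is a corner cell -/
lemma exists_corS (h1 : ∀ s, 1 ≤ lam s) (hn : ∀ s, lam s ≤ w) (p : Fin n × Fin w)
    (hp : (p.2 : ℕ) < lam p.1) :
    ∃ s ∈ corS lam, ∃ c : Fin w, (c : ℕ) + 1 = lam s ∧ leS p (s, c) := by
  classical
  set S : Finset (Fin n) := univ.filter (fun s => (p.1 : ℕ) + p.2 < s + lam s) with hS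
  have hne : S.Nonempty := ⟨p.1, mem_filter.2 ⟨mem_univ _, by omega⟩⟩
  have h2 := S.max'_mem hne
  set s := S.max' hne with hs
  have h3 : (p.1 : ℕ) + p.2 < s + lam s := (mem_filter.1 h2).2
  have h4 : p.1 ≤ s := S.le_max' _ (mem_filter.2 ⟨mem_univ _, by omega⟩)
  refine ⟨s, ?_, ⟨lam s - 1, by have := hn s; have := h1 s; omega⟩, by
    have := h1 s
    simp only; omega, ?_⟩
  · unfold corS
    rw [mem_filter]
    refine ⟨mem_univ _, h1 s, fun h5 => ?_⟩
    by_contra hcon
    have h6 : (⟨(s : ℕ) + 1, h5⟩ : Fin n) ∈ S := mem_filter.2 ⟨mem_univ _, by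
      simp only; omega⟩
    have h7 := S.le_max' _ h6
    rw [← hs, Fin.le_def] at h7
    simp at h7
  · unfold leS
    have := h1 s
    refine ⟨h4, ?_⟩
    simp only
    omega

lemma ZrS_empty_iff (h1 : ∀ s, 1 ≤ lam s) (hn : ∀ s, lam s ≤ w) {m : ℕ}
    {f : Fin n × Fin w → ℕ} (hf : f ∈ FS w m lam) :
    ZrS lam f = ∅ ↔ ∀ p : Fin n × Fin w, (p.2 : ℕ) < lam p.1 → 1 ≤ f p := by
  classical
  rw [mem_FS] at hf
  constructor
  · intro h p hp
    obtain ⟨s, hs, c, hc, hle⟩ := exists_corS h1 hn p hp
    by_contra hcon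
    have h1 := hf.2.1 _ _ hle
    have h2 : s ∈ ZrS lam f := by
      unfold ZrS
      rw [mem_filter]
      refine ⟨hs, fun c' hc' => ?_⟩
      have : c' = c := Fin.ext (by omega)
      rw [this]
      omega
    rw [h] at h2
    exact absurd h2 (notMem_empty _)
  · intro h
    rw [eq_empty_iff_forall_notMem]
    intro s hs
    unfold ZrS at hs
    rw [mem_filter] at hs
    have h1 := corS_pos hs.1
    have h2 := hn s
    have h3 := h (s, ⟨lam s - 1, by omega⟩) (by simp only; omega)
    have h4 := hs.2 ⟨lam s - 1, by omega⟩ (by simp only; omega)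
    omega

variable {R : Type*} [CommRing R]

/-- the recursion for the generating function -/
theorem USg_rec (q : R) (h : StrictAnti lam) (h0 : ∀ s, 1 ≤ lam s) (hn : ∀ s, lam s ≤ w) (m : ℕ) :
    ∑ T ∈ (corS lam).powerset, (-1) ^ T.card * USg q w (m + 1) (subT lam T) =
      q ^ (∑ s, lam s) * USg q w m lam := by
  classical
  have h1 : ∀ T ∈ (corS lam).powerset, (-1) ^ T.card * USg q w (m + 1) (subT lam T) =
      ∑ f ∈ FS w (m + 1) lam, (if T ⊆ ZrS lam f then (-1) ^ T.card * q ^ ∑ p, f p else 0) := by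
    intro T hT
    rw [mem_powerset] at hT
    unfold USg
    rw [mul_sum, ← sum_filter]
    refine sum_congr ?_ fun _ _ => rfl
    ext f
    rw [mem_filter, mem_FS_subT hT]
  rw [sum_congr rfl h1, sum_comm]
  have h2 : ∀ f ∈ FS w (m + 1) lam, ∑ T ∈ (corS lam).powerset,
      (if T ⊆ ZrS lam f then (-1) ^ T.card * q ^ ∑ p, f p else 0) =
      if ZrS lam f = ∅ then q ^ ∑ p, f p else 0 := by
    intro f _
    rw [← sum_filter]
    have e1 : (corS lam).powerset.filter (fun T => T ⊆ ZrS lam f) = (ZrS lam f).powerset := by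
      ext T
      rw [mem_filter, mem_powerset, mem_powerset]
      refine ⟨fun h => h.2, fun h => ⟨h.trans ?_, h⟩⟩
      unfold ZrS
      exact filter_subset _ _
    rw [e1, ← sum_mul]
    have e2 := congrArg (Int.cast : ℤ → R) (sum_powerset_neg_one_pow_card (x := ZrS lam f))
    rw [Int.cast_sum] at e2
    have e3 : ∑ T ∈ (ZrS lam f).powerset, ((-1 : R)) ^ T.card = if ZrS lam f = ∅ then 1 else 0 := by
      rw [show (if ZrS lam f = ∅ then (1 : R) else 0) =
        (((if ZrS lam f = ∅ then (1 : ℤ) else 0) : ℤ) : R) by split_ifs <;> simp, ← e2]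
      refine sum_congr rfl fun T _ => ?_
      push_cast
      rfl
    rw [e3]
    split_ifs <;> simp
  rw [sum_congr rfl h2, ← sum_filter]
  unfold USg
  rw [mul_sum]
  refine sum_bij' (fun f _ p => f p - 1) (fun g _ p => if (p.2 : ℕ) < lam p.1 then g p + 1 else 0)
    ?_ ?_ ?_ ?_ ?_
  · intro f hf
    rw [mem_filter] at hf
    obtain ⟨hf1, hf2⟩ := hf
    rw [mem_FS] at hf1 ⊢
    refine ⟨fun p => ?_, fun p p' hp => ?_, fun p hp => ?_⟩
    · have := hf1.1 p
      omega
    · have := hf1.2.1 _ _ hp
      omega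
    · have := hf1.2.2 p hp
      omega
  · intro g hg
    rw [mem_FS] at hg
    have hmem : (fun p : Fin n × Fin w => if (p.2 : ℕ) < lam p.1 then g p + 1 else 0) ∈
        FS w (m + 1) lam := by
      rw [mem_FS]
      refine ⟨fun p => ?_, fun p p' hp => ?_, fun p hp => ?_⟩
      · have := hg.1 p
        split_ifs <;> omega
      · have h3 := hg.2.1 _ _ hp
        have h4 := sa_add h (s := p.1) (s' := p'.1) hp.1
        have h5 := hp.2
        split_ifs <;> omega
      · rw [if_neg (by omega)]
    rw [mem_filter]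
    refine ⟨hmem, (ZrS_empty_iff h0 hn hmem).2 fun p hp => ?_⟩
    rw [if_pos hp]
    omega
  · intro f hf
    rw [mem_filter] at hf
    obtain ⟨hf1, hf2⟩ := hf
    rw [ZrS_empty_iff h0 hn hf1] at hf2
    rw [mem_FS] at hf1
    funext p
    simp only
    by_cases hp : (p.2 : ℕ) < lam p.1
    · rw [if_pos hp]
      have := hf2 p hp
      omega
    · rw [if_neg hp]
      have := hf1.2.2 p (by omega)
      omega
  · intro g hg
    rw [mem_FS] at hg
    funext p
    simp only
    by_cases hp : (p.2 : ℕ) < lam p.1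
    · rw [if_pos hp]
      omega
    · rw [if_neg hp]
      have := hg.2.2 p (by omega)
      omega
  · intro f hf
    rw [mem_filter] at hf
    obtain ⟨hf1, hf2⟩ := hf
    rw [ZrS_empty_iff h0 hn hf1] at hf2
    rw [mem_FS] at hf1
    rw [← pow_add, ← sum_shape hn, ← sum_add_distrib]
    congr 1
    refine sum_congr rfl fun p _ => ?_
    by_cases hp : (p.2 : ℕ) < lam p.1
    · rw [if_pos hp]
      have := hf2 p hp
      omega
    · rw [if_neg hp]
      have := hf1.2.2 p (by omega)
      omega

lemma FS_m0 (w : ℕ) (lam : Fin n → ℕ) : FS w 0 lam = {fun _ => 0} := by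
  ext f
  rw [mem_FS, mem_singleton]
  constructor
  · rintro ⟨h1, -, -⟩
    funext p
    have := h1 p
    omega
  · rintro rfl
    exact ⟨fun _ => le_rfl, fun _ _ _ => le_rfl, fun _ _ => rfl⟩

lemma USg_m0 (q : R) (w : ℕ) (lam : Fin n → ℕ) : USg q w 0 lam = 1 := by
  unfold USg
  rw [FS_m0]
  simp

lemma USg_n0 (q : R) (w m : ℕ) (lam : Fin 0 → ℕ) : USg q w m lam = 1 := by
  have h1 : FS w m lam = {fun _ => 0} := by
    ext f
    rw [mem_FS, mem_singleton]
    constructor
    · intro _
      funext p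
      exact p.1.elim0
    · rintro rfl
      exact ⟨fun _ => Nat.zero_le _, fun _ _ _ => le_rfl, fun _ _ => rfl⟩
  unfold USg
  rw [h1]
  simp

/-- an empty last row can be removed -/
lemma USg_last (q : R) (w m : ℕ) (lam : Fin (n + 1) → ℕ) (h0 : lam (Fin.last n) = 0) :
    USg q w m lam = USg q w m (fun a => lam a.castSucc) := by
  classical
  unfold USg
  refine sum_bij' (fun f _ p => f (p.1.castSucc, p.2))
    (fun g _ p => if h : (p.1 : ℕ) < n then g (⟨p.1, h⟩, p.2) else 0) ?_ ?_ ?_ ?_ ?_
  · intro f hf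
    rw [mem_FS] at hf ⊢
    refine ⟨fun p => hf.1 _, fun p p' hp => hf.2.1 _ _ ?_, fun p hp => hf.2.2 _ hp⟩
    exact hp
  · intro g hg
    rw [mem_FS] at hg ⊢
    refine ⟨fun p => ?_, fun p p' hp => ?_, fun p hp => ?_⟩
    · split_ifs
      · exact hg.1 _
      · exact Nat.zero_le _
    · have h1 := hp.1
      split_ifs with h2 h3
      · exact hg.2.1 _ _ hp
      · omega
      · exact Nat.zero_le _
      · exact le_rfl
    · split_ifs with h2
      · exact hg.2.2 _ hp
      · rfl
  · intro f hf
    rw [mem_FS] at hf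
    funext p
    simp only
    split_ifs with h
    · rfl
    · have h1 : p.1 = Fin.last n := Fin.ext (by
        have := p.1.2
        rw [Fin.val_last]
        omega)
      refine (hf.2.2 p ?_).symm
      rw [h1, h0]
      exact Nat.zero_le _
  · intro g hg
    funext p
    simp only
    rw [dif_pos (by simp)]
    rfl
  · intro f hf
    rw [mem_FS] at hf
    congr 1
    rw [Fintype.sum_prod_type, Fintype.sum_prod_type, Fin.sum_univ_castSucc]
    have h1 : ∑ x : Fin w, f (Fin.last n, x) = 0 := by
      refine sum_eq_zero fun x _ => hf.2.2 _ ?_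
      simp only
      rw [h0]
      exact Nat.zero_le _
    rw [h1, add_zero]

lemma subT_sa (h : StrictAnti lam) {T : Finset (Fin n)} (hT : T ⊆ corS lam) :
    StrictAnti (subT lam T) := by
  intro s s' hs
  have h2 := h hs
  have h3 : subT lam T s' ≤ lam s' := subT_le s'
  by_cases h4 : s ∈ T
  · have h5 := (mem_filter.1 (hT h4)).2
    have h6 : (s : ℕ) + 1 < n := by
      have h7 : (s : ℕ) < s' := hs
      have := s'.2
      omega
    have h7 := h5.2 h6
    have h8 : lam s' ≤ lam ⟨s + 1, h6⟩ := by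
      refine h.antitone ?_
      rw [Fin.le_def]
      have h9 : (s : ℕ) < s' := hs
      simp only
      omega
    have h9 : subT lam T s = lam s - 1 := by
      unfold subT
      rw [if_pos h4]
    omega
  · have h9 : subT lam T s = lam s := by
      unfold subT
      rw [if_neg h4]
    omega

lemma subT_sumS {T : Finset (Fin n)} (hT : T ⊆ corS lam) (hne : T ≠ ∅) :
    ∑ s, subT lam T s < ∑ s, lam s := by
  obtain ⟨s, hs⟩ := nonempty_iff_ne_empty.2 hne
  refine sum_lt_sum (fun i _ => subT_le i) ⟨s, mem_univ _, ?_⟩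
  unfold subT
  rw [if_pos hs]
  have := corS_pos (hT hs)
  omega

/-- the generating function of the plane partitions of a shifted shape is the alternating sum -/
theorem USg_eq (q : R) (w : ℕ) : ∀ (N : ℕ) (n m : ℕ) (lam : Fin n → ℕ),
    StrictAnti lam → (∀ s, lam s ≤ w) → n + m + ∑ s, lam s ≤ N →
    q ^ (∑ b : Fin n, (n - 1 - b)) * USg q w m lam = Psi q n m lam := by
  intro N
  induction N with
  | zero =>
    intro n m lam _ _ hN
    obtain rfl : m = 0 := by omega
    rw [USg_m0, Psi_m0, mul_one]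
  | succ N ih =>
    intro n m lam h hn hN
    rcases Nat.eq_zero_or_pos m with rfl | hm
    · rw [USg_m0, Psi_m0, mul_one]
    obtain ⟨m, rfl⟩ : ∃ m', m = m' + 1 := ⟨m - 1, by omega⟩
    cases n with
    | zero => rw [USg_n0, Psi_n0, mul_one, univ_eq_empty, sum_empty, pow_zero]
    | succ n =>
      rcases Nat.eq_zero_or_pos (lam (Fin.last n)) with h0 | h0
      · rw [USg_last q w _ lam h0, Psi_last q _ lam h0]
        have h1 : StrictAnti (fun a : Fin n => lam a.castSucc) := by
          intro a b hab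
          refine h ?_
          rw [Fin.lt_def] at hab ⊢
          simpa using hab
        have h2 : ∑ s : Fin n, lam s.castSucc = ∑ s, lam s := by
          rw [Fin.sum_univ_castSucc, h0, add_zero]
        have h3 := ih n (m + 1) (fun a => lam a.castSucc) h1 (fun s => hn _) (by
          simp only [h2]
          omega)
        rw [← h3, ← mul_assoc, ← pow_add]
        congr 2
        rw [Fin.sum_univ_castSucc, Fin.val_last, Nat.add_sub_cancel, Nat.sub_self, add_zero]
        have h4 : ∑ i : Fin n, (n - (i.castSucc : ℕ)) = ∑ i : Fin n, ((n - 1 - i) + 1) := by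
          refine sum_congr rfl fun i _ => ?_
          have := i.2
          rw [Fin.val_castSucc]
          omega
        rw [h4, sum_add_distrib, sum_const, card_univ, Fintype.card_fin, smul_eq_mul, mul_one,
          add_comm]
      · have h1 : ∀ s, 1 ≤ lam s := by
          intro s
          have h2 := h.antitone (Fin.le_last s)
          omega
        have e1 := USg_rec q h h1 hn m
        have e2 := Psi_rec q (m := m) h h1
        rw [← add_sum_erase _ _ (empty_mem_powerset (corS lam)), subT_empty] at e1 e2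
        rw [card_empty, pow_zero, one_mul] at e1 e2
        have e4 := ih (n + 1) m lam h hn (by omega)
        have e3 : q ^ (∑ b : Fin (n + 1), (n + 1 - 1 - b)) * ∑ T ∈ (corS lam).powerset.erase ∅,
            (-1) ^ T.card * USg q w (m + 1) (subT lam T) =
            ∑ T ∈ (corS lam).powerset.erase ∅, (-1) ^ T.card * Psi q (n + 1) (m + 1) (subT lam T) := by
          rw [mul_sum]
          refine sum_congr rfl fun T hT => ?_
          rw [mem_erase, mem_powerset] at hT
          have h2 := subT_sumS hT.2 hT.1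
          rw [← ih (n + 1) (m + 1) (subT lam T) (subT_sa h hT.2)
            (fun s => (subT_le s).trans (hn s)) (by omega)]
          ring
        linear_combination (q ^ (∑ b : Fin (n + 1), (n + 1 - 1 - b))) * e1 - e2 +
          q ^ (∑ s, lam s) * e4 - e3

end cnt

end Pool.Agent.GaussPoset.Yg

end

/-! From `Pool.Agent.W_448fs_h63.SD` -/

section

/-! Sums over decreasing sequences in an anticommuting family (MP_448cb3_co). -/

namespace Pool.Agent.GaussPoset.Yg

set_option linter.unusedSectionVars false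

open Finset

section ring

variable {A : Type*} [Ring A]

/-- sum over the strictly decreasing sequences of length `r` below `b` of the products -/
def SS (g : ℕ → A) : ℕ → ℕ → A
  | 0, _ => 1
  | _ + 1, 0 => 0
  | r + 1, b + 1 => SS g (r + 1) b + g b * SS g r b

lemma SS_zero (g : ℕ → A) (b : ℕ) : SS g 0 b = 1 := by
  cases b <;> rfl

lemma SS_succ_zero (g : ℕ → A) (r : ℕ) : SS g (r + 1) 0 = 0 := rfl

lemma SS_succ (g : ℕ → A) (r b : ℕ) : SS g (r + 1) (b + 1) = SS g (r + 1) b + g b * SS g r b := rfl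

lemma SS_lt (g : ℕ → A) : ∀ b r : ℕ, b < r → SS g r b = 0 := by
  intro b
  induction b with
  | zero =>
    intro r h
    obtain ⟨r, rfl⟩ : ∃ r', r = r' + 1 := ⟨r - 1, by omega⟩
    rfl
  | succ b ih =>
    intro r h
    obtain ⟨r, rfl⟩ : ∃ r', r = r' + 1 := ⟨r - 1, by omega⟩
    rw [SS_succ, ih _ (by omega), ih _ (by omega), mul_zero, add_zero]

/-- concatenation -/
lemma SS_add (g : ℕ → A) (t : ℕ) : ∀ b r : ℕ, SS g r (t + b) =
    ∑ c ∈ range (r + 1), SS (fun x => g (t + x)) c b * SS g (r - c) t := by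
  intro b
  induction b with
  | zero =>
    intro r
    rw [sum_range_succ']
    have h1 : ∑ c ∈ range r, SS (fun x => g (t + x)) (c + 1) 0 * SS g (r - (c + 1)) t = 0 :=
      sum_eq_zero fun c _ => by rw [SS_succ_zero, zero_mul]
    rw [h1, zero_add, SS_zero, one_mul, Nat.sub_zero, Nat.add_zero]
  | succ b ih =>
    intro r
    cases r with
    | zero =>
      rw [sum_range_one, SS_zero, SS_zero, SS_zero, one_mul]
    | succ r =>
      rw [← Nat.add_assoc, SS_succ, ih, ih, sum_range_succ' _ (r + 1), sum_range_succ' _ (r + 1)]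
      rw [SS_zero, SS_zero, mul_sum]
      rw [add_assoc, add_comm (1 * SS g (r + 1 - 0) t) _, ← add_assoc, ← sum_add_distrib]
      congr 1
      refine sum_congr rfl fun c _ => ?_
      rw [SS_succ, show r + 1 - (c + 1) = r - c by omega]
      noncomm_ring

/-- sum over strictly decreasing functions -/
lemma SS_eq (g : ℕ → A) : ∀ b r : ℕ, SS g r b =
    ∑ l ∈ (univ : Finset (Fin r → Fin b)).filter (fun l => ∀ a c, a < c → l c < l a),
      (List.ofFn (fun c => g (l c))).prod := by
  intro b
  induction b with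
  | zero =>
    intro r
    cases r with
    | zero =>
      rw [SS_zero]
      have h1 : (univ : Finset (Fin 0 → Fin 0)).filter (fun l => ∀ a c, a < c → l c < l a) =
          {fun a => a} := by
        ext l
        rw [mem_filter, mem_singleton]
        exact ⟨fun _ => Subsingleton.elim _ _, fun _ => ⟨mem_univ _, fun a => a.elim0⟩⟩
      rw [h1, sum_singleton, List.ofFn_zero, List.prod_nil]
    | succ r =>
      rw [SS_succ_zero]
      symm
      refine sum_eq_zero fun l _ => ?_
      exact (l 0).elim0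
  | succ b ih =>
    intro r
    cases r with
    | zero =>
      rw [SS_zero]
      have h1 : (univ : Finset (Fin 0 → Fin (b + 1))).filter
          (fun l => ∀ a c, a < c → l c < l a) = {fun a => a.elim0} := by
        ext l
        rw [mem_filter, mem_singleton]
        exact ⟨fun _ => Subsingleton.elim _ _, fun _ => ⟨mem_univ _, fun a => a.elim0⟩⟩
      rw [h1, sum_singleton, List.ofFn_zero, List.prod_nil]
    | succ r =>
      rw [SS_succ, ih, ih, ← sum_filter_add_sum_filter_not
        ((univ : Finset (Fin (r + 1) → Fin (b + 1))).filter (fun l => ∀ a c, a < c → l c < l a))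
        (fun l => (l 0 : ℕ) < b)]
      congr 1
      · refine sum_bij' (fun l _ c => (l c).castSucc)
          (fun l hl c => (⟨(l c : ℕ), by
            rw [mem_filter, mem_filter] at hl
            rcases eq_or_lt_of_le (Fin.zero_le c) with h | h
            · rw [← h]; exact hl.2
            · have h2 : (l c : ℕ) < l 0 := hl.1.2 0 c h
              have h3 := hl.2
              omega⟩ : Fin b)) ?_ ?_ ?_ ?_ ?_
        · intro l hl
          rw [mem_filter] at hl
          rw [mem_filter, mem_filter]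
          refine ⟨⟨mem_univ _, fun a c hac => ?_⟩, (l 0).2⟩
          exact hl.2 a c hac
        · intro l hl
          rw [mem_filter, mem_filter] at hl
          rw [mem_filter]
          exact ⟨mem_univ _, fun a c hac => hl.1.2 a c hac⟩
        · intro l hl
          rfl
        · intro l hl
          rfl
        · intro l hl
          rfl
      · rw [mul_sum]
        refine sum_bij' (fun l _ => Fin.cons (Fin.last b) (fun c => (l c).castSucc))
          (fun l hl c => (⟨(l c.succ : ℕ), by
            rw [mem_filter, mem_filter] at hl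
            have h2 : (l c.succ : ℕ) < l 0 := hl.1.2 0 c.succ (Fin.succ_pos c)
            have h3 := (l 0).2
            omega⟩ : Fin b)) ?_ ?_ ?_ ?_ ?_
        · intro l hl
          rw [mem_filter] at hl
          rw [mem_filter, mem_filter]
          refine ⟨⟨mem_univ _, fun a c => ?_⟩, by simp⟩
          refine Fin.cases ?_ (fun a => ?_) a
          · refine Fin.cases ?_ (fun c => ?_) c
            · intro h
              exact absurd h (lt_irrefl _)
            · intro _
              rw [Fin.cons_zero, Fin.cons_succ]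
              exact Fin.castSucc_lt_last _
          · refine Fin.cases ?_ (fun c => ?_) c
            · intro h
              exact absurd h (Fin.not_lt_zero _)
            · intro h
              rw [Fin.cons_succ, Fin.cons_succ]
              exact hl.2 a c (by simpa using h)
        · intro l hl
          rw [mem_filter, mem_filter] at hl
          rw [mem_filter]
          exact ⟨mem_univ _, fun a c hac => hl.1.2 a.succ c.succ (by simpa using hac)⟩
        · intro l hl
          rfl
        · intro l hl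
          rw [mem_filter, mem_filter] at hl
          funext a
          refine Fin.cases ?_ (fun a => ?_) a
          · rw [Fin.cons_zero]
            apply Fin.ext
            have h2 := hl.2
            have h3 := (l 0).2
            rw [Fin.val_last]
            omega
          · rw [Fin.cons_succ]
            rfl
        · intro l hl
          rw [List.ofFn_succ, List.prod_cons, Fin.cons_zero]
          rfl

/-- partial sums -/
def sg (g : ℕ → A) (b : ℕ) : A := ∑ x ∈ range b, g x

/-- sums over pairs -/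
def pg (g : ℕ → A) (b : ℕ) : A := ∑ x ∈ range b, g x * sg g x

variable {g : ℕ → A} (h : ∀ x y, g x * g y = - (g y * g x)) (h0 : ∀ x, g x * g x = 0)

include h in
lemma sg_comm (b x : ℕ) : sg g b * g x = - (g x * sg g b) := by
  unfold sg
  rw [sum_mul, mul_sum, ← sum_neg_distrib]
  exact sum_congr rfl fun y _ => h y x

include h h0 in
lemma sg_sq (b : ℕ) : sg g b * sg g b = 0 := by
  induction b with
  | zero => unfold sg; simp
  | succ b ih =>
    have h1 : sg g (b + 1) = sg g b + g b := by unfold sg; rw [sum_range_succ]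
    have h2 := sg_comm h b b
    rw [h1]
    have h3 : (sg g b + g b) * (sg g b + g b) =
        sg g b * sg g b + (sg g b * g b + g b * sg g b) + g b * g b := by noncomm_ring
    rw [h3, ih, h0, h2]
    simp

include h in
lemma pg_comm (b x : ℕ) : pg g b * g x = g x * pg g b := by
  unfold pg
  rw [sum_mul, mul_sum]
  refine sum_congr rfl fun y _ => ?_
  rw [mul_assoc, sg_comm h, mul_neg, ← mul_assoc, h y x, neg_mul, neg_neg, mul_assoc]

include h in
lemma pg_sg (b c : ℕ) : pg g b * sg g c = sg g c * pg g b := by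
  unfold sg
  rw [sum_mul, mul_sum]
  exact sum_congr rfl fun y _ => pg_comm h b y

include h h0 in
/-- the two power formulas -/
lemma SS_pow (b : ℕ) : ∀ p : ℕ, (p.factorial : A) * SS g (2 * p) b = pg g b ^ p ∧
    (p.factorial : A) * SS g (2 * p + 1) b = sg g b * pg g b ^ p := by
  induction b with
  | zero =>
    intro p
    have h1 : sg g 0 = 0 := by unfold sg; simp
    have h2 : pg g 0 = 0 := by unfold pg; simp
    rw [h1, h2]
    refine ⟨?_, by rw [SS_succ_zero]; simp⟩
    cases p with
    | zero => rw [Nat.mul_zero, SS_zero]; simp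
    | succ p => rw [show 2 * (p + 1) = 2 * p + 1 + 1 by ring, SS_succ_zero]; simp
  | succ b ih =>
    have e1 : sg g (b + 1) = sg g b + g b := by unfold sg; rw [sum_range_succ]
    have e2 : pg g (b + 1) = pg g b + g b * sg g b := by unfold pg; rw [sum_range_succ]
    have hz0 : (g b * sg g b) * (g b * sg g b) = 0 := by
      have h1 := sg_comm h b b
      calc (g b * sg g b) * (g b * sg g b) = g b * (sg g b * g b) * sg g b := by noncomm_ring
        _ = 0 := by
          rw [h1, mul_neg, neg_mul, ← mul_assoc (g b) (g b), h0, zero_mul, zero_mul, neg_zero]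
    have hc : pg g b * (g b * sg g b) = (g b * sg g b) * pg g b := by
      rw [← mul_assoc, pg_comm h, mul_assoc, pg_sg h, mul_assoc]
    have hcp : ∀ p : ℕ, pg g b ^ p * (g b * sg g b) = (g b * sg g b) * pg g b ^ p := fun p =>
      ((show Commute (pg g b) (g b * sg g b) from hc).pow_left p).eq
    -- square zero expansion
    have L2 : ∀ p : ℕ, (pg g b + g b * sg g b) ^ (p + 1) =
        pg g b ^ (p + 1) + ((p + 1 : ℕ) : A) * ((g b * sg g b) * pg g b ^ p) := by
      intro p
      induction p with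
      | zero => simp
      | succ p ihp =>
        rw [pow_succ' _ (p + 1), ihp]
        have h1 : (pg g b + g b * sg g b) *
            (pg g b ^ (p + 1) + ((p + 1 : ℕ) : A) * ((g b * sg g b) * pg g b ^ p)) =
            pg g b * pg g b ^ (p + 1) + (g b * sg g b) * pg g b ^ (p + 1) +
            pg g b * (((p + 1 : ℕ) : A) * ((g b * sg g b) * pg g b ^ p)) +
            (g b * sg g b) * (((p + 1 : ℕ) : A) * ((g b * sg g b) * pg g b ^ p)) := by
          noncomm_ring
        rw [h1]
        have h2 : (g b * sg g b) * (((p + 1 : ℕ) : A) * ((g b * sg g b) * pg g b ^ p)) = 0 := by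
          rw [← mul_assoc, ← (Nat.cast_commute (p + 1) (g b * sg g b)).eq, mul_assoc,
            ← mul_assoc (g b * sg g b), hz0, zero_mul, mul_zero]
        have h3 : pg g b * (((p + 1 : ℕ) : A) * ((g b * sg g b) * pg g b ^ p)) =
            ((p + 1 : ℕ) : A) * ((g b * sg g b) * pg g b ^ (p + 1)) := by
          rw [← mul_assoc, ← (Nat.cast_commute (p + 1) (pg g b)).eq, mul_assoc,
            ← mul_assoc (pg g b), hc, mul_assoc (g b * sg g b), ← pow_succ']
        rw [h2, h3, add_zero, ← pow_succ' _ (p + 1)]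
        push_cast
        noncomm_ring
    have L1 : ∀ p : ℕ, (sg g b + g b) * (pg g b + g b * sg g b) ^ p =
        (sg g b + g b) * pg g b ^ p := by
      intro p
      have hk : (sg g b + g b) * (g b * sg g b) = 0 := by
        have h1 := sg_comm h b b
        have h2 := sg_sq h h0 b
        calc (sg g b + g b) * (g b * sg g b) = (sg g b * g b) * sg g b + (g b * g b) * sg g b := by
              noncomm_ring
          _ = 0 := by
              rw [h1, h0, neg_mul, mul_assoc, h2, mul_zero, zero_mul, neg_zero, add_zero]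
      cases p with
      | zero => simp
      | succ p =>
        rw [L2, mul_add]
        have h3 : (sg g b + g b) * (((p + 1 : ℕ) : A) * ((g b * sg g b) * pg g b ^ p)) = 0 := by
          rw [← mul_assoc, ← (Nat.cast_commute (p + 1) (sg g b + g b)).eq, mul_assoc,
            ← mul_assoc (sg g b + g b), hk, zero_mul, mul_zero]
        rw [h3, add_zero]
    intro p
    constructor
    · cases p with
      | zero => rw [Nat.mul_zero, SS_zero]; simp
      | succ p =>
        have i1 := (ih (p + 1)).1
        have i2 := (ih p).2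
        rw [show 2 * (p + 1) = 2 * p + 1 + 1 by ring] at i1 ⊢
        rw [SS_succ, e2, L2, mul_add, i1, Nat.factorial_succ]
        congr 1
        push_cast
        have h1 : ((p : A) + 1) * (p.factorial : A) * (g b * SS g (2 * p + 1) b) =
            ((p : A) + 1) * (g b * ((p.factorial : A) * SS g (2 * p + 1) b)) := by
          rw [mul_assoc, ← mul_assoc (p.factorial : A), (Nat.cast_commute p.factorial (g b)).eq,
            mul_assoc]
        rw [h1, i2, mul_assoc (g b)]
    · have i1 := (ih p).1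
      have i2 := (ih p).2
      rw [SS_succ, e1, e2, L1, mul_add, i2, add_mul]
      congr 1
      rw [← mul_assoc, (Nat.cast_commute p.factorial (g b)).eq, mul_assoc, i1]

end ring

end Pool.Agent.GaussPoset.Yg

end

/-! From `Pool.Agent.W_448fs_h63.SE` -/

section

/-! Functions which are polynomials in `q ^ b` with a zero at `q ^ b = 1` (MP_448cb3_co). -/

namespace Pool.Agent.GaussPoset.Yg

set_option linter.unusedSectionVars false

open Finset Polynomial

section span

variable {K : Type*} [Field K] {E : Type*} [Ring E] [Algebra K E]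

/-- span of the functions `b ↦ (1 - q^b)^k P(q^b) e` -/
def GS (q : K) (E : Type*) [Ring E] [Algebra K E] (k : ℕ) : Submodule K (ℕ → E) :=
  Submodule.span K {G | ∃ (P : K[X]) (e : E), G = fun b => ((1 - q ^ b) ^ k * P.eval (q ^ b)) • e}

/-- span of the functions `b ↦ q^b P(q^b) e` -/
def GX (q : K) (E : Type*) [Ring E] [Algebra K E] : Submodule K (ℕ → E) :=
  Submodule.span K {G | ∃ (P : K[X]) (e : E), G = fun b => (q ^ b * P.eval (q ^ b)) • e}

variable {q : K}

lemma GS_mem (k : ℕ) (P : K[X]) (e : E) :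
    (fun b => ((1 - q ^ b) ^ k * P.eval (q ^ b)) • e) ∈ GS q E k :=
  Submodule.subset_span ⟨P, e, rfl⟩

lemma GX_mem (P : K[X]) (e : E) :
    (fun b => (q ^ b * P.eval (q ^ b)) • e) ∈ GX q E :=
  Submodule.subset_span ⟨P, e, rfl⟩

lemma GS_const (e : E) : (fun _ => e) ∈ GS q E 0 := by
  have h := GS_mem (q := q) 0 (1 : K[X]) e
  simpa using h

lemma GS_mul {k l : ℕ} {F G : ℕ → E} (hF : F ∈ GS q E k) (hG : G ∈ GS q E l) :
    F * G ∈ GS q E (k + l) := by
  have h1 : F * G ∈ GS q E k * GS q E l := Submodule.mul_mem_mul hF hG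
  unfold GS at h1
  rw [Submodule.span_mul_span] at h1
  refine Submodule.span_le.2 ?_ h1
  rintro _ ⟨_, ⟨P, e, rfl⟩, _, ⟨P', e', rfl⟩, rfl⟩
  have h2 := GS_mem (q := q) (k + l) (P * P') (e * e')
  have h3 : (fun b => ((1 - q ^ b) ^ (k + l) * (P * P').eval (q ^ b)) • (e * e')) =
      (fun b => ((1 - q ^ b) ^ k * P.eval (q ^ b)) • e) *
      (fun b => ((1 - q ^ b) ^ l * P'.eval (q ^ b)) • e') := by
    funext b
    rw [Pi.mul_apply, smul_mul_smul_comm, eval_mul, pow_add]
    congr 1
    ring
  rw [h3] at h2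
  exact h2

lemma GX_mul {F G : ℕ → E} (hF : F ∈ GX q E) (hG : G ∈ GS q E 0) :
    F * G ∈ GX q E := by
  have h1 : F * G ∈ GX q E * GS q E 0 := Submodule.mul_mem_mul hF hG
  unfold GS GX at h1
  rw [Submodule.span_mul_span] at h1
  refine Submodule.span_le.2 ?_ h1
  rintro _ ⟨_, ⟨P, e, rfl⟩, _, ⟨P', e', rfl⟩, rfl⟩
  have h2 := GX_mem (q := q) (P * P') (e * e')
  have h3 : (fun b => (q ^ b * (P * P').eval (q ^ b)) • (e * e')) =
      (fun b => (q ^ b * P.eval (q ^ b)) • e) *
      (fun b => ((1 - q ^ b) ^ 0 * P'.eval (q ^ b)) • e') := by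
    funext b
    rw [Pi.mul_apply, smul_mul_smul_comm, eval_mul]
    congr 1
    ring
  rw [h3] at h2
  exact h2

lemma GS_mono {k l : ℕ} (hkl : k ≤ l) : GS q E l ≤ GS q E k := by
  unfold GS
  rw [Submodule.span_le]
  rintro _ ⟨P, e, rfl⟩
  refine Submodule.subset_span ⟨(1 - X) ^ (l - k) * P, e, ?_⟩
  funext b
  rw [eval_mul, eval_pow, eval_sub, eval_one, eval_X, ← mul_assoc, ← pow_add,
    show k + (l - k) = l by omega]

lemma GS_pow {k : ℕ} {F : ℕ → E} (hF : F ∈ GS q E k) : ∀ p : ℕ, F ^ p ∈ GS q E (k * p) := by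
  intro p
  induction p with
  | zero =>
    rw [pow_zero, Nat.mul_zero]
    exact GS_const (1 : E)
  | succ p ih =>
    rw [pow_succ, Nat.mul_succ]
    exact GS_mul ih hF

lemma GS_apply (φ : E →ₗ[K] K) {k : ℕ} {F : ℕ → E} (hF : F ∈ GS q E k) :
    ∃ P : K[X], ∀ b, φ (F b) = (1 - q ^ b) ^ k * P.eval (q ^ b) := by
  unfold GS at hF
  induction hF using Submodule.span_induction with
  | mem x hx =>
    obtain ⟨P, e, rfl⟩ := hx
    refine ⟨C (φ e) * P, fun b => ?_⟩
    rw [map_smul, smul_eq_mul, eval_mul, eval_C]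
    ring
  | zero => exact ⟨0, fun b => by simp⟩
  | add x y hx hy hx2 hy2 =>
    obtain ⟨P, hP⟩ := hx2
    obtain ⟨P', hP'⟩ := hy2
    refine ⟨P + P', fun b => ?_⟩
    rw [Pi.add_apply, map_add, hP, hP', eval_add]
    ring
  | smul a x hx hx2 =>
    obtain ⟨P, hP⟩ := hx2
    refine ⟨C a * P, fun b => ?_⟩
    rw [Pi.smul_apply, map_smul, hP, smul_eq_mul, eval_mul, eval_C]
    ring

variable (hq : ∀ j : ℕ, 1 - q ^ (j + 1) ≠ 0)

include hq in
lemma geo (P : K[X]) : ∃ Q : K[X], ∀ b : ℕ, ∑ x ∈ range b, q ^ x * P.eval (q ^ x) =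
    (1 - q ^ b) * Q.eval (q ^ b) := by
  induction P using Polynomial.induction_on' with
  | add P P' h1 h2 =>
    obtain ⟨Q, hQ⟩ := h1
    obtain ⟨Q', hQ'⟩ := h2
    refine ⟨Q + Q', fun b => ?_⟩
    rw [eval_add, mul_add, ← hQ, ← hQ', ← sum_add_distrib]
    refine sum_congr rfl fun x _ => ?_
    rw [eval_add, mul_add]
  | monomial j c =>
    refine ⟨C (c * (1 - q ^ (j + 1))⁻¹) * ∑ u ∈ range (j + 1), X ^ u, fun b => ?_⟩
    rw [eval_mul, eval_C, eval_finset_sum]
    simp only [eval_pow, eval_X, eval_monomial]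
    have h1 : ∑ x ∈ range b, q ^ x * (c * (q ^ x) ^ j) =
        c * ∑ x ∈ range b, (q ^ (j + 1)) ^ x := by
      rw [mul_sum]
      refine sum_congr rfl fun x _ => ?_
      rw [← pow_mul, ← pow_mul, mul_left_comm, ← pow_add]
      congr 2
      ring
    have h2 : (∑ x ∈ range b, (q ^ (j + 1)) ^ x) * (q ^ (j + 1) - 1) = (q ^ (j + 1)) ^ b - 1 :=
      geom_sum_mul _ _
    have h3 : (∑ u ∈ range (j + 1), (q ^ b) ^ u) * (q ^ b - 1) = (q ^ b) ^ (j + 1) - 1 :=
      geom_sum_mul _ _
    have h4 : (q ^ (j + 1)) ^ b = (q ^ b) ^ (j + 1) := by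
      rw [← pow_mul, ← pow_mul, mul_comm]
    rw [h1]
    have h5 := hq j
    have h6 : (∑ x ∈ range b, (q ^ (j + 1)) ^ x) =
        (1 - q ^ (j + 1))⁻¹ * ((1 - q ^ b) * ∑ u ∈ range (j + 1), (q ^ b) ^ u) := by
      rw [eq_inv_mul_iff_mul_eq₀ h5]
      linear_combination -h2 + h3 - h4
    rw [h6]
    ring

include hq in
lemma sg_mem {g : ℕ → E} (hg : g ∈ GX q E) : (fun b => ∑ x ∈ range b, g x) ∈ GS q E 1 := by
  unfold GX at hg
  induction hg using Submodule.span_induction with
  | mem x hx =>
    obtain ⟨P, e, rfl⟩ := hx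
    obtain ⟨Q, hQ⟩ := geo hq P
    have h1 := GS_mem (q := q) 1 Q e
    have h2 : (fun b => ∑ x ∈ range b, (q ^ x * P.eval (q ^ x)) • e) =
        fun b => ((1 - q ^ b) ^ 1 * Q.eval (q ^ b)) • e := by
      funext b
      rw [pow_one, ← hQ, sum_smul]
    rw [h2]
    exact h1
  | zero =>
    have h1 : (fun b => ∑ x ∈ range b, (0 : ℕ → E) x) = 0 := by
      funext b
      simp
    rw [h1]
    exact Submodule.zero_mem _
  | add x y hx hy hx2 hy2 =>
    have h1 : (fun b => ∑ z ∈ range b, (x + y) z) =
        (fun b => ∑ z ∈ range b, x z) + fun b => ∑ z ∈ range b, y z := by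
      funext b
      rw [Pi.add_apply, ← sum_add_distrib]
      rfl
    rw [h1]
    exact Submodule.add_mem _ hx2 hy2
  | smul a x hx hx2 =>
    have h1 : (fun b => ∑ z ∈ range b, (a • x) z) = a • fun b => ∑ z ∈ range b, x z := by
      funext b
      rw [Pi.smul_apply, smul_sum]
      rfl
    rw [h1]
    exact Submodule.smul_mem _ _ hx2

variable {g : ℕ → E}

include hq in
lemma pg_mem (hg : g ∈ GX q E) : pg g ∈ GS q E 1 := by
  have h1 : sg g ∈ GS q E 1 := sg_mem hq hg
  have h2 := GX_mul hg (GS_mono (Nat.zero_le 1) h1)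
  exact sg_mem hq h2

variable [CharZero K] (h : ∀ x y, g x * g y = - (g y * g x)) (h0 : ∀ x, g x * g x = 0)

include hq h h0 in
/-- the sums over decreasing sequences of length `r` have order at least `(r + 1) / 2` -/
theorem SS_mem (hg : g ∈ GX q E) (r : ℕ) : SS g r ∈ GS q E ((r + 1) / 2) := by
  obtain ⟨p, hp⟩ : ∃ p, r = 2 * p ∨ r = 2 * p + 1 := ⟨r / 2, by omega⟩
  have hf : (p.factorial : K) ≠ 0 := by exact_mod_cast p.factorial_ne_zero
  have hpp := GS_pow (pg_mem hq hg) p
  have key : ∀ x y : E, (p.factorial : E) * x = y → x = (p.factorial : K)⁻¹ • y := by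
    intro x y hxy
    rw [← hxy]
    have h1 : (p.factorial : E) * x = (p.factorial : K) • x := by
      rw [Algebra.smul_def, map_natCast]
    rw [h1, smul_smul, inv_mul_cancel₀ hf, one_smul]
  rcases hp with rfl | rfl
  · have h1 : SS g (2 * p) = (p.factorial : K)⁻¹ • (pg g ^ p) := by
      funext b
      rw [Pi.smul_apply, Pi.pow_apply]
      exact key _ _ (SS_pow h h0 b p).1
    rw [h1, show (2 * p + 1) / 2 = 1 * p by omega]
    exact Submodule.smul_mem _ _ hpp
  · have h1 : SS g (2 * p + 1) = (p.factorial : K)⁻¹ • (sg g * pg g ^ p) := by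
      funext b
      rw [Pi.smul_apply, Pi.mul_apply, Pi.pow_apply]
      exact key _ _ (SS_pow h h0 b p).2
    rw [h1, show (2 * p + 1 + 1) / 2 = 1 + 1 * p by omega]
    exact Submodule.smul_mem _ _ (GS_mul (sg_mem hq hg) hpp)

end span

end Pool.Agent.GaussPoset.Yg

end

/-! From `Pool.Agent.W_448fs_h63.SF` -/

section

/-! The alternating sum as a polynomial in the window variable (MP_448cb3_co). -/

namespace Pool.Agent.GaussPoset.Yg

set_option linter.unusedSectionVars false

open Finset Polynomial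

section fac

variable {K : Type*} [Field K]

/-- the exponential polynomial of a row -/
noncomputable def rowP (q : K) (i a k : ℕ) : K[X] :=
  ∏ u ∈ range k, (C ((1 - q ^ (u + 1))⁻¹) * (1 - C (q ^ ((a : ℤ) + u + 1 - i)) * X))

variable {q : K}

lemma rowP_eval (i a k x : ℕ) : (rowP q i a k).eval (q ^ x) =
    ∏ u ∈ range k, ((1 - q ^ (u + 1))⁻¹ * (1 - q ^ ((a : ℤ) + u + 1 - i) * q ^ x)) := by
  unfold rowP
  rw [eval_prod]
  refine prod_congr rfl fun u _ => ?_
  rw [eval_mul, eval_C, eval_sub, eval_one, eval_mul, eval_C, eval_X]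

variable (hq0 : q ≠ 0) (hq : ∀ j : ℕ, 1 - q ^ (j + 1) ≠ 0)

include hq0 in
lemma rowP_zero {i a k x : ℕ} (h1 : x + a < i) (h2 : i ≤ a + k) :
    (rowP q i a k).eval (q ^ x) = 0 := by
  rw [rowP_eval]
  refine prod_eq_zero (i := i - 1 - a - x) (mem_range.2 (by omega)) ?_
  rw [← zpow_natCast q x, ← zpow_add₀ hq0]
  have h3 : (a : ℤ) + ((i - 1 - a - x : ℕ) : ℤ) + 1 - i + x = 0 := by omega
  rw [h3, zpow_zero, sub_self, mul_zero]

include hq0 hq in
lemma rowP_GF {n i a k x l : ℕ} (ha : a < n) (h2 : i ≤ a + k) (hl : l + (i + 1) = n + x) :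
    GF q (k + 1) (n - 1 - a) l = (rowP q i a k).eval (q ^ x) := by
  by_cases hc : l < n - 1 - a
  · rw [GF_lt q _ _ _ hc, rowP_zero hq0 (by omega) h2]
  · rw [GF_succ, if_pos (by omega), rowP_eval]
    have hne : ∏ u ∈ range k, (1 - q ^ (u + 1)) ≠ 0 := prod_ne_zero_iff.2 fun u _ => hq u
    have h3 := qb_prod q (l - (n - 1 - a) + k) k
    have h4 : ∏ u ∈ range k, (1 - q ^ (l - (n - 1 - a) + k - u)) =
        ∏ u ∈ range k, (1 - q ^ ((a : ℤ) + u + 1 - i) * q ^ x) := by
      rw [← prod_range_reflect]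
      refine prod_congr rfl fun u hu => ?_
      rw [mem_range] at hu
      rw [← zpow_natCast q x, ← zpow_add₀ hq0, ← zpow_natCast q (l - (n - 1 - a) + k - _)]
      congr 2
      omega
    rw [h4] at h3
    rw [prod_mul_distrib, prod_inv_distrib, ← h3, mul_comm (qb _ _ _), inv_mul_cancel_left₀ hne]

end fac

section ext

variable {K : Type*} [Field K] [CharZero K] {n : ℕ}

/-- the vector of the row values at the label `l` -/
noncomputable def fv (q : K) (lam : Fin n → ℕ) (l : ℕ) : Fin n → K :=
  fun a => q ^ l * GF q (lam a) (n - 1 - a) l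

/-- the shifted vector -/
noncomputable def gv (q : K) (i : ℕ) (lam : Fin n → ℕ) (x : ℕ) : Fin n → K :=
  fun a => q ^ x * (rowP q i a (lam a - 1)).eval (q ^ x)

/-- the family in the exterior algebra -/
noncomputable def io (v : ℕ → Fin n → K) (x : ℕ) : ExteriorAlgebra K (Fin n → K) :=
  ExteriorAlgebra.ι K (v x)

lemma io_anti (v : ℕ → Fin n → K) (x y : ℕ) : io v x * io v y = - (io v y * io v x) :=
  eq_neg_of_add_eq_zero_left (ExteriorAlgebra.ι_add_mul_swap _ _)

lemma io_sq (v : ℕ → Fin n → K) (x : ℕ) : io v x * io v x = 0 := ExteriorAlgebra.ι_sq_zero _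

lemma gv_mem (q : K) (i : ℕ) (lam : Fin n → ℕ) :
    io (gv q i lam) ∈ GX q (ExteriorAlgebra K (Fin n → K)) := by
  have h1 : io (gv q i lam) = ∑ a : Fin n, fun x => (q ^ x * (rowP q i a (lam a - 1)).eval (q ^ x)) •
      ExteriorAlgebra.ι K (Pi.single a (1 : K)) := by
    funext x
    rw [Finset.sum_apply]
    unfold io
    have h2 : gv q i lam x = ∑ a : Fin n, (q ^ x * (rowP q i a (lam a - 1)).eval (q ^ x)) •
        (Pi.single a (1 : K) : Fin n → K) := by
      funext b
      rw [Finset.sum_apply, Finset.sum_eq_single b]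
      · rw [Pi.smul_apply, Pi.single_eq_same, smul_eq_mul, mul_one]
        rfl
      · intro c _ hc
        rw [Pi.smul_apply, Pi.single_eq_of_ne hc.symm, smul_zero]
      · intro h
        exact absurd (mem_univ _) h
    rw [h2, map_sum]
    refine sum_congr rfl fun a _ => ?_
    rw [map_smul]
  rw [h1]
  exact Submodule.sum_mem _ fun a _ => GX_mem _ _

/-- scaling -/
lemma SS_smul {E : Type*} [Ring E] [Algebra K E] (c : K) (g : ℕ → E) : ∀ b r : ℕ,
    SS (fun x => c • g x) r b = c ^ r • SS g r b := by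
  intro b
  induction b with
  | zero =>
    intro r
    cases r with
    | zero => rw [SS_zero, SS_zero, pow_zero, one_smul]
    | succ r => rw [SS_succ_zero, SS_succ_zero, smul_zero]
  | succ b ih =>
    intro r
    cases r with
    | zero => rw [SS_zero, SS_zero, pow_zero, one_smul]
    | succ r =>
      rw [SS_succ, SS_succ, ih, ih, smul_add, smul_mul_smul_comm, ← pow_succ']

lemma SS_vanish {E : Type*} [Ring E] (g : ℕ → E) : ∀ b r : ℕ, (∀ x < b, g x = 0) →
    SS g (r + 1) b = 0 := by
  intro b
  induction b with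
  | zero => intro r _; rfl
  | succ b ih =>
    intro r h
    rw [SS_succ, ih r (fun x hx => h x (by omega)), h b (by omega), zero_mul, add_zero]

variable {q : K} (hq0 : q ≠ 0) (hq : ∀ j : ℕ, 1 - q ^ (j + 1) ≠ 0)

include hq0 hq in
/-- the sum over all labels as a function of the window variable -/
theorem SS_full {i : ℕ} {lam : Fin n → ℕ} (h1 : ∀ a, 1 ≤ lam a)
    (h2 : ∀ a : Fin n, i + 1 ≤ a + lam a) :
    ∃ F ∈ GS q (ExteriorAlgebra K (Fin n → K)) ((min n (i + 1) + 1) / 2),
      ∀ m, SS (io (fv q lam)) n (m + n) = F (m + i + 1) := by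
  rcases Nat.le_total (i + 1) n with hn | hn
  · obtain ⟨t, ht⟩ : ∃ t, n = t + (i + 1) := ⟨n - (i + 1), by omega⟩
    have e1 : (fun x => io (fv q lam) (t + x)) = fun x => q ^ t • io (gv q i lam) x := by
      funext x
      unfold io
      rw [← map_smul]
      congr 1
      funext a
      rw [Pi.smul_apply, smul_eq_mul]
      unfold fv gv
      have h3 := h1 a
      have h4 := h2 a
      obtain ⟨κ, hκ⟩ : ∃ κ, lam a = κ + 1 := ⟨lam a - 1, by omega⟩
      rw [hκ, Nat.add_sub_cancel,
        rowP_GF (i := i) hq0 hq (x := x) (l := t + x) a.2 (by omega) (by omega), pow_add, mul_assoc]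
    refine ⟨fun b => ∑ c ∈ range (n + 1), ((q ^ t) ^ c • SS (io (gv q i lam)) c b) *
      SS (io (fv q lam)) (n - c) t, ?_, fun m => ?_⟩
    · have e2 : (fun b => ∑ c ∈ range (n + 1), ((q ^ t) ^ c • SS (io (gv q i lam)) c b) *
          SS (io (fv q lam)) (n - c) t) =
          ∑ c ∈ range (n + 1), ((q ^ t) ^ c • SS (io (gv q i lam)) c) *
            (fun _ => SS (io (fv q lam)) (n - c) t) := by
        funext b
        rw [Finset.sum_apply]
        rfl
      rw [e2]
      refine Submodule.sum_mem _ fun c _ => ?_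
      by_cases hc : i + 1 ≤ c
      · have h3 := SS_mem hq (io_anti (gv q i lam)) (io_sq _) (gv_mem q i lam) c
        have h4 : (q ^ t) ^ c • SS (io (gv q i lam)) c ∈
            GS q (ExteriorAlgebra K (Fin n → K)) ((min n (i + 1) + 1) / 2) :=
          Submodule.smul_mem _ _ (GS_mono (by omega) h3)
        have h5 := GS_mul h4 (GS_const (q := q) (SS (io (fv q lam)) (n - c) t))
        rw [Nat.add_zero] at h5
        exact h5
      · rw [SS_lt (io (fv q lam)) t (n - c) (by omega)]
        have h6 : ((q ^ t) ^ c • SS (io (gv q i lam)) c) *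
            (fun _ : ℕ => (0 : ExteriorAlgebra K (Fin n → K))) = 0 := by
          funext b
          rw [Pi.mul_apply, mul_zero]
          rfl
        rw [h6]
        exact Submodule.zero_mem _
    · rw [show m + n = t + (m + i + 1) by omega, SS_add, e1]
      refine sum_congr rfl fun c _ => ?_
      rw [SS_smul]
  · obtain ⟨d, hd⟩ : ∃ d, i + 1 = d + n := ⟨i + 1 - n, by omega⟩
    have e1 : (fun x => io (gv q i lam) (d + x)) = fun x => q ^ d • io (fv q lam) x := by
      funext x
      unfold io
      rw [← map_smul]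
      congr 1
      funext a
      rw [Pi.smul_apply, smul_eq_mul]
      unfold fv gv
      have h3 := h1 a
      have h4 := h2 a
      obtain ⟨κ, hκ⟩ : ∃ κ, lam a = κ + 1 := ⟨lam a - 1, by omega⟩
      rw [hκ, Nat.add_sub_cancel,
        rowP_GF (i := i) hq0 hq (x := d + x) (l := x) a.2 (by omega) (by omega)]
      ring
    have e2 : ∀ x < d, io (gv q i lam) x = 0 := by
      intro x hx
      unfold io
      have h5 : gv q i lam x = 0 := by
        funext a
        unfold gv
        have h3 := h1 a
        have h4 := h2 a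
        have h6 := a.2
        rw [rowP_zero hq0 (by omega) (by omega), mul_zero]
        rfl
      rw [h5, map_zero]
    refine ⟨((q ^ d) ^ n)⁻¹ • SS (io (gv q i lam)) n, ?_, fun m => ?_⟩
    · have h3 := SS_mem hq (io_anti (gv q i lam)) (io_sq _) (gv_mem q i lam) n
      exact Submodule.smul_mem _ _ (GS_mono (by omega) h3)
    · rw [Pi.smul_apply, show m + i + 1 = d + (m + n) by omega, SS_add (io (gv q i lam)) d (m + n) n,
        e1, sum_range_succ]
      have h3 : ∑ c ∈ range n, SS (fun x => q ^ d • io (fv q lam) x) c (m + n) *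
          SS (io (gv q i lam)) (n - c) d = 0 := by
        refine sum_eq_zero fun c hc => ?_
        rw [mem_range] at hc
        rw [show n - c = (n - c - 1) + 1 by omega, SS_vanish _ _ _ e2, mul_zero]
      rw [h3, zero_add, Nat.sub_self, SS_zero, mul_one, SS_smul, smul_smul,
        inv_mul_cancel₀ (pow_ne_zero _ (pow_ne_zero _ hq0)), one_smul]

/-- the volume functional -/
noncomputable def vol (K : Type*) [Field K] (n : ℕ) : ExteriorAlgebra K (Fin n → K) →ₗ[K] K :=
  ExteriorAlgebra.liftAlternating (R := K) (Pi.single n Matrix.detRowAlternating)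

lemma vol_prod (v : Fin n → Fin n → K) :
    vol K n (List.ofFn fun c => ExteriorAlgebra.ι K (v c)).prod = Matrix.det (Matrix.of v) := by
  have h1 := ExteriorAlgebra.liftAlternating_apply_ιMulti (R := K) (M := Fin n → K) (N := K)
    (Pi.single n Matrix.detRowAlternating) v
  rw [ExteriorAlgebra.ιMulti_apply] at h1
  unfold vol
  rw [h1, Pi.single_eq_same]
  rfl

/-- the alternating sum is the volume of the sum over all labels -/
theorem Psi_vol (q : K) (m : ℕ) (lam : Fin n → ℕ) :
    Psi q n m lam = vol K n (SS (io (fv q lam)) n (m + n)) := by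
  classical
  rw [SS_eq, map_sum]
  unfold Psi
  refine sum_congr ?_ fun l _ => ?_
  · ext l
    rw [mem_filter, mem_filter]
    refine and_congr Iff.rfl ?_
    constructor
    · intro h a c hac
      exact h hac
    · intro h a c hac
      exact h a c hac
  · unfold io
    rw [vol_prod (fun c => fv q lam (l c)), ← Matrix.det_transpose]
    have h1 : (Matrix.of fun c => fv q lam (l c)) =
        Matrix.of (fun b a => (fun b : Fin n => q ^ (l b : ℕ)) b *
          (Matrix.of fun a b : Fin n => GF q (lam a) (n - 1 - a) (l b)).transpose b a) := by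
      refine Matrix.ext fun b a => ?_
      rw [Matrix.of_apply, Matrix.of_apply, Matrix.transpose_apply, Matrix.of_apply]
      rfl
    rw [h1, Matrix.det_mul_column, prod_pow_eq_pow_sum]

include hq0 hq in
/-- the alternating sum as a polynomial in the window variable -/
theorem Psi_dvd {i : ℕ} {lam : Fin n → ℕ} (h1 : ∀ a, 1 ≤ lam a)
    (h2 : ∀ a : Fin n, i + 1 ≤ a + lam a) :
    ∃ P : K[X], ∀ m, Psi q n m lam =
      (1 - q ^ (m + i + 1)) ^ ((min n (i + 1) + 1) / 2) * P.eval (q ^ (m + i + 1)) := by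
  obtain ⟨F, hF, hF2⟩ := SS_full hq0 hq h1 h2
  obtain ⟨P, hP⟩ := GS_apply (vol K n) hF
  exact ⟨P, fun m => by rw [Psi_vol, hF2, hP]⟩

end ext

end Pool.Agent.GaussPoset.Yg

end

/-! From `Pool.Agent.W_448fs_h63.SG` -/

section

/-! Order of the window polynomial of a shifted shape (MP_448cb3_co). -/

namespace Pool.Agent.GaussPoset.Yg

set_option linter.unusedSectionVars false

open Finset

universe u

section shifted

variable {Q : Type u} [Fintype Q] [PartialOrder Q] [DecidableEq Q] {n w : ℕ}

/-- the polynomial `U_m` of a poset isomorphic to the cells of a shifted shape -/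
theorem U_shift {lam : Fin n → ℕ} (h : StrictAnti lam)
    (e : Q ≃ {p : Fin n × Fin w // (p.2 : ℕ) < lam p.1})
    (he : ∀ x y : Q, x ≤ y ↔ leS (e y : Fin n × Fin w) (e x)) (m : ℕ) :
    ((U Q m : Polynomial ℤ) : PowerSeries ℤ) = USg qq w m lam := by
  classical
  have h1 : ((U Q m : Polynomial ℤ) : PowerSeries ℤ) =
      ∑ σ ∈ univ.filter (fun σ : Q → Fin (m + 1) => Monotone σ), qq ^ (∑ x, (σ x : ℕ)) := by
    unfold U
    rw [← Polynomial.coeToPowerSeries.ringHom_apply, map_sum]
    refine sum_congr ?_ fun σ _ => ?_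
    · ext σ
      simp
    · rw [map_pow]
      simp
  rw [h1]
  unfold USg
  refine sum_bij' (fun σ _ p => if hp : (p.2 : ℕ) < lam p.1 then (σ (e.symm ⟨p, hp⟩) : ℕ) else 0)
    (fun f _ x => (⟨f (e x) % (m + 1), Nat.mod_lt _ (Nat.succ_pos m)⟩ : Fin (m + 1)))
    ?_ ?_ ?_ ?_ ?_
  · intro σ hσ
    rw [mem_filter] at hσ
    rw [mem_FS]
    refine ⟨fun p => ?_, fun p p' hp => ?_, fun p hp => ?_⟩
    · split_ifs with hp
      · have := (σ (e.symm ⟨p, hp⟩)).2
        omega
      · exact Nat.zero_le _
    · by_cases hp' : (p'.2 : ℕ) < lam p'.1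
      · have h2 : (p.2 : ℕ) < lam p.1 := by
          have h3 := sa_add h (s := p.1) (s' := p'.1) hp.1
          have h4 := hp.2
          omega
        rw [dif_pos hp', dif_pos h2]
        have h3 : e.symm ⟨p', hp'⟩ ≤ e.symm ⟨p, h2⟩ := by
          rw [he, Equiv.apply_symm_apply, Equiv.apply_symm_apply]
          exact hp
        exact hσ.2 h3
      · rw [dif_neg hp']
        exact Nat.zero_le _
    · rw [dif_neg (by omega)]
  · intro f hf
    rw [mem_FS] at hf
    rw [mem_filter]
    refine ⟨mem_univ _, fun x y hxy => ?_⟩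
    rw [Fin.le_def]
    simp only
    rw [Nat.mod_eq_of_lt (by have := hf.1 (e x); omega),
      Nat.mod_eq_of_lt (by have := hf.1 (e y); omega)]
    exact hf.2.1 _ _ ((he x y).1 hxy)
  · intro σ hσ
    funext x
    apply Fin.ext
    simp only
    rw [dif_pos (e x).2]
    have : e.symm ⟨(e x : Fin n × Fin w), (e x).2⟩ = x := e.symm_apply_apply x
    rw [this]
    exact Nat.mod_eq_of_lt (σ x).2
  · intro f hf
    rw [mem_FS] at hf
    funext p
    simp only
    split_ifs with hp
    · rw [Equiv.apply_symm_apply]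
      have h3 := hf.1 p
      exact Nat.mod_eq_of_lt (show f p < m + 1 by omega)
    · exact (hf.2.2 p (by omega)).symm
  · intro σ hσ
    congr 1
    have h2 : ∑ p : Fin n × Fin w, (if hp : (p.2 : ℕ) < lam p.1 then
        (σ (e.symm ⟨p, hp⟩) : ℕ) else 0) =
        ∑ p : {p : Fin n × Fin w // (p.2 : ℕ) < lam p.1}, (σ (e.symm p) : ℕ) := by
      have h3 : ∑ p : Fin n × Fin w, (if hp : (p.2 : ℕ) < lam p.1 then
          (σ (e.symm ⟨p, hp⟩) : ℕ) else 0) =
          ∑ p ∈ univ.filter (fun p : Fin n × Fin w => (p.2 : ℕ) < lam p.1),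
          (if hp : (p.2 : ℕ) < lam p.1 then (σ (e.symm ⟨p, hp⟩) : ℕ) else 0) := by
        symm
        refine sum_subset (filter_subset _ _) fun p _ hp => ?_
        rw [mem_filter, not_and] at hp
        rw [dif_neg (hp (mem_univ _))]
      rw [h3, Finset.sum_subtype (p := fun p : Fin n × Fin w => (p.2 : ℕ) < lam p.1) _
        (fun p => by rw [mem_filter]; simp)]
      refine sum_congr rfl fun p _ => ?_
      rw [dif_pos p.2]
    rw [h2]
    exact (Equiv.sum_comp e.symm (fun x => (σ x : ℕ))).symm

/-- the order of the window polynomial of a shifted shape -/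
theorem shift_dvd {lam : Fin n → ℕ} (h : StrictAnti lam) (hn : ∀ s, lam s ≤ w)
    (e : Q ≃ {p : Fin n × Fin w // (p.2 : ℕ) < lam p.1})
    (he : ∀ x y : Q, x ≤ y ↔ leS (e y : Fin n × Fin w) (e x)) {i : ℕ}
    (h1 : ∀ a, 1 ≤ lam a) (h2 : ∀ a : Fin n, i + 1 ≤ a + lam a) :
    (1 + Polynomial.X : Polynomial (PowerSeries ℤ)) ^ ((min n (i + 1) + 1) / 2) ∣ W Q i := by
  have hmon : ((1 + Polynomial.X : Polynomial (PowerSeries ℤ)) ^
      ((min n (i + 1) + 1) / 2)).Monic := by
    apply Polynomial.Monic.pow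
    rw [add_comm]
    exact Polynomial.monic_X_add_C 1
  set φ := algebraMap (PowerSeries ℤ) (FractionRing (PowerSeries ℤ)) with hφ
  have hφi : Function.Injective φ := IsFractionRing.injective _ _
  set q := φ qq with hqd
  have hq0 : q ≠ 0 := by
    rw [hqd, ne_eq, map_eq_zero_iff φ hφi]
    exact qq_ne
  have hq : ∀ j : ℕ, 1 - q ^ (j + 1) ≠ 0 := by
    intro j hj
    rw [hqd, ← map_pow, ← map_one φ, ← map_sub, map_eq_zero_iff φ hφi] at hj
    have h1 := congrArg (PowerSeries.constantCoeff (R := ℤ)) hj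
    simp at h1
  have : CharZero (FractionRing (PowerSeries ℤ)) := by
    refine ⟨fun a b hab => ?_⟩
    rw [← map_natCast φ, ← map_natCast φ] at hab
    have h1 := congrArg (PowerSeries.constantCoeff (R := ℤ)) (hφi hab)
    simpa using h1
  obtain ⟨P, hP⟩ := Psi_dvd hq0 hq h1 h2
  rw [← Polynomial.map_dvd_map φ hφi hmon]
  rw [Polynomial.map_pow, Polynomial.map_add, Polynomial.map_one, Polynomial.map_X]
  set k := (min n (i + 1) + 1) / 2 with hk
  have key : Polynomial.C (q ^ (∑ b : Fin n, (n - 1 - b))) * (W Q i).map φ =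
      Polynomial.C (q ^ (i * Fintype.card Q)) *
        ((1 + Polynomial.X) ^ k * P.comp (-Polynomial.X)) := by
    apply Polynomial.eq_of_infinite_eval_eq
    have hinj : Function.Injective (fun m : ℕ => φ (pt i m)) := by
      intro a b hab
      have hab2 := hφi hab
      unfold pt at hab2
      simp only [neg_inj] at hab2
      have := congrArg PowerSeries.order hab2
      rw [PowerSeries.order_X_pow, PowerSeries.order_X_pow] at this
      have h2 : i + a + 1 = i + b + 1 := by exact_mod_cast this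
      omega
    refine Set.infinite_of_injective_forall_mem hinj fun m => ?_
    simp only [Set.mem_setOf_eq]
    have h3 : (W Q i).eval (pt i m) = qq ^ (i * Fintype.card Q) *
        ((U Q m : Polynomial ℤ) : PowerSeries ℤ) := W_eval i m
    have h4 : ((W Q i).map φ).eval (φ (pt i m)) = φ ((W Q i).eval (pt i m)) := by
      rw [Polynomial.eval_map, Polynomial.eval₂_hom]
    have h5 : φ (USg qq w m lam) = USg q w m lam := by
      unfold USg
      rw [map_sum]
      exact sum_congr rfl fun f _ => by rw [map_pow]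
    have h6 : φ (pt i m) = -q ^ (m + i + 1) := by
      unfold pt
      rw [map_neg, map_pow, hqd, show i + m + 1 = m + i + 1 by ring]
    have h7 := USg_eq q w _ n m lam h hn le_rfl
    rw [Polynomial.eval_mul, Polynomial.eval_C, h4, h3, map_mul, map_pow, U_shift h e he m, h5,
      Polynomial.eval_mul, Polynomial.eval_C, Polynomial.eval_mul, Polynomial.eval_pow,
      Polynomial.eval_add, Polynomial.eval_one, Polynomial.eval_X, Polynomial.eval_comp,
      Polynomial.eval_neg, Polynomial.eval_X, h6, neg_neg, ← sub_eq_add_neg]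
    have h8 := hP m
    rw [← h7] at h8
    linear_combination (q ^ (i * Fintype.card Q)) * h8
  have hu : IsUnit (Polynomial.C (q ^ (∑ b : Fin n, (n - 1 - b)))) :=
    Polynomial.isUnit_C.2 (isUnit_iff_ne_zero.2 (pow_ne_zero _ hq0))
  rw [← hu.dvd_mul_left, key]
  exact Dvd.dvd.mul_left (Dvd.intro _ rfl) _

/-- coordinates in a shifted shape (the greatest cell is `(0,0)`, cells `(a,c)` with `a ≤ c`): if
every nonempty row `a ≤ i` contains the cell `(a,i)`, the row `2k-2` is nonempty and
`2k ≤ i + 2`, then the window polynomial at `i` has order at least `k`. -/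
theorem shift_dvd_co (co : Q → ℕ × ℕ) (hinj : Function.Injective co)
    (hge : ∀ x, (co x).1 ≤ (co x).2) (hle : ∀ x y : Q, x ≤ y ↔ co y ≤ co x)
    (hlow : ∀ x : Q, ∀ c ≤ co x, c.1 ≤ c.2 → ∃ y, co y = c) {i k : ℕ} (hk : 2 * k ≤ i + 2)
    (hrow : ∀ x : Q, (co x).1 ≤ i → ∃ y, co y = ((co x).1, i))
    (hcell : ∀ s, s + 2 = 2 * k → ∃ x, (co x).1 = s) :
    (1 + Polynomial.X : Polynomial (PowerSeries ℤ)) ^ k ∣ W Q i := by
  classical
  rcases Nat.eq_zero_or_pos k with rfl | hk0
  · rw [pow_zero]
    exact one_dvd _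
  obtain ⟨x0, hx0⟩ := hcell (2 * k - 2) (by omega)
  set n := (univ : Finset Q).sup (fun x => (co x).1 + 1) with hn
  set w := (univ : Finset Q).sup (fun x => (co x).2 + 1) with hw
  have hn1 : ∀ x : Q, (co x).1 < n := fun x =>
    Nat.lt_of_succ_le (le_sup (f := fun x : Q => (co x).1 + 1) (mem_univ x))
  have hw1 : ∀ x : Q, (co x).2 < w := fun x =>
    Nat.lt_of_succ_le (le_sup (f := fun x : Q => (co x).2 + 1) (mem_univ x))
  have hmax : ∃ x : Q, (co x).1 + 1 = n := by
    obtain ⟨x, -, hx⟩ := exists_mem_eq_sup (univ : Finset Q) ⟨x0, mem_univ _⟩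
      (fun x => (co x).1 + 1)
    exact ⟨x, hx.symm⟩
  obtain ⟨xm, hxm⟩ := hmax
  let lam : Fin n → ℕ := fun s => ((range w).filter (fun c => ∃ x, co x = ((s : ℕ), (s : ℕ) + c))).card
  have hfil : ∀ s : Fin n, ∀ c : ℕ, (∃ x, co x = ((s : ℕ), (s : ℕ) + c)) ↔ c < lam s := by
    intro s c
    have h1 : ∀ c c' : ℕ, c' ≤ c → (∃ x, co x = ((s : ℕ), (s : ℕ) + c)) →
        ∃ x, co x = ((s : ℕ), (s : ℕ) + c') := by
      rintro c c' hc ⟨x, hx⟩
      exact hlow x _ (by rw [hx]; exact ⟨le_rfl, by simp only; omega⟩) (by simp)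
    constructor
    · intro h
      have h2 : range (c + 1) ⊆ (range w).filter (fun c => ∃ x, co x = ((s : ℕ), (s : ℕ) + c)) := by
        intro c' hc'
        rw [mem_range] at hc'
        obtain ⟨x, hx⟩ := h1 c c' (by omega) h
        rw [mem_filter, mem_range]
        refine ⟨?_, x, hx⟩
        have := hw1 x
        rw [hx] at this
        simp only at this
        omega
      have h3 := card_le_card h2
      rw [card_range] at h3
      exact h3
    · intro h
      by_contra hcon
      have h2 : (range w).filter (fun c => ∃ x, co x = ((s : ℕ), (s : ℕ) + c)) ⊆ range c := by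
        intro c' hc'
        rw [mem_filter] at hc'
        rw [mem_range]
        by_contra h3
        exact hcon (h1 c' c (by omega) hc'.2)
      have h3 := card_le_card h2
      rw [card_range] at h3
      have h4 : lam s ≤ c := h3
      omega
  have hpos : ∀ s, 1 ≤ lam s := by
    intro s
    refine (hfil s 0).1 ?_
    refine hlow xm _ ?_ (by simp)
    have h1 := hge xm
    have h2 := s.2
    exact ⟨by simp only; omega, by simp only; omega⟩
  have hanti : StrictAnti lam := by
    intro s s' hs
    have h1 := hpos s'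
    obtain ⟨x, hx⟩ := (hfil s' (lam s' - 1)).2 (by omega)
    have h2 : (s : ℕ) < s' := hs
    obtain ⟨y, hy⟩ := hlow x ((s : ℕ), (s : ℕ) + lam s') (by
      rw [hx]
      exact ⟨by simp only; omega, by simp only; omega⟩) (by simp)
    exact (hfil s (lam s')).1 ⟨y, hy⟩
  have hlen : ∀ s, lam s ≤ w := by
    intro s
    have h1 := card_filter_le (range w) (fun c => ∃ x, co x = ((s : ℕ), (s : ℕ) + c))
    rw [card_range] at h1
    exact h1
  let toF : Q → {p : Fin n × Fin w // (p.2 : ℕ) < lam p.1} := fun x =>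
    ⟨(⟨(co x).1, hn1 x⟩, ⟨(co x).2 - (co x).1, by have := hw1 x; omega⟩),
      (hfil ⟨(co x).1, hn1 x⟩ ((co x).2 - (co x).1)).1 ⟨x, by
        have := hge x
        refine Prod.ext rfl ?_
        simp only
        omega⟩⟩
  have hbij : Function.Bijective toF := by
    constructor
    · intro x y hxy
      have h1 := congrArg (fun p => (p.1.1 : ℕ)) hxy
      have h2 := congrArg (fun p => (p.1.2 : ℕ)) hxy
      have h3 : (co x).1 = (co y).1 := h1
      have h4 : (co x).2 - (co x).1 = (co y).2 - (co y).1 := h2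
      have h5 := hge x
      have h6 := hge y
      exact hinj (Prod.ext h3 (by omega))
    · rintro ⟨⟨s, c⟩, hp⟩
      obtain ⟨x, hx⟩ := (hfil s c).2 hp
      refine ⟨x, ?_⟩
      apply Subtype.ext
      apply Prod.ext
      · apply Fin.ext
        change (co x).1 = s
        rw [hx]
      · apply Fin.ext
        change (co x).2 - (co x).1 = c
        rw [hx]
        simp
  have h2 : ∀ a : Fin n, i + 1 ≤ a + lam a := by
    intro a
    by_cases ha : (a : ℕ) ≤ i
    · obtain ⟨x, hx⟩ := (hfil a 0).2 (hpos a)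
      obtain ⟨y, hy⟩ := hrow x (by rw [hx]; exact ha)
      have h3 := (hfil a (i - a)).1 ⟨y, by
        rw [hy, hx]
        refine Prod.ext rfl ?_
        simp only
        omega⟩
      omega
    · have := hpos a
      omega
  have h3 := shift_dvd hanti hlen (Equiv.ofBijective toF hbij) (by
    intro x y
    rw [hle]
    have h5 := hge x
    have h6 := hge y
    constructor
    · intro h
      have h7 : (co y).1 ≤ (co x).1 := h.1
      have h8 : (co y).2 ≤ (co x).2 := h.2
      exact ⟨h7, by
        change (co y).1 + ((co y).2 - (co y).1) ≤ (co x).1 + ((co x).2 - (co x).1)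
        omega⟩
    · intro h
      have h7 : (co y).1 ≤ (co x).1 := h.1
      have h8 : (co y).1 + ((co y).2 - (co y).1) ≤ (co x).1 + ((co x).2 - (co x).1) := h.2
      exact ⟨h7, by omega⟩) hpos h2
  refine dvd_trans (pow_dvd_pow _ ?_) h3
  have h4 := hn1 x0
  omega

/-- the cell `(2 * (i / 2), i)` belongs to the shape (`(i,i)` for `i` even, `(i-1,i)` for `i`
odd): the window polynomial at `i` has order at least `i / 2 + 1` -/
theorem shift_dvd_cell (co : Q → ℕ × ℕ) (hinj : Function.Injective co)
    (hge : ∀ x, (co x).1 ≤ (co x).2) (hle : ∀ x y : Q, x ≤ y ↔ co y ≤ co x)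
    (hlow : ∀ x : Q, ∀ c ≤ co x, c.1 ≤ c.2 → ∃ y, co y = c) {i : ℕ}
    (hc : ∃ x, co x = (2 * (i / 2), i)) :
    (1 + Polynomial.X : Polynomial (PowerSeries ℤ)) ^ (i / 2 + 1) ∣ W Q i := by
  obtain ⟨x0, hx0⟩ := hc
  refine shift_dvd_co co hinj hge hle hlow (by omega) (fun x hx => ?_) (fun s hs => ?_)
  · by_cases h1 : (co x).1 ≤ 2 * (i / 2)
    · exact hlow x0 _ (by rw [hx0]; exact ⟨h1, le_rfl⟩) hx
    · have h2 : (co x).1 = i := by omega
      rw [h2]
      have h3 := hge x
      exact hlow x _ ⟨by simp only; omega, by simp only; omega⟩ le_rfl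
  · exact ⟨x0, by rw [hx0]; simp only; omega⟩

end shifted

end Pool.Agent.GaussPoset.Yg

end

/-! From `Pool.Agent.W_448s7_h27.HangA` -/

section

/-!
Hanging a poset below one element: the order of the window polynomial of `Q0` with an arbitrary
poset `T` hung below `x0` follows from the case of chains.
-/

namespace Pool.Agent.GaussPoset

set_option linter.unusedSectionVars false

open Finset

universe u v

/-- generating functions of isomorphic posets -/
theorem U_iso {Q : Type u} {R : Type v} [Fintype Q] [PartialOrder Q] [Fintype R] [PartialOrder R]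
    (e : Q ≃o R) (m : ℕ) : U Q m = U R m := by
  classical
  unfold U
  refine Finset.sum_bij' (fun σ _ x => σ (e.symm x)) (fun τ _ x => τ (e x)) ?_ ?_ ?_ ?_ ?_
  · intro σ hσ
    simp only [mem_filter, mem_univ, true_and] at hσ ⊢
    exact fun x y hxy => hσ (e.symm.monotone hxy)
  · intro τ hτ
    simp only [mem_filter, mem_univ, true_and] at hτ ⊢
    exact fun x y hxy => hτ (e.monotone hxy)
  · intro σ _
    funext x
    simp
  · intro τ _
    funext x
    simp
  · intro σ _
    congr 1
    exact (Equiv.sum_comp e.symm.toEquiv (fun x => ((σ x : ℕ)))).symm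

/-- window polynomials of isomorphic posets -/
theorem W_iso {Q : Type u} {R : Type v} [Fintype Q] [PartialOrder Q] [DecidableEq Q] [Fintype R]
    [PartialOrder R] [DecidableEq R] (e : Q ≃o R) (i : ℕ) : W Q i = W R i := by
  apply Polynomial.eq_of_infinite_eval_eq
  have hinj : Function.Injective (fun m : ℕ => -(PowerSeries.X : PowerSeries ℤ) ^ (i + m + 1)) := by
    intro a b hab
    simp only [neg_inj] at hab
    have := congrArg PowerSeries.order hab
    rw [PowerSeries.order_X_pow, PowerSeries.order_X_pow] at this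
    have h2 : i + a + 1 = i + b + 1 := by exact_mod_cast this
    omega
  refine Set.infinite_of_injective_forall_mem hinj fun m => ?_
  simp only [Set.mem_ofPred_eq]
  rw [W_eval, W_eval, U_iso e m, Fintype.card_congr e.toEquiv]

/-- `T` hung below `x0` -/
def Hang (Q : Type u) (T : Type v) (_ : Q) := Q ⊕ T

section Hang

variable {Q : Type u} {T : Type v} [PartialOrder Q] [PartialOrder T] {x0 : Q}

/-- the order of a hanging -/
def Hang.le : Hang Q T x0 → Hang Q T x0 → Prop
  | Sum.inl x, Sum.inl y => x ≤ y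
  | Sum.inr s, Sum.inr t => s ≤ t
  | Sum.inr _, Sum.inl y => x0 ≤ y
  | Sum.inl _, Sum.inr _ => False

instance : PartialOrder (Hang Q T x0) where
  le := Hang.le
  le_refl := by
    rintro (x | t)
    · exact le_refl x
    · exact le_refl t
  le_trans := by
    rintro (x | x) (y | y) (z | z) h1 h2
    · exact le_trans (a := x) h1 h2
    · exact h2
    · exact h1.elim
    · exact h1.elim
    · exact le_trans (a := x0) h1 h2
    · exact h2.elim
    · exact h2
    · exact le_trans (a := x) h1 h2
  le_antisymm := by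
    rintro (x | x) (y | y) h1 h2
    · exact congrArg Sum.inl (le_antisymm (a := x) h1 h2)
    · exact h1.elim
    · exact h2.elim
    · exact congrArg Sum.inr (le_antisymm (a := x) h1 h2)

instance [Fintype Q] [Fintype T] : Fintype (Hang Q T x0) := inferInstanceAs (Fintype (Q ⊕ T))

instance [DecidableEq Q] [DecidableEq T] : DecidableEq (Hang Q T x0) :=
  inferInstanceAs (DecidableEq (Q ⊕ T))

lemma Hang.inl_le_inl {x y : Q} : @LE.le (Hang Q T x0) _ (Sum.inl x) (Sum.inl y) ↔ x ≤ y :=
  Iff.rfl

lemma Hang.inr_le_inr {s t : T} : @LE.le (Hang Q T x0) _ (Sum.inr s) (Sum.inr t) ↔ s ≤ t :=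
  Iff.rfl

lemma Hang.inr_le_inl {s : T} {y : Q} :
    @LE.le (Hang Q T x0) _ (Sum.inr s) (Sum.inl y) ↔ x0 ≤ y := Iff.rfl

variable [Fintype Q] [Fintype T]

open Classical in
/-- generating function with an upper bound -/
lemma U_le {m k : ℕ} (hk : k ≤ m) : U T k = ∑ τ ∈ (univ : Finset (T → Fin (m + 1))).filter
    (fun τ : T → Fin (m + 1) => Monotone τ ∧ ∀ t, (τ t : ℕ) ≤ k), (Polynomial.X : Polynomial ℤ) ^ (∑ t, (τ t : ℕ)) := by
  classical
  unfold U
  refine Finset.sum_bij' (fun σ _ t => (⟨(σ t : ℕ), by have := (σ t).2; omega⟩ : Fin (m + 1)))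
    (fun τ _ t => (⟨(τ t : ℕ) % (k + 1), Nat.mod_lt _ (Nat.succ_pos k)⟩ : Fin (k + 1)))
    ?_ ?_ ?_ ?_ ?_
  · intro σ hσ
    simp only [mem_filter, mem_univ, true_and] at hσ ⊢
    exact ⟨fun x y hxy => hσ hxy, fun t => by have := (σ t).2; omega⟩
  · intro τ hτ
    simp only [mem_filter, mem_univ, true_and] at hτ ⊢
    intro x y hxy
    rw [Fin.le_def]
    simp only
    rw [Nat.mod_eq_of_lt (by have := hτ.2 x; omega), Nat.mod_eq_of_lt (by have := hτ.2 y; omega)]
    exact hτ.1 hxy
  · intro σ _
    funext t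
    apply Fin.ext
    simp only
    exact Nat.mod_eq_of_lt (σ t).2
  · intro τ hτ
    simp only [mem_filter, mem_univ, true_and] at hτ
    funext t
    apply Fin.ext
    simp only
    exact Nat.mod_eq_of_lt (by have := hτ.2 t; omega)
  · intro σ _
    rfl

open Classical in
/-- generating function of a hanging -/
theorem U_hang (m : ℕ) : U (Hang Q T x0) m =
    ∑ σ ∈ (univ : Finset (Q → Fin (m + 1))).filter (fun σ => Monotone σ),
      (Polynomial.X : Polynomial ℤ) ^ (∑ x, (σ x : ℕ)) * U T (σ x0) := by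
  have h1 : ∀ σ : Q → Fin (m + 1), (Polynomial.X : Polynomial ℤ) ^ (∑ x, (σ x : ℕ)) * U T (σ x0) =
      ∑ τ ∈ (univ : Finset (T → Fin (m + 1))).filter
        (fun τ : T → Fin (m + 1) => Monotone τ ∧ ∀ t, (τ t : ℕ) ≤ σ x0),
        (Polynomial.X : Polynomial ℤ) ^ (∑ x, (σ x : ℕ) + ∑ t, (τ t : ℕ)) := by
    intro σ
    rw [U_le (show ((σ x0 : ℕ)) ≤ m by have := (σ x0).2; omega), Finset.mul_sum]
    exact Finset.sum_congr rfl fun τ _ => (pow_add _ _ _).symm
  rw [Finset.sum_congr rfl (fun σ _ => h1 σ), Finset.sum_sigma']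
  unfold U
  refine Finset.sum_bij' (fun ρ _ => ⟨fun x => ρ (Sum.inl x), fun t => ρ (Sum.inr t)⟩)
    (fun p _ => Sum.elim p.1 p.2) ?_ ?_ ?_ ?_ ?_
  · intro ρ hρ
    simp only [mem_filter, mem_univ, true_and, mem_sigma] at hρ ⊢
    refine ⟨fun x y hxy => hρ (Hang.inl_le_inl.mpr hxy), fun s t hst => hρ (Hang.inr_le_inr.mpr hst),
      fun t => ?_⟩
    exact hρ (Hang.inr_le_inl.mpr (le_refl x0))
  · rintro ⟨σ, τ⟩ hp
    simp only [mem_filter, mem_univ, true_and, mem_sigma] at hp ⊢
    rintro (x | x) (y | y) hxy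
    · exact hp.1 hxy
    · exact hxy.elim
    · exact le_trans (Fin.le_def.mpr (hp.2.2 x)) (hp.1 hxy)
    · exact hp.2.1 hxy
  · intro ρ _
    funext x
    rcases x with x | x <;> rfl
  · rintro ⟨σ, τ⟩ _
    rfl
  · intro ρ _
    congr 1
    exact Fintype.sum_sum_type (fun x : Q ⊕ T => ((ρ x : Fin (m + 1)) : ℕ))

end Hang

end Pool.Agent.GaussPoset

end

/-! From `Pool.Agent.W_448s7_h27.HangB` -/

section

/-!
Hanging a poset below one element: the main theorem.
-/

namespace Pool.Agent.GaussPoset

set_option linter.unusedSectionVars false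

open Finset Yg

universe u v

/-- generating function of a chain -/
lemma U_chain (a k : ℕ) : ((U (Fin a)ᵒᵈ k : Polynomial ℤ) : PowerSeries ℤ) = qb qq (k + a) a := by
  classical
  have hn : ∀ s : Fin 1, (fun _ : Fin 1 => a) s ≤ a := fun _ => le_rfl
  have h : Antitone (fun _ : Fin 1 => a) := fun _ _ _ => le_rfl
  let e : (Fin a)ᵒᵈ ≃ {p : Fin 1 × Fin a // (p.2 : ℕ) < (fun _ : Fin 1 => a) p.1} :=
    { toFun := fun x => ⟨(0, OrderDual.ofDual x), (OrderDual.ofDual x).2⟩
      invFun := fun p => OrderDual.toDual p.1.2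
      left_inv := fun x => rfl
      right_inv := by
        rintro ⟨⟨s, c⟩, hp⟩
        apply Subtype.ext
        apply Prod.ext
        · exact (Subsingleton.elim _ _)
        · rfl }
  have he : ∀ x y : (Fin a)ᵒᵈ, x ≤ y ↔ (e y : Fin 1 × Fin a) ≤ e x := by
    intro x y
    constructor
    · intro hxy
      exact ⟨le_rfl, hxy⟩
    · intro hxy
      exact hxy.2
  rw [U_young h e he k, UY_eq qq_ne _ k _ h hn le_rfl]
  unfold DY
  rw [Matrix.det_fin_one]
  simp [ent, tr_self]

lemma qb_step (a k : ℕ) : (1 - (qq : PowerSeries ℤ) ^ (k + a + 1)) * qb qq (k + a) a =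
    (1 - qq ^ (a + 1)) * qb qq (k + (a + 1)) (a + 1) := by
  have h1 := qb_prod (qq : PowerSeries ℤ) (k + a) a
  have h2 := qb_prod (qq : PowerSeries ℤ) (k + (a + 1)) (a + 1)
  rw [prod_range_succ, prod_range_succ'] at h2
  have h3 : ∏ u ∈ range a, (1 - (qq : PowerSeries ℤ) ^ (k + (a + 1) - (u + 1))) =
      ∏ u ∈ range a, (1 - qq ^ (k + a - u)) := by
    refine prod_congr rfl fun u _ => ?_
    congr 2
    omega
  rw [h3, ← h1] at h2
  have h4 : (∏ u ∈ range a, (1 - (qq : PowerSeries ℤ) ^ (u + 1))) ≠ 0 := dn_ne a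
  refine mul_right_cancel₀ h4 ?_
  rw [show k + (a + 1) - 0 = k + a + 1 by omega] at h2
  linear_combination -h2

section Main

variable {Q : Type u} [Fintype Q] [PartialOrder Q] [DecidableEq Q] {x0 : Q} {i b : ℕ}

open Classical in
/-- weighted sum over the order preserving maps of `Q`, weight `f` of the value at `x0` -/
noncomputable def Sw (x0 : Q) (f : ℕ → PowerSeries ℤ) (m : ℕ) : PowerSeries ℤ :=
  ∑ σ ∈ (univ : Finset (Q → Fin (m + 1))).filter (fun σ => Monotone σ),
    qq ^ (∑ x, (σ x : ℕ)) * f (σ x0)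

/-- the weight `f` gives a window polynomial of order `b` -/
def Pty (x0 : Q) (i b : ℕ) (f : ℕ → PowerSeries ℤ) : Prop :=
  ∃ D : PowerSeries ℤ, D ≠ 0 ∧ ∃ w : Polynomial (PowerSeries ℤ),
    (1 + Polynomial.X : Polynomial (PowerSeries ℤ)) ^ b ∣ w ∧
      ∀ m, w.eval (pt i m) = D * Sw x0 f m

lemma Pty.add {f g : ℕ → PowerSeries ℤ} (hf : Pty x0 i b f) (hg : Pty x0 i b g) :
    Pty x0 i b (fun k => f k + g k) := by
  classical
  obtain ⟨D1, h1, w1, d1, e1⟩ := hf
  obtain ⟨D2, h2, w2, d2, e2⟩ := hg
  refine ⟨D1 * D2, mul_ne_zero h1 h2, Polynomial.C D2 * w1 + Polynomial.C D1 * w2,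
    dvd_add (Dvd.dvd.mul_left d1 _) (Dvd.dvd.mul_left d2 _), fun m => ?_⟩
  rw [Polynomial.eval_add, Polynomial.eval_mul, Polynomial.eval_mul, Polynomial.eval_C,
    Polynomial.eval_C, e1, e2]
  have : Sw x0 (fun k => f k + g k) m = Sw x0 f m + Sw x0 g m := by
    unfold Sw
    rw [← sum_add_distrib]
    exact sum_congr rfl fun σ _ => by ring
  rw [this]
  ring

lemma Sw_smul (c : PowerSeries ℤ) (f : ℕ → PowerSeries ℤ) (m : ℕ) :
    Sw x0 (fun k => c * f k) m = c * Sw x0 f m := by
  unfold Sw
  rw [mul_sum]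
  exact sum_congr rfl fun σ _ => by ring

lemma Pty.smul (c : PowerSeries ℤ) {f : ℕ → PowerSeries ℤ} (hf : Pty x0 i b f) :
    Pty x0 i b (fun k => c * f k) := by
  obtain ⟨D1, h1, w1, d1, e1⟩ := hf
  refine ⟨D1, h1, Polynomial.C c * w1, Dvd.dvd.mul_left d1 _, fun m => ?_⟩
  rw [Polynomial.eval_mul, Polynomial.eval_C, e1, Sw_smul]
  ring

lemma Pty.of_smul {c : PowerSeries ℤ} (hc : c ≠ 0) {f : ℕ → PowerSeries ℤ}
    (hf : Pty x0 i b (fun k => c * f k)) : Pty x0 i b f := by
  obtain ⟨D1, h1, w1, d1, e1⟩ := hf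
  refine ⟨D1 * c, mul_ne_zero h1 hc, w1, d1, fun m => ?_⟩
  rw [e1, Sw_smul]
  ring

lemma Pty.zero : Pty x0 i b (fun _ => 0) := by
  refine ⟨1, one_ne_zero, 0, dvd_zero _, fun m => ?_⟩
  rw [Polynomial.eval_zero]
  unfold Sw
  rw [sum_congr rfl (fun σ _ => mul_zero _), sum_const_zero, mul_zero]

lemma Pty.sum {ι : Type*} (s : Finset ι) {f : ι → ℕ → PowerSeries ℤ}
    (hf : ∀ j ∈ s, Pty x0 i b (f j)) : Pty x0 i b (fun k => ∑ j ∈ s, f j k) := by
  classical
  induction s using Finset.induction_on with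
  | empty =>
    have : (fun k => ∑ j ∈ (∅ : Finset ι), f j k) = fun _ => 0 := by
      funext k
      exact sum_empty
    rw [this]
    exact Pty.zero
  | insert j s hj ih =>
    have h1 : (fun k => ∑ j ∈ insert j s, f j k) = fun k => f j k + ∑ j ∈ s, f j k := by
      funext k
      exact sum_insert hj
    rw [h1]
    exact Pty.add (hf j (mem_insert_self _ _)) (ih fun j hj => hf j (mem_insert_of_mem hj))

lemma coe_U_hang {T : Type v} [Fintype T] [PartialOrder T] [DecidableEq T] (m : ℕ) :
    ((U (Hang Q T x0) m : Polynomial ℤ) : PowerSeries ℤ) =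
      Sw x0 (fun k => ((U T k : Polynomial ℤ) : PowerSeries ℤ)) m := by
  classical
  rw [U_hang, ← Polynomial.coeToPowerSeries.ringHom_apply, map_sum]
  unfold Sw
  refine sum_congr (by ext σ; simp) fun σ _ => ?_
  rw [map_mul, map_pow]
  simp

variable (hc : ∀ a : ℕ, (1 + Polynomial.X : Polynomial (PowerSeries ℤ)) ^ b ∣
  W (Hang Q (Fin a)ᵒᵈ x0) i)

include hc in
lemma pty_chain (a : ℕ) : Pty x0 i b (fun k => qb qq (k + a) a) := by
  refine ⟨qq ^ (i * Fintype.card (Hang Q (Fin a)ᵒᵈ x0)), pow_ne_zero _ qq_ne,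
    W (Hang Q (Fin a)ᵒᵈ x0) i, hc a, fun m => ?_⟩
  have h1 : (W (Hang Q (Fin a)ᵒᵈ x0) i).eval (pt i m) =
      qq ^ (i * Fintype.card (Hang Q (Fin a)ᵒᵈ x0)) *
        ((U (Hang Q (Fin a)ᵒᵈ x0) m : Polynomial ℤ) : PowerSeries ℤ) := W_eval i m
  rw [h1, coe_U_hang]
  simp only [U_chain]

include hc in
lemma pty_pow (j : ℕ) : ∀ a : ℕ, Pty x0 i b (fun k => qq ^ (j * k) * qb qq (k + a) a) := by
  induction j with
  | zero =>
    intro a
    simp only [Nat.zero_mul, pow_zero, one_mul]
    exact pty_chain hc a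
  | succ j ih =>
    intro a
    refine Pty.of_smul (c := qq ^ (a + 1)) (pow_ne_zero _ qq_ne) ?_
    have h1 := Pty.add (ih a) (Pty.smul (-(1 - qq ^ (a + 1))) (ih (a + 1)))
    have h2 : (fun k => qq ^ (j * k) * qb qq (k + a) a +
        -(1 - qq ^ (a + 1)) * (qq ^ (j * k) * qb qq (k + (a + 1)) (a + 1))) =
        fun k => (qq : PowerSeries ℤ) ^ (a + 1) * (qq ^ ((j + 1) * k) * qb qq (k + a) a) := by
      funext k
      have h3 := qb_step a k
      have h4 : (qq : PowerSeries ℤ) ^ ((j + 1) * k) = qq ^ (j * k) * qq ^ k := by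
        rw [← pow_add]
        congr 1
        ring
      have h5 : (qq : PowerSeries ℤ) ^ (k + a + 1) = qq ^ (a + 1) * qq ^ k := by
        rw [← pow_add]
        congr 1
        ring
      rw [h5] at h3
      rw [h4]
      linear_combination (qq : PowerSeries ℤ) ^ (j * k) * h3
    rw [← h2]
    exact h1

include hc in
/-- every poset hung below `x0` keeps the order of the chains -/
theorem dvd_W_hang (T : Type v) [Fintype T] [PartialOrder T] [DecidableEq T] :
    (1 + Polynomial.X : Polynomial (PowerSeries ℤ)) ^ b ∣ W (Hang Q T x0) i := by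
  classical
  have hU : ∀ k, ((U T k : Polynomial ℤ) : PowerSeries ℤ) =
      ∑ j ∈ range ((W T 0).natDegree + 1), ((W T 0).coeff j * (-1) ^ j * qq ^ j) * qq ^ (j * k) := by
    intro k
    have h1 : (W T 0).eval (-(PowerSeries.X : PowerSeries ℤ) ^ (0 + k + 1)) =
        PowerSeries.X ^ (0 * Fintype.card T) * ((U T k : Polynomial ℤ) : PowerSeries ℤ) :=
      W_eval 0 k
    rw [Nat.zero_mul, pow_zero, one_mul] at h1
    rw [← h1, Polynomial.eval_eq_sum_range]
    refine sum_congr rfl fun j _ => ?_
    rw [neg_pow, ← pow_mul]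
    have : (qq : PowerSeries ℤ) ^ ((0 + k + 1) * j) = qq ^ j * qq ^ (j * k) := by
      rw [← pow_add]
      congr 1
      ring
    rw [this]
    ring
  have h1 : Pty x0 i b (fun k => ((U T k : Polynomial ℤ) : PowerSeries ℤ)) := by
    have h2 : (fun k => ((U T k : Polynomial ℤ) : PowerSeries ℤ)) = fun k =>
        ∑ j ∈ range ((W T 0).natDegree + 1),
          ((W T 0).coeff j * (-1) ^ j * qq ^ j) * qq ^ (j * k) := by
      funext k
      exact hU k
    rw [h2]
    refine Pty.sum _ fun j _ => ?_
    refine Pty.smul _ ?_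
    have h3 := pty_pow hc j 0
    simpa [qb_zero] using h3
  obtain ⟨D, hD, w, hw, he⟩ := h1
  have hmon : ((1 + Polynomial.X : Polynomial (PowerSeries ℤ)) ^ b).Monic := by
    apply Polynomial.Monic.pow
    rw [add_comm]
    exact Polynomial.monic_X_add_C 1
  refine dvd_of_C_mul hD hmon ?_
  have key : Polynomial.C D * W (Hang Q T x0) i =
      Polynomial.C (qq ^ (i * Fintype.card (Hang Q T x0))) * w := by
    apply Polynomial.eq_of_infinite_eval_eq
    have hinj : Function.Injective (fun m : ℕ => pt i m) := by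
      intro a b hab
      unfold pt at hab
      simp only [neg_inj] at hab
      have := congrArg PowerSeries.order hab
      rw [PowerSeries.order_X_pow, PowerSeries.order_X_pow] at this
      have h2 : i + a + 1 = i + b + 1 := by exact_mod_cast this
      omega
    refine Set.infinite_of_injective_forall_mem hinj fun m => ?_
    simp only [Set.mem_ofPred_eq]
    rw [Polynomial.eval_mul, Polynomial.eval_C, Polynomial.eval_mul, Polynomial.eval_C, he m]
    have h3 : (W (Hang Q T x0) i).eval (pt i m) = qq ^ (i * Fintype.card (Hang Q T x0)) *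
        ((U (Hang Q T x0) m : Polynomial ℤ) : PowerSeries ℤ) := W_eval i m
    rw [h3, coe_U_hang]
    ring
  rw [key]
  exact Dvd.dvd.mul_left hw _

end Main

section Sub

variable {Q : Type u} [Fintype Q] [PartialOrder Q] [DecidableEq Q]

/-- a poset with a lower part hung below one element is a hanging -/
noncomputable def hangIso (t : Q → Prop) [DecidablePred t] (x0 : Q) (hx0 : ¬ t x0)
    (h1 : ∀ x y, x ≤ y → t y → t x) (h2 : ∀ x y, t x → ¬ t y → (x ≤ y ↔ x0 ≤ y)) :
    Hang {x : Q // ¬ t x} {x : Q // t x} ⟨x0, hx0⟩ ≃o Q where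
  toFun := Sum.elim (fun x => (x : Q)) (fun x => (x : Q))
  invFun := fun x => if h : t x then Sum.inr ⟨x, h⟩ else Sum.inl ⟨x, h⟩
  left_inv := by
    rintro (x | x)
    · simp [x.2]
    · simp [x.2]
  right_inv := by
    intro x
    by_cases h : t x
    · simp [h]
    · simp [h]
  map_rel_iff' := by
    rintro (x | x) (y | y)
    · exact Iff.rfl
    · constructor
      · intro h
        exact (x.2 (h1 _ _ h y.2)).elim
      · intro h
        exact h.elim
    · exact h2 x y x.2 y.2
    · exact Iff.rfl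

/-- order of the window polynomial of a poset with a part hung below one element -/
theorem dvd_W_of_hang (t : Q → Prop) [DecidablePred t] (x0 : Q) (hx0 : ¬ t x0)
    (h1 : ∀ x y, x ≤ y → t y → t x) (h2 : ∀ x y, t x → ¬ t y → (x ≤ y ↔ x0 ≤ y)) {i b : ℕ}
    (hc : ∀ a : ℕ, (1 + Polynomial.X : Polynomial (PowerSeries ℤ)) ^ b ∣
      W (Hang {x : Q // ¬ t x} (Fin a)ᵒᵈ ⟨x0, hx0⟩) i) :
    (1 + Polynomial.X : Polynomial (PowerSeries ℤ)) ^ b ∣ W Q i := by
  rw [← W_iso (hangIso t x0 hx0 h1 h2) i]
  exact dvd_W_hang hc _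

end Sub

end Pool.Agent.GaussPoset

end

/-! From `Pool.Agent.W_448s7_h27.HangC` -/

section

/-!
Young shapes with arbitrary posets hung below the ends of the first row and of the first column.
-/

namespace Pool.Agent.GaussPoset

set_option linter.unusedSectionVars false

open Finset Yg

universe u v

section Sub

variable {Q : Type u} [Fintype Q] [PartialOrder Q] [DecidableEq Q]

/-- order of the window polynomial of a poset with a (possibly empty) part hung below one element -/
theorem dvd_W_of_hang' (t : Q → Prop) [DecidablePred t] (x0 : Q) (hx0 : ¬ t x0)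
    (h1 : ∀ x y, x ≤ y → t y → t x) (h2 : ∀ x y, t x → ¬ t y → (x ≤ y ↔ x0 ≤ y)) {i b : ℕ}
    (hc : ∀ a : ℕ, (a = 0 ∨ ∃ x, t x) → (1 + Polynomial.X : Polynomial (PowerSeries ℤ)) ^ b ∣
      W (Hang {x : Q // ¬ t x} (Fin a)ᵒᵈ ⟨x0, hx0⟩) i) :
    (1 + Polynomial.X : Polynomial (PowerSeries ℤ)) ^ b ∣ W Q i := by
  by_cases h : ∃ x, t x
  · exact dvd_W_of_hang t x0 hx0 h1 h2 fun a => hc a (Or.inr h)
  · push Not at h
    have e : Q ≃o Hang {x : Q // ¬ t x} (Fin 0)ᵒᵈ ⟨x0, hx0⟩ :=
      { toFun := fun x => Sum.inl ⟨x, h x⟩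
        invFun := Sum.elim (fun x => (x : Q)) (fun k => (OrderDual.ofDual k).elim0)
        left_inv := fun x => rfl
        right_inv := by
          rintro (x | k)
          · rfl
          · exact (OrderDual.ofDual k).elim0
        map_rel_iff' := Iff.rfl }
    rw [W_iso e i]
    exact hc 0 (Or.inl rfl)

/-- order of the window polynomial of a Young shape with posets hung below the end `x1` of the
first row and below the end `x2` of the first column -/
theorem young_junk_dvd (t1 t2 : Q → Prop) [DecidablePred t1] [DecidablePred t2] (co : Q → ℕ × ℕ)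
    (x1 x2 : Q) (hx11 : ¬ t1 x1) (hx12 : ¬ t2 x1) (hx21 : ¬ t1 x2) (hx22 : ¬ t2 x2)
    (hlow1 : ∀ x y, x ≤ y → t1 y → t1 x) (hlow2 : ∀ x y, x ≤ y → t2 y → t2 x)
    (hh1 : ∀ x y, t1 x → ¬ t1 y → (x ≤ y ↔ x1 ≤ y))
    (hh2 : ∀ x y, t2 x → ¬ t2 y → (x ≤ y ↔ x2 ≤ y))
    (hinj : ∀ x y, ¬ t1 x → ¬ t2 x → ¬ t1 y → ¬ t2 y → co x = co y → x = y)
    (hle : ∀ x y, ¬ t1 x → ¬ t2 x → ¬ t1 y → ¬ t2 y → (x ≤ y ↔ co y ≤ co x))
    (hdown : ∀ x, ¬ t1 x → ¬ t2 x → ∀ c ≤ co x, ∃ y, ¬ t1 y ∧ ¬ t2 y ∧ co y = c)
    (hr1 : (∃ x, t1 x) → (co x1).1 = 0 ∧ ∀ y, ¬ t1 y → ¬ t2 y → y ≠ x1 → (co y).2 < (co x1).2)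
    (hr2 : (∃ x, t2 x) → (co x2).2 = 0 ∧ ∀ y, ¬ t1 y → ¬ t2 y → y ≠ x2 → (co y).1 < (co x2).1)
    {i k : ℕ} (hk : k ≤ i + 1) (hcell : ∀ s, s + 1 = k → ∃ x, ¬ t1 x ∧ ¬ t2 x ∧ co x = (s, i)) :
    (1 + Polynomial.X : Polynomial (PowerSeries ℤ)) ^ k ∣ W Q i := by
  classical
  refine dvd_W_of_hang' t1 x1 hx11 hlow1 hh1 fun a ha => ?_
  -- second hanging
  let t2' : Hang {x : Q // ¬ t1 x} (Fin a)ᵒᵈ ⟨x1, hx11⟩ → Prop :=
    Sum.elim (fun x => t2 (x : Q)) (fun _ => False)
  refine dvd_W_of_hang' t2' (Sum.inl ⟨x2, hx21⟩) hx22 ?_ ?_ fun a' ha' => ?_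
  · rintro (x | x) (y | y) hxy hy
    · exact hlow2 _ _ hxy hy
    · exact hy.elim
    · exact (hx12 (hlow2 _ _ (show x1 ≤ (y : Q) from hxy) hy)).elim
    · exact hy.elim
  · rintro (x | x) (y | y) hx hy
    · exact hh2 _ _ hx hy
    · exact ⟨fun h => h.elim, fun h => h.elim⟩
    · exact hx.elim
    · exact hx.elim
  · have ha2 : a' = 0 ∨ ∃ x, t2 x := by
      rcases ha' with h | ⟨(x | x), hx⟩
      · exact Or.inl h
      · exact Or.inr ⟨x, hx⟩
      · exact hx.elim
    -- coordinates
    let co' : Hang {x : Q // ¬ t1 x} (Fin a)ᵒᵈ ⟨x1, hx11⟩ → ℕ × ℕ :=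
      Sum.elim (fun x => co (x : Q)) (fun k => (0, (co x1).2 + 1 + (OrderDual.ofDual k).val))
    let co2 : Hang {x : Hang {x : Q // ¬ t1 x} (Fin a)ᵒᵈ ⟨x1, hx11⟩ // ¬ t2' x} (Fin a')ᵒᵈ
        ⟨Sum.inl ⟨x2, hx21⟩, hx22⟩ → ℕ × ℕ :=
      Sum.elim (fun x => co' x.1) (fun k => ((co x2).1 + 1 + (OrderDual.ofDual k).val, 0))
    have hA : 0 < a → (co x1).1 = 0 ∧ ∀ y, ¬ t1 y → ¬ t2 y → y ≠ x1 → (co y).2 < (co x1).2 := by
      intro h0
      rcases ha with h | h
      · omega
      · exact hr1 h
    have hB : 0 < a' → (co x2).2 = 0 ∧ ∀ y, ¬ t1 y → ¬ t2 y → y ≠ x2 → (co y).1 < (co x2).1 := by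
      intro h0
      rcases ha2 with h | h
      · omega
      · exact hr2 h
    have hA' : 0 < a → ∀ y, ¬ t1 y → ¬ t2 y → (co y).2 ≤ (co x1).2 := by
      intro h0 y h1 h2
      by_cases hy : y = x1
      · rw [hy]
      · exact ((hA h0).2 y h1 h2 hy).le
    have hB' : 0 < a' → ∀ y, ¬ t1 y → ¬ t2 y → (co y).1 ≤ (co x2).1 := by
      intro h0 y h1 h2
      by_cases hy : y = x2
      · rw [hy]
      · exact ((hB h0).2 y h1 h2 hy).le
    refine young_dvd_co co2 ?_ ?_ ?_ hk ?_
    · -- injective
      rintro (⟨(x | x), hx⟩ | x) (⟨(y | y), hy⟩ | y) hxy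
      · have h := hinj x y x.2 hx y.2 hy hxy
        have h' : x = y := Subtype.ext h
        subst h'
        rfl
      · exfalso
        have h : co (x : Q) = (0, (co x1).2 + 1 + (OrderDual.ofDual y).val) := hxy
        have := hA' (by have := (OrderDual.ofDual y).2; omega) x x.2 hx
        rw [h] at this
        simp only at this
        omega
      · exfalso
        have h : co (x : Q) = ((co x2).1 + 1 + (OrderDual.ofDual y).val, 0) := hxy
        have := hB' (by have := (OrderDual.ofDual y).2; omega) x x.2 hx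
        rw [h] at this
        simp only at this
        omega
      · exfalso
        have h : co (y : Q) = (0, (co x1).2 + 1 + (OrderDual.ofDual x).val) := hxy.symm
        have := hA' (by have := (OrderDual.ofDual x).2; omega) y y.2 hy
        rw [h] at this
        simp only at this
        omega
      · have h : ((0 : ℕ), (co x1).2 + 1 + (OrderDual.ofDual x).val) =
          (0, (co x1).2 + 1 + (OrderDual.ofDual y).val) := hxy
        have h' : x = y := by
          apply OrderDual.ofDual.injective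
          apply Fin.ext
          have := (Prod.mk.injEq _ _ _ _ ▸ h).2
          omega
        subst h'
        rfl
      · exfalso
        have h : ((0 : ℕ), (co x1).2 + 1 + (OrderDual.ofDual x).val) =
          ((co x2).1 + 1 + (OrderDual.ofDual y).val, 0) := hxy
        have := (Prod.mk.injEq _ _ _ _ ▸ h).2
        omega
      · exfalso
        have h : co (y : Q) = ((co x2).1 + 1 + (OrderDual.ofDual x).val, 0) := hxy.symm
        have := hB' (by have := (OrderDual.ofDual x).2; omega) y y.2 hy
        rw [h] at this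
        simp only at this
        omega
      · exfalso
        have h : ((0 : ℕ), (co x1).2 + 1 + (OrderDual.ofDual y).val) =
          ((co x2).1 + 1 + (OrderDual.ofDual x).val, 0) := hxy.symm
        have := (Prod.mk.injEq _ _ _ _ ▸ h).2
        omega
      · have h : ((co x2).1 + 1 + (OrderDual.ofDual x).val, (0 : ℕ)) =
          ((co x2).1 + 1 + (OrderDual.ofDual y).val, 0) := hxy
        have h' : x = y := by
          apply OrderDual.ofDual.injective
          apply Fin.ext
          have := (Prod.mk.injEq _ _ _ _ ▸ h).1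
          omega
        subst h'
        rfl
    · -- order
      rintro (⟨(x | x), hx⟩ | x) (⟨(y | y), hy⟩ | y)
      · exact hle x y x.2 hx y.2 hy
      · constructor
        · intro h
          exact h.elim
        · intro h
          exfalso
          have h' : ((0 : ℕ), (co x1).2 + 1 + (OrderDual.ofDual y).val) ≤ co (x : Q) := h
          have := hA' (by have := (OrderDual.ofDual y).2; omega) x x.2 hx
          have h3 := h'.2
          simp only at h3
          omega
      · constructor
        · intro h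
          exact h.elim
        · intro h
          exfalso
          have h' : ((co x2).1 + 1 + (OrderDual.ofDual y).val, (0 : ℕ)) ≤ co (x : Q) := h
          have := hB' (by have := (OrderDual.ofDual y).2; omega) x x.2 hx
          have h3 := h'.1
          simp only at h3
          omega
      · have h0 : 0 < a := by have := (OrderDual.ofDual x).2; omega
        have hl := hle x1 y hx11 hx12 y.2 hy
        constructor
        · intro h
          have h1 : x1 ≤ (y : Q) := h
          have h2 := hl.mp h1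
          refine ⟨?_, ?_⟩
          · have := h2.1
            rw [(hA h0).1] at this
            exact this
          · have := h2.2
            change (co (y : Q)).2 ≤ (co x1).2 + 1 + (OrderDual.ofDual x).val
            omega
        · intro h
          change x1 ≤ (y : Q)
          rw [hl]
          refine ⟨?_, hA' h0 y y.2 hy⟩
          rw [(hA h0).1]
          exact h.1
      · constructor
        · intro h
          refine ⟨le_rfl, ?_⟩
          have h1 : OrderDual.ofDual y ≤ OrderDual.ofDual x := h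
          have h2 : (OrderDual.ofDual y).val ≤ (OrderDual.ofDual x).val := h1
          change (co x1).2 + 1 + (OrderDual.ofDual y).val ≤ (co x1).2 + 1 + (OrderDual.ofDual x).val
          omega
        · intro h
          have h2 : (co x1).2 + 1 + (OrderDual.ofDual y).val ≤
            (co x1).2 + 1 + (OrderDual.ofDual x).val := h.2
          change OrderDual.ofDual y ≤ OrderDual.ofDual x
          rw [Fin.le_def]
          omega
      · constructor
        · intro h
          exact h.elim
        · intro h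
          exfalso
          have h3 : (co x2).1 + 1 + (OrderDual.ofDual y).val ≤ 0 := h.1
          omega
      · have h0 : 0 < a' := by have := (OrderDual.ofDual x).2; omega
        have hl := hle x2 y hx21 hx22 y.2 hy
        constructor
        · intro h
          have h1 : x2 ≤ (y : Q) := h
          have h2 := hl.mp h1
          refine ⟨?_, ?_⟩
          · have := h2.1
            change (co (y : Q)).1 ≤ (co x2).1 + 1 + (OrderDual.ofDual x).val
            omega
          · have := h2.2
            rw [(hB h0).1] at this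
            exact this
        · intro h
          change x2 ≤ (y : Q)
          rw [hl]
          refine ⟨hB' h0 y y.2 hy, ?_⟩
          rw [(hB h0).1]
          exact h.2
      · have h0 : 0 < a' := by have := (OrderDual.ofDual x).2; omega
        have h0' : 0 < a := by have := (OrderDual.ofDual y).2; omega
        constructor
        · intro h
          have h1 : @LE.le (Hang {x : Q // ¬ t1 x} (Fin a)ᵒᵈ ⟨x1, hx11⟩) _
            (Sum.inl ⟨x2, hx21⟩) (Sum.inr y) := h
          exact h1.elim
        · intro h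
          exfalso
          have h3 : (co x1).2 + 1 + (OrderDual.ofDual y).val ≤ 0 := h.2
          omega
      · constructor
        · intro h
          refine ⟨?_, le_rfl⟩
          have h1 : OrderDual.ofDual y ≤ OrderDual.ofDual x := h
          have h2 : (OrderDual.ofDual y).val ≤ (OrderDual.ofDual x).val := h1
          change (co x2).1 + 1 + (OrderDual.ofDual y).val ≤ (co x2).1 + 1 + (OrderDual.ofDual x).val
          omega
        · intro h
          have h2 : (co x2).1 + 1 + (OrderDual.ofDual y).val ≤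
            (co x2).1 + 1 + (OrderDual.ofDual x).val := h.1
          change OrderDual.ofDual y ≤ OrderDual.ofDual x
          rw [Fin.le_def]
          omega
    · -- lower set of cells
      have hcells : ∀ c : ℕ × ℕ, (∃ y, ¬ t1 y ∧ ¬ t2 y ∧ co y = c) → ∃ y, co2 y = c := by
        rintro c ⟨y, hy1, hy2, hy3⟩
        exact ⟨Sum.inl ⟨Sum.inl ⟨y, hy1⟩, hy2⟩, hy3⟩
      rintro (⟨(x | x), hx⟩ | x) c hcx
      · exact hcells c (hdown x x.2 hx c hcx)
      · have h1 : c ≤ ((0 : ℕ), (co x1).2 + 1 + (OrderDual.ofDual x).val) := hcx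
        have h0 : 0 < a := by have := (OrderDual.ofDual x).2; omega
        obtain ⟨c1, c2⟩ := c
        have h2 : c1 ≤ 0 := h1.1
        have h3 : c2 ≤ (co x1).2 + 1 + (OrderDual.ofDual x).val := h1.2
        have h4 : c1 = 0 := by omega
        subst h4
        by_cases h5 : c2 ≤ (co x1).2
        · refine hcells _ (hdown x1 hx11 hx12 _ ⟨Nat.zero_le _, h5⟩)
        · refine ⟨Sum.inl ⟨Sum.inr (OrderDual.toDual ⟨c2 - ((co x1).2 + 1), ?_⟩), fun h => h⟩, ?_⟩
          · have := (OrderDual.ofDual x).2
            omega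
          · change ((0 : ℕ), (co x1).2 + 1 + (c2 - ((co x1).2 + 1))) = (0, c2)
            congr 1
            omega
      · have h1 : c ≤ ((co x2).1 + 1 + (OrderDual.ofDual x).val, (0 : ℕ)) := hcx
        have h0 : 0 < a' := by have := (OrderDual.ofDual x).2; omega
        obtain ⟨c1, c2⟩ := c
        have h2 : c2 ≤ 0 := h1.2
        have h3 : c1 ≤ (co x2).1 + 1 + (OrderDual.ofDual x).val := h1.1
        have h4 : c2 = 0 := by omega
        subst h4
        by_cases h5 : c1 ≤ (co x2).1
        · refine hcells _ (hdown x2 hx21 hx22 _ ⟨h5, Nat.zero_le _⟩)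
        · refine ⟨Sum.inr (OrderDual.toDual ⟨c1 - ((co x2).1 + 1), ?_⟩), ?_⟩
          · have := (OrderDual.ofDual x).2
            omega
          · change ((co x2).1 + 1 + (c1 - ((co x2).1 + 1)), (0 : ℕ)) = (c1, 0)
            congr 1
            omega
    · intro s hs
      obtain ⟨x, h1, h2, h3⟩ := hcell s hs
      exact ⟨Sum.inl ⟨Sum.inl ⟨x, h1⟩, h2⟩, h3⟩

end Sub

end Pool.Agent.GaussPoset

end

/-! From `Pool.Agent.W_448s7_h27.HangD` -/

section

/-!
Shifted shapes with an arbitrary poset hung below the end of the first row.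
-/

namespace Pool.Agent.GaussPoset

set_option linter.unusedSectionVars false

open Finset Yg

universe u v

section Sub

variable {Q : Type u} [Fintype Q] [PartialOrder Q] [DecidableEq Q]

/-- order of the window polynomial of a shifted shape with a poset hung below the end `x1` of the
first row -/
theorem shift_junk_dvd (t1 : Q → Prop) [DecidablePred t1] (co : Q → ℕ × ℕ)
    (x1 : Q) (hx11 : ¬ t1 x1)
    (hlow1 : ∀ x y, x ≤ y → t1 y → t1 x)
    (hh1 : ∀ x y, t1 x → ¬ t1 y → (x ≤ y ↔ x1 ≤ y))
    (hinj : ∀ x y, ¬ t1 x → ¬ t1 y → co x = co y → x = y)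
    (hge : ∀ x, ¬ t1 x → (co x).1 ≤ (co x).2)
    (hle : ∀ x y, ¬ t1 x → ¬ t1 y → (x ≤ y ↔ co y ≤ co x))
    (hdown : ∀ x, ¬ t1 x → ∀ c ≤ co x, c.1 ≤ c.2 → ∃ y, ¬ t1 y ∧ co y = c)
    (hr1 : (∃ x, t1 x) → (co x1).1 = 0 ∧ ∀ y, ¬ t1 y → y ≠ x1 → (co y).2 < (co x1).2)
    {i : ℕ} (hcell : ∃ x, ¬ t1 x ∧ co x = (2 * (i / 2), i)) :
    (1 + Polynomial.X : Polynomial (PowerSeries ℤ)) ^ (i / 2 + 1) ∣ W Q i := by
  classical
  refine dvd_W_of_hang' t1 x1 hx11 hlow1 hh1 fun a ha => ?_
  let co' : Hang {x : Q // ¬ t1 x} (Fin a)ᵒᵈ ⟨x1, hx11⟩ → ℕ × ℕ :=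
    Sum.elim (fun x => co (x : Q)) (fun k => (0, (co x1).2 + 1 + (OrderDual.ofDual k).val))
  have hA : 0 < a → (co x1).1 = 0 ∧ ∀ y, ¬ t1 y → y ≠ x1 → (co y).2 < (co x1).2 := by
    intro h0
    rcases ha with h | h
    · omega
    · exact hr1 h
  have hA' : 0 < a → ∀ y, ¬ t1 y → (co y).2 ≤ (co x1).2 := by
    intro h0 y h1
    by_cases hy : y = x1
    · rw [hy]
    · exact ((hA h0).2 y h1 hy).le
  refine shift_dvd_cell co' ?_ ?_ ?_ ?_ ?_
  · -- injective
    rintro (x | x) (y | y) hxy
    · have h := hinj x y x.2 y.2 hxy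
      have h' : x = y := Subtype.ext h
      subst h'
      rfl
    · exfalso
      have h : co (x : Q) = (0, (co x1).2 + 1 + (OrderDual.ofDual y).val) := hxy
      have := hA' (by have := (OrderDual.ofDual y).2; omega) x x.2
      rw [h] at this
      simp only at this
      omega
    · exfalso
      have h : co (y : Q) = (0, (co x1).2 + 1 + (OrderDual.ofDual x).val) := hxy.symm
      have := hA' (by have := (OrderDual.ofDual x).2; omega) y y.2
      rw [h] at this
      simp only at this
      omega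
    · have h : ((0 : ℕ), (co x1).2 + 1 + (OrderDual.ofDual x).val) =
        (0, (co x1).2 + 1 + (OrderDual.ofDual y).val) := hxy
      have h' : x = y := by
        apply OrderDual.ofDual.injective
        apply Fin.ext
        have := (Prod.mk.injEq _ _ _ _ ▸ h).2
        omega
      subst h'
      rfl
  · rintro (x | x)
    · exact hge x x.2
    · exact Nat.zero_le _
  · -- order
    rintro (x | x) (y | y)
    · exact hle x y x.2 y.2
    · constructor
      · intro h
        exact h.elim
      · intro h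
        exfalso
        have h' : ((0 : ℕ), (co x1).2 + 1 + (OrderDual.ofDual y).val) ≤ co (x : Q) := h
        have := hA' (by have := (OrderDual.ofDual y).2; omega) x x.2
        have h3 := h'.2
        simp only at h3
        omega
    · have h0 : 0 < a := by have := (OrderDual.ofDual x).2; omega
      have hl := hle x1 y hx11 y.2
      constructor
      · intro h
        have h1 : x1 ≤ (y : Q) := h
        have h2 := hl.mp h1
        refine ⟨?_, ?_⟩
        · have := h2.1
          rw [(hA h0).1] at this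
          exact this
        · have := h2.2
          change (co (y : Q)).2 ≤ (co x1).2 + 1 + (OrderDual.ofDual x).val
          omega
      · intro h
        change x1 ≤ (y : Q)
        rw [hl]
        refine ⟨?_, hA' h0 y y.2⟩
        rw [(hA h0).1]
        exact h.1
    · constructor
      · intro h
        refine ⟨le_rfl, ?_⟩
        have h1 : OrderDual.ofDual y ≤ OrderDual.ofDual x := h
        have h2 : (OrderDual.ofDual y).val ≤ (OrderDual.ofDual x).val := h1
        change (co x1).2 + 1 + (OrderDual.ofDual y).val ≤ (co x1).2 + 1 + (OrderDual.ofDual x).val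
        omega
      · intro h
        have h2 : (co x1).2 + 1 + (OrderDual.ofDual y).val ≤
          (co x1).2 + 1 + (OrderDual.ofDual x).val := h.2
        change OrderDual.ofDual y ≤ OrderDual.ofDual x
        rw [Fin.le_def]
        omega
  · -- lower set of cells
    have hcells : ∀ c : ℕ × ℕ, (∃ y, ¬ t1 y ∧ co y = c) → ∃ y, co' y = c := by
      rintro c ⟨y, hy1, hy3⟩
      exact ⟨Sum.inl ⟨y, hy1⟩, hy3⟩
    rintro (x | x) c hcx hcs
    · exact hcells c (hdown x x.2 c hcx hcs)
    · have h1 : c ≤ ((0 : ℕ), (co x1).2 + 1 + (OrderDual.ofDual x).val) := hcx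
      have h0 : 0 < a := by have := (OrderDual.ofDual x).2; omega
      obtain ⟨c1, c2⟩ := c
      have h2 : c1 ≤ 0 := h1.1
      have h3 : c2 ≤ (co x1).2 + 1 + (OrderDual.ofDual x).val := h1.2
      have h4 : c1 = 0 := by omega
      subst h4
      by_cases h5 : c2 ≤ (co x1).2
      · refine hcells _ (hdown x1 hx11 _ ⟨Nat.zero_le _, h5⟩ (Nat.zero_le _))
      · refine ⟨Sum.inr (OrderDual.toDual ⟨c2 - ((co x1).2 + 1), ?_⟩), ?_⟩
        · have := (OrderDual.ofDual x).2
          omega
        · change ((0 : ℕ), (co x1).2 + 1 + (c2 - ((co x1).2 + 1))) = (0, c2)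
          congr 1
          omega
  · obtain ⟨x, h1, h3⟩ := hcell
    exact ⟨Sum.inl ⟨x, h1⟩, h3⟩

end Sub

end Pool.Agent.GaussPoset

end

/-! From `Pool.Agent.W_448b1_h24.BA` -/

section

/-! Shifted diagrams in which only the first rows reach the window: the alternating sum
(MP_448cb3_co, block B1). -/

namespace Pool.Agent.GaussPoset.Yg

set_option linter.unusedSectionVars false

open Finset Polynomial

section inv

variable {A : Type*} [Ring A]

/-- coefficients of the inverse of the product `∏ (1 + z g x)`, `x < b` -/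
def IS (g : ℕ → A) : ℕ → ℕ → A
  | 0, _ => 1
  | _ + 1, 0 => 0
  | r + 1, b + 1 => IS g (r + 1) b - IS g r b * g b

lemma IS_zero (g : ℕ → A) (b : ℕ) : IS g 0 b = 1 := by
  cases b <;> rfl

lemma IS_succ_zero (g : ℕ → A) (r : ℕ) : IS g (r + 1) 0 = 0 := rfl

lemma IS_succ (g : ℕ → A) (r b : ℕ) : IS g (r + 1) (b + 1) = IS g (r + 1) b - IS g r b * g b := rfl

/-- the first factor can be removed -/
lemma SS_tail (g : ℕ → A) (h0 : g 0 * g 0 = 0) : ∀ b r : ℕ,
    SS (fun x => g (x + 1)) (r + 1) b = SS g (r + 1) (b + 1) - SS g r (b + 1) * g 0 := by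
  intro b
  induction b with
  | zero =>
    intro r
    rw [SS_succ_zero, SS_succ, SS_succ_zero, zero_add]
    cases r with
    | zero => rw [SS_zero, SS_zero]; simp
    | succ r =>
      rw [SS_succ_zero, SS_succ, SS_succ_zero]
      cases r with
      | zero => rw [SS_zero, mul_zero, zero_add, mul_one, h0, sub_zero]
      | succ r => rw [SS_succ_zero]; simp
  | succ b ih =>
    intro r
    rw [SS_succ, SS_succ g r (b + 1), ih r]
    cases r with
    | zero => rw [SS_zero, SS_zero, SS_zero]; noncomm_ring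
    | succ r =>
      rw [ih r, SS_succ g r (b + 1)]
      noncomm_ring

/-- sums over the labels `≥ T` from the sums over all labels -/
lemma SS_from (g : ℕ → A) (h0 : ∀ x, g x * g x = 0) : ∀ T b r : ℕ,
    SS (fun x => g (T + x)) r b = ∑ c ∈ range (r + 1), SS g c (T + b) * IS g (r - c) T := by
  intro T
  induction T with
  | zero =>
    intro b r
    simp only [Nat.zero_add]
    rw [sum_range_succ, Nat.sub_self, IS_zero, mul_one, sum_eq_zero, zero_add]
    intro c hc
    rw [mem_range] at hc
    rw [show r - c = (r - c - 1) + 1 by omega, IS_succ_zero, mul_zero]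
  | succ T ih =>
    intro b r
    cases r with
    | zero => rw [sum_range_one, SS_zero, SS_zero, IS_zero, mul_one]
    | succ r =>
      have h1 := SS_tail (fun x => g (T + x)) (h0 _) b r
      have h2 : (fun x => (fun x => g (T + x)) (x + 1)) = fun x => g (T + 1 + x) := by
        funext x
        simp only
        congr 1
        ring
      rw [h2] at h1
      rw [h1, ih, ih, sum_range_succ, sum_range_succ _ (r + 1), Nat.sub_self, IS_zero, IS_zero,
        sum_mul, show T + (b + 1) = T + 1 + b by ring, add_sub_right_comm, Nat.add_zero,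
        ← sum_sub_distrib]
      congr 1
      refine sum_congr rfl fun c hc => ?_
      rw [mem_range] at hc
      rw [show r + 1 - c = (r - c) + 1 by omega, IS_succ]
      noncomm_ring

variable {K : Type*} [Field K] [Algebra K A] {B : Submodule K A}

lemma SS_pow_mem {g : ℕ → A} : ∀ b r : ℕ, (∀ x < b, g x ∈ B) → SS g r b ∈ B ^ r := by
  intro b
  induction b with
  | zero =>
    intro r _
    cases r with
    | zero => rw [SS_zero, pow_zero]; exact Submodule.one_le.1 le_rfl
    | succ r => rw [SS_succ_zero]; exact Submodule.zero_mem _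
  | succ b ih =>
    intro r h
    cases r with
    | zero => rw [SS_zero, pow_zero]; exact Submodule.one_le.1 le_rfl
    | succ r =>
      rw [SS_succ]
      refine Submodule.add_mem _ (ih _ fun x hx => h x (by omega)) ?_
      rw [pow_succ']
      exact Submodule.mul_mem_mul (h b (by omega)) (ih _ fun x hx => h x (by omega))

lemma IS_pow_mem {g : ℕ → A} : ∀ b r : ℕ, (∀ x < b, g x ∈ B) → IS g r b ∈ B ^ r := by
  intro b
  induction b with
  | zero =>
    intro r _
    cases r with
    | zero => rw [IS_zero, pow_zero]; exact Submodule.one_le.1 le_rfl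
    | succ r => rw [IS_succ_zero]; exact Submodule.zero_mem _
  | succ b ih =>
    intro r h
    cases r with
    | zero => rw [IS_zero, pow_zero]; exact Submodule.one_le.1 le_rfl
    | succ r =>
      rw [IS_succ]
      refine Submodule.sub_mem _ (ih _ fun x hx => h x (by omega)) ?_
      rw [pow_succ]
      exact Submodule.mul_mem_mul (ih _ fun x hx => h x (by omega)) (h b (by omega))

end inv

section bad

variable {K : Type*} [Field K] {n : ℕ}

/-- vectors with vanishing coordinates `a < g` -/
def bsub (K : Type*) [Field K] (n g : ℕ) : Submodule K (Fin n → K) where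
  carrier := {v | ∀ a : Fin n, (a : ℕ) < g → v a = 0}
  add_mem' := by
    intro v w hv hw a ha
    rw [Pi.add_apply, hv a ha, hw a ha, add_zero]
  zero_mem' := fun _ _ => rfl
  smul_mem' := by
    intro c v hv a ha
    rw [Pi.smul_apply, hv a ha, smul_zero]

/-- their images in the exterior algebra -/
noncomputable def Bd (K : Type*) [Field K] (n g : ℕ) : Submodule K (ExteriorAlgebra K (Fin n → K)) :=
  (bsub K n g).map (ExteriorAlgebra.ι K)

lemma finrank_bsub {g : ℕ} (hg : g ≤ n) : Module.finrank K (bsub K n g) ≤ n - g := by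
  -- restriction to the last coordinates is injective
  let f : bsub K n g →ₗ[K] (Fin (n - g) → K) :=
    { toFun := fun v k => (v : Fin n → K) ⟨g + k, by omega⟩
      map_add' := fun _ _ => rfl
      map_smul' := fun _ _ => rfl }
  have hf : Function.Injective f := by
    intro v w hvw
    apply Subtype.ext
    funext a
    by_cases ha : (a : ℕ) < g
    · rw [v.2 a ha, w.2 a ha]
    · have h1 := congrFun hvw ⟨(a : ℕ) - g, by omega⟩
      have h2 : (⟨g + ((a : ℕ) - g), by omega⟩ : Fin n) = a := Fin.ext (by simp only; omega)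
      change (v : Fin n → K) ⟨g + ((a : ℕ) - g), by omega⟩ =
        (w : Fin n → K) ⟨g + ((a : ℕ) - g), by omega⟩ at h1
      rwa [h2] at h1
  have h1 := LinearMap.finrank_le_finrank_of_injective hf
  rwa [Module.finrank_fin_fun] at h1

/-- products of too many vectors vanish -/
lemma Bd_pow {g k : ℕ} (hg : g ≤ n) (hk : n - g < k) : Bd K n g ^ k = ⊥ := by
  have h1 : Bd K n g = Submodule.span K ((ExteriorAlgebra.ι K) '' (bsub K n g : Set (Fin n → K))) := by
    rw [Submodule.span_image, Submodule.span_eq]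
    rfl
  rw [h1, Submodule.span_pow, Submodule.span_eq_bot]
  intro x hx
  obtain ⟨f, rfl⟩ := Set.mem_pow.1 hx
  have h2 : ∀ i : Fin k, ∃ v ∈ bsub K n g, ExteriorAlgebra.ι K v = (f i : ExteriorAlgebra K (Fin n → K)) :=
    fun i => (f i).2
  choose v hv hv2 using h2
  have h3 : (List.ofFn fun i => ((f i : ExteriorAlgebra K (Fin n → K)))).prod =
      ExteriorAlgebra.ιMulti K k v := by
    rw [ExteriorAlgebra.ιMulti_apply]
    congr 2
    funext i
    rw [hv2]
  rw [h3]
  refine AlternatingMap.map_linearDependent _ v fun hli => ?_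
  have h4 : LinearIndependent K (fun i => (⟨v i, hv i⟩ : bsub K n g)) :=
    LinearIndependent.of_comp (bsub K n g).subtype hli
  have h5 := h4.fintype_card_le_finrank
  rw [Fintype.card_fin] at h5
  have := finrank_bsub (K := K) hg
  omega

end bad

section part

variable {K : Type*} [Field K] [CharZero K] {n : ℕ} {q : K}
variable (hq0 : q ≠ 0) (hq : ∀ j : ℕ, 1 - q ^ (j + 1) ≠ 0)

include hq0 hq in
lemma rowP_GF' {i a k x l : ℕ} (hc : n - 1 - a ≤ l) (ha : a < n) (hl : l + (i + 1) = n + x) :
    GF q (k + 1) (n - 1 - a) l = (rowP q i a k).eval (q ^ x) := by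
  rw [GF_succ, if_pos (by omega), rowP_eval]
  have hne : ∏ u ∈ range k, (1 - q ^ (u + 1)) ≠ 0 := prod_ne_zero_iff.2 fun u _ => hq u
  have h3 := qb_prod q (l - (n - 1 - a) + k) k
  have h4 : ∏ u ∈ range k, (1 - q ^ (l - (n - 1 - a) + k - u)) =
      ∏ u ∈ range k, (1 - q ^ ((a : ℤ) + u + 1 - i) * q ^ x) := by
    rw [← prod_range_reflect]
    refine prod_congr rfl fun u hu => ?_
    rw [mem_range] at hu
    rw [← zpow_natCast q x, ← zpow_add₀ hq0, ← zpow_natCast q (l - (n - 1 - a) + k - _)]
    congr 2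
    omega
  rw [h4] at h3
  rw [prod_mul_distrib, prod_inv_distrib, ← h3, mul_comm (qb _ _ _), inv_mul_cancel_left₀ hne]

include hq0 hq in
/-- the sum over all labels as a function of the window variable, only the rows `a < g` reach the
window -/
theorem SS_part {i g : ℕ} {lam : Fin n → ℕ} (hgn : g ≤ n) (hgi : g ≤ i + 1) (h1 : ∀ a, 1 ≤ lam a)
    (h2 : ∀ a : Fin n, (a : ℕ) < g → i + 1 ≤ a + lam a) :
    ∃ F ∈ GS q (ExteriorAlgebra K (Fin n → K)) ((g + 1) / 2),
      ∀ m, SS (io (fv q lam)) n (m + n) = F (m + i + 1) := by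
  obtain ⟨t, ht⟩ : ∃ t, n = t + g := ⟨n - g, by omega⟩
  obtain ⟨s, hs⟩ : ∃ s, i + 1 = s + g := ⟨i + 1 - g, by omega⟩
  set κ : K := q ^ t * (q ^ s)⁻¹ with hκ
  -- the labels `≥ t`
  have e1 : (fun y => io (fv q lam) (t + y)) = fun y => κ • io (gv q i lam) (s + y) := by
    funext y
    unfold io
    rw [← map_smul]
    congr 1
    funext a
    rw [Pi.smul_apply, smul_eq_mul]
    unfold fv gv
    have h3 := h1 a
    obtain ⟨k, hk⟩ : ∃ k, lam a = k + 1 := ⟨lam a - 1, by omega⟩
    have h4 : GF q (lam a) (n - 1 - a) (t + y) = (rowP q i a (lam a - 1)).eval (q ^ (s + y)) := by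
      rw [hk, Nat.add_sub_cancel]
      by_cases hag : (a : ℕ) < g
      · have h5 := h2 a hag
        exact rowP_GF hq0 hq (i := i) (x := s + y) (l := t + y) a.2 (by omega) (by omega)
      · exact rowP_GF' hq0 hq (i := i) (x := s + y) (l := t + y) (by omega) a.2 (by omega)
    rw [h4, hκ, pow_add, pow_add q s y]
    have h6 : q ^ s ≠ 0 := pow_ne_zero _ hq0
    field_simp
  -- small labels are bad
  have e2 : ∀ l < t, io (fv q lam) l ∈ Bd K n g := by
    intro l hl
    unfold io Bd
    refine Submodule.mem_map_of_mem ?_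
    intro a ha
    unfold fv
    rw [GF_lt q _ _ _ (by omega), mul_zero]
  have e3 : ∀ x < s, io (gv q i lam) x ∈ Bd K n g := by
    intro x hx
    unfold io Bd
    refine Submodule.mem_map_of_mem ?_
    intro a ha
    unfold gv
    have h5 := h2 a ha
    have h6 := h1 a
    rw [rowP_zero hq0 (by omega) (by omega), mul_zero]
  refine ⟨∑ c ∈ range (n + 1), ∑ c' ∈ range (c + 1), κ ^ c • (SS (io (gv q i lam)) c' *
      (fun _ => IS (io (gv q i lam)) (c - c') s * SS (io (fv q lam)) (n - c) t)), ?_, fun m => ?_⟩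
  · refine Submodule.sum_mem _ fun c hc => Submodule.sum_mem _ fun c' hc' => ?_
    rw [mem_range] at hc hc'
    refine Submodule.smul_mem _ _ ?_
    by_cases hg : g ≤ c'
    · have h3 := SS_mem hq (io_anti (gv q i lam)) (io_sq _) (gv_mem q i lam) c'
      have h4 : SS (io (gv q i lam)) c' ∈ GS q (ExteriorAlgebra K (Fin n → K)) ((g + 1) / 2) :=
        GS_mono (by omega) h3
      have h5 := GS_mul h4 (GS_const (q := q)
        (IS (io (gv q i lam)) (c - c') s * SS (io (fv q lam)) (n - c) t))
      rw [Nat.add_zero] at h5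
      exact h5
    · have h3 : IS (io (gv q i lam)) (c - c') s * SS (io (fv q lam)) (n - c) t = 0 := by
        have h4 : IS (io (gv q i lam)) (c - c') s * SS (io (fv q lam)) (n - c) t ∈
            Bd K n g ^ (n - c') := by
          rw [show n - c' = (c - c') + (n - c) by omega, pow_add]
          exact Submodule.mul_mem_mul (IS_pow_mem _ _ e3) (SS_pow_mem _ _ e2)
        rw [Bd_pow hgn (by omega)] at h4
        exact (Submodule.mem_bot K).1 h4
      rw [h3]
      have h6 : (SS (io (gv q i lam)) c' * fun _ : ℕ => (0 : ExteriorAlgebra K (Fin n → K))) = 0 := by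
        funext b
        rw [Pi.mul_apply, mul_zero]
        rfl
      rw [h6]
      exact Submodule.zero_mem _
  · rw [show m + n = t + (m + g) by omega, SS_add, e1, Finset.sum_apply]
    refine sum_congr rfl fun c hc => ?_
    rw [SS_smul, Finset.sum_apply, SS_from _ (io_sq _), smul_sum, sum_mul]
    refine sum_congr rfl fun c' hc' => ?_
    rw [Pi.smul_apply, Pi.mul_apply, show s + (m + g) = m + i + 1 by omega, smul_mul_assoc, mul_assoc]

include hq0 hq in
/-- the alternating sum as a polynomial in the window variable, only the rows `a < g` reach the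
window -/
theorem Psi_dvd_part {i g : ℕ} {lam : Fin n → ℕ} (hgn : g ≤ n) (hgi : g ≤ i + 1)
    (h1 : ∀ a, 1 ≤ lam a) (h2 : ∀ a : Fin n, (a : ℕ) < g → i + 1 ≤ a + lam a) :
    ∃ P : K[X], ∀ m, Psi q n m lam =
      (1 - q ^ (m + i + 1)) ^ ((g + 1) / 2) * P.eval (q ^ (m + i + 1)) := by
  obtain ⟨F, hF, hF2⟩ := SS_part hq0 hq hgn hgi h1 h2
  obtain ⟨P, hP⟩ := GS_apply (vol K n) hF
  exact ⟨P, fun m => by rw [Psi_vol, hF2, hP]⟩

end part

end Pool.Agent.GaussPoset.Yg

end

/-! From `Pool.Agent.W_448s7s_h5.TuA` -/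

section

/-!
Shifted diagrams with at most `i` rows all of which end at distance one from the window `i`: the
alternating sum (MP_448cb3_co, S7, `j = 13`).
-/

namespace Pool.Agent.GaussPoset.Yg

set_option linter.unusedSectionVars false

open Finset Polynomial

section inv

variable {A : Type*} [Ring A]

lemma IS_one (g : ℕ → A) {r : ℕ} (hr : 2 ≤ r) : IS g r 1 = 0 := by
  obtain ⟨r, rfl⟩ : ∃ r', r = r' + 2 := ⟨r - 2, by omega⟩
  rw [IS_succ, IS_succ_zero, IS_succ_zero]
  simp

/-- only the label `0` is bad -/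
lemma IS_vanish (g : ℕ → A) {r : ℕ} (hr : 2 ≤ r) : ∀ b : ℕ, (∀ x, 1 ≤ x → x < b → g x = 0) →
    IS g r b = 0 := by
  intro b
  obtain ⟨r, rfl⟩ : ∃ r', r = r' + 1 := ⟨r - 1, by omega⟩
  induction b with
  | zero => intro _; exact IS_succ_zero g r
  | succ b ih =>
    intro h
    rcases Nat.eq_zero_or_pos b with h0 | h0
    · subst h0
      exact IS_one g hr
    · rw [IS_succ, ih (fun x h1 h2 => h x h1 (by omega)), h b h0 (by omega), mul_zero, sub_zero]

end inv

section near

variable {K : Type*} [Field K] [CharZero K] {q : K}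
variable (hq0 : q ≠ 0) (hq : ∀ j : ℕ, 1 - q ^ (j + 1) ≠ 0)

include hq0 in
lemma rowP_zero_near {i a k x : ℕ} (h1 : x + a < i) (h2 : i ≤ a + k + x) :
    (rowP q i a k).eval (q ^ x) = 0 := by
  rw [rowP_eval]
  refine prod_eq_zero (i := i - 1 - a - x) (mem_range.2 (by omega)) ?_
  rw [← zpow_natCast q x, ← zpow_add₀ hq0]
  have h3 : (a : ℤ) + ((i - 1 - a - x : ℕ) : ℤ) + 1 - i + x = 0 := by omega
  rw [h3, zpow_zero, sub_self, mul_zero]

include hq0 hq in
lemma rowP_GF_near {n i a k x l : ℕ} (ha : a < n) (h2 : i ≤ a + k + x)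
    (hl : l + (i + 1) = n + x) :
    GF q (k + 1) (n - 1 - a) l = (rowP q i a k).eval (q ^ x) := by
  by_cases hc : l < n - 1 - a
  · rw [GF_lt q _ _ _ hc, rowP_zero_near hq0 (by omega) h2]
  · exact rowP_GF' hq0 hq (by omega) ha hl

end near

section nearSum

variable {K : Type*} [Field K] [CharZero K] {n : ℕ} {q : K}
variable (hq0 : q ≠ 0) (hq : ∀ j : ℕ, 1 - q ^ (j + 1) ≠ 0)

include hq0 hq in
/-- the sum over all labels as a function of the window variable: at most `i` rows, every row ends
at distance at most one from the window -/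
theorem SS_near {i : ℕ} {lam : Fin n → ℕ} (hn : n ≤ i) (h1 : ∀ a, 1 ≤ lam a)
    (h2 : ∀ a : Fin n, i ≤ a + lam a) :
    ∃ F ∈ GS q (ExteriorAlgebra K (Fin n → K)) (n / 2),
      ∀ m, SS (io (fv q lam)) n (m + n) = F (m + i + 1) := by
  obtain ⟨s, hs⟩ : ∃ s, i + 1 = s + n := ⟨i + 1 - n, by omega⟩
  have hs1 : 1 ≤ s := by omega
  set κ : K := (q ^ s)⁻¹ with hκ
  have hqs : q ^ s ≠ 0 := pow_ne_zero _ hq0
  have e1 : io (fv q lam) = fun y => κ • io (gv q i lam) (s + y) := by
    funext y
    unfold io
    rw [← map_smul]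
    congr 1
    funext a
    rw [Pi.smul_apply, smul_eq_mul]
    unfold fv gv
    have h3 := h1 a
    obtain ⟨k, hk⟩ : ∃ k, lam a = k + 1 := ⟨lam a - 1, by omega⟩
    have h5 := h2 a
    have h4 : GF q (lam a) (n - 1 - a) y = (rowP q i a (lam a - 1)).eval (q ^ (s + y)) := by
      rw [hk, Nat.add_sub_cancel]
      exact rowP_GF_near hq0 hq (i := i) (x := s + y) (l := y) a.2 (by omega) (by omega)
    rw [h4, hκ, pow_add]
    field_simp
  have e3 : ∀ x, 1 ≤ x → x < s → io (gv q i lam) x = 0 := by
    intro x hx hx'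
    have h5 : gv q i lam x = 0 := by
      funext a
      unfold gv
      have h3 := h1 a
      have h4 := h2 a
      have h6 := a.2
      rw [rowP_zero_near hq0 (by omega) (by omega), mul_zero]
      rfl
    unfold io
    rw [h5, map_zero]
  refine ⟨∑ c ∈ range (n + 1), κ ^ n • (SS (io (gv q i lam)) c *
      (fun _ => IS (io (gv q i lam)) (n - c) s)), ?_, fun m => ?_⟩
  · refine Submodule.sum_mem _ fun c hc => ?_
    rw [mem_range] at hc
    refine Submodule.smul_mem _ _ ?_
    by_cases hg : n ≤ c + 1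
    · have h3 := SS_mem hq (io_anti (gv q i lam)) (io_sq _) (gv_mem q i lam) c
      have h4 : SS (io (gv q i lam)) c ∈ GS q (ExteriorAlgebra K (Fin n → K)) (n / 2) :=
        GS_mono (by omega) h3
      have h5 := GS_mul h4 (GS_const (q := q) (IS (io (gv q i lam)) (n - c) s))
      rw [Nat.add_zero] at h5
      exact h5
    · rw [IS_vanish (io (gv q i lam)) (show 2 ≤ n - c by omega) s e3]
      have h6 : (SS (io (gv q i lam)) c * fun _ : ℕ => (0 : ExteriorAlgebra K (Fin n → K))) = 0 := by
        funext b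
        rw [Pi.mul_apply, mul_zero]
        rfl
      rw [h6]
      exact Submodule.zero_mem _
  · rw [e1, SS_smul, SS_from _ (io_sq _), Finset.sum_apply, smul_sum]
    refine sum_congr rfl fun c hc => ?_
    rw [Pi.smul_apply, Pi.mul_apply, show s + (m + n) = m + i + 1 by omega]

include hq0 hq in
/-- the alternating sum as a polynomial in the window variable -/
theorem Psi_dvd_near {i : ℕ} {lam : Fin n → ℕ} (hn : n ≤ i) (h1 : ∀ a, 1 ≤ lam a)
    (h2 : ∀ a : Fin n, i ≤ a + lam a) :
    ∃ P : K[X], ∀ m, Psi q n m lam =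
      (1 - q ^ (m + i + 1)) ^ (n / 2) * P.eval (q ^ (m + i + 1)) := by
  obtain ⟨F, hF, hF2⟩ := SS_near hq0 hq hn h1 h2
  obtain ⟨P, hP⟩ := GS_apply (vol K n) hF
  exact ⟨P, fun m => by rw [Psi_vol, hF2, hP]⟩

end nearSum

end Pool.Agent.GaussPoset.Yg

end
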