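import Mathlib
import Pool.Agent.W_448zz_h61.Ns
import Pool.Agent.W_448zz_h61.M007

/-! From `Pool.Agent.W_448win_h16.CoreA` -/

section

/-! Grouping by cores. -/

namespace Pool.Agent.GaussPoset.Win

set_option linter.unusedSectionVars false

open Finset

universe u

variable {P : Type u} [Fintype P] [PartialOrder P] [DecidableEq P] {r : ℕ}

lemma mem_Rst {i : ℕ} {K : Finset P} {psi : P → P} {e : P → ℕ} {x : P} :
    x ∈ Rst i K psi e ↔ x ∈ near P i ∧ x ∉ K ∧ x ∉ Tch i e ∧
      ¬ (x ∈ dbL P i ∪ dbU P i ∧ psi x ∈ Tch i e) := by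
  classical
  unfold Rst; simp

lemma CoreA_Tch (H : Gr P r) {i : ℕ} {e l : P → ℕ} (hl : ∀ x, x ∉ near P i → l x = 0) {x : P} :
    x ∈ Tch i (e + l) ↔ x ∈ Tch i e := by
  have key : ∀ z, lev z = i + 2 ∨ lev z + 2 = i → (e + l) z = e z := by
    intro z hz
    rw [Pi.add_apply, hl z (fun h => ?_), add_zero]
    rw [mem_near] at h
    omega
  rw [mem_Tch, mem_Tch]
  constructor
  · rintro (⟨h, z, hz, h0⟩ | ⟨h, z, hz, h0⟩)
    · have h1 := (H.covBy_iff.mp hz).2
      rw [key z (by omega)] at h0
      exact Or.inl ⟨h, z, hz, h0⟩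
    · have h1 := (H.covBy_iff.mp hz).2
      rw [key z (by omega)] at h0
      exact Or.inr ⟨h, z, hz, h0⟩
  · rintro (⟨h, z, hz, h0⟩ | ⟨h, z, hz, h0⟩)
    · have h1 := (H.covBy_iff.mp hz).2
      rw [← key z (by omega)] at h0
      exact Or.inl ⟨h, z, hz, h0⟩
    · have h1 := (H.covBy_iff.mp hz).2
      rw [← key z (by omega)] at h0
      exact Or.inr ⟨h, z, hz, h0⟩

/-- `Tch` depends on the labels at levels `i+2` and `i-2` only (`H.covBy_iff`), so adding labels on
near elements does not change it, nor `Rst`. -/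
theorem Rst_add (H : Gr P r) {i : ℕ} (K : Finset P) (psi : P → P) (e l : P → ℕ)
    (hl : ∀ x, x ∉ near P i → l x = 0) : Tch i (e + l) = Tch i e ∧
      Rst i K psi (e + l) = Rst i K psi e := by
  have h1 : Tch i (e + l) = Tch i e := Finset.ext fun x => CoreA_Tch H hl
  refine ⟨h1, ?_⟩
  unfold Rst
  rw [h1]

/-- the core of a configuration -/
noncomputable def CoreA_cr (i : ℕ) (K : Finset P) (psi : P → P) (e : P → ℕ) : P → ℕ :=
  fun x => if x ∈ Rst i K psi e then 0 else e x

/-- the rest of a configuration -/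
noncomputable def CoreA_rl (i : ℕ) (K : Finset P) (psi : P → P) (e : P → ℕ) : P → ℕ :=
  fun x => if x ∈ Rst i K psi e then e x else 0

lemma CoreA_add (i : ℕ) (K : Finset P) (psi : P → P) (e : P → ℕ) :
    CoreA_cr i K psi e + CoreA_rl i K psi e = e := by
  funext x
  unfold CoreA_cr CoreA_rl
  rw [Pi.add_apply]
  by_cases h : x ∈ Rst i K psi e
  · simp [h]
  · simp [h]

lemma CoreA_rl_zero {i : ℕ} {K : Finset P} {psi : P → P} {e : P → ℕ} {x : P}
    (hx : x ∉ Rst i K psi e) : CoreA_rl i K psi e x = 0 := by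
  unfold CoreA_rl
  rw [if_neg hx]

lemma CoreA_cr_zero {i : ℕ} {K : Finset P} {psi : P → P} {e : P → ℕ} {x : P}
    (hx : x ∈ Rst i K psi e) : CoreA_cr i K psi e x = 0 := by
  unfold CoreA_cr
  rw [if_pos hx]

lemma CoreA_Rst (H : Gr P r) (i : ℕ) (K : Finset P) (psi : P → P) (e : P → ℕ) :
    Rst i K psi (CoreA_cr i K psi e) = Rst i K psi e := by
  have h := (Rst_add H (i := i) K psi (CoreA_cr i K psi e) (CoreA_rl i K psi e)
    (fun x hx => CoreA_rl_zero (fun h => hx (mem_Rst.mp h).1))).2
  rw [CoreA_add] at h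
  exact h.symm

open Classical in
/-- Grouping by cores. Every `e` is uniquely `e0 + l` with `l` the restriction of `e` to
`Rst i K psi e` and `e0` zero there; `Rst i K psi e0 = Rst i K psi e` by `Rst_add`, so `e0` is a
core. Use `Finset.sum_sigma'` and `Finset.sum_bij'` (from triples `(q, e0, l)` to `e0 + l`). -/
theorem core_group {M : Type*} [AddCommMonoid M] (H : Gr P r) (F : (P → ℕ) → M) (i : ℕ)
    (K : Finset P) (psi : P → P) (n : ℕ) :
    ∑ e ∈ (univ : Finset P).piAntidiag n, F e =
      ∑ q ∈ range (n + 1), ∑ e0 ∈ ((univ : Finset P).piAntidiag q).filter (IsCore i K psi),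
        ∑ l ∈ (Rst i K psi e0).piAntidiag (n - q), F (e0 + l) := by
  have h1 : ∀ q ∈ range (n + 1), ∑ e0 ∈ ((univ : Finset P).piAntidiag q).filter (IsCore i K psi),
      ∑ l ∈ (Rst i K psi e0).piAntidiag (n - q), F (e0 + l) =
      ∑ p ∈ (((univ : Finset P).piAntidiag q).filter (IsCore i K psi)).sigma
        (fun e0 => (Rst i K psi e0).piAntidiag (n - q)), F (p.1 + p.2) :=
    fun q _ => Finset.sum_sigma' _ _ _
  rw [Finset.sum_congr rfl h1, Finset.sum_sigma']
  symm
  have hRst : ∀ (e0 l : P → ℕ), (∀ x, l x ≠ 0 → x ∈ Rst i K psi e0) →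
      Rst i K psi (e0 + l) = Rst i K psi e0 := by
    intro e0 l hl
    refine (Rst_add H K psi e0 l (fun x hx => ?_)).2
    by_contra hne
    exact hx (mem_Rst.mp (hl x hne)).1
  have hsum : ∀ (R : Finset P) (l : P → ℕ), (∀ x, l x ≠ 0 → x ∈ R) →
      ∑ x, l x = ∑ x ∈ R, l x := by
    intro R l hl
    symm
    refine Finset.sum_subset (Finset.subset_univ R) (fun x _ hx => ?_)
    by_contra hne
    exact hx (hl x hne)
  refine Finset.sum_bij' (fun p _ => p.2.1 + p.2.2)
    (fun e _ => ⟨∑ x, CoreA_cr i K psi e x, ⟨CoreA_cr i K psi e, CoreA_rl i K psi e⟩⟩)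
    ?_ ?_ ?_ ?_ ?_
  · rintro ⟨q, e0, l⟩ hp
    simp only [Finset.mem_sigma, Finset.mem_range, Finset.mem_filter,
      Finset.mem_piAntidiag] at hp
    obtain ⟨hq, ⟨⟨he, -⟩, hc⟩, hl, hl2⟩ := hp
    rw [Finset.mem_piAntidiag]
    refine ⟨?_, fun x _ => Finset.mem_univ x⟩
    show ∑ x, (e0 x + l x) = n
    rw [Finset.sum_add_distrib, hsum _ l hl2]
    have e1 : ∑ x, e0 x = q := he
    have e2 : ∑ x ∈ Rst i K psi e0, l x = n - q := hl
    omega
  · intro e he
    rw [Finset.mem_piAntidiag] at he
    have e1 : ∑ x, e x = n := he.1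
    have e2 : ∑ x, (CoreA_cr i K psi e x + CoreA_rl i K psi e x) = n := by
      rw [← e1]
      refine Finset.sum_congr rfl fun x _ => ?_
      have h2 := congrFun (CoreA_add i K psi e) x
      exact h2
    rw [Finset.sum_add_distrib] at e2
    simp only [Finset.mem_sigma, Finset.mem_range, Finset.mem_filter,
      Finset.mem_piAntidiag]
    have e3 : ∀ x, CoreA_rl i K psi e x ≠ 0 → x ∈ Rst i K psi e := by
      intro x hx
      by_contra hne
      exact hx (CoreA_rl_zero hne)
    refine ⟨by omega, ⟨⟨trivial, fun x _ => Finset.mem_univ x⟩, ?_⟩, ?_, ?_⟩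
    · intro x hx
      rw [CoreA_Rst H] at hx
      exact CoreA_cr_zero hx
    · rw [CoreA_Rst H, ← hsum _ _ e3]
      omega
    · rw [CoreA_Rst H]
      exact e3
  · rintro ⟨q, e0, l⟩ hp
    simp only [Finset.mem_sigma, Finset.mem_range, Finset.mem_filter,
      Finset.mem_piAntidiag] at hp
    obtain ⟨hq, ⟨⟨he, -⟩, hc⟩, hl, hl2⟩ := hp
    have e1 : Rst i K psi (e0 + l) = Rst i K psi e0 := hRst e0 l hl2
    have e2 : CoreA_cr i K psi (e0 + l) = e0 := by
      funext x
      unfold CoreA_cr
      rw [e1]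
      by_cases h : x ∈ Rst i K psi e0
      · rw [if_pos h]
        exact (hc x h).symm
      · rw [if_neg h, Pi.add_apply]
        have h3 : l x = 0 := by
          by_contra hne
          exact h (hl2 x hne)
        rw [h3, add_zero]
    have e3 : CoreA_rl i K psi (e0 + l) = l := by
      funext x
      unfold CoreA_rl
      rw [e1]
      by_cases h : x ∈ Rst i K psi e0
      · rw [if_pos h, Pi.add_apply, hc x h, zero_add]
      · rw [if_neg h]
        by_contra hne
        exact h (hl2 x (fun h4 => hne h4.symm))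
    have e4 : ∑ x, e0 x = q := he
    simp only [e2, e3, e4]
  · intro e he
    exact CoreA_add i K psi e
  · intro p _
    rfl

end Pool.Agent.GaussPoset.Win

end

/-! From `Pool.Agent.W_448win_h16.FactE` -/

section

/-! Single near elements. -/

namespace Pool.Agent.GaussPoset.Win

set_option linter.unusedSectionVars false

open Finset

universe u

variable {P : Type u} [Fintype P] [PartialOrder P] [DecidableEq P] {r : ℕ}

/-- A lower near element with one site `p`: `wtL e w a` is `1` if `a ≤ e p` and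
`dd * [p ∈ S]` if `e p < a` (`Rk_chi` with `B = {p}`, `p = 1`). -/
theorem single_L (H : Gr P r) {i : ℕ} {e : P → ℕ} {w : P} (hw : lev w = i + 1)
    (h1 : (uc w).card = 1) (a : ℕ) : Rk (lv P i) 0 (wtL e w a) := by
  classical
  obtain ⟨p, hp⟩ := Finset.card_eq_one.mp h1
  have hpl : p ∈ lv P i := by
    have h2 := lev_uc H (x := w) (v := p) (by rw [hp]; exact mem_singleton_self p)
    rw [mem_lv]
    omega
  by_cases hc : e p < a
  · refine Rk_congr (f := fun S => dd * chi {p} ∅ S) (fun S _ => ?_)
      (Rk_chi (p := 1) (singleton_subset_iff.mpr hpl) (empty_subset _) (by simp) (by simp))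
    unfold wtL chi
    rw [hp]
    simp only [mem_singleton, forall_eq, hc, if_true, true_implies, singleton_subset_iff,
      disjoint_empty_left, and_true]
  · refine Rk_congr (f := fun _ => 1) (fun S _ => ?_) (Rk_const _ 0 1)
    unfold wtL
    rw [hp]
    simp only [mem_singleton, forall_eq, hc, if_false, false_implies, if_true, mul_one]

/-- mirror image of `single_L` -/
theorem single_U (H : Gr P r) {i : ℕ} {e : P → ℕ} {u : P} (hu : lev u + 1 = i)
    (h1 : (dc u).card = 1) (b : ℕ) : Rk (lv P i) 0 (wtU e u b) := by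
  classical
  obtain ⟨p, hp⟩ := Finset.card_eq_one.mp h1
  have hpl : p ∈ lv P i := by
    have h2 := lev_dc H (x := u) (v := p) (by rw [hp]; exact mem_singleton_self p)
    rw [mem_lv]
    omega
  by_cases hc : e p < b
  · refine Rk_congr (f := fun S => (xi * dd) * chi ∅ {p} S) (fun S _ => ?_)
      (Rk_chi (p := 1) (empty_subset _) (singleton_subset_iff.mpr hpl) (by simp) (by
        rw [pow_one]
        exact Dvd.intro_left _ rfl))
    unfold wtU chi
    rw [hp]
    simp only [mem_singleton, forall_eq, hc, if_true, true_implies, empty_subset,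
      disjoint_singleton_left, true_and]
  · refine Rk_congr (f := fun _ => 1) (fun S _ => ?_) (Rk_const _ 0 1)
    unfold wtU
    rw [hp]
    simp only [mem_singleton, forall_eq, hc, if_false, false_implies, if_true, mul_one]

end Pool.Agent.GaussPoset.Win

end

/-! From `Pool.Agent.W_448win_h16.RkB` -/

section

/-! Products of functions with few deficits. -/

namespace Pool.Agent.GaussPoset.Win

set_option linter.unusedSectionVars false

open Finset

universe u

variable {P : Type u} [Fintype P] [PartialOrder P] [DecidableEq P] {r : ℕ}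

/-- Products. If `f S = ∑ T ⊆ S, c T` and `g S = ∑ T' ⊆ S, c' T'` then
`f S * g S = ∑ U ⊆ S, ∑ (T, T') with T ∪ T' = U, c T * c' T'`, and
`|T ∪ T'| - (k + l) ≤ (|T| - k) + (|T'| - l)` in natural subtraction. -/
lemma Rk_mul {V : Finset P} {k l : ℕ} {f g : Finset P → A} (hf : Rk V k f) (hg : Rk V l g) :
    Rk V (k + l) (fun S => f S * g S) := by
  obtain ⟨c, hc1, hc2⟩ := hf
  obtain ⟨c', hc1', hc2'⟩ := hg
  refine ⟨fun U => ∑ p ∈ (U.powerset ×ˢ U.powerset).filter (fun p => p.1 ∪ p.2 = U),
    c p.1 * c' p.2, ?_, ?_⟩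
  · intro U hU
    refine Finset.dvd_sum fun p hp => ?_
    rw [Finset.mem_filter, Finset.mem_product, Finset.mem_powerset, Finset.mem_powerset] at hp
    obtain ⟨⟨h1, h2⟩, h3⟩ := hp
    have h4 : U.card ≤ p.1.card + p.2.card := by
      rw [← h3]
      exact Finset.card_union_le _ _
    have h5 : dd ^ ((p.1.card - k) + (p.2.card - l)) ∣ c p.1 * c' p.2 := by
      rw [pow_add]
      exact mul_dvd_mul (hc1 _ (h1.trans hU)) (hc1' _ (h2.trans hU))
    exact (pow_dvd_pow _ (by omega)).trans h5
  · intro S hS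
    show f S * g S = _
    rw [hc2 S hS, hc2' S hS, Finset.sum_mul_sum, ← Finset.sum_product']
    have hmaps : ∀ p ∈ S.powerset ×ˢ S.powerset, p.1 ∪ p.2 ∈ S.powerset := by
      intro p hp
      rw [Finset.mem_product, Finset.mem_powerset, Finset.mem_powerset] at hp
      rw [Finset.mem_powerset]
      exact Finset.union_subset hp.1 hp.2
    rw [← Finset.sum_fiberwise_of_maps_to hmaps]
    refine Finset.sum_congr rfl fun U hU => ?_
    rw [Finset.mem_powerset] at hU
    refine Finset.sum_congr ?_ fun _ _ => rfl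
    ext p
    simp only [Finset.mem_filter, Finset.mem_product, Finset.mem_powerset]
    constructor
    · rintro ⟨-, h3⟩
      refine ⟨⟨?_, ?_⟩, h3⟩
      · rw [← h3]
        exact Finset.subset_union_left
      · rw [← h3]
        exact Finset.subset_union_right
    · rintro ⟨⟨h1, h2⟩, h3⟩
      exact ⟨⟨h1.trans hU, h2.trans hU⟩, h3⟩

end Pool.Agent.GaussPoset.Win

end

/-! From `Pool.Agent.W_448win_h16.FactF` -/

section

/-! The pair lemma. -/

namespace Pool.Agent.GaussPoset.Win

set_option linter.unusedSectionVars false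

open Finset

universe u

variable {P : Type u} [Fintype P] [PartialOrder P] [DecidableEq P] {r : ℕ}

lemma FactF_one_add : (1 : A) + xi = xi * dd := one_add_xi

/-- the function of a pair with large labels -/
lemma FactF_big {V : Finset P} {p q : P} (hp : p ∈ V) (hq : q ∈ V) (hpq : p ≠ q) :
    Rk V 0 (fun S => dd * (if p ∈ S ∧ q ∈ S then 1 else 0) +
      xi * dd * (if p ∉ S ∧ q ∉ S then 1 else 0)) := by
  have h1 := Rk_const V 0 (xi * dd)
  have h2 := Rk_chi (V := V) (B := {p}) (C := ∅) (k := 0) (p := 1) (a := -(xi * dd))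
    (Finset.singleton_subset_iff.2 hp) (Finset.empty_subset _) (by simp)
    (by rw [pow_one]; exact (Dvd.intro_left xi rfl).neg_right)
  have h3 := Rk_chi (V := V) (B := {q}) (C := ∅) (k := 0) (p := 1) (a := -(xi * dd))
    (Finset.singleton_subset_iff.2 hq) (Finset.empty_subset _) (by simp)
    (by rw [pow_one]; exact (Dvd.intro_left xi rfl).neg_right)
  have h4 := Rk_chi (V := V) (B := {p, q}) (C := ∅) (k := 0) (p := 2) (a := xi * dd ^ 2)
    (by
      intro x hx
      rw [Finset.mem_insert, Finset.mem_singleton] at hx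
      rcases hx with rfl | rfl
      · exact hp
      · exact hq) (Finset.empty_subset _)
    (by rw [Finset.card_pair hpq]; simp) (Dvd.intro_left xi rfl)
  refine Rk_congr (fun S _ => ?_) (Rk_add h1 (Rk_add h2 (Rk_add h3 h4)))
  have e1 : (chi {p} ∅ S : A) = if p ∈ S then 1 else 0 := by
    unfold chi
    simp
  have e2 : (chi {q} ∅ S : A) = if q ∈ S then 1 else 0 := by
    unfold chi
    simp
  have e3 : (chi {p, q} ∅ S : A) = if p ∈ S ∧ q ∈ S then 1 else 0 := by
    unfold chi
    simp [Finset.insert_subset_iff]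
  have hx : xi * dd * dd = dd + xi * dd := by
    linear_combination (-dd) * FactF_one_add
  simp only [e1, e2, e3]
  by_cases hpS : p ∈ S <;> by_cases hqS : q ∈ S
  · simp only [hpS, hqS, and_self, if_true, not_true, if_false]
    linear_combination hx
  · simp only [hpS, hqS, and_true, and_false, true_and, if_true, not_true, if_false,
      not_false_iff, false_and]
    ring
  · simp only [hpS, hqS, and_true, and_false, true_and, if_true, not_true, if_false,
      not_false_iff, false_and]
    ring
  · simp only [hpS, hqS, and_self, if_true, if_false, not_false_iff]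
    ring

/-- The pair lemma. Let `{p, q}` be the two sites, `m = min (e p) (e q)`, `M = max`, `t` the site with
the smaller label (if `m < M`). `wtL e w a` is `1` for `a ≤ m`, `[t ∈ S]` for `m < a ≤ M`,
`dd [p ∈ S][q ∈ S]` for `M < a`; `wtU e u b` is `1` for `b ≤ m`, `[t ∉ S]` for `m < b ≤ M` and
`xi dd [p ∉ S][q ∉ S]` for `M < b`. Products with both `a > m`, `b > m` vanish. So the sum over
`a + b = k` is `N1 + N2 ([t ∈ S] + [t ∉ S]) + N3 dd ([p ∈ S][q ∈ S] + xi [p ∉ S][q ∉ S])` with
`N2 = #{a + b = k, m < a ≤ M, b ≤ m}` (the same number with `a`, `b` exchanged) and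
`N3 = #{a + b = k, M < a, b ≤ m}`. Finally
`dd ([p ∈ S][q ∈ S] + xi [p ∉ S][q ∉ S]) = xi dd (1 - [p ∈ S] - [q ∈ S]) + xi dd^2 [p, q ∈ S]`
because `1 + xi = xi dd`, so it is in `Rk _ 0` (coefficients `xi dd` at `∅`, `- xi dd` at the
singletons, `xi dd^2` at `{p, q}`). -/
theorem pair_Rk (H : Gr P r) {i : ℕ} {e : P → ℕ} {w u : P} (hw : lev w = i + 1)
    (hu : lev u + 1 = i) (h2 : (uc w).card = 2) (heq : dc u = uc w) (k : ℕ) :
    Rk (lv P i) 0 (fun S => ∑ p ∈ antidiagonal k, wtL e w p.1 S * wtU e u p.2 S) := by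
  have _ := hu
  obtain ⟨p, q, hpq, huc⟩ := Finset.card_eq_two.1 h2
  have hp : p ∈ uc w := by rw [huc]; simp
  have hq : q ∈ uc w := by rw [huc]; simp
  have hpV : p ∈ lv P i := by
    rw [mem_lv]
    have := lev_uc H hp
    omega
  have hqV : q ∈ lv P i := by
    rw [mem_lv]
    have := lev_uc H hq
    omega
  have hdc : dc u = {p, q} := heq.trans huc
  have hL : ∀ a S, wtL e w a S = (if e p < a ∧ e q < a then dd else 1) *
      (if (e p < a → p ∈ S) ∧ (e q < a → q ∈ S) then 1 else 0) := by
    intro a S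
    unfold wtL
    rw [huc]
    simp only [Finset.mem_insert, Finset.mem_singleton, forall_eq_or_imp, forall_eq]
  have hU : ∀ b S, wtU e u b S = (if e p < b ∧ e q < b then xi * dd else 1) *
      (if (e p < b → p ∉ S) ∧ (e q < b → q ∉ S) then 1 else 0) := by
    intro a S
    unfold wtU
    rw [hdc]
    simp only [Finset.mem_insert, Finset.mem_singleton, forall_eq_or_imp, forall_eq]
  -- splitting of the product
  have hsplit : ∀ a b S, wtL e w a S * wtU e u b S =
      (if e p < b ∨ e q < b then 0 else wtL e w a S) +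
      (if (e p < a ∨ e q < a) ∨ ¬ (e p < b ∨ e q < b) then 0 else wtU e u b S) := by
    intro a b S
    by_cases hb : e p < b ∨ e q < b
    · by_cases ha : e p < a ∨ e q < a
      · rw [if_pos hb, if_pos (Or.inl ha), add_zero, hL, hU]
        rcases le_total (e p) (e q) with hle | hle
        · have h1 : e p < a := by omega
          have h3 : e p < b := by omega
          by_cases hpS : p ∈ S
          · rw [if_neg (c := (e p < b → p ∉ S) ∧ (e q < b → q ∉ S))]
            · ring
            · rintro ⟨h5, _⟩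
              exact h5 h3 hpS
          · rw [if_neg (c := (e p < a → p ∈ S) ∧ (e q < a → q ∈ S))]
            · ring
            · rintro ⟨h5, _⟩
              exact hpS (h5 h1)
        · have h1 : e q < a := by omega
          have h3 : e q < b := by omega
          by_cases hqS : q ∈ S
          · rw [if_neg (c := (e p < b → p ∉ S) ∧ (e q < b → q ∉ S))]
            · ring
            · rintro ⟨_, h5⟩
              exact h5 h3 hqS
          · rw [if_neg (c := (e p < a → p ∈ S) ∧ (e q < a → q ∈ S))]
            · ring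
            · rintro ⟨_, h5⟩
              exact hqS (h5 h1)
      · rw [if_pos hb, if_neg (by tauto), zero_add]
        have h1 : ¬ e p < a := fun h => ha (Or.inl h)
        have h3 : ¬ e q < a := fun h => ha (Or.inr h)
        rw [hL]
        simp [h1, h3]
    · rw [if_neg hb, if_pos (Or.inr hb), add_zero]
      have h1 : ¬ e p < b := fun h => hb (Or.inl h)
      have h3 : ¬ e q < b := fun h => hb (Or.inr h)
      rw [hU]
      simp [h1, h3]
  -- the sum, after an exchange in the second part
  have hsum : ∀ S : Finset P, ∑ x ∈ antidiagonal k, wtL e w x.1 S * wtU e u x.2 S =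
      ∑ x ∈ antidiagonal k, (if e p < x.2 ∨ e q < x.2 then 0 else
        (wtL e w x.1 S + if e p < x.1 ∨ e q < x.1 then wtU e u x.1 S else 0)) := by
    intro S
    have e1 : ∑ x ∈ antidiagonal k, wtL e w x.1 S * wtU e u x.2 S =
        ∑ x ∈ antidiagonal k, (if e p < x.2 ∨ e q < x.2 then 0 else wtL e w x.1 S) +
        ∑ x ∈ antidiagonal k, (if (e p < x.1 ∨ e q < x.1) ∨ ¬ (e p < x.2 ∨ e q < x.2) then 0
          else wtU e u x.2 S) := by
      rw [← Finset.sum_add_distrib]
      exact Finset.sum_congr rfl fun x _ => hsplit x.1 x.2 S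
    have e2 : ∑ x ∈ antidiagonal k, (if (e p < x.1 ∨ e q < x.1) ∨ ¬ (e p < x.2 ∨ e q < x.2) then 0
          else wtU e u x.2 S) =
        ∑ x ∈ antidiagonal k, (if (e p < x.2 ∨ e q < x.2) ∨ ¬ (e p < x.1 ∨ e q < x.1) then 0
          else wtU e u x.1 S) :=
      (Finset.Nat.sum_antidiagonal_swap (n := k)
        (f := fun x : ℕ × ℕ => (if (e p < x.1 ∨ e q < x.1) ∨ ¬ (e p < x.2 ∨ e q < x.2) then 0
          else wtU e u x.2 S : A))).symm
    rw [e1, e2, ← Finset.sum_add_distrib]
    refine Finset.sum_congr rfl fun x _ => ?_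
    by_cases hb : e p < x.2 ∨ e q < x.2
    · rw [if_pos hb, if_pos (Or.inl hb), if_pos hb, add_zero]
    · by_cases ha : e p < x.1 ∨ e q < x.1
      · rw [if_neg hb, if_neg (by tauto), if_neg hb, if_pos ha]
      · rw [if_neg hb, if_pos (Or.inr ha), if_neg hb, if_neg ha]
  refine Rk_congr (fun S _ => (hsum S).symm) (Rk_sum _ fun x _ => ?_)
  obtain ⟨a, b⟩ := x
  simp only
  by_cases hb : e p < b ∨ e q < b
  · simp only [if_pos hb]
    exact Rk_zero _ _
  · simp only [if_neg hb]
    by_cases h1 : e p < a <;> by_cases h3 : e q < a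
    · refine Rk_congr (fun S _ => ?_) (FactF_big hpV hqV hpq)
      rw [hL, hU]
      simp [h1, h3]
    · refine Rk_congr (fun S _ => ?_) (Rk_const _ 0 1)
      rw [hL, hU]
      by_cases hS : p ∈ S <;> simp [h1, h3, hS]
    · refine Rk_congr (fun S _ => ?_) (Rk_const _ 0 1)
      rw [hL, hU]
      by_cases hS : q ∈ S <;> simp [h1, h3, hS]
    · refine Rk_congr (fun S _ => ?_) (Rk_const _ 0 1)
      rw [hL]
      simp [h1, h3]

end Pool.Agent.GaussPoset.Win

end

/-! From `Pool.Agent.W_448win_h16.FactG` -/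

section

/-! Sum over all labellings of a closed set of near elements. -/

namespace Pool.Agent.GaussPoset.Win

set_option linter.unusedSectionVars false

open Finset

universe u

variable {P : Type u} [Fintype P] [PartialOrder P] [DecidableEq P] {r : ℕ}

lemma FactG_sum (R : Finset P) (m : ℕ) (c : P → ℕ → A) :
    ∑ l ∈ R.piAntidiag m, ∏ x ∈ R, c x (l x) =
      PowerSeries.coeff m (∏ x ∈ R, PowerSeries.mk (c x)) := by
  rw [PowerSeries.coeff_prod]
  simp only [PowerSeries.coeff_mk]
  refine Finset.sum_nbij' (fun l => Finsupp.equivFunOnFinite.symm l) (fun f => ⇑f) ?_ ?_ ?_ ?_ ?_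
  · intro l hl
    rw [Finset.mem_piAntidiag] at hl
    rw [Finset.mem_finsuppAntidiag]
    refine ⟨hl.1, fun x hx => hl.2 x ?_⟩
    rw [Finsupp.mem_support_iff] at hx
    exact hx
  · intro f hf
    rw [Finset.mem_finsuppAntidiag] at hf
    rw [Finset.mem_piAntidiag]
    exact ⟨hf.1, fun x hx => hf.2 (Finsupp.mem_support_iff.2 hx)⟩
  · intro l _
    rfl
  · intro f _
    exact Finsupp.ext fun _ => rfl
  · intro l _
    rfl

/-- products of power series whose coefficients have no deficits -/
lemma FactG_mul {V : Finset P} {f g : Finset P → PowerSeries A}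
    (hf : ∀ k, Rk V 0 (fun S => PowerSeries.coeff k (f S)))
    (hg : ∀ k, Rk V 0 (fun S => PowerSeries.coeff k (g S))) (m : ℕ) :
    Rk V 0 (fun S => PowerSeries.coeff m (f S * g S)) := by
  refine Rk_congr (fun S _ => (PowerSeries.coeff_mul m (f S) (g S)).symm) ?_
  exact Rk_sum _ fun x _ => Rk_mul (hf x.1) (hg x.2)

lemma FactG_aux (H : Gr P r) {i : ℕ} (hi : 1 ≤ i) (hi2 : i + 1 ≤ r) {K : Finset P}
    {psi : P → P} (hM : Mat P i K psi) (e : P → ℕ) (n : ℕ) : ∀ R : Finset P, R.card = n →
    R ⊆ near P i → (∀ x ∈ R, x ∉ K) → (∀ x ∈ R, x ∈ dbL P i ∪ dbU P i → psi x ∈ R) →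
    ∀ m, Rk (lv P i) 0 (fun S => PowerSeries.coeff m
      (∏ x ∈ R, PowerSeries.mk (fun a => wt i e x a S))) := by
  induction n using Nat.strong_induction_on with
  | _ n ih =>
    intro R hn hR hK hb m
    by_cases hd : ∃ w ∈ R, w ∈ dbL P i
    · obtain ⟨w, hwR, hwL⟩ := hd
      have hlow := hM.low w hwL (hK w hwR)
      have huR := hb w hwR (Finset.mem_union_left _ hwL)
      have hinv := hM.invol w (Finset.mem_union_left _ hwL) (hK w hwR)
      set u := psi w with hu
      have hwl := (mem_dbL.1 hwL).1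
      have hul := (mem_dbU.1 hlow.1).1
      have hne : u ≠ w := by
        intro h
        rw [h] at hul
        omega
      have huR' : u ∈ R.erase w := Finset.mem_erase.2 ⟨hne, huR⟩
      set R' := (R.erase w).erase u with hR'
      have hsub : R' ⊆ R := (Finset.erase_subset _ _).trans (Finset.erase_subset _ _)
      have hcard : R'.card < n := by
        have h1 := Finset.card_erase_lt_of_mem huR'
        have h2 := Finset.card_erase_lt_of_mem hwR
        rw [← hn]
        exact h1.trans h2
      have hclosed : ∀ x ∈ R', x ∈ dbL P i ∪ dbU P i → psi x ∈ R' := by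
        intro x hx hxd
        rw [hR', Finset.mem_erase, Finset.mem_erase] at hx ⊢
        obtain ⟨hxu, hxw, hxR⟩ := hx
        have h1 := (hM.invol x hxd (hK x hxR)).1
        refine ⟨?_, ?_, hb x hxR hxd⟩
        · intro h2
          rw [h2, hinv.1] at h1
          exact hxw h1.symm
        · intro h2
          rw [h2] at h1
          exact hxu h1.symm
      have hrec := ih R'.card hcard R' rfl (hsub.trans hR) (fun x hx => hK x (hsub hx)) hclosed
      have hprod : ∀ S, ∏ x ∈ R, PowerSeries.mk (fun a => wt i e x a S) =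
          (PowerSeries.mk (fun a => wt i e w a S) * PowerSeries.mk (fun a => wt i e u a S)) *
            ∏ x ∈ R', PowerSeries.mk (fun a => wt i e x a S) := by
        intro S
        rw [← Finset.mul_prod_erase R _ hwR, ← Finset.mul_prod_erase (R.erase w) _ huR',
          mul_assoc]
      refine Rk_congr (fun S _ => by rw [hprod S]) (FactG_mul (fun k => ?_) hrec m)
      refine Rk_congr (fun S _ => ?_)
        (pair_Rk (e := e) H hwl hul (mem_dbL.1 hwL).2 hlow.2 k)
      rw [PowerSeries.coeff_mul]
      refine Finset.sum_congr rfl fun p _ => ?_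
      rw [PowerSeries.coeff_mk, PowerSeries.coeff_mk]
      unfold wt
      rw [if_pos hwl, if_neg (by omega)]
    · by_cases hd' : ∃ u ∈ R, u ∈ dbU P i
      · obtain ⟨u, huR, huU⟩ := hd'
        exact absurd ⟨psi u, hb u huR (Finset.mem_union_right _ huU),
          (hM.upp u huU (hK u huR)).1⟩ hd
      · rcases R.eq_empty_or_nonempty with rfl | ⟨x, hx⟩
        · simp only [Finset.prod_empty]
          exact Rk_const _ 0 _
        · have hcard : (R.erase x).card < n := by
            rw [← hn]
            exact Finset.card_erase_lt_of_mem hx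
          have hsub : R.erase x ⊆ R := Finset.erase_subset _ _
          have hrec := ih (R.erase x).card hcard (R.erase x) rfl (hsub.trans hR)
            (fun y hy => hK y (hsub hy)) (by
              intro y hy hyd
              rw [Finset.mem_union] at hyd
              rcases hyd with h1 | h1
              · exact absurd ⟨y, hsub hy, h1⟩ hd
              · exact absurd ⟨y, hsub hy, h1⟩ hd')
          have hprod : ∀ S, (PowerSeries.mk (fun a => wt i e x a S)) *
              ∏ y ∈ R.erase x, PowerSeries.mk (fun a => wt i e y a S) =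
              ∏ y ∈ R, PowerSeries.mk (fun a => wt i e y a S) := fun S =>
            Finset.mul_prod_erase R (fun y => PowerSeries.mk (fun a => wt i e y a S)) hx
          refine Rk_congr (fun S _ => congrArg (PowerSeries.coeff m) (hprod S))
            (FactG_mul (f := fun S => PowerSeries.mk (fun a => wt i e x a S)) (fun k => ?_)
              hrec m)
          simp only [PowerSeries.coeff_mk]
          have hnear := mem_near.1 (hR hx)
          rcases hnear with h1 | h1
          · have h2 : (uc x).card = 1 := by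
              have h3 := uc_card_le H x
              have h4 := Finset.card_pos.2 (uc_nonempty H (x := x) (by omega))
              have h5 : (uc x).card ≠ 2 := fun h6 => hd ⟨x, hx, mem_dbL.2 ⟨h1, h6⟩⟩
              omega
            have h7 := single_L H (e := e) h1 h2 k
            refine Rk_congr (fun S _ => ?_) h7
            unfold wt
            rw [if_pos h1]
          · have h2 : (dc x).card = 1 := by
              have h3 := dc_card_le H x
              have h4 := Finset.card_pos.2 (dc_nonempty H (x := x) (by omega))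
              have h5 : (dc x).card ≠ 2 := fun h6 => hd' ⟨x, hx, mem_dbU.2 ⟨h1, h6⟩⟩
              omega
            have h7 := single_U H (e := e) h1 h2 k
            refine Rk_congr (fun S _ => ?_) h7
            unfold wt
            rw [if_neg (by omega)]

/-- Sum over all labellings of total `m` of a set `R` of near elements outside `K` which with every
double element contains its partner: in `Rk _ 0`. Induction on the cardinality of `R`. If `R` contains
a double element it contains a double lower element `w` (the partner of a double upper element is a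
double lower element) and its partner `u = psi w`; `R' = R \ {w, u}` is again closed (`psi` is an
involution outside `K`), and the sum over `piAntidiag R m` is
`∑ (k, m') ∈ antidiagonal m, (∑ (a,b) ∈ antidiagonal k, wt w a * wt u b) * (sum for R', m')`
(`Finset.piAntidiag_cons` / `Finset.piAntidiag_insert` twice); use `pair_Rk`, `Rk_mul`, `Rk_sum`. If all elements of
`R` are single, split off one element and use `single_L`, `single_U` (near elements have one or two
sites: `uc_nonempty`, `uc_card_le`, `dc_nonempty`, `dc_card_le`, with `1 ≤ i`, `i + 1 ≤ r`). `R = ∅`: the sum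
is `1` for `m = 0` and `0` otherwise. -/
theorem rest_prod (H : Gr P r) {i : ℕ} (hi : 1 ≤ i) (hi2 : i + 1 ≤ r) {K : Finset P}
    {psi : P → P} (hM : Mat P i K psi) (e : P → ℕ) (R : Finset P) (hR : R ⊆ near P i)
    (hK : ∀ x ∈ R, x ∉ K) (hb : ∀ x ∈ R, x ∈ dbL P i ∪ dbU P i → psi x ∈ R) (m : ℕ) :
    Rk (lv P i) 0 (fun S => ∑ l ∈ R.piAntidiag m, ∏ x ∈ R, wt i e x (l x) S) := by
  refine Rk_congr (fun S _ => (FactG_sum R m fun x a => wt i e x a S).symm) ?_
  exact FactG_aux H hi hi2 hM e R.card R rfl hR hK hb m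

end Pool.Agent.GaussPoset.Win

end

/-! From `Pool.Agent.W_448win_h16.CoreC` -/

section

/-! The matching at a good level. -/

namespace Pool.Agent.GaussPoset.Win

set_option linter.unusedSectionVars false

open Finset

universe u

variable {P : Type u} [Fintype P] [PartialOrder P] [DecidableEq P] {r : ℕ}

/-- double lower near elements with the set `T` of upper covers -/
noncomputable def CoreC_L (i : ℕ) (T : Finset P) : Finset P := (dbL P i).filter (fun w => uc w = T)

/-- double upper near elements with the set `T` of lower covers -/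
noncomputable def CoreC_U (i : ℕ) (T : Finset P) : Finset P := (dbU P i).filter (fun u => dc u = T)

lemma mem_CoreC_L {i : ℕ} {T : Finset P} {w : P} :
    w ∈ CoreC_L i T ↔ w ∈ dbL P i ∧ uc w = T := by
  unfold CoreC_L
  rw [Finset.mem_filter]

lemma mem_CoreC_U {i : ℕ} {T : Finset P} {w : P} :
    w ∈ CoreC_U i T ↔ w ∈ dbU P i ∧ dc w = T := by
  unfold CoreC_U
  rw [Finset.mem_filter]

lemma CoreC_L_pair (H : Gr P r) {i : ℕ} {v v' : P} (hv : lev v = i) (hne : v ≠ v') :
    (CoreC_L i {v, v'}).card = dcv v v' := by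
  classical
  unfold dcv
  congr 1
  ext w
  simp only [mem_CoreC_L, Finset.mem_filter, Finset.mem_univ, true_and]
  constructor
  · rintro ⟨_, h2⟩
    constructor
    · rw [← mem_uc, h2]
      simp
    · rw [← mem_uc, h2]
      simp
  · rintro ⟨h1, h2⟩
    have hsub : ({v, v'} : Finset P) ⊆ uc w := by
      intro x hx
      rw [Finset.mem_insert, Finset.mem_singleton] at hx
      rcases hx with rfl | rfl
      · exact mem_uc.2 h1
      · exact mem_uc.2 h2
    have hcard := uc_card_le H w
    have heq : ({v, v'} : Finset P) = uc w :=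
      Finset.eq_of_subset_of_card_le hsub (by rw [Finset.card_pair hne]; exact hcard)
    refine ⟨mem_dbL.2 ⟨?_, ?_⟩, heq.symm⟩
    · have := (H.covBy_iff.mp h1).2
      omega
    · rw [← heq, Finset.card_pair hne]

lemma CoreC_U_pair (H : Gr P r) {i : ℕ} {v v' : P} (hv : lev v = i) (hne : v ≠ v') :
    (CoreC_U i {v, v'}).card = ucv v v' := by
  classical
  unfold ucv
  congr 1
  ext w
  simp only [mem_CoreC_U, Finset.mem_filter, Finset.mem_univ, true_and]
  constructor
  · rintro ⟨_, h2⟩
    constructor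
    · rw [← mem_dc, h2]
      simp
    · rw [← mem_dc, h2]
      simp
  · rintro ⟨h1, h2⟩
    have hsub : ({v, v'} : Finset P) ⊆ dc w := by
      intro x hx
      rw [Finset.mem_insert, Finset.mem_singleton] at hx
      rcases hx with rfl | rfl
      · exact mem_dc.2 h1
      · exact mem_dc.2 h2
    have hcard := dc_card_le H w
    have heq : ({v, v'} : Finset P) = dc w :=
      Finset.eq_of_subset_of_card_le hsub (by rw [Finset.card_pair hne]; exact hcard)
    refine ⟨mem_dbU.2 ⟨?_, ?_⟩, heq.symm⟩
    · have := (H.covBy_iff.mp h1).2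
      omega
    · rw [← heq, Finset.card_pair hne]

lemma CoreC_card (H : Gr P r) {i : ℕ} (hg : Good P i) (T : Finset P) :
    (CoreC_L i T).card = (CoreC_U i T).card := by
  by_cases hT : T.card = 2 ∧ ∀ v ∈ T, lev v = i
  · obtain ⟨v, v', hne, rfl⟩ := Finset.card_eq_two.1 hT.1
    have hv : lev v = i := hT.2 v (by simp)
    have hv' : lev v' = i := hT.2 v' (by simp)
    rw [CoreC_L_pair H hv hne, CoreC_U_pair H hv hne, hg v v' hv hv' hne]
  · have h1 : CoreC_L i T = ∅ := by
      rw [Finset.eq_empty_iff_forall_notMem]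
      intro w hw
      rw [mem_CoreC_L, mem_dbL] at hw
      refine hT ⟨hw.2 ▸ hw.1.2, fun v hv => ?_⟩
      rw [← hw.2] at hv
      have := lev_uc H hv
      omega
    have h2 : CoreC_U i T = ∅ := by
      rw [Finset.eq_empty_iff_forall_notMem]
      intro w hw
      rw [mem_CoreC_U, mem_dbU] at hw
      refine hT ⟨hw.2 ▸ hw.1.2, fun v hv => ?_⟩
      rw [← hw.2] at hv
      have := lev_dc H hv
      omega
    rw [h1, h2]

/-- The matching at a good level. For a two-element set `{v, v'}` of sites the elements `w` of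
`dbL P i` with `uc w = {v, v'}` are the common lower covers of `v, v'` (`uc_card_le`: two given upper
covers are all), `dcv v v'` many, and the elements `u` of `dbU P i` with `dc u = {v, v'}` are the
common upper covers, `ucv v v'` many. Choose bijections for every pair, and let `psi` be the bijection
on `dbL`, its inverse on `dbU` (these sets are disjoint: levels). -/
theorem good_mat (H : Gr P r) {i : ℕ} (hg : Good P i) :
    ∃ psi : P → P, Mat P i ∅ psi := by
  classical
  let E : ∀ T : Finset P, CoreC_L i T ≃ CoreC_U i T := fun T =>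
    Finset.equivOfCardEq (CoreC_card H hg T)
  let psi : P → P := fun x =>
    if h : x ∈ CoreC_L i (uc x) then ((E (uc x) ⟨x, h⟩ : CoreC_U i (uc x)) : P)
    else if h : x ∈ CoreC_U i (dc x) then (((E (dc x)).symm ⟨x, h⟩ : CoreC_L i (dc x)) : P)
    else x
  have hlow : ∀ x ∈ dbL P i, ∀ (h : x ∈ CoreC_L i (uc x)),
      psi x = ((E (uc x) ⟨x, h⟩ : CoreC_U i (uc x)) : P) := by
    intro x _ h
    exact dif_pos h
  have hnot : ∀ x, x ∈ dbU P i → x ∉ CoreC_L i (uc x) := by
    intro x hx h
    rw [mem_CoreC_L, mem_dbL] at h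
    rw [mem_dbU] at hx
    omega
  have hupp : ∀ x ∈ dbU P i, ∀ (h : x ∈ CoreC_U i (dc x)),
      psi x = (((E (dc x)).symm ⟨x, h⟩ : CoreC_L i (dc x)) : P) := by
    intro x hx h
    change (if h : x ∈ CoreC_L i (uc x) then ((E (uc x) ⟨x, h⟩ : CoreC_U i (uc x)) : P)
      else if h : x ∈ CoreC_U i (dc x) then (((E (dc x)).symm ⟨x, h⟩ : CoreC_L i (dc x)) : P)
      else x) = _
    rw [dif_neg (hnot x hx), dif_pos h]
  have hL : ∀ x ∈ dbL P i, x ∈ CoreC_L i (uc x) := fun x hx => mem_CoreC_L.2 ⟨hx, rfl⟩
  have hU : ∀ x ∈ dbU P i, x ∈ CoreC_U i (dc x) := fun x hx => mem_CoreC_U.2 ⟨hx, rfl⟩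
  have low : ∀ x, x ∈ dbL P i → psi x ∈ dbU P i ∧ dc (psi x) = uc x := by
    intro x hx
    rw [hlow x hx (hL x hx)]
    exact mem_CoreC_U.1 (E (uc x) ⟨x, hL x hx⟩).2
  have upp : ∀ x, x ∈ dbU P i → psi x ∈ dbL P i ∧ uc (psi x) = dc x := by
    intro x hx
    rw [hupp x hx (hU x hx)]
    exact mem_CoreC_L.1 ((E (dc x)).symm ⟨x, hU x hx⟩).2
  have key1 : ∀ (T : Finset P) (u : P) (hT : dc u = T) (h : u ∈ CoreC_U i (dc u))
      (h' : u ∈ CoreC_U i T), (((E (dc u)).symm ⟨u, h⟩ : CoreC_L i (dc u)) : P) =
        (((E T).symm ⟨u, h'⟩ : CoreC_L i T) : P) := by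
    rintro T u rfl h h'
    rfl
  have key2 : ∀ (T : Finset P) (w : P) (hT : uc w = T) (h : w ∈ CoreC_L i (uc w))
      (h' : w ∈ CoreC_L i T), ((E (uc w) ⟨w, h⟩ : CoreC_U i (uc w)) : P) =
        ((E T ⟨w, h'⟩ : CoreC_U i T) : P) := by
    rintro T w rfl h h'
    rfl
  refine ⟨psi, ⟨fun x hx _ => ⟨?_, Finset.notMem_empty _⟩, fun x hx _ => low x hx,
    fun x hx _ => upp x hx⟩⟩
  rw [Finset.mem_union] at hx
  rcases hx with hx | hx
  · have h1 := low x hx
    rw [hupp (psi x) h1.1 (hU _ h1.1)]
    have h2 : psi x ∈ CoreC_U i (uc x) := mem_CoreC_U.2 h1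
    rw [key1 (uc x) (psi x) h1.2 (hU _ h1.1) h2]
    have h3 : (⟨psi x, h2⟩ : CoreC_U i (uc x)) = E (uc x) ⟨x, hL x hx⟩ :=
      Subtype.ext (hlow x hx (hL x hx))
    rw [h3, Equiv.symm_apply_apply]
  · have h1 := upp x hx
    rw [hlow (psi x) h1.1 (hL _ h1.1)]
    have h2 : psi x ∈ CoreC_L i (dc x) := mem_CoreC_L.2 h1
    rw [key2 (dc x) (psi x) h1.2 (hL _ h1.1) h2]
    have h3 : (⟨psi x, h2⟩ : CoreC_L i (dc x)) = (E (dc x)).symm ⟨x, hU x hx⟩ :=
      Subtype.ext (hupp x hx (hU x hx))
    rw [h3, Equiv.apply_symm_apply]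

end Pool.Agent.GaussPoset.Win

end
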