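import Mathlib
import Pool.Agent.W_448zz_h61.Ns
import Pool.Agent.W_448zz_h61.M010
import Pool.Agent.W_448zz_h61.M016
import Pool.Agent.W_448zz_h61.M021

/-! From `Pool.Agent.W_448win_h16.CoreB` -/

section

/-! The core theorem. -/

namespace Pool.Agent.GaussPoset.Win

set_option linter.unusedSectionVars false

open Finset

universe u

variable {P : Type u} [Fintype P] [PartialOrder P] [DecidableEq P] {r : ℕ}

/-- One group with a core in `Rk _ k`: `fact_many` gives
`Fe (e0 + l) S = Fe e0 S * ∏ x ∈ R, wt i e0 x (l x) S` with `R = Rst i K psi e0`; `rest_prod` and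
`Rk_mul`. The set `R` is closed under `psi`: for `x ∈ R` double, `psi x` is double, near,
not in `K` (`hM`), `psi x ∉ Tch` by the definition of `Rst`, and `psi (psi x) = x ∉ Tch`. -/
theorem core_cheap (H : Gr P r) {i : ℕ} (hi : 1 ≤ i) (hi2 : i + 1 ≤ r) {K : Finset P}
    {psi : P → P} (hM : Mat P i K psi) {e0 : P → ℕ} (hc : IsCore i K psi e0) {k : ℕ}
    (hk : Rk (lv P i) k (Fe i e0)) (m : ℕ) :
    Rk (lv P i) k (fun S => ∑ l ∈ (Rst i K psi e0).piAntidiag m, Fe i (e0 + l) S) := by
  have hR : Rst i K psi e0 ⊆ near P i := fun x hx => (mem_Rst.mp hx).1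
  have hK : ∀ x ∈ Rst i K psi e0, x ∉ K := fun x hx => (mem_Rst.mp hx).2.1
  have hT : ∀ x ∈ Rst i K psi e0, x ∉ Tch i e0 := fun x hx => (mem_Rst.mp hx).2.2.1
  have hb : ∀ x ∈ Rst i K psi e0, x ∈ dbL P i ∪ dbU P i → psi x ∈ Rst i K psi e0 := by
    intro x hx hd
    obtain ⟨h1, h2, h3, h4⟩ := mem_Rst.mp hx
    have h5 := hM.invol x hd h2
    refine mem_Rst.mpr ⟨?_, h5.2, fun h6 => h4 ⟨hd, h6⟩, ?_⟩
    · rcases Finset.mem_union.mp hd with h6 | h6
      · have h7 := (mem_dbU.mp (hM.low x h6 h2).1).1
        exact mem_near.mpr (Or.inr h7)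
      · have h7 := (mem_dbL.mp (hM.upp x h6 h2).1).1
        exact mem_near.mpr (Or.inl h7)
    · rintro ⟨-, h6⟩
      rw [h5.1] at h6
      exact h3 h6
  have h1 := Rk_mul hk (rest_prod H hi hi2 hM e0 (Rst i K psi e0) hR hK hb m)
  rw [add_zero] at h1
  refine Rk_congr (fun S _ => ?_) h1
  show Fe i e0 S * ∑ l ∈ (Rst i K psi e0).piAntidiag m,
    ∏ x ∈ Rst i K psi e0, wt i e0 x (l x) S = _
  rw [Finset.mul_sum]
  refine Finset.sum_congr rfl fun l hl => ?_
  rw [Finset.mem_piAntidiag] at hl
  refine (fact_many H (by omega) (Rst i K psi e0) hR hT hc l (fun x hx => ?_) S).symm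
  by_contra hne
  exact hx (hl.2 x hne)

open Classical in
/-- CORE THEOREM. If all cores of energy `< n` have at most `k` deficits, then the sum of the terms of
the cores of energy `n` is divisible by `dd ^ (b_i - k)`. Proof: `dvd_sum_trm`; write
`trm i e = II i (Fe i e)` (`II_Fe`), group with `core_group` applied to `F e = II i (Fe i e)`; for `q < n`
the inner double sums are `II` of functions in `Rk _ k` by `core_cheap` (`II` commutes with finite sums),
hence divisible by `dd ^ (b_i - k)` (`Rk_II`); for `q = n` the inner sum is over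
`piAntidiag _ 0 = {0}`. -/
theorem core_sum (H : Gr P r) {i : ℕ} (hi : 1 ≤ i) (hi2 : i + 1 ≤ r) {K : Finset P}
    {psi : P → P} (hM : Mat P i K psi) (n k : ℕ)
    (hk : ∀ e : P → ℕ, IsCore i K psi e → ∑ x, e x < n → Rk (lv P i) k (Fe i e)) :
    dd ^ ((lv P i).card - k) ∣
      ∑ e ∈ ((univ : Finset P).piAntidiag n).filter (IsCore i K psi), trm i e := by
  have h := dvd_sum_trm H (i := i) (by omega) n
  have h0 : dd ^ ((lv P i).card - k) ∣ ∑ e ∈ (univ : Finset P).piAntidiag n, trm i e :=
    (pow_dvd_pow dd (Nat.sub_le _ _)).trans h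
  rw [core_group H (fun e => trm i e) i K psi n, Finset.sum_range_succ, Nat.sub_self] at h0
  have h1 : dd ^ ((lv P i).card - k) ∣ ∑ q ∈ range n,
      ∑ e0 ∈ ((univ : Finset P).piAntidiag q).filter (IsCore i K psi),
        ∑ l ∈ (Rst i K psi e0).piAntidiag (n - q), trm i (e0 + l) := by
    refine Finset.dvd_sum fun q hq => Finset.dvd_sum fun e0 he => ?_
    rw [Finset.mem_range] at hq
    rw [Finset.mem_filter, Finset.mem_piAntidiag] at he
    have h2 : ∑ x, e0 x = q := he.1.1
    have h3 := Rk_II (core_cheap H hi hi2 hM he.2 (hk e0 he.2 (by omega)) (n - q))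
    have h4 : II i (fun S => ∑ l ∈ (Rst i K psi e0).piAntidiag (n - q), Fe i (e0 + l) S) =
        ∑ l ∈ (Rst i K psi e0).piAntidiag (n - q), trm i (e0 + l) := by
      unfold II
      simp only [Finset.mul_sum]
      rw [Finset.sum_comm]
      refine Finset.sum_congr rfl fun l _ => ?_
      rw [← II_Fe]
      rfl
    rw [h4] at h3
    exact h3
  have h2 := (dvd_add_right h1).mp h0
  have h3 : ∑ e0 ∈ ((univ : Finset P).piAntidiag n).filter (IsCore i K psi),
      ∑ l ∈ (Rst i K psi e0).piAntidiag 0, trm i (e0 + l) =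
      ∑ e ∈ ((univ : Finset P).piAntidiag n).filter (IsCore i K psi), trm i e := by
    refine Finset.sum_congr rfl fun e _ => ?_
    rw [Finset.piAntidiag_zero, Finset.sum_singleton, add_zero]
  rw [h3] at h2
  exact h2

end Pool.Agent.GaussPoset.Win

end

/-! From `Pool.Agent.W_448so_h17.CrA` -/

section

/-!
S9, second order identities at the window `i = j - 1`: the configurations which excite an element
outside the extended components (`cuni (i+2) κ`), energies at most six.
-/

namespace Pool.Agent.GaussPoset.Win.So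

set_option linter.unusedSectionVars false

open Finset

universe u

variable {P : Type u} [Fintype P] [PartialOrder P] [DecidableEq P] {r i l : ℕ}

variable {ι : Type*} [DecidableEq ι] {κ : P → ι} {e : P → ℕ}

open Classical in
/-- core theorem for a class `Q` of configurations which only depends on the core -/
theorem core_sum_Q (H : Gr P r) {i : ℕ} (hi : 1 ≤ i) (hi2 : i + 1 ≤ r) {K : Finset P}
    {psi : P → P} (hM : Mat P i K psi) (n k : ℕ) (Q : (P → ℕ) → Prop)
    (hQ : ∀ e l : P → ℕ, (∀ x, x ∉ near P i → l x = 0) → (Q (e + l) ↔ Q e))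
    (hk : ∀ e : P → ℕ, IsCore i K psi e → Q e → ∑ x, e x < n → Rk (lv P i) k (Fe i e))
    (S : Finset (P → ℕ)) (hS : ∀ e ∈ S, IsCore i K psi e ∧ ∑ x, e x = n ∧ Q e)
    (hall : ∀ e : P → ℕ, IsCore i K psi e → Q e → ∑ x, e x = n → e ∉ S →
      Rk (lv P i) k (Fe i e)) :
    dd ^ ((lv P i).card - k) ∣
      ∑ e ∈ ((univ : Finset P).piAntidiag n).filter Q, trm i e - ∑ e ∈ S, trm i e := by
  have hl0 : ∀ (e0 l : P → ℕ) (m : ℕ), l ∈ (Rst i K psi e0).piAntidiag m →
      (Q (e0 + l) ↔ Q e0) := by
    intro e0 l m hl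
    apply hQ
    intro x hx
    by_contra h
    rw [Finset.mem_piAntidiag] at hl
    exact hx (mem_Rst.mp (hl.2 x h)).1
  rw [Finset.sum_filter, core_group H (fun e => if Q e then trm i e else 0) i K psi n,
    Finset.sum_range_succ, Nat.sub_self]
  have h1 : dd ^ ((lv P i).card - k) ∣ ∑ q ∈ range n,
      ∑ e0 ∈ ((univ : Finset P).piAntidiag q).filter (IsCore i K psi),
        ∑ l ∈ (Rst i K psi e0).piAntidiag (n - q),
          (if Q (e0 + l) then trm i (e0 + l) else 0) := by
    refine Finset.dvd_sum fun q hq => Finset.dvd_sum fun e0 he => ?_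
    rw [Finset.mem_range] at hq
    rw [Finset.mem_filter, Finset.mem_piAntidiag] at he
    by_cases hQ0 : Q e0
    · have h2 : ∑ x, e0 x = q := he.1.1
      have h3 := Rk_II (core_cheap H hi hi2 hM he.2 (hk e0 he.2 hQ0 (by omega)) (n - q))
      have h4 : II i (fun S => ∑ l ∈ (Rst i K psi e0).piAntidiag (n - q), Fe i (e0 + l) S) =
          ∑ l ∈ (Rst i K psi e0).piAntidiag (n - q),
            (if Q (e0 + l) then trm i (e0 + l) else 0) := by
        unfold II
        simp only [Finset.mul_sum]
        rw [Finset.sum_comm]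
        refine Finset.sum_congr rfl fun l hl => ?_
        rw [if_pos ((hl0 e0 l _ hl).2 hQ0), ← II_Fe]
        rfl
      rw [h4] at h3
      exact h3
    · rw [Finset.sum_eq_zero]
      · exact dvd_zero _
      · intro l hl
        rw [if_neg (fun h => hQ0 ((hl0 e0 l _ hl).1 h))]
  rw [add_sub_assoc]
  refine dvd_add h1 ?_
  have h3 : ∑ e0 ∈ ((univ : Finset P).piAntidiag n).filter (IsCore i K psi),
      ∑ l ∈ (Rst i K psi e0).piAntidiag 0, (if Q (e0 + l) then trm i (e0 + l) else 0) =
      ∑ e ∈ ((univ : Finset P).piAntidiag n).filter (IsCore i K psi),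
        (if Q e then trm i e else 0) := by
    refine Finset.sum_congr rfl fun e _ => ?_
    rw [Finset.piAntidiag_zero, Finset.sum_singleton, add_zero]
  rw [h3]
  have hsub : S ⊆ ((univ : Finset P).piAntidiag n).filter (IsCore i K psi) := by
    intro e he
    rw [Finset.mem_filter, Finset.mem_piAntidiag]
    exact ⟨⟨(hS e he).2.1, fun x _ => Finset.mem_univ x⟩, (hS e he).1⟩
  rw [← Finset.sum_sdiff hsub]
  have h5 : ∑ e ∈ S, (if Q e then trm i e else 0) = ∑ e ∈ S, trm i e :=
    Finset.sum_congr rfl fun e he => if_pos (hS e he).2.2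
  rw [h5, add_sub_cancel_right]
  refine Finset.dvd_sum fun e he => ?_
  rw [Finset.mem_sdiff, Finset.mem_filter, Finset.mem_piAntidiag] at he
  split_ifs with hQe
  · rw [← II_Fe]
    exact Rk_II (hall e he.1.2 hQe he.1.1.1 he.2)
  · exact dvd_zero _

/-- an element outside the extended components is excited -/
def CrO (i : ℕ) (κ : P → ι) (e : P → ℕ) : Prop := ∃ z, z ∉ cuni (i + 2) κ ∧ 1 ≤ e z

lemma CrO_add (H : Gr P r) (hκ : Split (i + 2) κ) (e l : P → ℕ)
    (hl : ∀ x, x ∉ near P i → l x = 0) : CrO i κ (e + l) ↔ CrO i κ e := by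
  have key : ∀ z, z ∉ cuni (i + 2) κ → (e + l) z = e z := by
    intro z hz
    have h1 := (two_up H hκ hz).1
    rw [Pi.add_apply, hl z (fun h => ?_), add_zero]
    rw [mem_near] at h
    omega
  unfold CrO
  constructor
  · rintro ⟨z, hz, h⟩
    exact ⟨z, hz, by rwa [key z hz] at h⟩
  · rintro ⟨z, hz, h⟩
    exact ⟨z, hz, by rwa [key z hz]⟩

/-! ### counting -/

lemma card_le_sum {T : Finset P} (h : ∀ x ∈ T, 1 ≤ e x) : T.card ≤ ∑ x, e x :=
  calc T.card = ∑ _x ∈ T, 1 := by simp
    _ ≤ ∑ x ∈ T, e x := Finset.sum_le_sum h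
    _ ≤ ∑ x, e x := Finset.sum_le_sum_of_subset (subset_univ T)

lemma ex1 {T : Finset P} (h : ∀ x ∈ T, 1 ≤ e x) (hs : ∑ x, e x ≤ T.card + 1) (x : P) :
    e x ≤ (if x ∈ T then 1 else 0) + 1 := by
  have h1 : (∑ y ∈ T.erase x, e y) + e x ≤ ∑ y, e y := by
    have h2 : ∑ y ∈ insert x (T.erase x), e y ≤ ∑ y, e y :=
      Finset.sum_le_sum_of_subset (subset_univ _)
    rw [Finset.sum_insert (Finset.notMem_erase x T)] at h2
    omega
  have h3 : (T.erase x).card ≤ ∑ y ∈ T.erase x, e y := by
    calc (T.erase x).card = ∑ _y ∈ T.erase x, 1 := by simp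
      _ ≤ ∑ y ∈ T.erase x, e y := Finset.sum_le_sum fun y hy => h y (Finset.mem_of_mem_erase hy)
  by_cases hx : x ∈ T
  · rw [if_pos hx]
    have h4 := Finset.card_erase_of_mem hx
    have h5 : 0 < T.card := Finset.card_pos.2 ⟨x, hx⟩
    omega
  · rw [if_neg hx]
    rw [Finset.erase_eq_of_notMem hx] at h1 h3
    omega

lemma ex2 {T : Finset P} (h : ∀ x ∈ T, 1 ≤ e x) (hs : ∑ x, e x ≤ T.card + 1) {x y : P}
    (hxy : x ≠ y) :
    e x + e y ≤ (if x ∈ T then 1 else 0) + (if y ∈ T then 1 else 0) + 1 := by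
  set T' := (T.erase x).erase y with hT'
  have hx' : x ∉ insert y T' := by
    rw [mem_insert, hT', mem_erase, mem_erase]
    tauto
  have hy' : y ∉ T' := by
    rw [hT', mem_erase]
    tauto
  have h1 : e x + (e y + ∑ z ∈ T', e z) ≤ ∑ z, e z := by
    have h2 : ∑ z ∈ insert x (insert y T'), e z ≤ ∑ z, e z :=
      Finset.sum_le_sum_of_subset (subset_univ _)
    rwa [Finset.sum_insert hx', Finset.sum_insert hy'] at h2
  have h3 : T'.card ≤ ∑ z ∈ T', e z := by
    calc T'.card = ∑ _y ∈ T', 1 := by simp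
      _ ≤ ∑ y ∈ T', e y := Finset.sum_le_sum fun y hy =>
        h y (Finset.mem_of_mem_erase (Finset.mem_of_mem_erase hy))
  have h4 : T.card ≤ T'.card + (if x ∈ T then 1 else 0) + (if y ∈ T then 1 else 0) := by
    have h5 : T ⊆ T' ∪ (if x ∈ T then {x} else ∅) ∪ (if y ∈ T then {y} else ∅) := by
      intro z hz
      rw [mem_union, mem_union, hT', mem_erase, mem_erase]
      by_cases h6 : z = x
      · subst h6
        rw [if_pos hz]
        simp
      · by_cases h7 : z = y
        · subst h7
          rw [if_pos hz]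
          simp
        · exact Or.inl (Or.inl ⟨h7, h6, hz⟩)
    refine (Finset.card_le_card h5).trans ?_
    refine (Finset.card_union_le _ _).trans ?_
    have h6 := Finset.card_union_le T' (if x ∈ T then {x} else ∅)
    have h7 : (if x ∈ T then ({x} : Finset P) else ∅).card = if x ∈ T then 1 else 0 := by
      split_ifs <;> simp
    have h8 : (if y ∈ T then ({y} : Finset P) else ∅).card = if y ∈ T then 1 else 0 := by
      split_ifs <;> simp
    omega
  omega

lemma pL_ge {T : Finset P} (h : ∀ z ∈ T, i < lev z ∧ ¬ FD e z ∧ ¬ GU e z) :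
    T.card ≤ pL i e := by
  classical
  unfold pL
  apply Finset.card_le_card
  intro z hz
  rw [mem_filter]
  exact ⟨mem_univ z, h z hz⟩

/-! ### the join -/

/-- two labels above an element of level `l + 1` outside the components -/
lemma two_labels (H : Gr P r) (hκ : Split l κ) {v : P} (hv : v ∉ cuni l κ) (hl : lev v = l + 1) :
    ∃ p p', κ p ≠ κ p' ∧ uc v = {p, p'} := by
  classical
  obtain ⟨y, hy, hy0⟩ := exists_top v
  have h1 : v ∉ cext l κ (κ y) := by
    intro h
    apply hv
    unfold cuni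
    rw [mem_biUnion]
    exact ⟨κ y, mem_image_of_mem κ (mem_univ y), h⟩
  rw [mem_cext] at h1
  push Not at h1
  obtain ⟨y', hy', hl', hne⟩ := h1
  have mk : ∀ w, v ≤ w → lev w ≤ l → ∃ p ∈ uc v, κ p = κ w := by
    intro w hw hwl
    have h2 : v < w := by
      refine lt_of_le_of_ne hw ?_
      rintro rfl
      omega
    obtain ⟨p, hp, hpw⟩ := exists_covBy_le_of_lt h2
    have h3 := lev_uc H (mem_uc.2 hp)
    exact ⟨p, mem_uc.2 hp, hκ.le p hpw (by omega)⟩
  obtain ⟨p, hp, hpk⟩ := mk y hy (by omega)
  obtain ⟨p', hp', hpk'⟩ := mk y' hy' hl'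
  have hk : κ p ≠ κ p' := by
    rw [hpk, hpk']
    exact fun h => hne h.symm
  refine ⟨p, p', hk, ?_⟩
  symm
  apply Finset.eq_of_subset_of_card_le
  · intro x hx
    rw [mem_insert, mem_singleton] at hx
    rcases hx with rfl | rfl
    · exact hp
    · exact hp'
  · rw [Finset.card_pair (fun h => hk (by rw [h]))]
    exact uc_card_le H v

open Classical in
lemma up_eq (l : ℕ) (z : P) : up l z = ((lv P l).filter (fun v => z < v)).card := by
  classical
  unfold up
  congr 1

/-- at energy at most six an element of level `i + 3` outside the components is excited -/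
lemma cross_v (H : Gr P r) (hκ : Split (i + 2) κ) (hA : AdmL i e) (hn : ∑ x, e x ≤ 6) :
    ∀ (m : ℕ) (z : P), lev z = i + 3 + m → z ∉ cuni (i + 2) κ → 1 ≤ e z →
      ∃ v, lev v = i + 3 ∧ v ∉ cuni (i + 2) κ ∧ 1 ≤ e v := by
  classical
  intro m
  induction m with
  | zero => exact fun z hz h1 h2 => ⟨z, by omega, h1, h2⟩
  | succ m ih =>
    intro z hz h1 h2
    by_cases h3 : ∃ w ∈ uc z, w ∉ cuni (i + 2) κ
    · obtain ⟨w, hw, hw2⟩ := h3
      have h4 := lev_uc H hw
      exact ih w (by omega) hw2 (pos_up H hA (by omega) h2 (mem_uc.1 hw))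
    · exfalso
      push Not at h3
      obtain ⟨w, hw⟩ := uc_nonempty H (x := z) (by omega)
      have hwc := h3 w hw
      unfold cuni at hwc
      rw [mem_biUnion] at hwc
      obtain ⟨a, ha, hwa⟩ := hwc
      have h4 : ∃ w' ∈ uc z, w' ≠ w := by
        by_contra h5
        push Not at h5
        apply h1
        unfold cuni
        rw [mem_biUnion]
        refine ⟨a, ha, ?_⟩
        rw [mem_cext]
        intro y hy hly
        have h6 : z < y := by
          refine lt_of_le_of_ne hy ?_
          rintro rfl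
          omega
        obtain ⟨w', hw', hwy⟩ := exists_covBy_le_of_lt h6
        have h7 := h5 w' (mem_uc.2 hw')
        rw [h7] at hwy
        exact mem_cext.1 hwa y hwy hly
      obtain ⟨w', hw', hne⟩ := h4
      have h5 := (two_up H hκ h1).2
      have hu1 := h5 (i + 1) (by omega)
      have hu2 := h5 (i + 2) le_rfl
      rw [up_eq] at hu1 hu2
      have lw := lev_uc H hw
      have lw' := lev_uc H hw'
      set V1 := (lv P (i + 1)).filter (fun v => z < v) with hV1
      set V2 := (lv P (i + 2)).filter (fun v => z < v) with hV2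
      have m1 : ∀ x ∈ V1, lev x = i + 1 ∧ z < x := by
        intro x hx
        rw [hV1, mem_filter, mem_lv] at hx
        exact hx
      have m2 : ∀ x ∈ V2, lev x = i + 2 ∧ z < x := by
        intro x hx
        rw [hV2, mem_filter, mem_lv] at hx
        exact hx
      have d1 : Disjoint V1 V2 := by
        rw [disjoint_left]
        intro x hx hx'
        have := (m1 x hx).1
        have := (m2 x hx').1
        omega
      have c1 : (insert z (insert w (insert w' (V1 ∪ V2)))).card =
          V1.card + V2.card + 3 := by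
        rw [card_insert_of_notMem, card_insert_of_notMem, card_insert_of_notMem,
          card_union_of_disjoint d1]
        · rw [mem_union]
          rintro (h | h)
          · have := (m1 _ h).1
            omega
          · have := (m2 _ h).1
            omega
        · rw [mem_insert, mem_union]
          rintro (h | h | h)
          · exact hne h.symm
          · have := (m1 _ h).1
            omega
          · have := (m2 _ h).1
            omega
        · rw [mem_insert, mem_insert, mem_union]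
          rintro (h | h | h | h)
          · rw [← h] at lw
            omega
          · rw [← h] at lw'
            omega
          · exact lt_irrefl _ (m1 _ h).2
          · exact lt_irrefl _ (m2 _ h).2
      have h6 := card_le_sum (e := e) (T := insert z (insert w (insert w' (V1 ∪ V2)))) (by
        intro x hx
        rw [mem_insert, mem_insert, mem_insert, mem_union] at hx
        rcases hx with rfl | rfl | rfl | h | h
        · exact h2
        · exact pos_up H hA (by omega) h2 (mem_uc.1 hw)
        · exact pos_up H hA (by omega) h2 (mem_uc.1 hw')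
        · have := m1 x h
          exact pos_above H hA (by omega) z this.2.le h2
        · have := m2 x h
          exact pos_above H hA (by omega) z this.2.le h2)
      omega

end Pool.Agent.GaussPoset.Win.So

end

/-! From `Pool.Agent.W_448so_h17.CrB` -/

section

/-!
S9, cross part: classification of the cores of energy at most six which excite an element outside
the extended components: at most one deficit, except `eN i v` (energy six, two deficits).
-/

namespace Pool.Agent.GaussPoset.Win.So

set_option linter.unusedSectionVars false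

open Finset

universe u

variable {P : Type u} [Fintype P] [PartialOrder P] [DecidableEq P] {r i l : ℕ}

variable {ι : Type*} [DecidableEq ι] {κ : P → ι} {e : P → ℕ} {psi : P → P}

open Classical in
/-- label one on the elements of level `> i` above `v` (including `v`) -/
noncomputable def eN (i : ℕ) (v : P) : P → ℕ := fun x => if v ≤ x ∧ i < lev x then 1 else 0

/-- a cross element with its covers -/
structure CrV (i : ℕ) (κ : P → ι) (v p p' : P) : Prop where
  lv : lev v = i + 3
  cov : uc v = {p, p'}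
  ne : κ p ≠ κ p'

namespace CrV

variable {v p p' : P}

lemma symm (D : CrV i κ v p p') : CrV i κ v p' p :=
  ⟨D.lv, by rw [D.cov, Finset.pair_comm], D.ne.symm⟩

lemma cp (D : CrV i κ v p p') : v ⋖ p := mem_uc.1 (by rw [D.cov]; exact mem_insert_self _ _)

lemma cp' (D : CrV i κ v p p') : v ⋖ p' := D.symm.cp

lemma lp (H : Gr P r) (D : CrV i κ v p p') : lev p = i + 2 := by
  have h1 := lev_uc H (mem_uc.2 D.cp)
  have h2 := D.lv
  omega

lemma lp' (H : Gr P r) (D : CrV i κ v p p') : lev p' = i + 2 := D.symm.lp H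

lemma lab (hκ : Split (i + 2) κ) (H : Gr P r) (D : CrV i κ v p p') {y : P} (hy : y ∈ uc p) :
    κ y = κ p := (hκ (mem_uc.1 hy) (by rw [D.lp H])).symm

lemma lab2 (hκ : Split (i + 2) κ) (H : Gr P r) (D : CrV i κ v p p') {y x : P} (hy : y ∈ uc p)
    (hx : x ∈ uc y) : κ x = κ p := by
  have h1 := lev_uc H hy
  have h2 := D.lp H
  rw [← D.lab hκ H hy]
  exact (hκ (mem_uc.1 hx) (by omega)).symm

lemma disj (hκ : Split (i + 2) κ) (H : Gr P r) (D : CrV i κ v p p') :
    Disjoint (uc p) (uc p') := by
  rw [disjoint_left]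
  intro y hy hy'
  exact D.ne ((D.lab hκ H hy).symm.trans (D.symm.lab hκ H hy'))

/-- the elements of level `i + 1` above `v` -/
lemma mem1 (H : Gr P r) (D : CrV i κ v p p') {x : P} :
    (lev x = i + 1 ∧ v < x) ↔ x ∈ uc p ∪ uc p' := by
  classical
  constructor
  · rintro ⟨h1, h2⟩
    obtain ⟨q, hq, hqx⟩ := exists_covBy_le_of_lt h2
    have hq' := mem_uc.2 hq
    have key : ∀ q, lev q = i + 2 → q ≤ x → x ∈ uc q := by
      intro q hq2 hqx
      have h3 : q < x := by
        refine lt_of_le_of_ne hqx ?_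
        rintro rfl
        omega
      exact mem_uc.2 (H.covBy_iff.2 ⟨h3, by omega⟩)
    rw [D.cov, mem_insert, mem_singleton] at hq'
    rw [mem_union]
    rcases hq' with rfl | rfl
    · exact Or.inl (key _ (D.lp H) hqx)
    · exact Or.inr (key _ (D.lp' H) hqx)
  · intro h
    rw [mem_union] at h
    rcases h with h | h
    · have h1 := lev_uc H h
      have h2 := D.lp H
      exact ⟨by omega, D.cp.lt.trans (mem_uc.1 h).lt⟩
    · have h1 := lev_uc H h
      have h2 := D.lp' H
      exact ⟨by omega, D.cp'.lt.trans (mem_uc.1 h).lt⟩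

/-- the elements of level `i + 2` above `v` -/
lemma mem2 (H : Gr P r) (D : CrV i κ v p p') {x : P} :
    (lev x = i + 2 ∧ v < x) ↔ x = p ∨ x = p' := by
  classical
  have key : (lev x = i + 2 ∧ v < x) ↔ x ∈ uc v := by
    rw [mem_uc, H.covBy_iff]
    have := D.lv
    constructor
    · rintro ⟨h1, h2⟩
      exact ⟨h2, by omega⟩
    · rintro ⟨h1, h2⟩
      exact ⟨by omega, h1⟩
  rw [key, D.cov, mem_insert, mem_singleton]

/-- the sites above `v` -/
lemma mem0 (H : Gr P r) (D : CrV i κ v p p') {x : P} :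
    (lev x = i ∧ v < x) ↔ ∃ y ∈ uc p ∪ uc p', x ∈ uc y := by
  classical
  constructor
  · rintro ⟨h1, h2⟩
    obtain ⟨y, hy1, hy2, hy3⟩ := exists_mid H h2.le (k := i + 1) (by omega)
      (by have := D.lv; omega)
    have h3 : v < y := by
      refine lt_of_le_of_ne hy1 ?_
      rintro rfl
      have := D.lv
      omega
    have h4 : y < x := by
      refine lt_of_le_of_ne hy2 ?_
      rintro rfl
      omega
    exact ⟨y, (D.mem1 H).1 ⟨hy3, h3⟩, mem_uc.2 (H.covBy_iff.2 ⟨h4, by omega⟩)⟩
  · rintro ⟨y, hy, hx⟩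
    obtain ⟨h1, h2⟩ := (D.mem1 H).2 hy
    have h3 := lev_uc H hx
    exact ⟨by omega, h2.trans (mem_uc.1 hx).lt⟩

lemma up1 (H : Gr P r) (hκ : Split (i + 2) κ) (D : CrV i κ v p p') :
    up (i + 1) v = (uc p).card + (uc p').card := by
  classical
  rw [up_eq, ← card_union_of_disjoint (D.disj hκ H)]
  congr 1
  ext x
  rw [mem_filter, mem_lv, D.mem1 H]

lemma up0_le (H : Gr P r) (D : CrV i κ v p p') : up i v ≤ up i p + up i p' := by
  classical
  rw [up_eq, up_eq, up_eq]
  refine le_trans (Finset.card_le_card ?_) (Finset.card_union_le _ _)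
  intro x hx
  rw [mem_filter, mem_lv, D.mem0 H] at hx
  obtain ⟨y, hy, hxy⟩ := hx
  rw [mem_union, mem_filter, mem_filter, mem_lv]
  rw [mem_union] at hy
  have h3 := lev_uc H hxy
  rcases hy with hy | hy
  · have h4 := lev_uc H hy
    have h5 := D.lp H
    exact Or.inl ⟨by omega, (mem_uc.1 hy).lt.trans (mem_uc.1 hxy).lt⟩
  · have h4 := lev_uc H hy
    have h5 := D.lp' H
    exact Or.inr ⟨by omega, (mem_uc.1 hy).lt.trans (mem_uc.1 hxy).lt⟩

open Classical in
/-- the cone of `v` above the window -/
noncomputable def T (v p p' : P) : Finset P := insert v (insert p (insert p' (uc p ∪ uc p')))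

lemma mem_T {x : P} : x ∈ T v p p' ↔ x = v ∨ x = p ∨ x = p' ∨ x ∈ uc p ∪ uc p' := by
  classical
  unfold T
  rw [mem_insert, mem_insert, mem_insert]

lemma T_iff (H : Gr P r) (D : CrV i κ v p p') {x : P} :
    x ∈ T v p p' ↔ v ≤ x ∧ i < lev x := by
  rw [mem_T]
  constructor
  · rintro (rfl | rfl | rfl | h)
    · exact ⟨le_rfl, by have := D.lv; omega⟩
    · exact ⟨D.cp.le, by have := D.lp H; omega⟩
    · exact ⟨D.cp'.le, by have := D.lp' H; omega⟩
    · obtain ⟨h1, h2⟩ := (D.mem1 H).2 h
      exact ⟨h2.le, by omega⟩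
  · rintro ⟨h1, h2⟩
    rcases eq_or_lt_of_le h1 with h3 | h3
    · exact Or.inl h3.symm
    · right
      have h4 := lev_strictAnti h3
      have h5 := D.lv
      rcases Nat.lt_or_ge (i + 1) (lev x) with h6 | h6
      · have h7 := (D.mem2 H).1 ⟨(by omega : lev x = i + 2), h3⟩
        rcases h7 with h7 | h7
        · exact Or.inl h7
        · exact Or.inr (Or.inl h7)
      · exact Or.inr (Or.inr ((D.mem1 H).1 ⟨by omega, h3⟩))

lemma card_T (H : Gr P r) (hκ : Split (i + 2) κ) (D : CrV i κ v p p') :
    (T v p p').card = (uc p).card + (uc p').card + 3 := by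
  classical
  have h1 := D.lv
  have h2 := D.lp H
  have h3 := D.lp' H
  have h4 : p ≠ p' := fun h => D.ne (by rw [h])
  unfold T
  rw [card_insert_of_notMem, card_insert_of_notMem, card_insert_of_notMem,
    card_union_of_disjoint (D.disj hκ H)]
  · intro h
    have := ((D.mem1 H).2 h).1
    omega
  · rw [mem_insert]
    rintro (h | h)
    · exact h4 h
    · have := ((D.mem1 H).2 h).1
      omega
  · rw [mem_insert, mem_insert]
    rintro (h | h | h)
    · rw [← h] at h2
      omega
    · rw [← h] at h3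
      omega
    · have := ((D.mem1 H).2 h).1
      omega

lemma pos_T (H : Gr P r) (D : CrV i κ v p p') (hA : AdmL i e) (hv : 1 ≤ e v) :
    ∀ x ∈ T v p p', 1 ≤ e x := by
  intro x hx
  obtain ⟨h1, h2⟩ := (D.T_iff H).1 hx
  exact pos_above H hA h2 v h1 hv

/-- a level `i + 2` element of the cone is `p` or `p'` -/
lemma T_two (H : Gr P r) (D : CrV i κ v p p') {x : P} (hx : x ∈ T v p p') (hl : lev x = i + 2) :
    x = p ∨ x = p' := by
  obtain ⟨h1, h2⟩ := (D.T_iff H).1 hx
  refine (D.mem2 H).1 ⟨hl, lt_of_le_of_ne h1 ?_⟩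
  rintro rfl
  have := D.lv
  omega

lemma T_lev (H : Gr P r) (D : CrV i κ v p p') {x : P} (hx : x ∈ T v p p') :
    i + 1 ≤ lev x ∧ lev x ≤ i + 3 := by
  obtain ⟨h1, h2⟩ := (D.T_iff H).1 hx
  have h3 : lev x ≤ lev v := by
    rcases eq_or_lt_of_le h1 with h | h
    · rw [h]
    · exact (lev_strictAnti h).le
  have := D.lv
  omega

end CrV

open Classical in
/-- a configuration which is the indicator of an up-closed set of lower elements: exact data -/
lemma cone_data (H : Gr P r) (hir : i ≤ r) {v : P} :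
    AdmL i (eN i v) ∧ AdmU i (eN i v) ∧ aL i (eN i v) = 0 ∧ aU i (eN i v) = 0 ∧
    pU i (eN i v) = 0 ∧ AU i (eN i v) = ∅ ∧
    (i < lev v → pL i (eN i v) = up (i + 1) v + (if lev v = i + 1 then 1 else 0) ∧
      AL i (eN i v) = (lv P i).filter (fun x => v < x)) := by
  classical
  have hFD : ∀ z, FD (eN i v) z → lev z ≤ i := by
    rintro z ⟨z', h1, h2⟩
    by_contra h3
    have h4 : eN i v z' = 1 := by
      unfold eN at h2 ⊢
      split_ifs at h2 ⊢ <;> omega
    have h5 : v ≤ z' ∧ i < lev z' := by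
      unfold eN at h4
      by_contra h6
      rw [if_neg h6] at h4
      omega
    have h6 : eN i v z = 1 := by
      unfold eN
      rw [if_pos ⟨h5.1.trans h1.le, by omega⟩]
    omega
  obtain ⟨u1, u2, u3, u4⟩ := upp_none H hir (e := eN i v) (by
    intro z hz
    unfold eN
    rw [if_neg]
    rintro ⟨-, h⟩
    omega)
  refine ⟨fun z hz h => ?_, u1, ?_, u3, u4, u2, fun hv => ⟨?_, ?_⟩⟩
  · have := hFD z h.1
    omega
  · unfold aL
    rw [card_eq_zero, filter_eq_empty_iff]
    rintro z - ⟨h1, h2⟩
    have := hFD z h2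
    omega
  · unfold pL
    have h1 : univ.filter (fun z : P => i < lev z ∧ ¬ FD (eN i v) z ∧ ¬ GU (eN i v) z) =
        (lv P (i + 1)).filter (fun z => v ≤ z) := by
      ext z
      rw [mem_filter, mem_filter, mem_lv]
      constructor
      · rintro ⟨-, h1, -, h3⟩
        have h4 : eN i v z = 1 := by
          by_contra h5
          apply h3
          obtain ⟨y, hy⟩ := uc_nonempty H (x := z) (by omega)
          refine ⟨y, mem_uc.1 hy, ?_⟩
          have h6 : eN i v z = 0 := by
            unfold eN at h5 ⊢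
            split_ifs at h5 ⊢ with h7
            · exact absurd rfl h5
            · rfl
          omega
        have h5 : v ≤ z ∧ i < lev z := by
          unfold eN at h4
          by_contra h6
          rw [if_neg h6] at h4
          omega
        refine ⟨?_, h5.1⟩
        by_contra h6
        apply h3
        obtain ⟨y, hy⟩ := uc_nonempty H (x := z) (by omega)
        have h7 := lev_uc H hy
        refine ⟨y, mem_uc.1 hy, ?_⟩
        rw [h4]
        unfold eN
        rw [if_pos ⟨h5.1.trans (mem_uc.1 hy).le, by omega⟩]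
      · rintro ⟨h1, h2⟩
        refine ⟨mem_univ _, by omega, fun h => ?_, ?_⟩
        · have := hFD z h
          omega
        · rintro ⟨y, hy, hle⟩
          have h3 := lev_uc H (mem_uc.2 hy)
          have h4 : eN i v z = 1 := by
            unfold eN
            rw [if_pos ⟨h2, by omega⟩]
          have h5 : eN i v y = 0 := by
            unfold eN
            rw [if_neg]
            rintro ⟨-, h⟩
            omega
          omega
    rw [h1, up_eq]
    split_ifs with h2
    · have h3 : (lv P (i + 1)).filter (fun z => v ≤ z) = {v} := by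
        ext z
        rw [mem_filter, mem_lv, mem_singleton]
        constructor
        · rintro ⟨h4, h5⟩
          by_contra h6
          have := lev_strictAnti (lt_of_le_of_ne h5 (fun h => h6 h.symm))
          omega
        · rintro rfl
          exact ⟨h2, le_rfl⟩
      have h4 : (lv P (i + 1)).filter (fun z => v < z) = ∅ := by
        rw [filter_eq_empty_iff]
        intro z hz h5
        rw [mem_lv] at hz
        have := lev_strictAnti h5
        omega
      rw [h3, h4]
      rfl
    · rw [add_zero]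
      congr 1
      ext z
      rw [mem_filter, mem_filter, mem_lv]
      constructor
      · rintro ⟨h3, h4⟩
        refine ⟨h3, lt_of_le_of_ne h4 ?_⟩
        rintro rfl
        exact h2 h3
      · rintro ⟨h3, h4⟩
        exact ⟨h3, h4.le⟩
  · ext x
    rw [NormD_mem_AL, mem_filter, mem_lv]
    constructor
    · rintro ⟨h1, z, hz, h2⟩
      refine ⟨h1, ?_⟩
      have h3 := lev_uc H (mem_uc.2 hz)
      have h4 : eN i v z = 1 := by
        unfold eN at h2 ⊢
        split_ifs at h2 ⊢ <;> omega
      have h5 : v ≤ z ∧ i < lev z := by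
        unfold eN at h4
        by_contra h6
        rw [if_neg h6] at h4
        omega
      exact lt_of_le_of_lt h5.1 hz.lt
    · rintro ⟨h1, h2⟩
      refine ⟨h1, ?_⟩
      obtain ⟨z, hz1, hz2, hz3⟩ := exists_mid H h2.le (k := i + 1) (by omega) (by omega)
      have h3 : z < x := by
        refine lt_of_le_of_ne hz2 ?_
        rintro rfl
        omega
      refine ⟨z, H.covBy_iff.2 ⟨h3, by omega⟩, ?_⟩
      have h4 : eN i v z = 1 := by
        unfold eN
        rw [if_pos ⟨hz1, by omega⟩]
      have h5 : eN i v x = 0 := by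
        unfold eN
        rw [if_neg]
        rintro ⟨-, h⟩
        omega
      omega

end Pool.Agent.GaussPoset.Win.So

end

/-! From `Pool.Agent.W_448so_h17.RfA` -/

section

/-!
S9, row 476 (C): exciting a near lower element `y` together with its private child `p` (whose
lower covers, and the other lower covers of `y`, have label zero) multiplies the function of the
configuration by `phiL`.
-/

namespace Pool.Agent.GaussPoset.Win.So

set_option linter.unusedSectionVars false

open Finset

universe u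

variable {P : Type u} [Fintype P] [PartialOrder P] [DecidableEq P] {r i : ℕ}

variable {e : P → ℕ} {y p : P} {Y Q : ℕ}

/-- change two labels -/
def up2 (y p : P) (Y Q : ℕ) (e : P → ℕ) : P → ℕ :=
  fun z => if z = y then Y else if z = p then Q else e z

lemma up2_y (y p : P) (Y Q : ℕ) (e : P → ℕ) : up2 y p Y Q e y = Y := by
  unfold up2; rw [if_pos rfl]

lemma up2_p {y p : P} (h : p ≠ y) (Y Q : ℕ) (e : P → ℕ) : up2 y p Y Q e p = Q := by
  unfold up2; rw [if_neg h, if_pos rfl]

lemma up2_ne {y p z : P} (h : z ≠ y) (h' : z ≠ p) (Y Q : ℕ) (e : P → ℕ) :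
    up2 y p Y Q e z = e z := by
  unfold up2; rw [if_neg h, if_neg h']

/-- `y` near lower with the child `p`, both with label zero, as all their lower covers -/
structure LowD (i : ℕ) (e : P → ℕ) (y p : P) : Prop where
  ly : lev y = i + 1
  cp : uc p = {y}
  ey : e y = 0
  ep : e p = 0
  hy : ∀ z, z ⋖ y → e z = 0
  hp : ∀ z, z ⋖ p → e z = 0

open Classical in
/-- the factor of `(y, p)` with labels `(Y, Q)` -/
noncomputable def phiL (e : P → ℕ) (y : P) (Y Q : ℕ) (S : Finset P) : A :=
  (if ∀ v ∈ uc y, e v < Y then (if Y < Q then xx * dd else dd) else (if Y < Q then 0 else 1)) *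
    (if ∀ v ∈ uc y, e v < Y → v ∈ S then 1 else 0)

namespace LowD

variable (H : Gr P r) (D : LowD i e y p)

include D

lemma py : p ⋖ y := mem_uc.1 (by rw [D.cp]; exact mem_singleton_self y)

lemma ne : p ≠ y := D.py.lt.ne

lemma only {z : P} (h : p ⋖ z) : z = y := by
  have := mem_uc.2 h
  rwa [D.cp, mem_singleton] at this

include H

lemma lp : lev p = i + 2 := by
  have h1 := lev_uc H (mem_uc.2 D.py)
  have := D.ly
  omega

/-- the label of an element which is neither `y` nor `p` -/
lemma oth {z : P} (h1 : lev z ≠ i + 1) (h2 : lev z ≠ i + 2) : up2 y p Y Q e z = e z := by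
  apply up2_ne
  · rintro rfl
    exact h1 D.ly
  · rintro rfl
    exact h2 (D.lp H)

lemma FD_p : ¬ FD (up2 y p Y Q e) p := by
  rintro ⟨z, hz, hlt⟩
  have l1 := lev_uc H (mem_uc.2 hz)
  have l2 := D.lp H
  have h3 : up2 y p Y Q e z = e z := D.oth H (by omega) (by omega)
  rw [h3, D.hp z hz] at hlt
  omega

lemma GU_p : GU (up2 y p Y Q e) p ↔ Q ≤ Y := by
  constructor
  · rintro ⟨z, hz, hle⟩
    rw [D.only hz, up2_y, up2_p D.ne] at hle
    exact hle
  · intro h
    refine ⟨y, D.py, ?_⟩
    rw [up2_y, up2_p D.ne]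
    exact h

lemma FD_y : FD (up2 y p Y Q e) y ↔ Y < Q := by
  constructor
  · rintro ⟨z, hz, hlt⟩
    rw [up2_y] at hlt
    by_cases h : z = p
    · rw [h, up2_p D.ne] at hlt
      exact hlt
    · rw [up2_ne hz.lt.ne h, D.hy z hz] at hlt
      omega
  · intro h
    refine ⟨p, D.py, ?_⟩
    rw [up2_y, up2_p D.ne]
    exact h

lemma GU_y : GU (up2 y p Y Q e) y ↔ ¬ ∀ v ∈ uc y, e v < Y := by
  have key : ∀ v ∈ uc y, up2 y p Y Q e v = e v := by
    intro v hv
    have l1 := lev_uc H hv
    have l2 := D.ly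
    exact D.oth H (by omega) (by omega)
  constructor
  · rintro ⟨v, hv, hle⟩ h
    rw [up2_y, key v (mem_uc.2 hv)] at hle
    have := h v (mem_uc.2 hv)
    omega
  · intro h
    push Not at h
    obtain ⟨v, hv, hle⟩ := h
    refine ⟨v, mem_uc.1 hv, ?_⟩
    rw [up2_y, key v hv]
    exact hle

lemma FD0_p : ¬ FD e p := by
  rintro ⟨z, hz, hlt⟩
  rw [D.hp z hz] at hlt
  omega

lemma GU0_p : GU e p := ⟨y, D.py, by rw [D.ep]; exact Nat.zero_le _⟩

lemma FD0_y : ¬ FD e y := by
  rintro ⟨z, hz, hlt⟩
  rw [D.hy z hz] at hlt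
  omega

lemma GU0_y : GU e y := by
  obtain ⟨v, hv⟩ := uc_nonempty H (x := y) (by rw [D.ly]; omega)
  exact ⟨v, mem_uc.1 hv, by rw [D.ey]; exact Nat.zero_le _⟩

lemma FD_oth {z : P} (hz : i < lev z) (h1 : z ≠ y) (h2 : z ≠ p) :
    FD (up2 y p Y Q e) z ↔ FD e z := by
  have key : ∀ z', z' ⋖ z → up2 y p Y Q e z' = e z' := by
    intro z' hz'
    apply up2_ne
    · rintro rfl
      have l1 := lev_uc H (mem_uc.2 hz')
      have := D.ly
      omega
    · rintro rfl
      exact h1 (D.only hz')
  unfold FD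
  constructor
  · rintro ⟨z', hz', hlt⟩
    rw [key z' hz', up2_ne h1 h2] at hlt
    exact ⟨z', hz', hlt⟩
  · rintro ⟨z', hz', hlt⟩
    refine ⟨z', hz', ?_⟩
    rw [key z' hz', up2_ne h1 h2]
    exact hlt

lemma GU_oth {z : P} (h1 : z ≠ y) (h2 : z ≠ p) :
    GU (up2 y p Y Q e) z ↔ GU e z := by
  by_cases hzy : z ⋖ y
  · have h0 := D.hy z hzy
    constructor
    · intro _
      exact ⟨y, hzy, by omega⟩
    · intro _
      exact ⟨y, hzy, by rw [up2_ne h1 h2]; omega⟩
  · by_cases hzp : z ⋖ p
    · have h0 := D.hp z hzp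
      constructor
      · intro _
        exact ⟨p, hzp, by omega⟩
      · intro _
        exact ⟨p, hzp, by rw [up2_ne h1 h2]; omega⟩
    · have key : ∀ w, z ⋖ w → up2 y p Y Q e w = e w := by
        intro w hw
        apply up2_ne
        · rintro rfl
          exact hzy hw
        · rintro rfl
          exact hzp hw
      unfold GU
      constructor
      · rintro ⟨w, hw, hle⟩
        rw [key w hw, up2_ne h1 h2] at hle
        exact ⟨w, hw, hle⟩
      · rintro ⟨w, hw, hle⟩
        refine ⟨w, hw, ?_⟩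
        rw [key w hw, up2_ne h1 h2]
        exact hle

lemma FD_site {v : P} (hv : lev v = i) :
    FD (up2 y p Y Q e) v ↔ FD e v ∨ (v ∈ uc y ∧ e v < Y) := by
  have hve : up2 y p Y Q e v = e v := D.oth H (by omega) (by omega)
  constructor
  · rintro ⟨z, hz, hlt⟩
    rw [hve] at hlt
    by_cases h : z = y
    · subst h
      rw [up2_y] at hlt
      exact Or.inr ⟨mem_uc.2 hz, hlt⟩
    · left
      refine ⟨z, hz, ?_⟩
      rwa [up2_ne h] at hlt
      rintro rfl
      have l1 := lev_uc H (mem_uc.2 hz)
      have := D.lp H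
      omega
  · rintro (⟨z, hz, hlt⟩ | ⟨h1, h2⟩)
    · refine ⟨z, hz, ?_⟩
      rw [hve, up2_ne]
      · exact hlt
      · rintro rfl
        rw [D.ey] at hlt
        omega
      · rintro rfl
        have l1 := lev_uc H (mem_uc.2 hz)
        have := D.lp H
        omega
    · refine ⟨y, mem_uc.1 h1, ?_⟩
      rw [hve, up2_y]
      exact h2

lemma up_eq {z : P} (hz : lev z ≤ i) : up2 y p Y Q e z = e z := D.oth H (by omega) (by omega)

lemma FU_iff {v : P} (hv : lev v ≤ i) : FU (up2 y p Y Q e) v ↔ FU e v := by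
  have hve : up2 y p Y Q e v = e v := D.up_eq H hv
  have key : ∀ w, v ⋖ w → up2 y p Y Q e w = e w := by
    intro w hw
    have l1 := lev_uc H (mem_uc.2 hw)
    exact D.up_eq H (by omega)
  unfold FU
  constructor
  · rintro ⟨w, hw, hlt⟩
    rw [key w hw, hve] at hlt
    exact ⟨w, hw, hlt⟩
  · rintro ⟨w, hw, hlt⟩
    refine ⟨w, hw, ?_⟩
    rw [key w hw, hve]
    exact hlt

lemma GD_iff {v : P} (hv : lev v < i) : GD (up2 y p Y Q e) v ↔ GD e v := by
  have hve : up2 y p Y Q e v = e v := D.up_eq H hv.le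
  have key : ∀ w, w ⋖ v → up2 y p Y Q e w = e w := by
    intro w hw
    have l1 := lev_uc H (mem_uc.2 hw)
    exact D.up_eq H (by omega)
  unfold GD
  constructor
  · rintro ⟨w, hw, hlt⟩
    rw [key w hw, hve] at hlt
    exact ⟨w, hw, hlt⟩
  · rintro ⟨w, hw, hlt⟩
    refine ⟨w, hw, ?_⟩
    rw [key w hw, hve]
    exact hlt

lemma AdmU_iff : AdmU i (up2 y p Y Q e) ↔ AdmU i e := by
  unfold AdmU
  constructor
  · intro h u hu
    have := h u hu
    rwa [D.FU_iff H hu.le, D.GD_iff H hu] at this
  · intro h u hu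
    rw [D.FU_iff H hu.le, D.GD_iff H hu]
    exact h u hu

lemma AU_eq : AU i (up2 y p Y Q e) = AU i e := by
  classical
  ext v
  rw [NormD_mem_AU, NormD_mem_AU]
  constructor
  · rintro ⟨h1, h2⟩
    exact ⟨h1, (D.FU_iff H h1.le).1 h2⟩
  · rintro ⟨h1, h2⟩
    exact ⟨h1, (D.FU_iff H h1.le).2 h2⟩

lemma aU_eq : aU i (up2 y p Y Q e) = aU i e := by
  classical
  unfold aU
  congr 1
  ext u
  rw [mem_filter, mem_filter]
  constructor
  · rintro ⟨h1, h2, h3⟩
    exact ⟨h1, h2, (D.FU_iff H h2.le).1 h3⟩
  · rintro ⟨h1, h2, h3⟩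
    exact ⟨h1, h2, (D.FU_iff H h2.le).2 h3⟩

lemma pU_eq : pU i (up2 y p Y Q e) = pU i e := by
  classical
  unfold pU
  congr 1
  ext u
  rw [mem_filter, mem_filter]
  constructor
  · rintro ⟨h1, h2, h3, h4⟩
    exact ⟨h1, h2, fun h => h3 ((D.FU_iff H h2.le).2 h), fun h => h4 ((D.GD_iff H h2).2 h)⟩
  · rintro ⟨h1, h2, h3, h4⟩
    exact ⟨h1, h2, fun h => h3 ((D.FU_iff H h2.le).1 h), fun h => h4 ((D.GD_iff H h2).1 h)⟩

lemma AdmL_iff : AdmL i (up2 y p Y Q e) ↔
    AdmL i e ∧ (Y < Q → ∀ v ∈ uc y, e v < Y) := by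
  have ly := D.ly
  constructor
  · intro h
    constructor
    · intro z hz
      by_cases z1 : z = y
      · subst z1
        exact fun h1 => D.FD0_y H h1.1
      · by_cases z2 : z = p
        · subst z2
          exact fun h1 => D.FD0_p H h1.1
        · have := h z hz
          rwa [D.FD_oth H hz z1 z2, D.GU_oth H z1 z2] at this
    · intro hYQ
      by_contra h1
      exact h y (by omega) ⟨(D.FD_y H).2 hYQ, (D.GU_y H).2 h1⟩
  · rintro ⟨h, h1⟩ z hz
    by_cases z1 : z = y
    · subst z1
      rw [D.FD_y H, D.GU_y H]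
      exact fun h2 => h2.2 (h1 h2.1)
    · by_cases z2 : z = p
      · subst z2
        exact fun h1 => D.FD_p H h1.1
      · rw [D.FD_oth H hz z1 z2, D.GU_oth H z1 z2]
        exact h z hz

open Classical in
lemma aL_eq : aL i (up2 y p Y Q e) = aL i e + (if Y < Q then 1 else 0) := by
  have ly := D.ly
  have h1 : univ.filter (fun z : P => i < lev z ∧ FD (up2 y p Y Q e) z) =
      univ.filter (fun z : P => i < lev z ∧ FD e z) ∪ (if Y < Q then {y} else ∅) := by
    ext z
    rw [mem_union, mem_filter, mem_filter]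
    have hu := mem_univ z
    by_cases z1 : z = y
    · subst z1
      rw [D.FD_y H]
      have h2 := D.FD0_y H
      have h3 : i < lev z := by omega
      by_cases h4 : Y < Q
      · rw [if_pos h4, mem_singleton]
        have hz0 : z = z := rfl
        tauto
      · rw [if_neg h4]
        have := notMem_empty z
        tauto
    · have h6 : z ∉ (if Y < Q then ({y} : Finset P) else ∅) := by
        split_ifs
        · rwa [mem_singleton]
        · exact notMem_empty z
      by_cases z2 : z = p
      · subst z2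
        have := D.FD_p H (Y := Y) (Q := Q)
        have := D.FD0_p H
        tauto
      · constructor
        · rintro ⟨h2, h3, h4⟩
          exact Or.inl ⟨h2, h3, (D.FD_oth H h3 z1 z2).1 h4⟩
        · rintro (⟨h2, h3, h4⟩ | h)
          · exact ⟨h2, h3, (D.FD_oth H h3 z1 z2).2 h4⟩
          · exact absurd h h6
  unfold aL
  rw [h1, card_union_of_disjoint]
  · congr 1
    split_ifs
    · exact card_singleton y
    · exact card_empty
  · rw [disjoint_left]
    intro z hz hz'
    rw [mem_filter] at hz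
    split_ifs at hz' with hk
    · rw [mem_singleton] at hz'
      subst hz'
      exact D.FD0_y H hz.2.2
    · exact notMem_empty z hz'

open Classical in
lemma pL_eq : pL i (up2 y p Y Q e) =
    pL i e + (if Y < Q ∨ ∀ v ∈ uc y, e v < Y then 1 else 0) := by
  have ly := D.ly
  have lp := D.lp H
  have hne := D.ne
  have h1 : univ.filter (fun z : P => i < lev z ∧ ¬ FD (up2 y p Y Q e) z ∧
      ¬ GU (up2 y p Y Q e) z) =
      univ.filter (fun z : P => i < lev z ∧ ¬ FD e z ∧ ¬ GU e z) ∪
        (if Y < Q then {p} else if ∀ v ∈ uc y, e v < Y then {y} else ∅) := by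
    ext z
    rw [mem_union, mem_filter, mem_filter]
    have hu := mem_univ z
    have he := notMem_empty z
    by_cases z1 : z = y
    · subst z1
      rw [D.FD_y H, D.GU_y H]
      have h2 := D.GU0_y H
      have h3 : i < lev z := by omega
      have hz0 : z = z := rfl
      by_cases h4 : Y < Q
      · rw [if_pos h4, mem_singleton]
        have := hne.symm
        tauto
      · rw [if_neg h4]
        by_cases h5 : ∀ v ∈ uc z, e v < Y
        · rw [if_pos h5, mem_singleton]
          tauto
        · rw [if_neg h5]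
          tauto
    · by_cases z2 : z = p
      · subst z2
        rw [D.GU_p H]
        have h2 := D.FD_p H (Y := Y) (Q := Q)
        have h3 := D.GU0_p H
        have h4 : i < lev z := by omega
        have hz0 : z = z := rfl
        by_cases h5 : Y < Q
        · rw [if_pos h5, mem_singleton]
          have : ¬ Q ≤ Y := by omega
          tauto
        · rw [if_neg h5]
          have : Q ≤ Y := by omega
          by_cases h6 : ∀ v ∈ uc y, e v < Y
          · rw [if_pos h6, mem_singleton]
            tauto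
          · rw [if_neg h6]
            tauto
      · have h6 : z ∉ (if Y < Q then ({p} : Finset P) else
            if ∀ v ∈ uc y, e v < Y then {y} else ∅) := by
          split_ifs
          · rwa [mem_singleton]
          · rwa [mem_singleton]
          · exact notMem_empty z
        constructor
        · rintro ⟨h2, h3, h4, h5⟩
          exact Or.inl ⟨h2, h3, fun h => h4 ((D.FD_oth H h3 z1 z2).2 h),
            fun h => h5 ((D.GU_oth H z1 z2).2 h)⟩
        · rintro (⟨h2, h3, h4, h5⟩ | h)
          · exact ⟨h2, h3, fun h => h4 ((D.FD_oth H h3 z1 z2).1 h),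
              fun h => h5 ((D.GU_oth H z1 z2).1 h)⟩
          · exact absurd h h6
  unfold pL
  rw [h1, card_union_of_disjoint]
  · congr 1
    by_cases h2 : Y < Q
    · rw [if_pos h2, if_pos (Or.inl h2), card_singleton]
    · rw [if_neg h2]
      by_cases h3 : ∀ v ∈ uc y, e v < Y
      · rw [if_pos h3, if_pos (Or.inr h3), card_singleton]
      · rw [if_neg h3, if_neg (by tauto), card_empty]
  · rw [disjoint_left]
    intro z hz hz'
    rw [mem_filter] at hz
    split_ifs at hz' with hk hk2
    · rw [mem_singleton] at hz'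
      subst hz'
      exact hz.2.2.2 (D.GU0_p H)
    · rw [mem_singleton] at hz'
      subst hz'
      exact hz.2.2.2 (D.GU0_y H)
    · exact notMem_empty z hz'

open Classical in
lemma AL_eq : AL i (up2 y p Y Q e) = AL i e ∪ (uc y).filter (fun v => e v < Y) := by
  ext v
  rw [mem_union, NormD_mem_AL, NormD_mem_AL, mem_filter]
  constructor
  · rintro ⟨h1, h2⟩
    rcases (D.FD_site H h1).1 h2 with h | h
    · exact Or.inl ⟨h1, h⟩
    · exact Or.inr h
  · rintro (⟨h1, h2⟩ | h)
    · exact ⟨h1, (D.FD_site H h1).2 (Or.inl h2)⟩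
    · have l1 := lev_uc H h.1
      have l2 := D.ly
      exact ⟨by omega, (D.FD_site H (by omega)).2 (Or.inr h)⟩

/-- THE FACTOR of a near element and its private child -/
theorem Fe_low (S : Finset P) : Fe i (up2 y p Y Q e) S = Fe i e S * phiL e y Y Q S := by
  classical
  have h1 : chi (AL i (up2 y p Y Q e)) (AU i (up2 y p Y Q e)) S =
      chi (AL i e) (AU i e) S * (if ∀ v ∈ uc y, e v < Y → v ∈ S then 1 else 0) := by
    rw [D.AL_eq H, D.AU_eq H]
    unfold chi
    have h2 : (AL i e ∪ (uc y).filter (fun v => e v < Y) ⊆ S ∧ Disjoint (AU i e) S) ↔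
        ((AL i e ⊆ S ∧ Disjoint (AU i e) S) ∧ ∀ v ∈ uc y, e v < Y → v ∈ S) := by
      rw [union_subset_iff]
      constructor
      · rintro ⟨⟨h3, h4⟩, h5⟩
        exact ⟨⟨h3, h5⟩, fun v hv hlt => h4 (mem_filter.2 ⟨hv, hlt⟩)⟩
      · rintro ⟨⟨h3, h5⟩, h4⟩
        refine ⟨⟨h3, fun v hv => ?_⟩, h5⟩
        rw [mem_filter] at hv
        exact h4 v hv.1 hv.2
    by_cases h3 : AL i e ⊆ S ∧ Disjoint (AU i e) S
    · by_cases h4 : ∀ v ∈ uc y, e v < Y → v ∈ S
      · rw [if_pos h3, if_pos h4, if_pos (h2.2 ⟨h3, h4⟩), mul_one]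
      · rw [if_neg h4, if_neg (fun h => h4 (h2.1 h).2), mul_zero]
    · rw [if_neg h3, if_neg (fun h => h3 (h2.1 h).1), zero_mul]
  have h2 : cw i (up2 y p Y Q e) = cw i e *
      (if ∀ v ∈ uc y, e v < Y then (if Y < Q then xx * dd else dd) else
        (if Y < Q then 0 else 1)) := by
    unfold cw
    rw [D.aL_eq H, D.aU_eq H, D.pL_eq H, D.pU_eq H, D.AdmU_iff H, D.AdmL_iff H]
    by_cases h3 : ∀ v ∈ uc y, e v < Y
    · rw [if_pos (Or.inr h3), if_pos h3]
      by_cases h4 : Y < Q
      · rw [if_pos h4, if_pos h4]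
        by_cases h5 : AdmL i e ∧ AdmU i e
        · rw [if_pos h5, if_pos ⟨⟨h5.1, fun _ => h3⟩, h5.2⟩]
          ring
        · rw [if_neg h5, if_neg (fun h => h5 ⟨h.1.1, h.2⟩), zero_mul]
      · rw [if_neg h4, if_neg h4]
        by_cases h5 : AdmL i e ∧ AdmU i e
        · rw [if_pos h5, if_pos ⟨⟨h5.1, fun _ => h3⟩, h5.2⟩]
          ring
        · rw [if_neg h5, if_neg (fun h => h5 ⟨h.1.1, h.2⟩), zero_mul]
    · rw [if_neg h3]
      by_cases h4 : Y < Q
      · rw [if_pos h4, if_pos h4, if_neg (fun h => h3 (h.1.2 h4)), mul_zero]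
      · have h6 : ¬ (Y < Q ∨ ∀ v ∈ uc y, e v < Y) := by tauto
        rw [if_neg h4, if_neg h4, if_neg h6]
        by_cases h5 : AdmL i e ∧ AdmU i e
        · rw [if_pos h5, if_pos ⟨⟨h5.1, fun h => absurd h h4⟩, h5.2⟩]
          ring
        · rw [if_neg h5, if_neg (fun h => h5 ⟨h.1.1, h.2⟩), zero_mul]
  unfold Fe phiL
  rw [h1, h2]
  ring

end LowD

end Pool.Agent.GaussPoset.Win.So

end
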