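import Mathlib
import Pool.Agent.W_448zz_h61.Ns
import Pool.Agent.W_448zz_h61.M007

/-! From `Pool.Agent.W_448win_h16.LowB` -/

section

/-! Counting positive labels. -/

namespace Pool.Agent.GaussPoset.Win

set_option linter.unusedSectionVars false

open Finset

universe u

variable {P : Type u} [Fintype P] [PartialOrder P] [DecidableEq P] {r : ℕ}

lemma LowB_TL {i : ℕ} {e : P → ℕ} {x : P} :
    x ∈ TL i e ↔ lev x = i + 1 ∧ ∃ z, z ⋖ x ∧ 0 < e z := by
  classical
  unfold TL; simp

lemma LowB_TU {i : ℕ} {e : P → ℕ} {x : P} :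
    x ∈ TU i e ↔ lev x + 1 = i ∧ ∃ y, x ⋖ y ∧ 0 < e y := by
  classical
  unfold TU; simp

lemma LowB_LF {i : ℕ} {e : P → ℕ} {x : P} : x ∈ LF i e ↔ i + 2 ≤ lev x ∧ 0 < e x := by
  classical
  unfold LF; simp

lemma LowB_UF {i : ℕ} {e : P → ℕ} {x : P} : x ∈ UF i e ↔ lev x + 2 ≤ i ∧ 0 < e x := by
  classical
  unfold UF; simp

lemma LowB_TL_pos (H : Gr P r) {i : ℕ} {e : P → ℕ} (hA : AdmL i e) {x : P} (hx : x ∈ TL i e) :
    0 < e x := by
  obtain ⟨h1, z, hz, he⟩ := LowB_TL.1 hx
  have h2 := (H.covBy_iff.1 hz).2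
  exact pos_up H hA (by omega) he hz

lemma LowB_TU_pos (H : Gr P r) {i : ℕ} (hi : i ≤ r) {e : P → ℕ} (hB : AdmU i e) {x : P}
    (hx : x ∈ TU i e) : 0 < e x := by
  obtain ⟨h1, y, hy, he⟩ := LowB_TU.1 hx
  have h2 := (H.covBy_iff.1 hy).2
  exact pos_dn H hi hB (by omega) he hy

/-- The four sets are disjoint (levels; `TL` has level `i+1`, `TU` level `i-1`) and consist of elements with positive
label (`pos_up`, `pos_dn` for `TL`, `TU`). -/
theorem energy_bound (H : Gr P r) {i : ℕ} (hi : i ≤ r) {e : P → ℕ} (hA : AdmL i e)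
    (hB : AdmU i e) :
    (TL i e).card + (TU i e).card + (LF i e).card + (UF i e).card ≤ ∑ x, e x := by
  have d1 : Disjoint (TL i e) (TU i e) := by
    rw [Finset.disjoint_left]
    intro x h1 h2
    rw [LowB_TL] at h1
    rw [LowB_TU] at h2
    omega
  have d2 : Disjoint (TL i e ∪ TU i e) (LF i e) := by
    rw [Finset.disjoint_left]
    intro x h1 h2
    rw [Finset.mem_union, LowB_TL, LowB_TU] at h1
    rw [LowB_LF] at h2
    omega
  have d3 : Disjoint (TL i e ∪ TU i e ∪ LF i e) (UF i e) := by
    rw [Finset.disjoint_left]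
    intro x h1 h2
    rw [Finset.mem_union, Finset.mem_union, LowB_TL, LowB_TU, LowB_LF] at h1
    rw [LowB_UF] at h2
    omega
  rw [← Finset.card_union_of_disjoint d1, ← Finset.card_union_of_disjoint d2,
    ← Finset.card_union_of_disjoint d3]
  calc (TL i e ∪ TU i e ∪ LF i e ∪ UF i e).card
      = ∑ x ∈ (TL i e ∪ TU i e ∪ LF i e ∪ UF i e), 1 := by simp
    _ ≤ ∑ x ∈ (TL i e ∪ TU i e ∪ LF i e ∪ UF i e), e x := by
        apply Finset.sum_le_sum
        intro x hx
        rw [Finset.mem_union, Finset.mem_union, Finset.mem_union] at hx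
        rcases hx with ((hx | hx) | hx) | hx
        · exact LowB_TL_pos H hA hx
        · exact LowB_TU_pos H hi hB hx
        · exact (LowB_LF.1 hx).2
        · exact (LowB_UF.1 hx).2
    _ ≤ ∑ x, e x := Finset.sum_le_sum_of_subset (Finset.subset_univ _)

/-- every element of `TL` is an upper cover of an element of `LF` (of level `i + 2`), and these have
at most two upper covers (`uc_card_le`): `Finset.card_biUnion_le` -/
theorem card_TL_le (H : Gr P r) {i : ℕ} (e : P → ℕ) : (TL i e).card ≤ 2 * (LF i e).card := by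
  have h1 : TL i e ⊆ (LF i e).biUnion uc := by
    intro x hx
    obtain ⟨h1, z, hz, he⟩ := LowB_TL.1 hx
    have h2 := (H.covBy_iff.1 hz).2
    rw [Finset.mem_biUnion]
    exact ⟨z, LowB_LF.2 ⟨by omega, he⟩, mem_uc.2 hz⟩
  calc (TL i e).card ≤ ((LF i e).biUnion uc).card := Finset.card_le_card h1
    _ ≤ (LF i e).card * 2 := Finset.card_biUnion_le_card_mul _ _ _ (fun z _ => uc_card_le H z)
    _ = 2 * (LF i e).card := mul_comm _ _

/-- mirror image of `card_TL_le` -/
theorem card_TU_le (H : Gr P r) {i : ℕ} (e : P → ℕ) : (TU i e).card ≤ 2 * (UF i e).card := by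
  have h1 : TU i e ⊆ (UF i e).biUnion dc := by
    intro x hx
    obtain ⟨h1, y, hy, he⟩ := LowB_TU.1 hx
    have h2 := (H.covBy_iff.1 hy).2
    rw [Finset.mem_biUnion]
    exact ⟨y, LowB_UF.2 ⟨by omega, he⟩, mem_dc.2 hy⟩
  calc (TU i e).card ≤ ((UF i e).biUnion dc).card := Finset.card_le_card h1
    _ ≤ (UF i e).card * 2 := Finset.card_biUnion_le_card_mul _ _ _ (fun z _ => dc_card_le H z)
    _ = 2 * (UF i e).card := mul_comm _ _

end Pool.Agent.GaussPoset.Win

end

/-! From `Pool.Agent.W_448win_h16.LowD` -/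

section

/-! Two touched elements. -/

namespace Pool.Agent.GaussPoset.Win

set_option linter.unusedSectionVars false

open Finset

universe u

variable {P : Type u} [Fintype P] [PartialOrder P] [DecidableEq P] {r : ℕ}

lemma LowD_ind {e : P → ℕ} {S : Finset P} (h : ∀ x ∈ S, 0 < e x) (hs : ∑ x, e x ≤ S.card)
    (x : P) : e x = if x ∈ S then 1 else 0 := by
  have hle : ∀ x ∈ (univ : Finset P), (if x ∈ S then 1 else 0) ≤ e x := by
    intro x _
    split_ifs with hx
    · exact h x hx
    · exact Nat.zero_le _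
  have hsum : ∑ x : P, (if x ∈ S then 1 else 0) = S.card := by
    rw [Finset.sum_ite_mem, univ_inter, Finset.sum_const, smul_eq_mul, mul_one]
  have heq : ∑ x : P, (if x ∈ S then 1 else 0) = ∑ x, e x :=
    le_antisymm (Finset.sum_le_sum hle) (by rw [hsum]; exact hs)
  exact ((Finset.sum_eq_sum_iff_of_le hle).1 heq x (mem_univ x)).symm

lemma LowD_sum_cl {i : ℕ} {z : P} (H : Gr P r) (h2 : (uc z).card = 2) :
    ∑ x, cl z x = 3 := by
  have hz : z ∉ uc z := fun h => lt_irrefl _ (mem_uc.1 h).1
  have h1 : ∀ x, cl z x = if x ∈ insert z (uc z) then 1 else 0 := by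
    intro x
    unfold cl
    simp only [Finset.mem_insert]
  rw [Finset.sum_congr rfl (fun x _ => h1 x), Finset.sum_ite_mem, univ_inter, Finset.sum_const,
    smul_eq_mul, mul_one, Finset.card_insert_of_notMem hz, h2]

/-- Two touched lower near elements, nothing above: the shape of a configuration of energy `≤ 4`.
`energy_bound`: `2 + |LF| ≤ 4` and `|LF| ≥ 1` (`card_TL_le`). `|LF| = 1`, say `LF = {z}`:
`lev z = i + 2` (otherwise an upper cover of `z` is in `LF` by `pos_up`, `uc_nonempty`), `TL = uc z`,
`cl z ≤ e` pointwise and `∑ cl z = 3`, so `e = cl z` or `e = cl z + sg y`. `|LF| = 2`: the labels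
on `TL ∪ LF` are at least one and the energy is at most four. -/
theorem two_touched (H : Gr P r) {i : ℕ} (hi : i ≤ r) {e : P → ℕ} (hA : AdmL i e)
    (hB : AdmU i e) (hT : (TL i e).card = 2) (hn : ∑ x, e x ≤ 4) :
    (∃ z, lev z = i + 2 ∧ (uc z).card = 2 ∧ TL i e = uc z ∧
      (e = cl z ∨ ∃ y, e = cl z + sg y)) ∨
    ((LF i e).card = 2 ∧ ∀ x, e x = if x ∈ TL i e ∪ LF i e then 1 else 0) := by
  classical
  have hE := energy_bound H hi hA hB
  have hL := card_TL_le H (i := i) e
  have hmTL : ∀ x, x ∈ TL i e ↔ (lev x = i + 1 ∧ ∃ z, z ⋖ x ∧ 0 < e z) := by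
    intro x; unfold TL; simp
  have hmLF : ∀ x, x ∈ LF i e ↔ (i + 2 ≤ lev x ∧ 0 < e x) := by
    intro x; unfold LF; simp
  have hcov : ∀ {a b : P}, a ⋖ b → lev a = lev b + 1 := fun h => (H.covBy_iff.1 h).2
  have hposTL : ∀ x ∈ TL i e, 0 < e x := by
    intro x hx
    obtain ⟨h1, z, hz, hz2⟩ := (hmTL x).1 hx
    have := hcov hz
    exact pos_up H hA (z := z) (by omega) hz2 hz
  rcases Nat.lt_or_ge (LF i e).card 2 with h1 | h1
  · -- one far element
    left
    have hc : (LF i e).card = 1 := by omega
    obtain ⟨z, hz⟩ := Finset.card_eq_one.1 hc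
    have hzm : z ∈ LF i e := by rw [hz]; exact mem_singleton_self z
    obtain ⟨hzl, hzp⟩ := (hmLF z).1 hzm
    obtain ⟨x0, hx0⟩ : (TL i e).Nonempty := by
      rw [← Finset.card_pos]; omega
    have hsub : ∀ x ∈ TL i e, z ⋖ x := by
      intro x hx
      obtain ⟨h2, z', hz', hz2⟩ := (hmTL x).1 hx
      have h3 := hcov hz'
      have h4 : z' ∈ LF i e := (hmLF z').2 ⟨by omega, hz2⟩
      rw [hz, mem_singleton] at h4
      rw [← h4]; exact hz'
    have hlz : lev z = i + 2 := by
      have h2 := hcov (hsub x0 hx0)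
      have h3 := ((hmTL x0).1 hx0).1
      omega
    have hTLu : TL i e = uc z := by
      ext x
      constructor
      · intro hx; exact mem_uc.2 (hsub x hx)
      · intro hx
        have h2 := hcov (mem_uc.1 hx)
        exact (hmTL x).2 ⟨by omega, z, mem_uc.1 hx, hzp⟩
    have hcu : (uc z).card = 2 := by rw [← hTLu]; exact hT
    refine ⟨z, hlz, hcu, hTLu, ?_⟩
    have hle : ∀ x, cl z x ≤ e x := by
      intro x
      unfold cl
      split_ifs with hx
      · rcases hx with hx | hx
        · rw [hx]; exact hzp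
        · rw [← hTLu] at hx; exact hposTL x hx
      · exact Nat.zero_le _
    have hs := LowD_sum_cl (i := i) H hcu
    set f : P → ℕ := fun x => e x - cl z x with hf
    have hef : ∀ x, e x = cl z x + f x := fun x => by
      have := hle x
      simp only [hf]; omega
    have hsum : ∑ x, e x = 3 + ∑ x, f x := by
      rw [Finset.sum_congr rfl (fun x _ => hef x), Finset.sum_add_distrib, hs]
    rcases Nat.eq_zero_or_pos (∑ x, f x) with h0 | h0
    · left
      funext x
      have h2 := (Finset.sum_eq_zero_iff.1 h0) x (mem_univ x)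
      rw [hef x, h2, add_zero]
    · right
      have h3 : ∑ x, f x = 1 := by omega
      obtain ⟨y, -, hy⟩ := Finset.exists_ne_zero_of_sum_ne_zero (s := univ) (f := f) (by omega)
      refine ⟨y, ?_⟩
      have h4 := LowD_ind (e := f) (S := {y}) (fun x hx => by
        rw [mem_singleton] at hx; rw [hx]; exact Nat.pos_of_ne_zero hy) (by
          rw [h3, Finset.card_singleton])
      funext x
      rw [Pi.add_apply, hef x, h4 x]
      congr 1
      unfold sg
      by_cases hxy : x = y
      · subst hxy; simp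
      · simp [hxy]
  · right
    have hc : (LF i e).card = 2 := by omega
    refine ⟨hc, ?_⟩
    apply LowD_ind
    · intro x hx
      rcases Finset.mem_union.1 hx with hx | hx
      · exact hposTL x hx
      · exact ((hmLF x).1 hx).2
    · have hd : Disjoint (TL i e) (LF i e) := by
        rw [Finset.disjoint_left]
        intro x hx hx2
        have h2 := ((hmTL x).1 hx).1
        have h3 := ((hmLF x).1 hx2).1
        omega
      rw [Finset.card_union_of_disjoint hd, hT, hc]
      exact hn

end Pool.Agent.GaussPoset.Win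

end

/-! From `Pool.Agent.W_448win_h16.ExpE` -/

section

/-! Both sides at once. -/

namespace Pool.Agent.GaussPoset.Win

set_option linter.unusedSectionVars false

open Finset

universe u

variable {P : Type u} [Fintype P] [PartialOrder P] [DecidableEq P] {r : ℕ}

/-- both sides at once: `z` with one upper cover `w`, `x` with one lower cover `u`. The lower data are those of
`cl z`, the upper data those of `cu x`. -/
theorem Fe_cl_cu (H : Gr P r) {i : ℕ} (hi : i ≤ r) {z x : P} (hz : lev z = i + 2)
    (hx : lev x + 2 = i) (S : Finset P) :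
    Fe i (cl z + cu x) S =
      xi ^ (dc x).card * dd ^ ((uc z).card + (dc x).card) * chi (sts i z) (stD i x) S := by
  classical
  obtain ⟨e, he⟩ : ∃ e : P → ℕ, e = cl z + cu x := ⟨_, rfl⟩
  rw [← he]
  -- the labels
  have hez : e z = 1 := by
    rw [he, Pi.add_apply]
    unfold cl cu
    have h1 : ¬ (z = x ∨ z ∈ dc x) := by
      rintro (h | h)
      · rw [h] at hz; omega
      · have := lev_dc H h; omega
    rw [if_pos (Or.inl rfl), if_neg h1]
  have heu : ∀ y ∈ uc z, e y = 1 := by
    intro y hy
    have h2 := lev_uc H hy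
    rw [he, Pi.add_apply]
    unfold cl cu
    have h1 : ¬ (y = x ∨ y ∈ dc x) := by
      rintro (h | h)
      · rw [h] at h2; omega
      · have := lev_dc H h; omega
    rw [if_pos (Or.inr hy), if_neg h1]
  have hex : e x = 1 := by
    rw [he, Pi.add_apply]
    unfold cl cu
    have h1 : ¬ (x = z ∨ x ∈ uc z) := by
      rintro (h | h)
      · rw [h] at hx; omega
      · have := lev_uc H h; omega
    rw [if_neg h1, if_pos (Or.inl rfl)]
  have hed : ∀ y ∈ dc x, e y = 1 := by
    intro y hy
    have h2 := lev_dc H hy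
    rw [he, Pi.add_apply]
    unfold cl cu
    have h1 : ¬ (y = z ∨ y ∈ uc z) := by
      rintro (h | h)
      · rw [h] at h2; omega
      · have := lev_uc H h; omega
    rw [if_neg h1, if_pos (Or.inr hy)]
  have hle : ∀ y, e y ≤ 1 := by
    intro y
    by_cases h1 : y = z ∨ y ∈ uc z
    · rcases h1 with h1 | h1
      · rw [h1, hez]
      · rw [heu y h1]
    · rw [he, Pi.add_apply]
      unfold cl cu
      rw [if_neg h1]
      split_ifs <;> norm_num
  have hcl : ∀ y, 0 < e y → i < lev y → y = z ∨ y ∈ uc z := by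
    intro y h1 h2
    by_contra hcon
    rw [he, Pi.add_apply] at h1
    unfold cl cu at h1
    rw [if_neg hcon, zero_add] at h1
    split_ifs at h1 with h3
    · rcases h3 with h3 | h3
      · rw [h3] at h2; omega
      · have := lev_dc H h3; omega
    · omega
  have hcu : ∀ y, 0 < e y → lev y < i → y = x ∨ y ∈ dc x := by
    intro y h1 h2
    by_contra hcon
    rw [he, Pi.add_apply] at h1
    unfold cl cu at h1
    rw [if_neg hcon, add_zero] at h1
    split_ifs at h1 with h3
    · rcases h3 with h3 | h3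
      · rw [h3] at h2; omega
      · have := lev_uc H h3; omega
    · omega
  have hsite : ∀ y, lev y = i → e y = 0 := by
    intro y hy
    rw [he, Pi.add_apply]
    unfold cl cu
    have h1 : ¬ (y = z ∨ y ∈ uc z) := by
      rintro (h | h)
      · rw [h] at hy; omega
      · have := lev_uc H h; omega
    have h2 : ¬ (y = x ∨ y ∈ dc x) := by
      rintro (h | h)
      · rw [h] at hy; omega
      · have := lev_dc H h; omega
    rw [if_neg h1, if_neg h2]
  -- lower part
  have hFD : ∀ y : P, i < lev y → ¬ FD e y := by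
    rintro y hy ⟨z', h1, h2⟩
    have h3 := (H.covBy_iff.1 h1).2
    have h4 := hle z'
    rcases hcl z' (by omega) (by omega) with h5 | h5
    · rw [h5] at h1
      have h6 := heu y (mem_uc.2 h1)
      omega
    · have h6 := lev_uc H h5
      omega
  have hFU : ∀ y : P, lev y < i → ¬ FU e y := by
    rintro y hy ⟨t, h1, h2⟩
    have h3 := (H.covBy_iff.1 h1).2
    have h4 := hle t
    rcases hcu t (by omega) (by omega) with h5 | h5
    · rw [h5] at h1
      have h6 := hed y (mem_dc.2 h1)
      omega
    · have h6 := lev_dc H h5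
      omega
  have hAL : AL i e = sts i z := by
    ext v
    rw [mem_sts_iff H hz]
    unfold AL
    rw [Finset.mem_filter, mem_lv]
    constructor
    · rintro ⟨hv, z', h1, h2⟩
      have h3 := (H.covBy_iff.1 h1).2
      rcases hcl z' (by omega) (by omega) with h5 | h5
      · rw [h5] at h3; omega
      · exact ⟨z', h5, mem_uc.2 h1⟩
    · rintro ⟨w, hw, hv⟩
      have h2 := lev_uc H hw
      have h3 := lev_uc H hv
      refine ⟨by omega, w, mem_uc.1 hv, ?_⟩
      rw [hsite v (by omega), heu w hw]
      norm_num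
  have hAU : AU i e = stD i x := by
    ext v
    rw [mem_stD_iff H hx]
    unfold AU
    rw [Finset.mem_filter, mem_lv]
    constructor
    · rintro ⟨hv, t, h1, h2⟩
      have h3 := (H.covBy_iff.1 h1).2
      rcases hcu t (by omega) (by omega) with h5 | h5
      · rw [h5] at h3; omega
      · exact ⟨t, h5, mem_dc.2 h1⟩
    · rintro ⟨w, hw, hv⟩
      have h2 := lev_dc H hw
      have h3 := lev_dc H hv
      refine ⟨by omega, w, mem_dc.1 hv, ?_⟩
      rw [hsite v (by omega), hed w hw]
      norm_num
  have haL : aL i e = 0 := by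
    unfold aL
    rw [Finset.card_eq_zero, Finset.filter_eq_empty_iff]
    rintro y _ ⟨h1, h2⟩
    exact hFD y h1 h2
  have haU : aU i e = 0 := by
    unfold aU
    rw [Finset.card_eq_zero, Finset.filter_eq_empty_iff]
    rintro y _ ⟨h1, h2⟩
    exact hFU y h1 h2
  have hpL : pL i e = (uc z).card := by
    unfold pL
    congr 1
    ext y
    rw [Finset.mem_filter]
    constructor
    · rintro ⟨_, h1, _, h3⟩
      obtain ⟨t, ht⟩ := uc_nonempty H (x := y) (by omega)
      have h4 : 0 < e y := by
        by_contra hcon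
        exact h3 ⟨t, mem_uc.1 ht, by omega⟩
      rcases hcl y h4 h1 with h5 | h5
      · exfalso
        apply h3
        refine ⟨t, mem_uc.1 ht, ?_⟩
        rw [h5] at ht ⊢
        rw [hez, heu t ht]
      · exact h5
    · intro hy
      have h2 := lev_uc H hy
      refine ⟨mem_univ _, by omega, hFD y (by omega), ?_⟩
      rintro ⟨t, ht, h3⟩
      have h4 := (H.covBy_iff.1 ht).2
      rw [hsite t (by omega), heu y hy] at h3
      omega
  have hpU : pU i e = (dc x).card := by
    unfold pU
    congr 1
    ext y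
    rw [Finset.mem_filter]
    constructor
    · rintro ⟨_, h1, _, h3⟩
      obtain ⟨t, ht⟩ := dc_nonempty H (x := y) (by omega)
      have h4 : 0 < e y := by
        by_contra hcon
        exact h3 ⟨t, mem_dc.1 ht, by omega⟩
      rcases hcu y h4 h1 with h5 | h5
      · exfalso
        apply h3
        refine ⟨t, mem_dc.1 ht, ?_⟩
        rw [h5] at ht ⊢
        rw [hex, hed t ht]
      · exact h5
    · intro hy
      have h2 := lev_dc H hy
      refine ⟨mem_univ _, by omega, hFU y (by omega), ?_⟩
      rintro ⟨t, ht, h3⟩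
      have h4 := (H.covBy_iff.1 ht).2
      rw [hsite t (by omega), hed y hy] at h3
      omega
  have hadm : AdmL i e ∧ AdmU i e :=
    ⟨fun y hy h => hFD y hy h.1, fun y hy h => hFU y hy h.1⟩
  unfold Fe cw
  rw [if_pos hadm, hAL, hAU, haL, haU, hpL, hpU, pow_zero, one_mul, zero_add]

end Pool.Agent.GaussPoset.Win

end

/-! From `Pool.Agent.W_448win_h16.LowE` -/

section

/-! One touched element on each side. -/

namespace Pool.Agent.GaussPoset.Win

set_option linter.unusedSectionVars false

open Finset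

universe u

variable {P : Type u} [Fintype P] [PartialOrder P] [DecidableEq P] {r : ℕ}

lemma LowE_sum_cl (H : Gr P r) {z : P} (h : (uc z).card = 1) : ∑ y, cl z y = 2 := by
  classical
  have h1 : z ∉ uc z := by
    intro hz
    have := lev_uc H hz
    omega
  have h2 : ∑ y, cl z y = ((insert z (uc z) : Finset P)).card := by
    unfold cl
    rw [Finset.card_eq_sum_ones, ← Finset.sum_filter]
    apply Finset.sum_congr _ (fun _ _ => rfl)
    ext y
    simp
  rw [h2, Finset.card_insert_of_notMem h1, h]

lemma LowE_sum_cu (H : Gr P r) {x : P} (h : (dc x).card = 1) : ∑ y, cu x y = 2 := by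
  classical
  have h1 : x ∉ dc x := by
    intro hz
    have := lev_dc H hz
    omega
  have h2 : ∑ y, cu x y = ((insert x (dc x) : Finset P)).card := by
    unfold cu
    rw [Finset.card_eq_sum_ones, ← Finset.sum_filter]
    apply Finset.sum_congr _ (fun _ _ => rfl)
    ext y
    simp
  rw [h2, Finset.card_insert_of_notMem h1, h]

/-- One touched lower near element, one touched upper near element, energy four: then `e` is one
on `z`, its only upper cover `w`, `x` and its only lower cover `u`. (`energy_bound`, `pos_up`, `pos_dn`: the far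
elements are at level `i + 2`, `i - 2`.) -/
theorem one_one (H : Gr P r) {i : ℕ} (hi : i ≤ r) {e : P → ℕ} (hA : AdmL i e) (hB : AdmU i e)
    (hT : (TL i e).Nonempty) (hU : (TU i e).Nonempty) (hn : ∑ x, e x ≤ 4) :
    ∃ z x, lev z = i + 2 ∧ lev x + 2 = i ∧ (uc z).card = 1 ∧ (dc x).card = 1 ∧
      e = cl z + cu x := by
  have hE := energy_bound H hi hA hB
  have b1 := card_TL_le H (i := i) e
  have b2 := card_TU_le H (i := i) e
  have p1 := Finset.card_pos.2 hT
  have p2 := Finset.card_pos.2 hU
  have c1 : (TL i e).card = 1 := by omega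
  have c2 : (TU i e).card = 1 := by omega
  have c3 : (LF i e).card = 1 := by omega
  have c4 : (UF i e).card = 1 := by omega
  obtain ⟨w, hw⟩ := Finset.card_eq_one.1 c1
  obtain ⟨u, hu⟩ := Finset.card_eq_one.1 c2
  obtain ⟨z, hz⟩ := Finset.card_eq_one.1 c3
  obtain ⟨x, hx⟩ := Finset.card_eq_one.1 c4
  have hwT : w ∈ TL i e := by rw [hw]; exact mem_singleton_self w
  have huT : u ∈ TU i e := by rw [hu]; exact mem_singleton_self u
  have hzL : z ∈ LF i e := by rw [hz]; exact mem_singleton_self z
  have hxU : x ∈ UF i e := by rw [hx]; exact mem_singleton_self x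
  have ez := (LowB_LF.1 hzL).2
  have ex := (LowB_UF.1 hxU).2
  have hwz : z ⋖ w := by
    obtain ⟨h1, z', hz', he'⟩ := LowB_TL.1 hwT
    have h2 := (H.covBy_iff.1 hz').2
    have h3 : z' ∈ LF i e := LowB_LF.2 ⟨by omega, he'⟩
    rw [hz, mem_singleton] at h3
    rw [← h3]; exact hz'
  have hux : u ⋖ x := by
    obtain ⟨h1, x', hx', he'⟩ := LowB_TU.1 huT
    have h2 := (H.covBy_iff.1 hx').2
    have h3 : x' ∈ UF i e := LowB_UF.2 ⟨by omega, he'⟩
    rw [hx, mem_singleton] at h3
    rw [← h3]; exact hx'
  have lw := (LowB_TL.1 hwT).1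
  have lu := (LowB_TU.1 huT).1
  have lz := (H.covBy_iff.1 hwz).2
  have lx := (H.covBy_iff.1 hux).2
  have huc : uc z = {w} := by
    ext y
    rw [mem_uc, mem_singleton]
    constructor
    · intro hy
      have h2 := (H.covBy_iff.1 hy).2
      have h3 : y ∈ TL i e := LowB_TL.2 ⟨by omega, z, hy, ez⟩
      rw [hw, mem_singleton] at h3
      exact h3
    · rintro rfl
      exact hwz
  have hdc : dc x = {u} := by
    ext y
    rw [mem_dc, mem_singleton]
    constructor
    · intro hy
      have h2 := (H.covBy_iff.1 hy).2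
      have h3 : y ∈ TU i e := LowB_TU.2 ⟨by omega, x, hy, ex⟩
      rw [hu, mem_singleton] at h3
      exact h3
    · rintro rfl
      exact hux
  have k1 : (uc z).card = 1 := by rw [huc]; simp
  have k2 : (dc x).card = 1 := by rw [hdc]; simp
  refine ⟨z, x, by omega, by omega, k1, k2, ?_⟩
  have hle : ∀ y ∈ (univ : Finset P), (cl z + cu x) y ≤ e y := by
    intro y _
    rw [Pi.add_apply]
    unfold cl cu
    simp only [huc, hdc, mem_singleton]
    by_cases h1 : y = z ∨ y = w
    · have h2 : ¬ (y = x ∨ y = u) := by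
        rcases h1 with rfl | rfl <;> rintro (rfl | rfl) <;> omega
      rw [if_pos h1, if_neg h2, add_zero]
      rcases h1 with rfl | rfl
      · exact ez
      · exact LowB_TL_pos H hA hwT
    · rw [if_neg h1, zero_add]
      by_cases h2 : y = x ∨ y = u
      · rw [if_pos h2]
        rcases h2 with rfl | rfl
        · exact ex
        · exact LowB_TU_pos H hi hB huT
      · rw [if_neg h2]; exact Nat.zero_le _
  have hsum : ∑ y, (cl z + cu x) y = 4 := by
    simp only [Pi.add_apply]
    rw [Finset.sum_add_distrib, LowE_sum_cl H k1, LowE_sum_cu H k2]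
  have hge : ∑ y, (cl z + cu x) y = ∑ y, e y :=
    le_antisymm (Finset.sum_le_sum hle) (by omega)
  have := (Finset.sum_eq_sum_iff_of_le hle).1 hge
  funext y
  exact (this y (mem_univ y)).symm

end Pool.Agent.GaussPoset.Win

end
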