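import Mathlib
import Pool.Agent.W_448zz_h61.Ns
import Pool.Agent.W_448zz_h61.M009
import Pool.Agent.W_448zz_h61.M010
import Pool.Agent.W_448zz_h61.M014
import Pool.Agent.W_448zz_h61.M021
import Pool.Agent.W_448zz_h61.M023

/-! From `Pool.Agent.W_448win_h16.ExpB` -/

section

/-! One touched element. -/

namespace Pool.Agent.GaussPoset.Win

set_option linter.unusedSectionVars false

open Finset

universe u

variable {P : Type u} [Fintype P] [PartialOrder P] [DecidableEq P] {r : ℕ}

/-- a filtered set which is not the whole set is smaller -/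
lemma expb_card {s : Finset P} {p : P → Prop} [DecidablePred p] (h : ¬ ∀ v ∈ s, p v) :
    (s.filter p).card < s.card := by
  apply Finset.card_lt_card
  rw [Finset.filter_ssubset]
  push Not at h
  exact h

/-- One touched lower near element, no other positive near label, nothing above: `low_one` and
`upp_none`; `|AL| ≤ 2` and if `AL` is all of `uc w` then `pL ≥ 1`, so the configuration is cheap. If `w` is
single then `|AL| ≤ 1` and `|AL| = 1` implies `pL ≥ 1`. -/
theorem one_touched (H : Gr P r) {i : ℕ} (hi : i ≤ r) {e : P → ℕ} {w : P}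
    (hw : lev w = i + 1) (h1 : ∀ x ∈ near P i, x ≠ w → e x = 0)
    (h2 : ∀ x, lev x + 2 ≤ i → e x = 0) :
    Rk (lv P i) 1 (Fe i e) ∧ ((uc w).card = 1 → Rk (lv P i) 0 (Fe i e)) := by
  classical
  obtain ⟨hAL, hpL⟩ := low_one H hw (fun w' hw' hne => h1 w' (mem_near.2 (Or.inl hw')) hne)
  obtain ⟨hAdm, hAU, haU, hpU⟩ := upp_none H hi (e := e) (fun z hz => by
    rcases Nat.lt_or_ge (lev z + 1) i with h | h
    · exact h2 z h
    · refine h1 z (mem_near.2 (Or.inr (by omega))) ?_
      rintro rfl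
      omega)
  have hc := uc_card_le H w
  have hAUc : (AU i e).card = 0 := by rw [hAU]; rfl
  by_cases hall : ∀ v ∈ uc w, e v < e w
  · have hp := hpL hall
    have hle : (AL i e).card ≤ (uc w).card := by
      rw [hAL]; exact Finset.card_filter_le _ _
    constructor
    · apply Rk_of_cheap
      right; right; right
      omega
    · intro hs
      apply Rk_of_cheap
      right; right; right
      omega
  · have hlt : (AL i e).card < (uc w).card := by
      rw [hAL]; exact expb_card hall
    constructor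
    · apply Rk_of_cheap
      right; right; right
      omega
    · intro hs
      apply Rk_of_cheap
      right; right; right
      omega

/-- One touched lower near element `w` with its partner `u` (same sites `p, q`), nothing else. `low_one` and
`upp_one`: `AL = {v : e v < e w}`, `AU = {v : e v < e u}` (inside `{p, q}`). If they are disjoint
then `|AL| + |AU| ≤ 2`, and if it is `2`: either one of them is `{p, q}` (then `pL ≥ 1` resp.
`pU ≥ 1`) or `AL = {p}`, `AU = {q}`, i.e. `e p < e w ≤ e q < e u ≤ e p`, impossible. So the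
configuration is `Cheap 1`. -/
theorem one_touched_partner (H : Gr P r) {i : ℕ} (hi : i ≤ r) {e : P → ℕ} {w u : P}
    (hw : lev w = i + 1) (hu : lev u + 1 = i) (h2w : (uc w).card = 2) (heq : dc u = uc w)
    (h1 : ∀ x ∈ near P i, x ≠ w → x ≠ u → e x = 0) (h2 : ∀ x, lev x + 2 ≤ i → e x = 0) :
    Rk (lv P i) 1 (Fe i e) := by
  classical
  obtain ⟨hAL, hpL⟩ := low_one H hw (fun w' hw' hne => by
    refine h1 w' (mem_near.2 (Or.inl hw')) hne ?_
    rintro rfl
    omega)
  obtain ⟨hAU, hpU⟩ := upp_one H hi hu (e := e) (fun u' hu' hne => by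
    refine h1 u' (mem_near.2 (Or.inr hu')) ?_ hne
    rintro rfl
    omega)
  rw [heq] at hAU hpU
  apply Rk_of_cheap
  right; right
  by_cases hd : Disjoint (AL i e) (AU i e)
  swap
  · exact Or.inl hd
  right
  have hsub : AL i e ∪ AU i e ⊆ uc w := by
    rw [hAL, hAU]
    exact Finset.union_subset (Finset.filter_subset _ _) (Finset.filter_subset _ _)
  have hcu : (AL i e).card + (AU i e).card ≤ 2 := by
    rw [← Finset.card_union_of_disjoint hd, ← h2w]
    exact Finset.card_le_card hsub
  by_cases ha : ∀ v ∈ uc w, e v < e w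
  · have := hpL ha
    omega
  by_cases hb : ∀ v ∈ uc w, e v < e u
  · have := hpU hb
    omega
  by_contra hcon
  push Not at hcon
  push Not at ha hb
  obtain ⟨q, hq, hq2⟩ := ha
  obtain ⟨p, hp, hp2⟩ := hb
  have hunion : AL i e ∪ AU i e = uc w := by
    apply Finset.eq_of_subset_of_card_le hsub
    rw [Finset.card_union_of_disjoint hd, h2w]
    omega
  have hqAL : q ∉ AL i e := by
    rw [hAL, Finset.mem_filter]
    rintro ⟨_, h⟩
    omega
  have hpAU : p ∉ AU i e := by
    rw [hAU, Finset.mem_filter]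
    rintro ⟨_, h⟩
    omega
  have hq3 : q ∈ AL i e ∪ AU i e := by rw [hunion]; exact hq
  have hp3 : p ∈ AL i e ∪ AU i e := by rw [hunion]; exact hp
  have hqAU : q ∈ AU i e := (Finset.mem_union.1 hq3).resolve_left hqAL
  have hpAL : p ∈ AL i e := (Finset.mem_union.1 hp3).resolve_right hpAU
  rw [hAU, Finset.mem_filter] at hqAU
  rw [hAL, Finset.mem_filter] at hpAL
  omega

end Pool.Agent.GaussPoset.Win

end

/-! From `Pool.Agent.W_448win_h16.ClA` -/

section

/-! Cores with at most one touched element. -/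

namespace Pool.Agent.GaussPoset.Win

set_option linter.unusedSectionVars false

open Finset

universe u

variable {P : Type u} [Fintype P] [PartialOrder P] [DecidableEq P] {r : ℕ}

/-- If `e` is not admissible its function is zero. -/
lemma Rk_of_not_adm {i : ℕ} {e : P → ℕ} (h : ¬ (AdmL i e ∧ AdmU i e)) (k : ℕ) :
    Rk (lv P i) k (Fe i e) := by
  apply Rk_of_cheap
  unfold Cheap
  by_cases h1 : AdmL i e
  · exact Or.inr (Or.inl fun h2 => h ⟨h1, h2⟩)
  · exact Or.inl h1

/-- In a core (with `K = ∅`) a near element with positive label is touched, or double with a touched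
partner. -/
lemma core_near {i : ℕ} {psi : P → P} {e : P → ℕ} (hc : IsCore i ∅ psi e) {x : P}
    (hx : x ∈ near P i) (he : e x ≠ 0) :
    x ∈ Tch i e ∨ (x ∈ dbL P i ∪ dbU P i ∧ psi x ∈ Tch i e) := by
  by_contra hcon
  push Not at hcon
  refine he (hc x ?_)
  rw [mem_Rst]
  exact ⟨hx, by simp, hcon.1, fun h => hcon.2 h.1 h.2⟩

/-- touched elements are in `TL` or `TU` -/
lemma ClA_Tch {i : ℕ} {e : P → ℕ} {x : P} (h : x ∈ Tch i e) : x ∈ TL i e ∨ x ∈ TU i e := by
  rcases mem_Tch.1 h with h | h
  · exact Or.inl (LowB_TL.2 h)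
  · exact Or.inr (LowB_TU.2 h)

/-- a touched element is `w` -/
lemma ClA_Tch_eq {i : ℕ} {e : P → ℕ} {x w : P} (h1 : TL i e = {w}) (h2 : TU i e = ∅)
    (h : x ∈ Tch i e) : x = w := by
  rcases ClA_Tch h with h | h
  · rw [h1, Finset.mem_singleton] at h
    exact h
  · rw [h2] at h
    exact absurd h (Finset.notMem_empty _)

/-- A core without touched elements costs nothing: all near labels are zero (`core_near`, `Tch` is the union
of `TL` and `TU`), all far labels are zero (`far_zero_of_TL`, `far_zero_of_TU`), so `Fe = 1`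
(`Fe_sites`). -/
theorem core_none (H : Gr P r) {i : ℕ} (hi : 1 ≤ i) (hi2 : i + 1 ≤ r) {psi : P → P}
    {e : P → ℕ} (hc : IsCore i ∅ psi e) (h1 : TL i e = ∅) (h2 : TU i e = ∅) :
    Rk (lv P i) 0 (Fe i e) := by
  by_cases hA : AdmL i e ∧ AdmU i e
  swap
  · exact Rk_of_not_adm hA 0
  have hnt : ∀ x, x ∉ Tch i e := by
    intro x hx
    rcases ClA_Tch hx with h | h
    · rw [h1] at h
      exact absurd h (Finset.notMem_empty _)
    · rw [h2] at h
      exact absurd h (Finset.notMem_empty _)
  have hz : ∀ z, lev z ≠ i → e z = 0 := by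
    intro z hz
    by_cases hn : z ∈ near P i
    · by_contra hne
      rcases core_near hc hn hne with h | h
      · exact hnt _ h
      · exact hnt _ h.2
    · rw [mem_near] at hn
      push Not at hn
      rcases Nat.lt_or_gt_of_ne hz with h | h
      · exact far_zero_of_TU H (by omega) hA.2 h2 (by omega)
      · exact far_zero_of_TL H hA.1 h1 (by omega)
  refine Rk_congr (f := fun _ => 1) (fun S _ => ?_) (Rk_const _ _ _)
  rw [Fe_sites H (by omega) hz]

/-- A core with one touched element `w`, below the window, and nothing touched above: `one_touched` if `w`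
is single (then `core_near` says that `w` is the only near element with positive label:
a double `x` with `psi x = w` would make `w = psi x` double by `hM`), `one_touched_partner` if `w` is double
with `u = psi w` (a double `x` with `psi x = w` is `psi w` by the involution). Far upper labels
are zero by `far_zero_of_TU`; if the configuration is not admissible use `Rk_of_not_adm`. -/
theorem core_one (H : Gr P r) {i : ℕ} (hi : 1 ≤ i) (hi2 : i + 1 ≤ r) {psi : P → P}
    (hM : Mat P i ∅ psi) {e : P → ℕ} (hc : IsCore i ∅ psi e) {w : P} (h1 : TL i e = {w})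
    (h2 : TU i e = ∅) :
    Rk (lv P i) 1 (Fe i e) ∧ ((uc w).card = 1 → Rk (lv P i) 0 (Fe i e)) := by
  by_cases hA : AdmL i e ∧ AdmU i e
  swap
  · exact ⟨Rk_of_not_adm hA 1, fun _ => Rk_of_not_adm hA 0⟩
  have hwT : w ∈ TL i e := by
    rw [h1]
    exact Finset.mem_singleton_self w
  have hlw : lev w = i + 1 := (LowB_TL.1 hwT).1
  have hfar : ∀ x, lev x + 2 ≤ i → e x = 0 := fun x hx =>
    far_zero_of_TU H (by omega) hA.2 h2 hx
  by_cases hd : (uc w).card = 2
  · have hwd : w ∈ dbL P i := mem_dbL.2 ⟨hlw, hd⟩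
    obtain ⟨hu1, hu2⟩ := hM.low w hwd (Finset.notMem_empty _)
    have hnear : ∀ x ∈ near P i, x ≠ w → x ≠ psi w → e x = 0 := by
      intro x hx hxw hxu
      by_contra hne
      rcases core_near hc hx hne with h | ⟨h, h'⟩
      · exact hxw (ClA_Tch_eq h1 h2 h)
      · have h3 := ClA_Tch_eq h1 h2 h'
        have h4 := (hM.invol x h (Finset.notMem_empty _)).1
        rw [h3] at h4
        exact hxu h4.symm
    refine ⟨one_touched_partner H (by omega) hlw (mem_dbU.1 hu1).1 hd hu2 hnear hfar, ?_⟩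
    intro h
    omega
  · have hnear : ∀ x ∈ near P i, x ≠ w → e x = 0 := by
      intro x hx hxw
      by_contra hne
      rcases core_near hc hx hne with h | ⟨h, h'⟩
      · exact hxw (ClA_Tch_eq h1 h2 h)
      · have h3 := ClA_Tch_eq h1 h2 h'
        rcases Finset.mem_union.1 h with h4 | h4
        · have h5 := (hM.low x h4 (Finset.notMem_empty _)).1
          rw [h3, mem_dbU] at h5
          omega
        · have h5 := (hM.upp x h4 (Finset.notMem_empty _)).1
          rw [h3, mem_dbL] at h5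
          exact hd h5.2
    exact one_touched H (by omega) hlw hnear hfar

end Pool.Agent.GaussPoset.Win

end

/-! From `Pool.Agent.W_448win_h16.ClB` -/

section

/-! Cores of energy at most three. -/

namespace Pool.Agent.GaussPoset.Win

set_option linter.unusedSectionVars false

open Finset

universe u

variable {P : Type u} [Fintype P] [PartialOrder P] [DecidableEq P] {r : ℕ}

lemma clb_mem_TL {i : ℕ} {e : P → ℕ} {x : P} :
    x ∈ TL i e ↔ lev x = i + 1 ∧ ∃ z, z ⋖ x ∧ 0 < e z := by
  classical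
  unfold TL; simp

/-- the energy of `cl z` -/
lemma clb_sum_cl (z : P) : ∑ x, cl z x = (uc z).card + 1 := by
  classical
  have h1 : z ∉ uc z := fun h => (mem_uc.1 h).1.ne rfl
  have h2 : ∀ x, cl z x = if x ∈ insert z (uc z) then 1 else 0 := by
    intro x
    unfold cl
    simp only [Finset.mem_insert]
  rw [Finset.sum_congr rfl (fun x _ => h2 x), Finset.sum_boole, Finset.filter_mem_eq_inter,
    Finset.univ_inter, Finset.card_insert_of_notMem h1]
  simp

/-- the number of sites above a far element of level `i + 2` -/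
lemma clb_sts_le (H : Gr P r) {i : ℕ} {z : P} (hz : lev z = i + 2) : (sts i z).card ≤ 4 := by
  classical
  have h1 : sts i z ⊆ (uc z).biUnion uc := by
    intro v hv
    rw [mem_sts_iff H hz] at hv
    obtain ⟨w, hw, hv⟩ := hv
    exact Finset.mem_biUnion.2 ⟨w, hw, hv⟩
  have h2 : ((uc z).biUnion uc).card ≤ ∑ w ∈ uc z, (uc w).card := Finset.card_biUnion_le
  have h3 : ∑ w ∈ uc z, (uc w).card ≤ ∑ _w ∈ uc z, 2 :=
    Finset.sum_le_sum (fun w _ => uc_card_le H w)
  have h4 := uc_card_le H z
  rw [Finset.sum_const, smul_eq_mul] at h3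
  have h5 := Finset.card_le_card h1
  omega

lemma clb_sts_sub (i : ℕ) (z : P) : sts i z ⊆ lv P i := by
  intro v hv
  rw [mem_lv]
  exact (mem_sts.1 hv).1

/-- the function of `cl z` -/
lemma clb_Rk (H : Gr P r) {i : ℕ} (hi : i ≤ r) {z : P} (hz : lev z = i + 2) {k : ℕ}
    (h : (sts i z).card ≤ (uc z).card + k) : Rk (lv P i) k (Fe i (cl z)) := by
  have h1 : Rk (lv P i) k (fun S => dd ^ (uc z).card * chi (sts i z) ∅ S) :=
    Rk_chi (clb_sts_sub i z) (Finset.empty_subset _) (p := (uc z).card)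
      (by rw [Finset.card_empty]; omega) (dvd_refl _)
  exact Rk_congr (fun S _ => (Fe_cl H hi hz S).symm) h1

/-- two touched elements and energy at most three -/
lemma clb_two (H : Gr P r) {i : ℕ} (hi : i ≤ r) {e : P → ℕ} (hA : AdmL i e)
    (hB : AdmU i e) (hT : (TL i e).card = 2) (hn : ∑ x, e x ≤ 3) :
    ∃ z, lev z = i + 2 ∧ (uc z).card = 2 ∧ e = cl z := by
  rcases two_touched H hi hA hB hT (by omega) with ⟨z, hz, hz2, _, h | ⟨y, h⟩⟩ | ⟨hL, _⟩
  · exact ⟨z, hz, hz2, h⟩
  · exfalso
    have h1 : ∑ x, e x = ∑ x, cl z x + ∑ x, sg y x := by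
      rw [h, ← Finset.sum_add_distrib]
      rfl
    have h2 : ∑ x, sg y x = 1 := by
      unfold sg
      rw [Finset.sum_pi_single']
      simp
    rw [clb_sum_cl, h2, hz2] at h1
    omega
  · exfalso
    have := energy_bound H hi hA hB
    omega

/-- Cores of energy at most three with nothing touched above. `|TL| = 0`: `core_none`. `|TL| = 1`:
`core_one`. `|TL| = 2`: `two_touched`; the energy is at most three, so the first alternative with
`e = cl z` (`∑ cl z = 3` and `∑ (cl z + sg y) = 4`; in the second alternative the energy is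
four). If `up i z ≤ 3`: `Fe_cl` and `Rk_chi` (`|sts| ≤ 3 ≤ 2 + 1`). `up i z ≤ 4` always. `|TL| ≥ 3`:
`|LF| ≥ 2` (`card_TL_le`), energy at least five by `energy_bound`. -/
theorem cls3_low (H : Gr P r) {i : ℕ} (hi : 1 ≤ i) (hi2 : i + 1 ≤ r) {psi : P → P}
    (hM : Mat P i ∅ psi) {e : P → ℕ} (hc : IsCore i ∅ psi e) (hn : ∑ x, e x ≤ 3)
    (h2 : TU i e = ∅) :
    Rk (lv P i) 1 (Fe i e) ∨ (∃ z, lev z = i + 2 ∧ up i z = 4 ∧ e = cl z) := by
  have hir : i ≤ r := by omega
  by_cases hadm : AdmL i e ∧ AdmU i e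
  swap
  · exact Or.inl (Rk_of_not_adm hadm 1)
  obtain ⟨hA, hB⟩ := hadm
  have hE := energy_bound H hir hA hB
  have hT := card_TL_le H (i := i) e
  rcases Nat.lt_or_ge 2 (TL i e).card with h | h
  · omega
  interval_cases hcard : (TL i e).card
  · exact Or.inl (Rk_mono (Nat.zero_le _)
      (core_none H hi hi2 hc (Finset.card_eq_zero.1 hcard) h2))
  · obtain ⟨w, hw⟩ := Finset.card_eq_one.1 hcard
    exact Or.inl (core_one H hi hi2 hM hc hw h2).1
  · obtain ⟨z, hz, hz2, he⟩ := clb_two H hir hA hB hcard hn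
    by_cases h4 : up i z = 4
    · exact Or.inr ⟨z, hz, h4, he⟩
    · left
      rw [he]
      apply clb_Rk H hir hz
      have h5 := clb_sts_le H hz
      rw [card_sts] at h5 ⊢
      omega

end Pool.Agent.GaussPoset.Win

end

/-! From `Pool.Agent.W_448win_h16.ClD` -/

section

/-! Mirror images. -/

namespace Pool.Agent.GaussPoset.Win

set_option linter.unusedSectionVars false

open Finset OrderDual

universe u

variable {P : Type u} [Fintype P] [PartialOrder P] [DecidableEq P] {r : ℕ}

lemma ClD_inj {e f : P → ℕ} (h : eo e = eo f) : e = f := by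
  funext x
  exact congrFun h (toDual x)

lemma ClD_sum (e : P → ℕ) : ∑ x, eo e x = ∑ x, e x :=
  Equiv.sum_comp (OrderDual.ofDual (α := P)) e

lemma ClD_lev (H : Gr P r) {i : ℕ} (hi : i ≤ r) {x : P}
    (h : lev (toDual x) = r - i + 2) : lev x + 2 = i := by
  rw [lev_od H] at h
  have h1 := H.hr x
  omega

lemma ClD_mat (H : Gr P r) {i : ℕ} (hi : i ≤ r) {psi : P → P} (hM : Mat P i ∅ psi) :
    Mat Pᵒᵈ (r - i) ∅ (fun y => toDual (psi (ofDual y))) := by
  have h := Mat_od H hi hM
  rwa [Finset.map_empty] at h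

lemma ClD_core (H : Gr P r) {i : ℕ} (hi : i ≤ r) {psi : P → P} {e : P → ℕ}
    (hc : IsCore i ∅ psi e) :
    IsCore (r - i) ∅ (fun y : Pᵒᵈ => toDual (psi (ofDual y))) (eo e) := by
  have h := (IsCore_od H hi (K := ∅) (psi := psi) e).2 hc
  rwa [Finset.map_empty] at h

lemma ClD_TU (H : Gr P r) {i : ℕ} (hi : i ≤ r) {e : P → ℕ} (h2 : TL i e = ∅) :
    TU (r - i) (eo e) = ∅ := by
  rw [(TL_od H hi e).2, h2, Finset.map_empty]

lemma ClD_up (H : Gr P r) {i : ℕ} (hi : i ≤ r) (h3 : ∀ x : P, lev x + 2 = i → dn i x ≤ 3) :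
    ∀ z : Pᵒᵈ, lev z = r - i + 2 → up (r - i) z ≤ 3 := by
  intro z hz
  have h1 : lev (ofDual z) + 2 = i := ClD_lev H hi (x := ofDual z) hz
  have h4 := up_od H hi (ofDual z)
  rw [toDual_ofDual] at h4
  rw [h4]
  exact h3 _ h1

/-- mirror image of `cls3_low` (`DualW`) -/
theorem cls3_upp (H : Gr P r) {i : ℕ} (hi : 1 ≤ i) (hi2 : i + 1 ≤ r) {psi : P → P}
    (hM : Mat P i ∅ psi) {e : P → ℕ} (hc : IsCore i ∅ psi e) (hn : ∑ x, e x ≤ 3)
    (h2 : TL i e = ∅) :
    Rk (lv P i) 1 (Fe i e) ∨ (∃ x, lev x + 2 = i ∧ dn i x = 4 ∧ e = cu x) := by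
  have hir : i ≤ r := by omega
  have hn' : ∑ x, eo e x ≤ 3 := by rw [ClD_sum]; exact hn
  rcases cls3_low H.dual (i := r - i) (by omega) (by omega) (ClD_mat H hir hM)
    (ClD_core H hir hc) hn' (ClD_TU H hir h2) with h | ⟨z, hz, hz2, hz3⟩
  · exact Or.inl ((Rk_od H hir 1 e).1 h)
  · refine Or.inr ⟨ofDual z, ClD_lev H hir (x := ofDual z) hz, ?_, ?_⟩
    · rw [← up_od H hir]
      exact hz2
    · apply ClD_inj
      rw [cu_od]
      exact hz3

end Pool.Agent.GaussPoset.Win

end

/-! From `Pool.Agent.W_448win_h16.ClE` -/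

section

/-! Both sides touched. -/

namespace Pool.Agent.GaussPoset.Win

set_option linter.unusedSectionVars false

open Finset

universe u

variable {P : Type u} [Fintype P] [PartialOrder P] [DecidableEq P] {r : ℕ}

lemma ClE_sts (H : Gr P r) {i : ℕ} {z w : P} (hz : lev z = i + 2) (hw : uc z = {w}) :
    sts i z = uc w := by
  ext v
  rw [mem_sts_iff H hz, hw]
  constructor
  · rintro ⟨w', h1, h2⟩
    rw [mem_singleton] at h1
    rw [← h1]; exact h2
  · intro h
    exact ⟨w, mem_singleton_self w, h⟩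

lemma ClE_stD (H : Gr P r) {i : ℕ} {x u : P} (hx : lev x + 2 = i) (hu : dc x = {u}) :
    stD i x = dc u := by
  ext v
  rw [mem_stD_iff H hx, hu]
  constructor
  · rintro ⟨w', h1, h2⟩
    rw [mem_singleton] at h1
    rw [← h1]; exact h2
  · intro h
    exact ⟨u, mem_singleton_self u, h⟩

lemma ClE_chi_zero {B C : Finset P} (h : ¬ Disjoint B C) (S : Finset P) : chi B C S = 0 := by
  unfold chi
  rw [if_neg]
  rintro ⟨h1, h2⟩
  apply h
  rw [Finset.disjoint_left] at h2 ⊢
  intro v hv hv2
  exact h2 hv2 (h1 hv)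

/-- Both sides touched, energy at most four: `one_one` gives `e = cl z + cu x`; `Fe_cl_cu`:
`dd ^ 2` times `chi (sts i z) (stD i x)` (`(uc z).card = (dc x).card = 1`), which is cheap unless
both have two elements and are disjoint. -/
theorem cls4_both (H : Gr P r) {i : ℕ} (hi : 1 ≤ i) (hi2 : i + 1 ≤ r) {e : P → ℕ}
    (hn : ∑ x, e x ≤ 4) (h1 : TL i e ≠ ∅) (h2 : TU i e ≠ ∅) :
    Rk (lv P i) 1 (Fe i e) ∨ (∃ z ∈ PD P i, ∃ x ∈ PU P i, e = cl z + cu x ∧
      Disjoint (sts i z) (stD i x)) := by
  classical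
  by_cases hadm : AdmL i e ∧ AdmU i e
  swap
  · exact Or.inl (Rk_of_not_adm hadm 1)
  obtain ⟨z, x, hz, hx, huz, hdx, he⟩ := one_one H (by omega) hadm.1 hadm.2
    (Finset.nonempty_iff_ne_empty.2 h1) (Finset.nonempty_iff_ne_empty.2 h2) hn
  have hF : ∀ S : Finset P, Fe i e S = (xi ^ 1 * dd ^ 2) * chi (sts i z) (stD i x) S := by
    intro S
    rw [he, Fe_cl_cu H (by omega) hz hx S, huz, hdx]
  by_cases hd : Disjoint (sts i z) (stD i x)
  swap
  · left
    refine Rk_congr (f := fun _ => 0) ?_ (Rk_zero _ _)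
    intro S _
    rw [hF S, ClE_chi_zero hd, mul_zero]
  obtain ⟨w, hw⟩ := Finset.card_eq_one.1 huz
  obtain ⟨u, hu⟩ := Finset.card_eq_one.1 hdx
  have hs := ClE_sts H hz hw
  have ht := ClE_stD H hx hu
  have hwz : z ⋖ w := mem_uc.1 (by rw [hw]; exact mem_singleton_self w)
  have hux : u ⋖ x := mem_dc.1 (by rw [hu]; exact mem_singleton_self u)
  have c1 : (sts i z).card ≤ 2 := by
    rw [hs]; exact uc_card_le H w
  have c2 : (stD i x).card ≤ 2 := by
    rw [ht]; exact dc_card_le H u
  by_cases hc : (sts i z).card = 2 ∧ (stD i x).card = 2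
  · right
    refine ⟨z, ?_, x, ?_, he, hd⟩
    · unfold PD
      rw [Finset.mem_filter]
      exact ⟨mem_univ _, hz, huz, w, hwz, by rw [← hs]; exact hc.1⟩
    · unfold PU
      rw [Finset.mem_filter]
      exact ⟨mem_univ _, hx, hdx, u, hux, by rw [← ht]; exact hc.2⟩
  · left
    refine Rk_congr (f := fun S => (xi ^ 1 * dd ^ 2) * chi (sts i z) (stD i x) S) ?_ ?_
    · intro S _
      exact (hF S).symm
    · refine Rk_chi (p := 2) ?_ ?_ ?_ (Dvd.intro_left _ rfl)
      · intro v hv
        exact mem_lv.2 (mem_sts.1 hv).1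
      · intro v hv
        exact mem_lv.2 (mem_stD.1 hv).1
      · omega

end Pool.Agent.GaussPoset.Win

end
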