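import Mathlib
import Pool.Agent.W_448zz_h61.Ns
import Pool.Agent.W_448zz_h61.M022
import Pool.Agent.W_448zz_h61.M024

/-! From `Pool.Agent.W_448win_h16.PlA` -/

section

/-! Sums over sets of cores. -/

namespace Pool.Agent.GaussPoset.Win

set_option linter.unusedSectionVars false

open Finset

universe u

variable {P : Type u} [Fintype P] [PartialOrder P] [DecidableEq P] {r : ℕ}

/-- As `core_sum`, for a finite set `S` of cores of energy `n` which contains every core of energy `n`
not in `Rk _ k`. The sum in `core_sum` is the sum over `S` plus the sum over the cores not in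
`S` (`Finset.sum_sdiff` or `sum_filter_add_sum_filter_not`; `S` is a subset of the filter), the latter is
divisible: `II_Fe`, `Rk_II`. -/
theorem core_sum_set (H : Gr P r) {i : ℕ} (hi : 1 ≤ i) (hi2 : i + 1 ≤ r) {K : Finset P}
    {psi : P → P} (hM : Mat P i K psi) (n k : ℕ)
    (hk : ∀ e : P → ℕ, IsCore i K psi e → ∑ x, e x < n → Rk (lv P i) k (Fe i e))
    (S : Finset (P → ℕ)) (hS : ∀ e ∈ S, IsCore i K psi e ∧ ∑ x, e x = n)
    (hall : ∀ e : P → ℕ, IsCore i K psi e → ∑ x, e x = n → e ∉ S → Rk (lv P i) k (Fe i e)) :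
    dd ^ ((lv P i).card - k) ∣ ∑ e ∈ S, trm i e := by
  classical
  have h := core_sum H hi hi2 hM n k hk
  have hsub : S ⊆ ((univ : Finset P).piAntidiag n).filter (IsCore i K psi) := by
    intro e he
    rw [Finset.mem_filter, Finset.mem_piAntidiag]
    exact ⟨⟨(hS e he).2, fun x _ => Finset.mem_univ x⟩, (hS e he).1⟩
  rw [← Finset.sum_sdiff hsub] at h
  refine (dvd_add_right (Finset.dvd_sum fun e he => ?_)).mp h
  rw [Finset.mem_sdiff, Finset.mem_filter, Finset.mem_piAntidiag] at he
  rw [← II_Fe]
  exact Rk_II (hall e he.1.2 he.1.1.1 he.2)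

/-- a configuration all of whose positive near labels are touched is a core -/
theorem isCore_of {i : ℕ} (K : Finset P) (psi : P → P) {e : P → ℕ}
    (h : ∀ x ∈ near P i, e x ≠ 0 → x ∈ Tch i e) : IsCore i K psi e := by
  intro x hx
  obtain ⟨h1, -, h3, -⟩ := mem_Rst.mp hx
  by_contra hne
  exact h3 (h x h1 hne)

lemma PlA_not_mem_uc (z : P) : z ∉ uc z := fun h => (mem_uc.mp h).1.ne rfl

lemma PlA_not_mem_dc (z : P) : z ∉ dc z := fun h => (mem_dc.mp h).1.ne rfl

lemma PlA_cl_self (z : P) : 0 < cl z z := by
  unfold cl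
  rw [if_pos (Or.inl rfl)]
  exact one_pos

lemma PlA_cl_ne {z y : P} (h : cl z y ≠ 0) : y = z ∨ y ∈ uc z := by
  unfold cl at h
  by_contra hn
  rw [if_neg hn] at h
  exact h rfl

lemma PlA_cu_self (z : P) : 0 < cu z z := by
  unfold cu
  rw [if_pos (Or.inl rfl)]
  exact one_pos

lemma PlA_cu_ne {z y : P} (h : cu z y ≠ 0) : y = z ∨ y ∈ dc z := by
  unfold cu at h
  by_contra hn
  rw [if_neg hn] at h
  exact h rfl

/-- `z` is not in `uc z` -/
theorem sum_cl_val (z : P) : ∑ x, cl z x = 1 + (uc z).card := by
  have h1 : ∀ x, cl z x = (if x = z then 1 else 0) + (if x ∈ uc z then 1 else 0) := by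
    intro x
    unfold cl
    by_cases h : x = z
    · subst h
      rw [if_pos (Or.inl rfl), if_pos rfl, if_neg (PlA_not_mem_uc x)]
    · by_cases h2 : x ∈ uc z
      · rw [if_pos (Or.inr h2), if_neg h, if_pos h2]
      · rw [if_neg (by tauto), if_neg h, if_neg h2]
  rw [Finset.sum_congr rfl (fun x _ => h1 x), Finset.sum_add_distrib, Finset.sum_ite_eq' univ z,
    if_pos (Finset.mem_univ z), Finset.sum_ite_mem, Finset.univ_inter, Finset.sum_const,
    smul_eq_mul, mul_one]

/-- `x` is not in `dc x` -/
theorem sum_cu_val (x : P) : ∑ y, cu x y = 1 + (dc x).card := by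
  have h1 : ∀ y, cu x y = (if y = x then 1 else 0) + (if y ∈ dc x then 1 else 0) := by
    intro y
    unfold cu
    by_cases h : y = x
    · subst h
      rw [if_pos (Or.inl rfl), if_pos rfl, if_neg (PlA_not_mem_dc y)]
    · by_cases h2 : y ∈ dc x
      · rw [if_pos (Or.inr h2), if_neg h, if_pos h2]
      · rw [if_neg (by tauto), if_neg h, if_neg h2]
  rw [Finset.sum_congr rfl (fun y _ => h1 y), Finset.sum_add_distrib, Finset.sum_ite_eq' univ x,
    if_pos (Finset.mem_univ x), Finset.sum_ite_mem, Finset.univ_inter, Finset.sum_const,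
    smul_eq_mul, mul_one]

lemma sum_sg_val (a : P) : ∑ y, sg a y = 1 := by
  unfold sg; simp

/-- `cl z + f` is a core if `f` is zero on near elements not in `uc z`: use `isCore_of`, a near element
of `uc z` is touched by `z` -/
theorem isCore_cl_add (H : Gr P r) {i : ℕ} (K : Finset P) (psi : P → P) {z : P} (hz : lev z = i + 2)
    {f : P → ℕ} (hf : ∀ x ∈ near P i, x ∉ uc z → f x = 0) : IsCore i K psi (cl z + f) := by
  refine isCore_of K psi fun x hx hne => ?_
  have hxz : x ∈ uc z := by
    by_contra hn
    rw [Pi.add_apply, hf x hx hn, add_zero] at hne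
    rcases PlA_cl_ne hne with h | h
    · subst h
      rw [mem_near] at hx
      omega
    · exact hn h
  have h1 := lev_uc H hxz
  rw [mem_Tch]
  refine Or.inl ⟨by omega, z, mem_uc.mp hxz, ?_⟩
  have h2 := PlA_cl_self z
  rw [Pi.add_apply]
  omega

/-- mirror image of `isCore_cl_add` -/
theorem isCore_cu_add (H : Gr P r) {i : ℕ} (K : Finset P) (psi : P → P) {x : P} (hx : lev x + 2 = i)
    {f : P → ℕ} (hf : ∀ y ∈ near P i, y ∉ dc x → f y = 0) : IsCore i K psi (cu x + f) := by
  refine isCore_of K psi fun y hy hne => ?_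
  have hyx : y ∈ dc x := by
    by_contra hn
    rw [Pi.add_apply, hf y hy hn, add_zero] at hne
    rcases PlA_cu_ne hne with h | h
    · subst h
      rw [mem_near] at hy
      omega
    · exact hn h
  have h1 := lev_dc H hyx
  rw [mem_Tch]
  refine Or.inr ⟨by omega, x, mem_dc.mp hyx, ?_⟩
  have h2 := PlA_cu_self x
  rw [Pi.add_apply]
  omega

/-- `isCore_of`: the near elements with positive label are in `uc z`, touched by `z`, or in `dc x`,
touched by `x` -/
theorem isCore_cl_cu (H : Gr P r) {i : ℕ} (K : Finset P) (psi : P → P) {z x : P} (hz : lev z = i + 2)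
    (hx : lev x + 2 = i) : IsCore i K psi (cl z + cu x) := by
  refine isCore_of K psi fun y hy hne => ?_
  rw [mem_Tch]
  rw [mem_near] at hy
  by_cases h : cl z y = 0
  · rw [Pi.add_apply, h, zero_add] at hne
    rcases PlA_cu_ne hne with h1 | h1
    · subst h1
      omega
    · have h2 := lev_dc H h1
      refine Or.inr ⟨by omega, x, mem_dc.mp h1, ?_⟩
      have h3 := PlA_cu_self x
      rw [Pi.add_apply]
      omega
  · rcases PlA_cl_ne h with h1 | h1
    · subst h1
      omega
    · have h2 := lev_uc H h1
      refine Or.inl ⟨by omega, z, mem_uc.mp h1, ?_⟩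
      have h3 := PlA_cl_self z
      rw [Pi.add_apply]
      omega

end Pool.Agent.GaussPoset.Win

end

/-! From `Pool.Agent.W_448win_h16.ClC` -/

section

/-! Cores of energy at most four. -/

namespace Pool.Agent.GaussPoset.Win

set_option linter.unusedSectionVars false

open Finset

universe u

variable {P : Type u} [Fintype P] [PartialOrder P] [DecidableEq P] {r : ℕ}

lemma ClC_sts (H : Gr P r) {i : ℕ} {z : P} (hz : lev z = i + 2) :
    sts i z = (uc z).biUnion uc := by
  ext v
  rw [mem_sts_iff H hz, Finset.mem_biUnion]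

lemma ClC_lev (H : Gr P r) {a b : P} (h : a ⋖ b) : lev a = lev b + 1 := (H.covBy_iff.1 h).2

lemma ClC_mem_TL {i : ℕ} {e : P → ℕ} {x : P} :
    x ∈ TL i e ↔ (lev x = i + 1 ∧ ∃ z, z ⋖ x ∧ 0 < e z) := by
  classical
  unfold TL; simp

lemma ClC_mem_TU {i : ℕ} {e : P → ℕ} {x : P} :
    x ∈ TU i e ↔ (lev x + 1 = i ∧ ∃ y, x ⋖ y ∧ 0 < e y) := by
  classical
  unfold TU; simp

lemma ClC_mem_LF {i : ℕ} {e : P → ℕ} {x : P} : x ∈ LF i e ↔ (i + 2 ≤ lev x ∧ 0 < e x) := by
  classical
  unfold LF; simp

lemma ClC_mem_PD {i : ℕ} {z : P} : z ∈ PD P i ↔ (lev z = i + 2 ∧ (uc z).card = 1 ∧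
    ∃ w, z ⋖ w ∧ (uc w).card = 2) := by
  classical
  unfold PD; simp

end Pool.Agent.GaussPoset.Win

end

/-! From `Pool.Agent.W_448win_h16.PlB` -/

section

/-! Sum over cl z and cu x; identity (32). -/

namespace Pool.Agent.GaussPoset.Win

set_option linter.unusedSectionVars false

open Finset

universe u

variable {P : Type u} [Fintype P] [PartialOrder P] [DecidableEq P] {r : ℕ}

lemma PlB_cl {z x : P} (h : cl z x = 1) : x = z ∨ x ∈ uc z := by
  unfold cl at h
  by_contra hcon
  rw [if_neg hcon] at h
  omega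

lemma PlB_cu {z x : P} (h : cu z x = 1) : x = z ∨ x ∈ dc z := by
  unfold cu at h
  by_contra hcon
  rw [if_neg hcon] at h
  omega

lemma PlB_cl_self (z : P) : cl z z = 1 := by
  unfold cl
  rw [if_pos (Or.inl rfl)]

lemma PlB_cu_self (z : P) : cu z z = 1 := by
  unfold cu
  rw [if_pos (Or.inl rfl)]

/-- `cl` is injective on level `i+2` (`cl z z' = 1` implies `z' = z` or `z' ∈ uc z`, the latter has a
smaller level: a cover is a strict inequality, `lev_strictAnti`), `cu` is injective on level
`i-2`, and the images are disjoint (`cl z z = 1`, `cu x z = 0` since `z` is neither `x` nor a lower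
cover of `x`: levels): `Finset.sum_union`, `Finset.sum_image`. -/
theorem sum_images (H : Gr P r) {i : ℕ} (Z X : Finset P) (hZ : ∀ z ∈ Z, lev z = i + 2)
    (hX : ∀ x ∈ X, lev x + 2 = i) (f : (P → ℕ) → A) :
    ∑ e ∈ Z.image cl ∪ X.image cu, f e = ∑ z ∈ Z, f (cl z) + ∑ x ∈ X, f (cu x) := by
  have h1 : ∀ z ∈ Z, ∀ z' ∈ Z, cl z = cl z' → z = z' := by
    intro z hz z' hz' he
    have h2 : cl z' z = 1 := by rw [← he, PlB_cl_self]
    rcases PlB_cl h2 with h3 | h3
    · exact h3
    · have h4 := lev_uc H h3
      have h5 := hZ z hz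
      have h6 := hZ z' hz'
      omega
  have h2 : ∀ x ∈ X, ∀ x' ∈ X, cu x = cu x' → x = x' := by
    intro x hx x' hx' he
    have h2 : cu x' x = 1 := by rw [← he, PlB_cu_self]
    rcases PlB_cu h2 with h3 | h3
    · exact h3
    · have h4 := lev_dc H h3
      have h5 := hX x hx
      have h6 := hX x' hx'
      omega
  have h3 : Disjoint (Z.image cl) (X.image cu) := by
    rw [Finset.disjoint_left]
    intro e he he'
    obtain ⟨z, hz, rfl⟩ := Finset.mem_image.1 he
    obtain ⟨x, hx, hxe⟩ := Finset.mem_image.1 he'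
    have h4 : cu x z = 1 := by rw [hxe, PlB_cl_self]
    have h5 := hZ z hz
    have h6 := hX x hx
    rcases PlB_cu h4 with h7 | h7
    · rw [h7] at h5
      omega
    · have h8 := lev_dc H h7
      omega
  rw [Finset.sum_union h3, Finset.sum_image h1, Finset.sum_image h2]

/-- A core with energy at most three has `TL = ∅` or `TU = ∅`, or is not admissible:
`energy_bound`, `card_TL_le`, `card_TU_le` (if both are nonempty then also `LF`, `UF` are). -/
theorem low_or_upp (H : Gr P r) {i : ℕ} (hi : i ≤ r) {e : P → ℕ} (hn : ∑ x, e x ≤ 3) :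
    ¬ (AdmL i e ∧ AdmU i e) ∨ TL i e = ∅ ∨ TU i e = ∅ := by
  by_cases hA : AdmL i e ∧ AdmU i e
  swap
  · exact Or.inl hA
  right
  by_contra hcon
  push Not at hcon
  obtain ⟨h1, h2⟩ := hcon
  have h3 := Finset.card_pos.2 h1
  have h4 := Finset.card_pos.2 h2
  have h5 := energy_bound H hi hA.1 hA.2
  have h6 := card_TL_le H (i := i) e
  have h7 := card_TU_le H (i := i) e
  omega

/-- at most two upper covers, each with at most two upper covers -/
theorem up_le_four (H : Gr P r) {i : ℕ} {z : P} (hz : lev z = i + 2) :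
    up i z ≤ 2 * (uc z).card ∧ up i z ≤ (lv P i).card := by
  classical
  rw [← card_sts]
  constructor
  · have h1 : sts i z ⊆ (uc z).biUnion uc := by
      intro v hv
      obtain ⟨w, hw, hv2⟩ := (mem_sts_iff H hz).1 hv
      exact Finset.mem_biUnion.2 ⟨w, hw, hv2⟩
    calc (sts i z).card ≤ ((uc z).biUnion uc).card := Finset.card_le_card h1
      _ ≤ (uc z).card * 2 := Finset.card_biUnion_le_card_mul _ _ _ (fun w _ => uc_card_le H w)
      _ = 2 * (uc z).card := mul_comm _ _
  · exact Finset.card_le_card fun v hv => mem_lv.2 (mem_sts.1 hv).1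

/-- mirror image of `up_le_four` -/
theorem dn_le_four (H : Gr P r) {i : ℕ} (hi : i ≤ r) {x : P} (hx : lev x + 2 = i) :
    dn i x ≤ 2 * (dc x).card ∧ dn i x ≤ (lv P i).card := by
  classical
  rw [← card_stD]
  constructor
  · have h1 : stD i x ⊆ (dc x).biUnion dc := by
      intro v hv
      obtain ⟨w, hw, hv2⟩ := (mem_stD_iff H hx).1 hv
      exact Finset.mem_biUnion.2 ⟨w, hw, hv2⟩
    calc (stD i x).card ≤ ((dc x).biUnion dc).card := Finset.card_le_card h1
      _ ≤ (dc x).card * 2 := Finset.card_biUnion_le_card_mul _ _ _ (fun w _ => dc_card_le H w)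
      _ = 2 * (dc x).card := mul_comm _ _
  · exact Finset.card_le_card fun v hv => mem_lv.2 (mem_stD.1 hv).1

open Classical in
/-- Energy three, one deficit. Take `psi` from `good_mat`, `S = Z.image cl ∪ X.image cu` with `Z` the elements
`z` of level `i+2` with `up i z = 4` and `X` the elements `x` of level `i-2` with `dn i x = 4`; `core_sum_set` with
`K = ∅`, `n = 3`, `k = 1`. Elements of `S` are cores (`isCore_cl_add`, `isCore_cu_add` with
`f = 0`) of energy `3` (`(uc z).card = 2` by `up_le_four` and `uc_card_le`). The other cores of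
energy at most three are in `Rk _ 1`: `low_or_upp`, `Rk_of_not_adm`, `cls3_low`, `cls3_upp` (for
energy at most two the exceptional case is impossible since `cl z` has energy three).
By `sum_images`, `trm_cl`, `trm_cu` the sum is
`dd ^ (b - 2) * (N * xx ^ 4 + M * xi ^ 2)`, `b = |lv P i| ≥ 4` unless `Z` and `X` are empty, and
`dd ^ (b - 1)` divides it, so `N + M = 0` by `cc_of_dvd`, `cc_xx`, `cc_xi`. -/
theorem I32_count (H : Gr P r) {i : ℕ} (hi : 1 ≤ i) (hi2 : i + 1 ≤ r) (hg : Good P i) :
    ((univ.filter (fun z : P => lev z = i + 2 ∧ up i z = 4)).card : ℤ) +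
      (univ.filter (fun x : P => lev x + 2 = i ∧ dn i x = 4)).card = 0 := by
  obtain ⟨psi, hM⟩ := good_mat H hg
  have hir : i ≤ r := by omega
  set Z : Finset P := univ.filter (fun z : P => lev z = i + 2 ∧ up i z = 4) with hZdef
  set X : Finset P := univ.filter (fun x : P => lev x + 2 = i ∧ dn i x = 4) with hXdef
  have hZ : ∀ z ∈ Z, lev z = i + 2 ∧ up i z = 4 := fun z hz => (Finset.mem_filter.1 hz).2
  have hX : ∀ x ∈ X, lev x + 2 = i ∧ dn i x = 4 := fun x hx => (Finset.mem_filter.1 hx).2
  have hZ2 : ∀ z : P, lev z = i + 2 → up i z = 4 → (uc z).card = 2 ∧ 4 ≤ (lv P i).card := by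
    intro z hz hz4
    obtain ⟨h1, h2⟩ := up_le_four H hz
    have h3 := uc_card_le H z
    omega
  have hX2 : ∀ x : P, lev x + 2 = i → dn i x = 4 → (dc x).card = 2 ∧ 4 ≤ (lv P i).card := by
    intro x hx hx4
    obtain ⟨h1, h2⟩ := dn_le_four H hir hx
    have h3 := dc_card_le H x
    omega
  have hcls : ∀ e : P → ℕ, IsCore i ∅ psi e → ∑ x, e x ≤ 3 → Rk (lv P i) 1 (Fe i e) ∨
      (∃ z, lev z = i + 2 ∧ up i z = 4 ∧ e = cl z) ∨
      (∃ x, lev x + 2 = i ∧ dn i x = 4 ∧ e = cu x) := by
    intro e hc hn
    rcases low_or_upp H hir hn with h | h | h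
    · exact Or.inl (Rk_of_not_adm h 1)
    · rcases cls3_upp H hi hi2 hM hc hn h with h1 | h1
      · exact Or.inl h1
      · exact Or.inr (Or.inr h1)
    · rcases cls3_low H hi hi2 hM hc hn h with h1 | h1
      · exact Or.inl h1
      · exact Or.inr (Or.inl h1)
  have key := core_sum_set H hi hi2 hM 3 1 (fun e hc hn => by
    rcases hcls e hc hn.le with h | ⟨z, h1, h2, h3⟩ | ⟨x, h1, h2, h3⟩
    · exact h
    · rw [h3, sum_cl_val, (hZ2 z h1 h2).1] at hn
      omega
    · rw [h3, sum_cu_val, (hX2 x h1 h2).1] at hn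
      omega) (Z.image cl ∪ X.image cu) (fun e he => by
    rcases Finset.mem_union.1 he with h | h
    · obtain ⟨z, hz, rfl⟩ := Finset.mem_image.1 h
      obtain ⟨h1, h2⟩ := hZ z hz
      refine ⟨?_, ?_⟩
      · have h3 := isCore_cl_add H ∅ psi h1 (f := 0) (fun _ _ _ => rfl)
        rwa [add_zero] at h3
      · rw [sum_cl_val, (hZ2 z h1 h2).1]
    · obtain ⟨x, hx, rfl⟩ := Finset.mem_image.1 h
      obtain ⟨h1, h2⟩ := hX x hx
      refine ⟨?_, ?_⟩
      · have h3 := isCore_cu_add H ∅ psi h1 (f := 0) (fun _ _ _ => rfl)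
        rwa [add_zero] at h3
      · rw [sum_cu_val, (hX2 x h1 h2).1]) (fun e hc hn hne => by
    rcases hcls e hc hn.le with h | ⟨z, h1, h2, h3⟩ | ⟨x, h1, h2, h3⟩
    · exact h
    · exfalso
      apply hne
      rw [h3]
      refine Finset.mem_union_left _ (Finset.mem_image_of_mem _ ?_)
      exact Finset.mem_filter.2 ⟨mem_univ _, h1, h2⟩
    · exfalso
      apply hne
      rw [h3]
      refine Finset.mem_union_right _ (Finset.mem_image_of_mem _ ?_)
      exact Finset.mem_filter.2 ⟨mem_univ _, h1, h2⟩)
  by_cases hb : 4 ≤ (lv P i).card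
  · have hs := sum_images H Z X (fun z hz => (hZ z hz).1) (fun x hx => (hX x hx).1) (trm i)
    have e1 : ∑ z ∈ Z, trm i (cl z) = (Z.card : A) * (xx ^ 4 * dd ^ ((lv P i).card - 2)) := by
      rw [Finset.sum_congr rfl (g := fun _ => xx ^ 4 * dd ^ ((lv P i).card - 2)), Finset.sum_const,
        nsmul_eq_mul]
      intro z hz
      obtain ⟨h1, h2⟩ := hZ z hz
      rw [trm_cl H hir h1, h2, (hZ2 z h1 h2).1]
      congr 2
      omega
    have e2 : ∑ x ∈ X, trm i (cu x) = (X.card : A) * (xi ^ 2 * dd ^ ((lv P i).card - 2)) := by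
      rw [Finset.sum_congr rfl (g := fun _ => xi ^ 2 * dd ^ ((lv P i).card - 2)), Finset.sum_const,
        nsmul_eq_mul]
      intro x hx
      obtain ⟨h1, h2⟩ := hX x hx
      rw [trm_cu H hir h1, h2, (hX2 x h1 h2).1]
      congr 2
      omega
    have e3 : ∑ e ∈ Z.image cl ∪ X.image cu, trm i e =
        dd ^ ((lv P i).card - 2) * ((Z.card : A) * xx ^ 4 + (X.card : A) * xi ^ 2) := by
      refine Eq.trans ?_ (hs.trans ?_)
      · congr 1
      · rw [e1, e2]
        ring
    rw [e3, show (lv P i).card - 1 = (lv P i).card - 2 + 1 by omega] at key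
    have e4 := cc_of_dvd key
    rw [map_add, map_mul, map_mul, map_pow, map_pow, cc_xx, cc_xi, map_natCast, map_natCast] at e4
    norm_num at e4
    exact_mod_cast e4
  · have hZe : Z = ∅ := by
      rw [Finset.eq_empty_iff_forall_notMem]
      intro z hz
      exact hb (hZ2 z (hZ z hz).1 (hZ z hz).2).2
    have hXe : X = ∅ := by
      rw [Finset.eq_empty_iff_forall_notMem]
      intro x hx
      exact hb (hX2 x (hX x hx).1 (hX x hx).2).2
    rw [hZe, hXe]
    simp

end Pool.Agent.GaussPoset.Win

end

/-! From `Pool.Agent.W_448win_h16.PlC` -/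

section

/-! Identity (31). -/

namespace Pool.Agent.GaussPoset.Win

set_option linter.unusedSectionVars false

open Finset

universe u

variable {P : Type u} [Fintype P] [PartialOrder P] [DecidableEq P] {r : ℕ}

/-- identity (32), from `I32_count`, `up_le_four`, `dn_le_four` -/
theorem I32' (H : Gr P r) {i : ℕ} (hi : 1 ≤ i) (hi2 : i + 1 ≤ r) (hg : Good P i) :
    (∀ z : P, lev z = i + 2 → up i z ≤ 3) ∧ (∀ x : P, lev x + 2 = i → dn i x ≤ 3) := by
  classical
  have h := I32_count H hi hi2 hg
  constructor
  · intro z hz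
    by_contra hcon
    have h1 := (up_le_four H hz).1
    have h2 := uc_card_le H z
    have h3 : z ∈ univ.filter (fun z : P => lev z = i + 2 ∧ up i z = 4) := by
      rw [mem_filter]
      exact ⟨mem_univ _, hz, by omega⟩
    have h4 : 0 < (univ.filter (fun z : P => lev z = i + 2 ∧ up i z = 4)).card :=
      Finset.card_pos.2 ⟨z, h3⟩
    omega
  · intro x hx
    by_contra hcon
    have h1 := (dn_le_four H (i := i) (by omega) hx).1
    have h2 := dc_card_le H x
    have h3 : x ∈ univ.filter (fun x : P => lev x + 2 = i ∧ dn i x = 4) := by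
      rw [mem_filter]
      exact ⟨mem_univ _, hx, by omega⟩
    have h4 : 0 < (univ.filter (fun x : P => lev x + 2 = i ∧ dn i x = 4)).card :=
      Finset.card_pos.2 ⟨x, h3⟩
    omega

end Pool.Agent.GaussPoset.Win

end

/-! From `Pool.Agent.W_448s5_h63.FourB` -/

section

/-! Cores of energy at most four without any bound on `PD` (general identity (42)). -/

namespace Pool.Agent.GaussPoset.Win

set_option linter.unusedSectionVars false

open Finset OrderDual

universe u

variable {P : Type u} [Fintype P] [PartialOrder P] [DecidableEq P] {r : ℕ}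

/-- the second alternative of `two_touched`: cheap, or label one on two elements of `PD` with disjoint
sites and on their upper covers -/
lemma S5_second (H : Gr P r) {i : ℕ} (hi2 : i ≤ r)
    (h3 : ∀ z : P, lev z = i + 2 → up i z ≤ 3) {e : P → ℕ} (hB : AdmU i e)
    (h2 : TU i e = ∅) (hT : (TL i e).card = 2) (hL : (LF i e).card ≤ 2)
    (he : ∀ x, e x = if x ∈ TL i e ∪ LF i e then 1 else 0) :
    Cheap 1 i e ∨ ∃ z z', z ∈ PD P i ∧ z' ∈ PD P i ∧ z ≠ z' ∧ Disjoint (sts i z) (sts i z') ∧
      LF i e = {z, z'} ∧ e = cl z + cl z' := by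
  classical
  have hUF : UF i e = ∅ := by
    rw [Finset.eq_empty_iff_forall_notMem]
    intro x hx
    have h4 : lev x + 2 ≤ i ∧ 0 < e x := by
      unfold UF at hx; simpa using hx
    have h5 := far_zero_of_TU H hi2 hB h2 h4.1
    omega
  by_cases hcon : ((TL i e).biUnion uc).card ≤ 2 + 1
  · exact Or.inl (cheap_ind H hi2 hT (by rw [h2, hUF]; rfl) he 1 hcon)
  right
  obtain ⟨w, w', hww, hTL⟩ := Finset.card_eq_two.1 hT
  have hwm : w ∈ TL i e := by rw [hTL]; simp
  have hwm' : w' ∈ TL i e := by rw [hTL]; simp
  have hbi : (TL i e).biUnion uc = uc w ∪ uc w' := by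
    rw [hTL, Finset.biUnion_insert, Finset.singleton_biUnion]
  have hle := Finset.card_union_add_card_inter (uc w) (uc w')
  rw [hbi] at hcon
  have h5 := uc_card_le H w
  have h6 := uc_card_le H w'
  have h7 : (uc w).card = 2 := by omega
  have h8 : (uc w').card = 2 := by omega
  have hdis : Disjoint (uc w) (uc w') := by
    rw [Finset.disjoint_iff_inter_eq_empty, ← Finset.card_eq_zero]
    omega
  have key : ∀ x ∈ TL i e, (uc x).card = 2 → ∃ z ∈ PD P i, uc z = {x} ∧ z ∈ LF i e := by
    intro x hx hx2
    obtain ⟨hl, z, hz, hz2⟩ := ClC_mem_TL.1 hx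
    have hlz := ClC_lev H hz
    have hsub : uc z ⊆ TL i e := by
      intro y hy
      have h9 := mem_uc.1 hy
      have h10 := ClC_lev H h9
      exact ClC_mem_TL.2 ⟨by omega, z, h9, hz2⟩
    have hc := uc_card_le H z
    have hxz : x ∈ uc z := mem_uc.2 hz
    have hpos : 0 < (uc z).card := Finset.card_pos.2 ⟨x, hxz⟩
    have hne2 : (uc z).card ≠ 2 := by
      intro h9
      have h10 : uc z = TL i e := Finset.eq_of_subset_of_card_le hsub (by omega)
      have h11 := h3 z (by omega)
      rw [← card_sts, ClC_sts H (by omega), h10, hbi] at h11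
      omega
    have h1c : (uc z).card = 1 := by omega
    refine ⟨z, ClC_mem_PD.2 ⟨by omega, h1c, x, hz, hx2⟩, ?_, ClC_mem_LF.2 ⟨by omega, hz2⟩⟩
    obtain ⟨t, ht⟩ := Finset.card_eq_one.1 h1c
    rw [ht, mem_singleton] at hxz
    rw [ht, hxz]
  obtain ⟨z, hz, hz2, hz3⟩ := key w hwm h7
  obtain ⟨z', hz', hz2', hz3'⟩ := key w' hwm' h8
  have hlz := (ClC_mem_PD.1 hz).1
  have hlz' := (ClC_mem_PD.1 hz').1
  have hlw := (ClC_mem_TL.1 hwm).1
  have hlw' := (ClC_mem_TL.1 hwm').1
  have hne : z ≠ z' := by
    intro h
    rw [h, hz2'] at hz2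
    exact hww (Finset.singleton_injective hz2).symm
  have hLF : LF i e = {z, z'} := by
    symm
    apply Finset.eq_of_subset_of_card_le
    · intro x hx
      rw [mem_insert, mem_singleton] at hx
      rcases hx with rfl | rfl
      · exact hz3
      · exact hz3'
    · rw [Finset.card_pair hne]
      exact hL
  refine ⟨z, z', hz, hz', hne, ?_, hLF, ?_⟩
  · rw [ClE_sts H hlz hz2, ClE_sts H hlz' hz2']
    exact hdis
  · funext x
    rw [he x, Pi.add_apply, hTL, hLF]
    unfold cl
    rw [hz2, hz2']
    simp only [Finset.mem_union, mem_insert, mem_singleton]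
    have e1 : z ≠ w := by rintro rfl; omega
    have e2 : z ≠ w' := by rintro rfl; omega
    have e3 : z' ≠ w := by rintro rfl; omega
    have e4 : z' ≠ w' := by rintro rfl; omega
    by_cases a1 : x = z
    · subst a1; simp [e1, e2, hne]
    · by_cases a2 : x = z'
      · subst a2; simp [e3, e4, a1]
      · by_cases a3 : x = w
        · subst a3; simp [a2, hww]
        · by_cases a4 : x = w'
          · subst a4; simp [a1, a3]
          · simp [a1, a2, a3, a4]

/-- Cores of energy at most four, all `up i z ≤ 3`, nothing touched above; as `cls4_low` without the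
hypothesis on `PD`, with one more alternative. -/
theorem S5_cls4_low (H : Gr P r) {i : ℕ} (hi : 1 ≤ i) (hi2 : i + 1 ≤ r) {psi : P → P}
    (hM : Mat P i ∅ psi)
    (h3 : ∀ z : P, lev z = i + 2 → up i z ≤ 3) {e : P → ℕ} (hc : IsCore i ∅ psi e)
    (hn : ∑ x, e x ≤ 4) (h2 : TU i e = ∅) :
    Rk (lv P i) 1 (Fe i e) ∨ (∃ z, lev z = i + 2 ∧ up i z = 3 ∧ e = cl z + sg z) ∨
      (∃ z v, lev z = i + 2 ∧ up i z = 3 ∧ v ∈ sts i z ∧ (∀ w ∈ uc z, v ∈ uc w) ∧
        e = cl z + sg v) ∨
      (∃ z z', z ∈ PD P i ∧ z' ∈ PD P i ∧ z ≠ z' ∧ Disjoint (sts i z) (sts i z') ∧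
        e = cl z + cl z') := by
  classical
  by_cases hadm : AdmL i e ∧ AdmU i e
  swap
  · exact Or.inl (Rk_of_not_adm hadm 1)
  obtain ⟨hA, hB⟩ := hadm
  have hir : i ≤ r := by omega
  have hE := energy_bound H hir hA hB
  have hL := card_TL_le H (i := i) e
  rcases Nat.lt_or_ge (TL i e).card 2 with hT | hT
  · left
    rcases Nat.eq_zero_or_pos (TL i e).card with h0 | h0
    · exact Rk_mono (by omega) (core_none H hi hi2 hc (Finset.card_eq_zero.1 h0) h2)
    · obtain ⟨w, hw⟩ := Finset.card_eq_one.1 (show (TL i e).card = 1 by omega)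
      exact (core_one H hi hi2 hM hc hw h2).1
  have hT2 : (TL i e).card = 2 := by omega
  rcases two_touched H hir hA hB hT2 hn with ⟨z, hlz, hcz, hTz, hez⟩ | ⟨hLF, hind⟩
  swap
  · rcases S5_second H hir h3 hB h2 hT2 hLF.le hind with h | ⟨z, z', h4, h5, h6, h7, -, h8⟩
    · exact Or.inl (Rk_of_cheap h)
    · exact Or.inr (Or.inr (Or.inr ⟨z, z', h4, h5, h6, h7, h8⟩))
  have hup := h3 z hlz
  have hsub : sts i z ⊆ lv P i := by
    intro v hv
    rw [mem_lv]
    exact (mem_sts.1 hv).1
  have hclsite : ∀ v, lev v = i → cl z v = 0 := by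
    intro v hv
    unfold cl
    rw [if_neg]
    rintro (h | h)
    · rw [h] at hv; omega
    · have := ClC_lev H (mem_uc.1 h); omega
  rcases hez with hez | ⟨y, hey⟩
  · left
    rw [hez]
    have h4 : Rk (lv P i) 1 (fun S => dd ^ 2 * chi (sts i z) ∅ S) :=
      Rk_chi (p := 2) hsub (Finset.empty_subset _) (by
        rw [Finset.card_empty, card_sts]; omega) dvd_rfl
    refine Rk_congr (fun S _ => ?_) h4
    rw [Fe_cl H hir hlz, hcz]
  · have hey1 : 1 ≤ e y := by
      rw [hey, Pi.add_apply]
      unfold sg
      rw [Pi.single_eq_same]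
      omega
    rcases Nat.lt_trichotomy (lev y) i with hly | hly | hly
    · -- upper elements
      left
      rcases Nat.lt_or_ge (lev y + 1) i with hly2 | hly2
      · have := far_zero_of_TU H hir hB h2 (z := y) (by omega)
        omega
      · have hly3 : lev y + 1 = i := by omega
        have hnear : y ∈ near P i := mem_near.2 (Or.inr hly3)
        have hTch : ∀ x, x ∈ Tch i e → x ∈ uc z := by
          intro x hx
          rcases mem_Tch.1 hx with hx | hx
          · rw [← hTz]; exact ClC_mem_TL.2 hx
          · have : x ∈ TU i e := ClC_mem_TU.2 hx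
            rw [h2] at this
            exact absurd this (Finset.notMem_empty x)
        have hyuc : y ∉ uc z := by
          intro h
          have := ClC_lev H (mem_uc.1 h); omega
        rcases core_near hc hnear (by omega) with h4 | ⟨h4, h5⟩
        · exact absurd (hTch y h4) hyuc
        · have hpz := hTch _ h5
          have hpl := ClC_lev H (mem_uc.1 hpz)
          have hyU : y ∈ dbU P i := by
            rcases Finset.mem_union.1 h4 with h6 | h6
            · have := (mem_dbL.1 h6).1; omega
            · exact h6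
          obtain ⟨h6, h7⟩ := hM.upp y hyU (Finset.notMem_empty _)
          have hyT : y ∉ Tch i (cl z) := by
            intro h
            rcases mem_Tch.1 h with h | ⟨_, y', hy', hy2⟩
            · omega
            · have h8 := ClC_lev H hy'
              unfold cl at hy2
              split_ifs at hy2 with h9
              · rcases h9 with h9 | h9
                · rw [h9] at h8; omega
                · have := ClC_lev H (mem_uc.1 h9); omega
              · omega
          have hcly : cl z y = 0 := by
            unfold cl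
            rw [if_neg]
            rintro (h | h)
            · rw [h] at hly; omega
            · exact hyuc h
          have hzero : ∀ S, S ⊆ lv P i → (0 : A) = Fe i e S := by
            intro S _
            rw [hey]
            unfold sg
            rw [fact H hir hnear hyT hcly 1 S, Fe_cl H hir hlz]
            unfold wt
            rw [if_neg (by omega)]
            unfold wtU chi
            by_cases h8 : sts i z ⊆ S ∧ Disjoint ∅ S
            · have h9 : ¬ ∀ v ∈ dc y, cl z v < 1 → v ∉ S := by
                intro hall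
                have hne : (dc y).Nonempty := by
                  rw [← Finset.card_pos, (mem_dbU.1 hyU).2]; omega
                obtain ⟨v, hv⟩ := hne
                have hvl := ClC_lev H (mem_dc.1 hv)
                have hv2 : v ∈ sts i z := by
                  rw [mem_sts_iff H hlz]
                  exact ⟨psi y, hpz, by rw [h7]; exact hv⟩
                refine hall v hv ?_ (h8.1 hv2)
                rw [hclsite v (by omega)]; omega
              rw [if_neg h9]; ring
            · rw [if_neg h8]; ring
          exact Rk_congr hzero (Rk_zero _ 1)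
    · -- sites
      by_cases hcom : ∀ w ∈ uc z, y ∈ uc w
      · have hys : y ∈ sts i z := by
          rw [mem_sts_iff H hlz]
          have hne : (uc z).Nonempty := by
            rw [← Finset.card_pos, hcz]; omega
          obtain ⟨w, hw⟩ := hne
          exact ⟨w, hw, hcom w hw⟩
        by_cases hup3 : up i z = 3
        · exact Or.inr (Or.inr (Or.inl ⟨z, y, hlz, hup3, hys, hcom, hey⟩))
        · left
          rw [hey]
          have h4 : Rk (lv P i) 1 (fun S => 1 * chi ((sts i z).erase y) ∅ S) :=
            Rk_chi (p := 0) ((Finset.erase_subset _ _).trans hsub) (Finset.empty_subset _) (by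
              rw [Finset.card_empty, Finset.card_erase_of_mem hys, card_sts]; omega) (by simp)
          refine Rk_congr (fun S _ => ?_) h4
          rw [Fe_cl_v H hir hlz hly hcom, one_mul]
      · left
        rw [hey]
        exact Rk_of_cheap ((cheap_cl H hir hlz hcz (Or.inr ⟨hly, hcom⟩)).mono (by omega))
    · -- lower elements
      rcases Nat.lt_or_ge (i + 1) (lev y) with hly2 | hly2
      · by_cases hyz : y = z
        · subst hyz
          by_cases hup3 : up i y = 3
          · exact Or.inr (Or.inl ⟨y, hlz, hup3, hey⟩)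
          · left
            rw [hey]
            have h4 : Rk (lv P i) 1 (fun S => (xx ^ 2 * dd) * chi (sts i y) ∅ S) :=
              Rk_chi (p := 1) hsub (Finset.empty_subset _) (by
                rw [Finset.card_empty, card_sts]; omega) (by
                rw [pow_one]; exact Dvd.intro_left _ rfl)
            refine Rk_congr (fun S _ => ?_) h4
            rw [Fe_cl_z H hir hlz, hcz]
        · -- another far element
          left
          apply Rk_of_cheap
          have hzcl : 0 < e z := by
            rw [hey, Pi.add_apply]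
            unfold cl
            rw [if_pos (Or.inl rfl)]; omega
          have hind : ∀ x, e x = if x ∈ TL i e ∪ LF i e then 1 else 0 := by
            intro x
            have hex : e x = cl z x + sg y x := by rw [hey]; rfl
            by_cases hxy : x = y
            · have h4 : cl z x = 0 := by
                unfold cl
                rw [if_neg]
                rintro (h | h)
                · exact hyz (hxy ▸ h)
                · have := ClC_lev H (mem_uc.1 h)
                  rw [hxy] at this; omega
              have h5 : sg y x = 1 := by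
                unfold sg; rw [hxy, Pi.single_eq_same]
              rw [hex, h4, h5, if_pos]
              refine Finset.mem_union_right _ (ClC_mem_LF.2 ⟨by rw [hxy]; omega, ?_⟩)
              rw [hxy]; omega
            · have h5 : sg y x = 0 := by
                unfold sg; rw [Pi.single_eq_of_ne hxy]
              rw [hex, h5, add_zero]
              unfold cl
              by_cases hx : x = z ∨ x ∈ uc z
              · rw [if_pos hx, if_pos]
                rcases hx with hx | hx
                · rw [hx]
                  exact Finset.mem_union_right _ (ClC_mem_LF.2 ⟨by omega, hzcl⟩)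
                · rw [← hTz] at hx
                  exact Finset.mem_union_left _ hx
              · rw [if_neg hx, if_neg]
                intro h
                rcases Finset.mem_union.1 h with h | h
                · rw [hTz] at h
                  exact hx (Or.inr h)
                · have h6 := (ClC_mem_LF.1 h).2
                  rw [hex, h5] at h6
                  unfold cl at h6
                  rw [if_neg hx] at h6
                  omega
          rcases S5_second H hir h3 hB h2 hT2 (by omega) hind with h | ⟨z1, z2, h4, h5, -, -, h8, -⟩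
          · exact h
          · exfalso
            have h9 : z ∈ LF i e := ClC_mem_LF.2 ⟨by omega, hzcl⟩
            rw [h8, mem_insert, mem_singleton] at h9
            rcases h9 with h9 | h9
            · have := (ClC_mem_PD.1 h4).2.1
              rw [← h9] at this; omega
            · have := (ClC_mem_PD.1 h5).2.1
              rw [← h9] at this; omega
      · have hly3 : lev y = i + 1 := by omega
        left
        by_cases hyuc : y ∈ uc z
        · rw [hey]
          exact Rk_of_cheap ((cheap_cl H hir hlz hcz (Or.inl hyuc)).mono (by omega))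
        · exfalso
          have hTch : ∀ x, x ∈ Tch i e → x ∈ uc z := by
            intro x hx
            rcases mem_Tch.1 hx with hx | hx
            · rw [← hTz]; exact ClC_mem_TL.2 hx
            · have : x ∈ TU i e := ClC_mem_TU.2 hx
              rw [h2] at this
              exact absurd this (Finset.notMem_empty x)
          have hnear : y ∈ near P i := mem_near.2 (Or.inl hly3)
          rcases core_near hc hnear (by omega) with h4 | ⟨h4, h5⟩
          · exact hyuc (hTch y h4)
          · have hpz := hTch _ h5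
            have hpl := ClC_lev H (mem_uc.1 hpz)
            rcases Finset.mem_union.1 h4 with h6 | h6
            · have := (mem_dbU.1 (hM.low y h6 (Finset.notMem_empty _)).1).1
              omega
            · have := (mem_dbU.1 h6).1; omega

/-- mirror image of `S5_cls4_low` (`DualW`) -/
theorem S5_cls4_upp (H : Gr P r) {i : ℕ} (hi : 1 ≤ i) (hi2 : i + 1 ≤ r) {psi : P → P}
    (hM : Mat P i ∅ psi)
    (h3 : ∀ x : P, lev x + 2 = i → dn i x ≤ 3) {e : P → ℕ} (hc : IsCore i ∅ psi e)
    (hn : ∑ x, e x ≤ 4) (h2 : TL i e = ∅) :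
    Rk (lv P i) 1 (Fe i e) ∨ (∃ x, lev x + 2 = i ∧ dn i x = 3 ∧ e = cu x + sg x) ∨
      (∃ x v, lev x + 2 = i ∧ dn i x = 3 ∧ v ∈ stD i x ∧ (∀ u ∈ dc x, v ∈ dc u) ∧
        e = cu x + sg v) ∨
      (∃ x x', x ∈ PU P i ∧ x' ∈ PU P i ∧ x ≠ x' ∧ Disjoint (stD i x) (stD i x') ∧
        e = cu x + cu x') := by
  have hir : i ≤ r := by omega
  have hn' : ∑ x, eo e x ≤ 4 := by rw [ClD_sum]; exact hn
  rcases S5_cls4_low H.dual (i := r - i) (by omega) (by omega) (ClD_mat H hir hM)
    (ClD_up H hir h3) (ClD_core H hir hc) hn' (ClD_TU H hir h2) with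
    h | ⟨z, hz, hz2, hz3⟩ | ⟨z, v, hz, hz2, hv, huv, hz3⟩ | ⟨z, z', hz, hz', hne, hd, hz3⟩
  · exact Or.inl ((Rk_od H hir 1 e).1 h)
  · refine Or.inr (Or.inl ⟨ofDual z, ClD_lev H hir (x := ofDual z) hz, ?_, ?_⟩)
    · rw [← up_od H hir]
      exact hz2
    · apply ClD_inj
      have h5 : eo (cu (ofDual z) + sg (ofDual z)) = eo (cu (ofDual z)) + eo (sg (ofDual z)) := rfl
      rw [h5, cu_od, sg_od]
      exact hz3
  · refine Or.inr (Or.inr (Or.inl ⟨ofDual z, ofDual v, ClD_lev H hir (x := ofDual z) hz, ?_, ?_, ?_, ?_⟩))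
    · rw [← up_od H hir]
      exact hz2
    · have h6 := mem_sts.1 hv
      refine mem_stD.2 ⟨?_, ?_⟩
      · have h7 : lev (toDual (ofDual v)) = r - i := h6.1
        rw [lev_od H] at h7
        have h8 := H.hr (ofDual v)
        omega
      · exact h6.2
    · intro u hu
      have h9 : toDual u ∈ uc z := by
        have h10 : toDual u ∈ uc (toDual (ofDual z)) := by
          rw [uc_od]
          exact Finset.mem_map.2 ⟨u, hu, rfl⟩
        exact h10
      have h11 := mem_uc.1 (huv _ h9)
      refine mem_dc.2 ?_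
      exact toDual_covBy_toDual_iff.1 (by simpa using h11)
    · apply ClD_inj
      have h5 : eo (cu (ofDual z) + sg (ofDual v)) = eo (cu (ofDual z)) + eo (sg (ofDual v)) := rfl
      rw [h5, cu_od, sg_od]
      exact hz3
  · have hmem : ∀ t : Pᵒᵈ, t ∈ PD Pᵒᵈ (r - i) → ofDual t ∈ PU P i := by
      intro t ht
      rw [(PD_od H hir).1, Finset.mem_map] at ht
      obtain ⟨a, ha, rfl⟩ := ht
      exact ha
    have hst : ∀ t : Pᵒᵈ, ∀ v : P, v ∈ stD i (ofDual t) → toDual v ∈ sts (r - i) t := by
      intro t v hv
      have h6 := mem_stD.1 hv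
      refine mem_sts.2 ⟨?_, ?_⟩
      · rw [lev_od H]
        have h8 := H.hr v
        omega
      · exact h6.2
    refine Or.inr (Or.inr (Or.inr ⟨ofDual z, ofDual z', hmem z hz, hmem z' hz', hne, ?_, ?_⟩))
    · rw [Finset.disjoint_left] at hd ⊢
      intro v hv hv'
      exact hd (hst z v hv) (hst z' v hv')
    · apply ClD_inj
      have h5 : eo (cu (ofDual z) + cu (ofDual z')) = eo (cu (ofDual z)) + eo (cu (ofDual z')) := rfl
      rw [h5, cu_od, cu_od]
      exact hz3

end Pool.Agent.GaussPoset.Win

end

/-! From `Pool.Agent.W_448st_h88.MgF` -/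

section

/-! Stars at the first bad level: definitions (MP_448cb3_co). -/

namespace Pool.Agent.GaussPoset.St

set_option linter.unusedSectionVars false

open Finset Polynomial Win

universe u

variable {P : Type u} [Fintype P] [PartialOrder P] [DecidableEq P] {r j : ℕ}

/-- number of double near elements (both sides) with the set `T` of sites -/
noncomputable def Bf (i : ℕ) (T : Finset P) : ℤ := (CoreC_L i T).card + (CoreC_U i T).card

end Pool.Agent.GaussPoset.St

end
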