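import Mathlib
import Pool.Agent.W_448zz_h61.Ns
import Pool.Agent.W_448zz_h61.M024

/-! From `Pool.Agent.W_448win_h16.PlD` -/

section

/-! The sum for identity (42). -/

namespace Pool.Agent.GaussPoset.Win

set_option linter.unusedSectionVars false

open Finset

universe u

variable {P : Type u} [Fintype P] [PartialOrder P] [DecidableEq P] {r : ℕ}

open Classical in
/-- elements of level `i+2` with three sites -/
noncomputable def Z3 (P : Type u) [Fintype P] [PartialOrder P] [DecidableEq P] (i : ℕ) :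
    Finset P := univ.filter (fun z : P => lev z = i + 2 ∧ up i z = 3)

open Classical in
/-- elements of level `i-2` with three sites -/
noncomputable def X3 (P : Type u) [Fintype P] [PartialOrder P] [DecidableEq P] (i : ℕ) :
    Finset P := univ.filter (fun x : P => lev x + 2 = i ∧ dn i x = 3)

open Classical in
/-- elements of `Z3` with a common site -/
noncomputable def ZV (P : Type u) [Fintype P] [PartialOrder P] [DecidableEq P] (i : ℕ) :
    Finset (P × P) := univ.filter (fun p : P × P => p.1 ∈ Z3 P i ∧ p.2 ∈ sts i p.1 ∧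
      ∀ w ∈ uc p.1, p.2 ∈ uc w)

open Classical in
/-- elements of `X3` with a common site -/
noncomputable def XV (P : Type u) [Fintype P] [PartialOrder P] [DecidableEq P] (i : ℕ) :
    Finset (P × P) := univ.filter (fun p : P × P => p.1 ∈ X3 P i ∧ p.2 ∈ stD i p.1 ∧
      ∀ u ∈ dc p.1, p.2 ∈ dc u)

open Classical in
/-- pairs in `PD × PU` with disjoint sites -/
noncomputable def CC (P : Type u) [Fintype P] [PartialOrder P] [DecidableEq P] (i : ℕ) :
    Finset (P × P) := univ.filter (fun p : P × P => p.1 ∈ PD P i ∧ p.2 ∈ PU P i ∧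
      Disjoint (sts i p.1) (stD i p.2))

open Classical in
/-- the expensive cores of energy four -/
noncomputable def S42 (P : Type u) [Fintype P] [PartialOrder P] [DecidableEq P] (i : ℕ) :
    Finset (P → ℕ) :=
  (Z3 P i).image (fun z => cl z + sg z) ∪ (ZV P i).image (fun p => cl p.1 + sg p.2) ∪
    (X3 P i).image (fun x => cu x + sg x) ∪ (XV P i).image (fun p => cu p.1 + sg p.2) ∪
    (CC P i).image (fun p => cl p.1 + cu p.2)

lemma mem_Z3 {i : ℕ} {z : P} : z ∈ Z3 P i ↔ lev z = i + 2 ∧ up i z = 3 := by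
  unfold Z3
  rw [mem_filter]
  simp

lemma mem_X3 {i : ℕ} {x : P} : x ∈ X3 P i ↔ lev x + 2 = i ∧ dn i x = 3 := by
  unfold X3
  rw [mem_filter]
  simp

lemma mem_ZV {i : ℕ} {p : P × P} : p ∈ ZV P i ↔ p.1 ∈ Z3 P i ∧ p.2 ∈ sts i p.1 ∧
    ∀ w ∈ uc p.1, p.2 ∈ uc w := by
  unfold ZV
  rw [mem_filter]
  simp

lemma mem_XV {i : ℕ} {p : P × P} : p ∈ XV P i ↔ p.1 ∈ X3 P i ∧ p.2 ∈ stD i p.1 ∧
    ∀ u ∈ dc p.1, p.2 ∈ dc u := by
  unfold XV
  rw [mem_filter]
  simp

lemma mem_CC {i : ℕ} {p : P × P} : p ∈ CC P i ↔ p.1 ∈ PD P i ∧ p.2 ∈ PU P i ∧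
    Disjoint (sts i p.1) (stD i p.2) := by
  unfold CC
  rw [mem_filter]
  simp

lemma PlD_mem_PD {i : ℕ} {z : P} : z ∈ PD P i ↔ lev z = i + 2 ∧ (uc z).card = 1 ∧
    ∃ w, z ⋖ w ∧ (uc w).card = 2 := by
  classical
  unfold PD
  rw [mem_filter]
  simp

lemma PlD_mem_PU {i : ℕ} {x : P} : x ∈ PU P i ↔ lev x + 2 = i ∧ (dc x).card = 1 ∧
    ∃ u, u ⋖ x ∧ (dc u).card = 2 := by
  classical
  unfold PU
  rw [mem_filter]
  simp

lemma PlD_cl (H : Gr P r) {i : ℕ} {z y : P} (hz : lev z = i + 2) (hy : lev y ≠ i + 1) :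
    cl z y = if y = z then 1 else 0 := by
  unfold cl
  by_cases h : y = z
  · rw [if_pos (Or.inl h), if_pos h]
  · rw [if_neg h, if_neg]
    rintro (h1 | h1)
    · exact h h1
    · have := lev_uc H h1
      omega

lemma PlD_cu (H : Gr P r) {i : ℕ} {x y : P} (hx : lev x + 2 = i) (hy : lev y + 1 ≠ i) :
    cu x y = if y = x then 1 else 0 := by
  unfold cu
  by_cases h : y = x
  · rw [if_pos (Or.inl h), if_pos h]
  · rw [if_neg h, if_neg]
    rintro (h1 | h1)
    · exact h h1
    · have := lev_dc H h1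
      omega

lemma PlD_sg (a y : P) : sg a y = if y = a then 1 else 0 := by
  unfold sg
  rw [Pi.single_apply]

/-- the sum of the labels on level `j` -/
noncomputable def PlD_L (j : ℕ) (e : P → ℕ) : ℕ := ∑ y ∈ lv P j, e y

lemma PlD_L_add (j : ℕ) (e f : P → ℕ) : PlD_L j (e + f) = PlD_L j e + PlD_L j f := by
  unfold PlD_L
  rw [← Finset.sum_add_distrib]
  rfl

lemma PlD_L_sg (j : ℕ) (a : P) : PlD_L j (sg a) = if lev a = j then 1 else 0 := by
  unfold PlD_L
  simp only [PlD_sg]
  rw [Finset.sum_ite_eq' (lv P j) a (fun _ => 1)]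
  simp only [mem_lv]

lemma PlD_L_cl (H : Gr P r) {i j : ℕ} {z : P} (hz : lev z = i + 2) (hj : j ≠ i + 1) :
    PlD_L j (cl z) = if i + 2 = j then 1 else 0 := by
  have h : PlD_L j (cl z) = PlD_L j (sg z) := by
    unfold PlD_L
    refine Finset.sum_congr rfl fun y hy => ?_
    rw [mem_lv] at hy
    rw [PlD_cl H hz (by omega), PlD_sg]
  rw [h, PlD_L_sg, hz]

lemma PlD_L_cu (H : Gr P r) {i j : ℕ} {x : P} (hx : lev x + 2 = i) (hj : j + 1 ≠ i) :
    PlD_L j (cu x) = if lev x = j then 1 else 0 := by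
  have h : PlD_L j (cu x) = PlD_L j (sg x) := by
    unfold PlD_L
    refine Finset.sum_congr rfl fun y hy => ?_
    rw [mem_lv] at hy
    rw [PlD_cu H hx (by omega), PlD_sg]
  rw [h, PlD_L_sg]

/-- The five images are disjoint and the five maps injective: `cl z + sg z` has label `2` at `z` of level `i+2`
and nothing at levels `i`, `i-2`; `cl z + sg v` has labels at most `1`, a positive label at level `i+2`
(only at `z`) and at level `i` (only at `v`), none at level `i-2`; `cu x + sg x`, `cu x + sg v` dually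
(level `i-2`, none at `i+2`); `cl z + cu x` has positive labels at `z`, `x` and none at level `i`.
`Finset.sum_union`, `Finset.sum_image`. -/
theorem sum_S42 (H : Gr P r) {i : ℕ} (f : (P → ℕ) → A) :
    ∑ e ∈ S42 P i, f e = ∑ z ∈ Z3 P i, f (cl z + sg z) + ∑ p ∈ ZV P i, f (cl p.1 + sg p.2) +
      ∑ x ∈ X3 P i, f (cu x + sg x) + ∑ p ∈ XV P i, f (cu p.1 + sg p.2) +
      ∑ p ∈ CC P i, f (cl p.1 + cu p.2) := by
  classical
  have hZ3 : ∀ z ∈ Z3 P i, lev z = i + 2 := fun z hz => (mem_Z3.1 hz).1
  have hX3 : ∀ x ∈ X3 P i, lev x + 2 = i := fun x hx => (mem_X3.1 hx).1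
  have hZV : ∀ p ∈ ZV P i, lev p.1 = i + 2 ∧ lev p.2 = i := fun p hp =>
    ⟨(mem_Z3.1 (mem_ZV.1 hp).1).1, (mem_sts.1 (mem_ZV.1 hp).2.1).1⟩
  have hXV : ∀ p ∈ XV P i, lev p.1 + 2 = i ∧ lev p.2 = i := fun p hp =>
    ⟨(mem_X3.1 (mem_XV.1 hp).1).1, (mem_stD.1 (mem_XV.1 hp).2.1).1⟩
  have hCC : ∀ p ∈ CC P i, lev p.1 = i + 2 ∧ lev p.2 + 2 = i := fun p hp =>
    ⟨(PlD_mem_PD.1 (mem_CC.1 hp).1).1, (PlD_mem_PU.1 (mem_CC.1 hp).2.1).1⟩
  -- the level sums
  have a1 : ∀ e ∈ (Z3 P i).image (fun z => cl z + sg z), PlD_L (i + 2) e = 2 := by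
    intro e he
    obtain ⟨z, hz, rfl⟩ := mem_image.1 he
    rw [PlD_L_add, PlD_L_cl H (hZ3 z hz) (by omega), PlD_L_sg, if_pos rfl, if_pos (hZ3 z hz)]
  have a2 : ∀ e ∈ (ZV P i).image (fun p => cl p.1 + sg p.2),
      PlD_L (i + 2) e = 1 ∧ PlD_L i e = 1 := by
    intro e he
    obtain ⟨p, hp, rfl⟩ := mem_image.1 he
    have h := hZV p hp
    rw [PlD_L_add, PlD_L_add, PlD_L_cl H h.1 (by omega), PlD_L_cl H h.1 (by omega), PlD_L_sg,
      PlD_L_sg, if_pos rfl, if_neg (by omega), if_neg (by omega), if_pos h.2]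
    omega
  have a3 : ∀ e ∈ (X3 P i).image (fun x => cu x + sg x),
      PlD_L (i + 2) e = 0 ∧ PlD_L i e = 0 := by
    intro e he
    obtain ⟨x, hx, rfl⟩ := mem_image.1 he
    have h := hX3 x hx
    rw [PlD_L_add, PlD_L_add, PlD_L_cu H h (by omega), PlD_L_cu H h (by omega), PlD_L_sg,
      PlD_L_sg, if_neg (by omega), if_neg (by omega)]
    omega
  have a4 : ∀ e ∈ (XV P i).image (fun p => cu p.1 + sg p.2),
      PlD_L (i + 2) e = 0 ∧ PlD_L i e = 1 := by
    intro e he
    obtain ⟨p, hp, rfl⟩ := mem_image.1 he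
    have h := hXV p hp
    rw [PlD_L_add, PlD_L_add, PlD_L_cu H h.1 (by omega), PlD_L_cu H h.1 (by omega), PlD_L_sg,
      PlD_L_sg, if_neg (by omega), if_neg (by omega), if_neg (by omega), if_pos h.2]
    omega
  have a5 : ∀ e ∈ (CC P i).image (fun p => cl p.1 + cu p.2),
      PlD_L (i + 2) e = 1 ∧ PlD_L i e = 0 := by
    intro e he
    obtain ⟨p, hp, rfl⟩ := mem_image.1 he
    have h := hCC p hp
    rw [PlD_L_add, PlD_L_add, PlD_L_cl H h.1 (by omega), PlD_L_cl H h.1 (by omega),
      PlD_L_cu H h.2 (by omega), PlD_L_cu H h.2 (by omega), if_pos rfl, if_neg (by omega),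
      if_neg (by omega), if_neg (by omega)]
    omega
  have d12 : Disjoint ((Z3 P i).image (fun z => cl z + sg z))
      ((ZV P i).image (fun p => cl p.1 + sg p.2)) := by
    rw [Finset.disjoint_left]
    intro e h1 h2
    have := a1 e h1
    have := a2 e h2
    omega
  have d3 : Disjoint ((Z3 P i).image (fun z => cl z + sg z) ∪
      (ZV P i).image (fun p => cl p.1 + sg p.2)) ((X3 P i).image (fun x => cu x + sg x)) := by
    rw [Finset.disjoint_left]
    intro e h1 h2
    have h3 := a3 e h2
    rcases mem_union.1 h1 with h1 | h1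
    · have := a1 e h1
      omega
    · have := a2 e h1
      omega
  have d4 : Disjoint ((Z3 P i).image (fun z => cl z + sg z) ∪
      (ZV P i).image (fun p => cl p.1 + sg p.2) ∪ (X3 P i).image (fun x => cu x + sg x))
      ((XV P i).image (fun p => cu p.1 + sg p.2)) := by
    rw [Finset.disjoint_left]
    intro e h1 h2
    have h3 := a4 e h2
    rcases mem_union.1 h1 with h1 | h1
    · rcases mem_union.1 h1 with h1 | h1
      · have := a1 e h1
        omega
      · have := a2 e h1
        omega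
    · have := a3 e h1
      omega
  have d5 : Disjoint ((Z3 P i).image (fun z => cl z + sg z) ∪
      (ZV P i).image (fun p => cl p.1 + sg p.2) ∪ (X3 P i).image (fun x => cu x + sg x) ∪
      (XV P i).image (fun p => cu p.1 + sg p.2)) ((CC P i).image (fun p => cl p.1 + cu p.2)) := by
    rw [Finset.disjoint_left]
    intro e h1 h2
    have h3 := a5 e h2
    rcases mem_union.1 h1 with h1 | h1
    · rcases mem_union.1 h1 with h1 | h1
      · rcases mem_union.1 h1 with h1 | h1
        · have := a1 e h1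
          omega
        · have := a2 e h1
          omega
      · have := a3 e h1
        omega
    · have := a4 e h1
      omega
  unfold S42
  rw [Finset.sum_union d5, Finset.sum_union d4, Finset.sum_union d3, Finset.sum_union d12]
  rw [Finset.sum_image, Finset.sum_image, Finset.sum_image, Finset.sum_image, Finset.sum_image]
  · -- CC
    intro p hp q hq hpq
    have h1 := hCC p hp
    have h2 := hCC q hq
    have e1 := congrFun hpq p.1
    have e2 := congrFun hpq p.2
    simp only [Pi.add_apply] at e1 e2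
    rw [PlD_cl H h1.1 (by omega), PlD_cl H h2.1 (by omega), PlD_cu H h1.2 (by omega),
      PlD_cu H h2.2 (by omega), if_pos rfl, if_neg (fun h => by rw [h] at h1; omega)] at e1
    rw [PlD_cl H h1.1 (by omega), PlD_cl H h2.1 (by omega), PlD_cu H h1.2 (by omega),
      PlD_cu H h2.2 (by omega), if_pos rfl, if_neg (fun h => by rw [h] at h1; omega),
      if_neg (fun h => by rw [← h] at h2; omega)] at e2
    rw [if_neg (c := p.1 = q.2) (fun h => by rw [← h] at h2; omega)] at e1
    refine Prod.ext ?_ ?_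
    · by_contra hne
      rw [if_neg hne] at e1
      omega
    · by_contra hne
      rw [if_neg hne] at e2
      omega
  · -- XV
    intro p hp q hq hpq
    have h1 := hXV p hp
    have h2 := hXV q hq
    have e1 := congrFun hpq p.1
    have e2 := congrFun hpq p.2
    simp only [Pi.add_apply] at e1 e2
    rw [PlD_cu H h1.1 (by omega), PlD_cu H h2.1 (by omega), PlD_sg, PlD_sg, if_pos rfl,
      if_neg (c := p.1 = p.2) (fun h => by rw [h] at h1; omega),
      if_neg (c := p.1 = q.2) (fun h => by rw [← h] at h2; omega)] at e1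
    rw [PlD_cu H h1.1 (by omega), PlD_cu H h2.1 (by omega), PlD_sg, PlD_sg, if_pos rfl,
      if_neg (c := p.2 = p.1) (fun h => by rw [← h] at h1; omega),
      if_neg (c := p.2 = q.1) (fun h => by rw [← h] at h2; omega)] at e2
    refine Prod.ext ?_ ?_
    · by_contra hne
      rw [if_neg hne] at e1
      omega
    · by_contra hne
      rw [if_neg hne] at e2
      omega
  · -- X3
    intro z hz z' hz' hzz
    have h1 := hX3 z hz
    have h2 := hX3 z' hz'
    have e1 := congrFun hzz z
    simp only [Pi.add_apply] at e1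
    rw [PlD_cu H h1 (by omega), PlD_cu H h2 (by omega), PlD_sg, PlD_sg, if_pos rfl] at e1
    by_contra hne
    rw [if_neg hne] at e1
    omega
  · -- ZV
    intro p hp q hq hpq
    have h1 := hZV p hp
    have h2 := hZV q hq
    have e1 := congrFun hpq p.1
    have e2 := congrFun hpq p.2
    simp only [Pi.add_apply] at e1 e2
    rw [PlD_cl H h1.1 (by omega), PlD_cl H h2.1 (by omega), PlD_sg, PlD_sg, if_pos rfl,
      if_neg (c := p.1 = p.2) (fun h => by rw [h] at h1; omega),
      if_neg (c := p.1 = q.2) (fun h => by rw [← h] at h2; omega)] at e1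
    rw [PlD_cl H h1.1 (by omega), PlD_cl H h2.1 (by omega), PlD_sg, PlD_sg, if_pos rfl,
      if_neg (c := p.2 = p.1) (fun h => by rw [← h] at h1; omega),
      if_neg (c := p.2 = q.1) (fun h => by rw [← h] at h2; omega)] at e2
    refine Prod.ext ?_ ?_
    · by_contra hne
      rw [if_neg hne] at e1
      omega
    · by_contra hne
      rw [if_neg hne] at e2
      omega
  · -- Z3
    intro z hz z' hz' hzz
    have h1 := hZ3 z hz
    have h2 := hZ3 z' hz'
    have e1 := congrFun hzz z
    simp only [Pi.add_apply] at e1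
    rw [PlD_cl H h1 (by omega), PlD_cl H h2 (by omega), PlD_sg, PlD_sg, if_pos rfl] at e1
    by_contra hne
    rw [if_neg hne] at e1
    omega

/-- `Fe_cl_cu`, `II_Fe`, `II_chi`: `(uc z).card = (dc x).card = 1`, `|sts| = |stD| = 2` (the sites of the
unique upper cover, which is double), `b ≥ 4` because they are disjoint. -/
theorem trm_cl_cu (H : Gr P r) {i : ℕ} (hi : i ≤ r) {z x : P} (hz : z ∈ PD P i)
    (hx : x ∈ PU P i) (hd : Disjoint (sts i z) (stD i x)) :
    trm i (cl z + cu x) = xi * xx ^ 2 * dd ^ ((lv P i).card - 2) := by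
  classical
  have hz' := PlD_mem_PD.1 hz
  have hx' := PlD_mem_PU.1 hx
  obtain ⟨w, hw1, hw2⟩ := hz'.2.2
  obtain ⟨u, hu1, hu2⟩ := hx'.2.2
  have huc : uc z = {w} := by
    obtain ⟨a, ha⟩ := Finset.card_eq_one.1 hz'.2.1
    have h : w ∈ uc z := mem_uc.2 hw1
    rw [ha, mem_singleton] at h
    rw [ha, h]
  have hdc : dc x = {u} := by
    obtain ⟨a, ha⟩ := Finset.card_eq_one.1 hx'.2.1
    have h : u ∈ dc x := mem_dc.2 hu1
    rw [ha, mem_singleton] at h
    rw [ha, h]
  have hs : sts i z = uc w := ClE_sts H hz'.1 huc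
  have ht : stD i x = dc u := ClE_stD H hx'.1 hdc
  have hs1 : sts i z ⊆ lv P i := fun v hv => mem_lv.2 (mem_sts.1 hv).1
  have ht1 : stD i x ⊆ lv P i := fun v hv => mem_lv.2 (mem_stD.1 hv).1
  have hcard : 4 ≤ (lv P i).card := by
    have h1 := Finset.card_le_card (Finset.union_subset hs1 ht1)
    rw [Finset.card_union_of_disjoint hd, hs, ht, hw2, hu2] at h1
    omega
  have hfun : Fe i (cl z + cu x) = fun S => (xi * dd ^ 2) * chi (sts i z) (stD i x) S := by
    funext S
    rw [Fe_cl_cu H hi hz'.1 hx'.1 S, hz'.2.1, hx'.2.1, pow_one]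
  rw [← II_Fe, hfun, ExpD_II_mul, II_chi hs1 ht1, if_pos hd, hs, ht, hw2, hu2]
  obtain ⟨b, hb⟩ : ∃ b, (lv P i).card = b + 4 := ⟨(lv P i).card - 4, by omega⟩
  rw [hb, show b + 4 - 2 - 2 = b by omega, show b + 4 - 2 = b + 2 by omega]
  ring

end Pool.Agent.GaussPoset.Win

end

/-! From `Pool.Agent.W_448win_h16.PlE` -/

section

/-! Counting for identity (42). -/

namespace Pool.Agent.GaussPoset.Win

set_option linter.unusedSectionVars false

open Finset

universe u

variable {P : Type u} [Fintype P] [PartialOrder P] [DecidableEq P] {r : ℕ}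

/-- A `z` with three sites has at most one common site: if `v ≠ v'` are both above both upper covers
`w ≠ w'` (`(uc z).card = 2` by `up_le_four`) then `uc w = uc w' = {v, v'}` and `up i z = 2`
(`mem_sts_iff`). So the first projection is injective on `ZV` with image in `Z3`. -/
theorem card_ZV_le (H : Gr P r) {i : ℕ} : (ZV P i).card ≤ (Z3 P i).card ∧
    ((ZV P i).card = (Z3 P i).card → ∀ z ∈ Z3 P i, ∃ v, (z, v) ∈ ZV P i) := by
  classical
  have hinj : Set.InjOn (fun p : P × P => p.1) (ZV P i : Set (P × P)) := by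
    intro p hp q hq hpq
    have hp' := mem_ZV.1 (Finset.mem_coe.1 hp)
    have hq' := mem_ZV.1 (Finset.mem_coe.1 hq)
    have h1 : p.1 = q.1 := hpq
    refine Prod.ext h1 ?_
    by_contra hne
    have hz := mem_Z3.1 hp'.1
    have hsub : sts i p.1 ⊆ {p.2, q.2} := by
      intro v hv
      obtain ⟨w, hw, hvw⟩ := (mem_sts_iff H hz.1).1 hv
      have h2 := hp'.2.2 w hw
      have h3 := hq'.2.2 w (h1 ▸ hw)
      have h4 : ({p.2, q.2} : Finset P) ⊆ uc w := by
        intro x hx
        rw [mem_insert, mem_singleton] at hx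
        rcases hx with rfl | rfl
        · exact h2
        · exact h3
      have h5 : ({p.2, q.2} : Finset P) = uc w :=
        Finset.eq_of_subset_of_card_le h4 (by rw [Finset.card_pair hne]; exact uc_card_le H w)
      rw [h5]
      exact hvw
    have h6 := Finset.card_le_card hsub
    rw [card_sts, hz.2, Finset.card_pair hne] at h6
    omega
  have hmap : ∀ p ∈ ZV P i, p.1 ∈ Z3 P i := fun p hp => (mem_ZV.1 hp).1
  have himg : (ZV P i).image (fun p => p.1) ⊆ Z3 P i := by
    intro z hz
    obtain ⟨p, hp, rfl⟩ := mem_image.1 hz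
    exact hmap p hp
  have hcard : ((ZV P i).image (fun p => p.1)).card = (ZV P i).card :=
    Finset.card_image_of_injOn hinj
  refine ⟨hcard ▸ Finset.card_le_card himg, fun heq z hz => ?_⟩
  have h7 : (ZV P i).image (fun p => p.1) = Z3 P i :=
    Finset.eq_of_subset_of_card_le himg (by rw [hcard, heq])
  rw [← h7] at hz
  obtain ⟨p, hp, rfl⟩ := mem_image.1 hz
  exact ⟨p.2, hp⟩

/-- mirror image of `card_ZV_le` -/
theorem card_XV_le (H : Gr P r) {i : ℕ} (hi : i ≤ r) : (XV P i).card ≤ (X3 P i).card ∧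
    ((XV P i).card = (X3 P i).card → ∀ x ∈ X3 P i, ∃ v, (x, v) ∈ XV P i) := by
  classical
  have hinj : Set.InjOn (fun p : P × P => p.1) (XV P i : Set (P × P)) := by
    intro p hp q hq hpq
    have hp' := mem_XV.1 (Finset.mem_coe.1 hp)
    have hq' := mem_XV.1 (Finset.mem_coe.1 hq)
    have h1 : p.1 = q.1 := hpq
    refine Prod.ext h1 ?_
    by_contra hne
    have hz := mem_X3.1 hp'.1
    have hsub : stD i p.1 ⊆ {p.2, q.2} := by
      intro v hv
      obtain ⟨w, hw, hvw⟩ := (mem_stD_iff H hz.1).1 hv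
      have h2 := hp'.2.2 w hw
      have h3 := hq'.2.2 w (h1 ▸ hw)
      have h4 : ({p.2, q.2} : Finset P) ⊆ dc w := by
        intro x hx
        rw [mem_insert, mem_singleton] at hx
        rcases hx with rfl | rfl
        · exact h2
        · exact h3
      have h5 : ({p.2, q.2} : Finset P) = dc w :=
        Finset.eq_of_subset_of_card_le h4 (by rw [Finset.card_pair hne]; exact dc_card_le H w)
      rw [h5]
      exact hvw
    have h6 := Finset.card_le_card hsub
    rw [card_stD, hz.2, Finset.card_pair hne] at h6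
    omega
  have hmap : ∀ p ∈ XV P i, p.1 ∈ X3 P i := fun p hp => (mem_XV.1 hp).1
  have himg : (XV P i).image (fun p => p.1) ⊆ X3 P i := by
    intro z hz
    obtain ⟨p, hp, rfl⟩ := mem_image.1 hz
    exact hmap p hp
  have hcard : ((XV P i).image (fun p => p.1)).card = (XV P i).card :=
    Finset.card_image_of_injOn hinj
  refine ⟨hcard ▸ Finset.card_le_card himg, fun heq z hz => ?_⟩
  have h7 : (XV P i).image (fun p => p.1) = X3 P i :=
    Finset.eq_of_subset_of_card_le himg (by rw [hcard, heq])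
  rw [← h7] at hz
  obtain ⟨p, hp, rfl⟩ := mem_image.1 hz
  exact ⟨p.2, hp⟩

end Pool.Agent.GaussPoset.Win

end

/-! From `Pool.Agent.W_448s5_h63.FourA` -/

section

/-! Two elements of `PD` with disjoint sites: the configuration `cl z + cl z'` (general identity (42),
any number of maximal elements). -/

namespace Pool.Agent.GaussPoset.Win

set_option linter.unusedSectionVars false

open Finset

universe u

variable {P : Type u} [Fintype P] [PartialOrder P] [DecidableEq P] {r : ℕ}

/-- label one on `z`, `z'` and their only upper covers `w ≠ w'`: `w` and `w'` are free, `z` and `z'` have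
`GU`, the sites above `w` or `w'` have `FD`; all other lower elements have label `0`, `GU` and no `FD`. -/
theorem Fe_cl_cl (H : Gr P r) {i : ℕ} (hi : i ≤ r) {z z' w w' : P} (hz : lev z = i + 2)
    (hz' : lev z' = i + 2) (hw : uc z = {w}) (hw' : uc z' = {w'}) (hne : w ≠ w') (S : Finset P) :
    Fe i (cl z + cl z') S = dd ^ 2 * chi (sts i z ∪ sts i z') ∅ S := by
  classical
  set e : P → ℕ := cl z + cl z' with he
  have hev : ∀ x, e x = cl z x + cl z' x := fun x => rfl
  have hmw : w ∈ uc z := by rw [hw]; exact mem_singleton_self w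
  have hmw' : w' ∈ uc z' := by rw [hw']; exact mem_singleton_self w'
  have hlw := ExpC_lev_uc H hz hmw
  have hlw' := ExpC_lev_uc H hz' hmw'
  have hzz : z ≠ z' := by
    rintro rfl
    rw [hw] at hw'
    exact hne (Finset.singleton_injective hw')
  have hcl : ∀ x, 0 < cl z x → x = z ∨ x = w := by
    intro x hx
    rcases ExpC_cl_pos hx with h | h
    · exact Or.inl h
    · rw [hw, mem_singleton] at h
      exact Or.inr h
  have hcl' : ∀ x, 0 < cl z' x → x = z' ∨ x = w' := by
    intro x hx
    rcases ExpC_cl_pos hx with h | h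
    · exact Or.inl h
    · rw [hw', mem_singleton] at h
      exact Or.inr h
  have hle1 : ∀ x, e x ≤ 1 := by
    intro x
    rw [hev]
    have h1 := ExpC_cl_le z x
    have h2 := ExpC_cl_le z' x
    by_contra hcon
    have h3 := hcl x (by omega)
    have h4 := hcl' x (by omega)
    rcases h3 with h3 | h3 <;> rcases h4 with h4 | h4
    · exact hzz (h3.symm.trans h4)
    · rw [h3] at h4; rw [h4] at hz; omega
    · rw [h3] at h4; rw [← h4] at hz'; omega
    · exact hne (h3.symm.trans h4)
  have hez : e z = 1 := by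
    have h1 := hle1 z
    have h2 : cl z z = 1 := ExpC_cl_z z
    have h3 := hev z
    omega
  have hez' : e z' = 1 := by
    have h1 := hle1 z'
    have h2 : cl z' z' = 1 := ExpC_cl_z z'
    have h3 := hev z'
    omega
  have hew : e w = 1 := by
    have h1 := hle1 w
    have h2 : cl z w = 1 := ExpC_cl_uc hmw
    have h3 := hev w
    omega
  have hew' : e w' = 1 := by
    have h1 := hle1 w'
    have h2 : cl z' w' = 1 := ExpC_cl_uc hmw'
    have h3 := hev w'
    omega
  have hpos : ∀ {x}, 0 < e x → (x = z ∨ x = z') ∨ (x = w ∨ x = w') := by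
    intro x hx
    rw [hev] at hx
    rcases Nat.eq_zero_or_pos (cl z x) with h | h
    · rcases hcl' x (by omega) with h1 | h1
      · exact Or.inl (Or.inr h1)
      · exact Or.inr (Or.inr h1)
    · rcases hcl x h with h1 | h1
      · exact Or.inl (Or.inl h1)
      · exact Or.inr (Or.inl h1)
  have hlow : ∀ x, 0 < e x → i < lev x := by
    intro x hx
    rcases hpos hx with (h | h) | (h | h) <;> rw [h] <;> omega
  have h0 : ∀ u, lev u < i → e u = 0 := by
    intro u hu
    by_contra hcon
    have := hlow u (Nat.pos_of_ne_zero hcon)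
    omega
  have hs0 : ∀ u, lev u = i → e u = 0 := by
    intro u hu
    by_contra hcon
    have := hlow u (Nat.pos_of_ne_zero hcon)
    omega
  have hnear : ∀ {x}, lev x = i + 1 → 0 < e x → x = w ∨ x = w' := by
    intro x hx hx2
    rcases hpos hx2 with (h | h) | h
    · rw [h] at hx; omega
    · rw [h] at hx; omega
    · exact h
  have hFD : ∀ x, i < lev x → ¬ FD e x := by
    rintro x hx ⟨t, ht, hlt⟩
    have h1 := hle1 t
    have h2 : e x = 0 := by omega
    have h4 := ExpC_cov H ht
    rcases hpos (x := t) (by omega) with (h | h) | (h | h)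
    · have h3 : x ∈ uc z := mem_uc.2 (h ▸ ht)
      rw [hw, mem_singleton] at h3
      rw [h3] at h2; omega
    · have h3 : x ∈ uc z' := mem_uc.2 (h ▸ ht)
      rw [hw', mem_singleton] at h3
      rw [h3] at h2; omega
    · rw [h] at h4; omega
    · rw [h] at h4; omega
  have hAL : AL i e = sts i z ∪ sts i z' := by
    ext v
    unfold AL
    rw [Finset.mem_filter, mem_lv, Finset.mem_union, mem_sts_iff H hz, mem_sts_iff H hz']
    constructor
    · rintro ⟨hv, t, ht, hlt⟩
      have h3 := ExpC_cov H ht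
      rcases hnear (x := t) (by omega) (by omega) with h | h
      · exact Or.inl ⟨w, hmw, mem_uc.2 (h ▸ ht)⟩
      · exact Or.inr ⟨w', hmw', mem_uc.2 (h ▸ ht)⟩
    · rintro (⟨t, ht, htv⟩ | ⟨t, ht, htv⟩)
      · rw [hw, mem_singleton] at ht
        subst ht
        have h3 := ExpC_cov H (mem_uc.1 htv)
        refine ⟨by omega, t, mem_uc.1 htv, ?_⟩
        rw [hs0 v (by omega), hew]
        exact one_pos
      · rw [hw', mem_singleton] at ht
        subst ht
        have h3 := ExpC_cov H (mem_uc.1 htv)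
        refine ⟨by omega, t, mem_uc.1 htv, ?_⟩
        rw [hs0 v (by omega), hew']
        exact one_pos
  rw [ExpC_Fe H hi h0 ∅ {w, w'} ?_ ?_ ?_, hAL, Finset.card_pair hne]
  · simp
  · intro x
    constructor
    · rintro ⟨h1, h2⟩
      exact absurd h2 (hFD x h1)
    · intro h
      exact absurd h (Finset.notMem_empty _)
  · intro x
    rw [mem_insert, mem_singleton]
    constructor
    · rintro ⟨h1, -, h3⟩
      by_contra hx
      apply h3
      by_cases hxz : x = z
      · exact ⟨w, by rw [hxz]; exact mem_uc.1 hmw, by rw [hxz, hez, hew]⟩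
      · by_cases hxz' : x = z'
        · exact ⟨w', by rw [hxz']; exact mem_uc.1 hmw', by rw [hxz', hez', hew']⟩
        · refine ExpC_GU H (by omega) ?_
          by_contra hne2
          rcases hpos (Nat.pos_of_ne_zero hne2) with (h | h) | h
          · exact hxz h
          · exact hxz' h
          · exact hx h
    · intro hx
      have h1 : lev x = i + 1 ∧ e x = 1 := by
        rcases hx with h | h <;> rw [h] <;> exact ⟨by omega, by omega⟩
      refine ⟨by omega, hFD x (by omega), ?_⟩
      rintro ⟨y, hy, hle⟩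
      have h2 := ExpC_cov H hy
      have h3 := hs0 y (by omega)
      omega
  · rintro x h1 ⟨h2, -⟩
    exact hFD x h1 h2

/-- the unique upper cover of an element of `PD` -/
lemma S5_uc_PD {i : ℕ} {z : P} (hz : z ∈ PD P i) : ∃ w, uc z = {w} ∧ (uc w).card = 2 := by
  have hz' := PlD_mem_PD.1 hz
  obtain ⟨w, hw1, hw2⟩ := hz'.2.2
  refine ⟨w, ?_, hw2⟩
  obtain ⟨a, ha⟩ := Finset.card_eq_one.1 hz'.2.1
  have h : w ∈ uc z := mem_uc.2 hw1
  rw [ha, mem_singleton] at h
  rw [ha, h]

/-- the unique lower cover of an element of `PU` -/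
lemma S5_dc_PU {i : ℕ} {x : P} (hx : x ∈ PU P i) : ∃ u, dc x = {u} ∧ (dc u).card = 2 := by
  have hx' := PlD_mem_PU.1 hx
  obtain ⟨u, hu1, hu2⟩ := hx'.2.2
  refine ⟨u, ?_, hu2⟩
  obtain ⟨a, ha⟩ := Finset.card_eq_one.1 hx'.2.1
  have h : u ∈ dc x := mem_dc.2 hu1
  rw [ha, mem_singleton] at h
  rw [ha, h]

lemma S5_card_sts (H : Gr P r) {i : ℕ} {z : P} (hz : z ∈ PD P i) : (sts i z).card = 2 := by
  obtain ⟨w, hw, hw2⟩ := S5_uc_PD hz
  rw [ClE_sts H (PlD_mem_PD.1 hz).1 hw, hw2]

lemma S5_card_stD (H : Gr P r) {i : ℕ} {x : P} (hx : x ∈ PU P i) : (stD i x).card = 2 := by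
  obtain ⟨u, hu, hu2⟩ := S5_dc_PU hx
  rw [ClE_stD H (PlD_mem_PU.1 hx).1 hu, hu2]

/-- two elements of `PD` with disjoint sites: the value of the term -/
theorem trm_cl_cl (H : Gr P r) {i : ℕ} (hi : i ≤ r) {z z' : P} (hz : z ∈ PD P i)
    (hz' : z' ∈ PD P i) (hd : Disjoint (sts i z) (sts i z')) :
    4 ≤ (lv P i).card ∧ trm i (cl z + cl z') = xx ^ 4 * dd ^ ((lv P i).card - 2) := by
  classical
  obtain ⟨w, hw, hw2⟩ := S5_uc_PD hz
  obtain ⟨w', hw', hw2'⟩ := S5_uc_PD hz'
  have hc := S5_card_sts H hz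
  have hc' := S5_card_sts H hz'
  have hlz := (PlD_mem_PD.1 hz).1
  have hlz' := (PlD_mem_PD.1 hz').1
  have hne : w ≠ w' := by
    rintro rfl
    rw [ClE_sts H hlz hw, ClE_sts H hlz' hw', disjoint_self] at hd
    have h1 : (uc w).card = 0 := by rw [Finset.card_eq_zero]; exact hd
    omega
  have hs1 : sts i z ∪ sts i z' ⊆ lv P i := by
    intro v hv
    rcases Finset.mem_union.1 hv with h | h
    · exact mem_lv.2 (mem_sts.1 h).1
    · exact mem_lv.2 (mem_sts.1 h).1
  have hcu : (sts i z ∪ sts i z').card = 4 := by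
    rw [Finset.card_union_of_disjoint hd, hc, hc']
  have hcard : 4 ≤ (lv P i).card := by
    rw [← hcu]; exact Finset.card_le_card hs1
  refine ⟨hcard, ?_⟩
  have hfun : Fe i (cl z + cl z') = fun S => dd ^ 2 * chi (sts i z ∪ sts i z') ∅ S := by
    funext S
    exact Fe_cl_cl H hi hlz hlz' hw hw' hne S
  rw [← II_Fe, hfun, ExpD_II_mul, II_chi hs1 (Finset.empty_subset _),
    if_pos (Finset.disjoint_empty_right _), hcu, Finset.card_empty]
  obtain ⟨b, hb⟩ : ∃ b, (lv P i).card = b + 4 := ⟨(lv P i).card - 4, by omega⟩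
  rw [hb, show b + 4 - 4 - 0 = b by omega, show b + 4 - 2 = b + 2 by omega]
  ring

end Pool.Agent.GaussPoset.Win

end

/-! From `Pool.Agent.W_448s5_h63.FourC` -/

section

/-! The mirror image of `trm_cl_cl`, and the families of the general identity (42). -/

namespace Pool.Agent.GaussPoset.Win

set_option linter.unusedSectionVars false

open Finset

universe u

variable {P : Type u} [Fintype P] [PartialOrder P] [DecidableEq P] {r : ℕ}

lemma S5_cu_pos {x y : P} (h : 0 < cu x y) : y = x ∨ y ∈ dc x := by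
  unfold cu at h
  by_contra hcon
  rw [if_neg hcon] at h
  omega

lemma S5_cu_le (x y : P) : cu x y ≤ 1 := by
  unfold cu; split_ifs <;> omega

/-- mirror image of `trm_cl_cl` -/
theorem trm_cu_cu (H : Gr P r) {i : ℕ} (hi : i ≤ r) {x x' : P} (hx : x ∈ PU P i)
    (hx' : x' ∈ PU P i) (hd : Disjoint (stD i x) (stD i x')) :
    4 ≤ (lv P i).card ∧ trm i (cu x + cu x') = xi ^ 2 * dd ^ ((lv P i).card - 2) := by
  classical
  obtain ⟨u, hu, hu2⟩ := S5_dc_PU hx
  obtain ⟨u', hu', hu2'⟩ := S5_dc_PU hx'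
  have hc := S5_card_stD H hx
  have hc' := S5_card_stD H hx'
  have hlx := (PlD_mem_PU.1 hx).1
  have hlx' := (PlD_mem_PU.1 hx').1
  have hne : u ≠ u' := by
    rintro rfl
    rw [ClE_stD H hlx hu, ClE_stD H hlx' hu', disjoint_self] at hd
    have h1 : (dc u).card = 0 := by rw [Finset.card_eq_zero]; exact hd
    omega
  have hs1 : stD i x ∪ stD i x' ⊆ lv P i := by
    intro v hv
    rcases Finset.mem_union.1 hv with h | h
    · exact mem_lv.2 (mem_stD.1 h).1
    · exact mem_lv.2 (mem_stD.1 h).1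
  have hcu : (stD i x ∪ stD i x').card = 4 := by
    rw [Finset.card_union_of_disjoint hd, hc, hc']
  have hcard : 4 ≤ (lv P i).card := by
    rw [← hcu]; exact Finset.card_le_card hs1
  refine ⟨hcard, ?_⟩
  have hmu : u ∈ dc x := by rw [hu]; exact mem_singleton_self u
  have hmu' : u' ∈ dc x' := by rw [hu']; exact mem_singleton_self u'
  have hlu : lev u + 1 = i := by have := lev_dc H hmu; omega
  have hlu' : lev u' + 1 = i := by have := lev_dc H hmu'; omega
  have hxx : x ≠ x' := by
    rintro rfl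
    rw [hu] at hu'
    exact hne (Finset.singleton_injective hu')
  set e : P → ℕ := cu x + cu x' with he
  have hev : ∀ y, e y = cu x y + cu x' y := fun y => rfl
  have hcl : ∀ y, 0 < cu x y → y = x ∨ y = u := by
    intro y hy
    rcases S5_cu_pos hy with h | h
    · exact Or.inl h
    · rw [hu, mem_singleton] at h
      exact Or.inr h
  have hcl' : ∀ y, 0 < cu x' y → y = x' ∨ y = u' := by
    intro y hy
    rcases S5_cu_pos hy with h | h
    · exact Or.inl h
    · rw [hu', mem_singleton] at h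
      exact Or.inr h
  have hle1 : ∀ y, e y ≤ 1 := by
    intro y
    rw [hev]
    have h1 := S5_cu_le x y
    have h2 := S5_cu_le x' y
    by_contra hcon
    have h3 := hcl y (by omega)
    have h4 := hcl' y (by omega)
    rcases h3 with h3 | h3 <;> rcases h4 with h4 | h4
    · exact hxx (h3.symm.trans h4)
    · rw [h3] at h4; rw [h4] at hlx; omega
    · rw [h3] at h4; rw [← h4] at hlx'; omega
    · exact hne (h3.symm.trans h4)
  have hex : e x = 1 := by
    have h1 := hle1 x
    have h2 : cu x x = 1 := ExpD_cu_x x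
    have h3 := hev x
    omega
  have hex' : e x' = 1 := by
    have h1 := hle1 x'
    have h2 : cu x' x' = 1 := ExpD_cu_x x'
    have h3 := hev x'
    omega
  have heu : e u = 1 := by
    have h1 := hle1 u
    have h2 : cu x u = 1 := ExpD_cu_dc hmu
    have h3 := hev u
    omega
  have heu' : e u' = 1 := by
    have h1 := hle1 u'
    have h2 : cu x' u' = 1 := ExpD_cu_dc hmu'
    have h3 := hev u'
    omega
  have hpos : ∀ {y}, 0 < e y → (y = x ∨ y = x') ∨ (y = u ∨ y = u') := by
    intro y hy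
    rw [hev] at hy
    rcases Nat.eq_zero_or_pos (cu x y) with h | h
    · rcases hcl' y (by omega) with h1 | h1
      · exact Or.inl (Or.inr h1)
      · exact Or.inr (Or.inr h1)
    · rcases hcl y h with h1 | h1
      · exact Or.inl (Or.inl h1)
      · exact Or.inr (Or.inl h1)
  have hlow : ∀ y, 0 < e y → lev y < i := by
    intro y hy
    rcases hpos hy with (h | h) | (h | h) <;> rw [h] <;> omega
  have h0 : ∀ y, i ≤ lev y → e y = 0 := by
    intro y hy
    by_contra hcon
    have := hlow y (Nat.pos_of_ne_zero hcon)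
    omega
  have hnear : ∀ {y}, lev y + 1 = i → 0 < e y → y = u ∨ y = u' := by
    intro y hy hy2
    rcases hpos hy2 with (h | h) | h
    · rw [h] at hy; omega
    · rw [h] at hy; omega
    · exact h
  have key := ExpD_upp H (i := i) (e := e) (B := ∅) (C := {u, u'}) (D := stD i x ∪ stD i x')
    (fun z hz => h0 z hz.le) (fun v hv => absurd hv (Finset.notMem_empty v))
    (fun v hv => by
      rw [mem_insert, mem_singleton] at hv
      rcases hv with h | h <;> rw [h] <;> omega)
    (fun v hv => by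
      rcases Finset.mem_union.1 hv with h | h
      · exact (mem_stD.1 h).1
      · exact (mem_stD.1 h).1) (Finset.empty_subset _) ?_ ?_ ?_
  · rw [key, Finset.card_empty, Finset.sdiff_empty, Finset.card_pair hne, hcu]
    obtain ⟨b, hb⟩ : ∃ b, (lv P i).card = b + 4 := ⟨(lv P i).card - 4, by omega⟩
    rw [hb, show b + 4 - 4 = b by omega, show b + 4 - 2 = b + 2 by omega,
      show 2 + b = b + 2 by omega]
  · intro v hv
    refine ⟨?_, fun h => absurd h (Finset.notMem_empty v)⟩
    rintro ⟨y, hvy, hlt⟩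
    exfalso
    have h1 := hle1 y
    have h2 : e v = 0 := by omega
    have h4 := ExpC_cov H hvy
    rcases hpos (y := y) (by omega) with (h | h) | (h | h)
    · have h3 : v ∈ dc x := mem_dc.2 (h ▸ hvy)
      rw [hu, mem_singleton] at h3
      rw [h3] at h2; omega
    · have h3 : v ∈ dc x' := mem_dc.2 (h ▸ hvy)
      rw [hu', mem_singleton] at h3
      rw [h3] at h2; omega
    · rw [h] at h4; omega
    · rw [h] at h4; omega
  · intro v hv
    rw [mem_insert, mem_singleton]
    constructor
    · rintro ⟨z, hz, hle⟩ h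
      have h4 := ExpC_cov H hz
      have h5 : lev v + 1 = i ∧ e v = 1 := by
        rcases h with h | h <;> rw [h] <;> exact ⟨by omega, by omega⟩
      have h6 := h0 z (by omega)
      omega
    · intro h
      by_cases hvx : v = x
      · exact ⟨u, by rw [hvx]; exact mem_dc.1 hmu, by rw [hvx, hex, heu]⟩
      · by_cases hvx' : v = x'
        · exact ⟨u', by rw [hvx']; exact mem_dc.1 hmu', by rw [hvx', hex', heu']⟩
        · refine ExpC_GD H (by omega) ?_
          by_contra hne2
          rcases hpos (Nat.pos_of_ne_zero hne2) with (h1 | h1) | h1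
          · exact hvx h1
          · exact hvx' h1
          · exact h h1
  · intro w hw
    rw [Finset.mem_union, mem_stD_iff H hlx, mem_stD_iff H hlx']
    constructor
    · rintro ⟨y, hwy, hlt⟩
      have h3 := ExpC_cov H hwy
      rcases hnear (y := y) (by omega) (by omega) with h | h
      · exact Or.inl ⟨u, hmu, mem_dc.2 (h ▸ hwy)⟩
      · exact Or.inr ⟨u', hmu', mem_dc.2 (h ▸ hwy)⟩
    · rintro (⟨t, ht, htw⟩ | ⟨t, ht, htw⟩)
      · rw [hu, mem_singleton] at ht
        subst ht
        refine ⟨t, mem_dc.1 htw, ?_⟩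
        rw [h0 w hw.ge, heu]
        exact one_pos
      · rw [hu', mem_singleton] at ht
        subst ht
        refine ⟨t, mem_dc.1 htw, ?_⟩
        rw [h0 w hw.ge, heu']
        exact one_pos

/-- the sum of the configurations `cl z`, `z` in `T` -/
noncomputable def clS (T : Finset P) : P → ℕ := fun y => ∑ z ∈ T, cl z y

/-- the sum of the configurations `cu x`, `x` in `T` -/
noncomputable def cuS (T : Finset P) : P → ℕ := fun y => ∑ z ∈ T, cu z y

open Classical in
/-- pairs in `PD` with disjoint sites -/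
noncomputable def DDf (P : Type u) [Fintype P] [PartialOrder P] [DecidableEq P] (i : ℕ) :
    Finset (Finset P) := ((PD P i).powersetCard 2).filter
      (fun T => ∀ z ∈ T, ∀ z' ∈ T, z ≠ z' → Disjoint (sts i z) (sts i z'))

open Classical in
/-- pairs in `PU` with disjoint sites -/
noncomputable def DUf (P : Type u) [Fintype P] [PartialOrder P] [DecidableEq P] (i : ℕ) :
    Finset (Finset P) := ((PU P i).powersetCard 2).filter
      (fun T => ∀ z ∈ T, ∀ z' ∈ T, z ≠ z' → Disjoint (stD i z) (stD i z'))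

lemma mem_DDf {i : ℕ} {T : Finset P} : T ∈ DDf P i ↔ ∃ z z', z ∈ PD P i ∧ z' ∈ PD P i ∧ z ≠ z' ∧
    Disjoint (sts i z) (sts i z') ∧ T = {z, z'} := by
  classical
  unfold DDf
  rw [mem_filter, mem_powersetCard]
  constructor
  · rintro ⟨⟨h1, h2⟩, h3⟩
    obtain ⟨z, z', hne, rfl⟩ := Finset.card_eq_two.1 h2
    exact ⟨z, z', h1 (by simp), h1 (by simp), hne, h3 z (by simp) z' (by simp) hne, rfl⟩
  · rintro ⟨z, z', hz, hz', hne, hd, rfl⟩
    refine ⟨⟨?_, Finset.card_pair hne⟩, ?_⟩
    · intro x hx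
      rw [mem_insert, mem_singleton] at hx
      rcases hx with rfl | rfl
      · exact hz
      · exact hz'
    · intro a ha b hb hab
      rw [mem_insert, mem_singleton] at ha hb
      rcases ha with rfl | rfl <;> rcases hb with rfl | rfl
      · exact absurd rfl hab
      · exact hd
      · exact hd.symm
      · exact absurd rfl hab

lemma mem_DUf {i : ℕ} {T : Finset P} : T ∈ DUf P i ↔ ∃ z z', z ∈ PU P i ∧ z' ∈ PU P i ∧ z ≠ z' ∧
    Disjoint (stD i z) (stD i z') ∧ T = {z, z'} := by
  classical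
  unfold DUf
  rw [mem_filter, mem_powersetCard]
  constructor
  · rintro ⟨⟨h1, h2⟩, h3⟩
    obtain ⟨z, z', hne, rfl⟩ := Finset.card_eq_two.1 h2
    exact ⟨z, z', h1 (by simp), h1 (by simp), hne, h3 z (by simp) z' (by simp) hne, rfl⟩
  · rintro ⟨z, z', hz, hz', hne, hd, rfl⟩
    refine ⟨⟨?_, Finset.card_pair hne⟩, ?_⟩
    · intro x hx
      rw [mem_insert, mem_singleton] at hx
      rcases hx with rfl | rfl
      · exact hz
      · exact hz'
    · intro a ha b hb hab
      rw [mem_insert, mem_singleton] at ha hb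
      rcases ha with rfl | rfl <;> rcases hb with rfl | rfl
      · exact absurd rfl hab
      · exact hd
      · exact hd.symm
      · exact absurd rfl hab

lemma clS_pair {z z' : P} (h : z ≠ z') : clS {z, z'} = cl z + cl z' := by
  funext y
  unfold clS
  rw [Finset.sum_pair h, Pi.add_apply]

lemma cuS_pair {z z' : P} (h : z ≠ z') : cuS {z, z'} = cu z + cu z' := by
  funext y
  unfold cuS
  rw [Finset.sum_pair h, Pi.add_apply]

/-- outside level `i + 1` the configuration `clS T` is the indicator of `T` -/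
lemma clS_ind (H : Gr P r) {i : ℕ} {T : Finset P} (hT : ∀ z ∈ T, lev z = i + 2) {y : P}
    (hy : lev y ≠ i + 1) : clS T y = if y ∈ T then 1 else 0 := by
  classical
  unfold clS
  rw [Finset.sum_congr rfl (fun z hz => PlD_cl H (hT z hz) hy), Finset.sum_ite_eq]

lemma cuS_ind (H : Gr P r) {i : ℕ} {T : Finset P} (hT : ∀ z ∈ T, lev z + 2 = i) {y : P}
    (hy : lev y + 1 ≠ i) : cuS T y = if y ∈ T then 1 else 0 := by
  classical
  unfold cuS
  rw [Finset.sum_congr rfl (fun z hz => PlD_cu H (hT z hz) hy), Finset.sum_ite_eq]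

lemma DDf_lev {i : ℕ} {T : Finset P} (hT : T ∈ DDf P i) : T.card = 2 ∧ ∀ z ∈ T, lev z = i + 2 := by
  obtain ⟨z, z', hz, hz', hne, -, rfl⟩ := mem_DDf.1 hT
  refine ⟨Finset.card_pair hne, ?_⟩
  intro x hx
  rw [mem_insert, mem_singleton] at hx
  rcases hx with rfl | rfl
  · exact (PlD_mem_PD.1 hz).1
  · exact (PlD_mem_PD.1 hz').1

lemma DUf_lev {i : ℕ} {T : Finset P} (hT : T ∈ DUf P i) : T.card = 2 ∧ ∀ z ∈ T, lev z + 2 = i := by
  obtain ⟨z, z', hz, hz', hne, -, rfl⟩ := mem_DUf.1 hT
  refine ⟨Finset.card_pair hne, ?_⟩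
  intro x hx
  rw [mem_insert, mem_singleton] at hx
  rcases hx with rfl | rfl
  · exact (PlD_mem_PU.1 hz).1
  · exact (PlD_mem_PU.1 hz').1

end Pool.Agent.GaussPoset.Win

end
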