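import Mathlib
import Pool.Agent.W_448zz_h61.Ns
import Pool.Agent.W_448zz_h61.M007

/-! From `Pool.Agent.W_448win_h16.EtA` -/

section

/-! Energy two: splitting the sum. -/

namespace Pool.Agent.GaussPoset.Win

set_option linter.unusedSectionVars false

open Finset

universe u

variable {P : Type u} [Fintype P] [PartialOrder P] [DecidableEq P] {r : ℕ}

/-- a function of total one supported on `M` is some `sg a` -/
lemma EtA_one (M : Finset P) (e : P → ℕ) (he : e ∈ M.piAntidiag 1) : ∃ a ∈ M, e = sg a := by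
  rw [mem_piAntidiag] at he
  obtain ⟨hs, hM⟩ := he
  have hne : ∃ a ∈ M, e a ≠ 0 := by
    by_contra hcon
    push Not at hcon
    have : M.sum e = 0 := sum_eq_zero hcon
    omega
  obtain ⟨a, ha, ha0⟩ := hne
  have h1 : (M.erase a).sum e + e a = M.sum e := sum_erase_add M e ha
  have h2 : e a = 1 ∧ (M.erase a).sum e = 0 := by
    have : 0 < e a := Nat.pos_of_ne_zero ha0
    constructor <;> omega
  refine ⟨a, ha, ?_⟩
  funext x
  unfold sg
  by_cases hx : x = a
  · subst hx; simp [h2.1]
  · rw [Pi.single_eq_of_ne hx]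
    by_contra h3
    have h4 := (sum_eq_zero_iff.mp h2.2) x (mem_erase.mpr ⟨hx, hM x h3⟩)
    exact h3 h4

/-- a function of total two supported on `M` is some `sg a + sg b` -/
lemma EtA_two (M : Finset P) (e : P → ℕ) (he : e ∈ M.piAntidiag 2) :
    ∃ a ∈ M, ∃ b ∈ M, e = sg a + sg b := by
  have he' := he
  rw [mem_piAntidiag] at he
  obtain ⟨hs, hM⟩ := he
  have hne : ∃ a ∈ M, e a ≠ 0 := by
    by_contra hcon
    push Not at hcon
    have : M.sum e = 0 := sum_eq_zero hcon
    omega
  obtain ⟨a, ha, ha0⟩ := hne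
  have hle : ∀ x, sg a x ≤ e x := by
    intro x
    unfold sg
    by_cases hx : x = a
    · subst hx; simp; omega
    · rw [Pi.single_eq_of_ne hx]; exact Nat.zero_le _
  have hdec : e = sg a + (fun x => e x - sg a x) := by
    funext x
    have := hle x
    simp only [Pi.add_apply]
    omega
  have hsg : M.sum (sg a) = 1 := by
    unfold sg
    rw [sum_pi_single']
    simp [ha]
  have h1 : (fun x => e x - sg a x) ∈ M.piAntidiag 1 := by
    rw [mem_piAntidiag]
    constructor
    · have h3 : M.sum e = M.sum (sg a) + M.sum (fun x => e x - sg a x) := by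
        conv_lhs => rw [hdec]
        rw [← sum_add_distrib]
        rfl
      omega
    · intro x hx
      apply hM
      intro h0
      apply hx
      simp [h0]
  obtain ⟨b, hb, hb'⟩ := EtA_one M _ h1
  refine ⟨a, ha, b, hb, ?_⟩
  rw [hdec, hb']

lemma EtA_sg_apply (a x : P) : sg a x = if x = a then 1 else 0 := by
  unfold sg
  by_cases hx : x = a
  · subst hx; simp
  · rw [Pi.single_eq_of_ne hx, if_neg hx]

/-- the pairs with a given sum -/
lemma EtA_pair (a b c d : P) :
    sg c + sg d = (sg a + sg b : P → ℕ) ↔ (c = a ∧ d = b) ∨ (c = b ∧ d = a) := by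
  constructor
  · intro h
    have h1 := congrFun h a
    have h2 := congrFun h b
    have h3 := congrFun h c
    have h4 := congrFun h d
    simp only [Pi.add_apply, EtA_sg_apply] at h1 h2 h3 h4
    by_cases hca : c = a
    · subst hca
      by_cases hdb : d = b
      · exact Or.inl ⟨rfl, hdb⟩
      · exfalso
        simp [hdb] at h4
    · by_cases hcb : c = b
      · subst hcb
        by_cases hda : d = a
        · exact Or.inr ⟨rfl, hda⟩
        · exfalso
          have : ¬ a = d := fun h => hda h.symm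
          have : ¬ a = c := fun h => hca h.symm
          simp [*] at h1
      · exfalso
        simp [hca, hcb] at h3
  · rintro (⟨rfl, rfl⟩ | ⟨rfl, rfl⟩)
    · rfl
    · exact add_comm _ _

/-- Every `e` of total two supported on `M` is `sg a + sg b`: for `e = sg a + sg b` with `a ≠ b` there are
two ordered pairs, for `e = sg a + sg a` one pair and one term of the second sum. Group the pairs and
the single elements by the value (`Finset.sum_fiberwise_of_maps_to` or
`Finset.sum_comp`): each `e` of the left side is hit exactly twice. -/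
theorem sum_two {R : Type*} [CommRing R] (M : Finset P) (f : (P → ℕ) → R) :
    2 * ∑ e ∈ M.piAntidiag 2, f e =
      ∑ a ∈ M, ∑ b ∈ M, f (sg a + sg b) + ∑ a ∈ M, f (sg a + sg a) := by
  classical
  have hmap : ∀ p ∈ M ×ˢ M, (sg p.1 + sg p.2 : P → ℕ) ∈ M.piAntidiag 2 := by
    intro p hp
    rw [mem_product] at hp
    rw [mem_piAntidiag]
    constructor
    · have : M.sum (sg p.1 + sg p.2) = M.sum (sg p.1) + M.sum (sg p.2) := by
        rw [← sum_add_distrib]; rfl
      rw [this]
      have h1 : ∀ a ∈ M, M.sum (sg a) = 1 := by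
        intro a ha
        unfold sg
        rw [sum_pi_single']
        simp [ha]
      rw [h1 _ hp.1, h1 _ hp.2]
    · intro x hx
      simp only [Pi.add_apply, EtA_sg_apply] at hx
      by_cases h1 : x = p.1
      · rw [h1]; exact hp.1
      · by_cases h2 : x = p.2
        · rw [h2]; exact hp.2
        · simp [h1, h2] at hx
  have hmap2 : ∀ a ∈ M, (sg a + sg a : P → ℕ) ∈ M.piAntidiag 2 := by
    intro a ha
    exact hmap (a, a) (mem_product.mpr ⟨ha, ha⟩)
  rw [← sum_product' M M (fun a b => f (sg a + sg b)),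
    ← sum_fiberwise_of_maps_to hmap (fun p => f (sg p.1 + sg p.2)),
    ← sum_fiberwise_of_maps_to hmap2 (fun a => f (sg a + sg a)), ← sum_add_distrib, mul_sum]
  apply sum_congr rfl
  intro e he
  obtain ⟨a, ha, b, hb, rfl⟩ := EtA_two M e he
  have h1 : ∑ p ∈ (M ×ˢ M).filter (fun p => (sg p.1 + sg p.2 : P → ℕ) = sg a + sg b),
      f (sg p.1 + sg p.2) = ((M ×ˢ M).filter (fun p => (sg p.1 + sg p.2 : P → ℕ) =
        sg a + sg b)).card * f (sg a + sg b) := by
    rw [← nsmul_eq_mul, ← sum_const]
    apply sum_congr rfl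
    intro p hp
    rw [(mem_filter.mp hp).2]
  have h2 : ∑ c ∈ M.filter (fun c => (sg c + sg c : P → ℕ) = sg a + sg b),
      f (sg c + sg c) = (M.filter (fun c => (sg c + sg c : P → ℕ) =
        sg a + sg b)).card * f (sg a + sg b) := by
    rw [← nsmul_eq_mul, ← sum_const]
    apply sum_congr rfl
    intro p hp
    rw [(mem_filter.mp hp).2]
  rw [h1, h2, ← add_mul]
  congr 1
  by_cases hab : a = b
  · subst hab
    have e1 : (M ×ˢ M).filter (fun p => (sg p.1 + sg p.2 : P → ℕ) = sg a + sg a) = {(a, a)} := by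
      ext p
      rw [mem_filter, mem_product, EtA_pair, mem_singleton]
      constructor
      · rintro ⟨_, h | h⟩ <;> exact Prod.ext h.1 h.2
      · rintro rfl
        exact ⟨⟨ha, ha⟩, Or.inl ⟨rfl, rfl⟩⟩
    have e2 : M.filter (fun c => (sg c + sg c : P → ℕ) = sg a + sg a) = {a} := by
      ext p
      rw [mem_filter, EtA_pair, mem_singleton]
      constructor
      · rintro ⟨_, h | h⟩ <;> exact h.1
      · rintro rfl
        exact ⟨ha, Or.inl ⟨rfl, rfl⟩⟩
    rw [e1, e2, card_singleton, card_singleton]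
    norm_num
  · have e1 : (M ×ˢ M).filter (fun p => (sg p.1 + sg p.2 : P → ℕ) = sg a + sg b) =
        {(a, b), (b, a)} := by
      ext p
      rw [mem_filter, mem_product, EtA_pair, mem_insert, mem_singleton]
      constructor
      · rintro ⟨_, h | h⟩
        · exact Or.inl (Prod.ext h.1 h.2)
        · exact Or.inr (Prod.ext h.1 h.2)
      · rintro (rfl | rfl)
        · exact ⟨⟨ha, hb⟩, Or.inl ⟨rfl, rfl⟩⟩
        · exact ⟨⟨hb, ha⟩, Or.inr ⟨rfl, rfl⟩⟩
    have e2 : M.filter (fun c => (sg c + sg c : P → ℕ) = sg a + sg b) = ∅ := by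
      apply filter_eq_empty_iff.mpr
      intro c _ h
      rw [EtA_pair] at h
      rcases h with ⟨h, h'⟩ | ⟨h, h'⟩
      · exact hab (h.symm.trans h')
      · exact hab (h'.symm.trans h)
    rw [e1, e2, card_pair, card_empty]
    · norm_num
    · intro h
      exact hab (Prod.ext_iff.mp h).1

end Pool.Agent.GaussPoset.Win

end

/-! From `Pool.Agent.W_448ut_h16.XcA` -/

section

/-!
# The exchange (MP_448cb3_co, case B, Route T, block K), the lower side

`d` on level `i + 2` is over `w`, `w2` (sites `p, x` and `x, q`). The exchange moves the excess of `d`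
to the common site `x` and back; the sum of the two terms is divisible by `dd` times one of them.
-/

namespace Pool.Agent.GaussPoset.Win.Kd

set_option linter.unusedSectionVars false

open Finset I2 Ut

universe u

variable {P : Type u} [Fintype P] [PartialOrder P] [DecidableEq P] {r i : ℕ}
  {d w w2 p x q : P} {e f : P → ℕ}

/-- the exchange -/
def xc (d x : P) (e : P → ℕ) : P → ℕ :=
  fun y => if y = d then e x + 1 else if y = x then e d - 1 else e y

/-- the labels of an exchange -/
def Lab (d w w2 x : P) (e : P → ℕ) : Prop :=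
  (e w = 1 ∧ e w2 = 1 ∧ ((e x = 0 ∧ 2 ≤ e d) ∨ (e d = 1 ∧ 1 ≤ e x))) ∨
    (((e w = 1 ∧ e w2 = 2) ∨ (e w = 2 ∧ e w2 = 1)) ∧ ((e x = 0 ∧ e d = 2) ∨ (e d = 1 ∧ e x = 1)))

/-- the exchange below the window -/
structure XcL (i : ℕ) (d w w2 p x q : P) (e : P → ℕ) : Prop where
  ld : lev d = i + 2
  ucd : uc d = {w, w2}
  ucw : uc w = {p, x}
  ucw2 : uc w2 = {x, q}
  dcx : dc x = {w, w2}
  ne : w ≠ w2
  px : p ≠ x
  xq : x ≠ q
  lab : Lab d w w2 x e
  p0 : e p = 0
  q0 : e q = 0
  t1 : ∀ t ∈ dc d, e t ≤ 1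
  o1 : ∀ d2 ∈ dc w ∪ dc w2, d2 ≠ d → e d2 ≤ 1
  u0 : ∀ u ∈ uc x, e u = 0

lemma FDm {z : P} : FD e z ↔ ∃ z' ∈ dc z, e z < e z' := by
  unfold FD
  simp only [mem_dc]

lemma GUm {z : P} : GU e z ↔ ∃ y ∈ uc z, e z ≤ e y := by
  unfold GU
  simp only [mem_uc]

lemma FUm {z : P} : FU e z ↔ ∃ y ∈ uc z, e z < e y := by
  unfold FU
  simp only [mem_uc]

lemma GDm {z : P} : GD e z ↔ ∃ z' ∈ dc z, e z ≤ e z' := by
  unfold GD
  simp only [mem_dc]

lemma xc_d : xc d x e d = e x + 1 := by
  unfold xc
  rw [if_pos rfl]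

lemma xc_x (h : x ≠ d) : xc d x e x = e d - 1 := by
  unfold xc
  rw [if_neg h, if_pos rfl]

lemma xc_of {y : P} (h1 : y ≠ d) (h2 : y ≠ x) : xc d x e y = e y := by
  unfold xc
  rw [if_neg h1, if_neg h2]

lemma xc_xc (h : x ≠ d) (h1 : 1 ≤ e d) : xc d x (xc d x e) = e := by
  funext y
  by_cases hd : y = d
  · subst hd
    rw [xc_d, xc_x h]
    omega
  · by_cases hx : y = x
    · subst hx
      rw [xc_x h, xc_d]
      omega
    · rw [xc_of hd hx, xc_of hd hx]

/-- the sum over an exchange -/
lemma sum_xc {C : Finset P} (h : x ≠ d) (hd : d ∈ C) (hx : x ∈ C) (h1 : 1 ≤ e d) :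
    C.sum (xc d x e) = C.sum e := by
  have key : ∀ g : P → ℕ, C.sum g = g d + (g x + ((C.erase d).erase x).sum g) := by
    intro g
    rw [add_sum_erase _ g (mem_erase.2 ⟨h, hx⟩), add_sum_erase _ g hd]
  rw [key (xc d x e), key e, xc_d, xc_x h]
  have h2 : ((C.erase d).erase x).sum (xc d x e) = ((C.erase d).erase x).sum e := by
    refine sum_congr rfl fun y hy => ?_
    rw [mem_erase, mem_erase] at hy
    exact xc_of hy.2.1 hy.1
  omega

section low

section agree

variable (H : Gr P r) (K : XcL i d w w2 p x q e)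
include H K

end agree

section caseone

variable (H : Gr P r) (K : XcL i d w w2 p x q e) (h1 : e w = 1) (h2 : e w2 = 1) (hx : e x = 0)
  (hd : 2 ≤ e d)
include H K h1 h2 hx hd

end caseone

section casetwo

variable (H : Gr P r) (K : XcL i d w w2 p x q e) (h1 : e w = 1) (h2 : e w2 = 2) (hx : e x = 0)
  (hd : e d = 2)
include H K h1 h2 hx hd

end casetwo

end low

end Pool.Agent.GaussPoset.Win.Kd

end

/-! From `Pool.Agent.W_448xc_h84.XgA` -/

section

/-!
# The general exchange (MP_448cb3_co), abstract part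

One side of a window: `dn` goes away from the window, `up` towards it, `lam` is the distance to the
window. `d` is at distance two over `w`, `w2` (sites `p, x` and `x, q`); the exchange moves the excess
of `d` to the common site `x` and back. Which statuses change is computed for arbitrary labels.
-/

namespace Pool.Agent.GaussPoset.Win.Xg

set_option linter.unusedSectionVars false

open Finset Kd

universe u

variable {P : Type u} [Fintype P] [PartialOrder P] [DecidableEq P]

/-- some element of `dn z` has a larger label -/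
def Bg (dn : P → Finset P) (e : P → ℕ) (z : P) : Prop := ∃ z' ∈ dn z, e z < e z'

/-- some element of `up z` has a label which is at least as large -/
def Ge (up : P → Finset P) (e : P → ℕ) (z : P) : Prop := ∃ y ∈ up z, e z ≤ e y

/-- one side of a window -/
structure Side (dn up : P → Finset P) (lam : P → ℤ) : Prop where
  du : ∀ {z z'}, z' ∈ dn z ↔ z ∈ up z'
  lm : ∀ {z z'}, z' ∈ dn z → lam z' = lam z + 1

/-- the places of an exchange -/
structure Tee (dn up : P → Finset P) (lam : P → ℤ) (d w w2 p x q : P) : Prop where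
  ld : lam d = 2
  ud : up d = {w, w2}
  uw : up w = {p, x}
  uw2 : up w2 = {x, q}
  dx : dn x = {w, w2}
  ne : w ≠ w2
  px : p ≠ x
  xq : x ≠ q
  pq : p ≠ q

/-- the side `y` (sites `x` and `o`) is passive, or it is free -/
def SdO (dn : P → Finset P) (d x y o : P) (e : P → ℕ) : Prop :=
  (e d ≤ e y ∧ e x < e y) ∨ ((∀ d' ∈ dn y, d' ≠ d → e d' ≤ e y) ∧ e o < e y)

/-- the side `y` is active -/
def Act (d x y : P) (e : P → ℕ) : Prop := e y < e d ∨ e y ≤ e x

/-- the conditions of an exchange -/
structure Exo (dn up : P → Finset P) (d w w2 p x q : P) (e : P → ℕ) : Prop where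
  pos : 1 ≤ e d
  t1 : ∀ t ∈ dn d, e t ≤ e d ∧ e t ≤ e x + 1
  u1 : ∀ u ∈ up x, e u ≤ e x ∧ e u + 1 ≤ e d
  s1 : SdO dn d x w p e
  s2 : SdO dn d x w2 q e
  act : Act d x w e ∨ Act d x w2 e

variable {dn up : P → Finset P} {lam : P → ℤ} {d w w2 p x q : P} {e : P → ℕ}

lemma Tee.symm (T : Tee dn up lam d w w2 p x q) : Tee dn up lam d w2 w q x p where
  ld := T.ld
  ud := by rw [T.ud, pair_comm]
  uw := by rw [T.uw2, pair_comm]
  uw2 := by rw [T.uw, pair_comm]
  dx := by rw [T.dx, pair_comm]
  ne := T.ne.symm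
  px := T.xq.symm
  xq := T.px.symm
  pq := T.pq.symm

section basic

variable (S : Side dn up lam) (T : Tee dn up lam d w w2 p x q)
include S T

lemma Tee.lv : lam w = 1 ∧ lam w2 = 1 ∧ lam x = 0 ∧ lam p = 0 ∧ lam q = 0 := by
  have h1 := S.lm (S.du.2 (show w ∈ up d by rw [T.ud]; simp))
  have h2 := S.lm (S.du.2 (show w2 ∈ up d by rw [T.ud]; simp))
  have h3 := S.lm (S.du.2 (show x ∈ up w by rw [T.uw]; simp))
  have h4 := S.lm (S.du.2 (show p ∈ up w by rw [T.uw]; simp))
  have h5 := S.lm (S.du.2 (show q ∈ up w2 by rw [T.uw2]; simp))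
  have := T.ld
  omega

lemma Tee.x_ne : x ≠ d := by
  have h := T.lv S
  rintro rfl
  have := T.ld
  omega

lemma Tee.xc_w : xc d x e w = e w := by
  have h := T.lv S
  have := T.ld
  exact xc_of (by rintro rfl; omega) (by rintro rfl; omega)

lemma Tee.xc_w2 : xc d x e w2 = e w2 := T.symm.xc_w S

lemma Tee.xc_p : xc d x e p = e p := by
  have h := T.lv S
  have := T.ld
  exact xc_of (by rintro rfl; omega) T.px

/-- away from the levels `0` and `2` nothing changes -/
lemma Tee.xc_lev {y : P} (h0 : lam y ≠ 0) (h2 : lam y ≠ 2) : xc d x e y = e y := by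
  have h := T.lv S
  have := T.ld
  exact xc_of (by rintro rfl; omega) (by rintro rfl; omega)

end basic

section sides

variable (S : Side dn up lam) (T : Tee dn up lam d w w2 p x q) (hd : 1 ≤ e d)
include S T hd

lemma Tee.sdo (h : SdO dn d x w p e) : SdO dn d x w p (xc d x e) := by
  have hl := T.lv S
  have hld := T.ld
  have nx := T.x_ne S
  have hdw : d ∈ dn w := S.du.2 (by rw [T.ud]; simp)
  unfold SdO at h ⊢
  rw [T.xc_w S, T.xc_p S, xc_d, xc_x nx]
  rcases h with h | ⟨h, h'⟩
  · left
    omega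
  · right
    refine ⟨fun d' hd' hne => ?_, h'⟩
    have := S.lm hd'
    rw [xc_of hne (by rintro rfl; omega)]
    exact h d' hd' hne

lemma Tee.act' (h : Act d x w e) : Act d x w (xc d x e) := by
  have nx := T.x_ne S
  unfold Act at h ⊢
  rw [T.xc_w S, xc_d, xc_x nx]
  omega

end sides

section exo

variable (S : Side dn up lam) (T : Tee dn up lam d w w2 p x q) (E : Exo dn up d w w2 p x q e)
include S T E

/-- the conditions are symmetric -/
lemma Exo.xc : Exo dn up d w w2 p x q (Kd.xc d x e) := by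
  have hl := T.lv S
  have hld := T.ld
  have nx := T.x_ne S
  have hp := E.pos
  refine ⟨?_, fun t ht => ?_, fun u hu => ?_, T.sdo S hp E.s1, T.symm.sdo S hp E.s2, ?_⟩
  · rw [xc_d]
    omega
  · have := S.lm ht
    rw [T.xc_lev S (by omega) (by omega), xc_d, xc_x nx]
    have := E.t1 t ht
    omega
  · have := S.lm (S.du.2 hu)
    rw [T.xc_lev S (by omega) (by omega), xc_d, xc_x nx]
    have := E.u1 u hu
    omega
  · rcases E.act with h | h
    · exact Or.inl (T.act' S hp h)
    · exact Or.inr (T.symm.act' S hp h)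

lemma Exo.bg_of {z : P} (hz : 0 ≤ lam z) (h1 : z ≠ w) (h2 : z ≠ w2) (h3 : z ≠ x) :
    Bg dn (Kd.xc d x e) z ↔ Bg dn e z := by
  have hl := T.lv S
  have hld := T.ld
  have nx := T.x_ne S
  by_cases h4 : z = d
  · subst h4
    constructor
    · rintro ⟨t, ht, hlt⟩
      have hlt' := S.lm ht
      rw [T.xc_lev S (y := t) (by omega) (by omega), xc_d] at hlt
      have := E.t1 t ht
      omega
    · rintro ⟨t, ht, hlt⟩
      have := E.t1 t ht
      omega
  · refine exists_congr fun z' => and_congr_right fun hz' => ?_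
    have hlz := S.lm hz'
    rw [xc_of h4 h3, xc_of (y := z') ?_ (by rintro rfl; omega)]
    rintro rfl
    have := S.du.1 hz'
    rw [T.ud, mem_insert, mem_singleton] at this
    exact this.elim h1 h2

lemma Exo.ge_of {z : P} (hz : 1 ≤ lam z) (h1 : z ≠ w) (h2 : z ≠ w2) (h3 : z ≠ d) :
    Ge up (Kd.xc d x e) z ↔ Ge up e z := by
  have hl := T.lv S
  have hld := T.ld
  have nx := T.x_ne S
  have hzx : z ≠ x := by rintro rfl; omega
  by_cases h4 : z ∈ dn d
  · have hl4 := S.lm h4
    have h5 := E.t1 z h4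
    refine ⟨fun _ => ⟨d, S.du.1 h4, h5.1⟩, fun _ => ⟨d, S.du.1 h4, ?_⟩⟩
    rw [xc_of h3 hzx, xc_d]
    exact h5.2
  · refine exists_congr fun y => and_congr_right fun hy => ?_
    rw [xc_of h3 hzx, xc_of (y := y)]
    · rintro rfl
      exact h4 (S.du.2 hy)
    · rintro rfl
      have := S.du.2 hy
      rw [T.dx, mem_insert, mem_singleton] at this
      exact this.elim h1 h2

lemma Exo.bgu_of {z : P} (hz : lam z ≤ 0) : Bg up (Kd.xc d x e) z ↔ Bg up e z := by
  have hl := T.lv S
  have hld := T.ld
  have nx := T.x_ne S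
  have hzd : z ≠ d := by rintro rfl; omega
  by_cases h4 : z = x
  · subst h4
    constructor
    · rintro ⟨u, hu, hlt⟩
      have h5 := S.lm (S.du.2 hu)
      rw [T.xc_lev S (y := u) (by omega) (by omega), xc_x nx] at hlt
      have := E.u1 u hu
      omega
    · rintro ⟨u, hu, hlt⟩
      have := E.u1 u hu
      omega
  · refine exists_congr fun y => and_congr_right fun hy => ?_
    have h5 := S.lm (S.du.2 hy)
    rw [xc_of hzd h4, T.xc_lev S (y := y) (by omega) (by omega)]

lemma Exo.geu_of {z : P} (hz : lam z < 0) : Ge dn (Kd.xc d x e) z ↔ Ge dn e z := by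
  have hl := T.lv S
  have hld := T.ld
  have nx := T.x_ne S
  have hzd : z ≠ d := by rintro rfl; omega
  have hzx : z ≠ x := by rintro rfl; omega
  by_cases h4 : z ∈ up x
  · have h5 := E.u1 z h4
    refine ⟨fun _ => ⟨x, S.du.2 h4, h5.1⟩, fun _ => ⟨x, S.du.2 h4, ?_⟩⟩
    rw [xc_of hzd hzx, xc_x nx]
    omega
  · refine exists_congr fun y => and_congr_right fun hy => ?_
    have h5 := S.lm hy
    rw [xc_of hzd hzx, xc_of (y := y) (by rintro rfl; omega)]
    rintro rfl
    exact h4 (S.du.1 hy)

lemma Exo.nbd : ¬ Bg dn e d := by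
  rintro ⟨t, ht, hlt⟩
  have := E.t1 t ht
  omega

end exo

section four

variable (S : Side dn up lam) (T : Tee dn up lam d w w2 p x q)
include S T

lemma Tee.ge_d : Ge up e d ↔ e d ≤ e w ∨ e d ≤ e w2 := by
  unfold Ge
  rw [T.ud]
  simp

lemma Tee.bg_x : Bg dn e x ↔ e x < e w ∨ e x < e w2 := by
  unfold Bg
  rw [T.dx]
  simp

lemma Tee.bg_xf (hp : 1 ≤ e d) : Bg dn (Kd.xc d x e) x ↔ Ge up e d := by
  rw [T.bg_x S, T.ge_d S, T.xc_w S, T.xc_w2 S, xc_x (T.x_ne S)]
  omega

lemma Tee.ge_df : Ge up (Kd.xc d x e) d ↔ Bg dn e x := by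
  rw [T.bg_x S, T.ge_d S, T.xc_w S, T.xc_w2 S, xc_d]
  omega

lemma Tee.d_dw : d ∈ dn w := S.du.2 (by rw [T.ud]; simp)

/-- the statuses of an active side -/
lemma Tee.w_act (hp : 1 ≤ e d) (h : SdO dn d x w p e) (ha : Act d x w e) :
    (Bg dn e w ↔ e w < e d) ∧ (Ge up e w ↔ e w ≤ e x) ∧
      (Bg dn (Kd.xc d x e) w ↔ e w ≤ e x) ∧ (Ge up (Kd.xc d x e) w ↔ e w < e d) := by
  have hl := T.lv S
  have hld := T.ld
  have nx := T.x_ne S
  have hdw := T.d_dw S
  have h' : (∀ d' ∈ dn w, d' ≠ d → e d' ≤ e w) ∧ e p < e w := by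
    unfold SdO at h
    unfold Act at ha
    rcases h with h | h
    · omega
    · exact h
  obtain ⟨h1, h2⟩ := h'
  refine ⟨?_, ?_, ?_, ?_⟩
  · constructor
    · rintro ⟨z, hz, hlt⟩
      by_cases h3 : z = d
      · rwa [h3] at hlt
      · have := h1 z hz h3
        omega
    · intro h3
      exact ⟨d, hdw, h3⟩
  · unfold Ge
    rw [T.uw]
    simp only [mem_insert, mem_singleton, exists_eq_or_imp, exists_eq_left]
    omega
  · constructor
    · rintro ⟨z, hz, hlt⟩
      rw [T.xc_w S] at hlt
      by_cases h3 : z = d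
      · rw [h3, xc_d] at hlt
        omega
      · have := S.lm hz
        rw [xc_of h3 (by rintro rfl; omega)] at hlt
        have := h1 z hz h3
        omega
    · intro h3
      refine ⟨d, hdw, ?_⟩
      rw [T.xc_w S, xc_d]
      omega
  · unfold Ge
    rw [T.uw]
    simp only [mem_insert, mem_singleton, exists_eq_or_imp, exists_eq_left]
    rw [T.xc_w S, T.xc_p S, xc_x nx]
    omega

/-- a passive side does not change -/
lemma Tee.w_pas (hp : 1 ≤ e d) (ha : ¬ Act d x w e) :
    (Bg dn (Kd.xc d x e) w ↔ Bg dn e w) ∧ (Ge up (Kd.xc d x e) w ↔ Ge up e w) := by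
  have hl := T.lv S
  have hld := T.ld
  have nx := T.x_ne S
  have hdw := T.d_dw S
  unfold Act at ha
  constructor
  · refine exists_congr fun z => and_congr_right fun hz => ?_
    rw [T.xc_w S]
    by_cases h3 : z = d
    · rw [h3, xc_d]
      omega
    · have := S.lm hz
      rw [xc_of h3 (by rintro rfl; omega)]
  · unfold Ge
    rw [T.uw]
    simp only [mem_insert, mem_singleton, exists_eq_or_imp, exists_eq_left]
    rw [T.xc_w S, T.xc_p S, xc_x nx]
    omega

end four

section count

/-- the number of statuses gained by an exchange -/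
def ps (d w w2 x : P) (e : P → ℕ) : ℕ :=
  (if e w ≤ e x then 1 else 0) + (if e w2 ≤ e x then 1 else 0) +
    (if e d ≤ e w ∨ e d ≤ e w2 then 1 else 0)

/-- the number of statuses lost by an exchange -/
def ng (d w w2 x : P) (e : P → ℕ) : ℕ :=
  (if e w < e d then 1 else 0) + (if e w2 < e d then 1 else 0) +
    (if e x < e w ∨ e x < e w2 then 1 else 0)

open Classical in
/-- number of elements with a larger element below -/
noncomputable def NB (dn : P → Finset P) (lam : P → ℤ) (e : P → ℕ) : ℕ :=
  (univ.filter (fun z : P => 1 ≤ lam z ∧ Bg dn e z)).card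

open Classical in
/-- number of free elements -/
noncomputable def NP (dn up : P → Finset P) (lam : P → ℤ) (e : P → ℕ) : ℕ :=
  (univ.filter (fun z : P => 1 ≤ lam z ∧ ¬ Bg dn e z ∧ ¬ Ge up e z)).card

open Classical in
/-- number of forced sites -/
noncomputable def NA (dn : P → Finset P) (lam : P → ℤ) (e : P → ℕ) : ℕ :=
  (univ.filter (fun z : P => lam z = 0 ∧ Bg dn e z)).card

/-- admissibility of one side -/
def AdS (dn up : P → Finset P) (lam : P → ℤ) (e : P → ℕ) : Prop :=
  ∀ z : P, 1 ≤ lam z → ¬ (Bg dn e z ∧ Ge up e z)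

lemma card_four {a b c f : P} (hab : a ≠ b) (hac : a ≠ c) (haf : a ≠ f) (hbc : b ≠ c)
    (hbf : b ≠ f) (hcf : c ≠ f) (g : P → Prop) [DecidablePred g] :
    (univ.filter g).card = (if g a then 1 else 0) + (if g b then 1 else 0) +
      (if g c then 1 else 0) + (if g f then 1 else 0) +
        ((((univ.erase a).erase b).erase c).erase f |>.filter g).card := by
  rw [card_filter, card_filter]
  have h1 : f ∈ ((univ.erase a).erase b).erase c := by simp [hcf.symm, hbf.symm, haf.symm]
  have h2 : c ∈ (univ.erase a).erase b := by simp [hbc.symm, hac.symm]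
  have h3 : b ∈ (univ : Finset P).erase a := by simp [hab.symm]
  rw [← add_sum_erase univ _ (mem_univ a), ← add_sum_erase _ _ h3, ← add_sum_erase _ _ h2,
    ← add_sum_erase _ _ h1]
  ring

variable (S : Side dn up lam) (T : Tee dn up lam d w w2 p x q) (E : Exo dn up d w w2 p x q e)
include S T E

lemma Exo.ads_of (h : AdS dn up lam e) : AdS dn up lam (Kd.xc d x e) := by
  have hl := T.lv S
  have hld := T.ld
  have hp := E.pos
  have side : ∀ {w w2 p q : P}, Tee dn up lam d w w2 p x q → SdO dn d x w p e →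
      ¬ (Bg dn (Kd.xc d x e) w ∧ Ge up (Kd.xc d x e) w) := by
    intro w w2 p q T' hS hcon
    by_cases ha : Act d x w e
    · obtain ⟨a1, a2, a3, a4⟩ := T'.w_act S hp hS ha
      exact h w (T'.lv S).1.ge ⟨a1.2 (a4.1 hcon.2), a2.2 (a3.1 hcon.1)⟩
    · obtain ⟨a1, a2⟩ := T'.w_pas S hp ha
      exact h w (T'.lv S).1.ge ⟨a1.1 hcon.1, a2.1 hcon.2⟩
  intro z hz hcon
  by_cases h1 : z = w
  · subst h1
    exact side T E.s1 hcon
  by_cases h2 : z = w2
  · subst h2
    exact side T.symm E.s2 hcon
  by_cases h3 : z = d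
  · subst h3
    exact (E.xc S T).nbd S T hcon.1
  have h4 : z ≠ x := by rintro rfl; omega
  rw [E.bg_of S T (by omega) h1 h2 h4, E.ge_of S T hz h1 h2 h3] at hcon
  exact h z hz hcon

lemma Exo.xcxc : Kd.xc d x (Kd.xc d x e) = e := xc_xc (T.x_ne S) E.pos

lemma Exo.ads_iff : AdS dn up lam (Kd.xc d x e) ↔ AdS dn up lam e := by
  refine ⟨fun h => ?_, E.ads_of S T⟩
  have h1 := (E.xc S T).ads_of S T h
  rwa [E.xcxc S T] at h1

open Classical in
/-- THE COUNTING of an exchange -/
theorem Exo.count (h : AdS dn up lam e) :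
    NP dn up lam (Kd.xc d x e) + NA dn lam e = NP dn up lam e + NA dn lam (Kd.xc d x e) ∧
      NB dn lam (Kd.xc d x e) + NA dn lam (Kd.xc d x e) + ng d w w2 x e =
        NB dn lam e + NA dn lam e + ps d w w2 x e := by
  have hl := T.lv S
  have hld := T.ld
  have nx := T.x_ne S
  have hp := E.pos
  have e1 : w ≠ d := by rintro rfl; omega
  have e2 : w ≠ x := by rintro rfl; omega
  have e3 : w2 ≠ d := by rintro rfl; omega
  have e4 : w2 ≠ x := by rintro rfl; omega
  set f := Kd.xc d x e with hf
  -- the rest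
  have hR : ∀ z ∈ (((univ.erase w).erase w2).erase d).erase x, z ≠ x ∧ z ≠ d ∧ z ≠ w2 ∧ z ≠ w := by
    intro z hz
    simp only [mem_erase] at hz
    exact ⟨hz.1, hz.2.1, hz.2.2.1, hz.2.2.2.1⟩
  have rB : ((((univ.erase w).erase w2).erase d).erase x).filter
      (fun z : P => 1 ≤ lam z ∧ Bg dn f z) = ((((univ.erase w).erase w2).erase d).erase x).filter
      (fun z : P => 1 ≤ lam z ∧ Bg dn e z) := by
    refine filter_congr fun z hz => and_congr_right fun hz1 => ?_
    obtain ⟨g1, g2, g3, g4⟩ := hR z hz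
    exact E.bg_of S T (by omega) g4 g3 g1
  have rP : ((((univ.erase w).erase w2).erase d).erase x).filter
      (fun z : P => 1 ≤ lam z ∧ ¬ Bg dn f z ∧ ¬ Ge up f z) =
      ((((univ.erase w).erase w2).erase d).erase x).filter
      (fun z : P => 1 ≤ lam z ∧ ¬ Bg dn e z ∧ ¬ Ge up e z) := by
    refine filter_congr fun z hz => and_congr_right fun hz1 => ?_
    obtain ⟨g1, g2, g3, g4⟩ := hR z hz
    rw [hf, E.bg_of S T (by omega) g4 g3 g1, E.ge_of S T hz1 g4 g3 g2]
  have rA : ((((univ.erase w).erase w2).erase d).erase x).filter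
      (fun z : P => lam z = 0 ∧ Bg dn f z) = ((((univ.erase w).erase w2).erase d).erase x).filter
      (fun z : P => lam z = 0 ∧ Bg dn e z) := by
    refine filter_congr fun z hz => and_congr_right fun hz1 => ?_
    obtain ⟨g1, g2, g3, g4⟩ := hR z hz
    exact E.bg_of S T (by omega) g4 g3 g1
  unfold NB NP NA
  rw [card_four T.ne e1 e2 e3 e4 nx.symm (fun z : P => 1 ≤ lam z ∧ ¬ Bg dn f z ∧ ¬ Ge up f z),
    card_four T.ne e1 e2 e3 e4 nx.symm (fun z : P => 1 ≤ lam z ∧ ¬ Bg dn e z ∧ ¬ Ge up e z),
    card_four T.ne e1 e2 e3 e4 nx.symm (fun z : P => 1 ≤ lam z ∧ Bg dn f z),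
    card_four T.ne e1 e2 e3 e4 nx.symm (fun z : P => 1 ≤ lam z ∧ Bg dn e z),
    card_four T.ne e1 e2 e3 e4 nx.symm (fun z : P => lam z = 0 ∧ Bg dn f z),
    card_four T.ne e1 e2 e3 e4 nx.symm (fun z : P => lam z = 0 ∧ Bg dn e z), rB, rP, rA]
  have nd : ¬ Bg dn e d := E.nbd S T
  have ndf : ¬ Bg dn f d := (E.xc S T).nbd S T
  have c1 : Bg dn f x ↔ Ge up e d := T.bg_xf S hp
  have c2 : Ge up f d ↔ Bg dn e x := T.ge_df S
  have c3 := T.ge_d S (e := e)
  have c4 := T.bg_x S (e := e)
  have hw := h w hl.1.ge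
  have hw2 := h w2 hl.2.1.ge
  have l1 : 1 ≤ lam w := hl.1.ge
  have l2 : 1 ≤ lam w2 := hl.2.1.ge
  have l3 : 1 ≤ lam d := by omega
  have l4 : ¬ 1 ≤ lam x := by omega
  have l5 : ¬ lam w = 0 := by omega
  have l6 : ¬ lam w2 = 0 := by omega
  have l7 : ¬ lam d = 0 := by omega
  have l8 : lam x = 0 := hl.2.2.1
  have l9 : ¬ (1 : ℤ) ≤ 0 := by norm_num
  simp only [l1, l2, l3, l4, l5, l6, l7, l8, l9, true_and, false_and, if_false, nd, ndf, not_false_eq_true,
    c1, c2]
  have pas : ∀ {w : P}, ¬ Act d x w e → e d ≤ e w ∧ e x < e w := by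
    intro w ha
    unfold Act at ha
    omega
  unfold ps ng
  by_cases a1 : Act d x w e
  · obtain ⟨f1, f2, f3, f4⟩ := T.w_act S hp E.s1 a1
    rw [← hf] at f3 f4
    by_cases a2 : Act d x w2 e
    · obtain ⟨g1, g2, g3, g4⟩ := T.symm.w_act S hp E.s2 a2
      rw [← hf] at g3 g4
      rw [f1, f2] at hw
      rw [g1, g2] at hw2
      simp only [f1, f2, f3, f4, g1, g2, g3, g4, c3, c4]
      unfold Act at a1 a2
      by_cases b1 : e w < e d
      · have b2 : ¬ e w ≤ e x := fun b2 => hw ⟨b1, b2⟩
        have b3 : ¬ e w2 ≤ e x := by omega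
        have b4 : e w2 < e d := by omega
        have b5 : ¬ (e d ≤ e w ∨ e d ≤ e w2) := by omega
        have b6 : e x < e w ∨ e x < e w2 := by omega
        simp only [b1, b2, b3, b4, b5, b6, if_true, if_false, not_true_eq_false, not_false_eq_true,
          and_false, false_and, true_and, and_true]
        omega
      · have b2 : e w ≤ e x := by omega
        have b4 : ¬ e w2 < e d := by omega
        have b3 : e w2 ≤ e x := by omega
        have b5 : e d ≤ e w ∨ e d ≤ e w2 := by omega
        have b6 : ¬ (e x < e w ∨ e x < e w2) := by omega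
        simp only [b1, b2, b3, b4, b5, b6, if_true, if_false, not_true_eq_false, not_false_eq_true,
          and_false, false_and, true_and, and_true]
        omega
    · obtain ⟨g1, g2⟩ := T.symm.w_pas S hp a2
      rw [← hf] at g1 g2
      have g3 := pas a2
      rw [f1, f2] at hw
      have b5 : e d ≤ e w ∨ e d ≤ e w2 := by omega
      have b6 : e x < e w ∨ e x < e w2 := by omega
      have b7 : ¬ e w2 < e d := by omega
      have b8 : ¬ e w2 ≤ e x := by omega
      simp only [f1, f2, f3, f4, g1, g2, c3, c4, b5, b6, b7, b8]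
      unfold Act at a1
      by_cases b1 : e w < e d
      · have b2 : ¬ e w ≤ e x := fun b2 => hw ⟨b1, b2⟩
        simp only [b1, b2, if_true, if_false, not_true_eq_false, not_false_eq_true,
          and_false, false_and, true_and, and_true]
        omega
      · have b2 : e w ≤ e x := by omega
        simp only [b1, b2, if_true, if_false, not_true_eq_false, not_false_eq_true,
          and_false, false_and, true_and, and_true]
        omega
  · have a2 : Act d x w2 e := E.act.resolve_left a1
    obtain ⟨f1, f2, f3, f4⟩ := T.symm.w_act S hp E.s2 a2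
    rw [← hf] at f3 f4
    obtain ⟨g1, g2⟩ := T.w_pas S hp a1
    rw [← hf] at g1 g2
    have g3 := pas a1
    rw [f1, f2] at hw2
    have b5 : e d ≤ e w ∨ e d ≤ e w2 := by omega
    have b6 : e x < e w ∨ e x < e w2 := by omega
    have b7 : ¬ e w < e d := by omega
    have b8 : ¬ e w ≤ e x := by omega
    simp only [f1, f2, f3, f4, g1, g2, c3, c4, b5, b6, b7, b8]
    unfold Act at a2
    by_cases b1 : e w2 < e d
    · have b2 : ¬ e w2 ≤ e x := fun b2 => hw2 ⟨b1, b2⟩
      simp only [b1, b2, if_true, if_false, not_true_eq_false, not_false_eq_true,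
        and_false, false_and, true_and, and_true]
      omega
    · have b2 : e w2 ≤ e x := by omega
      simp only [b1, b2, if_true, if_false, not_true_eq_false, not_false_eq_true,
        and_false, false_and, true_and, and_true]
      omega

omit S T in
/-- the unit of an exchange has the sign `-1` -/
theorem Exo.odd (h1 : ¬ (e w < e d ∧ e w ≤ e x)) (h2 : ¬ (e w2 < e d ∧ e w2 ≤ e x)) :
    Odd (ps d w w2 x e + ng d w w2 x e) := by
  have ha := E.act
  unfold ps ng
  unfold Act at ha
  rw [Nat.odd_iff]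
  split_ifs <;> omega

/-- the unit of an exchange has the sign `-1` -/
theorem Exo.odd' (h : AdS dn up lam e) : Odd (ps d w w2 x e + ng d w w2 x e) := by
  have hl := T.lv S
  refine E.odd (fun hc => ?_) (fun hc => ?_)
  · exact h w hl.1.ge ⟨⟨d, T.d_dw S, hc.1⟩, ⟨x, by rw [T.uw]; simp, hc.2⟩⟩
  · exact h w2 hl.2.1.ge ⟨⟨d, T.symm.d_dw S, hc.1⟩, ⟨x, by rw [T.uw2]; simp, hc.2⟩⟩

end count

end Pool.Agent.GaussPoset.Win.Xg

end

/-! From `Pool.Agent.W_448xc_h84.XgB` -/

section

/-!
# The general exchange (MP_448cb3_co), the terms of a window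
-/

namespace Pool.Agent.GaussPoset.Win.Xg

set_option linter.unusedSectionVars false

open Finset Kd

universe u

variable {P : Type u} [Fintype P] [PartialOrder P] [DecidableEq P] {r i : ℕ}

/-- distance to the window, the lower side -/
noncomputable def laL (i : ℕ) (z : P) : ℤ := (lev z : ℤ) - i

/-- distance to the window, the upper side -/
noncomputable def laU (i : ℕ) (z : P) : ℤ := (i : ℤ) - lev z

lemma sideL (H : Gr P r) (i : ℕ) : Side (P := P) dc uc (laL i) where
  du := by
    intro z z'
    rw [mem_dc, mem_uc]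
  lm := by
    intro z z' h
    have := lev_dc H h
    unfold laL
    omega

lemma sideU (H : Gr P r) (i : ℕ) : Side (P := P) uc dc (laU i) where
  du := by
    intro z z'
    rw [mem_dc, mem_uc]
  lm := by
    intro z z' h
    have := lev_uc H h
    unfold laU
    omega

section algebra

lemma dd_dvd_xx (m : ℕ) : dd ∣ xx ^ m - (-1) ^ m := by
  refine dvd_trans ?_ (sub_dvd_pow_sub_pow xx (-1) m)
  refine ⟨1, ?_⟩
  unfold xx
  ring

lemma dd_dvd_xi (m : ℕ) : dd ∣ xi ^ m - (-1) ^ m := by
  refine dvd_trans ?_ (sub_dvd_pow_sub_pow xi (-1) m)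
  refine ⟨xi, ?_⟩
  have h := xx_mul_xi
  unfold xx at h
  linear_combination -h

lemma dd_dvd_odd {m n : ℕ} (h : Odd (m + n)) : ∃ k, 1 + xx ^ m * xi ^ n = dd * k := by
  obtain ⟨a, ha⟩ := dd_dvd_xx m
  obtain ⟨b, hb⟩ := dd_dvd_xi n
  have h1 : ((-1 : A)) ^ m * (-1) ^ n = -1 := by
    rw [← pow_add]
    exact Odd.neg_one_pow h
  refine ⟨a * xi ^ n + (-1) ^ m * b, ?_⟩
  have h2 : xx ^ m = (-1) ^ m + dd * a := by rw [← ha]; ring
  have h3 : xi ^ n = (-1) ^ n + dd * b := by rw [← hb]; ring
  calc 1 + xx ^ m * xi ^ n = 1 + ((-1) ^ m + dd * a) * xi ^ n := by rw [h2]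
    _ = 1 + (-1) ^ m * xi ^ n + dd * a * xi ^ n := by ring
    _ = 1 + (-1) ^ m * ((-1) ^ n + dd * b) + dd * a * xi ^ n := by
        conv_lhs => rw [h3]
        rw [h3]
    _ = 1 + (-1) ^ m * (-1) ^ n + dd * (a * xi ^ n + (-1) ^ m * b) := by ring
    _ = dd * (a * xi ^ n + (-1) ^ m * b) := by rw [h1]; ring

lemma xx_of_eq {a a' n m : ℕ} (h : a' + n = a + m) : xx ^ a' = xx ^ m * xi ^ n * xx ^ a := by
  have e1 : ∀ n : ℕ, xx ^ n * xi ^ n = 1 := fun n => by rw [← mul_pow, xx_mul_xi, one_pow]
  calc xx ^ a' = xx ^ a' * (xx ^ n * xi ^ n) := by rw [e1, mul_one]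
    _ = xx ^ (a' + n) * xi ^ n := by ring
    _ = xx ^ m * xi ^ n * xx ^ a := by rw [h]; ring

lemma xi_of_eq {a a' n m : ℕ} (h : a' + n = a + m) : xi ^ a' = xi ^ m * xx ^ n * xi ^ a := by
  have e1 : ∀ n : ℕ, xx ^ n * xi ^ n = 1 := fun n => by rw [← mul_pow, xx_mul_xi, one_pow]
  calc xi ^ a' = xi ^ a' * (xx ^ n * xi ^ n) := by rw [e1, mul_one]
    _ = xi ^ (a' + n) * xx ^ n := by ring
    _ = xi ^ m * xx ^ n * xi ^ a := by rw [h]; ring

end algebra

section translate

variable {e : P → ℕ}

lemma FD_bg {z : P} : FD e z ↔ Bg dc e z := FDm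
lemma GU_ge {z : P} : GU e z ↔ Ge uc e z := GUm
lemma FU_bg {z : P} : FU e z ↔ Bg uc e z := FUm
lemma GD_ge {z : P} : GD e z ↔ Ge dc e z := GDm

lemma aL_NB (i : ℕ) (e : P → ℕ) : aL i e = NB dc (laL i) e := by
  classical
  unfold aL NB laL
  congr 1
  ext z
  simp only [mem_filter, mem_univ, true_and, FD_bg]
  refine and_congr_left fun _ => ?_
  omega

lemma pL_NP (i : ℕ) (e : P → ℕ) : pL i e = NP dc uc (laL i) e := by
  classical
  unfold pL NP laL
  congr 1
  ext z
  simp only [mem_filter, mem_univ, true_and, FD_bg, GU_ge]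
  refine and_congr_left fun _ => ?_
  omega

lemma AL_NA (i : ℕ) (e : P → ℕ) : (AL i e).card = NA dc (laL i) e := by
  classical
  unfold NA laL
  congr 1
  ext z
  rw [NormD_mem_AL]
  simp only [mem_filter, mem_univ, true_and, FD_bg]
  refine and_congr_left fun _ => ?_
  omega

lemma aU_NB (i : ℕ) (e : P → ℕ) : aU i e = NB uc (laU i) e := by
  classical
  unfold aU NB laU
  congr 1
  ext z
  simp only [mem_filter, mem_univ, true_and, FU_bg]
  refine and_congr_left fun _ => ?_
  omega

lemma pU_NP (i : ℕ) (e : P → ℕ) : pU i e = NP uc dc (laU i) e := by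
  classical
  unfold pU NP laU
  congr 1
  ext z
  simp only [mem_filter, mem_univ, true_and, FU_bg, GD_ge]
  refine and_congr_left fun _ => ?_
  omega

lemma AU_NA (i : ℕ) (e : P → ℕ) : (AU i e).card = NA uc (laU i) e := by
  classical
  unfold NA laU
  congr 1
  ext z
  rw [NormD_mem_AU]
  simp only [mem_filter, mem_univ, true_and, FU_bg]
  refine and_congr_left fun _ => ?_
  omega

lemma AdmL_ads (i : ℕ) (e : P → ℕ) : AdmL i e ↔ AdS dc uc (laL i) e := by
  unfold AdmL AdS laL
  refine forall_congr' fun z => ?_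
  rw [FD_bg, GU_ge]
  constructor
  · intro h h1
    exact h (by omega)
  · intro h h1
    exact h (by omega)

lemma AdmU_ads (i : ℕ) (e : P → ℕ) : AdmU i e ↔ AdS uc dc (laU i) e := by
  unfold AdmU AdS laU
  refine forall_congr' fun z => ?_
  rw [FU_bg, GD_ge]
  constructor
  · intro h h1
    exact h (by omega)
  · intro h h1
    exact h (by omega)

end translate

variable {d w w2 p x q : P} {e : P → ℕ}

section lower

variable (H : Gr P r) (T : Tee dc uc (laL i) d w w2 p x q) (E : Exo dc uc d w w2 p x q e)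
include H T E

lemma low_AU : AU i (xc d x e) = AU i e := by
  ext v
  rw [NormD_mem_AU, NormD_mem_AU]
  refine and_congr_right fun hv => ?_
  rw [FU_bg, FU_bg]
  exact E.bgu_of (sideL H i) T (by unfold laL; omega)

lemma low_aU : aU i (xc d x e) = aU i e := by
  classical
  unfold aU
  congr 1
  ext z
  simp only [mem_filter, mem_univ, true_and]
  refine and_congr_right fun hv => ?_
  rw [FU_bg, FU_bg]
  exact E.bgu_of (sideL H i) T (by unfold laL; omega)

lemma low_pU : pU i (xc d x e) = pU i e := by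
  classical
  unfold pU
  congr 1
  ext z
  simp only [mem_filter, mem_univ, true_and]
  refine and_congr_right fun hv => ?_
  rw [FU_bg, FU_bg, GD_ge, GD_ge, E.bgu_of (sideL H i) T (by unfold laL; omega),
    E.geu_of (sideL H i) T (by unfold laL; omega)]

lemma low_AdmU : AdmU i (xc d x e) ↔ AdmU i e := by
  unfold AdmU
  refine forall_congr' fun z => forall_congr' fun hz => ?_
  rw [FU_bg, FU_bg, GD_ge, GD_ge, E.bgu_of (sideL H i) T (by unfold laL; omega),
    E.geu_of (sideL H i) T (by unfold laL; omega)]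

lemma low_AdmL : AdmL i (xc d x e) ↔ AdmL i e := by
  rw [AdmL_ads, AdmL_ads]
  exact E.ads_iff (sideL H i) T

lemma low_x : x ∉ AU i e := by
  rw [NormD_mem_AU, FU_bg]
  rintro ⟨-, u, hu, hlt⟩
  have := E.u1 u hu
  omega

lemma low_AL {v : P} (hv : v ≠ x) : v ∈ AL i (xc d x e) ↔ v ∈ AL i e := by
  have hl := T.lv (sideL H i)
  rw [NormD_mem_AL, NormD_mem_AL]
  refine and_congr_right fun h => ?_
  rw [FD_bg, FD_bg]
  unfold laL at hl
  exact E.bg_of (sideL H i) T (by unfold laL; omega) (by rintro rfl; omega) (by rintro rfl; omega)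
    hv

lemma low_disj : Disjoint (AL i (xc d x e)) (AU i (xc d x e)) ↔ Disjoint (AL i e) (AU i e) := by
  rw [low_AU H T E, disjoint_left, disjoint_left]
  refine forall_congr' fun v => ?_
  by_cases hv : v = x
  · subst hv
    have := low_x H T E
    tauto
  · rw [low_AL H T E hv]

/-- THE EXCHANGE below the window: the second term is a unit times the first one -/
theorem low_unit {C : Finset P} (hC : Part i C) (he : Spt C e) (hf : Spt C (xc d x e)) :
    tC i C (xc d x e) = xx ^ ps d w w2 x e * xi ^ ng d w w2 x e * tC i C e := by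
  classical
  by_cases hdd : Disjoint (AL i e) (AU i e)
  swap
  · unfold tC
    rw [if_neg hdd, if_neg (fun h => hdd ((low_disj H T E).1 h))]
    ring
  by_cases ha : AdmL i e ∧ AdmU i e
  swap
  · have hb : ¬ (AdmL i (xc d x e) ∧ AdmU i (xc d x e)) := by
      rw [low_AdmL H T E, low_AdmU H T E]
      exact ha
    unfold tC Win.cw
    rw [if_neg ha, if_neg hb]
    simp
  have hcnt := E.count (sideL H i) T ((AdmL_ads i e).1 ha.1)
  rw [← pL_NP, ← pL_NP, ← AL_NA, ← AL_NA, ← aL_NB, ← aL_NB] at hcnt
  obtain ⟨h1, h2⟩ := hcnt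
  have hdf : Disjoint (AL i (xc d x e)) (AU i (xc d x e)) := (low_disj H T E).2 hdd
  have hle : (AL i e).card + (AU i e).card ≤ (st i C).card := by
    rw [← card_union_of_disjoint hdd]
    exact card_le_card (union_subset (AL_sub hC he) (AU_sub H hC he))
  have hlf : (AL i (xc d x e)).card + (AU i e).card ≤ (st i C).card := by
    rw [← low_AU H T E, ← card_union_of_disjoint hdf]
    exact card_le_card (union_subset (AL_sub hC hf) (AU_sub H hC hf))
  have h3 := xx_of_eq (a := aL i e + (AL i e).card)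
    (a' := aL i (xc d x e) + (AL i (xc d x e)).card) (n := ng d w w2 x e) (m := ps d w w2 x e)
    (by omega)
  have t1 : tC i C e = xx ^ (aL i e + (AL i e).card) * xi ^ (aU i e + pU i e) *
      dd ^ (pL i e + pU i e + ((st i C).card - (AL i e).card - (AU i e).card)) := by
    unfold tC Win.cw
    rw [if_pos hdd, if_pos ha]
    ring
  have t2 : tC i C (xc d x e) = xx ^ (aL i (xc d x e) + (AL i (xc d x e)).card) *
      xi ^ (aU i e + pU i e) *
      dd ^ (pL i e + pU i e + ((st i C).card - (AL i e).card - (AU i e).card)) := by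
    unfold tC Win.cw
    rw [if_pos hdf, low_AdmL H T E, low_AdmU H T E, if_pos ha, low_aU H T E, low_pU H T E,
      low_AU H T E,
      show pL i e + pU i e + ((st i C).card - (AL i e).card - (AU i e).card) =
        pL i (xc d x e) + pU i e + ((st i C).card - (AL i (xc d x e)).card - (AU i e).card) by
        omega]
    ring
  rw [t2, t1, h3]
  ring

end lower

section upper

variable (H : Gr P r) (T : Tee uc dc (laU i) d w w2 p x q) (E : Exo uc dc d w w2 p x q e)
include H T E

lemma upp_AL : AL i (xc d x e) = AL i e := by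
  ext v
  rw [NormD_mem_AL, NormD_mem_AL]
  refine and_congr_right fun hv => ?_
  rw [FD_bg, FD_bg]
  exact E.bgu_of (sideU H i) T (by unfold laU; omega)

lemma upp_aL : aL i (xc d x e) = aL i e := by
  classical
  unfold aL
  congr 1
  ext z
  simp only [mem_filter, mem_univ, true_and]
  refine and_congr_right fun hv => ?_
  rw [FD_bg, FD_bg]
  exact E.bgu_of (sideU H i) T (by unfold laU; omega)

lemma upp_pL : pL i (xc d x e) = pL i e := by
  classical
  unfold pL
  congr 1
  ext z
  simp only [mem_filter, mem_univ, true_and]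
  refine and_congr_right fun hv => ?_
  rw [FD_bg, FD_bg, GU_ge, GU_ge, E.bgu_of (sideU H i) T (by unfold laU; omega),
    E.geu_of (sideU H i) T (by unfold laU; omega)]

lemma upp_AdmL : AdmL i (xc d x e) ↔ AdmL i e := by
  unfold AdmL
  refine forall_congr' fun z => forall_congr' fun hz => ?_
  rw [FD_bg, FD_bg, GU_ge, GU_ge, E.bgu_of (sideU H i) T (by unfold laU; omega),
    E.geu_of (sideU H i) T (by unfold laU; omega)]

lemma upp_AdmU : AdmU i (xc d x e) ↔ AdmU i e := by
  rw [AdmU_ads, AdmU_ads]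
  exact E.ads_iff (sideU H i) T

lemma upp_x : x ∉ AL i e := by
  rw [NormD_mem_AL, FD_bg]
  rintro ⟨-, u, hu, hlt⟩
  have := E.u1 u hu
  omega

lemma upp_AU {v : P} (hv : v ≠ x) : v ∈ AU i (xc d x e) ↔ v ∈ AU i e := by
  have hl := T.lv (sideU H i)
  rw [NormD_mem_AU, NormD_mem_AU]
  refine and_congr_right fun h => ?_
  rw [FU_bg, FU_bg]
  unfold laU at hl
  exact E.bg_of (sideU H i) T (by unfold laU; omega) (by rintro rfl; omega) (by rintro rfl; omega)
    hv

lemma upp_disj : Disjoint (AL i (xc d x e)) (AU i (xc d x e)) ↔ Disjoint (AL i e) (AU i e) := by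
  rw [upp_AL H T E, disjoint_left, disjoint_left]
  refine forall_congr' fun v => ?_
  by_cases hv : v = x
  · subst hv
    have := upp_x H T E
    tauto
  · rw [upp_AU H T E hv]

/-- THE EXCHANGE above the window: the second term is a unit times the first one -/
theorem upp_unit {C : Finset P} (hC : Part i C) (he : Spt C e) (hf : Spt C (xc d x e)) :
    tC i C (xc d x e) = xi ^ ps d w w2 x e * xx ^ ng d w w2 x e * tC i C e := by
  classical
  by_cases hdd : Disjoint (AL i e) (AU i e)
  swap
  · unfold tC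
    rw [if_neg hdd, if_neg (fun h => hdd ((upp_disj H T E).1 h))]
    ring
  by_cases ha : AdmL i e ∧ AdmU i e
  swap
  · have hb : ¬ (AdmL i (xc d x e) ∧ AdmU i (xc d x e)) := by
      rw [upp_AdmL H T E, upp_AdmU H T E]
      exact ha
    unfold tC Win.cw
    rw [if_neg ha, if_neg hb]
    simp
  have hcnt := E.count (sideU H i) T ((AdmU_ads i e).1 ha.2)
  rw [← pU_NP, ← pU_NP, ← AU_NA, ← AU_NA, ← aU_NB, ← aU_NB] at hcnt
  obtain ⟨h1, h2⟩ := hcnt
  have hdf : Disjoint (AL i (xc d x e)) (AU i (xc d x e)) := (upp_disj H T E).2 hdd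
  have hle : (AL i e).card + (AU i e).card ≤ (st i C).card := by
    rw [← card_union_of_disjoint hdd]
    exact card_le_card (union_subset (AL_sub hC he) (AU_sub H hC he))
  have hlf : (AL i e).card + (AU i (xc d x e)).card ≤ (st i C).card := by
    rw [← upp_AL H T E, ← card_union_of_disjoint hdf]
    exact card_le_card (union_subset (AL_sub hC hf) (AU_sub H hC hf))
  have h3 := xi_of_eq (a := aU i e + pU i e) (a' := aU i (xc d x e) + pU i (xc d x e))
    (n := ng d w w2 x e) (m := ps d w w2 x e) (by omega)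
  have t1 : tC i C e = xx ^ (aL i e + (AL i e).card) * xi ^ (aU i e + pU i e) *
      dd ^ (pL i e + pU i e + ((st i C).card - (AL i e).card - (AU i e).card)) := by
    unfold tC Win.cw
    rw [if_pos hdd, if_pos ha]
    ring
  have t2 : tC i C (xc d x e) = xx ^ (aL i e + (AL i e).card) *
      xi ^ (aU i (xc d x e) + pU i (xc d x e)) *
      dd ^ (pL i e + pU i e + ((st i C).card - (AL i e).card - (AU i e).card)) := by
    unfold tC Win.cw
    rw [if_pos hdf, upp_AdmL H T E, upp_AdmU H T E, if_pos ha, upp_aL H T E, upp_pL H T E,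
      upp_AL H T E,
      show pL i e + pU i e + ((st i C).card - (AL i e).card - (AU i e).card) =
        pL i e + pU i (xc d x e) + ((st i C).card - (AL i e).card - (AU i (xc d x e)).card) by
        omega]
    ring
  rw [t2, t1, h3]
  ring

end upper

end Pool.Agent.GaussPoset.Win.Xg

end

/-! From `Pool.Agent.W_448xc_h84.XgC` -/

section

/-!
# The general exchange (MP_448cb3_co): the set of the exchangeable places does not change
-/

namespace Pool.Agent.GaussPoset.Win.Xg

set_option linter.unusedSectionVars false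

open Finset Kd

universe u

variable {P : Type u} [Fintype P] [PartialOrder P] [DecidableEq P] {r i : ℕ}

/-- a fixed numbering -/
noncomputable def rk (z : P) : ℕ := (Fintype.equivFin P z : ℕ)

lemma rk_inj {y z : P} (h : rk y = rk z) : y = z := by
  unfold rk at h
  exact (Fintype.equivFin P).injective (Fin.ext h)

/-- an exchangeable place, one side -/
def Can (dn up : P → Finset P) (lam : P → ℤ) (e : P → ℕ) (d x : P) : Prop :=
  ∃ w w2 p q, Tee dn up lam d w w2 p x q ∧ Exo dn up d w w2 p x q e ∧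
    ∀ d', up d' = {w, w2} → rk d' < rk d → e d' = 0

/-- an exchangeable place -/
def CanD (i : ℕ) (e : P → ℕ) (d x : P) : Prop :=
  Can dc uc (laL i) e d x ∨ Can uc dc (laU i) e d x

variable {dn up : P → Finset P} {lam : P → ℤ} {d w w2 p x q d' w' w2' p' x' q' : P} {e : P → ℕ}

section same

variable (S : Side dn up lam)
include S

/-- a side of another place -/
lemma SdO.other (T : Tee dn up lam d w w2 p x q) (E : Exo dn up d w w2 p x q e)
    (T' : Tee dn up lam d' w' w2' p' x' q') (hne : d' ≠ d) (hx : x' ≠ x)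
    (h : SdO dn d' x' w' p' e) : SdO dn d' x' w' p' (xc d x e) := by
  have hl := T.lv S
  have hld := T.ld
  have nx := T.x_ne S
  have hl' := T'.lv S
  have hld' := T'.ld
  have ew : xc d x e w' = e w' := T.xc_lev S (by omega) (by omega)
  have ed : xc d x e d' = e d' := xc_of hne (by rintro rfl; omega)
  have ex : xc d x e x' = e x' := xc_of (by rintro rfl; omega) hx
  have hdw' : d' ∈ dn w' := T'.d_dw S
  have main : ∀ {w w2 p q : P}, Tee dn up lam d w w2 p x q → SdO dn d x w p e → w' = w →
      SdO dn d' x' w' p' (xc d x e) := by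
    intro w w2 p q T1 h1 hw
    subst hw
    have hx' : x' = p := by
      have : x' ∈ up w' := by rw [T'.uw]; simp
      rw [T1.uw, mem_insert, mem_singleton] at this
      exact this.resolve_right hx
    have hp' : p' = x := by
      have : p' ∈ up w' := by rw [T'.uw]; simp
      rw [T1.uw, mem_insert, mem_singleton] at this
      refine this.resolve_left fun g => ?_
      exact T'.px (g.trans hx'.symm)
    rcases h1 with h1 | ⟨h1, h2⟩
    · rcases h with h | ⟨h, h3⟩
      · left
        rw [ew, ed, ex]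
        exact h
      · right
        constructor
        · intro z hz hzn
          rw [ew]
          by_cases hzd : z = d
          · rw [hzd, xc_d]
            omega
          · have := S.lm hz
            rw [xc_of hzd (by rintro rfl; omega)]
            exact h z hz hzn
        · rw [ew, hp', xc_x nx]
          have := E.pos
          omega
    · left
      rw [ew, ed, ex]
      refine ⟨h1 d' hdw' hne, ?_⟩
      rw [hx']
      exact h2
  by_cases h1 : w' = w
  · exact main T E.s1 h1
  by_cases h2 : w' = w2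
  · exact main T.symm E.s2 h2
  have hdn : d ∉ dn w' := by
    intro g
    have := S.du.1 g
    rw [T.ud, mem_insert, mem_singleton] at this
    exact this.elim h1 h2
  have hpx : p' ≠ x := by
    rintro rfl
    have : w' ∈ dn p' := S.du.2 (by rw [T'.uw]; simp)
    rw [T.dx, mem_insert, mem_singleton] at this
    exact this.elim h1 h2
  unfold SdO at h ⊢
  rw [ew, ed, ex, xc_of (y := p') (by rintro rfl; omega) hpx]
  rcases h with h | ⟨h, h3⟩
  · exact Or.inl h
  · refine Or.inr ⟨fun z hz hzn => ?_, h3⟩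
    have := S.lm hz
    rw [xc_of (by rintro rfl; exact hdn hz) (by rintro rfl; omega)]
    exact h z hz hzn

/-- two places over the same pair have the same site -/
lemma Tee.site (T : Tee dn up lam d w w2 p x q) (T' : Tee dn up lam d' w' w2' p' x' q')
    (h : up d' = up d) : x' = x := by
  have h1 : w ∈ ({w', w2'} : Finset P) := by rw [← T'.ud, h, T.ud]; simp
  have h2 : w2 ∈ ({w', w2'} : Finset P) := by rw [← T'.ud, h, T.ud]; simp
  have k1 : x' ∈ up w := by
    rw [mem_insert, mem_singleton] at h1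
    rcases h1 with g | g
    · rw [g, T'.uw]; simp
    · rw [g, T'.uw2]; simp
  have k2 : x' ∈ up w2 := by
    rw [mem_insert, mem_singleton] at h2
    rcases h2 with g | g
    · rw [g, T'.uw]; simp
    · rw [g, T'.uw2]; simp
  rw [T.uw, mem_insert, mem_singleton] at k1
  rw [T.uw2, mem_insert, mem_singleton] at k2
  rcases k1 with g1 | g1
  · rcases k2 with g2 | g2
    · exact g2
    · exact absurd (g1.symm.trans g2) T.pq
  · exact g1

/-- STABILITY, the same side -/
theorem Can.same (h : Can dn up lam e d x) (h' : Can dn up lam e d' x') :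
    Can dn up lam (xc d x e) d' x' := by
  obtain ⟨w, w2, p, q, T, E, hr⟩ := h
  obtain ⟨w', w2', p', q', T', E', hr'⟩ := h'
  have hl := T.lv S
  have hld := T.ld
  have nx := T.x_ne S
  have hl' := T'.lv S
  have hld' := T'.ld
  by_cases hdd : d' = d
  · subst hdd
    have hxx := T.site S T' rfl
    subst hxx
    refine ⟨w, w2, p, q, T, E.xc S T, fun z hz hlt => ?_⟩
    have hzl : z ∈ dn w := S.du.2 (by rw [hz]; simp)
    have := S.lm hzl
    rw [xc_of (by rintro rfl; omega) (by rintro rfl; omega)]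
    exact hr z hz hlt
  have hud : up d' ≠ up d := by
    intro g
    rcases Nat.lt_trichotomy (rk d') (rk d) with g1 | g1 | g1
    · have := hr d' (by rw [g, T.ud]) g1
      have := E'.pos
      omega
    · exact hdd (rk_inj g1)
    · have := hr' d (by rw [← g, T'.ud]) g1
      have := E.pos
      omega
  have hx : x' ≠ x := by
    intro g
    apply hud
    rw [T'.ud, T.ud, ← T'.dx, ← T.dx, g]
  have ed : xc d x e d' = e d' := xc_of hdd (by rintro rfl; omega)
  have ex : xc d x e x' = e x' := xc_of (by rintro rfl; omega) hx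
  refine ⟨w', w2', p', q', T', ?_, fun z hz hlt => ?_⟩
  · refine ⟨?_, fun t ht => ?_, fun u hu => ?_, SdO.other S T E T' hdd hx E'.s1,
      SdO.other S T E T'.symm hdd hx E'.s2, ?_⟩
    · rw [ed]
      exact E'.pos
    · have := S.lm ht
      rw [ed, ex, T.xc_lev S (y := t) (by omega) (by omega)]
      exact E'.t1 t ht
    · have := S.lm (S.du.2 hu)
      rw [ed, ex, T.xc_lev S (y := u) (by omega) (by omega)]
      exact E'.u1 u hu
    · have := E'.act
      unfold Act at this ⊢
      rw [ed, ex, T.xc_lev S (y := w') (by omega) (by omega),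
        T.xc_lev S (y := w2') (by omega) (by omega)]
      exact this
  · have hzl : z ∈ dn w' := S.du.2 (by rw [hz]; simp)
    have := S.lm hzl
    rw [xc_of (by rintro rfl; exact hud (by rw [hz, T'.ud])) (by rintro rfl; omega)]
    exact hr' z hz hlt

end same

section opp

/-- STABILITY, opposite sides -/
theorem Can.opp {lam' : P → ℤ} (S : Side dn up lam) (S' : Side up dn lam')
    (hlam : ∀ z, lam' z = - lam z) (hA : AdS dn up lam e) (hA' : AdS up dn lam' e)
    (h : Can dn up lam e d x) (h' : Can up dn lam' e d' x') :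
    Can up dn lam' (xc d x e) d' x' := by
  obtain ⟨w, w2, p, q, T, E, hr⟩ := h
  obtain ⟨w', w2', p', q', T', E', hr'⟩ := h'
  have hl := T.lv S
  have hld := T.ld
  have nx := T.x_ne S
  have hl' := T'.lv S'
  have hld' := T'.ld
  simp only [hlam] at hl' hld'
  have hx : x' ≠ x := by
    intro g
    subst g
    have a1 := E'.u1 w (by rw [T.dx]; simp)
    have a2 := E.u1 w' (by rw [T'.dx]; simp)
    have a3 : e d ≤ e w := by
      by_contra hcon
      exact hA w (by omega) ⟨⟨d, T.d_dw S, by omega⟩, ⟨x', by rw [T.uw]; simp, a1.1⟩⟩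
    have a4 : e d' ≤ e w' := by
      by_contra hcon
      refine hA' w' ?_ ⟨⟨d', T'.d_dw S', by omega⟩, ⟨x', by rw [T'.uw]; simp, a2.1⟩⟩
      rw [hlam]
      omega
    omega
  have ed : xc d x e d' = e d' := T.xc_lev S (by omega) (by omega)
  have ex : xc d x e x' = e x' := xc_of (by rintro rfl; omega) hx
  have side : ∀ {w' w2' p' q' : P}, Tee up dn lam' d' w' w2' p' x' q' → SdO up d' x' w' p' e →
      SdO up d' x' w' p' (xc d x e) := by
    intro w' w2' p' q' T1 h1
    have hl1 := T1.lv S'
    simp only [hlam] at hl1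
    have ew : xc d x e w' = e w' := T.xc_lev S (by omega) (by omega)
    rcases h1 with h1 | ⟨h1, h2⟩
    · left
      rw [ew, ed, ex]
      exact h1
    · right
      have hpx : p' ≠ x := by
        intro g
        have g1 : w' ∈ up x := by
          rw [← g]
          exact S.du.1 (by rw [T1.uw]; simp)
        have := E.u1 w' g1
        rw [g] at h2
        omega
      rw [ew, xc_of (y := p') (by rintro rfl; omega) hpx]
      refine ⟨fun z hz hzn => ?_, h2⟩
      have := S'.lm hz
      simp only [hlam] at this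
      rw [T.xc_lev S (y := z) (by omega) (by omega)]
      exact h1 z hz hzn
  refine ⟨w', w2', p', q', T', ?_, fun z hz hlt => ?_⟩
  · refine ⟨?_, fun t ht => ?_, fun u hu => ?_, side T' E'.s1, side T'.symm E'.s2, ?_⟩
    · rw [ed]
      exact E'.pos
    · have := S'.lm ht
      simp only [hlam] at this
      rw [ed, ex, T.xc_lev S (y := t) (by omega) (by omega)]
      exact E'.t1 t ht
    · have := S'.lm (S'.du.2 hu)
      simp only [hlam] at this
      rw [ed, ex, T.xc_lev S (y := u) (by omega) (by omega)]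
      exact E'.u1 u hu
    · have := E'.act
      unfold Act at this ⊢
      rw [ed, ex, T.xc_lev S (y := w') (by omega) (by omega),
        T.xc_lev S (y := w2') (by omega) (by omega)]
      exact this
  · have hzl : z ∈ up w' := S'.du.2 (by rw [hz]; simp)
    have := S'.lm hzl
    simp only [hlam] at this
    rw [T.xc_lev S (y := z) (by omega) (by omega)]
    exact hr' z hz hlt

end opp

section window

variable (H : Gr P r)
include H

lemma Can.inv (S : Side dn up lam) (h : Can dn up lam e d x) : xc d x (xc d x e) = e := by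
  obtain ⟨w, w2, p, q, T, E, hr⟩ := h
  exact E.xcxc S T

lemma CanD.inv (h : CanD i e d x) : xc d x (xc d x e) = e := by
  rcases h with h | h
  · exact Can.inv H (sideL H i) h
  · exact Can.inv H (sideU H i) h

lemma CanD.adm (h : CanD i e d x) :
    (AdmL i (xc d x e) ↔ AdmL i e) ∧ (AdmU i (xc d x e) ↔ AdmU i e) ∧
      (Disjoint (AL i (xc d x e)) (AU i (xc d x e)) ↔ Disjoint (AL i e) (AU i e)) := by
  rcases h with ⟨w, w2, p, q, T, E, hr⟩ | ⟨w, w2, p, q, T, E, hr⟩
  · exact ⟨low_AdmL H T E, low_AdmU H T E, low_disj H T E⟩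
  · exact ⟨upp_AdmL H T E, upp_AdmU H T E, upp_disj H T E⟩

lemma laU_neg (i : ℕ) (z : P) : laU i z = - laL i z := by
  unfold laU laL
  ring

lemma laL_neg (i : ℕ) (z : P) : laL i z = - laU i z := by
  unfold laU laL
  ring

/-- the exchangeable places are not changed -/
theorem CanD.stable (hL : AdmL i e) (hU : AdmU i e) (h : CanD i e d x) (h' : CanD i e d' x') :
    CanD i (xc d x e) d' x' := by
  have aL := (AdmL_ads i e).1 hL
  have aU := (AdmU_ads i e).1 hU
  rcases h with h | h
  · rcases h' with h' | h'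
    · exact Or.inl (Can.same (sideL H i) h h')
    · exact Or.inr (Can.opp (sideL H i) (sideU H i) (laU_neg H i) aL aU h h')
  · rcases h' with h' | h'
    · exact Or.inl (Can.opp (sideU H i) (sideL H i) (laL_neg H i) aU aL h h')
    · exact Or.inr (Can.same (sideU H i) h h')

open Classical in
/-- the exchangeable places -/
noncomputable def CC (i : ℕ) (e : P → ℕ) : Finset (P × P) :=
  univ.filter (fun t => CanD i e t.1 t.2)

lemma mem_CC {t : P × P} : t ∈ CC i e ↔ CanD i e t.1 t.2 := by
  classical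
  unfold CC
  rw [mem_filter]
  exact ⟨fun h => h.2, fun h => ⟨mem_univ _, h⟩⟩

lemma CC_xc (hL : AdmL i e) (hU : AdmU i e) (h : CanD i e d x) : CC i (xc d x e) = CC i e := by
  ext t
  rw [mem_CC H, mem_CC H]
  have ha := h.adm H
  constructor
  · intro g
    have h1 := CanD.stable H hL hU h h
    have h2 := CanD.stable H (ha.1.2 hL) (ha.2.1.2 hU) h1 g
    rwa [h.inv H] at h2
  · exact CanD.stable H hL hU h

end window

section unit

open Classical in
/-- the number of statuses gained by an exchange -/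
noncomputable def psF (W : Finset P) (d x : P) (e : P → ℕ) : ℕ :=
  (W.filter (fun y => e y ≤ e x)).card + (if ∃ y ∈ W, e d ≤ e y then 1 else 0)

open Classical in
/-- the number of statuses lost by an exchange -/
noncomputable def ngF (W : Finset P) (d x : P) (e : P → ℕ) : ℕ :=
  (W.filter (fun y => e y < e d)).card + (if ∃ y ∈ W, e x < e y then 1 else 0)

lemma card_filter_pair {g : P → Prop} [DecidablePred g] (h : w ≠ w2) :
    (({w, w2} : Finset P).filter g).card = (if g w then 1 else 0) + (if g w2 then 1 else 0) := by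
  rw [card_filter, sum_pair h]

lemma psF_pair (h : w ≠ w2) : psF {w, w2} d x e = ps d w w2 x e := by
  classical
  unfold psF ps
  rw [card_filter_pair h]
  simp only [mem_insert, mem_singleton, exists_eq_or_imp, exists_eq_left]

lemma ngF_pair (h : w ≠ w2) : ngF {w, w2} d x e = ng d w w2 x e := by
  classical
  unfold ngF ng
  rw [card_filter_pair h]
  simp only [mem_insert, mem_singleton, exists_eq_or_imp, exists_eq_left]

lemma psF_congr {W : Finset P} {f : P → ℕ} (hd : f d = e d) (hx : f x = e x)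
    (h : ∀ y ∈ W, f y = e y) : psF W d x f = psF W d x e := by
  classical
  unfold psF
  congr 1
  · congr 1
    refine filter_congr fun y hy => ?_
    rw [h y hy, hx]
  · refine if_congr (exists_congr fun y => and_congr_right fun hy => ?_) rfl rfl
    rw [h y hy, hd]

lemma ngF_congr {W : Finset P} {f : P → ℕ} (hd : f d = e d) (hx : f x = e x)
    (h : ∀ y ∈ W, f y = e y) : ngF W d x f = ngF W d x e := by
  classical
  unfold ngF
  congr 1
  · congr 1
    refine filter_congr fun y hy => ?_
    rw [h y hy, hd]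
  · refine if_congr (exists_congr fun y => and_congr_right fun hy => ?_) rfl rfl
    rw [h y hy, hx]

open Classical in
/-- the unit of an exchange -/
noncomputable def un (i : ℕ) (d x : P) (e : P → ℕ) : A :=
  if lev d = i + 2 then xx ^ psF (uc d) d x e * xi ^ ngF (uc d) d x e
  else xi ^ psF (dc d) d x e * xx ^ ngF (dc d) d x e

lemma un_low (T : Tee dc uc (laL i) d w w2 p x q) :
    un i d x e = xx ^ ps d w w2 x e * xi ^ ng d w w2 x e := by
  unfold un
  have h := T.ld
  unfold laL at h
  rw [if_pos (by omega), T.ud, psF_pair T.ne, ngF_pair T.ne]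

lemma un_upp (T : Tee uc dc (laU i) d w w2 p x q) :
    un i d x e = xi ^ ps d w w2 x e * xx ^ ng d w w2 x e := by
  unfold un
  have h := T.ld
  unfold laU at h
  rw [if_neg (by omega), T.ud, psF_pair T.ne, ngF_pair T.ne]

lemma un_congr {f : P → ℕ} (hd : f d = e d) (hx : f x = e x)
    (h : ∀ y ∈ uc d ∪ dc d, f y = e y) : un i d x f = un i d x e := by
  unfold un
  rw [psF_congr hd hx (fun y hy => h y (mem_union_left _ hy)),
    ngF_congr hd hx (fun y hy => h y (mem_union_left _ hy)),
    psF_congr hd hx (fun y hy => h y (mem_union_right _ hy)),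
    ngF_congr hd hx (fun y hy => h y (mem_union_right _ hy))]

end unit

section sums

variable (H : Gr P r)
include H

/-- the terms of an exchange -/
lemma CanD.unit (h : CanD i e d x) {C : Finset P} (hC : Part i C) (he : Spt C e)
    (hf : Spt C (xc d x e)) : tC i C (xc d x e) = un i d x e * tC i C e := by
  rcases h with ⟨w, w2, p, q, T, E, hr⟩ | ⟨w, w2, p, q, T, E, hr⟩
  · rw [low_unit H T E hC he hf, un_low T]
  · rw [upp_unit H T E hC he hf, un_upp T]

lemma dd_dvd_odd' {m n : ℕ} (h : Odd (m + n)) : dd ∣ 1 + xi ^ m * xx ^ n := by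
  obtain ⟨k, hk⟩ := dd_dvd_odd (m := n) (n := m) (by rwa [add_comm])
  exact ⟨k, by rw [← hk]; ring⟩

lemma CanD.neg (h : CanD i e d x) (hL : AdmL i e) (hU : AdmU i e) : dd ∣ 1 + un i d x e := by
  rcases h with ⟨w, w2, p, q, T, E, hr⟩ | ⟨w, w2, p, q, T, E, hr⟩
  · rw [un_low T]
    obtain ⟨k, hk⟩ := dd_dvd_odd (E.odd' (sideL H i) T ((AdmL_ads i e).1 hL))
    exact ⟨k, hk⟩
  · rw [un_upp T]
    exact dd_dvd_odd' H (E.odd' (sideU H i) T ((AdmU_ads i e).1 hU))

lemma CanD.lvl (h : CanD i e d x) :
    (lev d = i + 2 ∨ lev d + 2 = i) ∧ lev x = i ∧ 1 ≤ e d := by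
  rcases h with ⟨w, w2, p, q, T, E, hr⟩ | ⟨w, w2, p, q, T, E, hr⟩
  · have h1 := T.lv (sideL H i)
    have h2 := T.ld
    unfold laL at h1 h2
    exact ⟨by omega, by omega, E.pos⟩
  · have h1 := T.lv (sideU H i)
    have h2 := T.ld
    unfold laU at h1 h2
    exact ⟨by omega, by omega, E.pos⟩

/-- the places are determined by their elements -/
lemma CanD.site {f : P → ℕ} (h : CanD i e d x) (h' : CanD i f d x') : x = x' := by
  rcases h with ⟨w, w2, p, q, T, E, hr⟩ | ⟨w, w2, p, q, T, E, hr⟩
  · rcases h' with ⟨w', w2', p', q', T', E', hr'⟩ | ⟨w', w2', p', q', T', E', hr'⟩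
    · exact T'.site (sideL H i) T rfl
    · have h1 := T.ld
      have h2 := T'.ld
      unfold laL at h1
      unfold laU at h2
      omega
  · rcases h' with ⟨w', w2', p', q', T', E', hr'⟩ | ⟨w', w2', p', q', T', E', hr'⟩
    · have h1 := T.ld
      have h2 := T'.ld
      unfold laU at h1
      unfold laL at h2
      omega
    · exact T'.site (sideU H i) T rfl

/-- a site carries one exchangeable place -/
lemma CanD.one (hL : AdmL i e) (hU : AdmU i e) (h : CanD i e d x) (h' : CanD i e d' x) :
    d = d' := by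
  have key : ∀ {dn up : P → Finset P} {lam : P → ℤ} (_ : Side dn up lam) {d d' : P},
      Can dn up lam e d x → Can dn up lam e d' x → d = d' := by
    intro dn up lam S d d' h h'
    obtain ⟨w, w2, p, q, T, E, hr⟩ := h
    obtain ⟨w', w2', p', q', T', E', hr'⟩ := h'
    have hu : up d' = up d := by rw [T'.ud, T.ud, ← T'.dx, ← T.dx]
    rcases Nat.lt_trichotomy (rk d') (rk d) with g1 | g1 | g1
    · have := hr d' (by rw [hu, T.ud]) g1
      have := E'.pos
      omega
    · exact (rk_inj g1).symm
    · have := hr' d (by rw [← hu, T'.ud]) g1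
      have := E.pos
      omega
  have opp : ∀ {d d' : P}, Can dc uc (laL i) e d x → Can uc dc (laU i) e d' x → False := by
    intro d d' h h'
    have hl := (sideL H i)
    have := Can.opp (sideL H i) (sideU H i) (laU_neg H i) ((AdmL_ads i e).1 hL)
      ((AdmU_ads i e).1 hU) h h'
    obtain ⟨w, w2, p, q, T, E, hr⟩ := h
    obtain ⟨w', w2', p', q', T', E', hr'⟩ := h'
    have a1 := E'.u1 w (by rw [T.dx]; simp)
    have a2 := E.u1 w' (by rw [T'.dx]; simp)
    have l1 := T.lv hl
    have l2 := T'.lv (sideU H i)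
    have a3 : e d ≤ e w := by
      by_contra hcon
      exact (AdmL_ads i e).1 hL w (by omega)
        ⟨⟨d, T.d_dw hl, by omega⟩, ⟨x, by rw [T.uw]; simp, a1.1⟩⟩
    have a4 : e d' ≤ e w' := by
      by_contra hcon
      exact (AdmU_ads i e).1 hU w' (by omega)
        ⟨⟨d', T'.d_dw (sideU H i), by omega⟩, ⟨x, by rw [T'.uw]; simp, a2.1⟩⟩
    omega
  rcases h with h | h
  · rcases h' with h' | h'
    · exact key (sideL H i) h h'
    · exact (opp h h').elim
  · rcases h' with h' | h'
    · exact (opp h' h).elim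
    · exact key (sideU H i) h h'

/-- the unit is not changed by the exchange at another place -/
lemma CanD.unit_xc (hL : AdmL i e) (hU : AdmU i e) (h : CanD i e d x) (h' : CanD i e d' x')
    (hne : (d, x) ≠ (d', x')) : un i d x (xc d' x' e) = un i d x e := by
  have h1 := h.lvl H
  have h2 := h'.lvl H
  have hd : d ≠ d' := by
    rintro rfl
    exact hne (by rw [h.site H h'])
  have hx : x ≠ x' := by
    rintro rfl
    exact hd (h.one H hL hU h')
  refine un_congr (xc_of hd (by rintro rfl; omega)) (xc_of (by rintro rfl; omega) hx) ?_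
  intro y hy
  have h3 : lev y + 1 = lev d ∨ lev y = lev d + 1 := by
    rcases mem_union.1 hy with g | g
    · have := lev_uc H g
      omega
    · have := lev_dc H g
      omega
  exact xc_of (by rintro rfl; omega) (by rintro rfl; omega)

end sums

end Pool.Agent.GaussPoset.Win.Xg

end
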