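import Mathlib
import Pool.Agent.W_448zz_h61.Ns
import Pool.Agent.W_448zz_h61.M011
import Pool.Agent.W_448zz_h61.M027

/-! From `Pool.Agent.W_448win_h16.EtB` -/

section

/-! Energy two: the far part. -/

namespace Pool.Agent.GaussPoset.Win

set_option linter.unusedSectionVars false

open Finset

universe u

variable {P : Type u} [Fintype P] [PartialOrder P] [DecidableEq P] {r : ℕ}

lemma etb_two {e : P → ℕ} (hn : ∑ x, e x = 2) {a b : P} (hab : a ≠ b) (ha : 0 < e a)
    (hb : 0 < e b) : ∀ x, e x = if x = a ∨ x = b then 1 else 0 := by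
  have h1 : e a + e b ≤ 2 := by
    rw [← hn, ← Finset.sum_pair hab]
    exact Finset.sum_le_sum_of_subset (Finset.subset_univ _)
  intro x
  by_cases hx : x = a ∨ x = b
  · rw [if_pos hx]
    rcases hx with rfl | rfl <;> omega
  · rw [if_neg hx]
    push Not at hx
    have h2 : e x + (e a + e b) ≤ 2 := by
      rw [← hn, ← Finset.sum_pair hab, ← Finset.sum_insert]
      · exact Finset.sum_le_sum_of_subset (Finset.subset_univ _)
      · rw [Finset.mem_insert, Finset.mem_singleton]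
        exact fun h => h.elim hx.1 hx.2
    omega

lemma etb_not_adm {i : ℕ} {e : P → ℕ} (h : ¬ (AdmL i e ∧ AdmU i e)) : trm i e = 0 := by
  unfold trm cw
  rw [if_neg h, zero_mul]
  split_ifs <;> rfl

/-- Let the energy be two and `0 < e z` for some `z` of level at least `i + 2`. If the configuration is admissible
then all upper covers of `z` have positive label (`pos_up`), there is at least one (`uc_nonempty`), so
there is exactly one, `w`, and `e = sg z + sg w = cl z`. If `lev z ≥ i + 3` then an upper cover of `w` also has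
positive label (`pos_up` for `w`), energy at least three. If the configuration is not admissible then
`trm i e = 0` (`cw = 0`). -/
theorem far_low (H : Gr P r) {i : ℕ} {e : P → ℕ} (hn : ∑ x, e x = 2) {z : P}
    (hz : i + 2 ≤ lev z) (he : 0 < e z) :
    trm i e = 0 ∨ (lev z = i + 2 ∧ (uc z).card = 1 ∧ e = cl z) := by
  classical
  by_cases hadm : AdmL i e ∧ AdmU i e
  swap
  · exact Or.inl (etb_not_adm hadm)
  right
  obtain ⟨hA, _⟩ := hadm
  obtain ⟨w, hw⟩ := uc_nonempty H (x := z) (by omega)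
  have hlw := lev_uc H hw
  have hew := pos_up H hA hz he (mem_uc.1 hw)
  have hzw : z ≠ w := by
    rintro rfl
    omega
  have hval := etb_two hn hzw he hew
  have huc : uc z = {w} := by
    apply Finset.eq_singleton_iff_unique_mem.2
    refine ⟨hw, fun y hy => ?_⟩
    have h1 := pos_up H hA hz he (mem_uc.1 hy)
    have h2 := lev_uc H hy
    by_contra hcon
    rw [hval y, if_neg] at h1
    · omega
    · rintro (rfl | h)
      · omega
      · exact hcon h
  refine ⟨?_, by rw [huc, Finset.card_singleton], ?_⟩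
  · by_contra hcon
    obtain ⟨t, ht⟩ := uc_nonempty H (x := w) (by omega)
    have h1 := pos_up H hA (by omega : i + 2 ≤ lev w) hew (mem_uc.1 ht)
    have h2 := lev_uc H ht
    rw [hval t, if_neg] at h1
    · omega
    · rintro (rfl | rfl) <;> omega
  · funext x
    rw [hval x]
    unfold cl
    rw [huc]
    simp only [Finset.mem_singleton]

/-- mirror image of `far_low` -/
theorem far_upp (H : Gr P r) {i : ℕ} (hi : i ≤ r) {e : P → ℕ} (hn : ∑ x, e x = 2) {x : P}
    (hx : lev x + 2 ≤ i) (he : 0 < e x) :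
    trm i e = 0 ∨ (lev x + 2 = i ∧ (dc x).card = 1 ∧ e = cu x) := by
  classical
  by_cases hadm : AdmL i e ∧ AdmU i e
  swap
  · exact Or.inl (etb_not_adm hadm)
  right
  obtain ⟨_, hB⟩ := hadm
  obtain ⟨w, hw⟩ := dc_nonempty H (x := x) (by omega)
  have hlw := lev_dc H hw
  have hew := pos_dn H hi hB hx he (mem_dc.1 hw)
  have hzw : x ≠ w := by
    rintro rfl
    omega
  have hval := etb_two hn hzw he hew
  have huc : dc x = {w} := by
    apply Finset.eq_singleton_iff_unique_mem.2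
    refine ⟨hw, fun y hy => ?_⟩
    have h1 := pos_dn H hi hB hx he (mem_dc.1 hy)
    have h2 := lev_dc H hy
    by_contra hcon
    rw [hval y, if_neg] at h1
    · omega
    · rintro (rfl | h)
      · omega
      · exact hcon h
  refine ⟨?_, by rw [huc, Finset.card_singleton], ?_⟩
  · by_contra hcon
    obtain ⟨t, ht⟩ := dc_nonempty H (x := w) (by omega)
    have h1 := pos_dn H hi hB (by omega : lev w + 2 ≤ i) hew (mem_dc.1 ht)
    have h2 := lev_dc H ht
    rw [hval t, if_neg] at h1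
    · omega
    · rintro (rfl | rfl) <;> omega
  · funext y
    rw [hval y]
    unfold cu
    rw [huc]
    simp only [Finset.mem_singleton]

lemma etb_sum_cl (z : P) : ∑ x, cl z x = (uc z).card + 1 := by
  classical
  have h1 : z ∉ uc z := fun h => (mem_uc.1 h).1.ne rfl
  have h2 : ∀ x, cl z x = if x ∈ insert z (uc z) then 1 else 0 := by
    intro x
    unfold cl
    simp only [Finset.mem_insert]
  rw [Finset.sum_congr rfl (fun x _ => h2 x), Finset.sum_boole, Finset.filter_mem_eq_inter,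
    Finset.univ_inter, Finset.card_insert_of_notMem h1]
  simp

lemma etb_sum_cu (z : P) : ∑ x, cu z x = (dc z).card + 1 := by
  classical
  have h1 : z ∉ dc z := fun h => (mem_dc.1 h).1.ne rfl
  have h2 : ∀ x, cu z x = if x ∈ insert z (dc z) then 1 else 0 := by
    intro x
    unfold cu
    simp only [Finset.mem_insert]
  rw [Finset.sum_congr rfl (fun x _ => h2 x), Finset.sum_boole, Finset.filter_mem_eq_inter,
    Finset.univ_inter, Finset.card_insert_of_notMem h1]
  simp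

lemma etb_cl_self (z : P) : cl z z = 1 := by
  unfold cl
  rw [if_pos (Or.inl rfl)]

lemma etb_cl_lev (H : Gr P r) {i : ℕ} {z x : P} (hz : lev z = i + 2) (h : cl z x ≠ 0) :
    x = z ∨ lev x = i + 1 := by
  by_contra hcon
  push Not at hcon
  apply h
  unfold cl
  rw [if_neg]
  rintro (h1 | h1)
  · exact hcon.1 h1
  · have := lev_uc H h1
    exact hcon.2 (by omega)

lemma etb_cu_lev (H : Gr P r) {i : ℕ} {z x : P} (hz : lev z + 2 = i) (h : cu z x ≠ 0) :
    x = z ∨ lev x + 1 = i := by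
  by_contra hcon
  push Not at hcon
  apply h
  unfold cu
  rw [if_neg]
  rintro (h1 | h1)
  · exact hcon.1 h1
  · have := lev_dc H h1
    exact hcon.2 (by omega)

open Classical in
/-- The sum over all configurations of energy two: those supported on near elements and sites, plus the `cl z`
with one upper cover, plus the `cu x` with one lower cover. (`univ.piAntidiag 2` is the disjoint union of the
configurations supported on `near ∪ sites` and those with a positive far label; for the latter `far_low`,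
`far_upp`; `cl z`, `cu x` are different configurations: their labels at levels `i + 2`, `i - 2`.) -/
theorem sum_far (H : Gr P r) {i : ℕ} (hi : 1 ≤ i) (hi2 : i + 1 ≤ r) :
    ∑ e ∈ (univ : Finset P).piAntidiag 2, trm i e =
      ∑ e ∈ (near P i ∪ lv P i).piAntidiag 2, trm i e +
      ∑ z ∈ univ.filter (fun z : P => lev z = i + 2 ∧ (uc z).card = 1), trm i (cl z) +
      ∑ x ∈ univ.filter (fun x : P => lev x + 2 = i ∧ (dc x).card = 1), trm i (cu x) := by
  set D : Finset P := univ.filter (fun z : P => lev z = i + 2 ∧ (uc z).card = 1) with hD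
  set U : Finset P := univ.filter (fun x : P => lev x + 2 = i ∧ (dc x).card = 1) with hU
  have hmD : ∀ z, z ∈ D ↔ lev z = i + 2 ∧ (uc z).card = 1 := fun z => by rw [hD]; simp
  have hmU : ∀ z, z ∈ U ↔ lev z + 2 = i ∧ (dc z).card = 1 := fun z => by rw [hU]; simp
  have hinjD : Set.InjOn (cl : P → P → ℕ) (D : Set P) := by
    intro z hz z' hz' h
    have h1 := (hmD z).1 (Finset.mem_coe.1 hz)
    have h2 := (hmD z').1 (Finset.mem_coe.1 hz')
    have h3 : cl z' z ≠ 0 := by
      rw [← h, etb_cl_self]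
      omega
    rcases etb_cl_lev H h2.1 h3 with h4 | h4
    · exact h4
    · omega
  have hcuself : ∀ x : P, cu x x = 1 := ExpD_cu_x
  have hinjU : Set.InjOn (cu : P → P → ℕ) (U : Set P) := by
    intro z hz z' hz' h
    have h1 := (hmU z).1 (Finset.mem_coe.1 hz)
    have h2 := (hmU z').1 (Finset.mem_coe.1 hz')
    have h3 : cu z' z ≠ 0 := by
      rw [← h, hcuself]
      omega
    rcases etb_cu_lev H h2.1 h3 with h4 | h4
    · exact h4
    · omega
  rw [← Finset.sum_image (f := trm i) hinjD, ← Finset.sum_image (f := trm i) hinjU]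
  have hd1 : Disjoint ((near P i ∪ lv P i).piAntidiag 2) (D.image cl) := by
    rw [Finset.disjoint_left]
    intro e he he2
    obtain ⟨z, hz, rfl⟩ := Finset.mem_image.1 he2
    rw [Finset.mem_piAntidiag] at he
    have h1 := he.2 z (by rw [etb_cl_self]; omega)
    have h2 := ((hmD z).1 hz).1
    rw [Finset.mem_union, mem_near, mem_lv] at h1
    omega
  have hd2 : Disjoint ((near P i ∪ lv P i).piAntidiag 2 ∪ D.image cl) (U.image cu) := by
    rw [Finset.disjoint_left]
    intro e he he2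
    obtain ⟨x, hx, rfl⟩ := Finset.mem_image.1 he2
    have h2 := ((hmU x).1 hx).1
    rcases Finset.mem_union.1 he with he | he
    · rw [Finset.mem_piAntidiag] at he
      have h1 := he.2 x (by rw [hcuself]; omega)
      rw [Finset.mem_union, mem_near, mem_lv] at h1
      omega
    · obtain ⟨z, hz, hzx⟩ := Finset.mem_image.1 he
      have h3 := ((hmD z).1 hz).1
      have h4 : cu x z ≠ 0 := by
        rw [← hzx, etb_cl_self]
        omega
      rcases etb_cu_lev H h2 h4 with h5 | h5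
      · rw [h5] at h3
        omega
      · omega
  rw [← Finset.sum_union hd1, ← Finset.sum_union hd2]
  symm
  apply Finset.sum_subset
  · intro e he
    rw [Finset.mem_piAntidiag]
    refine ⟨?_, fun x _ => Finset.mem_univ x⟩
    rcases Finset.mem_union.1 he with he | he
    · rcases Finset.mem_union.1 he with he | he
      · rw [Finset.mem_piAntidiag] at he
        rw [← he.1]
        symm
        apply Finset.sum_subset (Finset.subset_univ _)
        intro x _ hx
        by_contra hcon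
        exact hx (he.2 x hcon)
      · obtain ⟨z, hz, rfl⟩ := Finset.mem_image.1 he
        rw [etb_sum_cl, ((hmD z).1 hz).2]
    · obtain ⟨x, hx, rfl⟩ := Finset.mem_image.1 he
      rw [etb_sum_cu, ((hmU x).1 hx).2]
  · intro e he hne
    rw [Finset.mem_union, Finset.mem_union, not_or, not_or] at hne
    obtain ⟨⟨hne1, hne2⟩, hne3⟩ := hne
    rw [Finset.mem_piAntidiag] at he
    have hex : ∃ x, e x ≠ 0 ∧ x ∉ near P i ∪ lv P i := by
      by_contra hcon
      push Not at hcon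
      apply hne1
      rw [Finset.mem_piAntidiag]
      refine ⟨?_, hcon⟩
      rw [← he.1]
      apply Finset.sum_subset (Finset.subset_univ _)
      intro x _ hx
      by_contra h
      exact hx (hcon x h)
    obtain ⟨x, hx0, hxn⟩ := hex
    rw [Finset.mem_union, mem_near, mem_lv] at hxn
    rcases Nat.lt_or_ge (lev x) i with hl | hl
    · rcases far_upp H (by omega : i ≤ r) he.1 (by omega : lev x + 2 ≤ i)
        (Nat.pos_of_ne_zero hx0) with h | ⟨h1, h2, h3⟩
      · exact h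
      · exfalso
        apply hne3
        rw [h3]
        exact Finset.mem_image_of_mem _ ((hmU x).2 ⟨h1, h2⟩)
    · rcases far_low H he.1 (by omega : i + 2 ≤ lev x) (Nat.pos_of_ne_zero hx0) with
        h | ⟨h1, h2, h3⟩
      · exact h
      · exfalso
        apply hne2
        rw [h3]
        exact Finset.mem_image_of_mem _ ((hmD x).2 ⟨h1, h2⟩)

end Pool.Agent.GaussPoset.Win

end

/-! From `Pool.Agent.W_448win_h16.EtF` -/

section

/-! Energy two: the two total sums. -/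

namespace Pool.Agent.GaussPoset.Win

set_option linter.unusedSectionVars false

open Finset

universe u

variable {P : Type u} [Fintype P] [PartialOrder P] [DecidableEq P] {r : ℕ}

open Classical in
/-- lower near elements -/
noncomputable def LN (P : Type u) [Fintype P] [PartialOrder P] [DecidableEq P] (i : ℕ) :
    Finset P := univ.filter (fun x : P => lev x = i + 1)

open Classical in
/-- upper near elements -/
noncomputable def UN (P : Type u) [Fintype P] [PartialOrder P] [DecidableEq P] (i : ℕ) :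
    Finset P := univ.filter (fun x : P => lev x + 1 = i)

lemma EtF_mem_LN {i : ℕ} {w : P} : w ∈ LN P i ↔ lev w = i + 1 := by
  classical
  unfold LN; simp

lemma EtF_mem_UN {i : ℕ} {w : P} : w ∈ UN P i ↔ lev w + 1 = i := by
  classical
  unfold UN; simp

lemma EtF_split (i : ℕ) (F : P → ℤ) : ∑ a ∈ near P i ∪ lv P i, F a =
    ∑ a ∈ LN P i, F a + ∑ a ∈ UN P i, F a + ∑ a ∈ lv P i, F a := by
  have h1 : near P i = LN P i ∪ UN P i := by
    ext x
    rw [mem_near, Finset.mem_union, EtF_mem_LN, EtF_mem_UN]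
  have h2 : Disjoint (LN P i) (UN P i) := by
    rw [Finset.disjoint_left]
    intro x hx hx'
    rw [EtF_mem_LN] at hx
    rw [EtF_mem_UN] at hx'
    omega
  have h3 : Disjoint (LN P i ∪ UN P i) (lv P i) := by
    rw [Finset.disjoint_left]
    intro x hx hx'
    rw [Finset.mem_union, EtF_mem_LN, EtF_mem_UN] at hx
    rw [mem_lv] at hx'
    omega
  rw [h1, Finset.sum_union h3, Finset.sum_union h2]

/-- For a function `g` of configurations: `near ∪ sites` is the disjoint union of `LN`, `UN`, `lv P i`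
(levels); expand `sum_two`; `sg a + sg b = sg b + sg a` for the mixed sums. -/
theorem sum_parts {i : ℕ} (g : (P → ℕ) → ℤ) :
    2 * ∑ e ∈ (near P i ∪ lv P i).piAntidiag 2, g e =
      (∑ w ∈ LN P i, ∑ w' ∈ LN P i, g (sg w + sg w') + ∑ w ∈ LN P i, g (sg w + sg w)) +
      (∑ u ∈ UN P i, ∑ u' ∈ UN P i, g (sg u + sg u') + ∑ u ∈ UN P i, g (sg u + sg u)) +
      (∑ v ∈ lv P i, ∑ v' ∈ lv P i, g (sg v + sg v') + ∑ v ∈ lv P i, g (sg v + sg v)) +
      2 * ∑ w ∈ LN P i, ∑ u ∈ UN P i, g (sg w + sg u) +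
      2 * ∑ w ∈ LN P i, ∑ v ∈ lv P i, g (sg w + sg v) +
      2 * ∑ u ∈ UN P i, ∑ v ∈ lv P i, g (sg u + sg v) := by
  rw [sum_two, EtF_split]
  have h1 : ∀ a : P, ∑ b ∈ near P i ∪ lv P i, g (sg a + sg b) =
      ∑ b ∈ LN P i, g (sg a + sg b) + ∑ b ∈ UN P i, g (sg a + sg b) +
        ∑ b ∈ lv P i, g (sg a + sg b) := fun a => EtF_split i _
  rw [EtF_split]
  simp only [h1, Finset.sum_add_distrib]
  have hc : ∀ X Y : Finset P, ∑ a ∈ X, ∑ b ∈ Y, g (sg a + sg b) =
      ∑ b ∈ Y, ∑ a ∈ X, g (sg b + sg a) := by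
    intro X Y
    rw [Finset.sum_comm]
    exact Finset.sum_congr rfl fun b _ => Finset.sum_congr rfl fun a _ => by rw [add_comm]
  rw [hc (UN P i) (LN P i), hc (lv P i) (LN P i), hc (lv P i) (UN P i)]
  ring

lemma EtF_dbL (i : ℕ) (F : P → ℤ) : ∑ w ∈ dbL P i, F w = ∑ w ∈ LN P i, d2 (uc w) * F w := by
  classical
  have h1 : dbL P i = (LN P i).filter (fun w => (uc w).card = 2) := by
    ext x
    rw [mem_dbL, Finset.mem_filter, EtF_mem_LN]
  rw [h1, Finset.sum_filter]
  refine Finset.sum_congr rfl fun w _ => ?_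
  unfold d2
  split_ifs
  · rw [one_mul]
  · rw [zero_mul]

lemma EtF_dbU (i : ℕ) (F : P → ℤ) : ∑ w ∈ dbU P i, F w = ∑ w ∈ UN P i, d2 (dc w) * F w := by
  classical
  have h1 : dbU P i = (UN P i).filter (fun w => (dc w).card = 2) := by
    ext x
    rw [mem_dbU, Finset.mem_filter, EtF_mem_UN]
  rw [h1, Finset.sum_filter]
  refine Finset.sum_congr rfl fun w _ => ?_
  unfold d2
  split_ifs
  · rw [one_mul]
  · rw [zero_mul]

/-- a coefficient of the sum over all configurations vanishes -/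
lemma EtF_zero (H : Gr P r) {i : ℕ} (hi : 1 ≤ i) (hi2 : i + 1 ≤ r) (k : ℕ)
    (hk : k < (lv P i).card) (cl0 cu0 : P → ℤ)
    (h1 : ∀ z : P, lev z = i + 2 → (uc z).card = 1 → PowerSeries.coeff k (trm i (cl z)) = cl0 z)
    (h2 : ∀ x : P, lev x + 2 = i → (dc x).card = 1 → PowerSeries.coeff k (trm i (cu x)) = cu0 x)
    (Z X : Finset P) (hZ : ∀ z, z ∈ Z ↔ lev z = i + 2 ∧ (uc z).card = 1)
    (hX : ∀ x, x ∈ X ↔ lev x + 2 = i ∧ (dc x).card = 1) :
    ∑ e ∈ (near P i ∪ lv P i).piAntidiag 2, PowerSeries.coeff k (trm i e) +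
      ∑ z ∈ Z, cl0 z + ∑ x ∈ X, cu0 x = 0 := by
  classical
  have h := dvd_sum_trm H (i := i) (by omega) 2
  have h0 : PowerSeries.coeff k (∑ e ∈ (univ : Finset P).piAntidiag 2, trm i e) = 0 :=
    (PowerSeries.X_pow_dvd_iff.1 h) k hk
  rw [sum_far H hi hi2, map_add, map_add, map_sum, map_sum, map_sum] at h0
  rw [← h0]
  have hZ' : Z = univ.filter (fun z : P => lev z = i + 2 ∧ (uc z).card = 1) := by
    ext z
    rw [hZ, Finset.mem_filter]
    exact ⟨fun h => ⟨Finset.mem_univ _, h⟩, fun h => h.2⟩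
  have hX' : X = univ.filter (fun x : P => lev x + 2 = i ∧ (dc x).card = 1) := by
    ext z
    rw [hX, Finset.mem_filter]
    exact ⟨fun h => ⟨Finset.mem_univ _, h⟩, fun h => h.2⟩
  congr 1
  · congr 1
    rw [hZ']
    refine Finset.sum_congr (by congr) fun z hz => ?_
    rw [Finset.mem_filter] at hz
    exact (h1 z hz.2.1 hz.2.2).symm
  · rw [hX']
    refine Finset.sum_congr (by congr) fun z hz => ?_
    rw [Finset.mem_filter] at hz
    exact (h2 z hz.2.1 hz.2.2).symm

lemma EtF_tt_self {s : Finset P} : tt s s = (s.card : ℤ) := by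
  unfold tt
  rw [Finset.inter_self]

lemma EtF_tt_comm (s s' : Finset P) : tt s s' = tt s' s := by
  unfold tt
  rw [Finset.inter_comm]

lemma EtF_ee_self {s : Finset P} : ee s s = 1 := by
  unfold ee
  rw [if_pos rfl]

/-- First total sum: `dvd_sum_trm` with `n = 2`: the coefficient at `b - 2` of the sum vanishes
(`PowerSeries.X_pow_dvd_iff`; `dd` is `PowerSeries.X`); `sum_far`, `sum_parts` with `g = c0 i`, the table; the second
sums (`w = w`) are zero: `1 - 2 + 1`. -/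
theorem total0 (H : Gr P r) {i : ℕ} (hi : 1 ≤ i) (hi2 : i + 1 ≤ r) (hb : 2 ≤ (lv P i).card) :
    ∑ w ∈ dbL P i, ∑ w' ∈ dbL P i, (1 - tt (uc w) (uc w') + ee (uc w) (uc w')) +
    ∑ u ∈ dbU P i, ∑ u' ∈ dbU P i, (1 - tt (dc u) (dc u') + ee (dc u) (dc u')) -
    2 * ∑ w ∈ dbL P i, ∑ u ∈ dbU P i, (1 - tt (uc w) (dc u) + ee (uc w) (dc u)) = 0 := by
  classical
  obtain ⟨hv, hz, hx⟩ := c_rest H hi hi2 hb
  have hF := EtF_zero H hi hi2 ((lv P i).card - 2) (by omega) (fun _ => 0) (fun _ => 0)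
    (fun z h1 h2 => (hz z h1 h2).1) (fun x h1 h2 => (hx x h1 h2).1)
    (univ.filter (fun z : P => lev z = i + 2 ∧ (uc z).card = 1))
    (univ.filter (fun x : P => lev x + 2 = i ∧ (dc x).card = 1))
    (fun z => by simp) (fun z => by simp)
  rw [Finset.sum_const_zero, Finset.sum_const_zero, add_zero, add_zero] at hF
  have hF' : ∑ e ∈ (near P i ∪ lv P i).piAntidiag 2, c0 i e = 0 := hF
  have hS := sum_parts (P := P) (i := i) (c0 i)
  rw [hF', mul_zero] at hS
  have hLL : ∑ w ∈ LN P i, ∑ w' ∈ LN P i, c0 i (sg w + sg w') =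
      ∑ w ∈ dbL P i, ∑ w' ∈ dbL P i, (1 - tt (uc w) (uc w') + ee (uc w) (uc w')) := by
    rw [EtF_dbL]
    refine Finset.sum_congr rfl fun w hw => ?_
    rw [EtF_dbL, Finset.mul_sum]
    refine Finset.sum_congr rfl fun w' hw' => ?_
    rw [(c_LL H hi hi2 hb (EtF_mem_LN.1 hw) (EtF_mem_LN.1 hw')).1]
    ring
  have hL : ∑ w ∈ LN P i, c0 i (sg w + sg w) = 0 := by
    refine Finset.sum_eq_zero fun w hw => ?_
    rw [(c_LL H hi hi2 hb (EtF_mem_LN.1 hw) (EtF_mem_LN.1 hw)).1, EtF_tt_self, EtF_ee_self]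
    unfold d2
    split_ifs with h
    · rw [h]; norm_num
    · ring
  have hUU : ∑ w ∈ UN P i, ∑ w' ∈ UN P i, c0 i (sg w + sg w') =
      ∑ w ∈ dbU P i, ∑ w' ∈ dbU P i, (1 - tt (dc w) (dc w') + ee (dc w) (dc w')) := by
    rw [EtF_dbU]
    refine Finset.sum_congr rfl fun w hw => ?_
    rw [EtF_dbU, Finset.mul_sum]
    refine Finset.sum_congr rfl fun w' hw' => ?_
    rw [(c_UU H hi hi2 hb (EtF_mem_UN.1 hw) (EtF_mem_UN.1 hw')).1]
    ring
  have hU : ∑ w ∈ UN P i, c0 i (sg w + sg w) = 0 := by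
    refine Finset.sum_eq_zero fun w hw => ?_
    rw [(c_UU H hi hi2 hb (EtF_mem_UN.1 hw) (EtF_mem_UN.1 hw)).1, EtF_tt_self, EtF_ee_self]
    unfold d2
    split_ifs with h
    · rw [h]; norm_num
    · ring
  have hLU : ∑ w ∈ LN P i, ∑ u ∈ UN P i, c0 i (sg w + sg u) =
      -∑ w ∈ dbL P i, ∑ u ∈ dbU P i, (1 - tt (uc w) (dc u) + ee (uc w) (dc u)) := by
    rw [EtF_dbL, ← Finset.sum_neg_distrib]
    refine Finset.sum_congr rfl fun w hw => ?_
    rw [EtF_dbU, Finset.mul_sum, ← Finset.sum_neg_distrib]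
    refine Finset.sum_congr rfl fun w' hw' => ?_
    rw [(c_LU H hi hi2 hb (EtF_mem_LN.1 hw) (EtF_mem_UN.1 hw')).1]
    ring
  have hLv : ∑ w ∈ LN P i, ∑ v ∈ lv P i, c0 i (sg w + sg v) = 0 := by
    refine Finset.sum_eq_zero fun w hw => Finset.sum_eq_zero fun v hv' => ?_
    exact (c_Lv H hi hi2 hb (EtF_mem_LN.1 hw) (mem_lv.1 hv')).1
  have hUv : ∑ w ∈ UN P i, ∑ v ∈ lv P i, c0 i (sg w + sg v) = 0 := by
    refine Finset.sum_eq_zero fun w hw => Finset.sum_eq_zero fun v hv' => ?_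
    exact (c_Uv H hi hi2 hb (EtF_mem_UN.1 hw) (mem_lv.1 hv')).1
  have hvv : ∑ w ∈ lv P i, ∑ v ∈ lv P i, c0 i (sg w + sg v) = 0 := by
    refine Finset.sum_eq_zero fun w hw => Finset.sum_eq_zero fun v hv' => ?_
    exact (hv w v (mem_lv.1 hw) (mem_lv.1 hv')).1
  have hv1 : ∑ w ∈ lv P i, c0 i (sg w + sg w) = 0 := by
    refine Finset.sum_eq_zero fun w hw => ?_
    exact (hv w w (mem_lv.1 hw) (mem_lv.1 hw)).1
  rw [hLL, hL, hUU, hU, hLU, hLv, hUv, hvv, hv1] at hS
  linarith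

open Classical in
/-- single lower near elements -/
noncomputable def sgL (P : Type u) [Fintype P] [PartialOrder P] [DecidableEq P] (i : ℕ) :
    Finset P := univ.filter (fun x : P => lev x = i + 1 ∧ (uc x).card = 1)

open Classical in
/-- single upper near elements -/
noncomputable def sgU (P : Type u) [Fintype P] [PartialOrder P] [DecidableEq P] (i : ℕ) :
    Finset P := univ.filter (fun x : P => lev x + 1 = i ∧ (dc x).card = 1)

lemma EtF_sgL (i : ℕ) (F : P → ℤ) : ∑ w ∈ sgL P i, F w = ∑ w ∈ LN P i, d1 (uc w) * F w := by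
  classical
  have h1 : sgL P i = (LN P i).filter (fun w => (uc w).card = 1) := by
    ext x
    unfold sgL
    rw [Finset.mem_filter, Finset.mem_filter, EtF_mem_LN]
    simp
  rw [h1, Finset.sum_filter]
  refine Finset.sum_congr rfl fun w _ => ?_
  unfold d1
  split_ifs
  · rw [one_mul]
  · rw [zero_mul]

lemma EtF_sgU (i : ℕ) (F : P → ℤ) : ∑ w ∈ sgU P i, F w = ∑ w ∈ UN P i, d1 (dc w) * F w := by
  classical
  have h1 : sgU P i = (UN P i).filter (fun w => (dc w).card = 1) := by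
    ext x
    unfold sgU
    rw [Finset.mem_filter, Finset.mem_filter, EtF_mem_UN]
    simp
  rw [h1, Finset.sum_filter]
  refine Finset.sum_congr rfl fun w _ => ?_
  unfold d1
  split_ifs
  · rw [one_mul]
  · rw [zero_mul]

lemma EtF_d22 (s : Finset P) : d2 s * d2 s = d2 s := by
  unfold d2
  split_ifs
  · ring
  · ring

lemma EtF_d21 (s : Finset P) : d2 s * d1 s = 0 := by
  unfold d2 d1
  split_ifs with h1 h2
  · omega
  · ring
  · ring
  · ring

lemma EtF_cardL (i : ℕ) : ((dbL P i).card : ℤ) = ∑ w ∈ LN P i, d2 (uc w) := by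
  have h := EtF_dbL i (fun _ : P => (1 : ℤ))
  rw [Finset.sum_const, nsmul_eq_mul, mul_one] at h
  rw [h]
  exact Finset.sum_congr rfl fun w _ => mul_one _

lemma EtF_cardU (i : ℕ) : ((dbU P i).card : ℤ) = ∑ w ∈ UN P i, d2 (dc w) := by
  have h := EtF_dbU i (fun _ : P => (1 : ℤ))
  rw [Finset.sum_const, nsmul_eq_mul, mul_one] at h
  rw [h]
  exact Finset.sum_congr rfl fun w _ => mul_one _

/-- sum over a diagonal -/
lemma EtF_diag (M : Finset P) (D : P → ℤ) :
    ∑ w ∈ M, ∑ w' ∈ M, D w * D w' * (if w = w' then 1 else 0) = ∑ w ∈ M, D w * D w := by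
  refine Finset.sum_congr rfl fun w hw => ?_
  rw [Finset.sum_eq_single w]
  · rw [if_pos rfl, mul_one]
  · intro b _ hb
    rw [if_neg hb.symm, mul_zero]
  · intro h
    exact absurd hw h

/-- Second total sum: the same with `g = c1 i`. The diagonal pairs `w = w` contribute the indicator term of `c_LL` once in
the double sum and once in the second sum, together `2 |dbL|` (the rest of the formula is zero for `w = w'`
double: `-4 + 6 - 2 = 0`; single: `(0)`), similarly `-2 |dbU|`. -/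
theorem total1 (H : Gr P r) {i : ℕ} (hi : 1 ≤ i) (hi2 : i + 1 ≤ r) (hb : 2 ≤ (lv P i).card) :
    ∑ w ∈ dbL P i, ∑ w' ∈ dbL P i, (-4 + 3 * tt (uc w) (uc w') - 2 * ee (uc w) (uc w')) -
    2 * ∑ w ∈ dbL P i, ∑ w' ∈ sgL P i, (1 - tt (uc w) (uc w')) + 2 * ((dbL P i).card : ℤ) +
    ∑ u ∈ dbU P i, ∑ u' ∈ dbU P i, (2 - tt (dc u) (dc u')) +
    2 * ∑ u ∈ dbU P i, ∑ u' ∈ sgU P i, (1 - tt (dc u) (dc u')) - 2 * ((dbU P i).card : ℤ) +
    2 * ∑ w ∈ dbL P i, ∑ u ∈ dbU P i, (1 - tt (uc w) (dc u) + ee (uc w) (dc u)) -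
    2 * ∑ w ∈ dbL P i, ∑ u ∈ sgU P i, (1 - tt (uc w) (dc u)) +
    2 * ∑ w ∈ sgL P i, ∑ u ∈ dbU P i, (1 - tt (uc w) (dc u)) +
    2 * ∑ w ∈ dbL P i, ∑ v ∈ lv P i, (1 - 2 * (if v ∈ uc w then 1 else 0)) -
    2 * ∑ u ∈ dbU P i, ∑ v ∈ lv P i, (1 - 2 * (if v ∈ dc u then 1 else 0)) +
    2 * ((PD P i).card : ℤ) - 2 * ((PU P i).card : ℤ) = 0 := by
  classical
  obtain ⟨hv, hz, hx⟩ := c_rest H hi hi2 hb
  have hF := EtF_zero H hi hi2 ((lv P i).card - 1) (by omega)
    (fun z => if z ∈ PD P i then 1 else 0) (fun x => if x ∈ PU P i then -1 else 0)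
    (fun z h1 h2 => by
      by_cases h : z ∈ PD P i
      · rw [if_pos h]
        exact (hz z h1 h2).2.1 h
      · rw [if_neg h]
        exact (hz z h1 h2).2.2 h)
    (fun x h1 h2 => by
      by_cases h : x ∈ PU P i
      · rw [if_pos h]
        exact (hx x h1 h2).2.1 h
      · rw [if_neg h]
        exact (hx x h1 h2).2.2 h)
    (univ.filter (fun z : P => lev z = i + 2 ∧ (uc z).card = 1))
    (univ.filter (fun x : P => lev x + 2 = i ∧ (dc x).card = 1))
    (fun z => by simp) (fun z => by simp)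
  have hPD : ∑ z ∈ univ.filter (fun z : P => lev z = i + 2 ∧ (uc z).card = 1),
      (if z ∈ PD P i then (1 : ℤ) else 0) = ((PD P i).card : ℤ) := by
    rw [← Finset.sum_filter, Finset.sum_const, nsmul_eq_mul, mul_one]
    congr 2
    ext z
    rw [Finset.mem_filter, Finset.mem_filter]
    constructor
    · intro h
      exact h.2
    · intro h
      refine ⟨⟨Finset.mem_univ _, ?_⟩, h⟩
      unfold PD at h
      rw [Finset.mem_filter] at h
      exact ⟨h.2.1, h.2.2.1⟩
  have hPU : ∑ z ∈ univ.filter (fun z : P => lev z + 2 = i ∧ (dc z).card = 1),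
      (if z ∈ PU P i then (-1 : ℤ) else 0) = -((PU P i).card : ℤ) := by
    rw [← Finset.sum_filter, Finset.sum_const, nsmul_eq_mul, mul_neg_one]
    congr 3
    ext z
    rw [Finset.mem_filter, Finset.mem_filter]
    constructor
    · intro h
      exact h.2
    · intro h
      refine ⟨⟨Finset.mem_univ _, ?_⟩, h⟩
      unfold PU at h
      rw [Finset.mem_filter] at h
      exact ⟨h.2.1, h.2.2.1⟩
  rw [hPD, hPU] at hF
  have hF' : ∑ e ∈ (near P i ∪ lv P i).piAntidiag 2, c1 i e + ((PD P i).card : ℤ) +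
      -((PU P i).card : ℤ) = 0 := hF
  have hS := sum_parts (P := P) (i := i) (c1 i)
  have hLL : ∑ w ∈ LN P i, ∑ w' ∈ LN P i, c1 i (sg w + sg w') =
      ∑ w ∈ dbL P i, ∑ w' ∈ dbL P i,
        (-4 + 3 * tt (uc w) (uc w') - 2 * ee (uc w) (uc w')) +
      ((dbL P i).card : ℤ) -
      2 * ∑ w ∈ dbL P i, ∑ w' ∈ sgL P i, (1 - tt (uc w) (uc w')) := by
    have a1 : ∑ w ∈ dbL P i, ∑ w' ∈ dbL P i,
        (-4 + 3 * tt (uc w) (uc w') - 2 * ee (uc w) (uc w')) =
        ∑ w ∈ LN P i, ∑ w' ∈ LN P i, d2 (uc w) * d2 (uc w') *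
          (-4 + 3 * tt (uc w) (uc w') - 2 * ee (uc w) (uc w')) := by
      rw [EtF_dbL]
      refine Finset.sum_congr rfl fun w hw => ?_
      rw [EtF_dbL, Finset.mul_sum]
      exact Finset.sum_congr rfl fun w' _ => by ring
    have a2 : ((dbL P i).card : ℤ) = ∑ w ∈ LN P i, ∑ w' ∈ LN P i,
        d2 (uc w) * d2 (uc w') * (if w = w' then 1 else 0) := by
      rw [EtF_diag (LN P i) (fun w => d2 (uc w)), EtF_cardL]
      exact Finset.sum_congr rfl fun w _ => (EtF_d22 _).symm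
    have a3 : ∑ w ∈ dbL P i, ∑ w' ∈ sgL P i, (1 - tt (uc w) (uc w')) =
        ∑ w ∈ LN P i, ∑ w' ∈ LN P i, d2 (uc w) * d1 (uc w') * (1 - tt (uc w) (uc w')) := by
      rw [EtF_dbL]
      refine Finset.sum_congr rfl fun w hw => ?_
      rw [EtF_sgL, Finset.mul_sum]
      exact Finset.sum_congr rfl fun w' _ => by ring
    have a4 : ∑ w ∈ dbL P i, ∑ w' ∈ sgL P i, (1 - tt (uc w) (uc w')) =
        ∑ w ∈ LN P i, ∑ w' ∈ LN P i, d1 (uc w) * d2 (uc w') * (1 - tt (uc w) (uc w')) := by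
      rw [a3, Finset.sum_comm]
      exact Finset.sum_congr rfl fun w _ => Finset.sum_congr rfl fun w' _ => by
        rw [EtF_tt_comm]; ring
    rw [two_mul]
    nth_rewrite 2 [a4]
    rw [a1, a2, a3, ← Finset.sum_add_distrib, ← Finset.sum_add_distrib, ← Finset.sum_sub_distrib]
    refine Finset.sum_congr rfl fun w hw => ?_
    rw [← Finset.sum_add_distrib, ← Finset.sum_add_distrib, ← Finset.sum_sub_distrib]
    refine Finset.sum_congr rfl fun w' hw' => ?_
    rw [(c_LL H hi hi2 hb (EtF_mem_LN.1 hw) (EtF_mem_LN.1 hw')).2]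
    ring
  have hL : ∑ w ∈ LN P i, c1 i (sg w + sg w) = ((dbL P i).card : ℤ) := by
    rw [EtF_cardL]
    refine Finset.sum_congr rfl fun w hw => ?_
    rw [(c_LL H hi hi2 hb (EtF_mem_LN.1 hw) (EtF_mem_LN.1 hw)).2, EtF_tt_self, EtF_ee_self,
      if_pos rfl, mul_comm (d1 (uc w)), EtF_d21, EtF_d22]
    unfold d2
    split_ifs with h
    · rw [h]; norm_num
    · ring
  have hUU : ∑ w ∈ UN P i, ∑ w' ∈ UN P i, c1 i (sg w + sg w') =
      ∑ w ∈ dbU P i, ∑ w' ∈ dbU P i, (2 - tt (dc w) (dc w')) -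
      ((dbU P i).card : ℤ) +
      2 * ∑ w ∈ dbU P i, ∑ w' ∈ sgU P i, (1 - tt (dc w) (dc w')) := by
    have a1 : ∑ w ∈ dbU P i, ∑ w' ∈ dbU P i, (2 - tt (dc w) (dc w')) =
        ∑ w ∈ UN P i, ∑ w' ∈ UN P i, d2 (dc w) * d2 (dc w') * (2 - tt (dc w) (dc w')) := by
      rw [EtF_dbU]
      refine Finset.sum_congr rfl fun w hw => ?_
      rw [EtF_dbU, Finset.mul_sum]
      exact Finset.sum_congr rfl fun w' _ => by ring
    have a2 : ((dbU P i).card : ℤ) = ∑ w ∈ UN P i, ∑ w' ∈ UN P i,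
        d2 (dc w) * d2 (dc w') * (if w = w' then 1 else 0) := by
      rw [EtF_diag (UN P i) (fun w => d2 (dc w)), EtF_cardU]
      exact Finset.sum_congr rfl fun w _ => (EtF_d22 _).symm
    have a3 : ∑ w ∈ dbU P i, ∑ w' ∈ sgU P i, (1 - tt (dc w) (dc w')) =
        ∑ w ∈ UN P i, ∑ w' ∈ UN P i, d2 (dc w) * d1 (dc w') * (1 - tt (dc w) (dc w')) := by
      rw [EtF_dbU]
      refine Finset.sum_congr rfl fun w hw => ?_
      rw [EtF_sgU, Finset.mul_sum]
      exact Finset.sum_congr rfl fun w' _ => by ring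
    have a4 : ∑ w ∈ dbU P i, ∑ w' ∈ sgU P i, (1 - tt (dc w) (dc w')) =
        ∑ w ∈ UN P i, ∑ w' ∈ UN P i, d1 (dc w) * d2 (dc w') * (1 - tt (dc w) (dc w')) := by
      rw [a3, Finset.sum_comm]
      exact Finset.sum_congr rfl fun w _ => Finset.sum_congr rfl fun w' _ => by
        rw [EtF_tt_comm]; ring
    rw [two_mul]
    nth_rewrite 2 [a4]
    rw [a1, a2, a3, ← Finset.sum_sub_distrib, ← Finset.sum_add_distrib, ← Finset.sum_add_distrib]
    refine Finset.sum_congr rfl fun w hw => ?_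
    rw [← Finset.sum_sub_distrib, ← Finset.sum_add_distrib, ← Finset.sum_add_distrib]
    refine Finset.sum_congr rfl fun w' hw' => ?_
    rw [(c_UU H hi hi2 hb (EtF_mem_UN.1 hw) (EtF_mem_UN.1 hw')).2]
    ring
  have hU : ∑ w ∈ UN P i, c1 i (sg w + sg w) = -((dbU P i).card : ℤ) := by
    rw [EtF_cardU, ← Finset.sum_neg_distrib]
    refine Finset.sum_congr rfl fun w hw => ?_
    rw [(c_UU H hi hi2 hb (EtF_mem_UN.1 hw) (EtF_mem_UN.1 hw)).2, EtF_tt_self,
      if_pos rfl, mul_comm (d1 (dc w)), EtF_d21, EtF_d22]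
    unfold d2
    split_ifs with h
    · rw [h]; norm_num
    · ring
  have hLU : ∑ w ∈ LN P i, ∑ u ∈ UN P i, c1 i (sg w + sg u) =
      ∑ w ∈ dbL P i, ∑ u ∈ dbU P i, (1 - tt (uc w) (dc u) + ee (uc w) (dc u)) -
      ∑ w ∈ dbL P i, ∑ u ∈ sgU P i, (1 - tt (uc w) (dc u)) +
      ∑ w ∈ sgL P i, ∑ u ∈ dbU P i, (1 - tt (uc w) (dc u)) := by
    rw [EtF_dbL, EtF_dbL, EtF_sgL, ← Finset.sum_sub_distrib, ← Finset.sum_add_distrib]
    refine Finset.sum_congr rfl fun w hw => ?_
    rw [EtF_dbU, EtF_sgU, EtF_dbU, Finset.mul_sum, Finset.mul_sum, Finset.mul_sum,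
      ← Finset.sum_sub_distrib, ← Finset.sum_add_distrib]
    refine Finset.sum_congr rfl fun w' hw' => ?_
    rw [(c_LU H hi hi2 hb (EtF_mem_LN.1 hw) (EtF_mem_UN.1 hw')).2]
    ring
  have hLv : ∑ w ∈ LN P i, ∑ v ∈ lv P i, c1 i (sg w + sg v) =
      ∑ w ∈ dbL P i, ∑ v ∈ lv P i, (1 - 2 * (if v ∈ uc w then 1 else 0)) := by
    rw [EtF_dbL]
    refine Finset.sum_congr rfl fun w hw => ?_
    rw [Finset.mul_sum]
    refine Finset.sum_congr rfl fun v hv' => ?_
    exact (c_Lv H hi hi2 hb (EtF_mem_LN.1 hw) (mem_lv.1 hv')).2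
  have hUv : ∑ w ∈ UN P i, ∑ v ∈ lv P i, c1 i (sg w + sg v) =
      -∑ w ∈ dbU P i, ∑ v ∈ lv P i, (1 - 2 * (if v ∈ dc w then 1 else 0)) := by
    rw [EtF_dbU, ← Finset.sum_neg_distrib]
    refine Finset.sum_congr rfl fun w hw => ?_
    rw [Finset.mul_sum, ← Finset.sum_neg_distrib]
    refine Finset.sum_congr rfl fun v hv' => ?_
    exact (c_Uv H hi hi2 hb (EtF_mem_UN.1 hw) (mem_lv.1 hv')).2
  have hvv : ∑ w ∈ lv P i, ∑ v ∈ lv P i, c1 i (sg w + sg v) = 0 := by
    refine Finset.sum_eq_zero fun w hw => Finset.sum_eq_zero fun v hv' => ?_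
    exact (hv w v (mem_lv.1 hw) (mem_lv.1 hv')).2
  have hv1 : ∑ w ∈ lv P i, c1 i (sg w + sg w) = 0 := by
    refine Finset.sum_eq_zero fun w hw => ?_
    exact (hv w w (mem_lv.1 hw) (mem_lv.1 hw)).2
  rw [hLL, hL, hUU, hU, hLU, hLv, hUv, hvv, hv1] at hS
  linarith

end Pool.Agent.GaussPoset.Win

end

/-! From `Pool.Agent.W_448win_h16.Crd` -/

section

/-! Coordinates for the top part of the poset, rows, and the level sums. -/

namespace Pool.Agent.GaussPoset.Win

set_option linter.unusedSectionVars false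

open Finset

universe u

variable {P : Type u} [Fintype P] [PartialOrder P] [DecidableEq P] {r : ℕ}

/-- region of the coordinates: the strip `i < n` for `some n`, the shifted quadrant `i ≤ c` for
`none` -/
def Rg (t : Option ℕ) (i c : ℕ) : Prop :=
  match t with
  | some n => i < n
  | none => i ≤ c

/-- last index of level `l` -/
def mm (t : Option ℕ) (l : ℕ) : ℕ :=
  match t with
  | some n => min (n - 1) l
  | none => l / 2

/-- the elements of level `l` are the `x_i = e i (l - i)`, `i ≤ m`, all different, and neighbours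
have exactly one common upper cover, other pairs none -/
structure Row (l m : ℕ) (e : ℕ → ℕ → P) : Prop where
  lev_x : ∀ i ≤ m, lev (e i (l - i)) = l
  inj : ∀ i ≤ m, ∀ i' ≤ m, e i (l - i) = e i' (l - i') → i = i'
  surj : ∀ v : P, lev v = l → ∃ i ≤ m, e i (l - i) = v
  ucv_x : ∀ i ≤ m, ∀ i' ≤ m, i ≠ i' →
    ucv (e i (l - i)) (e i' (l - i')) = if i + 1 = i' ∨ i' + 1 = i then 1 else 0

/-- `v` has `dgD i v` double lower covers, counted with the other sites -/
noncomputable def dgD (i : ℕ) (v : P) : ℤ := ∑ v' ∈ (lv P i).erase v, (dcv v v' : ℤ)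

/-- `v` has `dgT i v` double upper covers -/
noncomputable def dgT (i : ℕ) (v : P) : ℤ := ∑ v' ∈ (lv P i).erase v, (ucv v v' : ℤ)

open Classical in
/-- number of single lower covers and single upper covers of `v` -/
noncomputable def sing (v : P) : ℤ :=
  ((dc v).filter (fun w => (uc w).card = 1)).card + ((uc v).filter (fun u => (dc u).card = 1)).card

end Pool.Agent.GaussPoset.Win

end

/-! From `Pool.Agent.W_448win_h16.EtG` -/

section

/-! Energy two: counting. -/

namespace Pool.Agent.GaussPoset.Win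

set_option linter.unusedSectionVars false

open Finset

universe u

variable {P : Type u} [Fintype P] [PartialOrder P] [DecidableEq P] {r : ℕ}

/-- double counting of a relation -/
lemma EtG_dc (V B : Finset P) (h : P → Finset P) (hs : ∀ w ∈ B, h w ⊆ V) :
    ∑ v ∈ V, ((B.filter (fun w => v ∈ h w)).card : ℤ) = ∑ w ∈ B, ((h w).card : ℤ) := by
  classical
  have h1 : ∀ v ∈ V, ((B.filter (fun w => v ∈ h w)).card : ℤ) =
      ∑ w ∈ B, (if v ∈ h w then (1 : ℤ) else 0) := by
    intro v _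
    rw [Finset.card_filter]
    push_cast
    rfl
  have h2 : ∀ w ∈ B, ((h w).card : ℤ) = ∑ v ∈ V, (if v ∈ h w then (1 : ℤ) else 0) := by
    intro w hw
    rw [Finset.sum_ite_mem, Finset.inter_eq_right.2 (hs w hw), Finset.sum_const, nsmul_eq_mul,
      mul_one]
  rw [Finset.sum_congr rfl h1, Finset.sum_congr rfl h2, Finset.sum_comm]

/-- the ordered pairs of different elements of a set with at most two elements -/
lemma EtG_pairs (V s t : Finset P) (hs : s ⊆ V) (hs2 : s.card = 2) (ht2 : t.card = 2) :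
    ∑ v ∈ V, ∑ v' ∈ V.erase v, ((if v ∈ s ∧ v' ∈ s then (1 : ℤ) else 0) *
      (if v ∈ t ∧ v' ∈ t then 1 else 0)) = 2 * ee s t := by
  classical
  have hst : s ∩ t ⊆ V := fun x hx => hs (Finset.mem_inter.1 hx).1
  have h1 : ∀ v ∈ V, ∑ v' ∈ V.erase v, ((if v ∈ s ∧ v' ∈ s then (1 : ℤ) else 0) *
      (if v ∈ t ∧ v' ∈ t then 1 else 0)) =
      if v ∈ s ∩ t then (((s ∩ t).card - 1 : ℕ) : ℤ) else 0 := by
    intro v hv
    by_cases h : v ∈ s ∩ t
    · rw [if_pos h]
      have h' := Finset.mem_inter.1 h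
      have h2 : ∀ v' ∈ V.erase v, ((if v ∈ s ∧ v' ∈ s then (1 : ℤ) else 0) *
          (if v ∈ t ∧ v' ∈ t then 1 else 0)) = if v' ∈ s ∩ t then 1 else 0 := by
        intro v' _
        by_cases h3 : v' ∈ s <;> by_cases h4 : v' ∈ t <;>
          simp [Finset.mem_inter, h3, h4, h'.1, h'.2]
      rw [Finset.sum_congr rfl h2, Finset.sum_ite_mem, Finset.sum_const, nsmul_eq_mul, mul_one]
      congr 1
      rw [← Finset.card_erase_of_mem h]
      congr 1
      ext x
      simp only [Finset.mem_inter, Finset.mem_erase]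
      constructor
      · rintro ⟨⟨h3, -⟩, h4⟩
        exact ⟨h3, h4⟩
      · rintro ⟨h3, h4⟩
        exact ⟨⟨h3, hs h4.1⟩, h4⟩
    · rw [if_neg h]
      apply Finset.sum_eq_zero
      intro v' _
      rw [Finset.mem_inter] at h
      by_cases h3 : v ∈ s
      · have h4 : v ∉ t := fun h4 => h ⟨h3, h4⟩
        simp [h4]
      · simp [h3]
  rw [Finset.sum_congr rfl h1, Finset.sum_ite_mem, Finset.inter_eq_right.2 hst, Finset.sum_const,
    nsmul_eq_mul]
  unfold ee
  by_cases h : s = t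
  · rw [if_pos h, ← h, Finset.inter_self, hs2]
    norm_num
  · rw [if_neg h]
    have h3 : (s ∩ t).card < 2 := by
      by_contra hcon
      push Not at hcon
      apply h
      have h4 : s ∩ t = s := Finset.eq_of_subset_of_card_le Finset.inter_subset_left (by omega)
      have h5 : s ∩ t = t := Finset.eq_of_subset_of_card_le Finset.inter_subset_right (by omega)
      rw [← h4, h5]
    have h4 : (s ∩ t).card = 0 ∨ (s ∩ t).card = 1 := by omega
    rcases h4 with h4 | h4 <;> rw [h4] <;> norm_num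

/-- Double counting of common elements: `|s ∩ s'| = ∑ v ∈ V, [v ∈ s] [v ∈ s']` for subsets `s` of `V`. -/
theorem count_tt (V A' B' : Finset P) (f g : P → Finset P) (hf : ∀ a ∈ A', f a ⊆ V) :
    ∑ a ∈ A', ∑ b ∈ B', tt (f a) (g b) =
      ∑ v ∈ V, ((A'.filter (fun a => v ∈ f a)).card : ℤ) * ((B'.filter (fun b => v ∈ g b)).card : ℤ) := by
  classical
  have h1 : ∀ a ∈ A', ∀ b ∈ B', tt (f a) (g b) =
      ∑ v ∈ V, (if v ∈ f a then (1 : ℤ) else 0) * (if v ∈ g b then 1 else 0) := by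
    intro a ha b hb
    unfold tt
    have h2 : f a ∩ g b = V.filter (fun v => v ∈ f a ∧ v ∈ g b) := by
      ext v
      simp only [Finset.mem_inter, Finset.mem_filter]
      constructor
      · rintro ⟨h1, h2⟩
        exact ⟨hf a ha h1, h1, h2⟩
      · rintro ⟨_, h1, h2⟩
        exact ⟨h1, h2⟩
    rw [h2, Finset.card_filter]
    push_cast
    refine Finset.sum_congr rfl fun v _ => ?_
    by_cases h1 : v ∈ f a <;> by_cases h2 : v ∈ g b <;> simp [h1, h2]
  have h2 : ∀ v ∈ V, ((A'.filter (fun a => v ∈ f a)).card : ℤ) *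
      ((B'.filter (fun b => v ∈ g b)).card : ℤ) =
      ∑ a ∈ A', ∑ b ∈ B', (if v ∈ f a then (1 : ℤ) else 0) * (if v ∈ g b then 1 else 0) := by
    intro v _
    rw [Finset.card_filter, Finset.card_filter]
    push_cast
    rw [Finset.sum_mul_sum]
  rw [Finset.sum_congr rfl h2]
  calc ∑ a ∈ A', ∑ b ∈ B', tt (f a) (g b)
      = ∑ a ∈ A', ∑ b ∈ B', ∑ v ∈ V,
          (if v ∈ f a then (1 : ℤ) else 0) * (if v ∈ g b then 1 else 0) :=
        Finset.sum_congr rfl fun a ha => Finset.sum_congr rfl fun b hb => h1 a ha b hb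
    _ = ∑ a ∈ A', ∑ v ∈ V, ∑ b ∈ B',
          (if v ∈ f a then (1 : ℤ) else 0) * (if v ∈ g b then 1 else 0) :=
        Finset.sum_congr rfl fun a _ => Finset.sum_comm
    _ = ∑ v ∈ V, ∑ a ∈ A', ∑ b ∈ B',
          (if v ∈ f a then (1 : ℤ) else 0) * (if v ∈ g b then 1 else 0) := Finset.sum_comm

/-- Double counting of equal pairs: for two-element subsets `s = {v, v'}` of `V` there are two ordered pairs. -/
theorem count_ee (V A' B' : Finset P) (f g : P → Finset P) (hf : ∀ a ∈ A', f a ⊆ V)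
    (hf2 : ∀ a ∈ A', (f a).card = 2) (hg2 : ∀ b ∈ B', (g b).card = 2) :
    2 * ∑ a ∈ A', ∑ b ∈ B', ee (f a) (g b) =
      ∑ v ∈ V, ∑ v' ∈ V.erase v, ((A'.filter (fun a => v ∈ f a ∧ v' ∈ f a)).card : ℤ) *
        ((B'.filter (fun b => v ∈ g b ∧ v' ∈ g b)).card : ℤ) := by
  classical
  have h2 : ∀ v ∈ V, ∀ v' ∈ V.erase v, ((A'.filter (fun a => v ∈ f a ∧ v' ∈ f a)).card : ℤ) *
      ((B'.filter (fun b => v ∈ g b ∧ v' ∈ g b)).card : ℤ) =
      ∑ a ∈ A', ∑ b ∈ B', (if v ∈ f a ∧ v' ∈ f a then (1 : ℤ) else 0) *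
        (if v ∈ g b ∧ v' ∈ g b then 1 else 0) := by
    intro v _ v' _
    rw [Finset.card_filter, Finset.card_filter]
    push_cast
    rw [Finset.sum_mul_sum]
  rw [Finset.sum_congr rfl fun v hv => Finset.sum_congr rfl fun v' hv' => h2 v hv v' hv']
  symm
  calc ∑ v ∈ V, ∑ v' ∈ V.erase v, ∑ a ∈ A', ∑ b ∈ B',
          (if v ∈ f a ∧ v' ∈ f a then (1 : ℤ) else 0) * (if v ∈ g b ∧ v' ∈ g b then 1 else 0)
      = ∑ v ∈ V, ∑ a ∈ A', ∑ v' ∈ V.erase v, ∑ b ∈ B',
          (if v ∈ f a ∧ v' ∈ f a then (1 : ℤ) else 0) * (if v ∈ g b ∧ v' ∈ g b then 1 else 0) :=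
        Finset.sum_congr rfl fun v _ => Finset.sum_comm
    _ = ∑ a ∈ A', ∑ v ∈ V, ∑ v' ∈ V.erase v, ∑ b ∈ B',
          (if v ∈ f a ∧ v' ∈ f a then (1 : ℤ) else 0) * (if v ∈ g b ∧ v' ∈ g b then 1 else 0) :=
        Finset.sum_comm
    _ = ∑ a ∈ A', ∑ v ∈ V, ∑ b ∈ B', ∑ v' ∈ V.erase v,
          (if v ∈ f a ∧ v' ∈ f a then (1 : ℤ) else 0) * (if v ∈ g b ∧ v' ∈ g b then 1 else 0) :=
        Finset.sum_congr rfl fun a _ => Finset.sum_congr rfl fun v _ => Finset.sum_comm
    _ = ∑ a ∈ A', ∑ b ∈ B', ∑ v ∈ V, ∑ v' ∈ V.erase v,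
          (if v ∈ f a ∧ v' ∈ f a then (1 : ℤ) else 0) * (if v ∈ g b ∧ v' ∈ g b then 1 else 0) :=
        Finset.sum_congr rfl fun a _ => Finset.sum_comm
    _ = ∑ a ∈ A', ∑ b ∈ B', 2 * ee (f a) (g b) :=
        Finset.sum_congr rfl fun a ha => Finset.sum_congr rfl fun b hb =>
          EtG_pairs V (f a) (g b) (hf a ha) (hf2 a ha) (hg2 b hb)
    _ = 2 * ∑ a ∈ A', ∑ b ∈ B', ee (f a) (g b) := by
        rw [Finset.mul_sum]
        exact Finset.sum_congr rfl fun a _ => by rw [Finset.mul_sum]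

/-- The double lower near elements below two sites are the common lower covers (`uc_card_le`), those below one site are
counted by `dgD`. -/
theorem cnt_dbL (H : Gr P r) {i : ℕ} {v : P} (hv : lev v = i) :
    (∀ v' : P, lev v' = i → v ≠ v' →
      ((dbL P i).filter (fun w => v ∈ uc w ∧ v' ∈ uc w)).card = dcv v v') ∧
    (((dbL P i).filter (fun w => v ∈ uc w)).card : ℤ) = dgD i v := by
  classical
  have key : ∀ v' : P, lev v' = i → v ≠ v' →
      ((dbL P i).filter (fun w => v ∈ uc w ∧ v' ∈ uc w)).card = dcv v v' := by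
    intro v' hv' hne
    unfold dcv
    congr 1
    ext w
    rw [Finset.mem_filter, Finset.mem_filter, mem_dbL, mem_uc, mem_uc]
    constructor
    · rintro ⟨-, h1, h2⟩
      exact ⟨mem_univ _, h1, h2⟩
    · rintro ⟨-, h1, h2⟩
      have h3 := (H.covBy_iff.1 h1).2
      refine ⟨⟨by omega, ?_⟩, h1, h2⟩
      have h4 : ({v, v'} : Finset P) ⊆ uc w := by
        intro x hx
        rw [Finset.mem_insert, Finset.mem_singleton] at hx
        rcases hx with hx | hx
        · rw [hx]; exact mem_uc.2 h1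
        · rw [hx]; exact mem_uc.2 h2
      have h5 := Finset.card_le_card h4
      rw [Finset.card_pair hne] at h5
      have h6 := uc_card_le H w
      omega
  refine ⟨key, ?_⟩
  unfold dgD
  have h1 : ∀ v' ∈ (lv P i).erase v, (dcv v v' : ℤ) =
      ((((dbL P i).filter (fun w => v ∈ uc w)).filter
        (fun w => v' ∈ (uc w).erase v)).card : ℤ) := by
    intro v' hv'
    rw [Finset.mem_erase, mem_lv] at hv'
    rw [← key v' hv'.2 (Ne.symm hv'.1), Finset.filter_filter]
    congr 2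
    ext w
    simp only [Finset.mem_filter, Finset.mem_erase]
    constructor
    · rintro ⟨h2, h3, h4⟩
      exact ⟨h2, h3, hv'.1, h4⟩
    · rintro ⟨h2, h3, -, h4⟩
      exact ⟨h2, h3, h4⟩
  rw [Finset.sum_congr rfl h1, EtG_dc]
  · have h2 : ∀ w ∈ (dbL P i).filter (fun w => v ∈ uc w), (((uc w).erase v).card : ℤ) = 1 := by
      intro w hw
      rw [Finset.mem_filter, mem_dbL] at hw
      rw [Finset.card_erase_of_mem hw.2, hw.1.2]
      norm_num
    rw [Finset.sum_congr rfl h2, Finset.sum_const, nsmul_eq_mul, mul_one]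
  · intro w hw x hx
    rw [Finset.mem_filter, mem_dbL] at hw
    rw [Finset.mem_erase] at hx ⊢
    refine ⟨hx.1, ?_⟩
    rw [mem_lv]
    have := lev_uc H hx.2
    omega

/-- mirror image of `cnt_dbL` -/
theorem cnt_dbU (H : Gr P r) {i : ℕ} (hi : i ≤ r) {v : P} (hv : lev v = i) :
    (∀ v' : P, lev v' = i → v ≠ v' →
      ((dbU P i).filter (fun u => v ∈ dc u ∧ v' ∈ dc u)).card = ucv v v') ∧
    (((dbU P i).filter (fun u => v ∈ dc u)).card : ℤ) = dgT i v := by
  classical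
  have key : ∀ v' : P, lev v' = i → v ≠ v' →
      ((dbU P i).filter (fun w => v ∈ dc w ∧ v' ∈ dc w)).card = ucv v v' := by
    intro v' hv' hne
    unfold ucv
    congr 1
    ext w
    rw [Finset.mem_filter, Finset.mem_filter, mem_dbU, mem_dc, mem_dc]
    constructor
    · rintro ⟨-, h1, h2⟩
      exact ⟨mem_univ _, h1, h2⟩
    · rintro ⟨-, h1, h2⟩
      have h3 := (H.covBy_iff.1 h1).2
      refine ⟨⟨by omega, ?_⟩, h1, h2⟩
      have h4 : ({v, v'} : Finset P) ⊆ dc w := by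
        intro x hx
        rw [Finset.mem_insert, Finset.mem_singleton] at hx
        rcases hx with hx | hx
        · rw [hx]; exact mem_dc.2 h1
        · rw [hx]; exact mem_dc.2 h2
      have h5 := Finset.card_le_card h4
      rw [Finset.card_pair hne] at h5
      have h6 := dc_card_le H w
      omega
  refine ⟨key, ?_⟩
  unfold dgT
  have h1 : ∀ v' ∈ (lv P i).erase v, (ucv v v' : ℤ) =
      ((((dbU P i).filter (fun w => v ∈ dc w)).filter
        (fun w => v' ∈ (dc w).erase v)).card : ℤ) := by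
    intro v' hv'
    rw [Finset.mem_erase, mem_lv] at hv'
    rw [← key v' hv'.2 (Ne.symm hv'.1), Finset.filter_filter]
    congr 2
    ext w
    simp only [Finset.mem_filter, Finset.mem_erase]
    constructor
    · rintro ⟨h2, h3, h4⟩
      exact ⟨h2, h3, hv'.1, h4⟩
    · rintro ⟨h2, h3, -, h4⟩
      exact ⟨h2, h3, h4⟩
  rw [Finset.sum_congr rfl h1, EtG_dc]
  · have h2 : ∀ w ∈ (dbU P i).filter (fun w => v ∈ dc w), (((dc w).erase v).card : ℤ) = 1 := by
      intro w hw
      rw [Finset.mem_filter, mem_dbU] at hw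
      rw [Finset.card_erase_of_mem hw.2, hw.1.2]
      norm_num
    rw [Finset.sum_congr rfl h2, Finset.sum_const, nsmul_eq_mul, mul_one]
  · intro w hw x hx
    rw [Finset.mem_filter, mem_dbU] at hw
    rw [Finset.mem_erase] at hx ⊢
    refine ⟨hx.1, ?_⟩
    rw [mem_lv]
    have := lev_dc H hx.2
    omega

/-- the single near elements above and below a site: `sing` -/
theorem cnt_sg (H : Gr P r) {i : ℕ} {v : P} (hv : lev v = i) :
    (((sgL P i).filter (fun w => v ∈ uc w)).card : ℤ) +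
      (((sgU P i).filter (fun u => v ∈ dc u)).card : ℤ) = sing v := by
  classical
  unfold sing
  have h1 : (sgL P i).filter (fun w => v ∈ uc w) = (dc v).filter (fun w => (uc w).card = 1) := by
    ext w
    unfold sgL
    simp only [Finset.mem_filter, mem_uc, mem_dc, mem_univ, true_and]
    constructor
    · rintro ⟨⟨h2, h3⟩, h4⟩
      exact ⟨h4, h3⟩
    · rintro ⟨h2, h3⟩
      have h4 := (H.covBy_iff.1 h2).2
      exact ⟨⟨by omega, h3⟩, h2⟩
  have h2 : (sgU P i).filter (fun w => v ∈ dc w) = (uc v).filter (fun w => (dc w).card = 1) := by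
    ext w
    unfold sgU
    simp only [Finset.mem_filter, mem_uc, mem_dc, mem_univ, true_and]
    constructor
    · rintro ⟨⟨h2, h3⟩, h4⟩
      exact ⟨h4, h3⟩
    · rintro ⟨h2, h3⟩
      have h4 := (H.covBy_iff.1 h2).2
      exact ⟨⟨by omega, h3⟩, h2⟩
  rw [h1, h2]

/-- the numbers of double elements below and above agree (`count_eq`: `dn`, `up` equal to two), and
`2 |dbL| = ∑ v, ∑ v' ≠ v, dcv v v'`, i.e. `∑ v, dgD i v = 2 |dbL|` -/
theorem cnt_n (H : Gr P r) {i : ℕ} (hi : i ≤ r) :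
    (dbL P i).card = (dbU P i).card ∧ ∑ v ∈ lv P i, dgD i v = 2 * ((dbL P i).card : ℤ) ∧
      ∑ v ∈ lv P i, dgT i v = 2 * ((dbU P i).card : ℤ) := by
  classical
  refine ⟨?_, ?_, ?_⟩
  · have h1 := count_eq H hi
    have h2 : (univ.filter (fun a : P => lev a + 1 = i)).filter (fun a => dn i a = 2) =
        dbU P i := by
      ext a
      rw [Finset.mem_filter, Finset.mem_filter, mem_dbU]
      have h3 : lev a + 1 = i → dn i a = (dc a).card := by
        intro ha
        unfold dn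
        congr 1
        ext x
        rw [Finset.mem_filter, mem_lv, mem_dc, H.covBy_iff]
        constructor
        · rintro ⟨h4, h5⟩
          exact ⟨h5, by omega⟩
        · rintro ⟨h4, h5⟩
          exact ⟨by omega, h4⟩
      constructor
      · rintro ⟨⟨-, h4⟩, h5⟩
        exact ⟨h4, by rw [← h3 h4]; exact h5⟩
      · rintro ⟨h4, h5⟩
        exact ⟨⟨mem_univ _, h4⟩, by rw [h3 h4]; exact h5⟩
    have h3 : (lv P (i + 1)).filter (fun a => up i a = 2) = dbL P i := by
      ext a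
      rw [Finset.mem_filter, mem_lv, mem_dbL]
      have h3 : lev a = i + 1 → up i a = (uc a).card := by
        intro ha
        unfold up
        congr 1
        ext x
        rw [Finset.mem_filter, mem_lv, mem_uc, H.covBy_iff]
        constructor
        · rintro ⟨h4, h5⟩
          exact ⟨h5, by omega⟩
        · rintro ⟨h4, h5⟩
          exact ⟨by omega, h4⟩
      constructor
      · rintro ⟨h4, h5⟩
        exact ⟨h4, by rw [← h3 h4]; exact h5⟩
      · rintro ⟨h4, h5⟩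
        exact ⟨h4, by rw [h3 h4]; exact h5⟩
    rw [h2, h3] at h1
    exact h1.symm
  · rw [Finset.sum_congr rfl fun v hv => ((cnt_dbL H (mem_lv.1 hv)).2).symm, EtG_dc]
    · have h2 : ∀ w ∈ dbL P i, ((uc w).card : ℤ) = 2 := by
        intro w hw
        rw [mem_dbL] at hw
        rw [hw.2]
        norm_num
      rw [Finset.sum_congr rfl h2, Finset.sum_const, nsmul_eq_mul, mul_comm]
    · intro w hw x hx
      rw [mem_dbL] at hw
      rw [mem_lv]
      have := lev_uc H hx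
      omega
  · rw [Finset.sum_congr rfl fun v hv => ((cnt_dbU H hi (mem_lv.1 hv)).2).symm, EtG_dc]
    · have h2 : ∀ w ∈ dbU P i, ((dc w).card : ℤ) = 2 := by
        intro w hw
        rw [mem_dbU] at hw
        rw [hw.2]
        norm_num
      rw [Finset.sum_congr rfl h2, Finset.sum_const, nsmul_eq_mul, mul_comm]
    · intro w hw x hx
      rw [mem_dbU] at hw
      rw [mem_lv]
      have := lev_dc H hx
      omega

end Pool.Agent.GaussPoset.Win

end

/-! From `Pool.Agent.W_448win_h16.EtH` -/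

section

/-! Energy two: identity (22) and (21). -/

namespace Pool.Agent.GaussPoset.Win

set_option linter.unusedSectionVars false

open Finset

universe u

variable {P : Type u} [Fintype P] [PartialOrder P] [DecidableEq P] {r : ℕ}

open Classical in
lemma EtH_mem_sgL {i : ℕ} {x : P} : x ∈ sgL P i ↔ lev x = i + 1 ∧ (uc x).card = 1 := by
  unfold sgL; simp

lemma EtH_sub_uc (H : Gr P r) {i : ℕ} {x : P} (hx : lev x = i + 1) : uc x ⊆ lv P i := by
  intro v hv
  have h := lev_uc H hv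
  exact mem_lv.2 (by omega)

lemma EtH_sub_dc (H : Gr P r) {i : ℕ} {x : P} (hx : lev x + 1 = i) : dc x ⊆ lv P i := by
  intro v hv
  have h := lev_dc H hv
  exact mem_lv.2 (by omega)

lemma EtH_box {V S : Finset P} (hS : S ⊆ V) (h2 : S.card = 2) :
    ∑ v ∈ V, (1 - 2 * (if v ∈ S then (1 : ℤ) else 0)) = (V.card : ℤ) - 4 := by
  rw [sum_sub_distrib, ← mul_sum, sum_boole, filter_mem_eq_inter, inter_eq_right.2 hS, h2,
    sum_const, nsmul_eq_mul]
  push_cast
  ring

/-- the sums of `tt` and `ee` over the double near elements -/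
lemma EtH_sums (H : Gr P r) {i : ℕ} (hi2 : i + 1 ≤ r) :
    (∑ w ∈ dbL P i, ∑ w' ∈ dbL P i, tt (uc w) (uc w') = ∑ v ∈ lv P i, dgD i v * dgD i v) ∧
    (∑ u ∈ dbU P i, ∑ u' ∈ dbU P i, tt (dc u) (dc u') = ∑ v ∈ lv P i, dgT i v * dgT i v) ∧
    (∑ w ∈ dbL P i, ∑ u ∈ dbU P i, tt (uc w) (dc u) = ∑ v ∈ lv P i, dgD i v * dgT i v) ∧
    (2 * ∑ w ∈ dbL P i, ∑ w' ∈ dbL P i, ee (uc w) (uc w') =
      ∑ v ∈ lv P i, ∑ v' ∈ (lv P i).erase v, (dcv v v' : ℤ) * (dcv v v' : ℤ)) ∧
    (2 * ∑ u ∈ dbU P i, ∑ u' ∈ dbU P i, ee (dc u) (dc u') =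
      ∑ v ∈ lv P i, ∑ v' ∈ (lv P i).erase v, (ucv v v' : ℤ) * (ucv v v' : ℤ)) ∧
    (2 * ∑ w ∈ dbL P i, ∑ u ∈ dbU P i, ee (uc w) (dc u) =
      ∑ v ∈ lv P i, ∑ v' ∈ (lv P i).erase v, (dcv v v' : ℤ) * (ucv v v' : ℤ)) := by
  have hir : i ≤ r := by omega
  have sL : ∀ a ∈ dbL P i, uc a ⊆ lv P i := fun a ha => EtH_sub_uc H (mem_dbL.1 ha).1
  have sU : ∀ a ∈ dbU P i, dc a ⊆ lv P i := fun a ha => EtH_sub_dc H (mem_dbU.1 ha).1
  have cL : ∀ a ∈ dbL P i, (uc a).card = 2 := fun a ha => (mem_dbL.1 ha).2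
  have cU : ∀ a ∈ dbU P i, (dc a).card = 2 := fun a ha => (mem_dbU.1 ha).2
  have dL : ∀ v ∈ lv P i, (((dbL P i).filter (fun w => v ∈ uc w)).card : ℤ) = dgD i v :=
    fun v hv => (cnt_dbL H (mem_lv.1 hv)).2
  have dU : ∀ v ∈ lv P i, (((dbU P i).filter (fun w => v ∈ dc w)).card : ℤ) = dgT i v :=
    fun v hv => (cnt_dbU H hir (mem_lv.1 hv)).2
  have eL : ∀ v ∈ lv P i, ∀ v' ∈ (lv P i).erase v,
      ((dbL P i).filter (fun w => v ∈ uc w ∧ v' ∈ uc w)).card = dcv v v' := fun v hv v' hv' =>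
    (cnt_dbL H (mem_lv.1 hv)).1 v' (mem_lv.1 (mem_of_mem_erase hv')) (ne_of_mem_erase hv').symm
  have eU : ∀ v ∈ lv P i, ∀ v' ∈ (lv P i).erase v,
      ((dbU P i).filter (fun w => v ∈ dc w ∧ v' ∈ dc w)).card = ucv v v' := fun v hv v' hv' =>
    (cnt_dbU H hir (mem_lv.1 hv)).1 v' (mem_lv.1 (mem_of_mem_erase hv')) (ne_of_mem_erase hv').symm
  refine ⟨?_, ?_, ?_, ?_, ?_, ?_⟩
  · rw [count_tt (lv P i) _ _ _ _ sL]
    exact sum_congr rfl fun v hv => by rw [dL v hv]
  · rw [count_tt (lv P i) _ _ _ _ sU]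
    exact sum_congr rfl fun v hv => by rw [dU v hv]
  · rw [count_tt (lv P i) _ _ _ _ sL]
    exact sum_congr rfl fun v hv => by rw [dL v hv, dU v hv]
  · rw [count_ee (lv P i) _ _ _ _ sL cL cL]
    exact sum_congr rfl fun v hv => sum_congr rfl fun v' hv' => by rw [eL v hv v' hv']
  · rw [count_ee (lv P i) _ _ _ _ sU cU cU]
    exact sum_congr rfl fun v hv => sum_congr rfl fun v' hv' => by rw [eU v hv v' hv']
  · rw [count_ee (lv P i) _ _ _ _ sL cL cU]
    exact sum_congr rfl fun v hv => sum_congr rfl fun v' hv' => by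
      rw [eL v hv v' hv', eU v hv v' hv']

/-- `total0` in terms of the sums -/
lemma EtH_total0 (H : Gr P r) {i : ℕ} (hi : 1 ≤ i) (hi2 : i + 1 ≤ r) (hb : 2 ≤ (lv P i).card) :
    2 * (∑ v ∈ lv P i, dgD i v * dgD i v + ∑ v ∈ lv P i, dgT i v * dgT i v -
      2 * ∑ v ∈ lv P i, dgD i v * dgT i v) =
    ∑ v ∈ lv P i, ∑ v' ∈ (lv P i).erase v, (dcv v v' : ℤ) * (dcv v v' : ℤ) +
    ∑ v ∈ lv P i, ∑ v' ∈ (lv P i).erase v, (ucv v v' : ℤ) * (ucv v v' : ℤ) -
    2 * ∑ v ∈ lv P i, ∑ v' ∈ (lv P i).erase v, (dcv v v' : ℤ) * (ucv v v' : ℤ) := by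
  obtain ⟨h1, h2, h3, h4, h5, h6⟩ := EtH_sums H hi2
  obtain ⟨hn, _, _⟩ := cnt_n H (show i ≤ r by omega)
  have h0 := total0 H hi hi2 hb
  simp only [sum_add_distrib, sum_sub_distrib, sum_const, nsmul_eq_mul, mul_one] at h0
  rw [h1, h2, h3, hn] at h0
  linarith

/-- (21). Let `n = |dbL| = |dbU|`, `b = |lv P i|`, `QD = ∑ dgD ^ 2`, `QT = ∑ dgT ^ 2`, `QX = ∑ dgD dgT`,
`ED, ET, EX` the sums of `ee` (`2 ED = ∑∑ dcv ^ 2` etc.), `A1 = ∑ dgD sL`, `A2 = ∑ dgT sU`, `A3 = ∑ dgD sU`, `A4 = ∑ dgT sL` with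
`sL v`, `sU v` the numbers of single near elements below and above `v` (`sL + sU = sing`, `cnt_sg`), `nL = |sgL|`,
`nU = |sgU|`. `total1` is
`(-4 n^2 + 3 QD - 2 ED) - 2 (n nL - A1) + 2 n + (2 n^2 - QT) + 2 (n nU - A2) - 2 n + 2 (n^2 - QX + EX) - 2 (n nU - A3)
+ 2 (n nL - A4) + 2 (n b - 4 n) - 2 (n b - 4 n) + 2 |PD| - 2 |PU| = 0`, i.e.
`3 QD - QT - 2 QX - 2 ED + 2 EX + 2 (A1 + A3 - A2 - A4) + 2 |PD| - 2 |PU| = 0`; `total0` is
`2 n^2 - QD - QT + ED + ET - 2 (n^2 - QX + EX) = 0`, so `2 QX = QD + QT - ED - ET + 2 EX`. Substitute and multiply by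
two. (`∑_(w, v) (1 - 2 [v ∈ uc w]) = n b - 2 * 2 n` because `(uc w).card = 2`.) -/
theorem E21' (H : Gr P r) {i : ℕ} (hi : 1 ≤ i) (hi2 : i + 1 ≤ r) (hb : 2 ≤ (lv P i).card) :
    4 * ((PD P i).card : ℤ) - 4 * ((PU P i).card : ℤ) +
      4 * ∑ v ∈ lv P i, (dgD i v - dgT i v) * sing v +
      4 * ∑ v ∈ lv P i, (dgD i v ^ 2 - dgT i v ^ 2) -
      ∑ v ∈ lv P i, ∑ v' ∈ (lv P i).erase v, ((dcv v v' : ℤ) ^ 2 - (ucv v v' : ℤ) ^ 2) = 0 := by
  have hir : i ≤ r := by omega
  obtain ⟨h1, h2, h3, h4, h5, h6⟩ := EtH_sums H hi2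
  obtain ⟨hn, _, _⟩ := cnt_n H hir
  have h0 := EtH_total0 H hi hi2 hb
  have ht := total1 H hi hi2 hb
  have sL : ∀ a ∈ dbL P i, uc a ⊆ lv P i := fun a ha => EtH_sub_uc H (mem_dbL.1 ha).1
  have sU : ∀ a ∈ dbU P i, dc a ⊆ lv P i := fun a ha => EtH_sub_dc H (mem_dbU.1 ha).1
  have sL' : ∀ a ∈ sgL P i, uc a ⊆ lv P i := fun a ha => EtH_sub_uc H (EtH_mem_sgL.1 ha).1
  have dL : ∀ v ∈ lv P i, (((dbL P i).filter (fun w => v ∈ uc w)).card : ℤ) = dgD i v :=
    fun v hv => (cnt_dbL H (mem_lv.1 hv)).2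
  have dU : ∀ v ∈ lv P i, (((dbU P i).filter (fun w => v ∈ dc w)).card : ℤ) = dgT i v :=
    fun v hv => (cnt_dbU H hir (mem_lv.1 hv)).2
  set cl : P → ℤ := fun v => (((sgL P i).filter (fun w => v ∈ uc w)).card : ℤ) with hcl
  set cu : P → ℤ := fun v => (((sgU P i).filter (fun w => v ∈ dc w)).card : ℤ) with hcu
  have a1 : ∑ w ∈ dbL P i, ∑ w' ∈ sgL P i, tt (uc w) (uc w') =
      ∑ v ∈ lv P i, dgD i v * cl v := by
    rw [count_tt (lv P i) _ _ _ _ sL]
    exact sum_congr rfl fun v hv => by rw [dL v hv]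
  have a2 : ∑ u ∈ dbU P i, ∑ u' ∈ sgU P i, tt (dc u) (dc u') =
      ∑ v ∈ lv P i, dgT i v * cu v := by
    rw [count_tt (lv P i) _ _ _ _ sU]
    exact sum_congr rfl fun v hv => by rw [dU v hv]
  have a3 : ∑ w ∈ dbL P i, ∑ u ∈ sgU P i, tt (uc w) (dc u) =
      ∑ v ∈ lv P i, dgD i v * cu v := by
    rw [count_tt (lv P i) _ _ _ _ sL]
    exact sum_congr rfl fun v hv => by rw [dL v hv]
  have a4 : ∑ w ∈ sgL P i, ∑ u ∈ dbU P i, tt (uc w) (dc u) =
      ∑ v ∈ lv P i, cl v * dgT i v := by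
    rw [count_tt (lv P i) _ _ _ _ sL']
    exact sum_congr rfl fun v hv => by rw [dU v hv]
  have b1 : ∑ w ∈ dbL P i, ∑ v ∈ lv P i, (1 - 2 * (if v ∈ uc w then (1 : ℤ) else 0)) =
      ((dbL P i).card : ℤ) * (((lv P i).card : ℤ) - 4) := by
    rw [sum_congr rfl fun w hw => EtH_box (sL w hw) (mem_dbL.1 hw).2, sum_const, nsmul_eq_mul]
  have b2 : ∑ u ∈ dbU P i, ∑ v ∈ lv P i, (1 - 2 * (if v ∈ dc u then (1 : ℤ) else 0)) =
      ((dbU P i).card : ℤ) * (((lv P i).card : ℤ) - 4) := by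
    rw [sum_congr rfl fun w hw => EtH_box (sU w hw) (mem_dbU.1 hw).2, sum_const, nsmul_eq_mul]
  rw [b1, b2] at ht
  simp only [sum_add_distrib, sum_sub_distrib, sum_const, nsmul_eq_mul, mul_one, ← mul_sum] at ht
  rw [h1, h2, h3, a1, a2, a3, a4, hn] at ht
  have c1 : ∑ v ∈ lv P i, (dgD i v - dgT i v) * sing v =
      ∑ v ∈ lv P i, dgD i v * cl v + ∑ v ∈ lv P i, dgD i v * cu v -
      ∑ v ∈ lv P i, cl v * dgT i v - ∑ v ∈ lv P i, dgT i v * cu v := by
    rw [← sum_add_distrib, ← sum_sub_distrib, ← sum_sub_distrib]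
    refine sum_congr rfl fun v hv => ?_
    rw [← cnt_sg H (mem_lv.1 hv)]
    ring
  have c2 : ∑ v ∈ lv P i, (dgD i v ^ 2 - dgT i v ^ 2) =
      ∑ v ∈ lv P i, dgD i v * dgD i v - ∑ v ∈ lv P i, dgT i v * dgT i v := by
    rw [← sum_sub_distrib]
    exact sum_congr rfl fun v _ => by ring
  have c3 : ∑ v ∈ lv P i, ∑ v' ∈ (lv P i).erase v, ((dcv v v' : ℤ) ^ 2 - (ucv v v' : ℤ) ^ 2) =
      ∑ v ∈ lv P i, ∑ v' ∈ (lv P i).erase v, (dcv v v' : ℤ) * (dcv v v' : ℤ) -
      ∑ v ∈ lv P i, ∑ v' ∈ (lv P i).erase v, (ucv v v' : ℤ) * (ucv v v' : ℤ) := by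
    rw [← sum_sub_distrib]
    refine sum_congr rfl fun v _ => ?_
    rw [← sum_sub_distrib]
    exact sum_congr rfl fun v' _ => by ring
  rw [c1, c2, c3]
  linarith

end Pool.Agent.GaussPoset.Win

end

/-! From `Pool.Agent.W_448win_h16.E2Final` -/

section

/-! The identities (22) and (21). -/

namespace Pool.Agent.GaussPoset.Win

set_option linter.unusedSectionVars false

open Finset

universe u

variable {P : Type u} [Fintype P] [PartialOrder P] [DecidableEq P] {r : ℕ}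

/-- if the level has at most one element nothing is double -/
theorem small_level (H : Gr P r) {i : ℕ} (hb : (lv P i).card ≤ 1) :
    PD P i = ∅ ∧ PU P i = ∅ := by
  classical
  have key : ∀ s : Finset P, (∀ v ∈ s, lev v = i) → s.card ≠ 2 := by
    intro s hs h2
    have : s.card ≤ (lv P i).card := Finset.card_le_card fun v hv => mem_lv.mpr (hs v hv)
    omega
  constructor
  · ext z
    simp only [Finset.notMem_empty, iff_false]
    intro hz
    unfold PD at hz
    rw [mem_filter] at hz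
    obtain ⟨-, h1, h2, w, h3, h4⟩ := hz
    refine key (uc w) (fun v hv => ?_) h4
    have h5 := lev_uc H hv
    have h6 := lev_uc H (mem_uc.mpr h3)
    omega
  · ext x
    simp only [Finset.notMem_empty, iff_false]
    intro hx
    unfold PU at hx
    rw [mem_filter] at hx
    obtain ⟨-, h1, h2, w, h3, h4⟩ := hx
    refine key (dc w) (fun v hv => ?_) h4
    have h5 := lev_dc H hv
    have h6 := lev_dc H (mem_dc.mpr h3)
    omega

/-- identity (21) -/
theorem E21 (H : Gr P r) {i : ℕ} (hi : 1 ≤ i) (hi2 : i + 1 ≤ r) (hb : 2 ≤ (lv P i).card) :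
    4 * ((PD P i).card : ℤ) - 4 * ((PU P i).card : ℤ) +
      4 * ∑ v ∈ lv P i, (dgD i v - dgT i v) * sing v +
      4 * ∑ v ∈ lv P i, (dgD i v ^ 2 - dgT i v ^ 2) -
      ∑ v ∈ lv P i, ∑ v' ∈ (lv P i).erase v, ((dcv v v' : ℤ) ^ 2 - (ucv v v' : ℤ) ^ 2) = 0 :=
  E21' H hi hi2 hb

/-- Corollary for good levels. If the level has at most one element then nothing is double and both
sets are empty. Otherwise (21) with dgD = dgT. -/
theorem good_card (H : Gr P r) {i : ℕ} (hi : 1 ≤ i) (hi2 : i + 1 ≤ r) (hg : Good P i) :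
    (PD P i).card = (PU P i).card := by
  rcases Nat.lt_or_ge (lv P i).card 2 with hb | hb
  · obtain ⟨h1, h2⟩ := small_level H (i := i) (by omega)
    rw [h1, h2]
  · have h := E21' H hi hi2 hb
    have e1 : ∀ v ∈ lv P i, ∀ v' ∈ (lv P i).erase v, (dcv v v' : ℤ) = (ucv v v' : ℤ) := by
      intro v hv v' hv'
      rw [Finset.mem_erase] at hv'
      rw [hg v v' (mem_lv.mp hv) (mem_lv.mp hv'.2) hv'.1.symm]
    have e2 : ∀ v ∈ lv P i, dgD i v = dgT i v := by
      intro v hv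
      unfold dgD dgT
      exact Finset.sum_congr rfl fun v' hv' => e1 v hv v' hv'
    have s1 : ∑ v ∈ lv P i, (dgD i v - dgT i v) * sing v = 0 :=
      Finset.sum_eq_zero fun v hv => by rw [e2 v hv]; ring
    have s2 : ∑ v ∈ lv P i, (dgD i v ^ 2 - dgT i v ^ 2) = 0 :=
      Finset.sum_eq_zero fun v hv => by rw [e2 v hv]; ring
    have s3 : ∑ v ∈ lv P i, ∑ v' ∈ (lv P i).erase v,
        ((dcv v v' : ℤ) ^ 2 - (ucv v v' : ℤ) ^ 2) = 0 :=
      Finset.sum_eq_zero fun v hv => Finset.sum_eq_zero fun v' hv' => by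
        rw [e1 v hv v' hv']; ring
    rw [s1, s2, s3] at h
    omega

end Pool.Agent.GaussPoset.Win

end
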