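import Mathlib
import Pool.Agent.W_448zz_h61.Ns
import Pool.Agent.W_448zz_h61.M013
import Pool.Agent.W_448zz_h61.M019
import Pool.Agent.W_448zz_h61.M020

/-! From `Pool.Agent.W_448fw_h5.FwO` -/

section

/-!
Systems of natural sets, charts of the components.
-/

namespace Pool.Agent.GaussPoset

set_option linter.unusedSectionVars false

open Finset

universe u

variable {P : Type u} [Fintype P] [PartialOrder P] [DecidableEq P]

/-- the maximal elements -/
abbrev Tops (P : Type u) [Fintype P] [PartialOrder P] := {t : P // lev t = 0}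

noncomputable instance : DecidableEq (Tops P) := Classical.decEq _

noncomputable instance : Fintype (Tops P) := by
  classical exact inferInstanceAs (Fintype {t : P // lev t = 0})

/-- a maximal element above `x` -/
noncomputable def topOf (x : P) : Tops P :=
  ⟨(Cp.exists_top x).choose, (Cp.exists_top x).choose_spec.1⟩

lemma le_topOf (x : P) : x ≤ (topOf x : P) := (Cp.exists_top x).choose_spec.2

/-- a system of natural sets -/
structure NatSys (N : Tops P → Finset P) : Prop where
  up : ∀ t, ∀ x ∈ N t, ∀ y, x ≤ y → y ∈ N t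
  le_t : ∀ t, ∀ x ∈ N t, x ≤ (t : P)

open Classical in
/-- the unnatural elements -/
noncomputable def unnat (N : Tops P → Finset P) : Finset P := univ.filter (fun x => ∀ t, x ∉ N t)

section Sys

variable {N : Tops P → Finset P}

lemma mem_unnat {x : P} : x ∈ unnat N ↔ ∀ t, x ∉ N t := by
  classical
  unfold unnat; simp

lemma NatSys.top_eq (H : NatSys N) {t : Tops P} {x : P} (hx : x ∈ N t) {s : P}
    (hs : lev s = 0) (hxs : x ≤ s) : s = t := by
  have h1 := H.le_t t s (H.up t x hx s hxs)
  by_contra hne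
  have h2 := lev_strictAnti (lt_of_le_of_ne h1 hne)
  omega

lemma NatSys.topOf_eq (H : NatSys N) {t : Tops P} {x : P} (hx : x ∈ N t) : topOf x = t :=
  Subtype.ext (H.top_eq hx (topOf x).2 (le_topOf x))

lemma NatSys.mem_iff (H : NatSys N) {t : Tops P} {x : P} :
    x ∈ N t ↔ x ∉ unnat N ∧ topOf x = t := by
  constructor
  · intro hx
    exact ⟨fun h => mem_unnat.mp h t hx, H.topOf_eq hx⟩
  · rintro ⟨h1, h2⟩
    rw [mem_unnat] at h1
    push Not at h1
    obtain ⟨s, hs⟩ := h1
    rw [← h2, H.topOf_eq hs]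
    exact hs

lemma NatSys.lower (H : NatSys N) : ∀ x y, x ≤ y → y ∈ unnat N → x ∈ unnat N := by
  intro x y hxy hy
  rw [mem_unnat] at hy ⊢
  intro t hx
  exact hy t (H.up t x hx y hxy)

lemma NatSys.cp (H : NatSys N) : ∀ x y, x ≤ y → x ∉ unnat N → topOf x = topOf y := by
  intro x y hxy hx
  have h1 : x ∈ N (topOf x) := H.mem_iff.mpr ⟨hx, rfl⟩
  exact (H.topOf_eq (H.up _ x h1 y hxy)).symm

end Sys

open Classical in
/-- the elements below the top `t` only -/
noncomputable def onlyB (t : Tops P) : Finset P :=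
  univ.filter (fun x => ∀ s : P, lev s = 0 → x ≤ s → s = t)

lemma mem_onlyB {t : Tops P} {x : P} : x ∈ onlyB t ↔ ∀ s : P, lev s = 0 → x ≤ s → s = t := by
  classical
  unfold onlyB; simp

lemma onlyB_up {t : Tops P} {x y : P} (hx : x ∈ onlyB t) (hxy : x ≤ y) : y ∈ onlyB t := by
  rw [mem_onlyB] at hx ⊢
  exact fun s hs hys => hx s hs (hxy.trans hys)

lemma onlyB_le {t : Tops P} {x : P} (hx : x ∈ onlyB t) : x ≤ (t : P) := by
  rw [mem_onlyB] at hx
  have := hx (topOf x) (topOf x).2 (le_topOf x)
  rw [← this]; exact le_topOf x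

section FromComp

open Cp

variable {r j : ℕ} {t : P} {lo hi : ℕ → ℕ} {e : ℕ → ℕ → P}

open Classical in
/-- the coordinate `s` of an element of a component -/
noncomputable def scoord (lo hi : ℕ → ℕ) (e : ℕ → ℕ → P) (z : P) : ℕ :=
  if h : ∃ s, lo (lev z) ≤ s ∧ s ≤ hi (lev z) ∧ e (lev z) s = z then h.choose else 0

/-- the coordinates of an element of a component -/
noncomputable def ccoord (lo hi : ℕ → ℕ) (e : ℕ → ℕ → P) (z : P) : ℕ × ℕ :=
  (scoord lo hi e z, lev z - scoord lo hi e z)

lemma scoord_spec (C : Comp j t lo hi e) {z : P} (hz : z ≤ t) (hl : lev z ≤ j) :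
    lo (lev z) ≤ scoord lo hi e z ∧ scoord lo hi e z ≤ hi (lev z) ∧
      e (lev z) (scoord lo hi e z) = z := by
  have h := C.surj z hz hl
  unfold scoord
  rw [dif_pos h]
  exact h.choose_spec

lemma scoord_e (C : Comp j t lo hi e) {k s : ℕ} (hk : k ≤ j) (h1 : lo k ≤ s) (h2 : s ≤ hi k) :
    scoord lo hi e (e k s) = s := by
  have hlev := C.lev_e k s hk h1 h2
  obtain ⟨h3, h4, h5⟩ := scoord_spec C (C.le_t k s hk h1 h2) (by rw [hlev]; exact hk)
  rw [hlev] at h3 h4 h5
  exact C.inj k _ s hk h3 h4 h1 h2 h5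

open Classical in
/-- the elements of level at most `j` below `t` -/
noncomputable def lowPart (j : ℕ) (t : P) : Finset P := univ.filter (fun z => z ≤ t ∧ lev z ≤ j)

lemma mem_lowPart {z : P} : z ∈ lowPart j t ↔ z ≤ t ∧ lev z ≤ j := by
  classical
  unfold lowPart; simp

/-- the strip of a component is a chart if its ends fit to the shape `S` -/
theorem chart_of_comp (C : Comp j t lo hi e) (H : Gr P r) (hg : ∀ l, l < j → Win.Good P l)
    (ht : lev t = 0) {S : ℕ × ℕ → Prop} (hconn : Conn S)
    (hS : ∀ k s, k ≤ j → lo k ≤ s → s ≤ hi k → S (s, k - s))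
    (hlow1 : ∀ k s, k < j → lo (k + 1) ≤ s → s ≤ hi (k + 1) → 1 ≤ s → S (s - 1, k + 1 - s) →
      lo k ≤ s - 1)
    (hlow2 : ∀ k s, k < j → lo (k + 1) ≤ s → s ≤ hi (k + 1) → s ≤ k → S (s, k - s) → s ≤ hi k) :
    Chart t S (lowPart j t) (ccoord lo hi e) := by
  have hle : ∀ x, x ∈ lowPart j t → scoord lo hi e x ≤ lev x := by
    intro x hx
    rw [mem_lowPart] at hx
    have h1 := scoord_spec C hx.1 hx.2
    exact h1.2.1.trans (C.hi_le hx.2)
  have hcov : ∀ x ∈ lowPart j t, ∀ p', S p' → Prd (ccoord lo hi e x) p' →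
      ∃ y ∈ lowPart j t, x ≤ y ∧ ccoord lo hi e y = p' := by
    intro x hx p' hp' hpr
    have hxs := hle x hx
    rw [mem_lowPart] at hx
    obtain ⟨h1, h2, h3⟩ := scoord_spec C hx.1 hx.2
    obtain ⟨a, b⟩ := p'
    unfold ccoord Prd at hpr
    simp only at hpr
    have hx1 : 1 ≤ lev x := by omega
    obtain ⟨k, hk⟩ : ∃ k, lev x = k + 1 := ⟨lev x - 1, by omega⟩
    rw [hk] at h1 h2 h3 hxs
    have hkj : k < j := by omega
    have h0 := C.lo_le k (by omega)
    have e1 := C.lo_step k hkj
    have e2 := C.hi_step k hkj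
    have ha : lo k ≤ a ∧ a ≤ hi k ∧ (a = scoord lo hi e x ∨ a + 1 = scoord lo hi e x) ∧
        b = k - a ∧ a ≤ k := by
      rcases hpr with h | h
      · have h4 := hlow1 k (scoord lo hi e x) hkj h1 h2 (by omega) (by
          have : (scoord lo hi e x - 1, k + 1 - scoord lo hi e x) = (a, b) :=
            Prod.ext (by simp only; omega) (by simp only; omega)
          rw [this]; exact hp')
        exact ⟨by omega, by omega, Or.inr (by omega), by omega, by omega⟩
      · have h4 := hlow2 k (scoord lo hi e x) hkj h1 h2 (by omega) (by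
          have : (scoord lo hi e x, k - scoord lo hi e x) = (a, b) :=
            Prod.ext (by simp only; omega) (by simp only; omega)
          rw [this]; exact hp')
        exact ⟨by omega, by omega, Or.inl (by omega), by omega, by omega⟩
    obtain ⟨ha1, ha2, ha3, ha4, ha5⟩ := ha
    refine ⟨e k a, ?_, ?_, ?_⟩
    · rw [mem_lowPart]
      exact ⟨C.le_t k a (by omega) ha1 ha2, by rw [C.lev_e k a (by omega) ha1 ha2]; omega⟩
    · rw [← h3]
      exact ((C.cov k _ a hkj h1 h2 ha1 ha2).mpr ha3).le
    · unfold ccoord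
      rw [scoord_e C (by omega) ha1 ha2, C.lev_e k a (by omega) ha1 ha2]
      exact Prod.ext rfl ha4.symm
  constructor
  · intro x hx y hxy
    rw [mem_lowPart] at hx ⊢
    refine ⟨Cp.up_le H hg ht hx.1 hx.2 hxy, ?_⟩
    rcases eq_or_lt_of_le hxy with h | h
    · rw [← h]; exact hx.2
    · have := lev_strictAnti h; omega
  · intro x hx
    exact (mem_lowPart.mp hx).1
  · intro x hx y hy h
    have hxl := hle x hx
    have hyl := hle y hy
    rw [mem_lowPart] at hx hy
    obtain ⟨-, -, h3⟩ := scoord_spec C hx.1 hx.2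
    obtain ⟨-, -, h6⟩ := scoord_spec C hy.1 hy.2
    unfold ccoord at h
    simp only [Prod.mk.injEq] at h
    have h7 : lev x = lev y := by omega
    rw [← h3, ← h6, h.1, h7]
  · intro x hx y hy
    have hxl := hle x hx
    have hyl := hle y hy
    rw [mem_lowPart] at hx hy
    obtain ⟨h1, h2, h3⟩ := scoord_spec C hx.1 hx.2
    obtain ⟨h4, h5, h6⟩ := scoord_spec C hy.1 hy.2
    have hcy : ccoord lo hi e y ≤ ccoord lo hi e x ↔ (scoord lo hi e y ≤ scoord lo hi e x ∧
        lev y - scoord lo hi e y ≤ lev x - scoord lo hi e x) := Iff.rfl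
    rw [hcy]
    by_cases hl : lev y ≤ lev x
    · obtain ⟨d, hd⟩ : ∃ d, lev x = lev y + d := ⟨lev x - lev y, by omega⟩
      rw [hd] at h1 h2 h3 hxl
      have h7 := C.le_iff H hg ht h4 h5 (d := d) (by omega) h1 h2
      rw [h3, h6] at h7
      rw [h7]
      omega
    · constructor
      · intro h
        rcases eq_or_lt_of_le h with h8 | h8
        · rw [h8] at hl; omega
        · have := lev_strictAnti h8; omega
      · intro h; omega
  · intro x hx
    rw [mem_lowPart] at hx
    obtain ⟨h1, h2, -⟩ := scoord_spec C hx.1 hx.2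
    exact hS _ _ hx.2 h1 h2
  · -- induction along predecessors
    have key : ∀ m : ℕ, ∀ x ∈ lowPart j t, ∀ c ≤ ccoord lo hi e x, S c →
        (ccoord lo hi e x).1 + (ccoord lo hi e x).2 = m + (c.1 + c.2) →
        ∃ y ∈ lowPart j t, ccoord lo hi e y = c := by
      intro m
      induction m with
      | zero =>
        intro x hx c hc _ hm
        refine ⟨x, hx, ?_⟩
        have h1 : c.1 ≤ (ccoord lo hi e x).1 := hc.1
        have h2 : c.2 ≤ (ccoord lo hi e x).2 := hc.2
        exact Prod.ext (by omega) (by omega)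
      | succ m ih =>
        intro x hx c hc hSc hm
        have hne : c ≠ ccoord lo hi e x := by
          intro h
          rw [← h] at hm
          omega
        have hSx : S (ccoord lo hi e x) := by
          have hx' := mem_lowPart.mp hx
          obtain ⟨h1, h2, -⟩ := scoord_spec C hx'.1 hx'.2
          exact hS _ _ hx'.2 h1 h2
        obtain ⟨p', hp', hcp', hpr⟩ := hconn c _ hSc hSx hc hne
        obtain ⟨y, hy, -, hcy⟩ := hcov x hx p' hp' hpr
        refine ih y hy c (by rw [hcy]; exact hcp') hSc ?_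
        rw [hcy]
        rcases hpr with h | h <;> omega
    intro x hx c hc hSc
    have h1 : c.1 ≤ (ccoord lo hi e x).1 := hc.1
    have h2 : c.2 ≤ (ccoord lo hi e x).2 := hc.2
    exact key ((ccoord lo hi e x).1 + (ccoord lo hi e x).2 - (c.1 + c.2)) x hx c hc hSc (by omega)
  · intro x hx
    have := hle x hx
    unfold ccoord
    simp only
    omega

end FromComp

end Pool.Agent.GaussPoset

end

/-! From `Pool.Agent.W_448fw_h5.FwP` -/

section

/-!
Local data of one component, assembly of the far window data.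
-/

namespace Pool.Agent.GaussPoset

set_option linter.unusedSectionVars false

open Polynomial Finset

universe u

variable {P : Type u} [Fintype P] [PartialOrder P] [DecidableEq P]

/-- `N` is a possible natural set of the top `t` at window `i`, with order `b`, thresholds `θ` and
base elements `B`: it gives component data in every natural system which contains it -/
structure NatTop (i : ℕ) (t : Tops P) (b : ℕ) (N : Finset P) (θ : P → ℕ) (B : P → Prop) :
    Prop where
  up : ∀ x ∈ N, ∀ y, x ≤ y → y ∈ N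
  le_t : ∀ x ∈ N, x ≤ (t : P)
  low : ∀ x, x ≤ (t : P) → lev x ≤ i → x ∈ N
  data : ∀ M : Tops P → Finset P, NatSys M → M t = N → ∀ (θ' : P → ℕ) (B' : P → Prop),
    (∀ x ∈ N, θ' x = θ x) → (∀ x ∈ N, B' x ↔ B x) → CompData (unnat M) topOf t i b θ' B'

section Assembly

variable {i : ℕ} {N : Tops P → Finset P} {b : Tops P → ℕ} {θ : Tops P → P → ℕ}
  {B : Tops P → P → Prop}

theorem natSys_of_tops (H : ∀ t, NatTop i t (b t) (N t) (θ t) (B t)) : NatSys N where
  up := fun t => (H t).up
  le_t := fun t => (H t).le_t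

/-- low elements are natural -/
lemma low_natural (H : ∀ t, NatTop i t (b t) (N t) (θ t) (B t)) {x : P} (hx : lev x ≤ i) :
    x ∉ unnat N := by
  intro h
  exact mem_unnat.mp h (topOf x) ((H (topOf x)).low x (le_topOf x) hx)

/-- assembly: natural sets of all tops give the data of the far window theorem -/
theorem farData_of_tops (hgr : GradedBelow P) (H : ∀ t, NatTop i t (b t) (N t) (θ t) (B t)) :
    FarData P i (unnat N) (∑ t, b t) (hcan (unnat N) (fun x => θ (topOf x) x)) := by
  have HN := natSys_of_tops H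
  refine farData_of_comp hgr HN.lower ?_ topOf HN.cp b (fun x => θ (topOf x) x)
    (fun x => x ∉ unnat N ∧ B (topOf x) x) (fun x hx h => h.1 hx) ?_
  · intro x hx
    by_contra hcon
    exact low_natural H (not_lt.mp hcon) hx
  · intro t
    refine (H t).data N HN rfl _ _ ?_ ?_
    · intro x hx
      simp only [HN.topOf_eq hx]
    · intro x hx
      simp only [HN.topOf_eq hx, (HN.mem_iff.mp hx).1, not_false_eq_true, true_and]

end Assembly

/-- local data of an up-closed set `N` at window `i` -/
structure LocData (i b : ℕ) (N : Finset P) (θ : P → ℕ) (B : P → Prop) : Prop where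
  clean : ∀ U ⊆ N, (∀ x ∈ U, ∀ y, x ≤ y → y ∈ U) → (∀ x ∈ N, lev x ≤ i → x ∈ U) →
    (∀ x ∈ N, B x → x ∈ U) → (1 + X : Polynomial (PowerSeries ℤ)) ^ b ∣ W {x : P // x ∈ U} i
  lev : ∀ x ∈ N, 1 ≤ θ x → i < lev x
  base : ∀ x ∈ N, 1 ≤ θ x → ∀ y ∈ N, y ≤ x → ¬ B y
  step : ∀ x ∈ N, 1 ≤ θ x → ∀ y ∈ N, y ≤ x → ∀ x' ∈ N, y ⋖ x' → ¬ x' ≤ x → θ x ≤ θ x' + 1
  le : ∀ x ∈ N, θ x ≤ Pool.Agent.GaussPoset.lev x - i

/-- local data give a natural set -/
theorem LocData.natTop {i b : ℕ} {t : Tops P} {N : Finset P} {θ : P → ℕ} {B : P → Prop}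
    (L : LocData i b N θ B) (hup : ∀ x ∈ N, ∀ y, x ≤ y → y ∈ N) (hle : ∀ x ∈ N, x ≤ (t : P))
    (hlow : ∀ x, x ≤ (t : P) → Pool.Agent.GaussPoset.lev x ≤ i → x ∈ N) :
    NatTop i t b N θ B where
  up := hup
  le_t := hle
  low := hlow
  data := by
    intro M HM hM θ' B' hθ hB
    subst hM
    have hmem : ∀ x, x ∉ unnat M → topOf x = t → x ∈ M t := fun x h1 h2 => HM.mem_iff.mpr ⟨h1, h2⟩
    constructor
    · intro D hD hdec
      classical
      let U : Finset P := (M t).filter (fun x => x ∉ D)
      have hU : ∀ x, x ∈ U ↔ x ∈ M t ∧ x ∉ D := by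
        intro x
        simp [U]
      have h1 := L.clean U (Finset.filter_subset _ _) (fun x hx y hxy => by
          rw [hU] at hx ⊢
          exact ⟨hup x hx.1 y hxy, fun h => hx.2 (hD.1 x y hxy h)⟩)
        (fun x hx hxi => by
          rw [hU]
          exact ⟨hx, fun h => by have := hD.2.2.1 x h; omega⟩)
        (fun x hx hxB => by
          rw [hU]
          exact ⟨hx, fun h => hD.2.2.2 x h ((hB x hx).mpr hxB)⟩)
      let e : {x : P // x ∈ U} ≃o {x : {x : P // x ∉ D} // topOf (x : P) = t} :=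
        { toFun := fun x => ⟨⟨x, ((hU x).mp x.2).2⟩, HM.topOf_eq ((hU x).mp x.2).1⟩
          invFun := fun x => ⟨x.1.1, (hU _).mpr
            ⟨hmem _ (fun h => x.1.2 (hD.2.1 h)) x.2, x.1.2⟩⟩
          left_inv := fun x => rfl
          right_inv := fun x => rfl
          map_rel_iff' := Iff.rfl }
      rw [← W_iso e]
      exact h1
    · intro x hx hk h1
      rw [hθ x (hmem x hx hk)] at h1
      exact L.lev x (hmem x hx hk) h1
    · intro x hx hk h1 y hyx hy
      have hxN := hmem x hx hk
      have hyN : y ∈ M t := by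
        have h2 : topOf y = topOf x := HM.cp y x hyx hy
        exact hmem y hy (h2.trans hk)
      rw [hθ x hxN] at h1
      rw [hB y hyN]
      exact L.base x hxN h1 y hyN hyx
    · intro x hx hk h1 y hyx hy x' hx' hyx' hn
      have hxN := hmem x hx hk
      have hyN : y ∈ M t := by
        have h2 : topOf y = topOf x := HM.cp y x hyx hy
        exact hmem y hy (h2.trans hk)
      have hxN' : x' ∈ M t := hup y hyN x' hyx'.1.le
      rw [hθ x hxN] at h1 ⊢
      rw [hθ x' hxN']
      exact L.step x hxN h1 y hyN hyx x' hxN' hyx' hn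
    · intro x hx hk
      rw [hθ x (hmem x hx hk)]
      exact L.le x (hmem x hx hk)

/-- light sets: every up-closed set with an element of level `i` -/
theorem locData_light (hgr : GradedBelow P) {i : ℕ} {N : Finset P}
    (hex : ∃ x ∈ N, Pool.Agent.GaussPoset.lev x = i) :
    LocData i 1 N (fun x => Pool.Agent.GaussPoset.lev x - i) (fun _ => False) where
  clean := by
    intro U hUN hU hlow _
    rw [pow_one]
    obtain ⟨x, hx, hl⟩ := hex
    have hxU : x ∈ U := hlow x hx hl.le
    refine dvd_W_one ⟨⟨x, hxU⟩, ?_⟩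
    rw [lev_subtype (p := fun x => x ∈ U) (fun a c hac ha => hU a ha c hac)]
    exact hl.ge
  lev := fun x _ h => by omega
  base := fun _ _ _ _ _ _ h => h
  step := by
    intro x _ _ y _ hyx x' _ hyx' _
    have h1 := hgr.lev_covBy hyx'
    have h2 : Pool.Agent.GaussPoset.lev x ≤ Pool.Agent.GaussPoset.lev y := by
      rcases eq_or_lt_of_le hyx with h | h
      · rw [h]
      · exact (lev_strictAnti h).le
    show Pool.Agent.GaussPoset.lev x - i ≤ (Pool.Agent.GaussPoset.lev x' - i) + 1
    omega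
  le := fun _ _ => le_rfl

/-- the set of all elements below the top `t` only, as natural set of a light component -/
theorem natTop_light (hgr : GradedBelow P) {i : ℕ} {t : Tops P}
    (hlow : ∀ x, x ≤ (t : P) → lev x ≤ i → x ∈ onlyB t) (hex : ∃ x ≤ (t : P), lev x = i) :
    NatTop i t 1 (onlyB t) (fun x => lev x - i) (fun _ => False) := by
  refine (locData_light hgr ?_).natTop (fun x hx y hxy => onlyB_up hx hxy)
    (fun x hx => onlyB_le hx) hlow
  obtain ⟨x, hx, hl⟩ := hex
  exact ⟨x, hlow x hx hl.le, hl⟩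

end Pool.Agent.GaussPoset

end

/-! From `Pool.Agent.W_448fw_h5.FwT` -/

section

/-!
Cost and sign in terms of the numbers of elements above `z`, joins, and the elements above the
cells of a chart.
-/

namespace Pool.Agent.GaussPoset

set_option linter.unusedSectionVars false

open Polynomial Finset

universe u

variable {P : Type u} [Fintype P] [PartialOrder P] [DecidableEq P] {r : ℕ}

lemma Gr.gradedBelow (H : Gr P r) : GradedBelow P := by
  classical
  intro z x hzx
  let T : Finset P := univ.filter (fun w => z ≤ w ∧ w < x)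
  obtain ⟨w, hw⟩ := T.exists_maximal ⟨z, by simp [T, hzx]⟩
  have hw1 : z ≤ w ∧ w < x := by simpa [T] using hw.1
  refine ⟨w, hw1.1, hw1.2, ?_⟩
  refine (H.covBy_iff.mp ⟨hw1.2, fun v hv1 hv2 => ?_⟩).2
  have hvT : v ∈ T := by simp [T, hv2, hw1.1.trans hv1.le]
  exact absurd (hw.2 hvT hv1.le) (not_le_of_gt hv1)

/-- the cost by levels -/
theorem cst_eq (i : ℕ) (h : P → ℕ) (z : P) :
    cst i h z = ∑ k ∈ range (lev z + 1), min (h z) (k - i) * nab k z := by
  classical
  unfold cst ez
  rw [← Finset.sum_filter, ← Finset.sum_fiberwise_of_maps_to (t := range (lev z + 1)) (g := lev)]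
  · refine Finset.sum_congr rfl fun k _ => ?_
    have h1 : (univ.filter (fun x : P => z ≤ x)).filter (fun x => lev x = k) =
        (lv P k).filter (fun x => z ≤ x) := by
      ext x
      simp only [mem_filter, mem_univ, true_and, mem_lv]
      exact and_comm
    rw [h1, Finset.sum_congr rfl (g := fun _ => min (h z) (k - i)), Finset.sum_const, smul_eq_mul,
      Nat.mul_comm]
    · rfl
    · intro x hx
      rw [mem_filter, mem_lv] at hx
      rw [hx.1]
  · intro x hx
    rw [mem_filter] at hx
    rw [mem_range, Nat.lt_succ_iff]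
    rcases eq_or_lt_of_le hx.2 with h2 | h2
    · rw [h2]
    · exact (lev_strictAnti h2).le

/-- the sign exponent by levels -/
theorem nst_eq (i : ℕ) (h : P → ℕ) (z : P) : nst i h z = ∑ k ∈ range (h z), nab (i + k) z := by
  classical
  unfold nst
  rw [Finset.card_eq_sum_card_fiberwise (f := fun x => lev x - i) (t := range (h z))]
  · refine Finset.sum_congr rfl fun k hk => ?_
    rw [mem_range] at hk
    unfold nab
    congr 1
    ext x
    simp only [mem_filter, mem_univ, true_and, mem_lv]
    constructor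
    · rintro ⟨⟨h1, h2, h3⟩, h4⟩
      exact ⟨by omega, h1⟩
    · rintro ⟨h1, h2⟩
      exact ⟨⟨h2, by omega, by omega⟩, by omega⟩
  · intro x hx
    have hx' := mem_filter.mp (Finset.mem_coe.mp hx)
    refine Finset.mem_coe.mpr (mem_range.mpr ?_)
    show lev x - i < h z
    omega

lemma nab_mono {l : ℕ} {z x : P} (h : z ≤ x) : nab l x ≤ nab l z := by
  classical
  unfold nab
  refine Finset.card_le_card fun y hy => ?_
  rw [mem_filter] at hy ⊢
  exact ⟨hy.1, h.trans hy.2⟩

lemma one_le_nab {l : ℕ} {z : P} (h : l ≤ lev z) : 1 ≤ nab l z := by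
  classical
  obtain ⟨y, hy, hl⟩ := exists_above' (x := z) h
  exact Finset.card_pos.mpr ⟨y, by rw [mem_filter, mem_lv]; exact ⟨hl, hy⟩⟩

lemma nab_self {z : P} : nab (lev z) z = 1 := by
  classical
  unfold nab
  rw [Finset.card_eq_one]
  refine ⟨z, ?_⟩
  ext x
  rw [mem_filter, mem_lv, mem_singleton]
  constructor
  · rintro ⟨h1, h2⟩
    by_contra hne
    have := lev_strictAnti (lt_of_le_of_ne h2 (Ne.symm hne))
    omega
  · rintro rfl
    exact ⟨rfl, le_rfl⟩

/-- two different elements of level `l` above `z` -/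
lemma two_le_nab {l : ℕ} {z x y : P} (hx : z ≤ x) (hy : z ≤ y) (hlx : lev x = l) (hly : lev y = l)
    (hne : x ≠ y) : 2 ≤ nab l z := by
  classical
  unfold nab
  have h1 : ({x, y} : Finset P) ⊆ (lv P l).filter (fun x => z ≤ x) := by
    intro w hw
    rw [mem_insert, mem_singleton] at hw
    rw [mem_filter, mem_lv]
    rcases hw with rfl | rfl
    · exact ⟨hlx, hx⟩
    · exact ⟨hly, hy⟩
  have h2 := Finset.card_le_card h1
  rwa [Finset.card_pair hne] at h2

/-- lower bound of the cost from lower bounds of the numbers of elements above `z` -/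
theorem cst_ge {i : ℕ} {h : P → ℕ} {z : P} (f : ℕ → ℕ) (hf : ∀ k, i < k → k ≤ lev z → f k ≤ nab k z) :
    ∑ k ∈ range (lev z + 1), min (h z) (k - i) * f k ≤ cst i h z := by
  rw [cst_eq]
  refine Finset.sum_le_sum fun k hk => ?_
  rw [mem_range] at hk
  rcases Nat.lt_or_ge i k with h1 | h1
  · exact Nat.mul_le_mul_left _ (hf k h1 (by omega))
  · have : k - i = 0 := by omega
    rw [this, Nat.min_zero, Nat.zero_mul, Nat.zero_mul]

/-- `∑ (k - i) · 2` -/
lemma sum_two (i : ℕ) : ∀ L : ℕ, ∑ k ∈ range (i + L + 1), (k - i) * 2 = L * (L + 1) := by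
  intro L
  induction L with
  | zero =>
    refine Finset.sum_eq_zero fun k hk => ?_
    rw [mem_range] at hk
    have : k - i = 0 := by omega
    rw [this, Nat.zero_mul]
  | succ L ih =>
    rw [show i + (L + 1) + 1 = (i + L + 1) + 1 by ring, Finset.sum_range_succ, ih,
      show i + L + 1 - i = L + 1 by omega]
    ring

/-- full label and two elements above on every level `> i`: cost at least `(lev z - i) ^ 2` -/
theorem sq_le_cst {i : ℕ} {h : P → ℕ} {z : P} (hi : i < lev z) (hh : h z = lev z - i)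
    (h2 : ∀ k, i < k → k < lev z → 2 ≤ nab k z) : (lev z - i) ^ 2 ≤ cst i h z := by
  obtain ⟨L, hL⟩ : ∃ L, lev z = i + L + 1 := ⟨lev z - i - 1, by omega⟩
  have h3 := cst_ge (h := h) (z := z) (i := i) (fun k => if k < lev z then 2 else 1) (by
    intro k hk hk2
    split_ifs with hc
    · exact h2 k hk hc
    · exact one_le_nab hk2)
  refine le_trans (le_of_eq ?_) h3
  rw [Finset.sum_range_succ, if_neg (lt_irrefl _), hh, hL]
  have h4 : ∑ k ∈ range (i + L + 1), min (i + L + 1 - i) (k - i) *
      (if k < i + L + 1 then 2 else 1) = ∑ k ∈ range (i + L + 1), (k - i) * 2 := by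
    refine Finset.sum_congr rfl fun k hk => ?_
    rw [mem_range] at hk
    rw [if_pos hk, Nat.min_eq_right (by omega)]
  rw [h4, sum_two, show i + L + 1 - i = L + 1 by omega, Nat.min_self]
  ring

/-- an element of every level between `z` and `s` -/
lemma exists_between (hgr : GradedBelow P) {z s : P} (hzs : z ≤ s) : ∀ {l : ℕ}, lev s ≤ l →
    l ≤ lev z → ∃ w, z ≤ w ∧ w ≤ s ∧ lev w = l := by
  have key : ∀ d : ℕ, lev s + d ≤ lev z → ∃ w, z ≤ w ∧ w ≤ s ∧ lev w = lev s + d := by
    intro d
    induction d with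
    | zero => intro _; exact ⟨s, hzs, le_rfl, rfl⟩
    | succ d ih =>
      intro hd
      obtain ⟨w, h1, h2, h3⟩ := ih (by omega)
      have hne : z ≠ w := by rintro rfl; omega
      obtain ⟨w', h4, h5, h6⟩ := hgr z w (lt_of_le_of_ne h1 hne)
      exact ⟨w', h4, h5.le.trans h2, by omega⟩
  intro l h1 h2
  obtain ⟨w, h3, h4, h5⟩ := key (l - lev s) (by omega)
  exact ⟨w, h3, h4, by omega⟩

section Join

variable {N : Tops P → Finset P}

/-- below two tops: one more element than above the natural cover, on every level -/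
theorem nab_join (HN : NatSys N) (hgr : GradedBelow P) {t : Tops P} {x z s : P} (hx : x ∈ N t)
    (hzx : z ≤ x) (hs : lev s = 0) (hst : s ≠ t) (hzs : z ≤ s) {l : ℕ} (hl : l ≤ lev z) :
    nab l x + 1 ≤ nab l z := by
  classical
  obtain ⟨w, hzw, hws, hlw⟩ := exists_between hgr hzs (by omega) hl
  have hxw : ¬ x ≤ w := by
    intro hxw
    have h1 := HN.up t x hx w hxw
    exact hst (HN.top_eq h1 hs hws)
  have h1 : insert w ((lv P l).filter (fun y => x ≤ y)) ⊆ (lv P l).filter (fun y => z ≤ y) := by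
    intro y hy
    rw [mem_insert] at hy
    rw [mem_filter, mem_lv]
    rcases hy with rfl | hy
    · exact ⟨hlw, hzw⟩
    · rw [mem_filter, mem_lv] at hy
      exact ⟨hy.1, hzx.trans hy.2⟩
  have h2 := Finset.card_le_card h1
  rw [Finset.card_insert_of_notMem (by
    rw [mem_filter]
    exact fun h => hxw h.2)] at h2
  exact h2

/-- in particular at least two elements on every level -/
theorem two_le_nab_join (HN : NatSys N) (hgr : GradedBelow P) {t : Tops P} {x z s : P}
    (hx : x ∈ N t) (hzx : z ≤ x) (hs : lev s = 0) (hst : s ≠ t) (hzs : z ≤ s) {l : ℕ}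
    (hl : l ≤ lev x) : 2 ≤ nab l z := by
  have h1 : lev x ≤ lev z := by
    rcases eq_or_lt_of_le hzx with h | h
    · rw [h]
    · exact (lev_strictAnti h).le
  have h2 := nab_join HN hgr hx hzx hs hst hzs (l := l) (by omega)
  have h3 := one_le_nab (z := x) hl
  omega

/-- exact number of elements above a join of two natural elements of different tops -/
theorem nab_join_eq (HN : NatSys N) (H : Gr P r) {t t' : Tops P} {x x' z : P} (hx : x ∈ N t)
    (hx' : x' ∈ N t') (htt : t ≠ t') (hzx : z ⋖ x) (hzx' : z ⋖ x') {l : ℕ} (hl : l < lev z) :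
    nab l z = nab l x + nab l x' := by
  classical
  unfold nab
  rw [← Finset.card_union_of_disjoint]
  · congr 1
    ext y
    rw [mem_union, mem_filter, mem_filter, mem_filter, mem_lv]
    constructor
    · rintro ⟨h1, h2⟩
      have hne : z ≠ y := by rintro rfl; omega
      obtain ⟨v, hv, hvy⟩ := Hul.exists_cov (lt_of_le_of_ne h2 hne)
      have hxx' : x ≠ x' := by
        rintro rfl
        exact htt (((HN.topOf_eq hx).symm.trans (HN.topOf_eq hx')))
      by_cases h3 : v = x
      · exact Or.inl ⟨h1, h3 ▸ hvy⟩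
      · by_cases h4 : v = x'
        · exact Or.inr ⟨h1, h4 ▸ hvy⟩
        · exact (Win.uc_three H hv hzx hzx' h3 h4 hxx').elim
    · rintro (⟨h1, h2⟩ | ⟨h1, h2⟩)
      · exact ⟨h1, hzx.le.trans h2⟩
      · exact ⟨h1, hzx'.le.trans h2⟩
  · rw [Finset.disjoint_left]
    intro y hy hy'
    rw [mem_filter] at hy hy'
    have h1 := HN.topOf_eq (HN.up t x hx y hy.2)
    have h2 := HN.topOf_eq (HN.up t' x' hx' y hy'.2)
    exact htt (h1.symm.trans h2)

end Join

section Chart

variable {t : P} {S : ℕ × ℕ → Prop} {N : Finset P} {co : P → ℕ × ℕ}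

open Classical in
/-- the cells of level `l` above the cell `p` -/
noncomputable def cellsAt (S : ℕ × ℕ → Prop) (l : ℕ) (p : ℕ × ℕ) : Finset ℕ :=
  (range (p.1 + 1)).filter (fun a => a ≤ l ∧ l - a ≤ p.2 ∧ S (a, l - a))

lemma mem_cellsAt {l a : ℕ} {p : ℕ × ℕ} :
    a ∈ cellsAt S l p ↔ a ≤ p.1 ∧ a ≤ l ∧ l - a ≤ p.2 ∧ S (a, l - a) := by
  classical
  unfold cellsAt
  rw [mem_filter, mem_range, Nat.lt_succ_iff]

/-- the elements above an element of a chart are the cells above its cell -/
theorem nab_chart (C : Chart t S N co) {x : P} (hx : x ∈ N) (l : ℕ) :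
    nab l x = (cellsAt S l (co x)).card := by
  classical
  unfold nab
  refine Finset.card_bij (fun y _ => (co y).1) ?_ ?_ ?_
  · intro y hy
    rw [mem_filter, mem_lv] at hy
    have hyN := C.up x hx y hy.2
    have h1 := (C.le_iff x hx y hyN).mp hy.2
    have h2 := C.lev y hyN
    have h3 : (co y).1 ≤ (co x).1 := h1.1
    have h4 : (co y).2 ≤ (co x).2 := h1.2
    rw [mem_cellsAt]
    have h5 : l - (co y).1 = (co y).2 := by omega
    rw [h5]
    exact ⟨h3, by omega, h4, C.mem y hyN⟩
  · intro y hy y' hy' h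
    rw [mem_filter, mem_lv] at hy hy'
    have hyN := C.up x hx y hy.2
    have hyN' := C.up x hx y' hy'.2
    have h2 := C.lev y hyN
    have h3 := C.lev y' hyN'
    exact C.inj y hyN y' hyN' (Prod.ext h (by omega))
  · intro a ha
    rw [mem_cellsAt] at ha
    obtain ⟨y, hy, hcy⟩ := C.low x hx (a, l - a) ⟨ha.1, ha.2.2.1⟩ ha.2.2.2
    refine ⟨y, ?_, by rw [hcy]⟩
    rw [mem_filter, mem_lv]
    refine ⟨?_, ?_⟩
    · rw [C.lev y hy, hcy]
      simp only
      omega
    · rw [C.le_iff x hx y hy, hcy]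
      exact ⟨ha.1, ha.2.2.1⟩

/-- covers inside a chart -/
theorem chart_cov (C : Chart t S N co) (H : Gr P r) {x y : P} (hx : x ∈ N) (hy : y ∈ N) :
    x ⋖ y ↔ Prd (co x) (co y) := by
  have h1 := C.lev x hx
  have h2 := C.lev y hy
  rw [H.covBy_iff]
  constructor
  · rintro ⟨h3, h4⟩
    have h5 := (C.le_iff x hx y hy).mp h3.le
    have h6 : (co y).1 ≤ (co x).1 := h5.1
    have h7 : (co y).2 ≤ (co x).2 := h5.2
    unfold Prd
    omega
  · intro h3
    refine ⟨lt_of_le_of_ne ?_ ?_, ?_⟩
    · rw [C.le_iff x hx y hy]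
      exact h3.le
    · intro h4
      rw [h4] at h3
      exact h3.ne rfl
    · rcases h3 with h3 | h3 <;> omega

end Chart

end Pool.Agent.GaussPoset

end

/-! From `Pool.Agent.W_448fw_h5.FwW` -/

section

/-!
Doubles, diagonal pendants, cells above a cell.
-/

namespace Pool.Agent.GaussPoset

set_option linter.unusedSectionVars false

open Polynomial Finset

universe u

variable {P : Type u} [Fintype P] [PartialOrder P] [DecidableEq P] {r : ℕ}

section Max

variable {t : P} {S : ℕ × ℕ → Prop} {N : Finset P} {co : P → ℕ × ℕ}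

/-- an element outside a maximal chart below two neighbours: the cell is occupied -/
theorem max_pair (C : Chart t S N co) (Mx : MaxChart S N co) (H : Gr P r) {z x x' : P}
    (hzN : z ∉ N) (hx : x ∈ N) (hx' : x' ∈ N) (hzx : z ⋖ x) (hzx' : z ⋖ x') {s c : ℕ}
    (hcx : co x = (s + 1, c)) (hcx' : co x' = (s, c + 1)) (hS : S (s + 1, c + 1)) :
    ∃ y ∈ N, co y = (s + 1, c + 1) ∧ y ⋖ x ∧ y ⋖ x' ∧ y ≠ z := by
  have hxx' : x ≠ x' := by
    rintro rfl
    rw [hcx] at hcx'
    simp at hcx'
  by_cases hy : ∃ y ∈ N, co y = (s + 1, c + 1)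
  · obtain ⟨y, hy, hcy⟩ := hy
    refine ⟨y, hy, hcy, ?_, ?_, fun h => hzN (h ▸ hy)⟩
    · rw [chart_cov C H hy hx, hcy, hcx]
      exact Or.inr ⟨rfl, rfl⟩
    · rw [chart_cov C H hy hx', hcy, hcx']
      exact Or.inl ⟨rfl, rfl⟩
  · exfalso
    push Not at hy
    refine Mx z hzN (s + 1, c + 1) hS hy ⟨x, hzx⟩ ?_ ?_
    · intro p' _ hp'
      rcases hp' with h | h
      · refine ⟨x', hx', ?_⟩
        have e1 := h.1
        have e2 := h.2
        simp only at e1 e2
        rw [hcx']
        exact Prod.ext (by simp only; omega) (by simp only; omega)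
      · refine ⟨x, hx, ?_⟩
        have e1 := h.1
        have e2 := h.2
        simp only at e1 e2
        rw [hcx]
        exact Prod.ext (by simp only; omega) (by simp only; omega)
    · intro y
      constructor
      · intro h
        by_cases h1 : y = x
        · rw [h1]
          exact ⟨hx, by rw [hcx]; exact Or.inr ⟨rfl, rfl⟩⟩
        · by_cases h2 : y = x'
          · rw [h2]
            exact ⟨hx', by rw [hcx']; exact Or.inl ⟨rfl, rfl⟩⟩
          · exact (Win.uc_three H h hzx hzx' h1 h2 hxx').elim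
      · rintro ⟨hyN, hyp⟩
        rcases hyp with h | h
        · have e1 := h.1
          have e2 := h.2
          simp only at e1 e2
          have : y = x' := C.inj y hyN x' hx' (by
            rw [hcx']
            exact Prod.ext (by simp only; omega) (by simp only; omega))
          rw [this]
          exact hzx'
        · have e1 := h.1
          have e2 := h.2
          simp only at e1 e2
          have : y = x := C.inj y hyN x hx (by
            rw [hcx]
            exact Prod.ext (by simp only; omega) (by simp only; omega))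
          rw [this]
          exact hzx

/-- the same for pendants: if `x` is the only predecessor of the allowed cell `p`, a pendant below
`x` outside a maximal chart forces `p` to be occupied -/
theorem max_single (C : Chart t S N co) (Mx : MaxChart S N co) {z x : P} (hzN : z ∉ N)
    (hx : x ∈ N) (hzx : z ⋖ x) (honly : ∀ y, z ⋖ y → y = x) {p : ℕ × ℕ} (hS : S p)
    (hp : Prd p (co x)) (hpu : ∀ p', S p' → Prd p p' → p' = co x) : ∃ y ∈ N, co y = p := by
  by_contra hcon
  push Not at hcon
  refine Mx z hzN p hS hcon ⟨x, hzx⟩ (fun p' hp' hpp' => ⟨x, hx, (hpu p' hp' hpp').symm⟩) ?_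
  intro y
  constructor
  · intro h
    rw [honly y h]
    exact ⟨hx, hp⟩
  · rintro ⟨hy, hyp⟩
    have : y = x := C.inj y hy x hx (hpu _ (C.mem y hy) hyp)
    rw [this]
    exact hzx

/-- a pendant below the element `(s, s + 1)` of a stair: the diagonal cell is occupied -/
theorem max_diag {co : P → ℕ × ℕ} (C : Chart t (fun c => c.1 ≤ c.2) N co)
    (Mx : MaxChart (fun c => c.1 ≤ c.2) N co) (H : Gr P r) {z x : P} (hzN : z ∉ N) (hx : x ∈ N)
    (hzx : z ⋖ x) (honly : ∀ y, z ⋖ y → y = x) {s : ℕ} (hcx : co x = (s, s + 1)) :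
    ∃ y ∈ N, co y = (s + 1, s + 1) ∧ y ⋖ x ∧ y ≠ z := by
  obtain ⟨y, hy, hcy⟩ := max_single C Mx hzN hx hzx honly (p := (s + 1, s + 1)) le_rfl
    (by rw [hcx]; exact Or.inl ⟨rfl, rfl⟩) (by
      intro p' hp' hpp'
      rw [hcx]
      rcases hpp' with h | h
      · have e1 := h.1
        have e2 := h.2
        simp only at e1 e2
        exact Prod.ext (by simp only; omega) (by simp only; omega)
      · have e1 := h.1
        have e2 := h.2
        have e3 : p'.1 ≤ p'.2 := hp'
        simp only at e1 e2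
        omega)
  refine ⟨y, hy, hcy, ?_, fun h => hzN (h ▸ hy)⟩
  rw [chart_cov C H hy hx, hcy, hcx]
  exact Or.inl ⟨rfl, rfl⟩

end Max

section Cells

/-- cells above `(s, c)` in the plane -/
theorem card_cellsAt_true {l : ℕ} {p : ℕ × ℕ} (hl : l ≤ p.1 + p.2) :
    (cellsAt (fun _ => True) l p).card + (l - p.2) = min l p.1 + 1 := by
  classical
  have h1 : cellsAt (fun _ => True) l p = Icc (l - p.2) (min l p.1) := by
    ext a
    rw [mem_cellsAt, mem_Icc, and_true]
    omega
  rw [h1, Nat.card_Icc]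
  omega

/-- cells above `(s, c)` in the shifted plane -/
theorem card_cellsAt_shift {l : ℕ} {p : ℕ × ℕ} (hp : p.1 ≤ p.2) (hl : l ≤ p.1 + p.2) :
    (cellsAt (fun c => c.1 ≤ c.2) l p).card + (l - p.2) = min (l / 2) p.1 + 1 := by
  classical
  have h1 : cellsAt (fun c => c.1 ≤ c.2) l p = Icc (l - p.2) (min (l / 2) p.1) := by
    ext a
    rw [mem_cellsAt, mem_Icc]
    simp only
    omega
  rw [h1, Nat.card_Icc]
  omega

/-- closed form of the cost: label one less than the maximum, two elements above -/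
theorem cst_ge_sq_sub {i : ℕ} {h : P → ℕ} {z : P} (hi : i + 1 < lev z) (hh : h z = lev z - i - 1)
    (h2 : ∀ k, i < k → k + 1 < lev z → 2 ≤ nab k z) :
    (lev z - i) * (lev z - i - 1) ≤ cst i h z := by
  obtain ⟨L, hL⟩ : ∃ L, lev z = i + L + 2 := ⟨lev z - i - 2, by omega⟩
  have h3 := cst_ge (h := h) (z := z) (i := i) (fun k => if k + 1 < lev z then 2 else 1) (by
    intro k hk hk2
    split_ifs with hc
    · exact h2 k hk hc
    · exact one_le_nab hk2)
  refine le_trans (le_of_eq ?_) h3
  rw [Finset.sum_range_succ, hL, Finset.sum_range_succ, if_neg (by omega), if_neg (by omega), hh,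
    hL]
  have h4 : ∑ k ∈ range (i + L + 1), min (i + L + 2 - i - 1) (k - i) *
      (if k + 1 < i + L + 2 then 2 else 1) = ∑ k ∈ range (i + L + 1), (k - i) * 2 := by
    refine Finset.sum_congr rfl fun k hk => ?_
    rw [mem_range] at hk
    rw [if_pos (by omega), Nat.min_eq_right (by omega)]
  rw [h4, sum_two, show i + L + 2 - i - 1 = L + 1 by omega, show i + L + 2 - i = L + 2 by omega,
    show i + L + 1 - i = L + 1 by omega, Nat.min_self, Nat.min_eq_left (by omega)]
  ring

end Cells

end Pool.Agent.GaussPoset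

end

/-! From `Pool.Agent.W_448s7_h5.SevG` -/

section

/-!
# Full costs, maximal elements of the far set, minimality (MP_448cb3_co, S7)
-/

namespace Pool.Agent.GaussPoset

set_option linter.unusedSectionVars false

open Polynomial Finset

universe u

variable {P : Type u} [Fintype P] [PartialOrder P] [DecidableEq P] {r : ℕ}

/-- the full cost of an element at window `i`: the sum of the excesses above it -/
noncomputable def ful (i : ℕ) (z : P) : ℕ := ∑ k ∈ range (lev z + 1), (k - i) * nab k z

lemma Sev_lev_le_of_le {z x : P} (h : z ≤ x) : lev x ≤ lev z := by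
  rcases eq_or_lt_of_le h with h | h
  · rw [h]
  · exact (lev_strictAnti h).le

lemma cst_le_ful (i : ℕ) (h : P → ℕ) (z : P) : cst i h z ≤ ful i z := by
  rw [cst_eq]
  exact Finset.sum_le_sum fun k _ => Nat.mul_le_mul_right _ (min_le_right _ _)

lemma cst_eq_ful {i : ℕ} {h : P → ℕ} {z : P} (hh : lev z - i ≤ h z) : cst i h z = ful i z := by
  rw [cst_eq]
  refine Finset.sum_congr rfl fun k hk => ?_
  rw [mem_range] at hk
  rw [Nat.min_eq_right (by omega)]

lemma ful_anti (i : ℕ) {z x : P} (h : z ≤ x) : ful i x ≤ ful i z := by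
  have h1 := Sev_lev_le_of_le h
  unfold ful
  calc ∑ k ∈ range (lev x + 1), (k - i) * nab k x
      ≤ ∑ k ∈ range (lev x + 1), (k - i) * nab k z :=
        Finset.sum_le_sum fun k _ => Nat.mul_le_mul_left _ (nab_mono h)
    _ ≤ ∑ k ∈ range (lev z + 1), (k - i) * nab k z :=
        Finset.sum_le_sum_of_subset (Finset.range_mono (by omega))

lemma cst_step {i : ℕ} {h : P → ℕ} {z x : P} (H : GradedBelow P) (hzx : z ⋖ x)
    (hh : lev z - i ≤ h z + 1) : ful i x + min (h z) (lev z - i) ≤ cst i h z := by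
  have h1 := H.lev_covBy hzx
  rw [cst_eq, Finset.sum_range_succ _ (lev z), nab_self, mul_one]
  refine Nat.add_le_add_right ?_ _
  unfold ful
  rw [h1]
  refine Finset.sum_le_sum fun k hk => ?_
  rw [mem_range] at hk
  rw [Nat.min_eq_right (by omega)]
  exact Nat.mul_le_mul_left _ (nab_mono hzx.1.le)

lemma mem_bdR {R : Finset P} {z : P} : z ∈ bdR R ↔ z ∈ R ∧ ∃ x, x ∉ R ∧ z ⋖ x := by
  classical
  unfold bdR
  rw [mem_filter]

/-- above an element of `R` (all of positive level) there is a boundary element -/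
lemma exists_bd_above {R : Finset P} (hR : ∀ x ∈ R, 0 < lev x) {z : P} (hz : z ∈ R) :
    ∃ z' ∈ bdR R, z ≤ z' ∧ ∀ x, z' < x → x ∉ R := by
  classical
  obtain ⟨z', hz'⟩ := (R.filter (fun x => z ≤ x)).exists_maximal ⟨z, mem_filter.mpr ⟨hz, le_rfl⟩⟩
  have h1 := mem_filter.mp hz'.1
  have h2 : ∀ x, z' < x → x ∉ R := by
    intro x hx hxR
    have := hz'.2 (mem_filter.mpr ⟨hxR, h1.2.trans hx.le⟩) hx.le
    exact absurd (lt_of_lt_of_le hx this) (lt_irrefl _)
  have h3 : z' < (topOf z' : P) := lt_of_le_of_ne (le_topOf z') (by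
    intro h
    have := (topOf z').2
    rw [← h] at this
    have := hR z' h1.1
    omega)
  obtain ⟨u, hu, -⟩ := Hul.exists_cov h3
  exact ⟨z', mem_bdR.mpr ⟨h1.1, u, h2 u hu.1, hu⟩, h1.2, h2⟩

/-- the minimal cost is at most the full cost of every element of `R` -/
lemma min_le_ful {i : ℕ} {R : Finset P} {h : P → ℕ} {v : ℕ} (hR : ∀ x ∈ R, 0 < lev x)
    (hv : ∀ z ∈ bdR R, v ≤ cst i h z) {z : P} (hz : z ∈ R) : v ≤ ful i z := by
  obtain ⟨z', hz', hle, -⟩ := exists_bd_above hR hz
  exact (hv z' hz').trans ((cst_le_ful i h z').trans (ful_anti i hle))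

/-- a cheapest element of the boundary with a large label has no cover in `R` -/
lemma no_cover_of_min {i : ℕ} {R : Finset P} {h : P → ℕ} {v : ℕ} (H : GradedBelow P)
    (hR : ∀ x ∈ R, i < lev x) (hv : ∀ z ∈ bdR R, v ≤ cst i h z) (h1 : ∀ z ∈ bdR R, 1 ≤ h z)
    {z : P} (hz : z ∈ bdR R) (hc : cst i h z = v) (hh : lev z - i ≤ h z + 1) {x : P}
    (hzx : z ⋖ x) : x ∉ R := by
  intro hx
  have h2 := min_le_ful (fun x hx => Nat.zero_lt_of_lt (hR x hx)) hv hx
  have h3 := cst_step H hzx hh
  have h4 := h1 z hz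
  have h5 := hR z (mem_bdR.mp hz).1
  have h6 : 1 ≤ min (h z) (lev z - i) := by
    rw [Nat.le_min]
    omega
  omega

/-- the full cost without the element itself -/
lemma ful_eq_above (i : ℕ) (z : P) :
    ful i z = ∑ k ∈ range (lev z), (k - i) * nab k z + (lev z - i) := by
  unfold ful
  rw [Finset.sum_range_succ, nab_self, mul_one]

end Pool.Agent.GaussPoset

end
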