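import Mathlib
import Pool.Agent.W_448zz_h61.Ns
import Pool.Agent.W_448zz_h61.M014
import Pool.Agent.W_448zz_h61.M029

/-! From `Pool.Agent.W_448s7_h27.HangE` -/

section

/-!
Component data for the far window theorem, with junk hung below the straight ends.
-/

namespace Pool.Agent.GaussPoset

set_option linter.unusedSectionVars false

open Polynomial Finset

universe u

variable {P : Type u} [Fintype P] [PartialOrder P] [DecidableEq P]
variable {ι : Type*}

/-- the junk `J` hangs below the natural element `x1` of the component `k` -/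
structure Junk (R : Finset P) (cp : P → ι) (k : ι) (J : P → Prop) (x1 : P) : Prop where
  mem : ∀ x, J x → x ∉ R ∧ cp x = k ∧ x < x1
  low : ∀ x y, x ≤ y → x ∉ R → J y → J x
  anc : ∀ x y, J x → x ≤ y → J y ∨ x1 ≤ y

/-- coordinates of the elements of the component `k` outside `R` and outside `J` -/
structure CoordJ (R : Finset P) (cp : P → ι) (k : ι) (J : P → Prop) (S : ℕ × ℕ → Prop)
    (co : P → ℕ × ℕ) : Prop where
  inj : ∀ x y, x ∉ R → y ∉ R → cp x = k → cp y = k → ¬ J x → ¬ J y → co x = co y → x = y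
  le_iff : ∀ x y, x ∉ R → y ∉ R → cp x = k → cp y = k → ¬ J x → ¬ J y → (x ≤ y ↔ co y ≤ co x)
  mem : ∀ x, x ∉ R → cp x = k → ¬ J x → S (co x)
  low : ∀ x, x ∉ R → cp x = k → ¬ J x → ∀ c ≤ co x, S c →
    ∃ y, y ∉ R ∧ cp y = k ∧ ¬ J y ∧ co y = c
  lev : ∀ x, x ∉ R → cp x = k → ¬ J x → Pool.Agent.GaussPoset.lev x = (co x).1 + (co x).2

section Cells

variable {R : Finset P} {cp : P → ι} {k : ι} {S : ℕ × ℕ → Prop} {co : P → ℕ × ℕ}
  {i b α β : ℕ} {θ : P → ℕ} {B : P → Prop} {J1 J2 : P → Prop} {x1 x2 : P}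

/-- component data from coordinates, general form with junk -/
theorem compDataJ_cells (hgr : GradedBelow P) (hcp : ∀ x y, x ≤ y → x ∉ R → cp x = cp y)
    (h1 : Junk R cp k J1 x1) (h2 : Junk R cp k J2 x2)
    (H : CoordJ R cp k (fun x => J1 x ∨ J2 x) S co)
    (hB : ∀ x, x ∉ R → cp x = k → (B x ↔ ¬ (J1 x ∨ J2 x) ∧ co x = (α, β)))
    (hθ : ∀ x, x ∉ R → cp x = k → ¬ (J1 x ∨ J2 x) → θ x = ((co x).1 - α) + ((co x).2 - β))
    (hθJ : ∀ x, J1 x ∨ J2 x → θ x = lev x - i)
    (hle : ∀ x, x ∉ R → cp x = k → ¬ (J1 x ∨ J2 x) →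
      ((co x).1 - α) + ((co x).2 - β) ≤ ((co x).1 + (co x).2) - i)
    (hθ1 : (∃ x, J1 x) → lev x1 - i ≤ θ x1) (hθ2 : (∃ x, J2 x) → lev x2 - i ≤ θ x2)
    (hclean : ∀ D, Good i R B D → ∀ _ : DecidableEq ι,
      (1 + X : Polynomial (PowerSeries ℤ)) ^ b ∣ W {x : {x : P // x ∉ D} // cp (x : P) = k} i) :
    CompData R cp k i b θ B where
  clean := hclean
  lev := by
    intro x hx hk hx1
    by_cases hJ : J1 x ∨ J2 x
    · rw [hθJ x hJ] at hx1
      omega
    · rw [hθ x hx hk hJ] at hx1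
      have h2 := hle x hx hk hJ
      rw [H.lev x hx hk hJ]
      omega
  base := by
    intro x hx hk hx1 y hyx hy hBy
    have hyk : cp y = k := by rw [hcp y x hyx hy]; exact hk
    obtain ⟨hyJ, hco⟩ := (hB y hy hyk).mp hBy
    have hxJ : ¬ (J1 x ∨ J2 x) := by
      rintro (h | h)
      · exact hyJ (Or.inl (h1.low y x hyx hy h))
      · exact hyJ (Or.inr (h2.low y x hyx hy h))
    have h3 := (H.le_iff y x hy hx hyk hk hyJ hxJ).mp hyx
    rw [hco] at h3
    rw [hθ x hx hk hxJ] at hx1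
    have h4 : (co x).1 ≤ α := h3.1
    have h5 : (co x).2 ≤ β := h3.2
    omega
  step := by
    intro x hx hk hx1 y hyx hy x' hx' hyx' hn
    have hyk : cp y = k := by rw [hcp y x hyx hy]; exact hk
    have hxk' : cp x' = k := by rw [← hcp y x' hyx'.1.le hy]; exact hyk
    have h4 := hgr.lev_covBy hyx'
    have hlyx : lev x ≤ lev y := by
      rcases eq_or_lt_of_le hyx with h | h
      · rw [h]
      · exact (lev_strictAnti h).le
    -- junk case
    have key : ∀ (J : P → Prop) (z : P), Junk R cp k J z → (∀ x, J x → J1 x ∨ J2 x) →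
        ((∃ x, J x) → lev z - i ≤ θ z) → J y → θ x ≤ θ x' + 1 := by
      intro J z hJ hJs hz hJy
      rcases hJ.anc y x hJy hyx with hJx | hzx
      · -- x is junk
        rw [hθJ x (hJs x hJx)]
        rcases hJ.anc y x' hJy hyx'.1.le with hJx' | hzx'
        · rw [hθJ x' (hJs x' hJx')]
          omega
        · have hyz := (hJ.mem y hJy).2.2
          have hzx'' : z = x' := by
            by_contra hne
            exact hyx'.2 hyz (lt_of_le_of_ne hzx' hne)
          have := hz ⟨y, hJy⟩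
          rw [hzx''] at this
          omega
      · exfalso
        rcases hJ.anc y x' hJy hyx'.1.le with hJx' | hzx'
        · exact hn ((hJ.mem x' hJx').2.2.le.trans hzx)
        · have hyz := (hJ.mem y hJy).2.2
          have hzx'' : z = x' := by
            by_contra hne
            exact hyx'.2 hyz (lt_of_le_of_ne hzx' hne)
          exact hn (hzx'' ▸ hzx)
    by_cases hyJ : J1 y ∨ J2 y
    · rcases hyJ with h | h
      · exact key J1 x1 h1 (fun _ h => Or.inl h) hθ1 h
      · exact key J2 x2 h2 (fun _ h => Or.inr h) hθ2 h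
    · have hxJ : ¬ (J1 x ∨ J2 x) := by
        rintro (h | h)
        · exact hyJ (Or.inl (h1.low y x hyx hy h))
        · exact hyJ (Or.inr (h2.low y x hyx hy h))
      have hxJ' : ¬ (J1 x' ∨ J2 x') := by
        rintro (h | h)
        · exact hyJ (Or.inl (h1.low y x' hyx'.1.le hy h))
        · exact hyJ (Or.inr (h2.low y x' hyx'.1.le hy h))
      have h5 := (H.le_iff y x hy hx hyk hk hyJ hxJ).mp hyx
      have h3 := (H.le_iff y x' hy hx' hyk hxk' hyJ hxJ').mp hyx'.1.le
      rw [H.lev y hy hyk hyJ, H.lev x' hx' hxk' hxJ'] at h4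
      have h6 : ¬ co x ≤ co x' := fun h => hn ((H.le_iff x' x hx' hx hxk' hk hxJ' hxJ).mpr h)
      have h6 : ¬ ((co x).1 ≤ (co x').1 ∧ (co x).2 ≤ (co x').2) := h6
      have h7 : (co x).1 ≤ (co y).1 := h5.1
      have h8 : (co x).2 ≤ (co y).2 := h5.2
      have h9 : (co x').1 ≤ (co y).1 := h3.1
      have h10 : (co x').2 ≤ (co y).2 := h3.2
      rw [hθ x hx hk hxJ, hθ x' hx' hxk' hxJ']
      omega
  le := by
    intro x hx hk
    by_cases hJ : J1 x ∨ J2 x
    · rw [hθJ x hJ]
    · rw [hθ x hx hk hJ, H.lev x hx hk hJ]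
      exact hle x hx hk hJ

lemma CoordJ.base_not_mem {J : P → Prop} (H : CoordJ R cp k J S co)
    (hB : ∀ x, x ∉ R → cp x = k → (B x ↔ ¬ J x ∧ co x = (α, β)))
    {D : Finset P} (hD : Good i R B D)
    (hcell : ∃ x, x ∉ R ∧ cp x = k ∧ ¬ J x ∧ co x = (α, β)) :
    ∃ y, y ∉ D ∧ cp y = k ∧ ¬ J y ∧ co y = (α, β) := by
  obtain ⟨x, hx, hk, hJ, hcx⟩ := hcell
  exact ⟨x, fun h => hD.2.2.2 x h ((hB x hx hk).mpr ⟨hJ, hcx⟩), hk, hJ, hcx⟩

/-- the element below which the junk hangs, in the part outside `D` -/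
lemma junk_end {J J' : P → Prop} {x1 : P} (h1 : Junk R cp k J x1)
    (hx1 : x1 ∉ R ∧ cp x1 = k ∧ ¬ J x1 ∧ ¬ J' x1)
    {D : Finset P} (hD : Good i R B D) {f : P → ℕ} {g : P → ℕ}
    (hr1 : (∃ x, J x) → g x1 = 0 ∧ ∀ y, y ∉ R → cp y = k → ¬ J y → ¬ J' y → y ≠ x1 → f y < f x1)
    (z : {x : {x : P // x ∉ D} // cp (x : P) = k}) (hz : ¬ J z.1.1) (hz' : ¬ J' z.1.1) :
    ∃ w : {x : {x : P // x ∉ D} // cp (x : P) = k}, ¬ J w.1.1 ∧ ¬ J' w.1.1 ∧
      (∀ x y : {x : {x : P // x ∉ D} // cp (x : P) = k}, J x.1.1 → ¬ J y.1.1 →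
        (x ≤ y ↔ w ≤ y)) ∧
      ((∃ x : {x : {x : P // x ∉ D} // cp (x : P) = k}, J x.1.1) → g w.1.1 = 0 ∧
        ∀ y : {x : {x : P // x ∉ D} // cp (x : P) = k}, ¬ J y.1.1 → ¬ J' y.1.1 → y ≠ w →
          f y.1.1 < f w.1.1) := by
  by_cases hx : x1 ∈ D
  · have hno : ∀ x : {x : {x : P // x ∉ D} // cp (x : P) = k}, ¬ J x.1.1 := by
      intro x hJ
      exact x.1.2 (hD.1 _ _ (h1.mem _ hJ).2.2.le hx)
    exact ⟨z, hz, hz', fun x y hJ _ => (hno x hJ).elim, fun ⟨x, hJ⟩ => (hno x hJ).elim⟩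
  · refine ⟨⟨⟨x1, hx⟩, hx1.2.1⟩, hx1.2.2.1, hx1.2.2.2, ?_, ?_⟩
    · intro x y hJ hJy
      constructor
      · intro hxy
        exact (h1.anc _ _ hJ hxy).resolve_left hJy
      · intro hxy
        exact (h1.mem _ hJ).2.2.le.trans hxy
    · rintro ⟨x, hJ⟩
      obtain ⟨h3, h4⟩ := hr1 ⟨_, hJ⟩
      refine ⟨h3, fun y hy hy' hne => ?_⟩
      refine h4 y.1.1 (fun h => y.1.2 (hD.2.1 h)) y.2 hy hy' fun h => hne ?_
      exact Subtype.ext (Subtype.ext h)

/-- straight shapes with junk below the ends of the first row and of the first column -/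
theorem compDataJ_straight (hgr : GradedBelow P) (hcp : ∀ x y, x ≤ y → x ∉ R → cp x = cp y)
    (h1 : Junk R cp k J1 x1) (h2 : Junk R cp k J2 x2)
    (hx1 : x1 ∉ R ∧ cp x1 = k ∧ ¬ J1 x1 ∧ ¬ J2 x1) (hx2 : x2 ∉ R ∧ cp x2 = k ∧ ¬ J2 x2 ∧ ¬ J1 x2)
    (H : CoordJ R cp k (fun x => J1 x ∨ J2 x) (fun _ => True) co)
    (hr1 : (∃ x, J1 x) → (co x1).1 = 0 ∧
      ∀ y, y ∉ R → cp y = k → ¬ J1 y → ¬ J2 y → y ≠ x1 → (co y).2 < (co x1).2)
    (hr2 : (∃ x, J2 x) → (co x2).2 = 0 ∧
      ∀ y, y ∉ R → cp y = k → ¬ J2 y → ¬ J1 y → y ≠ x2 → (co y).1 < (co x2).1)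
    (hb1 : 1 ≤ b) (hbi : b ≤ i + 1)
    (hB : ∀ x, x ∉ R → cp x = k → (B x ↔ ¬ (J1 x ∨ J2 x) ∧ co x = (b - 1, i)))
    (hcell : ∃ x, x ∉ R ∧ cp x = k ∧ ¬ (J1 x ∨ J2 x) ∧ co x = (b - 1, i))
    (hθ : ∀ x, x ∉ R → cp x = k → ¬ (J1 x ∨ J2 x) →
      θ x = ((co x).1 - (b - 1)) + ((co x).2 - i))
    (hθJ : ∀ x, J1 x ∨ J2 x → θ x = lev x - i)
    (hrows : b = i + 1 ∨ ∀ x, x ∉ R → cp x = k → ¬ (J1 x ∨ J2 x) → (co x).1 ≤ b - 1) :
    CompData R cp k i b θ B := by
  have hx1' : ¬ (J1 x1 ∨ J2 x1) := by rintro (h | h); exacts [hx1.2.2.1 h, hx1.2.2.2 h]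
  have hx2' : ¬ (J1 x2 ∨ J2 x2) := by rintro (h | h); exacts [hx2.2.2.2 h, hx2.2.2.1 h]
  refine compDataJ_cells hgr hcp h1 h2 H hB hθ hθJ ?_ ?_ ?_ ?_
  · intro x hx hk hJ
    rcases hrows with h | h
    · omega
    · have := h x hx hk hJ
      omega
  · intro hex
    rw [hθ x1 hx1.1 hx1.2.1 hx1', H.lev x1 hx1.1 hx1.2.1 hx1', (hr1 hex).1]
    omega
  · intro hex
    rw [hθ x2 hx2.1 hx2.2.1 hx2', H.lev x2 hx2.1 hx2.2.1 hx2', (hr2 hex).1]
    omega
  · intro D hD hdec
    classical
    have hR : ∀ x : {x : P // x ∉ D}, (x : P) ∉ R := fun x h => x.2 (hD.2.1 h)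
    obtain ⟨z, hzD, hzk, hzJ, hzc⟩ := CoordJ.base_not_mem H hB hD hcell
    obtain ⟨w1, hw1, hw1', hh1, hrr1⟩ := junk_end h1 hx1 hD (f := fun x => (co x).2)
      (g := fun x => (co x).1) hr1 ⟨⟨z, hzD⟩, hzk⟩ (fun h => hzJ (Or.inl h)) (fun h => hzJ (Or.inr h))
    obtain ⟨w2, hw2, hw2', hh2, hrr2⟩ := junk_end h2 hx2 hD (f := fun x => (co x).1)
      (g := fun x => (co x).2) hr2 ⟨⟨z, hzD⟩, hzk⟩ (fun h => hzJ (Or.inr h)) (fun h => hzJ (Or.inl h))
    refine young_junk_dvd (Q := {x : {x : P // x ∉ D} // cp (x : P) = k})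
      (fun x => J1 x.1.1) (fun x => J2 x.1.1) (fun x => co x.1.1) w1 w2 hw1 hw1' hw2' hw2
      (fun x y hxy hy => h1.low _ _ hxy (hR _) hy) (fun x y hxy hy => h2.low _ _ hxy (hR _) hy)
      hh1 hh2 ?_ ?_ ?_ hrr1 (fun h => ?_) hbi ?_
    · intro x y hx hx' hy hy' hxy
      exact Subtype.ext (Subtype.ext (H.inj _ _ (hR _) (hR _) x.2 y.2
        (by rintro (h | h); exacts [hx h, hx' h]) (by rintro (h | h); exacts [hy h, hy' h]) hxy))
    · intro x y hx hx' hy hy'
      exact H.le_iff _ _ (hR _) (hR _) x.2 y.2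
        (by rintro (h | h); exacts [hx h, hx' h]) (by rintro (h | h); exacts [hy h, hy' h])
    · intro x hx hx' c hc
      have hxJ : ¬ (J1 x.1.1 ∨ J2 x.1.1) := by rintro (h | h); exacts [hx h, hx' h]
      obtain ⟨y, hy, hyk, hyJ, hcy⟩ := H.low _ (hR x.1) x.2 hxJ c hc trivial
      have hyD : y ∉ D := by
        intro h
        refine x.1.2 (hD.1 _ y ?_ h)
        rw [H.le_iff _ y (hR _) hy x.2 hyk hxJ hyJ, hcy]
        exact hc
      exact ⟨⟨⟨y, hyD⟩, hyk⟩, fun h => hyJ (Or.inl h), fun h => hyJ (Or.inr h), hcy⟩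
    · obtain ⟨h3, h4⟩ := hrr2 h
      exact ⟨h3, fun y hy hy' hne => h4 y hy' hy hne⟩
    · intro s hs
      have : s = b - 1 := by omega
      rw [this]
      exact ⟨⟨⟨z, hzD⟩, hzk⟩, fun h => hzJ (Or.inl h), fun h => hzJ (Or.inr h), hzc⟩

/-- shifted shapes with junk below the end of the first row -/
theorem compDataJ_shifted (hgr : GradedBelow P) (hcp : ∀ x y, x ≤ y → x ∉ R → cp x = cp y)
    (h1 : Junk R cp k J1 x1)
    (hx1 : x1 ∉ R ∧ cp x1 = k ∧ ¬ J1 x1)
    (H : CoordJ R cp k J1 (fun c => c.1 ≤ c.2) co)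
    (hr1 : (∃ x, J1 x) → (co x1).1 = 0 ∧
      ∀ y, y ∉ R → cp y = k → ¬ J1 y → y ≠ x1 → (co y).2 < (co x1).2)
    (hB : ∀ x, x ∉ R → cp x = k → (B x ↔ ¬ J1 x ∧ co x = (2 * (i / 2), i)))
    (hcell : ∃ x, x ∉ R ∧ cp x = k ∧ ¬ J1 x ∧ co x = (2 * (i / 2), i))
    (hθ : ∀ x, x ∉ R → cp x = k → ¬ J1 x →
      θ x = ((co x).1 - 2 * (i / 2)) + ((co x).2 - i))
    (hθJ : ∀ x, J1 x → θ x = lev x - i) :
    CompData R cp k i (i / 2 + 1) θ B := by
  have hsimp : (fun x => J1 x ∨ J1 x) = J1 := by funext x; simp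
  refine compDataJ_cells (J1 := J1) (J2 := J1) (x1 := x1) (x2 := x1) (S := fun c => c.1 ≤ c.2)
    (co := co) (α := 2 * (i / 2)) (β := i) hgr hcp h1 h1 (by rw [hsimp]; exact H) ?_ ?_ ?_ ?_ ?_ ?_ ?_
  · intro x hx hk
    rw [or_self]
    exact hB x hx hk
  · intro x hx hk
    rw [or_self]
    exact hθ x hx hk
  · intro x
    rw [or_self]
    exact hθJ x
  · intro x hx hk hJ
    rw [or_self] at hJ
    have := H.mem x hx hk hJ
    omega
  · intro hex
    rw [hθ x1 hx1.1 hx1.2.1 hx1.2.2, H.lev x1 hx1.1 hx1.2.1 hx1.2.2, (hr1 hex).1]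
    omega
  · intro hex
    rw [hθ x1 hx1.1 hx1.2.1 hx1.2.2, H.lev x1 hx1.1 hx1.2.1 hx1.2.2, (hr1 hex).1]
    omega
  · intro D hD hdec
    classical
    have hR : ∀ x : {x : P // x ∉ D}, (x : P) ∉ R := fun x h => x.2 (hD.2.1 h)
    obtain ⟨z, hzD, hzk, hzJ, hzc⟩ := CoordJ.base_not_mem H hB hD hcell
    obtain ⟨w1, hw1, -, hh1, hrr1⟩ := junk_end (J' := J1) h1 ⟨hx1.1, hx1.2.1, hx1.2.2, hx1.2.2⟩ hD
      (f := fun x => (co x).2) (g := fun x => (co x).1)
      (fun h => ⟨(hr1 h).1, fun y hy hyk hJ _ hne => (hr1 h).2 y hy hyk hJ hne⟩)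
      ⟨⟨z, hzD⟩, hzk⟩ hzJ hzJ
    refine shift_junk_dvd (Q := {x : {x : P // x ∉ D} // cp (x : P) = k})
      (fun x => J1 x.1.1) (fun x => co x.1.1) w1 hw1
      (fun x y hxy hy => h1.low _ _ hxy (hR _) hy) hh1 ?_ ?_ ?_ ?_ (fun h => ?_) ?_
    · intro x y hx hy hxy
      exact Subtype.ext (Subtype.ext (H.inj _ _ (hR _) (hR _) x.2 y.2 hx hy hxy))
    · intro x hx
      exact H.mem _ (hR _) x.2 hx
    · intro x y hx hy
      exact H.le_iff _ _ (hR _) (hR _) x.2 y.2 hx hy
    · intro x hx c hc hS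
      obtain ⟨y, hy, hyk, hyJ, hcy⟩ := H.low _ (hR x.1) x.2 hx c hc hS
      have hyD : y ∉ D := by
        intro h
        refine x.1.2 (hD.1 _ y ?_ h)
        rw [H.le_iff _ y (hR _) hy x.2 hyk hx hyJ, hcy]
        exact hc
      exact ⟨⟨⟨y, hyD⟩, hyk⟩, hyJ, hcy⟩
    · obtain ⟨h3, h4⟩ := hrr1 h
      exact ⟨h3, fun y hy hne => h4 y hy hy hne⟩
    · exact ⟨⟨⟨z, hzD⟩, hzk⟩, hzJ, hzc⟩

end Cells

end Pool.Agent.GaussPoset

end

/-! From `Pool.Agent.W_448fw_h5.FwQ` -/

section

/-!
Junk below the straight ends of a chart.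
-/

namespace Pool.Agent.GaussPoset

set_option linter.unusedSectionVars false

open Polynomial Finset

universe u

variable {P : Type u} [Fintype P] [PartialOrder P] [DecidableEq P]

open Classical in
/-- the elements hung below `x1` -/
noncomputable def jset (x1 : P) : Finset P :=
  univ.filter (fun z => z < x1 ∧ ∀ y, z ≤ y → y ≤ x1 ∨ x1 ≤ y)

lemma mem_jset {x1 z : P} : z ∈ jset x1 ↔ z < x1 ∧ ∀ y, z ≤ y → y ≤ x1 ∨ x1 ≤ y := by
  classical
  unfold jset; simp

lemma jset_anc {x1 z y : P} (hz : z ∈ jset x1) (hzy : z ≤ y) : y ∈ jset x1 ∨ x1 ≤ y := by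
  rw [mem_jset] at hz
  rcases hz.2 y hzy with h | h
  · rcases eq_or_lt_of_le h with h' | h'
    · exact Or.inr h'.ge
    · exact Or.inl (mem_jset.mpr ⟨h', fun w hw => hz.2 w (hzy.trans hw)⟩)
  · exact Or.inr h

/-- `x1` is the first element of row 0 beyond row 1 -/
structure IsEnd (S : ℕ × ℕ → Prop) (N : Finset P) (co : P → ℕ × ℕ) (x1 : P) : Prop where
  mem : x1 ∈ N
  fst : (co x1).1 = 0
  lt : ∀ y ∈ N, 1 ≤ (co y).1 → (co y).2 < (co x1).2
  ex : ∀ c < (co x1).2, S (1, c) → ∃ y ∈ N, co y = (1, c)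

open Classical in
/-- the junk below the end of row 0 -/
noncomputable def junk (S : ℕ × ℕ → Prop) (N : Finset P) (co : P → ℕ × ℕ) : Finset P :=
  univ.filter (fun z => ∃ x1, IsEnd S N co x1 ∧ z ∈ jset x1)

lemma mem_junk {S : ℕ × ℕ → Prop} {N : Finset P} {co : P → ℕ × ℕ} {z : P} :
    z ∈ junk S N co ↔ ∃ x1, IsEnd S N co x1 ∧ z ∈ jset x1 := by
  classical
  unfold junk; simp

/-- the transposed coordinates -/
def swp (co : P → ℕ × ℕ) (x : P) : ℕ × ℕ := ((co x).2, (co x).1)

@[simp] lemma swp_fst (co : P → ℕ × ℕ) (x : P) : (swp co x).1 = (co x).2 := rfl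
@[simp] lemma swp_snd (co : P → ℕ × ℕ) (x : P) : (swp co x).2 = (co x).1 := rfl

theorem Chart.swap {t : P} {N : Finset P} {co : P → ℕ × ℕ} (C : Chart t (fun _ => True) N co) :
    Chart t (fun _ => True) N (swp co) where
  up := C.up
  le_t := C.le_t
  inj := by
    intro x hx y hy h
    unfold swp at h
    simp only [Prod.mk.injEq] at h
    exact C.inj x hx y hy (Prod.ext h.2 h.1)
  le_iff := by
    intro x hx y hy
    rw [C.le_iff x hx y hy]
    exact ⟨fun h => ⟨h.2, h.1⟩, fun h => ⟨h.2, h.1⟩⟩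
  mem := fun _ _ => trivial
  low := by
    intro x hx c hc _
    obtain ⟨y, hy, hcy⟩ := C.low x hx (c.2, c.1) ⟨hc.2, hc.1⟩ trivial
    exact ⟨y, hy, by unfold swp; rw [hcy]⟩
  lev := by
    intro x hx
    rw [C.lev x hx]
    exact Nat.add_comm _ _

theorem MaxChart.swap {N : Finset P} {co : P → ℕ × ℕ} (C : MaxChart (fun _ => True) N co) :
    MaxChart (fun _ => True) N (swp co) := by
  intro z hz p _ hfree hex hall huc
  refine C z hz (p.2, p.1) trivial ?_ hex ?_ ?_
  · intro y hy h
    refine hfree y hy ?_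
    unfold swp
    rw [h]
  · intro p' _ hp'
    obtain ⟨y, hy, hcy⟩ := hall (p'.2, p'.1) trivial (by
      rcases hp' with h | h
      · exact Or.inr ⟨h.2, h.1⟩
      · exact Or.inl ⟨h.2, h.1⟩)
    refine ⟨y, hy, ?_⟩
    have h1 := congrArg Prod.fst hcy
    have h2 := congrArg Prod.snd hcy
    simp only [swp_fst, swp_snd] at h1 h2
    exact Prod.ext h2 h1
  · intro y
    rw [huc y]
    refine and_congr_right fun _ => ?_
    unfold Prd swp
    simp only
    constructor
    · rintro (h | h)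
      · exact Or.inr ⟨h.2, h.1⟩
      · exact Or.inl ⟨h.2, h.1⟩
    · rintro (h | h)
      · exact Or.inr ⟨h.2, h.1⟩
      · exact Or.inl ⟨h.2, h.1⟩

section Ends

variable {t : P} {S : ℕ × ℕ → Prop} {N : Finset P} {co : P → ℕ × ℕ}

lemma IsEnd.unique (C : Chart t S N co) (hS1 : ∀ c, 1 ≤ c → S (1, c))
    (h1 : ∃ y ∈ N, 1 ≤ (co y).1) {x1 x1' : P} (H : IsEnd S N co x1) (H' : IsEnd S N co x1') :
    x1 = x1' := by
  obtain ⟨y, hy, hcy⟩ := h1
  have e1 := H.lt y hy hcy
  have e2 := H'.lt y hy hcy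
  have key : ∀ {a b : P}, IsEnd S N co a → IsEnd S N co b → (co b).2 ≤ (co a).2 := by
    intro a b Ha Hb
    by_contra hcon
    have ea := Ha.lt y hy hcy
    obtain ⟨w, hw, hcw⟩ := Hb.ex (co a).2 (not_le.mp hcon) (hS1 _ (by omega))
    have := Ha.lt w hw (by rw [hcw])
    rw [hcw] at this
    simp only at this
    omega
  exact C.inj _ H.mem _ H'.mem (Prod.ext (by rw [H.fst, H'.fst])
    (le_antisymm (key H' H) (key H H')))

/-- natural elements below the end -/
lemma IsEnd.tail (C : Chart t S N co) {x1 x : P} (H : IsEnd S N co x1) (hx : x ∈ N)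
    (hlt : x < x1) : (co x).1 = 0 ∧ x ∈ jset x1 := by
  have h1 := (C.le_iff x hx x1 H.mem).mp hlt.le
  have h2 : (co x1).2 ≤ (co x).2 := h1.2
  have h3 : (co x).1 = 0 := by
    by_contra hcon
    have := H.lt x hx (by omega)
    omega
  refine ⟨h3, mem_jset.mpr ⟨hlt, fun y hxy => ?_⟩⟩
  have hy := C.up x hx y hxy
  have h4 := (C.le_iff x hx y hy).mp hxy
  have h5 : (co y).1 ≤ (co x).1 := h4.1
  rcases le_total (co x1).2 (co y).2 with h6 | h6
  · left
    rw [C.le_iff y hy x1 H.mem]
    exact ⟨by rw [H.fst]; exact Nat.zero_le _, h6⟩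
  · right
    rw [C.le_iff x1 H.mem y hy]
    exact ⟨by rw [H.fst]; omega, h6⟩

/-- existence of the end -/
lemma exists_isEnd (C : Chart t S N co) (hS0 : ∀ c, S (0, c)) {x : P} (hx : x ∈ N)
    (hx0 : (co x).1 = 0) (hS : S (1, (co x).2)) (hno : ∀ y ∈ N, co y ≠ (1, (co x).2)) :
    ∃ x1, IsEnd S N co x1 ∧ x ≤ x1 := by
  classical
  have hex : ∃ c, S (1, c) ∧ ∀ y ∈ N, co y ≠ (1, c) := ⟨(co x).2, hS, hno⟩
  obtain ⟨h1, h2⟩ := Nat.find_spec hex
  have h3 : Nat.find hex ≤ (co x).2 := Nat.find_min' hex ⟨hS, hno⟩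
  obtain ⟨x1, hx1, hcx1⟩ := C.low x hx (0, Nat.find hex) ⟨Nat.zero_le _, h3⟩ (hS0 _)
  refine ⟨x1, ⟨hx1, by rw [hcx1], ?_, ?_⟩, ?_⟩
  · intro y hy hy1
    rw [hcx1]
    by_contra hcon
    obtain ⟨w, hw, hcw⟩ := C.low y hy (1, Nat.find hex) ⟨hy1, not_lt.mp hcon⟩ h1
    exact h2 w hw hcw
  · intro c hc hSc
    rw [hcx1] at hc
    by_contra hcon
    push Not at hcon
    exact Nat.find_min hex hc ⟨hSc, hcon⟩
  · rw [C.le_iff x hx x1 hx1, hcx1]
    exact ⟨Nat.zero_le _, h3⟩

end Ends

/-- natural set of a rectangle-like component -/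
noncomputable def natR (N : Finset P) (co : P → ℕ × ℕ) : Finset P :=
  N ∪ (junk (fun _ => True) N co ∪ junk (fun _ => True) N (swp co))

/-- natural set of a stair-like component -/
noncomputable def natS (N : Finset P) (co : P → ℕ × ℕ) : Finset P :=
  N ∪ junk (fun c => c.1 ≤ c.2) N co

lemma mem_natR {N : Finset P} {co : P → ℕ × ℕ} {x : P} : x ∈ natR N co ↔
    x ∈ N ∨ x ∈ junk (fun _ => True) N co ∨ x ∈ junk (fun _ => True) N (swp co) := by
  unfold natR; simp only [mem_union]

lemma mem_natS {N : Finset P} {co : P → ℕ × ℕ} {x : P} : x ∈ natS N co ↔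
    x ∈ N ∨ x ∈ junk (fun c => c.1 ≤ c.2) N co := by
  unfold natS; simp only [mem_union]

lemma junk_up {S : ℕ × ℕ → Prop} {N : Finset P} {co : P → ℕ × ℕ}
    (hup : ∀ x ∈ N, ∀ y, x ≤ y → y ∈ N) {x y : P} (hx : x ∈ junk S N co) (hxy : x ≤ y) :
    y ∈ N ∨ y ∈ junk S N co := by
  obtain ⟨x1, H, hz⟩ := mem_junk.mp hx
  rcases jset_anc hz hxy with h | h
  · exact Or.inr (mem_junk.mpr ⟨x1, H, h⟩)
  · exact Or.inl (hup x1 H.mem y h)

lemma junk_le {S : ℕ × ℕ → Prop} {N : Finset P} {co : P → ℕ × ℕ} {t : P}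
    (hle : ∀ x ∈ N, x ≤ t) {x : P} (hx : x ∈ junk S N co) : x ≤ t := by
  obtain ⟨x1, H, hz⟩ := mem_junk.mp hx
  exact (mem_jset.mp hz).1.le.trans (hle x1 H.mem)

lemma natR_up {N : Finset P} {co : P → ℕ × ℕ} (hup : ∀ x ∈ N, ∀ y, x ≤ y → y ∈ N) :
    ∀ x ∈ natR N co, ∀ y, x ≤ y → y ∈ natR N co := by
  intro x hx y hxy
  rw [mem_natR] at hx ⊢
  rcases hx with h | h | h
  · exact Or.inl (hup x h y hxy)
  · rcases junk_up hup h hxy with h' | h'
    · exact Or.inl h'
    · exact Or.inr (Or.inl h')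
  · rcases junk_up hup h hxy with h' | h'
    · exact Or.inl h'
    · exact Or.inr (Or.inr h')

lemma natR_le {N : Finset P} {co : P → ℕ × ℕ} {t : P} (hle : ∀ x ∈ N, x ≤ t) :
    ∀ x ∈ natR N co, x ≤ t := by
  intro x hx
  rw [mem_natR] at hx
  rcases hx with h | h | h
  · exact hle x h
  · exact junk_le hle h
  · exact junk_le hle h

lemma natS_up {N : Finset P} {co : P → ℕ × ℕ} (hup : ∀ x ∈ N, ∀ y, x ≤ y → y ∈ N) :
    ∀ x ∈ natS N co, ∀ y, x ≤ y → y ∈ natS N co := by
  intro x hx y hxy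
  rw [mem_natS] at hx ⊢
  rcases hx with h | h
  · exact Or.inl (hup x h y hxy)
  · exact junk_up hup h hxy

lemma natS_le {N : Finset P} {co : P → ℕ × ℕ} {t : P} (hle : ∀ x ∈ N, x ≤ t) :
    ∀ x ∈ natS N co, x ≤ t := by
  intro x hx
  rw [mem_natS] at hx
  rcases hx with h | h
  · exact hle x h
  · exact junk_le hle h

section Data

variable {t : Tops P} {N : Finset P} {co : P → ℕ × ℕ} {i b : ℕ}

/-- thresholds of a rectangle-like component -/
noncomputable def thR (i b : ℕ) (N : Finset P) (co : P → ℕ × ℕ) (x : P) : ℕ := by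
  classical exact
  if x ∈ junk (fun _ => True) N co ∨ x ∈ junk (fun _ => True) N (swp co) then lev x - i
  else ((co x).1 - (b - 1)) + ((co x).2 - i)

/-- thresholds of a stair-like component -/
noncomputable def thS (i : ℕ) (N : Finset P) (co : P → ℕ × ℕ) (x : P) : ℕ := by
  classical exact
  if x ∈ junk (fun c => c.1 ≤ c.2) N co then lev x - i
  else ((co x).1 - 2 * (i / 2)) + ((co x).2 - i)

/-- junk data for the row end -/
lemma junk_data {S : ℕ × ℕ → Prop} (hS1 : ∀ c, 1 ≤ c → S (1, c)) (C : Chart (t : P) S N co)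
    (h1 : ∃ y ∈ N, 1 ≤ (co y).1) {M : Tops P → Finset P} (HM : NatSys M) {J' : P → Prop}
    (hM : ∀ x, x ∈ M t ↔ x ∈ N ∨ x ∈ junk S N co ∨ J' x)
    (hJ' : ∀ x1, IsEnd S N co x1 → ∀ x, J' x → x < x1 → x ∈ junk S N co)
    (hJN : ∀ x, J' x → x ∈ N → 1 ≤ (co x).1) (hJt : ¬ J' (t : P)) :
    ∃ x1 : P, Junk (unnat M) topOf t (fun x => x ∈ junk S N co) x1 ∧
      (x1 ∉ unnat M ∧ topOf x1 = t ∧ x1 ∉ junk S N co ∧ ¬ J' x1) ∧
      ((∃ x, x ∈ junk S N co) → (co x1).1 = 0 ∧ ∀ y, y ∉ unnat M → topOf y = t →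
        y ∉ junk S N co → ¬ J' y → y ≠ x1 → (co y).2 < (co x1).2) := by
  have hmem : ∀ x, x ∉ unnat M → topOf x = t → x ∈ M t := fun x h1 h2 => HM.mem_iff.mpr ⟨h1, h2⟩
  have htM : (t : P) ∈ M t := by
    obtain ⟨y, hy, -⟩ := h1
    rw [hM]
    exact Or.inl (C.up y hy t (C.le_t y hy))
  by_cases hend : ∃ x1, IsEnd S N co x1
  · obtain ⟨x1, H⟩ := hend
    have hju : ∀ x, x ∈ junk S N co ↔ x ∈ jset x1 := by
      intro x
      rw [mem_junk]
      constructor
      · rintro ⟨x1', H', hx⟩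
        rw [IsEnd.unique C hS1 h1 H H']
        exact hx
      · intro hx
        exact ⟨x1, H, hx⟩
    have hx1M : x1 ∈ M t := (hM x1).mpr (Or.inl H.mem)
    have hx1J : x1 ∉ junk S N co := by
      rw [hju, mem_jset]
      exact fun h => lt_irrefl _ h.1
    refine ⟨x1, ⟨?_, ?_, ?_⟩, ⟨(HM.mem_iff.mp hx1M).1, (HM.mem_iff.mp hx1M).2, hx1J, ?_⟩, ?_⟩
    · intro x hx
      have hxM : x ∈ M t := (hM x).mpr (Or.inr (Or.inl hx))
      refine ⟨(HM.mem_iff.mp hxM).1, (HM.mem_iff.mp hxM).2, ?_⟩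
      rw [hju, mem_jset] at hx
      exact hx.1
    · intro x y hxy hx hy
      have hyM : y ∈ M t := (hM y).mpr (Or.inr (Or.inl hy))
      have hxt : topOf x = t := by
        rw [HM.cp x y hxy hx]
        exact HM.topOf_eq hyM
      have hlt : x < x1 := by
        rw [hju, mem_jset] at hy
        exact hxy.trans_lt hy.1
      rcases (hM x).mp (hmem x hx hxt) with h | h | h
      · rw [hju]
        exact (H.tail C h hlt).2
      · exact h
      · exact hJ' x1 H x h hlt
    · intro x y hx hxy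
      rw [hju] at hx
      rcases jset_anc hx hxy with h | h
      · exact Or.inl ((hju y).mpr h)
      · exact Or.inr h
    · intro h
      have := hJN x1 h H.mem
      rw [H.fst] at this
      omega
    · intro _
      refine ⟨H.fst, fun y hy hyt hyJ hyJ' hne => ?_⟩
      have hyN : y ∈ N := by
        rcases (hM y).mp (hmem y hy hyt) with h | h | h
        · exact h
        · exact absurd h hyJ
        · exact absurd h hyJ'
      rcases Nat.eq_zero_or_pos (co y).1 with h0 | h0
      · by_contra hcon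
        have hle : y ≤ x1 := by
          rw [C.le_iff y hyN x1 H.mem]
          exact ⟨by rw [H.fst]; exact Nat.zero_le _, not_lt.mp hcon⟩
        exact hyJ ((hju y).mpr (H.tail C hyN (lt_of_le_of_ne hle hne)).2)
      · exact H.lt y hyN h0
  · have hemp : ∀ x, x ∉ junk S N co := by
      intro x hx
      obtain ⟨x1, H, -⟩ := mem_junk.mp hx
      exact hend ⟨x1, H⟩
    refine ⟨t, ⟨fun x hx => absurd hx (hemp x), fun x y _ _ hy => absurd hy (hemp y),
      fun x y hx => absurd hx (hemp x)⟩, ⟨(HM.mem_iff.mp htM).1, (HM.mem_iff.mp htM).2, hemp _, hJt⟩,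
      fun ⟨x, hx⟩ => absurd hx (hemp x)⟩

end Data

end Pool.Agent.GaussPoset

end

/-! From `Pool.Agent.W_448fw_h5.FwR` -/

section

/-!
Natural sets of rectangle-like and stair-like components.
-/

namespace Pool.Agent.GaussPoset

set_option linter.unusedSectionVars false

open Polynomial Finset

universe u

variable {P : Type u} [Fintype P] [PartialOrder P] [DecidableEq P]

section Rect

variable {t : Tops P} {N : Finset P} {co : P → ℕ × ℕ} {i b : ℕ}

/-- the two junk parts of a rectangle-like component are independent -/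
lemma junk_cross (C : Chart (t : P) (fun _ => True) N co) (h1 : ∃ y ∈ N, 1 ≤ (co y).1)
    (h2 : ∃ y ∈ N, 1 ≤ (co y).2) {x1 x2 x : P} (H1 : IsEnd (fun _ => True) N co x1)
    (H2 : IsEnd (fun _ => True) N (swp co) x2) (hx : x ∈ jset x2) : ¬ x < x1 := by
  intro hlt
  obtain ⟨y, hy, hcy⟩ := h1
  obtain ⟨y', hy', hcy'⟩ := h2
  have e1 := H1.lt y hy hcy
  have e2 := H2.lt y' hy' hcy'
  have e3 := H1.fst
  have e4 := H2.fst
  simp only [swp_fst, swp_snd] at e2 e4
  rcases (mem_jset.mp hx).2 x1 hlt.le with h | h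
  · have := (C.le_iff x1 H1.mem x2 H2.mem).mp h
    have h5 : (co x2).1 ≤ (co x1).1 := this.1
    omega
  · have := (C.le_iff x2 H2.mem x1 H1.mem).mp h
    have h5 : (co x1).2 ≤ (co x2).2 := this.2
    omega

lemma junk_swp_fst (C : Chart (t : P) (fun _ => True) N co) (h2 : ∃ y ∈ N, 1 ≤ (co y).2)
    {x : P} (hx : x ∈ junk (fun _ => True) N (swp co)) (hxN : x ∈ N) :
    1 ≤ (co x).1 ∧ (co x).2 = 0 := by
  obtain ⟨x2, H2, hx⟩ := mem_junk.mp hx
  obtain ⟨y', hy', hcy'⟩ := h2
  have e2 := H2.lt y' hy' hcy'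
  have h3 := H2.tail C.swap hxN (mem_jset.mp hx).1
  have h4 := (C.le_iff x hxN x2 H2.mem).mp (mem_jset.mp hx).1.le
  have h5 : (co x2).1 ≤ (co x).1 := h4.1
  simp only [swp_fst, swp_snd] at e2 h3
  exact ⟨by omega, h3.1⟩

lemma junk_fst (C : Chart (t : P) (fun _ => True) N co) (h1 : ∃ y ∈ N, 1 ≤ (co y).1)
    {x : P} (hx : x ∈ junk (fun _ => True) N co) (hxN : x ∈ N) :
    1 ≤ (co x).2 ∧ (co x).1 = 0 :=
  junk_swp_fst C.swap h1 hx hxN

lemma top_not_junk (C : Chart (t : P) (fun _ => True) N co) :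
    (t : P) ∉ junk (fun _ => True) N (swp co) := by
  intro h
  obtain ⟨x2, H2, hx⟩ := mem_junk.mp h
  exact absurd (C.le_t x2 H2.mem) (not_le_of_gt (mem_jset.mp hx).1)

/-- natural set of a rectangle-like component at window `i` -/
theorem natTop_rect (hgr : GradedBelow P) (C : Chart (t : P) (fun _ => True) N co) (hb : 2 ≤ b)
    (hbi : b ≤ i + 1) (hcell : ∃ x ∈ N, co x = (b - 1, i))
    (hrows : b = i + 1 ∨ ∀ x ∈ N, (co x).1 ≤ b - 1)
    (hlow : ∀ x, x ≤ (t : P) → lev x ≤ i → x ∈ N) :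
    NatTop i t b (natR N co) (thR i b N co) (fun x => x ∈ N ∧ co x = (b - 1, i)) where
  up := natR_up C.up
  le_t := natR_le C.le_t
  low := fun x hx hxi => mem_natR.mpr (Or.inl (hlow x hx hxi))
  data := by
    intro M HM hM θ' B' hθ hB
    obtain ⟨x0, hx0, hcx0⟩ := hcell
    have h1 : ∃ y ∈ N, 1 ≤ (co y).1 := ⟨x0, hx0, by rw [hcx0]; simp only; omega⟩
    have h2 : ∃ y ∈ N, 1 ≤ (co y).2 := ⟨x0, hx0, by rw [hcx0]; simp only; omega⟩
    have hmem : ∀ x, x ∉ unnat M → topOf x = t → x ∈ natR N co := fun x h1 h2 => by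
      rw [← hM]; exact HM.mem_iff.mpr ⟨h1, h2⟩
    have hmem' : ∀ x, x ∈ natR N co → x ∉ unnat M ∧ topOf x = t := fun x h => by
      rw [← hM] at h; exact HM.mem_iff.mp h
    -- the two junk parts
    obtain ⟨x1, J1, hx1, hr1⟩ := junk_data (S := fun _ => True) (fun _ _ => trivial) C h1 HM
      (J' := fun x => x ∈ junk (fun _ => True) N (swp co))
      (fun x => by rw [hM, mem_natR])
      (fun x1 H1 x hx hlt => by
        obtain ⟨x2, H2, hx'⟩ := mem_junk.mp hx
        exact absurd hlt (junk_cross C h1 h2 H1 H2 hx'))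
      (fun x hx hxN => (junk_swp_fst C h2 hx hxN).1) (top_not_junk C)
    obtain ⟨x2, J2, hx2, hr2⟩ := junk_data (S := fun _ => True) (fun _ _ => trivial) C.swap h2 HM
      (J' := fun x => x ∈ junk (fun _ => True) N co)
      (fun x => by rw [hM, mem_natR]; exact or_congr_right or_comm)
      (fun x1 H1 x hx hlt => by
        obtain ⟨x2, H2, hx'⟩ := mem_junk.mp hx
        exact absurd hlt (junk_cross C.swap h2 h1 H1 H2 hx'))
      (fun x hx hxN => (junk_swp_fst C.swap h1 hx hxN).1) (top_not_junk C.swap)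
    have hnJ : ∀ x, x ∉ unnat M → topOf x = t → ¬ (x ∈ junk (fun _ => True) N co ∨
        x ∈ junk (fun _ => True) N (swp co)) → x ∈ N := by
      intro x hx hk hJ
      rcases mem_natR.mp (hmem x hx hk) with h | h | h
      · exact h
      · exact absurd (Or.inl h) hJ
      · exact absurd (Or.inr h) hJ
    have hNM : ∀ x ∈ N, x ∉ unnat M ∧ topOf x = t := fun x hx =>
      hmem' x (mem_natR.mpr (Or.inl hx))
    have hbase : ∀ x ∈ N, co x = (b - 1, i) → ¬ (x ∈ junk (fun _ => True) N co ∨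
        x ∈ junk (fun _ => True) N (swp co)) := by
      rintro x hx hc (h | h)
      · have := (junk_fst C h1 h hx).2
        rw [hc] at this
        simp only at this
        omega
      · have := (junk_swp_fst C h2 h hx).2
        rw [hc] at this
        simp only at this
        omega
    have H : CoordJ (unnat M) topOf t (fun x => x ∈ junk (fun _ => True) N co ∨
        x ∈ junk (fun _ => True) N (swp co)) (fun _ => True) co := by
      constructor
      · intro x y hx hy hkx hky hJx hJy h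
        exact C.inj x (hnJ x hx hkx hJx) y (hnJ y hy hky hJy) h
      · intro x y hx hy hkx hky hJx hJy
        exact C.le_iff x (hnJ x hx hkx hJx) y (hnJ y hy hky hJy)
      · intro _ _ _ _
        trivial
      · intro x hx hk hJx c hc _
        have hxN := hnJ x hx hk hJx
        obtain ⟨y, hy, hcy⟩ := C.low x hxN c hc trivial
        refine ⟨y, (hNM y hy).1, (hNM y hy).2, ?_, hcy⟩
        have hxy : x ≤ y := by
          rw [C.le_iff x hxN y hy, hcy]
          exact hc
        rintro (h | h)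
        · obtain ⟨w, Hw, hyw⟩ := mem_junk.mp h
          exact hJx (Or.inl (mem_junk.mpr ⟨w, Hw, (Hw.tail C hxN
            (hxy.trans_lt (mem_jset.mp hyw).1)).2⟩))
        · obtain ⟨w, Hw, hyw⟩ := mem_junk.mp h
          exact hJx (Or.inr (mem_junk.mpr ⟨w, Hw, (Hw.tail C.swap hxN
            (hxy.trans_lt (mem_jset.mp hyw).1)).2⟩))
      · intro x hx hk hJx
        exact C.lev x (hnJ x hx hk hJx)
    refine compDataJ_straight hgr HM.cp J1 J2 hx1 hx2 H hr1 hr2 (by omega) hbi ?_ ?_ ?_ ?_ ?_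
    · intro x hx hk
      rw [hB x (hmem x hx hk)]
      constructor
      · rintro ⟨h3, h4⟩
        exact ⟨hbase x h3 h4, h4⟩
      · rintro ⟨h3, h4⟩
        exact ⟨hnJ x hx hk h3, h4⟩
    · exact ⟨x0, (hNM x0 hx0).1, (hNM x0 hx0).2, hbase x0 hx0 hcx0, hcx0⟩
    · intro x hx hk hJ
      rw [hθ x (hmem x hx hk)]
      unfold thR
      rw [if_neg hJ]
    · intro x hJ
      rw [hθ x (mem_natR.mpr (Or.inr hJ))]
      unfold thR
      rw [if_pos hJ]
    · rcases hrows with h | h
      · exact Or.inl h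
      · exact Or.inr fun x hx hk hJ => h x (hnJ x hx hk hJ)

end Rect

section Stair

variable {t : Tops P} {N : Finset P} {co : P → ℕ × ℕ} {i : ℕ}

/-- natural set of a stair-like component at window `i` -/
theorem natTop_stair (hgr : GradedBelow P) (C : Chart (t : P) (fun c => c.1 ≤ c.2) N co)
    (hi : 2 ≤ i) (hcell : ∃ x ∈ N, co x = (2 * (i / 2), i))
    (hlow : ∀ x, x ≤ (t : P) → lev x ≤ i → x ∈ N) :
    NatTop i t (i / 2 + 1) (natS N co) (thS i N co)
      (fun x => x ∈ N ∧ co x = (2 * (i / 2), i)) where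
  up := natS_up C.up
  le_t := natS_le C.le_t
  low := fun x hx hxi => mem_natS.mpr (Or.inl (hlow x hx hxi))
  data := by
    intro M HM hM θ' B' hθ hB
    obtain ⟨x0, hx0, hcx0⟩ := hcell
    have h1 : ∃ y ∈ N, 1 ≤ (co y).1 := ⟨x0, hx0, by rw [hcx0]; simp only; omega⟩
    have hmem : ∀ x, x ∉ unnat M → topOf x = t → x ∈ natS N co := fun x h1 h2 => by
      rw [← hM]; exact HM.mem_iff.mpr ⟨h1, h2⟩
    have hmem' : ∀ x, x ∈ natS N co → x ∉ unnat M ∧ topOf x = t := fun x h => by
      rw [← hM] at h; exact HM.mem_iff.mp h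
    obtain ⟨x1, J1, hx1, hr1⟩ := junk_data (S := fun c : ℕ × ℕ => c.1 ≤ c.2) (fun c hc => hc) C h1
      HM (J' := fun _ => False) (fun x => by rw [hM, mem_natS, or_false])
      (fun _ _ _ h => h.elim) (fun _ h => h.elim) (fun h => h)
    have hnJ : ∀ x, x ∉ unnat M → topOf x = t → x ∉ junk (fun c => c.1 ≤ c.2) N co → x ∈ N := by
      intro x hx hk hJ
      rcases mem_natS.mp (hmem x hx hk) with h | h
      · exact h
      · exact absurd h hJ
    have hNM : ∀ x ∈ N, x ∉ unnat M ∧ topOf x = t := fun x hx =>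
      hmem' x (mem_natS.mpr (Or.inl hx))
    have hbase : ∀ x ∈ N, co x = (2 * (i / 2), i) → x ∉ junk (fun c => c.1 ≤ c.2) N co := by
      intro x hx hc h
      obtain ⟨w, Hw, hxw⟩ := mem_junk.mp h
      have := (Hw.tail C hx (mem_jset.mp hxw).1).1
      rw [hc] at this
      simp only at this
      omega
    have H : CoordJ (unnat M) topOf t (fun x => x ∈ junk (fun c => c.1 ≤ c.2) N co)
        (fun c => c.1 ≤ c.2) co := by
      constructor
      · intro x y hx hy hkx hky hJx hJy h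
        exact C.inj x (hnJ x hx hkx hJx) y (hnJ y hy hky hJy) h
      · intro x y hx hy hkx hky hJx hJy
        exact C.le_iff x (hnJ x hx hkx hJx) y (hnJ y hy hky hJy)
      · intro x hx hk hJx
        exact C.mem x (hnJ x hx hk hJx)
      · intro x hx hk hJx c hc hS
        have hxN := hnJ x hx hk hJx
        obtain ⟨y, hy, hcy⟩ := C.low x hxN c hc hS
        refine ⟨y, (hNM y hy).1, (hNM y hy).2, ?_, hcy⟩
        have hxy : x ≤ y := by
          rw [C.le_iff x hxN y hy, hcy]
          exact hc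
        intro h
        obtain ⟨w, Hw, hyw⟩ := mem_junk.mp h
        exact hJx (mem_junk.mpr ⟨w, Hw, (Hw.tail C hxN (hxy.trans_lt (mem_jset.mp hyw).1)).2⟩)
      · intro x hx hk hJx
        exact C.lev x (hnJ x hx hk hJx)
    refine compDataJ_shifted hgr HM.cp J1 ⟨hx1.1, hx1.2.1, hx1.2.2.1⟩ H ?_ ?_ ?_ ?_ ?_
    · intro hex
      obtain ⟨h3, h4⟩ := hr1 hex
      exact ⟨h3, fun y hy hk hJ hne => h4 y hy hk hJ (fun h => h) hne⟩
    · intro x hx hk
      rw [hB x (hmem x hx hk)]
      constructor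
      · rintro ⟨h3, h4⟩
        exact ⟨hbase x h3 h4, h4⟩
      · rintro ⟨h3, h4⟩
        exact ⟨hnJ x hx hk h3, h4⟩
    · exact ⟨x0, (hNM x0 hx0).1, (hNM x0 hx0).2, hbase x0 hx0 hcx0, hcx0⟩
    · intro x hx hk hJ
      rw [hθ x (hmem x hx hk)]
      unfold thS
      rw [if_neg hJ]
    · intro x hJ
      rw [hθ x (mem_natS.mpr (Or.inr hJ))]
      unfold thS
      rw [if_pos hJ]

end Stair

end Pool.Agent.GaussPoset

end

/-! From `Pool.Agent.W_448fw_h5.FwS` -/

section

/-!
Natural sets from the shape of the strip.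
-/

namespace Pool.Agent.GaussPoset

set_option linter.unusedSectionVars false

open Polynomial Finset

universe u

variable {P : Type u} [Fintype P] [PartialOrder P] [DecidableEq P]

open Cp in
/-- the strip read from the other side -/
theorem comp_swap {j : ℕ} {t : P} {lo hi : ℕ → ℕ} {e : ℕ → ℕ → P} (C : Comp j t lo hi e) :
    Comp j t (fun k => k - hi k) (fun k => k - lo k) (fun k s => e k (k - s)) where
  lo_zero := by simp
  hi_zero := by simp
  top := C.top
  lo_step := by
    intro k hk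
    have h1 := C.hi_step k hk
    have h2 := C.hi_le (k := k) (by omega)
    have h3 := C.hi_le (k := k + 1) (by omega)
    show k + 1 - hi (k + 1) = k - hi k ∨ k + 1 - hi (k + 1) = k - hi k + 1
    omega
  hi_step := by
    intro k hk
    have h1 := C.lo_step k hk
    have h2 := C.hi_le (k := k) (by omega)
    have h3 := C.lo_le k (by omega)
    show k + 1 - lo (k + 1) = k - lo k ∨ k + 1 - lo (k + 1) = k - lo k + 1
    omega
  lo_le := by
    intro k hk
    have h3 := C.lo_le k (by omega)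
    show k - hi k ≤ k - lo k
    omega
  lev_e := by
    intro k s hk h1 h2
    have h3 := C.hi_le (k := k) hk
    have h4 := C.lo_le k hk
    have h1' : k - hi k ≤ s := h1
    have h2' : s ≤ k - lo k := h2
    exact C.lev_e k (k - s) hk (by omega) (by omega)
  le_t := by
    intro k s hk h1 h2
    have h3 := C.hi_le (k := k) hk
    have h4 := C.lo_le k hk
    have h1' : k - hi k ≤ s := h1
    have h2' : s ≤ k - lo k := h2
    exact C.le_t k (k - s) hk (by omega) (by omega)
  inj := by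
    intro k s s' hk h1 h2 h3 h4 h5
    have h6 := C.hi_le (k := k) hk
    have h7 := C.lo_le k hk
    have h1' : k - hi k ≤ s := h1
    have h2' : s ≤ k - lo k := h2
    have h3' : k - hi k ≤ s' := h3
    have h4' : s' ≤ k - lo k := h4
    have := C.inj k (k - s) (k - s') hk (by omega) (by omega) (by omega) (by omega) h5
    omega
  surj := by
    intro z hz hzl
    obtain ⟨s, h1, h2, h3⟩ := C.surj z hz hzl
    have h6 := C.hi_le hzl
    refine ⟨lev z - s, ?_, ?_, ?_⟩
    · show lev z - hi (lev z) ≤ lev z - s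
      omega
    · show lev z - s ≤ lev z - lo (lev z)
      omega
    · show e (lev z) (lev z - (lev z - s)) = z
      rw [show lev z - (lev z - s) = s by omega]
      exact h3
  cov := by
    intro k s s' hk h1 h2 h3 h4
    have h6 := C.hi_le (k := k) hk.le
    have h7 := C.lo_le k hk.le
    have h8 := C.hi_le (k := k + 1) hk
    have h9 := C.lo_le (k + 1) hk
    have h1' : k + 1 - hi (k + 1) ≤ s := h1
    have h2' : s ≤ k + 1 - lo (k + 1) := h2
    have h3' : k - hi k ≤ s' := h3
    have h4' : s' ≤ k - lo k := h4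
    have := C.cov k (k + 1 - s) (k - s') hk (by omega) (by omega) (by omega) (by omega)
    show e (k + 1) (k + 1 - s) ⋖ e k (k - s') ↔ s' = s ∨ s' + 1 = s
    rw [this]
    omega

/-- both ends are open for some time and closed afterwards -/
structure RectShape (j : ℕ) (lo hi : ℕ → ℕ) : Prop where
  lo : ∀ k, k < j → lo (k + 1) = 0 ∨ lo (k + 1) = lo k + 1
  hi : ∀ k, k < j → hi (k + 1) = k + 1 ∨ hi (k + 1) = hi k

/-- the fold on the side of `hi`, the other end is open for some time and closed afterwards -/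
structure StairShape (j : ℕ) (lo hi : ℕ → ℕ) : Prop where
  lo : ∀ k, k < j → lo (k + 1) = 0 ∨ lo (k + 1) = lo k + 1
  hi : ∀ k, k ≤ j → hi k = k / 2

section Shapes

open Cp

variable {r j : ℕ} {t : Tops P} {lo hi : ℕ → ℕ} {e : ℕ → ℕ → P}

lemma RectShape.swap (S : RectShape j lo hi) (C : Comp j (t : P) lo hi e) :
    RectShape j (fun k => k - hi k) (fun k => k - lo k) where
  lo := by
    intro k hk
    have h1 := S.hi k hk
    have h2 := C.hi_le (k := k) (by omega)
    show k + 1 - hi (k + 1) = 0 ∨ k + 1 - hi (k + 1) = k - hi k + 1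
    omega
  hi := by
    intro k hk
    have h1 := S.lo k hk
    have h2 := C.hi_le (k := k) (by omega)
    have h3 := C.lo_le k (by omega)
    show k + 1 - lo (k + 1) = k + 1 ∨ k + 1 - lo (k + 1) = k - lo k
    omega

/-- an end which is closed stays closed -/
lemma shape_lo (C : Comp j (t : P) lo hi e)
    (h : ∀ k, k < j → lo (k + 1) = 0 ∨ lo (k + 1) = lo k + 1) {l : ℕ}
    (hl : 1 ≤ lo l) : ∀ d, l + d ≤ j → lo (l + d) = lo l + d := by
  intro d
  induction d with
  | zero => intro _; rfl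
  | succ d ih =>
    intro hd
    have h1 := ih (by omega)
    have h2 := h (l + d) (by omega)
    have h3 := C.lo_step (l + d) (by omega)
    rw [← Nat.add_assoc]
    omega

/-- the same for the other end -/
lemma shape_hi (C : Comp j (t : P) lo hi e)
    (h : ∀ k, k < j → hi (k + 1) = k + 1 ∨ hi (k + 1) = hi k) {l : ℕ}
    (hl : hi l < l) : ∀ d, l + d ≤ j → hi (l + d) = hi l := by
  intro d
  induction d with
  | zero => intro _; rfl
  | succ d ih =>
    intro hd
    have h1 := ih (by omega)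
    have h2 := h (l + d) (by omega)
    have h3 := C.hi_step (l + d) (by omega)
    rw [← Nat.add_assoc]
    omega

/-- the strip of a rectangle-like component is a chart -/
theorem chart_rect (C : Comp j (t : P) lo hi e) (H : Gr P r) (hg : ∀ l, l < j → Win.Good P l)
    (S : RectShape j lo hi) : Chart (t : P) (fun _ => True) (lowPart j t) (ccoord lo hi e) := by
  refine chart_of_comp C H hg t.2 conn_true (fun _ _ _ _ _ => trivial) ?_ ?_
  · intro k s hk h1 h2 h3 _
    have h4 := S.lo k hk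
    have h5 := C.lo_step k hk
    have h6 : lo k ≤ lo (k + 1) := by omega
    omega
  · intro k s hk h1 h2 h3 _
    have h4 := S.hi k hk
    have h5 := C.hi_step k hk
    have h6 := C.hi_le (k := k) hk.le
    omega

/-- the strip of a stair-like component is a chart -/
theorem chart_stair (C : Comp j (t : P) lo hi e) (H : Gr P r) (hg : ∀ l, l < j → Win.Good P l)
    (S : StairShape j lo hi) : Chart (t : P) (fun c => c.1 ≤ c.2) (lowPart j t)
      (ccoord lo hi e) := by
  refine chart_of_comp C H hg t.2 conn_shift ?_ ?_ ?_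
  · intro k s hk h1 h2
    rw [S.hi k hk] at h2
    show s ≤ k - s
    omega
  · intro k s hk h1 h2 h3 _
    have h4 := S.lo k hk
    have h5 := C.lo_step k hk
    have h6 : lo k ≤ lo (k + 1) := by omega
    omega
  · intro k s hk h1 h2 h3 h4
    rw [S.hi k hk.le]
    have h5 : s ≤ k - s := h4
    omega

/-- the element of the strip at a given cell -/
lemma cell_mem (C : Comp j (t : P) lo hi e) {a b : ℕ} (hab : a + b ≤ j) (h1 : lo (a + b) ≤ a)
    (h2 : a ≤ hi (a + b)) : ∃ x ∈ lowPart j (t : P), ccoord lo hi e x = (a, b) := by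
  refine ⟨e (a + b) a, ?_, ?_⟩
  · rw [mem_lowPart]
    exact ⟨C.le_t _ a hab h1 h2, by rw [C.lev_e _ a hab h1 h2]; exact hab⟩
  · unfold ccoord
    rw [scoord_e C hab h1 h2, C.lev_e _ a hab h1 h2]
    exact Prod.ext rfl (by simp only; omega)

lemma cell_of (C : Comp j (t : P) lo hi e) {x : P} (hx : x ∈ lowPart j (t : P)) :
    lo ((ccoord lo hi e x).1 + (ccoord lo hi e x).2) ≤ (ccoord lo hi e x).1 ∧
      (ccoord lo hi e x).1 ≤ hi ((ccoord lo hi e x).1 + (ccoord lo hi e x).2) := by
  rw [mem_lowPart] at hx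
  obtain ⟨h1, h2, -⟩ := scoord_spec C hx.1 hx.2
  have h3 := C.hi_le hx.2
  have h4 : (ccoord lo hi e x).1 + (ccoord lo hi e x).2 = lev x := by
    unfold ccoord
    simp only
    omega
  rw [h4]
  exact ⟨h1, h2⟩

/-- low elements below the top belong to every set containing the strip -/
lemma low_of_strip {N : Finset P} (hN : lowPart j (t : P) ⊆ N) {i : ℕ} (hi : i ≤ j) :
    ∀ x, x ≤ (t : P) → lev x ≤ i → x ∈ N := fun x hx hxi =>
  hN (mem_lowPart.mpr ⟨hx, hxi.trans hi⟩)

/-- data of a rectangle-like natural set -/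
structure RectNat (j i : ℕ) (t : Tops P) (b : ℕ) (N : Finset P) (co : P → ℕ × ℕ) : Prop where
  chart : Chart (t : P) (fun _ => True) N co
  max : MaxChart (fun _ => True) N co
  strip : lowPart j (t : P) ⊆ N
  b_two : 2 ≤ b
  b_le : b ≤ i + 1
  cell : ∃ x ∈ N, co x = (b - 1, i)
  rows : b = i + 1 ∨ ∀ x ∈ N, (co x).1 ≤ b - 1

theorem RectNat.natTop {i b : ℕ} {N : Finset P} {co : P → ℕ × ℕ} (hgr : GradedBelow P)
    (R : RectNat j i t b N co) (hij : i ≤ j) :
    NatTop i t b (natR N co) (thR i b N co) (fun x => x ∈ N ∧ co x = (b - 1, i)) :=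
  natTop_rect hgr R.chart R.b_two R.b_le R.cell R.rows (low_of_strip R.strip hij)

/-- data of a stair-like natural set -/
structure StairNat (j i : ℕ) (t : Tops P) (N : Finset P) (co : P → ℕ × ℕ) : Prop where
  chart : Chart (t : P) (fun c => c.1 ≤ c.2) N co
  max : MaxChart (fun c => c.1 ≤ c.2) N co
  strip : lowPart j (t : P) ⊆ N
  cell : ∃ x ∈ N, co x = (2 * (i / 2), i)

theorem StairNat.natTop {i : ℕ} {N : Finset P} {co : P → ℕ × ℕ} (hgr : GradedBelow P)
    (R : StairNat j i t N co) (hi : 2 ≤ i) (hij : i ≤ j) :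
    NatTop i t (i / 2 + 1) (natS N co) (thS i N co)
      (fun x => x ∈ N ∧ co x = (2 * (i / 2), i)) :=
  natTop_stair hgr R.chart hi R.cell (low_of_strip R.strip hij)

/-- rectangle-like components, the end on the side of `lo` being open at window `i` -/
theorem exists_rect_aux (C : Comp j (t : P) lo hi e) (H : Gr P r)
    (hg : ∀ l, l < j → Win.Good P l) (hgr : GradedBelow P) (S : RectShape j lo hi) {i : ℕ}
    (hij : 2 * i ≤ j) (h0 : lo i = 0) (h2 : 1 ≤ hi i) :
    ∃ N co, RectNat j i t (hi i + 1) N co ∧ ∀ x ∈ lowPart j (t : P), co x = ccoord lo hi e x := by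
  obtain ⟨N, co, C1, hsub, hco, hmax⟩ := (chart_rect C H hg S).exists_max conn_true hgr
  have hii : hi i ≤ i := C.hi_le (by omega)
  have hlo : lo (hi i + i) ≤ hi i := by
    have := C.lo_mono (l := i) (d := hi i) (by omega)
    rw [h0, Nat.add_comm i (hi i)] at this
    omega
  have hhi : hi i ≤ hi (hi i + i) := by
    have := C.hi_mono (l := i) (d := hi i) (by omega)
    rw [Nat.add_comm i (hi i)] at this
    omega
  refine ⟨N, co, ⟨C1, hmax, hsub, by omega, by omega, ?_, ?_⟩, hco⟩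
  · obtain ⟨x, hx, hcx⟩ := cell_mem C (a := hi i) (b := i) (by omega) hlo hhi
    refine ⟨x, hsub hx, ?_⟩
    rw [hco x hx, hcx, Nat.add_sub_cancel]
  · by_cases h3 : hi i = i
    · exact Or.inl (by rw [h3])
    · right
      intro x hx
      by_contra hcon
      obtain ⟨y, hy, hcy⟩ := C1.low x hx (hi i + 1, 0)
        ⟨by simp only; omega, Nat.zero_le _⟩ trivial
      have hly := C1.lev y hy
      rw [hcy] at hly
      simp only at hly
      have hyl : y ∈ lowPart j (t : P) := mem_lowPart.mpr ⟨C1.le_t y hy, by omega⟩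
      have h4 := cell_of C hyl
      rw [← hco y hyl, hcy] at h4
      simp only at h4
      have h5 : hi (hi i + 1) ≤ hi i := by
        have := C.hi_mono (l := hi i + 1) (d := i - (hi i + 1)) (by omega)
        rw [show hi i + 1 + (i - (hi i + 1)) = i by omega] at this
        omega
      rw [Nat.add_zero] at h4
      omega

/-- rectangle-like components have natural sets at all windows `1 ≤ i ≤ j / 2` -/
theorem exists_rect (C : Comp j (t : P) lo hi e) (H : Gr P r) (hg : ∀ l, l < j → Win.Good P l)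
    (hgr : GradedBelow P) (S : RectShape j lo hi) {i : ℕ} (hij : 2 * i ≤ j) (h2 : lo i < hi i) :
    ∃ N co, RectNat j i t (hi i - lo i + 1) N co ∧
      ((∀ x ∈ lowPart j (t : P), co x = ccoord lo hi e x) ∨
        ∀ x ∈ lowPart j (t : P), co x = swp (ccoord lo hi e) x) := by
  have hii : hi i ≤ i := C.hi_le (by omega)
  by_cases h0 : lo i = 0
  · obtain ⟨N, co, h3, h4⟩ := exists_rect_aux C H hg hgr S hij h0 (by omega)
    rw [h0, Nat.sub_zero]
    exact ⟨N, co, h3, Or.inl h4⟩
  · have h3 : hi i = i := by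
      by_contra hcon
      have e1 := shape_lo C S.lo (l := i) (by omega) i (by omega)
      have e2 := shape_hi C S.hi (l := i) (by omega) i (by omega)
      have e3 := C.lo_le (i + i) (by omega)
      omega
    obtain ⟨N, co, h4, h5⟩ := exists_rect_aux (comp_swap C) H hg hgr (S.swap C) hij
      (show i - hi i = 0 by omega) (show 1 ≤ i - lo i by omega)
    refine ⟨N, co, ?_, Or.inr fun x hx => ?_⟩
    · have e1 : hi i - lo i + 1 = i - lo i + 1 := by omega
      rw [e1]
      exact h4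
    · rw [h5 x hx]
      have hx' := mem_lowPart.mp hx
      obtain ⟨e1, e2, e3⟩ := scoord_spec C hx'.1 hx'.2
      have e4 := C.hi_le hx'.2
      have e5 : scoord (fun k => k - hi k) (fun k => k - lo k) (fun k s => e k (k - s)) x =
          lev x - scoord lo hi e x := by
        have h6 := scoord_e (comp_swap C) (k := lev x) (s := lev x - scoord lo hi e x) hx'.2
          (show lev x - hi (lev x) ≤ _ by omega) (show _ ≤ lev x - lo (lev x) by omega)
        have h7 : e (lev x) (lev x - (lev x - scoord lo hi e x)) = x := by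
          rw [show lev x - (lev x - scoord lo hi e x) = scoord lo hi e x by omega]
          exact e3
        rw [h7] at h6
        exact h6
      unfold ccoord swp
      simp only
      rw [e5]
      exact Prod.ext rfl (by simp only; omega)

/-- stair-like components: general form (the strip is natural down to level `j`) -/
theorem exists_stair' (C : Comp j (t : P) lo hi e) (H : Gr P r)
    (hg : ∀ l, l < j → Win.Good P l) (hgr : GradedBelow P) (S : StairShape j lo hi) {i : ℕ}
    (hij : i + 2 * (i / 2) ≤ j) (h0 : lo i = 0) :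
    ∃ N co, StairNat j i t N co ∧ ∀ x ∈ lowPart j (t : P), co x = ccoord lo hi e x := by
  obtain ⟨N, co, C1, hsub, hco, hmax⟩ := (chart_stair C H hg S).exists_max conn_shift hgr
  refine ⟨N, co, ⟨C1, hmax, hsub, ?_⟩, hco⟩
  have h1 := S.hi (2 * (i / 2) + i) (by omega)
  have h2 := C.lo_mono (l := i) (d := 2 * (i / 2)) (by omega)
  rw [h0, Nat.add_comm i _] at h2
  obtain ⟨x, hx, hcx⟩ := cell_mem C (a := 2 * (i / 2)) (b := i) (by omega) (by omega) (by omega)
  exact ⟨x, hsub hx, by rw [hco x hx, hcx]⟩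

/-- stair-like components have natural sets at all windows `i ≤ j / 2` -/
theorem exists_stair (C : Comp j (t : P) lo hi e) (H : Gr P r)
    (hg : ∀ l, l < j → Win.Good P l) (hgr : GradedBelow P) (S : StairShape j lo hi) {i : ℕ}
    (hij : 2 * i ≤ j) :
    ∃ N co, StairNat j i t N co ∧ ∀ x ∈ lowPart j (t : P), co x = ccoord lo hi e x := by
  refine exists_stair' C H hg hgr S (by omega) ?_
  by_contra hcon
  have e1 := shape_lo C S.lo (l := i) (by omega) i (by omega)
  have e2 := S.hi (i + i) (by omega)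
  have e3 := C.lo_le (i + i) (by omega)
  omega

/-- light components -/
theorem exists_light (C : Comp j (t : P) lo hi e) (H : Gr P r) (hg : ∀ l, l < j → Win.Good P l)
    (hgr : GradedBelow P) {i : ℕ} (hij : i ≤ j) :
    NatTop i t 1 (onlyB t) (fun x => lev x - i) (fun _ => False) := by
  refine natTop_light hgr ?_ ⟨e i (lo i), C.le_t i (lo i) hij le_rfl (C.lo_le i hij),
    C.lev_e i (lo i) hij le_rfl (C.lo_le i hij)⟩
  intro x hx hxi
  rw [mem_onlyB]
  intro s hs hxs
  exact top_eq H hg (by omega) hs t.2 hxs hx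

end Shapes

end Pool.Agent.GaussPoset

end

/-! From `Pool.Agent.W_448fw_h5.FwU` -/

section

/-!
Unnatural elements near the straight ends of a maximal chart.
-/

namespace Pool.Agent.GaussPoset

set_option linter.unusedSectionVars false

open Polynomial Finset

universe u

variable {P : Type u} [Fintype P] [PartialOrder P] [DecidableEq P] {r : ℕ}

/-- rows 0 and 1 of the set of allowed cells -/
structure RowS (S : ℕ × ℕ → Prop) : Prop where
  zero : ∀ c, S (0, c)
  one : ∀ c, 1 ≤ c → S (1, c)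

lemma rowS_true : RowS (fun _ => True) := ⟨fun _ => trivial, fun _ _ => trivial⟩

lemma rowS_shift : RowS (fun c => c.1 ≤ c.2) := ⟨fun c => Nat.zero_le c, fun _ h => h⟩

section Row

variable {t : P} {S : ℕ × ℕ → Prop} {N : Finset P} {co : P → ℕ × ℕ}

/-- everything above `z` is `z` or above its only cover -/
lemma anc_of_only {z x y : P} (honly : ∀ y, z ⋖ y → y = x) (hzy : z < y) : x ≤ y := by
  obtain ⟨v, hv, hvy⟩ := Hul.exists_cov hzy
  rw [← honly v hv]
  exact hvy

/-- no pendant below row 0 outside the chart and the junk -/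
theorem row0_pendant (hS : RowS S) (C : Chart t S N co) (Mx : MaxChart S N co) (H : Gr P r)
    {z x : P} (hzN : z ∉ N) (hzJ : z ∉ junk S N co) (hx : x ∈ N) (hzx : z ⋖ x)
    (honly : ∀ y, z ⋖ y → y = x) (h0 : (co x).1 = 0) (h1 : S (1, (co x).2)) : False := by
  by_cases hw : ∃ w ∈ N, co w = (1, (co x).2)
  · obtain ⟨w, hw, hcw⟩ := hw
    by_cases hy : ∃ y ∈ N, co y = (0, (co x).2 + 1)
    · obtain ⟨y, hy, hcy⟩ := hy
      have e1 : w ⋖ x := by
        rw [chart_cov C H hw hx, hcw]
        exact Or.inl ⟨by simp only; omega, rfl⟩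
      have e2 : y ⋖ x := by
        rw [chart_cov C H hy hx, hcy]
        exact Or.inr ⟨by simp only; omega, rfl⟩
      refine Win.dc_three H hzx e1 e2 (fun h => hzN (h ▸ hw)) (fun h => hzN (h ▸ hy)) ?_
      rintro rfl
      rw [hcw] at hcy
      simp at hcy
    · push Not at hy
      refine Mx z hzN (0, (co x).2 + 1) (hS.zero _) hy ⟨x, hzx⟩ ?_ ?_
      · intro p' _ hp'
        refine ⟨x, hx, ?_⟩
        rcases hp' with h | h
        · exfalso
          have := h.1
          simp only at this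
          omega
        · have e1 := h.1
          have e2 := h.2
          simp only at e1 e2
          exact Prod.ext (by omega) (by omega)
      · intro y
        constructor
        · intro h
          rw [honly y h]
          exact ⟨hx, Or.inr ⟨by simp only; omega, rfl⟩⟩
        · rintro ⟨hy1, hy2⟩
          have : y = x := by
            refine C.inj y hy1 x hx ?_
            rcases hy2 with h | h
            · exfalso
              have := h.1
              simp only at this
              omega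
            · have e1 := h.1
              have e2 := h.2
              simp only at e1 e2
              exact Prod.ext (by omega) (by omega)
          rw [this]
          exact hzx
  · push Not at hw
    obtain ⟨x1, H1, hxx1⟩ := exists_isEnd C hS.zero hx h0 h1 hw
    refine hzJ (mem_junk.mpr ⟨x1, H1, mem_jset.mpr ⟨hzx.1.trans_le hxx1, fun y hy => ?_⟩⟩)
    rcases eq_or_lt_of_le hy with h | h
    · left
      rw [← h]
      exact (hzx.1.trans_le hxx1).le
    · have h2 := anc_of_only honly h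
      rcases eq_or_lt_of_le hxx1 with h3 | h3
      · right
        rw [← h3]
        exact h2
      · exact (mem_jset.mp (H1.tail C hx h3).2).2 y h2

/-- no element is hung below row 0 outside the chart and the junk -/
theorem hung_row0 (hS : RowS S) (C : Chart t S N co) (Mx : MaxChart S N co) (H : Gr P r)
    {z : P} (hzN : z ∉ N) (hzJ : z ∉ junk S N co) : ∀ (d : ℕ) (y : P), y ∈ N → lev z = lev y + d →
    (co y).1 = 0 → 1 ≤ (co y).2 → S (1, (co y).2 - 1) → z < y →
    (∀ w, z ≤ w → w ≤ y ∨ y ≤ w) → False := by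
  intro d
  induction d with
  | zero =>
    intro y _ hd _ _ _ hzy _
    have := lev_strictAnti hzy
    omega
  | succ d ih =>
    intro y hy hd h0 h1 h2 hzy hung
    by_cases hw : ∃ w ∈ N, co w = (1, (co y).2)
    · obtain ⟨w, hw, hcw⟩ := hw
      have hwy : w ⋖ y := by
        rw [chart_cov C H hw hy, hcw]
        exact Or.inl ⟨by simp only; omega, rfl⟩
      -- `z` is not below `w`
      have hzw : ¬ z ≤ w := by
        intro hzw
        obtain ⟨u, hu, hcu⟩ := C.low w hw (1, (co y).2 - 1) (by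
          rw [hcw]
          exact ⟨le_rfl, Nat.sub_le _ _⟩) h2
        have hwu : w ≤ u := by
          rw [C.le_iff w hw u hu, hcw, hcu]
          exact ⟨le_rfl, Nat.sub_le _ _⟩
        have hlu := C.lev u hu
        have hly := C.lev y hy
        rw [hcu] at hlu
        simp only at hlu
        have hne : u ≠ y := by
          rintro rfl
          rw [hcu] at h0
          simp at h0
        rcases hung u (hzw.trans hwu) with h | h
        · have := lev_strictAnti (lt_of_le_of_ne h hne)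
          omega
        · have := lev_strictAnti (lt_of_le_of_ne h (Ne.symm hne))
          omega
      have hcov : ∀ v, z ≤ v → v ⋖ y → v ≠ w := fun v hv _ h => hzw (h ▸ hv)
      have hbelow : ∀ w', z ≤ w' → w' < y → ∃ v, w' ≤ v ∧ v ⋖ y := by
        intro w' _ hw'
        obtain ⟨v, hv1, hv2, hv3⟩ := H.gradedBelow w' y hw'
        exact ⟨v, hv1, H.covBy_iff.mpr ⟨hv2, hv3⟩⟩
      by_cases h4 : ∃ y' ∈ N, co y' = (0, (co y).2 + 1)
      · obtain ⟨y', hy', hcy'⟩ := h4
        have hy'y : y' ⋖ y := by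
          rw [chart_cov C H hy' hy, hcy']
          exact Or.inr ⟨by simp only; omega, rfl⟩
        have hne : y' ≠ w := by
          rintro rfl
          rw [hcw] at hcy'
          simp at hcy'
        have huni : ∀ v, z ≤ v → v ⋖ y → v = y' := by
          intro v hv hvy
          by_contra hcon
          exact Win.dc_three H hvy hwy hy'y (hcov v hv hvy) hcon (Ne.symm hne)
        obtain ⟨v, hv1, hv2⟩ := hbelow z le_rfl hzy
        have hzy' : z ≤ y' := by
          rw [← huni v hv1 hv2]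
          exact hv1
        have hne2 : z ≠ y' := fun h => hzN (h ▸ hy')
        have hl := C.lev y hy
        have hl' := C.lev y' hy'
        rw [hcy'] at hl'
        simp only at hl'
        refine ih y' hy' (by omega) (by rw [hcy']) (by rw [hcy']; simp) (by
          rw [hcy']
          simp only [Nat.add_sub_cancel]
          exact hS.one _ h1) (lt_of_le_of_ne hzy' hne2) ?_
        intro w' hw'
        rcases hung w' hw' with h | h
        · rcases eq_or_lt_of_le h with h5 | h5
          · right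
            rw [h5]
            exact hy'y.1.le
          · left
            obtain ⟨v', hv1', hv2'⟩ := hbelow w' hw' h5
            rw [← huni v' (hw'.trans hv1') hv2']
            exact hv1'
        · right
          exact hy'y.1.le.trans h
      · -- a pendant below `y` outside the chart
        obtain ⟨v, hv1, hv2⟩ := hbelow z le_rfl hzy
        have hvN : v ∉ N := by
          intro hvN
          have h5 := (chart_cov C H hvN hy).mp hv2
          rcases h5 with h5 | h5
          · refine hcov v hv1 hv2 (C.inj v hvN w hw ?_)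
            rw [hcw]
            exact Prod.ext (by simp only; omega) h5.2
          · exact h4 ⟨v, hvN, Prod.ext (by simp only; omega) (by simp only; omega)⟩
        have hvJ : v ∉ junk S N co := by
          intro hvJ
          obtain ⟨x1, H1, hv⟩ := mem_junk.mp hvJ
          have h6 := H1.lt w hw (by rw [hcw])
          rw [hcw] at h6
          simp only at h6
          rcases jset_anc hv hv2.1.le with h5 | h5
          · have h7 := (C.le_iff y hy x1 H1.mem).mp (mem_jset.mp h5).1.le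
            have h8 : (co x1).2 ≤ (co y).2 := h7.2
            omega
          · have h7 : x1 = y := by
              rcases eq_or_lt_of_le h5 with h7 | h7
              · exact h7
              · exact absurd h7 (hv2.2 (mem_jset.mp hv).1)
            rw [h7] at h6
            omega
        refine row0_pendant hS C Mx H hvN hvJ hy hv2 ?_ h0 (hS.one _ h1)
        intro y'' hy''
        have hl := (H.covBy_iff.mp hy'').2
        have hl2 := (H.covBy_iff.mp hv2).2
        by_contra hne
        rcases hung y'' (hv1.trans hy''.1.le) with h | h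
        · have := lev_strictAnti (lt_of_le_of_ne h hne)
          omega
        · have := lev_strictAnti (lt_of_le_of_ne h (Ne.symm hne))
          omega
    · push Not at hw
      obtain ⟨x1, H1, hyx1⟩ := exists_isEnd C hS.zero hy h0 (hS.one _ h1) hw
      refine hzJ (mem_junk.mpr ⟨x1, H1, mem_jset.mpr ⟨hzy.trans_le hyx1, fun v hv => ?_⟩⟩)
      rcases hung v hv with h | h
      · exact Or.inl (h.trans hyx1)
      · rcases eq_or_lt_of_le hyx1 with h3 | h3
        · right
          rw [← h3]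
          exact h
        · exact (mem_jset.mp (H1.tail C hy h3).2).2 v h

/-- if only one element of level `k` is above `z`, then `z` is hung below it -/
lemma hung_of_nab (H : Gr P r) {z y : P} {k : ℕ} (hk : lev y = k) (hzy : z ≤ y)
    (h1 : nab k z ≤ 1) : ∀ w, z ≤ w → w ≤ y ∨ y ≤ w := by
  have huni : ∀ w, z ≤ w → lev w = k → w = y := by
    intro w hw hl
    by_contra hne
    have := two_le_nab hw hzy hl hk hne
    omega
  have hly : k ≤ lev z := by
    rcases eq_or_lt_of_le hzy with h | h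
    · rw [h, hk]
    · have := lev_strictAnti h
      omega
  intro w hw
  rcases Nat.lt_or_ge (lev w) k with h | h
  · obtain ⟨w', h2, h3, h4⟩ := exists_between H.gradedBelow hw (l := k) h.le hly
    right
    rw [← huni w' h2 h4]
    exact h3
  · obtain ⟨w', h2, h3⟩ := exists_above' (x := w) h
    left
    rw [← huni w' (hw.trans h2) h3]
    exact h2

/-- an unnatural element below row 0 or below the junk has two elements above it on every level -/
theorem two_le_nab_row0 (hS : RowS S) (C : Chart t S N co) (Mx : MaxChart S N co) (H : Gr P r)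
    {z x : P} (hzN : z ∉ N) (hzJ : z ∉ junk S N co) (hzx : z ≤ x)
    (hx : x ∈ junk S N co ∨ (x ∈ N ∧ (co x).1 = 0)) {k : ℕ} (hk : 1 ≤ k) (hk1 : S (1, k - 1))
    (hkx : k ≤ lev x) : 2 ≤ nab k z := by
  by_contra hcon
  obtain ⟨y, hxy, hly⟩ := exists_above' (x := x) hkx
  have hung := hung_of_nab H hly (hzx.trans hxy) (by omega)
  have key : y ∈ N → (co y).1 = 0 → False := by
    intro hy h0
    have hl := C.lev y hy
    have hzy : z < y := lt_of_le_of_ne (hzx.trans hxy) (fun h => hzN (h ▸ hy))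
    have h2 := lev_strictAnti hzy
    have h3 : (co y).2 = k := by omega
    exact hung_row0 hS C Mx H hzN hzJ (lev z - lev y) y hy (by omega) h0 (by omega)
      (by rw [h3]; exact hk1) hzy hung
  rcases hx with hx | ⟨hx, h0⟩
  · obtain ⟨x1, H1, hxj⟩ := mem_junk.mp hx
    rcases jset_anc hxj hxy with h | h
    · refine hzJ (mem_junk.mpr ⟨x1, H1, mem_jset.mpr
        ⟨(hzx.trans hxy).trans_lt (mem_jset.mp h).1, fun w hw => ?_⟩⟩)
      rcases hung w hw with h' | h'
      · exact Or.inl (h'.trans (mem_jset.mp h).1.le)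
      · exact (mem_jset.mp h).2 w h'
    · have hy := C.up x1 H1.mem y h
      have h2 := (C.le_iff x1 H1.mem y hy).mp h
      have h3 : (co y).1 ≤ (co x1).1 := h2.1
      rw [H1.fst] at h3
      exact key hy (by omega)
  · have hy := C.up x hx y hxy
    have h2 := (C.le_iff x hx y hy).mp hxy
    have h3 : (co y).1 ≤ (co x).1 := h2.1
    exact key hy (by omega)

end Row

section Types

variable {j i b : ℕ} {t : Tops P} {N : Tops P → Finset P} {Nc : Finset P} {co : P → ℕ × ℕ}

/-- a light component has no private unnatural elements -/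
lemma light_private (HN : NatSys N) (hNt : N t = onlyB t) {z : P} (hz : z ∈ unnat N) :
    ∃ s : P, lev s = 0 ∧ s ≠ t ∧ (z ≤ s ∨ ¬ z ≤ (t : P)) := by
  have h1 : z ∉ onlyB t := by
    rw [← hNt]
    exact mem_unnat.mp hz t
  rw [mem_onlyB] at h1
  push Not at h1
  obtain ⟨s, hs, hzs, hne⟩ := h1
  exact ⟨s, hs, hne, Or.inl hzs⟩

/-- pendants of a rectangle-like component are below interior cells -/
theorem rect_pendant (H : Gr P r) (R : RectNat j i t b Nc co) (hNt : N t = natR Nc co)
    {z x : P} (hz : z ∈ unnat N) (hx : x ∈ N t) (hzx : z ⋖ x) (honly : ∀ y, z ⋖ y → y = x) :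
    x ∈ Nc ∧ x ∉ junk (fun _ => True) Nc co ∧ x ∉ junk (fun _ => True) Nc (swp co) ∧
      1 ≤ (co x).1 ∧ 1 ≤ (co x).2 := by
  have hzM : z ∉ natR Nc co := by
    rw [← hNt]
    exact mem_unnat.mp hz t
  rw [mem_natR] at hzM
  push Not at hzM
  obtain ⟨hzN, hzJ1, hzJ2⟩ := hzM
  have hj : ∀ co' : P → ℕ × ℕ, z ∉ junk (fun _ => True) Nc co' →
      x ∉ junk (fun _ => True) Nc co' := by
    intro co' hzJ hxJ
    obtain ⟨x1, H1, hxj⟩ := mem_junk.mp hxJ
    refine hzJ (mem_junk.mpr ⟨x1, H1, mem_jset.mpr ⟨hzx.1.trans (mem_jset.mp hxj).1,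
      fun y hy => ?_⟩⟩)
    rcases eq_or_lt_of_le hy with h | h
    · left
      rw [← h]
      exact (hzx.1.trans (mem_jset.mp hxj).1).le
    · exact (mem_jset.mp hxj).2 y (anc_of_only honly h)
  have hxN : x ∈ Nc := by
    rw [hNt, mem_natR] at hx
    rcases hx with h | h | h
    · exact h
    · exact absurd h (hj _ hzJ1)
    · exact absurd h (hj _ hzJ2)
  refine ⟨hxN, hj _ hzJ1, hj _ hzJ2, ?_, ?_⟩
  · by_contra hcon
    exact row0_pendant rowS_true R.chart R.max H hzN hzJ1 hxN hzx honly (by omega) trivial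
  · by_contra hcon
    exact row0_pendant rowS_true R.chart.swap R.max.swap H hzN hzJ2 hxN hzx honly
      (by simp only [swp_fst]; omega) trivial

/-- pendants of a stair-like component are not below row 0 -/
theorem stair_pendant (H : Gr P r) (R : StairNat j i t Nc co) (hj1 : 1 ≤ j)
    (hNt : N t = natS Nc co) {z x : P} (hz : z ∈ unnat N) (hx : x ∈ N t) (hzx : z ⋖ x)
    (honly : ∀ y, z ⋖ y → y = x) :
    x ∈ Nc ∧ x ∉ junk (fun c => c.1 ≤ c.2) Nc co ∧ 1 ≤ (co x).1 := by
  have hzM : z ∉ natS Nc co := by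
    rw [← hNt]
    exact mem_unnat.mp hz t
  rw [mem_natS] at hzM
  push Not at hzM
  obtain ⟨hzN, hzJ1⟩ := hzM
  have hj : x ∉ junk (fun c => c.1 ≤ c.2) Nc co := by
    intro hxJ
    obtain ⟨x1, H1, hxj⟩ := mem_junk.mp hxJ
    refine hzJ1 (mem_junk.mpr ⟨x1, H1, mem_jset.mpr ⟨hzx.1.trans (mem_jset.mp hxj).1,
      fun y hy => ?_⟩⟩)
    rcases eq_or_lt_of_le hy with h | h
    · left
      rw [← h]
      exact (hzx.1.trans (mem_jset.mp hxj).1).le
    · exact (mem_jset.mp hxj).2 y (anc_of_only honly h)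
  have hxN : x ∈ Nc := by
    rw [hNt, mem_natS] at hx
    rcases hx with h | h
    · exact h
    · exact absurd h hj
  refine ⟨hxN, hj, ?_⟩
  by_contra hcon
  have h0 : (co x).1 = 0 := by omega
  rcases Nat.eq_zero_or_pos (co x).2 with h1 | h1
  · have hl := R.chart.lev x hxN
    have hlz := (H.covBy_iff.mp hzx).2
    exact hzN (R.strip (mem_lowPart.mpr ⟨hzx.1.le.trans (R.chart.le_t x hxN), by omega⟩))
  · exact row0_pendant rowS_shift R.chart R.max H hzN hzJ1 hxN hzx honly h0 h1

/-- two elements on every level above an unnatural element below a straight natural element -/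
theorem rect_two_le_nab (H : Gr P r) (R : RectNat j i t b Nc co) (hNt : N t = natR Nc co)
    {z x : P} (hz : z ∈ unnat N) (hzx : z ≤ x)
    (hx : x ∈ junk (fun _ => True) Nc co ∨ x ∈ junk (fun _ => True) Nc (swp co) ∨
      (x ∈ Nc ∧ ((co x).1 = 0 ∨ (co x).2 = 0))) {k : ℕ} (hk : 1 ≤ k) (hkx : k ≤ lev x) :
    2 ≤ nab k z := by
  have hzM : z ∉ natR Nc co := by
    rw [← hNt]
    exact mem_unnat.mp hz t
  rw [mem_natR] at hzM
  push Not at hzM
  obtain ⟨hzN, hzJ1, hzJ2⟩ := hzM
  rcases hx with h | h | ⟨h, h' | h'⟩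
  · exact two_le_nab_row0 rowS_true R.chart R.max H hzN hzJ1 hzx (Or.inl h) hk trivial hkx
  · exact two_le_nab_row0 rowS_true R.chart.swap R.max.swap H hzN hzJ2 hzx (Or.inl h) hk trivial
      hkx
  · exact two_le_nab_row0 rowS_true R.chart R.max H hzN hzJ1 hzx (Or.inr ⟨h, h'⟩) hk trivial hkx
  · exact two_le_nab_row0 rowS_true R.chart.swap R.max.swap H hzN hzJ2 hzx (Or.inr ⟨h, h'⟩) hk
      trivial hkx

theorem stair_two_le_nab (H : Gr P r) (R : StairNat j i t Nc co) (hNt : N t = natS Nc co)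
    {z x : P} (hz : z ∈ unnat N) (hzx : z ≤ x)
    (hx : x ∈ junk (fun c => c.1 ≤ c.2) Nc co ∨ (x ∈ Nc ∧ (co x).1 = 0)) {k : ℕ} (hk : 2 ≤ k)
    (hkx : k ≤ lev x) : 2 ≤ nab k z := by
  have hzM : z ∉ natS Nc co := by
    rw [← hNt]
    exact mem_unnat.mp hz t
  rw [mem_natS] at hzM
  push Not at hzM
  exact two_le_nab_row0 rowS_shift R.chart R.max H hzM.1 hzM.2 hzx hx (by omega)
    (show 1 ≤ k - 1 by omega) hkx

end Types

end Pool.Agent.GaussPoset

end

/-! From `Pool.Agent.W_448fw_h5.FwV` -/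

section

/-!
The far window system of a poset whose strips are rectangle-like, stair-like or light.
-/

namespace Pool.Agent.GaussPoset

set_option linter.unusedSectionVars false

open Polynomial Finset

universe u

variable {P : Type u} [Fintype P] [PartialOrder P] [DecidableEq P] {r j : ℕ}

/-- the type of the natural set of a top at window `i` (strip natural down to level `j`) -/
inductive TopType (j i : ℕ) (t : Tops P) (b : ℕ) (N : Finset P) (θ : P → ℕ) : Prop
  | light (h1 : N = onlyB t) (h2 : θ = fun x => lev x - i) (h3 : b = 1) (h4 : i ≤ j)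
      (h5 : ∀ x, x ≤ (t : P) → lev x ≤ j → x ∈ onlyB t) (h6 : ∃ x ≤ (t : P), lev x = i)
  | rect (Nc : Finset P) (co : P → ℕ × ℕ) (h0 : RectNat j i t b Nc co) (h1 : N = natR Nc co)
      (h2 : θ = thR i b Nc co) (h4 : i ≤ j)
  | stair (Nc : Finset P) (co : P → ℕ × ℕ) (h0 : StairNat j i t Nc co) (h1 : N = natS Nc co)
      (h2 : θ = thS i Nc co) (h3 : b = i / 2 + 1) (h4 : i ≤ j) (h5 : 2 ≤ i)

theorem TopType.natTop {i b : ℕ} {t : Tops P} {N : Finset P} {θ : P → ℕ}
    (hgr : GradedBelow P) (T : TopType j i t b N θ) : ∃ B, NatTop i t b N θ B := by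
  rcases T with ⟨h1, h2, h3, h4, h5, h6⟩ | ⟨Nc, co, h0, h1, h2, h4⟩ | ⟨Nc, co, h0, h1, h2, h3, h4, h5⟩
  · subst h1 h2 h3
    exact ⟨_, natTop_light hgr (fun x hx hxi => h5 x hx (hxi.trans h4)) h6⟩
  · subst h1 h2
    exact ⟨_, h0.natTop hgr h4⟩
  · subst h1 h2 h3
    exact ⟨_, h0.natTop hgr h5 h4⟩

/-- the far window system -/
theorem farData_of_types (hgr : GradedBelow P) {i : ℕ} {jt b : Tops P → ℕ}
    {N : Tops P → Finset P} {θ : Tops P → P → ℕ}
    (T : ∀ t, TopType (jt t) i t (b t) (N t) (θ t)) :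
    NatSys N ∧ FarData P i (unnat N) (∑ t, b t) (hcan (unnat N) (fun x => θ (topOf x) x)) := by
  choose B hB using fun t => (T t).natTop hgr
  exact ⟨natSys_of_tops hB, farData_of_tops hgr hB⟩

section Count

open Cp

variable {lo hi : Tops P → ℕ → ℕ} {e : Tops P → ℕ → ℕ → P}

/-- number of elements of a level -/
theorem card_level (H : Gr P r) (hg : ∀ l, l < j → Win.Good P l)
    (C : ∀ t : Tops P, Comp j (t : P) (lo t) (hi t) (e t)) {i : ℕ} (hi' : i ≤ j) :
    (lv P i).card = ∑ t, (hi t i - lo t i + 1) := by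
  classical
  rw [Finset.card_eq_sum_card_fiberwise (f := topOf) (t := univ) (fun _ _ => Finset.mem_coe.mpr
    (mem_univ _))]
  refine Finset.sum_congr rfl fun t _ => ?_
  have h1 : (lv P i).filter (fun x => topOf x = t) = (Icc (lo t i) (hi t i)).image (e t i) := by
    ext x
    rw [mem_filter, mem_lv, mem_image]
    constructor
    · rintro ⟨h1, h2⟩
      have hxt : x ≤ (t : P) := by rw [← h2]; exact le_topOf x
      obtain ⟨s, h3, h4, h5⟩ := (C t).surj x hxt (by omega)
      rw [h1] at h3 h4 h5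
      exact ⟨s, mem_Icc.mpr ⟨h3, h4⟩, h5⟩
    · rintro ⟨s, hs, rfl⟩
      rw [mem_Icc] at hs
      have hl := (C t).lev_e i s hi' hs.1 hs.2
      refine ⟨hl, ?_⟩
      exact Subtype.ext (top_eq H hg (by omega) (topOf _).2 t.2 (le_topOf _)
        ((C t).le_t i s hi' hs.1 hs.2))
  have h2 := (C t).lo_le i hi'
  rw [h1, Finset.card_image_of_injOn, Nat.card_Icc]
  · omega
  · intro s hs s' hs' h
    have hs1 := mem_Icc.mp (Finset.mem_coe.mp hs)
    have hs2 := mem_Icc.mp (Finset.mem_coe.mp hs')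
    exact (C t).inj i s s' hi' hs1.1 hs1.2 hs2.1 hs2.2 h

/-- the type of a light strip -/
theorem type_light (H : Gr P r) (hg : ∀ l, l < j → Win.Good P l) {t : Tops P} {lo hi : ℕ → ℕ}
    {e : ℕ → ℕ → P} (C : Comp j (t : P) lo hi e) {i : ℕ} (hij : i ≤ j) :
    TopType j i t 1 (onlyB t) (fun x => lev x - i) := by
  refine TopType.light rfl rfl rfl hij ?_ ⟨e i (lo i), C.le_t i (lo i) hij le_rfl (C.lo_le i hij),
    C.lev_e i (lo i) hij le_rfl (C.lo_le i hij)⟩
  intro x hx hxi
  rw [mem_onlyB]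
  intro s hs hxs
  exact top_eq H hg hxi hs t.2 hxs hx

/-- every strip which is light at level `i` or has a natural shape has a type -/
theorem exists_type (H : Gr P r) (hg : ∀ l, l < j → Win.Good P l) {t : Tops P} {lo hi : ℕ → ℕ}
    {e : ℕ → ℕ → P} (C : Comp j (t : P) lo hi e) {i : ℕ} (hij : 2 * i ≤ j)
    (hT : lo i = hi i ∨ RectShape j lo hi ∨ StairShape j lo hi ∨
      StairShape j (fun k => k - hi k) (fun k => k - lo k)) :
    ∃ N θ, TopType j i t (hi i - lo i + 1) N θ := by
  have hlo := C.lo_le i (by omega)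
  by_cases hl : lo i = hi i
  · rw [hl, Nat.sub_self]
    exact ⟨_, _, type_light H hg C (by omega)⟩
  · have hlt : lo i < hi i := by omega
    have hii : hi i ≤ i := C.hi_le (by omega)
    rcases hT with h | h | h | h
    · exact absurd h hl
    · obtain ⟨N, co, h1, -⟩ := exists_rect C H hg H.gradedBelow h hij hlt
      exact ⟨_, _, TopType.rect N co h1 rfl rfl (by omega)⟩
    · have h2 := h.hi i (by omega)
      have h0 : lo i = 0 := by
        by_contra hcon
        have e1 := shape_lo C h.lo (l := i) (by omega) i (by omega)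
        have e2 := h.hi (i + i) (by omega)
        have e3 := C.lo_le (i + i) (by omega)
        omega
      obtain ⟨N, co, h1, -⟩ := exists_stair C H hg H.gradedBelow h hij
      exact ⟨_, _, TopType.stair N co h1 rfl rfl (by rw [h0, h2]; omega) (by omega) (by omega)⟩
    · have C' := comp_swap C
      have h2 : i - lo i = i / 2 := h.hi i (by omega)
      have h0 : i - hi i = 0 := by
        by_contra hcon
        have e1 := shape_lo C' h.lo (l := i) (by show 1 ≤ i - hi i; omega) i (by omega)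
        have e2 := h.hi (i + i) (by omega)
        have e3 := C'.lo_le (i + i) (by omega)
        omega
      obtain ⟨N, co, h1, -⟩ := exists_stair C' H hg H.gradedBelow h hij
      exact ⟨_, _, TopType.stair N co h1 rfl rfl (by omega) (by omega) (by omega)⟩

end Count

end Pool.Agent.GaussPoset

end

/-! From `Pool.Agent.W_448s7_h5.SevK` -/

section

/-!
# The sides of a chart: straight cells and junk (MP_448cb3_co, S7)
-/

namespace Pool.Agent.GaussPoset

set_option linter.unusedSectionVars false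

open Polynomial Finset

universe u

variable {P : Type u} [Fintype P] [PartialOrder P] [DecidableEq P] {r j : ℕ}

/-- straight cells and straight junk -/
def Side (S : ℕ × ℕ → Prop) (N : Finset P) (co : P → ℕ × ℕ) (x : P) : Prop :=
  x ∈ junk S N co ∨ (x ∈ N ∧ (co x).1 = 0)

/-- the sets of cells which are used -/
structure RowT (S : ℕ × ℕ → Prop) : Prop extends RowS S where
  down : ∀ a c, 1 ≤ a → S (a, c) → S (1, c)

lemma rowT_true : RowT (fun _ => True) := ⟨rowS_true, fun _ _ _ _ => trivial⟩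

lemma rowT_shift : RowT (fun c => c.1 ≤ c.2) := ⟨rowS_shift, fun _ _ h1 h2 => h1.trans h2⟩

section

variable {t : P} {S : ℕ × ℕ → Prop} {N : Finset P} {co : P → ℕ × ℕ}

lemma Side.up (C : Chart t S N co) {x y : P} (hx : Side S N co x) (hxy : x ≤ y) :
    Side S N co y := by
  rcases hx with hx | ⟨hx, h0⟩
  · obtain ⟨x1, H1, hj⟩ := mem_junk.mp hx
    rcases jset_anc hj hxy with h | h
    · exact Or.inl (mem_junk.mpr ⟨x1, H1, h⟩)
    · have hy := C.up x1 H1.mem y h
      have h2 := (C.le_iff x1 H1.mem y hy).mp h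
      have h3 : (co y).1 ≤ (co x1).1 := h2.1
      rw [H1.fst] at h3
      exact Or.inr ⟨hy, by omega⟩
  · have hy := C.up x hx y hxy
    have h2 := (C.le_iff x hx y hy).mp hxy
    have h3 : (co y).1 ≤ (co x).1 := h2.1
    exact Or.inr ⟨hy, by omega⟩

/-- a side element of the level of a cell of row `1` is a cell -/
lemma Side.cell (C : Chart t S N co) {x y : P} (hx : Side S N co x) (hy : y ∈ N)
    (h1 : (co y).1 = 1) (hl : lev y = lev x) : x ∈ N ∧ co x = (0, (co y).2 + 1) := by
  have hly := C.lev y hy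
  have hN : x ∈ N ∧ (co x).1 = 0 := by
    rcases hx with hx | hx
    · exfalso
      obtain ⟨x1, H1, hj⟩ := mem_junk.mp hx
      have h2 := lev_strictAnti (mem_jset.mp hj).1
      have h3 := H1.lt y hy (by omega)
      have h4 := C.lev x1 H1.mem
      have h5 := H1.fst
      omega
    · exact hx
  have hlx := C.lev x hN.1
  exact ⟨hN.1, Prod.ext hN.2 (by simp only; omega)⟩

/-- an element whose covers are two side elements is junk -/
theorem junk_of_sides (hS : RowT S) (C : Chart t S N co) (h1 : ∃ y ∈ N, 1 ≤ (co y).1)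
    {z x x' : P} (hx : Side S N co x) (hx' : Side S N co x') (hne : x ≠ x') (hl : lev x = lev x')
    (huni : ∀ y, z ⋖ y → y = x ∨ y = x') (hzx : z ⋖ x) : z ∈ junk S N co := by
  -- both are below the end
  have key : ∃ x1, IsEnd S N co x1 ∧ x ∈ jset x1 ∧ x' ∈ jset x1 := by
    have aux : ∀ (a b : P), a ∈ junk S N co → Side S N co b → lev a = lev b →
        ∃ x1, IsEnd S N co x1 ∧ a ∈ jset x1 ∧ b ∈ jset x1 := by
      intro a b ha hb hab
      obtain ⟨x1, H1, hj⟩ := mem_junk.mp ha
      refine ⟨x1, H1, hj, ?_⟩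
      rcases hb with hb | hb
      · obtain ⟨x2, H2, hj2⟩ := mem_junk.mp hb
        rw [H1.unique C hS.one h1 H2]
        exact hj2
      · have h2 := lev_strictAnti (mem_jset.mp hj).1
        have h3 := C.lev x1 H1.mem
        have h4 := H1.fst
        have h5 := C.lev b hb.1
        have h6 : b ≤ x1 := by
          rw [C.le_iff b hb.1 x1 H1.mem]
          refine ⟨?_, ?_⟩
          · rw [h4]; exact Nat.zero_le _
          · have := hb.2
            show (co x1).2 ≤ (co b).2
            omega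
        exact (H1.tail C hb.1 (lt_of_le_of_ne h6 (by rintro rfl; omega))).2
    rcases hx with hx | hx
    · exact aux x x' hx hx' hl
    · rcases hx' with hx' | hx'
      · obtain ⟨x1, H1, h2, h3⟩ := aux x' x hx' (Or.inr hx) hl.symm
        exact ⟨x1, H1, h3, h2⟩
      · exfalso
        have e1 := C.lev x hx.1
        have e2 := C.lev x' hx'.1
        exact hne (C.inj x hx.1 x' hx'.1 (Prod.ext (by omega) (by omega)))
  obtain ⟨x1, H1, h2, h3⟩ := key
  refine mem_junk.mpr ⟨x1, H1, mem_jset.mpr ⟨hzx.1.trans (mem_jset.mp h2).1, fun y hy => ?_⟩⟩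
  rcases eq_or_lt_of_le hy with h4 | h4
  · left
    rw [← h4]
    exact (hzx.1.trans (mem_jset.mp h2).1).le
  · obtain ⟨v, hv, hvy⟩ := Hul.exists_cov h4
    rcases huni v hv with h5 | h5
    · rw [h5] at hvy
      exact (mem_jset.mp h2).2 y hvy
    · rw [h5] at hvy
      exact (mem_jset.mp h3).2 y hvy

/-- the end of a strip of good levels is not above level `j` -/
theorem end_lev (hS : RowT S) (C : Chart t S N co) (H : Gr P r) (hg : ∀ l, l < j → Win.Good P l)
    (hstrip : lowPart j t ⊆ N) (h1 : ∃ y ∈ N, 1 ≤ (co y).1) {x1 : P} (H1 : IsEnd S N co x1) :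
    j ≤ lev x1 := by
  by_contra hcon
  have hl := C.lev x1 H1.mem
  have h0 := H1.fst
  obtain ⟨y, hy, hy1⟩ := h1
  have h2 := H1.lt y hy hy1
  have hS1 : S (1, (co y).2) := hS.down (co y).1 _ hy1 (C.mem y hy)
  have hS2 : S (1, (co x1).2 - 1) := by
    rcases Nat.eq_zero_or_pos ((co x1).2 - 1) with h3 | h3
    · have : (co y).2 = (co x1).2 - 1 := by omega
      rw [← this]
      exact hS1
    · exact hS.one _ h3
  obtain ⟨y1, hy1N, hc1⟩ := H1.ex ((co x1).2 - 1) (by omega) hS2
  obtain ⟨p, hp, hcp⟩ := C.low x1 H1.mem (0, (co x1).2 - 1) ⟨Nat.zero_le _, Nat.sub_le _ _⟩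
    (hS.zero _)
  have hly1 := C.lev y1 hy1N
  rw [hc1] at hly1
  simp only at hly1
  have e1 : x1 ⋖ p := by
    rw [chart_cov C H H1.mem hp, hcp]
    exact Or.inr ⟨h0, by simp only; omega⟩
  have e2 : y1 ⋖ p := by
    rw [chart_cov C H hy1N hp, hcp, hc1]
    exact Or.inl ⟨rfl, rfl⟩
  have hne : x1 ≠ y1 := by
    rintro rfl
    rw [hc1] at h0
    simp at h0
  have hu : 1 ≤ ucv x1 y1 := by
    unfold ucv
    rw [Nat.one_le_iff_ne_zero, ← Nat.pos_iff_ne_zero, Finset.card_pos]
    exact ⟨p, by simp [e1, e2]⟩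
  have hG := hg (lev x1) (by omega) x1 y1 rfl (by omega) hne
  rw [hG] at hu
  obtain ⟨z, hz, hz1⟩ := Win.StA_of_dcv hu
  have hlz := (H.covBy_iff.mp hz).2
  have hzN : z ∈ N := hstrip (mem_lowPart.mpr ⟨hz.1.le.trans (C.le_t x1 H1.mem), by omega⟩)
  have f1 := (chart_cov C H hzN H1.mem).mp hz
  have f2 := (chart_cov C H hzN hy1N).mp hz1
  rw [hc1] at f2
  have f3 : co z = (1, (co x1).2) := by
    rcases f1 with f1 | f1 <;> rcases f2 with f2 | f2 <;>
      · have g1 := f1.1
        have g2 := f1.2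
        have g3 := f2.1
        have g4 := f2.2
        simp only at g1 g2 g3 g4
        first
          | exact Prod.ext (by simp only; omega) (by simp only; omega)
          | omega
  have := H1.lt z hzN (by rw [f3])
  rw [f3] at this
  simp only at this
  omega

/-- a side element has one ancestor on every level `k ≤ j` -/
theorem Side.nab_one (hS : RowT S) (C : Chart t S N co) (H : Gr P r)
    (hg : ∀ l, l < j → Win.Good P l) (hstrip : lowPart j t ⊆ N) (h1 : ∃ y ∈ N, 1 ≤ (co y).1)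
    {x : P} (hx : Side S N co x) {k : ℕ} (hk : k ≤ j) (hkx : k ≤ lev x) : nab k x = 1 := by
  have hcell : ∀ y ∈ N, (co y).1 = 0 → k ≤ lev y → nab k y = 1 := by
    intro y hy hy0 hky
    have hly := C.lev y hy
    have h2 : cellsAt S k (co y) = {0} := by
      ext a
      rw [mem_cellsAt, mem_singleton]
      constructor
      · rintro ⟨h3, -⟩
        omega
      · rintro rfl
        exact ⟨Nat.zero_le _, Nat.zero_le _, by omega, hS.zero _⟩
    rw [nab_chart C hy k, h2, Finset.card_singleton]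
  rcases hx with hx | hx
  · obtain ⟨x1, H1, hj⟩ := mem_junk.mp hx
    have h2 := end_lev hS C H hg hstrip h1 H1
    rw [← hcell x1 H1.mem H1.fst (by omega)]
    classical
    unfold nab
    congr 1
    ext y
    rw [mem_filter, mem_filter, mem_lv]
    refine and_congr_right fun hy => ⟨fun hxy => ?_, fun hy1 => (mem_jset.mp hj).1.le.trans hy1⟩
    rcases (mem_jset.mp hj).2 y hxy with h3 | h3
    · rcases eq_or_lt_of_le h3 with h4 | h4
      · rw [h4]
      · have := lev_strictAnti h4
        omega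
    · exact h3
  · exact hcell x hx.1 hx.2 hkx

end

end Pool.Agent.GaussPoset

end
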