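import Mathlib
import Pool.Agent.W_448zz_h61.Ns

/-! From `Pool.Agent.W_448wd_h84.WdA` -/

section

/-!
# MP_448cb3_co, letters of a component: the laws and the words (rows 466 and 470)

A component (strip) is given by `lo, hi : ℕ → ℕ` (the row of level `k` is `lo k, …, hi k`).  Letters of the step
`k → k + 1`: left C iff `lo (k+1) = lo k + 1`, right O iff `hi (k+1) = hi k + 1`.  This file has no poset in it.
-/

namespace Pool.Agent.GaussPoset.Wd

/-- left pendant pattern below the window: letters C, O (= `Win.pdL`) -/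
def pdL (lo hi : ℕ → ℕ) (i : ℕ) : Prop :=
  lo (i + 1) = lo i + 1 ∧ lo (i + 2) = lo (i + 1) ∧ lo i < hi i

/-- right pendant pattern below the window (= `Win.pdR`) -/
def pdR (lo hi : ℕ → ℕ) (i : ℕ) : Prop :=
  hi (i + 1) = hi i ∧ hi (i + 2) = hi (i + 1) + 1 ∧ lo i < hi i

/-- left pendant pattern above the window (= `Win.puL`) -/
def puL (lo hi : ℕ → ℕ) (i : ℕ) : Prop :=
  2 ≤ i ∧ lo (i - 1) = lo (i - 2) + 1 ∧ lo i = lo (i - 1) ∧ lo i < hi i

/-- right pendant pattern above the window (= `Win.puR`) -/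
def puR (lo hi : ℕ → ℕ) (i : ℕ) : Prop :=
  2 ≤ i ∧ hi (i - 1) = hi (i - 2) ∧ hi i = hi (i - 1) + 1 ∧ lo i < hi i

instance (lo hi : ℕ → ℕ) (i : ℕ) : Decidable (pdL lo hi i) := by unfold pdL; infer_instance
instance (lo hi : ℕ → ℕ) (i : ℕ) : Decidable (pdR lo hi i) := by unfold pdR; infer_instance
instance (lo hi : ℕ → ℕ) (i : ℕ) : Decidable (puL lo hi i) := by unfold puL; infer_instance
instance (lo hi : ℕ → ℕ) (i : ℕ) : Decidable (puR lo hi i) := by unfold puR; infer_instance

/-- number of the pendant patterns below (CO) -/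
def npd (lo hi : ℕ → ℕ) (i : ℕ) : ℕ := (if pdL lo hi i then 1 else 0) + (if pdR lo hi i then 1 else 0)

/-- number of the pendant patterns above (OC read upwards) -/
def npu (lo hi : ℕ → ℕ) (i : ℕ) : ℕ := (if puL lo hi i then 1 else 0) + (if puR lo hi i then 1 else 0)

/-- number of patterns COO below the window (= `Win.flw`) -/
def flw (lo hi : ℕ → ℕ) (i : ℕ) : ℕ :=
  (if lo (i + 3) = lo (i + 2) ∧ (pdL lo hi i ∨ (pdR lo hi i ∧ lo (i + 2) = hi (i + 2)))
    then 1 else 0) +
  (if hi (i + 3) = hi (i + 2) + 1 ∧ (pdR lo hi i ∨ (pdL lo hi i ∧ lo (i + 2) = hi (i + 2)))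
    then 1 else 0)

/-- number of patterns OCC above the window (= `Win.fuw`) -/
def fuw (lo hi : ℕ → ℕ) (i : ℕ) : ℕ :=
  (if 3 ≤ i ∧ lo (i - 2) = lo (i - 3) + 1 ∧ (puL lo hi i ∨ (puR lo hi i ∧ lo (i - 2) = hi (i - 2)))
    then 1 else 0) +
  (if 3 ≤ i ∧ hi (i - 2) = hi (i - 3) ∧ (puR lo hi i ∨ (puL lo hi i ∧ lo (i - 2) = hi (i - 2)))
    then 1 else 0)

/-- the exceptional position of the two pendant patterns (= `Win.Flip`) -/
def Flip (lo hi : ℕ → ℕ) (i : ℕ) : Prop :=
  hi i = lo i + 2 ∧ ((puL lo hi i ∧ pdR lo hi i) ∨ (puR lo hi i ∧ pdL lo hi i))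

instance (lo hi : ℕ → ℕ) (i : ℕ) : Decidable (Flip lo hi i) := by unfold Flip; infer_instance

/-- the pattern C, C, O below the window on one side -/
def cco (lo hi : ℕ → ℕ) (i : ℕ) : Prop :=
  (lo (i + 1) = lo i + 1 ∧ lo (i + 2) = lo (i + 1) + 1 ∧ lo (i + 3) = lo (i + 2)) ∨
  (hi (i + 1) = hi i ∧ hi (i + 2) = hi (i + 1) ∧ hi (i + 3) = hi (i + 2) + 1)

instance (lo hi : ℕ → ℕ) (i : ℕ) : Decidable (cco lo hi i) := by unfold cco; infer_instance

/-- letters of a step: (left C, right O) -/
abbrev Ltr := Bool × Bool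

def OO : Ltr := (false, true)
def CO : Ltr := (true, true)
def OC : Ltr := (false, false)
def CC : Ltr := (true, false)

/-- the letters of the steps `a → a + 1`, …, `a + d - 1 → a + d` -/
def word (lo hi : ℕ → ℕ) (a d : ℕ) : List Ltr :=
  (List.range d).map fun n => (decide (lo (a + n + 1) ≠ lo (a + n)), decide (hi (a + n + 1) ≠ hi (a + n)))

/-- explicit words which are excluded by one identity each; `(E, w)`: the identity is (E,1) at the window
`a + w.length - E`.  (E,1)(a) for the words which are not excluded by another law; `E6` stops at level `10`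
((4,1)(7)), `E7` has no `OO` at level `12` ((4,1)(8)) and at level `16` ((4,1)(12)) and stops at level `16`
((5,1)(12)) -/
def badK (a : ℕ) : List (ℕ × List Ltr) :=
  (if a = 3 then [(4, [OC, OO, CO, OO]), (4, [OC, CO, CO, OO]),
    (4, [OC, CO, CO, OC, CC, OC, OC, OC]), (4, [OC, CO, CO, OC, CC, OC, OC, OO])] else []) ++
  (if 4 ≤ a then [(4, [OC, OO, CO, OC]), (4, [OC, CO, CO, OC])] else []) ++
  (if a = 4 then [(5, [OC, CO, CO, OO, CO]),
    (4, [OC, CO, CO, OO, CC, OC, OC, OO]),
    (4, [OC, CO, CO, OO, CC, OC, OC, CO, CC, OC, OC, OO]),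
    (5, [OC, CO, CO, OO, CC, OC, OC, CO, CC, OC, OC, OC, OC]),
    (5, [OC, CO, CO, OO, CC, OC, OC, CO, CC, OC, OC, OC, OO])] else []) ++
  (if 5 ≤ a then [(5, [OC, CO, CO, OO, CC])] else []) ++
  (if a = 5 then [(6, [OC, CO, CO, OO, CO, OO])] else []) ++
  (if 6 ≤ a then [(6, [OC, CO, CO, OO, CO, OC])] else []) ++
  (if a = 6 then [(7, [OC, CO, CO, OO, CO, OO, OO])] else []) ++
  (if 7 ≤ a then [(7, [OC, CO, CO, OO, CO, OO, OC])] else [])

/-- the words of `badK` -/
def badW (a : ℕ) : List (List Ltr) := (badK a).map fun q => q.2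

/-- the laws for one component natural down to level `j` which come from the windows `≥ j' - 3`, `j' ≤ j` -/
structure Laws3 (lo hi : ℕ → ℕ) (j : ℕ) : Prop where
  lo_zero : lo 0 = 0
  hi_zero : hi 0 = 0
  lo_step : ∀ k, k < j → lo (k + 1) = lo k ∨ lo (k + 1) = lo k + 1
  hi_step : ∀ k, k < j → hi (k + 1) = hi k ∨ hi (k + 1) = hi k + 1
  lo_le : ∀ k, k ≤ j → lo k ≤ hi k
  /-- (2,1)(i) -/
  two : ∀ i, i + 2 ≤ j → npd lo hi i = npu lo hi i
  two_le : ∀ i, i + 2 ≤ j → npd lo hi i ≤ 1
  /-- (4,2)(i), `b ≥ 4` -/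
  two4 : ∀ i, 1 ≤ i → i + 2 ≤ j → lo i + 3 ≤ hi i →
    (pdL lo hi i ↔ puL lo hi i) ∧ (pdR lo hi i ↔ puR lo hi i)
  /-- (3,1)(i), `b ≥ 2` -/
  thr : ∀ i, 1 ≤ i → i + 3 ≤ j → lo i < hi i → flw lo hi i = fuw lo hi i
  /-- (5,2)(i), `b = 3` -/
  be5 : ∀ i, 1 ≤ i → i + 3 ≤ j → ¬ Flip lo hi i
  /-- (6,2)(i), `b = 3` -/
  be6 : ∀ i, 1 ≤ i → i + 3 ≤ j → hi i = lo i + 2 → lo (i + 2) < hi (i + 2) → ¬ cco lo hi i

/-- all the laws for one component natural down to level `j` -/
structure Laws (lo hi : ℕ → ℕ) (j : ℕ) : Prop extends Laws3 lo hi j where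
  /-- (E,1)(a) for quadric rows, `a` = first level with two elements -/
  fq : ∀ a E, (∀ k, k < a → lo k = hi k) → lo a < hi a → 3 ≤ a → 4 ≤ E → a + E ≤ j →
    (∀ k, 1 ≤ k → k < E → lo (a + k) = hi (a + k)) → E ≤ a ∧ lo (a + E) = hi (a + E)
  bad : ∀ a w, w ∈ badW a → (∀ k, k < a → lo k = 0 ∧ hi k = 0) → lo a = 0 ∧ hi a = 1 → 3 ≤ a →
    a + w.length ≤ j → word lo hi a w.length ≠ w

/-- normal form at one-element rows: a step from one element to one element does not move -/
def NF (lo hi : ℕ → ℕ) (j : ℕ) : Prop :=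
  ∀ k, k < j → lo k = hi k → lo (k + 1) = hi (k + 1) → lo (k + 1) = lo k

/-! ## the rows given by a word (relative levels: `3` = the first level with two elements) -/

def Lw (w : List Ltr) (n : ℕ) : ℕ := (w.take (n - 3)).countP fun l => l.1

def Hw (w : List Ltr) (n : ℕ) : ℕ := if n < 3 then 0 else 1 + (w.take (n - 3)).countP fun l => l.2

/-- the laws with the last level `w.length + 3`, functions `L`, `H` of relative levels -/
def New0 (L H : ℕ → ℕ) (d : ℕ) : Prop :=
  L (d + 3) ≤ H (d + 3) ∧ (1 ≤ d → L (d + 2) = H (d + 2) → L (d + 3) = H (d + 3) → L (d + 3) = L (d + 2))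

def New2 (L H : ℕ → ℕ) (d : ℕ) : Prop :=
  2 ≤ d → npd L H (d + 1) = npu L H (d + 1) ∧ npd L H (d + 1) ≤ 1 ∧
    (L (d + 1) + 3 ≤ H (d + 1) → (pdL L H (d + 1) ↔ puL L H (d + 1)) ∧ (pdR L H (d + 1) ↔ puR L H (d + 1)))

def New3 (L H : ℕ → ℕ) (d : ℕ) : Prop :=
  3 ≤ d → ¬ Flip L H d ∧ (L d < H d → flw L H d = fuw L H d) ∧
    (H d = L d + 2 → L (d + 2) < H (d + 2) → ¬ cco L H d)

def New4 (A : ℕ) (L H : ℕ → ℕ) (d : ℕ) : Prop :=
  4 ≤ d → (∀ k, k < d → 1 ≤ k → L (k + 3) = H (k + 3)) → d ≤ A ∧ L (d + 3) = H (d + 3)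

instance (L H : ℕ → ℕ) (d : ℕ) : Decidable (New0 L H d) := by unfold New0; infer_instance
instance (L H : ℕ → ℕ) (d : ℕ) : Decidable (New2 L H d) := by unfold New2; infer_instance
instance (L H : ℕ → ℕ) (d : ℕ) : Decidable (New3 L H d) := by unfold New3; infer_instance
instance (A : ℕ) (L H : ℕ → ℕ) (d : ℕ) : Decidable (New4 A L H d) := by unfold New4; infer_instance

/-- the laws of `Laws3` with the last level `w.length + 3` -/
def NewA (w : List Ltr) : Prop :=
  New0 (Lw w) (Hw w) w.length ∧ New2 (Lw w) (Hw w) w.length ∧ New3 (Lw w) (Hw w) w.length ∧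
  w.head? ≠ some CO

instance (w : List Ltr) : Decidable (NewA w) := by unfold NewA; infer_instance

/-- the laws with the last level `w.length + 3` -/
def New (A : ℕ) (w : List Ltr) : Prop :=
  NewA w ∧ New4 A (Lw w) (Hw w) w.length ∧ w ∉ badW A

instance (A : ℕ) (w : List Ltr) : Decidable (New A w) := by unfold New; infer_instance

/-- the tree of the words -/
def tree (A : ℕ) : ℕ → List (List Ltr)
  | 0 => [[]]
  | d + 1 => ((tree A d).flatMap fun w => [w ++ [OO], w ++ [CO], w ++ [OC], w ++ [CC]]).filter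
      fun w => decide (New A w)

end Pool.Agent.GaussPoset.Wd

end

/-! From `Pool.Agent.W_448wd_h84.WdB` -/

section

/-!
# MP_448cb3_co, letters of a component: the word of a late component is in the tree
-/

namespace Pool.Agent.GaussPoset.Wd

section congr

variable {lo hi L H : ℕ → ℕ} {B N i : ℕ}

lemma pdL_congr (hL : ∀ n, n ≤ N → L n = lo (B + n)) (hH : ∀ n, n ≤ N → H n = hi (B + n))
    (h : i + 2 ≤ N) : pdL L H i ↔ pdL lo hi (B + i) := by
  have e0 := hL i (by omega)
  have e1 := hL (i + 1) (by omega)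
  have e2 := hL (i + 2) (by omega)
  have f0 := hH i (by omega)
  rw [← Nat.add_assoc] at e1 e2
  unfold pdL
  rw [e0, e1, e2, f0]

lemma pdR_congr (hL : ∀ n, n ≤ N → L n = lo (B + n)) (hH : ∀ n, n ≤ N → H n = hi (B + n))
    (h : i + 2 ≤ N) : pdR L H i ↔ pdR lo hi (B + i) := by
  have e0 := hH i (by omega)
  have e1 := hH (i + 1) (by omega)
  have e2 := hH (i + 2) (by omega)
  have f0 := hL i (by omega)
  rw [← Nat.add_assoc] at e1 e2
  unfold pdR
  rw [e0, e1, e2, f0]

lemma sub_aux {m : ℕ} (h : m ≤ i) : B + i - m = B + (i - m) := by omega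

lemma puL_congr (hL : ∀ n, n ≤ N → L n = lo (B + n)) (hH : ∀ n, n ≤ N → H n = hi (B + n))
    (h2 : 2 ≤ i) (h : i ≤ N) : puL L H i ↔ puL lo hi (B + i) := by
  have e0 := hL i (by omega)
  have e1 := hL (i - 1) (by omega)
  have e2 := hL (i - 2) (by omega)
  have f0 := hH i (by omega)
  unfold puL
  rw [sub_aux (B := B) (show 1 ≤ i by omega), sub_aux (B := B) h2, e0, e1, e2, f0]
  constructor
  · rintro ⟨h1, h3⟩
    exact ⟨by omega, h3⟩
  · rintro ⟨h1, h3⟩
    exact ⟨h2, h3⟩

lemma puR_congr (hL : ∀ n, n ≤ N → L n = lo (B + n)) (hH : ∀ n, n ≤ N → H n = hi (B + n))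
    (h2 : 2 ≤ i) (h : i ≤ N) : puR L H i ↔ puR lo hi (B + i) := by
  have e0 := hH i (by omega)
  have e1 := hH (i - 1) (by omega)
  have e2 := hH (i - 2) (by omega)
  have f0 := hL i (by omega)
  unfold puR
  rw [sub_aux (B := B) (show 1 ≤ i by omega), sub_aux (B := B) h2, e0, e1, e2, f0]
  constructor
  · rintro ⟨h1, h3⟩
    exact ⟨by omega, h3⟩
  · rintro ⟨h1, h3⟩
    exact ⟨h2, h3⟩

lemma npd_congr (hL : ∀ n, n ≤ N → L n = lo (B + n)) (hH : ∀ n, n ≤ N → H n = hi (B + n))
    (h : i + 2 ≤ N) : npd L H i = npd lo hi (B + i) := by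
  unfold npd
  simp only [pdL_congr hL hH h, pdR_congr hL hH h]

lemma npu_congr (hL : ∀ n, n ≤ N → L n = lo (B + n)) (hH : ∀ n, n ≤ N → H n = hi (B + n))
    (h2 : 2 ≤ i) (h : i ≤ N) : npu L H i = npu lo hi (B + i) := by
  unfold npu
  simp only [puL_congr hL hH h2 h, puR_congr hL hH h2 h]

lemma flw_congr (hL : ∀ n, n ≤ N → L n = lo (B + n)) (hH : ∀ n, n ≤ N → H n = hi (B + n))
    (h : i + 3 ≤ N) : flw L H i = flw lo hi (B + i) := by
  have e2 := hL (i + 2) (by omega)
  have e3 := hL (i + 3) (by omega)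
  have f2 := hH (i + 2) (by omega)
  have f3 := hH (i + 3) (by omega)
  rw [← Nat.add_assoc] at e2 e3 f2 f3
  unfold flw
  simp only [pdL_congr hL hH (show i + 2 ≤ N by omega), pdR_congr hL hH (show i + 2 ≤ N by omega),
    e2, e3, f2, f3]

lemma fuw_congr (hL : ∀ n, n ≤ N → L n = lo (B + n)) (hH : ∀ n, n ≤ N → H n = hi (B + n))
    (h3 : 3 ≤ i) (h : i ≤ N) : fuw L H i = fuw lo hi (B + i) := by
  have e2 := hL (i - 2) (by omega)
  have e3 := hL (i - 3) (by omega)
  have f2 := hH (i - 2) (by omega)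
  have f3 := hH (i - 3) (by omega)
  have h4 : 3 ≤ B + i := by omega
  unfold fuw
  simp only [puL_congr hL hH (show 2 ≤ i by omega) h, puR_congr hL hH (show 2 ≤ i by omega) h,
    sub_aux (B := B) (show 2 ≤ i by omega), sub_aux (B := B) h3, e2, e3, f2, f3, h3, h4]

lemma Flip_congr (hL : ∀ n, n ≤ N → L n = lo (B + n)) (hH : ∀ n, n ≤ N → H n = hi (B + n))
    (h2 : 2 ≤ i) (h : i + 2 ≤ N) : Flip L H i ↔ Flip lo hi (B + i) := by
  unfold Flip
  rw [puL_congr hL hH h2 (by omega), puR_congr hL hH h2 (by omega), pdL_congr hL hH h, pdR_congr hL hH h,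
    hL i (by omega), hH i (by omega)]

lemma cco_congr (hL : ∀ n, n ≤ N → L n = lo (B + n)) (hH : ∀ n, n ≤ N → H n = hi (B + n))
    (h : i + 3 ≤ N) : cco L H i ↔ cco lo hi (B + i) := by
  have e0 := hL i (by omega)
  have e1 := hL (i + 1) (by omega)
  have e2 := hL (i + 2) (by omega)
  have e3 := hL (i + 3) (by omega)
  have f0 := hH i (by omega)
  have f1 := hH (i + 1) (by omega)
  have f2 := hH (i + 2) (by omega)
  have f3 := hH (i + 3) (by omega)
  rw [← Nat.add_assoc] at e1 e2 e3 f1 f2 f3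
  unfold cco
  rw [e0, e1, e2, e3, f0, f1, f2, f3]

end congr

/-! ## the word -/

variable {lo hi : ℕ → ℕ} {j a d : ℕ}

lemma word_succ : word lo hi a (d + 1) = word lo hi a d ++
    [(decide (lo (a + d + 1) ≠ lo (a + d)), decide (hi (a + d + 1) ≠ hi (a + d)))] := by
  unfold word
  rw [List.range_succ, List.map_append]
  rfl

@[simp] lemma word_length : (word lo hi a d).length = d := by simp [word]

lemma word_take {m : ℕ} (h : m ≤ d) : (word lo hi a d).take m = word lo hi a m := by
  unfold word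
  rw [← List.map_take, List.take_range, min_eq_left h]

/-- rows of level `≤ a` -/
lemma Laws3.trunk (h : Laws3 lo hi j) (hN : NF lo hi j) (ha : a ≤ j) (h1 : ∀ k, k < a → lo k = hi k) :
    ∀ k, k < a → lo k = 0 := by
  intro k
  induction k with
  | zero => intro _; exact h.lo_zero
  | succ k ih =>
    intro hk
    rw [hN k (by omega) (h1 k (by omega)) (h1 (k + 1) hk)]
    exact ih (by omega)

lemma Laws3.at_a (h : Laws3 lo hi j) (hN : NF lo hi j) (ha : a ≤ j) (h0 : 1 ≤ a)
    (h1 : ∀ k, k < a → lo k = hi k) (h2 : lo a < hi a) : lo a = 0 ∧ hi a = 1 := by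
  obtain ⟨b, rfl⟩ : ∃ b, a = b + 1 := ⟨a - 1, by omega⟩
  have e1 := h.trunk hN ha h1 b (by omega)
  have e2 := h1 b (by omega)
  have e3 := h.lo_step b (by omega)
  have e4 := h.hi_step b (by omega)
  omega

lemma Laws3.Lw_word (h : Laws3 lo hi j) (hN : NF lo hi j) (h0 : 3 ≤ a)
    (h1 : ∀ k, k < a → lo k = hi k) (h2 : lo a < hi a) (hd : a + d ≤ j) :
    ∀ n, n ≤ d + 3 → Lw (word lo hi a d) n = lo (a - 3 + n) := by
  intro n hn
  unfold Lw
  rcases Nat.lt_or_ge n 3 with h3 | h3
  · rw [Nat.sub_eq_zero_of_le h3.le, List.take_zero, List.countP_nil,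
      h.trunk hN (by omega) h1 _ (by omega)]
  · obtain ⟨m, rfl⟩ : ∃ m, n = m + 3 := ⟨n - 3, by omega⟩
    rw [show m + 3 - 3 = m by omega, word_take (by omega), show a - 3 + (m + 3) = a + m by omega]
    clear h3
    induction m with
    | zero =>
      have := (h.at_a hN (by omega) (by omega) h1 h2).1
      simpa [word] using this.symm
    | succ m ih =>
      rw [word_succ, List.countP_append, ih (by omega)]
      have e3 := h.lo_step (a + m) (by omega)
      rcases e3 with e3 | e3
      · simp [e3, ← Nat.add_assoc]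
      · simp [e3, ← Nat.add_assoc]

lemma Laws3.Hw_word (h : Laws3 lo hi j) (hN : NF lo hi j) (h0 : 3 ≤ a)
    (h1 : ∀ k, k < a → lo k = hi k) (h2 : lo a < hi a) (hd : a + d ≤ j) :
    ∀ n, n ≤ d + 3 → Hw (word lo hi a d) n = hi (a - 3 + n) := by
  intro n hn
  unfold Hw
  split_ifs with h3
  · rw [← h1 _ (by omega), h.trunk hN (by omega) h1 _ (by omega)]
  · obtain ⟨m, rfl⟩ : ∃ m, n = m + 3 := ⟨n - 3, by omega⟩
    rw [show m + 3 - 3 = m by omega, word_take (by omega), show a - 3 + (m + 3) = a + m by omega]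
    clear h3
    induction m with
    | zero =>
      have := (h.at_a hN (by omega) (by omega) h1 h2).2
      simpa [word] using this.symm
    | succ m ih =>
      rw [word_succ, List.countP_append, ← Nat.add_assoc, ih (by omega)]
      have e3 := h.hi_step (a + m) (by omega)
      rcases e3 with e3 | e3
      · simp [e3, ← Nat.add_assoc]
      · simp [e3, ← Nat.add_assoc]

/-- the laws of `Laws3` with the last level `a + d` -/
theorem Laws3.new (h : Laws3 lo hi j) (hN : NF lo hi j) (h0 : 3 ≤ a)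
    (h1 : ∀ k, k < a → lo k = hi k) (h2 : lo a < hi a) (hd : a + d ≤ j)
    (hor : (word lo hi a d).head? ≠ some CO) : NewA (word lo hi a d) := by
  have hL := h.Lw_word hN h0 h1 h2 hd
  have hH := h.Hw_word hN h0 h1 h2 hd
  set B := a - 3 with hB
  have hl : (word lo hi a d).length = d := word_length
  refine ⟨?_, ?_, ?_, hor⟩
  · rw [hl]
    constructor
    · rw [hL _ le_rfl, hH _ le_rfl]
      exact h.lo_le _ (by omega)
    · intro h3 h4 h5
      have e1 := hL (d + 2) (by omega)
      have e2 := hL (d + 3) (by omega)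
      have e3 := hH (d + 2) (by omega)
      have e4 := hH (d + 3) (by omega)
      rw [e1, e3] at h4
      rw [e2, e4] at h5
      rw [e1, e2]
      exact hN (B + (d + 2)) (by omega) h4 h5
  · rw [hl]
    intro h3
    rw [npd_congr (i := d + 1) hL hH (by omega), npu_congr (i := d + 1) hL hH (by omega) (by omega),
      pdL_congr (i := d + 1) hL hH (by omega), pdR_congr (i := d + 1) hL hH (by omega),
      puL_congr (i := d + 1) hL hH (by omega) (by omega), puR_congr (i := d + 1) hL hH (by omega) (by omega),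
      hL (d + 1) (by omega), hH (d + 1) (by omega)]
    exact ⟨h.two _ (by omega), h.two_le _ (by omega), h.two4 _ (by omega) (by omega)⟩
  · rw [hl]
    intro h3
    rw [Flip_congr (i := d) hL hH (by omega) (by omega), flw_congr (i := d) hL hH (by omega),
      fuw_congr (i := d) hL hH (by omega) (by omega), cco_congr (i := d) hL hH (by omega),
      hL d (by omega), hH d (by omega), hL (d + 2) (by omega), hH (d + 2) (by omega)]
    exact ⟨h.be5 _ (by omega) (by omega), h.thr _ (by omega) (by omega), h.be6 _ (by omega) (by omega)⟩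

lemma badK_large (ha : 8 ≤ a) : badK a = badK 8 := by
  unfold badK
  simp only [show ¬ a = 3 by omega, show ¬ a = 4 by omega, show ¬ a = 5 by omega,
    show ¬ a = 6 by omega, show 4 ≤ a by omega, show 5 ≤ a by omega, show 6 ≤ a by omega,
    show 7 ≤ a by omega]
  rfl

lemma badW_large (ha : 8 ≤ a) : badW a = badW 8 := by
  unfold badW
  rw [badK_large ha]

/-- the laws with the last level `a + d` -/
theorem Laws.new (h : Laws lo hi j) (hN : NF lo hi j) (h0 : 3 ≤ a)
    (h1 : ∀ k, k < a → lo k = hi k) (h2 : lo a < hi a) (hd : a + d ≤ j) {A : ℕ}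
    (hA : A = a ∨ (A = 8 ∧ d ≤ 8 ∧ 8 ≤ a)) (hor : (word lo hi a d).head? ≠ some CO) :
    New A (word lo hi a d) := by
  have hL := h.Lw_word hN h0 h1 h2 hd
  have hH := h.Hw_word hN h0 h1 h2 hd
  set B := a - 3 with hB
  have hl : (word lo hi a d).length = d := word_length
  refine ⟨h.toLaws3.new hN h0 h1 h2 hd hor, ?_, ?_⟩
  · rw [hl]
    intro h3 h4
    have h5 := h.fq a d h1 h2 h0 h3 hd (fun k hk hk' => by
      have e1 := hL (k + 3) (by omega)
      have e2 := hH (k + 3) (by omega)
      have e3 := h4 k hk' hk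
      rw [e1, e2, show B + (k + 3) = a + k by omega] at e3
      exact e3)
    rw [hL _ le_rfl, hH _ le_rfl, show B + (d + 3) = a + d by omega]
    exact ⟨by omega, h5.2⟩
  · intro hb
    have hb' : word lo hi a d ∈ badW a := by
      rcases hA with rfl | ⟨rfl, hA⟩
      · exact hb
      · rw [badW_large (a := a) (by omega)]
        exact hb
    refine h.bad _ _ hb' (fun k hk => ?_) (h.at_a hN (by omega) (by omega) h1 h2) h0
      (by rw [hl]; exact hd) (by rw [hl])
    have e1 := h.trunk hN (by omega) h1 k hk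
    have e2 := h1 k hk
    omega

theorem Laws.mem_tree (h : Laws lo hi j) (hN : NF lo hi j) (h0 : 3 ≤ a)
    (h1 : ∀ k, k < a → lo k = hi k) (h2 : lo a < hi a) {A : ℕ} :
    ∀ d, a + d ≤ j → (A = a ∨ (A = 8 ∧ d ≤ 8 ∧ 8 ≤ a)) → (word lo hi a d).head? ≠ some CO →
      word lo hi a d ∈ tree A d := by
  intro d
  induction d with
  | zero => intro _ _ _; simp [tree, word]
  | succ d ih =>
    intro hd hA hor
    have hor' : (word lo hi a d).head? ≠ some CO := by
      rcases d with _ | d
      · simp [word]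
      · rw [word_succ] at hor
        rwa [List.head?_append_of_ne_nil _ (by simp [word])] at hor
    have h3 := ih (by omega) (by omega) hor'
    rw [tree, List.mem_filter]
    refine ⟨?_, by simpa using h.new hN h0 h1 h2 hd hA hor⟩
    rw [List.mem_flatMap]
    refine ⟨_, h3, ?_⟩
    rw [word_succ]
    generalize decide (lo (a + d + 1) ≠ lo (a + d)) = p
    generalize decide (hi (a + d + 1) ≠ hi (a + d)) = q
    cases p <;> cases q <;> simp [OO, CO, OC, CC]

end Pool.Agent.GaussPoset.Wd

end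

/-! From `Pool.Agent.W_448wd_h84.WdC` -/

section

/-!
# MP_448cb3_co, the list of the late words (row 466)
-/

namespace Pool.Agent.GaussPoset.Wd

/-- the words of the late components which are not quadrics -/
def lateW (a : ℕ) : List (List Ltr) :=
  [[], [OO], [OC], [OC, OO], [OC, CO], [OC, OO, OO], [OC, OO, CO], [OC, CO, CO]] ++
  (if a = 3 then [[OC, OO, CO, OC], [OC, CO, CO, OC], [OC, CO, CO, OC, CC], [OC, CO, CO, OC, CC, OC],
    [OC, CO, CO, OC, CC, OC, OC]] else [[OC, OO, CO, OO], [OC, CO, CO, OO]]) ++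
  (if a = 4 then [[OC, CO, CO, OO, CC], [OC, CO, CO, OO, CC, CO], [OC, CO, CO, OO, CC, OC],
    [OC, CO, CO, OO, CC, OC, OC], [OC, CO, CO, OO, CC, OC, OC, CO], [OC, CO, CO, OO, CC, OC, OC, CO, CC],
    [OC, CO, CO, OO, CC, OC, OC, CO, CC, OC], [OC, CO, CO, OO, CC, OC, OC, CO, CC, OC, OC],
    [OC, CO, CO, OO, CC, OC, OC, CO, CC, OC, OC, OC]] else []) ++
  (if 5 ≤ a then [[OC, CO, CO, OO, CO]] else []) ++
  (if a = 5 then [[OC, CO, CO, OO, CO, OC], [OC, CO, CO, OO, CO, OC, OC]] else []) ++
  (if 6 ≤ a then [[OC, CO, CO, OO, CO, OO]] else []) ++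
  (if a = 6 then [[OC, CO, CO, OO, CO, OO, OC]] else []) ++
  (if 7 ≤ a then [[OC, CO, CO, OO, CO, OO, OO]] else [])

/-- the word of a quadric -/
def Qw (d : ℕ) : List Ltr := CC :: List.replicate (d - 1) OC

instance decQ (a d : ℕ) (w : List Ltr) : Decidable (((1 ≤ d ∧ d ≤ a) ∧ w = Qw d) ∨ w ∈ lateW a) := by
  infer_instance

lemma tree3 : ∀ d, d < 8 → ∀ w ∈ tree 3 d, ((1 ≤ d ∧ d ≤ 3) ∧ w = Qw d) ∨ w ∈ lateW 3 := by
  decide +kernel

lemma tree3' : tree 3 8 = [] := by decide +kernel

lemma tree4 : ∀ d, d < 13 → ∀ w ∈ tree 4 d, ((1 ≤ d ∧ d ≤ 4) ∧ w = Qw d) ∨ w ∈ lateW 4 := by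
  decide +kernel

lemma tree4' : tree 4 13 = [] := by decide +kernel

lemma tree5 : ∀ d, d < 8 → ∀ w ∈ tree 5 d, ((1 ≤ d ∧ d ≤ 5) ∧ w = Qw d) ∨ w ∈ lateW 5 := by
  decide +kernel

lemma tree5' : tree 5 8 = [] := by decide +kernel

lemma tree6 : ∀ d, d < 8 → ∀ w ∈ tree 6 d, ((1 ≤ d ∧ d ≤ 6) ∧ w = Qw d) ∨ w ∈ lateW 6 := by
  decide +kernel

lemma tree6' : tree 6 8 = [] := by decide +kernel

lemma tree7 : ∀ d, d < 8 → ∀ w ∈ tree 7 d, ((1 ≤ d ∧ d ≤ 7) ∧ w = Qw d) ∨ w ∈ lateW 7 := by
  decide +kernel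

lemma tree7' : tree 7 8 = [] := by decide +kernel

lemma tree8 : ∀ d, d < 8 → ∀ w ∈ tree 8 d, ((1 ≤ d ∧ d ≤ 8) ∧ w = Qw d) ∨ w ∈ lateW 8 := by
  decide +kernel

lemma tree8' : tree 8 8 = [Qw 8] := by decide +kernel

variable {lo hi : ℕ → ℕ} {j a d : ℕ}

lemma head_word {m : ℕ} (h : m ≤ d) (hor : (word lo hi a d).head? ≠ some CO) :
    (word lo hi a m).head? ≠ some CO := by
  rw [← word_take h]
  rcases m with _ | m
  · simp
  · rw [List.head?_take]
    simpa using hor

/-- one-element rows below the window `a` continue by one element at a time, at most down to level `2 a` -/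
lemma Laws.quad (h : Laws lo hi j) (h0 : 3 ≤ a) (h1 : ∀ k, k < a → lo k = hi k) (h2 : lo a < hi a)
    (h3 : ∀ k, 1 ≤ k → k ≤ 3 → lo (a + k) = hi (a + k)) :
    ∀ d, a + d ≤ j → ∀ k, 1 ≤ k → k ≤ d → lo (a + k) = hi (a + k) ∧ (4 ≤ k → k ≤ a) := by
  intro d
  induction d with
  | zero => intro _ k hk hk'; omega
  | succ d ih =>
    intro hd k hk hk'
    rcases Nat.lt_or_ge k (d + 1) with h4 | h4
    · exact ih (by omega) k hk (by omega)
    · obtain rfl : k = d + 1 := by omega
      rcases Nat.lt_or_ge 3 (d + 1) with h5 | h5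
      · have e1 := h.fq a (d + 1) h1 h2 h0 (by omega) (by omega)
          (fun k hk hk1 => (ih (by omega) k hk (by omega)).1)
        exact ⟨e1.2, fun _ => e1.1⟩
      · exact ⟨h3 _ (by omega) h5, fun h6 => by omega⟩

/-- the word of one-element rows in normal form -/
lemma word_quad (hN : NF lo hi j) (hd : a + d ≤ j) (h1 : 1 ≤ d) (hc : lo (a + 1) = lo a + 1 ∧ hi (a + 1) = hi a)
    (h3 : ∀ k, 1 ≤ k → k ≤ d → lo (a + k) = hi (a + k)) : word lo hi a d = Qw d := by
  induction d with
  | zero => omega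
  | succ d ih =>
    rcases Nat.eq_zero_or_pos d with rfl | h4
    · simp [word, Qw, CC, hc]
    · rw [word_succ, ih (by omega) h4 (fun k hk hk' => h3 k hk (by omega))]
      have e1 := hN (a + d) (by omega) (h3 d h4 (by omega)) (h3 (d + 1) (by omega) le_rfl)
      have e2 := h3 d h4 (by omega)
      have e3 := h3 (d + 1) (by omega) le_rfl
      rw [← Nat.add_assoc] at e3
      have e4 : hi (a + d + 1) = hi (a + d) := by omega
      obtain ⟨m, rfl⟩ : ∃ m, d = m + 1 := ⟨d - 1, by omega⟩
      simp [e1, e4, Qw, List.replicate_succ', OC]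

/-- S4: the list of the late components (normal form, first letter not CO) -/
theorem Laws.late (h : Laws lo hi j) (hN : NF lo hi j) (h0 : 3 ≤ a) (ha : a ≤ j)
    (h1 : ∀ k, k < a → lo k = hi k) (h2 : lo a < hi a) (hor : (word lo hi a (j - a)).head? ≠ some CO) :
    ((1 ≤ j - a ∧ j - a ≤ a) ∧ word lo hi a (j - a) = Qw (j - a)) ∨ word lo hi a (j - a) ∈ lateW a := by
  -- small `a`
  have key : ∀ N, (∀ d, d < N → ∀ w ∈ tree a d, ((1 ≤ d ∧ d ≤ a) ∧ w = Qw d) ∨ w ∈ lateW a) →
      tree a N = [] → ((1 ≤ j - a ∧ j - a ≤ a) ∧ word lo hi a (j - a) = Qw (j - a)) ∨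
        word lo hi a (j - a) ∈ lateW a := by
    intro N hN1 hN2
    rcases Nat.lt_or_ge (j - a) N with h3 | h3
    · exact hN1 _ h3 _ (h.mem_tree hN h0 h1 h2 (j - a) (by omega) (Or.inl rfl) hor)
    · have := h.mem_tree hN h0 h1 h2 (A := a) N (by omega) (Or.inl rfl) (head_word h3 hor)
      rw [hN2] at this
      simp at this
  rcases Nat.lt_or_ge a 8 with h8 | h8
  · obtain rfl | rfl | rfl | rfl | rfl : a = 3 ∨ a = 4 ∨ a = 5 ∨ a = 6 ∨ a = 7 := by omega
    · exact key 8 tree3 tree3'
    · exact key 13 tree4 tree4'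
    · exact key 8 tree5 tree5'
    · exact key 8 tree6 tree6'
    · exact key 8 tree7 tree7'
  · have hW : lateW 8 = lateW a := by
      unfold lateW
      simp only [show ¬ a = 3 by omega, show ¬ a = 4 by omega, show ¬ a = 5 by omega, show ¬ a = 6 by omega,
        show 5 ≤ a by omega, show 6 ≤ a by omega, show 7 ≤ a by omega]
      rfl
    rcases Nat.lt_or_ge (j - a) 8 with h3 | h3
    · have := h.mem_tree hN h0 h1 h2 (A := 8) (j - a) (by omega) (Or.inr (by omega)) hor
      have := tree8 _ h3 _ this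
      rw [hW] at this
      rcases this with ⟨h4, h5⟩ | h4
      · exact Or.inl ⟨by omega, h5⟩
      · exact Or.inr h4
    · have h4 := h.mem_tree hN h0 h1 h2 (A := 8) 8 (by omega) (Or.inr (by omega)) (head_word h3 hor)
      rw [tree8', List.mem_singleton] at h4
      have hL := h.Lw_word hN h0 h1 h2 (d := 8) (by omega)
      have hH := h.Hw_word hN h0 h1 h2 (d := 8) (by omega)
      rw [h4] at hL hH
      have hr : ∀ k, 1 ≤ k → k ≤ 8 → lo (a + k) = 1 ∧ hi (a + k) = 1 := by
        intro k hk hk'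
        have e1 := hL (k + 3) (by omega)
        have e2 := hH (k + 3) (by omega)
        rw [show a - 3 + (k + 3) = a + k by omega] at e1 e2
        rw [← e1, ← e2]
        interval_cases k <;> decide
      have h5 := h.at_a hN ha (by omega) h1 h2
      have h6 := hr 1 (by omega) (by omega)
      have hc : lo (a + 1) = lo a + 1 ∧ hi (a + 1) = hi a := by omega
      have h7 := h.quad h0 h1 h2 (fun k hk hk' => by
        have := hr k hk (by omega)
        omega) (j - a) (by omega)
      left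
      refine ⟨⟨by omega, (h7 (j - a) (by omega) le_rfl).2 (by omega)⟩, ?_⟩
      exact word_quad hN (by omega) (by omega) hc (fun k hk hk' => (h7 k hk hk').1)

end Pool.Agent.GaussPoset.Wd

end

/-! From `Pool.Agent.W_448st_h88.MgA` -/

section

/-! Signed matching polynomials (MP_448cb3_co). -/

namespace Pool.Agent.GaussPoset.St

set_option linter.unusedSectionVars false

open Finset Polynomial

section mat

variable {α : Type*} [DecidableEq α]

/-- matchings of `V` -/
noncomputable def MS (V : Finset α) : Finset (Finset (Finset α)) := by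
  classical exact Finset.filter (fun M : Finset (Finset α) =>
    (M : Set (Finset α)).PairwiseDisjoint id) (V.powersetCard 2).powerset

lemma mem_MS {V : Finset α} {M : Finset (Finset α)} :
    M ∈ MS V ↔ (∀ T ∈ M, T ⊆ V ∧ T.card = 2) ∧ (M : Set (Finset α)).PairwiseDisjoint id := by
  classical
  unfold MS
  rw [mem_filter, mem_powerset]
  constructor
  · rintro ⟨h1, h2⟩
    exact ⟨fun T hT => mem_powersetCard.1 (h1 hT), h2⟩
  · rintro ⟨h1, h2⟩
    exact ⟨fun T hT => mem_powersetCard.2 (h1 T hT), h2⟩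

/-- the signed matching polynomial of `V` with the weights `A` -/
noncomputable def mp (A : Finset α → ℤ) (V : Finset α) : ℤ[X] :=
  ∑ M ∈ MS V, ∏ T ∈ M, (C (A T) * X)

variable {A : Finset α → ℤ} {V W : Finset α} {v : α}

lemma MS_empty : MS (∅ : Finset α) = {∅} := by
  ext M
  rw [mem_MS, mem_singleton]
  constructor
  · rintro ⟨h, _⟩
    rw [eq_empty_iff_forall_notMem]
    intro T hT
    have h1 := (h T hT).1
    have h2 := (h T hT).2
    rw [subset_empty] at h1
    rw [h1] at h2
    simp at h2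
  · rintro rfl
    simp

@[simp] lemma mp_empty : mp A ∅ = 1 := by
  unfold mp
  rw [MS_empty, sum_singleton, prod_empty]

lemma MS_filter (hv : v ∉ V) : (MS (insert v V)).filter (fun M => ∀ T ∈ M, v ∉ T) = MS V := by
  ext M
  rw [mem_filter, mem_MS, mem_MS]
  constructor
  · rintro ⟨⟨h1, h2⟩, h3⟩
    refine ⟨fun T hT => ⟨?_, (h1 T hT).2⟩, h2⟩
    intro x hx
    rcases mem_insert.1 ((h1 T hT).1 hx) with rfl | h
    · exact absurd hx (h3 T hT)
    · exact h
  · rintro ⟨h1, h2⟩
    refine ⟨⟨fun T hT => ⟨(h1 T hT).1.trans (subset_insert _ _), (h1 T hT).2⟩, h2⟩, ?_⟩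
    intro T hT hvT
    exact hv ((h1 T hT).1 hvT)

/-- recursion at a vertex -/
theorem mp_insert (A : Finset α → ℤ) (hv : v ∉ V) :
    mp A (insert v V) = mp A V + ∑ u ∈ V, C (A {v, u}) * X * mp A (V.erase u) := by
  classical
  unfold mp
  rw [← sum_filter_add_sum_filter_not (MS (insert v V)) (fun M => ∀ T ∈ M, v ∉ T)]
  congr 1
  · rw [MS_filter hv]
  · simp_rw [mul_sum]
    rw [sum_sigma']
    symm
    have hnot : ∀ u ∈ V, ∀ M ∈ MS (V.erase u), ({v, u} : Finset α) ∉ M := by
      intro u hu M hM h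
      have h1 := ((mem_MS.1 hM).1 _ h).1 (mem_insert_self v {u})
      exact hv (mem_of_mem_erase h1)
    refine Finset.sum_nbij (fun p => insert ({v, p.1} : Finset α) p.2) ?_ ?_ ?_ ?_
    · rintro ⟨u, M⟩ hp
      rw [mem_sigma] at hp
      obtain ⟨hu, hM⟩ := hp
      simp only at hu hM
      show insert ({v, u} : Finset α) M ∈ _
      rw [mem_filter, mem_MS]
      have hM' := mem_MS.1 hM
      have hvu : v ≠ u := fun h => hv (h ▸ hu)
      refine ⟨⟨?_, ?_⟩, ?_⟩
      · intro T hT
        rcases mem_insert.1 hT with rfl | hT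
        · refine ⟨?_, card_pair hvu⟩
          intro x hx
          rcases mem_insert.1 hx with rfl | hx
          · exact mem_insert_self _ _
          · rw [mem_singleton.1 hx]
            exact mem_insert_of_mem hu
        · refine ⟨((hM'.1 T hT).1.trans (erase_subset _ _)).trans (subset_insert _ _),
            (hM'.1 T hT).2⟩
      · rw [coe_insert]
        refine hM'.2.insert ?_
        intro T hT _
        show Disjoint ({v, u} : Finset α) T
        rw [disjoint_left]
        intro x hx hxT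
        have h3 := (hM'.1 T hT).1 hxT
        rcases mem_insert.1 hx with rfl | hx
        · exact hv (mem_of_mem_erase h3)
        · rw [mem_singleton.1 hx] at h3
          exact (notMem_erase u V) h3
      · intro h
        exact h _ (mem_insert_self _ _) (mem_insert_self _ _)
    · rintro ⟨u, M⟩ hp ⟨u', M'⟩ hq h
      rw [mem_coe, mem_sigma] at hp hq
      obtain ⟨hu, hM⟩ := hp
      obtain ⟨hu', hM'⟩ := hq
      simp only at hu hM hu' hM' h
      have hvu : v ≠ u := fun h => hv (h ▸ hu)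
      have h1 : ({v, u} : Finset α) ∈ insert ({v, u'} : Finset α) M' := by
        rw [← h]
        exact mem_insert_self _ _
      have h2 : ({v, u} : Finset α) = {v, u'} := by
        rcases mem_insert.1 h1 with h3 | h3
        · exact h3
        · exact absurd (((mem_MS.1 hM').1 _ h3).1 (mem_insert_self v {u}))
            (fun h4 => hv (mem_of_mem_erase h4))
      have h3 : u = u' := by
        have h4 : u ∈ ({v, u'} : Finset α) := by
          rw [← h2]
          exact mem_insert_of_mem (mem_singleton_self u)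
        rcases mem_insert.1 h4 with h5 | h5
        · exact absurd h5.symm hvu
        · exact mem_singleton.1 h5
      subst h3
      have h4 : M = M' := by
        rw [← erase_insert (hnot u hu M hM), ← erase_insert (hnot u hu' M' hM'), h]
      rw [h4]
    · intro M hM
      rw [mem_coe, mem_filter, mem_MS] at hM
      obtain ⟨⟨h1, h2⟩, h3⟩ := hM
      push Not at h3
      obtain ⟨T, hT, hvT⟩ := h3
      obtain ⟨hTV, hT2⟩ := h1 T hT
      have h4 : (T.erase v).card = 1 := by rw [card_erase_of_mem hvT, hT2]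
      obtain ⟨u, hu⟩ := card_eq_one.1 h4
      have hTe : T = {v, u} := by
        rw [← insert_erase hvT, hu]
      have huT : u ∈ T.erase v := by
        rw [hu]
        exact mem_singleton_self u
      have huV : u ∈ V := by
        rcases mem_insert.1 (hTV (mem_of_mem_erase huT)) with h5 | h5
        · exact absurd h5 (ne_of_mem_erase huT)
        · exact h5
      refine ⟨⟨u, M.erase T⟩, ?_, ?_⟩
      · rw [mem_coe, mem_sigma]
        refine ⟨huV, mem_MS.2 ⟨?_, ?_⟩⟩
        · intro S hS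
          rw [mem_erase] at hS
          refine ⟨?_, (h1 S hS.2).2⟩
          have hd : Disjoint S T := h2 (mem_coe.2 hS.2) (mem_coe.2 hT) hS.1
          intro x hx
          have h6 : x ∉ T := disjoint_left.1 hd hx
          rw [mem_erase]
          refine ⟨?_, ?_⟩
          · rintro rfl
            exact h6 (mem_of_mem_erase huT)
          · rcases mem_insert.1 ((h1 S hS.2).1 hx) with rfl | h7
            · exact absurd hvT h6
            · exact h7
        · intro a ha b hb hab
          rw [mem_coe, mem_erase] at ha hb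
          exact h2 (mem_coe.2 ha.2) (mem_coe.2 hb.2) hab
      · show insert ({v, u} : Finset α) (M.erase T) = M
        rw [← hTe, insert_erase hT]
    · rintro ⟨u, M⟩ hp
      rw [mem_sigma] at hp
      obtain ⟨hu, hM⟩ := hp
      simp only at hu hM
      show C (A {v, u}) * X * ∏ T ∈ M, (C (A T) * X) = ∏ T ∈ insert ({v, u} : Finset α) M, _
      rw [prod_insert (hnot u hu M hM)]

lemma mp_singleton : mp A {v} = 1 := by
  have h := mp_insert A (V := ∅) (v := v) (by simp)
  rw [show (insert v ∅ : Finset α) = {v} from rfl] at h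
  rw [h]
  simp

/-- an isolated vertex can be removed -/
lemma mp_isol (hv : v ∉ V) (h : ∀ u ∈ V, A {v, u} = 0) : mp A (insert v V) = mp A V := by
  rw [mp_insert A hv]
  have h1 : ∑ u ∈ V, C (A {v, u}) * X * mp A (V.erase u) = 0 := by
    refine sum_eq_zero (fun u hu => ?_)
    rw [h u hu]
    simp
  rw [h1, add_zero]

/-- the polynomial of a disjoint union without crossing weights is a product -/
theorem mp_union (hVW : Disjoint V W) (h : ∀ u ∈ V, ∀ w ∈ W, A {u, w} = 0) :
    mp A (V ∪ W) = mp A V * mp A W := by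
  suffices H : ∀ n, ∀ V : Finset α, V.card ≤ n → Disjoint V W → (∀ u ∈ V, ∀ w ∈ W, A {u, w} = 0) →
      mp A (V ∪ W) = mp A V * mp A W from H _ V le_rfl hVW h
  intro n
  induction n with
  | zero =>
    intro V hV _ _
    rw [Nat.le_zero, card_eq_zero] at hV
    rw [hV, empty_union, mp_empty, one_mul]
  | succ n ih =>
    intro V hV hd h
    by_cases hV0 : V = ∅
    · rw [hV0, empty_union, mp_empty, one_mul]
    · obtain ⟨v, hv⟩ := nonempty_iff_ne_empty.2 hV0
      have hVi : V = insert v (V.erase v) := (insert_erase hv).symm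
      set V' := V.erase v with hV'
      have hvV' : v ∉ V' := notMem_erase v V
      have hcard : V'.card ≤ n := by
        rw [hV', card_erase_of_mem hv]
        omega
      have hd' : Disjoint V' W := disjoint_of_subset_left (erase_subset _ _) hd
      have hvW : v ∉ W := disjoint_left.1 hd hv
      have h' : ∀ u ∈ V', ∀ w ∈ W, A {u, w} = 0 := fun u hu w hw => h u (mem_of_mem_erase hu) w hw
      have e1 : V ∪ W = insert v (V' ∪ W) := by rw [← insert_union, ← hVi]
      have hvU : v ∉ V' ∪ W := by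
        rw [mem_union]
        exact fun h => h.elim hvV' hvW
      rw [e1, mp_insert A hvU, ih V' hcard hd' h']
      rw [sum_union hd']
      have e2 : ∑ u ∈ W, C (A {v, u}) * X * mp A ((V' ∪ W).erase u) = 0 := by
        refine sum_eq_zero (fun u hu => ?_)
        rw [h v hv u hu]
        simp
      have e3 : ∀ u ∈ V', mp A ((V' ∪ W).erase u) = mp A (V'.erase u) * mp A W := by
        intro u hu
        have huW : u ∉ W := disjoint_left.1 hd' hu
        have e4 : (V' ∪ W).erase u = V'.erase u ∪ W := by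
          rw [erase_union_distrib, erase_eq_of_notMem huW]
        rw [e4]
        refine ih _ ?_ (disjoint_of_subset_left (erase_subset _ _) hd')
          (fun a ha w hw => h' a (mem_of_mem_erase ha) w hw)
        exact (card_le_card (erase_subset _ _)).trans hcard
      have e5 : mp A V = mp A V' + ∑ u ∈ V', C (A {v, u}) * X * mp A (V'.erase u) := by
        rw [← mp_insert A hvV', ← hVi]
      have e6 : ∑ u ∈ V', C (A {v, u}) * X * mp A ((V' ∪ W).erase u) =
          ∑ u ∈ V', (C (A {v, u}) * X * mp A (V'.erase u)) * mp A W := by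
        refine sum_congr rfl (fun u hu => ?_)
        rw [e3 u hu, ← mul_assoc]
      rw [e2, add_zero, e5, add_mul, sum_mul, e6]

/-- product over a family of disjoint sets without crossing weights -/
theorem mp_biUnion {ι : Type*} [DecidableEq ι] (I : Finset ι) (W : ι → Finset α)
    (hd : ∀ i ∈ I, ∀ j ∈ I, i ≠ j → Disjoint (W i) (W j))
    (h : ∀ i ∈ I, ∀ j ∈ I, i ≠ j → ∀ u ∈ W i, ∀ w ∈ W j, A {u, w} = 0) :
    mp A (I.biUnion W) = ∏ i ∈ I, mp A (W i) := by
  induction I using Finset.induction_on with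
  | empty => rw [biUnion_empty, mp_empty, prod_empty]
  | insert a s ha ih =>
    have hne : ∀ i ∈ s, a ≠ i := fun i hi h => ha (h ▸ hi)
    rw [biUnion_insert, prod_insert ha, mp_union, ih]
    · exact fun i hi j hj => hd i (mem_insert_of_mem hi) j (mem_insert_of_mem hj)
    · exact fun i hi j hj => h i (mem_insert_of_mem hi) j (mem_insert_of_mem hj)
    · rw [disjoint_biUnion_right]
      exact fun i hi => hd a (mem_insert_self _ _) i (mem_insert_of_mem hi) (hne i hi)
    · intro u hu w hw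
      obtain ⟨i, hi, hwi⟩ := mem_biUnion.1 hw
      exact h a (mem_insert_self _ _) i (mem_insert_of_mem hi) (hne i hi) u hu w hwi

/-- no weights: the polynomial is `1` -/
lemma mp_zero (h : ∀ u ∈ V, ∀ w ∈ V, u ≠ w → A {u, w} = 0) : mp A V = 1 := by
  induction V using Finset.induction_on with
  | empty => exact mp_empty
  | insert a s ha ih =>
    have h1 : ∀ u ∈ s, A {a, u} = 0 := by
      intro u hu
      refine h a (mem_insert_self _ _) u (mem_insert_of_mem hu) ?_
      rintro rfl
      exact ha hu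
    have h2 : mp A s = 1 := ih (fun u hu w hw huw =>
      h u (mem_insert_of_mem hu) w (mem_insert_of_mem hw) huw)
    rw [mp_isol ha h1, h2]

/-- the constant coefficient is `1` -/
lemma coeff_zero_mp : (mp A V).coeff 0 = 1 := by
  unfold mp
  rw [finsetSum_coeff]
  have h1 : ∀ M ∈ MS V, M ≠ ∅ → (∏ T ∈ M, (C (A T) * X)).coeff 0 = 0 := by
    intro M _ hM
    obtain ⟨T, hT⟩ := nonempty_iff_ne_empty.2 hM
    rw [← mul_prod_erase M _ hT, mul_coeff_zero]
    simp
  rw [sum_eq_single ∅]
  · simp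
  · intro M hM hne
    exact h1 M hM hne
  · intro h
    exfalso
    apply h
    rw [mem_MS]
    simp

/-- coefficients: sums over the matchings with `k` edges -/
lemma coeff_mp (k : ℕ) :
    (mp A V).coeff k = ∑ M ∈ (MS V).filter (fun M => M.card = k), ∏ T ∈ M, A T := by
  unfold mp
  rw [finsetSum_coeff, sum_filter]
  refine sum_congr rfl (fun M _ => ?_)
  have h1 : ∏ T ∈ M, (C (A T) * X) = C (∏ T ∈ M, A T) * (X : ℤ[X]) ^ M.card := by
    rw [prod_mul_distrib, prod_const, map_prod]
  rw [h1, coeff_C_mul, coeff_X_pow]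
  by_cases h : M.card = k
  · simp [h]
  · have h' : ¬ k = M.card := fun h2 => h h2.symm
    simp [h, h']

lemma mp_eq_one (h : ∀ k, 1 ≤ k → ∑ M ∈ (MS V).filter (fun M => M.card = k), ∏ T ∈ M, A T = 0) :
    mp A V = 1 := by
  ext k
  rcases Nat.eq_zero_or_pos k with rfl | hk
  · rw [coeff_zero_mp, coeff_one_zero]
  · rw [coeff_mp, h k hk, coeff_one, if_neg (by omega)]

/-- a factor with constant coefficient `1` of a product equal to `1` is `1` -/
lemma eq_one_of_mul {p q : ℤ[X]} (h : p * q = 1) (h0 : p.coeff 0 = 1) : p = 1 := by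
  have hu : IsUnit p := IsUnit.of_mul_eq_one q h
  obtain ⟨c, _, hc⟩ := Polynomial.isUnit_iff.1 hu
  rw [← hc] at h0 ⊢
  rw [coeff_C_zero] at h0
  rw [h0, map_one]

lemma mp_left (hVW : Disjoint V W) (h : ∀ u ∈ V, ∀ w ∈ W, A {u, w} = 0) (h1 : mp A (V ∪ W) = 1) :
    mp A V = 1 :=
  eq_one_of_mul (by rw [← mp_union hVW h, h1]) coeff_zero_mp

/-- the value at `-1` of the polynomial of `V` without the sites of `T` -/
noncomputable def Fm (A : Finset α → ℤ) (V T : Finset α) : ℤ := (mp A (V \ T)).eval (-1)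

end mat

end Pool.Agent.GaussPoset.St

end

/-! From `Pool.Agent.W_448st_h88.MgB` -/

section

/-! Coefficients of signed matching polynomials and the values at `-1` (MP_448cb3_co). -/

namespace Pool.Agent.GaussPoset.St

set_option linter.unusedSectionVars false

open Finset Polynomial

section mat

variable {α : Type*} [DecidableEq α] {A : Finset α → ℤ} {V W : Finset α} {v : α}

/-- ordered sum over the pairs of `V` -/
def P2 (V : Finset α) (g : Finset α → ℤ) : ℤ := ∑ u ∈ V, ∑ w ∈ V.erase u, g {u, w}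

lemma P2_insert (g : Finset α → ℤ) (hv : v ∉ V) :
    P2 (insert v V) g = P2 V g + 2 * ∑ u ∈ V, g {v, u} := by
  unfold P2
  rw [sum_insert hv, erase_insert hv]
  have h1 : ∀ u ∈ V, ∑ w ∈ (insert v V).erase u, g {u, w} = g {v, u} + ∑ w ∈ V.erase u, g {u, w} := by
    intro u hu
    have hvu : v ≠ u := fun h => hv (h ▸ hu)
    have h2 : (insert v V).erase u = insert v (V.erase u) := erase_insert_of_ne hvu
    rw [h2, sum_insert (fun h => hv (mem_of_mem_erase h)), pair_comm u v]
  rw [sum_congr rfl h1, sum_add_distrib]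
  ring

lemma P2_erase (g : Finset α → ℤ) (hv : v ∈ V) :
    P2 V g = P2 (V.erase v) g + 2 * ∑ u ∈ V.erase v, g {v, u} := by
  have h := P2_insert g (notMem_erase v V)
  rwa [insert_erase hv] at h

/-- twice the sum over the pairs is the ordered sum -/
theorem two_mul_pairs (g : Finset α → ℤ) :
    2 * ∑ e ∈ V.powersetCard 2, g e = P2 V g := by
  classical
  have h1 : ∀ u ∈ V, ∑ w ∈ V.erase u, g {u, w} =
      ∑ e ∈ (V.powersetCard 2).filter (fun e => u ∈ e), g e := by
    intro u hu
    refine sum_nbij (fun w => ({u, w} : Finset α)) ?_ ?_ ?_ ?_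
    · intro w hw
      have hw' := mem_erase.1 hw
      rw [mem_filter, mem_powersetCard]
      refine ⟨⟨?_, card_pair (Ne.symm hw'.1)⟩, mem_insert_self _ _⟩
      intro x hx
      rcases mem_insert.1 hx with rfl | hx
      · exact hu
      · rw [mem_singleton.1 hx]
        exact hw'.2
    · intro a ha b hb hab
      have hab' : ({u, a} : Finset α) = {u, b} := hab
      have h2 : a ∈ ({u, b} : Finset α) := by
        rw [← hab']
        exact mem_insert_of_mem (mem_singleton_self a)
      rcases mem_insert.1 h2 with h3 | h3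
      · exact absurd h3 (mem_erase.1 (mem_coe.1 ha)).1
      · exact mem_singleton.1 h3
    · intro e he
      rw [mem_coe, mem_filter, mem_powersetCard] at he
      obtain ⟨⟨he1, he2⟩, he3⟩ := he
      have h4 : (e.erase u).card = 1 := by rw [card_erase_of_mem he3, he2]
      obtain ⟨w, hw⟩ := card_eq_one.1 h4
      have hwe : w ∈ e.erase u := by
        rw [hw]
        exact mem_singleton_self w
      refine ⟨w, ?_, ?_⟩
      · rw [mem_coe, mem_erase]
        exact ⟨ne_of_mem_erase hwe, he1 (mem_of_mem_erase hwe)⟩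
      · show ({u, w} : Finset α) = e
        rw [← insert_erase he3, hw]
    · intro w _
      rfl
  unfold P2
  rw [sum_congr rfl h1]
  have h5 : ∑ u ∈ V, ∑ e ∈ (V.powersetCard 2).filter (fun e => u ∈ e), g e =
      ∑ e ∈ V.powersetCard 2, ∑ u ∈ e, g e := by
    refine sum_comm' ?_
    intro u e
    rw [mem_filter, mem_powersetCard]
    constructor
    · rintro ⟨_, h, h3⟩
      exact ⟨h3, h⟩
    · rintro ⟨h3, h⟩
      exact ⟨h.1 h3, h, h3⟩
  rw [h5, mul_sum]
  refine sum_congr rfl (fun e he => ?_)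
  rw [sum_const, (mem_powersetCard.1 he).2]
  simp

lemma coeff_one_insert (hv : v ∉ V) :
    (mp A (insert v V)).coeff 1 = (mp A V).coeff 1 + ∑ u ∈ V, A {v, u} := by
  rw [mp_insert A hv, coeff_add, finsetSum_coeff]
  congr 1
  refine sum_congr rfl (fun u _ => ?_)
  rw [mul_assoc, coeff_C_mul, coeff_X_mul, coeff_zero_mp, mul_one]

lemma coeff_two_insert (hv : v ∉ V) :
    (mp A (insert v V)).coeff 2 = (mp A V).coeff 2 +
      ∑ u ∈ V, A {v, u} * (mp A (V.erase u)).coeff 1 := by
  rw [mp_insert A hv, coeff_add, finsetSum_coeff]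
  congr 1
  refine sum_congr rfl (fun u _ => ?_)
  rw [mul_assoc, coeff_C_mul, coeff_X_mul]

/-- the first coefficient -/
theorem two_coeff_one (V : Finset α) : 2 * (mp A V).coeff 1 = P2 V A := by
  induction V using Finset.induction_on with
  | empty => simp [P2, coeff_one]
  | insert a s ha ih =>
    rw [coeff_one_insert ha, mul_add, ih, P2_insert A ha]

/-- the weighted degree -/
def dg (A : Finset α → ℤ) (V : Finset α) (u : α) : ℤ := ∑ w ∈ V.erase u, A {u, w}

lemma dg_insert {a u : α} (ha : a ∉ V) (hu : u ∈ V) :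
    dg A (insert a V) u = dg A V u + A {a, u} := by
  unfold dg
  have hau : a ≠ u := fun h => ha (h ▸ hu)
  have h2 : (insert a V).erase u = insert a (V.erase u) := erase_insert_of_ne hau
  rw [h2, sum_insert (fun h => ha (mem_of_mem_erase h)), pair_comm u a]
  ring

/-- the second coefficient -/
theorem eight_coeff_two (V : Finset α) :
    8 * (mp A V).coeff 2 = P2 V A ^ 2 + 2 * P2 V (fun T => A T ^ 2) -
      4 * ∑ u ∈ V, dg A V u ^ 2 := by
  induction V using Finset.induction_on with
  | empty => simp [P2, coeff_one]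
  | insert a s ha ih =>
    rw [coeff_two_insert ha, mul_add, ih, P2_insert A ha, P2_insert _ ha, sum_insert ha]
    have h1 : ∀ u ∈ s, 8 * (A {a, u} * (mp A (s.erase u)).coeff 1) =
        4 * (A {a, u} * P2 s A) - 8 * (A {a, u} * dg A s u) := by
      intro u hu
      have h2 := two_coeff_one (A := A) (s.erase u)
      have h3 := P2_erase A hu
      have h4 : dg A s u = ∑ w ∈ s.erase u, A {u, w} := rfl
      rw [← h4] at h3
      rw [h3]
      linear_combination 4 * A {a, u} * h2
    have h5 : 8 * ∑ u ∈ s, A {a, u} * (mp A (s.erase u)).coeff 1 =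
        4 * (∑ u ∈ s, A {a, u}) * P2 s A - 8 * ∑ u ∈ s, A {a, u} * dg A s u := by
      rw [mul_sum, sum_congr rfl h1, sum_sub_distrib, mul_sum, mul_sum, sum_mul]
      congr 1
      refine sum_congr rfl (fun u _ => ?_)
      ring
    have h6 : ∑ u ∈ s, dg A (insert a s) u ^ 2 =
        ∑ u ∈ s, dg A s u ^ 2 + 2 * ∑ u ∈ s, A {a, u} * dg A s u + ∑ u ∈ s, A {a, u} ^ 2 := by
      rw [mul_sum, ← sum_add_distrib, ← sum_add_distrib]
      refine sum_congr rfl (fun u hu => ?_)
      rw [dg_insert ha hu]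
      ring
    have h7 : dg A (insert a s) a = ∑ u ∈ s, A {a, u} := by
      unfold dg
      rw [erase_insert ha]
    rw [h5, h6, h7]
    ring

/-- consequences of `mp = 1` : the sum of the weights vanishes -/
lemma P2_eq_zero (h : mp A V = 1) : P2 V A = 0 := by
  have h1 := two_coeff_one (A := A) V
  rw [h, coeff_one, if_neg (by norm_num), mul_zero] at h1
  exact h1.symm

/-- consequences of `mp = 1` : sum of the squares of the weights and of the degrees -/
lemma sq_eq (h : mp A V = 1) : 2 * ∑ u ∈ V, dg A V u ^ 2 = P2 V (fun T => A T ^ 2) := by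
  have h1 := eight_coeff_two (A := A) V
  rw [h, coeff_one, if_neg (by norm_num), mul_zero, P2_eq_zero h] at h1
  linarith

end mat

end Pool.Agent.GaussPoset.St

end

/-! From `Pool.Agent.W_448st_h88.MgD` -/

section

/-! Values of the matching polynomials for disjoint stars (MP_448cb3_co). -/

namespace Pool.Agent.GaussPoset.St

set_option linter.unusedSectionVars false

open Finset Polynomial

section star

variable {α : Type*} [DecidableEq α] {A : Finset α → ℤ} {V T : Finset α}

/-- the three sites of a star (centre, new neighbour, lost neighbour) -/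
def sp (d : α × α × α) : Finset α := {d.1, d.2.1, d.2.2}

lemma mem_sp {d : α × α × α} {u : α} : u ∈ sp d ↔ u = d.1 ∨ u = d.2.1 ∨ u = d.2.2 := by
  unfold sp
  rw [mem_insert, mem_insert, mem_singleton]

/-- one star -/
structure Star (A : Finset α → ℤ) (d : α × α × α) : Prop where
  sa : d.1 ≠ d.2.1
  sb : d.1 ≠ d.2.2
  ab : d.2.1 ≠ d.2.2
  Asa : A {d.1, d.2.1} = 1
  Asb : A {d.1, d.2.2} = -1
  Aab : A {d.2.1, d.2.2} = 0

/-- the weights are carried by disjoint stars -/
structure Starry (A : Finset α → ℤ) (V : Finset α) (I : Finset (α × α × α)) : Prop where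
  star : ∀ d ∈ I, Star A d
  sub : ∀ d ∈ I, sp d ⊆ V
  disj : ∀ d ∈ I, ∀ d' ∈ I, d ≠ d' → Disjoint (sp d) (sp d')
  zero : ∀ u ∈ V, ∀ w ∈ V, u ≠ w → (∀ d ∈ I, ¬ (u ∈ sp d ∧ w ∈ sp d)) → A {u, w} = 0

variable {d : α × α × α}

lemma Fm_of_zero (h : ∀ u ∈ V \ T, ∀ w ∈ V \ T, u ≠ w → A {u, w} = 0) : Fm A V T = 1 := by
  unfold Fm
  rw [mp_zero h, eval_one]

lemma mp_two {u w : α} (h : u ≠ w) : mp A {u, w} = 1 + C (A {u, w}) * X := by
  have h1 : u ∉ ({w} : Finset α) := by
    rw [mem_singleton]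
    exact h
  rw [mp_insert A h1, mp_singleton, sum_singleton]
  have h2 : ({w} : Finset α).erase w = ∅ := by simp
  rw [h2, mp_empty, mul_one]

lemma Star.f_s (h : Star A d) (hs : d.1 ∈ T) : Fm A (sp d) T = 1 := by
  refine Fm_of_zero ?_
  intro u hu w hw huw
  rw [mem_sdiff, mem_sp] at hu hw
  have hu1 : u ≠ d.1 := fun h => hu.2 (h ▸ hs)
  have hw1 : w ≠ d.1 := fun h => hw.2 (h ▸ hs)
  have hu2 := hu.1.resolve_left hu1
  have hw2 := hw.1.resolve_left hw1
  rcases hu2 with rfl | rfl <;> rcases hw2 with rfl | rfl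
  · exact absurd rfl huw
  · exact h.Aab
  · rw [pair_comm]
    exact h.Aab
  · exact absurd rfl huw

lemma Star.f_ab (_h : Star A d) (ha : d.2.1 ∈ T) (hb : d.2.2 ∈ T) : Fm A (sp d) T = 1 := by
  refine Fm_of_zero ?_
  intro u hu w hw huw
  rw [mem_sdiff, mem_sp] at hu hw
  have hu1 : u = d.1 := by
    rcases hu.1 with h | h | h
    · exact h
    · exact absurd (h ▸ ha) hu.2
    · exact absurd (h ▸ hb) hu.2
  have hw1 : w = d.1 := by
    rcases hw.1 with h | h | h
    · exact h
    · exact absurd (h ▸ ha) hw.2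
    · exact absurd (h ▸ hb) hw.2
  exact absurd (hu1.trans hw1.symm) huw

lemma Star.f_a (h : Star A d) (hs : d.1 ∉ T) (ha : d.2.1 ∈ T) (hb : d.2.2 ∉ T) :
    Fm A (sp d) T = 2 := by
  have h1 : sp d \ T = {d.1, d.2.2} := by
    ext u
    rw [mem_sdiff, mem_sp, mem_insert, mem_singleton]
    constructor
    · rintro ⟨h1 | h1 | h1, h2⟩
      · exact Or.inl h1
      · exact absurd (h1 ▸ ha) h2
      · exact Or.inr h1
    · rintro (h1 | h1)
      · exact ⟨Or.inl h1, h1 ▸ hs⟩
      · exact ⟨Or.inr (Or.inr h1), h1 ▸ hb⟩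
  unfold Fm
  rw [h1, mp_two h.sb, h.Asb, eval_add, eval_mul, eval_one, eval_C, eval_X]
  norm_num

lemma Star.f_b (h : Star A d) (hs : d.1 ∉ T) (ha : d.2.1 ∉ T) (hb : d.2.2 ∈ T) :
    Fm A (sp d) T = 0 := by
  have h1 : sp d \ T = {d.1, d.2.1} := by
    ext u
    rw [mem_sdiff, mem_sp, mem_insert, mem_singleton]
    constructor
    · rintro ⟨h1 | h1 | h1, h2⟩
      · exact Or.inl h1
      · exact Or.inr h1
      · exact absurd (h1 ▸ hb) h2
    · rintro (h1 | h1)
      · exact ⟨Or.inl h1, h1 ▸ hs⟩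
      · exact ⟨Or.inr (Or.inl h1), h1 ▸ ha⟩
  unfold Fm
  rw [h1, mp_two h.sa, h.Asa, eval_add, eval_mul, eval_one, eval_C, eval_X]
  norm_num

lemma Star.mp_one (h : Star A d) : mp A (sp d) = 1 := by
  have h1 : d.1 ∉ ({d.2.1, d.2.2} : Finset α) := by
    rw [mem_insert, mem_singleton, not_or]
    exact ⟨h.sa, h.sb⟩
  have h2 : ({d.2.1, d.2.2} : Finset α).erase d.2.1 = {d.2.2} := by
    rw [erase_insert]
    rw [mem_singleton]
    exact h.ab
  have h3 : ({d.2.1, d.2.2} : Finset α).erase d.2.2 = {d.2.1} := by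
    rw [pair_comm, erase_insert]
    rw [mem_singleton]
    exact h.ab.symm
  have h4 : sp d = insert d.1 {d.2.1, d.2.2} := rfl
  rw [h4, mp_insert A h1, mp_two h.ab, sum_pair h.ab, h2, h3, mp_singleton, mp_singleton, h.Asa,
    h.Asb, h.Aab]
  simp

lemma Star.f_none (h : Star A d) (hT : ∀ u ∈ T, u ∉ sp d) : Fm A (sp d) T = 1 := by
  unfold Fm
  have h1 : sp d \ T = sp d := by
    rw [Finset.sdiff_eq_self_iff_disjoint, disjoint_left]
    exact fun u hu hu' => hT u hu' hu
  rw [h1, h.mp_one, eval_one]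

/-- sign of a site for a star -/
def ep (d : α × α × α) (u : α) : ℤ := (if u = d.2.1 then 1 else 0) - (if u = d.2.2 then 1 else 0)

lemma ep_eq_zero {u : α} (h : u ∉ sp d) : ep d u = 0 := by
  rw [mem_sp, not_or, not_or] at h
  unfold ep
  rw [if_neg h.2.1, if_neg h.2.2, sub_zero]

lemma Star.f_one (h : Star A d) (u : α) : Fm A (sp d) {u} = 1 + ep d u := by
  by_cases h1 : u = d.1
  · rw [h.f_s (by rw [h1]; exact mem_singleton_self _)]
    unfold ep
    rw [h1, if_neg h.sa, if_neg h.sb]
    norm_num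
  · by_cases h2 : u = d.2.1
    · rw [h.f_a]
      · unfold ep
        rw [if_pos h2, if_neg (h2 ▸ h.ab)]
        norm_num
      · rw [mem_singleton]
        exact fun h3 => h1 h3.symm
      · rw [h2]
        exact mem_singleton_self _
      · rw [mem_singleton, h2]
        exact fun h3 => h.ab h3.symm
    · by_cases h3 : u = d.2.2
      · rw [h.f_b]
        · unfold ep
          rw [if_neg h2, if_pos h3]
          norm_num
        · rw [mem_singleton]
          exact fun h4 => h1 h4.symm
        · rw [mem_singleton]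
          exact fun h4 => h2 h4.symm
        · rw [h3]
          exact mem_singleton_self _
      · have h4 : u ∉ sp d := by
          rw [mem_sp]
          tauto
        rw [h.f_none, ep_eq_zero h4, add_zero]
        intro w hw
        rw [mem_singleton.1 hw]
        exact h4

/-- two different sites of one star -/
lemma Star.f_two (h : Star A d) {u w : α} (hu : u ∈ sp d) (hw : w ∈ sp d) (huw : u ≠ w) :
    Fm A (sp d) {u, w} = 1 := by
  rw [mem_sp] at hu hw
  rcases hu with rfl | rfl | rfl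
  · exact h.f_s (mem_insert_self _ _)
  · rcases hw with rfl | rfl | rfl
    · exact h.f_s (mem_insert_of_mem (mem_singleton_self _))
    · exact absurd rfl huw
    · exact h.f_ab (mem_insert_self _ _) (mem_insert_of_mem (mem_singleton_self _))
  · rcases hw with rfl | rfl | rfl
    · exact h.f_s (mem_insert_of_mem (mem_singleton_self _))
    · exact h.f_ab (mem_insert_of_mem (mem_singleton_self _)) (mem_insert_self _ _)
    · exact absurd rfl huw

variable {I : Finset (α × α × α)}

/-- the polynomial without `T` is a product over the stars -/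
theorem Starry.prod (H : Starry A V I) (T : Finset α) :
    Fm A V T = ∏ d ∈ I, Fm A (sp d) T := by
  classical
  have h1 : V \ T = (I.biUnion (fun d => sp d \ T)) ∪ ((V \ I.biUnion sp) \ T) := by
    ext u
    simp only [mem_union, mem_biUnion, mem_sdiff, not_exists, not_and]
    constructor
    · rintro ⟨h1, h2⟩
      by_cases h3 : ∃ d ∈ I, u ∈ sp d
      · obtain ⟨d, hd, hu⟩ := h3
        exact Or.inl ⟨d, hd, hu, h2⟩
      · exact Or.inr ⟨⟨h1, fun d hd hu => h3 ⟨d, hd, hu⟩⟩, h2⟩
    · rintro (⟨d, hd, hu, h2⟩ | ⟨⟨h1, _⟩, h2⟩)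
      · exact ⟨H.sub d hd hu, h2⟩
      · exact ⟨h1, h2⟩
  have h2 : mp A (I.biUnion (fun d => sp d \ T)) = ∏ d ∈ I, mp A (sp d \ T) := by
    refine mp_biUnion I (fun d => sp d \ T) ?_ ?_
    · intro i hi j hj hij
      exact disjoint_of_subset_left sdiff_subset
        (disjoint_of_subset_right sdiff_subset (H.disj i hi j hj hij))
    · intro i hi j hj hij u hu w hw
      have hu' := (mem_sdiff.1 hu).1
      have hw' := (mem_sdiff.1 hw).1
      have hd := H.disj i hi j hj hij
      refine H.zero u (H.sub i hi hu') w (H.sub j hj hw') ?_ ?_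
      · rintro rfl
        exact disjoint_left.1 hd hu' hw'
      · rintro d hd' ⟨h3, h4⟩
        by_cases h5 : d = i
        · subst h5
          exact disjoint_left.1 hd h4 hw'
        · exact disjoint_left.1 (H.disj d hd' i hi h5) h3 hu'
  have h3 : mp A ((V \ I.biUnion sp) \ T) = 1 := by
    refine mp_zero ?_
    intro u hu w hw huw
    have hu' := mem_sdiff.1 (mem_sdiff.1 hu).1
    have hw' := mem_sdiff.1 (mem_sdiff.1 hw).1
    refine H.zero u hu'.1 w hw'.1 huw ?_
    rintro d hd ⟨h4, _⟩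
    exact hu'.2 (mem_biUnion.2 ⟨d, hd, h4⟩)
  unfold Fm
  rw [h1, mp_union, h2, h3, mul_one, eval_prod]
  · rw [disjoint_left]
    intro u hu hu'
    obtain ⟨d, hd, h4⟩ := mem_biUnion.1 hu
    exact (mem_sdiff.1 (mem_sdiff.1 hu').1).2 (mem_biUnion.2 ⟨d, hd, (mem_sdiff.1 h4).1⟩)
  · intro u hu w hw
    obtain ⟨d, hd, h4⟩ := mem_biUnion.1 hu
    have h5 := (mem_sdiff.1 h4).1
    have hw' := mem_sdiff.1 (mem_sdiff.1 hw).1
    refine H.zero u (H.sub d hd h5) w hw'.1 ?_ ?_
    · rintro rfl
      exact hw'.2 (mem_biUnion.2 ⟨d, hd, h5⟩)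
    · rintro d' hd' ⟨_, h6⟩
      exact hw'.2 (mem_biUnion.2 ⟨d', hd', h6⟩)

/-- the sign of a site -/
def eps (I : Finset (α × α × α)) (u : α) : ℤ := ∑ d ∈ I, ep d u

lemma Starry.F_one (H : Starry A V I) (u : α) : Fm A V {u} = 1 + eps I u := by
  rw [H.prod]
  unfold eps
  by_cases h : ∃ d ∈ I, u ∈ sp d
  · obtain ⟨d, hd, hu⟩ := h
    have h1 : ∀ d' ∈ I, d' ≠ d → u ∉ sp d' := fun d' hd' hne hu' =>
      disjoint_left.1 (H.disj d' hd' d hd hne) hu' hu
    rw [prod_eq_single d, sum_eq_single d, (H.star d hd).f_one]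
    · exact fun d' hd' hne => ep_eq_zero (h1 d' hd' hne)
    · exact fun h2 => absurd hd h2
    · intro d' hd' hne
      rw [(H.star d' hd').f_one, ep_eq_zero (h1 d' hd' hne), add_zero]
    · exact fun h2 => absurd hd h2
  · have h1 : ∀ d ∈ I, u ∉ sp d := fun d hd hu => h ⟨d, hd, hu⟩
    rw [prod_eq_one, sum_eq_zero, add_zero]
    · exact fun d hd => ep_eq_zero (h1 d hd)
    · intro d hd
      rw [(H.star d hd).f_one, ep_eq_zero (h1 d hd), add_zero]

lemma Starry.F_loc (H : Starry A V I) (hd : d ∈ I) (hT : T ⊆ sp d) :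
    Fm A V T = Fm A (sp d) T := by
  rw [H.prod, prod_eq_single d]
  · intro d' hd' hne
    refine (H.star d' hd').f_none ?_
    intro u hu hu'
    exact disjoint_left.1 (H.disj d' hd' d hd hne) hu' (hT hu)
  · exact fun h => absurd hd h

lemma Starry.F_two (H : Starry A V I) {u w : α} (hd : d ∈ I) (hu : u ∈ sp d) (hw : w ∈ sp d)
    (huw : u ≠ w) : Fm A V {u, w} = 1 := by
  rw [H.F_loc hd, (H.star d hd).f_two hu hw huw]
  intro x hx
  rcases mem_insert.1 hx with rfl | hx
  · exact hu
  · rw [mem_singleton.1 hx]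
    exact hw

end star

end Pool.Agent.GaussPoset.St

end

/-! From `Pool.Agent.W_448i2_h61.IA` -/

section

/-!
(I2) for Gaussian posets (MP_448cb3_co), row 431: the counting on one side of a window.
`c z` are the covers of `z` towards the window, `c' z` those away from it, `t` is the distance.
-/

namespace Pool.Agent.GaussPoset.Win.I2

set_option linter.unusedSectionVars false

open Finset

universe u

variable {P : Type u} [DecidableEq P]

/-- one side of a window -/
structure Side (c c' : P → Finset P) (t : P → ℕ) (V Sd : Finset P) : Prop where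
  dual : ∀ x y, y ∈ c x ↔ x ∈ c' y
  c2 : ∀ x, (c x).card ≤ 2
  c2' : ∀ x, (c' x).card ≤ 2
  ne : ∀ x ∈ Sd, (c x).Nonempty
  tS : ∀ x ∈ Sd, 1 ≤ t x
  tV : ∀ x ∈ V, t x = 0
  cin : ∀ x ∈ Sd, ∀ y ∈ c x, (y ∈ Sd ∨ y ∈ V) ∧ t x = t y + 1
  cout : ∀ y, (y ∈ Sd ∨ y ∈ V) → ∀ x ∈ c' y, x ∈ Sd
  good : ∀ z ∈ Sd, t z = 2 → ∀ y ∈ c z, ∀ y' ∈ c z, y ≠ y' → ∃ x, x ∈ c y ∧ x ∈ c y'

/-- `a` is killed: some element away from the window has a larger label -/
def kd (c' : P → Finset P) (e : P → ℕ) (a : P) : Prop := ∃ z ∈ c' a, e a < e z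

/-- some element towards the window has a label at least as large -/
def gu (c : P → Finset P) (e : P → ℕ) (z : P) : Prop := ∃ a ∈ c z, e z ≤ e a

/-- `z` kills an element -/
def kl (c : P → Finset P) (e : P → ℕ) (z : P) : Prop := ∃ a ∈ c z, e a < e z

/-- the elements killed by `z` -/
def kn (c : P → Finset P) (e : P → ℕ) (z : P) : Finset P := (c z).filter (fun a => e a < e z)

/-- the killers of `a` -/
def kr (c' : P → Finset P) (e : P → ℕ) (a : P) : Finset P := (c' a).filter (fun z => e a < e z)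

/-- the elements killed by `z` only -/
def so (c c' : P → Finset P) (e : P → ℕ) (z : P) : Finset P :=
  (kn c e z).filter (fun a => (kr c' e a).card = 1)

open Classical in
/-- the charge of a killer -/
noncomputable def cc (c c' : P → Finset P) (e : P → ℕ) (z : P) : ℤ :=
  (kn c e z).card + (so c c' e z).card + (if gu c e z then 2 else 0) - 2

open Classical in
/-- the surplus of an element -/
noncomputable def sur (c c' : P → Finset P) (e : P → ℕ) (z : P) : ℤ :=
  (e z : ℤ) - (if kl c e z then cc c c' e z else 0)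

open Classical in
/-- free elements of the side -/
noncomputable def fr (c c' : P → Finset P) (e : P → ℕ) (Sd : Finset P) : Finset P :=
  Sd.filter (fun z => ¬ kd c' e z ∧ ¬ gu c e z)

open Classical in
/-- killers of the side -/
noncomputable def KK (c : P → Finset P) (e : P → ℕ) (Sd : Finset P) : Finset P :=
  Sd.filter (fun z => kl c e z)

open Classical in
/-- killed elements of a set -/
noncomputable def KD (c' : P → Finset P) (e : P → ℕ) (S : Finset P) : Finset P :=
  S.filter (fun a => kd c' e a)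

open Classical in
/-- bad elements: label one, next to the window, charge two -/
noncomputable def bd (c c' : P → Finset P) (e : P → ℕ) (t : P → ℕ) (Sd : Finset P) : Finset P :=
  Sd.filter (fun z => t z = 1 ∧ e z = 1 ∧ kl c e z ∧ cc c c' e z = 2)

variable {c c' : P → Finset P} {e : P → ℕ} {t : P → ℕ} {V Sd : Finset P}

lemma mem_kn {z a : P} : a ∈ kn c e z ↔ a ∈ c z ∧ e a < e z := by unfold kn; rw [mem_filter]

lemma mem_kr {z a : P} : z ∈ kr c' e a ↔ z ∈ c' a ∧ e a < e z := by unfold kr; rw [mem_filter]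

lemma mem_so {z a : P} : a ∈ so c c' e z ↔ (a ∈ c z ∧ e a < e z) ∧ (kr c' e a).card = 1 := by
  unfold so; rw [mem_filter, mem_kn]

lemma kd_iff {a : P} : kd c' e a ↔ (kr c' e a).Nonempty := by
  unfold kd Finset.Nonempty
  simp only [mem_kr]

lemma kl_iff {z : P} : kl c e z ↔ (kn c e z).Nonempty := by
  unfold kl Finset.Nonempty
  simp only [mem_kn]

/-- a killed element of the side is a killer of all its covers towards the window -/
lemma not_gu_of_kd (adm : ∀ z ∈ Sd, ¬ (kd c' e z ∧ gu c e z)) {z : P} (hz : z ∈ Sd)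
    (h : kd c' e z) : ∀ a ∈ c z, e a < e z := by
  intro a ha
  by_contra h2
  exact adm z hz ⟨h, a, ha, by omega⟩

lemma kl_of_not_gu (S : Side c c' t V Sd) {z : P} (hz : z ∈ Sd) (h : ¬ gu c e z) :
    kl c e z := by
  obtain ⟨a, ha⟩ := S.ne z hz
  refine ⟨a, ha, ?_⟩
  by_contra h2
  exact h ⟨a, ha, by omega⟩

open Classical in
/-- the killers are the free elements, the killed ones and those with a cover which is not killed -/
lemma card_KK (S : Side c c' t V Sd) (adm : ∀ z ∈ Sd, ¬ (kd c' e z ∧ gu c e z)) :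
    (KK c e Sd).card = (fr c c' e Sd).card + (KD c' e Sd).card +
      ((KK c e Sd).filter (fun z => gu c e z)).card := by
  have h1 : KK c e Sd = (fr c c' e Sd ∪ KD c' e Sd) ∪ (KK c e Sd).filter (fun z => gu c e z) := by
    ext z
    unfold KK fr KD
    simp only [mem_filter, mem_union]
    constructor
    · rintro ⟨hz, hk⟩
      by_cases h1 : gu c e z
      · exact Or.inr ⟨⟨hz, hk⟩, h1⟩
      · by_cases h2 : kd c' e z
        · exact Or.inl (Or.inr ⟨hz, h2⟩)
        · exact Or.inl (Or.inl ⟨hz, h2, h1⟩)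
    · rintro ((⟨hz, h1, h2⟩ | ⟨hz, h1⟩) | ⟨h, -⟩)
      · exact ⟨hz, kl_of_not_gu S hz h2⟩
      · refine ⟨hz, kl_of_not_gu S hz (fun h2 => adm z hz ⟨h1, h2⟩)⟩
      · exact h
  conv_lhs => rw [h1]
  rw [card_union_of_disjoint, card_union_of_disjoint]
  · rw [disjoint_left]
    intro z hz hz'
    unfold fr at hz
    unfold KD at hz'
    rw [mem_filter] at hz hz'
    exact hz.2.1 hz'.2
  · rw [disjoint_left]
    intro z hz hz'
    rw [mem_filter] at hz'
    rw [mem_union] at hz
    unfold fr KD at hz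
    rw [mem_filter, mem_filter] at hz
    rcases hz with hz | hz
    · exact hz.2.2 hz'.2
    · exact adm z hz.1 ⟨hz.2, hz'.2⟩

open Classical in
/-- double counting of the pairs (killer, killed) with a condition on the killed element -/
lemma double_count (S : Side c c' t V Sd) (q : P → Prop) :
    ∑ a ∈ KD c' e (Sd ∪ V), (if q a then (kr c' e a).card else 0) =
      ∑ z ∈ KK c e Sd, ((kn c e z).filter q).card := by
  have h1 : ∀ z ∈ KK c e Sd, ((kn c e z).filter q).card =
      ∑ a ∈ KD c' e (Sd ∪ V), if (z ∈ kr c' e a ∧ q a) then 1 else 0 := by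
    intro z hz
    rw [← Finset.card_filter]
    congr 1
    ext a
    simp only [mem_filter, mem_kn, mem_kr]
    unfold KK at hz
    rw [mem_filter] at hz
    constructor
    · rintro ⟨⟨h1, h2⟩, h3⟩
      refine ⟨?_, ⟨(S.dual z a).1 h1, h2⟩, h3⟩
      unfold KD
      rw [mem_filter, mem_union]
      exact ⟨(S.cin z hz.1 a h1).1, z, (S.dual z a).1 h1, h2⟩
    · rintro ⟨-, ⟨h1, h2⟩, h3⟩
      exact ⟨⟨(S.dual z a).2 h1, h2⟩, h3⟩
  rw [Finset.sum_congr rfl h1, Finset.sum_comm]
  refine Finset.sum_congr rfl fun a ha => ?_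
  by_cases hq : q a
  · rw [if_pos hq, ← Finset.card_filter]
    congr 1
    ext z
    simp only [mem_filter, hq, and_true]
    constructor
    · intro h
      refine ⟨?_, h⟩
      rw [mem_kr] at h
      unfold KD at ha
      rw [mem_filter, mem_union] at ha
      unfold KK
      rw [mem_filter]
      exact ⟨S.cout a ha.1 z h.1, a, (S.dual z a).2 h.1, h.2⟩
    · exact fun h => h.2
  · simp [hq]

open Classical in
/-- twice the number of killed elements -/
lemma two_card_KD (S : Side c c' t V Sd) :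
    2 * (KD c' e (Sd ∪ V)).card =
      ∑ z ∈ KK c e Sd, ((kn c e z).card + (so c c' e z).card) := by
  have h1 := double_count (e := e) S (fun _ => True)
  have h2 := double_count (e := e) S (fun a => (kr c' e a).card = 1)
  simp only [if_true, Finset.filter_true] at h1
  rw [Finset.sum_add_distrib, ← h1]
  have h3 : ∑ z ∈ KK c e Sd, (so c c' e z).card =
      ∑ a ∈ KD c' e (Sd ∪ V), (if (kr c' e a).card = 1 then (kr c' e a).card else 0) := by
    refine Eq.trans ?_ (h2.symm.trans ?_)
    · refine Finset.sum_congr rfl fun z _ => ?_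
      unfold so
      congr
    · refine Finset.sum_congr rfl fun a _ => ?_
      split_ifs <;> rfl
  rw [h3, ← Finset.sum_add_distrib, mul_comm, ← smul_eq_mul, ← Finset.sum_const]
  refine Finset.sum_congr rfl fun a ha => ?_
  unfold KD at ha
  rw [mem_filter, kd_iff, ← Finset.card_pos] at ha
  have h4 : (kr c' e a).card ≤ 2 := (Finset.card_filter_le _ _).trans (S.c2' a)
  split_ifs with h5
  · omega
  · omega

lemma card_KD_union (S : Side c c' t V Sd) :
    (KD c' e (Sd ∪ V)).card = (KD c' e Sd).card + (KD c' e V).card := by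
  classical
  unfold KD
  rw [filter_union, card_union_of_disjoint]
  rw [disjoint_left]
  intro x hx hx'
  rw [mem_filter] at hx hx'
  have := S.tS x hx.1
  have := S.tV x hx'.1
  omega

/-- the number of killed sites minus the number of free elements, as a sum of charges -/
theorem sum_cc (S : Side c c' t V Sd) (adm : ∀ z ∈ Sd, ¬ (kd c' e z ∧ gu c e z)) :
    ∑ z ∈ KK c e Sd, cc c c' e z =
      2 * ((KD c' e V).card : ℤ) - 2 * ((fr c c' e Sd).card : ℤ) := by
  classical
  have h1 := card_KK S adm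
  have h2 := two_card_KD (e := e) S
  have h3 := card_KD_union (e := e) S
  unfold cc
  rw [Finset.sum_sub_distrib, Finset.sum_add_distrib, ← Finset.sum_filter, Finset.sum_const,
    Finset.sum_const]
  have h4 : ((∑ z ∈ KK c e Sd, ((kn c e z).card + (so c c' e z).card) : ℕ) : ℤ) =
      ∑ z ∈ KK c e Sd, (((kn c e z).card : ℤ) + ((so c c' e z).card : ℤ)) := by
    push_cast
    rfl
  rw [← h4, ← h2, h3]
  simp only [nsmul_eq_mul]
  rw [show ((#(KK c e Sd) : ℕ) : ℤ) = ((fr c c' e Sd).card + (KD c' e Sd).card +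
      ((KK c e Sd).filter (fun z => gu c e z)).card : ℕ) by rw [← h1]]
  push_cast
  ring

end Pool.Agent.GaussPoset.Win.I2

end

/-! From `Pool.Agent.W_448i2_h61.IB` -/

section

/-!
(I2) for Gaussian posets (MP_448cb3_co), row 431: the inequality on one side of a window.
-/

namespace Pool.Agent.GaussPoset.Win.I2

set_option linter.unusedSectionVars false

open Finset

universe u

variable {P : Type u} [DecidableEq P]

variable {c c' : P → Finset P} {e : P → ℕ} {t : P → ℕ} {V Sd : Finset P}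

/-- a killer at distance `t` has label at least `t` -/
lemma t_le_of_kl (S : Side c c' t V Sd) (adm : ∀ z ∈ Sd, ¬ (kd c' e z ∧ gu c e z)) :
    ∀ n, ∀ z ∈ Sd, kl c e z → t z = n → n ≤ e z := by
  intro n
  induction n with
  | zero => intro z _ _ _; exact Nat.zero_le _
  | succ n ih =>
    rintro z hz ⟨a, ha, hlt⟩ hn
    obtain ⟨h1, h2⟩ := S.cin z hz a ha
    rcases h1 with h1 | h1
    · have h3 : kd c' e a := ⟨z, (S.dual z a).1 ha, hlt⟩
      have h4 : kl c e a := kl_of_not_gu S h1 (fun h => adm a h1 ⟨h3, h⟩)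
      have := ih a h1 h4 (by omega)
      omega
    · have := S.tV a h1
      omega

lemma so_le (z : P) : (so c c' e z).card ≤ (kn c e z).card := card_le_card (filter_subset _ _)

lemma kn_le (S : Side c c' t V Sd) (z : P) : (kn c e z).card ≤ 2 :=
  (card_le_card (filter_subset _ _)).trans (S.c2 z)

lemma kn_le_one (S : Side c c' t V Sd) {z : P} (h : gu c e z) : (kn c e z).card ≤ 1 := by
  obtain ⟨a, ha, hle⟩ := h
  have h1 : kn c e z ⊆ (c z).erase a := by
    intro b hb
    rw [mem_kn] at hb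
    rw [mem_erase]
    refine ⟨?_, hb.1⟩
    rintro rfl
    omega
  have h2 := card_le_card h1
  rw [card_erase_of_mem ha] at h2
  have := S.c2 z
  omega

lemma cc_le_two (S : Side c c' t V Sd) (z : P) : cc c c' e z ≤ 2 := by
  classical
  unfold cc
  have h1 := so_le (c := c) (c' := c') (e := e) z
  split_ifs with h
  · have := kn_le_one S h
    omega
  · have := kn_le (e := e) S z
    omega

/-- the structure of an element with charge two -/
lemma cc_eq_two (S : Side c c' t V Sd) {z : P} (h : cc c c' e z = 2) :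
    (c z).card = 2 ∧ ∀ a ∈ c z, e a < e z → (kr c' e a).card = 1 := by
  classical
  have h1 := so_le (c := c) (c' := c') (e := e) z
  have h2 : (so c c' e z).card = (kn c e z).card ∧ (c z).card = 2 := by
    unfold cc at h
    split_ifs at h with hg
    · have h3 := kn_le_one S hg
      refine ⟨by omega, ?_⟩
      have h4 : (kn c e z).card = 1 := by omega
      have h5 : (kn c e z).card + ((c z).filter (fun a => ¬ e a < e z)).card = (c z).card := by
        unfold kn
        exact Finset.card_filter_add_card_filter_not _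
      obtain ⟨a, ha, hle⟩ := hg
      have h6 : 0 < ((c z).filter (fun a => ¬ e a < e z)).card := by
        rw [card_pos]
        exact ⟨a, mem_filter.2 ⟨ha, by omega⟩⟩
      have := S.c2 z
      omega
    · have h3 := kn_le (e := e) S z
      have h4 : (kn c e z).card ≤ (c z).card := card_le_card (filter_subset _ _)
      have := S.c2 z
      refine ⟨by omega, by omega⟩
  refine ⟨h2.2, fun a ha hlt => ?_⟩
  have h3 : so c c' e z = kn c e z := by
    apply Finset.eq_of_subset_of_card_le
    · exact filter_subset _ _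
    · omega
  have h4 : a ∈ kn c e z := mem_kn.2 ⟨ha, hlt⟩
  rw [← h3, mem_so] at h4
  exact h4.2

lemma mem_bd {z : P} : z ∈ bd c c' e t Sd ↔
    z ∈ Sd ∧ t z = 1 ∧ e z = 1 ∧ kl c e z ∧ cc c c' e z = 2 := by
  classical
  unfold bd
  rw [mem_filter]

lemma sur_ge (S : Side c c' t V Sd) (adm : ∀ z ∈ Sd, ¬ (kd c' e z ∧ gu c e z)) {z : P}
    (hz : z ∈ Sd) : -1 ≤ sur c c' e z := by
  classical
  unfold sur
  split_ifs with h
  · have h1 := t_le_of_kl S adm (t z) z hz h rfl
    have h2 := S.tS z hz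
    have h3 := cc_le_two (e := e) S z
    omega
  · omega

lemma sur_nonneg (S : Side c c' t V Sd) (adm : ∀ z ∈ Sd, ¬ (kd c' e z ∧ gu c e z)) {z : P}
    (hz : z ∈ Sd) (hb : z ∉ bd c c' e t Sd) : 0 ≤ sur c c' e z := by
  classical
  unfold sur
  split_ifs with h
  · have h1 := t_le_of_kl S adm (t z) z hz h rfl
    have h2 := S.tS z hz
    have h3 := cc_le_two (e := e) S z
    by_contra h4
    apply hb
    rw [mem_bd]
    refine ⟨hz, by omega, by omega, h, by omega⟩
  · omega

lemma sur_pos (S : Side c c' t V Sd) (adm : ∀ z ∈ Sd, ¬ (kd c' e z ∧ gu c e z)) {z : P}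
    (hz : z ∈ Sd) (h3 : 3 ≤ t z) (he : 1 ≤ e z) : 1 ≤ sur c c' e z := by
  classical
  unfold sur
  split_ifs with h
  · have h1 := t_le_of_kl S adm (t z) z hz h rfl
    have h4 := cc_le_two (e := e) S z
    omega
  · omega

/-- a killer away from a bad element has one cover only -/
lemma single_of_bd (S : Side c c' t V Sd) (adm : ∀ z ∈ Sd, ¬ (kd c' e z ∧ gu c e z)) {y z : P}
    (hy : y ∈ bd c c' e t Sd) (hz : z ∈ c' y) (hk : kl c e z) : c z = {y} ∧ 2 ≤ e z := by
  rw [mem_bd] at hy
  obtain ⟨hyS, ty, ey, ky, cy⟩ := hy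
  have hzS : z ∈ Sd := S.cout y (Or.inl hyS) z hz
  have hyz : y ∈ c z := (S.dual z y).2 hz
  have tz : t z = 2 := by
    have := (S.cin z hzS y hyz).2
    omega
  have ez : 2 ≤ e z := t_le_of_kl S adm 2 z hzS hk tz
  refine ⟨?_, ez⟩
  have hky : kd c' e y := ⟨z, hz, by omega⟩
  rw [Finset.eq_singleton_iff_unique_mem]
  refine ⟨hyz, fun y' hy' => ?_⟩
  by_contra hne
  obtain ⟨x, hx, hx'⟩ := S.good z hzS tz y hyz y' hy' (fun h => hne h.symm)
  have ex : e x < e y := not_gu_of_kd adm hyS hky x hx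
  have hy'S : y' ∈ Sd := by
    have h1 := S.cin z hzS y' hy'
    rcases h1.1 with h | h
    · exact h
    · have := S.tV y' h
      omega
  have ey' : 1 ≤ e y' := by
    by_contra h
    have h1 : kd c' e y' := ⟨z, (S.dual z y').1 hy', by omega⟩
    have h2 := not_gu_of_kd adm hy'S h1 x hx'
    omega
  have h1 := (cc_eq_two S cy).2 x hx ex
  have h2 : y ∈ kr c' e x := mem_kr.2 ⟨(S.dual y x).1 hx, ex⟩
  have h3 : y' ∈ kr c' e x := mem_kr.2 ⟨(S.dual y' x).1 hx', by omega⟩
  rw [Finset.card_eq_one] at h1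
  obtain ⟨w, hw⟩ := h1
  rw [hw, mem_singleton] at h2 h3
  exact hne (h3.trans h2.symm)

lemma sur_away (S : Side c c' t V Sd) (adm : ∀ z ∈ Sd, ¬ (kd c' e z ∧ gu c e z)) {y z : P}
    (hy : y ∈ bd c c' e t Sd) (hz : z ∈ c' y) (he : 1 ≤ e z) : 1 ≤ sur c c' e z := by
  classical
  unfold sur
  split_ifs with h
  · obtain ⟨h1, h2⟩ := single_of_bd S adm hy hz h
    have h3 : (kn c e z).card ≤ 1 := by
      refine (card_le_card (filter_subset _ _)).trans ?_
      rw [h1, card_singleton]
    have h4 := so_le (c := c) (c' := c') (e := e) z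
    have h5 : ¬ gu c e z := by
      rintro ⟨a, ha, hle⟩
      obtain ⟨b, hb, hlt⟩ := h
      rw [h1, mem_singleton] at ha hb
      subst ha
      subst hb
      omega
    unfold cc
    rw [if_neg h5]
    omega
  · omega

/-- two bad elements with a common excited cover away from the window: their common cover is
excited -/
lemma mid_of_bd (S : Side c c' t V Sd) (adm : ∀ z ∈ Sd, ¬ (kd c' e z ∧ gu c e z)) {y y' z : P}
    (hy : y ∈ bd c c' e t Sd) (hy' : y' ∈ bd c c' e t Sd) (hne : y ≠ y') (hz : z ∈ c' y)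
    (hz' : z ∈ c' y') : ∃ x ∈ V, x ∈ c y ∧ x ∈ c y' ∧ 1 ≤ e x := by
  have hy2 := hy
  have hy2' := hy'
  rw [mem_bd] at hy hy'
  obtain ⟨hyS, ty, ey, ky, cy⟩ := hy
  obtain ⟨hyS', ty', ey', ky', cy'⟩ := hy'
  have hzS : z ∈ Sd := S.cout y (Or.inl hyS) z hz
  have hyz : y ∈ c z := (S.dual z y).2 hz
  have hyz' : y' ∈ c z := (S.dual z y').2 hz'
  have tz : t z = 2 := by
    have := (S.cin z hzS y hyz).2
    omega
  obtain ⟨x, hx, hx'⟩ := S.good z hzS tz y hyz y' hyz' hne
  have hxV : x ∈ V := by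
    have h1 := S.cin y hyS x hx
    rcases h1.1 with h | h
    · have := S.tS x h
      omega
    · exact h
  refine ⟨x, hxV, hx, hx', ?_⟩
  by_contra h
  have h1 := (cc_eq_two S cy).2 x hx (by omega)
  have h2 : y ∈ kr c' e x := mem_kr.2 ⟨(S.dual y x).1 hx, by omega⟩
  have h3 : y' ∈ kr c' e x := mem_kr.2 ⟨(S.dual y' x).1 hx', by omega⟩
  rw [Finset.card_eq_one] at h1
  obtain ⟨w, hw⟩ := h1
  rw [hw, mem_singleton] at h2 h3
  exact hne (h2.trans h3.symm)

/-- payment for the bad elements with an excited cover away from the window -/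
theorem pay (S : Side c c' t V Sd) (adm : ∀ z ∈ Sd, ¬ (kd c' e z ∧ gu c e z)) {B : Finset P}
    (hB : B ⊆ bd c c' e t Sd) (hex : ∀ y ∈ B, ∃ z ∈ c' y, 1 ≤ e z) :
    ∃ Z X : Finset P, (∀ z ∈ Z, z ∈ Sd ∧ t z = 2 ∧ 1 ≤ sur c c' e z) ∧
      (∀ x ∈ X, x ∈ V ∧ 1 ≤ e x ∧ (∃ y, y ∈ c' x) ∧ ∀ y ∈ c' x, y ∈ B) ∧
      B.card ≤ Z.card + X.card := by
  classical
  choose! f hf using hex
  set Z := B.image f with hZ
  set Z2 := Z.filter (fun z => 2 ≤ (B.filter (fun y => f y = z)).card) with hZ2
  have hzZ : ∀ z ∈ Z, ∃ y ∈ B, f y = z := fun z hz => by simpa [hZ] using hz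
  have hpair : ∀ z ∈ Z2, ∃ y ∈ B, ∃ y' ∈ B, y ≠ y' ∧ f y = z ∧ f y' = z := by
    intro z hz
    rw [hZ2, mem_filter] at hz
    have h1 : 1 < (B.filter (fun y => f y = z)).card := by omega
    rw [Finset.one_lt_card] at h1
    obtain ⟨y, hy, y', hy', hne⟩ := h1
    rw [mem_filter] at hy hy'
    exact ⟨y, hy.1, y', hy'.1, hne, hy.2, hy'.2⟩
  choose! g hg g' hg' hne hfg hfg' using hpair
  have hmid : ∀ z ∈ Z2, ∃ x ∈ V, x ∈ c (g z) ∧ x ∈ c (g' z) ∧ 1 ≤ e x := by
    intro z hz
    have h1 := (hf (g z) (hg z hz)).1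
    have h2 := (hf (g' z) (hg' z hz)).1
    rw [hfg z hz] at h1
    rw [hfg' z hz] at h2
    exact mid_of_bd S adm (hB (hg z hz)) (hB (hg' z hz)) (hne z hz) h1 h2
  choose! m hmV hm hm' hme using hmid
  have hlow : ∀ z ∈ Z2, c' (m z) = {g z, g' z} := by
    intro z hz
    symm
    apply Finset.eq_of_subset_of_card_le
    · intro y hy
      rw [mem_insert, mem_singleton] at hy
      rcases hy with rfl | rfl
      · exact (S.dual _ _).1 (hm z hz)
      · exact (S.dual _ _).1 (hm' z hz)
    · rw [Finset.card_pair (hne z hz)]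
      exact S.c2' _
  have hinj : Set.InjOn m Z2 := by
    intro z hz z' hz' h
    have h1 := hlow z hz
    rw [h, hlow z' hz'] at h1
    have h2 : g z ∈ ({g z', g' z'} : Finset P) := by
      rw [h1]
      exact mem_insert_self _ _
    rw [mem_insert, mem_singleton] at h2
    rw [← hfg z hz]
    rcases h2 with h2 | h2
    · rw [h2]
      exact hfg z' hz'
    · rw [h2]
      exact hfg' z' hz'
  refine ⟨Z, Z2.image m, ?_, ?_, ?_⟩
  · intro z hz
    obtain ⟨y, hy, rfl⟩ := hzZ z hz
    have h1 := hB hy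
    have h2 := (mem_bd.1 h1)
    have h3 : f y ∈ Sd := S.cout y (Or.inl h2.1) _ (hf y hy).1
    refine ⟨h3, ?_, sur_away S adm h1 (hf y hy).1 (hf y hy).2⟩
    have h4 := (S.cin (f y) h3 y ((S.dual _ _).2 (hf y hy).1)).2
    omega
  · intro x hx
    rw [mem_image] at hx
    obtain ⟨z, hz, rfl⟩ := hx
    have h1 := hlow z hz
    refine ⟨hmV z hz, hme z hz, ⟨g z, ?_⟩, ?_⟩
    · rw [h1]
      exact mem_insert_self _ _
    · intro y hy
      rw [h1, mem_insert, mem_singleton] at hy
      rcases hy with rfl | rfl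
      · exact hg z hz
      · exact hg' z hz
  · rw [Finset.card_image_of_injOn hinj]
    have h1 : B.card = ∑ z ∈ Z, (B.filter (fun y => f y = z)).card :=
      Finset.card_eq_sum_card_image f B
    have h2 : ∀ z ∈ Z, (B.filter (fun y => f y = z)).card ≤
        1 + (if 2 ≤ (B.filter (fun y => f y = z)).card then 1 else 0) := by
      intro z hz
      have h3 : B.filter (fun y => f y = z) ⊆ c z := by
        intro y hy
        rw [mem_filter] at hy
        have := (hf y hy.1).1
        rw [hy.2] at this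
        exact (S.dual _ _).2 this
      have h4 := card_le_card h3
      have := S.c2 z
      split_ifs <;> omega
    rw [h1]
    refine (Finset.sum_le_sum h2).trans (le_of_eq ?_)
    rw [Finset.sum_add_distrib, Finset.sum_const, smul_eq_mul, mul_one, ← Finset.card_filter]

/-- THE INEQUALITY ON ONE SIDE -/
theorem side_bound (S : Side c c' t V Sd) (adm : ∀ z ∈ Sd, ¬ (kd c' e z ∧ gu c e z))
    {B : Finset P} (hB : B ⊆ bd c c' e t Sd) (hex : ∀ y ∈ B, ∃ z ∈ c' y, 1 ≤ e z) :
    ∃ X : Finset P, (∀ x ∈ X, x ∈ V ∧ 1 ≤ e x ∧ (∃ y, y ∈ c' x) ∧ ∀ y ∈ c' x, y ∈ B) ∧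
      (∀ δ : ℤ, (δ = 0 ∨ δ = 1 ∧ ∃ z ∈ Sd, 3 ≤ t z ∧ 1 ≤ e z) →
      2 * ((KD c' e V).card : ℤ) + δ ≤ ∑ z ∈ Sd, (e z : ℤ) + 2 * ((fr c c' e Sd).card : ℤ) +
        ((bd c c' e t Sd) \ B).card + X.card) := by
  classical
  obtain ⟨Z, X, hZ, hX, hc⟩ := pay S adm hB hex
  refine ⟨X, hX, fun δ hδ => ?_⟩
  have h1 := sum_cc S adm
  have h2 : ∑ z ∈ Sd, sur c c' e z = ∑ z ∈ Sd, (e z : ℤ) - ∑ z ∈ KK c e Sd, cc c c' e z := by
    unfold sur KK
    rw [Finset.sum_sub_distrib, Finset.sum_filter]
  have h3 : ∑ z ∈ Sd, ((if z ∈ Z then (1 : ℤ) else 0) - (if z ∈ bd c c' e t Sd then 1 else 0)) +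
      δ ≤ ∑ z ∈ Sd, sur c c' e z := by
    have h4 : ∀ z ∈ Sd, ((if z ∈ Z then (1 : ℤ) else 0) -
        (if z ∈ bd c c' e t Sd then 1 else 0)) ≤ sur c c' e z := by
      intro z hz
      by_cases h5 : z ∈ Z
      · have h6 := hZ z h5
        have h7 : z ∉ bd c c' e t Sd := by
          intro h
          rw [mem_bd] at h
          omega
        rw [if_pos h5, if_neg h7]
        have := h6.2.2
        omega
      · rw [if_neg h5]
        split_ifs with h6
        · have := sur_ge S adm hz
          omega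
        · have := sur_nonneg S adm hz h6
          omega
    rcases hδ with rfl | ⟨rfl, z, hz, hz3, hze⟩
    · rw [add_zero]
      exact Finset.sum_le_sum h4
    · rw [← Finset.add_sum_erase _ _ hz, ← Finset.add_sum_erase _ (fun z => sur c c' e z) hz]
      have h5 := Finset.sum_le_sum (fun x (hx : x ∈ Sd.erase z) => h4 x (Finset.mem_of_mem_erase hx))
      have h6 := sur_pos S adm hz hz3 hze
      have h7 : z ∉ Z := by
        intro h
        have := (hZ z h).2.1
        omega
      have h8 : z ∉ bd c c' e t Sd := by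
        intro h
        rw [mem_bd] at h
        omega
      rw [if_neg h7, if_neg h8]
      linarith
  rw [Finset.sum_sub_distrib, ← Finset.sum_filter, ← Finset.sum_filter, Finset.sum_const,
    Finset.sum_const] at h3
  have h9 : Sd.filter (fun z => z ∈ Z) = Z := by
    ext z
    rw [mem_filter]
    exact ⟨fun h => h.2, fun h => ⟨(hZ z h).1, h⟩⟩
  have h10 : Sd.filter (fun z => z ∈ bd c c' e t Sd) = bd c c' e t Sd := by
    ext z
    rw [mem_filter]
    exact ⟨fun h => h.2, fun h => ⟨(mem_bd.1 h).1, h⟩⟩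
  rw [h9, h10] at h3
  simp only [nsmul_eq_mul, mul_one] at h3
  have h11 : ((bd c c' e t Sd) \ B).card + B.card = (bd c c' e t Sd).card :=
    Finset.card_sdiff_add_card_eq_card hB
  push_cast at h3
  rw [h2, h1] at h3
  have h12 : (((bd c c' e t Sd) \ B).card : ℤ) + B.card = (bd c c' e t Sd).card := by
    exact_mod_cast h11
  have h13 : (B.card : ℤ) ≤ Z.card + X.card := by exact_mod_cast hc
  linarith

end Pool.Agent.GaussPoset.Win.I2

end

/-! From `Pool.Agent.W_448so_h61.CA` -/

section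

/-! Charges of a side of a window, without the assumption that the level next to the near level is
good (tool (A) of row 476). -/

set_option autoImplicit false

namespace Pool.Agent.GaussPoset.Win.I2

set_option linter.unusedSectionVars false

open Finset

universe u

variable {P : Type u} [DecidableEq P]

/-- one side of a window, no assumption on goodness -/
structure Side0 (c c' : P → Finset P) (t : P → ℕ) (V Sd : Finset P) : Prop where
  dual : ∀ x y, y ∈ c x ↔ x ∈ c' y
  c2 : ∀ x, (c x).card ≤ 2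
  c2' : ∀ x, (c' x).card ≤ 2
  ne : ∀ x ∈ Sd, (c x).Nonempty
  tS : ∀ x ∈ Sd, 1 ≤ t x
  tV : ∀ x ∈ V, t x = 0
  cin : ∀ x ∈ Sd, ∀ y ∈ c x, (y ∈ Sd ∨ y ∈ V) ∧ t x = t y + 1
  cout : ∀ y, (y ∈ Sd ∨ y ∈ V) → ∀ x ∈ c' y, x ∈ Sd

variable {c c' : P → Finset P} {e : P → ℕ} {t : P → ℕ} {V Sd : Finset P}

namespace Side0

lemma kl_of_not_gu (S : Side0 c c' t V Sd) {z : P} (hz : z ∈ Sd) (h : ¬ gu c e z) :
    kl c e z := by
  obtain ⟨a, ha⟩ := S.ne z hz
  refine ⟨a, ha, ?_⟩
  by_contra h2
  exact h ⟨a, ha, by omega⟩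

open Classical in
/-- the killers are the free elements, the killed ones and those with a cover which is not killed -/
lemma card_KK (S : Side0 c c' t V Sd) (adm : ∀ z ∈ Sd, ¬ (kd c' e z ∧ gu c e z)) :
    (KK c e Sd).card = (fr c c' e Sd).card + (KD c' e Sd).card +
      ((KK c e Sd).filter (fun z => gu c e z)).card := by
  have h1 : KK c e Sd = (fr c c' e Sd ∪ KD c' e Sd) ∪ (KK c e Sd).filter (fun z => gu c e z) := by
    ext z
    unfold KK fr KD
    simp only [mem_filter, mem_union]
    constructor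
    · rintro ⟨hz, hk⟩
      by_cases h1 : gu c e z
      · exact Or.inr ⟨⟨hz, hk⟩, h1⟩
      · by_cases h2 : kd c' e z
        · exact Or.inl (Or.inr ⟨hz, h2⟩)
        · exact Or.inl (Or.inl ⟨hz, h2, h1⟩)
    · rintro ((⟨hz, h1, h2⟩ | ⟨hz, h1⟩) | ⟨h, -⟩)
      · exact ⟨hz, kl_of_not_gu S hz h2⟩
      · refine ⟨hz, kl_of_not_gu S hz (fun h2 => adm z hz ⟨h1, h2⟩)⟩
      · exact h
  conv_lhs => rw [h1]
  rw [card_union_of_disjoint, card_union_of_disjoint]
  · rw [disjoint_left]
    intro z hz hz'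
    unfold fr at hz
    unfold KD at hz'
    rw [mem_filter] at hz hz'
    exact hz.2.1 hz'.2
  · rw [disjoint_left]
    intro z hz hz'
    rw [mem_filter] at hz'
    rw [mem_union] at hz
    unfold fr KD at hz
    rw [mem_filter, mem_filter] at hz
    rcases hz with hz | hz
    · exact hz.2.2 hz'.2
    · exact adm z hz.1 ⟨hz.2, hz'.2⟩

open Classical in
/-- double counting of the pairs (killer, killed) with a condition on the killed element -/
lemma double_count (S : Side0 c c' t V Sd) (q : P → Prop) :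
    ∑ a ∈ KD c' e (Sd ∪ V), (if q a then (kr c' e a).card else 0) =
      ∑ z ∈ KK c e Sd, ((kn c e z).filter q).card := by
  have h1 : ∀ z ∈ KK c e Sd, ((kn c e z).filter q).card =
      ∑ a ∈ KD c' e (Sd ∪ V), if (z ∈ kr c' e a ∧ q a) then 1 else 0 := by
    intro z hz
    rw [← Finset.card_filter]
    congr 1
    ext a
    simp only [mem_filter, mem_kn, mem_kr]
    unfold KK at hz
    rw [mem_filter] at hz
    constructor
    · rintro ⟨⟨h1, h2⟩, h3⟩
      refine ⟨?_, ⟨(S.dual z a).1 h1, h2⟩, h3⟩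
      unfold KD
      rw [mem_filter, mem_union]
      exact ⟨(S.cin z hz.1 a h1).1, z, (S.dual z a).1 h1, h2⟩
    · rintro ⟨-, ⟨h1, h2⟩, h3⟩
      exact ⟨⟨(S.dual z a).2 h1, h2⟩, h3⟩
  rw [Finset.sum_congr rfl h1, Finset.sum_comm]
  refine Finset.sum_congr rfl fun a ha => ?_
  by_cases hq : q a
  · rw [if_pos hq, ← Finset.card_filter]
    congr 1
    ext z
    simp only [mem_filter, hq, and_true]
    constructor
    · intro h
      refine ⟨?_, h⟩
      rw [mem_kr] at h
      unfold KD at ha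
      rw [mem_filter, mem_union] at ha
      unfold KK
      rw [mem_filter]
      exact ⟨S.cout a ha.1 z h.1, a, (S.dual z a).2 h.1, h.2⟩
    · exact fun h => h.2
  · simp [hq]

open Classical in
/-- twice the number of killed elements -/
lemma two_card_KD (S : Side0 c c' t V Sd) :
    2 * (KD c' e (Sd ∪ V)).card =
      ∑ z ∈ KK c e Sd, ((kn c e z).card + (so c c' e z).card) := by
  have h1 := double_count (e := e) S (fun _ => True)
  have h2 := double_count (e := e) S (fun a => (kr c' e a).card = 1)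
  simp only [if_true, Finset.filter_true] at h1
  rw [Finset.sum_add_distrib, ← h1]
  have h3 : ∑ z ∈ KK c e Sd, (so c c' e z).card =
      ∑ a ∈ KD c' e (Sd ∪ V), (if (kr c' e a).card = 1 then (kr c' e a).card else 0) := by
    refine Eq.trans ?_ (h2.symm.trans ?_)
    · refine Finset.sum_congr rfl fun z _ => ?_
      unfold so
      congr
    · refine Finset.sum_congr rfl fun a _ => ?_
      split_ifs <;> rfl
  rw [h3, ← Finset.sum_add_distrib, mul_comm, ← smul_eq_mul, ← Finset.sum_const]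
  refine Finset.sum_congr rfl fun a ha => ?_
  unfold KD at ha
  rw [mem_filter, kd_iff, ← Finset.card_pos] at ha
  have h4 : (kr c' e a).card ≤ 2 := (Finset.card_filter_le _ _).trans (S.c2' a)
  split_ifs with h5
  · omega
  · omega

lemma card_KD_union (S : Side0 c c' t V Sd) :
    (KD c' e (Sd ∪ V)).card = (KD c' e Sd).card + (KD c' e V).card := by
  classical
  unfold KD
  rw [filter_union, card_union_of_disjoint]
  rw [disjoint_left]
  intro x hx hx'
  rw [mem_filter] at hx hx'
  have := S.tS x hx.1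
  have := S.tV x hx'.1
  omega

/-- the number of killed sites minus the number of free elements, as a sum of charges -/
theorem sum_cc (S : Side0 c c' t V Sd) (adm : ∀ z ∈ Sd, ¬ (kd c' e z ∧ gu c e z)) :
    ∑ z ∈ KK c e Sd, cc c c' e z =
      2 * ((KD c' e V).card : ℤ) - 2 * ((fr c c' e Sd).card : ℤ) := by
  classical
  have h1 := card_KK S adm
  have h2 := two_card_KD (e := e) S
  have h3 := card_KD_union (e := e) S
  unfold cc
  rw [Finset.sum_sub_distrib, Finset.sum_add_distrib, ← Finset.sum_filter, Finset.sum_const,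
    Finset.sum_const]
  have h4 : ((∑ z ∈ KK c e Sd, ((kn c e z).card + (so c c' e z).card) : ℕ) : ℤ) =
      ∑ z ∈ KK c e Sd, (((kn c e z).card : ℤ) + ((so c c' e z).card : ℤ)) := by
    push_cast
    rfl
  rw [← h4, ← h2, h3]
  simp only [nsmul_eq_mul]
  rw [show ((#(KK c e Sd) : ℕ) : ℤ) = ((fr c c' e Sd).card + (KD c' e Sd).card +
      ((KK c e Sd).filter (fun z => gu c e z)).card : ℕ) by rw [← h1]]
  push_cast
  ring

/-- a killer at distance `t` has label at least `t` -/
lemma t_le_of_kl (S : Side0 c c' t V Sd) (adm : ∀ z ∈ Sd, ¬ (kd c' e z ∧ gu c e z)) :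
    ∀ n, ∀ z ∈ Sd, kl c e z → t z = n → n ≤ e z := by
  intro n
  induction n with
  | zero => intro z _ _ _; exact Nat.zero_le _
  | succ n ih =>
    rintro z hz ⟨a, ha, hlt⟩ hn
    obtain ⟨h1, h2⟩ := S.cin z hz a ha
    rcases h1 with h1 | h1
    · have h3 : kd c' e a := ⟨z, (S.dual z a).1 ha, hlt⟩
      have h4 : kl c e a := kl_of_not_gu S h1 (fun h => adm a h1 ⟨h3, h⟩)
      have := ih a h1 h4 (by omega)
      omega
    · have := S.tV a h1
      omega

lemma so_le (z : P) : (so c c' e z).card ≤ (kn c e z).card := card_le_card (filter_subset _ _)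

lemma kn_le (S : Side0 c c' t V Sd) (z : P) : (kn c e z).card ≤ 2 :=
  (card_le_card (filter_subset _ _)).trans (S.c2 z)

lemma kn_le_one (S : Side0 c c' t V Sd) {z : P} (h : gu c e z) : (kn c e z).card ≤ 1 := by
  obtain ⟨a, ha, hle⟩ := h
  have h1 : kn c e z ⊆ (c z).erase a := by
    intro b hb
    rw [mem_kn] at hb
    rw [mem_erase]
    refine ⟨?_, hb.1⟩
    rintro rfl
    omega
  have h2 := card_le_card h1
  rw [card_erase_of_mem ha] at h2
  have := S.c2 z
  omega

lemma cc_le_two (S : Side0 c c' t V Sd) (z : P) : cc c c' e z ≤ 2 := by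
  classical
  unfold cc
  have h1 := so_le (c := c) (c' := c') (e := e) z
  split_ifs with h
  · have := kn_le_one S h
    omega
  · have := kn_le (e := e) S z
    omega

end Side0

end Pool.Agent.GaussPoset.Win.I2

end

/-! From `Pool.Agent.W_448so_h64.SoA` -/

section

/-!
SECOND ORDER THEOREM at the window `i` (MP_448cb3_co, proofs row 476), helper64.

ABSTRACT SETTING.  `c z` = covers of `z` towards the window, `c' z` = covers away from it, `t z` = distance
from the window, `V` = sites, `Sd` = elements of one side, `Sd'` = elements of the other side.  For the lower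
side `c = uc`, `c' = dc`, for the upper side `c = dc`, `c' = uc`.
The definitions `kd, gu, kl, kn, kr, so, cc, fr, KK, KD` are those of `W_448i2_h61.IA`:
`kd c' e a`: `a` is killed (some element of `c' a` has a larger label); `gu c e z`: some element of `c z` has a
label `≥ e z`; `kn c e z`: elements killed by `z`; `so`: elements killed by `z` only; `cc`: charge.

This file: one side of a window WITHOUT the condition `good` of `I2.Side` (copy of the lemmas of IA, IB).
-/

namespace Pool.Agent.GaussPoset.Win.SO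

set_option linter.unusedSectionVars false

open Finset
open Pool.Agent.GaussPoset.Win.I2 (kd gu kl kn kr so cc fr KK KD mem_kn mem_kr mem_so kd_iff kl_iff)

universe u

variable {P : Type u} [DecidableEq P]

/-- one side of a window -/
structure Sde (c c' : P → Finset P) (t : P → ℕ) (V Sd : Finset P) : Prop where
  dual : ∀ x y, y ∈ c x ↔ x ∈ c' y
  c2 : ∀ x, (c x).card ≤ 2
  c2' : ∀ x, (c' x).card ≤ 2
  ne : ∀ x ∈ Sd, (c x).Nonempty
  tS : ∀ x ∈ Sd, 1 ≤ t x
  tV : ∀ x ∈ V, t x = 0
  cin : ∀ x ∈ Sd, ∀ y ∈ c x, (y ∈ Sd ∨ y ∈ V) ∧ t x = t y + 1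
  cout : ∀ y, (y ∈ Sd ∨ y ∈ V) → ∀ x ∈ c' y, x ∈ Sd

variable {c c' : P → Finset P} {e : P → ℕ} {t : P → ℕ} {V Sd : Finset P}

end Pool.Agent.GaussPoset.Win.SO

end

/-! From `Pool.Agent.W_448so_h64.SoB` -/

section

/-!
SECOND ORDER THEOREM at the window `i` (MP_448cb3_co, proofs row 476), helper64.
ABSTRACT SETTING, definitions and basic lemmas for the classification of the cores.
-/

namespace Pool.Agent.GaussPoset.Win.SO

set_option linter.unusedSectionVars false

open Finset
open Pool.Agent.GaussPoset.Win.I2 (kd gu kl kn kr so cc fr KK KD mem_kn mem_kr mem_so kd_iff kl_iff)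

universe u

variable {P : Type u} [DecidableEq P]

/-- NEAR LEVEL CONDITION: two covers of an element `w` at distance two have exactly one common cover, or
both have one cover only (and then they have no common cover, or the same one). -/
def NL (c : P → Finset P) (t : P → ℕ) (Sd : Finset P) : Prop :=
  ∀ w ∈ Sd, t w = 2 → ∀ x ∈ c w, ∀ x' ∈ c w, x ≠ x' →
    (c x ∩ c x').card = 1 ∨ ((c x).card = 1 ∧ (c x').card = 1)

/-- both sides of a window. `psi` matches the doubles at distance one. -/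
structure Two (c c' : P → Finset P) (t t' : P → ℕ) (V Sd Sd' : Finset P) (psi : P → P) : Prop where
  s1 : Sde c c' t V Sd
  s2 : Sde c' c t' V Sd'
  nl1 : NL c t Sd
  nl2 : NL c' t' Sd'
  psi1 : ∀ x ∈ Sd, t x = 1 → (c x).card = 2 →
    psi x ∈ Sd' ∧ t' (psi x) = 1 ∧ c' (psi x) = c x ∧ psi (psi x) = x
  psi2 : ∀ x ∈ Sd', t' x = 1 → (c' x).card = 2 →
    psi x ∈ Sd ∧ t (psi x) = 1 ∧ c (psi x) = c' x ∧ psi (psi x) = x
  d1 : Disjoint Sd V
  d2 : Disjoint Sd' V
  d3 : Disjoint Sd Sd'

/-- exchange the two sides -/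
lemma Two.symm {c c' : P → Finset P} {t t' : P → ℕ} {V Sd Sd' : Finset P} {psi : P → P}
    (W : Two c c' t t' V Sd Sd' psi) : Two c' c t' t V Sd' Sd psi :=
  ⟨W.s2, W.s1, W.nl2, W.nl1, W.psi2, W.psi1, W.d2, W.d1, W.d3.symm⟩

/-- `p` is a pendant: one cover `y`, at distance one, with two covers -/
structure Pen (c : P → Finset P) (t : P → ℕ) (Sd : Finset P) (p y : P) : Prop where
  m : p ∈ Sd
  tp : t p = 2
  cp : c p = {y}
  cy : (c y).card = 2

/-- T data: `w` at distance two with two covers `x`, `x'` which have two covers each, `s` common -/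
structure TD (c : P → Finset P) (t : P → ℕ) (Sd : Finset P) (w x x' s : P) : Prop where
  m : w ∈ Sd
  tw : t w = 2
  cw : c w = {x, x'}
  ne : x ≠ x'
  cx : (c x).card = 2
  cx' : (c x').card = 2
  sx : s ∈ c x
  sx' : s ∈ c x'
  only : ∀ v, v ∈ c x → v ∈ c x' → v = s

/-- the toggle condition (TOOL (B)) -/
structure Tog (c c' : P → Finset P) (t : P → ℕ) (Sd : Finset P) (psi : P → P) (e : P → ℕ)
    (w x x' s : P) : Prop where
  T : TD c t Sd w x x' s
  w1 : 1 ≤ e w
  x1 : 1 ≤ e x
  x1' : 1 ≤ e x'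
  st : (min (e x) (e x') < e w ∧ e s < min (e x) (e x')) ∨
    (e w ≤ min (e x) (e x') ∧ min (e x) (e x') ≤ e s)
  p0 : e (psi x) = 0
  p0' : e (psi x') = 0
  dw : ∀ z ∈ c' w, e z ≤ min (e w) (e s + 1)
  vx : e x < max (e w) (e s + 1) → ∀ v ∈ c x, v ≠ s → e v < e x
  vx' : e x' < max (e w) (e s + 1) → ∀ v ∈ c x', v ≠ s → e v < e x'
  dx : ∀ z ∈ c' x, z ≠ w → e z ≤ e x
  dx' : ∀ z ∈ c' x', z ≠ w → e z ≤ e x'

/-- the reflection condition (TOOL (C)), one side: the pendant `p` below `y` is excited, `psi y` is not, and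
no other element away from `y`, `p` is excited -/
structure Ref (c c' : P → Finset P) (t : P → ℕ) (Sd : Finset P) (psi : P → P) (e : P → ℕ)
    (p y : P) : Prop where
  pen : Pen c t Sd p y
  p1 : 1 ≤ e p
  u0 : e (psi y) = 0
  dy : ∀ z ∈ c' y, z ≠ p → e z = 0
  dp : ∀ z ∈ c' p, e z = 0

/-- closed pair: two excited elements over the same two doubles -/
def Clo (c : P → Finset P) (t : P → ℕ) (Sd : Finset P) (e : P → ℕ) : Prop :=
  ∃ w w' x x', w ∈ Sd ∧ w' ∈ Sd ∧ t w = 2 ∧ t w' = 2 ∧ w ≠ w' ∧ x ≠ x' ∧ c w = {x, x'} ∧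
    c w' = {x, x'} ∧ (c x).card = 2 ∧ (c x').card = 2 ∧ 1 ≤ e w ∧ 1 ≤ e w'

/-- the type of an explicit configuration: value one on `s`, zero elsewhere -/
def On (e : P → ℕ) (s : Finset P) : Prop := ∀ y, e y = if y ∈ s then 1 else 0

/-- chain: `z` hangs below a pendant only -/
structure Cha (c : P → Finset P) (t : P → ℕ) (Sd : Finset P) (z p y : P) : Prop where
  m : z ∈ Sd
  cz : c z = {p}
  pen : Pen c t Sd p y

/-- N1: `z` below the T-element `w` only, labels `z = w = 2`, `x = x' = 1`, all others zero -/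
def N1 (c : P → Finset P) (t : P → ℕ) (Sd : Finset P) (e : P → ℕ) : Prop :=
  ∃ z w x x' s, TD c t Sd w x x' s ∧ z ∈ Sd ∧ c z = {w} ∧
    ∀ y, e y = if y = z ∨ y = w then 2 else if y = x ∨ y = x' then 1 else 0

/-- N5: `z` below a pendant `p` and a T-element `w` with disjoint sites; all labels one -/
def N5 (c : P → Finset P) (t : P → ℕ) (Sd : Finset P) (e : P → ℕ) : Prop :=
  ∃ z p y w x x' s, Pen c t Sd p y ∧ TD c t Sd w x x' s ∧ z ∈ Sd ∧ z ≠ p ∧ z ≠ w ∧ p ≠ w ∧
    c z = {p, w} ∧ Disjoint (c y) (c x ∪ c x') ∧ On e {z, p, w, y, x, x'}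

/-- two T-elements of one side with disjoint sites -/
def TTp (c : P → Finset P) (t : P → ℕ) (Sd : Finset P) (e : P → ℕ) : Prop :=
  ∃ w x x' s w' y y' s', TD c t Sd w x x' s ∧ TD c t Sd w' y y' s' ∧
    Disjoint (c x ∪ c x') (c y ∪ c y') ∧ On e {w, x, x', w', y, y'}

/-- a T-element and a chain of one side with disjoint sites -/
def TCp (c : P → Finset P) (t : P → ℕ) (Sd : Finset P) (e : P → ℕ) : Prop :=
  ∃ w x x' s z p y, TD c t Sd w x x' s ∧ Cha c t Sd z p y ∧
    Disjoint (c x ∪ c x') (c y) ∧ On e {w, x, x', z, p, y}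

/-- T-elements on both sides with disjoint sites -/
def TUp (c c' : P → Finset P) (t t' : P → ℕ) (Sd Sd' : Finset P) (e : P → ℕ) : Prop :=
  ∃ w x x' s w' y y' s', TD c t Sd w x x' s ∧ TD c' t' Sd' w' y y' s' ∧
    Disjoint (c x ∪ c x') (c' y ∪ c' y') ∧ On e {w, x, x', w', y, y'}

/-- a T-element of the first side and a chain of the second side with disjoint sites -/
def TVp (c c' : P → Finset P) (t t' : P → ℕ) (Sd Sd' : Finset P) (e : P → ℕ) : Prop :=
  ∃ w x x' s z p y, TD c t Sd w x x' s ∧ Cha c' t' Sd' z p y ∧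
    Disjoint (c x ∪ c x') (c' y) ∧ On e {w, x, x', z, p, y}

/-- energy five: a T-element and a pendant of one side with disjoint sites -/
def TPp (c : P → Finset P) (t : P → ℕ) (Sd : Finset P) (e : P → ℕ) : Prop :=
  ∃ w x x' s p y, TD c t Sd w x x' s ∧ Pen c t Sd p y ∧
    Disjoint (c x ∪ c x') (c y) ∧ On e {w, x, x', p, y}

/-- energy five: a T-element of the first side and a pendant of the second side, disjoint sites -/
def TQp (c c' : P → Finset P) (t t' : P → ℕ) (Sd Sd' : Finset P) (e : P → ℕ) : Prop :=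
  ∃ w x x' s p y, TD c t Sd w x x' s ∧ Pen c' t' Sd' p y ∧
    Disjoint (c x ∪ c x') (c' y) ∧ On e {w, x, x', p, y}

/-- a configuration: admissible on both sides, no site killed from both sides, core -/
structure Cfg (c c' : P → Finset P) (t t' : P → ℕ) (V Sd Sd' : Finset P) (psi : P → P)
    (e : P → ℕ) : Prop where
  adm1 : ∀ z ∈ Sd, ¬ (kd c' e z ∧ gu c e z)
  adm2 : ∀ z ∈ Sd', ¬ (kd c e z ∧ gu c' e z)
  dis : Disjoint (KD c' e V) (KD c e V)
  core1 : ∀ x ∈ Sd, t x = 1 → 0 < e x → (∃ z ∈ c' x, 0 < e z) ∨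
    ((c x).card = 2 ∧ ∃ z ∈ c (psi x), 0 < e z)
  core2 : ∀ x ∈ Sd', t' x = 1 → 0 < e x → (∃ z ∈ c x, 0 < e z) ∨
    ((c' x).card = 2 ∧ ∃ z ∈ c' (psi x), 0 < e z)

/-- the excited pendants of the first side -/
def PDx (c : P → Finset P) (t : P → ℕ) (Sd : Finset P) (e : P → ℕ) : Prop :=
  ∀ p y p' y', Pen c t Sd p y → Pen c t Sd p' y' → 0 < e p → 0 < e p' → p = p'

lemma Cfg.symm {c c' : P → Finset P} {t t' : P → ℕ} {V Sd Sd' : Finset P} {psi : P → P}
    {e : P → ℕ} (C : Cfg c c' t t' V Sd Sd' psi e) : Cfg c' c t' t V Sd' Sd psi e :=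
  ⟨C.adm2, C.adm1, C.dis.symm, C.core2, C.core1⟩

/-- the surplus of one side: killed sites minus free elements -/
noncomputable def kS (c c' : P → Finset P) (V Sd : Finset P) (e : P → ℕ) : ℤ :=
  ((KD c' e V).card : ℤ) - ((fr c c' e Sd).card : ℤ)

end Pool.Agent.GaussPoset.Win.SO

end

/-! From `Pool.Agent.W_448so_h63.GA` -/

section

/-!
The identity (6,4) at the window j (MP_448cb3_co, case B): the counting on one side of a window
without quads (joins with a single element are allowed).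
-/

namespace Pool.Agent.GaussPoset.Win.K2

set_option linter.unusedSectionVars false

open Finset I2

universe u

variable {P : Type u} [DecidableEq P]

/-- one side of a window, two double covers of an element at distance two have a common cover -/
structure SideQ (c c' : P → Finset P) (t : P → ℕ) (V Sd : Finset P) : Prop where
  dual : ∀ x y, y ∈ c x ↔ x ∈ c' y
  c2 : ∀ x, (c x).card ≤ 2
  c2' : ∀ x, (c' x).card ≤ 2
  ne : ∀ x ∈ Sd, (c x).Nonempty
  tS : ∀ x ∈ Sd, 1 ≤ t x
  tV : ∀ x ∈ V, t x = 0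
  cin : ∀ x ∈ Sd, ∀ y ∈ c x, (y ∈ Sd ∨ y ∈ V) ∧ t x = t y + 1
  cout : ∀ y, (y ∈ Sd ∨ y ∈ V) → ∀ x ∈ c' y, x ∈ Sd
  good : ∀ z ∈ Sd, t z = 2 → ∀ y ∈ c z, ∀ y' ∈ c z, y ≠ y' → (c y).card = 2 →
    (c y').card = 2 → ∃ x, x ∈ c y ∧ x ∈ c y'

variable {c c' : P → Finset P} {e : P → ℕ} {t : P → ℕ} {V Sd : Finset P}

lemma kl_of_not_gu (S : SideQ c c' t V Sd) {z : P} (hz : z ∈ Sd) (h : ¬ gu c e z) :
    kl c e z := by
  obtain ⟨a, ha⟩ := S.ne z hz
  refine ⟨a, ha, ?_⟩
  by_contra h2
  exact h ⟨a, ha, by omega⟩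

open Classical in
/-- the killers are the free elements, the killed ones and those with a cover which is not killed -/
lemma card_KK (S : SideQ c c' t V Sd) (adm : ∀ z ∈ Sd, ¬ (kd c' e z ∧ gu c e z)) :
    (KK c e Sd).card = (fr c c' e Sd).card + (KD c' e Sd).card +
      ((KK c e Sd).filter (fun z => gu c e z)).card := by
  have h1 : KK c e Sd = (fr c c' e Sd ∪ KD c' e Sd) ∪ (KK c e Sd).filter (fun z => gu c e z) := by
    ext z
    unfold KK fr KD
    simp only [mem_filter, mem_union]
    constructor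
    · rintro ⟨hz, hk⟩
      by_cases h1 : gu c e z
      · exact Or.inr ⟨⟨hz, hk⟩, h1⟩
      · by_cases h2 : kd c' e z
        · exact Or.inl (Or.inr ⟨hz, h2⟩)
        · exact Or.inl (Or.inl ⟨hz, h2, h1⟩)
    · rintro ((⟨hz, h1, h2⟩ | ⟨hz, h1⟩) | ⟨h, -⟩)
      · exact ⟨hz, kl_of_not_gu S hz h2⟩
      · refine ⟨hz, kl_of_not_gu S hz (fun h2 => adm z hz ⟨h1, h2⟩)⟩
      · exact h
  conv_lhs => rw [h1]
  rw [card_union_of_disjoint, card_union_of_disjoint]
  · rw [disjoint_left]
    intro z hz hz'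
    unfold fr at hz
    unfold KD at hz'
    rw [mem_filter] at hz hz'
    exact hz.2.1 hz'.2
  · rw [disjoint_left]
    intro z hz hz'
    rw [mem_filter] at hz'
    rw [mem_union] at hz
    unfold fr KD at hz
    rw [mem_filter, mem_filter] at hz
    rcases hz with hz | hz
    · exact hz.2.2 hz'.2
    · exact adm z hz.1 ⟨hz.2, hz'.2⟩

open Classical in
/-- double counting of the pairs (killer, killed) with a condition on the killed element -/
lemma double_count (S : SideQ c c' t V Sd) (q : P → Prop) :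
    ∑ a ∈ KD c' e (Sd ∪ V), (if q a then (kr c' e a).card else 0) =
      ∑ z ∈ KK c e Sd, ((kn c e z).filter q).card := by
  have h1 : ∀ z ∈ KK c e Sd, ((kn c e z).filter q).card =
      ∑ a ∈ KD c' e (Sd ∪ V), if (z ∈ kr c' e a ∧ q a) then 1 else 0 := by
    intro z hz
    rw [← Finset.card_filter]
    congr 1
    ext a
    simp only [mem_filter, mem_kn, mem_kr]
    unfold KK at hz
    rw [mem_filter] at hz
    constructor
    · rintro ⟨⟨h1, h2⟩, h3⟩
      refine ⟨?_, ⟨(S.dual z a).1 h1, h2⟩, h3⟩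
      unfold KD
      rw [mem_filter, mem_union]
      exact ⟨(S.cin z hz.1 a h1).1, z, (S.dual z a).1 h1, h2⟩
    · rintro ⟨-, ⟨h1, h2⟩, h3⟩
      exact ⟨⟨(S.dual z a).2 h1, h2⟩, h3⟩
  rw [Finset.sum_congr rfl h1, Finset.sum_comm]
  refine Finset.sum_congr rfl fun a ha => ?_
  by_cases hq : q a
  · rw [if_pos hq, ← Finset.card_filter]
    congr 1
    ext z
    simp only [mem_filter, hq, and_true]
    constructor
    · intro h
      refine ⟨?_, h⟩
      rw [mem_kr] at h
      unfold KD at ha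
      rw [mem_filter, mem_union] at ha
      unfold KK
      rw [mem_filter]
      exact ⟨S.cout a ha.1 z h.1, a, (S.dual z a).2 h.1, h.2⟩
    · exact fun h => h.2
  · simp [hq]

open Classical in
/-- twice the number of killed elements -/
lemma two_card_KD (S : SideQ c c' t V Sd) :
    2 * (KD c' e (Sd ∪ V)).card =
      ∑ z ∈ KK c e Sd, ((kn c e z).card + (so c c' e z).card) := by
  have h1 := double_count (e := e) S (fun _ => True)
  have h2 := double_count (e := e) S (fun a => (kr c' e a).card = 1)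
  simp only [if_true, Finset.filter_true] at h1
  rw [Finset.sum_add_distrib, ← h1]
  have h3 : ∑ z ∈ KK c e Sd, (so c c' e z).card =
      ∑ a ∈ KD c' e (Sd ∪ V), (if (kr c' e a).card = 1 then (kr c' e a).card else 0) := by
    refine Eq.trans ?_ (h2.symm.trans ?_)
    · refine Finset.sum_congr rfl fun z _ => ?_
      unfold so
      congr
    · refine Finset.sum_congr rfl fun a _ => ?_
      split_ifs <;> rfl
  rw [h3, ← Finset.sum_add_distrib, mul_comm, ← smul_eq_mul, ← Finset.sum_const]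
  refine Finset.sum_congr rfl fun a ha => ?_
  unfold KD at ha
  rw [mem_filter, kd_iff, ← Finset.card_pos] at ha
  have h4 : (kr c' e a).card ≤ 2 := (Finset.card_filter_le _ _).trans (S.c2' a)
  split_ifs with h5
  · omega
  · omega

lemma card_KD_union (S : SideQ c c' t V Sd) :
    (KD c' e (Sd ∪ V)).card = (KD c' e Sd).card + (KD c' e V).card := by
  classical
  unfold KD
  rw [filter_union, card_union_of_disjoint]
  rw [disjoint_left]
  intro x hx hx'
  rw [mem_filter] at hx hx'
  have := S.tS x hx.1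
  have := S.tV x hx'.1
  omega

/-- the number of killed sites minus the number of free elements, as a sum of charges -/
theorem sum_cc (S : SideQ c c' t V Sd) (adm : ∀ z ∈ Sd, ¬ (kd c' e z ∧ gu c e z)) :
    ∑ z ∈ KK c e Sd, cc c c' e z =
      2 * ((KD c' e V).card : ℤ) - 2 * ((fr c c' e Sd).card : ℤ) := by
  classical
  have h1 := card_KK S adm
  have h2 := two_card_KD (e := e) S
  have h3 := card_KD_union (e := e) S
  unfold cc
  rw [Finset.sum_sub_distrib, Finset.sum_add_distrib, ← Finset.sum_filter, Finset.sum_const,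
    Finset.sum_const]
  have h4 : ((∑ z ∈ KK c e Sd, ((kn c e z).card + (so c c' e z).card) : ℕ) : ℤ) =
      ∑ z ∈ KK c e Sd, (((kn c e z).card : ℤ) + ((so c c' e z).card : ℤ)) := by
    push_cast
    rfl
  rw [← h4, ← h2, h3]
  simp only [nsmul_eq_mul]
  rw [show ((#(KK c e Sd) : ℕ) : ℤ) = ((fr c c' e Sd).card + (KD c' e Sd).card +
      ((KK c e Sd).filter (fun z => gu c e z)).card : ℕ) by rw [← h1]]
  push_cast
  ring

end Pool.Agent.GaussPoset.Win.K2

end

/-! From `Pool.Agent.W_448so_h63.GB` -/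

section

/-!
The identity (6,4) at the window j (MP_448cb3_co, case B): the inequality on one side of a window
without quads.
-/

namespace Pool.Agent.GaussPoset.Win.K2

set_option linter.unusedSectionVars false

open Finset I2

universe u

variable {P : Type u} [DecidableEq P]

variable {c c' : P → Finset P} {e : P → ℕ} {t : P → ℕ} {V Sd : Finset P}

/-- a killer at distance `t` has label at least `t` -/
lemma t_le_of_kl (S : SideQ c c' t V Sd) (adm : ∀ z ∈ Sd, ¬ (kd c' e z ∧ gu c e z)) :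
    ∀ n, ∀ z ∈ Sd, kl c e z → t z = n → n ≤ e z := by
  intro n
  induction n with
  | zero => intro z _ _ _; exact Nat.zero_le _
  | succ n ih =>
    rintro z hz ⟨a, ha, hlt⟩ hn
    obtain ⟨h1, h2⟩ := S.cin z hz a ha
    rcases h1 with h1 | h1
    · have h3 : kd c' e a := ⟨z, (S.dual z a).1 ha, hlt⟩
      have h4 : kl c e a := kl_of_not_gu S h1 (fun h => adm a h1 ⟨h3, h⟩)
      have := ih a h1 h4 (by omega)
      omega
    · have := S.tV a h1
      omega

lemma kn_le (S : SideQ c c' t V Sd) (z : P) : (kn c e z).card ≤ 2 :=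
  (card_le_card (filter_subset _ _)).trans (S.c2 z)

lemma kn_le_one (S : SideQ c c' t V Sd) {z : P} (h : gu c e z) : (kn c e z).card ≤ 1 := by
  obtain ⟨a, ha, hle⟩ := h
  have h1 : kn c e z ⊆ (c z).erase a := by
    intro b hb
    rw [mem_kn] at hb
    rw [mem_erase]
    refine ⟨?_, hb.1⟩
    rintro rfl
    omega
  have h2 := card_le_card h1
  rw [card_erase_of_mem ha] at h2
  have := S.c2 z
  omega

lemma cc_le_two (S : SideQ c c' t V Sd) (z : P) : cc c c' e z ≤ 2 := by
  classical
  unfold cc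
  have h1 := so_le (c := c) (c' := c') (e := e) z
  split_ifs with h
  · have := kn_le_one S h
    omega
  · have := kn_le (e := e) S z
    omega

/-- the structure of an element with charge two -/
lemma cc_eq_two (S : SideQ c c' t V Sd) {z : P} (h : cc c c' e z = 2) :
    (c z).card = 2 ∧ ∀ a ∈ c z, e a < e z → (kr c' e a).card = 1 := by
  classical
  have h1 := so_le (c := c) (c' := c') (e := e) z
  have h2 : (so c c' e z).card = (kn c e z).card ∧ (c z).card = 2 := by
    unfold cc at h
    split_ifs at h with hg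
    · have h3 := kn_le_one S hg
      refine ⟨by omega, ?_⟩
      have h4 : (kn c e z).card = 1 := by omega
      have h5 : (kn c e z).card + ((c z).filter (fun a => ¬ e a < e z)).card = (c z).card := by
        unfold kn
        exact Finset.card_filter_add_card_filter_not _
      obtain ⟨a, ha, hle⟩ := hg
      have h6 : 0 < ((c z).filter (fun a => ¬ e a < e z)).card := by
        rw [card_pos]
        exact ⟨a, mem_filter.2 ⟨ha, by omega⟩⟩
      have := S.c2 z
      omega
    · have h3 := kn_le (e := e) S z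
      have h4 : (kn c e z).card ≤ (c z).card := card_le_card (filter_subset _ _)
      have := S.c2 z
      refine ⟨by omega, by omega⟩
  refine ⟨h2.2, fun a ha hlt => ?_⟩
  have h3 : so c c' e z = kn c e z := by
    apply Finset.eq_of_subset_of_card_le
    · exact filter_subset _ _
    · omega
  have h4 : a ∈ kn c e z := mem_kn.2 ⟨ha, hlt⟩
  rw [← h3, mem_so] at h4
  exact h4.2

lemma sur_ge (S : SideQ c c' t V Sd) (adm : ∀ z ∈ Sd, ¬ (kd c' e z ∧ gu c e z)) {z : P}
    (hz : z ∈ Sd) : -1 ≤ sur c c' e z := by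
  classical
  unfold sur
  split_ifs with h
  · have h1 := t_le_of_kl S adm (t z) z hz h rfl
    have h2 := S.tS z hz
    have h3 := cc_le_two (e := e) S z
    omega
  · omega

lemma sur_nonneg (S : SideQ c c' t V Sd) (adm : ∀ z ∈ Sd, ¬ (kd c' e z ∧ gu c e z)) {z : P}
    (hz : z ∈ Sd) (hb : z ∉ bd c c' e t Sd) : 0 ≤ sur c c' e z := by
  classical
  unfold sur
  split_ifs with h
  · have h1 := t_le_of_kl S adm (t z) z hz h rfl
    have h2 := S.tS z hz
    have h3 := cc_le_two (e := e) S z
    by_contra h4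
    apply hb
    rw [mem_bd]
    refine ⟨hz, by omega, by omega, h, by omega⟩
  · omega

lemma sur_pos (S : SideQ c c' t V Sd) (adm : ∀ z ∈ Sd, ¬ (kd c' e z ∧ gu c e z)) {z : P}
    (hz : z ∈ Sd) (h3 : 3 ≤ t z) (he : 1 ≤ e z) : 1 ≤ sur c c' e z := by
  classical
  unfold sur
  split_ifs with h
  · have h1 := t_le_of_kl S adm (t z) z hz h rfl
    have h4 := cc_le_two (e := e) S z
    omega
  · omega

/-- two bad elements with a common excited cover away from the window: their common cover is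
excited -/
lemma mid_of_bd (S : SideQ c c' t V Sd) (adm : ∀ z ∈ Sd, ¬ (kd c' e z ∧ gu c e z)) {y y' z : P}
    (hy : y ∈ bd c c' e t Sd) (hy' : y' ∈ bd c c' e t Sd) (hne : y ≠ y') (hz : z ∈ c' y)
    (hz' : z ∈ c' y') : ∃ x ∈ V, x ∈ c y ∧ x ∈ c y' ∧ 1 ≤ e x := by
  have hy2 := hy
  have hy2' := hy'
  rw [mem_bd] at hy hy'
  obtain ⟨hyS, ty, ey, ky, cy⟩ := hy
  obtain ⟨hyS', ty', ey', ky', cy'⟩ := hy'
  have hzS : z ∈ Sd := S.cout y (Or.inl hyS) z hz
  have hyz : y ∈ c z := (S.dual z y).2 hz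
  have hyz' : y' ∈ c z := (S.dual z y').2 hz'
  have tz : t z = 2 := by
    have := (S.cin z hzS y hyz).2
    omega
  obtain ⟨x, hx, hx'⟩ := S.good z hzS tz y hyz y' hyz' hne (cc_eq_two S cy).1
    (cc_eq_two S cy').1
  have hxV : x ∈ V := by
    have h1 := S.cin y hyS x hx
    rcases h1.1 with h | h
    · have := S.tS x h
      omega
    · exact h
  refine ⟨x, hxV, hx, hx', ?_⟩
  by_contra h
  have h1 := (cc_eq_two S cy).2 x hx (by omega)
  have h2 : y ∈ kr c' e x := mem_kr.2 ⟨(S.dual y x).1 hx, by omega⟩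
  have h3 : y' ∈ kr c' e x := mem_kr.2 ⟨(S.dual y' x).1 hx', by omega⟩
  rw [Finset.card_eq_one] at h1
  obtain ⟨w, hw⟩ := h1
  rw [hw, mem_singleton] at h2 h3
  exact hne (h2.trans h3.symm)

/-- an element with one cover only has the surplus at least its label -/
lemma sur_single {w : P} (h1 : (c w).card = 1) : (e w : ℤ) ≤ sur c c' e w := by
  classical
  unfold sur
  split_ifs with h
  · obtain ⟨a, ha⟩ := Finset.card_eq_one.1 h1
    have h3 : (kn c e w).card ≤ 1 := by
      rw [← h1]
      exact card_le_card (filter_subset _ _)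
    have h4 := so_le (c := c) (c' := c') (e := e) w
    have h5 : ¬ gu c e w := by
      rintro ⟨x, hx, hle⟩
      obtain ⟨b, hb, hlt⟩ := h
      rw [ha, mem_singleton] at hx hb
      subst hx
      subst hb
      omega
    unfold cc
    rw [if_neg h5]
    omega
  · omega

/-- an excited element away from a bad element has a surplus, or it has charge two and a single
cover -/
lemma far_cases (S : SideQ c c' t V Sd) (adm : ∀ z ∈ Sd, ¬ (kd c' e z ∧ gu c e z)) {y z : P}
    (hy : y ∈ bd c c' e t Sd) (hz : z ∈ c' y) (he : 1 ≤ e z) :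
    1 ≤ sur c c' e z ∨ (e z = 2 ∧ kl c e z ∧ cc c c' e z = 2 ∧
      ∃ w, w ∈ c z ∧ w ≠ y ∧ (c w).card = 1 ∧ 1 ≤ e w) := by
  classical
  rw [mem_bd] at hy
  obtain ⟨hyS, ty, ey, ky, cy⟩ := hy
  have hzS : z ∈ Sd := S.cout y (Or.inl hyS) z hz
  have hyz : y ∈ c z := (S.dual z y).2 hz
  have tz : t z = 2 := by
    have := (S.cin z hzS y hyz).2
    omega
  by_cases hk : kl c e z
  · have ez : 2 ≤ e z := t_le_of_kl S adm 2 z hzS hk tz
    have h2 := cc_le_two (e := e) S z
    by_cases h3 : e z = 2 ∧ cc c c' e z = 2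
    · right
      refine ⟨h3.1, hk, h3.2, ?_⟩
      have hcz := (cc_eq_two S h3.2).1
      obtain ⟨w, hw, hwy⟩ : ∃ w ∈ c z, w ≠ y :=
        Finset.exists_mem_ne (by omega) y
      have hwS : w ∈ Sd := by
        have h4 := S.cin z hzS w hw
        rcases h4.1 with h | h
        · exact h
        · have := S.tV w h
          omega
      have hw1 : 1 ≤ e w := by
        by_contra h4
        obtain ⟨a, ha⟩ := S.ne w hwS
        exact adm w hwS ⟨⟨z, (S.dual z w).1 hw, by omega⟩, a, ha, by omega⟩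
      refine ⟨w, hw, hwy, ?_, hw1⟩
      have h5 := S.c2 w
      have h6 := card_pos.2 (S.ne w hwS)
      by_contra h7
      obtain ⟨x, hx, hx'⟩ := S.good z hzS tz y hyz w hw (fun h => hwy h.symm)
        (cc_eq_two S cy).1 (by omega)
      have hky : kd c' e y := ⟨z, hz, by omega⟩
      have ex : e x < e y := not_gu_of_kd adm hyS hky x hx
      have h1 := (cc_eq_two S cy).2 x hx ex
      have h2' : y ∈ kr c' e x := mem_kr.2 ⟨(S.dual y x).1 hx, ex⟩
      have h3' : w ∈ kr c' e x := mem_kr.2 ⟨(S.dual w x).1 hx', by omega⟩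
      rw [Finset.card_eq_one] at h1
      obtain ⟨w', hw'⟩ := h1
      rw [hw', mem_singleton] at h2' h3'
      exact hwy (h3'.trans h2'.symm)
    · left
      unfold sur
      rw [if_pos hk]
      omega
  · left
    unfold sur
    rw [if_neg hk]
    omega

/-- payment for the bad elements with an excited cover away from the window -/
theorem pay (S : SideQ c c' t V Sd) (adm : ∀ z ∈ Sd, ¬ (kd c' e z ∧ gu c e z)) {B : Finset P}
    (hB : B ⊆ bd c c' e t Sd) (hex : ∀ y ∈ B, ∃ z ∈ c' y, 1 ≤ e z) :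
    ∃ Z X : Finset P, ∃ m : P → ℕ, (∀ z ∈ Z, z ∈ Sd ∧ t z = 2 ∧ 1 ≤ sur c c' e z) ∧
      (∀ x ∈ X, x ∈ V ∧ 1 ≤ e x ∧ (∃ y, y ∈ c' x) ∧ ∀ y ∈ c' x, y ∈ B) ∧
      (∀ w, 0 < m w → w ∈ Sd ∧ t w = 1 ∧ (c w).card = 1 ∧ (m w : ℤ) ≤ sur c c' e w) ∧
      B.card ≤ Z.card + X.card + ∑ w ∈ Sd, m w := by
  classical
  choose! f hf using hex
  set B1 := B.filter (fun y => 1 ≤ sur c c' e (f y)) with hB1
  set B2 := B.filter (fun y => ¬ 1 ≤ sur c c' e (f y)) with hB2
  have hB1B : ∀ y ∈ B1, y ∈ B := fun y hy => (mem_filter.1 hy).1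
  have hB2B : ∀ y ∈ B2, y ∈ B := fun y hy => (mem_filter.1 hy).1
  have hcard : B.card = B1.card + B2.card :=
    (Finset.card_filter_add_card_filter_not _).symm
  -- the first part
  set Z := B1.image f with hZ
  set Z2 := Z.filter (fun z => 2 ≤ (B1.filter (fun y => f y = z)).card) with hZ2
  have hzZ : ∀ z ∈ Z, ∃ y ∈ B1, f y = z := fun z hz => by simpa [hZ] using hz
  have hpair : ∀ z ∈ Z2, ∃ y ∈ B1, ∃ y' ∈ B1, y ≠ y' ∧ f y = z ∧ f y' = z := by
    intro z hz
    rw [hZ2, mem_filter] at hz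
    have h1 : 1 < (B1.filter (fun y => f y = z)).card := by omega
    rw [Finset.one_lt_card] at h1
    obtain ⟨y, hy, y', hy', hne⟩ := h1
    rw [mem_filter] at hy hy'
    exact ⟨y, hy.1, y', hy'.1, hne, hy.2, hy'.2⟩
  choose! g hg g' hg' hne hfg hfg' using hpair
  have hmid : ∀ z ∈ Z2, ∃ x ∈ V, x ∈ c (g z) ∧ x ∈ c (g' z) ∧ 1 ≤ e x := by
    intro z hz
    have h1 := (hf (g z) (hB1B _ (hg z hz))).1
    have h2 := (hf (g' z) (hB1B _ (hg' z hz))).1
    rw [hfg z hz] at h1
    rw [hfg' z hz] at h2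
    exact mid_of_bd S adm (hB (hB1B _ (hg z hz))) (hB (hB1B _ (hg' z hz))) (hne z hz) h1 h2
  choose! m hmV hm hm' hme using hmid
  have hlow : ∀ z ∈ Z2, c' (m z) = {g z, g' z} := by
    intro z hz
    symm
    apply Finset.eq_of_subset_of_card_le
    · intro y hy
      rw [mem_insert, mem_singleton] at hy
      rcases hy with rfl | rfl
      · exact (S.dual _ _).1 (hm z hz)
      · exact (S.dual _ _).1 (hm' z hz)
    · rw [Finset.card_pair (hne z hz)]
      exact S.c2' _
  have hinj : Set.InjOn m Z2 := by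
    intro z hz z' hz' h
    have h1 := hlow z hz
    rw [h, hlow z' hz'] at h1
    have h2 : g z ∈ ({g z', g' z'} : Finset P) := by
      rw [h1]
      exact mem_insert_self _ _
    rw [mem_insert, mem_singleton] at h2
    rw [← hfg z hz]
    rcases h2 with h2 | h2
    · rw [h2]
      exact hfg z' hz'
    · rw [h2]
      exact hfg' z' hz'
  -- the second part
  have hfar : ∀ y ∈ B2, e (f y) = 2 ∧ kl c e (f y) ∧ cc c c' e (f y) = 2 ∧
      ∃ w, w ∈ c (f y) ∧ w ≠ y ∧ (c w).card = 1 ∧ 1 ≤ e w := by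
    intro y hy
    have h1 := hf y (hB2B y hy)
    rcases far_cases S adm (hB (hB2B y hy)) h1.1 h1.2 with h | h
    · exact absurd h (mem_filter.1 hy).2
    · exact h
  choose! he2 hkl hcc w hwc hwy hw1 hwe using hfar
  have hfS : ∀ y ∈ B2, f y ∈ Sd ∧ t (f y) = 2 := by
    intro y hy
    have h1 := hB (hB2B y hy)
    have h2 := mem_bd.1 h1
    have h3 : f y ∈ Sd := S.cout y (Or.inl h2.1) _ (hf y (hB2B y hy)).1
    refine ⟨h3, ?_⟩
    have h4 := (S.cin (f y) h3 y ((S.dual _ _).2 (hf y (hB2B y hy)).1)).2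
    omega
  have hwS : ∀ y ∈ B2, w y ∈ Sd ∧ t (w y) = 1 := by
    intro y hy
    obtain ⟨h1, h2⟩ := hfS y hy
    have h3 := S.cin (f y) h1 (w y) (hwc y hy)
    have h4 : t (w y) = 1 := by omega
    refine ⟨?_, h4⟩
    rcases h3.1 with h | h
    · exact h
    · have := S.tV _ h
      omega
  have hne2 : ∀ y ∈ B2, ∀ y' ∈ B2, y ≠ y' → w y = w y' → f y ≠ f y' := by
    intro y hy y' hy' hne' hww hff
    have h1 := (cc_eq_two S (hcc y hy)).1
    have h2 : y ∈ c (f y) := (S.dual _ _).2 (hf y (hB2B y hy)).1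
    have h3 : y' ∈ c (f y) := by
      rw [hff]
      exact (S.dual _ _).2 (hf y' (hB2B y' hy')).1
    have h4 : w y ∈ c (f y) := hwc y hy
    have h5 : ({y, y', w y} : Finset P) ⊆ c (f y) := by
      intro x hx
      rw [mem_insert, mem_insert, mem_singleton] at hx
      rcases hx with rfl | rfl | rfl
      · exact h2
      · exact h3
      · exact h4
    have h6 : ({y, y', w y} : Finset P).card = 3 := by
      rw [Finset.card_eq_three]
      refine ⟨y, y', w y, hne', ?_, ?_, rfl⟩
      · exact (hwy y hy).symm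
      · rw [hww]
        exact (hwy y' hy').symm
    have h7 := card_le_card h5
    omega
  have hfib : ∀ v, (B2.filter (fun y => w y = v)).card ≤ e v ∨
      (B2.filter (fun y => w y = v)).card = 0 := by
    intro v
    rcases Nat.eq_zero_or_pos (B2.filter (fun y => w y = v)).card with h0 | h0
    · exact Or.inr h0
    left
    replace h0 := card_pos.1 h0
    obtain ⟨y0, hy0⟩ := h0
    rw [mem_filter] at hy0
    have hev : 1 ≤ e v := by
      rw [← hy0.2]
      exact hwe y0 hy0.1
    have hinj2 : Set.InjOn f (B2.filter (fun y => w y = v)) := by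
      intro y hy y' hy' hff
      rw [mem_coe, mem_filter] at hy hy'
      by_contra hne'
      exact hne2 y hy.1 y' hy'.1 hne' (hy.2.trans hy'.2.symm) hff
    have hle2 : (B2.filter (fun y => w y = v)).card ≤ 2 := by
      rw [← Finset.card_image_of_injOn hinj2]
      refine le_trans (card_le_card (t := c' v) ?_) (S.c2' v)
      intro z hz
      rw [mem_image] at hz
      obtain ⟨y, hy, rfl⟩ := hz
      rw [mem_filter] at hy
      rw [← S.dual, ← hy.2]
      exact hwc y hy.1
    rcases Nat.lt_or_ge 1 (e v) with h2 | h2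
    · omega
    · have h3 : e v = 1 := by omega
      rw [h3]
      by_contra h4
      have h5 : 1 < (B2.filter (fun y => w y = v)).card := by omega
      rw [Finset.one_lt_card] at h5
      obtain ⟨y, hy, y', hy', hne'⟩ := h5
      rw [mem_filter] at hy hy'
      have h6 := hne2 y hy.1 y' hy'.1 hne' (hy.2.trans hy'.2.symm)
      have h7 := (cc_eq_two S (hcc y hy.1)).2 v (by rw [← hy.2]; exact hwc y hy.1)
        (by rw [he2 y hy.1]; omega)
      have h8 : f y ∈ kr c' e v := mem_kr.2 ⟨(S.dual _ _).1 (by rw [← hy.2]; exact hwc y hy.1),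
        by rw [he2 y hy.1]; omega⟩
      have h9 : f y' ∈ kr c' e v := mem_kr.2 ⟨(S.dual _ _).1 (by
        rw [← hy'.2]; exact hwc y' hy'.1), by rw [he2 y' hy'.1]; omega⟩
      rw [Finset.card_eq_one] at h7
      obtain ⟨q, hq⟩ := h7
      rw [hq, mem_singleton] at h8 h9
      exact h6 (h8.trans h9.symm)
  refine ⟨Z, Z2.image m, fun v => (B2.filter (fun y => w y = v)).card, ?_, ?_, ?_, ?_⟩
  · intro z hz
    obtain ⟨y, hy, rfl⟩ := hzZ z hz
    have h1 := hB (hB1B y hy)
    have h2 := (mem_bd.1 h1)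
    have h3 : f y ∈ Sd := S.cout y (Or.inl h2.1) _ (hf y (hB1B y hy)).1
    refine ⟨h3, ?_, (mem_filter.1 hy).2⟩
    have h4 := (S.cin (f y) h3 y ((S.dual _ _).2 (hf y (hB1B y hy)).1)).2
    omega
  · intro x hx
    rw [mem_image] at hx
    obtain ⟨z, hz, rfl⟩ := hx
    have h1 := hlow z hz
    refine ⟨hmV z hz, hme z hz, ⟨g z, ?_⟩, ?_⟩
    · rw [h1]
      exact mem_insert_self _ _
    · intro y hy
      rw [h1, mem_insert, mem_singleton] at hy
      rcases hy with rfl | rfl
      · exact hB1B _ (hg z hz)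
      · exact hB1B _ (hg' z hz)
  · intro v hv
    have hv' := hv
    simp only at hv'
    rw [card_pos] at hv'
    obtain ⟨y, hy⟩ := hv'
    rw [mem_filter] at hy
    have h1 := hwS y hy.1
    have h2 := hw1 y hy.1
    rw [hy.2] at h1 h2
    refine ⟨h1.1, h1.2, h2, ?_⟩
    have h3 := sur_single (c' := c') (e := e) h2
    rcases hfib v with h4 | h4
    · simp only
      omega
    · simp only at hv ⊢
      omega
  · rw [Finset.card_image_of_injOn hinj]
    have h0 : ∑ v ∈ Sd, (B2.filter (fun y => w y = v)).card = B2.card :=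
      (Finset.card_eq_sum_card_fiberwise (fun y hy => (hwS y hy).1)).symm
    have h1 : B1.card = ∑ z ∈ Z, (B1.filter (fun y => f y = z)).card :=
      Finset.card_eq_sum_card_image f B1
    have h2 : ∀ z ∈ Z, (B1.filter (fun y => f y = z)).card ≤
        1 + (if 2 ≤ (B1.filter (fun y => f y = z)).card then 1 else 0) := by
      intro z hz
      have h3 : B1.filter (fun y => f y = z) ⊆ c z := by
        intro y hy
        rw [mem_filter] at hy
        have := (hf y (hB1B y hy.1)).1
        rw [hy.2] at this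
        exact (S.dual _ _).2 this
      have h4 := card_le_card h3
      have := S.c2 z
      split_ifs <;> omega
    have h5 : B1.card ≤ Z.card + Z2.card := by
      rw [h1]
      refine (Finset.sum_le_sum h2).trans (le_of_eq ?_)
      rw [Finset.sum_add_distrib, Finset.sum_const, smul_eq_mul, mul_one, ← Finset.card_filter]
    simp only
    rw [h0]
    omega

/-- THE INEQUALITY ON ONE SIDE -/
theorem side_bound (S : SideQ c c' t V Sd) (adm : ∀ z ∈ Sd, ¬ (kd c' e z ∧ gu c e z))
    {B : Finset P} (hB : B ⊆ bd c c' e t Sd) (hex : ∀ y ∈ B, ∃ z ∈ c' y, 1 ≤ e z) :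
    ∃ X : Finset P, (∀ x ∈ X, x ∈ V ∧ 1 ≤ e x ∧ (∃ y, y ∈ c' x) ∧ ∀ y ∈ c' x, y ∈ B) ∧
      (∀ δ : ℤ, (δ = 0 ∨ δ = 1 ∧ ∃ z ∈ Sd, 3 ≤ t z ∧ 1 ≤ e z) →
      2 * ((KD c' e V).card : ℤ) + δ ≤ ∑ z ∈ Sd, (e z : ℤ) + 2 * ((fr c c' e Sd).card : ℤ) +
        ((bd c c' e t Sd) \ B).card + X.card) := by
  classical
  obtain ⟨Z, X, m, hZ, hX, hm, hc⟩ := pay S adm hB hex
  refine ⟨X, hX, fun δ hδ => ?_⟩
  have h1 := sum_cc S adm
  have h2 : ∑ z ∈ Sd, sur c c' e z = ∑ z ∈ Sd, (e z : ℤ) - ∑ z ∈ KK c e Sd, cc c c' e z := by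
    unfold sur KK
    rw [Finset.sum_sub_distrib, Finset.sum_filter]
  have h3 : ∑ z ∈ Sd, ((if z ∈ Z then (1 : ℤ) else 0) + (m z : ℤ) -
      (if z ∈ bd c c' e t Sd then 1 else 0)) + δ ≤ ∑ z ∈ Sd, sur c c' e z := by
    have h4 : ∀ z ∈ Sd, ((if z ∈ Z then (1 : ℤ) else 0) + (m z : ℤ) -
        (if z ∈ bd c c' e t Sd then 1 else 0)) ≤ sur c c' e z := by
      intro z hz
      rcases Nat.eq_zero_or_pos (m z) with h0 | h0
      · rw [h0]
        by_cases h5 : z ∈ Z
        · have h6 := hZ z h5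
          have h7 : z ∉ bd c c' e t Sd := by
            intro h
            rw [mem_bd] at h
            omega
          rw [if_pos h5, if_neg h7]
          have := h6.2.2
          push_cast
          omega
        · rw [if_neg h5]
          split_ifs with h6
          · have := sur_ge S adm hz
            push_cast
            omega
          · have := sur_nonneg S adm hz h6
            push_cast
            omega
      · obtain ⟨k1, k2, k3, k4⟩ := hm z h0
        have h5 : z ∉ Z := by
          intro h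
          have := (hZ z h).2.1
          omega
        have h6 : z ∉ bd c c' e t Sd := by
          intro h
          rw [mem_bd] at h
          have := (cc_eq_two S h.2.2.2.2).1
          omega
        rw [if_neg h5, if_neg h6]
        omega
    rcases hδ with rfl | ⟨rfl, z, hz, hz3, hze⟩
    · rw [add_zero]
      exact Finset.sum_le_sum h4
    · rw [← Finset.add_sum_erase _ _ hz, ← Finset.add_sum_erase _ (fun z => sur c c' e z) hz]
      have h5 := Finset.sum_le_sum (fun x (hx : x ∈ Sd.erase z) => h4 x (Finset.mem_of_mem_erase hx))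
      have h6 := sur_pos S adm hz hz3 hze
      have h7 : z ∉ Z := by
        intro h
        have := (hZ z h).2.1
        omega
      have h8 : z ∉ bd c c' e t Sd := by
        intro h
        rw [mem_bd] at h
        omega
      have h9 : m z = 0 := by
        by_contra h
        have := (hm z (by omega)).2.1
        omega
      rw [if_neg h7, if_neg h8, h9]
      push_cast
      linarith
  rw [Finset.sum_sub_distrib, Finset.sum_add_distrib, ← Finset.sum_filter, ← Finset.sum_filter,
    Finset.sum_const, Finset.sum_const] at h3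
  have h9 : Sd.filter (fun z => z ∈ Z) = Z := by
    ext z
    rw [mem_filter]
    exact ⟨fun h => h.2, fun h => ⟨(hZ z h).1, h⟩⟩
  have h10 : Sd.filter (fun z => z ∈ bd c c' e t Sd) = bd c c' e t Sd := by
    ext z
    rw [mem_filter]
    exact ⟨fun h => h.2, fun h => ⟨(mem_bd.1 h).1, h⟩⟩
  rw [h9, h10] at h3
  simp only [nsmul_eq_mul, mul_one] at h3
  have h11 : ((bd c c' e t Sd) \ B).card + B.card = (bd c c' e t Sd).card :=
    Finset.card_sdiff_add_card_eq_card hB
  push_cast at h3
  rw [h2, h1] at h3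
  have h12 : (((bd c c' e t Sd) \ B).card : ℤ) + B.card = (bd c c' e t Sd).card := by
    exact_mod_cast h11
  have h13 : (B.card : ℤ) ≤ Z.card + X.card + ∑ w ∈ Sd, (m w : ℤ) := by exact_mod_cast hc
  linarith

end Pool.Agent.GaussPoset.Win.K2

end

/-! From `Pool.Agent.W_448e_h97.EA` -/

section

/-! Families of pairwise disjoint sets with at most one member in every class (MP_448cb3_co). -/

namespace Pool.Agent.GaussPoset.EK

set_option linter.unusedSectionVars false

open Finset Polynomial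

section gen

variable {α β ι : Type*} [DecidableEq α] [DecidableEq β] [DecidableEq ι]

/-- the sets of `M` are pairwise disjoint and avoid `T` -/
def Avd (N : α → Finset β) (T : Finset β) (M : Finset α) : Prop :=
  (∀ x ∈ M, ∀ y ∈ M, x ≠ y → Disjoint (N x) (N y)) ∧ ∀ x ∈ M, Disjoint (N x) T

lemma avd_empty (N : α → Finset β) (T : Finset β) : Avd N T ∅ :=
  ⟨fun x hx => absurd hx (notMem_empty x), fun x hx => absurd hx (notMem_empty x)⟩

lemma avd_sub {N : α → Finset β} {T : Finset β} {M M' : Finset α} (h : Avd N T M) (hM : M' ⊆ M) :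
    Avd N T M' :=
  ⟨fun x hx y hy => h.1 x (hM hx) y (hM hy), fun x hx => h.2 x (hM hx)⟩

open Classical in
/-- the sum over the avoiding families with `k` members -/
noncomputable def E (N : α → Finset β) (s : α → ℤ) (K : Finset α) (T : Finset β) (k : ℕ) : ℤ :=
  ∑ M ∈ (K.powersetCard k).filter (Avd N T), ∏ x ∈ M, s x

open Classical in
/-- the generating polynomial of the avoiding families -/
noncomputable def G (N : α → Finset β) (s : α → ℤ) (K : Finset α) (T : Finset β) : ℤ[X] :=
  ∑ M ∈ K.powerset.filter (Avd N T), ∏ x ∈ M, (C (s x) * X)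

open Classical in
/-- the sum over the members of the class `a` which avoid `T` -/
noncomputable def ss (N : α → Finset β) (s : α → ℤ) (κ : α → ι) (K : Finset α) (T : Finset β)
    (a : ι) : ℤ :=
  ∑ x ∈ K.filter (fun x => κ x = a ∧ Disjoint (N x) T), s x

variable {N : α → Finset β} {s : α → ℤ} {κ : α → ι} {K : Finset α} {T : Finset β} {I : Finset ι}

lemma coeff_G (k : ℕ) : (G N s K T).coeff k = E N s K T k := by
  classical
  unfold G E
  rw [finsetSum_coeff]
  have h0 : (K.powersetCard k).filter (Avd N T) =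
      (K.powerset.filter (Avd N T)).filter (fun M => M.card = k) := by
    ext M
    simp only [mem_filter, mem_powersetCard, mem_powerset]
    tauto
  rw [h0]
  symm
  rw [sum_filter]
  symm
  refine sum_congr rfl (fun M _ => ?_)
  have h1 : ∏ x ∈ M, (C (s x) * X) = C (∏ x ∈ M, s x) * (X : ℤ[X]) ^ M.card := by
    rw [prod_mul_distrib, prod_const, map_prod]
  rw [h1, coeff_C_mul, coeff_X_pow]
  by_cases h : M.card = k
  · simp [h]
  · have h' : ¬ k = M.card := fun h2 => h h2.symm
    simp [h, h']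

open Classical in
/-- families which contain `x` -/
lemma sum_mem {x : α} {a : ι} (hx : x ∈ K) (ha : κ x = a)
    (hsame : ∀ x ∈ K, ∀ y ∈ K, κ x = κ y → ¬ Disjoint (N x) (N y))
    (hdiff : ∀ x ∈ K, ∀ y ∈ K, κ x ≠ κ y → Disjoint (N x) (N y)) :
    ∑ M ∈ (K.powerset.filter (Avd N T)).filter (fun M => x ∈ M), ∏ y ∈ M, (C (s y) * X) =
      (if Disjoint (N x) T then C (s x) * X else 0) * G N s (K.filter (fun y => κ y ≠ a)) T := by
  by_cases hT : Disjoint (N x) T
  · rw [if_pos hT]
    unfold G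
    rw [mul_sum]
    symm
    refine sum_nbij' (fun M => insert x M) (fun M => M.erase x) ?_ ?_ ?_ ?_ ?_
    · intro M hM
      rw [mem_filter, mem_powerset] at hM
      rw [mem_filter, mem_filter, mem_powerset]
      have hMK : M ⊆ K := hM.1.trans (filter_subset _ _)
      have hd : ∀ y ∈ M, Disjoint (N x) (N y) := by
        intro y hy
        have h1 := (mem_filter.1 (hM.1 hy)).2
        exact hdiff x hx y (hMK hy) (fun h => h1 (h ▸ ha))
      refine ⟨⟨insert_subset hx hMK, ?_, ?_⟩, mem_insert_self _ _⟩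
      · intro u hu v hv hne
        rcases mem_insert.1 hu with h1 | h1 <;> rcases mem_insert.1 hv with h2 | h2
        · exact absurd (h1.trans h2.symm) hne
        · rw [h1]
          exact hd v h2
        · rw [h2]
          exact (hd u h1).symm
        · exact hM.2.1 u h1 v h2 hne
      · intro u hu
        rcases mem_insert.1 hu with h1 | h1
        · rw [h1]
          exact hT
        · exact hM.2.2 u h1
    · intro M hM
      rw [mem_filter, mem_filter, mem_powerset] at hM
      rw [mem_filter, mem_powerset]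
      refine ⟨?_, avd_sub hM.1.2 (erase_subset _ _)⟩
      intro y hy
      rw [mem_erase] at hy
      rw [mem_filter]
      refine ⟨hM.1.1 hy.2, fun h => ?_⟩
      exact hsame y (hM.1.1 hy.2) x hx (h.trans ha.symm) (hM.1.2.1 y hy.2 x hM.2 hy.1)
    · intro M hM
      rw [mem_filter, mem_powerset] at hM
      refine erase_insert ?_
      intro h
      exact (mem_filter.1 (hM.1 h)).2 ha
    · intro M hM
      rw [mem_filter] at hM
      exact insert_erase hM.2
    · intro M hM
      rw [mem_filter, mem_powerset] at hM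
      rw [prod_insert]
      intro h
      exact (mem_filter.1 (hM.1 h)).2 ha
  · rw [if_neg hT, zero_mul]
    refine sum_eq_zero ?_
    intro M hM
    rw [mem_filter, mem_filter] at hM
    exact absurd (hM.1.2.2 x hM.2) hT

/-- one class splits off -/
lemma G_split (a : ι)
    (hsame : ∀ x ∈ K, ∀ y ∈ K, κ x = κ y → ¬ Disjoint (N x) (N y))
    (hdiff : ∀ x ∈ K, ∀ y ∈ K, κ x ≠ κ y → Disjoint (N x) (N y)) :
    G N s K T = (1 + C (ss N s κ K T a) * X) * G N s (K.filter (fun y => κ y ≠ a)) T := by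
  classical
  have h1 : G N s K T = ∑ M ∈ (K.powerset.filter (Avd N T)).filter (fun M => ∀ x ∈ M, κ x ≠ a),
      ∏ y ∈ M, (C (s y) * X) + ∑ M ∈ (K.powerset.filter (Avd N T)).filter
        (fun M => ¬ ∀ x ∈ M, κ x ≠ a), ∏ y ∈ M, (C (s y) * X) := by
    unfold G
    exact (sum_filter_add_sum_filter_not _ _ _).symm
  have h2 : (K.powerset.filter (Avd N T)).filter (fun M => ∀ x ∈ M, κ x ≠ a) =
      (K.filter (fun y => κ y ≠ a)).powerset.filter (Avd N T) := by
    ext M
    rw [mem_filter, mem_filter, mem_filter, mem_powerset, mem_powerset]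
    constructor
    · rintro ⟨⟨h3, h4⟩, h5⟩
      exact ⟨fun x hx => mem_filter.2 ⟨h3 hx, h5 x hx⟩, h4⟩
    · rintro ⟨h3, h4⟩
      exact ⟨⟨h3.trans (filter_subset _ _), h4⟩, fun x hx => (mem_filter.1 (h3 hx)).2⟩
  have h3 : (K.powerset.filter (Avd N T)).filter (fun M => ¬ ∀ x ∈ M, κ x ≠ a) =
      (K.filter (fun x => κ x = a)).biUnion
        (fun x => (K.powerset.filter (Avd N T)).filter (fun M => x ∈ M)) := by
    ext M
    rw [mem_filter, mem_biUnion]
    constructor
    · rintro ⟨h4, h5⟩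
      push Not at h5
      obtain ⟨x, hx, hxa⟩ := h5
      refine ⟨x, mem_filter.2 ⟨?_, hxa⟩, mem_filter.2 ⟨h4, hx⟩⟩
      exact mem_powerset.1 (mem_filter.1 h4).1 hx
    · rintro ⟨x, hx, hM⟩
      rw [mem_filter] at hx hM
      exact ⟨hM.1, fun h => h x hM.2 hx.2⟩
  have h4 : ∀ x ∈ K.filter (fun x => κ x = a), ∀ y ∈ K.filter (fun x => κ x = a), x ≠ y →
      Disjoint ((K.powerset.filter (Avd N T)).filter (fun M => x ∈ M))
        ((K.powerset.filter (Avd N T)).filter (fun M => y ∈ M)) := by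
    intro x hx y hy hne
    rw [mem_filter] at hx hy
    rw [disjoint_left]
    intro M hM hM'
    rw [mem_filter, mem_filter] at hM
    rw [mem_filter] at hM'
    exact hsame x hx.1 y hy.1 (hx.2.trans hy.2.symm) (hM.1.2.1 x hM.2 y hM'.2 hne)
  rw [h1, h2, h3, sum_biUnion h4]
  have h5 : ∀ x ∈ K.filter (fun x => κ x = a),
      ∑ M ∈ (K.powerset.filter (Avd N T)).filter (fun M => x ∈ M), ∏ y ∈ M, (C (s y) * X) =
      (if Disjoint (N x) T then C (s x) * X else 0) * G N s (K.filter (fun y => κ y ≠ a)) T := by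
    intro x hx
    rw [mem_filter] at hx
    exact sum_mem hx.1 hx.2 hsame hdiff
  rw [sum_congr rfl h5, ← sum_mul, ← sum_filter, filter_filter, ← sum_mul]
  have h6 : ∑ x ∈ K.filter (fun x => κ x = a ∧ Disjoint (N x) T), C (s x) =
      (C (ss N s κ K T a) : ℤ[X]) := by
    unfold ss
    rw [map_sum]
  rw [h6, add_mul, one_mul]
  rfl

/-- THE PRODUCT FORMULA -/
theorem G_prod (I : Finset ι) (K : Finset α) (hI : ∀ x ∈ K, κ x ∈ I)
    (hsame : ∀ x ∈ K, ∀ y ∈ K, κ x = κ y → ¬ Disjoint (N x) (N y))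
    (hdiff : ∀ x ∈ K, ∀ y ∈ K, κ x ≠ κ y → Disjoint (N x) (N y)) :
    G N s K T = ∏ a ∈ I, (1 + C (ss N s κ K T a) * X) := by
  classical
  induction I using Finset.induction_on generalizing K with
  | empty =>
    have h1 : K = ∅ := by
      rw [eq_empty_iff_forall_notMem]
      exact fun x hx => notMem_empty _ (hI x hx)
    subst h1
    unfold G
    rw [powerset_empty, filter_singleton, if_pos (avd_empty N T), sum_singleton, prod_empty,
      prod_empty]
  | insert a I ha ih =>
    rw [prod_insert ha, G_split a hsame hdiff, ih]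
    · congr 1
      refine prod_congr rfl (fun b hb => ?_)
      have hba : b ≠ a := fun h => ha (h ▸ hb)
      have h2 : ss N s κ (K.filter (fun y => κ y ≠ a)) T b = ss N s κ K T b := by
        unfold ss
        rw [filter_filter]
        refine sum_congr ?_ (fun _ _ => rfl)
        refine filter_congr (fun x _ => ?_)
        constructor
        · rintro ⟨_, h3, h4⟩
          exact ⟨h3, h4⟩
        · rintro ⟨h3, h4⟩
          exact ⟨h3 ▸ hba, h3, h4⟩
      rw [h2]
    · intro x hx
      rw [mem_filter] at hx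
      rcases mem_insert.1 (hI x hx.1) with h | h
      · exact absurd h hx.2
      · exact h
    · exact fun x hx y hy => hsame x (mem_of_mem_filter x hx) y (mem_of_mem_filter y hy)
    · exact fun x hx y hy => hdiff x (mem_of_mem_filter x hx) y (mem_of_mem_filter y hy)

/-- a class which does not meet `T` and has total zero does not contribute -/
lemma ss_zero {a : ι} (hd : ∀ x ∈ K, κ x = a → Disjoint (N x) T)
    (h0 : ∑ x ∈ K.filter (fun x => κ x = a), s x = 0) : ss N s κ K T a = 0 := by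
  classical
  unfold ss
  rw [← h0]
  refine sum_congr ?_ (fun _ _ => rfl)
  refine filter_congr (fun x hx => ?_)
  exact ⟨fun h => h.1, fun h => ⟨h, hd x hx h⟩⟩

/-- only the classes of `J` meet `T` -/
theorem G_prod_J (J : Finset ι) (K : Finset α)
    (hsame : ∀ x ∈ K, ∀ y ∈ K, κ x = κ y → ¬ Disjoint (N x) (N y))
    (hdiff : ∀ x ∈ K, ∀ y ∈ K, κ x ≠ κ y → Disjoint (N x) (N y))
    (hT : ∀ x ∈ K, κ x ∉ J → Disjoint (N x) T)
    (h0 : ∀ a, a ∉ J → ∑ x ∈ K.filter (fun x => κ x = a), s x = 0) :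
    G N s K T = ∏ a ∈ J, (1 + C (ss N s κ K T a) * X) := by
  classical
  rw [G_prod (J ∪ K.image κ) K (fun x hx => mem_union_right _ (mem_image_of_mem κ hx)) hsame hdiff]
  symm
  refine prod_subset subset_union_left ?_
  intro a _ ha
  have h1 : ss N s κ K T a = 0 := by
    refine ss_zero (fun x hx h => hT x hx ?_) (h0 a ha)
    rw [h]
    exact ha
  rw [h1, C_0, zero_mul, add_zero]

/-- `T` in two classes -/
theorem E_two {a b : ι} (hab : a ≠ b)
    (hsame : ∀ x ∈ K, ∀ y ∈ K, κ x = κ y → ¬ Disjoint (N x) (N y))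
    (hdiff : ∀ x ∈ K, ∀ y ∈ K, κ x ≠ κ y → Disjoint (N x) (N y))
    (hT : ∀ x ∈ K, κ x ≠ a → κ x ≠ b → Disjoint (N x) T)
    (h0 : ∀ c, c ≠ a → c ≠ b → ∑ x ∈ K.filter (fun x => κ x = c), s x = 0) :
    E N s K T 0 = 1 ∧ E N s K T 1 = ss N s κ K T a + ss N s κ K T b ∧
      E N s K T 2 = ss N s κ K T a * ss N s κ K T b ∧ ∀ k, 3 ≤ k → E N s K T k = 0 := by
  classical
  have h1 := G_prod_J (s := s) (T := T) ({a, b} : Finset ι) K hsame hdiff
    (by
      intro x hx h
      rw [mem_insert, mem_singleton, not_or] at h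
      exact hT x hx h.1 h.2)
    (by
      intro c hc
      rw [mem_insert, mem_singleton, not_or] at hc
      exact h0 c hc.1 hc.2)
  rw [prod_pair hab] at h1
  set p := ss N s κ K T a with hp
  set q := ss N s κ K T b with hq
  have h2 : G N s K T = C 1 + C (p + q) * X + C (p * q) * X ^ 2 := by
    rw [h1, map_add, map_mul, map_one]
    ring
  have h3 : ∀ k, E N s K T k = (if k = 0 then 1 else 0) + (p + q) * (if 1 = k then 1 else 0) +
      (p * q) * (if k = 2 then 1 else 0) := by
    intro k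
    rw [← coeff_G, h2, coeff_add, coeff_add, coeff_C_mul, coeff_C_mul, coeff_C, coeff_X,
      coeff_X_pow]
  refine ⟨?_, ?_, ?_, ?_⟩
  · rw [h3]
    norm_num
  · rw [h3]
    norm_num
  · rw [h3]
    norm_num
  · intro k hk
    rw [h3]
    have e1 : ¬ k = 0 := by omega
    have e2 : ¬ 1 = k := by omega
    have e3 : ¬ k = 2 := by omega
    rw [if_neg e1, if_neg e2, if_neg e3]
    ring

/-- `T` in one class -/
theorem E_one {a : ι}
    (hsame : ∀ x ∈ K, ∀ y ∈ K, κ x = κ y → ¬ Disjoint (N x) (N y))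
    (hdiff : ∀ x ∈ K, ∀ y ∈ K, κ x ≠ κ y → Disjoint (N x) (N y))
    (hT : ∀ x ∈ K, κ x ≠ a → Disjoint (N x) T)
    (h0 : ∀ c, c ≠ a → ∑ x ∈ K.filter (fun x => κ x = c), s x = 0) :
    E N s K T 0 = 1 ∧ E N s K T 1 = ss N s κ K T a ∧ ∀ k, 2 ≤ k → E N s K T k = 0 := by
  classical
  have h1 := G_prod_J (s := s) (T := T) ({a} : Finset ι) K hsame hdiff
    (by
      intro x hx h
      rw [mem_singleton] at h
      exact hT x hx h)
    (by
      intro c hc
      rw [mem_singleton] at hc
      exact h0 c hc)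
  rw [prod_singleton] at h1
  have h3 : ∀ k, E N s K T k = (1 + C (ss N s κ K T a) * X : ℤ[X]).coeff k := by
    intro k
    rw [← coeff_G, h1]
  refine ⟨?_, ?_, ?_⟩
  · rw [h3]
    simp [coeff_X, coeff_one]
  · rw [h3]
    simp [coeff_one]
  · intro k hk
    rw [h3]
    have e1 : ¬ k = 0 := by omega
    have e2 : ¬ 1 = k := by omega
    simp [coeff_X, coeff_one, e1, e2]

/-- `T` meets no class -/
theorem E_zero
    (hsame : ∀ x ∈ K, ∀ y ∈ K, κ x = κ y → ¬ Disjoint (N x) (N y))
    (hdiff : ∀ x ∈ K, ∀ y ∈ K, κ x ≠ κ y → Disjoint (N x) (N y))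
    (hT : ∀ x ∈ K, Disjoint (N x) T)
    (h0 : ∀ c, ∑ x ∈ K.filter (fun x => κ x = c), s x = 0) :
    E N s K T 0 = 1 ∧ ∀ k, 1 ≤ k → E N s K T k = 0 := by
  classical
  have h1 := G_prod_J (s := s) (T := T) (∅ : Finset ι) K hsame hdiff
    (fun x hx _ => hT x hx) (fun c _ => h0 c)
  rw [prod_empty] at h1
  have h3 : ∀ k, E N s K T k = (1 : ℤ[X]).coeff k := by
    intro k
    rw [← coeff_G, h1]
  refine ⟨?_, ?_⟩
  · rw [h3]
    simp [coeff_one]
  · intro k hk
    rw [h3]
    have e1 : ¬ k = 0 := by omega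
    simp [coeff_one, e1]

end gen

end Pool.Agent.GaussPoset.EK

end

/-! From `Pool.Agent.W_448rd_h10.RdA` -/

section

/-!
MP_448cb3_co, G2, window `j - 1`: the inequality for reduced cores, values.  helper10.

`sv z = 2 e z - 3 cc z` where `cc` is the charge of a killer; its sum over one side is
`2 (energy - 3 (killed sites - free elements))`.
-/

namespace Pool.Agent.GaussPoset.Win.Rd

set_option linter.unusedSectionVars false

open Finset I2 K2
-- (open list not needed)

universe u

variable {P : Type u} [DecidableEq P]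
variable {c c' : P → Finset P} {e : P → ℕ} {t : P → ℕ} {V Sd : Finset P}

open Classical in
/-- the value of an element at slope three -/
noncomputable def sv (c c' : P → Finset P) (e : P → ℕ) (z : P) : ℤ :=
  2 * (e z : ℤ) - 3 * (if kl c e z then cc c c' e z else 0)

/-- the sum of the values -/
theorem sum_sv (S : SideQ c c' t V Sd) (adm : ∀ z ∈ Sd, ¬ (kd c' e z ∧ gu c e z)) :
    ∑ z ∈ Sd, sv c c' e z =
      2 * ∑ z ∈ Sd, (e z : ℤ) + 6 * ((fr c c' e Sd).card : ℤ) - 6 * ((KD c' e V).card : ℤ) := by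
  classical
  have h := K2.sum_cc S adm
  unfold sv
  rw [Finset.sum_sub_distrib, ← Finset.mul_sum, ← Finset.mul_sum, ← Finset.sum_filter]
  unfold KK at h
  rw [h]
  ring

/-- another element than `y` kills `x` -/
def ok (c' : P → Finset P) (e : P → ℕ) (y x : P) : Prop := ∃ w ∈ c' x, w ≠ y ∧ e x < e w

lemma kr_one (S : SideQ c c' t V Sd) {x y : P} (hy : x ∈ c y) (h : e x < e y) :
    (kr c' e x).card = 1 ↔ ¬ ok c' e y x := by
  have hyx : y ∈ c' x := (S.dual _ _).1 hy
  have hm : y ∈ kr c' e x := mem_kr.2 ⟨hyx, h⟩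
  constructor
  · intro h1
    rintro ⟨w, hw, hne, hlt⟩
    obtain ⟨a, ha⟩ := card_eq_one.1 h1
    rw [ha, mem_singleton] at hm
    have : w ∈ kr c' e x := mem_kr.2 ⟨hw, hlt⟩
    rw [ha, mem_singleton] at this
    exact hne (this.trans hm.symm)
  · intro h1
    rw [card_eq_one]
    refine ⟨y, ?_⟩
    ext w
    rw [mem_singleton, mem_kr]
    constructor
    · rintro ⟨a, b⟩
      by_contra hne
      exact h1 ⟨w, a, hne, b⟩
    · rintro rfl
      exact ⟨hyx, h⟩

open Classical in
/-- one if `y` is the only killer of `x` -/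
noncomputable def nk (c' : P → Finset P) (e : P → ℕ) (y x : P) : ℤ := if ok c' e y x then 0 else 1

lemma nk_one {y x : P} (h : ¬ ok c' e y x) : nk c' e y x = 1 := by unfold nk; rw [if_neg h]

lemma nk_zero {y x : P} (h : ok c' e y x) : nk c' e y x = 0 := by unfold nk; rw [if_pos h]

lemma nk_cases (y x : P) : (ok c' e y x ∧ nk c' e y x = 0) ∨ (¬ ok c' e y x ∧ nk c' e y x = 1) := by
  by_cases h : ok c' e y x
  · exact Or.inl ⟨h, nk_zero h⟩
  · exact Or.inr ⟨h, nk_one h⟩

section two

variable (S : SideQ c c' t V Sd) {y o x : P} (hy : c y = {o, x}) (hne : o ≠ x)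
include S hy hne

lemma mem_two {z : P} : z ∈ c y ↔ z = o ∨ z = x := by rw [hy]; simp

lemma kl_two : kl c e y ↔ e o < e y ∨ e x < e y := by
  unfold kl
  rw [hy]
  simp

lemma gu_two : gu c e y ↔ e y ≤ e o ∨ e y ≤ e x := by
  unfold gu
  rw [hy]
  simp

/-- no site is killed -/
lemma sv_none (h1 : e y ≤ e o) (h2 : e y ≤ e x) : sv c c' e y = 2 * e y := by
  unfold sv
  rw [if_neg]
  · ring
  · rw [kl_two S hy hne]
    omega

/-- one site is killed -/
lemma sv_one (h1 : e o < e y) (h2 : e y ≤ e x) :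
    sv c c' e y = 2 * e y - 3 * (1 + nk c' e y o) := by
  classical
  have hk : kl c e y := (kl_two S hy hne).2 (Or.inl h1)
  have hg : gu c e y := (gu_two S hy hne).2 (Or.inr h2)
  have hkn : kn c e y = {o} := by
    ext z
    rw [mem_kn, mem_two S hy hne, mem_singleton]
    constructor
    · rintro ⟨rfl | rfl, h⟩
      · rfl
      · omega
    · rintro rfl
      exact ⟨Or.inl rfl, h1⟩
  have hyo : o ∈ c y := (mem_two S hy hne).2 (Or.inl rfl)
  have hso : ((so c c' e y).card : ℤ) = nk c' e y o := by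
    unfold so
    rw [hkn, filter_singleton]
    rcases nk_cases (c' := c') (e := e) y o with ⟨a, b⟩ | ⟨a, b⟩
    · rw [b, if_neg (fun h => (kr_one S hyo h1).1 h a)]
      simp
    · rw [b, if_pos ((kr_one S hyo h1).2 a)]
      simp
  unfold sv
  rw [if_pos hk]
  unfold cc
  rw [hso, hkn, if_pos hg]
  simp

/-- both sites are killed -/
lemma sv_both (h1 : e o < e y) (h2 : e x < e y) :
    sv c c' e y = 2 * e y - 3 * (nk c' e y o + nk c' e y x) := by
  classical
  have hk : kl c e y := (kl_two S hy hne).2 (Or.inl h1)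
  have hg : ¬ gu c e y := by
    rw [gu_two S hy hne]
    omega
  have hkn : kn c e y = {o, x} := by
    ext z
    rw [mem_kn, mem_two S hy hne, mem_insert, mem_singleton]
    constructor
    · rintro ⟨h, -⟩
      exact h
    · rintro (rfl | rfl)
      · exact ⟨Or.inl rfl, h1⟩
      · exact ⟨Or.inr rfl, h2⟩
  have hyo : o ∈ c y := (mem_two S hy hne).2 (Or.inl rfl)
  have hyx : x ∈ c y := (mem_two S hy hne).2 (Or.inr rfl)
  have hso : ((so c c' e y).card : ℤ) = nk c' e y o + nk c' e y x := by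
    unfold so
    rw [hkn, filter_insert, filter_singleton]
    rcases nk_cases (c' := c') (e := e) y o with ⟨a, b⟩ | ⟨a, b⟩ <;>
    rcases nk_cases (c' := c') (e := e) y x with ⟨a', b'⟩ | ⟨a', b'⟩
    · rw [b, b', if_neg (fun h => (kr_one S hyo h1).1 h a), if_neg (fun h => (kr_one S hyx h2).1 h a')]
      simp
    · rw [b, b', if_neg (fun h => (kr_one S hyo h1).1 h a), if_pos ((kr_one S hyx h2).2 a')]
      simp
    · rw [b, b', if_pos ((kr_one S hyo h1).2 a), if_neg (fun h => (kr_one S hyx h2).1 h a')]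
      simp
    · rw [b, b', if_pos ((kr_one S hyo h1).2 a), if_pos ((kr_one S hyx h2).2 a'),
        card_insert_of_notMem (by simpa using hne)]
      simp
  unfold sv
  rw [if_pos hk]
  unfold cc
  rw [hso, hkn, if_neg hg, card_pair hne]
  push_cast
  ring

end two

lemma sv_one' (S : SideQ c c' t V Sd) {y o x : P} (hy : c y = {o, x}) (hne : o ≠ x)
    (h1 : e y ≤ e o) (h2 : e x < e y) : sv c c' e y = 2 * e y - 3 * (1 + nk c' e y x) :=
  sv_one S (by rw [hy, pair_comm]) hne.symm h2 h1

/-- a single element which kills its site -/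
lemma sv_single (S : SideQ c c' t V Sd) {y x : P} (hy : c y = {x}) (h1 : e x < e y) :
    sv c c' e y = 2 * e y + 3 * (1 - nk c' e y x) := by
  classical
  have hk : kl c e y := ⟨x, by rw [hy]; simp, h1⟩
  have hg : ¬ gu c e y := by
    unfold gu
    rw [hy]
    simp
    omega
  have hkn : kn c e y = {x} := by
    ext z
    rw [mem_kn, hy, mem_singleton]
    constructor
    · rintro ⟨h, -⟩
      exact h
    · rintro rfl
      exact ⟨rfl, h1⟩
  have hyo : x ∈ c y := by rw [hy]; simp
  have hso : ((so c c' e y).card : ℤ) = nk c' e y x := by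
    unfold so
    rw [hkn, filter_singleton]
    rcases nk_cases (c' := c') (e := e) y x with ⟨a, b⟩ | ⟨a, b⟩
    · rw [b, if_neg (fun h => (kr_one S hyo h1).1 h a)]
      simp
    · rw [b, if_pos ((kr_one S hyo h1).2 a)]
      simp
  unfold sv
  rw [if_pos hk]
  unfold cc
  rw [hso, hkn, if_neg hg]
  simp
  ring

/-- a single element has a surplus -/
lemma sv_single_ge (S : SideQ c c' t V Sd) {y x : P} (hy : c y = {x}) :
    2 * (e y : ℤ) ≤ sv c c' e y := by
  by_cases h1 : e x < e y
  · rw [sv_single S hy h1]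
    rcases nk_cases (c' := c') (e := e) y x with ⟨a, b⟩ | ⟨a, b⟩ <;> omega
  · unfold sv
    rw [if_neg]
    · omega
    · unfold kl
      rw [hy]
      simpa using h1

/-- bounds -/
lemma sv_ge (S : SideQ c c' t V Sd) (z : P) : 2 * (e z : ℤ) - 6 ≤ sv c c' e z := by
  unfold sv
  have := K2.cc_le_two (e := e) S z
  split_ifs <;> omega

lemma sv_not_kl {z : P} (h : ¬ kl c e z) : sv c c' e z = 2 * (e z : ℤ) := by
  unfold sv
  rw [if_neg h]
  ring

/-- elements at distance at least three have no deficit -/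
lemma sv_far (S : SideQ c c' t V Sd) (adm : ∀ z ∈ Sd, ¬ (kd c' e z ∧ gu c e z)) {z : P}
    (hz : z ∈ Sd) (h3 : 3 ≤ t z) : 0 ≤ sv c c' e z := by
  by_cases h : kl c e z
  · have h1 := K2.t_le_of_kl S adm _ z hz h rfl
    have h2 := sv_ge (e := e) S z
    omega
  · rw [sv_not_kl h]
    omega

end Pool.Agent.GaussPoset.Win.Rd

end

/-! From `Pool.Agent.W_448w4_h10.KB` -/

section

/-!
MP_448cb3_co, G2, case B, window `j`: classification of the cores of energy at most four of a part in which
all near doubles are matched.  Lower joins of every kind are allowed, except elements with two double covers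
without common site.  Abstract setting of `W_448so_h64.SoA`, `SoB`.  helper10.
-/

namespace Pool.Agent.GaussPoset.Win.W4

set_option linter.unusedSectionVars false

open Finset
open Pool.Agent.GaussPoset.Win.SO (Sde Pen TD On kS)
open Pool.Agent.GaussPoset.Win.I2 (kd gu kl kn kr so cc fr KK KD mem_kn mem_kr mem_so kd_iff kl_iff)

universe u

variable {P : Type u} [Fintype P] [DecidableEq P]
variable {c c' : P → Finset P} {t t' : P → ℕ} {V Sd Sd' : Finset P} {e : P → ℕ}

/-- a configuration of a part with matched doubles -/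
structure Cf (c c' : P → Finset P) (t t' : P → ℕ) (V Sd Sd' : Finset P) (e : P → ℕ) : Prop where
  s1 : Sde c c' t V Sd
  s2 : Sde c' c t' V Sd'
  d1 : Disjoint Sd V
  d2 : Disjoint Sd' V
  d3 : Disjoint Sd Sd'
  adm1 : ∀ z ∈ Sd, ¬ (kd c' e z ∧ gu c e z)
  adm2 : ∀ z ∈ Sd', ¬ (kd c e z ∧ gu c' e z)
  dis : Disjoint (KD c' e V) (KD c e V)
  core1 : ∀ x ∈ Sd, t x = 1 → 0 < e x → (∃ z ∈ c' x, 0 < e z) ∨
    ∃ y ∈ Sd', t' y = 1 ∧ c' y = c x ∧ (c x).card = 2 ∧ ∃ z ∈ c y, 0 < e z
  core2 : ∀ x ∈ Sd', t' x = 1 → 0 < e x → (∃ z ∈ c x, 0 < e z) ∨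
    ∃ y ∈ Sd, t y = 1 ∧ c y = c' x ∧ (c' x).card = 2 ∧ ∃ z ∈ c' y, 0 < e z

lemma Cf.symm (C : Cf c c' t t' V Sd Sd' e) : Cf c' c t' t V Sd' Sd e :=
  ⟨C.s2, C.s1, C.d2, C.d1, C.d3.symm, C.adm2, C.adm1, C.dis.symm, C.core2, C.core1⟩

/-- no excited element at distance two with two double covers without common site -/
def NQ (c : P → Finset P) (t : P → ℕ) (Sd : Finset P) (e : P → ℕ) : Prop :=
  ∀ w ∈ Sd, t w = 2 → 0 < e w → ∀ x ∈ c w, ∀ x' ∈ c w, (c x).card = 2 → (c x').card = 2 →
    (c x ∩ c x').Nonempty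

/-- two pendants of one side with disjoint sites -/
def PP (c : P → Finset P) (t : P → ℕ) (Sd : Finset P) (e : P → ℕ) : Prop :=
  ∃ p y p' y', Pen c t Sd p y ∧ Pen c t Sd p' y' ∧ p ≠ p' ∧ y ≠ y' ∧ Disjoint (c y) (c y') ∧
    On e {p, y, p', y'}

/-- a pendant of each side, disjoint sites -/
def PQ (c c' : P → Finset P) (t t' : P → ℕ) (Sd Sd' : Finset P) (e : P → ℕ) : Prop :=
  ∃ p y p' u, Pen c t Sd p y ∧ Pen c' t' Sd' p' u ∧ Disjoint (c y) (c' u) ∧
    On e {p, y, p', u}

/-- label two on an element at distance two with three sites, label one on its covers -/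
def A4 (c : P → Finset P) (t : P → ℕ) (Sd : Finset P) (e : P → ℕ) : Prop :=
  ∃ z x x', z ∈ Sd ∧ t z = 2 ∧ c z = {x, x'} ∧ x ≠ x' ∧ (c x ∪ c x').card = 3 ∧
    ∀ y, e y = if y = z then 2 else if y = x ∨ y = x' then 1 else 0

/-- labels one on a T-element, its covers and their common site -/
def B4 (c : P → Finset P) (t : P → ℕ) (Sd : Finset P) (e : P → ℕ) : Prop :=
  ∃ z x x' s, TD c t Sd z x x' s ∧ On e {z, x, x', s}

/-! ### basic facts -/

lemma card_le_energy {s : Finset P} (h : ∀ x ∈ s, 1 ≤ e x) : s.card ≤ ∑ x, e x := by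
  calc s.card = ∑ _x ∈ s, 1 := by simp
    _ ≤ ∑ x ∈ s, e x := Finset.sum_le_sum h
    _ ≤ ∑ x, e x := Finset.sum_le_sum_of_subset (subset_univ s)

lemma sum_le_energy (s : Finset P) : ∑ x ∈ s, e x ≤ ∑ x, e x :=
  Finset.sum_le_sum_of_subset (subset_univ s)

/-- an element outside `s` has at most the rest of the energy -/
lemma rest_le {s : Finset P} {w : P} (hw : w ∉ s) : e w + ∑ x ∈ s, e x ≤ ∑ x, e x := by
  rw [← Finset.sum_insert hw]
  exact sum_le_energy _

/-- a cover of an excited element is excited -/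
lemma pos_cov (S : Sde c c' t V Sd) (adm : ∀ z ∈ Sd, ¬ (kd c' e z ∧ gu c e z)) {z x : P}
    (hx : x ∈ Sd) (hz : z ∈ c' x) (he : 0 < e z) : 0 < e x := by
  by_contra h
  obtain ⟨a, ha⟩ := S.ne x hx
  exact adm x hx ⟨⟨z, hz, by omega⟩, a, ha, by omega⟩

/-- sites above a near element -/
lemma near_site (S : Sde c c' t V Sd) {x a : P} (hx : x ∈ Sd) (ht : t x = 1) (ha : a ∈ c x) :
    a ∈ V := by
  obtain ⟨h1, h2⟩ := S.cin x hx a ha
  rcases h1 with h1 | h1
  · have := S.tS a h1
    omega
  · exact h1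

/-- covers of a far element -/
lemma far_cov (S : Sde c c' t V Sd) {z a : P} (hz : z ∈ Sd) (ht : 2 ≤ t z) (ha : a ∈ c z) :
    a ∈ Sd ∧ t z = t a + 1 := by
  obtain ⟨h1, h2⟩ := S.cin z hz a ha
  rcases h1 with h1 | h1
  · exact ⟨h1, h2⟩
  · have := S.tV a h1
    omega

/-- below an excited far element there is an excited one at distance two and an excited near one -/
lemma far_two (S : Sde c c' t V Sd) (adm : ∀ z ∈ Sd, ¬ (kd c' e z ∧ gu c e z)) :
    ∀ n, ∀ z ∈ Sd, t z = n + 1 → 0 < e z → ∃ x ∈ Sd, t x = 1 ∧ 0 < e x := by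
  intro n
  induction n with
  | zero => intro z hz ht he; exact ⟨z, hz, by omega, he⟩
  | succ n ih =>
    intro z hz ht he
    obtain ⟨a, ha⟩ := S.ne z hz
    obtain ⟨h1, h2⟩ := far_cov S hz (by omega) ha
    exact ih a h1 (by omega) (pos_cov S adm h1 ((S.dual z a).1 ha) he)

/-- no excited near element: the side is not excited -/
lemma side_zero (S : Sde c c' t V Sd) (adm : ∀ z ∈ Sd, ¬ (kd c' e z ∧ gu c e z))
    (h : ∀ x ∈ Sd, t x = 1 → e x = 0) : ∀ z ∈ Sd, e z = 0 := by
  intro z hz
  by_contra hne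
  have h1 := S.tS z hz
  obtain ⟨x, hx, h2, h3⟩ := far_two S adm (t z - 1) z hz (by omega) (by omega)
  have := h x hx h2
  omega

open Classical in
lemma mem_KD {a : P} {W : Finset P} : a ∈ KD c' e W ↔ a ∈ W ∧ kd c' e a := by
  unfold KD
  rw [mem_filter]

/-- the surplus of a side which is not excited -/
lemma kS_zero (S : Sde c c' t V Sd) (h : ∀ z ∈ Sd, e z = 0) : kS c c' V Sd e ≤ 0 := by
  have h1 : KD c' e V = ∅ := by
    rw [eq_empty_iff_forall_notMem]
    intro v hv
    rw [mem_KD] at hv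
    obtain ⟨h1, y, hy, hlt⟩ := hv
    have := h y (S.cout v (Or.inr h1) y hy)
    omega
  unfold kS
  rw [h1, card_empty]
  have : (0 : ℤ) ≤ ((fr c c' e Sd).card : ℤ) := Nat.cast_nonneg _
  push_cast
  omega

/-- killed sites are below excited near elements -/
lemma KD_mem (S : Sde c c' t V Sd) {v : P} (hv : v ∈ KD c' e V) :
    v ∈ V ∧ ∃ y ∈ Sd, t y = 1 ∧ v ∈ c y ∧ e v < e y := by
  rw [mem_KD] at hv
  obtain ⟨h1, y, hy, hlt⟩ := hv
  have h2 := S.cout v (Or.inr h1) y hy
  have h3 := (S.dual y v).2 hy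
  obtain ⟨-, h4⟩ := S.cin y h2 v h3
  have := S.tV v h1
  exact ⟨h1, y, h2, by omega, h3, hlt⟩

open Classical in
lemma mem_fr {z : P} : z ∈ fr c c' e Sd ↔ z ∈ Sd ∧ ¬ kd c' e z ∧ ¬ gu c e z := by
  unfold fr
  rw [mem_filter]

/-- TOUCHED: for energy at most four the excited near elements are touched -/
lemma Cf.touched (C : Cf c c' t t' V Sd Sd' e) (hE : ∑ x, e x ≤ 4) {x : P} (hx : x ∈ Sd)
    (ht : t x = 1) (he : 0 < e x) : ∃ z ∈ c' x, 0 < e z := by
  rcases C.core1 x hx ht he with h | ⟨y, hy, hty, hyx, hc, z, hz, hez⟩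
  · exact h
  exfalso
  have hyp : 0 < e y := pos_cov C.s2 C.adm2 hy hz hez
  have hzS : z ∈ Sd' := C.s2.cout y (Or.inl hy) z hz
  have hzt : t' z = t' y + 1 := (C.s2.cin z hzS y ((C.s2.dual z y).2 hz)).2
  have hsite : ∀ a ∈ c x, 1 ≤ e a := by
    intro a ha
    have haV := near_site C.s1 hx ht ha
    by_contra hlt
    have h1 : a ∈ KD c' e V := by
      rw [mem_KD]
      exact ⟨haV, x, (C.s1.dual x a).1 ha, by omega⟩
    have h2 : a ∈ KD c e V := by
      rw [mem_KD]
      rw [← hyx] at ha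
      exact ⟨haV, y, (C.s2.dual y a).1 ha, by omega⟩
    exact (disjoint_left.1 C.dis h1) h2
  have hcV : ∀ a ∈ c x, a ∈ V := fun a ha => near_site C.s1 hx ht ha
  have hxc : x ∉ c x := fun h => disjoint_left.1 C.d1 hx (hcV x h)
  have hyc : y ∉ c x := fun h => disjoint_left.1 C.d2 hy (hcV y h)
  have hzc : z ∉ c x := fun h => disjoint_left.1 C.d2 hzS (hcV z h)
  have hxy : x ≠ y := by
    rintro rfl
    exact disjoint_left.1 C.d3 hx hy
  have hxz : x ≠ z := by
    rintro rfl
    exact disjoint_left.1 C.d3 hx hzS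
  have hyz : y ≠ z := by
    rintro rfl
    omega
  have h5 : (insert x (insert y (insert z (c x)))).card ≤ ∑ x, e x := by
    apply card_le_energy
    intro a ha
    rw [mem_insert, mem_insert, mem_insert] at ha
    rcases ha with rfl | rfl | rfl | ha
    · exact he
    · exact hyp
    · exact hez
    · exact hsite a ha
  rw [card_insert_of_notMem, card_insert_of_notMem, card_insert_of_notMem, hc] at h5
  · omega
  · exact hzc
  · rw [mem_insert, not_or]; exact ⟨hyz, hyc⟩
  · rw [mem_insert, mem_insert, not_or, not_or]; exact ⟨hxy, hxz, hxc⟩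

/-- one excited near element: the surplus is at most one -/
lemma Cf.one (C : Cf c c' t t' V Sd Sd' e) (hE : ∑ x, e x ≤ 4) {x : P} (hx : x ∈ Sd)
    (ht : t x = 1) (he : 0 < e x) (huniq : ∀ y ∈ Sd, t y = 1 → 0 < e y → y = x) :
    kS c c' V Sd e ≤ 1 := by
  have h1 : KD c' e V ⊆ c x := by
    intro v hv
    obtain ⟨-, y, hy, hty, hvy, hlt⟩ := KD_mem C.s1 hv
    rw [huniq y hy hty (by omega)] at hvy
    exact hvy
  have h2 := card_le_card h1
  have h3 := C.s1.c2 x
  by_contra hcon
  unfold kS at hcon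
  have h4 : (KD c' e V).card = 2 := by
    have : (0 : ℤ) ≤ ((fr c c' e Sd).card : ℤ) := Nat.cast_nonneg _
    omega
  have h5 : fr c c' e Sd = ∅ := by
    rw [← card_eq_zero]
    omega
  have h6 : KD c' e V = c x := Finset.eq_of_subset_of_card_le h1 (by omega)
  have h7 : ¬ gu c e x := by
    rintro ⟨a, ha, hle⟩
    rw [← h6] at ha
    obtain ⟨-, y, hy, hty, hvy, hlt⟩ := KD_mem C.s1 ha
    rw [huniq y hy hty (by omega)] at hlt
    omega
  have h8 : kd c' e x := by
    by_contra h8
    have : x ∈ fr c c' e Sd := mem_fr.2 ⟨hx, h8, h7⟩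
    rw [h5] at this
    exact absurd this (notMem_empty _)
  obtain ⟨z, hz, hlt⟩ := h8
  have hzS : z ∈ Sd := C.s1.cout x (Or.inl hx) z hz
  have hzx : x ∈ c z := (C.s1.dual z x).2 hz
  have htz : t z = t x + 1 := (C.s1.cin z hzS x hzx).2
  have h9 : ¬ gu c e z := by
    rintro ⟨a, ha, hle⟩
    obtain ⟨haS, hta⟩ := far_cov C.s1 hzS (by omega) ha
    have hax : a = x := huniq a haS (by omega) (by omega)
    rw [hax] at hle
    omega
  have h10 : kd c' e z := by
    by_contra h10
    have : z ∈ fr c c' e Sd := mem_fr.2 ⟨hzS, h10, h9⟩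
    rw [h5] at this
    exact absurd this (notMem_empty _)
  obtain ⟨z2, hz2, hlt2⟩ := h10
  have hz2S : z2 ∈ Sd := C.s1.cout z (Or.inl hzS) z2 hz2
  have htz2 : t z2 = t z + 1 := (C.s1.cin z2 hz2S z ((C.s1.dual z2 z).2 hz2)).2
  have hne1 : x ≠ z := by rintro rfl; omega
  have hne2 : x ≠ z2 := by rintro rfl; omega
  have hne3 : z ≠ z2 := by rintro rfl; omega
  have h11 := sum_le_energy (e := e) ({x, z, z2} : Finset P)
  rw [sum_insert (by rw [mem_insert, mem_singleton, not_or]; exact ⟨hne1, hne2⟩),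
    sum_insert (by rw [mem_singleton]; exact hne3), sum_singleton] at h11
  omega

/-- covers of an element at distance two -/
lemma cov_two (S : Sde c c' t V Sd) (adm : ∀ z ∈ Sd, ¬ (kd c' e z ∧ gu c e z)) {z a : P}
    (hz : z ∈ Sd) (ht : t z = 2) (he : 0 < e z) (ha : a ∈ c z) : a ∈ Sd ∧ t a = 1 ∧ 0 < e a := by
  obtain ⟨h1, h2⟩ := far_cov S hz (by omega) ha
  exact ⟨h1, by omega, pos_cov S adm h1 ((S.dual z a).1 ha) he⟩

/-- a near element with label one without excited sites and without lower label two is free -/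
lemma fr_near {x : P} (hx : x ∈ Sd) (hk : ∀ z ∈ c' x, e z ≤ e x) (hs : ∀ a ∈ c x, e a < e x) : x ∈ fr c c' e Sd := by
  rw [mem_fr]
  refine ⟨hx, ?_, ?_⟩
  · rintro ⟨z, hz, hlt⟩
    have := hk z hz
    omega
  · rintro ⟨a, ha, hle⟩
    have := hs a ha
    omega

/-- one pendant on each side -/
lemma Cf.sides (C : Cf c c' t t' V Sd Sd' e) (hE : ∑ x, e x ≤ 4) {x u : P} (hx : x ∈ Sd)
    (htx : t x = 1) (hex : 0 < e x) (hu : u ∈ Sd') (htu : t' u = 1) (heu : 0 < e u)
    (hk : 1 < kS c c' V Sd e + kS c' c V Sd' e) :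
    PQ c c' t t' Sd Sd' e ∧ kS c c' V Sd e + kS c' c V Sd' e ≤ 2 := by
  obtain ⟨z, hz, hez⟩ := C.touched hE hx htx hex
  obtain ⟨w, hw, hew⟩ := C.symm.touched hE hu htu heu
  have hzS : z ∈ Sd := C.s1.cout x (Or.inl hx) z hz
  have hwS : w ∈ Sd' := C.s2.cout u (Or.inl hu) w hw
  have htz : t z = t x + 1 := (C.s1.cin z hzS x ((C.s1.dual z x).2 hz)).2
  have htw : t' w = t' u + 1 := (C.s2.cin w hwS u ((C.s2.dual w u).2 hw)).2
  have n1 : z ≠ x := by rintro rfl; omega
  have n2 : w ≠ u := by rintro rfl; omega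
  have n3 : ∀ {a b : P}, a ∈ Sd → b ∈ Sd' → a ≠ b := by
    rintro a b ha hb rfl
    exact disjoint_left.1 C.d3 ha hb
  have hsum : ∑ y ∈ ({z, x, w, u} : Finset P), e y = e z + (e x + (e w + e u)) := by
    rw [sum_insert, sum_insert, sum_insert, sum_singleton]
    · rw [mem_singleton]; exact n2
    · rw [mem_insert, mem_singleton, not_or]; exact ⟨n3 hx hwS, n3 hx hu⟩
    · rw [mem_insert, mem_insert, mem_singleton, not_or, not_or]
      exact ⟨n1, n3 hzS hwS, n3 hzS hu⟩
  have hle := sum_le_energy (e := e) ({z, x, w, u} : Finset P)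
  rw [hsum] at hle
  have g1 : e z = 1 := by omega
  have g2 : e x = 1 := by omega
  have g3 : e w = 1 := by omega
  have g4 : e u = 1 := by omega
  have hrest : ∀ y, y ∉ ({z, x, w, u} : Finset P) → e y = 0 := by
    intro y hy
    have := rest_le (e := e) hy
    rw [hsum] at this
    omega
  have hle1 : ∀ y, e y ≤ 1 := by
    intro y
    by_cases hy : y ∈ ({z, x, w, u} : Finset P)
    · rw [mem_insert, mem_insert, mem_insert, mem_singleton] at hy
      rcases hy with rfl | rfl | rfl | rfl <;> omega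
    · rw [hrest y hy]; omega
  have hsite : ∀ a ∈ V, e a = 0 := by
    intro a ha
    apply hrest
    rw [mem_insert, mem_insert, mem_insert, mem_singleton]
    rintro (rfl | rfl | rfl | rfl)
    · exact disjoint_left.1 C.d1 hzS ha
    · exact disjoint_left.1 C.d1 hx ha
    · exact disjoint_left.1 C.d2 hwS ha
    · exact disjoint_left.1 C.d2 hu ha
  have hux : ∀ y ∈ Sd, t y = 1 → 0 < e y → y = x := by
    intro y hy hty hey
    by_contra hne
    have : e y = 0 := by
      apply hrest
      rw [mem_insert, mem_insert, mem_insert, mem_singleton]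
      rintro (rfl | rfl | rfl | rfl)
      · omega
      · exact hne rfl
      · exact n3 hy hwS rfl
      · exact n3 hy hu rfl
    omega
  have huu : ∀ y ∈ Sd', t' y = 1 → 0 < e y → y = u := by
    intro y hy hty hey
    by_contra hne
    have : e y = 0 := by
      apply hrest
      rw [mem_insert, mem_insert, mem_insert, mem_singleton]
      rintro (rfl | rfl | rfl | rfl)
      · exact n3 hzS hy rfl
      · exact n3 hx hy rfl
      · omega
      · exact hne rfl
    omega
  have k1 := C.one hE hx htx hex hux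
  have k2 := C.symm.one hE hu htu heu huu
  have e1 : kS c c' V Sd e = 1 := by omega
  have e2 : kS c' c V Sd' e = 1 := by omega
  have f1 : x ∈ fr c c' e Sd := fr_near hx (fun y _ => by rw [g2]; exact hle1 y)
    (fun a ha => by rw [hsite a (near_site C.s1 hx htx ha)]; omega)
  have f2 : u ∈ fr c' c e Sd' := fr_near hu (fun y _ => by rw [g4]; exact hle1 y)
    (fun a ha => by rw [hsite a (near_site C.s2 hu htu ha)]; omega)
  have s1 : KD c' e V ⊆ c x := by
    intro v hv
    obtain ⟨-, y, hy, hty, hvy, hlt⟩ := KD_mem C.s1 hv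
    rw [hux y hy hty (by omega)] at hvy
    exact hvy
  have s2 : KD c e V ⊆ c' u := by
    intro v hv
    obtain ⟨-, y, hy, hty, hvy, hlt⟩ := KD_mem C.s2 hv
    rw [huu y hy hty (by omega)] at hvy
    exact hvy
  have p1 : 1 ≤ (fr c c' e Sd).card := card_pos.2 ⟨x, f1⟩
  have p2 : 1 ≤ (fr c' c e Sd').card := card_pos.2 ⟨u, f2⟩
  have q1 := card_le_card s1
  have q2 := card_le_card s2
  have r1 := C.s1.c2 x
  have r2 := C.s2.c2 u
  unfold kS at e1 e2
  have h1 : KD c' e V = c x := Finset.eq_of_subset_of_card_le s1 (by omega)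
  have h2 : KD c e V = c' u := Finset.eq_of_subset_of_card_le s2 (by omega)
  have c1 : c z = {x} := by
    obtain ⟨a, ha⟩ := C.s1.ne z hzS
    apply eq_singleton_iff_unique_mem.2
    refine ⟨(C.s1.dual z x).2 hz, fun b hb => ?_⟩
    obtain ⟨b1, b2, b3⟩ := cov_two C.s1 C.adm1 hzS (by omega) hez hb
    exact hux b b1 b2 b3
  have c2 : c' w = {u} := by
    apply eq_singleton_iff_unique_mem.2
    refine ⟨(C.s2.dual w u).2 hw, fun b hb => ?_⟩
    obtain ⟨b1, b2, b3⟩ := cov_two C.s2 C.adm2 hwS (by omega) hew hb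
    exact huu b b1 b2 b3
  refine ⟨⟨z, x, w, u, ⟨hzS, by omega, c1, by omega⟩, ⟨hwS, by omega, c2, by omega⟩, ?_, ?_⟩,
    by unfold kS; omega⟩
  · rw [← h1, ← h2]
    exact C.dis
  · intro y
    split_ifs with hy
    · rw [mem_insert, mem_insert, mem_insert, mem_singleton] at hy
      rcases hy with rfl | rfl | rfl | rfl <;> assumption
    · exact hrest y hy

/-- the union of the sites of two near elements below a common element has at most three elements -/
lemma union_three (S : Sde c c' t V Sd) (nq : NQ c t Sd e) {z x x' : P} (hz : z ∈ Sd)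
    (ht : t z = 2) (he : 0 < e z) (hx : x ∈ c z) (hx' : x' ∈ c z) : (c x ∪ c x').card ≤ 3 := by
  have h1 := card_union_add_card_inter (c x) (c x')
  have h2 := S.c2 x
  have h3 := S.c2 x'
  by_contra hcon
  have h4 := card_pos.2 (nq z hz ht he x hx x' hx' (by omega) (by omega))
  omega

/-- two excited near elements without common excited lower element -/
lemma Cf.apart (C : Cf c c' t t' V Sd Sd' e) (hE : ∑ x, e x ≤ 4) {x x' : P} (hx : x ∈ Sd)
    (htx : t x = 1) (hex : 0 < e x) (hx' : x' ∈ Sd) (htx' : t x' = 1) (hex' : 0 < e x')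
    (hne : x ≠ x') (hno : ∀ z ∈ Sd, t z = 2 → 0 < e z → x ∈ c z → x' ∉ c z) :
    kS c c' V Sd e ≤ 1 ∨ (kS c c' V Sd e ≤ 2 ∧ PP c t Sd e) := by
  obtain ⟨z, hz, hez⟩ := C.touched hE hx htx hex
  obtain ⟨w, hw, hew⟩ := C.touched hE hx' htx' hex'
  have hzS : z ∈ Sd := C.s1.cout x (Or.inl hx) z hz
  have hwS : w ∈ Sd := C.s1.cout x' (Or.inl hx') w hw
  have hzx : x ∈ c z := (C.s1.dual z x).2 hz
  have hwx : x' ∈ c w := (C.s1.dual w x').2 hw
  have htz : t z = t x + 1 := (C.s1.cin z hzS x hzx).2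
  have htw : t w = t x' + 1 := (C.s1.cin w hwS x' hwx).2
  have nzw : z ≠ w := by
    rintro rfl
    exact hno z hzS (by omega) hez hzx hwx
  have n1 : z ≠ x := by rintro rfl; omega
  have n2 : w ≠ x' := by rintro rfl; omega
  have n3 : z ≠ x' := by rintro rfl; omega
  have n4 : w ≠ x := by rintro rfl; omega
  have hsum : ∑ y ∈ ({z, x, w, x'} : Finset P), e y = e z + (e x + (e w + e x')) := by
    rw [sum_insert, sum_insert, sum_insert, sum_singleton]
    · rw [mem_singleton]; exact n2
    · rw [mem_insert, mem_singleton, not_or]; exact ⟨Ne.symm n4, hne⟩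
    · rw [mem_insert, mem_insert, mem_singleton, not_or, not_or]
      exact ⟨n1, nzw, n3⟩
  have hle := sum_le_energy (e := e) ({z, x, w, x'} : Finset P)
  rw [hsum] at hle
  have g1 : e z = 1 := by omega
  have g2 : e x = 1 := by omega
  have g3 : e w = 1 := by omega
  have g4 : e x' = 1 := by omega
  have hrest : ∀ y, y ∉ ({z, x, w, x'} : Finset P) → e y = 0 := by
    intro y hy
    have := rest_le (e := e) hy
    rw [hsum] at this
    omega
  have hle1 : ∀ y, e y ≤ 1 := by
    intro y
    by_cases hy : y ∈ ({z, x, w, x'} : Finset P)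
    · rw [mem_insert, mem_insert, mem_insert, mem_singleton] at hy
      rcases hy with rfl | rfl | rfl | rfl <;> omega
    · rw [hrest y hy]; omega
  have hsite : ∀ a ∈ V, e a = 0 := by
    intro a ha
    apply hrest
    rw [mem_insert, mem_insert, mem_insert, mem_singleton]
    rintro (rfl | rfl | rfl | rfl)
    · exact disjoint_left.1 C.d1 hzS ha
    · exact disjoint_left.1 C.d1 hx ha
    · exact disjoint_left.1 C.d1 hwS ha
    · exact disjoint_left.1 C.d1 hx' ha
  have hux : ∀ y ∈ Sd, t y = 1 → 0 < e y → y = x ∨ y = x' := by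
    intro y hy hty hey
    by_contra hcon
    rw [not_or] at hcon
    have : e y = 0 := by
      apply hrest
      rw [mem_insert, mem_insert, mem_insert, mem_singleton]
      rintro (rfl | rfl | rfl | rfl)
      · omega
      · exact hcon.1 rfl
      · omega
      · exact hcon.2 rfl
    omega
  have f1 : x ∈ fr c c' e Sd := fr_near hx (fun y _ => by rw [g2]; exact hle1 y)
    (fun a ha => by rw [hsite a (near_site C.s1 hx htx ha)]; omega)
  have f2 : x' ∈ fr c c' e Sd := fr_near hx' (fun y _ => by rw [g4]; exact hle1 y)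
    (fun a ha => by rw [hsite a (near_site C.s1 hx' htx' ha)]; omega)
  have s1 : KD c' e V ⊆ c x ∪ c x' := by
    intro v hv
    obtain ⟨-, y, hy, hty, hvy, hlt⟩ := KD_mem C.s1 hv
    rcases hux y hy hty (by omega) with rfl | rfl
    · exact mem_union_left _ hvy
    · exact mem_union_right _ hvy
  have p1 : 2 ≤ (fr c c' e Sd).card := by
    rw [← card_pair hne]
    apply card_le_card
    intro y hy
    rw [mem_insert, mem_singleton] at hy
    rcases hy with rfl | rfl
    · exact f1
    · exact f2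
  have q1 := card_le_card s1
  have r1 := C.s1.c2 x
  have r2 := C.s1.c2 x'
  have r3 := card_union_add_card_inter (c x) (c x')
  by_cases hk : kS c c' V Sd e ≤ 1
  · exact Or.inl hk
  right
  unfold kS at hk ⊢
  refine ⟨by omega, ?_⟩
  have c1 : c z = {x} := by
    apply eq_singleton_iff_unique_mem.2
    refine ⟨hzx, fun b hb => ?_⟩
    obtain ⟨b1, b2, b3⟩ := cov_two C.s1 C.adm1 hzS (by omega) hez hb
    rcases hux b b1 b2 b3 with rfl | rfl
    · rfl
    · exact absurd hb (hno z hzS (by omega) hez hzx)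
  have c2 : c w = {x'} := by
    apply eq_singleton_iff_unique_mem.2
    refine ⟨hwx, fun b hb => ?_⟩
    obtain ⟨b1, b2, b3⟩ := cov_two C.s1 C.adm1 hwS (by omega) hew hb
    rcases hux b b1 b2 b3 with rfl | rfl
    · exact absurd hwx (hno w hwS (by omega) hew hb)
    · rfl
  refine ⟨z, x, w, x', ⟨hzS, by omega, c1, by omega⟩, ⟨hwS, by omega, c2, by omega⟩, nzw, hne,
    ?_, ?_⟩
  · rw [disjoint_iff_inter_eq_empty, ← card_eq_zero]
    omega
  · intro y
    split_ifs with hy
    · rw [mem_insert, mem_insert, mem_insert, mem_singleton] at hy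
      rcases hy with rfl | rfl | rfl | rfl <;> assumption
    · exact hrest y hy

/-- two excited near elements below a common excited element -/
lemma Cf.join (C : Cf c c' t t' V Sd Sd' e) (hE : ∑ x, e x ≤ 4) (nq : NQ c t Sd e)
    {x x' z : P} (hx : x ∈ Sd)
    (htx : t x = 1) (hex : 0 < e x) (hx' : x' ∈ Sd) (htx' : t x' = 1) (hex' : 0 < e x')
    (hne : x ≠ x') (hzS : z ∈ Sd) (htz : t z = 2) (hez : 0 < e z) (hzx : x ∈ c z)
    (hzx' : x' ∈ c z) :
    kS c c' V Sd e ≤ 1 ∨ (kS c c' V Sd e ≤ 2 ∧ (A4 c t Sd e ∨ B4 c t Sd e)) := by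
  have hcz : c z = {x, x'} := by
    symm
    apply Finset.eq_of_subset_of_card_le
    · intro y hy
      rw [mem_insert, mem_singleton] at hy
      rcases hy with rfl | rfl
      · exact hzx
      · exact hzx'
    · rw [card_pair hne]; exact C.s1.c2 z
  have n1 : z ≠ x := by rintro rfl; omega
  have n3 : z ≠ x' := by rintro rfl; omega
  have hsum : ∑ y ∈ ({z, x, x'} : Finset P), e y = e z + (e x + e x') := by
    rw [sum_insert, sum_insert, sum_singleton]
    · rw [mem_singleton]; exact hne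
    · rw [mem_insert, mem_singleton, not_or]; exact ⟨n1, n3⟩
  have hle := sum_le_energy (e := e) ({z, x, x'} : Finset P)
  rw [hsum] at hle
  have hrest : ∀ y, y ∉ ({z, x, x'} : Finset P) → e y + (e z + (e x + e x')) ≤ 4 := by
    intro y hy
    have := rest_le (e := e) hy
    rw [hsum] at this
    omega
  have hrest2 : ∀ y y', y ∉ ({z, x, x'} : Finset P) → y' ∉ ({z, x, x'} : Finset P) → y ≠ y' →
      e y + e y' + (e z + (e x + e x')) ≤ 4 := by
    intro y y' hy hy' hyy
    have h1 := rest_le (e := e) (s := insert y' ({z, x, x'} : Finset P)) (w := y) (by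
      rw [mem_insert, not_or]; exact ⟨hyy, hy⟩)
    rw [sum_insert hy', hsum] at h1
    omega
  have hVn : ∀ a ∈ V, a ∉ ({z, x, x'} : Finset P) := by
    intro a ha
    rw [mem_insert, mem_insert, mem_singleton]
    rintro (rfl | rfl | rfl)
    · exact disjoint_left.1 C.d1 hzS ha
    · exact disjoint_left.1 C.d1 hx ha
    · exact disjoint_left.1 C.d1 hx' ha
  have hux : ∀ y ∈ Sd, t y = 1 → 0 < e y → y = x ∨ y = x' := by
    intro y hy hty hey
    by_contra hcon
    rw [not_or] at hcon
    obtain ⟨w, hw, hew⟩ := C.touched hE hy hty hey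
    have hwS : w ∈ Sd := C.s1.cout y (Or.inl hy) w hw
    have hwy : y ∈ c w := (C.s1.dual w y).2 hw
    have htw : t w = t y + 1 := (C.s1.cin w hwS y hwy).2
    have hyn : y ∉ ({z, x, x'} : Finset P) := by
      rw [mem_insert, mem_insert, mem_singleton]
      rintro (rfl | rfl | rfl)
      · omega
      · exact hcon.1 rfl
      · exact hcon.2 rfl
    have hwn : w ∉ ({z, x, x'} : Finset P) := by
      rw [mem_insert, mem_insert, mem_singleton]
      rintro (rfl | rfl | rfl)
      · rw [hcz, mem_insert, mem_singleton] at hwy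
        exact hwy.elim hcon.1 hcon.2
      · omega
      · omega
    have := hrest2 y w hyn hwn (by rintro rfl; omega)
    omega
  have s1 : KD c' e V ⊆ c x ∪ c x' := by
    intro v hv
    obtain ⟨-, y, hy, hty, hvy, hlt⟩ := KD_mem C.s1 hv
    rcases hux y hy hty (by omega) with rfl | rfl
    · exact mem_union_left _ hvy
    · exact mem_union_right _ hvy
  have q1 := card_le_card s1
  have r1 := C.s1.c2 x
  have r2 := C.s1.c2 x'
  have r3 := card_union_add_card_inter (c x) (c x')
  have r4 := union_three C.s1 nq hzS htz hez hzx hzx'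
  have hcV : ∀ a ∈ c x ∪ c x', a ∈ V := by
    intro a ha
    rcases mem_union.1 ha with ha | ha
    · exact near_site C.s1 hx htx ha
    · exact near_site C.s1 hx' htx' ha
  -- lower covers of `x`, `x'` other than `z`
  have hlow : ∀ y ∈ Sd, t y = 2 → y ≠ z → e y + (e z + (e x + e x')) ≤ 4 := by
    intro y hy hty hyz
    apply hrest
    rw [mem_insert, mem_insert, mem_singleton]
    rintro (rfl | rfl | rfl)
    · exact hyz rfl
    · omega
    · omega
  have htl : ∀ {a y : P}, a ∈ Sd → y ∈ c' a → y ∈ Sd ∧ t y = t a + 1 := by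
    intro a y ha hy
    have h1 := C.s1.cout a (Or.inl ha) y hy
    exact ⟨h1, (C.s1.cin y h1 a ((C.s1.dual y a).2 hy)).2⟩
  by_cases h2 : 2 ≤ e z
  · -- label two on `z`
    have g1 : e z = 2 := by omega
    have g2 : e x = 1 := by omega
    have g3 : e x' = 1 := by omega
    have hz0 : ∀ y, y ∉ ({z, x, x'} : Finset P) → e y = 0 := by
      intro y hy
      have := hrest y hy
      omega
    have f1 : z ∈ fr c c' e Sd := by
      rw [mem_fr]
      refine ⟨hzS, ?_, ?_⟩
      · rintro ⟨y, hy, hlt⟩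
        obtain ⟨h3, h4⟩ := htl hzS hy
        have : e y = 0 := by
          apply hz0
          rw [mem_insert, mem_insert, mem_singleton]
          rintro (rfl | rfl | rfl) <;> omega
        omega
      · rintro ⟨a, ha, hle'⟩
        rw [hcz, mem_insert, mem_singleton] at ha
        rcases ha with rfl | rfl <;> omega
    have p1 : 1 ≤ (fr c c' e Sd).card := card_pos.2 ⟨z, f1⟩
    by_cases hk : kS c c' V Sd e ≤ 1
    · exact Or.inl hk
    right
    unfold kS at hk ⊢
    refine ⟨by omega, Or.inl ⟨z, x, x', hzS, htz, hcz, hne, by omega, ?_⟩⟩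
    intro y
    split_ifs with h3 h4
    · rw [h3, g1]
    · rcases h4 with rfl | rfl <;> assumption
    · apply hz0
      rw [mem_insert, mem_insert, mem_singleton]
      rintro (h5 | h5 | h5)
      · exact h3 h5
      · exact h4 (Or.inl h5)
      · exact h4 (Or.inr h5)
  · have g1 : e z = 1 := by omega
    -- if the sites of `x` have smaller labels, `x` is free
    have hfx : (∀ a ∈ c x, e a < e x) → x ∈ fr c c' e Sd := by
      intro h
      refine fr_near hx (fun y hy => ?_) h
      obtain ⟨h3, h4⟩ := htl hx hy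
      by_cases hyz : y = z
      · rw [hyz]; omega
      · have := hlow y h3 (by omega) hyz
        omega
    have hfx' : (∀ a ∈ c x', e a < e x') → x' ∈ fr c c' e Sd := by
      intro h
      refine fr_near hx' (fun y hy => ?_) h
      obtain ⟨h3, h4⟩ := htl hx' hy
      by_cases hyz : y = z
      · rw [hyz]; omega
      · have := hlow y h3 (by omega) hyz
        omega
    have htwo : x ∈ fr c c' e Sd → x' ∈ fr c c' e Sd → 2 ≤ (fr c c' e Sd).card := by
      intro f1 f2
      rw [← card_pair hne]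
      apply card_le_card
      intro y hy
      rw [mem_insert, mem_singleton] at hy
      rcases hy with rfl | rfl
      · exact f1
      · exact f2
    by_cases h3 : ∀ a ∈ c x ∪ c x', e a = 0
    · left
      have p1 := htwo (hfx fun a ha => by rw [h3 a (mem_union_left _ ha)]; exact hex)
        (hfx' fun a ha => by rw [h3 a (mem_union_right _ ha)]; exact hex')
      unfold kS
      omega
    · push Not at h3
      obtain ⟨s, hs, hes⟩ := h3
      have hsV := hcV s hs
      have hsn := hVn s hsV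
      have h4 := hrest s hsn
      have g2 : e x = 1 := by omega
      have g3 : e x' = 1 := by omega
      have g4 : e s = 1 := by omega
      have hz0 : ∀ y, y ∉ ({z, x, x'} : Finset P) → y ≠ s → e y = 0 := by
        intro y hy hys
        have := hrest2 y s hy hsn hys
        omega
      have s2 : KD c' e V ⊆ (c x ∪ c x').erase s := by
        intro v hv
        rw [mem_erase]
        refine ⟨?_, s1 hv⟩
        rintro rfl
        obtain ⟨-, y, hy, hty, hvy, hlt⟩ := KD_mem C.s1 hv
        rcases hux y hy hty (by omega) with rfl | rfl <;> omega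
      have q2 := card_le_card s2
      rw [card_erase_of_mem hs] at q2
      have hpos : 1 ≤ (c x ∪ c x').card := card_pos.2 ⟨s, hs⟩
      by_cases k1 : s ∈ c x
      · by_cases k2 : s ∈ c x'
        · by_cases hk : kS c c' V Sd e ≤ 1
          · exact Or.inl hk
          right
          unfold kS at hk ⊢
          refine ⟨by omega, Or.inr ⟨z, x, x', s, ?_, ?_⟩⟩
          · have h5 : (1 : ℕ) ≤ (c x ∩ c x').card := card_pos.2 ⟨s, mem_inter.2 ⟨k1, k2⟩⟩
            have h6 : (c x ∩ c x').card = 1 := by omega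
            refine ⟨hzS, htz, hcz, hne, by omega, by omega, k1, k2, fun v hv hv' => ?_⟩
            obtain ⟨a, ha⟩ := card_eq_one.1 h6
            have h7 : s ∈ c x ∩ c x' := mem_inter.2 ⟨k1, k2⟩
            have h8 : v ∈ c x ∩ c x' := mem_inter.2 ⟨hv, hv'⟩
            rw [ha, mem_singleton] at h7 h8
            rw [h7, h8]
          · intro y
            split_ifs with hy
            · rw [mem_insert, mem_insert, mem_insert, mem_singleton] at hy
              rcases hy with rfl | rfl | rfl | rfl <;> assumption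
            · rw [mem_insert, mem_insert, mem_insert, mem_singleton] at hy
              push Not at hy
              apply hz0 y _ hy.2.2.2
              rw [mem_insert, mem_insert, mem_singleton]
              rintro (h5 | h5 | h5)
              · exact hy.1 h5
              · exact hy.2.1 h5
              · exact hy.2.2.1 h5
        · left
          have f2 := hfx' fun a ha => by
            rw [hz0 a (hVn a (hcV a (mem_union_right _ ha))) (by rintro rfl; exact k2 ha)]
            exact hex'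
          have p1 : 1 ≤ (fr c c' e Sd).card := card_pos.2 ⟨x', f2⟩
          unfold kS
          omega
      · left
        have f2 := hfx fun a ha => by
          rw [hz0 a (hVn a (hcV a (mem_union_left _ ha))) (by rintro rfl; exact k1 ha)]
          exact hex
        have p1 : 1 ≤ (fr c c' e Sd).card := card_pos.2 ⟨x, f2⟩
        unfold kS
        omega

/-- one excited side -/
lemma Cf.lone (C : Cf c c' t t' V Sd Sd' e) (hE : ∑ x, e x ≤ 4) (nq : NQ c t Sd e) :
    kS c c' V Sd e ≤ 1 ∨
      (kS c c' V Sd e ≤ 2 ∧ (PP c t Sd e ∨ A4 c t Sd e ∨ B4 c t Sd e)) := by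
  by_cases h : ∀ x ∈ Sd, t x = 1 → e x = 0
  · left
    have := kS_zero C.s1 (side_zero C.s1 C.adm1 h)
    omega
  push Not at h
  obtain ⟨x, hx, htx, hex⟩ := h
  by_cases h1 : ∀ y ∈ Sd, t y = 1 → 0 < e y → y = x
  · exact Or.inl (C.one hE hx htx (by omega) h1)
  push Not at h1
  obtain ⟨x', hx', htx', hex', hne⟩ := h1
  by_cases h2 : ∀ z ∈ Sd, t z = 2 → 0 < e z → x ∈ c z → x' ∉ c z
  · rcases C.apart hE hx htx (by omega) hx' htx' hex' hne.symm h2 with h3 | ⟨h3, h4⟩
    · exact Or.inl h3
    · exact Or.inr ⟨h3, Or.inl h4⟩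
  · push Not at h2
    obtain ⟨z, hz, htz, hez, k1, k2⟩ := h2
    rcases C.join hE nq hx htx (by omega) hx' htx' hex' hne.symm hz htz hez k1 k2 with
      h3 | ⟨h3, h4⟩
    · exact Or.inl h3
    · exact Or.inr ⟨h3, Or.inr h4⟩

/-- CLASSIFICATION, energy at most four -/
theorem Cf.classify (C : Cf c c' t t' V Sd Sd' e) (hE : ∑ x, e x ≤ 4) (nq : NQ c t Sd e)
    (nq' : NQ c' t' Sd' e) :
    kS c c' V Sd e + kS c' c V Sd' e ≤ 1 ∨ (kS c c' V Sd e + kS c' c V Sd' e ≤ 2 ∧
      (PP c t Sd e ∨ PP c' t' Sd' e ∨ PQ c c' t t' Sd Sd' e ∨ A4 c t Sd e ∨ A4 c' t' Sd' e ∨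
        B4 c t Sd e ∨ B4 c' t' Sd' e)) := by
  by_cases hk : kS c c' V Sd e + kS c' c V Sd' e ≤ 1
  · exact Or.inl hk
  right
  by_cases h1 : ∀ x ∈ Sd, t x = 1 → e x = 0
  · have k1 := kS_zero C.s1 (side_zero C.s1 C.adm1 h1)
    rcases C.symm.lone hE nq' with h2 | ⟨h2, h3⟩
    · omega
    · refine ⟨by omega, ?_⟩
      rcases h3 with h3 | h3 | h3
      · exact Or.inr (Or.inl h3)
      · exact Or.inr (Or.inr (Or.inr (Or.inr (Or.inl h3))))
      · exact Or.inr (Or.inr (Or.inr (Or.inr (Or.inr (Or.inr h3)))))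
  by_cases h1' : ∀ x ∈ Sd', t' x = 1 → e x = 0
  · have k1 := kS_zero C.s2 (side_zero C.s2 C.adm2 h1')
    rcases C.lone hE nq with h2 | ⟨h2, h3⟩
    · omega
    · refine ⟨by omega, ?_⟩
      rcases h3 with h3 | h3 | h3
      · exact Or.inl h3
      · exact Or.inr (Or.inr (Or.inr (Or.inl h3)))
      · exact Or.inr (Or.inr (Or.inr (Or.inr (Or.inr (Or.inl h3)))))
  push Not at h1 h1'
  obtain ⟨x, hx, htx, hex⟩ := h1
  obtain ⟨u, hu, htu, heu⟩ := h1'
  obtain ⟨h2, h3⟩ := C.sides hE hx htx (by omega) hu htu (by omega) (by omega)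
  exact ⟨h3, Or.inr (Or.inr (Or.inl h2))⟩

end Pool.Agent.GaussPoset.Win.W4

end
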