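import Mathlib
import Pool.Agent.W_448zz_h61.Ns
import Pool.Agent.W_448zz_h61.M018
import Pool.Agent.W_448zz_h61.M029
import Pool.Agent.W_448zz_h61.M031

/-! From `Pool.Agent.W_448cl_h67.ClI` -/

section

/-!
Strips as coded posets.
-/

namespace Pool.Agent.GaussPoset.Cl

set_option linter.unusedSectionVars false

open Polynomial Finset

universe u

/-- a coded strip: the cell `a` is on the level `ll a` with the coordinate `sl a`; the rows are
`[los k, his k]`; `nn j` = number of cells on the levels `≤ j` -/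
structure StripOK (N J : ℕ) (los his ll sl cv nn : ℕ → ℕ) : Prop where
  cov : ∀ a < N, ∀ b < N, (cv a).testBit b = true ↔
    (ll b + 1 = ll a ∧ (sl b = sl a ∨ sl b + 1 = sl a))
  inj : ∀ a < N, ∀ b < N, ll a = ll b → sl a = sl b → a = b
  row : ∀ a < N, los (ll a) ≤ sl a ∧ sl a ≤ his (ll a)
  surj : ∀ k < J + 1, ∀ s < his k + 1, los k ≤ s → ∃ a < N, ll a = k ∧ sl a = s
  num : ∀ j < J + 1, ∀ a < N, a < nn j ↔ ll a ≤ j
  nle : ∀ j < J + 1, nn j ≤ N

/-- the check of a strip -/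
def stripChk (N J : ℕ) (los his ll sl cv nn : ℕ → ℕ) : Bool :=
  ((List.range N).all fun a => (List.range N).all fun b => (cv a).testBit b ==
    (Nat.beq (ll b + 1) (ll a) && (Nat.beq (sl b) (sl a) || Nat.beq (sl b + 1) (sl a)))) &&
  ((List.range N).all fun a => (List.range N).all fun b =>
    !(Nat.beq (ll a) (ll b) && Nat.beq (sl a) (sl b)) || Nat.beq a b) &&
  ((List.range N).all fun a => Nat.ble (los (ll a)) (sl a) && Nat.ble (sl a) (his (ll a))) &&
  ((List.range (J + 1)).all fun k => (List.range (his k + 1)).all fun s => Nat.blt s (los k) ||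
    (List.range N).any fun a => Nat.beq (ll a) k && Nat.beq (sl a) s) &&
  ((List.range (J + 1)).all fun j => (List.range N).all fun a => Nat.blt a (nn j) ==
    Nat.ble (ll a) j) &&
  ((List.range (J + 1)).all fun j => Nat.ble (nn j) N)

lemma beq_iff {a b : ℕ} : Nat.beq a b = true ↔ a = b :=
  ⟨Nat.eq_of_beq_eq_true, fun h => by rw [h]; exact Nat.beq_refl b⟩

lemma ble_iff {a b : ℕ} : Nat.ble a b = true ↔ a ≤ b :=
  ⟨Nat.le_of_ble_eq_true, Nat.ble_eq_true_of_le⟩

lemma stripOK_of_chk {N J : ℕ} {los his ll sl cv nn : ℕ → ℕ}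
    (h : stripChk N J los his ll sl cv nn = true) : StripOK N J los his ll sl cv nn := by
  unfold stripChk at h
  simp only [Bool.and_eq_true, List.all_eq_true, List.mem_range] at h
  obtain ⟨⟨⟨⟨⟨h1, h2⟩, h3⟩, h4⟩, h5⟩, h6⟩ := h
  refine ⟨?_, ?_, ?_, ?_, ?_, ?_⟩
  · intro a ha b hb
    have := h1 a ha b hb
    rw [beq_iff_eq] at this
    rw [this, Bool.and_eq_true, Bool.or_eq_true, beq_iff, beq_iff, beq_iff]
  · intro a ha b hb e1 e2
    have := h2 a ha b hb
    rw [beq_iff.mpr e1, beq_iff.mpr e2] at this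
    exact beq_iff.mp (by simpa using this)
  · intro a ha
    have := h3 a ha
    rw [ble_iff, ble_iff] at this
    exact this
  · intro k hk s hs hls
    have := h4 k hk s hs
    rw [Bool.or_eq_true, List.any_eq_true] at this
    rcases this with h7 | ⟨a, ha, h7⟩
    · rw [Nat.blt_eq] at h7
      omega
    · rw [Bool.and_eq_true, beq_iff, beq_iff] at h7
      exact ⟨a, List.mem_range.mp ha, h7.1, h7.2⟩
  · intro j hj a ha
    have := h5 j hj a ha
    rw [beq_iff_eq] at this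
    rw [← Nat.blt_eq, this, ble_iff]
  · intro j hj
    exact ble_iff.mp (h6 j hj)

variable {P : Type u} [Fintype P] [PartialOrder P] [DecidableEq P]
variable {r j N J : ℕ} {t : P} {lo hi : ℕ → ℕ} {e : ℕ → ℕ → P}
variable {los his ll sl cv nn : ℕ → ℕ}

/-- the strip of a component is coded -/
theorem StripOK.cod (S : StripOK N J los his ll sl cv nn) (C : Cp.Comp j t lo hi e) (H : Gr P r)
    (hg : ∀ l, l < j → Win.Good P l) (ht : lev t = 0) (hj : j ≤ J)
    (hlo : ∀ k, k ≤ j → lo k = los k) (hhi : ∀ k, k ≤ j → hi k = his k) :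
    Cod (nn j) cv ll (fun a => e (ll a) (sl a)) := by
  have hN := S.nle j (by omega)
  have hlev : ∀ a < nn j, ll a ≤ j := fun a ha => (S.num j (by omega) a (by omega)).mp ha
  have hrow : ∀ a < nn j, lo (ll a) ≤ sl a ∧ sl a ≤ hi (ll a) := fun a ha => by
    rw [hlo _ (hlev a ha), hhi _ (hlev a ha)]
    exact S.row a (by omega)
  have hl : ∀ a < nn j, GaussPoset.lev (e (ll a) (sl a)) = ll a := fun a ha =>
    C.lev_e _ _ (hlev a ha) (hrow a ha).1 (hrow a ha).2
  refine ⟨?_, ?_, hl⟩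
  · intro a ha b hb h
    have h1 : ll a = ll b := by
      rw [← hl a ha, ← hl b hb]
      exact congrArg GaussPoset.lev h
    refine S.inj a (by omega) b (by omega) h1 ?_
    have h2 := hrow a ha
    have h3 := hrow b hb
    have h4 := hlev b hb
    rw [h1] at h h2
    exact C.inj (ll b) _ _ h4 h2.1 h2.2 h3.1 h3.2 h
  · intro a ha y
    have h2 := hrow a ha
    have h3 := hlev a ha
    constructor
    · intro h
      have h0 : 1 ≤ ll a := by
        rw [← hl a ha]
        have := lev_strictAnti h.1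
        omega
      obtain ⟨k, hk⟩ : ∃ k, ll a = k + 1 := ⟨ll a - 1, by omega⟩
      rw [hk] at h h2
      obtain ⟨s', h4, h5, h6, h7⟩ := C.cov_up H hg ht (by omega) h2.1 h2.2 h
      obtain ⟨b, hb, h8, h9⟩ := S.surj k (by omega) s' (by
        have := hhi k (by omega); omega) (by have := hlo k (by omega); omega)
      refine ⟨b, ?_, ?_, ?_⟩
      · rw [S.num j (by omega) b hb]
        omega
      · rw [S.cov a (by omega) b hb]
        omega
      · rw [h8, h9, h6]
    · rintro ⟨b, hb, h4, rfl⟩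
      rw [S.cov a (by omega) b (by omega)] at h4
      have h5 := hrow b hb
      have h6 := C.cov (ll b) (sl a) (sl b) (by omega) (by rw [h4.1]; exact h2.1)
        (by rw [h4.1]; exact h2.2) h5.1 h5.2
      rw [h4.1] at h6
      exact h6.mpr h4.2

lemma StripOK.surj' (S : StripOK N J los his ll sl cv nn) (C : Cp.Comp j t lo hi e) (hj : j ≤ J)
    (hlo : ∀ k, k ≤ j → lo k = los k) (hhi : ∀ k, k ≤ j → hi k = his k) {x : P}
    (hx : x ∈ lowPart j t) : ∃ a < nn j, e (ll a) (sl a) = x := by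
  rw [mem_lowPart] at hx
  obtain ⟨s, h1, h2, h3⟩ := C.surj x hx.1 hx.2
  have h4 := hlo _ hx.2
  have h5 := hhi _ hx.2
  obtain ⟨a, ha, h6, h7⟩ := S.surj (GaussPoset.lev x) (by omega) s (by omega) (by omega)
  refine ⟨a, ?_, ?_⟩
  · rw [S.num j (by omega) a ha]
    omega
  · rw [h6, h7, h3]

/-- the base check: `bm` is generated by the cell `a0` and the levels `≤ i` -/
def baseChk (N J i a0 bm : ℕ) (ll cv nn : ℕ → ℕ) : Bool :=
  ((List.range N).all fun a => !(bm.testBit a) || Nat.ble (ll a) i || Nat.beq a a0 ||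
    (List.range N).any fun b => Nat.blt a b && bm.testBit b && (cv b).testBit a) &&
  ((List.range (J + 1)).all fun j => Nat.blt j (ll a0) || Nat.blt bm (2 ^ nn j)) &&
  (Nat.ble i (ll a0) && Nat.blt a0 N && Nat.ble (ll a0) J)

/-- the base generates the code `bm` -/
lemma StripOK.base_mem (S : StripOK N J los his ll sl cv nn) (C : Cp.Comp j t lo hi e)
    (H : Gr P r) (hg : ∀ l, l < j → Win.Good P l) (ht : lev t = 0) (hj : j ≤ J)
    (hlo : ∀ k, k ≤ j → lo k = los k) (hhi : ∀ k, k ≤ j → hi k = his k) {i bm a0 : ℕ}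
    (hb : baseChk N J i a0 bm ll cv nn = true)
    (haj : ll a0 ≤ j) {U : Finset P}
    (hup : ∀ x ∈ U, ∀ y, x ≤ y → y ∈ U) (hlow : ∀ x ∈ lowPart j t, lev x ≤ i → x ∈ U)
    (hbase : e (ll a0) (sl a0) ∈ U) :
    bm < 2 ^ nn j ∧ ∀ a < nn j, bm.testBit a = true → e (ll a) (sl a) ∈ U := by
  have hC := S.cod C H hg ht hj hlo hhi
  have hN := S.nle j (by omega)
  unfold baseChk at hb
  simp only [Bool.and_eq_true, List.all_eq_true, List.mem_range, Bool.or_eq_true, ble_iff,
    beq_iff, Nat.blt_eq, List.any_eq_true] at hb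
  obtain ⟨⟨h1, h2⟩, ⟨h3, h4⟩, h5⟩ := hb
  have h6 : bm < 2 ^ nn j := by
    rcases h2 j (by omega) with h | h
    · omega
    · exact h
  have hlt : ∀ a, bm.testBit a = true → a < nn j := by
    intro a ha
    by_contra hcon
    rw [Nat.testBit_lt_two_pow (lt_of_lt_of_le h6 (Nat.pow_le_pow_right (by norm_num)
      (by omega)))] at ha
    exact absurd ha (by simp)
  refine ⟨h6, ?_⟩
  have key : ∀ d a, a < nn j → nn j - a = d → bm.testBit a = true → e (ll a) (sl a) ∈ U := by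
    intro d
    induction d using Nat.strong_induction_on with
    | _ d ih =>
      intro a ha hd hba
      have hla : ll a ≤ j := (S.num j (by omega) a (by omega)).mp ha
      rcases h1 a (by omega) with ((h | h) | h) | ⟨b, hbN, ⟨h7, h8⟩, h9⟩
      · rw [hba] at h; exact absurd h (by simp)
      · refine hlow _ ?_ ?_
        · have hr := S.row a (by omega)
          rw [← hlo _ hla, ← hhi _ hla] at hr
          rw [mem_lowPart, C.lev_e _ _ hla hr.1 hr.2]
          exact ⟨C.le_t _ _ hla hr.1 hr.2, hla⟩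
        · rw [hC.lev a ha]; exact h
      · rw [h]; exact hbase
      · have hbn := hlt b h8
        have h10 := ih (nn j - b) (by omega) b hbn rfl h8
        exact hup _ h10 _ ((hC.cov b hbn _).mpr ⟨a, ha, h9, rfl⟩).le
  exact fun a ha hba => key _ a ha rfl hba

/-- **Order two for the up-sets of a strip above the base.** -/
theorem StripOK.clean (S : StripOK N J los his ll sl cv nn) (C : Cp.Comp j t lo hi e)
    (H : Gr P r) (hg : ∀ l, l < j → Win.Good P l) (ht : lev t = 0) (hj : j ≤ J)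
    (hlo : ∀ k, k ≤ j → lo k = los k) (hhi : ∀ k, k ≤ j → hi k = his k) {Us : List ℕ}
    (hU : UsOK N cv Us) {B i K bm a0 : ℕ} {L : List (ℕ × ℕ × ℕ)}
    (hw : winChk N B K ll Us i bm L = true) (hb : baseChk N J i a0 bm ll cv nn = true)
    (haj : ll a0 ≤ j) {U : Finset P} (hUN : U ⊆ lowPart j t)
    (hup : ∀ x ∈ U, ∀ y, x ≤ y → y ∈ U) (hlow : ∀ x ∈ lowPart j t, lev x ≤ i → x ∈ U)
    (hbase : e (ll a0) (sl a0) ∈ U) :
    (1 + X : Polynomial (PowerSeries ℤ)) ^ 2 ∣ W {x : P // x ∈ U} i := by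
  obtain ⟨h1, h2⟩ := S.base_mem C H hg ht hj hlo hhi hb haj hup hlow hbase
  exact (S.cod C H hg ht hj hlo hhi).clean_of hU (S.nle j (by omega)) hw
    (fun x hx => S.surj' C hj hlo hhi (hUN hx)) hup h1 h2

/-- **Order three for the up-sets of a strip above the base.** -/
theorem StripOK.clean3 (S : StripOK N J los his ll sl cv nn) (C : Cp.Comp j t lo hi e)
    (H : Gr P r) (hg : ∀ l, l < j → Win.Good P l) (ht : lev t = 0) (hj : j ≤ J)
    (hlo : ∀ k, k ≤ j → lo k = los k) (hhi : ∀ k, k ≤ j → hi k = his k) {Us : List ℕ}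
    (hU : UsOK N cv Us) {B i K bm a0 : ℕ} {L : List (ℕ × ℕ × ℕ)}
    (hw : winChk3 N B K ll Us i bm L = true) (hb : baseChk N J i a0 bm ll cv nn = true)
    (haj : ll a0 ≤ j) {U : Finset P} (hUN : U ⊆ lowPart j t)
    (hup : ∀ x ∈ U, ∀ y, x ≤ y → y ∈ U) (hlow : ∀ x ∈ lowPart j t, lev x ≤ i → x ∈ U)
    (hbase : e (ll a0) (sl a0) ∈ U) :
    (1 + X : Polynomial (PowerSeries ℤ)) ^ 3 ∣ W {x : P // x ∈ U} i := by
  obtain ⟨h1, h2⟩ := S.base_mem C H hg ht hj hlo hhi hb haj hup hlow hbase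
  exact (S.cod C H hg ht hj hlo hhi).clean_of3 hU (S.nle j (by omega)) hw
    (fun x hx => S.surj' C hj hlo hhi (hUN hx)) hup h1 h2

end Pool.Agent.GaussPoset.Cl

end

/-! From `Pool.Agent.W_448cl_h67.ClJ` -/

section

/-!
The strips of the words `E6` and `E7`.
-/

namespace Pool.Agent.GaussPoset.Cl

set_option linter.unusedSectionVars false

open Polynomial Finset Wd

universe u

/-- the left ends of a word after the trunk -/
def losW (a : ℕ) (w : List Ltr) (k : ℕ) : ℕ :=
  if k < a then 0 else (w.take (k - a)).countP (fun l => l.1)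

/-- the right ends of a word after the trunk -/
def hisW (a : ℕ) (w : List Ltr) (k : ℕ) : ℕ :=
  if k < a then 0 else 1 + (w.take (k - a)).countP (fun l => l.2)

section Rows

variable {lo hi : ℕ → ℕ} {j a : ℕ} {w : List Ltr}

lemma take_word (h : word lo hi a (j - a) = w.take (j - a)) {m : ℕ} (hm : a + m ≤ j) :
    w.take m = word lo hi a m := by
  have h1 : w.take m = (w.take (j - a)).take m := by
    rw [List.take_take, Nat.min_eq_left (by omega)]
  rw [h1, ← h, word_take (by omega)]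

lemma lo_of_word (hlo : ∀ k, k < j → lo (k + 1) = lo k ∨ lo (k + 1) = lo k + 1)
    (h : word lo hi a (j - a) = w.take (j - a)) : ∀ m, a + m ≤ j →
    lo (a + m) = lo a + (w.take m).countP (fun l => l.1) := by
  intro m hm
  rw [take_word h hm]
  induction m with
  | zero => simp [word]
  | succ m ih =>
    rw [word_succ, List.countP_append, ← Nat.add_assoc, ← Nat.add_assoc, ← ih (by omega)]
    rcases hlo (a + m) (by omega) with h3 | h3
    · simp [h3]
    · simp [h3]

lemma hi_of_word (hhi : ∀ k, k < j → hi (k + 1) = hi k ∨ hi (k + 1) = hi k + 1)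
    (h : word lo hi a (j - a) = w.take (j - a)) : ∀ m, a + m ≤ j →
    hi (a + m) = hi a + (w.take m).countP (fun l => l.2) := by
  intro m hm
  rw [take_word h hm]
  induction m with
  | zero => simp [word]
  | succ m ih =>
    rw [word_succ, List.countP_append, ← Nat.add_assoc, ← Nat.add_assoc, ← ih (by omega)]
    rcases hhi (a + m) (by omega) with h3 | h3
    · simp [h3]
    · simp [h3]

lemma rows_of_word (hlo : ∀ k, k < j → lo (k + 1) = lo k ∨ lo (k + 1) = lo k + 1)
    (hhi : ∀ k, k < j → hi (k + 1) = hi k ∨ hi (k + 1) = hi k + 1)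
    (h2 : ∀ k, k < a → lo k = 0 ∧ hi k = 0) (h3 : lo a = 0 ∧ hi a = 1)
    (h : word lo hi a (j - a) = w.take (j - a)) :
    (∀ k, k ≤ j → lo k = losW a w k) ∧ (∀ k, k ≤ j → hi k = hisW a w k) := by
  constructor
  · intro k hk
    unfold losW
    split_ifs with hka
    · exact (h2 k hka).1
    · have := lo_of_word hlo h (k - a) (by omega)
      rw [show a + (k - a) = k by omega, h3.1, Nat.zero_add] at this
      exact this
  · intro k hk
    unfold hisW
    split_ifs with hka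
    · exact (h2 k hka).2
    · have := hi_of_word hhi h (k - a) (by omega)
      rw [show a + (k - a) = k by omega, h3.2] at this
      exact this

end Rows

/-- the word of `E6` -/
def w6 : List Ltr := [OC, CO, CO, OC, CC, OC, OC]

/-- the word of `E7` -/
def w7 : List Ltr := [OC, CO, CO, OO, CC, OC, OC, CO, CC, OC, OC, OC]

/-- the coordinates of the cells -/
def E6sl : List ℕ := [0, 0, 0, 0, 1, 0, 1, 1, 2, 2, 3, 2, 3, 3, 3, 3]

/-- the coordinates of the cells -/
def E7sl : List ℕ := [0, 0, 0, 0, 0, 1, 0, 1, 1, 2, 2, 3, 2, 3, 4, 3, 4, 3, 4, 3, 4, 4, 5, 5, 5, 5, 5]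

/-- the numbers of cells -/
def E6nn : List ℕ := [1, 2, 3, 5, 7, 9, 11, 13, 14, 15, 16]

/-- the numbers of cells -/
def E7nn : List ℕ := [1, 2, 3, 4, 6, 8, 10, 12, 15, 17, 19, 21, 23, 24, 25, 26, 27]

theorem E6_strip : StripOK 16 10 (losW 3 w6) (hisW 3 w6) (fun a => E6lv.getD a 0)
    (fun a => E6sl.getD a 0) (fun a => E6cv.getD a 0) (fun a => E6nn.getD a 0) :=
  stripOK_of_chk (by decide +kernel)

theorem E7_strip : StripOK 27 16 (losW 4 w7) (hisW 4 w7) (fun a => E7lv.getD a 0)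
    (fun a => E7sl.getD a 0) (fun a => E7cv.getD a 0) (fun a => E7nn.getD a 0) :=
  stripOK_of_chk (by decide +kernel)

theorem E6_b3 : baseChk 16 10 3 10 1375 (fun a => E6lv.getD a 0) (fun a => E6cv.getD a 0)
    (fun a => E6nn.getD a 0) = true := by decide +kernel
theorem E6_b4 : baseChk 16 10 4 12 6143 (fun a => E6lv.getD a 0) (fun a => E6cv.getD a 0)
    (fun a => E6nn.getD a 0) = true := by decide +kernel
theorem E6_b5 : baseChk 16 10 5 13 16383 (fun a => E6lv.getD a 0) (fun a => E6cv.getD a 0)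
    (fun a => E6nn.getD a 0) = true := by decide +kernel
theorem E6_b6 : baseChk 16 10 6 14 32767 (fun a => E6lv.getD a 0) (fun a => E6cv.getD a 0)
    (fun a => E6nn.getD a 0) = true := by decide +kernel
theorem E6_b7 : baseChk 16 10 7 15 65535 (fun a => E6lv.getD a 0) (fun a => E6cv.getD a 0)
    (fun a => E6nn.getD a 0) = true := by decide +kernel

theorem E7_b4 : baseChk 27 16 4 14 19135 (fun a => E7lv.getD a 0) (fun a => E7cv.getD a 0)
    (fun a => E7nn.getD a 0) = true := by decide +kernel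
theorem E7_b5 : baseChk 27 16 5 16 94207 (fun a => E7lv.getD a 0) (fun a => E7cv.getD a 0)
    (fun a => E7nn.getD a 0) = true := by decide +kernel
theorem E7_b6 : baseChk 27 16 6 18 393215 (fun a => E7lv.getD a 0) (fun a => E7cv.getD a 0)
    (fun a => E7nn.getD a 0) = true := by decide +kernel
theorem E7_b7 : baseChk 27 16 7 20 1572863 (fun a => E7lv.getD a 0) (fun a => E7cv.getD a 0)
    (fun a => E7nn.getD a 0) = true := by decide +kernel
theorem E7_b8 : baseChk 27 16 8 26 134217727 (fun a => E7lv.getD a 0) (fun a => E7cv.getD a 0)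
    (fun a => E7nn.getD a 0) = true := by decide +kernel

end Pool.Agent.GaussPoset.Cl

end

/-! From `Pool.Agent.W_448cl_h67.ClK` -/

section

/-!
Local data of the strips `E6` and `E7`.
-/

namespace Pool.Agent.GaussPoset.Cl

set_option linter.unusedSectionVars false

open Polynomial Finset Wd

universe u

variable {P : Type u} [Fintype P] [PartialOrder P] [DecidableEq P]

/-- order `b` at window `i` of all up-sets of `N` which contain the levels `≤ i` and `x0` -/
def CleanAt (i b : ℕ) (N : Finset P) (x0 : P) : Prop :=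
  ∀ U ⊆ N, (∀ x ∈ U, ∀ y, x ≤ y → y ∈ U) → (∀ x ∈ N, lev x ≤ i → x ∈ U) → x0 ∈ U →
    (1 + X : Polynomial (PowerSeries ℤ)) ^ b ∣ W {x : P // x ∈ U} i

/-- local data from exact divisibility -/
theorem CleanAt.loc {i b : ℕ} {N : Finset P} {x0 : P} (h : CleanAt i b N x0) (h0 : x0 ∈ N)
    {θ : P → ℕ} (hlev : ∀ x ∈ N, 1 ≤ θ x → i < lev x) (hb : ∀ x ∈ N, 1 ≤ θ x → ¬ x0 ≤ x)
    (hst : ∀ x ∈ N, 1 ≤ θ x → ∀ y ∈ N, y ≤ x → ∀ x' ∈ N, y ⋖ x' → ¬ x' ≤ x → θ x ≤ θ x' + 1)
    (hle : ∀ x ∈ N, θ x ≤ lev x - i) : LocData i b N θ (fun x => x = x0) where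
  clean := fun U hUN hup hlow hB => h U hUN hup hlow (hB x0 h0 rfl)
  lev := hlev
  base := fun x hx h1 y _ hyx hy => hb x hx h1 (by rw [← hy]; exact hyx)
  step := hst
  le := hle

/-- local data from exact divisibility, simple thresholds -/
theorem CleanAt.loc_lev (hgr : GradedBelow P) {i b : ℕ} {N : Finset P} {x0 : P}
    (h : CleanAt i b N x0) (h0 : x0 ∈ N) (hi : i ≤ lev x0) :
    LocData i b N (fun x => lev x - lev x0) (fun x => x = x0) := by
  refine h.loc h0 (fun x _ h1 => by omega) ?_ ?_ ?_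
  · intro x _ h1 h2
    rcases eq_or_lt_of_le h2 with h3 | h3
    · rw [h3] at h1; omega
    · have := lev_strictAnti h3; omega
  · intro x _ h1 y _ hyx x' _ hyx' _
    have h2 := hgr.lev_covBy hyx'
    have h3 : lev x ≤ lev y := by
      rcases eq_or_lt_of_le hyx with h | h
      · rw [h]
      · exact (lev_strictAnti h).le
    omega
  · intro x _
    omega

section

variable {r j : ℕ} {t : P} {lo hi : ℕ → ℕ} {e : ℕ → ℕ → P}

/-- the word of the component: trunk of length `a`, then the beginning of `w` -/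
structure WordD (j a : ℕ) (w : List Ltr) (lo hi : ℕ → ℕ) : Prop where
  trunk : ∀ k, k < a → lo k = 0 ∧ hi k = 0
  row : lo a = 0 ∧ hi a = 1
  word : Wd.word lo hi a (j - a) = w.take (j - a)

lemma WordD.rows {a : ℕ} {w : List Ltr} (D : WordD j a w lo hi) (C : Cp.Comp j t lo hi e) :
    (∀ k, k ≤ j → lo k = losW a w k) ∧ (∀ k, k ≤ j → hi k = hisW a w k) :=
  rows_of_word C.lo_step C.hi_step D.trunk D.row D.word

/-- `E6`: order two at the windows `3 ≤ i ≤ 7` -/
theorem E6_clean (D : WordD j 3 w6 lo hi) (C : Cp.Comp j t lo hi e) (H : Gr P r)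
    (hg : ∀ l, l < j → Win.Good P l) (ht : lev t = 0) {i : ℕ} (h3 : 3 ≤ i) (hij : i + 3 ≤ j)
    (hj : j ≤ 10) : CleanAt i 2 (lowPart j t) (e (i + 3) 3) := by
  obtain ⟨h1, h2⟩ := D.rows C
  intro U hUN hup hlow hbase
  obtain rfl | rfl | rfl | rfl | rfl : i = 3 ∨ i = 4 ∨ i = 5 ∨ i = 6 ∨ i = 7 := by omega
  · exact E6_strip.clean C H hg ht hj h1 h2 E6_us E6_win3 E6_b3 (by show 6 ≤ j; omega) hUN hup
      hlow hbase
  · exact E6_strip.clean C H hg ht hj h1 h2 E6_us E6_win4 E6_b4 (by show 7 ≤ j; omega) hUN hup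
      hlow hbase
  · exact E6_strip.clean C H hg ht hj h1 h2 E6_us E6_win5 E6_b5 (by show 8 ≤ j; omega) hUN hup
      hlow hbase
  · exact E6_strip.clean C H hg ht hj h1 h2 E6_us E6_win6 E6_b6 (by show 9 ≤ j; omega) hUN hup
      hlow hbase
  · exact E6_strip.clean C H hg ht hj h1 h2 E6_us E6_win7 E6_b7 (by show 10 ≤ j; omega) hUN hup
      hlow hbase

/-- `E7`: order two at the windows `4 ≤ i ≤ 7` -/
theorem E7_clean (D : WordD j 4 w7 lo hi) (C : Cp.Comp j t lo hi e) (H : Gr P r)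
    (hg : ∀ l, l < j → Win.Good P l) (ht : lev t = 0) {i : ℕ} (h4 : 4 ≤ i) (h7 : i ≤ 7)
    (hij : i + 4 ≤ j) (hj : j ≤ 16) : CleanAt i 2 (lowPart j t) (e (i + 4) 4) := by
  obtain ⟨h1, h2⟩ := D.rows C
  intro U hUN hup hlow hbase
  obtain rfl | rfl | rfl | rfl : i = 4 ∨ i = 5 ∨ i = 6 ∨ i = 7 := by omega
  · exact E7_strip.clean C H hg ht hj h1 h2 E7_us E7_win4 E7_b4 (by show 8 ≤ j; omega) hUN hup
      hlow hbase
  · exact E7_strip.clean C H hg ht hj h1 h2 E7_us E7_win5 E7_b5 (by show 9 ≤ j; omega) hUN hup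
      hlow hbase
  · exact E7_strip.clean C H hg ht hj h1 h2 E7_us E7_win6 E7_b6 (by show 10 ≤ j; omega) hUN hup
      hlow hbase
  · exact E7_strip.clean C H hg ht hj h1 h2 E7_us E7_win7 E7_b7 (by show 11 ≤ j; omega) hUN hup
      hlow hbase

/-- the complete `E7`: order three at the window `8` -/
theorem E7_clean8 (D : WordD 16 4 w7 lo hi) (C : Cp.Comp 16 t lo hi e) (H : Gr P r)
    (hg : ∀ l, l < 16 → Win.Good P l) (ht : lev t = 0) :
    CleanAt 8 3 (lowPart 16 t) (e 16 5) := by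
  obtain ⟨h1, h2⟩ := D.rows C
  intro U hUN hup hlow hbase
  exact E7_strip.clean3 C H hg ht le_rfl h1 h2 E7_us E7_win8 E7_b8 (by show 16 ≤ 16; omega) hUN
    hup hlow hbase

end

/-! ### natural sets of the tops -/

section

variable {r j : ℕ} {t : Tops P} {lo hi : ℕ → ℕ} {e : ℕ → ℕ → P}

/-- natural set from the order at the base -/
theorem CleanAt.natTop (H : Gr P r) (hg : ∀ l, l < j → Win.Good P l) (hgr : GradedBelow P)
    {i b : ℕ} {x0 : P} (h : CleanAt i b (lowPart j (t : P)) x0) (h0 : x0 ∈ lowPart j (t : P))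
    (hi : i ≤ lev x0) :
    NatTop i t b (lowPart j (t : P)) (fun x => lev x - lev x0) (fun x => x = x0) := by
  have h0' := mem_lowPart.mp h0
  refine (h.loc_lev hgr h0 hi).natTop ?_ ?_ ?_
  · intro x hx y hxy
    rw [mem_lowPart] at hx ⊢
    refine ⟨Cp.up_le H hg t.2 hx.1 hx.2 hxy, ?_⟩
    rcases eq_or_lt_of_le hxy with h1 | h1
    · rw [← h1]; exact hx.2
    · have := lev_strictAnti h1
      omega
  · exact fun x hx => (mem_lowPart.mp hx).1
  · intro x hx hxi
    exact mem_lowPart.mpr ⟨hx, by omega⟩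

end

end Pool.Agent.GaussPoset.Cl

end

/-! From `Pool.Agent.W_448cl_h67.ClR` -/

section

/-!
Thresholds of a strip by a table.
-/

namespace Pool.Agent.GaussPoset.Cl

set_option linter.unusedSectionVars false

open Polynomial Finset Wd

universe u

/-- the union of the masks of the cells in `m` -/
def orM (um : ℕ → ℕ) : ℕ → ℕ → ℕ
  | 0, _ => 0
  | n + 1, m => Nat.lor (orM um n m) (bif m.testBit n then um n else 0)

lemma orM_testBit (um : ℕ → ℕ) (n m k : ℕ) :
    (orM um n m).testBit k = true ↔ ∃ b < n, m.testBit b = true ∧ (um b).testBit k = true := by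
  induction n with
  | zero => simp [orM]
  | succ n ih =>
    have h1 : (orM um (n + 1) m).testBit k = ((orM um n m).testBit k ||
        (bif m.testBit n then um n else 0).testBit k) := Nat.testBit_or _ _ _
    rw [h1, Bool.or_eq_true, ih]
    constructor
    · rintro (⟨b, hb, h2, h3⟩ | h)
      · exact ⟨b, by omega, h2, h3⟩
      · cases h2 : m.testBit n
        · rw [h2, cond_false, Nat.zero_testBit] at h
          exact absurd h (by simp)
        · rw [h2, cond_true] at h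
          exact ⟨n, by omega, h2, h⟩
    · rintro ⟨b, hb, h2, h3⟩
      by_cases hbn : b = n
      · right
        rw [hbn] at h2 h3
        rw [h2, cond_true]
        exact h3
      · exact Or.inl ⟨b, by omega, h2, h3⟩

/-- the check of the thresholds `th`; `um a` = the cells above `a` -/
def thChk (N i a0 : ℕ) (ll cv um th : ℕ → ℕ) : Bool :=
  ((List.range N).all fun a => Nat.beq (um a) (Nat.lor (2 ^ a) (orM um N (cv a)))) &&
  ((List.range N).all fun a => Nat.beq (th a) 0 || (Nat.blt i (ll a) && !((um a0).testBit a) &&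
    Nat.ble (th a) (ll a - i) && (List.range N).all fun y => !((um y).testBit a) ||
      (List.range N).all fun x' => !((cv y).testBit x') || (um x').testBit a ||
        Nat.ble (th a) (th x' + 1))) && Nat.blt a0 N

variable {P : Type u} [Fintype P] [PartialOrder P] [DecidableEq P]

section Cod

variable {n N : ℕ} {cv lv um : ℕ → ℕ} {c : ℕ → P}

/-- the order of the cells from the masks -/
lemma Cod.le_iff (C : Cod n cv lv c) (hn : n ≤ N) (hcv : ∀ a < N, cv a < 2 ^ a)
    (hum : ∀ a < N, um a = Nat.lor (2 ^ a) (orM um N (cv a))) {a b : ℕ} (ha : a < n)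
    (hb : b < n) : c a ≤ c b ↔ (um a).testBit b = true := by
  have key : ∀ a, a < n → ∀ b < n, c a ≤ c b ↔ (um a).testBit b = true := by
    intro a
    induction a using Nat.strong_induction_on with
    | _ a ih =>
      intro ha b hb
      have h1 : (um a).testBit b = ((2 ^ a).testBit b || (orM um N (cv a)).testBit b) := by
        conv_lhs => rw [hum a (by omega)]
        exact Nat.testBit_or _ _ _
      rw [h1, Bool.or_eq_true, orM_testBit]
      have hlt : ∀ k, (cv a).testBit k = true → k < a := by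
        intro k hk
        by_contra hcon
        rw [Nat.testBit_lt_two_pow (lt_of_lt_of_le (hcv a (by omega))
          (Nat.pow_le_pow_right (by norm_num) (by omega)))] at hk
        exact absurd hk (by simp)
      constructor
      · intro h
        rcases eq_or_lt_of_le h with h2 | h2
        · left
          rw [← C.inj a ha b hb h2]
          exact Nat.testBit_two_pow_self
        · right
          obtain ⟨v, hv, hvb⟩ := Hul.exists_cov h2
          obtain ⟨k, hk, h3, rfl⟩ := (C.cov a ha v).mp hv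
          exact ⟨k, by omega, h3, (ih k (hlt k h3) hk b hb).mp hvb⟩
      · rintro (h | ⟨k, hk, h3, h4⟩)
        · have h5 : a = b := by
            by_contra hne
            rw [Nat.testBit_two_pow_of_ne hne] at h
            exact absurd h (by simp)
          rw [h5]
        · have hka := hlt k h3
          have hkn : k < n := by omega
          exact ((C.cov a ha (c k)).mpr ⟨k, hkn, h3, rfl⟩).le.trans
            ((ih k hka hkn b hb).mpr h4)
  exact key a ha b hb

end Cod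

section Strip

variable {r j N J : ℕ} {t : P} {lo hi : ℕ → ℕ} {e : ℕ → ℕ → P}
variable {los his ll sl cv nn um : ℕ → ℕ}

/-- the threshold of an element, `thv` on the coordinates -/
noncomputable def thC (lo hi : ℕ → ℕ) (e : ℕ → ℕ → P) (thv : ℕ → ℕ → ℕ) (x : P) : ℕ :=
  thv (lev x) (scoord lo hi e x)

/-- local data with thresholds by a table -/
theorem StripOK.loc (S : StripOK N J los his ll sl cv nn) (C : Cp.Comp j t lo hi e)
    (H : Gr P r) (hg : ∀ l, l < j → Win.Good P l) (ht : lev t = 0) (hj : j ≤ J)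
    (hlo : ∀ k, k ≤ j → lo k = los k) (hhi : ∀ k, k ≤ j → hi k = his k)
    (hcv : ∀ a < N, cv a < 2 ^ a) {i b a0 : ℕ} {thv : ℕ → ℕ → ℕ}
    (hth : thChk N i a0 ll cv um (fun a => thv (ll a) (sl a)) = true) (haj : ll a0 ≤ j)
    (hc : CleanAt i b (lowPart j t) (e (ll a0) (sl a0))) :
    LocData i b (lowPart j t) (thC lo hi e thv) (fun x => x = e (ll a0) (sl a0)) := by
  have hC := S.cod C H hg ht hj hlo hhi
  have hN := S.nle j (by omega)
  unfold thChk at hth
  simp only [Bool.and_eq_true, List.all_eq_true, List.mem_range, Bool.or_eq_true, ble_iff,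
    beq_iff, Nat.blt_eq, Bool.not_eq_true'] at hth
  obtain ⟨⟨h1, h2⟩, h3⟩ := hth
  have ha0 : a0 < nn j := (S.num j (by omega) a0 h3).mpr haj
  have hle : ∀ {a b : ℕ}, a < nn j → b < nn j →
      (e (ll a) (sl a) ≤ e (ll b) (sl b) ↔ (um a).testBit b = true) := fun ha hb =>
    hC.le_iff hN hcv h1 ha hb
  have hrow : ∀ a < nn j, ll a ≤ j ∧ lo (ll a) ≤ sl a ∧ sl a ≤ hi (ll a) := fun a ha => by
    have h4 : ll a ≤ j := (S.num j (by omega) a (by omega)).mp ha
    have h5 := S.row a (by omega)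
    rw [← hlo _ h4, ← hhi _ h4] at h5
    exact ⟨h4, h5⟩
  have hthe : ∀ a < nn j, thC lo hi e thv (e (ll a) (sl a)) = thv (ll a) (sl a) := by
    intro a ha
    obtain ⟨h4, h5, h6⟩ := hrow a ha
    unfold thC
    rw [C.lev_e _ _ h4 h5 h6, scoord_e C h4 h5 h6]
  have hmem : ∀ a < nn j, e (ll a) (sl a) ∈ lowPart j t := by
    intro a ha
    obtain ⟨h4, h5, h6⟩ := hrow a ha
    rw [mem_lowPart, C.lev_e _ _ h4 h5 h6]
    exact ⟨C.le_t _ _ h4 h5 h6, h4⟩
  have hpos : ∀ x ∈ lowPart j t, 1 ≤ thC lo hi e thv x → ∃ a < nn j, e (ll a) (sl a) = x ∧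
      i < ll a ∧ (um a0).testBit a = false ∧ thv (ll a) (sl a) ≤ ll a - i ∧
      ∀ y < N, (um y).testBit a = false ∨ ∀ x' < N, ((cv y).testBit x' = false ∨
        (um x').testBit a = true) ∨ thv (ll a) (sl a) ≤ thv (ll x') (sl x') + 1 := by
    intro x hx h4
    obtain ⟨a, ha, rfl⟩ := S.surj' C hj hlo hhi hx
    rw [hthe a ha] at h4
    rcases h2 a (by omega) with h5 | ⟨⟨⟨h5, h6⟩, h7⟩, h8⟩
    · omega
    · exact ⟨a, ha, rfl, h5, h6, h7, h8⟩
  refine hc.loc (hmem a0 ha0) ?_ ?_ ?_ ?_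
  · intro x hx h4
    obtain ⟨a, ha, rfl, h5, -⟩ := hpos x hx h4
    rw [hC.lev a ha]
    exact h5
  · intro x hx h4 h5
    obtain ⟨a, ha, rfl, -, h6, -⟩ := hpos x hx h4
    rw [hle ha0 ha, h6] at h5
    exact absurd h5 (by simp)
  · intro x hx h4 y hy hyx x' hx' hyx' hn
    obtain ⟨a, ha, rfl, -, -, -, h8⟩ := hpos x hx h4
    obtain ⟨y, hy', rfl⟩ := S.surj' C hj hlo hhi hy
    obtain ⟨x', hxn', hcx, rfl⟩ := (hC.cov y hy' x').mp hyx'
    rw [hthe a ha, hthe x' hxn']
    rcases h8 y (by omega) with h9 | h9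
    · rw [hle hy' ha, h9] at hyx
      exact absurd hyx (by simp)
    · rcases h9 x' (by omega) with (h10 | h10) | h10
      · rw [hcx] at h10
        exact absurd h10 (by simp)
      · exact absurd ((hle hxn' ha).mpr h10) hn
      · exact h10
  · intro x hx
    rcases Nat.eq_zero_or_pos (thC lo hi e thv x) with h4 | h4
    · rw [h4]; exact Nat.zero_le _
    · obtain ⟨a, ha, rfl, -, -, h7, -⟩ := hpos x hx h4
      rw [hthe a ha, hC.lev a ha]
      exact h7

end Strip

/-- natural set with thresholds by a table -/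
theorem StripOK.natTopC {t : Tops P} {r j N J a : ℕ} {lo hi : ℕ → ℕ} {e : ℕ → ℕ → P}
    {w : List Ltr} {ll sl cv nn um : ℕ → ℕ}
    (S : StripOK N J (losW a w) (hisW a w) ll sl cv nn) {Us : List ℕ} (hU : UsOK N cv Us)
    (D : WordD j a w lo hi) (C : Cp.Comp j (t : P) lo hi e) (H : Gr P r)
    (hg : ∀ l, l < j → Win.Good P l) (hj : j ≤ J) {i b a0 : ℕ} {thv : ℕ → ℕ → ℕ}
    (hth : thChk N i a0 ll cv um (fun a => thv (ll a) (sl a)) = true) (haj : ll a0 ≤ j)
    (hia : i ≤ ll a0) (hc : CleanAt i b (lowPart j (t : P)) (e (ll a0) (sl a0))) :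
    NatTop i t b (lowPart j (t : P)) (thC lo hi e thv) (fun x => x = e (ll a0) (sl a0)) := by
  obtain ⟨h1, h2⟩ := D.rows C
  refine (S.loc C H hg t.2 hj h1 h2 hU.cv hth haj hc).natTop ?_ ?_ ?_
  · intro x hx y hxy
    rw [mem_lowPart] at hx ⊢
    refine ⟨Cp.up_le H hg t.2 hx.1 hx.2 hxy, ?_⟩
    rcases eq_or_lt_of_le hxy with h1 | h1
    · rw [← h1]; exact hx.2
    · have := lev_strictAnti h1
      omega
  · exact fun x hx => (mem_lowPart.mp hx).1
  · intro x hx hxi
    exact mem_lowPart.mpr ⟨hx, by omega⟩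

end Pool.Agent.GaussPoset.Cl

end

/-! From `Pool.Agent.W_448cl_h67.ClQ` -/

section

/-!
The word `OC CO CO OO CC CO` at level 10: the strip without the last cell.
-/

namespace Pool.Agent.GaussPoset.Cl

open Finset Wd

/-- the word -/
def w4d : List Ltr := [OC, CO, CO, OO, CC, CO]

/-- the up-sets -/
def L4dus : List ℕ := [262143, 131071, 98303, 94207, 65535, 49151, 32767, 28671, 24575, 20479, 19455, 19199, 19135, 16383, 12287, 8191, 6143, 4095, 3071, 2815, 2751, 2047, 1023, 767, 703, 511, 255, 191, 127, 95, 63, 47, 31, 15, 7, 3, 1, 0]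

/-- the covers -/
def L4dcv : List ℕ := [0, 1, 2, 4, 8, 8, 16, 48, 192, 128, 768, 512, 1024, 3072, 2048, 12288, 24576, 98304, 65536]

/-- the levels -/
def L4dlv : List ℕ := [0, 1, 2, 3, 4, 4, 5, 5, 6, 6, 7, 7, 8, 8, 8, 9, 9, 10, 10]

/-- the coordinates -/
def L4dsl : List ℕ := [0, 0, 0, 0, 0, 1, 0, 1, 1, 2, 2, 3, 2, 3, 4, 3, 4, 4, 5]

/-- the numbers of cells -/
def L4dnn : List ℕ := [1, 2, 3, 4, 6, 8, 10, 12, 15, 17, 19]

theorem L4d_us : UsOK 18 (fun a => L4dcv.getD a 0) L4dus :=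
  usOK_of_chk (by decide +kernel)

theorem L4d_strip : StripOK 19 10 (losW 4 w4d) (hisW 4 w4d) (fun a => L4dlv.getD a 0)
    (fun a => L4dsl.getD a 0) (fun a => L4dcv.getD a 0) (fun a => L4dnn.getD a 0) :=
  stripOK_of_chk (by decide +kernel)

/-- window 4 -/
def L4dL4 : List (ℕ × ℕ × ℕ) := [(19135, 9, 1), (19199, 9, 2), (19455, 9, 3), (20479, 9, 4), (24575, 9, 5), (28671, 9, 5), (32767, 9, 6), (65535, 10, 6), (94207, 10, 5), (98303, 10, 6), (131071, 10, 7), (262143, 11, 7)]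

theorem L4d_win4 : winChk 18 (2 ^ 100) 7 (fun a => L4dlv.getD a 0) L4dus 4 19135 L4dL4 = true := by
  decide +kernel

theorem L4d_b4 : baseChk 19 10 4 14 19135 (fun a => L4dlv.getD a 0) (fun a => L4dcv.getD a 0)
    (fun a => L4dnn.getD a 0) = true := by decide +kernel

/-- window 5 -/
def L4dL5 : List (ℕ × ℕ × ℕ) := [(94207, 10, 5), (98303, 10, 6), (131071, 10, 7), (262143, 11, 7)]

theorem L4d_win5 : winChk 18 (2 ^ 100) 7 (fun a => L4dlv.getD a 0) L4dus 5 94207 L4dL5 = true := by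
  decide +kernel

theorem L4d_b5 : baseChk 19 10 5 16 94207 (fun a => L4dlv.getD a 0) (fun a => L4dcv.getD a 0)
    (fun a => L4dnn.getD a 0) = true := by decide +kernel

/-- a smaller code -/
lemma Cod.restrict {P : Type*} [Fintype P] [PartialOrder P] [DecidableEq P] {n n' : ℕ}
    {cv lv : ℕ → ℕ} {c : ℕ → P} (C : Cod n cv lv c) (h : n' ≤ n)
    (hcv : ∀ a < n', cv a < 2 ^ n') : Cod n' cv lv c where
  inj := fun a ha b hb => C.inj a (by omega) b (by omega)
  cov := by
    intro a ha y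
    rw [C.cov a (by omega) y]
    constructor
    · rintro ⟨b, hb, h1, h2⟩
      refine ⟨b, ?_, h1, h2⟩
      by_contra hcon
      rw [Nat.testBit_lt_two_pow (lt_of_lt_of_le (hcv a ha) (Nat.pow_le_pow_right (by norm_num)
        (by omega)))] at h1
      exact absurd h1 (by simp)
    · rintro ⟨b, hb, h1, h2⟩
      exact ⟨b, by omega, h1, h2⟩
  lev := fun a ha => C.lev a (by omega)

section

universe u

variable {P : Type u} [Fintype P] [PartialOrder P] [DecidableEq P]
variable {r : ℕ} {t : P} {lo hi : ℕ → ℕ} {e : ℕ → ℕ → P}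

/-- order two above the base, without the last cell -/
theorem dead_clean (D : WordD 10 4 w4d lo hi) (C : Cp.Comp 10 t lo hi e) (H : Gr P r)
    (hg : ∀ l, l < 10 → Win.Good P l) (ht : lev t = 0) {i : ℕ} (h4 : 4 ≤ i) (h5 : i ≤ 5) :
    CleanAt i 2 ((lowPart 10 t).erase (e 10 5)) (e (i + 4) 4) := by
  obtain ⟨h1, h2⟩ := D.rows C
  have hC := L4d_strip.cod C H hg ht le_rfl h1 h2
  have hcv : ∀ a < 18, L4dcv.getD a 0 < 2 ^ 18 := by decide +kernel
  have hR := hC.restrict (n' := 18) (by decide +kernel) hcv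
  intro U hUN hup hlow hbase
  have hlow' : ∀ x ∈ lowPart 10 t, lev x ≤ i → x ∈ U := by
    intro x hx hl
    refine hlow x (mem_erase.mpr ⟨?_, hx⟩) hl
    rintro rfl
    have hl10 : lev (e 10 5) = 10 := by
      have h6 := hC.lev 18 (by decide +kernel)
      exact h6
    omega
  have hin : ∀ x ∈ U, ∃ a < 18, (fun a => e (L4dlv.getD a 0) (L4dsl.getD a 0)) a = x := by
    intro x hx
    have hx' := mem_erase.mp (hUN hx)
    obtain ⟨a, ha, h6⟩ := L4d_strip.surj' C le_rfl h1 h2 hx'.2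
    have ha' : a < 19 := ha
    refine ⟨a, ?_, h6⟩
    by_contra hcon
    have h7 : a = 18 := by omega
    subst h7
    exact hx'.1 h6.symm
  obtain rfl | rfl : i = 4 ∨ i = 5 := by omega
  · obtain ⟨h6, h7⟩ := L4d_strip.base_mem C H hg ht le_rfl h1 h2 L4d_b4 (by show 8 ≤ 10; omega)
      hup hlow' hbase
    exact hR.clean_of L4d_us le_rfl L4d_win4 hin hup (by norm_num)
      (fun a ha hb => h7 a (lt_of_lt_of_le ha (by decide +kernel)) hb)
  · obtain ⟨h6, h7⟩ := L4d_strip.base_mem C H hg ht le_rfl h1 h2 L4d_b5 (by show 9 ≤ 10; omega)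
      hup hlow' hbase
    exact hR.clean_of L4d_us le_rfl L4d_win5 hin hup (by norm_num)
      (fun a ha hb => h7 a (lt_of_lt_of_le ha (by decide +kernel)) hb)

end

section

universe u

variable {P : Type u} [Fintype P] [PartialOrder P] [DecidableEq P]
variable {r : ℕ} {t : Tops P} {lo hi : ℕ → ℕ} {e : ℕ → ℕ → P}

end

end Pool.Agent.GaussPoset.Cl

end

/-! From `Pool.Agent.W_448rr_h67.RrA` -/

section

/-!
# Twins over arbitrary component data (MP_448cb3_co)

`Y ⊆ R` are unnatural elements, `τ x ∉ R` is a natural element with the same strict up-set as `x`.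
Component data for `R` give component data with twins for `R \ Y`: a lower set `D ⊇ R \ Y` which
breaks all pairs is turned into a lower set `D' ⊇ R` by exchanging the twins, and the complements
are isomorphic.
-/

namespace Pool.Agent.GaussPoset

set_option linter.unusedSectionVars false

open Polynomial Finset

universe u

variable {P : Type u} [Fintype P] [PartialOrder P] [DecidableEq P]
variable {ι : Type*}

/-- twins `x ∈ Y` of natural elements `τ x` -/
structure TwSys (R Y : Finset P) (cp : P → ι) (τ : P → P) : Prop where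
  sub : Y ⊆ R
  nat : ∀ x ∈ Y, τ x ∉ R
  up : ∀ x ∈ Y, ∀ y, τ x < y ↔ x < y
  inj : ∀ x ∈ Y, ∀ x' ∈ Y, τ x = τ x' → x = x'
  anti : ∀ x ∈ Y, ∀ y ∈ Y, ¬ y < x
  cp : ∀ x ∈ Y, cp (τ x) = cp x

section Tw

variable {R Y D : Finset P} {cp : P → ι} {τ : P → P} {k : ι} {i b : ℕ} {θ : P → ℕ} {B : P → Prop}

/-- the thresholds on the twins -/
def thX (Y : Finset P) (τ : P → P) (θ : P → ℕ) (x : P) : ℕ := if x ∈ Y then θ (τ x) else θ x

lemma thX_of {x : P} (h : x ∈ Y) : thX Y τ θ x = θ (τ x) := if_pos h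

lemma thX_not {x : P} (h : x ∉ Y) : thX Y τ θ x = θ x := if_neg h

/-- the pairs of twins -/
def pairsX (Y : Finset P) (τ : P → P) : Finset (P × P) := Y.image (fun x => (τ x, x))

lemma mem_pairsX {t : P × P} : t ∈ pairsX Y τ ↔ t.2 ∈ Y ∧ t.1 = τ t.2 := by
  unfold pairsX
  rw [mem_image]
  constructor
  · rintro ⟨x, hx, rfl⟩
    exact ⟨hx, rfl⟩
  · rintro ⟨h1, h2⟩
    exact ⟨t.2, h1, Prod.ext h2.symm rfl⟩

lemma TwSys.lower (T : TwSys R Y cp τ) (hR : ∀ x y, x ≤ y → y ∈ R → x ∈ R) :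
    ∀ x y, x ≤ y → y ∈ R \ Y → x ∈ R \ Y := by
  intro x y hxy hy
  rw [mem_sdiff] at hy ⊢
  refine ⟨hR x y hxy hy.1, fun hxX => ?_⟩
  rcases eq_or_lt_of_le hxy with h | h
  · exact hy.2 (h ▸ hxX)
  · exact T.nat x hxX (hR _ y ((T.up x hxX y).mpr h).le hy.1)

lemma TwSys.cp' (T : TwSys R Y cp τ) (hcp : ∀ x y, x ≤ y → x ∉ R → cp x = cp y) :
    ∀ x y, x ≤ y → x ∉ R \ Y → cp x = cp y := by
  intro x y hxy hx
  by_cases hxX : x ∈ Y
  · rcases eq_or_lt_of_le hxy with h | h
    · rw [h]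
    · rw [← T.cp x hxX]
      exact hcp _ y ((T.up x hxX y).mpr h).le (T.nat x hxX)
  · refine hcp x y hxy fun hxR => hx (mem_sdiff.mpr ⟨hxR, hxX⟩)

/-- the lower set with the twins exchanged -/
def exc (Y : Finset P) (τ : P → P) (D : Finset P) : Finset P := (D \ (Y \ D).image τ) ∪ Y

lemma mem_exc {x : P} : x ∈ exc Y τ D ↔ (x ∈ D ∧ ∀ y ∈ Y, y ∉ D → τ y ≠ x) ∨ x ∈ Y := by
  unfold exc
  rw [mem_union, mem_sdiff, mem_image]
  constructor
  · rintro (⟨h1, h2⟩ | h)
    · exact Or.inl ⟨h1, fun y hy hyD h3 => h2 ⟨y, mem_sdiff.mpr ⟨hy, hyD⟩, h3⟩⟩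
    · exact Or.inr h
  · rintro (⟨h1, h2⟩ | h)
    · refine Or.inl ⟨h1, ?_⟩
      rintro ⟨y, hy, h3⟩
      rw [mem_sdiff] at hy
      exact h2 y hy.1 hy.2 h3
    · exact Or.inr h

lemma TwSys.good_exc (T : TwSys R Y cp τ) (hR : ∀ x y, x ≤ y → y ∈ R → x ∈ R)
    (hRlev : ∀ x ∈ R, i < lev x) (hBR : ∀ x ∈ R, ¬ B x) (hD : Good i (R \ Y) B D) :
    Good i R B (exc Y τ D) := by
  obtain ⟨h1, h2, h3, h4⟩ := hD
  have hsub : ∀ x ∈ R, x ∈ exc Y τ D := by
    intro x hx
    rw [mem_exc]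
    by_cases hxX : x ∈ Y
    · exact Or.inr hxX
    · refine Or.inl ⟨h2 (mem_sdiff.mpr ⟨hx, hxX⟩), fun y hy _ h => ?_⟩
      exact T.nat y hy (h ▸ hx)
  refine ⟨?_, hsub, ?_, ?_⟩
  · intro x y hxy hy
    rcases eq_or_lt_of_le hxy with h | hlt
    · rw [h]; exact hy
    rw [mem_exc] at hy
    rcases hy with ⟨hy1, hy2⟩ | hy
    · rw [mem_exc]
      refine Or.inl ⟨h1 x y hxy hy1, fun w hw hwD h => ?_⟩
      refine hwD (h1 w y ?_ hy1)
      exact ((T.up w hw y).mp (by rw [h]; exact hlt)).le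
    · exact hsub x (hR x y hxy (T.sub hy))
  · intro x hx
    rw [mem_exc] at hx
    rcases hx with hx | hx
    · exact h3 x hx.1
    · exact hRlev x (T.sub hx)
  · intro x hx
    rw [mem_exc] at hx
    rcases hx with hx | hx
    · exact h4 x hx.1
    · exact hBR x (T.sub hx)

/-- replace the twins by the natural elements -/
def repl (Y : Finset P) (τ : P → P) (x : P) : P := if x ∈ Y then τ x else x

lemma repl_of {x : P} (h : x ∈ Y) : repl Y τ x = τ x := if_pos h

lemma repl_not {x : P} (h : x ∉ Y) : repl Y τ x = x := if_neg h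

lemma TwSys.repl_cp (T : TwSys R Y cp τ) (x : P) : cp (repl Y τ x) = cp x := by
  by_cases h : x ∈ Y
  · rw [repl_of h, T.cp x h]
  · rw [repl_not h]

lemma TwSys.repl_not_mem (T : TwSys R Y cp τ) {x : P} (hx : x ∉ D) :
    repl Y τ x ∉ exc Y τ D := by
  rw [mem_exc]
  by_cases h : x ∈ Y
  · rw [repl_of h]
    rintro (h1 | h1)
    · exact h1.2 x h hx rfl
    · exact T.nat x h (T.sub h1)
  · rw [repl_not h]
    rintro (h1 | h1)
    · exact hx h1.1
    · exact h h1

lemma repl_surj {y : P} (hy : y ∉ exc Y τ D) : ∃ x, x ∉ D ∧ repl Y τ x = y := by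
  rw [mem_exc, not_or] at hy
  obtain ⟨h1, h2⟩ := hy
  by_cases hyD : y ∈ D
  · have h3 : ¬ ∀ w ∈ Y, w ∉ D → τ w ≠ y := fun h => h1 ⟨hyD, h⟩
    push Not at h3
    obtain ⟨w, hw, hwD, h4⟩ := h3
    exact ⟨w, hwD, by rw [repl_of hw, h4]⟩
  · exact ⟨y, hyD, repl_not h2⟩

lemma TwSys.repl_le (T : TwSys R Y cp τ) (hR : ∀ x y, x ≤ y → y ∈ R → x ∈ R)
    (hlow : ∀ x y, x ≤ y → y ∈ D → x ∈ D) (hRD : R \ Y ⊆ D)
    (hbr : ∀ x ∈ Y, τ x ∈ D ∨ x ∈ D) {x y : P} (hx : x ∉ D) (hy : y ∉ D) :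
    repl Y τ x ≤ repl Y τ y ↔ x ≤ y := by
  have hτ : ∀ w ∈ Y, w ∉ D → τ w ∈ D := fun w hw hwD => (hbr w hw).resolve_right hwD
  by_cases hxX : x ∈ Y
  · rw [repl_of hxX]
    by_cases hyX : y ∈ Y
    · rw [repl_of hyX]
      constructor
      · intro h
        rcases eq_or_lt_of_le h with h1 | h1
        · exact (T.inj x hxX y hyX h1).le
        · exact absurd (hlow x _ ((T.up x hxX _).mp h1).le (hτ y hyX hy)) hx
      · intro h
        rcases eq_or_lt_of_le h with h1 | h1
        · rw [h1]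
        · exact absurd h1 (T.anti y hyX x hxX)
    · rw [repl_not hyX]
      constructor
      · intro h
        rcases eq_or_lt_of_le h with h1 | h1
        · exact absurd (h1 ▸ hτ x hxX hx) hy
        · exact ((T.up x hxX y).mp h1).le
      · intro h
        rcases eq_or_lt_of_le h with h1 | h1
        · exact absurd (h1 ▸ hxX) hyX
        · exact ((T.up x hxX y).mpr h1).le
  · rw [repl_not hxX]
    by_cases hyX : y ∈ Y
    · rw [repl_of hyX]
      constructor
      · intro h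
        exact absurd (hlow x _ h (hτ y hyX hy)) hx
      · intro h
        have hxR : x ∈ R := hR x y h (T.sub hyX)
        exact absurd (hRD (mem_sdiff.mpr ⟨hxR, hxX⟩)) hx
    · rw [repl_not hyX]

/-- the complements are isomorphic -/
theorem TwSys.dvd_W (T : TwSys R Y cp τ) (hR : ∀ x y, x ≤ y → y ∈ R → x ∈ R)
    (hD : Good i (R \ Y) B D) (hbr : Broken (pairsX Y τ) D) [DecidableEq ι]
    (h : (1 + X : Polynomial (PowerSeries ℤ)) ^ b ∣
      W {x : {x : P // x ∉ exc Y τ D} // cp (x : P) = k} i) :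
    (1 + X : Polynomial (PowerSeries ℤ)) ^ b ∣ W {x : {x : P // x ∉ D} // cp (x : P) = k} i := by
  classical
  have hbr' : ∀ x ∈ Y, τ x ∈ D ∨ x ∈ D := fun x hx =>
    hbr (τ x, x) (mem_pairsX.mpr ⟨hx, rfl⟩)
  let f : {x : {x : P // x ∉ D} // cp (x : P) = k} →
      {x : {x : P // x ∉ exc Y τ D} // cp (x : P) = k} :=
    fun x => ⟨⟨repl Y τ x.1.1, T.repl_not_mem x.1.2⟩, by
      show cp (repl Y τ x.1.1) = k
      rw [T.repl_cp]; exact x.2⟩
  have hf : ∀ x y, f x ≤ f y ↔ x ≤ y := fun x y =>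
    T.repl_le hR hD.1 hD.2.1 hbr' x.1.2 y.1.2
  have hbij : Function.Bijective f := by
    constructor
    · intro x y hxy
      exact le_antisymm ((hf x y).mp hxy.le) ((hf y x).mp hxy.ge)
    · intro y
      obtain ⟨x, hx, hxy⟩ := repl_surj y.1.2
      refine ⟨⟨⟨x, hx⟩, ?_⟩, Subtype.ext (Subtype.ext hxy)⟩
      rw [← T.repl_cp x, hxy]
      exact y.2
  let e : {x : {x : P // x ∉ D} // cp (x : P) = k} ≃o
      {x : {x : P // x ∉ exc Y τ D} // cp (x : P) = k} :=
    { Equiv.ofBijective f hbij with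
      map_rel_iff' := fun {x y} => hf x y }
  rw [W_iso e]
  exact h

lemma TwSys.lev (T : TwSys R Y cp τ) {x : P} (hx : x ∈ Y) :
    Pool.Agent.GaussPoset.lev (τ x) = Pool.Agent.GaussPoset.lev x :=
  lev_eq_of_up (T.up x hx)

lemma TwSys.cov (T : TwSys R Y cp τ) {x y : P} (hx : x ∈ Y) : τ x ⋖ y ↔ x ⋖ y := by
  constructor
  · intro h
    exact ⟨(T.up x hx y).mp h.1, fun z h1 h2 => h.2 ((T.up x hx z).mpr h1) h2⟩
  · intro h
    exact ⟨(T.up x hx y).mpr h.1, fun z h1 h2 => h.2 ((T.up x hx z).mp h1) h2⟩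

/-- component data with twins -/
theorem CompData.toTwins (H : CompData R cp k i b θ B) (T : TwSys R Y cp τ)
    (hR : ∀ x y, x ≤ y → y ∈ R → x ∈ R) (hRlev : ∀ x ∈ R, i < Pool.Agent.GaussPoset.lev x)
    (hBR : ∀ x ∈ R, ¬ B x) : CompDataT (R \ Y) cp k i b (thX Y τ θ) B (pairsX Y τ) where
  clean := by
    intro D hD hbr hdec
    exact T.dvd_W hR hD hbr (H.clean _ (T.good_exc hR hRlev hBR hD) hdec)
  lev := by
    intro x hx hk h1
    by_cases hxY : x ∈ Y
    · rw [thX_of hxY] at h1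
      rw [← T.lev hxY]
      exact H.lev _ (T.nat x hxY) ((T.cp x hxY).trans hk) h1
    · rw [thX_not hxY] at h1
      exact H.lev x (fun h => hx (mem_sdiff.mpr ⟨h, hxY⟩)) hk h1
  base := by
    intro x hx hk h1 y hyx hy
    by_cases hyR : y ∈ R
    · exact hBR y hyR
    · have hxR : x ∉ R := fun h => hyR (hR y x hyx h)
      have hxY : x ∉ Y := fun h => hxR (T.sub h)
      rw [thX_not hxY] at h1
      exact H.base x hxR hk h1 y hyx hyR
  step := by
    intro x hx hk h1 y hyx hy x' hx' hyx' hn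
    have hyR : ∀ {w}, w ∈ R → y ≤ w → y ∈ Y := by
      intro w hw hyw
      by_contra hcon
      exact hy (mem_sdiff.mpr ⟨hR y w hyw hw, hcon⟩)
    have hxY' : x' ∉ Y := fun h => T.anti x' h y (hyR (T.sub h) hyx'.1.le) hyx'.1
    have hxR' : x' ∉ R := fun h => hx' (mem_sdiff.mpr ⟨h, hxY'⟩)
    rw [thX_not hxY']
    by_cases hxY : x ∈ Y
    · have hyY := hyR (T.sub hxY) hyx
      have hyx2 : y = x := by
        by_contra hne
        exact T.anti x hxY y hyY (lt_of_le_of_ne hyx hne)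
      subst hyx2
      rw [thX_of hxY] at h1 ⊢
      have h2 := (T.cov (y := x') hxY).mpr hyx'
      exact H.step _ (T.nat _ hxY) ((T.cp _ hxY).trans hk) h1 _ le_rfl (T.nat _ hxY) x' hxR' h2
        (not_le_of_gt h2.1)
    · have hxR : x ∉ R := fun h => hx (mem_sdiff.mpr ⟨h, hxY⟩)
      rw [thX_not hxY] at h1 ⊢
      by_cases hyY : y ∈ Y
      · have hne : y ≠ x := fun h => hxY (h ▸ hyY)
        have h2 := (T.cov (y := x') hyY).mpr hyx'
        have h3 := (T.up y hyY x).mpr (lt_of_le_of_ne hyx hne)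
        exact H.step x hxR hk h1 _ h3.le (T.nat _ hyY) x' hxR' h2 hn
      · exact H.step x hxR hk h1 y hyx (fun h => hy (mem_sdiff.mpr ⟨h, hyY⟩)) x' hxR' hyx' hn
  le := by
    intro x hx hk
    by_cases hxY : x ∈ Y
    · rw [thX_of hxY, ← T.lev hxY]
      exact H.le _ (T.nat x hxY) ((T.cp x hxY).trans hk)
    · rw [thX_not hxY]
      exact H.le x (fun h => hx (mem_sdiff.mpr ⟨h, hxY⟩)) hk

end Tw

section Assembly

variable {i : ℕ} {N : Tops P → Finset P} {b : Tops P → ℕ} {θ : Tops P → P → ℕ}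
  {B : Tops P → P → Prop} {Y : Finset P} {τ : P → P}

/-- assembly: natural sets of all tops and twins of natural elements -/
theorem farT_of_tops (hgr : GradedBelow P) (H : ∀ t, NatTop i t (b t) (N t) (θ t) (B t))
    (T : TwSys (unnat N) Y topOf τ) (n0 : ℕ)
    (htw : ∀ x ∈ Y, TwinPair i (thX Y τ (fun x => θ (topOf x) x)) n0 (τ x) x) :
    FarT P i (unnat N \ Y) (∑ t, b t)
      (hcan (unnat N \ Y) (thX Y τ (fun x => θ (topOf x) x))) n0 := by
  have HN := natSys_of_tops H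
  have hRlev : ∀ x ∈ unnat N, i < lev x := by
    intro x hx
    by_contra hcon
    exact low_natural H (not_lt.mp hcon) hx
  refine farT_of_compT hgr (T.lower HN.lower) (fun x hx => hRlev x (mem_sdiff.mp hx).1) topOf
    (T.cp' HN.cp) b _ (fun x => x ∉ unnat N ∧ B (topOf x) x)
    (fun x hx h => h.1 (mem_sdiff.mp hx).1) (pairsX Y τ) n0 ?_ ?_ ?_ ?_
  · intro t
    refine CompData.toTwins ((H t).data N HN rfl _ _ ?_ ?_) T HN.lower hRlev (fun x hx h => h.1 hx)
    · intro x hx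
      simp only [HN.topOf_eq hx]
    · intro x hx
      simp only [HN.topOf_eq hx, (HN.mem_iff.mp hx).1, not_false_eq_true, true_and]
  · intro t ht
    rw [mem_pairsX] at ht
    have h1 := htw t.2 ht.1
    rw [← ht.2] at h1
    exact h1
  · intro t ht y hy
    rw [mem_pairsX] at ht
    rw [mem_sdiff]
    exact ⟨HN.lower y _ hy.le (T.sub ht.1), fun h => T.anti _ ht.1 y h hy⟩
  · intro t ht
    rw [mem_pairsX] at ht
    rw [mem_sdiff, mem_sdiff, ht.2]
    exact ⟨fun h => T.nat _ ht.1 h.1, fun h => h.2 ht.1⟩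

end Assembly

end Pool.Agent.GaussPoset

end

/-! From `Pool.Agent.W_448s7_h5.SevE` -/

section

/-!
The leading term of the far window theorem with twins; the term of a twin pair.
-/

namespace Pool.Agent.GaussPoset

set_option linter.unusedSectionVars false

open Polynomial Finset

universe u

variable {P : Type u} [Fintype P] [PartialOrder P] [DecidableEq P]
variable {ι : Type*}

section Term

variable {i : ℕ} {θ : P → ℕ} {t : P × P}

lemma rho_tez_up (H : Twn i θ t) (hδ : θ t.1 + 1 = lev t.1 - i) {y : P} (h : t.1 < y) :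
    rho i (tez i θ t) y = (lev y : ℤ) - i := by
  have h1 := lev_strictAnti h
  unfold rho
  rw [tez_up H h]
  have h2 : min (θ t.1 + 1) (lev y - i) = lev y - i := Nat.min_eq_right (by omega)
  rw [h2]
  omega

lemma rho_tez_snd (H : Twn i θ t) (hδ : θ t.1 + 1 = lev t.1 - i) :
    rho i (tez i θ t) t.2 = (lev t.2 : ℤ) - i := by
  have hl : lev t.1 = lev t.2 := lev_eq_of_up H.up
  have h1 := H.one_le
  unfold rho
  rw [tez_snd H.ne]
  omega

lemma rho_tez_fst (H : Twn i θ t) (hδ : θ t.1 + 1 = lev t.1 - i) :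
    rho i (tez i θ t) t.1 = (lev t.1 : ℤ) - i - 1 := by
  have h1 := H.one_le
  unfold rho
  rw [tez_fst]
  omega

lemma rho_tez_off {y : P} (h1 : y ≠ t.1) (h2 : y ≠ t.2) (h3 : ¬ t.1 < y) :
    rho i (tez i θ t) y = -((i - lev y : ℕ) : ℤ) := by
  unfold rho
  rw [tez_off h1 h2 h3]
  simp

lemma FI_tez (H : Twn i θ t) (hδ : θ t.1 + 1 = lev t.1 - i) (y : P) :
    FI i (tez i θ t) y ↔ lev y < i ∨ (t.2 ≤ y ∧ lev y < lev t.2) := by
  have hl : lev t.1 = lev t.2 := lev_eq_of_up H.up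
  have hθ := H.one_le
  have hnl : ¬ t.1 < t.2 := fun h => by have := lev_strictAnti h; omega
  have hbd : ∀ w, rho i (tez i θ t) w ≤ (lev w : ℤ) - i ∨ rho i (tez i θ t) w ≤ 0 := by
    intro w
    by_cases h3 : t.1 < w
    · left; rw [rho_tez_up H hδ h3]
    · by_cases h1 : w = t.1
      · left; rw [h1, rho_tez_fst H hδ]; omega
      · by_cases h2 : w = t.2
        · left; rw [h2, rho_tez_snd H hδ]
        · right; rw [rho_tez_off h1 h2 h3]; omega
  unfold FI
  constructor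
  · rintro (h | ⟨w, hw, h⟩)
    · left
      by_cases h3 : t.1 < y
      · rw [rho_tez_up H hδ h3] at h; omega
      · by_cases h1 : y = t.1
        · rw [h1, rho_tez_fst H hδ] at h; omega
        · by_cases h2 : y = t.2
          · rw [h2, rho_tez_snd H hδ] at h; omega
          · rw [rho_tez_off h1 h2 h3] at h; omega
    · have hlw := lev_strictAnti hw
      by_cases h3 : t.1 < y
      · right
        have h4 := (H.up y).mp h3
        exact ⟨h4.le, lev_strictAnti h4⟩
      · left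
        have hw1 : w ≠ t.1 := fun h5 => h3 (h5 ▸ hw)
        have hw2 : w ≠ t.2 := fun h5 => h3 ((H.up y).mpr (h5 ▸ hw))
        have hw3 : ¬ t.1 < w := fun h5 => h3 (h5.trans hw)
        rw [rho_tez_off hw1 hw2 hw3] at h
        by_cases h1 : y = t.1
        · rw [h1, rho_tez_fst H hδ] at h; omega
        · by_cases h2 : y = t.2
          · rw [h2, rho_tez_snd H hδ] at h; omega
          · rw [rho_tez_off h1 h2 h3] at h; omega
  · rintro (h | ⟨h, h4⟩)
    · left
      by_cases h3 : t.1 < y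
      · rw [rho_tez_up H hδ h3]; omega
      · have h1 : y ≠ t.1 := by rintro rfl; omega
        have h2 : y ≠ t.2 := by rintro rfl; omega
        rw [rho_tez_off h1 h2 h3]; omega
    · right
      have hne : t.2 ≠ y := by rintro rfl; omega
      have hlt := lt_of_le_of_ne h hne
      refine ⟨t.2, hlt, ?_⟩
      rw [rho_tez_snd H hδ, rho_tez_up H hδ ((H.up y).mpr hlt)]
      omega

lemma FA_tez (H : Twn i θ t) (hδ : θ t.1 + 1 = lev t.1 - i) (y : P) :
    FA i (tez i θ t) y ↔ i < lev y ∧ ¬ t.2 ≤ y := by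
  have hl : lev t.1 = lev t.2 := lev_eq_of_up H.up
  have hθ := H.one_le
  have hnl : ¬ t.1 < t.2 := fun h => by have := lev_strictAnti h; omega
  unfold FA
  constructor
  · rintro ⟨w, hw, h⟩
    have hlw := lev_strictAnti hw
    by_cases h3 : t.1 < y
    · rw [rho_tez_up H hδ h3, rho_tez_up H hδ (h3.trans hw)] at h
      omega
    · by_cases h2 : y = t.2
      · have h4 : t.1 < w := (H.up w).mpr (h2 ▸ hw)
        rw [h2, rho_tez_snd H hδ, rho_tez_up H hδ h4] at h
        rw [h2] at hlw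
        omega
      · refine ⟨?_, fun h4 => h3 ((H.up y).mpr (lt_of_le_of_ne h4 (Ne.symm h2)))⟩
        by_cases h1 : y = t.1
        · rw [h1]; omega
        · by_contra hcon
          rw [rho_tez_off h1 h2 h3] at h
          by_cases h5 : t.1 < w
          · rw [rho_tez_up H hδ h5] at h; omega
          · have h6 : w ≠ t.1 := by rintro rfl; omega
            have h7 : w ≠ t.2 := by rintro rfl; omega
            rw [rho_tez_off h6 h7 h5] at h; omega
  · rintro ⟨h1, h2⟩
    have h3 : ¬ t.1 < y := fun h => h2 ((H.up y).mp h).le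
    have h2' : y ≠ t.2 := fun h => h2 h.ge
    by_cases h4 : y = t.1
    · obtain ⟨w0, hw0, -⟩ := exists_lev_succ (x := y) (k := lev y - 1) (by omega)
      obtain ⟨w, hw1, hw2⟩ := exists_above' (x := y) (j := lev y - 1) (by omega)
      have hne : y ≠ w := by rintro rfl; omega
      have hlt := lt_of_le_of_ne hw1 hne
      refine ⟨w, hlt, ?_⟩
      have h5 := rho_tez_up H hδ (h4 ▸ hlt)
      rw [h5]
      rw [h4, rho_tez_fst H hδ]
      rw [h4] at hw2
      omega
    · obtain ⟨w, hw1, hw2⟩ := exists_above' (x := y) (j := i) h1.le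
      have hne : y ≠ w := by rintro rfl; omega
      have hlt := lt_of_le_of_ne hw1 hne
      refine ⟨w, hlt, ?_⟩
      rw [rho_tez_off h4 h2' h3]
      by_cases h5 : t.1 < w
      · rw [rho_tez_up H hδ h5]; omega
      · have h6 : w ≠ t.1 := by rintro rfl; omega
        have h7 : w ≠ t.2 := by rintro rfl; omega
        rw [rho_tez_off h6 h7 h5]; omega

/-- a twin pair whose threshold is one less than the full label contributes as if the second
element had the full label -/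
theorem Tm_eq (hgr : GradedBelow P) (H : Twn i θ t) (hδ : θ t.1 + 1 = lev t.1 - i) :
    Tm i θ t = Lt i (fun _ => lev t.2 - i) t.2 := by
  classical
  have hl : lev t.1 = lev t.2 := lev_eq_of_up H.up
  have hθ := H.one_le
  have h1 : ∀ F : Finset P, Vd i (tez i θ t) F ↔ Vd i (ez i (fun _ => lev t.2 - i) t.2) F := by
    intro F
    rw [vd_iff, vd_iff]
    have h2 : ∀ y, FI i (tez i θ t) y ↔ FI i (ez i (fun _ => lev t.2 - i) t.2) y := by
      intro y
      rw [FI_tez H hδ, FI_ez hgr le_rfl (by omega)]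
      rw [show i + (lev t.2 - i) = lev t.2 by omega]
    have h3 : ∀ y, FA i (tez i θ t) y ↔ FA i (ez i (fun _ => lev t.2 - i) t.2) y := by
      intro y
      rw [FA_tez H hδ, FA_ez]
      rw [show i + (lev t.2 - i) = lev t.2 by omega]
      constructor
      · exact fun h => Or.inl h
      · rintro (h | ⟨h4, h5⟩)
        · exact h
        · exfalso
          rcases eq_or_lt_of_le h4 with h6 | h6
          · rw [h6] at h5; omega
          · have := lev_strictAnti h6; omega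
    simp only [h2, h3]
  unfold Tm
  rw [Finset.sum_congr rfl (g := fun F => if Vd i (ez i (fun _ => lev t.2 - i) t.2) F then
    (X : ℤ[X]) ^ F.card else 0) (fun F _ => by simp only [h1 F]), sum_vd]
  have h2 := lead_eq (h := fun _ => lev t.2 - i) (z := t.2) hgr (by omega) le_rfl
  exact h2

end Term

section Lead

/-- far data with twins at the energy `n0` -/
structure FarX (P : Type u) [Fintype P] [PartialOrder P] [DecidableEq P] (i : ℕ)
    (R : Finset P) (b : ℕ) (h θ : P → ℕ) (Tw : Finset (P × P)) (n0 : ℕ) : Prop where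
  graded : GradedBelow P
  hlev : ∀ x ∈ R, i < lev x
  clean : ∀ g : P → ℕ, (∀ x, x ∉ R → g x = 0) → (∀ z ∈ bdR R, g z < h z) → g ≠ 0 →
    (1 + X : ℤ[X]) ^ b ∣ ZB i R g 0 n0
  zero : (1 + X : ℤ[X]) ^ b ∣ ZB i R 0 0 n0 -
    ∑ t ∈ Tw.filter (fun t => tcst i θ t = n0), Tm i θ t
  one_le : ∀ z ∈ bdR R, 1 ≤ h z
  le_lev : ∀ z ∈ bdR R, h z ≤ lev z - i

lemma RB_or_zero {i : ℕ} {R : Finset P} {bad : (P → ℕ) → Prop} (hb : ¬ bad 0) (n : ℕ) :
    RB i R (fun g => bad g ∨ g = 0) n = RB i R bad n + ZB i R 0 0 n := by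
  classical
  unfold RB ZB
  rw [← Finset.sum_add_distrib]
  refine Finset.sum_congr rfl fun F _ => ?_
  rw [← Finset.sum_union]
  · refine Finset.sum_congr ?_ (fun _ _ => rfl)
    ext e
    simp only [mem_union, mem_filter]
    constructor
    · rintro ⟨h1, hV, h2⟩
      by_cases h3 : (∃ x ∈ R, x ∈ F) ∨ bad (lbl R e)
      · exact Or.inl ⟨h1, hV, h3⟩
      · push Not at h3
        right
        refine ⟨h1, hV, fun x hx => ⟨h3.1 x hx, ?_⟩, fun x _ hxF => ?_⟩
        · rcases h2 with ⟨y, hy, hyF⟩ | h2 | h2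
          · exact absurd hyF (h3.1 y hy)
          · exact absurd h2 h3.2
          · have := congrFun h2 x
            rw [lbl_of hx] at this
            exact this
        · simpa using hV.2.1 x hxF
    · rintro (⟨h1, hV, h2⟩ | ⟨h1, hV, h2, -⟩)
      · refine ⟨h1, hV, ?_⟩
        rcases h2 with h2 | h2
        · exact Or.inl h2
        · exact Or.inr (Or.inl h2)
      · refine ⟨h1, hV, Or.inr (Or.inr ?_)⟩
        funext x
        by_cases hx : x ∈ R
        · rw [lbl_of hx, (h2 x hx).2]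
        · rw [lbl_off hx]; rfl
  · rw [Finset.disjoint_left]
    intro e h1 h2
    simp only [mem_filter] at h1 h2
    obtain ⟨-, -, h1⟩ := h1
    obtain ⟨-, hV, h2, -⟩ := h2
    rcases h1 with ⟨x, hx, hxF⟩ | h1
    · exact (h2 x hx).1 hxF
    · apply hb
      have h3 : lbl R e = 0 := by
        funext x
        by_cases hx : x ∈ R
        · rw [lbl_of hx, (h2 x hx).2]
        · rw [lbl_off hx]; rfl
      rwa [h3] at h1

/-- the far window theorem with twins: exact leading term -/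
theorem FarX.lead {i : ℕ} {R : Finset P} {b : ℕ} {h θ : P → ℕ} {Tw : Finset (P × P)} {n0 : ℕ}
    (H : FarX P i R b h θ Tw n0) (hn : ∀ z ∈ bdR R, n0 ≤ cst i h z) :
    (1 + X : ℤ[X]) ^ b ∣ Z P i n0 -
      (∑ z ∈ (bdR R).filter (fun z => cst i h z = n0), Lt i h z +
        ∑ t ∈ Tw.filter (fun t => tcst i θ t = n0), Tm i θ t) := by
  classical
  have hb : ¬ (fun g : P → ℕ => ∃ z ∈ bdR R, h z ≤ g z) 0 := by
    rintro ⟨z, hz, h1⟩
    have := H.one_le z hz
    have h2 : h z ≤ 0 := h1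
    omega
  have h1 := dvd_Z_sub_RB (i := i) (R := R)
    (fun g => (fun g : P → ℕ => ∃ z ∈ bdR R, h z ≤ g z) g ∨ g = 0) ((1 + X : ℤ[X]) ^ b) n0 (by
      intro g hg0 hg
      simp only [not_or] at hg
      refine H.clean g hg0 (fun z hz => ?_) hg.2
      by_contra hcon
      exact hg.1 ⟨z, hz, not_lt.mp hcon⟩)
  rw [RB_or_zero hb] at h1
  have hev := RB_eval (i := i) (R := R) (bad := fun g => ∃ z ∈ bdR R, h z ≤ g z) (n := n0) h ∅
    (bdR R) (fun z hz => absurd hz (Finset.notMem_empty z))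
    (fun z hz => ⟨H.one_le z hz, H.le_lev z hz⟩)
    (fun z hz => absurd hz (Finset.notMem_empty z))
    (fun z hz _ => ⟨z, hz, by rw [lbl_of (mem_filter.mp hz).1, ez_self (H.le_lev z hz)]⟩) (by
      intro e F hV hs hb
      have hd : ∃ z ∈ bdR R, Dgz h e F z := by
        by_contra hcon
        push Not at hcon
        have h2 := not_mem_of_not_dg H.hlev hV hcon
        rcases hb with ⟨x, hx, hxF⟩ | ⟨z, hz, hz2⟩
        · exact h2 x hx hxF
        · refine hcon z hz (Or.inr ?_)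
          rwa [lbl_of (mem_filter.mp hz).1] at hz2
      obtain ⟨z, hz, hd⟩ := hd
      right
      refine ⟨z, hz, ?_⟩
      have h4 : ∀ x, ez i h z x ≤ e x := ez_le hV (H.hlev z (mem_filter.mp hz).1) hd
      have h6 : cst i h z ≤ n0 := by
        rw [← hs]; exact Finset.sum_le_sum fun x _ => h4 x
      have h7 : cst i h z = n0 := le_antisymm h6 (hn z hz)
      funext x
      have h9 : ∑ x, ez i h z x = ∑ x, e x := by
        rw [hs]; exact h7
      exact ((Finset.sum_eq_sum_iff_of_le (fun x _ => h4 x)).mp h9 x (mem_univ x)).symm)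
    (fun z hz => absurd hz (Finset.notMem_empty z)) (fun z hz => absurd hz (Finset.notMem_empty z))
  have h6 : ∑ z ∈ (bdR R).filter (fun z => cst i h z = n0), Lt i h z =
      ∑ z ∈ (bdR R).filter (fun z => cst i h z = n0),
      (if Adm i (ez i h z) then
      (X : ℤ[X]) ^ (nf i (ez i h z)) * (1 + X) ^ (Pk i (ez i h z)).card else 0) := by
    refine Finset.sum_congr rfl fun z hz => ?_
    rw [mem_filter] at hz
    exact (lead_eq H.graded (H.one_le z hz.1) (H.le_lev z hz.1)).symm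
  rw [hev, Finset.sum_empty, zero_add] at h1
  rw [h6]
  have h7 := dvd_add h1 H.zero
  refine h7.trans (dvd_of_eq ?_)
  ring

end Lead

end Pool.Agent.GaussPoset

end

/-! From `Pool.Agent.W_448s7_h5.SevF` -/

section

/-!
Far data with twins from component data, at the cost of the cheapest pairs.
-/

namespace Pool.Agent.GaussPoset

set_option linter.unusedSectionVars false

open Polynomial Finset

universe u

variable {P : Type u} [Fintype P] [PartialOrder P] [DecidableEq P]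
variable {ι : Type*}

lemma tcst_congr {i : ℕ} {θ θ' : P → ℕ} {t : P × P} (h : θ t.1 = θ' t.1) :
    tez i θ t = tez i θ' t := by
  funext y
  unfold tez
  rw [h]

/-- far data with twins from component data -/
theorem farX_of_compT [Fintype ι] [DecidableEq ι] {i : ℕ} {R : Finset P}
    (hgr : GradedBelow P) (hR : ∀ x y, x ≤ y → y ∈ R → x ∈ R) (hRlev : ∀ x ∈ R, i < lev x)
    (cp : P → ι) (hcp : ∀ x y, x ≤ y → x ∉ R → cp x = cp y) (b : ι → ℕ) (θ : P → ℕ)
    (B : P → Prop) (hBR : ∀ x ∈ R, ¬ B x) (Tw : Finset (P × P)) (n0 : ℕ)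
    (H : ∀ k, CompDataT R cp k i (b k) θ B Tw)
    (htw : ∀ t ∈ Tw, Twn i θ t) (hanti : ∀ x x', (x, x') ∈ Tw → (x', x) ∉ Tw)
    (hcost : ∀ t ∈ Tw, n0 ≤ tcst i θ t) (hmin : ∀ t ∈ Tw, ∀ y < t.2, y ∈ R)
    (htR : ∀ t ∈ Tw, t.1 ∉ R ∧ t.2 ∉ R) : FarX P i R (∑ k, b k) (hcan R θ) θ Tw n0 := by
  classical
  let θ' : P → ℕ := fun x => if x ∈ R then 0 else θ x
  have hθ' : ∀ x, x ∉ R → θ' x = θ x := fun x hx => if_neg hx
  have hθ0 : ∀ x, 1 ≤ θ' x → x ∉ R := by
    intro x hx hxR
    have : θ' x = 0 := if_pos hxR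
    omega
  have hlow : ∀ D ∈ {D | Good i R B D}, ∀ x y, x ≤ y → y ∈ D → x ∈ D := fun D hD => hD.1
  have hlev : ∀ D ∈ {D | Good i R B D}, ∀ x ∈ D, i < lev x := fun D hD => hD.2.2.1
  have hRR : R ∈ {D | Good i R B D} := ⟨hR, Subset.refl R, hRlev, hBR⟩
  have hθ : ∀ x, 1 ≤ θ' x → i < lev x := by
    intro x hx
    have hxR := hθ0 x hx
    rw [hθ' x hxR] at hx
    exact (H (cp x)).lev x hxR rfl hx
  have hle : ∀ x, θ' x ≤ lev x - i := by
    intro x
    by_cases hxR : x ∈ R
    · have : θ' x = 0 := if_pos hxR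
      omega
    · rw [hθ' x hxR]
      exact (H (cp x)).le x hxR rfl
  have c0 : ∀ D ∈ {D | Good i R B D}, (∀ t ∈ Tw, t.1 ∈ D ∨ t.2 ∈ D) → ∀ n,
      (1 + X : ℤ[X]) ^ (∑ k, b k) ∣ ZB i D 0 0 n := by
    intro D hD hbr n
    rw [ZB_off hD.1 hD.2.2.1]
    refine dvd_Z_of_dvd_W ?_ n
    refine dvd_W_prod (fun x : {x : P // x ∉ D} => cp (x : P)) ?_ i b fun k => ?_
    · intro x y hxy
      exact hcp x y hxy fun h => x.2 (hD.2.1 h)
    · exact (H k).clean D hD hbr inferInstance
  have c1 : ∀ D ∈ {D | Good i R B D}, ∀ x, x ∉ D → 1 ≤ θ' x →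
      D ∪ dnf x ∈ {D | Good i R B D} := by
    intro D hD x hx hθx
    have hxR := hθ0 x hθx
    rw [hθ' x hxR] at hθx
    have hlx := (H (cp x)).lev x hxR rfl hθx
    refine ⟨?_, hD.2.1.trans subset_union_left, ?_, ?_⟩
    · intro a c hac hc
      rw [mem_union, mem_dnf] at hc ⊢
      rcases hc with hc | hc
      · exact Or.inl (hD.1 a c hac hc)
      · exact Or.inr (hac.trans hc)
    · intro a ha
      rw [mem_union, mem_dnf] at ha
      rcases ha with ha | ha
      · exact hD.2.2.1 a ha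
      · rcases eq_or_lt_of_le ha with h | h
        · rw [h]; exact hlx
        · have := lev_strictAnti h; omega
    · intro a ha
      rw [mem_union, mem_dnf] at ha
      rcases ha with ha | ha
      · exact hD.2.2.2 a ha
      · by_cases haR : a ∈ R
        · exact hBR a haR
        · exact (H (cp x)).base x hxR rfl hθx a ha haR
  have c2 : ∀ D ∈ {D | Good i R B D}, ∀ x, x ∉ D → 1 ≤ θ' x → ∀ y ≤ x, y ∉ D → ∀ x', y ⋖ x' →
      ¬ x' ≤ x → θ' x ≤ θ' x' + 1 := by
    intro D hD x hx hθx y hyx hyD x' hyx' hx'x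
    have hxR := hθ0 x hθx
    have hyR : y ∉ R := fun h => hyD (hD.2.1 h)
    have hx'R : x' ∉ R := fun h => hyR (hR y x' hyx'.1.le h)
    rw [hθ' x hxR] at hθx ⊢
    rw [hθ' x' hx'R]
    exact (H (cp x)).step x hxR rfl hθx y hyx hyR x' hx'R hyx' hx'x
  have hT : ∀ t ∈ Tw, Twn i θ' t := by
    intro t ht
    have h1 := htR t ht
    have h2 := htw t ht
    refine ⟨h2.ne, h2.up, ?_, ?_, ?_, ?_⟩
    · rw [hθ' _ h1.1]; exact h2.one_le
    · rw [hθ' _ h1.1, hθ' _ h1.2]; exact h2.eq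
    · rw [hθ' _ h1.1]; exact h2.lt
    · intro y hy
      rw [hθ' _ h1.1, hθ' y (fun h => h1.1 (hR _ _ hy.le h))]
      exact h2.mono y hy
  have htz : ∀ t ∈ Tw, tez i θ' t = tez i θ t := fun t ht => tcst_congr (hθ' _ (htR t ht).1)
  have hcost' : ∀ t ∈ Tw, n0 ≤ tcst i θ' t := by
    intro t ht
    unfold tcst
    rw [htz t ht]
    exact hcost t ht
  have hmin' : ∀ t ∈ Tw, ∀ D ∈ {D | Good i R B D}, ∀ y < t.2, y ∈ D :=
    fun t ht D hD y hy => hD.2.1 (hmin t ht y hy)
  have hlt := dvd_ZB_bounds_twins i _ n0 {D | Good i R B D} θ' Tw hlow hlev hθ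
    (fun D hD hb n _ => c0 D hD hb n) c1 c2 (fun t ht => (hT t ht).pair (hcost' t ht)) hmin'
  have hex := dvd_ZB_exact i _ n0 {D | Good i R B D} θ' Tw hlow hlev hθ hle c0 c1 c2 hT hanti
    hcost' hmin' R hRR 0 (fun _ _ => Nat.zero_le _)
  refine ⟨hgr, hRlev, ?_, ?_, ?_, ?_⟩
  · intro g hg0 hg hpos
    refine dvd_ZB_shift_pos 0 hR hRlev hg0 _ n0 (fun n hn => ?_) hpos
    refine hlt R hRR _ ?_ n hn
    intro x hx
    refine bg_le (Nat.zero_le _) fun y hy hyx => ?_
    rw [hθ' x hx]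
    have h1 : y ∈ bdR R := mem_filter.mpr ⟨hy, x, hx, hyx⟩
    have h2 := hg y h1
    have h3 := hcan_le (θ := θ) hx hyx
    omega
  · have h1 : tsum i θ' n0 Tw R 0 = ∑ t ∈ Tw.filter (fun t => tcst i θ t = n0), Tm i θ t := by
      unfold tsum
      have h2 : tws i θ' n0 Tw R 0 = Tw.filter (fun t => tcst i θ t = n0) := by
        ext t
        rw [mem_tws, mem_filter]
        constructor
        · rintro ⟨h2, -, h3, -⟩
          refine ⟨h2, ?_⟩
          unfold tcst at h3 ⊢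
          rw [← htz t h2]
          exact h3
        · rintro ⟨h2, h3⟩
          refine ⟨h2, htR t h2, ?_, fun _ _ => Nat.zero_le _⟩
          unfold tcst at h3 ⊢
          rw [htz t h2]
          exact h3
      rw [h2]
      refine Finset.sum_congr rfl fun t ht => ?_
      unfold Tm
      rw [htz t (mem_filter.mp ht).1]
    rw [h1] at hex
    exact hex
  · intro z hz
    obtain ⟨x, -, -, hx⟩ := hcan_spec (θ := θ) hz
    omega
  · intro z hz
    obtain ⟨x, hxR, hzx, hx⟩ := hcan_spec (θ := θ) hz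
    have h1 := hgr.lev_covBy hzx
    have h2 := (H (cp x)).le x hxR rfl
    have h3 := hRlev z (mem_filter.mp hz).1
    omega

section Assembly

variable {i : ℕ} {N : Tops P → Finset P} {b : Tops P → ℕ} {θ : Tops P → P → ℕ}
  {B : Tops P → P → Prop} {Y : Finset P} {τ : P → P}

/-- assembly: natural sets of all tops and twins of natural elements, exact form -/
theorem farX_of_tops (hgr : GradedBelow P) (H : ∀ t, NatTop i t (b t) (N t) (θ t) (B t))
    (T : TwSys (unnat N) Y topOf τ) (n0 : ℕ)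
    (htw : ∀ x ∈ Y, Twn i (thX Y τ (fun x => θ (topOf x) x)) (τ x, x))
    (hcost : ∀ x ∈ Y, n0 ≤ tcst i (thX Y τ (fun x => θ (topOf x) x)) (τ x, x)) :
    FarX P i (unnat N \ Y) (∑ t, b t)
      (hcan (unnat N \ Y) (thX Y τ (fun x => θ (topOf x) x)))
      (thX Y τ (fun x => θ (topOf x) x)) (pairsX Y τ) n0 := by
  have HN := natSys_of_tops H
  have hRlev : ∀ x ∈ unnat N, i < lev x := by
    intro x hx
    by_contra hcon
    exact low_natural H (not_lt.mp hcon) hx
  refine farX_of_compT hgr (T.lower HN.lower) (fun x hx => hRlev x (mem_sdiff.mp hx).1) topOf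
    (T.cp' HN.cp) b _ (fun x => x ∉ unnat N ∧ B (topOf x) x)
    (fun x hx h => h.1 (mem_sdiff.mp hx).1) (pairsX Y τ) n0 ?_ ?_ ?_ ?_ ?_ ?_
  · intro t
    refine CompData.toTwins ((H t).data N HN rfl _ _ ?_ ?_) T HN.lower hRlev (fun x hx h => h.1 hx)
    · intro x hx
      simp only [HN.topOf_eq hx]
    · intro x hx
      simp only [HN.topOf_eq hx, (HN.mem_iff.mp hx).1, not_false_eq_true, true_and]
  · intro t ht
    rw [mem_pairsX] at ht
    have h1 := htw t.2 ht.1
    rw [← ht.2] at h1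
    exact h1
  · intro x x' h1 h2
    rw [mem_pairsX] at h1 h2
    simp only at h1 h2
    exact T.nat x' h1.1 (h1.2 ▸ T.sub h2.1)
  · intro t ht
    rw [mem_pairsX] at ht
    have h1 := hcost t.2 ht.1
    rw [← ht.2] at h1
    exact h1
  · intro t ht y hy
    rw [mem_pairsX] at ht
    rw [mem_sdiff]
    exact ⟨HN.lower y _ hy.le (T.sub ht.1), fun h => T.anti _ ht.1 y h hy⟩
  · intro t ht
    rw [mem_pairsX] at ht
    rw [mem_sdiff, mem_sdiff, ht.2]
    exact ⟨fun h => T.nat _ ht.1 h.1, fun h => h.2 ht.1⟩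

end Assembly

end Pool.Agent.GaussPoset

end

/-! From `Pool.Agent.W_448cl_h67.ClO` -/

section

/-!
The strip La6.
-/

namespace Pool.Agent.GaussPoset.Cl

open Wd

/-- the word -/
def wa6 : List Ltr := [OC, CO, CO, OO, CO, OO, OC]

/-- the covers -/
def La6cv : List ℕ := [0, 1, 2, 4, 8, 16, 32, 32, 64, 192, 768, 512, 3072, 2048, 4096, 12288, 8192, 49152, 98304, 65536, 131072, 393216, 786432, 524288, 1048576, 3145728, 6291456, 12582912]

/-- the levels -/
def La6lv : List ℕ := [0, 1, 2, 3, 4, 5, 6, 6, 7, 7, 8, 8, 9, 9, 10, 10, 10, 11, 11, 11, 12, 12, 12, 12, 13, 13, 13, 13]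

/-- the coordinates -/
def La6sl : List ℕ := [0, 0, 0, 0, 0, 0, 0, 1, 0, 1, 1, 2, 2, 3, 2, 3, 4, 3, 4, 5, 3, 4, 5, 6, 3, 4, 5, 6]

/-- the numbers of cells -/
def La6nn : List ℕ := [1, 2, 3, 4, 5, 6, 8, 10, 12, 14, 17, 20, 24, 28]

theorem La6_strip : StripOK 28 13 (losW 6 wa6) (hisW 6 wa6) (fun a => La6lv.getD a 0)
    (fun a => La6sl.getD a 0) (fun a => La6cv.getD a 0) (fun a => La6nn.getD a 0) :=
  stripOK_of_chk (by decide +kernel)

section

universe u

variable {P : Type u} [Fintype P] [PartialOrder P] [DecidableEq P]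
variable {r j : ℕ} {t : Tops P} {lo hi : ℕ → ℕ} {e : ℕ → ℕ → P}

end

end Pool.Agent.GaussPoset.Cl

end

/-! From `Pool.Agent.W_448f4_h70.GC` -/

section

/-!
The far window theorem with twins with prescribed sums (MP_448cb3_co, S7, windows 2, 3).
-/

namespace Pool.Agent.GaussPoset

set_option linter.unusedSectionVars false

open Polynomial Finset

universe u

variable {P : Type u} [Fintype P] [PartialOrder P] [DecidableEq P]
variable {ι : Type*}

/-- far data at the energy `n0`, with the contribution `S` of the twins -/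
structure FarV (P : Type u) [Fintype P] [PartialOrder P] [DecidableEq P] (i : ℕ)
    (R : Finset P) (b : ℕ) (h : P → ℕ) (S : ℤ[X]) (n0 : ℕ) : Prop where
  graded : GradedBelow P
  hlev : ∀ x ∈ R, i < lev x
  clean : ∀ g : P → ℕ, (∀ x, x ∉ R → g x = 0) → (∀ z ∈ bdR R, g z < h z) → g ≠ 0 →
    (1 + X : ℤ[X]) ^ b ∣ ZB i R g 0 n0
  zero : (1 + X : ℤ[X]) ^ b ∣ ZB i R 0 0 n0 - S
  one_le : ∀ z ∈ bdR R, 1 ≤ h z
  le_lev : ∀ z ∈ bdR R, h z ≤ lev z - i

open Classical in
/-- far data with twins from component data, with prescribed sums -/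
theorem farV_of_compT [Fintype ι] [DecidableEq ι] {i : ℕ} {R : Finset P}
    (hgr : GradedBelow P) (hR : ∀ x y, x ≤ y → y ∈ R → x ∈ R) (hRlev : ∀ x ∈ R, i < lev x)
    (cp : P → ι) (hcp : ∀ x y, x ≤ y → x ∉ R → cp x = cp y) (b : ι → ℕ) (θ : P → ℕ)
    (B : P → Prop) (hBR : ∀ x ∈ R, ¬ B x) (Tw : Finset (P × P)) (n0 : ℕ)
    (H : ∀ k, CompDataT R cp k i (b k) θ B Tw)
    (ld : P × P → Prop) (V : P × P → ℤ[X])
    (htw : ∀ t ∈ Tw, Twn i θ t) (hanti : ∀ x x', (x, x') ∈ Tw → (x', x) ∉ Tw)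
    (hHT : ∀ t ∈ Tw, ∀ D, Good i R B D → t.1 ∉ D → t.2 ∉ D → ∀ n < n0,
      (1 + X : ℤ[X]) ^ (∑ k, b k) ∣ ZB i D 0 (st2 t.1 t.2 (θ t.1) (θ t.1 + 1)) n)
    (hV : ∀ t ∈ Tw, ∀ D, Good i R B D → t.1 ∉ D → t.2 ∉ D → (1 + X : ℤ[X]) ^ (∑ k, b k) ∣
      ZB i D 0 (st2 t.1 t.2 (θ t.1) (θ t.1 + 1)) n0 - (if ld t then V t else 0)) (hmin : ∀ t ∈ Tw, ∀ y < t.2, y ∈ R)
    (htR : ∀ t ∈ Tw, t.1 ∉ R ∧ t.2 ∉ R) : 
    FarV P i R (∑ k, b k) (hcan R θ) (∑ t ∈ Tw.filter ld, V t) n0 := by
  classical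
  let θ' : P → ℕ := fun x => if x ∈ R then 0 else θ x
  have hθ' : ∀ x, x ∉ R → θ' x = θ x := fun x hx => if_neg hx
  have hθ0 : ∀ x, 1 ≤ θ' x → x ∉ R := by
    intro x hx hxR
    have : θ' x = 0 := if_pos hxR
    omega
  have hlow : ∀ D ∈ {D | Good i R B D}, ∀ x y, x ≤ y → y ∈ D → x ∈ D := fun D hD => hD.1
  have hlev : ∀ D ∈ {D | Good i R B D}, ∀ x ∈ D, i < lev x := fun D hD => hD.2.2.1
  have hRR : R ∈ {D | Good i R B D} := ⟨hR, Subset.refl R, hRlev, hBR⟩
  have hθ : ∀ x, 1 ≤ θ' x → i < lev x := by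
    intro x hx
    have hxR := hθ0 x hx
    rw [hθ' x hxR] at hx
    exact (H (cp x)).lev x hxR rfl hx
  have hle : ∀ x, θ' x ≤ lev x - i := by
    intro x
    by_cases hxR : x ∈ R
    · have : θ' x = 0 := if_pos hxR
      omega
    · rw [hθ' x hxR]
      exact (H (cp x)).le x hxR rfl
  have c0 : ∀ D ∈ {D | Good i R B D}, (∀ t ∈ Tw, t.1 ∈ D ∨ t.2 ∈ D) → ∀ n,
      (1 + X : ℤ[X]) ^ (∑ k, b k) ∣ ZB i D 0 0 n := by
    intro D hD hbr n
    rw [ZB_off hD.1 hD.2.2.1]
    refine dvd_Z_of_dvd_W ?_ n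
    refine dvd_W_prod (fun x : {x : P // x ∉ D} => cp (x : P)) ?_ i b fun k => ?_
    · intro x y hxy
      exact hcp x y hxy fun h => x.2 (hD.2.1 h)
    · exact (H k).clean D hD hbr inferInstance
  have c1 : ∀ D ∈ {D | Good i R B D}, ∀ x, x ∉ D → 1 ≤ θ' x →
      D ∪ dnf x ∈ {D | Good i R B D} := by
    intro D hD x hx hθx
    have hxR := hθ0 x hθx
    rw [hθ' x hxR] at hθx
    have hlx := (H (cp x)).lev x hxR rfl hθx
    refine ⟨?_, hD.2.1.trans subset_union_left, ?_, ?_⟩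
    · intro a c hac hc
      rw [mem_union, mem_dnf] at hc ⊢
      rcases hc with hc | hc
      · exact Or.inl (hD.1 a c hac hc)
      · exact Or.inr (hac.trans hc)
    · intro a ha
      rw [mem_union, mem_dnf] at ha
      rcases ha with ha | ha
      · exact hD.2.2.1 a ha
      · rcases eq_or_lt_of_le ha with h | h
        · rw [h]; exact hlx
        · have := lev_strictAnti h; omega
    · intro a ha
      rw [mem_union, mem_dnf] at ha
      rcases ha with ha | ha
      · exact hD.2.2.2 a ha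
      · by_cases haR : a ∈ R
        · exact hBR a haR
        · exact (H (cp x)).base x hxR rfl hθx a ha haR
  have c2 : ∀ D ∈ {D | Good i R B D}, ∀ x, x ∉ D → 1 ≤ θ' x → ∀ y ≤ x, y ∉ D → ∀ x', y ⋖ x' →
      ¬ x' ≤ x → θ' x ≤ θ' x' + 1 := by
    intro D hD x hx hθx y hyx hyD x' hyx' hx'x
    have hxR := hθ0 x hθx
    have hyR : y ∉ R := fun h => hyD (hD.2.1 h)
    have hx'R : x' ∉ R := fun h => hyR (hR y x' hyx'.1.le h)
    rw [hθ' x hxR] at hθx ⊢
    rw [hθ' x' hx'R]
    exact (H (cp x)).step x hxR rfl hθx y hyx hyR x' hx'R hyx' hx'x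
  have hT : ∀ t ∈ Tw, Twn i θ' t := by
    intro t ht
    have h1 := htR t ht
    have h2 := htw t ht
    refine ⟨h2.ne, h2.up, ?_, ?_, ?_, ?_⟩
    · rw [hθ' _ h1.1]; exact h2.one_le
    · rw [hθ' _ h1.1, hθ' _ h1.2]; exact h2.eq
    · rw [hθ' _ h1.1]; exact h2.lt
    · intro y hy
      rw [hθ' _ h1.1, hθ' y (fun h => h1.1 (hR _ _ hy.le h))]
      exact h2.mono y hy
  have hst : ∀ t ∈ Tw, st2 t.1 t.2 (θ' t.1) (θ' t.1 + 1) = st2 t.1 t.2 (θ t.1) (θ t.1 + 1) := by
    intro t ht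
    rw [hθ' _ (htR t ht).1]
  have hHT' : ∀ t ∈ Tw, ∀ D ∈ {D | Good i R B D}, t.1 ∉ D → t.2 ∉ D → ∀ n < n0,
      (1 + X : ℤ[X]) ^ (∑ k, b k) ∣ ZB i D 0 (st2 t.1 t.2 (θ' t.1) (θ' t.1 + 1)) n := by
    intro t ht D hD h1 h2 n hn
    rw [hst t ht]
    exact hHT t ht D hD h1 h2 n hn
  have hV' : ∀ t ∈ Tw, ∀ D ∈ {D | Good i R B D}, t.1 ∉ D → t.2 ∉ D →
      (1 + X : ℤ[X]) ^ (∑ k, b k) ∣
      ZB i D 0 (st2 t.1 t.2 (θ' t.1) (θ' t.1 + 1)) n0 - (if ld t then V t else 0) := by
    intro t ht D hD h1 h2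
    rw [hst t ht]
    exact hV t ht D hD h1 h2
  have hmin' : ∀ t ∈ Tw, ∀ D ∈ {D | Good i R B D}, ∀ y < t.2, y ∈ D :=
    fun t ht D hD y hy => hD.2.1 (hmin t ht y hy)
  have hlt := dvd_ZB_bounds_twinsH i _ n0 {D | Good i R B D} θ' Tw hlow hlev hθ
    (fun D hD hb n _ => c0 D hD hb n) c1 c2 (fun t ht => (hT t ht).toP) hHT' hmin'
  have hex := dvd_ZB_exactH i _ n0 ld V {D | Good i R B D} θ' Tw hlow hlev hθ hle c0 c1 c2 hT hanti
    hHT' hV' hmin' R hRR 0 (fun _ _ => Nat.zero_le _)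
  refine ⟨hgr, hRlev, ?_, ?_, ?_, ?_⟩
  · intro g hg0 hg hpos
    refine dvd_ZB_shift_pos 0 hR hRlev hg0 _ n0 (fun n hn => ?_) hpos
    refine hlt R hRR _ ?_ n hn
    intro x hx
    refine bg_le (Nat.zero_le _) fun y hy hyx => ?_
    rw [hθ' x hx]
    have h1 : y ∈ bdR R := mem_filter.mpr ⟨hy, x, hx, hyx⟩
    have h2 := hg y h1
    have h3 := hcan_le (θ := θ) hx hyx
    omega
  · have h1 : tsumV i θ' ld V Tw R 0 = ∑ t ∈ Tw.filter ld, V t := by
      unfold tsumV
      refine Finset.sum_congr ?_ (fun _ _ => rfl)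
      ext t
      rw [mem_twsV, mem_filter]
      exact ⟨fun h => ⟨h.1, h.2.2.1⟩, fun h => ⟨h.1, htR t h.1, h.2, fun _ _ => Nat.zero_le _⟩⟩
    rw [h1] at hex
    exact hex
  · intro z hz
    obtain ⟨x, -, -, hx⟩ := hcan_spec (θ := θ) hz
    omega
  · intro z hz
    obtain ⟨x, hxR, hzx, hx⟩ := hcan_spec (θ := θ) hz
    have h1 := hgr.lev_covBy hzx
    have h2 := (H (cp x)).le x hxR rfl
    have h3 := hRlev z (mem_filter.mp hz).1
    omega

section AssemblyV

variable {i : ℕ} {N : Tops P → Finset P} {b : Tops P → ℕ} {θ : Tops P → P → ℕ}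
  {B : Tops P → P → Prop} {Y : Finset P} {τ : P → P}

open Classical in
/-- assembly: natural sets of all tops and twins of natural elements, with prescribed sums -/
theorem farV_of_tops (hgr : GradedBelow P) (H : ∀ t, NatTop i t (b t) (N t) (θ t) (B t))
    (T : TwSys (unnat N) Y topOf τ) (n0 : ℕ)
    (htw : ∀ x ∈ Y, Twn i (thX Y τ (fun x => θ (topOf x) x)) (τ x, x))
    (ld : P → Prop) (V : P → ℤ[X])
    (hHT : ∀ x ∈ Y, ∀ D, Good i (unnat N \ Y) (fun x => x ∉ unnat N ∧ B (topOf x) x) D →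
      τ x ∉ D → x ∉ D → ∀ n < n0, (1 + X : ℤ[X]) ^ (∑ t, b t) ∣ ZB i D 0
        (st2 (τ x) x (thX Y τ (fun x => θ (topOf x) x) (τ x))
          (thX Y τ (fun x => θ (topOf x) x) (τ x) + 1)) n)
    (hV : ∀ x ∈ Y, ∀ D, Good i (unnat N \ Y) (fun x => x ∉ unnat N ∧ B (topOf x) x) D →
      τ x ∉ D → x ∉ D → (1 + X : ℤ[X]) ^ (∑ t, b t) ∣ ZB i D 0
        (st2 (τ x) x (thX Y τ (fun x => θ (topOf x) x) (τ x))
          (thX Y τ (fun x => θ (topOf x) x) (τ x) + 1)) n0 - (if ld x then V x else 0)) :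
    FarV P i (unnat N \ Y) (∑ t, b t)
      (hcan (unnat N \ Y) (thX Y τ (fun x => θ (topOf x) x)))
      (∑ x ∈ Y.filter ld, V x) n0 := by
  have HN := natSys_of_tops H
  have hRlev : ∀ x ∈ unnat N, i < lev x := by
    intro x hx
    by_contra hcon
    exact low_natural H (not_lt.mp hcon) hx
  have hsum : ∑ t ∈ (pairsX Y τ).filter (fun t => ld t.2), V t.2 = ∑ x ∈ Y.filter ld, V x := by
    have h1 : (pairsX Y τ).filter (fun t => ld t.2) = (Y.filter ld).image (fun x => (τ x, x)) := by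
      unfold pairsX
      rw [Finset.filter_image]
    rw [h1, Finset.sum_image (by
      intro x _ y _ h
      exact (Prod.mk.inj h).2)]
  have key := farV_of_compT hgr (T.lower HN.lower) (fun x hx => hRlev x (mem_sdiff.mp hx).1) topOf
    (T.cp' HN.cp) b (thX Y τ (fun x => θ (topOf x) x)) (fun x => x ∉ unnat N ∧ B (topOf x) x)
    (fun x hx h => h.1 (mem_sdiff.mp hx).1) (pairsX Y τ) n0 ?_ (fun t => ld t.2) (fun t => V t.2)
    ?_ ?_ ?_ ?_ ?_ ?_
  · rw [hsum] at key
    exact key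
  · intro t
    refine CompData.toTwins ((H t).data N HN rfl _ _ ?_ ?_) T HN.lower hRlev (fun x hx h => h.1 hx)
    · intro x hx
      simp only [HN.topOf_eq hx]
    · intro x hx
      simp only [HN.topOf_eq hx, (HN.mem_iff.mp hx).1, not_false_eq_true, true_and]
  · intro t ht
    rw [mem_pairsX] at ht
    have h1 := htw t.2 ht.1
    rw [← ht.2] at h1
    exact h1
  · intro x x' h1 h2
    rw [mem_pairsX] at h1 h2
    simp only at h1 h2
    exact T.nat x' h1.1 (h1.2 ▸ T.sub h2.1)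
  · intro t ht D hD h1 h2 n hn
    rw [mem_pairsX] at ht
    have h3 := hHT t.2 ht.1 D hD (by rw [← ht.2]; exact h1) h2 n hn
    rw [← ht.2] at h3
    exact h3
  · intro t ht D hD h1 h2
    rw [mem_pairsX] at ht
    have h3 := hV t.2 ht.1 D hD (by rw [← ht.2]; exact h1) h2
    rw [← ht.2] at h3
    exact h3
  · intro t ht y hy
    rw [mem_pairsX] at ht
    rw [mem_sdiff]
    exact ⟨HN.lower y _ hy.le (T.sub ht.1), fun h => T.anti _ ht.1 y h hy⟩
  · intro t ht
    rw [mem_pairsX] at ht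
    rw [mem_sdiff, mem_sdiff, ht.2]
    exact ⟨fun h => T.nat _ ht.1 h.1, fun h => h.2 ht.1⟩

end AssemblyV

end Pool.Agent.GaussPoset

end
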