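import Mathlib
import Pool.Agent.W_448zz_h61.Ns

/-! From `Pool.Agent.W_448s7_h27.Chk` -/

section

/-!
# A checker for balance systems

A cross line has a slope `κ` and a constant `g`; its relative cost at the window `w` is
`κ (j - w) + g`, its sign `(-1)^κ`.  `Sys`: at every window `w ≤ W` the cheapest cost `v w` is at
most `cap w`, and the cheapest class contains both signs (up to noise).  `check` raises lower bounds
for `v` as long as it can.
-/

namespace Pool.Agent.GaussPoset.Chk

/-- the lines `X` are allowed, and they balance at the windows `0, …, W` -/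
structure Sys (j : ℤ) (W : ℕ) (cap : ℕ → ℤ) (a : ℤ → ℤ → Bool) (nO nE : ℕ → ℤ → Bool)
    (ks : List ℤ) (v : ℕ → ℤ) (X : ℤ → ℤ → Prop) : Prop where
  al : ∀ κ g, X κ g → a κ g = true
  kin : ∀ κ g, X κ g → ∀ w ≤ W, κ * (j - w) + g = v w → κ ∈ ks
  mn : ∀ κ g, X κ g → ∀ w ≤ W, v w ≤ κ * (j - w) + g
  cp : ∀ w ≤ W, v w ≤ cap w
  od : ∀ w ≤ W, (∃ κ g, X κ g ∧ Odd κ ∧ κ * (j - w) + g = v w) ∨ nO w (v w) = true
  ev : ∀ w ≤ W, (∃ κ g, X κ g ∧ Even κ ∧ κ * (j - w) + g = v w) ∨ nE w (v w) = true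

/-- the line `(κ, g)` is not below the bounds `u` -/
def above (κ g : ℤ) : List ℤ → ℤ → Bool
  | [], _ => true
  | u :: us, y => decide (u ≤ κ * y + g) && above κ g us (y - 1)

/-- can the class of cost `x` at the window with `y = j - w` contain both signs? -/
def both (a : ℤ → ℤ → Bool) (o e : Bool) (ko ke : List ℤ) (j y x : ℤ) (u : List ℤ) : Bool :=
  (o || ko.any fun κ => a κ (x - κ * y) && above κ (x - κ * y) u j) &&
    (e || ke.any fun κ => a κ (x - κ * y) && above κ (x - κ * y) u j)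

/-- raise the bound of the window `w` -/
def raise (a : ℤ → ℤ → Bool) (nO nE : ℕ → ℤ → Bool) (cap : ℕ → ℤ) (ko ke : List ℤ) (j : ℤ)
    (w : ℕ) : ℕ → List ℤ → List ℤ
  | 0, u => u
  | n + 1, u =>
    if decide (cap w < u.getD w 0) ||
        both a (nO w (u.getD w 0)) (nE w (u.getD w 0)) ko ke j (j - w) (u.getD w 0) u then u
    else raise a nO nE cap ko ke j w n (u.set w (u.getD w 0 + 1))

/-- raise the bounds of the windows `< W` one after the other -/
def sweep (a : ℤ → ℤ → Bool) (nO nE : ℕ → ℤ → Bool) (cap : ℕ → ℤ) (ko ke : List ℤ) (j : ℤ)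
    (N : ℕ) : ℕ → List ℤ → List ℤ
  | 0, u => u
  | W + 1, u => raise a nO nE cap ko ke j W N (sweep a nO nE cap ko ke j N W u)

/-- is one of the bounds above the cap? -/
def above_cap (cap : ℕ → ℤ) : ℕ → List ℤ → Bool
  | _, [] => false
  | w, u :: us => decide (cap w < u) || above_cap cap (w + 1) us

/-- several sweeps -/
def rounds (a : ℤ → ℤ → Bool) (nO nE : ℕ → ℤ → Bool) (cap : ℕ → ℤ) (ko ke : List ℤ) (j : ℤ)
    (N W : ℕ) : ℕ → List ℤ → List ℤ
  | 0, u => u
  | r + 1, u =>
    if above_cap cap 0 u then u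
    else rounds a nO nE cap ko ke j N W r (sweep a nO nE cap ko ke j N W u)

/-- the bounds `u` are lower bounds of `v` -/
def Below (W : ℕ) (v : ℕ → ℤ) (u : List ℤ) : Prop := u.length = W + 1 ∧ ∀ w ≤ W, u.getD w 0 ≤ v w

lemma above_of {W : ℕ} {v : ℕ → ℤ} {κ g : ℤ} :
    ∀ (u : List ℤ) (y : ℤ), (∀ w < u.length, u.getD w 0 ≤ κ * (y - w) + g) →
      above κ g u y = true := by
  intro u
  induction u with
  | nil => intro y _; rfl
  | cons a us ih =>
    intro y h
    simp only [above, Bool.and_eq_true, decide_eq_true_eq]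
    refine ⟨?_, ih _ fun w hw => ?_⟩
    · have := h 0 (by simp)
      simpa using this
    · have := h (w + 1) (by simpa using hw)
      simp only [List.getD_cons_succ] at this
      push_cast at this
      have e : y - 1 - (w : ℤ) = y - ((w : ℤ) + 1) := by ring
      rw [e]
      exact this

section
variable {j : ℤ} {W : ℕ} {cap : ℕ → ℤ} {a : ℤ → ℤ → Bool} {nO nE : ℕ → ℤ → Bool} {ks ko ke : List ℤ}
  {v : ℕ → ℤ} {X : ℤ → ℤ → Prop}

lemma Sys.alive (hS : Sys j W cap a nO nE ks v X) {u : List ℤ} (hu : Below W v u) {κ g x : ℤ}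
    (hx : X κ g) {w : ℕ} (he : κ * (j - w) + g = x) :
    (a κ (x - κ * (j - w)) && above κ (x - κ * (j - w)) u j) = true := by
  have hg : x - κ * (j - w) = g := by rw [← he]; ring
  rw [hg, Bool.and_eq_true]
  refine ⟨hS.al _ _ hx, above_of (W := W) (v := v) u j fun w hw => ?_⟩
  have hw' : w ≤ W := by
    have := hu.1
    omega
  exact (hu.2 w hw').trans (hS.mn _ _ hx w hw')

lemma Sys.both (hS : Sys j W cap a nO nE ks v X) (hko : ∀ κ ∈ ks, Odd κ → κ ∈ ko)
    (hke : ∀ κ ∈ ks, Even κ → κ ∈ ke) {u : List ℤ} (hu : Below W v u) {w : ℕ}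
    (hw : w ≤ W) : both a (nO w (v w)) (nE w (v w)) ko ke j (j - w) (v w) u = true := by
  unfold Chk.both
  rw [Bool.and_eq_true, Bool.or_eq_true, Bool.or_eq_true]
  constructor
  · rcases hS.od w hw with ⟨κ, g, hx, ho, he⟩ | h
    · exact Or.inr (List.any_eq_true.mpr ⟨κ, hko κ (hS.kin κ g hx w hw he) ho, hS.alive hu hx he⟩)
    · exact Or.inl h
  · rcases hS.ev w hw with ⟨κ, g, hx, ho, he⟩ | h
    · exact Or.inr (List.any_eq_true.mpr ⟨κ, hke κ (hS.kin κ g hx w hw he) ho, hS.alive hu hx he⟩)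
    · exact Or.inl h

lemma Below.set {u : List ℤ} (hu : Below W v u) {w : ℕ} (hw : w ≤ W) {x : ℤ} (hx : x ≤ v w) :
    Below W v (u.set w x) := by
  refine ⟨by simpa using hu.1, fun w' hw' => ?_⟩
  rw [List.getD_eq_getElem?_getD, List.getElem?_set]
  have hl := hu.1
  split_ifs with h1 h2
  · subst h1
    simpa using hx
  · subst h1
    omega
  · rw [← List.getD_eq_getElem?_getD]
    exact hu.2 w' hw'

lemma Sys.raise (hS : Sys j W cap a nO nE ks v X) (hko : ∀ κ ∈ ks, Odd κ → κ ∈ ko)
    (hke : ∀ κ ∈ ks, Even κ → κ ∈ ke) {w : ℕ} (hw : w ≤ W) :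
    ∀ (n : ℕ) (u : List ℤ), Below W v u → Below W v (raise a nO nE cap ko ke j w n u) := by
  intro n
  induction n with
  | zero => intro u hu; exact hu
  | succ n ih =>
    intro u hu
    unfold Chk.raise
    split_ifs with h
    · exact hu
    · refine ih _ (hu.set hw ?_)
      have h1 := hu.2 w hw
      rcases h1.lt_or_eq with h2 | h2
      · omega
      · exfalso
        apply h
        rw [Bool.or_eq_true]
        right
        have h3 := hS.both hko hke hu hw
        rw [← h2] at h3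
        exact h3

lemma Sys.sweep (hS : Sys j W cap a nO nE ks v X) (hko : ∀ κ ∈ ks, Odd κ → κ ∈ ko)
    (hke : ∀ κ ∈ ks, Even κ → κ ∈ ke) (N : ℕ) :
    ∀ (W' : ℕ), W' ≤ W + 1 → ∀ (u : List ℤ), Below W v u →
      Below W v (sweep a nO nE cap ko ke j N W' u) := by
  intro W'
  induction W' with
  | zero => intro _ u hu; exact hu
  | succ n ih =>
    intro hn u hu
    exact hS.raise hko hke (by omega) N _ (ih (by omega) u hu)

lemma Sys.rounds (hS : Sys j W cap a nO nE ks v X) (hko : ∀ κ ∈ ks, Odd κ → κ ∈ ko)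
    (hke : ∀ κ ∈ ks, Even κ → κ ∈ ke) (N : ℕ) :
    ∀ (r : ℕ) (u : List ℤ), Below W v u → Below W v (rounds a nO nE cap ko ke j N (W + 1) r u) := by
  intro r
  induction r with
  | zero => intro u hu; exact hu
  | succ n ih =>
    intro u hu
    unfold Chk.rounds
    split_ifs with h
    · exact hu
    · exact ih _ (hS.sweep hko hke N (W + 1) le_rfl u hu)

lemma over_of : ∀ (u : List ℤ) (w : ℕ), above_cap cap w u = true →
    ∃ i < u.length, cap (w + i) < u.getD i 0 := by
  intro u
  induction u with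
  | nil => intro w h; simp [above_cap] at h
  | cons x us ih =>
    intro w h
    simp only [above_cap, Bool.or_eq_true, decide_eq_true_eq] at h
    rcases h with h | h
    · exact ⟨0, by simp, by simpa using h⟩
    · obtain ⟨i, hi, h2⟩ := ih _ h
      refine ⟨i + 1, by simpa using hi, ?_⟩
      simp only [List.getD_cons_succ]
      have e : w + (i + 1) = w + 1 + i := by ring
      rw [e]
      exact h2

theorem Sys.false (hS : Sys j W cap a nO nE ks v X) (hko : ∀ κ ∈ ks, Odd κ → κ ∈ ko)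
    (hke : ∀ κ ∈ ks, Even κ → κ ∈ ke) (N r : ℕ) {u : List ℤ} (hu : Below W v u)
    (hr : above_cap cap 0 (Chk.rounds a nO nE cap ko ke j N (W + 1) r u) = true) : False := by
  obtain ⟨i, hi, h⟩ := over_of _ _ hr
  have h1 := hS.rounds hko hke N r u hu
  have h2 : i ≤ W := by
    have := h1.1
    omega
  have h3 := h1.2 i h2
  have h4 := hS.cp i h2
  simp only [zero_add] at h
  omega

end

end Pool.Agent.GaussPoset.Chk

end

/-! From `Pool.Agent.W_448s7_h27.BalK` (part 1) -/

section

/-!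
# The balance lemma: the checks for `17 ≤ j ≤ 30`
-/

namespace Pool.Agent.GaussPoset.Bal

open Chk

/-- the allowed lines for `17 ≤ j ≤ 30` -/
def ok (j κ g : ℤ) : Bool :=
  (decide (-(2 * j + 9) ≤ g) || (κ == 10 && (g == -45 || g == -50))) &&
    decide (4 * g ≤ κ * κ + 4 * κ - (if κ % 2 = 0 then 0 else 9)) &&
    (κ != 6 || decide (g ≤ 10) || g == 15)

/-- noise of sign `+` as a list -/
def evL : List (ℤ × ℤ) :=
  [(0, 0), (1, 1), (1, 0), (2, 3), (3, 5), (3, 4), (4, 8), (5, 11), (5, 10), (6, 15), (7, 19),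
    (7, 18), (8, 24), (9, 29), (9, 28), (8, 19)]

/-- noise of sign `+` at the window `w` -/
def nE (j : ℤ) : ℕ → ℤ → Bool
  | 0, _ => false
  | w + 1, x => evL.any fun p => p.1 * (j - (w + 1)) + p.2 == x

/-- noise of sign `-` at the window `w` -/
def nO (j : ℤ) : ℕ → ℤ → Bool
  | 0, _ => false
  | w + 1, x => (7 * (j - (w + 1)) + 17 == x) || (j == 18 && w == 1 && x == 113) ||
      (j == 18 && w == 2 && x == 94)

/-- the caps -/
def cap (j : ℤ) (w : ℕ) : ℤ := 10 * (j - w) - 40

/-- the check for one `j` -/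
def chk (j : ℤ) : Bool :=
  above_cap (cap j) 0 (rounds (ok j) (nO j) (nE j) (cap j) [1, 3, 5, 7, 9] [0, 2, 4, 6, 8, 10] j
    500 4 600 [-(2 * j + 9), -(2 * j + 9), -(2 * j + 9), -(2 * j + 9)])

end Bal
end GaussPoset
end Agent
end Pool

end

/-! From `Pool.Agent.W_448s7_h27.BalK` (part 4) -/

section

/-!
# The balance lemma: the checks for `17 ≤ j ≤ 30`
-/

namespace Pool.Agent.GaussPoset.Bal

open Chk

lemma chk_23 : chk 23 = true := by decide +kernel
lemma chk_24 : chk 24 = true := by decide +kernel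
lemma chk_25 : chk 25 = true := by decide +kernel

end Bal
end GaussPoset
end Agent
end Pool

end

/-! From `Pool.Agent.W_448s7s_h5.SmE` -/

section

/-!
# A checker for balance systems with caps (MP_448cb3_co, S7, `j ≤ 16`)

As `Chk`, but the two signs are only known at the windows `w` with `v w ≤ cap w`; the result is a
list of lower bounds for `v`.
-/

namespace Pool.Agent.GaussPoset.Sm

open Chk

/-- the lines `X` are allowed, and they balance at the windows `w ≤ W` with `v w ≤ cap w` -/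
structure Sys (j : ℤ) (W : ℕ) (cap : ℕ → ℤ) (a : ℤ → ℤ → Bool) (nO nE : ℕ → ℤ → Bool)
    (ko ke : List ℤ) (v : ℕ → ℤ) (X : ℤ → ℤ → Prop) : Prop where
  al : ∀ κ g, X κ g → ∀ w ≤ W, κ * (j - w) + g = v w → v w ≤ cap w →
    a κ g = true ∧ (Odd κ → κ ∈ ko) ∧ (Even κ → κ ∈ ke)
  mn : ∀ κ g, X κ g → ∀ w ≤ W, v w ≤ κ * (j - w) + g
  od : ∀ w ≤ W, v w ≤ cap w →
    (∃ κ g, X κ g ∧ Odd κ ∧ κ * (j - w) + g = v w) ∨ nO w (v w) = true
  ev : ∀ w ≤ W, v w ≤ cap w →
    (∃ κ g, X κ g ∧ Even κ ∧ κ * (j - w) + g = v w) ∨ nE w (v w) = true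

/-- several sweeps -/
def rnds (a : ℤ → ℤ → Bool) (nO nE : ℕ → ℤ → Bool) (cap : ℕ → ℤ) (ko ke : List ℤ) (j : ℤ)
    (N W : ℕ) : ℕ → List ℤ → List ℤ
  | 0, u => u
  | r + 1, u => rnds a nO nE cap ko ke j N W r (sweep a nO nE cap ko ke j N W u)

section
variable {j : ℤ} {W : ℕ} {cap : ℕ → ℤ} {a : ℤ → ℤ → Bool} {nO nE : ℕ → ℤ → Bool}
  {ko ke : List ℤ} {v : ℕ → ℤ} {X : ℤ → ℤ → Prop}

lemma Sys.abv (hS : Sys j W cap a nO nE ko ke v X) {u : List ℤ} (hu : Below W v u) {κ g x : ℤ}
    (hx : X κ g) {w : ℕ} (he : κ * (j - w) + g = x) :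
    above κ (x - κ * (j - w)) u j = true := by
  have hg : x - κ * (j - w) = g := by rw [← he]; ring
  rw [hg]
  refine above_of (W := W) (v := v) u j fun w hw => ?_
  have hw' : w ≤ W := by
    have := hu.1
    omega
  exact (hu.2 w hw').trans (hS.mn _ _ hx w hw')

lemma Sys.both (hS : Sys j W cap a nO nE ko ke v X) {u : List ℤ} (hu : Below W v u) {w : ℕ}
    (hw : w ≤ W) (hc : v w ≤ cap w) :
    both a (nO w (v w)) (nE w (v w)) ko ke j (j - w) (v w) u = true := by
  unfold Chk.both
  rw [Bool.and_eq_true, Bool.or_eq_true, Bool.or_eq_true]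
  constructor
  · rcases hS.od w hw hc with ⟨κ, g, hx, ho, he⟩ | h
    · have h1 := hS.al κ g hx w hw he hc
      refine Or.inr (List.any_eq_true.mpr ⟨κ, h1.2.1 ho, ?_⟩)
      rw [Bool.and_eq_true]
      refine ⟨?_, hS.abv hu hx he⟩
      rw [show v w - κ * (j - w) = g by rw [← he]; ring]
      exact h1.1
    · exact Or.inl h
  · rcases hS.ev w hw hc with ⟨κ, g, hx, ho, he⟩ | h
    · have h1 := hS.al κ g hx w hw he hc
      refine Or.inr (List.any_eq_true.mpr ⟨κ, h1.2.2 ho, ?_⟩)
      rw [Bool.and_eq_true]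
      refine ⟨?_, hS.abv hu hx he⟩
      rw [show v w - κ * (j - w) = g by rw [← he]; ring]
      exact h1.1
    · exact Or.inl h

lemma Sys.raise (hS : Sys j W cap a nO nE ko ke v X) {w : ℕ} (hw : w ≤ W) :
    ∀ (n : ℕ) (u : List ℤ), Below W v u → Below W v (raise a nO nE cap ko ke j w n u) := by
  intro n
  induction n with
  | zero => intro u hu; exact hu
  | succ n ih =>
    intro u hu
    unfold Chk.raise
    split_ifs with h
    · exact hu
    · refine ih _ (hu.set hw ?_)
      have h1 := hu.2 w hw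
      rcases h1.lt_or_eq with h2 | h2
      · omega
      · exfalso
        apply h
        rw [Bool.or_eq_true]
        by_cases hc : cap w < u.getD w 0
        · left
          simpa using hc
        right
        have h3 := hS.both hu hw (by omega)
        rw [← h2] at h3
        exact h3

lemma Sys.sweep (hS : Sys j W cap a nO nE ko ke v X) (N : ℕ) :
    ∀ (W' : ℕ), W' ≤ W + 1 → ∀ (u : List ℤ), Below W v u →
      Below W v (sweep a nO nE cap ko ke j N W' u) := by
  intro W'
  induction W' with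
  | zero => intro _ u hu; exact hu
  | succ n ih =>
    intro hn u hu
    exact hS.raise (by omega) N _ (ih (by omega) u hu)

/-- **The checker is sound**: the bounds which it finds are lower bounds. -/
theorem Sys.rnds (hS : Sys j W cap a nO nE ko ke v X) (N : ℕ) :
    ∀ (r : ℕ) (u : List ℤ), Below W v u → Below W v (rnds a nO nE cap ko ke j N (W + 1) r u) := by
  intro r
  induction r with
  | zero => intro u hu; exact hu
  | succ n ih =>
    intro u hu
    exact ih _ (hS.sweep N (W + 1) le_rfl u hu)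

/-- a line is above the bounds -/
theorem Sys.target (hS : Sys j W cap a nO nE ko ke v X) (N r : ℕ) {u : List ℤ}
    (hu : Below W v u) {κ g : ℤ} (hx : X κ g) :
    above κ g (Sm.rnds a nO nE cap ko ke j N (W + 1) r u) j = true := by
  have h1 := hS.rnds N r u hu
  refine above_of (W := W) (v := v) _ j fun w hw => ?_
  have hw' : w ≤ W := by
    have := h1.1
    omega
  exact (h1.2 w hw').trans (hS.mn _ _ hx w hw')

end

end Pool.Agent.GaussPoset.Sm

end
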