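import Mathlib
import Pool.Agent.W_448zz_h61.Ns
import Pool.Agent.W_448zz_h61.M033

/-! From `Pool.Agent.W_448s7_h27.BalK` (part 2) -/

section

/-!
# The balance lemma: the checks for `17 ≤ j ≤ 30`
-/

namespace Pool.Agent.GaussPoset.Bal

open Chk

lemma chk_17 : chk 17 = true := by decide +kernel
lemma chk_18 : chk 18 = true := by decide +kernel
lemma chk_19 : chk 19 = true := by decide +kernel

end Bal
end GaussPoset
end Agent
end Pool

end

/-! From `Pool.Agent.W_448s7_h27.BalK` (part 6) -/

section

/-!
# The balance lemma: the checks for `17 ≤ j ≤ 30`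
-/

namespace Pool.Agent.GaussPoset.Bal

open Chk

lemma chk_29 : chk 29 = true := by decide +kernel
lemma chk_30 : chk 30 = true := by decide +kernel

end Bal
end GaussPoset
end Agent
end Pool

end
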