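import Mathlib
import Pool.Agent.W_448zz_h61.Ns
import Pool.Agent.W_448zz_h61.M033

/-! From `Pool.Agent.W_448s7_h27.BalK` (part 5) -/

/-!
# The balance lemma: the checks for `17 ≤ j ≤ 30`
-/

namespace Pool.Agent.GaussPoset.Bal

open Chk

lemma chk_26 : chk 26 = true := by decide +kernel
lemma chk_27 : chk 27 = true := by decide +kernel
lemma chk_28 : chk 28 = true := by decide +kernel

end Bal
end GaussPoset
end Agent
end Pool
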