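import Mathlib
import Pool.Agent.W_448zz_h61.Ns
import Pool.Agent.W_448zz_h61.M034
import Pool.Agent.W_448zz_h61.M035

/-! From `Pool.Agent.W_448s7_h27.Bal` -/

section

/-!
# The balance lemma (integer arithmetic of S7, `j ≥ 17`)

Every cross line has a slope `κ` and a constant `g`: its relative cost at window `w` is
`κ (j - w) + g`, its sign `(-1)^κ`.  At each of the windows `0, 1, 2, 3` the cheapest class must
contain both signs; own junk of the wide components only helps with the sign `+` and has the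
relative costs `noise`.  For `j ≥ 17` this is impossible below the cost of the joins of the level
`j + 1` between two ends which are not folds.
-/

namespace Pool.Agent.GaussPoset.Bal

/-- slopes and constants of the own junk of wide components -/
def NL (κ g : ℤ) : Prop :=
  (κ = 0 ∧ g = 0) ∨ (κ = 1 ∧ g = 1) ∨ (κ = 1 ∧ g = 0) ∨ (κ = 2 ∧ g = 3) ∨ (κ = 3 ∧ g = 5) ∨
  (κ = 3 ∧ g = 4) ∨ (κ = 4 ∧ g = 8) ∨ (κ = 5 ∧ g = 11) ∨ (κ = 5 ∧ g = 10) ∨ (κ = 6 ∧ g = 15) ∨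
  (κ = 7 ∧ g = 19) ∨ (κ = 7 ∧ g = 18) ∨ (κ = 8 ∧ g = 24) ∨ (κ = 9 ∧ g = 29) ∨ (κ = 9 ∧ g = 28)

/-- the relative costs of the own junk of wide components at a window with `y = j + 1 - w` -/
def Noise (y v : ℤ) : Prop :=
  (∃ t : ℤ, 1 ≤ t ∧ (v = (2 * t - 1) * y + t * t - t ∨ v = (2 * t - 1) * y + t * t - t - 1)) ∨
    ∃ t : ℤ, 0 ≤ t ∧ v = 2 * t * y + t * t

lemma Noise.nl {y v : ℤ} (h : Noise y v) (hy : 1 ≤ y) (hv : v ≤ 10 * y - 50) :
    ∃ κ g, NL κ g ∧ v = κ * (y - 1) + g := by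
  rcases h with ⟨t, ht, h⟩ | ⟨t, ht, h⟩
  · have h5 : t ≤ 5 := by
      by_contra hc
      have h6 : 6 ≤ t := by omega
      have h7 : 11 * y ≤ (2 * t - 1) * y := mul_le_mul_of_nonneg_right (by omega) (by omega)
      have h8 : 0 ≤ t * t - t - 1 := by nlinarith
      rcases h with h | h <;> linarith
    have h1 : t = 1 ∨ t = 2 ∨ t = 3 ∨ t = 4 ∨ t = 5 := by omega
    rcases h with h | h
    · refine ⟨2 * t - 1, t * t + t - 1, ?_, by rw [h]; ring⟩
      rcases h1 with rfl | rfl | rfl | rfl | rfl <;> (unfold NL; norm_num)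
    · refine ⟨2 * t - 1, t * t + t - 2, ?_, by rw [h]; ring⟩
      rcases h1 with rfl | rfl | rfl | rfl | rfl <;> (unfold NL; norm_num)
  · have h5 : t ≤ 4 := by
      by_contra hc
      have h6 : 5 ≤ t := by omega
      have h7 : 10 * y ≤ (2 * t) * y := mul_le_mul_of_nonneg_right (by omega) (by omega)
      have h8 : 0 ≤ t * t := by nlinarith
      linarith
    have h1 : t = 0 ∨ t = 1 ∨ t = 2 ∨ t = 3 ∨ t = 4 := by omega
    refine ⟨2 * t, t * t + 2 * t, ?_, by rw [h]; ring⟩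
    rcases h1 with rfl | rfl | rfl | rfl | rfl <;> (unfold NL; norm_num)

variable {j v0 v1 v2 v3 : ℤ}

end Pool.Agent.GaussPoset.Bal

end

/-! From `Pool.Agent.W_448s7_h27.BalK` (part 3) -/

section

/-!
# The balance lemma: the checks for `17 ≤ j ≤ 30`
-/

namespace Pool.Agent.GaussPoset.Bal

open Chk

lemma chk_20 : chk 20 = true := by decide +kernel
lemma chk_21 : chk 21 = true := by decide +kernel
lemma chk_22 : chk 22 = true := by decide +kernel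

end Bal
end GaussPoset
end Agent
end Pool

end

/-! From `Pool.Agent.W_448s7_h27.BalK` (part 7) -/

section

/-!
# The balance lemma: the checks for `17 ≤ j ≤ 30`
-/

namespace Pool.Agent.GaussPoset.Bal

open Chk

lemma chk_all {j : ℤ} (h1 : 17 ≤ j) (h2 : j ≤ 30) : chk j = true := by
  have h : j = 17 ∨ j = 18 ∨ j = 19 ∨ j = 20 ∨ j = 21 ∨ j = 22 ∨ j = 23 ∨ j = 24 ∨ j = 25 ∨
    j = 26 ∨ j = 27 ∨ j = 28 ∨ j = 29 ∨ j = 30 := by omega
  rcases h with rfl | rfl | rfl | rfl | rfl | rfl | rfl | rfl | rfl | rfl | rfl | rfl | rfl | rfl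
  exacts [chk_17, chk_18, chk_19, chk_20, chk_21, chk_22, chk_23, chk_24, chk_25, chk_26, chk_27,
    chk_28, chk_29, chk_30]

end Bal
end GaussPoset
end Agent
end Pool

end

/-! From `Pool.Agent.W_448s7_h27.BalC` -/

section

/-!
# The balance lemma, second version: `17 ≤ j ≤ 30` by the checker
-/

namespace Pool.Agent.GaussPoset.Bal

open Chk

/-- own junk of the sign `+` in terms of `j - w` -/
def EN (κ g : ℤ) : Prop := NL κ g ∨ (κ = 8 ∧ g = 19)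

/-- own junk of the sign `-` in terms of `j - w` -/
def ON (κ g : ℤ) : Prop := (κ = 7 ∧ g = 17) ∨ (κ = 9 ∧ g = 21) ∨ (κ = 9 ∧ g = 26) ∨ (κ = 9 ∧ g = 27)

/-- relative costs of further own junk of the sign `-` -/
def OddNoise (y v : ℤ) : Prop :=
  ∃ s m g : ℤ, 3 ≤ s ∧ 1 ≤ m ∧ Odd m ∧ s * s + 2 * s + 2 * m ≤ g ∧
    g ≤ s * s + 2 * s + m * (s - 1) ∧ v = (2 * s + m) * y + g

/-- relative costs of further own junk of the sign `+` -/
def EvenNoise (y v : ℤ) : Prop :=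
  ∃ s m g : ℤ, 3 ≤ s ∧ 1 ≤ m ∧ Even m ∧ s * s + 2 * s + 2 * m ≤ g ∧
    g ≤ s * s + 2 * s + m * (s - 1) ∧ v = (2 * s + m) * y + g

lemma OddNoise.on {y v : ℤ} (h : OddNoise y v) (hy : 14 ≤ y) (hv : v ≤ 10 * y - 40) :
    ∃ κ g, ON κ g ∧ v = κ * y + g := by
  obtain ⟨s, m, g, hs, hm, ⟨a, ha⟩, h1, h2, rfl⟩ := h
  have hg : 0 ≤ g := by nlinarith
  have h9 : 2 * s + m ≤ 9 := by
    by_contra hc
    have h3 : 10 * y ≤ (2 * s + m) * y := mul_le_mul_of_nonneg_right (by omega) (by omega)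
    omega
  refine ⟨2 * s + m, g, ?_, rfl⟩
  have h3 : (s = 3 ∧ m = 1) ∨ (s = 3 ∧ m = 3) ∨ (s = 4 ∧ m = 1) := by omega
  unfold ON
  rcases h3 with ⟨rfl, rfl⟩ | ⟨rfl, rfl⟩ | ⟨rfl, rfl⟩ <;> norm_num at h1 h2 ⊢ <;> omega

lemma EvenNoise.en {y v : ℤ} (h : EvenNoise y v) (hy : 14 ≤ y) (hv : v ≤ 10 * y - 40) :
    ∃ κ g, EN κ g ∧ v = κ * y + g := by
  obtain ⟨s, m, g, hs, hm, ⟨a, ha⟩, h1, h2, rfl⟩ := h
  have hg : 0 ≤ g := by nlinarith
  have h9 : 2 * s + m ≤ 9 := by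
    by_contra hc
    have h3 : 10 * y ≤ (2 * s + m) * y := mul_le_mul_of_nonneg_right (by omega) (by omega)
    omega
  refine ⟨2 * s + m, g, Or.inr ?_, rfl⟩
  have h3 : s = 3 ∧ m = 2 := by omega
  obtain ⟨rfl, rfl⟩ := h3
  norm_num at h1 h2 ⊢
  omega

/-- a cross line which is cheapest at some window -/
structure Ln2 (j v0 v1 v2 v3 κ g : ℤ) : Prop where
  k0 : 0 ≤ κ
  k10 : κ ≤ 10
  lo : -(2 * j + 9) ≤ g ∨ (κ = 10 ∧ (g = -45 ∨ g = -50))
  lo' : 31 ≤ j → -(j + 19) ≤ g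
  hi : 4 * g ≤ κ * κ + 4 * κ - (if κ % 2 = 0 then 0 else 9)
  mid : κ = 6 → g ≤ 10 ∨ g = 15
  t0 : v0 ≤ κ * j + g
  t1 : v1 ≤ κ * (j - 1) + g
  t2 : v2 ≤ κ * (j - 2) + g
  t3 : v3 ≤ κ * (j - 3) + g

lemma Ln2.ok {j v0 v1 v2 v3 κ g : ℤ} (h : Ln2 j v0 v1 v2 v3 κ g) : ok j κ g = true := by
  have h1 := h.lo
  have h2 := h.hi
  have h3 := h.mid
  unfold Bal.ok
  simp only [Bool.and_eq_true, Bool.or_eq_true, decide_eq_true_eq, beq_iff_eq, bne_iff_ne]
  refine ⟨⟨h1, h2⟩, ?_⟩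
  by_cases h4 : κ = 6
  · have := h3 h4
    tauto
  · tauto

lemma EN.mem {κ g : ℤ} (h : EN κ g) : (κ, g) ∈ evL := by
  unfold EN NL at h
  unfold evL
  rcases h with (⟨rfl, rfl⟩ | ⟨rfl, rfl⟩ | ⟨rfl, rfl⟩ | ⟨rfl, rfl⟩ | ⟨rfl, rfl⟩ | ⟨rfl, rfl⟩ |
    ⟨rfl, rfl⟩ | ⟨rfl, rfl⟩ | ⟨rfl, rfl⟩ | ⟨rfl, rfl⟩ | ⟨rfl, rfl⟩ | ⟨rfl, rfl⟩ | ⟨rfl, rfl⟩ |
    ⟨rfl, rfl⟩ | ⟨rfl, rfl⟩) | ⟨rfl, rfl⟩ <;> decide

/-- the data of the balance lemma -/
structure BSys (j v0 v1 v2 v3 : ℤ) (X : ℤ → ℤ → Prop) : Prop where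
  c0 : v0 ≤ 10 * j - 40
  c1 : v1 ≤ 10 * (j - 1) - 40
  c2 : v2 ≤ 10 * (j - 2) - 40
  c3 : v3 ≤ 10 * (j - 3) - 40
  ln : ∀ κ g, X κ g → Ln2 j v0 v1 v2 v3 κ g
  o0 : ∃ κ g, X κ g ∧ Odd κ ∧ κ * j + g = v0
  e0 : ∃ κ g, X κ g ∧ Even κ ∧ κ * j + g = v0
  o1 : (∃ κ g, X κ g ∧ Odd κ ∧ κ * (j - 1) + g = v1) ∨ ∃ κ g, ON κ g ∧ v1 = κ * (j - 1) + g
  e1 : (∃ κ g, X κ g ∧ Even κ ∧ κ * (j - 1) + g = v1) ∨ ∃ κ g, EN κ g ∧ v1 = κ * (j - 1) + g
  o2 : (∃ κ g, X κ g ∧ Odd κ ∧ κ * (j - 2) + g = v2) ∨ (∃ κ g, ON κ g ∧ v2 = κ * (j - 2) + g) ∨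
    (j = 18 ∧ v2 = 113)
  e2 : (∃ κ g, X κ g ∧ Even κ ∧ κ * (j - 2) + g = v2) ∨ ∃ κ g, EN κ g ∧ v2 = κ * (j - 2) + g
  o3 : (∃ κ g, X κ g ∧ Odd κ ∧ κ * (j - 3) + g = v3) ∨ (∃ κ g, ON κ g ∧ v3 = κ * (j - 3) + g) ∨
    (j = 18 ∧ v3 = 94)
  e3 : (∃ κ g, X κ g ∧ Even κ ∧ κ * (j - 3) + g = v3) ∨ ∃ κ g, EN κ g ∧ v3 = κ * (j - 3) + g

/-- the costs as a function -/
def vf (v0 v1 v2 v3 : ℤ) : ℕ → ℤ
  | 0 => v0
  | 1 => v1
  | 2 => v2
  | _ => v3

section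
variable {j v0 v1 v2 v3 : ℤ} {X : ℤ → ℤ → Prop}

lemma ev_noise {w : ℕ} {v κ g : ℤ} (h : EN κ g) (hv : v = κ * (j - (w + 1 : ℕ)) + g) :
    nE j (w + 1) v = true := by
  unfold nE
  rw [List.any_eq_true]
  refine ⟨(κ, g), h.mem, ?_⟩
  rw [beq_iff_eq, hv]
  push_cast
  ring

lemma od_noise {w : ℕ} {v κ g : ℤ} (hj : 17 ≤ j) (hj2 : j ≤ 30) (hw : w ≤ 2) (h : ON κ g)
    (hv : v = κ * (j - (w + 1 : ℕ)) + g) (hc : v ≤ 10 * (j - (w + 1 : ℕ)) - 40) :
    nO j (w + 1) v = true := by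
  unfold nO
  rw [Bool.or_eq_true, Bool.or_eq_true, beq_iff_eq]
  left; left
  push_cast at hv hc
  unfold ON at h
  rcases h with ⟨rfl, rfl⟩ | ⟨rfl, rfl⟩ | ⟨rfl, rfl⟩ | ⟨rfl, rfl⟩
  · rw [hv]
  · omega
  · omega
  · omega

lemma BSys.small (h : BSys j v0 v1 v2 v3 X) (hj : 17 ≤ j) (hj2 : j ≤ 30) : False := by
  have hS : Sys j 3 (cap j) (ok j) (nO j) (nE j) [0, 1, 2, 3, 4, 5, 6, 7, 8, 9, 10]
      (vf v0 v1 v2 v3) X := by
    refine ⟨fun κ g hx => (h.ln κ g hx).ok, fun κ g hx w _ _ => ?_, fun κ g hx w hw => ?_,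
      fun w hw => ?_, fun w hw => ?_, fun w hw => ?_⟩
    · have h1 := (h.ln κ g hx).k0
      have h2 := (h.ln κ g hx).k10
      simp only [List.mem_cons, List.not_mem_nil, or_false]
      omega
    · have h1 : w = 0 ∨ w = 1 ∨ w = 2 ∨ w = 3 := by omega
      rcases h1 with rfl | rfl | rfl | rfl
      · have := (h.ln κ g hx).t0
        simpa [vf] using this
      · have := (h.ln κ g hx).t1
        simpa [vf] using this
      · have := (h.ln κ g hx).t2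
        simpa [vf] using this
      · have := (h.ln κ g hx).t3
        simpa [vf] using this
    · have h1 : w = 0 ∨ w = 1 ∨ w = 2 ∨ w = 3 := by omega
      rcases h1 with rfl | rfl | rfl | rfl
      · simpa [vf, cap] using h.c0
      · simpa [vf, cap] using h.c1
      · simpa [vf, cap] using h.c2
      · simpa [vf, cap] using h.c3
    · have h1 : w = 0 ∨ w = 1 ∨ w = 2 ∨ w = 3 := by omega
      rcases h1 with rfl | rfl | rfl | rfl
      · left
        simpa [vf] using h.o0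
      · rcases h.o1 with h2 | ⟨κ, g, h2, h3⟩
        · left
          simpa [vf] using h2
        · right
          exact od_noise hj hj2 (by norm_num) h2 (by simpa [vf] using h3) (by simpa [vf] using h.c1)
      · rcases h.o2 with h2 | ⟨κ, g, h2, h3⟩ | ⟨h2, h3⟩
        · left
          simpa [vf] using h2
        · right
          exact od_noise hj hj2 (by norm_num) h2 (by simpa [vf] using h3) (by simpa [vf] using h.c2)
        · right
          subst h2 h3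
          rfl
      · rcases h.o3 with h2 | ⟨κ, g, h2, h3⟩ | ⟨h2, h3⟩
        · left
          simpa [vf] using h2
        · right
          exact od_noise hj hj2 (by norm_num) h2 (by simpa [vf] using h3) (by simpa [vf] using h.c3)
        · right
          subst h2 h3
          rfl
    · have h1 : w = 0 ∨ w = 1 ∨ w = 2 ∨ w = 3 := by omega
      rcases h1 with rfl | rfl | rfl | rfl
      · left
        simpa [vf] using h.e0
      · rcases h.e1 with h2 | ⟨κ, g, h2, h3⟩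
        · left
          simpa [vf] using h2
        · right
          exact ev_noise h2 (by simpa [vf] using h3)
      · rcases h.e2 with h2 | ⟨κ, g, h2, h3⟩
        · left
          simpa [vf] using h2
        · right
          exact ev_noise h2 (by simpa [vf] using h3)
      · rcases h.e3 with h2 | ⟨κ, g, h2, h3⟩
        · left
          simpa [vf] using h2
        · right
          exact ev_noise h2 (by simpa [vf] using h3)
  have hlow : ∀ κ g y : ℤ, X κ g → 14 ≤ y → -(2 * j + 9) ≤ κ * y + g := by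
    intro κ g y hx hy
    have h1 := h.ln κ g hx
    have h2 : 0 ≤ κ * y := mul_nonneg h1.k0 (by omega)
    rcases h1.lo with h3 | ⟨h4, h3⟩
    · omega
    · rw [h4]
      omega
  have hon : ∀ κ g y : ℤ, ON κ g → 14 ≤ y → -(2 * j + 9) ≤ κ * y + g := by
    intro κ g y hx hy
    unfold ON at hx
    rcases hx with ⟨rfl, rfl⟩ | ⟨rfl, rfl⟩ | ⟨rfl, rfl⟩ | ⟨rfl, rfl⟩ <;> omega
  have hb : Below 3 (vf v0 v1 v2 v3) [-(2 * j + 9), -(2 * j + 9), -(2 * j + 9), -(2 * j + 9)] := by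
    refine ⟨rfl, fun w hw => ?_⟩
    have h1 : w = 0 ∨ w = 1 ∨ w = 2 ∨ w = 3 := by omega
    rcases h1 with rfl | rfl | rfl | rfl
    · obtain ⟨κ, g, h2, -, h3⟩ := h.o0
      have := hlow κ g j h2 (by omega)
      simp [vf]
      omega
    · simp only [vf, List.getD_cons_succ, List.getD_cons_zero]
      rcases h.o1 with ⟨κ, g, h2, -, h3⟩ | ⟨κ, g, h2, h3⟩
      · have := hlow κ g _ h2 (by omega : 14 ≤ j - 1)
        omega
      · have := hon κ g _ h2 (by omega : 14 ≤ j - 1)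
        omega
    · simp only [vf, List.getD_cons_succ, List.getD_cons_zero]
      rcases h.o2 with ⟨κ, g, h2, -, h3⟩ | ⟨κ, g, h2, h3⟩ | ⟨h2, h3⟩
      · have := hlow κ g _ h2 (by omega : 14 ≤ j - 2)
        omega
      · have := hon κ g _ h2 (by omega : 14 ≤ j - 2)
        omega
      · omega
    · simp only [vf, List.getD_cons_succ, List.getD_cons_zero]
      rcases h.o3 with ⟨κ, g, h2, -, h3⟩ | ⟨κ, g, h2, h3⟩ | ⟨h2, h3⟩
      · have := hlow κ g _ h2 (by omega : 14 ≤ j - 3)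
        omega
      · have := hon κ g _ h2 (by omega : 14 ≤ j - 3)
        omega
      · omega
  refine hS.false (ko := [1, 3, 5, 7, 9]) (ke := [0, 2, 4, 6, 8, 10]) ?_ ?_ 500 600 hb (chk_all hj hj2)
  · intro κ hκ ho
    simp only [List.mem_cons, List.not_mem_nil, or_false] at hκ ⊢
    obtain ⟨a, ha⟩ := ho
    omega
  · intro κ hκ ho
    simp only [List.mem_cons, List.not_mem_nil, or_false] at hκ ⊢
    obtain ⟨a, ha⟩ := ho
    omega

end

end Pool.Agent.GaussPoset.Bal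

end
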