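import Mathlib
import Pool.Agent.W_448zz_h61.Ns
import Pool.Agent.W_448zz_h61.M032
import Pool.Agent.W_448zz_h61.M036

/-! From `Pool.Agent.W_448s7_h27.BalD` -/

section

/-!
# The balance lemma, second version: `31 ≤ j`
-/

namespace Pool.Agent.GaussPoset.Bal

/-- the data of the balance lemma in terms of a function -/
structure FSys (j : ℤ) (v : ℕ → ℤ) (X : ℤ → ℤ → Prop) : Prop where
  k0 : ∀ κ g, X κ g → 0 ≤ κ
  k10 : ∀ κ g, X κ g → κ ≤ 10
  lo : ∀ κ g, X κ g → -(j + 19) ≤ g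
  hi : ∀ κ g, X κ g → 4 * g ≤ κ * κ + 4 * κ - (if κ % 2 = 0 then 0 else 9)
  mn : ∀ κ g, X κ g → ∀ w : ℕ, w ≤ 3 → v w ≤ κ * (j - w) + g
  o0 : ∃ κ g, X κ g ∧ Odd κ ∧ κ * (j - (0 : ℕ)) + g = v 0
  e0 : ∃ κ g, X κ g ∧ Even κ ∧ κ * (j - (0 : ℕ)) + g = v 0
  ow : ∀ w : ℕ, 1 ≤ w → w ≤ 3 → (∃ κ g, X κ g ∧ Odd κ ∧ κ * (j - w) + g = v w) ∨
    ∃ κ g, ON κ g ∧ v w = κ * (j - w) + g
  ew : ∀ w : ℕ, 1 ≤ w → w ≤ 3 → (∃ κ g, X κ g ∧ Even κ ∧ κ * (j - w) + g = v w) ∨
    ∃ κ g, EN κ g ∧ v w = κ * (j - w) + g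

lemma EN.bd {κ g : ℤ} (h : EN κ g) : 3 * κ - 6 ≤ g ∧ g ≤ 3 * κ + 2 ∧ 0 ≤ g ∧ 0 ≤ κ ∧ κ ≤ 9 := by
  unfold EN NL at h
  omega

lemma ON.bd {κ g : ℤ} (h : ON κ g) : 3 * κ - 6 ≤ g ∧ g ≤ 3 * κ + 2 ∧ 0 ≤ g ∧ 0 ≤ κ ∧ κ ≤ 9 := by
  unfold ON at h
  omega

/-- two noise values at neighbouring windows with the same slope above them -/
lemma nn_bd {k y κ1 g1 κ2 g2 : ℤ} (hy : 20 ≤ y)
    (h1 : 3 * κ1 - 6 ≤ g1 ∧ g1 ≤ 3 * κ1 + 2) (h2 : 3 * κ2 - 6 ≤ g2 ∧ g2 ≤ 3 * κ2 + 2)
    (a1 : k - 2 ≤ κ1) (a2 : κ1 ≤ k - 1) (b1 : k - 2 ≤ κ2) (b2 : κ2 ≤ k - 1)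
    (he : κ1 * y + g1 - (κ2 * (y - 1) + g2) = k) : κ1 = κ2 ∧ g1 - g2 = k - κ1 := by
  have h3 : κ1 = κ2 ∨ κ1 = κ2 + 1 ∨ κ1 = κ2 - 1 := by omega
  rcases h3 with rfl | rfl | rfl
  · refine ⟨rfl, ?_⟩
    linarith
  · exfalso
    have : (κ2 + 1) * y - κ2 * (y - 1) = y + κ2 := by ring
    omega
  · exfalso
    have : (κ2 - 1) * y - κ2 * (y - 1) = κ2 - y := by ring
    omega

lemma nn_EN {k y κ1 g1 κ2 g2 : ℤ} (hy : 20 ≤ y) (h1 : EN κ1 g1) (h2 : EN κ2 g2) (ho : Odd k)
    (a1 : k - 2 ≤ κ1) (a2 : κ1 ≤ k - 1) (b1 : k - 2 ≤ κ2) (b2 : κ2 ≤ k - 1)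
    (he : κ1 * y + g1 - (κ2 * (y - 1) + g2) = k) : False := by
  obtain ⟨h3, h4⟩ := nn_bd hy ⟨h1.bd.1, h1.bd.2.1⟩ ⟨h2.bd.1, h2.bd.2.1⟩ a1 a2 b1 b2 he
  subst h3
  obtain ⟨a, rfl⟩ := ho
  unfold EN NL at h1 h2
  omega

lemma nn_ON {k y κ1 g1 κ2 g2 : ℤ} (hy : 20 ≤ y) (h1 : ON κ1 g1) (h2 : ON κ2 g2) (ho : Even k)
    (a1 : k - 2 ≤ κ1) (a2 : κ1 ≤ k - 1) (b1 : k - 2 ≤ κ2) (b2 : κ2 ≤ k - 1)
    (he : κ1 * y + g1 - (κ2 * (y - 1) + g2) = k) : κ1 = 9 ∧ g1 = 27 := by
  obtain ⟨h3, h4⟩ := nn_bd hy ⟨h1.bd.1, h1.bd.2.1⟩ ⟨h2.bd.1, h2.bd.2.1⟩ a1 a2 b1 b2 he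
  subst h3
  obtain ⟨a, rfl⟩ := ho
  unfold ON at h1 h2
  omega

lemma EO {y κ1 g1 κ2 g2 : ℤ} (hy : 20 ≤ y) (h1 : EN κ1 g1) (h2 : ON κ2 g2)
    (he : κ1 * y + g1 = κ2 * y + g2) : False := by
  have b1 := h1.bd
  have b2 := h2.bd
  have h3 : κ1 = κ2 ∨ κ1 + 1 ≤ κ2 ∨ κ2 + 1 ≤ κ1 := by omega
  rcases h3 with rfl | h3 | h3
  · have h4 : g1 = g2 := by linarith
    subst h4
    unfold EN NL at h1
    unfold ON at h2
    omega
  · have h4 : 1 * y ≤ (κ2 - κ1) * y := mul_le_mul_of_nonneg_right (by omega) (by omega)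
    have h5 : (κ2 - κ1) * y = g1 - g2 := by linarith
    omega
  · have h4 : 1 * y ≤ (κ1 - κ2) * y := mul_le_mul_of_nonneg_right (by omega) (by omega)
    have h5 : (κ1 - κ2) * y = g2 - g1 := by linarith
    omega

lemma hi_val {κ g : ℤ} (h0 : 0 ≤ κ) (h9 : κ ≤ 9)
    (h : 4 * g ≤ κ * κ + 4 * κ - (if κ % 2 = 0 then 0 else 9)) : g ≤ 3 * κ ∧ g ≤ 27 := by
  have h1 : κ = 0 ∨ κ = 1 ∨ κ = 2 ∨ κ = 3 ∨ κ = 4 ∨ κ = 5 ∨ κ = 6 ∨ κ = 7 ∨ κ = 8 ∨ κ = 9 := by
    omega
  rcases h1 with rfl | rfl | rfl | rfl | rfl | rfl | rfl | rfl | rfl | rfl <;> norm_num at h ⊢ <;>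
    omega

section
variable {j : ℤ} {v : ℕ → ℤ} {X : ℤ → ℤ → Prop}

/-- slopes are monotone -/
lemma FSys.mono (h : FSys j v X) {w w' : ℕ} (hw : w < w') (hw' : w' ≤ 3) {κ g κ' g' : ℤ}
    (hx : X κ g) (he : κ * (j - w) + g = v w) (hx' : X κ' g') (he' : κ' * (j - w') + g' = v w') :
    κ ≤ κ' := by
  have h1 := h.mn _ _ hx w' hw'
  have h2 := h.mn _ _ hx' w (by omega)
  have h3 : κ * ((w' : ℤ) - w) ≤ κ' * ((w' : ℤ) - w) := by linarith
  have h4 : (0 : ℤ) < (w' : ℤ) - w := by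
    have : (w : ℤ) < w' := by exact_mod_cast hw
    omega
  exact le_of_mul_le_mul_right h3 h4

/-- two lines with the same slope at two windows are equal -/
lemma FSys.same (h : FSys j v X) {w w' : ℕ} (hw : w ≤ 3) (hw' : w' ≤ 3) {κ g g' : ℤ}
    (hx : X κ g) (he : κ * (j - w) + g = v w) (hx' : X κ g') (he' : κ * (j - w') + g' = v w') :
    g = g' := by
  have h1 := h.mn _ _ hx w' hw'
  have h2 := h.mn _ _ hx' w (by omega)
  linarith

/-- window `0` -/
lemma FSys.zero (h : FSys j v X) (hj : 31 ≤ j) : ∃ k g, X k g ∧ X (k + 1) (g - j) ∧ k * j + g = v 0 ∧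
    0 ≤ k ∧ k ≤ 9 ∧ g ≤ 27 := by
  obtain ⟨κ, g, hx, ho, he⟩ := h.o0
  obtain ⟨κ', g', hx', ho', he'⟩ := h.e0
  obtain ⟨a, ha⟩ := ho
  obtain ⟨b, hb⟩ := ho'
  have e : (j - ((0 : ℕ) : ℤ)) = j := by push_cast; ring
  rw [e] at he he'
  have k0 := h.k0 _ _ hx
  have k0' := h.k0 _ _ hx'
  have k1 := h.k10 _ _ hx
  have k1' := h.k10 _ _ hx'
  have l := h.lo _ _ hx
  have l' := h.lo _ _ hx'
  rcases lt_or_ge κ κ' with hlt | hlt
  · have hb := hi_val k0 (by omega) (h.hi _ _ hx)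
    have h1 : κ' = κ + 1 := by
      by_contra hc
      have h2 : 3 * j ≤ (κ' - κ) * j := mul_le_mul_of_nonneg_right (by omega) (by omega)
      have h3 : (κ' - κ) * j = g - g' := by linarith
      omega
    subst h1
    have h2 : g' = g - j := by linarith
    subst h2
    exact ⟨κ, g, hx, hx', he, k0, by omega, by omega⟩
  · have hb := hi_val k0' (by omega) (h.hi _ _ hx')
    have h1 : κ = κ' + 1 := by
      by_contra hc
      have h2 : 3 * j ≤ (κ - κ') * j := mul_le_mul_of_nonneg_right (by omega) (by omega)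
      have h3 : (κ - κ') * j = g' - g := by linarith
      omega
    subst h1
    have h2 : g = g' - j := by linarith
    subst h2
    exact ⟨κ', g', hx', hx, he', k0', by omega, by omega⟩

/-- slopes at later windows -/
lemma FSys.slope (h : FSys j v X) (hj : 31 ≤ j) {k g0 : ℤ} (h1 : X (k + 1) (g0 - j))
    (he : k * j + g0 = v 0) (hg : g0 ≤ 27) {w : ℕ} (hw1 : 1 ≤ w) (hw : w ≤ 3) {κ g : ℤ}
    (hx : X κ g) (hv : κ * (j - w) + g = v w) : κ = k + 1 ∨ κ = k + 2 := by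
  have h2 : k + 1 ≤ κ := by
    refine h.mono (w := 0) (w' := w) (by omega) hw h1 ?_ hx hv
    push_cast
    linarith
  have h3 : κ ≤ k + 2 := by
    by_contra hc
    have h4 := h.mn _ _ h1 w hw
    have h5 := h.lo _ _ hx
    have hw3 : (w : ℤ) ≤ 3 := by exact_mod_cast hw
    have h6 : 2 * (j - w) ≤ (κ - (k + 1)) * (j - w) :=
      mul_le_mul_of_nonneg_right (by omega) (by omega)
    have h7 : (κ - (k + 1)) * (j - w) ≤ g0 - j - g := by linarith
    omega
  omega

/-- a window with two cross lines of different parity -/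
def JW (j : ℤ) (v : ℕ → ℤ) (X : ℤ → ℤ → Prop) (k : ℤ) (w : ℕ) : Prop :=
  ∃ g g', X (k + 1) g ∧ (k + 1) * (j - w) + g = v w ∧ X (k + 2) g' ∧ (k + 2) * (j - w) + g' = v w

/-- a window with noise -/
def NW (j : ℤ) (v : ℕ → ℤ) (X : ℤ → ℤ → Prop) (k g0 : ℤ) (w : ℕ) (κ : ℤ) : Prop :=
  ∃ g κn gn, X κ g ∧ κ * (j - w) + g = v w ∧ κn * (j - w) + gn = v w ∧ κn ≤ k ∧ κ - 2 ≤ κn ∧
    ((EN κn gn ∧ Odd κ) ∨ (ON κn gn ∧ Even κ)) ∧ (κn = k → gn ≤ g0 - w)

lemma FSys.win (h : FSys j v X) (hj : 31 ≤ j) {k g0 : ℤ} (h1 : X (k + 1) (g0 - j))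
    (he : k * j + g0 = v 0) (hg : g0 ≤ 27) {w : ℕ} (hw1 : 1 ≤ w) (hw : w ≤ 3) :
    JW j v X k w ∨ ∃ κ, (κ = k + 1 ∨ κ = k + 2) ∧ NW j v X k g0 w κ := by
  have hw3 : (w : ℤ) ≤ 3 := by exact_mod_cast hw
  have hw1' : (1 : ℤ) ≤ w := by exact_mod_cast hw1
  have m1 := h.mn _ _ h1 w hw
  -- noise
  have key : ∀ κn gn, (3 * κn - 6 ≤ gn ∧ gn ≤ 3 * κn + 2 ∧ 0 ≤ gn ∧ 0 ≤ κn ∧ κn ≤ 9) →
      v w = κn * (j - w) + gn → ∀ κ g, X κ g → κ * (j - w) + g = v w →
      κn ≤ k ∧ κ - 2 ≤ κn ∧ (κn = k → gn ≤ g0 - w) := by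
    intro κn gn hb hv κ g hx hx'
    have hs := h.slope hj h1 he hg hw1 hw hx hx'
    have hk : κn ≤ k := by
      by_contra hc
      have h4 : 0 ≤ (κn - (k + 1)) * (j - w) := mul_nonneg (by omega) (by omega)
      have h5 : (κn - (k + 1)) * (j - w) ≤ g0 - j - gn := by linarith
      omega
    refine ⟨hk, ?_, fun h6 => ?_⟩
    · by_contra hc
      have h4 : 3 * (j - w) ≤ (κ - κn) * (j - w) := mul_le_mul_of_nonneg_right (by omega) (by omega)
      have h5 : (κ - κn) * (j - w) = gn - g := by linarith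
      have h7 := h.lo _ _ hx
      omega
    · subst h6
      have h5 : κn * (j - w) + gn ≤ (κn + 1) * (j - w) + (g0 - j) := by linarith
      have h7 : (κn + 1) * (j - (w : ℤ)) = κn * (j - w) + (j - w) := by ring
      omega
  rcases h.ow w hw1 hw with ⟨κ, g, hx, ho, hv⟩ | ⟨κ, g, hn, hv⟩
  · rcases h.ew w hw1 hw with ⟨κ', g', hx', ho', hv'⟩ | ⟨κ', g', hn', hv'⟩
    · left
      have s1 := h.slope hj h1 he hg hw1 hw hx hv
      have s2 := h.slope hj h1 he hg hw1 hw hx' hv'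
      obtain ⟨a, ha⟩ := ho
      obtain ⟨b, hb⟩ := ho'
      have h3 : (κ = k + 1 ∧ κ' = k + 2) ∨ (κ = k + 2 ∧ κ' = k + 1) := by omega
      rcases h3 with ⟨h3, h4⟩ | ⟨h3, h4⟩
      · subst h3 h4
        exact ⟨g, g', hx, hv, hx', hv'⟩
      · subst h3 h4
        exact ⟨g', g, hx', hv', hx, hv⟩
    · right
      obtain ⟨k1, k2, k3⟩ := key κ' g' hn'.bd hv' κ g hx hv
      exact ⟨κ, h.slope hj h1 he hg hw1 hw hx hv, g, κ', g', hx, hv, hv'.symm, k1, k2,
        Or.inl ⟨hn', ho⟩, k3⟩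
  · rcases h.ew w hw1 hw with ⟨κ', g', hx', ho', hv'⟩ | ⟨κ', g', hn', hv'⟩
    · right
      obtain ⟨k1, k2, k3⟩ := key κ g hn.bd hv κ' g' hx' hv'
      exact ⟨κ', h.slope hj h1 he hg hw1 hw hx' hv', g', κ, g, hx', hv', hv.symm, k1, k2,
        Or.inr ⟨hn, ho'⟩, k3⟩
    · exact (EO (y := j - w) (by omega) hn' hn (by linarith)).elim

lemma FSys.JJ (h : FSys j v X) {k : ℤ} {w w' : ℕ} (hw : w < w') (hw' : w' ≤ 3)
    (a : JW j v X k w) (b : JW j v X k w') : False := by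
  obtain ⟨-, g1, -, -, h1, h2⟩ := a
  obtain ⟨g2, -, h3, h4, -, -⟩ := b
  have := h.mono hw hw' h1 h2 h3 h4
  omega

lemma FSys.NN (h : FSys j v X) (hj : 31 ≤ j) {k g0 : ℤ} (h0 : X k g0) (h9 : k ≤ 9) (hg : g0 ≤ 27)
    {w : ℕ} (hw1 : 1 ≤ w) (hw : w + 1 ≤ 3) {κ : ℤ}
    (hs : κ = k + 1 ∨ κ = k + 2) (a : NW j v X k g0 w κ) (b : NW j v X k g0 (w + 1) κ) : False := by
  have hw3 : (w : ℤ) + 1 ≤ 3 := by exact_mod_cast hw
  obtain ⟨g, κn, gn, hx, hv, hvn, hk, hk2, hN, hS⟩ := a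
  obtain ⟨g', κn', gn', hx', hv', hvn', hk', hk2', hN', hS'⟩ := b
  have h1 := h.same (by omega) hw hx hv hx' hv'
  subst h1
  push_cast at hv' hvn' hS'
  have he : κn * (j - w) + gn - (κn' * (j - w - 1) + gn') = κ := by
    have e1 : κn' * (j - w - 1) + gn' = κ * (j - (w + 1)) + g := by linarith
    rw [e1, hvn, ← hv]
    ring
  rcases hN with ⟨hN, ho⟩ | ⟨hN, ho⟩
  · rcases hN' with ⟨hN', -⟩ | ⟨-, ho'⟩
    · exact nn_EN (by omega) hN hN' ho hk2 (by omega) hk2' (by omega) he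
    · obtain ⟨a, ha⟩ := ho
      obtain ⟨b, hb⟩ := ho'
      omega
  · rcases hN' with ⟨-, ho'⟩ | ⟨hN', -⟩
    · obtain ⟨a, ha⟩ := ho
      obtain ⟨b, hb⟩ := ho'
      omega
    · obtain ⟨h2, h3⟩ := nn_ON (by omega) hN hN' ho hk2 (by omega) hk2' (by omega) he
      have := hS (by omega)
      omega

theorem FSys.false (h : FSys j v X) (hj : 31 ≤ j) : False := by
  obtain ⟨k, g0, h0, h1, he, hk0, hk9, hg⟩ := h.zero hj
  have ex : ∀ {w : ℕ} {κ : ℤ}, NW j v X k g0 w κ → ∃ g, X κ g ∧ κ * (j - w) + g = v w := by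
    rintro w κ ⟨g, κn, gn, hx, hv, -⟩
    exact ⟨g, hx, hv⟩
  rcases h.win hj h1 he hg (w := 2) (by norm_num) (by norm_num) with J2 | ⟨κ2, s2, N2⟩
  · rcases h.win hj h1 he hg (w := 1) (by norm_num) (by norm_num) with J1 | ⟨κ1, s1, N1⟩
    · exact h.JJ (by norm_num) (by norm_num) J1 J2
    rcases h.win hj h1 he hg (w := 3) (by norm_num) (by norm_num) with J3 | ⟨κ3, s3, N3⟩
    · exact h.JJ (by norm_num) (by norm_num) J2 J3
    -- N J N
    obtain ⟨g2, g2', x2, e2, x2', e2'⟩ := J2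
    obtain ⟨b1, κn1, gn1, y1, v1, n1, l1, m1, N1, S1⟩ := N1
    obtain ⟨b3, κn3, gn3, y3, v3, n3, l3, m3, N3, S3⟩ := N3
    have t1 : κ1 = k + 1 := by
      have := h.mono (w := 1) (w' := 2) (by norm_num) (by norm_num) y1 v1 x2 e2
      omega
    have t3 : κ3 = k + 2 := by
      have := h.mono (w := 2) (w' := 3) (by norm_num) (by norm_num) x2' e2' y3 v3
      omega
    subst t1 t3
    have q1 := h.same (w := 0) (w' := 1) (by norm_num) (by norm_num) h1
      (by push_cast; linarith) y1 v1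
    have q2 := h.same (w := 1) (w' := 2) (by norm_num) (by norm_num) y1 v1 x2 e2
    have q3 := h.same (w := 2) (w' := 3) (by norm_num) (by norm_num) x2' e2' y3 v3
    subst q1 q2 q3
    have k8 := h.k10 _ _ y3
    have l2 := h.lo _ _ y3
    have r2 : g2' = g0 - 2 * j + 2 := by
      push_cast at e2 e2'
      linarith
    push_cast at n1 n3 v1 v3 S1 S3
    -- window 1
    have bd1 : 3 * κn1 - 6 ≤ gn1 ∧ gn1 ≤ 3 * κn1 + 2 ∧ 0 ≤ gn1 ∧ 0 ≤ κn1 ∧ κn1 ≤ 9 := by
      rcases N1 with ⟨N1, -⟩ | ⟨N1, -⟩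
      · exact N1.bd
      · exact N1.bd
    have c1 : κn1 = k ∧ gn1 = g0 - 1 := by
      have h5 : κn1 = k ∨ κn1 = k - 1 := by omega
      rcases h5 with rfl | rfl
      · refine ⟨rfl, ?_⟩
        linarith
      · exfalso
        have h6 : (k - 1) * (j - 1) + gn1 = (k + 1) * (j - 1) + (g0 - j) := by linarith
        have h7 : gn1 = j - 2 + g0 := by linarith
        omega
    have c3 : κn3 = k ∧ gn3 = g0 - 4 := by
      have h5 : κn3 = k := by omega
      subst h5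
      refine ⟨rfl, ?_⟩
      linarith
    obtain ⟨c1, c1'⟩ := c1
    obtain ⟨c3, c3'⟩ := c3
    subst c1 c3
    rcases N1 with ⟨N1, o1⟩ | ⟨N1, o1⟩ <;> rcases N3 with ⟨N3, o3⟩ | ⟨N3, o3⟩ <;>
      obtain ⟨a, ha⟩ := o1 <;> obtain ⟨b, hb⟩ := o3
    · omega
    · unfold EN NL at N1
      unfold ON at N3
      omega
    · unfold EN NL at N3
      unfold ON at N1
      omega
    · omega
  · rcases h.win hj h1 he hg (w := 1) (by norm_num) (by norm_num) with J1 | ⟨κ1, s1, N1⟩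
    · rcases h.win hj h1 he hg (w := 3) (by norm_num) (by norm_num) with J3 | ⟨κ3, s3, N3⟩
      · exact h.JJ (by norm_num) (by norm_num) J1 J3
      · obtain ⟨-, g1, -, -, x1, e1⟩ := J1
        obtain ⟨b2, x2, e2⟩ := ex N2
        obtain ⟨b3, x3, e3⟩ := ex N3
        have t2 := h.mono (w := 1) (w' := 2) (by norm_num) (by norm_num) x1 e1 x2 e2
        have t3 := h.mono (w := 2) (w' := 3) (by norm_num) (by norm_num) x2 e2 x3 e3
        have t : κ3 = κ2 := by omega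
        subst t
        exact h.NN hj h0 hk9 hg (by norm_num) (by norm_num) s3 N2 N3
    · obtain ⟨b1, x1, e1⟩ := ex N1
      obtain ⟨b2, x2, e2⟩ := ex N2
      have t1 := h.mono (w := 1) (w' := 2) (by norm_num) (by norm_num) x1 e1 x2 e2
      rcases h.win hj h1 he hg (w := 3) (by norm_num) (by norm_num) with J3 | ⟨κ3, s3, N3⟩
      · obtain ⟨g3, -, x3, e3, -, -⟩ := J3
        have t2 := h.mono (w := 2) (w' := 3) (by norm_num) (by norm_num) x2 e2 x3 e3
        have t : κ2 = κ1 := by omega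
        subst t
        exact h.NN hj h0 hk9 hg (by norm_num) (by norm_num) s1 N1 N2
      · obtain ⟨b3, x3, e3⟩ := ex N3
        have t2 := h.mono (w := 2) (w' := 3) (by norm_num) (by norm_num) x2 e2 x3 e3
        by_cases t : κ2 = κ1
        · subst t
          exact h.NN hj h0 hk9 hg (by norm_num) (by norm_num) s2 N1 N2
        · have t : κ3 = κ2 := by omega
          subst t
          exact h.NN hj h0 hk9 hg (by norm_num) (by norm_num) s3 N2 N3

end

/-- **The balance lemma, second version.** -/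
theorem BSys.false {j v0 v1 v2 v3 : ℤ} {X : ℤ → ℤ → Prop} (h : BSys j v0 v1 v2 v3 X)
    (hj : 17 ≤ j) : False := by
  rcases le_or_gt j 30 with h30 | h31
  · exact h.small hj h30
  · have hj' : 31 ≤ j := by omega
    have hF : FSys j (vf v0 v1 v2 v3) X := by
      refine ⟨fun κ g hx => (h.ln κ g hx).k0, fun κ g hx => (h.ln κ g hx).k10,
        fun κ g hx => (h.ln κ g hx).lo' hj', fun κ g hx => (h.ln κ g hx).hi,
        fun κ g hx w hw => ?_, by simpa [vf] using h.o0, by simpa [vf] using h.e0,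
        fun w hw1 hw => ?_, fun w hw1 hw => ?_⟩
      · have h1 : w = 0 ∨ w = 1 ∨ w = 2 ∨ w = 3 := by omega
        rcases h1 with rfl | rfl | rfl | rfl
        · have := (h.ln κ g hx).t0
          simpa [vf] using this
        · have := (h.ln κ g hx).t1
          simpa [vf] using this
        · have := (h.ln κ g hx).t2
          simpa [vf] using this
        · have := (h.ln κ g hx).t3
          simpa [vf] using this
      · have h1 : w = 1 ∨ w = 2 ∨ w = 3 := by omega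
        rcases h1 with rfl | rfl | rfl
        · simpa [vf] using h.o1
        · rcases h.o2 with h2 | h2 | ⟨h2, -⟩
          · left; simpa [vf] using h2
          · right; simpa [vf] using h2
          · omega
        · rcases h.o3 with h2 | h2 | ⟨h2, -⟩
          · left; simpa [vf] using h2
          · right; simpa [vf] using h2
          · omega
      · have h1 : w = 1 ∨ w = 2 ∨ w = 3 := by omega
        rcases h1 with rfl | rfl | rfl
        · simpa [vf] using h.e1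
        · simpa [vf] using h.e2
        · simpa [vf] using h.e3
    exact hF.false hj'

end Pool.Agent.GaussPoset.Bal

end

/-! From `Pool.Agent.W_448s7_h27.BalE` -/

section

/-!
# The balance lemma, second version: statement, and bounds of the lines
-/

namespace Pool.Agent.GaussPoset.Bal

/-- **The balance lemma** with all own junk.  The costs `v w` are relative: cost minus
`(j + 1 - w)²`. -/
theorem no_balance2 {j v0 v1 v2 v3 : ℤ} (hj : 17 ≤ j) (c0 : v0 ≤ 10 * j - 40)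
    (c1 : v1 ≤ 10 * (j - 1) - 40) (c2 : v2 ≤ 10 * (j - 2) - 40) (c3 : v3 ≤ 10 * (j - 3) - 40)
    (X : ℤ → ℤ → Prop) (hX : ∀ κ g, X κ g → Ln2 j v0 v1 v2 v3 κ g)
    (o0 : ∃ κ g, X κ g ∧ Odd κ ∧ κ * j + g = v0)
    (e0 : ∃ κ g, X κ g ∧ Even κ ∧ κ * j + g = v0)
    (o1 : (∃ κ g, X κ g ∧ Odd κ ∧ κ * (j - 1) + g = v1) ∨ OddNoise (j - 1) v1)
    (e1 : (∃ κ g, X κ g ∧ Even κ ∧ κ * (j - 1) + g = v1) ∨ Noise (j + 1 - 1) v1 ∨
      EvenNoise (j - 1) v1)
    (o2 : (∃ κ g, X κ g ∧ Odd κ ∧ κ * (j - 2) + g = v2) ∨ OddNoise (j - 2) v2 ∨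
      (j = 18 ∧ v2 = 113))
    (e2 : (∃ κ g, X κ g ∧ Even κ ∧ κ * (j - 2) + g = v2) ∨ Noise (j + 1 - 2) v2 ∨
      EvenNoise (j - 2) v2)
    (o3 : (∃ κ g, X κ g ∧ Odd κ ∧ κ * (j - 3) + g = v3) ∨ OddNoise (j - 3) v3 ∨
      (j = 18 ∧ v3 = 94))
    (e3 : (∃ κ g, X κ g ∧ Even κ ∧ κ * (j - 3) + g = v3) ∨ Noise (j + 1 - 3) v3 ∨
      EvenNoise (j - 3) v3) : False := by
  have nl : ∀ {w v : ℤ}, 1 ≤ w → w ≤ 3 → v ≤ 10 * (j - w) - 40 → Noise (j + 1 - w) v →
      ∃ κ g, EN κ g ∧ v = κ * (j - w) + g := by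
    intro w v hw hw3 hc hn
    obtain ⟨κ, g, h1, h2⟩ := hn.nl (by omega) (by linarith)
    refine ⟨κ, g, Or.inl h1, ?_⟩
    rw [h2]
    ring
  refine BSys.false (X := X) ⟨c0, c1, c2, c3, hX, o0, e0, ?_, ?_, ?_, ?_, ?_, ?_⟩ hj
  · exact o1.imp id fun h => h.on (by omega) c1
  · rcases e1 with h | h | h
    · exact Or.inl h
    · exact Or.inr (nl le_rfl (by norm_num) c1 h)
    · exact Or.inr (h.en (by omega) c1)
  · exact o2.imp id (Or.imp (fun h => h.on (by omega) c2) id)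
  · rcases e2 with h | h | h
    · exact Or.inl h
    · exact Or.inr (nl (by norm_num) (by norm_num) c2 h)
    · exact Or.inr (h.en (by omega) c2)
  · exact o3.imp id (Or.imp (fun h => h.on (by omega) c3) id)
  · rcases e3 with h | h | h
    · exact Or.inl h
    · exact Or.inr (nl (by norm_num) (by norm_num) c3 h)
    · exact Or.inr (h.en (by omega) c3)

/-- bounds of the total depth `C` of `m` extra elements in one component -/
def Part2 (j m C : ℤ) : Prop := 0 ≤ m ∧ (C ≤ 3 * m + 10 ∨ 2 * C ≤ j)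

/-- a member of a cheapest class below the cap has slope at most `10` -/
lemma slope_le2 {j q m C m1 m2 C1 C2 w : ℤ} (hj : 17 ≤ j) (hq : 0 ≤ q) (hw : 0 ≤ w) (hw3 : w ≤ 3)
    (hm : m1 + m2 ≤ m) (hp1 : Part2 j m1 C1) (hp2 : Part2 j m2 C2) (hC : C ≤ C1 + C2)
    (hv : (2 * q + m) * (j - w) + (q * q + 2 * q - C) ≤ 10 * (j - w) - 40) : 2 * q + m ≤ 10 := by
  by_contra hc
  obtain ⟨n1, hp1⟩ := hp1
  obtain ⟨n2, hp2⟩ := hp2
  have h2 : 0 ≤ q * q + 2 * q := by nlinarith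
  -- `(κ - 10) (j - w) + 40 ≤ C ≤ 3 m + 20` or so
  have h1 : (2 * q + m - 10) * (j - w) ≤ C - 40 := by nlinarith
  have h4 : (2 * q + m - 10) * 14 ≤ (2 * q + m - 10) * (j - w) :=
    mul_le_mul_of_nonneg_left (by omega) (by omega)
  have h5 : 1 * (j - w) ≤ (2 * q + m - 10) * (j - w) :=
    mul_le_mul_of_nonneg_right (by omega) (by omega)
  rcases hp1 with a1 | a1 <;> rcases hp2 with b1 | b1
  · omega
  · nlinarith
  · nlinarith
  · omega

/-- the bounds of a cross line of level `> j + 1` which is cheapest at window `w` -/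
theorem ln2_pos {j v0 v1 v2 v3 q m C m1 m2 C1 C2 w κ g : ℤ} (hj : 17 ≤ j) (hq : 1 ≤ q)
    (hw : 0 ≤ w) (hw3 : w ≤ 3) (hm : m1 + m2 ≤ m) (hp1 : Part2 j m1 C1) (hp2 : Part2 j m2 C2)
    (hC : C ≤ C1 + C2) (hCl : -((q - 1) * m) ≤ C) (hm0 : m = 0 → C = 0)
    (hκ : κ = 2 * q + m) (hg : g = q * q + 2 * q - C)
    (hv : κ * (j - w) + g ≤ 10 * (j - w) - 40)
    (t0 : v0 ≤ κ * j + g) (t1 : v1 ≤ κ * (j - 1) + g) (t2 : v2 ≤ κ * (j - 2) + g)
    (t3 : v3 ≤ κ * (j - 3) + g) : Ln2 j v0 v1 v2 v3 κ g := by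
  subst hκ hg
  have h10 := slope_le2 hj (by omega) hw hw3 hm hp1 hp2 hC hv
  obtain ⟨n1, hp1⟩ := hp1
  obtain ⟨n2, hp2⟩ := hp2
  have hmn : 0 ≤ m := by omega
  have h3 : 3 ≤ q * q + 2 * q := by nlinarith
  have hlow : -(2 * j + 9) ≤ q * q + 2 * q - C := by
    rcases hp1 with a1 | a1 <;> rcases hp2 with b1 | b1 <;> omega
  have hlow2 : 31 ≤ j → -(j + 19) ≤ q * q + 2 * q - C := by
    intro h31
    rcases hp1 with a1 | a1 <;> rcases hp2 with b1 | b1 <;> omega
  refine ⟨by omega, h10, ?_, ?_, ?_, ?_, t0, t1, t2, t3⟩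
  · exact Or.inl hlow
  · exact hlow2
  · split_ifs with h
    · nlinarith
    · have h1 : 1 ≤ m := by omega
      nlinarith
  · intro h6
    have h7 : (q = 1 ∧ m = 4) ∨ (q = 2 ∧ m = 2) ∨ (q = 3 ∧ m = 0) := by omega
    rcases h7 with ⟨rfl, rfl⟩ | ⟨rfl, rfl⟩ | ⟨rfl, rfl⟩
    · left; omega
    · left; omega
    · right
      have := hm0 rfl
      omega

/-- the ends of the level `j` which are not folds: (number of extra elements, total depth) -/
def NEnd2 (j a d : ℤ) : Prop :=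
  (a = 0 ∧ d = 0) ∨ (a = 1 ∧ 1 ≤ d ∧ (d ≤ 7 ∨ 2 * d ≤ j)) ∨ (a = 3 ∧ d = 9) ∨
    (a = 5 ∧ d = 20) ∨ (a = 5 ∧ d = 25)

/-- joins of the level `j + 1` between two such ends are below the cap at the windows `0, …, 3` -/
lemma cap_of2 {j a d a' d' w : ℤ} (hj : 17 ≤ j) (hw3 : w ≤ 3) (h : NEnd2 j a d)
    (h' : NEnd2 j a' d') : (a + a') * (j - w) - (d + d') ≤ 10 * (j - w) - 40 := by
  unfold NEnd2 at h h'
  rcases h with ⟨rfl, hd⟩ | ⟨rfl, hd⟩ | ⟨rfl, hd⟩ | ⟨rfl, hd⟩ | ⟨rfl, hd⟩ <;>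
    rcases h' with ⟨rfl, hd'⟩ | ⟨rfl, hd'⟩ | ⟨rfl, hd'⟩ | ⟨rfl, hd'⟩ | ⟨rfl, hd'⟩ <;> omega

/-- the bounds of a cross line of level `j + 1` -/
theorem ln2_zero {j v0 v1 v2 v3 a d a' d' κ g : ℤ} (hj : 17 ≤ j) (h : NEnd2 j a d)
    (h' : NEnd2 j a' d') (hκ : κ = a + a') (hg : g = -(d + d'))
    (t0 : v0 ≤ κ * j + g) (t1 : v1 ≤ κ * (j - 1) + g) (t2 : v2 ≤ κ * (j - 2) + g)
    (t3 : v3 ≤ κ * (j - 3) + g) : Ln2 j v0 v1 v2 v3 κ g := by
  unfold NEnd2 at h h'
  subst hκ hg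
  refine ⟨by omega, by omega, by omega, by omega, ?_, by omega, t0, t1, t2, t3⟩
  rcases h with ⟨rfl, hd⟩ | ⟨rfl, hd⟩ | ⟨rfl, hd⟩ | ⟨rfl, hd⟩ | ⟨rfl, hd⟩ <;>
    rcases h' with ⟨rfl, hd'⟩ | ⟨rfl, hd'⟩ | ⟨rfl, hd'⟩ | ⟨rfl, hd'⟩ | ⟨rfl, hd'⟩ <;> norm_num <;>
    omega

end Pool.Agent.GaussPoset.Bal

end

/-! From `Pool.Agent.W_448wd_h84.WdH` -/

section

/-!
# MP_448cb3_co, numerical facts about the late components (for S7, `j ≥ 17`)
-/

namespace Pool.Agent.GaussPoset.Wd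

set_option linter.unusedSectionVars false

open Finset Cp

universe u

/-- the up-set of the element `s` of row `j` on the level `j - m`: an interval -/
def upI (lo hi : ℕ → ℕ) (j s : ℕ) : ℕ → ℕ × ℕ
  | 0 => (s, s)
  | m + 1 => (max (lo (j - m - 1)) ((upI lo hi j s m).1 - 1), min (hi (j - m - 1)) (upI lo hi j s m).2)

lemma upI_succ (lo hi : ℕ → ℕ) (j s m : ℕ) : upI lo hi j s (m + 1) =
    (max (lo (j - m - 1)) ((upI lo hi j s m).1 - 1), min (hi (j - m - 1)) (upI lo hi j s m).2) := rfl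

lemma upI_congr {L H lo hi : ℕ → ℕ} {B N s : ℕ} (hL : ∀ n, n ≤ N → L n = lo (B + n))
    (hH : ∀ n, n ≤ N → H n = hi (B + n)) : ∀ m, m ≤ N → upI L H N s m = upI lo hi (B + N) s m := by
  intro m
  induction m with
  | zero => intro _; rfl
  | succ m ih =>
    intro hm
    rw [upI_succ, upI_succ, ih (by omega), hL _ (by omega), hH _ (by omega),
      show B + (N - m - 1) = B + N - m - 1 by omega]

variable {P : Type u} [Fintype P] [PartialOrder P] [DecidableEq P] {r j : ℕ}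
variable {t : P} {lo hi : ℕ → ℕ} {e : ℕ → ℕ → P}

lemma upI_spec (C : Comp j t lo hi e) (H : Gr P r) (hg : ∀ l, l < j → Win.Good P l) (ht : lev t = 0)
    {s : ℕ} (h1 : lo j ≤ s) (h2 : s ≤ hi j) : ∀ m, m ≤ j →
    (lo (j - m) ≤ (upI lo hi j s m).1 ∧ (upI lo hi j s m).1 ≤ (upI lo hi j s m).2 ∧
      (upI lo hi j s m).2 ≤ hi (j - m)) ∧
    ∀ z, lev z = j - m → (e j s ≤ z ↔ ∃ s', (upI lo hi j s m).1 ≤ s' ∧ s' ≤ (upI lo hi j s m).2 ∧
      e (j - m) s' = z) := by
  have hlev := C.lev_e j s le_rfl h1 h2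
  have hle := C.le_t j s le_rfl h1 h2
  intro m
  induction m with
  | zero =>
    intro _
    refine ⟨⟨h1, le_rfl, h2⟩, ?_⟩
    intro z hz
    rw [Nat.sub_zero] at hz ⊢
    constructor
    · intro h
      refine ⟨s, le_rfl, le_rfl, ?_⟩
      rcases eq_or_lt_of_le h with h3 | h3
      · exact h3
      · have := lev_strictAnti h3
        omega
    · rintro ⟨s', h3, h4, rfl⟩
      have h5 : s' = s := le_antisymm h4 h3
      rw [h5]
  | succ m ih =>
    intro hm
    obtain ⟨⟨i1, i2, i3⟩, i4⟩ := ih (by omega)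
    obtain ⟨k, hk⟩ : ∃ k, j - m = k + 1 := ⟨j - m - 1, by omega⟩
    have hk' : j - (m + 1) = k := by omega
    rw [hk] at i1 i3 i4
    rw [upI_succ, hk, hk', Nat.add_sub_cancel]
    generalize (upI lo hi j s m).1 = L at *
    generalize (upI lo hi j s m).2 = R at *
    have c1 := C.lo_step k (by omega)
    have c2 := C.hi_step k (by omega)
    have c3 := C.lo_le k (by omega)
    refine ⟨by simp only [le_max_iff, max_le_iff, le_min_iff, min_le_iff]; omega, ?_⟩
    intro z hz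
    have hkj : k < j := by omega
    constructor
    · intro h
      have hlt : e j s < z := by
        rcases eq_or_lt_of_le h with h3 | h3
        · rw [h3] at hlev
          omega
        · exact h3
      obtain ⟨y, hy1, hy2⟩ := exists_le_covBy_of_lt hlt
      have hly := (H.covBy_iff.1 hy2).2
      obtain ⟨s'', g1, g2, rfl⟩ := (i4 y (by omega)).1 hy1
      have hzt : z ≤ t := by
        obtain ⟨t', ht', ht''⟩ := exists_above' (x := z) (j := 0) (Nat.zero_le _)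
        have := Cp.top_eq H hg (z := e j s) hlev.le ht ht'' hle (h.trans ht')
        rw [this]
        exact ht'
      obtain ⟨s', g3, g4, g5⟩ := C.surj z hzt (by omega)
      rw [hz] at g3 g4 g5
      rw [← g5] at hy2
      have g6 := (C.cov k s'' s' hkj (by omega) (by omega) g3 g4).1 hy2
      exact ⟨s', by simp only [max_le_iff]; omega, by simp only [le_min_iff]; omega, g5⟩
    · rintro ⟨s', g1, g2, rfl⟩
      simp only [max_le_iff, le_min_iff] at g1 g2
      rcases Nat.lt_or_ge s' L with g3 | g3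
      · have g4 := (C.cov k L s' hkj (by omega) (by omega) (by omega) (by omega)).2 (by omega)
        have g5 := (i4 (e (k + 1) L) (C.lev_e (k + 1) L (by omega) (by omega) (by omega))).2
          ⟨L, le_rfl, i2, rfl⟩
        exact g5.trans g4.le
      · have g4 := (C.cov k s' s' hkj (by omega) (by omega) (by omega) (by omega)).2 (Or.inl rfl)
        have g5 := (i4 (e (k + 1) s') (C.lev_e (k + 1) s' (by omega) (by omega) (by omega))).2
          ⟨s', by omega, by omega, rfl⟩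
        exact g5.trans g4.le

/-- the number of elements of the level `j - m` above an element of the last row -/
lemma nab_upI (C : Comp j t lo hi e) (H : Gr P r) (hg : ∀ l, l < j → Win.Good P l) (ht : lev t = 0)
    {s : ℕ} (h1 : lo j ≤ s) (h2 : s ≤ hi j) {m : ℕ} (hm : m ≤ j) :
    nab (j - m) (e j s) = (upI lo hi j s m).2 + 1 - (upI lo hi j s m).1 := by
  classical
  obtain ⟨⟨i1, i2, i3⟩, i4⟩ := upI_spec C H hg ht h1 h2 m hm
  unfold nab
  have h3 : (lv P (j - m)).filter (fun x => e j s ≤ x) =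
      (Finset.Icc (upI lo hi j s m).1 (upI lo hi j s m).2).image (e (j - m)) := by
    ext z
    rw [mem_filter, mem_image, mem_lv]
    constructor
    · rintro ⟨g1, g2⟩
      obtain ⟨s', g3, g4, g5⟩ := (i4 z g1).1 g2
      exact ⟨s', Finset.mem_Icc.2 ⟨g3, g4⟩, g5⟩
    · rintro ⟨s', g1, rfl⟩
      rw [Finset.mem_Icc] at g1
      have g2 := C.lev_e (j - m) s' (by omega) (by omega) (by omega)
      exact ⟨g2, (i4 _ g2).2 ⟨s', g1.1, g1.2, rfl⟩⟩
  rw [h3, Finset.card_image_of_injOn, Nat.card_Icc]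
  intro s1 g1 s2 g2 g3
  rw [Finset.mem_coe, Finset.mem_Icc] at g1 g2
  exact C.inj (j - m) s1 s2 (by omega) (by omega) (by omega) (by omega) (by omega) g3

end Pool.Agent.GaussPoset.Wd

end

/-! From `Pool.Agent.W_448wd_h84.WdI` -/

section

/-!
# MP_448cb3_co, widths and ends of the late components, `j ≥ 17`
-/

namespace Pool.Agent.GaussPoset.Wd

set_option linter.unusedSectionVars false

open Finset Cp

universe u

/-- number of extra elements above an element of the last row, within `d` levels -/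
def sE (lo hi : ℕ → ℕ) (j s d : ℕ) : ℕ :=
  ∑ m ∈ range d, ((upI lo hi j s (m + 1)).2 - (upI lo hi j s (m + 1)).1)

/-- sum of their distances -/
def sC (lo hi : ℕ → ℕ) (j s d : ℕ) : ℕ :=
  ∑ m ∈ range d, ((upI lo hi j s (m + 1)).2 - (upI lo hi j s (m + 1)).1) * (m + 1)

/-- the ends of the late components -/
def EndN (a c : ℕ) : Prop :=
  (a = 0 ∧ c = 0) ∨ (a = 1 ∧ 1 ≤ c ∧ c ≤ 7) ∨ (a = 3 ∧ c = 9) ∨ (a = 5 ∧ c = 20) ∨ (a = 5 ∧ c = 25)

instance (a c : ℕ) : Decidable (EndN a c) := by unfold EndN; infer_instance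

/-- the check of an end -/
def ChkN (w : List Ltr) (s : ℕ) : Prop :=
  Lw w (w.length + 3) ≤ s → s ≤ Hw w (w.length + 3) →
    (upI (Lw w) (Hw w) (w.length + 3) s 1).1 = (upI (Lw w) (Hw w) (w.length + 3) s 1).2 →
    EndN (sE (Lw w) (Hw w) (w.length + 3) s w.length) (sC (Lw w) (Hw w) (w.length + 3) s w.length)

instance (w : List Ltr) (s : ℕ) : Decidable (ChkN w s) := by unfold ChkN; infer_instance

lemma late_ends : ∀ w ∈ lateW 8, ∀ s, s < 20 → ChkN w s := by decide +kernel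

lemma late_small : ∀ w ∈ lateW 8, Hw w (w.length + 3) < 20 := by decide +kernel

lemma late_len : ∀ w ∈ lateW 8, w.length ≤ 7 := by decide +kernel
lemma late_len3 : ∀ w ∈ lateW 3, w.length ≤ 7 := by decide +kernel
lemma late_len4 : ∀ w ∈ lateW 4, w.length ≤ 12 := by decide +kernel
lemma late_len5 : ∀ w ∈ lateW 5, w.length ≤ 7 := by decide +kernel
lemma late_len6 : ∀ w ∈ lateW 6, w.length ≤ 7 := by decide +kernel

lemma lateW_large {a : ℕ} (ha : 7 ≤ a) : lateW a = lateW 8 := by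
  unfold lateW
  simp only [show ¬ a = 3 by omega, show ¬ a = 4 by omega, show ¬ a = 5 by omega, show ¬ a = 6 by omega,
    show 5 ≤ a by omega, show 6 ≤ a by omega, show 7 ≤ a by omega]
  rfl

variable {P : Type u} [Fintype P] [PartialOrder P] [DecidableEq P] {r j a : ℕ}
variable {t : P} {lo hi : ℕ → ℕ} {e : ℕ → ℕ → P}

lemma late_len_all {w : List Ltr} (h : w ∈ lateW a) : w.length ≤ 7 ∨ (a = 4 ∧ w.length ≤ 12) ∨ a < 3 := by
  rcases Nat.lt_or_ge a 7 with h1 | h1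
  · obtain h2 | rfl | rfl | rfl | rfl : a < 3 ∨ a = 3 ∨ a = 4 ∨ a = 5 ∨ a = 6 := by omega
    · omega
    · exact Or.inl (late_len3 w h)
    · exact Or.inr (Or.inl ⟨rfl, late_len4 w h⟩)
    · exact Or.inl (late_len5 w h)
    · exact Or.inl (late_len6 w h)
  · rw [lateW_large h1] at h
    exact Or.inl (late_len w h)

/-- the rows of a word, without the laws -/
lemma Lw_of_trunk (C : Comp j t lo hi e) (h0 : 3 ≤ a) (haj : a ≤ j) (h2 : ∀ k, k < a → lo k = 0 ∧ hi k = 0)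
    (h3 : lo a = 0 ∧ hi a = 1) : ∀ n, n ≤ j - a + 3 →
    Lw (word lo hi a (j - a)) n = lo (a - 3 + n) ∧ Hw (word lo hi a (j - a)) n = hi (a - 3 + n) := by
  intro n hn
  rcases Nat.lt_or_ge n 3 with h4 | h4
  · have := h2 (a - 3 + n) (by omega)
    unfold Lw Hw
    rw [if_pos h4, show n - 3 = 0 by omega, List.take_zero, List.countP_nil]
    omega
  · obtain ⟨m, rfl⟩ : ∃ m, n = m + 3 := ⟨n - 3, by omega⟩
    unfold Lw Hw
    rw [if_neg (by omega), show m + 3 - 3 = m by omega, word_take (by omega),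
      show a - 3 + (m + 3) = a + m by omega]
    clear h4
    induction m with
    | zero => simp [word, h3]
    | succ m ih =>
      obtain ⟨i1, i2⟩ := ih (by omega)
      rw [word_succ, List.countP_append, List.countP_append, i1, ← Nat.add_assoc 1, i2]
      have e3 := C.lo_step (a + m) (by omega)
      have e4 := C.hi_step (a + m) (by omega)
      constructor
      · rcases e3 with e3 | e3
        · simp [e3, ← Nat.add_assoc]
        · simp [e3, ← Nat.add_assoc]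
      · rcases e4 with e4 | e4
        · simp [e4, ← Nat.add_assoc]
        · simp [e4, ← Nat.add_assoc]

/-- the data of a late component -/
structure LateD (j a : ℕ) (lo hi : ℕ → ℕ) : Prop where
  h0 : 3 ≤ a
  h1 : a ≤ j
  h2 : ∀ k, k < a → lo k = 0 ∧ hi k = 0
  h3 : lo a = 0 ∧ hi a = 1
  h4 : ((1 ≤ j - a ∧ j - a ≤ a) ∧ word lo hi a (j - a) = Qw (j - a)) ∨ word lo hi a (j - a) ∈ lateW a

lemma LateD.big (D : LateD j a lo hi) (hj : 17 ≤ j) : 9 ≤ a := by
  rcases D.h4 with h | h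
  · omega
  · have := late_len_all h
    rw [word_length] at this
    have := D.h0
    omega

lemma Qw_counts (n : ℕ) : ∀ m, 1 ≤ m → m ≤ n → ((Qw n).take m).countP (fun l => l.1) = 1 ∧
    ((Qw n).take m).countP (fun l => l.2) = 0 := by
  intro m hm hn
  obtain ⟨k, rfl⟩ : ∃ k, m = k + 1 := ⟨m - 1, by omega⟩
  unfold Qw
  rw [List.take_succ_cons, List.take_replicate]
  constructor
  · rw [List.countP_cons_of_pos (by decide), List.countP_replicate]
    simp [OC]
  · rw [List.countP_cons_of_neg (by decide), List.countP_replicate]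
    simp [OC]

/-- the rows of a quadric -/
lemma LateD.quad (D : LateD j a lo hi) (C : Comp j t lo hi e) (hq : word lo hi a (j - a) = Qw (j - a)) :
    ∀ k, 1 ≤ k → a + k ≤ j → lo (a + k) = 1 ∧ hi (a + k) = 1 := by
  intro k hk hkj
  obtain ⟨e1, e2⟩ := Lw_of_trunk C D.h0 D.h1 D.h2 D.h3 (k + 3) (by omega)
  have h0 := D.h0
  rw [hq, show a - 3 + (k + 3) = a + k by omega] at e1 e2
  obtain ⟨g1, g2⟩ := Qw_counts (j - a) k hk (by omega)
  unfold Lw at e1
  unfold Hw at e2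
  rw [Nat.add_sub_cancel, g1] at e1
  rw [if_neg (by omega), Nat.add_sub_cancel, g2] at e2
  omega

lemma uc_card_nab (H : Gr P r) {x : P} (hx : 1 ≤ lev x) : (Win.uc x).card = nab (lev x - 1) x := by
  classical
  unfold nab
  congr 1
  ext y
  rw [Win.mem_uc, mem_filter, mem_lv, H.covBy_iff]
  constructor
  · rintro ⟨h1, h2⟩
    exact ⟨by omega, h1.le⟩
  · rintro ⟨h1, h2⟩
    refine ⟨lt_of_le_of_ne h2 ?_, by omega⟩
    rintro rfl
    omega

/-- ENDS of the late components, `j ≥ 17` -/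
theorem LateD.ends (D : LateD j a lo hi) (C : Comp j t lo hi e) (H : Gr P r)
    (hg : ∀ l, l < j → Win.Good P l) (ht : lev t = 0) (hj : 17 ≤ j) {x : P} (hxt : x ≤ t)
    (hxl : lev x = j) (hx : (Win.uc x).card = 1) :
    Bal.NEnd2 j (∑ k ∈ range j, ((nab k x : ℤ) - 1)) (∑ k ∈ range j, ((nab k x : ℤ) - 1) * ((j : ℤ) - k)) := by
  have h0 := D.h0
  have h1 := D.h1
  have hb := D.big hj
  obtain ⟨s, s1, s2, hs⟩ := C.surj x hxt hxl.le
  rw [hxl] at s1 s2 hs
  subst hs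
  have hnab : ∀ m, m ≤ j → nab (j - m) (e j s) = (upI lo hi j s m).2 + 1 - (upI lo hi j s m).1 :=
    fun m hm => nab_upI C H hg ht s1 s2 hm
  have hint : ∀ m, m ≤ j → lo (j - m) ≤ (upI lo hi j s m).1 ∧
      (upI lo hi j s m).1 ≤ (upI lo hi j s m).2 ∧ (upI lo hi j s m).2 ≤ hi (j - m) :=
    fun m hm => (upI_spec C H hg ht s1 s2 m hm).1
  -- the first step
  have hfirst : (upI lo hi j s 1).1 = (upI lo hi j s 1).2 := by
    rw [uc_card_nab H (by omega), hxl, hnab 1 (by omega)] at hx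
    have := hint 1 (by omega)
    omega
  -- the sums
  have hsum : ∀ g : ℕ → ℤ, ∑ k ∈ range j, ((nab k (e j s) : ℤ) - 1) * g k =
      ∑ m ∈ range (j - a), (((upI lo hi j s (m + 1)).2 - (upI lo hi j s (m + 1)).1 : ℕ) : ℤ) *
        g (j - (m + 1)) := by
    intro g
    rw [← Finset.sum_range_reflect]
    have e1 : ∀ m ∈ range j, ((nab (j - 1 - m) (e j s) : ℤ) - 1) * g (j - 1 - m) =
        (((upI lo hi j s (m + 1)).2 - (upI lo hi j s (m + 1)).1 : ℕ) : ℤ) * g (j - (m + 1)) := by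
      intro m hm
      rw [mem_range] at hm
      rw [show j - 1 - m = j - (m + 1) by omega, hnab (m + 1) (by omega)]
      have := hint (m + 1) (by omega)
      congr 1
      omega
    rw [Finset.sum_congr rfl e1]
    symm
    apply Finset.sum_subset
    · intro m hm
      rw [mem_range] at hm ⊢
      omega
    · intro m hm hm'
      rw [mem_range] at hm hm'
      have g1 := hint (m + 1) (by omega)
      have g2 := D.h2 (j - (m + 1)) (by omega)
      rw [show (upI lo hi j s (m + 1)).2 - (upI lo hi j s (m + 1)).1 = 0 by omega]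
      simp
  have hE : ∑ k ∈ range j, ((nab k (e j s) : ℤ) - 1) = (sE lo hi j s (j - a) : ℤ) := by
    have := hsum (fun _ => 1)
    simp only [mul_one] at this
    rw [this]
    unfold sE
    push_cast
    rfl
  have hC : ∑ k ∈ range j, ((nab k (e j s) : ℤ) - 1) * ((j : ℤ) - k) = (sC lo hi j s (j - a) : ℤ) := by
    have := hsum (fun k => (j : ℤ) - k)
    rw [this]
    unfold sC
    rw [Nat.cast_sum]
    refine Finset.sum_congr rfl fun m hm => ?_
    rw [mem_range] at hm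
    rw [Nat.cast_mul]
    congr 1
    omega
  rw [hE, hC]
  rcases D.h4 with ⟨h, hq⟩ | h
  · -- quadric
    have hr := D.quad C hq
    have hd2 : 2 ≤ j - a := by
      by_contra hc
      have hd : j - a = 1 := by omega
      have := hr 1 le_rfl (by omega)
      rw [show a + 1 = j by omega] at this
      rw [upI_succ, upI] at hfirst
      simp only [Nat.sub_zero] at hfirst
      rw [show j - 1 = a by omega, D.h3.1, D.h3.2] at hfirst
      omega
    have hw : ∀ m, m + 1 < j - a → (upI lo hi j s (m + 1)).2 - (upI lo hi j s (m + 1)).1 = 0 := by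
      intro m hm
      have g1 := hint (m + 1) (by omega)
      have g2 := hr (j - a - (m + 1)) (by omega) (by omega)
      rw [show a + (j - a - (m + 1)) = j - (m + 1) by omega] at g2
      omega
    have hlast : (upI lo hi j s (j - a)).2 - (upI lo hi j s (j - a)).1 = 1 := by
      obtain ⟨n, hn⟩ : ∃ n, j - a = n + 1 := ⟨j - a - 1, by omega⟩
      rw [hn, upI_succ]
      have g1 := hint n (by omega)
      have g2 := hr 1 le_rfl (by omega)
      rw [show j - n = a + 1 by omega] at g1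
      rw [show j - n - 1 = a by omega, D.h3.1, D.h3.2]
      simp only
      omega
    have hs1 : sE lo hi j s (j - a) = 1 := by
      unfold sE
      obtain ⟨n, hn⟩ : ∃ n, j - a = n + 1 := ⟨j - a - 1, by omega⟩
      rw [hn, Finset.sum_range_succ, ← hn, hlast, Finset.sum_eq_zero]
      intro m hm
      rw [mem_range] at hm
      exact hw m (by omega)
    have hs2 : sC lo hi j s (j - a) = j - a := by
      unfold sC
      obtain ⟨n, hn⟩ : ∃ n, j - a = n + 1 := ⟨j - a - 1, by omega⟩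
      rw [hn, Finset.sum_range_succ, ← hn, hlast, Finset.sum_eq_zero]
      · omega
      · intro m hm
        rw [mem_range] at hm
        rw [hw m (by omega), Nat.zero_mul]
    rw [hs1, hs2]
    unfold Bal.NEnd2
    right
    left
    refine ⟨rfl, by omega, Or.inr ?_⟩
    omega
  · -- the words
    rw [lateW_large (by omega)] at h
    have hL := fun n hn => (Lw_of_trunk C h0 h1 D.h2 D.h3 n hn).1
    have hH := fun n hn => (Lw_of_trunk C h0 h1 D.h2 D.h3 n hn).2
    have hup := upI_congr (s := s) hL hH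
    have hj' : a - 3 + (j - a + 3) = j := by omega
    rw [hj'] at hup
    have k1 := late_small _ h
    have k2 := late_ends _ h s
    rw [word_length] at k1
    unfold ChkN at k2
    rw [word_length, hL _ le_rfl, hH _ le_rfl, hj', hup 1 (by omega)] at k2
    rw [hH _ le_rfl, hj'] at k1
    have k3 := k2 (by omega) s1 s2 hfirst
    have c1 : sE (Lw (word lo hi a (j - a))) (Hw (word lo hi a (j - a))) (j - a + 3) s (j - a) =
        sE lo hi j s (j - a) := by
      unfold sE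
      refine Finset.sum_congr rfl fun m hm => ?_
      rw [mem_range] at hm
      rw [hup (m + 1) (by omega)]
    have c2 : sC (Lw (word lo hi a (j - a))) (Hw (word lo hi a (j - a))) (j - a + 3) s (j - a) =
        sC lo hi j s (j - a) := by
      unfold sC
      refine Finset.sum_congr rfl fun m hm => ?_
      rw [mem_range] at hm
      rw [hup (m + 1) (by omega)]
    rw [c1, c2] at k3
    unfold EndN at k3
    unfold Bal.NEnd2
    omega

end Pool.Agent.GaussPoset.Wd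

end

/-! From `Pool.Agent.W_448cl_h67.ClL` -/

section

/-!
Natural sets of the late components `E6` and `E7`.
-/

namespace Pool.Agent.GaussPoset.Cl

set_option linter.unusedSectionVars false

open Polynomial Finset Wd

universe u

lemma late3_words : ∀ w ∈ lateW 3, 5 ≤ w.length → w = w6.take w.length ∧ w.length ≤ 7 := by
  decide +kernel

lemma late4_words : ∀ w ∈ lateW 4, 5 ≤ w.length → w.length ≠ 6 →
    w = w7.take w.length ∧ w.length ≤ 12 := by decide +kernel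

variable {P : Type u} [Fintype P] [PartialOrder P] [DecidableEq P]
variable {r j : ℕ} {lo hi : ℕ → ℕ} {e : ℕ → ℕ → P}

/-- a late component with `a = 3`, `8 ≤ j`, is `E6` -/
theorem wordD_three (D : LateD j 3 lo hi) (hj : 8 ≤ j) : WordD j 3 w6 lo hi ∧ j ≤ 10 := by
  rcases D.h4 with h | h
  · omega
  · obtain ⟨h1, h2⟩ := late3_words _ h (by rw [word_length]; omega)
    rw [word_length] at h1 h2
    exact ⟨⟨D.h2, D.h3, h1⟩, by omega⟩

/-- a late component with `a = 4`, `j = 9` or `11 ≤ j`, is `E7` -/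
theorem wordD_four (D : LateD j 4 lo hi) (hj : 9 ≤ j) (hj' : j ≠ 10) :
    WordD j 4 w7 lo hi ∧ j ≤ 16 := by
  rcases D.h4 with h | h
  · omega
  · obtain ⟨h1, h2⟩ := late4_words _ h (by rw [word_length]; omega)
      (by rw [word_length]; omega)
    rw [word_length] at h1 h2
    exact ⟨⟨D.h2, D.h3, h1⟩, by omega⟩

lemma row6 : ∀ i, i < 8 → 3 ≤ i → losW 3 w6 (i + 3) ≤ 3 ∧ 3 ≤ hisW 3 w6 (i + 3) := by
  decide +kernel

lemma row7 : ∀ i, i < 8 → 4 ≤ i → losW 4 w7 (i + 4) ≤ 4 ∧ 4 ≤ hisW 4 w7 (i + 4) := by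
  decide +kernel

section

variable {t : Tops P}

/-- natural set from the order at a cell -/
theorem CleanAt.natTop_cell (C : Cp.Comp j (t : P) lo hi e) (H : Gr P r)
    (hg : ∀ l, l < j → Win.Good P l) (hgr : GradedBelow P) {i b k s : ℕ}
    (h : CleanAt i b (lowPart j (t : P)) (e k s)) (hik : i ≤ k) (hkj : k ≤ j) (h1 : lo k ≤ s)
    (h2 : s ≤ hi k) :
    NatTop i t b (lowPart j (t : P)) (fun x => lev x - k) (fun x => x = e k s) := by
  have hl := C.lev_e k s hkj h1 h2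
  have h3 := h.natTop H hg hgr (mem_lowPart.mpr ⟨C.le_t k s hkj h1 h2, by omega⟩) (by omega)
  rw [hl] at h3
  exact h3

/-- **`E6` at the windows `3 ≤ i ≤ 7`.** -/
theorem natTop_E6 (D : WordD j 3 w6 lo hi) (C : Cp.Comp j (t : P) lo hi e) (H : Gr P r)
    (hg : ∀ l, l < j → Win.Good P l) (hgr : GradedBelow P) {i : ℕ} (h3 : 3 ≤ i)
    (hij : i + 3 ≤ j) (hj : j ≤ 10) :
    NatTop i t 2 (lowPart j (t : P)) (fun x => lev x - (i + 3)) (fun x => x = e (i + 3) 3) := by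
  have h1 := row6 i (by omega) h3
  obtain ⟨h4, h5⟩ := D.rows C
  rw [← h4 (i + 3) hij, ← h5 (i + 3) hij] at h1
  exact (E6_clean D C H hg t.2 h3 hij hj).natTop_cell C H hg hgr (by omega) hij h1.1 h1.2

/-- **`E7` at the windows `4 ≤ i ≤ 7`.** -/
theorem natTop_E7 (D : WordD j 4 w7 lo hi) (C : Cp.Comp j (t : P) lo hi e) (H : Gr P r)
    (hg : ∀ l, l < j → Win.Good P l) (hgr : GradedBelow P) {i : ℕ} (h3 : 4 ≤ i) (h7 : i ≤ 7)
    (hij : i + 4 ≤ j) (hj : j ≤ 16) :
    NatTop i t 2 (lowPart j (t : P)) (fun x => lev x - (i + 4)) (fun x => x = e (i + 4) 4) := by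
  have h1 := row7 i (by omega) h3
  obtain ⟨h4, h5⟩ := D.rows C
  rw [← h4 (i + 4) hij, ← h5 (i + 4) hij] at h1
  exact (E7_clean D C H hg t.2 h3 h7 hij hj).natTop_cell C H hg hgr (by omega) hij h1.1 h1.2

/-- **The complete `E7` at the window `8`.** -/
theorem natTop_E7_8 (D : WordD 16 4 w7 lo hi) (C : Cp.Comp 16 (t : P) lo hi e) (H : Gr P r)
    (hg : ∀ l, l < 16 → Win.Good P l) (hgr : GradedBelow P) :
    NatTop 8 t 3 (lowPart 16 (t : P)) (fun x => lev x - 16) (fun x => x = e 16 5) := by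
  obtain ⟨h4, h5⟩ := D.rows C
  have h1 : losW 4 w7 16 ≤ 5 ∧ 5 ≤ hisW 4 w7 16 := by decide +kernel
  rw [← h4 16 le_rfl, ← h5 16 le_rfl] at h1
  exact (E7_clean8 D C H hg t.2).natTop_cell C H hg hgr (by omega) le_rfl h1.1 h1.2

/-- the late component `a = 3` at `j = 10`, window `3` -/
theorem natTop_late3 (D : LateD 10 3 lo hi) (C : Cp.Comp 10 (t : P) lo hi e) (H : Gr P r)
    (hg : ∀ l, l < 10 → Win.Good P l) (hgr : GradedBelow P) :
    NatTop 3 t 2 (lowPart 10 (t : P)) (fun x => lev x - 6) (fun x => x = e 6 3) :=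
  natTop_E6 (wordD_three D (by omega)).1 C H hg hgr (i := 3) le_rfl (by omega) (by omega)

end

end Pool.Agent.GaussPoset.Cl

end

/-! From `Pool.Agent.W_448so_h39.FC` -/

section

/-!
# S9 (MP_448cb3_co): no letters C, C, O before the last step of a wide component
-/

namespace Pool.Agent.GaussPoset.Wd

set_option linter.unusedSectionVars false

open Cp

/-- the letters of a word -/
lemma word_spec {lo hi : ℕ → ℕ} {a d : ℕ} {w : List Ltr} (h : word lo hi a d = w) :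
    d = w.length ∧ ∀ n, n < d → (w[n]?.map Prod.fst = some (decide (lo (a + n + 1) ≠ lo (a + n)))) ∧
      (w[n]?.map Prod.snd = some (decide (hi (a + n + 1) ≠ hi (a + n)))) := by
  subst h
  unfold word
  refine ⟨by simp, fun n hn => ?_⟩
  simp [hn]

/-- the number of elements minus one -/
def wdt (w : List Ltr) : ℤ :=
  1 + (w.map (fun l => (if l.2 then (1 : ℤ) else 0) - if l.1 then 1 else 0)).sum

lemma lateW_wide (a : ℕ) : ∀ w ∈ lateW a, 3 ≤ wdt w →
    w = [OC, OO, OO] ∨ w = [OC, OO, CO, OO] ∨ w = [OC, CO, CO, OO, CO, OO] ∨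
      w = [OC, CO, CO, OO, CO, OO, OC] ∨ w = [OC, CO, CO, OO, CO, OO, OO] := by
  unfold lateW
  split_ifs <;> first | omega | decide

/-- the late words with at least four elements on the last level -/
lemma late_wide {lo hi : ℕ → ℕ} {a d : ℕ} (h3 : lo a = 0 ∧ hi a = 1)
    (hl : ∀ k, k < a + d → lo k ≤ lo (k + 1) ∧ lo (k + 1) ≤ lo k + 1)
    (hh : ∀ k, k < a + d → hi k ≤ hi (k + 1) ∧ hi (k + 1) ≤ hi k + 1)
    (h4 : ((1 ≤ d ∧ d ≤ a) ∧ word lo hi a d = Qw d) ∨ word lo hi a d ∈ lateW a)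
    (hw : lo (a + d) + 3 ≤ hi (a + d)) :
    word lo hi a d = [OC, OO, OO] ∨ word lo hi a d = [OC, OO, CO, OO] ∨
      word lo hi a d = [OC, CO, CO, OO, CO, OO] ∨ word lo hi a d = [OC, CO, CO, OO, CO, OO, OC] ∨
      word lo hi a d = [OC, CO, CO, OO, CO, OO, OO] := by
  have key : 3 ≤ wdt (word lo hi a d) := by
    unfold wdt
    have gen : ∀ n, n ≤ d → (hi (a + n) : ℤ) - lo (a + n) =
        1 + ((word lo hi a n).map (fun l => (if l.2 then (1 : ℤ) else 0) -
          if l.1 then 1 else 0)).sum := by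
      intro n
      induction n with
      | zero =>
        intro _
        simp [word, h3.1, h3.2]
      | succ n ih =>
        intro hn
        have e1 := ih (by omega)
        have e2 := hl (a + n) (by omega)
        have e3 := hh (a + n) (by omega)
        have e4 : word lo hi a (n + 1) = word lo hi a n ++
            [(decide (lo (a + n + 1) ≠ lo (a + n)), decide (hi (a + n + 1) ≠ hi (a + n)))] := by
          unfold word
          rw [List.range_succ, List.map_append]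
          rfl
        rw [e4, List.map_append, List.sum_append]
        simp only [List.map_cons, List.map_nil, List.sum_cons, List.sum_nil, add_zero,
          decide_eq_true_eq]
        rw [show a + (n + 1) = a + n + 1 by omega]
        split_ifs <;> omega
    have := gen d le_rfl
    rw [← this]
    omega
  rcases h4 with ⟨⟨h5, h6⟩, h7⟩ | h4
  · exfalso
    -- a quadric: one element
    have gen : ∀ n, n + 1 ≤ d → lo (a + (n + 1)) = hi (a + (n + 1)) := by
      obtain ⟨-, hs⟩ := word_spec h7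
      intro n
      induction n with
      | zero =>
        intro hn
        obtain ⟨q1, q2⟩ := hs 0 (by omega)
        have e2 := hl a (by omega)
        have e3 := hh a (by omega)
        simp only [Qw, List.getElem?_cons_zero, CC, Option.map_some, Option.some.injEq] at q1 q2
        have q1' : lo (a + 0 + 1) ≠ lo (a + 0) := of_decide_eq_true q1.symm
        have q2' : ¬ hi (a + 0 + 1) ≠ hi (a + 0) := of_decide_eq_false q2.symm
        simp only [Nat.add_zero] at q1' q2'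
        show lo (a + 1) = hi (a + 1)
        omega
      | succ n ih =>
        intro hn
        have e1 := ih (by omega)
        obtain ⟨q1, q2⟩ := hs (n + 1) (by omega)
        simp only [Qw, List.getElem?_cons_succ] at q1 q2
        rw [List.getElem?_replicate, if_pos (by omega)] at q1 q2
        simp only [OC, Option.map_some, Option.some.injEq] at q1 q2
        have q1' : ¬ lo (a + (n + 1) + 1) ≠ lo (a + (n + 1)) := of_decide_eq_false q1.symm
        have q2' : ¬ hi (a + (n + 1) + 1) ≠ hi (a + (n + 1)) := of_decide_eq_false q2.symm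
        rw [show a + (n + 1 + 1) = a + (n + 1) + 1 by omega]
        omega
    have := gen (d - 1) (by omega)
    rw [Nat.sub_add_cancel h5] at this
    omega
  · exact lateW_wide a _ h4 key

end Pool.Agent.GaussPoset.Wd

end
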