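import Mathlib
import Pool.Agent.W_448zz_h61.Ns
import Pool.Agent.W_448zz_h61.M018
import Pool.Agent.W_448zz_h61.M019
import Pool.Agent.W_448zz_h61.M020
import Pool.Agent.W_448zz_h61.M038

/-! From `Pool.Agent.W_448dd_h67.DdA` -/

section

/-!
Orders and first poles of products of window polynomials.
-/

namespace Pool.Agent.GaussPoset.Dd

set_option linter.unusedSectionVars false

open Polynomial Finset

universe u

lemma exq_mul (n : ℕ) (f g : Polynomial (PowerSeries ℤ)) :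
    exq n (f * g) = ∑ ab ∈ antidiagonal n, exq ab.1 f * exq ab.2 g := by
  ext k
  rw [coeff_exq, Polynomial.coeff_mul, map_sum, Polynomial.finsetSum_coeff]
  simp only [PowerSeries.coeff_mul, Polynomial.coeff_mul, coeff_exq]
  rw [Finset.sum_comm]

/-- the window polynomial without the power of `q` -/
lemma exists_norm (Q : Type u) [Fintype Q] [PartialOrder Q] [DecidableEq Q] (i : ℕ) :
    ∃ f : Polynomial (PowerSeries ℤ), W Q i = C (PowerSeries.X ^ M0 Q i) * f ∧
      ∀ n, exq n f = Z Q i n := by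
  have h1 : C (PowerSeries.X ^ M0 Q i) ∣ W Q i := by
    rw [Polynomial.C_dvd_iff_dvd_coeff]
    intro k
    rw [PowerSeries.X_pow_dvd_iff]
    intro m hm
    rw [← coeff_exq, exq_W, if_neg (by omega), Polynomial.coeff_zero]
  obtain ⟨f, hf⟩ := h1
  refine ⟨f, hf, fun n => ?_⟩
  have h2 := exq_W (P := Q) i (n + M0 Q i)
  rw [if_pos (Nat.le_add_left _ _), Nat.add_sub_cancel, hf, exq_C_X_pow_mul,
    if_pos (Nat.le_add_left _ _), Nat.add_sub_cancel] at h2
  exact h2

section Prod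

variable {Q : Type u} [Fintype Q] [PartialOrder Q] [DecidableEq Q]
variable {ι : Type*} [Fintype ι] [DecidableEq ι] (c : Q → ι) (hc : ∀ x y, x ≤ y → c x = c y)

include hc in
lemma M0_prod (i : ℕ) : M0 Q i = ∑ k, M0 {x : Q // c x = k} i := by
  classical
  unfold M0
  rw [← Finset.sum_fiberwise (s := univ) (g := c)]
  refine Finset.sum_congr rfl fun k _ => ?_
  rw [Finset.sum_subtype (univ.filter (fun x => c x = k)) (p := fun x => c x = k) (by simp)]
  refine Finset.sum_congr rfl fun x _ => ?_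
  rw [lev_subtype (p := fun x => c x = k) (fun x y hxy hx => (hc x y hxy).symm.trans hx)]

include hc in
/-- the window sums of a disjoint union -/
theorem Z_prod (i : ℕ) (f : ι → Polynomial (PowerSeries ℤ))
    (hf : ∀ k, W {x : Q // c x = k} i = C (PowerSeries.X ^ M0 {x : Q // c x = k} i) * f k)
    (n : ℕ) : Z Q i n = exq n (∏ k, f k) := by
  obtain ⟨g, hg, hg'⟩ := exists_norm Q i
  have h1 := W_prod c hc i
  have h2 : ∏ k, W {x : Q // c x = k} i = C (PowerSeries.X ^ M0 Q i) * ∏ k, f k := by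
    rw [Finset.prod_congr rfl fun k _ => hf k, Finset.prod_mul_distrib, ← map_prod,
      Finset.prod_pow_eq_pow_sum, ← M0_prod c hc i]
  rw [h2, hg] at h1
  have h3 : (C (PowerSeries.X ^ M0 Q i) : Polynomial (PowerSeries ℤ)) ≠ 0 := by
    rw [Ne, Polynomial.C_eq_zero]
    exact pow_ne_zero _ PowerSeries.X_ne_zero
  rw [← hg' n, mul_left_cancel₀ h3 h1]

end Prod

/-- divisibility by `(1 + X) ^ b` below the energy `n0` -/
def Lo (n0 b : ℕ) (f : Polynomial (PowerSeries ℤ)) : Prop :=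
  ∀ n < n0, (1 + X : ℤ[X]) ^ b ∣ exq n f

lemma Lo.mul {n0 b b' : ℕ} {f g : Polynomial (PowerSeries ℤ)} (hf : Lo n0 b f) (hg : Lo n0 b' g) :
    Lo n0 (b + b') (f * g) := by
  intro n hn
  rw [exq_mul, pow_add]
  refine Finset.dvd_sum fun ab hab => ?_
  rw [HasAntidiagonal.mem_antidiagonal] at hab
  exact mul_dvd_mul (hf _ (by omega)) (hg _ (by omega))

lemma Lo.one (n0 : ℕ) : Lo n0 0 1 := by
  intro n _
  rw [pow_zero]
  exact one_dvd _

lemma Lo.prod {ι : Type*} {n0 : ℕ} {b : ι → ℕ} {f : ι → Polynomial (PowerSeries ℤ)}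
    (s : Finset ι) (h : ∀ k ∈ s, Lo n0 (b k) (f k)) : Lo n0 (∑ k ∈ s, b k) (∏ k ∈ s, f k) := by
  classical
  induction s using Finset.induction_on with
  | empty => exact Lo.one n0
  | insert a s ha ih =>
    rw [Finset.sum_insert ha, Finset.prod_insert ha]
    exact (h a (mem_insert_self a s)).mul (ih fun i hi => h i (mem_insert_of_mem hi))

/-- the first pole at the energy `n0`, relative value `ρ` -/
structure Pl (n0 b : ℕ) (ρ : ℤ) (f : Polynomial (PowerSeries ℤ)) : Prop where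
  low : Lo n0 b f
  one : 1 ≤ b
  ex : ∃ v s : ℤ[X], exq 0 f = (1 + X) ^ b * v ∧ v.eval (-1) ≠ 0 ∧
    (1 + X) ^ b ∣ exq n0 f - (1 + X) ^ (b - 1) * s ∧ s.eval (-1) = ρ * v.eval (-1)

lemma Pl.mul {n0 b b' : ℕ} {ρ ρ' : ℤ} {f g : Polynomial (PowerSeries ℤ)} (h0 : 1 ≤ n0)
    (hf : Pl n0 b ρ f) (hg : Pl n0 b' ρ' g) : Pl n0 (b + b') (ρ + ρ') (f * g) := by
  obtain ⟨v, s, hv, hv1, hs, hs1⟩ := hf.ex
  obtain ⟨v', s', hv', hv1', hs', hs1'⟩ := hg.ex
  have hb := hf.one
  have hb' := hg.one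
  refine ⟨hf.low.mul hg.low, by omega, v * v', v * s' + s * v', ?_, ?_, ?_, ?_⟩
  · rw [exq_mul, Finset.Nat.antidiagonal_zero, Finset.sum_singleton, hv, hv', pow_add]
    ring
  · rw [eval_mul]
    exact mul_ne_zero hv1 hv1'
  · obtain ⟨m, rfl⟩ : ∃ m, n0 = m + 1 := ⟨n0 - 1, by omega⟩
    obtain ⟨c, rfl⟩ : ∃ c, b = c + 1 := ⟨b - 1, by omega⟩
    obtain ⟨c', rfl⟩ : ∃ c', b' = c' + 1 := ⟨b' - 1, by omega⟩
    rw [Nat.add_sub_cancel] at hs hs'
    rw [show c + 1 + (c' + 1) - 1 = c + c' + 1 by omega]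
    have h1 : exq (m + 1) (f * g) - (1 + X) ^ (c + c' + 1) * (v * s' + s * v') =
        exq 0 f * (exq (m + 1) g - (1 + X) ^ c' * s') +
        (exq (m + 1) f - (1 + X) ^ c * s) * exq 0 g +
        ∑ ab ∈ ((antidiagonal (m + 1)).erase (0, m + 1)).erase (m + 1, 0),
          exq ab.1 f * exq ab.2 g := by
      rw [exq_mul, ← Finset.add_sum_erase _ _ (a := (0, m + 1)) (by simp),
        ← Finset.add_sum_erase ((antidiagonal (m + 1)).erase (0, m + 1)) _ (a := (m + 1, 0))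
          (by simp), hv, hv']
      simp only
      ring
    rw [h1]
    refine dvd_add (dvd_add ?_ ?_) (Finset.dvd_sum fun ab hab => ?_)
    · rw [pow_add]
      exact mul_dvd_mul (Dvd.intro _ hv.symm) hs'
    · rw [pow_add]
      exact mul_dvd_mul hs (Dvd.intro _ hv'.symm)
    · rw [mem_erase, mem_erase, HasAntidiagonal.mem_antidiagonal] at hab
      obtain ⟨h2, h3, h4⟩ := hab
      have h5 : ab.1 ≠ 0 := by
        intro h
        refine h3 (Prod.ext h ?_)
        simp only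
        omega
      have h6 : ab.2 ≠ 0 := by
        intro h
        refine h2 (Prod.ext ?_ h)
        simp only
        omega
      rw [pow_add]
      exact mul_dvd_mul (hf.low _ (by omega)) (hg.low _ (by omega))
  · rw [eval_add, eval_mul, eval_mul, eval_mul, hs1, hs1']
    ring

lemma Pl.prod {ι : Type*} {n0 : ℕ} (h0 : 1 ≤ n0) {b : ι → ℕ} {ρ : ι → ℤ}
    {f : ι → Polynomial (PowerSeries ℤ)} (s : Finset ι) (hs : s.Nonempty)
    (h : ∀ k ∈ s, Pl n0 (b k) (ρ k) (f k)) :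
    Pl n0 (∑ k ∈ s, b k) (∑ k ∈ s, ρ k) (∏ k ∈ s, f k) := by
  classical
  induction hs using Finset.Nonempty.cons_induction with
  | singleton a => simpa using h a (by simp)
  | cons a s ha _ ih =>
    rw [Finset.sum_cons, Finset.sum_cons, Finset.prod_cons]
    exact (h a (mem_cons_self a s)).mul h0 (ih fun i hi => h i (mem_cons_of_mem hi))

lemma Pl.not_dvd {n0 b : ℕ} {ρ : ℤ} {f : Polynomial (PowerSeries ℤ)} (h : Pl n0 b ρ f)
    (hρ : ρ ≠ 0) : ¬ (1 + X : ℤ[X]) ^ b ∣ exq n0 f := by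
  intro hd
  obtain ⟨v, s, -, hv1, hs, hs1⟩ := h.ex
  have h1 : (1 + X : ℤ[X]) ^ b ∣ (1 + X) ^ (b - 1) * s := by
    have := dvd_sub hd hs
    rwa [sub_sub_cancel] at this
  have hb := h.one
  obtain ⟨c, rfl⟩ : ∃ c, b = c + 1 := ⟨b - 1, by omega⟩
  rw [Nat.add_sub_cancel, pow_succ] at h1
  have h2 : ((1 : ℤ[X]) + X) ^ c ≠ 0 := by
    intro h6
    have := congrArg (fun f : ℤ[X] => f.eval 1) h6
    simp only [eval_pow, eval_add, eval_one, eval_X, eval_zero] at this
    norm_num at this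
  obtain ⟨w, hw⟩ := (mul_dvd_mul_iff_left h2).mp h1
  rw [hw, eval_mul, eval_add, eval_one, eval_X, add_neg_cancel, zero_mul] at hs1
  exact (mul_ne_zero hρ hv1) hs1.symm

/-- exact order: no pole -/
lemma Pl.of_dvd {n0 b : ℕ} {f : Polynomial (PowerSeries ℤ)} (hb : 1 ≤ b) {m : ℕ}
    (h : ∀ n, (1 + X : ℤ[X]) ^ b ∣ exq n f) (h0 : exq 0 f = X ^ m * (1 + X) ^ b) :
    Pl n0 b 0 f := by
  refine ⟨fun n _ => h n, hb, X ^ m, 0, by rw [h0, mul_comm], ?_, ?_, ?_⟩
  · rw [eval_pow, eval_X]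
    exact pow_ne_zero _ (by norm_num)
  · rw [mul_zero, sub_zero]
    exact h n0
  · rw [eval_zero, zero_mul]

end Pool.Agent.GaussPoset.Dd

end

/-! From `Pool.Agent.W_448dd_h67.DdD` -/

section

/-!
The first pole of coded up-sets: window sums.
-/

namespace Pool.Agent.GaussPoset.Dd

set_option linter.unusedSectionVars false

open Polynomial Finset Cl

universe u

lemma coe_X_pow_sub_one (a : ℕ) : ((X ^ a - 1 : ℤ[X]) : PowerSeries ℤ) =
    PowerSeries.X ^ a - 1 := by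
  have h := Polynomial.coeToPowerSeries.ringHom_apply (R := ℤ) (φ := X ^ a - 1)
  rw [map_sub, map_pow, map_one, Polynomial.coeToPowerSeries.ringHom_apply, Polynomial.coe_X] at h
  exact h.symm

lemma Lead.cprod {n : ℕ} {f : ℕ → ℤ[X]} {c : ℤ} (h : ∀ k, Lead ((f k : ℤ[X]) : PowerSeries ℤ) 0 c) :
    Lead ((∏ k ∈ range n, f k : ℤ[X]) : PowerSeries ℤ) 0 (c ^ n) := by
  have h1 := Lead.prod (range n) (f := fun k => ((f k : ℤ[X]) : PowerSeries ℤ)) (N := fun _ => 0)
    (c := fun _ => c) (fun k _ => h k)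
  rw [Finset.sum_const_zero, Finset.prod_const, card_range] at h1
  have h2 := map_prod (Polynomial.coeToPowerSeries.ringHom (R := ℤ)) f (range n)
  simp only [Polynomial.coeToPowerSeries.ringHom_apply] at h2
  rw [h2]
  exact h1

lemma lead_Zo (ℓ M i0 : ℕ) : Lead ((Zo ℓ M i0 1 : ℤ[X]) : PowerSeries ℤ) (tri (M + 1))
    ((-1) ^ (ℓ + M) * (-1) ^ M * (-1) ^ (M + 1)) := by
  unfold Zo
  rw [pow_one, Polynomial.coe_mul, Polynomial.coe_mul, Polynomial.coe_mul, Polynomial.coe_pow,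
    Polynomial.coe_X]
  have h1 : ∀ a : ℕ, 1 ≤ a → Lead ((X ^ a - 1 : ℤ[X]) : PowerSeries ℤ) 0 (-1) := by
    intro a ha
    rw [coe_X_pow_sub_one]
    exact Lead.sub_one ha
  have h := (((Lead.X_pow (tri (M + 1))).mul
    (Lead.cprod (n := ℓ + M) (f := fun k => X ^ (k + 1) - 1) fun k => h1 _ (by omega))).mul
    (Lead.cprod (n := M) (f := fun k => X ^ (k + 1) - 1) fun k => h1 _ (by omega))).mul
    (Lead.cprod (n := M + 1) (f := fun k => X ^ (k + 1 + i0) - 1) fun k => h1 _ (by omega))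
  rw [Nat.add_zero, Nat.add_zero, Nat.add_zero, one_mul] at h
  exact h

section Val

variable {Q : Type u} [Fintype Q] [PartialOrder Q] [DecidableEq Q] {ℓ M i0 : ℕ}

/-- the exponent of the denominators -/
def e1 (ℓ M i0 : ℕ) : ℕ := i0 + ∑ k ∈ (range ℓ).erase i0, (i0 + k) + tri (M + 1) + i0 * (M + 1)

/-- the exponent of the numerators -/
def e2 (ℓ i0 n : ℕ) : ℕ := i0 * n + ∑ k ∈ (range ℓ).erase i0, min k i0 + 0 + i0 + ∑ k ∈ range ℓ, k

/-- the sign -/
def sgn (ℓ M i0 : ℕ) : ℤ := (-1) ^ M * ((-1) ^ (ℓ + M) * (-1) ^ M * (-1) ^ (M + 1)) *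
  ∏ k ∈ (range ℓ).erase i0, (if k < i0 then 1 else -1)

/-- the lowest term of `W / (1 + X)` at `-1` -/
theorem lead_V (hx : ∀ i < ℓ, ∃ x : Q, i ≤ lev x) (hc : Fintype.card Q ≤ ℓ + M) (hi0 : i0 < ℓ)
    {V : Polynomial (PowerSeries ℤ)} (hV : W Q i0 = (1 + X) * V) {n3 : ℕ} {c : ℤ}
    (h1 : X ^ n3 ∣ (∑ m ∈ range (M + 1), (-1) ^ m * (U Q m * Eo ℓ M i0 1 m)))
    (h2 : (∑ m ∈ range (M + 1), (-1) ^ m * (U Q m * Eo ℓ M i0 1 m)).coeff n3 = c)
    {N : ℕ} (hN : N + e1 ℓ M i0 = e2 ℓ i0 (Fintype.card Q) + n3) :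
    Lead (V.eval (-1)) N (sgn ℓ M i0 * c) := by
  have key := V_value hx hc hi0 hV
  have hD : Lead (PowerSeries.X ^ i0 * (∏ k ∈ (range ℓ).erase i0, PowerSeries.X ^ (i0 + k)) *
      (((-1) ^ M * Zo ℓ M i0 1 : ℤ[X]) : PowerSeries ℤ) * PowerSeries.X ^ (i0 * (M + 1)))
      (e1 ℓ M i0) (1 * (∏ _k ∈ (range ℓ).erase i0, 1) *
        ((-1) ^ M * ((-1) ^ (ℓ + M) * (-1) ^ M * (-1) ^ (M + 1))) * 1) := by
    refine (((Lead.X_pow i0).mul (Lead.prod _ fun k _ => Lead.X_pow (i0 + k))).mul ?_).mul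
      (Lead.X_pow _)
    rw [Polynomial.coe_mul]
    have h3 : Lead (((-1) ^ M : ℤ[X]) : PowerSeries ℤ) 0 ((-1) ^ M) := by
      refine ⟨((-1) ^ M : PowerSeries ℤ), ?_, ?_⟩
      · rw [pow_zero, one_mul, Polynomial.coe_pow, Polynomial.coe_neg, Polynomial.coe_one]
      · rw [map_pow, map_neg, map_one]
    have h4 := h3.mul (lead_Zo ℓ M i0)
    rw [Nat.zero_add] at h4
    exact h4
  have hE := ((((Lead.X_pow (i0 * Fintype.card Q)).mul
    (Lead.prod ((range ℓ).erase i0) (f := fun k => PowerSeries.X ^ k - PowerSeries.X ^ i0)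
      (N := fun k => min k i0) (c := fun k => if k < i0 then 1 else -1)
      fun k hk => Lead.sub (mem_erase.mp hk).1)).mul
    (Lead.prod (range (M + 1)) (f := fun m => 1 - PowerSeries.X ^ (m + 1 + i0))
      (N := fun _ => 0) (c := fun _ => 1) fun m _ => Lead.one_sub (by omega))).mul
    (Lead.X_pow i0)).mul (Lead.prod (range ℓ) (f := fun k => PowerSeries.X ^ k)
      (N := fun k => k) (c := fun _ => 1) fun k _ => Lead.X_pow k) |>.mul (Lead.coe h1 h2)
  have hsq : ∀ n : ℕ, ((-1 : ℤ) ^ n) * (-1) ^ n = 1 := by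
    intro n
    rw [← mul_pow]
    simp
  have hfin := Lead.div (N := N) key hD ?_ hE ?_
  · convert hfin using 1
    unfold sgn
    rw [Finset.prod_const_one, Finset.prod_const_one, Finset.prod_const_one]
    ring
  · rw [Finset.prod_const_one]
    generalize hM : (-1 : ℤ) ^ M = a
    generalize hL : (-1 : ℤ) ^ (ℓ + M) = b
    generalize hM1 : (-1 : ℤ) ^ (M + 1) = d
    have ha : a * a = 1 := by rw [← hM]; exact hsq M
    have hb : b * b = 1 := by rw [← hL]; exact hsq _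
    have hd : d * d = 1 := by rw [← hM1]; exact hsq _
    calc (1 * 1 * (a * (b * a * d)) * 1) * (1 * 1 * (a * (b * a * d)) * 1) =
          (a * a) * (a * a) * (b * b) * (d * d) := by ring
      _ = 1 := by rw [ha, hb, hd]; norm_num
  · rw [hN]
    unfold e2
    rw [Finset.sum_const_zero]

lemma coeff_eval_neg_one (N : ℕ) (f : Polynomial (PowerSeries ℤ)) :
    PowerSeries.coeff N (f.eval (-1)) = (exq N f).eval (-1) := by
  rw [Polynomial.eval_eq_sum_range' (n := max (f.natDegree + 1)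
    ((exq N f).natDegree + 1)) (by omega), Polynomial.eval_eq_sum_range'
    (n := max (f.natDegree + 1) ((exq N f).natDegree + 1)) (by omega), map_sum]
  refine Finset.sum_congr rfl fun k _ => ?_
  rw [coeff_exq]
  have h3 : ((-1 : PowerSeries ℤ) ^ k) = PowerSeries.C ((-1 : ℤ) ^ k) := by simp
  rw [h3, mul_comm, PowerSeries.coeff_C_mul, mul_comm]

/-- from the lowest term to the window sums -/
theorem Z_of_lead {V : Polynomial (PowerSeries ℤ)} (hV : W Q i0 = (1 + X) * V) {n0 : ℕ} {c : ℤ}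
    (h : Lead (V.eval (-1)) (M0 Q i0 + n0) c) :
    (∀ n < n0, (1 + X : ℤ[X]) ^ 2 ∣ Z Q i0 n) ∧
      ∃ s : ℤ[X], Z Q i0 n0 = (1 + X) * s ∧ s.eval (-1) = c := by
  have hZ : ∀ n, Z Q i0 n = (1 + X) * exq (M0 Q i0 + n) V := by
    intro n
    have h2 := exq_W (P := Q) i0 (M0 Q i0 + n)
    rw [if_pos (Nat.le_add_right _ _), Nat.add_sub_cancel_left, hV] at h2
    have h3 : ((1 : Polynomial (PowerSeries ℤ)) + X) =
        ((1 + X : ℤ[X])).map (PowerSeries.C : ℤ →+* PowerSeries ℤ) := by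
      rw [Polynomial.map_add, Polynomial.map_one, Polynomial.map_X]
    rw [h3, exq_map_mul] at h2
    exact h2.symm
  obtain ⟨g, hg, hg2⟩ := h
  refine ⟨fun n hn => ?_, exq (M0 Q i0 + n0) V, hZ n0, ?_⟩
  · rw [hZ n, pow_two]
    refine mul_dvd_mul_left _ ?_
    have h1 : (exq (M0 Q i0 + n) V).IsRoot (-1) := by
      show (exq (M0 Q i0 + n) V).eval (-1) = 0
      rw [← coeff_eval_neg_one, hg, PowerSeries.coeff_X_pow_mul', if_neg (by omega)]
    have h2 := Polynomial.dvd_iff_isRoot.mpr h1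
    rwa [map_neg, map_one, sub_neg_eq_add, add_comm] at h2
  · rw [← coeff_eval_neg_one, hg, PowerSeries.coeff_X_pow_mul', if_pos le_rfl, Nat.sub_self,
      PowerSeries.coeff_zero_eq_constantCoeff, hg2]

end Val

end Pool.Agent.GaussPoset.Dd

end

/-! From `Pool.Agent.W_448dd_h67.DdE` -/

section

/-!
The first pole of coded up-sets: from the check to the window sums.
-/

namespace Pool.Agent.GaussPoset.Dd

set_option linter.unusedSectionVars false

open Polynomial Finset Cl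

universe u

/-- the check: `(J, ℓ, M, n3)`, lowest coefficient one -/
def polChk (N B K : ℕ) (Us : List ℕ) (i0 : ℕ) (PL : List (ℕ × ℕ × ℕ × ℕ)) : Bool :=
  ((fun h => PL.all fun x => chkL B i0 h (decide (x.2.2.1 % 2 = 0)) x.1 x.2.1 x.2.2.1
    (x.2.2.2 + pc N x.1) 1) (hist (ws N B Us) K (stp (ws N B Us) (ini Us)))) &&
  ((fun h => PL.all fun x => chkS B 1 h x.1 x.2.2.1)
    (hist (ws N 1 Us) K (stp (ws N 1 Us) (ini Us))))

/-- the numerical conditions -/
def numChk (N K i0 n0 : ℕ) (lv : ℕ → ℕ) (x : ℕ × ℕ × ℕ × ℕ) : Bool :=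
  Nat.ble x.2.2.1 K && Nat.blt i0 x.2.1 && Nat.ble (pc N x.1) (x.2.1 + x.2.2.1) &&
  ((List.range N).any fun a => x.1.testBit a && Nat.ble x.2.1 (lv a + 1)) &&
  decide (∑ a ∈ (range N).filter (fun a => x.1.testBit a = true), min i0 (lv a) + n0 +
    e1 x.2.1 x.2.2.1 i0 = e2 x.2.1 i0 (pc N x.1) + x.2.2.2)

variable {P : Type u} [Fintype P] [PartialOrder P] [DecidableEq P]
variable {n N : ℕ} {cv lv : ℕ → ℕ} {c : ℕ → P} {Us : List ℕ}

lemma cod_sum_lev (C : Cod n cv lv c) {J : ℕ} (g : ℕ → ℕ) :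
    ∑ x ∈ toS n c J, g (GaussPoset.lev x) =
      ∑ a ∈ (range n).filter (fun a => J.testBit a = true), g (lv a) := by
  classical
  unfold toS
  rw [Finset.sum_image]
  · refine Finset.sum_congr rfl fun a ha => ?_
    rw [mem_filter, mem_range] at ha
    rw [C.lev a ha.1]
  · intro a ha b hb h
    rw [Finset.mem_coe, mem_filter, mem_range] at ha hb
    exact C.inj a ha.1 b hb.1 h

lemma filter_stable {n N J : ℕ} (hn : n ≤ N) (hJ : J < 2 ^ n) :
    (range N).filter (fun a => J.testBit a = true) =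
      (range n).filter (fun a => J.testBit a = true) := by
  ext a
  rw [mem_filter, mem_filter, mem_range, mem_range]
  refine ⟨fun h => ⟨?_, h.2⟩, fun h => ⟨by omega, h.2⟩⟩
  by_contra hcon
  rw [Nat.testBit_lt_two_pow (lt_of_lt_of_le hJ (Nat.pow_le_pow_right (by norm_num)
    (by omega)))] at h
  exact absurd h.2 (by simp)

/-- the first pole of a coded up-set -/
theorem cod_pole (C : Cod n cv lv c) (hU : UsOK N cv Us) (hn : n ≤ N) {B i0 K n0 : ℕ}
    {PL : List (ℕ × ℕ × ℕ × ℕ)} (h : polChk N B K Us i0 PL = true) {x : ℕ × ℕ × ℕ × ℕ}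
    (hx : x ∈ PL) (hJ : x.1 ∈ Us) (hJn : x.1 < 2 ^ n) (hnum : numChk N K i0 n0 lv x = true) :
    (∀ n' < n0, (1 + X : ℤ[X]) ^ 2 ∣ Z {y : P // y ∈ toS n c x.1} i0 n') ∧
      ∃ s : ℤ[X], Z {y : P // y ∈ toS n c x.1} i0 n0 = (1 + X) * s ∧
        s.eval (-1) = sgn x.2.1 x.2.2.1 i0 := by
  obtain ⟨J, ℓ, M, n3⟩ := x
  simp only at hx hJ hJn ⊢
  unfold numChk at hnum
  simp only [Bool.and_eq_true] at hnum
  obtain ⟨⟨⟨⟨g1, g2⟩, g3⟩, g4⟩, g5⟩ := hnum
  have g1 := Nat.le_of_ble_eq_true g1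
  have g2 := Nat.blt_eq.mp g2
  have g3 := Nat.le_of_ble_eq_true g3
  have g5 := of_decide_eq_true g5
  rw [List.any_eq_true] at g4
  obtain ⟨a, ha, hab⟩ := g4
  rw [Bool.and_eq_true] at hab
  unfold polChk at h
  rw [Bool.and_eq_true] at h
  obtain ⟨h1, h2⟩ := h
  rw [hist_one hU] at h1 h2
  simp only [List.all_eq_true] at h1 h2
  have k1 := h1 _ hx
  have k2 := h2 _ hx
  simp only at k1 k2 g1 g2 g3 g5 hab
  have hup := C.up hU hn hJ
  have h5 : ∀ m, U {x : P // x ∈ toS n c J} m =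
      (uR N (X : ℕ[X]) Us J m).map (Nat.castRingHom ℤ) := fun m => by
    rw [U_eq_V hup, C.V_eq hU hn m J hJ hJn]
  have hlow := poly_low (n := N) (ℓ := ℓ) hJ g1 rfl k1 k2
  simp only [← h5] at hlow
  have han : a < n := by
    by_contra hcon
    rw [Nat.testBit_lt_two_pow (lt_of_lt_of_le hJn (Nat.pow_le_pow_right (by norm_num)
      (by omega)))] at hab
    exact absurd hab.1 (by simp)
  have hlv : ∀ x : {x : P // x ∈ toS n c J}, GaussPoset.lev x = GaussPoset.lev (x : P) :=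
    lev_subtype (p := fun x => x ∈ toS n c J) (fun x y hxy hx => hup x hx y hxy)
  have hxx : ∀ i < ℓ, ∃ x : {x : P // x ∈ toS n c J}, i ≤ GaussPoset.lev x := by
    intro i hi
    refine ⟨⟨c a, (C.mem_iff han).mpr hab.1⟩, ?_⟩
    rw [hlv, C.lev a han]
    have := Nat.le_of_ble_eq_true hab.2
    omega
  have hcd : Fintype.card {x : P // x ∈ toS n c J} = pc N J := by
    rw [Fintype.card_coe, C.card, ← pc_stable hn hJn]
  obtain ⟨V, hV⟩ := dvd_W_one (Q := {x : P // x ∈ toS n c J}) (i := i0) (hxx i0 g2)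
  have hM0 : M0 {x : P // x ∈ toS n c J} i0 =
      ∑ a ∈ (range N).filter (fun a => J.testBit a = true), min i0 (lv a) := by
    rw [filter_stable hn hJn, ← cod_sum_lev C (fun l => min i0 l)]
    unfold M0
    rw [← Finset.sum_coe_sort (toS n c J)]
    exact Finset.sum_congr rfl fun x _ => by rw [hlv]
  have hL := lead_V hxx (by rw [hcd]; exact g3) g2 hV hlow.1 hlow.2
    (N := M0 {x : P // x ∈ toS n c J} i0 + n0) (by rw [hM0, hcd]; exact g5)
  rw [Nat.cast_one, mul_one] at hL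
  exact Z_of_lead hV hL

end Pool.Agent.GaussPoset.Dd

end

/-! From `Pool.Agent.W_448dd_h67.DdH` -/

section

/-!
The window theorem at the energy of the first pole of a component.
-/

namespace Pool.Agent.GaussPoset.Dd

set_option linter.unusedSectionVars false

open Polynomial Finset

universe u

variable {P : Type u} [Fintype P] [PartialOrder P] [DecidableEq P]
variable {ι : Type*}

/-- component data, order `b` below the energy `n0` only -/
structure CompDataL (R : Finset P) (cp : P → ι) (k : ι) (i b n0 : ℕ) (θ : P → ℕ)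
    (B : P → Prop) : Prop where
  clean : ∀ D, Good i R B D → ∀ _ : DecidableEq ι, ∀ n < n0,
    (1 + X : ℤ[X]) ^ b ∣ Z {x : {x : P // x ∉ D} // cp (x : P) = k} i n
  lev : ∀ x, x ∉ R → cp x = k → 1 ≤ θ x → i < lev x
  base : ∀ x, x ∉ R → cp x = k → 1 ≤ θ x → ∀ y ≤ x, y ∉ R → ¬ B y
  step : ∀ x, x ∉ R → cp x = k → 1 ≤ θ x → ∀ y ≤ x, y ∉ R → ∀ x', x' ∉ R → y ⋖ x' →
    ¬ x' ≤ x → θ x ≤ θ x' + 1
  le : ∀ x, x ∉ R → cp x = k → θ x ≤ Pool.Agent.GaussPoset.lev x - i

lemma CompDataL.of {R : Finset P} {cp : P → ι} {k : ι} {i b : ℕ} {θ : P → ℕ} {B : P → Prop}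
    (H : CompData R cp k i b θ B) (n0 : ℕ) : CompDataL R cp k i b n0 θ B where
  clean := fun D hD hdec n _ => dvd_Z_of_dvd_W (H.clean D hD hdec) n
  lev := H.lev
  base := H.base
  step := H.step
  le := H.le

/-- a larger excluded set -/
lemma CompData.mono {R R' : Finset P} {cp : P → ι} {k : ι} {i b : ℕ} {θ : P → ℕ} {B : P → Prop}
    (H : CompData R cp k i b θ B) (h : R ⊆ R') : CompData R' cp k i b θ B where
  clean := fun D hD => H.clean D ⟨hD.1, h.trans hD.2.1, hD.2.2⟩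
  lev := fun x hx => H.lev x fun h' => hx (h h')
  base := fun x hx hk h1 y hy hyR => H.base x (fun h' => hx (h h')) hk h1 y hy
    fun h' => hyR (h h')
  step := fun x hx hk h1 y hy hyR x' hx' => H.step x (fun h' => hx (h h')) hk h1 y hy
    (fun h' => hyR (h h')) x' fun h' => hx' (h h')
  le := fun x hx => H.le x fun h' => hx (h h')

section Assembly

variable [Fintype ι] [DecidableEq ι] {i n0 : ℕ} {R : Finset P}
  (hR : ∀ x y, x ≤ y → y ∈ R → x ∈ R) (hRlev : ∀ x ∈ R, i < lev x)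
  (cp : P → ι) (hcp : ∀ x y, x ≤ y → x ∉ R → cp x = cp y) (b : ι → ℕ) (θ : P → ℕ)
  (B : P → Prop) (hBR : ∀ x ∈ R, ¬ B x)
  (H : ∀ k, CompDataL R cp k i (b k) n0 θ B)

include hcp H in
lemma clean_good {D : Finset P} (hD : Good i R B D) : ∀ n < n0,
    (1 + X : ℤ[X]) ^ (∑ k, b k) ∣ ZB i D 0 0 n := by
  intro n hn
  rw [ZB_off hD.1 hD.2.2.1]
  have hc : ∀ x y : {x : P // x ∉ D}, x ≤ y → cp (x : P) = cp (y : P) := fun x y hxy =>
    hcp x y hxy fun h => x.2 (hD.2.1 h)
  choose f hf hf' using fun k => exists_norm {x : {x : P // x ∉ D} // cp (x : P) = k} i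
  rw [Z_prod (fun x : {x : P // x ∉ D} => cp (x : P)) hc i f hf n]
  refine Lo.prod (n0 := n0) univ (fun k _ n' hn' => ?_) n hn
  rw [hf']
  exact (H k).clean D hD inferInstance n' hn'

include hR hRlev hcp hBR H in
/-- frozen labels on `R`, energies below `n0` plus the sum of the labels -/
theorem labelsL (g : P → ℕ) (hg0 : ∀ x, x ∉ R → g x = 0)
    (hg : ∀ y ∈ R, ∀ x, x ∉ R → y ⋖ x → g y ≤ θ x) (n : ℕ) (hn : n < n0 + ∑ x ∈ R, g x) :
    (1 + X : ℤ[X]) ^ (∑ k, b k) ∣ ZB i R g 0 n := by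
  classical
  let θ' : P → ℕ := fun x => if x ∈ R then 0 else θ x
  have hθ' : ∀ x, x ∉ R → θ' x = θ x := fun x hx => if_neg hx
  have hθ0 : ∀ x, 1 ≤ θ' x → x ∉ R := by
    intro x hx hxR
    have : θ' x = 0 := if_pos hxR
    omega
  have hlow : ∀ D ∈ {D | Good i R B D}, ∀ x y, x ≤ y → y ∈ D → x ∈ D := fun D hD => hD.1
  have hlev : ∀ D ∈ {D | Good i R B D}, ∀ x ∈ D, i < lev x := fun D hD => hD.2.2.1
  have hRR : R ∈ {D | Good i R B D} := ⟨hR, Subset.refl R, hRlev, hBR⟩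
  have key : ∀ D ∈ {D | Good i R B D}, ∀ β : P → ℕ, (∀ x, x ∉ D → β x ≤ θ' x) → ∀ n < n0,
      (1 + X : ℤ[X]) ^ (∑ k, b k) ∣ ZB i D 0 β n := by
    refine dvd_ZB_bounds_lt i _ n0 {D | Good i R B D} θ' hlow hlev ?_ ?_ ?_ ?_
    · intro x hx
      have hxR := hθ0 x hx
      rw [hθ' x hxR] at hx
      exact (H (cp x)).lev x hxR rfl hx
    · intro D hD n hn
      exact clean_good cp hcp b θ B H hD n hn
    · intro D hD x hx hθx
      have hxR := hθ0 x hθx
      rw [hθ' x hxR] at hθx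
      have hlx := (H (cp x)).lev x hxR rfl hθx
      refine ⟨?_, hD.2.1.trans subset_union_left, ?_, ?_⟩
      · intro a c hac hc
        rw [mem_union, mem_dnf] at hc ⊢
        rcases hc with hc | hc
        · exact Or.inl (hD.1 a c hac hc)
        · exact Or.inr (hac.trans hc)
      · intro a ha
        rw [mem_union, mem_dnf] at ha
        rcases ha with ha | ha
        · exact hD.2.2.1 a ha
        · rcases eq_or_lt_of_le ha with h | h
          · rw [h]; exact hlx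
          · have := lev_strictAnti h; omega
      · intro a ha
        rw [mem_union, mem_dnf] at ha
        rcases ha with ha | ha
        · exact hD.2.2.2 a ha
        · by_cases haR : a ∈ R
          · exact hBR a haR
          · exact (H (cp x)).base x hxR rfl hθx a ha haR
    · intro D hD x hx hθx y hyx hyD x' hyx' hx'x
      have hxR := hθ0 x hθx
      have hyR : y ∉ R := fun h => hyD (hD.2.1 h)
      have hx'R : x' ∉ R := fun h => hyR (hR y x' hyx'.1.le h)
      rw [hθ' x hxR] at hθx ⊢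
      rw [hθ' x' hx'R]
      exact (H (cp x)).step x hxR rfl hθx y hyx hyR x' hx'R hyx' hx'x
  by_cases hc : ∀ x ∈ R, ∀ y ∈ R, x ≤ y → g x ≤ g y
  · by_cases hn2 : n < ∑ x ∈ R, g x
    · rw [ZB_zero_of_lt 0 n hn2]; exact dvd_zero _
    · have hs : ∑ x ∈ R, g x = ∑ x, g x :=
        Finset.sum_subset (subset_univ R) fun x _ hx => hg0 x hx
      obtain ⟨m, rfl⟩ : ∃ m, n = m + ∑ x, g x := ⟨n - ∑ x, g x, by omega⟩
      rw [ZB_shift 0 hR hRlev hg0 hc]
      refine key R hRR _ (fun x hx => ?_) m (by omega)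
      refine bg_le (Nat.zero_le _) fun y hy hyx => ?_
      rw [hθ' x hx]
      exact hg y hy x hx hyx
  · rw [ZB_zero_of_not_compat 0 hRlev hc]; exact dvd_zero _

include hR hRlev hcp hBR H in
/-- truncated data -/
theorem farT_L (hgr : GradedBelow P) : FarT P i R (∑ k, b k) (hcan R θ) n0 where
  graded := hgr
  hlev := hRlev
  clean := by
    intro g hg0 hg n hn
    refine labelsL hR hRlev cp hcp b θ B hBR H g hg0 ?_ n (by omega)
    intro y hy x hx hyx
    have h1 : y ∈ bdR R := by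
      classical
      exact mem_filter.mpr ⟨hy, x, hx, hyx⟩
    have h2 := hg y h1
    have h3 := hcan_le (θ := θ) hx hyx
    omega
  one_le := by
    intro z hz
    obtain ⟨x, -, -, hx⟩ := hcan_spec (θ := θ) hz
    omega
  le_lev := by
    classical
    intro z hz
    obtain ⟨x, hxR, hzx, hx⟩ := hcan_spec (θ := θ) hz
    have h1 := hgr.lev_covBy hzx
    have h2 := (H (cp x)).le x hxR rfl
    have h3 := hRlev z (mem_filter.mp hz).1
    omega

end Assembly

section Split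

variable {i : ℕ} {R : Finset P} {h : P → ℕ}

/-- the part without dangerous elements -/
lemma ND_sub (hlev : ∀ x ∈ R, i < lev x) (h1 : ∀ z ∈ bdR R, 1 ≤ h z) (p : ℤ[X]) (n : ℕ)
    (hcl : ∀ g : P → ℕ, (∀ x, x ∉ R → g x = 0) → (∀ z ∈ bdR R, g z < h z) →
      1 ≤ ∑ x ∈ R, g x → p ∣ ZB i R g 0 n) :
    p ∣ ND i R h n - ZB i R 0 0 n := by
  classical
  let Gs : Finset (P → ℕ) := Fintype.piFinset (fun _ => range (n + 1))
  let Gg : (P → ℕ) → Prop := fun g => (∀ x, x ∉ R → g x = 0) ∧ ∀ z ∈ bdR R, g z < h z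
  have key : ND i R h n = ∑ g ∈ Gs, if Gg g then ZB i R g 0 n else 0 := by
    have h1 : ∀ g ∈ Gs, (if Gg g then ZB i R g 0 n else 0) = ∑ F : Finset P,
        ∑ _e ∈ ((univ : Finset P).piAntidiag n).filter (fun e => Gg g ∧ Cst i R g 0 e F),
          (X : ℤ[X]) ^ F.card := by
      intro g _
      split_ifs with hg
      · unfold ZB
        refine Finset.sum_congr rfl fun F _ => ?_
        refine Finset.sum_congr (Finset.filter_congr fun e _ => ?_) (fun _ _ => rfl)
        exact ⟨fun h => ⟨hg, h⟩, fun h => h.2⟩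
      · symm
        refine Finset.sum_eq_zero fun F _ => ?_
        rw [Finset.filter_eq_empty_iff.mpr (fun e _ h => hg h.1), Finset.sum_empty]
    rw [Finset.sum_congr rfl h1, Finset.sum_comm]
    unfold ND
    refine Finset.sum_congr rfl fun F _ => ?_
    have hmaps : ∀ e ∈ ((univ : Finset P).piAntidiag n).filter
        (fun e => Vd i e F ∧ ∀ z ∈ bdR R, ¬ Dgz h e F z),
        (fun x => if x ∈ R then e x else 0) ∈ Gs := by
      intro e he
      rw [mem_filter, mem_piAntidiag] at he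
      rw [Fintype.mem_piFinset]
      intro x
      rw [mem_range]
      have h5 : e x ≤ ∑ y, e y := Finset.single_le_sum (fun y _ => Nat.zero_le _) (mem_univ x)
      have h6 : ∑ y, e y = n := he.1.1
      split_ifs <;> omega
    refine Eq.trans (Finset.sum_fiberwise_of_maps_to hmaps (fun _ => (X : ℤ[X]) ^ F.card)).symm ?_
    refine Finset.sum_congr rfl fun g _ => ?_
    refine Finset.sum_congr ?_ (fun _ _ => rfl)
    ext e
    simp only [mem_filter]
    constructor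
    · rintro ⟨⟨h5, h6, h7⟩, h8⟩
      have hRF := not_mem_of_not_dg hlev h6 h7
      have h9 : ∀ x, g x = if x ∈ R then e x else 0 := fun x => (congrFun h8 x).symm
      refine ⟨h5, ⟨?_, ?_⟩, h6, ?_, ?_⟩
      · intro x hx
        rw [h9 x, if_neg hx]
      · intro z hz
        have hzR : z ∈ R := (mem_filter.mp hz).1
        rw [h9 z, if_pos hzR]
        by_contra hcon
        exact h7 z hz (Or.inr (not_lt.mp hcon))
      · intro x hx
        exact ⟨hRF x hx, by rw [h9 x, if_pos hx]⟩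
      · intro x _ hxF
        simpa using h6.2.1 x hxF
    · rintro ⟨h5, ⟨h6, h7⟩, h8, h9, -⟩
      refine ⟨⟨h5, h8, ?_⟩, ?_⟩
      · intro z hz hd
        have hzR : z ∈ R := (mem_filter.mp hz).1
        rcases hd with hd | hd
        · exact (h9 z hzR).1 hd
        · rw [(h9 z hzR).2] at hd
          exact absurd (h7 z hz) (not_lt.mpr hd)
      · funext x
        split_ifs with hx
        · exact (h9 x hx).2
        · exact (h6 x hx).symm
  have h0G : (0 : P → ℕ) ∈ Gs := by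
    rw [Fintype.mem_piFinset]
    intro x
    rw [mem_range]
    exact Nat.succ_pos n
  have h0g : Gg 0 := ⟨fun _ _ => rfl, fun z hz => h1 z hz⟩
  rw [key, ← Finset.add_sum_erase Gs _ h0G, if_pos h0g, add_sub_cancel_left]
  refine Finset.dvd_sum fun g hg => ?_
  split_ifs with hgg
  · refine hcl g hgg.1 hgg.2 ?_
    by_contra hcon
    refine (mem_erase.mp hg).1 ?_
    have h3 : ∑ x ∈ R, g x = 0 := by omega
    rw [Finset.sum_eq_zero_iff] at h3
    funext x
    by_cases hx : x ∈ R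
    · exact h3 x hx
    · exact hgg.1 x hx
  · exact dvd_zero p

end Split

/-- **The energy of the first pole.**  If no boundary element costs `≤ n0` then the window sum
at `n0` is the one of the natural part. -/
theorem sub_natural [Fintype ι] [DecidableEq ι] {i n0 : ℕ} {R : Finset P}
    (hR : ∀ x y, x ≤ y → y ∈ R → x ∈ R) (hRlev : ∀ x ∈ R, i < lev x)
    (cp : P → ι) (hcp : ∀ x y, x ≤ y → x ∉ R → cp x = cp y) (b : ι → ℕ) (θ : P → ℕ)
    (B : P → Prop) (hBR : ∀ x ∈ R, ¬ B x)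
    (H : ∀ k, CompDataL R cp k i (b k) n0 θ B)
    (hcost : ∀ z ∈ bdR R, n0 < cst i (hcan R θ) z) :
    (1 + X : ℤ[X]) ^ (∑ k, b k) ∣ Z P i n0 - Z {x : P // x ∉ R} i n0 := by
  classical
  rw [Z_split i R (hcan R θ) n0, DG_eq_zero hRlev hcost, add_zero, ← ZB_off hR hRlev]
  refine ND_sub hRlev ?_ _ n0 ?_
  · intro z hz
    obtain ⟨x, -, -, hx⟩ := hcan_spec (θ := θ) hz
    omega
  · intro g hg0 hg hs
    refine labelsL hR hRlev cp hcp b θ B hBR H g hg0 ?_ n0 (by omega)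
    intro y hy x hx hyx
    have h1 : y ∈ bdR R := mem_filter.mpr ⟨hy, x, hx, hyx⟩
    have h2 := hg y h1
    have h3 := hcan_le (θ := θ) hx hyx
    omega

end Pool.Agent.GaussPoset.Dd

end

/-! From `Pool.Agent.W_448s8_h76.SaK` -/

section

/-!
Families of blockers (MP_448cb3_co, S8).
-/

namespace Pool.Agent.GaussPoset

set_option linter.unusedSectionVars false

open Polynomial Finset

universe u

variable {P : Type u} [Fintype P] [PartialOrder P] [DecidableEq P]

open Classical in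
/-- the window sum over the configurations in which an element of `A` is dangerous -/
noncomputable def ZF (i : ℕ) (h : P → ℕ) (A : Finset P) (n : ℕ) : ℤ[X] :=
  ∑ F : Finset P, ∑ _e ∈ ((univ : Finset P).piAntidiag n).filter
    (fun e => Vd i e F ∧ ∃ z ∈ A, Dgz h e F z), (X : ℤ[X]) ^ F.card

lemma ZF_singleton {i : ℕ} {h : P → ℕ} {z : P} (hz : i < lev z) (n : ℕ) :
    ZF i h {z} n = ZD i z (h z) n := by
  classical
  rw [ZD_eq hz]
  unfold ZF
  refine Finset.sum_congr rfl fun F _ => Finset.sum_congr ?_ (fun _ _ => rfl)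
  refine Finset.filter_congr fun e _ => ?_
  unfold Dgz
  simp

open Classical in
/-- both elements dangerous -/
noncomputable def ZP (i : ℕ) (h : P → ℕ) (z z' : P) (n : ℕ) : ℤ[X] :=
  ∑ F : Finset P, ∑ _e ∈ ((univ : Finset P).piAntidiag n).filter
    (fun e => Vd i e F ∧ Dgz h e F z ∧ Dgz h e F z'), (X : ℤ[X]) ^ F.card

/-- inclusion-exclusion for two elements -/
lemma ZF_pair {i : ℕ} {h : P → ℕ} {z z' : P} (hz : i < lev z) (hz' : i < lev z') (n : ℕ) :
    ZF i h {z, z'} n + ZP i h z z' n = ZD i z (h z) n + ZD i z' (h z') n := by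
  classical
  rw [ZD_eq hz, ZD_eq hz']
  unfold ZF ZP
  rw [← Finset.sum_add_distrib, ← Finset.sum_add_distrib]
  refine Finset.sum_congr rfl fun F _ => ?_
  have h1 : ((univ : Finset P).piAntidiag n).filter
      (fun e => Vd i e F ∧ ∃ w ∈ ({z, z'} : Finset P), Dgz h e F w) =
      (((univ : Finset P).piAntidiag n).filter (fun e => Vd i e F ∧ (z ∈ F ∨ h z ≤ e z))) ∪
      (((univ : Finset P).piAntidiag n).filter (fun e => Vd i e F ∧ (z' ∈ F ∨ h z' ≤ e z'))) := by
    ext e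
    rw [mem_union, mem_filter, mem_filter, mem_filter]
    unfold Dgz
    constructor
    · rintro ⟨h2, h3, w, hw, h4⟩
      rw [mem_insert, mem_singleton] at hw
      rcases hw with rfl | rfl
      · exact Or.inl ⟨h2, h3, h4⟩
      · exact Or.inr ⟨h2, h3, h4⟩
    · rintro (⟨h2, h3, h4⟩ | ⟨h2, h3, h4⟩)
      · exact ⟨h2, h3, z, by simp, h4⟩
      · exact ⟨h2, h3, z', by simp, h4⟩
  have h2 : ((univ : Finset P).piAntidiag n).filter
      (fun e => Vd i e F ∧ Dgz h e F z ∧ Dgz h e F z') =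
      (((univ : Finset P).piAntidiag n).filter (fun e => Vd i e F ∧ (z ∈ F ∨ h z ≤ e z))) ∩
      (((univ : Finset P).piAntidiag n).filter (fun e => Vd i e F ∧ (z' ∈ F ∨ h z' ≤ e z'))) := by
    ext e
    rw [mem_inter, mem_filter, mem_filter, mem_filter]
    unfold Dgz
    tauto
  rw [h1, h2]
  exact Finset.sum_union_inter

/-- exact evaluation of the bad part with families of blockers -/
theorem RB_evalF {i : ℕ} {R : Finset P} {bad : (P → ℕ) → Prop} {n : ℕ} (h : P → ℕ)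
    (Fam : Finset (Finset P)) (T2 : Finset P) (h2 : ∀ z ∈ T2, 1 ≤ h z ∧ h z ≤ lev z - i)
    (hb1 : ∀ A ∈ Fam, ∀ z ∈ A, ∀ e F, Vd i e F → ∑ x, e x = n → Dgz h e F z →
      (∃ x ∈ R, x ∈ F) ∨ bad (lbl R e))
    (hb2 : ∀ z ∈ T2, cst i h z = n → bad (lbl R (ez i h z)))
    (hall : ∀ e F, Vd i e F → ∑ x, e x = n → ((∃ x ∈ R, x ∈ F) ∨ bad (lbl R e)) →
      (∃ A ∈ Fam, ∃ z ∈ A, Dgz h e F z) ∨ ∃ z ∈ T2, e = ez i h z)
    (hone : ∀ A ∈ Fam, ∀ A' ∈ Fam, A ≠ A' → ∀ z ∈ A, ∀ z' ∈ A', ∀ e F, Vd i e F →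
      ∑ x, e x = n → Dgz h e F z → Dgz h e F z' → False)
    (hsep : ∀ A ∈ Fam, ∀ z ∈ A, ∀ z' ∈ T2, cst i h z' = n → ∀ F, Vd i (ez i h z') F →
      ¬ Dgz h (ez i h z') F z) :
    RB i R bad n = ∑ A ∈ Fam, ZF i h A n +
      ∑ z ∈ T2.filter (fun z => cst i h z = n),
      (by classical exact if Adm i (ez i h z) then
        (X : ℤ[X]) ^ (nf i (ez i h z)) * (1 + X) ^ (Pk i (ez i h z)).card else 0) := by
  classical
  have h3 : ∀ z ∈ T2.filter (fun z => cst i h z = n), (if Adm i (ez i h z) then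
        (X : ℤ[X]) ^ (nf i (ez i h z)) * (1 + X) ^ (Pk i (ez i h z)).card else 0) =
        ∑ F : Finset P, if Vd i (ez i h z) F then (X : ℤ[X]) ^ F.card else 0 := by
    intro z _
    rw [sum_vd]
  rw [Finset.sum_congr rfl h3, Finset.sum_comm]
  unfold ZF
  rw [Finset.sum_comm (s := Fam)]
  unfold RB
  rw [← Finset.sum_add_distrib]
  refine Finset.sum_congr rfl fun F _ => ?_
  rw [← Finset.sum_filter]
  -- the first part
  have hA : ∑ A ∈ Fam, ∑ _e ∈ ((univ : Finset P).piAntidiag n).filter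
      (fun e => Vd i e F ∧ ∃ z ∈ A, Dgz h e F z), (X : ℤ[X]) ^ F.card =
      ∑ _e ∈ ((univ : Finset P).piAntidiag n).filter
      (fun e => Vd i e F ∧ ∃ A ∈ Fam, ∃ z ∈ A, Dgz h e F z), (X : ℤ[X]) ^ F.card := by
    rw [← Finset.sum_biUnion]
    · refine Finset.sum_congr ?_ (fun _ _ => rfl)
      ext e
      simp only [mem_biUnion, mem_filter]
      constructor
      · rintro ⟨A, hA, h5, h6, h7⟩
        exact ⟨h5, h6, A, hA, h7⟩
      · rintro ⟨h5, h6, A, hA, h7⟩
        exact ⟨A, hA, h5, h6, h7⟩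
    · intro A hA A' hA' hne
      simp only [Function.onFun]
      rw [Finset.disjoint_left]
      intro e he he'
      rw [mem_filter, mem_piAntidiag] at he he'
      obtain ⟨z, hz, hd⟩ := he.2.2
      obtain ⟨z', hz', hd'⟩ := he'.2.2
      exact hone A hA A' hA' hne z hz z' hz' e F he.2.1 he.1.1 hd hd'
  have hB : ∑ _z ∈ (T2.filter (fun z => cst i h z = n)).filter (fun z => Vd i (ez i h z) F),
      (X : ℤ[X]) ^ F.card = ∑ _e ∈ ((univ : Finset P).piAntidiag n).filter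
      (fun e => (Vd i e F ∧ ((∃ x ∈ R, x ∈ F) ∨ bad (lbl R e))) ∧
        ¬ ∃ A ∈ Fam, ∃ z ∈ A, Dgz h e F z), (X : ℤ[X]) ^ F.card := by
    refine Finset.sum_bij (fun z _ => ez i h z) ?_ ?_ ?_ (fun _ _ => rfl)
    · intro z hz
      rw [mem_filter, mem_filter] at hz
      rw [mem_filter, mem_piAntidiag]
      refine ⟨⟨hz.1.2, fun _ _ => mem_univ _⟩, ⟨hz.2, Or.inr (hb2 z hz.1.1 hz.1.2)⟩, ?_⟩
      rintro ⟨A, hA, z', hz', hd⟩
      exact hsep A hA z' hz' z hz.1.1 hz.1.2 F hz.2 hd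
    · intro z hz z' hz' he
      rw [mem_filter, mem_filter] at hz hz'
      exact ez_inj (h2 z hz.1.1).1 (h2 z hz.1.1).2 (h2 z' hz'.1.1).1 (h2 z' hz'.1.1).2 he
    · intro e he
      rw [mem_filter, mem_piAntidiag] at he
      obtain ⟨⟨he1, -⟩, ⟨hV, hb⟩, hn1⟩ := he
      rcases hall e F hV he1 hb with h5 | ⟨z, hz, rfl⟩
      · exact absurd h5 hn1
      · refine ⟨z, ?_, rfl⟩
        rw [mem_filter, mem_filter]
        exact ⟨⟨hz, he1⟩, hV⟩
  rw [hA, hB]
  have h5 : ((univ : Finset P).piAntidiag n).filter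
      (fun e => Vd i e F ∧ ∃ A ∈ Fam, ∃ z ∈ A, Dgz h e F z) =
      (((univ : Finset P).piAntidiag n).filter
      (fun e => Vd i e F ∧ ((∃ x ∈ R, x ∈ F) ∨ bad (lbl R e)))).filter
      (fun e => ∃ A ∈ Fam, ∃ z ∈ A, Dgz h e F z) := by
    rw [Finset.filter_filter]
    refine Finset.filter_congr fun e he => ?_
    rw [mem_piAntidiag] at he
    constructor
    · rintro ⟨h6, A, hA, z, hz, h7⟩
      exact ⟨⟨h6, hb1 A hA z hz e F h6 he.1 h7⟩, A, hA, z, hz, h7⟩
    · rintro ⟨⟨h6, -⟩, h7⟩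
      exact ⟨h6, h7⟩
  have h6 : ((univ : Finset P).piAntidiag n).filter
      (fun e => (Vd i e F ∧ ((∃ x ∈ R, x ∈ F) ∨ bad (lbl R e))) ∧
        ¬ ∃ A ∈ Fam, ∃ z ∈ A, Dgz h e F z) =
      (((univ : Finset P).piAntidiag n).filter
      (fun e => Vd i e F ∧ ((∃ x ∈ R, x ∈ F) ∨ bad (lbl R e)))).filter
      (fun e => ¬ ∃ A ∈ Fam, ∃ z ∈ A, Dgz h e F z) := by
    rw [Finset.filter_filter]
  rw [h5, h6]
  exact (Finset.sum_filter_add_sum_filter_not _ _ _).symm

/-- FW+ with families of blockers, at the single energy `n` -/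
theorem far_plusF {i : ℕ} {R : Finset P} {h : P → ℕ} {n : ℕ} (p : ℤ[X])
    (Fam : Finset (Finset P)) (hgr : GradedBelow P) (hlev : ∀ x ∈ R, i < lev x)
    (hFam : ∀ A ∈ Fam, ∀ z ∈ A, z ∈ bdR R)
    (hcl : ∀ g : P → ℕ, (∀ x, x ∉ R → g x = 0) → (∀ z ∈ bdR R, g z < h z) → p ∣ ZB i R g 0 n)
    (h1 : ∀ z ∈ bdR R, (∀ A ∈ Fam, z ∉ A) → 1 ≤ h z ∧ h z ≤ lev z - i)
    (hn : ∀ z ∈ bdR R, (∀ A ∈ Fam, z ∉ A) → n ≤ cst i h z)
    (hpair : ∀ A ∈ Fam, ∀ z ∈ A, ∀ z' ∈ bdR R, z' ∉ A →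
      n < ∑ x, max (ez i h z x) (ez i h z' x))
    (hdis : ∀ A ∈ Fam, ∀ A' ∈ Fam, A ≠ A' → ∀ z ∈ A, z ∉ A') :
    p ∣ Z P i n - (∑ A ∈ Fam, ZF i h A n +
      ∑ z ∈ (bdR R).filter (fun z => (∀ A ∈ Fam, z ∉ A) ∧ cst i h z = n), Lt i h z) := by
  classical
  have hpair' : ∀ A ∈ Fam, ∀ z ∈ A, ∀ z' ∈ bdR R, z' ∉ A → ∀ e F, Vd i e F → ∑ x, e x = n →
      Dgz h e F z → Dgz h e F z' → False := by
    intro A hA z hz z' hz' hne e F hV hs hd hd'
    have h2 := ez_le hV (hlev z (mem_filter.mp (hFam A hA z hz)).1) hd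
    have h3 := ez_le hV (hlev z' (mem_filter.mp hz').1) hd'
    have h4 : ∑ x, max (ez i h z x) (ez i h z' x) ≤ ∑ x, e x :=
      Finset.sum_le_sum fun x _ => max_le (h2 x) (h3 x)
    have := hpair A hA z hz z' hz' hne
    omega
  set T2 : Finset P := (bdR R).filter (fun z => ∀ A ∈ Fam, z ∉ A) with hT2
  have hev := RB_evalF (i := i) (R := R) (bad := fun g => ∃ z ∈ bdR R, h z ≤ g z) (n := n) h Fam
    T2 ?_ ?_ ?_ ?_ ?_ ?_
  · have hbadgood : p ∣ Z P i n - RB i R (fun g => ∃ z ∈ bdR R, h z ≤ g z) n := by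
      refine dvd_Z_sub_RB _ p n fun g hg0 hg => hcl g hg0 fun z hz => ?_
      by_contra hcon
      exact hg ⟨z, hz, not_lt.mp hcon⟩
    rw [hev] at hbadgood
    have h6 : ∑ z ∈ (bdR R).filter (fun z => (∀ A ∈ Fam, z ∉ A) ∧ cst i h z = n), Lt i h z =
        ∑ z ∈ T2.filter (fun z => cst i h z = n),
        (if Adm i (ez i h z) then
        (X : ℤ[X]) ^ (nf i (ez i h z)) * (1 + X) ^ (Pk i (ez i h z)).card else 0) := by
      rw [hT2, Finset.filter_filter]
      refine Finset.sum_congr rfl fun z hz => ?_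
      rw [mem_filter] at hz
      have h7 := h1 z hz.1 hz.2.1
      exact (lead_eq hgr h7.1 h7.2).symm
    rw [h6]
    exact hbadgood
  · intro z hz
    rw [hT2, mem_filter] at hz
    exact h1 z hz.1 hz.2
  · intro A hA z hz e F _ _ hd
    have hzR := (mem_filter.mp (hFam A hA z hz)).1
    rcases hd with hd | hd
    · exact Or.inl ⟨z, hzR, hd⟩
    · refine Or.inr ⟨z, hFam A hA z hz, ?_⟩
      rw [lbl_of hzR]
      exact hd
  · intro z hz _
    rw [hT2, mem_filter] at hz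
    refine ⟨z, hz.1, ?_⟩
    rw [lbl_of (mem_filter.mp hz.1).1, ez_self (h1 z hz.1 hz.2).2]
  · intro e F hV hs hb
    have hd : ∃ z ∈ bdR R, Dgz h e F z := by
      by_contra hcon
      push Not at hcon
      have h2 := not_mem_of_not_dg hlev hV hcon
      rcases hb with ⟨x, hx, hxF⟩ | ⟨z, hz, hz2⟩
      · exact h2 x hx hxF
      · refine hcon z hz (Or.inr ?_)
        rwa [lbl_of (mem_filter.mp hz).1] at hz2
    obtain ⟨z, hz, hd⟩ := hd
    by_cases hz1 : ∃ A ∈ Fam, z ∈ A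
    · obtain ⟨A, hA, hzA⟩ := hz1
      exact Or.inl ⟨A, hA, z, hzA, hd⟩
    · right
      push Not at hz1
      refine ⟨z, by rw [hT2, mem_filter]; exact ⟨hz, hz1⟩, ?_⟩
      have h4 : ∀ x, ez i h z x ≤ e x := ez_le hV (hlev z (mem_filter.mp hz).1) hd
      have h6 : cst i h z ≤ n := by
        rw [← hs]; exact Finset.sum_le_sum fun x _ => h4 x
      have h7 : cst i h z = n := le_antisymm h6 (hn z hz hz1)
      funext x
      have h9 : ∑ x, ez i h z x = ∑ x, e x := by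
        rw [hs]; exact h7
      exact ((Finset.sum_eq_sum_iff_of_le (fun x _ => h4 x)).mp h9 x (mem_univ x)).symm
  · intro A hA A' hA' hne z hz z' hz' e F hV hs hd hd'
    exact hpair' A hA z hz z' (hFam A' hA' z' hz') (hdis A' hA' A hA (Ne.symm hne) z' hz') e F hV
      hs hd hd'
  · intro A hA z hz z' hz' hc F hV hd
    rw [hT2, mem_filter] at hz'
    refine hpair' A hA z hz z' hz'.1 (hz'.2 A hA) _ F hV hc hd (Or.inr ?_)
    rw [ez_self (h1 z' hz'.1 hz'.2).2]

/-- FW+ with families, truncated data -/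
theorem FarT.plusF {i : ℕ} {R : Finset P} {b : ℕ} {h : P → ℕ} {n0 : ℕ}
    (H : FarT P i R b h n0) {n : ℕ} (hn0 : n < n0) (Fam : Finset (Finset P))
    (hFam : ∀ A ∈ Fam, ∀ z ∈ A, z ∈ bdR R)
    (hn : ∀ z ∈ bdR R, (∀ A ∈ Fam, z ∉ A) → n ≤ cst i h z)
    (hpair : ∀ A ∈ Fam, ∀ z ∈ A, ∀ z' ∈ bdR R, z' ∉ A →
      n < ∑ x, max (ez i h z x) (ez i h z' x))
    (hdis : ∀ A ∈ Fam, ∀ A' ∈ Fam, A ≠ A' → ∀ z ∈ A, z ∉ A') :
    (1 + X : ℤ[X]) ^ b ∣ Z P i n - (∑ A ∈ Fam, ZF i h A n +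
      ∑ z ∈ (bdR R).filter (fun z => (∀ A ∈ Fam, z ∉ A) ∧ cst i h z = n), Lt i h z) :=
  far_plusF _ Fam H.graded H.hlev hFam (fun g h1 h2 => H.clean g h1 h2 n hn0)
    (fun z hz _ => ⟨H.one_le z hz, H.le_lev z hz⟩) hn hpair hdis

open Classical in
/-- the configurations without elements of `R` in the filter and with labels in `Q` -/
noncomputable def RG (i : ℕ) (R : Finset P) (Q : (P → ℕ) → Prop) (n : ℕ) : ℤ[X] :=
  ∑ F : Finset P, ∑ _e ∈ ((univ : Finset P).piAntidiag n).filter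
    (fun e => Vd i e F ∧ (∀ x ∈ R, x ∉ F) ∧ Q (lbl R e)), (X : ℤ[X]) ^ F.card

open Classical in
/-- sorted by the labels -/
theorem RG_eq (i : ℕ) (R : Finset P) (Q : (P → ℕ) → Prop) (n : ℕ) :
    RG i R Q n = ∑ g ∈ Fintype.piFinset (fun _ : P => range (n + 1)),
      if (∀ x, x ∉ R → g x = 0) ∧ Q g then ZB i R g 0 n else 0 := by
  set Gs : Finset (P → ℕ) := Fintype.piFinset (fun _ => range (n + 1)) with hGs
  have h1 : ∀ g ∈ Gs, (if (∀ x, x ∉ R → g x = 0) ∧ Q g then ZB i R g 0 n else 0) =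
      ∑ F : Finset P, ∑ _e ∈ ((univ : Finset P).piAntidiag n).filter
        (fun e => ((∀ x, x ∉ R → g x = 0) ∧ Q g) ∧ Cst i R g 0 e F), (X : ℤ[X]) ^ F.card := by
    intro g _
    split_ifs with hg
    · unfold ZB
      refine Finset.sum_congr rfl fun F _ => ?_
      refine Finset.sum_congr (Finset.filter_congr fun e _ => ?_) (fun _ _ => rfl)
      exact ⟨fun h => ⟨hg, h⟩, fun h => h.2⟩
    · symm
      refine Finset.sum_eq_zero fun F _ => ?_
      rw [Finset.filter_eq_empty_iff.mpr (fun e _ h => hg h.1), Finset.sum_empty]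
  rw [Finset.sum_congr rfl h1, Finset.sum_comm]
  unfold RG
  refine Finset.sum_congr rfl fun F _ => ?_
  have hmaps : ∀ e ∈ ((univ : Finset P).piAntidiag n).filter
      (fun e => Vd i e F ∧ (∀ x ∈ R, x ∉ F) ∧ Q (lbl R e)), lbl R e ∈ Gs := by
    intro e he
    rw [mem_filter, mem_piAntidiag] at he
    rw [hGs, Fintype.mem_piFinset]
    intro x
    rw [mem_range]
    have h5 : e x ≤ ∑ y, e y := Finset.single_le_sum (fun y _ => Nat.zero_le _) (mem_univ x)
    have h6 : ∑ y, e y = n := he.1.1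
    unfold lbl
    split_ifs <;> omega
  refine Eq.trans (Finset.sum_fiberwise_of_maps_to hmaps (fun _ => (X : ℤ[X]) ^ F.card)).symm ?_
  refine Finset.sum_congr rfl fun g _ => ?_
  refine Finset.sum_congr ?_ (fun _ _ => rfl)
  ext e
  simp only [mem_filter]
  constructor
  · rintro ⟨⟨h5, h6, h7, h8⟩, h9⟩
    refine ⟨h5, ⟨?_, by rw [← h9]; exact h8⟩, h6, ?_, ?_⟩
    · intro x hx
      rw [← h9]; exact lbl_off hx
    · intro x hx
      exact ⟨h7 x hx, by rw [← h9, lbl_of hx]⟩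
    · intro x _ hxF
      simpa using h6.2.1 x hxF
  · rintro ⟨h5, ⟨h6, h7⟩, h8, h9, -⟩
    have h10 : lbl R e = g := by
      funext x
      by_cases hx : x ∈ R
      · rw [lbl_of hx]; exact (h9 x hx).2
      · rw [lbl_off hx]; exact (h6 x hx).symm
    exact ⟨⟨h5, h8, fun x hx => (h9 x hx).1, by rw [h10]; exact h7⟩, h10⟩

open Classical in
/-- the dangerous sum of `A`, sorted by the labels on a set `R ⊇ A` -/
theorem ZF_labels {i : ℕ} {h : P → ℕ} {A R : Finset P} {n : ℕ} (hA : A ⊆ R)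
    (hF : ∀ e F, Vd i e F → ∑ x, e x = n → (∃ z ∈ A, Dgz h e F z) → ∀ x ∈ R, x ∉ F) :
    ZF i h A n = ∑ g ∈ Fintype.piFinset (fun _ : P => range (n + 1)),
      if (∀ x, x ∉ R → g x = 0) ∧ (∃ z ∈ A, h z ≤ g z) then ZB i R g 0 n else 0 := by
  obtain ⟨Q, hQ⟩ : ∃ Q : (P → ℕ) → Prop, ∀ g, Q g ↔ ∃ z ∈ A, h z ≤ g z :=
    ⟨_, fun _ => Iff.rfl⟩
  refine Eq.trans ?_ (Eq.trans (RG_eq i R Q n) (Finset.sum_congr rfl fun g _ => ?_))
  swap
  · by_cases h1 : (∀ x, x ∉ R → g x = 0) ∧ Q g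
    · rw [if_pos h1, if_pos ⟨h1.1, (hQ g).mp h1.2⟩]
    · rw [if_neg h1, if_neg (fun h2 => h1 ⟨h2.1, (hQ g).mpr h2.2⟩)]
  unfold ZF RG
  refine Finset.sum_congr rfl fun F _ => Finset.sum_congr ?_ (fun _ _ => rfl)
  refine Finset.filter_congr fun e he => ?_
  rw [mem_piAntidiag] at he
  constructor
  · rintro ⟨h1, h2⟩
    have h3 := hF e F h1 he.1 h2
    refine ⟨h1, h3, (hQ _).mpr ?_⟩
    obtain ⟨z, hz, hd⟩ := h2
    refine ⟨z, hz, ?_⟩
    rw [lbl_of (hA hz)]
    exact hd.resolve_left (h3 z (hA hz))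
  · rintro ⟨h1, h2, h3⟩
    obtain ⟨z, hz, h3⟩ := (hQ _).mp h3
    refine ⟨h1, z, hz, Or.inr ?_⟩
    rwa [lbl_of (hA hz)] at h3

end Pool.Agent.GaussPoset

end

/-! From `Pool.Agent.W_448pg_h74.PgB` -/

section

/-!
The bounded window sums of a part with component data and twins (MP_448cb3_co).
-/

namespace Pool.Agent.GaussPoset

set_option linter.unusedSectionVars false

open Polynomial Finset

universe u

variable {P : Type u} [Fintype P] [PartialOrder P] [DecidableEq P]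
variable {ι : Type*} [Fintype ι] [DecidableEq ι]

section Part

variable {R : Finset P} {cp : P → ι} {k : ι}

lemma pg_part_up (hR : ∀ x y, x ≤ y → y ∈ R → x ∈ R) (hcp : ∀ x y, x ≤ y → x ∉ R → cp x = cp y) :
    ∀ x y : P, x ≤ y → (x ∉ R ∧ cp x = k) → (y ∉ R ∧ cp y = k) := by
  rintro x y hxy ⟨h1, h2⟩
  exact ⟨fun h => h1 (hR x y hxy h), (hcp x y hxy h1).symm.trans h2⟩

/-- sums over the part of a function supported above an element of the part -/
lemma sum_part_eq (f : P → ℕ) (hf : ∀ y, f y ≠ 0 → y ∉ R ∧ cp y = k) :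
    ∑ y : {x : P // x ∉ R ∧ cp x = k}, f y = ∑ y, f y := by
  classical
  have h1 : ∑ y ∈ univ.filter (fun x => x ∉ R ∧ cp x = k), f y = ∑ y, f y := by
    refine Finset.sum_subset (Finset.filter_subset _ _) fun y _ hy => ?_
    by_contra hne
    exact hy (mem_filter.mpr ⟨mem_univ _, hf y hne⟩)
  rw [← h1]
  symm
  rw [Finset.sum_subtype (univ.filter (fun x => x ∉ R ∧ cp x = k))
    (p := fun x => x ∉ R ∧ cp x = k)]
  intro x
  rw [mem_filter]
  exact ⟨fun h => h.2, fun h => ⟨mem_univ _, h⟩⟩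

/-- twin pairs in a part -/
lemma twinPair_part (hR : ∀ x y, x ≤ y → y ∈ R → x ∈ R)
    (hcp : ∀ x y, x ≤ y → x ∉ R → cp x = cp y) {i n0 : ℕ} {θ : P → ℕ}
    {x x' : {x : P // x ∉ R ∧ cp x = k}} (h : TwinPair i θ n0 (x : P) (x' : P)) :
    TwinPair (P := {x : P // x ∉ R ∧ cp x = k}) i (fun y => θ y) n0 x x' := by
  classical
  have hup := pg_part_up (k := k) hR hcp
  have hl : ∀ y : {x : P // x ∉ R ∧ cp x = k}, lev y = lev (y : P) :=
    lev_subtype (p := fun x => x ∉ R ∧ cp x = k) hup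
  refine ⟨fun h1 => h.ne (congrArg Subtype.val h1), fun y => h.up y, h.one_le, h.eq, ?_, ?_, ?_⟩
  · rw [hl]; exact h.le
  · refine h.costF.trans (Nat.add_le_add_right ?_ _)
    rw [← sum_part_eq (R := R) (cp := cp) (k := k)]
    · refine Finset.sum_le_sum fun y _ => ?_
      rw [hl]
      exact le_of_eq rfl
    · intro y hy
      by_cases hxy : (x : P) ≤ y
      · exact hup x y hxy x.2
      · rw [if_neg hxy] at hy
        exact absurd rfl hy
  · refine h.costT.trans (Nat.add_le_add_right ?_ _)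
    rw [← sum_part_eq (R := R) (cp := cp) (k := k)]
    · refine Finset.sum_le_sum fun y _ => ?_
      rw [hl]
      exact le_of_eq rfl
    · intro y hy
      by_cases hxy : (x : P) < y
      · exact hup x y hxy.le x.2
      · rw [if_neg hxy] at hy
        exact absurd rfl hy

/-- the isomorphism between the two descriptions of a part minus a lower set -/
def partIso {D : Finset P} {D' : Finset {x : P // x ∉ R ∧ cp x = k}}
    (hD : ∀ x : P, cp x = k → (x ∉ D ↔ ∃ h : x ∉ R ∧ cp x = k, (⟨x, h⟩ : {x : P // x ∉ R ∧ cp x = k}) ∉ D')) :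
    {x : {x : P // x ∉ D} // cp (x : P) = k} ≃o
      {x : {x : P // x ∉ R ∧ cp x = k} // x ∉ D'} where
  toFun x := ⟨⟨(x : {x : P // x ∉ D}), ((hD _ x.2).mp x.1.2).1⟩, ((hD _ x.2).mp x.1.2).2⟩
  invFun x := ⟨⟨(x : {x : P // x ∉ R ∧ cp x = k}), (hD _ x.1.2.2).mpr ⟨x.1.2, x.2⟩⟩, x.1.2.2⟩
  left_inv x := by rfl
  right_inv x := by rfl
  map_rel_iff' := by
    intro x y
    exact Iff.rfl

end Part

/-- **The factor of a part with component data and twins.** -/
theorem factor_one {i : ℕ} {R : Finset P}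
    (hR : ∀ x y, x ≤ y → y ∈ R → x ∈ R) (hRlev : ∀ x ∈ R, i < lev x)
    (cp : P → ι) (hcp : ∀ x y, x ≤ y → x ∉ R → cp x = cp y) (k : ι) (b : ℕ) (θ : P → ℕ)
    (B : P → Prop) (hBR : ∀ x ∈ R, ¬ B x) (Tw : Finset (P × P)) (n0 : ℕ)
    (H : CompDataT R cp k i b θ B Tw)
    (htw : ∀ t ∈ Tw, TwinPair i θ n0 t.1 t.2) (hmin : ∀ t ∈ Tw, ∀ y < t.2, y ∈ R)
    (htR : ∀ t ∈ Tw, t.1 ∉ R ∧ t.2 ∉ R) (htB : ∀ t ∈ Tw, ¬ B t.2)
    (B' : P → ℕ) (hB' : ∀ x, x ∉ R → cp x = k → B' x ≤ θ x) (m : ℕ) (hm : m < n0) :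
    (1 + X : ℤ[X]) ^ b ∣ ZB (P := {x : P // x ∉ R ∧ cp x = k}) i ∅ 0 (fun x => B' x) m := by
  classical
  have hup := pg_part_up (k := k) hR hcp
  have hl : ∀ y : {x : P // x ∉ R ∧ cp x = k}, lev y = lev (y : P) :=
    lev_subtype (p := fun x => x ∉ R ∧ cp x = k) hup
  let DD : Set (Finset {x : P // x ∉ R ∧ cp x = k}) :=
    {D | (∀ x y, x ≤ y → y ∈ D → x ∈ D) ∧ ∀ x ∈ D, i < lev (x : P) ∧ ¬ B x}
  let TwQ : Finset ({x : P // x ∉ R ∧ cp x = k} × {x : P // x ∉ R ∧ cp x = k}) :=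
    univ.filter (fun t => ((t.1 : P), (t.2 : P)) ∈ Tw)
  have hlt2 : ∀ t ∈ Tw, i < lev t.2 ∧ cp t.1 = cp t.2 := by
    intro t ht
    have h1 := (htw t ht).le
    have h2 := (htw t ht).one_le
    have h3 : i < lev t.1 := by omega
    refine ⟨by rw [← lev_eq_of_up (htw t ht).up]; exact h3, ?_⟩
    obtain ⟨y, hy, -⟩ := exists_lev_succ (x := t.1) (k := lev t.1 - 1) (by omega)
    have hy' := ((htw t ht).up y).mp hy
    rw [hcp _ y hy.le (htR t ht).1, hcp _ y hy'.le (htR t ht).2]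
  have key := dvd_ZB_bounds_twins (P := {x : P // x ∉ R ∧ cp x = k}) i ((1 + X : ℤ[X]) ^ b) n0
    DD (fun x => θ x) TwQ (fun D hD => hD.1)
    (fun D hD x hx => by rw [hl]; exact (hD.2 x hx).1)
    (fun x hx => by rw [hl]; exact H.lev x x.2.1 x.2.2 hx) ?_ ?_ ?_ ?_ ?_
    ∅ ⟨fun x y _ h => absurd h (Finset.notMem_empty y), fun x h => absurd h (Finset.notMem_empty x)⟩
    (fun x => B' x) (fun x _ => hB' x x.2.1 x.2.2) m hm
  · exact key
  · intro D hD hbr n _
    rw [ZB_off hD.1 (fun x hx => by rw [hl]; exact (hD.2 x hx).1)]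
    refine dvd_Z_of_dvd_W ?_ n
    let E : Finset P := R ∪ D.image Subtype.val ∪ (Tw.image Prod.snd).filter (fun x => cp x ≠ k)
    have hE : ∀ x, x ∈ E ↔ (x ∈ R ∨ ∃ h : x ∉ R ∧ cp x = k,
        (⟨x, h⟩ : {x : P // x ∉ R ∧ cp x = k}) ∈ D) ∨ ((∃ t ∈ Tw, t.2 = x) ∧ cp x ≠ k) := by
      intro x
      simp only [E, mem_union, mem_image, mem_filter]
      refine or_congr (or_congr Iff.rfl ?_) Iff.rfl
      constructor
      · rintro ⟨y, hy, rfl⟩
        exact ⟨y.2, hy⟩
      · rintro ⟨h, hx⟩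
        exact ⟨⟨x, h⟩, hx, rfl⟩
    have hgood : Good i R B E := by
      refine ⟨?_, ?_, ?_, ?_⟩
      · intro x y hxy hy
        rw [hE] at hy ⊢
        rcases hy with (hy | ⟨h, hy⟩) | ⟨⟨t, ht, rfl⟩, hy⟩
        · exact Or.inl (Or.inl (hR x y hxy hy))
        · by_cases hx : x ∈ R
          · exact Or.inl (Or.inl hx)
          · have hxk : cp x = k := (hcp x y hxy hx).trans h.2
            exact Or.inl (Or.inr ⟨⟨hx, hxk⟩, hD.1 ⟨x, hx, hxk⟩ ⟨y, h⟩ hxy hy⟩)
        · rcases eq_or_lt_of_le hxy with h1 | h1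
          · rw [h1]
            exact Or.inr ⟨⟨t, ht, rfl⟩, hy⟩
          · exact Or.inl (Or.inl (hmin t ht x h1))
      · intro x hx
        rw [hE]
        exact Or.inl (Or.inl hx)
      · intro x hx
        rw [hE] at hx
        rcases hx with (hx | ⟨h, hx⟩) | ⟨⟨t, ht, rfl⟩, hx⟩
        · exact hRlev x hx
        · exact (hD.2 _ hx).1
        · exact (hlt2 t ht).1
      · intro x hx
        rw [hE] at hx
        rcases hx with (hx | ⟨h, hx⟩) | ⟨⟨t, ht, rfl⟩, hx⟩
        · exact hBR x hx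
        · exact (hD.2 _ hx).2
        · exact htB t ht
    have hbrE : Broken Tw E := by
      intro t ht
      by_cases hk : cp t.2 = k
      · have hk1 : cp t.1 = k := (hlt2 t ht).2.trans hk
        have h1 := hbr (⟨t.1, (htR t ht).1, hk1⟩, ⟨t.2, (htR t ht).2, hk⟩)
          (mem_filter.mpr ⟨mem_univ _, ht⟩)
        rcases h1 with h1 | h1
        · exact Or.inl ((hE _).mpr (Or.inl (Or.inr ⟨_, h1⟩)))
        · exact Or.inr ((hE _).mpr (Or.inl (Or.inr ⟨_, h1⟩)))
      · exact Or.inr ((hE _).mpr (Or.inr ⟨⟨t, ht, rfl⟩, hk⟩))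
    have h1 := H.clean E hgood hbrE inferInstance
    have hEk : ∀ x : P, cp x = k → (x ∉ E ↔ ∃ h : x ∉ R ∧ cp x = k,
        (⟨x, h⟩ : {x : P // x ∉ R ∧ cp x = k}) ∉ D) := by
      intro x hxk
      rw [hE]
      constructor
      · intro h
        have hxR : x ∉ R := fun h2 => h (Or.inl (Or.inl h2))
        exact ⟨⟨hxR, hxk⟩, fun h2 => h (Or.inl (Or.inr ⟨_, h2⟩))⟩
      · rintro ⟨h, h2⟩ ((h3 | ⟨h3, h4⟩) | ⟨-, h3⟩)
        · exact h.1 h3
        · exact h2 h4
        · exact h3 hxk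
    rw [W_iso (partIso hEk) i] at h1
    exact h1
  · intro D hD x hx hθx
    refine ⟨?_, ?_⟩
    · intro a c hac hc
      rw [mem_union, mem_dnf] at hc ⊢
      rcases hc with hc | hc
      · exact Or.inl (hD.1 a c hac hc)
      · exact Or.inr (hac.trans hc)
    · intro a ha
      rw [mem_union, mem_dnf] at ha
      rcases ha with ha | ha
      · exact hD.2 a ha
      · have h1 := H.lev x x.2.1 x.2.2 hθx
        refine ⟨?_, H.base x x.2.1 x.2.2 hθx a ha a.2.1⟩
        rcases eq_or_lt_of_le ha with h | h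
        · rw [h]; exact h1
        · have h3 : (a : P) < x := h
          have := lev_strictAnti h3
          omega
  · intro D hD x hx hθx y hyx hyD x' hyx' hx'x
    refine H.step x x.2.1 x.2.2 hθx y hyx y.2.1 x' x'.2.1 ?_ (fun h => hx'x h)
    refine ⟨hyx'.1, fun z hz hzx' => ?_⟩
    exact hyx'.2 (c := ⟨z, hup y z hz.le y.2⟩) hz hzx'
  · intro t ht
    exact twinPair_part hR hcp (htw _ (mem_filter.mp ht).2)
  · intro t ht D _ y hy
    exact absurd (hmin _ (mem_filter.mp ht).2 y hy) y.2.1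

/-- the factors of all parts, from the data of `labels_of_compT` -/
theorem factor {i : ℕ} {R : Finset P}
    (hR : ∀ x y, x ≤ y → y ∈ R → x ∈ R) (hRlev : ∀ x ∈ R, i < lev x)
    (cp : P → ι) (hcp : ∀ x y, x ≤ y → x ∉ R → cp x = cp y) (b : ι → ℕ) (θ : P → ℕ)
    (B : P → Prop) (hBR : ∀ x ∈ R, ¬ B x) (Tw : Finset (P × P)) (n0 : ℕ)
    (H : ∀ k, CompDataT R cp k i (b k) θ B Tw)
    (htw : ∀ t ∈ Tw, TwinPair i θ n0 t.1 t.2) (hmin : ∀ t ∈ Tw, ∀ y < t.2, y ∈ R)
    (htR : ∀ t ∈ Tw, t.1 ∉ R ∧ t.2 ∉ R) (k : ι)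
    (B' : P → ℕ) (hB' : ∀ x, x ∉ R → cp x = k → B' x ≤ θ x) (m : ℕ) (hm : m < n0) :
    (1 + X : ℤ[X]) ^ (b k) ∣
      ZB (P := {x : P // x ∉ R ∧ cp x = k}) i ∅ 0 (fun x => B' x) m := by
  refine factor_one hR hRlev cp hcp k (b k) θ B hBR Tw n0 (H k) htw hmin htR ?_ B' hB' m hm
  intro t ht
  have h1 : 1 ≤ θ t.2 := by
    rw [(htw t ht).eq]; exact (htw t ht).one_le
  exact (H (cp t.2)).base t.2 (htR t ht).2 rfl h1 t.2 le_rfl (htR t ht).2

end Pool.Agent.GaussPoset

end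

/-! From `Pool.Agent.W_448j8_h67.JaB` -/

section

/-!
First poles of coded up-sets, general lowest coefficient; lists of up-sets; coded posets with
additional elements (MP_448cb3_co).
-/

namespace Pool.Agent.GaussPoset.J8

set_option linter.unusedSectionVars false

open Polynomial Finset Cl Dd

universe u

/-- the check: `(J, ℓ, M, n3)`, lowest coefficient `c` -/
def polChk (c N B K : ℕ) (Us : List ℕ) (i0 : ℕ) (PL : List (ℕ × ℕ × ℕ × ℕ)) : Bool :=
  ((fun h => PL.all fun x => chkL B i0 h (decide (x.2.2.1 % 2 = 0)) x.1 x.2.1 x.2.2.1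
    (x.2.2.2 + pc N x.1) c) (hist (ws N B Us) K (stp (ws N B Us) (ini Us)))) &&
  ((fun h => PL.all fun x => chkS B c h x.1 x.2.2.1)
    (hist (ws N 1 Us) K (stp (ws N 1 Us) (ini Us))))

variable {P : Type u} [Fintype P] [PartialOrder P] [DecidableEq P]
variable {n N : ℕ} {cv lv : ℕ → ℕ} {c : ℕ → P} {Us : List ℕ}

/-- the first pole of a coded up-set -/
theorem cod_pole (C : Cod n cv lv c) (hU : UsOK N cv Us) (hn : n ≤ N) {B i0 K n0 c0 : ℕ}
    {PL : List (ℕ × ℕ × ℕ × ℕ)} (h : polChk c0 N B K Us i0 PL = true) {x : ℕ × ℕ × ℕ × ℕ}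
    (hx : x ∈ PL) (hJ : x.1 ∈ Us) (hJn : x.1 < 2 ^ n) (hnum : numChk N K i0 n0 lv x = true) :
    (∀ n' < n0, (1 + X : ℤ[X]) ^ 2 ∣ Z {y : P // y ∈ toS n c x.1} i0 n') ∧
      ∃ s : ℤ[X], Z {y : P // y ∈ toS n c x.1} i0 n0 = (1 + X) * s ∧
        s.eval (-1) = sgn x.2.1 x.2.2.1 i0 * c0 := by
  obtain ⟨J, ℓ, M, n3⟩ := x
  simp only at hx hJ hJn ⊢
  unfold numChk at hnum
  simp only [Bool.and_eq_true] at hnum
  obtain ⟨⟨⟨⟨g1, g2⟩, g3⟩, g4⟩, g5⟩ := hnum
  have g1 := Nat.le_of_ble_eq_true g1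
  have g2 := Nat.blt_eq.mp g2
  have g3 := Nat.le_of_ble_eq_true g3
  have g5 := of_decide_eq_true g5
  rw [List.any_eq_true] at g4
  obtain ⟨a, ha, hab⟩ := g4
  rw [Bool.and_eq_true] at hab
  unfold polChk at h
  rw [Bool.and_eq_true] at h
  obtain ⟨h1, h2⟩ := h
  rw [hist_one hU] at h1 h2
  simp only [List.all_eq_true] at h1 h2
  have k1 := h1 _ hx
  have k2 := h2 _ hx
  simp only at k1 k2 g1 g2 g3 g5 hab
  have hup := C.up hU hn hJ
  have h5 : ∀ m, U {x : P // x ∈ toS n c J} m =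
      (uR N (X : ℕ[X]) Us J m).map (Nat.castRingHom ℤ) := fun m => by
    rw [U_eq_V hup, C.V_eq hU hn m J hJ hJn]
  have hlow := poly_low (n := N) (ℓ := ℓ) hJ g1 rfl k1 k2
  simp only [← h5] at hlow
  have han : a < n := by
    by_contra hcon
    rw [Nat.testBit_lt_two_pow (lt_of_lt_of_le hJn (Nat.pow_le_pow_right (by norm_num)
      (by omega)))] at hab
    exact absurd hab.1 (by simp)
  have hlv : ∀ x : {x : P // x ∈ toS n c J}, GaussPoset.lev x = GaussPoset.lev (x : P) :=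
    lev_subtype (p := fun x => x ∈ toS n c J) (fun x y hxy hx => hup x hx y hxy)
  have hxx : ∀ i < ℓ, ∃ x : {x : P // x ∈ toS n c J}, i ≤ GaussPoset.lev x := by
    intro i hi
    refine ⟨⟨c a, (C.mem_iff han).mpr hab.1⟩, ?_⟩
    rw [hlv, C.lev a han]
    have := Nat.le_of_ble_eq_true hab.2
    omega
  have hcd : Fintype.card {x : P // x ∈ toS n c J} = pc N J := by
    rw [Fintype.card_coe, C.card, ← pc_stable hn hJn]
  obtain ⟨V, hV⟩ := dvd_W_one (Q := {x : P // x ∈ toS n c J}) (i := i0) (hxx i0 g2)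
  have hM0 : M0 {x : P // x ∈ toS n c J} i0 =
      ∑ a ∈ (range N).filter (fun a => J.testBit a = true), min i0 (lv a) := by
    rw [filter_stable hn hJn, ← cod_sum_lev C (fun l => min i0 l)]
    unfold M0
    rw [← Finset.sum_coe_sort (toS n c J)]
    exact Finset.sum_congr rfl fun x _ => by rw [hlv]
  have hL := lead_V hxx (by rw [hcd]; exact g3) g2 hV hlow.1 hlow.2
    (N := M0 {x : P // x ∈ toS n c J} i0 + n0) (by rw [hM0, hcd]; exact g5)
  exact Z_of_lead hV hL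

/-- lowest coefficient zero: order two up to `n0` -/
theorem cod_low (C : Cod n cv lv c) (hU : UsOK N cv Us) (hn : n ≤ N) {B i0 K n0 : ℕ}
    {PL : List (ℕ × ℕ × ℕ × ℕ)} (h : polChk 0 N B K Us i0 PL = true) {x : ℕ × ℕ × ℕ × ℕ}
    (hx : x ∈ PL) (hJ : x.1 ∈ Us) (hJn : x.1 < 2 ^ n) (hnum : numChk N K i0 n0 lv x = true) :
    ∀ n' < n0 + 1, (1 + X : ℤ[X]) ^ 2 ∣ Z {y : P // y ∈ toS n c x.1} i0 n' := by
  obtain ⟨h1, s, h2, h3⟩ := cod_pole C hU hn h hx hJ hJn hnum
  intro n' hn'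
  rcases Nat.lt_or_ge n' n0 with h4 | h4
  · exact h1 n' h4
  · obtain rfl : n' = n0 := by omega
    rw [h2, pow_two]
    refine mul_dvd_mul_left _ ?_
    have h5 : s.IsRoot (-1) := by
      show s.eval (-1) = 0
      rw [h3]
      simp
    have h6 := Polynomial.dvd_iff_isRoot.mpr h5
    rwa [map_neg, map_one, sub_neg_eq_add, add_comm] at h6

/-! ### lists -/

/-- the up-sets of a coded poset, decreasing -/
def mkUs (cv : ℕ → ℕ) : ℕ → List ℕ
  | 0 => [0]
  | a + 1 => ((mkUs cv a).filter (fun J => Nat.beq (Nat.land (cv a) J) (cv a))).map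
      (fun J => J + 2 ^ a) ++ mkUs cv a

/-- number of levels of a coded set -/
def ellOf (lv : ℕ → ℕ) (J : ℕ) : ℕ → ℕ
  | 0 => 0
  | a + 1 => if J.testBit a then max (lv a + 1) (ellOf lv J a) else ellOf lv J a

/-- sum of the truncated levels -/
def m0Of (lv : ℕ → ℕ) (i0 J : ℕ) : ℕ → ℕ
  | 0 => 0
  | a + 1 => if J.testBit a then min i0 (lv a) + m0Of lv i0 J a else m0Of lv i0 J a

/-- the entry of the coded set `J` at the energy `n0` -/
def mkE (N i0 n0 : ℕ) (lv : ℕ → ℕ) (J : ℕ) : ℕ × ℕ × ℕ × ℕ :=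
  (J, ellOf lv J N, pc N J - ellOf lv J N,
    m0Of lv i0 J N + n0 + e1 (ellOf lv J N) (pc N J - ellOf lv J N) i0 -
      e2 (ellOf lv J N) i0 (pc N J))

/-- the entries of all coded sets above a mask -/
def mkL (N i0 n0 bm : ℕ) (lv : ℕ → ℕ) (Us : List ℕ) : List (ℕ × ℕ × ℕ × ℕ) :=
  (Us.filter (fun J => Nat.beq (Nat.land bm J) bm)).map (mkE N i0 n0 lv)

lemma mkL_mem {N i0 n0 bm : ℕ} {lv : ℕ → ℕ} {Us : List ℕ} {J : ℕ} (hJ : J ∈ Us)
    (h : Nat.land bm J = bm) : mkE N i0 n0 lv J ∈ mkL N i0 n0 bm lv Us := by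
  unfold mkL
  rw [List.mem_map]
  exact ⟨J, List.mem_filter.mpr ⟨hJ, by rw [h]; exact Nat.beq_refl _⟩, rfl⟩

/-! ### coded posets with additional elements -/

lemma Cod.congr {n : ℕ} {cv lv cv' lv' : ℕ → ℕ} {c c' : ℕ → P} (C : Cod n cv lv c)
    (h1 : ∀ a < n, cv' a = cv a) (h2 : ∀ a < n, lv' a = lv a) (h3 : ∀ a < n, c' a = c a) :
    Cod n cv' lv' c' where
  inj := fun a ha b hb h => C.inj a ha b hb (by rw [← h3 a ha, ← h3 b hb]; exact h)
  cov := by
    intro a ha y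
    rw [h1 a ha, h3 a ha, C.cov a ha y]
    constructor
    · rintro ⟨b, hb, h, h'⟩
      exact ⟨b, hb, h, by rw [h3 b hb]; exact h'⟩
    · rintro ⟨b, hb, h, h'⟩
      exact ⟨b, hb, h, by rw [← h3 b hb]; exact h'⟩
  lev := fun a ha => by rw [h2 a ha, h3 a ha]; exact C.lev a ha

/-- one additional element -/
lemma Cod.extend {n : ℕ} {cv lv : ℕ → ℕ} {c : ℕ → P} (C : Cod n cv lv c)
    (hcv : ∀ a < n, cv a < 2 ^ n) {y : P} {m l : ℕ}
    (hy : ∀ a < n, c a ≠ y) (hm : m < 2 ^ n)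
    (hcov : ∀ w, y ⋖ w ↔ ∃ b < n, m.testBit b = true ∧ c b = w) (hl : GaussPoset.lev y = l) :
    Cod (n + 1) (fun a => if a = n then m else cv a) (fun a => if a = n then l else lv a)
      (fun a => if a = n then y else c a) where
  inj := by
    intro a ha b hb h
    by_cases h1 : a = n
    · by_cases h2 : b = n
      · rw [h1, h2]
      · rw [if_pos h1, if_neg h2] at h
        exact absurd h.symm (hy b (by omega))
    · by_cases h2 : b = n
      · rw [if_neg h1, if_pos h2] at h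
        exact absurd h (hy a (by omega))
      · rw [if_neg h1, if_neg h2] at h
        exact C.inj a (by omega) b (by omega) h
  cov := by
    intro a ha w
    have key : ∀ m' : ℕ, m' < 2 ^ n → ((∃ b < n, m'.testBit b = true ∧ c b = w) ↔
        ∃ b < n + 1, m'.testBit b = true ∧ (if b = n then y else c b) = w) := by
      intro m' hm'
      constructor
      · rintro ⟨b, hb, h1, h2⟩
        exact ⟨b, by omega, h1, by rw [if_neg (by omega)]; exact h2⟩
      · rintro ⟨b, hb, h1, h2⟩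
        have hbn : b ≠ n := by
          rintro rfl
          rw [Nat.testBit_lt_two_pow hm'] at h1
          exact absurd h1 (by simp)
        rw [if_neg hbn] at h2
        exact ⟨b, by omega, h1, h2⟩
    by_cases h1 : a = n
    · simp only [if_pos h1]
      rw [hcov w]
      exact key m hm
    · simp only [if_neg h1]
      rw [C.cov a (by omega) w]
      exact key (cv a) (hcv a (by omega))
  lev := by
    intro a ha
    by_cases h1 : a = n
    · simp only [if_pos h1]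
      exact hl
    · simp only [if_neg h1]
      exact C.lev a (by omega)

end Pool.Agent.GaussPoset.J8

end

/-! From `Pool.Agent.W_448j8_h67.JaC` -/

section

/-!
Coded strips with at most two additional elements: order two of all up-sets, first pole of the
complete set (MP_448cb3_co).
-/

namespace Pool.Agent.GaussPoset.J8

set_option linter.unusedSectionVars false

open Polynomial Finset Cl Dd

universe u

/-- covers of the extended code -/
def cvX (cv0 ex : List ℕ) (a : ℕ) : ℕ := (cv0 ++ ex).getD a 0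

/-- levels of the extended code -/
def lvX (lv0 ex : List ℕ) (a : ℕ) : ℕ := (lv0 ++ ex.map (fun _ => 9)).getD a 0

/-- the check of all up-sets above the mask -/
def xChk (cv0 lv0 : List ℕ) (i0 n0 bm : ℕ) (ex : List ℕ) : Bool :=
  usChk (cv0.length + ex.length) (cvX cv0 ex) (mkUs (cvX cv0 ex) (cv0.length + ex.length)) &&
  polChk 0 (cv0.length + ex.length) (2 ^ 80) 12 (mkUs (cvX cv0 ex) (cv0.length + ex.length)) i0
    (mkL (cv0.length + ex.length) i0 n0 bm (lvX lv0 ex)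
      (mkUs (cvX cv0 ex) (cv0.length + ex.length))) &&
  (mkL (cv0.length + ex.length) i0 n0 bm (lvX lv0 ex)
    (mkUs (cvX cv0 ex) (cv0.length + ex.length))).all
    (numChk (cv0.length + ex.length) 12 i0 n0 (lvX lv0 ex))

/-- the check of the complete set: first pole at `n0`, value one -/
def fChk (cv0 lv0 : List ℕ) (i0 n0 : ℕ) (ex : List ℕ) : Bool :=
  polChk 1 (cv0.length + ex.length) (2 ^ 80) 12 (mkUs (cvX cv0 ex) (cv0.length + ex.length)) i0
    [mkE (cv0.length + ex.length) i0 n0 (lvX lv0 ex) (2 ^ (cv0.length + ex.length) - 1)] &&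
  numChk (cv0.length + ex.length) 12 i0 n0 (lvX lv0 ex)
    (mkE (cv0.length + ex.length) i0 n0 (lvX lv0 ex) (2 ^ (cv0.length + ex.length) - 1)) &&
  (mkUs (cvX cv0 ex) (cv0.length + ex.length)).contains (2 ^ (cv0.length + ex.length) - 1) &&
  decide (sgn (mkE (cv0.length + ex.length) i0 n0 (lvX lv0 ex)
    (2 ^ (cv0.length + ex.length) - 1)).2.1 (mkE (cv0.length + ex.length) i0 n0 (lvX lv0 ex)
    (2 ^ (cv0.length + ex.length) - 1)).2.2.1 i0 = 1)

variable {P : Type u} [Fintype P] [PartialOrder P] [DecidableEq P]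
variable {cv0 lv0 : List ℕ} {c0 : ℕ → P} {i0 n0 bm : ℕ}

/-- the lists of additional masks -/
def exL (m1 m2 : ℕ) : List (List ℕ) := [[], [m1], [m2], [m1, m1], [m1, m2], [m2, m2]]

/-- an additional element: covers given by one of two masks -/
def AddE (N0 : ℕ) (c0 : ℕ → P) (m1 m2 : ℕ) (y : P) : Prop := lev y = 9 ∧
  ((∀ w, y ⋖ w ↔ ∃ b < N0, m1.testBit b = true ∧ c0 b = w) ∨
    (∀ w, y ⋖ w ↔ ∃ b < N0, m2.testBit b = true ∧ c0 b = w))

lemma getD_append_left' {l l' : List ℕ} {a : ℕ} (h : a < l.length) :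
    (l ++ l').getD a 0 = l.getD a 0 := by
  simp [List.getD, List.getElem?_append_left h]

/-- the code with no additional elements -/
lemma cod0 (C : Cod cv0.length (fun a => cv0.getD a 0) (fun a => lv0.getD a 0) c0)
    (hl : lv0.length = cv0.length) :
    Cod (cv0.length + ([] : List ℕ).length) (cvX cv0 []) (lvX lv0 []) c0 := by
  refine Cod.congr C (fun a ha => ?_) (fun a ha => ?_) (fun _ _ => rfl)
  · unfold cvX
    rw [List.append_nil]
  · unfold lvX
    rw [List.map_nil, List.append_nil]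

/-- one more additional element -/
lemma codS {ex : List ℕ} {c : ℕ → P}
    (C : Cod (cv0.length + ex.length) (cvX cv0 ex) (lvX lv0 ex) c)
    (hl : lv0.length = cv0.length)
    (hcv : ∀ a < cv0.length + ex.length, cvX cv0 ex a < 2 ^ (cv0.length + ex.length))
    (hc : ∀ a < cv0.length, c a = c0 a) {y : P} {m : ℕ} (hm : m < 2 ^ cv0.length)
    (hy : ∀ a < cv0.length + ex.length, c a ≠ y) (hly : lev y = 9)
    (hcov : ∀ w, y ⋖ w ↔ ∃ b < cv0.length, m.testBit b = true ∧ c0 b = w) :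
    Cod (cv0.length + (ex ++ [m]).length) (cvX cv0 (ex ++ [m])) (lvX lv0 (ex ++ [m]))
      (fun a => if a = cv0.length + ex.length then y else c a) := by
  have hlen : cv0.length + (ex ++ [m]).length = cv0.length + ex.length + 1 := by
    rw [List.length_append, List.length_singleton]
    omega
  rw [hlen]
  have hp : (2 : ℕ) ^ cv0.length ≤ 2 ^ (cv0.length + ex.length) :=
    Nat.pow_le_pow_right (by norm_num) (by omega)
  have h1 := Cod.extend C hcv (y := y) (m := m) (l := 9) hy (by omega) (by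
    intro w
    rw [hcov w]
    constructor
    · rintro ⟨b, hb, h, h'⟩
      exact ⟨b, by omega, h, by rw [hc b hb]; exact h'⟩
    · rintro ⟨b, hb, h, h'⟩
      have hbn : b < cv0.length := by
        by_contra hcon
        rw [Nat.testBit_lt_two_pow (lt_of_lt_of_le hm (Nat.pow_le_pow_right (by norm_num)
          (by omega)))] at h
        exact absurd h (by simp)
      exact ⟨b, hbn, h, by rw [← hc b hbn]; exact h'⟩) hly
  refine Cod.congr h1 (fun a ha => ?_) (fun a ha => ?_) (fun _ _ => rfl)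
  · unfold cvX
    rw [← List.append_assoc]
    by_cases h : a = cv0.length + ex.length
    · rw [if_pos h, h, ← List.length_append]
      simp [List.getD]
    · rw [if_neg h, getD_append_left' (by rw [List.length_append]; omega)]
  · unfold lvX
    rw [List.map_append, List.map_singleton, ← List.append_assoc]
    by_cases h : a = cv0.length + ex.length
    · rw [if_pos h, h]
      have h2 : cv0.length + ex.length = (lv0 ++ ex.map (fun _ => 9)).length := by
        rw [List.length_append, List.length_map, hl]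
      rw [h2]
      simp [List.getD]
    · rw [if_neg h, getD_append_left' (by
        rw [List.length_append, List.length_map]; omega)]

/-- codes for all sets of at most two additional elements -/
theorem exists_codX (C : Cod cv0.length (fun a => cv0.getD a 0) (fun a => lv0.getD a 0) c0)
    (hl : lv0.length = cv0.length) (hcv : ∀ a < cv0.length, cv0.getD a 0 < 2 ^ a) {m1 m2 : ℕ}
    (hm1 : m1 < 2 ^ cv0.length) (hm2 : m2 < 2 ^ cv0.length) {Y : Finset P} (hY2 : Y.card ≤ 2)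
    (hY : ∀ y ∈ Y, (∀ a < cv0.length, c0 a ≠ y) ∧ AddE cv0.length c0 m1 m2 y) :
    ∃ ex ∈ exL m1 m2, ∃ c : ℕ → P,
      Cod (cv0.length + ex.length) (cvX cv0 ex) (lvX lv0 ex) c ∧
      (∀ a < cv0.length, c a = c0 a) ∧
      ∀ x, x ∈ Y ↔ ∃ a, cv0.length ≤ a ∧ a < cv0.length + ex.length ∧ c a = x := by
  have C0 := cod0 C hl
  have hcv' : ∀ ex : List ℕ, (∀ m ∈ ex, m < 2 ^ cv0.length) →
      ∀ a < cv0.length + ex.length, cvX cv0 ex a < 2 ^ (cv0.length + ex.length) := by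
    intro ex hex a ha
    have hp : (2 : ℕ) ^ cv0.length ≤ 2 ^ (cv0.length + ex.length) :=
      Nat.pow_le_pow_right (by norm_num) (by omega)
    unfold cvX
    by_cases h : a < cv0.length
    · rw [getD_append_left' h]
      have h1 := hcv a h
      have h2 : (2 : ℕ) ^ a ≤ 2 ^ cv0.length := Nat.pow_le_pow_right (by norm_num) h.le
      omega
    · have h1 : (cv0 ++ ex).getD a 0 = ex.getD (a - cv0.length) 0 := by
        simp [List.getD, List.getElem?_append_right (not_lt.mp h)]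
      rw [h1]
      have h2 : a - cv0.length < ex.length := by omega
      have h3 : ex.getD (a - cv0.length) 0 ∈ ex := by
        rw [List.getD_eq_getElem _ _ h2]
        exact List.getElem_mem h2
      exact lt_of_lt_of_le (hex _ h3) hp
  -- one element
  have one : ∀ y, (∀ a < cv0.length, c0 a ≠ y) → ∀ m, m < 2 ^ cv0.length → lev y = 9 →
      (∀ w, y ⋖ w ↔ ∃ b < cv0.length, m.testBit b = true ∧ c0 b = w) →
      Cod (cv0.length + [m].length) (cvX cv0 [m]) (lvX lv0 [m])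
        (fun a => if a = cv0.length then y else c0 a) := by
    intro y hy m hm hly hcov
    exact codS C0 hl (hcv' [] (by simp)) (fun _ _ => rfl) hm hy hly hcov
  have two : ∀ y y', y ≠ y' → (∀ a < cv0.length, c0 a ≠ y) → (∀ a < cv0.length, c0 a ≠ y') →
      ∀ m m', m < 2 ^ cv0.length → m' < 2 ^ cv0.length → lev y = 9 → lev y' = 9 →
      (∀ w, y ⋖ w ↔ ∃ b < cv0.length, m.testBit b = true ∧ c0 b = w) →
      (∀ w, y' ⋖ w ↔ ∃ b < cv0.length, m'.testBit b = true ∧ c0 b = w) →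
      Cod (cv0.length + [m, m'].length) (cvX cv0 [m, m']) (lvX lv0 [m, m'])
        (fun a => if a = cv0.length + 1 then y' else if a = cv0.length then y else c0 a) := by
    intro y y' hne hy hy' m m' hm hm' hly hly' hcov hcov'
    refine codS (ex := [m]) (one y hy m hm hly hcov) hl (hcv' [m] (by simpa using hm))
      (fun a ha => ?_) hm' ?_ hly' hcov'
    · rw [if_neg (by omega)]
    · intro a ha
      rw [List.length_singleton] at ha
      by_cases h : a = cv0.length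
      · rw [if_pos h]; exact hne
      · rw [if_neg h]; exact hy' a (by omega)
  -- assembly
  rcases Nat.lt_or_ge Y.card 1 with h0 | h0
  · have hYe : Y = ∅ := Finset.card_eq_zero.mp (by omega)
    refine ⟨[], by unfold exL; simp, c0, C0, fun _ _ => rfl, fun x => ?_⟩
    rw [hYe]
    constructor
    · intro h; exact absurd h (Finset.notMem_empty _)
    · rintro ⟨a, h1, h2, -⟩
      rw [List.length_nil] at h2
      omega
  rcases Nat.lt_or_ge Y.card 2 with h1 | h1
  · obtain ⟨y, hYy⟩ := Finset.card_eq_one.mp (show Y.card = 1 by omega)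
    obtain ⟨g1, g2, g3⟩ := hY y (by rw [hYy]; exact mem_singleton_self y)
    have key : ∀ m, m < 2 ^ cv0.length → [m] ∈ exL m1 m2 →
        (∀ w, y ⋖ w ↔ ∃ b < cv0.length, m.testBit b = true ∧ c0 b = w) →
        ∃ ex ∈ exL m1 m2, ∃ c : ℕ → P,
      Cod (cv0.length + ex.length) (cvX cv0 ex) (lvX lv0 ex) c ∧
      (∀ a < cv0.length, c a = c0 a) ∧
      ∀ x, x ∈ Y ↔ ∃ a, cv0.length ≤ a ∧ a < cv0.length + ex.length ∧ c a = x := by
      intro m hm hmem hcov
      refine ⟨[m], hmem, _, one y g1 m hm g2 hcov, fun a ha => if_neg (by omega), fun x => ?_⟩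
      rw [hYy, mem_singleton, List.length_singleton]
      constructor
      · rintro rfl
        exact ⟨cv0.length, le_rfl, by omega, if_pos rfl⟩
      · rintro ⟨a, h3, h4, h5⟩
        rw [if_pos (show a = cv0.length by omega)] at h5
        exact h5.symm
    rcases g3 with g3 | g3
    · exact key m1 hm1 (by unfold exL; simp) g3
    · exact key m2 hm2 (by unfold exL; simp) g3
  · obtain ⟨y, y', hne, hYy⟩ := Finset.card_eq_two.mp (show Y.card = 2 by omega)
    obtain ⟨g1, g2, g3⟩ := hY y (by rw [hYy]; simp)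
    obtain ⟨g1', g2', g3'⟩ := hY y' (by rw [hYy]; simp)
    have key : ∀ z z' : P, z ≠ z' → Y = {z, z'} → (∀ a < cv0.length, c0 a ≠ z) →
        (∀ a < cv0.length, c0 a ≠ z') → lev z = 9 → lev z' = 9 → ∀ m m', m < 2 ^ cv0.length →
        m' < 2 ^ cv0.length → [m, m'] ∈ exL m1 m2 →
        (∀ w, z ⋖ w ↔ ∃ b < cv0.length, m.testBit b = true ∧ c0 b = w) →
        (∀ w, z' ⋖ w ↔ ∃ b < cv0.length, m'.testBit b = true ∧ c0 b = w) →
        ∃ ex ∈ exL m1 m2, ∃ c : ℕ → P,
      Cod (cv0.length + ex.length) (cvX cv0 ex) (lvX lv0 ex) c ∧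
      (∀ a < cv0.length, c a = c0 a) ∧
      ∀ x, x ∈ Y ↔ ∃ a, cv0.length ≤ a ∧ a < cv0.length + ex.length ∧ c a = x := by
      intro z z' hzz hYz k1 k2 k3 k4 m m' hm hm' hmem hcov hcov'
      refine ⟨[m, m'], hmem, _, two z z' hzz k1 k2 m m' hm hm' k3 k4 hcov hcov', fun a ha => ?_,
        fun x => ?_⟩
      · rw [if_neg (by omega), if_neg (by omega)]
      · rw [hYz, mem_insert, mem_singleton]
        have hlen : [m, m'].length = 2 := rfl
        rw [hlen]
        constructor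
        · rintro (rfl | rfl)
          · exact ⟨cv0.length, le_rfl, by omega, by rw [if_neg (by omega), if_pos rfl]⟩
          · exact ⟨cv0.length + 1, by omega, by omega, if_pos rfl⟩
        · rintro ⟨a, h3, h4, h5⟩
          rcases show a = cv0.length ∨ a = cv0.length + 1 by omega with h6 | h6
          · rw [if_neg (by omega), if_pos h6] at h5
            exact Or.inl h5.symm
          · rw [if_pos h6] at h5
            exact Or.inr h5.symm
    rcases g3 with g3 | g3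
    · rcases g3' with g3' | g3'
      · exact key y y' hne hYy g1 g1' g2 g2' m1 m1 hm1 hm1 (by unfold exL; simp) g3 g3'
      · exact key y y' hne hYy g1 g1' g2 g2' m1 m2 hm1 hm2 (by unfold exL; simp) g3 g3'
    · rcases g3' with g3' | g3'
      · exact key y' y hne.symm (by rw [hYy, Finset.pair_comm]) g1' g1 g2' g2 m1 m2 hm1 hm2
          (by unfold exL; simp) g3' g3
      · exact key y y' hne hYy g1 g1' g2 g2' m2 m2 hm2 hm2 (by unfold exL; simp) g3 g3'

/-- **Order two of all up-sets up to `n0`.** -/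
theorem xtr_low (C : Cod cv0.length (fun a => cv0.getD a 0) (fun a => lv0.getD a 0) c0)
    (hl : lv0.length = cv0.length) (hcv : ∀ a < cv0.length, cv0.getD a 0 < 2 ^ a) {m1 m2 : ℕ}
    (hm1 : m1 < 2 ^ cv0.length) (hm2 : m2 < 2 ^ cv0.length)
    (hchk : ∀ ex ∈ exL m1 m2, xChk cv0 lv0 i0 n0 bm ex = true) {Y : Finset P}
    (hY2 : Y.card ≤ 2) (hY : ∀ y ∈ Y, (∀ a < cv0.length, c0 a ≠ y) ∧
      AddE cv0.length c0 m1 m2 y) {U : Finset P}
    (hU : ∀ x ∈ U, (∃ a < cv0.length, c0 a = x) ∨ x ∈ Y) (hup : ∀ x ∈ U, ∀ y, x ≤ y → y ∈ U)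
    (hbm : bm < 2 ^ cv0.length) (hb : ∀ a < cv0.length, bm.testBit a = true → c0 a ∈ U) :
    ∀ n < n0 + 1, (1 + X : ℤ[X]) ^ 2 ∣ Z {x : P // x ∈ U} i0 n := by
  obtain ⟨ex, hex, c, hC, hc, hYc⟩ := exists_codX C hl hcv hm1 hm2 hY2 hY
  have h := hchk ex hex
  unfold xChk at h
  rw [Bool.and_eq_true, Bool.and_eq_true, List.all_eq_true] at h
  obtain ⟨⟨h1, h2⟩, h3⟩ := h
  have hUs := usOK_of_chk h1
  obtain ⟨J, hJ, hJn, hJU⟩ := hC.exists_code hUs le_rfl (fun x hx => by
    rcases hU x hx with ⟨a, ha, h4⟩ | h4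
    · exact ⟨a, by omega, by rw [hc a ha]; exact h4⟩
    · obtain ⟨a, -, h5, h6⟩ := (hYc x).mp h4
      exact ⟨a, h5, h6⟩) hup
  have hmask : Nat.land bm J = bm := by
    rw [land_iff (n := cv0.length) hbm]
    intro a ha h4
    rw [← hC.mem_iff (show a < cv0.length + ex.length by omega), hJU, hc a ha]
    exact hb a ha h4
  have hmem := mkL_mem (N := cv0.length + ex.length) (i0 := i0) (n0 := n0) (lv := lvX lv0 ex)
    hJ hmask
  have h5 := cod_low hC hUs le_rfl h2 hmem hJ hJn (h3 _ hmem)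
  intro n hn
  have h6 := h5 n hn
  have h7 : (mkE (cv0.length + ex.length) i0 n0 (lvX lv0 ex) J).1 = J := rfl
  rw [h7, hJU] at h6
  exact h6

/-- **The first pole of the complete set.** -/
theorem xtr_full (C : Cod cv0.length (fun a => cv0.getD a 0) (fun a => lv0.getD a 0) c0)
    (hl : lv0.length = cv0.length) (hcv : ∀ a < cv0.length, cv0.getD a 0 < 2 ^ a) {m1 m2 : ℕ}
    (hm1 : m1 < 2 ^ cv0.length) (hm2 : m2 < 2 ^ cv0.length)
    (hchk : ∀ ex ∈ exL m1 m2, xChk cv0 lv0 i0 (n0 - 1) bm ex = true)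
    (hful : ∀ ex ∈ exL m1 m2, fChk cv0 lv0 i0 n0 ex = true) {Y : Finset P}
    (hY2 : Y.card ≤ 2) (hY : ∀ y ∈ Y, (∀ a < cv0.length, c0 a ≠ y) ∧
      AddE cv0.length c0 m1 m2 y) {U : Finset P}
    (hU : ∀ x, x ∈ U ↔ (∃ a < cv0.length, c0 a = x) ∨ x ∈ Y)
    (hi9 : i0 < 9) (hb0 : ((range cv0.length).filter
      (fun a => decide (lv0.getD a 0 = i0) = true)).card = 2)
    (hb1 : Even ((range cv0.length).filter (fun a => decide (lv0.getD a 0 < i0) = true)).card)
    (hup : ∀ x ∈ U, ∀ y, x ≤ y → y ∈ U) {f : Polynomial (PowerSeries ℤ)}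
    (hf : ∀ n, exq n f = Z {x : P // x ∈ U} i0 n) : Pl n0 2 1 f := by
  obtain ⟨ex, hex, c, hC, hc, hYc⟩ := exists_codX C hl hcv hm1 hm2 hY2 hY
  have h := hchk ex hex
  unfold xChk at h
  rw [Bool.and_eq_true, Bool.and_eq_true, List.all_eq_true] at h
  obtain ⟨⟨h1, h2⟩, h3⟩ := h
  have hUs := usOK_of_chk h1
  have g := hful ex hex
  unfold fChk at g
  rw [Bool.and_eq_true, Bool.and_eq_true, Bool.and_eq_true] at g
  obtain ⟨⟨⟨g1, g2⟩, g3⟩, g4⟩ := g
  have g3' : 2 ^ (cv0.length + ex.length) - 1 ∈ mkUs (cvX cv0 ex) (cv0.length + ex.length) := by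
    simpa using g3
  have g4' := of_decide_eq_true g4
  have hpos : 0 < 2 ^ (cv0.length + ex.length) := by positivity
  have h5 := cod_pole hC hUs le_rfl g1 (List.mem_singleton_self _) g3' (by
    show 2 ^ (cv0.length + ex.length) - 1 < 2 ^ (cv0.length + ex.length)
    omega) g2
  have hS : toS (cv0.length + ex.length) c (mkE (cv0.length + ex.length) i0 n0 (lvX lv0 ex)
      (2 ^ (cv0.length + ex.length) - 1)).1 = U := by
    ext x
    rw [mem_toS]
    show (∃ a < cv0.length + ex.length, (2 ^ (cv0.length + ex.length) - 1).testBit a = true ∧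
      c a = x) ↔ x ∈ U
    rw [hU]
    constructor
    · rintro ⟨a, ha, -, rfl⟩
      by_cases h6 : a < cv0.length
      · exact Or.inl ⟨a, h6, (hc a h6).symm⟩
      · exact Or.inr ((hYc _).mpr ⟨a, by omega, ha, rfl⟩)
    · rintro (⟨a, ha, h6⟩ | h6)
      · exact ⟨a, by omega, by simp [Nat.testBit_two_pow_sub_one]; omega, by rw [hc a ha]; exact h6⟩
      · obtain ⟨a, -, h7, h8⟩ := (hYc x).mp h6
        exact ⟨a, h7, by simp [Nat.testBit_two_pow_sub_one]; omega, h8⟩
  rw [hS, g4'] at h5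
  obtain ⟨h11, s, h12, h13⟩ := h5
  have hlv : ∀ x : {x : P // x ∈ U}, GaussPoset.lev x = GaussPoset.lev (x : P) :=
    lev_subtype (p := fun x => x ∈ U) (fun x y hxy hx => hup x hx y hxy)
  have hcount : ∀ g : ℕ → Prop, ∀ _ : DecidablePred g, (∀ l, g l → l < 9) →
      (univ.filter (fun x : {x : P // x ∈ U} => g (GaussPoset.lev x))).card =
      ((range cv0.length).filter (fun a => decide (g (lv0.getD a 0)) = true)).card := by
    intro g _ hg
    have e1 : (univ.filter (fun x : {x : P // x ∈ U} => g (GaussPoset.lev x))).card =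
        ∑ x : {x : P // x ∈ U}, (if g (GaussPoset.lev x) then 1 else 0) := by
      rw [Finset.card_filter]
    have e2 : ∑ x : {x : P // x ∈ U}, (if g (GaussPoset.lev x) then 1 else 0) =
        ∑ x ∈ U, (if g (GaussPoset.lev x) then 1 else 0) := by
      rw [← Finset.sum_coe_sort U]
      exact Finset.sum_congr rfl fun x _ => by rw [hlv]
    rw [e1, e2, ← Finset.card_filter]
    symm
    refine Finset.card_bij (fun a _ => c0 a) ?_ ?_ ?_
    · intro a ha
      rw [mem_filter, mem_range, decide_eq_true_eq] at ha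
      rw [mem_filter, hU]
      exact ⟨Or.inl ⟨a, ha.1, rfl⟩, by rw [C.lev a ha.1]; exact ha.2⟩
    · intro a ha a' ha' h
      rw [mem_filter, mem_range] at ha ha'
      exact C.inj a ha.1 a' ha'.1 h
    · intro x hx
      rw [mem_filter, hU] at hx
      rcases hx with ⟨⟨a, ha, rfl⟩ | hx, h6⟩
      · refine ⟨a, ?_, rfl⟩
        rw [mem_filter, mem_range, decide_eq_true_eq]
        exact ⟨ha, by rw [← C.lev a ha]; exact h6⟩
      · have h7 := (hY x hx).2.1
        have h8 := hg _ h6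
        omega
  have hcd : (lv {x : P // x ∈ U} i0).card = 2 := by
    rw [← hb0]
    exact hcount (fun l => l = i0) inferInstance (fun l hl => by omega)
  have hbl : Even (below {x : P // x ∈ U} i0) := by
    have h6 := hcount (fun l => l < i0) inferInstance (fun l hl => by omega)
    unfold below
    rw [h6]
    exact hb1
  have h0 : exq 0 f = X ^ (below {x : P // x ∈ U} i0) * (1 + X) ^ 2 := by
    rw [hf, Z_zero, hcd]
  refine ⟨fun n hn => ?_, by norm_num, X ^ (below {x : P // x ∈ U} i0), s * (X : ℤ[X]) ^ 0, by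
    rw [h0, mul_comm], ?_, ?_, ?_⟩
  · rw [hf]
    exact h11 n hn
  · rw [eval_pow, eval_X]
    exact pow_ne_zero _ (by norm_num)
  · rw [hf, h12]
    simp
  · rw [eval_mul, h13, eval_pow, eval_pow, eval_X, hbl.neg_one_pow]
    norm_num

end Pool.Agent.GaussPoset.J8

end
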