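import Mathlib
import Pool.Agent.W_448zz_h61.Ns
import Pool.Agent.W_448zz_h61.M029

/-! From `Pool.Agent.W_448tw_h76.TwE` -/

section

/-!
Product formula for constrained window sums.
-/

namespace Pool.Agent.GaussPoset

set_option linter.unusedSectionVars false

open Polynomial Finset

universe u

section SC

variable {α : Type u} [Fintype α] [DecidableEq α]

open Classical in
/-- the sum over the configurations of energy `n` with the property `T` -/
noncomputable def SC (T : (α → ℕ) → Finset α → Prop) (n : ℕ) : ℤ[X] :=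
  ∑ F : Finset α, ∑ _e ∈ ((univ : Finset α).piAntidiag n).filter (fun e => T e F),
    (X : ℤ[X]) ^ F.card

open Classical in
/-- the configurations of energy `n` with the property `T` -/
noncomputable def cfg (T : (α → ℕ) → Finset α → Prop) (n : ℕ) : Finset (Finset α × (α → ℕ)) :=
  ((univ : Finset (Finset α)) ×ˢ ((univ : Finset α).piAntidiag n)).filter (fun x => T x.2 x.1)

lemma mem_cfg {T : (α → ℕ) → Finset α → Prop} {n : ℕ} {x : Finset α × (α → ℕ)} :
    x ∈ cfg T n ↔ ∑ y, x.2 y = n ∧ T x.2 x.1 := by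
  classical
  unfold cfg
  rw [mem_filter, mem_product, mem_piAntidiag]
  constructor
  · rintro ⟨⟨-, h1, -⟩, h2⟩
    exact ⟨h1, h2⟩
  · rintro ⟨h1, h2⟩
    exact ⟨⟨mem_univ _, h1, fun _ _ => mem_univ _⟩, h2⟩

lemma SC_eq_cfg (T : (α → ℕ) → Finset α → Prop) (n : ℕ) :
    SC T n = ∑ x ∈ cfg T n, (X : ℤ[X]) ^ x.1.card := by
  classical
  unfold SC cfg
  rw [Finset.sum_filter, Finset.sum_product]
  refine Finset.sum_congr rfl fun F _ => ?_
  rw [Finset.sum_filter]

lemma SC_congr {T T' : (α → ℕ) → Finset α → Prop} (h : ∀ e F, T e F ↔ T' e F) (n : ℕ) :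
    SC T n = SC T' n := by
  have : T = T' := by
    funext e F
    exact propext (h e F)
  rw [this]

lemma SC_eq_zero {T : (α → ℕ) → Finset α → Prop} {n : ℕ}
    (h : ∀ e F, T e F → ∑ x, e x = n → False) : SC T n = 0 := by
  rw [SC_eq_cfg]
  refine Finset.sum_eq_zero fun x hx => ?_
  rw [mem_cfg] at hx
  exact (h _ _ hx.2 hx.1).elim

/-- product formula for independent parts -/
theorem SC_prod (p : α → Prop) [DecidablePred p] (T : (α → ℕ) → Finset α → Prop)
    (T1 : ({x // p x} → ℕ) → Finset {x // p x} → Prop)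
    (T2 : ({x // ¬ p x} → ℕ) → Finset {x // ¬ p x} → Prop)
    (hT : ∀ e F, T e F ↔ T1 (fun x => e x) (F.subtype p) ∧
      T2 (fun x => e x) (F.subtype (fun x => ¬ p x))) (n : ℕ) :
    SC T n = ∑ ab ∈ antidiagonal n, SC T1 ab.1 * SC T2 ab.2 := by
  classical
  have hR : ∀ ab : ℕ × ℕ, SC T1 ab.1 * SC T2 ab.2 =
      ∑ xy ∈ cfg T1 ab.1 ×ˢ cfg T2 ab.2, (X : ℤ[X]) ^ (xy.1.1.card + xy.2.1.card) := by
    intro ab
    rw [SC_eq_cfg, SC_eq_cfg, Finset.sum_mul_sum, Finset.sum_product]
    refine Finset.sum_congr rfl fun x _ => Finset.sum_congr rfl fun y _ => ?_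
    rw [pow_add]
  rw [Finset.sum_congr rfl (fun ab _ => hR ab), Finset.sum_sigma', SC_eq_cfg]
  refine Finset.sum_bij'
    (fun (x : Finset α × (α → ℕ)) _ => (⟨(∑ y : {x // p x}, x.2 y, ∑ y : {x // ¬ p x}, x.2 y),
      ((x.1.subtype p, fun y => x.2 y), (x.1.subtype (fun y => ¬ p y), fun y => x.2 y))⟩ :
      (_ : ℕ × ℕ) × ((Finset {x // p x} × ({x // p x} → ℕ)) ×
        (Finset {x // ¬ p x} × ({x // ¬ p x} → ℕ)))))
    (fun s _ => (s.2.1.1.map (Function.Embedding.subtype _) ∪
      s.2.2.1.map (Function.Embedding.subtype _),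
      fun y => if h : p y then s.2.1.2 ⟨y, h⟩ else s.2.2.2 ⟨y, h⟩)) ?_ ?_ ?_ ?_ ?_
  · rintro ⟨F, e⟩ hx
    rw [mem_cfg] at hx
    rw [mem_sigma, HasAntidiagonal.mem_antidiagonal, mem_product, mem_cfg, mem_cfg]
    have h1 := (hT e F).mp hx.2
    refine ⟨?_, ⟨rfl, h1.1⟩, ⟨rfl, h1.2⟩⟩
    have h2 := Fintype.sum_subtype_add_sum_subtype p e
    exact h2.trans hx.1
  · rintro ⟨⟨a, b⟩, ⟨F1, e1⟩, ⟨F2, e2⟩⟩ hs
    rw [mem_sigma, HasAntidiagonal.mem_antidiagonal, mem_product, mem_cfg, mem_cfg] at hs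
    obtain ⟨h1, ⟨h2, h3⟩, ⟨h4, h5⟩⟩ := hs
    simp only at h1 h2 h3 h4 h5
    rw [mem_cfg]
    simp only
    constructor
    · rw [← Fintype.sum_subtype_add_sum_subtype p, ← h1, ← h2, ← h4]
      congr 1
      · exact Finset.sum_congr rfl fun y _ => by rw [dif_pos y.2]
      · exact Finset.sum_congr rfl fun y _ => by rw [dif_neg y.2]
    · rw [hT]
      have e1' : (fun x : {x // p x} => if h : p (x : α) then e1 ⟨x, h⟩ else e2 ⟨x, h⟩) = e1 := by
        funext x
        rw [dif_pos x.2]
      have e2' : (fun x : {x // ¬ p x} => if h : p (x : α) then e1 ⟨x, h⟩ else e2 ⟨x, h⟩) = e2 := by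
        funext x
        rw [dif_neg x.2]
      have f1 : (F1.map (Function.Embedding.subtype _) ∪
          F2.map (Function.Embedding.subtype _)).subtype p = F1 := by
        ext x
        rw [mem_subtype, mem_union, mem_map, mem_map]
        constructor
        · rintro (⟨y, hy, hyx⟩ | ⟨y, hy, hyx⟩)
          · have : y = x := Subtype.ext hyx
            rw [← this]; exact hy
          · have h6 : (y : α) = (x : α) := hyx
            exact absurd (h6.symm ▸ x.2 : p (y : α)) y.2
        · intro hx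
          exact Or.inl ⟨x, hx, rfl⟩
      have f2 : (F1.map (Function.Embedding.subtype _) ∪
          F2.map (Function.Embedding.subtype _)).subtype (fun x => ¬ p x) = F2 := by
        ext x
        rw [mem_subtype, mem_union, mem_map, mem_map]
        constructor
        · rintro (⟨y, hy, hyx⟩ | ⟨y, hy, hyx⟩)
          · have h6 : (y : α) = (x : α) := hyx
            exact absurd (h6 ▸ y.2 : p (x : α)) x.2
          · have : y = x := Subtype.ext hyx
            rw [← this]; exact hy
        · intro hx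
          exact Or.inr ⟨x, hx, rfl⟩
      rw [e1', e2', f1, f2]
      exact ⟨h3, h5⟩
  · rintro ⟨F, e⟩ hx
    simp only
    refine Prod.ext ?_ ?_
    · ext x
      simp only [mem_union, mem_map, mem_subtype, Function.Embedding.coe_subtype, Subtype.exists,
        exists_and_left, exists_prop, exists_eq_right_right]
      by_cases h : p x
      · simp [h]
      · simp [h]
    · funext x
      simp only
      split_ifs <;> rfl
  · rintro ⟨⟨a, b⟩, ⟨F1, e1⟩, ⟨F2, e2⟩⟩ hs
    rw [mem_sigma, HasAntidiagonal.mem_antidiagonal, mem_product, mem_cfg, mem_cfg] at hs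
    obtain ⟨h1, ⟨h2, h3⟩, ⟨h4, h5⟩⟩ := hs
    simp only at h1 h2 h3 h4 h5
    have e1' : (fun x : {x // p x} => if h : p (x : α) then e1 ⟨x, h⟩ else e2 ⟨x, h⟩) = e1 := by
      funext x
      rw [dif_pos x.2]
    have e2' : (fun x : {x // ¬ p x} => if h : p (x : α) then e1 ⟨x, h⟩ else e2 ⟨x, h⟩) = e2 := by
      funext x
      rw [dif_neg x.2]
    have f1 : (F1.map (Function.Embedding.subtype _) ∪
        F2.map (Function.Embedding.subtype _)).subtype p = F1 := by
      ext x
      rw [mem_subtype, mem_union, mem_map, mem_map]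
      constructor
      · rintro (⟨y, hy, hyx⟩ | ⟨y, hy, hyx⟩)
        · have : y = x := Subtype.ext hyx
          rw [← this]; exact hy
        · have h6 : (y : α) = (x : α) := hyx
          exact absurd (h6.symm ▸ x.2 : p (y : α)) y.2
      · intro hx
        exact Or.inl ⟨x, hx, rfl⟩
    have f2 : (F1.map (Function.Embedding.subtype _) ∪
        F2.map (Function.Embedding.subtype _)).subtype (fun x => ¬ p x) = F2 := by
      ext x
      rw [mem_subtype, mem_union, mem_map, mem_map]
      constructor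
      · rintro (⟨y, hy, hyx⟩ | ⟨y, hy, hyx⟩)
        · have h6 : (y : α) = (x : α) := hyx
          exact absurd (h6 ▸ y.2 : p (x : α)) x.2
        · have : y = x := Subtype.ext hyx
          rw [← this]; exact hy
      · intro hx
        exact Or.inr ⟨x, hx, rfl⟩
    simp only
    rw [e1', e2', f1, f2, h2, h4]
  · rintro ⟨F, e⟩ hx
    simp only
    congr 1
    rw [card_subtype, card_subtype]
    exact (Finset.card_filter_add_card_filter_not (s := F) p).symm

end SC

end Pool.Agent.GaussPoset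

end

/-! From `Pool.Agent.W_448tw_h76.TwF` -/

section

/-!
Restriction, product formula and change of the window for constrained window sums.
-/

namespace Pool.Agent.GaussPoset

set_option linter.unusedSectionVars false
set_option maxHeartbeats 400000

open Polynomial Finset

universe u

section Off

variable {P : Type u} [Fintype P] [PartialOrder P] [DecidableEq P]

lemma ZB_eq_SC (i : ℕ) (D : Finset P) (g β : P → ℕ) (n : ℕ) :
    ZB i D g β n = SC (Cst i D g β) n := rfl

lemma cst_empty_iff {i : ℕ} {β : P → ℕ} {e : P → ℕ} {F : Finset P} :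
    Cst i ∅ 0 β e F ↔ Vd i e F ∧ ∀ x, x ∉ F → (β x : ℤ) ≤ rho i e x := by
  unfold Cst
  constructor
  · rintro ⟨h1, -, h3⟩
    exact ⟨h1, fun x hx => h3 x (Finset.notMem_empty x) hx⟩
  · rintro ⟨h1, h3⟩
    exact ⟨h1, fun x hx => absurd hx (Finset.notMem_empty x), fun x _ hx => h3 x hx⟩

lemma Z_eq_ZB (i n : ℕ) : Z P i n = ZB (P := P) i ∅ 0 0 n := by
  classical
  rw [Z_eq_sum, Finset.sum_comm]
  unfold ZB
  refine Finset.sum_congr rfl fun F _ => ?_
  rw [← Finset.sum_filter]
  refine Finset.sum_congr (Finset.filter_congr fun e _ => ?_) (fun _ _ => rfl)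
  rw [cst_empty_iff]
  constructor
  · intro h
    exact ⟨h, fun x hx => by simpa using h.2.1 x hx⟩
  · intro h
    exact h.1

variable {D : Finset P} (hD : ∀ x y, x ≤ y → y ∈ D → x ∈ D)

include hD in
lemma cst_off_bound_iff {i : ℕ} (hlev : ∀ x ∈ D, i < lev x) (β : P → ℕ)
    (e : {x : P // x ∉ D} → ℕ) (F : Finset {x : P // x ∉ D}) :
    Cst i D 0 β (ext0 D e) (F.map (Function.Embedding.subtype _)) ↔
      Cst i ∅ 0 (fun x : {x : P // x ∉ D} => β x) e F := by
  classical
  have hmem : ∀ x : P, x ∈ F.map (Function.Embedding.subtype _) ↔ ∃ h : x ∉ D, ⟨x, h⟩ ∈ F := by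
    intro x
    rw [mem_map]
    constructor
    · rintro ⟨y, hy, rfl⟩
      exact ⟨y.2, hy⟩
    · rintro ⟨h, hx⟩
      exact ⟨⟨x, h⟩, hx, rfl⟩
  have hr : ∀ x : {x : P // x ∉ D}, rho i (ext0 D e) (x : P) = rho i e x := by
    intro x
    unfold rho
    rw [ext0_of x.2, lev_off hD x]
  have key := cst_off_iff hD hlev e F
  rw [cst_empty_iff, ← key]
  constructor
  · rintro ⟨h1, h2, h3⟩
    refine ⟨⟨h1, h2, fun x _ hxF => by simpa using h1.2.1 x hxF⟩, ?_⟩
    intro x hx
    have := h3 (x : P) x.2 (fun h => hx ((hmem x).mp h).2)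
    rw [hr] at this
    exact this
  · rintro ⟨⟨h1, h2, -⟩, h3⟩
    refine ⟨h1, h2, ?_⟩
    intro x hx hxF
    have := h3 ⟨x, hx⟩ (fun h => hxF ((hmem x).mpr ⟨hx, h⟩))
    rw [← hr] at this
    exact this

include hD in
/-- the bounded sum with the lower set `D` frozen at zero is a bounded sum over the rest -/
theorem ZB_off_bound {i : ℕ} (hlev : ∀ x ∈ D, i < lev x) (β : P → ℕ) (n : ℕ) :
    ZB i D 0 β n = ZB (P := {x : P // x ∉ D}) i ∅ 0 (fun x : {x : P // x ∉ D} => β x) n := by
  classical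
  unfold ZB
  rw [Finset.sum_sigma', Finset.sum_sigma']
  symm
  refine Finset.sum_bij (fun a _ => (⟨a.1.map (Function.Embedding.subtype _), ext0 D a.2⟩ :
    (_ : Finset P) × (P → ℕ))) ?_ ?_ ?_ ?_
  · rintro ⟨F, e⟩ ha
    simp only [mem_sigma, mem_univ, true_and, mem_filter, mem_piAntidiag] at ha ⊢
    refine ⟨⟨?_, fun _ _ => trivial⟩, (cst_off_bound_iff hD hlev β e F).mpr ha.2⟩
    have h2 : ∑ x, ext0 D e x = ∑ x ∈ univ.filter (fun x => x ∉ D), ext0 D e x := by
      symm
      refine Finset.sum_subset (Finset.filter_subset _ _) fun x _ hx => ?_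
      unfold ext0
      rw [dif_neg]
      simpa using hx
    have h3 : ∑ x ∈ univ.filter (fun x => x ∉ D), ext0 D e x = ∑ x, e x := by
      rw [Finset.sum_subtype (univ.filter (fun x => x ∉ D)) (p := fun x => x ∉ D) (by simp)]
      exact Finset.sum_congr rfl fun x _ => ext0_of x.2
    have h4 : ∑ x, e x = n := ha.1.1
    change ∑ x, ext0 D e x = n
    rw [h2, h3, h4]
  · rintro ⟨F, e⟩ _ ⟨F', e'⟩ _ h
    simp only [Sigma.mk.injEq, heq_eq_eq] at h ⊢
    refine ⟨Finset.map_injective _ h.1, ?_⟩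
    funext x
    have := congrFun h.2 (x : P)
    rwa [ext0_of x.2, ext0_of x.2] at this
  · rintro ⟨F, e⟩ ha
    simp only [mem_sigma, mem_univ, true_and, mem_filter, mem_piAntidiag] at ha
    obtain ⟨⟨ha1, -⟩, ha2⟩ := ha
    have hF : (F.subtype (fun x => x ∉ D)).map (Function.Embedding.subtype _) = F := by
      rw [Finset.subtype_map_of_mem]
      intro x hx hxD
      exact (ha2.2.1 x hxD).1 hx
    have he : ext0 D (fun x => e x) = e := by
      funext x
      unfold ext0
      by_cases h : x ∈ D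
      · rw [dif_neg (not_not.mpr h)]
        exact ((ha2.2.1 x h).2).symm
      · rw [dif_pos h]
    refine ⟨⟨F.subtype (fun x => x ∉ D), fun x => e x⟩, ?_, ?_⟩
    · simp only [mem_sigma, mem_univ, true_and, mem_filter, mem_piAntidiag]
      refine ⟨⟨?_, fun _ _ => trivial⟩, ?_⟩
      · have h2 : ∑ x, e x = ∑ x ∈ univ.filter (fun x => x ∉ D), e x := by
          symm
          refine Finset.sum_subset (Finset.filter_subset _ _) fun x _ hx => ?_
          have hxD : x ∈ D := by simpa using hx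
          simpa using (ha2.2.1 x hxD).2
        rw [Finset.sum_subtype (univ.filter (fun x => x ∉ D)) (p := fun x => x ∉ D) (by simp)]
          at h2
        have h3 : ∑ x, e x = n := ha1
        rw [h3] at h2
        exact h2.symm
      · exact (cst_off_bound_iff hD hlev β _ _).mp (by rw [hF, he]; exact ha2)
    · simp only [Sigma.mk.injEq, heq_eq_eq]
      exact ⟨hF, he⟩
  · rintro ⟨F, e⟩ _
    simp only [card_map]

end Off

section Prod2

variable {Q : Type u} [Fintype Q] [PartialOrder Q] [DecidableEq Q]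

/-- product formula: no relations between `p` and its complement -/
theorem ZB_prod (p : Q → Prop) [DecidablePred p] (hp : ∀ x y, x ≤ y → (p x ↔ p y)) (i : ℕ)
    (β : Q → ℕ) (n : ℕ) :
    ZB i ∅ 0 β n = ∑ ab ∈ antidiagonal n,
      ZB (P := {x // p x}) i ∅ 0 (fun x : {x // p x} => β x) ab.1 *
      ZB (P := {x // ¬ p x}) i ∅ 0 (fun x : {x // ¬ p x} => β x) ab.2 := by
  rw [ZB_eq_SC]
  refine SC_prod p _ _ _ ?_ n
  intro e F
  have hl1 : ∀ x : {x // p x}, lev x = lev (x : Q) :=
    lev_subtype (p := p) (fun x y hxy hx => (hp x y hxy).mp hx)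
  have hl2 : ∀ x : {x // ¬ p x}, lev x = lev (x : Q) :=
    lev_subtype (p := fun x => ¬ p x) (fun x y hxy hx => fun h => hx ((hp x y hxy).mpr h))
  have hr1 : ∀ x : {x // p x}, rho i (fun y : {x // p x} => e y) x = rho i e (x : Q) := by
    intro x
    unfold rho
    rw [hl1]
  have hr2 : ∀ x : {x // ¬ p x}, rho i (fun y : {x // ¬ p x} => e y) x = rho i e (x : Q) := by
    intro x
    unfold rho
    rw [hl2]
  have hm1 : ∀ x : {x // p x}, x ∈ F.subtype p ↔ (x : Q) ∈ F := fun x => mem_subtype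
  have hm2 : ∀ x : {x // ¬ p x}, x ∈ F.subtype (fun x => ¬ p x) ↔ (x : Q) ∈ F :=
    fun x => mem_subtype
  rw [cst_empty_iff, cst_empty_iff, cst_empty_iff]
  constructor
  · rintro ⟨⟨h1, h2, h3, h4⟩, h5⟩
    refine ⟨⟨⟨?_, ?_, ?_, ?_⟩, ?_⟩, ⟨⟨?_, ?_, ?_, ?_⟩, ?_⟩⟩
    · intro x y hxy hx
      rw [hm1] at hx ⊢
      exact h1 x y hxy hx
    · intro x hx
      rw [hm1] at hx
      rw [hr1]
      exact h2 x hx
    · intro x y hxy hx hy
      rw [hm1] at hx hy
      rw [hr1, hr1]
      exact h3 x y hxy hx hy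
    · intro x y hxy hx hy
      rw [hm1] at hx hy
      rw [hr1, hr1]
      exact h4 x y hxy hx hy
    · intro x hx
      rw [hm1] at hx
      rw [hr1]
      exact h5 x hx
    · intro x y hxy hx
      rw [hm2] at hx ⊢
      exact h1 x y hxy hx
    · intro x hx
      rw [hm2] at hx
      rw [hr2]
      exact h2 x hx
    · intro x y hxy hx hy
      rw [hm2] at hx hy
      rw [hr2, hr2]
      exact h3 x y hxy hx hy
    · intro x y hxy hx hy
      rw [hm2] at hx hy
      rw [hr2, hr2]
      exact h4 x y hxy hx hy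
    · intro x hx
      rw [hm2] at hx
      rw [hr2]
      exact h5 x hx
  · rintro ⟨⟨⟨a1, a2, a3, a4⟩, a5⟩, ⟨⟨b1, b2, b3, b4⟩, b5⟩⟩
    refine ⟨⟨?_, ?_, ?_, ?_⟩, ?_⟩
    · intro x y hxy hx
      by_cases h : p x
      · exact (hm1 ⟨y, (hp x y hxy).mp h⟩).mp (a1 ⟨x, h⟩ _ hxy ((hm1 ⟨x, h⟩).mpr hx))
      · exact (hm2 ⟨y, fun h' => h ((hp x y hxy).mpr h')⟩).mp
          (b1 ⟨x, h⟩ _ hxy ((hm2 ⟨x, h⟩).mpr hx))
    · intro x hx
      by_cases h : p x
      · rw [← hr1 ⟨x, h⟩]
        exact a2 _ (fun h' => hx ((hm1 _).mp h'))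
      · rw [← hr2 ⟨x, h⟩]
        exact b2 _ (fun h' => hx ((hm2 _).mp h'))
    · intro x y hxy hx hy
      by_cases h : p x
      · have h' := (hp x y hxy).mp h
        rw [← hr1 ⟨x, h⟩, ← hr1 ⟨y, h'⟩]
        exact a3 _ _ hxy (fun h' => hx ((hm1 _).mp h')) (fun h' => hy ((hm1 _).mp h'))
      · have h' : ¬ p y := fun h' => h ((hp x y hxy).mpr h')
        rw [← hr2 ⟨x, h⟩, ← hr2 ⟨y, h'⟩]
        exact b3 _ _ hxy (fun h' => hx ((hm2 _).mp h')) (fun h' => hy ((hm2 _).mp h'))
    · intro x y hxy hx hy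
      by_cases h : p x
      · have h' := (hp x y hxy.le).mp h
        rw [← hr1 ⟨x, h⟩, ← hr1 ⟨y, h'⟩]
        exact a4 _ _ hxy ((hm1 _).mpr hx) ((hm1 _).mpr hy)
      · have h' : ¬ p y := fun h' => h ((hp x y hxy.le).mpr h')
        rw [← hr2 ⟨x, h⟩, ← hr2 ⟨y, h'⟩]
        exact b4 _ _ hxy ((hm2 _).mpr hx) ((hm2 _).mpr hy)
    · intro x hx
      by_cases h : p x
      · rw [← hr1 ⟨x, h⟩]
        exact a5 _ (fun h' => hx ((hm1 _).mp h'))
      · rw [← hr2 ⟨x, h⟩]
        exact b5 _ (fun h' => hx ((hm2 _).mp h'))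

end Prod2

section Iso

variable {P : Type u} [Fintype P] [PartialOrder P] [DecidableEq P]
variable {Q : Type*} [Fintype Q] [PartialOrder Q] [DecidableEq Q]

omit [DecidableEq P] [DecidableEq Q] in
lemma lev_iso (φ : P ≃o Q) (x : P) : lev (φ x) = lev x := by
  apply le_antisymm
  · obtain ⟨f, hf, hfx⟩ := Nat.sInf_mem (exists_strictAnti x)
    have h1 : StrictAnti (fun y : Q => f (φ.symm y)) := by
      intro a b hab
      exact hf (φ.symm.lt_iff_lt.mpr hab)
    have h2 := lev_le h1 (φ x)
    simp only [OrderIso.symm_apply_apply] at h2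
    exact h2.trans hfx.le
  · obtain ⟨f, hf, hfx⟩ := Nat.sInf_mem (exists_strictAnti (φ x))
    have h1 : StrictAnti (fun y : P => f (φ y)) := by
      intro a b hab
      exact hf (φ.lt_iff_lt.mpr hab)
    exact (lev_le h1 x).trans hfx.le

/-- invariance under isomorphisms -/
theorem ZB_iso (φ : P ≃o Q) (i : ℕ) (β : Q → ℕ) (n : ℕ) :
    ZB i ∅ 0 (fun x : P => β (φ x)) n = ZB i ∅ 0 β n := by
  classical
  have hr : ∀ (e : Q → ℕ) (x : P), rho i (fun y => e (φ y)) x = rho i e (φ x) := by
    intro e x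
    unfold rho
    rw [lev_iso]
  have hC : ∀ (e : Q → ℕ) (F : Finset P), Cst i ∅ 0 (fun x : P => β (φ x)) (fun y => e (φ y)) F ↔
      Cst i ∅ 0 β e (F.map φ.toEquiv.toEmbedding) := by
    intro e F
    have hm : ∀ x : P, φ x ∈ F.map φ.toEquiv.toEmbedding ↔ x ∈ F := by
      intro x
      rw [mem_map]
      constructor
      · rintro ⟨y, hy, h⟩
        have : y = x := φ.injective h
        rw [← this]; exact hy
      · intro h
        exact ⟨x, h, rfl⟩
    rw [cst_empty_iff, cst_empty_iff]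
    unfold Vd
    constructor
    · rintro ⟨⟨h1, h2, h3, h4⟩, h5⟩
      refine ⟨⟨?_, ?_, ?_, ?_⟩, ?_⟩
      · intro x y hxy hx
        obtain ⟨x, rfl⟩ := φ.surjective x
        obtain ⟨y, rfl⟩ := φ.surjective y
        rw [hm] at hx ⊢
        exact h1 x y (φ.le_iff_le.mp hxy) hx
      · intro x hx
        obtain ⟨x, rfl⟩ := φ.surjective x
        rw [hm] at hx
        rw [← hr]
        exact h2 x hx
      · intro x y hxy hx hy
        obtain ⟨x, rfl⟩ := φ.surjective x
        obtain ⟨y, rfl⟩ := φ.surjective y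
        rw [hm] at hx hy
        rw [← hr, ← hr]
        exact h3 x y (φ.le_iff_le.mp hxy) hx hy
      · intro x y hxy hx hy
        obtain ⟨x, rfl⟩ := φ.surjective x
        obtain ⟨y, rfl⟩ := φ.surjective y
        rw [hm] at hx hy
        rw [← hr, ← hr]
        exact h4 x y (φ.lt_iff_lt.mp hxy) hx hy
      · intro x hx
        obtain ⟨x, rfl⟩ := φ.surjective x
        rw [hm] at hx
        rw [← hr]
        exact h5 x hx
    · rintro ⟨⟨h1, h2, h3, h4⟩, h5⟩
      refine ⟨⟨?_, ?_, ?_, ?_⟩, ?_⟩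
      · intro x y hxy hx
        rw [← hm] at hx ⊢
        exact h1 _ _ (φ.le_iff_le.mpr hxy) hx
      · intro x hx
        rw [hr]
        exact h2 _ (fun h => hx ((hm x).mp h))
      · intro x y hxy hx hy
        rw [hr, hr]
        exact h3 _ _ (φ.le_iff_le.mpr hxy) (fun h => hx ((hm x).mp h)) (fun h => hy ((hm y).mp h))
      · intro x y hxy hx hy
        rw [hr, hr]
        exact h4 _ _ (φ.lt_iff_lt.mpr hxy) ((hm x).mpr hx) ((hm y).mpr hy)
      · intro x hx
        rw [hr]
        exact h5 _ (fun h => hx ((hm x).mp h))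
  rw [ZB_eq_SC, ZB_eq_SC, SC_eq_cfg, SC_eq_cfg]
  symm
  refine Finset.sum_bij (fun x _ => (x.1.map φ.symm.toEquiv.toEmbedding, fun y => x.2 (φ y)))
    ?_ ?_ ?_ ?_
  · rintro ⟨F, e⟩ hx
    rw [mem_cfg] at hx ⊢
    simp only at hx ⊢
    refine ⟨?_, ?_⟩
    · rw [← hx.1]
      exact Fintype.sum_equiv φ.toEquiv _ _ (fun _ => rfl)
    · rw [hC]
      have h1 : (F.map φ.symm.toEquiv.toEmbedding).map φ.toEquiv.toEmbedding = F := by
        ext y
        simp [mem_map]
      rw [h1]
      exact hx.2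
  · rintro ⟨F, e⟩ _ ⟨F', e'⟩ _ h
    simp only [Prod.mk.injEq] at h ⊢
    refine ⟨Finset.map_injective _ h.1, ?_⟩
    funext y
    obtain ⟨x, rfl⟩ := φ.surjective y
    exact congrFun h.2 x
  · rintro ⟨F, e⟩ hx
    rw [mem_cfg] at hx
    simp only at hx
    refine ⟨(F.map φ.toEquiv.toEmbedding, fun y => e (φ.symm y)), ?_, ?_⟩
    · rw [mem_cfg]
      simp only
      refine ⟨?_, ?_⟩
      · rw [← hx.1]
        exact Fintype.sum_equiv φ.symm.toEquiv _ _ (fun _ => rfl)
      · rw [← hC]
        simp only [OrderIso.symm_apply_apply]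
        exact hx.2
    · simp only [OrderIso.symm_apply_apply, Prod.mk.injEq, and_true]
      ext y
      simp [mem_map]
  · rintro ⟨F, e⟩ _
    simp only [card_map]

theorem Z_iso (φ : P ≃o Q) (i n : ℕ) : Z P i n = Z Q i n := by
  rw [Z_eq_ZB, Z_eq_ZB]
  exact ZB_iso φ i 0 n

end Iso

section Shift

variable {Q : Type u} [Fintype Q] [PartialOrder Q] [DecidableEq Q]

/-- change of the window for a poset with a least element -/
lemma cst_bottom_iff {v : Q} (hv : ∀ x, v ≤ x) {i k : ℕ} (hiv : i < lev v) (e : Q → ℕ)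
    (F : Finset Q) :
    Cst i ∅ 0 (sgz v k) (fun x => e x + min k (lev x - i)) F ↔ Vd (i + k) e F := by
  have hr : ∀ x, rho i (fun x => e x + min k (lev x - i)) x = rho (i + k) e x + k := by
    intro x
    unfold rho
    have h0 : (((e x + min k (lev x - i) : ℕ) : ℤ)) = (e x : ℤ) + ((min k (lev x - i) : ℕ) : ℤ) :=
      by push_cast; ring
    rw [h0]
    have h2 : ((min k (lev x - i) : ℕ) : ℤ) - ((i - lev x : ℕ) : ℤ) =
        k - ((i + k - lev x : ℕ) : ℤ) := by
      rcases le_total (lev x) i with h | h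
      · have h1 : min k (lev x - i) = 0 := by
          rw [Nat.sub_eq_zero_of_le h, Nat.min_zero]
        rw [h1]
        omega
      · rcases le_total (lev x) (i + k) with h' | h'
        · have h1 : min k (lev x - i) = lev x - i := min_eq_right (by omega)
          rw [h1]
          omega
        · have h1 : min k (lev x - i) = k := min_eq_left (by omega)
          rw [h1]
          omega
    linarith
  rw [cst_single_iff hiv]
  unfold Vd
  constructor
  · rintro ⟨⟨h1, h2, h3, h4⟩, h5⟩
    refine ⟨h1, ?_, ?_, ?_⟩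
    · intro x hx
      have hvF : v ∉ F := fun h => hx (h1 v x (hv x) h)
      have h6 := h3 v x (hv x) hvF hx
      have h7 := h5.resolve_left hvF
      have h8 : (k : ℤ) ≤ rho i (fun x => e x + min k (lev x - i)) v := by
        rw [rho_of_lt hiv]
        exact_mod_cast h7
      rw [hr, hr] at h6
      rw [hr] at h8
      omega
    · intro x y hxy hx hy
      have := h3 x y hxy hx hy
      rw [hr, hr] at this
      omega
    · intro x y hxy hx hy
      have := h4 x y hxy hx hy
      rw [hr, hr] at this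
      omega
  · rintro ⟨h1, h2, h3, h4⟩
    refine ⟨⟨h1, ?_, ?_, ?_⟩, ?_⟩
    · intro x hx
      have := h2 x hx
      rw [hr]
      omega
    · intro x y hxy hx hy
      have := h3 x y hxy hx hy
      rw [hr, hr]
      omega
    · intro x y hxy hx hy
      have := h4 x y hxy hx hy
      rw [hr, hr]
      omega
    · by_cases hvF : v ∈ F
      · exact Or.inl hvF
      · right
        have h5 := h2 v hvF
        have h6 := hr v
        rw [rho_of_lt hiv] at h6
        have h7 : ((fun x => e x + min k (lev x - i)) v : ℤ) = rho (i + k) e v + k := h6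
        simp only at h7
        omega

/-- a configuration with a high label at the least element costs -/
lemma le_of_cst_bottom {v : Q} (hv : ∀ x, v ≤ x) {i k : ℕ} (hiv : i < lev v) {e : Q → ℕ}
    {F : Finset Q} (h : Cst i ∅ 0 (sgz v k) e F) (x : Q) : min k (lev x - i) ≤ e x := by
  rw [cst_single_iff hiv] at h
  have h1 := ez_le (h := fun _ => k) h.1 hiv h.2 x
  unfold ez at h1
  rw [if_pos (hv x)] at h1
  exact h1

theorem ZB_bottom {v : Q} (hv : ∀ x, v ≤ x) {i k : ℕ} (hiv : i < lev v) (n : ℕ) :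
    ZB (P := Q) i ∅ 0 (sgz v k) (n + ∑ x : Q, min k (lev x - i)) = Z Q (i + k) n := by
  classical
  rw [ZB_eq_SC, Z_eq_ZB, ZB_eq_SC, SC_eq_cfg, SC_eq_cfg]
  symm
  refine Finset.sum_bij (fun (x : Finset Q × (Q → ℕ)) _ =>
    ((x.1, fun y => x.2 y + min k (lev y - i)) : Finset Q × (Q → ℕ))) ?_ ?_ ?_
    (fun _ _ => rfl)
  · rintro ⟨F, e⟩ hx
    rw [mem_cfg] at hx ⊢
    simp only at hx ⊢
    refine ⟨?_, ?_⟩
    · rw [Finset.sum_add_distrib, hx.1]
    · exact (cst_bottom_iff hv hiv _ _).mpr (cst_empty_iff.mp hx.2).1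
  · rintro ⟨F, e⟩ _ ⟨F', e'⟩ _ h
    simp only [Prod.mk.injEq] at h ⊢
    refine ⟨h.1, ?_⟩
    funext y
    have := congrFun h.2 y
    simpa using this
  · rintro ⟨F, e⟩ hx
    rw [mem_cfg] at hx
    simp only at hx
    have hle := le_of_cst_bottom hv hiv hx.2
    have hfun : (fun y => (e y - min k (lev y - i)) + min k (lev y - i)) = e := by
      funext y
      exact Nat.sub_add_cancel (hle y)
    refine ⟨(F, fun y => e y - min k (lev y - i)), ?_, ?_⟩
    · rw [mem_cfg]
      simp only
      have hV : Vd (i + k) (fun y => e y - min k (lev y - i)) F := by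
        rw [← cst_bottom_iff hv hiv, hfun]
        exact hx.2
      refine ⟨?_, cst_empty_iff.mpr ⟨hV, fun x hxF => by simpa using hV.2.1 x hxF⟩⟩
      have h1 : ∑ y, ((e y - min k (lev y - i)) + min k (lev y - i)) = ∑ y, e y :=
        Finset.sum_congr rfl fun y _ => congrFun hfun y
      rw [Finset.sum_add_distrib, hx.1] at h1
      omega
    · simp only [Prod.mk.injEq, true_and]
      exact hfun

theorem ZB_bottom_zero {v : Q} (hv : ∀ x, v ≤ x) {i k : ℕ} (hiv : i < lev v) {n : ℕ}
    (hn : n < ∑ x : Q, min k (lev x - i)) : ZB (P := Q) i ∅ 0 (sgz v k) n = 0 := by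
  rw [ZB_eq_SC]
  refine SC_eq_zero fun e F h hs => ?_
  have := Finset.sum_le_sum fun (x : Q) (_ : x ∈ (univ : Finset Q)) =>
    le_of_cst_bottom hv hiv h x
  omega

end Shift

/-- division lemma: the order of one factor from the order of the product -/
theorem dvd_of_prod {A B : ℕ → ℤ[X]} {α β : ℕ} {N : ℕ} {u : ℕ}
    (h0 : A 0 = X ^ u * (1 + X) ^ α) (hA : ∀ a, (1 + X : ℤ[X]) ^ α ∣ A a)
    (h : ∀ n < N, (1 + X : ℤ[X]) ^ (α + β) ∣ ∑ ab ∈ antidiagonal n, A ab.1 * B ab.2) :
    ∀ n < N, (1 + X : ℤ[X]) ^ β ∣ B n := by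
  have hm : (1 + X : ℤ[X]).Monic := by
    have := monic_X_add_C (1 : ℤ)
    rwa [map_one, add_comm] at this
  have hcop : IsCoprime ((1 + X : ℤ[X]) ^ β) (X ^ u) := by
    refine IsCoprime.pow ?_
    exact ⟨1, -1, by ring⟩
  intro n
  induction n using Nat.strong_induction_on with
  | _ n ih =>
    intro hn
    have h1 := h n hn
    have hmem : ((0, n) : ℕ × ℕ) ∈ antidiagonal n := by
      rw [HasAntidiagonal.mem_antidiagonal]
      exact Nat.zero_add n
    have h2 : ∑ ab ∈ antidiagonal n, A ab.1 * B ab.2 = A 0 * B n +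
        ∑ ab ∈ (antidiagonal n).erase (0, n), A ab.1 * B ab.2 :=
      (Finset.add_sum_erase (antidiagonal n) (fun ab : ℕ × ℕ => A ab.1 * B ab.2) hmem).symm
    have h3 : (1 + X : ℤ[X]) ^ (α + β) ∣
        ∑ ab ∈ (antidiagonal n).erase (0, n), A ab.1 * B ab.2 := by
      refine Finset.dvd_sum fun ab hab => ?_
      rw [mem_erase, HasAntidiagonal.mem_antidiagonal] at hab
      rw [pow_add]
      refine mul_dvd_mul (hA _) (ih ab.2 ?_ (by omega))
      have h4 : ab.1 ≠ 0 := by
        intro h4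
        apply hab.1
        exact Prod.ext h4 (by simp only; omega)
      omega
    rw [h2] at h1
    have h4 := (dvd_add_left h3).mp h1
    rw [h0, pow_add] at h4
    have h5 : X ^ u * (1 + X : ℤ[X]) ^ α * B n = (1 + X) ^ α * (X ^ u * B n) := by ring
    rw [h5] at h4
    have h6 := (mul_dvd_mul_iff_left (pow_ne_zero α hm.ne_zero)).mp h4
    exact hcop.dvd_of_dvd_mul_left h6

end Pool.Agent.GaussPoset

end

/-! From `Pool.Agent.W_448s8_h76.QdA` -/

section

/-!
The quadric poset `1^a 2 1^b` (levels `0, …, a + b`; two elements of level `a`).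
-/

namespace Pool.Agent.GaussPoset

/-- elements `0, …, a + b + 1`, numbered from the top; `a` and `a + 1` are incomparable -/
def Qd (a b : ℕ) : Type := Fin (a + b + 2)

instance (a b : ℕ) : Fintype (Qd a b) := inferInstanceAs (Fintype (Fin (a + b + 2)))
instance (a b : ℕ) : DecidableEq (Qd a b) := inferInstanceAs (DecidableEq (Fin (a + b + 2)))

/-- the number of an element -/
def Qd.val {a b : ℕ} (x : Qd a b) : ℕ := Fin.val (n := a + b + 2) x

/-- the element with a given number -/
def Qd.mk {a b : ℕ} (k : ℕ) (h : k < a + b + 2) : Qd a b := (⟨k, h⟩ : Fin (a + b + 2))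

@[simp] lemma Qd.val_mk {a b k : ℕ} (h : k < a + b + 2) : (Qd.mk (a := a) (b := b) k h).val = k :=
  rfl

lemma Qd.lt {a b : ℕ} (x : Qd a b) : x.val < a + b + 2 := Fin.isLt (n := a + b + 2) x

lemma Qd.ext {a b : ℕ} {x y : Qd a b} (h : x.val = y.val) : x = y :=
  Fin.ext (n := a + b + 2) h

instance (a b : ℕ) : PartialOrder (Qd a b) where
  le x y := x.val = y.val ∨ (y.val < x.val ∧ ¬ (y.val = a ∧ x.val = a + 1))
  le_refl x := Or.inl rfl
  le_trans := by
    intro x y z h1 h2
    omega
  le_antisymm := by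
    intro x y h1 h2
    exact Qd.ext (by omega)

lemma Qd.le_iff {a b : ℕ} {x y : Qd a b} :
    x ≤ y ↔ x.val = y.val ∨ (y.val < x.val ∧ ¬ (y.val = a ∧ x.val = a + 1)) := Iff.rfl

lemma Qd.lt_iff {a b : ℕ} {x y : Qd a b} :
    x < y ↔ (y.val < x.val ∧ ¬ (y.val = a ∧ x.val = a + 1)) := by
  rw [lt_iff_le_and_ne, Qd.le_iff]
  constructor
  · rintro ⟨h, hne⟩
    rcases h with h | h
    · exact absurd (Qd.ext h) hne
    · exact h
  · intro h
    refine ⟨Or.inr h, ?_⟩
    rintro rfl
    omega

end Pool.Agent.GaussPoset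

end

/-! From `Pool.Agent.W_448s8_h94.QdA` -/

section

/-!
The quadrics: a chain with `a` elements above, then two incomparable elements, then a chain with
`b` elements.  Numbers grow downwards; `a` and `a + 1` are the two incomparable elements.
-/

namespace Pool.Agent.GaussPoset

set_option linter.unusedSectionVars false

open Polynomial Finset

universe u

namespace Qd

variable {a b : ℕ}

lemma le_iff' {x y : Qd a b} : x ≤ y ↔ x = y ∨ (y.val < x.val ∧ ¬ (y.val = a ∧ x.val = a + 1)) := by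
  rw [le_iff]
  constructor
  · rintro (h | h)
    · exact Or.inl (Qd.ext h)
    · exact Or.inr h
  · rintro (h | h)
    · exact Or.inl (by rw [h])
    · exact Or.inr h

/-- the level of an element -/
def fl (x : Qd a b) : ℕ := if x.val ≤ a then x.val else x.val - 1

lemma fl_strictAnti : StrictAnti (fl : Qd a b → ℕ) := by
  intro x y h
  rw [lt_iff] at h
  unfold fl
  split_ifs <;> omega

lemma lev_eq (x : Qd a b) : lev x = fl x := by
  apply le_antisymm
  · exact lev_le fl_strictAnti x
  · have key : ∀ n (x : Qd a b), x.val = n → fl x ≤ lev x := by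
      intro n
      induction n using Nat.strong_induction_on with
      | _ n ih =>
        intro x hx
        have hxl := x.lt
        by_cases h0 : fl x = 0
        · rw [h0]; exact Nat.zero_le _
        · by_cases h1 : x.val = a + 1
          · have ha : 1 ≤ a := by
              unfold fl at h0
              rw [if_neg (by omega)] at h0
              omega
            have h2 := ih (a - 1) (by omega) (mk (a - 1) (by omega)) rfl
            have h3 : x < (mk (a - 1) (by omega) : Qd a b) := by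
              rw [lt_iff, val_mk]; omega
            have h4 := lev_strictAnti h3
            unfold fl at h2 ⊢
            rw [val_mk, if_pos (by omega)] at h2
            rw [if_neg (by omega)]
            omega
          · have hn : 1 ≤ x.val := by
              by_contra hcon
              apply h0
              unfold fl
              rw [if_pos (by omega)]
              omega
            have h2 := ih (x.val - 1) (by omega) (mk (x.val - 1) (by omega)) rfl
            have h3 : x < (mk (x.val - 1) (by omega) : Qd a b) := by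
              rw [lt_iff, val_mk]; omega
            have h4 := lev_strictAnti h3
            unfold fl at h2 ⊢
            rw [val_mk] at h2
            split_ifs at h2 ⊢ <;> omega
    exact key _ x rfl

lemma gradedBelow : GradedBelow (Qd a b) := by
  intro z x hzx
  rw [lt_iff] at hzx
  have hz := z.lt
  simp only [lev_eq]
  by_cases h1 : x.val + 1 = a ∧ z.val = a + 1
  · refine ⟨z, le_refl z, ?_, ?_⟩
    · rw [lt_iff]; omega
    · unfold fl
      rw [if_neg (by omega), if_pos (by omega)]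
      omega
  · by_cases h2 : x.val = a
    · refine ⟨mk (a + 2) (by omega), ?_, ?_, ?_⟩
      · rw [le_iff', val_mk]
        by_cases h3 : z.val = a + 2
        · exact Or.inl (ext (by rw [val_mk, h3]))
        · exact Or.inr (by omega)
      · rw [lt_iff, val_mk]; omega
      · unfold fl
        rw [val_mk, if_neg (by omega), if_pos (by omega)]
        omega
    · refine ⟨mk (x.val + 1) (by omega), ?_, ?_, ?_⟩
      · rw [le_iff', val_mk]
        by_cases h3 : z.val = x.val + 1
        · exact Or.inl (ext (by rw [val_mk, h3]))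
        · exact Or.inr (by omega)
      · rw [lt_iff, val_mk]; omega
      · unfold fl
        rw [val_mk]
        split_ifs <;> omega

end Qd

end Pool.Agent.GaussPoset

end

/-! From `Pool.Agent.W_448s8_h94.QdB` -/

section

/-!
The generating function of antitone maps `Fin n → {0, …, N - 1}`.
-/

namespace Pool.Agent.GaussPoset

open Polynomial Finset

open Classical in
/-- antitone maps with values `< N` -/
noncomputable def AT (n N : ℕ) : Finset (Fin n → ℕ) :=
  (Fintype.piFinset fun _ => range N).filter Antitone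

lemma mem_AT {n N : ℕ} {f : Fin n → ℕ} : f ∈ AT n N ↔ (∀ i, f i < N) ∧ Antitone f := by
  unfold AT
  rw [mem_filter, Fintype.mem_piFinset]
  simp only [mem_range]

/-- their generating function -/
noncomputable def SA (n N : ℕ) : ℤ[X] := ∑ f ∈ AT n N, X ^ (∑ i, f i)

lemma SA_zero_left (N : ℕ) : SA 0 N = 1 := by
  unfold SA
  have h : AT 0 N = {Fin.elim0} := by
    ext f
    rw [mem_AT, mem_singleton]
    constructor
    · intro _; exact Subsingleton.elim _ _
    · intro _; exact ⟨fun i => i.elim0, fun i => i.elim0⟩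
  rw [h, sum_singleton]
  simp

lemma SA_zero_right (n : ℕ) : SA (n + 1) 0 = 0 := by
  unfold SA
  have h : AT (n + 1) 0 = ∅ := by
    ext f
    rw [mem_AT]
    constructor
    · intro h; exact absurd (h.1 0) (Nat.not_lt_zero _)
    · intro h; exact absurd h (notMem_empty _)
  rw [h, sum_empty]

lemma SA_succ (n N : ℕ) : SA (n + 1) (N + 1) = SA (n + 1) N + X ^ N * SA n (N + 1) := by
  classical
  unfold SA
  rw [← Finset.sum_filter_add_sum_filter_not (AT (n + 1) (N + 1)) (fun f => f 0 ≠ N)]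
  congr 1
  · refine Finset.sum_congr ?_ fun _ _ => rfl
    ext f
    rw [mem_filter, mem_AT, mem_AT]
    constructor
    · rintro ⟨⟨h1, h2⟩, h3⟩
      refine ⟨fun i => ?_, h2⟩
      have h4 := h1 0
      have h5 := h2 (Fin.zero_le i)
      omega
    · rintro ⟨h1, h2⟩
      refine ⟨⟨fun i => (h1 i).trans (Nat.lt_succ_self _), h2⟩, ?_⟩
      have := h1 0
      omega
  · rw [Finset.mul_sum]
    refine Finset.sum_bij' (fun f _ => Fin.tail f) (fun g _ => Fin.cons N g) ?_ ?_ ?_ ?_ ?_
    · intro f hf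
      rw [mem_filter, mem_AT] at hf
      rw [mem_AT]
      refine ⟨fun i => hf.1.1 _, fun i j hij => ?_⟩
      exact hf.1.2 (Fin.succ_le_succ_iff.mpr hij)
    · intro g hg
      rw [mem_AT] at hg
      rw [mem_filter, mem_AT]
      refine ⟨⟨fun i => ?_, fun i j hij => ?_⟩, ?_⟩
      · refine Fin.cases ?_ (fun i => ?_) i
        · rw [Fin.cons_zero]; omega
        · rw [Fin.cons_succ]; exact hg.1 i
      · revert hij
        refine Fin.cases ?_ (fun i => ?_) i
        · refine Fin.cases ?_ (fun j => ?_) j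
          · intro _; exact le_rfl
          · intro _
            rw [Fin.cons_zero, Fin.cons_succ]
            exact Nat.lt_succ_iff.mp (hg.1 j)
        · refine Fin.cases ?_ (fun j => ?_) j
          · intro hij
            exact absurd hij (not_le_of_gt (Fin.succ_pos i))
          · intro hij
            rw [Fin.cons_succ, Fin.cons_succ]
            exact hg.2 (Fin.succ_le_succ_iff.mp hij)
      · rw [Fin.cons_zero]
        exact fun h => h rfl
    · intro f hf
      rw [mem_filter] at hf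
      have h0 : f 0 = N := not_not.mp hf.2
      rw [← h0]
      exact Fin.cons_self_tail f
    · intro g _
      exact Fin.tail_cons _ _
    · intro f hf
      rw [mem_filter] at hf
      have h0 : f 0 = N := not_not.mp hf.2
      rw [Fin.sum_univ_succ, h0, pow_add]
      rfl

theorem SA_prod (n N : ℕ) : SA n N * ∏ i ∈ range n, (1 - (X : ℤ[X]) ^ (i + 1)) =
    ∏ i ∈ range n, (1 - (X : ℤ[X]) ^ (N + i)) := by
  induction n generalizing N with
  | zero => rw [SA_zero_left]; simp
  | succ n ihn =>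
    induction N with
    | zero =>
      rw [SA_zero_right, zero_mul, Finset.prod_range_succ', Nat.add_zero, pow_zero, sub_self,
        mul_zero]
    | succ N ihN =>
      rw [SA_succ, add_mul, ihN]
      have h1 : X ^ N * SA n (N + 1) * ∏ i ∈ range (n + 1), (1 - (X : ℤ[X]) ^ (i + 1)) =
          X ^ N * (1 - X ^ (n + 1)) * (SA n (N + 1) * ∏ i ∈ range n, (1 - (X : ℤ[X]) ^ (i + 1))) := by
        rw [Finset.prod_range_succ]; ring
      rw [h1, ihn]
      have h2 : ∏ i ∈ range (n + 1), (1 - (X : ℤ[X]) ^ (N + i)) =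
          (1 - X ^ N) * ∏ i ∈ range n, (1 - (X : ℤ[X]) ^ (N + 1 + i)) := by
        rw [Finset.prod_range_succ', Nat.add_zero, mul_comm]
        congr 1
        refine Finset.prod_congr rfl fun i _ => ?_
        rw [show N + (i + 1) = N + 1 + i by ring]
      have h3 : ∏ i ∈ range (n + 1), (1 - (X : ℤ[X]) ^ (N + 1 + i)) =
          (∏ i ∈ range n, (1 - (X : ℤ[X]) ^ (N + 1 + i))) * (1 - X ^ (N + 1 + n)) :=
        Finset.prod_range_succ _ _
      rw [h2, h3, show N + 1 + n = N + (n + 1) by ring, pow_add]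
      ring

end Pool.Agent.GaussPoset

end

/-! From `Pool.Agent.W_448s8_h94.QdC` -/

section

/-!
The complete quadric `1^a 2 1^a` is Gaussian.
-/

namespace Pool.Agent.GaussPoset

set_option linter.unusedSectionVars false

open Polynomial Finset

/-- order preserving for the quadric, as a condition on numbers -/
def MQ (a n : ℕ) (s : Fin n → ℕ) : Prop :=
  ∀ i j : Fin n, i.val < j.val → ¬ (i.val = a ∧ j.val = a + 1) → s j ≤ s i

open Classical in
/-- order preserving maps of the quadric -/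
noncomputable def MQs (a n N : ℕ) : Finset (Fin n → ℕ) :=
  (Fintype.piFinset fun _ => range N).filter (fun s => MQ a n s)

lemma mem_MQs {a n N : ℕ} {s : Fin n → ℕ} : s ∈ MQs a n N ↔ (∀ i, s i < N) ∧ MQ a n s := by
  classical
  unfold MQs
  rw [mem_filter, Fintype.mem_piFinset]
  simp only [mem_range]

lemma U_Qd (a b m : ℕ) : U (Qd a b) m = ∑ s ∈ MQs a (a + b + 2) (m + 1), (X : ℤ[X]) ^ (∑ i, s i) := by
  classical
  unfold U
  refine Finset.sum_bij' (fun σ _ => (fun i : Fin (a + b + 2) => ((σ i : Fin (m + 1)) : ℕ)))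
    (fun s hs => (fun x : Qd a b => ⟨s x, (mem_MQs.mp hs).1 x⟩)) ?_ ?_ ?_ ?_ ?_
  · intro σ hσ
    have hσ2 := (Finset.mem_filter.mp hσ).2
    rw [mem_MQs]
    refine ⟨fun i => (σ i).2, fun i j hij hne => ?_⟩
    have h1 : @LE.le (Qd a b) _ j i := Or.inr ⟨hij, hne⟩
    exact hσ2 h1
  · intro s hs
    refine Finset.mem_filter.mpr ⟨@mem_univ _ (_) _, fun x y hxy => ?_⟩
    rw [Qd.le_iff'] at hxy
    rcases hxy with rfl | hxy
    · exact le_rfl
    · exact (mem_MQs.mp hs).2 y x hxy.1 hxy.2
  · intro σ _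
    rfl
  · intro s _
    rfl
  · intro σ _
    rfl

lemma MQ_split (a n N : ℕ) (hn : a + 1 < n) : ∑ s ∈ MQs a n (N + 1), (X : ℤ[X]) ^ (∑ i, s i) =
    SA n (N + 1) + X ^ (a + 1) * SA n N := by
  classical
  set A : Fin n := ⟨a, by omega⟩ with hA
  set B : Fin n := ⟨a + 1, hn⟩ with hB
  have hAB : A ≠ B := by
    intro h
    have := congrArg Fin.val h
    simp only [hA, hB] at this
    omega
  rw [← Finset.sum_filter_add_sum_filter_not (MQs a n (N + 1)) (fun s => s B ≤ s A)]
  congr 1
  · unfold SA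
    refine Finset.sum_congr ?_ fun _ _ => rfl
    ext f
    rw [mem_filter, mem_MQs, mem_AT]
    constructor
    · rintro ⟨⟨h1, h2⟩, h3⟩
      refine ⟨h1, fun i j hij => ?_⟩
      rcases eq_or_lt_of_le hij with rfl | hlt
      · exact le_rfl
      · by_cases h4 : i.val = a ∧ j.val = a + 1
        · have hi : i = A := Fin.ext h4.1
          have hj : j = B := Fin.ext h4.2
          rw [hi, hj]; exact h3
        · exact h2 i j hlt h4
    · rintro ⟨h1, h2⟩
      refine ⟨⟨h1, fun i j hij _ => h2 (le_of_lt hij)⟩, h2 ?_⟩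
      change a ≤ a + 1
      omega
  · have hswA : (Equiv.swap A B) A = B := Equiv.swap_apply_left A B
    have hswB : (Equiv.swap A B) B = A := Equiv.swap_apply_right A B
    have hswO : ∀ k, k ≠ A → k ≠ B → (Equiv.swap A B) k = k := fun k h1 h2 =>
      Equiv.swap_apply_of_ne_of_ne h1 h2
    have hswsw : ∀ k, (Equiv.swap A B) ((Equiv.swap A B) k) = k := fun k => by
      rw [← Equiv.Perm.mul_apply, Equiv.swap_mul_self, Equiv.Perm.one_apply]
    generalize (Equiv.swap A B) = sw at hswA hswB hswO hswsw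
    have hcA : ∀ k : Fin n, k = A ∨ k = B ∨ (k ≠ A ∧ k ≠ B ∧ sw k = k ∧ k.val ≠ a ∧ k.val ≠ a + 1) := by
      intro k
      by_cases h1 : k = A
      · exact Or.inl h1
      · by_cases h2 : k = B
        · exact Or.inr (Or.inl h2)
        · refine Or.inr (Or.inr ⟨h1, h2, hswO k h1 h2, ?_, ?_⟩)
          · intro h; exact h1 (Fin.ext h)
          · intro h; exact h2 (Fin.ext h)
    have hAv : A.val = a := rfl
    have hBv : B.val = a + 1 := rfl
    have hcnt : ∑ k : Fin n, (if k.val ≤ a then 1 else 0) = a + 1 := by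
      rw [Finset.sum_boole]
      have h1 : (univ.filter (fun k : Fin n => k.val ≤ a)).card = (range (a + 1)).card := by
        refine Finset.card_bij (fun k _ => k.val) ?_ ?_ ?_
        · intro k hk
          rw [mem_filter] at hk
          rw [mem_range]
          omega
        · intro k _ k' _ h
          exact Fin.ext h
        · intro y hy
          rw [mem_range] at hy
          exact ⟨⟨y, by omega⟩, by rw [mem_filter]; exact ⟨mem_univ _, by change y ≤ a; omega⟩, rfl⟩
      rw [h1, card_range]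
      rfl
    rw [SA, Finset.mul_sum]
    -- facts for one side
    have hs1 : ∀ s ∈ (MQs a n (N + 1)).filter (fun s => ¬ s B ≤ s A), ∀ k : Fin n, k.val ≤ a →
        s A + 1 ≤ s (sw k) := by
      intro s hs k hk
      rw [mem_filter, mem_MQs] at hs
      obtain ⟨⟨h1, h2⟩, h3⟩ := hs
      rcases hcA k with h | h | h
      · rw [h, hswA]; omega
      · rw [h, hBv] at hk; omega
      · rw [h.2.2.1]
        have h4 := h2 k B (by omega) (by omega)
        omega
    refine Finset.sum_bij' (fun s _ => fun k => s (sw k) - (if k.val ≤ a then 1 else 0))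
      (fun g _ => fun k => g (sw k) + (if (sw k).val ≤ a then 1 else 0)) ?_ ?_ ?_ ?_ ?_
    · intro s hs
      have hs2 := hs1 s hs
      rw [mem_filter, mem_MQs] at hs
      obtain ⟨⟨h1, h2⟩, h3⟩ := hs
      rw [mem_AT]
      have hNB := h1 B
      refine ⟨fun k => ?_, fun i j hij => ?_⟩
      · have h4 := h1 (sw k)
        by_cases hk : k.val ≤ a
        · rw [if_pos hk]; omega
        · rw [if_neg hk]
          rcases hcA k with h | h | h
          · rw [h, hAv] at hk; omega
          · rw [h, hswB]; omega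
          · rw [h.2.2.1]
            have h5 := h2 A k (by omega) (by omega)
            omega
      · change s (sw j) - _ ≤ s (sw i) - _
        rcases eq_or_lt_of_le hij with rfl | hlt
        · exact le_rfl
        · have hlt' : i.val < j.val := hlt
          by_cases hj : j.val ≤ a
          · have hi : i.val ≤ a := by omega
            rw [if_pos hj, if_pos hi]
            have hiA : i ≠ A := by rintro rfl; omega
            have hiB : i ≠ B := by rintro rfl; omega
            rw [hswO i hiA hiB]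
            rcases hcA j with h | h | h
            · rw [h, hswA]
              have := h2 i B (by rw [hBv]; omega) (by rw [hBv]; rw [h, hAv] at hlt'; omega)
              omega
            · rw [h, hBv] at hj; omega
            · rw [h.2.2.1]
              have := h2 i j hlt' (by omega)
              omega
          · rw [if_neg hj]
            have h6 : s (sw j) ≤ s A := by
              rcases hcA j with h | h | h
              · rw [h, hAv] at hj; omega
              · rw [h, hswB]
              · rw [h.2.2.1]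
                exact h2 A j (by omega) (by omega)
            by_cases hi : i.val ≤ a
            · rw [if_pos hi]
              have := hs2 i hi
              omega
            · rw [if_neg hi]
              have hjB : j ≠ B := by rintro rfl; omega
              have hjA : j ≠ A := by rintro rfl; omega
              rw [hswO j hjA hjB]
              rcases hcA i with h | h | h
              · rw [h, hAv] at hi; omega
              · rw [h, hswB]
                have := h2 A j (by rw [h, hBv] at hlt'; omega) (by rw [h, hBv] at hlt'; omega)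
                omega
              · rw [h.2.2.1]
                have := h2 i j hlt' (by omega)
                omega
    · intro g hg
      rw [mem_AT] at hg
      obtain ⟨h1, h2⟩ := hg
      rw [mem_filter, mem_MQs]
      have hanti : ∀ i j : Fin n, i.val ≤ j.val → g j ≤ g i := fun i j h => h2 h
      refine ⟨⟨fun k => ?_, fun i j hij hne => ?_⟩, ?_⟩
      · have := h1 (sw k)
        split_ifs <;> omega
      · change g (sw j) + (if (sw j).val ≤ a then 1 else 0) ≤
          g (sw i) + (if (sw i).val ≤ a then 1 else 0)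
        have hval : ∀ k : Fin n,
            (k.val = a ∧ g (sw k) + (if (sw k).val ≤ a then 1 else 0) = g B) ∨
            (k.val = a + 1 ∧ g (sw k) + (if (sw k).val ≤ a then 1 else 0) = g A + 1) ∨
            (k.val < a ∧ g (sw k) + (if (sw k).val ≤ a then 1 else 0) = g k + 1) ∨
            (a + 1 < k.val ∧ g (sw k) + (if (sw k).val ≤ a then 1 else 0) = g k) := by
          intro k
          rcases hcA k with hk | hk | hk
          · left
            rw [hk, hswA, if_neg (by rw [hBv]; omega)]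
            exact ⟨hAv, rfl⟩
          · right; left
            rw [hk, hswB, if_pos (by rw [hAv])]
            exact ⟨hBv, rfl⟩
          · right; right
            rw [hk.2.2.1]
            by_cases h : k.val ≤ a
            · left
              rw [if_pos h]
              exact ⟨by omega, rfl⟩
            · right
              rw [if_neg h]
              exact ⟨by omega, rfl⟩
        rcases hval i with ⟨hi, hi'⟩ | ⟨hi, hi'⟩ | ⟨hi, hi'⟩ | ⟨hi, hi'⟩ <;>
          rcases hval j with ⟨hj, hj'⟩ | ⟨hj, hj'⟩ | ⟨hj, hj'⟩ | ⟨hj, hj'⟩ <;>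
          rw [hi', hj'] <;>
          first
          | omega
          | (have := hanti B j (by omega); omega)
          | (have := hanti A j (by omega); omega)
          | (have := hanti i B (by omega); omega)
          | (have := hanti i A (by omega); omega)
          | (have := hanti i j (by omega); omega)
      · change ¬ (g (sw B) + (if (sw B).val ≤ a then 1 else 0) ≤
          g (sw A) + (if (sw A).val ≤ a then 1 else 0))
        rw [hswA, hswB, if_pos (by rw [hAv]), if_neg (by rw [hBv]; omega)]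
        have := hanti A B (by omega)
        omega
    · intro s hs
      have hs2 := hs1 s hs
      funext k
      change s (sw (sw k)) - (if (sw k).val ≤ a then 1 else 0) + (if (sw k).val ≤ a then 1 else 0) = s k
      split_ifs with h
      · have := hs2 (sw k) h
        rw [hswsw] at this ⊢
        omega
      · rw [hswsw]; omega
    · intro g _
      funext k
      change g (sw (sw k)) + (if (sw (sw k)).val ≤ a then 1 else 0) - (if k.val ≤ a then 1 else 0) = g k
      rw [hswsw]
      omega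
    · intro s hs
      have hs2 := hs1 s hs
      rw [← pow_add]
      congr 1
      rw [← hcnt, ← Finset.sum_add_distrib, ← Equiv.sum_comp sw s]
      refine Finset.sum_congr rfl fun k _ => ?_
      split_ifs with h
      · have := hs2 k h
        omega
      · omega

theorem U_Qd_eq (a b m : ℕ) :
    U (Qd a b) m = SA (a + b + 2) (m + 1) + X ^ (a + 1) * SA (a + b + 2) m := by
  rw [U_Qd, MQ_split a (a + b + 2) m (by omega)]

theorem isGaussian_Qd (a : ℕ) : IsGaussian (Qd a a) := by
  have hcard : Fintype.card (Qd a a) = 2 * a + 2 := by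
    have h : Fintype.card (Qd a a) = a + a + 2 := Fintype.card_fin _
    omega
  refine ⟨fun i => if (i : ℕ) < 2 * a + 1 then (i : ℕ) + 1 else a + 1, fun i => ?_, fun m => ?_⟩
  · dsimp only
    split_ifs <;> omega
  · have hp : ∀ c : ℕ, ∏ i : Fin (Fintype.card (Qd a a)),
        (1 - (X : ℤ[X]) ^ (c + (if (i : ℕ) < 2 * a + 1 then (i : ℕ) + 1 else a + 1))) =
        (∏ i ∈ range (2 * a + 1), (1 - (X : ℤ[X]) ^ (c + 1 + i))) * (1 - X ^ (c + a + 1)) := by
      intro c
      rw [← Finset.prod_range (fun i => (1 - (X : ℤ[X]) ^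
        (c + (if i < 2 * a + 1 then i + 1 else a + 1)))), hcard, Finset.prod_range_succ,
        if_neg (by omega)]
      congr 1
      refine Finset.prod_congr rfl fun i hi => ?_
      rw [mem_range] at hi
      rw [if_pos hi, show c + (i + 1) = c + 1 + i by ring]
    have hp0 := hp 0
    simp only [Nat.zero_add] at hp0
    rw [hp0, hp m, U_Qd_eq]
    have hne : (1 + X ^ (a + 1) : ℤ[X]) ≠ 0 := by
      intro h
      have := congrArg (fun f : ℤ[X] => f.eval 1) h
      simp at this
    refine mul_right_cancel₀ hne ?_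
    have e1 := SA_prod (a + a + 2) (m + 1)
    have e2 := SA_prod (a + a + 2) m
    have e3 : ∏ i ∈ range (a + a + 2), (1 - (X : ℤ[X]) ^ (i + 1)) =
        (∏ i ∈ range (2 * a + 1), (1 - (X : ℤ[X]) ^ (1 + i))) * (1 - X ^ (a + 1)) *
          (1 + X ^ (a + 1)) := by
      rw [show a + a + 2 = (2 * a + 1) + 1 by ring, Finset.prod_range_succ, mul_assoc]
      congr 1
      · refine Finset.prod_congr rfl fun i _ => ?_
        rw [add_comm]
      · rw [show 2 * a + 1 + 1 = (a + 1) + (a + 1) by ring, pow_add]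
        ring
    have e4 : ∏ i ∈ range (a + a + 2), (1 - (X : ℤ[X]) ^ (m + 1 + i)) =
        (∏ i ∈ range (2 * a + 1), (1 - (X : ℤ[X]) ^ (m + 1 + i))) * (1 - X ^ (m + 2 * a + 2)) := by
      rw [show a + a + 2 = (2 * a + 1) + 1 by ring, Finset.prod_range_succ,
        show m + 1 + (2 * a + 1) = m + 2 * a + 2 by ring]
    have e5 : ∏ i ∈ range (a + a + 2), (1 - (X : ℤ[X]) ^ (m + i)) =
        (∏ i ∈ range (2 * a + 1), (1 - (X : ℤ[X]) ^ (m + 1 + i))) * (1 - X ^ m) := by
      rw [show a + a + 2 = (2 * a + 1) + 1 by ring, Finset.prod_range_succ', Nat.add_zero]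
      congr 1
      refine Finset.prod_congr rfl fun i _ => ?_
      rw [show m + (i + 1) = m + 1 + i by ring]
    calc (SA (a + a + 2) (m + 1) + X ^ (a + 1) * SA (a + a + 2) m) *
          ((∏ i ∈ range (2 * a + 1), (1 - (X : ℤ[X]) ^ (1 + i))) * (1 - X ^ (a + 1))) *
          (1 + X ^ (a + 1))
        = SA (a + a + 2) (m + 1) * ((∏ i ∈ range (2 * a + 1), (1 - (X : ℤ[X]) ^ (1 + i))) *
            (1 - X ^ (a + 1)) * (1 + X ^ (a + 1))) + X ^ (a + 1) * (SA (a + a + 2) m *
            ((∏ i ∈ range (2 * a + 1), (1 - (X : ℤ[X]) ^ (1 + i))) *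
            (1 - X ^ (a + 1)) * (1 + X ^ (a + 1)))) := by ring
      _ = (∏ i ∈ range (2 * a + 1), (1 - (X : ℤ[X]) ^ (m + 1 + i))) * (1 - X ^ (m + 2 * a + 2)) +
          X ^ (a + 1) * ((∏ i ∈ range (2 * a + 1), (1 - (X : ℤ[X]) ^ (m + 1 + i))) *
            (1 - X ^ m)) := by rw [← e3, e1, e2, e4, e5]
      _ = (∏ i ∈ range (2 * a + 1), (1 - (X : ℤ[X]) ^ (m + 1 + i))) * (1 - X ^ (m + a + 1)) *
          (1 + X ^ (a + 1)) := by
        rw [show m + 2 * a + 2 = m + (a + 1) + (a + 1) by ring,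
          show m + a + 1 = m + (a + 1) by ring]
        simp only [pow_add]
        ring

end Pool.Agent.GaussPoset

end

/-! From `Pool.Agent.W_448s8_h94.QdD` -/

section

/-!
Window sums of the (incomplete) quadrics.
-/

namespace Pool.Agent.GaussPoset

set_option linter.unusedSectionVars false

open Polynomial Finset

universe u

namespace Qd

variable {a b : ℕ}

lemma lv_eq : lv (Qd a b) a = {mk a (by omega), mk (a + 1) (by omega)} := by
  ext x
  rw [mem_lv, lev_eq, mem_insert, mem_singleton]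
  have hx := x.lt
  unfold fl
  constructor
  · intro h
    by_cases h1 : x.val ≤ a
    · rw [if_pos h1] at h
      exact Or.inl (ext (by rw [val_mk]; exact h))
    · rw [if_neg h1] at h
      exact Or.inr (ext (by rw [val_mk]; omega))
  · rintro (rfl | rfl)
    · rw [val_mk, if_pos le_rfl]
    · rw [val_mk, if_neg (by omega)]; omega

lemma mk_ne : (mk a (by omega) : Qd a b) ≠ mk (a + 1) (by omega) := by
  intro h
  have := congrArg Qd.val h
  rw [val_mk, val_mk] at this
  omega

lemma card_lv : (lv (Qd a b) a).card = 2 := by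
  rw [lv_eq, card_pair mk_ne]

lemma card_val_lt (k : ℕ) (hk : k ≤ a + b + 2) :
    (univ.filter (fun x : Qd a b => x.val < k)).card = k := by
  classical
  have h1 : (univ.filter (fun x : Qd a b => x.val < k)).card = (range k).card := by
    refine Finset.card_bij (fun x _ => x.val) ?_ ?_ ?_
    · intro x hx
      rw [mem_filter] at hx
      exact mem_range.mpr hx.2
    · intro x _ y _ h
      exact ext h
    · intro y hy
      rw [mem_range] at hy
      exact ⟨mk y (by omega), by rw [mem_filter]; exact ⟨mem_univ _, by rw [val_mk]; exact hy⟩, rfl⟩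
  rw [h1, card_range]

lemma below_eq : below (Qd a b) a = a := by
  classical
  unfold below
  rw [← card_val_lt (a := a) (b := b) a (by omega), card_val_lt (a := a) (b := b) a (by omega)]
  refine Eq.trans ?_ (card_val_lt (a := a) (b := b) a (by omega))
  congr 1
  ext x
  simp only [mem_filter, mem_univ, true_and, lev_eq, fl]
  split_ifs <;> omega

end Qd

theorem dvd_Z_Qd (a n : ℕ) : (1 + X : ℤ[X]) ^ 2 ∣ Z (Qd a a) a n := by
  have h := dvd_Z (isGaussian_Qd a) a n
  rwa [Qd.card_lv] at h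

/-- the missing elements -/
def QD (a b : ℕ) : Finset (Qd a a) := univ.filter (fun x => a + b + 2 ≤ x.val)

lemma mem_QD {a b : ℕ} {x : Qd a a} : x ∈ QD a b ↔ a + b + 2 ≤ x.val := by
  unfold QD
  rw [mem_filter]
  exact ⟨fun h => h.2, fun h => ⟨mem_univ _, h⟩⟩

lemma QD_lower {a b : ℕ} (x y : Qd a a) (h : x ≤ y) (hy : y ∈ QD a b) : x ∈ QD a b := by
  rw [mem_QD] at hy ⊢
  rcases Qd.le_iff'.mp h with rfl | h
  · exact hy
  · omega

lemma QD_lev {a b : ℕ} (x : Qd a a) (hx : x ∈ QD a b) : a < lev x := by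
  rw [mem_QD] at hx
  rw [Qd.lev_eq]
  unfold Qd.fl
  rw [if_neg (by omega)]
  omega

/-- the rest of the complete quadric -/
def QD_iso {a b : ℕ} (hb : b ≤ a) : {x : Qd a a // x ∉ QD a b} ≃o Qd a b where
  toFun x := Qd.mk x.1.val (by have := x.2; rw [mem_QD] at this; omega)
  invFun y := ⟨Qd.mk y.val (by have := y.lt; omega), by
    rw [mem_QD, Qd.val_mk]
    have := y.lt
    omega⟩
  left_inv x := by
    apply Subtype.ext
    exact Qd.ext rfl
  right_inv y := Qd.ext rfl
  map_rel_iff' := by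
    intro x y
    rw [← Subtype.coe_le_coe]
    change (Qd.mk x.1.val _ : Qd a b) ≤ Qd.mk y.1.val _ ↔ _
    rw [Qd.le_iff', Qd.le_iff', Qd.val_mk, Qd.val_mk]
    constructor
    · rintro (h | h)
      · left
        apply Qd.ext
        have := congrArg Qd.val h
        rwa [Qd.val_mk, Qd.val_mk] at this
      · exact Or.inr h
    · rintro (h | h)
      · left
        apply Qd.ext
        rw [Qd.val_mk, Qd.val_mk, h]
      · exact Or.inr h

lemma QD_bd {a b : ℕ} (hb : b < a) : bdR (QD a b) = {Qd.mk (a + b + 2) (by omega)} := by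
  classical
  ext z
  unfold bdR
  rw [mem_filter, mem_QD, mem_singleton]
  have hz := z.lt
  constructor
  · rintro ⟨h1, x, h2, h3⟩
    rw [mem_QD] at h2
    by_contra hne
    have h4 : z.val ≠ a + b + 2 := fun h => hne (Qd.ext h)
    refine h3.2 (c := (Qd.mk (a + b + 2) (by omega) : Qd a a)) ?_ ?_
    · rw [Qd.lt_iff, Qd.val_mk]; omega
    · rw [Qd.lt_iff, Qd.val_mk]
      have := h3.1
      rw [Qd.lt_iff] at this
      omega
  · rintro rfl
    refine ⟨by rw [Qd.val_mk], Qd.mk (a + b + 1) (by omega), ?_, ?_, ?_⟩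
    · rw [mem_QD, Qd.val_mk]; omega
    · rw [Qd.lt_iff, Qd.val_mk, Qd.val_mk]; omega
    · intro y h1 h2
      rw [Qd.lt_iff, Qd.val_mk] at h1 h2
      omega

lemma ND_QD {a b : ℕ} (hb : b < a) (n : ℕ) : ND a (QD a b) (fun _ => 1) n = Z (Qd a b) a n := by
  classical
  rw [← Z_iso (QD_iso hb.le), ← ZB_off (fun x y h hy => QD_lower x y h hy)
    (fun x hx => QD_lev x hx) n]
  unfold ND ZB
  refine Finset.sum_congr rfl fun F _ => ?_
  refine Finset.sum_congr ?_ fun _ _ => rfl
  refine Finset.filter_congr fun e _ => ?_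
  constructor
  · rintro ⟨h1, h2⟩
    have h3 := not_mem_of_not_dg (fun x hx => QD_lev x hx) h1 h2
    refine ⟨h1, fun x hx => ⟨h3 x hx, ?_⟩, fun x _ hxF => ?_⟩
    · have hz0 : (Qd.mk (a + b + 2) (by omega) : Qd a a) ∈ QD a b := by
        rw [mem_QD, Qd.val_mk]
      have h4 := h2 (Qd.mk (a + b + 2) (by omega)) (by rw [QD_bd hb, mem_singleton])
      have h5 : x ≤ (Qd.mk (a + b + 2) (by omega) : Qd a a) := by
        rw [mem_QD] at hx
        rw [Qd.le_iff', Qd.val_mk]
        by_cases h6 : x.val = a + b + 2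
        · exact Or.inl (Qd.ext h6)
        · exact Or.inr (by omega)
      have h6 := h1.2.2.1 _ _ h5 (h3 x hx) (h3 _ hz0)
      rw [rho_of_lt (QD_lev x hx), rho_of_lt (QD_lev _ hz0)] at h6
      have h7 : ¬ (1 ≤ e (Qd.mk (a + b + 2) (by omega) : Qd a a)) := fun h => h4 (Or.inr h)
      change e x = 0
      omega
    · simpa using h1.2.1 x hxF
  · rintro ⟨h1, h2, -⟩
    refine ⟨h1, fun z hz hd => ?_⟩
    have hzR : z ∈ QD a b := (mem_filter.mp hz).1
    rcases hd with hd | hd
    · exact (h2 z hzR).1 hd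
    · rw [(h2 z hzR).2] at hd
      exact absurd hd (by simp)

lemma cst_QD {a b : ℕ} (hb : b < a) :
    cst a (fun _ => 1) (Qd.mk (a + b + 2) (by omega) : Qd a a) = b + 1 := by
  classical
  unfold cst
  have h1 : ∀ x : Qd a a, ez a (fun _ => 1) (Qd.mk (a + b + 2) (by omega)) x =
      if a + 1 < x.val ∧ x.val < a + b + 3 then 1 else 0 := by
    intro x
    unfold ez
    beta_reduce
    rw [Qd.lev_eq]
    unfold Qd.fl
    have hx := x.lt
    by_cases h : (Qd.mk (a + b + 2) (by omega) : Qd a a) ≤ x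
    · rw [if_pos h]
      rw [Qd.le_iff', Qd.val_mk] at h
      have h2 : x.val < a + b + 3 := by
        rcases h with h | h
        · rw [← h, Qd.val_mk]; omega
        · omega
      by_cases h3 : x.val ≤ a
      · rw [if_pos h3, if_neg (by omega)]
        omega
      · rw [if_neg h3]
        by_cases h4 : x.val = a + 1
        · rw [if_neg (by omega)]
          omega
        · rw [if_pos (by omega)]
          omega
    · rw [if_neg h, if_neg]
      intro h2
      apply h
      rw [Qd.le_iff', Qd.val_mk]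
      by_cases h3 : x.val = a + b + 2
      · exact Or.inl (Qd.ext (by rw [Qd.val_mk, h3]))
      · exact Or.inr (by omega)
  rw [Finset.sum_congr rfl (fun x _ => h1 x), Finset.sum_boole]
  have h2 : (univ.filter (fun x : Qd a a => a + 1 < x.val ∧ x.val < a + b + 3)).card =
      (Finset.Ioo (a + 1) (a + b + 3)).card := by
    refine Finset.card_bij (fun x _ => x.val) ?_ ?_ ?_
    · intro x hx
      rw [mem_filter] at hx
      exact Finset.mem_Ioo.mpr hx.2
    · intro x _ y _ h
      exact Qd.ext h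
    · intro y hy
      rw [Finset.mem_Ioo] at hy
      exact ⟨Qd.mk y (by omega), by
        rw [mem_filter]; exact ⟨mem_univ _, by rw [Qd.val_mk]; exact hy⟩, rfl⟩
  rw [h2, Nat.card_Ioo]
  simp only [Nat.cast_id]
  omega

lemma nab_QD0 {a b : ℕ} (hb : b < a) :
    nab a (Qd.mk (a + b + 2) (by omega) : Qd a a) = 2 := by
  classical
  unfold nab
  rw [Finset.filter_true_of_mem, Qd.card_lv]
  intro x hx
  rw [Qd.lv_eq, mem_insert, mem_singleton] at hx
  rw [Qd.le_iff', Qd.val_mk]
  right
  rcases hx with rfl | rfl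
  · rw [Qd.val_mk]; omega
  · rw [Qd.val_mk]; omega

lemma nab_QD1 {a b : ℕ} (hb : b < a) :
    nab (a + 1) (Qd.mk (a + b + 2) (by omega) : Qd a a) = 1 := by
  classical
  unfold nab
  rw [Finset.card_eq_one]
  refine ⟨Qd.mk (a + 2) (by omega), ?_⟩
  ext x
  rw [mem_filter, mem_lv, Qd.lev_eq, mem_singleton]
  unfold Qd.fl
  constructor
  · rintro ⟨h1, h2⟩
    apply Qd.ext
    rw [Qd.val_mk]
    split_ifs at h1 <;> omega
  · rintro rfl
    rw [Qd.val_mk, if_neg (by omega), Qd.le_iff', Qd.val_mk, Qd.val_mk]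
    refine ⟨by omega, ?_⟩
    by_cases h : b = 0
    · left
      apply Qd.ext
      rw [Qd.val_mk, Qd.val_mk]; omega
    · right; omega

lemma nst_QD {a b : ℕ} (hb : b < a) :
    nst a (fun _ => 1) (Qd.mk (a + b + 2) (by omega) : Qd a a) = 2 := by
  classical
  refine Eq.trans ?_ (nab_QD0 hb)
  unfold nst nab
  congr 1
  ext x
  simp only [mem_filter, mem_univ, true_and, mem_lv]
  constructor
  · rintro ⟨h1, h2, h3⟩
    exact ⟨by omega, h1⟩
  · rintro ⟨h1, h2⟩
    exact ⟨h2, by omega, by omega⟩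

theorem Z_QD_lt {a b n : ℕ} (hb : b < a) (hn : n ≤ b) : Z (Qd a a) a n = Z (Qd a b) a n := by
  rw [Z_split a (QD a b) (fun _ => 1) n, ND_QD hb, DG_eq_zero (fun x hx => QD_lev x hx), add_zero]
  intro z hz
  rw [QD_bd hb, mem_singleton] at hz
  rw [hz, cst_QD hb]
  omega

theorem Z_QD_eq {a b : ℕ} (hb : b < a) :
    Z (Qd a a) a (b + 1) = Z (Qd a b) a (b + 1) + X ^ (a + 2) * (1 + X) := by
  classical
  have hone : (1 : ℕ) ≤ lev (Qd.mk (a + b + 2) (by omega) : Qd a a) - a := by
    rw [Qd.lev_eq]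
    unfold Qd.fl
    rw [Qd.val_mk, if_neg (by omega)]
    omega
  rw [Z_split a (QD a b) (fun _ => 1) (b + 1), ND_QD hb]
  congr 1
  rw [DG_eq (fun x hx => QD_lev x hx) (fun _ _ => le_rfl)
    (fun z hz => by
      rw [QD_bd hb, mem_singleton] at hz
      rw [hz]; exact hone)
    (fun z hz => by
      rw [QD_bd hb, mem_singleton] at hz
      rw [hz, cst_QD hb])]
  have hf : (bdR (QD a b)).filter (fun z => cst a (fun _ => 1) z = b + 1) =
      {Qd.mk (a + b + 2) (by omega)} := by
    rw [QD_bd hb, Finset.filter_true_of_mem]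
    intro z hz
    rw [mem_singleton] at hz
    rw [hz, cst_QD hb]
  rw [hf, Finset.sum_singleton, if_pos (adm_ez Qd.gradedBelow hone le_rfl),
    nf_ez Qd.gradedBelow hone le_rfl, Qd.below_eq, nst_QD hb]
  have h1 := pk_ez (i := a) (h := fun _ => 1) (z := (Qd.mk (a + b + 2) (by omega) : Qd a a))
    Qd.gradedBelow hone le_rfl
  rw [Qd.card_lv, nab_QD0 hb, nab_QD1 hb] at h1
  have h2 : (Pk a (ez a (fun _ => 1) (Qd.mk (a + b + 2) (by omega) : Qd a a))).card = 1 := by omega
  rw [h2, pow_one]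

/-- LEMMA Q, small energies -/
theorem quadric_dvd {Q : Type u} [Fintype Q] [PartialOrder Q] [DecidableEq Q] {a b : ℕ}
    (φ : Q ≃o Qd a b) (hb : b ≤ a) {n : ℕ} (hn : n ≤ b) : (1 + X : ℤ[X]) ^ 2 ∣ Z Q a n := by
  rw [Z_iso φ]
  rcases eq_or_lt_of_le hb with rfl | hlt
  · exact dvd_Z_Qd b n
  · rw [← Z_QD_lt hlt hn]
    exact dvd_Z_Qd a n

/-- LEMMA Q, first energy of an incomplete quadric -/
theorem quadric_lead {Q : Type u} [Fintype Q] [PartialOrder Q] [DecidableEq Q] {a b : ℕ}
    (φ : Q ≃o Qd a b) (hb : b < a) :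
    (1 + X : ℤ[X]) ^ 2 ∣ Z Q a (b + 1) + X ^ (a + 2) * (1 + X) := by
  rw [Z_iso φ, ← Z_QD_eq hb]
  exact dvd_Z_Qd a (b + 1)

end Pool.Agent.GaussPoset

end

/-! From `Pool.Agent.W_448fc_h67.FcA` -/

section

/-!
Flip lemma: window `i` of a pure poset and window `r - i` of its dual; reflection of polynomials.
-/

namespace Pool.Agent.GaussPoset

set_option linter.unusedSectionVars false

open Polynomial Finset

universe u

section Refl

lemma reflect_one_add_X (b : ℕ) : reflect b ((1 + X : ℤ[X]) ^ b) = (1 + X) ^ b := by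
  induction b with
  | zero => simp
  | succ b ih =>
    rw [pow_succ, reflect_mul _ _ (F := b) (G := 1) ?_ ?_, ih]
    · congr 1
      rw [reflect_add]
      have h1 : reflect 1 (1 : ℤ[X]) = X := by
        have := reflect_C_mul_X_pow 1 0 (R := ℤ) (c := 1)
        rw [revAt_le (Nat.zero_le 1)] at this
        simpa using this
      have h2 : reflect 1 (X : ℤ[X]) = 1 := by
        have := reflect_C_mul_X_pow 1 1 (R := ℤ) (c := 1)
        rw [revAt_le le_rfl] at this
        simpa using this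
      rw [h1, h2, add_comm]
    · refine (natDegree_pow_le).trans ?_
      have : (1 + X : ℤ[X]).natDegree ≤ 1 := by
        refine (natDegree_add_le _ _).trans ?_
        simp
      calc b * (1 + X : ℤ[X]).natDegree ≤ b * 1 := Nat.mul_le_mul_left _ this
        _ = b := Nat.mul_one b
    · refine (natDegree_add_le _ _).trans ?_
      simp

lemma reflect_X_pow_of_le {N k : ℕ} (h : k ≤ N) : reflect N ((X : ℤ[X]) ^ k) = X ^ (N - k) := by
  have := reflect_C_mul_X_pow N k (R := ℤ) (c := 1)
  rw [map_one, one_mul, one_mul, revAt_le h] at this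
  exact this

lemma monic_one_add_X : (1 + X : ℤ[X]).Monic := by
  have := monic_X_add_C (1 : ℤ)
  rwa [map_one, add_comm] at this

lemma natDegree_one_add_X_pow (b : ℕ) : ((1 + X : ℤ[X]) ^ b).natDegree = b := by
  rw [monic_one_add_X.natDegree_pow]
  have : (1 + X : ℤ[X]).natDegree = 1 := by
    have := natDegree_X_add_C (1 : ℤ)
    rwa [map_one, add_comm] at this
  rw [this, mul_one]

lemma dvd_reflect {N b : ℕ} {p : ℤ[X]} (hp : p.natDegree ≤ N) (h : (1 + X : ℤ[X]) ^ b ∣ p) :
    (1 + X : ℤ[X]) ^ b ∣ reflect N p := by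
  obtain ⟨G, rfl⟩ := h
  by_cases hG : G = 0
  · rw [hG, mul_zero, reflect_zero]
    exact dvd_zero _
  · have h1 : ((1 + X : ℤ[X]) ^ b * G).natDegree = b + G.natDegree := by
      rw [(monic_one_add_X.pow b).natDegree_mul' hG, natDegree_one_add_X_pow]
    rw [h1] at hp
    obtain ⟨M, rfl⟩ : ∃ M, N = b + M := ⟨N - b, by omega⟩
    rw [reflect_mul _ _ (F := b) (G := M) (natDegree_one_add_X_pow b).le (by omega),
      reflect_one_add_X]
    exact dvd_mul_right _ _

/-- reflection of sums of powers -/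
theorem dvd_sum_reflect {ι : Type*} {s : Finset ι} {c : ι → ℕ} {N b : ℕ} (hc : ∀ x ∈ s, c x ≤ N)
    (h : (1 + X : ℤ[X]) ^ b ∣ ∑ x ∈ s, (X : ℤ[X]) ^ (N - c x)) :
    (1 + X : ℤ[X]) ^ b ∣ ∑ x ∈ s, (X : ℤ[X]) ^ (c x) := by
  have h1 := dvd_reflect (N := N) (natDegree_sum_le_of_forall_le _ _ fun x _ => by
    rw [natDegree_X_pow]; omega) h
  have h2 : reflect N (∑ x ∈ s, (X : ℤ[X]) ^ (N - c x)) = ∑ x ∈ s, (X : ℤ[X]) ^ (c x) := by
    have : ∀ p, reflect N p = AddMonoidHom.mk' (reflect N : ℤ[X] → ℤ[X])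
      (fun a b => reflect_add a b N) p := fun _ => rfl
    rw [this, map_sum]
    refine Finset.sum_congr rfl fun x hx => ?_
    rw [← this, reflect_X_pow_of_le (Nat.sub_le _ _), Nat.sub_sub_self (hc x hx)]
  rwa [h2] at h1

/-- reflection of sums of powers with a leading term -/
theorem dvd_sum_reflect_lead {ι : Type*} {s : Finset ι} {c : ι → ℕ} {N b a d : ℕ}
    (hc : ∀ x ∈ s, c x ≤ N) (had : a + d ≤ N)
    (h : (1 + X : ℤ[X]) ^ b ∣ ∑ x ∈ s, (X : ℤ[X]) ^ (N - c x) - X ^ a * (1 + X) ^ d) :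
    (1 + X : ℤ[X]) ^ b ∣ ∑ x ∈ s, (X : ℤ[X]) ^ (c x) - X ^ (N - a - d) * (1 + X) ^ d := by
  have hd : (X ^ a * (1 + X : ℤ[X]) ^ d).natDegree ≤ a + d := by
    refine natDegree_mul_le.trans ?_
    rw [natDegree_X_pow, natDegree_one_add_X_pow]
  have h0 : (∑ x ∈ s, (X : ℤ[X]) ^ (N - c x)).natDegree ≤ N :=
    natDegree_sum_le_of_forall_le _ _ fun x _ => by rw [natDegree_X_pow]; omega
  have h1 := dvd_reflect (N := N) ((natDegree_sub_le _ _).trans (max_le h0 (hd.trans had))) h
  have h2 : reflect N (∑ x ∈ s, (X : ℤ[X]) ^ (N - c x)) = ∑ x ∈ s, (X : ℤ[X]) ^ (c x) := by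
    have : ∀ p, reflect N p = AddMonoidHom.mk' (reflect N : ℤ[X] → ℤ[X])
      (fun a b => reflect_add a b N) p := fun _ => rfl
    rw [this, map_sum]
    refine Finset.sum_congr rfl fun x hx => ?_
    rw [← this, reflect_X_pow_of_le (Nat.sub_le _ _), Nat.sub_sub_self (hc x hx)]
  have h3 : reflect N (X ^ a * (1 + X : ℤ[X]) ^ d) = X ^ (N - a - d) * (1 + X) ^ d := by
    obtain ⟨M, rfl⟩ : ∃ M, N = M + d := ⟨N - d, by omega⟩
    rw [reflect_mul _ _ (F := M) (G := d) (by rw [natDegree_X_pow]; omega)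
      (natDegree_one_add_X_pow d).le, reflect_one_add_X, reflect_X_pow_of_le (by omega)]
    congr 2
    omega
  rwa [reflect_sub, h2, h3] at h1

end Refl

section Levels

variable {Q : Type u} [Fintype Q] [PartialOrder Q]

lemma lev_eq_of {f : Q → ℕ} (hf : StrictAnti f) (hs : ∀ x, f x ≠ 0 → ∃ y, x < y ∧ f x = f y + 1)
    (x : Q) : lev x = f x := by
  have key : ∀ n x, f x = n → n ≤ lev x := by
    intro n
    induction n with
    | zero => intro x _; exact Nat.zero_le _
    | succ n ih =>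
      intro x hx
      obtain ⟨y, hxy, hy⟩ := hs x (by omega)
      have h1 := ih y (by omega)
      have h2 := lev_strictAnti hxy
      omega
  exact le_antisymm (lev_le hf x) (key _ x rfl)

end Levels

section Flip

variable {Q : Type u} [Fintype Q] [PartialOrder Q] [DecidableEq Q]

/-- the elements of a graded poset satisfy `lev x + colev x = r` -/
structure Pure (Q : Type u) [Fintype Q] [PartialOrder Q] (r : ℕ) : Prop where
  gr : ∀ x y : Q, x ⋖ y → lev x = lev y + 1
  co : ∀ x : Q, lev (OrderDual.toDual x) + lev x = r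

/-- induction along saturated chains -/
lemma chain_ind {R : Q → Q → Prop} (hrefl : ∀ x, R x x)
    (htr : ∀ x y z, x ≤ y → y ≤ z → R x y → R y z → R x z)
    {S : Q → Prop} (hS : ∀ x y, x ≤ y → S x → S y) (hc : ∀ x y, x ⋖ y → S x → R x y) :
    ∀ x y, x ≤ y → S x → R x y := by
  have key : ∀ n x y, lev x = n → x ≤ y → S x → R x y := by
    intro n
    induction n using Nat.strong_induction_on with
    | _ n ih =>
      intro x y hn hxy hx
      rcases eq_or_lt_of_le hxy with h | h
      · rw [h]; exact hrefl y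
      · obtain ⟨w, hxw, hwy⟩ := exists_covBy_le h
        have h1 := lev_strictAnti hxw.1
        exact htr x w y hxw.1.le hwy (hc x w hxw hx)
          (ih (lev w) (by omega) w y rfl hwy (hS x w hxw.1.le hx))
  intro x y hxy hx
  exact key _ x y rfl hxy hx

lemma rho_flip {r i : ℕ} (H : Pure Q r) {e : Q → ℕ} {e' : Qᵒᵈ → ℕ}
    (he : ∀ x : Q, e' (OrderDual.toDual x) = e x) (x : Q) :
    rho (r - i) e' (OrderDual.toDual x) = rho i e x - (lev x : ℤ) + i := by
  unfold rho
  rw [he]
  have := H.co x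
  have e1 : ((r - i - lev (OrderDual.toDual x) : ℕ) : ℤ) = ((lev x - i : ℕ) : ℤ) := by
    congr 1
    omega
  rw [e1]
  omega

lemma vd_flip {r i : ℕ} (H : Pure Q r) {e : Q → ℕ} {F : Finset Q} (h : Vd i e F)
    {e' : Qᵒᵈ → ℕ} (he : ∀ x : Q, e' (OrderDual.toDual x) = e x) {G : Finset Qᵒᵈ}
    (hG : ∀ x : Q, OrderDual.toDual x ∈ G ↔ x ∉ F) : Vd (r - i) e' G := by
  obtain ⟨h1, h2, h3, h4⟩ := h
  have hr := rho_flip (i := i) H he
  -- going up inside the filter
  have hF : ∀ x y : Q, x ≤ y → x ∈ F →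
      rho (r - i) e' (OrderDual.toDual y) ≤ rho (r - i) e' (OrderDual.toDual x) := by
    refine chain_ind (R := fun x y => rho (r - i) e' (OrderDual.toDual y) ≤
      rho (r - i) e' (OrderDual.toDual x)) (S := fun x => x ∈ F) (fun x => le_rfl)
      (fun x y z _ _ a b => b.trans a) (fun x y hxy hx => h1 x y hxy hx) ?_
    intro x y hxy hx
    have h5 := h4 x y hxy.1 hx (h1 x y hxy.1.le hx)
    have h6 := H.gr x y hxy
    rw [hr, hr, h6]
    push_cast
    omega
  -- going up outside the filter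
  have hO : ∀ x y : Q, x ≤ y → (x ∉ F → y ∉ F → rho (r - i) e' (OrderDual.toDual x) +
      (lev x : ℤ) ≤ rho (r - i) e' (OrderDual.toDual y) + lev y) := by
    intro x y hxy hx hy
    have h5 := h3 x y hxy hx hy
    rw [hr, hr]
    omega
  have hm : ∀ x : Qᵒᵈ, x ∈ G ↔ OrderDual.ofDual x ∉ F := fun x => hG (OrderDual.ofDual x)
  refine ⟨?_, ?_, ?_, ?_⟩
  · intro x y hxy hx
    rw [hm] at hx ⊢
    intro hy
    exact hx (h1 _ _ hxy hy)
  · intro x hx
    rw [hm, not_not] at hx
    obtain ⟨t, ht, hxt⟩ := Cp.exists_top (OrderDual.ofDual x)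
    have h5 := hF _ t hxt hx
    have h6 : 0 ≤ rho (r - i) e' (OrderDual.toDual t) := by
      unfold rho
      have := H.co t
      have e1 : r - i - lev (OrderDual.toDual t) = 0 := by omega
      rw [e1]
      simp
    exact h6.trans h5
  · intro x y hxy hx hy
    rw [hm, not_not] at hx hy
    exact hF _ _ hxy hy
  · intro x y hxy hx hy
    rw [hm] at hx hy
    have h5 := hO (OrderDual.ofDual y) (OrderDual.ofDual x) hxy.le hy hx
    have h6 : lev (OrderDual.ofDual x : Q) < lev (OrderDual.ofDual y : Q) :=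
      lev_strictAnti (show (OrderDual.ofDual y : Q) < OrderDual.ofDual x from hxy)
    have e1 : OrderDual.toDual (OrderDual.ofDual x) = x := rfl
    have e2 : OrderDual.toDual (OrderDual.ofDual y) = y := rfl
    rw [e1, e2] at h5
    omega

lemma vd_flip' {r i : ℕ} (H : Pure Q r) (hi : i ≤ r) {e' : Qᵒᵈ → ℕ} {G : Finset Qᵒᵈ}
    (h : Vd (r - i) e' G) {e : Q → ℕ} {F : Finset Q}
    (he : ∀ x : Q, e' (OrderDual.toDual x) = e x)
    (hG : ∀ x : Q, OrderDual.toDual x ∈ G ↔ x ∉ F) : Vd i e F := by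
  obtain ⟨h1, h2, h3, h4⟩ := h
  have hr := rho_flip (i := i) H he
  have hup : ∀ x y : Q, x ≤ y → x ∈ F → y ∈ F := by
    intro x y hxy hx
    by_contra hy
    exact (hG x).mp (h1 (OrderDual.toDual y) (OrderDual.toDual x) hxy ((hG y).mpr hy)) hx
  have hO : ∀ x y : Q, x ≤ y → True → (y ∉ F → rho i e x ≤ rho i e y) := by
    refine chain_ind (R := fun x y => y ∉ F → rho i e x ≤ rho i e y) (S := fun _ => True)
      (fun x _ => le_rfl)
      (fun x y z _ hyz a b hz => (a (fun hy => hz (hup y z hyz hy))).trans (b hz))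
      (fun _ _ _ _ => trivial) ?_
    intro x y hxy _ hy
    have hx : x ∉ F := fun hx => hy (hup x y hxy.1.le hx)
    have h5 := h4 (OrderDual.toDual y) (OrderDual.toDual x) hxy.1 ((hG y).mpr hy)
      ((hG x).mpr hx)
    rw [hr, hr, H.gr x y hxy] at h5
    push_cast at h5
    omega
  have hI : ∀ x y : Q, x ≤ y → x ∈ F → rho i e y + ((lev x : ℤ) - lev y) ≤ rho i e x := by
    refine chain_ind (R := fun x y => rho i e y + ((lev x : ℤ) - lev y) ≤ rho i e x)
      (S := fun x => x ∈ F) (fun x => by omega) (fun x y z _ _ a b => by omega)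
      (fun x y hxy hx => hup x y hxy hx) ?_
    intro x y hxy hx
    have hy := hup x y hxy.1.le hx
    have h5 := h3 (OrderDual.toDual y) (OrderDual.toDual x) hxy.1.le (fun h => (hG y).mp h hy)
      (fun h => (hG x).mp h hx)
    rw [hr, hr, H.gr x y hxy] at h5
    rw [H.gr x y hxy]
    push_cast at h5 ⊢
    omega
  refine ⟨hup, ?_, ?_, ?_⟩
  · intro x hx
    obtain ⟨t, ht, hxt⟩ := Cp.exists_top (OrderDual.toDual x : Qᵒᵈ)
    have h5 : (OrderDual.ofDual t : Q) ≤ x := hxt
    have h6 := hO _ x h5 trivial hx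
    have h7 : 0 ≤ rho i e (OrderDual.ofDual t) := by
      unfold rho
      have := H.co (OrderDual.ofDual t)
      have e2 : OrderDual.toDual (OrderDual.ofDual t) = t := rfl
      rw [e2, ht] at this
      have e1 : i - lev (OrderDual.ofDual t : Q) = 0 := by omega
      rw [e1]
      simp
    exact h7.trans h6
  · intro x y hxy _ hy
    exact hO x y hxy trivial hy
  · intro x y hxy hx _
    have h5 := hI x y hxy.le hx
    have h6 := lev_strictAnti hxy
    omega

lemma Z_eq_SC (i n : ℕ) : Z Q i n = SC (fun (e : Q → ℕ) F => Vd i e F) n := by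
  rw [Z_eq_ZB, ZB_eq_SC]
  refine SC_congr (fun e F => ?_) n
  rw [cst_empty_iff]
  exact ⟨fun h => h.1, fun h => ⟨h, fun x hx => by simpa using h.2.1 x hx⟩⟩

/-- **Flip lemma.** -/
theorem SC_flip {r i : ℕ} (H : Pure Q r) (hi : i ≤ r) (Φ : (Q → ℕ) → Prop) (n : ℕ) :
    SC (fun (e : Qᵒᵈ → ℕ) G => Vd (r - i) e G ∧ Φ (fun x => e (OrderDual.toDual x))) n =
      ∑ x ∈ cfg (fun (e : Q → ℕ) F => Vd i e F ∧ Φ e) n,
        (X : ℤ[X]) ^ (Fintype.card Q - x.1.card) := by
  classical
  rw [SC_eq_cfg]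
  symm
  refine Finset.sum_bij (fun (x : Finset Q × (Q → ℕ)) _ =>
    ((x.1ᶜ.map (OrderDual.toDual (α := Q)).toEmbedding, fun y => x.2 (OrderDual.ofDual y)) :
      Finset Qᵒᵈ × (Qᵒᵈ → ℕ))) ?_ ?_ ?_ ?_
  · rintro ⟨F, e⟩ hx
    rw [mem_cfg] at hx ⊢
    simp only at hx ⊢
    refine ⟨?_, ?_, hx.2.2⟩
    · rw [← hx.1]
      exact Fintype.sum_equiv (OrderDual.ofDual (α := Q)) _ _ (fun _ => rfl)
    · refine vd_flip H hx.2.1 (fun _ => rfl) ?_
      intro x
      rw [mem_map]
      constructor
      · rintro ⟨y, hy, hyx⟩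
        have : y = x := hyx
        rw [← this]
        exact mem_compl.mp hy
      · intro h
        exact ⟨x, mem_compl.mpr h, rfl⟩
  · rintro ⟨F, e⟩ _ ⟨F', e'⟩ _ h
    simp only [Prod.mk.injEq] at h ⊢
    refine ⟨compl_injective (Finset.map_injective _ h.1), ?_⟩
    funext y
    exact congrFun h.2 (OrderDual.toDual y)
  · rintro ⟨G, e⟩ hx
    rw [mem_cfg] at hx
    simp only at hx
    refine ⟨((G.map (OrderDual.ofDual (α := Q)).toEmbedding)ᶜ, fun y => e (OrderDual.toDual y)),
      ?_, ?_⟩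
    · rw [mem_cfg]
      simp only
      refine ⟨?_, ?_, hx.2.2⟩
      · rw [← hx.1]
        exact Fintype.sum_equiv (OrderDual.toDual (α := Q)) _ _ (fun _ => rfl)
      · refine vd_flip' H hi hx.2.1 (fun _ => rfl) ?_
        intro x
        rw [mem_compl, not_not, mem_map]
        constructor
        · intro h
          exact ⟨OrderDual.toDual x, h, rfl⟩
        · rintro ⟨y, hy, hyx⟩
          have : y = OrderDual.toDual x := hyx
          rw [← this]
          exact hy
    · simp only [Prod.mk.injEq]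
      refine ⟨?_, rfl⟩
      rw [compl_compl]
      ext x
      simp only [mem_map, Equiv.coe_toEmbedding]
      constructor
      · rintro ⟨y, ⟨w, hw, hwy⟩, hyx⟩
        have : w = x := by rw [← hyx, ← hwy]; rfl
        rw [← this]
        exact hw
      · intro h
        exact ⟨OrderDual.ofDual x, ⟨x, h, rfl⟩, rfl⟩
  · rintro ⟨F, e⟩ _
    simp only [card_map, card_compl]

/-- divisibility through the flip -/
theorem dvd_SC_flip {r i b n : ℕ} (H : Pure Q r) (hi : i ≤ r) (Φ : (Q → ℕ) → Prop)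
    (h : (1 + X : ℤ[X]) ^ b ∣ SC (fun (e : Qᵒᵈ → ℕ) G => Vd (r - i) e G ∧
      Φ (fun x => e (OrderDual.toDual x))) n) :
    (1 + X : ℤ[X]) ^ b ∣ SC (fun (e : Q → ℕ) F => Vd i e F ∧ Φ e) n := by
  rw [SC_flip H hi] at h
  rw [SC_eq_cfg]
  exact dvd_sum_reflect (fun x _ => Finset.card_le_univ _) h

theorem dvd_Z_flip {r i b n : ℕ} (H : Pure Q r) (hi : i ≤ r)
    (h : (1 + X : ℤ[X]) ^ b ∣ Z Qᵒᵈ (r - i) n) : (1 + X : ℤ[X]) ^ b ∣ Z Q i n := by
  rw [Z_eq_SC] at h ⊢
  have h1 := dvd_SC_flip (b := b) (n := n) H hi (fun _ => True) (by simpa using h)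
  simpa using h1

theorem dvd_Z_flip_lead {r i b n a d : ℕ} (H : Pure Q r) (hi : i ≤ r)
    (had : a + d ≤ Fintype.card Q)
    (h : (1 + X : ℤ[X]) ^ b ∣ Z Qᵒᵈ (r - i) n - X ^ a * (1 + X) ^ d) :
    (1 + X : ℤ[X]) ^ b ∣ Z Q i n - X ^ (Fintype.card Q - a - d) * (1 + X) ^ d := by
  have h1 := SC_flip H hi (fun _ => True) n
  simp only [and_true] at h1
  rw [Z_eq_SC, h1] at h
  rw [Z_eq_SC, SC_eq_cfg]
  exact dvd_sum_reflect_lead (fun x _ => Finset.card_le_univ _) had h

end Flip

end Pool.Agent.GaussPoset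

end

/-! From `Pool.Agent.W_448fc_h67.FcB` -/

section

/-!
Decomposition of a window sum by the set of the elements with labels at least `k`, and the
change of the window by `k` on this set.
-/

namespace Pool.Agent.GaussPoset

set_option linter.unusedSectionVars false

open Polynomial Finset

universe u

variable {Q : Type u} [Fintype Q] [PartialOrder Q] [DecidableEq Q]

section Shift

lemma rho_shift (i k : ℕ) (e : Q → ℕ) (x : Q) :
    rho i (fun x => e x + min k (lev x - i)) x = rho (i + k) e x + k := by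
  unfold rho
  have h0 : (((e x + min k (lev x - i) : ℕ) : ℤ)) = (e x : ℤ) + ((min k (lev x - i) : ℕ) : ℤ) := by
    push_cast; ring
  rw [h0]
  have h2 : ((min k (lev x - i) : ℕ) : ℤ) - ((i - lev x : ℕ) : ℤ) =
      k - ((i + k - lev x : ℕ) : ℤ) := by
    rcases le_total (lev x) i with h | h
    · have h1 : min k (lev x - i) = 0 := by
        rw [Nat.sub_eq_zero_of_le h, Nat.min_zero]
      rw [h1]
      omega
    · rcases le_total (lev x) (i + k) with h' | h'
      · have h1 : min k (lev x - i) = lev x - i := min_eq_right (by omega)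
        rw [h1]
        omega
      · have h1 : min k (lev x - i) = k := min_eq_left (by omega)
        rw [h1]
        omega
  linarith

lemma cst_const_iff {i k : ℕ} (e : Q → ℕ) (F : Finset Q) :
    Cst i ∅ 0 (fun _ => k) (fun x => e x + min k (lev x - i)) F ↔ Vd (i + k) e F := by
  have hr := rho_shift i k e
  rw [cst_empty_iff]
  unfold Vd
  constructor
  · rintro ⟨⟨h1, h2, h3, h4⟩, h5⟩
    refine ⟨h1, ?_, ?_, ?_⟩
    · intro x hx
      have := h5 x hx
      rw [hr] at this
      omega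
    · intro x y hxy hx hy
      have := h3 x y hxy hx hy
      rw [hr, hr] at this
      omega
    · intro x y hxy hx hy
      have := h4 x y hxy hx hy
      rw [hr, hr] at this
      omega
  · rintro ⟨h1, h2, h3, h4⟩
    refine ⟨⟨h1, ?_, ?_, ?_⟩, ?_⟩
    · intro x hx
      have := h2 x hx
      rw [hr]
      omega
    · intro x y hxy hx hy
      have := h3 x y hxy hx hy
      rw [hr, hr]
      omega
    · intro x y hxy hx hy
      have := h4 x y hxy hx hy
      rw [hr, hr]
      omega
    · intro x hx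
      have := h2 x hx
      rw [hr]
      omega

lemma le_of_cst_const {i k : ℕ} {e : Q → ℕ} {F : Finset Q}
    (h : Cst i ∅ 0 (fun _ => k) e F) (x : Q) : min k (lev x - i) ≤ e x := by
  rw [cst_empty_iff] at h
  by_cases hx : x ∈ F
  · exact (min_le_right _ _).trans (sub_le_of_mem h.1 hx)
  · have h1 := h.2 x hx
    have h2 : rho i e x ≤ e x := by unfold rho; omega
    have : k ≤ e x := by omega
    exact (min_le_left _ _).trans this

/-- cost of the change of the window -/
noncomputable def cw (Q : Type u) [Fintype Q] [PartialOrder Q] (i k : ℕ) : ℕ :=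
  ∑ x : Q, min k (lev x - i)

theorem ZB_const (i k n : ℕ) :
    ZB (P := Q) i ∅ 0 (fun _ => k) (n + cw Q i k) = Z Q (i + k) n := by
  classical
  rw [ZB_eq_SC, Z_eq_SC, SC_eq_cfg, SC_eq_cfg]
  symm
  refine Finset.sum_bij (fun (x : Finset Q × (Q → ℕ)) _ =>
    ((x.1, fun y => x.2 y + min k (lev y - i)) : Finset Q × (Q → ℕ))) ?_ ?_ ?_
    (fun _ _ => rfl)
  · rintro ⟨F, e⟩ hx
    rw [mem_cfg] at hx ⊢
    simp only at hx ⊢
    refine ⟨?_, (cst_const_iff _ _).mpr hx.2⟩
    rw [Finset.sum_add_distrib, hx.1, cw]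
  · rintro ⟨F, e⟩ _ ⟨F', e'⟩ _ h
    simp only [Prod.mk.injEq] at h ⊢
    refine ⟨h.1, ?_⟩
    funext y
    have := congrFun h.2 y
    simpa using this
  · rintro ⟨F, e⟩ hx
    rw [mem_cfg] at hx
    simp only at hx
    have hle := le_of_cst_const hx.2
    have hfun : (fun y => (e y - min k (lev y - i)) + min k (lev y - i)) = e := by
      funext y
      exact Nat.sub_add_cancel (hle y)
    refine ⟨(F, fun y => e y - min k (lev y - i)), ?_, ?_⟩
    · rw [mem_cfg]
      simp only
      refine ⟨?_, ?_⟩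
      · have h1 : ∑ y, ((e y - min k (lev y - i)) + min k (lev y - i)) = ∑ y, e y :=
          Finset.sum_congr rfl fun y _ => congrFun hfun y
        rw [Finset.sum_add_distrib, hx.1] at h1
        unfold cw at h1
        omega
      · rw [← cst_const_iff, hfun]
        exact hx.2
    · simp only [Prod.mk.injEq, true_and]
      exact hfun

theorem ZB_const_zero {i k n : ℕ} (hn : n < cw Q i k) :
    ZB (P := Q) i ∅ 0 (fun _ => k) n = 0 := by
  rw [ZB_eq_SC]
  refine SC_eq_zero fun e F h hs => ?_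
  have := Finset.sum_le_sum fun (x : Q) (_ : x ∈ (univ : Finset Q)) => le_of_cst_const h x
  unfold cw at hn
  omega

end Shift

section Level

open Classical in
/-- the elements in the filter or with label at least `k` -/
noncomputable def upL (i k : ℕ) (e : Q → ℕ) (F : Finset Q) : Finset Q :=
  univ.filter (fun x => x ∈ F ∨ (k : ℤ) ≤ rho i e x)

lemma mem_upL {i k : ℕ} {e : Q → ℕ} {F : Finset Q} {x : Q} :
    x ∈ upL i k e F ↔ x ∈ F ∨ (k : ℤ) ≤ rho i e x := by
  classical
  unfold upL
  simp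

lemma upL_up {i k : ℕ} {e : Q → ℕ} {F : Finset Q} (hV : Vd i e F) {x y : Q} (hxy : x ≤ y)
    (hx : x ∈ upL i k e F) : y ∈ upL i k e F := by
  rw [mem_upL] at hx ⊢
  by_cases hy : y ∈ F
  · exact Or.inl hy
  · rcases hx with h | h
    · exact absurd (hV.1 x y hxy h) hy
    · by_cases hxF : x ∈ F
      · exact absurd (hV.1 x y hxy hxF) hy
      · exact Or.inr (h.trans (hV.2.2.1 x y hxy hxF hy))

/-- the low part of a configuration: labels below `k`, nothing in the filter -/
def Lw (i k : ℕ) (L : Finset Q) (e : {x : Q // x ∉ L} → ℕ) (F : Finset {x : Q // x ∉ L}) : Prop :=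
  F = ∅ ∧ (∀ x : {x : Q // x ∉ L}, 0 ≤ (e x : ℤ) - ((i - lev (x : Q) : ℕ) : ℤ)) ∧
    (∀ x y : {x : Q // x ∉ L}, x ≤ y → (e x : ℤ) - ((i - lev (x : Q) : ℕ) : ℤ) ≤
      (e y : ℤ) - ((i - lev (y : Q) : ℕ) : ℤ)) ∧
    ∀ x : {x : Q // x ∉ L}, (e x : ℤ) - ((i - lev (x : Q) : ℕ) : ℤ) < k

lemma upL_split {i k : ℕ} {L : Finset Q} (hL : ∀ x y, x ≤ y → x ∈ L → y ∈ L) (e : Q → ℕ)
    (F : Finset Q) : (Vd i e F ∧ upL i k e F = L) ↔
      Cst i ∅ 0 (fun _ => k) (fun x : {x : Q // x ∈ L} => e x) (F.subtype (fun x => x ∈ L)) ∧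
      Lw i k L (fun x => e x) (F.subtype (fun x => x ∉ L)) := by
  have hl1 : ∀ x : {x // x ∈ L}, lev x = lev (x : Q) := lev_subtype (p := fun x => x ∈ L) hL
  have hr1 : ∀ x : {x // x ∈ L}, rho i (fun y : {x // x ∈ L} => e y) x = rho i e (x : Q) := by
    intro x
    unfold rho
    rw [hl1]
  have hm1 : ∀ x : {x // x ∈ L}, x ∈ F.subtype (fun x => x ∈ L) ↔ (x : Q) ∈ F :=
    fun x => mem_subtype
  have hm2 : ∀ x : {x // x ∉ L}, x ∈ F.subtype (fun x => x ∉ L) ↔ (x : Q) ∈ F :=
    fun x => mem_subtype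
  rw [cst_empty_iff]
  constructor
  · rintro ⟨⟨h1, h2, h3, h4⟩, h5⟩
    have hFL : ∀ x ∈ F, x ∈ L := by
      intro x hx
      rw [← h5, mem_upL]
      exact Or.inl hx
    refine ⟨⟨⟨?_, ?_, ?_, ?_⟩, ?_⟩, ?_, ?_, ?_, ?_⟩
    · intro x y hxy hx
      rw [hm1] at hx ⊢
      exact h1 x y hxy hx
    · intro x hx
      rw [hm1] at hx
      rw [hr1]
      exact h2 x hx
    · intro x y hxy hx hy
      rw [hm1] at hx hy
      rw [hr1, hr1]
      exact h3 x y hxy hx hy
    · intro x y hxy hx hy
      rw [hm1] at hx hy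
      rw [hr1, hr1]
      exact h4 x y hxy hx hy
    · intro x hx
      rw [hm1] at hx
      rw [hr1]
      have h6 : (x : Q) ∈ upL i k e F := by rw [h5]; exact x.2
      rw [mem_upL] at h6
      exact h6.resolve_left hx
    · rw [Finset.eq_empty_iff_forall_notMem]
      intro x hx
      rw [hm2] at hx
      exact x.2 (hFL _ hx)
    · intro x
      exact h2 x (fun h => x.2 (hFL _ h))
    · intro x y hxy
      exact h3 x y hxy (fun h => x.2 (hFL _ h)) (fun h => y.2 (hFL _ h))
    · intro x
      by_contra hcon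
      have h6 : (x : Q) ∈ upL i k e F := mem_upL.mpr (Or.inr (not_lt.mp hcon))
      rw [h5] at h6
      exact x.2 h6
  · rintro ⟨⟨⟨h1, h2, h3, h4⟩, h5⟩, g0, g1, g2, g3⟩
    have hFL : ∀ x ∈ F, x ∈ L := by
      intro x hx
      by_contra hxL
      have : (⟨x, hxL⟩ : {x // x ∉ L}) ∈ F.subtype (fun x => x ∉ L) := (hm2 _).mpr hx
      rw [g0] at this
      exact absurd this (Finset.notMem_empty _)
    refine ⟨⟨?_, ?_, ?_, ?_⟩, ?_⟩
    · intro x y hxy hx
      have hxL := hFL x hx
      exact (hm1 ⟨y, hL x y hxy hxL⟩).mp (h1 ⟨x, hxL⟩ _ hxy ((hm1 _).mpr hx))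
    · intro x hx
      by_cases hxL : x ∈ L
      · rw [← hr1 ⟨x, hxL⟩]
        exact h2 _ (fun h => hx ((hm1 _).mp h))
      · exact g1 ⟨x, hxL⟩
    · intro x y hxy hx hy
      by_cases hxL : x ∈ L
      · rw [← hr1 ⟨x, hxL⟩, ← hr1 ⟨y, hL x y hxy hxL⟩]
        exact h3 _ _ hxy (fun h => hx ((hm1 _).mp h)) (fun h => hy ((hm1 _).mp h))
      · by_cases hyL : y ∈ L
        · have e1 := g3 ⟨x, hxL⟩
          have e2 := h5 ⟨y, hyL⟩ (fun h => hy ((hm1 _).mp h))
          rw [hr1] at e2
          exact (le_of_lt e1).trans e2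
        · exact g2 ⟨x, hxL⟩ ⟨y, hyL⟩ hxy
    · intro x y hxy hx hy
      rw [← hr1 ⟨x, hFL x hx⟩, ← hr1 ⟨y, hFL y hy⟩]
      exact h4 _ _ hxy ((hm1 _).mpr hx) ((hm1 _).mpr hy)
    · ext x
      rw [mem_upL]
      constructor
      · rintro (h | h)
        · exact hFL x h
        · by_contra hxL
          exact absurd h (not_le.mpr (g3 ⟨x, hxL⟩))
      · intro hxL
        by_cases hx : x ∈ F
        · exact Or.inl hx
        · right
          have e2 := h5 ⟨x, hxL⟩ (fun h => hx ((hm1 _).mp h))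
          rw [hr1] at e2
          exact e2

open Classical in
/-- the up-closed sets with the property `S0` -/
noncomputable def upsF (S0 : Finset Q → Prop) : Finset (Finset Q) :=
  univ.filter (fun L => (∀ x y, x ≤ y → x ∈ L → y ∈ L) ∧ S0 L)

lemma mem_upsF {S0 : Finset Q → Prop} {L : Finset Q} :
    L ∈ upsF S0 ↔ (∀ x y, x ≤ y → x ∈ L → y ∈ L) ∧ S0 L := by
  classical
  unfold upsF
  simp

lemma SC_inst {α : Type u} (i1 i2 : Fintype α) [DecidableEq α]
    (T : (α → ℕ) → Finset α → Prop) (n : ℕ) : @SC α i1 _ T n = @SC α i2 _ T n := by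
  rw [Subsingleton.elim i1 i2]

lemma SC_piece (i k : ℕ) {L : Finset Q} (hL : ∀ x y, x ≤ y → x ∈ L → y ∈ L) (n : ℕ) :
    SC (fun (e : Q → ℕ) F => Vd i e F ∧ upL i k e F = L) n = ∑ ab ∈ antidiagonal n,
      ZB (P := {x // x ∈ L}) i ∅ 0 (fun _ => k) ab.1 * SC (Lw i k L) ab.2 := by
  have h2 := SC_prod (fun x => x ∈ L) (fun (e : Q → ℕ) F => Vd i e F ∧ upL i k e F = L)
    (Cst i ∅ 0 (fun _ => k)) (Lw i k L) (fun e F => upL_split hL e F) n
  rw [h2]
  refine Finset.sum_congr rfl fun ab _ => ?_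
  have h4 : ZB (P := {x // x ∈ L}) i ∅ 0 (fun _ => k) ab.1 =
      @SC {x // x ∈ L} (Subtype.fintype fun x => x ∈ L) _ (Cst i ∅ 0 fun _ => k) ab.1 :=
    SC_inst _ _ _ _
  rw [h4]

lemma SC_fiber {α : Type u} [Fintype α] [DecidableEq α] {β : Type*} [DecidableEq β]
    (T : (α → ℕ) → Finset α → Prop) (g : (α → ℕ) → Finset α → β) (s : Finset β)
    (hg : ∀ e F, T e F → g e F ∈ s) (n : ℕ) :
    SC T n = ∑ L ∈ s, SC (fun e F => T e F ∧ g e F = L) n := by
  classical
  have h1 : ∀ L ∈ s, SC (fun e F => T e F ∧ g e F = L) n =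
      ∑ x ∈ (cfg T n).filter (fun x => g x.2 x.1 = L), (X : ℤ[X]) ^ x.1.card := by
    intro L _
    rw [SC_eq_cfg]
    refine Finset.sum_congr ?_ (fun _ _ => rfl)
    ext x
    rw [mem_cfg, mem_filter, mem_cfg]
    exact ⟨fun h => ⟨⟨h.1, h.2.1⟩, h.2.2⟩, fun h => ⟨h.1.1, h.1.2, h.2⟩⟩
  rw [Finset.sum_congr rfl h1, SC_eq_cfg]
  symm
  refine Finset.sum_fiberwise_of_maps_to (g := fun (x : Finset α × (α → ℕ)) => g x.2 x.1) ?_ _
  intro x hx
  rw [mem_cfg] at hx
  exact hg _ _ hx.2

/-- **Decomposition by the set of high labels.** -/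
theorem SC_upL (i k : ℕ) (S0 : Finset Q → Prop) (n : ℕ) :
    SC (fun (e : Q → ℕ) F => Vd i e F ∧ S0 (upL i k e F)) n =
      ∑ L ∈ upsF S0, ∑ ab ∈ antidiagonal n,
          ZB (P := {x // x ∈ L}) i ∅ 0 (fun _ => k) ab.1 * SC (Lw i k L) ab.2 := by
  rw [SC_fiber _ (upL i k) (upsF S0) (fun e F h =>
    mem_upsF.mpr ⟨fun a b hab ha => upL_up h.1 hab ha, h.2⟩) n]
  refine Finset.sum_congr rfl fun L hL => ?_
  rw [← SC_piece i k (mem_upsF.mp hL).1 n]
  refine SC_congr (fun e F => ?_) n
  constructor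
  · rintro ⟨⟨a, -⟩, c⟩
    exact ⟨a, c⟩
  · rintro ⟨a, c⟩
    exact ⟨⟨a, by rw [c]; exact (mem_upsF.mp hL).2⟩, c⟩

/-- no energy, no labels -/
lemma SC_Lw_zero {i k : ℕ} {L : Finset Q} (hk : 1 ≤ k) (hout : ∀ x, x ∉ L → i ≤ lev x) :
    SC (Lw i k L) 0 = 1 := by
  classical
  rw [SC_eq_cfg]
  have h1 : cfg (Lw i k L) 0 = {((∅ : Finset {x : Q // x ∉ L}), fun _ => 0)} := by
    ext ⟨F, e⟩
    rw [mem_cfg, mem_singleton]
    simp only [Prod.mk.injEq]
    constructor
    · rintro ⟨h1, h2⟩
      refine ⟨h2.1, ?_⟩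
      funext x
      exact (Finset.sum_eq_zero_iff.mp h1) x (mem_univ x)
    · rintro ⟨rfl, rfl⟩
      have h0 : ∀ x : {x : Q // x ∉ L}, i - lev (x : Q) = 0 := fun x => by
        have := hout x x.2
        omega
      refine ⟨by simp, rfl, ?_, ?_, ?_⟩
      · intro x
        rw [h0]
        simp
      · intro x y _
        rw [h0, h0]
      · intro x
        rw [h0]
        simp
        omega
  rw [h1, sum_singleton]
  simp

/-- cost of an up-closed set -/
lemma cw_subtype {i k : ℕ} {L : Finset Q} (hL : ∀ x y, x ≤ y → x ∈ L → y ∈ L) :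
    cw {x // x ∈ L} i k = ∑ x ∈ L, min k (lev x - i) := by
  unfold cw
  rw [← Finset.sum_coe_sort L (fun x => min k (lev x - i))]
  refine Finset.sum_congr rfl fun x _ => ?_
  rw [lev_subtype (p := fun x => x ∈ L) hL]

/-- **Main step.** `U` is the set of the elements above the given ones; everything else lies on
levels `≥ i + k`. -/
theorem SC_core {i k B b : ℕ} {U : Finset Q} (hk : 1 ≤ k)
    (hU : ∀ x y, x ≤ y → x ∈ U → y ∈ U) (S0 : Finset Q → Prop)
    (hS0 : ∀ L : Finset Q, (∀ x y, x ≤ y → x ∈ L → y ∈ L) → S0 L → U ⊆ L)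
    (hout : ∀ x, x ∉ U → i + k ≤ lev x)
    (hcore : S0 U → ∀ n < B, (1 + X : ℤ[X]) ^ b ∣ Z {x // x ∈ U} (i + k) n)
    (hcls : ∀ L : Finset Q, (∀ x y, x ≤ y → x ∈ L → y ∈ L) → U ⊆ L → L ≠ U → ∀ n,
      n + k * (L \ U).card ≤ B → (1 + X : ℤ[X]) ^ b ∣ Z {x // x ∈ L} (i + k) n) :
    (∀ n < B + ∑ x ∈ U, min k (lev x - i), (1 + X : ℤ[X]) ^ b ∣
      SC (fun (e : Q → ℕ) F => Vd i e F ∧ S0 (upL i k e F)) n) ∧
    (¬ S0 U → (1 + X : ℤ[X]) ^ b ∣ SC (fun (e : Q → ℕ) F => Vd i e F ∧ S0 (upL i k e F))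
      (B + ∑ x ∈ U, min k (lev x - i))) ∧
    (S0 U → (1 + X : ℤ[X]) ^ b ∣ SC (fun (e : Q → ℕ) F => Vd i e F ∧ S0 (upL i k e F))
      (B + ∑ x ∈ U, min k (lev x - i)) - Z {x // x ∈ U} (i + k) B) := by
  classical
  set E0 := ∑ x ∈ U, min k (lev x - i) with hE0
  have hcL : ∀ L : Finset Q, (∀ x y, x ≤ y → x ∈ L → y ∈ L) → U ⊆ L →
      cw {x // x ∈ L} i k = E0 + k * (L \ U).card := by
    intro L hL hUL
    rw [cw_subtype hL, ← Finset.sum_sdiff hUL, Nat.add_comm]
    congr 1
    rw [Finset.sum_congr rfl (g := fun _ => k), sum_const, smul_eq_mul, mul_comm]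
    intro x hx
    rw [mem_sdiff] at hx
    have := hout x hx.2
    exact min_eq_left (by omega)
  have hterm : ∀ L ∈ upsF S0, ∀ a,
      (L ≠ U ∧ a ≤ B + E0) ∨ a < B + E0 →
      (1 + X : ℤ[X]) ^ b ∣ ZB (P := {x // x ∈ L}) i ∅ 0 (fun _ => k) a := by
    intro L hL a ha
    rw [mem_upsF] at hL
    have hUL := hS0 L hL.1 hL.2
    have h1 := hcL L hL.1 hUL
    rcases Nat.lt_or_ge a (cw {x // x ∈ L} i k) with h2 | h2
    · rw [ZB_const_zero h2]
      exact dvd_zero _
    · obtain ⟨c, rfl⟩ := Nat.exists_eq_add_of_le' h2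
      rw [ZB_const]
      by_cases hLU : L = U
      · rcases ha with ha | ha
        · exact absurd hLU ha.1
        · subst hLU
          rw [Finset.sdiff_self, card_empty, mul_zero, add_zero] at h1
          exact hcore hL.2 c (by omega)
      · exact hcls L hL.1 hUL hLU c (by omega)
  refine ⟨?_, ?_, ?_⟩
  · intro n hn
    rw [SC_upL i k S0]
    refine Finset.dvd_sum fun L hL => Finset.dvd_sum fun ab hab => ?_
    rw [HasAntidiagonal.mem_antidiagonal] at hab
    exact dvd_mul_of_dvd_left (hterm L hL ab.1 (Or.inr (by omega))) _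
  · intro hSU
    rw [SC_upL i k S0]
    refine Finset.dvd_sum fun L hL => Finset.dvd_sum fun ab hab => ?_
    rw [HasAntidiagonal.mem_antidiagonal] at hab
    refine dvd_mul_of_dvd_left (hterm L hL ab.1 (Or.inl ⟨?_, by omega⟩)) _
    rintro rfl
    exact hSU (mem_upsF.mp hL).2
  · intro hSU
    rw [SC_upL i k S0]
    have hUm : U ∈ upsF S0 := mem_upsF.mpr ⟨hU, hSU⟩
    rw [← Finset.add_sum_erase _ _ hUm]
    have hmem : ((B + E0, 0) : ℕ × ℕ) ∈ antidiagonal (B + E0) := by
      rw [HasAntidiagonal.mem_antidiagonal]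
      exact Nat.add_zero _
    rw [← Finset.add_sum_erase _ _ hmem]
    have h1 : ZB (P := {x // x ∈ U}) i ∅ 0 (fun _ => k) (B + E0) = Z {x // x ∈ U} (i + k) B := by
      have h2 := hcL U hU (Subset.refl U)
      rw [Finset.sdiff_self, card_empty, mul_zero, add_zero] at h2
      rw [← h2, ZB_const]
    simp only
    rw [h1, SC_Lw_zero hk (fun x hx => by have := hout x hx; omega), mul_one]
    have h3 : (1 + X : ℤ[X]) ^ b ∣ ∑ ab ∈ (antidiagonal (B + E0)).erase (B + E0, 0),
        ZB (P := {x // x ∈ U}) i ∅ 0 (fun _ => k) ab.1 * SC (Lw i k U) ab.2 := by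
      refine Finset.dvd_sum fun ab hab => ?_
      rw [mem_erase, HasAntidiagonal.mem_antidiagonal] at hab
      refine dvd_mul_of_dvd_left (hterm U hUm ab.1 (Or.inr ?_)) _
      by_contra hcon
      apply hab.1
      exact Prod.ext (by simp only; omega) (by simp only; omega)
    have h4 : (1 + X : ℤ[X]) ^ b ∣ ∑ L ∈ (upsF S0).erase U,
        ∑ ab ∈ antidiagonal (B + E0),
          ZB (P := {x // x ∈ L}) i ∅ 0 (fun _ => k) ab.1 * SC (Lw i k L) ab.2 := by
      refine Finset.dvd_sum fun L hL => Finset.dvd_sum fun ab hab => ?_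
      rw [mem_erase] at hL
      rw [HasAntidiagonal.mem_antidiagonal] at hab
      exact dvd_mul_of_dvd_left (hterm L hL.2 ab.1 (Or.inl ⟨hL.1, by omega⟩)) _
    have h5 : ∀ a b c : ℤ[X], a + b + c - a = b + c := fun a b c => by ring
    rw [h5]
    exact dvd_add h3 h4

end Level

end Pool.Agent.GaussPoset

end

/-! From `Pool.Agent.W_448fc_h67.FcG` -/

section

/-!
Costly elements can be dropped; a minimal element on the level of the window.
-/

namespace Pool.Agent.GaussPoset

set_option linter.unusedSectionVars false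

open Polynomial Finset

universe u

variable {Q : Type u} [Fintype Q] [PartialOrder Q] [DecidableEq Q]

open Classical in
/-- number of elements above `x` below the window level -/
noncomputable def nup (i : ℕ) (x : Q) : ℕ := (univ.filter (fun y => x ≤ y ∧ i < lev y)).card

lemma nup_le_sum {i : ℕ} {e : Q → ℕ} {F : Finset Q} (hV : Vd i e F) {x : Q} (hx : i < lev x)
    (h : x ∈ F ∨ 1 ≤ e x) : nup i x ≤ ∑ y, e y := by
  classical
  unfold nup
  rw [card_filter]
  refine Finset.sum_le_sum fun y _ => ?_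
  have h1 := ez_le (h := fun _ => 1) hV hx h y
  unfold ez at h1
  split_ifs with h2
  · rw [if_pos h2.1] at h1
    have h3 : min 1 (lev y - i) ≤ e y := h1
    have : 1 ≤ lev y - i := by
      have := h2.2
      omega
    rw [Nat.min_eq_left this] at h3
    exact h3
  · exact Nat.zero_le _

/-- costly elements can be dropped -/
theorem Z_drop {i n : ℕ} {D : Finset Q} (hD : ∀ x y, x ≤ y → y ∈ D → x ∈ D)
    (hlev : ∀ x ∈ D, i < lev x) (hc : ∀ x ∈ D, n < nup i x) :
    Z Q i n = Z {x : Q // x ∉ D} i n := by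
  classical
  rw [← ZB_off hD hlev, Z_eq_SC, ZB_eq_SC, SC_eq_cfg, SC_eq_cfg]
  refine Finset.sum_congr ?_ (fun _ _ => rfl)
  ext ⟨F, e⟩
  rw [mem_cfg, mem_cfg]
  simp only
  refine and_congr_right fun hs => ?_
  constructor
  · intro hV
    have key : ∀ x ∈ D, x ∉ F ∧ e x = 0 := by
      intro x hx
      have h1 := hc x hx
      constructor
      · intro hxF
        have := nup_le_sum hV (hlev x hx) (Or.inl hxF)
        omega
      · by_contra hne
        have := nup_le_sum hV (hlev x hx) (Or.inr (Nat.one_le_iff_ne_zero.mpr hne))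
        omega
    exact ⟨hV, key, fun x _ hx => by simpa using hV.2.1 x hx⟩
  · intro h
    exact h.1

/-- the same for up-closed sets -/
theorem Z_sub {i n : ℕ} {U L : Finset Q} (hU : ∀ x y, x ≤ y → x ∈ U → y ∈ U)
    (hL : ∀ x y, x ≤ y → x ∈ L → y ∈ L) (hUL : U ⊆ L)
    (hlev : ∀ x ∈ L, x ∉ U → i < lev x) (hc : ∀ x ∈ L, x ∉ U → n < nup i x) :
    Z {x // x ∈ L} i n = Z {x // x ∈ U} i n := by
  classical
  have hl : ∀ x : {x // x ∈ L}, lev x = lev (x : Q) := lev_subtype (p := fun x => x ∈ L) hL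
  let D : Finset {x // x ∈ L} := univ.filter (fun x => (x : Q) ∉ U)
  have hD : ∀ x : {x // x ∈ L}, x ∈ D ↔ (x : Q) ∉ U := by
    intro x
    simp [D]
  have hnup : ∀ x : {x // x ∈ L}, nup i x = nup i (x : Q) := by
    intro x
    unfold nup
    refine Finset.card_bij (fun y _ => (y : Q)) ?_ ?_ ?_
    · intro y hy
      rw [mem_filter] at hy ⊢
      rw [hl] at hy
      exact ⟨mem_univ _, hy.2⟩
    · intro y _ y' _ h
      exact Subtype.ext h
    · intro y hy
      rw [mem_filter] at hy
      refine ⟨⟨y, hL x y hy.2.1 x.2⟩, ?_, rfl⟩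
      rw [mem_filter, hl]
      exact ⟨mem_univ _, hy.2⟩
  rw [Z_drop (D := D) ?_ ?_ ?_]
  · refine Z_iso (P := {x : {x // x ∈ L} // x ∉ D}) (Q := {x // x ∈ U})
      { toFun := fun x => ⟨x.1.1, by
          have := x.2
          rw [hD, not_not] at this
          exact this⟩
        invFun := fun x => ⟨⟨x.1, hUL x.2⟩, by rw [hD, not_not]; exact x.2⟩
        left_inv := fun x => rfl
        right_inv := fun x => rfl
        map_rel_iff' := Iff.rfl } i n
  · intro x y hxy hy
    rw [hD] at hy ⊢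
    exact fun h => hy (hU _ _ hxy h)
  · intro x hx
    rw [hD] at hx
    rw [hl]
    exact hlev x x.2 hx
  · intro x hx
    rw [hD] at hx
    rw [hnup]
    exact hc x x.2 hx

section Site

variable {w : ℕ} {y : Q}

lemma SC_vd_pred (w : ℕ) (Φ : (Q → ℕ) → Prop) [DecidablePred Φ] (n : ℕ) :
    SC (fun (e : Q → ℕ) F => Vd w e F ∧ Φ e) n = ∑ e ∈ ((univ : Finset Q).piAntidiag n).filter Φ,
      (by classical exact if Adm w e then X ^ (nf w e) * (1 + X : ℤ[X]) ^ (Pk w e).card else 0) := by
  classical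
  have h1 : ∀ e ∈ ((univ : Finset Q).piAntidiag n).filter Φ,
      (if Adm w e then X ^ (nf w e) * (1 + X : ℤ[X]) ^ (Pk w e).card else 0) =
      ∑ F : Finset Q, (if Vd w e F then (X : ℤ[X]) ^ F.card else 0) := fun e _ => (sum_vd w e).symm
  rw [Finset.sum_congr rfl h1, Finset.sum_comm]
  unfold SC
  refine Finset.sum_congr rfl fun F _ => ?_
  rw [← Finset.sum_filter, Finset.filter_filter]
  refine Finset.sum_congr ?_ (fun _ _ => rfl)
  ext e
  simp only [mem_filter]
  constructor
  · rintro ⟨a, b, c⟩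
    exact ⟨a, c, b⟩
  · rintro ⟨a, b, c⟩
    exact ⟨a, c, b⟩

open Classical in
/-- a minimal element on the level of the window is excited -/
theorem dvd_site (hgr : GradedBelow Q) (hy : ∀ x, x ≤ y → x = y) (hly : lev y = w)
    (h2 : ∀ p : Q, lev p = w + 1 → ((lv Q w).filter (fun x => p < x)).card ≤ 2)
    (h2' : ∀ p : Q, lev p + 1 = w → ((lv Q w).filter (fun x => x < p)).card ≤ 2)
    (hlow : ∀ p : Q, lev p + 1 < w → ∃ p', p' < p ∧ lev p' = lev p + 1) {n c : ℕ} (hn : n ≤ 2)
    (hc : c + 1 ≤ (lv Q w).card) :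
    (1 + X : ℤ[X]) ^ c ∣ SC (fun (e : Q → ℕ) F => Vd w e F ∧ 1 ≤ e y) n := by
  classical
  rw [SC_vd_pred w (fun e => 1 ≤ e y)]
  refine Finset.dvd_sum fun e he => ?_
  rw [mem_filter, mem_piAntidiag] at he
  obtain ⟨⟨hs, -⟩, hey⟩ := he
  split_ifs with hA
  swap
  · exact dvd_zero _
  refine dvd_mul_of_dvd_right (pow_dvd_pow _ ?_) _
  have hs' : ∑ x, e x = n := hs
  -- other labels
  have hoth : ∀ p p', p ≠ y → p' ≠ y → 1 ≤ e p → 1 ≤ e p' → p = p' := by
    intro p p' hp hp' h1 h3
    by_contra hne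
    have h4 : e p + (e p' + e y) ≤ ∑ x, e x := by
      have h5 : ({p, p', y} : Finset Q) ⊆ univ := Finset.subset_univ _
      have h6 := Finset.sum_le_sum_of_subset (f := e) h5
      rw [Finset.sum_insert (by simp [hne, hp]), Finset.sum_pair hp'] at h6
      exact h6
    omega
  have hone : ∀ p, p ≠ y → e p ≤ 1 := by
    intro p hp
    have h4 : e p + e y ≤ ∑ x, e x := by
      have h6 := Finset.sum_le_sum_of_subset (f := e) (Finset.subset_univ ({p, y} : Finset Q))
      rw [Finset.sum_pair hp] at h6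
      exact h6
    omega
  have hrs : ∀ x ∈ lv Q w, rho w e x = e x := by
    intro x hx
    rw [mem_lv] at hx
    unfold rho
    rw [hx, Nat.sub_self]
    simp
  by_cases hp : ∃ p, p ≠ y ∧ 1 ≤ e p
  swap
  · -- only `y` is excited
    push Not at hp
    have h0 : ∀ x, x ≠ y → e x = 0 := fun x hx => by have := hp x hx; omega
    have h1 : lv Q w ⊆ Pk w e := by
      intro x hx
      have hxl := mem_lv.mp hx
      refine mem_filter.mpr ⟨mem_univ _, ?_, ?_⟩
      · rintro (h | ⟨z, hz, h⟩)
        · rw [hrs x hx] at h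
          omega
        · have h3 := lev_strictAnti hz
          rw [hrs x hx, rho_of_lt (by omega), h0 z (by rintro rfl; omega)] at h
          omega
      · rintro ⟨z, hz, h⟩
        have h3 := lev_strictAnti hz
        rw [hrs x hx] at h
        unfold rho at h
        rw [h0 z (by rintro rfl; omega)] at h
        omega
    have := Finset.card_le_card h1
    omega
  obtain ⟨p, hpy, hep⟩ := hp
  have hep1 : e p = 1 := le_antisymm (hone p hpy) hep
  have h0 : ∀ x, x ≠ y → x ≠ p → e x = 0 := by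
    intro x hx hxp
    by_contra hne
    exact hxp (hoth x p hx hpy (Nat.one_le_iff_ne_zero.mpr hne) hep)
  -- sites which are not free
  have hsite : ∀ x ∈ lv Q w, x ∉ Pk w e → (p < x) ∨ (x < p ∧ lev p + 1 = w ∧ x ≠ y) := by
    intro x hx hxP
    have hxl := mem_lv.mp hx
    have : ¬ (¬ FI w e x ∧ ¬ FA w e x) := fun h => hxP (mem_filter.mpr ⟨mem_univ _, h⟩)
    rw [not_and_or, not_not, not_not] at this
    rcases this with (h | ⟨z, hz, h⟩) | ⟨z, hz, h⟩
    · rw [hrs x hx] at h
      omega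
    · have h3 := lev_strictAnti hz
      left
      have hzy : z ≠ y := by rintro rfl; omega
      rw [hrs x hx, rho_of_lt (by omega)] at h
      have : z = p := by
        by_contra hne
        rw [h0 z hzy hne] at h
        omega
      rw [← this]
      exact hz
    · right
      have h3 := lev_strictAnti hz
      have hzy : z ≠ y := by rintro rfl; omega
      rw [hrs x hx] at h
      unfold rho at h
      have hzp : z = p := by
        by_contra hne
        rw [h0 z hzy hne] at h
        omega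
      subst hzp
      rw [hep1] at h
      refine ⟨hz, by omega, ?_⟩
      rintro rfl
      omega
  have hcard : (lv Q w).card ≤ (Pk w e ∩ lv Q w).card + ((lv Q w).filter (fun x => x ∉ Pk w e)).card := by
    have h3 := Finset.card_filter_add_card_filter_not (s := lv Q w) (fun x => x ∈ Pk w e)
    have h4 : (lv Q w).filter (fun x => x ∈ Pk w e) = Pk w e ∩ lv Q w := by
      ext x
      rw [mem_filter, mem_inter]
      exact and_comm
    rw [h4] at h3
    omega
  have hsub : (Pk w e ∩ lv Q w).card ≤ (Pk w e).card := Finset.card_le_card inter_subset_left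
  have hsub' : p ∉ lv Q w → p ∈ Pk w e → (Pk w e ∩ lv Q w).card + 1 ≤ (Pk w e).card := by
    intro hp1 hp2
    have h3 : insert p (Pk w e ∩ lv Q w) ⊆ Pk w e := by
      intro x hx
      rw [mem_insert] at hx
      rcases hx with rfl | hx
      · exact hp2
      · exact (mem_inter.mp hx).1
    have h4 := Finset.card_le_card h3
    rw [card_insert_of_notMem (fun h => hp1 (mem_inter.mp h).2)] at h4
    exact h4
  rcases Nat.lt_trichotomy (lev p) w with hl | hl | hl
  · -- above the window
    have hno : (lv Q w).filter (fun x => x ∉ Pk w e) ⊆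
        ((lv Q w).filter (fun x => x < p)).erase y := by
      intro x hx
      rw [mem_filter] at hx
      rw [mem_erase, mem_filter]
      rcases hsite x hx.1 hx.2 with h | ⟨h, -, h'⟩
      · exfalso
        have := lev_strictAnti h
        have := mem_lv.mp hx.1
        omega
      · exact ⟨h', hx.1, h⟩
    rcases Nat.lt_or_ge (lev p + 1) w with hl2 | hl2
    · exfalso
      obtain ⟨p', hp', hlp'⟩ := hlow p hl2
      have hp'y : p' ≠ y := by rintro rfl; omega
      have e1 : rho w e p' = -((w - lev p' : ℕ) : ℤ) := by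
        unfold rho
        rw [h0 p' hp'y hp'.ne]
        simp
      refine hA p' ⟨Or.inl ?_, ⟨p, hp', ?_⟩⟩
      · rw [e1]; omega
      · rw [e1]
        unfold rho
        rw [hep1]
        omega
    · have hl3 : lev p + 1 = w := by omega
      have h3 := Finset.card_le_card hno
      by_cases hyp : y < p
      · have h4 : y ∈ (lv Q w).filter (fun x => x < p) := mem_filter.mpr ⟨mem_lv.mpr hly, hyp⟩
        rw [card_erase_of_mem h4] at h3
        have := h2' p hl3
        omega
      · have h5 : p ∈ Pk w e := by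
          refine mem_filter.mpr ⟨mem_univ _, ?_, ?_⟩
          · rintro (h | ⟨z, hz, h⟩)
            · unfold rho at h
              rw [hep1] at h
              omega
            · have hzy : z ≠ y := by rintro rfl; exact hyp hz
              unfold rho at h
              rw [hep1, h0 z hzy hz.ne] at h
              omega
          · rintro ⟨z, hz, h⟩
            have h6 := lev_strictAnti hz
            have hzy : z ≠ y := by rintro rfl; omega
            unfold rho at h
            rw [hep1, h0 z hzy hz.ne'] at h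
            omega
        have h6 := hsub' (fun h => by have := mem_lv.mp h; omega) h5
        have h7 := Finset.card_le_card (Finset.erase_subset y ((lv Q w).filter (fun x => x < p)))
        have := h2' p hl3
        omega
  · -- on the window
    have hno : (lv Q w).filter (fun x => x ∉ Pk w e) = ∅ := by
      rw [Finset.filter_eq_empty_iff]
      intro x hx hxP
      rcases hsite x hx hxP with h | ⟨h, h', -⟩
      · have := lev_strictAnti h
        have := mem_lv.mp hx
        omega
      · omega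
    rw [hno, card_empty] at hcard
    omega
  · -- below the window
    rcases Nat.lt_or_ge (w + 1) (lev p) with hl2 | hl2
    · exfalso
      obtain ⟨p', hpp', hp'⟩ := exists_above' (x := p) (show w + 1 ≤ lev p by omega)
      have hlt : p < p' := lt_of_le_of_ne hpp' (by rintro rfl; omega)
      have hp'y : p' ≠ y := by rintro rfl; omega
      obtain ⟨x, hpx, hx⟩ := exists_above' (x := p') (show w ≤ lev p' by omega)
      have hlt' : p' < x := lt_of_le_of_ne hpx (by rintro rfl; omega)
      have e1 : rho w e p' = 0 := by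
        rw [rho_of_lt (by omega), h0 p' hp'y hlt.ne']
        rfl
      refine hA p' ⟨Or.inr ⟨p, hlt, ?_⟩, ⟨x, hlt', ?_⟩⟩
      · rw [e1, rho_of_lt hl, hep1]
        norm_num
      · rw [e1, hrs x (mem_lv.mpr hx)]
        omega
    · have hl3 : lev p = w + 1 := by omega
      have h5 : p ∈ Pk w e := by
        refine mem_filter.mpr ⟨mem_univ _, ?_, ?_⟩
        · rintro (h | ⟨z, hz, h⟩)
          · rw [rho_of_lt hl, hep1] at h
            norm_num at h
          · have h6 := lev_strictAnti hz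
            have hzy : z ≠ y := by rintro rfl; omega
            rw [rho_of_lt hl, hep1, rho_of_lt (by omega), h0 z hzy hz.ne] at h
            norm_num at h
        · rintro ⟨z, hz, h⟩
          have h6 := lev_strictAnti hz
          have hzy : z ≠ y := by
            rintro rfl
            have := hy p hz.le
            exact hpy this
          unfold rho at h
          rw [hep1, h0 z hzy hz.ne'] at h
          omega
      have h6 := hsub' (fun h => by have := mem_lv.mp h; omega) h5
      have hno : (lv Q w).filter (fun x => x ∉ Pk w e) ⊆ (lv Q w).filter (fun x => p < x) := by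
        intro x hx
        rw [mem_filter] at hx ⊢
        rcases hsite x hx.1 hx.2 with h | ⟨h, h', -⟩
        · exact ⟨hx.1, h⟩
        · omega
      have h7 := Finset.card_le_card hno
      have := h2 p hl3
      omega

end Site

end Pool.Agent.GaussPoset

end

/-! From `Pool.Agent.W_448fc_h67.FcL` -/

section

/-!
Reduction to the component of the stair: the other components contribute their orders.
-/

namespace Pool.Agent.GaussPoset

set_option linter.unusedSectionVars false

open Polynomial Finset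

universe u

variable {P : Type u} [Fintype P] [PartialOrder P] [DecidableEq P]

/-- the bound `k` on `Sd` -/
def sgs (Sd : Finset P) (k : ℕ) (x : P) : ℕ := if x ∈ Sd then k else 0

lemma sgs_of {Sd : Finset P} (k : ℕ) {x : P} (h : x ∈ Sd) : sgs Sd k x = k := if_pos h

lemma sgs_off {Sd : Finset P} (k : ℕ) {x : P} (h : x ∉ Sd) : sgs Sd k x = 0 := if_neg h

lemma sgs_single (z : P) (k : ℕ) : sgs {z} k = sgz z k := by
  funext x
  unfold sgs sgz
  simp only [mem_singleton]

lemma cst_sgs_iff {i : ℕ} {Sd : Finset P} {k : ℕ} (e : P → ℕ) (F : Finset P) :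
    Cst i ∅ 0 (sgs Sd k) e F ↔ Vd i e F ∧ Sd ⊆ upL i k e F := by
  rw [cst_empty_iff]
  refine and_congr_right fun hV => ?_
  constructor
  · intro h x hx
    rw [mem_upL]
    by_cases hxF : x ∈ F
    · exact Or.inl hxF
    · right
      have := h x hxF
      rwa [sgs_of k hx] at this
  · intro h x hxF
    by_cases hx : x ∈ Sd
    · rw [sgs_of k hx]
      exact (mem_upL.mp (h hx)).resolve_left hxF
    · rw [sgs_off k hx]
      simpa using hV.2.1 x hxF

section Red

variable {i : ℕ} {N : Tops P → Finset P} {t0 : Tops P}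

open Classical in
/-- unnatural elements below the other tops -/
noncomputable def offN (N : Tops P → Finset P) (t0 : Tops P) : Finset P :=
  univ.filter (fun x => ∃ t : Tops P, t ≠ t0 ∧ x ≤ (t : P) ∧ x ∉ N t)

lemma mem_offN {x : P} : x ∈ offN N t0 ↔ ∃ t : Tops P, t ≠ t0 ∧ x ≤ (t : P) ∧ x ∉ N t := by
  classical
  unfold offN
  simp

lemma offN_down (HN : NatSys N) : ∀ x y, x ≤ y → y ∈ offN N t0 → x ∈ offN N t0 := by
  intro x y hxy hy
  rw [mem_offN] at hy ⊢
  obtain ⟨t, h1, h2, h3⟩ := hy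
  exact ⟨t, h1, hxy.trans h2, fun h => h3 (HN.up t x h y hxy)⟩

lemma offN_sub (HN : NatSys N) : offN N t0 ⊆ unnat N := by
  intro x hx
  rw [mem_offN] at hx
  obtain ⟨t, h1, h2, h3⟩ := hx
  rw [mem_unnat]
  intro s hs
  have h4 := HN.top_eq hs t.2 h2
  have : t = s := Subtype.ext h4
  rw [this] at h3
  exact h3 hs

lemma not_offN_of_onlyB {x : P} (hx : x ∈ onlyB t0) : x ∉ offN N t0 := by
  intro h
  rw [mem_offN] at h
  obtain ⟨t, h1, h2, h3⟩ := h
  rw [mem_onlyB] at hx
  exact h1 (Subtype.ext (hx t t.2 h2))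

lemma mem_of_not_offN {x : P} (hx : x ∉ offN N t0) {t : Tops P} (ht : t ≠ t0)
    (hxt : x ≤ (t : P)) : x ∈ N t := by
  by_contra h
  exact hx (mem_offN.mpr ⟨t, ht, hxt, h⟩)

lemma onlyB_of_not_offN (HN : NatSys N) {x : P} (hx : x ∉ offN N t0) (hx0 : x ≤ (t0 : P)) :
    x ∈ onlyB t0 := by
  rw [mem_onlyB]
  intro s hs hxs
  by_contra hne
  have h1 : (⟨s, hs⟩ : Tops P) ≠ t0 := fun h => hne (congrArg Subtype.val h)
  have h2 := mem_of_not_offN hx h1 hxs
  have h3 := HN.top_eq h2 t0.2 hx0
  exact h1 (Subtype.ext h3.symm)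

/-- the other components -/
theorem dvd_rest {b : Tops P → ℕ} {θ : Tops P → P → ℕ} {B : Tops P → P → Prop}
    (H : ∀ t, NatTop i t (b t) (N t) (θ t) (B t)) (n : ℕ) :
    (1 + X : ℤ[X]) ^ (∑ t ∈ univ.erase t0, b t) ∣
      Z {x : {x : P // x ∉ offN N t0} // ¬ (x : P) ∈ onlyB t0} i n := by
  classical
  have HN := natSys_of_tops H
  refine dvd_Z_of_dvd_W ?_ n
  have hmemN : ∀ x : {x : {x : P // x ∉ offN N t0} // ¬ (x : P) ∈ onlyB t0},
      (x : P) ∈ N (topOf (x : P)) := by
    intro x
    refine mem_of_not_offN x.1.2 ?_ (le_topOf _)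
    intro h
    refine x.2 (onlyB_of_not_offN HN x.1.2 ?_)
    have h1 := le_topOf (x : P)
    rw [h] at h1
    exact h1
  have hs : ∑ t ∈ univ.erase t0, b t = ∑ t, (if t = t0 then 0 else b t) := by
    rw [← Finset.add_sum_erase univ _ (mem_univ t0), if_pos rfl, zero_add]
    exact Finset.sum_congr rfl fun t ht => by rw [if_neg (ne_of_mem_erase ht)]
  rw [hs]
  refine dvd_W_prod (fun x : {x : {x : P // x ∉ offN N t0} // ¬ (x : P) ∈ onlyB t0} =>
    topOf (x : P)) ?_ i _ fun k => ?_
  · intro x y hxy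
    exact HN.cp x y hxy fun h => mem_unnat.mp h _ (hmemN x)
  · by_cases hk : k = t0
    · rw [if_pos hk, pow_zero]
      exact one_dvd _
    · rw [if_neg hk]
      have h1 : CompData (unnat N) topOf k i (b k) (fun x => θ (topOf x) x)
          (fun x => x ∉ unnat N ∧ B (topOf x) x) := by
        refine (H k).data N HN rfl _ _ ?_ ?_
        · intro x hx
          simp only [HN.topOf_eq hx]
        · intro x hx
          simp only [HN.topOf_eq hx, (HN.mem_iff.mp hx).1, not_false_eq_true, true_and]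
      have h2 := h1.clean (unnat N) ⟨HN.lower, Finset.Subset.refl _, fun x hx => by
        by_contra hcon
        exact low_natural H (not_lt.mp hcon) hx, fun x hx h => h.1 hx⟩ inferInstance
      have e : {x : {x : {x : P // x ∉ offN N t0} // ¬ (x : P) ∈ onlyB t0} // topOf (x : P) = k} ≃o
          {x : {x : P // x ∉ unnat N} // topOf (x : P) = k} :=
        { toFun := fun x => ⟨⟨x.1.1.1, fun h => mem_unnat.mp h _ (hmemN x.1)⟩, x.2⟩
          invFun := fun x => ⟨⟨⟨x.1.1, fun h => x.1.2 (offN_sub HN h)⟩, fun h => by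
            have h3 : (x.1.1 : P) ∈ N k := HN.mem_iff.mpr ⟨x.1.2, x.2⟩
            exact hk (Subtype.ext (mem_onlyB.mp h k k.2 (HN.le_t k _ h3)))⟩, x.2⟩
          left_inv := fun x => rfl
          right_inv := fun x => rfl
          map_rel_iff' := Iff.rfl }
      rw [W_iso e]
      exact h2

/-- the truncated sum splits -/
theorem ZB_reduce (HN : NatSys N) (hlev : ∀ x ∈ unnat N, i < lev x) {Sd : Finset P} {h n : ℕ}
    (hSd : ∀ x ∈ Sd, x ∈ onlyB t0)
    (hcost : ∀ e F, Vd i e F → Sd ⊆ upL i h e F → ∑ x, e x = n → ∀ x ∈ offN N t0,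
      x ∉ F ∧ e x = 0) :
    ZB i ∅ 0 (sgs Sd h) n = ∑ ab ∈ antidiagonal n,
      SC (fun (e : {x : {x : P // x ∉ offN N t0} // (x : P) ∈ onlyB t0} → ℕ) F => Vd i e F ∧
        (univ.filter (fun x : {x : {x : P // x ∉ offN N t0} // (x : P) ∈ onlyB t0} =>
          (x : P) ∈ Sd)) ⊆ upL i h e F) ab.1 *
      Z {x : {x : P // x ∉ offN N t0} // ¬ (x : P) ∈ onlyB t0} i ab.2 := by
  classical
  have hD := offN_down (t0 := t0) HN
  have hsub := offN_sub (t0 := t0) HN
  have h1 : ZB i ∅ 0 (sgs Sd h) n = ZB i (offN N t0) 0 (sgs Sd h) n := by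
    rw [ZB_eq_SC, ZB_eq_SC, SC_eq_cfg, SC_eq_cfg]
    refine Finset.sum_congr ?_ (fun _ _ => rfl)
    ext ⟨F, e⟩
    rw [mem_cfg, mem_cfg]
    simp only
    refine and_congr_right fun hs => ?_
    constructor
    · intro hC
      have h2 := (cst_sgs_iff e F).mp hC
      refine ⟨h2.1, fun x hx => ?_, fun x _ hxF => ?_⟩
      · exact hcost e F h2.1 h2.2 hs x hx
      · exact (cst_empty_iff.mp hC).2 x hxF
    · rintro ⟨hV, h2, h3⟩
      rw [cst_empty_iff]
      refine ⟨hV, fun x hxF => ?_⟩
      by_cases hx : x ∈ offN N t0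
      · have hxS : x ∉ Sd := fun h' => not_offN_of_onlyB (hSd x h') hx
        rw [sgs_off h hxS]
        simpa using hV.2.1 x hxF
      · exact h3 x hx hxF
  rw [h1, ZB_off_bound hD (fun x hx => hlev x (hsub hx)), ZB_prod
    (fun x : {x : P // x ∉ offN N t0} => (x : P) ∈ onlyB t0)]
  · refine Finset.sum_congr rfl fun ab _ => ?_
    refine congrArg₂ (· * ·) ?_ ?_
    · have h2 : (fun x : {x : {x : P // x ∉ offN N t0} // (x : P) ∈ onlyB t0} =>
          sgs Sd h ((x : {x : P // x ∉ offN N t0}) : P)) =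
          sgs (univ.filter (fun x : {x : {x : P // x ∉ offN N t0} // (x : P) ∈ onlyB t0} =>
          (x : P) ∈ Sd)) h := by
        funext x
        unfold sgs
        simp only [mem_filter, mem_univ, true_and]
      rw [h2, ZB_eq_SC]
      exact SC_congr (fun e F => cst_sgs_iff e F) _
    · have h3 : (fun x : {x : {x : P // x ∉ offN N t0} // ¬ (x : P) ∈ onlyB t0} =>
          sgs Sd h ((x : {x : P // x ∉ offN N t0}) : P)) = 0 := by
        funext x
        exact sgs_off h fun hx => x.2 (hSd _ hx)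
      rw [h3, Z_eq_ZB]
  · intro x y hxy
    constructor
    · intro hx
      exact onlyB_up hx hxy
    · intro hy
      refine onlyB_of_not_offN HN x.2 (le_trans hxy ?_)
      have h4 := mem_onlyB.mp hy (topOf (y : P)) (topOf (y : P)).2 (le_topOf _)
      rw [← h4]
      exact le_topOf _

end Red

end Pool.Agent.GaussPoset

end

/-! From `Pool.Agent.W_448s7_h27.FarIEb` -/

section

/-!
Inclusion-exclusion over defects: the sign theorem from divisibility of the sums with few defects.
-/

namespace Pool.Agent.GaussPoset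

set_option linter.unusedSectionVars false

open Polynomial Finset

universe u

variable {P : Type u} [Fintype P] [PartialOrder P] [DecidableEq P]
variable {κ : Type*} [Fintype κ] [DecidableEq κ]

/-- **The window theorem of order `d + 1`**: `Q` excludes the hard defects, `K` is the set of the
soft defects. -/
theorem ie_sign {i n d b : ℕ} (Q : (P → ℕ) → Finset P → Prop)
    (K : (P → ℕ) → Finset P → Finset κ)
    (hdv : ∀ S : Finset κ, S.card ≤ d →
      (1 + X : ℤ[X]) ^ b ∣ ZQ i n (fun e F => Q e F ∧ K e F ⊆ S))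
    (hZ : (1 + X : ℤ[X]) ^ b ∣ Z P i n)
    (hgr : GradedBelow P) (k : P → ℕ) (T : Finset P)
    (h2 : ∀ z ∈ T, 1 ≤ k z ∧ k z ≤ lev z - i) (hcst : ∀ z ∈ T, cst i k z = n)
    (hb : ∀ z ∈ T, ∀ F, Vd i (ez i k z) F → ¬ (Q (ez i k z) F ∧ (K (ez i k z) F).card ≤ d))
    (hall : ∀ e F, Vd i e F → ∑ x, e x = n → ¬ (Q e F ∧ (K e F).card ≤ d) →
      ∃ z ∈ T, e = ez i k z)
    {c0 : ℕ} (hc : c0 < b)
    (hle : ∀ z ∈ T, c0 + nab i z ≤ (lv P i).card + nab (i + k z) z) :
    ∑ z ∈ T.filter (fun z => c0 + nab i z = (lv P i).card + nab (i + k z) z),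
      (-1 : ℤ) ^ (nst i k z) = 0 := by
  classical
  have h0 : Z P i n = ZQ i n (fun e F => Q e F ∧ (K e F).card ≤ d) +
      ZQ i n (fun e F => ¬ (Q e F ∧ (K e F).card ≤ d)) := by
    rw [Z_eq_ZQ, ZQ_split i n (fun _ _ => True) (fun e F => Q e F ∧ (K e F).card ≤ d)]
    congr 1
    · exact ZQ_congr fun e F _ _ => by simp
    · exact ZQ_congr fun e F _ _ => by simp
  have h1 : (1 + X : ℤ[X]) ^ b ∣
      Z P i n - ZQ i n (fun e F => ¬ (Q e F ∧ (K e F).card ≤ d)) := by
    rw [h0, add_sub_cancel_right]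
    exact dvd_ZQ_card hdv
  rw [ZQ_lead k T hgr h2 (fun z hz _ => hb z hz) hall] at h1
  have h3 : T.filter (fun z => cst i k z = n) = T :=
    Finset.filter_true_of_mem fun z hz => hcst z hz
  rw [h3] at h1
  exact sign_sum_of_dvd T hZ h1 hc hle

end Pool.Agent.GaussPoset

end

/-! From `Pool.Agent.W_448pg_h74.PgA` -/

section

/-!
Products over the components with their energies (MP_448cb3_co).
-/

namespace Pool.Agent.GaussPoset

set_option linter.unusedSectionVars false

open Polynomial Finset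

universe u

section Parts

variable {P : Type u} [Fintype P] [DecidableEq P]
variable {ι : Type*} [Fintype ι] [DecidableEq ι]

/-- the elements off `R` in the part `k` -/
def InPart (R : Finset P) (cp : P → ι) (k : ι) (x : P) : Prop := x ∉ R ∧ cp x = k

instance (R : Finset P) (cp : P → ι) (k : ι) : DecidablePred (InPart R cp k) :=
  fun _ => inferInstanceAs (Decidable (_ ∧ _))

lemma card_parts {R : Finset P} (cp : P → ι) {F : Finset P} (hF : ∀ x ∈ R, x ∉ F) :
    F.card = ∑ k, (F.subtype (InPart R cp k)).card := by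
  classical
  rw [Finset.card_eq_sum_card_fiberwise (f := cp) (t := univ) (fun x _ => mem_univ _)]
  refine Finset.sum_congr rfl fun k _ => ?_
  rw [card_subtype]
  congr 1
  ext x
  rw [mem_filter, mem_filter]
  constructor
  · rintro ⟨h1, h2⟩
    exact ⟨h1, fun h => hF x h h1, h2⟩
  · rintro ⟨h1, -, h2⟩
    exact ⟨h1, h2⟩

lemma sum_parts (R : Finset P) (cp : P → ι) (e : P → ℕ) :
    ∑ x, e x = ∑ x ∈ R, e x +
      ∑ k, ∑ x ∈ univ.filter (fun x => x ∉ R ∧ cp x = k), e x := by
  classical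
  have h1 : ∀ k, ∑ x ∈ univ.filter (fun x => x ∉ R ∧ cp x = k), e x =
      ∑ x ∈ (univ.filter (fun x => x ∉ R)).filter (fun x => cp x = k), e x := by
    intro k
    rw [Finset.filter_filter]
  rw [Finset.sum_congr rfl (fun k _ => h1 k),
    Finset.sum_fiberwise_of_maps_to (g := cp) (fun x _ => mem_univ _)]
  have h2 : ∑ x ∈ R, e x = ∑ x ∈ univ.filter (fun x => x ∈ R), e x := by
    refine Finset.sum_congr ?_ (fun _ _ => rfl)
    ext x; simp
  rw [h2]
  exact (Finset.sum_filter_add_sum_filter_not univ (fun x => x ∈ R) e).symm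

lemma sum_part (R : Finset P) (cp : P → ι) (k : ι) (e : P → ℕ) :
    ∑ x ∈ univ.filter (fun x => x ∉ R ∧ cp x = k), e x =
      ∑ x : {x // InPart R cp k x}, e x := by
  classical
  rw [Finset.sum_subtype (univ.filter (fun x => x ∉ R ∧ cp x = k)) (p := InPart R cp k)]
  intro x
  rw [mem_filter]
  exact ⟨fun h => h.2, fun h => ⟨mem_univ _, h⟩⟩

/-- product formula over the parts, with frozen labels on `R` and given energies -/
theorem SC_parts (R : Finset P) (cp : P → ι) (g : P → ℕ) (T : (P → ℕ) → Finset P → Prop)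
    (Tk : ∀ k : ι, ({x // InPart R cp k x} → ℕ) → Finset {x // InPart R cp k x} → Prop)
    (hT : ∀ e F, T e F ↔ (∀ x ∈ R, x ∉ F ∧ e x = g x) ∧
      ∀ k, Tk k (fun x => e x) (F.subtype (InPart R cp k)))
    (M : ι → ℕ) (n : ℕ) (hn : n = ∑ x ∈ R, g x + ∑ k, M k) :
    SC (fun e F => T e F ∧
      ∀ k, ∑ x ∈ univ.filter (fun x => x ∉ R ∧ cp x = k), e x = M k) n =
      ∏ k, SC (Tk k) (M k) := by
  classical
  have h1 : ∏ k, SC (Tk k) (M k) =
      ∑ p ∈ Fintype.piFinset (fun k => cfg (Tk k) (M k)), ∏ k, (X : ℤ[X]) ^ (p k).1.card := by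
    rw [Finset.prod_congr rfl (fun k _ => SC_eq_cfg (Tk k) (M k)), Finset.prod_univ_sum]
  rw [h1, SC_eq_cfg]
  refine Finset.sum_bij (fun (x : Finset P × (P → ℕ)) _ =>
    (fun k => (x.1.subtype (InPart R cp k), fun y : {y // InPart R cp k y} => x.2 y))) ?_ ?_ ?_ ?_
  · rintro ⟨F, e⟩ hx
    rw [mem_cfg] at hx
    obtain ⟨hs, hT1, hM⟩ := hx
    rw [Fintype.mem_piFinset]
    intro k
    rw [mem_cfg]
    refine ⟨?_, ((hT e F).mp hT1).2 k⟩
    rw [← hM k, sum_part]
  · rintro ⟨F, e⟩ hx ⟨F', e'⟩ hx' h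
    rw [mem_cfg] at hx hx'
    obtain ⟨-, hT1, -⟩ := hx
    obtain ⟨-, hT1', -⟩ := hx'
    have h2 := ((hT e F).mp hT1).1
    have h2' := ((hT e' F').mp hT1').1
    have h3 : ∀ x, x ∉ R → (x ∈ F ↔ x ∈ F') ∧ e x = e' x := by
      intro x hx
      have h4 := congrFun h (cp x)
      simp only [Prod.mk.injEq] at h4
      have h5 : InPart R cp (cp x) x := ⟨hx, rfl⟩
      refine ⟨?_, congrFun h4.2 ⟨x, h5⟩⟩
      have h6 : (⟨x, h5⟩ : {y // InPart R cp (cp x) y}) ∈ F.subtype (InPart R cp (cp x)) ↔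
          (⟨x, h5⟩ : {y // InPart R cp (cp x) y}) ∈ F'.subtype (InPart R cp (cp x)) := by
        rw [h4.1]
      rwa [mem_subtype, mem_subtype] at h6
    refine Prod.ext ?_ ?_
    · ext x
      by_cases hx : x ∈ R
      · exact ⟨fun h => absurd h (h2 x hx).1, fun h => absurd h (h2' x hx).1⟩
      · exact (h3 x hx).1
    · funext x
      by_cases hx : x ∈ R
      · exact ((h2 x hx).2).trans ((h2' x hx).2).symm
      · exact (h3 x hx).2
  · intro p hp
    rw [Fintype.mem_piFinset] at hp
    let F : Finset P := univ.filter (fun x => ∃ h : x ∉ R,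
      (⟨x, h, rfl⟩ : {y // InPart R cp (cp x) y}) ∈ (p (cp x)).1)
    let e : P → ℕ := fun x => if h : x ∈ R then g x else
      (p (cp x)).2 (⟨x, h, rfl⟩ : {y // InPart R cp (cp x) y})
    have hF : ∀ k, F.subtype (InPart R cp k) = (p k).1 := by
      intro k
      ext ⟨x, hx, hk⟩
      subst hk
      rw [mem_subtype]
      simp only [F, mem_filter, mem_univ, true_and]
      exact ⟨fun h => h.2, fun h => ⟨hx, h⟩⟩
    have he : ∀ k, (fun y : {y // InPart R cp k y} => e y) = (p k).2 := by
      intro k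
      funext ⟨x, hx, hk⟩
      subst hk
      simp only [e]
      rw [dif_neg hx]
    refine ⟨(F, e), ?_, ?_⟩
    · rw [mem_cfg]
      have hM : ∀ k, ∑ x ∈ univ.filter (fun x => x ∉ R ∧ cp x = k), e x = M k := by
        intro k
        rw [sum_part]
        have h2 := (mem_cfg.mp (hp k)).1
        rw [← h2, ← he k]
      refine ⟨?_, (hT e F).mpr ⟨?_, ?_⟩, hM⟩
      · simp only
        rw [sum_parts R cp e, Finset.sum_congr rfl (fun k _ => hM k), hn]
        congr 1
        refine Finset.sum_congr rfl fun x hx => ?_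
        simp only [e]
        rw [dif_pos hx]
      · intro x hx
        refine ⟨?_, ?_⟩
        · simp only [F, mem_filter, mem_univ, true_and]
          rintro ⟨h, -⟩
          exact h hx
        · simp only [e]
          rw [dif_pos hx]
      · intro k
        rw [he k, hF k]
        exact (mem_cfg.mp (hp k)).2
    · funext k
      simp only
      rw [hF k, he k]
  · rintro ⟨F, e⟩ hx
    rw [mem_cfg] at hx
    obtain ⟨-, hT1, -⟩ := hx
    have h2 := ((hT e F).mp hT1).1
    simp only
    rw [Finset.prod_pow_eq_pow_sum, ← card_parts cp (fun x hx => (h2 x hx).1)]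

end Parts

section Main

variable {P : Type u} [Fintype P] [PartialOrder P] [DecidableEq P]
variable {ι : Type*} [Fintype ι] [DecidableEq ι]

open Classical in
/-- validity with frozen labels on `R`, part by part -/
theorem vd_parts_iff {i : ℕ} {R : Finset P} (hR : ∀ x y, x ≤ y → y ∈ R → x ∈ R)
    (hRlev : ∀ x ∈ R, i < lev x) (cp : P → ι) (hcp : ∀ x y, x ≤ y → x ∉ R → cp x = cp y)
    (g : P → ℕ) (hg : ∀ x ∈ R, ∀ y ∈ R, x ≤ y → g x ≤ g y) (e : P → ℕ) (F : Finset P) :
    (Vd i e F ∧ ∀ x ∈ R, x ∉ F ∧ e x = g x) ↔ (∀ x ∈ R, x ∉ F ∧ e x = g x) ∧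
      ∀ k, Cst (P := {x : P // InPart R cp k x}) i ∅ 0
        (fun x => (R.filter (fun z => z ⋖ (x : P))).sup g) (fun x => e x)
        (F.subtype (InPart R cp k)) := by
  classical
  have hup : ∀ k, ∀ x y : P, x ≤ y → InPart R cp k x → InPart R cp k y := by
    rintro k x y hxy ⟨h1, h2⟩
    exact ⟨fun h => h1 (hR x y hxy h), (hcp x y hxy h1).symm.trans h2⟩
  have hl : ∀ k, ∀ x : {x : P // InPart R cp k x}, lev x = lev (x : P) :=
    fun k => lev_subtype (p := InPart R cp k) (hup k)
  have hr : ∀ k, ∀ x : {x : P // InPart R cp k x},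
      rho i (fun y : {x : P // InPart R cp k x} => e y) x = rho i e (x : P) := by
    intro k x
    unfold rho
    rw [hl k]
  have hm : ∀ k, ∀ x : {x : P // InPart R cp k x},
      x ∈ F.subtype (InPart R cp k) ↔ (x : P) ∈ F := fun k x => mem_subtype
  constructor
  · rintro ⟨⟨h1, h2, h3, h4⟩, h5⟩
    refine ⟨h5, fun k => ?_⟩
    rw [cst_empty_iff]
    refine ⟨⟨?_, ?_, ?_, ?_⟩, ?_⟩
    · intro x y hxy hx
      rw [hm] at hx ⊢
      exact h1 x y hxy hx
    · intro x hx
      rw [hm] at hx
      rw [hr]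
      exact h2 x hx
    · intro x y hxy hx hy
      rw [hm] at hx hy
      rw [hr, hr]
      exact h3 x y hxy hx hy
    · intro x y hxy hx hy
      rw [hm] at hx hy
      rw [hr, hr]
      exact h4 x y hxy hx hy
    · intro x hx
      rw [hm] at hx
      rw [hr]
      have h0 := h2 x hx
      have h6 : (R.filter (fun z => z ⋖ (x : P))).sup g ≤ (rho i e (x : P)).toNat := by
        refine Finset.sup_le fun z hz => ?_
        rw [mem_filter] at hz
        have h7 := h3 z x hz.2.le (h5 z hz.1).1 hx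
        rw [rho_of_lt (hRlev z hz.1), (h5 z hz.1).2] at h7
        omega
      omega
  · rintro ⟨h5, h6⟩
    have h7 : ∀ k, _ := fun k => cst_empty_iff.mp (h6 k)
    refine ⟨⟨?_, ?_, ?_, ?_⟩, h5⟩
    · intro x y hxy hx
      have hxR : x ∉ R := fun h => (h5 x h).1 hx
      have hp : InPart R cp (cp x) x := ⟨hxR, rfl⟩
      exact (hm _ ⟨y, hup _ x y hxy hp⟩).mp ((h7 (cp x)).1.1 ⟨x, hp⟩ _ hxy ((hm _ _).mpr hx))
    · intro x hx
      by_cases hxR : x ∈ R
      · rw [rho_of_lt (hRlev x hxR)]
        exact Int.natCast_nonneg _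
      · have hp : InPart R cp (cp x) x := ⟨hxR, rfl⟩
        rw [← hr _ ⟨x, hp⟩]
        exact (h7 (cp x)).1.2.1 _ (fun h => hx ((hm _ _).mp h))
    · intro x y hxy hx hy
      by_cases hxR : x ∈ R
      · by_cases hyR : y ∈ R
        · rw [rho_of_lt (hRlev x hxR), rho_of_lt (hRlev y hyR), (h5 x hxR).2, (h5 y hyR).2]
          exact_mod_cast hg x hxR y hyR hxy
        · obtain ⟨y', x', h8, h9, h10, h11, h12⟩ := exists_exit hxR hyR hxy
          have hp : InPart R cp (cp x') x' := ⟨h11, rfl⟩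
          have hq : InPart R cp (cp x') y := hup _ x' y h12 hp
          have hx'F : x' ∉ F := fun h => hy
            ((hm _ ⟨y, hq⟩).mp ((h7 (cp x')).1.1 ⟨x', hp⟩ _ h12 ((hm _ _).mpr h)))
          have h13 := (h7 (cp x')).1.2.2.1 ⟨x', hp⟩ ⟨y, hq⟩ h12
            (fun h => hx'F ((hm _ _).mp h)) (fun h => hy ((hm _ _).mp h))
          rw [hr, hr] at h13
          have h14 := (h7 (cp x')).2 ⟨x', hp⟩ (fun h => hx'F ((hm _ _).mp h))
          rw [hr] at h14
          have h15 : g y' ≤ (R.filter (fun z => z ⋖ x')).sup g :=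
            Finset.le_sup (f := g) (mem_filter.mpr ⟨h9, h10⟩)
          have h16 := hg x hxR y' h9 h8
          have h17 : (((R.filter (fun z => z ⋖ x')).sup g : ℕ) : ℤ) ≤ rho i e x' := h14
          rw [rho_of_lt (hRlev x hxR), (h5 x hxR).2]
          have h18 : rho i e x' ≤ rho i e y := h13
          have h19 : ((g x : ℕ) : ℤ) ≤ (((R.filter (fun z => z ⋖ x')).sup g : ℕ) : ℤ) := by
            exact_mod_cast h16.trans h15
          exact h19.trans (h17.trans h18)
      · have hp : InPart R cp (cp x) x := ⟨hxR, rfl⟩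
        have h13 := (h7 (cp x)).1.2.2.1 ⟨x, hp⟩ ⟨y, hup _ x y hxy hp⟩ hxy
          (fun h => hx ((hm _ _).mp h)) (fun h => hy ((hm _ _).mp h))
        rwa [hr, hr] at h13
    · intro x y hxy hx hy
      have hxR : x ∉ R := fun h => (h5 x h).1 hx
      have hp : InPart R cp (cp x) x := ⟨hxR, rfl⟩
      have h13 := (h7 (cp x)).1.2.2.2 ⟨x, hp⟩ ⟨y, hup _ x y hxy.le hp⟩ hxy
        ((hm _ _).mpr hx) ((hm _ _).mpr hy)
      rwa [hr, hr] at h13

/-- **Products over the components with their energies.** -/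
theorem pg {i n : ℕ} {R : Finset P}
    (hR : ∀ x y, x ≤ y → y ∈ R → x ∈ R) (hRlev : ∀ x ∈ R, i < lev x) (cp : P → ι)
    (hcp : ∀ x y, x ≤ y → x ∉ R → cp x = cp y) (b : ι → ℕ)
    (G : ι → (P → ℕ) → ℕ → Prop)
    (hG : ∀ k B B', (∀ x, x ∉ R → cp x = k → B x = B' x) → ∀ m, G k B m ↔ G k B' m)
    (hfac : ∀ k B m, m ≤ n → G k B m → (1 + X : ℤ[X]) ^ (b k) ∣
      ZB (P := {x : P // x ∉ R ∧ cp x = k}) i ∅ 0 (fun x => B x) m) :
    (1 + X : ℤ[X]) ^ (∑ k, b k) ∣ ZQ i n (fun e F => (∀ z ∈ R, z ∉ F) ∧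
      ∀ k, G k (fun x => (by classical exact (R.filter (fun z => z ⋖ x)).sup e))
        (∑ x ∈ univ.filter (fun x => x ∉ R ∧ cp x = k), e x)) := by
  classical
  set Q : (P → ℕ) → Finset P → Prop := fun e F => Vd i e F ∧ ((∀ z ∈ R, z ∉ F) ∧
      ∀ k, G k (fun x => (R.filter (fun z => z ⋖ x)).sup e)
        (∑ x ∈ univ.filter (fun x => x ∉ R ∧ cp x = k), e x)) with hQ
  have h0 : ZQ i n (fun e F => (∀ z ∈ R, z ∉ F) ∧
      ∀ k, G k (fun x => (by classical exact (R.filter (fun z => z ⋖ x)).sup e))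
        (∑ x ∈ univ.filter (fun x => x ∉ R ∧ cp x = k), e x)) = SC Q n := by
    unfold ZQ SC
    refine Finset.sum_congr rfl fun F _ => ?_
    refine Finset.sum_congr ?_ (fun _ _ => rfl)
    ext e
    simp only [mem_filter, hQ]
  rw [h0, SC_eq_cfg]
  -- the fibres
  let φ : Finset P × (P → ℕ) → (P → ℕ) × (ι → ℕ) := fun x => (lbl R x.2,
    fun k => ∑ y ∈ univ.filter (fun y => y ∉ R ∧ cp y = k), x.2 y)
  let s : Finset ((P → ℕ) × (ι → ℕ)) := (cfg Q n).image φ
  have h1 : ∑ x ∈ cfg Q n, (X : ℤ[X]) ^ x.1.card =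
      ∑ y ∈ s, ∑ x ∈ (cfg Q n).filter (fun x => φ x = y), (X : ℤ[X]) ^ x.1.card :=
    (Finset.sum_fiberwise_of_maps_to (fun x hx => mem_image_of_mem φ hx) _).symm
  rw [h1]
  refine Finset.dvd_sum fun y hy => ?_
  obtain ⟨⟨F0, e0⟩, hx0, hφ0⟩ := mem_image.mp hy
  rw [mem_cfg] at hx0
  obtain ⟨hs0, hV0, hF0, hG0⟩ := hx0
  simp only at hs0 hV0 hF0 hG0
  obtain ⟨g, M⟩ := y
  have hg0 : lbl R e0 = g := congrArg Prod.fst hφ0
  have hM0 : ∀ k, ∑ y ∈ univ.filter (fun y => y ∉ R ∧ cp y = k), e0 y = M k :=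
    fun k => congrFun (congrArg Prod.snd hφ0) k
  have hgR : ∀ x ∈ R, e0 x = g x := by
    intro x hx
    rw [← hg0, lbl_of hx]
  have hsup : ∀ (e : P → ℕ), (∀ x ∈ R, e x = g x) → ∀ x,
      (R.filter (fun z => z ⋖ x)).sup e = (R.filter (fun z => z ⋖ x)).sup g := by
    intro e he x
    refine Finset.sup_congr rfl fun z hz => ?_
    exact he z (mem_filter.mp hz).1
  have hmono : ∀ x ∈ R, ∀ y ∈ R, x ≤ y → g x ≤ g y := by
    intro x hx y hy hxy
    have h2 := hV0.2.2.1 x y hxy (hF0 x hx) (hF0 y hy)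
    rw [rho_of_lt (hRlev x hx), rho_of_lt (hRlev y hy), hgR x hx, hgR y hy] at h2
    exact_mod_cast h2
  have hn : n = ∑ x ∈ R, g x + ∑ k, M k := by
    rw [← hs0, sum_parts R cp e0, Finset.sum_congr rfl hgR,
      Finset.sum_congr rfl (fun k _ => hM0 k)]
  have hGk : ∀ k, G k (fun x => (R.filter (fun z => z ⋖ x)).sup g) (M k) := by
    intro k
    have h2 := hG0 k
    rw [hM0 k] at h2
    refine (hG k _ _ ?_ _).mp h2
    intro x _ _
    exact hsup e0 hgR x
  have h2 : ∑ x ∈ (cfg Q n).filter (fun x => φ x = (g, M)), (X : ℤ[X]) ^ x.1.card =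
      SC (fun e F => (Vd i e F ∧ ∀ x ∈ R, x ∉ F ∧ e x = g x) ∧
        ∀ k, ∑ x ∈ univ.filter (fun x => x ∉ R ∧ cp x = k), e x = M k) n := by
    rw [SC_eq_cfg]
    refine Finset.sum_congr ?_ (fun _ _ => rfl)
    ext ⟨F, e⟩
    rw [mem_filter, mem_cfg, mem_cfg]
    simp only [φ, Prod.mk.injEq, hQ]
    constructor
    · rintro ⟨⟨a1, a2, a3, a4⟩, a5, a6⟩
      refine ⟨a1, ⟨a2, fun x hx => ⟨a3 x hx, ?_⟩⟩, fun k => congrFun a6 k⟩
      rw [← a5, lbl_of hx]
    · rintro ⟨a1, ⟨a2, a3⟩, a4⟩
      refine ⟨⟨a1, a2, fun x hx => (a3 x hx).1, fun k => ?_⟩, ?_, funext fun k => a4 k⟩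
      · rw [a4 k]
        refine (hG k _ _ ?_ _).mpr (hGk k)
        intro x _ _
        exact hsup e (fun x hx => (a3 x hx).2) x
      · funext x
        by_cases hx : x ∈ R
        · rw [lbl_of hx]; exact (a3 x hx).2
        · rw [lbl_off hx, ← hg0, lbl_off hx]
  rw [h2, SC_parts R cp g (fun e F => Vd i e F ∧ ∀ x ∈ R, x ∉ F ∧ e x = g x)
    (fun k => Cst (P := {x : P // InPart R cp k x}) i ∅ 0
        (fun x => (R.filter (fun z => z ⋖ (x : P))).sup g))
    (fun e F => vd_parts_iff hR hRlev cp hcp g hmono e F) M n hn]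
  rw [← Finset.prod_pow_eq_pow_sum]
  refine Finset.prod_dvd_prod_of_dvd _ _ fun k _ => ?_
  have hMn : M k ≤ n := by
    rw [hn]
    exact le_trans (Finset.single_le_sum (fun _ _ => Nat.zero_le _) (mem_univ k))
      (Nat.le_add_left _ _)
  have h3 := hfac k (fun x => (R.filter (fun z => z ⋖ x)).sup g) (M k) hMn (hGk k)
  have h4 : ZB (P := {x : P // x ∉ R ∧ cp x = k}) i ∅ 0
      (fun x => (R.filter (fun z => z ⋖ (x : P))).sup g) (M k) =
      SC (Cst (P := {x : P // InPart R cp k x}) i ∅ 0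
        (fun x => (R.filter (fun z => z ⋖ (x : P))).sup g)) (M k) := by
    rw [ZB_eq_SC]
    rfl
  rw [← h4]
  exact h3

end Main

end Pool.Agent.GaussPoset

end

/-! From `Pool.Agent.W_448s8f_h61.TA` -/

section

/-!
The trunk lemma: small energies at a window below a trunk (MP_448cb3_co, S8, finite part).
-/

namespace Pool.Agent.GaussPoset

set_option linter.unusedSectionVars false

open Polynomial Finset

universe u

variable {Q : Type u} [Fintype Q] [PartialOrder Q] [DecidableEq Q]

/-- levels in the part below the level `s` -/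
lemma lev_low {s : ℕ} (x : {x : Q // s ≤ lev x}) : lev x = lev (x : Q) - s := by
  have h1 : lev x ≤ lev (x : Q) - s :=
    lev_le (f := fun y : {x : Q // s ≤ lev x} => lev (y : Q) - s) (fun a b hab => by
      have h2 := lev_strictAnti (show (a : Q) < (b : Q) from hab)
      have h3 := b.2
      have h4 := a.2
      show lev (b : Q) - s < lev (a : Q) - s
      omega) x
  have key : ∀ k, ∀ x : {x : Q // s ≤ lev x}, lev (x : Q) = s + k → k ≤ lev x := by
    intro k
    induction k with
    | zero => intro x _; exact Nat.zero_le _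
    | succ k ih =>
      intro x hx
      obtain ⟨y, hxy, hy⟩ := exists_lev_succ (x := (x : Q)) (k := s + k) (by omega)
      have h2 := ih ⟨y, by omega⟩ hy
      have h3 := lev_strictAnti (show x < (⟨y, by omega⟩ : {x : Q // s ≤ lev x}) from hxy)
      omega
  have h2 := key (lev (x : Q) - s) x (by have := x.2; omega)
  omega

/-- a chain from `x` down to the level `i - 1` -/
def ChainBelow (i : ℕ) (x : Q) : Prop := ∃ c : ℕ → Q, c (lev x) = x ∧
  ∀ l, lev x ≤ l → l < i → lev (c l) = l ∧ (l + 1 < i → c (l + 1) < c l)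

/-- at small energy the trunk is in the filter and has no excess -/
lemma trunk_forced {i s n : ℕ} {e : Q → ℕ} {F : Finset Q} (hV : Vd i e F)
    (hs : ∑ x, e x = n) (hn : n + s ≤ i) {x : Q} (hx : lev x < s) (hc : ChainBelow i x) :
    x ∈ F ∧ e x = 0 := by
  classical
  obtain ⟨c, h0, h1⟩ := hc
  have hF : x ∈ F := by
    by_contra hxF
    have h2 := hV.2.1 x hxF
    unfold rho at h2
    have h3 : e x ≤ ∑ x, e x := Finset.single_le_sum (fun _ _ => Nat.zero_le _) (mem_univ x)
    omega
  refine ⟨hF, ?_⟩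
  by_contra hne
  have key : ∀ d l, lev x ≤ l → l + d = i → 1 ≤ d → 1 ≤ e (c l) →
      d ≤ ∑ k ∈ Finset.Ico l i, e (c k) := by
    intro d
    induction d with
    | zero => intro l _ _ h; omega
    | succ d ih =>
      intro l hl hd _ he
      rw [Finset.sum_eq_sum_Ico_succ_bot (by omega)]
      rcases Nat.eq_zero_or_pos d with rfl | hd0
      · omega
      · have h4 := h1 l hl (by omega)
        have h5 := h1 (l + 1) (by omega) (by omega)
        have hlt := h4.2 (by omega)
        have he1 : 1 ≤ e (c (l + 1)) := by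
          by_cases hin : c (l + 1) ∈ F
          · have h6 := hV.1 _ _ hlt.le hin
            have h7 := hV.2.2.2 _ _ hlt hin h6
            unfold rho at h7
            rw [h4.1, h5.1] at h7
            omega
          · have h6 := hV.2.1 _ hin
            unfold rho at h6
            rw [h5.1] at h6
            omega
        have := ih (l + 1) (by omega) (by omega) hd0 he1
        omega
  have h2 := key (i - lev x) (lev x) le_rfl (by omega) (by omega) (by rw [h0]; omega)
  have h3 : ∑ k ∈ Finset.Ico (lev x) i, e (c k) ≤ ∑ x, e x := by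
    rw [← Finset.sum_image (f := e) (s := Finset.Ico (lev x) i) (g := c) ?_]
    · exact Finset.sum_le_sum_of_subset (Finset.subset_univ _)
    · intro k hk k' hk' h
      rw [Finset.coe_Ico, Set.mem_Ico] at hk hk'
      rw [← (h1 k hk.1 hk.2).1, ← (h1 k' hk'.1 hk'.2).1, h]
  omega

lemma rho_low {i s : ℕ} (hsi : s ≤ i) (e : Q → ℕ) (x : {x : Q // s ≤ lev x}) :
    rho (i - s) (fun x : {x : Q // s ≤ lev x} => e x) x = rho i e x := by
  unfold rho
  rw [lev_low x]
  have h1 := x.2
  have h2 : i - s - (lev (x : Q) - s) = i - lev (x : Q) := by omega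
  rw [h2]

/-- the configurations with a trivial trunk -/
lemma vd_trunk_iff {i s : ℕ} (hsi : s ≤ i) (e : Q → ℕ) (F : Finset Q) :
    (Vd i e F ∧ ∀ x, lev x < s → x ∈ F ∧ e x = 0) ↔
      Vd (i - s) (fun x : {x : Q // s ≤ lev x} => e x) (F.subtype (fun x => s ≤ lev x)) ∧
        (∀ x : {x : Q // ¬ s ≤ lev x}, x ∈ F.subtype (fun x => ¬ s ≤ lev x) ∧ e x = 0) := by
  classical
  constructor
  · rintro ⟨hV, hT⟩
    refine ⟨⟨?_, ?_, ?_, ?_⟩, ?_⟩
    · intro x y hxy hx
      rw [mem_subtype] at hx ⊢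
      exact hV.1 _ _ hxy hx
    · intro x hx
      rw [mem_subtype] at hx
      rw [rho_low hsi e x]
      exact hV.2.1 _ hx
    · intro x y hxy hx hy
      rw [mem_subtype] at hx hy
      rw [rho_low hsi e x, rho_low hsi e y]
      exact hV.2.2.1 _ _ hxy hx hy
    · intro x y hxy hx hy
      rw [mem_subtype] at hx hy
      rw [rho_low hsi e x, rho_low hsi e y]
      exact hV.2.2.2 _ _ hxy hx hy
    · intro x
      rw [mem_subtype]
      exact hT _ (not_le.mp x.2)
  · rintro ⟨hV, hT⟩
    have hT' : ∀ x, lev x < s → x ∈ F ∧ e x = 0 := by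
      intro x hx
      have := hT ⟨x, not_le.mpr hx⟩
      rw [mem_subtype] at this
      exact this
    have hout : ∀ x, x ∉ F → s ≤ lev x := by
      intro x hx
      by_contra hcon
      exact hx (hT' x (not_le.mp hcon)).1
    refine ⟨⟨?_, ?_, ?_, ?_⟩, hT'⟩
    · intro x y hxy hx
      by_cases hy : s ≤ lev y
      · have hxl : s ≤ lev x := by
          rcases eq_or_lt_of_le hxy with h | h
          · rw [h]; exact hy
          · have := lev_strictAnti h
            omega
        have h1 := hV.1 ⟨x, hxl⟩ ⟨y, hy⟩ hxy (by rw [mem_subtype]; exact hx)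
        rw [mem_subtype] at h1
        exact h1
      · exact (hT' y (not_le.mp hy)).1
    · intro x hx
      have hxl := hout x hx
      have h1 := hV.2.1 ⟨x, hxl⟩ (by rw [mem_subtype]; exact hx)
      rw [rho_low hsi e ⟨x, hxl⟩] at h1
      exact h1
    · intro x y hxy hx hy
      have hxl := hout x hx
      have hyl := hout y hy
      have h1 := hV.2.2.1 ⟨x, hxl⟩ ⟨y, hyl⟩ hxy (by rw [mem_subtype]; exact hx)
        (by rw [mem_subtype]; exact hy)
      rw [rho_low hsi e ⟨x, hxl⟩, rho_low hsi e ⟨y, hyl⟩] at h1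
      exact h1
    · intro x y hxy hx hy
      have hl := lev_strictAnti hxy
      by_cases hyl : s ≤ lev y
      · have hxl : s ≤ lev x := by omega
        have h1 := hV.2.2.2 ⟨x, hxl⟩ ⟨y, hyl⟩ hxy (by rw [mem_subtype]; exact hx)
          (by rw [mem_subtype]; exact hy)
        rw [rho_low hsi e ⟨x, hxl⟩, rho_low hsi e ⟨y, hyl⟩] at h1
        exact h1
      · have h1 := (hT' y (not_le.mp hyl)).2
        unfold rho
        rw [h1]
        omega

lemma Z_eq_SC_vd (i n : ℕ) :
    Z Q i n = SC (fun (e : Q → ℕ) (F : Finset Q) => Vd i e F) n := by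
  rw [Z_eq_ZB, ZB_eq_SC]
  refine SC_congr (fun e F => ?_) n
  rw [cst_empty_iff]
  exact ⟨fun h => h.1, fun h => ⟨h, fun x hx => by simpa using h.2.1 x hx⟩⟩

lemma SC_congr_n {α : Type u} [Fintype α] [DecidableEq α] {T T' : (α → ℕ) → Finset α → Prop}
    {n : ℕ} (h : ∀ e F, ∑ x, e x = n → (T e F ↔ T' e F)) : SC T n = SC T' n := by
  classical
  unfold SC
  refine Finset.sum_congr rfl fun F _ => Finset.sum_congr (Finset.filter_congr fun e he => ?_)
    (fun _ _ => rfl)
  rw [mem_piAntidiag] at he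
  exact h e F he.1

/-- the configurations of the trivial trunk -/
lemma SC_full {α : Type u} [Fintype α] [DecidableEq α] (n : ℕ) :
    SC (fun (e : α → ℕ) (F : Finset α) => ∀ x, x ∈ F ∧ e x = 0) n =
      if n = 0 then (X : ℤ[X]) ^ Fintype.card α else 0 := by
  classical
  split_ifs with h
  · subst h
    rw [SC_eq_cfg, Finset.sum_eq_single (univ, fun _ => 0)]
    · rw [card_univ]
    · rintro ⟨F, e⟩ hx hne
      exfalso
      rw [mem_cfg] at hx
      refine hne ?_
      rw [Prod.mk.injEq]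
      exact ⟨Finset.eq_univ_of_forall fun x => (hx.2 x).1, funext fun x => (hx.2 x).2⟩
    · intro h
      exfalso
      refine h (mem_cfg.mpr ⟨by simp, fun x => ⟨mem_univ x, rfl⟩⟩)
  · refine SC_eq_zero fun e F hT hs => h ?_
    rw [← hs]
    exact Finset.sum_eq_zero fun x _ => (hT x).2

/-- **Trunk lemma** -/
theorem Z_trunk {i s n : ℕ} (hn : n + s ≤ i) (hc : ∀ x : Q, lev x < s → ChainBelow i x) :
    Z Q i n = X ^ ((univ : Finset Q).filter (fun x => lev x < s)).card *
      Z {x : Q // s ≤ lev x} (i - s) n := by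
  classical
  rw [Z_eq_SC_vd, SC_congr_n (T' := fun e F => Vd i e F ∧ ∀ x, lev x < s → x ∈ F ∧ e x = 0)
    (fun e F hs => ⟨fun h => ⟨h, fun x hx => trunk_forced h hs hn hx (hc x hx)⟩,
      fun h => h.1⟩)]
  rw [SC_prod (fun x => s ≤ lev x) _ (fun e F => Vd (i - s) e F)
    (fun e F => ∀ x, x ∈ F ∧ e x = 0) (fun e F => vd_trunk_iff (by omega) e F) n]
  rw [Finset.sum_eq_single (n, 0)]
  · rw [← Z_eq_SC_vd, SC_full, if_pos rfl, mul_comm]
    congr 2
    rw [Fintype.card_subtype]
    congr 1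
    ext x
    simp
  · rintro ⟨a, b⟩ hab hne
    rw [HasAntidiagonal.mem_antidiagonal] at hab
    rw [SC_full, if_neg, mul_zero]
    intro hb
    simp only at hab hb
    subst hb
    exact hne (by rw [Prod.mk.injEq]; exact ⟨by omega, rfl⟩)
  · intro h
    exact absurd (HasAntidiagonal.mem_antidiagonal.mpr (by simp)) h

/-- chains from elements far below -/
lemma chainBelow_of_le (hgr : GradedBelow Q) {i : ℕ} {x z : Q} (hzx : z ≤ x)
    (hz : i ≤ lev z + 1) : ChainBelow i x := by
  classical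
  have hstep : ∀ w : Q, z < w → ∃ w', z ≤ w' ∧ w' < w ∧ lev w' = lev w + 1 := fun w hw => hgr z w hw
  choose! f hf using hstep
  let g : ℕ → Q := fun k =>
    Nat.rec (motive := fun _ => Q) x (fun _ w => if z < w then f w else w) k
  have hg0 : g 0 = x := rfl
  have hgs : ∀ k, g (k + 1) = if z < g k then f (g k) else g k := fun k => rfl
  have hinv : ∀ k, lev x + k < i → z ≤ g k ∧ lev (g k) = lev x + k := by
    intro k
    induction k with
    | zero => intro _; exact ⟨hzx, rfl⟩
    | succ k ih =>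
      intro hk
      obtain ⟨h1, h2⟩ := ih (by omega)
      have h3 : z < g k := by
        refine lt_of_le_of_ne h1 fun h => ?_
        rw [← h] at h2
        omega
      rw [hgs, if_pos h3]
      have h4 := hf (g k) h3
      exact ⟨h4.1, by omega⟩
  refine ⟨fun l => g (l - lev x), by simp [hg0], fun l hl hli => ⟨?_, fun h => ?_⟩⟩
  · have := (hinv (l - lev x) (by omega)).2
    show lev (g (l - lev x)) = l
    omega
  · obtain ⟨h1, h2⟩ := hinv (l - lev x) (by omega)
    have h3 : z < g (l - lev x) := by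
      refine lt_of_le_of_ne h1 fun h' => ?_
      rw [← h'] at h2
      omega
    show g (l + 1 - lev x) < g (l - lev x)
    rw [show l + 1 - lev x = (l - lev x) + 1 by omega, hgs, if_pos h3]
    exact (hf _ h3).2.1

end Pool.Agent.GaussPoset

end
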