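import Mathlib
import Pool.Agent.W_448zz_h61.Ns
import Pool.Agent.W_448zz_h61.M015
import Pool.Agent.W_448zz_h61.M024

/-! From `Pool.Agent.W_448cr_h63.CB` -/

section

/-!
# Component rows at good levels (MP_448cb3_co), part B: existence of the coordinates
-/

namespace Pool.Agent.GaussPoset.Win

set_option linter.unusedSectionVars false

open Finset

universe u

variable {P : Type u} [Fintype P] [PartialOrder P] [DecidableEq P] {r j : ℕ}
variable {t : P} {lo hi : ℕ → ℕ} {x : ℕ → ℕ → P}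

lemma uc_card_pair (H : Gr P r) {z v v' : P} (h1 : z ⋖ v) (h2 : z ⋖ v') (hne : v ≠ v') :
    (uc z).card = 2 := by
  rw [StB_uc_pair H h1 h2 hne, Finset.card_pair hne]

/-- some lower cover exists -/
lemma exists_dc (H : Gr P r) {v : P} (h : lev v < r) : ∃ z, z ⋖ v := by
  obtain ⟨z, hz, hz2⟩ := H.exists_below (x := v) (j := lev v + 1) (by omega) (by omega)
  exact ⟨z, H.covBy_iff.2 ⟨lt_of_le_of_ne hz (by rintro rfl; omega), hz2⟩⟩

/-- level zero -/
lemma comp_zero (h : GoodTo P r 0) (ht : lev t = 0) :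
    Comp P t 0 (fun _ => 0) (fun _ => 0) (fun _ _ => t) where
  lo0 := rfl
  hi0 := rfl
  x0 := rfl
  lo_le := fun k hk => by omega
  lo_ge := fun k hk => by omega
  hi_le := fun k hk => by omega
  hi_ge := fun k hk => by omega
  lohi := fun k hk => le_rfl
  lev_x := fun k hk a _ _ => by omega
  le_t := fun k hk a _ _ => le_rfl
  inj := fun k hk a b h1 h2 h3 => by omega
  surj := fun k hk y hy hyt => by
    refine ⟨0, le_rfl, le_rfl, ?_⟩
    by_contra hne
    have := lev_strictAnti (lt_of_le_of_ne hyt (Ne.symm hne))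
    omega
  cov := fun k hk => by omega

/-- one step down -/
theorem Comp.step (C : Comp P t j lo hi x) (h : GoodTo P r (j + 1)) (ht : lev t = 0) :
    ∃ (lo' hi' : ℕ → ℕ) (x' : ℕ → ℕ → P), Comp P t (j + 1) lo' hi' x' ∧
      ∀ k, k ≤ j → lo' k = lo k ∧ hi' k = hi k ∧ x' k = x k := by
  classical
  have H := h.H
  have hJ : GoodTo P r j := h.mono (by omega)
  have hg := h.good j (by omega)
  have hlohi := C.lohi j le_rfl
  -- the element `y` below `t` has a cover in the row
  have hup : ∀ y, lev y = j + 1 → y ≤ t → ∃ a, lo j ≤ a ∧ a ≤ hi j ∧ y ⋖ x j a := by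
    intro y hy hyt
    obtain ⟨v, hv, hv2⟩ := exists_lev_succ hy
    have hyv : y ⋖ v := H.covBy_iff.2 ⟨hv, by omega⟩
    obtain ⟨a, ha1, ha2, rfl⟩ := C.surj j le_rfl v hv2 (h.cov_le hy.le ht hyt hyv)
    exact ⟨a, ha1, ha2, hyv⟩
  have hdn : ∀ {y a}, lo j ≤ a → a ≤ hi j → y ⋖ x j a → lev y = j + 1 ∧ y ≤ t := by
    intro y a h1 h2 h3
    exact ⟨by rw [lev_cov H h3, C.lev_x j le_rfl a h1 h2], h3.le.trans (C.le_t j le_rfl a h1 h2)⟩
  -- all covers are in the row
  have hrow : ∀ {y v}, lev y = j + 1 → y ≤ t → y ⋖ v → ∃ a, lo j ≤ a ∧ a ≤ hi j ∧ x j a = v := by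
    intro y v hy hyt hv
    have := lev_cov H hv
    exact C.surj j le_rfl v (by omega) (h.cov_le hy.le ht hyt hv)
  rcases eq_or_lt_of_le hlohi with heq | hlt
  · -- one element
    have hsing : ∀ {z v}, z ⋖ x j (lo j) → z ⋖ v → v = x j (lo j) := by
      intro z v h1 h2
      obtain ⟨h3, h4⟩ := hdn le_rfl hlohi h1
      obtain ⟨a, ha1, ha2, rfl⟩ := hrow h3 h4 h2
      rw [show a = lo j by omega]
    obtain ⟨z, hz⟩ := exists_dc H (v := x j (lo j)) (by
      rw [C.lev_x j le_rfl _ le_rfl hlohi]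
      have := h.hr
      omega)
    rcases dc_card_cases H hz with h1 | h1
    · refine C.mk_step h (l' := lo j) (h' := hi j) (X := fun _ => z) ⟨le_rfl, by omega⟩
        ⟨le_rfl, by omega⟩ hlohi ?_ ?_ ?_
      · intro a h2 h3 b h4 h5
        have e1 : a = lo j := by omega
        have e2 : b = lo j := by omega
        subst e1
        rw [e2]
        exact ⟨fun _ => Or.inl rfl, fun _ => hz⟩
      · intro a b h2 h3 h4
        omega
      · intro y hy hyt
        obtain ⟨a, ha1, ha2, ha3⟩ := hup y hy hyt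
        rw [show a = lo j by omega] at ha3
        exact ⟨lo j, le_rfl, hlohi, dc_unique h1 hz ha3⟩
    · obtain ⟨z', hz', hne⟩ := exists_other_dc (z := z) h1
      refine C.mk_step h (l' := lo j) (h' := hi j + 1) (X := fun a => if a = lo j then z else z')
        ⟨le_rfl, by omega⟩ ⟨by omega, le_rfl⟩ (by omega) ?_ ?_ ?_
      · intro a h2 h3 b h4 h5
        have e2 : b = lo j := by omega
        rw [e2]
        split_ifs with e1
        · exact ⟨fun _ => Or.inl e1.symm, fun _ => hz⟩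
        · exact ⟨fun _ => Or.inr (by omega), fun _ => hz'⟩
      · intro a b h2 h3 h4
        rw [if_pos (show a = lo j by omega), if_neg (show ¬ b = lo j by omega)]
        exact hne.symm
      · intro y hy hyt
        obtain ⟨a, ha1, ha2, ha3⟩ := hup y hy hyt
        rw [show a = lo j by omega] at ha3
        by_cases e1 : y = z
        · exact ⟨lo j, le_rfl, by omega, by simp only [if_true]; exact e1.symm⟩
        · refine ⟨lo j + 1, by omega, by omega, ?_⟩
          rw [if_neg (by omega)]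
          by_contra hcon
          exact dc_three H hz hz' ha3 hne.symm (Ne.symm e1) hcon
  · -- at least two elements
    have hd : ∀ a, lo j < a → a ≤ hi j → dcv (x j (a - 1)) (x j a) = 1 := by
      intro a h1 h2
      rw [← hg _ _ (C.lev_x j le_rfl _ (by omega) (by omega)) (C.lev_x j le_rfl _ h1.le h2)
        (C.inj j le_rfl _ _ (by omega) (by omega) h2)]
      rw [C.ucv_lt hJ ht le_rfl (by omega) (by omega) h2, if_pos (by omega)]
    have hy : ∀ a, ∃ y : P, lo j < a → a ≤ hi j → y ⋖ x j (a - 1) ∧ y ⋖ x j a := by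
      intro a
      by_cases hc : lo j < a ∧ a ≤ hi j
      · obtain ⟨y, h1, h2⟩ := StA_of_dcv (hd a hc.1 hc.2).ge
        exact ⟨y, fun _ _ => ⟨h1, h2⟩⟩
      · exact ⟨t, fun h1 h2 => absurd ⟨h1, h2⟩ hc⟩
    choose Y hY using hy
    have hYc : ∀ a, lo j < a → a ≤ hi j → (uc (Y a)).card = 2 := fun a h1 h2 =>
      uc_card_pair H (hY a h1 h2).1 (hY a h1 h2).2 (C.inj j le_rfl _ _ (by omega) (by omega) h2)
    have hYn : ∀ {a}, lo j < a → a ≤ hi j → ∀ {z : P}, (uc z).card = 1 → Y a ≠ z := by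
      rintro a h1 h2 z hz rfl
      have := hYc a h1 h2
      omega
    have hYne : ∀ a, lo j < a → a < hi j → Y a ≠ Y (a + 1) := by
      intro a h1 h2 he
      obtain ⟨e1, e2⟩ := hY a h1 h2.le
      obtain ⟨e3, e4⟩ := hY (a + 1) (by omega) (by omega)
      rw [← he] at e4
      exact uc_three H e1 e2 e4 (C.inj j le_rfl _ _ (by omega) (by omega) (by omega))
        (C.inj j le_rfl _ _ (by omega) (by omega) (by omega))
        (C.inj j le_rfl _ _ (by omega) (by omega) (by omega))
    -- a single-up element below `x j a`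
    have hsu : ∀ {z a}, lo j ≤ a → a ≤ hi j → z ⋖ x j a → (uc z).card = 1 → a = lo j ∨ a = hi j := by
      intro z a h1 h2 h3 h4
      by_contra hcon
      obtain ⟨e1, e2⟩ := hY a (by omega) h2
      obtain ⟨e3, e4⟩ := hY (a + 1) (by omega) (by omega)
      exact dc_three H e2 (by simpa using e3) h3 (hYne a (by omega) (by omega))
        (hYn (by omega) h2 h4) (hYn (by omega) (by omega) h4)
    have hsl : ∀ {z z'}, z ⋖ x j (lo j) → z' ⋖ x j (lo j) → (uc z).card = 1 → (uc z').card = 1 →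
        z = z' := by
      intro z z' h1 h2 h3 h4
      by_contra hcon
      obtain ⟨e3, e4⟩ := hY (lo j + 1) (by omega) (by omega)
      exact dc_three H (by simpa using e3) h1 h2 (hYn (by omega) (by omega) h3)
        (hYn (by omega) (by omega) h4) hcon
    have hsr : ∀ {z z'}, z ⋖ x j (hi j) → z' ⋖ x j (hi j) → (uc z).card = 1 → (uc z').card = 1 →
        z = z' := by
      intro z z' h1 h2 h3 h4
      by_contra hcon
      obtain ⟨e3, e4⟩ := hY (hi j) hlt le_rfl
      exact dc_three H e4 h1 h2 (hYn hlt le_rfl h3) (hYn hlt le_rfl h4) hcon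
    -- pendants
    set L : Prop := ∃ z : P, z ⋖ x j (lo j) ∧ (uc z).card = 1 with hL
    set R : Prop := ∃ z : P, z ⋖ x j (hi j) ∧ (uc z).card = 1 with hR
    obtain ⟨zL, hzL⟩ : ∃ z : P, L → z ⋖ x j (lo j) ∧ (uc z).card = 1 := by
      by_cases hc : L
      · obtain ⟨z, hz⟩ := hc
        exact ⟨z, fun _ => hz⟩
      · exact ⟨t, fun h1 => absurd h1 hc⟩
    obtain ⟨zR, hzR⟩ : ∃ z : P, R → z ⋖ x j (hi j) ∧ (uc z).card = 1 := by
      by_cases hc : R
      · obtain ⟨z, hz⟩ := hc
        exact ⟨z, fun _ => hz⟩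
      · exact ⟨t, fun h1 => absurd h1 hc⟩
    obtain ⟨l', hl'⟩ : ∃ l', (L → l' = lo j) ∧ (¬ L → l' = lo j + 1) := by
      by_cases hc : L
      · exact ⟨lo j, fun _ => rfl, fun h1 => absurd hc h1⟩
      · exact ⟨lo j + 1, fun h1 => absurd h1 hc, fun _ => rfl⟩
    obtain ⟨h', hh'⟩ : ∃ h', (R → h' = hi j + 1) ∧ (¬ R → h' = hi j) := by
      by_cases hc : R
      · exact ⟨hi j + 1, fun _ => rfl, fun h1 => absurd hc h1⟩
      · exact ⟨hi j, fun h1 => absurd h1 hc, fun _ => rfl⟩
    have hlo1 : lo j ≤ l' ∧ l' ≤ lo j + 1 := by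
      by_cases hc : L
      · rw [hl'.1 hc]
        omega
      · rw [hl'.2 hc]
        omega
    have hhi1 : hi j ≤ h' ∧ h' ≤ hi j + 1 := by
      by_cases hc : R
      · rw [hh'.1 hc]
        omega
      · rw [hh'.2 hc]
        omega
    obtain ⟨X, hX1, hX2, hX3⟩ : ∃ X : ℕ → P, (∀ a, a ≤ lo j → X a = zL) ∧
        (∀ a, lo j < a → a ≤ hi j → X a = Y a) ∧ (∀ a, hi j < a → X a = zR) := by
      refine ⟨fun a => if a ≤ lo j then zL else if a ≤ hi j then Y a else zR, ?_, ?_, ?_⟩
      · intro a h1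
        simp only
        rw [if_pos h1]
      · intro a h1 h2
        simp only
        rw [if_neg (by omega), if_pos h2]
      · intro a h1
        simp only
        rw [if_neg (by omega), if_neg (by omega)]
    have hlow : ∀ a, l' ≤ a → a ≤ lo j → L ∧ a = lo j := by
      intro a h1 h2
      by_cases hc : L
      · exact ⟨hc, by omega⟩
      · have := hl'.2 hc
        omega
    have hhigh : ∀ a, a ≤ h' → hi j < a → R ∧ a = hi j + 1 := by
      intro a h1 h2
      by_cases hc : R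
      · exact ⟨hc, by omega⟩
      · have := hh'.2 hc
        omega
    have huc1 : ∀ {z a}, z ⋖ x j a → (uc z).card = 1 → ∀ {b}, z ⋖ x j b → x j b = x j a :=
      fun {z a} h1 h2 {b} h3 => uc_unique h2 h3 h1
    refine C.mk_step h (l' := l') (h' := h') (X := X) hlo1 hhi1 (by omega) ?_ ?_ ?_
    · intro a h1 h2 b h3 h4
      rcases Nat.lt_or_ge (lo j) a with h5 | h5
      · rcases Nat.lt_or_ge (hi j) a with h6 | h6
        · obtain ⟨h7, h8⟩ := hhigh a h2 h6
          rw [hX3 a h6]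
          constructor
          · intro h9
            have := C.inj' le_rfl h3 h4 hlohi le_rfl (huc1 (hzR h7).1 (hzR h7).2 h9)
            omega
          · intro h9
            rw [show b = hi j by omega]
            exact (hzR h7).1
        · rw [hX2 a h5 h6]
          obtain ⟨e1, e2⟩ := hY a h5 h6
          have hne := C.inj j le_rfl (a - 1) a (by omega) (by omega) h6
          constructor
          · intro h9
            by_contra hcon
            refine uc_three H e1 e2 h9 hne ?_ ?_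
            · intro he
              have := C.inj' le_rfl (by omega) (by omega) h3 h4 he
              omega
            · intro he
              have := C.inj' le_rfl (by omega) (by omega) h3 h4 he
              omega
          · rintro (h9 | h9)
            · rw [h9]
              exact e2
            · rw [show b = a - 1 by omega]
              exact e1
      · obtain ⟨h7, h8⟩ := hlow a h1 h5
        rw [hX1 a h5]
        constructor
        · intro h9
          have := C.inj' le_rfl h3 h4 le_rfl hlohi (huc1 (hzL h7).1 (hzL h7).2 h9)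
          omega
        · intro h9
          rw [show b = lo j by omega]
          exact (hzL h7).1
    · intro a b h1 h2 h3 he
      rcases Nat.lt_or_ge (lo j) a with h5 | h5
      · rcases Nat.lt_or_ge (hi j) b with h6 | h6
        · obtain ⟨h7, h8⟩ := hhigh b h3 h6
          have h9 : a ≤ hi j := by omega
          rw [hX2 a h5 h9, hX3 b h6] at he
          exact hYn h5 h9 (hzR h7).2 he
        · rw [hX2 a h5 (by omega), hX2 b (by omega) h6] at he
          obtain ⟨e1, e2⟩ := hY a h5 (by omega)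
          obtain ⟨e3, e4⟩ := hY b (by omega) h6
          rw [← he] at e4
          exact uc_three H e1 e2 e4 (C.inj j le_rfl _ _ (by omega) (by omega) (by omega))
            (C.inj j le_rfl _ _ (by omega) (by omega) (by omega))
            (C.inj j le_rfl _ _ (by omega) (by omega) (by omega))
      · obtain ⟨h7, h8⟩ := hlow a h1 h5
        rcases Nat.lt_or_ge (hi j) b with h6 | h6
        · obtain ⟨h9, h10⟩ := hhigh b h3 h6
          rw [hX1 a h5, hX3 b h6] at he
          have h11 := (hzR h9).1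
          rw [← he] at h11
          have := C.inj' le_rfl hlohi le_rfl le_rfl hlohi (huc1 (hzL h7).1 (hzL h7).2 h11)
          omega
        · rw [hX1 a h5, hX2 b (by omega) h6] at he
          exact hYn (by omega) h6 (hzL h7).2 he.symm
    · intro y hy hyt
      obtain ⟨a, ha1, ha2, ha3⟩ := hup y hy hyt
      rcases uc_card_cases H (x := y) (by omega) with h1 | h1
      · rcases hsu ha1 ha2 ha3 h1 with rfl | rfl
        · have hc : L := ⟨y, ha3, h1⟩
          refine ⟨lo j, (hl'.1 hc).le, by omega, ?_⟩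
          rw [hX1 _ le_rfl]
          exact hsl (hzL hc).1 ha3 (hzL hc).2 h1
        · have hc : R := ⟨y, ha3, h1⟩
          refine ⟨hi j + 1, by omega, (hh'.1 hc).ge, ?_⟩
          rw [hX3 _ (by omega)]
          exact hsr (hzR hc).1 ha3 (hzR hc).2 h1
      · have key : ∀ a b, lo j ≤ a → a < b → b ≤ hi j → y ⋖ x j a → y ⋖ x j b →
            ∃ c, l' ≤ c ∧ c ≤ h' ∧ X c = y := by
          intro a b h3 h4 h5 h6 h7
          have h8 := StA_dcv_pos h6 h7
          rw [← hg _ _ (C.lev_x j le_rfl a h3 (by omega)) (C.lev_x j le_rfl b (by omega) h5)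
            (C.inj j le_rfl a b h3 h4 h5), C.ucv_lt hJ ht le_rfl h3 h4 h5] at h8
          have h9 : b = a + 1 := by
            by_contra hcon
            rw [if_neg hcon] at h8
            omega
          subst h9
          refine ⟨a + 1, by omega, by omega, ?_⟩
          rw [hX2 (a + 1) (by omega) h5]
          obtain ⟨f1, f2⟩ := hY (a + 1) (by omega) h5
          have f3 := hd (a + 1) (by omega) h5
          exact StB_unique f3 f1 f2 (by simpa using h6) h7
        obtain ⟨v, hv, hne⟩ := exists_other_uc (y := x j a) h1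
        obtain ⟨b, hb1, hb2, rfl⟩ := hrow hy hyt hv
        have hab : a ≠ b := fun he => hne (by rw [he])
        rcases Nat.lt_or_ge a b with h3 | h3
        · exact key a b ha1 h3 hb2 ha3 hv
        · exact key b a hb1 (by omega) ha2 hv ha3

/-- coordinates of the elements of level at most `j` below a maximal element -/
theorem comp_exists (h : GoodTo P r j) (ht : lev t = 0) :
    ∃ (lo hi : ℕ → ℕ) (x : ℕ → ℕ → P), Comp P t j lo hi x := by
  induction j with
  | zero => exact ⟨_, _, _, comp_zero h ht⟩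
  | succ j ih =>
    obtain ⟨lo, hi, x, C⟩ := ih (h.mono (by omega))
    obtain ⟨lo', hi', x', C', -⟩ := C.step h ht
    exact ⟨lo', hi', x', C'⟩

end Pool.Agent.GaussPoset.Win

end

/-! From `Pool.Agent.W_448cr_h63.CC` -/

section

/-!
# Component rows at good levels (MP_448cb3_co), part C: covers, `PD` and `PU` in coordinates
-/

namespace Pool.Agent.GaussPoset.Win

set_option linter.unusedSectionVars false

open Finset

universe u

variable {P : Type u} [Fintype P] [PartialOrder P] [DecidableEq P] {r j : ℕ}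
variable {t : P} {lo hi : ℕ → ℕ} {x : ℕ → ℕ → P}

/-- lower covers in coordinates -/
lemma Comp.dc_iff (C : Comp P t j lo hi x) (h : GoodTo P r j) (ht : lev t = 0) {k b : ℕ}
    (hk : k < j) (h1 : lo k ≤ b) (h2 : b ≤ hi k) {z : P} :
    z ⋖ x k b ↔ ∃ a, lo (k + 1) ≤ a ∧ a ≤ hi (k + 1) ∧ (b = a ∨ b + 1 = a) ∧ x (k + 1) a = z := by
  constructor
  · intro hz
    have l1 := lev_cov h.H hz
    rw [C.lev_x k hk.le b h1 h2] at l1
    obtain ⟨a, a1, a2, rfl⟩ := C.surj (k + 1) hk z l1 (hz.le.trans (C.le_t k hk.le b h1 h2))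
    exact ⟨a, a1, a2, (C.cov k hk a b a1 a2 h1 h2).1 hz, rfl⟩
  · rintro ⟨a, a1, a2, a3, rfl⟩
    exact (C.cov k hk a b a1 a2 h1 h2).2 a3

/-- upper covers in coordinates -/
lemma Comp.uc_iff (C : Comp P t j lo hi x) (h : GoodTo P r j) (ht : lev t = 0) {k a : ℕ}
    (hk : k < j) (h1 : lo (k + 1) ≤ a) (h2 : a ≤ hi (k + 1)) {v : P} :
    x (k + 1) a ⋖ v ↔ ∃ b, lo k ≤ b ∧ b ≤ hi k ∧ (b = a ∨ b + 1 = a) ∧ x k b = v := by
  constructor
  · intro hv
    have l1 := lev_cov h.H hv
    rw [C.lev_x (k + 1) hk a h1 h2] at l1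
    obtain ⟨b, b1, b2, rfl⟩ := C.surj k hk.le v (by omega)
      (h.cov_le (by rw [C.lev_x (k + 1) hk a h1 h2]; omega) ht (C.le_t (k + 1) hk a h1 h2) hv)
    exact ⟨b, b1, b2, (C.cov k hk a b h1 h2 b1 b2).1 hv, rfl⟩
  · rintro ⟨b, b1, b2, b3, rfl⟩
    exact (C.cov k hk a b h1 h2 b1 b2).2 b3

/-- double-up elements in coordinates -/
lemma Comp.uc_two (C : Comp P t j lo hi x) (h : GoodTo P r j) (ht : lev t = 0) {k a : ℕ}
    (hk : k < j) (h1 : lo (k + 1) ≤ a) (h2 : a ≤ hi (k + 1)) :
    (uc (x (k + 1) a)).card = 2 ↔ lo k < a ∧ a ≤ hi k := by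
  have e1 := C.lo_le k hk
  have e2 := C.hi_ge k hk
  constructor
  · intro hc
    obtain ⟨v, v', hne, huc⟩ := Finset.card_eq_two.1 hc
    have hv : x (k + 1) a ⋖ v := by rw [← mem_uc, huc]; simp
    have hv' : x (k + 1) a ⋖ v' := by rw [← mem_uc, huc]; simp
    obtain ⟨b, b1, b2, b3, rfl⟩ := (C.uc_iff h ht hk h1 h2).1 hv
    obtain ⟨b', b1', b2', b3', rfl⟩ := (C.uc_iff h ht hk h1 h2).1 hv'
    have : b ≠ b' := fun he => hne (by rw [he])
    omega
  · rintro ⟨h3, h4⟩
    have f1 : x (k + 1) a ⋖ x k a := (C.cov k hk a a h1 h2 h3.le h4).2 (Or.inl rfl)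
    have f2 : x (k + 1) a ⋖ x k (a - 1) :=
      (C.cov k hk a (a - 1) h1 h2 (by omega) (by omega)).2 (Or.inr (by omega))
    exact uc_card_pair h.H f2 f1 (C.inj k hk.le _ _ (by omega) (by omega) h4)

/-- the upper covers of a double-up element -/
lemma Comp.uc_eq (C : Comp P t j lo hi x) (h : GoodTo P r j) (ht : lev t = 0) {k a : ℕ}
    (hk : k < j) (h3 : lo k < a) (h4 : a ≤ hi k) :
    uc (x (k + 1) a) = {x k (a - 1), x k a} := by
  have e1 := C.lo_ge k hk
  have e2 := C.hi_le k hk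
  have f1 : x (k + 1) a ⋖ x k a := (C.cov k hk a a (by omega) (by omega) h3.le h4).2 (Or.inl rfl)
  have f2 : x (k + 1) a ⋖ x k (a - 1) :=
    (C.cov k hk a (a - 1) (by omega) (by omega) (by omega) (by omega)).2 (Or.inr (by omega))
  exact StB_uc_pair h.H f2 f1 (C.inj k hk.le _ _ (by omega) (by omega) h4)

/-- double-down elements in coordinates -/
lemma Comp.dc_two (C : Comp P t j lo hi x) (h : GoodTo P r j) (ht : lev t = 0) {k b : ℕ}
    (hk : k < j) (h1 : lo k ≤ b) (h2 : b ≤ hi k) :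
    (dc (x k b)).card = 2 ↔ lo (k + 1) ≤ b ∧ b + 1 ≤ hi (k + 1) := by
  have e1 := C.lo_ge k hk
  have e2 := C.hi_le k hk
  constructor
  · intro hc
    obtain ⟨v, v', hne, hdc⟩ := Finset.card_eq_two.1 hc
    have hv : v ⋖ x k b := by rw [← mem_dc, hdc]; simp
    have hv' : v' ⋖ x k b := by rw [← mem_dc, hdc]; simp
    obtain ⟨a, a1, a2, a3, rfl⟩ := (C.dc_iff h ht hk h1 h2).1 hv
    obtain ⟨a', a1', a2', a3', rfl⟩ := (C.dc_iff h ht hk h1 h2).1 hv'
    have : a ≠ a' := fun he => hne (by rw [he])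
    omega
  · rintro ⟨h3, h4⟩
    have f1 : x (k + 1) b ⋖ x k b := (C.cov k hk b b h3 (by omega) h1 h2).2 (Or.inl rfl)
    have f2 : x (k + 1) (b + 1) ⋖ x k b :=
      (C.cov k hk (b + 1) b (by omega) h4 h1 h2).2 (Or.inr rfl)
    have hne := C.inj (k + 1) hk b (b + 1) h3 (by omega) h4
    have h5 := dc_card_le h.H (x k b)
    have h6 : ({x (k + 1) b, x (k + 1) (b + 1)} : Finset P) ⊆ dc (x k b) := by
      intro y hy
      rw [mem_insert, mem_singleton] at hy
      rcases hy with rfl | rfl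
      · exact mem_dc.2 f1
      · exact mem_dc.2 f2
    have h7 := Finset.card_le_card h6
    rw [Finset.card_pair hne] at h7
    omega

/-- the lower covers of a double-down element -/
lemma Comp.dc_eq (C : Comp P t j lo hi x) (h : GoodTo P r j) (ht : lev t = 0) {k b : ℕ}
    (hk : k < j) (h1 : lo k ≤ b) (h2 : b ≤ hi k) (h3 : lo (k + 1) ≤ b) (h4 : b + 1 ≤ hi (k + 1)) :
    dc (x k b) = {x (k + 1) b, x (k + 1) (b + 1)} := by
  have f1 : x (k + 1) b ⋖ x k b := (C.cov k hk b b h3 (by omega) h1 h2).2 (Or.inl rfl)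
  have f2 : x (k + 1) (b + 1) ⋖ x k b :=
    (C.cov k hk (b + 1) b (by omega) h4 h1 h2).2 (Or.inr rfl)
  have hne := C.inj (k + 1) hk b (b + 1) h3 (by omega) h4
  symm
  refine Finset.eq_of_subset_of_card_le ?_ ?_
  · intro y hy
    rw [mem_insert, mem_singleton] at hy
    rcases hy with rfl | rfl
    · exact mem_dc.2 f1
    · exact mem_dc.2 f2
  · rw [Finset.card_pair hne]
    exact dc_card_le h.H _

/-- `PU` in coordinates: the elements of `PU` below `t` sit at the ends of the row -/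
theorem Comp.PU_cases (C : Comp P t j lo hi x) (h : GoodTo P r j) (ht : lev t = 0) {m : ℕ}
    (hm : m + 2 ≤ j) {y : P} (hy : y ∈ PU P (m + 2)) (hyt : y ≤ t) :
    lo (m + 2) + 1 ≤ hi (m + 2) ∧
    ((lo (m + 1) = lo m + 1 ∧ lo (m + 2) = lo (m + 1) ∧ y = x m (lo m) ∧
      stD (m + 2) y = {x (m + 2) (lo (m + 2)), x (m + 2) (lo (m + 2) + 1)}) ∨
    (hi (m + 1) = hi m ∧ hi (m + 2) = hi (m + 1) + 1 ∧ y = x m (hi m) ∧
      stD (m + 2) y = {x (m + 2) (hi (m + 2) - 1), x (m + 2) (hi (m + 2))})) := by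
  obtain ⟨hly, hy1, u, hu, hu2⟩ := mem_PU.1 hy
  have hly' : lev y = m := by omega
  obtain ⟨b, b1, b2, rfl⟩ := C.surj m (by omega) y hly' hyt
  obtain ⟨a, a1, a2, a3, rfl⟩ := (C.dc_iff h ht (by omega) b1 b2).1 hu
  rw [C.dc_two h ht (by omega) a1 a2] at hu2
  have hu3 : lo (m + 2) ≤ a ∧ a + 1 ≤ hi (m + 2) := hu2
  have hdc : dc (x m b) = {x (m + 1) a} := by
    obtain ⟨w, hw⟩ := Finset.card_eq_one.1 hy1
    have h1 : x (m + 1) a ∈ dc (x m b) := mem_dc.2 hu
    rw [hw, mem_singleton] at h1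
    rw [hw, h1]
  have hst := ClE_stD h.H (i := m + 2) hly hdc
  rw [C.dc_eq h ht (by omega) a1 a2 hu2.1 hu2.2] at hst
  have e1 := C.lo_le m (by omega)
  have e2 := C.lo_ge m (by omega)
  have e3 := C.hi_le m (by omega)
  have e4 := C.hi_ge m (by omega)
  have e5 : lo (m + 1) ≤ lo (m + 2) := C.lo_le (m + 1) (by omega)
  have e6 : hi (m + 2) ≤ hi (m + 1) + 1 := C.hi_ge (m + 1) (by omega)
  have hn : ¬ (lo (m + 1) ≤ b ∧ b + 1 ≤ hi (m + 1)) := by
    rw [← C.dc_two h ht (by omega) b1 b2]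
    omega
  refine ⟨by omega, ?_⟩
  rcases a3 with rfl | rfl
  · right
    have f1 : b = hi m := by omega
    have f2 : hi (m + 1) = hi m := by omega
    have f3 : hi (m + 2) = hi (m + 1) + 1 := by omega
    refine ⟨f2, f3, by rw [f1], ?_⟩
    rw [hst, f3, f2, f1, Nat.add_sub_cancel]
  · left
    have f1 : b = lo m := by omega
    have f2 : lo (m + 1) = lo m + 1 := by omega
    have f3 : lo (m + 2) = lo (m + 1) := by omega
    refine ⟨f2, f3, by rw [f1], ?_⟩
    rw [hst, f3, f2, f1]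

/-- `PU` in coordinates: left end -/
theorem Comp.PU_left (C : Comp P t j lo hi x) (h : GoodTo P r j) (ht : lev t = 0) {m : ℕ}
    (hm : m + 2 ≤ j) (h1 : lo (m + 1) = lo m + 1) (h2 : lo (m + 2) = lo (m + 1))
    (h3 : lo (m + 2) + 1 ≤ hi (m + 2)) : x m (lo m) ∈ PU P (m + 2) := by
  have e0 := C.lohi m (by omega)
  have e1 := C.lohi (m + 1) (by omega)
  have e3 := C.hi_ge m (by omega)
  have e4 := C.hi_le m (by omega)
  have hlev := C.lev_x m (by omega) (lo m) le_rfl e0
  have hu : x (m + 1) (lo (m + 1)) ⋖ x m (lo m) :=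
    (C.cov m (by omega) _ _ le_rfl e1 le_rfl e0).2 (Or.inr h1.symm)
  rw [mem_PU]
  refine ⟨by omega, ?_, _, hu, (C.dc_two h ht (by omega) le_rfl e1).2
    ⟨h2.le, show lo (m + 1) + 1 ≤ hi (m + 2) by omega⟩⟩
  rcases dc_card_cases h.H hu with h5 | h5
  · exact h5
  · exfalso
    rw [C.dc_two h ht (by omega) le_rfl e0] at h5
    omega

/-- `PU` in coordinates: right end -/
theorem Comp.PU_right (C : Comp P t j lo hi x) (h : GoodTo P r j) (ht : lev t = 0) {m : ℕ}
    (hm : m + 2 ≤ j) (h1 : hi (m + 1) = hi m) (h2 : hi (m + 2) = hi (m + 1) + 1)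
    (h3 : lo (m + 2) + 1 ≤ hi (m + 2)) : x m (hi m) ∈ PU P (m + 2) := by
  have e0 := C.lohi m (by omega)
  have e1 := C.lohi (m + 1) (by omega)
  have e3 := C.lo_le m (by omega)
  have e4 := C.lo_ge m (by omega)
  have hlev := C.lev_x m (by omega) (hi m) e0 le_rfl
  have hu : x (m + 1) (hi (m + 1)) ⋖ x m (hi m) :=
    (C.cov m (by omega) _ _ e1 le_rfl e0 le_rfl).2 (Or.inl h1.symm)
  rw [mem_PU]
  refine ⟨by omega, ?_, _, hu, (C.dc_two h ht (by omega) e1 le_rfl).2
    ⟨show lo (m + 2) ≤ hi (m + 1) by omega, show hi (m + 1) + 1 ≤ hi (m + 2) by omega⟩⟩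
  rcases dc_card_cases h.H hu with h5 | h5
  · exact h5
  · exfalso
    rw [C.dc_two h ht (by omega) e0 le_rfl] at h5
    omega

end Pool.Agent.GaussPoset.Win

end

/-! From `Pool.Agent.W_448cr_h63.CD` -/

section

/-!
# Component rows at good levels (MP_448cb3_co), part D: at most one element of `PU` per component
-/

namespace Pool.Agent.GaussPoset.Win

set_option linter.unusedSectionVars false

open Finset

universe u

section quad

variable {ι : Type*} [DecidableEq ι]

/-- a nonnegative vector minus the indicator of a vertex whose neighbours form a clique -/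
lemma quad_bound (S N : Finset ι) (G : ι → ι → ℤ) (hG : ∀ a b, G a b = 0 ∨ G a b = 1)
    (hd : ∀ a, G a a = 1) (hN : N ⊆ S) (hcl : ∀ a ∈ N, ∀ b ∈ N, G a b = 1) {e : ι} (he : e ∈ N)
    (hs : ∀ a b, G a b = G b a) (hnb : ∀ b ∈ S, b ∉ N → G e b = 0) (p : ι → ℤ) (hp : ∀ a, 0 ≤ p a) :
    (∑ a ∈ N, p a - 1) ^ 2 + ∑ a ∈ S \ N, p a ^ 2 ≤
      ∑ a ∈ S, ∑ b ∈ S, G a b * ((p a - if a = e then 1 else 0) * (p b - if b = e then 1 else 0)) := by
  have heS : e ∈ S := hN he
  -- expansion
  have h1 : ∑ a ∈ S, ∑ b ∈ S, G a b * ((p a - if a = e then 1 else 0) * (p b - if b = e then 1 else 0))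
      = ∑ a ∈ S, ∑ b ∈ S, G a b * (p a * p b) - 2 * ∑ b ∈ S, G e b * p b + 1 := by
    have e1 : ∀ a ∈ S, ∀ b ∈ S,
        G a b * ((p a - if a = e then 1 else 0) * (p b - if b = e then 1 else 0)) =
        G a b * (p a * p b) - (if a = e then G e b * p b else 0) -
          (if b = e then G e a * p a else 0) +
          (if a = e then (if b = e then G e e else 0) else 0) := by
      intro a _ b _
      split_ifs with h1 h2 h2
      · subst h1
        subst h2
        ring
      · subst h1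
        ring
      · subst h2
        rw [hs b a]
        ring
      · ring
    rw [sum_congr rfl fun a ha => sum_congr rfl (e1 a ha)]
    have e2 : ∑ a ∈ S, ∑ b ∈ S, (if a = e then G e b * p b else 0) = ∑ b ∈ S, G e b * p b := by
      rw [sum_comm]
      refine sum_congr rfl fun b _ => ?_
      rw [sum_ite_eq' S e, if_pos heS]
    have e3 : ∑ a ∈ S, ∑ b ∈ S, (if b = e then G e a * p a else 0) = ∑ b ∈ S, G e b * p b := by
      refine sum_congr rfl fun b _ => ?_
      rw [sum_ite_eq' S e, if_pos heS]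
    have e4 : ∑ a ∈ S, ∑ b ∈ S, (if a = e then (if b = e then G e e else 0) else 0) = 1 := by
      rw [sum_comm]
      have : ∀ b ∈ S, ∑ a ∈ S, (if a = e then (if b = e then G e e else 0) else 0) =
          if b = e then G e e else 0 := fun b _ => by rw [sum_ite_eq' S e, if_pos heS]
      rw [sum_congr rfl this, sum_ite_eq' S e, if_pos heS, hd]
    simp only [sum_add_distrib, sum_sub_distrib]
    rw [e2, e3, e4]
    ring
  have h2 : ∑ b ∈ S, G e b * p b = ∑ b ∈ N, p b := by
    rw [← sum_sdiff hN]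
    have : ∑ b ∈ S \ N, G e b * p b = 0 := by
      refine sum_eq_zero fun b hb => ?_
      rw [mem_sdiff] at hb
      rw [hnb b hb.1 hb.2, zero_mul]
    rw [this, zero_add]
    exact sum_congr rfl fun b hb => by rw [hcl e he b hb, one_mul]
  have h3 : (∑ a ∈ N, p a) ^ 2 + ∑ a ∈ S \ N, p a ^ 2 ≤ ∑ a ∈ S, ∑ b ∈ S, G a b * (p a * p b) := by
    have hnn : ∀ a b, 0 ≤ G a b * (p a * p b) := by
      intro a b
      refine mul_nonneg ?_ (mul_nonneg (hp a) (hp b))
      rcases hG a b with h | h <;> rw [h] <;> norm_num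
    rw [← sum_sdiff hN (f := fun a => ∑ b ∈ S, G a b * (p a * p b)), add_comm]
    refine add_le_add ?_ ?_
    · refine sum_le_sum fun a ha => ?_
      have ha2 : a ∈ S := (mem_sdiff.1 ha).1
      calc p a ^ 2 = G a a * (p a * p a) := by rw [hd]; ring
        _ ≤ ∑ b ∈ S, G a b * (p a * p b) :=
          single_le_sum (f := fun b => G a b * (p a * p b)) (fun b _ => hnn a b) ha2
    · rw [pow_two, sum_mul]
      refine sum_le_sum fun a ha => ?_
      rw [mul_sum]
      calc ∑ b ∈ N, p a * p b = ∑ b ∈ N, G a b * (p a * p b) :=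
            sum_congr rfl fun b hb => by rw [hcl a ha b hb, one_mul]
        _ ≤ ∑ b ∈ S, G a b * (p a * p b) := sum_le_sum_of_subset_of_nonneg hN
            (fun b _ _ => hnn a b)
  rw [h1, h2]
  nlinarith [h3]

/-- the case of a nonnegative vector -/
lemma quad_bound' (S : Finset ι) (G : ι → ι → ℤ) (hG : ∀ a b, G a b = 0 ∨ G a b = 1)
    (hd : ∀ a, G a a = 1) (p : ι → ℤ) (hp : ∀ a, 0 ≤ p a) :
    ∑ a ∈ S, p a ^ 2 ≤ ∑ a ∈ S, ∑ b ∈ S, G a b * (p a * p b) := by
  refine sum_le_sum fun a ha => ?_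
  have hnn : ∀ b, 0 ≤ G a b * (p a * p b) := by
    intro b
    refine mul_nonneg ?_ (mul_nonneg (hp a) (hp b))
    rcases hG a b with h | h <;> rw [h] <;> norm_num
  calc p a ^ 2 = G a a * (p a * p a) := by rw [hd]; ring
    _ ≤ ∑ b ∈ S, G a b * (p a * p b) :=
      single_le_sum (f := fun b => G a b * (p a * p b)) (fun b _ => hnn b) ha

end quad

variable {P : Type u} [Fintype P] [PartialOrder P] [DecidableEq P] {r j : ℕ}
variable {t : P} {lo hi : ℕ → ℕ} {x : ℕ → ℕ → P}

open Classical in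
/-- the elements of `PD` below `t` -/
noncomputable def PDt (i : ℕ) (t : P) : Finset P := (PD P i).filter (fun y => y ≤ t)

open Classical in
/-- the elements of `PU` below `t` -/
noncomputable def PUt (i : ℕ) (t : P) : Finset P := (PU P i).filter (fun y => y ≤ t)

lemma mem_PDt {i : ℕ} {y : P} : y ∈ PDt i t ↔ y ∈ PD P i ∧ y ≤ t := by
  classical
  unfold PDt
  rw [mem_filter]

lemma mem_PUt {i : ℕ} {y : P} : y ∈ PUt i t ↔ y ∈ PU P i ∧ y ≤ t := by
  classical
  unfold PUt
  rw [mem_filter]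

/-- `PD` in coordinates: left end -/
theorem Comp.PD_left (C : Comp P t j lo hi x) (h : GoodTo P r j) (ht : lev t = 0) {m : ℕ}
    (hm : m + 2 ≤ j) (h1 : lo (m + 1) = lo m + 1) (h2 : lo (m + 2) = lo (m + 1))
    (h3 : lo m < hi m) : x (m + 2) (lo (m + 2)) ∈ PD P m := by
  have e1 := C.lohi (m + 1) (by omega)
  have e2 := C.lohi (m + 2) hm
  have hlev := C.lev_x (m + 2) hm _ le_rfl e2
  have hu : x (m + 2) (lo (m + 2)) ⋖ x (m + 1) (lo (m + 1)) :=
    (C.cov (m + 1) (by omega) _ _ le_rfl e2 le_rfl e1).2 (Or.inl h2.symm)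
  rw [mem_PD]
  refine ⟨hlev, ?_, _, hu, (C.uc_two h ht (k := m) (by omega) le_rfl e1).2 ⟨by omega, by omega⟩⟩
  rcases uc_card_cases h.H (x := x (m + 2) (lo (m + 2))) (by omega) with h5 | h5
  · exact h5
  · exfalso
    rw [C.uc_two h ht (k := m + 1) (by omega) le_rfl e2] at h5
    have h6 : lo (m + 1) < lo (m + 2) := h5.1
    omega

/-- `PD` in coordinates: right end -/
theorem Comp.PD_right (C : Comp P t j lo hi x) (h : GoodTo P r j) (ht : lev t = 0) {m : ℕ}
    (hm : m + 2 ≤ j) (h1 : hi (m + 1) = hi m) (h2 : hi (m + 2) = hi (m + 1) + 1)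
    (h3 : lo m < hi m) : x (m + 2) (hi (m + 2)) ∈ PD P m := by
  have e1 := C.lohi (m + 1) (by omega)
  have e2 := C.lohi (m + 2) hm
  have hlev := C.lev_x (m + 2) hm _ e2 le_rfl
  have hu : x (m + 2) (hi (m + 2)) ⋖ x (m + 1) (hi (m + 1)) :=
    (C.cov (m + 1) (by omega) _ _ e2 le_rfl e1 le_rfl).2 (Or.inr h2.symm)
  rw [mem_PD]
  refine ⟨hlev, ?_, _, hu, (C.uc_two h ht (k := m) (by omega) e1 le_rfl).2 ⟨by omega, by omega⟩⟩
  rcases uc_card_cases h.H (x := x (m + 2) (hi (m + 2))) (by omega) with h5 | h5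
  · exact h5
  · exfalso
    rw [C.uc_two h ht (k := m + 1) (by omega) e2 le_rfl] at h5
    have h6 : hi (m + 2) ≤ hi (m + 1) := h5.2
    omega

/-- `PD` in coordinates: the elements of `PD` below `t` sit at the ends of the row -/
theorem Comp.PD_cases (C : Comp P t j lo hi x) (h : GoodTo P r j) (ht : lev t = 0) {m : ℕ}
    (hm : m + 2 ≤ j) {y : P} (hy : y ∈ PD P m) (hyt : y ≤ t) :
    lo m < hi m ∧
    ((lo (m + 1) = lo m + 1 ∧ lo (m + 2) = lo (m + 1) ∧ y = x (m + 2) (lo (m + 2)) ∧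
      sts m y = {x m (lo m), x m (lo m + 1)}) ∨
    (hi (m + 1) = hi m ∧ hi (m + 2) = hi (m + 1) + 1 ∧ y = x (m + 2) (hi (m + 2)) ∧
      sts m y = {x m (hi m - 1), x m (hi m)})) := by
  obtain ⟨hly, hy1, w, hw, hw2⟩ := mem_PD.1 hy
  obtain ⟨c, c1, c2, rfl⟩ := C.surj (m + 2) hm y hly hyt
  obtain ⟨a, a1, a2, a3, rfl⟩ := (C.uc_iff h ht (k := m + 1) (by omega) c1 c2).1 hw
  rw [C.uc_two h ht (k := m) (by omega) a1 a2] at hw2
  have huc : uc (x (m + 2) c) = {x (m + 1) a} := by
    obtain ⟨v, hv⟩ := Finset.card_eq_one.1 hy1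
    have h1 : x (m + 1) a ∈ uc (x (m + 2) c) := mem_uc.2 hw
    rw [hv, mem_singleton] at h1
    rw [hv, h1]
  have hst := ClE_sts h.H (i := m) hly huc
  rw [C.uc_eq h ht (by omega) hw2.1 hw2.2] at hst
  have e1 := C.lo_le m (by omega)
  have e2 := C.lo_ge m (by omega)
  have e3 := C.hi_le m (by omega)
  have e4 := C.hi_ge m (by omega)
  have e5 : lo (m + 1) ≤ lo (m + 2) := C.lo_le (m + 1) (by omega)
  have e6 : hi (m + 2) ≤ hi (m + 1) + 1 := C.hi_ge (m + 1) (by omega)
  have hn : ¬ (lo (m + 1) < c ∧ c ≤ hi (m + 1)) := by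
    rw [← C.uc_two h ht (k := m + 1) (by omega) c1 c2]
    change ¬ (uc (x (m + 2) c)).card = 2
    omega
  refine ⟨by omega, ?_⟩
  rcases a3 with rfl | rfl
  · left
    have f1 : lo (m + 1) = lo m + 1 := by omega
    have f2 : lo (m + 2) = lo (m + 1) := by omega
    have f3 : a = lo (m + 2) := by omega
    refine ⟨f1, f2, by rw [f3], ?_⟩
    rw [hst, f3, f2, f1, Nat.add_sub_cancel]
  · right
    have f1 : hi (m + 1) = hi m := by omega
    have f2 : hi (m + 2) = hi (m + 1) + 1 := by omega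
    have f3 : a + 1 = hi (m + 2) := by omega
    refine ⟨f1, f2, by rw [f3], ?_⟩
    rw [hst, show a = hi m by omega]

/-- At most one element of `PU` below every maximal element, if `PD` and `PU` have equally many
elements below every maximal element at the windows three levels higher. -/
theorem Comp.PU_le_one (C : Comp P t j lo hi x) (h : GoodTo P r j) (ht : lev t = 0)
    (hpd : ∀ i, i + 3 ≤ j → (PDt i t).card = (PUt i t).card) :
    ∀ i, i + 1 ≤ j → (PUt i t).card ≤ 1 := by
  classical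
  intro i
  induction i using Nat.strong_induction_on with
  | _ i ih =>
    intro hij
    rcases Nat.lt_or_ge i 2 with h0 | h0
    · rw [Finset.card_le_one]
      intro a ha
      have h1 := (mem_PU.1 (mem_PUt.1 ha).1).1
      omega
    obtain ⟨m, rfl⟩ : ∃ m, i = m + 2 := ⟨i - 2, by omega⟩
    rw [Finset.card_le_one]
    intro y hy y' hy'
    rw [mem_PUt] at hy hy'
    obtain ⟨h1, h2⟩ := C.PU_cases h ht (by omega) hy.1 hy.2
    obtain ⟨-, h2'⟩ := C.PU_cases h ht (by omega) hy'.1 hy'.2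
    have key : ¬ ((lo (m + 1) = lo m + 1 ∧ lo (m + 2) = lo (m + 1)) ∧
        (hi (m + 1) = hi m ∧ hi (m + 2) = hi (m + 1) + 1)) := by
      rintro ⟨⟨g1, g2⟩, g3, g4⟩
      have g5 : lo m < hi m := by
        have := C.lohi (m + 1) (by omega)
        omega
      have g6 := C.PD_left h ht (by omega) g1 g2 g5
      have g7 := C.PD_right h ht (by omega) g3 g4 g5
      have g8 := ih m (by omega) (by omega)
      rw [← hpd m (by omega), Finset.card_le_one] at g8
      have g9 := C.lohi (m + 2) (by omega)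
      have g10 := g8 _ (mem_PDt.2 ⟨g6, C.le_t (m + 2) (by omega) _ le_rfl g9⟩) _
        (mem_PDt.2 ⟨g7, C.le_t (m + 2) (by omega) _ g9 le_rfl⟩)
      exact C.inj (m + 2) (by omega) _ _ le_rfl (by omega) le_rfl g10
    rcases h2 with ⟨g1, g2, g3, -⟩ | ⟨g1, g2, g3, -⟩
    · rcases h2' with ⟨-, -, g3', -⟩ | ⟨g1', g2', g3', -⟩
      · rw [g3, g3']
      · exact absurd ⟨⟨g1, g2⟩, g1', g2'⟩ key
    · rcases h2' with ⟨g1', g2', g3', -⟩ | ⟨-, -, g3', -⟩
      · exact absurd ⟨⟨g1', g2'⟩, g1, g2⟩ key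
      · rw [g3, g3']

end Pool.Agent.GaussPoset.Win

end
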