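import Mathlib
import Pool.Agent.W_448zz_h61.Ns
import Pool.Agent.W_448zz_h61.M025
import Pool.Agent.W_448zz_h61.M026
import Pool.Agent.W_448zz_h61.M028
import Pool.Agent.W_448zz_h61.M041

/-! From `Pool.Agent.W_448win_h16.PlFinal` -/

section

/-! The identities (32), (31), (42) at a good level. -/

namespace Pool.Agent.GaussPoset.Win

set_option linter.unusedSectionVars false

open Finset

universe u

variable {P : Type u} [Fintype P] [PartialOrder P] [DecidableEq P] {r : ℕ}

/-- identity (32) -/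
theorem I32 (H : Gr P r) {i : ℕ} (hi : 1 ≤ i) (hi2 : i + 1 ≤ r) (hg : Good P i) :
    (∀ z : P, lev z = i + 2 → up i z ≤ 3) ∧ (∀ x : P, lev x + 2 = i → dn i x ≤ 3) :=
  I32' H hi hi2 hg

end Pool.Agent.GaussPoset.Win

end

/-! From `Pool.Agent.W_448s5_h63.FourD` -/

section

/-! The general identity (42) at a good level, any number of maximal elements. -/

namespace Pool.Agent.GaussPoset.Win

set_option linter.unusedSectionVars false

open Finset

universe u

variable {P : Type u} [Fintype P] [PartialOrder P] [DecidableEq P] {r : ℕ}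

open Classical in
/-- the expensive cores of energy four, general case -/
noncomputable def S42g (P : Type u) [Fintype P] [PartialOrder P] [DecidableEq P] (i : ℕ) :
    Finset (P → ℕ) := S42 P i ∪ (DDf P i).image clS ∪ (DUf P i).image cuS

/-- level sums of the elements of `S42` -/
lemma S42_cases (H : Gr P r) {i : ℕ} {e : P → ℕ} (he : e ∈ S42 P i) :
    (PlD_L (i + 2) e = 2 ∧ ∃ z, lev z = i + 2 ∧ e z = 2) ∨ PlD_L (i + 2) e = 1 ∨
      PlD_L i e = 1 ∨ (PlD_L (i + 2) e = 0 ∧ ∃ x, lev x + 2 = i ∧ e x = 2) := by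
  classical
  unfold S42 at he
  rw [mem_union, mem_union, mem_union, mem_union, mem_image, mem_image, mem_image, mem_image,
    mem_image] at he
  rcases he with (((⟨z, hz, rfl⟩ | ⟨p, hp, rfl⟩) | ⟨x, hx, rfl⟩) | ⟨p, hp, rfl⟩) | ⟨p, hp, rfl⟩
  · left
    have h := (mem_Z3.1 hz).1
    refine ⟨?_, z, h, ?_⟩
    · rw [PlD_L_add, PlD_L_cl H h (by omega), PlD_L_sg, if_pos rfl, if_pos h]
    · rw [Pi.add_apply, ExpC_cl_z, ExpC_sg_self]
  · right; left
    have h1 : lev p.1 = i + 2 := (mem_Z3.1 (mem_ZV.1 hp).1).1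
    have h2 : lev p.2 = i := (mem_sts.1 (mem_ZV.1 hp).2.1).1
    rw [PlD_L_add, PlD_L_cl H h1 (by omega), PlD_L_sg, if_pos rfl, if_neg (by omega)]
  · right; right; right
    have h := (mem_X3.1 hx).1
    refine ⟨?_, x, h, ?_⟩
    · rw [PlD_L_add, PlD_L_cu H h (by omega), PlD_L_sg, if_neg (by omega)]
    · rw [Pi.add_apply, ExpD_cu_x, ExpD_sg_self]
  · right; right; left
    have h1 : lev p.1 + 2 = i := (mem_X3.1 (mem_XV.1 hp).1).1
    have h2 : lev p.2 = i := (mem_stD.1 (mem_XV.1 hp).2.1).1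
    rw [PlD_L_add, PlD_L_cu H h1 (by omega), PlD_L_sg, if_neg (by omega), if_pos h2]
  · right; left
    have h1 : lev p.1 = i + 2 := (PlD_mem_PD.1 (mem_CC.1 hp).1).1
    have h2 : lev p.2 + 2 = i := (PlD_mem_PU.1 (mem_CC.1 hp).2.1).1
    rw [PlD_L_add, PlD_L_cl H h1 (by omega), PlD_L_cu H h2 (by omega), if_pos rfl,
      if_neg (by omega)]

lemma clS_L (H : Gr P r) {i : ℕ} {T : Finset P} (hT : T ∈ DDf P i) :
    PlD_L (i + 2) (clS T) = 2 ∧ PlD_L i (clS T) = 0 ∧ (∀ y, lev y ≠ i + 1 → clS T y ≤ 1) := by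
  classical
  obtain ⟨h1, h2⟩ := DDf_lev hT
  refine ⟨?_, ?_, ?_⟩
  · unfold PlD_L
    rw [Finset.sum_congr rfl (fun y hy => clS_ind H h2 (y := y) (by rw [mem_lv] at hy; omega)),
      Finset.sum_ite_mem, Finset.sum_const, smul_eq_mul, mul_one,
      Finset.inter_eq_right.2 (fun z hz => mem_lv.2 (h2 z hz)), h1]
  · unfold PlD_L
    refine Finset.sum_eq_zero fun y hy => ?_
    rw [mem_lv] at hy
    rw [clS_ind H h2 (by omega), if_neg]
    intro h
    have := h2 y h
    omega
  · intro y hy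
    rw [clS_ind H h2 hy]
    split_ifs <;> omega

lemma cuS_L (H : Gr P r) {i : ℕ} {T : Finset P} (hT : T ∈ DUf P i) :
    PlD_L (i + 2) (cuS T) = 0 ∧ PlD_L i (cuS T) = 0 ∧ (∀ y, lev y + 1 ≠ i → cuS T y ≤ 1) := by
  classical
  obtain ⟨h1, h2⟩ := DUf_lev hT
  refine ⟨?_, ?_, ?_⟩
  · unfold PlD_L
    refine Finset.sum_eq_zero fun y hy => ?_
    rw [mem_lv] at hy
    rw [cuS_ind H h2 (by omega), if_neg]
    intro h
    have := h2 y h
    omega
  · unfold PlD_L
    refine Finset.sum_eq_zero fun y hy => ?_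
    rw [mem_lv] at hy
    rw [cuS_ind H h2 (by omega), if_neg]
    intro h
    have := h2 y h
    omega
  · intro y hy
    rw [cuS_ind H h2 hy]
    split_ifs <;> omega

theorem sum_S42g (H : Gr P r) {i : ℕ} (f : (P → ℕ) → A) :
    ∑ e ∈ S42g P i, f e = ∑ e ∈ S42 P i, f e + ∑ T ∈ DDf P i, f (clS T) +
      ∑ T ∈ DUf P i, f (cuS T) := by
  classical
  have d1 : Disjoint (S42 P i) ((DDf P i).image clS) := by
    rw [Finset.disjoint_left]
    intro e h1 h2
    obtain ⟨T, hT, rfl⟩ := mem_image.1 h2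
    have h3 := clS_L H hT
    rcases S42_cases H h1 with ⟨h4, z, hz, hz2⟩ | h4 | h4 | ⟨h4, -⟩
    · have := h3.2.2 z (by omega)
      omega
    · omega
    · omega
    · omega
  have d2 : Disjoint (S42 P i ∪ (DDf P i).image clS) ((DUf P i).image cuS) := by
    rw [Finset.disjoint_left]
    intro e h1 h2
    obtain ⟨T, hT, rfl⟩ := mem_image.1 h2
    have h3 := cuS_L H hT
    rcases mem_union.1 h1 with h1 | h1
    · rcases S42_cases H h1 with ⟨h4, -⟩ | h4 | h4 | ⟨h4, x, hx, hx2⟩
      · omega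
      · omega
      · omega
      · have := h3.2.2 x (by omega)
        omega
    · obtain ⟨T', hT', h5⟩ := mem_image.1 h1
      have h6 := clS_L H hT'
      rw [h5] at h6
      omega
  have i1 : ∀ T ∈ DDf P i, ∀ T' ∈ DDf P i, clS T = clS T' → T = T' := by
    intro T hT T' hT' h
    ext y
    have h1 := DDf_lev hT
    have h2 := DDf_lev hT'
    constructor
    · intro hy
      have h3 := h1.2 y hy
      have h4 := congrFun h y
      rw [clS_ind H h1.2 (by omega), clS_ind H h2.2 (by omega), if_pos hy] at h4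
      by_contra hn
      rw [if_neg hn] at h4
      omega
    · intro hy
      have h3 := h2.2 y hy
      have h4 := congrFun h y
      rw [clS_ind H h1.2 (by omega), clS_ind H h2.2 (by omega), if_pos hy] at h4
      by_contra hn
      rw [if_neg hn] at h4
      omega
  have i2 : ∀ T ∈ DUf P i, ∀ T' ∈ DUf P i, cuS T = cuS T' → T = T' := by
    intro T hT T' hT' h
    ext y
    have h1 := DUf_lev hT
    have h2 := DUf_lev hT'
    constructor
    · intro hy
      have h3 := h1.2 y hy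
      have h4 := congrFun h y
      rw [cuS_ind H h1.2 (by omega), cuS_ind H h2.2 (by omega), if_pos hy] at h4
      by_contra hn
      rw [if_neg hn] at h4
      omega
    · intro hy
      have h3 := h2.2 y hy
      have h4 := congrFun h y
      rw [cuS_ind H h1.2 (by omega), cuS_ind H h2.2 (by omega), if_pos hy] at h4
      by_contra hn
      rw [if_neg hn] at h4
      omega
  unfold S42g
  rw [Finset.sum_union d2, Finset.sum_union d1, Finset.sum_image i1, Finset.sum_image i2]

/-- a configuration of `S42g` is a core of energy four -/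
lemma S42g_core (H : Gr P r) {i : ℕ} (hir : i ≤ r) (psi : P → P) {e : P → ℕ} (he : e ∈ S42g P i) :
    IsCore i ∅ psi e ∧ ∑ x, e x = 4 := by
  classical
  have hZ : ∀ z ∈ Z3 P i, (uc z).card = 2 := by
    intro z hz
    have h1 := mem_Z3.1 hz
    have h2 := up_le_four H h1.1
    have h3 := uc_card_le H z
    omega
  have hX : ∀ x ∈ X3 P i, (dc x).card = 2 := by
    intro x hx
    have h1 := mem_X3.1 hx
    have h2 := dn_le_four H hir h1.1
    have h3 := dc_card_le H x
    omega
  unfold S42g at he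
  rw [mem_union, mem_union] at he
  rcases he with (he | he) | he
  · unfold S42 at he
    rw [mem_union, mem_union, mem_union, mem_union, mem_image, mem_image, mem_image, mem_image,
      mem_image] at he
    rcases he with (((⟨z, hz, rfl⟩ | ⟨p, hp, rfl⟩) | ⟨x, hx, rfl⟩) | ⟨p, hp, rfl⟩) | ⟨p, hp, rfl⟩
    · have hz' := mem_Z3.1 hz
      refine ⟨isCore_cl_add H ∅ psi hz'.1 (fun x hx _ => ?_), ?_⟩
      · rw [PlD_sg, if_neg]
        rintro rfl
        have := mem_near.1 hx
        omega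
      · simp only [Pi.add_apply]
        rw [Finset.sum_add_distrib, sum_cl_val, sum_sg_val, hZ z hz]
    · have hp' := mem_ZV.1 hp
      have hz' := mem_Z3.1 hp'.1
      have hv := (mem_sts.1 hp'.2.1).1
      refine ⟨isCore_cl_add H ∅ psi hz'.1 (fun x hx _ => ?_), ?_⟩
      · rw [PlD_sg, if_neg]
        rintro rfl
        have := mem_near.1 hx
        omega
      · simp only [Pi.add_apply]
        rw [Finset.sum_add_distrib, sum_cl_val, sum_sg_val, hZ _ hp'.1]
    · have hx' := mem_X3.1 hx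
      refine ⟨isCore_cu_add H ∅ psi hx'.1 (fun y hy _ => ?_), ?_⟩
      · rw [PlD_sg, if_neg]
        rintro rfl
        have := mem_near.1 hy
        omega
      · simp only [Pi.add_apply]
        rw [Finset.sum_add_distrib, sum_cu_val, sum_sg_val, hX x hx]
    · have hp' := mem_XV.1 hp
      have hx' := mem_X3.1 hp'.1
      have hv := (mem_stD.1 hp'.2.1).1
      refine ⟨isCore_cu_add H ∅ psi hx'.1 (fun y hy _ => ?_), ?_⟩
      · rw [PlD_sg, if_neg]
        rintro rfl
        have := mem_near.1 hy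
        omega
      · simp only [Pi.add_apply]
        rw [Finset.sum_add_distrib, sum_cu_val, sum_sg_val, hX _ hp'.1]
    · have h1 := mem_CC.1 hp
      have h2 := PlD_mem_PD.1 h1.1
      have h3 := PlD_mem_PU.1 h1.2.1
      refine ⟨isCore_cl_cu H ∅ psi h2.1 h3.1, ?_⟩
      simp only [Pi.add_apply]
      rw [Finset.sum_add_distrib, sum_cl_val, sum_cu_val, h2.2.1, h3.2.1]
  · obtain ⟨T, hT, rfl⟩ := mem_image.1 he
    obtain ⟨z, z', hz, hz', hne, -, rfl⟩ := mem_DDf.1 hT
    have h2 := PlD_mem_PD.1 hz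
    have h3 := PlD_mem_PD.1 hz'
    rw [clS_pair hne]
    refine ⟨isCore_of ∅ psi fun x hx hne0 => ?_, ?_⟩
    · have h4 : x ∈ uc z ∨ x ∈ uc z' := by
        by_contra hn
        push Not at hn
        rw [mem_near] at hx
        rw [Pi.add_apply] at hne0
        rcases Nat.eq_zero_or_pos (cl z x) with h5 | h5
        · rcases ExpC_cl_pos (z := z') (x := x) (by omega) with h6 | h6
          · rw [h6] at hx; omega
          · exact hn.2 h6
        · rcases ExpC_cl_pos h5 with h6 | h6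
          · rw [h6] at hx; omega
          · exact hn.1 h6
      rw [mem_Tch]
      left
      rcases h4 with h4 | h4
      · have h5 := lev_uc H h4
        refine ⟨by omega, z, mem_uc.1 h4, ?_⟩
        rw [Pi.add_apply, ExpC_cl_z]
        omega
      · have h5 := lev_uc H h4
        refine ⟨by omega, z', mem_uc.1 h4, ?_⟩
        rw [Pi.add_apply, ExpC_cl_z]
        omega
    · simp only [Pi.add_apply]
      rw [Finset.sum_add_distrib, sum_cl_val, sum_cl_val, h2.2.1, h3.2.1]
  · obtain ⟨T, hT, rfl⟩ := mem_image.1 he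
    obtain ⟨z, z', hz, hz', hne, -, rfl⟩ := mem_DUf.1 hT
    have h2 := PlD_mem_PU.1 hz
    have h3 := PlD_mem_PU.1 hz'
    rw [cuS_pair hne]
    refine ⟨isCore_of ∅ psi fun x hx hne0 => ?_, ?_⟩
    · have h4 : x ∈ dc z ∨ x ∈ dc z' := by
        by_contra hn
        push Not at hn
        rw [mem_near] at hx
        rw [Pi.add_apply] at hne0
        rcases Nat.eq_zero_or_pos (cu z x) with h5 | h5
        · rcases S5_cu_pos (x := z') (y := x) (by omega) with h6 | h6
          · rw [h6] at hx; omega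
          · exact hn.2 h6
        · rcases S5_cu_pos h5 with h6 | h6
          · rw [h6] at hx; omega
          · exact hn.1 h6
      rw [mem_Tch]
      right
      rcases h4 with h4 | h4
      · have h5 := lev_dc H h4
        refine ⟨by omega, z, mem_dc.1 h4, ?_⟩
        rw [Pi.add_apply, ExpD_cu_x]
        omega
      · have h5 := lev_dc H h4
        refine ⟨by omega, z', mem_dc.1 h4, ?_⟩
        rw [Pi.add_apply, ExpD_cu_x]
        omega
    · simp only [Pi.add_apply]
      rw [Finset.sum_add_distrib, sum_cu_val, sum_cu_val, h2.2.1, h3.2.1]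

/-- cores of energy at most four are in `Rk _ 1` or in `S42g` -/
lemma S42g_key (H : Gr P r) {i : ℕ} (hi : 1 ≤ i) (hi2 : i + 1 ≤ r) (hg : Good P i) {psi : P → P}
    (hM : Mat P i ∅ psi) {e : P → ℕ} (hc : IsCore i ∅ psi e) (hn : ∑ x, e x ≤ 4) :
    Rk (lv P i) 1 (Fe i e) ∨ e ∈ S42g P i := by
  classical
  have h32 := I32' H hi hi2 hg
  have hsub : ∀ {e}, e ∈ S42 P i → e ∈ S42g P i := fun h =>
    mem_union_left _ (mem_union_left _ h)
  by_cases hadm : AdmL i e ∧ AdmU i e
  swap
  · exact Or.inl (Rk_of_not_adm hadm 1)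
  by_cases hTU : TU i e = ∅
  · rcases S5_cls4_low H hi hi2 hM h32.1 hc hn hTU with h | ⟨z, hz1, hz2, rfl⟩ |
      ⟨z, v, hz1, hz2, hv1, hv2, rfl⟩ | ⟨z, z', hz, hz', hne, hd, rfl⟩
    · exact Or.inl h
    · right
      apply hsub
      unfold S42
      exact mem_union_left _ (mem_union_left _ (mem_union_left _ (mem_union_left _
        (mem_image.2 ⟨z, mem_Z3.2 ⟨hz1, hz2⟩, rfl⟩))))
    · right
      apply hsub
      unfold S42
      exact mem_union_left _ (mem_union_left _ (mem_union_left _ (mem_union_right _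
        (mem_image.2 ⟨(z, v), mem_ZV.2 ⟨mem_Z3.2 ⟨hz1, hz2⟩, hv1, hv2⟩, rfl⟩))))
    · right
      unfold S42g
      exact mem_union_left _ (mem_union_right _ (mem_image.2 ⟨{z, z'},
        mem_DDf.2 ⟨z, z', hz, hz', hne, hd, rfl⟩, clS_pair hne⟩))
  · by_cases hTL : TL i e = ∅
    · rcases S5_cls4_upp H hi hi2 hM h32.2 hc hn hTL with h | ⟨x, hx1, hx2, rfl⟩ |
        ⟨x, v, hx1, hx2, hv1, hv2, rfl⟩ | ⟨z, z', hz, hz', hne, hd, rfl⟩
      · exact Or.inl h
      · right
        apply hsub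
        unfold S42
        exact mem_union_left _ (mem_union_left _ (mem_union_right _
          (mem_image.2 ⟨x, mem_X3.2 ⟨hx1, hx2⟩, rfl⟩)))
      · right
        apply hsub
        unfold S42
        exact mem_union_left _ (mem_union_right _
          (mem_image.2 ⟨(x, v), mem_XV.2 ⟨mem_X3.2 ⟨hx1, hx2⟩, hv1, hv2⟩, rfl⟩))
      · right
        unfold S42g
        exact mem_union_right _ (mem_image.2 ⟨{z, z'},
          mem_DUf.2 ⟨z, z', hz, hz', hne, hd, rfl⟩, cuS_pair hne⟩)
    · rcases cls4_both H hi hi2 hn hTL hTU with h | ⟨z, hz, x, hx, rfl, hd⟩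
      · exact Or.inl h
      · right
        apply hsub
        unfold S42
        exact mem_union_right _ (mem_image.2 ⟨(z, x), mem_CC.2 ⟨hz, hx, hd⟩, rfl⟩)

end Pool.Agent.GaussPoset.Win

end

/-! From `Pool.Agent.W_448s5_h63.FourE` -/

section

/-! The general identity (42) at a good level, any number of maximal elements. -/

namespace Pool.Agent.GaussPoset.Win

set_option linter.unusedSectionVars false

open Finset

universe u

variable {P : Type u} [Fintype P] [PartialOrder P] [DecidableEq P] {r : ℕ}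

lemma S5_card_CC (H : Gr P r) {i : ℕ} (hi : i ≤ r) {p : P × P} (hp : p ∈ CC P i) :
    4 ≤ (lv P i).card := by
  classical
  have h := mem_CC.1 hp
  have hs1 : sts i p.1 ∪ stD i p.2 ⊆ lv P i := by
    intro v hv
    rcases Finset.mem_union.1 hv with h | h
    · exact mem_lv.2 (mem_sts.1 h).1
    · exact mem_lv.2 (mem_stD.1 h).1
  have h1 := Finset.card_le_card hs1
  rw [Finset.card_union_of_disjoint h.2.2, S5_card_sts H h.1, S5_card_stD H h.2.1] at h1
  omega

/-- The general identity (42): at a good level `i` of a Gaussian poset (any number of maximal elements,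
nothing assumed about the other levels). `Z3 - ZV` counts the elements of level `i + 2` with three sites
and no common site of their covers, `X3 - XV` the same above, `DDf`, `DUf` are the unordered pairs in
`PD`, `PU` with disjoint sites, `CC` the pairs in `PD × PU` with disjoint sites. -/
theorem I42_gen (H : Gr P r) {i : ℕ} (hi : 1 ≤ i) (hi2 : i + 1 ≤ r) (hg : Good P i) :
    -((Z3 P i).card : ℤ) + (ZV P i).card - (X3 P i).card + (XV P i).card - (CC P i).card +
      (DDf P i).card + (DUf P i).card = 0 := by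
  classical
  obtain ⟨psi, hM⟩ := good_mat H hg
  have hir : i ≤ r := by omega
  have hZ : ∀ z ∈ Z3 P i, (uc z).card = 2 ∧ 3 ≤ (lv P i).card := by
    intro z hz
    have h1 := mem_Z3.1 hz
    have h2 := up_le_four H h1.1
    have h3 := uc_card_le H z
    omega
  have hX : ∀ x ∈ X3 P i, (dc x).card = 2 ∧ 3 ≤ (lv P i).card := by
    intro x hx
    have h1 := mem_X3.1 hx
    have h2 := dn_le_four H hir h1.1
    have h3 := dc_card_le H x
    omega
  have hsum := core_sum_set H hi hi2 hM 4 1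
    (fun e hc hn => by
      rcases S42g_key H hi hi2 hg hM hc hn.le with h | h
      · exact h
      · have := (S42g_core H hir psi h).2
        omega)
    (S42g P i) (fun e he => S42g_core H hir psi he)
    (fun e hc hn hne => by
      rcases S42g_key H hi hi2 hg hM hc hn.le with h | h
      · exact h
      · exact absurd h hne)
  rw [sum_S42g H, sum_S42 H] at hsum
  by_cases hb : 3 ≤ (lv P i).card
  swap
  · have z1 : Z3 P i = ∅ := Finset.eq_empty_iff_forall_notMem.2 fun z hz => hb (hZ z hz).2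
    have z2 : X3 P i = ∅ := Finset.eq_empty_iff_forall_notMem.2 fun z hz => hb (hX z hz).2
    have z3 : ZV P i = ∅ := Finset.eq_empty_iff_forall_notMem.2 fun p hp =>
      hb (hZ p.1 (mem_ZV.1 hp).1).2
    have z4 : XV P i = ∅ := Finset.eq_empty_iff_forall_notMem.2 fun p hp =>
      hb (hX p.1 (mem_XV.1 hp).1).2
    have z5 : CC P i = ∅ := Finset.eq_empty_iff_forall_notMem.2 fun p hp =>
      hb (by have := S5_card_CC H hir hp; omega)
    have z6 : DDf P i = ∅ := Finset.eq_empty_iff_forall_notMem.2 fun T hT => by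
      obtain ⟨z, z', hz, hz', -, hd, -⟩ := mem_DDf.1 hT
      have := (trm_cl_cl H hir hz hz' hd).1
      omega
    have z7 : DUf P i = ∅ := Finset.eq_empty_iff_forall_notMem.2 fun T hT => by
      obtain ⟨z, z', hz, hz', -, hd, -⟩ := mem_DUf.1 hT
      have := (trm_cu_cu H hir hz hz' hd).1
      omega
    rw [z1, z2, z3, z4, z5, z6, z7]
    simp
  obtain ⟨b, hbdef⟩ : ∃ b, (lv P i).card = b + 2 := ⟨(lv P i).card - 2, by omega⟩
  have e1 : ∑ z ∈ Z3 P i, trm i (cl z + sg z) = ∑ z ∈ Z3 P i, (dd ^ b * xx ^ 5) := by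
    refine Finset.sum_congr rfl fun z hz => ?_
    rw [trm_cl_z H hir (mem_Z3.1 hz).1, (mem_Z3.1 hz).2, (hZ z hz).1,
      show 1 + ((lv P i).card - 3) = b by omega, mul_comm]
  have e2 : ∑ p ∈ ZV P i, trm i (cl p.1 + sg p.2) = ∑ p ∈ ZV P i, (dd ^ b * xx ^ 2) := by
    refine Finset.sum_congr rfl fun p hp => ?_
    have hp' := mem_ZV.1 hp
    rw [trm_cl_v H hir (mem_Z3.1 hp'.1).1 (mem_sts.1 hp'.2.1).1 (mem_sts.1 hp'.2.1).2 hp'.2.2,
      (mem_Z3.1 hp'.1).2, show 3 - 1 = 2 by omega,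
      show (lv P i).card - 2 = b by omega, mul_comm]
  have e3 : ∑ x ∈ X3 P i, trm i (cu x + sg x) = ∑ x ∈ X3 P i, (dd ^ b * xi ^ 3) := by
    refine Finset.sum_congr rfl fun x hx => ?_
    rw [trm_cu_x H hir (mem_X3.1 hx).1, (mem_X3.1 hx).2, (hX x hx).1,
      show 1 + ((lv P i).card - 3) = b by omega, show 2 + 1 = 3 by omega, mul_comm]
  have e4 : ∑ p ∈ XV P i, trm i (cu p.1 + sg p.2) = ∑ p ∈ XV P i, (dd ^ b * 1) := by
    refine Finset.sum_congr rfl fun p hp => ?_
    have hp' := mem_XV.1 hp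
    rw [trm_cu_v H hir (mem_X3.1 hp'.1).1 (mem_stD.1 hp'.2.1).1 (mem_stD.1 hp'.2.1).2 hp'.2.2,
      (mem_X3.1 hp'.1).2, show 3 - 1 = 2 by omega,
      show (lv P i).card - 2 = b by omega, mul_one]
  have e5 : ∑ p ∈ CC P i, trm i (cl p.1 + cu p.2) = ∑ p ∈ CC P i, (dd ^ b * (xi * xx ^ 2)) := by
    refine Finset.sum_congr rfl fun p hp => ?_
    have hp' := mem_CC.1 hp
    rw [trm_cl_cu H hir hp'.1 hp'.2.1 hp'.2.2, show (lv P i).card - 2 = b by omega, mul_comm]
  have e6 : ∑ T ∈ DDf P i, trm i (clS T) = ∑ T ∈ DDf P i, (dd ^ b * xx ^ 4) := by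
    refine Finset.sum_congr rfl fun T hT => ?_
    obtain ⟨z, z', hz, hz', hne, hd, rfl⟩ := mem_DDf.1 hT
    rw [clS_pair hne, (trm_cl_cl H hir hz hz' hd).2, show (lv P i).card - 2 = b by omega, mul_comm]
  have e7 : ∑ T ∈ DUf P i, trm i (cuS T) = ∑ T ∈ DUf P i, (dd ^ b * xi ^ 2) := by
    refine Finset.sum_congr rfl fun T hT => ?_
    obtain ⟨z, z', hz, hz', hne, hd, rfl⟩ := mem_DUf.1 hT
    rw [cuS_pair hne, (trm_cu_cu H hir hz hz' hd).2, show (lv P i).card - 2 = b by omega, mul_comm]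
  rw [e1, e2, e3, e4, e5, e6, e7] at hsum
  simp only [Finset.sum_const, nsmul_eq_mul] at hsum
  rw [hbdef, show b + 2 - 1 = b + 1 by omega,
    show ((Z3 P i).card : A) * (dd ^ b * xx ^ 5) + ((ZV P i).card : A) * (dd ^ b * xx ^ 2) +
      ((X3 P i).card : A) * (dd ^ b * xi ^ 3) + ((XV P i).card : A) * (dd ^ b * 1) +
      ((CC P i).card : A) * (dd ^ b * (xi * xx ^ 2)) + ((DDf P i).card : A) * (dd ^ b * xx ^ 4) +
      ((DUf P i).card : A) * (dd ^ b * xi ^ 2) =
      dd ^ b * (((Z3 P i).card : A) * xx ^ 5 + ((ZV P i).card : A) * xx ^ 2 +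
      ((X3 P i).card : A) * xi ^ 3 + ((XV P i).card : A) +
      ((CC P i).card : A) * (xi * xx ^ 2) + ((DDf P i).card : A) * xx ^ 4 +
      ((DUf P i).card : A) * xi ^ 2) by ring] at hsum
  have h5 := cc_of_dvd hsum
  simp only [map_add, map_mul, map_pow, map_natCast, cc_xx, cc_xi] at h5
  norm_num at h5
  linarith

end Pool.Agent.GaussPoset.Win

end

/-! From `Pool.Agent.W_448cr_h63.CE` -/

section

/-!
# Component rows at good levels (MP_448cb3_co), part E: counting pairs with disjoint sites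
-/

namespace Pool.Agent.GaussPoset.Win

set_option linter.unusedSectionVars false

open Finset

universe u

section cnt

variable {α ι P : Type*} [DecidableEq P] [DecidableEq ι]

/-- ordered and unordered pairs -/
lemma card_pairs [DecidableEq α] (R : α → α → Prop) (hR : ∀ a b, R a b → R b a)
    (hirr : ∀ a, ¬ R a a) (C : Finset (α × α)) (hC : ∀ q, q ∈ C ↔ R q.1 q.2)
    (B : Finset (Finset α)) (hB : ∀ T, T ∈ B ↔ ∃ a b, R a b ∧ T = {a, b}) :
    C.card = 2 * B.card := by
  classical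
  have hmaps : ∀ q ∈ C, ({q.1, q.2} : Finset α) ∈ B := by
    intro q hq
    exact (hB _).2 ⟨q.1, q.2, (hC q).1 hq, rfl⟩
  rw [Finset.card_eq_sum_card_fiberwise hmaps, mul_comm, ← smul_eq_mul, ← Finset.sum_const]
  refine Finset.sum_congr rfl fun T hT => ?_
  obtain ⟨a, b, hRab, rfl⟩ := (hB T).1 hT
  have hab : a ≠ b := by
    rintro rfl
    exact hirr _ hRab
  have h1 : C.filter (fun q => ({q.1, q.2} : Finset α) = {a, b}) = {(a, b), (b, a)} := by
    ext ⟨c, d⟩
    rw [mem_filter, hC]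
    simp only [mem_insert, mem_singleton, Prod.mk.injEq]
    constructor
    · rintro ⟨hcd, he⟩
      have hcd' : c ≠ d := by
        rintro rfl
        exact hirr _ hcd
      have h2 : c ∈ ({a, b} : Finset α) := by rw [← he]; simp
      have h3 : d ∈ ({a, b} : Finset α) := by rw [← he]; simp
      simp only [mem_insert, mem_singleton] at h2 h3
      rcases h2 with rfl | rfl <;> rcases h3 with rfl | rfl
      · exact absurd rfl hcd'
      · exact Or.inl ⟨rfl, rfl⟩
      · exact Or.inr ⟨rfl, rfl⟩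
      · exact absurd rfl hcd'
    · rintro (⟨rfl, rfl⟩ | ⟨rfl, rfl⟩)
      · exact ⟨hRab, rfl⟩
      · exact ⟨hR _ _ hRab, Finset.pair_comm _ _⟩
  rw [h1, Finset.card_pair]
  intro h2
  rw [Prod.mk.injEq] at h2
  exact hab h2.1

/-- grouping by the edge -/
lemma fib_sum (A : Finset α) (s : α → Finset P) (I : Finset ι) (E : ι → Finset P)
    (hinj : ∀ q ∈ I, ∀ q' ∈ I, E q = E q' → q = q') (hs : ∀ a ∈ A, ∃ q ∈ I, E q = s a)
    (F : Finset P → ℤ) :
    ∑ a ∈ A, F (s a) = ∑ q ∈ I, ((A.filter (fun a => s a = E q)).card : ℤ) * F (E q) := by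
  have h1 : ∀ q ∈ I, ((A.filter (fun a => s a = E q)).card : ℤ) * F (E q) =
      ∑ a ∈ A, if s a = E q then F (s a) else 0 := by
    intro q _
    rw [← sum_filter, Finset.card_eq_sum_ones, Nat.cast_sum, Finset.sum_mul]
    refine Finset.sum_congr rfl fun a ha => ?_
    rw [(mem_filter.1 ha).2]
    simp
  rw [Finset.sum_congr rfl h1, Finset.sum_comm]
  refine Finset.sum_congr rfl fun a ha => ?_
  obtain ⟨q, hq, hqa⟩ := hs a ha
  rw [Finset.sum_eq_single q, if_pos hqa.symm]
  · intro q' hq' hne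
    rw [if_neg]
    intro he
    exact hne (hinj q' hq' q hq (he.symm.trans hqa.symm))
  · intro h
    exact absurd hq h

/-- the two sets are not disjoint -/
def nd (e e' : Finset P) : ℤ := if Disjoint e e' then 0 else 1

lemma fib_sum_two {β : Type*} (A : Finset α) (s : α → Finset P) (B : Finset β)
    (s' : β → Finset P) (I : Finset ι) (E : ι → Finset P)
    (hinj : ∀ q ∈ I, ∀ q' ∈ I, E q = E q' → q = q') (hs : ∀ a ∈ A, ∃ q ∈ I, E q = s a)
    (hs' : ∀ a ∈ B, ∃ q ∈ I, E q = s' a) :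
    ∑ a ∈ A, ∑ b ∈ B, nd (s a) (s' b) = ∑ q ∈ I, ∑ q' ∈ I, nd (E q) (E q') *
      (((A.filter (fun a => s a = E q)).card : ℤ) * ((B.filter (fun a => s' a = E q')).card : ℤ)) := by
  rw [fib_sum A s I E hinj hs (fun e => ∑ b ∈ B, nd e (s' b))]
  refine Finset.sum_congr rfl fun q _ => ?_
  rw [fib_sum B s' I E hinj hs' (fun e' => nd (E q) e'), Finset.mul_sum]
  refine Finset.sum_congr rfl fun q' _ => ?_
  ring

/-- all pairs minus the disjoint pairs -/
lemma sum_nd {β : Type*} (A : Finset α) (s : α → Finset P) (B : Finset β) (s' : β → Finset P) :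
    ∑ a ∈ A, ∑ b ∈ B, nd (s a) (s' b) = (A.card : ℤ) * B.card -
      ((A ×ˢ B).filter (fun q => Disjoint (s q.1) (s' q.2))).card := by
  rw [← Finset.sum_product (s := A) (t := B) (f := fun q => nd (s q.1) (s' q.2))]
  have h1 : ∀ q ∈ A ×ˢ B, nd (s q.1) (s' q.2) =
      1 - (if Disjoint (s q.1) (s' q.2) then (1 : ℤ) else 0) := by
    intro q _
    unfold nd
    split_ifs <;> norm_num
  rw [Finset.sum_congr rfl h1, Finset.sum_sub_distrib, Finset.sum_boole, Finset.sum_const,
    Finset.card_product]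
  simp

end cnt

section pos

variable {P : Type u} [Fintype P] [PartialOrder P] [DecidableEq P] {r j : ℕ}

/-- the identity for the pairs with disjoint sites -/
theorem quad_identity (H : Gr P r) {i : ℕ} (hi : 1 ≤ i) (hi2 : i + 1 ≤ r) (hg : Good P i)
    {ι : Type*} [DecidableEq ι] (I : Finset ι) (E : ι → Finset P)
    (hinj : ∀ q ∈ I, ∀ q' ∈ I, E q = E q' → q = q') (hD : ∀ z ∈ PD P i, ∃ q ∈ I, E q = sts i z)
    (hU : ∀ y ∈ PU P i, ∃ q ∈ I, E q = stD i y) :
    ∑ q ∈ I, ∑ q' ∈ I, nd (E q) (E q') *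
      ((((PD P i).filter (fun a => sts i a = E q)).card -
        ((PU P i).filter (fun a => stD i a = E q)).card : ℤ) *
      (((PD P i).filter (fun a => sts i a = E q')).card -
        ((PU P i).filter (fun a => stD i a = E q')).card)) =
      2 * ((CC P i).card - (DDf P i).card - (DUf P i).card) := by
  classical
  have hc := good_card H hi hi2 hg
  have h1 := fib_sum_two (PD P i) (sts i) (PD P i) (sts i) I E hinj hD hD
  have h2 := fib_sum_two (PU P i) (stD i) (PU P i) (stD i) I E hinj hU hU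
  have h3 := fib_sum_two (PD P i) (sts i) (PU P i) (stD i) I E hinj hD hU
  have h4 := fib_sum_two (PU P i) (stD i) (PD P i) (sts i) I E hinj hU hD
  rw [sum_nd] at h1 h2 h3 h4
  have g1 : ((PD P i ×ˢ PD P i).filter (fun q => Disjoint (sts i q.1) (sts i q.2))).card =
      2 * (DDf P i).card := by
    refine card_pairs (fun z z' => z ∈ PD P i ∧ z' ∈ PD P i ∧ Disjoint (sts i z) (sts i z'))
      (fun a b h => ⟨h.2.1, h.1, h.2.2.symm⟩) (fun a h => ?_) _ (fun q => ?_) _ (fun T => ?_)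
    · have h6 := S5_card_sts H h.1
      have h7 := disjoint_self.1 h.2.2
      rw [h7] at h6
      simp at h6
    · rw [mem_filter, mem_product]
      tauto
    · rw [mem_DDf]
      constructor
      · rintro ⟨z, z', hz, hz', hne, hd, hT⟩
        exact ⟨z, z', ⟨hz, hz', hd⟩, hT⟩
      · rintro ⟨z, z', ⟨hz, hz', hd⟩, hT⟩
        refine ⟨z, z', hz, hz', ?_, hd, hT⟩
        rintro rfl
        have h6 := S5_card_sts H hz
        have h7 := disjoint_self.1 hd
        rw [h7] at h6
        simp at h6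
  have g2 : ((PU P i ×ˢ PU P i).filter (fun q => Disjoint (stD i q.1) (stD i q.2))).card =
      2 * (DUf P i).card := by
    refine card_pairs (fun z z' => z ∈ PU P i ∧ z' ∈ PU P i ∧ Disjoint (stD i z) (stD i z'))
      (fun a b h => ⟨h.2.1, h.1, h.2.2.symm⟩) (fun a h => ?_) _ (fun q => ?_) _ (fun T => ?_)
    · have h6 := S5_card_stD H h.1
      have h7 := disjoint_self.1 h.2.2
      rw [h7] at h6
      simp at h6
    · rw [mem_filter, mem_product]
      tauto
    · rw [mem_DUf]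
      constructor
      · rintro ⟨z, z', hz, hz', hne, hd, hT⟩
        exact ⟨z, z', ⟨hz, hz', hd⟩, hT⟩
      · rintro ⟨z, z', ⟨hz, hz', hd⟩, hT⟩
        refine ⟨z, z', hz, hz', ?_, hd, hT⟩
        rintro rfl
        have h6 := S5_card_stD H hz
        have h7 := disjoint_self.1 hd
        rw [h7] at h6
        simp at h6
  have g3 : ((PD P i ×ˢ PU P i).filter (fun q => Disjoint (sts i q.1) (stD i q.2))).card =
      (CC P i).card := by
    congr 1
    ext q
    rw [mem_CC, mem_filter, mem_product]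
    tauto
  have g4 : ((PU P i ×ˢ PD P i).filter (fun q => Disjoint (stD i q.1) (sts i q.2))).card =
      (CC P i).card := by
    rw [← g3]
    refine Finset.card_bij' (fun q _ => (q.2, q.1)) (fun q _ => (q.2, q.1)) ?_ ?_ ?_ ?_
    · intro q hq
      rw [mem_filter, mem_product] at hq ⊢
      exact ⟨⟨hq.1.2, hq.1.1⟩, hq.2.symm⟩
    · intro q hq
      rw [mem_filter, mem_product] at hq ⊢
      exact ⟨⟨hq.1.2, hq.1.1⟩, hq.2.symm⟩
    · intro q _
      rfl
    · intro q _
      rfl
  rw [g1] at h1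
  rw [g2] at h2
  rw [g3] at h3
  rw [g4] at h4
  have e1 : ∑ q ∈ I, ∑ q' ∈ I, nd (E q) (E q') *
      ((((PD P i).filter (fun a => sts i a = E q)).card -
        ((PU P i).filter (fun a => stD i a = E q)).card : ℤ) *
      (((PD P i).filter (fun a => sts i a = E q')).card -
        ((PU P i).filter (fun a => stD i a = E q')).card)) =
      (∑ q ∈ I, ∑ q' ∈ I, nd (E q) (E q') *
      ((((PD P i).filter (fun a => sts i a = E q)).card : ℤ) *
        (((PD P i).filter (fun a => sts i a = E q')).card : ℤ))) +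
      (∑ q ∈ I, ∑ q' ∈ I, nd (E q) (E q') *
      ((((PU P i).filter (fun a => stD i a = E q)).card : ℤ) *
        (((PU P i).filter (fun a => stD i a = E q')).card : ℤ))) -
      (∑ q ∈ I, ∑ q' ∈ I, nd (E q) (E q') *
      ((((PD P i).filter (fun a => sts i a = E q)).card : ℤ) *
        (((PU P i).filter (fun a => stD i a = E q')).card : ℤ))) -
      (∑ q ∈ I, ∑ q' ∈ I, nd (E q) (E q') *
      ((((PU P i).filter (fun a => stD i a = E q)).card : ℤ) *
        (((PD P i).filter (fun a => sts i a = E q')).card : ℤ))) := by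
    rw [← Finset.sum_add_distrib, ← Finset.sum_sub_distrib, ← Finset.sum_sub_distrib]
    refine Finset.sum_congr rfl fun q _ => ?_
    rw [← Finset.sum_add_distrib, ← Finset.sum_sub_distrib, ← Finset.sum_sub_distrib]
    refine Finset.sum_congr rfl fun q' _ => ?_
    ring
  rw [e1, ← h1, ← h2, ← h3, ← h4, hc]
  push_cast
  ring

end pos

end Pool.Agent.GaussPoset.Win

end

/-! From `Pool.Agent.W_448cr_h63.CF` -/

section

/-!
# The near level lemma (MP_448cb3_co): the last good level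
-/

namespace Pool.Agent.GaussPoset.Win

set_option linter.unusedSectionVars false

open Finset

universe u

variable {P : Type u} [Fintype P] [PartialOrder P] [DecidableEq P] {r j : ℕ}

/-- `|X3| = |XV|` below a good level -/
lemma X3_eq (H : Gr P r) {i : ℕ} (hi : 1 ≤ i) (hi2 : i ≤ r) (hg : Good P (i - 1)) :
    (XV P i).card = (X3 P i).card := by
  classical
  refine le_antisymm (card_XV_le H hi2).1 ?_
  have h1 : ∀ y ∈ X3 P i, ∃ v, (y, v) ∈ XV P i := by
    intro y hy
    obtain ⟨hl, h3⟩ := mem_X3.1 hy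
    have h4 : (dc y).card = 2 := by
      have h5 := dn_le_four H hi2 hl
      have h6 := dc_card_le H y
      omega
    obtain ⟨u, u', hne, huc⟩ := Finset.card_eq_two.1 h4
    have hu : u ⋖ y := by rw [← mem_dc, huc]; simp
    have hu' : u' ⋖ y := by rw [← mem_dc, huc]; simp
    have l1 := lev_cov H hu
    have l2 := lev_cov H hu'
    obtain ⟨v, hv, hv'⟩ := down_of_up hg (by omega) (by omega) hne hu hu'
    have l3 := lev_cov H hv
    refine ⟨v, mem_XV.2 ⟨hy, mem_stD.2 ⟨by simp only; omega, hv.lt.trans hu.lt⟩, ?_⟩⟩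
    intro w hw
    rw [huc, mem_insert, mem_singleton] at hw
    rcases hw with rfl | rfl
    · exact mem_dc.2 hv
    · exact mem_dc.2 hv'
  choose! f hf using h1
  refine Finset.card_le_card_of_injOn (fun y => (y, f y)) (fun y hy => hf y hy) ?_
  intro a _ b _ hab
  exact (Prod.mk.inj hab).1

/-- no element with two covers without a common cover of the covers, unless both are single-up -/
lemma cov_of_Z3 (H : Gr P r) {i : ℕ} (hi : 1 ≤ i) (hi2 : i + 1 ≤ r) (hg : Good P i)
    (hZ : (ZV P i).card = (Z3 P i).card) {z v v' : P} (hz : lev z = i + 2) (hv : z ⋖ v)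
    (hv' : z ⋖ v') (hne : v ≠ v') (h0 : ucv v v' = 0) : (uc v).card = 1 ∧ (uc v').card = 1 := by
  classical
  have l1 := lev_cov H hv
  have l2 := lev_cov H hv'
  have huc := StB_uc_pair H hv hv' hne
  have hsites : sts i z = uc v ∪ uc v' := by
    ext w
    rw [mem_sts_iff H hz, huc, mem_union]
    constructor
    · rintro ⟨a, ha, hwa⟩
      rw [mem_insert, mem_singleton] at ha
      rcases ha with rfl | rfl
      · exact Or.inl hwa
      · exact Or.inr hwa
    · rintro (h | h)
      · exact ⟨v, by simp, h⟩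
      · exact ⟨v', by simp, h⟩
  have hdis : Disjoint (uc v) (uc v') := by
    rw [Finset.disjoint_left]
    intro w hw hw'
    have := ucv_pos (mem_uc.1 hw) (mem_uc.1 hw')
    omega
  have hcard : up i z = (uc v).card + (uc v').card := by
    rw [← card_sts, hsites, Finset.card_union_of_disjoint hdis]
  have h3 := (I32 H hi hi2 hg).1 z hz
  rcases uc_card_cases H (x := v) (by omega) with c1 | c1
  · rcases uc_card_cases H (x := v') (by omega) with c2 | c2
    · exact ⟨c1, c2⟩
    · exfalso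
      obtain ⟨w, hw⟩ := (card_ZV_le (P := P) H (i := i)).2 hZ z (mem_Z3.2 ⟨hz, by omega⟩)
      have h4 := (mem_ZV.1 hw).2.2
      have h5 := h4 v (by rw [huc]; simp)
      have h6 := h4 v' (by rw [huc]; simp)
      exact Finset.disjoint_left.1 hdis h5 h6
  · rcases uc_card_cases H (x := v') (by omega) with c2 | c2
    · exfalso
      obtain ⟨w, hw⟩ := (card_ZV_le (P := P) H (i := i)).2 hZ z (mem_Z3.2 ⟨hz, by omega⟩)
      have h4 := (mem_ZV.1 hw).2.2
      have h5 := h4 v (by rw [huc]; simp)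
      have h6 := h4 v' (by rw [huc]; simp)
      exact Finset.disjoint_left.1 hdis h5 h6
    · omega

/-- the edge `a` of row `i` of the component of `t` -/
def Ed (x : P → ℕ → ℕ → P) (i : ℕ) (q : Σ _ : P, ℕ) : Finset P :=
  {x q.1 i (q.2 - 1), x q.1 i q.2}

lemma mem_Ed {x : P → ℕ → ℕ → P} {i : ℕ} {t : P} {a : ℕ} {v : P} :
    v ∈ Ed x i ⟨t, a⟩ ↔ v = x t i (a - 1) ∨ v = x t i a := by
  unfold Ed
  rw [mem_insert, mem_singleton]

/-- the pendants below an element -/
noncomputable def pen (w : P) : Finset P := by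
  classical exact univ.filter (fun z => z ⋖ w ∧ (uc z).card = 1)

lemma mem_pen {w z : P} : z ∈ pen w ↔ z ⋖ w ∧ (uc z).card = 1 := by
  classical
  unfold pen
  rw [mem_filter]
  simp

section family

variable {lo hi : P → ℕ → ℕ} {x : P → ℕ → ℕ → P} {i : ℕ}

/-- the edges of all components -/
noncomputable def EI (lo hi : P → ℕ → ℕ) (i : ℕ) : Finset (Σ _ : P, ℕ) :=
  (lv P 0).sigma (fun t => Finset.Ioc (lo t i) (hi t i))

lemma mem_EI {q : Σ _ : P, ℕ} : q ∈ EI lo hi i ↔ lev q.1 = 0 ∧ lo q.1 i < q.2 ∧ q.2 ≤ hi q.1 i := by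
  unfold EI
  rw [mem_sigma, mem_lv, mem_Ioc]

variable (hC : ∀ t : P, lev t = 0 → Comp P t (i + 1) (lo t) (hi t) (x t)) (h : GoodTo P r (i + 1))

include hC h in
lemma Ed_le {q : Σ _ : P, ℕ} (hq : q ∈ EI lo hi i) {v : P} (hv : v ∈ Ed x i q) :
    v ≤ q.1 ∧ lev v = i := by
  rw [mem_EI] at hq
  unfold Ed at hv
  rw [mem_insert, mem_singleton] at hv
  have C := hC q.1 hq.1
  rcases hv with rfl | rfl
  · exact ⟨C.le_t i (by omega) _ (by omega) (by omega), C.lev_x i (by omega) _ (by omega) (by omega)⟩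
  · exact ⟨C.le_t i (by omega) _ (by omega) (by omega), C.lev_x i (by omega) _ (by omega) (by omega)⟩

include hC h in
lemma Ed_top {q q' : Σ _ : P, ℕ} (hq : q ∈ EI lo hi i) (hq' : q' ∈ EI lo hi i) {v : P}
    (hv : v ∈ Ed x i q) (hv' : v ∈ Ed x i q') : q.1 = q'.1 := by
  obtain ⟨h1, h2⟩ := Ed_le hC h hq hv
  obtain ⟨h3, -⟩ := Ed_le hC h hq' hv'
  exact h.top_eq (by omega) (mem_EI.1 hq).1 (mem_EI.1 hq').1 h1 h3

include hC h in
lemma Ed_near {t : P} {a b : ℕ} (hq : (⟨t, a⟩ : Σ _ : P, ℕ) ∈ EI lo hi i)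
    (hq' : (⟨t, b⟩ : Σ _ : P, ℕ) ∈ EI lo hi i) :
    nd (Ed x i ⟨t, a⟩) (Ed x i ⟨t, b⟩) = if a ≤ b + 1 ∧ b ≤ a + 1 then 1 else 0 := by
  rw [mem_EI] at hq hq'
  obtain ⟨ht, ha1, ha2⟩ := hq
  obtain ⟨-, hb1, hb2⟩ := hq'
  simp only at ha1 ha2 hb1 hb2 ht
  have C := hC t ht
  unfold nd
  by_cases hab : a ≤ b + 1 ∧ b ≤ a + 1
  · rw [if_pos hab, if_neg]
    intro hd
    rw [Finset.disjoint_left] at hd
    simp only [mem_Ed, not_or] at hd
    rcases Nat.lt_trichotomy a b with h1 | h1 | h1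
    · exact (hd (Or.inr rfl)).1 (by rw [show b - 1 = a by omega])
    · exact (hd (Or.inr rfl)).2 (by rw [h1])
    · exact (hd (Or.inl rfl)).2 (by rw [show a - 1 = b by omega])
  · rw [if_neg hab, if_pos]
    rw [Finset.disjoint_left]
    intro v hv hv'
    rw [mem_Ed] at hv hv'
    have key : ∀ c d, lo t i ≤ c → c ≤ hi t i → lo t i ≤ d → d ≤ hi t i → x t i c = x t i d →
        c = d := fun c d h1 h2 h3 h4 h5 => C.inj' (by omega) h1 h2 h3 h4 h5
    rcases hv with rfl | rfl <;> rcases hv' with hv' | hv'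
    · have := key _ _ (by omega) (by omega) (by omega) (by omega) hv'
      omega
    · have := key _ _ (by omega) (by omega) (by omega) (by omega) hv'
      omega
    · have := key _ _ (by omega) (by omega) (by omega) (by omega) hv'
      omega
    · have := key _ _ (by omega) (by omega) (by omega) (by omega) hv'
      omega

include hC h in
lemma Ed_inj : ∀ q ∈ EI lo hi i, ∀ q' ∈ EI lo hi i, Ed x i q = Ed x i q' → q = q' := by
  rintro ⟨t, a⟩ hq ⟨t', b⟩ hq' he
  have h1 : x t i a ∈ Ed x i ⟨t, a⟩ := by unfold Ed; simp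
  have h2 : t = t' := Ed_top hC h hq hq' h1 (he ▸ h1)
  subst h2
  rw [mem_EI] at hq hq'
  obtain ⟨ht, ha1, ha2⟩ := hq
  obtain ⟨-, hb1, hb2⟩ := hq'
  simp only at ha1 ha2 hb1 hb2 ht
  have C := hC t ht
  have key : ∀ c d, lo t i ≤ c → c ≤ hi t i → lo t i ≤ d → d ≤ hi t i → x t i c = x t i d →
      c = d := fun c d h1 h2 h3 h4 h5 => C.inj' (by omega) h1 h2 h3 h4 h5
  have h3 : x t i a ∈ Ed x i ⟨t, b⟩ := he ▸ h1
  have h4 : x t i b ∈ Ed x i ⟨t, a⟩ := by
    rw [he]
    unfold Ed
    simp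
  rw [mem_Ed] at h3 h4
  have h5 : a = b := by
    rcases h3 with h3 | h3
    · have e1 := key _ _ (by omega) (by omega) (by omega) (by omega) h3
      rcases h4 with h4 | h4
      · have e2 := key _ _ (by omega) (by omega) (by omega) (by omega) h4
        omega
      · have e2 := key _ _ (by omega) (by omega) (by omega) (by omega) h4
        omega
    · exact key _ _ (by omega) (by omega) (by omega) (by omega) h3
  rw [h5]

include hC h in
lemma Ed_PD : ∀ z ∈ PD P i, ∃ q ∈ EI lo hi i, Ed x i q = sts i z := by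
  intro z hz
  obtain ⟨w, hw, hw2⟩ := S5_uc_PD hz
  obtain ⟨hlz, -, -⟩ := mem_PD.1 hz
  have hzw : z ⋖ w := by rw [← mem_uc, hw]; simp
  have hlw := lev_cov h.H hzw
  obtain ⟨t, hwt, ht⟩ := exists_above' (x := w) (j := 0) (Nat.zero_le _)
  have C := hC t ht
  obtain ⟨a, a1, a2, rfl⟩ := C.surj (i + 1) le_rfl w (by omega) hwt
  rw [C.uc_two h ht (by omega) a1 a2] at hw2
  refine ⟨⟨t, a⟩, mem_EI.2 ⟨ht, hw2⟩, ?_⟩
  rw [ClE_sts h.H hlz hw, C.uc_eq h ht (by omega) hw2.1 hw2.2]
  rfl

include hC h in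
lemma Ed_PU : ∀ y ∈ PU P i, ∃ q ∈ EI lo hi i, Ed x i q = stD i y := by
  intro y hy
  obtain ⟨t, hyt, ht⟩ := exists_above' (x := y) (j := 0) (Nat.zero_le _)
  have C := hC t ht
  have hl := (mem_PU.1 hy).1
  obtain ⟨m, rfl⟩ : ∃ m, i = m + 2 := ⟨i - 2, by omega⟩
  obtain ⟨h1, h2⟩ := C.PU_cases h ht (by omega) hy hyt
  rcases h2 with ⟨-, -, -, h3⟩ | ⟨-, -, -, h3⟩
  · refine ⟨⟨t, lo t (m + 2) + 1⟩, mem_EI.2 ⟨ht, by simp only; omega, h1⟩, ?_⟩
    rw [h3]
    unfold Ed
    simp
  · refine ⟨⟨t, hi t (m + 2)⟩, mem_EI.2 ⟨ht, by simp only; omega, le_rfl⟩, ?_⟩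
    rw [h3]
    rfl

include hC h in
/-- the elements of `PD` over an edge are the pendants below its double -/
lemma pen_eq {t : P} (ht : lev t = 0) {a : ℕ} (ha : lo t i < a) (ha' : a ≤ hi t i) :
    (PD P i).filter (fun z => sts i z = Ed x i ⟨t, a⟩) = pen (x t (i + 1) a) := by
  have C := hC t ht
  have e1 := C.lo_ge i (by omega)
  have e2 := C.hi_le i (by omega)
  have huc := C.uc_eq h ht (by omega) ha ha'
  have hlw := C.lev_x (i + 1) le_rfl a (by omega) (by omega)
  ext z
  rw [mem_filter, mem_pen]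
  constructor
  · rintro ⟨hz, hs⟩
    obtain ⟨w, hw, hw2⟩ := S5_uc_PD hz
    obtain ⟨hlz, h1, -⟩ := mem_PD.1 hz
    rw [ClE_sts h.H hlz hw] at hs
    have hzw : z ⋖ w := by rw [← mem_uc, hw]; simp
    have hw1 : w ⋖ x t i (a - 1) := by
      rw [← mem_uc, hs]
      unfold Ed
      simp
    have hw2' : w ⋖ x t i a := by
      rw [← mem_uc, hs]
      unfold Ed
      simp
    have hd : dcv (x t i (a - 1)) (x t i a) = 1 := by
      rw [← h.good i (by omega) _ _ (C.lev_x i (by omega) _ (by omega) (by omega))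
        (C.lev_x i (by omega) _ (by omega) ha') (C.inj i (by omega) _ _ (by omega) (by omega) ha'),
        C.ucv_lt h ht (by omega) (by omega) (by omega) ha', if_pos (by omega)]
    have hx1 : x t (i + 1) a ⋖ x t i (a - 1) := by
      rw [← mem_uc, huc]
      simp
    have hx2 : x t (i + 1) a ⋖ x t i a := by
      rw [← mem_uc, huc]
      simp
    have he := StB_unique hd hw1 hw2' hx1 hx2
    rw [← he]
    exact ⟨hzw, h1⟩
  · rintro ⟨hz, h1⟩
    have hlz := lev_cov h.H hz
    refine ⟨mem_PD.2 ⟨by omega, h1, _, hz, (C.uc_two h ht (by omega) (by omega) (by omega)).2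
      ⟨ha, ha'⟩⟩, ?_⟩
    have hw : uc z = {x t (i + 1) a} := by
      obtain ⟨v, hv⟩ := Finset.card_eq_one.1 h1
      have h2 : x t (i + 1) a ∈ uc z := mem_uc.2 hz
      rw [hv, mem_singleton] at h2
      rw [hv, h2]
    rw [ClE_sts h.H (by omega) hw, huc]
    rfl

/-- the elements of `PU` over an edge -/
noncomputable def pu (x : P → ℕ → ℕ → P) (i : ℕ) (q : Σ _ : P, ℕ) : Finset P :=
  (PU P i).filter (fun y => stD i y = Ed x i q)

lemma mem_pu {q : Σ _ : P, ℕ} {y : P} : y ∈ pu x i q ↔ y ∈ PU P i ∧ stD i y = Ed x i q := by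
  unfold pu
  rw [mem_filter]

include hC h in
lemma pu_sub {t : P} {a : ℕ} (hq : (⟨t, a⟩ : Σ _ : P, ℕ) ∈ EI lo hi i) :
    pu x i ⟨t, a⟩ ⊆ PUt i t := by
  intro y hy
  rw [mem_pu] at hy
  rw [mem_PUt]
  refine ⟨hy.1, ?_⟩
  have h1 : x t i a ∈ stD i y := by
    rw [hy.2]
    unfold Ed
    simp
  rw [mem_EI] at hq
  have ht : lev t = 0 := hq.1
  have C := hC t ht
  have h2 := (mem_stD.1 h1).2
  obtain ⟨s, hys, hs⟩ := exists_above' (x := y) (j := 0) (Nat.zero_le _)
  have h3 := C.le_t i (by omega) a (by have := hq.2.1; simp only at this; omega) hq.2.2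
  have h4 := C.lev_x i (by omega) a (by have := hq.2.1; simp only at this; omega) hq.2.2
  rw [h.top_eq (by omega) ht hs h3 (h2.le.trans hys)]
  exact hys

end family

end Pool.Agent.GaussPoset.Win

end

/-! From `Pool.Agent.W_448cr_h63.CG` -/

section

/-!
# The near level lemma (MP_448cb3_co): conclusion
-/

namespace Pool.Agent.GaussPoset.Win

set_option linter.unusedSectionVars false

open Finset

universe u

variable {P : Type u} [Fintype P] [PartialOrder P] [DecidableEq P] {r j : ℕ}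

/-- the letters C, O at the left end, levels `i - 2`, `i - 1`, `i` -/
def LCO (lo hi : ℕ → ℕ) (i : ℕ) : Prop :=
  2 ≤ i ∧ lo (i - 1) = lo (i - 2) + 1 ∧ lo i = lo (i - 1) ∧ lo i < hi i

/-- the letters C, O at the right end, levels `i - 2`, `i - 1`, `i` -/
def RCO (lo hi : ℕ → ℕ) (i : ℕ) : Prop :=
  2 ≤ i ∧ hi (i - 1) = hi (i - 2) ∧ hi i = hi (i - 1) + 1 ∧ lo i < hi i

/-- the conclusion for one component: the numbers of pendants below the doubles of level `i + 1` -/
def S5c (lo hi : ℕ → ℕ) (x : ℕ → ℕ → P) (i : ℕ) : Prop :=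
  (¬ LCO lo hi i ∧ ¬ RCO lo hi i ∧ ∀ a, lo i < a → a ≤ hi i → (pen (x (i + 1) a)).card = 0) ∨
  (LCO lo hi i ∧ ¬ RCO lo hi i ∧ ∃ b, (b = lo i + 1 ∨ (b = lo i + 2 ∧ b ≤ hi i)) ∧
    ∀ a, lo i < a → a ≤ hi i → (pen (x (i + 1) a)).card = if a = b then 1 else 0) ∨
  (RCO lo hi i ∧ ¬ LCO lo hi i ∧ ∃ b, (b = hi i ∨ (b + 1 = hi i ∧ lo i < b)) ∧
    ∀ a, lo i < a → a ≤ hi i → (pen (x (i + 1) a)).card = if a = b then 1 else 0)

/-- nonnegative integers with sum one -/
lemma sum_one_cases {N : Finset ℕ} {p : ℕ → ℤ} (hp : ∀ a, 0 ≤ p a) (h : ∑ a ∈ N, p a = 1) :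
    ∃ b ∈ N, ∀ a ∈ N, p a = if a = b then 1 else 0 := by
  obtain ⟨b, hb, hb0⟩ : ∃ b ∈ N, p b ≠ 0 := by
    by_contra hcon
    push Not at hcon
    rw [Finset.sum_eq_zero hcon] at h
    omega
  have h1 := Finset.sum_erase_add N p hb
  rw [h] at h1
  have h2 : 0 ≤ ∑ a ∈ N.erase b, p a := Finset.sum_nonneg fun a _ => hp a
  have h3 := hp b
  have h4 : ∑ a ∈ N.erase b, p a = 0 := by omega
  have h5 := (Finset.sum_eq_zero_iff_of_nonneg (fun a _ => hp a)).1 h4
  refine ⟨b, hb, fun a ha => ?_⟩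
  split_ifs with he
  · rw [he]
    omega
  · exact h5 a (mem_erase.2 ⟨he, ha⟩)

section family

variable {lo hi : P → ℕ → ℕ} {x : P → ℕ → ℕ → P} {i : ℕ}
variable (hC : ∀ t : P, lev t = 0 → Comp P t (i + 1) (lo t) (hi t) (x t)) (h : GoodTo P r (i + 1))

/-- the signed number at an edge -/
noncomputable def al (x : P → ℕ → ℕ → P) (i : ℕ) (q : Σ _ : P, ℕ) : ℤ :=
  ((PD P i).filter (fun a => sts i a = Ed x i q)).card - ((pu x i q).card : ℤ)

include hC h in
/-- the form of one component is nonnegative; the case of equality -/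
lemma comp_form {t : P} (ht : lev t = 0) (hPU : (PUt i t).card ≤ 1) :
    0 ≤ ∑ a ∈ Finset.Ioc (lo t i) (hi t i), ∑ b ∈ Finset.Ioc (lo t i) (hi t i),
      nd (Ed x i ⟨t, a⟩) (Ed x i ⟨t, b⟩) * (al x i ⟨t, a⟩ * al x i ⟨t, b⟩) ∧
    (∑ a ∈ Finset.Ioc (lo t i) (hi t i), ∑ b ∈ Finset.Ioc (lo t i) (hi t i),
      nd (Ed x i ⟨t, a⟩) (Ed x i ⟨t, b⟩) * (al x i ⟨t, a⟩ * al x i ⟨t, b⟩) ≤ 0 →
      S5c (lo t) (hi t) (x t) i) := by
  classical
  have C := hC t ht
  have hmem : ∀ {a}, a ∈ Finset.Ioc (lo t i) (hi t i) → (⟨t, a⟩ : Σ _ : P, ℕ) ∈ EI lo hi i := by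
    intro a ha
    rw [mem_Ioc] at ha
    exact mem_EI.2 ⟨ht, ha⟩
  -- rewrite the form
  set p : ℕ → ℤ := fun a => ((PD P i).filter (fun z => sts i z = Ed x i ⟨t, a⟩)).card with hpdef
  have hp : ∀ a, 0 ≤ p a := fun a => Int.natCast_nonneg _
  have hpen : ∀ a, lo t i < a → a ≤ hi t i → p a = (pen (x t (i + 1) a)).card := by
    intro a h1 h2
    simp only [hpdef]
    rw [pen_eq hC h ht h1 h2]
  set G : ℕ → ℕ → ℤ := fun a b => if a ≤ b + 1 ∧ b ≤ a + 1 then 1 else 0 with hGdef
  have hG01 : ∀ a b, G a b = 0 ∨ G a b = 1 := by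
    intro a b
    simp only [hGdef]
    split_ifs
    · exact Or.inr rfl
    · exact Or.inl rfl
  have hGd : ∀ a, G a a = 1 := fun a => if_pos ⟨by omega, by omega⟩
  have hGs : ∀ a b, G a b = G b a := fun a b => if_congr and_comm rfl rfl
  have hnoL : ∀ {y}, y ∈ PUt i t → LCO (lo t) (hi t) i ∨ RCO (lo t) (hi t) i := by
    intro y hy
    rw [mem_PUt] at hy
    have hl := (mem_PU.1 hy.1).1
    obtain ⟨m, rfl⟩ : ∃ m, i = m + 2 := ⟨i - 2, by omega⟩
    obtain ⟨h1, h2⟩ := C.PU_cases h ht (by omega) hy.1 hy.2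
    rcases h2 with ⟨g1, g2, -, -⟩ | ⟨g1, g2, -, -⟩
    · exact Or.inl ⟨by omega, g1, g2, h1⟩
    · exact Or.inr ⟨by omega, g1, g2, h1⟩
  have hL : LCO (lo t) (hi t) i → x t (i - 2) (lo t (i - 2)) ∈ PUt i t := by
    rintro ⟨g0, g1, g2, g3⟩
    obtain ⟨m, rfl⟩ : ∃ m, i = m + 2 := ⟨i - 2, by omega⟩
    rw [mem_PUt]
    exact ⟨C.PU_left h ht (by omega) g1 g2 g3,
      C.le_t m (by omega) _ le_rfl (C.lohi m (by omega))⟩
  have hR : RCO (lo t) (hi t) i → x t (i - 2) (hi t (i - 2)) ∈ PUt i t := by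
    rintro ⟨g0, g1, g2, g3⟩
    obtain ⟨m, rfl⟩ : ∃ m, i = m + 2 := ⟨i - 2, by omega⟩
    rw [mem_PUt]
    exact ⟨C.PU_right h ht (by omega) g1 g2 g3,
      C.le_t m (by omega) _ (C.lohi m (by omega)) le_rfl⟩
  have hLR : ¬ (LCO (lo t) (hi t) i ∧ RCO (lo t) (hi t) i) := by
    rintro ⟨g1, g2⟩
    have g3 := Finset.card_le_one.1 hPU _ (hL g1) _ (hR g2)
    obtain ⟨f0, f1, f2, f3⟩ := g1
    obtain ⟨e0, e1, e2, e3⟩ := g2
    have g4 := C.inj' (by omega) le_rfl (C.lohi (i - 2) (by omega)) (C.lohi (i - 2) (by omega))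
      le_rfl g3
    have g5 := C.lohi (i - 1) (by omega)
    omega
  by_cases hne : PUt i t = ∅
  · -- no element of `PU`
    have hal : ∀ a ∈ Finset.Ioc (lo t i) (hi t i), al x i ⟨t, a⟩ = p a := by
      intro a ha
      have h1 := pu_sub hC h (hmem ha)
      rw [hne, Finset.subset_empty] at h1
      unfold al
      rw [h1]
      simp [hpdef]
    have hform : ∑ a ∈ Finset.Ioc (lo t i) (hi t i), ∑ b ∈ Finset.Ioc (lo t i) (hi t i),
        nd (Ed x i ⟨t, a⟩) (Ed x i ⟨t, b⟩) * (al x i ⟨t, a⟩ * al x i ⟨t, b⟩) =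
        ∑ a ∈ Finset.Ioc (lo t i) (hi t i), ∑ b ∈ Finset.Ioc (lo t i) (hi t i),
        G a b * (p a * p b) := by
      refine Finset.sum_congr rfl fun a ha => Finset.sum_congr rfl fun b hb => ?_
      rw [Ed_near hC h (hmem ha) (hmem hb), hal a ha, hal b hb]
    rw [hform]
    have h1 := quad_bound' (Finset.Ioc (lo t i) (hi t i)) G hG01 hGd p hp
    have h2 : 0 ≤ ∑ a ∈ Finset.Ioc (lo t i) (hi t i), p a ^ 2 :=
      Finset.sum_nonneg fun a _ => sq_nonneg _
    refine ⟨by linarith, fun h3 => Or.inl ⟨fun g => ?_, fun g => ?_, fun a ha ha' => ?_⟩⟩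
    · have := hL g
      rw [hne] at this
      exact absurd this (Finset.notMem_empty _)
    · have := hR g
      rw [hne] at this
      exact absurd this (Finset.notMem_empty _)
    · have h4 : ∑ a ∈ Finset.Ioc (lo t i) (hi t i), p a ^ 2 = 0 := by linarith
      have h5 := (Finset.sum_eq_zero_iff_of_nonneg (fun a _ => sq_nonneg (p a))).1 h4 a
        (mem_Ioc.2 ⟨ha, ha'⟩)
      have h6 : p a = 0 := by
        rw [sq_eq_zero_iff] at h5
        exact h5
      rw [hpen a ha ha'] at h6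
      exact_mod_cast h6
  · -- one element of `PU`
    obtain ⟨y0, hy0⟩ := Finset.nonempty_iff_ne_empty.2 hne
    have hsing : PUt i t = {y0} := by
      refine Finset.eq_singleton_iff_unique_mem.2 ⟨hy0, fun z hz => ?_⟩
      exact Finset.card_le_one.1 hPU z hz y0 hy0
    have hcase := hnoL hy0
    -- the end edge and its neighbours
    obtain ⟨e, N, he, hN, hcl, hnb, hst, hNs⟩ : ∃ (e : ℕ) (N : Finset ℕ), e ∈ N ∧
        N ⊆ Finset.Ioc (lo t i) (hi t i) ∧ (∀ a ∈ N, ∀ b ∈ N, G a b = 1) ∧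
        (∀ b ∈ Finset.Ioc (lo t i) (hi t i), b ∉ N → G e b = 0) ∧
        stD i y0 = Ed x i ⟨t, e⟩ ∧
        ((LCO (lo t) (hi t) i ∧ ∀ b ∈ N, b = lo t i + 1 ∨ (b = lo t i + 2 ∧ b ≤ hi t i)) ∨
          (RCO (lo t) (hi t) i ∧ ∀ b ∈ N, b = hi t i ∨ (b + 1 = hi t i ∧ lo t i < b))) := by
      rw [mem_PUt] at hy0
      have hl := (mem_PU.1 hy0.1).1
      obtain ⟨m, rfl⟩ : ∃ m, i = m + 2 := ⟨i - 2, by omega⟩
      obtain ⟨h1, h2⟩ := C.PU_cases h ht (by omega) hy0.1 hy0.2
      rcases h2 with ⟨g1, g2, -, g3⟩ | ⟨g1, g2, -, g3⟩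
      · refine ⟨lo t (m + 2) + 1, (Finset.Ioc (lo t (m + 2)) (hi t (m + 2))).filter
          (fun b => b ≤ lo t (m + 2) + 2), ?_, Finset.filter_subset _ _, ?_, ?_, ?_,
          Or.inl ⟨⟨by omega, g1, g2, h1⟩, ?_⟩⟩
        · rw [mem_filter, mem_Ioc]
          omega
        · intro a ha b hb
          rw [mem_filter, mem_Ioc] at ha hb
          exact if_pos (by omega)
        · intro b hb hb2
          rw [mem_filter] at hb2
          rw [mem_Ioc] at hb
          refine if_neg ?_
          rintro ⟨-, h5⟩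
          exact hb2 ⟨mem_Ioc.2 hb, by omega⟩
        · rw [g3]
          unfold Ed
          simp
        · intro b hb
          rw [mem_filter, mem_Ioc] at hb
          omega
      · refine ⟨hi t (m + 2), (Finset.Ioc (lo t (m + 2)) (hi t (m + 2))).filter
          (fun b => hi t (m + 2) ≤ b + 1), ?_, Finset.filter_subset _ _, ?_, ?_, ?_,
          Or.inr ⟨⟨by omega, g1, g2, h1⟩, ?_⟩⟩
        · rw [mem_filter, mem_Ioc]
          omega
        · intro a ha b hb
          rw [mem_filter, mem_Ioc] at ha hb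
          exact if_pos (by omega)
        · intro b hb hb2
          rw [mem_filter] at hb2
          rw [mem_Ioc] at hb
          refine if_neg ?_
          rintro ⟨h5, -⟩
          exact hb2 ⟨mem_Ioc.2 hb, by omega⟩
        · rw [g3]
          rfl
        · intro b hb
          rw [mem_filter, mem_Ioc] at hb
          omega
    have heI : e ∈ Finset.Ioc (lo t i) (hi t i) := hN he
    have hal : ∀ a ∈ Finset.Ioc (lo t i) (hi t i), al x i ⟨t, a⟩ = p a - if a = e then 1 else 0 := by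
      intro a ha
      have h1 := pu_sub hC h (hmem ha)
      rw [hsing] at h1
      unfold al
      congr 1
      split_ifs with hae
      · have h2 : y0 ∈ pu x i ⟨t, a⟩ := by
          rw [mem_pu, hae]
          exact ⟨(mem_PUt.1 hy0).1, hst⟩
        have h3 : pu x i ⟨t, a⟩ = {y0} :=
          Finset.Subset.antisymm h1 (Finset.singleton_subset_iff.2 h2)
        rw [h3]
        simp
      · have h3 : pu x i ⟨t, a⟩ = ∅ := by
          rw [Finset.eq_empty_iff_forall_notMem]
          intro z hz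
          have h4 := h1 hz
          rw [mem_singleton] at h4
          rw [mem_pu, h4, hst] at hz
          have h5 := Ed_inj hC h _ (hmem heI) _ (hmem ha) hz.2
          simp only [Sigma.mk.injEq, heq_eq_eq, true_and] at h5
          exact hae h5.symm
        rw [h3]
        simp
    have hform : ∑ a ∈ Finset.Ioc (lo t i) (hi t i), ∑ b ∈ Finset.Ioc (lo t i) (hi t i),
        nd (Ed x i ⟨t, a⟩) (Ed x i ⟨t, b⟩) * (al x i ⟨t, a⟩ * al x i ⟨t, b⟩) =
        ∑ a ∈ Finset.Ioc (lo t i) (hi t i), ∑ b ∈ Finset.Ioc (lo t i) (hi t i),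
        G a b * ((p a - if a = e then 1 else 0) * (p b - if b = e then 1 else 0)) := by
      refine Finset.sum_congr rfl fun a ha => Finset.sum_congr rfl fun b hb => ?_
      rw [Ed_near hC h (hmem ha) (hmem hb), hal a ha, hal b hb]
    rw [hform]
    have h1 := quad_bound (Finset.Ioc (lo t i) (hi t i)) N G hG01 hGd hN hcl he hGs hnb p hp
    have h2 : 0 ≤ ∑ a ∈ Finset.Ioc (lo t i) (hi t i) \ N, p a ^ 2 :=
      Finset.sum_nonneg fun a _ => sq_nonneg _
    have h3 := sq_nonneg (∑ a ∈ N, p a - 1)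
    refine ⟨by linarith, fun h4 => ?_⟩
    have h5 : (∑ a ∈ N, p a - 1) ^ 2 = 0 := by linarith
    have h6 : ∑ a ∈ N, p a = 1 := by
      rw [sq_eq_zero_iff] at h5
      linarith
    have h7 : ∑ a ∈ Finset.Ioc (lo t i) (hi t i) \ N, p a ^ 2 = 0 := by linarith
    have h8 : ∀ a ∈ Finset.Ioc (lo t i) (hi t i) \ N, p a = 0 := by
      intro a ha
      have h9 := (Finset.sum_eq_zero_iff_of_nonneg (fun a _ => sq_nonneg (p a))).1 h7 a ha
      rw [sq_eq_zero_iff] at h9
      exact h9
    obtain ⟨b, hb, hb2⟩ := sum_one_cases hp h6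
    have h10 : ∀ a, lo t i < a → a ≤ hi t i → (pen (x t (i + 1) a)).card = if a = b then 1 else 0 := by
      intro a ha ha'
      have h11 : p a = if a = b then 1 else 0 := by
        by_cases haN : a ∈ N
        · exact hb2 a haN
        · rw [h8 a (mem_sdiff.2 ⟨mem_Ioc.2 ⟨ha, ha'⟩, haN⟩), if_neg]
          rintro rfl
          exact haN hb
      rw [hpen a ha ha'] at h11
      split_ifs at h11 ⊢ <;> exact_mod_cast h11
    rcases hNs with ⟨g1, g2⟩ | ⟨g1, g2⟩
    · exact Or.inr (Or.inl ⟨g1, fun g => hLR ⟨g1, g⟩, b, g2 b hb, h10⟩)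
    · exact Or.inr (Or.inr ⟨g1, fun g => hLR ⟨g, g1⟩, b, g2 b hb, h10⟩)

include hC h in
/-- the near level lemma, family form -/
theorem S5_family (hi1 : 1 ≤ i) (hPU : ∀ t : P, lev t = 0 → (PUt i t).card ≤ 1) :
    (ZV P i).card = (Z3 P i).card ∧ ∀ t : P, lev t = 0 → S5c (lo t) (hi t) (x t) i := by
  classical
  have H := h.H
  have hir := h.hr
  have hg := h.good i (by omega)
  have hq := quad_identity H hi1 hir hg (EI lo hi i) (Ed x i) (Ed_inj hC h) (Ed_PD hC h)
    (Ed_PU hC h)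
  have h42 := I42_gen H hi1 hir hg
  have hx := X3_eq H hi1 (by omega) (h.good (i - 1) (by omega))
  have hz := (card_ZV_le (P := P) H (i := i)).1
  have hsum : ∑ q ∈ EI lo hi i, ∑ q' ∈ EI lo hi i, nd (Ed x i q) (Ed x i q') *
      ((((PD P i).filter (fun a => sts i a = Ed x i q)).card -
        ((PU P i).filter (fun a => stD i a = Ed x i q)).card : ℤ) *
      (((PD P i).filter (fun a => sts i a = Ed x i q')).card -
        ((PU P i).filter (fun a => stD i a = Ed x i q')).card)) =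
      ∑ t ∈ lv P 0, ∑ a ∈ Finset.Ioc (lo t i) (hi t i), ∑ b ∈ Finset.Ioc (lo t i) (hi t i),
        nd (Ed x i ⟨t, a⟩) (Ed x i ⟨t, b⟩) * (al x i ⟨t, a⟩ * al x i ⟨t, b⟩) := by
    have e0 : ∀ q, ((((PD P i).filter (fun a => sts i a = Ed x i q)).card -
        ((PU P i).filter (fun a => stD i a = Ed x i q)).card : ℤ)) = al x i q := fun q => rfl
    simp only [e0]
    rw [show EI lo hi i = (lv P 0).sigma (fun t => Finset.Ioc (lo t i) (hi t i)) from rfl,
      Finset.sum_sigma]
    refine Finset.sum_congr rfl fun t ht => Finset.sum_congr rfl fun a ha => ?_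
    rw [Finset.sum_sigma]
    rw [mem_lv] at ht
    rw [mem_Ioc] at ha
    rw [Finset.sum_eq_single t]
    · intro t' ht' hne
      rw [mem_lv] at ht'
      refine Finset.sum_eq_zero fun b hb => ?_
      rw [mem_Ioc] at hb
      have h1 : Disjoint (Ed x i ⟨t, a⟩) (Ed x i ⟨t', b⟩) := by
        rw [Finset.disjoint_left]
        intro v hv hv'
        exact hne (Ed_top hC h (mem_EI.2 ⟨ht, ha⟩) (mem_EI.2 ⟨ht', hb⟩) hv hv').symm
      unfold nd
      rw [if_pos h1, zero_mul]
    · intro hn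
      exact absurd (mem_lv.2 ht) hn
  rw [hsum] at hq
  have hnn : ∀ t ∈ lv P 0, 0 ≤ ∑ a ∈ Finset.Ioc (lo t i) (hi t i),
      ∑ b ∈ Finset.Ioc (lo t i) (hi t i),
        nd (Ed x i ⟨t, a⟩) (Ed x i ⟨t, b⟩) * (al x i ⟨t, a⟩ * al x i ⟨t, b⟩) := fun t ht =>
    (comp_form hC h (mem_lv.1 ht) (hPU t (mem_lv.1 ht))).1
  have hs0 := Finset.sum_nonneg hnn
  rw [hq] at hs0
  have hz0 : (ZV P i).card = (Z3 P i).card := by omega
  refine ⟨hz0, fun t ht => ?_⟩
  refine (comp_form hC h ht (hPU t ht)).2 ?_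
  have hs1 : ∑ t ∈ lv P 0, ∑ a ∈ Finset.Ioc (lo t i) (hi t i),
      ∑ b ∈ Finset.Ioc (lo t i) (hi t i),
        nd (Ed x i ⟨t, a⟩) (Ed x i ⟨t, b⟩) * (al x i ⟨t, a⟩ * al x i ⟨t, b⟩) = 0 := by
    rw [hq]
    omega
  exact ((Finset.sum_eq_zero_iff_of_nonneg hnn).1 hs1 t (mem_lv.2 ht)).le

end family

/-- NEAR LEVEL LEMMA.  All levels less than `j = i + 1` are good, `i ≥ 1`, and at most one element
of `PU i` lies below every maximal element.  Then (1) two covers of an element of level `j + 1`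
are neighbours (exactly one common cover) or both single-up without a common cover; (2) in every
component there are no pendants below the doubles of level `j`, except that for letters C, O at one end
(levels `i - 2`, `i - 1`, `i`) there is exactly one pendant, below the end double or below the next
double (flip). -/
theorem near_level {i : ℕ} (h : GoodTo P r (i + 1)) (hi1 : 1 ≤ i)
    (hPU : ∀ t : P, lev t = 0 → (PUt i t).card ≤ 1) :
    (∀ z v v' : P, lev z = i + 2 → z ⋖ v → z ⋖ v' → v ≠ v' →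
      ucv v v' = 1 ∨ ((uc v).card = 1 ∧ (uc v').card = 1 ∧ ucv v v' = 0)) ∧
    ∀ (t : P) (lo hi : ℕ → ℕ) (x : ℕ → ℕ → P), lev t = 0 → Comp P t (i + 1) lo hi x →
      S5c lo hi x i := by
  classical
  have hex : ∀ t : P, ∃ (lo hi : ℕ → ℕ) (x : ℕ → ℕ → P), lev t = 0 → Comp P t (i + 1) lo hi x := by
    intro t
    by_cases ht : lev t = 0
    · obtain ⟨lo, hi, x, C⟩ := comp_exists h ht
      exact ⟨lo, hi, x, fun _ => C⟩
    · exact ⟨fun _ => 0, fun _ => 0, fun _ _ => t, fun h => absurd h ht⟩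
  choose LO HI X hX using hex
  have h1 := S5_family (lo := LO) (hi := HI) (x := X) hX h hi1 hPU
  constructor
  · intro z v v' hz hv hv' hne
    have l1 := lev_cov h.H hv
    have l2 := lev_cov h.H hv'
    rcases Nat.eq_zero_or_pos (ucv v v') with h0 | h0
    · right
      obtain ⟨h2, h3⟩ := cov_of_Z3 h.H hi1 h.hr (h.good i (by omega)) h1.1 hz hv hv' hne h0
      exact ⟨h2, h3, h0⟩
    · left
      obtain ⟨t, hvt, ht⟩ := exists_above' (x := v) (j := 0) (Nat.zero_le _)
      have hvt' := h.top_of_ucv (by omega) h0 ht hvt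
      have C := hX t ht
      obtain ⟨a, a1, a2, rfl⟩ := C.surj (i + 1) le_rfl v (by omega) hvt
      obtain ⟨b, b1, b2, rfl⟩ := C.surj (i + 1) le_rfl v' (by omega) hvt'
      have hab : a ≠ b := fun he => hne (by rw [he])
      rw [C.ucv_eq h ht le_rfl a1 a2 b1 b2 hab] at h0 ⊢
      split_ifs at h0 ⊢
      · rfl
      · omega
  · intro t lo hi x ht C
    have h2 := S5_family (lo := fun s => if s = t then lo else LO s)
      (hi := fun s => if s = t then hi else HI s) (x := fun s => if s = t then x else X s)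
      (fun s hs => by
        by_cases hst : s = t
        · subst hst
          simpa using C
        · simpa [hst] using hX s hs) h hi1 hPU
    have h3 := h2.2 t ht
    simpa using h3

end Pool.Agent.GaussPoset.Win

end

/-! From `Pool.Agent.W_448cr_h63.CH` -/

section

/-!
# The near level lemma (MP_448cb3_co), without hypothesis on `PU`

At every level `i < j` the individual identity `|PD| = |PU|` holds below every maximal element, and both
numbers are at most one.
-/

namespace Pool.Agent.GaussPoset.Win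

set_option linter.unusedSectionVars false

open Finset

universe u

variable {P : Type u} [Fintype P] [PartialOrder P] [DecidableEq P] {r j : ℕ}

/-- the elements of `PD` of a component are the pendants below its doubles -/
lemma PDt_card {i : ℕ} (h : GoodTo P r (i + 1)) {t : P} (ht : lev t = 0) {lo hi : ℕ → ℕ}
    {x : ℕ → ℕ → P} (C : Comp P t (i + 1) lo hi x) :
    (PDt i t).card = ∑ a ∈ Finset.Ioc (lo i) (hi i), (pen (x (i + 1) a)).card := by
  classical
  have e0 : PDt i t = (Finset.Ioc (lo i) (hi i)).biUnion (fun a => pen (x (i + 1) a)) := by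
    ext z
    rw [mem_PDt, mem_biUnion]
    constructor
    · rintro ⟨hz, hzt⟩
      obtain ⟨w, hw, hw2⟩ := S5_uc_PD hz
      obtain ⟨hlz, h1, -⟩ := mem_PD.1 hz
      have hzw : z ⋖ w := by rw [← mem_uc, hw]; simp
      have hlw := lev_cov h.H hzw
      obtain ⟨s, hws, hs⟩ := exists_above' (x := w) (j := 0) (Nat.zero_le _)
      -- the top of `w` is `t`
      have hst : s = t := by
        obtain ⟨y, hy, hy2⟩ := Hul.exists_cov (lt_of_le_of_ne hzt (by rintro rfl; omega))
        have h2 : y ∈ uc z := mem_uc.2 hy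
        rw [hw, mem_singleton] at h2
        subst h2
        exact h.top_eq (by omega) hs ht hws hy2
      subst hst
      obtain ⟨a, a1, a2, rfl⟩ := C.surj (i + 1) le_rfl w (by omega) hws
      rw [C.uc_two h ht (by omega) a1 a2] at hw2
      exact ⟨a, mem_Ioc.2 hw2, mem_pen.2 ⟨hzw, h1⟩⟩
    · rintro ⟨a, ha, hz⟩
      rw [mem_Ioc] at ha
      rw [mem_pen] at hz
      have e1 := C.lo_ge i (by omega)
      have e2 := C.hi_le i (by omega)
      have hl := C.lev_x (i + 1) le_rfl a (by omega) (by omega)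
      have hlz := lev_cov h.H hz.1
      exact ⟨mem_PD.2 ⟨by omega, hz.2, _, hz.1, (C.uc_two h ht (by omega) (by omega) (by omega)).2
        ha⟩, hz.1.le.trans (C.le_t (i + 1) le_rfl a (by omega) (by omega))⟩
  rw [e0, Finset.card_biUnion]
  intro a ha b hb hab
  change Disjoint (pen (x (i + 1) a)) (pen (x (i + 1) b))
  rw [Finset.disjoint_left]
  intro z hz hz'
  rw [mem_coe, mem_Ioc] at ha hb
  rw [mem_pen] at hz hz'
  have e1 := C.lo_ge i (by omega)
  have e2 := C.hi_le i (by omega)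
  exact hab (C.inj' le_rfl (by omega) (by omega) (by omega) (by omega)
    (uc_unique hz.2 hz.1 hz'.1))

/-- the elements of `PU` of a component -/
lemma PUt_card {i : ℕ} (h : GoodTo P r (i + 1)) {t : P} (ht : lev t = 0) {lo hi : ℕ → ℕ}
    {x : ℕ → ℕ → P} (C : Comp P t (i + 1) lo hi x) (hPU : (PUt i t).card ≤ 1) :
    ((PUt i t).card = 1 ↔ LCO lo hi i ∨ RCO lo hi i) := by
  classical
  constructor
  · intro h1
    obtain ⟨y, hy⟩ := Finset.card_eq_one.1 h1
    have hy2 : y ∈ PUt i t := by rw [hy]; simp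
    rw [mem_PUt] at hy2
    have hl := (mem_PU.1 hy2.1).1
    obtain ⟨m, rfl⟩ : ∃ m, i = m + 2 := ⟨i - 2, by omega⟩
    obtain ⟨h1, h2⟩ := C.PU_cases h ht (by omega) hy2.1 hy2.2
    rcases h2 with ⟨g1, g2, -, -⟩ | ⟨g1, g2, -, -⟩
    · exact Or.inl ⟨by omega, g1, g2, h1⟩
    · exact Or.inr ⟨by omega, g1, g2, h1⟩
  · intro h1
    have h2 : 0 < (PUt i t).card := by
      rw [Finset.card_pos]
      rcases h1 with ⟨g0, g1, g2, g3⟩ | ⟨g0, g1, g2, g3⟩
      · obtain ⟨m, rfl⟩ : ∃ m, i = m + 2 := ⟨i - 2, by omega⟩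
        exact ⟨_, mem_PUt.2 ⟨C.PU_left h ht (by omega) g1 g2 g3,
          C.le_t m (by omega) _ le_rfl (C.lohi m (by omega))⟩⟩
      · obtain ⟨m, rfl⟩ : ∃ m, i = m + 2 := ⟨i - 2, by omega⟩
        exact ⟨_, mem_PUt.2 ⟨C.PU_right h ht (by omega) g1 g2 g3,
          C.le_t m (by omega) _ (C.lohi m (by omega)) le_rfl⟩⟩
    omega

/-- one component: from `S5c` to the individual identity -/
lemma S5c_card {i : ℕ} (h : GoodTo P r (i + 1)) {t : P} (ht : lev t = 0) {lo hi : ℕ → ℕ}
    {x : ℕ → ℕ → P} (C : Comp P t (i + 1) lo hi x) (hPU : (PUt i t).card ≤ 1)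
    (hS : S5c lo hi x i) : (PDt i t).card = (PUt i t).card := by
  classical
  have h1 := PUt_card h ht C hPU
  rw [PDt_card h ht C]
  rcases hS with ⟨g1, g2, g3⟩ | ⟨g1, g2, b, hb, g3⟩ | ⟨g1, g2, b, hb, g3⟩
  · have h2 : (PUt i t).card = 0 := by
      have : ¬ (PUt i t).card = 1 := fun h3 => (h1.1 h3).elim g1 g2
      omega
    rw [h2]
    refine Finset.sum_eq_zero fun a ha => ?_
    rw [mem_Ioc] at ha
    exact g3 a ha.1 ha.2
  · rw [h1.2 (Or.inl g1), Finset.sum_congr rfl fun a ha => g3 a (mem_Ioc.1 ha).1 (mem_Ioc.1 ha).2,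
      Finset.sum_ite_eq' _ b, if_pos]
    obtain ⟨-, -, -, f⟩ := g1
    rw [mem_Ioc]
    omega
  · rw [h1.2 (Or.inr g1), Finset.sum_congr rfl fun a ha => g3 a (mem_Ioc.1 ha).1 (mem_Ioc.1 ha).2,
      Finset.sum_ite_eq' _ b, if_pos]
    obtain ⟨-, -, -, f⟩ := g1
    rw [mem_Ioc]
    omega

lemma PD_zero (H : Gr P r) : PD P 0 = ∅ := by
  rw [Finset.eq_empty_iff_forall_notMem]
  intro z hz
  obtain ⟨hl, -, w, hw, hw2⟩ := mem_PD.1 hz
  have := lev_cov H hw
  have := uc_level_one H (x := w) (by omega)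
  omega

/-- INDIVIDUAL (2,1), all components, all good windows: at every level `i < j` there are equally many
elements of `PD` and of `PU` below every maximal element, at most one. -/
theorem indiv_21 (h : GoodTo P r j) : ∀ i, i + 1 ≤ j → ∀ t : P, lev t = 0 →
    (PUt i t).card ≤ 1 ∧ (PDt i t).card = (PUt i t).card := by
  classical
  intro i
  induction i using Nat.strong_induction_on with
  | _ i ih =>
    intro hij
    have hA : ∀ t : P, lev t = 0 → (PUt i t).card ≤ 1 := by
      intro t ht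
      obtain ⟨lo, hi, x, C⟩ := comp_exists (h.mono hij) ht
      exact C.PU_le_one (h.mono hij) ht (fun m hm => (ih m (by omega) (by omega) t ht).2) i le_rfl
    intro t ht
    refine ⟨hA t ht, ?_⟩
    rcases Nat.eq_zero_or_pos i with rfl | hi0
    · have h1 : PDt 0 t = ∅ := by
        rw [Finset.eq_empty_iff_forall_notMem]
        intro z hz
        rw [mem_PDt, PD_zero h.H] at hz
        exact absurd hz.1 (Finset.notMem_empty _)
      have h2 : PUt 0 t = ∅ := by
        rw [Finset.eq_empty_iff_forall_notMem]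
        intro z hz
        have := (mem_PU.1 (mem_PUt.1 hz).1).1
        omega
      rw [h1, h2]
    · obtain ⟨lo, hi, x, C⟩ := comp_exists (h.mono hij) ht
      exact S5c_card (h.mono hij) ht C (hA t ht)
        ((near_level (h.mono hij) hi0 hA).2 t lo hi x ht C)

/-- NEAR LEVEL LEMMA, final form.  All levels less than `j = i + 1` are good, `i ≥ 1`.  Then (1) two
covers of an element of level `j + 1` are neighbours (exactly one common cover) or both single-up
without a common cover; (2) in every component there are no pendants below the doubles of level `j`,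
except that for letters C, O at one end (levels `i - 2`, `i - 1`, `i`) there is exactly one pendant,
below the end double or below the next double (flip). -/
theorem near_level' {i : ℕ} (h : GoodTo P r (i + 1)) (hi1 : 1 ≤ i) :
    (∀ z v v' : P, lev z = i + 2 → z ⋖ v → z ⋖ v' → v ≠ v' →
      ucv v v' = 1 ∨ ((uc v).card = 1 ∧ (uc v').card = 1 ∧ ucv v v' = 0)) ∧
    ∀ (t : P) (lo hi : ℕ → ℕ) (x : ℕ → ℕ → P), lev t = 0 → Comp P t (i + 1) lo hi x →
      S5c lo hi x i :=
  near_level h hi1 fun t ht => (indiv_21 h i le_rfl t ht).1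

end Pool.Agent.GaussPoset.Win

end
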