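import Mathlib
import Pool.Agent.W_448zz_h61.Ns
import Pool.Agent.W_448zz_h61.M030
import Pool.Agent.W_448zz_h61.M032
import Pool.Agent.W_448zz_h61.M042

/-! From `Pool.Agent.W_448rr_h67.RrB` -/

section

/-!
# Rectangle-like components at window 1 (MP_448cb3_co), local lemmas
-/

namespace Pool.Agent.GaussPoset

set_option linter.unusedSectionVars false

open Polynomial Finset

universe u

variable {P : Type u} [Fintype P] [PartialOrder P] [DecidableEq P] {r j : ℕ}

section Shape

open Cp

variable {i : ℕ} {t : P} {lo hi : ℕ → ℕ} {e : ℕ → ℕ → P}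

/-- no letters C, O at an end of a rectangle-like strip -/
lemma rectShape_no_co (C : Comp (i + 1) t lo hi e) (S : RectShape (i + 1) lo hi) :
    ¬ Win.LCO lo hi i ∧ ¬ Win.RCO lo hi i := by
  constructor
  · rintro ⟨h1, h2, h3, h4⟩
    have h5 := S.lo (i - 1) (by omega)
    rw [Nat.sub_add_cancel (by omega)] at h5
    omega
  · rintro ⟨h1, h2, h3, h4⟩
    have h5 := S.hi (i - 1) (by omega)
    rw [Nat.sub_add_cancel (by omega)] at h5
    have h6 := C.hi_le (k := i - 2) (by omega)
    omega

/-- no pendants below the doubles of the last good level of a rectangle-like strip -/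
theorem rectShape_no_pendant (h : Win.GoodTo P r (i + 1)) (hi1 : 1 ≤ i) (ht : lev t = 0)
    (C : Comp (i + 1) t lo hi e) (S : RectShape (i + 1) lo hi) {x z : P} (hx : lev x = i + 1)
    (hxt : x ≤ t) (hx2 : (Win.uc x).card = 2) (hzx : z ⋖ x) (honly : ∀ y, z ⋖ y → y = x) :
    False := by
  classical
  obtain ⟨n1, n2⟩ := rectShape_no_co C S
  obtain ⟨s, h1, h2, h3⟩ := C.surj x hxt (by omega)
  rw [hx] at h1 h2 h3
  have hS := (Win.near_level' h hi1).2 t lo hi e ht C.toWin
  have h4 := C.toWin.uc_two h ht (k := i) (by omega) h1 h2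
  rw [h3] at h4
  have h5 := h4.mp hx2
  have h6 : (Win.uc z).card = 1 := by
    rw [Finset.card_eq_one]
    refine ⟨x, ?_⟩
    ext y
    rw [Win.mem_uc, mem_singleton]
    exact ⟨honly y, fun h => h ▸ hzx⟩
  have h7 : z ∈ Win.pen (e (i + 1) s) := by
    rw [Win.mem_pen, h3]
    exact ⟨hzx, h6⟩
  rcases hS with ⟨-, -, h8⟩ | ⟨h8, -⟩ | ⟨h8, -⟩
  · have h9 := h8 s h5.1 h5.2
    rw [Finset.card_eq_zero] at h9
    rw [h9] at h7
    exact absurd h7 (Finset.notMem_empty _)
  · exact n1 h8
  · exact n2 h8

end Shape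

/-- covers are determined by the strict up-set -/
lemma cov_of_up {x z w : P} (h : ∀ y, x < y ↔ z < y) : x ⋖ w ↔ z ⋖ w := by
  constructor
  · intro h1
    exact ⟨(h w).mp h1.1, fun v hv1 hv2 => h1.2 ((h v).mpr hv1) hv2⟩
  · intro h1
    exact ⟨(h w).mpr h1.1, fun v hv1 hv2 => h1.2 ((h v).mp hv1) hv2⟩

/-- elements with the same covers have the same strict up-set -/
lemma up_of_cov {x z : P} (h : ∀ w, x ⋖ w ↔ z ⋖ w) : ∀ y, x < y ↔ z < y := by
  intro y
  constructor
  · intro h1
    obtain ⟨v, hv, hvy⟩ := Hul.exists_cov h1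
    exact ((h v).mp hv).1.trans_le hvy
  · intro h1
    obtain ⟨v, hv, hvy⟩ := Hul.exists_cov h1
    exact ((h v).mpr hv).1.trans_le hvy

section ChartLemmas

variable {t : P} {N : Finset P} {co : P → ℕ × ℕ}

/-- an inner cell has two covers -/
lemma chart_inner_uc (C : Chart t (fun _ => True) N co) (H : Gr P r) {x : P} (hx : x ∈ N)
    (h1 : 1 ≤ (co x).1) (h2 : 1 ≤ (co x).2) : (Win.uc x).card = 2 := by
  classical
  obtain ⟨y1, hy1, hc1⟩ := C.low x hx ((co x).1 - 1, (co x).2)
    ⟨Nat.sub_le _ _, le_rfl⟩ trivial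
  obtain ⟨y2, hy2, hc2⟩ := C.low x hx ((co x).1, (co x).2 - 1)
    ⟨le_rfl, Nat.sub_le _ _⟩ trivial
  have e1 : x ⋖ y1 := by
    rw [chart_cov C H hx hy1, hc1]
    exact Or.inl ⟨by simp only; omega, rfl⟩
  have e2 : x ⋖ y2 := by
    rw [chart_cov C H hx hy2, hc2]
    exact Or.inr ⟨rfl, by simp only; omega⟩
  have hne : y1 ≠ y2 := by
    rintro rfl
    rw [hc1] at hc2
    simp only [Prod.mk.injEq] at hc2
    omega
  have h3 : ({y1, y2} : Finset P) ⊆ Win.uc x := by
    intro y hy
    rw [mem_insert, mem_singleton] at hy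
    rcases hy with rfl | rfl
    · exact Win.mem_uc.mpr e1
    · exact Win.mem_uc.mpr e2
  have h4 := Finset.card_le_card h3
  rw [Finset.card_pair hne] at h4
  have := Win.uc_card_le H x
  omega

/-- two elements on every level `1 ≤ k < lev x` above an inner cell -/
lemma chart_inner_nab (C : Chart t (fun _ => True) N co) {x : P} (hx : x ∈ N)
    (h1 : 1 ≤ (co x).1) (h2 : 1 ≤ (co x).2) {k : ℕ} (hk : 1 ≤ k) (hkx : k < lev x) :
    2 ≤ nab k x := by
  have hl := C.lev x hx
  rw [nab_chart C hx k]
  have := card_cellsAt_true (l := k) (p := co x) (by omega)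
  omega

/-- an element with exactly the covers `(0, j)` and `(j, 0)` is not in the natural set -/
lemma chart_rot (C : Chart t (fun _ => True) N co) (H : Gr P r) (hj : 2 ≤ j) {x x' z : P}
    (hx : x ∈ N) (hx' : x' ∈ N) (hcx : co x = (0, j)) (hcx' : co x' = (j, 0)) (hzx : z ⋖ x)
    (hzx' : z ⋖ x') : z ∉ natR N co := by
  intro hz
  rw [mem_natR] at hz
  have key : ∀ (co : P → ℕ × ℕ) (x x' : P), Chart t (fun _ => True) N co → x ∈ N → x' ∈ N →
      co x = (0, j) → co x' = (j, 0) → z ⋖ x → z ⋖ x' → z ∉ junk (fun _ => True) N co := by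
    intro co x x' C hx hx' hcx hcx' hzx hzx' hzJ
    obtain ⟨x1, H1, hz1⟩ := mem_junk.mp hzJ
    have e1 := H1.lt x' hx' (by rw [hcx']; simp only; omega)
    rw [hcx'] at e1
    simp only at e1
    rcases (mem_jset.mp hz1).2 x' hzx'.1.le with h | h
    · have := (C.le_iff x' hx' x1 H1.mem).mp h
      have h2 : (co x1).2 ≤ (co x').2 := this.2
      rw [hcx'] at h2
      simp only at h2
      omega
    · have := (C.le_iff x1 H1.mem x' hx').mp h
      have h2 : (co x').1 ≤ (co x1).1 := this.1
      rw [hcx', H1.fst] at h2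
      simp only at h2
      omega
  rcases hz with h | h | h
  · have e1 := (chart_cov C H h hx).mp hzx
    have e2 := (chart_cov C H h hx').mp hzx'
    rw [hcx] at e1
    rw [hcx'] at e2
    unfold Prd at e1 e2
    simp only at e1 e2
    omega
  · exact key co x x' C hx hx' hcx hcx' hzx hzx' h
  · refine key (swp co) x' x C.swap hx' hx ?_ ?_ hzx' hzx h
    · unfold swp; rw [hcx']
    · unfold swp; rw [hcx]

end ChartLemmas

end Pool.Agent.GaussPoset

end

/-! From `Pool.Agent.W_448rr_h67.RrC` -/

section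

/-!
# Rectangle-like components at window 1 (MP_448cb3_co): natural elements and twins
-/

namespace Pool.Agent.GaussPoset

set_option linter.unusedSectionVars false

open Polynomial Finset

universe u

variable {P : Type u} [Fintype P] [PartialOrder P] [DecidableEq P] {r j : ℕ}
  {N : Tops P → Finset P} {b : Tops P → ℕ} {θ : Tops P → P → ℕ}

/-- window 1: all strips are light or rectangle-like -/
structure W1 (r j : ℕ) (N : Tops P → Finset P) (b : Tops P → ℕ) (θ : Tops P → P → ℕ) : Prop where
  gt : Win.GoodTo P r j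
  two_le : 2 ≤ j
  nojn : ∀ z : P, lev z = j + 1 → ¬ Hul.Jn z
  typ : ∀ t, TopType j 1 t (b t) (N t) (θ t)
  nopen : ∀ t : Tops P, N t ≠ onlyB t → ∀ x z : P, x ≤ (t : P) → lev x = j →
    (Win.uc x).card = 2 → z ⋖ x → ¬ ∀ y, z ⋖ y → y = x
  sum_b : ∑ t, b t = (lv P 1).card

lemma W1.natSys (W : W1 r j N b θ) : NatSys N :=
  (farData_of_types (jt := fun _ => j) W.gt.H.gradedBelow W.typ).1

lemma W1.low (W : W1 r j N b θ) {x : P} (hx : lev x ≤ j) : x ∉ unnat N := by
  intro h
  refine mem_unnat.mp h (topOf x) ?_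
  rcases W.typ (topOf x) with ⟨h1, h2, h3, h4, h5, h6⟩ | ⟨Nc, co, h0, h1, h2, h4⟩ |
    ⟨Nc, co, h0, h1, h2, h3, h4, h5⟩
  · rw [h1]; exact h5 x (le_topOf x) hx
  · rw [h1]; exact mem_natR.mpr (Or.inl (h0.strip (mem_lowPart.mpr ⟨le_topOf x, hx⟩)))
  · omega

lemma W1.lt_lev (W : W1 r j N b θ) {x : P} (hx : x ∈ unnat N) : j < lev x := by
  by_contra hcon
  exact W.low (not_lt.mp hcon) hx

/-- natural elements with full threshold -/
structure Full (N : Tops P → Finset P) (θ : Tops P → P → ℕ) (x : P) : Prop where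
  th : θ (topOf x) x = lev x - 1
  two : ∀ z ∈ unnat N, z ≤ x → ∀ k, 1 ≤ k → k ≤ lev x → 2 ≤ nab k z
  tw : ∀ z ∈ unnat N, ¬ ∀ w, x < w ↔ z < w

/-- inner cells of rectangle-like components -/
def Inner (j : ℕ) (N : Tops P → Finset P) (b : Tops P → ℕ) (θ : Tops P → P → ℕ) (x : P) : Prop :=
  ∃ (Nc : Finset P) (co : P → ℕ × ℕ), RectNat j 1 (topOf x) (b (topOf x)) Nc co ∧
    N (topOf x) = natR Nc co ∧ x ∈ Nc ∧ 1 ≤ (co x).1 ∧ 1 ≤ (co x).2 ∧
    θ (topOf x) x = lev x - 2

/-- junk has no unnatural twins -/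
lemma junk_twin {S : ℕ × ℕ → Prop} {Nc : Finset P} {co : P → ℕ × ℕ} {x z : P}
    (hx : x ∈ junk S Nc co) (h : ∀ w, x < w ↔ z < w) : z ∈ junk S Nc co := by
  obtain ⟨x1, H1, hj⟩ := mem_junk.mp hx
  rw [mem_jset] at hj
  refine mem_junk.mpr ⟨x1, H1, mem_jset.mpr ⟨(h x1).mp hj.1, fun y hy => ?_⟩⟩
  rcases eq_or_lt_of_le hy with h1 | h1
  · left
    rw [← h1]
    exact ((h x1).mp hj.1).le
  · exact hj.2 y ((h y).mpr h1).le

/-- straight cells have no unnatural twins -/
lemma straight_twin (H : Gr P r) {t : Tops P} {i c : ℕ} {Nc : Finset P} {co : P → ℕ × ℕ}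
    (R : RectNat j i t c Nc co) (hNt : N t = natR Nc co) {x u z : P} (hx : x ∈ Nc) (hu : u ∈ Nc)
    (hxu : Prd (co x) (co u)) (hun : ∀ y ∈ Nc, Prd (co x) (co y) → co y = co u)
    (h0 : (co u).1 = 0 ∨ (co u).2 = 0) (hz : z ∈ unnat N) (h : ∀ w, x < w ↔ z < w) : False := by
  have h1 : x ⋖ u := (chart_cov R.chart H hx hu).mpr hxu
  have h2 : z ⋖ u := (cov_of_up h).mp h1
  have h3 := rect_pendant H R hNt hz (x := u) (by rw [hNt]; exact mem_natR.mpr (Or.inl hu)) h2 (by
    intro y hy
    have hy1 : x ⋖ y := (cov_of_up h).mpr hy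
    have hyN := R.chart.up x hx y hy1.le
    exact R.chart.inj y hyN u hu (hun y hyN ((chart_cov R.chart H hx hyN).mp hy1)))
  have := h3.2.2.2
  omega

/-- the two kinds of natural elements -/
theorem W1.cases (W : W1 r j N b θ) {x : P} (hx : x ∉ unnat N) : Full N θ x ∨ Inner j N b θ x := by
  have H := W.gt.H
  have HN := W.natSys
  have hxt : x ∈ N (topOf x) := HN.mem_iff.mpr ⟨hx, rfl⟩
  have hj := W.two_le
  have hT := W.typ (topOf x)
  generalize ht : topOf x = t at hxt hT
  rcases hT with ⟨h1, h2, h3, h4, h5, h6⟩ | ⟨Nc, co, h0, h1, h2, h4⟩ |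
    ⟨Nc, co, h0, h1, h2, h3, h4, h5⟩
  · left
    have hs : ∀ z ∈ unnat N, ∃ s : P, lev s = 0 ∧ z ≤ s ∧ s ≠ t := by
      intro z hz
      have h7 : z ∉ onlyB t := by
        rw [← h1]
        exact mem_unnat.mp hz t
      rw [mem_onlyB] at h7
      push Not at h7
      exact h7
    refine ⟨by rw [ht, h2], ?_, ?_⟩
    · intro z hz hzx k _ hk
      obtain ⟨s, hs1, hs2, hs3⟩ := hs z hz
      exact two_le_nab_join HN H.gradedBelow hxt hzx hs1 hs3 hs2 hk
    · intro z hz h
      obtain ⟨s, hs1, hs2, hs3⟩ := hs z hz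
      have h7 := W.lt_lev hz
      have h8 : z < s := lt_of_le_of_ne hs2 (by rintro rfl; omega)
      exact hs3 (HN.top_eq hxt hs1 ((h s).mpr h8).le)
  · have hb : b t = 2 := by
      have e1 := h0.b_two
      have e2 := h0.b_le
      omega
    by_cases hJ : x ∈ junk (fun _ => True) Nc co ∨ x ∈ junk (fun _ => True) Nc (swp co)
    · left
      refine ⟨?_, ?_, ?_⟩
      · rw [ht, h2]
        unfold thR
        rw [if_pos hJ]
      · intro z hz hzx k hk hkx
        refine rect_two_le_nab H h0 h1 hz hzx ?_ hk hkx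
        rcases hJ with h | h
        · exact Or.inl h
        · exact Or.inr (Or.inl h)
      · intro z hz h
        refine mem_unnat.mp hz t ?_
        rw [h1, mem_natR]
        rcases hJ with h' | h'
        · exact Or.inr (Or.inl (junk_twin h' h))
        · exact Or.inr (Or.inr (junk_twin h' h))
    · have hxN : x ∈ Nc := by
        rw [h1, mem_natR] at hxt
        rcases hxt with h | h | h
        · exact h
        · exact absurd (Or.inl h) hJ
        · exact absurd (Or.inr h) hJ
      have hl := h0.chart.lev x hxN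
      by_cases h7 : (co x).1 = 0 ∨ (co x).2 = 0
      · left
        refine ⟨?_, ?_, ?_⟩
        · rw [ht, h2]
          unfold thR
          rw [if_neg hJ, hb]
          omega
        · intro z hz hzx k hk hkx
          exact rect_two_le_nab H h0 h1 hz hzx (Or.inr (Or.inr ⟨hxN, h7⟩)) hk hkx
        · intro z hz h
          have h8 := W.lt_lev hz
          rw [← lev_eq_of_up h] at h8
          rcases h7 with h7 | h7
          · obtain ⟨u, hu, hcu⟩ := h0.chart.low x hxN (0, (co x).2 - 1)
              ⟨Nat.zero_le _, Nat.sub_le _ _⟩ trivial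
            refine straight_twin H h0 h1 hxN hu ?_ ?_ ?_ hz h
            · rw [hcu]
              exact Or.inr ⟨by simp only; omega, by simp only; omega⟩
            · intro y hy hp
              rw [hcu]
              rcases hp with hp | hp
              · omega
              · exact Prod.ext (by simp only; omega) (by simp only; omega)
            · rw [hcu]
              exact Or.inl rfl
          · obtain ⟨u, hu, hcu⟩ := h0.chart.low x hxN ((co x).1 - 1, 0)
              ⟨Nat.sub_le _ _, Nat.zero_le _⟩ trivial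
            refine straight_twin H h0 h1 hxN hu ?_ ?_ ?_ hz h
            · rw [hcu]
              exact Or.inl ⟨by simp only; omega, by simp only; omega⟩
            · intro y hy hp
              rw [hcu]
              rcases hp with hp | hp
              · exact Prod.ext (by simp only; omega) (by simp only; omega)
              · omega
            · rw [hcu]
              exact Or.inr rfl
      · right
        refine ⟨Nc, co, ?_, ?_, hxN, by omega, by omega, ?_⟩
        · rw [ht]; exact h0
        · rw [ht]; exact h1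
        · rw [ht, h2]
          unfold thR
          rw [if_neg hJ, hb]
          omega
  · omega

lemma Inner.two {x : P} (h : Inner j N b θ x) {k : ℕ} (hk : 1 ≤ k) (hkx : k < lev x) :
    2 ≤ nab k x := by
  obtain ⟨Nc, co, h0, h1, hx, h2, h3, -⟩ := h
  exact chart_inner_nab h0.chart hx h2 h3 hk hkx

lemma Inner.th {x : P} (h : Inner j N b θ x) : θ (topOf x) x = lev x - 2 := by
  obtain ⟨Nc, co, h0, h1, hx, h2, h3, h4⟩ := h
  exact h4

section Twins

open Classical in
/-- the unnatural twins of level `j + 1` -/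
noncomputable def twY (j : ℕ) (N : Tops P → Finset P) : Finset P :=
  (unnat N).filter (fun z => lev z = j + 1 ∧ ∃ y, y ∉ unnat N ∧ ∀ w, y < w ↔ z < w)

open Classical in
/-- a natural element with the same strict up-set -/
noncomputable def twT (N : Tops P → Finset P) (z : P) : P :=
  if h : ∃ y, y ∉ unnat N ∧ ∀ w, y < w ↔ z < w then h.choose else z

lemma mem_twY {z : P} : z ∈ twY j N ↔ z ∈ unnat N ∧ lev z = j + 1 ∧
    ∃ y, y ∉ unnat N ∧ ∀ w, y < w ↔ z < w := by
  classical
  unfold twY
  rw [mem_filter]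

lemma twT_spec {z : P} (h : ∃ y, y ∉ unnat N ∧ ∀ w, y < w ↔ z < w) :
    twT N z ∉ unnat N ∧ ∀ w, twT N z < w ↔ z < w := by
  unfold twT
  rw [dif_pos h]
  exact h.choose_spec

theorem W1.twSys (W : W1 r j N b θ) : TwSys (unnat N) (twY j N) topOf (twT N) where
  sub := fun x hx => (mem_twY.mp hx).1
  nat := fun x hx => (twT_spec (mem_twY.mp hx).2.2).1
  up := fun x hx => (twT_spec (mem_twY.mp hx).2.2).2
  inj := by
    intro x hx x' hx' h
    have h1 := mem_twY.mp hx
    have h2 := mem_twY.mp hx'
    have h3 := twT_spec h1.2.2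
    have h4 := twT_spec h2.2.2
    by_contra hne
    have h5 : x < (topOf x : P) := lt_of_le_of_ne (le_topOf x) (by
      intro h
      have := (topOf x).2
      rw [← h] at this
      omega)
    obtain ⟨u, hu, -⟩ := Hul.exists_cov h5
    have hu' : twT N x ⋖ u := (cov_of_up h3.2).mpr hu
    have hu'' : x' ⋖ u := by
      rw [h] at hu'
      exact (cov_of_up h4.2).mp hu'
    refine Win.dc_three W.gt.H hu hu'' hu' hne ?_ ?_
    · intro h6
      exact h3.1 (h6 ▸ h1.1)
    · intro h6
      rw [h] at h6
      exact h4.1 (h6 ▸ h2.1)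
  anti := by
    intro x hx y hy h
    have h1 := mem_twY.mp hx
    have h2 := mem_twY.mp hy
    have := lev_strictAnti h
    omega
  cp := by
    intro x hx
    have h1 := mem_twY.mp hx
    have h3 := twT_spec h1.2.2
    have h5 : x < (topOf x : P) := lt_of_le_of_ne (le_topOf x) (by
      intro h
      have := (topOf x).2
      rw [← h] at this
      omega)
    have h6 : twT N x ∈ N (topOf (twT N x)) := W.natSys.mem_iff.mpr ⟨h3.1, rfl⟩
    exact (Subtype.ext (W.natSys.top_eq h6 (topOf x).2 ((h3.2 _).mpr h5).le)).symm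

lemma W1.inner_tw (W : W1 r j N b θ) {x : P} (hx : x ∈ twY j N) : Inner j N b θ (twT N x) := by
  have h1 := mem_twY.mp hx
  have h3 := twT_spec h1.2.2
  rcases W.cases h3.1 with h | h
  · exact absurd h3.2 (h.tw x h1.1)
  · exact h

/-- the sum of the excesses `lev x - i` above `z` as a cost -/
lemma cst_full (i : ℕ) (z : P) : cst i (fun w => lev w - i) z =
    ∑ w, (by classical exact if z ≤ w then lev w - i else 0) := by
  classical
  unfold cst ez
  refine Finset.sum_congr rfl fun w _ => ?_
  by_cases h : z ≤ w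
  · rw [if_pos h, if_pos h]
    have h1 : lev w ≤ lev z := by
      rcases eq_or_lt_of_le h with h | h
      · rw [h]
      · exact (lev_strictAnti h).le
    exact Nat.min_eq_right (Nat.sub_le_sub_right h1 i)
  · rw [if_neg h, if_neg h]

lemma sum_above_split (i : ℕ) (z : P) :
    ∑ w, (by classical exact if z ≤ w then lev w - i else 0) =
      (lev z - i) + ∑ w, (by classical exact if z < w then lev w - i else 0) := by
  classical
  rw [← Finset.add_sum_erase univ _ (mem_univ z), if_pos le_rfl,
    ← Finset.add_sum_erase univ (fun y => if z < y then lev y - i else 0) (mem_univ z),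
    if_neg (lt_irrefl z), zero_add]
  congr 1
  refine Finset.sum_congr rfl fun y hy => ?_
  have hne := (mem_erase.mp hy).1
  by_cases h4 : z < y
  · rw [if_pos h4, if_pos h4.le]
  · rw [if_neg h4, if_neg]
    intro h5
    exact h4 (lt_of_le_of_ne h5 (Ne.symm hne))

/-- the twins are harmless below energy `j ^ 2 + j - 1` -/
theorem W1.twinPair (W : W1 r j N b θ) {x : P} (hx : x ∈ twY j N) :
    TwinPair 1 (thX (twY j N) (twT N) (fun x => θ (topOf x) x)) (j ^ 2 + 1) (twT N x) x := by
  classical
  have T := W.twSys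
  have hj := W.two_le
  have h1 := mem_twY.mp hx
  have hI := W.inner_tw hx
  have hlev : lev (twT N x) = j + 1 := by rw [T.lev hx]; exact h1.2.1
  have hnY : twT N x ∉ twY j N := fun h => T.nat x hx (mem_twY.mp h).1
  have hth : thX (twY j N) (twT N) (fun x => θ (topOf x) x) (twT N x) = j - 1 := by
    rw [thX_not hnY, hI.th, hlev]
    omega
  have hth' : thX (twY j N) (twT N) (fun x => θ (topOf x) x) x = j - 1 := by
    rw [thX_of hx, hI.th, hlev]
    omega
  have hsq : j ^ 2 ≤ ∑ w, (if twT N x ≤ w then lev w - 1 else 0) := by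
    have h2 := sq_le_cst (i := 1) (h := fun w : P => lev w - 1) (z := twT N x) (by omega) rfl
      (fun k hk hk2 => hI.two hk.le hk2)
    rw [cst_full, hlev] at h2
    exact h2
  have hsp := sum_above_split 1 (twT N x)
  refine ⟨?_, T.up x hx, ?_, ?_, ?_, ?_, ?_⟩
  · intro h
    exact T.nat x hx (h.symm ▸ h1.1)
  · rw [hth]; omega
  · rw [hth, hth']
  · rw [hth, hlev]; omega
  · rw [hth]
    have : j ^ 2 + 1 ≤ j ^ 2 + (j - 1) := by omega
    exact this.trans (Nat.add_le_add_right hsq _)
  · rw [hth]
    have h3 : ∀ w, (if twT N x < w then min (j - 1 + 1) (lev w - 1) else 0) =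
        (if twT N x < w then lev w - 1 else 0) := by
      intro w
      split_ifs with h4
      · have := lev_strictAnti h4
        exact Nat.min_eq_right (by omega)
      · rfl
    rw [Finset.sum_congr rfl fun w _ => h3 w]
    rw [hlev] at hsp
    have h5 : ∑ w, (if twT N x ≤ w then lev w - 1 else 0) =
      (j + 1 - 1) + ∑ w, (if twT N x < w then lev w - 1 else 0) := hsp
    omega

theorem W1.farT (W : W1 r j N b θ) : FarT P 1 (unnat N \ twY j N) (lv P 1).card
    (hcan (unnat N \ twY j N) (thX (twY j N) (twT N) (fun x => θ (topOf x) x))) (j ^ 2 + 1) := by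
  choose B hB using fun t => (W.typ t).natTop W.gt.H.gradedBelow
  have h := farT_of_tops W.gt.H.gradedBelow hB W.twSys (j ^ 2 + 1) (fun x hx => W.twinPair hx)
  rw [W.sum_b] at h
  exact h

end Twins

end Pool.Agent.GaussPoset

end

/-! From `Pool.Agent.W_448rr_h67.RrD` -/

section

/-!
# Rectangle-like components at window 1 (MP_448cb3_co): the boundary, no rotation
-/

namespace Pool.Agent.GaussPoset

set_option linter.unusedSectionVars false

open Polynomial Finset

universe u

variable {P : Type u} [Fintype P] [PartialOrder P] [DecidableEq P] {r j : ℕ}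
  {N : Tops P → Finset P} {b : Tops P → ℕ} {θ : Tops P → P → ℕ}

/-- the elements above `z` when `z` has the two covers `x`, `x'` -/
lemma nab_le_add {z x x' : P} (h : ∀ y, z ⋖ y → y = x ∨ y = x') {k : ℕ} (hk : k < lev z) :
    nab k z ≤ nab k x + nab k x' := by
  classical
  unfold nab
  refine le_trans (Finset.card_le_card ?_) (Finset.card_union_le _ _)
  intro y hy
  rw [mem_filter, mem_lv] at hy
  rw [mem_union, mem_filter, mem_filter, mem_lv]
  have hne : z ≠ y := by rintro rfl; omega
  obtain ⟨v, hv, hvy⟩ := Hul.exists_cov (lt_of_le_of_ne hy.2 hne)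
  rcases h v hv with h1 | h1
  · rw [h1] at hvy
    exact Or.inl ⟨hy.1, hvy⟩
  · rw [h1] at hvy
    exact Or.inr ⟨hy.1, hvy⟩

/-- the elements above twins -/
lemma nab_le_of_up {x z : P} (h : ∀ w, x < w ↔ z < w) {k : ℕ} (hk : k < lev x) :
    nab k x ≤ nab k z := by
  classical
  unfold nab
  refine Finset.card_le_card fun y hy => ?_
  rw [mem_filter, mem_lv] at hy ⊢
  have hne : x ≠ y := by rintro rfl; omega
  exact ⟨hy.1, ((h y).mp (lt_of_le_of_ne hy.2 hne)).le⟩

/-- the rotations of level `j + 1`: below the two straight ends -/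
def Rt (j : ℕ) (N : Tops P → Finset P) (b : Tops P → ℕ) (z : P) : Prop :=
  ∃ (Nc : Finset P) (co : P → ℕ × ℕ) (x x' : P), RectNat j 1 (topOf z) (b (topOf z)) Nc co ∧
    N (topOf z) = natR Nc co ∧ x ∈ Nc ∧ x' ∈ Nc ∧ z ⋖ x ∧ z ⋖ x' ∧ co x = (0, j) ∧ co x' = (j, 0)

/-- an element of level `j + 1` which is neither natural nor a twin is a rotation -/
theorem W1.rt_of (W : W1 r j N b θ) {z : P} (hz : z ∈ unnat N) (hl : lev z = j + 1)
    (hY : z ∉ twY j N) : Rt j N b z := by
  classical
  have H := W.gt.H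
  have HN := W.natSys
  have hj := W.two_le
  have hone : z ∈ onlyB (topOf z) := by
    rw [mem_onlyB]
    intro s hs hzs
    by_contra hne
    exact W.nojn z hl ⟨s, topOf z, hs, (topOf z).2, hne, hzs, le_topOf z⟩
  have hne : N (topOf z) ≠ onlyB (topOf z) := fun h => mem_unnat.mp hz (topOf z) (h ▸ hone)
  rcases W.typ (topOf z) with ⟨h1, h2, h3, h4, h5, h6⟩ | ⟨Nc, co, h0, h1, h2, h4⟩ |
    ⟨Nc, co, h0, h1, h2, h3, h4, h5⟩
  · exact absurd h1 hne
  · -- the covers of `z`
    have hcov : ∀ y, z ⋖ y → lev y = j ∧ y ∈ Nc := by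
      intro y hy
      have e1 := (H.covBy_iff.mp hy).2
      have e2 : lev y = j := by omega
      refine ⟨e2, h0.strip (mem_lowPart.mpr ⟨?_, e2.le⟩)⟩
      have e3 := (mem_onlyB.mp hone) (topOf y) (topOf y).2 (hy.1.le.trans (le_topOf y))
      rw [← e3]
      exact le_topOf y
    have hzt : z < (topOf z : P) := lt_of_le_of_ne (le_topOf z) (by
      intro h
      have := (topOf z).2
      rw [← h] at this
      omega)
    obtain ⟨x, hzx, hxt⟩ := Hul.exists_cov hzt
    obtain ⟨hlx, hx⟩ := hcov x hzx
    have hcl := h0.chart.lev x hx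
    by_cases honly : ∀ y, z ⋖ y → y = x
    · exfalso
      have hp := rect_pendant H h0 h1 hz (x := x) (by rw [h1]; exact mem_natR.mpr (Or.inl hx))
        hzx honly
      exact W.nopen (topOf z) hne x z hxt hlx
        (chart_inner_uc h0.chart H hx hp.2.2.2.1 hp.2.2.2.2) hzx honly
    · push Not at honly
      obtain ⟨x', hzx', hne'⟩ := honly
      obtain ⟨hlx', hx'⟩ := hcov x' hzx'
      have hcl' := h0.chart.lev x' hx'
      obtain ⟨i, rfl⟩ : ∃ i, j = i + 1 := ⟨j - 1, by omega⟩
      rcases (Win.near_level' W.gt (by omega)).1 z x x' (by omega) hzx hzx' (Ne.symm hne') with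
        h7 | ⟨h7, h8, -⟩
      · -- adjacent: a twin
        exfalso
        obtain ⟨p, hp⟩ := Finset.card_eq_one.mp h7
        have hp2 : x ⋖ p ∧ x' ⋖ p := by
          have : p ∈ (univ.filter (fun y : P => x ⋖ y ∧ x' ⋖ y)) := by rw [hp]; simp
          simpa using this
        have hpN := h0.chart.up x hx p hp2.1.le
        have e1 := (chart_cov h0.chart H hx hpN).mp hp2.1
        have e2 := (chart_cov h0.chart H hx' hpN).mp hp2.2
        have hcne : co x ≠ co x' := fun h => hne' (h0.chart.inj x hx x' hx' h).symm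
        have key : ∀ x x' : P, x ∈ Nc → x' ∈ Nc → z ⋖ x → z ⋖ x' →
            co x = ((co p).1 + 1, (co p).2) → co x' = ((co p).1, (co p).2 + 1) → False := by
          intro x x' hx hx' hzx hzx' hcx hcx'
          obtain ⟨y, hy, -, hyx, hyx', hyz⟩ := max_pair h0.chart h0.max H (z := z) (by
            intro h
            refine mem_unnat.mp hz (topOf z) ?_
            rw [h1]
            exact mem_natR.mpr (Or.inl h)) hx hx' hzx hzx' hcx hcx' trivial
          have hxx' : x ≠ x' := by
            rintro rfl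
            rw [hcx] at hcx'
            simp at hcx'
          refine hY (mem_twY.mpr ⟨hz, hl, y, ?_, up_of_cov fun w => ?_⟩)
          · refine (HN.mem_iff (t := topOf z).mp ?_).1
            rw [h1]
            exact mem_natR.mpr (Or.inl hy)
          · constructor
            · intro h
              by_cases g1 : w = x
              · rw [g1]; exact hzx
              · by_cases g2 : w = x'
                · rw [g2]; exact hzx'
                · exact (Win.uc_three H h hyx hyx' g1 g2 hxx').elim
            · intro h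
              by_cases g1 : w = x
              · rw [g1]; exact hyx
              · by_cases g2 : w = x'
                · rw [g2]; exact hyx'
                · exact (Win.uc_three H h hzx hzx' g1 g2 hxx').elim
        rcases e1 with e1 | e1
        · rcases e2 with e2 | e2
          · exact hcne (Prod.ext (by omega) (by omega))
          · exact key x x' hx hx' hzx hzx' (Prod.ext e1.1 e1.2) (Prod.ext e2.1 e2.2)
        · rcases e2 with e2 | e2
          · exact key x' x hx' hx hzx' hzx (Prod.ext e2.1 e2.2) (Prod.ext e1.1 e1.2)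
          · exact hcne (Prod.ext (by omega) (by omega))
      · -- both single-up
        have key : ∀ x ∈ Nc, (Win.uc x).card = 1 → (co x).1 = 0 ∨ (co x).2 = 0 := by
          intro x hx h
          by_contra hcon
          have := chart_inner_uc h0.chart H hx (by omega) (by omega)
          omega
        have hcne : co x ≠ co x' := fun h => hne' (h0.chart.inj x hx x' hx' h).symm
        rcases key x hx h7 with e1 | e1
        · have f1 : co x = (0, i + 1) := Prod.ext e1 (by simp only; omega)
          rcases key x' hx' h8 with e2 | e2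
          · have f2 : co x' = (0, i + 1) := Prod.ext e2 (by simp only; omega)
            exact absurd (f1.trans f2.symm) hcne
          · have f2 : co x' = (i + 1, 0) := Prod.ext (by simp only; omega) e2
            exact ⟨Nc, co, x, x', h0, h1, hx, hx', hzx, hzx', f1, f2⟩
        · have f1 : co x = (i + 1, 0) := Prod.ext (by simp only; omega) e1
          rcases key x' hx' h8 with e2 | e2
          · have f2 : co x' = (0, i + 1) := Prod.ext e2 (by simp only; omega)
            exact ⟨Nc, co, x', x, h0, h1, hx', hx, hzx', hzx, f2, f1⟩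
          · have f2 : co x' = (i + 1, 0) := Prod.ext (by simp only; omega) e2
            exact absurd (f1.trans f2.symm) hcne
  · omega

end Pool.Agent.GaussPoset

end

/-! From `Pool.Agent.W_448rr_h67.RrE` -/

section

/-!
# No rotation in a rectangle-like component (MP_448cb3_co)
-/

namespace Pool.Agent.GaussPoset

set_option linter.unusedSectionVars false

open Polynomial Finset

universe u

variable {P : Type u} [Fintype P] [PartialOrder P] [DecidableEq P] {r j : ℕ}
  {N : Tops P → Finset P} {b : Tops P → ℕ} {θ : Tops P → P → ℕ}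

/-- the set outside which everything is natural or a twin -/
noncomputable abbrev r2 (j : ℕ) (N : Tops P → Finset P) : Finset P := unnat N \ twY j N

/-- the labels -/
noncomputable abbrev h2 (j : ℕ) (N : Tops P → Finset P) (θ : Tops P → P → ℕ) : P → ℕ :=
  hcan (r2 j N) (thX (twY j N) (twT N) (fun x => θ (topOf x) x))

/-- the boundary: level `j + 1` or large cost -/
theorem W1.bd (W : W1 r j N b θ) {z : P} (hz : z ∈ bdR (r2 j N)) :
    lev z = j + 1 ∨ j ^ 2 + 1 ≤ cst 1 (h2 j N θ) z := by
  classical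
  have H := W.gt.H
  have hj := W.two_le
  have T := W.twSys
  have hzR : z ∈ unnat N := (mem_sdiff.mp (mem_filter.mp hz).1).1
  have hlz := W.lt_lev hzR
  by_cases hl : lev z = j + 1
  · exact Or.inl hl
  right
  obtain ⟨u, hu, hzu, hh⟩ := hcan_spec (θ := thX (twY j N) (twT N) (fun x => θ (topOf x) x)) hz
  have hlu := (H.covBy_iff.mp hzu).2
  have hbig : ∀ a, j ≤ a → j ^ 2 + 1 ≤ (a + 1) * a := by
    intro a ha
    nlinarith
  by_cases huY : u ∈ twY j N
  · have hI := W.inner_tw huY
    have h1 := mem_twY.mp huY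
    rw [thX_of huY, hI.th, T.lev huY] at hh
    have h3 := cst_ge_sq_sub (i := 1) (h := h2 j N θ) (z := z) (by omega)
      (by show h2 j N θ z = _; rw [show h2 j N θ z = _ from hh]; omega) (by
        intro k hk hk2
        refine le_trans ?_ (nab_mono hzu.le)
        refine le_trans (hI.two (k := k) hk.le (by rw [T.lev huY]; omega)) ?_
        exact nab_le_of_up (T.up u huY) (by rw [T.lev huY]; omega))
    refine le_trans ?_ h3
    have := hbig (lev z - 1 - 1) (by omega)
    rw [show lev z - 1 - 1 + 1 = lev z - 1 by omega] at this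
    exact this
  · have huR : u ∉ unnat N := fun h => hu (mem_sdiff.mpr ⟨h, huY⟩)
    rw [thX_not huY] at hh
    rcases W.cases huR with hF | hI
    · rw [hF.th] at hh
      have h3 := sq_le_cst (i := 1) (h := h2 j N θ) (z := z) (by omega)
        (by show h2 j N θ z = _; rw [show h2 j N θ z = _ from hh]; omega) (by
          intro k hk hk2
          exact hF.two z hzR hzu.le k hk.le (by omega))
      refine le_trans ?_ h3
      have := hbig (lev z - 1 - 1) (by omega)
      rw [show lev z - 1 - 1 + 1 = lev z - 1 by omega] at this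
      refine this.trans ?_
      rw [pow_two]
      exact Nat.mul_le_mul_left _ (Nat.sub_le _ _)
    · rw [hI.th] at hh
      have h3 := cst_ge_sq_sub (i := 1) (h := h2 j N θ) (z := z) (by omega)
        (by show h2 j N θ z = _; rw [show h2 j N θ z = _ from hh]; omega) (by
          intro k hk hk2
          refine le_trans (hI.two (k := k) hk.le (by omega)) (nab_mono hzu.le))
      refine le_trans ?_ h3
      have := hbig (lev z - 1 - 1) (by omega)
      rw [show lev z - 1 - 1 + 1 = lev z - 1 by omega] at this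
      exact this

/-- rotations are boundary elements -/
theorem W1.rt_bd (W : W1 r j N b θ) {z : P} (hl : lev z = j + 1) (hR : Rt j N b z) :
    z ∈ bdR (r2 j N) := by
  classical
  have H := W.gt.H
  have HN := W.natSys
  obtain ⟨Nc, co, x, x', h0, h1, hx, hx', hzx, hzx', hcx, hcx'⟩ := hR
  have hj := W.two_le
  have hnat : ∀ y : P, y ∉ unnat N → topOf y = topOf z → y ⋖ x → y ⋖ x' → False := by
    intro y hy ht hyx hyx'
    have h2 := HN.mem_iff.mpr ⟨hy, ht⟩
    rw [h1] at h2
    exact chart_rot h0.chart H hj hx hx' hcx hcx' hyx hyx' h2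
  have hz : z ∈ unnat N := by
    by_contra hcon
    exact hnat z hcon rfl hzx hzx'
  have hzY : z ∉ twY j N := by
    intro hY
    exact hnat _ (W.twSys.nat z hY) (W.twSys.cp z hY) ((W.twSys.cov hY).mpr hzx)
      ((W.twSys.cov hY).mpr hzx')
  refine mem_filter.mpr ⟨mem_sdiff.mpr ⟨hz, hzY⟩, x, fun h => ?_, hzx⟩
  have h3 := W.lt_lev (mem_sdiff.mp h).1
  have h4 := h0.chart.lev x hx
  rw [hcx] at h4
  simp only at h4
  omega

/-- label and numbers of elements above a rotation -/
theorem W1.rt_data (W : W1 r j N b θ) {z : P} (hl : lev z = j + 1) (hR : Rt j N b z) :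
    h2 j N θ z = j ∧ ∀ k, 1 ≤ k → k ≤ j → nab k z = 2 := by
  classical
  have H := W.gt.H
  have HN := W.natSys
  have hbd := W.rt_bd hl hR
  have hz : z ∈ unnat N := (mem_sdiff.mp (mem_filter.mp hbd).1).1
  obtain ⟨Nc, co, x, x', h0, h1, hx, hx', hzx, hzx', hcx, hcx'⟩ := hR
  have hj := W.two_le
  have hlx : lev x = j := by
    have h4 := h0.chart.lev x hx
    rw [hcx] at h4
    simp only at h4
    omega
  have hlx' : lev x' = j := by
    have h4 := h0.chart.lev x' hx'
    rw [hcx'] at h4
    simp only at h4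
    omega
  have hne : x ≠ x' := by
    rintro rfl
    rw [hcx] at hcx'
    simp only [Prod.mk.injEq] at hcx'
    omega
  have huni : ∀ y, z ⋖ y → y = x ∨ y = x' := by
    intro y hy
    by_contra hcon
    push Not at hcon
    exact Win.uc_three H hy hzx hzx' hcon.1 hcon.2 hne
  have hnx : ∀ k ≤ j, nab k x = 1 := by
    intro k hk
    rw [nab_chart h0.chart hx k, hcx]
    have := card_cellsAt_true (l := k) (p := (0, j)) (by simp only; omega)
    simp only at this
    omega
  have hnx' : ∀ k ≤ j, nab k x' = 1 := by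
    intro k hk
    rw [nab_chart h0.chart hx' k, hcx']
    have := card_cellsAt_true (l := k) (p := (j, 0)) (by simp only; omega)
    simp only at this
    omega
  constructor
  · obtain ⟨u, hu, hzu, hh⟩ := hcan_spec (θ := thX (twY j N) (twT N) (fun x => θ (topOf x) x)) hbd
    have hlu : lev u = j := by
      rcases huni u hzu with h | h
      · rw [h]; exact hlx
      · rw [h]; exact hlx'
    have huY : u ∉ twY j N := by
      intro h
      have := (mem_twY.mp h).2.1
      omega
    have huR : u ∉ unnat N := W.low hlu.le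
    rw [thX_not huY] at hh
    have h5 : θ (topOf u) u = lev u - 1 := by
      rcases W.cases huR with hF | hI
      · exact hF.th
      · exfalso
        have h6 := hI.two (k := 1) le_rfl (by omega)
        rcases huni u hzu with h | h
        · rw [h, hnx 1 (by omega)] at h6
          omega
        · rw [h, hnx' 1 (by omega)] at h6
          omega
    rw [h5, hlu] at hh
    show h2 j N θ z = j
    rw [show h2 j N θ z = _ from hh]
    omega
  · intro k hk hkj
    have h6 := nab_le_add huni (k := k) (by omega)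
    rw [hnx k hkj, hnx' k hkj] at h6
    have h7 := rect_two_le_nab H h0 h1 hz hzx.le (Or.inr (Or.inr ⟨hx, Or.inl (by rw [hcx])⟩)) hk
      (by omega)
    omega

theorem W1.rt_cst (W : W1 r j N b θ) {z : P} (hl : lev z = j + 1) (hR : Rt j N b z) :
    cst 1 (h2 j N θ) z = j ^ 2 := by
  obtain ⟨h3, h4⟩ := W.rt_data hl hR
  have hj := W.two_le
  rw [cst_eq, h3, hl, Finset.sum_range_succ]
  have h5 : ∑ k ∈ range (j + 1), min j (k - 1) * nab k z = ∑ k ∈ range (1 + (j - 1) + 1),
      (k - 1) * 2 := by
    rw [show 1 + (j - 1) + 1 = j + 1 by omega]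
    refine Finset.sum_congr rfl fun k hk => ?_
    rw [mem_range] at hk
    rcases Nat.eq_zero_or_pos k with h0 | h0
    · subst h0
      simp
    · rw [h4 k h0 (by omega), Nat.min_eq_right (by omega)]
  rw [h5, sum_two, ← hl, nab_self, hl, Nat.add_sub_cancel, Nat.min_self]
  obtain ⟨i, rfl⟩ : ∃ i, j = i + 1 := ⟨j - 1, by omega⟩
  rw [Nat.add_sub_cancel]
  ring

theorem W1.rt_nst (W : W1 r j N b θ) {z : P} (hl : lev z = j + 1) (hR : Rt j N b z) :
    nst 1 (h2 j N θ) z = 2 * j := by
  obtain ⟨h3, h4⟩ := W.rt_data hl hR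
  rw [nst_eq, h3, Finset.sum_congr rfl (g := fun _ => 2)]
  · simp [Nat.mul_comm]
  · intro k hk
    rw [mem_range] at hk
    exact h4 _ (by omega) (by omega)

/-- no rotation -/
theorem W1.no_rt (W : W1 r j N b θ) {z : P} (hl : lev z = j + 1) (hR : Rt j N b z) : False := by
  classical
  have hj := W.two_le
  have F := W.farT
  have hrt : ∀ y ∈ bdR (r2 j N), lev y = j + 1 → Rt j N b y := by
    intro y hy hly
    have h3 := mem_sdiff.mp (mem_filter.mp hy).1
    exact W.rt_of h3.1 hly h3.2
  have hcost : ∀ y ∈ bdR (r2 j N), j ^ 2 ≤ cst 1 (h2 j N θ) y := by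
    intro y hy
    rcases W.bd hy with h | h
    · exact (W.rt_cst h (hrt y hy h)).ge
    · omega
  have hd := F.dvd_lead (n := j ^ 2) (by omega) hcost
  have hZ := dvd_Z W.gt.H.gauss 1 (j ^ 2)
  set T := (bdR (r2 j N)).filter (fun z => cst 1 (h2 j N θ) z = j ^ 2) with hT
  have hTr : ∀ y ∈ T, lev y = j + 1 ∧ Rt j N b y := by
    intro y hy
    rw [hT, mem_filter] at hy
    rcases W.bd hy.1 with h | h
    · exact ⟨h, hrt y hy.1 h⟩
    · omega
  have hTe : ∀ y ∈ T, nab 1 y = 2 ∧ nab (1 + h2 j N θ y) y = 1 := by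
    intro y hy
    obtain ⟨h3, h4⟩ := hTr y hy
    obtain ⟨h5, h6⟩ := W.rt_data h3 h4
    refine ⟨h6 1 le_rfl (by omega), ?_⟩
    rw [h5, Nat.add_comm, ← h3]
    exact nab_self
  have hzT : z ∈ T := by
    rw [hT, mem_filter]
    exact ⟨W.rt_bd hl hR, W.rt_cst hl hR⟩
  have hcard : 2 ≤ (lv P 1).card := by
    have h3 := (hTe z hzT).1
    unfold nab at h3
    rw [← h3]
    exact Finset.card_filter_le _ _
  have hs := sign_sum_of_dvd T hZ hd (c0 := (lv P 1).card - 1) (by omega) (by
    intro y hy
    obtain ⟨h3, h4⟩ := hTe y hy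
    rw [h3, h4]
    omega)
  have hTf : T.filter (fun y => (lv P 1).card - 1 + nab 1 y =
      (lv P 1).card + nab (1 + h2 j N θ y) y) = T := by
    refine Finset.filter_true_of_mem fun y hy => ?_
    obtain ⟨h3, h4⟩ := hTe y hy
    rw [h3, h4]
    omega
  rw [hTf, Finset.sum_congr rfl (g := fun _ => (1 : ℤ))] at hs
  · rw [Finset.sum_const, nsmul_eq_mul, mul_one] at hs
    have : T.card = 0 := by exact_mod_cast hs
    rw [Finset.card_eq_zero] at this
    rw [this] at hzT
    exact absurd hzT (Finset.notMem_empty z)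
  · intro y hy
    obtain ⟨h3, h4⟩ := hTr y hy
    rw [W.rt_nst h3 h4, pow_mul]
    norm_num

section Final

variable {lo hi : Tops P → ℕ → ℕ} {e : Tops P → ℕ → ℕ → P}

/-- the context from the strips -/
theorem exists_W1 (h : Win.GoodTo P r j) (hj : 2 ≤ j)
    (hno : ∀ z : P, lev z = j + 1 → ¬ Hul.Jn z)
    (C : ∀ t : Tops P, Cp.Comp j (t : P) (lo t) (hi t) (e t))
    (hT : ∀ t : Tops P, lo t 1 = hi t 1 ∨ RectShape j (lo t) (hi t)) :
    ∃ N θ, W1 r j N (fun t => hi t 1 - lo t 1 + 1) θ := by
  choose N θ hty using fun t => exists_type h.H h.good (C t) (i := 1) (by omega)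
    ((hT t).elim Or.inl fun h => Or.inr (Or.inl h))
  refine ⟨N, θ, h, hj, hno, hty, ?_, ?_⟩
  · intro t hNt x z hxt hlx hx2 hzx honly
    have hne : lo t 1 ≠ hi t 1 := by
      intro heq
      have h1 := hty t
      rw [heq, Nat.sub_self] at h1
      rcases h1 with ⟨h1, h2, h3, h4, h5, h6⟩ | ⟨Nc, co, h0, h1, h2, h4⟩ |
        ⟨Nc, co, h0, h1, h2, h3, h4, h5⟩
      · exact hNt h1
      · have := h0.b_two
        omega
      · omega
    obtain ⟨i, rfl⟩ : ∃ i, j = i + 1 := ⟨j - 1, by omega⟩
    exact rectShape_no_pendant h (by omega) t.2 (C t) ((hT t).resolve_left hne) hlx hxt hx2 hzx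
      honly
  · exact (card_level h.H h.good C (i := 1) (by omega)).symm

/-- two covers of a natural element of a rectangle-like chart have a common cover -/
lemma natR_two_covers {t : P} {Nc : Finset P} {co : P → ℕ × ℕ}
    (C : Chart t (fun _ => True) Nc co) (H : Gr P r) {x x' z : P} (hx : x ∈ Nc) (hx' : x' ∈ Nc)
    (hzx : z ⋖ x) (hzx' : z ⋖ x') (hne : x ≠ x') (hz : z ∈ natR Nc co) :
    ∃ p, x ⋖ p ∧ x' ⋖ p := by
  have hcl := C.lev x hx
  have hcl' := C.lev x' hx'
  have hlx := (H.covBy_iff.mp hzx).2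
  have hlx' := (H.covBy_iff.mp hzx').2
  have key : ∀ (co : P → ℕ × ℕ), Chart t (fun _ => True) Nc co →
      z ∉ junk (fun _ => True) Nc co := by
    intro co C hzJ
    have hcl := C.lev x hx
    have hcl' := C.lev x' hx'
    obtain ⟨x1, H1, hz1⟩ := mem_junk.mp hzJ
    rw [mem_jset] at hz1
    have h1 : ∀ y, z ⋖ y → y = x1 ∨ y < x1 := by
      intro y hy
      rcases hz1.2 y hy.1.le with h | h
      · exact eq_or_lt_of_le h
      · rcases eq_or_lt_of_le h with h | h
        · exact Or.inl h.symm
        · exact absurd h (hy.2 hz1.1)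
    rcases h1 x hzx with h | h
    · rcases h1 x' hzx' with h' | h'
      · exact hne (h.trans h'.symm)
      · have := lev_strictAnti h'
        rw [← h] at this
        omega
    · rcases h1 x' hzx' with h' | h'
      · have := lev_strictAnti h
        rw [← h'] at this
        omega
      · have e1 := (H1.tail C hx h).1
        have e2 := (H1.tail C hx' h').1
        exact hne (C.inj x hx x' hx' (Prod.ext (by omega) (by omega)))
  rw [mem_natR] at hz
  rcases hz with h | h | h
  · have e1 := (chart_cov C H h hx).mp hzx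
    have e2 := (chart_cov C H h hx').mp hzx'
    have hcne : co x ≠ co x' := fun h => hne (C.inj x hx x' hx' h)
    have hin : 1 ≤ (co z).1 ∧ 1 ≤ (co z).2 := by
      rcases e1 with e1 | e1
      · rcases e2 with e2 | e2
        · exact absurd (Prod.ext (by omega) (by omega)) hcne
        · omega
      · rcases e2 with e2 | e2
        · omega
        · exact absurd (Prod.ext (by omega) (by omega)) hcne
    obtain ⟨p, hp, hcp⟩ := C.low z h ((co z).1 - 1, (co z).2 - 1)
      ⟨Nat.sub_le _ _, Nat.sub_le _ _⟩ trivial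
    refine ⟨p, ?_, ?_⟩
    · rw [chart_cov C H hx hp, hcp]
      rcases e1 with e1 | e1
      · exact Or.inr ⟨by simp only; omega, by simp only; omega⟩
      · exact Or.inl ⟨by simp only; omega, by simp only; omega⟩
    · rw [chart_cov C H hx' hp, hcp]
      rcases e2 with e2 | e2
      · exact Or.inr ⟨by simp only; omega, by simp only; omega⟩
      · exact Or.inl ⟨by simp only; omega, by simp only; omega⟩
  · exact absurd h (key co C)
  · exact absurd h (key _ C.swap)

/-- **No rotation in a rectangle-like component.**  All levels less than `j` are good, `2 ≤ j`, no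
element of level `j + 1` is below two maximal elements, every strip is light at level `1` or
rectangle-like down to level `j`.  Then two covers of an element of level `j + 1` below a
rectangle-like top are neighbours: they have exactly one common cover. -/
theorem rect_no_rotation (h : Win.GoodTo P r j) (hj : 2 ≤ j)
    (hno : ∀ z : P, lev z = j + 1 → ¬ Hul.Jn z)
    (C : ∀ t : Tops P, Cp.Comp j (t : P) (lo t) (hi t) (e t))
    (hT : ∀ t : Tops P, lo t 1 = hi t 1 ∨ RectShape j (lo t) (hi t)) {t : Tops P}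
    (ht : lo t 1 ≠ hi t 1) {z x x' : P} (hz : lev z = j + 1) (hzt : z ≤ (t : P)) (hzx : z ⋖ x)
    (hzx' : z ⋖ x') (hne : x ≠ x') : ucv x x' = 1 := by
  classical
  obtain ⟨N, θ, W⟩ := exists_W1 h hj hno C hT
  have H := h.H
  have HN := W.natSys
  obtain ⟨i, rfl⟩ : ∃ i, j = i + 1 := ⟨j - 1, by omega⟩
  rcases (Win.near_level' h (by omega)).1 z x x' hz hzx hzx' hne with h1 | ⟨h1, h2, h3⟩
  · exact h1
  exfalso
  have hzt' : topOf z = t := by
    by_contra hcon
    exact hno z hz ⟨topOf z, t, (topOf z).2, t.2, fun h => hcon (Subtype.ext h), le_topOf z, hzt⟩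
  have hnc : ∀ y : P, y ∉ unnat N → topOf y = t → y ⋖ x → y ⋖ x' → False := by
    intro y hy hyt hyx hyx'
    have hyN := HN.mem_iff.mpr ⟨hy, hyt⟩
    rcases W.typ t with ⟨g1, g2, g3, g4, g5, g6⟩ | ⟨Nc, co, g0, g1, g2, g4⟩ |
      ⟨Nc, co, g0, g1, g2, g3, g4, g5⟩
    · have e1 := (C t).lo_le 1 (by omega)
      omega
    · rw [g1] at hyN
      have hlx := (H.covBy_iff.mp hzx).2
      have hlx' := (H.covBy_iff.mp hzx').2
      have hxN : ∀ x : P, z ⋖ x → x ∈ Nc := by
        intro x hzx
        have hlx := (H.covBy_iff.mp hzx).2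
        refine g0.strip (mem_lowPart.mpr ⟨?_, by omega⟩)
        have h5 : topOf x = t := by
          by_contra hcon
          exact hno z hz ⟨topOf x, t, (topOf x).2, t.2, fun h => hcon (Subtype.ext h),
            hzx.1.le.trans (le_topOf x), hzt⟩
        rw [← h5]
        exact le_topOf x
      obtain ⟨p, hp, hp'⟩ := natR_two_covers g0.chart H (hxN x hzx) (hxN x' hzx') hyx hyx' hne hyN
      unfold ucv at h3
      rw [Finset.card_eq_zero] at h3
      have : p ∈ (univ.filter (fun y : P => x ⋖ y ∧ x' ⋖ y)) := by simp [hp, hp']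
      rw [h3] at this
      exact absurd this (Finset.notMem_empty p)
    · omega
  have hzR : z ∈ unnat N := by
    by_contra hcon
    exact hnc z hcon hzt' hzx hzx'
  have hzY : z ∉ twY (i + 1) N := by
    intro hY
    refine hnc _ (W.twSys.nat z hY) ?_ ((W.twSys.cov hY).mpr hzx) ((W.twSys.cov hY).mpr hzx')
    rw [W.twSys.cp z hY, hzt']
  exact W.no_rt hz (W.rt_of hzR hz hzY)

end Final

end Pool.Agent.GaussPoset

end

/-! From `Pool.Agent.W_448rr_h67.RrG` -/

section

/-!
# Which letters are needed for an inner element with two lost edges (MP_448cb3_co)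

An inner element of the first bad level which shares no child with its two neighbours has a pendant
(S6), hence the strip has the letters C, O at one end (S5).  Consequences for the patterns (7) (T) and
(8) (Q) of `PcPat`, and for stair-like components.
-/

namespace Pool.Agent.GaussPoset

set_option linter.unusedSectionVars false

open Finset

universe u

variable {P : Type u} [Fintype P] [PartialOrder P] [DecidableEq P] {r i : ℕ}

section Letters

variable {t : P} {lo hi : ℕ → ℕ} {x : ℕ → ℕ → P} {c : ℕ → ℤ} {β : ℤ}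

end Letters

section Stair

open Cp

variable {t : P} {lo hi : ℕ → ℕ} {e : ℕ → ℕ → P}

/-- letters of a stair-like strip -/
lemma stairShape_co (C : Comp (i + 1) t lo hi e) (S : StairShape (i + 1) lo hi) :
    ¬ Win.LCO lo hi i ∧ (Win.RCO lo hi i → hi (i + 1) = hi i) := by
  constructor
  · rintro ⟨h1, h2, h3, h4⟩
    have h5 := S.lo (i - 1) (by omega)
    rw [Nat.sub_add_cancel (by omega)] at h5
    omega
  · rintro ⟨h1, h2, h3, h4⟩
    rw [S.hi (i + 1) le_rfl]
    rw [S.hi (i - 1) (by omega), S.hi (i - 2) (by omega)] at h2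
    rw [S.hi i (by omega)]
    omega

end Stair

end Pool.Agent.GaussPoset

end

/-! From `Pool.Agent.W_448s7_h5.SevH` -/

section

/-!
# Types of the strips with the positions of the pendants (MP_448cb3_co, S7)
-/

namespace Pool.Agent.GaussPoset

set_option linter.unusedSectionVars false

open Polynomial Finset

universe u

variable {P : Type u} [Fintype P] [PartialOrder P] [DecidableEq P] {r j : ℕ}

section Shape

open Cp

variable {i : ℕ} {t : P} {lo hi : ℕ → ℕ} {e : ℕ → ℕ → P}

/-- the pendants below the doubles of the last good level of a stair-like strip -/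
theorem stairShape_pendant (h : Win.GoodTo P r (i + 1)) (hi1 : 1 ≤ i) (ht : lev t = 0)
    (C : Comp (i + 1) t lo hi e) (S : StairShape (i + 1) lo hi) {x z : P} (hx : lev x = i + 1)
    (hxt : x ≤ t) (hx2 : (Win.uc x).card = 2) (hzx : z ⋖ x) (honly : ∀ y, z ⋖ y → y = x) :
    (ccoord lo hi e x).2 = (ccoord lo hi e x).1 + 1 ∨
      (ccoord lo hi e x).2 = (ccoord lo hi e x).1 + 3 := by
  classical
  obtain ⟨n1, n2⟩ := stairShape_co C S
  obtain ⟨s, h1, h2, h3⟩ := C.surj x hxt (by omega)
  rw [hx] at h1 h2 h3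
  have hS := (Win.near_level' h hi1).2 t lo hi e ht C.toWin
  have h4 := C.toWin.uc_two h ht (k := i) (by omega) h1 h2
  rw [h3] at h4
  have h5 := h4.mp hx2
  have h6 : (Win.uc z).card = 1 := by
    rw [Finset.card_eq_one]
    refine ⟨x, ?_⟩
    ext y
    rw [Win.mem_uc, mem_singleton]
    exact ⟨honly y, fun h => h ▸ hzx⟩
  have h7 : z ∈ Win.pen (e (i + 1) s) := by
    rw [Win.mem_pen, h3]
    exact ⟨hzx, h6⟩
  have hne : (Win.pen (e (i + 1) s)).card ≠ 0 := by
    intro h0
    rw [Finset.card_eq_zero] at h0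
    rw [h0] at h7
    exact absurd h7 (Finset.notMem_empty _)
  have hs : scoord lo hi e x = s := by
    have := scoord_e C (k := i + 1) (s := s) le_rfl h1 h2
    rw [h3] at this
    exact this
  have hcc : ccoord lo hi e x = (s, i + 1 - s) := by
    unfold ccoord
    rw [hs, hx]
  have hRs : Win.RCO lo hi i → (s = hi i ∨ s + 1 = hi i) → (ccoord lo hi e x).2 =
      (ccoord lo hi e x).1 + 1 ∨ (ccoord lo hi e x).2 = (ccoord lo hi e x).1 + 3 := by
    intro hR hs'
    have e1 := n2 hR
    have e2 := S.hi (i + 1) le_rfl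
    have e3 := S.hi i (by omega)
    rw [hcc]
    show i + 1 - s = s + 1 ∨ i + 1 - s = s + 3
    omega
  rcases hS with ⟨-, -, h8⟩ | ⟨h8, -⟩ | ⟨h8, -, b, hb, h9⟩
  · exact absurd (h8 s h5.1 h5.2) hne
  · exact absurd h8 n1
  · have h10 := h9 s h5.1 h5.2
    have h11 : s = b := by
      by_contra hcon
      rw [if_neg hcon] at h10
      exact hne h10
    exact hRs h8 (by omega)

end Shape

/-- the types of strips, with the positions of the pendants below the doubles of level `j` -/
inductive TypeX (j i : ℕ) (t : Tops P) (b : ℕ) (N : Finset P) (θ : P → ℕ) : Prop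
  | light (h1 : N = onlyB t) (h2 : θ = fun x => lev x - i) (h3 : b = 1)
      (h5 : ∀ x, x ≤ (t : P) → lev x ≤ j → x ∈ onlyB t)
  | rect (Nc : Finset P) (co : P → ℕ × ℕ) (h0 : RectNat j i t b Nc co) (h1 : N = natR Nc co)
      (h2 : θ = thR i b Nc co)
      (pen : ∀ x z, x ≤ (t : P) → lev x = j → (Win.uc x).card = 2 → z ⋖ x →
        ¬ ∀ y, z ⋖ y → y = x)
  | stair (Nc : Finset P) (co : P → ℕ × ℕ) (h0 : StairNat j i t Nc co) (h1 : N = natS Nc co)
      (h2 : θ = thS i Nc co) (h3 : b = i / 2 + 1) (h5 : 2 ≤ i)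
      (pen : ∀ x z, x ≤ (t : P) → lev x = j → (Win.uc x).card = 2 → z ⋖ x →
        (∀ y, z ⋖ y → y = x) → (co x).2 = (co x).1 + 1 ∨ (co x).2 = (co x).1 + 3)

section Exists

open Cp

/-- every strip which is light at level `i` or has a natural shape has a type -/
theorem exists_typeX (h : Win.GoodTo P r j) (hj2 : 2 ≤ j) {t : Tops P}
    {lo hi : ℕ → ℕ} {e : ℕ → ℕ → P} (C : Comp j (t : P) lo hi e) {i : ℕ} (hij : 2 * i ≤ j)
    (hT : lo i = hi i ∨ RectShape j lo hi ∨ StairShape j lo hi ∨
      StairShape j (fun k => k - hi k) (fun k => k - lo k)) :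
    ∃ N θ, TypeX j i t (hi i - lo i + 1) N θ ∧ TopType j i t (hi i - lo i + 1) N θ := by
  have H := h.H
  have hg := h.good
  have hlo := C.lo_le i (by omega)
  obtain ⟨j', rfl⟩ : ∃ j', j = j' + 1 := ⟨j - 1, by omega⟩
  by_cases hl : lo i = hi i
  · rw [hl, Nat.sub_self]
    refine ⟨_, _, TypeX.light rfl rfl rfl ?_, type_light H hg C (by omega)⟩
    intro x hx hxi
    rw [mem_onlyB]
    intro s hs hxs
    exact top_eq H hg hxi hs t.2 hxs hx
  · have hlt : lo i < hi i := by omega
    have hii : hi i ≤ i := C.hi_le (by omega)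
    rcases hT with hT | hT | hT | hT
    · exact absurd hT hl
    · obtain ⟨N, co, h1, -⟩ := exists_rect C H hg H.gradedBelow hT hij hlt
      refine ⟨_, _, TypeX.rect N co h1 rfl rfl ?_, TopType.rect N co h1 rfl rfl (by omega)⟩
      intro x z hxt hlx hx2 hzx honly
      exact rectShape_no_pendant h (by omega) t.2 C hT hlx hxt hx2 hzx honly
    · have h2 := hT.hi i (by omega)
      have h0 : lo i = 0 := by
        by_contra hcon
        have e1 := shape_lo C hT.lo (l := i) (by omega) i (by omega)
        have e2 := hT.hi (i + i) (by omega)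
        have e3 := C.lo_le (i + i) (by omega)
        omega
      obtain ⟨N, co, h1, h1'⟩ := exists_stair C H hg H.gradedBelow hT hij
      refine ⟨_, _, TypeX.stair N co h1 rfl rfl (by rw [h0, h2]; omega) (by omega) ?_,
        TopType.stair N co h1 rfl rfl (by rw [h0, h2]; omega) (by omega) (by omega)⟩
      intro x z hxt hlx hx2 hzx honly
      rw [h1' x (mem_lowPart.mpr ⟨hxt, by omega⟩)]
      exact stairShape_pendant h (by omega) t.2 C hT hlx hxt hx2 hzx honly
    · have C' := comp_swap C
      have h2 : i - lo i = i / 2 := hT.hi i (by omega)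
      have h0 : i - hi i = 0 := by
        by_contra hcon
        have e1 := shape_lo C' hT.lo (l := i) (by show 1 ≤ i - hi i; omega) i (by omega)
        have e2 := hT.hi (i + i) (by omega)
        have e3 := C'.lo_le (i + i) (by omega)
        omega
      obtain ⟨N, co, h1, h1'⟩ := exists_stair C' H hg H.gradedBelow hT hij
      refine ⟨_, _, TypeX.stair N co h1 rfl rfl (by omega) (by omega) ?_,
        TopType.stair N co h1 rfl rfl (by omega) (by omega) (by omega)⟩
      intro x z hxt hlx hx2 hzx honly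
      rw [h1' x (mem_lowPart.mpr ⟨hxt, by omega⟩)]
      exact stairShape_pendant h (by omega) t.2 C' hT hlx hxt hx2 hzx honly

end Exists

end Pool.Agent.GaussPoset

end

/-! From `Pool.Agent.W_448s7_h5.SevI` -/

section

/-!
# Costs of deep cells (MP_448cb3_co, S7)
-/

namespace Pool.Agent.GaussPoset

set_option linter.unusedSectionVars false

open Polynomial Finset

universe u

variable {P : Type u} [Fintype P] [PartialOrder P] [DecidableEq P] {r j : ℕ}

lemma cst_const (i : ℕ) (h : P → ℕ) (z : P) : cst i h z = cst i (fun _ => h z) z := rfl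

/-- the cost, summed over the excesses -/
lemma cst_shift {i a : ℕ} {h : P → ℕ} {x : P} (hl : lev x = i + a) :
    cst i h x = ∑ n ∈ range (a + 1), min (h x) n * nab (i + n) x := by
  rw [cst_eq, hl, show i + a + 1 = i + (a + 1) by omega, Finset.sum_range_add]
  have h1 : ∑ k ∈ range i, min (h x) (k - i) * nab k x = 0 := by
    refine Finset.sum_eq_zero fun k hk => ?_
    rw [mem_range] at hk
    rw [Nat.sub_eq_zero_of_le hk.le, Nat.min_zero, zero_mul]
  rw [h1, zero_add]
  refine Finset.sum_congr rfl fun n _ => ?_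
  rw [Nat.add_sub_cancel_left]

/-- lower bound of the cost -/
lemma cst_ge_shift {i a : ℕ} {h : P → ℕ} {x : P} (F : ℕ → ℕ) (hl : lev x = i + a)
    (hh : a ≤ h x + 1) (hF : ∀ n, 1 ≤ n → n < a → F n ≤ nab (i + n) x) :
    ∑ n ∈ range a, n * F n + min (h x) a ≤ cst i h x := by
  rw [cst_shift hl, Finset.sum_range_succ, ← hl, nab_self, mul_one]
  refine Nat.add_le_add_right ?_ _
  refine Finset.sum_le_sum fun n hn => ?_
  rw [mem_range] at hn
  rw [Nat.min_eq_right (by omega)]
  rcases Nat.eq_zero_or_pos n with h0 | h0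
  · subst h0; simp
  · exact Nat.mul_le_mul_left _ (hF n h0 hn)

/-- lower bound of the cost, threshold two less -/
lemma cst_ge_shift' {i a : ℕ} {h : P → ℕ} {x : P} (F : ℕ → ℕ) (hl : lev x = i + (a + 2))
    (hh : h x = a) (hF : ∀ n, 1 ≤ n → n < a + 2 → F n ≤ nab (i + n) x) :
    ∑ n ∈ range (a + 1), n * F n + a * F (a + 1) + a ≤ cst i h x := by
  rw [cst_shift hl, Finset.sum_range_succ (fun n => min (h x) n * nab (i + n) x), ← hl, nab_self,
    mul_one, Finset.sum_range_succ (fun n => min (h x) n * nab (i + n) x), hh]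
  refine Nat.add_le_add (Nat.add_le_add ?_ ?_) ?_
  · refine Finset.sum_le_sum fun n hn => ?_
    rw [mem_range] at hn
    rw [Nat.min_eq_right (by omega)]
    rcases Nat.eq_zero_or_pos n with h0 | h0
    · subst h0; simp
    · exact Nat.mul_le_mul_left _ (hF n h0 (by omega))
  · rw [Nat.min_eq_left (by omega)]
    exact Nat.mul_le_mul_left _ (hF (a + 1) (by omega) (by omega))
  · rw [Nat.min_eq_left (by omega)]

/-- indicator of an interval -/
def ind (s a n : ℕ) : ℕ := if s ≤ n ∧ n < a then 1 else 0

lemma sum_ind {s a m : ℕ} (ha : a ≤ m) :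
    a * (a - 1) ≤ 2 * ∑ n ∈ range m, n * ind s a n + s * (s - 1) := by
  have h1 : ∑ n ∈ range a, n ≤ ∑ n ∈ range m, n * ind s a n + ∑ n ∈ range s, n := by
    have h2 : ∀ n ∈ range a, n ≤ n * ind s a n + (if n < s then n else 0) := by
      intro n hn
      rw [mem_range] at hn
      unfold ind
      by_cases h : n < s
      · rw [if_pos h]
        omega
      · rw [if_pos ⟨by omega, hn⟩]
        omega
    refine (Finset.sum_le_sum h2).trans ?_
    rw [Finset.sum_add_distrib]
    refine Nat.add_le_add (Finset.sum_le_sum_of_subset (Finset.range_mono ha)) ?_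
    rw [← Finset.sum_filter]
    exact Finset.sum_le_sum_of_subset fun n hn => by
      rw [mem_filter] at hn
      exact mem_range.mpr hn.2
  have h2 := Finset.sum_range_id_mul_two a
  have h3 := Finset.sum_range_id_mul_two s
  omega

lemma sum_split4 (m : ℕ) (f1 f2 f3 f4 : ℕ → ℕ) :
    ∑ n ∈ range m, n * (f1 n + f2 n + f3 n + f4 n) =
      ∑ n ∈ range m, n * f1 n + ∑ n ∈ range m, n * f2 n + ∑ n ∈ range m, n * f3 n +
        ∑ n ∈ range m, n * f4 n := by
  simp only [mul_add, Finset.sum_add_distrib]

/-- the number which a cost must exceed -/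
def cap (j w : ℕ) : ℕ := (j + 1 - w) ^ 2 + (10 * (j - w) - 40)

lemma cap_eq {j w y : ℕ} (hy : j + 1 = w + y) (h6 : 6 ≤ y) : cap j w + 50 = y ^ 2 + 10 * y := by
  unfold cap
  have e1 : j + 1 - w = y := by omega
  have e2 : j - w = y - 1 := by omega
  rw [e1, e2]
  omega

section Rect

variable {t : P} {N : Finset P} {co : P → ℕ × ℕ}

lemma rect_nab (C : Chart t (fun _ => True) N co) {x : P} (hx : x ∈ N) {k : ℕ}
    (hk : k ≤ lev x) : nab k x + (k - (co x).2) = min k (co x).1 + 1 := by
  have hl := C.lev x hx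
  rw [nab_chart C hx k]
  exact card_cellsAt_true (by omega)

lemma stair_nab (C : Chart t (fun c => c.1 ≤ c.2) N co) {x : P} (hx : x ∈ N) {k : ℕ}
    (hk : k ≤ lev x) : nab k x + (k - (co x).2) = min (k / 2) (co x).1 + 1 := by
  have hl := C.lev x hx
  rw [nab_chart C hx k]
  exact card_cellsAt_shift (C.mem x hx) (by omega)

/-- a deep cell of a rectangle-like chart is expensive -/
theorem rect_deep (C : Chart t (fun _ => True) N co) {x : P} (hx : x ∈ N) {w h : ℕ}
    (hj : 17 ≤ j) (hw : 1 ≤ w) (hw3 : w ≤ 3) (h1 : 2 ≤ (co x).1) (h2 : 2 ≤ (co x).2)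
    (hlx : j + 1 ≤ lev x) (hh : h + min (min (co x).1 (co x).2) w = lev x - w + 1) :
    cap j w + 1 < cst w (fun _ => h) x + h := by
  have hl := C.lev x hx
  obtain ⟨y, hy⟩ : ∃ y, j + 1 = w + y := ⟨j + 1 - w, by omega⟩
  have hcap := cap_eq hy (by omega)
  obtain ⟨a, ha⟩ : ∃ a, lev x = w + (a + 2) := ⟨lev x - w - 2, by omega⟩
  have hn : ∀ n, 1 ≤ n → n < a + 2 → 1 + ind 1 (a + 2) n + ind 1 (a + 1) n + 0 ≤ nab (w + n) x := by
    intro n hn1 hn2
    have h3 := rect_nab C hx (k := w + n) (by omega)
    unfold ind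
    split_ifs <;> omega
  by_cases hd : 3 ≤ min (min (co x).1 (co x).2) w
  · have hn' : ∀ n, 1 ≤ n → n < a + 2 →
        1 + ind 1 (a + 2) n + ind 1 (a + 1) n + ind 1 a n ≤ nab (w + n) x := by
      intro n hn1 hn2
      have h3 := rect_nab C hx (k := w + n) (by omega)
      unfold ind
      split_ifs <;> omega
    have hha : h = a := by omega
    have h4 := cst_ge_shift' (h := fun _ => h) (fun n => 1 + ind 1 (a + 2) n + ind 1 (a + 1) n +
      ind 1 a n) ha hha hn'
    rw [sum_split4] at h4
    have g1 := Finset.sum_range_id_mul_two (a + 1)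
    have g2 := sum_ind (s := 1) (a := a + 1) (m := a + 1) le_rfl
    have g2' : ∑ n ∈ range (a + 1), n * ind 1 (a + 1) n ≤
        ∑ n ∈ range (a + 1), n * ind 1 (a + 2) n := by
      refine Finset.sum_le_sum fun n hn => Nat.mul_le_mul_left _ ?_
      rw [mem_range] at hn
      unfold ind
      split_ifs <;> omega
    have g3 := sum_ind (s := 1) (a := a) (m := a + 1) (by omega)
    have g4 : 1 + ind 1 (a + 2) (a + 1) + ind 1 (a + 1) (a + 1) + ind 1 a (a + 1) = 2 := by
      unfold ind
      rw [if_pos (by omega), if_neg (by omega), if_neg (by omega)]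
    rw [g4] at h4
    simp only [mul_one, Nat.add_sub_cancel, Nat.sub_self, mul_zero, add_zero] at h4 g1 g2 g3
    obtain ⟨d, hd'⟩ : ∃ d, a + 2 = y + d := ⟨a + 2 - y, by omega⟩
    obtain ⟨c, rfl⟩ : ∃ c, a = c + 13 := ⟨a - 13, by omega⟩
    have e1 : (c + 13) * (c + 13 - 1) = c * c + 25 * c + 156 := by
      rw [show c + 13 - 1 = c + 12 by omega]; ring
    have e2 : (c + 13 + 1) * (c + 13) = c * c + 27 * c + 182 := by ring
    have e3 : (c + 13) * 2 = 2 * c + 26 := by ring
    have e4 : y ^ 2 + 10 * y ≤ (c + 15) ^ 2 + 10 * (c + 15) := by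
      have : y ≤ c + 15 := by omega
      exact Nat.add_le_add (Nat.pow_le_pow_left this 2) (Nat.mul_le_mul_left 10 this)
    have e5 : (c + 15) ^ 2 = c * c + 30 * c + 225 := by ring
    rw [e1] at g3
    rw [e2] at g1 g2
    rw [e3] at h4
    rw [e5] at e4
    omega
  · have hh2 : h = a + 1 ∨ h = a + 2 := by omega
    have h4 := cst_ge_shift (h := fun _ => h) (fun n => 1 + ind 1 (a + 2) n + ind 1 (a + 1) n +
      0) ha (by omega) hn
    rw [sum_split4] at h4
    have g1 := Finset.sum_range_id_mul_two (a + 2)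
    have g2 := sum_ind (s := 1) (a := a + 2) (m := a + 2) le_rfl
    have g3 := sum_ind (s := 1) (a := a + 1) (m := a + 2) (by omega)
    rw [show a + 2 - 1 = a + 1 by omega] at g1 g2
    simp only [mul_one, Nat.add_sub_cancel, Nat.sub_self, mul_zero, add_zero] at h4 g1 g2 g3
    obtain ⟨c, rfl⟩ : ∃ c, a = c + 13 := ⟨a - 13, by omega⟩
    have e1 : (c + 13 + 1) * (c + 13) = c * c + 27 * c + 182 := by ring
    have e2 : (c + 13 + 2) * (c + 13 + 1) = c * c + 29 * c + 210 := by ring
    have e4 : y ^ 2 + 10 * y ≤ (c + 15) ^ 2 + 10 * (c + 15) := by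
      have : y ≤ c + 15 := by omega
      exact Nat.add_le_add (Nat.pow_le_pow_left this 2) (Nat.mul_le_mul_left 10 this)
    have e5 : (c + 15) ^ 2 = c * c + 30 * c + 225 := by ring
    rw [e1] at g3
    rw [e2] at g1 g2
    rw [e5] at e4
    omega

end Rect

end Pool.Agent.GaussPoset

end
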