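import Mathlib
import Pool.Agent.W_448zz_h61.Ns
import Pool.Agent.W_448zz_h61.M039
import Pool.Agent.W_448zz_h61.M040
import Pool.Agent.W_448zz_h61.M043

/-! From `Pool.Agent.W_448dd_h67.DdF` -/

section

/-!
The word `OC CO CO OO CC CO` at level 10: first pole of the strip at the window 5, energy 10.
-/

namespace Pool.Agent.GaussPoset.Dd

set_option linter.unusedSectionVars false

open Polynomial Finset Cl Wd

universe u

/-- all up-sets of the strip -/
def Dus : List ℕ := [524287, 393215, 360447, 356351, 262143, 131071, 98303, 94207, 65535, 49151, 32767, 28671, 24575, 20479, 19455, 19199, 19135, 16383, 12287, 8191, 6143, 4095, 3071, 2815, 2751, 2047, 1023, 767, 703, 511, 255, 191, 127, 95, 63, 47, 31, 15, 7, 3, 1, 0]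

theorem D_us : UsOK 19 (fun a => L4dcv.getD a 0) Dus :=
  usOK_of_chk (by decide +kernel)

/-- the up-sets with a pole: code, `ℓ`, `M`, exponent -/
def DPL : List (ℕ × ℕ × ℕ × ℕ) := [(524287, 11, 8, 85), (393215, 11, 7, 72), (360447, 11, 6, 60),
  (356351, 11, 5, 49)]

theorem D_pol : polChk 19 (2 ^ 100) 8 Dus 5 DPL = true := by
  decide +kernel

theorem D_num : ∀ x ∈ DPL, numChk 19 8 5 10 (fun a => L4dlv.getD a 0) x = true := by
  decide +kernel

/-- the up-sets above the base with the last cell -/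
theorem D_all : ∀ J ∈ Dus, Nat.land 94207 J = 94207 → J.testBit 18 = true →
    ∃ x ∈ DPL, x.1 = J := by
  decide +kernel

end Pool.Agent.GaussPoset.Dd

end

/-! From `Pool.Agent.W_448s14_h94.SgA` -/

section

/-!
Window sums of coded components up to a given energy (MP_448cb3_co, step B, `j = 14`): checks,
local data, no first pole.
-/

namespace Pool.Agent.GaussPoset.Sg

set_option linter.unusedSectionVars false

open Polynomial Finset Cl Dd

universe u

/-- the check: `(J, ℓ, M, n3, c)`, the coefficient at `n3` is `c`, lower coefficients are zero -/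
def polC (N B K : ℕ) (Us : List ℕ) (i0 : ℕ) (PL : List (ℕ × ℕ × ℕ × ℕ × ℕ)) : Bool :=
  ((fun h => PL.all fun x => chkL B i0 h (decide (x.2.2.1 % 2 = 0)) x.1 x.2.1 x.2.2.1
    (x.2.2.2.1 + pc N x.1) x.2.2.2.2) (hist (ws N B Us) K (stp (ws N B Us) (ini Us)))) &&
  ((fun h => PL.all fun x => chkS B x.2.2.2.2 h x.1 x.2.2.1)
    (hist (ws N 1 Us) K (stp (ws N 1 Us) (ini Us))))

/-- the numerical conditions -/
def numC (N K i0 : ℕ) (n0 : ℕ) (lv : ℕ → ℕ) (x : ℕ × ℕ × ℕ × ℕ × ℕ) : Bool :=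
  Nat.ble x.2.2.1 K && Nat.blt i0 x.2.1 && Nat.ble (pc N x.1) (x.2.1 + x.2.2.1) &&
  ((List.range N).any fun a => x.1.testBit a && Nat.ble x.2.1 (lv a + 1)) &&
  decide (∑ a ∈ (range N).filter (fun a => x.1.testBit a = true), min i0 (lv a) + n0 +
    e1 x.2.1 x.2.2.1 i0 = e2 x.2.1 i0 (pc N x.1) + x.2.2.2.1)

variable {P : Type u} [Fintype P] [PartialOrder P] [DecidableEq P]
variable {n N : ℕ} {cv lv : ℕ → ℕ} {c : ℕ → P} {Us : List ℕ}

/-- the value at the energy `n0` of a coded up-set -/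
theorem cod_val (C : Cod n cv lv c) (hU : UsOK N cv Us) (hn : n ≤ N) {B i0 K n0 : ℕ}
    {PL : List (ℕ × ℕ × ℕ × ℕ × ℕ)} (h : polC N B K Us i0 PL = true) {x : ℕ × ℕ × ℕ × ℕ × ℕ}
    (hx : x ∈ PL) (hJ : x.1 ∈ Us) (hJn : x.1 < 2 ^ n) (hnum : numC N K i0 n0 lv x = true) :
    (∀ n' < n0, (1 + X : ℤ[X]) ^ 2 ∣ Z {y : P // y ∈ toS n c x.1} i0 n') ∧
      ∃ s : ℤ[X], Z {y : P // y ∈ toS n c x.1} i0 n0 = (1 + X) * s ∧
        s.eval (-1) = sgn x.2.1 x.2.2.1 i0 * x.2.2.2.2 := by
  obtain ⟨J, ℓ, M, n3, c0⟩ := x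
  simp only at hx hJ hJn ⊢
  unfold numC at hnum
  simp only [Bool.and_eq_true] at hnum
  obtain ⟨⟨⟨⟨g1, g2⟩, g3⟩, g4⟩, g5⟩ := hnum
  have g1 := Nat.le_of_ble_eq_true g1
  have g2 := Nat.blt_eq.mp g2
  have g3 := Nat.le_of_ble_eq_true g3
  have g5 := of_decide_eq_true g5
  rw [List.any_eq_true] at g4
  obtain ⟨a, ha, hab⟩ := g4
  rw [Bool.and_eq_true] at hab
  unfold polC at h
  rw [Bool.and_eq_true] at h
  obtain ⟨h1, h2⟩ := h
  rw [hist_one hU] at h1 h2
  simp only [List.all_eq_true] at h1 h2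
  have k1 := h1 _ hx
  have k2 := h2 _ hx
  simp only at k1 k2 g1 g2 g3 g5 hab
  have hup := C.up hU hn hJ
  have h5 : ∀ m, U {x : P // x ∈ toS n c J} m =
      (uR N (X : ℕ[X]) Us J m).map (Nat.castRingHom ℤ) := fun m => by
    rw [U_eq_V hup, C.V_eq hU hn m J hJ hJn]
  have hlow := poly_low (n := N) (ℓ := ℓ) hJ g1 rfl k1 k2
  simp only [← h5] at hlow
  have han : a < n := by
    by_contra hcon
    rw [Nat.testBit_lt_two_pow (lt_of_lt_of_le hJn (Nat.pow_le_pow_right (by norm_num)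
      (by omega)))] at hab
    exact absurd hab.1 (by simp)
  have hlv : ∀ x : {x : P // x ∈ toS n c J}, GaussPoset.lev x = GaussPoset.lev (x : P) :=
    lev_subtype (p := fun x => x ∈ toS n c J) (fun x y hxy hx => hup x hx y hxy)
  have hxx : ∀ i < ℓ, ∃ x : {x : P // x ∈ toS n c J}, i ≤ GaussPoset.lev x := by
    intro i hi
    refine ⟨⟨c a, (C.mem_iff han).mpr hab.1⟩, ?_⟩
    rw [hlv, C.lev a han]
    have := Nat.le_of_ble_eq_true hab.2
    omega
  have hcd : Fintype.card {x : P // x ∈ toS n c J} = pc N J := by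
    rw [Fintype.card_coe, C.card, ← pc_stable hn hJn]
  obtain ⟨V, hV⟩ := dvd_W_one (Q := {x : P // x ∈ toS n c J}) (i := i0) (hxx i0 g2)
  have hM0 : M0 {x : P // x ∈ toS n c J} i0 =
      ∑ a ∈ (range N).filter (fun a => J.testBit a = true), min i0 (lv a) := by
    rw [filter_stable hn hJn, ← cod_sum_lev C (fun l => min i0 l)]
    unfold M0
    rw [← Finset.sum_coe_sort (toS n c J)]
    exact Finset.sum_congr rfl fun x _ => by rw [hlv]
  have hL := lead_V hxx (by rw [hcd]; exact g3) g2 hV hlow.1 hlow.2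
    (N := M0 {x : P // x ∈ toS n c J} i0 + n0) (by rw [hM0, hcd]; exact g5)
  exact Z_of_lead hV hL

/-- order two up to the energy `n0` -/
theorem cod_low (C : Cod n cv lv c) (hU : UsOK N cv Us) (hn : n ≤ N) {B i0 K n0 : ℕ}
    {PL : List (ℕ × ℕ × ℕ × ℕ × ℕ)} (h : polC N B K Us i0 PL = true) {x : ℕ × ℕ × ℕ × ℕ × ℕ}
    (hx : x ∈ PL) (hJ : x.1 ∈ Us) (hJn : x.1 < 2 ^ n) (hnum : numC N K i0 n0 lv x = true)
    (hc : x.2.2.2.2 = 0) :
    ∀ n' ≤ n0, (1 + X : ℤ[X]) ^ 2 ∣ Z {y : P // y ∈ toS n c x.1} i0 n' := by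
  obtain ⟨h1, s, h2, h3⟩ := cod_val C hU hn h hx hJ hJn hnum
  intro n' hn'
  rcases Nat.lt_or_ge n' n0 with h4 | h4
  · exact h1 n' h4
  · obtain rfl : n' = n0 := by omega
    rw [h2, pow_two]
    refine mul_dvd_mul_left _ ?_
    rw [hc, Nat.cast_zero, mul_zero] at h3
    have h5 := Polynomial.dvd_iff_isRoot.mpr (show s.IsRoot (-1) from h3)
    rwa [map_neg, map_one, sub_neg_eq_add, add_comm] at h5

/-- the check for all up-sets above the base: every one is listed with coefficient `0` at the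
energy `n0` -/
def lowC (N K i0 n0 : ℕ) (lv : ℕ → ℕ) (Us : List ℕ) (bm : ℕ) (L : List (ℕ × ℕ × ℕ × ℕ × ℕ)) :
    Bool :=
  (L.all fun x => numC N K i0 n0 lv x && Nat.beq x.2.2.2.2 0) &&
  (Us.all fun J => !(Nat.beq (Nat.land bm J) bm) || L.any fun x => Nat.beq x.1 J)

/-- order two of all up-sets above the base -/
theorem cod_clean (C : Cod n cv lv c) (hU : UsOK N cv Us) (hn : n ≤ N) {B i0 K n0 bm : ℕ}
    {L PL : List (ℕ × ℕ × ℕ × ℕ × ℕ)} (h : polC N B K Us i0 PL = true)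
    (hL : lowC N K i0 n0 lv Us bm L = true) (hsub : ∀ x ∈ L, x ∈ PL) {I : Finset P}
    (hI : ∀ x ∈ I, ∃ a < n, c a = x) (hup : Up I) (hbn : bm < 2 ^ n)
    (hb : ∀ a < n, bm.testBit a = true → c a ∈ I) :
    ∀ n' ≤ n0, (1 + X : ℤ[X]) ^ 2 ∣ Z {x : P // x ∈ I} i0 n' := by
  unfold lowC at hL
  simp only [Bool.and_eq_true] at hL
  obtain ⟨h3, h4⟩ := hL
  rw [List.all_eq_true] at h3 h4
  obtain ⟨J, hJ, hJn, rfl⟩ := C.exists_code hU hn hI hup
  have h5 := h4 J hJ
  have h6 : Nat.land bm J = bm := by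
    rw [land_iff hbn]
    intro a ha h7
    exact (C.mem_iff ha).mp (hb a ha h7)
  rw [h6, Nat.beq_refl] at h5
  have h7 : (L.any fun x => Nat.beq x.1 J) = true := by simpa using h5
  rw [List.any_eq_true] at h7
  obtain ⟨x, hx, hxJ⟩ := h7
  have h8 : x.1 = J := Nat.eq_of_beq_eq_true hxJ
  subst h8
  have h9 := h3 _ hx
  rw [Bool.and_eq_true] at h9
  exact cod_low C hU hn h (hsub x hx) hJ hJn h9.1 (Nat.eq_of_beq_eq_true h9.2)

/-! ### local data up to an energy -/

/-- local data, order `b` below the energy `n0` -/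
structure LocL (i b n0 : ℕ) (N : Finset P) (θ : P → ℕ) (B : P → Prop) : Prop where
  clean : ∀ U ⊆ N, (∀ x ∈ U, ∀ y, x ≤ y → y ∈ U) → (∀ x ∈ N, lev x ≤ i → x ∈ U) →
    (∀ x ∈ N, B x → x ∈ U) → ∀ n < n0, (1 + X : ℤ[X]) ^ b ∣ Z {x : P // x ∈ U} i n
  lev : ∀ x ∈ N, 1 ≤ θ x → i < lev x
  base : ∀ x ∈ N, 1 ≤ θ x → ∀ y ∈ N, y ≤ x → ¬ B y
  step : ∀ x ∈ N, 1 ≤ θ x → ∀ y ∈ N, y ≤ x → ∀ x' ∈ N, y ⋖ x' → ¬ x' ≤ x → θ x ≤ θ x' + 1
  le : ∀ x ∈ N, θ x ≤ Pool.Agent.GaussPoset.lev x - i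

/-- the part of a component in the complement of a lower set -/
def isoPart {M : Tops P → Finset P} (HM : NatSys M) (t : Tops P) {D : Finset P}
    (hD : unnat M ⊆ D) (U : Finset P) (hU : ∀ x, x ∈ U ↔ x ∈ M t ∧ x ∉ D) :
    {x : P // x ∈ U} ≃o {x : {x : P // x ∉ D} // topOf (x : P) = t} where
  toFun := fun x => ⟨⟨x, ((hU x).mp x.2).2⟩, HM.topOf_eq ((hU x).mp x.2).1⟩
  invFun := fun x => ⟨x.1.1, (hU _).mpr
    ⟨HM.mem_iff.mpr ⟨fun h => x.1.2 (hD h), x.2⟩, x.1.2⟩⟩
  left_inv := fun _ => rfl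
  right_inv := fun _ => rfl
  map_rel_iff' := Iff.rfl

/-- local data give component data -/
theorem LocL.data {i b n0 : ℕ} {t : Tops P} {θ : P → ℕ} {B : P → Prop} {M : Tops P → Finset P}
    (L : LocL i b n0 (M t) θ B) (HM : NatSys M) (θ' : P → ℕ) (B' : P → Prop)
    (hθ : ∀ x ∈ M t, θ' x = θ x) (hB : ∀ x ∈ M t, B' x ↔ B x) :
    CompDataL (unnat M) topOf t i b n0 θ' B' := by
  have hup := HM.up t
  have hmem : ∀ x, x ∉ unnat M → topOf x = t → x ∈ M t := fun x h1 h2 => HM.mem_iff.mpr ⟨h1, h2⟩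
  constructor
  · intro D hD hdec n hn
    classical
    let U : Finset P := (M t).filter (fun x => x ∉ D)
    have hU : ∀ x, x ∈ U ↔ x ∈ M t ∧ x ∉ D := by
      intro x
      simp [U]
    have h1 := L.clean U (Finset.filter_subset _ _) (fun x hx y hxy => by
        rw [hU] at hx ⊢
        exact ⟨hup x hx.1 y hxy, fun h => hx.2 (hD.1 x y hxy h)⟩)
      (fun x hx hxi => by
        rw [hU]
        exact ⟨hx, fun h => by have := hD.2.2.1 x h; omega⟩)
      (fun x hx hxB => by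
        rw [hU]
        exact ⟨hx, fun h => hD.2.2.2 x h ((hB x hx).mpr hxB)⟩) n hn
    rw [Z_iso (isoPart HM t hD.2.1 U hU)] at h1
    convert h1
  · intro x hx hk h1
    rw [hθ x (hmem x hx hk)] at h1
    exact L.lev x (hmem x hx hk) h1
  · intro x hx hk h1 y hyx hy
    have hxN := hmem x hx hk
    have hyN : y ∈ M t := by
      have h2 : topOf y = topOf x := HM.cp y x hyx hy
      exact hmem y hy (h2.trans hk)
    rw [hθ x hxN] at h1
    rw [hB y hyN]
    exact L.base x hxN h1 y hyN hyx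
  · intro x hx hk h1 y hyx hy x' hx' hyx' hn
    have hxN := hmem x hx hk
    have hyN : y ∈ M t := by
      have h2 : topOf y = topOf x := HM.cp y x hyx hy
      exact hmem y hy (h2.trans hk)
    have hxN' : x' ∈ M t := hup y hyN x' hyx'.1.le
    rw [hθ x hxN] at h1 ⊢
    rw [hθ x' hxN']
    exact L.step x hxN h1 y hyN hyx x' hxN' hyx' hn
  · intro x hx hk
    rw [hθ x (hmem x hx hk)]
    exact L.le x (hmem x hx hk)

/-- a larger excluded set -/
lemma compDataL_mono {ι : Type*} {R R' : Finset P} {cp : P → ι} {k : ι} {i b n0 : ℕ}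
    {θ : P → ℕ} {B : P → Prop} (H : CompDataL R cp k i b n0 θ B) (h : R ⊆ R') :
    CompDataL R' cp k i b n0 θ B where
  clean := fun D hD => H.clean D ⟨hD.1, h.trans hD.2.1, hD.2.2⟩
  lev := fun x hx => H.lev x fun h' => hx (h h')
  base := fun x hx hk h1 y hy hyR => H.base x (fun h' => hx (h h')) hk h1 y hy
    fun h' => hyR (h h')
  step := fun x hx hk h1 y hy hyR x' hx' => H.step x (fun h' => hx (h h')) hk h1 y hy
    (fun h' => hyR (h h')) x' fun h' => hx' (h h')
  le := fun x hx => H.le x fun h' => hx (h h')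

/-- the thresholds of a coded set -/
noncomputable def thI (n : ℕ) (c : ℕ → P) (th : ℕ → ℕ) (x : P) : ℕ :=
  ∑ a ∈ range n, if c a = x then th a else 0

lemma thI_c (C : Cod n cv lv c) (th : ℕ → ℕ) {a : ℕ} (ha : a < n) : thI n c th (c a) = th a := by
  unfold thI
  rw [Finset.sum_eq_single a]
  · rw [if_pos rfl]
  · intro b hb hne
    rw [if_neg fun h => hne (C.inj b (mem_range.mp hb) a ha h)]
  · intro h
    exact absurd (mem_range.mpr ha) h

/-- local data of a coded set -/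
theorem cod_locL (C : Cod n cv lv c) (hU : UsOK N cv Us) (hn : n ≤ N) {um th : ℕ → ℕ}
    {i a0 n0 : ℕ} (hth : thChk N i a0 lv cv um th = true) (ha0 : a0 < n) {S : Finset P}
    (hS : ∀ x, x ∈ S ↔ ∃ a < n, c a = x)
    (hcl : ∀ I ⊆ S, Up I → (∀ a < n, lv a ≤ i → c a ∈ I) → c a0 ∈ I →
      ∀ n' < n0, (1 + X : ℤ[X]) ^ 2 ∣ Z {x : P // x ∈ I} i n') :
    LocL i 2 n0 S (thI n c th) (fun x => x = c a0) := by
  unfold thChk at hth
  simp only [Bool.and_eq_true, List.all_eq_true, List.mem_range, Bool.or_eq_true, ble_iff,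
    beq_iff, Nat.blt_eq, Bool.not_eq_true'] at hth
  obtain ⟨⟨h1, h2⟩, h3⟩ := hth
  have hle : ∀ {a b : ℕ}, a < n → b < n → (c a ≤ c b ↔ (um a).testBit b = true) := fun ha hb =>
    C.le_iff hn hU.cv h1 ha hb
  have hpos : ∀ x ∈ S, 1 ≤ thI n c th x → ∃ a < n, c a = x ∧
      i < lv a ∧ (um a0).testBit a = false ∧ th a ≤ lv a - i ∧
      ∀ y < N, (um y).testBit a = false ∨ ∀ x' < N, ((cv y).testBit x' = false ∨
        (um x').testBit a = true) ∨ th a ≤ th x' + 1 := by
    intro x hx h4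
    obtain ⟨a, ha, rfl⟩ := (hS x).mp hx
    rw [thI_c C th ha] at h4
    rcases h2 a (by omega) with h5 | ⟨⟨⟨h5, h6⟩, h7⟩, h8⟩
    · omega
    · exact ⟨a, ha, rfl, h5, h6, h7, h8⟩
  constructor
  · intro U hUS hup hlow hB
    refine hcl U hUS hup (fun a ha hl => hlow _ ((hS _).mpr ⟨a, ha, rfl⟩) ?_)
      (hB _ ((hS _).mpr ⟨a0, ha0, rfl⟩) rfl)
    rw [C.lev a ha]
    exact hl
  · intro x hx h4
    obtain ⟨a, ha, rfl, h5, -⟩ := hpos x hx h4
    rw [C.lev a ha]
    exact h5
  · rintro x hx h4 y hy hyx rfl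
    obtain ⟨a, ha, rfl, -, h6, -⟩ := hpos x hx h4
    rw [hle ha0 ha, h6] at hyx
    exact absurd hyx (by simp)
  · intro x hx h4 y hy hyx x' hx' hyx' hn'
    obtain ⟨a, ha, rfl, -, -, -, h8⟩ := hpos x hx h4
    obtain ⟨y, hy', rfl⟩ := (hS y).mp hy
    obtain ⟨x', hxn', hcx, rfl⟩ := (C.cov y hy' x').mp hyx'
    rw [thI_c C th ha, thI_c C th hxn']
    rcases h8 y (by omega) with h9 | h9
    · rw [hle hy' ha, h9] at hyx
      exact absurd hyx (by simp)
    · rcases h9 x' (by omega) with (h10 | h10) | h10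
      · rw [hcx] at h10
        exact absurd h10 (by simp)
      · exact absurd ((hle hxn' ha).mpr h10) hn'
      · exact h10
  · intro x hx
    rcases Nat.eq_zero_or_pos (thI n c th x) with h4 | h4
    · rw [h4]; exact Nat.zero_le _
    · obtain ⟨a, ha, rfl, -, -, h7, -⟩ := hpos x hx h4
      rw [thI_c C th ha, C.lev a ha]
      exact h7

/-- the mask `bm` consists of cells of the levels `≤ i` and cells above `a0` -/
def bmC (N i a0 bm : ℕ) (lv um : ℕ → ℕ) : Bool :=
  (List.range N).all fun a => !(bm.testBit a) || Nat.ble (lv a) i || (um a0).testBit a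

/-- local data from the checks -/
theorem cod_locL' (C : Cod n cv lv c) (hU : UsOK N cv Us) (hn : n ≤ N) {um th : ℕ → ℕ}
    {i a0 n0 B K bm : ℕ} (hth : thChk N i a0 lv cv um th = true) (ha0 : a0 < n) {S : Finset P}
    (hS : ∀ x, x ∈ S ↔ ∃ a < n, c a = x) {L PL : List (ℕ × ℕ × ℕ × ℕ × ℕ)}
    (h : polC N B K Us i PL = true) (hL : lowC N K i n0 lv Us bm L = true)
    (hsub : ∀ x ∈ L, x ∈ PL) (hbm : bmC N i a0 bm lv um = true) (hbn : bm < 2 ^ n) :
    LocL i 2 (n0 + 1) S (thI n c th) (fun x => x = c a0) := by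
  refine cod_locL C hU hn hth ha0 hS fun I hI hup hlow hb n' hn' => ?_
  refine cod_clean C hU hn h hL hsub (fun x hx => (hS x).mp (hI hx)) hup hbn ?_ n' (by omega)
  intro a ha hab
  unfold bmC at hbm
  simp only [List.all_eq_true, List.mem_range, Bool.or_eq_true, ble_iff,
    Bool.not_eq_true'] at hbm
  rcases hbm a (by omega) with (h1 | h1) | h1
  · rw [hab] at h1
    exact absurd h1 (by simp)
  · exact hlow a ha h1
  · unfold thChk at hth
    simp only [Bool.and_eq_true, List.all_eq_true, List.mem_range, beq_iff] at hth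
    exact hup _ hb _ ((C.le_iff hn hU.cv hth.1.1 ha0 ha).mpr h1)

end Pool.Agent.GaussPoset.Sg

end

/-! From `Pool.Agent.W_448s14_h94.SgF` -/

section

/-!
A faster evaluation of the checks by the kernel: recursors instead of compiled matches.
-/

namespace Pool.Agent.GaussPoset.Sg

set_option linter.unusedSectionVars false

open Polynomial Finset Cl Dd

/-- `rowN` -/
noncomputable def rowF (J : ℕ) (l : List (ℕ × ℕ)) : ℕ :=
  @List.rec (ℕ × ℕ) (fun _ => ℕ) 0 (fun p _ ih =>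
    @Bool.rec (fun _ => ℕ) ih (Nat.add p.2 ih) (Nat.beq (Nat.land p.1 J) p.1)) l

lemma rowF_eq (J : ℕ) (l : List (ℕ × ℕ)) : rowF J l = rowN J l := by
  induction l with
  | nil => rfl
  | cons p l ih =>
    obtain ⟨I, v⟩ := p
    have h1 : rowF J ((I, v) :: l) =
        @Bool.rec (fun _ => ℕ) (rowF J l) (Nat.add v (rowF J l)) (Nat.beq (Nat.land I J) I) := rfl
    rw [h1, ih, rowN]
    cases Nat.beq (Nat.land I J) I <;> rfl

/-- `stp` -/
noncomputable def stpF (W st : List (ℕ × ℕ)) : List (ℕ × ℕ) :=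
  @List.rec (ℕ × ℕ) (fun _ => List (ℕ × ℕ) → List (ℕ × ℕ)) (fun _ => []) (fun p _ ih st =>
    @List.rec (ℕ × ℕ) (fun _ => List (ℕ × ℕ)) [] (fun q tl _ =>
      (p.1, Nat.mul p.2 (rowF p.1 (q :: tl))) :: ih tl) st) W st

lemma stpF_eq (W st : List (ℕ × ℕ)) : stpF W st = stp W st := by
  induction W generalizing st with
  | nil => rfl
  | cons p W ih =>
    cases st with
    | nil => rfl
    | cons q st =>
      have h1 : stpF (p :: W) (q :: st) =
        (p.1, Nat.mul p.2 (rowF p.1 (q :: st))) :: stpF W st := rfl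
      rw [h1, ih, rowF_eq]
      rfl

/-- `hist` -/
noncomputable def histF (W : List (ℕ × ℕ)) (m : ℕ) (st : List (ℕ × ℕ)) :
    List (List (ℕ × ℕ)) :=
  @Nat.rec (fun _ => List (ℕ × ℕ) → List (List (ℕ × ℕ))) (fun st => [st])
    (fun _ ih st => st :: ih (stpF W st)) m st

lemma histF_eq (W : List (ℕ × ℕ)) (m : ℕ) (st : List (ℕ × ℕ)) :
    histF W m st = hist W m st := by
  induction m generalizing st with
  | zero => rfl
  | succ m ih =>
    have h1 : histF W (m + 1) st = st :: histF W m (stpF W st) := rfl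
    rw [h1, ih, stpF_eq]
    rfl

/-- `lk` -/
noncomputable def lkF (J : ℕ) (l : List (ℕ × ℕ)) : ℕ :=
  @List.rec (ℕ × ℕ) (fun _ => ℕ) 0 (fun p _ ih =>
    @Bool.rec (fun _ => ℕ) ih p.2 (Nat.beq p.1 J)) l

lemma lkF_eq (J : ℕ) (l : List (ℕ × ℕ)) : lkF J l = lk J l := by
  induction l with
  | nil => rfl
  | cons p l ih =>
    obtain ⟨I, v⟩ := p
    have h1 : lkF J ((I, v) :: l) =
        @Bool.rec (fun _ => ℕ) (lkF J l) v (Nat.beq I J) := rfl
    rw [h1, ih, lk]
    cases Nat.beq I J <;> rfl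

/-- `altP` of the first `n` states -/
noncomputable def altF (ee : ℕ → ℕ) (J : ℕ) (n : ℕ) (l : List (List (ℕ × ℕ))) (m a b : ℕ) :
    ℕ × ℕ :=
  @Nat.rec (fun _ => List (List (ℕ × ℕ)) → ℕ → ℕ → ℕ → ℕ × ℕ) (fun _ _ a b => (a, b))
    (fun _ ih l m a b => @List.rec (List (ℕ × ℕ)) (fun _ => ℕ × ℕ) (a, b) (fun st tl _ =>
      ih tl (Nat.succ m) b (Nat.add a (Nat.mul (lkF J st) (ee m)))) l) n l m a b

lemma altF_eq (ee : ℕ → ℕ) (J : ℕ) (n : ℕ) : ∀ (l : List (List (ℕ × ℕ))) (m a b : ℕ),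
    altF ee J n l m a b = altP ee J m (take n l) a b := by
  induction n with
  | zero => intro l m a b; cases l <;> rfl
  | succ n ih =>
    intro l m a b
    cases l with
    | nil => rfl
    | cons st tl =>
      have h1 : altF ee J (n + 1) (st :: tl) m a b =
        altF ee J n tl (Nat.succ m) b (Nat.add a (Nat.mul (lkF J st) (ee m))) := rfl
      rw [h1, ih, lkF_eq]
      rfl

/-- `sumU` of the first `n` states -/
noncomputable def sumF (J : ℕ) (n : ℕ) (l : List (List (ℕ × ℕ))) : ℕ :=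
  @Nat.rec (fun _ => List (List (ℕ × ℕ)) → ℕ) (fun _ => 0)
    (fun _ ih l => @List.rec (List (ℕ × ℕ)) (fun _ => ℕ) 0 (fun st tl _ =>
      Nat.add (lkF J st) (ih tl)) l) n l

lemma sumF_eq (J : ℕ) (n : ℕ) : ∀ (l : List (List (ℕ × ℕ))),
    sumF J n l = sumU J (take n l) := by
  induction n with
  | zero => intro l; cases l <;> rfl
  | succ n ih =>
    intro l
    cases l with
    | nil => rfl
    | cons st tl =>
      have h1 : sumF J (n + 1) (st :: tl) = Nat.add (lkF J st) (sumF J n tl) := rfl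
      rw [h1, ih, lkF_eq]
      rfl

/-- products -/
noncomputable def prodF (n : ℕ) (f : ℕ → ℕ) : ℕ :=
  @Nat.rec (fun _ => ℕ) 1 (fun k ih => Nat.mul ih (f k)) n

lemma prodF_eq (n : ℕ) (f : ℕ → ℕ) : prodF n f = prodN n f := by
  induction n with
  | zero => rfl
  | succ n ih =>
    have h1 : prodF (n + 1) f = Nat.mul (prodF n f) (f n) := rfl
    rw [h1, ih]
    rfl

/-- the cofactors -/
noncomputable def eoF (B ℓ M i0 m : ℕ) : ℕ :=
  Nat.mul (Nat.mul (Nat.mul (Nat.pow B (tri (M - m)))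
    (prodF (M - m) (fun k => Nat.sub (Nat.pow B (m + ℓ + 1 + k)) 1)))
    (prodF m (fun k => Nat.sub (Nat.pow B (M - m + 1 + k)) 1)))
    (Nat.mul (prodF m (fun k => Nat.sub (Nat.pow B (k + 1 + i0)) 1))
      (prodF (M - m) (fun k => Nat.sub (Nat.pow B (m + 1 + (k + 1) + i0)) 1)))

lemma eoF_eq (B ℓ M i0 m : ℕ) : eoF B ℓ M i0 m = eo B ℓ M i0 1 m := by
  unfold eoF eo
  simp only [prodF_eq, pow_one]
  rfl

/-- the conjunction over a list -/
noncomputable def allF {α : Type} (f : α → Bool) (l : List α) : Bool :=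
  @List.rec α (fun _ => Bool) true (fun x _ ih => @Bool.rec (fun _ => Bool) false ih (f x)) l

lemma allF_eq {α : Type} (f : α → Bool) (l : List α) : allF f l = l.all f := by
  induction l with
  | nil => rfl
  | cons x l ih =>
    have h1 : allF f (x :: l) = @Bool.rec (fun _ => Bool) false (allF f l) (f x) := rfl
    rw [h1, ih, List.all_cons]
    cases f x <;> rfl

/-- `chkL` -/
noncomputable def chkF (B i0 : ℕ) (h : List (List (ℕ × ℕ))) (J ℓ M N c : ℕ) : Bool :=
  (fun p : ℕ × ℕ => @Bool.rec (fun _ => Bool) (cmpP B N c p) (cmpP B N c p.swap)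
    (Nat.beq (M % 2) 0)) (altF (eoF B ℓ M i0) J (M + 1) h 0 0 0)

lemma chkF_eq (B i0 : ℕ) (h : List (List (ℕ × ℕ))) (J ℓ M N c : ℕ) :
    chkF B i0 h J ℓ M N c = chkL B i0 h (decide (M % 2 = 0)) J ℓ M N c := by
  have hee : eoF B ℓ M i0 = eo B ℓ M i0 1 := by
    funext m
    exact eoF_eq B ℓ M i0 m
  unfold chkF chkL
  rw [altF_eq, hee]
  by_cases hM : M % 2 = 0
  · have h1 : Nat.beq (M % 2) 0 = true := by rw [hM]; rfl
    rw [h1]
    simp only [hM, decide_true]
  · have h1 : Nat.beq (M % 2) 0 = false := by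
      rw [show M % 2 = 1 by omega]
      rfl
    rw [h1]
    simp only [hM, decide_false]

/-- the fast check, first part -/
noncomputable def polF1 (N B K : ℕ) (Us : List ℕ) (i0 : ℕ)
    (PL : List (ℕ × ℕ × ℕ × ℕ × ℕ)) : Bool :=
  (fun W => (fun h => allF (fun x => chkF B i0 h x.1 x.2.1 x.2.2.1
    (x.2.2.2.1 + pc N x.1) x.2.2.2.2) PL) (histF W K (stpF W (ini Us)))) (ws N B Us)

/-- the fast check, second part -/
noncomputable def polF2 (N B K : ℕ) (Us : List ℕ) (PL : List (ℕ × ℕ × ℕ × ℕ × ℕ)) : Bool :=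
  (fun W => (fun h => allF (fun x => Nat.blt (Nat.add (sumF x.1 (x.2.2.1 + 1) h *
    2 ^ (2 * x.2.2.1)) x.2.2.2.2) B) PL) (histF W K (stpF W (ini Us)))) (ws N 1 Us)

theorem polC_of_fast {N B K : ℕ} {Us : List ℕ} {i0 : ℕ} {PL : List (ℕ × ℕ × ℕ × ℕ × ℕ)}
    (h1 : polF1 N B K Us i0 PL = true) (h2 : polF2 N B K Us PL = true) :
    polC N B K Us i0 PL = true := by
  unfold polC
  unfold polF1 at h1
  unfold polF2 at h2
  simp only [allF_eq, histF_eq, stpF_eq, chkF_eq, sumF_eq] at h1 h2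
  rw [Bool.and_eq_true]
  exact ⟨h1, h2⟩

end Pool.Agent.GaussPoset.Sg

end

/-! From `Pool.Agent.W_448f6_h94.FxH` -/

section

/-!
The strip `E7` at level 14, with one element of level 15 and two elements of level 16 below it.
-/

namespace Pool.Agent.GaussPoset.F6

open Cl Dd Sg

/-- the up-sets -/
def Eaus : List ℕ := [268435455, 201326591, 134217727, 67108863, 33554431, 16777215, 8388607, 6291455, 5767167, 4194303, 2097151, 1572863, 1048575, 786431, 720895, 704511, 524287, 393215, 262143, 196607, 180223, 131071, 98303, 94207, 65535, 49151, 32767, 28671, 24575, 20479, 19455, 19199, 19135, 16383, 12287, 8191, 6143, 4095, 3071, 2815, 2751, 2047, 1023, 767, 703, 511, 255, 191, 127, 95, 63, 47, 31, 15, 7, 3, 1, 0]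

/-- the covers -/
def Eacv : List ℕ := [0, 1, 2, 4, 8, 8, 16, 48, 192, 128, 768, 512, 1024, 3072, 2048, 12288, 24576, 32768, 98304, 131072, 393216, 1572864, 1048576, 6291456, 8388608, 16777216, 33554432, 33554432]

/-- the levels -/
def Ealv : List ℕ := [0, 1, 2, 3, 4, 4, 5, 5, 6, 6, 7, 7, 8, 8, 8, 9, 9, 10, 10, 11, 11, 12, 12, 13, 14, 15, 16, 16]

/-- the cells above -/
def Eaum : List ℕ := [1, 3, 7, 15, 31, 47, 95, 191, 511, 703, 2047, 2751, 6143, 12287, 19135, 49151, 94207, 180223, 393215, 704511, 1572863, 4194303, 5767167, 16777215, 33554431, 67108863, 134217727, 201326591]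

/-- the thresholds -/
def Eath : List ℕ := [0, 0, 0, 0, 0, 0, 0, 0, 0, 0, 0, 0, 0, 0, 0, 0, 0, 1, 0, 2, 1, 2, 2, 3, 4, 5, 6, 6]

/-- the up-sets above the base: code, `ℓ`, `M`, exponent, coefficient -/
def EaL : List (ℕ × ℕ × ℕ × ℕ × ℕ) := [(268435455, 17, 11, 204, 0), (201326591, 17, 10, 187, 0), (134217727, 17, 10, 187, 0), (67108863, 16, 10, 187, 0), (33554431, 15, 10, 187, 0), (16777215, 14, 10, 187, 0), (8388607, 13, 10, 187, 0), (6291455, 13, 9, 171, 0), (5767167, 13, 8, 156, 0), (4194303, 13, 9, 171, 0), (2097151, 12, 9, 171, 0), (1572863, 12, 8, 156, 0), (1048575, 12, 8, 156, 0), (524287, 11, 8, 156, 0), (393215, 11, 7, 142, 0)]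

theorem Ea_us : UsOK 28 (fun a => Eacv.getD a 0) Eaus :=
  usOK_of_chk (by decide +kernel)

theorem Ea_pol1 : polF1 28 (2 ^ 80) 11 Eaus 6 EaL = true := by
  decide +kernel

theorem Ea_pol2 : polF2 28 (2 ^ 80) 11 Eaus EaL = true := by
  decide +kernel

theorem Ea_pol : polC 28 (2 ^ 80) 11 Eaus 6 EaL = true :=
  polC_of_fast Ea_pol1 Ea_pol2

theorem Ea_low : lowC 28 11 6 75 (fun a => Ealv.getD a 0) Eaus
    393215 EaL = true := by
  decide +kernel

theorem Ea_th : thChk 28 6 18 (fun a => Ealv.getD a 0)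
    (fun a => Eacv.getD a 0) (fun a => Eaum.getD a 0) (fun a => Eath.getD a 0) =
    true := by decide +kernel

theorem Ea_bm : bmC 28 6 18 393215 (fun a => Ealv.getD a 0)
    (fun a => Eaum.getD a 0) = true := by decide +kernel

end Pool.Agent.GaussPoset.F6

end

/-! From `Pool.Agent.W_448f6_h94.FxJ` -/

section

/-!
The strip `E7` at level 14, with two elements of level 15 and one element of level 16 below each of them.
-/

namespace Pool.Agent.GaussPoset.F6

open Cl Dd Sg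

/-- the up-sets -/
def Ecus : List ℕ := [536870911, 402653183, 369098751, 268435455, 201326591, 134217727, 100663295, 67108863, 33554431, 16777215, 8388607, 6291455, 5767167, 4194303, 2097151, 1572863, 1048575, 786431, 720895, 704511, 524287, 393215, 262143, 196607, 180223, 131071, 98303, 94207, 65535, 49151, 32767, 28671, 24575, 20479, 19455, 19199, 19135, 16383, 12287, 8191, 6143, 4095, 3071, 2815, 2751, 2047, 1023, 767, 703, 511, 255, 191, 127, 95, 63, 47, 31, 15, 7, 3, 1, 0]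

/-- the covers -/
def Eccv : List ℕ := [0, 1, 2, 4, 8, 8, 16, 48, 192, 128, 768, 512, 1024, 3072, 2048, 12288, 24576, 32768, 98304, 131072, 393216, 1572864, 1048576, 6291456, 8388608, 16777216, 16777216, 33554432, 67108864]

/-- the levels -/
def Eclv : List ℕ := [0, 1, 2, 3, 4, 4, 5, 5, 6, 6, 7, 7, 8, 8, 8, 9, 9, 10, 10, 11, 11, 12, 12, 13, 14, 15, 15, 16, 16]

/-- the cells above -/
def Ecum : List ℕ := [1, 3, 7, 15, 31, 47, 95, 191, 511, 703, 2047, 2751, 6143, 12287, 19135, 49151, 94207, 180223, 393215, 704511, 1572863, 4194303, 5767167, 16777215, 33554431, 67108863, 100663295, 201326591, 369098751]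

/-- the thresholds -/
def Ecth : List ℕ := [0, 0, 0, 0, 0, 0, 0, 0, 0, 0, 0, 0, 0, 0, 0, 0, 0, 1, 0, 2, 1, 2, 2, 3, 4, 5, 5, 6, 6]

/-- the up-sets above the base: code, `ℓ`, `M`, exponent, coefficient -/
def EcL : List (ℕ × ℕ × ℕ × ℕ × ℕ) := [(536870911, 17, 12, 222, 0), (402653183, 17, 11, 204, 0), (369098751, 17, 10, 187, 0), (268435455, 17, 11, 204, 0), (201326591, 17, 10, 187, 0), (134217727, 16, 11, 204, 0), (100663295, 16, 10, 187, 0), (67108863, 16, 10, 187, 0), (33554431, 15, 10, 187, 0), (16777215, 14, 10, 187, 0), (8388607, 13, 10, 187, 0), (6291455, 13, 9, 171, 0), (5767167, 13, 8, 156, 0), (4194303, 13, 9, 171, 0), (2097151, 12, 9, 171, 0), (1572863, 12, 8, 156, 0), (1048575, 12, 8, 156, 0), (524287, 11, 8, 156, 0), (393215, 11, 7, 142, 0)]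

theorem Ec_us : UsOK 29 (fun a => Eccv.getD a 0) Ecus :=
  usOK_of_chk (by decide +kernel)

theorem Ec_pol1 : polF1 29 (2 ^ 80) 12 Ecus 6 EcL = true := by
  decide +kernel

theorem Ec_pol2 : polF2 29 (2 ^ 80) 12 Ecus EcL = true := by
  decide +kernel

theorem Ec_pol : polC 29 (2 ^ 80) 12 Ecus 6 EcL = true :=
  polC_of_fast Ec_pol1 Ec_pol2

theorem Ec_low : lowC 29 12 6 75 (fun a => Eclv.getD a 0) Ecus
    393215 EcL = true := by
  decide +kernel

theorem Ec_th : thChk 29 6 18 (fun a => Eclv.getD a 0)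
    (fun a => Eccv.getD a 0) (fun a => Ecum.getD a 0) (fun a => Ecth.getD a 0) =
    true := by decide +kernel

theorem Ec_bm : bmC 29 6 18 393215 (fun a => Eclv.getD a 0)
    (fun a => Ecum.getD a 0) = true := by decide +kernel

end Pool.Agent.GaussPoset.F6

end

/-! From `Pool.Agent.W_448f6_h94.FxK` -/

section

/-!
The strip `E7` at level 14, with two elements of level 15, a common child and a child of each of them.
-/

namespace Pool.Agent.GaussPoset.F6

open Cl Dd Sg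

/-- the up-sets -/
def Edus : List ℕ := [1073741823, 939524095, 805306367, 671088639, 637534207, 536870911, 402653183, 335544319, 268435455, 134217727, 100663295, 67108863, 33554431, 16777215, 8388607, 6291455, 5767167, 4194303, 2097151, 1572863, 1048575, 786431, 720895, 704511, 524287, 393215, 262143, 196607, 180223, 131071, 98303, 94207, 65535, 49151, 32767, 28671, 24575, 20479, 19455, 19199, 19135, 16383, 12287, 8191, 6143, 4095, 3071, 2815, 2751, 2047, 1023, 767, 703, 511, 255, 191, 127, 95, 63, 47, 31, 15, 7, 3, 1, 0]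

/-- the covers -/
def Edcv : List ℕ := [0, 1, 2, 4, 8, 8, 16, 48, 192, 128, 768, 512, 1024, 3072, 2048, 12288, 24576, 32768, 98304, 131072, 393216, 1572864, 1048576, 6291456, 8388608, 16777216, 16777216, 100663296, 33554432, 67108864]

/-- the levels -/
def Edlv : List ℕ := [0, 1, 2, 3, 4, 4, 5, 5, 6, 6, 7, 7, 8, 8, 8, 9, 9, 10, 10, 11, 11, 12, 12, 13, 14, 15, 15, 16, 16, 16]

/-- the cells above -/
def Edum : List ℕ := [1, 3, 7, 15, 31, 47, 95, 191, 511, 703, 2047, 2751, 6143, 12287, 19135, 49151, 94207, 180223, 393215, 704511, 1572863, 4194303, 5767167, 16777215, 33554431, 67108863, 100663295, 268435455, 335544319, 637534207]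

/-- the thresholds -/
def Edth : List ℕ := [0, 0, 0, 0, 0, 0, 0, 0, 0, 0, 0, 0, 0, 0, 0, 0, 0, 1, 0, 2, 1, 2, 2, 3, 4, 5, 5, 6, 6, 6]

/-- the up-sets above the base: code, `ℓ`, `M`, exponent, coefficient -/
def EdL : List (ℕ × ℕ × ℕ × ℕ × ℕ) := [(1073741823, 17, 13, 241, 0), (939524095, 17, 12, 222, 0), (805306367, 17, 12, 222, 0), (671088639, 17, 11, 204, 0), (637534207, 17, 10, 187, 0), (536870911, 17, 12, 222, 0), (402653183, 17, 11, 204, 0), (335544319, 17, 10, 187, 0), (268435455, 17, 11, 204, 0), (134217727, 16, 11, 204, 0), (100663295, 16, 10, 187, 0), (67108863, 16, 10, 187, 0), (33554431, 15, 10, 187, 0), (16777215, 14, 10, 187, 0), (8388607, 13, 10, 187, 0), (6291455, 13, 9, 171, 0), (5767167, 13, 8, 156, 0), (4194303, 13, 9, 171, 0), (2097151, 12, 9, 171, 0), (1572863, 12, 8, 156, 0), (1048575, 12, 8, 156, 0), (524287, 11, 8, 156, 0), (393215, 11, 7, 142, 0)]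

theorem Ed_us : UsOK 30 (fun a => Edcv.getD a 0) Edus :=
  usOK_of_chk (by decide +kernel)

theorem Ed_pol1 : polF1 30 (2 ^ 80) 13 Edus 6 EdL = true := by
  decide +kernel

theorem Ed_pol2 : polF2 30 (2 ^ 80) 13 Edus EdL = true := by
  decide +kernel

theorem Ed_pol : polC 30 (2 ^ 80) 13 Edus 6 EdL = true :=
  polC_of_fast Ed_pol1 Ed_pol2

theorem Ed_low : lowC 30 13 6 75 (fun a => Edlv.getD a 0) Edus
    393215 EdL = true := by
  decide +kernel

theorem Ed_th : thChk 30 6 18 (fun a => Edlv.getD a 0)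
    (fun a => Edcv.getD a 0) (fun a => Edum.getD a 0) (fun a => Edth.getD a 0) =
    true := by decide +kernel

theorem Ed_bm : bmC 30 6 18 393215 (fun a => Edlv.getD a 0)
    (fun a => Edum.getD a 0) = true := by decide +kernel

end Pool.Agent.GaussPoset.F6

end

/-! From `Pool.Agent.W_448f6_h94.FxL` -/

section

/-!
The strip `E7` at level 14, with two elements of level 15 and two common children.
-/

namespace Pool.Agent.GaussPoset.F6

open Cl Dd Sg

/-- the up-sets -/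
def Eeus : List ℕ := [536870911, 402653183, 268435455, 134217727, 100663295, 67108863, 33554431, 16777215, 8388607, 6291455, 5767167, 4194303, 2097151, 1572863, 1048575, 786431, 720895, 704511, 524287, 393215, 262143, 196607, 180223, 131071, 98303, 94207, 65535, 49151, 32767, 28671, 24575, 20479, 19455, 19199, 19135, 16383, 12287, 8191, 6143, 4095, 3071, 2815, 2751, 2047, 1023, 767, 703, 511, 255, 191, 127, 95, 63, 47, 31, 15, 7, 3, 1, 0]

/-- the covers -/
def Eecv : List ℕ := [0, 1, 2, 4, 8, 8, 16, 48, 192, 128, 768, 512, 1024, 3072, 2048, 12288, 24576, 32768, 98304, 131072, 393216, 1572864, 1048576, 6291456, 8388608, 16777216, 16777216, 100663296, 100663296]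

/-- the levels -/
def Eelv : List ℕ := [0, 1, 2, 3, 4, 4, 5, 5, 6, 6, 7, 7, 8, 8, 8, 9, 9, 10, 10, 11, 11, 12, 12, 13, 14, 15, 15, 16, 16]

/-- the cells above -/
def Eeum : List ℕ := [1, 3, 7, 15, 31, 47, 95, 191, 511, 703, 2047, 2751, 6143, 12287, 19135, 49151, 94207, 180223, 393215, 704511, 1572863, 4194303, 5767167, 16777215, 33554431, 67108863, 100663295, 268435455, 402653183]

/-- the thresholds -/
def Eeth : List ℕ := [0, 0, 0, 0, 0, 0, 0, 0, 0, 0, 0, 0, 0, 0, 0, 0, 0, 1, 0, 2, 1, 2, 2, 3, 4, 5, 5, 6, 6]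

/-- the up-sets above the base: code, `ℓ`, `M`, exponent, coefficient -/
def EeL : List (ℕ × ℕ × ℕ × ℕ × ℕ) := [(536870911, 17, 12, 222, 0), (402653183, 17, 11, 204, 0), (268435455, 17, 11, 204, 0), (134217727, 16, 11, 204, 0), (100663295, 16, 10, 187, 0), (67108863, 16, 10, 187, 0), (33554431, 15, 10, 187, 0), (16777215, 14, 10, 187, 0), (8388607, 13, 10, 187, 0), (6291455, 13, 9, 171, 0), (5767167, 13, 8, 156, 0), (4194303, 13, 9, 171, 0), (2097151, 12, 9, 171, 0), (1572863, 12, 8, 156, 0), (1048575, 12, 8, 156, 0), (524287, 11, 8, 156, 0), (393215, 11, 7, 142, 0)]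

theorem Ee_us : UsOK 29 (fun a => Eecv.getD a 0) Eeus :=
  usOK_of_chk (by decide +kernel)

theorem Ee_pol1 : polF1 29 (2 ^ 80) 12 Eeus 6 EeL = true := by
  decide +kernel

theorem Ee_pol2 : polF2 29 (2 ^ 80) 12 Eeus EeL = true := by
  decide +kernel

theorem Ee_pol : polC 29 (2 ^ 80) 12 Eeus 6 EeL = true :=
  polC_of_fast Ee_pol1 Ee_pol2

theorem Ee_low : lowC 29 12 6 75 (fun a => Eelv.getD a 0) Eeus
    393215 EeL = true := by
  decide +kernel

theorem Ee_th : thChk 29 6 18 (fun a => Eelv.getD a 0)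
    (fun a => Eecv.getD a 0) (fun a => Eeum.getD a 0) (fun a => Eeth.getD a 0) =
    true := by decide +kernel

theorem Ee_bm : bmC 29 6 18 393215 (fun a => Eelv.getD a 0)
    (fun a => Eeum.getD a 0) = true := by decide +kernel

end Pool.Agent.GaussPoset.F6

end

/-! From `Pool.Agent.W_448j10_h67.JbO` -/

section

/-!
Signed certificates of coded up-sets (MP_448cb3_co).
-/

namespace Pool.Agent.GaussPoset.J10

set_option linter.unusedSectionVars false

open Polynomial Finset Cl Dd Sg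

/-- the signed coefficient -/
def sc (b : Bool) (c : ℕ) : ℤ := bif b then -(c : ℤ) else (c : ℤ)

lemma sc_zero (b : Bool) : sc b 0 = 0 := by cases b <;> simp [sc]

/-- the lowest coefficient of the sum, signed -/
theorem poly_lowS {B i0 n K J ℓ M n3 c : ℕ} {s : Bool} (b : Bool) {Us : List ℕ} (hJ : J ∈ Us)
    (hM : M ≤ K) (hs : s = xor b (decide (M % 2 = 0)))
    (h1 : chkL B i0 ((List.range' 1 (K + 1)).map (stR n B Us)) s J ℓ M (n3 + pc n J) c = true)
    (h2 : chkS B c ((List.range' 1 (K + 1)).map (stR n 1 Us)) J M = true) :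
    X ^ n3 ∣ (∑ m ∈ range (M + 1), (-1) ^ m * ((uR n (X : ℕ[X]) Us J m).map (Nat.castRingHom ℤ) *
      Eo ℓ M i0 1 m)) ∧
    (∑ m ∈ range (M + 1), (-1) ^ m * ((uR n (X : ℕ[X]) Us J m).map (Nat.castRingHom ℤ) *
      Eo ℓ M i0 1 m)).coeff n3 = sc b c := by
  have h2' : (∑ m ∈ range (M + 1), uR n 1 Us J m) * 2 ^ (2 * M) + c < B := by
    unfold chkS at h2
    rw [take_range' _ _ _ _ (by omega), sumU_eq] at h2
    have h3 := Nat.blt_eq.mp h2
    refine lt_of_le_of_lt (le_of_eq ?_) h3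
    show _ = (∑ k ∈ range (M + 1), _) * 2 ^ (2 * M) + c
    congr 2
    refine Finset.sum_congr rfl fun k _ => ?_
    rw [Nat.add_comm 1 k, lk_stR _ _ hJ, one_pow, one_mul]
  have hB : 1 ≤ B := by omega
  have hdom : Dom (∑ m ∈ range (M + 1), (-1) ^ m *
      ((uR n (X : ℕ[X]) Us J m).map (Nat.castRingHom ℤ) * Eo ℓ M i0 1 m))
      (∑ m ∈ range (M + 1), (uR n (X : ℕ[X]) Us J m * eQ ℓ M i0 1 m)) := by
    refine Dom.sum _ fun m _ => ?_
    have h3 := Dom.mul (Dom.cast (uR n (X : ℕ[X]) Us J m)) (eo_dom ℓ M i0 1 m)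
    rcases Nat.even_or_odd m with hm | hm
    · rw [hm.neg_one_pow, one_mul]; exact h3
    · rw [hm.neg_one_pow, neg_one_mul]; exact h3.neg
  have hsize : (∑ m ∈ range (M + 1), (uR n (X : ℕ[X]) Us J m * eQ ℓ M i0 1 m)).eval 1 + c < B := by
    rw [eval_finsetSum]
    refine lt_of_le_of_lt (le_of_eq ?_) h2'
    rw [Finset.sum_mul]
    congr 1
    refine Finset.sum_congr rfl fun m hm => ?_
    rw [mem_range] at hm
    rw [eval_mul, eQ_eval (by omega)]
    congr 1
    have := uR_map (evalRingHom 1) n (X : ℕ[X]) Us J m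
    rw [coe_evalRingHom, eval_X] at this
    exact this
  set Q : ℤ[X] := ∑ m ∈ range (M + 1), (-1) ^ m *
      ((uR n (X : ℕ[X]) Us J m).map (Nat.castRingHom ℤ) * Eo ℓ M i0 1 m) with hQ
  have hBz : (B : ℤ) ^ pc n J ≠ 0 := pow_ne_zero _ (by positivity)
  -- the value
  have hval : (B : ℤ) ^ pc n J * Q.eval (B : ℤ) =
      ∑ k ∈ range (M + 1), (-1) ^ k * ((lk J (stR n B Us (1 + k)) : ℤ) *
        eo B ℓ M i0 1 (0 + k)) := by
    rw [hQ, eval_finsetSum, Finset.mul_sum]
    refine Finset.sum_congr rfl fun m _ => ?_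
    have h4 := uR_map (evalRingHom (B : ℕ)) n (X : ℕ[X]) Us J m
    rw [coe_evalRingHom, eval_X] at h4
    have h6 : ((uR n (X : ℕ[X]) Us J m).map (Nat.castRingHom ℤ)).eval (B : ℤ) =
        ((uR n B Us J m : ℕ) : ℤ) := by
      rw [← h4, eval_map]
      have h5 := Polynomial.eval₂_at_natCast (p := uR n (X : ℕ[X]) Us J m)
        (Nat.castRingHom ℤ) B
      simpa using h5
    rw [eval_mul, eval_pow, eval_neg, eval_one, eval_mul, h6, eo_eval hB, Nat.add_comm 1 m,
      lk_stR _ _ hJ, Nat.zero_add]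
    push_cast
    ring
  have hpair := altP_eq (eo B ℓ M i0 1) J (stR n B Us) (M + 1) 0 1 0 0
  rw [Nat.cast_zero, sub_zero, zero_add, ← hval] at hpair
  unfold chkL at h1
  rw [take_range' _ _ _ _ (by omega)] at h1
  set p := altP (eo B ℓ M i0 1) J 0 ((List.range' 1 (M + 1)).map (stR n B Us)) 0 0 with hp
  have key : ∀ x y : ℕ, cmpP B (n3 + pc n J) c (x, y) = true →
      (B : ℤ) ^ (n3 + pc n J + 1) ∣ (x : ℤ) - y - c * (B : ℤ) ^ (n3 + pc n J) := by
    intro x y h
    have h3 : (y + c * B ^ (n3 + pc n J)) ≡ x [MOD B ^ (n3 + pc n J + 1)] :=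
      Nat.eq_of_beq_eq_true h
    have h4 := (Nat.modEq_iff_dvd.mp h3)
    push_cast at h4
    convert h4 using 1
    ring
  have h5 : (B : ℤ) ^ (n3 + pc n J + 1) = (B : ℤ) ^ pc n J * (B : ℤ) ^ (n3 + 1) := by
    rw [← pow_add]
    congr 1
    omega
  have h6 : (c : ℤ) * (B : ℤ) ^ (n3 + pc n J) = (B : ℤ) ^ pc n J * (c * (B : ℤ) ^ n3) := by
    rw [pow_add]
    ring
  have hpos : ∀ x y : ℕ, cmpP B (n3 + pc n J) c (x, y) = true →
      (B : ℤ) ^ pc n J * Q.eval (B : ℤ) = (x : ℤ) - y → X ^ n3 ∣ Q ∧ Q.coeff n3 = c := by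
    intro x y h h'
    have h7 := key x y h
    rw [← h', h5, h6, ← mul_sub] at h7
    exact coeff_of_eval hdom hsize ((mul_dvd_mul_iff_left hBz).mp h7)
  have hneg : ∀ x y : ℕ, cmpP B (n3 + pc n J) c (x, y) = true →
      (B : ℤ) ^ pc n J * Q.eval (B : ℤ) = (y : ℤ) - x → X ^ n3 ∣ Q ∧ Q.coeff n3 = -c := by
    intro x y h h'
    have h7 := key x y h
    have h8 : (x : ℤ) - y = (B : ℤ) ^ pc n J * (-Q).eval (B : ℤ) := by
      rw [eval_neg, mul_neg, h']
      ring
    rw [h8, h5, h6, ← mul_sub] at h7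
    obtain ⟨h9, h10⟩ := coeff_of_eval hdom.neg hsize ((mul_dvd_mul_iff_left hBz).mp h7)
    refine ⟨(dvd_neg).mp h9, ?_⟩
    rw [coeff_neg] at h10
    omega
  subst hs
  rcases Nat.even_or_odd M with hM' | hM'
  · have h3 : M % 2 = 0 := Nat.even_iff.mp hM'
    rw [pow_succ, hM'.neg_one_pow] at hpair
    cases b
    · simp only [h3, decide_true, Bool.xor_true, Bool.not_false] at h1
      exact hpos p.2 p.1 h1 (by linarith)
    · simp only [h3, decide_true, Bool.xor_true, Bool.not_true] at h1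
      exact hneg p.1 p.2 h1 (by linarith)
  · have h3 : M % 2 = 1 := Nat.odd_iff.mp hM'
    rw [pow_succ, hM'.neg_one_pow] at hpair
    cases b
    · simp only [h3, one_ne_zero, decide_false, Bool.xor_false] at h1
      exact hpos p.1 p.2 h1 (by linarith)
    · simp only [h3, one_ne_zero, decide_false, Bool.xor_false] at h1
      exact hneg p.2 p.1 h1 (by linarith)

/-- the check of a signed list: `(sign, J, ℓ, M, n3, c)` -/
def polD (N B K : ℕ) (Us : List ℕ) (i0 : ℕ) (PL : List (Bool × (ℕ × ℕ × ℕ × ℕ × ℕ))) : Bool :=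
  ((fun h => PL.all fun x => chkL B i0 h (xor x.1 (decide (x.2.2.2.1 % 2 = 0))) x.2.1 x.2.2.1
    x.2.2.2.1 (x.2.2.2.2.1 + pc N x.2.1) x.2.2.2.2.2)
    (hist (ws N B Us) K (stp (ws N B Us) (ini Us)))) &&
  ((fun h => PL.all fun x => chkS B x.2.2.2.2.2 h x.2.1 x.2.2.2.1)
    (hist (ws N 1 Us) K (stp (ws N 1 Us) (ini Us))))

/-- `chkL`, signed -/
noncomputable def chkG (B i0 : ℕ) (h : List (List (ℕ × ℕ))) (b : Bool) (J ℓ M N c : ℕ) : Bool :=
  (fun p : ℕ × ℕ => @Bool.rec (fun _ => Bool) (cmpP B N c p) (cmpP B N c p.swap)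
    (@Bool.rec (fun _ => Bool) (Nat.beq (M % 2) 0) (Nat.beq (M % 2) 1) b))
    (altF (eoF B ℓ M i0) J (M + 1) h 0 0 0)

lemma chkG_eq (B i0 : ℕ) (h : List (List (ℕ × ℕ))) (b : Bool) (J ℓ M N c : ℕ) :
    chkG B i0 h b J ℓ M N c = chkL B i0 h (xor b (decide (M % 2 = 0))) J ℓ M N c := by
  have hee : eoF B ℓ M i0 = eo B ℓ M i0 1 := by
    funext m
    exact eoF_eq B ℓ M i0 m
  unfold chkG chkL
  rw [altF_eq, hee]
  by_cases hM : M % 2 = 0
  · cases b
    · simp only [hM, decide_true, Bool.xor_true, Bool.not_false]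
      rfl
    · simp only [hM, decide_true, Bool.xor_true, Bool.not_true]
      rfl
  · have hM1 : M % 2 = 1 := by omega
    cases b
    · simp only [hM1, one_ne_zero, decide_false, Bool.xor_false]
      rfl
    · simp only [hM1, one_ne_zero, decide_false, Bool.xor_false]
      rfl

/-- the fast check, first part -/
noncomputable def polG1 (N B K : ℕ) (Us : List ℕ) (i0 : ℕ)
    (PL : List (Bool × (ℕ × ℕ × ℕ × ℕ × ℕ))) : Bool :=
  (fun W => (fun h => allF (fun x => chkG B i0 h x.1 x.2.1 x.2.2.1 x.2.2.2.1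
    (x.2.2.2.2.1 + pc N x.2.1) x.2.2.2.2.2) PL) (histF W K (stpF W (ini Us)))) (ws N B Us)

/-- the fast check, second part -/
noncomputable def polG2 (N B K : ℕ) (Us : List ℕ) (PL : List (Bool × (ℕ × ℕ × ℕ × ℕ × ℕ))) :
    Bool :=
  (fun W => (fun h => allF (fun x => Nat.blt (Nat.add (sumF x.2.1 (x.2.2.2.1 + 1) h *
    2 ^ (2 * x.2.2.2.1)) x.2.2.2.2.2) B) PL) (histF W K (stpF W (ini Us)))) (ws N 1 Us)

theorem polD_of_fast {N B K : ℕ} {Us : List ℕ} {i0 : ℕ} {PL : List (Bool × (ℕ × ℕ × ℕ × ℕ × ℕ))}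
    (h1 : polG1 N B K Us i0 PL = true) (h2 : polG2 N B K Us PL = true) :
    polD N B K Us i0 PL = true := by
  unfold polD
  unfold polG1 at h1
  unfold polG2 at h2
  simp only [allF_eq, histF_eq, stpF_eq, chkG_eq, sumF_eq] at h1 h2
  rw [Bool.and_eq_true]
  exact ⟨h1, h2⟩

end Pool.Agent.GaussPoset.J10

end

/-! From `Pool.Agent.W_448j10_h67.JbB` -/

section

/-!
Coded components with missing cells: the code of a part of a master poset (MP_448cb3_co).
-/

namespace Pool.Agent.GaussPoset.J10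

set_option linter.unusedSectionVars false

open Polynomial Finset Cl Dd Sg

universe u

variable {P : Type u} [Fintype P] [PartialOrder P] [DecidableEq P]

/-- a coded part of the poset: the cells `c a` with `a` a bit of `J0` -/
structure CodM (N J0 : ℕ) (cv lv : ℕ → ℕ) (c : ℕ → P) : Prop where
  lt : J0 < 2 ^ N
  clo : ∀ a, J0.testBit a = true → Nat.land (cv a) J0 = cv a
  inj : ∀ a, J0.testBit a = true → ∀ b, J0.testBit b = true → c a = c b → a = b
  cov : ∀ a, J0.testBit a = true → ∀ y, c a ⋖ y ↔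
    ∃ b, J0.testBit b = true ∧ (cv a).testBit b = true ∧ c b = y
  lev : ∀ a, J0.testBit a = true → GaussPoset.lev (c a) = lv a

/-- inclusion of masks -/
def Sm (I J : ℕ) : Prop := ∀ a, I.testBit a = true → J.testBit a = true

lemma sm_iff {I J : ℕ} : Nat.land I J = I ↔ Sm I J := by
  constructor
  · intro h a ha
    have h1 : (I &&& J).testBit a = true := by
      rw [show I &&& J = I from h]; exact ha
    rw [Nat.testBit_land, Bool.and_eq_true] at h1
    exact h1.2
  · intro h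
    show I &&& J = I
    refine Nat.eq_of_testBit_eq fun a => ?_
    rw [Nat.testBit_land]
    cases h1 : I.testBit a
    · rfl
    · rw [h a h1]; rfl

lemma bit_lt {J N a : ℕ} (hJ : J < 2 ^ N) (ha : J.testBit a = true) : a < N := by
  by_contra hcon
  rw [Nat.testBit_lt_two_pow (lt_of_lt_of_le hJ (Nat.pow_le_pow_right (by norm_num)
    (by omega)))] at ha
  exact absurd ha (by simp)

lemma Sm.trans {I J K : ℕ} (h : Sm I J) (h' : Sm J K) : Sm I K := fun a ha => h' a (h a ha)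

section Code

variable {N J0 : ℕ} {cv lv : ℕ → ℕ} {c : ℕ → P} {Us : List ℕ}

lemma CodM.mem_iff (C : CodM N J0 cv lv c) {J a : ℕ} (hJ : Sm J J0) (ha : J0.testBit a = true) :
    c a ∈ toS N c J ↔ J.testBit a = true := by
  rw [mem_toS]
  constructor
  · rintro ⟨b, hb, h1, h2⟩
    rw [← C.inj b (hJ b h1) a ha h2]; exact h1
  · intro h
    exact ⟨a, bit_lt C.lt ha, h, rfl⟩

lemma CodM.card (C : CodM N J0 cv lv c) {J : ℕ} (hJ : Sm J J0) :
    (toS N c J).card = pc N J := by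
  rw [pc_eq]
  unfold toS
  rw [Finset.card_image_of_injOn]
  intro a ha b hb h
  rw [Finset.mem_coe, mem_filter, mem_range] at ha hb
  exact C.inj a (hJ a ha.2) b (hJ b hb.2) h

lemma CodM.sub_iff (C : CodM N J0 cv lv c) {I J : ℕ} (hI : Sm I J0) (hJ : Sm J J0) :
    Nat.land I J = I ↔ toS N c I ⊆ toS N c J := by
  rw [sm_iff]
  constructor
  · intro h x hx
    obtain ⟨a, ha, h1, rfl⟩ := mem_toS.mp hx
    exact (C.mem_iff hJ (hI a h1)).mpr (h a h1)
  · intro h a h1
    exact (C.mem_iff hJ (hI a h1)).mp (h ((C.mem_iff hI (hI a h1)).mpr h1))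

lemma CodM.inj' (C : CodM N J0 cv lv c) {I J : ℕ} (hI : Sm I J0) (hJ : Sm J J0)
    (h : toS N c I = toS N c J) : I = J := by
  have h1 := (C.sub_iff hI hJ).mpr h.subset
  have h2 := (C.sub_iff hJ hI).mpr h.symm.subset
  have h3 : Nat.land I J = Nat.land J I := Nat.land_comm I J
  rw [h1, h2] at h3
  exact h3

lemma CodM.up (C : CodM N J0 cv lv c) (hU : UsOK N cv Us) {J : ℕ} (hJ : J ∈ Us)
    (hJ0 : Sm J J0) : Up (toS N c J) := by
  refine Cl.up_of_cov fun x hx y hxy => ?_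
  obtain ⟨a, ha, h1, rfl⟩ := mem_toS.mp hx
  obtain ⟨b, hb, h2, rfl⟩ := (C.cov a (hJ0 a h1) y).mp hxy
  rw [C.mem_iff hJ0 hb]
  exact sm_iff.mp (hU.valid J hJ a ha h1) b h2

/-- every up-set has a code -/
lemma CodM.exists_code (C : CodM N J0 cv lv c) (hU : UsOK N cv Us) {I : Finset P}
    (hI : ∀ x ∈ I, ∃ a, J0.testBit a = true ∧ c a = x) (hup : Up I) :
    ∃ J ∈ Us, Sm J J0 ∧ toS N c J = I := by
  classical
  set J : ℕ := Nat.ofBits (fun a : Fin N => decide (J0.testBit a = true ∧ c a ∈ I)) with hJ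
  have hJn : J < 2 ^ N := Nat.ofBits_lt_two_pow _
  have hbit : ∀ a, J.testBit a = true ↔ J0.testBit a = true ∧ c a ∈ I := by
    intro a
    by_cases ha : a < N
    · rw [hJ, Nat.testBit_ofBits_lt _ _ ha]
      simp
    · constructor
      · intro h
        exact absurd (bit_lt hJn h) ha
      · rintro ⟨h, -⟩
        exact absurd (bit_lt C.lt h) ha
  refine ⟨J, ?_, fun a ha => ((hbit a).mp ha).1, ?_⟩
  · refine hU.mem le_rfl hJn fun a ha h1 => ?_
    rw [sm_iff]
    intro b h2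
    obtain ⟨h3, h4⟩ := (hbit a).mp h1
    have h5 : J0.testBit b = true := sm_iff.mp (C.clo a h3) b h2
    exact (hbit b).mpr ⟨h5, hup _ h4 _ ((C.cov a h3 (c b)).mpr ⟨b, h5, h2, rfl⟩).le⟩
  · ext x
    rw [mem_toS]
    constructor
    · rintro ⟨a, ha, h1, rfl⟩
      exact ((hbit a).mp h1).2
    · intro hx
      obtain ⟨a, ha, rfl⟩ := hI x hx
      exact ⟨a, bit_lt C.lt ha, (hbit a).mpr ⟨ha, hx⟩, rfl⟩

/-- the values of the up-sets -/
theorem CodM.V_eq (C : CodM N J0 cv lv c) (hU : UsOK N cv Us) (m : ℕ) :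
    ∀ J ∈ Us, Sm J J0 → V m (toS N c J) =
      (uR N (X : ℕ[X]) Us J m).map (Nat.castRingHom ℤ) := by
  classical
  induction m with
  | zero =>
    intro J _ _
    have h1 : uR N (X : ℕ[X]) Us J 0 = ∑ I ∈ Us.toFinset.filter
        (fun I => Nat.land I J = I), (if I = 0 then 1 else 0) := by
      unfold uR
      simp only [stR]
      exact row_list J (fun I => if I = 0 then 1 else 0) Us hU.nodup
    have h2 : (0 : ℕ) ∈ Us.toFinset.filter (fun I => Nat.land I J = I) := by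
      rw [mem_filter, List.mem_toFinset]
      exact ⟨hU.zero, Nat.zero_and J⟩
    rw [h1, V_zero, Finset.sum_ite_eq' _ 0, if_pos h2, Polynomial.map_one]
  | succ m ih =>
    intro J hJ hJ0
    have h1 : uR N (X : ℕ[X]) Us J (m + 1) = ∑ I ∈ Us.toFinset.filter
        (fun I => Nat.land I J = I), X ^ pc N I * uR N X Us I m := by
      unfold uR
      simp only [stR]
      exact row_list J (fun I => X ^ pc N I * row I (stR N X Us m)) Us hU.nodup
    rw [h1, V_succ, Polynomial.map_sum]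
    symm
    have hlt : ∀ I, Nat.land I J = I → Sm I J0 := fun I h => (sm_iff.mp h).trans hJ0
    refine Finset.sum_bij (fun I _ => toS N c I) ?_ ?_ ?_ ?_
    · intro I hI
      rw [mem_filter, List.mem_toFinset] at hI
      rw [mem_filter, mem_powerset]
      exact ⟨(C.sub_iff (hlt I hI.2) hJ0).mp hI.2, C.up hU hI.1 (hlt I hI.2)⟩
    · intro I hI I' hI' h
      rw [mem_filter] at hI hI'
      exact C.inj' (hlt I hI.2) (hlt I' hI'.2) h
    · intro I hI
      rw [mem_filter, mem_powerset] at hI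
      obtain ⟨I', h2, h3, h4⟩ := C.exists_code hU (I := I) (fun x hx => by
        obtain ⟨a, ha, hb, h⟩ := mem_toS.mp (hI.1 hx)
        exact ⟨a, hJ0 a hb, h⟩) hI.2
      refine ⟨I', ?_, h4⟩
      rw [mem_filter, List.mem_toFinset]
      refine ⟨h2, (C.sub_iff h3 hJ0).mpr ?_⟩
      rw [h4]
      exact hI.1
    · intro I hI
      rw [mem_filter, List.mem_toFinset] at hI
      have h2 := hlt I hI.2
      rw [Polynomial.map_mul, Polynomial.map_pow, Polynomial.map_X, C.card h2,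
        ih I hI.1 h2]

/-- sums over a coded set -/
lemma CodM.sum_lev (C : CodM N J0 cv lv c) {J : ℕ} (hJ : Sm J J0) (g : ℕ → ℕ) :
    ∑ x ∈ toS N c J, g (GaussPoset.lev x) =
      ∑ a ∈ (range N).filter (fun a => J.testBit a = true), g (lv a) := by
  classical
  unfold toS
  rw [Finset.sum_image]
  · refine Finset.sum_congr rfl fun a ha => ?_
    rw [mem_filter, mem_range] at ha
    rw [C.lev a (hJ a ha.2)]
  · intro a ha b hb h
    rw [Finset.mem_coe, mem_filter, mem_range] at ha hb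
    exact C.inj a (hJ a ha.2) b (hJ b hb.2) h

/-- the value at the energy `n0` of a coded up-set -/
theorem CodM.val (C : CodM N J0 cv lv c) (hU : UsOK N cv Us) {B i0 K n0 : ℕ}
    {PL : List (Bool × (ℕ × ℕ × ℕ × ℕ × ℕ))} (h : polD N B K Us i0 PL = true)
    {x : Bool × (ℕ × ℕ × ℕ × ℕ × ℕ)}
    (hx : x ∈ PL) (hJ : x.2.1 ∈ Us) (hJ0 : Sm x.2.1 J0) (hnum : numC N K i0 n0 lv x.2 = true) :
    (∀ n' < n0, (1 + X : ℤ[X]) ^ 2 ∣ Z {y : P // y ∈ toS N c x.2.1} i0 n') ∧
      ∃ s : ℤ[X], Z {y : P // y ∈ toS N c x.2.1} i0 n0 = (1 + X) * s ∧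
        s.eval (-1) = sgn x.2.2.1 x.2.2.2.1 i0 * sc x.1 x.2.2.2.2.2 := by
  obtain ⟨b, J, ℓ, M, n3, c0⟩ := x
  simp only at hx hJ hJ0 ⊢
  unfold numC at hnum
  simp only [Bool.and_eq_true] at hnum
  obtain ⟨⟨⟨⟨g1, g2⟩, g3⟩, g4⟩, g5⟩ := hnum
  have g1 := Nat.le_of_ble_eq_true g1
  have g2 := Nat.blt_eq.mp g2
  have g3 := Nat.le_of_ble_eq_true g3
  have g5 := of_decide_eq_true g5
  rw [List.any_eq_true] at g4
  obtain ⟨a, ha, hab⟩ := g4
  rw [Bool.and_eq_true] at hab
  unfold polD at h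
  rw [Bool.and_eq_true] at h
  obtain ⟨h1, h2⟩ := h
  rw [hist_one hU] at h1 h2
  simp only [List.all_eq_true] at h1 h2
  have k1 := h1 _ hx
  have k2 := h2 _ hx
  simp only at k1 k2 g1 g2 g3 g5 hab
  have hup := C.up hU hJ hJ0
  have h5 : ∀ m, U {x : P // x ∈ toS N c J} m =
      (uR N (X : ℕ[X]) Us J m).map (Nat.castRingHom ℤ) := fun m => by
    rw [U_eq_V hup, C.V_eq hU m J hJ hJ0]
  have hlow := poly_lowS (n := N) (ℓ := ℓ) b hJ g1 rfl k1 k2
  simp only [← h5] at hlow
  have ha0 := hJ0 a hab.1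
  have hlv : ∀ x : {x : P // x ∈ toS N c J}, GaussPoset.lev x = GaussPoset.lev (x : P) :=
    lev_subtype (p := fun x => x ∈ toS N c J) (fun x y hxy hx => hup x hx y hxy)
  have hxx : ∀ i < ℓ, ∃ x : {x : P // x ∈ toS N c J}, i ≤ GaussPoset.lev x := by
    intro i hi
    refine ⟨⟨c a, (C.mem_iff hJ0 ha0).mpr hab.1⟩, ?_⟩
    rw [hlv, C.lev a ha0]
    have := Nat.le_of_ble_eq_true hab.2
    omega
  have hcd : Fintype.card {x : P // x ∈ toS N c J} = pc N J := by
    rw [Fintype.card_coe, C.card hJ0]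
  obtain ⟨V, hV⟩ := dvd_W_one (Q := {x : P // x ∈ toS N c J}) (i := i0) (hxx i0 g2)
  have hM0 : M0 {x : P // x ∈ toS N c J} i0 =
      ∑ a ∈ (range N).filter (fun a => J.testBit a = true), min i0 (lv a) := by
    rw [← C.sum_lev hJ0 (fun l => min i0 l)]
    unfold M0
    rw [← Finset.sum_coe_sort (toS N c J)]
    exact Finset.sum_congr rfl fun x _ => by rw [hlv]
  have hL := lead_V hxx (by rw [hcd]; exact g3) g2 hV hlow.1 hlow.2
    (N := M0 {x : P // x ∈ toS N c J} i0 + n0) (by rw [hM0, hcd]; exact g5)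
  exact Z_of_lead hV hL

/-- order two up to the energy `n0` -/
theorem CodM.low (C : CodM N J0 cv lv c) (hU : UsOK N cv Us) {B i0 K n0 : ℕ}
    {PL : List (Bool × (ℕ × ℕ × ℕ × ℕ × ℕ))} (h : polD N B K Us i0 PL = true)
    {x : Bool × (ℕ × ℕ × ℕ × ℕ × ℕ)}
    (hx : x ∈ PL) (hJ : x.2.1 ∈ Us) (hJ0 : Sm x.2.1 J0) (hnum : numC N K i0 n0 lv x.2 = true)
    (hc : x.2.2.2.2.2 = 0) :
    ∀ n' ≤ n0, (1 + X : ℤ[X]) ^ 2 ∣ Z {y : P // y ∈ toS N c x.2.1} i0 n' := by
  obtain ⟨h1, s, h2, h3⟩ := C.val hU h hx hJ hJ0 hnum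
  intro n' hn'
  rcases Nat.lt_or_ge n' n0 with h4 | h4
  · exact h1 n' h4
  · obtain rfl : n' = n0 := by omega
    rw [h2, pow_two]
    refine mul_dvd_mul_left _ ?_
    rw [hc, sc_zero, mul_zero] at h3
    have h5 := Polynomial.dvd_iff_isRoot.mpr (show s.IsRoot (-1) from h3)
    rwa [map_neg, map_one, sub_neg_eq_add, add_comm] at h5

end Code

end Pool.Agent.GaussPoset.J10

end

/-! From `Pool.Agent.W_448j10_h67.JbD` -/

section

/-!
Coded components with missing cells: one more cell, one more type of cells (MP_448cb3_co).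
-/

namespace Pool.Agent.GaussPoset.J10

set_option linter.unusedSectionVars false

open Polynomial Finset Cl Dd Sg

universe u

variable {P : Type u} [Fintype P] [PartialOrder P] [DecidableEq P]
variable {N J0 : ℕ} {cv lv um th : ℕ → ℕ} {c : ℕ → P} {Us : List ℕ}

lemma bit_lor {J k a : ℕ} : (Nat.lor J (2 ^ k)).testBit a = true ↔ J.testBit a = true ∨ a = k := by
  have h1 : (Nat.lor J (2 ^ k)).testBit a = (J.testBit a || (2 ^ k).testBit a) :=
    Nat.testBit_or _ _ _
  rw [h1, Bool.or_eq_true]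
  refine or_congr_right ?_
  constructor
  · intro h
    by_contra hne
    rw [Nat.testBit_two_pow_of_ne (Ne.symm hne)] at h
    exact absurd h (by simp)
  · rintro rfl
    exact Nat.testBit_two_pow_self

/-- the covers of `z` are the cells of the mask `m` -/
def Cvs (c : ℕ → P) (m : ℕ) (z : P) : Prop := ∀ y, z ⋖ y ↔ ∃ b, m.testBit b = true ∧ c b = y

lemma Cvs.congr {c c' : ℕ → P} {m : ℕ} {z : P} (h : Cvs c m z)
    (hc : ∀ a, m.testBit a = true → c' a = c a) : Cvs c' m z := by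
  intro y
  rw [h y]
  constructor
  · rintro ⟨b, h1, h2⟩
    exact ⟨b, h1, by rw [hc b h1]; exact h2⟩
  · rintro ⟨b, h1, h2⟩
    exact ⟨b, h1, by rw [← hc b h1]; exact h2⟩

/-- a coded set -/
structure Cx (N J0 : ℕ) (cv lv : ℕ → ℕ) (c : ℕ → P) (S : Finset P) : Prop where
  cod : CodM N J0 cv lv c
  mem : ∀ x, x ∈ S ↔ ∃ a, J0.testBit a = true ∧ c a = x

/-- one more cell -/
theorem CodM.insert (C : CodM N J0 cv lv c) {k : ℕ} (hk : k < N) (hkJ : J0.testBit k = false)
    (hcv : Sm (cv k) J0) {z : P} (hz : ∀ a, J0.testBit a = true → c a ≠ z)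
    (hcov : Cvs c (cv k) z) (hlev : GaussPoset.lev z = lv k) :
    CodM N (Nat.lor J0 (2 ^ k)) cv lv (Function.update c k z) := by
  have hne : ∀ a, J0.testBit a = true → a ≠ k := by
    rintro a ha rfl
    rw [hkJ] at ha
    exact absurd ha (by simp)
  have hup : ∀ a, J0.testBit a = true → Function.update c k z a = c a := fun a ha =>
    Function.update_of_ne (hne a ha) _ _
  have hself : Function.update c k z k = z := Function.update_self _ _ _
  refine ⟨?_, ?_, ?_, ?_, ?_⟩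
  · exact Nat.or_lt_two_pow C.lt (Nat.pow_lt_pow_right (by norm_num) hk)
  · intro a ha
    rw [sm_iff]
    intro b hb
    rw [bit_lor]
    rcases bit_lor.mp ha with h | h
    · exact Or.inl (sm_iff.mp (C.clo a h) b hb)
    · subst h
      exact Or.inl (hcv b hb)
  · intro a ha b hb h
    rcases bit_lor.mp ha with h1 | h1 <;> rcases bit_lor.mp hb with h2 | h2
    · rw [hup a h1, hup b h2] at h
      exact C.inj a h1 b h2 h
    · subst h2
      rw [hup a h1, hself] at h
      exact absurd h (hz a h1)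
    · subst h1
      rw [hup b h2, hself] at h
      exact absurd h.symm (hz b h2)
    · rw [h1, h2]
  · intro a ha y
    rcases bit_lor.mp ha with h1 | h1
    · rw [hup a h1, C.cov a h1 y]
      constructor
      · rintro ⟨b, g1, g2, g3⟩
        exact ⟨b, bit_lor.mpr (Or.inl g1), g2, by rw [hup b g1]; exact g3⟩
      · rintro ⟨b, g1, g2, g3⟩
        have g4 := sm_iff.mp (C.clo a h1) b g2
        exact ⟨b, g4, g2, by rw [← hup b g4]; exact g3⟩
    · subst h1
      rw [hself, hcov y]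
      constructor
      · rintro ⟨b, g2, g3⟩
        have g4 := hcv b g2
        exact ⟨b, bit_lor.mpr (Or.inl g4), g2, by rw [hup b g4]; exact g3⟩
      · rintro ⟨b, -, g2, g3⟩
        exact ⟨b, g2, by rw [← hup b (hcv b g2)]; exact g3⟩
  · intro a ha
    rcases bit_lor.mp ha with h1 | h1
    · rw [hup a h1]
      exact C.lev a h1
    · subst h1
      rw [hself]
      exact hlev

/-- one more cell -/
theorem Cx.insert {S : Finset P} (C : Cx N J0 cv lv c S) {k : ℕ} (hk : k < N)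
    (hkJ : J0.testBit k = false) (hcv : Sm (cv k) J0) {z : P} (hz : z ∉ S)
    (hcov : Cvs c (cv k) z) (hlev : GaussPoset.lev z = lv k) :
    Cx N (Nat.lor J0 (2 ^ k)) cv lv (Function.update c k z) (insert z S) := by
  have hne : ∀ a, J0.testBit a = true → a ≠ k := by
    rintro a ha rfl
    rw [hkJ] at ha
    exact absurd ha (by simp)
  have hup : ∀ a, J0.testBit a = true → Function.update c k z a = c a := fun a ha =>
    Function.update_of_ne (hne a ha) _ _
  have hself : Function.update c k z k = z := Function.update_self _ _ _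
  refine ⟨C.cod.insert hk hkJ hcv (fun a ha h => hz ((C.mem z).mpr ⟨a, ha, h⟩)) hcov hlev, ?_⟩
  intro x
  rw [mem_insert, C.mem x]
  constructor
  · rintro (h | ⟨a, h1, h2⟩)
    · exact ⟨k, bit_lor.mpr (Or.inr rfl), by rw [hself, h]⟩
    · exact ⟨a, bit_lor.mpr (Or.inl h1), by rw [hup a h1]; exact h2⟩
  · rintro ⟨a, h1, h2⟩
    rcases bit_lor.mp h1 with h3 | h3
    · exact Or.inr ⟨a, h3, by rw [← hup a h3]; exact h2⟩
    · left
      rw [← h2, h3, hself]

/-- the elements of level `l` whose covers are the cells of `m` -/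
noncomputable def tyS (c : ℕ → P) (m l : ℕ) : Finset P := by
  classical exact univ.filter (fun z => GaussPoset.lev z = l ∧ Cvs c m z)

lemma mem_tyS {m l : ℕ} {z : P} : z ∈ tyS c m l ↔ GaussPoset.lev z = l ∧ Cvs c m z := by
  classical
  unfold tyS
  simp

lemma tyS_congr {c c' : ℕ → P} {m l : ℕ} (hc : ∀ a, m.testBit a = true → c' a = c a) :
    tyS c' m l = tyS c m l := by
  ext z
  rw [mem_tyS, mem_tyS]
  exact ⟨fun h => ⟨h.1, h.2.congr fun a ha => (hc a ha).symm⟩, fun h => ⟨h.1, h.2.congr hc⟩⟩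

/-- **At most one more cell of one type.** -/
theorem Cx.ins1 {S : Finset P} (C : Cx N J0 cv lv c S) {k m l : ℕ} (hk : k < N)
    (hkJ : J0.testBit k = false) (hm : cv k = m) (hl : lv k = l) (hcv : Sm m J0)
    {T : Finset P} (hT : T.card ≤ 1) (hTS : ∀ z ∈ T, z ∉ S)
    (hTc : ∀ z ∈ T, GaussPoset.lev z = l ∧ Cvs c m z) :
    ∃ (c' : ℕ → P) (J' : ℕ), (∀ a, J0.testBit a = true → c' a = c a) ∧
      Cx N J' cv lv c' (S ∪ T) ∧ ((T = ∅ ∧ J' = J0) ∨
      ∃ z, T = {z} ∧ J' = Nat.lor J0 (2 ^ k) ∧ c' k = z) := by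
  rcases Nat.eq_zero_or_pos T.card with h | h
  · have h1 : T = ∅ := Finset.card_eq_zero.mp h
    exact ⟨c, J0, fun _ _ => rfl, by rw [h1, Finset.union_empty]; exact C, Or.inl ⟨h1, rfl⟩⟩
  · obtain ⟨z, hz⟩ := Finset.card_eq_one.mp (show T.card = 1 by omega)
    have hzT : z ∈ T := by rw [hz]; exact mem_singleton_self z
    have h1 := C.insert hk hkJ (by rw [hm]; exact hcv) (hTS z hzT)
      (by rw [hm]; exact (hTc z hzT).2) (by rw [hl]; exact (hTc z hzT).1)
    refine ⟨Function.update c k z, _, fun a ha => Function.update_of_ne ?_ _ _, ?_,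
      Or.inr ⟨z, hz, rfl, Function.update_self _ _ _⟩⟩
    · rintro rfl
      rw [hkJ] at ha
      exact absurd ha (by simp)
    · rw [hz, Finset.union_comm, ← Finset.insert_eq]
      exact h1

/-- **At most two more cells of one type.** -/
theorem Cx.ins2 {S : Finset P} (C : Cx N J0 cv lv c S) {k k' m l : ℕ} (hk : k < N) (hk' : k' < N)
    (hne : k ≠ k') (hkJ : J0.testBit k = false) (hkJ' : J0.testBit k' = false) (hm : cv k = m)
    (hm' : cv k' = m) (hl : lv k = l) (hl' : lv k' = l) (hcv : Sm m J0)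
    {T : Finset P} (hT : T.card ≤ 2) (hTS : ∀ z ∈ T, z ∉ S)
    (hTc : ∀ z ∈ T, GaussPoset.lev z = l ∧ Cvs c m z) :
    ∃ (c' : ℕ → P) (J' : ℕ), (∀ a, J0.testBit a = true → c' a = c a) ∧
      Cx N J' cv lv c' (S ∪ T) ∧ ((T = ∅ ∧ J' = J0) ∨
      (∃ z, T = {z} ∧ J' = Nat.lor J0 (2 ^ k) ∧ c' k = z) ∨
      ∃ z z', z ≠ z' ∧ T = {z, z'} ∧ J' = Nat.lor (Nat.lor J0 (2 ^ k)) (2 ^ k') ∧ c' k = z ∧
        c' k' = z') := by
  rcases Nat.lt_or_ge T.card 2 with h | h
  · obtain ⟨c', J', h1, h2, h3⟩ := C.ins1 hk hkJ hm hl hcv (T := T) (by omega) hTS hTc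
    refine ⟨c', J', h1, h2, ?_⟩
    rcases h3 with h3 | h3
    · exact Or.inl h3
    · exact Or.inr (Or.inl h3)
  · obtain ⟨z, z', hzz, hz⟩ := Finset.card_eq_two.mp (show T.card = 2 by omega)
    have hzT : z ∈ T := by rw [hz]; simp
    have hzT' : z' ∈ T := by rw [hz]; simp
    have h1 := C.insert hk hkJ (by rw [hm]; exact hcv) (hTS z hzT)
      (by rw [hm]; exact (hTc z hzT).2) (by rw [hl]; exact (hTc z hzT).1)
    have hbm : ∀ a, m.testBit a = true → a ≠ k := by
      rintro a ha rfl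
      have := hcv a ha
      rw [hkJ] at this
      exact absurd this (by simp)
    have h2 := h1.insert (k := k') (z := z') hk' (by
        rw [Bool.eq_false_iff]
        intro hcon
        rcases bit_lor.mp hcon with h3 | h3
        · rw [hkJ'] at h3
          exact absurd h3 (by simp)
        · exact hne h3.symm) (by
        rw [hm']
        exact fun a ha => bit_lor.mpr (Or.inl (hcv a ha))) (by
        rw [mem_insert, not_or]
        exact ⟨Ne.symm hzz, hTS z' hzT'⟩) (by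
        rw [hm']
        exact (hTc z' hzT').2.congr fun a ha => Function.update_of_ne (hbm a ha) _ _)
        (by rw [hl']; exact (hTc z' hzT').1)
    refine ⟨Function.update (Function.update c k z) k' z', _, fun a ha => ?_, ?_,
      Or.inr (Or.inr ⟨z, z', hzz, hz, rfl, ?_, Function.update_self _ _ _⟩)⟩
    · rw [Function.update_of_ne, Function.update_of_ne]
      · rintro rfl
        rw [hkJ] at ha
        exact absurd ha (by simp)
      · rintro rfl
        rw [hkJ'] at ha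
        exact absurd ha (by simp)
    · have h3 : S ∪ T = Insert.insert z' (Insert.insert z S) := by
        ext x
        rw [hz]
        simp only [mem_union, mem_insert, mem_singleton]
        tauto
      rw [h3]
      exact h2
    · rw [Function.update_of_ne hne, Function.update_self]

/-- the start: a coded strip -/
theorem Cx.ofCod {n : ℕ} {cv0 lv0 : ℕ → ℕ} (C : Cod n cv0 lv0 c) (hn : n ≤ N)
    (h1 : ∀ a < n, cv a = cv0 a) (h2 : ∀ a < n, lv a = lv0 a) (h3 : ∀ a < n, cv a < 2 ^ a)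
    {S : Finset P} (hS : ∀ x, x ∈ S ↔ ∃ a < n, c a = x) : Cx N (2 ^ n - 1) cv lv c S := by
  have hb : ∀ a, (2 ^ n - 1).testBit a = true ↔ a < n := by
    intro a
    rw [Nat.testBit_two_pow_sub_one]
    simp
  refine ⟨⟨?_, ?_, ?_, ?_, ?_⟩, ?_⟩
  · have h4 : 0 < 2 ^ n := Nat.two_pow_pos n
    have h5 : 2 ^ n ≤ 2 ^ N := Nat.pow_le_pow_right (by norm_num) hn
    omega
  · intro a ha
    rw [hb] at ha
    rw [sm_iff]
    intro b hbit
    rw [hb]
    have := bit_lt (h3 a ha) hbit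
    omega
  · intro a ha b hb' h
    rw [hb] at ha hb'
    exact C.inj a ha b hb' h
  · intro a ha y
    rw [hb] at ha
    rw [C.cov a ha y, h1 a ha]
    constructor
    · rintro ⟨b, g1, g2, g3⟩
      exact ⟨b, (hb b).mpr g1, g2, g3⟩
    · rintro ⟨b, g1, g2, g3⟩
      exact ⟨b, (hb b).mp g1, g2, g3⟩
  · intro a ha
    rw [hb] at ha
    rw [C.lev a ha, h2 a ha]
  · intro x
    rw [hS]
    constructor
    · rintro ⟨a, ha, h⟩
      exact ⟨a, (hb a).mpr ha, h⟩
    · rintro ⟨a, ha, h⟩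
      exact ⟨a, (hb a).mp ha, h⟩

end Pool.Agent.GaussPoset.J10

end

/-! From `Pool.Agent.W_448w6_h53.WcA` -/

section

/-!
The strip `La6` with elements of level 13 below the first two cells.
-/

namespace Pool.Agent.GaussPoset.W6

open Cl Dd Sg

/-- the up-sets -/
def Qaus : List ℕ := [67108863, 66060287, 65011711, 63963135, 63832063, 63815679, 50331647, 49283071, 48234495, 47185919, 47054847, 47038463, 33554431, 32505855, 31457279, 30408703, 30277631, 30261247, 16777215, 15728639, 14680063, 13631487, 13500415, 13484031, 12582911, 11534335, 10485759, 10223615, 9437183, 9306111, 9289727, 9175039, 9043967, 9027583, 9011199, 8994815, 8990719, 8989695, 8989439, 8388607, 7340031, 6291455, 5242879, 5111807, 5095423, 4194303, 3670015, 3145727, 2621439, 2097151, 1835007, 1572863, 1310719, 1245183, 1048575, 917503, 901119, 786431, 655359, 638975, 622591, 606207, 602111, 601087, 600831, 524287, 393215, 376831, 262143, 196607, 131071, 114687, 98303,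 81919, 77823, 76799, 76543, 65535, 49151, 32767, 24575, 16383, 12287, 11263, 11007, 8191, 4095, 3071, 2815, 2047, 1023, 767, 511, 383, 255, 191, 127, 63, 31, 15, 7, 3, 1, 0]

/-- the covers -/
def Qacv : List ℕ := [0, 1, 2, 4, 8, 16, 32, 32, 64, 192, 768, 512, 3072, 2048, 4096, 12288, 8192, 49152, 98304, 65536, 131072, 393216, 786432, 524288, 12582912, 12582912]

/-- the levels -/
def Qalv : List ℕ := [0, 1, 2, 3, 4, 5, 6, 6, 7, 7, 8, 8, 9, 9, 10, 10, 10, 11, 11, 11, 12, 12, 12, 12, 13, 13]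

/-- the cells above -/
def Qaum : List ℕ := [1, 3, 7, 15, 31, 63, 127, 191, 383, 767, 2047, 2815, 8191, 11007, 24575, 49151, 76543, 196607, 376831, 600831, 1245183, 2621439, 5095423, 8989439, 30261247, 47038463]

/-- the thresholds -/
def Qath : List ℕ := [0, 0, 0, 0, 0, 0, 0, 0, 1, 0, 1, 0, 1, 0, 2, 1, 0, 2, 1, 0, 3, 2, 1, 0, 1, 1]

/-- the up-sets above the base: code, `ℓ`, `M`, exponent, coefficient -/
def QaL : List (ℕ × ℕ × ℕ × ℕ × ℕ) := [(67108863, 14, 12, 176, 0), (66060287, 14, 11, 158, 0), (65011711, 14, 11, 158, 0), (63963135, 14, 10, 141, 0), (63832063, 14, 9, 125, 0), (63815679, 14, 8, 110, 0), (50331647, 14, 11, 158, 0), (49283071, 14, 10, 141, 0), (48234495, 14, 10, 141, 0), (47185919, 14, 9, 125, 0), (47054847, 14, 8, 110, 0), (47038463, 14, 7, 96, 0), (33554431, 14, 11, 158, 0), (32505855, 14, 10, 141, 0), (31457279, 14, 10, 141, 0), (30408703, 14, 9, 125, 0), (30277631, 14, 8, 110, 0), (30261247, 14, 7, 96, 0), (16777215,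 13, 11, 158, 0), (15728639, 13, 10, 141, 0), (14680063, 13, 10, 141, 0), (13631487, 13, 9, 125, 0), (13500415, 13, 8, 110, 0), (13484031, 13, 7, 96, 0), (12582911, 13, 10, 141, 0), (11534335, 13, 9, 125, 0), (10485759, 13, 9, 125, 0), (10223615, 13, 8, 110, 0), (9437183, 13, 8, 110, 0), (9306111, 13, 7, 96, 0), (9289727, 13, 6, 83, 0), (9175039, 13, 7, 96, 0), (9043967, 13, 6, 83, 0), (9027583, 13, 5, 71, 0), (9011199, 13, 5, 71, 0), (8994815, 13, 4, 60, 0), (8990719, 13, 3, 50, 0), (8989695, 13, 2, 41, 0), (8989439, 13, 1, 33, 0)]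

theorem Qa_us : UsOK 26 (fun a => Qacv.getD a 0) Qaus :=
  usOK_of_chk (by decide +kernel)

theorem Qa_pol1 : polF1 26 (2 ^ 100) 12 Qaus 6 (QaL) = true := by
  decide +kernel

theorem Qa_pol2 : polF2 26 (2 ^ 100) 12 Qaus (QaL) = true := by
  decide +kernel

theorem Qa_pol : polC 26 (2 ^ 100) 12 Qaus 6 (QaL) = true :=
  polC_of_fast Qa_pol1 Qa_pol2

theorem Qa_low : lowC 26 12 6 26 (fun a => Qalv.getD a 0) Qaus 8989439 QaL = true := by
  decide +kernel

theorem Qa_th : thChk 26 6 23 (fun a => Qalv.getD a 0) (fun a => Qacv.getD a 0)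
    (fun a => Qaum.getD a 0) (fun a => Qath.getD a 0) = true := by decide +kernel

theorem Qa_bm : bmC 26 6 23 8989439 (fun a => Qalv.getD a 0)
    (fun a => Qaum.getD a 0) = true := by decide +kernel

end Pool.Agent.GaussPoset.W6

end

/-! From `Pool.Agent.W_448w6_h53.WcD` -/

section

/-!
The strip `La6`: two elements of level 13 below the ends.
-/

namespace Pool.Agent.GaussPoset.W6

open Cl Dd Sg

/-- the up-sets -/
def Qdus : List ℕ := [67108863, 65011711, 62914559, 60817407, 60555263, 50331647, 48234495, 46137343, 44040191, 43778047, 33554431, 31457279, 29360127, 27262975, 27000831, 16777215, 15728639, 14680063, 13631487, 13500415, 13484031, 12582911, 11534335, 10485759, 10223615, 9437183, 9306111, 9289727, 9175039, 9043967, 9027583, 9011199, 8994815, 8990719, 8989695, 8989439, 8388607, 7340031, 6291455, 5242879, 5111807, 5095423, 4194303, 3670015, 3145727, 2621439, 2097151, 1835007, 1572863, 1310719, 1245183, 1048575, 917503, 901119,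 786431, 655359, 638975, 622591, 606207, 602111, 601087, 600831, 524287, 393215, 376831, 262143, 196607, 131071, 114687, 98303, 81919, 77823, 76799, 76543, 65535, 49151, 32767, 24575, 16383, 12287, 11263, 11007, 8191, 4095, 3071, 2815, 2047, 1023, 767, 511, 383, 255, 191, 127, 63, 31, 15, 7, 3, 1, 0]

/-- the covers -/
def Qdcv : List ℕ := [0, 1, 2, 4, 8, 16, 32, 32, 64, 192, 768, 512, 3072, 2048, 4096, 12288, 8192, 49152, 98304, 65536, 131072, 393216, 786432, 524288, 9437184, 9437184]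

/-- the levels -/
def Qdlv : List ℕ := [0, 1, 2, 3, 4, 5, 6, 6, 7, 7, 8, 8, 9, 9, 10, 10, 10, 11, 11, 11, 12, 12, 12, 12, 13, 13]

/-- the cells above -/
def Qdum : List ℕ := [1, 3, 7, 15, 31, 63, 127, 191, 383, 767, 2047, 2815, 8191, 11007, 24575, 49151, 76543, 196607, 376831, 600831, 1245183, 2621439, 5095423, 8989439, 27000831, 43778047]

/-- the thresholds -/
def Qdth : List ℕ := [0, 0, 0, 0, 0, 0, 0, 0, 1, 0, 1, 0, 1, 0, 1, 1, 0, 1, 1, 0, 1, 2, 1, 0, 1, 1]

/-- the up-sets above the base: code, `ℓ`, `M`, exponent, coefficient -/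
def QdL : List (ℕ × ℕ × ℕ × ℕ × ℕ) := [(67108863, 14, 12, 172, 0), (65011711, 14, 11, 154, 0), (62914559, 14, 11, 154, 0), (60817407, 14, 10, 137, 0), (60555263, 14, 9, 121, 0), (50331647, 14, 11, 154, 0), (48234495, 14, 10, 137, 0), (46137343, 14, 10, 137, 0), (44040191, 14, 9, 121, 0), (43778047, 14, 8, 106, 0), (33554431, 14, 11, 154, 0), (31457279, 14, 10, 137, 0), (29360127, 14, 10, 137, 0), (27262975, 14, 9, 121, 0), (27000831, 14, 8, 106, 0), (16777215, 13, 11, 154, 0), (15728639, 13, 10, 137, 0), (14680063, 13, 10, 137, 0), (13631487, 13, 9, 121, 0), (13500415, 13, 8, 106, 0), (13484031, 13, 7, 92, 0), (12582911, 13, 10, 137, 0), (11534335, 13, 9, 121, 0), (10485759, 13, 9, 121, 0), (10223615, 13, 8, 106, 0), (9437183, 13, 8, 106, 0), (9306111, 13, 7, 92, 0), (9289727, 13, 6, 79, 0), (9175039, 13, 7, 92, 0), (9043967, 13, 6, 79, 0), (9027583, 13, 5, 67, 0), (9011199, 13, 5, 67, 0), (8994815, 13, 4, 56, 0), (8990719, 13, 3, 46, 0), (8989695,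 13, 2, 37, 0), (8989439, 13, 1, 29, 0)]

/-- the complete up-sets -/
def QdF : List (ℕ × ℕ × ℕ × ℕ × ℕ) := [(67108863, 14, 12, 173, 2)]

theorem Qd_us : UsOK 26 (fun a => Qdcv.getD a 0) Qdus :=
  usOK_of_chk (by decide +kernel)

theorem Qd_pol1 : polF1 26 (2 ^ 100) 12 Qdus 6 (QdL ++ QdF) = true := by
  decide +kernel

theorem Qd_pol2 : polF2 26 (2 ^ 100) 12 Qdus (QdL ++ QdF) = true := by
  decide +kernel

theorem Qd_pol : polC 26 (2 ^ 100) 12 Qdus 6 (QdL ++ QdF) = true :=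
  polC_of_fast Qd_pol1 Qd_pol2

theorem Qd_low : lowC 26 12 6 22 (fun a => Qdlv.getD a 0) Qdus 8989439 QdL = true := by
  decide +kernel

theorem Qd_th : thChk 26 6 23 (fun a => Qdlv.getD a 0) (fun a => Qdcv.getD a 0)
    (fun a => Qdum.getD a 0) (fun a => Qdth.getD a 0) = true := by decide +kernel

theorem Qd_bm : bmC 26 6 23 8989439 (fun a => Qdlv.getD a 0)
    (fun a => Qdum.getD a 0) = true := by decide +kernel

theorem Qd_num : ∀ x ∈ QdF, numC 26 12 6 23 (fun a => Qdlv.getD a 0) x = true := by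
  decide +kernel

theorem Qd_mem : ∀ x ∈ QdF, x.1 ∈ Qdus := by decide +kernel

end Pool.Agent.GaussPoset.W6

end
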