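import Mathlib
import Pool.Agent.W_448zz_h61.Ns
import Pool.Agent.W_448zz_h61.M029

/-! From `Pool.Agent.W_448s8_h76.SaA` -/

section

/-!
Sums over the cells above a cell.
-/

namespace Pool.Agent.GaussPoset

set_option linter.unusedSectionVars false

open Finset

universe u

/-- sum of the small weights -/
lemma two_sum_min (L : ℕ) : ∀ a : ℕ, 2 * ∑ u ∈ range (a + L), min L u = L * (L - 1) + 2 * (L * a) := by
  intro a
  induction a with
  | zero =>
    rw [Nat.zero_add, Nat.mul_zero, Nat.mul_zero, Nat.add_zero, Nat.mul_comm 2]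
    have h1 : ∑ u ∈ range L, min L u = ∑ u ∈ range L, u :=
      Finset.sum_congr rfl fun u hu => Nat.min_eq_right (mem_range.mp hu).le
    rw [h1]
    exact Finset.sum_range_id_mul_two L
  | succ a ih =>
    rw [show a + 1 + L = (a + L) + 1 by ring, Finset.sum_range_succ, Nat.mul_add, ih,
      Nat.min_eq_left (by omega)]
    ring

section RowSum

/-- the cells of the row `a` up to the column `c`, the level counted with the weight `w` -/
def rowW (shift : Bool) (w : ℕ → ℕ) (c lv a : ℕ) : ℕ :=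
  ∑ k ∈ range (lv + 1), if a ≤ k ∧ k - a ≤ c ∧ (shift = true → a ≤ k - a) then w k else 0

/-- lower bound of a row by a piece of it -/
lemma rowW_ge {shift : Bool} {w : ℕ → ℕ} {c lv a : ℕ} (k0 n : ℕ) (v : ℕ → ℕ)
    (h : ∀ u < n, 1 ≤ v u → k0 + u ≤ lv ∧ a ≤ k0 + u ∧ k0 + u - a ≤ c ∧
      (shift = true → a ≤ k0 + u - a) ∧ v u ≤ w (k0 + u)) :
    ∑ u ∈ range n, v u ≤ rowW shift w c lv a := by
  classical
  unfold rowW
  have h1 : ∑ u ∈ range n, v u = ∑ u ∈ (range n).filter (fun u => 1 ≤ v u), v u := by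
    symm
    refine Finset.sum_filter_of_ne fun u _ hu => by omega
  rw [h1]
  have h2 : ∑ u ∈ (range n).filter (fun u => 1 ≤ v u), v u =
      ∑ k ∈ ((range n).filter (fun u => 1 ≤ v u)).map (addLeftEmbedding k0), v (k - k0) := by
    rw [Finset.sum_map]
    refine Finset.sum_congr rfl fun u _ => ?_
    rw [addLeftEmbedding_apply, Nat.add_sub_cancel_left]
  rw [h2]
  refine le_trans (Finset.sum_le_sum (g := fun k => if a ≤ k ∧ k - a ≤ c ∧
    (shift = true → a ≤ k - a) then w k else 0) ?_) (Finset.sum_le_sum_of_subset ?_)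
  · intro k hk
    rw [mem_map] at hk
    obtain ⟨u, hu, rfl⟩ := hk
    rw [mem_filter, mem_range] at hu
    have h3 := h u hu.1 hu.2
    rw [addLeftEmbedding_apply, Nat.add_sub_cancel_left]
    rw [if_pos ⟨h3.2.1, h3.2.2.1, h3.2.2.2.1⟩]
    exact h3.2.2.2.2
  · intro k hk
    rw [mem_map] at hk
    obtain ⟨u, hu, rfl⟩ := hk
    rw [mem_filter, mem_range] at hu
    have h3 := h u hu.1 hu.2
    rw [mem_range, addLeftEmbedding_apply]
    omega

/-- a row with `2 a ≤ m + 1` -/
lemma rowW_low {shift : Bool} {m c lv a L : ℕ} (ha : shift = true → 2 * a ≤ m + 1) (hm : a ≤ m)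
    (hc : m + L = c + 1) (hlv : a + c ≤ lv) :
    L * (L - 1) + 2 * (L * a) ≤ 2 * rowW shift (fun k => min L (k - m)) c lv a := by
  rw [← two_sum_min L a]
  refine Nat.mul_le_mul_left 2 (rowW_ge m (a + L) (fun u => min L u) ?_)
  intro u hu hu1
  have hu2 : 1 ≤ u := by
    by_contra hcon
    have h0 : u = 0 := by omega
    have h2 : 1 ≤ min L u := hu1
    rw [h0, Nat.min_zero] at h2
    omega
  refine ⟨by omega, by omega, by omega, fun h => ?_, ?_⟩
  · have := ha h
    omega
  show min L u ≤ min L (m + u - m)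
  rw [Nat.add_sub_cancel_left]

/-- a row with `2 a ≥ m + v`: every cell has weight at least `v` -/
lemma rowW_high {shift : Bool} {m c lv a L v : ℕ} (ha : m + v ≤ 2 * a) (hv : v ≤ L)
    (hlv : a + c ≤ lv) : v * (c + 1 - a) ≤ rowW shift (fun k => min L (k - m)) c lv a := by
  have h := rowW_ge (shift := shift) (w := fun k => min L (k - m)) (c := c) (lv := lv) (a := a)
    (2 * a) (c + 1 - a) (fun _ => v) ?_
  · rw [Finset.sum_const, card_range, smul_eq_mul, Nat.mul_comm] at h
    exact h
  · intro u hu _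
    refine ⟨by omega, by omega, by omega, fun _ => by omega, ?_⟩
    show v ≤ min L (2 * a + u - m)
    rw [Nat.le_min]
    omega

end RowSum

section Chart

variable {P : Type u} [Fintype P] [PartialOrder P] [DecidableEq P] {r : ℕ}
variable {t : P} {N : Finset P} {co : P → ℕ × ℕ}

/-- sums over the elements above a cell, by rows -/
theorem sum_nab_rows {S : ℕ × ℕ → Prop} {shift : Bool} (C : Chart t S N co)
    (hS : ∀ c, S c ↔ (shift = true → c.1 ≤ c.2)) {x : P} (hx : x ∈ N) (w : ℕ → ℕ) :
    ∑ k ∈ range (lev x + 1), w k * nab k x =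
      ∑ a ∈ range ((co x).1 + 1), rowW shift w (co x).2 (lev x) a := by
  classical
  unfold rowW
  rw [Finset.sum_comm]
  refine Finset.sum_congr rfl fun k _ => ?_
  rw [nab_chart C hx k]
  unfold cellsAt
  rw [Finset.card_filter, Finset.mul_sum]
  refine Finset.sum_congr rfl fun a _ => ?_
  have h1 : (a ≤ k ∧ k - a ≤ (co x).2 ∧ S (a, k - a)) ↔
      (a ≤ k ∧ k - a ≤ (co x).2 ∧ (shift = true → a ≤ k - a)) := by
    rw [hS]
  by_cases h : a ≤ k ∧ k - a ≤ (co x).2 ∧ S (a, k - a)
  · rw [if_pos h, if_pos (h1.mp h), Nat.mul_one]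
  · rw [if_neg h, if_neg (fun h' => h (h1.mpr h')), Nat.mul_zero]

end Chart

end Pool.Agent.GaussPoset

end

/-! From `Pool.Agent.W_448s8_h76.SaB` -/

section

/-!
Lower bounds for the cost at the cells of level `2 m + 1`, window `m`; closed forms.
-/

namespace Pool.Agent.GaussPoset

set_option linter.unusedSectionVars false

open Finset

lemma sum_low (L : ℕ) : ∀ n : ℕ, ∑ a ∈ range n, (L * (L - 1) + 2 * (L * a)) =
    n * (L * (L - 1)) + L * (n * (n - 1)) := by
  intro n
  rw [Finset.sum_add_distrib, Finset.sum_const, card_range, smul_eq_mul, ← Finset.mul_sum,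
    ← Finset.mul_sum]
  have h := Finset.sum_range_id_mul_two n
  have h2 : 2 * (L * ∑ i ∈ range n, i) = L * ((∑ i ∈ range n, i) * 2) := by ring
  rw [h2, h]

lemma sum_dec (D : ℕ) : ∀ n ≤ D, 2 * ∑ i ∈ range n, (D - i) + n * (n - 1) = 2 * (n * D) := by
  intro n
  induction n with
  | zero => intro _; simp
  | succ n ih =>
    intro h
    have h1 := ih (by omega)
    rw [Finset.sum_range_succ, Nat.mul_add]
    obtain ⟨D', rfl⟩ : ∃ D', D = n + D' := ⟨D - n, by omega⟩
    rw [Nat.add_sub_cancel_left, Nat.add_sub_cancel]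
    rcases Nat.eq_zero_or_pos n with h0 | h0
    · subst h0
      simp at h1 ⊢
    · obtain ⟨k, rfl⟩ : ∃ k, n = k + 1 := ⟨n - 1, by omega⟩
      rw [Nat.add_sub_cancel] at h1
      nlinarith

/-- rectangle-like cells -/
theorem kap_rect {m s c : ℕ} (hs : 1 ≤ s) (hsm : s ≤ m) (hc : s + c = 2 * m + 1) :
    (m + 1) * (m + 1) + 2 ≤ (c - m + 1) + ∑ a ∈ range (s + 1),
      rowW false (fun k => min (c - m + 1) (k - m)) c (2 * m + 1) a := by
  obtain ⟨d, rfl⟩ : ∃ d, m = s + d := ⟨m - s, by omega⟩
  have hcd : c = s + 2 * d + 1 := by omega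
  subst hcd
  have hL : s + 2 * d + 1 - (s + d) + 1 = d + 2 := by omega
  rw [hL]
  have h1 : ∑ a ∈ range (s + 1), ((d + 2) * (d + 2 - 1) + 2 * ((d + 2) * a)) ≤
      ∑ a ∈ range (s + 1), 2 * rowW false (fun k => min (d + 2) (k - (s + d)))
        (s + 2 * d + 1) (2 * (s + d) + 1) a := by
    refine Finset.sum_le_sum fun a ha => ?_
    rw [mem_range] at ha
    exact rowW_low (fun h => by cases h) (by omega) (by omega) (by omega)
  rw [sum_low, ← Finset.mul_sum] at h1
  have e1 : d + 2 - 1 = d + 1 := by omega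
  have e2 : s + 1 - 1 = s := by omega
  rw [e1, e2] at h1
  obtain ⟨s', rfl⟩ : ∃ s', s = s' + 1 := ⟨s - 1, by omega⟩
  nlinarith [Nat.zero_le (d * s'), Nat.zero_le (d * s' * s'), Nat.zero_le (d * d * s')]

/-- the bound `K` -/
def Kb (m : ℕ) : ℕ :=
  if m % 2 = 0 then 2 * (m / 2) * (m / 2) + 2 * (m / 2) + 3
  else 2 * (m / 2) * (m / 2) + 9 * (m / 2) + 8

lemma Kb_even (q : ℕ) : Kb (2 * q) = 2 * q * q + 2 * q + 3 := by
  unfold Kb
  rw [if_pos (by omega), show 2 * q / 2 = q by omega]

lemma Kb_odd (q : ℕ) : Kb (2 * q + 1) = 2 * q * q + 9 * q + 8 := by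
  unfold Kb
  rw [if_neg (by omega), show (2 * q + 1) / 2 = q by omega]

/-- the low rows -/
lemma stair_low {m c L A : ℕ} (hA : 2 * A ≤ m + 1) (hc : m + L = c + 1)
    (hlv : A + c ≤ 2 * m + 1) :
    (A + 1) * (L * (L - 1)) + L * ((A + 1) * A) ≤
      2 * ∑ a ∈ range (A + 1), rowW true (fun k => min L (k - m)) c (2 * m + 1) a := by
  have h1 : ∑ a ∈ range (A + 1), (L * (L - 1) + 2 * (L * a)) ≤
      ∑ a ∈ range (A + 1), 2 * rowW true (fun k => min L (k - m)) c (2 * m + 1) a := by
    refine Finset.sum_le_sum fun a ha => ?_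
    rw [mem_range] at ha
    refine rowW_low (fun _ => by omega) ?_ hc (by omega)
    rcases Nat.eq_zero_or_pos a with h0 | h0
    · omega
    · omega
  rw [sum_low, ← Finset.mul_sum, Nat.add_sub_cancel] at h1
  exact h1

/-- the high rows -/
lemma stair_high {m c L A n v D : ℕ} (hA : m + v ≤ 2 * (A + 1)) (hv : v ≤ L)
    (hlv : A + n + c ≤ 2 * m + 1) (hD : D + A = c) (hn : n ≤ D) :
    v * (2 * (n * D)) ≤ 2 * (∑ i ∈ range n,
      rowW true (fun k => min L (k - m)) c (2 * m + 1) (A + 1 + i)) + v * (n * (n - 1)) := by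
  have h1 : ∑ i ∈ range n, v * (D - i) ≤ ∑ i ∈ range n,
      rowW true (fun k => min L (k - m)) c (2 * m + 1) (A + 1 + i) := by
    refine Finset.sum_le_sum fun i hi => ?_
    rw [mem_range] at hi
    have h2 := rowW_high (shift := true) (m := m) (c := c) (lv := 2 * m + 1) (a := A + 1 + i)
      (L := L) (v := v) (by omega) hv (by omega)
    rwa [show c + 1 - (A + 1 + i) = D - i by omega] at h2
  rw [← Finset.mul_sum] at h1
  have h3 := sum_dec D n hn
  calc v * (2 * (n * D)) = v * (2 * ∑ i ∈ range n, (D - i) + n * (n - 1)) := by rw [h3]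
    _ = 2 * (v * ∑ i ∈ range n, (D - i)) + v * (n * (n - 1)) := by ring
    _ ≤ _ := Nat.add_le_add_right (Nat.mul_le_mul_left 2 h1) _

lemma low_ge (A l : ℕ) : (A + 1) * 12 + 4 * ((A + 1) * A) ≤
    (A + 1) * ((l + 4) * (l + 3)) + (l + 4) * ((A + 1) * A) := by
  refine Nat.add_le_add (Nat.mul_le_mul_left _ ?_) (Nat.mul_le_mul_right _ (by omega))
  exact (Nat.mul_le_mul (show 4 ≤ l + 4 by omega) (show 3 ≤ l + 3 by omega))

/-- the fold cell, `m` odd: the low rows -/
lemma fold_row {m c a : ℕ} (hc : c = m + 1) (ha : 2 * a ≤ m + 1) (hm : 1 ≤ m) :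
    3 * a + (if a = 0 then 1 else 0) ≤
      rowW true (fun k => min 3 (k - m)) c (2 * m + 1) a := by
  subst hc
  rcases Nat.eq_zero_or_pos a with h0 | h0
  · subst h0
    have h7 := rowW_ge (shift := true) (w := fun k => min 3 (k - m))
      (c := m + 1) (lv := 2 * m + 1) (a := 0) (m + 1) 1 (fun _ => 1) (by
        intro u hu _
        have hu0 : u = 0 := by omega
        subst hu0
        refine ⟨by omega, Nat.zero_le _, by omega, fun _ => Nat.zero_le _, ?_⟩
        show 1 ≤ min 3 (m + 1 + 0 - m)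
        rw [Nat.le_min]
        omega)
    simpa using h7
  · have h7 := rowW_ge (shift := true) (w := fun k => min 3 (k - m))
      (c := m + 1) (lv := 2 * m + 1) (a := a) m (a - 1 + 3)
      (fun u => min 3 u) (by
        intro u hu hu1
        have hu2 : 1 ≤ u := by
          by_contra hcon
          have h0 : u = 0 := by omega
          have h2 : 1 ≤ min 3 u := hu1
          rw [h0, Nat.min_zero] at h2
          omega
        refine ⟨by omega, by omega, by omega, fun _ => by omega, ?_⟩
        show min 3 u ≤ min 3 (m + u - m)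
        rw [Nat.add_sub_cancel_left])
    have h8 := two_sum_min 3 (a - 1)
    rw [if_neg (by omega)]
    omega

lemma fold_low {m c A : ℕ} (hc : c = m + 1) (hA : 2 * A ≤ m + 1) (hm : 1 ≤ m) :
    3 * (A * (A + 1)) + 2 ≤
      2 * ∑ a ∈ range (A + 1), rowW true (fun k => min 3 (k - m)) c (2 * m + 1) a := by
  have h7 := Finset.sum_le_sum fun a (ha : a ∈ range (A + 1)) =>
    fold_row hc (a := a) (by have := mem_range.mp ha; omega) hm
  rw [Finset.sum_add_distrib, Finset.sum_ite_eq' (range (A + 1)) 0,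
    if_pos (mem_range.mpr (by omega)), ← Finset.mul_sum] at h7
  have h8 := Finset.sum_range_id_mul_two (A + 1)
  rw [Nat.add_sub_cancel] at h8
  have h9 : 2 * (3 * ∑ i ∈ range (A + 1), i) = 3 * ((∑ i ∈ range (A + 1), i) * 2) := by ring
  rw [h8] at h9
  have h10 : 3 * ((A + 1) * A) = 3 * (A * (A + 1)) := by ring
  omega

/-- stair-like cells -/
theorem kap_stair {m s c L : ℕ} (hm : 6 ≤ m) (hs : 1 ≤ s) (hsm : s ≤ m) (hc : s + c = 2 * m + 1)
    (hL : L = (s - 2 * (m / 2)) + (c - m) + 1) :
    Kb m ≤ L + ∑ a ∈ range (s + 1), rowW true (fun k => min L (k - m)) c (2 * m + 1) a := by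
  have hKm : Kb m ≤ (m + 1) * (m + 1) + 2 := by
    obtain ⟨q, hq | hq⟩ := Nat.even_or_odd' m
    · subst hq
      rw [Kb_even]
      nlinarith
    · subst hq
      rw [Kb_odd]
      nlinarith
  by_cases h1 : 2 * s ≤ m + 1
  · -- all rows are low
    have hL' : L = c - m + 1 := by omega
    obtain ⟨d, rfl⟩ : ∃ d, m = s + d := ⟨m - s, by omega⟩
    have hLd : L = d + 2 := by omega
    have h2 := stair_low (m := s + d) (c := c) (L := L) (A := s) h1 (by omega) (by omega)
    rw [hLd] at h2 ⊢
    have e1 : d + 2 - 1 = d + 1 := by omega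
    rw [e1] at h2
    obtain ⟨s', rfl⟩ : ∃ s', s = s' + 1 := ⟨s - 1, by omega⟩
    refine hKm.trans ?_
    nlinarith [Nat.zero_le (d * s'), Nat.zero_le (d * s' * s'), Nat.zero_le (d * d * s')]
  · have hAs : (m + 1) / 2 + 1 ≤ s := by omega
    obtain ⟨n, hn⟩ : ∃ n, s + 1 = ((m + 1) / 2 + 1) + n := ⟨s + 1 - ((m + 1) / 2 + 1), by omega⟩
    rw [hn, Finset.sum_range_add]
    obtain ⟨S1, hS1⟩ : ∃ S1, S1 = ∑ a ∈ range ((m + 1) / 2 + 1),
      rowW true (fun k => min L (k - m)) c (2 * m + 1) a := ⟨_, rfl⟩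
    obtain ⟨S2, hS2⟩ : ∃ S2, S2 = ∑ a ∈ range n,
      rowW true (fun k => min L (k - m)) c (2 * m + 1) ((m + 1) / 2 + 1 + a) := ⟨_, rfl⟩
    rw [← hS1, ← hS2]
    by_cases h2 : s + 2 ≤ m
    · -- `L ≥ 4`
      have hL' : m + L = c + 1 := by omega
      have h3 := stair_low (m := m) (c := c) (L := L) (A := (m + 1) / 2) (by omega) hL'
        (by omega)
      rw [← hS1] at h3
      clear hS1 hS2
      obtain ⟨l, rfl⟩ : ∃ l, L = l + 4 := ⟨L - 4, by omega⟩
      have e1 : l + 4 - 1 = l + 3 := by omega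
      rw [e1] at h3
      obtain ⟨q, hq | hq⟩ := Nat.even_or_odd' m
      · subst hq
        rw [Kb_even]
        rw [show (2 * q + 1) / 2 = q by omega] at h3
        have h5 := (low_ge q l).trans h3
        clear h3 hKm
        nlinarith
      · subst hq
        rw [Kb_odd]
        rw [show (2 * q + 1 + 1) / 2 = q + 1 by omega] at h3
        have h5 := (low_ge (q + 1) l).trans h3
        clear h3 hKm
        nlinarith
    · by_cases h3 : s + 1 = m
      · -- `L = 3`
        have hL3 : L = 3 := by omega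
        subst hL3
        have h4 := stair_low (m := m) (c := c) (L := 3) (A := (m + 1) / 2) (by omega)
          (by omega) (by omega)
        have h5 := stair_high (m := m) (c := c) (L := 3) (A := (m + 1) / 2) (n := n) (v := 2)
          (D := c - (m + 1) / 2) (by omega) (by omega) (by omega) (by omega) (by omega)
        rw [← hS1] at h4
        rw [← hS2] at h5
        clear hS1 hS2 hKm
        obtain ⟨q, hq | hq⟩ := Nat.even_or_odd' m
        · subst hq
          rw [Kb_even]
          have e2 : (2 * q + 1) / 2 = q := by omega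
          rw [e2] at h4 h5 hn
          obtain ⟨p, rfl⟩ : ∃ p, q = p + 3 := ⟨q - 3, by omega⟩
          have e3 : n = p + 2 := by omega
          have e4 : c - (p + 3) = p + 5 := by omega
          rw [e3, e4] at h5
          have e5 : p + 2 - 1 = p + 1 := by omega
          rw [e5] at h5
          norm_num at h4
          clear hm hsm hc h1 hAs hn hL h2 h3
          nlinarith
        · subst hq
          rw [Kb_odd]
          have e2 : (2 * q + 1 + 1) / 2 = q + 1 := by omega
          rw [e2] at h4 h5 hn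
          obtain ⟨p, rfl⟩ : ∃ p, q = p + 2 := ⟨q - 2, by omega⟩
          have e3 : n = p + 1 := by omega
          have e4 : c - (p + 2 + 1) = p + 4 := by omega
          rw [e3, e4] at h5
          have e5 : p + 1 - 1 = p := by omega
          rw [e5] at h5
          norm_num at h4
          clear hm hsm hc h1 hAs hn hL h2 h3
          nlinarith
      · have hsm' : s = m := by omega
        subst hsm'
        clear hKm
        obtain ⟨q, hq | hq⟩ := Nat.even_or_odd' s
        · have hL2 : L = 2 := by omega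
          subst hL2
          have h4 := stair_low (m := s) (c := c) (L := 2) (A := (s + 1) / 2) (by omega)
            (by omega) (by omega)
          have h5 := stair_high (m := s) (c := c) (L := 2) (A := (s + 1) / 2) (n := n) (v := 2)
            (D := c - (s + 1) / 2) (by omega) (by omega) (by omega) (by omega) (by omega)
          rw [← hS1] at h4
          rw [← hS2] at h5
          clear hS1 hS2
          subst hq
          rw [Kb_even]
          have e2 : (2 * q + 1) / 2 = q := by omega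
          rw [e2] at h4 h5 hn
          obtain ⟨p, rfl⟩ : ∃ p, q = p + 3 := ⟨q - 3, by omega⟩
          have e3 : n = p + 3 := by omega
          have e4 : c - (p + 3) = p + 4 := by omega
          rw [e3, e4] at h5
          have e5 : p + 3 - 1 = p + 2 := by omega
          rw [e5] at h5
          norm_num at h4
          clear hm hsm hc h1 hAs hn hL h2 h3
          nlinarith
        · have hL3 : L = 3 := by omega
          subst hL3
          have h4 := fold_low (m := s) (c := c) (A := (s + 1) / 2) (by omega) (by omega)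
            (by omega)
          have h5 := stair_high (m := s) (c := c) (L := 3) (A := (s + 1) / 2) (n := n) (v := 3)
            (D := c - (s + 1) / 2) (by omega) (by omega) (by omega) (by omega) (by omega)
          rw [← hS1] at h4
          rw [← hS2] at h5
          clear hS1 hS2
          subst hq
          rw [Kb_odd]
          have e2 : (2 * q + 1 + 1) / 2 = q + 1 := by omega
          rw [e2] at h4 h5 hn
          obtain ⟨p, rfl⟩ : ∃ p, q = p + 1 := ⟨q - 1, by omega⟩
          have e3 : n = p + 1 := by omega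
          have e4 : c - (p + 1 + 1) = p + 2 := by omega
          rw [e3, e4] at h5
          have e5 : p + 1 - 1 = p := by omega
          rw [e5] at h5
          clear hm hsm hc h1 hAs hn hL h2 h3
          nlinarith

end Pool.Agent.GaussPoset

end

/-! From `Pool.Agent.W_448s8_h76.SaC` -/

section

/-!
Numbers of the fold end.
-/

namespace Pool.Agent.GaussPoset

set_option linter.unusedSectionVars false

open Finset

/-- the label `h` -/
def hh (m : ℕ) : ℕ := 1 + m % 2

lemma hh_even (q : ℕ) : hh (2 * q) = 1 := by unfold hh; omega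
lemma hh_odd (q : ℕ) : hh (2 * q + 1) = 2 := by unfold hh; omega
lemma hh_pos (m : ℕ) : 1 ≤ hh m := by unfold hh; omega
lemma hh_le (m : ℕ) : hh m ≤ 2 := by unfold hh; omega

/-- number of elements of level `m + u` above the fold end `(m, m)` -/
def nF (m u : ℕ) : ℕ := (m + u) / 2 + 1 - u

/-- cost of the label `k` above the fold end -/
def NF (m k : ℕ) : ℕ := ∑ u ∈ range (m + 1), min k u * nF m u

/-- cost of the label `k` above an element of level `2 m` with one element on every level -/
def NL (m k : ℕ) : ℕ := ∑ u ∈ range (m + 1), min k u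

lemma NF_aux1 (q : ℕ) : ∀ n ≤ q, ∑ u ∈ range (2 * n + 1), min 1 u * nF (2 * q) u + n * (n + 1) =
    2 * (n * (q + 1)) := by
  intro n
  induction n with
  | zero => intro _; simp
  | succ n ih =>
    intro h
    have h1 := ih (by omega)
    rw [show 2 * (n + 1) + 1 = 2 * n + 1 + 1 + 1 by ring, Finset.sum_range_succ,
      Finset.sum_range_succ]
    have e1 : min 1 (2 * n + 1) * nF (2 * q) (2 * n + 1) = q - n := by
      rw [Nat.min_eq_left (by omega)]; unfold nF; omega
    have e2 : min 1 (2 * n + 1 + 1) * nF (2 * q) (2 * n + 1 + 1) = q - n := by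
      rw [Nat.min_eq_left (by omega)]; unfold nF; omega
    rw [e1, e2]
    obtain ⟨d, rfl⟩ : ∃ d, q = n + 1 + d := ⟨q - (n + 1), by omega⟩
    have e3 : n + 1 + d - n = d + 1 := by omega
    rw [e3]
    nlinarith

lemma NF_even (q : ℕ) : NF (2 * q) 1 = q * (q + 1) := by
  have h := NF_aux1 q q le_rfl
  unfold NF
  nlinarith

lemma NF_aux2 (q : ℕ) : ∀ n ≤ q, ∑ u ∈ range (2 * n + 2), min 2 u * nF (2 * q + 1) u +
    2 * (n * n) = (q + 1) + 4 * (n * q) + 2 * n := by
  intro n
  induction n with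
  | zero =>
    intro _
    simp only [Nat.mul_zero, Nat.zero_add, Finset.sum_range_succ, Finset.sum_range_zero]
    unfold nF
    rw [Nat.min_eq_right (by omega), Nat.min_eq_right (by omega)]
    omega
  | succ n ih =>
    intro h
    have h1 := ih (by omega)
    rw [show 2 * (n + 1) + 2 = 2 * n + 2 + 1 + 1 by ring, Finset.sum_range_succ,
      Finset.sum_range_succ]
    have e1 : min 2 (2 * n + 2) * nF (2 * q + 1) (2 * n + 2) = 2 * (q - n) := by
      rw [Nat.min_eq_left (by omega)]; unfold nF; omega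
    have e2 : min 2 (2 * n + 2 + 1) * nF (2 * q + 1) (2 * n + 2 + 1) = 2 * (q - n) := by
      rw [Nat.min_eq_left (by omega)]; unfold nF; omega
    rw [e1, e2]
    obtain ⟨d, rfl⟩ : ∃ d, q = n + 1 + d := ⟨q - (n + 1), by omega⟩
    have e3 : n + 1 + d - n = d + 1 := by omega
    rw [e3]
    nlinarith

lemma NF_odd (q : ℕ) : NF (2 * q + 1) 2 = (q + 1) * (2 * q + 1) := by
  have h := NF_aux2 q q le_rfl
  unfold NF
  rw [show 2 * q + 1 + 1 = 2 * q + 2 by ring]
  nlinarith

lemma NF_aux3 (q : ℕ) : ∀ n ≤ q, ∑ u ∈ range (2 * n + 2), min 1 u * nF (2 * q + 1) u +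
    n * n = (q + 1) + 2 * (n * q) + n := by
  intro n
  induction n with
  | zero =>
    intro _
    simp only [Nat.mul_zero, Nat.zero_add, Finset.sum_range_succ, Finset.sum_range_zero]
    unfold nF
    rw [Nat.min_eq_right (by omega), Nat.min_eq_right (by omega)]
    omega
  | succ n ih =>
    intro h
    have h1 := ih (by omega)
    rw [show 2 * (n + 1) + 2 = 2 * n + 2 + 1 + 1 by ring, Finset.sum_range_succ,
      Finset.sum_range_succ]
    have e1 : min 1 (2 * n + 2) * nF (2 * q + 1) (2 * n + 2) = (q - n) := by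
      rw [Nat.min_eq_left (by omega)]; unfold nF; omega
    have e2 : min 1 (2 * n + 2 + 1) * nF (2 * q + 1) (2 * n + 2 + 1) = (q - n) := by
      rw [Nat.min_eq_left (by omega)]; unfold nF; omega
    rw [e1, e2]
    obtain ⟨d, rfl⟩ : ∃ d, q = n + 1 + d := ⟨q - (n + 1), by omega⟩
    have e3 : n + 1 + d - n = d + 1 := by omega
    rw [e3]
    nlinarith

lemma NF_odd1 (q : ℕ) : NF (2 * q + 1) 1 = (q + 1) * (q + 1) := by
  have h := NF_aux3 q q le_rfl
  unfold NF
  rw [show 2 * q + 1 + 1 = 2 * q + 2 by ring]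
  nlinarith

lemma NL_one (m : ℕ) : NL m 1 = m := by
  unfold NL
  induction m with
  | zero => simp
  | succ m ih =>
    rw [Finset.sum_range_succ, ih, Nat.min_eq_left (by omega)]

lemma NL_two (m : ℕ) (hm : 1 ≤ m) : NL m 2 + 1 = 2 * m := by
  induction m with
  | zero => omega
  | succ m ih =>
    unfold NL at ih ⊢
    rw [Finset.sum_range_succ]
    rcases Nat.eq_zero_or_pos m with h | h
    · subst h
      decide
    · have := ih h
      rw [Nat.min_eq_left (by omega)]
      omega

/-- energy of the joins of the fold end with an end without extras -/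
def E0 (m : ℕ) : ℕ := NF m (hh m) + NL m (hh m) + hh m

lemma E0_even (q : ℕ) : E0 (2 * q) = q * q + 3 * q + 1 := by
  unfold E0
  rw [hh_even, NF_even, NL_one]
  ring

lemma E0_odd (q : ℕ) : E0 (2 * q + 1) = 2 * q * q + 7 * q + 4 := by
  unfold E0
  rw [hh_odd, NF_odd]
  have := NL_two (2 * q + 1) (by omega)
  have e : NL (2 * q + 1) 2 = 4 * q + 1 := by omega
  rw [e]
  ring

/-- everything relevant happens below `K - 1` -/
lemma E0_lt (m : ℕ) (hm : 8 ≤ m) : E0 m + m + 1 < Kb m - 1 := by
  obtain ⟨q, hq | hq⟩ := Nat.even_or_odd' m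
  · subst hq
    rw [E0_even, Kb_even]
    obtain ⟨p, rfl⟩ : ∃ p, q = p + 4 := ⟨q - 4, by omega⟩
    have : 2 * (p + 4) * (p + 4) + 2 * (p + 4) + 3 - 1 = 2 * (p + 4) * (p + 4) + 2 * (p + 4) + 2 := by
      omega
    rw [this]
    nlinarith
  · subst hq
    rw [E0_odd, Kb_odd]
    have : 2 * q * q + 9 * q + 8 - 1 = 2 * q * q + 9 * q + 7 := by omega
    rw [this]
    nlinarith

/-- `m` even: joins of two fold ends are cheaper than `K - 1` -/
lemma EFF_even (q : ℕ) : 2 * NF (2 * q) 1 + 1 < Kb (2 * q) - 1 := by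
  rw [NF_even, Kb_even]
  have : 2 * q * q + 2 * q + 3 - 1 = 2 * q * q + 2 * q + 2 := by omega
  rw [this]
  nlinarith

end Pool.Agent.GaussPoset

end

/-! From `Pool.Agent.W_448s8_h94.DaA` -/

section

/-!
Block D1 (MP_448cb3_co, S8): inequalities for `m = 2 q + 1`.
-/

namespace Pool.Agent.GaussPoset

set_option linter.unusedSectionVars false

open Finset

/-- a low row, general label -/
lemma rowW_gen {shift : Bool} {m c lv a L e : ℕ} (ha : shift = true → 2 * a ≤ m + 1) (hm : a ≤ m)
    (hc : m + e + L = c + 1 + a) (hlv : a + c ≤ lv) :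
    L * (L - 1) + 2 * (L * e) ≤ 2 * rowW shift (fun k => min L (k - m)) c lv a := by
  rw [← two_sum_min L e]
  refine Nat.mul_le_mul_left 2 (rowW_ge m (e + L) (fun u => min L u) ?_)
  intro u hu hu1
  have hu2 : 1 ≤ u := by
    by_contra hcon
    have h0 : u = 0 := by omega
    have h2 : 1 ≤ min L u := hu1
    rw [h0, Nat.min_zero] at h2
    omega
  refine ⟨by omega, by omega, by omega, fun h => ?_, ?_⟩
  · have := ha h
    omega
  show min L u ≤ min L (m + u - m)
  rw [Nat.add_sub_cancel_left]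

/-- high rows with weight 4 (the first one 3) -/
lemma stair_high4 {m c lv L A n D : ℕ} (hA : m + 3 ≤ 2 * (A + 1)) (hL : 4 ≤ L)
    (hlv : A + n + c ≤ lv) (hD : D + A = c) (hn : n ≤ D) :
    4 * (2 * (n * D)) ≤ 2 * (∑ i ∈ range n,
      rowW true (fun k => min L (k - m)) c lv (A + 1 + i)) + 4 * (n * (n - 1)) + 2 * D := by
  have h1 : ∑ i ∈ range n, 4 * (D - i) ≤ ∑ i ∈ range n,
      (rowW true (fun k => min L (k - m)) c lv (A + 1 + i) + if i = 0 then D else 0) := by
    refine Finset.sum_le_sum fun i hi => ?_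
    rw [mem_range] at hi
    by_cases h0 : i = 0
    · subst h0
      have h2 := rowW_high (shift := true) (m := m) (c := c) (lv := lv) (a := A + 1 + 0)
        (L := L) (v := 3) (by omega) (by omega) (by omega)
      rw [if_pos rfl]
      have h3 : c + 1 - (A + 1 + 0) = D := by omega
      rw [h3] at h2
      omega
    · have h2 := rowW_high (shift := true) (m := m) (c := c) (lv := lv) (a := A + 1 + i)
        (L := L) (v := 4) (by omega) hL (by omega)
      rw [if_neg h0]
      have h3 : c + 1 - (A + 1 + i) = D - i := by omega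
      rw [h3] at h2
      omega
  rw [← Finset.mul_sum, Finset.sum_add_distrib] at h1
  have h4 : ∑ i ∈ range n, (if i = 0 then D else 0) ≤ D := by
    rw [Finset.sum_ite_eq' (range n) 0]
    split_ifs <;> omega
  have h3 := sum_dec D n hn
  calc 4 * (2 * (n * D)) = 4 * (2 * ∑ i ∈ range n, (D - i) + n * (n - 1)) := by rw [h3]
    _ = 2 * (4 * ∑ i ∈ range n, (D - i)) + 4 * (n * (n - 1)) := by ring
    _ ≤ _ := by omega

/-- the low rows, general -/
lemma stair_lowg {m c lv L A d : ℕ} (hA : 2 * A ≤ m + 1) (hc : m + L + d = c + 1)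
    (hlv : A + c ≤ lv) :
    (A + 1) * (L * (L - 1)) + L * ((A + 1) * A) + 2 * ((A + 1) * (L * d)) ≤
      2 * ∑ a ∈ range (A + 1), rowW true (fun k => min L (k - m)) c lv a := by
  have h1 : ∑ a ∈ range (A + 1), (L * (L - 1) + 2 * (L * a) + 2 * (L * d)) ≤
      ∑ a ∈ range (A + 1), 2 * rowW true (fun k => min L (k - m)) c lv a := by
    refine Finset.sum_le_sum fun a ha => ?_
    rw [mem_range] at ha
    have h2 : a ≤ m := by
      rcases Nat.eq_zero_or_pos a with h0 | h0
      · omega
      · omega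
    have h3 := rowW_gen (shift := true) (m := m) (c := c) (lv := lv) (a := a) (L := L)
      (e := a + d) (fun _ => by omega) h2 (by omega) (by omega)
    have h4 : 2 * (L * (a + d)) = 2 * (L * a) + 2 * (L * d) := by ring
    omega
  rw [Finset.sum_add_distrib, sum_low, Finset.sum_const, card_range, smul_eq_mul,
    ← Finset.mul_sum, Nat.add_sub_cancel] at h1
  have h5 : (A + 1) * (2 * (L * d)) = 2 * ((A + 1) * (L * d)) := by ring
  omega

/-- the low rows, label larger than the first row allows -/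
lemma stair_lowh {m c lv L A d : ℕ} (hA : 2 * (A + d) ≤ m + 1) (hc : m + L = c + 1 + d)
    (hd : 1 ≤ A + d) (hlv : A + d + c ≤ lv) :
    (A + 1) * (L * (L - 1)) + L * ((A + 1) * A) ≤
      2 * ∑ a ∈ range (A + d + 1), rowW true (fun k => min L (k - m)) c lv a := by
  have h1 : ∑ a ∈ range (A + 1), (L * (L - 1) + 2 * (L * a)) ≤
      ∑ a ∈ range (A + 1), 2 * rowW true (fun k => min L (k - m)) c lv (d + a) := by
    refine Finset.sum_le_sum fun a ha => ?_
    rw [mem_range] at ha
    exact rowW_gen (shift := true) (m := m) (c := c) (lv := lv) (a := d + a) (L := L)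
      (e := a) (fun _ => by omega) (by omega) (by omega) (by omega)
  rw [sum_low, ← Finset.mul_sum, Nat.add_sub_cancel] at h1
  refine h1.trans (Nat.mul_le_mul_left 2 ?_)
  rw [show A + d + 1 = d + (A + 1) by omega, Finset.sum_range_add _ d (A + 1)]
  exact Nat.le_add_left _ _

/-- cells of level `2 m + 1`, label `θ'` -/
theorem stair1 {q s c L : ℕ} (hq : 5 ≤ q) (hs : 1 ≤ s) (hsm : s ≤ 2 * q + 1)
    (hc : s + c = 2 * (2 * q + 1) + 1)
    (hL : L = (s - (2 * q - 2)) + (c - (2 * q + 1))) :
    4 * q * q + 6 * q + 5 ≤ ∑ a ∈ range (s + 1),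
      rowW true (fun k => min L (k - (2 * q + 1))) c (2 * (2 * q + 1) + 1) a := by
  by_cases h1 : s ≤ q + 1
  · -- all rows are low
    obtain ⟨s', rfl⟩ : ∃ s', s = s' + 1 := ⟨s - 1, by omega⟩
    obtain ⟨d, rfl⟩ : ∃ d, q = s' + d := ⟨q - s', by omega⟩
    have hL' : L = s' + 2 * d + 1 := by omega
    have h2 := stair_lowg (m := 2 * (s' + d) + 1) (c := c) (lv := 2 * (2 * (s' + d) + 1) + 1)
      (L := L) (A := s' + 1) (d := 1) (by omega) (by omega) (by omega)
    subst hL'
    rw [Nat.add_sub_cancel] at h2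
    obtain ⟨S, hS⟩ : ∃ S, S = ∑ a ∈ range (s' + 1 + 1),
      rowW true (fun k => min (s' + 2 * d + 1) (k - (2 * (s' + d) + 1))) c
        (2 * (2 * (s' + d) + 1) + 1) a := ⟨_, rfl⟩
    rw [← hS] at h2 ⊢
    clear hS hL hc
    nlinarith [Nat.zero_le (s' * d), Nat.zero_le (s' * s'), Nat.zero_le (s' * s' * d),
      Nat.zero_le (s' * d * d), Nat.zero_le (s' * s' * s')]
  · obtain ⟨n, hn⟩ : ∃ n, s + 1 = (q + 1 + 1) + n := ⟨s + 1 - (q + 1 + 1), by omega⟩
    rw [hn, Finset.sum_range_add]
    obtain ⟨S1, hS1⟩ : ∃ S1, S1 = ∑ a ∈ range (q + 1 + 1),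
      rowW true (fun k => min L (k - (2 * q + 1))) c (2 * (2 * q + 1) + 1) a := ⟨_, rfl⟩
    obtain ⟨S2, hS2⟩ : ∃ S2, S2 = ∑ a ∈ range n,
      rowW true (fun k => min L (k - (2 * q + 1))) c (2 * (2 * q + 1) + 1) (q + 1 + 1 + a) :=
      ⟨_, rfl⟩
    have h3 := stair_high4 (m := 2 * q + 1) (c := c) (lv := 2 * (2 * q + 1) + 1) (L := L)
      (A := q + 1) (n := n) (D := c - (q + 1)) (by omega) (by omega) (by omega) (by omega)
      (by omega)
    rw [← hS2] at h3
    rw [← hS1, ← hS2]
    by_cases h4 : s + 3 ≤ 2 * q + 1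
    · have h5 := stair_lowg (m := 2 * q + 1) (c := c) (lv := 2 * (2 * q + 1) + 1)
        (L := L) (A := q + 1) (d := 1) (by omega) (by omega) (by omega)
      rw [← hS1] at h5
      clear hS1 hS2
      obtain ⟨k, rfl⟩ : ∃ k, L = k + 4 := ⟨L - 4, by omega⟩
      obtain ⟨n', rfl⟩ : ∃ n', n = n' + 1 := ⟨n - 1, by omega⟩
      obtain rfl : q = k + 4 + n' := by omega
      have e1 : c - (k + 4 + n' + 1) = 2 * k + 8 + n' := by omega
      rw [e1, Nat.add_sub_cancel] at h3
      have e2 : k + 4 - 1 = k + 3 := by omega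
      rw [e2] at h5
      clear e1 e2 hL hc hn h1 h4 hq hs hsm
      nlinarith [Nat.zero_le (k * n'), Nat.zero_le (k * k), Nat.zero_le (n' * n'),
        Nat.zero_le (k * k * n'), Nat.zero_le (k * n' * n'), Nat.zero_le (k * k * k)]
    · obtain ⟨n', rfl⟩ : ∃ n', n = n' + 1 := ⟨n - 1, by omega⟩
      obtain ⟨p, rfl⟩ : ∃ p, q = p + 5 := ⟨q - 5, by omega⟩
      by_cases h6 : s + 2 = 2 * (p + 5) + 1
      · have h5 := stair_lowg (m := 2 * (p + 5) + 1) (c := c) (lv := 2 * (2 * (p + 5) + 1) + 1)
          (L := L) (A := p + 5 + 1) (d := 0) (by omega) (by omega) (by omega)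
        rw [← hS1] at h5
        clear hS1 hS2
        have e1 : c - (p + 5 + 1) = p + 8 := by omega
        have e2 : L = 4 := by omega
        have e3 : n' = p + 2 := by omega
        rw [e1, Nat.add_sub_cancel, e3] at h3
        rw [e2] at h5
        norm_num at h5
        clear e1 e2 e3 hL hc hn h1 h4 hq hs hsm h6
        nlinarith
      · by_cases h7 : s + 1 = 2 * (p + 5) + 1
        · have h5 := stair_lowh (m := 2 * (p + 5) + 1) (c := c)
            (lv := 2 * (2 * (p + 5) + 1) + 1) (L := L) (A := p + 5) (d := 1) (by omega)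
            (by omega) (by omega) (by omega)
          rw [← hS1] at h5
          clear hS1 hS2
          have e1 : c - (p + 5 + 1) = p + 7 := by omega
          have e2 : L = 4 := by omega
          have e3 : n' = p + 3 := by omega
          rw [e1, Nat.add_sub_cancel, e3] at h3
          rw [e2] at h5
          norm_num at h5
          clear e1 e2 e3 hL hc hn h1 h4 hq hs hsm h6 h7
          nlinarith
        · have h8 : s = 2 * (p + 5) + 1 := by omega
          have h5 := stair_lowh (m := 2 * (p + 5) + 1) (c := c)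
            (lv := 2 * (2 * (p + 5) + 1) + 1) (L := L) (A := p + 4) (d := 2) (by omega)
            (by omega) (by omega) (by omega)
          rw [← hS1] at h5
          clear hS1 hS2
          have e1 : c - (p + 5 + 1) = p + 6 := by omega
          have e2 : L = 4 := by omega
          have e3 : n' = p + 4 := by omega
          rw [e1, Nat.add_sub_cancel, e3] at h3
          rw [e2] at h5
          norm_num at h5
          clear e1 e2 e3 hL hc hn h1 h4 hq hs hsm h6 h7 h8
          nlinarith

/-- cells of level `2 m`, label `θ + 1`, `s < m` -/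
theorem stair3 {q s c L : ℕ} (hq : 5 ≤ q) (hs : 1 ≤ s) (hsm : s ≤ 2 * q)
    (hc : s + c = 2 * (2 * q + 1)) (hL : L = c - (2 * q + 1) + 1) :
    (q + 1) * (2 * q + 1) + 2 ≤ L + ∑ a ∈ range (s + 1),
      rowW true (fun k => min L (k - (2 * q + 1))) c (2 * (2 * q + 1)) a := by
  by_cases h1 : s ≤ q + 1
  · obtain ⟨s', rfl⟩ : ∃ s', s = s' + 1 := ⟨s - 1, by omega⟩
    obtain ⟨d, rfl⟩ : ∃ d, q = s' + d := ⟨q - s', by omega⟩
    have hL' : L = s' + 2 * d + 1 := by omega
    have h2 := stair_lowg (m := 2 * (s' + d) + 1) (c := c) (lv := 2 * (2 * (s' + d) + 1))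
      (L := L) (A := s' + 1) (d := 0) (by omega) (by omega) (by omega)
    subst hL'
    rw [Nat.add_sub_cancel] at h2
    obtain ⟨S, hS⟩ : ∃ S, S = ∑ a ∈ range (s' + 1 + 1),
      rowW true (fun k => min (s' + 2 * d + 1) (k - (2 * (s' + d) + 1))) c
        (2 * (2 * (s' + d) + 1)) a := ⟨_, rfl⟩
    rw [← hS] at h2 ⊢
    clear hS hL hc
    nlinarith [Nat.zero_le (s' * d), Nat.zero_le (s' * s'), Nat.zero_le (s' * s' * d),
      Nat.zero_le (s' * d * d), Nat.zero_le (s' * s' * s')]
  · obtain ⟨n, hn⟩ : ∃ n, s + 1 = (q + 1 + 1) + n := ⟨s + 1 - (q + 1 + 1), by omega⟩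
    rw [hn, Finset.sum_range_add]
    obtain ⟨S1, hS1⟩ : ∃ S1, S1 = ∑ a ∈ range (q + 1 + 1),
      rowW true (fun k => min L (k - (2 * q + 1))) c (2 * (2 * q + 1)) a := ⟨_, rfl⟩
    obtain ⟨S2, hS2⟩ : ∃ S2, S2 = ∑ a ∈ range n,
      rowW true (fun k => min L (k - (2 * q + 1))) c (2 * (2 * q + 1)) (q + 1 + 1 + a) :=
      ⟨_, rfl⟩
    have h5 := stair_lowg (m := 2 * q + 1) (c := c) (lv := 2 * (2 * q + 1))
        (L := L) (A := q + 1) (d := 0) (by omega) (by omega) (by omega)
    have h3 : ∑ i ∈ range n, 2 * (c - (q + 1) - i) ≤ ∑ i ∈ range n,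
        rowW true (fun k => min L (k - (2 * q + 1))) c (2 * (2 * q + 1)) (q + 1 + 1 + i) := by
      refine Finset.sum_le_sum fun i hi => ?_
      rw [mem_range] at hi
      have h2 := rowW_high (shift := true) (m := 2 * q + 1) (c := c) (lv := 2 * (2 * q + 1))
        (a := q + 1 + 1 + i) (L := L) (v := 2) (by omega) (by omega) (by omega)
      rwa [show c + 1 - (q + 1 + 1 + i) = c - (q + 1) - i by omega] at h2
    have h4 := sum_dec (c - (q + 1)) n (by omega)
    rw [← Finset.mul_sum, ← hS2] at h3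
    rw [← hS1] at h5
    rw [← hS1, ← hS2]
    clear hS1 hS2
    obtain ⟨k, rfl⟩ : ∃ k, L = k + 2 := ⟨L - 2, by omega⟩
    obtain ⟨n', rfl⟩ : ∃ n', n = n' + 1 := ⟨n - 1, by omega⟩
    obtain rfl : q = k + 2 + n' := by omega
    have e1 : c - (k + 2 + n' + 1) = 2 * k + 3 + n' := by omega
    have e2 : k + 2 - 1 = k + 1 := by omega
    rw [e1] at h3 h4
    rw [Nat.add_sub_cancel] at h4
    rw [e2] at h5
    obtain ⟨T, hT⟩ : ∃ T, T = ∑ i ∈ range (n' + 1), (2 * k + 3 + n' - i) := ⟨_, rfl⟩
    rw [← hT] at h3 h4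
    clear hT e1 e2 hL hc hn h1
    nlinarith [Nat.zero_le (k * n'), Nat.zero_le (k * k), Nat.zero_le (n' * n'),
      Nat.zero_le (k * k * n'), Nat.zero_le (k * n' * n'), Nat.zero_le (k * k * k)]

end Pool.Agent.GaussPoset

end
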