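import Mathlib
import Pool.Agent.W_448zz_h61.Ns
import Pool.Agent.W_448zz_h61.M016
import Pool.Agent.W_448zz_h61.M021
import Pool.Agent.W_448zz_h61.M031

/-! From `Pool.Agent.W_448C_h48.Arith` -/

section

/-!
# Strips of the first bad level (MP_448cb3_co, `b_1 = 2 b_0`): arithmetic

The defects `c 0, …, c (n+1)` of the edges of a strip and the defect `β` of the pair of its ends.
-/

namespace Pool.Agent.GaussPoset.Win

open Finset

lemma Ar_zero_of_sum {s T : Finset ℕ} {f : ℕ → ℤ} (hf : ∀ a ∈ s, 0 ≤ f a) (hT : T ⊆ s)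
    (h : ∑ a ∈ s, f a = ∑ a ∈ T, f a) : ∀ a ∈ s, a ∉ T → f a = 0 := by
  intro a ha haT
  have h1 := Finset.sum_sdiff (f := f) hT
  have h2 : ∑ a ∈ s \ T, f a = 0 := by linarith
  rw [Finset.sum_eq_zero_iff_of_nonneg] at h2
  · exact h2 a (mem_sdiff.2 ⟨ha, haT⟩)
  · intro b hb
    exact hf b (mem_sdiff.1 hb).1

lemma Ar_sum_two (n : ℕ) (c : ℕ → ℤ) :
    ∑ a ∈ range (n + 1), (c a + c (a + 1)) = 2 * ∑ k ∈ range (n + 2), c k - c 0 - c (n + 1) := by
  rw [sum_add_distrib]
  have h1 : ∑ k ∈ range (n + 2), c k = ∑ k ∈ range (n + 1), c k + c (n + 1) := sum_range_succ _ _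
  have h2 : ∑ k ∈ range (n + 2), c k = ∑ k ∈ range (n + 1), c (k + 1) + c 0 := sum_range_succ' _ _
  linarith

/-- the arithmetic of a strip -/
theorem Ar_strip {n : ℕ} {c : ℕ → ℤ} {β : ℤ} (hc : ∀ k, k < n + 2 → -1 ≤ c k)
    (hs1 : ∀ a, a < n + 1 → -1 ≤ c a + c (a + 1)) (hs2 : ∀ a, a < n + 1 → c a + c (a + 1) ≤ 0)
    (h0 : c 0 + β ≤ 1) (h1 : c (n + 1) + β ≤ 1) (hβ : 0 ≤ β)
    (E1 : ∑ k ∈ range (n + 2), c k + β = 0)
    (E2 : (c 0 + β) ^ 2 + (c (n + 1) + β) ^ 2 + ∑ a ∈ range (n + 1), (c a + c (a + 1)) ^ 2 =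
      ∑ k ∈ range (n + 2), c k ^ 2 + β ^ 2) :
    (β = 0 ∧ ∀ k, k < n + 2 → c k = 0) ∨
    (β = 1 ∧ c 0 = -1 ∧ ∀ k, 1 ≤ k → k < n + 2 → c k = 0) ∨
    (β = 1 ∧ c (n + 1) = -1 ∧ ∀ k, k < n + 1 → c k = 0) ∨
    (β = 1 ∧ c 0 = 0 ∧ c (n + 1) = 0 ∧ 1 ≤ n) ∨
    (β = 0 ∧ c 0 = 1 ∧ c 1 = -1 ∧ ∀ k, 2 ≤ k → k < n + 2 → c k = 0) ∨
    (β = 0 ∧ c (n + 1) = 1 ∧ c n = -1 ∧ ∀ k, k < n → c k = 0) ∨
    (β = 0 ∧ 3 ≤ n ∧ c 0 = 1 ∧ c 1 = -1 ∧ c n = -1 ∧ c (n + 1) = 1 ∧
      ∀ k, 2 ≤ k → k < n → c k = 0) := by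
  have e1 : ∑ a ∈ range (n + 1), (c a + c (a + 1)) ^ 2 =
      -∑ a ∈ range (n + 1), (c a + c (a + 1)) := by
    rw [← sum_neg_distrib]
    refine sum_congr rfl fun a ha => ?_
    rw [mem_range] at ha
    have h2 := hs1 a ha
    have h3 := hs2 a ha
    have h4 : c a + c (a + 1) = -1 ∨ c a + c (a + 1) = 0 := by omega
    rcases h4 with h4 | h4
    · rw [h4]
      norm_num
    · rw [h4]
      norm_num
  have e2 : ∑ k ∈ range (n + 2), c k ^ 2 =
      c 0 ^ 2 + ∑ k ∈ range n, c (k + 1) ^ 2 + c (n + 1) ^ 2 := by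
    rw [sum_range_succ, sum_range_succ']
    ring
  rw [e1, Ar_sum_two, e2] at E2
  have hmid : ∑ k ∈ range n, c (k + 1) ^ 2 =
      β ^ 2 + 2 * β + (2 * β + 1) * (c 0 + c (n + 1)) := by
    linear_combination -E2 - 2 * E1
  have hmid0 : 0 ≤ ∑ k ∈ range n, c (k + 1) ^ 2 := sum_nonneg fun k _ => sq_nonneg _
  have hc0 := hc 0 (by omega)
  have hc1 := hc (n + 1) (by omega)
  have hsq : ∀ k ∈ range n, 0 ≤ c (k + 1) ^ 2 := fun k _ => sq_nonneg _
  -- all middle defects vanish
  have key0 : ∑ k ∈ range n, c (k + 1) ^ 2 = 0 → ∀ k, 1 ≤ k → k < n + 1 → c k = 0 := by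
    intro h k hk1 hk2
    have h2 := (Finset.sum_eq_zero_iff_of_nonneg hsq).1 h (k - 1) (mem_range.2 (by omega))
    rw [Nat.sub_add_cancel hk1] at h2
    exact pow_eq_zero_iff (two_ne_zero) |>.1 h2
  have hβ3 : β = 0 ∨ β = 1 ∨ β = 2 := by omega
  rcases hβ3 with rfl | rfl | rfl
  · -- no pair of the ends
    have hmid' : ∑ k ∈ range n, c (k + 1) ^ 2 = c 0 + c (n + 1) := by
      rw [hmid]
      ring
    have hA : c 0 = -1 ∨ c 0 = 0 ∨ c 0 = 1 := by omega
    have hB : c (n + 1) = -1 ∨ c (n + 1) = 0 ∨ c (n + 1) = 1 := by omega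
    -- the neighbours of a doubled end edge
    have hn1 : c 0 = 1 → c 1 = -1 := by
      intro h
      have h2 := hs2 0 (by omega)
      have h3 := hc 1 (by omega)
      simp only [Nat.zero_add] at h2
      omega
    have hn2 : c (n + 1) = 1 → c n = -1 := by
      intro h
      have h2 := hs2 n (by omega)
      have h3 := hc n (by omega)
      omega
    rcases hA with hA | hA | hA <;> rcases hB with hB | hB | hB
    · exfalso; omega
    · exfalso; omega
    · -- (-1, 1)
      have h3 := key0 (by omega)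
      have h4 := hn2 hB
      have h5 : n = 0 := by
        by_contra hne
        have := h3 n (by omega) (by omega)
        omega
      subst h5
      exact Or.inr (Or.inr (Or.inr (Or.inr (Or.inr (Or.inl
        ⟨rfl, hB, h4, fun k hk => absurd hk (by omega)⟩)))))
    · exfalso; omega
    · -- (0, 0)
      have h3 := key0 (by omega)
      refine Or.inl ⟨rfl, fun k hk => ?_⟩
      rcases Nat.eq_zero_or_pos k with h4 | h4
      · rw [h4]
        exact hA
      · rcases Nat.lt_or_ge k (n + 1) with h5 | h5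
        · exact h3 k h4 h5
        · have : k = n + 1 := by omega
          rw [this]
          exact hB
    · -- (0, 1)
      have h4 := hn2 hB
      have h5 : 1 ≤ n := by
        by_contra hne
        have : n = 0 := by omega
        rw [this] at h4
        omega
      have h6 := Ar_zero_of_sum (s := range n) (T := {n - 1}) (f := fun k => c (k + 1) ^ 2) hsq
        (by
          intro a ha
          rw [mem_singleton] at ha
          rw [mem_range]
          omega)
        (by
          rw [sum_singleton, Nat.sub_add_cancel h5, h4, hmid', hA, hB]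
          norm_num)
      refine Or.inr (Or.inr (Or.inr (Or.inr (Or.inr (Or.inl ⟨rfl, hB, h4, fun k hk => ?_⟩)))))
      rcases Nat.eq_zero_or_pos k with h7 | h7
      · rw [h7]
        exact hA
      · have h8 := h6 (k - 1) (mem_range.2 (by omega)) (by
          rw [mem_singleton]
          omega)
        simp only [Nat.sub_add_cancel h7] at h8
        exact pow_eq_zero_iff (two_ne_zero) |>.1 h8
    · -- (1, -1)
      have h3 := key0 (by omega)
      have h4 := hn1 hA
      have h5 : n = 0 := by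
        by_contra hne
        have := h3 1 le_rfl (by omega)
        omega
      subst h5
      exact Or.inr (Or.inr (Or.inr (Or.inr (Or.inl
        ⟨rfl, hA, h4, fun k hk1 hk2 => absurd hk2 (by omega)⟩))))
    · -- (1, 0)
      have h4 := hn1 hA
      have h5 : 1 ≤ n := by
        by_contra hne
        have : n = 0 := by omega
        rw [this] at hB
        simp only [Nat.zero_add] at hB
        omega
      have h6 := Ar_zero_of_sum (s := range n) (T := {0}) (f := fun k => c (k + 1) ^ 2) hsq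
        (by
          intro a ha
          rw [mem_singleton] at ha
          rw [mem_range]
          omega)
        (by
          rw [sum_singleton, Nat.zero_add, h4, hmid', hA, hB]
          norm_num)
      refine Or.inr (Or.inr (Or.inr (Or.inr (Or.inl ⟨rfl, hA, h4, fun k hk1 hk2 => ?_⟩))))
      rcases Nat.lt_or_ge k (n + 1) with h7 | h7
      · have h8 := h6 (k - 1) (mem_range.2 (by omega)) (by
          rw [mem_singleton]
          omega)
        simp only [Nat.sub_add_cancel (show 1 ≤ k by omega)] at h8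
        exact pow_eq_zero_iff (two_ne_zero) |>.1 h8
      · have : k = n + 1 := by omega
        rw [this]
        exact hB
    · -- (1, 1)
      have h3 := hn1 hA
      have h4 := hn2 hB
      have h5 : n ≠ 0 := by
        rintro rfl
        omega
      have h6 : n ≠ 1 := by
        rintro rfl
        rw [hA, hB] at hmid'
        simp only [Finset.range_one, sum_singleton, Nat.zero_add] at hmid'
        rw [h3] at hmid'
        norm_num at hmid'
      have h7 : n ≠ 2 := by
        rintro rfl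
        have h8 := hs1 1 (by omega)
        simp only [Nat.reduceAdd] at h8
        omega
      have h8 := Ar_zero_of_sum (s := range n) (T := {0, n - 1}) (f := fun k => c (k + 1) ^ 2) hsq
        (by
          intro a ha
          rw [mem_insert, mem_singleton] at ha
          rw [mem_range]
          omega)
        (by
          rw [sum_pair (by omega), Nat.zero_add, Nat.sub_add_cancel (show 1 ≤ n by omega), h3, h4,
            hmid', hA, hB]
          norm_num)
      refine Or.inr (Or.inr (Or.inr (Or.inr (Or.inr (Or.inr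
        ⟨rfl, by omega, hA, h3, h4, hB, fun k hk1 hk2 => ?_⟩)))))
      have h9 := h8 (k - 1) (mem_range.2 (by omega)) (by
        rw [mem_insert, mem_singleton]
        omega)
      simp only [Nat.sub_add_cancel (show 1 ≤ k by omega)] at h9
      exact pow_eq_zero_iff (two_ne_zero) |>.1 h9
  · -- one pair of the ends
    have hmid' : ∑ k ∈ range n, c (k + 1) ^ 2 = 3 + 3 * (c 0 + c (n + 1)) := by
      rw [hmid]
      ring
    have hA : c 0 = -1 ∨ c 0 = 0 := by omega
    have hB : c (n + 1) = -1 ∨ c (n + 1) = 0 := by omega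
    rcases hA with hA | hA <;> rcases hB with hB | hB
    · exfalso; omega
    · have h3 := key0 (by omega)
      refine Or.inr (Or.inl ⟨rfl, hA, fun k hk1 hk2 => ?_⟩)
      rcases Nat.lt_or_ge k (n + 1) with h5 | h5
      · exact h3 k hk1 h5
      · have : k = n + 1 := by omega
        rw [this]
        exact hB
    · have h3 := key0 (by omega)
      refine Or.inr (Or.inr (Or.inl ⟨rfl, hB, fun k hk => ?_⟩))
      rcases Nat.eq_zero_or_pos k with h4 | h4
      · rw [h4]
        exact hA
      · exact h3 k h4 hk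
    · refine Or.inr (Or.inr (Or.inr (Or.inl ⟨rfl, hA, hB, ?_⟩)))
      by_contra hne
      have : n = 0 := by omega
      subst this
      rw [hA, hB] at hmid'
      simp at hmid'
  · -- two pairs of the ends
    exfalso
    have hA : c 0 = -1 := by omega
    have hB : c (n + 1) = -1 := by omega
    rw [hmid, hA, hB] at hmid0
    norm_num at hmid0

end Pool.Agent.GaussPoset.Win

end

/-! From `Pool.Agent.W_448s6_h67.PcA` -/

section

/-!
# The pieces of the first bad level inside one component (MP_448cb3_co): arithmetic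
-/

namespace Pool.Agent.GaussPoset.Win

open Finset

/-- the possible defects of a path: `c k` on the edges `k < m`, `β` on the pair of the ends -/
def PcPat (m : ℕ) (c : ℕ → ℤ) (β : ℤ) : Prop :=
  (β = 0 ∧ ∀ k, k < m → c k = 0) ∨
  (2 ≤ m ∧ β = 1 ∧ c 0 = -1 ∧ ∀ k, 1 ≤ k → k < m → c k = 0) ∨
  (2 ≤ m ∧ β = 1 ∧ c (m - 1) = -1 ∧ ∀ k, k + 1 < m → c k = 0) ∨
  (2 ≤ m ∧ β = 0 ∧ c 0 = 1 ∧ c 1 = -1 ∧ ∀ k, 2 ≤ k → k < m → c k = 0) ∨
  (2 ≤ m ∧ β = 0 ∧ c (m - 1) = 1 ∧ c (m - 2) = -1 ∧ ∀ k, k + 2 < m → c k = 0) ∨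
  (5 ≤ m ∧ β = 0 ∧ c 0 = 1 ∧ c 1 = -1 ∧ c (m - 2) = -1 ∧ c (m - 1) = 1 ∧
    ∀ k, 2 ≤ k → k + 2 < m → c k = 0) ∨
  (m = 2 ∧ β = 2 ∧ c 0 = -1 ∧ c 1 = -1) ∨
  (m = 6 ∧ β = 0 ∧ c 0 = 1 ∧ c 1 = -1 ∧ c 4 = -1 ∧ c 5 = 1 ∧
    ((c 2 = -1 ∧ c 3 = 1) ∨ (c 2 = 1 ∧ c 3 = -1)))

lemma Pc_alt {c : ℕ → ℤ} {b : ℕ} {n : ℕ} (h : ∀ i, i < n → c (b + i) + c (b + i + 1) = 0) :
    ∀ i, i ≤ n → c (b + i) = (-1) ^ i * c b := by
  intro i
  induction i with
  | zero => intro _; simp
  | succ i ih =>
    intro hi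
    have h1 := h i (by omega)
    have h2 := ih (by omega)
    rw [← add_assoc, pow_succ]
    linarith

/-- the arithmetic of a path, one exceptional inner vertex `p + 1` -/
theorem Pc_arith {n p : ℕ} {c : ℕ → ℤ} {β : ℤ} (hc : ∀ k, k < n + 2 → -1 ≤ c k)
    (hs1 : ∀ a, a < n + 1 → a ≠ p → -1 ≤ c a + c (a + 1))
    (hs2 : ∀ a, a < n + 1 → c a + c (a + 1) ≤ 0)
    (h0 : c 0 + β ≤ 1) (h1 : c (n + 1) + β ≤ 1) (hβ : 0 ≤ β)
    (E1 : ∑ k ∈ range (n + 2), c k + β = 0)
    (E2 : (c 0 + β) ^ 2 + (c (n + 1) + β) ^ 2 + ∑ a ∈ range (n + 1), (c a + c (a + 1)) ^ 2 =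
      ∑ k ∈ range (n + 2), c k ^ 2 + β ^ 2)
    (iso : c 0 = 0 → c (n + 1) = 0 → β = 0) : PcPat (n + 2) c β := by
  by_cases hp : ∀ a, a < n + 1 → -1 ≤ c a + c (a + 1)
  · -- no exceptional vertex
    rcases Ar_strip hc hp hs2 h0 h1 hβ E1 E2 with h | ⟨a1, a2, a3⟩ | ⟨a1, a2, a3⟩ | ⟨a1, a2, a3, a4⟩ |
      ⟨a1, a2, a3, a4⟩ | ⟨a1, a2, a3, a4⟩ | ⟨a1, a2, a3, a4, a5, a6, a7⟩
    · exact Or.inl h
    · exact Or.inr (Or.inl ⟨by omega, a1, a2, a3⟩)
    · exact Or.inr (Or.inr (Or.inl ⟨by omega, a1, a2, fun k hk => a3 k (by omega)⟩))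
    · have := iso a2 a3
      omega
    · exact Or.inr (Or.inr (Or.inr (Or.inl ⟨by omega, a1, a2, a3, a4⟩)))
    · exact Or.inr (Or.inr (Or.inr (Or.inr (Or.inl ⟨by omega, a1, a2, a3,
        fun k hk => a4 k (by omega)⟩))))
    · exact Or.inr (Or.inr (Or.inr (Or.inr (Or.inr (Or.inl ⟨by omega, a1, a3, a4, a5, a6,
        fun k hk hk2 => a7 k hk (by omega)⟩)))))
  · -- the exceptional vertex has lost both edges
    push Not at hp
    obtain ⟨q, hq, hq2⟩ := hp
    have hqp : q = p := by
      by_contra hne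
      have := hs1 q hq hne
      omega
    subst hqp
    have g1 := hc q (by omega)
    have g2 := hc (q + 1) (by omega)
    have e1 : c q = -1 := by omega
    have e2 : c (q + 1) = -1 := by omega
    have S1 := Ar_sum_two n c
    have S2 : ∑ a ∈ range (n + 1), (c a + c (a + 1)) ≤ -2 := by
      rw [← sum_erase_add _ _ (mem_range.2 hq), e1, e2]
      have : ∑ a ∈ (range (n + 1)).erase q, (c a + c (a + 1)) ≤ 0 := by
        refine sum_nonpos fun a ha => hs2 a ?_
        exact mem_range.1 (mem_of_mem_erase ha)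
      linarith
    have f0 : c 0 = 1 - β := by linarith
    have f1 : c (n + 1) = 1 - β := by linarith
    have S3 : ∑ a ∈ (range (n + 1)).erase q, (c a + c (a + 1)) = 0 := by
      have h3 := sum_erase_add (range (n + 1)) (fun a => c a + c (a + 1)) (mem_range.2 hq)
      rw [e1, e2] at h3
      linarith
    have D : ∀ a, a < n + 1 → a ≠ q → c a + c (a + 1) = 0 := by
      intro a ha hne
      have h3 := (sum_eq_zero_iff_of_nonpos (fun a ha => hs2 a
        (mem_range.1 (mem_of_mem_erase ha)))).1 S3 a (mem_erase.2 ⟨hne, mem_range.2 ha⟩)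
      exact h3
    have S4 : ∑ a ∈ range (n + 1), (c a + c (a + 1)) ^ 2 = 4 := by
      rw [← sum_erase_add _ _ (mem_range.2 hq), e1, e2, sum_eq_zero]
      · norm_num
      · intro a ha
        rw [D a (mem_range.1 (mem_of_mem_erase ha)) (ne_of_mem_erase ha)]
        norm_num
    have S5 : ∑ k ∈ range (n + 2), c k ^ 2 = 6 - β ^ 2 := by
      rw [S4, f0, f1] at E2
      linarith [E2]
    have hβ2 : β ≤ 2 := by
      have := hc 0 (by omega)
      omega
    have A1 : ∀ i, i ≤ q → c i = (-1) ^ i * c 0 := by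
      intro i hi
      have := Pc_alt (c := c) (b := 0) (n := q) (fun i hi => by
        rw [Nat.zero_add]
        exact D i (by omega) (by omega)) i hi
      rwa [Nat.zero_add] at this
    have A2 : ∀ i, i ≤ n - q → c (q + 1 + i) = (-1) ^ i * c (q + 1) :=
      Pc_alt (c := c) (b := q + 1) (n := n - q) (fun i hi => D (q + 1 + i) (by omega) (by omega))
    have hsq : ∀ k, k < n + 2 → c 0 ^ 2 = 1 → c k ^ 2 = 1 := by
      intro k hk h3
      rcases Nat.lt_or_ge q k with h4 | h4
      · have h5 := A2 (k - (q + 1)) (by omega)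
        rw [show q + 1 + (k - (q + 1)) = k by omega, e2] at h5
        rw [h5, mul_pow, ← pow_mul, mul_comm _ 2, pow_mul]
        norm_num
      · rw [A1 k h4, mul_pow, h3, ← pow_mul, mul_comm _ 2, pow_mul]
        norm_num
    have hcase : β = 0 ∨ β = 1 ∨ β = 2 := by omega
    rcases hcase with rfl | rfl | rfl
    · -- six edges
      have h3 : c 0 ^ 2 = 1 := by rw [f0]; norm_num
      have h4 : ∑ k ∈ range (n + 2), c k ^ 2 = (n : ℤ) + 2 := by
        rw [sum_congr rfl fun k hk => hsq k (mem_range.1 hk) h3, sum_const, card_range]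
        simp
      have hn : n = 4 := by
        rw [h4] at S5
        have : (n : ℤ) = 4 := by linarith
        exact_mod_cast this
      subst hn
      have c0 : c 0 = 1 := by rw [f0]; norm_num
      have c5 : c 5 = 1 := by
        have := f1
        norm_num at this
        exact this
      right; right; right; right; right; right; right
      have hq' : q = 0 ∨ q = 1 ∨ q = 2 ∨ q = 3 ∨ q = 4 := by omega
      rcases hq' with rfl | rfl | rfl | rfl | rfl
      · omega
      · have d1 := D 2 (by norm_num) (by norm_num)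
        have d2 := D 3 (by norm_num) (by norm_num)
        norm_num at d1 d2 e1 e2
        exact ⟨rfl, rfl, c0, e1, by omega, c5, Or.inl ⟨e2, by omega⟩⟩
      · have d1 := D 0 (by norm_num) (by norm_num)
        have d2 := D 1 (by norm_num) (by norm_num)
        norm_num at d1 d2 e1 e2
        omega
      · have d1 := D 0 (by norm_num) (by norm_num)
        have d2 := D 1 (by norm_num) (by norm_num)
        norm_num at d1 d2 e1 e2
        exact ⟨rfl, rfl, c0, by omega, e2, c5, Or.inr ⟨by omega, e1⟩⟩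
      · norm_num at e1 e2
        omega
    · exfalso
      have c0 : c 0 = 0 := by rw [f0]; norm_num
      have := A1 q le_rfl
      rw [c0, e1] at this
      norm_num at this
    · -- the triangle
      have c0 : c 0 = -1 := by rw [f0]; norm_num
      have h3 : c 0 ^ 2 = 1 := by rw [c0]; norm_num
      have h4 : ∑ k ∈ range (n + 2), c k ^ 2 = (n : ℤ) + 2 := by
        rw [sum_congr rfl fun k hk => hsq k (mem_range.1 hk) h3, sum_const, card_range]
        simp
      have hn : n = 0 := by
        rw [h4] at S5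
        have : (n : ℤ) = 0 := by linarith
        exact_mod_cast this
      subst hn
      have hq0 : q = 0 := by omega
      subst hq0
      right; right; right; right; right; right; left
      norm_num at e2
      exact ⟨rfl, rfl, c0, e2⟩

end Pool.Agent.GaussPoset.Win

end

/-! From `Pool.Agent.W_448kk_h94.KkA` -/

section

/-! An abstract count: sites forced by labels (MP_448cb3_co). -/

namespace Pool.Agent.GaussPoset.Win

set_option linter.unusedSectionVars false

open Finset

universe u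

section Abs

variable {P : Type u} [DecidableEq P]

/-- if the sum of the cardinalities is at most the cardinality of the union, the sets are disjoint -/
lemma disj_of_card_biUnion {s : Finset P} {t : P → Finset P}
    (h : ∑ x ∈ s, (t x).card ≤ (s.biUnion t).card) {x y : P} (hx : x ∈ s) (hy : y ∈ s)
    (hne : x ≠ y) : Disjoint (t x) (t y) := by
  set s' := (s.erase x).erase y with hs'
  have hy' : y ∈ s.erase x := mem_erase.2 ⟨hne.symm, hy⟩
  have e1 : s.biUnion t = (t x ∪ t y) ∪ s'.biUnion t := by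
    have h1 : s = insert x (insert y s') := by
      rw [hs', insert_erase hy', insert_erase hx]
    conv_lhs => rw [h1]
    rw [biUnion_insert, biUnion_insert, union_assoc]
  have e2 : ∑ z ∈ s, (t z).card = (t x).card + ((t y).card + ∑ z ∈ s', (t z).card) := by
    rw [hs', Finset.add_sum_erase _ (fun z => (t z).card) hy',
      Finset.add_sum_erase _ (fun z => (t z).card) hx]
  have h3 : (s.biUnion t).card ≤ (t x ∪ t y).card + ∑ z ∈ s', (t z).card := by
    rw [e1]
    exact (card_union_le _ _).trans (Nat.add_le_add_left card_biUnion_le _)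
  have h4 := card_union_add_card_inter (t x) (t y)
  rw [disjoint_iff_inter_eq_empty, ← card_eq_zero]
  omega

variable (c : P → Finset P) (e : P → ℕ)

/-- an element covering `x` on the far side has a larger label -/
def aF (x : P) : Prop := ∃ z, x ∈ c z ∧ e x < e z

/-- an element of `c x` has a label at least as large -/
def aG (x : P) : Prop := ∃ y ∈ c x, e x ≤ e y

/-- the layers of one side: `V` sites, `N1` near, `N2` next, `Sd` the whole side -/
structure Lay (V N1 N2 Sd : Finset P) : Prop where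
  c2 : ∀ x, (c x).card ≤ 2
  ne : ∀ x ∈ Sd, (c x).Nonempty
  s1 : N1 ⊆ Sd
  s2 : N2 ⊆ Sd
  d12 : Disjoint N1 N2
  v1 : ∀ v ∈ V, ∀ z, v ∈ c z → z ∈ N1
  n1 : ∀ w ∈ N1, c w ⊆ V
  n2 : ∀ w ∈ N1, ∀ z, w ∈ c z → z ∈ N2
  n2' : ∀ z ∈ N2, c z ⊆ N1
  n3 : ∀ z ∈ N2, ∀ z', z ∈ c z' → z' ∈ Sd ∧ z' ∉ N1 ∧ z' ∉ N2

variable {c e} {V N1 N2 Sd : Finset P}

open Classical in
/-- sites forced by `w` -/
noncomputable def fc (c : P → Finset P) (e : P → ℕ) (w : P) : Finset P :=
  (c w).filter (fun v => e v < e w)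

open Classical in
/-- free elements of the side -/
noncomputable def fre (c : P → Finset P) (e : P → ℕ) (Sd : Finset P) : Finset P :=
  Sd.filter (fun z => ¬ aF c e z ∧ ¬ aG c e z)

open Classical in
lemma forced_eq (L : Lay c V N1 N2 Sd) :
    V.filter (fun v => aF c e v) = N1.biUnion (fc c e) := by
  ext v
  rw [mem_filter, mem_biUnion]
  unfold aF fc
  constructor
  · rintro ⟨hv, z, hz, hlt⟩
    exact ⟨z, L.v1 v hv z hz, mem_filter.2 ⟨hz, hlt⟩⟩
  · rintro ⟨w, hw, hv⟩
    rw [mem_filter] at hv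
    exact ⟨L.n1 w hw hv.1, w, hv.1, hv.2⟩

open Classical in
lemma fc_le (L : Lay c V N1 N2 Sd)
    (adm : ∀ z ∈ Sd, ¬ (aF c e z ∧ aG c e z)) {w : P} (hw : w ∈ N1) :
    (fc c e w).card ≤ e w + (if w ∈ fre c e Sd then 1 else 0) + (if aF c e w then 1 else 0) := by
  have hle : (fc c e w).card ≤ 2 := (card_filter_le _ _).trans (L.c2 w)
  have hwS := L.s1 hw
  obtain ⟨v, hv⟩ := L.ne w hwS
  by_cases hF : aF c e w
  · rw [if_pos hF]
    have hG : ¬ aG c e w := fun h => adm w hwS ⟨hF, h⟩
    have h1 : e v < e w := by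
      by_contra h
      exact hG ⟨v, hv, by omega⟩
    omega
  · by_cases hG : aG c e w
    · obtain ⟨y, hy, hle2⟩ := hG
      have h1 : (fc c e w).card ≤ 1 := by
        have h2 : fc c e w ⊆ (c w).erase y := by
          intro v hv
          unfold fc at hv
          rw [mem_filter] at hv
          rw [mem_erase]
          refine ⟨?_, hv.1⟩
          rintro rfl
          omega
        have h3 := card_le_card h2
        rw [card_erase_of_mem hy] at h3
        have := L.c2 w
        omega
      rcases Nat.eq_zero_or_pos (e w) with h0 | h0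
      · have h2 : fc c e w = ∅ := by
          unfold fc
          rw [filter_eq_empty_iff]
          intro v _
          omega
        rw [h2, card_empty]
        omega
      · omega
    · have h3 : w ∈ fre c e Sd := by
        unfold fre
        rw [mem_filter]
        exact ⟨hwS, hF, hG⟩
      rw [if_pos h3]
      have h1 : e v < e w := by
        by_contra h
        exact hG ⟨v, hv, by omega⟩
      omega

open Classical in
lemma card_aF_le (L : Lay c V N1 N2 Sd)
    (adm : ∀ z ∈ Sd, ¬ (aF c e z ∧ aG c e z)) :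
    (N1.filter (fun w => aF c e w)).card ≤
      ∑ z ∈ N2, (if 2 ≤ e z then ((c z).filter (fun w => e w < e z)).card else 0) := by
  have h1 : N1.filter (fun w => aF c e w) ⊆ N2.biUnion
      (fun z => if 2 ≤ e z then (c z).filter (fun w => e w < e z) else ∅) := by
    intro w hw
    rw [mem_filter] at hw
    obtain ⟨hw1, z, hz, hlt⟩ := hw
    have hwS := L.s1 hw1
    obtain ⟨v, hv⟩ := L.ne w hwS
    have hG : ¬ aG c e w := fun h => adm w hwS ⟨⟨z, hz, hlt⟩, h⟩
    have h1 : e v < e w := by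
      by_contra h
      exact hG ⟨v, hv, by omega⟩
    rw [mem_biUnion]
    refine ⟨z, L.n2 w hw1 z hz, ?_⟩
    rw [if_pos (by omega : 2 ≤ e z), mem_filter]
    exact ⟨hz, hlt⟩
  refine (card_le_card h1).trans (card_biUnion_le.trans (le_of_eq ?_))
  refine sum_congr rfl fun z _ => ?_
  split_ifs <;> rfl

lemma c2_le (L : Lay c V N1 N2 Sd) : ∀ z ∈ N2,
    (if 2 ≤ e z then ((c z).filter (fun w => e w < e z)).card else 0) ≤ e z := by
  intro z _
  split_ifs with h
  · exact ((card_filter_le _ _).trans (L.c2 z)).trans h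
  · exact Nat.zero_le _

open Classical in
lemma sum_split (L : Lay c V N1 N2 Sd) (f : P → ℕ) :
    ∑ x ∈ Sd, f x = ∑ x ∈ N1, f x + ∑ x ∈ N2, f x + ∑ x ∈ (Sd \ N1) \ N2, f x := by
  have h2 : N2 ⊆ Sd \ N1 := by
    intro x hx
    rw [mem_sdiff]
    exact ⟨L.s2 hx, fun h => (disjoint_left.1 L.d12 h) hx⟩
  rw [← Finset.sum_sdiff L.s1, ← Finset.sum_sdiff h2]
  ring

open Classical in
lemma fre_split (L : Lay c V N1 N2 Sd) :
    (fre c e Sd).card = ∑ x ∈ N1, (if x ∈ fre c e Sd then 1 else 0) +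
      ∑ x ∈ N2, (if x ∈ fre c e Sd then 1 else 0) +
      ∑ x ∈ (Sd \ N1) \ N2, (if x ∈ fre c e Sd then 1 else 0) := by
  rw [← sum_split L, ← card_filter]
  congr 1
  ext x
  rw [mem_filter]
  constructor
  · intro h
    refine ⟨?_, h⟩
    unfold fre at h
    exact (mem_filter.1 h).1
  · exact fun h => h.2

open Classical in
/-- the number of forced sites is at most the number of free elements plus the sum of the labels -/
theorem forced_le (L : Lay c V N1 N2 Sd)
    (adm : ∀ z ∈ Sd, ¬ (aF c e z ∧ aG c e z)) :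
    (V.filter (fun v => aF c e v)).card ≤ (fre c e Sd).card + ∑ x ∈ Sd, e x := by
  rw [forced_eq L, sum_split L, fre_split L]
  have h1 : (N1.biUnion (fc c e)).card ≤ ∑ w ∈ N1, (fc c e w).card := card_biUnion_le
  have h2 := Finset.sum_le_sum (fun w hw => fc_le L adm (w := w) hw)
  rw [sum_add_distrib, sum_add_distrib] at h2
  have h3 := card_aF_le L adm
  rw [card_filter] at h3
  have h4 := Finset.sum_le_sum (c2_le (e := e) L)
  omega

open Classical in
/-- the case of equality, labels zero on the sites -/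
theorem forced_eq_case (L : Lay c V N1 N2 Sd)
    (adm : ∀ z ∈ Sd, ¬ (aF c e z ∧ aG c e z)) (hV : ∀ v ∈ V, e v = 0)
    (heq : (fre c e Sd).card + ∑ x ∈ Sd, e x ≤ (V.filter (fun v => aF c e v)).card) :
    (∀ z ∈ Sd, z ∉ N1 → e z = 0) ∧ (∀ w ∈ N1, e w = 0 ∨ (e w = 1 ∧ (c w).card = 2)) ∧
      (∀ w ∈ N1, ∀ w' ∈ N1, w ≠ w' → 0 < e w → 0 < e w' → Disjoint (c w) (c w')) := by
  rw [forced_eq L, sum_split L, fre_split L] at heq
  have h1 : (N1.biUnion (fc c e)).card ≤ ∑ w ∈ N1, (fc c e w).card := card_biUnion_le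
  have h2 := Finset.sum_le_sum (fun w hw => fc_le L adm (w := w) hw)
  have h2' := h2
  rw [sum_add_distrib, sum_add_distrib] at h2
  have h3 := card_aF_le L adm
  rw [card_filter] at h3
  have h4 := Finset.sum_le_sum (c2_le (e := e) L)
  have hE3 : ∑ x ∈ (Sd \ N1) \ N2, e x = 0 := by omega
  have hf2 : ∑ x ∈ N2, (if x ∈ fre c e Sd then 1 else 0) = 0 := by omega
  have hz3 : ∀ x ∈ (Sd \ N1) \ N2, e x = 0 := by
    intro x hx
    exact (Finset.sum_eq_zero_iff.1 hE3) x hx
  have heq2 := (Finset.sum_eq_sum_iff_of_le (c2_le (e := e) L)).1 (by omega)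
  have hz2 : ∀ z ∈ N2, e z = 0 := by
    intro z hz
    by_contra hne
    have h5 := heq2 z hz
    have h6 : 2 ≤ e z := by
      by_contra h7
      rw [if_neg h7] at h5
      omega
    rw [if_pos h6] at h5
    have h7 : ((c z).filter (fun w => e w < e z)).card ≤ (c z).card := card_filter_le _ _
    have h8 := L.c2 z
    have h9 : (c z).filter (fun w => e w < e z) = c z :=
      eq_of_subset_of_card_le (filter_subset _ _) (by omega)
    have h10 := (Finset.sum_eq_zero_iff.1 hf2) z hz
    refine absurd h10 ?_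
    rw [if_pos]
    · exact one_ne_zero
    unfold fre
    rw [mem_filter]
    refine ⟨L.s2 hz, ?_, ?_⟩
    · rintro ⟨z', hz', hlt⟩
      obtain ⟨a1, a2, a3⟩ := L.n3 z hz z' hz'
      have := hz3 z' (mem_sdiff.2 ⟨mem_sdiff.2 ⟨a1, a2⟩, a3⟩)
      omega
    · rintro ⟨y, hy, hle⟩
      rw [← h9, mem_filter] at hy
      omega
  have hE2 : ∑ x ∈ N2, e x = 0 := Finset.sum_eq_zero hz2
  have hF0 : ∑ w ∈ N1, (if aF c e w then 1 else 0) = 0 := by omega
  have heq1 := (Finset.sum_eq_sum_iff_of_le (fun w hw => fc_le L adm (w := w) hw)).1 (by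
    rw [sum_add_distrib, sum_add_distrib]
    omega)
  have hd : ∑ w ∈ N1, (fc c e w).card ≤ (N1.biUnion (fc c e)).card := by omega
  have hN1 : ∀ w ∈ N1, e w = 0 ∨ (e w = 1 ∧ (c w).card = 2) := by
    intro w hw
    have h5 := heq1 w hw
    have h6 := (Finset.sum_eq_zero_iff.1 hF0) w hw
    rw [h6] at h5
    have hFw : ¬ aF c e w := by
      intro h
      rw [if_pos h] at h6
      exact one_ne_zero h6
    by_cases h0 : e w = 0
    · exact Or.inl h0
    right
    have hG : ¬ aG c e w := by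
      rintro ⟨y, hy, hle⟩
      have := hV y (L.n1 w hw hy)
      omega
    have h7 : w ∈ fre c e Sd := by
      unfold fre
      rw [mem_filter]
      exact ⟨L.s1 hw, hFw, hG⟩
    rw [if_pos h7] at h5
    have h8 : (fc c e w).card ≤ (c w).card := card_filter_le _ _
    have h9 := L.c2 w
    omega
  refine ⟨?_, hN1, ?_⟩
  · intro z hz hz1
    by_cases h : z ∈ N2
    · exact hz2 z h
    · exact hz3 z (mem_sdiff.2 ⟨mem_sdiff.2 ⟨hz, hz1⟩, h⟩)
  · intro w hw w' hw' hne h0 h0'
    have hfc : ∀ w ∈ N1, 0 < e w → fc c e w = c w := by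
      intro w hw h0
      unfold fc
      rw [filter_eq_self]
      intro v hv
      rw [hV v (L.n1 w hw hv)]
      exact h0
    rw [← hfc w hw h0, ← hfc w' hw' h0']
    exact disj_of_card_biUnion hd hw hw' hne

end Abs

end Pool.Agent.GaussPoset.Win

end

/-! From `Pool.Agent.W_448kk_h94.KkB` -/

section

/-! The cost of a configuration: forced sites, free elements, energy (MP_448cb3_co). -/

namespace Pool.Agent.GaussPoset.Win

set_option linter.unusedSectionVars false

open Finset

universe u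

variable {P : Type u} [Fintype P] [PartialOrder P] [DecidableEq P] {r : ℕ}

/-- the lower elements -/
noncomputable def sdL (P : Type u) [Fintype P] [PartialOrder P] [DecidableEq P] (i : ℕ) :
    Finset P := univ.filter (fun z : P => i < lev z)

/-- the upper elements -/
noncomputable def sdU (P : Type u) [Fintype P] [PartialOrder P] [DecidableEq P] (i : ℕ) :
    Finset P := univ.filter (fun z : P => lev z < i)

lemma mem_sdL {i : ℕ} {x : P} : x ∈ sdL P i ↔ i < lev x := by unfold sdL; simp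

lemma mem_sdU {i : ℕ} {x : P} : x ∈ sdU P i ↔ lev x < i := by unfold sdU; simp

/-- levels above the sites -/
noncomputable def lU (P : Type u) [Fintype P] [PartialOrder P] [DecidableEq P] (i m : ℕ) :
    Finset P := univ.filter (fun z : P => lev z + m = i)

lemma mem_lU {i m : ℕ} {x : P} : x ∈ lU P i m ↔ lev x + m = i := by unfold lU; simp

lemma lay_L (H : Gr P r) (i : ℕ) : Lay (uc (P := P)) (lv P i) (lv P (i + 1)) (lv P (i + 2))
    (sdL P i) where
  c2 := uc_card_le H
  ne := fun x hx => by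
    rw [mem_sdL] at hx
    exact uc_nonempty H (by omega)
  s1 := fun x hx => by
    rw [mem_lv] at hx
    rw [mem_sdL]
    omega
  s2 := fun x hx => by
    rw [mem_lv] at hx
    rw [mem_sdL]
    omega
  d12 := by
    rw [disjoint_left]
    intro x h1 h2
    rw [mem_lv] at h1 h2
    omega
  v1 := fun v hv z hz => by
    rw [mem_lv] at hv ⊢
    have := lev_uc H hz
    omega
  n1 := fun w hw v hv => by
    rw [mem_lv] at hw ⊢
    have := lev_uc H hv
    omega
  n2 := fun w hw z hz => by
    rw [mem_lv] at hw ⊢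
    have := lev_uc H hz
    omega
  n2' := fun z hz w hw => by
    rw [mem_lv] at hz ⊢
    have := lev_uc H hw
    omega
  n3 := fun z hz z' hz' => by
    rw [mem_lv] at hz
    rw [mem_sdL, mem_lv, mem_lv]
    have := lev_uc H hz'
    omega

lemma lay_U (H : Gr P r) {i : ℕ} (hi : i ≤ r) :
    Lay (dc (P := P)) (lv P i) (lU P i 1) (lU P i 2) (sdU P i) where
  c2 := dc_card_le H
  ne := fun x hx => by
    rw [mem_sdU] at hx
    exact dc_nonempty H (by omega)
  s1 := fun x hx => by
    rw [mem_lU] at hx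
    rw [mem_sdU]
    omega
  s2 := fun x hx => by
    rw [mem_lU] at hx
    rw [mem_sdU]
    omega
  d12 := by
    rw [disjoint_left]
    intro x h1 h2
    rw [mem_lU] at h1 h2
    omega
  v1 := fun v hv z hz => by
    rw [mem_lv] at hv
    rw [mem_lU]
    have := lev_dc H hz
    omega
  n1 := fun w hw v hv => by
    rw [mem_lU] at hw
    rw [mem_lv]
    have := lev_dc H hv
    omega
  n2 := fun w hw z hz => by
    rw [mem_lU] at hw ⊢
    have := lev_dc H hz
    omega
  n2' := fun z hz w hw => by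
    rw [mem_lU] at hz ⊢
    have := lev_dc H hw
    omega
  n3 := fun z hz z' hz' => by
    rw [mem_lU] at hz
    rw [mem_sdU, mem_lU, mem_lU]
    have := lev_dc H hz'
    omega

lemma aF_uc {e : P → ℕ} {x : P} : aF uc e x ↔ FD e x := by
  unfold aF FD
  simp only [mem_uc]

lemma aG_uc {e : P → ℕ} {x : P} : aG uc e x ↔ GU e x := by
  unfold aG GU
  simp only [mem_uc]

lemma aF_dc {e : P → ℕ} {x : P} : aF dc e x ↔ FU e x := by
  unfold aF FU
  simp only [mem_dc]

lemma aG_dc {e : P → ℕ} {x : P} : aG dc e x ↔ GD e x := by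
  unfold aG GD
  simp only [mem_dc]

open Classical in
lemma AL_af {i : ℕ} {e : P → ℕ} : AL i e = (lv P i).filter (fun v => aF uc e v) := by
  unfold AL
  ext v
  simp only [mem_filter, aF_uc]

open Classical in
lemma AU_af {i : ℕ} {e : P → ℕ} : AU i e = (lv P i).filter (fun v => aF dc e v) := by
  unfold AU
  ext v
  simp only [mem_filter, aF_dc]

lemma pL_fre {i : ℕ} {e : P → ℕ} : pL i e = (fre uc e (sdL P i)).card := by
  classical
  unfold pL fre
  congr 1
  ext z
  simp only [mem_filter, mem_univ, true_and, mem_sdL, aF_uc, aG_uc]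

lemma pU_fre {i : ℕ} {e : P → ℕ} : pU i e = (fre dc e (sdU P i)).card := by
  classical
  unfold pU fre
  congr 1
  ext z
  simp only [mem_filter, mem_univ, true_and, mem_sdU, aF_dc, aG_dc]

lemma adm_L {i : ℕ} {e : P → ℕ} (hA : AdmL i e) :
    ∀ z ∈ sdL P i, ¬ (aF uc e z ∧ aG uc e z) := by
  intro z hz
  rw [mem_sdL] at hz
  rw [aF_uc, aG_uc]
  exact hA z hz

lemma adm_U {i : ℕ} {e : P → ℕ} (hA : AdmU i e) :
    ∀ z ∈ sdU P i, ¬ (aF dc e z ∧ aG dc e z) := by
  intro z hz
  rw [mem_sdU] at hz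
  rw [aF_dc, aG_dc]
  exact hA z hz

/-- COST, lower part: forced sites ≤ free elements + energy -/
theorem card_AL_le (H : Gr P r) {i : ℕ} {e : P → ℕ} (hA : AdmL i e) :
    (AL i e).card ≤ pL i e + ∑ z ∈ sdL P i, e z := by
  classical
  have h := forced_le (lay_L H i) (adm_L hA)
  rw [pL_fre, AL_af]
  convert h

/-- COST, upper part -/
theorem card_AU_le (H : Gr P r) {i : ℕ} (hi : i ≤ r) {e : P → ℕ} (hA : AdmU i e) :
    (AU i e).card ≤ pU i e + ∑ z ∈ sdU P i, e z := by
  classical
  have h := forced_le (lay_U H hi) (adm_U hA)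
  rw [pU_fre, AU_af]
  convert h

/-- the energy is the sum over the three parts -/
lemma kk_sum_parts (i : ℕ) (f : P → ℕ) :
    ∑ x, f x = ∑ z ∈ sdL P i, f z + ∑ z ∈ lv P i, f z + ∑ z ∈ sdU P i, f z := by
  classical
  have h1 : (univ : Finset P) = (sdL P i ∪ lv P i) ∪ sdU P i := by
    ext x
    simp only [mem_univ, mem_union, mem_sdL, mem_sdU, mem_lv, true_iff]
    omega
  rw [h1, sum_union, sum_union]
  · rw [disjoint_left]
    intro x h1 h2
    rw [mem_sdL] at h1
    rw [mem_lv] at h2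
    omega
  · rw [disjoint_left]
    intro x h1 h2
    rw [mem_union, mem_sdL, mem_lv] at h1
    rw [mem_sdU] at h2
    omega

/-- the sites of a near element -/
noncomputable def ns (i : ℕ) (x : P) : Finset P := if lev x = i + 1 then uc x else dc x

/-- disjoint families of double near elements -/
def Dj (i : ℕ) (F : Finset P) : Prop :=
  F ⊆ dbL P i ∪ dbU P i ∧ ∀ x ∈ F, ∀ y ∈ F, x ≠ y → Disjoint (ns i x) (ns i y)

/-- indicator function -/
def indK (F : Finset P) : P → ℕ := fun x => if x ∈ F then 1 else 0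

/-- the extremal configurations are the indicators of disjoint families -/
theorem extr_ind (H : Gr P r) {i : ℕ} (hi : i ≤ r) {e : P → ℕ} (hA : AdmL i e) (hB : AdmU i e)
    (hD : Disjoint (AL i e) (AU i e))
    (h : pL i e + pU i e + ∑ x, e x ≤ (AL i e).card + (AU i e).card) :
    ∃ F, Dj i F ∧ e = indK F := by
  classical
  have h1 := card_AL_le H hA
  have h2 := card_AU_le H hi hB
  have h3 := kk_sum_parts i e
  have hV0 : ∑ z ∈ lv P i, e z = 0 := by omega
  have hV : ∀ v ∈ lv P i, e v = 0 := Finset.sum_eq_zero_iff.1 hV0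
  have hL := forced_eq_case (lay_L H i) (adm_L hA) hV (by
    have : pL i e + ∑ z ∈ sdL P i, e z ≤ (AL i e).card := by omega
    rw [pL_fre, AL_af] at this
    convert this)
  have hU := forced_eq_case (lay_U H hi) (adm_U hB) hV (by
    have : pU i e + ∑ z ∈ sdU P i, e z ≤ (AU i e).card := by omega
    rw [pU_fre, AU_af] at this
    convert this)
  obtain ⟨l1, l2, l3⟩ := hL
  obtain ⟨u1, u2, u3⟩ := hU
  have hmem : ∀ x, 0 < e x → (e x = 1 ∧ (x ∈ dbL P i ∨ x ∈ dbU P i)) := by
    intro x hx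
    rcases Nat.lt_trichotomy (lev x) i with h4 | h4 | h4
    · have h5 : x ∈ lU P i 1 := by
        by_contra h6
        have := u1 x (mem_sdU.2 h4) h6
        omega
      have h6 := u2 x h5
      rw [mem_lU] at h5
      refine ⟨by omega, Or.inr (mem_dbU.2 ⟨h5, by omega⟩)⟩
    · have := hV x (mem_lv.2 h4)
      omega
    · have h5 : x ∈ lv P (i + 1) := by
        by_contra h6
        have := l1 x (mem_sdL.2 h4) h6
        omega
      have h6 := l2 x h5
      rw [mem_lv] at h5
      refine ⟨by omega, Or.inl (mem_dbL.2 ⟨h5, by omega⟩)⟩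
  refine ⟨univ.filter (fun x => 0 < e x), ⟨?_, ?_⟩, ?_⟩
  · intro x hx
    rw [mem_filter] at hx
    rw [mem_union]
    exact (hmem x hx.2).2
  · intro x hx y hy hne
    rw [mem_filter] at hx hy
    have hALx : ∀ x, x ∈ dbL P i → 0 < e x → uc x ⊆ AL i e := by
      intro x hx0 hx1 v hv
      rw [mem_dbL] at hx0
      have h7 := lev_uc H hv
      unfold AL
      rw [mem_filter, mem_lv]
      refine ⟨by omega, x, mem_uc.1 hv, ?_⟩
      rw [hV v (mem_lv.2 (by omega))]
      exact hx1
    have hAUx : ∀ x, x ∈ dbU P i → 0 < e x → dc x ⊆ AU i e := by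
      intro x hx0 hx1 v hv
      rw [mem_dbU] at hx0
      have h7 := lev_dc H hv
      unfold AU
      rw [mem_filter, mem_lv]
      refine ⟨by omega, x, mem_dc.1 hv, ?_⟩
      rw [hV v (mem_lv.2 (by omega))]
      exact hx1
    have hnL : ∀ x, x ∈ dbL P i → ns i x = uc x := by
      intro x hx
      unfold ns
      rw [if_pos (mem_dbL.1 hx).1]
    have hnU : ∀ x, x ∈ dbU P i → ns i x = dc x := by
      intro x hx
      unfold ns
      rw [if_neg]
      have := (mem_dbU.1 hx).1
      omega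
    rcases (hmem x hx.2).2 with hx0 | hx0 <;> rcases (hmem y hy.2).2 with hy0 | hy0
    · rw [hnL x hx0, hnL y hy0]
      exact l3 x (mem_lv.2 (mem_dbL.1 hx0).1) y (mem_lv.2 (mem_dbL.1 hy0).1) hne hx.2 hy.2
    · rw [hnL x hx0, hnU y hy0]
      exact disjoint_of_subset_left (hALx x hx0 hx.2)
        (disjoint_of_subset_right (hAUx y hy0 hy.2) hD)
    · rw [hnU x hx0, hnL y hy0]
      exact (disjoint_of_subset_left (hALx y hy0 hy.2)
        (disjoint_of_subset_right (hAUx x hx0 hx.2) hD)).symm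
    · rw [hnU x hx0, hnU y hy0]
      exact u3 x (mem_lU.2 (mem_dbU.1 hx0).1) y (mem_lU.2 (mem_dbU.1 hy0).1) hne hx.2 hy.2
  · funext x
    unfold indK
    split_ifs with h4
    · rw [mem_filter] at h4
      exact (hmem x h4.2).1
    · rw [mem_filter] at h4
      by_contra h5
      exact h4 ⟨mem_univ _, Nat.pos_of_ne_zero h5⟩

end Pool.Agent.GaussPoset.Win

end

/-! From `Pool.Agent.W_448kk_h94.KkC` -/

section

/-! The (k,k) identity (MP_448cb3_co). -/

namespace Pool.Agent.GaussPoset.Win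

set_option linter.unusedSectionVars false

open Finset

universe u

variable {P : Type u} [Fintype P] [PartialOrder P] [DecidableEq P] {r : ℕ}

lemma indK_of_mem {F : Finset P} {x : P} (h : x ∈ F) : indK F x = 1 := by
  unfold indK; rw [if_pos h]

lemma indK_of_not {F : Finset P} {x : P} (h : x ∉ F) : indK F x = 0 := by
  unfold indK; rw [if_neg h]

lemma indK_pos {F : Finset P} {x : P} : 0 < indK F x ↔ x ∈ F := by
  unfold indK
  split_ifs with h <;> simp [h]

lemma indK_le (F : Finset P) (x : P) : indK F x ≤ 1 := by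
  unfold indK
  split_ifs <;> omega

lemma indK_inj {F G : Finset P} (h : indK F = indK G) : F = G := by
  ext x
  rw [← indK_pos, ← indK_pos (F := G), h]

lemma sum_indK (F : Finset P) : ∑ x, indK F x = F.card := by
  unfold indK
  rw [← card_filter]
  congr 1
  ext x
  simp

section fam

variable {i : ℕ} {F : Finset P}

lemma Dj_lev (h : Dj i F) {x : P} (hx : x ∈ F) : lev x = i + 1 ∨ lev x + 1 = i := by
  have := h.1 hx
  rw [mem_union, mem_dbL, mem_dbU] at this
  tauto

lemma Dj_site (h : Dj i F) {x : P} (hx : lev x = i) : indK F x = 0 := by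
  apply indK_of_not
  intro h1
  have := Dj_lev h h1
  omega

lemma Dj_FD (H : Gr P r) (h : Dj i F) {z : P} (hz : i < lev z) : ¬ FD (indK F) z := by
  rintro ⟨z', hz', hlt⟩
  have h1 := (H.covBy_iff.1 hz').2
  have h2 : z' ∈ F := indK_pos.1 (by omega)
  have := Dj_lev h h2
  omega

lemma Dj_FU (H : Gr P r) (h : Dj i F) {z : P} (hz : lev z < i) : ¬ FU (indK F) z := by
  rintro ⟨z', hz', hlt⟩
  have h1 := (H.covBy_iff.1 hz').2
  have h2 : z' ∈ F := indK_pos.1 (by omega)
  have := Dj_lev h h2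
  omega

lemma Dj_GU (H : Gr P r) (h : Dj i F) {z : P} (hz : i < lev z) : GU (indK F) z ↔ z ∉ F := by
  constructor
  · rintro ⟨y, hy, hle⟩ hz1
    have h1 := (H.covBy_iff.1 hy).2
    have h2 := Dj_lev h hz1
    rw [indK_of_mem hz1, Dj_site h (x := y) (by omega)] at hle
    omega
  · intro hz1
    obtain ⟨y, hy⟩ := uc_nonempty H (x := z) (by omega)
    refine ⟨y, mem_uc.1 hy, ?_⟩
    rw [indK_of_not hz1]
    exact Nat.zero_le _

lemma Dj_GD (H : Gr P r) (hi : i ≤ r) (h : Dj i F) {z : P} (hz : lev z < i) :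
    GD (indK F) z ↔ z ∉ F := by
  constructor
  · rintro ⟨y, hy, hle⟩ hz1
    have h1 := (H.covBy_iff.1 hy).2
    have h2 := Dj_lev h hz1
    rw [indK_of_mem hz1, Dj_site h (x := y) (by omega)] at hle
    omega
  · intro hz1
    obtain ⟨y, hy⟩ := dc_nonempty H (x := z) (by omega)
    refine ⟨y, mem_dc.1 hy, ?_⟩
    rw [indK_of_not hz1]
    exact Nat.zero_le _

lemma ns_L {x : P} (hx : x ∈ dbL P i) : ns i x = uc x := by
  unfold ns
  rw [if_pos (mem_dbL.1 hx).1]

lemma ns_U {x : P} (hx : x ∈ dbU P i) : ns i x = dc x := by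
  unfold ns
  rw [if_neg]
  have := (mem_dbU.1 hx).1
  omega

lemma ns_card {x : P} (hx : x ∈ dbL P i ∪ dbU P i) : (ns i x).card = 2 := by
  rcases mem_union.1 hx with h | h
  · rw [ns_L h]
    exact (mem_dbL.1 h).2
  · rw [ns_U h]
    exact (mem_dbU.1 h).2

lemma ns_sub (H : Gr P r) {x : P} (hx : x ∈ dbL P i ∪ dbU P i) : ns i x ⊆ lv P i := by
  intro v hv
  rw [mem_lv]
  rcases mem_union.1 hx with h | h
  · rw [ns_L h] at hv
    have h1 := lev_uc H hv
    have h2 := (mem_dbL.1 h).1
    omega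
  · rw [ns_U h] at hv
    have h1 := lev_dc H hv
    have h2 := (mem_dbU.1 h).1
    omega

lemma Dj_AL (H : Gr P r) (h : Dj i F) : AL i (indK F) = (F ∩ dbL P i).biUnion (ns i) := by
  classical
  ext v
  unfold AL
  rw [mem_filter, mem_lv, mem_biUnion]
  unfold FD
  constructor
  · rintro ⟨hv, z', hz', hlt⟩
    have h1 := (H.covBy_iff.1 hz').2
    have h2 : z' ∈ F := indK_pos.1 (by omega)
    have h3 := h.1 h2
    have h4 : z' ∈ dbL P i := by
      rcases mem_union.1 h3 with h5 | h5
      · exact h5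
      · have := (mem_dbU.1 h5).1
        omega
    exact ⟨z', mem_inter.2 ⟨h2, h4⟩, by rw [ns_L h4]; exact mem_uc.2 hz'⟩
  · rintro ⟨w, hw, hv⟩
    rw [mem_inter] at hw
    rw [ns_L hw.2] at hv
    have h1 := lev_uc H hv
    have h2 := (mem_dbL.1 hw.2).1
    refine ⟨by omega, w, mem_uc.1 hv, ?_⟩
    rw [indK_of_mem hw.1, Dj_site h (x := v) (by omega)]
    exact one_pos

lemma Dj_AU (H : Gr P r) (h : Dj i F) : AU i (indK F) = (F ∩ dbU P i).biUnion (ns i) := by
  classical
  ext v
  unfold AU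
  rw [mem_filter, mem_lv, mem_biUnion]
  unfold FU
  constructor
  · rintro ⟨hv, z', hz', hlt⟩
    have h1 := (H.covBy_iff.1 hz').2
    have h2 : z' ∈ F := indK_pos.1 (by omega)
    have h3 := h.1 h2
    have h4 : z' ∈ dbU P i := by
      rcases mem_union.1 h3 with h5 | h5
      · have := (mem_dbL.1 h5).1
        omega
      · exact h5
    exact ⟨z', mem_inter.2 ⟨h2, h4⟩, by rw [ns_U h4]; exact mem_dc.2 hz'⟩
  · rintro ⟨w, hw, hv⟩
    rw [mem_inter] at hw
    rw [ns_U hw.2] at hv
    have h1 := lev_dc H hv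
    have h2 := (mem_dbU.1 hw.2).1
    refine ⟨by omega, w, mem_dc.1 hv, ?_⟩
    rw [indK_of_mem hw.1, Dj_site h (x := v) (by omega)]
    exact one_pos

lemma Dj_bi_card (h : Dj i F) {G : Finset P} (hG : G ⊆ F) :
    (G.biUnion (ns i)).card = 2 * G.card := by
  rw [card_biUnion (fun x hx y hy hne => h.2 x (hG hx) y (hG hy) hne)]
  rw [sum_congr rfl (fun x hx => ns_card (h.1 (hG hx)))]
  rw [sum_const, smul_eq_mul, mul_comm]

lemma Dj_disj (H : Gr P r) (h : Dj i F) : Disjoint (AL i (indK F)) (AU i (indK F)) := by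
  rw [Dj_AL H h, Dj_AU H h, disjoint_left]
  intro v h1 h2
  rw [mem_biUnion] at h1 h2
  obtain ⟨x, hx, hv⟩ := h1
  obtain ⟨y, hy, hv'⟩ := h2
  rw [mem_inter] at hx hy
  have hne : x ≠ y := by
    rintro rfl
    have h3 := (mem_dbL.1 hx.2).1
    have h4 := (mem_dbU.1 hy.2).1
    omega
  exact (disjoint_left.1 (h.2 x hx.1 y hy.1 hne) hv) hv'

lemma Dj_card (h : Dj i F) : F.card = (F ∩ dbL P i).card + (F ∩ dbU P i).card := by
  rw [← card_union_of_disjoint]
  · congr 1
    rw [← inter_union_distrib_left]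
    exact (inter_eq_left.2 h.1).symm
  · rw [disjoint_left]
    intro x h1 h2
    rw [mem_inter] at h1 h2
    have h3 := (mem_dbL.1 h1.2).1
    have h4 := (mem_dbU.1 h2.2).1
    omega

lemma Dj_pL (H : Gr P r) (h : Dj i F) : pL i (indK F) = (F ∩ dbL P i).card := by
  classical
  unfold pL
  congr 1
  ext z
  rw [mem_filter, mem_inter]
  constructor
  · rintro ⟨_, h1, h2, h3⟩
    rw [Dj_GU H h h1, not_not] at h3
    refine ⟨h3, ?_⟩
    rcases mem_union.1 (h.1 h3) with h4 | h4
    · exact h4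
    · have := (mem_dbU.1 h4).1
      omega
  · rintro ⟨h1, h2⟩
    have h3 := (mem_dbL.1 h2).1
    refine ⟨mem_univ _, by omega, Dj_FD H h (by omega), ?_⟩
    rw [Dj_GU H h (by omega), not_not]
    exact h1

lemma Dj_pU (H : Gr P r) (hi : i ≤ r) (h : Dj i F) : pU i (indK F) = (F ∩ dbU P i).card := by
  classical
  unfold pU
  congr 1
  ext z
  rw [mem_filter, mem_inter]
  constructor
  · rintro ⟨_, h1, h2, h3⟩
    rw [Dj_GD H hi h h1, not_not] at h3
    refine ⟨h3, ?_⟩
    rcases mem_union.1 (h.1 h3) with h4 | h4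
    · have := (mem_dbL.1 h4).1
      omega
    · exact h4
  · rintro ⟨h1, h2⟩
    have h3 := (mem_dbU.1 h2).1
    refine ⟨mem_univ _, by omega, Dj_FU H h (by omega), ?_⟩
    rw [Dj_GD H hi h (by omega), not_not]
    exact h1

lemma Dj_two_le (H : Gr P r) (h : Dj i F) : 2 * F.card ≤ (lv P i).card := by
  rw [← Dj_bi_card h (Subset.refl F)]
  refine card_le_card ?_
  rw [biUnion_subset]
  exact fun x hx => ns_sub H (h.1 hx)

/-- the term of an extremal configuration -/
theorem trm_ind (H : Gr P r) (hi : i ≤ r) (h : Dj i F) :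
    trm i (indK F) = dd ^ ((lv P i).card - F.card) *
      (xi ^ (F ∩ dbU P i).card * xx ^ (2 * (F ∩ dbL P i).card)) := by
  classical
  have hA : AdmL i (indK F) := fun z hz h1 => Dj_FD H h hz h1.1
  have hB : AdmU i (indK F) := fun z hz h1 => Dj_FU H h hz h1.1
  have haL : aL i (indK F) = 0 := by
    unfold aL
    rw [card_eq_zero, filter_eq_empty_iff]
    rintro z _ ⟨h1, h2⟩
    exact Dj_FD H h h1 h2
  have haU : aU i (indK F) = 0 := by
    unfold aU
    rw [card_eq_zero, filter_eq_empty_iff]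
    rintro z _ ⟨h1, h2⟩
    exact Dj_FU H h h1 h2
  have h1 : (AL i (indK F)).card = 2 * (F ∩ dbL P i).card := by
    rw [Dj_AL H h, Dj_bi_card h inter_subset_left]
  have h2 : (AU i (indK F)).card = 2 * (F ∩ dbU P i).card := by
    rw [Dj_AU H h, Dj_bi_card h inter_subset_left]
  have h3 := Dj_two_le H h
  have h4 := Dj_card h
  unfold trm
  rw [if_pos (Dj_disj H h)]
  unfold cw
  rw [if_pos ⟨hA, hB⟩, haL, haU, Dj_pL H h, Dj_pU H hi h, h1, h2]
  have h5 : (lv P i).card - F.card = ((F ∩ dbL P i).card + (F ∩ dbU P i).card) +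
      ((lv P i).card - 2 * (F ∩ dbL P i).card - 2 * (F ∩ dbU P i).card) := by omega
  rw [h5, pow_add dd ((F ∩ dbL P i).card + (F ∩ dbU P i).card)]
  rw [pow_zero, zero_add]
  ring

lemma Dj_not_cheap (H : Gr P r) (hi : i ≤ r) (h : Dj i F) {k : ℕ} (hk : 1 ≤ k)
    (hF : F.card = k) : ¬ Cheap (k - 1) i (indK F) := by
  have hA : AdmL i (indK F) := fun z hz h1 => Dj_FD H h hz h1.1
  have hB : AdmU i (indK F) := fun z hz h1 => Dj_FU H h hz h1.1
  have h1 : (AL i (indK F)).card = 2 * (F ∩ dbL P i).card := by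
    rw [Dj_AL H h, Dj_bi_card h inter_subset_left]
  have h2 : (AU i (indK F)).card = 2 * (F ∩ dbU P i).card := by
    rw [Dj_AU H h, Dj_bi_card h inter_subset_left]
  have h4 := Dj_card h
  have h5 := Dj_pL H h
  have h6 := Dj_pU H hi h
  rintro (h7 | h7 | h7 | h7)
  · exact h7 hA
  · exact h7 hB
  · exact h7 (Dj_disj H h)
  · omega

end fam

open Classical in
/-- disjoint families of size `k` -/
noncomputable def FF (P : Type u) [Fintype P] [PartialOrder P] [DecidableEq P] (i k : ℕ) :
    Finset (Finset P) := ((dbL P i ∪ dbU P i).powersetCard k).filter (fun F => Dj i F)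

lemma mem_FF {i k : ℕ} {F : Finset P} : F ∈ FF P i k ↔ Dj i F ∧ F.card = k := by
  classical
  unfold FF
  rw [mem_filter, mem_powersetCard]
  constructor
  · rintro ⟨⟨_, h2⟩, h3⟩
    exact ⟨h3, h2⟩
  · rintro ⟨h1, h2⟩
    exact ⟨⟨h1.1, h2⟩, h1⟩

open Classical in
/-- the configurations of energy `k` which are not cheap -/
lemma noncheap_eq (H : Gr P r) {i : ℕ} (hi : i ≤ r) {k : ℕ} (hk : 1 ≤ k) :
    ((univ : Finset P).piAntidiag k).filter (fun e => ¬ Cheap (k - 1) i e) =
      (FF P i k).image indK := by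
  ext e
  rw [mem_filter, mem_piAntidiag, mem_image]
  constructor
  · rintro ⟨⟨h1, _⟩, h2⟩
    have h1' : ∑ x, e x = k := h1
    unfold Cheap at h2
    push Not at h2
    obtain ⟨hA, hB, hD, h3⟩ := h2
    obtain ⟨F, hF, rfl⟩ := extr_ind H hi hA hB hD (by omega)
    rw [sum_indK] at h1'
    exact ⟨F, mem_FF.2 ⟨hF, h1'⟩, rfl⟩
  · rintro ⟨F, hF, rfl⟩
    rw [mem_FF] at hF
    refine ⟨⟨?_, fun x _ => mem_univ x⟩, Dj_not_cheap H hi hF.1 hk hF.2⟩
    have := sum_indK F
    rw [hF.2] at this
    exact this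

/-- THE (k,k) IDENTITY: in a Gaussian poset, for `1 ≤ k`, the signed number of families of `k` double near
elements with pairwise disjoint sites is zero; the sign is `-1` to the number of upper elements. -/
theorem kk (H : Gr P r) {i : ℕ} (hi : i ≤ r) {k : ℕ} (hk : 1 ≤ k) :
    ∑ F ∈ FF P i k, (-1 : ℤ) ^ (F ∩ dbU P i).card = 0 := by
  classical
  rcases (FF P i k).eq_empty_or_nonempty with h0 | ⟨F0, hF0⟩
  · rw [h0, sum_empty]
  have h1 : 2 * k ≤ (lv P i).card := by
    rw [mem_FF] at hF0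
    have := Dj_two_le H hF0.1
    omega
  have h2 : dd ^ ((lv P i).card - (k - 1)) ∣ ∑ e ∈ (univ : Finset P).piAntidiag k, trm i e :=
    (pow_dvd_pow dd (Nat.sub_le _ _)).trans (dvd_sum_trm H hi k)
  rw [← sum_filter_add_sum_filter_not ((univ : Finset P).piAntidiag k)
    (fun e => Cheap (k - 1) i e)] at h2
  have h3 : dd ^ ((lv P i).card - (k - 1)) ∣
      ∑ e ∈ ((univ : Finset P).piAntidiag k).filter (fun e => Cheap (k - 1) i e), trm i e := by
    refine dvd_sum fun e he => ?_
    rw [mem_filter] at he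
    exact dvd_trm_of_cheap he.2
  have h4 := (dvd_add_right h3).mp h2
  rw [noncheap_eq H hi hk, sum_image (fun F _ G _ h => indK_inj h)] at h4
  have h5 : ∑ F ∈ FF P i k, trm i (indK F) = dd ^ ((lv P i).card - k) * ∑ F ∈ FF P i k,
      (xi ^ (F ∩ dbU P i).card * xx ^ (2 * (F ∩ dbL P i).card)) := by
    rw [mul_sum]
    refine sum_congr rfl fun F hF => ?_
    rw [mem_FF] at hF
    rw [trm_ind H hi hF.1, hF.2]
  rw [h5, show (lv P i).card - (k - 1) = ((lv P i).card - k) + 1 by omega] at h4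
  have h6 := cc_of_dvd h4
  rw [map_sum] at h6
  rw [← h6]
  refine sum_congr rfl fun F _ => ?_
  rw [map_mul, map_pow, map_pow, cc_xi, cc_xx, pow_mul]
  norm_num

end Pool.Agent.GaussPoset.Win

end

/-! From `Pool.Agent.W_448kk_h94.KkD` -/

section

/-! The (k,k) identity, matching form (MP_448cb3_co). -/

namespace Pool.Agent.GaussPoset.Win

set_option linter.unusedSectionVars false

open Finset

universe u

section gen

variable {α β : Type*} [DecidableEq α] [DecidableEq β]

/-- systems of representatives of `M` -/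
noncomputable def SR (N : Finset α) (t : α → β) (M : Finset β) : Finset (Finset α) := by
  classical exact N.powerset.filter (fun F => Set.InjOn t F ∧ F.image t = M)

lemma mem_SR {N : Finset α} {t : α → β} {M : Finset β} {F : Finset α} :
    F ∈ SR N t M ↔ F ⊆ N ∧ Set.InjOn t F ∧ F.image t = M := by
  classical
  unfold SR
  rw [mem_filter, mem_powerset]

/-- product over `M` of sums over the fibres -/
theorem prod_fib (N : Finset α) (t : α → β) (s : α → ℤ) (M : Finset β) :
    ∏ T ∈ M, ∑ x ∈ N.filter (fun x => t x = T), s x = ∑ F ∈ SR N t M, ∏ x ∈ F, s x := by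
  induction M using Finset.induction_on with
  | empty =>
    have h : SR N t (∅ : Finset β) = {∅} := by
      ext F
      rw [mem_SR, mem_singleton]
      constructor
      · rintro ⟨_, _, h3⟩
        exact image_eq_empty.1 h3
      · rintro rfl
        exact ⟨empty_subset _, by simp, image_empty _⟩
    rw [h, sum_singleton, prod_empty, prod_empty]
  | insert T M hT ih =>
    rw [prod_insert hT, ih, sum_mul_sum, ← sum_product']
    refine Finset.sum_nbij (fun p => insert p.1 p.2) ?_ ?_ ?_ ?_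
    · rintro ⟨x, F⟩ hp
      rw [mem_product, mem_filter, mem_SR] at hp
      obtain ⟨⟨h1, h2⟩, h3, h4, h5⟩ := hp
      show insert x F ∈ _
      have hxT : ∀ y ∈ F, t y ≠ T := by
        intro y hy h
        apply hT
        rw [← h5, ← h]
        exact mem_image_of_mem t hy
      rw [mem_SR]
      refine ⟨insert_subset h1 h3, ?_, ?_⟩
      · intro a ha b hb hab
        rw [mem_coe, mem_insert] at ha hb
        rcases ha with rfl | ha <;> rcases hb with rfl | hb
        · rfl
        · exact absurd (hab.symm.trans h2) (hxT b hb)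
        · exact absurd (hab.trans h2) (hxT a ha)
        · exact h4 (mem_coe.2 ha) (mem_coe.2 hb) hab
      · rw [image_insert, h5]
        exact congrArg (fun y => insert y M) h2
    · rintro ⟨x, F⟩ hp ⟨y, G⟩ hq h
      rw [mem_coe, mem_product, mem_filter, mem_SR] at hp hq
      obtain ⟨⟨h1, h2⟩, h3, h4, h5⟩ := hp
      obtain ⟨⟨h1', h2'⟩, h3', h4', h5'⟩ := hq
      simp only at h1 h2 h3 h4 h5 h1' h2' h3' h4' h5' h
      have hF : ∀ z ∈ F, t z ≠ T := by
        intro z hz h
        apply hT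
        rw [← h5, ← h]
        exact mem_image_of_mem t hz
      have hG : ∀ z ∈ G, t z ≠ T := by
        intro z hz h
        apply hT
        rw [← h5', ← h]
        exact mem_image_of_mem t hz
      have hxy : x = y := by
        have h6 : x ∈ insert y G := by
          rw [← h]
          exact mem_insert_self _ _
        rcases mem_insert.1 h6 with h7 | h7
        · exact h7
        · exact absurd h2 (hG x h7)
      subst hxy
      have h6 : F = G := by
        rw [← erase_insert (a := x) (s := F) (fun h7 => hF x h7 h2),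
          ← erase_insert (a := x) (s := G) (fun h7 => hG x h7 h2), h]
      rw [h6]
    · intro F hF
      rw [mem_coe, mem_SR] at hF
      obtain ⟨h1, h2, h3⟩ := hF
      have h4 : T ∈ F.image t := by
        rw [h3]
        exact mem_insert_self _ _
      obtain ⟨x, hx, hxT⟩ := mem_image.1 h4
      refine ⟨⟨x, F.erase x⟩, ?_, insert_erase hx⟩
      rw [mem_coe, mem_product, mem_filter, mem_SR]
      refine ⟨⟨h1 hx, hxT⟩, (erase_subset _ _).trans h1, ?_, ?_⟩
      · intro a ha b hb hab
        rw [mem_coe, mem_erase] at ha hb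
        exact h2 (mem_coe.2 ha.2) (mem_coe.2 hb.2) hab
      · show (F.erase x).image t = M
        ext S
        rw [mem_image]
        constructor
        · rintro ⟨a, ha, rfl⟩
          rw [mem_erase] at ha
          have h5 : t a ∈ insert T M := by
            rw [← h3]
            exact mem_image_of_mem t ha.2
          rcases mem_insert.1 h5 with h6 | h6
          · exact absurd (h2 (mem_coe.2 ha.2) (mem_coe.2 hx) (h6.trans hxT.symm)) ha.1
          · exact h6
        · intro hS
          have h5 : S ∈ F.image t := by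
            rw [h3]
            exact mem_insert_of_mem hS
          obtain ⟨a, ha, rfl⟩ := mem_image.1 h5
          refine ⟨a, mem_erase.2 ⟨?_, ha⟩, rfl⟩
          rintro rfl
          rw [hxT] at hS
          exact hT hS
    · rintro ⟨x, F⟩ hp
      rw [mem_product, mem_filter, mem_SR] at hp
      obtain ⟨⟨h1, h2⟩, h3, h4, h5⟩ := hp
      show s x * ∏ y ∈ F, s y = ∏ y ∈ insert x F, s y
      rw [prod_insert]
      intro h
      apply hT
      rw [← h5, ← h2]
      exact mem_image_of_mem t h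

end gen

variable {P : Type u} [Fintype P] [PartialOrder P] [DecidableEq P] {r : ℕ}

/-- the defect of a set of sites: double lower minus double upper elements with this set of sites -/
noncomputable def Df (i : ℕ) (T : Finset P) : ℤ := (CoreC_L i T).card - (CoreC_U i T).card

/-- the defect of a pair: common lower covers minus common upper covers -/
lemma Df_pair (H : Gr P r) {i : ℕ} {v v' : P} (hv : lev v = i) (hne : v ≠ v') :
    Df i {v, v'} = (dcv v v' : ℤ) - (ucv v v' : ℤ) := by
  unfold Df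
  rw [CoreC_L_pair H hv hne, CoreC_U_pair H hv hne]

/-- sign of a near element -/
noncomputable def sgn (i : ℕ) (x : P) : ℤ := if x ∈ dbU P i then -1 else 1

lemma prod_sgn (i : ℕ) (F : Finset P) : ∏ x ∈ F, sgn i x = (-1 : ℤ) ^ (F ∩ dbU P i).card := by
  unfold sgn
  rw [prod_ite, prod_const, prod_const_one, mul_one]
  congr 2

lemma sum_fib {i : ℕ} (T : Finset P) :
    ∑ x ∈ (dbL P i ∪ dbU P i).filter (fun x => ns i x = T), sgn i x = Df i T := by
  have h1 : (dbL P i ∪ dbU P i).filter (fun x => ns i x = T) = CoreC_L i T ∪ CoreC_U i T := by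
    ext x
    rw [mem_filter, mem_union, mem_union, mem_CoreC_L, mem_CoreC_U]
    constructor
    · rintro ⟨h | h, h2⟩
      · rw [ns_L h] at h2
        exact Or.inl ⟨h, h2⟩
      · rw [ns_U h] at h2
        exact Or.inr ⟨h, h2⟩
    · rintro (⟨h, h2⟩ | ⟨h, h2⟩)
      · exact ⟨Or.inl h, by rw [ns_L h]; exact h2⟩
      · exact ⟨Or.inr h, by rw [ns_U h]; exact h2⟩
  have h2 : Disjoint (CoreC_L i T) (CoreC_U i T) := by
    rw [disjoint_left]
    intro x hx hy
    have h3 := (mem_dbL.1 (mem_CoreC_L.1 hx).1).1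
    have h4 := (mem_dbU.1 (mem_CoreC_U.1 hy).1).1
    omega
  rw [h1, sum_union h2]
  have h3 : ∑ x ∈ CoreC_L i T, sgn i x = ∑ x ∈ CoreC_L i T, 1 := by
    refine sum_congr rfl fun x hx => ?_
    unfold sgn
    rw [if_neg]
    intro h
    have h3 := (mem_dbL.1 (mem_CoreC_L.1 hx).1).1
    have h4 := (mem_dbU.1 h).1
    omega
  have h4 : ∑ x ∈ CoreC_U i T, sgn i x = ∑ x ∈ CoreC_U i T, -1 := by
    refine sum_congr rfl fun x hx => ?_
    unfold sgn
    rw [if_pos (mem_CoreC_U.1 hx).1]
  rw [h3, h4]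
  unfold Df
  simp only [sum_const, smul_eq_mul, nsmul_eq_mul, mul_one]
  ring

open Classical in
/-- matchings of size `k` on the sites -/
noncomputable def MM (P : Type u) [Fintype P] [PartialOrder P] [DecidableEq P] (i k : ℕ) :
    Finset (Finset (Finset P)) :=
  (((lv P i).powersetCard 2).powersetCard k).filter
    (fun M => ∀ S ∈ M, ∀ T ∈ M, S ≠ T → Disjoint S T)

lemma mem_MM {i k : ℕ} {M : Finset (Finset P)} : M ∈ MM P i k ↔
    (∀ T ∈ M, T ⊆ lv P i ∧ T.card = 2) ∧ M.card = k ∧ ∀ S ∈ M, ∀ T ∈ M, S ≠ T → Disjoint S T := by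
  classical
  unfold MM
  rw [mem_filter, mem_powersetCard]
  constructor
  · rintro ⟨⟨h1, h2⟩, h3⟩
    exact ⟨fun T hT => mem_powersetCard.1 (h1 hT), h2, h3⟩
  · rintro ⟨h1, h2, h3⟩
    exact ⟨⟨fun T hT => mem_powersetCard.2 (h1 T hT), h2⟩, h3⟩

lemma fib_FF (H : Gr P r) {i k : ℕ} {M : Finset (Finset P)} (hM : M ∈ MM P i k) :
    (FF P i k).filter (fun F => F.image (ns i) = M) = SR (dbL P i ∪ dbU P i) (ns i) M := by
  rw [mem_MM] at hM
  ext F
  rw [mem_filter, mem_FF, mem_SR]
  constructor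
  · rintro ⟨⟨h1, h2⟩, h3⟩
    refine ⟨h1.1, ?_, h3⟩
    intro a ha b hb hab
    by_contra hne
    have h4 := h1.2 a (mem_coe.1 ha) b (mem_coe.1 hb) hne
    rw [hab, disjoint_self] at h4
    have h5 := ns_card (h1.1 (mem_coe.1 hb))
    rw [show ns i b = ∅ from h4, card_empty] at h5
    omega
  · rintro ⟨h1, h2, h3⟩
    refine ⟨⟨⟨h1, ?_⟩, ?_⟩, h3⟩
    · intro x hx y hy hne
      refine hM.2.2 _ ?_ _ ?_ ?_
      · rw [← h3]
        exact mem_image_of_mem _ hx
      · rw [← h3]
        exact mem_image_of_mem _ hy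
      · intro h
        exact hne (h2 (mem_coe.2 hx) (mem_coe.2 hy) h)
    · rw [← hM.2.1, ← h3, card_image_of_injOn h2]

/-- THE (k,k) IDENTITY, matching form: for `1 ≤ k` the sum over the `k`-matchings `M` on the sites of the
products of the defects is zero. -/
theorem kk_match (H : Gr P r) {i : ℕ} (hi : i ≤ r) {k : ℕ} (hk : 1 ≤ k) :
    ∑ M ∈ MM P i k, ∏ T ∈ M, Df i T = 0 := by
  classical
  have h1 := kk H hi hk
  have h2 : ∀ F ∈ FF P i k, F.image (ns i) ∈ MM P i k := by
    intro F hF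
    rw [mem_FF] at hF
    obtain ⟨h1, h2⟩ := hF
    have hinj : Set.InjOn (ns i) (F : Set P) := by
      intro a ha b hb hab
      by_contra hne
      have h4 := h1.2 a (mem_coe.1 ha) b (mem_coe.1 hb) hne
      rw [hab, disjoint_self] at h4
      have h5 := ns_card (h1.1 (mem_coe.1 hb))
      rw [show ns i b = ∅ from h4, card_empty] at h5
      omega
    rw [mem_MM]
    refine ⟨?_, ?_, ?_⟩
    · intro T hT
      obtain ⟨x, hx, rfl⟩ := mem_image.1 hT
      exact ⟨ns_sub H (h1.1 hx), ns_card (h1.1 hx)⟩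
    · rw [card_image_of_injOn hinj, h2]
    · intro S hS T hT hne
      obtain ⟨x, hx, rfl⟩ := mem_image.1 hS
      obtain ⟨y, hy, rfl⟩ := mem_image.1 hT
      refine h1.2 x hx y hy ?_
      rintro rfl
      exact hne rfl
  rw [← sum_fiberwise_of_maps_to h2] at h1
  rw [← h1]
  refine sum_congr rfl fun M hM => ?_
  rw [fib_FF H hM, prod_congr rfl (fun T _ => (sum_fib (i := i) T).symm), prod_fib]
  exact sum_congr rfl fun F _ => prod_sgn i F

end Pool.Agent.GaussPoset.Win

end

/-! From `Pool.Agent.W_448st_h88.MgC` -/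

section

/-! The first order identity at `-1`, compact form (MP_448cb3_co). -/

namespace Pool.Agent.GaussPoset.St

set_option linter.unusedSectionVars false

open Finset Polynomial

section mat

variable {α : Type*} [DecidableEq α] {V : Finset α}

/-- the sum over the sets of raised near elements at `v` -/
noncomputable def gg (A : Finset α → ℤ) (V : Finset α) (v : α) : ℤ :=
  ∑ S ∈ (V.erase v).powerset, (∏ y ∈ S, A {v, y}) * Fm A V (insert v S)

variable {D U th : Finset α → ℤ} {sg : α → ℤ}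

end mat

end Pool.Agent.GaussPoset.St

end

/-! From `Pool.Agent.W_448st_h88.MgE` -/

section

/-! Evaluation of the first order identity for disjoint stars (MP_448cb3_co). -/

namespace Pool.Agent.GaussPoset.St

set_option linter.unusedSectionVars false

open Finset Polynomial

section eva

variable {α : Type*} [DecidableEq α] {A : Finset α → ℤ} {V T : Finset α}
  {I : Finset (α × α × α)} {d : α × α × α}

lemma Starry.mem_s (H : Starry A V I) (hd : d ∈ I) : d.1 ∈ V :=
  H.sub d hd (mem_sp.2 (Or.inl rfl))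

lemma Starry.mem_a (H : Starry A V I) (hd : d ∈ I) : d.2.1 ∈ V :=
  H.sub d hd (mem_sp.2 (Or.inr (Or.inl rfl)))

lemma Starry.mem_b (H : Starry A V I) (hd : d ∈ I) : d.2.2 ∈ V :=
  H.sub d hd (mem_sp.2 (Or.inr (Or.inr rfl)))

/-- sums against the signs -/
theorem Starry.sum_eps (H : Starry A V I) (h : α → ℤ) :
    ∑ v ∈ V, eps I v * h v = ∑ d ∈ I, (h d.2.1 - h d.2.2) := by
  have h1 : ∑ v ∈ V, eps I v * h v = ∑ d ∈ I, ∑ v ∈ V, ep d v * h v := by
    rw [sum_comm]
    refine sum_congr rfl (fun v _ => ?_)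
    unfold eps
    rw [sum_mul]
  rw [h1]
  refine sum_congr rfl (fun d hd => ?_)
  unfold ep
  have h2 : ∀ p ∈ V, ∑ v ∈ V, (if v = p then (1 : ℤ) else 0) * h v = h p := by
    intro p hp
    rw [sum_eq_single p, if_pos rfl, one_mul]
    · intro v _ hv
      rw [if_neg hv, zero_mul]
    · exact fun hn => absurd hp hn
  simp only [sub_mul]
  rw [sum_sub_distrib, h2 _ (H.mem_a hd), h2 _ (H.mem_b hd)]

lemma Starry.eps_mem (H : Starry A V I) {u : α} (hd : d ∈ I) (hu : u ∈ sp d) :
    eps I u = ep d u := by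
  unfold eps
  rw [sum_eq_single d]
  · intro d' hd' hne
    refine ep_eq_zero (fun h => ?_)
    exact disjoint_left.1 (H.disj d' hd' d hd hne) h hu
  · exact fun hn => absurd hd hn

lemma Starry.eps_s (H : Starry A V I) (hd : d ∈ I) : eps I d.1 = 0 := by
  rw [H.eps_mem hd (mem_sp.2 (Or.inl rfl))]
  unfold ep
  rw [if_neg (H.star d hd).sa, if_neg (H.star d hd).sb, sub_zero]

lemma Starry.eps_a (H : Starry A V I) (hd : d ∈ I) : eps I d.2.1 = 1 := by
  rw [H.eps_mem hd (mem_sp.2 (Or.inr (Or.inl rfl)))]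
  unfold ep
  rw [if_pos rfl, if_neg (H.star d hd).ab, sub_zero]

lemma Starry.eps_b (H : Starry A V I) (hd : d ∈ I) : eps I d.2.2 = -1 := by
  rw [H.eps_mem hd (mem_sp.2 (Or.inr (Or.inr rfl)))]
  unfold ep
  rw [if_neg (H.star d hd).ab.symm, if_pos rfl, zero_sub]

lemma Starry.eps_none (_H : Starry A V I) {u : α} (hu : ∀ d ∈ I, u ∉ sp d) : eps I u = 0 := by
  unfold eps
  exact sum_eq_zero (fun d hd => ep_eq_zero (hu d hd))

lemma gg_sub {v : α} {N : Finset α} (hN : N ⊆ V.erase v)
    (h0 : ∀ y ∈ V.erase v, y ∉ N → A {v, y} = 0) :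
    gg A V v = ∑ S ∈ N.powerset, (∏ y ∈ S, A {v, y}) * Fm A V (insert v S) := by
  unfold gg
  refine (sum_subset (powerset_mono.2 hN) ?_).symm
  intro S hS hn
  rw [mem_powerset] at hS
  rw [mem_powerset, not_subset] at hn
  obtain ⟨y, hy, hy'⟩ := hn
  rw [prod_eq_zero hy (h0 y (hS hy) hy'), zero_mul]

lemma pow_single (x : α) : ({x} : Finset α).powerset = {∅, {x}} := by
  ext S
  rw [mem_powerset, subset_singleton_iff, mem_insert, mem_singleton]

/-- number of stars with the given centre -/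
def ce (I : Finset (α × α × α)) (v : α) : ℤ := ∑ d ∈ I, if v = d.1 then 1 else 0

lemma Starry.nb_zero (H : Starry A V I) {v y : α} (hd : d ∈ I) (hv : v ∈ sp d)
    (hy : y ∈ V.erase v) (hy' : y ∉ sp d) : A {v, y} = 0 := by
  refine H.zero v (H.sub d hd hv) y (mem_of_mem_erase hy) (ne_of_mem_erase hy).symm ?_
  rintro d' hd' ⟨h1, h2⟩
  by_cases h : d' = d
  · exact hy' (h ▸ h2)
  · exact disjoint_left.1 (H.disj d' hd' d hd h) h1 hv

lemma Starry.gg_s (H : Starry A V I) (hd : d ∈ I) : gg A V d.1 = 0 := by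
  have hst := H.star d hd
  have e1 := hst.sa
  have e2 := hst.sb
  have e3 := hst.ab
  rw [gg_sub (N := {d.2.1, d.2.2})]
  · have h1 : ∀ S ∈ ({d.2.1, d.2.2} : Finset α).powerset,
        (∏ y ∈ S, A {d.1, y}) * Fm A V (insert d.1 S) = ∏ y ∈ S, A {d.1, y} := by
      intro S hS
      rw [mem_powerset] at hS
      have h2 : insert d.1 S ⊆ sp d := by
        intro x hx
        rw [mem_insert] at hx
        rw [mem_sp]
        rcases hx with hx | hx
        · exact Or.inl hx
        · have h3 := hS hx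
          rw [mem_insert, mem_singleton] at h3
          exact Or.inr h3
      rw [H.F_loc hd h2, hst.f_s (mem_insert_self _ _), mul_one]
    rw [sum_congr rfl h1, ← Finset.prod_one_add, prod_pair e3, hst.Asa, hst.Asb]
    norm_num
  · intro x hx
    rw [mem_insert, mem_singleton] at hx
    rw [mem_erase]
    rcases hx with rfl | rfl
    · exact ⟨e1.symm, H.mem_a hd⟩
    · exact ⟨e2.symm, H.mem_b hd⟩
  · intro y hy hy'
    refine H.nb_zero hd (mem_sp.2 (Or.inl rfl)) hy ?_
    rw [mem_insert, mem_singleton] at hy'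
    rw [mem_sp]
    rintro (h | h)
    · exact (ne_of_mem_erase hy) h
    · exact hy' h

lemma Starry.gg_a (H : Starry A V I) (hd : d ∈ I) : gg A V d.2.1 = 3 := by
  have hst := H.star d hd
  have e1 := hst.sa
  have e2 := hst.sb
  have e3 := hst.ab
  rw [gg_sub (N := {d.1})]
  · rw [pow_single, sum_pair (singleton_ne_empty _).symm, prod_empty, prod_singleton,
      one_mul]
    have h1 : Fm A V (insert d.2.1 ∅) = 2 := by
      rw [insert_empty, H.F_one, H.eps_a hd]
      norm_num
    have h2 : Fm A V (insert d.2.1 {d.1}) = 1 := by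
      refine H.F_two hd (mem_sp.2 (Or.inr (Or.inl rfl))) (mem_sp.2 (Or.inl rfl)) e1.symm
    rw [h1, h2, pair_comm, hst.Asa]
    norm_num
  · intro x hx
    rw [mem_singleton] at hx
    rw [mem_erase, hx]
    exact ⟨e1, H.mem_s hd⟩
  · intro y hy hy'
    rw [mem_singleton] at hy'
    by_cases h : y = d.2.2
    · rw [h, hst.Aab]
    · refine H.nb_zero hd (mem_sp.2 (Or.inr (Or.inl rfl))) hy ?_
      rw [mem_sp]
      rintro (h1 | h1 | h1)
      · exact hy' h1
      · exact (ne_of_mem_erase hy) h1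
      · exact h h1

lemma Starry.gg_b (H : Starry A V I) (hd : d ∈ I) : gg A V d.2.2 = -1 := by
  have hst := H.star d hd
  have e1 := hst.sa
  have e2 := hst.sb
  have e3 := hst.ab
  rw [gg_sub (N := {d.1})]
  · rw [pow_single, sum_pair (singleton_ne_empty _).symm, prod_empty, prod_singleton,
      one_mul]
    have h1 : Fm A V (insert d.2.2 ∅) = 0 := by
      rw [insert_empty, H.F_one, H.eps_b hd]
      norm_num
    have h2 : Fm A V (insert d.2.2 {d.1}) = 1 := by
      refine H.F_two hd (mem_sp.2 (Or.inr (Or.inr rfl))) (mem_sp.2 (Or.inl rfl)) e2.symm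
    rw [h1, h2, pair_comm, hst.Asb]
    norm_num
  · intro x hx
    rw [mem_singleton] at hx
    rw [mem_erase, hx]
    exact ⟨e2, H.mem_s hd⟩
  · intro y hy hy'
    rw [mem_singleton] at hy'
    by_cases h : y = d.2.1
    · rw [h, pair_comm, hst.Aab]
    · refine H.nb_zero hd (mem_sp.2 (Or.inr (Or.inr rfl))) hy ?_
      rw [mem_sp]
      rintro (h1 | h1 | h1)
      · exact hy' h1
      · exact h h1
      · exact (ne_of_mem_erase hy) h1

lemma Starry.gg_none (H : Starry A V I) {v : α} (hv : v ∈ V) (hn : ∀ d ∈ I, v ∉ sp d) :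
    gg A V v = 1 := by
  rw [gg_sub (N := ∅)]
  · rw [powerset_empty, sum_singleton, prod_empty, one_mul, insert_empty, H.F_one,
      H.eps_none hn, add_zero]
  · exact empty_subset _
  · intro y hy _
    refine H.zero v hv y (mem_of_mem_erase hy) (ne_of_mem_erase hy).symm ?_
    rintro d hd ⟨h1, _⟩
    exact hn d hd h1

lemma Starry.ce_mem (H : Starry A V I) {u : α} (hd : d ∈ I) (hu : u ∈ sp d) :
    ce I u = if u = d.1 then 1 else 0 := by
  unfold ce
  rw [sum_eq_single d]
  · intro d' hd' hne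
    rw [if_neg]
    intro h
    refine disjoint_left.1 (H.disj d' hd' d hd hne) ?_ hu
    rw [h]
    exact mem_sp.2 (Or.inl rfl)
  · exact fun hn => absurd hd hn

/-- the site term -/
theorem Starry.gg_eq (H : Starry A V I) {v : α} (hv : v ∈ V) :
    gg A V v = 1 + 2 * eps I v - ce I v := by
  by_cases h : ∃ d ∈ I, v ∈ sp d
  · obtain ⟨d, hd, h1⟩ := h
    have hst := H.star d hd
    rw [H.ce_mem hd h1]
    rcases mem_sp.1 h1 with rfl | rfl | rfl
    · rw [H.gg_s hd, H.eps_s hd, if_pos rfl]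
      norm_num
    · rw [H.gg_a hd, H.eps_a hd, if_neg hst.sa.symm]
      norm_num
    · rw [H.gg_b hd, H.eps_b hd, if_neg hst.sb.symm]
      norm_num
  · have h1 : ∀ d ∈ I, v ∉ sp d := fun d hd h2 => h ⟨d, hd, h2⟩
    have h2 : ce I v = 0 := by
      unfold ce
      refine sum_eq_zero (fun d hd => ?_)
      rw [if_neg]
      intro h3
      exact h1 d hd (mem_sp.2 (Or.inl h3))
    rw [H.gg_none hv h1, H.eps_none h1, h2]
    norm_num

theorem Starry.sum_gg (H : Starry A V I) : ∑ v ∈ V, (gg A V v - 1) = -(I.card : ℤ) := by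
  have h1 : ∀ v ∈ V, gg A V v - 1 = eps I v * 2 - ce I v := by
    intro v hv
    rw [H.gg_eq hv]
    ring
  rw [sum_congr rfl h1, sum_sub_distrib, H.sum_eps (fun _ => 2)]
  have h2 : ∑ v ∈ V, ce I v = (I.card : ℤ) := by
    unfold ce
    rw [sum_comm]
    have h3 : ∀ d ∈ I, ∑ v ∈ V, (if v = d.1 then (1 : ℤ) else 0) = 1 := by
      intro d hd
      rw [sum_ite_eq' V d.1, if_pos (H.mem_s hd)]
    rw [sum_congr rfl h3, sum_const, nsmul_eq_mul, mul_one]
  rw [h2]
  simp

variable {B th : Finset α → ℤ} {sg : α → ℤ}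

lemma sum_swap (f : α → α → ℤ) :
    ∑ u ∈ V, ∑ w ∈ V.erase u, f u w = ∑ u ∈ V, ∑ w ∈ V.erase u, f w u := by
  refine sum_comm' ?_
  intro x y
  simp only [mem_erase]
  tauto

end eva

end Pool.Agent.GaussPoset.St

end

/-! From `Pool.Agent.W_448st_h88.MgG` -/

section

/-! The matching polynomial of every strip is one (MP_448cb3_co). -/

namespace Pool.Agent.GaussPoset.St

set_option linter.unusedSectionVars false

open Finset Polynomial Win

section gen

variable {α : Type*} [DecidableEq α] {A : Finset α → ℤ} {V T : Finset α}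

/-- factors with constant coefficient one of a product equal to one are one -/
lemma prod_one {ι : Type*} [DecidableEq ι] (s : Finset ι) (p : ι → ℤ[X])
    (h0 : ∀ i ∈ s, (p i).coeff 0 = 1) (h : ∏ i ∈ s, p i = 1) : ∀ i ∈ s, p i = 1 := by
  intro i hi
  rw [← mul_prod_erase s p hi] at h
  exact eq_one_of_mul h (h0 i hi)

end gen

universe u

variable {P : Type u} [Fintype P] [PartialOrder P] [DecidableEq P] {r j : ℕ}

/-- the matching polynomial of a level is one -/
theorem mp_level (H : Gr P r) {i : ℕ} (hi : i ≤ r) : mp (Df i) (lv P i) = 1 := by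
  refine mp_eq_one ?_
  intro k hk
  rw [← kk_match H hi hk]
  refine sum_congr ?_ (fun _ _ => rfl)
  ext M
  rw [mem_filter, mem_MS, mem_MM]
  constructor
  · rintro ⟨⟨h1, h2⟩, h3⟩
    exact ⟨h1, h3, fun S hS T hT hne => h2 hS hT hne⟩
  · rintro ⟨h1, h2, h3⟩
    exact ⟨⟨h1, fun S hS T hT hne => h3 S hS T hT hne⟩, h2⟩

open Classical in
/-- the part of level `i` below `t` -/
noncomputable def wt0 (i : ℕ) (t : P) : Finset P := (lv P i).filter (fun v => v ≤ t)

lemma mem_wt0 {i : ℕ} {t v : P} : v ∈ wt0 i t ↔ lev v = i ∧ v ≤ t := by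
  classical
  unfold wt0
  rw [mem_filter, mem_lv]

lemma lv_eq (i : ℕ) : lv P i = (lv P 0).biUnion (wt0 i) := by
  ext v
  rw [mem_biUnion, mem_lv]
  constructor
  · intro hv
    obtain ⟨t, ht, ht2⟩ := exists_above' (x := v) (j := 0) (Nat.zero_le _)
    exact ⟨t, mem_lv.2 ht2, mem_wt0.2 ⟨hv, ht⟩⟩
  · rintro ⟨t, _, ht2⟩
    exact (mem_wt0.1 ht2).1

end Pool.Agent.GaussPoset.St

end

/-! From `Pool.Agent.W_448t6_h16.TA` -/

section

/-! Matching polynomials: blocks, and weights without disjoint edges (MP_448cb3_co). -/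

namespace Pool.Agent.GaussPoset.St

set_option linter.unusedSectionVars false

open Finset Polynomial

section loc

variable {α : Type*} [DecidableEq α] {A : Finset α → ℤ}

variable {ι : Type*} [DecidableEq ι] {s : Finset ι} {W : ι → Finset α}

/-- blocks without crossing weights whose matching polynomials are one -/
structure Blk (A : Finset α → ℤ) (s : Finset ι) (W : ι → Finset α) : Prop where
  disj : ∀ i ∈ s, ∀ j ∈ s, i ≠ j → Disjoint (W i) (W j)
  zero : ∀ i ∈ s, ∀ j ∈ s, i ≠ j → ∀ u ∈ W i, ∀ w ∈ W j, A {u, w} = 0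
  one : ∀ i ∈ s, mp A (W i) = 1

lemma Blk.Fm_loc (B : Blk A s W) {i : ι} (hi : i ∈ s) {T : Finset α} (hT : T ⊆ W i) :
    Fm A (s.biUnion W) T = Fm A (W i) T := by
  have h1 : s.biUnion W \ T = (W i \ T) ∪ (s.erase i).biUnion W := by
    ext u
    simp only [mem_sdiff, mem_biUnion, mem_union, mem_erase]
    constructor
    · rintro ⟨⟨j, hj, hu⟩, hn⟩
      by_cases h : j = i
      · subst h
        exact Or.inl ⟨hu, hn⟩
      · exact Or.inr ⟨j, ⟨h, hj⟩, hu⟩
    · rintro (⟨h1, h2⟩ | ⟨j, ⟨h1, h2⟩, h3⟩)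
      · exact ⟨⟨i, hi, h1⟩, h2⟩
      · exact ⟨⟨j, h2, h3⟩, fun h4 => disjoint_left.1 (B.disj j h2 i hi h1) h3 (hT h4)⟩
  have h2 : mp A ((s.erase i).biUnion W) = 1 := by
    rw [mp_biUnion]
    · exact prod_eq_one fun j hj => B.one j (mem_of_mem_erase hj)
    · exact fun a ha b hb hab => B.disj a (mem_of_mem_erase ha) b (mem_of_mem_erase hb) hab
    · exact fun a ha b hb hab => B.zero a (mem_of_mem_erase ha) b (mem_of_mem_erase hb) hab
  unfold Fm
  rw [h1, mp_union, h2, mul_one]
  · rw [disjoint_left]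
    intro u hu hu'
    obtain ⟨j, hj, h3⟩ := mem_biUnion.1 hu'
    rw [mem_erase] at hj
    exact disjoint_left.1 (B.disj j hj.2 i hi hj.1) h3 (mem_sdiff.1 hu).1
  · intro u hu w hw
    obtain ⟨j, hj, h3⟩ := mem_biUnion.1 hw
    rw [mem_erase] at hj
    exact B.zero i hi j hj.2 (Ne.symm hj.1) u (mem_sdiff.1 hu).1 w h3

/-- a sum over the pairs at `v` -/
lemma Blk.sum_loc {g : α → α → ℤ}
    (hg : ∀ i ∈ s, ∀ j ∈ s, i ≠ j → ∀ u ∈ W i, ∀ w ∈ W j, g u w = 0) {i : ι} (hi : i ∈ s)
    {v : α} (hv : v ∈ W i) :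
    ∑ w ∈ (s.biUnion W).erase v, g v w = ∑ w ∈ (W i).erase v, g v w := by
  symm
  refine sum_subset (erase_subset_erase _ (subset_biUnion_of_mem W hi)) ?_
  intro w hw hn
  rw [mem_erase, mem_biUnion] at hw
  obtain ⟨h1, j, hj, h2⟩ := hw
  have hji : i ≠ j := by
    rintro rfl
    exact hn (mem_erase.2 ⟨h1, h2⟩)
  exact hg i hi j hj hji v hv w h2

lemma Blk.sum2_loc (hd : ∀ i ∈ s, ∀ j ∈ s, i ≠ j → Disjoint (W i) (W j)) {g : α → α → ℤ}
    (hg : ∀ i ∈ s, ∀ j ∈ s, i ≠ j → ∀ u ∈ W i, ∀ w ∈ W j, g u w = 0) :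
    ∑ u ∈ s.biUnion W, ∑ w ∈ (s.biUnion W).erase u, g u w =
      ∑ i ∈ s, ∑ u ∈ W i, ∑ w ∈ (W i).erase u, g u w := by
  rw [sum_biUnion (fun i hi j hj hij => hd i hi j hj hij)]
  exact sum_congr rfl fun i hi => sum_congr rfl fun u hu => Blk.sum_loc hg hi hu

lemma Blk.dg_loc (B : Blk A s W) {i : ι} (hi : i ∈ s) {v : α} (hv : v ∈ W i) :
    dg A (s.biUnion W) v = dg A (W i) v :=
  Blk.sum_loc (g := fun u w => A {u, w}) B.zero hi hv

lemma Blk.gg_loc (B : Blk A s W) {i : ι} (hi : i ∈ s) {v : α} (hv : v ∈ W i) :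
    gg A (s.biUnion W) v = gg A (W i) v := by
  rw [gg_sub (N := (W i).erase v)]
  · unfold gg
    refine sum_congr rfl fun S hS => ?_
    rw [mem_powerset] at hS
    rw [B.Fm_loc hi]
    rw [insert_subset_iff]
    exact ⟨hv, hS.trans (erase_subset _ _)⟩
  · exact erase_subset_erase _ (subset_biUnion_of_mem W hi)
  · intro y hy hn
    rw [mem_erase, mem_biUnion] at hy
    obtain ⟨h1, j, hj, h2⟩ := hy
    have hji : i ≠ j := by
      rintro rfl
      exact hn (mem_erase.2 ⟨h1, h2⟩)
    exact B.zero i hi j hj hji v hv y h2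

end loc

section tight

variable {α : Type*} [DecidableEq α] {A : Finset α → ℤ} {V U T : Finset α}

/-- no two disjoint edges -/
def Tight (A : Finset α → ℤ) (V : Finset α) : Prop :=
  ∀ e ∈ V.powersetCard 2, ∀ f ∈ V.powersetCard 2, Disjoint e f → A e = 0 ∨ A f = 0

lemma Tight.mp_eq (h : Tight A V) (hU : U ⊆ V) : mp A U = 1 + C ((mp A U).coeff 1) * X := by
  ext k
  rcases Nat.lt_or_ge k 2 with hk | hk
  · have hk' : k = 0 ∨ k = 1 := by omega
    rcases hk' with rfl | rfl
    · rw [coeff_zero_mp]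
      simp
    · simp [coeff_one]
  · rw [coeff_mp, coeff_add, coeff_one, if_neg (by omega), coeff_C_mul, coeff_X,
      if_neg (by omega), mul_zero, add_zero]
    refine sum_eq_zero fun M hM => ?_
    rw [mem_filter, mem_MS] at hM
    obtain ⟨⟨h1, h2⟩, h3⟩ := hM
    obtain ⟨e, he, f, hf, hef⟩ := one_lt_card.1 (show 1 < M.card by omega)
    have key : ∀ e ∈ M, e ∈ V.powersetCard 2 := fun e he =>
      mem_powersetCard.2 ⟨(h1 e he).1.trans hU, (h1 e he).2⟩
    rcases h e (key e he) f (key f hf) (h2 (mem_coe.2 he) (mem_coe.2 hf) hef) with h4 | h4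
    · exact prod_eq_zero he h4
    · exact prod_eq_zero hf h4

lemma Tight.Fm_eq (h : Tight A V) (T : Finset α) : Fm A V T = 1 - (mp A (V \ T)).coeff 1 := by
  unfold Fm
  conv_lhs => rw [h.mp_eq sdiff_subset]
  rw [eval_add, eval_one, eval_mul, eval_C, eval_X]
  ring

lemma coeff_one_erase {v : α} (hv : v ∈ V) :
    (mp A (V.erase v)).coeff 1 = (mp A V).coeff 1 - dg A V v := by
  have h := coeff_one_insert (A := A) (notMem_erase v V)
  rw [insert_erase hv] at h
  unfold dg
  linarith

lemma dg_erase {u w : α} (hu : u ∈ V) (huw : u ≠ w) :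
    dg A (V.erase u) w = dg A V w - A {u, w} := by
  unfold dg
  have h1 : u ∈ V.erase w := mem_erase.2 ⟨huw, hu⟩
  rw [erase_right_comm, ← sum_erase_add _ _ h1, pair_comm w u]
  ring

lemma Tight.F_one (h : Tight A V) (h1 : mp A V = 1) {u : α} (hu : u ∈ V) :
    Fm A V {u} = 1 + dg A V u := by
  rw [h.Fm_eq, sdiff_singleton_eq_erase, coeff_one_erase hu, h1, coeff_one, if_neg (by norm_num)]
  ring

lemma Tight.F_two (h : Tight A V) (h1 : mp A V = 1) {u w : α} (hu : u ∈ V) (hw : w ∈ V)
    (huw : u ≠ w) : Fm A V {u, w} = 1 + dg A V u + dg A V w - A {u, w} := by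
  have e1 : V \ {u, w} = (V.erase u).erase w := by
    ext x
    simp only [mem_sdiff, mem_insert, mem_singleton, mem_erase]
    tauto
  rw [h.Fm_eq, e1, coeff_one_erase (mem_erase.2 ⟨huw.symm, hw⟩), coeff_one_erase hu, h1,
    dg_erase hu huw, coeff_one, if_neg (by norm_num)]
  ring

/-- no edges -/
lemma tight_of_zero (h : ∀ u ∈ V, ∀ w ∈ V, u ≠ w → A {u, w} = 0) : Tight A V := by
  intro e he f _ _
  left
  rw [mem_powersetCard] at he
  obtain ⟨u, w, huw, rfl⟩ := card_eq_two.1 he.2
  exact h u (he.1 (mem_insert_self _ _)) w (he.1 (mem_insert_of_mem (mem_singleton_self _))) huw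

/-- at most three vertices -/
lemma tight_of_card (h : V.card ≤ 3) : Tight A V := by
  intro e he f hf hef
  exfalso
  rw [mem_powersetCard] at he hf
  have h1 := card_union_of_disjoint hef
  have h2 := card_le_card (union_subset he.1 hf.1)
  omega

/-- one star -/
lemma tight_of_star {d : α × α × α} (H : Starry A V {d}) : Tight A V := by
  have hs := H.star d (mem_singleton_self _)
  have key : ∀ e ∈ V.powersetCard 2, A e ≠ 0 → d.1 ∈ e := by
    intro e he hne
    rw [mem_powersetCard] at he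
    obtain ⟨u, w, huw, rfl⟩ := card_eq_two.1 he.2
    have hu := he.1 (mem_insert_self _ _)
    have hw := he.1 (mem_insert_of_mem (mem_singleton_self w))
    by_contra hd
    rw [mem_insert, mem_singleton, not_or] at hd
    apply hne
    by_cases h : u ∈ sp d ∧ w ∈ sp d
    · rw [mem_sp, mem_sp] at h
      rcases h with ⟨h1 | h1 | h1, h2 | h2 | h2⟩
      · exact absurd h1.symm hd.1
      · exact absurd h1.symm hd.1
      · exact absurd h1.symm hd.1
      · exact absurd h2.symm hd.2
      · exact absurd (h1.trans h2.symm) huw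
      · rw [h1, h2]
        exact hs.Aab
      · exact absurd h2.symm hd.2
      · rw [h1, h2, pair_comm]
        exact hs.Aab
      · exact absurd (h1.trans h2.symm) huw
    · refine H.zero u hu w hw huw ?_
      intro d' hd'
      rw [mem_singleton] at hd'
      rw [hd']
      exact h
  intro e he f hf hef
  by_contra hcon
  rw [not_or] at hcon
  exact disjoint_left.1 hef (key e he hcon.1) (key f hf hcon.2)

end tight

section small

variable {α : Type*} [DecidableEq α] {A : Finset α → ℤ}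

lemma dg_three {a b c : α} (hab : a ≠ b) (hac : a ≠ c) (hbc : b ≠ c) :
    dg A {a, b, c} a = A {a, b} + A {a, c} := by
  unfold dg
  have h1 : ({a, b, c} : Finset α).erase a = {b, c} := by
    ext x
    simp only [mem_erase, mem_insert, mem_singleton]
    constructor
    · rintro ⟨h1, h2 | h2 | h2⟩
      · exact absurd h2 h1
      · exact Or.inl h2
      · exact Or.inr h2
    · rintro (h | h)
      · exact ⟨by rw [h]; exact hab.symm, Or.inr (Or.inl h)⟩
      · exact ⟨by rw [h]; exact hac.symm, Or.inr (Or.inr h)⟩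
  rw [h1, sum_pair hbc]

lemma sum_three {a b c : α} (hab : a ≠ b) (hac : a ≠ c) (hbc : b ≠ c)
    (h : mp A {a, b, c} = 1) : A {a, b} + A {a, c} + A {b, c} = 0 := by
  have h1 := P2_eq_zero h
  unfold P2 at h1
  rw [sum_insert (by simp [hab, hac]), sum_pair hbc] at h1
  have e1 := dg_three (A := A) hab hac hbc
  have e2 := dg_three (A := A) hab.symm hbc hac
  have e3 := dg_three (A := A) hac.symm hbc.symm hab
  rw [show ({b, a, c} : Finset α) = {a, b, c} from Finset.insert_comm _ _ _,
    pair_comm b a] at e2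
  rw [show ({c, a, b} : Finset α) = {a, b, c} by
    rw [Finset.insert_comm c a, pair_comm c b], pair_comm c a, pair_comm c b] at e3
  unfold dg at e1 e2 e3
  rw [e1, e2, e3] at h1
  linarith

lemma gg_three {a b c : α} (hab : a ≠ b) (hac : a ≠ c) (hbc : b ≠ c)
    (h : mp A {a, b, c} = 1) :
    gg A {a, b, c} a = 1 + 2 * (A {a, b} + A {a, c}) + A {a, b} * A {a, c} := by
  have ht : Tight A ({a, b, c} : Finset α) := tight_of_card (card_le_three)
  have hs := sum_three hab hac hbc h
  have e1 := dg_three (A := A) hab hac hbc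
  have e2 := dg_three (A := A) hab.symm hbc hac
  have e3 := dg_three (A := A) hac.symm hbc.symm hab
  rw [show ({b, a, c} : Finset α) = {a, b, c} from Finset.insert_comm _ _ _,
    pair_comm b a] at e2
  rw [show ({c, a, b} : Finset α) = {a, b, c} by
    rw [Finset.insert_comm c a, pair_comm c b], pair_comm c a, pair_comm c b] at e3
  have ma : a ∈ ({a, b, c} : Finset α) := by simp
  have mb : b ∈ ({a, b, c} : Finset α) := by simp
  have mc : c ∈ ({a, b, c} : Finset α) := by simp
  have f1 := ht.F_one h ma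
  have f2 := ht.F_two h ma mb hab
  have f3 := ht.F_two h ma mc hac
  have f4 : Fm A {a, b, c} {a, b, c} = 1 := by
    unfold Fm
    rw [sdiff_self, bot_eq_empty, mp_empty, eval_one]
  have h1 : ({a, b, c} : Finset α).erase a = insert b {c} := by
    ext x
    simp only [mem_erase, mem_insert, mem_singleton]
    constructor
    · rintro ⟨h1, h2 | h2 | h2⟩
      · exact absurd h2 h1
      · exact Or.inl h2
      · exact Or.inr h2
    · rintro (h | h)
      · exact ⟨by rw [h]; exact hab.symm, Or.inr (Or.inl h)⟩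
      · exact ⟨by rw [h]; exact hac.symm, Or.inr (Or.inr h)⟩
  have h2 : b ∉ ({c} : Finset α) := by
    rw [mem_singleton]
    exact hbc
  have h3 : (∅ : Finset α) ≠ {c} := (singleton_ne_empty c).symm
  have h4 : insert b (∅ : Finset α) = {b} := LawfulSingleton.insert_empty_eq b
  have h5 : insert a (∅ : Finset α) = {a} := LawfulSingleton.insert_empty_eq a
  unfold gg
  rw [h1, sum_powerset_insert h2, pow_single, sum_pair h3, sum_pair h3, h4, h5, prod_empty,
    prod_singleton, prod_singleton, prod_insert h2, prod_singleton]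
  rw [show insert a ({b} : Finset α) = {a, b} from rfl,
    show insert a (insert b ({c} : Finset α)) = {a, b, c} from rfl,
    show insert a ({c} : Finset α) = {a, c} from rfl, f1, f2, f3, f4, e1, e2, e3]
  linear_combination (A {a, b} + A {a, c}) * hs

lemma sum_gg_three {a b c : α} (hab : a ≠ b) (hac : a ≠ c) (hbc : b ≠ c)
    (h : mp A {a, b, c} = 1) :
    2 * ∑ v ∈ ({a, b, c} : Finset α), (gg A {a, b, c} v - 1) =
      -(A {a, b} ^ 2 + A {a, c} ^ 2 + A {b, c} ^ 2) := by
  have hs := sum_three hab hac hbc h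
  have e1 := gg_three hab hac hbc h
  have e2 := gg_three (A := A) hab.symm hbc hac (by
    rw [show ({b, a, c} : Finset α) = {a, b, c} from Finset.insert_comm _ _ _]
    exact h)
  have e3 := gg_three (A := A) hac.symm hbc.symm hab (by
    rw [show ({c, a, b} : Finset α) = {a, b, c} by
      rw [Finset.insert_comm c a, pair_comm c b]]
    exact h)
  rw [show ({b, a, c} : Finset α) = {a, b, c} from Finset.insert_comm _ _ _,
    pair_comm b a] at e2
  rw [show ({c, a, b} : Finset α) = {a, b, c} by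
    rw [Finset.insert_comm c a, pair_comm c b], pair_comm c a, pair_comm c b] at e3
  rw [sum_insert (by simp [hab, hac]), sum_pair hbc, e1, e2, e3]
  linear_combination (8 + (A {a, b} + A {a, c} + A {b, c})) * hs

end small

end Pool.Agent.GaussPoset.St

end

/-! From `Pool.Agent.W_448t6_h94.TsC` -/

section

/-! Terms of the configurations supported near the window (MP_448cb3_co). -/

namespace Pool.Agent.GaussPoset.Win
namespace T6N

set_option linter.unusedSectionVars false

open Finset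

universe u

section coeffs

lemma c1_mul (y z : A) : PowerSeries.coeff 1 (y * z) =
    PowerSeries.coeff 1 y * PowerSeries.constantCoeff z +
      PowerSeries.constantCoeff y * PowerSeries.coeff 1 z := by
  rw [PowerSeries.coeff_mul, Finset.Nat.sum_antidiagonal_eq_sum_range_succ
    (fun a b => PowerSeries.coeff a y * PowerSeries.coeff b z) 1, sum_range_succ, sum_range_one]
  simp only [PowerSeries.coeff_zero_eq_constantCoeff, Nat.sub_zero, Nat.sub_self]
  ring

lemma c1_xx : PowerSeries.coeff 1 xx = (1 : ℤ) := by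
  unfold xx dd
  rw [map_sub, PowerSeries.coeff_one_X, PowerSeries.coeff_one]
  norm_num

lemma c1_xi : PowerSeries.coeff 1 xi = (-1 : ℤ) := by
  unfold xi
  rw [map_neg, PowerSeries.coeff_mk]

lemma c1_xx_pow (m : ℕ) : PowerSeries.coeff 1 (xx ^ m) = -(m : ℤ) * (-1) ^ m := by
  induction m with
  | zero =>
    rw [pow_zero, PowerSeries.coeff_one]
    norm_num
  | succ m ih =>
    rw [pow_succ, c1_mul, ih, map_pow, cc_xx, c1_xx]
    push_cast
    ring

lemma c1_xi_pow (m : ℕ) : PowerSeries.coeff 1 (xi ^ m) = (m : ℤ) * (-1) ^ m := by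
  induction m with
  | zero =>
    rw [pow_zero, PowerSeries.coeff_one]
    norm_num
  | succ m ih =>
    rw [pow_succ, c1_mul, ih, map_pow, cc_xi, c1_xi]
    push_cast
    ring

lemma cf_dd (m k : ℕ) (y : A) : PowerSeries.coeff (k + m) (dd ^ m * y) = PowerSeries.coeff k y := by
  unfold dd
  rw [PowerSeries.coeff_X_pow_mul]

lemma cf_dd_lt {m k : ℕ} (h : k < m) (y : A) : PowerSeries.coeff k (dd ^ m * y) = 0 := by
  unfold dd
  rw [PowerSeries.coeff_X_pow_mul', if_neg (by omega)]

lemma cf_dvd {m k : ℕ} (h : k < m) {y : A} (hy : dd ^ m ∣ y) : PowerSeries.coeff k y = 0 := by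
  obtain ⟨c, rfl⟩ := hy
  exact cf_dd_lt h c

end coeffs

variable {P : Type u} [Fintype P] [PartialOrder P] [DecidableEq P] {r : ℕ}

/-- near elements below -/
noncomputable def gL (i : ℕ) (G : Finset P) : Finset P := G.filter (fun x => lev x = i + 1)

/-- near elements above -/
noncomputable def gU (i : ℕ) (G : Finset P) : Finset P := G.filter (fun x => lev x + 1 = i)

lemma mem_gL {i : ℕ} {G : Finset P} {x : P} : x ∈ gL i G ↔ x ∈ G ∧ lev x = i + 1 := by
  unfold gL; rw [mem_filter]

lemma mem_gU {i : ℕ} {G : Finset P} {x : P} : x ∈ gU i G ↔ x ∈ G ∧ lev x + 1 = i := by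
  unfold gU; rw [mem_filter]

lemma nsl {i : ℕ} {x : P} (h : lev x = i + 1) : ns i x = uc x := by
  unfold ns; rw [if_pos h]

lemma nsu {i : ℕ} {x : P} (h : lev x + 1 = i) : ns i x = dc x := by
  unfold ns; rw [if_neg (by omega)]

lemma ns_lv (H : Gr P r) {i : ℕ} {x v : P} (hx : x ∈ near P i) (hv : v ∈ ns i x) : lev v = i := by
  rcases mem_near.1 hx with h | h
  · rw [nsl h] at hv
    have := lev_uc H hv
    omega
  · rw [nsu h] at hv
    have := lev_dc H hv
    omega

lemma ns_le2 (H : Gr P r) {i : ℕ} (x : P) : (ns i x).card ≤ 2 := by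
  unfold ns
  split_ifs
  · exact uc_card_le H x
  · exact dc_card_le H x

lemma ns_ne (H : Gr P r) {i : ℕ} (hi : i ≤ r) {x : P} (hx : x ∈ near P i) : (ns i x).Nonempty := by
  rcases mem_near.1 hx with h | h
  · rw [nsl h]
    exact uc_nonempty H (by omega)
  · rw [nsu h]
    exact dc_nonempty H (by omega)

lemma dbl_iff {i : ℕ} {x : P} (hx : x ∈ near P i) : x ∈ dbL P i ∪ dbU P i ↔ (ns i x).card = 2 := by
  rw [mem_union, mem_dbL, mem_dbU]
  rcases mem_near.1 hx with h | h
  · rw [nsl h]
    constructor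
    · rintro (h1 | h1)
      · exact h1.2
      · omega
    · exact fun h1 => Or.inl ⟨h, h1⟩
  · rw [nsu h]
    constructor
    · rintro (h1 | h1)
      · omega
      · exact h1.2
    · exact fun h1 => Or.inr ⟨h, h1⟩

lemma dbl_near {i : ℕ} : dbL P i ∪ dbU P i ⊆ near P i := by
  intro x hx
  rw [mem_near]
  rcases mem_union.1 hx with h | h
  · exact Or.inl (mem_dbL.1 h).1
  · exact Or.inr (mem_dbU.1 h).1

section GW

variable {i : ℕ} {G W : Finset P}

lemma GW_lev (hG : G ⊆ near P i) (hW : W ⊆ lv P i) {x : P} (hx : x ∈ G ∪ W) :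
    lev x = i + 1 ∨ lev x + 1 = i ∨ lev x = i := by
  rcases mem_union.1 hx with h | h
  · have := mem_near.1 (hG h)
    tauto
  · have := mem_lv.1 (hW h)
    tauto

lemma GW_FD (H : Gr P r) (hG : G ⊆ near P i) (hW : W ⊆ lv P i) {z : P} (hz : i < lev z) :
    ¬ FD (indK (G ∪ W)) z := by
  rintro ⟨z', hz', hlt⟩
  have h1 := (H.covBy_iff.1 hz').2
  have h2 : z' ∈ G ∪ W := indK_pos.1 (by omega)
  have := GW_lev hG hW h2
  omega

lemma GW_FU (H : Gr P r) (hG : G ⊆ near P i) (hW : W ⊆ lv P i) {z : P} (hz : lev z < i) :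
    ¬ FU (indK (G ∪ W)) z := by
  rintro ⟨z', hz', hlt⟩
  have h1 := (H.covBy_iff.1 hz').2
  have h2 : z' ∈ G ∪ W := indK_pos.1 (by omega)
  have := GW_lev hG hW h2
  omega

lemma GW_free_L (H : Gr P r) (hG : G ⊆ near P i) (hW : W ⊆ lv P i) {z : P} (hz : i < lev z) :
    ¬ GU (indK (G ∪ W)) z ↔ z ∈ gL i G ∧ Disjoint (ns i z) W := by
  constructor
  · intro h
    have hzG : z ∈ G ∪ W := by
      by_contra h1
      apply h
      obtain ⟨y, hy⟩ := uc_nonempty H (x := z) (by omega)
      refine ⟨y, mem_uc.1 hy, ?_⟩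
      rw [indK_of_not h1]
      exact Nat.zero_le _
    have hz2 : z ∈ G := by
      rcases mem_union.1 hzG with h1 | h1
      · exact h1
      · have := mem_lv.1 (hW h1)
        omega
    have hz1 : lev z = i + 1 := by
      have := mem_near.1 (hG hz2)
      omega
    refine ⟨mem_gL.2 ⟨hz2, hz1⟩, ?_⟩
    rw [disjoint_left]
    intro y hy hyW
    rw [nsl hz1] at hy
    apply h
    refine ⟨y, mem_uc.1 hy, ?_⟩
    rw [indK_of_mem hzG, indK_of_mem (mem_union_right _ hyW)]
  · rintro ⟨h1, h2⟩ ⟨y, hy, hle⟩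
    rw [mem_gL] at h1
    rw [indK_of_mem (mem_union_left _ h1.1)] at hle
    have h3 : y ∈ G ∪ W := indK_pos.1 (by omega)
    have h4 := (H.covBy_iff.1 hy).2
    rcases mem_union.1 h3 with h5 | h5
    · have := mem_near.1 (hG h5)
      omega
    · refine disjoint_left.1 h2 ?_ h5
      rw [nsl h1.2]
      exact mem_uc.2 hy

lemma GW_free_U (H : Gr P r) (hi : i ≤ r) (hG : G ⊆ near P i) (hW : W ⊆ lv P i) {z : P}
    (hz : lev z < i) : ¬ GD (indK (G ∪ W)) z ↔ z ∈ gU i G ∧ Disjoint (ns i z) W := by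
  constructor
  · intro h
    have hzG : z ∈ G ∪ W := by
      by_contra h1
      apply h
      obtain ⟨y, hy⟩ := dc_nonempty H (x := z) (by omega)
      refine ⟨y, mem_dc.1 hy, ?_⟩
      rw [indK_of_not h1]
      exact Nat.zero_le _
    have hz2 : z ∈ G := by
      rcases mem_union.1 hzG with h1 | h1
      · exact h1
      · have := mem_lv.1 (hW h1)
        omega
    have hz1 : lev z + 1 = i := by
      have := mem_near.1 (hG hz2)
      omega
    refine ⟨mem_gU.2 ⟨hz2, hz1⟩, ?_⟩
    rw [disjoint_left]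
    intro y hy hyW
    rw [nsu hz1] at hy
    apply h
    refine ⟨y, mem_dc.1 hy, ?_⟩
    rw [indK_of_mem hzG, indK_of_mem (mem_union_right _ hyW)]
  · rintro ⟨h1, h2⟩ ⟨y, hy, hle⟩
    rw [mem_gU] at h1
    rw [indK_of_mem (mem_union_left _ h1.1)] at hle
    have h3 : y ∈ G ∪ W := indK_pos.1 (by omega)
    have h4 := (H.covBy_iff.1 hy).2
    rcases mem_union.1 h3 with h5 | h5
    · have := mem_near.1 (hG h5)
      omega
    · refine disjoint_left.1 h2 ?_ h5
      rw [nsu h1.2]
      exact mem_dc.2 hy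

lemma GW_AL (H : Gr P r) (hG : G ⊆ near P i) (hW : W ⊆ lv P i) :
    AL i (indK (G ∪ W)) = (gL i G).biUnion (ns i) \ W := by
  classical
  ext v
  unfold AL
  rw [mem_filter, mem_lv, mem_sdiff, mem_biUnion]
  unfold FD
  constructor
  · rintro ⟨hv, z', hz', hlt⟩
    have h1 := (H.covBy_iff.1 hz').2
    have h2 : z' ∈ G ∪ W := indK_pos.1 (by omega)
    have h4 : z' ∈ G := by
      rcases mem_union.1 h2 with h5 | h5
      · exact h5
      · have := mem_lv.1 (hW h5)
        omega
    refine ⟨⟨z', mem_gL.2 ⟨h4, by omega⟩, by rw [nsl (by omega)]; exact mem_uc.2 hz'⟩, ?_⟩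
    intro hvW
    have h5 := indK_le (G ∪ W) z'
    rw [indK_of_mem (mem_union_right _ hvW)] at hlt
    omega
  · rintro ⟨⟨w, hw, hv⟩, hvW⟩
    rw [mem_gL] at hw
    rw [nsl hw.2] at hv
    have h1 := lev_uc H hv
    refine ⟨by omega, w, mem_uc.1 hv, ?_⟩
    have h2 : v ∉ G ∪ W := by
      rw [mem_union]
      rintro (h3 | h3)
      · have := mem_near.1 (hG h3)
        omega
      · exact hvW h3
    rw [indK_of_mem (mem_union_left _ hw.1), indK_of_not h2]
    exact one_pos

lemma GW_AU (H : Gr P r) (hG : G ⊆ near P i) (hW : W ⊆ lv P i) :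
    AU i (indK (G ∪ W)) = (gU i G).biUnion (ns i) \ W := by
  classical
  ext v
  unfold AU
  rw [mem_filter, mem_lv, mem_sdiff, mem_biUnion]
  unfold FU
  constructor
  · rintro ⟨hv, z', hz', hlt⟩
    have h1 := (H.covBy_iff.1 hz').2
    have h2 : z' ∈ G ∪ W := indK_pos.1 (by omega)
    have h4 : z' ∈ G := by
      rcases mem_union.1 h2 with h5 | h5
      · exact h5
      · have := mem_lv.1 (hW h5)
        omega
    refine ⟨⟨z', mem_gU.2 ⟨h4, by omega⟩, by rw [nsu (by omega)]; exact mem_dc.2 hz'⟩, ?_⟩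
    intro hvW
    have h5 := indK_le (G ∪ W) z'
    rw [indK_of_mem (mem_union_right _ hvW)] at hlt
    omega
  · rintro ⟨⟨w, hw, hv⟩, hvW⟩
    rw [mem_gU] at hw
    rw [nsu hw.2] at hv
    have h1 := lev_dc H hv
    refine ⟨by omega, w, mem_dc.1 hv, ?_⟩
    have h2 : v ∉ G ∪ W := by
      rw [mem_union]
      rintro (h3 | h3)
      · have := mem_near.1 (hG h3)
        omega
      · exact hvW h3
    rw [indK_of_mem (mem_union_left _ hw.1), indK_of_not h2]
    exact one_pos

/-- the term of a configuration near the window -/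
theorem trm_GW (H : Gr P r) (hi : i ≤ r) (hG : G ⊆ near P i) (hW : W ⊆ lv P i) :
    trm i (indK (G ∪ W)) =
      if Disjoint ((gL i G).biUnion (ns i) \ W) ((gU i G).biUnion (ns i) \ W) then
        xi ^ ((gU i G).filter (fun x => Disjoint (ns i x) W)).card *
        dd ^ (((gL i G).filter (fun x => Disjoint (ns i x) W)).card +
          ((gU i G).filter (fun x => Disjoint (ns i x) W)).card) *
        (xx ^ ((gL i G).biUnion (ns i) \ W).card *
          dd ^ ((lv P i).card - ((gL i G).biUnion (ns i) \ W).card -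
            ((gU i G).biUnion (ns i) \ W).card))
      else 0 := by
  classical
  have hA : AdmL i (indK (G ∪ W)) := fun z hz h1 => GW_FD H hG hW hz h1.1
  have hB : AdmU i (indK (G ∪ W)) := fun z hz h1 => GW_FU H hG hW hz h1.1
  have haL : aL i (indK (G ∪ W)) = 0 := by
    unfold aL
    rw [card_eq_zero, filter_eq_empty_iff]
    rintro z _ ⟨h1, h2⟩
    exact GW_FD H hG hW h1 h2
  have haU : aU i (indK (G ∪ W)) = 0 := by
    unfold aU
    rw [card_eq_zero, filter_eq_empty_iff]
    rintro z _ ⟨h1, h2⟩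
    exact GW_FU H hG hW h1 h2
  have hpL : pL i (indK (G ∪ W)) = ((gL i G).filter (fun x => Disjoint (ns i x) W)).card := by
    unfold pL
    congr 1
    ext z
    rw [mem_filter, mem_filter]
    constructor
    · rintro ⟨_, h1, h2, h3⟩
      exact (GW_free_L H hG hW h1).1 h3
    · intro h1
      have h2 : i < lev z := by
        have := (mem_gL.1 h1.1).2
        omega
      exact ⟨mem_univ _, h2, GW_FD H hG hW h2, (GW_free_L H hG hW h2).2 h1⟩
  have hpU : pU i (indK (G ∪ W)) = ((gU i G).filter (fun x => Disjoint (ns i x) W)).card := by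
    unfold pU
    congr 1
    ext z
    rw [mem_filter, mem_filter]
    constructor
    · rintro ⟨_, h1, h2, h3⟩
      exact (GW_free_U H hi hG hW h1).1 h3
    · intro h1
      have h2 : lev z < i := by
        have := (mem_gU.1 h1.1).2
        omega
      exact ⟨mem_univ _, h2, GW_FU H hG hW h2, (GW_free_U H hi hG hW h2).2 h1⟩
  have hAB : AdmL i (indK (G ∪ W)) ∧ AdmU i (indK (G ∪ W)) := ⟨hA, hB⟩
  unfold trm cw
  rw [GW_AL H hG hW, GW_AU H hG hW, if_pos hAB, haL, haU, hpL, hpU]
  rw [pow_zero, one_mul, zero_add]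

end GW

end T6N
end Pool.Agent.GaussPoset.Win

end

/-! From `Pool.Agent.W_448t6_h94.TsD` -/

section

/-! Coefficients of the configurations with slack at most one (MP_448cb3_co). -/

namespace Pool.Agent.GaussPoset.Win
namespace T6N

set_option linter.unusedSectionVars false

open Finset

universe u

variable {P : Type u} [Fintype P] [PartialOrder P] [DecidableEq P] {r : ℕ}

/-- the coefficient of `dd ^ (b - n + 1)` -/
noncomputable def KK (i n : ℕ) (e : P → ℕ) : ℤ :=
  PowerSeries.coeff ((lv P i).card - n + 1) (trm i e)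

/-- the sign of a family -/
noncomputable def eps (i : ℕ) (F : Finset P) : ℤ := ∏ x ∈ F, sgn i x

lemma eps_eq (i : ℕ) (F : Finset P) : eps i F = (-1 : ℤ) ^ (F ∩ dbU P i).card := prod_sgn i F

section vals

variable {i : ℕ}

lemma c1_y (c a : ℕ) : PowerSeries.coeff 1 (xi ^ c * xx ^ (2 * a)) =
    (-1 : ℤ) ^ c * ((c : ℤ) - 2 * a) := by
  have h1 : PowerSeries.constantCoeff (xx ^ (2 * a)) = (1 : ℤ) := by
    rw [map_pow, cc_xx, pow_mul]
    norm_num
  have h2 : PowerSeries.constantCoeff (xi ^ c) = (-1 : ℤ) ^ c := by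
    rw [map_pow, cc_xi]
  rw [c1_mul, c1_xi_pow, c1_xx_pow, h1, h2, pow_mul]
  push_cast
  norm_num
  ring

/-- value at a disjoint family -/
lemma KK_F (H : Gr P r) (hi : i ≤ r) {F : Finset P} (h : Dj i F) {n : ℕ} (hn : F.card = n) :
    KK i n (indK F) = eps i F * (3 * ((F ∩ dbU P i).card : ℤ) - 2 * n) := by
  have h2 := Dj_two_le H h
  have h4 := Dj_card h
  unfold KK
  rw [trm_ind H hi h, hn, add_comm ((lv P i).card - n) 1, cf_dd, c1_y, eps_eq]
  have h5 : (n : ℤ) = ((F ∩ dbL P i).card : ℤ) + (F ∩ dbU P i).card := by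
    rw [← hn, h4]
    push_cast
    ring
  rw [h5]
  ring

/-- value at a disjoint family with one energy more -/
lemma KK_F1 (H : Gr P r) (hi : i ≤ r) {F : Finset P} (h : Dj i F) {n : ℕ} (hn : F.card + 1 = n)
    (hF : F.Nonempty) : KK i n (indK F) = eps i F := by
  have h2 := Dj_two_le H h
  have h3 := card_pos.2 hF
  unfold KK
  rw [trm_ind H hi h, show (lv P i).card - n + 1 = 0 + ((lv P i).card - F.card) by omega, cf_dd,
    PowerSeries.coeff_zero_eq_constantCoeff, map_mul, map_pow, map_pow, cc_xi, cc_xx, eps_eq,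
    pow_mul]
  norm_num

lemma gLU (H : Gr P r) {G : Finset P} (hG : G ⊆ near P i) :
    (gL i G).card + (gU i G).card = G.card := by
  rw [← card_union_of_disjoint]
  · congr 1
    ext x
    rw [mem_union, mem_gL, mem_gU]
    constructor
    · rintro (h | h) <;> exact h.1
    · intro h
      have := mem_near.1 (hG h)
      tauto
  · rw [disjoint_left]
    intro x h1 h2
    rw [mem_gL] at h1
    rw [mem_gU] at h2
    omega

lemma gLU_bi (H : Gr P r) {G : Finset P} (hG : G ⊆ near P i) :
    (gL i G).biUnion (ns i) ∪ (gU i G).biUnion (ns i) = G.biUnion (ns i) := by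
  ext v
  rw [mem_union, mem_biUnion, mem_biUnion, mem_biUnion]
  constructor
  · rintro (⟨x, hx, hv⟩ | ⟨x, hx, hv⟩)
    · exact ⟨x, (mem_gL.1 hx).1, hv⟩
    · exact ⟨x, (mem_gU.1 hx).1, hv⟩
  · rintro ⟨x, hx, hv⟩
    rcases mem_near.1 (hG hx) with h | h
    · exact Or.inl ⟨x, mem_gL.2 ⟨hx, h⟩, hv⟩
    · exact Or.inr ⟨x, mem_gU.2 ⟨hx, h⟩, hv⟩

lemma bi_sub (H : Gr P r) {G : Finset P} (hG : G ⊆ near P i) : G.biUnion (ns i) ⊆ lv P i := by
  rw [biUnion_subset]
  intro x hx v hv
  exact mem_lv.2 (ns_lv H (hG hx) hv)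

/-- the two sides of `G` are disjoint -/
def Sds (i : ℕ) (G : Finset P) : Prop :=
  Disjoint ((gL i G).biUnion (ns i)) ((gU i G).biUnion (ns i))

/-- a near set: term -/
lemma trm_G (H : Gr P r) (hi : i ≤ r) {G : Finset P} (hG : G ⊆ near P i) (hS : Sds i G) :
    trm i (indK G) = dd ^ ((lv P i).card + G.card - (G.biUnion (ns i)).card) *
      (xi ^ (gU i G).card * xx ^ ((gL i G).biUnion (ns i)).card) := by
  have h := trm_GW H hi hG (empty_subset (lv P i))
  unfold Sds at hS
  rw [union_empty, sdiff_empty, sdiff_empty, if_pos hS,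
    filter_true_of_mem (fun x _ => disjoint_empty_right _),
    filter_true_of_mem (fun x _ => disjoint_empty_right _)] at h
  rw [h]
  have h1 := gLU H hG
  have h2 : ((gL i G).biUnion (ns i)).card + ((gU i G).biUnion (ns i)).card =
      (G.biUnion (ns i)).card := by
    rw [← card_union_of_disjoint hS, gLU_bi H hG]
  have h3 := card_le_card (bi_sub H hG)
  rw [show (lv P i).card + G.card - (G.biUnion (ns i)).card = ((gL i G).card + (gU i G).card) +
    ((lv P i).card - ((gL i G).biUnion (ns i)).card - ((gU i G).biUnion (ns i)).card) by omega,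
    pow_add dd ((gL i G).card + (gU i G).card)]
  ring

lemma trm_G_not (H : Gr P r) (hi : i ≤ r) {G : Finset P} (hG : G ⊆ near P i) (hS : ¬ Sds i G) :
    trm i (indK G) = 0 := by
  have h := trm_GW H hi hG (empty_subset (lv P i))
  unfold Sds at hS
  rw [union_empty, sdiff_empty, sdiff_empty, if_neg hS] at h
  exact h

/-- slack one -/
lemma KK_G1 (H : Gr P r) (hi : i ≤ r) {G : Finset P} (hG : G ⊆ near P i) (hS : Sds i G) {n : ℕ}
    (hn : G.card = n) (hb : (G.biUnion (ns i)).card + 1 = 2 * n) :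
    KK i n (indK G) = (-1) ^ ((gU i G).card + ((gL i G).biUnion (ns i)).card) := by
  have h3 := card_le_card (bi_sub H hG)
  have h5 : 1 ≤ n := by omega
  unfold KK
  rw [trm_G H hi hG hS, show (lv P i).card - n + 1 = 0 + ((lv P i).card + G.card -
    (G.biUnion (ns i)).card) by omega, cf_dd, PowerSeries.coeff_zero_eq_constantCoeff, map_mul,
    map_pow, map_pow, cc_xi, cc_xx, pow_add]

/-- slack at least two -/
lemma KK_G2 (H : Gr P r) (hi : i ≤ r) {G : Finset P} (hG : G ⊆ near P i) {n : ℕ}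
    (hn : G.card = n) (hnb : n ≤ (lv P i).card) (hb : (G.biUnion (ns i)).card + 2 ≤ 2 * n) :
    KK i n (indK G) = 0 := by
  by_cases hS : Sds i G
  · have h3 := card_le_card (bi_sub H hG)
    unfold KK
    rw [trm_G H hi hG hS, cf_dd_lt (by omega)]
  · unfold KK
    rw [trm_G_not H hi hG hS, map_zero]

lemma KK_G_not (H : Gr P r) (hi : i ≤ r) {G : Finset P} (hG : G ⊆ near P i) (hS : ¬ Sds i G)
    (n : ℕ) : KK i n (indK G) = 0 := by
  unfold KK
  rw [trm_G_not H hi hG hS, map_zero]

end vals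

end T6N
end Pool.Agent.GaussPoset.Win

end

/-! From `Pool.Agent.W_448st_h88.MgI` -/

section

/-! From sums over pairs to ordered sums (MP_448cb3_co). -/

namespace Pool.Agent.GaussPoset.St

set_option linter.unusedSectionVars false

open Finset Polynomial

variable {α : Type*} [DecidableEq α] {A : Finset α → ℤ} {V : Finset α}

/-- the first order identity, ordered form -/
theorem h6_of {B th : Finset α → ℤ} {sg : α → ℤ} {f : Finset α → ℤ} {g : α → ℤ}
    (hf : ∀ T, f T = Fm A V T)
    (hg : ∀ v ∈ V, g v = ∑ S ∈ (V.erase v).powerset, (∏ a ∈ S, A {v, a}) * f (insert v S))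
    (h : ∑ e ∈ V.powersetCard 2, B e * (∑ v ∈ e, f {v} + f e - 3) +
      2 * ∑ v ∈ V, sg v * (f {v} - 1) - 2 * ∑ v ∈ V, (g v - 1) +
      2 * ∑ e ∈ V.powersetCard 2, th e * f e = 0) :
    ∑ u ∈ V, ∑ w ∈ V.erase u, B {u, w} * (Fm A V {u, w} + Fm A V {u} + Fm A V {w} - 3) +
      2 * ∑ u ∈ V, ∑ w ∈ V.erase u, th {u, w} * Fm A V {u, w} =
      4 * ∑ v ∈ V, (gg A V v - 1) - 4 * ∑ v ∈ V, sg v * (Fm A V {v} - 1) := by
  have h1 : 2 * ∑ e ∈ V.powersetCard 2, B e * (∑ v ∈ e, f {v} + f e - 3) =
      ∑ u ∈ V, ∑ w ∈ V.erase u, B {u, w} * (Fm A V {u, w} + Fm A V {u} + Fm A V {w} - 3) := by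
    rw [two_mul_pairs]
    unfold P2
    refine sum_congr rfl (fun u _ => sum_congr rfl (fun w hw => ?_))
    beta_reduce
    rw [sum_pair (ne_of_mem_erase hw).symm, hf, hf, hf]
    ring
  have h2 : 2 * ∑ e ∈ V.powersetCard 2, th e * f e =
      ∑ u ∈ V, ∑ w ∈ V.erase u, th {u, w} * Fm A V {u, w} := by
    rw [two_mul_pairs]
    unfold P2
    refine sum_congr rfl (fun u _ => sum_congr rfl (fun w _ => ?_))
    beta_reduce
    rw [hf]
  have h3 : ∑ v ∈ V, (g v - 1) = ∑ v ∈ V, (gg A V v - 1) := by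
    refine sum_congr rfl (fun v hv => ?_)
    rw [hg v hv]
    unfold gg
    congr 1
    refine sum_congr rfl (fun S _ => ?_)
    rw [hf]
  have h4 : ∑ v ∈ V, sg v * (f {v} - 1) = ∑ v ∈ V, sg v * (Fm A V {v} - 1) := by
    refine sum_congr rfl (fun v _ => ?_)
    rw [hf]
  rw [h3, h4] at h
  linarith

end Pool.Agent.GaussPoset.St

end

/-! From `Pool.Agent.W_448e_h97.EB` -/

section

/-! Families of unmatched double near elements with disjoint sites (MP_448cb3_co). -/

namespace Pool.Agent.GaussPoset.EK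

set_option linter.unusedSectionVars false

open Finset Win St Polynomial

universe u

variable {P : Type u} [Fintype P] [PartialOrder P] [DecidableEq P] {r i : ℕ}

variable {ι : Type*} [DecidableEq ι] {κ : P → ι}

variable {K : Finset P} {psi : P → P} {T T1 T2 : Finset P}

/-- the component of a double near element is the component of its sites -/
lemma kap_ns (H : Gr P r) (hκ : Split (i + 1) κ) {x v : P} (hx : x ∈ dbL P i ∪ dbU P i)
    (hv : v ∈ ns i x) : κ v = κ x := by
  rcases mem_union.1 hx with h | h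
  · rw [ns_L h, mem_uc] at hv
    exact (hκ hv (by have := (mem_dbL.1 h).1; omega)).symm
  · have h1 := mem_lv.1 (ns_sub H hx hv)
    rw [ns_U h, mem_dc] at hv
    exact hκ hv (by omega)

lemma kap_ns' (H : Gr P r) (hκ : Split (i + 1) κ) {x v : P} (hx : x ∈ dbL P i ∪ dbU P i)
    (hv : v ∈ ns i x) : κ v = κ x ∧ lev v = i :=
  ⟨kap_ns H hκ hx hv, mem_lv.1 (ns_sub H hx hv)⟩

lemma ns_ne {x : P} (hx : x ∈ dbL P i ∪ dbU P i) : (ns i x).Nonempty := by
  rw [← card_pos, ns_card hx]
  norm_num

/-- near doubles of different components have disjoint sites -/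
lemma ns_diff (H : Gr P r) (hκ : Split (i + 1) κ) {x y : P} (hx : x ∈ dbL P i ∪ dbU P i)
    (hy : y ∈ dbL P i ∪ dbU P i) (h : κ x ≠ κ y) : Disjoint (ns i x) (ns i y) := by
  rw [disjoint_left]
  intro v hv hv'
  exact h ((kap_ns H hκ hx hv).symm.trans (kap_ns H hκ hy hv'))

/-- the avoiding families are the disjoint families of this development -/
lemma avd_iff {M : Finset P} (hM : M ⊆ dbL P i ∪ dbU P i) :
    Avd (ns i) T M ↔ Dj i M ∧ Disjoint (M.biUnion (ns i)) T := by
  unfold Avd Dj
  rw [disjoint_biUnion_left]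
  constructor
  · rintro ⟨h1, h2⟩
    exact ⟨⟨hM, h1⟩, h2⟩
  · rintro ⟨⟨_, h1⟩, h2⟩
    exact ⟨h1, h2⟩

/-! ### the defect of a component -/

/-- cross defects vanish -/
lemma Df_cross (H : Gr P r) (hκ : Split (i + 1) κ) {u w : P} (hu : lev u = i) (hw : lev w = i)
    (h : κ u ≠ κ w) : Df i {u, w} = 0 := by
  classical
  have hne : u ≠ w := fun h1 => h (h1 ▸ rfl)
  rw [Df_pair H hu hne]
  have h1 : dcv u w = 0 := by
    unfold dcv
    rw [card_eq_zero, filter_eq_empty_iff]
    rintro y _ ⟨h2, h3⟩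
    have h4 := (H.covBy_iff.1 h2).2
    exact h ((hκ h2 (by omega)).symm.trans (hκ h3 (by omega)))
  have h2 : ucv u w = 0 := by
    unfold ucv
    rw [card_eq_zero, filter_eq_empty_iff]
    rintro y _ ⟨h2, h3⟩
    exact h ((hκ h2 (by omega)).trans (hκ h3 (by omega)).symm)
  rw [h1, h2]
  simp

/-- the matching polynomial of a level is one -/
theorem mp_lv (H : Gr P r) (hi : i ≤ r) : mp (Df i) (lv P i) = 1 := by
  refine mp_eq_one ?_
  intro k hk
  rw [← kk_match H hi hk]
  refine sum_congr ?_ (fun _ _ => rfl)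
  ext M
  rw [mem_filter, mem_MS, mem_MM]
  constructor
  · rintro ⟨⟨h1, h2⟩, h3⟩
    exact ⟨h1, h3, fun S hS T hT hne => h2 hS hT hne⟩
  · rintro ⟨h1, h2, h3⟩
    exact ⟨⟨h1, fun S hS T hT hne => h3 S hS T hT hne⟩, h2⟩

/-- the matching polynomial of a component is one -/
theorem mp_comp (H : Gr P r) (hi : i ≤ r) (hκ : Split (i + 1) κ) (c : ι) :
    mp (Df i) ((lv P i).filter (fun v => κ v = c)) = 1 := by
  classical
  by_cases hc : c ∈ (lv P i).image κ
  · have h1 : mp (Df i) (lv P i) = 1 := mp_lv H hi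
    have h2 : lv P i = ((lv P i).image κ).biUnion (fun c => (lv P i).filter (fun v => κ v = c)) := by
      ext v
      rw [mem_biUnion]
      constructor
      · intro hv
        exact ⟨κ v, mem_image_of_mem κ hv, mem_filter.2 ⟨hv, rfl⟩⟩
      · rintro ⟨a, _, h⟩
        exact (mem_filter.1 h).1
    rw [h2, mp_biUnion] at h1
    · have h3 : ∀ (s : Finset ι) (p : ι → ℤ[X]), (∀ a ∈ s, (p a).coeff 0 = 1) →
          ∏ a ∈ s, p a = 1 → ∀ a ∈ s, p a = 1 := by
        intro s p h0 h a ha
        rw [← mul_prod_erase s p ha] at h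
        exact eq_one_of_mul h (h0 a ha)
      exact h3 _ _ (fun a _ => coeff_zero_mp) h1 c hc
    · intro a _ b _ hab
      rw [disjoint_left]
      intro v hv hv'
      rw [mem_filter] at hv hv'
      exact hab (hv.2.symm.trans hv'.2)
    · intro a _ b _ hab u hu w hw
      rw [mem_filter, mem_lv] at hu hw
      refine Df_cross H hκ hu.1 hw.1 ?_
      rw [hu.2, hw.2]
      exact hab
  · have h1 : (lv P i).filter (fun v => κ v = c) = ∅ := by
      rw [filter_eq_empty_iff]
      intro v hv h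
      exact hc (h ▸ mem_image_of_mem κ hv)
    rw [h1, mp_empty]

/-- the double near elements of a component have signed number zero -/
theorem sum_sgn (H : Gr P r) (hi : i ≤ r) (hκ : Split (i + 1) κ) (c : ι) :
    ∑ x ∈ (dbL P i ∪ dbU P i).filter (fun x => κ x = c), sgn i x = 0 := by
  classical
  have h1 : ∀ x ∈ (dbL P i ∪ dbU P i).filter (fun x => κ x = c),
      ns i x ∈ ((lv P i).filter (fun v => κ v = c)).powersetCard 2 := by
    intro x hx
    rw [mem_filter] at hx
    rw [mem_powersetCard]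
    refine ⟨fun v hv => ?_, ns_card hx.1⟩
    rw [mem_filter]
    exact ⟨ns_sub H hx.1 hv, (kap_ns H hκ hx.1 hv).trans hx.2⟩
  rw [← sum_fiberwise_of_maps_to h1]
  have h2 : ∀ T ∈ ((lv P i).filter (fun v => κ v = c)).powersetCard 2,
      ∑ x ∈ ((dbL P i ∪ dbU P i).filter (fun x => κ x = c)).filter (fun x => ns i x = T), sgn i x =
        Df i T := by
    intro T hT
    rw [mem_powersetCard] at hT
    rw [← sum_fib (i := i) T, filter_filter]
    refine sum_congr ?_ (fun _ _ => rfl)
    refine filter_congr (fun x hx => ?_)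
    constructor
    · exact fun h => h.2
    · intro h
      refine ⟨?_, h⟩
      obtain ⟨v, hv⟩ := ns_ne hx
      rw [← kap_ns H hκ hx hv]
      rw [h] at hv
      exact (mem_filter.1 (hT.1 hv)).2
  rw [sum_congr rfl h2]
  have h3 := two_mul_pairs (V := (lv P i).filter (fun v => κ v = c)) (Df i)
  rw [P2_eq_zero (mp_comp H hi hκ c)] at h3
  rcases mul_eq_zero.1 h3 with h4 | h4
  · norm_num at h4
  · exact h4

lemma sgn_low {x : P} (hx : x ∈ dbL P i) : sgn i x = 1 := by
  unfold sgn
  rw [if_neg]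
  intro h
  have h3 := (mem_dbL.1 hx).1
  have h4 := (mem_dbU.1 h).1
  omega

lemma sgn_upp {x : P} (hx : x ∈ dbU P i) : sgn i x = -1 := by
  unfold sgn
  rw [if_pos hx]

/-- the unmatched elements of a component have signed number zero -/
theorem sum_K (H : Gr P r) (hi : i ≤ r) (hκ : Split (i + 1) κ) (hM : Mat P i K psi)
    (hK : K ⊆ dbL P i ∪ dbU P i) (c : ι) :
    ∑ x ∈ K.filter (fun x => κ x = c), sgn i x = 0 := by
  classical
  have h1 := sum_sgn H hi hκ c
  have h2 : ∑ x ∈ ((dbL P i ∪ dbU P i).filter (fun x => κ x = c)).filter (fun x => x ∉ K),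
      sgn i x = 0 := by
    have hpsi : ∀ x ∈ dbL P i ∪ dbU P i, x ∉ K → psi x ∈ dbL P i ∪ dbU P i ∧
        ns i (psi x) = ns i x ∧ sgn i x + sgn i (psi x) = 0 := by
      intro x hx hxK
      rcases mem_union.1 hx with h | h
      · obtain ⟨h3, h4⟩ := hM.low x h hxK
        refine ⟨mem_union_right _ h3, ?_, ?_⟩
        · rw [ns_L h, ns_U h3, h4]
        · rw [sgn_low h, sgn_upp h3]
          norm_num
      · obtain ⟨h3, h4⟩ := hM.upp x h hxK
        refine ⟨mem_union_left _ h3, ?_, ?_⟩
        · rw [ns_U h, ns_L h3, h4]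
        · rw [sgn_upp h, sgn_low h3]
          norm_num
    refine sum_involution (fun x _ => psi x) ?_ ?_ ?_ ?_
    · intro x hx
      rw [mem_filter, mem_filter] at hx
      exact (hpsi x hx.1.1 hx.2).2.2
    · intro x hx _ h
      rw [mem_filter, mem_filter] at hx
      have h3 := (hpsi x hx.1.1 hx.2).2.2
      rw [h] at h3
      rcases mem_union.1 hx.1.1 with h4 | h4
      · rw [sgn_low h4] at h3
        norm_num at h3
      · rw [sgn_upp h4] at h3
        norm_num at h3
    · intro x hx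
      rw [mem_filter, mem_filter] at hx ⊢
      obtain ⟨h3, h4, _⟩ := hpsi x hx.1.1 hx.2
      refine ⟨⟨h3, ?_⟩, (hM.invol x hx.1.1 hx.2).2⟩
      obtain ⟨v, hv⟩ := ns_ne h3
      rw [← kap_ns H hκ h3 hv]
      rw [h4] at hv
      rw [kap_ns H hκ hx.1.1 hv]
      exact hx.1.2
    · intro x hx
      rw [mem_filter, mem_filter] at hx
      exact (hM.invol x hx.1.1 hx.2).1
  rw [← sum_filter_add_sum_filter_not ((dbL P i ∪ dbU P i).filter (fun x => κ x = c))
    (fun x => x ∈ K), h2, add_zero] at h1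
  rw [← h1]
  refine sum_congr ?_ (fun _ _ => rfl)
  ext x
  rw [mem_filter, mem_filter, mem_filter]
  constructor
  · rintro ⟨h3, h4⟩
    exact ⟨⟨hK h3, h4⟩, h3⟩
  · rintro ⟨⟨_, h4⟩, h3⟩
    exact ⟨h3, h4⟩

/-! ### the product formula -/

/-- the signed number of the unmatched elements of the component `a` which avoid `T` -/
noncomputable def sa (i : ℕ) (κ : P → ι) (K T : Finset P) (a : ι) : ℤ := ss (ns i) (sgn i) κ K T a

/-- the signed number of the families with `k` members avoiding `T` -/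
noncomputable def Ek (i : ℕ) (K T : Finset P) (k : ℕ) : ℤ := E (ns i) (sgn i) K T k

open Classical in
lemma sa_eq (a : ι) : sa i κ K T a =
    ∑ x ∈ K.filter (fun x => κ x = a ∧ Disjoint (ns i x) T), sgn i x := by
  unfold sa ss
  rfl

open Classical in
lemma Ek_eq (hK : K ⊆ dbL P i ∪ dbU P i) (k : ℕ) : Ek i K T k =
    ∑ M ∈ (K.powersetCard k).filter (fun M => Dj i M ∧ Disjoint (M.biUnion (ns i)) T),
      ∏ x ∈ M, sgn i x := by
  unfold Ek E
  refine sum_congr ?_ (fun _ _ => rfl)
  ext M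
  rw [mem_filter, mem_filter, mem_powersetCard]
  constructor
  · rintro ⟨⟨h1, h2⟩, h3⟩
    exact ⟨⟨h1, h2⟩, (avd_iff (h1.trans hK)).1 h3⟩
  · rintro ⟨⟨h1, h2⟩, h3⟩
    exact ⟨⟨h1, h2⟩, (avd_iff (h1.trans hK)).2 h3⟩

lemma Ek_coeff (k : ℕ) : Ek i K T k = (G (ns i) (sgn i) K T).coeff k := (coeff_G k).symm

end Pool.Agent.GaussPoset.EK

end

/-! From `Pool.Agent.W_448e_h97.EC` -/

section

/-! A maximal matching of the double near elements at an arbitrary level (MP_448cb3_co). -/

namespace Pool.Agent.GaussPoset.EK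

set_option linter.unusedSectionVars false

open Finset Win

universe u

variable {P : Type u} [Fintype P] [PartialOrder P] [DecidableEq P] {r : ℕ}

lemma exists_part {α : Type*} [DecidableEq α] (A B : Finset α) :
    ∃ A' B' : Finset α, A' ⊆ A ∧ B' ⊆ B ∧ A'.card = min A.card B.card ∧
      B'.card = min A.card B.card := by
  obtain ⟨A', hA, hA'⟩ := exists_subset_card_eq (min_le_left A.card B.card)
  obtain ⟨B', hB, hB'⟩ := exists_subset_card_eq (min_le_right A.card B.card)
  exact ⟨A', B', hA, hB, hA', hB'⟩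

lemma not_LU {i : ℕ} {x : P} (h : x ∈ dbL P i) (h' : x ∈ dbU P i) : False := by
  rw [mem_dbL] at h
  rw [mem_dbU] at h'
  omega

/-- EXISTENCE of the matching at an arbitrary level: no lower and upper unmatched element have the
same sites, and the unmatched elements with the sites `T` count the defect of `T`. -/
theorem exists_mat (P : Type u) [Fintype P] [PartialOrder P] [DecidableEq P] (i : ℕ) :
    ∃ (K : Finset P) (psi : P → P), Mat P i K psi ∧ K ⊆ dbL P i ∪ dbU P i ∧
      (∀ x ∈ K, ∀ y ∈ K, x ∈ dbL P i → y ∈ dbU P i → uc x ≠ dc y) ∧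
      (∀ T, ((K ∩ CoreC_L i T).card : ℤ) = max (Df i T) 0) ∧
      (∀ T, ((K ∩ CoreC_U i T).card : ℤ) = max (-Df i T) 0) := by
  classical
  have hex : ∀ T : Finset P, ∃ A' B' : Finset P, A' ⊆ CoreC_L i T ∧ B' ⊆ CoreC_U i T ∧
      A'.card = min (CoreC_L i T).card (CoreC_U i T).card ∧
      B'.card = min (CoreC_L i T).card (CoreC_U i T).card := fun T => exists_part _ _
  choose L U hL hU hLc hUc using hex
  let E : ∀ T : Finset P, L T ≃ U T := fun T =>
    Finset.equivOfCardEq ((hLc T).trans (hUc T).symm)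
  let psi : P → P := fun x =>
    if h : x ∈ L (uc x) then ((E (uc x) ⟨x, h⟩ : U (uc x)) : P)
    else if h : x ∈ U (dc x) then (((E (dc x)).symm ⟨x, h⟩ : L (dc x)) : P)
    else x
  have hLm : ∀ x T, x ∈ L T → x ∈ dbL P i ∧ uc x = T := fun x T h => mem_CoreC_L.1 (hL T h)
  have hUm : ∀ x T, x ∈ U T → x ∈ dbU P i ∧ dc x = T := fun x T h => mem_CoreC_U.1 (hU T h)
  have hlow : ∀ x, ∀ (h : x ∈ L (uc x)), psi x = ((E (uc x) ⟨x, h⟩ : U (uc x)) : P) := by
    intro x h
    exact dif_pos h
  have hupp : ∀ x, ∀ (h : x ∈ U (dc x)), psi x = (((E (dc x)).symm ⟨x, h⟩ : L (dc x)) : P) := by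
    intro x h
    change (if h : x ∈ L (uc x) then ((E (uc x) ⟨x, h⟩ : U (uc x)) : P)
      else if h : x ∈ U (dc x) then (((E (dc x)).symm ⟨x, h⟩ : L (dc x)) : P)
      else x) = _
    rw [dif_neg (fun h' => not_LU (hLm x _ h').1 (hUm x _ h).1), dif_pos h]
  let K : Finset P := (dbL P i).filter (fun x => x ∉ L (uc x)) ∪
    (dbU P i).filter (fun x => x ∉ U (dc x))
  have hK : ∀ x, x ∈ K ↔ (x ∈ dbL P i ∧ x ∉ L (uc x)) ∨ (x ∈ dbU P i ∧ x ∉ U (dc x)) := by
    intro x
    show x ∈ (dbL P i).filter (fun x => x ∉ L (uc x)) ∪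
      (dbU P i).filter (fun x => x ∉ U (dc x)) ↔ _
    rw [mem_union, mem_filter, mem_filter]
  have hKL : ∀ x, x ∈ dbL P i → x ∉ K → x ∈ L (uc x) := by
    intro x hx hxK
    by_contra h
    exact hxK ((hK x).2 (Or.inl ⟨hx, h⟩))
  have hKU : ∀ x, x ∈ dbU P i → x ∉ K → x ∈ U (dc x) := by
    intro x hx hxK
    by_contra h
    exact hxK ((hK x).2 (Or.inr ⟨hx, h⟩))
  have hLK : ∀ x T, x ∈ L T → x ∉ K := by
    intro x T hx h
    obtain ⟨h1, h2⟩ := hLm x T hx
    rcases (hK x).1 h with ⟨h3, h4⟩ | ⟨h3, h4⟩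
    · rw [h2] at h4
      exact h4 hx
    · exact not_LU h1 h3
  have hUK : ∀ x T, x ∈ U T → x ∉ K := by
    intro x T hx h
    obtain ⟨h1, h2⟩ := hUm x T hx
    rcases (hK x).1 h with ⟨h3, h4⟩ | ⟨h3, h4⟩
    · exact not_LU h3 h1
    · rw [h2] at h4
      exact h4 hx
  have low0 : ∀ x, x ∈ dbL P i → x ∉ K → psi x ∈ U (uc x) := by
    intro x hx hxK
    rw [hlow x (hKL x hx hxK)]
    exact (E (uc x) ⟨x, hKL x hx hxK⟩).2
  have upp0 : ∀ x, x ∈ dbU P i → x ∉ K → psi x ∈ L (dc x) := by
    intro x hx hxK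
    rw [hupp x (hKU x hx hxK)]
    exact ((E (dc x)).symm ⟨x, hKU x hx hxK⟩).2
  have key1 : ∀ (T : Finset P) (u : P) (hT : dc u = T) (h : u ∈ U (dc u))
      (h' : u ∈ U T), (((E (dc u)).symm ⟨u, h⟩ : L (dc u)) : P) =
        (((E T).symm ⟨u, h'⟩ : L T) : P) := by
    rintro T u rfl h h'
    rfl
  have key2 : ∀ (T : Finset P) (w : P) (hT : uc w = T) (h : w ∈ L (uc w))
      (h' : w ∈ L T), ((E (uc w) ⟨w, h⟩ : U (uc w)) : P) =
        ((E T ⟨w, h'⟩ : U T) : P) := by
    rintro T w rfl h h'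
    rfl
  have hcL : ∀ T, K ∩ CoreC_L i T = CoreC_L i T \ L T := by
    intro T
    ext x
    rw [mem_inter, mem_sdiff, mem_CoreC_L]
    constructor
    · rintro ⟨h1, h2, h3⟩
      exact ⟨⟨h2, h3⟩, fun h4 => hLK x T h4 h1⟩
    · rintro ⟨⟨h2, h3⟩, h4⟩
      refine ⟨(hK x).2 (Or.inl ⟨h2, ?_⟩), h2, h3⟩
      rw [h3]
      exact h4
  have hcU : ∀ T, K ∩ CoreC_U i T = CoreC_U i T \ U T := by
    intro T
    ext x
    rw [mem_inter, mem_sdiff, mem_CoreC_U]
    constructor
    · rintro ⟨h1, h2, h3⟩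
      exact ⟨⟨h2, h3⟩, fun h4 => hUK x T h4 h1⟩
    · rintro ⟨⟨h2, h3⟩, h4⟩
      refine ⟨(hK x).2 (Or.inr ⟨h2, ?_⟩), h2, h3⟩
      rw [h3]
      exact h4
  have hnL : ∀ T, ((K ∩ CoreC_L i T).card : ℤ) = max (Df i T) 0 := by
    intro T
    have h1 := card_sdiff_add_card_eq_card (hL T)
    have h2 := hLc T
    rw [hcL]
    unfold Df
    omega
  have hnU : ∀ T, ((K ∩ CoreC_U i T).card : ℤ) = max (-Df i T) 0 := by
    intro T
    have h1 := card_sdiff_add_card_eq_card (hU T)
    have h2 := hUc T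
    rw [hcU]
    unfold Df
    omega
  refine ⟨K, psi, ⟨?_, ?_, ?_⟩, ?_, ?_, hnL, hnU⟩
  · intro x hx hxK
    rw [Finset.mem_union] at hx
    rcases hx with hx | hx
    · have h0 := low0 x hx hxK
      have h1 := hUm _ _ h0
      refine ⟨?_, hUK _ _ h0⟩
      have h2 : psi x ∈ U (dc (psi x)) := by
        rw [h1.2]
        exact h0
      rw [hupp (psi x) h2, key1 (uc x) (psi x) h1.2 h2 h0]
      have h3 : (⟨psi x, h0⟩ : U (uc x)) = E (uc x) ⟨x, hKL x hx hxK⟩ :=
        Subtype.ext (hlow x (hKL x hx hxK))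
      rw [h3, Equiv.symm_apply_apply]
    · have h0 := upp0 x hx hxK
      have h1 := hLm _ _ h0
      refine ⟨?_, hLK _ _ h0⟩
      have h2 : psi x ∈ L (uc (psi x)) := by
        rw [h1.2]
        exact h0
      rw [hlow (psi x) h2, key2 (dc x) (psi x) h1.2 h2 h0]
      have h3 : (⟨psi x, h0⟩ : L (dc x)) = (E (dc x)).symm ⟨x, hKU x hx hxK⟩ :=
        Subtype.ext (hupp x (hKU x hx hxK))
      rw [h3, Equiv.apply_symm_apply]
  · intro x hx hxK
    exact hUm _ _ (low0 x hx hxK)
  · intro x hx hxK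
    exact hLm _ _ (upp0 x hx hxK)
  · intro x hx
    rw [mem_union]
    rcases (hK x).1 hx with h | h
    · exact Or.inl h.1
    · exact Or.inr h.1
  · intro x hx y hy hxL hyU hxy
    have h1 : x ∈ K ∩ CoreC_L i (uc x) := mem_inter.2 ⟨hx, mem_CoreC_L.2 ⟨hxL, rfl⟩⟩
    have h2 : y ∈ K ∩ CoreC_U i (uc x) := mem_inter.2 ⟨hy, mem_CoreC_U.2 ⟨hyU, hxy.symm⟩⟩
    have h3 := card_pos.2 ⟨x, h1⟩
    have h4 := card_pos.2 ⟨y, h2⟩
    have h5 := hnL (uc x)
    have h6 := hnU (uc x)
    omega

end Pool.Agent.GaussPoset.EK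

end

/-! From `Pool.Agent.W_448e_h97.ED` -/

section

/-! The unmatched double near elements of a component: stars (MP_448cb3_co). -/

namespace Pool.Agent.GaussPoset.EK

set_option linter.unusedSectionVars false

open Finset Win St Polynomial

universe u

variable {P : Type u} [Fintype P] [PartialOrder P] [DecidableEq P] {r i : ℕ}

variable {ι : Type*} [DecidableEq ι] {κ : P → ι}

variable {K : Finset P} {psi : P → P} {T T1 T2 : Finset P}

/-- a reduced matching: `exists_mat` -/
structure Red (P : Type u) [Fintype P] [PartialOrder P] [DecidableEq P] (i : ℕ) (K : Finset P)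
    (psi : P → P) : Prop where
  mat : Mat P i K psi
  sub : K ⊆ dbL P i ∪ dbU P i
  nL : ∀ T, ((K ∩ CoreC_L i T).card : ℤ) = max (Df i T) 0
  nU : ∀ T, ((K ∩ CoreC_U i T).card : ℤ) = max (-Df i T) 0

theorem exists_red (P : Type u) [Fintype P] [PartialOrder P] [DecidableEq P] (i : ℕ) :
    ∃ (K : Finset P) (psi : P → P), Red P i K psi := by
  obtain ⟨K, psi, h1, h2, _, h3, h4⟩ := exists_mat P i
  exact ⟨K, psi, h1, h2, h3, h4⟩

lemma Red.inv (R : Red P i K psi) {x y : P} (hx : x ∈ K) (hy : y ∈ K) (hxL : x ∈ dbL P i)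
    (hyU : y ∈ dbU P i) : uc x ≠ dc y := by
  intro hxy
  have h1 : x ∈ K ∩ CoreC_L i (uc x) := mem_inter.2 ⟨hx, mem_CoreC_L.2 ⟨hxL, rfl⟩⟩
  have h2 : y ∈ K ∩ CoreC_U i (uc x) := mem_inter.2 ⟨hy, mem_CoreC_U.2 ⟨hyU, hxy.symm⟩⟩
  have h3 := card_pos.2 ⟨x, h1⟩
  have h4 := card_pos.2 ⟨y, h2⟩
  have h5 := R.nL (uc x)
  have h6 := R.nU (uc x)
  omega

/-- the unmatched elements with the sites `T` -/
lemma Red.fib (R : Red P i K psi) (T : Finset P) :
    ((K.filter (fun x => ns i x = T)).card : ℤ) = |Df i T| := by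
  have h1 : K.filter (fun x => ns i x = T) = (K ∩ CoreC_L i T) ∪ (K ∩ CoreC_U i T) := by
    ext x
    rw [mem_filter, mem_union, mem_inter, mem_inter, mem_CoreC_L, mem_CoreC_U]
    constructor
    · rintro ⟨h1, h2⟩
      rcases mem_union.1 (R.sub h1) with h | h
      · rw [ns_L h] at h2
        exact Or.inl ⟨h1, h, h2⟩
      · rw [ns_U h] at h2
        exact Or.inr ⟨h1, h, h2⟩
    · rintro (⟨h1, h, h2⟩ | ⟨h1, h, h2⟩)
      · exact ⟨h1, by rw [ns_L h]; exact h2⟩
      · exact ⟨h1, by rw [ns_U h]; exact h2⟩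
  have h2 : Disjoint (K ∩ CoreC_L i T) (K ∩ CoreC_U i T) := by
    rw [disjoint_left]
    intro x hx hy
    rw [mem_inter, mem_CoreC_L] at hx
    rw [mem_inter, mem_CoreC_U] at hy
    exact not_LU hx.2.1 hy.2.1
  rw [h1, card_union_of_disjoint h2, Nat.cast_add, R.nL, R.nU]
  rcases le_total 0 (Df i T) with h | h
  · rw [abs_of_nonneg h]
    omega
  · rw [abs_of_nonpos h]
    omega

lemma Red.Df_ne (R : Red P i K psi) {x : P} (hx : x ∈ K) : Df i (ns i x) ≠ 0 := by
  intro h
  have h1 := R.fib (ns i x)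
  rw [h, abs_zero, Nat.cast_eq_zero, card_eq_zero] at h1
  exact notMem_empty x (h1 ▸ mem_filter.2 ⟨hx, rfl⟩)

/-- the sites of a component -/
lemma mem_sites {a : ι} (hκ : Split (i + 1) κ) {v : P} :
    v ∈ st i (cext (i + 1) κ a) ↔ lev v = i ∧ κ v = a := by
  rw [mem_st]
  constructor
  · rintro ⟨h1, h2⟩
    exact ⟨h2, (mem_cext.1 h1) v le_rfl (by omega)⟩
  · rintro ⟨h1, h2⟩
    exact ⟨mem_cext_of_le hκ (by omega) h2, h1⟩

lemma sites_eq {a : ι} (hκ : Split (i + 1) κ) :
    st i (cext (i + 1) κ a) = (lv P i).filter (fun v => κ v = a) := by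
  ext v
  rw [mem_sites hκ, mem_filter, mem_lv]

lemma ns_sites (H : Gr P r) {a : ι} (hκ : Split (i + 1) κ) {x : P} (hx : x ∈ dbL P i ∪ dbU P i)
    (ha : κ x = a) : ns i x ⊆ st i (cext (i + 1) κ a) := by
  intro v hv
  rw [mem_sites hκ]
  exact ⟨mem_lv.1 (ns_sub H hx hv), (kap_ns H hκ hx hv).trans ha⟩

/-- the number of unmatched elements of a component -/
lemma Red.card_comp (R : Red P i K psi) (H : Gr P r) (hκ : Split (i + 1) κ) (a : ι) :
    ((K.filter (fun x => κ x = a)).card : ℤ) =
      ∑ T ∈ (st i (cext (i + 1) κ a)).powersetCard 2, |Df i T| := by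
  have h1 : ∀ x ∈ K.filter (fun x => κ x = a),
      ns i x ∈ (st i (cext (i + 1) κ a)).powersetCard 2 := by
    intro x hx
    rw [mem_filter] at hx
    rw [mem_powersetCard]
    exact ⟨ns_sites H hκ (R.sub hx.1) hx.2, ns_card (R.sub hx.1)⟩
  rw [card_eq_sum_card_fiberwise h1, Nat.cast_sum]
  refine sum_congr rfl (fun T hT => ?_)
  rw [← R.fib T, filter_filter]
  congr 2
  refine filter_congr (fun x hx => ?_)
  constructor
  · exact fun h => h.2
  · intro h
    refine ⟨?_, h⟩
    obtain ⟨v, hv⟩ := ns_ne (R.sub hx)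
    rw [← kap_ns H hκ (R.sub hx) hv]
    rw [h] at hv
    exact ((mem_sites hκ).1 ((mem_powersetCard.1 hT).1 hv)).2

/-- the hypothesis on a component -/
def Small (i : ℕ) (κ : P → ι) (a : ι) : Prop :=
  (st i (cext (i + 1) κ a)).card ≤ 3 ∨
    ∑ T ∈ (st i (cext (i + 1) κ a)).powersetCard 2, |Df i T| ≤ 2

lemma sgn_cases {x : P} (hx : x ∈ dbL P i ∪ dbU P i) : sgn i x = 1 ∨ sgn i x = -1 := by
  rcases mem_union.1 hx with h | h
  · exact Or.inl (sgn_low h)
  · exact Or.inr (sgn_upp h)

/-- two unmatched elements of a small component share a site -/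
theorem Red.same_of_small (R : Red P i K psi) (H : Gr P r) (hi : i ≤ r) (hκ : Split (i + 1) κ)
    {a : ι} (hs : Small i κ a) {x y : P} (hx : x ∈ K) (hy : y ∈ K) (hxa : κ x = a)
    (hya : κ y = a) : ¬ Disjoint (ns i x) (ns i y) := by
  classical
  intro hd
  have hxV := ns_sites H hκ (R.sub hx) hxa
  have hyV := ns_sites H hκ (R.sub hy) hya
  have hcx := ns_card (R.sub hx)
  have hcy := ns_card (R.sub hy)
  rcases hs with hs | hs
  · have h1 := card_le_card (union_subset hxV hyV)
    rw [card_union_of_disjoint hd, hcx, hcy] at h1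
    omega
  · have hne : x ≠ y := by
      rintro rfl
      rw [disjoint_self] at hd
      rw [show ns i x = ∅ from hd, card_empty] at hcx
      omega
    have hK2 := R.card_comp H hκ a
    have hsub : ({x, y} : Finset P) ⊆ K.filter (fun x => κ x = a) := by
      intro z hz
      rw [mem_insert, mem_singleton] at hz
      rcases hz with rfl | rfl
      · exact mem_filter.2 ⟨hx, hxa⟩
      · exact mem_filter.2 ⟨hy, hya⟩
    have hEq : ({x, y} : Finset P) = K.filter (fun x => κ x = a) := by
      refine eq_of_subset_of_card_le hsub ?_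
      rw [card_pair hne]
      omega
    have hsum := sum_K H hi hκ R.mat R.sub a
    rw [← hEq, sum_pair hne] at hsum
    have hprod : sgn i x * sgn i y = -1 := by
      rcases sgn_cases (R.sub hx) with h1 | h1 <;> rcases sgn_cases (R.sub hy) with h2 | h2
      · rw [h1, h2] at hsum
        norm_num at hsum
      · simp [h1, h2]
      · simp [h1, h2]
      · rw [h1, h2] at hsum
        norm_num at hsum
    have hT : ns i x ≠ ns i y := by
      intro h
      rw [h, disjoint_self] at hd
      rw [show ns i y = ∅ from hd, card_empty] at hcy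
      omega
    -- the defects
    have hfib : ∀ T ∈ (st i (cext (i + 1) κ a)).powersetCard 2,
        ∑ z ∈ K.filter (fun z => ns i z = T), sgn i z = Df i T := by
      intro T hTm
      have h1 : K.filter (fun x => ns i x = T) = (K ∩ CoreC_L i T) ∪ (K ∩ CoreC_U i T) := by
        ext x
        rw [mem_filter, mem_union, mem_inter, mem_inter, mem_CoreC_L, mem_CoreC_U]
        constructor
        · rintro ⟨h1, h2⟩
          rcases mem_union.1 (R.sub h1) with h | h
          · rw [ns_L h] at h2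
            exact Or.inl ⟨h1, h, h2⟩
          · rw [ns_U h] at h2
            exact Or.inr ⟨h1, h, h2⟩
        · rintro (⟨h1, h, h2⟩ | ⟨h1, h, h2⟩)
          · exact ⟨h1, by rw [ns_L h]; exact h2⟩
          · exact ⟨h1, by rw [ns_U h]; exact h2⟩
      have h2 : Disjoint (K ∩ CoreC_L i T) (K ∩ CoreC_U i T) := by
        rw [disjoint_left]
        intro x hx hy
        rw [mem_inter, mem_CoreC_L] at hx
        rw [mem_inter, mem_CoreC_U] at hy
        exact not_LU hx.2.1 hy.2.1
      have h3 : ∑ z ∈ K ∩ CoreC_L i T, sgn i z = ∑ z ∈ K ∩ CoreC_L i T, 1 := by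
        refine sum_congr rfl (fun z hz => ?_)
        exact sgn_low (mem_CoreC_L.1 (mem_inter.1 hz).2).1
      have h4 : ∑ z ∈ K ∩ CoreC_U i T, sgn i z = ∑ z ∈ K ∩ CoreC_U i T, -1 := by
        refine sum_congr rfl (fun z hz => ?_)
        exact sgn_upp (mem_CoreC_U.1 (mem_inter.1 hz).2).1
      rw [h1, sum_union h2, h3, h4]
      have h5 := R.nL T
      have h6 := R.nU T
      simp only [sum_const, nsmul_eq_mul, mul_one]
      omega
    have hDf : ∀ T ∈ (st i (cext (i + 1) κ a)).powersetCard 2, T ≠ ns i x → T ≠ ns i y →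
        Df i T = 0 := by
      intro T hTm h1 h2
      rw [← hfib T hTm]
      have h3 : K.filter (fun z => ns i z = T) = ∅ := by
        rw [filter_eq_empty_iff]
        intro z hz hzT
        have h4 : z ∈ K.filter (fun x => κ x = a) := by
          rw [mem_filter]
          refine ⟨hz, ?_⟩
          obtain ⟨v, hv⟩ := ns_ne (R.sub hz)
          rw [← kap_ns H hκ (R.sub hz) hv]
          rw [hzT] at hv
          exact ((mem_sites hκ).1 ((mem_powersetCard.1 hTm).1 hv)).2
        rw [← hEq, mem_insert, mem_singleton] at h4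
        rcases h4 with rfl | rfl
        · exact h1 hzT.symm
        · exact h2 hzT.symm
      rw [h3, sum_empty]
    have hone : ∀ z ∈ K, κ z = a → (∀ w ∈ K, κ w = a → ns i w = ns i z → w = z) →
        Df i (ns i z) = sgn i z := by
      intro z hz hza huniq
      rw [← hfib (ns i z) (mem_powersetCard.2 ⟨ns_sites H hκ (R.sub hz) hza, ns_card (R.sub hz)⟩)]
      have h3 : K.filter (fun w => ns i w = ns i z) = {z} := by
        ext w
        rw [mem_filter, mem_singleton]
        constructor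
        · rintro ⟨h4, h5⟩
          refine huniq w h4 ?_ h5
          obtain ⟨v, hv⟩ := ns_ne (R.sub h4)
          rw [← kap_ns H hκ (R.sub h4) hv]
          rw [h5] at hv
          exact (kap_ns H hκ (R.sub hz) hv).trans hza
        · rintro rfl
          exact ⟨hz, rfl⟩
      rw [h3, sum_singleton]
    have hmemK : ∀ w ∈ K, κ w = a → w = x ∨ w = y := by
      intro w hw hwa
      have h4 : w ∈ K.filter (fun x => κ x = a) := mem_filter.2 ⟨hw, hwa⟩
      rw [← hEq, mem_insert, mem_singleton] at h4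
      exact h4
    have hDx : Df i (ns i x) = sgn i x := by
      refine hone x hx hxa (fun w hw hwa h => ?_)
      rcases hmemK w hw hwa with h1 | h1
      · exact h1
      · rw [h1] at h
        exact absurd h.symm hT
    have hDy : Df i (ns i y) = sgn i y := by
      refine hone y hy hya (fun w hw hwa h => ?_)
      rcases hmemK w hw hwa with h1 | h1
      · rw [h1] at h
        exact absurd h hT
      · exact h1
    have hmp := mp_comp H hi hκ a
    rw [← sites_eq hκ] at hmp
    have hc : (mp (Df i) (st i (cext (i + 1) κ a))).coeff 2 = 0 := by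
      rw [hmp, coeff_one, if_neg (by norm_num)]
    rw [coeff_mp, sum_eq_single ({ns i x, ns i y} : Finset (Finset P))] at hc
    · rw [prod_pair hT, hDx, hDy, hprod] at hc
      norm_num at hc
    · intro M hM hMne
      rw [mem_filter, mem_MS] at hM
      obtain ⟨⟨h1, _⟩, h2⟩ := hM
      have h3 : ¬ M ⊆ {ns i x, ns i y} := by
        intro h3
        refine hMne (eq_of_subset_of_card_le h3 ?_)
        rw [card_pair hT, h2]
      rw [not_subset] at h3
      obtain ⟨T, hTM, hTn⟩ := h3
      rw [mem_insert, mem_singleton, not_or] at hTn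
      exact prod_eq_zero hTM (hDf T (mem_powersetCard.2 (h1 T hTM)) hTn.1 hTn.2)
    · intro hn
      exfalso
      apply hn
      rw [mem_filter, mem_MS]
      refine ⟨⟨?_, ?_⟩, card_pair hT⟩
      · intro T hT'
        rw [mem_insert, mem_singleton] at hT'
        rcases hT' with rfl | rfl
        · exact ⟨hxV, hcx⟩
        · exact ⟨hyV, hcy⟩
      · intro S hS T hT' hST
        rw [mem_coe, mem_insert, mem_singleton] at hS hT'
        rcases hS with rfl | rfl <;> rcases hT' with rfl | rfl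
        · exact absurd rfl hST
        · exact hd
        · exact hd.symm
        · exact absurd rfl hST

/-- of three unmatched elements of a small component with a common site two have the same sites -/
theorem Red.three_of_small (R : Red P i K psi) (H : Gr P r) (hκ : Split (i + 1) κ)
    {a : ι} (hs : Small i κ a) {x y z : P} (hx : x ∈ K) (hy : y ∈ K) (hz : z ∈ K) (hxa : κ x = a)
    (hya : κ y = a) (hza : κ z = a) (hxy : x ≠ y) (hxz : x ≠ z) (hyz : y ≠ z) {v : P}
    (hvx : v ∈ ns i x) (hvy : v ∈ ns i y) (hvz : v ∈ ns i z) :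
    ns i x = ns i y ∨ ns i x = ns i z ∨ ns i y = ns i z := by
  classical
  have hxV := ns_sites H hκ (R.sub hx) hxa
  have hyV := ns_sites H hκ (R.sub hy) hya
  have hzV := ns_sites H hκ (R.sub hz) hza
  have hcx := ns_card (R.sub hx)
  have hcy := ns_card (R.sub hy)
  have hcz := ns_card (R.sub hz)
  rcases hs with hs | hs
  · obtain ⟨x', hx'⟩ : ∃ x', (ns i x).erase v = {x'} :=
      card_eq_one.1 (by rw [card_erase_of_mem hvx, hcx])
    obtain ⟨y', hy'⟩ : ∃ y', (ns i y).erase v = {y'} :=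
      card_eq_one.1 (by rw [card_erase_of_mem hvy, hcy])
    obtain ⟨z', hz'⟩ : ∃ z', (ns i z).erase v = {z'} :=
      card_eq_one.1 (by rw [card_erase_of_mem hvz, hcz])
    have key : ∀ p q : P, ∀ p' : P, v ∈ ns i p → v ∈ ns i q → (ns i p).erase v = {p'} →
        (ns i q).erase v = {p'} → ns i p = ns i q := by
      intro p q p' h1 h2 h3 h4
      rw [← insert_erase h1, ← insert_erase h2, h3, h4]
    by_contra hcon
    rw [not_or, not_or] at hcon
    obtain ⟨n1, n2, n3⟩ := hcon
    have m1 : x' ≠ y' := by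
      rintro rfl
      exact n1 (key x y x' hvx hvy hx' hy')
    have m2 : x' ≠ z' := by
      rintro rfl
      exact n2 (key x z x' hvx hvz hx' hz')
    have m3 : y' ≠ z' := by
      rintro rfl
      exact n3 (key y z y' hvy hvz hy' hz')
    have e1 : ∀ p p' : P, (ns i p).erase v = {p'} → p' ≠ v ∧ p' ∈ ns i p := by
      intro p p' h
      have h1 : p' ∈ (ns i p).erase v := by
        rw [h]
        exact mem_singleton_self _
      exact mem_erase.1 h1
    have hsub : ({v, x', y', z'} : Finset P) ⊆ st i (cext (i + 1) κ a) := by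
      intro w hw
      rw [mem_insert, mem_insert, mem_insert, mem_singleton] at hw
      rcases hw with rfl | rfl | rfl | rfl
      · exact hxV hvx
      · exact hxV (e1 x _ hx').2
      · exact hyV (e1 y _ hy').2
      · exact hzV (e1 z _ hz').2
    have h4 := card_le_card hsub
    have h5 : ({v, x', y', z'} : Finset P).card = 4 := by
      rw [card_insert_of_notMem, card_insert_of_notMem, card_insert_of_notMem, card_singleton]
      · rw [mem_singleton]
        exact m3
      · rw [mem_insert, mem_singleton, not_or]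
        exact ⟨m1, m2⟩
      · rw [mem_insert, mem_insert, mem_singleton, not_or, not_or]
        exact ⟨(e1 x _ hx').1.symm, (e1 y _ hy').1.symm, (e1 z _ hz').1.symm⟩
    omega
  · exfalso
    have hK2 := R.card_comp H hκ a
    have hsub : ({x, y, z} : Finset P) ⊆ K.filter (fun x => κ x = a) := by
      intro w hw
      rw [mem_insert, mem_insert, mem_singleton] at hw
      rcases hw with rfl | rfl | rfl
      · exact mem_filter.2 ⟨hx, hxa⟩
      · exact mem_filter.2 ⟨hy, hya⟩
      · exact mem_filter.2 ⟨hz, hza⟩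
    have h4 := card_le_card hsub
    have h5 : ({x, y, z} : Finset P).card = 3 := by
      rw [card_insert_of_notMem, card_insert_of_notMem, card_singleton]
      · rw [mem_singleton]
        exact hyz
      · rw [mem_insert, mem_singleton, not_or]
        exact ⟨hxy, hxz⟩
    omega

end Pool.Agent.GaussPoset.EK

end

/-! From `Pool.Agent.W_448e_h97.EE` -/

section

/-! Values of the signed numbers of unmatched elements (MP_448cb3_co). -/

namespace Pool.Agent.GaussPoset.EK

set_option linter.unusedSectionVars false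

open Finset Win St Polynomial

universe u

variable {P : Type u} [Fintype P] [PartialOrder P] [DecidableEq P] {r i : ℕ}

variable {ι : Type*} [DecidableEq ι] {κ : P → ι}

variable {K : Finset P} {psi : P → P} {T T1 T2 : Finset P}

/-- the matched elements cancel in every sum over a condition on the sites -/
theorem sum_pred (hM : Mat P i K psi) (hK : K ⊆ dbL P i ∪ dbU P i) (p : Finset P → Prop)
    [DecidablePred fun x => p (ns i x)] :
    ∑ x ∈ K.filter (fun x => p (ns i x)), sgn i x =
      ∑ x ∈ (dbL P i ∪ dbU P i).filter (fun x => p (ns i x)), sgn i x := by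
  classical
  have h2 : ∑ x ∈ ((dbL P i ∪ dbU P i).filter (fun x => p (ns i x))).filter (fun x => x ∉ K),
      sgn i x = 0 := by
    have hpsi : ∀ x ∈ dbL P i ∪ dbU P i, x ∉ K → psi x ∈ dbL P i ∪ dbU P i ∧
        ns i (psi x) = ns i x ∧ sgn i x + sgn i (psi x) = 0 := by
      intro x hx hxK
      rcases mem_union.1 hx with h | h
      · obtain ⟨h3, h4⟩ := hM.low x h hxK
        refine ⟨mem_union_right _ h3, ?_, ?_⟩
        · rw [ns_L h, ns_U h3, h4]
        · rw [sgn_low h, sgn_upp h3]
          norm_num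
      · obtain ⟨h3, h4⟩ := hM.upp x h hxK
        refine ⟨mem_union_left _ h3, ?_, ?_⟩
        · rw [ns_U h, ns_L h3, h4]
        · rw [sgn_upp h, sgn_low h3]
          norm_num
    refine sum_involution (fun x _ => psi x) ?_ ?_ ?_ ?_
    · intro x hx
      rw [mem_filter, mem_filter] at hx
      exact (hpsi x hx.1.1 hx.2).2.2
    · intro x hx _ h
      rw [mem_filter, mem_filter] at hx
      have h3 := (hpsi x hx.1.1 hx.2).2.2
      rw [h] at h3
      rcases mem_union.1 hx.1.1 with h4 | h4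
      · rw [sgn_low h4] at h3
        norm_num at h3
      · rw [sgn_upp h4] at h3
        norm_num at h3
    · intro x hx
      rw [mem_filter, mem_filter] at hx ⊢
      obtain ⟨h3, h4, _⟩ := hpsi x hx.1.1 hx.2
      refine ⟨⟨h3, ?_⟩, (hM.invol x hx.1.1 hx.2).2⟩
      rw [h4]
      exact hx.1.2
    · intro x hx
      rw [mem_filter, mem_filter] at hx
      exact (hM.invol x hx.1.1 hx.2).1
  rw [← sum_filter_add_sum_filter_not ((dbL P i ∪ dbU P i).filter (fun x => p (ns i x)))
    (fun x => x ∈ K), h2, add_zero]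
  refine sum_congr ?_ (fun _ _ => rfl)
  ext x
  rw [mem_filter, mem_filter, mem_filter]
  constructor
  · rintro ⟨h3, h4⟩
    exact ⟨⟨hK h3, h4⟩, h3⟩
  · rintro ⟨⟨_, h4⟩, h3⟩
    exact ⟨h3, h4⟩

/-- the unmatched elements with the sites `T` have signed number `Df i T` -/
lemma fib_K (hM : Mat P i K psi) (hK : K ⊆ dbL P i ∪ dbU P i) (T : Finset P) :
    ∑ x ∈ K.filter (fun x => ns i x = T), sgn i x = Df i T := by
  rw [sum_pred hM hK (fun S => S = T), sum_fib]

open Classical in
/-- number of double-down upper covers -/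
noncomputable def UD (x : P) : ℤ := ((uc x).filter (fun u => (dc u).card = 2)).card

open Classical in
/-- number of double-up lower covers -/
noncomputable def LD (x : P) : ℤ := ((dc x).filter (fun w => (uc w).card = 2)).card

/-- signed number of the near doubles over the site `x` -/
lemma sum_at (H : Gr P r) {x : P} (hx : lev x = i) :
    ∑ k ∈ (dbL P i ∪ dbU P i).filter (fun k => x ∈ ns i k), sgn i k = LD x - UD x := by
  classical
  have h1 : (dbL P i ∪ dbU P i).filter (fun k => x ∈ ns i k) =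
      ((dc x).filter (fun w => (uc w).card = 2)) ∪ ((uc x).filter (fun u => (dc u).card = 2)) := by
    ext k
    rw [mem_filter, mem_union, mem_union, mem_filter, mem_filter]
    constructor
    · rintro ⟨h | h, h2⟩
      · rw [ns_L h] at h2
        exact Or.inl ⟨mem_dc.2 (mem_uc.1 h2), (mem_dbL.1 h).2⟩
      · rw [ns_U h] at h2
        exact Or.inr ⟨mem_uc.2 (mem_dc.1 h2), (mem_dbU.1 h).2⟩
    · rintro (⟨h, h2⟩ | ⟨h, h2⟩)
      · have h3 := lev_dc H h
        have h4 : k ∈ dbL P i := mem_dbL.2 ⟨by omega, h2⟩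
        refine ⟨Or.inl h4, ?_⟩
        rw [ns_L h4]
        exact mem_uc.2 (mem_dc.1 h)
      · have h3 := lev_uc H h
        have h4 : k ∈ dbU P i := mem_dbU.2 ⟨by omega, h2⟩
        refine ⟨Or.inr h4, ?_⟩
        rw [ns_U h4]
        exact mem_dc.2 (mem_uc.1 h)
  have h2 : Disjoint ((dc x).filter (fun w => (uc w).card = 2))
      ((uc x).filter (fun u => (dc u).card = 2)) := by
    rw [disjoint_left]
    intro k hk hk'
    have h3 := lev_dc H (mem_filter.1 hk).1
    have h4 := lev_uc H (mem_filter.1 hk').1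
    omega
  rw [h1, sum_union h2]
  have h3 : ∑ k ∈ (dc x).filter (fun w => (uc w).card = 2), sgn i k =
      ∑ k ∈ (dc x).filter (fun w => (uc w).card = 2), 1 := by
    refine sum_congr rfl (fun k hk => ?_)
    rw [mem_filter] at hk
    have h3 := lev_dc H hk.1
    exact sgn_low (mem_dbL.2 ⟨by omega, hk.2⟩)
  have h4 : ∑ k ∈ (uc x).filter (fun u => (dc u).card = 2), sgn i k =
      ∑ k ∈ (uc x).filter (fun u => (dc u).card = 2), -1 := by
    refine sum_congr rfl (fun k hk => ?_)
    rw [mem_filter] at hk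
    have h3 := lev_uc H hk.1
    exact sgn_upp (mem_dbU.2 ⟨by omega, hk.2⟩)
  rw [h3, h4]
  unfold LD UD
  simp only [sum_const, nsmul_eq_mul, mul_one]
  ring

/-- the signed number of the unmatched elements of the component which avoid `T` is that of the
near doubles which meet `T`, with the opposite sign -/
theorem sa_eq_neg (H : Gr P r) (hi : i ≤ r) (hκ : Split (i + 1) κ) (hM : Mat P i K psi)
    (hK : K ⊆ dbL P i ∪ dbU P i) {a : ι} (hT : ∀ v ∈ T, κ v = a) :
    sa i κ K T a = -∑ k ∈ (dbL P i ∪ dbU P i).filter (fun k => ¬ Disjoint (ns i k) T), sgn i k := by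
  classical
  rw [sa_eq]
  have h1 := sum_K H hi hκ hM hK a
  rw [← sum_filter_add_sum_filter_not (K.filter (fun x => κ x = a))
    (fun x => Disjoint (ns i x) T), filter_filter, filter_filter] at h1
  have h2 : K.filter (fun x => κ x = a ∧ ¬ Disjoint (ns i x) T) =
      K.filter (fun x => ¬ Disjoint (ns i x) T) := by
    refine filter_congr (fun x hx => ?_)
    constructor
    · exact fun h => h.2
    · intro h
      refine ⟨?_, h⟩
      rw [not_disjoint_iff] at h
      obtain ⟨v, hv, hvT⟩ := h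
      rw [← kap_ns H hκ (hK hx) hv]
      exact hT v hvT
  rw [h2, sum_pred hM hK (fun S => ¬ Disjoint S T)] at h1
  have h3 : ∑ x ∈ K.filter (fun x => κ x = a ∧ Disjoint (ns i x) T), sgn i x =
      -∑ k ∈ (dbL P i ∪ dbU P i).filter (fun k => ¬ Disjoint (ns i k) T), sgn i k := by
    linarith
  convert h3

/-- VALUE for one site -/
theorem sa_one (H : Gr P r) (hi : i ≤ r) (hκ : Split (i + 1) κ) (hM : Mat P i K psi)
    (hK : K ⊆ dbL P i ∪ dbU P i) {x : P} (hx : lev x = i) :
    sa i κ K {x} (κ x) = UD x - LD x := by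
  classical
  rw [sa_eq_neg H hi hκ hM hK (fun v hv => by rw [mem_singleton.1 hv])]
  have h1 := sum_at H hx
  have h2 : (dbL P i ∪ dbU P i).filter (fun k => ¬ Disjoint (ns i k) {x}) =
      (dbL P i ∪ dbU P i).filter (fun k => x ∈ ns i k) := by
    refine filter_congr (fun k _ => ?_)
    rw [disjoint_singleton_right, not_not]
  rw [h2, h1]
  ring

/-- a site with a single-up lower cover has at most one double-up lower cover -/
lemma LD_le_one (H : Gr P r) {x v : P} (hv : v ∈ dc x) (h1 : (uc v).card = 1) : LD x ≤ 1 := by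
  classical
  unfold LD
  have h2 : (dc x).filter (fun w => (uc w).card = 2) ⊆ (dc x).erase v := by
    intro w hw
    rw [mem_filter] at hw
    rw [mem_erase]
    refine ⟨?_, hw.1⟩
    rintro rfl
    omega
  have h3 := card_le_card h2
  rw [card_erase_of_mem hv] at h3
  have h4 := dc_card_le H x
  have h5 : ((dc x).filter (fun w => (uc w).card = 2)).card ≤ 1 := by omega
  exact_mod_cast h5

lemma UD_pos {x u : P} (hu : u ∈ uc x) (h1 : (dc u).card = 2) : 1 ≤ UD x := by
  classical
  unfold UD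
  have h2 : 0 < ((uc x).filter (fun u => (dc u).card = 2)).card :=
    card_pos.2 ⟨u, mem_filter.2 ⟨hu, h1⟩⟩
  exact_mod_cast h2

/-- the value over a site with a single-up lower cover and a double-down upper cover is `≥ 0` -/
theorem sa_single_nonneg (H : Gr P r) (hi : i ≤ r) (hκ : Split (i + 1) κ) (hM : Mat P i K psi)
    (hK : K ⊆ dbL P i ∪ dbU P i) {x v u : P} (hx : lev x = i) (hv : v ∈ dc x)
    (hv1 : (uc v).card = 1) (hu : u ∈ uc x) (hu2 : (dc u).card = 2) :
    0 ≤ sa i κ K {x} (κ x) := by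
  rw [sa_one H hi hκ hM hK hx]
  have h1 := LD_le_one H hv hv1
  have h2 := UD_pos hu hu2
  linarith

/-! ### the matching polynomial -/

/-- the families avoiding `T` are counted by the matching polynomial of the sites outside `T` -/
theorem Ek_mp (H : Gr P r) (hM : Mat P i K psi) (hK : K ⊆ dbL P i ∪ dbU P i) (k : ℕ) :
    Ek i K T k = (mp (Df i) (lv P i \ T)).coeff k := by
  classical
  rw [coeff_mp, Ek_eq hK]
  have h1 : ∀ F ∈ (K.powersetCard k).filter
      (fun M => Dj i M ∧ Disjoint (M.biUnion (ns i)) T),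
      F.image (ns i) ∈ (MS (lv P i \ T)).filter (fun M => M.card = k) := by
    intro F hF
    rw [mem_filter, mem_powersetCard] at hF
    obtain ⟨⟨hFK, hFk⟩, hFD, hFT⟩ := hF
    have hinj : Set.InjOn (ns i) (F : Set P) := by
      intro a ha b hb hab
      by_contra hne
      have h4 := hFD.2 a (mem_coe.1 ha) b (mem_coe.1 hb) hne
      rw [hab, disjoint_self] at h4
      have h5 := ns_card (hFD.1 (mem_coe.1 hb))
      rw [show ns i b = ∅ from h4, card_empty] at h5
      omega
    rw [mem_filter, mem_MS]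
    refine ⟨⟨?_, ?_⟩, ?_⟩
    · intro S hS
      obtain ⟨x, hx, rfl⟩ := mem_image.1 hS
      refine ⟨?_, ns_card (hFD.1 hx)⟩
      intro v hv
      rw [mem_sdiff]
      exact ⟨ns_sub H (hFD.1 hx) hv,
        fun h => disjoint_left.1 hFT (mem_biUnion.2 ⟨x, hx, hv⟩) h⟩
    · intro S hS S' hS' hne
      rw [mem_coe] at hS hS'
      obtain ⟨x, hx, rfl⟩ := mem_image.1 hS
      obtain ⟨y, hy, rfl⟩ := mem_image.1 hS'
      refine hFD.2 x hx y hy ?_
      rintro rfl
      exact hne rfl
    · rw [card_image_of_injOn hinj, hFk]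
  rw [← sum_fiberwise_of_maps_to h1]
  refine sum_congr rfl (fun M hM' => ?_)
  rw [prod_congr rfl (fun S _ => (fib_K hM hK S).symm), prod_fib]
  refine sum_congr ?_ (fun _ _ => rfl)
  rw [mem_filter, mem_MS] at hM'
  obtain ⟨⟨hM1, hM2⟩, hMk⟩ := hM'
  ext F
  rw [mem_filter, mem_filter, mem_powersetCard, mem_SR]
  constructor
  · rintro ⟨⟨⟨hFK, _⟩, hFD, _⟩, hFi⟩
    refine ⟨hFK, ?_, hFi⟩
    intro a ha b hb hab
    by_contra hne
    have h4 := hFD.2 a (mem_coe.1 ha) b (mem_coe.1 hb) hne
    rw [hab, disjoint_self] at h4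
    have h5 := ns_card (hFD.1 (mem_coe.1 hb))
    rw [show ns i b = ∅ from h4, card_empty] at h5
    omega
  · rintro ⟨hFK, hinj, hFi⟩
    have hmem : ∀ x ∈ F, ns i x ∈ M := by
      intro x hx
      rw [← hFi]
      exact mem_image_of_mem _ hx
    refine ⟨⟨⟨hFK, ?_⟩, ⟨hFK.trans hK, ?_⟩, ?_⟩, hFi⟩
    · rw [← card_image_of_injOn hinj, hFi, hMk]
    · intro x hx y hy hne
      have h6 : ns i x ≠ ns i y := fun h => hne (hinj (mem_coe.2 hx) (mem_coe.2 hy) h)
      exact hM2 (mem_coe.2 (hmem x hx)) (mem_coe.2 (hmem y hy)) h6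
    · rw [disjoint_biUnion_left]
      intro x hx
      rw [disjoint_left]
      intro v hv hvT
      exact (mem_sdiff.1 ((hM1 _ (hmem x hx)).1 hv)).2 hvT

/-- without a condition there are no signed families -/
theorem Ek_none (H : Gr P r) (hi : i ≤ r) (hM : Mat P i K psi) (hK : K ⊆ dbL P i ∪ dbU P i)
    {k : ℕ} (hk : 1 ≤ k) : Ek i K ∅ k = 0 := by
  rw [Ek_mp H hM hK, sdiff_empty, mp_lv H hi, coeff_one, if_neg (by omega)]

end Pool.Agent.GaussPoset.EK

end

/-! From `Pool.Agent.W_448e_h97.EF` -/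

section

/-! Families of unmatched elements: the classes are the stars (MP_448cb3_co). -/

namespace Pool.Agent.GaussPoset.EK

set_option linter.unusedSectionVars false

open Finset Win St Polynomial

universe u

variable {P : Type u} [Fintype P] [PartialOrder P] [DecidableEq P] {r i : ℕ}

variable {ι : Type*} [DecidableEq ι] {κ : P → ι}

variable {K : Finset P} {psi : P → P} {T T1 T2 : Finset P}

/-- sharing a site is transitive on the unmatched elements -/
structure HS (r i : ℕ) (K : Finset P) (psi : P → P) : Prop where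
  H : Gr P r
  hi : i ≤ r
  mat : Mat P i K psi
  sub : K ⊆ dbL P i ∪ dbU P i
  trans : ∀ x ∈ K, ∀ y ∈ K, ∀ z ∈ K, ¬ Disjoint (ns i x) (ns i y) → ¬ Disjoint (ns i y) (ns i z) →
    ¬ Disjoint (ns i x) (ns i z)

open Classical in
/-- the star of an unmatched element -/
noncomputable def star (i : ℕ) (K : Finset P) (x : P) : Finset P :=
  K.filter (fun y => ¬ Disjoint (ns i x) (ns i y))

lemma mem_star {x y : P} : y ∈ star i K x ↔ y ∈ K ∧ ¬ Disjoint (ns i x) (ns i y) := by
  classical
  unfold star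
  rw [mem_filter]

lemma not_disj_self {x : P} (hx : x ∈ dbL P i ∪ dbU P i) : ¬ Disjoint (ns i x) (ns i x) := by
  rw [disjoint_self]
  exact (ns_ne hx).ne_empty

/-- two unmatched elements are in the same star if and only if they share a site -/
lemma HS.star_eq (h : HS r i K psi) {x y : P} (hx : x ∈ K) (hy : y ∈ K) :
    star i K x = star i K y ↔ ¬ Disjoint (ns i x) (ns i y) := by
  constructor
  · intro h1
    have h2 : y ∈ star i K x := by
      rw [h1]
      exact mem_star.2 ⟨hy, not_disj_self (h.sub hy)⟩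
    exact (mem_star.1 h2).2
  · intro h1
    ext z
    rw [mem_star, mem_star]
    constructor
    · rintro ⟨hz, h2⟩
      exact ⟨hz, h.trans y hy x hx z hz (fun h3 => h1 h3.symm) h2⟩
    · rintro ⟨hz, h2⟩
      exact ⟨hz, h.trans x hx y hy z hz h1 h2⟩

lemma HS.same (h : HS r i K psi) : ∀ x ∈ K, ∀ y ∈ K, star i K x = star i K y →
    ¬ Disjoint (ns i x) (ns i y) :=
  fun _ hx _ hy hxy => (h.star_eq hx hy).1 hxy

lemma HS.diff (h : HS r i K psi) : ∀ x ∈ K, ∀ y ∈ K, star i K x ≠ star i K y →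
    Disjoint (ns i x) (ns i y) := by
  intro x hx y hy hxy
  by_contra h1
  exact hxy ((h.star_eq hx hy).2 h1)

/-- the signed number of the elements of the star `s` which avoid `T` -/
noncomputable def sst (i : ℕ) (K T s : Finset P) : ℤ := ss (ns i) (sgn i) (star i K) K T s

open Classical in
lemma sst_eq (s : Finset P) : sst i K T s =
    ∑ x ∈ K.filter (fun x => star i K x = s ∧ Disjoint (ns i x) T), sgn i x := by
  unfold sst ss
  refine sum_congr ?_ (fun _ _ => rfl)
  ext x
  simp only [mem_filter]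

/-- THE PRODUCT FORMULA over the stars -/
theorem HS.prod (h : HS r i K psi) (T : Finset P) :
    G (ns i) (sgn i) K T = ∏ s ∈ K.image (star i K), (1 + C (sst i K T s) * X) :=
  G_prod _ K (fun _ hx => mem_image_of_mem _ hx) h.same h.diff

/-- every star has signed number zero -/
theorem HS.zero (h : HS r i K psi) (s : Finset P) :
    ∑ x ∈ K.filter (fun x => star i K x = s), sgn i x = 0 := by
  classical
  by_cases hs : s ∈ K.image (star i K)
  · have h1 : G (ns i) (sgn i) K ∅ = 1 := by
      ext k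
      rw [← Ek_coeff]
      rcases Nat.eq_zero_or_pos k with rfl | hk
      · rw [Ek_mp h.H h.mat h.sub, coeff_zero_mp, coeff_one_zero]
      · rw [Ek_none h.H h.hi h.mat h.sub hk, coeff_one, if_neg (by omega)]
    rw [h.prod ∅] at h1
    have h2 : ∀ (I : Finset (Finset P)) (p : Finset P → ℤ[X]), (∀ a ∈ I, (p a).coeff 0 = 1) →
        ∏ a ∈ I, p a = 1 → ∀ a ∈ I, p a = 1 := by
      intro I p h0 h a ha
      rw [← mul_prod_erase I p ha] at h
      exact eq_one_of_mul h (h0 a ha)
    have h3 := h2 _ _ (fun a _ => by simp) h1 s hs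
    have h4 : (1 + C (sst i K ∅ s) * X : ℤ[X]).coeff 1 = 0 := by
      rw [h3, coeff_one, if_neg (by norm_num)]
    have h5 : sst i K ∅ s = 0 := by
      simpa [coeff_one] using h4
    rw [sst_eq] at h5
    rw [← h5]
    refine sum_congr ?_ (fun _ _ => rfl)
    refine filter_congr (fun x _ => ?_)
    exact ⟨fun h => ⟨h, disjoint_empty_right _⟩, fun h => h.1⟩
  · rw [filter_false_of_mem, sum_empty]
    intro x hx hxs
    exact hs (hxs ▸ mem_image_of_mem _ hx)

/-- only the stars which meet `T` contribute -/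
theorem HS.prod_J (h : HS r i K psi) (T : Finset P) (J : Finset (Finset P))
    (hJ : ∀ x ∈ K, ¬ Disjoint (ns i x) T → star i K x ∈ J) :
    G (ns i) (sgn i) K T = ∏ s ∈ J, (1 + C (sst i K T s) * X) :=
  G_prod_J J K h.same h.diff (fun x hx hn => by
    by_contra h1
    exact hn (hJ x hx h1)) (fun s _ => h.zero s)

/-- `T` meets at most the stars `s`, `s'` -/
theorem HS.two (h : HS r i K psi) {s s' : Finset P} (hne : s ≠ s')
    (hJ : ∀ x ∈ K, ¬ Disjoint (ns i x) T → star i K x = s ∨ star i K x = s') :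
    Ek i K T 0 = 1 ∧ Ek i K T 1 = sst i K T s + sst i K T s' ∧
      Ek i K T 2 = sst i K T s * sst i K T s' ∧ ∀ k, 3 ≤ k → Ek i K T k = 0 := by
  refine E_two hne h.same h.diff ?_ (fun c _ _ => h.zero c)
  intro x hx h1 h2
  by_contra h3
  rcases hJ x hx h3 with h4 | h4
  · exact h1 h4
  · exact h2 h4

/-- `T` meets at most the star `s` -/
theorem HS.one (h : HS r i K psi) {s : Finset P}
    (hJ : ∀ x ∈ K, ¬ Disjoint (ns i x) T → star i K x = s) :
    Ek i K T 0 = 1 ∧ Ek i K T 1 = sst i K T s ∧ ∀ k, 2 ≤ k → Ek i K T k = 0 := by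
  refine E_one h.same h.diff ?_ (fun c _ => h.zero c)
  intro x hx h1
  by_contra h3
  exact h1 (hJ x hx h3)

/-- `T` meets no unmatched element -/
theorem HS.none (h : HS r i K psi) (hJ : ∀ x ∈ K, Disjoint (ns i x) T) :
    Ek i K T 0 = 1 ∧ ∀ k, 1 ≤ k → Ek i K T k = 0 :=
  E_zero h.same h.diff hJ (fun c => h.zero c)

/-- a site meets at most one star -/
lemma HS.star_site (h : HS r i K psi) {x y v : P} (hx : x ∈ K) (hy : y ∈ K) (hvx : v ∈ ns i x)
    (hvy : v ∈ ns i y) : star i K x = star i K y :=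
  (h.star_eq hx hy).2 (not_disjoint_iff.2 ⟨v, hvx, hvy⟩)

/-- unmatched elements of one star are in one component -/
lemma star_comp (H : Gr P r) (hκ : Split (i + 1) κ) (hK : K ⊆ dbL P i ∪ dbU P i) {x y : P}
    (hx : x ∈ K) (hy : y ∈ K) (h : ¬ Disjoint (ns i x) (ns i y)) : κ x = κ y := by
  by_contra h1
  exact h (ns_diff H hκ (hK hx) (hK hy) h1)

end Pool.Agent.GaussPoset.EK

end

/-! From `Pool.Agent.W_448L1_h63.LaA` -/

section

/-!
Components without a heavy join at the window j (MP_448cb3_co, case B): free pairs of unmatched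
elements.
-/

namespace Pool.Agent.GaussPoset.Win.K2

set_option linter.unusedSectionVars false

open Finset I2

universe u

variable {P : Type u} [Fintype P] [PartialOrder P] [DecidableEq P] {r i : ℕ} {e : P → ℕ}

variable {ι : Type*} [DecidableEq ι] {κ : P → ι} {K : Finset P} {psi : P → P}

/-- `k`, `k'` are the only unmatched elements of their label, one on each side of the window -/
structure Pr (i : ℕ) (κ : P → ι) (K : Finset P) (k k' : P) : Prop where
  hk : k ∈ dbL P i
  kK : k ∈ K
  hk' : k' ∈ dbU P i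
  kK' : k' ∈ K
  lab : κ k = κ k'
  only : ∀ x ∈ K, κ x = κ k → x = k ∨ x = k'

/-- the unmatched elements of the label `a` all touch `F`, or they are two elements away from `F`,
one on each side of the window -/
def Fr (i : ℕ) (κ : P → ι) (K : Finset P) (a : ι) (F : Finset P) : Prop :=
  (∀ k ∈ K, κ k = a → ¬ Disjoint (ns i k) F) ∨
    ∃ k k', Pr i κ K k k' ∧ κ k = a ∧ Disjoint (ns i k) F ∧ Disjoint (ns i k') F

end Pool.Agent.GaussPoset.Win.K2

end
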