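import Mathlib
import Pool.Agent.W_448zz_h61.Ns
import Pool.Agent.W_448zz_h61.M043

/-! From `Pool.Agent.W_448s7_h5.SevJ` -/

section

/-!
# Costs of deep cells of stair-like strips (MP_448cb3_co, S7)
-/

namespace Pool.Agent.GaussPoset

set_option linter.unusedSectionVars false

open Polynomial Finset

universe u

variable {P : Type u} [Fintype P] [PartialOrder P] [DecidableEq P] {r j : ℕ}

section Stair

variable {t : P} {N : Finset P} {co : P → ℕ × ℕ}

/-- a deep cell of a stair-like chart is expensive -/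
theorem stair_deep (C : Chart t (fun c => c.1 ≤ c.2) N co) {x : P} (hx : x ∈ N) {w h : ℕ}
    (hj : 17 ≤ j) (hw : w = 2 ∨ w = 3) (h1 : 2 ≤ (co x).1)
    (hlx : j + 1 ≤ lev x) (hh : h + 1 = lev x - w) :
    cap j w + 1 < cst w (fun _ => h) x + h := by
  have hl := C.lev x hx
  have hm := C.mem x hx
  obtain ⟨y, hy⟩ : ∃ y, j + 1 = w + y := ⟨j + 1 - w, by omega⟩
  have hcap := cap_eq hy (by omega)
  obtain ⟨c, hc⟩ : ∃ c, lev x = w + (c + 15) := ⟨lev x - w - 15, by omega⟩
  have hha : h = c + 14 := by omega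
  have e4 : y ^ 2 + 10 * y ≤ (c + 15) ^ 2 + 10 * (c + 15) := by
    have : y ≤ c + 15 := by omega
    exact Nat.add_le_add (Nat.pow_le_pow_left this 2) (Nat.mul_le_mul_left 10 this)
  have e5 : (c + 15) ^ 2 = c * c + 30 * c + 225 := by ring
  rw [e5] at e4
  have g1 := Finset.sum_range_id_mul_two (c + 15)
  rw [show c + 15 - 1 = c + 14 by omega, show (c + 15) * (c + 14) = c * c + 29 * c + 210 by ring]
    at g1
  by_cases hr : (co x).1 = 2
  · have hn : ∀ n, 1 ≤ n → n < c + 15 →
        1 + ind 1 (c + 15) n + ind (4 - w) (c + 14) n + 0 ≤ nab (w + n) x := by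
      intro n hn1 hn2
      have h3 := stair_nab C hx (k := w + n) (by omega)
      unfold ind
      split_ifs <;> omega
    have h4 := cst_ge_shift (h := fun _ => h) (fun n => 1 + ind 1 (c + 15) n +
      ind (4 - w) (c + 14) n + 0) hc (by omega) hn
    rw [sum_split4] at h4
    have g2 := sum_ind (s := 1) (a := c + 15) (m := c + 15) le_rfl
    have g3 := sum_ind (s := 4 - w) (a := c + 14) (m := c + 15) (by omega)
    rw [show c + 15 - 1 = c + 14 by omega, show (c + 15) * (c + 14) = c * c + 29 * c + 210 by ring]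
      at g2
    rw [show c + 14 - 1 = c + 13 by omega, show (c + 14) * (c + 13) = c * c + 27 * c + 182 by ring]
      at g3
    simp only [mul_one, Nat.sub_self, mul_zero, add_zero] at h4 g1 g2 g3
    rcases hw with rfl | rfl
    · norm_num at g3 h4
      omega
    · norm_num at g3 h4
      omega
  · have hn : ∀ n, 1 ≤ n → n < c + 15 →
        1 + ind 1 (c + 14) n + ind (4 - w) (c + 12) n + ind (6 - w) (c + 10) n ≤
          nab (w + n) x := by
      intro n hn1 hn2
      have h3 := stair_nab C hx (k := w + n) (by omega)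
      unfold ind
      split_ifs <;> omega
    have h4 := cst_ge_shift (h := fun _ => h) (fun n => 1 + ind 1 (c + 14) n +
      ind (4 - w) (c + 12) n + ind (6 - w) (c + 10) n) hc (by omega) hn
    rw [sum_split4] at h4
    have g2 := sum_ind (s := 1) (a := c + 14) (m := c + 15) (by omega)
    have g3 := sum_ind (s := 4 - w) (a := c + 12) (m := c + 15) (by omega)
    have g4 := sum_ind (s := 6 - w) (a := c + 10) (m := c + 15) (by omega)
    rw [show c + 14 - 1 = c + 13 by omega, show (c + 14) * (c + 13) = c * c + 27 * c + 182 by ring]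
      at g2
    rw [show c + 12 - 1 = c + 11 by omega, show (c + 12) * (c + 11) = c * c + 23 * c + 132 by ring]
      at g3
    rw [show c + 10 - 1 = c + 9 by omega, show (c + 10) * (c + 9) = c * c + 19 * c + 90 by ring]
      at g4
    simp only [mul_one, Nat.sub_self, mul_zero, add_zero] at h4 g1 g2 g3 g4
    rcases hw with rfl | rfl
    · norm_num at g3 g4 h4
      have : 1 ≤ c := by omega
      omega
    · norm_num at g3 g4 h4
      omega

lemma sum_split5 (m : ℕ) (f1 f2 f3 f4 f5 : ℕ → ℕ) :
    ∑ n ∈ range m, n * (f1 n + f2 n + f3 n + f4 n + f5 n) =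
      ∑ n ∈ range m, n * f1 n + ∑ n ∈ range m, n * f2 n + ∑ n ∈ range m, n * f3 n +
        ∑ n ∈ range m, n * f4 n + ∑ n ∈ range m, n * f5 n := by
  simp only [mul_add, Finset.sum_add_distrib]

/-- the flip position of level `j` is expensive -/
theorem flip_deep (C : Chart t (fun c => c.1 ≤ c.2) N co) {x : P} (hx : x ∈ N) {w h : ℕ}
    (hj : 17 ≤ j) (hw : w = 2 ∨ w = 3) (h1 : (co x).2 = (co x).1 + 3)
    (hlx : lev x = j) (hh : h + 1 = lev x - w) :
    cap j w < cst w (fun _ => h) x + h := by
  have hl := C.lev x hx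
  obtain ⟨c, hc⟩ : ∃ c, lev x = w + (c + 14) := ⟨lev x - w - 14, by omega⟩
  have hcap := cap_eq (j := j) (w := w) (y := c + 15) (by omega) (by omega)
  have hha : h = c + 13 := by omega
  have e5 : (c + 15) ^ 2 = c * c + 30 * c + 225 := by ring
  rw [e5] at hcap
  have hn : ∀ n, 1 ≤ n → n < c + 14 →
      1 + ind 1 (c + 14) n + ind (4 - w) (c + 13) n + ind (6 - w) (c + 12) n ≤
        nab (w + n) x := by
    intro n hn1 hn2
    have h3 := stair_nab C hx (k := w + n) (by omega)
    unfold ind
    split_ifs <;> omega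
  have h4 := cst_ge_shift (h := fun _ => h) (fun n => 1 + ind 1 (c + 14) n +
    ind (4 - w) (c + 13) n + ind (6 - w) (c + 12) n) hc (by omega) hn
  rw [sum_split4] at h4
  have g1 := Finset.sum_range_id_mul_two (c + 14)
  have g2 := sum_ind (s := 1) (a := c + 14) (m := c + 14) le_rfl
  have g3 := sum_ind (s := 4 - w) (a := c + 13) (m := c + 14) (by omega)
  have g4 := sum_ind (s := 6 - w) (a := c + 12) (m := c + 14) (by omega)
  rw [show c + 14 - 1 = c + 13 by omega, show (c + 14) * (c + 13) = c * c + 27 * c + 182 by ring]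
    at g1 g2
  rw [show c + 13 - 1 = c + 12 by omega, show (c + 13) * (c + 12) = c * c + 25 * c + 156 by ring]
    at g3
  rw [show c + 12 - 1 = c + 11 by omega, show (c + 12) * (c + 11) = c * c + 23 * c + 132 by ring]
    at g4
  simp only [mul_one, Nat.sub_self, mul_zero, add_zero] at h4 g1 g2 g3 g4
  rcases hw with rfl | rfl
  · norm_num at g3 g4 h4
    have : 1 ≤ c := by omega
    omega
  · norm_num at g3 g4 h4
    omega

/-- the fold end of level `j ≥ 20` is expensive -/
theorem fold_deep (C : Chart t (fun c => c.1 ≤ c.2) N co) {x : P} (hx : x ∈ N) {w h : ℕ}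
    (hj : 20 ≤ j) (hw : w = 2 ∨ w = 3) (h1 : (co x).2 = (co x).1)
    (hlx : lev x = j) (hh : h + 1 = lev x - w) :
    cap j w < cst w (fun _ => h) x + h := by
  have hl := C.lev x hx
  obtain ⟨c, hc⟩ : ∃ c, lev x = w + (c + 17) := ⟨lev x - w - 17, by omega⟩
  have hcap := cap_eq (j := j) (w := w) (y := c + 18) (by omega) (by omega)
  have hha : h = c + 16 := by omega
  have e5 : (c + 18) ^ 2 = c * c + 36 * c + 324 := by ring
  rw [e5] at hcap
  have hn : ∀ n, 1 ≤ n → n < c + 17 →
      1 + ind 1 (c + 16) n + ind (4 - w) (c + 14) n + ind (6 - w) (c + 12) n +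
        ind (8 - w) (c + 10) n ≤ nab (w + n) x := by
    intro n hn1 hn2
    have h3 := stair_nab C hx (k := w + n) (by omega)
    unfold ind
    split_ifs <;> omega
  have h4 := cst_ge_shift (h := fun _ => h) (fun n => 1 + ind 1 (c + 16) n +
    ind (4 - w) (c + 14) n + ind (6 - w) (c + 12) n + ind (8 - w) (c + 10) n) hc (by omega) hn
  rw [sum_split5] at h4
  have g1 := Finset.sum_range_id_mul_two (c + 17)
  have g2 := sum_ind (s := 1) (a := c + 16) (m := c + 17) (by omega)
  have g3 := sum_ind (s := 4 - w) (a := c + 14) (m := c + 17) (by omega)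
  have g4 := sum_ind (s := 6 - w) (a := c + 12) (m := c + 17) (by omega)
  have g5 := sum_ind (s := 8 - w) (a := c + 10) (m := c + 17) (by omega)
  rw [show c + 17 - 1 = c + 16 by omega, show (c + 17) * (c + 16) = c * c + 33 * c + 272 by ring]
    at g1
  rw [show c + 16 - 1 = c + 15 by omega, show (c + 16) * (c + 15) = c * c + 31 * c + 240 by ring]
    at g2
  rw [show c + 14 - 1 = c + 13 by omega, show (c + 14) * (c + 13) = c * c + 27 * c + 182 by ring]
    at g3
  rw [show c + 12 - 1 = c + 11 by omega, show (c + 12) * (c + 11) = c * c + 23 * c + 132 by ring]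
    at g4
  rw [show c + 10 - 1 = c + 9 by omega, show (c + 10) * (c + 9) = c * c + 19 * c + 90 by ring]
    at g5
  simp only [mul_one, Nat.sub_self, mul_zero, add_zero] at h4 g1 g2 g3 g4 g5
  rcases hw with rfl | rfl
  · norm_num at g3 g4 g5 h4
    have : 1 ≤ c := by omega
    omega
  · norm_num at g3 g4 g5 h4
    omega

/-- the fold end of level `18` -/
theorem fold_18 (C : Chart t (fun c => c.1 ≤ c.2) N co) {x : P} (hx : x ∈ N)
    (h1 : (co x).1 = 9) (h2 : (co x).2 = 9) :
    (∀ k, k ≤ 18 → nab k x + (k - 9) = min (k / 2) 9 + 1) ∧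
      cst 3 (fun _ => 14) x + 14 = 16 ^ 2 + 94 ∧ cst 2 (fun _ => 15) x + 15 = 17 ^ 2 + 113 := by
  have hl := C.lev x hx
  have hn : ∀ k, k ≤ 18 → nab k x + (k - 9) = min (k / 2) 9 + 1 := by
    intro k hk
    have h3 := stair_nab C hx (k := k) (by omega)
    omega
  have hv : ∀ k, k ≤ 18 → nab k x = min (k / 2) 9 + 1 - (k - 9) := fun k hk => by
    have := hn k hk
    omega
  refine ⟨hn, ?_, ?_⟩
  · rw [cst_shift (i := 3) (a := 15) (by omega)]
    simp only [Finset.sum_range_succ, Finset.sum_range_zero]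
    rw [hv (3 + 1) (by omega), hv (3 + 2) (by omega), hv (3 + 3) (by omega), hv (3 + 4) (by omega),
      hv (3 + 5) (by omega), hv (3 + 6) (by omega), hv (3 + 7) (by omega), hv (3 + 8) (by omega),
      hv (3 + 9) (by omega), hv (3 + 10) (by omega), hv (3 + 11) (by omega),
      hv (3 + 12) (by omega), hv (3 + 13) (by omega), hv (3 + 14) (by omega),
      hv (3 + 15) (by omega)]
    norm_num
  · rw [cst_shift (i := 2) (a := 16) (by omega)]
    simp only [Finset.sum_range_succ, Finset.sum_range_zero]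
    rw [hv (2 + 1) (by omega), hv (2 + 2) (by omega), hv (2 + 3) (by omega), hv (2 + 4) (by omega),
      hv (2 + 5) (by omega), hv (2 + 6) (by omega), hv (2 + 7) (by omega), hv (2 + 8) (by omega),
      hv (2 + 9) (by omega), hv (2 + 10) (by omega), hv (2 + 11) (by omega),
      hv (2 + 12) (by omega), hv (2 + 13) (by omega), hv (2 + 14) (by omega),
      hv (2 + 15) (by omega), hv (2 + 16) (by omega)]
    norm_num

end Stair

end Pool.Agent.GaussPoset

end

/-! From `Pool.Agent.W_448s7_h5.SevL` -/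

section

/-!
# The windows of S7: natural elements and twins (MP_448cb3_co)
-/

namespace Pool.Agent.GaussPoset

set_option linter.unusedSectionVars false

open Polynomial Finset

universe u

variable {P : Type u} [Fintype P] [PartialOrder P] [DecidableEq P] {r j w : ℕ}
  {N : Tops P → Finset P} {b : Tops P → ℕ} {θ : Tops P → P → ℕ}

/-- window `w ≤ 3` of S7 -/
structure Wn (r j w : ℕ) (N : Tops P → Finset P) (b : Tops P → ℕ) (θ : Tops P → P → ℕ) :
    Prop where
  gt : Win.GoodTo P r j
  hj : 17 ≤ j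
  hw : w ≤ 3
  typ : ∀ t, TypeX j w t (b t) (N t) (θ t)
  top : ∀ t, TopType j w t (b t) (N t) (θ t)
  sum_b : ∑ t, b t = (lv P w).card

lemma Wn.natSys (W : Wn r j w N b θ) : NatSys N :=
  (farData_of_types (jt := fun _ => j) W.gt.H.gradedBelow W.top).1

lemma Wn.low (W : Wn r j w N b θ) {x : P} (hx : lev x ≤ j) : x ∉ unnat N := by
  intro h
  refine mem_unnat.mp h (topOf x) ?_
  rcases W.typ (topOf x) with ⟨h1, h2, h3, h5⟩ | ⟨Nc, co, h0, h1, h2, h4⟩ |
    ⟨Nc, co, h0, h1, h2, h3, h4, h5⟩
  · rw [h1]; exact h5 x (le_topOf x) hx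
  · rw [h1]; exact mem_natR.mpr (Or.inl (h0.strip (mem_lowPart.mpr ⟨le_topOf x, hx⟩)))
  · rw [h1]; exact mem_natS.mpr (Or.inl (h0.strip (mem_lowPart.mpr ⟨le_topOf x, hx⟩)))

lemma Wn.lt_lev (W : Wn r j w N b θ) {x : P} (hx : x ∈ unnat N) : j < lev x := by
  by_contra hcon
  exact W.low (not_lt.mp hcon) hx

lemma Wn.up (W : Wn r j w N b θ) {x y : P} (hx : x ∉ unnat N) (hxy : x ≤ y) :
    y ∉ unnat N ∧ topOf y = topOf x := by
  have HN := W.natSys
  exact ⟨fun h => hx (HN.lower x y hxy h), (HN.cp x y hxy hx).symm⟩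

/-- straight natural elements -/
structure Str (w : ℕ) (N : Tops P → Finset P) (θ : Tops P → P → ℕ) (x : P) : Prop where
  th : θ (topOf x) x = lev x - w
  tw : ∀ z ∈ unnat N, ¬ ∀ y, x < y ↔ z < y

/-- cells of row `1` -/
structure Row1 (j w : ℕ) (N : Tops P → Finset P) (θ : Tops P → P → ℕ) (x : P) : Prop where
  one_le : 1 ≤ w
  dbl : (Win.uc x).card = 2
  nopen : lev x = j → ∀ z, z ⋖ x → ¬ ∀ y, z ⋖ y → y = x
  th : θ (topOf x) x + 1 = lev x - w
  nab : ∀ k, w ≤ k → k < lev x → nab k x = 2
  mono : ∀ y, x < y → θ (topOf y) y ≤ θ (topOf x) x + 1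

/-- deep cells -/
structure Dp (j w : ℕ) (N : Tops P → Finset P) (θ : Tops P → P → ℕ) (x : P) : Prop where
  one_le : 1 ≤ w
  th : θ (topOf x) x + 1 ≤ lev x - w
  th3 : lev x - w ≤ θ (topOf x) x + 3
  mono : ∀ y, x < y → θ (topOf y) y ≤ θ (topOf x) x + 1
  cost : j + 1 ≤ lev x → cap j w + 1 < cst w (fun _ => θ (topOf x) x + 1) x +
    (θ (topOf x) x + 1)

/-- the threshold of a cell of a rectangle-like chart -/
lemma rect_th {t : Tops P} {c : ℕ} {Nc : Finset P} {co : P → ℕ × ℕ} (R : RectNat j w t c Nc co)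
    (hw : w ≤ 3) {x : P} (hx : x ∈ Nc)
    (hJ : ¬ (x ∈ junk (fun _ => True) Nc co ∨ x ∈ junk (fun _ => True) Nc (swp co)))
    (hl : 17 ≤ lev x) :
    thR w c Nc co x + min (min (co x).1 (co x).2) w = lev x - w := by
  have h1 := R.chart.lev x hx
  have h2 := R.b_two
  have h3 := R.b_le
  have h4 : c = w + 1 ∨ (co x).1 ≤ c - 1 := R.rows.imp id fun h => h x hx
  unfold thR
  rw [if_neg hJ]
  omega

/-- the threshold of a cell of a stair-like chart -/
lemma stair_th {t : Tops P} {Nc : Finset P} {co : P → ℕ × ℕ} (R : StairNat j w t Nc co)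
    (hw : w ≤ 3) (hw2 : 2 ≤ w) {x : P} (hx : x ∈ Nc)
    (hJ : x ∉ junk (fun c => c.1 ≤ c.2) Nc co) (hl : 17 ≤ lev x) :
    thS w Nc co x + min (co x).1 2 = lev x - w := by
  have h1 := R.chart.lev x hx
  have h2 : (co x).1 ≤ (co x).2 := R.chart.mem x hx
  unfold thS
  rw [if_neg hJ]
  omega

/-- ancestors of an inner cell are not junk -/
lemma not_junk_above {t : P} {S : ℕ × ℕ → Prop} {Nc : Finset P} {co : P → ℕ × ℕ}
    (C : Chart t S Nc co) {x y : P} (hx : x ∈ Nc) (h1 : 1 ≤ (co x).1) (hxy : x ≤ y) :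
    y ∉ junk S Nc co := by
  intro hy
  obtain ⟨x1, H1, hj⟩ := mem_junk.mp hy
  have h2 := (C.le_iff x hx x1 H1.mem).mp (hxy.trans (mem_jset.mp hj).1.le)
  have h3 := H1.lt x hx h1
  have h4 : (co x1).2 ≤ (co x).2 := h2.2
  omega

/-- the four kinds of data of a rectangle-like component -/
lemma RectNat.one1 {t : Tops P} {c : ℕ} {Nc : Finset P} {co : P → ℕ × ℕ}
    (R : RectNat j w t c Nc co) : ∃ y ∈ Nc, 1 ≤ (co y).1 := by
  obtain ⟨y, hy, hc⟩ := R.cell
  have := R.b_two
  exact ⟨y, hy, by rw [hc]; simp only; omega⟩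

lemma RectNat.one2 {t : Tops P} {c : ℕ} {Nc : Finset P} {co : P → ℕ × ℕ}
    (R : RectNat j w t c Nc co) : ∃ y ∈ Nc, 1 ≤ (swp co y).1 := by
  obtain ⟨y, hy, hc⟩ := R.cell
  have := R.b_two
  have := R.b_le
  exact ⟨y, hy, by rw [swp_fst, hc]; simp only; omega⟩

lemma StairNat.one1 {t : Tops P} {Nc : Finset P} {co : P → ℕ × ℕ}
    (R : StairNat j w t Nc co) (hw : 2 ≤ w) : ∃ y ∈ Nc, 1 ≤ (co y).1 := by
  obtain ⟨y, hy, hc⟩ := R.cell
  exact ⟨y, hy, by rw [hc]; simp only; omega⟩

/-- a cell of a stair-like chart between row `0` and the diagonal has two covers -/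
lemma stair_inner_uc {t : P} {Nc : Finset P} {co : P → ℕ × ℕ}
    (C : Chart t (fun c => c.1 ≤ c.2) Nc co) (H : Gr P r) {x : P} (hx : x ∈ Nc)
    (h1 : 1 ≤ (co x).1) (h2 : (co x).1 < (co x).2) : (Win.uc x).card = 2 := by
  classical
  obtain ⟨y1, hy1, hc1⟩ := C.low x hx ((co x).1 - 1, (co x).2)
    ⟨Nat.sub_le _ _, le_rfl⟩ (show (co x).1 - 1 ≤ (co x).2 by omega)
  obtain ⟨y2, hy2, hc2⟩ := C.low x hx ((co x).1, (co x).2 - 1)
    ⟨le_rfl, Nat.sub_le _ _⟩ (show (co x).1 ≤ (co x).2 - 1 by omega)
  have e1 : x ⋖ y1 := by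
    rw [chart_cov C H hx hy1, hc1]
    exact Or.inl ⟨by simp only; omega, rfl⟩
  have e2 : x ⋖ y2 := by
    rw [chart_cov C H hx hy2, hc2]
    exact Or.inr ⟨rfl, by simp only; omega⟩
  have hne : y1 ≠ y2 := by
    rintro rfl
    rw [hc1] at hc2
    simp only [Prod.mk.injEq] at hc2
    omega
  have h3 : ({y1, y2} : Finset P) ⊆ Win.uc x := by
    intro y hy
    rw [mem_insert, mem_singleton] at hy
    rcases hy with rfl | rfl
    · exact Win.mem_uc.mpr e1
    · exact Win.mem_uc.mpr e2
  have h4 := Finset.card_le_card h3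
  rw [Finset.card_pair hne] at h4
  have := Win.uc_card_le H x
  omega

/-- the kinds of natural elements of level at least `j` -/
theorem Wn.cases (W : Wn r j w N b θ) {x : P} (hx : x ∉ unnat N) (hlx : j ≤ lev x) :
    Str w N θ x ∨ Row1 j w N θ x ∨ Dp j w N θ x := by
  have H := W.gt.H
  have HN := W.natSys
  have hxt : x ∈ N (topOf x) := HN.mem_iff.mpr ⟨hx, rfl⟩
  have hj := W.hj
  have hw := W.hw
  have hT := W.typ (topOf x)
  generalize ht : topOf x = t at hxt hT
  rcases hT with ⟨h1, h2, h3, h5⟩ | ⟨Nc, co, h0, h1, h2, h4⟩ |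
    ⟨Nc, co, h0, h1, h2, h3, h4, h5'⟩
  · left
    refine ⟨by rw [ht, h2], ?_⟩
    intro z hz h
    have h7 : z ∉ onlyB t := by
      rw [← h1]
      exact mem_unnat.mp hz t
    rw [mem_onlyB] at h7
    push Not at h7
    obtain ⟨s, hs1, hs2, hs3⟩ := h7
    have h7 := W.lt_lev hz
    have h8 : z < s := lt_of_le_of_ne hs2 (by rintro rfl; omega)
    exact hs3 (HN.top_eq hxt hs1 ((h s).mpr h8).le)
  · have e1 := h0.b_two
    have e2 := h0.b_le
    have hxN' : x ∈ natR Nc co := by rw [← h1]; exact hxt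
    by_cases hJ : x ∈ junk (fun _ => True) Nc co ∨ x ∈ junk (fun _ => True) Nc (swp co)
    · left
      refine ⟨?_, ?_⟩
      · rw [ht, h2]
        unfold thR
        rw [if_pos hJ]
      · intro z hz h
        refine mem_unnat.mp hz t ?_
        rw [h1, mem_natR]
        rcases hJ with h' | h'
        · exact Or.inr (Or.inl (junk_twin h' h))
        · exact Or.inr (Or.inr (junk_twin h' h))
    · have hxN : x ∈ Nc := by
        rw [mem_natR] at hxN'
        rcases hxN' with h | h | h
        · exact h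
        · exact absurd (Or.inl h) hJ
        · exact absurd (Or.inr h) hJ
      have hl := h0.chart.lev x hxN
      have hth := rect_th h0 hw hxN hJ (by omega)
      -- thresholds above `x`
      have hmono : 1 ≤ (co x).1 → 1 ≤ (co x).2 → ∀ y, x < y → θ (topOf y) y ≤ θ t x + 1 := by
        intro g1 g2 y hxy
        have hy := h0.chart.up x hxN y hxy.le
        have hyt : topOf y = t := by
          have := (W.up hx hxy.le).2
          rw [this, ht]
        have hy1 := not_junk_above h0.chart hxN g1 hxy.le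
        have hy2 := not_junk_above h0.chart.swap hxN g2 hxy.le
        have hle := (h0.chart.le_iff x hxN y hy).mp hxy.le
        have hle1 : (co y).1 ≤ (co x).1 := hle.1
        have hle2 : (co y).2 ≤ (co x).2 := hle.2
        rw [hyt, h2]
        unfold thR
        rw [if_neg (by rintro (h | h); exacts [hy1 h, hy2 h]), if_neg hJ]
        omega
      by_cases h7 : (co x).1 = 0 ∨ (co x).2 = 0
      · left
        refine ⟨?_, ?_⟩
        · rw [ht, h2]
          omega
        · intro z hz h
          rcases h7 with h7 | h7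
          · obtain ⟨u, hu, hcu⟩ := h0.chart.low x hxN (0, (co x).2 - 1)
              ⟨Nat.zero_le _, Nat.sub_le _ _⟩ trivial
            refine straight_twin H h0 h1 hxN hu ?_ ?_ ?_ hz h
            · rw [hcu]
              exact Or.inr ⟨by simp only; omega, by simp only; omega⟩
            · intro y hy hp
              rw [hcu]
              rcases hp with hp | hp
              · omega
              · exact Prod.ext (by simp only; omega) (by simp only; omega)
            · rw [hcu]
              exact Or.inl rfl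
          · obtain ⟨u, hu, hcu⟩ := h0.chart.low x hxN ((co x).1 - 1, 0)
              ⟨Nat.sub_le _ _, Nat.zero_le _⟩ trivial
            refine straight_twin H h0 h1 hxN hu ?_ ?_ ?_ hz h
            · rw [hcu]
              exact Or.inl ⟨by simp only; omega, by simp only; omega⟩
            · intro y hy hp
              rw [hcu]
              rcases hp with hp | hp
              · exact Prod.ext (by simp only; omega) (by simp only; omega)
              · omega
            · rw [hcu]
              exact Or.inr rfl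
      · by_cases h8 : (co x).1 = 1 ∨ (co x).2 = 1
        · right; left
          refine ⟨by omega, chart_inner_uc h0.chart H hxN (by omega) (by omega), ?_, ?_, ?_, ?_⟩
          · intro hlx z hz
            exact h4 x z (h0.chart.le_t x hxN) hlx
              (chart_inner_uc h0.chart H hxN (by omega) (by omega)) hz
          · rw [ht, h2]; omega
          · intro k hk hkx
            have := rect_nab h0.chart hxN (k := k) (by omega)
            omega
          · rw [ht]
            exact hmono (by omega) (by omega)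
        · right; right
          refine ⟨by omega, ?_, ?_, ?_, ?_⟩
          · rw [ht, h2]; omega
          · rw [ht, h2]; omega
          · rw [ht]
            exact hmono (by omega) (by omega)
          · intro hlj
            rw [ht, h2]
            exact rect_deep h0.chart hxN hj (by omega) hw (by omega) (by omega) hlj (by omega)
  · have hxN' : x ∈ natS Nc co := by rw [← h1]; exact hxt
    by_cases hJ : x ∈ junk (fun c => c.1 ≤ c.2) Nc co
    · left
      refine ⟨?_, ?_⟩
      · rw [ht, h2]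
        unfold thS
        rw [if_pos hJ]
      · intro z hz h
        refine mem_unnat.mp hz t ?_
        rw [h1, mem_natS]
        exact Or.inr (junk_twin hJ h)
    · have hxN : x ∈ Nc := by
        rw [mem_natS] at hxN'
        rcases hxN' with h | h
        · exact h
        · exact absurd h hJ
      have hl := h0.chart.lev x hxN
      have hm : (co x).1 ≤ (co x).2 := h0.chart.mem x hxN
      have hth := stair_th h0 hw h4 hxN hJ (by omega)
      have hmono : 1 ≤ (co x).1 → ∀ y, x < y → θ (topOf y) y ≤ θ t x + 1 := by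
        intro g1 y hxy
        have hy := h0.chart.up x hxN y hxy.le
        have hyt : topOf y = t := by
          have := (W.up hx hxy.le).2
          rw [this, ht]
        have hy1 := not_junk_above h0.chart hxN g1 hxy.le
        have hle := (h0.chart.le_iff x hxN y hy).mp hxy.le
        have hle1 : (co y).1 ≤ (co x).1 := hle.1
        have hle2 : (co y).2 ≤ (co x).2 := hle.2
        rw [hyt, h2]
        unfold thS
        rw [if_neg hy1, if_neg hJ]
        omega
      rcases Nat.lt_or_ge (co x).1 1 with h7 | h7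
      · left
        refine ⟨?_, ?_⟩
        · rw [ht, h2]
          omega
        · intro z hz h
          obtain ⟨u, hu, hcu⟩ := h0.chart.low x hxN (0, (co x).2 - 1)
            ⟨Nat.zero_le _, Nat.sub_le _ _⟩ (Nat.zero_le _)
          have g1 : x ⋖ u := by
            rw [chart_cov h0.chart H hxN hu, hcu]
            exact Or.inr ⟨by simp only; omega, by simp only; omega⟩
          have g2 : z ⋖ u := (cov_of_up h).mp g1
          have g3 := stair_pendant H h0 (by omega) h1 hz (x := u)
            (by rw [h1]; exact mem_natS.mpr (Or.inl hu)) g2 (by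
            intro y hy
            have hy1 : x ⋖ y := (cov_of_up h).mpr hy
            have hyN := h0.chart.up x hxN y hy1.le
            refine h0.chart.inj y hyN u hu ?_
            rw [hcu]
            rcases (chart_cov h0.chart H hxN hyN).mp hy1 with hp | hp
            · omega
            · exact Prod.ext (by simp only; omega) (by simp only; omega))
          have g4 := g3.2.2
          rw [hcu] at g4
          simp only at g4
          omega
      · rcases Nat.lt_or_ge (co x).1 2 with h8 | h8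
        · right; left
          have hd := stair_inner_uc h0.chart H hxN h7 (by omega)
          refine ⟨by omega, hd, ?_, ?_, ?_, ?_⟩
          · intro hlx z hz hon
            have := h5' x z (h0.chart.le_t x hxN) hlx hd hz hon
            omega
          · rw [ht, h2]; omega
          · intro k hk hkx
            have := stair_nab h0.chart hxN (k := k) (by omega)
            omega
          · rw [ht]
            exact hmono h7
        · right; right
          refine ⟨by omega, ?_, ?_, ?_, ?_⟩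
          · rw [ht, h2]; omega
          · rw [ht, h2]; omega
          · rw [ht]
            exact hmono h7
          · intro hlj
            rw [ht, h2]
            exact stair_deep h0.chart hxN hj (by omega) h8 hlj (by omega)

end Pool.Agent.GaussPoset

end

/-! From `Pool.Agent.W_448s7_h5.SevM` -/

section

/-!
# The windows of S7: twins of natural elements, the exact far window theorem (MP_448cb3_co)
-/

namespace Pool.Agent.GaussPoset

set_option linter.unusedSectionVars false

open Polynomial Finset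

universe u

variable {P : Type u} [Fintype P] [PartialOrder P] [DecidableEq P] {r j w : ℕ}
  {N : Tops P → Finset P} {b : Tops P → ℕ} {θ : Tops P → P → ℕ}

lemma tcst_cst {i : ℕ} {θ : P → ℕ} {t : P × P} (H : Twn i θ t) :
    tcst i θ t = cst i (fun _ => θ t.1 + 1) t.1 + θ t.1 := by
  classical
  rw [tcst_eq H]
  have h1 : cst i (fun _ => θ t.1 + 1) t.1 =
      ∑ y, (if t.1 < y then min (θ t.1 + 1) (lev y - i) else 0) + (θ t.1 + 1) := by
    unfold cst
    rw [← Finset.sum_erase_add univ _ (mem_univ t.1),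
      ← Finset.sum_erase_add univ (fun y => if t.1 < y then min (θ t.1 + 1) (lev y - i) else 0)
        (mem_univ t.1), if_neg (lt_irrefl _), add_zero]
    congr 1
    · refine Finset.sum_congr rfl fun y hy => ?_
      have hne := (mem_erase.mp hy).1
      unfold ez
      by_cases h4 : t.1 < y
      · rw [if_pos h4, if_pos h4.le]
      · rw [if_neg h4, if_neg]
        intro h5
        exact h4 (lt_of_le_of_ne h5 (Ne.symm hne))
    · unfold ez
      rw [if_pos le_rfl]
      exact Nat.min_eq_left H.lt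
  rw [h1]
  omega

/-- full cost with two elements on every level `w ≤ k < lev x` -/
lemma ful_two {x : P} {a : ℕ} (hl : lev x = w + a) (h2 : ∀ k, w < k → k < lev x → nab k x = 2) :
    ful w x = a ^ 2 := by
  have h3 : cst w (fun _ => a) x = ful w x := cst_eq_ful (h := fun _ => a) (by omega)
  rw [← h3, cst_shift hl, Finset.sum_range_succ, ← hl, nab_self, mul_one, Nat.min_self]
  have h4 : ∑ n ∈ range a, min a n * nab (w + n) x = (∑ n ∈ range a, n) * 2 := by
    rw [Finset.sum_mul]
    refine Finset.sum_congr rfl fun n hn => ?_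
    rw [mem_range] at hn
    rw [Nat.min_eq_right hn.le]
    rcases Nat.eq_zero_or_pos n with h0 | h0
    · subst h0; simp
    · rw [h2 (w + n) (by omega) (by omega)]
  rw [h4, Finset.sum_range_id_mul_two]
  rcases Nat.eq_zero_or_pos a with h0 | h0
  · subst h0; rfl
  · obtain ⟨c, rfl⟩ : ∃ c, a = c + 1 := ⟨a - 1, by omega⟩
    rw [Nat.add_sub_cancel]
    ring

open Classical in
/-- the unnatural twins of natural elements -/
noncomputable def twA (N : Tops P → Finset P) : Finset P :=
  (unnat N).filter (fun z => ∃ y, y ∉ unnat N ∧ ∀ w, y < w ↔ z < w)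

lemma mem_twA {z : P} : z ∈ twA N ↔ z ∈ unnat N ∧ ∃ y, y ∉ unnat N ∧ ∀ w, y < w ↔ z < w := by
  classical
  unfold twA
  rw [mem_filter]

theorem Wn.twSys (W : Wn r j w N b θ) : TwSys (unnat N) (twA N) topOf (twT N) where
  sub := fun x hx => (mem_twA.mp hx).1
  nat := fun x hx => (twT_spec (mem_twA.mp hx).2).1
  up := fun x hx => (twT_spec (mem_twA.mp hx).2).2
  inj := by
    intro x hx x' hx' h
    have h1 := mem_twA.mp hx
    have h2 := mem_twA.mp hx'
    have h3 := twT_spec h1.2
    have h4 := twT_spec h2.2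
    have hlx := W.lt_lev h1.1
    by_contra hne
    have h5 : x < (topOf x : P) := lt_of_le_of_ne (le_topOf x) (by
      intro h
      have := (topOf x).2
      rw [← h] at this
      omega)
    obtain ⟨u, hu, -⟩ := Hul.exists_cov h5
    have hu' : twT N x ⋖ u := (cov_of_up h3.2).mpr hu
    have hu'' : x' ⋖ u := by
      rw [h] at hu'
      exact (cov_of_up h4.2).mp hu'
    refine Win.dc_three W.gt.H hu hu'' hu' hne ?_ ?_
    · intro h6
      exact h3.1 (h6 ▸ h1.1)
    · intro h6
      rw [h] at h6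
      exact h4.1 (h6 ▸ h2.1)
  anti := by
    intro x hx y hy h
    have h1 := mem_twA.mp hx
    have h2 := mem_twA.mp hy
    have h3 := twT_spec h2.2
    exact (W.up h3.1 ((h3.2 x).mpr h).le).1 h1.1
  cp := by
    intro x hx
    have h1 := mem_twA.mp hx
    have h3 := twT_spec h1.2
    have hlx := W.lt_lev h1.1
    have h5 : x < (topOf x : P) := lt_of_le_of_ne (le_topOf x) (by
      intro h
      have := (topOf x).2
      rw [← h] at this
      omega)
    have h6 : twT N x ∈ N (topOf (twT N x)) := W.natSys.mem_iff.mpr ⟨h3.1, rfl⟩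
    exact (Subtype.ext (W.natSys.top_eq h6 (topOf x).2 ((h3.2 _).mpr h5).le)).symm

/-- twins are not straight -/
lemma Wn.tw_cases (W : Wn r j w N b θ) {x : P} (hx : x ∈ twA N) :
    j < lev (twT N x) ∧ (Row1 j w N θ (twT N x) ∨ Dp j w N θ (twT N x)) := by
  have h1 := mem_twA.mp hx
  have h3 := twT_spec h1.2
  have h4 := W.lt_lev h1.1
  have h5 := W.twSys.lev hx
  refine ⟨by omega, ?_⟩
  rcases W.cases h3.1 (by omega) with h | h
  · exact absurd h3.2 (h.tw x h1.1)
  · exact h

/-- the thresholds of natural elements and twins -/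
noncomputable abbrev thA (N : Tops P → Finset P) (θ : Tops P → P → ℕ) : P → ℕ :=
  thX (twA N) (twT N) (fun x => θ (topOf x) x)

lemma Wn.not_tw (W : Wn r j w N b θ) {x : P} (hx : x ∉ unnat N) : x ∉ twA N :=
  fun h => hx (mem_twA.mp h).1

lemma Wn.thA_nat (W : Wn r j w N b θ) {x : P} (hx : x ∉ unnat N) :
    thA N θ x = θ (topOf x) x := thX_not (W.not_tw hx)

lemma Wn.thA_tw (W : Wn r j w N b θ) {x : P} (hx : x ∈ twA N) :
    thA N θ x = θ (topOf (twT N x)) (twT N x) := thX_of hx

theorem Wn.twn (W : Wn r j w N b θ) {x : P} (hx : x ∈ twA N) :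
    Twn w (thA N θ) (twT N x, x) := by
  have T := W.twSys
  have h1 := mem_twA.mp hx
  have h3 := twT_spec h1.2
  obtain ⟨hl, hk⟩ := W.tw_cases hx
  have hj := W.hj
  have hw := W.hw
  have e1 : thA N θ (twT N x) = θ (topOf (twT N x)) (twT N x) := W.thA_nat h3.1
  have e2 := W.thA_tw hx
  have hm : ∀ y, twT N x < y → θ (topOf y) y ≤ θ (topOf (twT N x)) (twT N x) + 1 := by
    rcases hk with h | h
    · exact h.mono
    · exact h.mono
  have ht : θ (topOf (twT N x)) (twT N x) + 1 ≤ lev (twT N x) - w ∧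
      lev (twT N x) - w ≤ θ (topOf (twT N x)) (twT N x) + 3 := by
    rcases hk with h | h
    · have := h.th
      omega
    · exact ⟨h.th, h.th3⟩
  refine ⟨?_, h3.2, ?_, ?_, ?_, ?_⟩
  · intro h
    simp only at h
    exact h3.1 (by rw [h]; exact h1.1)
  · simp only
    rw [e1]
    omega
  · simp only
    rw [e1, e2]
  · simp only
    rw [e1]
    exact ht.1
  · intro y hy
    simp only at hy ⊢
    rw [e1, W.thA_nat (W.up h3.1 hy.le).1]
    exact hm y hy

/-- cost of the twins of cells of row `1` -/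
lemma Wn.tcst_row1 (W : Wn r j w N b θ) {x : P} (hx : x ∈ twA N)
    (hk : Row1 j w N θ (twT N x)) {a : ℕ} (ha : lev x = w + a) :
    tcst w (thA N θ) (twT N x, x) + 1 = a ^ 2 + a := by
  have h1 := mem_twA.mp hx
  have h3 := twT_spec h1.2
  have hl := W.twSys.lev hx
  have e1 : thA N θ (twT N x) = θ (topOf (twT N x)) (twT N x) := W.thA_nat h3.1
  have h4 := hk.th
  have h5 : thA N θ (twT N x) + 1 = a := by omega
  rw [tcst_cst (W.twn hx)]
  simp only
  rw [h5, cst_eq_ful (by omega), ful_two (a := a) (by omega)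
    fun k hk1 hk2 => hk.nab k hk1.le hk2]
  omega

/-- cost of the twins of deep cells -/
lemma Wn.tcst_deep (W : Wn r j w N b θ) {x : P} (hx : x ∈ twA N)
    (hk : Dp j w N θ (twT N x)) : cap j w < tcst w (thA N θ) (twT N x, x) := by
  have h1 := mem_twA.mp hx
  have h3 := twT_spec h1.2
  have hl := (W.tw_cases hx).1
  have e1 : thA N θ (twT N x) = θ (topOf (twT N x)) (twT N x) := W.thA_nat h3.1
  rw [tcst_cst (W.twn hx)]
  have h4 := hk.cost (by omega)
  simp only
  rw [e1]
  omega

/-- the far set -/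
noncomputable abbrev rA (N : Tops P → Finset P) : Finset P := unnat N \ twA N

/-- the labels -/
noncomputable abbrev hA (N : Tops P → Finset P) (θ : Tops P → P → ℕ) : P → ℕ :=
  hcan (rA N) (thA N θ)

theorem Wn.farX (W : Wn r j w N b θ) (n0 : ℕ)
    (hcost : ∀ x ∈ twA N, n0 ≤ tcst w (thA N θ) (twT N x, x)) :
    FarX P w (rA N) (lv P w).card (hA N θ) (thA N θ) (pairsX (twA N) (twT N)) n0 := by
  choose B hB using fun t => (W.top t).natTop W.gt.H.gradedBelow
  have h := farX_of_tops W.gt.H.gradedBelow hB W.twSys n0 (fun x hx => W.twn hx) hcost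
  rw [W.sum_b] at h
  exact h

lemma mem_rA {x : P} : x ∈ rA N ↔ x ∈ unnat N ∧ x ∉ twA N := mem_sdiff

lemma not_mem_rA {x : P} : x ∉ rA N ↔ x ∉ unnat N ∨ x ∈ twA N := by
  classical
  rw [mem_rA]
  tauto

end Pool.Agent.GaussPoset

end

/-! From `Pool.Agent.W_448s7_h5.SevN` -/

section

/-!
# The windows of S7: deep covers are expensive, cheapest elements are flat (MP_448cb3_co)
-/

namespace Pool.Agent.GaussPoset

set_option linter.unusedSectionVars false

open Polynomial Finset

universe u

variable {P : Type u} [Fintype P] [PartialOrder P] [DecidableEq P] {r j w : ℕ}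
  {N : Tops P → Finset P} {b : Tops P → ℕ} {θ : Tops P → P → ℕ}

open Classical in
/-- the natural element of a natural element or twin -/
noncomputable def bs (N : Tops P → Finset P) (x : P) : P := if x ∈ twA N then twT N x else x

/-- properties of the natural element `y` of `x` -/
structure Bs (N : Tops P → Finset P) (θ : Tops P → P → ℕ) (x y : P) : Prop where
  nat : y ∉ unnat N
  lev : Pool.Agent.GaussPoset.lev y = Pool.Agent.GaussPoset.lev x
  th : thA N θ x = θ (topOf y) y
  nab : ∀ k, Pool.Agent.GaussPoset.nab k y = Pool.Agent.GaussPoset.nab k x ∨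
    Pool.Agent.GaussPoset.lev x ≤ k
  up : ∀ v, y < v ↔ x < v

lemma nab_congr_up {x y : P} (h : ∀ v, y < v ↔ x < v) {k : ℕ} (hk : k < lev x) :
    nab k y = nab k x := by
  have hl := lev_eq_of_up h
  exact le_antisymm (nab_le_of_up h (by omega)) (nab_le_of_up (fun v => (h v).symm) hk)

lemma Wn.bs (W : Wn r j w N b θ) {x : P} (hx : x ∉ rA N) : Bs N θ x (bs N x) := by
  classical
  unfold GaussPoset.bs
  rcases not_mem_rA.mp hx with h | h
  · rw [if_neg (W.not_tw h)]
    exact ⟨h, rfl, W.thA_nat h, fun k => Or.inl rfl, fun v => Iff.rfl⟩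
  · rw [if_pos h]
    have h1 := W.twSys.up x h
    refine ⟨W.twSys.nat x h, W.twSys.lev h, W.thA_tw h, fun k => ?_, h1⟩
    rcases Nat.lt_or_ge k (Pool.Agent.GaussPoset.lev x) with h2 | h2
    · exact Or.inl (nab_congr_up h1 h2)
    · exact Or.inr h2

lemma cst_const_congr {i h : ℕ} {x y : P} (hl : lev y = lev x)
    (hn : ∀ k, nab k y = nab k x ∨ lev x ≤ k) : cst i (fun _ => h) y = cst i (fun _ => h) x := by
  rw [cst_eq, cst_eq, hl, Finset.sum_range_succ, Finset.sum_range_succ, nab_self, ← hl, nab_self]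
  congr 1
  refine Finset.sum_congr rfl fun k hk => ?_
  rw [mem_range] at hk
  rcases hn k with h1 | h1
  · rw [h1]
  · omega

lemma cst_ge_cover {i : ℕ} {h : P → ℕ} {z x : P} (H : GradedBelow P) (hzx : z ⋖ x) :
    cst i (fun _ => h z) x + min (h z) (lev z - i) ≤ cst i h z := by
  have h1 := H.lev_covBy hzx
  rw [cst_eq, cst_eq, h1, Finset.sum_range_succ _ (lev x + 1), ← h1, nab_self, mul_one]
  refine Nat.add_le_add_right ?_ _
  exact Finset.sum_le_sum fun k _ => Nat.mul_le_mul_left _ (nab_mono hzx.1.le)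

lemma Wn.hA_le (W : Wn r j w N b θ) {z x : P} (hx : x ∉ rA N) (hzx : z ⋖ x) :
    hA N θ z ≤ θ (topOf (GaussPoset.bs N x)) (GaussPoset.bs N x) + 1 := by
  rw [← (W.bs hx).th]
  exact hcan_le hx hzx

lemma Wn.hA_spec (W : Wn r j w N b θ) {z : P} (hz : z ∈ bdR (rA N)) :
    ∃ x, x ∉ rA N ∧ z ⋖ x ∧
      hA N θ z = θ (topOf (GaussPoset.bs N x)) (GaussPoset.bs N x) + 1 := by
  obtain ⟨x, h1, h2, h3⟩ := hcan_spec (θ := thA N θ) hz
  refine ⟨x, h1, h2, ?_⟩
  rw [← (W.bs h1).th]
  exact h3

lemma Wn.bd_lev (W : Wn r j w N b θ) {z : P} (hz : z ∈ bdR (rA N)) : j < lev z :=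
  W.lt_lev (mem_rA.mp (mem_bdR.mp hz).1).1

/-- a boundary element with a deep cover of level greater than `j` is expensive -/
theorem Wn.deep_cover (W : Wn r j w N b θ) {z : P} (hz : z ∈ bdR (rA N)) {x : P}
    (hx : x ∉ rA N) (hzx : z ⋖ x) (hlx : j + 1 ≤ lev x) (hD : Dp j w N θ (GaussPoset.bs N x)) :
    cap j w + 1 < cst w (hA N θ) z := by
  have H := W.gt.H.gradedBelow
  -- a deep cover which defines the label
  obtain ⟨x1, h1, h2, h3, h4⟩ : ∃ x1, x1 ∉ rA N ∧ z ⋖ x1 ∧ Dp j w N θ (GaussPoset.bs N x1) ∧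
      hA N θ z = θ (topOf (GaussPoset.bs N x1)) (GaussPoset.bs N x1) + 1 := by
    by_cases he : hA N θ z = θ (topOf (GaussPoset.bs N x)) (GaussPoset.bs N x) + 1
    · exact ⟨x, hx, hzx, hD, he⟩
    · obtain ⟨x0, g1, g2, g3⟩ := W.hA_spec hz
      refine ⟨x0, g1, g2, ?_, g3⟩
      have g4 := W.hA_le hx hzx
      have g5 := hD.th
      have g6 := W.bs hx
      have g7 := W.bs g1
      have e1 := H.lev_covBy hzx
      have e2 := H.lev_covBy g2
      have e3 := g6.lev
      have e4 := g7.lev
      rcases W.cases g7.nat (by omega) with h | h | h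
      · have := h.th
        omega
      · have := h.th
        omega
      · exact h
  have g7 := W.bs h1
  have e1 := H.lev_covBy hzx
  have e2 := H.lev_covBy h2
  have e4 := g7.lev
  have h5 := h3.cost (by omega)
  have h6 := cst_ge_cover (i := w) (h := hA N θ) H h2
  rw [h4] at h6
  rw [← cst_const_congr g7.lev g7.nab] at h6
  have h7 := h3.th
  rw [Nat.min_eq_left (by omega)] at h6
  omega

/-- flat elements: all covers are natural and straight or in row `1` -/
def Flat (j w : ℕ) (N : Tops P → Finset P) (θ : Tops P → P → ℕ) (z : P) : Prop :=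
  ∀ x, z ⋖ x → x ∉ unnat N ∧ (Str w N θ x ∨ Row1 j w N θ x)

/-- the minimality hypotheses at window `w` for the value `v` -/
structure Mn (j w : ℕ) (N : Tops P → Finset P) (θ : Tops P → P → ℕ) (v : ℕ) : Prop where
  bd : ∀ z ∈ bdR (rA N), v ≤ cst w (hA N θ) z
  tw : ∀ x ∈ twA N, v ≤ tcst w (thA N θ) (twT N x, x)

/-- a cheapest boundary element without deep covers is flat -/
theorem Wn.flat (W : Wn r j w N b θ) {v : ℕ} (M : Mn j w N θ v) {z : P} (hz : z ∈ bdR (rA N))
    (hc : cst w (hA N θ) z = v)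
    (hnd : ∀ x, x ∉ rA N → z ⋖ x → ¬ Dp j w N θ (GaussPoset.bs N x)) :
    Flat j w N θ z ∧ lev z ≤ hA N θ z + 1 + w := by
  have H := W.gt.H.gradedBelow
  have hj := W.hj
  have hw := W.hw
  have hlz := W.bd_lev hz
  have hkd : ∀ x, x ∉ rA N → z ⋖ x → Str w N θ (GaussPoset.bs N x) ∨
      Row1 j w N θ (GaussPoset.bs N x) := by
    intro x hx hzx
    have g6 := W.bs hx
    have e1 := H.lev_covBy hzx
    have e3 := g6.lev
    rcases W.cases g6.nat (by omega) with h | h | h
    · exact Or.inl h
    · exact Or.inr h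
    · exact absurd h (hnd x hx hzx)
  have hge : lev z ≤ hA N θ z + 1 + w := by
    obtain ⟨x0, g1, g2, g3⟩ := W.hA_spec hz
    have g7 := W.bs g1
    have e2 := H.lev_covBy g2
    have e4 := g7.lev
    rcases hkd x0 g1 g2 with h | h
    · have := h.th
      omega
    · have := h.th
      omega
  refine ⟨?_, hge⟩
  intro x hzx
  have hxR : x ∉ rA N := by
    refine no_cover_of_min H (fun x hx => ?_) M.bd (fun z hz => ?_) hz hc (by omega) hzx
    · have := W.lt_lev (mem_rA.mp hx).1
      omega
    · obtain ⟨x0, g1, g2, g3⟩ := W.hA_spec hz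
      omega
  have hxt : x ∉ twA N := by
    intro hxt
    have e1 := H.lev_covBy hzx
    obtain ⟨g1, g2⟩ := W.tw_cases hxt
    have hbs : GaussPoset.bs N x = twT N x := by
      unfold GaussPoset.bs
      rw [if_pos hxt]
    have g6 := W.bs hxR
    rw [hbs] at g6
    have hR : Row1 j w N θ (twT N x) := by
      rcases g2 with h | h
      · exact h
      · exact absurd (hbs ▸ h) (hnd x hxR hzx)
    obtain ⟨a, ha⟩ : ∃ a, lev x = w + a := ⟨lev x - w, by have := g6.lev; omega⟩
    have g7 := W.tcst_row1 hxt hR ha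
    have g8 := M.tw x hxt
    have g9 := cst_step (i := w) (h := hA N θ) H hzx (by omega)
    have g10 : ful w x = a ^ 2 := ful_two ha (fun k hk1 hk2 => by
      have := hR.nab k hk1.le (by rw [g6.lev]; exact hk2)
      rcases g6.nab k with h | h
      · rw [← h]; exact this
      · omega)
    rw [g10, hc] at g9
    have : a ≤ min (hA N θ z) (lev z - w) := by
      rw [Nat.le_min]
      omega
    omega
  rcases not_mem_rA.mp hxR with h | h
  · have hbs : GaussPoset.bs N x = x := by
      unfold GaussPoset.bs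
      rw [if_neg hxt]
    have := hkd x hxR hzx
    rw [hbs] at this
    exact ⟨h, this⟩
  · exact absurd h hxt

end Pool.Agent.GaussPoset

end

/-! From `Pool.Agent.W_448s7_h5.SevO` -/

section

/-!
# The windows of S7: neighbouring covers, pendants of row `1` (MP_448cb3_co)
-/

namespace Pool.Agent.GaussPoset

set_option linter.unusedSectionVars false

open Polynomial Finset

universe u

variable {P : Type u} [Fintype P] [PartialOrder P] [DecidableEq P] {r j w : ℕ}
  {N : Tops P → Finset P} {b : Tops P → ℕ} {θ : Tops P → P → ℕ}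

section Chart

variable {t : P} {S : ℕ × ℕ → Prop} {Nc : Finset P} {co : P → ℕ × ℕ}

/-- the exact covers of an element with two covers -/
lemma uc_two_of (H : Gr P r) {z x x' : P} (hzx : z ⋖ x) (hzx' : z ⋖ x') (hne : x ≠ x') :
    ∀ y, z ⋖ y → y = x ∨ y = x' := by
  intro y hy
  by_contra hcon
  push Not at hcon
  exact Win.uc_three H hy hzx hzx' hcon.1 hcon.2 hne

/-- twins from equal pairs of covers -/
lemma twin_of_pair (H : Gr P r) {y z x x' : P} (hyx : y ⋖ x) (hyx' : y ⋖ x') (hzx : z ⋖ x)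
    (hzx' : z ⋖ x') (hne : x ≠ x') : ∀ v, y < v ↔ z < v := by
  refine up_of_cov fun v => ?_
  constructor
  · intro h
    rcases uc_two_of H hyx hyx' hne v h with h1 | h1
    · rw [h1]; exact hzx
    · rw [h1]; exact hzx'
  · intro h
    rcases uc_two_of H hzx hzx' hne v h with h1 | h1
    · rw [h1]; exact hyx
    · rw [h1]; exact hyx'

/-- an element below two neighbours of a maximal chart (or its junk) has a twin in the chart or is
junk -/
theorem adj_core (hS : RowT S) (hSq : ∀ s c, S (s, c) → S (s + 1, c + 1)) (C : Chart t S Nc co)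
    (Mx : MaxChart S Nc co) (H : Gr P r) (h1 : ∃ y ∈ Nc, 1 ≤ (co y).1) {z x x' p : P}
    (hzN : z ∉ Nc) (hx : x ∈ Nc ∨ x ∈ junk S Nc co) (hx' : x' ∈ Nc ∨ x' ∈ junk S Nc co)
    (hzx : z ⋖ x) (hzx' : z ⋖ x') (hne : x ≠ x') (hp : x ⋖ p) (hp' : x' ⋖ p) :
    (∃ y ∈ Nc, ∀ v, y < v ↔ z < v) ∨ z ∈ junk S Nc co := by
  have hl : lev x = lev x' := by
    have e1 := (H.covBy_iff.mp hzx).2
    have e2 := (H.covBy_iff.mp hzx').2
    omega
  have huni := uc_two_of H hzx hzx' hne
  have side : ∀ (x x' : P), x ∈ junk S Nc co → (x' ∈ Nc ∨ x' ∈ junk S Nc co) → x ⋖ p → x' ⋖ p →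
      Side S Nc co x' := by
    intro x x' hx hx' hp hp'
    rcases hx' with h | h
    · obtain ⟨x1, H1, hj⟩ := mem_junk.mp hx
      have h2 : p ≤ x1 := by
        rcases (mem_jset.mp hj).2 p hp.1.le with h3 | h3
        · exact h3
        · rcases eq_or_lt_of_le h3 with h4 | h4
          · rw [h4]
          · exact absurd h4 (hp.2 (mem_jset.mp hj).1)
      exact Or.inl (mem_junk.mpr ⟨x1, H1, (H1.tail C h (hp'.1.trans_le h2)).2⟩)
    · exact Or.inl h
  by_cases hj : x ∈ junk S Nc co
  · right
    exact junk_of_sides hS C h1 (Or.inl hj) (side x x' hj hx' hp hp') hne hl huni hzx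
  · by_cases hj' : x' ∈ junk S Nc co
    · right
      exact junk_of_sides hS C h1 (side x' x hj' hx hp' hp) (Or.inl hj') hne hl huni hzx
    · left
      have hxN : x ∈ Nc := hx.resolve_right hj
      have hxN' : x' ∈ Nc := hx'.resolve_right hj'
      have hpN := C.up x hxN p hp.1.le
      have f1 := (chart_cov C H hxN hpN).mp hp
      have f2 := (chart_cov C H hxN' hpN).mp hp'
      have hcne : co x ≠ co x' := fun h => hne (C.inj x hxN x' hxN' h)
      have hSp := C.mem p hpN
      have hSp' : S ((co p).1 + 1, (co p).2 + 1) := hSq _ _ hSp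
      rcases f1 with f1 | f1 <;> rcases f2 with f2 | f2
      · exact absurd (Prod.ext (by omega) (by omega)) hcne
      · obtain ⟨y, hy, -, hyx, hyx', -⟩ := max_pair C Mx H hzN hxN hxN' hzx hzx'
          (s := (co p).1) (c := (co p).2) (Prod.ext f1.1 f1.2) (Prod.ext f2.1 f2.2) hSp'
        exact ⟨y, hy, twin_of_pair H hyx hyx' hzx hzx' hne⟩
      · obtain ⟨y, hy, -, hyx', hyx, -⟩ := max_pair C Mx H hzN hxN' hxN hzx' hzx
          (s := (co p).1) (c := (co p).2) (Prod.ext f2.1 f2.2) (Prod.ext f1.1 f1.2) hSp'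
        exact ⟨y, hy, twin_of_pair H hyx hyx' hzx hzx' hne⟩
      · exact absurd (Prod.ext (by omega) (by omega)) hcne

end Chart

/-- a pendant has a twin if its cover has a natural pendant -/
lemma twin_of_single {y z x : P} (hyx : ∀ v, y ⋖ v ↔ v = x) (hzx : ∀ v, z ⋖ v ↔ v = x) :
    ∀ v, y < v ↔ z < v :=
  up_of_cov fun v => by rw [hyx, hzx]

/-- an element of the far set is not below two neighbours with a common cover -/
theorem Wn.no_adj (W : Wn r j w N b θ) {z x x' p : P} (hz : z ∈ rA N) (hx : x ∉ unnat N)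
    (hx' : x' ∉ unnat N) (hzx : z ⋖ x) (hzx' : z ⋖ x') (hne : x ≠ x') (hp : x ⋖ p)
    (hp' : x' ⋖ p) : False := by
  have H := W.gt.H
  have HN := W.natSys
  have hzu := (mem_rA.mp hz).1
  have hzt : ∀ y, y ∉ unnat N → ¬ ∀ v, y < v ↔ z < v := fun y hy h =>
    (mem_rA.mp hz).2 (mem_twA.mpr ⟨hzu, y, hy, h⟩)
  have t1 := (W.up hx hp.1.le).2
  have t2 := (W.up hx' hp'.1.le).2
  have huni := uc_two_of H hzx hzx' hne
  have hxt : x ∈ N (topOf x) := HN.mem_iff.mpr ⟨hx, rfl⟩
  have hxt' : x' ∈ N (topOf x) := HN.mem_iff.mpr ⟨hx', by rw [← t2, t1]⟩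
  have hzN := mem_unnat.mp hzu (topOf x)
  have hnat : ∀ y ∈ N (topOf x), y ∉ unnat N := fun y hy => (HN.mem_iff.mp hy).1
  generalize topOf x = t at hxt hxt' hzN hnat
  rcases W.typ t with ⟨h1, h2, h3, h5⟩ | ⟨Nc, co, h0, h1, h2, h4⟩ |
    ⟨Nc, co, h0, h1, h2, h3, h4, h5'⟩
  · apply hzN
    rw [h1] at hxt hxt' ⊢
    rw [mem_onlyB] at hxt hxt' ⊢
    intro s hs hzs
    have hzs' : z < s := lt_of_le_of_ne hzs (by
      intro h
      have := lev_strictAnti hzx.1
      rw [h] at this
      omega)
    obtain ⟨v, hv, hvs⟩ := Hul.exists_cov hzs'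
    rcases huni v hv with h | h
    · exact hxt s hs (h ▸ hvs)
    · exact hxt' s hs (h ▸ hvs)
  · rw [h1] at hxt hxt' hzN
    rw [mem_natR] at hxt hxt'
    have hzN1 : z ∉ Nc := fun h => hzN (mem_natR.mpr (Or.inl h))
    have hzN2 : z ∉ junk (fun _ => True) Nc co := fun h => hzN (mem_natR.mpr (Or.inr (Or.inl h)))
    have hzN3 : z ∉ junk (fun _ => True) Nc (swp co) :=
      fun h => hzN (mem_natR.mpr (Or.inr (Or.inr h)))
    have g1 := h0.one1
    have g2 := h0.one2
    -- both in one orientation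
    have fin1 : (x ∈ Nc ∨ x ∈ junk (fun _ => True) Nc co) →
        (x' ∈ Nc ∨ x' ∈ junk (fun _ => True) Nc co) → False := by
      intro e1 e2
      rcases adj_core rowT_true (fun _ _ _ => trivial) h0.chart h0.max H g1 hzN1 e1 e2 hzx hzx' hne
        hp hp' with ⟨y, hy, h⟩ | h
      · exact hzt y (hnat y (by rw [h1]; exact mem_natR.mpr (Or.inl hy))) h
      · exact hzN2 h
    have fin2 : (x ∈ Nc ∨ x ∈ junk (fun _ => True) Nc (swp co)) →
        (x' ∈ Nc ∨ x' ∈ junk (fun _ => True) Nc (swp co)) → False := by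
      intro e1 e2
      rcases adj_core rowT_true (fun _ _ _ => trivial) h0.chart.swap h0.max.swap H g2 hzN1 e1 e2
        hzx hzx' hne hp hp' with ⟨y, hy, h⟩ | h
      · exact hzt y (hnat y (by rw [h1]; exact mem_natR.mpr (Or.inl hy))) h
      · exact hzN3 h
    -- no common cover across
    have across : ∀ (a c : P), a ∈ junk (fun _ => True) Nc co →
        c ∈ junk (fun _ => True) Nc (swp co) → a ⋖ p → c ⋖ p → False := by
      intro a c ha hc hap hcp
      obtain ⟨x1, H1, hj⟩ := mem_junk.mp ha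
      obtain ⟨x2, H2, hj2⟩ := mem_junk.mp hc
      have h2 : p ≤ x1 := by
        rcases (mem_jset.mp hj).2 p hap.1.le with h3 | h3
        · exact h3
        · rcases eq_or_lt_of_le h3 with h4 | h4
          · rw [h4]
          · exact absurd h4 (hap.2 (mem_jset.mp hj).1)
      exact junk_cross h0.chart g1 g2 H1 H2 hj2 (hcp.1.trans_le h2)
    rcases hxt with e | e | e
    · rcases hxt' with e' | e' | e'
      · exact fin1 (Or.inl e) (Or.inl e')
      · exact fin1 (Or.inl e) (Or.inr e')
      · exact fin2 (Or.inl e) (Or.inr e')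
    · rcases hxt' with e' | e' | e'
      · exact fin1 (Or.inr e) (Or.inl e')
      · exact fin1 (Or.inr e) (Or.inr e')
      · exact across x x' e e' hp hp'
    · rcases hxt' with e' | e' | e'
      · exact fin2 (Or.inr e) (Or.inl e')
      · exact across x' x e' e hp' hp
      · exact fin2 (Or.inr e) (Or.inr e')
  · rw [h1] at hxt hxt' hzN
    rw [mem_natS] at hxt hxt'
    have hzN1 : z ∉ Nc := fun h => hzN (mem_natS.mpr (Or.inl h))
    have hzN2 : z ∉ junk (fun c => c.1 ≤ c.2) Nc co := fun h => hzN (mem_natS.mpr (Or.inr h))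
    rcases adj_core rowT_shift (fun s c h => by simpa using h) h0.chart h0.max H (h0.one1 h4) hzN1
      hxt hxt' hzx hzx' hne hp hp' with ⟨y, hy, h⟩ | h
    · exact hzt y (hnat y (by rw [h1]; exact mem_natS.mpr (Or.inl hy))) h
    · exact hzN2 h

end Pool.Agent.GaussPoset

end

/-! From `Pool.Agent.W_448s7_h5.SevP` -/

section

/-!
# The windows of S7: elements below a cell of row `1` (MP_448cb3_co)
-/

namespace Pool.Agent.GaussPoset

set_option linter.unusedSectionVars false

open Polynomial Finset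

universe u

variable {P : Type u} [Fintype P] [PartialOrder P] [DecidableEq P] {r j w : ℕ}
  {N : Tops P → Finset P} {b : Tops P → ℕ} {θ : Tops P → P → ℕ}

/-- ancestors of an element with one cover -/
lemma nab_only {z x : P} (honly : ∀ y, z ⋖ y → y = x) (hzx : z ⋖ x) {k : ℕ} (hk : k < lev z) :
    nab k z = nab k x := by
  classical
  unfold nab
  congr 1
  ext y
  rw [mem_filter, mem_filter, mem_lv]
  refine and_congr_right fun hy => ⟨fun h => ?_, fun h => hzx.1.le.trans h⟩
  exact anc_of_only honly (lt_of_le_of_ne h (by rintro rfl; omega))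

/-- straight elements of a rectangle-like component are on a side -/
lemma rect_str {t : Tops P} {c : ℕ} {Nc : Finset P} {co : P → ℕ × ℕ} (R : RectNat j w t c Nc co)
    (hw : w ≤ 3) {x : P} (hx : x ∈ natR Nc co) (hl : 17 ≤ lev x)
    (hth : thR w c Nc co x = lev x - w) :
    Side (fun _ => True) Nc co x ∨ Side (fun _ => True) Nc (swp co) x := by
  have e1 := R.b_two
  have e2 := R.b_le
  by_cases hJ : x ∈ junk (fun _ => True) Nc co ∨ x ∈ junk (fun _ => True) Nc (swp co)
  · rcases hJ with h | h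
    · exact Or.inl (Or.inl h)
    · exact Or.inr (Or.inl h)
  · have hxN : x ∈ Nc := by
      rw [mem_natR] at hx
      rcases hx with h | h | h
      · exact h
      · exact absurd (Or.inl h) hJ
      · exact absurd (Or.inr h) hJ
    have h1 := rect_th R hw hxN hJ hl
    have h2 : (co x).1 = 0 ∨ (co x).2 = 0 := by omega
    rcases h2 with h | h
    · exact Or.inl (Or.inr ⟨hxN, h⟩)
    · exact Or.inr (Or.inr ⟨hxN, h⟩)

/-- row 1 of a rectangle-like component -/
lemma rect_row1 {t : Tops P} {c : ℕ} {Nc : Finset P} {co : P → ℕ × ℕ} (R : RectNat j w t c Nc co)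
    (hw : w ≤ 3) {x : P} (hx : x ∈ natR Nc co) (hl : 17 ≤ lev x)
    (hth : thR w c Nc co x + 1 = lev x - w) (hn : nab 3 x = 2) :
    x ∈ Nc ∧ 1 ≤ (co x).1 ∧ 1 ≤ (co x).2 ∧ ((co x).1 = 1 ∨ (co x).2 = 1) := by
  have e1 := R.b_two
  have e2 := R.b_le
  have hJ : ¬ (x ∈ junk (fun _ => True) Nc co ∨ x ∈ junk (fun _ => True) Nc (swp co)) := by
    intro h
    unfold thR at hth
    rw [if_pos h] at hth
    omega
  have hxN : x ∈ Nc := by
    rw [mem_natR] at hx
    rcases hx with h | h | h
    · exact h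
    · exact absurd (Or.inl h) hJ
    · exact absurd (Or.inr h) hJ
  have h1 := rect_th R hw hxN hJ hl
  have h3 := rect_nab R.chart hxN (k := 3) (by omega)
  have h4 := R.chart.lev x hxN
  refine ⟨hxN, by omega, by omega, by omega⟩

/-- straight elements of a stair-like component -/
lemma stair_str {t : Tops P} {Nc : Finset P} {co : P → ℕ × ℕ} (R : StairNat j w t Nc co)
    (hw : w ≤ 3) (hw2 : 2 ≤ w) {x : P} (hx : x ∈ natS Nc co) (hl : 17 ≤ lev x)
    (hth : thS w Nc co x = lev x - w) : Side (fun c => c.1 ≤ c.2) Nc co x := by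
  by_cases hJ : x ∈ junk (fun c => c.1 ≤ c.2) Nc co
  · exact Or.inl hJ
  · have hxN : x ∈ Nc := by
      rw [mem_natS] at hx
      exact hx.resolve_right hJ
    have h1 := stair_th R hw hw2 hxN hJ hl
    exact Or.inr ⟨hxN, by omega⟩

/-- row 1 of a stair-like component -/
lemma stair_row1 {t : Tops P} {Nc : Finset P} {co : P → ℕ × ℕ} (R : StairNat j w t Nc co)
    (hw : w ≤ 3) (hw2 : 2 ≤ w) {x : P} (hx : x ∈ natS Nc co) (hl : 17 ≤ lev x)
    (hth : thS w Nc co x + 1 = lev x - w) : x ∈ Nc ∧ (co x).1 = 1 := by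
  have hJ : x ∉ junk (fun c => c.1 ≤ c.2) Nc co := by
    intro h
    unfold thS at hth
    rw [if_pos h] at hth
    omega
  have hxN : x ∈ Nc := by
    rw [mem_natS] at hx
    exact hx.resolve_right hJ
  have h1 := stair_th R hw hw2 hxN hJ hl
  exact ⟨hxN, by omega⟩

/-- three elements above a cell of row `1` and an element on the other side -/
lemma three_above {t : Tops P} {Nc : Finset P} {co : P → ℕ × ℕ}
    (C : Chart (t : P) (fun _ => True) Nc co) (g2 : ∃ y ∈ Nc, 1 ≤ (co y).2)
    {z x q : P} (hx : x ∈ Nc) (hzx : z ≤ x) (h1 : (co x).1 = 1) {k : ℕ} (hk2 : 2 ≤ k)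
    (hkx : k < lev x) (hq : Side (fun _ => True) Nc (swp co) q) (hzq : z ≤ q) (hlq : lev q = k) :
    3 ≤ nab k z := by
  classical
  have hl := C.lev x hx
  obtain ⟨y1, hy1, hc1⟩ := C.low x hx (0, k) ⟨Nat.zero_le _, by simp only; omega⟩ trivial
  obtain ⟨y2, hy2, hc2⟩ := C.low x hx (1, k - 1)
    ⟨by simp only; omega, by simp only; omega⟩ trivial
  have hq0 : q ∈ Nc → (co q).2 = 0 := by
    intro hqN
    rcases hq with h | h
    · exact (junk_swp_fst C g2 h hqN).2
    · exact h.2
  have l1 := C.lev y1 hy1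
  have l2 := C.lev y2 hy2
  rw [hc1] at l1
  rw [hc2] at l2
  simp only at l1 l2
  have a1 : x ≤ y1 := by
    rw [C.le_iff x hx y1 hy1, hc1]
    exact ⟨Nat.zero_le _, by simp only; omega⟩
  have a2 : x ≤ y2 := by
    rw [C.le_iff x hx y2 hy2, hc2]
    exact ⟨by simp only; omega, by simp only; omega⟩
  have n1 : y1 ≠ y2 := by
    rintro rfl
    rw [hc1] at hc2
    simp at hc2
  have n2 : q ≠ y1 := by
    rintro rfl
    have := hq0 hy1
    rw [hc1] at this
    simp only at this
    omega
  have n3 : q ≠ y2 := by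
    rintro rfl
    have := hq0 hy2
    rw [hc2] at this
    simp only at this
    omega
  have h3 : ({q, y1, y2} : Finset P) ⊆ (lv P k).filter (fun y => z ≤ y) := by
    intro y hy
    simp only [mem_insert, mem_singleton] at hy
    rw [mem_filter, mem_lv]
    rcases hy with rfl | rfl | rfl
    · exact ⟨hlq, hzq⟩
    · exact ⟨by omega, hzx.trans a1⟩
    · exact ⟨by omega, hzx.trans a2⟩
  have h4 := Finset.card_le_card h3
  rw [Finset.card_insert_of_notMem (by simp [n2, n3]), Finset.card_pair n1] at h4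
  exact h4

/-- the core: a cell of row `1` and a natural element which is not deep, without a common cover -/
lemma other_side {t : Tops P} {Nc : Finset P} {co : P → ℕ × ℕ} (H : Gr P r)
    (C : Chart (t : P) (fun _ => True) Nc co) (g2 : ∃ y ∈ Nc, 1 ≤ (co y).2)
    {z x x' : P} (hx : x ∈ Nc) (hzx : z ≤ x) (h1 : (co x).1 = 1) (h2 : 1 ≤ (co x).2)
    (hl : lev x = lev x') (hzx' : z ≤ x') (hne : x ≠ x')
    (hx' : Side (fun _ => True) Nc co x' ∨ Side (fun _ => True) Nc (swp co) x' ∨
      (x' ∈ Nc ∧ ((co x').1 = 1 ∨ (co x').2 = 1)))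
    (hno : ∀ p, x ⋖ p → ¬ x' ⋖ p) {k : ℕ} (hk2 : 2 ≤ k) (hkx : k < lev x) : 3 ≤ nab k z := by
  have hlx := C.lev x hx
  rcases hx' with h | h | ⟨h, h3⟩
  · exfalso
    obtain ⟨e1, e2⟩ := h.cell C hx h1 hl
    obtain ⟨p, hp, hcp⟩ := C.low x hx (0, (co x).2) ⟨Nat.zero_le _, le_rfl⟩ trivial
    refine hno p ?_ ?_
    · rw [chart_cov C H hx hp, hcp]
      exact Or.inl ⟨by simp only; omega, rfl⟩
    · rw [chart_cov C H e1 hp, hcp, e2]
      exact Or.inr ⟨rfl, rfl⟩
  · obtain ⟨q, hq1, hq2, hq3⟩ := exists_between H.gradedBelow (z := x') (s := (topOf x' : P))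
      (le_topOf x') (l := k) (by have := (topOf x').2; omega) (by omega)
    exact three_above C g2 hx hzx h1 hk2 hkx (h.up C.swap hq1) (hzx'.trans hq1) hq3
  · rcases h3 with h3 | h3
    · exfalso
      have hlx' := C.lev x' h
      exact hne (C.inj x hx x' h (Prod.ext (by omega) (by omega)))
    · have hlx' := C.lev x' h
      obtain ⟨q, hq, hcq⟩ := C.low x' h (k, 0) ⟨by simp only; omega, Nat.zero_le _⟩ trivial
      have hlq := C.lev q hq
      rw [hcq] at hlq
      simp only at hlq
      refine three_above C g2 hx hzx h1 hk2 hkx (Or.inr ⟨hq, by rw [swp_fst, hcq]⟩) (q := q)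
        (hzx'.trans ?_) (by omega)
      rw [C.le_iff x' h q hq, hcq]
      exact ⟨by simp only; omega, Nat.zero_le _⟩

/-- two covers of the level `j` of an element of the far set have one cover each -/
lemma Wn.near (W : Wn r j w N b θ) {z x x' : P} (hz : z ∈ rA N) (hl : lev z = j + 1)
    (hzx : z ⋖ x) (hzx' : z ⋖ x') (hne : x ≠ x') :
    (Win.uc x).card = 1 ∧ (Win.uc x').card = 1 := by
  have hj := W.hj
  have H := W.gt.H
  obtain ⟨i, rfl⟩ : ∃ i, j = i + 1 := ⟨j - 1, by omega⟩
  rcases (Win.near_level' W.gt (by omega)).1 z x x' hl hzx hzx' hne with h | h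
  · exfalso
    obtain ⟨p, hp, hp'⟩ := Win.StA_of_ucv (v := x) (v' := x') (by omega)
    have e1 := (H.covBy_iff.mp hzx).2
    have e2 := (H.covBy_iff.mp hzx').2
    exact W.no_adj hz (W.low (by omega)) (W.low (by omega)) hzx hzx' hne hp hp'
  · exact ⟨h.1, h.2.1⟩

/-- three elements on the levels above -/
theorem Wn.row1_three (W : Wn r j w N b θ) {z x x' : P} (hz : z ∈ rA N) (hx : x ∉ unnat N)
    (hx' : x' ∉ unnat N) (hzx : z ⋖ x) (hzx' : z ⋖ x') (hne : x ≠ x') (hR : Row1 j w N θ x)
    (hK : Str w N θ x' ∨ Row1 j w N θ x') {k : ℕ} (hk2 : 2 ≤ k) (hwk : w ≤ k) (hkx : k < lev x) :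
    3 ≤ nab k z := by
  have H := W.gt.H
  have HN := W.natSys
  have hj := W.hj
  have hw := W.hw
  have hlz := W.lt_lev (mem_rA.mp hz).1
  have e1 := (H.covBy_iff.mp hzx).2
  have e2 := (H.covBy_iff.mp hzx').2
  have hxt : x ∈ N (topOf x) := HN.mem_iff.mpr ⟨hx, rfl⟩
  have hxt' : x' ∈ N (topOf x') := HN.mem_iff.mpr ⟨hx', rfl⟩
  have hR3 : nab 3 x = 2 := hR.nab 3 hw (by omega)
  have hRt := hR.th
  by_cases htt : topOf x' = topOf x
  · have hno : ∀ p, x ⋖ p → ¬ x' ⋖ p := fun p hp hp' => W.no_adj hz hx hx' hzx hzx' hne hp hp'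
    rw [htt] at hxt'
    have hth' : θ (topOf x) x' = lev x' - w ∨
        (θ (topOf x) x' + 1 = lev x' - w ∧ nab 3 x' = 2) := by
      rcases hK with h | h
      · left
        rw [← htt]
        exact h.th
      · right
        rw [← htt]
        exact ⟨h.th, h.nab 3 hw (by omega)⟩
    generalize topOf x = t at hxt hxt' hRt hth'
    rcases W.typ t with ⟨h1, h2, h3, h5⟩ | ⟨Nc, co, h0, h1, h2, h4⟩ |
      ⟨Nc, co, h0, h1, h2, h3, h4, h5'⟩
    · exfalso
      rw [h2] at hRt
      simp only at hRt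
      omega
    · rw [h1] at hxt hxt'
      rw [h2] at hRt hth'
      obtain ⟨f1, f2, f3, f4⟩ := rect_row1 h0 hw hxt (by omega) hRt hR3
      have hxs' : (Side (fun _ => True) Nc co x' ∨ Side (fun _ => True) Nc (swp co) x') ∨
          (x' ∈ Nc ∧ ((co x').1 = 1 ∨ (co x').2 = 1)) := by
        rcases hth' with h | ⟨h, h'⟩
        · exact Or.inl (rect_str h0 hw hxt' (by omega) h)
        · obtain ⟨a1, a2, a3, a4⟩ := rect_row1 h0 hw hxt' (by omega) h h'
          exact Or.inr ⟨a1, a4⟩
      rcases f4 with f4 | f4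
      · refine other_side H h0.chart h0.one2 f1 hzx.1.le f4 f3 (by omega) hzx'.1.le hne ?_ hno hk2
          hkx
        rcases hxs' with (h | h) | h
        · exact Or.inl h
        · exact Or.inr (Or.inl h)
        · exact Or.inr (Or.inr h)
      · refine other_side H h0.chart.swap h0.one1 f1 hzx.1.le f4 f2 (by omega) hzx'.1.le hne ?_
          hno hk2 hkx
        rcases hxs' with (h | h) | h
        · exact Or.inr (Or.inl h)
        · exact Or.inl h
        · exact Or.inr (Or.inr ⟨h.1, h.2.symm⟩)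
    · exfalso
      rw [h1] at hxt hxt'
      rw [h2] at hRt hth'
      obtain ⟨f1, f2⟩ := stair_row1 h0 hw h4 hxt (by omega) hRt
      rcases hth' with h | ⟨h, h'⟩
      · have h6 := stair_str h0 hw h4 hxt' (by omega) h
        obtain ⟨a1, a2⟩ := h6.cell h0.chart f1 f2 (by omega)
        obtain ⟨p, hp, hcp⟩ := h0.chart.low x f1 (0, (co x).2) ⟨Nat.zero_le _, le_rfl⟩
          (Nat.zero_le _)
        refine hno p ?_ ?_
        · rw [chart_cov h0.chart H f1 hp, hcp]
          exact Or.inl ⟨by simp only; omega, rfl⟩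
        · rw [chart_cov h0.chart H a1 hp, hcp, a2]
          exact Or.inr ⟨rfl, rfl⟩
      · obtain ⟨a1, a2⟩ := stair_row1 h0 hw h4 hxt' (by omega) h
        have l1 := h0.chart.lev x f1
        have l2 := h0.chart.lev x' a1
        exact hne (h0.chart.inj x f1 x' a1 (Prod.ext (by omega) (by omega)))
  · have h3 := nab_join HN H.gradedBelow hxt hzx.1.le (topOf x').2 (fun h => htt (Subtype.ext h))
      (hzx'.1.le.trans (le_topOf x')) (l := k) (by omega)
    have := hR.nab k hwk hkx
    omega

end Pool.Agent.GaussPoset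

end

/-! From `Pool.Agent.W_448s7_h5.SevQ` -/

section

/-!
# The windows of S7: values of the own classes; elements below a cell of row `1` (MP_448cb3_co)
-/

namespace Pool.Agent.GaussPoset

set_option linter.unusedSectionVars false

open Polynomial Finset

universe u

variable {P : Type u} [Fintype P] [PartialOrder P] [DecidableEq P] {r j w : ℕ}
  {N : Tops P → Finset P} {b : Tops P → ℕ} {θ : Tops P → P → ℕ} {Ea : Tops P → Prop}

/-- values of the even own classes at window `w` -/
def EvN (j w v : ℕ) : Prop := 1 ≤ w ∧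
  ((∃ t, v = (j + 1 - w + t) ^ 2) ∨
    (∃ t, v = (j + 1 - w + t) * (j + 1 - w + t + 1) ∨
      v + 1 = (j + 1 - w + t) * (j + 1 - w + t + 1)) ∨
    ∃ s m E, 3 ≤ s ∧ 1 ≤ m ∧ Even m ∧ v = (j + 1 - w + s) ^ 2 + E ∧ (j - w + 2) * m ≤ E ∧
      E ≤ (j - w + (s - 1)) * m)

/-- values of the odd own classes at window `w` -/
def OdN (j w v : ℕ) : Prop := 1 ≤ w ∧
  ((∃ s m E, 3 ≤ s ∧ 1 ≤ m ∧ Odd m ∧ v = (j + 1 - w + s) ^ 2 + E ∧ (j - w + 2) * m ≤ E ∧
      E ≤ (j - w + (s - 1)) * m) ∨
    (j = 18 ∧ ((w = 3 ∧ v = 350) ∨ (w = 2 ∧ v = 402))))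

/-- an element `z` below two tops with two private covers; `Ea` : the early components -/
structure Crs (j : ℕ) (Ea : Tops P → Prop) (z x x' : P) : Prop where
  cov : z ⋖ x
  cov' : z ⋖ x'
  only : x ∈ onlyB (topOf x)
  only' : x' ∈ onlyB (topOf x')
  ne : topOf x ≠ topOf x'
  str : Ea (topOf x) → ∀ k, k ≤ j → nab k x = 1
  str' : Ea (topOf x') → ∀ k, k ≤ j → nab k x' = 1

/-- the outcomes for a cheapest element `z` with the label `h z` and the cost `v` -/
def Out (j w : ℕ) (Ea : Tops P → Prop) (h : P → ℕ) (z : P) (v : ℕ) : Prop :=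
  cap j w < v ∨ (nab w z = nab (w + h z) z + 1 ∧
    ((Even (nst w h z) ∧ EvN j w v) ∨ (Odd (nst w h z) ∧ OdN j w v) ∨
      (∃ x x', Crs j Ea z x x') ∧ v = ful w z ∧ h z = lev z - w))

lemma sq_add_mono {y a : ℕ} (h : y ≤ a) : y ^ 2 + 10 * y ≤ a ^ 2 + 10 * a :=
  Nat.add_le_add (Nat.pow_le_pow_left h 2) (Nat.mul_le_mul_left 10 h)

/-- cost of an element with one cover -/
lemma cst_only {i : ℕ} {h : P → ℕ} {z x : P} (H : GradedBelow P) (hzx : z ⋖ x)
    (honly : ∀ y, z ⋖ y → y = x) :
    cst i h z = cst i (fun _ => h z) x + min (h z) (lev z - i) := by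
  have h1 := H.lev_covBy hzx
  rw [cst_eq, cst_eq, h1, Finset.sum_range_succ _ (lev x + 1), ← h1, nab_self, mul_one]
  congr 1
  refine Finset.sum_congr rfl fun k hk => ?_
  rw [mem_range] at hk
  rw [nab_only honly hzx (by omega)]

/-- a flat cheapest element below a cell of row `1` -/
theorem Wn.row1_out (W : Wn r j w N b θ) {v : ℕ} {z : P} (hz : z ∈ bdR (rA N))
    (hc : cst w (hA N θ) z = v) (hF : Flat j w N θ z) (hge : lev z ≤ hA N θ z + 1 + w) {x : P}
    (hzx : z ⋖ x) (hR : Row1 j w N θ x) : Out j w Ea (hA N θ) z v := by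
  classical
  have H := W.gt.H
  have hj := W.hj
  have hw := W.hw
  have hzR := (mem_bdR.mp hz).1
  have hlz := W.bd_lev hz
  have e1 := (H.covBy_iff.mp hzx).2
  have hx := (hF x hzx).1
  have hbs : GaussPoset.bs N x = x := by
    unfold GaussPoset.bs
    rw [if_neg (W.not_tw hx)]
  have hle := W.hA_le (not_mem_rA.mpr (Or.inl hx)) hzx
  rw [hbs] at hle
  have hRt := hR.th
  obtain ⟨a, ha⟩ : ∃ a, lev x = w + a := ⟨lev x - w, by omega⟩
  have hha : hA N θ z = a := by omega
  have h1w := hR.one_le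
  by_cases honly : ∀ y, z ⋖ y → y = x
  · -- a pendant
    have hlx : lev x ≠ j := fun h => hR.nopen h z hzx honly
    right
    refine ⟨?_, Or.inl ⟨?_, h1w, Or.inr (Or.inl ⟨a - (j + 1 - w), Or.inl ?_⟩)⟩⟩
    · rw [hha, ← ha, nab_only honly hzx (by omega), hR.nab w le_rfl (by omega),
        nab_only honly hzx (by omega), nab_self]
    · rw [nst_eq, hha, Finset.sum_congr rfl (g := fun _ => 2)]
      · rw [Finset.sum_const, card_range]
        exact ⟨a, by simp only [smul_eq_mul]; ring⟩
      · intro k hk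
        rw [mem_range] at hk
        rw [nab_only honly hzx (by omega), hR.nab _ (by omega) (by omega)]
    · rw [← hc, cst_only H.gradedBelow hzx honly, hha, cst_eq_ful (by omega),
        ful_two ha (fun k hk1 hk2 => hR.nab k hk1.le hk2)]
      rw [show j + 1 - w + (a - (j + 1 - w)) = a by omega, Nat.min_eq_left (by omega)]
      ring
  · -- a pair
    push Not at honly
    obtain ⟨x', hzx', hne'⟩ := honly
    have hne : x ≠ x' := Ne.symm hne'
    have e2 := (H.covBy_iff.mp hzx').2
    have hx' := (hF x' hzx').1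
    have hlx : lev x ≠ j := by
      intro h
      have := (W.near hzR (by omega) hzx hzx' hne).1
      have := hR.dbl
      omega
    left
    have h3 : ∀ k, 2 ≤ k → w ≤ k → k < lev x → 3 ≤ nab k z := fun k hk1 hk2 hk3 =>
      W.row1_three hzR hx hx' hzx hzx' hne hR (hF x' hzx').2 hk1 hk2 hk3
    have h4 : 2 ≤ nab (lev x) z := two_le_nab hzx.1.le hzx'.1.le rfl (by omega) hne
    have h5 : ∑ n ∈ range a, n * 3 + a * 2 + a ≤ v := by
      rw [← hc, cst_shift (a := a + 1) (by omega), Finset.sum_range_succ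
        (fun n => min (hA N θ z) n * nab (w + n) z), Finset.sum_range_succ
        (fun n => min (hA N θ z) n * nab (w + n) z), hha]
      refine Nat.add_le_add (Nat.add_le_add ?_ ?_) ?_
      · refine Finset.sum_le_sum fun n hn => ?_
        rw [mem_range] at hn
        rw [Nat.min_eq_right hn.le]
        rcases Nat.eq_zero_or_pos n with h0 | h0
        · subst h0; simp
        · exact Nat.mul_le_mul_left _ (h3 _ (by omega) (by omega) (by omega))
      · rw [Nat.min_self, ← ha]
        exact Nat.mul_le_mul_left _ h4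
      · rw [show w + (a + 1) = lev z by omega, nab_self, mul_one]
        exact Nat.le_min.mpr ⟨le_rfl, by omega⟩
    have h6 := Finset.sum_range_id_mul_two a
    rw [← Finset.sum_mul] at h5
    obtain ⟨y, hy⟩ : ∃ y, j + 1 = w + y := ⟨j + 1 - w, by omega⟩
    have hcap := cap_eq hy (by omega)
    obtain ⟨c, rfl⟩ : ∃ c, a = c + 15 := ⟨a - 15, by omega⟩
    rw [show c + 15 - 1 = c + 14 by omega,
      show (c + 15) * (c + 14) = c * c + 29 * c + 210 by ring] at h6
    have e4 := sq_add_mono (y := y) (a := c + 15) (by omega)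
    have e5 : (c + 15) ^ 2 = c * c + 30 * c + 225 := by ring
    rw [e5] at e4
    omega

end Pool.Agent.GaussPoset

end

/-! From `Pool.Agent.W_448s7_h27.PoE` -/

section

/-!
# Pendants whose ancestor levels have at most two elements, bounded by one window
(MP_448cb3_co, S7)
-/

namespace Pool.Agent.GaussPoset.Sm

set_option linter.unusedSectionVars false

open Polynomial Finset W4 Cp

universe u

variable {P : Type u} [Fintype P] [PartialOrder P] [DecidableEq P] {r j w K0 : ℕ}
  {N : Tops P → Finset P} {b : Tops P → ℕ} {θ : Tops P → P → ℕ}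

/-- the full cost of a pendant -/
lemma ful_only {z x : P} (H : GradedBelow P) (hzx : z ⋖ x) (honly : ∀ y, z ⋖ y → y = x) :
    ful w z = ful w x + (lev z - w) := by
  have h1 := H.lev_covBy hzx
  unfold ful
  rw [h1, Finset.sum_range_succ, ← h1, nab_self, mul_one]
  congr 1
  refine Finset.sum_congr rfl fun k hk => ?_
  rw [mem_range] at hk
  rw [nab_only honly hzx (by omega)]

end Pool.Agent.GaussPoset.Sm

end
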