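import Mathlib
import Pool.Agent.W_448zz_h61.Ns
import Pool.Agent.W_448zz_h61.M047

/-! From `Pool.Agent.W_448s7_h5.SevR` -/

/-!
# The windows of S7: elements of level `j + 1` below a deep cell (MP_448cb3_co)
-/

namespace Pool.Agent.GaussPoset

set_option linter.unusedSectionVars false

open Polynomial Finset

universe u

variable {P : Type u} [Fintype P] [PartialOrder P] [DecidableEq P] {r j w : ℕ}
  {N : Tops P → Finset P} {b : Tops P → ℕ} {θ : Tops P → P → ℕ} {Ea : Tops P → Prop}

/-- a pendant below the cell `(s, s + 1)` has a natural twin -/
lemma diag_twin {t : P} {Nc : Finset P} {co : P → ℕ × ℕ}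
    (C : Chart t (fun c => c.1 ≤ c.2) Nc co) (Mx : MaxChart (fun c => c.1 ≤ c.2) Nc co)
    (H : Gr P r) {z x : P} (hzN : z ∉ Nc) (hx : x ∈ Nc) (hzx : z ⋖ x)
    (honly : ∀ y, z ⋖ y → y = x) (hc : (co x).2 = (co x).1 + 1) :
    ∃ y ∈ Nc, ∀ v, y < v ↔ z < v := by
  obtain ⟨y, hy, hcy, hyx, hyz⟩ := max_diag C Mx H hzN hx hzx honly (s := (co x).1)
    (Prod.ext rfl hc)
  refine ⟨y, hy, twin_of_single (x := x) (fun v => ⟨fun h => ?_, fun h => h ▸ hyx⟩)
    (fun v => ⟨honly v, fun h => h ▸ hzx⟩)⟩
  have hv := C.up y hy v h.1.le
  have h1 := (chart_cov C H hy hv).mp h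
  have h2 : (co v).1 ≤ (co v).2 := C.mem v hv
  rw [hcy] at h1
  refine C.inj v hv x hx ?_
  rcases h1 with h1 | h1
  · have g1 := h1.1
    have g2 := h1.2
    simp only at g1 g2
    exact Prod.ext (by omega) (by omega)
  · have g1 := h1.1
    have g2 := h1.2
    simp only at g1 g2
    omega

/-- thresholds of single-up elements of level `j` -/
lemma Wn.single_th (W : Wn r j w N b θ) {x : P} (hx : x ∉ unnat N) (hl : lev x = j)
    (h1 : (Win.uc x).card = 1) : lev x ≤ θ (topOf x) x + 2 + w := by
  have H := W.gt.H
  have HN := W.natSys
  have hj := W.hj
  have hw := W.hw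
  have hxt : x ∈ N (topOf x) := HN.mem_iff.mpr ⟨hx, rfl⟩
  generalize topOf x = t at hxt ⊢
  rcases W.typ t with ⟨g1, g2, g3, g5⟩ | ⟨Nc, co, h0, g1, g2, g4⟩ |
    ⟨Nc, co, h0, g1, g2, g3, g4, g5'⟩
  · rw [g2]
    simp only
    omega
  · rw [g1] at hxt
    by_cases hJ : x ∈ junk (fun _ => True) Nc co ∨ x ∈ junk (fun _ => True) Nc (swp co)
    · rw [g2]
      unfold thR
      rw [if_pos hJ]
      omega
    · have hxN : x ∈ Nc := by
        rw [mem_natR] at hxt
        rcases hxt with h | h | h
        · exact h
        · exact absurd (Or.inl h) hJ
        · exact absurd (Or.inr h) hJ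
      have h2 := rect_th h0 hw hxN hJ (by omega)
      rw [g2]
      by_contra hcon
      have := chart_inner_uc h0.chart H hxN (by omega) (by omega)
      omega
  · rw [g1] at hxt
    by_cases hJ : x ∈ junk (fun c => c.1 ≤ c.2) Nc co
    · rw [g2]
      unfold thS
      rw [if_pos hJ]
      omega
    · have hxN : x ∈ Nc := by
        rw [mem_natS] at hxt
        exact hxt.resolve_right hJ
      have h2 := stair_th h0 hw g4 hxN hJ (by omega)
      rw [g2]
      omega

/-- elements of level `j + 1` below a deep cell -/
theorem Wn.deep_j (W : Wn r j w N b θ) {v : ℕ} {z : P} (hz : z ∈ bdR (rA N))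
    (hc : cst w (hA N θ) z = v) (hlz : lev z = j + 1) {x : P} (hzx : z ⋖ x)
    (hD : Dp j w N θ x) : Out j w Ea (hA N θ) z v := by
  classical
  have H := W.gt.H
  have HN := W.natSys
  have hj := W.hj
  have hw := W.hw
  have hzR := (mem_bdR.mp hz).1
  have hzu := (mem_rA.mp hzR).1
  have e1 := (H.covBy_iff.mp hzx).2
  have hlx : lev x = j := by omega
  have hx : x ∉ unnat N := W.low (by omega)
  have hbs : GaussPoset.bs N x = x := by
    unfold GaussPoset.bs
    rw [if_neg (W.not_tw hx)]
  have hle := W.hA_le (not_mem_rA.mpr (Or.inl hx)) hzx
  rw [hbs] at hle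
  have hth := hD.th
  have h1w := hD.one_le
  have hxt : x ∈ N (topOf x) := HN.mem_iff.mpr ⟨hx, rfl⟩
  have hxle : x ≤ (topOf x : P) := le_topOf x
  have hzN := mem_unnat.mp hzu (topOf x)
  have hnat : ∀ y ∈ N (topOf x), y ∉ unnat N := fun y hy => (HN.mem_iff.mp hy).1
  have hzt : ∀ y, y ∉ unnat N → ¬ ∀ v, y < v ↔ z < v := fun y hy h =>
    (mem_rA.mp hzR).2 (mem_twA.mpr ⟨hzu, y, hy, h⟩)
  -- two covers have one cover each
  have hnear : (Win.uc x).card = 2 → ∀ y, z ⋖ y → y = x := by
    intro h2 y hy
    by_contra hne
    have := (W.near hzR hlz hzx hy (Ne.symm hne)).1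
    omega
  -- the label of an element with one cover
  have hlab : (∀ y, z ⋖ y → y = x) → hA N θ z = θ (topOf x) x + 1 := by
    intro ho
    obtain ⟨x0, g1, g2, g3⟩ := W.hA_spec hz
    rw [ho x0 g2, hbs] at g3
    exact g3
  have hthx : θ (topOf x) x = θ (topOf x) x := rfl
  generalize htt : topOf x = t at hxt hxle hzN hnat hle hth hlab
  rcases W.typ t with ⟨g1, g2, g3, g5⟩ | ⟨Nc, co, h0, g1, g2, g4⟩ |
    ⟨Nc, co, h0, g1, g2, g3, g4, g5'⟩
  · exfalso
    rw [g2] at hth
    simp only at hth
    omega
  · exfalso
    rw [g1] at hxt
    rw [g2] at hth
    have hJ : ¬ (x ∈ junk (fun _ => True) Nc co ∨ x ∈ junk (fun _ => True) Nc (swp co)) := by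
      intro h
      unfold thR at hth
      rw [if_pos h] at hth
      omega
    have hxN : x ∈ Nc := by
      rw [mem_natR] at hxt
      rcases hxt with h | h | h
      · exact h
      · exact absurd (Or.inl h) hJ
      · exact absurd (Or.inr h) hJ
    have h2 := rect_th h0 hw hxN hJ (by omega)
    have h3 := chart_inner_uc h0.chart H hxN (by omega) (by omega)
    exact g4 x z hxle hlx h3 hzx (hnear h3)
  · rw [g1] at hxt hzN
    rw [g2] at hth
    have hJ : x ∉ junk (fun c => c.1 ≤ c.2) Nc co := by
      intro h
      unfold thS at hth
      rw [if_pos h] at hth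
      omega
    have hxN : x ∈ Nc := by
      rw [mem_natS] at hxt
      exact hxt.resolve_right hJ
    have hl := h0.chart.lev x hxN
    have hm : (co x).1 ≤ (co x).2 := h0.chart.mem x hxN
    have h2 := stair_th h0 hw g4 hxN hJ (by omega)
    have hzN1 : z ∉ Nc := fun h => hzN (mem_natS.mpr (Or.inl h))
    have h6 := cst_ge_cover (i := w) (h := hA N θ) H.gradedBelow hzx
    rw [hc] at h6
    rcases Nat.lt_or_ge (co x).1 (co x).2 with hlt | hge
    · -- a double
      have h3 := stair_inner_uc h0.chart H hxN (by omega) hlt
      have ho := hnear h3
      rcases g5' x z hxle hlx h3 hzx ho with h4 | h4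
      · exfalso
        obtain ⟨y, hy, h⟩ := diag_twin h0.chart h0.max H hzN1 hxN hzx ho h4
        exact hzt y (hnat y (by rw [g1]; exact mem_natS.mpr (Or.inl hy))) h
      · left
        have h5 := hlab ho
        rw [g2] at h5
        have h7 := flip_deep h0.chart hxN (w := w) (h := hA N θ z) hj (by omega) h4 hlx (by omega)
        rw [Nat.min_eq_left (by omega)] at h6
        omega
    · -- the fold end
      have hcc : (co x).2 = (co x).1 := by omega
      -- the label
      have hlb : hA N θ z + 1 = lev x - w := by
        obtain ⟨x0, f1, f2, f3⟩ := W.hA_spec hz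
        rw [g2] at hle
        by_cases hne : x0 = x
        · rw [hne, hbs, htt, g2] at f3
          omega
        · have f4 := W.near hzR hlz hzx f2 (Ne.symm hne)
          have f5 := (H.covBy_iff.mp f2).2
          have hx0 : x0 ∉ unnat N := W.low (by omega)
          have hbs0 : GaussPoset.bs N x0 = x0 := by
            unfold GaussPoset.bs
            rw [if_neg (W.not_tw hx0)]
          rw [hbs0] at f3
          have f6 := W.single_th hx0 (by omega) f4.2
          omega
      have h8 : min (hA N θ z) (lev z - w) = hA N θ z := Nat.min_eq_left (by omega)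
      rw [h8] at h6
      rcases Nat.lt_or_ge j 20 with hj20 | hj20
      · have hj18 : j = 18 := by omega
        have hc9 : (co x).1 = 9 := by omega
        have hc9' : (co x).2 = 9 := by omega
        obtain ⟨q1, q2, q3⟩ := fold_18 h0.chart hxN hc9 hc9'
        by_cases ho : ∀ y, z ⋖ y → y = x
        · right
          have hn17 := q1 17 (by omega)
          have hnw : nab w x = 2 := by
            have := q1 w (by omega)
            omega
          refine ⟨?_, Or.inr (Or.inl ⟨?_, h1w, Or.inr ⟨hj18, ?_⟩⟩)⟩
          · rw [nab_only ho hzx (by omega), nab_only ho hzx (by omega), hnw,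
              show w + hA N θ z = 17 by omega]
            omega
          · have hw23 : w = 2 ∨ w = 3 := by omega
            have hv : ∀ k, k ≤ 18 → nab k x = min (k / 2) 9 + 1 - (k - 9) := fun k hk => by
              have := q1 k hk
              omega
            rw [nst_eq]
            rcases hw23 with rfl | rfl
            · have : hA N θ z = 15 := by omega
              rw [this]
              have e : ∑ k ∈ range 15, nab (2 + k) z = 51 := by
                rw [Finset.sum_congr rfl (g := fun k => min ((2 + k) / 2) 9 + 1 - ((2 + k) - 9))
                  (fun k hk => by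
                    rw [mem_range] at hk
                    rw [nab_only ho hzx (by omega), hv _ (by omega)])]
                decide
              rw [e]
              decide
            · have : hA N θ z = 14 := by omega
              rw [this]
              have e : ∑ k ∈ range 14, nab (3 + k) z = 49 := by
                rw [Finset.sum_congr rfl (g := fun k => min ((3 + k) / 2) 9 + 1 - ((3 + k) - 9))
                  (fun k hk => by
                    rw [mem_range] at hk
                    rw [nab_only ho hzx (by omega), hv _ (by omega)])]
                decide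
              rw [e]
              decide
          · have hw23 : w = 2 ∨ w = 3 := by omega
            have h9 := cst_only (i := w) (h := hA N θ) H.gradedBelow hzx ho
            rw [hc, h8] at h9
            rcases hw23 with rfl | rfl
            · right
              have : hA N θ z = 15 := by omega
              rw [this] at h9
              exact ⟨rfl, by omega⟩
            · left
              have : hA N θ z = 14 := by omega
              rw [this] at h9
              exact ⟨rfl, by omega⟩
        · -- a second cover
          left
          push Not at ho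
          obtain ⟨x', hzx', hne'⟩ := ho
          have hne : x ≠ x' := Ne.symm hne'
          have e2 := (H.covBy_iff.mp hzx').2
          have hx' : x' ∉ unnat N := W.low (by omega)
          obtain ⟨x'', hx'', -⟩ := Hul.exists_cov (w := x') (v := (topOf x' : P))
            (lt_of_le_of_ne (le_topOf x') (by
              intro h
              have := (topOf x').2
              rw [← h] at this
              omega))
          have e3 := (H.covBy_iff.mp hx'').2
          have hxx : ¬ x ≤ x'' := by
            intro h
            exact W.no_adj hzR hx hx' hzx hzx' hne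
              (H.covBy_iff.mpr ⟨lt_of_le_of_ne h (by rintro rfl; omega), by omega⟩) hx''
          have n18 : 2 ≤ nab (lev x) z := two_le_nab hzx.1.le hzx'.1.le rfl (by omega) hne
          have n17 : nab 17 x + 1 ≤ nab 17 z := by
            have h1 : insert x'' ((lv P 17).filter (fun y => x ≤ y)) ⊆
                (lv P 17).filter (fun y => z ≤ y) := by
              intro y hy
              rw [mem_insert, mem_filter, mem_lv] at hy
              rw [mem_filter, mem_lv]
              rcases hy with rfl | hy
              · exact ⟨by omega, hzx'.1.le.trans hx''.1.le⟩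
              · exact ⟨hy.1, hzx.1.le.trans hy.2⟩
            have h2 := Finset.card_le_card h1
            rw [Finset.card_insert_of_notMem (by
              rw [mem_filter]
              exact fun h => hxx h.2)] at h2
            exact h2
          have hn : ∀ k, nab k x ≤ nab k z := fun k => nab_mono hzx.1.le
          have key : cst w (fun _ => hA N θ z) x + 3 * hA N θ z ≤ v := by
            obtain ⟨a, ha⟩ : ∃ a, lev x = w + (a + 1) := ⟨lev x - w - 1, by omega⟩
            have hha : hA N θ z = a := by omega
            rw [← hc, cst_shift (i := w) (h := hA N θ) (a := a + 2) (by omega),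
              cst_shift (i := w) (h := fun _ => hA N θ z) ha, hha]
            rw [Finset.sum_range_succ (fun n => min a n * nab (w + n) z) (a + 2),
              Finset.sum_range_succ (fun n => min a n * nab (w + n) z) (a + 1),
              Finset.sum_range_succ (fun n => min a n * nab (w + n) z) a,
              Finset.sum_range_succ (fun n => min a n * nab (w + n) x) (a + 1),
              Finset.sum_range_succ (fun n => min a n * nab (w + n) x) a]
            have s1 : ∑ n ∈ range a, min a n * nab (w + n) x ≤
                ∑ n ∈ range a, min a n * nab (w + n) z :=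
              Finset.sum_le_sum fun n _ => Nat.mul_le_mul_left _ (hn _)
            have s2 : min a a * nab (w + a) x + a ≤ min a a * nab (w + a) z := by
              rw [Nat.min_self, show w + a = 17 by omega]
              calc a * nab 17 x + a = a * (nab 17 x + 1) := by ring
                _ ≤ a * nab 17 z := Nat.mul_le_mul_left _ n17
            have s3 : min a (a + 1) * nab (w + (a + 1)) x + a ≤
                min a (a + 1) * nab (w + (a + 1)) z := by
              rw [Nat.min_eq_left (by omega), ← ha, nab_self]
              calc a * 1 + a = a * 2 := by ring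
                _ ≤ a * nab (lev x) z := Nat.mul_le_mul_left _ n18
            have s4 : min a (a + 2) * nab (w + (a + 2)) z = a := by
              rw [Nat.min_eq_left (by omega), show w + (a + 2) = lev z by omega, nab_self, mul_one]
            omega
          subst hj18
          have hw23 : w = 2 ∨ w = 3 := by omega
          rcases hw23 with rfl | rfl
          · have : hA N θ z = 15 := by omega
            rw [this] at key
            have hcp : cap 18 2 = 409 := by decide
            omega
          · have : hA N θ z = 14 := by omega
            rw [this] at key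
            have hcp : cap 18 3 = 366 := by decide
            omega
      · left
        have h7 := fold_deep h0.chart hxN (w := w) (h := hA N θ z) hj20 (by omega) hcc hlx hlb
        omega

end Pool.Agent.GaussPoset
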