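import Mathlib
import Pool.Agent.W_448zz_h61.Ns
import Pool.Agent.W_448zz_h61.M047

/-! From `Pool.Agent.W_448s7_h5.SevS` -/

section

/-!
# The windows of S7: elements below the two sides of one component (MP_448cb3_co)
-/

namespace Pool.Agent.GaussPoset

set_option linter.unusedSectionVars false

open Polynomial Finset

universe u

variable {P : Type u} [Fintype P] [PartialOrder P] [DecidableEq P] {r j w : ℕ}
  {N : Tops P → Finset P} {b : Tops P → ℕ} {θ : Tops P → P → ℕ}

/-- two straight elements of level `j` below one top (with `B`): each has at most one pendant -/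
def OnePen (P : Type u) [Fintype P] [PartialOrder P] [DecidableEq P] (j : ℕ)
    (B : Tops P → Prop) : Prop :=
  ∀ e e' p p' : P, B (topOf e) → lev e = j → lev e' = j → (∀ k, k ≤ j → nab k e = 1) →
    (∀ k, k ≤ j → nab k e' = 1) → topOf e = topOf e' → e ≠ e' → p ⋖ e → p' ⋖ e →
    (∀ y, p ⋖ y → y = e) → (∀ y, p' ⋖ y → y = e) → p = p'

section Chart

variable {t : P} {S : ℕ × ℕ → Prop} {Nc : Finset P} {co : P → ℕ × ℕ}

/-- side elements of level `j + 1` are pendants of the side element of level `j` -/
lemma Side.pendant (hS : RowT S) (C : Chart t S Nc co) (H : Gr P r)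
    (hg : ∀ l, l < j → Win.Good P l) (hstrip : lowPart j t ⊆ Nc) (h1 : ∃ y ∈ Nc, 1 ≤ (co y).1)
    {p e : P} (hp : Side S Nc co p) (hl : lev p = j + 1) (hpe : p ≤ e) (hle : lev e = j) :
    p ⋖ e ∧ ∀ y, p ⋖ y → y = e := by
  have hpe' : p ⋖ e := H.covBy_iff.mpr ⟨lt_of_le_of_ne hpe (by rintro rfl; omega), by omega⟩
  refine ⟨hpe', fun y hy => ?_⟩
  have hly := (H.covBy_iff.mp hy).2
  have hn := hp.nab_one hS C H hg hstrip h1 (k := j) le_rfl (by omega)
  by_contra hne
  have := two_le_nab (l := j) hy.1.le hpe (by omega) hle hne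
  omega

/-- a side element has one ancestor of level `j + 1` -/
lemma Side.nab_succ (hS : RowT S) (C : Chart t S Nc co) (H : Gr P r)
    (hg : ∀ l, l < j → Win.Good P l) (hstrip : lowPart j t ⊆ Nc) (h1 : ∃ y ∈ Nc, 1 ≤ (co y).1)
    {x : P} (hx : Side S Nc co x) (hl : j + 1 ≤ lev x)
    (hone : ∀ e p p' : P, x ≤ e → lev e = j → p ⋖ e → p' ⋖ e → (∀ y, p ⋖ y → y = e) →
      (∀ y, p' ⋖ y → y = e) → p = p') : nab (j + 1) x = 1 := by
  classical
  obtain ⟨e, he1, he2, he3⟩ := exists_between H.gradedBelow (z := x) (s := (topOf x : P))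
    (le_topOf x) (l := j) (by have := (topOf x).2; omega) (by omega)
  refine le_antisymm ?_ (one_le_nab hl)
  unfold nab
  rw [Finset.card_le_one]
  intro p hp p' hp'
  rw [mem_filter, mem_lv] at hp hp'
  have hnx := hx.nab_one hS C H hg hstrip h1 (k := j) le_rfl (by omega)
  have hbelow : ∀ p, lev p = j + 1 → x ≤ p → p ≤ e := by
    intro p hp hxp
    obtain ⟨e', h1', h2', h3'⟩ := exists_between H.gradedBelow (z := p) (s := (topOf p : P))
      (le_topOf p) (l := j) (by have := (topOf p).2; omega) (by omega)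
    by_contra hcon
    have hne : e' ≠ e := by
      rintro rfl
      exact hcon h1'
    have := two_le_nab (l := j) (hxp.trans h1') he1 h3' he3 hne
    omega
  obtain ⟨a1, a2⟩ := (hx.up C hp.2).pendant hS C H hg hstrip h1 hp.1 (hbelow p hp.1 hp.2) he3
  obtain ⟨b1, b2⟩ := (hx.up C hp'.2).pendant hS C H hg hstrip h1 hp'.1 (hbelow p' hp'.1 hp'.2) he3
  exact hone e p p' he1 he3 a1 b1 a2 b2

end Chart

/-- the numbers of elements above an element below the two sides -/
lemma nab_two_sides {t : Tops P} {c : ℕ} {Nc : Finset P} {co : P → ℕ × ℕ} (H : Gr P r)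
    (R : RectNat j w t c Nc co) {z x x' : P} (hx : Side (fun _ => True) Nc co x)
    (hx' : Side (fun _ => True) Nc (swp co) x') (hzx : z ⋖ x) (hzx' : z ⋖ x') {k : ℕ}
    (hk : 1 ≤ k) (hkz : k < lev z) : nab k z = nab k x + nab k x' := by
  classical
  have hne : x ≠ x' := by
    rintro rfl
    have h2 : ∀ y, x ≤ y → lev y = 1 → False := by
      intro y hy hl
      have e1 := hx.up R.chart hy
      have e2 := hx'.up R.chart.swap hy
      have hyN : y ∈ Nc := by
        rcases e1 with e | e
        · refine R.strip (mem_lowPart.mpr ⟨?_, ?_⟩)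
          · obtain ⟨x1, H1, hj⟩ := mem_junk.mp e
            exact (mem_jset.mp hj).1.le.trans (R.chart.le_t x1 H1.mem)
          · rw [hl]
            by_contra hcon
            have hj0 : j = 0 := by omega
            obtain ⟨x1, H1, hj⟩ := mem_junk.mp e
            have h3 := lev_strictAnti (mem_jset.mp hj).1
            obtain ⟨y0, hy0, hc0⟩ := R.one1
            have h4 := H1.lt y0 hy0 hc0
            have h5 := R.chart.lev x1 H1.mem
            omega
        · exact e.1
      have hly := R.chart.lev y hyN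
      have f1 : (co y).1 = 0 := by
        rcases e1 with e | e
        · exact (junk_fst R.chart R.one1 e hyN).2
        · exact e.2
      have f2 : (co y).2 = 0 := by
        rcases e2 with e | e
        · exact (junk_swp_fst R.chart R.one2 e hyN).2
        · exact e.2
      omega
    obtain ⟨q, hq1, hq2, hq3⟩ := exists_between H.gradedBelow (z := x) (s := (topOf x : P))
      (le_topOf x) (l := 1) (by have := (topOf x).2; omega) (by
        have := (H.covBy_iff.mp hzx).2
        omega)
    exact h2 q hq1 hq3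
  have huni := uc_two_of H hzx hzx' hne
  refine le_antisymm (nab_le_add huni hkz) ?_
  unfold nab
  rw [← Finset.card_union_of_disjoint]
  · refine Finset.card_le_card fun y hy => ?_
    rw [mem_union, mem_filter, mem_filter] at hy
    rw [mem_filter]
    rcases hy with hy | hy
    · exact ⟨hy.1, hzx.1.le.trans hy.2⟩
    · exact ⟨hy.1, hzx'.1.le.trans hy.2⟩
  · rw [Finset.disjoint_left]
    intro y hy hy'
    rw [mem_filter, mem_lv] at hy hy'
    have e1 := hx.up R.chart hy.2
    have e2 := hx'.up R.chart.swap hy'.2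
    have g1 := R.one1
    have g2 := R.one2
    rcases e1 with e1 | e1
    · rcases e2 with e2 | e2
      · obtain ⟨x1, H1, hj1⟩ := mem_junk.mp e1
        obtain ⟨x2, H2, hj2⟩ := mem_junk.mp e2
        exact junk_cross R.chart g1 g2 H1 H2 hj2 (mem_jset.mp hj1).1
      · have h3 := junk_fst R.chart g1 e1 e2.1
        have h4 := e2.2
        rw [swp_fst] at h4
        omega
    · have hl := R.chart.lev y e1.1
      rcases e2 with e2 | e2
      · have h3 := junk_swp_fst R.chart g2 e2 e1.1
        have h4 := e1.2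
        omega
      · have h3 := e1.2
        have h4 := e2.2
        rw [swp_fst] at h4
        omega

/-- the arithmetic of the own pairs -/
lemma own_arith {c s m : ℕ} (nb : ℕ → ℕ) (z : P) (hj : w ≤ j) (hw1 : 1 ≤ w)
    (hl : lev z = w + c) (hs : c = j + 1 - w + s) (hnb : ∀ n, nb n = nab (w + n) z)
    (h2 : ∀ n, n < c → 2 ≤ nb n) (he : ∀ n, n < c → (n ≤ j + 1 - w ∨ c ≤ n + 1) → nb n = 2)
    (hm : m = ∑ n ∈ range c, (nb n - 2)) :
    ∑ n ∈ range c, nb n = 2 * c + m ∧
      ∃ E, ful w z = (j + 1 - w + s) ^ 2 + E ∧ (j - w + 2) * m ≤ E ∧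
        E ≤ (j - w + (s - 1)) * m ∧ (1 ≤ m → 3 ≤ s) := by
  classical
  have h3 : ∑ n ∈ range c, nb n = 2 * c + m := by
    have : ∀ n ∈ range c, nb n = 2 + (nb n - 2) := fun n hn => by
      have := h2 n (mem_range.mp hn)
      omega
    rw [Finset.sum_congr rfl this, Finset.sum_add_distrib, ← hm, Finset.sum_const, card_range,
      smul_eq_mul]
    ring
  refine ⟨h3, ∑ n ∈ range c, n * (nb n - 2), ?_, ?_, ?_, ?_⟩
  · have h4 : ful w z = ∑ n ∈ range c, n * nb n + c := by
      have h5 : cst w (fun _ => c) z = ful w z := cst_eq_ful (h := fun _ => c) (by omega)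
      rw [← h5, cst_shift hl, Finset.sum_range_succ, ← hl, nab_self, mul_one, Nat.min_self]
      congr 1
      refine Finset.sum_congr rfl fun n hn => ?_
      rw [mem_range] at hn
      rw [Nat.min_eq_right hn.le, hnb]
    have h5 : ∑ n ∈ range c, n * nb n = (∑ n ∈ range c, n) * 2 + ∑ n ∈ range c, n * (nb n - 2) := by
      rw [Finset.sum_mul, ← Finset.sum_add_distrib]
      refine Finset.sum_congr rfl fun n hn => ?_
      have h6 := h2 n (mem_range.mp hn)
      obtain ⟨d, hd⟩ : ∃ d, nb n = 2 + d := ⟨nb n - 2, by omega⟩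
      rw [hd, Nat.add_sub_cancel_left]
      ring
    rw [h4, h5, Finset.sum_range_id_mul_two, ← hs]
    rcases Nat.eq_zero_or_pos c with h0 | h0
    · omega
    · obtain ⟨d, rfl⟩ : ∃ d, c = d + 1 := ⟨c - 1, by omega⟩
      rw [Nat.add_sub_cancel]
      ring
  · rw [hm, Finset.mul_sum]
    refine Finset.sum_le_sum fun n hn => ?_
    rw [mem_range] at hn
    by_cases h6 : n ≤ j + 1 - w ∨ c ≤ n + 1
    · rw [he n hn h6]
      simp
    · exact Nat.mul_le_mul_right _ (by omega)
  · rw [hm, Finset.mul_sum]
    refine Finset.sum_le_sum fun n hn => ?_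
    rw [mem_range] at hn
    by_cases h6 : n ≤ j + 1 - w ∨ c ≤ n + 1
    · rw [he n hn h6]
      simp
    · exact Nat.mul_le_mul_right _ (by omega)
  · intro hm1
    obtain ⟨n, hn, hn2⟩ : ∃ n ∈ range c, nb n - 2 ≠ 0 := by
      by_contra hcon
      push Not at hcon
      rw [Finset.sum_eq_zero hcon] at hm
      omega
    rw [mem_range] at hn
    have h6 : ¬ (n ≤ j + 1 - w ∨ c ≤ n + 1) := fun h => hn2 (by rw [he n hn h])
    omega

/-- no extra elements if the cost is small -/
lemma own_small {c s : ℕ} (nb : ℕ → ℕ) (z : P) (hj : w ≤ j)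
    (hl : lev z = w + c) (hs : c = j + 1 - w + s) (hnb : ∀ n, nb n = nab (w + n) z)
    (h2 : ∀ n, n < c → 2 ≤ nb n) (he : ∀ n, n < c → (n < j + 1 - w ∨ c ≤ n + 1) → nb n = 2)
    (hsm : ful w z ≤ (j + 1 - w) ^ 2 + 5 * (j - w)) : ∀ n, n < c → nb n = 2 := by
  classical
  intro n0 hn0
  by_contra hcon
  have h3 := h2 n0 hn0
  have h6 : ¬ (n0 < j + 1 - w ∨ c ≤ n0 + 1) := fun h => hcon (he n0 hn0 h)
  have h4 : ful w z = ∑ n ∈ range c, n * nb n + c := by
    have h5 : cst w (fun _ => c) z = ful w z := cst_eq_ful (h := fun _ => c) (by omega)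
    rw [← h5, cst_shift hl, Finset.sum_range_succ, ← hl, nab_self, mul_one, Nat.min_self]
    congr 1
    refine Finset.sum_congr rfl fun n hn => ?_
    rw [mem_range] at hn
    rw [Nat.min_eq_right hn.le, hnb]
  have h5 : ∑ n ∈ range c, (n * 2 + if n = n0 then n0 else 0) ≤ ∑ n ∈ range c, n * nb n := by
    refine Finset.sum_le_sum fun n hn => ?_
    rw [mem_range] at hn
    split_ifs with h
    · subst h
      calc n * 2 + n = n * 3 := by ring
        _ ≤ n * nb n := Nat.mul_le_mul_left _ (by omega)
    · rw [add_zero]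
      exact Nat.mul_le_mul_left _ (h2 n hn)
  rw [Finset.sum_add_distrib, Finset.sum_ite_eq' (range c) n0 (fun _ => n0),
    if_pos (mem_range.mpr hn0), ← Finset.sum_mul, Finset.sum_range_id_mul_two] at h5
  obtain ⟨y, hy⟩ : ∃ y, j + 1 - w = y := ⟨_, rfl⟩
  obtain ⟨d, hd⟩ : ∃ d, c = y + 2 + d := ⟨c - y - 2, by omega⟩
  have h7 : c * (c - 1) + c = c * c := by
    obtain ⟨c', rfl⟩ : ∃ c', c = c' + 1 := ⟨c - 1, by omega⟩
    rw [Nat.add_sub_cancel]
    ring
  have h8 : (y + 2) * (y + 2) ≤ c * c := Nat.mul_le_mul (by omega) (by omega)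
  have h9 : (y + 2) * (y + 2) = y ^ 2 + 4 * y + 4 := by ring
  rw [hy] at hsm h6
  omega

end Pool.Agent.GaussPoset

end

/-! From `Pool.Agent.W_448s7_h5.SevT` -/

section

/-!
# The windows of S7: straight covers below one top (MP_448cb3_co)
-/

namespace Pool.Agent.GaussPoset

set_option linter.unusedSectionVars false

open Polynomial Finset

universe u

variable {P : Type u} [Fintype P] [PartialOrder P] [DecidableEq P] {r j w : ℕ}
  {N : Tops P → Finset P} {b : Tops P → ℕ} {θ : Tops P → P → ℕ} {Ea : Tops P → Prop}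

/-- the own pair: two straight covers on the two sides of a rectangle-like component -/
theorem Wn.own_pair (W : Wn r j w N b θ) {v : ℕ}
    (hP : OnePen P j (fun t => 2 ≤ b t) ∨ v ≤ (j + 1 - w) ^ 2 + 5 * (j - w)) {z : P}
    (hz : z ∈ bdR (rA N)) (hh : hA N θ z = lev z - w) (hc : cst w (hA N θ) z = v) {t : Tops P}
    {c : ℕ} {Nc : Finset P} {co : P → ℕ × ℕ} (R : RectNat j w t c Nc co) {x x' : P}
    (hx : Side (fun _ => True) Nc co x) (hx' : Side (fun _ => True) Nc (swp co) x')
    (hzx : z ⋖ x) (hzx' : z ⋖ x') (hxt : topOf x = topOf x') (hB : 2 ≤ b (topOf x)) :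
    Out j w Ea (hA N θ) z v := by
  classical
  have H := W.gt.H
  have hg := W.gt.good
  have hj := W.hj
  have hw := W.hw
  have hlz := W.bd_lev hz
  have hw1 : 1 ≤ w := by
    have := R.b_two
    have := R.b_le
    omega
  have e1 := (H.covBy_iff.mp hzx).2
  have e2 := (H.covBy_iff.mp hzx').2
  have hsum := fun {k : ℕ} (hk : 1 ≤ k) (hkz : k < lev z) =>
    nab_two_sides H R hx hx' hzx hzx' hk hkz
  have n1 : ∀ k, k ≤ j → nab k x = 1 := fun k hk =>
    hx.nab_one rowT_true R.chart H hg R.strip R.one1 hk (by omega)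
  have n2 : ∀ k, k ≤ j → nab k x' = 1 := fun k hk =>
    hx'.nab_one rowT_true R.chart.swap H hg R.strip R.one2 hk (by omega)
  -- the ancestors of level `j`
  have hpar : OnePen P j (fun t => 2 ≤ b t) → ∀ (a a' : P), 2 ≤ b (topOf a) →
      topOf a = topOf a' → j + 1 ≤ lev a → j + 1 ≤ lev a' →
      a ≤ (topOf a : P) → (∀ k, k ≤ j → nab k a = 1) → (∀ k, k ≤ j → nab k a' = 1) →
      (∀ e e', a ≤ e → lev e = j → a' ≤ e' → lev e' = j → e ≠ e') →
      ∀ e p p' : P, a ≤ e → lev e = j → p ⋖ e → p' ⋖ e → (∀ y, p ⋖ y → y = e) →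
      (∀ y, p' ⋖ y → y = e) → p = p' := by
    intro hP a a' hBa htt hla hla' _ h1 h2 hdis e p p' hae hle hp hp' ho ho'
    obtain ⟨e', f1, f2, f3⟩ := exists_between H.gradedBelow (z := a') (s := (topOf a' : P))
      (le_topOf a') (l := j) (by have := (topOf a').2; omega) (by omega)
    have g1 : ∀ k, k ≤ j → nab k e = 1 := fun k hk => by
      have := nab_mono (l := k) hae
      have := one_le_nab (l := k) (z := e) (by omega)
      have := h1 k hk
      omega
    have g2 : ∀ k, k ≤ j → nab k e' = 1 := fun k hk => by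
      have := nab_mono (l := k) f1
      have := one_le_nab (l := k) (z := e') (by omega)
      have := h2 k hk
      omega
    have t1 : topOf e = topOf a := by
      refine Subtype.ext (W.gt.top_eq (by omega) (topOf e).2 (topOf a).2 (le_topOf e) ?_)
      -- `e` is the only ancestor of level `j`
      obtain ⟨q, q1, q2, q3⟩ := exists_between H.gradedBelow (z := a) (s := (topOf a : P))
        (le_topOf a) (l := j) (by have := (topOf a).2; omega) (by omega)
      by_cases hq : q = e
      · rw [← hq]; exact q2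
      · have := two_le_nab (l := j) q1 hae q3 hle hq
        have := h1 j le_rfl
        omega
    have ht : topOf e = topOf e' := by
      have t2 : topOf e' = topOf a' :=
        Subtype.ext (W.gt.top_eq (by omega) (topOf e').2 (topOf a').2 (le_topOf e') f2)
      rw [t1, t2, htt]
    exact hP e e' p p' (by rw [t1]; exact hBa) hle f3 g1 g2 ht (hdis e e' hae hle f1 f3) hp hp' ho
      ho'
  have hdis : ∀ e e', x ≤ e → lev e = j → x' ≤ e' → lev e' = j → e ≠ e' := by
    intro e e' he hle he' hle' hee
    have h3 := hsum (k := j) (by omega) (by omega)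
    rw [n1 j le_rfl, n2 j le_rfl] at h3
    -- `nab j z = 2` but both ancestors are equal
    subst hee
    have h4 : 2 ≤ nab j z := by omega
    unfold nab at h4
    obtain ⟨q, hq, hqe⟩ := Finset.exists_mem_ne (by omega :
      1 < ((lv P j).filter (fun y => z ≤ y)).card) e
    rw [mem_filter, mem_lv] at hq
    have hlt : z < q := lt_of_le_of_ne hq.2 (by rintro rfl; omega)
    obtain ⟨u, hu, huq⟩ := Hul.exists_cov hlt
    have hne : x ≠ x' := by
      rintro rfl
      have h5 := nab_only (z := z) (x := x) (k := j) ?_ hzx (by omega)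
      · rw [h5, n1 j le_rfl] at h3
        omega
      · intro y hy
        by_contra hyx
        have h6 := two_le_nab (l := 1) (z := z) (x := x) (y := x)
        -- `x` is on both sides: impossible
        have h7 := hsum (k := lev x) (by omega) (by omega)
        rw [nab_self] at h7
        have h8 := hx.up R.chart (le_refl x)
        obtain ⟨q1, r1, r2, r3⟩ := exists_between H.gradedBelow (z := x) (s := (topOf x : P))
          (le_topOf x) (l := 1) (by have := (topOf x).2; omega) (by omega)
        have s1 := hx.up R.chart r1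
        have s2 := hx'.up R.chart.swap r1
        have hqN : q1 ∈ Nc := by
          rcases s1 with s | s
          · refine R.strip (mem_lowPart.mpr ⟨?_, by omega⟩)
            obtain ⟨x1, H1, hj1⟩ := mem_junk.mp s
            exact (mem_jset.mp hj1).1.le.trans (R.chart.le_t x1 H1.mem)
          · exact s.1
        have hlq := R.chart.lev q1 hqN
        have u1 : (co q1).1 = 0 := by
          rcases s1 with s | s
          · exact (junk_fst R.chart R.one1 s hqN).2
          · exact s.2
        have u2 : (co q1).2 = 0 := by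
          rcases s2 with s | s
          · exact (junk_swp_fst R.chart R.one2 s hqN).2
          · exact s.2
        omega
    rcases uc_two_of H hzx hzx' hne u hu with h | h
    · rw [h] at huq
      have := two_le_nab (l := j) huq he hq.1 hle hqe
      rw [n1 j le_rfl] at this
      omega
    · rw [h] at huq
      have := two_le_nab (l := j) huq he' hq.1 hle hqe
      rw [n2 j le_rfl] at this
      omega
  -- numbers
  obtain ⟨c0, hc0⟩ : ∃ c0, lev z = w + c0 := ⟨lev z - w, by omega⟩
  obtain ⟨s, hs⟩ : ∃ s, c0 = j + 1 - w + s := ⟨c0 - (j + 1 - w), by omega⟩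
  have hge2 : ∀ n, n < c0 → 2 ≤ nab (w + n) z := by
    intro n hn
    rw [hsum (k := w + n) (by omega) (by omega)]
    have := one_le_nab (l := w + n) (z := x) (by omega)
    have := one_le_nab (l := w + n) (z := x') (by omega)
    omega
  have heq1 : ∀ n, n < c0 → (n < j + 1 - w ∨ c0 ≤ n + 1) → nab (w + n) z = 2 := by
    intro n hn hor
    rw [hsum (k := w + n) (by omega) (by omega)]
    rcases Nat.lt_or_ge (w + n) (j + 1) with h | h
    · rw [n1 _ (by omega), n2 _ (by omega)]
    · rw [show w + n = lev x by omega, nab_self, show lev x = lev x' by omega, nab_self]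
  have heq2 : ∀ n, n < c0 → (n ≤ j + 1 - w ∨ c0 ≤ n + 1) → nab (w + n) z = 2 := by
    intro n hn hor
    by_cases hor' : n < j + 1 - w ∨ c0 ≤ n + 1
    · exact heq1 n hn hor'
    rcases hP with hP | hP
    · rw [hsum (k := w + n) (by omega) (by omega)]
      have hk : w + n = j + 1 := by omega
      rw [hk]
      have a1 := hx.nab_succ rowT_true R.chart H hg R.strip R.one1 (by omega)
        (hpar hP x x' hB hxt (by omega) (by omega) (le_topOf x) n1 n2 hdis)
      have a2 := hx'.nab_succ rowT_true R.chart.swap H hg R.strip R.one2 (by omega)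
        (hpar hP x' x (by rw [← hxt]; exact hB) hxt.symm (by omega) (by omega) (le_topOf x') n2 n1
          (fun e e' q1 q2 q3 q4 => (hdis e' e q3 q4 q1 q2).symm))
      rw [a1, a2]
    · have hv : v = ful w z := by
        rw [← hc]
        exact cst_eq_ful (by omega)
      exact own_small (w := w) (j := j) (c := c0) (s := s) (fun n => nab (w + n) z) z (by omega) hc0
        hs (fun _ => rfl) hge2 heq1 (by rw [← hv]; exact hP) n hn
  obtain ⟨h5, E, h6, h7, h8, h9⟩ := own_arith (w := w) (j := j) (c := c0) (s := s)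
    (fun n => nab (w + n) z) z (by omega) hw1 hc0 hs (fun _ => rfl) hge2 heq2 rfl
  have hnst : nst w (hA N θ) z = 2 * c0 + ∑ n ∈ range c0, (nab (w + n) z - 2) := by
    rw [nst_eq, hh, show lev z - w = c0 by omega]
    exact h5
  have hv : v = ful w z := by
    rw [← hc]
    exact cst_eq_ful (by omega)
  set m := ∑ n ∈ range c0, (nab (w + n) z - 2) with hm
  right
  refine ⟨?_, ?_⟩
  · rw [hh, show w + (lev z - w) = lev z by omega, nab_self]
    exact heq2 0 (by omega) (by omega)
  · rcases Nat.eq_zero_or_pos m with h0 | h0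
    · left
      rw [h0, add_zero] at hnst
      refine ⟨⟨c0, by rw [hnst]; ring⟩, hw1, Or.inl ⟨s, ?_⟩⟩
      have h10 : E = 0 := by
        rw [h0, mul_zero] at h8
        omega
      rw [hv, h6, h10, add_zero]
    · have h3s := h9 h0
      rcases Nat.even_or_odd m with hme | hmo
      · left
        refine ⟨?_, hw1, Or.inr (Or.inr ⟨s, m, E, h3s, h0, hme, by rw [hv, h6], h7, h8⟩)⟩
        rw [hnst]
        exact (even_two_mul c0).add hme
      · right; left
        refine ⟨?_, hw1, Or.inl ⟨s, m, E, h3s, h0, hmo, by rw [hv, h6], h7, h8⟩⟩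
        rw [hnst]
        exact (even_two_mul c0).add_odd hmo

/-- straight covers below one top -/
theorem Wn.own_out (W : Wn r j w N b θ) {v : ℕ}
    (hP : OnePen P j (fun t => 2 ≤ b t) ∨ v ≤ (j + 1 - w) ^ 2 + 5 * (j - w)) {z : P}
    (hz : z ∈ bdR (rA N)) (hh : hA N θ z = lev z - w) (hc : cst w (hA N θ) z = v)
    (hF : ∀ x, z ⋖ x → x ∉ unnat N ∧ Str w N θ x) {t : Tops P}
    (ht : ∀ x, z ⋖ x → topOf x = t) : Out j w Ea (hA N θ) z v := by
  classical
  have H := W.gt.H
  have HN := W.natSys
  have hj := W.hj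
  have hw := W.hw
  have hlz := W.bd_lev hz
  have hzu := (mem_rA.mp (mem_bdR.mp hz).1).1
  obtain ⟨x, hzx, -⟩ := Hul.exists_cov (w := z) (v := (topOf z : P))
    (lt_of_le_of_ne (le_topOf z) (by
      intro h
      have := (topOf z).2
      rw [← h] at this
      omega))
  have hzN := mem_unnat.mp hzu t
  have hin : ∀ x, z ⋖ x → x ∈ N t ∧ θ t x = lev x - w ∧ lev z = lev x + 1 := by
    intro x hx
    refine ⟨HN.mem_iff.mpr ⟨(hF x hx).1, ht x hx⟩, ?_, (H.covBy_iff.mp hx).2⟩
    rw [← ht x hx]
    exact (hF x hx).2.th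
  have hxx := hin x hzx
  rcases W.typ t with ⟨g1, g2, g3, g5⟩ | ⟨Nc, co, h0, g1, g2, g4⟩ |
    ⟨Nc, co, h0, g1, g2, g3, g4, g5'⟩
  · exfalso
    apply hzN
    rw [g1, mem_onlyB]
    intro s hs hzs
    have hzs' : z < s := lt_of_le_of_ne hzs (by rintro rfl; omega)
    obtain ⟨u, hu, hus⟩ := Hul.exists_cov hzs'
    have h1 := (hin u hu).1
    rw [g1, mem_onlyB] at h1
    exact h1 s hs hus
  · rw [g1] at hzN
    have hside : ∀ x, z ⋖ x → Side (fun _ => True) Nc co x ∨ Side (fun _ => True) Nc (swp co) x := by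
      intro x hx
      obtain ⟨a1, a2, a3⟩ := hin x hx
      rw [g1] at a1
      rw [g2] at a2
      exact rect_str h0 hw a1 (by omega) a2
    by_cases honly : ∀ y, z ⋖ y → y = x
    · exfalso
      obtain ⟨a1, a2, a3, a4, a5⟩ := rect_pendant H h0 g1 hzu hxx.1 hzx honly
      rcases hside x hzx with h | h
      · rcases h with h | h
        · exact a2 h
        · have := h.2
          omega
      · rcases h with h | h
        · exact a3 h
        · have := h.2
          rw [swp_fst] at this
          omega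
    · push Not at honly
      obtain ⟨x', hzx', hne'⟩ := honly
      have hne : x ≠ x' := Ne.symm hne'
      have hxx' := hin x' hzx'
      have huni := uc_two_of H hzx hzx' hne
      have htt : topOf x = topOf x' := by rw [ht x hzx, ht x' hzx']
      rcases hside x hzx with h | h
      · rcases hside x' hzx' with h' | h'
        · exact absurd (mem_natR.mpr (Or.inr (Or.inl
            (junk_of_sides rowT_true h0.chart h0.one1 h h' hne (by omega) huni hzx)))) hzN
        · exact W.own_pair hP hz hh hc h0 h h' hzx hzx' htt (by rw [ht x hzx]; exact h0.b_two)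
      · rcases hside x' hzx' with h' | h'
        · exact W.own_pair hP hz hh hc h0 h' h hzx' hzx htt.symm
            (by rw [ht x' hzx']; exact h0.b_two)
        · exact absurd (mem_natR.mpr (Or.inr (Or.inr
            (junk_of_sides rowT_true h0.chart.swap h0.one2 h h' hne (by omega) huni hzx)))) hzN
  · exfalso
    rw [g1] at hzN
    have hside : ∀ x, z ⋖ x → Side (fun c => c.1 ≤ c.2) Nc co x := by
      intro x hx
      obtain ⟨a1, a2, a3⟩ := hin x hx
      rw [g1] at a1
      rw [g2] at a2
      exact stair_str h0 hw g4 a1 (by omega) a2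
    by_cases honly : ∀ y, z ⋖ y → y = x
    · obtain ⟨a1, a2, a3⟩ := stair_pendant H h0 (by omega) g1 hzu hxx.1 hzx honly
      rcases hside x hzx with h | h
      · exact a2 h
      · have := h.2
        omega
    · push Not at honly
      obtain ⟨x', hzx', hne'⟩ := honly
      have hne : x ≠ x' := Ne.symm hne'
      have hxx' := hin x' hzx'
      have huni := uc_two_of H hzx hzx' hne
      exact hzN (mem_natS.mpr (Or.inr (junk_of_sides rowT_shift h0.chart (h0.one1 g4)
        (hside x hzx) (hside x' hzx') hne (by omega) huni hzx)))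

end Pool.Agent.GaussPoset

end
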