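import Mathlib
import Pool.Agent.W_448zz_h61.Ns
import Pool.Agent.W_448zz_h61.M047

/-! From `Pool.Agent.W_448s7_h5.SevU` -/

section

/-!
# The windows of S7: straight covers below two tops (MP_448cb3_co)
-/

namespace Pool.Agent.GaussPoset

set_option linter.unusedSectionVars false

open Polynomial Finset

universe u

variable {P : Type u} [Fintype P] [PartialOrder P] [DecidableEq P] {r j w : ℕ}
  {N : Tops P → Finset P} {b : Tops P → ℕ} {θ : Tops P → P → ℕ} {Ea : Tops P → Prop}

/-- private elements of early components which are not straight (windows `0`, `1` only) -/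
def Fat (j w : ℕ) (x : P) : Prop :=
  w ≤ 1 ∧ (∀ k, 2 ≤ k → k + 2 ≤ j → 2 ≤ nab k x) ∧
    (lev x = j → (Win.uc x).card = 2 ∨
      (j % 2 = 0 ∧ ∀ k, k ≤ j → nab k x + (k - j / 2) = k / 2 + 1))

/-- the strips which are light at window `w` -/
structure Lgt (j w : ℕ) (b : Tops P → ℕ) (Ea : Tops P → Prop) : Prop where
  uniq : ∀ t : Tops P, b t = 1 → ∀ x y : P, x ≤ (t : P) → y ≤ (t : P) → lev x = w →
    lev y = w → x = y
  dich : ∀ t : Tops P, Ea t → b t = 1 → ∀ x ∈ onlyB t, j ≤ lev x →
    (∀ k, k ≤ j → nab k x = 1) ∨ Fat j w x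

/-- straight natural elements -/
lemma Wn.str_nab (W : Wn r j w N b θ) (L : Lgt j w b Ea) {x : P} (hx : x ∉ unnat N)
    (hS : Str w N θ x) (hl : j ≤ lev x) :
    nab w x = 1 ∧ ((Ea (topOf x) → ∀ k, k ≤ j → nab k x = 1) ∨ Fat j w x) := by
  classical
  have H := W.gt.H
  have HN := W.natSys
  have hg := W.gt.good
  have hj := W.hj
  have hw := W.hw
  have hxt : x ∈ N (topOf x) := HN.mem_iff.mpr ⟨hx, rfl⟩
  have hth := hS.th
  generalize topOf x = t at hxt hth ⊢
  rcases W.typ t with ⟨g1, g2, g3, g5⟩ | ⟨Nc, co, h0, g1, g2, g4⟩ |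
    ⟨Nc, co, h0, g1, g2, g3, g4, g5'⟩
  · rw [g1] at hxt
    constructor
    · refine le_antisymm ?_ (one_le_nab (by omega))
      unfold nab
      rw [Finset.card_le_one]
      intro y hy y' hy'
      rw [mem_filter, mem_lv] at hy hy'
      exact L.uniq t g3 y y' (onlyB_le (onlyB_up hxt hy.2)) (onlyB_le (onlyB_up hxt hy'.2)) hy.1
        hy'.1
    · by_cases hE : Ea t
      · rcases L.dich t hE g3 x hxt hl with h | h
        · exact Or.inl fun _ => h
        · exact Or.inr h
      · exact Or.inl fun h => absurd h hE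
  · rw [g1] at hxt
    rw [g2] at hth
    rcases rect_str h0 hw hxt (by omega) hth with h | h
    · have := fun k (hk : k ≤ j) =>
        h.nab_one rowT_true h0.chart H hg h0.strip h0.one1 hk (by omega)
      exact ⟨this w (by omega), Or.inl fun _ => this⟩
    · have := fun k (hk : k ≤ j) =>
        h.nab_one rowT_true h0.chart.swap H hg h0.strip h0.one2 hk (by omega)
      exact ⟨this w (by omega), Or.inl fun _ => this⟩
  · rw [g1] at hxt
    rw [g2] at hth
    have h := stair_str h0 hw g4 hxt (by omega) hth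
    have := fun k (hk : k ≤ j) =>
      h.nab_one rowT_shift h0.chart H hg h0.strip (h0.one1 g4) hk (by omega)
    exact ⟨this w (by omega), Or.inl fun _ => this⟩

/-- lower bound of the full cost -/
lemma ful_ge {z : P} {c : ℕ} (g : ℕ → ℕ) (hl : lev z = w + c)
    (h : ∀ n, 1 ≤ n → n < c → 2 + g n ≤ nab (w + n) z) :
    c ^ 2 + ∑ n ∈ range c, n * g n ≤ ful w z := by
  have h1 := cst_ge_shift (i := w) (h := fun _ => c) (x := z) (fun n => 2 + g n) hl (by omega) h
  rw [cst_eq_ful (h := fun _ => c) (by omega)] at h1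
  have h2 : ∑ n ∈ range c, n * (2 + g n) = (∑ n ∈ range c, n) * 2 + ∑ n ∈ range c, n * g n := by
    rw [Finset.sum_mul, ← Finset.sum_add_distrib]
    refine Finset.sum_congr rfl fun n _ => ?_
    ring
  rw [h2, Finset.sum_range_id_mul_two, Nat.min_self] at h1
  rcases Nat.eq_zero_or_pos c with h0 | h0
  · subst h0
    simpa using h1
  · obtain ⟨d, rfl⟩ : ∃ d, c = d + 1 := ⟨c - 1, by omega⟩
    rw [Nat.add_sub_cancel] at h1
    have : (d + 1) ^ 2 = (d + 1) * d + (d + 1) := by ring
    omega

/-- an element of level greater than `j + 1` above which there are three elements on most levels -/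
lemma fat_far {z : P} (hj : 17 ≤ j) (hw : w ≤ 1) (hl : j + 2 ≤ lev z)
    (h2 : ∀ k, w < k → k < lev z → 2 ≤ nab k z) (h3 : ∀ k, 2 ≤ k → k + 2 ≤ j → 3 ≤ nab k z) :
    cap j w < ful w z := by
  obtain ⟨c, hc⟩ : ∃ c, lev z = w + c := ⟨lev z - w, by omega⟩
  obtain ⟨y, hy⟩ : ∃ y, j + 1 = w + y := ⟨j + 1 - w, by omega⟩
  have hcap := cap_eq hy (by omega)
  have h4 := ful_ge (fun n => ind (2 - w) (y - 2) n) hc (fun n hn1 hn2 => by
    have e1 := h2 (w + n) (by omega) (by omega)
    unfold ind
    split_ifs with h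
    · have := h3 (w + n) (by omega) (by omega)
      omega
    · omega)
  have g2 := sum_ind (s := 2 - w) (a := y - 2) (m := c) (by omega)
  obtain ⟨d, rfl⟩ : ∃ d, y = d + 17 := ⟨y - 17, by omega⟩
  have e4 := sq_add_mono (y := d + 18) (a := c) (by omega)
  rw [show d + 17 - 2 = d + 15 by omega, show d + 15 - 1 = d + 14 by omega,
    show (d + 15) * (d + 14) = d * d + 29 * d + 210 by ring] at g2
  rw [show d + 17 - 2 = d + 15 by omega] at h4
  have e5 : (d + 17) ^ 2 = d * d + 34 * d + 289 := by ring
  have e6 : (d + 18) ^ 2 = d * d + 36 * d + 324 := by ring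
  have e7 : (d + 18) ^ 2 ≤ c ^ 2 := Nat.pow_le_pow_left (by omega) 2
  rw [e6] at e7
  rw [e5] at hcap
  have hw01 : w = 0 ∨ w = 1 := by omega
  rcases hw01 with rfl | rfl
  · norm_num at g2 h4
    omega
  · norm_num at g2 h4
    omega

/-- an element of level `j + 1` below a fold end and another top -/
lemma fat_fold {z x : P} (hj : 17 ≤ j) (hw : w ≤ 1) (hl : lev z = j + 1) (hj2 : j % 2 = 0)
    (hx : ∀ k, k ≤ j → nab k x + (k - j / 2) = k / 2 + 1)
    (hn : ∀ k, k ≤ j → nab k x + 1 ≤ nab k z) : cap j w < ful w z := by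
  obtain ⟨c, hc⟩ : ∃ c, lev z = w + c := ⟨lev z - w, by omega⟩
  have hcap := cap_eq (j := j) (w := w) (y := c) (by omega) (by omega)
  have h4 := ful_ge (fun n => ind (2 - w) (c - 2) n + ind (4 - w) (c - 4) n +
    ind (6 - w) (c - 6) n + 0) hc (fun n hn1 hn2 => by
    have e1 := hn (w + n) (by omega)
    have e2 := hx (w + n) (by omega)
    unfold ind
    split_ifs <;> omega)
  rw [sum_split4] at h4
  have g2 := sum_ind (s := 2 - w) (a := c - 2) (m := c) (by omega)
  have g3 := sum_ind (s := 4 - w) (a := c - 4) (m := c) (by omega)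
  have g4 := sum_ind (s := 6 - w) (a := c - 6) (m := c) (by omega)
  obtain ⟨d, rfl⟩ : ∃ d, c = d + 18 := ⟨c - 18, by omega⟩
  rw [show d + 18 - 2 = d + 16 by omega, show d + 16 - 1 = d + 15 by omega,
    show (d + 16) * (d + 15) = d * d + 31 * d + 240 by ring] at g2
  rw [show d + 18 - 4 = d + 14 by omega, show d + 14 - 1 = d + 13 by omega,
    show (d + 14) * (d + 13) = d * d + 27 * d + 182 by ring] at g3
  rw [show d + 18 - 6 = d + 12 by omega, show d + 12 - 1 = d + 11 by omega,
    show (d + 12) * (d + 11) = d * d + 23 * d + 132 by ring] at g4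
  rw [show d + 18 - 2 = d + 16 by omega, show d + 18 - 4 = d + 14 by omega,
    show d + 18 - 6 = d + 12 by omega] at h4
  have e5 : (d + 18) ^ 2 = d * d + 36 * d + 324 := by ring
  rw [e5] at hcap h4
  simp only [mul_zero, Finset.sum_const_zero, add_zero] at h4
  have hw01 : w = 0 ∨ w = 1 := by omega
  rcases hw01 with rfl | rfl
  · norm_num at g2 g3 g4 h4
    omega
  · norm_num at g2 g3 g4 h4
    omega

/-- straight covers below two tops -/
theorem Wn.cross_out (W : Wn r j w N b θ) (L : Lgt j w b Ea) {v : ℕ} {z : P}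
    (hz : z ∈ bdR (rA N)) (hh : hA N θ z = lev z - w) (hc : cst w (hA N θ) z = v) {x x' : P}
    (hx : x ∉ unnat N) (hx' : x' ∉ unnat N) (hS : Str w N θ x) (hS' : Str w N θ x')
    (hzx : z ⋖ x) (hzx' : z ⋖ x') (htt : topOf x ≠ topOf x') : Out j w Ea (hA N θ) z v := by
  classical
  have H := W.gt.H
  have HN := W.natSys
  have hj := W.hj
  have hw := W.hw
  have hlz := W.bd_lev hz
  have e1 := (H.covBy_iff.mp hzx).2
  have e2 := (H.covBy_iff.mp hzx').2
  have hne : x ≠ x' := by rintro rfl; exact htt rfl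
  have hxt : x ∈ N (topOf x) := HN.mem_iff.mpr ⟨hx, rfl⟩
  have hxt' : x' ∈ N (topOf x') := HN.mem_iff.mpr ⟨hx', rfl⟩
  obtain ⟨n1, d1⟩ := W.str_nab L hx hS (by omega)
  obtain ⟨n2, d2⟩ := W.str_nab L hx' hS' (by omega)
  have hsum := fun {k : ℕ} (hk : k < lev z) => nab_join_eq HN H hxt hxt' htt hzx hzx' hk
  have hv : v = ful w z := by
    rw [← hc]
    exact cst_eq_ful (by omega)
  -- the fat case
  have fat : ∀ a a' : P, a ∉ unnat N → z ⋖ a → z ⋖ a' → a ≠ a' → Fat j w a →
      (∀ k, k < lev z → nab k z = nab k a + nab k a') → cap j w < v := by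
    intro a a' ha hza hza' hne hF hs
    have e1 := (H.covBy_iff.mp hza).2
    have e2 := (H.covBy_iff.mp hza').2
    obtain ⟨f1, f2, f3⟩ := hF
    rw [hv]
    by_cases hl : lev z = j + 1
    · have hn := W.near (mem_bdR.mp hz).1 hl hza hza' hne
      rcases f3 (by omega) with h | ⟨h, h'⟩
      · omega
      · refine fat_fold hj f1 hl h h' fun k hk => ?_
        rw [hs k (by omega)]
        have := one_le_nab (l := k) (z := a') (by omega)
        omega
    · refine fat_far hj f1 (by omega) (fun k _ hk => ?_) fun k hk1 hk2 => ?_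
      · rw [hs k hk]
        have := one_le_nab (l := k) (z := a') (by omega)
        have := one_le_nab (l := k) (z := a) (by omega)
        omega
      · rw [hs k (by omega)]
        have := one_le_nab (l := k) (z := a') (by omega)
        have := f2 k hk1 hk2
        omega
  rcases d1 with d1 | d1
  · rcases d2 with d2 | d2
    · right
      refine ⟨?_, Or.inr (Or.inr ⟨⟨x, x', hzx, hzx', ?_, ?_, htt, d1, d2⟩, hv, hh⟩)⟩
      · rw [hsum (by omega), n1, n2, hh, show w + (lev z - w) = lev z by omega, nab_self]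
      · exact mem_onlyB.mpr fun s hs hxs => HN.top_eq hxt hs hxs
      · exact mem_onlyB.mpr fun s hs hxs => HN.top_eq hxt' hs hxs
    · exact Or.inl (fat x' x hx' hzx' hzx hne.symm d2 fun k hk => by rw [hsum hk, Nat.add_comm])
  · exact Or.inl (fat x x' hx hzx hzx' hne d1 fun k hk => hsum hk)

end Pool.Agent.GaussPoset

end

/-! From `Pool.Agent.W_448s7_h5.SevV` -/

section

/-!
# The windows of S7: light strips of early components (MP_448cb3_co)
-/

namespace Pool.Agent.GaussPoset

set_option linter.unusedSectionVars false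

open Polynomial Finset

universe u

variable {P : Type u} [Fintype P] [PartialOrder P] [DecidableEq P] {r j w : ℕ}

/-- numbers of elements above `x` through its only ancestor of level `j` -/
lemma nab_through (H : Gr P r) {x q : P} (hxq : x ≤ q) (hq : lev q = j)
    (huni : ∀ q', x ≤ q' → lev q' = j → q' = q) {k : ℕ} (hk : k ≤ j) : nab k x = nab k q := by
  classical
  unfold nab
  congr 1
  ext y
  rw [mem_filter, mem_filter, mem_lv]
  refine and_congr_right fun hy => ⟨fun h => ?_, fun h => hxq.trans h⟩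
  obtain ⟨q', h1, h2, h3⟩ := exists_between H.gradedBelow (z := x) (s := y) h (l := j) (by omega)
    (by have := Sev_lev_le_of_le hxq; omega)
  rw [← huni q' h1 h3]
  exact h2

section Strip

open Cp

variable {t : Tops P} {lo hi : ℕ → ℕ} {e : ℕ → ℕ → P}

/-- a chart of the low part of a strip: the ancestors of a private element -/
lemma low_anc {x q : P} (hx : x ∈ onlyB t) (hxq : x ≤ q) (hq : lev q = j) :
    q ∈ lowPart j (t : P) :=
  mem_lowPart.mpr ⟨onlyB_le (onlyB_up hx hxq), hq.le⟩

/-- rectangle-like strips -/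
lemma rect_dich (H : Gr P r) {co : P → ℕ × ℕ}
    (C : Chart (t : P) (fun _ => True) (lowPart j (t : P)) co) (hj : 17 ≤ j) {x : P}
    (hx : x ∈ onlyB t) (hl : j ≤ lev x) :
    (∀ k, k ≤ j → nab k x = 1) ∨ ((∀ k, 2 ≤ k → k + 2 ≤ j → 2 ≤ nab k x) ∧
      (lev x = j → (Win.uc x).card = 2)) := by
  classical
  -- straight and inner cells
  have hstr : ∀ q ∈ lowPart j (t : P), lev q = j → ((co q).1 = 0 ∨ (co q).2 = 0) →
      ∀ k, k ≤ j → nab k q = 1 := by
    intro q hq hlq h0 k hk
    have h1 := rect_nab C hq (k := k) (by omega)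
    have h2 := C.lev q hq
    omega
  have hinn : ∀ q ∈ lowPart j (t : P), lev q = j → 1 ≤ (co q).1 → 1 ≤ (co q).2 →
      ∀ k, 2 ≤ k → k + 2 ≤ j → 2 ≤ nab k q := by
    intro q hq hlq h1 h2 k hk hk2
    have h3 := rect_nab C hq (k := k) (by omega)
    have h4 := C.lev q hq
    omega
  by_cases hin : ∃ q, x ≤ q ∧ lev q = j ∧ 1 ≤ (co q).1 ∧ 1 ≤ (co q).2
  · obtain ⟨q, h1, h2, h3, h4⟩ := hin
    have hq := low_anc hx h1 h2
    right
    refine ⟨fun k hk hk2 => (hinn q hq h2 h3 h4 k hk hk2).trans (nab_mono h1), fun hlx => ?_⟩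
    have : x = q := by
      by_contra hne
      have := lev_strictAnti (lt_of_le_of_ne h1 hne)
      omega
    rw [this]
    exact chart_inner_uc C H hq h3 h4
  · push Not at hin
    have hst : ∀ q, x ≤ q → lev q = j → (co q).1 = 0 ∨ (co q).2 = 0 := by
      intro q h1 h2
      have := hin q h1 h2
      omega
    obtain ⟨q, h1, h2, h3⟩ := exists_between H.gradedBelow (z := x) (s := (t : P)) (onlyB_le hx)
      (l := j) (by have := t.2; omega) hl
    by_cases huni : ∀ q', x ≤ q' → lev q' = j → q' = q
    · left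
      intro k hk
      rw [nab_through H h1 h3 huni hk]
      exact hstr q (low_anc hx h1 h3) h3 (hst q h1 h3) k hk
    · push Not at huni
      obtain ⟨q', h1', h3', hne⟩ := huni
      right
      have hq := low_anc hx h1 h3
      have hq' := low_anc hx h1' h3'
      have key : ∀ a a' : P, x ≤ a → x ≤ a' → a ∈ lowPart j (t : P) → a' ∈ lowPart j (t : P) →
          lev a = j → lev a' = j → (co a).1 = 0 → (co a').2 = 0 → ∀ k, 2 ≤ k → k + 2 ≤ j →
          2 ≤ nab k x := by
        intro a a' hxa hxa' ha ha' hla hla' h0 h0' k hk hk2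
        have l1 := C.lev a ha
        have l2 := C.lev a' ha'
        obtain ⟨y, hy, hcy⟩ := C.low a ha (0, k) ⟨Nat.zero_le _, by simp only; omega⟩ trivial
        obtain ⟨y', hy', hcy'⟩ := C.low a' ha' (k, 0) ⟨by simp only; omega, Nat.zero_le _⟩ trivial
        have ly := C.lev y hy
        have ly' := C.lev y' hy'
        rw [hcy] at ly
        rw [hcy'] at ly'
        simp only at ly ly'
        refine two_le_nab (x := y) (y := y') (hxa.trans ?_) (hxa'.trans ?_) (by omega) (by omega) ?_
        · rw [C.le_iff a ha y hy, hcy]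
          exact ⟨Nat.zero_le _, by simp only; omega⟩
        · rw [C.le_iff a' ha' y' hy', hcy']
          exact ⟨by simp only; omega, Nat.zero_le _⟩
        · rintro rfl
          rw [hcy] at hcy'
          simp only [Prod.mk.injEq] at hcy'
          omega
      have l1 := C.lev q hq
      have l2 := C.lev q' hq'
      refine ⟨?_, fun hlx => ?_⟩
      · rcases hst q h1 h3 with s1 | s1
        · rcases hst q' h1' h3' with s2 | s2
          · exact absurd (C.inj q' hq' q hq (Prod.ext (by omega) (by omega))) hne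
          · exact key q q' h1 h1' hq hq' h3 h3' s1 s2
        · rcases hst q' h1' h3' with s2 | s2
          · exact key q' q h1' h1 hq' hq h3' h3 s2 s1
          · exact absurd (C.inj q' hq' q hq (Prod.ext (by omega) (by omega))) hne
      · exfalso
        have a1 : x = q := by
          by_contra hcon
          have := lev_strictAnti (lt_of_le_of_ne h1 hcon)
          omega
        have a2 : x = q' := by
          by_contra hcon
          have := lev_strictAnti (lt_of_le_of_ne h1' hcon)
          omega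
        exact hne (a2.symm.trans a1)

/-- stair-like strips -/
lemma stair_dich (H : Gr P r) {co : P → ℕ × ℕ}
    (C : Chart (t : P) (fun c => c.1 ≤ c.2) (lowPart j (t : P)) co) (hj : 17 ≤ j) {x : P}
    (hx : x ∈ onlyB t) (hl : j ≤ lev x) :
    (∀ k, k ≤ j → nab k x = 1) ∨ ((∀ k, 2 ≤ k → k + 2 ≤ j → 2 ≤ nab k x) ∧
      (lev x = j → (Win.uc x).card = 2 ∨
        (j % 2 = 0 ∧ ∀ k, k ≤ j → nab k x + (k - j / 2) = k / 2 + 1))) := by
  classical
  by_cases hin : ∃ q, x ≤ q ∧ lev q = j ∧ 1 ≤ (co q).1
  · obtain ⟨q, h1, h2, h3⟩ := hin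
    have hq := low_anc hx h1 h2
    have hm : (co q).1 ≤ (co q).2 := C.mem q hq
    have hlq := C.lev q hq
    right
    refine ⟨fun k hk hk2 => le_trans ?_ (nab_mono h1), fun hlx => ?_⟩
    · have h4 := stair_nab C hq (k := k) (by omega)
      omega
    · have : x = q := by
        by_contra hne
        have := lev_strictAnti (lt_of_le_of_ne h1 hne)
        omega
      rw [this]
      rcases Nat.lt_or_ge (co q).1 (co q).2 with h4 | h4
      · exact Or.inl (stair_inner_uc C H hq h3 h4)
      · right
        refine ⟨by omega, fun k hk => ?_⟩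
        have h5 := stair_nab C hq (k := k) (by omega)
        have h6 : (co q).2 = j / 2 := by omega
        rw [h6] at h5
        omega
  · push Not at hin
    left
    obtain ⟨q, h1, h2, h3⟩ := exists_between H.gradedBelow (z := x) (s := (t : P)) (onlyB_le hx)
      (l := j) (by have := t.2; omega) hl
    have hq := low_anc hx h1 h3
    have hlq := C.lev q hq
    have h4 := hin q h1 h3
    intro k hk
    rw [nab_through H h1 h3 (fun q' h1' h3' => by
      have hq' := low_anc hx h1' h3'
      have hlq' := C.lev q' hq'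
      have h4' := hin q' h1' h3'
      exact C.inj q' hq' q hq (Prod.ext (by omega) (by omega))) hk]
    have h5 := stair_nab C hq (k := k) (by omega)
    omega

/-- a rectangle-like strip with one element on a level `w ≥ 1` is a chain -/
lemma rect_chain (C : Comp j (t : P) lo hi e) (S : RectShape j lo hi) (hw : 1 ≤ w) (hwj : w < j)
    (h : lo w = hi w) : ∀ k, k ≤ j → lo k = hi k := by
  have h0 := C.lo_zero
  have h0' := C.hi_zero
  have l1 : lo 1 = lo 0 ∨ lo 1 = lo 0 + 1 := C.lo_step 0 (by omega)
  have u1 : hi 1 = hi 0 ∨ hi 1 = hi 0 + 1 := C.hi_step 0 (by omega)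
  have e1 := C.lo_le 1 (by omega)
  have hlo1 : lo 1 = hi 1 := by
    by_contra hne
    have a1 : lo 1 = 0 := by omega
    have a2 : hi 1 = 1 := by omega
    have hmono : ∀ d, 1 + d ≤ j → 1 ≤ hi (1 + d) := by
      intro d
      induction d with
      | zero => intro _; show 1 ≤ hi 1; omega
      | succ d ih =>
        intro hd
        have := C.hi_step (1 + d) (by omega)
        have := ih (by omega)
        rw [show 1 + (d + 1) = 1 + d + 1 by omega]
        omega
    have hhw : 1 ≤ hi w := by
      have := hmono (w - 1) (by omega)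
      rwa [show 1 + (w - 1) = w by omega] at this
    have hlt : ∀ d, 1 + d ≤ j → lo (1 + d) ≤ d := by
      intro d
      induction d with
      | zero => intro _; show lo 1 ≤ 0; omega
      | succ d ih =>
        intro hd
        have := C.lo_step (1 + d) (by omega)
        have := ih (by omega)
        rw [show 1 + (d + 1) = 1 + d + 1 by omega]
        omega
    have hlw : lo w ≤ w - 1 := by
      have := hlt (w - 1) (by omega)
      rwa [show 1 + (w - 1) = w by omega] at this
    have s1 := shape_lo C S.lo (l := w) (by omega) 1 (by omega)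
    have s2 := shape_hi C S.hi (l := w) (by omega) 1 (by omega)
    have := C.lo_le (w + 1) (by omega)
    omega
  intro k hk
  rcases Nat.eq_zero_or_pos k with hk0 | hk0
  · subst hk0; omega
  · rcases Nat.eq_zero_or_pos (hi 1) with h1 | h1
    · have s2 := shape_hi C S.hi (l := 1) (by omega) (k - 1) (by omega)
      rw [show 1 + (k - 1) = k by omega] at s2
      have := C.lo_le k hk
      omega
    · have s1 := shape_lo C S.lo (l := 1) (by omega) (k - 1) (by omega)
      rw [show 1 + (k - 1) = k by omega] at s1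
      have := C.hi_le hk
      have := C.lo_le k hk
      omega

/-- one element on a level of the strip -/
lemma nab_one_of_eq (C : Comp j (t : P) lo hi e) {x : P} (hx : x ∈ onlyB t) {k : ℕ} (hk : k ≤ j)
    (hkx : k ≤ lev x) (h : lo k = hi k) : nab k x = 1 := by
  classical
  refine le_antisymm ?_ (one_le_nab hkx)
  unfold nab
  rw [Finset.card_le_one]
  intro y hy y' hy'
  rw [mem_filter, mem_lv] at hy hy'
  obtain ⟨s, a1, a2, a3⟩ := C.surj y (onlyB_le (onlyB_up hx hy.2)) (by omega)
  obtain ⟨s', b1, b2, b3⟩ := C.surj y' (onlyB_le (onlyB_up hx hy'.2)) (by omega)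
  rw [hy.1] at a1 a2 a3
  rw [hy'.1] at b1 b2 b3
  rw [← a3, ← b3, show s = s' by omega]

/-- the dichotomy for a strip which is light at window `w` -/
theorem strip_dich (H : Gr P r) (hg : ∀ l, l < j → Win.Good P l) (hj : 17 ≤ j) (hw : w ≤ 3)
    (C : Comp j (t : P) lo hi e)
    (hS : RectShape j lo hi ∨ StairShape j lo hi ∨
      StairShape j (fun k => k - hi k) (fun k => k - lo k)) (hlw : lo w = hi w) {x : P}
    (hx : x ∈ onlyB t) (hl : j ≤ lev x) : (∀ k, k ≤ j → nab k x = 1) ∨ Fat j w x := by
  have hstair : ∀ (lo hi : ℕ → ℕ) (e : ℕ → ℕ → P), Comp j (t : P) lo hi e → StairShape j lo hi →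
      lo w = hi w → (∀ k, k ≤ j → nab k x = 1) ∨ Fat j w x := by
    intro lo hi e C S hlw
    have hw1 : w ≤ 1 := by
      by_contra hcon
      have h2 := S.hi w (by omega)
      have e1 := shape_lo C S.lo (l := w) (by omega) w (by omega)
      have e2 := S.hi (w + w) (by omega)
      have e3 := C.lo_le (w + w) (by omega)
      omega
    rcases stair_dich H (chart_stair C H hg S) hj hx hl with h | ⟨h1, h2⟩
    · exact Or.inl h
    · exact Or.inr ⟨hw1, h1, h2⟩
  rcases hS with hS | hS | hS
  · rcases Nat.lt_or_ge w 2 with h2 | h2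
    · rcases rect_dich H (chart_rect C H hg hS) hj hx hl with h | ⟨h1, h3⟩
      · exact Or.inl h
      · exact Or.inr ⟨by omega, h1, fun h => Or.inl (h3 h)⟩
    · left
      intro k hk
      exact nab_one_of_eq C hx hk (by omega) (rect_chain C hS (by omega) (by omega) hlw k hk)
  · exact hstair lo hi e C hS hlw
  · exact hstair _ _ _ (comp_swap C) hS (by
      have := C.hi_le (k := w) (by omega)
      have := C.lo_le w (by omega)
      show w - hi w = w - lo w
      omega)

end Strip

end Pool.Agent.GaussPoset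

end

/-! From `Pool.Agent.W_448s7s_h5.SmD` -/

section

/-!
# S7 for `j ≤ 16`: elements below the early components (MP_448cb3_co)
-/

namespace Pool.Agent.GaussPoset.Sm

set_option linter.unusedSectionVars false

open Finset Wd

universe u

variable {P : Type u} [Fintype P] [PartialOrder P] [DecidableEq P] {r j w : ℕ}

/-- straight elements -/
def Strt (j : ℕ) (x : P) : Prop := ∀ k, k ≤ j → nab k x = 1

/-- the fold end -/
def Fold (j : ℕ) (x : P) : Prop :=
  lev x = j ∧ j % 2 = 0 ∧ ∀ k, k ≤ j → nab k x + (k - j / 2) = k / 2 + 1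

section

open Cp

variable {t : Tops P} {lo hi : ℕ → ℕ} {e : ℕ → ℕ → P}

/-- rectangle-like strips -/
lemma rect_dich' (H : Gr P r) {co : P → ℕ × ℕ}
    (C : Chart (t : P) (fun _ => True) (lowPart j (t : P)) co) (hj : 4 ≤ j) {x : P}
    (hx : x ∈ onlyB t) (hl : j ≤ lev x) :
    (∀ k, k ≤ j → nab k x = 1) ∨ ((∀ k, 2 ≤ k → k + 2 ≤ j → 2 ≤ nab k x) ∧
      (lev x = j → (Win.uc x).card = 2)) := by
  classical
  -- straight and inner cells
  have hstr : ∀ q ∈ lowPart j (t : P), lev q = j → ((co q).1 = 0 ∨ (co q).2 = 0) →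
      ∀ k, k ≤ j → nab k q = 1 := by
    intro q hq hlq h0 k hk
    have h1 := rect_nab C hq (k := k) (by omega)
    have h2 := C.lev q hq
    omega
  have hinn : ∀ q ∈ lowPart j (t : P), lev q = j → 1 ≤ (co q).1 → 1 ≤ (co q).2 →
      ∀ k, 2 ≤ k → k + 2 ≤ j → 2 ≤ nab k q := by
    intro q hq hlq h1 h2 k hk hk2
    have h3 := rect_nab C hq (k := k) (by omega)
    have h4 := C.lev q hq
    omega
  by_cases hin : ∃ q, x ≤ q ∧ lev q = j ∧ 1 ≤ (co q).1 ∧ 1 ≤ (co q).2
  · obtain ⟨q, h1, h2, h3, h4⟩ := hin
    have hq := low_anc hx h1 h2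
    right
    refine ⟨fun k hk hk2 => (hinn q hq h2 h3 h4 k hk hk2).trans (nab_mono h1), fun hlx => ?_⟩
    have : x = q := by
      by_contra hne
      have := lev_strictAnti (lt_of_le_of_ne h1 hne)
      omega
    rw [this]
    exact chart_inner_uc C H hq h3 h4
  · push Not at hin
    have hst : ∀ q, x ≤ q → lev q = j → (co q).1 = 0 ∨ (co q).2 = 0 := by
      intro q h1 h2
      have := hin q h1 h2
      omega
    obtain ⟨q, h1, h2, h3⟩ := exists_between H.gradedBelow (z := x) (s := (t : P)) (onlyB_le hx)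
      (l := j) (by have := t.2; omega) hl
    by_cases huni : ∀ q', x ≤ q' → lev q' = j → q' = q
    · left
      intro k hk
      rw [nab_through H h1 h3 huni hk]
      exact hstr q (low_anc hx h1 h3) h3 (hst q h1 h3) k hk
    · push Not at huni
      obtain ⟨q', h1', h3', hne⟩ := huni
      right
      have hq := low_anc hx h1 h3
      have hq' := low_anc hx h1' h3'
      have key : ∀ a a' : P, x ≤ a → x ≤ a' → a ∈ lowPart j (t : P) → a' ∈ lowPart j (t : P) →
          lev a = j → lev a' = j → (co a).1 = 0 → (co a').2 = 0 → ∀ k, 2 ≤ k → k + 2 ≤ j →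
          2 ≤ nab k x := by
        intro a a' hxa hxa' ha ha' hla hla' h0 h0' k hk hk2
        have l1 := C.lev a ha
        have l2 := C.lev a' ha'
        obtain ⟨y, hy, hcy⟩ := C.low a ha (0, k) ⟨Nat.zero_le _, by simp only; omega⟩ trivial
        obtain ⟨y', hy', hcy'⟩ := C.low a' ha' (k, 0) ⟨by simp only; omega, Nat.zero_le _⟩ trivial
        have ly := C.lev y hy
        have ly' := C.lev y' hy'
        rw [hcy] at ly
        rw [hcy'] at ly'
        simp only at ly ly'
        refine two_le_nab (x := y) (y := y') (hxa.trans ?_) (hxa'.trans ?_) (by omega) (by omega) ?_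
        · rw [C.le_iff a ha y hy, hcy]
          exact ⟨Nat.zero_le _, by simp only; omega⟩
        · rw [C.le_iff a' ha' y' hy', hcy']
          exact ⟨by simp only; omega, Nat.zero_le _⟩
        · rintro rfl
          rw [hcy] at hcy'
          simp only [Prod.mk.injEq] at hcy'
          omega
      have l1 := C.lev q hq
      have l2 := C.lev q' hq'
      refine ⟨?_, fun hlx => ?_⟩
      · rcases hst q h1 h3 with s1 | s1
        · rcases hst q' h1' h3' with s2 | s2
          · exact absurd (C.inj q' hq' q hq (Prod.ext (by omega) (by omega))) hne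
          · exact key q q' h1 h1' hq hq' h3 h3' s1 s2
        · rcases hst q' h1' h3' with s2 | s2
          · exact key q' q h1' h1 hq' hq h3' h3 s2 s1
          · exact absurd (C.inj q' hq' q hq (Prod.ext (by omega) (by omega))) hne
      · exfalso
        have a1 : x = q := by
          by_contra hcon
          have := lev_strictAnti (lt_of_le_of_ne h1 hcon)
          omega
        have a2 : x = q' := by
          by_contra hcon
          have := lev_strictAnti (lt_of_le_of_ne h1' hcon)
          omega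
        exact hne (a2.symm.trans a1)

/-- stair-like strips -/
lemma stair_dich' (H : Gr P r) {co : P → ℕ × ℕ}
    (C : Chart (t : P) (fun c => c.1 ≤ c.2) (lowPart j (t : P)) co) (hj : 4 ≤ j) {x : P}
    (hx : x ∈ onlyB t) (hl : j ≤ lev x) :
    (∀ k, k ≤ j → nab k x = 1) ∨ ((∀ k, 2 ≤ k → k + 2 ≤ j → 2 ≤ nab k x) ∧
      (lev x = j → (Win.uc x).card = 2 ∨
        (j % 2 = 0 ∧ ∀ k, k ≤ j → nab k x + (k - j / 2) = k / 2 + 1))) := by
  classical
  by_cases hin : ∃ q, x ≤ q ∧ lev q = j ∧ 1 ≤ (co q).1
  · obtain ⟨q, h1, h2, h3⟩ := hin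
    have hq := low_anc hx h1 h2
    have hm : (co q).1 ≤ (co q).2 := C.mem q hq
    have hlq := C.lev q hq
    right
    refine ⟨fun k hk hk2 => le_trans ?_ (nab_mono h1), fun hlx => ?_⟩
    · have h4 := stair_nab C hq (k := k) (by omega)
      omega
    · have : x = q := by
        by_contra hne
        have := lev_strictAnti (lt_of_le_of_ne h1 hne)
        omega
      rw [this]
      rcases Nat.lt_or_ge (co q).1 (co q).2 with h4 | h4
      · exact Or.inl (stair_inner_uc C H hq h3 h4)
      · right
        refine ⟨by omega, fun k hk => ?_⟩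
        have h5 := stair_nab C hq (k := k) (by omega)
        have h6 : (co q).2 = j / 2 := by omega
        rw [h6] at h5
        omega
  · push Not at hin
    left
    obtain ⟨q, h1, h2, h3⟩ := exists_between H.gradedBelow (z := x) (s := (t : P)) (onlyB_le hx)
      (l := j) (by have := t.2; omega) hl
    have hq := low_anc hx h1 h3
    have hlq := C.lev q hq
    have h4 := hin q h1 h3
    intro k hk
    rw [nab_through H h1 h3 (fun q' h1' h3' => by
      have hq' := low_anc hx h1' h3'
      have hlq' := C.lev q' hq'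
      have h4' := hin q' h1' h3'
      exact C.inj q' hq' q hq (Prod.ext (by omega) (by omega))) hk]
    have h5 := stair_nab C hq (k := k) (by omega)
    omega

/-- the dichotomy for an early strip -/
theorem early_dich (H : Gr P r) (hg : ∀ l, l < j → Win.Good P l) (hj : 4 ≤ j)
    (C : Comp j (t : P) lo hi e)
    (hS : RectShape j lo hi ∨ StairShape j lo hi ∨
      StairShape j (fun k => k - hi k) (fun k => k - lo k)) {x : P}
    (hx : x ∈ onlyB t) (hl : j ≤ lev x) (hend : lev x = j → (Win.uc x).card = 1) :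
    Strt j x ∨ Fold j x ∨ (j + 1 ≤ lev x ∧ ∀ k, 2 ≤ k → k + 2 ≤ j → 2 ≤ nab k x) := by
  have hstair : ∀ (lo hi : ℕ → ℕ) (e : ℕ → ℕ → P), Comp j (t : P) lo hi e → StairShape j lo hi →
      Strt j x ∨ Fold j x ∨ (j + 1 ≤ lev x ∧ ∀ k, 2 ≤ k → k + 2 ≤ j → 2 ≤ nab k x) := by
    intro lo hi e C S
    rcases stair_dich' H (chart_stair C H hg S) hj hx hl with h | ⟨h1, h2⟩
    · exact Or.inl h
    · rcases eq_or_lt_of_le hl with h3 | h3
      · have h4 := hend h3.symm
        rcases h2 h3.symm with h5 | h5
        · omega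
        · exact Or.inr (Or.inl ⟨h3.symm, h5⟩)
      · exact Or.inr (Or.inr ⟨h3, h1⟩)
  rcases hS with hS | hS | hS
  · rcases rect_dich' H (chart_rect C H hg hS) hj hx hl with h | ⟨h1, h3⟩
    · exact Or.inl h
    · rcases eq_or_lt_of_le hl with h4 | h4
      · have h5 := hend h4.symm
        have h6 := h3 h4.symm
        omega
      · exact Or.inr (Or.inr ⟨h4, h1⟩)
  · exact hstair lo hi e C hS
  · exact hstair _ _ _ (comp_swap C) hS

end

end Pool.Agent.GaussPoset.Sm

end
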