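import Mathlib
import Pool.Agent.W_448zz_h61.Ns
import Pool.Agent.W_448zz_h61.M044

/-! From `Pool.Agent.W_448s14_h94.SgC` -/

section

/-!
The strip `La7` with an element of level 15 below the ends, and one below the first two cells.
-/

namespace Pool.Agent.GaussPoset.Sg

open Cl Dd

/-- the up-sets -/
def Pbus : List ℕ := [4294967295, 4227858431, 4160749567, 4093640703, 4089446399, 3221225471, 3187671039, 3154116607, 3120562175, 3118465023, 3087007743, 3053453311, 3019898879, 3015704575, 2986344447, 2984247295, 2982150143, 2980052991, 2979790847, 2979758079, 2147483647, 2080374783, 2013265919, 1946157055, 1941962751, 1879048191, 1811939327, 1744830463, 1736441855, 1677721599, 1673527295, 1669332991, 1665138687, 1664614399, 1073741823, 1040187391, 1006632959, 973078527, 970981375, 939524095, 905969663, 872415231, 868220927, 838860799, 836763647, 834666495, 832569343, 832307199, 832274431, 805306367, 771751935, 738197503, 704643071, 702545919, 671088639, 662700031,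 637534207, 629145599, 603979775, 599785471, 595591167, 591396863, 590872575, 570425343, 568328191, 566231039, 564133887, 563871743, 563838975, 562036735, 559939583, 557842431, 557318143, 555745279, 555483135, 555450367, 555220991, 554958847, 554926079, 554893311, 554860543, 554852351, 554850303, 554849791, 536870911, 503316479, 469762047, 436207615, 434110463, 402653183, 369098751, 335544319, 331350015, 301989887, 299892735, 297795583, 295698431, 295436287, 295403519, 268435455, 251658239, 234881023, 218103807, 201326591, 184549375, 167772159, 165675007, 150994943, 148897791, 134217727, 125829119, 117440511, 109051903, 108003327, 100663295, 92274687, 83886079, 75497471, 74448895, 67108863, 62914559, 58720255, 54525951, 54001663, 50331647, 46137343, 41943039, 40894463, 37748735, 37224447, 36700159, 36175871, 36044799, 33554431, 31457279, 29360127, 27262975, 27000831, 26968063, 25165823, 23068671, 20971519, 20447231, 18874367, 18612223, 18579455, 18350079, 18087935,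 18055167, 18022399, 17989631, 17981439, 17979391, 17978879, 16777215, 14680063, 12582911, 10485759, 10223615, 10190847, 8388607, 7340031, 6291455, 5242879, 4194303, 3670015, 3145727, 2621439, 2490367, 2097151, 1835007, 1802239, 1572863, 1310719, 1277951, 1245183, 1212415, 1204223, 1202175, 1201663, 1048575, 786431, 753663, 524287, 393215, 262143, 229375, 196607, 163839, 155647, 153599, 153087, 131071, 98303, 65535, 49151, 32767, 24575, 22527, 22015, 16383, 8191, 6143, 5631, 4095, 2047, 1535, 1023, 767, 511, 383, 255, 127, 63, 31, 15, 7, 3, 1, 0]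

/-- the covers -/
def Pbcv : List ℕ := [0, 1, 2, 4, 8, 16, 32, 64, 64, 128, 384, 1536, 1024, 6144, 4096, 8192, 24576, 16384, 98304, 196608, 131072, 262144, 786432, 1572864, 1048576, 2097152, 6291456, 12582912, 25165824, 16777216, 570425344, 805306368]

/-- the levels -/
def Pblv : List ℕ := [0, 1, 2, 3, 4, 5, 6, 7, 7, 8, 8, 9, 9, 10, 10, 11, 11, 11, 12, 12, 12, 13, 13, 13, 13, 14, 14, 14, 14, 14, 15, 15]

/-- the cells above -/
def Pbum : List ℕ := [1, 3, 7, 15, 31, 63, 127, 255, 383, 767, 1535, 4095, 5631, 16383, 22015, 49151, 98303, 153087, 393215, 753663, 1201663, 2490367, 5242879, 10190847, 17978879, 36044799, 74448895, 148897791, 295403519, 554849791, 1664614399, 2979758079]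

/-- the thresholds -/
def Pbth : List ℕ := [0, 0, 0, 0, 0, 0, 0, 0, 0, 1, 0, 1, 0, 1, 0, 1, 1, 0, 1, 1, 0, 1, 2, 1, 0, 1, 2, 2, 1, 0, 1, 1]

/-- the up-sets above the base: code, `ℓ`, `M`, exponent, coefficient -/
def PbL : List (ℕ × ℕ × ℕ × ℕ × ℕ) := [(4294967295, 16, 16, 272, 0), (4227858431, 16, 15, 249, 0), (4160749567, 16, 15, 249, 0), (4093640703, 16, 14, 227, 0), (4089446399, 16, 13, 206, 0), (3221225471, 16, 15, 249, 0), (3187671039, 16, 14, 227, 0), (3154116607, 16, 14, 227, 0), (3120562175, 16, 13, 206, 0), (3118465023, 16, 12, 186, 0), (3087007743, 16, 14, 227, 0), (3053453311, 16, 13, 206, 0), (3019898879, 16, 13, 206, 0), (3015704575, 16, 12, 186, 0), (2986344447, 16, 12, 186, 0), (2984247295, 16, 11, 167, 0), (2982150143, 16, 11, 167, 0), (2980052991, 16, 10, 149, 0), (2979790847, 16, 9, 132, 0), (2979758079, 16, 8, 116, 0), (2147483647, 16, 15, 249, 0), (2080374783, 16, 14, 227, 0), (2013265919, 16, 14, 227, 0), (1946157055, 16, 13, 206, 0), (1941962751,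 16, 12, 186, 0), (1879048191, 16, 14, 227, 0), (1811939327, 16, 13, 206, 0), (1744830463, 16, 13, 206, 0), (1736441855, 16, 12, 186, 0), (1677721599, 16, 12, 186, 0), (1673527295, 16, 11, 167, 0), (1669332991, 16, 11, 167, 0), (1665138687, 16, 10, 149, 0), (1664614399, 16, 9, 132, 0), (1073741823, 15, 15, 249, 0), (1040187391, 15, 14, 227, 0), (1006632959, 15, 14, 227, 0), (973078527, 15, 13, 206, 0), (970981375, 15, 12, 186, 0), (939524095, 15, 14, 227, 0), (905969663, 15, 13, 206, 0), (872415231, 15, 13, 206, 0), (868220927, 15, 12, 186, 0), (838860799, 15, 12, 186, 0), (836763647, 15, 11, 167, 0), (834666495, 15, 11, 167, 0), (832569343, 15, 10, 149, 0), (832307199, 15, 9, 132, 0), (832274431, 15, 8, 116, 0), (805306367, 15, 14, 227, 0), (771751935, 15, 13, 206, 0), (738197503, 15, 13, 206, 0), (704643071, 15, 12, 186, 0), (702545919, 15, 11, 167, 0), (671088639, 15, 13, 206, 0), (662700031, 15, 12, 186, 0), (637534207, 15, 12, 186, 0), (629145599, 15, 11,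 167, 0), (603979775, 15, 12, 186, 0), (599785471, 15, 11, 167, 0), (595591167, 15, 11, 167, 0), (591396863, 15, 10, 149, 0), (590872575, 15, 9, 132, 0), (570425343, 15, 11, 167, 0), (568328191, 15, 10, 149, 0), (566231039, 15, 10, 149, 0), (564133887, 15, 9, 132, 0), (563871743, 15, 8, 116, 0), (563838975, 15, 7, 101, 0), (562036735, 15, 10, 149, 0), (559939583, 15, 9, 132, 0), (557842431, 15, 9, 132, 0), (557318143, 15, 8, 116, 0), (555745279, 15, 8, 116, 0), (555483135, 15, 7, 101, 0), (555450367, 15, 6, 87, 0), (555220991, 15, 7, 101, 0), (554958847, 15, 6, 87, 0), (554926079, 15, 5, 74, 0), (554893311, 15, 5, 74, 0), (554860543, 15, 4, 62, 0), (554852351, 15, 3, 51, 0), (554850303, 15, 2, 41, 0), (554849791, 15, 1, 32, 0)]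

/-- the complete up-sets -/
def PbF : List (ℕ × ℕ × ℕ × ℕ × ℕ) := [(2147483647, 16, 15, 250, 1), (4294967295, 16, 16, 273, 1)]

theorem Pb_us : UsOK 32 (fun a => Pbcv.getD a 0) Pbus :=
  usOK_of_chk (by decide +kernel)

theorem Pb_pol1 : polF1 32 (2 ^ 100) 16 Pbus 7 (PbL ++ PbF) = true := by
  decide +kernel

theorem Pb_pol2 : polF2 32 (2 ^ 100) 16 Pbus (PbL ++ PbF) = true := by
  decide +kernel

theorem Pb_pol : polC 32 (2 ^ 100) 16 Pbus 7 (PbL ++ PbF) = true :=
  polC_of_fast Pb_pol1 Pb_pol2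

theorem Pb_low : lowC 32 16 7 24 (fun a => Pblv.getD a 0) Pbus 554849791 PbL = true := by
  decide +kernel

theorem Pb_th : thChk 32 7 29 (fun a => Pblv.getD a 0) (fun a => Pbcv.getD a 0)
    (fun a => Pbum.getD a 0) (fun a => Pbth.getD a 0) = true := by decide +kernel

theorem Pb_bm : bmC 32 7 29 554849791 (fun a => Pblv.getD a 0)
    (fun a => Pbum.getD a 0) = true := by decide +kernel

theorem Pb_num : ∀ x ∈ PbF, numC 32 16 7 25 (fun a => Pblv.getD a 0) x = true := by
  decide +kernel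

theorem Pb_mem : ∀ x ∈ PbF, x.1 ∈ Pbus := by decide +kernel

end Pool.Agent.GaussPoset.Sg

end

/-! From `Pool.Agent.W_448f6_h94.FxI` -/

section

/-!
The strip `E7` at level 14, with two elements of level 15 and two elements of level 16 below each of them.
-/

namespace Pool.Agent.GaussPoset.F6

open Cl Dd Sg

/-- the up-sets -/
def Ebus : List ℕ := [2147483647, 2013265919, 1879048191, 1744830463, 1711276031, 1610612735, 1476395007, 1342177279, 1207959551, 1174405119, 1073741823, 939524095, 805306367, 671088639, 637534207, 536870911, 469762047, 402653183, 335544319, 268435455, 201326591, 134217727, 100663295, 67108863, 33554431, 16777215, 8388607, 6291455, 5767167, 4194303, 2097151, 1572863, 1048575, 786431, 720895, 704511, 524287, 393215, 262143, 196607, 180223, 131071, 98303, 94207, 65535, 49151, 32767, 28671, 24575, 20479, 19455, 19199, 19135, 16383, 12287, 8191, 6143, 4095, 3071, 2815, 2751, 2047, 1023, 767, 703, 511, 255, 191, 127, 95, 63, 47, 31, 15, 7,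 3, 1, 0]

/-- the covers -/
def Ebcv : List ℕ := [0, 1, 2, 4, 8, 8, 16, 48, 192, 128, 768, 512, 1024, 3072, 2048, 12288, 24576, 32768, 98304, 131072, 393216, 1572864, 1048576, 6291456, 8388608, 16777216, 16777216, 33554432, 33554432, 67108864, 67108864]

/-- the levels -/
def Eblv : List ℕ := [0, 1, 2, 3, 4, 4, 5, 5, 6, 6, 7, 7, 8, 8, 8, 9, 9, 10, 10, 11, 11, 12, 12, 13, 14, 15, 15, 16, 16, 16, 16]

/-- the cells above -/
def Ebum : List ℕ := [1, 3, 7, 15, 31, 47, 95, 191, 511, 703, 2047, 2751, 6143, 12287, 19135, 49151, 94207, 180223, 393215, 704511, 1572863, 4194303, 5767167, 16777215, 33554431, 67108863, 100663295, 201326591, 335544319, 637534207, 1174405119]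

/-- the thresholds -/
def Ebth : List ℕ := [0, 0, 0, 0, 0, 0, 0, 0, 0, 0, 0, 0, 0, 0, 0, 0, 0, 1, 0, 2, 1, 2, 2, 3, 4, 5, 5, 6, 6, 6, 6]

/-- the up-sets above the base: code, `ℓ`, `M`, exponent, coefficient -/
def EbL : List (ℕ × ℕ × ℕ × ℕ × ℕ) := [(2147483647, 17, 14, 261, 0), (2013265919, 17, 13, 241, 0), (1879048191, 17, 13, 241, 0), (1744830463, 17, 12, 222, 0), (1711276031, 17, 11, 204, 0), (1610612735, 17, 13, 241, 0), (1476395007, 17, 12, 222, 0), (1342177279, 17, 12, 222, 0), (1207959551, 17, 11, 204, 0), (1174405119, 17, 10, 187, 0), (1073741823, 17, 13, 241, 0), (939524095, 17, 12, 222, 0), (805306367, 17, 12, 222, 0), (671088639, 17, 11, 204, 0), (637534207, 17, 10, 187, 0), (536870911, 17, 12, 222, 0), (469762047, 17, 11, 204, 0), (402653183, 17, 11, 204, 0), (335544319, 17, 10, 187, 0), (268435455, 17, 11, 204, 0), (201326591, 17, 10, 187, 0), (134217727, 16, 11, 204, 0), (100663295, 16, 10, 187, 0), (67108863, 16, 10, 187, 0), (33554431, 15, 10,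 187, 0), (16777215, 14, 10, 187, 0), (8388607, 13, 10, 187, 0), (6291455, 13, 9, 171, 0), (5767167, 13, 8, 156, 0), (4194303, 13, 9, 171, 0), (2097151, 12, 9, 171, 0), (1572863, 12, 8, 156, 0), (1048575, 12, 8, 156, 0), (524287, 11, 8, 156, 0), (393215, 11, 7, 142, 0)]

theorem Eb_us : UsOK 31 (fun a => Ebcv.getD a 0) Ebus :=
  usOK_of_chk (by decide +kernel)

theorem Eb_pol1 : polF1 31 (2 ^ 80) 14 Ebus 6 EbL = true := by
  decide +kernel

theorem Eb_pol2 : polF2 31 (2 ^ 80) 14 Ebus EbL = true := by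
  decide +kernel

theorem Eb_pol : polC 31 (2 ^ 80) 14 Ebus 6 EbL = true :=
  polC_of_fast Eb_pol1 Eb_pol2

theorem Eb_low : lowC 31 14 6 75 (fun a => Eblv.getD a 0) Ebus
    393215 EbL = true := by
  decide +kernel

theorem Eb_th : thChk 31 6 18 (fun a => Eblv.getD a 0)
    (fun a => Ebcv.getD a 0) (fun a => Ebum.getD a 0) (fun a => Ebth.getD a 0) =
    true := by decide +kernel

theorem Eb_bm : bmC 31 6 18 393215 (fun a => Eblv.getD a 0)
    (fun a => Ebum.getD a 0) = true := by decide +kernel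

end Pool.Agent.GaussPoset.F6

end

/-! From `Pool.Agent.W_448j8_h67.JaA` -/

section

/-!
Cleanness of the up-sets of a natural set with one additional twin (MP_448cb3_co).
-/

namespace Pool.Agent.GaussPoset.J8

set_option linter.unusedSectionVars false

open Polynomial Finset

universe u

variable {P : Type u} [Fintype P] [PartialOrder P] [DecidableEq P]

/-- cleanness of the up-sets of a natural set -/
theorem natClean {i b : ℕ} {t : Tops P} {N : Finset P} {θ : P → ℕ} {B : P → Prop}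
    (H : NatTop i t b N θ B) {M : Tops P → Finset P} (HM : NatSys M) (hM : M t = N)
    (hMlow : ∀ x ∈ unnat M, i < lev x) {U : Finset P} (hUN : U ⊆ N)
    (hup : ∀ x ∈ U, ∀ y, x ≤ y → y ∈ U) (hlow : ∀ x ∈ N, lev x ≤ i → x ∈ U)
    (hB : ∀ x ∈ N, B x → x ∈ U) (n : ℕ) : (1 + X : ℤ[X]) ^ b ∣ Z {x : P // x ∈ U} i n := by
  classical
  have hC := H.data M HM hM θ (fun x => x ∈ N ∧ B x) (fun _ _ => rfl)
    (fun x hx => ⟨fun h => h.2, fun h => ⟨hx, h⟩⟩)
  have hNM : ∀ {x}, x ∈ N → x ∉ unnat M := fun {x} hx h => mem_unnat.mp h t (by rw [hM]; exact hx)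
  have hmemN : ∀ {x}, x ∉ unnat M → topOf x = t → x ∈ N := fun {x} hx h => by
    rw [← hM]; exact HM.mem_iff.mpr ⟨hx, h⟩
  have hgood : Good i (unnat M) (fun x => x ∈ N ∧ B x) (unnat M ∪ (N \ U)) := by
    refine ⟨?_, subset_union_left, ?_, ?_⟩
    · intro x y hxy hy
      rw [mem_union, mem_sdiff] at hy ⊢
      by_cases hx : x ∈ unnat M
      · exact Or.inl hx
      · right
        rcases hy with hy | hy
        · exact absurd (HM.lower x y hxy hy) hx
        · have h1 : topOf x = t := by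
            rw [HM.cp x y hxy hx]
            exact HM.topOf_eq (by rw [hM]; exact hy.1)
          exact ⟨hmemN hx h1, fun h => hy.2 (hup x h y hxy)⟩
    · intro x hx
      rw [mem_union, mem_sdiff] at hx
      rcases hx with hx | hx
      · exact hMlow x hx
      · by_contra hcon
        exact hx.2 (hlow x hx.1 (by omega))
    · rintro x hx ⟨h1, h2⟩
      rw [mem_union, mem_sdiff] at hx
      rcases hx with hx | hx
      · exact hNM h1 hx
      · exact hx.2 (hB x h1 h2)
  have h1 := hC.clean _ hgood inferInstance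
  have e : {x : {x : P // x ∉ unnat M ∪ (N \ U)} // topOf (x : P) = t} ≃o {x : P // x ∈ U} :=
    { toFun := fun x => ⟨x.1.1, by
        have h2 := x.1.2
        rw [mem_union, mem_sdiff, not_or] at h2
        by_contra h3
        exact h2.2 ⟨hmemN h2.1 x.2, h3⟩⟩
      invFun := fun x => ⟨⟨x.1, by
        rw [mem_union, mem_sdiff, not_or]
        exact ⟨hNM (hUN x.2), fun h => h.2 x.2⟩⟩, HM.topOf_eq (by rw [hM]; exact hUN x.2)⟩
      left_inv := fun x => rfl
      right_inv := fun x => rfl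
      map_rel_iff' := Iff.rfl }
  rw [W_iso e] at h1
  exact dvd_Z_of_dvd_W h1 n

section Tw

variable {i n0 : ℕ} {p : ℤ[X]} {N : Finset P} {B : P → Prop} {θ : P → ℕ} {y1 y2 : P}

/-- covers in an up-set -/
lemma covSub {V : Finset P} (hup : ∀ x ∈ V, ∀ y, x ≤ y → y ∈ V) {x y : {x // x ∈ V}} :
    x ⋖ y ↔ (x : P) ⋖ (y : P) := by
  constructor
  · intro h
    refine ⟨h.1, fun w h1 h2 => ?_⟩
    exact h.2 (c := ⟨w, hup _ x.2 w h1.le⟩) h1 h2
  · intro h
    exact ⟨h.1, fun w h1 h2 => h.2 h1 h2⟩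

lemma levSub {V : Finset P} (hup : ∀ x ∈ V, ∀ y, x ≤ y → y ∈ V) (x : {x // x ∈ V}) :
    lev x = lev (x : P) :=
  lev_subtype (p := fun x => x ∈ V) (fun x y hxy hx => hup x hx y hxy) x

/-- exchange of twins -/
lemma exch {V : Finset P} (hup : ∀ x ∈ V, ∀ y, x ≤ y → y ∈ V) (h2 : y2 ∈ V) (h1 : y1 ∉ V)
    (up : ∀ y, y1 < y ↔ y2 < y) (hnb : ∀ y ∈ V, y ≤ y2 → y = y2) (hnb1 : ∀ y ∈ V, ¬ y ≤ y1) :
    Nonempty ({x // x ∈ V} ≃o {x // x ∈ insert y1 (V.erase y2)}) := by
  classical
  let f : {x // x ∈ V} → {x // x ∈ insert y1 (V.erase y2)} := fun x =>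
    if h : (x : P) = y2 then ⟨y1, mem_insert_self _ _⟩ else
      ⟨(x : P), mem_insert_of_mem (mem_erase.mpr ⟨h, x.2⟩)⟩
  have fc : ∀ x : {x // x ∈ V}, (x : P) = y2 → (f x : P) = y1 := by
    intro x hx
    simp only [f, dif_pos hx]
  have fn : ∀ x : {x // x ∈ V}, (x : P) ≠ y2 → (f x : P) = x := by
    intro x hx
    simp only [f, dif_neg hx]
  have hle : ∀ x y, f x ≤ f y ↔ x ≤ y := by
    intro x y
    have e1 : f x ≤ f y ↔ (f x : P) ≤ (f y : P) := Iff.rfl
    have e2 : x ≤ y ↔ (x : P) ≤ (y : P) := Iff.rfl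
    rw [e1, e2]
    by_cases hx : (x : P) = y2
    · rw [fc x hx]
      by_cases hy : (y : P) = y2
      · rw [fc y hy, hx, hy]
        simp
      · rw [fn y hy, hx]
        have hn1 : (y : P) ≠ y1 := fun h => h1 (h ▸ y.2)
        constructor
        · intro h
          exact ((up _).mp (lt_of_le_of_ne h hn1.symm)).le
        · intro h
          exact ((up _).mpr (lt_of_le_of_ne h (Ne.symm hy))).le
    · rw [fn x hx]
      by_cases hy : (y : P) = y2
      · rw [fc y hy, hy]
        constructor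
        · intro h
          exact absurd h (hnb1 x x.2)
        · intro h
          exact absurd (hnb x x.2 h) hx
      · rw [fn y hy]
  have hbij : Function.Bijective f := by
    constructor
    · intro x y hxy
      exact le_antisymm ((hle x y).mp hxy.le) ((hle y x).mp hxy.ge)
    · intro y
      rcases mem_insert.mp y.2 with h | h
      · exact ⟨⟨y2, h2⟩, Subtype.ext (by rw [fc _ rfl, h])⟩
      · rw [mem_erase] at h
        exact ⟨⟨y, h.2⟩, Subtype.ext (by rw [fn _ h.1])⟩
  exact ⟨{ Equiv.ofBijective f hbij with map_rel_iff' := fun {x y} => hle x y }⟩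

/-- one of the twins is missing -/
lemma brClean (hN : ∀ x ∈ N, ∀ y, x ≤ y → y ∈ N) (h1 : y1 ∈ N) (h2 : y2 ∉ N)
    (up : ∀ y, y1 < y ↔ y2 < y)
    (hclean : ∀ U ⊆ N, (∀ x ∈ U, ∀ y, x ≤ y → y ∈ U) → (∀ x ∈ N, lev x ≤ i → x ∈ U) →
      (∀ x ∈ N, B x → x ∈ U) → ∀ n < n0, p ∣ Z {x : P // x ∈ U} i n)
    {V : Finset P} (hV : V ⊆ insert y2 N) (hup : ∀ x ∈ V, ∀ y, x ≤ y → y ∈ V)
    (hlow : ∀ x ∈ N, lev x ≤ i → x ∈ V) (hBV : ∀ x ∈ N, B x → x ∈ V)
    (hbr : y1 ∉ V ∨ y2 ∉ V) : ∀ n < n0, p ∣ Z {x : P // x ∈ V} i n := by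
  classical
  by_cases hy2 : y2 ∈ V
  swap
  · exact hclean V (fun x hx => by
      rcases mem_insert.mp (hV hx) with h | h
      · exact absurd (h ▸ hx) hy2
      · exact h) hup hlow hBV
  have hy1 : y1 ∉ V := hbr.resolve_right (fun h => h hy2)
  have hnb : ∀ y ∈ V, y ≤ y2 → y = y2 := by
    intro y hy hyy
    rcases mem_insert.mp (hV hy) with h | h
    · exact h
    · exact absurd (hN y h y2 hyy) h2
  obtain ⟨e⟩ := exch hup hy2 hy1 up hnb (fun y hy h => hy1 (hup y hy y1 h))
  intro n hn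
  rw [Z_iso e]
  refine hclean _ ?_ ?_ ?_ ?_ n hn
  · intro x hx
    rcases mem_insert.mp hx with h | h
    · rw [h]; exact h1
    · rw [mem_erase] at h
      exact (mem_insert.mp (hV h.2)).resolve_left h.1
  · intro x hx y hxy
    rcases mem_insert.mp hx with h | h
    · subst h
      rcases eq_or_lt_of_le hxy with h3 | h3
      · rw [← h3]; exact mem_insert_self _ _
      · have h4 := (up y).mp h3
        exact mem_insert_of_mem (mem_erase.mpr ⟨h4.ne', hup _ hy2 y h4.le⟩)
    · rw [mem_erase] at h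
      refine mem_insert_of_mem (mem_erase.mpr ⟨?_, hup x h.2 y hxy⟩)
      rintro rfl
      exact h.1 (hnb x h.2 hxy)
  · intro x hx hl
    refine mem_insert_of_mem (mem_erase.mpr ⟨?_, hlow x hx hl⟩)
    rintro rfl
    exact h2 hx
  · intro x hx hb
    refine mem_insert_of_mem (mem_erase.mpr ⟨?_, hBV x hx hb⟩)
    rintro rfl
    exact h2 hx

/-- one additional twin -/
theorem twClean (hN : ∀ x ∈ N, ∀ y, x ≤ y → y ∈ N) (h1 : y1 ∈ N) (h2 : y2 ∉ N) (hB2 : ¬ B y2)
    (TP : TwinPair i θ n0 y1 y2) (hy : i < lev y1)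
    (hclean : ∀ U ⊆ N, (∀ x ∈ U, ∀ y, x ≤ y → y ∈ U) → (∀ x ∈ N, lev x ≤ i → x ∈ U) →
      (∀ x ∈ N, B x → x ∈ U) → ∀ n < n0, p ∣ Z {x : P // x ∈ U} i n)
    (hlev : ∀ x ∈ N, 1 ≤ θ x → i < lev x)
    (hbase : ∀ x ∈ N, 1 ≤ θ x → ∀ y ∈ N, y ≤ x → ¬ B y)
    (hstep : ∀ x ∈ N, 1 ≤ θ x → ∀ y ∈ N, y ≤ x → ∀ x', y ⋖ x' → ¬ x' ≤ x → θ x ≤ θ x' + 1)
    {V : Finset P} (hV : V ⊆ insert y2 N) (hup : ∀ x ∈ V, ∀ y, x ≤ y → y ∈ V)
    (hlow : ∀ x ∈ N, lev x ≤ i → x ∈ V) (hBV : ∀ x ∈ N, B x → x ∈ V) :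
    ∀ n < n0, p ∣ Z {x : P // x ∈ V} i n := by
  classical
  have hl2 : lev y1 = lev y2 := lev_eq_of_up TP.up
  have hnb : ∀ y ∈ V, y ≤ y2 → y = y2 := by
    intro y hy hyy
    rcases mem_insert.mp (hV hy) with h | h
    · exact h
    · exact absurd (hN y h y2 hyy) h2
  by_cases hbr : y1 ∉ V ∨ y2 ∉ V
  · exact brClean hN h1 h2 TP.up hclean hV hup hlow hBV hbr
  push Not at hbr
  obtain ⟨hy1, hy2⟩ := hbr
  -- the poset on `V`
  let Q := {x : P // x ∈ V}
  have hVN : ∀ x : Q, (x : P) ≠ y2 → (x : P) ∈ N := fun x hx =>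
    (mem_insert.mp (hV x.2)).resolve_left hx
  have hlQ : ∀ x : Q, lev x = lev (x : P) := levSub hup
  have hcQ : ∀ {x y : Q}, x ⋖ y ↔ (x : P) ⋖ (y : P) := fun {x y} => covSub hup
  intro n hn
  rw [show Z {x : P // x ∈ V} i n = ZB (P := Q) i ∅ 0 0 n from Z_eq_ZB i n]
  set DD : Set (Finset Q) := {D | (∀ x y : Q, x ≤ y → y ∈ D → x ∈ D) ∧ (∀ x ∈ D, i < lev x) ∧
    ∀ x ∈ D, ¬ B (x : P)} with hDD
  set a : Q := ⟨y1, hy1⟩ with ha
  set c : Q := ⟨y2, hy2⟩ with hc
  have hne : y1 ≠ y2 := TP.ne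
  refine dvd_ZB_bounds_twins (P := Q) i p n0 DD (fun x => θ (x : P)) {(a, c)}
    (fun D hD => hD.1) (fun D hD => hD.2.1) ?_ ?_ ?_ ?_ ?_ ?_ ∅ ?_ 0
    (fun x _ => Nat.zero_le _) n hn
  · intro x hx
    rw [hlQ]
    by_cases hxy : (x : P) = y2
    · rw [hxy, ← hl2]; exact hy
    · exact hlev _ (hVN x hxy) hx
  · intro D hD hbr n hn
    obtain ⟨d1, d2, d3⟩ := hD
    have hbr := hbr (a, c) (mem_singleton_self _)
    simp only at hbr
    rw [ZB_off d1 d2]
    -- the rest as an up-set of `P`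
    set U : Finset P := (univ.filter (fun x : Q => x ∉ D)).image (fun x : Q => (x : P)) with hU
    have hmU : ∀ x, x ∈ U ↔ ∃ h : x ∈ V, (⟨x, h⟩ : Q) ∉ D := by
      intro x
      rw [hU, mem_image]
      constructor
      · rintro ⟨y, hy, rfl⟩
        exact ⟨y.2, (mem_filter.mp hy).2⟩
      · rintro ⟨h, h'⟩
        exact ⟨⟨x, h⟩, mem_filter.mpr ⟨mem_univ _, h'⟩, rfl⟩
    have e : {x : Q // x ∉ D} ≃o {x : P // x ∈ U} :=
      { toFun := fun x => ⟨(x : Q), (hmU _).mpr ⟨x.1.2, x.2⟩⟩
        invFun := fun x => ⟨⟨x.1, ((hmU _).mp x.2).1⟩, ((hmU _).mp x.2).2⟩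
        left_inv := fun x => rfl
        right_inv := fun x => rfl
        map_rel_iff' := Iff.rfl }
    rw [Z_iso e]
    refine brClean hN h1 h2 TP.up hclean ?_ ?_ ?_ ?_ ?_ n hn
    · intro x hx
      exact hV ((hmU x).mp hx).1
    · intro x hx y hxy
      obtain ⟨h, h'⟩ := (hmU x).mp hx
      exact (hmU y).mpr ⟨hup x h y hxy, fun h3 => h' (d1 ⟨x, h⟩ ⟨y, hup x h y hxy⟩ hxy h3)⟩
    · intro x hx hl
      refine (hmU x).mpr ⟨hlow x hx hl, fun h => ?_⟩
      have := d2 _ h
      rw [hlQ] at this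
      simp only at this
      omega
    · intro x hx hb
      exact (hmU x).mpr ⟨hBV x hx hb, fun h => d3 _ h hb⟩
    · rcases hbr with h | h
      · left
        intro h3
        obtain ⟨h4, h5⟩ := (hmU _).mp h3
        exact h5 h
      · right
        intro h3
        obtain ⟨h4, h5⟩ := (hmU _).mp h3
        exact h5 h
  · intro D hD x hx hθx
    obtain ⟨d1, d2, d3⟩ := hD
    have hlx : i < lev x := by
      rw [hlQ]
      by_cases hxy : (x : P) = y2
      · rw [hxy, ← hl2]; exact hy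
      · exact hlev _ (hVN x hxy) hθx
    refine ⟨?_, ?_, ?_⟩
    · intro u v huv hv
      rw [mem_union, mem_dnf] at hv ⊢
      rcases hv with hv | hv
      · exact Or.inl (d1 u v huv hv)
      · exact Or.inr (huv.trans hv)
    · intro u hu
      rw [mem_union, mem_dnf] at hu
      rcases hu with hu | hu
      · exact d2 u hu
      · rcases eq_or_lt_of_le hu with h | h
        · rw [h]; exact hlx
        · have := lev_strictAnti h; omega
    · intro u hu hb
      rw [mem_union, mem_dnf] at hu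
      rcases hu with hu | hu
      · exact d3 u hu hb
      · by_cases hxy : (x : P) = y2
        · have h3 : (u : P) = y2 := hnb _ u.2 (by rw [← hxy]; exact hu)
          rw [h3] at hb
          exact hB2 hb
        · by_cases huy : (u : P) = y2
          · rw [huy] at hb
            exact hB2 hb
          · exact hbase _ (hVN x hxy) hθx _ (hVN u huy) hu hb
  · intro D hD x hx hθx u hux huD x' hux' hx'x
    have hux'' := hcQ.mp hux'
    by_cases hxy : (x : P) = y2
    · have h3 : (u : P) = y2 := hnb _ u.2 (by rw [← hxy]; exact hux)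
      rw [h3] at hux''
      have h4 : y1 ⋖ (x' : P) := (cov_of_up TP.up).mpr hux''
      have h5 := hstep y1 h1 TP.one_le y1 h1 le_rfl x' h4 (not_le_of_gt h4.1)
      rw [hxy, TP.eq]
      exact h5
    · have hxN := hVN x hxy
      have hx'x2 : ¬ (x' : P) ≤ x := hx'x
      by_cases huy : (u : P) = y2
      · rw [huy] at hux''
        have h4 : y1 ⋖ (x' : P) := (cov_of_up TP.up).mpr hux''
        have h5 : y1 ≤ (x : P) := by
          refine ((TP.up _).mpr (lt_of_le_of_ne ?_ (Ne.symm hxy))).le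
          rw [← huy]; exact hux
        exact hstep x hxN hθx y1 h1 h5 x' h4 hx'x2
      · exact hstep x hxN hθx u (hVN u huy) hux x' hux'' hx'x2
  · intro s hs
    rw [mem_singleton] at hs
    subst hs
    refine ⟨fun h => hne (congrArg Subtype.val h), ?_, TP.one_le, TP.eq, ?_, ?_, ?_⟩
    · intro y
      exact TP.up (y : P)
    · rw [hlQ]
      exact TP.le
    · refine TP.costF.trans (Nat.add_le_add_right (le_of_eq ?_) _)
      rw [← Finset.sum_filter, ← Finset.sum_filter]
      symm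
      refine Finset.sum_bij (fun (x : Q) _ => (x : P)) ?_ ?_ ?_ ?_
      · intro x hx
        rw [mem_filter] at hx ⊢
        exact ⟨mem_univ _, hx.2⟩
      · intro x _ y _ h
        exact Subtype.ext h
      · intro y hy
        rw [mem_filter] at hy
        exact ⟨⟨y, hup _ hy1 y hy.2⟩, mem_filter.mpr ⟨mem_univ _, hy.2⟩, rfl⟩
      · intro x _
        rw [hlQ]
    · refine TP.costT.trans (Nat.add_le_add_right (le_of_eq ?_) _)
      rw [← Finset.sum_filter, ← Finset.sum_filter]
      symm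
      refine Finset.sum_bij (fun (x : Q) _ => (x : P)) ?_ ?_ ?_ ?_
      · intro x hx
        rw [mem_filter] at hx ⊢
        exact ⟨mem_univ _, hx.2⟩
      · intro x _ y _ h
        exact Subtype.ext h
      · intro y hy
        rw [mem_filter] at hy
        exact ⟨⟨y, hup _ hy1 y hy.2.le⟩, mem_filter.mpr ⟨mem_univ _, hy.2⟩, rfl⟩
      · intro x _
        rw [hlQ]
  · intro s hs D hD y hyy
    rw [mem_singleton] at hs
    subst hs
    exfalso
    have h3 : (y : P) = y2 := hnb _ y.2 hyy.le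
    exact absurd (Subtype.ext h3) hyy.ne
  · exact ⟨fun x y _ h => absurd h (Finset.notMem_empty _), fun x h =>
      absurd h (Finset.notMem_empty _), fun x h => absurd h (Finset.notMem_empty _)⟩

end Tw

end Pool.Agent.GaussPoset.J8

end

/-! From `Pool.Agent.W_448j8_h67.JaG` -/

section

/-!
Component data from natural sets with a twin (MP_448cb3_co).
-/

namespace Pool.Agent.GaussPoset.J8

set_option linter.unusedSectionVars false

open Polynomial Finset Dd

universe u

variable {P : Type u} [Fintype P] [PartialOrder P] [DecidableEq P]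

/-- one natural set is replaced -/
noncomputable def upd (N : Tops P → Finset P) (t : Tops P) (N' : Finset P) (s : Tops P) :
    Finset P := if s = t then N' else N s

lemma upd_self (N : Tops P → Finset P) (t : Tops P) (N' : Finset P) : upd N t N' t = N' :=
  if_pos rfl

lemma upd_ne (N : Tops P → Finset P) {t s : Tops P} (N' : Finset P) (h : s ≠ t) :
    upd N t N' s = N s := if_neg h

lemma natSys_upd {N : Tops P → Finset P} (HN : NatSys N) {i b : ℕ} {t : Tops P} {N' : Finset P}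
    {θ : P → ℕ} {B : P → Prop} (H : NatTop i t b N' θ B) : NatSys (upd N t N') where
  up := by
    intro s
    by_cases h : s = t
    · subst h
      rw [upd_self]
      exact H.up
    · rw [upd_ne N N' h]
      exact HN.up s
  le_t := by
    intro s
    by_cases h : s = t
    · subst h
      rw [upd_self]
      exact H.le_t
    · rw [upd_ne N N' h]
      exact HN.le_t s

lemma unnat_upd_sub {N : Tops P → Finset P} {t : Tops P} {N' : Finset P}
    (hN' : ∀ x ∈ N t, x ∈ N') : unnat (upd N t N') ⊆ unnat N := by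
  intro x hx
  rw [mem_unnat] at hx ⊢
  intro s hs
  refine hx s ?_
  by_cases h : s = t
  · subst h
    rw [upd_self]
    exact hN' x hs
  · rw [upd_ne N N' h]
    exact hs

lemma CompDataL.of_le {ι : Type*} {R : Finset P} {cp : P → ι} {k : ι} {i b n0 n1 : ℕ}
    {θ : P → ℕ} {B : P → Prop} (H : CompDataL R cp k i b n0 θ B) (h : n1 ≤ n0) :
    CompDataL R cp k i b n1 θ B where
  clean := fun D hD hdec n hn => H.clean D hD hdec n (by omega)
  lev := H.lev
  base := H.base
  step := H.step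
  le := H.le

section Nat

variable {N : Tops P → Finset P} (HN : NatSys N) {i j b : ℕ} (hij : i ≤ j)
  (hlow : ∀ s : Tops P, lowPart j (s : P) ⊆ N s) {t : Tops P} {N' : Finset P} {θ' : P → ℕ}
  {B' : P → Prop} (H : NatTop i t b N' θ' B') {θ : P → ℕ} {B : P → Prop}

include HN hij hlow in
lemma unnat_lev {x : P} (hx : x ∈ unnat N) : i < lev x := by
  by_contra hcon
  refine mem_unnat.mp hx (topOf x) (hlow _ (mem_lowPart.mpr ⟨le_topOf x, by omega⟩))

include HN H in
/-- the natural set may be larger -/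
theorem compL_nat (hN' : ∀ x ∈ N t, x ∈ N') (hB' : ∀ x ∈ N', B' x → x ∈ N t)
    (hθ : ∀ x ∈ N t, θ x = θ' x) (hB : ∀ x ∈ N t, B x ↔ B' x) (n0 : ℕ) :
    CompDataL (unnat N) topOf t i b n0 θ B := by
  have HM := natSys_upd HN H
  have hC := H.data _ HM (upd_self N t N') θ' (fun x => x ∈ N' ∧ B' x) (fun _ _ => rfl)
    (fun x hx => ⟨fun h => h.2, fun h => ⟨hx, h⟩⟩)
  have hC2 := CompData.mono hC (unnat_upd_sub hN')
  have hmem : ∀ {x}, x ∉ unnat N → topOf x = t → x ∈ N t := fun {x} h1 h2 =>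
    HN.mem_iff.mpr ⟨h1, h2⟩
  constructor
  · intro D hD hdec n _
    refine dvd_Z_of_dvd_W (hC2.clean D ⟨hD.1, hD.2.1, hD.2.2.1, ?_⟩ hdec) n
    rintro x hx ⟨h1, h2⟩
    have h3 := hB' x h1 h2
    exact hD.2.2.2 x hx ((hB x h3).mpr h2)
  · intro x hx hk h1
    rw [hθ x (hmem hx hk)] at h1
    exact hC2.lev x hx hk h1
  · intro x hx hk h1 y hyx hy hBy
    rw [hθ x (hmem hx hk)] at h1
    have hyN : y ∈ N t := hmem hy ((HN.cp y x hyx hy).trans hk)
    exact hC2.base x hx hk h1 y hyx hy ⟨hN' y hyN, (hB y hyN).mp hBy⟩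
  · intro x hx hk h1 y hyx hy x' hx' hyx' hn
    rw [hθ x (hmem hx hk)] at h1 ⊢
    have hyt : topOf y = t := (HN.cp y x hyx hy).trans hk
    have hx't : topOf x' = t := (HN.cp y x' hyx'.1.le hy).symm.trans hyt
    rw [hθ x' (hmem hx' hx't)]
    exact hC2.step x hx hk h1 y hyx hy x' hx' hyx' hn
  · intro x hx hk
    rw [hθ x (hmem hx hk)]
    exact hC2.le x hx hk

include HN hij hlow H in
/-- the natural set may be larger, with one additional twin `y2` of `y1` -/
theorem compL_twin {y1 y2 : P} (hN' : ∀ x ∈ N t, x ∈ N' ∨ x = y2)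
    (hN'low : ∀ x, x ≤ (t : P) → Pool.Agent.GaussPoset.lev x ≤ j → x ∈ N')
    (hB' : ∀ x ∈ N', B' x → x ∈ N t)
    (h1N : y1 ∈ N t) (h2N : y2 ∈ N t) (h1 : y1 ∈ N') (h2 : y2 ∉ N')
    (hθ : ∀ x ∈ N t, x ≠ y2 → θ x = θ' x) (hθ2 : θ y2 = 1)
    (hB : ∀ x ∈ N t, x ≠ y2 → (B x ↔ B' x)) (hB2 : ¬ B y2) {n0 : ℕ}
    (TP : TwinPair i (fun x => if x = y2 then 1 else θ' x) n0 y1 y2)
    (hy : i < Pool.Agent.GaussPoset.lev y1) :
    CompDataL (unnat N) topOf t i b n0 θ B := by
  classical
  have HM := natSys_upd HN H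
  have hup := H.up
  have hmem : ∀ {x}, x ∉ unnat N → topOf x = t → x ∈ N t := fun {x} h1 h2 =>
    HN.mem_iff.mpr ⟨h1, h2⟩
  -- facts on the natural set
  have hsubM : ∀ x ∈ N', x ∉ unnat (upd N t N') := fun x hx h =>
    mem_unnat.mp h t (by rw [upd_self]; exact hx)
  have htop : ∀ x ∈ N', topOf x = t := fun x hx =>
    HM.topOf_eq (by rw [upd_self]; exact hx)
  have hC := H.data _ HM (upd_self N t N') θ' (fun x => x ∈ N' ∧ B' x) (fun _ _ => rfl)
    (fun x hx => ⟨fun h => h.2, fun h => ⟨hx, h⟩⟩)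
  have f_lev : ∀ x ∈ N', 1 ≤ θ' x → i < Pool.Agent.GaussPoset.lev x := fun x hx =>
    hC.lev x (hsubM x hx) (htop x hx)
  have f_base : ∀ x ∈ N', 1 ≤ θ' x → ∀ y ∈ N', y ≤ x → ¬ B' y := fun x hx h1 y hy hyx hby =>
    hC.base x (hsubM x hx) (htop x hx) h1 y hyx (hsubM y hy) ⟨hy, hby⟩
  have f_step : ∀ x ∈ N', 1 ≤ θ' x → ∀ y ∈ N', y ≤ x → ∀ x', y ⋖ x' → ¬ x' ≤ x →
      θ' x ≤ θ' x' + 1 := fun x hx h1 y hy hyx x' hyx' hn =>
    hC.step x (hsubM x hx) (htop x hx) h1 y hyx (hsubM y hy) x'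
      (hsubM x' (hup y hy x' hyx'.1.le)) hyx' hn
  have f_le : ∀ x ∈ N', θ' x ≤ Pool.Agent.GaussPoset.lev x - i := fun x hx =>
    hC.le x (hsubM x hx) (htop x hx)
  have hup12 := TP.up
  have hl12 : Pool.Agent.GaussPoset.lev y1 = Pool.Agent.GaussPoset.lev y2 := lev_eq_of_up hup12
  have h12 : y1 ≠ y2 := TP.ne
  -- elements above `y2` are natural
  have habv : ∀ x, y2 < x → x ∈ N' := fun x hx => hup y1 h1 x ((hup12 x).mpr hx).le
  have hx2 : ∀ {x}, y2 ≤ x → x ∈ N' → y1 ≤ x := by
    intro x hx hxN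
    rcases eq_or_lt_of_le hx with h | h
    · rw [← h] at hxN; exact absurd hxN h2
    · exact ((hup12 x).mpr h).le
  have hlowM : ∀ x ∈ unnat (upd N t N'), i < Pool.Agent.GaussPoset.lev x := by
    intro x hx
    by_contra hcon
    rw [mem_unnat] at hx
    by_cases h : topOf x = t
    · refine hx t ?_
      rw [upd_self]
      exact hN'low x (by rw [← h]; exact le_topOf x) (by omega)
    · refine hx (topOf x) ?_
      rw [upd_ne N N' h]
      exact hlow _ (mem_lowPart.mpr ⟨le_topOf x, by omega⟩)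
  constructor
  · intro D hD hdec n hn
    let V : Finset P := (N t).filter (fun x => x ∉ D)
    have hV : ∀ x, x ∈ V ↔ x ∈ N t ∧ x ∉ D := fun x => by simp [V]
    have hiso : {x : P // x ∈ V} ≃o {x : {x : P // x ∉ D} // topOf (x : P) = t} :=
      { toFun := fun x => ⟨⟨x, ((hV x).mp x.2).2⟩, HN.topOf_eq ((hV x).mp x.2).1⟩
        invFun := fun x => ⟨x.1.1, (hV _).mpr ⟨hmem (fun h => x.1.2 (hD.2.1 h)) x.2, x.1.2⟩⟩
        left_inv := fun x => rfl
        right_inv := fun x => rfl
        map_rel_iff' := Iff.rfl }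
    rw [← Z_iso hiso]
    refine twClean (N := N') (B := fun x => x ∈ N' ∧ B' x)
      (θ := fun x => if x = y2 then 1 else θ' x) hup h1 h2 (fun h => h2 h.1) TP hy ?_ ?_ ?_ ?_
      ?_ ?_ ?_ ?_ n hn
    · intro U hUN hUup hUlow hUB n' _
      exact natClean H HM (upd_self N t N') hlowM hUN hUup hUlow
        (fun x hx hb => hUB x hx ⟨hx, hb⟩) n'
    · intro x hx hθx
      have hne : x ≠ y2 := fun h => h2 (h ▸ hx)
      simp only [hne, if_false] at hθx
      exact f_lev x hx hθx
    · intro x hx hθx y hy hyx hby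
      have hne : x ≠ y2 := fun h => h2 (h ▸ hx)
      simp only [hne, if_false] at hθx
      exact f_base x hx hθx y hy hyx hby.2
    · intro x hx hθx y hy hyx x' hyx' hn'
      have hne : x ≠ y2 := fun h => h2 (h ▸ hx)
      have hne' : x' ≠ y2 := fun h => h2 (h ▸ hup y hy x' hyx'.1.le)
      simp only [hne, hne', if_false] at hθx ⊢
      exact f_step x hx hθx y hy hyx x' hyx' hn'
    · intro x hx
      rw [hV] at hx
      rw [mem_insert]
      exact (hN' x hx.1).symm
    · intro x hx y hxy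
      rw [hV] at hx ⊢
      exact ⟨HN.up t x hx.1 y hxy, fun h => hx.2 (hD.1 x y hxy h)⟩
    · intro x hx hl
      rw [hV]
      refine ⟨hlow t (mem_lowPart.mpr ⟨H.le_t x hx, by omega⟩), fun h => ?_⟩
      have := hD.2.2.1 x h
      omega
    · rintro x hx ⟨-, hb⟩
      rw [hV]
      have h3 := hB' x hx hb
      refine ⟨h3, fun h => hD.2.2.2 x h ((hB x h3 ?_).mpr hb)⟩
      rintro rfl
      exact h2 hx
  · intro x hx hk hθx
    have hxN := hmem hx hk
    by_cases hne : x = y2
    · rw [hne, ← hl12]; exact hy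
    · rw [hθ x hxN hne] at hθx
      exact f_lev x ((hN' x hxN).resolve_right hne) hθx
  · intro x hx hk hθx y hyx hy' hBy
    have hxN := hmem hx hk
    have hyN := hmem hy' ((HN.cp y x hyx hy').trans hk)
    by_cases hne : x = y2
    · -- below `y2`
      by_cases hyne : y = y2
      · rw [hyne] at hBy
        exact hB2 hBy
      · have := (hN' y hyN).resolve_right hyne
        exact h2 (hup y this y2 (hne ▸ hyx))
    · have hx' := (hN' x hxN).resolve_right hne
      rw [hθ x hxN hne] at hθx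
      by_cases hyne : y = y2
      · rw [hyne] at hBy
        exact hB2 hBy
      · have hy'' := (hN' y hyN).resolve_right hyne
        exact f_base x hx' hθx y hy'' hyx ((hB y hyN hyne).mp hBy)
  · intro x hx hk hθx y hyx hy' x' hx' hyx' hn
    have hxN := hmem hx hk
    have hyt : topOf y = t := (HN.cp y x hyx hy').trans hk
    have hyN := hmem hy' hyt
    have hx'N := hmem hx' ((HN.cp y x' hyx'.1.le hy').symm.trans hyt)
    by_cases hne : x = y2
    · rw [hne, hθ2]
      omega
    · have hxN' := (hN' x hxN).resolve_right hne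
      rw [hθ x hxN hne] at hθx ⊢
      by_cases hyne : y = y2
      · subst hyne
        have h3 := habv x' hyx'.1
        have h4 : x' ≠ y := hyx'.1.ne'
        rw [hθ x' hx'N h4]
        refine f_step x hxN' hθx y1 h1 (hx2 hyx hxN') x' ?_ hn
        exact ⟨(hup12 x').mpr hyx'.1, fun v hv1 hv2 => hyx'.2 ((hup12 v).mp hv1) hv2⟩
      · have hyN' := (hN' y hyN).resolve_right hyne
        have hx'N' := hup y hyN' x' hyx'.1.le
        have h4 : x' ≠ y2 := fun h => h2 (h ▸ hx'N')
        rw [hθ x' hx'N h4]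
        exact f_step x hxN' hθx y hyN' hyx x' hyx' hn
  · intro x hx hk
    have hxN := hmem hx hk
    by_cases hne : x = y2
    · rw [hne, hθ2, ← hl12]
      omega
    · rw [hθ x hxN hne]
      exact f_le x ((hN' x hxN).resolve_right hne)

end Nat

end Pool.Agent.GaussPoset.J8

end

/-! From `Pool.Agent.W_448j10_h67.JbA` -/

section

/-!
Component data from natural sets with several twins (MP_448cb3_co, window 5, level 10).
-/

namespace Pool.Agent.GaussPoset.J10

set_option linter.unusedSectionVars false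

open Polynomial Finset Dd J8

universe u

variable {P : Type u} [Fintype P] [PartialOrder P] [DecidableEq P]

/-- twins `y ∈ T` of `tw y ∈ N` -/
structure Tws (i n0 : ℕ) (N T : Finset P) (θ : P → ℕ) (B : P → Prop) (tw : P → P) : Prop where
  out : ∀ y ∈ T, y ∉ N
  mem : ∀ y ∈ T, tw y ∈ N
  nB : ∀ y ∈ T, ¬ B y
  tp : ∀ y ∈ T, TwinPair i θ n0 (tw y) y
  lt : ∀ y ∈ T, i < Pool.Agent.GaussPoset.lev (tw y)

section

variable {i n0 : ℕ} {N T : Finset P} {θ : P → ℕ} {B : P → Prop} {tw : P → P}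

lemma Tws.above (W : Tws i n0 N T θ B tw) (hN : ∀ x ∈ N, ∀ y, x ≤ y → y ∈ N) {y x : P}
    (hy : y ∈ T) (h : y < x) : x ∈ N :=
  hN _ (W.mem y hy) x (((W.tp y hy).up x).mpr h).le

lemma Tws.lev (W : Tws i n0 N T θ B tw) {y : P} (hy : y ∈ T) :
    Pool.Agent.GaussPoset.lev (tw y) = Pool.Agent.GaussPoset.lev y :=
  lev_eq_of_up (W.tp y hy).up

lemma Tws.up (W : Tws i n0 N T θ B tw) (hN : ∀ x ∈ N, ∀ y, x ≤ y → y ∈ N) :
    ∀ x ∈ N ∪ T, ∀ y, x ≤ y → y ∈ N ∪ T := by
  intro x hx y hxy
  rw [mem_union] at hx ⊢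
  rcases hx with hx | hx
  · exact Or.inl (hN x hx y hxy)
  · rcases eq_or_lt_of_le hxy with h | h
    · rw [← h]; exact Or.inr hx
    · exact Or.inl (W.above hN hx h)

/-- no element of `N ∪ T` is strictly below a twin -/
lemma Tws.bot (W : Tws i n0 N T θ B tw) (hN : ∀ x ∈ N, ∀ y, x ≤ y → y ∈ N) {x y : P}
    (hx : x ∈ T) (hy : y ∈ N ∪ T) (hyx : y ≤ x) : y = x := by
  rcases eq_or_lt_of_le hyx with h | h
  · exact h
  · exfalso
    rw [mem_union] at hy
    rcases hy with hy | hy
    · exact W.out x hx (hN y hy x hyx)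
    · exact W.out x hx (W.above hN hy h)

/-- several additional twins -/
theorem twCleanS {p : ℤ[X]} (W : Tws i n0 N T θ B tw) (hN : ∀ x ∈ N, ∀ y, x ≤ y → y ∈ N)
    (hclean : ∀ U ⊆ N, (∀ x ∈ U, ∀ y, x ≤ y → y ∈ U) → (∀ x ∈ N, Pool.Agent.GaussPoset.lev x ≤ i →
      x ∈ U) → (∀ x ∈ N, B x → x ∈ U) → ∀ n < n0, p ∣ Z {x : P // x ∈ U} i n)
    (hlev : ∀ x ∈ N, 1 ≤ θ x → i < Pool.Agent.GaussPoset.lev x)
    (hbase : ∀ x ∈ N, 1 ≤ θ x → ∀ y ∈ N, y ≤ x → ¬ B y)
    (hstep : ∀ x ∈ N, 1 ≤ θ x → ∀ y ∈ N, y ≤ x → ∀ x', y ⋖ x' → ¬ x' ≤ x → θ x ≤ θ x' + 1) :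
    ∀ V ⊆ N ∪ T, (∀ x ∈ V, ∀ y, x ≤ y → y ∈ V) →
      (∀ x ∈ N, Pool.Agent.GaussPoset.lev x ≤ i → x ∈ V) → (∀ x ∈ N, B x → x ∈ V) →
      ∀ n < n0, p ∣ Z {x : P // x ∈ V} i n := by
  classical
  induction T using Finset.induction_on with
  | empty =>
    intro V hV
    rw [Finset.union_empty] at hV
    exact hclean V hV
  | insert y T hyT ih =>
    have W' : Tws i n0 N T θ B tw := ⟨fun y h => W.out y (mem_insert_of_mem h),
      fun y h => W.mem y (mem_insert_of_mem h), fun y h => W.nB y (mem_insert_of_mem h),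
      fun y h => W.tp y (mem_insert_of_mem h), fun y h => W.lt y (mem_insert_of_mem h)⟩
    have ih' := ih W'
    have hyi : y ∈ insert y T := mem_insert_self y T
    have hup := W'.up hN
    have hlT : ∀ x ∈ T, i < Pool.Agent.GaussPoset.lev x := fun x hx => by
      rw [← W'.lev hx]; exact W'.lt x hx
    intro V hV hVup hVlow hVB
    refine twClean (N := N ∪ T) (B := B) (θ := θ) (y1 := tw y) (y2 := y) hup
      (mem_union_left _ (W.mem y hyi)) ?_ (W.nB y hyi) (W.tp y hyi) (W.lt y hyi) ?_ ?_ ?_ ?_ ?_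
      hVup ?_ ?_
    · rw [mem_union, not_or]
      exact ⟨W.out y hyi, hyT⟩
    · intro U hU h1 h2 h3
      exact ih' U hU h1 (fun x hx => h2 x (mem_union_left _ hx))
        (fun x hx => h3 x (mem_union_left _ hx))
    · intro x hx h1
      rw [mem_union] at hx
      rcases hx with hx | hx
      · exact hlev x hx h1
      · exact hlT x hx
    · intro x hx h1 v hv hvx
      rcases mem_union.mp hx with hx' | hx'
      · rcases mem_union.mp hv with hv' | hv'
        · exact hbase x hx' h1 v hv' hvx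
        · exact W'.nB v hv'
      · rw [W'.bot hN hx' hv hvx]
        exact W'.nB x hx'
    · intro x hx h1 v hv hvx x' hvx' hn
      rcases mem_union.mp hx with hx' | hx'
      · rcases mem_union.mp hv with hv' | hv'
        · exact hstep x hx' h1 v hv' hvx x' hvx' hn
        · have hvx2 : v ≠ x := by
            rintro rfl
            exact W'.out v hv' hx'
          have h3 : tw v ≤ x := (((W'.tp v hv').up x).mpr (lt_of_le_of_ne hvx hvx2)).le
          exact hstep x hx' h1 (tw v) (W'.mem v hv') h3 x'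
            ((cov_of_up (W'.tp v hv').up).mpr hvx') hn
      · have h3 := W'.bot hN hx' hv hvx
        subst h3
        have h4 : tw v ⋖ x' := (cov_of_up (W'.tp v hx').up).mpr hvx'
        have h5 := hstep (tw v) (W'.mem v hx') (W'.tp v hx').one_le (tw v) (W'.mem v hx') le_rfl x'
          h4 (not_le_of_gt h4.1)
        rw [(W'.tp v hx').eq]
        exact h5
    · intro x hx
      have := hV hx
      rw [mem_union, mem_insert] at this
      rw [mem_insert, mem_union]
      tauto
    · intro x hx hl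
      rcases mem_union.mp hx with hx | hx
      · exact hVlow x hx hl
      · have := hlT x hx
        omega
    · intro x hx hb
      rcases mem_union.mp hx with hx | hx
      · exact hVB x hx hb
      · exact absurd hb (W'.nB x hx)

end

/-- **The natural set may be larger, with additional twins.** -/
theorem compL_twins {N : Tops P → Finset P} (HN : NatSys N) {i j b : ℕ} (hij : i ≤ j)
    (hlow : ∀ s : Tops P, lowPart j (s : P) ⊆ N s) {t : Tops P} {N' T : Finset P} {θ' : P → ℕ}
    {B' : P → Prop} (H : NatTop i t b N' θ' B') {θ : P → ℕ} {B : P → Prop} {tw : P → P}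
    {n0 : ℕ} (hN' : ∀ x ∈ N t, x ∈ N' ∨ x ∈ T) (hT : ∀ y ∈ T, y ∈ N t ∧ tw y ∈ N t)
    (hN'low : ∀ x, x ≤ (t : P) → Pool.Agent.GaussPoset.lev x ≤ j → x ∈ N')
    (hB' : ∀ x ∈ N', B' x → x ∈ N t)
    (hθ : ∀ x ∈ N t, x ∉ T → θ x = θ' x) (hθT : ∀ y ∈ T, θ y = θ' (tw y))
    (hB : ∀ x ∈ N t, x ∉ T → (B x ↔ B' x)) (hBT : ∀ y ∈ T, ¬ B y)
    {θ0 : P → ℕ} (h0 : ∀ x, x ∉ T → θ0 x = θ' x) (h0T : ∀ y ∈ T, θ0 y = θ' (tw y))
    (W : Tws i n0 N' T θ0 (fun x => x ∈ N' ∧ B' x) tw) :
    CompDataL (unnat N) topOf t i b n0 θ B := by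
  classical
  have HM := natSys_upd HN H
  have hup := H.up
  have hmem : ∀ {x}, x ∉ unnat N → topOf x = t → x ∈ N t := fun {x} h1 h2 =>
    HN.mem_iff.mpr ⟨h1, h2⟩
  have hsubM : ∀ x ∈ N', x ∉ unnat (upd N t N') := fun x hx h =>
    mem_unnat.mp h t (by rw [upd_self]; exact hx)
  have htop : ∀ x ∈ N', topOf x = t := fun x hx =>
    HM.topOf_eq (by rw [upd_self]; exact hx)
  have hC := H.data _ HM (upd_self N t N') θ' (fun x => x ∈ N' ∧ B' x) (fun _ _ => rfl)
    (fun x hx => ⟨fun h => h.2, fun h => ⟨hx, h⟩⟩)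
  have f_lev : ∀ x ∈ N', 1 ≤ θ' x → i < Pool.Agent.GaussPoset.lev x := fun x hx =>
    hC.lev x (hsubM x hx) (htop x hx)
  have f_base : ∀ x ∈ N', 1 ≤ θ' x → ∀ y ∈ N', y ≤ x → ¬ B' y := fun x hx h1 y hy hyx hby =>
    hC.base x (hsubM x hx) (htop x hx) h1 y hyx (hsubM y hy) ⟨hy, hby⟩
  have f_step : ∀ x ∈ N', 1 ≤ θ' x → ∀ y ∈ N', y ≤ x → ∀ x', y ⋖ x' → ¬ x' ≤ x →
      θ' x ≤ θ' x' + 1 := fun x hx h1 y hy hyx x' hyx' hn =>
    hC.step x (hsubM x hx) (htop x hx) h1 y hyx (hsubM y hy) x'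
      (hsubM x' (hup y hy x' hyx'.1.le)) hyx' hn
  have f_le : ∀ x ∈ N', θ' x ≤ Pool.Agent.GaussPoset.lev x - i := fun x hx =>
    hC.le x (hsubM x hx) (htop x hx)
  have hnT : ∀ x ∈ N', x ∉ T := fun x hx h => W.out x h hx
  have hlowM : ∀ x ∈ unnat (upd N t N'), i < Pool.Agent.GaussPoset.lev x := by
    intro x hx
    by_contra hcon
    rw [mem_unnat] at hx
    by_cases h : topOf x = t
    · refine hx t ?_
      rw [upd_self]
      exact hN'low x (by rw [← h]; exact le_topOf x) (by omega)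
    · refine hx (topOf x) ?_
      rw [upd_ne N N' h]
      exact hlow _ (mem_lowPart.mpr ⟨le_topOf x, by omega⟩)
  have hcv : ∀ y ∈ T, ∀ x, y < x → x ∈ N' := fun y hy x h => W.above hup hy h
  have hbot : ∀ y ∈ T, ∀ x ∈ N t, x ≤ y → x = y := by
    intro y hy x hx hxy
    refine W.bot hup hy ?_ hxy
    rw [mem_union]
    exact hN' x hx
  constructor
  · intro D hD hdec n hn
    let V : Finset P := (N t).filter (fun x => x ∉ D)
    have hV : ∀ x, x ∈ V ↔ x ∈ N t ∧ x ∉ D := fun x => by simp [V]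
    have hiso : {x : P // x ∈ V} ≃o {x : {x : P // x ∉ D} // topOf (x : P) = t} :=
      { toFun := fun x => ⟨⟨x, ((hV x).mp x.2).2⟩, HN.topOf_eq ((hV x).mp x.2).1⟩
        invFun := fun x => ⟨x.1.1, (hV _).mpr ⟨hmem (fun h => x.1.2 (hD.2.1 h)) x.2, x.1.2⟩⟩
        left_inv := fun x => rfl
        right_inv := fun x => rfl
        map_rel_iff' := Iff.rfl }
    rw [← Z_iso hiso]
    refine twCleanS (B := fun x => x ∈ N' ∧ B' x) (θ := θ0) W hup ?_ ?_ ?_ ?_ V ?_ ?_ ?_ ?_ n hn
    · intro U hUN hUup hUlow hUB n' _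
      exact natClean H HM (upd_self N t N') hlowM hUN hUup hUlow
        (fun x hx hb => hUB x hx ⟨hx, hb⟩) n'
    · intro x hx hθx
      rw [h0 x (hnT x hx)] at hθx
      exact f_lev x hx hθx
    · intro x hx hθx y hy hyx hby
      rw [h0 x (hnT x hx)] at hθx
      exact f_base x hx hθx y hy hyx hby.2
    · intro x hx hθx y hy hyx x' hyx' hn'
      have hx' := hup y hy x' hyx'.1.le
      rw [h0 x (hnT x hx)] at hθx ⊢
      rw [h0 x' (hnT x' hx')]
      exact f_step x hx hθx y hy hyx x' hyx' hn'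
    · intro x hx
      rw [hV] at hx
      rw [mem_union]
      exact hN' x hx.1
    · intro x hx y hxy
      rw [hV] at hx ⊢
      exact ⟨HN.up t x hx.1 y hxy, fun h => hx.2 (hD.1 x y hxy h)⟩
    · intro x hx hl
      rw [hV]
      refine ⟨hlow t (mem_lowPart.mpr ⟨H.le_t x hx, by omega⟩), fun h => ?_⟩
      have := hD.2.2.1 x h
      omega
    · rintro x hx ⟨-, hb⟩
      rw [hV]
      have h3 := hB' x hx hb
      exact ⟨h3, fun h => hD.2.2.2 x h ((hB x h3 (hnT x hx)).mpr hb)⟩
  · intro x hx hk hθx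
    have hxN := hmem hx hk
    by_cases hxT : x ∈ T
    · rw [← W.lev hxT]; exact W.lt x hxT
    · rw [hθ x hxN hxT] at hθx
      exact f_lev x ((hN' x hxN).resolve_right hxT) hθx
  · intro x hx hk hθx y hyx hy' hBy
    have hxN := hmem hx hk
    have hyN := hmem hy' ((HN.cp y x hyx hy').trans hk)
    by_cases hxT : x ∈ T
    · rw [hbot x hxT y hyN hyx] at hBy
      exact hBT x hxT hBy
    · have hx' := (hN' x hxN).resolve_right hxT
      rw [hθ x hxN hxT] at hθx
      by_cases hyT : y ∈ T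
      · exact hBT y hyT hBy
      · exact f_base x hx' hθx y ((hN' y hyN).resolve_right hyT) hyx ((hB y hyN hyT).mp hBy)
  · intro x hx hk hθx y hyx hy' x' hx' hyx' hn
    have hxN := hmem hx hk
    have hyt : topOf y = t := (HN.cp y x hyx hy').trans hk
    have hyN := hmem hy' hyt
    have hx'N := hmem hx' ((HN.cp y x' hyx'.1.le hy').symm.trans hyt)
    by_cases hxT : x ∈ T
    · have h3 := hbot x hxT y hyN hyx
      subst h3
      have h4 : tw y ⋖ x' := (cov_of_up (W.tp y hxT).up).mpr hyx'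
      have h6 := hcv y hxT x' hyx'.1
      have h7 : 1 ≤ θ' (tw y) := by rw [← hθT y hxT]; exact hθx
      have h5 := f_step (tw y) (W.mem y hxT) h7 (tw y) (W.mem y hxT) le_rfl x'
        h4 (not_le_of_gt h4.1)
      rw [hθT y hxT, hθ x' hx'N (hnT x' h6)]
      exact h5
    · have hxN' := (hN' x hxN).resolve_right hxT
      rw [hθ x hxN hxT] at hθx ⊢
      by_cases hyT : y ∈ T
      · have h3 := hcv y hyT x' hyx'.1
        rw [hθ x' hx'N (hnT x' h3)]
        have h5 : y ≠ x := by
          rintro rfl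
          exact hxT hyT
        have h6 : tw y ≤ x := (((W.tp y hyT).up x).mpr (lt_of_le_of_ne hyx h5)).le
        exact f_step x hxN' hθx (tw y) (W.mem y hyT) h6 x'
          ((cov_of_up (W.tp y hyT).up).mpr hyx') hn
      · have hyN' := (hN' y hyN).resolve_right hyT
        have hx'N' := hup y hyN' x' hyx'.1.le
        rw [hθ x' hx'N (hnT x' hx'N')]
        exact f_step x hxN' hθx y hyN' hyx x' hyx' hn
  · intro x hx hk
    have hxN := hmem hx hk
    by_cases hxT : x ∈ T
    · rw [hθT x hxT, ← W.lev hxT]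
      exact f_le _ (W.mem x hxT)
    · rw [hθ x hxN hxT]
      exact f_le x ((hN' x hxN).resolve_right hxT)

end Pool.Agent.GaussPoset.J10

end

/-! From `Pool.Agent.W_448f4_h70.JB` -/

section

/-!
Twins of the cell `(m, m + 1)` of a stair-like component, and the elements which hang below them
(MP_448cb3_co, S7).
-/

namespace Pool.Agent.GaussPoset

set_option linter.unusedSectionVars false

open Polynomial Finset

universe u

variable {P : Type u} [Fintype P] [PartialOrder P] [DecidableEq P]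

/-- a twin `x'` of the cell `(m, m + 1)` of a stair-like chart -/
structure FoldC (i : ℕ) (t : Tops P) (Nc : Finset P) (co : P → ℕ × ℕ) (m : ℕ) (x x' : P) :
    Prop where
  chart : Chart (t : P) (fun c => c.1 ≤ c.2) Nc co
  hi : 2 ≤ i
  him : i < m
  cell : ∃ y ∈ Nc, co y = (2 * (i / 2), i)
  low : ∀ y, y ≤ (t : P) → lev y ≤ i → y ∈ Nc
  mem : x ∈ Nc
  co_eq : co x = (m, m + 1)
  nN : x' ∉ natS Nc co
  up : ∀ y, x < y ↔ x' < y

section Fold

variable {i m : ℕ} {t : Tops P} {Nc : Finset P} {co : P → ℕ × ℕ} {x x' z : P}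

lemma FoldC.nNc (F : FoldC i t Nc co m x x') : x' ∉ Nc := fun h => F.nN (mem_natS.mpr (Or.inl h))

lemma FoldC.ne (F : FoldC i t Nc co m x x') : x ≠ x' := fun h => F.nNc (h ▸ F.mem)

lemma FoldC.lev_eq (F : FoldC i t Nc co m x x') : lev x' = lev x := (lev_eq_of_up F.up).symm

lemma FoldC.lev_x (F : FoldC i t Nc co m x x') : lev x = 2 * m + 1 := by
  have h := F.chart.lev x F.mem
  rw [F.co_eq] at h
  simp only at h
  omega

lemma FoldC.lt_t (F : FoldC i t Nc co m x x') : x < (t : P) := by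
  refine lt_of_le_of_ne (F.chart.le_t x F.mem) (fun h => ?_)
  have h1 := F.lev_x
  rw [h] at h1
  have h2 : lev (t : P) = 0 := t.2
  omega

/-- the new chart -/
noncomputable def NcP (Nc : Finset P) (x x' z : P) : Finset P := by
  classical exact insert z (insert x' (Nc.filter (fun y => ¬ y ≤ x)))

/-- the coordinates of the new chart -/
def coP (co : P → ℕ × ℕ) (m : ℕ) (x' z : P) (y : P) : ℕ × ℕ :=
  if y = x' then (m, m + 1) else if y = z then (m + 1, m + 1) else co y

lemma mem_NcP {y : P} : y ∈ NcP Nc x x' z ↔ y = z ∨ y = x' ∨ (y ∈ Nc ∧ ¬ y ≤ x) := by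
  classical
  unfold NcP
  rw [mem_insert, mem_insert, mem_filter]

lemma coP_tw : coP co m x' z x' = (m, m + 1) := if_pos rfl

lemma coP_pen (h : z ≠ x') : coP co m x' z z = (m + 1, m + 1) := by
  unfold coP
  rw [if_neg h, if_pos rfl]

lemma coP_old {y : P} (h1 : y ≠ x') (h2 : y ≠ z) : coP co m x' z y = co y := by
  unfold coP
  rw [if_neg h1, if_neg h2]

/-- the chart in which the twin replaces the cell -/
theorem FoldC.chartP (F : FoldC i t Nc co m x x') (hgr : GradedBelow P) (hz : z ∉ Nc)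
    (hzx : ∀ y, z < y ↔ x' ≤ y) :
    Chart (t : P) (fun c => c.1 ≤ c.2) (NcP Nc x x' z) (coP co m x' z) := by
  have C := F.chart
  have hzx' : z < x' := (hzx x').mpr le_rfl
  have hne : z ≠ x' := hzx'.ne
  have hoN : ∀ y ∈ Nc, y ≠ x' ∧ y ≠ z := fun y hy =>
    ⟨fun h => F.nNc (h ▸ hy), fun h => hz (h ▸ hy)⟩
  have hco : ∀ y ∈ Nc, coP co m x' z y = co y := fun y hy => coP_old (hoN y hy).1 (hoN y hy).2
  have hct : coP co m x' z x' = (m, m + 1) := coP_tw
  have hcz : coP co m x' z z = (m + 1, m + 1) := coP_pen hne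
  have hcov : z ⋖ x' := ⟨hzx', fun y h1 h2 => absurd ((hzx y).mp h1) (not_le_of_gt h2)⟩
  -- the elements above `x'`
  have hupx : ∀ y, x' < y → y ∈ Nc ∧ ¬ y ≤ x := fun y hy => by
    have h1 := (F.up y).mpr hy
    exact ⟨C.up x F.mem y h1.le, fun h => absurd h1 (not_lt_of_ge h)⟩
  -- the cells above
  have hxy : ∀ y ∈ Nc, ¬ y ≤ x → (x' ≤ y ↔ co y ≤ (m, m + 1)) := by
    intro y hy hyx
    have h1 := C.le_iff x F.mem y hy
    rw [F.co_eq] at h1
    rw [← h1]
    constructor
    · intro h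
      exact ((F.up y).mpr (lt_of_le_of_ne h (hoN y hy).1.symm)).le
    · intro h
      exact ((F.up y).mp (lt_of_le_of_ne h (fun h => hyx (h ▸ le_rfl)))).le
  have hz2 : ∀ y ∈ Nc, ¬ y ≤ x → (co y ≤ (m, m + 1) ↔ co y ≤ (m + 1, m + 1)) := by
    intro y hy hyx
    have h1 : (co y).1 ≤ (co y).2 := C.mem y hy
    have h2 : ¬ co x ≤ co y := fun h => hyx ((C.le_iff y hy x F.mem).mpr h)
    rw [F.co_eq, Prod.le_def] at h2
    rw [Prod.le_def, Prod.le_def]
    simp only at h2 ⊢
    omega
  constructor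
  · intro y hy w hyw
    rw [mem_NcP] at hy ⊢
    rcases hy with rfl | rfl | ⟨h1, h2⟩
    · rcases eq_or_lt_of_le hyw with h | h
      · exact Or.inl h.symm
      · rcases eq_or_lt_of_le ((hzx w).mp h) with h3 | h3
        · exact Or.inr (Or.inl h3.symm)
        · exact Or.inr (Or.inr (hupx w h3))
    · rcases eq_or_lt_of_le hyw with h | h
      · exact Or.inr (Or.inl h.symm)
      · exact Or.inr (Or.inr (hupx w h))
    · exact Or.inr (Or.inr ⟨C.up y h1 w hyw, fun h => h2 (hyw.trans h)⟩)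
  · intro y hy
    rw [mem_NcP] at hy
    have h0 : x' ≤ (t : P) := ((F.up _).mp F.lt_t).le
    rcases hy with rfl | rfl | ⟨h1, -⟩
    · exact hzx'.le.trans h0
    · exact h0
    · exact C.le_t y h1
  · intro y hy w hw h
    rw [mem_NcP] at hy hw
    rcases hy with rfl | rfl | ⟨h1, h2⟩
    · rcases hw with rfl | rfl | ⟨h3, h4⟩
      · rfl
      · rw [hct, hcz] at h
        simp only [Prod.mk.injEq] at h
        omega
      · exfalso
        rw [hco w h3, hcz] at h
        exact h4 ((C.le_iff w h3 x F.mem).mpr (by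
          rw [← h, F.co_eq]
          exact ⟨Nat.le_succ m, le_rfl⟩))
    · rcases hw with rfl | rfl | ⟨h3, h4⟩
      · rw [hct, hcz] at h
        simp only [Prod.mk.injEq] at h
        omega
      · rfl
      · exfalso
        rw [hco w h3, hct] at h
        exact h4 ((C.le_iff w h3 x F.mem).mpr (by rw [← h, F.co_eq]))
    · rcases hw with rfl | rfl | ⟨h3, h4⟩
      · exfalso
        rw [hco y h1, hcz] at h
        exact h2 ((C.le_iff y h1 x F.mem).mpr (by
          rw [h, F.co_eq]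
          exact ⟨Nat.le_succ m, le_rfl⟩))
      · exfalso
        rw [hco y h1, hct] at h
        exact h2 ((C.le_iff y h1 x F.mem).mpr (by rw [h, F.co_eq]))
      · rw [hco y h1, hco w h3] at h
        exact C.inj y h1 w h3 h
  · intro y hy w hw
    rw [mem_NcP] at hy hw
    have hnxN : ∀ w ∈ Nc, ¬ w ≤ x' := fun w hw h => F.nNc (C.up w hw x' h)
    have hnzN : ∀ w ∈ Nc, ¬ w ≤ z := fun w hw h => hz (C.up w hw z h)
    rcases hy with rfl | rfl | ⟨h1, h2⟩
    · rcases hw with rfl | rfl | ⟨h3, h4⟩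
      · simp
      · rw [hct, hcz]
        exact ⟨fun _ => ⟨Nat.le_succ m, le_rfl⟩, fun _ => hzx'.le⟩
      · rw [hco w h3, hcz, ← hz2 w h3 h4, ← hxy w h3 h4]
        constructor
        · intro h
          exact (hzx w).mp (lt_of_le_of_ne h (hoN w h3).2.symm)
        · intro h
          exact ((hzx w).mpr h).le
    · rcases hw with rfl | rfl | ⟨h3, h4⟩
      · rw [hct, hcz]
        constructor
        · intro h
          exact absurd h (not_le_of_gt hzx')
        · intro h
          have h5 : m + 1 ≤ m := h.1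
          omega
      · simp
      · rw [hco w h3, hct]
        exact hxy w h3 h4
    · rcases hw with rfl | rfl | ⟨h3, h4⟩
      · rw [hco y h1, hcz]
        constructor
        · intro h
          exact absurd h (hnzN y h1)
        · intro h
          exact absurd ((C.le_iff y h1 x F.mem).mpr (by
            rw [F.co_eq]
            exact (show ((m, m + 1) : ℕ × ℕ) ≤ (m + 1, m + 1) from
              ⟨Nat.le_succ m, le_rfl⟩).trans h)) h2
      · rw [hco y h1, hct]
        constructor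
        · intro h
          exact absurd h (hnxN y h1)
        · intro h
          exact absurd ((C.le_iff y h1 x F.mem).mpr (by rw [F.co_eq]; exact h)) h2
      · rw [hco y h1, hco w h3]
        exact C.le_iff y h1 w h3
  · intro y hy
    rw [mem_NcP] at hy
    rcases hy with rfl | rfl | ⟨h1, h2⟩
    · rw [hcz]
    · rw [hct]; exact Nat.le_succ m
    · rw [hco y h1]; exact C.mem y h1
  · have key : ∀ c : ℕ × ℕ, c ≤ (m, m + 1) → c.1 ≤ c.2 →
        ∃ y ∈ NcP Nc x x' z, coP co m x' z y = c := by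
      intro c hc hcS
      by_cases h : c = (m, m + 1)
      · exact ⟨x', mem_NcP.mpr (Or.inr (Or.inl rfl)), by rw [hct, h]⟩
      · obtain ⟨y, hy, hcy⟩ := C.low x F.mem c (by rw [F.co_eq]; exact hc) hcS
        refine ⟨y, mem_NcP.mpr (Or.inr (Or.inr ⟨hy, fun hyx => h ?_⟩)), by rw [hco y hy, hcy]⟩
        have h1 := (C.le_iff y hy x F.mem).mp hyx
        rw [F.co_eq, hcy] at h1
        exact le_antisymm hc h1
    intro y hy c hc hcS
    rw [mem_NcP] at hy
    rcases hy with rfl | rfl | ⟨h1, h2⟩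
    · rw [hcz] at hc
      by_cases h : c = (m + 1, m + 1)
      · exact ⟨y, mem_NcP.mpr (Or.inl rfl), by rw [hcz, h]⟩
      · refine key c ?_ hcS
        rw [Prod.le_def] at hc ⊢
        simp only at hc ⊢ 
        have h3 : ¬ (c.1 = m + 1 ∧ c.2 = m + 1) := fun h4 => h (Prod.ext h4.1 h4.2)
        omega
    · rw [hct] at hc
      exact key c hc hcS
    · rw [hco y h1] at hc
      obtain ⟨w, hw, hcw⟩ := C.low y h1 c hc hcS
      refine ⟨w, mem_NcP.mpr (Or.inr (Or.inr ⟨hw, fun hwx => h2 ?_⟩)), by rw [hco w hw, hcw]⟩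
      exact le_trans ((C.le_iff y h1 w hw).mpr (by rw [hcw]; exact hc)) hwx
  · intro y hy
    rw [mem_NcP] at hy
    have h0 : Pool.Agent.GaussPoset.lev x' = 2 * m + 1 := by rw [F.lev_eq, F.lev_x]
    rcases hy with rfl | rfl | ⟨h1, h2⟩
    · rw [hcz, hgr.lev_covBy hcov, h0]
      simp only
      omega
    · rw [hct, h0]
      simp only
      omega
    · rw [hco y h1]
      exact C.lev y h1

/-- the end of the first row does not change -/
lemma FoldC.isEndP (F : FoldC i t Nc co m x x') (hz : z ∉ Nc) (hzx : ∀ y, z < y ↔ x' ≤ y) {x1 : P}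
    (E : IsEnd (fun c => c.1 ≤ c.2) Nc co x1) :
    IsEnd (fun c => c.1 ≤ c.2) (NcP Nc x x' z) (coP co m x' z) x1 := by
  have C := F.chart
  have hzx' : z < x' := (hzx x').mpr le_rfl
  have hne : z ≠ x' := hzx'.ne
  have hoN : ∀ y ∈ Nc, y ≠ x' ∧ y ≠ z := fun y hy =>
    ⟨fun h => F.nNc (h ▸ hy), fun h => hz (h ▸ hy)⟩
  have hco : ∀ y ∈ Nc, coP co m x' z y = co y := fun y hy => coP_old (hoN y hy).1 (hoN y hy).2
  have hct : coP co m x' z x' = (m, m + 1) := coP_tw
  have hcz : coP co m x' z z = (m + 1, m + 1) := coP_pen hne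
  have h2 := F.hi
  have h3 := F.him
  have h1 : ¬ x1 ≤ x := by
    intro h
    have h4 := (C.le_iff x1 E.mem x F.mem).mp h
    rw [F.co_eq] at h4
    have h5 : m ≤ (co x1).1 := h4.1
    rw [E.fst] at h5
    omega
  have hx := E.lt x F.mem (by rw [F.co_eq]; simp only; omega)
  rw [F.co_eq] at hx
  simp only at hx
  refine ⟨mem_NcP.mpr (Or.inr (Or.inr ⟨E.mem, h1⟩)), by rw [hco x1 E.mem]; exact E.fst, ?_, ?_⟩
  · intro y hy h4
    rw [hco x1 E.mem]
    rw [mem_NcP] at hy
    rcases hy with rfl | rfl | ⟨h5, h6⟩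
    · rw [hcz]; exact hx
    · rw [hct]; exact hx
    · rw [hco y h5] at h4 ⊢
      exact E.lt y h5 h4
  · intro c hc hcS
    rw [hco x1 E.mem] at hc
    obtain ⟨y, hy, hcy⟩ := E.ex c hc hcS
    refine ⟨y, mem_NcP.mpr (Or.inr (Or.inr ⟨hy, fun h => ?_⟩)), by rw [hco y hy, hcy]⟩
    have h4 := (C.le_iff y hy x F.mem).mp h
    rw [F.co_eq, hcy] at h4
    have h5 : m ≤ 1 := h4.1
    omega

/-- **The region in which the twin replaces the cell, with an element below the twin.** -/
theorem FoldC.clean_pen (F : FoldC i t Nc co m x x') (hgr : GradedBelow P) 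
    {M : Tops P → Finset P} (HM : NatSys M) (hM : M t = natS Nc co)
    (hlowM : ∀ y, lev y ≤ i → y ∉ unnat M) (hz : z ∈ unnat M) (hzx : ∀ y, z < y ↔ x' ≤ y)
    {D : Finset P} (hDl : ∀ a c, a ≤ c → c ∈ D → a ∈ D) (hDlev : ∀ y ∈ D, i < lev y)
    (hDB : ∀ y ∈ D, ¬ (y ∈ Nc ∧ co y = (2 * (i / 2), i)))
    (hD : ∀ y ∈ unnat M, y ≠ x' → y ≠ z → y ∈ D) (hx : x ∈ D) [DecidableEq (Tops P)] :
    (1 + X : Polynomial (PowerSeries ℤ)) ^ (i / 2 + 1) ∣
      W {y : {y : P // y ∉ D} // topOf (y : P) = t} i := by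
  classical
  have C := F.chart
  have hzx' : z < x' := (hzx x').mpr le_rfl
  have hne : z ≠ x' := hzx'.ne
  have hzN : z ∉ Nc := fun h => mem_unnat.mp hz t (by rw [hM]; exact mem_natS.mpr (Or.inl h))
  have hoN : ∀ y ∈ Nc, y ≠ x' ∧ y ≠ z := fun y hy =>
    ⟨fun h => F.nNc (h ▸ hy), fun h => hzN (h ▸ hy)⟩
  have hco : ∀ y ∈ Nc, coP co m x' z y = co y := fun y hy => coP_old (hoN y hy).1 (hoN y hy).2
  have hct : coP co m x' z x' = (m, m + 1) := coP_tw
  have hcz : coP co m x' z z = (m + 1, m + 1) := coP_pen hne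
  have CP := F.chartP hgr hzN hzx
  have h2 := F.hi
  have h3 := F.him
  have hxlow : ∀ y, y ≤ x → m ≤ (co y).1 ∨ y ∉ Nc := by
    intro y hy
    by_cases hyN : y ∈ Nc
    · left
      have h4 := (C.le_iff y hyN x F.mem).mp hy
      rw [F.co_eq] at h4
      exact h4.1
    · exact Or.inr hyN
  have NT := natTop_stair (i := i) hgr CP F.hi (by
    obtain ⟨y, hy, hcy⟩ := F.cell
    refine ⟨y, mem_NcP.mpr (Or.inr (Or.inr ⟨hy, fun h => ?_⟩)), by rw [hco y hy, hcy]⟩
    rcases hxlow y h with h4 | h4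
    · rw [hcy] at h4
      simp only at h4
      omega
    · exact h4 hy) (by
    intro y hy hly
    refine mem_NcP.mpr (Or.inr (Or.inr ⟨F.low y hy hly, fun h => ?_⟩))
    have h4 := F.lev_x
    rcases eq_or_lt_of_le h with h5 | h5
    · rw [h5] at hly; omega
    · have := lev_strictAnti h5; omega)
  set M' : Tops P → Finset P := Function.update M t (natS (NcP Nc x x' z) (coP co m x' z))
    with hM'
  have hM't : M' t = natS (NcP Nc x x' z) (coP co m x' z) := Function.update_self _ _ _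
  have hM'n : ∀ s, s ≠ t → M' s = M s := fun s hs => Function.update_of_ne hs _ _
  have HM' : NatSys M' := by
    constructor
    · intro s
      by_cases hs : s = t
      · rw [hs, hM't]; exact NT.up
      · rw [hM'n s hs]; exact HM.up s
    · intro s
      by_cases hs : s = t
      · rw [hs, hM't]; exact NT.le_t
      · rw [hM'n s hs]; exact HM.le_t s
  have hd := NT.data M' HM' hM't (thS i (NcP Nc x x' z) (coP co m x' z))
    (fun y => y ∈ NcP Nc x x' z ∧ coP co m x' z y = (2 * (i / 2), i)) (fun _ _ => rfl)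
    (fun _ _ => Iff.rfl)
  have hlow' : ∀ y, lev y ≤ i → y ∉ unnat M' := by
    intro y hy h
    rw [mem_unnat] at h
    have h4 := hlowM y hy
    rw [mem_unnat] at h4
    push Not at h4
    obtain ⟨s, hs⟩ := h4
    by_cases hst : s = t
    · subst hst
      refine h s ?_
      exact NT.low y (HM.le_t s y hs) hy |> fun h5 => by rw [hM't]; exact h5
    · exact h s (by rw [hM'n s hst]; exact hs)
  have hsub : ∀ y, y ∉ D → topOf y = t → y ∉ unnat M' := by
    intro y hyD hyt h
    rw [mem_unnat] at h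
    refine h t ?_
    rw [hM't, mem_natS]
    by_cases h4 : y = z
    · exact Or.inl (mem_NcP.mpr (Or.inl h4))
    by_cases h5 : y = x'
    · exact Or.inl (mem_NcP.mpr (Or.inr (Or.inl h5)))
    have h6 : y ∉ unnat M := fun h7 => hyD (hD y h7 h5 h4)
    have h7 : y ∈ M t := HM.mem_iff.mpr ⟨h6, hyt⟩
    rw [hM, mem_natS] at h7
    rcases h7 with h7 | h7
    · exact Or.inl (mem_NcP.mpr (Or.inr (Or.inr ⟨h7, fun h8 => hyD (hDl y x h8 hx)⟩)))
    · obtain ⟨x1, E, hj⟩ := mem_junk.mp h7
      exact Or.inr (mem_junk.mpr ⟨x1, F.isEndP hzN hzx E, hj⟩)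
  have hgood : Good i (unnat M') (fun y => y ∈ NcP Nc x x' z ∧
      coP co m x' z y = (2 * (i / 2), i)) (D ∪ unnat M') := by
    refine ⟨?_, subset_union_right, ?_, ?_⟩
    · intro a c hac hc
      rw [mem_union] at hc ⊢
      rcases hc with hc | hc
      · exact Or.inl (hDl a c hac hc)
      · exact Or.inr (HM'.lower a c hac hc)
    · intro y hy
      rw [mem_union] at hy
      rcases hy with hy | hy
      · exact hDlev y hy
      · by_contra hcon
        exact hlow' y (not_lt.mp hcon) hy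
    · intro y hy
      rw [mem_union] at hy
      rintro ⟨h4, h5⟩
      rcases hy with hy | hy
      · rw [mem_NcP] at h4
        rcases h4 with h4 | h4 | ⟨h4, -⟩
        · rw [h4, hcz] at h5
          simp only [Prod.mk.injEq] at h5
          omega
        · rw [h4, hct] at h5
          simp only [Prod.mk.injEq] at h5
          omega
        · rw [hco y h4] at h5
          exact hDB y hy ⟨h4, h5⟩
      · exact mem_unnat.mp hy t (by rw [hM't]; exact mem_natS.mpr (Or.inl h4))
  have h4 := hd.clean (D ∪ unnat M') hgood inferInstance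
  let e : {y : {y : P // y ∉ D} // topOf (y : P) = t} ≃o
      {y : {y : P // y ∉ D ∪ unnat M'} // topOf (y : P) = t} :=
    { toFun := fun y => ⟨⟨y, by
        rw [mem_union, not_or]
        exact ⟨y.1.2, hsub _ y.1.2 y.2⟩⟩, y.2⟩
      invFun := fun y => ⟨⟨y, fun h => y.1.2 (mem_union_left _ h)⟩, y.2⟩
      left_inv := fun y => rfl
      right_inv := fun y => rfl
      map_rel_iff' := Iff.rfl }
  rw [W_iso e]
  exact h4

end Fold

end Pool.Agent.GaussPoset

end
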