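import Mathlib
import Pool.Agent.W_448zz_h61.Ns
import Pool.Agent.W_448zz_h61.M043
import Pool.Agent.W_448zz_h61.M055

/-! From `Pool.Agent.W_448cl_h67.ClM` -/

section

/-!
Natural sets from a checked strip.
-/

namespace Pool.Agent.GaussPoset.Cl

set_option linter.unusedSectionVars false

open Polynomial Finset Wd

universe u

variable {P : Type u} [Fintype P] [PartialOrder P] [DecidableEq P]
variable {r j : ℕ} {t : Tops P} {lo hi : ℕ → ℕ} {e : ℕ → ℕ → P}

/-- exact divisibility from a checked strip -/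
theorem StripOK.cleanAt {N J a : ℕ} {w : List Ltr} {ll sl cv nn : ℕ → ℕ}
    (S : StripOK N J (losW a w) (hisW a w) ll sl cv nn) {Us : List ℕ} (hU : UsOK N cv Us)
    {B i K bm a0 : ℕ} {L : List (ℕ × ℕ × ℕ)} (hw : winChk N B K ll Us i bm L = true)
    (hb : baseChk N J i a0 bm ll cv nn = true) (D : WordD j a w lo hi)
    (C : Cp.Comp j (t : P) lo hi e) (H : Gr P r) (hg : ∀ l, l < j → Win.Good P l) (hj : j ≤ J)
    (hk : ll a0 ≤ j) : CleanAt i 2 (lowPart j (t : P)) (e (ll a0) (sl a0)) := by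
  obtain ⟨h1, h2⟩ := D.rows C
  intro U hUN hup hlow hbase
  exact S.clean C H hg t.2 hj h1 h2 hU hw hb hk hUN hup hlow hbase

end Pool.Agent.GaussPoset.Cl

end

/-! From `Pool.Agent.W_448b1_h24.BB` -/

section

/-! Order of the window polynomial of a shifted shape in which only the first rows reach the window
(MP_448cb3_co, block B1). -/

namespace Pool.Agent.GaussPoset.Yg

set_option linter.unusedSectionVars false

open Finset

universe u

section shifted

variable {Q : Type u} [Fintype Q] [PartialOrder Q] [DecidableEq Q] {n w : ℕ}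

/-- the order of the window polynomial of a shifted shape -/
theorem shift_dvd_part {lam : Fin n → ℕ} (h : StrictAnti lam) (hn : ∀ s, lam s ≤ w)
    (e : Q ≃ {p : Fin n × Fin w // (p.2 : ℕ) < lam p.1})
    (he : ∀ x y : Q, x ≤ y ↔ leS (e y : Fin n × Fin w) (e x)) {i g : ℕ} (hgn : g ≤ n)
    (hgi : g ≤ i + 1) (h1 : ∀ a, 1 ≤ lam a)
    (h2 : ∀ a : Fin n, (a : ℕ) < g → i + 1 ≤ a + lam a) :
    (1 + Polynomial.X : Polynomial (PowerSeries ℤ)) ^ ((g + 1) / 2) ∣ W Q i := by
  have hmon : ((1 + Polynomial.X : Polynomial (PowerSeries ℤ)) ^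
      ((g + 1) / 2)).Monic := by
    apply Polynomial.Monic.pow
    rw [add_comm]
    exact Polynomial.monic_X_add_C 1
  set φ := algebraMap (PowerSeries ℤ) (FractionRing (PowerSeries ℤ)) with hφ
  have hφi : Function.Injective φ := IsFractionRing.injective _ _
  set q := φ qq with hqd
  have hq0 : q ≠ 0 := by
    rw [hqd, ne_eq, map_eq_zero_iff φ hφi]
    exact qq_ne
  have hq : ∀ j : ℕ, 1 - q ^ (j + 1) ≠ 0 := by
    intro j hj
    rw [hqd, ← map_pow, ← map_one φ, ← map_sub, map_eq_zero_iff φ hφi] at hj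
    have h1 := congrArg (PowerSeries.constantCoeff (R := ℤ)) hj
    simp at h1
  have : CharZero (FractionRing (PowerSeries ℤ)) := by
    refine ⟨fun a b hab => ?_⟩
    rw [← map_natCast φ, ← map_natCast φ] at hab
    have h1 := congrArg (PowerSeries.constantCoeff (R := ℤ)) (hφi hab)
    simpa using h1
  obtain ⟨P, hP⟩ := Psi_dvd_part hq0 hq hgn hgi h1 h2
  rw [← Polynomial.map_dvd_map φ hφi hmon]
  rw [Polynomial.map_pow, Polynomial.map_add, Polynomial.map_one, Polynomial.map_X]
  set k := (g + 1) / 2 with hk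
  have key : Polynomial.C (q ^ (∑ b : Fin n, (n - 1 - b))) * (W Q i).map φ =
      Polynomial.C (q ^ (i * Fintype.card Q)) *
        ((1 + Polynomial.X) ^ k * P.comp (-Polynomial.X)) := by
    apply Polynomial.eq_of_infinite_eval_eq
    have hinj : Function.Injective (fun m : ℕ => φ (pt i m)) := by
      intro a b hab
      have hab2 := hφi hab
      unfold pt at hab2
      simp only [neg_inj] at hab2
      have := congrArg PowerSeries.order hab2
      rw [PowerSeries.order_X_pow, PowerSeries.order_X_pow] at this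
      have h2 : i + a + 1 = i + b + 1 := by exact_mod_cast this
      omega
    refine Set.infinite_of_injective_forall_mem hinj fun m => ?_
    simp only [Set.mem_setOf_eq]
    have h3 : (W Q i).eval (pt i m) = qq ^ (i * Fintype.card Q) *
        ((U Q m : Polynomial ℤ) : PowerSeries ℤ) := W_eval i m
    have h4 : ((W Q i).map φ).eval (φ (pt i m)) = φ ((W Q i).eval (pt i m)) := by
      rw [Polynomial.eval_map, Polynomial.eval₂_hom]
    have h5 : φ (USg qq w m lam) = USg q w m lam := by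
      unfold USg
      rw [map_sum]
      exact sum_congr rfl fun f _ => by rw [map_pow]
    have h6 : φ (pt i m) = -q ^ (m + i + 1) := by
      unfold pt
      rw [map_neg, map_pow, hqd, show i + m + 1 = m + i + 1 by ring]
    have h7 := USg_eq q w _ n m lam h hn le_rfl
    rw [Polynomial.eval_mul, Polynomial.eval_C, h4, h3, map_mul, map_pow, U_shift h e he m, h5,
      Polynomial.eval_mul, Polynomial.eval_C, Polynomial.eval_mul, Polynomial.eval_pow,
      Polynomial.eval_add, Polynomial.eval_one, Polynomial.eval_X, Polynomial.eval_comp,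
      Polynomial.eval_neg, Polynomial.eval_X, h6, neg_neg, ← sub_eq_add_neg]
    have h8 := hP m
    rw [← h7] at h8
    linear_combination (q ^ (i * Fintype.card Q)) * h8
  have hu : IsUnit (Polynomial.C (q ^ (∑ b : Fin n, (n - 1 - b)))) :=
    Polynomial.isUnit_C.2 (isUnit_iff_ne_zero.2 (pow_ne_zero _ hq0))
  rw [← hu.dvd_mul_left, key]
  exact Dvd.dvd.mul_left (Dvd.intro _ rfl) _

/-- coordinates in a shifted shape (the greatest cell is `(0,0)`, cells `(a,c)` with `a ≤ c`): if
it contains the cell `(g,i)` then the window polynomial at `i` has order at least `(g + 2) / 2`. -/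
theorem shift_dvd_cellg (co : Q → ℕ × ℕ) (hinj : Function.Injective co)
    (hge : ∀ x, (co x).1 ≤ (co x).2) (hle : ∀ x y : Q, x ≤ y ↔ co y ≤ co x)
    (hlow : ∀ x : Q, ∀ c ≤ co x, c.1 ≤ c.2 → ∃ y, co y = c) {i g : ℕ}
    (hc : ∃ x, co x = (g, i)) :
    (1 + Polynomial.X : Polynomial (PowerSeries ℤ)) ^ ((g + 2) / 2) ∣ W Q i := by
  classical
  obtain ⟨x0, hx0⟩ := hc
  have hgi : g ≤ i := by
    have := hge x0
    rw [hx0] at this
    exact this
  set n := (univ : Finset Q).sup (fun x => (co x).1 + 1) with hn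
  set w := (univ : Finset Q).sup (fun x => (co x).2 + 1) with hw
  have hn1 : ∀ x : Q, (co x).1 < n := fun x =>
    Nat.lt_of_succ_le (le_sup (f := fun x : Q => (co x).1 + 1) (mem_univ x))
  have hw1 : ∀ x : Q, (co x).2 < w := fun x =>
    Nat.lt_of_succ_le (le_sup (f := fun x : Q => (co x).2 + 1) (mem_univ x))
  have hmax : ∃ x : Q, (co x).1 + 1 = n := by
    obtain ⟨x, -, hx⟩ := exists_mem_eq_sup (univ : Finset Q) ⟨x0, mem_univ _⟩
      (fun x => (co x).1 + 1)
    exact ⟨x, hx.symm⟩
  obtain ⟨xm, hxm⟩ := hmax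
  let lam : Fin n → ℕ := fun s => ((range w).filter (fun c => ∃ x, co x = ((s : ℕ), (s : ℕ) + c))).card
  have hfil : ∀ s : Fin n, ∀ c : ℕ, (∃ x, co x = ((s : ℕ), (s : ℕ) + c)) ↔ c < lam s := by
    intro s c
    have h1 : ∀ c c' : ℕ, c' ≤ c → (∃ x, co x = ((s : ℕ), (s : ℕ) + c)) →
        ∃ x, co x = ((s : ℕ), (s : ℕ) + c') := by
      rintro c c' hc ⟨x, hx⟩
      exact hlow x _ (by rw [hx]; exact ⟨le_rfl, by simp only; omega⟩) (by simp)
    constructor
    · intro h
      have h2 : range (c + 1) ⊆ (range w).filter (fun c => ∃ x, co x = ((s : ℕ), (s : ℕ) + c)) := by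
        intro c' hc'
        rw [mem_range] at hc'
        obtain ⟨x, hx⟩ := h1 c c' (by omega) h
        rw [mem_filter, mem_range]
        refine ⟨?_, x, hx⟩
        have := hw1 x
        rw [hx] at this
        simp only at this
        omega
      have h3 := card_le_card h2
      rw [card_range] at h3
      exact h3
    · intro h
      by_contra hcon
      have h2 : (range w).filter (fun c => ∃ x, co x = ((s : ℕ), (s : ℕ) + c)) ⊆ range c := by
        intro c' hc'
        rw [mem_filter] at hc'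
        rw [mem_range]
        by_contra h3
        exact hcon (h1 c' c (by omega) hc'.2)
      have h3 := card_le_card h2
      rw [card_range] at h3
      have h4 : lam s ≤ c := h3
      omega
  have hpos : ∀ s, 1 ≤ lam s := by
    intro s
    refine (hfil s 0).1 ?_
    refine hlow xm _ ?_ (by simp)
    have h1 := hge xm
    have h2 := s.2
    exact ⟨by simp only; omega, by simp only; omega⟩
  have hanti : StrictAnti lam := by
    intro s s' hs
    have h1 := hpos s'
    obtain ⟨x, hx⟩ := (hfil s' (lam s' - 1)).2 (by omega)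
    have h2 : (s : ℕ) < s' := hs
    obtain ⟨y, hy⟩ := hlow x ((s : ℕ), (s : ℕ) + lam s') (by
      rw [hx]
      exact ⟨by simp only; omega, by simp only; omega⟩) (by simp)
    exact (hfil s (lam s')).1 ⟨y, hy⟩
  have hlen : ∀ s, lam s ≤ w := by
    intro s
    have h1 := card_filter_le (range w) (fun c => ∃ x, co x = ((s : ℕ), (s : ℕ) + c))
    rw [card_range] at h1
    exact h1
  let toF : Q → {p : Fin n × Fin w // (p.2 : ℕ) < lam p.1} := fun x =>
    ⟨(⟨(co x).1, hn1 x⟩, ⟨(co x).2 - (co x).1, by have := hw1 x; omega⟩),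
      (hfil ⟨(co x).1, hn1 x⟩ ((co x).2 - (co x).1)).1 ⟨x, by
        have := hge x
        refine Prod.ext rfl ?_
        simp only
        omega⟩⟩
  have hbij : Function.Bijective toF := by
    constructor
    · intro x y hxy
      have h1 := congrArg (fun p => (p.1.1 : ℕ)) hxy
      have h2 := congrArg (fun p => (p.1.2 : ℕ)) hxy
      have h3 : (co x).1 = (co y).1 := h1
      have h4 : (co x).2 - (co x).1 = (co y).2 - (co y).1 := h2
      have h5 := hge x
      have h6 := hge y
      exact hinj (Prod.ext h3 (by omega))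
    · rintro ⟨⟨s, c⟩, hp⟩
      obtain ⟨x, hx⟩ := (hfil s c).2 hp
      refine ⟨x, ?_⟩
      apply Subtype.ext
      apply Prod.ext
      · apply Fin.ext
        change (co x).1 = s
        rw [hx]
      · apply Fin.ext
        change (co x).2 - (co x).1 = c
        rw [hx]
        simp
  have hgn : g + 1 ≤ n := by
    have := hn1 x0
    rw [hx0] at this
    exact this
  have h2 : ∀ a : Fin n, (a : ℕ) < g + 1 → i + 1 ≤ a + lam a := by
    intro a ha
    obtain ⟨y, hy⟩ := hlow x0 ((a : ℕ), i) (by rw [hx0]; exact ⟨by simp only; omega, le_rfl⟩)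
      (by simp only; omega)
    have h3 := (hfil a (i - a)).1 ⟨y, by
      rw [hy]
      refine Prod.ext rfl ?_
      simp only
      omega⟩
    omega
  exact shift_dvd_part hanti hlen (Equiv.ofBijective toF hbij) (by
    intro x y
    rw [hle]
    have h5 := hge x
    have h6 := hge y
    constructor
    · intro h
      have h7 : (co y).1 ≤ (co x).1 := h.1
      have h8 : (co y).2 ≤ (co x).2 := h.2
      exact ⟨h7, by
        change (co y).1 + ((co y).2 - (co y).1) ≤ (co x).1 + ((co x).2 - (co x).1)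
        omega⟩
    · intro h
      have h7 : (co y).1 ≤ (co x).1 := h.1
      have h8 : (co y).1 + ((co y).2 - (co y).1) ≤ (co x).1 + ((co x).2 - (co x).1) := h.2
      exact ⟨h7, by omega⟩) (g := g + 1) hgn (by omega) hpos h2

end shifted

end Pool.Agent.GaussPoset.Yg

namespace Pool.Agent.GaussPoset

set_option linter.unusedSectionVars false

open Finset Yg

universe u v

section Sub

variable {Q : Type u} [Fintype Q] [PartialOrder Q] [DecidableEq Q]

/-- order of the window polynomial of a shifted shape with a poset hung below the end `x1` of the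
first row -/
theorem shift_junk_dvd_cellg (t1 : Q → Prop) [DecidablePred t1] (co : Q → ℕ × ℕ)
    (x1 : Q) (hx11 : ¬ t1 x1)
    (hlow1 : ∀ x y, x ≤ y → t1 y → t1 x)
    (hh1 : ∀ x y, t1 x → ¬ t1 y → (x ≤ y ↔ x1 ≤ y))
    (hinj : ∀ x y, ¬ t1 x → ¬ t1 y → co x = co y → x = y)
    (hge : ∀ x, ¬ t1 x → (co x).1 ≤ (co x).2)
    (hle : ∀ x y, ¬ t1 x → ¬ t1 y → (x ≤ y ↔ co y ≤ co x))
    (hdown : ∀ x, ¬ t1 x → ∀ c ≤ co x, c.1 ≤ c.2 → ∃ y, ¬ t1 y ∧ co y = c)
    (hr1 : (∃ x, t1 x) → (co x1).1 = 0 ∧ ∀ y, ¬ t1 y → y ≠ x1 → (co y).2 < (co x1).2)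
    {i g : ℕ} (hcell : ∃ x, ¬ t1 x ∧ co x = (g, i)) :
    (1 + Polynomial.X : Polynomial (PowerSeries ℤ)) ^ ((g + 2) / 2) ∣ W Q i := by
  classical
  refine dvd_W_of_hang' t1 x1 hx11 hlow1 hh1 fun a ha => ?_
  let co' : Hang {x : Q // ¬ t1 x} (Fin a)ᵒᵈ ⟨x1, hx11⟩ → ℕ × ℕ :=
    Sum.elim (fun x => co (x : Q)) (fun k => (0, (co x1).2 + 1 + (OrderDual.ofDual k).val))
  have hA : 0 < a → (co x1).1 = 0 ∧ ∀ y, ¬ t1 y → y ≠ x1 → (co y).2 < (co x1).2 := by
    intro h0
    rcases ha with h | h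
    · omega
    · exact hr1 h
  have hA' : 0 < a → ∀ y, ¬ t1 y → (co y).2 ≤ (co x1).2 := by
    intro h0 y h1
    by_cases hy : y = x1
    · rw [hy]
    · exact ((hA h0).2 y h1 hy).le
  refine shift_dvd_cellg co' ?_ ?_ ?_ ?_ ?_
  · -- injective
    rintro (x | x) (y | y) hxy
    · have h := hinj x y x.2 y.2 hxy
      have h' : x = y := Subtype.ext h
      subst h'
      rfl
    · exfalso
      have h : co (x : Q) = (0, (co x1).2 + 1 + (OrderDual.ofDual y).val) := hxy
      have := hA' (by have := (OrderDual.ofDual y).2; omega) x x.2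
      rw [h] at this
      simp only at this
      omega
    · exfalso
      have h : co (y : Q) = (0, (co x1).2 + 1 + (OrderDual.ofDual x).val) := hxy.symm
      have := hA' (by have := (OrderDual.ofDual x).2; omega) y y.2
      rw [h] at this
      simp only at this
      omega
    · have h : ((0 : ℕ), (co x1).2 + 1 + (OrderDual.ofDual x).val) =
        (0, (co x1).2 + 1 + (OrderDual.ofDual y).val) := hxy
      have h' : x = y := by
        apply OrderDual.ofDual.injective
        apply Fin.ext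
        have := (Prod.mk.injEq _ _ _ _ ▸ h).2
        omega
      subst h'
      rfl
  · rintro (x | x)
    · exact hge x x.2
    · exact Nat.zero_le _
  · -- order
    rintro (x | x) (y | y)
    · exact hle x y x.2 y.2
    · constructor
      · intro h
        exact h.elim
      · intro h
        exfalso
        have h' : ((0 : ℕ), (co x1).2 + 1 + (OrderDual.ofDual y).val) ≤ co (x : Q) := h
        have := hA' (by have := (OrderDual.ofDual y).2; omega) x x.2
        have h3 := h'.2
        simp only at h3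
        omega
    · have h0 : 0 < a := by have := (OrderDual.ofDual x).2; omega
      have hl := hle x1 y hx11 y.2
      constructor
      · intro h
        have h1 : x1 ≤ (y : Q) := h
        have h2 := hl.mp h1
        refine ⟨?_, ?_⟩
        · have := h2.1
          rw [(hA h0).1] at this
          exact this
        · have := h2.2
          change (co (y : Q)).2 ≤ (co x1).2 + 1 + (OrderDual.ofDual x).val
          omega
      · intro h
        change x1 ≤ (y : Q)
        rw [hl]
        refine ⟨?_, hA' h0 y y.2⟩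
        rw [(hA h0).1]
        exact h.1
    · constructor
      · intro h
        refine ⟨le_rfl, ?_⟩
        have h1 : OrderDual.ofDual y ≤ OrderDual.ofDual x := h
        have h2 : (OrderDual.ofDual y).val ≤ (OrderDual.ofDual x).val := h1
        change (co x1).2 + 1 + (OrderDual.ofDual y).val ≤ (co x1).2 + 1 + (OrderDual.ofDual x).val
        omega
      · intro h
        have h2 : (co x1).2 + 1 + (OrderDual.ofDual y).val ≤
          (co x1).2 + 1 + (OrderDual.ofDual x).val := h.2
        change OrderDual.ofDual y ≤ OrderDual.ofDual x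
        rw [Fin.le_def]
        omega
  · -- lower set of cells
    have hcells : ∀ c : ℕ × ℕ, (∃ y, ¬ t1 y ∧ co y = c) → ∃ y, co' y = c := by
      rintro c ⟨y, hy1, hy3⟩
      exact ⟨Sum.inl ⟨y, hy1⟩, hy3⟩
    rintro (x | x) c hcx hcs
    · exact hcells c (hdown x x.2 c hcx hcs)
    · have h1 : c ≤ ((0 : ℕ), (co x1).2 + 1 + (OrderDual.ofDual x).val) := hcx
      have h0 : 0 < a := by have := (OrderDual.ofDual x).2; omega
      obtain ⟨c1, c2⟩ := c
      have h2 : c1 ≤ 0 := h1.1
      have h3 : c2 ≤ (co x1).2 + 1 + (OrderDual.ofDual x).val := h1.2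
      have h4 : c1 = 0 := by omega
      subst h4
      by_cases h5 : c2 ≤ (co x1).2
      · refine hcells _ (hdown x1 hx11 _ ⟨Nat.zero_le _, h5⟩ (Nat.zero_le _))
      · refine ⟨Sum.inr (OrderDual.toDual ⟨c2 - ((co x1).2 + 1), ?_⟩), ?_⟩
        · have := (OrderDual.ofDual x).2
          omega
        · change ((0 : ℕ), (co x1).2 + 1 + (c2 - ((co x1).2 + 1))) = (0, c2)
          congr 1
          omega
  · obtain ⟨x, h1, h3⟩ := hcell
    exact ⟨Sum.inl ⟨x, h1⟩, h3⟩

end Sub

end Pool.Agent.GaussPoset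

end

/-! From `Pool.Agent.W_448b1_h24.BC` -/

section

/-! Component data of stair-like components with a smaller base cell (MP_448cb3_co, block B1). -/

namespace Pool.Agent.GaussPoset

set_option linter.unusedSectionVars false

open Polynomial Finset

universe u

variable {P : Type u} [Fintype P] [PartialOrder P] [DecidableEq P]

section Cells

variable {ι : Type*} {R : Finset P} {cp : P → ι} {k : ι} {S : ℕ × ℕ → Prop} {co : P → ℕ × ℕ}
  {i b α β : ℕ} {θ : P → ℕ} {B : P → Prop} {J1 J2 : P → Prop} {x1 x2 : P}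

/-- shifted shapes with junk below the end of the first row -/
theorem compDataJ_shifted_cellg {g : ℕ} (hgi : i ≤ 2 * g + 1) (hgr : GradedBelow P) (hcp : ∀ x y, x ≤ y → x ∉ R → cp x = cp y)
    (h1 : Junk R cp k J1 x1)
    (hx1 : x1 ∉ R ∧ cp x1 = k ∧ ¬ J1 x1)
    (H : CoordJ R cp k J1 (fun c => c.1 ≤ c.2) co)
    (hr1 : (∃ x, J1 x) → (co x1).1 = 0 ∧
      ∀ y, y ∉ R → cp y = k → ¬ J1 y → y ≠ x1 → (co y).2 < (co x1).2)
    (hB : ∀ x, x ∉ R → cp x = k → (B x ↔ ¬ J1 x ∧ co x = (g, i)))
    (hcell : ∃ x, x ∉ R ∧ cp x = k ∧ ¬ J1 x ∧ co x = (g, i))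
    (hθ : ∀ x, x ∉ R → cp x = k → ¬ J1 x →
      θ x = ((co x).1 - g) + ((co x).2 - i))
    (hθJ : ∀ x, J1 x → θ x = lev x - i) :
    CompData R cp k i ((g + 2) / 2) θ B := by
  have hsimp : (fun x => J1 x ∨ J1 x) = J1 := by funext x; simp
  refine compDataJ_cells (J1 := J1) (J2 := J1) (x1 := x1) (x2 := x1) (S := fun c => c.1 ≤ c.2)
    (co := co) (α := g) (β := i) hgr hcp h1 h1 (by rw [hsimp]; exact H) ?_ ?_ ?_ ?_ ?_ ?_ ?_
  · intro x hx hk
    rw [or_self]
    exact hB x hx hk
  · intro x hx hk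
    rw [or_self]
    exact hθ x hx hk
  · intro x
    rw [or_self]
    exact hθJ x
  · intro x hx hk hJ
    rw [or_self] at hJ
    have := H.mem x hx hk hJ
    omega
  · intro hex
    rw [hθ x1 hx1.1 hx1.2.1 hx1.2.2, H.lev x1 hx1.1 hx1.2.1 hx1.2.2, (hr1 hex).1]
    omega
  · intro hex
    rw [hθ x1 hx1.1 hx1.2.1 hx1.2.2, H.lev x1 hx1.1 hx1.2.1 hx1.2.2, (hr1 hex).1]
    omega
  · intro D hD hdec
    classical
    have hR : ∀ x : {x : P // x ∉ D}, (x : P) ∉ R := fun x h => x.2 (hD.2.1 h)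
    obtain ⟨z, hzD, hzk, hzJ, hzc⟩ := CoordJ.base_not_mem H hB hD hcell
    obtain ⟨w1, hw1, -, hh1, hrr1⟩ := junk_end (J' := J1) h1 ⟨hx1.1, hx1.2.1, hx1.2.2, hx1.2.2⟩ hD
      (f := fun x => (co x).2) (g := fun x => (co x).1)
      (fun h => ⟨(hr1 h).1, fun y hy hyk hJ _ hne => (hr1 h).2 y hy hyk hJ hne⟩)
      ⟨⟨z, hzD⟩, hzk⟩ hzJ hzJ
    refine shift_junk_dvd_cellg (Q := {x : {x : P // x ∉ D} // cp (x : P) = k})
      (fun x => J1 x.1.1) (fun x => co x.1.1) w1 hw1
      (fun x y hxy hy => h1.low _ _ hxy (hR _) hy) hh1 ?_ ?_ ?_ ?_ (fun h => ?_) ?_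
    · intro x y hx hy hxy
      exact Subtype.ext (Subtype.ext (H.inj _ _ (hR _) (hR _) x.2 y.2 hx hy hxy))
    · intro x hx
      exact H.mem _ (hR _) x.2 hx
    · intro x y hx hy
      exact H.le_iff _ _ (hR _) (hR _) x.2 y.2 hx hy
    · intro x hx c hc hS
      obtain ⟨y, hy, hyk, hyJ, hcy⟩ := H.low _ (hR x.1) x.2 hx c hc hS
      have hyD : y ∉ D := by
        intro h
        refine x.1.2 (hD.1 _ y ?_ h)
        rw [H.le_iff _ y (hR _) hy x.2 hyk hx hyJ, hcy]
        exact hc
      exact ⟨⟨⟨y, hyD⟩, hyk⟩, hyJ, hcy⟩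
    · obtain ⟨h3, h4⟩ := hrr1 h
      exact ⟨h3, fun y hy hne => h4 y hy hy hne⟩
    · exact ⟨⟨⟨z, hzD⟩, hzk⟩, hzJ, hzc⟩

end Cells

section Stair

variable {t : Tops P} {N : Finset P} {co : P → ℕ × ℕ} {i : ℕ}

open Classical in
/-- the distance function with the base cell `(g, i)` -/
noncomputable def thSg (g i : ℕ) (N : Finset P) (co : P → ℕ × ℕ) : P → ℕ := fun x =>
  if x ∈ junk (fun c => c.1 ≤ c.2) N co then lev x - i else
    ((co x).1 - g) + ((co x).2 - i)

/-- natural set of a stair-like component at window `i` -/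
theorem natTop_stair_cellg (hgr : GradedBelow P) (C : Chart (t : P) (fun c => c.1 ≤ c.2) N co)
    {g : ℕ} (hg : 1 ≤ g) (hgi : i ≤ 2 * g + 1) (hcell : ∃ x ∈ N, co x = (g, i))
    (hlow : ∀ x, x ≤ (t : P) → lev x ≤ i → x ∈ N) :
    NatTop i t ((g + 2) / 2) (natS N co) (thSg g i N co)
      (fun x => x ∈ N ∧ co x = (g, i)) where
  up := natS_up C.up
  le_t := natS_le C.le_t
  low := fun x hx hxi => mem_natS.mpr (Or.inl (hlow x hx hxi))
  data := by
    intro M HM hM θ' B' hθ hB
    obtain ⟨x0, hx0, hcx0⟩ := hcell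
    have h1 : ∃ y ∈ N, 1 ≤ (co y).1 := ⟨x0, hx0, by rw [hcx0]; simp only; omega⟩
    have hmem : ∀ x, x ∉ unnat M → topOf x = t → x ∈ natS N co := fun x h1 h2 => by
      rw [← hM]; exact HM.mem_iff.mpr ⟨h1, h2⟩
    have hmem' : ∀ x, x ∈ natS N co → x ∉ unnat M ∧ topOf x = t := fun x h => by
      rw [← hM] at h; exact HM.mem_iff.mp h
    obtain ⟨x1, J1, hx1, hr1⟩ := junk_data (S := fun c : ℕ × ℕ => c.1 ≤ c.2) (fun c hc => hc) C h1
      HM (J' := fun _ => False) (fun x => by rw [hM, mem_natS, or_false])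
      (fun _ _ _ h => h.elim) (fun _ h => h.elim) (fun h => h)
    have hnJ : ∀ x, x ∉ unnat M → topOf x = t → x ∉ junk (fun c => c.1 ≤ c.2) N co → x ∈ N := by
      intro x hx hk hJ
      rcases mem_natS.mp (hmem x hx hk) with h | h
      · exact h
      · exact absurd h hJ
    have hNM : ∀ x ∈ N, x ∉ unnat M ∧ topOf x = t := fun x hx =>
      hmem' x (mem_natS.mpr (Or.inl hx))
    have hbase : ∀ x ∈ N, co x = (g, i) → x ∉ junk (fun c => c.1 ≤ c.2) N co := by
      intro x hx hc h
      obtain ⟨w, Hw, hxw⟩ := mem_junk.mp h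
      have := (Hw.tail C hx (mem_jset.mp hxw).1).1
      rw [hc] at this
      simp only at this
      omega
    have H : CoordJ (unnat M) topOf t (fun x => x ∈ junk (fun c => c.1 ≤ c.2) N co)
        (fun c => c.1 ≤ c.2) co := by
      constructor
      · intro x y hx hy hkx hky hJx hJy h
        exact C.inj x (hnJ x hx hkx hJx) y (hnJ y hy hky hJy) h
      · intro x y hx hy hkx hky hJx hJy
        exact C.le_iff x (hnJ x hx hkx hJx) y (hnJ y hy hky hJy)
      · intro x hx hk hJx
        exact C.mem x (hnJ x hx hk hJx)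
      · intro x hx hk hJx c hc hS
        have hxN := hnJ x hx hk hJx
        obtain ⟨y, hy, hcy⟩ := C.low x hxN c hc hS
        refine ⟨y, (hNM y hy).1, (hNM y hy).2, ?_, hcy⟩
        have hxy : x ≤ y := by
          rw [C.le_iff x hxN y hy, hcy]
          exact hc
        intro h
        obtain ⟨w, Hw, hyw⟩ := mem_junk.mp h
        exact hJx (mem_junk.mpr ⟨w, Hw, (Hw.tail C hxN (hxy.trans_lt (mem_jset.mp hyw).1)).2⟩)
      · intro x hx hk hJx
        exact C.lev x (hnJ x hx hk hJx)
    refine compDataJ_shifted_cellg hgi hgr HM.cp J1 ⟨hx1.1, hx1.2.1, hx1.2.2.1⟩ H ?_ ?_ ?_ ?_ ?_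
    · intro hex
      obtain ⟨h3, h4⟩ := hr1 hex
      exact ⟨h3, fun y hy hk hJ hne => h4 y hy hk hJ (fun h => h) hne⟩
    · intro x hx hk
      rw [hB x (hmem x hx hk)]
      constructor
      · rintro ⟨h3, h4⟩
        exact ⟨hbase x h3 h4, h4⟩
      · rintro ⟨h3, h4⟩
        exact ⟨hnJ x hx hk h3, h4⟩
    · exact ⟨x0, (hNM x0 hx0).1, (hNM x0 hx0).2, hbase x0 hx0 hcx0, hcx0⟩
    · intro x hx hk hJ
      rw [hθ x (hmem x hx hk)]
      unfold thSg
      rw [if_neg hJ]
    · intro x hJ
      rw [hθ x (mem_natS.mpr (Or.inr hJ))]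
      unfold thSg
      rw [if_pos hJ]

/-- stair-like components with a smaller base cell -/
theorem StairNat.natTop_cellg {j : ℕ} {i g : ℕ} (hgr : GradedBelow P)
    (R : StairNat j i t N co) (hg : 1 ≤ g) (hgi : i ≤ 2 * g + 1) (hg2 : g ≤ 2 * (i / 2))
    (hij : i ≤ j) :
    NatTop i t ((g + 2) / 2) (natS N co) (thSg g i N co)
      (fun x => x ∈ N ∧ co x = (g, i)) := by
  refine natTop_stair_cellg hgr R.chart hg hgi ?_ (low_of_strip R.strip hij)
  obtain ⟨x, hx, hc⟩ := R.cell
  obtain ⟨y, hy, hcy⟩ := R.chart.low x hx (g, i) (by rw [hc]; exact ⟨hg2, le_rfl⟩)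
    (show g ≤ i by omega)
  exact ⟨y, hy, hcy⟩

/-- stair-like components, two rows less: the order `i / 2` -/
theorem StairNat.natTop_less {j : ℕ} {i : ℕ} (hgr : GradedBelow P)
    (R : StairNat j i t N co) (hi : 4 ≤ i) (hij : i ≤ j) :
    NatTop i t (i / 2) (natS N co) (thSg (2 * (i / 2) - 2) i N co)
      (fun x => x ∈ N ∧ co x = (2 * (i / 2) - 2, i)) := by
  have h := R.natTop_cellg hgr (g := 2 * (i / 2) - 2) (by omega) (by omega) (by omega) hij
  rwa [show (2 * (i / 2) - 2 + 2) / 2 = i / 2 by omega] at h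

end Stair

end Pool.Agent.GaussPoset

end

/-! From `Pool.Agent.W_448cl_h67.ClN` -/

section

/-!
The strip La5.
-/

namespace Pool.Agent.GaussPoset.Cl

open Wd

/-- the word -/
def wa5 : List Ltr := [OC, CO, CO, OO, CO, OC, OC]

/-- the up-sets -/
def La5us : List ℕ := [33554431, 29360127, 25165823, 20971519, 20447231, 16777215, 14680063, 14417919, 12582911, 10485759, 10223615, 8388607, 7340031, 6291455, 6029311, 5242879, 5111807, 4980735, 4849663, 4816895, 4194303, 3670015, 3145727, 2621439, 2555903, 2547711, 2097151, 1835007, 1572863, 1310719, 1048575, 917503, 786431, 655359, 622591, 524287, 458751, 450559, 393215, 327679, 319487, 311295, 303103, 301055, 300543, 300415, 262143, 196607, 188415, 131071, 98303, 65535, 57343, 49151, 40959, 38911, 38399, 38271, 32767, 24575, 16383, 12287, 8191, 6143, 5631, 5503, 4095, 2047, 1535, 1407, 1023, 511, 383, 255, 191, 127, 95, 63, 31, 15, 7, 3, 1, 0]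

/-- the covers -/
def La5cv : List ℕ := [0, 1, 2, 4, 8, 16, 16, 32, 96, 384, 256, 1536, 1024, 2048, 6144, 4096, 24576, 49152, 32768, 65536, 196608, 393216, 524288, 1572864, 3145728]

/-- the levels -/
def La5lv : List ℕ := [0, 1, 2, 3, 4, 5, 5, 6, 6, 7, 7, 8, 8, 9, 9, 9, 10, 10, 10, 11, 11, 11, 12, 12, 12]

/-- the coordinates -/
def La5sl : List ℕ := [0, 0, 0, 0, 0, 0, 1, 0, 1, 1, 2, 2, 3, 2, 3, 4, 3, 4, 5, 3, 4, 5, 3, 4, 5]

/-- the numbers of cells -/
def La5nn : List ℕ := [1, 2, 3, 4, 5, 7, 9, 11, 13, 16, 19, 22, 25]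

theorem La5_us : UsOK 25 (fun a => La5cv.getD a 0) La5us :=
  usOK_of_chk (by decide +kernel)

theorem La5_strip : StripOK 25 12 (losW 5 wa5) (hisW 5 wa5) (fun a => La5lv.getD a 0)
    (fun a => La5sl.getD a 0) (fun a => La5cv.getD a 0) (fun a => La5nn.getD a 0) :=
  stripOK_of_chk (by decide +kernel)

/-- window 5 -/
def La5L5 : List (ℕ × ℕ × ℕ) := [(300415, 11, 1), (300543, 11, 2), (301055, 11, 3), (303103, 11, 4), (311295, 11, 5), (319487, 11, 5), (327679, 11, 6), (393215, 11, 7), (450559, 11, 6), (458751, 11, 7), (524287, 11, 8), (917503, 12, 7), (1048575, 12, 8), (1572863, 12, 8), (2097151, 12, 9), (2547711, 12, 6), (2555903, 12, 7), (2621439, 12, 8), (3145727, 12, 9), (3670015, 12, 9), (4194303, 12, 10), (5111807, 13, 7), (5242879, 13, 8), (6291455, 13, 9), (7340031, 13, 9), (8388607, 13, 10), (10485759, 13, 9), (12582911, 13, 10), (14680063, 13, 10), (16777215, 13, 11), (20447231, 13, 9), (20971519, 13, 10), (25165823, 13, 11), (29360127, 13, 11), (33554431, 13,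 12)]

theorem La5_win5 : winChk 25 (2 ^ 100) 12 (fun a => La5lv.getD a 0) La5us 5 300415 La5L5 = true := by
  decide +kernel

theorem La5_b5 : baseChk 25 12 5 18 300415 (fun a => La5lv.getD a 0) (fun a => La5cv.getD a 0)
    (fun a => La5nn.getD a 0) = true := by decide +kernel

/-- window 6 -/
def La5L6 : List (ℕ × ℕ × ℕ) := [(2547711, 12, 6), (2555903, 12, 7), (2621439, 12, 8), (3145727, 12, 9), (3670015, 12, 9), (4194303, 12, 10), (7340031, 13, 9), (8388607, 13, 10), (12582911, 13, 10), (16777215, 13, 11), (20447231, 13, 9), (20971519, 13, 10), (25165823, 13, 11), (29360127, 13, 11), (33554431, 13, 12)]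

theorem La5_win6 : winChk 25 (2 ^ 100) 12 (fun a => La5lv.getD a 0) La5us 6 2547711 La5L6 = true := by
  decide +kernel

theorem La5_b6 : baseChk 25 12 6 21 2547711 (fun a => La5lv.getD a 0) (fun a => La5cv.getD a 0)
    (fun a => La5nn.getD a 0) = true := by decide +kernel

section

universe u

variable {P : Type u} [Fintype P] [PartialOrder P] [DecidableEq P]
variable {r j : ℕ} {t : Tops P} {lo hi : ℕ → ℕ} {e : ℕ → ℕ → P}

end

end Pool.Agent.GaussPoset.Cl

end

/-! From `Pool.Agent.W_448cl_h67.ClS` -/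

section

/-!
The largest thresholds of the strips, as tables.
-/

namespace Pool.Agent.GaussPoset.Cl

set_option linter.unusedSectionVars false

open Polynomial Finset Wd

universe u

/-- a table with default value `k - k0` -/
def tab : List (ℕ × ℕ × ℕ) → ℕ → ℕ → ℕ → ℕ
  | [], k0, k, _ => k - k0
  | (k', s', v) :: L, k0, k, s => if k = k' ∧ s = s' then v else tab L k0 k s

/-- the cells above -/
def E6um : List ℕ := [1, 3, 7, 15, 23, 47, 95, 255, 351, 1023, 1375, 3071, 6143, 16383, 32767, 65535]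

/-- thresholds of `E6` at the window `4` -/
def E6t4 : ℕ → ℕ → ℕ := tab [(7, 2, 1)] 7

theorem E6_th4 : thChk 16 4 12 (fun a => E6lv.getD a 0) (fun a => E6cv.getD a 0)
    (fun a => E6um.getD a 0) (fun a => E6t4 (E6lv.getD a 0) (E6sl.getD a 0)) = true := by
  decide +kernel

/-- the cells above -/
def E7um : List ℕ := [1, 3, 7, 15, 31, 47, 95, 191, 511, 703, 2047, 2751, 6143, 12287, 19135, 49151, 94207, 180223, 393215, 704511, 1572863, 4194303, 5767167, 16777215, 33554431, 67108863, 134217727]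

/-- thresholds of `E7` at the window `4` -/
def E7t4 : ℕ → ℕ → ℕ := tab [(5, 0, 1), (6, 1, 1), (7, 2, 1), (8, 2, 2), (8, 3, 1), (9, 3, 2), (10, 3, 3), (11, 3, 4)] 8

theorem E7_th4 : thChk 27 4 14 (fun a => E7lv.getD a 0) (fun a => E7cv.getD a 0)
    (fun a => E7um.getD a 0) (fun a => E7t4 (E7lv.getD a 0) (E7sl.getD a 0)) = true := by
  decide +kernel

/-- thresholds of `E7` at the window `6` -/
def E7t6 : ℕ → ℕ → ℕ := tab [(10, 3, 1), (11, 3, 2)] 10

theorem E7_th6 : thChk 27 6 18 (fun a => E7lv.getD a 0) (fun a => E7cv.getD a 0)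
    (fun a => E7um.getD a 0) (fun a => E7t6 (E7lv.getD a 0) (E7sl.getD a 0)) = true := by
  decide +kernel

/-- the cells above -/
def La5um : List ℕ := [1, 3, 7, 15, 31, 63, 95, 191, 383, 1023, 1407, 4095, 5503, 12287, 24575, 38271, 98303, 188415, 300415, 622591, 1310719, 2547711, 4816895, 10223615, 20447231]

/-- thresholds of `La5` at the window `5` -/
def La5t5 : ℕ → ℕ → ℕ := tab [(6, 0, 1), (7, 1, 1), (8, 2, 1), (9, 2, 2), (9, 3, 1), (10, 3, 2), (10, 4, 1), (11, 3, 3), (11, 4, 2), (12, 3, 4), (12, 4, 3)] 10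

theorem La5_th5 : thChk 25 5 18 (fun a => La5lv.getD a 0) (fun a => La5cv.getD a 0)
    (fun a => La5um.getD a 0) (fun a => La5t5 (La5lv.getD a 0) (La5sl.getD a 0)) = true := by
  decide +kernel

/-- thresholds of `La5` at the window `6` -/
def La5t6 : ℕ → ℕ → ℕ := tab [(9, 2, 1), (10, 3, 1), (11, 3, 2), (11, 4, 1), (12, 3, 3), (12, 4, 2)] 11

theorem La5_th6 : thChk 25 6 21 (fun a => La5lv.getD a 0) (fun a => La5cv.getD a 0)
    (fun a => La5um.getD a 0) (fun a => La5t6 (La5lv.getD a 0) (La5sl.getD a 0)) = true := by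
  decide +kernel

/-- the cells above -/
def La7um : List ℕ := [1, 3, 7, 15, 31, 63, 127, 255, 383, 767, 1535, 4095, 5631, 16383, 22015, 49151, 98303, 153087, 393215, 753663, 1201663, 2490367, 5242879, 10190847, 17978879, 36044799, 74448895, 148897791, 295403519, 554849791]

/-- thresholds of `La7` at the window `7` -/
def La7t7 : ℕ → ℕ → ℕ := tab [(8, 0, 1), (9, 1, 1), (10, 2, 1), (11, 2, 2), (11, 3, 1), (12, 3, 2), (12, 4, 1), (13, 3, 3), (13, 4, 2), (13, 5, 1), (14, 3, 4), (14, 4, 3), (14, 5, 2), (14, 6, 1)] 14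

theorem La7_th7 : thChk 30 7 29 (fun a => La7lv.getD a 0) (fun a => La7cv.getD a 0)
    (fun a => La7um.getD a 0) (fun a => La7t7 (La7lv.getD a 0) (La7sl.getD a 0)) = true := by
  decide +kernel

section

variable {P : Type u} [Fintype P] [PartialOrder P] [DecidableEq P]
variable {r j : ℕ} {t : Tops P} {lo hi : ℕ → ℕ} {e : ℕ → ℕ → P}

/-- the value of the threshold on a cell -/
lemma thC_e (C : Cp.Comp j (t : P) lo hi e) (thv : ℕ → ℕ → ℕ) {k s : ℕ} (hk : k ≤ j)
    (h1 : lo k ≤ s) (h2 : s ≤ hi k) : thC lo hi e thv (e k s) = thv k s := by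
  unfold thC
  rw [C.lev_e _ _ hk h1 h2, scoord_e C hk h1 h2]

/-- `E6` at the window `4`, largest thresholds -/
theorem natTopC_E6_4 (D : WordD j 3 w6 lo hi) (C : Cp.Comp j (t : P) lo hi e) (H : Gr P r)
    (hg : ∀ l, l < j → Win.Good P l) (hj : 7 ≤ j) (hj' : j ≤ 10) :
    NatTop 4 t 2 (lowPart j (t : P)) (thC lo hi e E6t4) (fun x => x = e 7 3) :=
  E6_strip.natTopC E6_us D C H hg hj' E6_th4 hj (by decide +kernel)
    (E6_clean D C H hg t.2 (i := 4) (by omega) (by omega) hj')

/-- `E7` at the window `4`, largest thresholds -/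
theorem natTopC_E7_4 (D : WordD j 4 w7 lo hi) (C : Cp.Comp j (t : P) lo hi e) (H : Gr P r)
    (hg : ∀ l, l < j → Win.Good P l) (hj : 8 ≤ j) (hj' : j ≤ 16) :
    NatTop 4 t 2 (lowPart j (t : P)) (thC lo hi e E7t4) (fun x => x = e 8 4) :=
  E7_strip.natTopC E7_us D C H hg hj' E7_th4 hj (by decide +kernel)
    (E7_clean D C H hg t.2 (i := 4) (by omega) (by omega) (by omega) hj')

/-- `E7` at the window `6`, largest thresholds -/
theorem natTopC_E7_6 (D : WordD j 4 w7 lo hi) (C : Cp.Comp j (t : P) lo hi e) (H : Gr P r)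
    (hg : ∀ l, l < j → Win.Good P l) (hj : 10 ≤ j) (hj' : j ≤ 16) :
    NatTop 6 t 2 (lowPart j (t : P)) (thC lo hi e E7t6) (fun x => x = e 10 4) :=
  E7_strip.natTopC E7_us D C H hg hj' E7_th6 hj (by decide +kernel)
    (E7_clean D C H hg t.2 (i := 6) (by omega) (by omega) (by omega) hj')

/-- `La5` at the window `5`, largest thresholds -/
theorem natTopC_La5_5 (D : WordD j 5 wa5 lo hi) (C : Cp.Comp j (t : P) lo hi e) (H : Gr P r)
    (hg : ∀ l, l < j → Win.Good P l) (hj : 10 ≤ j) (hj' : j ≤ 12) :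
    NatTop 5 t 2 (lowPart j (t : P)) (thC lo hi e La5t5) (fun x => x = e 10 5) :=
  La5_strip.natTopC La5_us D C H hg hj' La5_th5 hj (by decide +kernel)
    (La5_strip.cleanAt La5_us La5_win5 La5_b5 D C H hg hj' hj)

/-- `La5` at the window `6`, largest thresholds -/
theorem natTopC_La5_6 (D : WordD j 5 wa5 lo hi) (C : Cp.Comp j (t : P) lo hi e) (H : Gr P r)
    (hg : ∀ l, l < j → Win.Good P l) (hj : 11 ≤ j) (hj' : j ≤ 12) :
    NatTop 6 t 2 (lowPart j (t : P)) (thC lo hi e La5t6) (fun x => x = e 11 5) :=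
  La5_strip.natTopC La5_us D C H hg hj' La5_th6 hj (by decide +kernel)
    (La5_strip.cleanAt La5_us La5_win6 La5_b6 D C H hg hj' hj)

/-- `La7` at the window `7`, largest thresholds -/
theorem natTopC_La7_7 (D : WordD j 7 wa7 lo hi) (C : Cp.Comp j (t : P) lo hi e) (H : Gr P r)
    (hg : ∀ l, l < j → Win.Good P l) (hj : 14 ≤ j) (hj' : j ≤ 14) :
    NatTop 7 t 2 (lowPart j (t : P)) (thC lo hi e La7t7) (fun x => x = e 14 7) :=
  La7_strip.natTopC La7_us D C H hg hj' La7_th7 hj (by decide +kernel)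
    (La7_strip.cleanAt La7_us La7_win7 La7_b7 D C H hg hj' hj)

end

end Pool.Agent.GaussPoset.Cl

end

/-! From `Pool.Agent.W_448w4_h70.WA` -/

section

/-!
# The windows `3` and `4` with the same natural sets (MP_448cb3_co, S7, `j = 12, 14, 15`)
-/

namespace Pool.Agent.GaussPoset.W4

set_option linter.unusedSectionVars false

open Polynomial Finset Sm

universe u

variable {P : Type u} [Fintype P] [PartialOrder P] [DecidableEq P] {r j : ℕ}

/-- the types of the components at the windows `3` and `4` with the same natural set; light: also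
all late components; the stairs have the larger thresholds at window `4` -/
inductive TypeY (j : ℕ) (t : Tops P) (N : Finset P) (θ3 θ4 : P → ℕ) : Prop
  | light (h1 : N = onlyB t) (h2 : θ3 = fun x => lev x - 3) (h2' : θ4 = fun x => lev x - 4)
      (h5 : ∀ x, x ≤ (t : P) → lev x ≤ j → x ∈ onlyB t)
  | rect (c : ℕ) (Nc : Finset P) (co : P → ℕ × ℕ) (h0 : RectNat j 4 t c Nc co)
      (h0' : RectNat j 3 t (min c 4) Nc co) (h1 : N = natR Nc co)
      (h2 : θ3 = thR 3 (min c 4) Nc co) (h2' : θ4 = thR 4 c Nc co)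
      (pen : ∀ x z, x ≤ (t : P) → lev x = j → (Win.uc x).card = 2 → z ⋖ x →
        ¬ ∀ y, z ⋖ y → y = x)
  | stair (Nc : Finset P) (co : P → ℕ × ℕ) (h0 : StairNat j 4 t Nc co)
      (h0' : StairNat j 3 t Nc co) (h1 : N = natS Nc co)
      (h2 : θ3 = thS 3 Nc co) (h2' : θ4 = thSg 2 4 Nc co)
      (pen : ∀ x z, x ≤ (t : P) → lev x = j → (Win.uc x).card = 2 → z ⋖ x →
        (∀ y, z ⋖ y → y = x) → (co x).2 = (co x).1 + 1 ∨ (co x).2 = (co x).1 + 3)

lemma rectNat_three {t : Tops P} {c : ℕ} {Nc : Finset P} {co : P → ℕ × ℕ}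
    (R : RectNat j 4 t c Nc co) : RectNat j 3 t (min c 4) Nc co := by
  have e1 := R.b_two
  have e2 := R.b_le
  obtain ⟨x, hx, hcx⟩ := R.cell
  obtain ⟨y, hy, hcy⟩ := R.chart.low x hx (min c 4 - 1, 3)
    (by rw [hcx]; exact ⟨by simp only; omega, by simp only; omega⟩) trivial
  refine ⟨R.chart, R.max, R.strip, by omega, by omega, ⟨y, hy, hcy⟩, ?_⟩
  rcases R.rows with h | h
  · left; omega
  · rcases Nat.lt_or_ge c 4 with h' | h'
    · right
      intro x hx
      have := h x hx
      omega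
    · left; omega

lemma stairNat_three {t : Tops P} {Nc : Finset P} {co : P → ℕ × ℕ}
    (R : StairNat j 4 t Nc co) : StairNat j 3 t Nc co := by
  obtain ⟨x, hx, hcx⟩ := R.cell
  obtain ⟨y, hy, hcy⟩ := R.chart.low x hx (2 * (3 / 2), 3)
    (by rw [hcx]; exact ⟨by simp only; omega, by simp only; omega⟩)
    (by show 2 * (3 / 2) ≤ 3; omega)
  exact ⟨R.chart, R.max, R.strip, ⟨y, hy, hcy⟩⟩

section Exists

open Cp

/-- every component which is light at window `3` or has a natural shape has a type -/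
theorem exists_typeY (h : Win.GoodTo P r j) (hj : 8 ≤ j) {t : Tops P}
    {lo hi : ℕ → ℕ} {e : ℕ → ℕ → P} (C : Comp j (t : P) lo hi e)
    (hT : lo 3 = hi 3 ∨ RectShape j lo hi ∨ StairShape j lo hi ∨
      StairShape j (fun k => k - hi k) (fun k => k - lo k)) :
    ∃ N θ3 θ4, TypeY j t N θ3 θ4 ∧ TypeX j 3 t (hi 3 - lo 3 + 1) N θ3 ∧
      TopType j 3 t (hi 3 - lo 3 + 1) N θ3 := by
  have H := h.H
  have hg := h.good
  have hlo := C.lo_le 3 (by omega)
  obtain ⟨j', rfl⟩ : ∃ j', j = j' + 1 := ⟨j - 1, by omega⟩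
  by_cases hl : lo 3 = hi 3
  · have h5 : ∀ x, x ≤ (t : P) → lev x ≤ j' + 1 → x ∈ onlyB t := by
      intro x hx hxi
      rw [mem_onlyB]
      intro s hs hxs
      exact top_eq H hg hxi hs t.2 hxs hx
    rw [hl, Nat.sub_self]
    exact ⟨_, _, _, TypeY.light rfl rfl rfl h5, TypeX.light rfl rfl rfl h5,
      type_light H hg C (by omega)⟩
  · have hlt : lo 3 < hi 3 := by omega
    have hii : hi 3 ≤ 3 := C.hi_le (by omega)
    have hii4 : hi 4 ≤ 4 := C.hi_le (by omega)
    have hls : lo 4 = lo 3 ∨ lo 4 = lo 3 + 1 := C.lo_step 3 (by omega)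
    have hhs : hi 4 = hi 3 ∨ hi 4 = hi 3 + 1 := C.hi_step 3 (by omega)
    rcases hT with hT | hT | hT | hT
    · exact absurd hT hl
    · have f1 : lo 4 = 0 ∨ lo 4 = lo 3 + 1 := hT.lo 3 (by omega)
      have f2 : hi 4 = 4 ∨ hi 4 = hi 3 := hT.hi 3 (by omega)
      have f3 : lo 4 = 0 ∨ hi 4 = 4 := by
        by_contra hcon
        have e1 := shape_lo C hT.lo (l := 4) (by omega) 4 (by omega)
        have e2 := shape_hi C hT.hi (l := 4) (by omega) 4 (by omega)
        have e3 := C.lo_le (4 + 4) (by omega)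
        omega
      have hb : min (hi 4 - lo 4 + 1) 4 = hi 3 - lo 3 + 1 := by omega
      obtain ⟨N, co, h1, -⟩ := exists_rect C H hg H.gradedBelow hT (i := 4) (by omega) (by omega)
      have h3 := rectNat_three h1
      have pen : ∀ x z, x ≤ (t : P) → lev x = j' + 1 → (Win.uc x).card = 2 → z ⋖ x →
          ¬ ∀ y, z ⋖ y → y = x := fun x z hxt hlx hx2 hzx honly =>
        rectShape_no_pendant h (by omega) t.2 C hT hlx hxt hx2 hzx honly
      refine ⟨_, _, _, TypeY.rect _ N co h1 h3 rfl rfl rfl pen, ?_, ?_⟩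
      · rw [← hb]
        exact TypeX.rect N co h3 rfl rfl pen
      · rw [← hb]
        exact TopType.rect N co h3 rfl rfl (by omega)
    · have h2 : hi 3 = 3 / 2 := hT.hi 3 (by omega)
      have h0 : lo 4 = 0 := by
        by_contra hcon
        have e1 := shape_lo C hT.lo (l := 4) (by omega) 4 (by omega)
        have e2 := hT.hi (4 + 4) (by omega)
        have e3 := C.lo_le (4 + 4) (by omega)
        omega
      obtain ⟨N, co, h1, h1'⟩ := exists_stair C H hg H.gradedBelow hT (i := 4) (by omega)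
      have h3 := stairNat_three h1
      have hb : hi 3 - lo 3 + 1 = 3 / 2 + 1 := by omega
      have pen : ∀ x z, x ≤ (t : P) → lev x = j' + 1 → (Win.uc x).card = 2 → z ⋖ x →
          (∀ y, z ⋖ y → y = x) → (co x).2 = (co x).1 + 1 ∨ (co x).2 = (co x).1 + 3 := by
        intro x z hxt hlx hx2 hzx honly
        rw [h1' x (mem_lowPart.mpr ⟨hxt, by omega⟩)]
        exact stairShape_pendant h (by omega) t.2 C hT hlx hxt hx2 hzx honly
      exact ⟨_, _, _, TypeY.stair N co h1 h3 rfl rfl rfl pen,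
        TypeX.stair N co h3 rfl rfl hb (by omega) pen,
        TopType.stair N co h3 rfl rfl hb (by omega) (by omega)⟩
    · have C' := comp_swap C
      have h2 : 3 - lo 3 = 3 / 2 := hT.hi 3 (by omega)
      have h0 : 4 - hi 4 = 0 := by
        by_contra hcon
        have e1 := shape_lo C' hT.lo (l := 4) (by show 1 ≤ 4 - hi 4; omega) 4 (by omega)
        have e2 := hT.hi (4 + 4) (by omega)
        have e3 := C'.lo_le (4 + 4) (by omega)
        omega
      obtain ⟨N, co, h1, h1'⟩ := exists_stair C' H hg H.gradedBelow hT (i := 4) (by omega)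
      have h3 := stairNat_three h1
      have hb : hi 3 - lo 3 + 1 = 3 / 2 + 1 := by omega
      have pen : ∀ x z, x ≤ (t : P) → lev x = j' + 1 → (Win.uc x).card = 2 → z ⋖ x →
          (∀ y, z ⋖ y → y = x) → (co x).2 = (co x).1 + 1 ∨ (co x).2 = (co x).1 + 3 := by
        intro x z hxt hlx hx2 hzx honly
        rw [h1' x (mem_lowPart.mpr ⟨hxt, by omega⟩)]
        exact stairShape_pendant h (by omega) t.2 C' hT hlx hxt hx2 hzx honly
      exact ⟨_, _, _, TypeY.stair N co h1 h3 rfl rfl rfl pen,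
        TypeX.stair N co h3 rfl rfl hb (by omega) pen,
        TopType.stair N co h3 rfl rfl hb (by omega) (by omega)⟩

end Exists

end Pool.Agent.GaussPoset.W4

end
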