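import Mathlib
import Pool.Agent.W_448zz_h61.Ns
import Pool.Agent.W_448zz_h61.M044

/-! From `Pool.Agent.W_448f6_h94.FxA` -/

section

/-!
Truncated component data with twins (MP_448cb3_co, S8, `j = 14`, window 6).
-/

namespace Pool.Agent.GaussPoset.F6

set_option linter.unusedSectionVars false

open Polynomial Finset

universe u

variable {P : Type u} [Fintype P] [PartialOrder P] [DecidableEq P]
variable {ι : Type*}

open Dd

/-- component data with twins, order `b` below the energy `n0` only -/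
structure CompDataTL (R : Finset P) (cp : P → ι) (k : ι) (i b n0 : ℕ) (θ : P → ℕ) (B : P → Prop)
    (Tw : Finset (P × P)) : Prop where
  clean : ∀ D, Good i R B D → Broken Tw D → ∀ _ : DecidableEq ι, ∀ n < n0,
    (1 + X : ℤ[X]) ^ b ∣ Z {x : {x : P // x ∉ D} // cp (x : P) = k} i n
  lev : ∀ x, x ∉ R → cp x = k → 1 ≤ θ x → i < lev x
  base : ∀ x, x ∉ R → cp x = k → 1 ≤ θ x → ∀ y ≤ x, y ∉ R → ¬ B y
  step : ∀ x, x ∉ R → cp x = k → 1 ≤ θ x → ∀ y ≤ x, y ∉ R → ∀ x', x' ∉ R → y ⋖ x' →
    ¬ x' ≤ x → θ x ≤ θ x' + 1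
  le : ∀ x, x ∉ R → cp x = k → θ x ≤ Pool.Agent.GaussPoset.lev x - i

/-- bounded cleanness with frozen labels on `R` -/
theorem labels_of_compTL [Fintype ι] [DecidableEq ι] {i : ℕ} {R : Finset P}
    (hR : ∀ x y, x ≤ y → y ∈ R → x ∈ R) (hRlev : ∀ x ∈ R, i < lev x)
    (cp : P → ι) (hcp : ∀ x y, x ≤ y → x ∉ R → cp x = cp y) (b : ι → ℕ) (θ : P → ℕ)
    (B : P → Prop) (hBR : ∀ x ∈ R, ¬ B x) (Tw : Finset (P × P)) (n0 : ℕ)
    (H : ∀ k, CompDataTL R cp k i (b k) n0 θ B Tw)
    (htw : ∀ t ∈ Tw, TwinPair i θ n0 t.1 t.2) (hmin : ∀ t ∈ Tw, ∀ y < t.2, y ∈ R)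
    (htR : ∀ t ∈ Tw, t.1 ∉ R ∧ t.2 ∉ R)
    (g : P → ℕ) (hg0 : ∀ x, x ∉ R → g x = 0)
    (hg : ∀ y ∈ R, ∀ x, x ∉ R → y ⋖ x → g y ≤ θ x) (n : ℕ) (hn : n < n0) :
    (1 + X : ℤ[X]) ^ (∑ k, b k) ∣ ZB i R g 0 n := by
  classical
  let θ' : P → ℕ := fun x => if x ∈ R then 0 else θ x
  have hθ' : ∀ x, x ∉ R → θ' x = θ x := fun x hx => if_neg hx
  have hθ0 : ∀ x, 1 ≤ θ' x → x ∉ R := by
    intro x hx hxR
    have : θ' x = 0 := if_pos hxR
    omega
  have hlow : ∀ D ∈ {D | Good i R B D}, ∀ x y, x ≤ y → y ∈ D → x ∈ D := fun D hD => hD.1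
  have hlev : ∀ D ∈ {D | Good i R B D}, ∀ x ∈ D, i < lev x := fun D hD => hD.2.2.1
  have hRR : R ∈ {D | Good i R B D} := ⟨hR, Subset.refl R, hRlev, hBR⟩
  refine dvd_ZB_labels_lt i _ n0 {D | Good i R B D} θ' hlow hlev ?_ hRR g hg0
    (fun y hy x hx hyx => by rw [hθ' x hx]; exact hg y hy x hx hyx) n hn
  refine dvd_ZB_bounds_twins i _ n0 {D | Good i R B D} θ' Tw hlow hlev ?_ ?_ ?_ ?_ ?_ ?_
  · intro x hx
    have hxR := hθ0 x hx
    rw [hθ' x hxR] at hx
    exact (H (cp x)).lev x hxR rfl hx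
  · intro D hD hbr n hn
    rw [ZB_off hD.1 hD.2.2.1]
    have hc : ∀ x y : {x : P // x ∉ D}, x ≤ y → cp (x : P) = cp (y : P) := fun x y hxy =>
      hcp x y hxy fun h => x.2 (hD.2.1 h)
    choose f hf hf' using fun k => exists_norm {x : {x : P // x ∉ D} // cp (x : P) = k} i
    rw [Z_prod (fun x : {x : P // x ∉ D} => cp (x : P)) hc i f hf n]
    refine Lo.prod (n0 := n0) univ (fun k _ n' hn' => ?_) n hn
    rw [hf']
    exact (H k).clean D hD hbr inferInstance n' hn'
  · intro D hD x hx hθx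
    have hxR := hθ0 x hθx
    rw [hθ' x hxR] at hθx
    have hlx := (H (cp x)).lev x hxR rfl hθx
    refine ⟨?_, hD.2.1.trans subset_union_left, ?_, ?_⟩
    · intro a c hac hc
      rw [mem_union, mem_dnf] at hc ⊢
      rcases hc with hc | hc
      · exact Or.inl (hD.1 a c hac hc)
      · exact Or.inr (hac.trans hc)
    · intro a ha
      rw [mem_union, mem_dnf] at ha
      rcases ha with ha | ha
      · exact hD.2.2.1 a ha
      · rcases eq_or_lt_of_le ha with h | h
        · rw [h]; exact hlx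
        · have := lev_strictAnti h; omega
    · intro a ha
      rw [mem_union, mem_dnf] at ha
      rcases ha with ha | ha
      · exact hD.2.2.2 a ha
      · by_cases haR : a ∈ R
        · exact hBR a haR
        · exact (H (cp x)).base x hxR rfl hθx a ha haR
  · intro D hD x hx hθx y hyx hyD x' hyx' hx'x
    have hxR := hθ0 x hθx
    have hyR : y ∉ R := fun h => hyD (hD.2.1 h)
    have hx'R : x' ∉ R := fun h => hyR (hR y x' hyx'.1.le h)
    rw [hθ' x hxR] at hθx ⊢
    rw [hθ' x' hx'R]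
    exact (H (cp x)).step x hxR rfl hθx y hyx hyR x' hx'R hyx' hx'x
  · intro t ht
    have h1 := htR t ht
    have h2 := htw t ht
    refine ⟨h2.ne, h2.up, ?_, ?_, ?_, ?_, ?_⟩
    · rw [hθ' _ h1.1]; exact h2.one_le
    · rw [hθ' _ h1.1, hθ' _ h1.2]; exact h2.eq
    · rw [hθ' _ h1.1]; exact h2.le
    · rw [hθ' _ h1.1]; exact h2.costF
    · rw [hθ' _ h1.1]; exact h2.costT
  · intro t ht D hD y hy
    exact hD.2.1 (hmin t ht y hy)

/-- truncated far data from truncated component data with twins -/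
theorem farT_of_compTL [Fintype ι] [DecidableEq ι] {i : ℕ} {R : Finset P}
    (hgr : GradedBelow P) (hR : ∀ x y, x ≤ y → y ∈ R → x ∈ R) (hRlev : ∀ x ∈ R, i < lev x)
    (cp : P → ι) (hcp : ∀ x y, x ≤ y → x ∉ R → cp x = cp y) (b : ι → ℕ) (θ : P → ℕ)
    (B : P → Prop) (hBR : ∀ x ∈ R, ¬ B x) (Tw : Finset (P × P)) (n0 : ℕ)
    (H : ∀ k, CompDataTL R cp k i (b k) n0 θ B Tw)
    (htw : ∀ t ∈ Tw, TwinPair i θ n0 t.1 t.2) (hmin : ∀ t ∈ Tw, ∀ y < t.2, y ∈ R)
    (htR : ∀ t ∈ Tw, t.1 ∉ R ∧ t.2 ∉ R) : FarT P i R (∑ k, b k) (hcan R θ) n0 where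
  graded := hgr
  hlev := hRlev
  clean := by
    intro g hg0 hg n hn
    refine labels_of_compTL hR hRlev cp hcp b θ B hBR Tw n0 H htw hmin htR g hg0 ?_ n hn
    intro y hy x hx hyx
    have h1 : y ∈ bdR R := by
      classical
      exact mem_filter.mpr ⟨hy, x, hx, hyx⟩
    have h2 := hg y h1
    have h3 := hcan_le (θ := θ) hx hyx
    omega
  one_le := by
    intro z hz
    obtain ⟨x, -, -, hx⟩ := hcan_spec (θ := θ) hz
    omega
  le_lev := by
    classical
    intro z hz
    obtain ⟨x, hxR, hzx, hx⟩ := hcan_spec (θ := θ) hz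
    have h1 := hgr.lev_covBy hzx
    have h2 := (H (cp x)).le x hxR rfl
    have h3 := hRlev z (mem_filter.mp hz).1
    omega

section Tw

variable {R Y D : Finset P} {cp : P → ι} {τ : P → P} {k : ι} {i b n0 : ℕ} {θ : P → ℕ}
  {B : P → Prop}

/-- the complements are isomorphic -/
theorem dvd_Z_tw (T : TwSys R Y cp τ) (hR : ∀ x y, x ≤ y → y ∈ R → x ∈ R)
    (hD : Good i (R \ Y) B D) (hbr : Broken (pairsX Y τ) D) [DecidableEq ι] {n : ℕ}
    (h : (1 + X : ℤ[X]) ^ b ∣ Z {x : {x : P // x ∉ exc Y τ D} // cp (x : P) = k} i n) :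
    (1 + X : ℤ[X]) ^ b ∣ Z {x : {x : P // x ∉ D} // cp (x : P) = k} i n := by
  classical
  have hbr' : ∀ x ∈ Y, τ x ∈ D ∨ x ∈ D := fun x hx =>
    hbr (τ x, x) (mem_pairsX.mpr ⟨hx, rfl⟩)
  let f : {x : {x : P // x ∉ D} // cp (x : P) = k} →
      {x : {x : P // x ∉ exc Y τ D} // cp (x : P) = k} :=
    fun x => ⟨⟨repl Y τ x.1.1, T.repl_not_mem x.1.2⟩, by
      show cp (repl Y τ x.1.1) = k
      rw [T.repl_cp]; exact x.2⟩
  have hf : ∀ x y, f x ≤ f y ↔ x ≤ y := fun x y =>
    T.repl_le hR hD.1 hD.2.1 hbr' x.1.2 y.1.2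
  have hbij : Function.Bijective f := by
    constructor
    · intro x y hxy
      exact le_antisymm ((hf x y).mp hxy.le) ((hf y x).mp hxy.ge)
    · intro y
      obtain ⟨x, hx, hxy⟩ := repl_surj y.1.2
      refine ⟨⟨⟨x, hx⟩, ?_⟩, Subtype.ext (Subtype.ext hxy)⟩
      rw [← T.repl_cp x, hxy]
      exact y.2
  let e : {x : {x : P // x ∉ D} // cp (x : P) = k} ≃o
      {x : {x : P // x ∉ exc Y τ D} // cp (x : P) = k} :=
    { Equiv.ofBijective f hbij with
      map_rel_iff' := fun {x y} => hf x y }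
  rw [Z_iso e]
  exact h

/-- component data with twins -/
theorem toTwinsL (H : CompDataL R cp k i b n0 θ B) (T : TwSys R Y cp τ)
    (hR : ∀ x y, x ≤ y → y ∈ R → x ∈ R) (hRlev : ∀ x ∈ R, i < Pool.Agent.GaussPoset.lev x)
    (hBR : ∀ x ∈ R, ¬ B x) :
    CompDataTL (R \ Y) cp k i b n0 (thX Y τ θ) B (pairsX Y τ) where
  clean := by
    intro D hD hbr hdec n hn
    exact dvd_Z_tw T hR hD hbr (H.clean _ (T.good_exc hR hRlev hBR hD) hdec n hn)
  lev := by
    intro x hx hk h1
    by_cases hxY : x ∈ Y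
    · rw [thX_of hxY] at h1
      rw [← T.lev hxY]
      exact H.lev _ (T.nat x hxY) ((T.cp x hxY).trans hk) h1
    · rw [thX_not hxY] at h1
      exact H.lev x (fun h => hx (mem_sdiff.mpr ⟨h, hxY⟩)) hk h1
  base := by
    intro x hx hk h1 y hyx hy
    by_cases hyR : y ∈ R
    · exact hBR y hyR
    · have hxR : x ∉ R := fun h => hyR (hR y x hyx h)
      have hxY : x ∉ Y := fun h => hxR (T.sub h)
      rw [thX_not hxY] at h1
      exact H.base x hxR hk h1 y hyx hyR
  step := by
    intro x hx hk h1 y hyx hy x' hx' hyx' hn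
    have hyR : ∀ {w}, w ∈ R → y ≤ w → y ∈ Y := by
      intro w hw hyw
      by_contra hcon
      exact hy (mem_sdiff.mpr ⟨hR y w hyw hw, hcon⟩)
    have hxY' : x' ∉ Y := fun h => T.anti x' h y (hyR (T.sub h) hyx'.1.le) hyx'.1
    have hxR' : x' ∉ R := fun h => hx' (mem_sdiff.mpr ⟨h, hxY'⟩)
    rw [thX_not hxY']
    by_cases hxY : x ∈ Y
    · have hyY := hyR (T.sub hxY) hyx
      have hyx2 : y = x := by
        by_contra hne
        exact T.anti x hxY y hyY (lt_of_le_of_ne hyx hne)
      subst hyx2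
      rw [thX_of hxY] at h1 ⊢
      have h2 := (T.cov (y := x') hxY).mpr hyx'
      exact H.step _ (T.nat _ hxY) ((T.cp _ hxY).trans hk) h1 _ le_rfl (T.nat _ hxY) x' hxR' h2
        (not_le_of_gt h2.1)
    · have hxR : x ∉ R := fun h => hx (mem_sdiff.mpr ⟨h, hxY⟩)
      rw [thX_not hxY] at h1 ⊢
      by_cases hyY : y ∈ Y
      · have hne : y ≠ x := fun h => hxY (h ▸ hyY)
        have h2 := (T.cov (y := x') hyY).mpr hyx'
        have h3 := (T.up y hyY x).mpr (lt_of_le_of_ne hyx hne)
        exact H.step x hxR hk h1 _ h3.le (T.nat _ hyY) x' hxR' h2 hn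
      · exact H.step x hxR hk h1 y hyx (fun h => hy (mem_sdiff.mpr ⟨h, hyY⟩)) x' hxR' hyx' hn
  le := by
    intro x hx hk
    by_cases hxY : x ∈ Y
    · rw [thX_of hxY, ← T.lev hxY]
      exact H.le _ (T.nat x hxY) ((T.cp x hxY).trans hk)
    · rw [thX_not hxY]
      exact H.le x (fun h => hx (mem_sdiff.mpr ⟨h, hxY⟩)) hk

end Tw

section Assembly

variable {i n0 : ℕ} {N : Tops P → Finset P} {b : Tops P → ℕ} {θ : Tops P → P → ℕ}
  {B : Tops P → P → Prop} {Y : Finset P} {τ : P → P}

/-- assembly: truncated data of all tops and twins of natural elements -/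
theorem farT_of_topsL (hgr : GradedBelow P) (HN : NatSys N) (hRlev : ∀ x ∈ unnat N, i < lev x)
    (H : ∀ t, CompDataL (unnat N) topOf t i (b t) n0 (fun x => θ (topOf x) x)
      (fun x => x ∉ unnat N ∧ B (topOf x) x))
    (T : TwSys (unnat N) Y topOf τ)
    (htw : ∀ x ∈ Y, TwinPair i (thX Y τ (fun x => θ (topOf x) x)) n0 (τ x) x) :
    FarT P i (unnat N \ Y) (∑ t, b t)
      (hcan (unnat N \ Y) (thX Y τ (fun x => θ (topOf x) x))) n0 := by
  refine farT_of_compTL hgr (T.lower HN.lower) (fun x hx => hRlev x (mem_sdiff.mp hx).1) topOf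
    (T.cp' HN.cp) b _ (fun x => x ∉ unnat N ∧ B (topOf x) x)
    (fun x hx h => h.1 (mem_sdiff.mp hx).1) (pairsX Y τ) n0 ?_ ?_ ?_ ?_
  · intro t
    exact toTwinsL (H t) T HN.lower hRlev (fun x hx h => h.1 hx)
  · intro t ht
    rw [mem_pairsX] at ht
    have h1 := htw t.2 ht.1
    rw [← ht.2] at h1
    exact h1
  · intro t ht y hy
    rw [mem_pairsX] at ht
    rw [mem_sdiff]
    exact ⟨HN.lower y _ hy.le (T.sub ht.1), fun h => T.anti _ ht.1 y h hy⟩
  · intro t ht
    rw [mem_pairsX] at ht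
    rw [mem_sdiff, mem_sdiff, ht.2]
    exact ⟨fun h => T.nat _ ht.1 h.1, fun h => h.2 ht.1⟩

/-- the truncated data from a natural set -/
theorem compL_of_natTop {t : Tops P} {Bt : P → Prop} (H : NatTop i t (b t) (N t) (θ t) Bt)
    (HN : NatSys N) (n0 : ℕ) (hB : ∀ x ∈ N t, B t x ↔ Bt x) :
    CompDataL (unnat N) topOf t i (b t) n0 (fun x => θ (topOf x) x)
      (fun x => x ∉ unnat N ∧ B (topOf x) x) := by
  refine CompDataL.of (H.data N HN rfl _ _ ?_ ?_) n0
  · intro x hx
    simp only [HN.topOf_eq hx]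
  · intro x hx
    simp only [HN.topOf_eq hx, (HN.mem_iff.mp hx).1, not_false_eq_true, true_and]
    exact hB x hx

/-- the truncated data from local data -/
theorem compL_of_locL {t : Tops P} {Bt : P → Prop} (H : Sg.LocL i (b t) n0 (N t) (θ t) Bt)
    (HN : NatSys N) (hB : ∀ x ∈ N t, B t x ↔ Bt x) :
    CompDataL (unnat N) topOf t i (b t) n0 (fun x => θ (topOf x) x)
      (fun x => x ∉ unnat N ∧ B (topOf x) x) := by
  refine H.data HN _ _ ?_ ?_
  · intro x hx
    simp only [HN.topOf_eq hx]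
  · intro x hx
    simp only [HN.topOf_eq hx, (HN.mem_iff.mp hx).1, not_false_eq_true, true_and]
    exact hB x hx

end Assembly

end Pool.Agent.GaussPoset.F6

end

/-! From `Pool.Agent.W_448w7_h36.JaC` -/

section

/-!
The strip `La7` with elements of level 15 (pattern J): codes.
-/

namespace Pool.Agent.GaussPoset.W7

open Cl Dd Sg

/-- the up-sets -/
def Jaus : List ℕ := [17179869183, 17146314751, 16106127359, 16072572927, 15032385535, 14998831103, 13958643711, 13925089279, 12884901887, 12851347455, 12348030975, 12314476543, 11811160063, 11777605631, 11274289151, 11240734719, 10737418239, 10703863807, 10468982783, 10435428351, 10200547327, 10166992895, 9932111871, 9915334655, 9898557439, 9881780223, 9663676415, 9630121983, 9395240959, 9361686527, 9126805503, 9093251071, 8858370047, 8841592831, 8824815615, 8808038399, 8589934591, 8556380159, 7516192767, 7482638335, 7449083903, 7415529471, 7413432319, 6442450943, 6408896511, 6308233215, 6274678783, 5368709119, 5335154687,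 5301600255, 5268045823, 5265948671, 5234491391, 5200936959, 5167382527, 5163188223, 5133828095, 5131730943, 5129633791, 5127536639, 5127274495, 5127241727, 4294967295, 4261412863, 3758096383, 3724541951, 3221225471, 3187671039, 3154116607, 3120562175, 3118465023, 2684354559, 2650800127, 2617245695, 2583691263, 2581594111, 2147483647, 2113929215, 2013265919, 1979711487, 1879048191, 1845493759, 1744830463, 1736441855, 1711276031, 1702887423, 1610612735, 1577058303, 1476395007, 1442840575, 1342177279, 1325400063, 1308622847, 1291845631, 1207959551, 1199570943, 1191182335, 1182793727, 1181745151, 1174405119, 1166016511, 1157627903, 1149239295, 1148190719, 1073741823, 1040187391, 1006632959, 973078527, 970981375, 939524095, 905969663, 872415231, 868220927, 838860799, 836763647, 834666495, 832569343, 832307199, 832274431, 805306367, 771751935, 738197503, 704643071, 702545919, 671088639, 662700031, 637534207, 629145599, 603979775, 599785471, 595591167, 591396863, 590872575,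 570425343, 568328191, 566231039, 564133887, 563871743, 563838975, 562036735, 559939583, 557842431, 557318143, 555745279, 555483135, 555450367, 555220991, 554958847, 554926079, 554893311, 554860543, 554852351, 554850303, 554849791, 536870911, 503316479, 469762047, 436207615, 434110463, 402653183, 369098751, 335544319, 331350015, 301989887, 299892735, 297795583, 295698431, 295436287, 295403519, 268435455, 251658239, 234881023, 218103807, 201326591, 184549375, 167772159, 165675007, 150994943, 148897791, 134217727, 125829119, 117440511, 109051903, 108003327, 100663295, 92274687, 83886079, 75497471, 74448895, 67108863, 62914559, 58720255, 54525951, 54001663, 50331647, 46137343, 41943039, 40894463, 37748735, 37224447, 36700159, 36175871, 36044799, 33554431, 31457279, 29360127, 27262975, 27000831, 26968063, 25165823, 23068671, 20971519, 20447231, 18874367, 18612223, 18579455, 18350079, 18087935, 18055167, 18022399, 17989631, 17981439, 17979391, 17978879, 16777215, 14680063,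 12582911, 10485759, 10223615, 10190847, 8388607, 7340031, 6291455, 5242879, 4194303, 3670015, 3145727, 2621439, 2490367, 2097151, 1835007, 1802239, 1572863, 1310719, 1277951, 1245183, 1212415, 1204223, 1202175, 1201663, 1048575, 786431, 753663, 524287, 393215, 262143, 229375, 196607, 163839, 155647, 153599, 153087, 131071, 98303, 65535, 49151, 32767, 24575, 22527, 22015, 16383, 8191, 6143, 5631, 4095, 2047, 1535, 1023, 767, 511, 383, 255, 127, 63, 31, 15, 7, 3, 1, 0]

/-- the covers -/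
def Jacv : List ℕ := [0, 1, 2, 4, 8, 16, 32, 64, 64, 128, 384, 1536, 1024, 6144, 4096, 8192, 24576, 16384, 98304, 196608, 131072, 262144, 786432, 1572864, 1048576, 2097152, 6291456, 12582912, 25165824, 16777216, 67108864, 402653184, 805306368, 201326592]

/-- the levels -/
def Jalv : List ℕ := [0, 1, 2, 3, 4, 5, 6, 7, 7, 8, 8, 9, 9, 10, 10, 11, 11, 11, 12, 12, 12, 13, 13, 13, 13, 14, 14, 14, 14, 14, 15, 15, 15, 15]

/-- the cells above -/
def Jaum : List ℕ := [1, 3, 7, 15, 31, 63, 127, 255, 383, 767, 1535, 4095, 5631, 16383, 22015, 49151, 98303, 153087, 393215, 753663, 1201663, 2490367, 5242879, 10190847, 17978879, 36044799, 74448895, 148897791, 295403519, 554849791, 1148190719, 2581594111, 5127241727, 8808038399]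

/-- the thresholds -/
def Jath : List ℕ := [0, 0, 0, 0, 0, 0, 0, 0, 0, 1, 0, 1, 0, 1, 0, 2, 1, 0, 2, 1, 0, 3, 2, 1, 0, 4, 3, 2, 1, 0, 4, 2, 1, 3]

theorem Ja_us : UsOK 34 (fun a => Jacv.getD a 0) Jaus :=
  usOK_of_chk (by decide +kernel)

theorem Ja_th : thChk 34 7 29 (fun a => Jalv.getD a 0) (fun a => Jacv.getD a 0)
    (fun a => Jaum.getD a 0) (fun a => Jath.getD a 0) = true := by decide +kernel

theorem Ja_bm : bmC 34 7 29 554849791 (fun a => Jalv.getD a 0)
    (fun a => Jaum.getD a 0) = true := by decide +kernel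

end Pool.Agent.GaussPoset.W7

end

/-! From `Pool.Agent.W_448w7_h36.JaQ` -/

section

/-!
The pattern J: window 9, the up-sets which contain the last element, order two up to the energy 11.
-/

namespace Pool.Agent.GaussPoset.W7

open Cl Dd Sg

/-- the up-sets: code, `ℓ`, `M`, exponent, coefficient -/
def JaM : List (ℕ × ℕ × ℕ × ℕ × ℕ) := [(17179869183, 16, 18, 341, 0), (17146314751, 16, 17, 314, 0), (16106127359, 16, 17, 314, 0), (16072572927, 16, 16, 288, 0), (15032385535, 16, 17, 314, 0), (14998831103, 16, 16, 288, 0), (13958643711, 16, 16, 288, 0), (13925089279, 16, 15, 263, 0), (8589934591, 16, 17, 314, 0), (8556380159, 16, 16, 288, 0), (7516192767, 16, 16, 288, 0), (7482638335, 16, 15, 263, 0), (7449083903, 16, 15, 263, 0), (7415529471, 16, 14, 239, 0), (7413432319, 16, 13, 216, 0), (6442450943, 16, 16, 288, 0), (6408896511, 16, 15, 263, 0), (6308233215, 16, 15, 263, 0), (6274678783, 16, 14, 239, 0), (5368709119, 16, 15, 263, 0), (5335154687, 16, 14, 239, 0),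 (5301600255, 16, 14, 239, 0), (5268045823, 16, 13, 216, 0), (5265948671, 16, 12, 194, 0), (5234491391, 16, 14, 239, 0), (5200936959, 16, 13, 216, 0), (5167382527, 16, 13, 216, 0), (5163188223, 16, 12, 194, 0), (5133828095, 16, 12, 194, 0), (5131730943, 16, 11, 173, 0), (5129633791, 16, 11, 173, 0), (5127536639, 16, 10, 153, 0), (5127274495, 16, 9, 134, 0)]

theorem JaM_pol1 : polF1 34 (2 ^ 104) 18 Jaus 9 JaM = true := by
  decide +kernel

theorem JaM_pol2 : polF2 34 (2 ^ 104) 18 Jaus JaM = true := by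
  decide +kernel

theorem JaM_pol : polC 34 (2 ^ 104) 18 Jaus 9 JaM = true :=
  polC_of_fast JaM_pol1 JaM_pol2

theorem Ja_num9 : ∀ x ∈ JaM, numC 34 18 9 11 (fun a => Jalv.getD a 0) x = true ∧
    x.2.2.2.2 = 0 := by decide +kernel

theorem Ja_all9 : ∀ J ∈ Jaus, Nat.land 5127241727 J = 5127241727 → J = 5127241727 ∨ ∃ x ∈ JaM, x.1 = J := by
  decide +kernel

end Pool.Agent.GaussPoset.W7

end
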