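import Mathlib
import Pool.Agent.W_448zz_h61.Ns
import Pool.Agent.W_448zz_h61.M057
import Pool.Agent.W_448zz_h61.M058

/-! From `Pool.Agent.W_448w7_h36.NegA` -/

section

/-!
Window sums of coded components: a pole with a negative value; all up-sets above a base except the
base.
-/

namespace Pool.Agent.GaussPoset.W7

set_option linter.unusedSectionVars false

open Polynomial Finset Cl Dd Sg

universe u

/-- the lowest coefficient of the sum is `-c` -/
theorem poly_lowN {B i0 n K J ℓ M n3 c : ℕ} {s : Bool} {Us : List ℕ} (hJ : J ∈ Us) (hM : M ≤ K)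
    (hs : s = !decide (M % 2 = 0))
    (h1 : chkL B i0 ((List.range' 1 (K + 1)).map (stR n B Us)) s J ℓ M (n3 + pc n J) c = true)
    (h2 : chkS B c ((List.range' 1 (K + 1)).map (stR n 1 Us)) J M = true) :
    X ^ n3 ∣ (∑ m ∈ range (M + 1), (-1) ^ m * ((uR n (X : ℕ[X]) Us J m).map (Nat.castRingHom ℤ) *
      Eo ℓ M i0 1 m)) ∧
    (∑ m ∈ range (M + 1), (-1) ^ m * ((uR n (X : ℕ[X]) Us J m).map (Nat.castRingHom ℤ) *
      Eo ℓ M i0 1 m)).coeff n3 = -(c : ℤ) := by
  have h2' : (∑ m ∈ range (M + 1), uR n 1 Us J m) * 2 ^ (2 * M) + c < B := by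
    unfold chkS at h2
    rw [take_range' _ _ _ _ (by omega), sumU_eq] at h2
    have h3 := Nat.blt_eq.mp h2
    refine lt_of_le_of_lt (le_of_eq ?_) h3
    show _ = (∑ k ∈ range (M + 1), _) * 2 ^ (2 * M) + c
    congr 2
    refine Finset.sum_congr rfl fun k _ => ?_
    rw [Nat.add_comm 1 k, lk_stR _ _ hJ, one_pow, one_mul]
  have hB : 1 ≤ B := by omega
  have hdom : Dom (∑ m ∈ range (M + 1), (-1) ^ m *
      ((uR n (X : ℕ[X]) Us J m).map (Nat.castRingHom ℤ) * Eo ℓ M i0 1 m))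
      (∑ m ∈ range (M + 1), (uR n (X : ℕ[X]) Us J m * eQ ℓ M i0 1 m)) := by
    refine Dom.sum _ fun m _ => ?_
    have h3 := Dom.mul (Dom.cast (uR n (X : ℕ[X]) Us J m)) (eo_dom ℓ M i0 1 m)
    rcases Nat.even_or_odd m with hm | hm
    · rw [hm.neg_one_pow, one_mul]; exact h3
    · rw [hm.neg_one_pow, neg_one_mul]; exact h3.neg
  have hmain : X ^ n3 ∣ -(∑ m ∈ range (M + 1), (-1) ^ m *
      ((uR n (X : ℕ[X]) Us J m).map (Nat.castRingHom ℤ) * Eo ℓ M i0 1 m)) ∧
      (-(∑ m ∈ range (M + 1), (-1) ^ m *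
      ((uR n (X : ℕ[X]) Us J m).map (Nat.castRingHom ℤ) * Eo ℓ M i0 1 m))).coeff n3 = (c : ℤ) := by
    refine coeff_of_eval hdom.neg (B := B) ?_ ?_
    · rw [eval_finsetSum]
      refine lt_of_le_of_lt (le_of_eq ?_) h2'
      rw [Finset.sum_mul]
      congr 1
      refine Finset.sum_congr rfl fun m hm => ?_
      rw [mem_range] at hm
      rw [eval_mul, eQ_eval (by omega)]
      congr 1
      have := uR_map (evalRingHom 1) n (X : ℕ[X]) Us J m
      rw [coe_evalRingHom, eval_X] at this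
      exact this
    · have hBz : (B : ℤ) ^ pc n J ≠ 0 := pow_ne_zero _ (by positivity)
      have hval : (B : ℤ) ^ pc n J * (∑ m ∈ range (M + 1), (-1) ^ m *
          ((uR n (X : ℕ[X]) Us J m).map (Nat.castRingHom ℤ) * Eo ℓ M i0 1 m)).eval (B : ℤ) =
          ∑ k ∈ range (M + 1), (-1) ^ k * ((lk J (stR n B Us (1 + k)) : ℤ) *
            eo B ℓ M i0 1 (0 + k)) := by
        rw [eval_finsetSum, Finset.mul_sum]
        refine Finset.sum_congr rfl fun m _ => ?_
        have h4 := uR_map (evalRingHom (B : ℕ)) n (X : ℕ[X]) Us J m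
        rw [coe_evalRingHom, eval_X] at h4
        have h6 : ((uR n (X : ℕ[X]) Us J m).map (Nat.castRingHom ℤ)).eval (B : ℤ) =
            ((uR n B Us J m : ℕ) : ℤ) := by
          rw [← h4, eval_map]
          have h5 := Polynomial.eval₂_at_natCast (p := uR n (X : ℕ[X]) Us J m)
            (Nat.castRingHom ℤ) B
          simpa using h5
        rw [eval_mul, eval_pow, eval_neg, eval_one, eval_mul, h6, eo_eval hB, Nat.add_comm 1 m,
          lk_stR _ _ hJ, Nat.zero_add]
        push_cast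
        ring
      have hpair := altP_eq (eo B ℓ M i0 1) J (stR n B Us) (M + 1) 0 1 0 0
      rw [Nat.cast_zero, sub_zero, zero_add, ← hval] at hpair
      unfold chkL at h1
      rw [take_range' _ _ _ _ (by omega)] at h1
      set p := altP (eo B ℓ M i0 1) J 0 ((List.range' 1 (M + 1)).map (stR n B Us)) 0 0 with hp
      have key : ∀ x y : ℕ, cmpP B (n3 + pc n J) c (x, y) = true →
          (B : ℤ) ^ (n3 + pc n J + 1) ∣ (x : ℤ) - y - c * (B : ℤ) ^ (n3 + pc n J) := by
        intro x y h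
        have h3 : (y + c * B ^ (n3 + pc n J)) ≡ x [MOD B ^ (n3 + pc n J + 1)] :=
          Nat.eq_of_beq_eq_true h
        have h4 := (Nat.modEq_iff_dvd.mp h3)
        push_cast at h4
        convert h4 using 1
        ring
      have hfin : (B : ℤ) ^ (n3 + pc n J + 1) ∣ (B : ℤ) ^ pc n J *
          (-(∑ m ∈ range (M + 1), (-1) ^ m *
          ((uR n (X : ℕ[X]) Us J m).map (Nat.castRingHom ℤ) * Eo ℓ M i0 1 m))).eval (B : ℤ) -
          c * (B : ℤ) ^ (n3 + pc n J) := by
        rw [eval_neg]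
        subst hs
        rcases Nat.even_or_odd M with hM | hM
        · have h3 : M % 2 = 0 := Nat.even_iff.mp hM
          simp only [h3, decide_true, Bool.not_true] at h1
          have h4 := key p.1 p.2 h1
          rw [pow_succ, hM.neg_one_pow] at hpair
          convert h4 using 2
          linarith
        · have h3 : M % 2 = 1 := Nat.odd_iff.mp hM
          simp only [h3, one_ne_zero, decide_false, Bool.not_false] at h1
          have h4 := key p.2 p.1 h1
          rw [pow_succ, hM.neg_one_pow] at hpair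
          convert h4 using 2
          linarith
      have h5 : (B : ℤ) ^ (n3 + pc n J + 1) = (B : ℤ) ^ pc n J * (B : ℤ) ^ (n3 + 1) := by
        rw [← pow_add]
        congr 1
        omega
      have h6 : (c : ℤ) * (B : ℤ) ^ (n3 + pc n J) = (B : ℤ) ^ pc n J * (c * (B : ℤ) ^ n3) := by
        rw [pow_add]
        ring
      rw [h5, h6, ← mul_sub] at hfin
      exact (mul_dvd_mul_iff_left hBz).mp hfin
  refine ⟨(dvd_neg.mp hmain.1), ?_⟩
  have h7 := hmain.2
  rw [coeff_neg] at h7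
  linarith

/-- the check of the value `-c`, one set -/
def negC (N B K : ℕ) (Us : List ℕ) (i0 : ℕ) (x : ℕ × ℕ × ℕ × ℕ × ℕ) : Bool :=
  ((fun h => chkL B i0 h (!decide (x.2.2.1 % 2 = 0)) x.1 x.2.1 x.2.2.1
    (x.2.2.2.1 + pc N x.1) x.2.2.2.2) (hist (ws N B Us) K (stp (ws N B Us) (ini Us)))) &&
  ((fun h => chkS B x.2.2.2.2 h x.1 x.2.2.1)
    (hist (ws N 1 Us) K (stp (ws N 1 Us) (ini Us))))

/-- the fast version of the check with the other sign -/
noncomputable def chkG (B i0 : ℕ) (h : List (List (ℕ × ℕ))) (J ℓ M N c : ℕ) : Bool :=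
  (fun p : ℕ × ℕ => @Bool.rec (fun _ => Bool) (cmpP B N c p.swap) (cmpP B N c p)
    (Nat.beq (M % 2) 0)) (altF (eoF B ℓ M i0) J (M + 1) h 0 0 0)

lemma chkG_eq (B i0 : ℕ) (h : List (List (ℕ × ℕ))) (J ℓ M N c : ℕ) :
    chkG B i0 h J ℓ M N c = chkL B i0 h (!decide (M % 2 = 0)) J ℓ M N c := by
  have hee : eoF B ℓ M i0 = eo B ℓ M i0 1 := by
    funext m
    exact eoF_eq B ℓ M i0 m
  unfold chkG chkL
  rw [altF_eq, hee]
  by_cases hM : M % 2 = 0
  · have h1 : Nat.beq (M % 2) 0 = true := by rw [hM]; rfl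
    rw [h1]
    simp only [hM, decide_true, Bool.not_true]
  · have h1 : Nat.beq (M % 2) 0 = false := by
      rw [show M % 2 = 1 by omega]
      rfl
    rw [h1]
    simp only [hM, decide_false, Bool.not_false]

/-- the fast check, first part -/
noncomputable def negF1 (N B K : ℕ) (Us : List ℕ) (i0 : ℕ) (x : ℕ × ℕ × ℕ × ℕ × ℕ) : Bool :=
  (fun W => (fun h => chkG B i0 h x.1 x.2.1 x.2.2.1
    (x.2.2.2.1 + pc N x.1) x.2.2.2.2) (histF W K (stpF W (ini Us)))) (ws N B Us)

/-- the fast check, second part -/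
noncomputable def negF2 (N B K : ℕ) (Us : List ℕ) (x : ℕ × ℕ × ℕ × ℕ × ℕ) : Bool :=
  (fun W => (fun h => Nat.blt (Nat.add (sumF x.1 (x.2.2.1 + 1) h *
    2 ^ (2 * x.2.2.1)) x.2.2.2.2) B) (histF W K (stpF W (ini Us)))) (ws N 1 Us)

theorem negC_of_fast {N B K : ℕ} {Us : List ℕ} {i0 : ℕ} {x : ℕ × ℕ × ℕ × ℕ × ℕ}
    (h1 : negF1 N B K Us i0 x = true) (h2 : negF2 N B K Us x = true) :
    negC N B K Us i0 x = true := by
  unfold negC
  unfold negF1 at h1
  unfold negF2 at h2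
  simp only [histF_eq, stpF_eq, chkG_eq, sumF_eq] at h1 h2
  rw [Bool.and_eq_true]
  exact ⟨h1, h2⟩

variable {P : Type u} [Fintype P] [PartialOrder P] [DecidableEq P]
variable {n N : ℕ} {cv lv : ℕ → ℕ} {c : ℕ → P} {Us : List ℕ}

/-- the value at the energy `n0` of a coded up-set, the other sign -/
theorem cod_valN (C : Cod n cv lv c) (hU : UsOK N cv Us) (hn : n ≤ N) {B i0 K n0 : ℕ}
    {x : ℕ × ℕ × ℕ × ℕ × ℕ} (h : negC N B K Us i0 x = true)
    (hJ : x.1 ∈ Us) (hJn : x.1 < 2 ^ n) (hnum : numC N K i0 n0 lv x = true) :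
    (∀ n' < n0, (1 + X : ℤ[X]) ^ 2 ∣ Z {y : P // y ∈ toS n c x.1} i0 n') ∧
      ∃ s : ℤ[X], Z {y : P // y ∈ toS n c x.1} i0 n0 = (1 + X) * s ∧
        s.eval (-1) = sgn x.2.1 x.2.2.1 i0 * -(x.2.2.2.2 : ℤ) := by
  obtain ⟨J, ℓ, M, n3, c0⟩ := x
  simp only at hJ hJn ⊢
  unfold numC at hnum
  simp only [Bool.and_eq_true] at hnum
  obtain ⟨⟨⟨⟨g1, g2⟩, g3⟩, g4⟩, g5⟩ := hnum
  have g1 := Nat.le_of_ble_eq_true g1
  have g2 := Nat.blt_eq.mp g2
  have g3 := Nat.le_of_ble_eq_true g3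
  have g5 := of_decide_eq_true g5
  rw [List.any_eq_true] at g4
  obtain ⟨a, ha, hab⟩ := g4
  rw [Bool.and_eq_true] at hab
  unfold negC at h
  rw [Bool.and_eq_true] at h
  obtain ⟨h1, h2⟩ := h
  rw [hist_one hU] at h1 h2
  have k1 := h1
  have k2 := h2
  simp only at k1 k2 g1 g2 g3 g5 hab
  have hup := C.up hU hn hJ
  have h5 : ∀ m, U {x : P // x ∈ toS n c J} m =
      (uR N (X : ℕ[X]) Us J m).map (Nat.castRingHom ℤ) := fun m => by
    rw [U_eq_V hup, C.V_eq hU hn m J hJ hJn]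
  have hlow := poly_lowN (n := N) (ℓ := ℓ) hJ g1 rfl k1 k2
  simp only [← h5] at hlow
  have han : a < n := by
    by_contra hcon
    rw [Nat.testBit_lt_two_pow (lt_of_lt_of_le hJn (Nat.pow_le_pow_right (by norm_num)
      (by omega)))] at hab
    exact absurd hab.1 (by simp)
  have hlv : ∀ x : {x : P // x ∈ toS n c J}, GaussPoset.lev x = GaussPoset.lev (x : P) :=
    lev_subtype (p := fun x => x ∈ toS n c J) (fun x y hxy hx => hup x hx y hxy)
  have hxx : ∀ i < ℓ, ∃ x : {x : P // x ∈ toS n c J}, i ≤ GaussPoset.lev x := by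
    intro i hi
    refine ⟨⟨c a, (C.mem_iff han).mpr hab.1⟩, ?_⟩
    rw [hlv, C.lev a han]
    have := Nat.le_of_ble_eq_true hab.2
    omega
  have hcd : Fintype.card {x : P // x ∈ toS n c J} = pc N J := by
    rw [Fintype.card_coe, C.card, ← pc_stable hn hJn]
  obtain ⟨V, hV⟩ := dvd_W_one (Q := {x : P // x ∈ toS n c J}) (i := i0) (hxx i0 g2)
  have hM0 : M0 {x : P // x ∈ toS n c J} i0 =
      ∑ a ∈ (range N).filter (fun a => J.testBit a = true), min i0 (lv a) := by
    rw [filter_stable hn hJn, ← cod_sum_lev C (fun l => min i0 l)]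
    unfold M0
    rw [← Finset.sum_coe_sort (toS n c J)]
    exact Finset.sum_congr rfl fun x _ => by rw [hlv]
  have hL := lead_V hxx (by rw [hcd]; exact g3) g2 hV hlow.1 hlow.2
    (N := M0 {x : P // x ∈ toS n c J} i0 + n0) (by rw [hM0, hcd]; exact g5)
  exact Z_of_lead hV hL

/-- order two for all up-sets which contain the base `bm` and are different from `j0` -/
theorem cod_clean_ne (C : Cod n cv lv c) (hU : UsOK N cv Us) (hn : n ≤ N) {B i0 K n0 bm j0 : ℕ}
    {L : List (ℕ × ℕ × ℕ × ℕ × ℕ)} (h : polC N B K Us i0 L = true)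
    (hnum : ∀ x ∈ L, numC N K i0 n0 lv x = true ∧ x.2.2.2.2 = 0)
    (hall : ∀ J ∈ Us, Nat.land bm J = bm → J = j0 ∨ ∃ x ∈ L, x.1 = J) {I : Finset P}
    (hI : ∀ x ∈ I, ∃ a < n, c a = x) (hup : Up I) (hbn : bm < 2 ^ n)
    (hb : ∀ a < n, bm.testBit a = true → c a ∈ I) (hne : I ≠ toS n c j0) :
    ∀ n' ≤ n0, (1 + X : ℤ[X]) ^ 2 ∣ Z {x : P // x ∈ I} i0 n' := by
  obtain ⟨J, hJ, hJn, rfl⟩ := C.exists_code hU hn hI hup
  have h6 : Nat.land bm J = bm := by
    rw [land_iff hbn]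
    intro a ha h7
    exact (C.mem_iff ha).mp (hb a ha h7)
  rcases hall J hJ h6 with h7 | ⟨x, hx, h8⟩
  · exact absurd (by rw [h7]) hne
  · subst h8
    have h9 := hnum x hx
    exact cod_low C hU hn h hx hJ hJn h9.1 h9.2

end Pool.Agent.GaussPoset.W7

end

/-! From `Pool.Agent.W_448w7_h36.JaR` -/

section

/-!
The pattern J: the pole of the elements above the anchor, window 9, energy 2.
-/

namespace Pool.Agent.GaussPoset.W7

open Cl Dd Sg

theorem JaR_neg1 : negF1 34 (2 ^ 104) 18 Jaus 9 (5127241727, 16, 8, 107, 1) = true := by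
  decide +kernel

theorem JaR_neg2 : negF2 34 (2 ^ 104) 18 Jaus (5127241727, 16, 8, 107, 1) = true := by
  decide +kernel

theorem JaR_neg : negC 34 (2 ^ 104) 18 Jaus 9 (5127241727, 16, 8, 107, 1) = true :=
  negC_of_fast JaR_neg1 JaR_neg2

theorem JaR_nnum : numC 34 18 9 2 (fun a => Jalv.getD a 0) (5127241727, 16, 8, 107, 1) = true := by
  decide +kernel

theorem JaR_nmem : (5127241727 : ℕ) ∈ Jaus := by decide +kernel

theorem JaR_nsgn : sgn 16 8 9 = -1 := by
  decide +kernel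

end Pool.Agent.GaussPoset.W7

end

/-! From `Pool.Agent.W_448w7_h36.JbR` -/

section

/-!
The pattern J-prime: the pole at window 7, energy 31.
-/

namespace Pool.Agent.GaussPoset.W7

open Cl Dd Sg

theorem JbR_neg1 : negF1 34 (2 ^ 104) 18 Jbus 7 (17179869183, 16, 18, 328, 1) = true := by
  decide +kernel

theorem JbR_neg2 : negF2 34 (2 ^ 104) 18 Jbus (17179869183, 16, 18, 328, 1) = true := by
  decide +kernel

theorem JbR_neg : negC 34 (2 ^ 104) 18 Jbus 7 (17179869183, 16, 18, 328, 1) = true :=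
  negC_of_fast JbR_neg1 JbR_neg2

theorem JbR_nnum : numC 34 18 7 31 (fun a => Jblv.getD a 0) (17179869183, 16, 18, 328, 1) = true := by
  decide +kernel

theorem JbR_nmem : (17179869183 : ℕ) ∈ Jbus := by decide +kernel

theorem JbR_nsgn : sgn 16 18 7 = -1 := by
  decide +kernel

end Pool.Agent.GaussPoset.W7

end
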