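import Mathlib
import Pool.Agent.W_448zz_h61.Ns
import Pool.Agent.W_448zz_h61.M047

/-! From `Pool.Agent.W_448s7s_h5.SkL` -/

section

/-!
# The windows of S7 with a cap `K`, `7 ≤ j`: natural elements (MP_448cb3_co)
-/

namespace Pool.Agent.GaussPoset.Sm

set_option linter.unusedSectionVars false

open Polynomial Finset

universe u

variable {P : Type u} [Fintype P] [PartialOrder P] [DecidableEq P] {r j w K : ℕ}
  {N : Tops P → Finset P} {b : Tops P → ℕ} {θ : Tops P → P → ℕ}

/-- window `w ≤ 3` of S7, `7 ≤ j`, with the cap `K` -/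
structure Wk (r j w K : ℕ) (N : Tops P → Finset P) (b : Tops P → ℕ) (θ : Tops P → P → ℕ) :
    Prop where
  gt : Win.GoodTo P r j
  hj : w + 5 ≤ j
  hw1 : 1 ≤ w
  hw : w ≤ 3
  typ : ∀ t, TypeX j w t (b t) (N t) (θ t)
  top : ∀ t, TopType j w t (b t) (N t) (θ t)
  sum_b : ∑ t, b t = (lv P w).card
  hK : 2 * K < 3 * (j + 1 - w) ^ 2 + 3 * (j + 1 - w)
  rdeep : ∀ {t : P} {Nc : Finset P} {co : P → ℕ × ℕ}, Chart t (fun _ => True) Nc co →
    ∀ {x : P}, x ∈ Nc → ∀ {h : ℕ}, 2 ≤ (co x).1 → 2 ≤ (co x).2 → j + 1 ≤ lev x →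
      h + min (min (co x).1 (co x).2) w = lev x - w + 1 → K + 1 < cst w (fun _ => h) x + h
  sdeep : 2 ≤ w → ∀ {t : P} {Nc : Finset P} {co : P → ℕ × ℕ}, Chart t (fun c => c.1 ≤ c.2) Nc co →
    ∀ {x : P}, x ∈ Nc → ∀ {h : ℕ}, 2 ≤ (co x).1 → j + 1 ≤ lev x → h + 1 = lev x - w →
      K + 1 < cst w (fun _ => h) x + h

lemma Wk.natSys (W : Wk r j w K N b θ) : NatSys N :=
  (farData_of_types (jt := fun _ => j) W.gt.H.gradedBelow W.top).1

lemma Wk.low (W : Wk r j w K N b θ) {x : P} (hx : lev x ≤ j) : x ∉ unnat N := by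
  intro h
  refine mem_unnat.mp h (topOf x) ?_
  rcases W.typ (topOf x) with ⟨h1, h2, h3, h5⟩ | ⟨Nc, co, h0, h1, h2, h4⟩ |
    ⟨Nc, co, h0, h1, h2, h3, h4, h5⟩
  · rw [h1]; exact h5 x (le_topOf x) hx
  · rw [h1]; exact mem_natR.mpr (Or.inl (h0.strip (mem_lowPart.mpr ⟨le_topOf x, hx⟩)))
  · rw [h1]; exact mem_natS.mpr (Or.inl (h0.strip (mem_lowPart.mpr ⟨le_topOf x, hx⟩)))

lemma Wk.lt_lev (W : Wk r j w K N b θ) {x : P} (hx : x ∈ unnat N) : j < lev x := by
  by_contra hcon
  exact W.low (not_lt.mp hcon) hx

lemma Wk.up (W : Wk r j w K N b θ) {x y : P} (hx : x ∉ unnat N) (hxy : x ≤ y) :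
    y ∉ unnat N ∧ topOf y = topOf x := by
  have HN := W.natSys
  exact ⟨fun h => hx (HN.lower x y hxy h), (HN.cp x y hxy hx).symm⟩

/-- deep cells -/
structure Dk (j w K : ℕ) (N : Tops P → Finset P) (θ : Tops P → P → ℕ) (x : P) : Prop where
  one_le : 1 ≤ w
  th : θ (topOf x) x + 1 ≤ lev x - w
  th3 : lev x - w ≤ θ (topOf x) x + 3
  mono : ∀ y, x < y → θ (topOf y) y ≤ θ (topOf x) x + 1
  cost : j + 1 ≤ lev x → K + 1 < cst w (fun _ => θ (topOf x) x + 1) x +
    (θ (topOf x) x + 1)

/-- the threshold of a cell of a rectangle-like chart -/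
lemma rect_th7 {t : Tops P} {c : ℕ} {Nc : Finset P} {co : P → ℕ × ℕ} (R : RectNat j w t c Nc co)
    (hw : w ≤ 3) {x : P} (hx : x ∈ Nc)
    (hJ : ¬ (x ∈ junk (fun _ => True) Nc co ∨ x ∈ junk (fun _ => True) Nc (swp co)))
    (hl : w + 5 ≤ lev x) :
    thR w c Nc co x + min (min (co x).1 (co x).2) w = lev x - w := by
  have h1 := R.chart.lev x hx
  have h2 := R.b_two
  have h3 := R.b_le
  have h4 : c = w + 1 ∨ (co x).1 ≤ c - 1 := R.rows.imp id fun h => h x hx
  unfold thR
  rw [if_neg hJ]
  omega

/-- the threshold of a cell of a stair-like chart -/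
lemma stair_th7 {t : Tops P} {Nc : Finset P} {co : P → ℕ × ℕ} (R : StairNat j w t Nc co)
    (hw : w ≤ 3) (hw2 : 2 ≤ w) {x : P} (hx : x ∈ Nc)
    (hJ : x ∉ junk (fun c => c.1 ≤ c.2) Nc co) (hl : w + 5 ≤ lev x) :
    thS w Nc co x + min (co x).1 2 = lev x - w := by
  have h1 := R.chart.lev x hx
  have h2 : (co x).1 ≤ (co x).2 := R.chart.mem x hx
  unfold thS
  rw [if_neg hJ]
  omega

/-- the kinds of natural elements of level at least `j` -/
theorem Wk.cases (W : Wk r j w K N b θ) {x : P} (hx : x ∉ unnat N) (hlx : j ≤ lev x) :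
    Str w N θ x ∨ Row1 j w N θ x ∨ Dk j w K N θ x := by
  have H := W.gt.H
  have HN := W.natSys
  have hxt : x ∈ N (topOf x) := HN.mem_iff.mpr ⟨hx, rfl⟩
  have hj := W.hj
  have hw := W.hw
  have hT := W.typ (topOf x)
  generalize ht : topOf x = t at hxt hT
  rcases hT with ⟨h1, h2, h3, h5⟩ | ⟨Nc, co, h0, h1, h2, h4⟩ |
    ⟨Nc, co, h0, h1, h2, h3, h4, h5'⟩
  · left
    refine ⟨by rw [ht, h2], ?_⟩
    intro z hz h
    have h7 : z ∉ onlyB t := by
      rw [← h1]
      exact mem_unnat.mp hz t
    rw [mem_onlyB] at h7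
    push Not at h7
    obtain ⟨s, hs1, hs2, hs3⟩ := h7
    have h7 := W.lt_lev hz
    have h8 : z < s := lt_of_le_of_ne hs2 (by rintro rfl; omega)
    exact hs3 (HN.top_eq hxt hs1 ((h s).mpr h8).le)
  · have e1 := h0.b_two
    have e2 := h0.b_le
    have hxN' : x ∈ natR Nc co := by rw [← h1]; exact hxt
    by_cases hJ : x ∈ junk (fun _ => True) Nc co ∨ x ∈ junk (fun _ => True) Nc (swp co)
    · left
      refine ⟨?_, ?_⟩
      · rw [ht, h2]
        unfold thR
        rw [if_pos hJ]
      · intro z hz h
        refine mem_unnat.mp hz t ?_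
        rw [h1, mem_natR]
        rcases hJ with h' | h'
        · exact Or.inr (Or.inl (junk_twin h' h))
        · exact Or.inr (Or.inr (junk_twin h' h))
    · have hxN : x ∈ Nc := by
        rw [mem_natR] at hxN'
        rcases hxN' with h | h | h
        · exact h
        · exact absurd (Or.inl h) hJ
        · exact absurd (Or.inr h) hJ
      have hl := h0.chart.lev x hxN
      have hth := rect_th7 h0 hw hxN hJ (by omega)
      -- thresholds above `x`
      have hmono : 1 ≤ (co x).1 → 1 ≤ (co x).2 → ∀ y, x < y → θ (topOf y) y ≤ θ t x + 1 := by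
        intro g1 g2 y hxy
        have hy := h0.chart.up x hxN y hxy.le
        have hyt : topOf y = t := by
          have := (W.up hx hxy.le).2
          rw [this, ht]
        have hy1 := not_junk_above h0.chart hxN g1 hxy.le
        have hy2 := not_junk_above h0.chart.swap hxN g2 hxy.le
        have hle := (h0.chart.le_iff x hxN y hy).mp hxy.le
        have hle1 : (co y).1 ≤ (co x).1 := hle.1
        have hle2 : (co y).2 ≤ (co x).2 := hle.2
        rw [hyt, h2]
        unfold thR
        rw [if_neg (by rintro (h | h); exacts [hy1 h, hy2 h]), if_neg hJ]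
        omega
      by_cases h7 : (co x).1 = 0 ∨ (co x).2 = 0
      · left
        refine ⟨?_, ?_⟩
        · rw [ht, h2]
          omega
        · intro z hz h
          rcases h7 with h7 | h7
          · obtain ⟨u, hu, hcu⟩ := h0.chart.low x hxN (0, (co x).2 - 1)
              ⟨Nat.zero_le _, Nat.sub_le _ _⟩ trivial
            refine straight_twin H h0 h1 hxN hu ?_ ?_ ?_ hz h
            · rw [hcu]
              exact Or.inr ⟨by simp only; omega, by simp only; omega⟩
            · intro y hy hp
              rw [hcu]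
              rcases hp with hp | hp
              · omega
              · exact Prod.ext (by simp only; omega) (by simp only; omega)
            · rw [hcu]
              exact Or.inl rfl
          · obtain ⟨u, hu, hcu⟩ := h0.chart.low x hxN ((co x).1 - 1, 0)
              ⟨Nat.sub_le _ _, Nat.zero_le _⟩ trivial
            refine straight_twin H h0 h1 hxN hu ?_ ?_ ?_ hz h
            · rw [hcu]
              exact Or.inl ⟨by simp only; omega, by simp only; omega⟩
            · intro y hy hp
              rw [hcu]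
              rcases hp with hp | hp
              · exact Prod.ext (by simp only; omega) (by simp only; omega)
              · omega
            · rw [hcu]
              exact Or.inr rfl
      · by_cases h8 : (co x).1 = 1 ∨ (co x).2 = 1
        · right; left
          refine ⟨by omega, chart_inner_uc h0.chart H hxN (by omega) (by omega), ?_, ?_, ?_, ?_⟩
          · intro hlx z hz
            exact h4 x z (h0.chart.le_t x hxN) hlx
              (chart_inner_uc h0.chart H hxN (by omega) (by omega)) hz
          · rw [ht, h2]; omega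
          · intro k hk hkx
            have := rect_nab h0.chart hxN (k := k) (by omega)
            omega
          · rw [ht]
            exact hmono (by omega) (by omega)
        · right; right
          refine ⟨by omega, ?_, ?_, ?_, ?_⟩
          · rw [ht, h2]; omega
          · rw [ht, h2]; omega
          · rw [ht]
            exact hmono (by omega) (by omega)
          · intro hlj
            rw [ht, h2]
            exact W.rdeep h0.chart hxN (by omega) (by omega) hlj (by omega)
  · have hxN' : x ∈ natS Nc co := by rw [← h1]; exact hxt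
    by_cases hJ : x ∈ junk (fun c => c.1 ≤ c.2) Nc co
    · left
      refine ⟨?_, ?_⟩
      · rw [ht, h2]
        unfold thS
        rw [if_pos hJ]
      · intro z hz h
        refine mem_unnat.mp hz t ?_
        rw [h1, mem_natS]
        exact Or.inr (junk_twin hJ h)
    · have hxN : x ∈ Nc := by
        rw [mem_natS] at hxN'
        rcases hxN' with h | h
        · exact h
        · exact absurd h hJ
      have hl := h0.chart.lev x hxN
      have hm : (co x).1 ≤ (co x).2 := h0.chart.mem x hxN
      have hth := stair_th7 h0 hw h4 hxN hJ (by omega)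
      have hmono : 1 ≤ (co x).1 → ∀ y, x < y → θ (topOf y) y ≤ θ t x + 1 := by
        intro g1 y hxy
        have hy := h0.chart.up x hxN y hxy.le
        have hyt : topOf y = t := by
          have := (W.up hx hxy.le).2
          rw [this, ht]
        have hy1 := not_junk_above h0.chart hxN g1 hxy.le
        have hle := (h0.chart.le_iff x hxN y hy).mp hxy.le
        have hle1 : (co y).1 ≤ (co x).1 := hle.1
        have hle2 : (co y).2 ≤ (co x).2 := hle.2
        rw [hyt, h2]
        unfold thS
        rw [if_neg hy1, if_neg hJ]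
        omega
      rcases Nat.lt_or_ge (co x).1 1 with h7 | h7
      · left
        refine ⟨?_, ?_⟩
        · rw [ht, h2]
          omega
        · intro z hz h
          obtain ⟨u, hu, hcu⟩ := h0.chart.low x hxN (0, (co x).2 - 1)
            ⟨Nat.zero_le _, Nat.sub_le _ _⟩ (Nat.zero_le _)
          have g1 : x ⋖ u := by
            rw [chart_cov h0.chart H hxN hu, hcu]
            exact Or.inr ⟨by simp only; omega, by simp only; omega⟩
          have g2 : z ⋖ u := (cov_of_up h).mp g1
          have g3 := stair_pendant H h0 (by omega) h1 hz (x := u)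
            (by rw [h1]; exact mem_natS.mpr (Or.inl hu)) g2 (by
            intro y hy
            have hy1 : x ⋖ y := (cov_of_up h).mpr hy
            have hyN := h0.chart.up x hxN y hy1.le
            refine h0.chart.inj y hyN u hu ?_
            rw [hcu]
            rcases (chart_cov h0.chart H hxN hyN).mp hy1 with hp | hp
            · omega
            · exact Prod.ext (by simp only; omega) (by simp only; omega))
          have g4 := g3.2.2
          rw [hcu] at g4
          simp only at g4
          omega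
      · rcases Nat.lt_or_ge (co x).1 2 with h8 | h8
        · right; left
          have hd := stair_inner_uc h0.chart H hxN h7 (by omega)
          refine ⟨by omega, hd, ?_, ?_, ?_, ?_⟩
          · intro hlx z hz hon
            have := h5' x z (h0.chart.le_t x hxN) hlx hd hz hon
            omega
          · rw [ht, h2]; omega
          · intro k hk hkx
            have := stair_nab h0.chart hxN (k := k) (by omega)
            omega
          · rw [ht]
            exact hmono h7
        · right; right
          refine ⟨by omega, ?_, ?_, ?_, ?_⟩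
          · rw [ht, h2]; omega
          · rw [ht, h2]; omega
          · rw [ht]
            exact hmono h7
          · intro hlj
            rw [ht, h2]
            exact W.sdeep h4 h0.chart hxN h8 hlj (by omega)

end Pool.Agent.GaussPoset.Sm

end

/-! From `Pool.Agent.W_448s7s_h5.SkM` -/

section

/-!
# The windows of S7 with a cap: twins (MP_448cb3_co)
-/

namespace Pool.Agent.GaussPoset.Sm

set_option linter.unusedSectionVars false

open Polynomial Finset

universe u

variable {P : Type u} [Fintype P] [PartialOrder P] [DecidableEq P] {r j w K : ℕ}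
  {N : Tops P → Finset P} {b : Tops P → ℕ} {θ : Tops P → P → ℕ}

theorem Wk.twSys (W : Wk r j w K N b θ) : TwSys (unnat N) (twA N) topOf (twT N) where
  sub := fun x hx => (mem_twA.mp hx).1
  nat := fun x hx => (twT_spec (mem_twA.mp hx).2).1
  up := fun x hx => (twT_spec (mem_twA.mp hx).2).2
  inj := by
    intro x hx x' hx' h
    have h1 := mem_twA.mp hx
    have h2 := mem_twA.mp hx'
    have h3 := twT_spec h1.2
    have h4 := twT_spec h2.2
    have hlx := W.lt_lev h1.1
    by_contra hne
    have h5 : x < (topOf x : P) := lt_of_le_of_ne (le_topOf x) (by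
      intro h
      have := (topOf x).2
      rw [← h] at this
      omega)
    obtain ⟨u, hu, -⟩ := Hul.exists_cov h5
    have hu' : twT N x ⋖ u := (cov_of_up h3.2).mpr hu
    have hu'' : x' ⋖ u := by
      rw [h] at hu'
      exact (cov_of_up h4.2).mp hu'
    refine Win.dc_three W.gt.H hu hu'' hu' hne ?_ ?_
    · intro h6
      exact h3.1 (h6 ▸ h1.1)
    · intro h6
      rw [h] at h6
      exact h4.1 (h6 ▸ h2.1)
  anti := by
    intro x hx y hy h
    have h1 := mem_twA.mp hx
    have h2 := mem_twA.mp hy
    have h3 := twT_spec h2.2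
    exact (W.up h3.1 ((h3.2 x).mpr h).le).1 h1.1
  cp := by
    intro x hx
    have h1 := mem_twA.mp hx
    have h3 := twT_spec h1.2
    have hlx := W.lt_lev h1.1
    have h5 : x < (topOf x : P) := lt_of_le_of_ne (le_topOf x) (by
      intro h
      have := (topOf x).2
      rw [← h] at this
      omega)
    have h6 : twT N x ∈ N (topOf (twT N x)) := W.natSys.mem_iff.mpr ⟨h3.1, rfl⟩
    exact (Subtype.ext (W.natSys.top_eq h6 (topOf x).2 ((h3.2 _).mpr h5).le)).symm

/-- twins are not straight -/
lemma Wk.tw_cases (W : Wk r j w K N b θ) {x : P} (hx : x ∈ twA N) :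
    j < lev (twT N x) ∧ (Row1 j w N θ (twT N x) ∨ Dk j w K N θ (twT N x)) := by
  have h1 := mem_twA.mp hx
  have h3 := twT_spec h1.2
  have h4 := W.lt_lev h1.1
  have h5 := W.twSys.lev hx
  refine ⟨by omega, ?_⟩
  rcases W.cases h3.1 (by omega) with h | h
  · exact absurd h3.2 (h.tw x h1.1)
  · exact h

lemma Wk.not_tw (W : Wk r j w K N b θ) {x : P} (hx : x ∉ unnat N) : x ∉ twA N :=
  fun h => hx (mem_twA.mp h).1

lemma Wk.thA_nat (W : Wk r j w K N b θ) {x : P} (hx : x ∉ unnat N) :
    thA N θ x = θ (topOf x) x := thX_not (W.not_tw hx)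

lemma Wk.thA_tw (W : Wk r j w K N b θ) {x : P} (hx : x ∈ twA N) :
    thA N θ x = θ (topOf (twT N x)) (twT N x) := thX_of hx

theorem Wk.twn (W : Wk r j w K N b θ) {x : P} (hx : x ∈ twA N) :
    Twn w (thA N θ) (twT N x, x) := by
  have T := W.twSys
  have h1 := mem_twA.mp hx
  have h3 := twT_spec h1.2
  obtain ⟨hl, hk⟩ := W.tw_cases hx
  have hj := W.hj
  have hw := W.hw
  have e1 : thA N θ (twT N x) = θ (topOf (twT N x)) (twT N x) := W.thA_nat h3.1
  have e2 := W.thA_tw hx
  have hm : ∀ y, twT N x < y → θ (topOf y) y ≤ θ (topOf (twT N x)) (twT N x) + 1 := by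
    rcases hk with h | h
    · exact h.mono
    · exact h.mono
  have ht : θ (topOf (twT N x)) (twT N x) + 1 ≤ lev (twT N x) - w ∧
      lev (twT N x) - w ≤ θ (topOf (twT N x)) (twT N x) + 3 := by
    rcases hk with h | h
    · have := h.th
      omega
    · exact ⟨h.th, h.th3⟩
  refine ⟨?_, h3.2, ?_, ?_, ?_, ?_⟩
  · intro h
    simp only at h
    exact h3.1 (by rw [h]; exact h1.1)
  · simp only
    rw [e1]
    omega
  · simp only
    rw [e1, e2]
  · simp only
    rw [e1]
    exact ht.1
  · intro y hy
    simp only at hy ⊢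
    rw [e1, W.thA_nat (W.up h3.1 hy.le).1]
    exact hm y hy

/-- cost of the twins of cells of row `1` -/
lemma Wk.tcst_row1 (W : Wk r j w K N b θ) {x : P} (hx : x ∈ twA N)
    (hk : Row1 j w N θ (twT N x)) {a : ℕ} (ha : lev x = w + a) :
    tcst w (thA N θ) (twT N x, x) + 1 = a ^ 2 + a := by
  have h1 := mem_twA.mp hx
  have h3 := twT_spec h1.2
  have hl := W.twSys.lev hx
  have e1 : thA N θ (twT N x) = θ (topOf (twT N x)) (twT N x) := W.thA_nat h3.1
  have h4 := hk.th
  have h5 : thA N θ (twT N x) + 1 = a := by omega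
  rw [tcst_cst (W.twn hx)]
  simp only
  rw [h5, cst_eq_ful (by omega), ful_two (a := a) (by omega)
    fun k hk1 hk2 => hk.nab k hk1.le hk2]
  omega

/-- cost of the twins of deep cells -/
lemma Wk.tcst_deep (W : Wk r j w K N b θ) {x : P} (hx : x ∈ twA N)
    (hk : Dk j w K N θ (twT N x)) : K < tcst w (thA N θ) (twT N x, x) := by
  have h1 := mem_twA.mp hx
  have h3 := twT_spec h1.2
  have hl := (W.tw_cases hx).1
  have e1 : thA N θ (twT N x) = θ (topOf (twT N x)) (twT N x) := W.thA_nat h3.1
  rw [tcst_cst (W.twn hx)]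
  have h4 := hk.cost (by omega)
  simp only
  rw [e1]
  omega

theorem Wk.farX (W : Wk r j w K N b θ) (n0 : ℕ)
    (hcost : ∀ x ∈ twA N, n0 ≤ tcst w (thA N θ) (twT N x, x)) :
    FarX P w (rA N) (lv P w).card (hA N θ) (thA N θ) (pairsX (twA N) (twT N)) n0 := by
  choose B hB using fun t => (W.top t).natTop W.gt.H.gradedBelow
  have h := farX_of_tops W.gt.H.gradedBelow hB W.twSys n0 (fun x hx => W.twn hx) hcost
  rw [W.sum_b] at h
  exact h

end Pool.Agent.GaussPoset.Sm

end

/-! From `Pool.Agent.W_448s7s_h5.SkN` -/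

section

/-!
# The windows of S7 with a cap: deep covers, flat elements (MP_448cb3_co)
-/

namespace Pool.Agent.GaussPoset.Sm

set_option linter.unusedSectionVars false

open Polynomial Finset

universe u

variable {P : Type u} [Fintype P] [PartialOrder P] [DecidableEq P] {r j w K : ℕ}
  {N : Tops P → Finset P} {b : Tops P → ℕ} {θ : Tops P → P → ℕ}

lemma Wk.bs (W : Wk r j w K N b θ) {x : P} (hx : x ∉ rA N) : Bs N θ x (bs N x) := by
  classical
  unfold GaussPoset.bs
  rcases not_mem_rA.mp hx with h | h
  · rw [if_neg (W.not_tw h)]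
    exact ⟨h, rfl, W.thA_nat h, fun k => Or.inl rfl, fun v => Iff.rfl⟩
  · rw [if_pos h]
    have h1 := W.twSys.up x h
    refine ⟨W.twSys.nat x h, W.twSys.lev h, W.thA_tw h, fun k => ?_, h1⟩
    rcases Nat.lt_or_ge k (Pool.Agent.GaussPoset.lev x) with h2 | h2
    · exact Or.inl (nab_congr_up h1 h2)
    · exact Or.inr h2

lemma Wk.hA_le (W : Wk r j w K N b θ) {z x : P} (hx : x ∉ rA N) (hzx : z ⋖ x) :
    hA N θ z ≤ θ (topOf (GaussPoset.bs N x)) (GaussPoset.bs N x) + 1 := by
  rw [← (W.bs hx).th]
  exact hcan_le hx hzx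

lemma Wk.hA_spec (W : Wk r j w K N b θ) {z : P} (hz : z ∈ bdR (rA N)) :
    ∃ x, x ∉ rA N ∧ z ⋖ x ∧
      hA N θ z = θ (topOf (GaussPoset.bs N x)) (GaussPoset.bs N x) + 1 := by
  obtain ⟨x, h1, h2, h3⟩ := hcan_spec (θ := thA N θ) hz
  refine ⟨x, h1, h2, ?_⟩
  rw [← (W.bs h1).th]
  exact h3

lemma Wk.bd_lev (W : Wk r j w K N b θ) {z : P} (hz : z ∈ bdR (rA N)) : j < lev z :=
  W.lt_lev (mem_rA.mp (mem_bdR.mp hz).1).1

/-- a boundary element with a deep cover of level greater than `j` is expensive -/
theorem Wk.deep_cover (W : Wk r j w K N b θ) {z : P} (hz : z ∈ bdR (rA N)) {x : P}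
    (hx : x ∉ rA N) (hzx : z ⋖ x) (hlx : j + 1 ≤ lev x) (hD : Dk j w K N θ (GaussPoset.bs N x)) :
    K + 1 < cst w (hA N θ) z := by
  have H := W.gt.H.gradedBelow
  -- a deep cover which defines the label
  obtain ⟨x1, h1, h2, h3, h4⟩ : ∃ x1, x1 ∉ rA N ∧ z ⋖ x1 ∧ Dk j w K N θ (GaussPoset.bs N x1) ∧
      hA N θ z = θ (topOf (GaussPoset.bs N x1)) (GaussPoset.bs N x1) + 1 := by
    by_cases he : hA N θ z = θ (topOf (GaussPoset.bs N x)) (GaussPoset.bs N x) + 1
    · exact ⟨x, hx, hzx, hD, he⟩
    · obtain ⟨x0, g1, g2, g3⟩ := W.hA_spec hz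
      refine ⟨x0, g1, g2, ?_, g3⟩
      have g4 := W.hA_le hx hzx
      have g5 := hD.th
      have g6 := W.bs hx
      have g7 := W.bs g1
      have e1 := H.lev_covBy hzx
      have e2 := H.lev_covBy g2
      have e3 := g6.lev
      have e4 := g7.lev
      rcases W.cases g7.nat (by omega) with h | h | h
      · have := h.th
        omega
      · have := h.th
        omega
      · exact h
  have g7 := W.bs h1
  have e1 := H.lev_covBy hzx
  have e2 := H.lev_covBy h2
  have e4 := g7.lev
  have h5 := h3.cost (by omega)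
  have h6 := cst_ge_cover (i := w) (h := hA N θ) H h2
  rw [h4] at h6
  rw [← cst_const_congr g7.lev g7.nab] at h6
  have h7 := h3.th
  rw [Nat.min_eq_left (by omega)] at h6
  omega

/-- a cheapest boundary element without deep covers is flat -/
theorem Wk.flat (W : Wk r j w K N b θ) {v : ℕ} (M : Mn j w N θ v) {z : P} (hz : z ∈ bdR (rA N))
    (hc : cst w (hA N θ) z = v)
    (hnd : ∀ x, x ∉ rA N → z ⋖ x → ¬ Dk j w K N θ (GaussPoset.bs N x)) :
    Flat j w N θ z ∧ lev z ≤ hA N θ z + 1 + w := by
  have H := W.gt.H.gradedBelow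
  have hj := W.hj
  have hw := W.hw
  have hlz := W.bd_lev hz
  have hkd : ∀ x, x ∉ rA N → z ⋖ x → Str w N θ (GaussPoset.bs N x) ∨
      Row1 j w N θ (GaussPoset.bs N x) := by
    intro x hx hzx
    have g6 := W.bs hx
    have e1 := H.lev_covBy hzx
    have e3 := g6.lev
    rcases W.cases g6.nat (by omega) with h | h | h
    · exact Or.inl h
    · exact Or.inr h
    · exact absurd h (hnd x hx hzx)
  have hge : lev z ≤ hA N θ z + 1 + w := by
    obtain ⟨x0, g1, g2, g3⟩ := W.hA_spec hz
    have g7 := W.bs g1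
    have e2 := H.lev_covBy g2
    have e4 := g7.lev
    rcases hkd x0 g1 g2 with h | h
    · have := h.th
      omega
    · have := h.th
      omega
  refine ⟨?_, hge⟩
  intro x hzx
  have hxR : x ∉ rA N := by
    refine no_cover_of_min H (fun x hx => ?_) M.bd (fun z hz => ?_) hz hc (by omega) hzx
    · have := W.lt_lev (mem_rA.mp hx).1
      omega
    · obtain ⟨x0, g1, g2, g3⟩ := W.hA_spec hz
      omega
  have hxt : x ∉ twA N := by
    intro hxt
    have e1 := H.lev_covBy hzx
    obtain ⟨g1, g2⟩ := W.tw_cases hxt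
    have hbs : GaussPoset.bs N x = twT N x := by
      unfold GaussPoset.bs
      rw [if_pos hxt]
    have g6 := W.bs hxR
    rw [hbs] at g6
    have hR : Row1 j w N θ (twT N x) := by
      rcases g2 with h | h
      · exact h
      · exact absurd (hbs ▸ h) (hnd x hxR hzx)
    obtain ⟨a, ha⟩ : ∃ a, lev x = w + a := ⟨lev x - w, by have := g6.lev; omega⟩
    have g7 := W.tcst_row1 hxt hR ha
    have g8 := M.tw x hxt
    have g9 := cst_step (i := w) (h := hA N θ) H hzx (by omega)
    have g10 : ful w x = a ^ 2 := ful_two ha (fun k hk1 hk2 => by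
      have := hR.nab k hk1.le (by rw [g6.lev]; exact hk2)
      rcases g6.nab k with h | h
      · rw [← h]; exact this
      · omega)
    rw [g10, hc] at g9
    have : a ≤ min (hA N θ z) (lev z - w) := by
      rw [Nat.le_min]
      omega
    omega
  rcases not_mem_rA.mp hxR with h | h
  · have hbs : GaussPoset.bs N x = x := by
      unfold GaussPoset.bs
      rw [if_neg hxt]
    have := hkd x hxR hzx
    rw [hbs] at this
    exact ⟨h, this⟩
  · exact absurd h hxt

end Pool.Agent.GaussPoset.Sm

end

/-! From `Pool.Agent.W_448s7s_h5.SkO` -/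

section

/-!
# The windows of S7 with a cap: neighbours (MP_448cb3_co)
-/

namespace Pool.Agent.GaussPoset.Sm

set_option linter.unusedSectionVars false

open Polynomial Finset

universe u

variable {P : Type u} [Fintype P] [PartialOrder P] [DecidableEq P] {r j w K : ℕ}
  {N : Tops P → Finset P} {b : Tops P → ℕ} {θ : Tops P → P → ℕ}

/-- an element of the far set is not below two neighbours with a common cover -/
theorem Wk.no_adj (W : Wk r j w K N b θ) {z x x' p : P} (hz : z ∈ rA N) (hx : x ∉ unnat N)
    (hx' : x' ∉ unnat N) (hzx : z ⋖ x) (hzx' : z ⋖ x') (hne : x ≠ x') (hp : x ⋖ p)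
    (hp' : x' ⋖ p) : False := by
  have H := W.gt.H
  have HN := W.natSys
  have hzu := (mem_rA.mp hz).1
  have hzt : ∀ y, y ∉ unnat N → ¬ ∀ v, y < v ↔ z < v := fun y hy h =>
    (mem_rA.mp hz).2 (mem_twA.mpr ⟨hzu, y, hy, h⟩)
  have t1 := (W.up hx hp.1.le).2
  have t2 := (W.up hx' hp'.1.le).2
  have huni := uc_two_of H hzx hzx' hne
  have hxt : x ∈ N (topOf x) := HN.mem_iff.mpr ⟨hx, rfl⟩
  have hxt' : x' ∈ N (topOf x) := HN.mem_iff.mpr ⟨hx', by rw [← t2, t1]⟩
  have hzN := mem_unnat.mp hzu (topOf x)
  have hnat : ∀ y ∈ N (topOf x), y ∉ unnat N := fun y hy => (HN.mem_iff.mp hy).1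
  generalize topOf x = t at hxt hxt' hzN hnat
  rcases W.typ t with ⟨h1, h2, h3, h5⟩ | ⟨Nc, co, h0, h1, h2, h4⟩ |
    ⟨Nc, co, h0, h1, h2, h3, h4, h5'⟩
  · apply hzN
    rw [h1] at hxt hxt' ⊢
    rw [mem_onlyB] at hxt hxt' ⊢
    intro s hs hzs
    have hzs' : z < s := lt_of_le_of_ne hzs (by
      intro h
      have := lev_strictAnti hzx.1
      rw [h] at this
      omega)
    obtain ⟨v, hv, hvs⟩ := Hul.exists_cov hzs'
    rcases huni v hv with h | h
    · exact hxt s hs (h ▸ hvs)
    · exact hxt' s hs (h ▸ hvs)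
  · rw [h1] at hxt hxt' hzN
    rw [mem_natR] at hxt hxt'
    have hzN1 : z ∉ Nc := fun h => hzN (mem_natR.mpr (Or.inl h))
    have hzN2 : z ∉ junk (fun _ => True) Nc co := fun h => hzN (mem_natR.mpr (Or.inr (Or.inl h)))
    have hzN3 : z ∉ junk (fun _ => True) Nc (swp co) :=
      fun h => hzN (mem_natR.mpr (Or.inr (Or.inr h)))
    have g1 := h0.one1
    have g2 := h0.one2
    -- both in one orientation
    have fin1 : (x ∈ Nc ∨ x ∈ junk (fun _ => True) Nc co) →
        (x' ∈ Nc ∨ x' ∈ junk (fun _ => True) Nc co) → False := by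
      intro e1 e2
      rcases adj_core rowT_true (fun _ _ _ => trivial) h0.chart h0.max H g1 hzN1 e1 e2 hzx hzx' hne
        hp hp' with ⟨y, hy, h⟩ | h
      · exact hzt y (hnat y (by rw [h1]; exact mem_natR.mpr (Or.inl hy))) h
      · exact hzN2 h
    have fin2 : (x ∈ Nc ∨ x ∈ junk (fun _ => True) Nc (swp co)) →
        (x' ∈ Nc ∨ x' ∈ junk (fun _ => True) Nc (swp co)) → False := by
      intro e1 e2
      rcases adj_core rowT_true (fun _ _ _ => trivial) h0.chart.swap h0.max.swap H g2 hzN1 e1 e2
        hzx hzx' hne hp hp' with ⟨y, hy, h⟩ | h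
      · exact hzt y (hnat y (by rw [h1]; exact mem_natR.mpr (Or.inl hy))) h
      · exact hzN3 h
    -- no common cover across
    have across : ∀ (a c : P), a ∈ junk (fun _ => True) Nc co →
        c ∈ junk (fun _ => True) Nc (swp co) → a ⋖ p → c ⋖ p → False := by
      intro a c ha hc hap hcp
      obtain ⟨x1, H1, hj⟩ := mem_junk.mp ha
      obtain ⟨x2, H2, hj2⟩ := mem_junk.mp hc
      have h2 : p ≤ x1 := by
        rcases (mem_jset.mp hj).2 p hap.1.le with h3 | h3
        · exact h3
        · rcases eq_or_lt_of_le h3 with h4 | h4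
          · rw [h4]
          · exact absurd h4 (hap.2 (mem_jset.mp hj).1)
      exact junk_cross h0.chart g1 g2 H1 H2 hj2 (hcp.1.trans_le h2)
    rcases hxt with e | e | e
    · rcases hxt' with e' | e' | e'
      · exact fin1 (Or.inl e) (Or.inl e')
      · exact fin1 (Or.inl e) (Or.inr e')
      · exact fin2 (Or.inl e) (Or.inr e')
    · rcases hxt' with e' | e' | e'
      · exact fin1 (Or.inr e) (Or.inl e')
      · exact fin1 (Or.inr e) (Or.inr e')
      · exact across x x' e e' hp hp'
    · rcases hxt' with e' | e' | e'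
      · exact fin2 (Or.inr e) (Or.inl e')
      · exact across x' x e' e hp' hp
      · exact fin2 (Or.inr e) (Or.inr e')
  · rw [h1] at hxt hxt' hzN
    rw [mem_natS] at hxt hxt'
    have hzN1 : z ∉ Nc := fun h => hzN (mem_natS.mpr (Or.inl h))
    have hzN2 : z ∉ junk (fun c => c.1 ≤ c.2) Nc co := fun h => hzN (mem_natS.mpr (Or.inr h))
    rcases adj_core rowT_shift (fun s c h => by simpa using h) h0.chart h0.max H (h0.one1 h4) hzN1
      hxt hxt' hzx hzx' hne hp hp' with ⟨y, hy, h⟩ | h
    · exact hzt y (hnat y (by rw [h1]; exact mem_natS.mpr (Or.inl hy))) h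
    · exact hzN2 h

end Pool.Agent.GaussPoset.Sm

end

/-! From `Pool.Agent.W_448s7s_h5.SkP` -/

section

/-!
# The windows of S7 with a cap: elements below a cell of row `1` (MP_448cb3_co)
-/

namespace Pool.Agent.GaussPoset.Sm

set_option linter.unusedSectionVars false

open Polynomial Finset

universe u

variable {P : Type u} [Fintype P] [PartialOrder P] [DecidableEq P] {r j w K : ℕ}
  {N : Tops P → Finset P} {b : Tops P → ℕ} {θ : Tops P → P → ℕ}

/-- straight elements of a rectangle-like component are on a side -/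
lemma rect_str7 {t : Tops P} {c : ℕ} {Nc : Finset P} {co : P → ℕ × ℕ} (R : RectNat j w t c Nc co)
    (hw : w ≤ 3) {x : P} (hx : x ∈ natR Nc co) (hl : w + 5 ≤ lev x)
    (hth : thR w c Nc co x = lev x - w) :
    Side (fun _ => True) Nc co x ∨ Side (fun _ => True) Nc (swp co) x := by
  have e1 := R.b_two
  have e2 := R.b_le
  by_cases hJ : x ∈ junk (fun _ => True) Nc co ∨ x ∈ junk (fun _ => True) Nc (swp co)
  · rcases hJ with h | h
    · exact Or.inl (Or.inl h)
    · exact Or.inr (Or.inl h)
  · have hxN : x ∈ Nc := by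
      rw [mem_natR] at hx
      rcases hx with h | h | h
      · exact h
      · exact absurd (Or.inl h) hJ
      · exact absurd (Or.inr h) hJ
    have h1 := rect_th7 R hw hxN hJ hl
    have h2 : (co x).1 = 0 ∨ (co x).2 = 0 := by omega
    rcases h2 with h | h
    · exact Or.inl (Or.inr ⟨hxN, h⟩)
    · exact Or.inr (Or.inr ⟨hxN, h⟩)

/-- row 1 of a rectangle-like component -/
lemma rect_row17 {t : Tops P} {c : ℕ} {Nc : Finset P} {co : P → ℕ × ℕ} (R : RectNat j w t c Nc co)
    (hw : w ≤ 3) {x : P} (hx : x ∈ natR Nc co) (hl : w + 5 ≤ lev x)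
    (hth : thR w c Nc co x + 1 = lev x - w) (hn : nab 3 x = 2) :
    x ∈ Nc ∧ 1 ≤ (co x).1 ∧ 1 ≤ (co x).2 ∧ ((co x).1 = 1 ∨ (co x).2 = 1) := by
  have e1 := R.b_two
  have e2 := R.b_le
  have hJ : ¬ (x ∈ junk (fun _ => True) Nc co ∨ x ∈ junk (fun _ => True) Nc (swp co)) := by
    intro h
    unfold thR at hth
    rw [if_pos h] at hth
    omega
  have hxN : x ∈ Nc := by
    rw [mem_natR] at hx
    rcases hx with h | h | h
    · exact h
    · exact absurd (Or.inl h) hJ
    · exact absurd (Or.inr h) hJ
  have h1 := rect_th7 R hw hxN hJ hl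
  have h3 := rect_nab R.chart hxN (k := 3) (by omega)
  have h4 := R.chart.lev x hxN
  refine ⟨hxN, by omega, by omega, by omega⟩

/-- straight elements of a stair-like component -/
lemma stair_str7 {t : Tops P} {Nc : Finset P} {co : P → ℕ × ℕ} (R : StairNat j w t Nc co)
    (hw : w ≤ 3) (hw2 : 2 ≤ w) {x : P} (hx : x ∈ natS Nc co) (hl : w + 5 ≤ lev x)
    (hth : thS w Nc co x = lev x - w) : Side (fun c => c.1 ≤ c.2) Nc co x := by
  by_cases hJ : x ∈ junk (fun c => c.1 ≤ c.2) Nc co
  · exact Or.inl hJ
  · have hxN : x ∈ Nc := by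
      rw [mem_natS] at hx
      exact hx.resolve_right hJ
    have h1 := stair_th7 R hw hw2 hxN hJ hl
    exact Or.inr ⟨hxN, by omega⟩

/-- row 1 of a stair-like component -/
lemma stair_row17 {t : Tops P} {Nc : Finset P} {co : P → ℕ × ℕ} (R : StairNat j w t Nc co)
    (hw : w ≤ 3) (hw2 : 2 ≤ w) {x : P} (hx : x ∈ natS Nc co) (hl : w + 5 ≤ lev x)
    (hth : thS w Nc co x + 1 = lev x - w) : x ∈ Nc ∧ (co x).1 = 1 := by
  have hJ : x ∉ junk (fun c => c.1 ≤ c.2) Nc co := by
    intro h
    unfold thS at hth
    rw [if_pos h] at hth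
    omega
  have hxN : x ∈ Nc := by
    rw [mem_natS] at hx
    exact hx.resolve_right hJ
  have h1 := stair_th7 R hw hw2 hxN hJ hl
  exact ⟨hxN, by omega⟩

/-- two covers of the level `j` of an element of the far set have one cover each -/
lemma Wk.near (W : Wk r j w K N b θ) {z x x' : P} (hz : z ∈ rA N) (hl : lev z = j + 1)
    (hzx : z ⋖ x) (hzx' : z ⋖ x') (hne : x ≠ x') :
    (Win.uc x).card = 1 ∧ (Win.uc x').card = 1 := by
  have hj := W.hj
  have H := W.gt.H
  obtain ⟨i, rfl⟩ : ∃ i, j = i + 1 := ⟨j - 1, by omega⟩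
  rcases (Win.near_level' W.gt (by omega)).1 z x x' hl hzx hzx' hne with h | h
  · exfalso
    obtain ⟨p, hp, hp'⟩ := Win.StA_of_ucv (v := x) (v' := x') (by omega)
    have e1 := (H.covBy_iff.mp hzx).2
    have e2 := (H.covBy_iff.mp hzx').2
    exact W.no_adj hz (W.low (by omega)) (W.low (by omega)) hzx hzx' hne hp hp'
  · exact ⟨h.1, h.2.1⟩

/-- three elements on the levels above -/
theorem Wk.row1_three (W : Wk r j w K N b θ) {z x x' : P} (hz : z ∈ rA N) (hx : x ∉ unnat N)
    (hx' : x' ∉ unnat N) (hzx : z ⋖ x) (hzx' : z ⋖ x') (hne : x ≠ x') (hR : Row1 j w N θ x)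
    (hK : Str w N θ x' ∨ Row1 j w N θ x') {k : ℕ} (hk2 : 2 ≤ k) (hwk : w ≤ k) (hkx : k < lev x) :
    3 ≤ nab k z := by
  have H := W.gt.H
  have HN := W.natSys
  have hj := W.hj
  have hw := W.hw
  have hlz := W.lt_lev (mem_rA.mp hz).1
  have e1 := (H.covBy_iff.mp hzx).2
  have e2 := (H.covBy_iff.mp hzx').2
  have hxt : x ∈ N (topOf x) := HN.mem_iff.mpr ⟨hx, rfl⟩
  have hxt' : x' ∈ N (topOf x') := HN.mem_iff.mpr ⟨hx', rfl⟩
  have hR3 : nab 3 x = 2 := hR.nab 3 hw (by omega)
  have hRt := hR.th
  by_cases htt : topOf x' = topOf x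
  · have hno : ∀ p, x ⋖ p → ¬ x' ⋖ p := fun p hp hp' => W.no_adj hz hx hx' hzx hzx' hne hp hp'
    rw [htt] at hxt'
    have hth' : θ (topOf x) x' = lev x' - w ∨
        (θ (topOf x) x' + 1 = lev x' - w ∧ nab 3 x' = 2) := by
      rcases hK with h | h
      · left
        rw [← htt]
        exact h.th
      · right
        rw [← htt]
        exact ⟨h.th, h.nab 3 hw (by omega)⟩
    generalize topOf x = t at hxt hxt' hRt hth'
    rcases W.typ t with ⟨h1, h2, h3, h5⟩ | ⟨Nc, co, h0, h1, h2, h4⟩ |
      ⟨Nc, co, h0, h1, h2, h3, h4, h5'⟩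
    · exfalso
      rw [h2] at hRt
      simp only at hRt
      omega
    · rw [h1] at hxt hxt'
      rw [h2] at hRt hth'
      obtain ⟨f1, f2, f3, f4⟩ := rect_row17 h0 hw hxt (by omega) hRt hR3
      have hxs' : (Side (fun _ => True) Nc co x' ∨ Side (fun _ => True) Nc (swp co) x') ∨
          (x' ∈ Nc ∧ ((co x').1 = 1 ∨ (co x').2 = 1)) := by
        rcases hth' with h | ⟨h, h'⟩
        · exact Or.inl (rect_str7 h0 hw hxt' (by omega) h)
        · obtain ⟨a1, a2, a3, a4⟩ := rect_row17 h0 hw hxt' (by omega) h h'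
          exact Or.inr ⟨a1, a4⟩
      rcases f4 with f4 | f4
      · refine other_side H h0.chart h0.one2 f1 hzx.1.le f4 f3 (by omega) hzx'.1.le hne ?_ hno hk2
          hkx
        rcases hxs' with (h | h) | h
        · exact Or.inl h
        · exact Or.inr (Or.inl h)
        · exact Or.inr (Or.inr h)
      · refine other_side H h0.chart.swap h0.one1 f1 hzx.1.le f4 f2 (by omega) hzx'.1.le hne ?_
          hno hk2 hkx
        rcases hxs' with (h | h) | h
        · exact Or.inr (Or.inl h)
        · exact Or.inl h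
        · exact Or.inr (Or.inr ⟨h.1, h.2.symm⟩)
    · exfalso
      rw [h1] at hxt hxt'
      rw [h2] at hRt hth'
      obtain ⟨f1, f2⟩ := stair_row17 h0 hw h4 hxt (by omega) hRt
      rcases hth' with h | ⟨h, h'⟩
      · have h6 := stair_str7 h0 hw h4 hxt' (by omega) h
        obtain ⟨a1, a2⟩ := h6.cell h0.chart f1 f2 (by omega)
        obtain ⟨p, hp, hcp⟩ := h0.chart.low x f1 (0, (co x).2) ⟨Nat.zero_le _, le_rfl⟩
          (Nat.zero_le _)
        refine hno p ?_ ?_
        · rw [chart_cov h0.chart H f1 hp, hcp]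
          exact Or.inl ⟨by simp only; omega, rfl⟩
        · rw [chart_cov h0.chart H a1 hp, hcp, a2]
          exact Or.inr ⟨rfl, rfl⟩
      · obtain ⟨a1, a2⟩ := stair_row17 h0 hw h4 hxt' (by omega) h
        have l1 := h0.chart.lev x f1
        have l2 := h0.chart.lev x' a1
        exact hne (h0.chart.inj x f1 x' a1 (Prod.ext (by omega) (by omega)))
  · have h3 := nab_join HN H.gradedBelow hxt hzx.1.le (topOf x').2 (fun h => htt (Subtype.ext h))
      (hzx'.1.le.trans (le_topOf x')) (l := k) (by omega)
    have := hR.nab k hwk hkx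
    omega

end Pool.Agent.GaussPoset.Sm

end

/-! From `Pool.Agent.W_448pg_h74.WtA` -/

section

/-!
# The windows `2`, `3`: elements below a fold cell (MP_448cb3_co, S7)
-/

namespace Pool.Agent.GaussPoset.Sm

set_option linter.unusedSectionVars false

open Finset Wd

universe u

variable {P : Type u} [Fintype P] [PartialOrder P] [DecidableEq P] {r j w K0 K y : ℕ}
  {N : Tops P → Finset P} {b : Tops P → ℕ} {θ : Tops P → P → ℕ} {LE LO : List ℤ}

/-- cells whose label is the full one are in row `1` -/
theorem Wk.dk_row1 (W : Wk r j w K0 N b θ) (hw2 : 2 ≤ w) {x : P} (hx : x ∉ unnat N)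
    (hlx : j ≤ lev x) (hD : Dk j w K0 N θ x) :
    Row1 j w N θ x ∨ θ (topOf x) x + 1 < lev x - w := by
  have H := W.gt.H
  have HN := W.natSys
  have hxt : x ∈ N (topOf x) := HN.mem_iff.mpr ⟨hx, rfl⟩
  have hj := W.hj
  have hw := W.hw
  have hT := W.typ (topOf x)
  have hDt := hD.th
  generalize ht : topOf x = t at hxt hT hDt
  rcases hT with ⟨h1, h2, h3, h5⟩ | ⟨Nc, co, h0, h1, h2, h4⟩ |
    ⟨Nc, co, h0, h1, h2, h3, h4, h5'⟩
  · rw [h2] at hDt
    simp only at hDt
    omega
  · have e1 := h0.b_two
    have e2 := h0.b_le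
    have hxN' : x ∈ natR Nc co := by rw [← h1]; exact hxt
    by_cases hJ : x ∈ junk (fun _ => True) Nc co ∨ x ∈ junk (fun _ => True) Nc (swp co)
    · rw [h2] at hDt
      unfold thR at hDt
      rw [if_pos hJ] at hDt
      omega
    · have hxN : x ∈ Nc := by
        rw [mem_natR] at hxN'
        rcases hxN' with h | h | h
        · exact h
        · exact absurd (Or.inl h) hJ
        · exact absurd (Or.inr h) hJ
      have hl := h0.chart.lev x hxN
      have hth := rect_th7 h0 hw hxN hJ (by omega)
      by_cases h7 : (co x).1 = 0 ∨ (co x).2 = 0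
      · rw [h2] at hDt
        omega
      · by_cases h8 : (co x).1 = 1 ∨ (co x).2 = 1
        · left
          refine ⟨by omega, chart_inner_uc h0.chart H hxN (by omega) (by omega), ?_, ?_, ?_, ?_⟩
          · intro hlx' z hz
            exact h4 x z (h0.chart.le_t x hxN) hlx'
              (chart_inner_uc h0.chart H hxN (by omega) (by omega)) hz
          · rw [ht, h2]; omega
          · intro k hk hkx
            have := rect_nab h0.chart hxN (k := k) (by omega)
            omega
          · exact hD.mono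
        · right
          rw [h2]; omega
  · have hxN' : x ∈ natS Nc co := by rw [← h1]; exact hxt
    by_cases hJ : x ∈ junk (fun c => c.1 ≤ c.2) Nc co
    · rw [h2] at hDt
      unfold thS at hDt
      rw [if_pos hJ] at hDt
      omega
    · have hxN : x ∈ Nc := by
        rw [mem_natS] at hxN'
        rcases hxN' with h | h
        · exact h
        · exact absurd h hJ
      have hl := h0.chart.lev x hxN
      have hm : (co x).1 ≤ (co x).2 := h0.chart.mem x hxN
      have hth := stair_th7 h0 hw h4 hxN hJ (by omega)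
      rcases Nat.lt_or_ge (co x).1 1 with h7 | h7
      · rw [h2] at hDt
        omega
      · rcases Nat.lt_or_ge (co x).1 2 with h8 | h8
        · left
          have hd := stair_inner_uc h0.chart H hxN h7 (by omega)
          refine ⟨by omega, hd, ?_, ?_, ?_, ?_⟩
          · intro hlx' z hz hon
            have := h5' x z (h0.chart.le_t x hxN) hlx' hd hz hon
            omega
          · rw [ht, h2]; omega
          · intro k hk hkx
            have := stair_nab h0.chart hxN (k := k) (by omega)
            omega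
          · exact hD.mono
        · right
          rw [h2]; omega

/-- the surplus of an element below a fold cell and another element -/
def fdC (w j h : ℕ) : ℕ :=
  ∑ n ∈ range (j + 1 - w), min h n * (if (j + 1) / 2 < w + n then 1 else 0)

/-- elements of the level `k` above `z` but not above the fold cell -/
lemma Wk.fold_extra (W : Wk r j w K0 N b θ) {x z y : P} {Nc : Finset P} {co : P → ℕ × ℕ}
    (hx : x ∉ unnat N) (h0 : StairNat j w (topOf x) Nc co) (h1 : N (topOf x) = natS Nc co)
    (hxN : x ∈ Nc) (hlx : lev x = j + 1) (hd : (co x).1 = (co x).2)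
    (hzx : z ⋖ x) (hzy : z ⋖ y) (hnt : ¬ ∀ v, x < v ↔ y < v) {k : ℕ}
    (hk1 : (j + 1) / 2 < k) (hk2 : k ≤ j) : ∃ q, z ≤ q ∧ lev q = k ∧ ¬ x ≤ q := by
  have H := W.gt.H
  have HN := W.natSys
  have hl := h0.chart.lev x hxN
  have hly : lev y = j + 1 := by
    have e1 := (H.covBy_iff.mp hzx).2
    have e2 := (H.covBy_iff.mp hzy).2
    omega
  -- a cover of `y` which is not above `x`
  obtain ⟨v, hyv, hxv⟩ : ∃ v, y ⋖ v ∧ ¬ x ≤ v := by
    by_contra hcon
    push Not at hcon
    apply hnt
    intro v
    have hcov : ∀ u, x ⋖ u → co u = ((co x).1 - 1, (co x).2) := by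
      intro u hu
      have huN := h0.chart.up x hxN u hu.1.le
      have hmu : (co u).1 ≤ (co u).2 := h0.chart.mem u huN
      have := (chart_cov h0.chart H hxN huN).mp hu
      unfold Prd at this
      exact Prod.ext (by simp only; omega) (by simp only; omega)
    constructor
    · intro hv
      obtain ⟨u, hu, huv⟩ := Hul.exists_cov hv
      obtain ⟨t, ht, hyt⟩ := exists_above' (x := y) (j := j) (by omega)
      have hyt' : y < t := lt_of_le_of_ne ht (by rintro rfl; omega)
      obtain ⟨s, hs, hst⟩ := Hul.exists_cov hyt'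
      have hxs := hcon s hs
      have hls := (H.covBy_iff.mp hs).2
      have hxs' : x ⋖ s := H.covBy_iff.mpr ⟨lt_of_le_of_ne hxs (by rintro rfl; omega), by omega⟩
      have : s = u := h0.chart.inj s (h0.chart.up x hxN s hxs) u
        (h0.chart.up x hxN u hu.1.le) (by rw [hcov s hxs', hcov u hu])
      rw [this] at hs
      exact lt_of_lt_of_le hs.1 huv
    · intro hv
      obtain ⟨u, hu, huv⟩ := Hul.exists_cov hv
      have hxu := hcon u hu
      have hlu := (H.covBy_iff.mp hu).2
      exact lt_of_le_of_ne (hxu.trans huv) (by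
        rintro rfl
        rcases huv.lt_or_eq with h | h
        · have := lev_strictAnti h
          omega
        · rw [h] at hlu
          omega)
  have hlv : lev v = j := by
    have := (H.covBy_iff.mp hyv).2
    omega
  have hzv : z ≤ v := hzy.1.le.trans hyv.1.le
  have hvu : v ∉ unnat N := W.low (by omega)
  by_cases hT : topOf v = topOf x
  · have hvN : v ∈ Nc := h0.strip (mem_lowPart.mpr ⟨by rw [← hT]; exact le_topOf v, by omega⟩)
    have hlv' := h0.chart.lev v hvN
    have hmv : (co v).1 ≤ (co v).2 := h0.chart.mem v hvN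
    have hnle : ¬ co v ≤ co x := fun h => hxv ((h0.chart.le_iff x hxN v hvN).mpr h)
    rw [Prod.le_def] at hnle
    have hb : (co x).2 < (co v).2 := by
      by_contra hcon
      exact hnle ⟨by omega, by omega⟩
    obtain ⟨q, hq, hcq⟩ := h0.chart.low v hvN (k - min (co v).2 k, min (co v).2 k)
      ⟨by simp only; omega, by simp only; omega⟩
      (show k - min (co v).2 k ≤ min (co v).2 k by omega)
    have hlq := h0.chart.lev q hq
    have hq1 : (co q).1 = k - min (co v).2 k := by rw [hcq]
    have hq2 : (co q).2 = min (co v).2 k := by rw [hcq]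
    refine ⟨q, hzv.trans ?_, by omega, ?_⟩
    · rw [h0.chart.le_iff v hvN q hq, Prod.le_def]
      exact ⟨by omega, by omega⟩
    · rw [h0.chart.le_iff x hxN q hq, Prod.le_def]
      rintro ⟨-, h⟩
      omega
  · obtain ⟨q, hq, hlq⟩ := exists_above' (x := v) (j := k) (by omega)
    refine ⟨q, hzv.trans hq, hlq, fun hxq => hT ?_⟩
    rw [← (W.up hvu hq).2, (W.up hx hxq).2]

/-- **the cost below a fold cell and a second cover which is not its twin** -/
theorem Wk.fold_two (W : Wk r j w K0 N b θ) {x z y : P} {Nc : Finset P} {co : P → ℕ × ℕ}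
    (hx : x ∉ unnat N) (h0 : StairNat j w (topOf x) Nc co) (h1 : N (topOf x) = natS Nc co)
    (hxN : x ∈ Nc) (hlx : lev x = j + 1) (hd : (co x).1 = (co x).2)
    (hzx : z ⋖ x) (hzy : z ⋖ y) (hne : y ≠ x) (hnt : ¬ ∀ v, x < v ↔ y < v) {h : ℕ}
    (hh : h ≤ j + 1 - w) :
    cst w (fun _ => h) x + h + h + fdC w j h ≤ cst w (fun _ => h) z := by
  classical
  have H := W.gt.H
  have hj := W.hj
  have e1 := (H.covBy_iff.mp hzx).2
  have e2 := (H.covBy_iff.mp hzy).2
  rw [cst_shift (i := w) (h := fun _ => h) (x := x) (a := j + 1 - w) (by omega),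
    cst_shift (i := w) (h := fun _ => h) (x := z) (a := j + 1 - w + 1) (by omega),
    Finset.sum_range_succ, Finset.sum_range_succ _ (j + 1 - w + 1),
    Finset.sum_range_succ _ (j + 1 - w)]
  have h2 : 2 ≤ nab (w + (j + 1 - w)) z := by
    unfold nab
    have : ({x, y} : Finset P) ⊆ (lv P (w + (j + 1 - w))).filter (fun u => z ≤ u) := by
      intro u hu
      rw [mem_insert, mem_singleton] at hu
      rw [mem_filter, mem_lv]
      rcases hu with rfl | rfl
      · exact ⟨by omega, hzx.1.le⟩
      · exact ⟨by omega, hzy.1.le⟩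
    have h3 := Finset.card_le_card this
    rw [Finset.card_pair hne.symm] at h3
    convert h3
  have h3 : nab (w + (j + 1 - w)) x = 1 := by
    rw [show w + (j + 1 - w) = lev x by omega]; exact nab_self
  have h4 : nab (w + (j + 1 - w + 1)) z = 1 := by
    rw [show w + (j + 1 - w + 1) = lev z by omega]; exact nab_self
  have h5 : ∑ n ∈ range (j + 1 - w), min h n * nab (w + n) x + fdC w j h ≤
      ∑ n ∈ range (j + 1 - w), min h n * nab (w + n) z := by
    unfold fdC
    rw [← Finset.sum_add_distrib]
    refine Finset.sum_le_sum fun n hn => ?_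
    rw [mem_range] at hn
    rw [← Nat.mul_add]
    refine Nat.mul_le_mul_left _ ?_
    split_ifs with hif
    · obtain ⟨q, hq1, hq2, hq3⟩ := W.fold_extra hx h0 h1 hxN hlx hd hzx hzy hnt hif (by omega)
      unfold nab
      have : insert q ((lv P (w + n)).filter (fun u => x ≤ u)) ⊆
          (lv P (w + n)).filter (fun u => z ≤ u) := by
        intro u hu
        rw [mem_insert, mem_filter, mem_lv] at hu
        rw [mem_filter, mem_lv]
        rcases hu with rfl | hu
        · exact ⟨hq2, hq1⟩
        · exact ⟨hu.1, hzx.1.le.trans hu.2⟩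
      have h6 := Finset.card_le_card this
      rw [Finset.card_insert_of_notMem (by rw [mem_filter]; exact fun h => hq3 h.2)] at h6
      convert h6
    · exact nab_mono hzx.1.le
  rw [h3, h4, Nat.min_eq_left hh, Nat.min_eq_left (by omega : h ≤ j + 1 - w + 1)]
  have h7 : h * 2 ≤ h * nab (w + (j + 1 - w)) z := Nat.mul_le_mul_left _ h2
  omega

end Pool.Agent.GaussPoset.Sm

end

/-! From `Pool.Agent.W_448jx_h67.WeA` -/

section

/-!
The windows `2`, `3` at `j = 10` with the component of the end `(5, 25, 0)`: natural elements and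
twins (MP_448cb3_co, HJoin10)
-/

namespace Pool.Agent.GaussPoset.Sm

set_option linter.unusedSectionVars false

open Polynomial Finset

universe u

variable {P : Type u} [Fintype P] [PartialOrder P] [DecidableEq P] {r j w K : ℕ}
  {N : Tops P → Finset P} {b : Tops P → ℕ} {θ : Tops P → P → ℕ}

/-- the component of the end `(5, 25, 0)` at the window `3` -/
structure E6T (j w : ℕ) (t : Tops P) (b : ℕ) (N : Finset P) (θ : P → ℕ) : Prop where
  j10 : j = 10
  w3 : w = 3
  hb : b = 2
  hN : N = lowPart j (t : P)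
  hθ : θ = fun x => lev x - 6
  one : ∀ x ≤ (t : P), ∀ y ≤ (t : P), lev x = j → lev y = j → x = y
  pat : ∀ x ≤ (t : P), lev x = j → ∀ k, k ≤ j → nab k x = if 3 ≤ k ∧ k ≤ 7 then 2 else 1

/-- the element of level `j` of the component of the end `(5, 25, 0)` -/
lemma E6T.spec {t : Tops P} {c : ℕ} {M : Finset P} {ϑ : P → ℕ} (E : E6T j w t c M ϑ) {x : P}
    (hx : x ∈ M) (hl : j ≤ lev x) : lev x = j ∧ ϑ x = 4 ∧ j = 10 ∧ w = 3 ∧ c = 2 := by
  have h1 := E.j10
  have h2 := E.w3
  have h3 := E.hb
  rw [E.hN, mem_lowPart] at hx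
  rw [E.hθ]
  simp only
  omega

/-- window `w ≤ 3` of S7, `7 ≤ j`, with the cap `K`, with the component of the end `(5, 25, 0)` -/
structure We (r j w K : ℕ) (N : Tops P → Finset P) (b : Tops P → ℕ) (θ : Tops P → P → ℕ) :
    Prop where
  gt : Win.GoodTo P r j
  hj : w + 5 ≤ j
  hw1 : 1 ≤ w
  hw : w ≤ 3
  typ : ∀ t, TypeX j w t (b t) (N t) (θ t) ∨ E6T j w t (b t) (N t) (θ t)
  nt : ∀ t, ∃ B, NatTop w t (b t) (N t) (θ t) B
  sum_b : ∑ t, b t = (lv P w).card
  hK : 2 * K < 3 * (j + 1 - w) ^ 2 + 3 * (j + 1 - w)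
  rdeep : ∀ {t : P} {Nc : Finset P} {co : P → ℕ × ℕ}, Chart t (fun _ => True) Nc co →
    ∀ {x : P}, x ∈ Nc → ∀ {h : ℕ}, 2 ≤ (co x).1 → 2 ≤ (co x).2 → j + 1 ≤ lev x →
      h + min (min (co x).1 (co x).2) w = lev x - w + 1 → K + 1 < cst w (fun _ => h) x + h
  sdeep : 2 ≤ w → ∀ {t : P} {Nc : Finset P} {co : P → ℕ × ℕ}, Chart t (fun c => c.1 ≤ c.2) Nc co →
    ∀ {x : P}, x ∈ Nc → ∀ {h : ℕ}, 2 ≤ (co x).1 → j + 1 ≤ lev x → h + 1 = lev x - w →
      K + 1 < cst w (fun _ => h) x + h

lemma We.natSys (W : We r j w K N b θ) : NatSys N := by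
  choose B hB using W.nt
  exact natSys_of_tops hB

lemma We.low (W : We r j w K N b θ) {x : P} (hx : lev x ≤ j) : x ∉ unnat N := by
  intro h
  refine mem_unnat.mp h (topOf x) ?_
  rcases W.typ (topOf x) with hTX | hE
  swap
  · rw [hE.hN]
    exact mem_lowPart.mpr ⟨le_topOf x, hx⟩
  rcases hTX with ⟨h1, h2, h3, h5⟩ | ⟨Nc, co, h0, h1, h2, h4⟩ |
    ⟨Nc, co, h0, h1, h2, h3, h4, h5⟩
  · rw [h1]; exact h5 x (le_topOf x) hx
  · rw [h1]; exact mem_natR.mpr (Or.inl (h0.strip (mem_lowPart.mpr ⟨le_topOf x, hx⟩)))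
  · rw [h1]; exact mem_natS.mpr (Or.inl (h0.strip (mem_lowPart.mpr ⟨le_topOf x, hx⟩)))

lemma We.lt_lev (W : We r j w K N b θ) {x : P} (hx : x ∈ unnat N) : j < lev x := by
  by_contra hcon
  exact W.low (not_lt.mp hcon) hx

lemma We.up (W : We r j w K N b θ) {x y : P} (hx : x ∉ unnat N) (hxy : x ≤ y) :
    y ∉ unnat N ∧ topOf y = topOf x := by
  have HN := W.natSys
  exact ⟨fun h => hx (HN.lower x y hxy h), (HN.cp x y hxy hx).symm⟩

/-- the kinds of natural elements of level at least `j` -/
theorem We.cases (W : We r j w K N b θ) {x : P} (hx : x ∉ unnat N) (hlx : j ≤ lev x) :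
    Str w N θ x ∨ Row1 j w N θ x ∨ Dk j w K N θ x := by
  have H := W.gt.H
  have HN := W.natSys
  have hxt : x ∈ N (topOf x) := HN.mem_iff.mpr ⟨hx, rfl⟩
  have hj := W.hj
  have hw := W.hw
  have hT := W.typ (topOf x)
  generalize ht : topOf x = t at hxt hT
  rcases hT with hT | hE
  swap
  · obtain ⟨k1, k2, k3, k4, -⟩ := hE.spec hxt hlx
    right; right
    refine ⟨by omega, ?_, ?_, ?_, ?_⟩
    · rw [ht]; omega
    · rw [ht]; omega
    · intro y hy
      have hyt : topOf y = t := by rw [(W.up hx hy.le).2, ht]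
      have := lev_strictAnti hy
      rw [hyt, ht]
      rw [hE.hθ]
      simp only
      omega
    · intro; omega
  rcases hT with ⟨h1, h2, h3, h5⟩ | ⟨Nc, co, h0, h1, h2, h4⟩ |
    ⟨Nc, co, h0, h1, h2, h3, h4, h5'⟩
  · left
    refine ⟨by rw [ht, h2], ?_⟩
    intro z hz h
    have h7 : z ∉ onlyB t := by
      rw [← h1]
      exact mem_unnat.mp hz t
    rw [mem_onlyB] at h7
    push Not at h7
    obtain ⟨s, hs1, hs2, hs3⟩ := h7
    have h7 := W.lt_lev hz
    have h8 : z < s := lt_of_le_of_ne hs2 (by rintro rfl; omega)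
    exact hs3 (HN.top_eq hxt hs1 ((h s).mpr h8).le)
  · have e1 := h0.b_two
    have e2 := h0.b_le
    have hxN' : x ∈ natR Nc co := by rw [← h1]; exact hxt
    by_cases hJ : x ∈ junk (fun _ => True) Nc co ∨ x ∈ junk (fun _ => True) Nc (swp co)
    · left
      refine ⟨?_, ?_⟩
      · rw [ht, h2]
        unfold thR
        rw [if_pos hJ]
      · intro z hz h
        refine mem_unnat.mp hz t ?_
        rw [h1, mem_natR]
        rcases hJ with h' | h'
        · exact Or.inr (Or.inl (junk_twin h' h))
        · exact Or.inr (Or.inr (junk_twin h' h))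
    · have hxN : x ∈ Nc := by
        rw [mem_natR] at hxN'
        rcases hxN' with h | h | h
        · exact h
        · exact absurd (Or.inl h) hJ
        · exact absurd (Or.inr h) hJ
      have hl := h0.chart.lev x hxN
      have hth := rect_th7 h0 hw hxN hJ (by omega)
      -- thresholds above `x`
      have hmono : 1 ≤ (co x).1 → 1 ≤ (co x).2 → ∀ y, x < y → θ (topOf y) y ≤ θ t x + 1 := by
        intro g1 g2 y hxy
        have hy := h0.chart.up x hxN y hxy.le
        have hyt : topOf y = t := by
          have := (W.up hx hxy.le).2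
          rw [this, ht]
        have hy1 := not_junk_above h0.chart hxN g1 hxy.le
        have hy2 := not_junk_above h0.chart.swap hxN g2 hxy.le
        have hle := (h0.chart.le_iff x hxN y hy).mp hxy.le
        have hle1 : (co y).1 ≤ (co x).1 := hle.1
        have hle2 : (co y).2 ≤ (co x).2 := hle.2
        rw [hyt, h2]
        unfold thR
        rw [if_neg (by rintro (h | h); exacts [hy1 h, hy2 h]), if_neg hJ]
        omega
      by_cases h7 : (co x).1 = 0 ∨ (co x).2 = 0
      · left
        refine ⟨?_, ?_⟩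
        · rw [ht, h2]
          omega
        · intro z hz h
          rcases h7 with h7 | h7
          · obtain ⟨u, hu, hcu⟩ := h0.chart.low x hxN (0, (co x).2 - 1)
              ⟨Nat.zero_le _, Nat.sub_le _ _⟩ trivial
            refine straight_twin H h0 h1 hxN hu ?_ ?_ ?_ hz h
            · rw [hcu]
              exact Or.inr ⟨by simp only; omega, by simp only; omega⟩
            · intro y hy hp
              rw [hcu]
              rcases hp with hp | hp
              · omega
              · exact Prod.ext (by simp only; omega) (by simp only; omega)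
            · rw [hcu]
              exact Or.inl rfl
          · obtain ⟨u, hu, hcu⟩ := h0.chart.low x hxN ((co x).1 - 1, 0)
              ⟨Nat.sub_le _ _, Nat.zero_le _⟩ trivial
            refine straight_twin H h0 h1 hxN hu ?_ ?_ ?_ hz h
            · rw [hcu]
              exact Or.inl ⟨by simp only; omega, by simp only; omega⟩
            · intro y hy hp
              rw [hcu]
              rcases hp with hp | hp
              · exact Prod.ext (by simp only; omega) (by simp only; omega)
              · omega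
            · rw [hcu]
              exact Or.inr rfl
      · by_cases h8 : (co x).1 = 1 ∨ (co x).2 = 1
        · right; left
          refine ⟨by omega, chart_inner_uc h0.chart H hxN (by omega) (by omega), ?_, ?_, ?_, ?_⟩
          · intro hlx z hz
            exact h4 x z (h0.chart.le_t x hxN) hlx
              (chart_inner_uc h0.chart H hxN (by omega) (by omega)) hz
          · rw [ht, h2]; omega
          · intro k hk hkx
            have := rect_nab h0.chart hxN (k := k) (by omega)
            omega
          · rw [ht]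
            exact hmono (by omega) (by omega)
        · right; right
          refine ⟨by omega, ?_, ?_, ?_, ?_⟩
          · rw [ht, h2]; omega
          · rw [ht, h2]; omega
          · rw [ht]
            exact hmono (by omega) (by omega)
          · intro hlj
            rw [ht, h2]
            exact W.rdeep h0.chart hxN (by omega) (by omega) hlj (by omega)
  · have hxN' : x ∈ natS Nc co := by rw [← h1]; exact hxt
    by_cases hJ : x ∈ junk (fun c => c.1 ≤ c.2) Nc co
    · left
      refine ⟨?_, ?_⟩
      · rw [ht, h2]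
        unfold thS
        rw [if_pos hJ]
      · intro z hz h
        refine mem_unnat.mp hz t ?_
        rw [h1, mem_natS]
        exact Or.inr (junk_twin hJ h)
    · have hxN : x ∈ Nc := by
        rw [mem_natS] at hxN'
        rcases hxN' with h | h
        · exact h
        · exact absurd h hJ
      have hl := h0.chart.lev x hxN
      have hm : (co x).1 ≤ (co x).2 := h0.chart.mem x hxN
      have hth := stair_th7 h0 hw h4 hxN hJ (by omega)
      have hmono : 1 ≤ (co x).1 → ∀ y, x < y → θ (topOf y) y ≤ θ t x + 1 := by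
        intro g1 y hxy
        have hy := h0.chart.up x hxN y hxy.le
        have hyt : topOf y = t := by
          have := (W.up hx hxy.le).2
          rw [this, ht]
        have hy1 := not_junk_above h0.chart hxN g1 hxy.le
        have hle := (h0.chart.le_iff x hxN y hy).mp hxy.le
        have hle1 : (co y).1 ≤ (co x).1 := hle.1
        have hle2 : (co y).2 ≤ (co x).2 := hle.2
        rw [hyt, h2]
        unfold thS
        rw [if_neg hy1, if_neg hJ]
        omega
      rcases Nat.lt_or_ge (co x).1 1 with h7 | h7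
      · left
        refine ⟨?_, ?_⟩
        · rw [ht, h2]
          omega
        · intro z hz h
          obtain ⟨u, hu, hcu⟩ := h0.chart.low x hxN (0, (co x).2 - 1)
            ⟨Nat.zero_le _, Nat.sub_le _ _⟩ (Nat.zero_le _)
          have g1 : x ⋖ u := by
            rw [chart_cov h0.chart H hxN hu, hcu]
            exact Or.inr ⟨by simp only; omega, by simp only; omega⟩
          have g2 : z ⋖ u := (cov_of_up h).mp g1
          have g3 := stair_pendant H h0 (by omega) h1 hz (x := u)
            (by rw [h1]; exact mem_natS.mpr (Or.inl hu)) g2 (by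
            intro y hy
            have hy1 : x ⋖ y := (cov_of_up h).mpr hy
            have hyN := h0.chart.up x hxN y hy1.le
            refine h0.chart.inj y hyN u hu ?_
            rw [hcu]
            rcases (chart_cov h0.chart H hxN hyN).mp hy1 with hp | hp
            · omega
            · exact Prod.ext (by simp only; omega) (by simp only; omega))
          have g4 := g3.2.2
          rw [hcu] at g4
          simp only at g4
          omega
      · rcases Nat.lt_or_ge (co x).1 2 with h8 | h8
        · right; left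
          have hd := stair_inner_uc h0.chart H hxN h7 (by omega)
          refine ⟨by omega, hd, ?_, ?_, ?_, ?_⟩
          · intro hlx z hz hon
            have := h5' x z (h0.chart.le_t x hxN) hlx hd hz hon
            omega
          · rw [ht, h2]; omega
          · intro k hk hkx
            have := stair_nab h0.chart hxN (k := k) (by omega)
            omega
          · rw [ht]
            exact hmono h7
        · right; right
          refine ⟨by omega, ?_, ?_, ?_, ?_⟩
          · rw [ht, h2]; omega
          · rw [ht, h2]; omega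
          · rw [ht]
            exact hmono h7
          · intro hlj
            rw [ht, h2]
            exact W.sdeep h4 h0.chart hxN h8 hlj (by omega)

theorem We.twSys (W : We r j w K N b θ) : TwSys (unnat N) (twA N) topOf (twT N) where
  sub := fun x hx => (mem_twA.mp hx).1
  nat := fun x hx => (twT_spec (mem_twA.mp hx).2).1
  up := fun x hx => (twT_spec (mem_twA.mp hx).2).2
  inj := by
    intro x hx x' hx' h
    have h1 := mem_twA.mp hx
    have h2 := mem_twA.mp hx'
    have h3 := twT_spec h1.2
    have h4 := twT_spec h2.2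
    have hlx := W.lt_lev h1.1
    by_contra hne
    have h5 : x < (topOf x : P) := lt_of_le_of_ne (le_topOf x) (by
      intro h
      have := (topOf x).2
      rw [← h] at this
      omega)
    obtain ⟨u, hu, -⟩ := Hul.exists_cov h5
    have hu' : twT N x ⋖ u := (cov_of_up h3.2).mpr hu
    have hu'' : x' ⋖ u := by
      rw [h] at hu'
      exact (cov_of_up h4.2).mp hu'
    refine Win.dc_three W.gt.H hu hu'' hu' hne ?_ ?_
    · intro h6
      exact h3.1 (h6 ▸ h1.1)
    · intro h6
      rw [h] at h6
      exact h4.1 (h6 ▸ h2.1)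
  anti := by
    intro x hx y hy h
    have h1 := mem_twA.mp hx
    have h2 := mem_twA.mp hy
    have h3 := twT_spec h2.2
    exact (W.up h3.1 ((h3.2 x).mpr h).le).1 h1.1
  cp := by
    intro x hx
    have h1 := mem_twA.mp hx
    have h3 := twT_spec h1.2
    have hlx := W.lt_lev h1.1
    have h5 : x < (topOf x : P) := lt_of_le_of_ne (le_topOf x) (by
      intro h
      have := (topOf x).2
      rw [← h] at this
      omega)
    have h6 : twT N x ∈ N (topOf (twT N x)) := W.natSys.mem_iff.mpr ⟨h3.1, rfl⟩
    exact (Subtype.ext (W.natSys.top_eq h6 (topOf x).2 ((h3.2 _).mpr h5).le)).symm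

/-- twins are not straight -/
lemma We.tw_cases (W : We r j w K N b θ) {x : P} (hx : x ∈ twA N) :
    j < lev (twT N x) ∧ (Row1 j w N θ (twT N x) ∨ Dk j w K N θ (twT N x)) := by
  have h1 := mem_twA.mp hx
  have h3 := twT_spec h1.2
  have h4 := W.lt_lev h1.1
  have h5 := W.twSys.lev hx
  refine ⟨by omega, ?_⟩
  rcases W.cases h3.1 (by omega) with h | h
  · exact absurd h3.2 (h.tw x h1.1)
  · exact h

lemma We.not_tw (W : We r j w K N b θ) {x : P} (hx : x ∉ unnat N) : x ∉ twA N :=
  fun h => hx (mem_twA.mp h).1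

lemma We.thA_nat (W : We r j w K N b θ) {x : P} (hx : x ∉ unnat N) :
    thA N θ x = θ (topOf x) x := thX_not (W.not_tw hx)

lemma We.thA_tw (W : We r j w K N b θ) {x : P} (hx : x ∈ twA N) :
    thA N θ x = θ (topOf (twT N x)) (twT N x) := thX_of hx

theorem We.twn (W : We r j w K N b θ) {x : P} (hx : x ∈ twA N) :
    Twn w (thA N θ) (twT N x, x) := by
  have T := W.twSys
  have h1 := mem_twA.mp hx
  have h3 := twT_spec h1.2
  obtain ⟨hl, hk⟩ := W.tw_cases hx
  have hj := W.hj
  have hw := W.hw
  have e1 : thA N θ (twT N x) = θ (topOf (twT N x)) (twT N x) := W.thA_nat h3.1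
  have e2 := W.thA_tw hx
  have hm : ∀ y, twT N x < y → θ (topOf y) y ≤ θ (topOf (twT N x)) (twT N x) + 1 := by
    rcases hk with h | h
    · exact h.mono
    · exact h.mono
  have ht : θ (topOf (twT N x)) (twT N x) + 1 ≤ lev (twT N x) - w ∧
      lev (twT N x) - w ≤ θ (topOf (twT N x)) (twT N x) + 3 := by
    rcases hk with h | h
    · have := h.th
      omega
    · exact ⟨h.th, h.th3⟩
  refine ⟨?_, h3.2, ?_, ?_, ?_, ?_⟩
  · intro h
    simp only at h
    exact h3.1 (by rw [h]; exact h1.1)
  · simp only
    rw [e1]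
    omega
  · simp only
    rw [e1, e2]
  · simp only
    rw [e1]
    exact ht.1
  · intro y hy
    simp only at hy ⊢
    rw [e1, W.thA_nat (W.up h3.1 hy.le).1]
    exact hm y hy

/-- cost of the twins of cells of row `1` -/
lemma We.tcst_row1 (W : We r j w K N b θ) {x : P} (hx : x ∈ twA N)
    (hk : Row1 j w N θ (twT N x)) {a : ℕ} (ha : lev x = w + a) :
    tcst w (thA N θ) (twT N x, x) + 1 = a ^ 2 + a := by
  have h1 := mem_twA.mp hx
  have h3 := twT_spec h1.2
  have hl := W.twSys.lev hx
  have e1 : thA N θ (twT N x) = θ (topOf (twT N x)) (twT N x) := W.thA_nat h3.1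
  have h4 := hk.th
  have h5 : thA N θ (twT N x) + 1 = a := by omega
  rw [tcst_cst (W.twn hx)]
  simp only
  rw [h5, cst_eq_ful (by omega), ful_two (a := a) (by omega)
    fun k hk1 hk2 => hk.nab k hk1.le hk2]
  omega

end Pool.Agent.GaussPoset.Sm

end
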