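import Mathlib
import Pool.Agent.W_448zz_h61.Ns
import Pool.Agent.W_448zz_h61.M039
import Pool.Agent.W_448zz_h61.M043

/-! From `Pool.Agent.W_448s7s_h5.SlA` -/

section

/-!
# Costs of the deep cells by a finite check (MP_448cb3_co, S7, `j ≤ 16`)
-/

namespace Pool.Agent.GaussPoset.Sm

set_option linter.unusedSectionVars false

open Finset Wd

universe u

variable {P : Type u} [Fintype P] [PartialOrder P] [DecidableEq P] {r j w K : ℕ}

/-- cost and label below the cell `(a, L - a)` of a stair, window `w` -/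
def stC (w L a : ℕ) : ℕ :=
  ∑ n ∈ range (L - w + 1), min (L - w - 1) n *
    (min ((w + n) / 2) a + 1 - ((w + n) - (L - a))) + (L - w - 1)

/-- cost and label below the cell `(a, L - a)` of a rectangle, window `w` -/
def reC (w L a : ℕ) : ℕ :=
  ∑ n ∈ range (L - w + 1), min (L - w + 1 - min (min a (L - a)) w) n *
    (min (w + n) a + 1 - ((w + n) - (L - a))) + (L - w + 1 - min (min a (L - a)) w)

lemma cst_up {x x' : P} {h h' : ℕ} (hxx : x ≤ x') (hh : h' ≤ h) :
    cst w (fun _ => h') x' ≤ cst w (fun _ => h) x := by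
  unfold cst ez
  refine Finset.sum_le_sum fun y _ => ?_
  by_cases h1 : x' ≤ y
  · rw [if_pos h1, if_pos (hxx.trans h1)]
    exact min_le_min hh le_rfl
  · rw [if_neg h1]
    exact Nat.zero_le _

/-- exact cost of a cell of a stair -/
lemma cst_stair {t : P} {Nc : Finset P} {co : P → ℕ × ℕ} (C : Chart t (fun c => c.1 ≤ c.2) Nc co)
    {x : P} (hx : x ∈ Nc) {L h : ℕ} (hl : lev x = L) (hw : w ≤ L) :
    cst w (fun _ => h) x = ∑ n ∈ range (L - w + 1), min h n *
      (min ((w + n) / 2) (co x).1 + 1 - ((w + n) - (L - (co x).1))) := by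
  have hl2 := C.lev x hx
  rw [cst_shift (i := w) (a := L - w) (by omega)]
  refine Finset.sum_congr rfl fun n hn => ?_
  rw [mem_range] at hn
  have h3 := stair_nab C hx (k := w + n) (by omega)
  congr 1
  omega

lemma cst_rect {t : P} {Nc : Finset P} {co : P → ℕ × ℕ} (C : Chart t (fun _ => True) Nc co)
    {x : P} (hx : x ∈ Nc) {L h : ℕ} (hl : lev x = L) (hw : w ≤ L) :
    cst w (fun _ => h) x = ∑ n ∈ range (L - w + 1), min h n *
      (min (w + n) (co x).1 + 1 - ((w + n) - (L - (co x).1))) := by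
  have hl2 := C.lev x hx
  rw [cst_shift (i := w) (a := L - w) (by omega)]
  refine Finset.sum_congr rfl fun n hn => ?_
  rw [mem_range] at hn
  have h3 := rect_nab C hx (k := w + n) (by omega)
  congr 1
  omega

/-- deep cells of the stairs -/
theorem sdeep_of (hj : 3 ≤ j) (hwj : w < j)
    (hchk : ∀ a ∈ Finset.Icc 2 ((j + 1) / 2), K + 1 < stC w (j + 1) a)
    {t : P} {Nc : Finset P} {co : P → ℕ × ℕ} (C : Chart t (fun c => c.1 ≤ c.2) Nc co) {x : P}
    (hx : x ∈ Nc) {h : ℕ} (h1 : 2 ≤ (co x).1) (hlx : j + 1 ≤ lev x) (hh : h + 1 = lev x - w) :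
    K + 1 < cst w (fun _ => h) x + h := by
  have hl := C.lev x hx
  have hm : (co x).1 ≤ (co x).2 := C.mem x hx
  obtain ⟨y, hy, hcy⟩ := C.low x hx (j + 1 - min (co x).2 (j - 1), min (co x).2 (j - 1))
    ⟨by simp only; omega, by simp only; omega⟩
    (show j + 1 - min (co x).2 (j - 1) ≤ min (co x).2 (j - 1) by omega)
  have hly := C.lev y hy
  have hxy : x ≤ y := by
    rw [C.le_iff x hx y hy, hcy]
    exact ⟨by simp only; omega, by simp only; omega⟩
  have hy1 : (co y).1 = j + 1 - min (co x).2 (j - 1) := by rw [hcy]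
  have hy2 : (co y).2 = min (co x).2 (j - 1) := by rw [hcy]
  have hly' : lev y = j + 1 := by omega
  have h2 := cst_up (w := w) (h := h) (h' := j + 1 - w - 1) hxy (by omega)
  have h3 := cst_stair (w := w) (h := j + 1 - w - 1) C hy hly' (by omega)
  have h4 := hchk (co y).1 (by rw [Finset.mem_Icc]; omega)
  unfold stC at h4
  rw [h3] at h2
  omega

/-- deep cells of the rectangles -/
theorem rdeep_of (hj : 3 ≤ j) (hwj : w < j)
    (hchk : ∀ a ∈ Finset.Icc 2 (j - 1), K + 1 < reC w (j + 1) a)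
    {t : P} {Nc : Finset P} {co : P → ℕ × ℕ} (C : Chart t (fun _ => True) Nc co) {x : P}
    (hx : x ∈ Nc) {h : ℕ} (h1 : 2 ≤ (co x).1) (h2 : 2 ≤ (co x).2) (hlx : j + 1 ≤ lev x)
    (hh : h + min (min (co x).1 (co x).2) w = lev x - w + 1) :
    K + 1 < cst w (fun _ => h) x + h := by
  have hl := C.lev x hx
  obtain ⟨y, hy, hcy⟩ := C.low x hx (j + 1 - min (co x).2 (j - 1), min (co x).2 (j - 1))
    ⟨by simp only; omega, by simp only; omega⟩ trivial
  have hly := C.lev y hy
  have hxy : x ≤ y := by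
    rw [C.le_iff x hx y hy, hcy]
    exact ⟨by simp only; omega, by simp only; omega⟩
  have hy1 : (co y).1 = j + 1 - min (co x).2 (j - 1) := by rw [hcy]
  have hy2 : (co y).2 = min (co x).2 (j - 1) := by rw [hcy]
  have hly' : lev y = j + 1 := by omega
  have h3 := cst_up (w := w) (h := h)
    (h' := j + 1 - w + 1 - min (min (co y).1 (j + 1 - (co y).1)) w) hxy (by omega)
  have h4 := cst_rect (w := w)
    (h := j + 1 - w + 1 - min (min (co y).1 (j + 1 - (co y).1)) w) C hy hly' (by omega)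
  have h5 := hchk (co y).1 (by rw [Finset.mem_Icc]; omega)
  unfold reC at h5
  rw [h4] at h3
  omega

end Pool.Agent.GaussPoset.Sm

end

/-! From `Pool.Agent.W_448s7_h27.EwA` -/

section

/-!
Windows at which some tops (`E`) have a second, larger natural system of lower order: the systems
`N^S` and the equivalence needed for inclusion-exclusion (MP_448cb3_co).
-/

namespace Pool.Agent.GaussPoset.Ew

set_option linter.unusedSectionVars false

open Polynomial Finset

universe u

variable {P : Type u} [Fintype P] [PartialOrder P] [DecidableEq P]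
variable {i : ℕ} {N N1 : Tops P → Finset P} {b : Tops P → ℕ} {θ θ1 : Tops P → P → ℕ}
  {E S : Finset (Tops P)} {Y : Finset P} {τ : P → P}

open Classical in
/-- natural sets: the tops in `S` have the second one -/
noncomputable def NS (N N1 : Tops P → Finset P) (S : Finset (Tops P)) (t : Tops P) : Finset P :=
  if t ∈ S then N1 t else N t

open Classical in
/-- orders -/
noncomputable def bS (b : Tops P → ℕ) (S : Finset (Tops P)) (t : Tops P) : ℕ :=
  if t ∈ S then b t - 1 else b t

open Classical in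
/-- thresholds -/
noncomputable def tS (θ θ1 : Tops P → P → ℕ) (S : Finset (Tops P)) (t : Tops P) : P → ℕ :=
  if t ∈ S then θ1 t else θ t

open Classical in
/-- the twins of the system `S` -/
noncomputable def YS (E : Finset (Tops P)) (Y : Finset P) (S : Finset (Tops P)) : Finset P :=
  Y.filter (fun x => topOf x ∉ E ∨ topOf x ∈ S)

/-- the context of the window `i` with the defect tops `E` -/
structure EW (i : ℕ) (E : Finset (Tops P)) (N N1 : Tops P → Finset P) (b : Tops P → ℕ)
    (θ θ1 : Tops P → P → ℕ) (Y : Finset P) (τ : P → P) : Prop where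
  gr : GradedBelow P
  nat : ∀ t, ∃ B, NatTop i t (b t) (N t) (θ t) B
  nat1 : ∀ t ∈ E, ∃ B, NatTop i t (b t - 1) (N1 t) (θ1 t) B
  one : ∀ t ∈ E, 1 ≤ b t
  sub : ∀ t ∈ E, N t ⊆ N1 t
  le1 : ∀ t ∈ E, ∀ x ∈ N t, θ t x ≤ θ1 t x
  le2 : ∀ t ∈ E, ∀ x ∈ N1 t, x ∉ N t → ∀ y ∈ N t, x ≤ y → θ t y ≤ θ1 t x
  tw : TwSys (unnat (NS N N1 E)) Y topOf τ
  twE : ∀ x ∈ Y, topOf x ∈ E → τ x ∈ N (topOf x) ∧
    ∀ y, x ⋖ y → θ (topOf x) y ≤ θ1 (topOf x) (τ x)
  twn : ∀ x ∈ Y, Twn i (thX Y τ (fun x => tS θ θ1 E (topOf x) x)) (τ x, x)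

/-- the far set of the system `S` -/
noncomputable def RS (E : Finset (Tops P)) (N N1 : Tops P → Finset P) (Y : Finset P)
    (S : Finset (Tops P)) : Finset P := unnat (NS N N1 S) \ YS E Y S

/-- the thresholds of the system `S` -/
noncomputable def thS (E : Finset (Tops P)) (θ θ1 : Tops P → P → ℕ) (Y : Finset P) (τ : P → P)
    (S : Finset (Tops P)) : P → ℕ :=
  thX (YS E Y S) τ (fun x => tS θ θ1 S (topOf x) x)

/-- the labels of the system `S` -/
noncomputable def hS (E : Finset (Tops P)) (N N1 : Tops P → Finset P) (θ θ1 : Tops P → P → ℕ)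
    (Y : Finset P) (τ : P → P) (S : Finset (Tops P)) : P → ℕ :=
  hcan (RS E N N1 Y S) (thS E θ θ1 Y τ S)

lemma NS_of {t : Tops P} (h : t ∈ S) : NS N N1 S t = N1 t := if_pos h

lemma NS_not {t : Tops P} (h : t ∉ S) : NS N N1 S t = N t := if_neg h

lemma tS_of {t : Tops P} (h : t ∈ S) : tS θ θ1 S t = θ1 t := if_pos h

lemma tS_not {t : Tops P} (h : t ∉ S) : tS θ θ1 S t = θ t := if_neg h

lemma mem_YS {x : P} : x ∈ YS E Y S ↔ x ∈ Y ∧ (topOf x ∉ E ∨ topOf x ∈ S) := by
  classical
  unfold YS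
  rw [mem_filter]

lemma YS_self : YS E Y E = Y := by
  ext x
  rw [mem_YS]
  constructor
  · exact fun h => h.1
  · exact fun h => ⟨h, (em (topOf x ∈ E)).symm⟩

section

variable (W : EW i E N N1 b θ θ1 Y τ)

include W

/-- natural tops of the system `S` -/
theorem EW.natS (hS : S ⊆ E) (t : Tops P) :
    ∃ B, NatTop i t (bS b S t) (NS N N1 S t) (tS θ θ1 S t) B := by
  by_cases h : t ∈ S
  · rw [NS_of h, tS_of h]
    have h1 : bS b S t = b t - 1 := if_pos h
    rw [h1]
    exact W.nat1 t (hS h)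
  · rw [NS_not h, tS_not h]
    have h1 : bS b S t = b t := if_neg h
    rw [h1]
    exact W.nat t

lemma EW.natSysS (hS : S ⊆ E) : NatSys (NS N N1 S) := by
  choose B hB using W.natS hS
  exact natSys_of_tops hB

lemma EW.natSys : NatSys N := by
  choose B hB using W.nat
  exact natSys_of_tops hB

/-- the order of the system `S` -/
theorem EW.sum_bS (hS : S ⊆ E) : ∑ t, bS b S t + S.card = ∑ t, b t := by
  classical
  have h1 : ∑ t, b t = ∑ t, (bS b S t + if t ∈ S then 1 else 0) := by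
    refine Finset.sum_congr rfl fun t _ => ?_
    unfold bS
    by_cases h : t ∈ S
    · have := W.one t (hS h)
      rw [if_pos h, if_pos h]
      omega
    · rw [if_neg h, if_neg h]
      rfl
  rw [h1, Finset.sum_add_distrib]
  congr 1
  rw [Finset.sum_ite_mem, univ_inter, Finset.sum_const, smul_eq_mul, mul_one]

lemma EW.NS_mono (hS : S ⊆ E) (t : Tops P) : NS N N1 S t ⊆ NS N N1 E t := by
  by_cases h : t ∈ S
  · rw [NS_of h, NS_of (hS h)]
  · rw [NS_not h]
    by_cases h' : t ∈ E
    · rw [NS_of h']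
      exact W.sub t h'
    · rw [NS_not h']

lemma EW.unnat_anti (hS : S ⊆ E) : unnat (NS N N1 E) ⊆ unnat (NS N N1 S) := by
  intro x hx
  rw [mem_unnat] at hx ⊢
  exact fun t h => hx t (W.NS_mono hS t h)

/-- elements natural in both systems -/
lemma EW.nat_of_not (hS : S ⊆ E) {x : P} (hx : x ∉ unnat (NS N N1 E))
    (ht : topOf x ∉ E ∨ topOf x ∈ S) : x ∉ unnat (NS N N1 S) := by
  have HE := W.natSysS (Finset.Subset.refl E)
  have h1 : x ∈ NS N N1 E (topOf x) := HE.mem_iff.mpr ⟨hx, rfl⟩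
  intro h
  refine mem_unnat.mp h (topOf x) ?_
  rcases ht with ht | ht
  · rw [NS_not ht] at h1
    rw [NS_not (fun h => ht (hS h))]
    exact h1
  · rw [NS_of (hS ht)] at h1
    rw [NS_of ht]
    exact h1

theorem EW.twS (hS : S ⊆ E) : TwSys (unnat (NS N N1 S)) (YS E Y S) topOf τ where
  sub := fun x hx => W.unnat_anti hS (W.tw.sub (mem_YS.mp hx).1)
  nat := by
    intro x hx
    obtain ⟨hx, ht⟩ := mem_YS.mp hx
    refine W.nat_of_not hS (W.tw.nat x hx) ?_
    rw [W.tw.cp x hx]
    exact ht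
  up := fun x hx => W.tw.up x (mem_YS.mp hx).1
  inj := fun x hx y hy => W.tw.inj x (mem_YS.mp hx).1 y (mem_YS.mp hy).1
  anti := fun x hx y hy => W.tw.anti x (mem_YS.mp hx).1 y (mem_YS.mp hy).1
  cp := fun x hx => W.tw.cp x (mem_YS.mp hx).1

/-- an element of a top outside `E` or in `S` is a twin in both systems or in none -/
lemma YS_iff {x : P} (ht : topOf x ∉ E ∨ topOf x ∈ S) : x ∈ YS E Y S ↔ x ∈ Y := by
  rw [mem_YS]
  exact ⟨fun h => h.1, fun h => ⟨h, ht⟩⟩

/-- the thresholds of two systems agree away from `E \ S` -/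
lemma EW.thS_eq (hS : S ⊆ E) {x : P} (ht : topOf x ∉ E ∨ topOf x ∈ S) :
    thS E θ θ1 Y τ S x = thS E θ θ1 Y τ E x := by
  have key : ∀ y, topOf y ∉ E ∨ topOf y ∈ S → tS θ θ1 S (topOf y) y = tS θ θ1 E (topOf y) y := by
    intro y hy
    rcases hy with hy | hy
    · rw [tS_not (fun h => hy (hS h)), tS_not hy]
    · rw [tS_of hy, tS_of (hS hy)]
  unfold thS
  rw [YS_self]
  by_cases hx : x ∈ Y
  · rw [thX_of ((YS_iff W ht).mpr hx), thX_of hx]
    refine key _ ?_
    rw [W.tw.cp x hx]
    exact ht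
  · rw [thX_not (fun h => hx (mem_YS.mp h).1), thX_not hx]
    exact key _ ht

theorem EW.twnS (hS : S ⊆ E) : ∀ x ∈ YS E Y S, Twn i (thS E θ θ1 Y τ S) (τ x, x) := by
  intro x hx
  obtain ⟨hx, ht⟩ := mem_YS.mp hx
  have h := W.twn x hx
  have hdef : thS E θ θ1 Y τ E = thX Y τ (fun x => tS θ θ1 E (topOf x) x) := by
    unfold thS
    rw [YS_self]
  rw [← hdef] at h
  have hτ : topOf (τ x) ∉ E ∨ topOf (τ x) ∈ S := by rw [W.tw.cp x hx]; exact ht
  have e1 : thS E θ θ1 Y τ S (τ x) = thS E θ θ1 Y τ E (τ x) := W.thS_eq hS hτ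
  have e2 : thS E θ θ1 Y τ S x = thS E θ θ1 Y τ E x := W.thS_eq hS ht
  refine ⟨h.ne, h.up, ?_, ?_, ?_, ?_⟩
  · show 1 ≤ thS E θ θ1 Y τ S (τ x)
    rw [e1]; exact h.one_le
  · show thS E θ θ1 Y τ S x = thS E θ θ1 Y τ S (τ x)
    rw [e1, e2]; exact h.eq
  · show thS E θ θ1 Y τ S (τ x) + 1 ≤ lev (τ x) - i
    rw [e1]; exact h.lt
  · intro y hy
    show thS E θ θ1 Y τ S y ≤ thS E θ θ1 Y τ S (τ x) + 1
    have hHE := W.natSysS (Finset.Subset.refl E)
    have hcp : topOf (τ x) = topOf y := hHE.cp _ _ (le_of_lt hy) (W.tw.nat x hx)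
    have e3 : thS E θ θ1 Y τ S y = thS E θ θ1 Y τ E y := W.thS_eq hS (hcp ▸ hτ)
    rw [e1, e3]
    exact h.mono y hy

lemma EW.tcst_eq (hS : S ⊆ E) {x : P} (hx : x ∈ YS E Y S) :
    tcst i (thS E θ θ1 Y τ S) (τ x, x) = tcst i (thS E θ θ1 Y τ E) (τ x, x) := by
  obtain ⟨hx, ht⟩ := mem_YS.mp hx
  have hτ : topOf (τ x) ∉ E ∨ topOf (τ x) ∈ S := by rw [W.tw.cp x hx]; exact ht
  unfold tcst
  rw [tcst_congr (t := (τ x, x)) (W.thS_eq hS hτ)]

theorem EW.farX (hS : S ⊆ E) (n0 : ℕ)
    (hcost : ∀ x ∈ Y, n0 ≤ tcst i (thS E θ θ1 Y τ E) (τ x, x)) :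
    FarX P i (RS E N N1 Y S) (∑ t, bS b S t) (Ew.hS E N N1 θ θ1 Y τ S) (thS E θ θ1 Y τ S)
      (pairsX (YS E Y S) τ) n0 := by
  choose B hB using W.natS hS
  refine farX_of_tops W.gr hB (W.twS hS) n0 (W.twnS hS) ?_
  intro x hx
  have h1 := hcost x (mem_YS.mp hx).1
  rw [← W.tcst_eq hS hx] at h1
  exact h1

lemma EW.lev_RS (hS : S ⊆ E) : ∀ x ∈ RS E N N1 Y S, i < lev x := by
  intro x hx
  by_contra hcon
  choose B hB using W.natS hS
  exact low_natural hB (not_lt.mp hcon) (mem_sdiff.mp hx).1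

lemma EW.lower_RS (hS : S ⊆ E) : ∀ x y, x ≤ y → y ∈ RS E N N1 Y S → x ∈ RS E N N1 Y S :=
  (W.twS hS).lower (W.natSysS hS).lower

lemma EW.th_le (hS : S ⊆ E) {x : P} (hx : x ∉ RS E N N1 Y S) :
    thS E θ θ1 Y τ S x ≤ lev x - i := by
  have key : ∀ y, y ∉ unnat (NS N N1 S) → tS θ θ1 S (topOf y) y ≤ lev y - i := by
    intro y hy
    choose B hB using W.natS hS
    have hsys := natSys_of_tops hB
    have h1 : y ∈ NS N N1 S (topOf y) := hsys.mem_iff.mpr ⟨hy, rfl⟩
    exact ((hB (topOf y)).data _ hsys rfl (tS θ θ1 S (topOf y)) (B (topOf y)) (fun _ _ => rfl)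
      (fun _ _ => Iff.rfl)).le y hy rfl
  unfold thS
  by_cases hY : x ∈ YS E Y S
  · rw [thX_of hY]
    have h1 := key _ ((W.twS hS).nat x hY)
    have h2 : lev (τ x) = lev x := lev_eq_of_up ((W.twS hS).up x hY)
    rwa [h2] at h1
  · rw [thX_not hY]
    refine key _ fun h => hx ?_
    exact mem_sdiff.mpr ⟨h, hY⟩

lemma EW.RS_sub (hS : S ⊆ E) : RS E N N1 Y E ⊆ RS E N N1 Y S := by
  intro x hx
  have h := mem_sdiff.mp hx
  rw [YS_self] at h
  exact mem_sdiff.mpr ⟨W.unnat_anti hS h.1, fun h' => h.2 (mem_YS.mp h').1⟩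

end

/-- all labels of the far set are at most the thresholds -/
def Ok (R : Finset P) (θ e : P → ℕ) : Prop := ∀ z ∈ R, ∀ x, x ∉ R → z ⋖ x → e z ≤ θ x

/-- no dangerous element iff all labels are small -/
theorem ok_iff {i : ℕ} {R : Finset P} {θ e : P → ℕ} {F : Finset P} (hgr : GradedBelow P)
    (hlev : ∀ x ∈ R, i < lev x) (hle : ∀ x, x ∉ R → θ x ≤ lev x - i) (hV : Vd i e F) :
    (∀ z ∈ bdR R, ¬ Dgz (hcan R θ) e F z) ↔ Ok R θ e := by
  classical
  constructor
  · intro h z hz x hx hzx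
    have h1 : z ∈ bdR R := mem_filter.mpr ⟨hz, x, hx, hzx⟩
    have h2 := h z h1
    have h3 := hcan_le (θ := θ) hx hzx
    unfold Dgz at h2
    push Not at h2
    omega
  · intro h z hz hd
    obtain ⟨x, hx, hzx, hx2⟩ := hcan_spec (θ := θ) hz
    have hzR := (mem_filter.mp hz).1
    have h1 := h z hzR x hx hzx
    have h2 := hle x hx
    have h3 := hlev z hzR
    have h4 := hgr.lev_covBy hzx
    rcases hd with hd | hd
    · have h5 := sub_le_of_mem hV hd
      omega
    · omega

section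

variable (W : EW i E N N1 b θ θ1 Y τ)

open Classical in
/-- the tops of `E` which are hit beyond the threshold -/
noncomputable def KE (E : Finset (Tops P)) (N : Tops P → Finset P) (θ : Tops P → P → ℕ)
    (e : P → ℕ) : Finset (Tops P) :=
  E.filter (fun t => ∃ z x, z ⋖ x ∧ x ∈ N t ∧ z ∉ N t ∧ θ t x < e z)

lemma mem_KE {t : Tops P} {e : P → ℕ} :
    t ∈ KE E N θ e ↔ t ∈ E ∧ ∃ z x, z ⋖ x ∧ x ∈ N t ∧ z ∉ N t ∧ θ t x < e z := by
  classical
  unfold KE
  rw [mem_filter]

include W

/-- an element below a natural element of a top of `E` which is not natural is in the far set -/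
lemma EW.far_of_cov (hS : S ⊆ E) {t : Tops P} (htE : t ∈ E) (htS : t ∉ S) {z x : P} (hzx : z ⋖ x)
    (hx : x ∈ N t) (hz : z ∉ N t) : z ∈ RS E N N1 Y S ∧ x ∉ RS E N N1 Y S ∧
      thS E θ θ1 Y τ S x = θ t x := by
  have HS := W.natSysS hS
  have HE := W.natSysS (Finset.Subset.refl E)
  have hx' : x ∈ NS N N1 S t := by rw [NS_not htS]; exact hx
  have htop : topOf x = t := HS.topOf_eq hx'
  have hxu : x ∉ unnat (NS N N1 S) := (HS.mem_iff.mp hx').1
  refine ⟨mem_sdiff.mpr ⟨?_, ?_⟩, fun h => hxu (mem_sdiff.mp h).1, ?_⟩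
  · rw [mem_unnat]
    intro s hs
    have h1 : x ∈ NS N N1 S s := HS.up s z hs x hzx.1.le
    have h2 : s = t := (HS.topOf_eq h1).symm.trans htop
    rw [h2, NS_not htS] at hs
    exact hz hs
  · intro hzY
    obtain ⟨hzY, h1⟩ := mem_YS.mp hzY
    have h2 := W.tw.nat z hzY
    have h3 : τ z < x := (W.tw.up z hzY x).mpr hzx.1
    have h4 : topOf (τ z) = topOf x := HE.cp _ _ h3.le h2
    rw [W.tw.cp z hzY, htop] at h4
    rw [h4] at h1
    rcases h1 with h1 | h1
    · exact h1 htE
    · exact htS h1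
  · have hxY : x ∉ YS E Y S := fun h => hxu ((W.twS hS).sub h)
    unfold thS
    rw [thX_not hxY, htop, tS_not htS]

/-- **The equivalence.** -/
theorem EW.ok_iff_S (hS : S ⊆ E) {e : P → ℕ} {F : Finset P} (hV : Vd i e F) :
    Ok (RS E N N1 Y S) (thS E θ θ1 Y τ S) e ↔
      (Ok (RS E N N1 Y E) (thS E θ θ1 Y τ E) e ∧ KE E N θ e ⊆ S) := by
  classical
  have HS := W.natSysS hS
  have HE := W.natSysS (Finset.Subset.refl E)
  have hsub := W.RS_sub hS
  have hmono : ∀ z x1 x2 : P, z ∈ RS E N N1 Y S → x1 ∈ RS E N N1 Y S → x2 ∉ RS E N N1 Y S →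
      z ≤ x1 → x1 ⋖ x2 → e x1 ≤ thS E θ θ1 Y τ S x2 → e z ≤ e x1 := by
    intro z x1 x2 hz h1 h2 hzx hc he
    have h3 := W.th_le hS h2
    have hl2 := W.gr.lev_covBy hc
    have hl1 := W.lev_RS hS x1 h1
    have hlz := W.lev_RS hS z hz
    have hx1F : x1 ∉ F := by
      intro hF
      have := sub_le_of_mem hV hF
      omega
    have hzF : z ∉ F := fun h => hx1F (hV.1 z x1 hzx h)
    have h4 := hV.2.2.1 z x1 hzx hzF hx1F
    rw [rho_of_lt hlz, rho_of_lt hl1] at h4
    exact_mod_cast h4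
  have hYE : ∀ x ∈ Y, x ∈ unnat (NS N N1 E) := fun x hx => W.tw.sub hx
  constructor
  · intro hok
    refine ⟨?_, ?_⟩
    · intro z hz x hx hzx
      have hzS := hsub hz
      by_cases hxS : x ∈ RS E N N1 Y S
      · -- `x` is an own element of a top of `E \ S`
        have ht : topOf x ∈ E ∧ topOf x ∉ S := by
          by_contra hcon
          have ht' : topOf x ∉ E ∨ topOf x ∈ S := by
            by_cases h : topOf x ∈ E
            · exact Or.inr (by by_contra h'; exact hcon ⟨h, h'⟩)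
            · exact Or.inl h
          obtain ⟨h1, h2⟩ := mem_sdiff.mp hxS
          rw [YS_iff W ht'] at h2
          refine hx (mem_sdiff.mpr ⟨?_, by rw [YS_self]; exact h2⟩)
          by_contra h3
          exact W.nat_of_not hS h3 ht' h1
        by_cases hxY : x ∈ Y
        · -- a twin
          obtain ⟨g1, g2⟩ := W.twE x hxY ht.1
          have hlx := W.lev_RS hS x hxS
          have hlt : x < (topOf x : P) := by
            refine lt_of_le_of_ne (le_topOf x) fun h => ?_
            have h2 : lev (topOf x : P) = 0 := (topOf x).2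
            rw [← h] at h2
            omega
          obtain ⟨y, hy, -⟩ := exists_covBy_le_of_lt hlt
          have hyN : y ∈ N (topOf x) :=
            W.natSys.up _ _ g1 y ((W.tw.up x hxY y).mpr hy.1).le
          have hxN : x ∉ N (topOf x) := fun h => by
            have h1 := hYE x hxY
            refine mem_unnat.mp h1 (topOf x) ?_
            rw [NS_of ht.1]
            exact W.sub _ ht.1 h
          obtain ⟨f1, f2, f3⟩ := W.far_of_cov hS ht.1 ht.2 hy hyN hxN
          have h1 := hok x hxS y f2 hy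
          have h2 := hmono z x y hzS hxS f2 hzx.1.le hy h1
          rw [f3] at h1
          have h3 := g2 y hy
          have h4 : thS E θ θ1 Y τ E x = θ1 (topOf x) (τ x) := by
            unfold thS
            rw [YS_self, thX_of hxY, W.tw.cp x hxY, tS_of ht.1]
          rw [h4]
          omega
        · -- an element of the larger natural set
          have hxu : x ∉ unnat (NS N N1 E) := fun h =>
            hx (mem_sdiff.mpr ⟨h, by rw [YS_self]; exact hxY⟩)
          have hxN1 : x ∈ N1 (topOf x) := by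
            have := HE.mem_iff.mpr ⟨hxu, rfl⟩
            rwa [NS_of ht.1] at this
          have hxN : x ∉ N (topOf x) := fun h => by
            refine mem_unnat.mp (mem_sdiff.mp hxS).1 (topOf x) ?_
            rw [NS_not ht.2]
            exact h
          choose B hB using W.natS hS
          have htop0 : (topOf x : P) ∉ unnat (NS N N1 S) := by
            have h2 : lev (topOf x : P) = 0 := (topOf x).2
            exact low_natural hB (by omega)
          have hne : (topOf x : P) ∉ RS E N N1 Y S := fun h => htop0 (mem_sdiff.mp h).1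
          obtain ⟨x1, x2, f1, f2, f3, f4, f5⟩ := exists_exit hxS hne (le_topOf x)
          have hxx2 : x ≤ x2 := f1.trans f3.1.le
          have hx2E : x2 ∈ NS N N1 E (topOf x) :=
            HE.up _ x (HE.mem_iff.mpr ⟨hxu, rfl⟩) x2 hxx2
          have hx2u : x2 ∉ unnat (NS N N1 E) := (HE.mem_iff.mp hx2E).1
          have hx2S : x2 ∉ unnat (NS N N1 S) := by
            intro h
            refine f4 (mem_sdiff.mpr ⟨h, fun h' => hx2u (hYE x2 (mem_YS.mp h').1)⟩)
          have hx2N : x2 ∈ N (topOf x) := by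
            have h1 := HS.mem_iff.mpr ⟨hx2S, rfl⟩
            rw [(HE.mem_iff.mp hx2E).2, NS_not ht.2] at h1
            exact h1
          have hx1N : x1 ∉ N (topOf x) := fun h => by
            refine mem_unnat.mp (mem_sdiff.mp f2).1 (topOf x) ?_
            rw [NS_not ht.2]
            exact h
          obtain ⟨k1, k2, k3⟩ := W.far_of_cov hS ht.1 ht.2 f3 hx2N hx1N
          have h1 := hok x1 f2 x2 f4 f3
          have h2 := hmono z x1 x2 hzS f2 f4 (hzx.1.le.trans f1) f3 h1
          rw [k3] at h1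
          have h3 := W.le2 _ ht.1 x hxN1 hxN x2 hx2N hxx2
          have h4 : thS E θ θ1 Y τ E x = θ1 (topOf x) x := by
            unfold thS
            rw [YS_self, thX_not hxY, tS_of ht.1]
          rw [h4]
          omega
      · have h1 := hok z hzS x hxS hzx
        by_cases ht : topOf x ∉ E ∨ topOf x ∈ S
        · rwa [W.thS_eq hS ht] at h1
        · push Not at ht
          have hxYS : x ∉ YS E Y S := fun h => by
            rcases (mem_YS.mp h).2 with h | h
            · exact h ht.1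
            · exact ht.2 h
          have hxu : x ∉ unnat (NS N N1 S) := fun h => hxS (mem_sdiff.mpr ⟨h, hxYS⟩)
          have hxN : x ∈ N (topOf x) := by
            have := HS.mem_iff.mpr ⟨hxu, rfl⟩
            rwa [NS_not ht.2] at this
          have hxY : x ∉ Y := fun h => by
            refine mem_unnat.mp (hYE x h) (topOf x) ?_
            rw [NS_of ht.1]
            exact W.sub _ ht.1 hxN
          have h5 : thS E θ θ1 Y τ S x = θ (topOf x) x := by
            unfold thS
            rw [thX_not hxYS, tS_not ht.2]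
          have h6 : thS E θ θ1 Y τ E x = θ1 (topOf x) x := by
            unfold thS
            rw [YS_self, thX_not hxY, tS_of ht.1]
          have h7 := W.le1 _ ht.1 x hxN
          rw [h5] at h1
          rw [h6]
          omega
    · intro t ht
      obtain ⟨htE, z, x, hzx, hx, hz, hlt⟩ := mem_KE.mp ht
      by_contra htS
      obtain ⟨g1, g2, g3⟩ := W.far_of_cov hS htE htS hzx hx hz
      have h1 := hok z g1 x g2 hzx
      omega
  · rintro ⟨hok, hK⟩ z hz x hx hzx
    by_cases ht : topOf x ∉ E ∨ topOf x ∈ S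
    · rw [W.thS_eq hS ht]
      have hxE : x ∉ RS E N N1 Y E := fun h => hx (hsub h)
      have hzE : z ∈ RS E N N1 Y E := by
        refine mem_sdiff.mpr ⟨?_, ?_⟩
        · by_contra hcon
          have h1 : topOf z = topOf x := HE.cp z x hzx.1.le hcon
          exact W.nat_of_not hS hcon (by rw [h1]; exact ht) (mem_sdiff.mp hz).1
        · rw [YS_self]
          intro hzY
          have h2 := W.tw.nat z hzY
          have h3 : τ z < x := (W.tw.up z hzY x).mpr hzx.1
          have h4 : topOf (τ z) = topOf x := HE.cp _ _ h3.le h2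
          rw [W.tw.cp z hzY] at h4
          exact (mem_sdiff.mp hz).2 (mem_YS.mpr ⟨hzY, by rw [h4]; exact ht⟩)
      exact hok z hzE x hxE hzx
    · push Not at ht
      have hxYS : x ∉ YS E Y S := fun h => by
        rcases (mem_YS.mp h).2 with h | h
        · exact h ht.1
        · exact ht.2 h
      have hxu : x ∉ unnat (NS N N1 S) := fun h => hx (mem_sdiff.mpr ⟨h, hxYS⟩)
      have hxN : x ∈ N (topOf x) := by
        have := HS.mem_iff.mpr ⟨hxu, rfl⟩
        rwa [NS_not ht.2] at this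
      have hzN : z ∉ N (topOf x) := by
        intro h
        refine mem_unnat.mp (mem_sdiff.mp hz).1 (topOf x) ?_
        rw [NS_not ht.2]
        exact h
      have h6 : thS E θ θ1 Y τ S x = θ (topOf x) x := by
        unfold thS
        rw [thX_not hxYS, tS_not ht.2]
      rw [h6]
      by_contra hcon
      push Not at hcon
      exact ht.2 (hK (mem_KE.mpr ⟨ht.1, z, x, hzx, hxN, hzN, hcon⟩))

end

end Pool.Agent.GaussPoset.Ew

end

/-! From `Pool.Agent.W_448s7_h27.EwL` -/

section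

/-!
Windows with defect tops: the purely combinatorial part, for arbitrary label caps
(MP_448cb3_co).
-/

namespace Pool.Agent.GaussPoset.El

set_option linter.unusedSectionVars false

open Polynomial Finset Ew

universe u

variable {P : Type u} [Fintype P] [PartialOrder P] [DecidableEq P]
variable {i : ℕ} {N N1 : Tops P → Finset P} {b : Tops P → ℕ} {θ θ1 : Tops P → P → ℕ}
  {E S : Finset (Tops P)} {Y : Finset P} {τ : P → P}

/-- the combinatorial context of the window `i` with the defect tops `E`, label caps `θ` (fine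
system) and `θ1` (coarse system) -/
structure EL (i : ℕ) (E : Finset (Tops P)) (N N1 : Tops P → Finset P)
    (θ θ1 : Tops P → P → ℕ) (Y : Finset P) (τ : P → P) : Prop where
  gr : GradedBelow P
  sys : ∀ S, S ⊆ E → NatSys (NS N N1 S)
  low : ∀ S, S ⊆ E → ∀ x ∈ unnat (NS N N1 S), i < lev x
  cap : ∀ S, S ⊆ E → ∀ x, x ∉ unnat (NS N N1 S) → tS θ θ1 S (topOf x) x ≤ lev x - i
  sub : ∀ t ∈ E, N t ⊆ N1 t
  le1 : ∀ t ∈ E, ∀ x ∈ N t, θ t x ≤ θ1 t x
  le2 : ∀ t ∈ E, ∀ x ∈ N1 t, x ∉ N t → ∀ y ∈ N t, x ≤ y → θ t y ≤ θ1 t x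
  tw : TwSys (unnat (NS N N1 E)) Y topOf τ
  twE : ∀ x ∈ Y, topOf x ∈ E → τ x ∈ N (topOf x) ∧
    ∀ y, x ⋖ y → θ (topOf x) y ≤ θ1 (topOf x) (τ x)

section

variable (W : EL i E N N1 θ θ1 Y τ)

include W

lemma EL.natSysS (hS : S ⊆ E) : NatSys (NS N N1 S) := W.sys S hS

lemma EL.natSys : NatSys N := by
  have h := W.sys ∅ (Finset.empty_subset E)
  have h1 : NS N N1 (∅ : Finset (Tops P)) = N := funext fun t => NS_not (Finset.notMem_empty t)
  rwa [h1] at h

lemma EL.NS_mono (hS : S ⊆ E) (t : Tops P) : NS N N1 S t ⊆ NS N N1 E t := by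
  by_cases h : t ∈ S
  · rw [NS_of h, NS_of (hS h)]
  · rw [NS_not h]
    by_cases h' : t ∈ E
    · rw [NS_of h']
      exact W.sub t h'
    · rw [NS_not h']

lemma EL.unnat_anti (hS : S ⊆ E) : unnat (NS N N1 E) ⊆ unnat (NS N N1 S) := by
  intro x hx
  rw [mem_unnat] at hx ⊢
  exact fun t h => hx t (W.NS_mono hS t h)

/-- elements natural in both systems -/
lemma EL.nat_of_not (hS : S ⊆ E) {x : P} (hx : x ∉ unnat (NS N N1 E))
    (ht : topOf x ∉ E ∨ topOf x ∈ S) : x ∉ unnat (NS N N1 S) := by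
  have HE := W.natSysS (Finset.Subset.refl E)
  have h1 : x ∈ NS N N1 E (topOf x) := HE.mem_iff.mpr ⟨hx, rfl⟩
  intro h
  refine mem_unnat.mp h (topOf x) ?_
  rcases ht with ht | ht
  · rw [NS_not ht] at h1
    rw [NS_not (fun h => ht (hS h))]
    exact h1
  · rw [NS_of (hS ht)] at h1
    rw [NS_of ht]
    exact h1

theorem EL.twS (hS : S ⊆ E) : TwSys (unnat (NS N N1 S)) (YS E Y S) topOf τ where
  sub := fun x hx => W.unnat_anti hS (W.tw.sub (mem_YS.mp hx).1)
  nat := by
    intro x hx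
    obtain ⟨hx, ht⟩ := mem_YS.mp hx
    refine W.nat_of_not hS (W.tw.nat x hx) ?_
    rw [W.tw.cp x hx]
    exact ht
  up := fun x hx => W.tw.up x (mem_YS.mp hx).1
  inj := fun x hx y hy => W.tw.inj x (mem_YS.mp hx).1 y (mem_YS.mp hy).1
  anti := fun x hx y hy => W.tw.anti x (mem_YS.mp hx).1 y (mem_YS.mp hy).1
  cp := fun x hx => W.tw.cp x (mem_YS.mp hx).1

/-- an element of a top outside `E` or in `S` is a twin in both systems or in none -/
lemma YS_iff {x : P} (ht : topOf x ∉ E ∨ topOf x ∈ S) : x ∈ YS E Y S ↔ x ∈ Y := by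
  rw [mem_YS]
  exact ⟨fun h => h.1, fun h => ⟨h, ht⟩⟩

/-- the thresholds of two systems agree away from `E \ S` -/
lemma EL.thS_eq (hS : S ⊆ E) {x : P} (ht : topOf x ∉ E ∨ topOf x ∈ S) :
    Ew.thS E θ θ1 Y τ S x = Ew.thS E θ θ1 Y τ E x := by
  have key : ∀ y, topOf y ∉ E ∨ topOf y ∈ S → tS θ θ1 S (topOf y) y = tS θ θ1 E (topOf y) y := by
    intro y hy
    rcases hy with hy | hy
    · rw [tS_not (fun h => hy (hS h)), tS_not hy]
    · rw [tS_of hy, tS_of (hS hy)]
  unfold Ew.thS
  rw [YS_self]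
  by_cases hx : x ∈ Y
  · rw [thX_of ((YS_iff W ht).mpr hx), thX_of hx]
    refine key _ ?_
    rw [W.tw.cp x hx]
    exact ht
  · rw [thX_not (fun h => hx (mem_YS.mp h).1), thX_not hx]
    exact key _ ht

lemma EL.lev_RS (hS : S ⊆ E) : ∀ x ∈ RS E N N1 Y S, i < lev x :=
  fun x hx => W.low S hS x (mem_sdiff.mp hx).1

lemma EL.th_le (hS : S ⊆ E) {x : P} (hx : x ∉ RS E N N1 Y S) :
    Ew.thS E θ θ1 Y τ S x ≤ lev x - i := by
  have key : ∀ y, y ∉ unnat (NS N N1 S) → tS θ θ1 S (topOf y) y ≤ lev y - i :=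
    fun y hy => W.cap S hS y hy
  unfold Ew.thS
  by_cases hY : x ∈ YS E Y S
  · rw [thX_of hY]
    have h1 := key _ ((W.twS hS).nat x hY)
    have h2 : lev (τ x) = lev x := lev_eq_of_up ((W.twS hS).up x hY)
    rwa [h2] at h1
  · rw [thX_not hY]
    refine key _ fun h => hx ?_
    exact mem_sdiff.mpr ⟨h, hY⟩

lemma EL.RS_sub (hS : S ⊆ E) : RS E N N1 Y E ⊆ RS E N N1 Y S := by
  intro x hx
  have h := mem_sdiff.mp hx
  rw [YS_self] at h
  exact mem_sdiff.mpr ⟨W.unnat_anti hS h.1, fun h' => h.2 (mem_YS.mp h').1⟩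

end

section

variable (W : EL i E N N1 θ θ1 Y τ)

include W

/-- an element below a natural element of a top of `E` which is not natural is in the far set -/
lemma EL.far_of_cov (hS : S ⊆ E) {t : Tops P} (htE : t ∈ E) (htS : t ∉ S) {z x : P} (hzx : z ⋖ x)
    (hx : x ∈ N t) (hz : z ∉ N t) : z ∈ RS E N N1 Y S ∧ x ∉ RS E N N1 Y S ∧
      Ew.thS E θ θ1 Y τ S x = θ t x := by
  have HS := W.natSysS hS
  have HE := W.natSysS (Finset.Subset.refl E)
  have hx' : x ∈ NS N N1 S t := by rw [NS_not htS]; exact hx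
  have htop : topOf x = t := HS.topOf_eq hx'
  have hxu : x ∉ unnat (NS N N1 S) := (HS.mem_iff.mp hx').1
  refine ⟨mem_sdiff.mpr ⟨?_, ?_⟩, fun h => hxu (mem_sdiff.mp h).1, ?_⟩
  · rw [mem_unnat]
    intro s hs
    have h1 : x ∈ NS N N1 S s := HS.up s z hs x hzx.1.le
    have h2 : s = t := (HS.topOf_eq h1).symm.trans htop
    rw [h2, NS_not htS] at hs
    exact hz hs
  · intro hzY
    obtain ⟨hzY, h1⟩ := mem_YS.mp hzY
    have h2 := W.tw.nat z hzY
    have h3 : τ z < x := (W.tw.up z hzY x).mpr hzx.1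
    have h4 : topOf (τ z) = topOf x := HE.cp _ _ h3.le h2
    rw [W.tw.cp z hzY, htop] at h4
    rw [h4] at h1
    rcases h1 with h1 | h1
    · exact h1 htE
    · exact htS h1
  · have hxY : x ∉ YS E Y S := fun h => hxu ((W.twS hS).sub h)
    unfold Ew.thS
    rw [thX_not hxY, htop, tS_not htS]

/-- **The equivalence.** -/
theorem EL.ok_iff_S (hS : S ⊆ E) {e : P → ℕ} {F : Finset P} (hV : Vd i e F) :
    Ok (RS E N N1 Y S) (Ew.thS E θ θ1 Y τ S) e ↔
      (Ok (RS E N N1 Y E) (Ew.thS E θ θ1 Y τ E) e ∧ KE E N θ e ⊆ S) := by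
  classical
  have HS := W.natSysS hS
  have HE := W.natSysS (Finset.Subset.refl E)
  have hsub := W.RS_sub hS
  have hmono : ∀ z x1 x2 : P, z ∈ RS E N N1 Y S → x1 ∈ RS E N N1 Y S → x2 ∉ RS E N N1 Y S →
      z ≤ x1 → x1 ⋖ x2 → e x1 ≤ Ew.thS E θ θ1 Y τ S x2 → e z ≤ e x1 := by
    intro z x1 x2 hz h1 h2 hzx hc he
    have h3 := W.th_le hS h2
    have hl2 := W.gr.lev_covBy hc
    have hl1 := W.lev_RS hS x1 h1
    have hlz := W.lev_RS hS z hz
    have hx1F : x1 ∉ F := by
      intro hF
      have := sub_le_of_mem hV hF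
      omega
    have hzF : z ∉ F := fun h => hx1F (hV.1 z x1 hzx h)
    have h4 := hV.2.2.1 z x1 hzx hzF hx1F
    rw [rho_of_lt hlz, rho_of_lt hl1] at h4
    exact_mod_cast h4
  have hYE : ∀ x ∈ Y, x ∈ unnat (NS N N1 E) := fun x hx => W.tw.sub hx
  constructor
  · intro hok
    refine ⟨?_, ?_⟩
    · intro z hz x hx hzx
      have hzS := hsub hz
      by_cases hxS : x ∈ RS E N N1 Y S
      · -- `x` is an own element of a top of `E \ S`
        have ht : topOf x ∈ E ∧ topOf x ∉ S := by
          by_contra hcon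
          have ht' : topOf x ∉ E ∨ topOf x ∈ S := by
            by_cases h : topOf x ∈ E
            · exact Or.inr (by by_contra h'; exact hcon ⟨h, h'⟩)
            · exact Or.inl h
          obtain ⟨h1, h2⟩ := mem_sdiff.mp hxS
          rw [YS_iff W ht'] at h2
          refine hx (mem_sdiff.mpr ⟨?_, by rw [YS_self]; exact h2⟩)
          by_contra h3
          exact W.nat_of_not hS h3 ht' h1
        by_cases hxY : x ∈ Y
        · -- a twin
          obtain ⟨g1, g2⟩ := W.twE x hxY ht.1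
          have hlx := W.lev_RS hS x hxS
          have hlt : x < (topOf x : P) := by
            refine lt_of_le_of_ne (le_topOf x) fun h => ?_
            have h2 : lev (topOf x : P) = 0 := (topOf x).2
            rw [← h] at h2
            omega
          obtain ⟨y, hy, -⟩ := exists_covBy_le_of_lt hlt
          have hyN : y ∈ N (topOf x) :=
            W.natSys.up _ _ g1 y ((W.tw.up x hxY y).mpr hy.1).le
          have hxN : x ∉ N (topOf x) := fun h => by
            have h1 := hYE x hxY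
            refine mem_unnat.mp h1 (topOf x) ?_
            rw [NS_of ht.1]
            exact W.sub _ ht.1 h
          obtain ⟨f1, f2, f3⟩ := W.far_of_cov hS ht.1 ht.2 hy hyN hxN
          have h1 := hok x hxS y f2 hy
          have h2 := hmono z x y hzS hxS f2 hzx.1.le hy h1
          rw [f3] at h1
          have h3 := g2 y hy
          have h4 : Ew.thS E θ θ1 Y τ E x = θ1 (topOf x) (τ x) := by
            unfold Ew.thS
            rw [YS_self, thX_of hxY, W.tw.cp x hxY, tS_of ht.1]
          rw [h4]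
          omega
        · -- an element of the larger natural set
          have hxu : x ∉ unnat (NS N N1 E) := fun h =>
            hx (mem_sdiff.mpr ⟨h, by rw [YS_self]; exact hxY⟩)
          have hxN1 : x ∈ N1 (topOf x) := by
            have := HE.mem_iff.mpr ⟨hxu, rfl⟩
            rwa [NS_of ht.1] at this
          have hxN : x ∉ N (topOf x) := fun h => by
            refine mem_unnat.mp (mem_sdiff.mp hxS).1 (topOf x) ?_
            rw [NS_not ht.2]
            exact h
          have htop0 : (topOf x : P) ∉ unnat (NS N N1 S) := by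
            intro h
            have h2 : lev (topOf x : P) = 0 := (topOf x).2
            have h3 := W.low S hS _ h
            omega
          have hne : (topOf x : P) ∉ RS E N N1 Y S := fun h => htop0 (mem_sdiff.mp h).1
          obtain ⟨x1, x2, f1, f2, f3, f4, f5⟩ := exists_exit hxS hne (le_topOf x)
          have hxx2 : x ≤ x2 := f1.trans f3.1.le
          have hx2E : x2 ∈ NS N N1 E (topOf x) :=
            HE.up _ x (HE.mem_iff.mpr ⟨hxu, rfl⟩) x2 hxx2
          have hx2u : x2 ∉ unnat (NS N N1 E) := (HE.mem_iff.mp hx2E).1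
          have hx2S : x2 ∉ unnat (NS N N1 S) := by
            intro h
            refine f4 (mem_sdiff.mpr ⟨h, fun h' => hx2u (hYE x2 (mem_YS.mp h').1)⟩)
          have hx2N : x2 ∈ N (topOf x) := by
            have h1 := HS.mem_iff.mpr ⟨hx2S, rfl⟩
            rw [(HE.mem_iff.mp hx2E).2, NS_not ht.2] at h1
            exact h1
          have hx1N : x1 ∉ N (topOf x) := fun h => by
            refine mem_unnat.mp (mem_sdiff.mp f2).1 (topOf x) ?_
            rw [NS_not ht.2]
            exact h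
          obtain ⟨k1, k2, k3⟩ := W.far_of_cov hS ht.1 ht.2 f3 hx2N hx1N
          have h1 := hok x1 f2 x2 f4 f3
          have h2 := hmono z x1 x2 hzS f2 f4 (hzx.1.le.trans f1) f3 h1
          rw [k3] at h1
          have h3 := W.le2 _ ht.1 x hxN1 hxN x2 hx2N hxx2
          have h4 : Ew.thS E θ θ1 Y τ E x = θ1 (topOf x) x := by
            unfold Ew.thS
            rw [YS_self, thX_not hxY, tS_of ht.1]
          rw [h4]
          omega
      · have h1 := hok z hzS x hxS hzx
        by_cases ht : topOf x ∉ E ∨ topOf x ∈ S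
        · rwa [W.thS_eq hS ht] at h1
        · push Not at ht
          have hxYS : x ∉ YS E Y S := fun h => by
            rcases (mem_YS.mp h).2 with h | h
            · exact h ht.1
            · exact ht.2 h
          have hxu : x ∉ unnat (NS N N1 S) := fun h => hxS (mem_sdiff.mpr ⟨h, hxYS⟩)
          have hxN : x ∈ N (topOf x) := by
            have := HS.mem_iff.mpr ⟨hxu, rfl⟩
            rwa [NS_not ht.2] at this
          have hxY : x ∉ Y := fun h => by
            refine mem_unnat.mp (hYE x h) (topOf x) ?_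
            rw [NS_of ht.1]
            exact W.sub _ ht.1 hxN
          have h5 : Ew.thS E θ θ1 Y τ S x = θ (topOf x) x := by
            unfold Ew.thS
            rw [thX_not hxYS, tS_not ht.2]
          have h6 : Ew.thS E θ θ1 Y τ E x = θ1 (topOf x) x := by
            unfold Ew.thS
            rw [YS_self, thX_not hxY, tS_of ht.1]
          have h7 := W.le1 _ ht.1 x hxN
          rw [h5] at h1
          rw [h6]
          omega
    · intro t ht
      obtain ⟨htE, z, x, hzx, hx, hz, hlt⟩ := mem_KE.mp ht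
      by_contra htS
      obtain ⟨g1, g2, g3⟩ := W.far_of_cov hS htE htS hzx hx hz
      have h1 := hok z g1 x g2 hzx
      omega
  · rintro ⟨hok, hK⟩ z hz x hx hzx
    by_cases ht : topOf x ∉ E ∨ topOf x ∈ S
    · rw [W.thS_eq hS ht]
      have hxE : x ∉ RS E N N1 Y E := fun h => hx (hsub h)
      have hzE : z ∈ RS E N N1 Y E := by
        refine mem_sdiff.mpr ⟨?_, ?_⟩
        · by_contra hcon
          have h1 : topOf z = topOf x := HE.cp z x hzx.1.le hcon
          exact W.nat_of_not hS hcon (by rw [h1]; exact ht) (mem_sdiff.mp hz).1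
        · rw [YS_self]
          intro hzY
          have h2 := W.tw.nat z hzY
          have h3 : τ z < x := (W.tw.up z hzY x).mpr hzx.1
          have h4 : topOf (τ z) = topOf x := HE.cp _ _ h3.le h2
          rw [W.tw.cp z hzY] at h4
          exact (mem_sdiff.mp hz).2 (mem_YS.mpr ⟨hzY, by rw [h4]; exact ht⟩)
      exact hok z hzE x hxE hzx
    · push Not at ht
      have hxYS : x ∉ YS E Y S := fun h => by
        rcases (mem_YS.mp h).2 with h | h
        · exact h ht.1
        · exact ht.2 h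
      have hxu : x ∉ unnat (NS N N1 S) := fun h => hx (mem_sdiff.mpr ⟨h, hxYS⟩)
      have hxN : x ∈ N (topOf x) := by
        have := HS.mem_iff.mpr ⟨hxu, rfl⟩
        rwa [NS_not ht.2] at this
      have hzN : z ∉ N (topOf x) := by
        intro h
        refine mem_unnat.mp (mem_sdiff.mp hz).1 (topOf x) ?_
        rw [NS_not ht.2]
        exact h
      have h6 : Ew.thS E θ θ1 Y τ S x = θ (topOf x) x := by
        unfold Ew.thS
        rw [thX_not hxYS, tS_not ht.2]
      rw [h6]
      by_contra hcon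
      push Not at hcon
      exact ht.2 (hK (mem_KE.mpr ⟨ht.1, z, x, hzx, hxN, hzN, hcon⟩))

end

end Pool.Agent.GaussPoset.El

end

/-! From `Pool.Agent.W_448s7_h27.EwP` -/

section

/-!
Windows with defect tops: a hit top does no harm as long as its own energy is small
(MP_448cb3_co).
-/

namespace Pool.Agent.GaussPoset.El

set_option linter.unusedSectionVars false

open Polynomial Finset Ew

universe u

variable {P : Type u} [Fintype P] [PartialOrder P] [DecidableEq P]
variable {i : ℕ} {N N1 : Tops P → Finset P} {b : Tops P → ℕ} {θ θ1 : Tops P → P → ℕ}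
  {E S : Finset (Tops P)} {Y : Finset P} {τ : P → P}

open Classical in
/-- the largest label directly below `x` in `A` -/
noncomputable def bl (A : Finset P) (e : P → ℕ) (x : P) : ℕ := (A.filter (fun z => z ⋖ x)).sup e

lemma le_bl {A : Finset P} {e : P → ℕ} {z x : P} (hz : z ∈ A) (hzx : z ⋖ x) : e z ≤ bl A e x := by
  classical
  exact Finset.le_sup (f := e) (mem_filter.mpr ⟨hz, hzx⟩)

lemma bl_le {A : Finset P} {e : P → ℕ} {x : P} {c : ℕ} (h : ∀ z ∈ A, z ⋖ x → e z ≤ c) :
    bl A e x ≤ c := by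
  classical
  exact Finset.sup_le fun z hz => h z (mem_filter.mp hz).1 (mem_filter.mp hz).2

lemma bl_congr {A A' : Finset P} {e : P → ℕ} {x : P} (h : ∀ z, z ⋖ x → (z ∈ A ↔ z ∈ A')) :
    bl A e x = bl A' e x := by
  classical
  unfold bl
  congr 1
  ext z
  simp only [mem_filter]
  exact ⟨fun g => ⟨(h z g.2).mp g.1, g.2⟩, fun g => ⟨(h z g.2).mpr g.1, g.2⟩⟩

/-- the fine component `t` with the labels and the energy of `e` is good -/
def GoodE (N : Tops P → Finset P) (good : Tops P → (P → ℕ) → ℕ → Prop) (e : P → ℕ)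
    (t : Tops P) : Prop := good t (bl (univ \ N t) e) (∑ x ∈ N t, e x)

open Classical in
/-- the bad tops -/
noncomputable def KG (E : Finset (Tops P)) (N : Tops P → Finset P)
    (good : Tops P → (P → ℕ) → ℕ → Prop) (e : P → ℕ) : Finset (Tops P) :=
  E.filter (fun t => ¬ GoodE N good e t)

lemma mem_KG {good : Tops P → (P → ℕ) → ℕ → Prop} {e : P → ℕ} {t : Tops P} :
    t ∈ KG E N good e ↔ t ∈ E ∧ ¬ GoodE N good e t := by
  classical
  unfold KG
  rw [mem_filter]

/-- the condition of the component `t` in the system `S` -/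
def GS (E : Finset (Tops P)) (N N1 : Tops P → Finset P) (θ θ1 : Tops P → P → ℕ) (Y : Finset P)
    (τ : P → P) (good : Tops P → (P → ℕ) → ℕ → Prop) (S : Finset (Tops P)) (t : Tops P)
    (β : P → ℕ) (m : ℕ) : Prop :=
  (t ∈ E ∧ t ∉ S → good t β m) ∧ (¬ (t ∈ E ∧ t ∉ S) → ∀ x, x ∉ RS E N N1 Y S → topOf x = t →
    β x ≤ Ew.thS E θ θ1 Y τ S x)

open Classical in
/-- the allowed configurations of the system `S` -/
def Allowed (E : Finset (Tops P)) (N N1 : Tops P → Finset P) (θ θ1 : Tops P → P → ℕ)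
    (Y : Finset P) (τ : P → P) (good : Tops P → (P → ℕ) → ℕ → Prop) (S : Finset (Tops P))
    (e : P → ℕ) (F : Finset P) : Prop :=
  (∀ z ∈ RS E N N1 Y S, z ∉ F) ∧ ∀ t, GS E N N1 θ θ1 Y τ good S t (bl (RS E N N1 Y S) e)
    (∑ x ∈ univ.filter (fun x => x ∉ RS E N N1 Y S ∧ topOf x = t), e x)

section

variable (W : EL i E N N1 θ θ1 Y τ)

include W

/-- the part of a fine defect top -/
lemma EL.part_iff (hS : S ⊆ E) {t : Tops P} (htE : t ∈ E) (htS : t ∉ S) {x : P} :
    (x ∉ RS E N N1 Y S ∧ topOf x = t) ↔ x ∈ N t := by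
  have HS := W.natSysS hS
  constructor
  · rintro ⟨h1, h2⟩
    have h3 : x ∉ unnat (NS N N1 S) := by
      intro h
      refine h1 (mem_sdiff.mpr ⟨h, fun hY => ?_⟩)
      rcases (mem_YS.mp hY).2 with h' | h'
      · exact h' (h2 ▸ htE)
      · exact htS (h2 ▸ h')
    have h4 := HS.mem_iff.mpr ⟨h3, h2⟩
    rwa [NS_not htS] at h4
  · intro h
    have h' : x ∈ NS N N1 S t := by rw [NS_not htS]; exact h
    exact ⟨fun h1 => (HS.mem_iff.mp h').1 (mem_sdiff.mp h1).1, HS.topOf_eq h'⟩

lemma EL.bl_part (hS : S ⊆ E) {t : Tops P} (htE : t ∈ E) (htS : t ∉ S) {e : P → ℕ} {x : P}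
    (hx : x ∈ N t) : bl (RS E N N1 Y S) e x = bl (univ \ N t) e x := by
  refine bl_congr fun z hzx => ?_
  rw [mem_sdiff]
  constructor
  · intro h
    exact ⟨mem_univ _, fun h' => ((W.part_iff hS htE htS).mpr h').1 h⟩
  · intro h
    exact (W.far_of_cov hS htE htS hzx hx h.2).1

/-- labels at most the thresholds keep the far set off the filter -/
lemma EL.off (hS : S ⊆ E) {e : P → ℕ} {F : Finset P} (hV : Vd i e F)
    (hok : Ok (RS E N N1 Y S) (Ew.thS E θ θ1 Y τ S) e) : ∀ z ∈ RS E N N1 Y S, z ∉ F := by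
  intro z hz hzF
  have hne : (topOf z : P) ∉ RS E N N1 Y S := by
    intro h
    have h2 : lev (topOf z : P) = 0 := (topOf z).2
    have h3 := W.lev_RS hS _ h
    omega
  obtain ⟨x1, x2, f1, f2, f3, f4, f5⟩ := exists_exit hz hne (le_topOf z)
  have h1 := hok x1 f2 x2 f4 f3
  have h2 := W.th_le hS f4
  have h3 := sub_le_of_mem hV (hV.1 z x1 f1 hzF)
  have h4 := W.gr.lev_covBy f3
  have h5 := W.lev_RS hS x1 f2
  omega

/-- **The equivalence with energies.** -/
theorem EL.allowed_iff (hS : S ⊆ E) {good : Tops P → (P → ℕ) → ℕ → Prop}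
    (hloc : ∀ t ∈ E, ∀ β β' : P → ℕ, (∀ x ∈ N t, β x = β' x) → ∀ m, good t β m → good t β' m)
    (hcap : ∀ t ∈ E, ∀ β m, good t β m → ∀ x ∈ N t, β x ≤ θ t x)
    {e : P → ℕ} {F : Finset P} (hV : Vd i e F) :
    Allowed E N N1 θ θ1 Y τ good S e F ↔
      (Ok (RS E N N1 Y E) (Ew.thS E θ θ1 Y τ E) e ∧ KG E N good e ⊆ S) := by
  classical
  have hth : ∀ t ∈ E, t ∉ S → ∀ x ∈ N t, Ew.thS E θ θ1 Y τ S x = θ t x := by
    intro t htE htS x hx
    obtain ⟨h1, h2⟩ := (W.part_iff hS htE htS).mpr hx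
    have hxY : x ∉ YS E Y S := by
      intro h
      rcases (mem_YS.mp h).2 with h' | h'
      · exact h' (h2 ▸ htE)
      · exact htS (h2 ▸ h')
    unfold Ew.thS
    rw [thX_not hxY, h2, tS_not htS]
  have hsum : ∀ t ∈ E, t ∉ S → ∑ x ∈ univ.filter (fun x => x ∉ RS E N N1 Y S ∧ topOf x = t), e x =
      ∑ x ∈ N t, e x := by
    intro t htE htS
    refine Finset.sum_congr ?_ (fun _ _ => rfl)
    ext x
    rw [mem_filter]
    exact ⟨fun h => (W.part_iff hS htE htS).mp h.2,
      fun h => ⟨mem_univ _, (W.part_iff hS htE htS).mpr h⟩⟩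
  constructor
  · rintro ⟨h1, h2⟩
    have hok : Ok (RS E N N1 Y S) (Ew.thS E θ θ1 Y τ S) e := by
      intro z hz x hx hzx
      refine (le_bl hz hzx).trans ?_
      by_cases ht : topOf x ∈ E ∧ topOf x ∉ S
      · have hxN := (W.part_iff hS ht.1 ht.2).mp ⟨hx, rfl⟩
        rw [hth _ ht.1 ht.2 x hxN]
        exact hcap _ ht.1 _ _ ((h2 (topOf x)).1 ht) x hxN
      · exact (h2 (topOf x)).2 ht x hx rfl
    refine ⟨((W.ok_iff_S hS hV).mp hok).1, fun t ht => ?_⟩
    rw [mem_KG] at ht
    by_contra htS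
    refine ht.2 ?_
    have h3 := (h2 t).1 ⟨ht.1, htS⟩
    rw [hsum t ht.1 htS] at h3
    exact hloc t ht.1 _ _ (fun x hx => W.bl_part hS ht.1 htS hx) _ h3
  · rintro ⟨h1, h2⟩
    have hgood : ∀ t ∈ E, t ∉ S → GoodE N good e t := by
      intro t ht htS
      by_contra hcon
      exact htS (h2 (mem_KG.mpr ⟨ht, hcon⟩))
    have hKE : KE E N θ e ⊆ S := by
      intro t ht
      obtain ⟨htE, z, x, hzx, hx, hz, hlt⟩ := mem_KE.mp ht
      by_contra htS
      have h3 := hcap t htE _ _ (hgood t htE htS) x hx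
      have h4 : e z ≤ bl (univ \ N t) e x := le_bl (mem_sdiff.mpr ⟨mem_univ _, hz⟩) hzx
      omega
    have hok := (W.ok_iff_S hS hV).mpr ⟨h1, hKE⟩
    refine ⟨W.off hS hV hok, fun t => ⟨fun ht => ?_, fun _ x hx _ => bl_le fun z hz hzx =>
      hok z hz x hx hzx⟩⟩
    rw [hsum t ht.1 ht.2]
    exact hloc t ht.1 _ _ (fun x hx => (W.bl_part hS ht.1 ht.2 hx).symm) _ (hgood t ht.1 ht.2)

end

end Pool.Agent.GaussPoset.El

end

/-! From `Pool.Agent.W_448pg_h74.Ge` -/

section

/-!
The factor of one component in the systems `N^S` (MP_448cb3_co).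
-/

namespace Pool.Agent.GaussPoset.Ew

set_option linter.unusedSectionVars false

open Polynomial Finset

universe u

variable {P : Type u} [Fintype P] [PartialOrder P] [DecidableEq P]
variable {i : ℕ} {N N1 : Tops P → Finset P} {b : Tops P → ℕ} {θ θ1 : Tops P → P → ℕ}
  {E S : Finset (Tops P)} {Y : Finset P} {τ : P → P}

/-- the factor of the component `t` in the system `S` -/
theorem EW.factor (W : EW i E N N1 b θ θ1 Y τ) (hS : S ⊆ E) (n0 : ℕ)
    (hcost : ∀ x ∈ Y, n0 ≤ tcst i (thS E θ θ1 Y τ E) (τ x, x)) (t : Tops P) (β : P → ℕ)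
    (hβ : ∀ x, x ∉ RS E N N1 Y S → topOf x = t → β x ≤ thS E θ θ1 Y τ S x) (m : ℕ)
    (hm : m < n0) :
    (1 + X : ℤ[X]) ^ (bS b S t) ∣
      ZB (P := {x : P // x ∉ RS E N N1 Y S ∧ topOf x = t}) i ∅ 0 (fun x => β x) m := by
  classical
  choose B hB using W.natS hS
  have HN := natSys_of_tops hB
  have T := W.twS hS
  have htw := W.twnS hS
  have hRlev : ∀ x ∈ unnat (NS N N1 S), i < lev x := by
    intro x hx
    by_contra hcon
    exact low_natural hB (not_lt.mp hcon) hx
  refine GaussPoset.factor (ι := Tops P) (T.lower HN.lower)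
    (fun x hx => hRlev x (mem_sdiff.mp hx).1) topOf (T.cp' HN.cp) (bS b S)
    (thS E θ θ1 Y τ S) (fun x => x ∉ unnat (NS N N1 S) ∧ B (topOf x) x)
    (fun x hx h => h.1 (mem_sdiff.mp hx).1) (pairsX (YS E Y S) τ) n0 ?_ ?_ ?_ ?_ t β hβ m hm
  · intro t
    refine CompData.toTwins ((hB t).data _ HN rfl _ _ ?_ ?_) T HN.lower hRlev
      (fun x hx h => h.1 hx)
    · intro x hx
      simp only [HN.topOf_eq hx]
    · intro x hx
      simp only [HN.topOf_eq hx, (HN.mem_iff.mp hx).1, not_false_eq_true, true_and]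
  · intro t ht
    rw [mem_pairsX] at ht
    have h1 := htw t.2 ht.1
    rw [← ht.2] at h1
    refine h1.pair ?_
    have h2 := hcost t.2 (mem_YS.mp ht.1).1
    rw [← W.tcst_eq hS ht.1, ← ht.2] at h2
    exact h2
  · intro t ht y hy
    rw [mem_pairsX] at ht
    exact mem_sdiff.mpr ⟨HN.lower y _ hy.le (T.sub ht.1), fun h => T.anti _ ht.1 y h hy⟩
  · intro t ht
    rw [mem_pairsX] at ht
    rw [mem_sdiff, mem_sdiff, ht.2]
    exact ⟨fun h => T.nat _ ht.1 h.1, fun h => h.2 ht.1⟩

end Pool.Agent.GaussPoset.Ew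

end

/-! From `Pool.Agent.W_448s7s_h5.TuD` -/

section

/-!
The window theorem with at most one hit top and twins of the least cost (MP_448cb3_co, S7).
-/

namespace Pool.Agent.GaussPoset

set_option linter.unusedSectionVars false

open Polynomial Finset

universe u

variable {P : Type u} [Fintype P] [PartialOrder P] [DecidableEq P]

section Gen

variable {κ : Type*} [Fintype κ] [DecidableEq κ]

/-- at most one defect -/
lemma ZQ_card_one (i n : ℕ) (Q : (P → ℕ) → Finset P → Prop)
    (K : (P → ℕ) → Finset P → Finset κ) (E : Finset κ) (hK : ∀ e F, K e F ⊆ E) :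
    ZQ i n (fun e F => Q e F ∧ (K e F).card ≤ 1) =
      ZQ i n (fun e F => Q e F ∧ K e F ⊆ ∅) +
      ∑ t ∈ E, (ZQ i n (fun e F => Q e F ∧ K e F ⊆ {t}) -
        ZQ i n (fun e F => Q e F ∧ K e F ⊆ ∅)) := by
  classical
  have h0 : ZQ i n (fun e F => Q e F ∧ K e F ⊆ ∅) = ZQ i n (fun e F => Q e F ∧ K e F = ∅) :=
    ZQ_congr fun e F _ _ => by rw [Finset.subset_empty]
  have h1 : ∀ t ∈ E, ZQ i n (fun e F => Q e F ∧ K e F ⊆ {t}) -
      ZQ i n (fun e F => Q e F ∧ K e F ⊆ ∅) = ZQ i n (fun e F => Q e F ∧ K e F = {t}) := by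
    intro t _
    rw [h0, ZQ_split i n (fun e F => Q e F ∧ K e F ⊆ {t}) (fun e F => K e F = ∅)]
    have a1 : ZQ i n (fun e F => (Q e F ∧ K e F ⊆ {t}) ∧ K e F = ∅) =
        ZQ i n (fun e F => Q e F ∧ K e F = ∅) :=
      ZQ_congr fun e F _ _ =>
        ⟨fun h => ⟨h.1.1, h.2⟩, fun h => ⟨⟨h.1, by rw [h.2]; exact empty_subset _⟩, h.2⟩⟩
    have a2 : ZQ i n (fun e F => (Q e F ∧ K e F ⊆ {t}) ∧ ¬ K e F = ∅) =
        ZQ i n (fun e F => Q e F ∧ K e F = {t}) :=
      ZQ_congr fun e F _ _ => by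
        rw [Finset.subset_singleton_iff]
        constructor
        · rintro ⟨⟨a, b | b⟩, c⟩
          · exact absurd b c
          · exact ⟨a, b⟩
        · rintro ⟨a, b⟩
          exact ⟨⟨a, Or.inr b⟩, by rw [b]; exact singleton_ne_empty t⟩
    rw [a1, a2]
    ring
  rw [Finset.sum_congr rfl h1, h0]
  have h2 : ZQ i n (fun e F => Q e F ∧ (K e F).card ≤ 1) =
      ZQ i n (fun e F => Q e F ∧ K e F ∈ insert ∅ (E.image (fun t => ({t} : Finset κ)))) :=
    ZQ_congr fun e F _ _ => by
      rw [mem_insert, mem_image]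
      constructor
      · rintro ⟨a, b⟩
        refine ⟨a, ?_⟩
        rcases Nat.le_one_iff_eq_zero_or_eq_one.mp b with b | b
        · exact Or.inl (Finset.card_eq_zero.mp b)
        · obtain ⟨t, ht⟩ := Finset.card_eq_one.mp b
          refine Or.inr ⟨t, hK e F ?_, ht.symm⟩
          rw [ht]
          exact mem_singleton_self t
      · rintro ⟨a, b | ⟨t, -, b⟩⟩
        · exact ⟨a, by rw [b, Finset.card_empty]; exact Nat.zero_le _⟩
        · exact ⟨a, by rw [← b, Finset.card_singleton]⟩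
  rw [h2, ZQ_fiber, Finset.sum_insert, Finset.sum_image]
  · intro t _ t' _ h
    exact Finset.singleton_injective h
  · rw [mem_image]
    rintro ⟨t, -, h⟩
    exact singleton_ne_empty t h

/-- at most one defect, with corrections -/
lemma dvd_ZQ_one {i n : ℕ} {p : ℤ[X]} {Q : (P → ℕ) → Finset P → Prop}
    {K : (P → ℕ) → Finset P → Finset κ} (E : Finset κ) (hK : ∀ e F, K e F ⊆ E)
    {C0 : ℤ[X]} {C : κ → ℤ[X]} (h0 : p ∣ ZQ i n (fun e F => Q e F ∧ K e F ⊆ ∅) - C0)
    (h1 : ∀ t ∈ E, p ∣ ZQ i n (fun e F => Q e F ∧ K e F ⊆ {t}) - (C0 + C t)) :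
    p ∣ ZQ i n (fun e F => Q e F ∧ (K e F).card ≤ 1) - (C0 + ∑ t ∈ E, C t) := by
  rw [ZQ_card_one i n Q K E hK]
  have h2 : p ∣ ∑ t ∈ E, (ZQ i n (fun e F => Q e F ∧ K e F ⊆ {t}) -
        ZQ i n (fun e F => Q e F ∧ K e F ⊆ ∅) - C t) := by
    refine Finset.dvd_sum fun t ht => ?_
    have h3 := dvd_sub (h1 t ht) h0
    refine h3.trans (dvd_of_eq ?_)
    ring
  rw [Finset.sum_sub_distrib] at h2
  have h3 := dvd_add h0 h2
  refine h3.trans (dvd_of_eq ?_)
  ring

end Gen

section Far

variable {i : ℕ} {R : Finset P} {h : P → ℕ} {n : ℕ}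

lemma RB_eq_DG (hlev : ∀ x ∈ R, i < lev x) :
    RB i R (fun g => ∃ z ∈ bdR R, h z ≤ g z) n = DG i R h n := by
  classical
  unfold RB DG
  refine Finset.sum_congr rfl fun F _ => ?_
  refine Finset.sum_congr ?_ (fun _ _ => rfl)
  ext e
  simp only [mem_filter]
  refine and_congr_right fun _ => ?_
  constructor
  · rintro ⟨hV, h1⟩
    refine ⟨hV, ?_⟩
    by_contra hcon
    push Not at hcon
    rcases h1 with ⟨x, hx, hxF⟩ | ⟨z, hz, h1⟩
    · exact not_mem_of_not_dg hlev hV hcon x hx hxF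
    · rw [lbl_of (mem_filter.mp hz).1] at h1
      exact hcon z hz (Or.inr h1)
  · rintro ⟨hV, z, hz, h1⟩
    refine ⟨hV, ?_⟩
    rcases h1 with h1 | h1
    · exact Or.inl ⟨z, (mem_filter.mp hz).1, h1⟩
    · right
      refine ⟨z, hz, ?_⟩
      rw [lbl_of (mem_filter.mp hz).1]
      exact h1

/-- the part without dangerous elements, with twins -/
theorem FarX.dvd_ND {b : ℕ} {θ : P → ℕ} {Tw : Finset (P × P)} (H : FarX P i R b h θ Tw n) :
    (1 + X : ℤ[X]) ^ b ∣ ND i R h n -
      ∑ t ∈ Tw.filter (fun t => tcst i θ t = n), Tm i θ t := by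
  classical
  have hb : ¬ (fun g : P → ℕ => ∃ z ∈ bdR R, h z ≤ g z) 0 := by
    rintro ⟨z, hz, h1⟩
    have := H.one_le z hz
    have h2 : h z ≤ 0 := h1
    omega
  have h1 := dvd_Z_sub_RB (i := i) (R := R)
    (fun g => (fun g : P → ℕ => ∃ z ∈ bdR R, h z ≤ g z) g ∨ g = 0) ((1 + X : ℤ[X]) ^ b) n (by
      intro g hg0 hg
      simp only [not_or] at hg
      refine H.clean g hg0 (fun z hz => ?_) hg.2
      by_contra hcon
      exact hg.1 ⟨z, hz, not_lt.mp hcon⟩)
  rw [RB_or_zero hb, RB_eq_DG H.hlev, Z_split i R h] at h1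
  have h7 := dvd_add h1 H.zero
  refine h7.trans (dvd_of_eq ?_)
  ring

lemma Lt_congr {i : ℕ} {h h' : P → ℕ} {z : P} (hh : h z = h' z) : Lt i h z = Lt i h' z := by
  unfold Lt
  have h1 : nst i h z = nst i h' z := by
    unfold nst
    rw [hh]
  rw [h1, hh]

end Far

namespace Ew

variable {i : ℕ} {N N1 : Tops P → Finset P} {b : Tops P → ℕ} {θ θ1 : Tops P → P → ℕ}
  {E S : Finset (Tops P)} {Y : Finset P} {τ : P → P}

section

variable (W : EW i E N N1 b θ θ1 Y τ)

include W

/-- the twin terms of the system `S` -/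
lemma EW.tm_sum (hS : S ⊆ E) (n : ℕ) :
    ∑ t ∈ (pairsX (YS E Y S) τ).filter (fun t => tcst i (thS E θ θ1 Y τ S) t = n),
      Tm i (thS E θ θ1 Y τ S) t =
    ∑ x ∈ (YS E Y S).filter (fun x => tcst i (thS E θ θ1 Y τ E) (τ x, x) = n),
      Tm i (thS E θ θ1 Y τ E) (τ x, x) := by
  classical
  unfold pairsX
  rw [Finset.filter_image, Finset.sum_image]
  · refine Finset.sum_congr (Finset.filter_congr fun x hx => ?_) fun x hx => ?_
    · rw [W.tcst_eq hS hx]
    · have hx' := (mem_filter.mp hx).1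
      obtain ⟨hxY, ht⟩ := mem_YS.mp hx'
      have hτ : topOf (τ x) ∉ E ∨ topOf (τ x) ∈ S := by rw [W.tw.cp x hxY]; exact ht
      unfold Tm
      rw [tcst_congr (t := (τ x, x)) (W.thS_eq hS hτ)]
  · intro x _ y _ h
    exact (Prod.mk.inj h).2

/-- the twins of the system `{t}` -/
lemma EW.YS_single {t : Tops P} (ht : t ∈ E) (f : P → ℤ[X]) (p : P → Prop) [DecidablePred p] :
    ∑ x ∈ (YS E Y {t}).filter p, f x =
      ∑ x ∈ (YS E Y ∅).filter p, f x + ∑ x ∈ Y.filter (fun x => topOf x = t ∧ p x), f x := by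
  classical
  rw [← Finset.sum_union]
  · refine Finset.sum_congr ?_ (fun _ _ => rfl)
    ext x
    rw [mem_union, mem_filter, mem_filter, mem_filter, mem_YS, mem_YS, mem_singleton]
    constructor
    · rintro ⟨⟨h1, h2 | h2⟩, h3⟩
      · exact Or.inl ⟨⟨h1, Or.inl h2⟩, h3⟩
      · exact Or.inr ⟨h1, h2, h3⟩
    · rintro (⟨⟨h1, h2 | h2⟩, h3⟩ | ⟨h1, h2, h3⟩)
      · exact ⟨⟨h1, Or.inl h2⟩, h3⟩
      · exact absurd h2 (Finset.notMem_empty _)
      · exact ⟨⟨h1, Or.inr h2⟩, h3⟩
  · rw [Finset.disjoint_left]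
    intro x h1 h2
    rw [mem_filter, mem_YS] at h1
    rw [mem_filter] at h2
    rcases h1.1.2 with h | h
    · exact h (by rw [h2.2.1]; exact ht)
    · exact absurd h (Finset.notMem_empty _)

/-- all twins -/
lemma EW.YS_all (f : P → ℤ[X]) (p : P → Prop) [DecidablePred p] :
    ∑ x ∈ (YS E Y ∅).filter p, f x +
      ∑ t ∈ E, ∑ x ∈ Y.filter (fun x => topOf x = t ∧ p x), f x = ∑ x ∈ Y.filter p, f x := by
  classical
  rw [← Finset.sum_filter_add_sum_filter_not (Y.filter p) (fun x => topOf x ∉ E) f]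
  congr 1
  · refine Finset.sum_congr ?_ (fun _ _ => rfl)
    ext x
    rw [mem_filter, mem_filter, mem_filter, mem_YS]
    constructor
    · rintro ⟨⟨h1, h2 | h2⟩, h3⟩
      · exact ⟨⟨h1, h3⟩, h2⟩
      · exact absurd h2 (Finset.notMem_empty _)
    · rintro ⟨⟨h1, h3⟩, h2⟩
      exact ⟨⟨h1, Or.inl h2⟩, h3⟩
  · rw [← Finset.sum_fiberwise_of_maps_to (s := (Y.filter p).filter (fun x => ¬ topOf x ∉ E))
      (t := E) (g := topOf)
      (fun x hx => by
        have h1 := (mem_filter.mp hx).2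
        push Not at h1
        exact h1) f]
    refine Finset.sum_congr rfl fun t ht => Finset.sum_congr ?_ (fun _ _ => rfl)
    ext x
    simp only [mem_filter]
    constructor
    · rintro ⟨h1, h2, h3⟩
      exact ⟨⟨⟨h1, h3⟩, by rw [h2]; simpa using ht⟩, h2⟩
    · rintro ⟨⟨⟨h1, h3⟩, h4⟩, h2⟩
      exact ⟨h1, h2, h3⟩

/-- the configurations which hit at most one top, with twins of the least cost -/
theorem EW.dvd_one {n : ℕ} (hB : ∑ t, b t = (lv P i).card)
    (hcost : ∀ x ∈ Y, n ≤ tcst i (thS E θ θ1 Y τ E) (τ x, x)) :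
    (1 + X : ℤ[X]) ^ ((lv P i).card - 1) ∣
      ZQ i n (fun e _ => Ok (RS E N N1 Y E) (thS E θ θ1 Y τ E) e ∧ (KE E N θ e).card ≤ 1) -
      ∑ x ∈ Y.filter (fun x => tcst i (thS E θ θ1 Y τ E) (τ x, x) = n),
        Tm i (thS E θ θ1 Y τ E) (τ x, x) := by
  classical
  have key : ∀ S, S ⊆ E → S.card ≤ 1 → (1 + X : ℤ[X]) ^ ((lv P i).card - 1) ∣
      ZQ i n (fun e _ => Ok (RS E N N1 Y E) (thS E θ θ1 Y τ E) e ∧ KE E N θ e ⊆ S) -
      ∑ x ∈ (YS E Y S).filter (fun x => tcst i (thS E θ θ1 Y τ E) (τ x, x) = n),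
        Tm i (thS E θ θ1 Y τ E) (τ x, x) := by
    intro S hS hS1
    have H := W.farX hS n hcost
    have h1 := H.dvd_ND
    rw [W.tm_sum hS, ND_eq_ZQ] at h1
    have h2 : ZQ i n (fun e F => ∀ z ∈ bdR (RS E N N1 Y S),
        ¬ Dgz (Ew.hS E N N1 θ θ1 Y τ S) e F z) =
        ZQ i n (fun e _ => Ok (RS E N N1 Y E) (thS E θ θ1 Y τ E) e ∧ KE E N θ e ⊆ S) :=
      ZQ_congr fun e F hV _ => by
        rw [show Ew.hS E N N1 θ θ1 Y τ S = hcan (RS E N N1 Y S) (thS E θ θ1 Y τ S) from rfl,
          ok_iff W.gr (W.lev_RS hS) (fun x hx => W.th_le hS hx) hV]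
        exact W.ok_iff_S hS hV
    rw [h2] at h1
    refine dvd_trans (pow_dvd_pow _ ?_) h1
    have := W.sum_bS hS
    omega
  have h0 := key ∅ (Finset.empty_subset E) (by rw [Finset.card_empty]; exact Nat.zero_le _)
  have h1 := dvd_ZQ_one (i := i) (n := n) (p := (1 + X : ℤ[X]) ^ ((lv P i).card - 1))
    (Q := fun e _ => Ok (RS E N N1 Y E) (thS E θ θ1 Y τ E) e) (K := fun e _ => KE E N θ e) E
    (fun e _ t ht => (mem_KE.mp ht).1) h0
    (C := fun t => ∑ x ∈ Y.filter (fun x => topOf x = t ∧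
      tcst i (thS E θ θ1 Y τ E) (τ x, x) = n), Tm i (thS E θ θ1 Y τ E) (τ x, x))
    (fun t ht => by
      have h2 := key {t} (Finset.singleton_subset_iff.mpr ht) (by rw [Finset.card_singleton])
      rw [W.YS_single ht] at h2
      exact h2)
  rwa [W.YS_all] at h1

/-- **The window theorem with at most one hit top and twins of the least cost**, all labels
full. -/
theorem EW.sign_tw {n : ℕ} (hB : ∑ t, b t = (lv P i).card)
    (hZ : (1 + X : ℤ[X]) ^ (lv P i).card ∣ Z P i n)
    (hcost : ∀ x ∈ Y, n ≤ tcst i (thS E θ θ1 Y τ E) (τ x, x))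
    (hful : ∀ x ∈ Y, tcst i (thS E θ θ1 Y τ E) (τ x, x) = n →
      thS E θ θ1 Y τ E (τ x) + 1 = lev (τ x) - i)
    (hmin : ∀ z ∈ bdR (RS E N N1 Y E), n ≤ cst i (hS E N N1 θ θ1 Y τ E) z)
    (hstr : ∀ z ∈ bdR (RS E N N1 Y E), cst i (hS E N N1 θ θ1 Y τ E) z = n →
      hS E N N1 θ θ1 Y τ E z = lev z - i)
    (hK : ∀ e F, Vd i e F → ∑ x, e x = n → Ok (RS E N N1 Y E) (thS E θ θ1 Y τ E) e →
      (KE E N θ e).card ≤ 1)
    {U : Finset P} (hU : ∀ z, z ∈ U ↔
      (z ∈ bdR (RS E N N1 Y E) ∧ cst i (hS E N N1 θ θ1 Y τ E) z = n) ∨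
      (z ∈ Y ∧ tcst i (thS E θ θ1 Y τ E) (τ z, z) = n))
    {c0 : ℕ} (hc : c0 + 1 < (lv P i).card)
    (hle : ∀ z ∈ U, c0 + nab i z ≤ (lv P i).card + nab (i + (lev z - i)) z) :
    ∑ z ∈ U.filter (fun z => c0 + nab i z = (lv P i).card + nab (i + (lev z - i)) z),
      (-1 : ℤ) ^ (nst i (fun z => lev z - i) z) = 0 := by
  classical
  have hEE := Finset.Subset.refl E
  have HX := W.farX hEE n hcost
  have hT : ∀ z ∈ (bdR (RS E N N1 Y E)).filter
      (fun z => cst i (hS E N N1 θ θ1 Y τ E) z = n), z ∈ bdR (RS E N N1 Y E) ∧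
      cst i (hS E N N1 θ θ1 Y τ E) z = n := fun z hz => mem_filter.mp hz
  have h1 := W.dvd_one hB hcost
  have h2 : Z P i n = ZQ i n (fun e _ => Ok (RS E N N1 Y E) (thS E θ θ1 Y τ E) e ∧
      (KE E N θ e).card ≤ 1) + ZQ i n (fun e _ => ¬ (Ok (RS E N N1 Y E) (thS E θ θ1 Y τ E) e ∧
      (KE E N θ e).card ≤ 1)) := by
    rw [Z_eq_ZQ, ZQ_split i n (fun _ _ => True) (fun e _ => Ok (RS E N N1 Y E)
      (thS E θ θ1 Y τ E) e ∧ (KE E N θ e).card ≤ 1)]
    congr 1
    · exact ZQ_congr fun e F _ _ => by simp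
    · exact ZQ_congr fun e F _ _ => by simp
  have h3 := ZQ_lead (i := i) (n := n) (Q := fun e _ => ¬ (Ok (RS E N N1 Y E)
      (thS E θ θ1 Y τ E) e ∧ (KE E N θ e).card ≤ 1)) (hS E N N1 θ θ1 Y τ E)
    ((bdR (RS E N N1 Y E)).filter (fun z => cst i (hS E N N1 θ θ1 Y τ E) z = n)) W.gr
    (fun z hz => ⟨HX.one_le z (hT z hz).1, HX.le_lev z (hT z hz).1⟩)
    (fun z hz _ F hV h => by
      have hz' := (hT z hz).1
      obtain ⟨x, hx, hzx, hx2⟩ := hcan_spec (θ := thS E θ θ1 Y τ E) hz'
      have h1 := h.1 z (mem_filter.mp hz').1 x hx hzx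
      rw [ez_self (HX.le_lev z hz')] at h1
      have h2 : hS E N N1 θ θ1 Y τ E z = thS E θ θ1 Y τ E x + 1 := hx2
      omega)
    (fun e F hV hs hbad => by
      have hq : ¬ Ok (RS E N N1 Y E) (thS E θ θ1 Y τ E) e := fun h =>
        hbad ⟨h, hK e F hV hs h⟩
      rw [← ok_iff W.gr (W.lev_RS hEE) (fun x hx => W.th_le hEE hx) hV] at hq
      push Not at hq
      obtain ⟨z, hz, hd⟩ := hq
      have h4 : ∀ x, ez i (hS E N N1 θ θ1 Y τ E) z x ≤ e x :=
        ez_le hV (W.lev_RS hEE z (mem_filter.mp hz).1) hd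
      have h6 : cst i (hS E N N1 θ θ1 Y τ E) z ≤ n := by
        rw [← hs]; exact Finset.sum_le_sum fun x _ => h4 x
      have h7 : cst i (hS E N N1 θ θ1 Y τ E) z = n := le_antisymm h6 (hmin z hz)
      refine ⟨z, mem_filter.mpr ⟨hz, h7⟩, ?_⟩
      funext x
      have h9 : ∑ x, ez i (hS E N N1 θ θ1 Y τ E) z x = ∑ x, e x := by
        rw [hs]; exact h7
      exact ((Finset.sum_eq_sum_iff_of_le (fun x _ => h4 x)).mp h9 x (mem_univ x)).symm)
  rw [Finset.filter_filter] at h3
  simp only [and_self] at h3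
  have h4 : ∑ z ∈ (bdR (RS E N N1 Y E)).filter (fun z => cst i (hS E N N1 θ θ1 Y τ E) z = n),
      Lt i (hS E N N1 θ θ1 Y τ E) z +
      ∑ x ∈ Y.filter (fun x => tcst i (thS E θ θ1 Y τ E) (τ x, x) = n),
        Tm i (thS E θ θ1 Y τ E) (τ x, x) = ∑ z ∈ U, Lt i (fun z => lev z - i) z := by
    have e1 : U = (bdR (RS E N N1 Y E)).filter
        (fun z => cst i (hS E N N1 θ θ1 Y τ E) z = n) ∪
        Y.filter (fun x => tcst i (thS E θ θ1 Y τ E) (τ x, x) = n) := by
      ext z
      rw [hU, mem_union, mem_filter, mem_filter]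
    rw [e1, Finset.sum_union]
    · congr 1
      · refine Finset.sum_congr rfl fun z hz => ?_
        exact Lt_congr (h' := fun z => lev z - i) (hstr z (hT z hz).1 (hT z hz).2)
      · refine Finset.sum_congr rfl fun x hx => ?_
        obtain ⟨hx1, hx2⟩ := mem_filter.mp hx
        have hx3 : x ∈ YS E Y E := by rw [YS_self]; exact hx1
        have H1 := W.twnS hEE x hx3
        have h5 := Tm_eq W.gr H1 (hful x hx1 hx2)
        rw [h5]
        exact Lt_congr rfl
    · rw [Finset.disjoint_left]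
      intro z g1 g2
      have g3 := (mem_filter.mp (hT z g1).1).1
      have g4 := (mem_filter.mp g2).1
      refine (mem_sdiff.mp g3).2 ?_
      rw [YS_self]
      exact g4
  have h5 : (1 + X : ℤ[X]) ^ ((lv P i).card - 1) ∣
      Z P i n - ∑ z ∈ U, Lt i (fun z => lev z - i) z := by
    rw [h2, h3, ← h4]
    refine h1.trans (dvd_of_eq ?_)
    ring
  exact sign_sum_of_dvd U (dvd_trans (pow_dvd_pow _ (Nat.sub_le _ _)) hZ) h5 (by omega) hle

end

end Ew

end Pool.Agent.GaussPoset

end

/-! From `Pool.Agent.W_448sd_h84.SdA` -/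

section

/-!
# Doubles at a straight end of a rectangle-like component, window 1 (MP_448cb3_co)

All levels less than `j` are good, no join on the level `j + 1`.  At window 1 the cheapest twins are
those of the cells `(1, j)`, `(j, 1)`; their cost is `j ^ 2 + j - 1`, all of them have the same sign.
-/

namespace Pool.Agent.GaussPoset

set_option linter.unusedSectionVars false

open Polynomial Finset

universe u

variable {P : Type u} [Fintype P] [PartialOrder P] [DecidableEq P] {r j : ℕ}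
  {N : Tops P → Finset P} {b : Tops P → ℕ} {θ : Tops P → P → ℕ}

/-- thresholds with twins -/
noncomputable abbrev sdT (j : ℕ) (N : Tops P → Finset P) (θ : Tops P → P → ℕ) : P → ℕ :=
  thX (twY j N) (twT N) (fun x => θ (topOf x) x)

/-- thresholds of natural elements -/
lemma W1.sd_le (W : W1 r j N b θ) {y : P} (hy : y ∉ unnat N) : sdT j N θ y ≤ lev y - 1 := by
  have h1 : y ∉ twY j N := fun h => hy (mem_twY.mp h).1
  show thX (twY j N) (twT N) (fun x => θ (topOf x) x) y ≤ lev y - 1
  rw [thX_not h1]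
  rcases W.cases hy with h | h
  · rw [h.th]
  · rw [h.th]; omega

/-- the sum over the elements above, by levels -/
lemma sd_sum_above (i : ℕ) (z : P) :
    ∑ w, (by classical exact if z < w then lev w - i else 0) =
      ∑ k ∈ range (lev z), (k - i) * nab k z := by
  classical
  have h1 := cst_eq i (fun w => lev w - i) z
  rw [cst_full] at h1
  have h2 := sum_above_split i z
  rw [Finset.sum_range_succ, nab_self, mul_one, min_self] at h1
  have h3 : ∑ k ∈ range (lev z), min (lev z - i) (k - i) * nab k z =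
      ∑ k ∈ range (lev z), (k - i) * nab k z := by
    refine Finset.sum_congr rfl fun k hk => ?_
    rw [mem_range] at hk
    rw [Nat.min_eq_right (by omega)]
  rw [h3] at h1
  omega

/-- the pairs of twins -/
theorem W1.sd_twn (W : W1 r j N b θ) {x : P} (hx : x ∈ twY j N) :
    Twn 1 (sdT j N θ) (twT N x, x) where
  ne := by
    intro h
    have h' : twT N x = x := h
    exact W.twSys.nat x hx (h'.symm ▸ (mem_twY.mp hx).1)
  up := W.twSys.up x hx
  one_le := by
    have h := W.twinPair hx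
    exact h.one_le
  eq := by
    have h := W.twinPair hx
    exact h.eq
  lt := by
    have hj := W.two_le
    have hI := W.inner_tw hx
    have hlev : lev (twT N x) = j + 1 := by rw [W.twSys.lev hx]; exact (mem_twY.mp hx).2.1
    have hnY : twT N x ∉ twY j N := fun h => W.twSys.nat x hx (mem_twY.mp h).1
    show thX (twY j N) (twT N) (fun x => θ (topOf x) x) (twT N x) + 1 ≤ lev (twT N x) - 1
    rw [thX_not hnY, hI.th, hlev]
    omega
  mono := by
    intro y hy
    have hy' : twT N x < y := hy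
    have hj := W.two_le
    have hI := W.inner_tw hx
    have hlev : lev (twT N x) = j + 1 := by rw [W.twSys.lev hx]; exact (mem_twY.mp hx).2.1
    have hnY : twT N x ∉ twY j N := fun h => W.twSys.nat x hx (mem_twY.mp h).1
    have hyN : y ∉ unnat N := by
      intro h
      exact W.twSys.nat x hx (W.natSys.lower _ y hy'.le h)
    have h1 := W.sd_le hyN
    have h2 := lev_strictAnti hy'
    have h3 : sdT j N θ (twT N x) = j - 1 := by
      show thX (twY j N) (twT N) (fun x => θ (topOf x) x) (twT N x) = j - 1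
      rw [thX_not hnY, hI.th, hlev]
      omega
    show sdT j N θ y ≤ sdT j N θ (twT N x) + 1
    rw [h3]
    omega

/-- threshold at a twin pair -/
lemma W1.sd_th (W : W1 r j N b θ) {x : P} (hx : x ∈ twY j N) : sdT j N θ (twT N x) = j - 1 := by
  have hI := W.inner_tw hx
  have hlev : lev (twT N x) = j + 1 := by rw [W.twSys.lev hx]; exact (mem_twY.mp hx).2.1
  have hnY : twT N x ∉ twY j N := fun h => W.twSys.nat x hx (mem_twY.mp h).1
  show thX (twY j N) (twT N) (fun x => θ (topOf x) x) (twT N x) = j - 1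
  rw [thX_not hnY, hI.th, hlev]
  omega

/-- the cost of a twin pair -/
theorem W1.sd_cost (W : W1 r j N b θ) {x : P} (hx : x ∈ twY j N) :
    tcst 1 (sdT j N θ) (twT N x, x) = ∑ k ∈ range (j + 1), (k - 1) * nab k x + (2 * j - 1) := by
  classical
  have hj := W.two_le
  have hH := W.sd_twn hx
  have hlx := (mem_twY.mp hx).2.1
  have hlev : lev (twT N x) = j + 1 := by rw [W.twSys.lev hx]; exact hlx
  have hth := W.sd_th hx
  rw [tcst_eq hH]
  simp only
  have h1 : ∀ y, (if twT N x < y then min (sdT j N θ (twT N x) + 1) (lev y - 1) else 0) =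
      (if x < y then lev y - 1 else 0) := by
    intro y
    by_cases hy : twT N x < y
    · rw [if_pos hy, if_pos ((W.twSys.up x hx y).mp hy)]
      have := lev_strictAnti hy
      rw [Nat.min_eq_right (by omega)]
    · rw [if_neg hy, if_neg (fun h => hy ((W.twSys.up x hx y).mpr h))]
  rw [Finset.sum_congr rfl (fun y _ => h1 y), hth]
  have h2 := sd_sum_above 1 x
  rw [hlx] at h2
  rw [h2]
  omega

lemma sd_two_le (W : W1 r j N b θ) {x : P} (hx : x ∈ twY j N) {k : ℕ} (hk : 1 ≤ k) (hkj : k ≤ j) :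
    2 ≤ nab k x := by
  have hI := W.inner_tw hx
  have hlx := (mem_twY.mp hx).2.1
  have hlev : lev (twT N x) = j + 1 := by rw [W.twSys.lev hx]; exact hlx
  refine le_trans (hI.two (k := k) hk (by omega)) ?_
  exact nab_le_of_up (W.twSys.up x hx) (by omega)

/-- the twins cost at least `j ^ 2 + j - 1` -/
theorem W1.sd_cost_ge (W : W1 r j N b θ) {x : P} (hx : x ∈ twY j N) :
    j ^ 2 + j - 1 ≤ tcst 1 (sdT j N θ) (twT N x, x) := by
  have hj := W.two_le
  rw [W.sd_cost hx]
  have h1 := sum_two 1 (j - 1)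
  rw [show 1 + (j - 1) + 1 = j + 1 by omega] at h1
  have h2 : ∑ k ∈ range (j + 1), (k - 1) * 2 ≤ ∑ k ∈ range (j + 1), (k - 1) * nab k x := by
    refine Finset.sum_le_sum fun k hk => ?_
    rw [mem_range] at hk
    rcases Nat.eq_zero_or_pos k with h0 | h0
    · subst h0; simp
    · exact Nat.mul_le_mul_left _ (sd_two_le W hx h0 (by omega))
  rw [h1] at h2
  obtain ⟨i, rfl⟩ : ∃ i, j = i + 1 := ⟨j - 1, by omega⟩
  rw [Nat.add_sub_cancel] at h2
  have h3 : (i + 1) ^ 2 = i * (i + 1) + (i + 1) := by ring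
  omega

/-- the cheapest twins have two elements above on every level -/
theorem W1.sd_cheap (W : W1 r j N b θ) {x : P} (hx : x ∈ twY j N)
    (hc : tcst 1 (sdT j N θ) (twT N x, x) = j ^ 2 + j - 1) {k : ℕ} (hk : 2 ≤ k) (hkj : k ≤ j) :
    nab k x = 2 := by
  have hj := W.two_le
  rw [W.sd_cost hx] at hc
  have h1 := sum_two 1 (j - 1)
  rw [show 1 + (j - 1) + 1 = j + 1 by omega] at h1
  have hle : ∀ k ∈ range (j + 1), (k - 1) * 2 ≤ (k - 1) * nab k x := by
    intro k hk
    rw [mem_range] at hk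
    rcases Nat.eq_zero_or_pos k with h0 | h0
    · subst h0; simp
    · exact Nat.mul_le_mul_left _ (sd_two_le W hx h0 (by omega))
  have h3 : ∑ k ∈ range (j + 1), (k - 1) * 2 = ∑ k ∈ range (j + 1), (k - 1) * nab k x := by
    rw [h1]
    obtain ⟨i, rfl⟩ : ∃ i, j = i + 1 := ⟨j - 1, by omega⟩
    rw [Nat.add_sub_cancel]
    have h3 : (i + 1) ^ 2 = i * (i + 1) + (i + 1) := by ring
    omega
  have h4 := (Finset.sum_eq_sum_iff_of_le hle).mp h3 k (by rw [mem_range]; omega)
  have h5 : 0 < k - 1 := by omega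
  exact (Nat.eq_of_mul_eq_mul_left h5 h4).symm

/-- exact far data -/
theorem W1.sd_farX (W : W1 r j N b θ) : FarX P 1 (r2 j N) (lv P 1).card (h2 j N θ) (sdT j N θ)
    (pairsX (twY j N) (twT N)) (j ^ 2 + j - 1) := by
  choose B hB using fun t => (W.typ t).natTop W.gt.H.gradedBelow
  have h := farX_of_tops W.gt.H.gradedBelow hB W.twSys (j ^ 2 + j - 1) (fun x hx => W.sd_twn hx)
    (fun x hx => W.sd_cost_ge hx)
  rw [W.sum_b] at h
  exact h

/-- all boundary elements are expensive -/
theorem W1.sd_bd (W : W1 r j N b θ) {z : P} (hz : z ∈ bdR (r2 j N)) :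
    j ^ 2 + j ≤ cst 1 (h2 j N θ) z := by
  classical
  have H := W.gt.H
  have hj := W.two_le
  have T := W.twSys
  have hzR : z ∈ unnat N := (mem_sdiff.mp (mem_filter.mp hz).1).1
  have hzY : z ∉ twY j N := (mem_sdiff.mp (mem_filter.mp hz).1).2
  have hlz := W.lt_lev hzR
  have hl : lev z ≠ j + 1 := fun hl => W.no_rt hl (W.rt_of hzR hl hzY)
  obtain ⟨u, hu, hzu, hh⟩ := hcan_spec (θ := sdT j N θ) hz
  have hlu := (H.covBy_iff.mp hzu).2
  have hbig : ∀ a, j ≤ a → j ^ 2 + j ≤ (a + 1) * a := by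
    intro a ha
    nlinarith
  by_cases huY : u ∈ twY j N
  · have hI := W.inner_tw huY
    rw [show sdT j N θ u = thX (twY j N) (twT N) (fun x => θ (topOf x) x) u from rfl,
      thX_of huY, hI.th, T.lev huY] at hh
    have h3 := cst_ge_sq_sub (i := 1) (h := h2 j N θ) (z := z) (by omega)
      (by show h2 j N θ z = _; rw [show h2 j N θ z = _ from hh]; omega) (by
        intro k hk hk2
        refine le_trans ?_ (nab_mono hzu.le)
        refine le_trans (hI.two (k := k) hk.le (by rw [T.lev huY]; omega)) ?_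
        exact nab_le_of_up (T.up u huY) (by rw [T.lev huY]; omega))
    refine le_trans ?_ h3
    have := hbig (lev z - 1 - 1) (by omega)
    rw [show lev z - 1 - 1 + 1 = lev z - 1 by omega] at this
    exact this
  · have huR : u ∉ unnat N := fun h => hu (mem_sdiff.mpr ⟨h, huY⟩)
    rw [show sdT j N θ u = thX (twY j N) (twT N) (fun x => θ (topOf x) x) u from rfl,
      thX_not huY] at hh
    rcases W.cases huR with hF | hI
    · rw [hF.th] at hh
      have h3 := sq_le_cst (i := 1) (h := h2 j N θ) (z := z) (by omega)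
        (by show h2 j N θ z = _; rw [show h2 j N θ z = _ from hh]; omega) (by
          intro k hk hk2
          exact hF.two z hzR hzu.le k hk.le (by omega))
      refine le_trans ?_ h3
      have := hbig (lev z - 1 - 1) (by omega)
      rw [show lev z - 1 - 1 + 1 = lev z - 1 by omega] at this
      refine this.trans ?_
      rw [pow_two]
      exact Nat.mul_le_mul_left _ (Nat.sub_le _ _)
    · rw [hI.th] at hh
      have h3 := cst_ge_sq_sub (i := 1) (h := h2 j N θ) (z := z) (by omega)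
        (by show h2 j N θ z = _; rw [show h2 j N θ z = _ from hh]; omega) (by
          intro k hk hk2
          refine le_trans (hI.two (k := k) hk.le (by omega)) (nab_mono hzu.le))
      refine le_trans ?_ h3
      have := hbig (lev z - 1 - 1) (by omega)
      rw [show lev z - 1 - 1 + 1 = lev z - 1 by omega] at this
      exact this

end Pool.Agent.GaussPoset

end

/-! From `Pool.Agent.W_448sd_h84.SdB` -/

section

/-!
# No doubles at a straight end of a rectangle-like component (MP_448cb3_co)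
-/

namespace Pool.Agent.GaussPoset

set_option linter.unusedSectionVars false

open Polynomial Finset

universe u

variable {P : Type u} [Fintype P] [PartialOrder P] [DecidableEq P] {r j : ℕ}
  {N : Tops P → Finset P} {b : Tops P → ℕ} {θ : Tops P → P → ℕ}

/-- the elements above an inner cell -/
lemma Inner.cells {x : P} (h : Inner j N b θ x) : ∃ (Nc : Finset P) (co : P → ℕ × ℕ),
    RectNat j 1 (topOf x) (b (topOf x)) Nc co ∧ N (topOf x) = natR Nc co ∧ x ∈ Nc ∧
    1 ≤ (co x).1 ∧ 1 ≤ (co x).2 := by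
  obtain ⟨Nc, co, h0, h1, hx, h2, h3, h4⟩ := h
  exact ⟨Nc, co, h0, h1, hx, h2, h3⟩

/-- the elements above twins -/
lemma sd_nab_tw (W : W1 r j N b θ) {x : P} (hx : x ∈ twY j N) {k : ℕ} (hk : k ≤ j) :
    nab k x = nab k (twT N x) := by
  have hlx := (mem_twY.mp hx).2.1
  have hlev : lev (twT N x) = j + 1 := by rw [W.twSys.lev hx]; exact hlx
  refine le_antisymm ?_ ?_
  · exact nab_le_of_up (fun w => (W.twSys.up x hx w).symm) (by omega)
  · exact nab_le_of_up (W.twSys.up x hx) (by omega)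

lemma sd_nab_one (W : W1 r j N b θ) {x : P} (hx : x ∈ twY j N) : nab 1 x = 2 := by
  have hj := W.two_le
  rw [sd_nab_tw W hx (by omega)]
  obtain ⟨Nc, co, h0, h1, hxN, h2, h3⟩ := (W.inner_tw hx).cells
  rw [nab_chart h0.chart hxN]
  have h4 := card_cellsAt_true (l := 1) (p := co (twT N x)) (by omega)
  omega

/-- **no cheap twins** -/
theorem W1.no_cheap (W : W1 r j N b θ) {x : P} (hx : x ∈ twY j N)
    (hc : tcst 1 (sdT j N θ) (twT N x, x) = j ^ 2 + j - 1) : False := by
  classical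
  have hj := W.two_le
  have F := W.sd_farX
  have hd := F.lead (fun z hz => by have := W.sd_bd hz; omega)
  have hZ := dvd_Z W.gt.H.gauss 1 (j ^ 2 + j - 1)
  have hE : (bdR (r2 j N)).filter (fun z => cst 1 (h2 j N θ) z = j ^ 2 + j - 1) = ∅ := by
    rw [Finset.filter_eq_empty_iff]
    intro z hz h
    have := W.sd_bd hz
    omega
  rw [hE, Finset.sum_empty, zero_add] at hd
  set T := (twY j N).filter (fun x => tcst 1 (sdT j N θ) (twT N x, x) = j ^ 2 + j - 1) with hT
  have hs : ∑ t ∈ (pairsX (twY j N) (twT N)).filter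
      (fun t => tcst 1 (sdT j N θ) t = j ^ 2 + j - 1), Tm 1 (sdT j N θ) t =
      ∑ x ∈ T, Lt 1 (fun _ => j) x := by
    unfold pairsX
    rw [Finset.filter_image, Finset.sum_image]
    · refine Finset.sum_congr rfl fun y hy => ?_
      have hyY := (mem_filter.mp hy).1
      have hly := (mem_twY.mp hyY).2.1
      have hlev : lev (twT N y) = j + 1 := by rw [W.twSys.lev hyY]; exact hly
      have h1 := Tm_eq W.gt.H.gradedBelow (W.sd_twn hyY) (by
        show sdT j N θ (twT N y) + 1 = lev (twT N y) - 1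
        rw [W.sd_th hyY, hlev]
        omega)
      rw [h1]
      simp only
      rw [hly, Nat.add_sub_cancel]
    · intro a _ c _ h
      exact (Prod.ext_iff.mp h).2
  rw [hs] at hd
  have hTn : ∀ y ∈ T, nab 1 y = 2 ∧ nab (1 + j) y = 1 := by
    intro y hy
    have hyY := (mem_filter.mp hy).1
    have hly := (mem_twY.mp hyY).2.1
    refine ⟨sd_nab_one W hyY, ?_⟩
    rw [Nat.add_comm, ← hly]
    exact nab_self
  have hxT : x ∈ T := mem_filter.mpr ⟨hx, hc⟩
  have hcard : 2 ≤ (lv P 1).card := by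
    have h3 := (hTn x hxT).1
    unfold nab at h3
    rw [← h3]
    exact Finset.card_filter_le _ _
  have hs2 := sign_sum_of_dvd T hZ hd (c0 := (lv P 1).card - 1) (by omega) (by
    intro y hy
    obtain ⟨h3, h4⟩ := hTn y hy
    rw [h3, h4]
    omega)
  have hTf : T.filter (fun y => (lv P 1).card - 1 + nab 1 y =
      (lv P 1).card + nab (1 + j) y) = T := by
    refine Finset.filter_true_of_mem fun y hy => ?_
    obtain ⟨h3, h4⟩ := hTn y hy
    rw [h3, h4]
    omega
  rw [hTf, Finset.sum_congr rfl (g := fun _ => (1 : ℤ))] at hs2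
  · rw [Finset.sum_const, nsmul_eq_mul, mul_one] at hs2
    have : T.card = 0 := by exact_mod_cast hs2
    rw [Finset.card_eq_zero] at this
    rw [this] at hxT
    exact absurd hxT (Finset.notMem_empty x)
  · intro y hy
    have hyY := (mem_filter.mp hy).1
    have hyc := (mem_filter.mp hy).2
    rw [nst_eq, Finset.sum_congr rfl (g := fun _ => 2)]
    · rw [Finset.sum_const, card_range, smul_eq_mul, Nat.mul_comm, pow_mul]
      norm_num
    · intro k hk
      rw [mem_range] at hk
      rcases Nat.eq_zero_or_pos k with h0 | h0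
      · subst h0
        exact sd_nab_one W hyY
      · exact W.sd_cheap hyY hyc (by omega) (by omega)

/-- a twin below a single-up element does not exist -/
theorem W1.no_tw_single (W : W1 r j N b θ) {z x : P} (hz : z ∈ twY j N) (hzx : z ⋖ x)
    (h1 : (Win.uc x).card = 1) : False := by
  classical
  have hj := W.two_le
  have H := W.gt.H
  obtain ⟨Nc, co, g0, g1, hyN, g2, g3⟩ := (W.inner_tw hz).cells
  have hyx : twT N z ⋖ x := (W.twSys.cov hz).mpr hzx
  have hxN : x ∈ Nc := g0.chart.up _ hyN x hyx.1.le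
  have hlev : lev (twT N z) = j + 1 := by rw [W.twSys.lev hz]; exact (mem_twY.mp hz).2.1
  have hcy := g0.chart.lev _ hyN
  have hcx := g0.chart.lev _ hxN
  have hp := (chart_cov g0.chart H hyN hxN).mp hyx
  have h0 : (co x).1 = 0 ∨ (co x).2 = 0 := by
    by_contra hcon
    have := chart_inner_uc g0.chart H hxN (by omega) (by omega)
    omega
  have hlx : lev x = j := by
    have := (H.covBy_iff.mp hyx).2
    omega
  refine W.no_cheap hz ?_
  rw [W.sd_cost hz]
  have h2 : ∑ k ∈ range (j + 1), (k - 1) * nab k z = ∑ k ∈ range (j + 1), (k - 1) * 2 := by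
    refine Finset.sum_congr rfl fun k hk => ?_
    rw [mem_range] at hk
    rcases Nat.eq_zero_or_pos k with h4 | h4
    · subst h4; simp
    · rw [sd_nab_tw W hz (by omega), nab_chart g0.chart hyN]
      have h5 := card_cellsAt_true (l := k) (p := co (twT N z)) (by omega)
      have h6 : (cellsAt (fun _ => True) k (co (twT N z))).card = 2 := by
        unfold Prd at hp
        rcases h0 with h0 | h0
        · have e1 : (co (twT N z)).1 = 1 := by omega
          have e2 : (co (twT N z)).2 = j := by omega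
          rw [e1, e2] at h5
          omega
        · have e1 : (co (twT N z)).2 = 1 := by omega
          have e2 : (co (twT N z)).1 = j := by omega
          rw [e1, e2] at h5
          omega
      rw [h6]
  rw [h2]
  have h3 := sum_two 1 (j - 1)
  rw [show 1 + (j - 1) + 1 = j + 1 by omega] at h3
  rw [h3]
  obtain ⟨i, rfl⟩ : ∃ i, j = i + 1 := ⟨j - 1, by omega⟩
  rw [Nat.add_sub_cancel]
  have h4 : (i + 1) ^ 2 = i * (i + 1) + (i + 1) := by ring
  omega

section Final

variable {lo hi : Tops P → ℕ → ℕ} {e : Tops P → ℕ → ℕ → P}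

/-- **No double at a straight end of a rectangle-like component.**  All levels less than `j` are
good, `2 ≤ j`, no element of level `j + 1` is below two maximal elements, every strip is light at level
`1` or rectangle-like down to level `j`.  Then a single-up element of level `j` below a
rectangle-like top has at most one common lower cover with another element. -/
theorem rect_dcv_straight (h : Win.GoodTo P r j) (hj : 2 ≤ j)
    (hno : ∀ z : P, lev z = j + 1 → ¬ Hul.Jn z)
    (C : ∀ t : Tops P, Cp.Comp j (t : P) (lo t) (hi t) (e t))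
    (hT : ∀ t : Tops P, lo t 1 = hi t 1 ∨ RectShape j (lo t) (hi t)) {t : Tops P}
    (ht : lo t 1 ≠ hi t 1) {x x' : P} (hx : lev x = j) (hxt : x ≤ (t : P))
    (h1 : (Win.uc x).card = 1) (hne : x ≠ x') : dcv x x' ≤ 1 := by
  classical
  by_contra hcon
  obtain ⟨N, θ, W⟩ := exists_W1 h hj hno C hT
  have H := h.H
  have HN := W.natSys
  obtain ⟨z, z', hz, hz', hzz⟩ := Finset.one_lt_card_iff.mp (not_le.mp hcon)
  have hz2 : z ⋖ x ∧ z ⋖ x' := by simpa using hz
  have hz2' : z' ⋖ x ∧ z' ⋖ x' := by simpa using hz'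
  have hlz : ∀ w : P, w ⋖ x → lev w = j + 1 := fun w hw => by
    have := (H.covBy_iff.mp hw).2
    omega
  have htw : ∀ w : P, w ⋖ x → w ∈ unnat N → False := by
    intro w hw hwR
    by_cases hY : w ∈ twY j N
    · exact W.no_tw_single hY hw h1
    · exact W.no_rt (hlz w hw) (W.rt_of hwR (hlz w hw) hY)
  have hn : z ∉ unnat N := fun h => htw z hz2.1 h
  have hn' : z' ∉ unnat N := fun h => htw z' hz2'.1 h
  -- both natural
  have htop : ∀ w : P, w ⋖ x → topOf w = t := by
    intro w hw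
    by_contra hcon
    exact hno w (hlz w hw) ⟨topOf w, t, (topOf w).2, t.2, fun h => hcon (Subtype.ext h),
      le_topOf w, hw.1.le.trans hxt⟩
  have hzN := HN.mem_iff.mpr ⟨hn, htop z hz2.1⟩
  have hzN' := HN.mem_iff.mpr ⟨hn', htop z' hz2'.1⟩
  rcases W.typ t with ⟨g1, g2, g3, g4, g5, g6⟩ | ⟨Nc, co, g0, g1, g2, g4⟩ |
    ⟨Nc, co, g0, g1, g2, g3, g4, g5⟩
  · have e1 := (C t).lo_le 1 (by omega)
    omega
  · rw [g1] at hzN hzN'
    have hlx' : lev x' = j := by
      have := (H.covBy_iff.mp hz2.2).2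
      have := hlz z hz2.1
      omega
    have hxN : x ∈ Nc := g0.strip (mem_lowPart.mpr ⟨hxt, by omega⟩)
    have hxt' : x' ≤ (t : P) := by
      have h5 : topOf x' = t := by
        by_contra hcon
        exact hno z (hlz z hz2.1) ⟨topOf x', t, (topOf x').2, t.2, fun h => hcon (Subtype.ext h),
          hz2.2.1.le.trans (le_topOf x'), hz2.1.1.le.trans hxt⟩
      rw [← h5]
      exact le_topOf x'
    have hxN' : x' ∈ Nc := g0.strip (mem_lowPart.mpr ⟨hxt', by omega⟩)
    -- `z`, `z'` are cells of the chart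
    have hcell : ∀ w : P, w ⋖ x → w ⋖ x' → w ∈ natR Nc co → w ∈ Nc := by
      intro w hwx hwx' hw
      have key : ∀ (co : P → ℕ × ℕ), Chart (t : P) (fun _ => True) Nc co →
          w ∉ junk (fun _ => True) Nc co := by
        intro co C hzJ
        have hcl := C.lev x hxN
        have hcl' := C.lev x' hxN'
        obtain ⟨x1, H1, hz1⟩ := mem_junk.mp hzJ
        rw [mem_jset] at hz1
        have h1 : ∀ y, w ⋖ y → y = x1 ∨ y < x1 := by
          intro y hy
          rcases hz1.2 y hy.1.le with h | h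
          · exact eq_or_lt_of_le h
          · rcases eq_or_lt_of_le h with h | h
            · exact Or.inl h.symm
            · exact absurd h (hy.2 hz1.1)
        rcases h1 x hwx with h | h
        · rcases h1 x' hwx' with h' | h'
          · exact hne (h.trans h'.symm)
          · have := lev_strictAnti h'
            rw [← h] at this
            omega
        · rcases h1 x' hwx' with h' | h'
          · have := lev_strictAnti h
            rw [← h'] at this
            omega
          · have e1 := (H1.tail C hxN h).1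
            have e2 := (H1.tail C hxN' h').1
            exact hne (C.inj x hxN x' hxN' (Prod.ext (by omega) (by omega)))
      rw [mem_natR] at hw
      rcases hw with h | h | h
      · exact h
      · exact absurd h (key co g0.chart)
      · exact absurd h (key _ g0.chart.swap)
    have hzc := hcell z hz2.1 hz2.2 hzN
    have hzc' := hcell z' hz2'.1 hz2'.2 hzN'
    refine hzz (g0.chart.inj z hzc z' hzc' ?_)
    have f1 := (chart_cov g0.chart H hzc hxN).mp hz2.1
    have f2 := (chart_cov g0.chart H hzc hxN').mp hz2.2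
    have f3 := (chart_cov g0.chart H hzc' hxN).mp hz2'.1
    have f4 := (chart_cov g0.chart H hzc' hxN').mp hz2'.2
    have hcne : co x ≠ co x' := fun h => hne (g0.chart.inj x hxN x' hxN' h)
    have hcne' : ¬ ((co x).1 = (co x').1 ∧ (co x).2 = (co x').2) :=
      fun h => hcne (Prod.ext h.1 h.2)
    unfold Prd at f1 f2 f3 f4
    exact Prod.ext (by omega) (by omega)
  · omega

end Final

end Pool.Agent.GaussPoset

end

/-! From `Pool.Agent.W_448sd_h84.SdD` -/

section

/-!
# Window 2: costs of cells (MP_448cb3_co)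
-/

namespace Pool.Agent.GaussPoset

set_option linter.unusedSectionVars false

open Polynomial Finset

universe u

variable {P : Type u} [Fintype P] [PartialOrder P] [DecidableEq P] {r j : ℕ}

/-- row 1: full label -/
lemma sd_row1 {x : P} (hl : 3 ≤ lev x) (h2 : ∀ k, 2 < k → k < lev x → 2 ≤ nab k x) :
    (lev x - 1) * (lev x - 2) ≤ ct 2 (lev x - 2) x + (lev x - 2) := by
  have h3 := sq_le_cst (i := 2) (h := fun _ : P => lev x - 2) (z := x) (by omega) rfl h2
  have h4 : ct 2 (lev x - 2) x = cst 2 (fun _ => lev x - 2) x := rfl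
  rw [h4]
  obtain ⟨a, ha⟩ : ∃ a, lev x = a + 2 := ⟨lev x - 2, by omega⟩
  rw [ha, Nat.add_sub_cancel] at h3
  rw [ha, Nat.add_sub_cancel, show a + 2 - 1 = a + 1 by omega]
  have h5 : (a + 1) * a = a ^ 2 + a := by ring
  omega

section Rect

variable {t : P} {Nc : Finset P} {co : P → ℕ × ℕ}

/-- a deep cell of a rectangle -/
lemma sd_rect_deep (C : Chart t (fun _ => True) Nc co) {x : P} (hx : x ∈ Nc)
    (h1 : 2 ≤ (co x).1) (h2 : 2 ≤ (co x).2) (hl : 7 ≤ lev x) :
    (lev x - 1) * (lev x - 2) < ct 2 (lev x - 3) x + (lev x - 3) := by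
  have hlc := C.lev x hx
  obtain ⟨a, ha⟩ : ∃ a, lev x = 2 + (a + 5) := ⟨lev x - 7, by omega⟩
  have hn : ∀ n, 1 ≤ n → n < a + 5 → 1 + ind 1 (a + 5) n + ind 1 (a + 4) n + 0 ≤
      nab (2 + n) x := by
    intro n hn1 hn2
    have h3 := rect_nab C hx (k := 2 + n) (by omega)
    unfold ind
    split_ifs <;> omega
  have h4 := cst_ge_shift (h := fun _ => lev x - 3)
    (fun n => 1 + ind 1 (a + 5) n + ind 1 (a + 4) n + 0) ha (by omega) hn
  rw [sum_split4] at h4
  have g1 := Finset.sum_range_id_mul_two (a + 5)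
  have g2 := sum_ind (s := 1) (a := a + 5) (m := a + 5) le_rfl
  have g3 := sum_ind (s := 1) (a := a + 4) (m := a + 5) (by omega)
  rw [show a + 5 - 1 = a + 4 by omega] at g1 g2
  rw [show a + 4 - 1 = a + 3 by omega] at g3
  simp only [mul_one, Nat.sub_self, mul_zero, add_zero] at h4 g1 g2 g3
  have e1 : (a + 5) * (a + 4) = a * a + 9 * a + 20 := by ring
  have e2 : (a + 4) * (a + 3) = a * a + 7 * a + 12 := by ring
  rw [e1] at g1 g2
  rw [e2] at g3
  have h5 : ct 2 (lev x - 3) x = cst 2 (fun _ => lev x - 3) x := rfl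
  rw [h5]
  have e3 : (lev x - 1) * (lev x - 2) = a * a + 11 * a + 30 := by
    rw [ha, show 2 + (a + 5) - 1 = a + 6 by omega, show 2 + (a + 5) - 2 = a + 5 by omega]
    ring
  rw [e3]
  omega

end Rect

/-- the cost of a cell of a stair -/
def cS (a c h : ℕ) : ℕ := ∑ k ∈ range (a + c + 1), min h (k - 2) * (min (k / 2) a + 1 - (k - c))

section Stair

variable {t : P} {Nc : Finset P} {co : P → ℕ × ℕ}

lemma sd_stair_ct (C : Chart t (fun c => c.1 ≤ c.2) Nc co) {x : P} (hx : x ∈ Nc) (h : ℕ) :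
    ct 2 h x = cS (co x).1 (co x).2 h := by
  have hlc := C.lev x hx
  unfold ct cS
  rw [cst_eq, hlc]
  refine Finset.sum_congr rfl fun k hk => ?_
  rw [mem_range] at hk
  have h3 := stair_nab C hx (k := k) (by omega)
  congr 1
  omega

/-- a deep cell of a stair -/
lemma sd_stair_deep (C : Chart t (fun c => c.1 ≤ c.2) Nc co) {x : P} (hx : x ∈ Nc)
    (h1 : 2 ≤ (co x).1) (hl : 7 ≤ lev x) (h4 : co x ≠ (4, 4)) :
    (lev x - 1) * (lev x - 2) ≤ ct 2 (lev x - 3) x + (lev x - 3) := by
  have hlc := C.lev x hx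
  have hm : (co x).1 ≤ (co x).2 := C.mem x hx
  by_cases hr : (co x).1 = 2
  · obtain ⟨a, ha⟩ : ∃ a, lev x = 2 + (a + 5) := ⟨lev x - 7, by omega⟩
    have hn : ∀ n, 1 ≤ n → n < a + 5 → 1 + ind 1 (a + 5) n + ind 2 (a + 4) n + 0 ≤
        nab (2 + n) x := by
      intro n hn1 hn2
      have h3 := stair_nab C hx (k := 2 + n) (by omega)
      unfold ind
      split_ifs <;> omega
    have h5 := cst_ge_shift (h := fun _ => lev x - 3)
      (fun n => 1 + ind 1 (a + 5) n + ind 2 (a + 4) n + 0) ha (by omega) hn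
    rw [sum_split4] at h5
    have g1 := Finset.sum_range_id_mul_two (a + 5)
    have g2 := sum_ind (s := 1) (a := a + 5) (m := a + 5) le_rfl
    have g3 := sum_ind (s := 2) (a := a + 4) (m := a + 5) (by omega)
    rw [show a + 5 - 1 = a + 4 by omega] at g1 g2
    rw [show a + 4 - 1 = a + 3 by omega] at g3
    simp only [mul_one, Nat.sub_self, mul_zero, add_zero] at h5 g1 g2 g3
    have e1 : (a + 5) * (a + 4) = a * a + 9 * a + 20 := by ring
    have e2 : (a + 4) * (a + 3) = a * a + 7 * a + 12 := by ring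
    rw [e1] at g1 g2
    rw [e2] at g3
    have h6 : ct 2 (lev x - 3) x = cst 2 (fun _ => lev x - 3) x := rfl
    rw [h6]
    have e3 : (lev x - 1) * (lev x - 2) = a * a + 11 * a + 30 := by
      rw [ha, show 2 + (a + 5) - 1 = a + 6 by omega, show 2 + (a + 5) - 2 = a + 5 by omega]
      ring
    rw [e3]
    omega
  · by_cases hs : lev x ≤ 10
    · rw [sd_stair_ct C hx]
      have hc4 : ¬ ((co x).1 = 4 ∧ (co x).2 = 4) := fun h => h4 (Prod.ext h.1 h.2)
      rw [hlc]
      generalize (co x).1 = a at *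
      generalize (co x).2 = c at *
      have ha : a = 3 ∨ a = 4 ∨ a = 5 := by omega
      rcases ha with rfl | rfl | rfl
      · have hc : c = 4 ∨ c = 5 ∨ c = 6 ∨ c = 7 := by omega
        rcases hc with rfl | rfl | rfl | rfl <;> decide
      · have hc : c = 5 ∨ c = 6 := by omega
        rcases hc with rfl | rfl <;> decide
      · have hc : c = 5 := by omega
        subst hc
        decide
    · obtain ⟨a, ha⟩ : ∃ a, lev x = 2 + (a + 9) := ⟨lev x - 11, by omega⟩
      have hn : ∀ n, 1 ≤ n → n < a + 9 →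
          1 + ind 1 (a + 8) n + ind 2 (a + 6) n + ind 4 (a + 4) n ≤ nab (2 + n) x := by
        intro n hn1 hn2
        have h3 := stair_nab C hx (k := 2 + n) (by omega)
        unfold ind
        split_ifs <;> omega
      have h5 := cst_ge_shift (h := fun _ => lev x - 3) (fun n => 1 + ind 1 (a + 8) n +
        ind 2 (a + 6) n + ind 4 (a + 4) n) ha (by omega) hn
      rw [sum_split4] at h5
      have g1 := Finset.sum_range_id_mul_two (a + 9)
      have g2 := sum_ind (s := 1) (a := a + 8) (m := a + 9) (by omega)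
      have g3 := sum_ind (s := 2) (a := a + 6) (m := a + 9) (by omega)
      have g4 := sum_ind (s := 4) (a := a + 4) (m := a + 9) (by omega)
      rw [show a + 9 - 1 = a + 8 by omega] at g1
      rw [show a + 8 - 1 = a + 7 by omega] at g2
      rw [show a + 6 - 1 = a + 5 by omega] at g3
      rw [show a + 4 - 1 = a + 3 by omega] at g4
      simp only [mul_one, Nat.sub_self, mul_zero, add_zero] at h5 g1 g2 g3 g4
      have e1 : (a + 9) * (a + 8) = a * a + 17 * a + 72 := by ring
      have e2 : (a + 8) * (a + 7) = a * a + 15 * a + 56 := by ring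
      have e3 : (a + 6) * (a + 5) = a * a + 11 * a + 30 := by ring
      have e4 : (a + 4) * (a + 3) = a * a + 7 * a + 12 := by ring
      rw [e1] at g1
      rw [e2] at g2
      rw [e3] at g3
      rw [e4] at g4
      have h6 : ct 2 (lev x - 3) x = cst 2 (fun _ => lev x - 3) x := rfl
      rw [h6]
      have e5 : (lev x - 1) * (lev x - 2) = a * a + 19 * a + 90 := by
        rw [ha, show 2 + (a + 9) - 1 = a + 10 by omega, show 2 + (a + 9) - 2 = a + 9 by omega]
        ring
      rw [e5]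
      norm_num at g3 g4
      omega

/-- the fold end of level `j = 2 m ≥ 14` -/
lemma sd_fold_deep (C : Chart t (fun c => c.1 ≤ c.2) Nc co) {x : P} (hx : x ∈ Nc) {m : ℕ}
    (h1 : co x = (m, m)) (hm : 7 ≤ m) :
    lev x * (lev x - 1) ≤ ct 2 (lev x - 3) x + (lev x - 3) := by
  have hlc := C.lev x hx
  rw [h1] at hlc
  simp only at hlc
  obtain ⟨a, ha⟩ : ∃ a, lev x = 2 + (a + 12) := ⟨lev x - 14, by omega⟩
  have hn : ∀ n, 1 ≤ n → n < a + 12 →
      1 + ind 1 (a + 11) n + ind 2 (a + 9) n + ind 4 (a + 7) n ≤ nab (2 + n) x := by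
    intro n hn1 hn2
    have h3 := stair_nab C hx (k := 2 + n) (by omega)
    rw [h1] at h3
    simp only at h3
    unfold ind
    split_ifs <;> omega
  have h5 := cst_ge_shift (h := fun _ => lev x - 3) (fun n => 1 + ind 1 (a + 11) n +
    ind 2 (a + 9) n + ind 4 (a + 7) n) ha (by omega) hn
  rw [sum_split4] at h5
  have g1 := Finset.sum_range_id_mul_two (a + 12)
  have g2 := sum_ind (s := 1) (a := a + 11) (m := a + 12) (by omega)
  have g3 := sum_ind (s := 2) (a := a + 9) (m := a + 12) (by omega)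
  have g4 := sum_ind (s := 4) (a := a + 7) (m := a + 12) (by omega)
  rw [show a + 12 - 1 = a + 11 by omega] at g1
  rw [show a + 11 - 1 = a + 10 by omega] at g2
  rw [show a + 9 - 1 = a + 8 by omega] at g3
  rw [show a + 7 - 1 = a + 6 by omega] at g4
  simp only [mul_one, Nat.sub_self, mul_zero, add_zero] at h5 g1 g2 g3 g4
  have e1 : (a + 12) * (a + 11) = a * a + 23 * a + 132 := by ring
  have e2 : (a + 11) * (a + 10) = a * a + 21 * a + 110 := by ring
  have e3 : (a + 9) * (a + 8) = a * a + 17 * a + 72 := by ring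
  have e4 : (a + 7) * (a + 6) = a * a + 13 * a + 42 := by ring
  rw [e1] at g1
  rw [e2] at g2
  rw [e3] at g3
  rw [e4] at g4
  have h6 : ct 2 (lev x - 3) x = cst 2 (fun _ => lev x - 3) x := rfl
  rw [h6]
  have e5 : lev x * (lev x - 1) = a * a + 27 * a + 182 := by
    rw [ha, show 2 + (a + 12) - 1 = a + 13 by omega]
    ring
  rw [e5]
  norm_num at g3 g4
  omega

end Stair

end Pool.Agent.GaussPoset

end
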