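import Mathlib
import Pool.Agent.W_448zz_h61.Ns
import Pool.Agent.W_448zz_h61.M006
import Pool.Agent.W_448zz_h61.M019
import Pool.Agent.W_448zz_h61.M020

/-! From `Pool.Agent.W_448ec_h63.EA` -/

section

/-!
Window sums: isomorphic posets, and removal of elements which are not excited at small energies.
-/

namespace Pool.Agent.GaussPoset

set_option linter.unusedSectionVars false

open Polynomial Finset

universe u v

section iso

lemma lev_iso_le {Q : Type u} {R : Type v} [Fintype Q] [PartialOrder Q] [Fintype R]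
    [PartialOrder R] (e : Q ≃o R) (x : Q) : lev (e x) ≤ lev x := by
  obtain ⟨f, hf, hfx⟩ := Nat.sInf_mem (exists_strictAnti x)
  have h1 : StrictAnti (fun y : R => f (e.symm y)) := by
    intro a b hab
    exact hf (e.symm.strictMono hab)
  have h2 := lev_le h1 (e x)
  simp only [OrderIso.symm_apply_apply] at h2
  exact h2.trans hfx.le

lemma Ec_lev_iso {Q : Type u} {R : Type v} [Fintype Q] [PartialOrder Q] [Fintype R]
    [PartialOrder R] (e : Q ≃o R) (x : Q) : lev (e x) = lev x := by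
  refine le_antisymm (lev_iso_le e x) ?_
  have h := lev_iso_le e.symm (e x)
  rwa [OrderIso.symm_apply_apply] at h

variable {Q : Type u} {R : Type v} [Fintype Q] [PartialOrder Q] [DecidableEq Q] [Fintype R]
    [PartialOrder R] [DecidableEq R]

lemma M0_iso (e : Q ≃o R) (i : ℕ) : M0 Q i = M0 R i := by
  unfold M0
  rw [← Equiv.sum_comp e.toEquiv]
  refine Finset.sum_congr rfl fun x _ => ?_
  change min i (lev x) = min i (lev (e x))
  rw [Ec_lev_iso]

/-- window sums of isomorphic posets -/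
theorem EcZ_iso (e : Q ≃o R) (i n : ℕ) : Z Q i n = Z R i n := by
  have h1 := exq_W (P := Q) i (n + M0 Q i)
  have h2 := exq_W (P := R) i (n + M0 R i)
  rw [if_pos (Nat.le_add_left _ _), Nat.add_sub_cancel] at h1 h2
  rw [← h1, ← h2, W_iso e i, M0_iso e i]

end iso

section cut

variable {P : Type u} [Fintype P] [PartialOrder P] [DecidableEq P]

open Classical in
/-- the number of elements of levels `> i` above `z` -/
noncomputable def ncone (i : ℕ) (z : P) : ℕ := (univ.filter (fun x : P => z ≤ x ∧ i < lev x)).card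

lemma ncone_eq (i : ℕ) (z : P) [DecidablePred fun x : P => z ≤ x ∧ i < lev x] :
    ncone i z = (univ.filter (fun x : P => z ≤ x ∧ i < lev x)).card := by
  unfold ncone
  congr

lemma cst_one (i : ℕ) (z : P) : cst i (fun _ => 1) z = ncone i z := by
  classical
  unfold cst ez ncone
  rw [Finset.card_filter]
  refine Finset.sum_congr rfl fun x _ => ?_
  by_cases h : z ≤ x
  · by_cases h2 : i < lev x
    · rw [if_pos h, if_pos ⟨h, h2⟩]
      change min 1 (lev x - i) = 1
      omega
    · rw [if_pos h, if_neg (fun h' => h2 h'.2)]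
      change min 1 (lev x - i) = 0
      omega
  · rw [if_neg h, if_neg (fun h' => h h'.1)]

/-- an upper cover outside the lower set -/
lemma exists_bd {D : Finset P} (hlev : ∀ x ∈ D, 0 < lev x) {x : P} (hx : x ∈ D) :
    ∃ z ∈ bdR D, x ≤ z := by
  classical
  let S : Finset P := D.filter (fun z => x ≤ z)
  obtain ⟨z, hz⟩ := S.exists_maximal ⟨x, mem_filter.mpr ⟨hx, le_rfl⟩⟩
  have hz1 : z ∈ D ∧ x ≤ z := mem_filter.mp hz.1
  obtain ⟨y, hy, -⟩ := exists_lev_succ (x := z) (k := lev z - 1) (by have := hlev z hz1.1; omega)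
  let T : Finset P := univ.filter (fun w => z < w)
  obtain ⟨w, hw⟩ := T.exists_minimal ⟨y, by simp [T, hy]⟩
  have hw1 : z < w := by simpa [T] using hw.1
  have hcov : z ⋖ w := ⟨hw1, fun v hv1 hv2 => by
    have hvT : v ∈ T := by simp [T, hv1]
    exact absurd (hw.2 hvT hv2.le) (not_le_of_gt hv2)⟩
  refine ⟨z, mem_filter.mpr ⟨hz1.1, w, ?_, hcov⟩, hz1.2⟩
  intro hwD
  exact absurd (hz.2 (mem_filter.mpr ⟨hwD, hz1.2.trans hw1.le⟩) hw1.le) (not_le_of_gt hw1)

/-- elements which cannot be excited at energy `n` can be removed -/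
theorem Z_cut {D : Finset P} (hD : ∀ x y, x ≤ y → y ∈ D → x ∈ D) {i n : ℕ}
    (hlev : ∀ x ∈ D, i < lev x) (hn : ∀ z ∈ D, n < ncone i z) :
    Z P i n = Z {x : P // x ∉ D} i n := by
  classical
  have h1 : DG i D (fun _ => 1) n = 0 := by
    refine DG_eq_zero hlev fun z hz => ?_
    rw [cst_one]
    exact hn z (mem_filter.mp hz).1
  rw [Z_split i D (fun _ => 1) n, h1, add_zero, ← ZB_off hD hlev]
  unfold ND ZB
  refine Finset.sum_congr rfl fun F _ => ?_
  refine Finset.sum_congr (Finset.filter_congr fun e _ => ?_) fun _ _ => rfl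
  unfold Cst
  constructor
  · rintro ⟨hV, hnd⟩
    refine ⟨hV, fun x hx => ?_, fun x _ hxF => ?_⟩
    · have hxF := not_mem_of_not_dg hlev hV hnd x hx
      obtain ⟨z, hz, hxz⟩ := exists_bd (fun x hx => by have := hlev x hx; omega) hx
      have hzD := (mem_filter.mp hz).1
      have hzF := not_mem_of_not_dg hlev hV hnd z hzD
      have h2 := hnd z hz
      unfold Dgz at h2
      have h3 := hV.2.2.1 x z hxz hxF hzF
      rw [rho_of_lt (hlev x hx), rho_of_lt (hlev z hzD)] at h3
      refine ⟨hxF, ?_⟩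
      have h4 : e z = 0 := by
        by_contra h
        exact h2 (Or.inr (by change 1 ≤ e z; omega))
      have h5 : (e x : ℤ) ≤ 0 := by
        rw [h4] at h3
        exact_mod_cast h3
      change e x = 0
      omega
    · have := hV.2.1 x hxF
      simpa using this
  · rintro ⟨hV, h2, -⟩
    refine ⟨hV, fun z hz => ?_⟩
    obtain ⟨h3, h4⟩ := h2 z (mem_filter.mp hz).1
    rintro (h5 | h5)
    · exact h3 h5
    · have h6 : e z = 0 := h4
      have h7 : 1 ≤ e z := h5
      omega

end cut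

end Pool.Agent.GaussPoset

end

/-! From `Pool.Agent.W_448ec_h63.EB` -/

section

/-!
Completion of a truncated shape: the window sums at small energies are those of the completed
shape; truncated Young shapes and truncated shifted shapes are clean.
-/

namespace Pool.Agent.GaussPoset

set_option linter.unusedSectionVars false

open Polynomial Finset OrderDual

universe u

/-- the poset of the cells of `S` (the cell `(0,0)` is the greatest one) -/
abbrev CelS (S : Finset (ℕ × ℕ)) : Type := {p : ℕ × ℕ // p ∈ S}ᵒᵈ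

/-- the cell -/
def cel {S : Finset (ℕ × ℕ)} (x : CelS S) : ℕ × ℕ := (ofDual x).1

lemma cel_inj {S : Finset (ℕ × ℕ)} : Function.Injective (cel (S := S)) := by
  intro x y h
  exact ofDual.injective (Subtype.ext h)

lemma cel_le {S : Finset (ℕ × ℕ)} (x y : CelS S) : x ≤ y ↔ cel y ≤ cel x := Iff.rfl

lemma cel_mem {S : Finset (ℕ × ℕ)} (x : CelS S) : cel x ∈ S := (ofDual x).2

lemma cel_surj {S : Finset (ℕ × ℕ)} {c : ℕ × ℕ} (hc : c ∈ S) : ∃ x : CelS S, cel x = c :=
  ⟨toDual ⟨c, hc⟩, rfl⟩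

/-- levels from coordinates -/
lemma lev_co {Q : Type u} [Fintype Q] [PartialOrder Q] (co : Q → ℕ × ℕ)
    (hle : ∀ x y : Q, x ≤ y ↔ co y ≤ co x)
    (hpred : ∀ x, co x ≠ (0, 0) → ∃ y, co y ≤ co x ∧ (co y).1 + (co y).2 + 1 = (co x).1 + (co x).2)
    (x : Q) : lev x = (co x).1 + (co x).2 := by
  apply le_antisymm
  · have h1 : StrictAnti (fun x : Q => (co x).1 + (co x).2) := by
      intro a b hab
      have h2 := (hle a b).1 hab.le
      have h3 : ¬ co a ≤ co b := fun h => not_le_of_gt hab ((hle b a).2 h)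
      have h4 : (co b).1 ≤ (co a).1 := h2.1
      have h5 : (co b).2 ≤ (co a).2 := h2.2
      have h6 : ¬ ((co a).1 ≤ (co b).1 ∧ (co a).2 ≤ (co b).2) := h3
      change (co b).1 + (co b).2 < (co a).1 + (co a).2
      omega
    exact lev_le h1 x
  · have key : ∀ m : ℕ, ∀ x : Q, (co x).1 + (co x).2 = m → m ≤ lev x := by
      intro m
      induction m with
      | zero => intro _ _; exact Nat.zero_le _
      | succ m ih =>
        intro x hx
        obtain ⟨y, hy, hy2⟩ := hpred x (by
          intro h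
          rw [h] at hx
          simp at hx)
        have h1 := ih y (by omega)
        have h2 : x < y := by
          refine lt_of_le_of_ne ((hle x y).2 hy) ?_
          rintro rfl
          omega
        have h3 := lev_strictAnti h2
        omega
    exact key _ x rfl

section complete

variable {Q : Type u} [Fintype Q] [PartialOrder Q] [DecidableEq Q]

/-- the completed shape has the same window sums at small energies -/
theorem Z_complete (co : Q → ℕ × ℕ) (hinj : Function.Injective co)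
    (hle : ∀ x y : Q, x ≤ y ↔ co y ≤ co x) (S : Finset (ℕ × ℕ)) (hsub : ∀ x, co x ∈ S)
    (hlow : ∀ x, ∀ c ≤ co x, c ∈ S → ∃ y, co y = c) {i n : ℕ}
    (hlevS : ∀ y : CelS S, lev y = (cel y).1 + (cel y).2)
    (hadd : ∀ c ∈ S, (∀ x, co x ≠ c) → i < c.1 + c.2 ∧
      n < (S.filter (fun c' => c' ≤ c ∧ i < c'.1 + c'.2)).card) :
    Z Q i n = Z (CelS S) i n := by
  classical
  set D : Finset (CelS S) := univ.filter (fun y => ∀ x, co x ≠ cel y) with hDdef
  have hmem : ∀ y, y ∈ D ↔ ∀ x, co x ≠ cel y := by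
    intro y
    rw [hDdef, mem_filter]
    simp
  have hD : ∀ x y, x ≤ y → y ∈ D → x ∈ D := by
    intro x y hxy hy
    rw [hmem] at hy ⊢
    intro z hz
    obtain ⟨w, hw⟩ := hlow z (cel y) (by rw [hz]; exact hxy) (cel_mem y)
    exact hy w hw
  have hlev : ∀ y ∈ D, i < lev y := by
    intro y hy
    rw [hlevS]
    exact (hadd (cel y) (cel_mem y) ((hmem y).1 hy)).1
  have hn : ∀ z ∈ D, n < ncone i z := by
    intro z hz
    refine lt_of_lt_of_le (hadd (cel z) (cel_mem z) ((hmem z).1 hz)).2 ?_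
    have h1 : (S.filter (fun c' => c' ≤ cel z ∧ i < c'.1 + c'.2)) ⊆
        (univ.filter (fun x : CelS S => z ≤ x ∧ i < lev x)).image cel := by
      intro c hc
      rw [mem_filter] at hc
      obtain ⟨y, hy⟩ := cel_surj hc.1
      rw [mem_image]
      refine ⟨y, ?_, hy⟩
      rw [mem_filter]
      refine ⟨mem_univ _, ?_, ?_⟩
      · rw [cel_le, hy]
        exact hc.2.1
      · rw [hlevS, hy]
        exact hc.2.2
    rw [ncone_eq]
    exact (card_le_card h1).trans card_image_le
  rw [Z_cut hD hlev hn]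
  let f : Q → {y : CelS S // y ∉ D} := fun x =>
    ⟨toDual ⟨co x, hsub x⟩, fun h => (hmem _).1 h x rfl⟩
  have hbij : Function.Bijective f := by
    constructor
    · intro x y hxy
      have h1 := congrArg (fun z => cel z.1) hxy
      exact hinj h1
    · rintro ⟨y, hy⟩
      rw [hmem] at hy
      push Not at hy
      obtain ⟨x, hx⟩ := hy
      refine ⟨x, Subtype.ext (cel_inj ?_)⟩
      exact hx
  let e : Q ≃o {y : CelS S // y ∉ D} :=
    { toEquiv := Equiv.ofBijective f hbij
      map_rel_iff' := by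
        intro x y
        rw [hle]
        exact Iff.rfl }
  exact EcZ_iso e i n

/-- levels in a lower set of cells -/
lemma lev_cel {S : Finset (ℕ × ℕ)} (hS : ∀ c ∈ S, ∀ c' ≤ c, c' ∈ S) (y : CelS S) :
    lev y = (cel y).1 + (cel y).2 := by
  refine lev_co cel cel_le (fun x hx => ?_) y
  rcases Nat.eq_zero_or_pos (cel x).1 with h | h
  · have h2 : 0 < (cel x).2 := by
      rcases Nat.eq_zero_or_pos (cel x).2 with h3 | h3
      · exact absurd (Prod.ext h h3) hx
      · exact h3
    have h4 : ((cel x).1, (cel x).2 - 1) ≤ cel x := ⟨le_rfl, Nat.sub_le _ _⟩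
    obtain ⟨z, hz⟩ := cel_surj (hS _ (cel_mem x) _ h4)
    refine ⟨z, by rw [hz]; exact h4, ?_⟩
    rw [hz]
    simp only
    omega
  · have h4 : ((cel x).1 - 1, (cel x).2) ≤ cel x := ⟨Nat.sub_le _ _, le_rfl⟩
    obtain ⟨z, hz⟩ := cel_surj (hS _ (cel_mem x) _ h4)
    refine ⟨z, by rw [hz]; exact h4, ?_⟩
    rw [hz]
    simp only
    omega

/-- levels in a lower set of shifted cells -/
lemma lev_cel_shift {S : Finset (ℕ × ℕ)} (hd : ∀ c ∈ S, c.1 ≤ c.2)
    (hS : ∀ c ∈ S, ∀ c' ≤ c, c'.1 ≤ c'.2 → c' ∈ S) (y : CelS S) :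
    lev y = (cel y).1 + (cel y).2 := by
  refine lev_co cel cel_le (fun x hx => ?_) y
  have hdx := hd _ (cel_mem x)
  rcases Nat.eq_zero_or_pos (cel x).1 with h | h
  · have h2 : 0 < (cel x).2 := by
      rcases Nat.eq_zero_or_pos (cel x).2 with h3 | h3
      · exact absurd (Prod.ext h h3) hx
      · exact h3
    have h4 : ((cel x).1, (cel x).2 - 1) ≤ cel x := ⟨le_rfl, Nat.sub_le _ _⟩
    obtain ⟨z, hz⟩ := cel_surj (hS _ (cel_mem x) _ h4 (by simp only; omega))
    refine ⟨z, by rw [hz]; exact h4, ?_⟩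
    rw [hz]
    simp only
    omega
  · have h4 : ((cel x).1 - 1, (cel x).2) ≤ cel x := ⟨Nat.sub_le _ _, le_rfl⟩
    obtain ⟨z, hz⟩ := cel_surj (hS _ (cel_mem x) _ h4 (by simp only; omega))
    refine ⟨z, by rw [hz]; exact h4, ?_⟩
    rw [hz]
    simp only
    omega

/-- the cone of an added cell -/
lemma cone_card {S : Finset (ℕ × ℕ)} {i r s c : ℕ} (hs : r ≤ s) (hc : r ≤ c)
    (hl : i + r + 1 ≤ s + c) (h1 : ∀ j ≤ r, (s - j, c) ∈ S) (h2 : ∀ j ≤ r, (s, c - j) ∈ S) :
    2 * r + 1 ≤ (S.filter (fun c' => c' ≤ (s, c) ∧ i < c'.1 + c'.2)).card := by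
  classical
  have h3 : ((range (r + 1)).image (fun j => (s - j, c)) ∪
      (range r).image (fun j => (s, c - (j + 1)))) ⊆
      S.filter (fun c' => c' ≤ (s, c) ∧ i < c'.1 + c'.2) := by
    intro p hp
    rw [mem_union, mem_image, mem_image] at hp
    rw [mem_filter]
    rcases hp with ⟨j, hj, rfl⟩ | ⟨j, hj, rfl⟩
    · rw [mem_range] at hj
      exact ⟨h1 j (by omega), ⟨Nat.sub_le _ _, le_rfl⟩, by simp only; omega⟩
    · rw [mem_range] at hj
      exact ⟨h2 (j + 1) (by omega), ⟨le_rfl, Nat.sub_le _ _⟩, by simp only; omega⟩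
  refine le_trans ?_ (card_le_card h3)
  rw [card_union_of_disjoint, card_image_of_injOn, card_image_of_injOn, card_range, card_range]
  · omega
  · intro a ha b hb hab
    rw [mem_coe, mem_range] at ha hb
    simp only [Prod.mk.injEq, true_and] at hab
    omega
  · intro a ha b hb hab
    rw [mem_coe, mem_range] at ha hb
    simp only [Prod.mk.injEq, and_true] at hab
    omega
  · rw [disjoint_left]
    intro p hp hp'
    rw [mem_image] at hp hp'
    obtain ⟨j, hj, rfl⟩ := hp
    obtain ⟨j', hj', h⟩ := hp'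
    rw [mem_range] at hj hj'
    simp only [Prod.mk.injEq] at h
    omega

/-- TRUNCATED YOUNG SHAPES: if the cells `(s,c)` with `s < k`, `c ≤ i`, `s + c ≤ J` are present then
the window `i` has order `k` at the energies up to `2 (J - i)` -/
theorem young_trunc (co : Q → ℕ × ℕ) (hinj : Function.Injective co)
    (hle : ∀ x y : Q, x ≤ y ↔ co y ≤ co x) (hlow : ∀ x : Q, ∀ c ≤ co x, ∃ y, co y = c)
    {i k J : ℕ} (hk : k ≤ i + 1) (hiJ : i ≤ J)
    (hbase : ∀ s c, s < k → c ≤ i → s + c ≤ J → ∃ x, co x = (s, c)) {n : ℕ}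
    (hn : n ≤ 2 * (J - i)) : (1 + X : ℤ[X]) ^ k ∣ Z Q i n := by
  classical
  set S : Finset (ℕ × ℕ) := univ.image co ∪ (range k ×ˢ range (i + 1)) with hSdef
  have hmem : ∀ p, p ∈ S ↔ (∃ x, co x = p) ∨ (p.1 < k ∧ p.2 ≤ i) := by
    intro p
    rw [hSdef, mem_union, mem_image, mem_product, mem_range, mem_range, Nat.lt_succ_iff]
    simp
  have hSlow : ∀ c ∈ S, ∀ c' ≤ c, c' ∈ S := by
    intro c hc c' hc'
    rw [hmem] at hc ⊢
    rcases hc with ⟨x, rfl⟩ | ⟨h1, h2⟩
    · exact Or.inl (hlow x c' hc')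
    · have h3 : c'.1 ≤ c.1 := hc'.1
      have h4 : c'.2 ≤ c.2 := hc'.2
      exact Or.inr ⟨by omega, by omega⟩
  have hZ := Z_complete co hinj hle S (fun x => (hmem _).2 (Or.inl ⟨x, rfl⟩))
    (fun x c hc _ => hlow x c hc) (i := i) (n := n) (lev_cel hSlow) (by
      rintro ⟨s, c⟩ hc hno
      have h1 : s < k ∧ c ≤ i := by
        rcases (hmem _).1 hc with ⟨x, hx⟩ | h
        · exact absurd hx (hno x)
        · exact h
      have h2 : J < s + c := by
        by_contra hcon
        obtain ⟨x, hx⟩ := hbase s c h1.1 h1.2 (by omega)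
        exact hno x hx
      refine ⟨by simp only; omega, ?_⟩
      have h3 := cone_card (S := S) (i := i) (r := J - i) (s := s) (c := c) (by omega) (by omega)
        (by omega) (fun j _ => (hmem _).2 (Or.inr ⟨by simp only; omega, h1.2⟩))
        (fun j _ => (hmem _).2 (Or.inr ⟨h1.1, by simp only; omega⟩))
      omega)
  rw [hZ]
  refine dvd_Z_of_dvd_W ?_ n
  refine Yg.young_dvd_co cel cel_inj cel_le (fun x c hc => cel_surj (hSlow _ (cel_mem x) c hc)) hk
    (fun s hs => cel_surj ((hmem _).2 (Or.inr ⟨by simp only; omega, le_rfl⟩)))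

end complete

end Pool.Agent.GaussPoset

end

/-! From `Pool.Agent.W_448ec_h63.EC` -/

section

/-!
Duality: the window sums of a pure graded poset of rank `r` at the windows `i` and `r - i` of the
dual poset have the same divisibility by powers of `1 + X`.
-/

namespace Pool.Agent.GaussPoset

set_option linter.unusedSectionVars false

open Polynomial Finset OrderDual

universe u

/-- graded and pure of rank `r` -/
structure Pure' (Q : Type u) [Fintype Q] [PartialOrder Q] (r : ℕ) : Prop where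
  cov : ∀ x y : Q, x ⋖ y → lev x = lev y + 1
  le : ∀ x : Q, lev x ≤ r
  dual : ∀ x : Q, lev (toDual x) = r - lev x

section dual

variable {Q : Type u} [Fintype Q] [PartialOrder Q] [DecidableEq Q] {r : ℕ}

lemma Pure'.od (H : Pure' Q r) : Pure' Qᵒᵈ r where
  cov := by
    intro x y hxy
    have h1 : ofDual y ⋖ ofDual x := hxy.ofDual
    have h2 := H.cov _ _ h1
    have h3 := H.dual (ofDual x)
    have h4 := H.dual (ofDual y)
    have h5 := H.le (ofDual x)
    have h6 := H.le (ofDual y)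
    rw [toDual_ofDual] at h3 h4
    omega
  le := by
    intro x
    have h3 := H.dual (ofDual x)
    rw [toDual_ofDual] at h3
    omega
  dual := by
    intro x
    have h3 := H.dual (ofDual x)
    have h5 := H.le (ofDual x)
    rw [toDual_ofDual] at h3
    have h6 : lev (toDual x) = lev (ofDual x) := by
      have e : Qᵒᵈᵒᵈ ≃o Q := OrderIso.dualDual Q |>.symm
      have h7 := Ec_lev_iso (OrderIso.dualDual Q) (ofDual x)
      exact h7
    rw [h6, h3]
    omega

/-- the label function of the dual -/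
def dlab (e : Q → ℕ) : Qᵒᵈ → ℕ := fun x => e (ofDual x)

/-- the filter of the dual -/
def dfil (F : Finset Q) : Finset Qᵒᵈ := univ.filter (fun x => ofDual x ∉ F)

lemma mem_dfil {F : Finset Q} {x : Qᵒᵈ} : x ∈ dfil F ↔ ofDual x ∉ F := by
  unfold dfil
  rw [mem_filter]
  simp

lemma rho_dual (H : Pure' Q r) {i : ℕ} (hi : i ≤ r) (e : Q → ℕ) (x : Q) :
    rho (r - i) (dlab e) (toDual x) = rho i e x + (i : ℤ) - (lev x : ℤ) := by
  unfold rho dlab
  rw [H.dual]
  have h1 := H.le x
  simp only [ofDual_toDual]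
  omega

/-- valid filters of the dual, one direction -/
lemma vd_dual (H : Pure' Q r) {i : ℕ} (hi : i ≤ r) {e : Q → ℕ} {F : Finset Q} (hV : Vd i e F) :
    Vd (r - i) (dlab e) (dfil F) := by
  obtain ⟨h1, h2, h3, h4⟩ := hV
  -- on the filter: `rho - lev` is monotone downwards
  have key : ∀ y : Q, y ∈ F → ∀ x, x ≤ y → x ∈ F → rho i e y - lev y ≤ rho i e x - lev x := by
    intro y hy
    refine Win.normb_induct (C := fun x => x ∈ F → rho i e y - lev y ≤ rho i e x - lev x)
      (fun _ => le_rfl) ?_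
    intro x z hxz hzy ih hx
    have hz : z ∈ F := h1 x z hxz.le hx
    have h5 := ih hz
    have h6 := h4 x z hxz.lt hx hz
    have h7 := H.cov x z hxz
    omega
  refine ⟨?_, ?_, ?_, ?_⟩
  · intro a b hab ha
    rw [mem_dfil] at ha ⊢
    intro hb
    exact ha (h1 (ofDual b) (ofDual a) hab hb)
  · intro a ha
    rw [mem_dfil, not_not] at ha
    have h5 := rho_dual H hi e (ofDual a)
    rw [toDual_ofDual] at h5
    rw [h5]
    obtain ⟨t, ht, ht0⟩ := exists_above' (x := ofDual a) (j := 0) (Nat.zero_le _)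
    have htF := h1 _ _ ht ha
    have h6 := key t htF (ofDual a) ht ha
    have h7 : -(i : ℤ) ≤ rho i e t := by
      unfold rho
      omega
    omega
  · intro a b hab ha hb
    rw [mem_dfil, not_not] at ha hb
    have h5 := rho_dual H hi e (ofDual a)
    have h6 := rho_dual H hi e (ofDual b)
    rw [toDual_ofDual] at h5 h6
    rw [h5, h6]
    have h7 := key (ofDual a) ha (ofDual b) hab hb
    omega
  · intro a b hab ha hb
    rw [mem_dfil] at ha hb
    have h5 := rho_dual H hi e (ofDual a)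
    have h6 := rho_dual H hi e (ofDual b)
    rw [toDual_ofDual] at h5 h6
    rw [h5, h6]
    have h7 : ofDual b < ofDual a := hab
    have h8 := h3 (ofDual b) (ofDual a) h7.le hb ha
    have h9 := lev_strictAnti h7
    omega

lemma card_dfil (F : Finset Q) : (dfil F).card = Fintype.card Q - F.card := by
  have h1 : (dfil F).card = (Fᶜ).card := by
    refine Finset.card_bij (fun x _ => ofDual x) ?_ ?_ ?_
    · intro x hx
      rw [mem_dfil] at hx
      exact mem_compl.2 hx
    · intro x _ y _ h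
      exact ofDual.injective h
    · intro y hy
      exact ⟨toDual y, mem_dfil.2 (mem_compl.1 hy), rfl⟩
  rw [h1, card_compl]

/-- the window sums of the dual -/
theorem Z_reflect (H : Pure' Q r) {i : ℕ} (hi : i ≤ r) (n : ℕ) :
    Z Q i n = (Z Qᵒᵈ (r - i) n).reflect (Fintype.card Q) := by
  classical
  rw [Z_eq_sum, Z_eq_sum]
  have hrefl : (∑ e ∈ (univ : Finset Qᵒᵈ).piAntidiag n, ∑ F : Finset Qᵒᵈ,
      (if Vd (r - i) e F then (X : ℤ[X]) ^ F.card else 0)).reflect (Fintype.card Q) =
      ∑ e ∈ (univ : Finset Qᵒᵈ).piAntidiag n, ∑ F : Finset Qᵒᵈ,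
        (if Vd (r - i) e F then (X : ℤ[X]) ^ (Fintype.card Q - F.card) else 0) := by
    have hadd : ∀ (ι : Type u) (s : Finset ι) (f : ι → ℤ[X]) (N : ℕ),
        (∑ a ∈ s, f a).reflect N = ∑ a ∈ s, (f a).reflect N := by
      intro ι s f N
      induction s using Finset.induction_on with
      | empty => simp
      | insert a s ha ih => rw [sum_insert ha, sum_insert ha, reflect_add, ih]
    rw [hadd]
    refine Finset.sum_congr rfl fun e _ => ?_
    rw [hadd]
    refine Finset.sum_congr rfl fun F _ => ?_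
    split_ifs
    · have h1 : F.card ≤ Fintype.card Q := by
        have := card_le_univ F
        rwa [Fintype.card_orderDual] at this
      have h2 := reflect_monomial (R := ℤ) (Fintype.card Q) F.card
      rw [h2, revAt_le h1]
    · simp
  refine Eq.trans ?_ hrefl.symm
  rw [Finset.sum_sigma', Finset.sum_sigma']
  refine Finset.sum_bij' (fun a _ => (⟨dlab a.1, dfil a.2⟩ : (_ : Qᵒᵈ → ℕ) × (Finset Qᵒᵈ)))
    (fun a _ => (⟨fun x => a.1 (toDual x), univ.filter (fun x => toDual x ∉ a.2)⟩ :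
      (_ : Q → ℕ) × (Finset Q))) ?_ ?_ ?_ ?_ ?_
  · rintro ⟨e, F⟩ ha
    simp only [mem_sigma, mem_univ, and_true, mem_piAntidiag] at ha ⊢
    refine ⟨?_, fun _ _ => trivial⟩
    rw [← ha.1]
    rfl
  · rintro ⟨e, F⟩ ha
    simp only [mem_sigma, mem_univ, and_true, mem_piAntidiag] at ha ⊢
    refine ⟨?_, fun _ _ => trivial⟩
    rw [← ha.1]
    rfl
  · rintro ⟨e, F⟩ _
    simp only [Sigma.mk.injEq, heq_eq_eq]
    refine ⟨rfl, ?_⟩
    ext x
    simp [mem_dfil]
  · rintro ⟨e, F⟩ _
    simp only [Sigma.mk.injEq, heq_eq_eq]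
    refine ⟨rfl, ?_⟩
    ext x
    rw [mem_dfil]
    simp
  · rintro ⟨e, F⟩ _
    simp only
    have h1 : F.card ≤ Fintype.card Q := card_le_univ F
    rw [card_dfil, Nat.sub_sub_self h1]
    have hiff : Vd i e F ↔ Vd (r - i) (dlab e) (dfil F) := by
      constructor
      · exact vd_dual H hi
      · intro h
        have h2 := vd_dual H.od (Nat.sub_le r i) h
        rw [Nat.sub_sub_self hi] at h2
        obtain ⟨g1, g2, g3, g4⟩ := h2
        have hr : ∀ x : Q, rho i (dlab (dlab e)) (toDual (toDual x)) = rho i e x := by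
          intro x
          unfold rho dlab
          have h7 : lev (toDual (toDual x)) = lev x := Ec_lev_iso (OrderIso.dualDual Q) x
          rw [h7]
          simp
        have hm : ∀ x : Q, toDual (toDual x) ∈ dfil (dfil F) ↔ x ∈ F := by
          intro x
          rw [mem_dfil, mem_dfil]
          simp
        refine ⟨?_, ?_, ?_, ?_⟩
        · intro x y hxy hx
          rw [← hm] at hx ⊢
          exact g1 _ _ hxy hx
        · intro x hx
          rw [← hr]
          exact g2 _ (fun h => hx ((hm x).1 h))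
        · intro x y hxy hx hy
          rw [← hr, ← hr]
          exact g3 _ _ hxy (fun h => hx ((hm x).1 h)) (fun h => hy ((hm y).1 h))
        · intro x y hxy hx hy
          rw [← hr, ← hr]
          exact g4 _ _ hxy ((hm x).2 hx) ((hm y).2 hy)
    by_cases hV : Vd i e F
    · rw [if_pos hV, if_pos (hiff.1 hV)]
    · rw [if_neg hV, if_neg (fun h => hV (hiff.2 h))]

lemma reflect_one_add_pow (b : ℕ) : ((1 + X : ℤ[X]) ^ b).reflect b = (1 + X) ^ b := by
  induction b with
  | zero => simp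
  | succ b ih =>
    have h1 : ((1 + X : ℤ[X]) ^ b).natDegree ≤ b := by
      have := natDegree_pow_le (p := (1 + X : ℤ[X])) (n := b)
      have h2 : (1 + X : ℤ[X]).natDegree = 1 := by
        rw [add_comm]
        exact natDegree_X_add_C (1 : ℤ)
      rw [h2] at this
      omega
    have h2 : (1 + X : ℤ[X]).natDegree ≤ 1 := by
      rw [add_comm]
      exact (natDegree_X_add_C (1 : ℤ)).le
    rw [pow_succ, reflect_mul _ _ h1 h2, ih]
    congr 1
    rw [reflect_add]
    have h3 : (1 : ℤ[X]).reflect 1 = X := by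
      have := reflect_C (1 : ℤ) 1
      simpa using this
    have h4 : (X : ℤ[X]).reflect 1 = 1 := by
      have := reflect_monomial (R := ℤ) 1 1
      simpa using this
    rw [h3, h4, add_comm]

lemma Ec_dvd_reflect {b N : ℕ} {p : ℤ[X]} (hN : p.natDegree ≤ N) (h : (1 + X : ℤ[X]) ^ b ∣ p) :
    (1 + X : ℤ[X]) ^ b ∣ p.reflect N := by
  obtain ⟨q, hq⟩ := h
  have hm : (1 + X : ℤ[X]).Monic := by
    have := monic_X_add_C (1 : ℤ)
    rwa [map_one, add_comm] at this
  have hmb := hm.pow b
  have hd : ((1 + X : ℤ[X]) ^ b).natDegree = b := by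
    rw [hm.natDegree_pow]
    have h2 : (1 + X : ℤ[X]).natDegree = 1 := by
      rw [add_comm]
      exact natDegree_X_add_C (1 : ℤ)
    rw [h2, mul_one]
  by_cases hq0 : q = 0
  · rw [hq, hq0, mul_zero, reflect_zero]
    exact dvd_zero _
  have h3 : p.natDegree = b + q.natDegree := by
    rw [hq, hmb.natDegree_mul' hq0, hd]
  have h4 := reflect_mul ((1 + X : ℤ[X]) ^ b) q hd.le (show q.natDegree ≤ N - b by omega)
  rw [show b + (N - b) = N by omega, ← hq, reflect_one_add_pow] at h4
  rw [h4]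
  exact dvd_mul_right _ _

lemma Z_natDegree {R : Type u} [Fintype R] [PartialOrder R] [DecidableEq R] (i n : ℕ) :
    (Z R i n).natDegree ≤ Fintype.card R := by
  classical
  rw [Z_eq_sum]
  refine natDegree_sum_le_of_forall_le _ _ fun e _ => ?_
  refine natDegree_sum_le_of_forall_le _ _ fun F _ => ?_
  split_ifs
  · rw [natDegree_X_pow]
    exact card_le_univ F
  · simp

/-- DUALITY -/
theorem dvd_Z_dual (H : Pure' Q r) {i b : ℕ} (hi : i ≤ r) {n : ℕ}
    (h : (1 + X : ℤ[X]) ^ b ∣ Z Qᵒᵈ (r - i) n) : (1 + X : ℤ[X]) ^ b ∣ Z Q i n := by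
  rw [Z_reflect H hi n]
  refine Ec_dvd_reflect ?_ h
  have := Z_natDegree (R := Qᵒᵈ) (r - i) n
  rwa [Fintype.card_orderDual] at this

end dual

end Pool.Agent.GaussPoset

end

/-! From `Pool.Agent.W_448ec_h63.ED` -/

section

/-!
Closed rectangles and closed staircases at the windows below the width, truncated versions.
-/

namespace Pool.Agent.GaussPoset

set_option linter.unusedSectionVars false

open Polynomial Finset OrderDual

universe u

/-- covers in a lower set of cells -/
lemma cel_cov {S : Finset (ℕ × ℕ)} {T : ℕ × ℕ → Prop} (hT : Conn T) (hST : ∀ c ∈ S, T c)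
    (hlow : ∀ c ∈ S, ∀ c' ≤ c, T c' → c' ∈ S)
    (hlev : ∀ y : CelS S, lev y = (cel y).1 + (cel y).2) (x y : CelS S) (h : x ⋖ y) :
    lev x = lev y + 1 := by
  have h1 : cel y ≤ cel x := h.le
  have h2 : cel y ≠ cel x := fun h' => h.lt.ne (cel_inj h').symm
  obtain ⟨p', hp', hcp, hpr⟩ := hT (cel y) (cel x) (hST _ (cel_mem y)) (hST _ (cel_mem x)) h1 h2
  obtain ⟨z, hz⟩ := cel_surj (hlow _ (cel_mem x) p' hpr.le hp')
  have h3 : x < z := by
    refine lt_of_le_of_ne ?_ ?_
    · rw [cel_le, hz]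
      exact hpr.le
    · rintro rfl
      exact hpr.ne hz.symm
  have h4 : z ≤ y := by
    rw [cel_le, hz]
    exact hcp
  have h5 : z = y := by
    rcases eq_or_lt_of_le h4 with h5 | h5
    · exact h5
    · exact absurd h5 (h.2 h3)
  rw [hlev, hlev, ← h5, hz]
  rcases hpr with h6 | h6 <;> omega

section rect

variable {p q : ℕ}

/-- the rectangle -/
def rec2 (p q : ℕ) : Finset (ℕ × ℕ) := range p ×ˢ range q

lemma mem_rec2 {p q : ℕ} {c : ℕ × ℕ} : c ∈ rec2 p q ↔ c.1 < p ∧ c.2 < q := by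
  unfold rec2
  rw [mem_product, mem_range, mem_range]

lemma rec2_low : ∀ c ∈ rec2 p q, ∀ c' ≤ c, c' ∈ rec2 p q := by
  intro c hc c' hc'
  rw [mem_rec2] at hc ⊢
  have h1 : c'.1 ≤ c.1 := hc'.1
  have h2 : c'.2 ≤ c.2 := hc'.2
  omega

/-- coordinates of the dual rectangle -/
def drec (p q : ℕ) (x : (CelS (rec2 p q))ᵒᵈ) : ℕ × ℕ :=
  (p - 1 - (cel (ofDual x)).1, q - 1 - (cel (ofDual x)).2)

lemma drec_lt (x : (CelS (rec2 p q))ᵒᵈ) : (cel (ofDual x)).1 < p ∧ (cel (ofDual x)).2 < q :=
  mem_rec2.1 (cel_mem _)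

lemma drec_le (x y : (CelS (rec2 p q))ᵒᵈ) : x ≤ y ↔ drec p q y ≤ drec p q x := by
  have hx := drec_lt x
  have hy := drec_lt y
  have h1 : x ≤ y ↔ cel (ofDual x) ≤ cel (ofDual y) := Iff.rfl
  rw [h1]
  unfold drec
  constructor
  · intro h
    have h2 : (cel (ofDual x)).1 ≤ (cel (ofDual y)).1 := h.1
    have h3 : (cel (ofDual x)).2 ≤ (cel (ofDual y)).2 := h.2
    exact ⟨by simp only; omega, by simp only; omega⟩
  · intro h
    have h2 : p - 1 - (cel (ofDual y)).1 ≤ p - 1 - (cel (ofDual x)).1 := h.1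
    have h3 : q - 1 - (cel (ofDual y)).2 ≤ q - 1 - (cel (ofDual x)).2 := h.2
    exact ⟨by omega, by omega⟩

lemma drec_inj : Function.Injective (drec p q) := by
  intro x y h
  have h1 := (drec_le x y).2 h.symm.le
  have h2 := (drec_le y x).2 h.le
  exact le_antisymm h1 h2

lemma drec_surj {c : ℕ × ℕ} (hc : c.1 < p ∧ c.2 < q) : ∃ x, drec p q x = c := by
  obtain ⟨y, hy⟩ := cel_surj (S := rec2 p q) (c := (p - 1 - c.1, q - 1 - c.2))
    (mem_rec2.2 ⟨by simp only; omega, by simp only; omega⟩)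
  refine ⟨toDual y, ?_⟩
  unfold drec
  rw [ofDual_toDual, hy]
  simp only
  exact Prod.ext (by simp only; omega) (by simp only; omega)

lemma drec_mem (x : (CelS (rec2 p q))ᵒᵈ) : (drec p q x).1 < p ∧ (drec p q x).2 < q := by
  have hx := drec_lt x
  unfold drec
  simp only
  omega

lemma pure_rect : Pure' (CelS (rec2 p q)) (p + q - 2) where
  cov := fun x y h => cel_cov conn_true (fun _ _ => trivial)
    (fun c hc c' hc' _ => rec2_low c hc c' hc') (lev_cel rec2_low) x y h
  le := by
    intro x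
    rw [lev_cel rec2_low]
    have h1 := mem_rec2.1 (cel_mem x)
    omega
  dual := by
    intro x
    have h1 := mem_rec2.1 (cel_mem x)
    have h2 : lev (toDual x) = (drec p q (toDual x)).1 + (drec p q (toDual x)).2 := by
      refine lev_co (drec p q) drec_le ?_ (toDual x)
      intro y hy
      have h3 := drec_mem y
      rcases Nat.eq_zero_or_pos (drec p q y).1 with h | h
      · have h2 : 0 < (drec p q y).2 := by
          rcases Nat.eq_zero_or_pos (drec p q y).2 with h3 | h3
          · exact absurd (Prod.ext h h3) hy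
          · exact h3
        obtain ⟨z, hz⟩ := drec_surj (p := p) (q := q) (c := ((drec p q y).1, (drec p q y).2 - 1))
          ⟨by simp only; omega, by simp only; omega⟩
        exact ⟨z, by rw [hz]; exact ⟨le_rfl, Nat.sub_le _ _⟩, by rw [hz]; simp only; omega⟩
      · obtain ⟨z, hz⟩ := drec_surj (p := p) (q := q) (c := ((drec p q y).1 - 1, (drec p q y).2))
          ⟨by simp only; omega, by simp only; omega⟩
        exact ⟨z, by rw [hz]; exact ⟨Nat.sub_le _ _, le_rfl⟩, by rw [hz]; simp only; omega⟩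
    rw [h2, lev_cel rec2_low]
    unfold drec
    simp only [ofDual_toDual]
    omega

/-- the closed rectangle at a window below its width -/
theorem rect_full {i : ℕ} (hp : p ≤ i + 1) (hq : q ≤ i + 1) (hr : i + 2 ≤ p + q) (n : ℕ) :
    (1 + X : ℤ[X]) ^ (p + q - 1 - i) ∣ Z (CelS (rec2 p q)) i n := by
  classical
  refine dvd_Z_dual (pure_rect (p := p) (q := q)) (by omega) ?_
  refine dvd_Z_of_dvd_W ?_ n
  refine Yg.young_dvd_co (drec p q) drec_inj drec_le ?_ (by omega) ?_
  · intro x c hc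
    have h1 := drec_mem x
    have h2 : c.1 ≤ (drec p q x).1 := hc.1
    have h3 : c.2 ≤ (drec p q x).2 := hc.2
    exact drec_surj ⟨by omega, by omega⟩
  · intro s hs
    exact drec_surj ⟨by simp only; omega, by simp only; omega⟩

/-- truncated rectangle -/
theorem rect_trunc {Q : Type u} [Fintype Q] [PartialOrder Q] [DecidableEq Q] (co : Q → ℕ × ℕ)
    (hinj : Function.Injective co) (hle : ∀ x y : Q, x ≤ y ↔ co y ≤ co x)
    (hlow : ∀ x : Q, ∀ c ≤ co x, ∃ y, co y = c) {i J : ℕ} (hp : p ≤ i + 1) (hq : q ≤ i + 1)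
    (hr : i + 2 ≤ p + q) (hiJ : i ≤ J) (hsub : ∀ x, (co x).1 < p ∧ (co x).2 < q)
    (hbase : ∀ s c, s < p → c < q → s + c ≤ J → ∃ x, co x = (s, c)) {n : ℕ}
    (hn : n ≤ 2 * (J - i)) : (1 + X : ℤ[X]) ^ (p + q - 1 - i) ∣ Z Q i n := by
  classical
  have hZ := Z_complete co hinj hle (rec2 p q) (fun x => mem_rec2.2 (hsub x))
    (fun x c hc _ => hlow x c hc) (i := i) (n := n) (lev_cel rec2_low) (by
      rintro ⟨s, c⟩ hc hno
      have h1 := mem_rec2.1 hc
      simp only at h1
      have h2 : J < s + c := by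
        by_contra hcon
        obtain ⟨x, hx⟩ := hbase s c h1.1 h1.2 (by omega)
        exact hno x hx
      refine ⟨by simp only; omega, ?_⟩
      have h3 := cone_card (S := rec2 p q) (i := i) (r := J - i) (s := s) (c := c) (by omega)
        (by omega) (by omega) (fun j _ => mem_rec2.2 ⟨by simp only; omega, h1.2⟩)
        (fun j _ => mem_rec2.2 ⟨h1.1, by simp only; omega⟩)
      omega)
  rw [hZ]
  exact rect_full hp hq hr n

end rect

section stair

variable {C : ℕ}

/-- the closed staircase -/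
def stc (C : ℕ) : Finset (ℕ × ℕ) := (range C ×ˢ range C).filter (fun c => c.1 ≤ c.2)

lemma mem_stc {C : ℕ} {c : ℕ × ℕ} : c ∈ stc C ↔ c.1 ≤ c.2 ∧ c.2 < C := by
  unfold stc
  rw [mem_filter, mem_product, mem_range, mem_range]
  omega

lemma stc_low : ∀ c ∈ stc C, ∀ c' ≤ c, c'.1 ≤ c'.2 → c' ∈ stc C := by
  intro c hc c' hc' h
  rw [mem_stc] at hc ⊢
  have h2 : c'.2 ≤ c.2 := hc'.2
  omega

lemma stc_shift : ∀ c ∈ stc C, c.1 ≤ c.2 := fun _ hc => (mem_stc.1 hc).1

/-- coordinates of the dual staircase -/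
def dstc (C : ℕ) (x : (CelS (stc C))ᵒᵈ) : ℕ × ℕ :=
  (C - 1 - (cel (ofDual x)).2, C - 1 - (cel (ofDual x)).1)

lemma dstc_lt (x : (CelS (stc C))ᵒᵈ) :
    (cel (ofDual x)).1 ≤ (cel (ofDual x)).2 ∧ (cel (ofDual x)).2 < C :=
  mem_stc.1 (cel_mem _)

lemma dstc_le (x y : (CelS (stc C))ᵒᵈ) : x ≤ y ↔ dstc C y ≤ dstc C x := by
  have hx := dstc_lt x
  have hy := dstc_lt y
  have h1 : x ≤ y ↔ cel (ofDual x) ≤ cel (ofDual y) := Iff.rfl
  rw [h1]
  unfold dstc
  constructor
  · intro h
    have h2 : (cel (ofDual x)).1 ≤ (cel (ofDual y)).1 := h.1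
    have h3 : (cel (ofDual x)).2 ≤ (cel (ofDual y)).2 := h.2
    exact ⟨by simp only; omega, by simp only; omega⟩
  · intro h
    have h2 : C - 1 - (cel (ofDual y)).2 ≤ C - 1 - (cel (ofDual x)).2 := h.1
    have h3 : C - 1 - (cel (ofDual y)).1 ≤ C - 1 - (cel (ofDual x)).1 := h.2
    exact ⟨by omega, by omega⟩

lemma dstc_inj : Function.Injective (dstc C) := by
  intro x y h
  have h1 := (dstc_le x y).2 h.symm.le
  have h2 := (dstc_le y x).2 h.le
  exact le_antisymm h1 h2

lemma dstc_surj {c : ℕ × ℕ} (hc : c.1 ≤ c.2 ∧ c.2 < C) : ∃ x, dstc C x = c := by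
  obtain ⟨y, hy⟩ := cel_surj (S := stc C) (c := (C - 1 - c.2, C - 1 - c.1))
    (mem_stc.2 ⟨by simp only; omega, by simp only; omega⟩)
  refine ⟨toDual y, ?_⟩
  unfold dstc
  rw [ofDual_toDual, hy]
  simp only
  exact Prod.ext (by simp only; omega) (by simp only; omega)

lemma dstc_mem (x : (CelS (stc C))ᵒᵈ) : (dstc C x).1 ≤ (dstc C x).2 ∧ (dstc C x).2 < C := by
  have hx := dstc_lt x
  unfold dstc
  simp only
  omega

lemma pure_stair : Pure' (CelS (stc C)) (2 * C - 2) where
  cov := fun x y h => cel_cov conn_shift stc_shift stc_low (lev_cel_shift stc_shift stc_low) x y h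
  le := by
    intro x
    rw [lev_cel_shift stc_shift stc_low]
    have h1 := mem_stc.1 (cel_mem x)
    omega
  dual := by
    intro x
    have h1 := mem_stc.1 (cel_mem x)
    have h2 : lev (toDual x) = (dstc C (toDual x)).1 + (dstc C (toDual x)).2 := by
      refine lev_co (dstc C) dstc_le ?_ (toDual x)
      intro y hy
      have h3 := dstc_mem y
      rcases Nat.eq_zero_or_pos (dstc C y).1 with h | h
      · have h2 : 0 < (dstc C y).2 := by
          rcases Nat.eq_zero_or_pos (dstc C y).2 with h3 | h3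
          · exact absurd (Prod.ext h h3) hy
          · exact h3
        obtain ⟨z, hz⟩ := dstc_surj (C := C) (c := ((dstc C y).1, (dstc C y).2 - 1))
          ⟨by simp only; omega, by simp only; omega⟩
        exact ⟨z, by rw [hz]; exact ⟨le_rfl, Nat.sub_le _ _⟩, by rw [hz]; simp only; omega⟩
      · obtain ⟨z, hz⟩ := dstc_surj (C := C) (c := ((dstc C y).1 - 1, (dstc C y).2))
          ⟨by simp only; omega, by simp only; omega⟩
        exact ⟨z, by rw [hz]; exact ⟨Nat.sub_le _ _, le_rfl⟩, by rw [hz]; simp only; omega⟩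
    rw [h2, lev_cel_shift stc_shift stc_low]
    unfold dstc
    simp only [ofDual_toDual]
    omega

/-- the closed staircase at a window below its width -/
theorem stair_full {i : ℕ} (hC : C ≤ i + 1) (hi : i + 2 ≤ 2 * C) (n : ℕ) :
    (1 + X : ℤ[X]) ^ ((2 * C - 2 - i) / 2 + 1) ∣ Z (CelS (stc C)) i n := by
  classical
  refine dvd_Z_dual (pure_stair (C := C)) (by omega) ?_
  refine dvd_Z_of_dvd_W ?_ n
  refine Yg.shift_dvd_cell (dstc C) dstc_inj (fun x => (dstc_mem x).1) dstc_le ?_ ?_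
  · intro x c hc hs
    have h1 := dstc_mem x
    have h3 : c.2 ≤ (dstc C x).2 := hc.2
    exact dstc_surj ⟨hs, by omega⟩
  · exact dstc_surj ⟨by simp only; omega, by simp only; omega⟩

end stair

end Pool.Agent.GaussPoset

end

/-! From `Pool.Agent.W_448ec_h63.EE` -/

section

/-!
Truncated staircases.
-/

namespace Pool.Agent.GaussPoset

set_option linter.unusedSectionVars false

open Polynomial Finset OrderDual

universe u

/-- a segment of a column -/
def sgm (a c L : ℕ) : Finset (ℕ × ℕ) := (range L).image (fun j => (a - j, c))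

lemma sgm_card {a c L : ℕ} (h : L ≤ a + 1) : (sgm a c L).card = L := by
  unfold sgm
  rw [card_image_of_injOn, card_range]
  intro x hx y hy hxy
  rw [mem_coe, mem_range] at hx hy
  simp only [Prod.mk.injEq, and_true] at hxy
  omega

lemma mem_sgm {a c L : ℕ} {p : ℕ × ℕ} (hp : p ∈ sgm a c L) : ∃ j < L, p = (a - j, c) := by
  unfold sgm at hp
  rw [mem_image] at hp
  obtain ⟨j, hj, rfl⟩ := hp
  exact ⟨j, mem_range.1 hj, rfl⟩

lemma sgm_disj {a c L a' c' L' : ℕ} (h : c ≠ c') : Disjoint (sgm a c L) (sgm a' c' L') := by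
  rw [disjoint_left]
  intro p hp hp'
  obtain ⟨j, -, rfl⟩ := mem_sgm hp
  obtain ⟨j', -, h2⟩ := mem_sgm hp'
  simp only [Prod.mk.injEq] at h2
  exact h h2.2

/-- the cone of an added cell of a staircase -/
lemma cone_stair {S : Finset (ℕ × ℕ)} {i q J n s c : ℕ}
    (hS : ∀ s' c', s' ≤ c' → c' < q → (s', c') ∈ S) (hq : q ≤ i + 1) (hsc : s ≤ c) (hc : c < q)
    (hJ : J < s + c) (h3 : i + 3 ≤ J) (hn : n ≤ 2 * (J - i))
    (hex : J = i + 3 → n = 6 → s = c → s + c = J + 1 → False) :
    n < (S.filter (fun c' => c' ≤ (s, c) ∧ i < c'.1 + c'.2)).card := by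
  classical
  rcases Nat.eq_or_lt_of_le hsc with hf | hf
  · subst hf
    have hsub : sgm s s (2 * s - i) ∪ (sgm (s - 1) (s - 1) (2 * s - 2 - i) ∪
        sgm (s - 2) (s - 2) (2 * s - 4 - i)) ⊆
        S.filter (fun c' => c' ≤ (s, s) ∧ i < c'.1 + c'.2) := by
      intro p hp
      rw [mem_filter]
      rw [mem_union, mem_union] at hp
      rcases hp with hp | hp | hp
      · obtain ⟨j, hj, rfl⟩ := mem_sgm hp
        exact ⟨hS _ _ (by omega) (by omega), ⟨Nat.sub_le _ _, le_rfl⟩, by simp only; omega⟩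
      · obtain ⟨j, hj, rfl⟩ := mem_sgm hp
        exact ⟨hS _ _ (by omega) (by omega), ⟨by simp only; omega, by simp only; omega⟩,
          by simp only; omega⟩
      · obtain ⟨j, hj, rfl⟩ := mem_sgm hp
        exact ⟨hS _ _ (by omega) (by omega), ⟨by simp only; omega, by simp only; omega⟩,
          by simp only; omega⟩
    have h4 := card_le_card hsub
    rw [card_union_of_disjoint (disjoint_union_right.2 ⟨sgm_disj (by omega), sgm_disj (by omega)⟩),
      card_union_of_disjoint (sgm_disj (by omega)), sgm_card (by omega), sgm_card (by omega),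
      sgm_card (by omega)] at h4
    by_cases h6 : J = i + 3
    · by_cases h7 : n = 6
      · by_cases h8 : s + s = J + 1
        · exact (hex h6 h7 rfl h8).elim
        · omega
      · omega
    · omega
  · have hsub : sgm s c (J - i + 1) ∪ sgm s (c - 1) (J - i) ⊆
        S.filter (fun c' => c' ≤ (s, c) ∧ i < c'.1 + c'.2) := by
      intro p hp
      rw [mem_filter]
      rw [mem_union] at hp
      rcases hp with hp | hp
      · obtain ⟨j, hj, rfl⟩ := mem_sgm hp
        exact ⟨hS _ _ (by omega) (by omega), ⟨Nat.sub_le _ _, le_rfl⟩, by simp only; omega⟩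
      · obtain ⟨j, hj, rfl⟩ := mem_sgm hp
        exact ⟨hS _ _ (by omega) (by omega), ⟨Nat.sub_le _ _, by simp only; omega⟩,
          by simp only; omega⟩
    have h4 := card_le_card hsub
    rw [card_union_of_disjoint (sgm_disj (by omega)), sgm_card (by omega),
      sgm_card (by omega)] at h4
    omega

/-- levels in the union of a shape and a base -/
theorem stair_trunc {Q : Type u} [Fintype Q] [PartialOrder Q] [DecidableEq Q] (co : Q → ℕ × ℕ)
    (hinj : Function.Injective co) (hge : ∀ x, (co x).1 ≤ (co x).2)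
    (hle : ∀ x y : Q, x ≤ y ↔ co y ≤ co x)
    (hlow : ∀ x : Q, ∀ c ≤ co x, c.1 ≤ c.2 → ∃ y, co y = c) {i q J : ℕ} (hq : q ≤ i + 1)
    (hr : i + 2 ≤ 2 * q) (hiJ : i + 3 ≤ J) (hsub : q = i + 1 ∨ ∀ x, (co x).2 < q)
    (hbase : ∀ s c, s ≤ c → c < q → s + c ≤ J → ∃ x, co x = (s, c)) {n : ℕ}
    (hn : n ≤ 2 * (J - i)) (hex : J = i + 3 → n = 6 → 2 * (J / 2) = J) :
    (1 + X : ℤ[X]) ^ (i / 2 + q - i) ∣ Z Q i n := by
  classical
  rcases hsub with hqi | hsub
  · set S : Finset (ℕ × ℕ) := univ.image co ∪ stc q with hSdef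
    have hmem : ∀ p, p ∈ S ↔ (∃ x, co x = p) ∨ p ∈ stc q := by
      intro p
      rw [hSdef, mem_union, mem_image]
      simp
    have hSge : ∀ c ∈ S, c.1 ≤ c.2 := by
      intro c hc
      rcases (hmem c).1 hc with ⟨x, rfl⟩ | h
      · exact hge x
      · exact stc_shift c h
    have hSlow : ∀ c ∈ S, ∀ c' ≤ c, c'.1 ≤ c'.2 → c' ∈ S := by
      intro c hc c' hc' hs
      rw [hmem] at hc ⊢
      rcases hc with ⟨x, rfl⟩ | h
      · exact Or.inl (hlow x c' hc' hs)
      · exact Or.inr (stc_low c h c' hc' hs)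
    have hZ := Z_complete co hinj hle S (fun x => (hmem _).2 (Or.inl ⟨x, rfl⟩))
      (fun x c hc hcS => hlow x c hc (hSge c hcS)) (i := i) (n := n)
      (lev_cel_shift hSge hSlow) (by
        rintro ⟨s, c⟩ hc hno
        have h1 : s ≤ c ∧ c < q := by
          rcases (hmem _).1 hc with ⟨x, hx⟩ | h
          · exact absurd hx (hno x)
          · exact mem_stc.1 h
        have h2 : J < s + c := by
          by_contra hcon
          obtain ⟨x, hx⟩ := hbase s c h1.1 h1.2 (by omega)
          exact hno x hx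
        exact ⟨by simp only; omega, cone_stair
          (fun s' c' h h' => (hmem _).2 (Or.inr (mem_stc.2 ⟨h, h'⟩))) hq h1.1 h1.2 h2 hiJ hn
          (fun h h' _ _ => by have := hex h h'; omega)⟩)
    rw [hZ]
    refine dvd_Z_of_dvd_W ?_ n
    have h1 := Yg.shift_dvd_cell (Q := CelS S) (i := i) cel cel_inj (fun x => hSge _ (cel_mem x))
      cel_le (fun x c hc hs => cel_surj (hSlow _ (cel_mem x) c hc hs))
      (cel_surj ((hmem _).2 (Or.inr (mem_stc.2 ⟨by simp only; omega, by simp only; omega⟩))))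
    rwa [show i / 2 + q - i = i / 2 + 1 by omega]
  · have hZ := Z_complete co hinj hle (stc q) (fun x => mem_stc.2 ⟨hge x, hsub x⟩)
      (fun x c hc hcS => hlow x c hc (stc_shift c hcS)) (i := i) (n := n)
      (lev_cel_shift stc_shift stc_low) (by
        rintro ⟨s, c⟩ hc hno
        have h1 := mem_stc.1 hc
        simp only at h1
        have h2 : J < s + c := by
          by_contra hcon
          obtain ⟨x, hx⟩ := hbase s c h1.1 h1.2 (by omega)
          exact hno x hx
        exact ⟨by simp only; omega, cone_stair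
          (fun s' c' h h' => mem_stc.2 ⟨h, h'⟩) hq h1.1 h1.2 h2 hiJ hn
          (fun h h' _ _ => by have := hex h h'; omega)⟩)
    rw [hZ, show i / 2 + q - i = (2 * q - 2 - i) / 2 + 1 by omega]
    exact stair_full hq hr n

end Pool.Agent.GaussPoset

end

/-! From `Pool.Agent.W_448nl_h15.NlA` -/

section

/-!
# MP_448cb3_co: truncated shapes at the energies up to `2 (J - i) + 2`

The cleanness of truncated Young shapes and truncated staircases (files EB, ED, EE, EF), two energies
further.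
-/

namespace Pool.Agent.GaussPoset.Nl

set_option linter.unusedSectionVars false

open Polynomial Finset OrderDual

universe u

/-- three segments -/
lemma three_sgm {F : Finset (ℕ × ℕ)} {a a' a'' c c' c'' l l' l'' : ℕ} (h1 : l ≤ a + 1)
    (h2 : l' ≤ a' + 1) (h3 : l'' ≤ a'' + 1) (e1 : c ≠ c') (e2 : c ≠ c'') (e3 : c' ≠ c'')
    (hF : ∀ j, j < l → (a - j, c) ∈ F) (hF' : ∀ j, j < l' → (a' - j, c') ∈ F)
    (hF'' : ∀ j, j < l'' → (a'' - j, c'') ∈ F) : l + (l' + l'') ≤ F.card := by
  classical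
  have hsub : sgm a c l ∪ (sgm a' c' l' ∪ sgm a'' c'' l'') ⊆ F := by
    intro p hp
    rw [mem_union, mem_union] at hp
    rcases hp with hp | hp | hp
    · obtain ⟨j, hj, rfl⟩ := mem_sgm hp
      exact hF j hj
    · obtain ⟨j, hj, rfl⟩ := mem_sgm hp
      exact hF' j hj
    · obtain ⟨j, hj, rfl⟩ := mem_sgm hp
      exact hF'' j hj
  have h4 := card_le_card hsub
  rwa [card_union_of_disjoint (disjoint_union_right.2 ⟨sgm_disj e1, sgm_disj e2⟩),
    card_union_of_disjoint (sgm_disj e3), sgm_card h1, sgm_card h2, sgm_card h3] at h4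

/-- four segments -/
lemma four_sgm {F : Finset (ℕ × ℕ)} {a a' a'' a3 c c' c'' c3 l l' l'' l3 : ℕ} (h1 : l ≤ a + 1)
    (h2 : l' ≤ a' + 1) (h3 : l'' ≤ a'' + 1) (h4 : l3 ≤ a3 + 1) (e1 : c ≠ c') (e2 : c ≠ c'')
    (e3 : c ≠ c3) (e4 : c' ≠ c'') (e5 : c' ≠ c3) (e6 : c'' ≠ c3)
    (hF : ∀ j, j < l → (a - j, c) ∈ F) (hF' : ∀ j, j < l' → (a' - j, c') ∈ F)
    (hF'' : ∀ j, j < l'' → (a'' - j, c'') ∈ F) (hF3 : ∀ j, j < l3 → (a3 - j, c3) ∈ F) :
    l + (l' + (l'' + l3)) ≤ F.card := by
  classical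
  have hsub : sgm a c l ∪ (sgm a' c' l' ∪ (sgm a'' c'' l'' ∪ sgm a3 c3 l3)) ⊆ F := by
    intro p hp
    rw [mem_union, mem_union, mem_union] at hp
    rcases hp with hp | hp | hp | hp
    · obtain ⟨j, hj, rfl⟩ := mem_sgm hp
      exact hF j hj
    · obtain ⟨j, hj, rfl⟩ := mem_sgm hp
      exact hF' j hj
    · obtain ⟨j, hj, rfl⟩ := mem_sgm hp
      exact hF'' j hj
    · obtain ⟨j, hj, rfl⟩ := mem_sgm hp
      exact hF3 j hj
  have h5 := card_le_card hsub
  rwa [card_union_of_disjoint (disjoint_union_right.2 ⟨sgm_disj e1,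
      disjoint_union_right.2 ⟨sgm_disj e2, sgm_disj e3⟩⟩),
    card_union_of_disjoint (disjoint_union_right.2 ⟨sgm_disj e4, sgm_disj e5⟩),
    card_union_of_disjoint (sgm_disj e6), sgm_card h1, sgm_card h2, sgm_card h3, sgm_card h4] at h5

/-- the cone of an added cell -/
lemma cone_card2 {S : Finset (ℕ × ℕ)} {i k q J s c n : ℕ} (hS : ∀ s' c', s' < k → c' < q →
    (s', c') ∈ S) (hk : k ≤ i + 1) (hq : q ≤ i + 1) (hs : s < k) (hc : c < q) (hJ : J < s + c)
    (h3 : i + 3 ≤ J) (hn : n ≤ 2 * (J - i) + 2) :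
    n < (S.filter (fun c' => c' ≤ (s, c) ∧ i < c'.1 + c'.2)).card := by
  classical
  have h4 := three_sgm (F := S.filter (fun c' => c' ≤ (s, c) ∧ i < c'.1 + c'.2)) (a := s) (a' := s)
    (a'' := s) (c := c) (c' := c - 1) (c'' := c - 2) (l := J - i + 1) (l' := J - i)
    (l'' := J - i - 1) (by omega) (by omega) (by omega) (by omega) (by omega) (by omega)
    (fun j hj => mem_filter.2 ⟨hS _ _ (by omega) (by omega), ⟨Nat.sub_le _ _, le_rfl⟩,
      by simp only; omega⟩)
    (fun j hj => mem_filter.2 ⟨hS _ _ (by omega) (by omega), ⟨Nat.sub_le _ _, Nat.sub_le _ _⟩,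
      by simp only; omega⟩)
    (fun j hj => mem_filter.2 ⟨hS _ _ (by omega) (by omega), ⟨Nat.sub_le _ _, Nat.sub_le _ _⟩,
      by simp only; omega⟩)
  omega

section young

variable {Q : Type u} [Fintype Q] [PartialOrder Q] [DecidableEq Q]

/-- TRUNCATED YOUNG SHAPES -/
theorem young_trunc2 (co : Q → ℕ × ℕ) (hinj : Function.Injective co)
    (hle : ∀ x y : Q, x ≤ y ↔ co y ≤ co x) (hlow : ∀ x : Q, ∀ c ≤ co x, ∃ y, co y = c)
    {i k J : ℕ} (hk : k ≤ i + 1) (hiJ : i + 3 ≤ J)
    (hbase : ∀ s c, s < k → c ≤ i → s + c ≤ J → ∃ x, co x = (s, c)) {n : ℕ}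
    (hn : n ≤ 2 * (J - i) + 2) : (1 + X : ℤ[X]) ^ k ∣ Z Q i n := by
  classical
  set S : Finset (ℕ × ℕ) := univ.image co ∪ (range k ×ˢ range (i + 1)) with hSdef
  have hmem : ∀ p, p ∈ S ↔ (∃ x, co x = p) ∨ (p.1 < k ∧ p.2 ≤ i) := by
    intro p
    rw [hSdef, mem_union, mem_image, mem_product, mem_range, mem_range, Nat.lt_succ_iff]
    simp
  have hSlow : ∀ c ∈ S, ∀ c' ≤ c, c' ∈ S := by
    intro c hc c' hc'
    rw [hmem] at hc ⊢
    rcases hc with ⟨x, rfl⟩ | ⟨h1, h2⟩
    · exact Or.inl (hlow x c' hc')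
    · have h3 : c'.1 ≤ c.1 := hc'.1
      have h4 : c'.2 ≤ c.2 := hc'.2
      exact Or.inr ⟨by omega, by omega⟩
  have hZ := Z_complete co hinj hle S (fun x => (hmem _).2 (Or.inl ⟨x, rfl⟩))
    (fun x c hc _ => hlow x c hc) (i := i) (n := n) (lev_cel hSlow) (by
      rintro ⟨s, c⟩ hc hno
      have h1 : s < k ∧ c ≤ i := by
        rcases (hmem _).1 hc with ⟨x, hx⟩ | h
        · exact absurd hx (hno x)
        · exact h
      have h2 : J < s + c := by
        by_contra hcon
        obtain ⟨x, hx⟩ := hbase s c h1.1 h1.2 (by omega)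
        exact hno x hx
      refine ⟨by simp only; omega, ?_⟩
      exact cone_card2 (S := S) (i := i) (k := k) (q := i + 1) (J := J) (fun s' c' h h' =>
        (hmem _).2 (Or.inr ⟨h, by simp only; omega⟩)) hk le_rfl h1.1 (by omega) h2 hiJ hn)
  rw [hZ]
  refine dvd_Z_of_dvd_W ?_ n
  refine Yg.young_dvd_co cel cel_inj cel_le (fun x c hc => cel_surj (hSlow _ (cel_mem x) c hc)) hk
    (fun s hs => cel_surj ((hmem _).2 (Or.inr ⟨by simp only; omega, le_rfl⟩)))

/-- truncated rectangle -/
theorem rect_trunc2 (co : Q → ℕ × ℕ)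
    (hinj : Function.Injective co) (hle : ∀ x y : Q, x ≤ y ↔ co y ≤ co x)
    (hlow : ∀ x : Q, ∀ c ≤ co x, ∃ y, co y = c) {i J p q : ℕ} (hp : p ≤ i + 1) (hq : q ≤ i + 1)
    (hr : i + 2 ≤ p + q) (hiJ : i + 3 ≤ J) (hsub : ∀ x, (co x).1 < p ∧ (co x).2 < q)
    (hbase : ∀ s c, s < p → c < q → s + c ≤ J → ∃ x, co x = (s, c)) {n : ℕ}
    (hn : n ≤ 2 * (J - i) + 2) : (1 + X : ℤ[X]) ^ (p + q - 1 - i) ∣ Z Q i n := by
  classical
  have hZ := Z_complete co hinj hle (rec2 p q) (fun x => mem_rec2.2 (hsub x))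
    (fun x c hc _ => hlow x c hc) (i := i) (n := n) (lev_cel rec2_low) (by
      rintro ⟨s, c⟩ hc hno
      have h1 := mem_rec2.1 hc
      simp only at h1
      have h2 : J < s + c := by
        by_contra hcon
        obtain ⟨x, hx⟩ := hbase s c h1.1 h1.2 (by omega)
        exact hno x hx
      refine ⟨by simp only; omega, ?_⟩
      exact cone_card2 (S := rec2 p q) (i := i) (k := p) (q := q) (J := J) (fun s' c' h h' =>
        mem_rec2.2 ⟨h, h'⟩) hp hq h1.1 h1.2 h2 hiJ hn)
  rw [hZ]
  exact rect_full hp hq hr n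

end young

/-- the exceptional cells of a staircase -/
def Exc (i J n s c : ℕ) : Prop :=
  (s = c ∧ s + c = J + 1 ∧ J ≤ i + 5) ∨ (c = s + 1 ∧ s + c = J + 1 ∧ J = i + 3 ∧ n = 8)

/-- the cone of an added cell of a staircase -/
lemma cone_stair2 {S : Finset (ℕ × ℕ)} {i q J n s c : ℕ}
    (hS : ∀ s' c', s' ≤ c' → c' < q → (s', c') ∈ S) (hq : q ≤ i + 1) (hsc : s ≤ c) (hc : c < q)
    (hJ : J < s + c) (h3 : i + 3 ≤ J) (hn : n ≤ 2 * (J - i) + 2) (hex : ¬ Exc i J n s c) :
    n < (S.filter (fun c' => c' ≤ (s, c) ∧ i < c'.1 + c'.2)).card := by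
  classical
  unfold Exc at hex
  have hmm : ∀ a b : ℕ, a ≤ s → b ≤ c → a ≤ b → i < a + b → (a, b) ∈
      S.filter (fun c' => c' ≤ (s, c) ∧ i < c'.1 + c'.2) := fun a b h1 h2 h4 h5 =>
    mem_filter.2 ⟨hS _ _ h4 (by omega), ⟨h1, h2⟩, h5⟩
  rcases Nat.eq_or_lt_of_le hsc with hf | hf
  · subst hf
    have h4 := four_sgm (F := S.filter (fun c' => c' ≤ (s, s) ∧ i < c'.1 + c'.2)) (a := s)
      (a' := s - 1) (a'' := s - 2) (a3 := s - 3) (c := s) (c' := s - 1) (c'' := s - 2)
      (c3 := s - 3) (l := 2 * s - i) (l' := 2 * s - 2 - i) (l'' := 2 * s - 4 - i)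
      (l3 := 2 * s - 6 - i) (by omega) (by omega) (by omega) (by omega) (by omega) (by omega)
      (by omega) (by omega) (by omega) (by omega)
      (fun j hj => hmm _ _ (by omega) (by omega) (by omega) (by omega))
      (fun j hj => hmm _ _ (by omega) (by omega) (by omega) (by omega))
      (fun j hj => hmm _ _ (by omega) (by omega) (by omega) (by omega))
      (fun j hj => hmm _ _ (by omega) (by omega) (by omega) (by omega))
    omega
  · rcases Nat.eq_or_lt_of_le hf with hf2 | hf2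
    · have h4 := four_sgm (F := S.filter (fun c' => c' ≤ (s, c) ∧ i < c'.1 + c'.2)) (a := s)
        (a' := s) (a'' := s - 1) (a3 := s - 2) (c := c) (c' := c - 1) (c'' := c - 2)
        (c3 := c - 3) (l := s + c - i) (l' := s + c - 1 - i) (l'' := s + c - 3 - i)
        (l3 := s + c - 5 - i) (by omega) (by omega) (by omega) (by omega) (by omega) (by omega)
        (by omega) (by omega) (by omega) (by omega)
        (fun j hj => hmm _ _ (by omega) (by omega) (by omega) (by omega))
        (fun j hj => hmm _ _ (by omega) (by omega) (by omega) (by omega))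
        (fun j hj => hmm _ _ (by omega) (by omega) (by omega) (by omega))
        (fun j hj => hmm _ _ (by omega) (by omega) (by omega) (by omega))
      omega
    · have h4 := three_sgm (F := S.filter (fun c' => c' ≤ (s, c) ∧ i < c'.1 + c'.2)) (a := s)
        (a' := s) (a'' := s) (c := c) (c' := c - 1) (c'' := c - 2) (l := s + c - i)
        (l' := s + c - 1 - i) (l'' := s + c - 2 - i) (by omega) (by omega) (by omega) (by omega)
        (by omega) (by omega)
        (fun j hj => hmm _ _ (by omega) (by omega) (by omega) (by omega))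
        (fun j hj => hmm _ _ (by omega) (by omega) (by omega) (by omega))
        (fun j hj => hmm _ _ (by omega) (by omega) (by omega) (by omega))
      omega

/-- TRUNCATED STAIRCASES -/
theorem stair_trunc2 {Q : Type u} [Fintype Q] [PartialOrder Q] [DecidableEq Q] (co : Q → ℕ × ℕ)
    (hinj : Function.Injective co) (hge : ∀ x, (co x).1 ≤ (co x).2)
    (hle : ∀ x y : Q, x ≤ y ↔ co y ≤ co x)
    (hlow : ∀ x : Q, ∀ c ≤ co x, c.1 ≤ c.2 → ∃ y, co y = c) {i q J : ℕ} (hq : q ≤ i + 1)
    (hr : i + 2 ≤ 2 * q) (hiJ : i + 3 ≤ J) (hsub : q = i + 1 ∨ ∀ x, (co x).2 < q)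
    (hbase : ∀ s c, s ≤ c → c < q → s + c ≤ J → ∃ x, co x = (s, c)) {n : ℕ}
    (hn : n ≤ 2 * (J - i) + 2)
    (hex : ∀ s c, s ≤ c → c < q → (∀ x, co x ≠ (s, c)) → ¬ Exc i J n s c) :
    (1 + X : ℤ[X]) ^ (i / 2 + q - i) ∣ Z Q i n := by
  classical
  rcases hsub with hqi | hsub
  · set S : Finset (ℕ × ℕ) := univ.image co ∪ stc q with hSdef
    have hmem : ∀ p, p ∈ S ↔ (∃ x, co x = p) ∨ p ∈ stc q := by
      intro p
      rw [hSdef, mem_union, mem_image]
      simp
    have hSge : ∀ c ∈ S, c.1 ≤ c.2 := by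
      intro c hc
      rcases (hmem c).1 hc with ⟨x, rfl⟩ | h
      · exact hge x
      · exact stc_shift c h
    have hSlow : ∀ c ∈ S, ∀ c' ≤ c, c'.1 ≤ c'.2 → c' ∈ S := by
      intro c hc c' hc' hs
      rw [hmem] at hc ⊢
      rcases hc with ⟨x, rfl⟩ | h
      · exact Or.inl (hlow x c' hc' hs)
      · exact Or.inr (stc_low c h c' hc' hs)
    have hZ := Z_complete co hinj hle S (fun x => (hmem _).2 (Or.inl ⟨x, rfl⟩))
      (fun x c hc hcS => hlow x c hc (hSge c hcS)) (i := i) (n := n)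
      (lev_cel_shift hSge hSlow) (by
        rintro ⟨s, c⟩ hc hno
        have h1 : s ≤ c ∧ c < q := by
          rcases (hmem _).1 hc with ⟨x, hx⟩ | h
          · exact absurd hx (hno x)
          · exact mem_stc.1 h
        have h2 : J < s + c := by
          by_contra hcon
          obtain ⟨x, hx⟩ := hbase s c h1.1 h1.2 (by omega)
          exact hno x hx
        exact ⟨by simp only; omega, cone_stair2
          (fun s' c' h h' => (hmem _).2 (Or.inr (mem_stc.2 ⟨h, h'⟩))) hq h1.1 h1.2 h2 hiJ hn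
          (hex s c h1.1 h1.2 hno)⟩)
    rw [hZ]
    refine dvd_Z_of_dvd_W ?_ n
    have h1 := Yg.shift_dvd_cell (Q := CelS S) (i := i) cel cel_inj (fun x => hSge _ (cel_mem x))
      cel_le (fun x c hc hs => cel_surj (hSlow _ (cel_mem x) c hc hs))
      (cel_surj ((hmem _).2 (Or.inr (mem_stc.2 ⟨by simp only; omega, by simp only; omega⟩))))
    rwa [show i / 2 + q - i = i / 2 + 1 by omega]
  · have hZ := Z_complete co hinj hle (stc q) (fun x => mem_stc.2 ⟨hge x, hsub x⟩)
      (fun x c hc hcS => hlow x c hc (stc_shift c hcS)) (i := i) (n := n)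
      (lev_cel_shift stc_shift stc_low) (by
        rintro ⟨s, c⟩ hc hno
        have h1 := mem_stc.1 hc
        simp only at h1
        have h2 : J < s + c := by
          by_contra hcon
          obtain ⟨x, hx⟩ := hbase s c h1.1 h1.2 (by omega)
          exact hno x hx
        exact ⟨by simp only; omega, cone_stair2
          (fun s' c' h h' => mem_stc.2 ⟨h, h'⟩) hq h1.1 h1.2 h2 hiJ hn
          (hex s c h1.1 h1.2 hno)⟩)
    rw [hZ, show i / 2 + q - i = (2 * q - 2 - i) / 2 + 1 by omega]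
    exact stair_full hq hr n

end Pool.Agent.GaussPoset.Nl

end
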