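import Mathlib
import Pool.Agent.W_448zz_h61.Ns
import Pool.Agent.W_448zz_h61.M029
import Pool.Agent.W_448zz_h61.M063

/-! From `Pool.Agent.W_448ec_h63.EF` -/

section

/-!
Far data for a poset whose levels up to `J` are a truncated rectangle or staircase.
-/

namespace Pool.Agent.GaussPoset

set_option linter.unusedSectionVars false

open Polynomial Finset OrderDual

universe u

variable {Q : Type u} [Fintype Q] [PartialOrder Q] [DecidableEq Q]

open Classical in
/-- the elements of levels `≤ J` -/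
noncomputable def loN (Q : Type u) [Fintype Q] [PartialOrder Q] (J : ℕ) : Finset Q :=
  univ.filter (fun x => lev x ≤ J)

open Classical in
/-- the elements of levels `> J` -/
noncomputable def hiN (Q : Type u) [Fintype Q] [PartialOrder Q] (J : ℕ) : Finset Q :=
  univ.filter (fun x => J < lev x)

lemma mem_loN {J : ℕ} {x : Q} : x ∈ loN Q J ↔ lev x ≤ J := by
  unfold loN
  simp

lemma mem_hiN {J : ℕ} {x : Q} : x ∈ hiN Q J ↔ J < lev x := by
  unfold hiN
  simp

lemma lev_le_of_le {x y : Q} (h : x ≤ y) : lev y ≤ lev x := by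
  rcases eq_or_lt_of_le h with h1 | h1
  · rw [h1]
  · exact (lev_strictAnti h1).le

/-- the thresholds -/
def thE (p q : ℕ) (co : Q → ℕ × ℕ) (x : Q) : ℕ := ((co x).1 + 1 - p) + ((co x).2 + 1 - q)

open Classical in
/-- the thresholds, zero on the junk -/
noncomputable def thJ (J p q : ℕ) (co : Q → ℕ × ℕ) (x : Q) : ℕ :=
  if J < lev x then 0 else thE p q co x

lemma thJ_lo {J p q : ℕ} {co : Q → ℕ × ℕ} {x : Q} (h : lev x ≤ J) :
    thJ J p q co x = thE p q co x := by
  unfold thJ
  rw [if_neg (by omega)]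

lemma thJ_pos {J p q : ℕ} {co : Q → ℕ × ℕ} {x : Q} (h : 1 ≤ thJ J p q co x) : lev x ≤ J := by
  unfold thJ at h
  split_ifs at h with h1
  · omega
  · omega

/-- a poset whose levels up to `J` are a truncated shape -/
structure Tru (t : Q) (T : ℕ × ℕ → Prop) (co : Q → ℕ × ℕ) (i J p q : ℕ) : Prop where
  graded : GradedBelow Q
  chart : Chart t T (loN Q J) co
  hp : p ≤ i + 1
  hq : q ≤ i + 1
  hiJ : i + 3 ≤ J
  pcl : p = i + 1 ∨ ∀ x, lev x ≤ J → (co x).1 < p
  qcl : q = i + 1 ∨ ∀ x, lev x ≤ J → (co x).2 < q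
  base : ∀ s c, T (s, c) → s < p → c < q → s + c ≤ J → ∃ x, lev x ≤ J ∧ co x = (s, c)

variable {t : Q} {T : ℕ × ℕ → Prop} {co : Q → ℕ × ℕ} {i J p q : ℕ}

lemma Tru.mono (H : Tru t T co i J p q) {x y : Q} (hxy : x ≤ y) (hx : lev x ≤ J) :
    thE p q co y ≤ thE p q co x := by
  have hy : lev y ≤ J := (lev_le_of_le hxy).trans hx
  have h1 := (H.chart.le_iff x (mem_loN.2 hx) y (mem_loN.2 hy)).1 hxy
  have h2 : (co y).1 ≤ (co x).1 := h1.1
  have h3 : (co y).2 ≤ (co x).2 := h1.2
  unfold thE
  omega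

lemma Tru.lev_pos (H : Tru t T co i J p q) {x : Q} (hx : lev x ≤ J) (h : 1 ≤ thE p q co x) :
    i < lev x := by
  have h1 := H.chart.lev x (mem_loN.2 hx)
  unfold thE at h
  rcases H.pcl with h2 | h2
  · rcases H.qcl with h3 | h3
    · omega
    · have := h3 x hx
      omega
  · have h4 := h2 x hx
    rcases H.qcl with h3 | h3
    · omega
    · have := h3 x hx
      omega

lemma Tru.le_sub (H : Tru t T co i J p q) {x : Q} (hx : lev x ≤ J) :
    thE p q co x ≤ lev x - i := by
  have h1 := H.chart.lev x (mem_loN.2 hx)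
  unfold thE
  rcases H.pcl with h2 | h2
  · rcases H.qcl with h3 | h3
    · omega
    · have := h3 x hx
      omega
  · have h4 := h2 x hx
    rcases H.qcl with h3 | h3
    · omega
    · have := h3 x hx
      omega

/-- the shape minus elements with positive threshold -/
def Cln (Q : Type u) [Fintype Q] [PartialOrder Q] [DecidableEq Q] (co : Q → ℕ × ℕ)
    (i J p q b n0 : ℕ) : Prop :=
  ∀ D : Finset Q, (∀ x y, x ≤ y → y ∈ D → x ∈ D) → hiN Q J ⊆ D → (∀ x ∈ D, i < lev x) →
    (∀ x ∈ D, lev x ≤ J → 1 ≤ thE p q co x) → ∀ n < n0,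
      (1 + X : ℤ[X]) ^ b ∣ Z {x : Q // x ∉ D} i n

theorem Tru.farT (H : Tru t T co i J p q) {b n0 : ℕ} (hc : Cln Q co i J p q b n0) :
    FarT Q i (hiN Q J) b (hcan (hiN Q J) (thJ J p q co)) n0 := by
  classical
  have hiJ := H.hiJ
  have hR : ∀ x y : Q, x ≤ y → y ∈ hiN Q J → x ∈ hiN Q J := by
    intro x y hxy hy
    rw [mem_hiN] at hy ⊢
    exact hy.trans_le (lev_le_of_le hxy)
  have hRl : ∀ x ∈ hiN Q J, i < lev x := by
    intro x hx
    rw [mem_hiN] at hx
    omega
  let DD : Set (Finset Q) := {D | (∀ x y, x ≤ y → y ∈ D → x ∈ D) ∧ hiN Q J ⊆ D ∧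
    (∀ x ∈ D, i < lev x) ∧ ∀ x ∈ D, lev x ≤ J → 1 ≤ thE p q co x}
  have hRD : hiN Q J ∈ DD := ⟨hR, Subset.refl _, hRl, fun x hx hx2 => by
    rw [mem_hiN] at hx
    omega⟩
  have hbound := dvd_ZB_bounds_lt i ((1 + X : ℤ[X]) ^ b) n0 DD (thJ J p q co)
    (fun D hD => hD.1) (fun D hD => hD.2.2.1) (fun x hx => by
      have h1 := thJ_pos hx
      rw [thJ_lo h1] at hx
      exact H.lev_pos h1 hx) (fun D hD n hn => by
      rw [ZB_off hD.1 hD.2.2.1]
      exact hc D hD.1 hD.2.1 hD.2.2.1 hD.2.2.2 n hn) (by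
      intro D hD x hx hθ
      have h1 := thJ_pos hθ
      rw [thJ_lo h1] at hθ
      have h2 := H.lev_pos h1 hθ
      refine ⟨?_, hD.2.1.trans subset_union_left, ?_, ?_⟩
      · intro a c hac hc
        rw [mem_union, mem_dnf] at hc ⊢
        rcases hc with hc | hc
        · exact Or.inl (hD.1 a c hac hc)
        · exact Or.inr (hac.trans hc)
      · intro a ha
        rw [mem_union, mem_dnf] at ha
        rcases ha with ha | ha
        · exact hD.2.2.1 a ha
        · exact h2.trans_le (lev_le_of_le ha)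
      · intro a ha haJ
        rw [mem_union, mem_dnf] at ha
        rcases ha with ha | ha
        · exact hD.2.2.2 a ha haJ
        · exact hθ.trans (H.mono ha haJ)) (by
      intro D hD x hx hθ y hyx hyD x' hyx' hx'x
      have h1 := thJ_pos hθ
      have hyJ : lev y ≤ J := by
        by_contra hcon
        exact hyD (hD.2.1 (mem_hiN.2 (by omega)))
      have hx'J : lev x' ≤ J := (lev_le_of_le hyx'.le).trans hyJ
      rw [thJ_lo h1, thJ_lo hx'J]
      have e1 := (H.chart.le_iff y (mem_loN.2 hyJ) x (mem_loN.2 h1)).1 hyx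
      have e2 := (H.chart.le_iff y (mem_loN.2 hyJ) x' (mem_loN.2 hx'J)).1 hyx'.le
      have e3 : ¬ co x ≤ co x' := fun h =>
        hx'x ((H.chart.le_iff x' (mem_loN.2 hx'J) x (mem_loN.2 h1)).2 h)
      have e4 := H.chart.lev y (mem_loN.2 hyJ)
      have e5 := H.chart.lev x' (mem_loN.2 hx'J)
      have e6 := H.graded.lev_covBy hyx'
      have e7 : (co x).1 ≤ (co y).1 := e1.1
      have e8 : (co x).2 ≤ (co y).2 := e1.2
      have e9 : (co x').1 ≤ (co y).1 := e2.1
      have e10 : (co x').2 ≤ (co y).2 := e2.2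
      have e11 : ¬ ((co x).1 ≤ (co x').1 ∧ (co x).2 ≤ (co x').2) := e3
      unfold thE
      omega)
  refine ⟨H.graded, hRl, ?_, ?_, ?_⟩
  · intro g hg0 hg n hn
    refine dvd_ZB_labels_lt i _ n0 DD (thJ J p q co) (fun D hD => hD.1)
      (fun D hD => hD.2.2.1) hbound hRD g hg0 ?_ n hn
    intro y hy x hx hyx
    have h1 : y ∈ bdR (hiN Q J) := mem_filter.mpr ⟨hy, x, hx, hyx⟩
    have h2 := hg y h1
    have h3 := hcan_le (θ := thJ J p q co) hx hyx
    omega
  · intro z hz
    obtain ⟨x, -, -, hx⟩ := hcan_spec (θ := thJ J p q co) hz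
    omega
  · intro z hz
    obtain ⟨x, hxR, hzx, hx⟩ := hcan_spec (θ := thJ J p q co) hz
    have h1 := H.graded.lev_covBy hzx
    have h0 : lev x ≤ J := by
      rw [mem_hiN] at hxR
      omega
    have h2 := H.le_sub h0
    rw [thJ_lo h0] at hx
    have h3 := hRl z (mem_filter.mp hz).1
    omega

/-- coordinates of the complement of a lower set -/
lemma Tru.sub_facts (H : Tru t T co i J p q) {D : Finset Q}
    (hD : ∀ x y, x ≤ y → y ∈ D → x ∈ D) (hRD : hiN Q J ⊆ D)
    (hDθ : ∀ x ∈ D, lev x ≤ J → 1 ≤ thE p q co x) :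
    (∀ x : {x : Q // x ∉ D}, lev (x : Q) ≤ J) ∧
    (Function.Injective (fun x : {x : Q // x ∉ D} => co (x : Q))) ∧
    (∀ x y : {x : Q // x ∉ D}, x ≤ y ↔ co (y : Q) ≤ co (x : Q)) ∧
    (∀ x : {x : Q // x ∉ D}, ∀ c ≤ co (x : Q), T c → ∃ y : {x : Q // x ∉ D}, co (y : Q) = c) ∧
    (∀ s c, T (s, c) → s < p → c < q → s + c ≤ J →
      ∃ x : {x : Q // x ∉ D}, co (x : Q) = (s, c)) := by
  have h1 : ∀ x : {x : Q // x ∉ D}, lev (x : Q) ≤ J := by
    intro x
    by_contra hcon
    exact x.2 (hRD (mem_hiN.2 (by omega)))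
  refine ⟨h1, ?_, ?_, ?_, ?_⟩
  · intro x y h
    exact Subtype.ext (H.chart.inj x (mem_loN.2 (h1 x)) y (mem_loN.2 (h1 y)) h)
  · intro x y
    rw [← H.chart.le_iff x (mem_loN.2 (h1 x)) y (mem_loN.2 (h1 y))]
    exact Iff.rfl
  · intro x c hc hT
    obtain ⟨y, hy, hcy⟩ := H.chart.low x (mem_loN.2 (h1 x)) c hc hT
    have h2 : (x : Q) ≤ y := by
      rw [H.chart.le_iff x (mem_loN.2 (h1 x)) y hy, hcy]
      exact hc
    exact ⟨⟨y, fun h => x.2 (hD _ _ h2 h)⟩, hcy⟩
  · intro s c hT hs hc hsc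
    obtain ⟨x, hx, hcx⟩ := H.base s c hT hs hc hsc
    refine ⟨⟨x, fun h => ?_⟩, hcx⟩
    have h2 := hDθ x h hx
    unfold thE at h2
    rw [hcx] at h2
    simp only at h2
    omega

/-- truncated rectangles are clean -/
theorem Tru.cln_rect (H : Tru t (fun _ => True) co i J p q) (hr : i + 2 ≤ p + q) {n0 : ℕ}
    (hn0 : n0 ≤ 2 * (J - i) + 1) : Cln Q co i J p q (p + q - 1 - i) n0 := by
  classical
  intro D hD hRD hDi hDθ n hn
  obtain ⟨h1, h2, h3, h4, h5⟩ := H.sub_facts hD hRD hDθ
  have hiJ := H.hiJ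
  have hp := H.hp
  have hq := H.hq
  by_cases hqi : q = i + 1
  · have e1 : p + q - 1 - i = p := by omega
    rw [e1]
    exact young_trunc (fun x : {x : Q // x ∉ D} => co (x : Q)) h2 h3
      (fun x c hc => h4 x c hc trivial) (J := J) H.hp (by omega)
      (fun s c hs hc hsc => h5 s c trivial hs (by omega) hsc) (by omega)
  · by_cases hpi : p = i + 1
    · have e1 : p + q - 1 - i = q := by omega
      rw [e1]
      refine young_trunc (fun x : {x : Q // x ∉ D} => (co (x : Q)).swap) ?_ ?_ ?_ (J := J) H.hq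
        (by omega) ?_ (by omega)
      · intro x y h
        exact h2 (Prod.swap_injective h)
      · intro x y
        rw [h3 x y]
        exact Prod.swap_le_swap.symm
      · intro x c hc
        obtain ⟨y, hy⟩ := h4 x c.swap ⟨hc.2, hc.1⟩ trivial
        exact ⟨y, by rw [hy, Prod.swap_swap]⟩
      · intro s c hs hc hsc
        obtain ⟨y, hy⟩ := h5 c s trivial (by omega) hs (by omega)
        exact ⟨y, by rw [hy]; rfl⟩
    · have hsub : ∀ x : {x : Q // x ∉ D}, (co (x : Q)).1 < p ∧ (co (x : Q)).2 < q := fun x =>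
        ⟨H.pcl.resolve_left hpi x (h1 x), H.qcl.resolve_left hqi x (h1 x)⟩
      exact rect_trunc (fun x : {x : Q // x ∉ D} => co (x : Q)) h2 h3
        (fun x c hc => h4 x c hc trivial) H.hp H.hq hr (by omega) hsub
        (fun s c hs hc hsc => h5 s c trivial hs hc hsc) (by omega)

/-- truncated staircases are clean, with one exception -/
theorem Tru.cln_stair (H : Tru t (fun c => c.1 ≤ c.2) co i J (i + 1) q) (hr : i + 2 ≤ 2 * q)
    {n0 : ℕ} (hn0 : n0 ≤ 2 * (J - i) + 1) (hex : J = i + 3 → 7 ≤ n0 → 2 * (J / 2) = J) :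
    Cln Q co i J (i + 1) q (i / 2 + q - i) n0 := by
  classical
  intro D hD hRD hDi hDθ n hn
  obtain ⟨h1, h2, h3, h4, h5⟩ := H.sub_facts hD hRD hDθ
  have hiJ := H.hiJ
  have hq := H.hq
  refine stair_trunc (fun x : {x : Q // x ∉ D} => co (x : Q)) h2
    (fun x => H.chart.mem x (mem_loN.2 (h1 x))) h3 h4 H.hq hr H.hiJ ?_
    (fun s c hsc hc hJ => h5 s c hsc (by omega) hc hJ) (by omega) (fun h h' => hex h (by omega))
  rcases H.qcl with h | h
  · exact Or.inl h
  · exact Or.inr fun x => h x (h1 x)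

end Pool.Agent.GaussPoset

end

/-! From `Pool.Agent.W_448ec_h63.EG` -/

section

/-!
The exceptional energy of a truncated staircase.
-/

namespace Pool.Agent.GaussPoset

set_option linter.unusedSectionVars false

open Polynomial Finset OrderDual

universe u

section cut

variable {P : Type u} [Fintype P] [PartialOrder P] [DecidableEq P]

/-- the part of the window sum in which the elements of `D` are not excited -/
theorem ND_one {D : Finset P} (hD : ∀ x y, x ≤ y → y ∈ D → x ∈ D) {i n : ℕ}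
    (hlev : ∀ x ∈ D, i < lev x) : ND i D (fun _ => 1) n = Z {x : P // x ∉ D} i n := by
  classical
  rw [← ZB_off hD hlev]
  unfold ND ZB
  refine Finset.sum_congr rfl fun F _ => ?_
  refine Finset.sum_congr (Finset.filter_congr fun e _ => ?_) fun _ _ => rfl
  unfold Cst
  constructor
  · rintro ⟨hV, hnd⟩
    refine ⟨hV, fun x hx => ?_, fun x _ hxF => ?_⟩
    · have hxF := not_mem_of_not_dg hlev hV hnd x hx
      obtain ⟨z, hz, hxz⟩ := exists_bd (fun x hx => by have := hlev x hx; omega) hx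
      have hzD := (mem_filter.mp hz).1
      have hzF := not_mem_of_not_dg hlev hV hnd z hzD
      have h2 := hnd z hz
      unfold Dgz at h2
      have h3 := hV.2.2.1 x z hxz hxF hzF
      rw [rho_of_lt (hlev x hx), rho_of_lt (hlev z hzD)] at h3
      refine ⟨hxF, ?_⟩
      have h4 : e z = 0 := by
        by_contra h
        exact h2 (Or.inr (by change 1 ≤ e z; omega))
      have h5 : (e x : ℤ) ≤ 0 := by
        rw [h4] at h3
        exact_mod_cast h3
      change e x = 0
      omega
    · have := hV.2.1 x hxF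
      simpa using this
  · rintro ⟨hV, h2, -⟩
    refine ⟨hV, fun z hz => ?_⟩
    obtain ⟨h3, h4⟩ := h2 z (mem_filter.mp hz).1
    rintro (h5 | h5)
    · exact h3 h5
    · have h6 : e z = 0 := h4
      have h7 : 1 ≤ e z := h5
      omega

/-- removal of elements which can only be excited by the cheapest configuration -/
theorem dvd_Z_cut {D : Finset P} (hgr : GradedBelow P) (hD : ∀ x y, x ≤ y → y ∈ D → x ∈ D)
    {i n k : ℕ} (hlev : ∀ x ∈ D, i < lev x) (hn : ∀ z ∈ D, n ≤ ncone i z)
    (hk : ∀ z ∈ D, ncone i z = n → k + nab i z ≤ (lv P i).card + nab (i + 1) z)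
    (h : (1 + X : ℤ[X]) ^ k ∣ Z P i n) : (1 + X : ℤ[X]) ^ k ∣ Z {x : P // x ∉ D} i n := by
  classical
  have h0 := Z_split i D (fun _ => 1) n
  rw [ND_one hD hlev] at h0
  have h1 : (1 + X : ℤ[X]) ^ k ∣ DG i D (fun _ => 1) n := by
    rw [DG_eq (R := D) (h := fun _ => 1) hlev (fun _ _ => le_rfl) (fun z hz => by
      have := hlev z (mem_filter.1 hz).1
      omega) (fun z hz => by
        rw [cst_one]
        exact hn z (mem_filter.1 hz).1)]
    refine dvd_sum fun z hz => ?_
    rw [mem_filter, cst_one] at hz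
    have hzD := (mem_filter.1 hz.1).1
    have h2 := hk z hzD hz.2
    split_ifs with hA
    · refine Dvd.dvd.mul_left (pow_dvd_pow _ ?_) _
      have h3 := pk_ez (i := i) (h := fun _ : P => 1) (z := z) hgr
        (by have := hlev z hzD; omega) le_rfl
      omega
    · exact dvd_zero _
  have h2 : Z {x : P // x ∉ D} i n = Z P i n - DG i D (fun _ => 1) n := by
    rw [h0, add_sub_cancel_right]
  rw [h2]
  exact dvd_sub h h1

end cut

section cells

variable {S : Finset (ℕ × ℕ)}

/-- the number of cells of level `l` above `z` -/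
lemma nab_cel (hlev : ∀ y : CelS S, lev y = (cel y).1 + (cel y).2) (l : ℕ) (z : CelS S) :
    nab l z = (S.filter (fun c => c ≤ cel z ∧ c.1 + c.2 = l)).card := by
  have h0 : nab l z = ((lv (CelS S) l).filter (fun x => z ≤ x)).card := by
    unfold nab
    congr
  rw [h0]
  refine Finset.card_bij (fun y _ => cel y) ?_ ?_ ?_
  · intro y hy
    rw [mem_filter, mem_lv, hlev] at hy
    rw [mem_filter]
    exact ⟨cel_mem y, hy.2, hy.1⟩
  · intro y _ y' _ h
    exact cel_inj h
  · intro c hc
    rw [mem_filter] at hc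
    obtain ⟨y, hy⟩ := cel_surj hc.1
    refine ⟨y, ?_, hy⟩
    rw [mem_filter, mem_lv, hlev, hy]
    refine ⟨hc.2.2, ?_⟩
    rw [cel_le, hy]
    exact hc.2.1

lemma lv_cel (hlev : ∀ y : CelS S, lev y = (cel y).1 + (cel y).2) (l : ℕ) :
    (lv (CelS S) l).card = (S.filter (fun c => c.1 + c.2 = l)).card := by
  classical
  refine Finset.card_bij (fun y _ => cel y) ?_ ?_ ?_
  · intro y hy
    rw [mem_lv, hlev] at hy
    rw [mem_filter]
    exact ⟨cel_mem y, hy⟩
  · intro y _ y' _ h
    exact cel_inj h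
  · intro c hc
    rw [mem_filter] at hc
    obtain ⟨y, hy⟩ := cel_surj hc.1
    refine ⟨y, ?_, hy⟩
    rw [mem_lv, hlev, hy]
    exact hc.2

lemma cel_graded {T : ℕ × ℕ → Prop} (hT : Conn T) (hST : ∀ c ∈ S, T c)
    (hlow : ∀ c ∈ S, ∀ c' ≤ c, T c' → c' ∈ S)
    (hlev : ∀ y : CelS S, lev y = (cel y).1 + (cel y).2) : GradedBelow (CelS S) := by
  classical
  intro z x hzx
  let T' : Finset (CelS S) := univ.filter (fun w => z ≤ w ∧ w < x)
  obtain ⟨w, hw⟩ := T'.exists_maximal ⟨z, by simp [T', hzx]⟩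
  have hw1 : z ≤ w ∧ w < x := by simpa [T'] using hw.1
  refine ⟨w, hw1.1, hw1.2, cel_cov hT hST hlow hlev w x ⟨hw1.2, fun v hv1 hv2 => ?_⟩⟩
  have hvT : v ∈ T' := by simp [T', hv2, hw1.1.trans hv1.le]
  exact absurd (hw.2 hvT hv1.le) (not_le_of_gt hv1)

variable {Q : Type u} [Fintype Q] [PartialOrder Q] [DecidableEq Q]

/-- completion, with elements which can only be excited by the cheapest configuration -/
theorem dvd_complete (co : Q → ℕ × ℕ) (hinj : Function.Injective co)
    (hle : ∀ x y : Q, x ≤ y ↔ co y ≤ co x) (hsub : ∀ x, co x ∈ S)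
    (hlow : ∀ x, ∀ c ≤ co x, c ∈ S → ∃ y, co y = c) {i n k : ℕ} (hgr : GradedBelow (CelS S))
    (hlevS : ∀ y : CelS S, lev y = (cel y).1 + (cel y).2)
    (hadd : ∀ c ∈ S, (∀ x, co x ≠ c) → i < c.1 + c.2 ∧
      n ≤ (S.filter (fun c' => c' ≤ c ∧ i < c'.1 + c'.2)).card ∧
      ((S.filter (fun c' => c' ≤ c ∧ i < c'.1 + c'.2)).card = n →
        k + (S.filter (fun c' => c' ≤ c ∧ c'.1 + c'.2 = i)).card ≤
        (S.filter (fun c' => c'.1 + c'.2 = i)).card +
          (S.filter (fun c' => c' ≤ c ∧ c'.1 + c'.2 = i + 1)).card))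
    (h : (1 + X : ℤ[X]) ^ k ∣ Z (CelS S) i n) : (1 + X : ℤ[X]) ^ k ∣ Z Q i n := by
  classical
  set D : Finset (CelS S) := univ.filter (fun y => ∀ x, co x ≠ cel y) with hDdef
  have hmem : ∀ y, y ∈ D ↔ ∀ x, co x ≠ cel y := by
    intro y
    rw [hDdef, mem_filter]
    simp
  have hD : ∀ x y, x ≤ y → y ∈ D → x ∈ D := by
    intro x y hxy hy
    rw [hmem] at hy ⊢
    intro z hz
    obtain ⟨w, hw⟩ := hlow z (cel y) (by rw [hz]; exact hxy) (cel_mem y)
    exact hy w hw
  have hlev : ∀ y ∈ D, i < lev y := by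
    intro y hy
    rw [hlevS]
    exact (hadd (cel y) (cel_mem y) ((hmem y).1 hy)).1
  have hcone : ∀ z : CelS S, ncone i z =
      (S.filter (fun c' => c' ≤ cel z ∧ i < c'.1 + c'.2)).card := by
    intro z
    rw [ncone_eq]
    refine Finset.card_bij (fun y _ => cel y) ?_ ?_ ?_
    · intro y hy
      rw [mem_filter, hlevS] at hy
      rw [mem_filter]
      exact ⟨cel_mem y, hy.2.1, hy.2.2⟩
    · intro y _ y' _ h
      exact cel_inj h
    · intro c hc
      rw [mem_filter] at hc
      obtain ⟨y, hy⟩ := cel_surj hc.1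
      refine ⟨y, ?_, hy⟩
      rw [mem_filter, hlevS, hy]
      refine ⟨mem_univ _, ?_, hc.2.2⟩
      rw [cel_le, hy]
      exact hc.2.1
  have hcut := dvd_Z_cut (k := k) hgr hD hlev (fun z hz => by
    rw [hcone]
    exact (hadd (cel z) (cel_mem z) ((hmem z).1 hz)).2.1) (fun z hz hzn => by
    rw [hcone] at hzn
    rw [nab_cel hlevS, nab_cel hlevS, lv_cel hlevS]
    exact (hadd (cel z) (cel_mem z) ((hmem z).1 hz)).2.2 hzn) h
  let f : Q → {y : CelS S // y ∉ D} := fun x =>
    ⟨toDual ⟨co x, hsub x⟩, fun h => (hmem _).1 h x rfl⟩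
  have hbij : Function.Bijective f := by
    constructor
    · intro x y hxy
      have h1 := congrArg (fun z => cel z.1) hxy
      exact hinj h1
    · rintro ⟨y, hy⟩
      rw [hmem] at hy
      push Not at hy
      obtain ⟨x, hx⟩ := hy
      refine ⟨x, Subtype.ext (cel_inj ?_)⟩
      exact hx
  let e : Q ≃o {y : CelS S // y ∉ D} :=
    { toEquiv := Equiv.ofBijective f hbij
      map_rel_iff' := by
        intro x y
        rw [hle]
        exact Iff.rfl }
  rw [EcZ_iso e i n]
  exact hcut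

end cells

section exc

/-- counts at the fold -/
lemma fold_counts {S : Finset (ℕ × ℕ)} {i q s : ℕ} (hSge : ∀ c ∈ S, c.1 ≤ c.2)
    (hS : ∀ s' c', s' ≤ c' → c' < q → (s', c') ∈ S) (hs : s < q) (hi : i + 4 = 2 * s)
    (hq : q ≤ i + 1) (hr : i + 2 ≤ 2 * q) :
    (i / 2 + q - i - 1) + (S.filter (fun c' => c' ≤ (s, s) ∧ c'.1 + c'.2 = i)).card ≤
        (S.filter (fun c' => c'.1 + c'.2 = i)).card +
          (S.filter (fun c' => c' ≤ (s, s) ∧ c'.1 + c'.2 = i + 1)).card := by
  classical
  have h1 : (S.filter (fun c' => c' ≤ (s, s) ∧ c'.1 + c'.2 = i)).card ≤ 3 := by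
    have h2 : S.filter (fun c' => c' ≤ (s, s) ∧ c'.1 + c'.2 = i) ⊆
        {(s - 4, s), (s - 3, s - 1), (s - 2, s - 2)} := by
      intro p hp
      rw [mem_filter] at hp
      obtain ⟨h3, h4, h5⟩ := hp
      have h6 := hSge p h3
      have h7 : p.1 ≤ s := h4.1
      have h8 : p.2 ≤ s := h4.2
      rw [mem_insert, mem_insert, mem_singleton]
      by_cases h9 : p.2 = s
      · exact Or.inl (Prod.ext (by simp only; omega) h9)
      · by_cases h10 : p.2 = s - 1
        · exact Or.inr (Or.inl (Prod.ext (by simp only; omega) h10))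
        · exact Or.inr (Or.inr (Prod.ext (by simp only; omega) (by simp only; omega)))
    exact (card_le_card h2).trans (card_le_three)
  have h2 : 2 ≤ (S.filter (fun c' => c' ≤ (s, s) ∧ c'.1 + c'.2 = i + 1)).card := by
    have h3 : ({(s - 3, s), (s - 2, s - 1)} : Finset (ℕ × ℕ)) ⊆
        S.filter (fun c' => c' ≤ (s, s) ∧ c'.1 + c'.2 = i + 1) := by
      intro p hp
      rw [mem_insert, mem_singleton] at hp
      rw [mem_filter]
      rcases hp with rfl | rfl
      · exact ⟨hS _ _ (by omega) hs, ⟨Nat.sub_le _ _, le_rfl⟩, by simp only; omega⟩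
      · exact ⟨hS _ _ (by omega) (by omega), ⟨Nat.sub_le _ _, Nat.sub_le _ _⟩,
          by simp only; omega⟩
    have h4 := card_le_card h3
    rwa [card_pair (by
      intro h
      have := congrArg Prod.snd h
      simp only at this
      omega)] at h4
  have h3 : i / 2 + q - i ≤ (S.filter (fun c' => c'.1 + c'.2 = i)).card := by
    have h4 : (range (i / 2 + q - i)).image (fun a => (i / 2 - a, i - (i / 2 - a))) ⊆
        S.filter (fun c' => c'.1 + c'.2 = i) := by
      intro p hp
      rw [mem_image] at hp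
      obtain ⟨a, ha, rfl⟩ := hp
      rw [mem_range] at ha
      rw [mem_filter]
      exact ⟨hS _ _ (by omega) (by omega), by simp only; omega⟩
    have h5 := card_le_card h4
    rwa [card_image_of_injOn, card_range] at h5
    intro a ha b hb hab
    rw [mem_coe, mem_range] at ha hb
    simp only [Prod.mk.injEq] at hab
    omega
  omega

/-- TRUNCATED STAIRCASES, EXCEPTIONAL ENERGY: order one less -/
theorem stair_trunc_exc {Q : Type u} [Fintype Q] [PartialOrder Q] [DecidableEq Q]
    (co : Q → ℕ × ℕ) (hinj : Function.Injective co) (hge : ∀ x, (co x).1 ≤ (co x).2)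
    (hle : ∀ x y : Q, x ≤ y ↔ co y ≤ co x)
    (hlow : ∀ x : Q, ∀ c ≤ co x, c.1 ≤ c.2 → ∃ y, co y = c) {i q J : ℕ} (hq : q ≤ i + 1)
    (hr : i + 2 ≤ 2 * q) (hiJ : J = i + 3) (hsub : q = i + 1 ∨ ∀ x, (co x).2 < q)
    (hbase : ∀ s c, s ≤ c → c < q → s + c ≤ J → ∃ x, co x = (s, c)) :
    (1 + X : ℤ[X]) ^ (i / 2 + q - i - 1) ∣ Z Q i 6 := by
  classical
  have key : ∀ S : Finset (ℕ × ℕ), (∀ c ∈ S, c.1 ≤ c.2) →
      (∀ c ∈ S, ∀ c' ≤ c, c'.1 ≤ c'.2 → c' ∈ S) →
      (∀ s' c', s' ≤ c' → c' < q → (s', c') ∈ S) → (∀ x, co x ∈ S) →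
      (∀ c ∈ S, (∀ x, co x ≠ c) → c.1 ≤ c.2 ∧ c.2 < q) →
      (1 + X : ℤ[X]) ^ (i / 2 + q - i) ∣ Z (CelS S) i 6 →
      (1 + X : ℤ[X]) ^ (i / 2 + q - i - 1) ∣ Z Q i 6 := by
    intro S hSge hSlow hS hsubS hadd hd
    refine dvd_complete co hinj hle hsubS (fun x c hc hcS => hlow x c hc (hSge c hcS))
      (cel_graded conn_shift hSge hSlow (lev_cel_shift hSge hSlow))
      (lev_cel_shift hSge hSlow) ?_ ((pow_dvd_pow _ (Nat.sub_le _ _)).trans hd)
    rintro ⟨s, c⟩ hc hno
    obtain ⟨h1, h1'⟩ := hadd _ hc hno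
    simp only at h1 h1'
    have h2 : J < s + c := by
      by_contra hcon
      obtain ⟨x, hx⟩ := hbase s c h1 h1' (by omega)
      exact hno x hx
    have h3 := cone_stair (n := 5) hS hq h1 h1' h2 (by omega) (by omega) (fun _ h _ _ => by omega)
    refine ⟨by simp only; omega, by omega, fun h4 => ?_⟩
    by_cases h5 : s = c ∧ s + c = J + 1
    · obtain ⟨h5, h6⟩ := h5
      subst h5
      exact fold_counts hSge hS h1' (by omega) hq hr
    · have h6 := cone_stair (n := 6) hS hq h1 h1' h2 (by omega) (by omega)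
        (fun _ _ h h' => h5 ⟨h, h'⟩)
      omega
  rcases hsub with hqi | hsub
  · set S : Finset (ℕ × ℕ) := univ.image co ∪ stc q with hSdef
    have hmem : ∀ p, p ∈ S ↔ (∃ x, co x = p) ∨ p ∈ stc q := by
      intro p
      rw [hSdef, mem_union, mem_image]
      simp
    have hSge : ∀ c ∈ S, c.1 ≤ c.2 := by
      intro c hc
      rcases (hmem c).1 hc with ⟨x, rfl⟩ | h
      · exact hge x
      · exact stc_shift c h
    have hSlow : ∀ c ∈ S, ∀ c' ≤ c, c'.1 ≤ c'.2 → c' ∈ S := by
      intro c hc c' hc' hs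
      rw [hmem] at hc ⊢
      rcases hc with ⟨x, rfl⟩ | h
      · exact Or.inl (hlow x c' hc' hs)
      · exact Or.inr (stc_low c h c' hc' hs)
    refine key S hSge hSlow (fun s' c' h h' => (hmem _).2 (Or.inr (mem_stc.2 ⟨h, h'⟩)))
      (fun x => (hmem _).2 (Or.inl ⟨x, rfl⟩)) (fun c hc hno => ?_) ?_
    · rcases (hmem _).1 hc with ⟨x, hx⟩ | h
      · exact absurd hx (hno x)
      · exact mem_stc.1 h
    · refine dvd_Z_of_dvd_W ?_ 6
      have h1 := Yg.shift_dvd_cell (Q := CelS S) (i := i) cel cel_inj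
        (fun x => hSge _ (cel_mem x))
        cel_le (fun x c hc hs => cel_surj (hSlow _ (cel_mem x) c hc hs))
        (cel_surj ((hmem _).2 (Or.inr (mem_stc.2 ⟨by simp only; omega, by simp only; omega⟩))))
      rwa [show i / 2 + q - i = i / 2 + 1 by omega]
  · refine key (stc q) stc_shift stc_low (fun s' c' h h' => mem_stc.2 ⟨h, h'⟩)
      (fun x => mem_stc.2 ⟨hge x, hsub x⟩) (fun c hc _ => mem_stc.1 hc) ?_
    rw [show i / 2 + q - i = (2 * q - 2 - i) / 2 + 1 by omega]
    exact stair_full hq hr 6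

end exc

/-- the exceptional energy, all lower sets -/
theorem Tru.cln_exc {Q : Type u} [Fintype Q] [PartialOrder Q] [DecidableEq Q] {t : Q}
    {co : Q → ℕ × ℕ} {i J q : ℕ} (H : Tru t (fun c => c.1 ≤ c.2) co i J (i + 1) q)
    (hr : i + 2 ≤ 2 * q) (hJ : J = i + 3) : Cln Q co i J (i + 1) q (i / 2 + q - i - 1) 7 := by
  classical
  intro D hD hRD hDi hDθ n hn
  obtain ⟨h1, h2, h3, h4, h5⟩ := H.sub_facts hD hRD hDθ
  have hq := H.hq
  have hs : q = i + 1 ∨ ∀ x : {x : Q // x ∉ D}, (co (x : Q)).2 < q := by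
    rcases H.qcl with h | h
    · exact Or.inl h
    · exact Or.inr fun x => h x (h1 x)
  by_cases hn6 : n = 6
  · subst hn6
    exact stair_trunc_exc (fun x : {x : Q // x ∉ D} => co (x : Q)) h2
      (fun x => H.chart.mem x (mem_loN.2 (h1 x))) h3 h4 H.hq hr hJ hs
      (fun s c hsc hc hJ => h5 s c hsc (by omega) hc hJ)
  · exact (pow_dvd_pow _ (Nat.sub_le _ _)).trans
      (stair_trunc (fun x : {x : Q // x ∉ D} => co (x : Q)) h2
      (fun x => H.chart.mem x (mem_loN.2 (h1 x))) h3 h4 H.hq hr H.hiJ hs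
      (fun s c hsc hc hJ => h5 s c hsc (by omega) hc hJ) (by omega)
      (fun _ h' => absurd h' hn6))

end Pool.Agent.GaussPoset

end

/-! From `Pool.Agent.W_448ec_h63.EH` -/

section

/-!
Costs of the elements of level `J + 1`.
-/

namespace Pool.Agent.GaussPoset

set_option linter.unusedSectionVars false

open Polynomial Finset OrderDual

universe u

variable {Q : Type u} [Fintype Q] [PartialOrder Q] [DecidableEq Q]
variable {t : Q} {T : ℕ × ℕ → Prop} {co : Q → ℕ × ℕ} {i J p q : ℕ}

/-- the elements of the boundary have level `J + 1` -/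
lemma bd_lev (hgr : GradedBelow Q) {z x : Q} (hz : J < lev z) (hx : lev x ≤ J) (h : z ⋖ x) :
    lev z = J + 1 ∧ lev x = J := by
  have := hgr.lev_covBy h
  omega

lemma sum_min_two (i : ℕ) : ∀ L : ℕ, ∑ k ∈ range (i + L + 2), min 2 (k - i) * 1 = 2 * L + 1 := by
  intro L
  induction L with
  | zero =>
    rw [Finset.sum_range_succ]
    have h1 : ∑ k ∈ range (i + 0 + 1), min 2 (k - i) * 1 = 0 := by
      refine Finset.sum_eq_zero fun k hk => ?_
      rw [mem_range] at hk
      omega
    rw [h1]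
    omega
  | succ L ih =>
    rw [show i + (L + 1) + 2 = (i + L + 2) + 1 by ring, Finset.sum_range_succ, ih]
    omega

/-- label at least two -/
lemma cost_two {h : Q → ℕ} {z : Q} (hz : lev z = J + 1) (hiJ : i ≤ J) (h2 : 2 ≤ h z) :
    2 * (J - i) + 1 ≤ cst i h z := by
  have h3 := cst_ge (h := h) (z := z) (i := i) (fun _ => 1) (fun k _ hk => one_le_nab hk)
  refine le_trans ?_ h3
  obtain ⟨L, hL⟩ : ∃ L, J = i + L := ⟨J - i, by omega⟩
  rw [hz, hL, show i + L + 1 + 1 = i + L + 2 by ring]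
  have h4 := sum_min_two i L
  rw [show i + L - i = L by omega, ← h4]
  refine Finset.sum_le_sum fun k _ => ?_
  have : min 2 (k - i) ≤ min (h z) (k - i) := min_le_min_right _ h2
  omega

/-- label one -/
lemma cost_one {h : Q → ℕ} {z : Q} (hz : lev z = J + 1) (hiJ : i ≤ J) (h1 : h z = 1) (g : ℕ → ℕ)
    (hg : ∀ m < J - i, g m ≤ nab (J - m) z) :
    1 + ∑ m ∈ range (J - i), g m ≤ cst i h z ∧
      (cst i h z = 1 + ∑ m ∈ range (J - i), g m → ∀ m < J - i, nab (J - m) z = g m) := by
  classical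
  have e1 : cst i h z = nab (J + 1) z + ∑ k ∈ range (J + 1), min (h z) (k - i) * nab k z := by
    rw [cst_eq, hz, Finset.sum_range_succ, h1, add_comm]
    congr 1
    rw [Nat.min_eq_left (by omega), one_mul]
  have e2 : ∑ m ∈ range (J - i), nab (J - m) z ≤
      ∑ k ∈ range (J + 1), min (h z) (k - i) * nab k z := by
    have h3 : (range (J - i)).image (fun m => J - m) ⊆ range (J + 1) := by
      intro k hk
      rw [mem_image] at hk
      obtain ⟨m, -, rfl⟩ := hk
      rw [mem_range]
      omega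
    refine le_trans (le_of_eq ?_) (Finset.sum_le_sum_of_subset h3)
    rw [Finset.sum_image]
    · refine Finset.sum_congr rfl fun m hm => ?_
      rw [mem_range] at hm
      rw [h1, Nat.min_eq_left (by omega), one_mul]
    · intro a ha b hb hab
      rw [mem_coe, mem_range] at ha hb
      simp only at hab
      omega
  have e3 : ∑ m ∈ range (J - i), g m ≤ ∑ m ∈ range (J - i), nab (J - m) z :=
    Finset.sum_le_sum fun m hm => hg m (mem_range.1 hm)
  have e4 : 1 ≤ nab (J + 1) z := one_le_nab hz.ge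
  refine ⟨by omega, fun h5 => ?_⟩
  have h6 : ∑ m ∈ range (J - i), g m = ∑ m ∈ range (J - i), nab (J - m) z := by omega
  have h7 := (Finset.sum_eq_sum_iff_of_le (fun m hm => hg m (mem_range.1 hm))).1 h6
  exact fun m hm => (h7 m (mem_range.2 hm)).symm

/-- lower bounds from the chart: two elements -/
lemma nab_two (H : Tru t T co i J p q) {x : Q} (hx : lev x ≤ J) {l a b a' b' : ℕ}
    (h1 : a + b = l) (h2 : a' + b' = l) (hne : a ≠ a') (ha : a ≤ (co x).1) (hb : b ≤ (co x).2)
    (ha' : a' ≤ (co x).1) (hb' : b' ≤ (co x).2) (hT : T (a, b)) (hT' : T (a', b')) :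
    2 ≤ nab l x := by
  classical
  rw [nab_chart H.chart (mem_loN.2 hx)]
  have h3 : ({a, a'} : Finset ℕ) ⊆ cellsAt T l (co x) := by
    intro c hc
    rw [mem_insert, mem_singleton] at hc
    rw [mem_cellsAt]
    rcases hc with rfl | rfl
    · have e : l - c = b := by omega
      rw [e]
      exact ⟨ha, by omega, hb, hT⟩
    · have e : l - c = b' := by omega
      rw [e]
      exact ⟨ha', by omega, hb', hT'⟩
  have h4 := card_le_card h3
  rwa [card_pair hne] at h4

/-- lower bounds from the chart: three elements -/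
lemma nab_three (H : Tru t T co i J p q) {x : Q} (hx : lev x ≤ J) {l a b : ℕ}
    (h1 : a + b = l) (ha : a + 2 ≤ (co x).1) (hb : b ≤ (co x).2) (hb2 : 2 ≤ b)
    (hT : T (a, b)) (hT1 : T (a + 1, b - 1)) (hT2 : T (a + 2, b - 2)) :
    3 ≤ nab l x := by
  classical
  rw [nab_chart H.chart (mem_loN.2 hx)]
  have h3 : ({a, a + 1, a + 2} : Finset ℕ) ⊆ cellsAt T l (co x) := by
    intro c hc
    rw [mem_insert, mem_insert, mem_singleton] at hc
    rw [mem_cellsAt]
    rcases hc with rfl | rfl | rfl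
    · have e : l - c = b := by omega
      rw [e]
      exact ⟨by omega, by omega, hb, hT⟩
    · have e : l - (a + 1) = b - 1 := by omega
      rw [e]
      exact ⟨by omega, by omega, by omega, hT1⟩
    · have e : l - (a + 2) = b - 2 := by omega
      rw [e]
      exact ⟨by omega, by omega, by omega, hT2⟩
  have h4 := card_le_card h3
  have h5 : ({a, a + 1, a + 2} : Finset ℕ).card = 3 := by
    rw [card_insert_of_notMem, card_pair]
    · omega
    · rw [mem_insert, mem_singleton]
      omega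
  omega

/-- upper bound from the chart -/
lemma nab_upper (H : Tru t T co i J p q) {x : Q} (hx : lev x ≤ J) {l lo hi : ℕ}
    (h : ∀ a, a ≤ (co x).1 → a ≤ l → l - a ≤ (co x).2 → T (a, l - a) → lo ≤ a ∧ a < hi) :
    nab l x ≤ hi - lo := by
  classical
  rw [nab_chart H.chart (mem_loN.2 hx)]
  have h3 : cellsAt T l (co x) ⊆ Finset.Ico lo hi := by
    intro c hc
    rw [mem_cellsAt] at hc
    rw [Finset.mem_Ico]
    exact h c hc.1 hc.2.1 hc.2.2.1 hc.2.2.2
  have h4 := card_le_card h3
  rwa [Nat.card_Ico] at h4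

/-- an only element of level `l` above `z` -/
lemma nab_of_single (hgr : GradedBelow Q) {z x : Q} (hzx : z ≤ x) (h1 : nab (lev x) z = 1) {l : ℕ}
    (hl : l ≤ lev x) : nab l z = nab l x := by
  classical
  refine le_antisymm ?_ (nab_mono hzx)
  unfold nab
  refine Finset.card_le_card fun y hy => ?_
  rw [mem_filter, mem_lv] at hy ⊢
  refine ⟨hy.1, ?_⟩
  obtain ⟨w, hw1, hw2, hw3⟩ := exists_between hgr hy.2 (l := lev x) (by omega) (lev_le_of_le hzx)
  have hwx : w = x := by
    by_contra hne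
    have := two_le_nab hw1 hzx hw3 rfl hne
    omega
  rw [← hwx]
  exact hw2

/-- sums of the bounds -/
def gR (m : ℕ) : ℕ := if m = 0 then 1 else if m = 1 then 2 else 3
/-- sums of the bounds -/
def gS (m : ℕ) : ℕ := if m = 0 then 1 else if m < 3 then 2 else 3
/-- sums of the bounds -/
def gT (m : ℕ) : ℕ := if m < 2 then 1 else if m < 4 then 2 else 3

lemma sum_gR : ∀ L : ℕ, ∑ m ∈ range (L + 2), gR m = 3 * L + 3 := by
  intro L
  induction L with
  | zero => decide
  | succ L ih =>
    rw [show L + 1 + 2 = (L + 2) + 1 by ring, Finset.sum_range_succ, ih]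
    unfold gR
    rw [if_neg (by omega), if_neg (by omega)]
    ring

lemma sum_gS : ∀ L : ℕ, ∑ m ∈ range (L + 3), gS m = 3 * L + 5 := by
  intro L
  induction L with
  | zero => decide
  | succ L ih =>
    rw [show L + 1 + 3 = (L + 3) + 1 by ring, Finset.sum_range_succ, ih]
    unfold gS
    rw [if_neg (by omega), if_neg (by omega)]
    ring

lemma sum_gT : ∀ L : ℕ, ∑ m ∈ range (L + 4), gT m = 3 * L + 6 := by
  intro L
  induction L with
  | zero => decide
  | succ L ih =>
    rw [show L + 1 + 4 = (L + 4) + 1 by ring, Finset.sum_range_succ, ih]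
    unfold gT
    rw [if_neg (by omega), if_neg (by omega)]
    ring

/-- the free cover of a boundary element with label one -/
lemma free_cover (H : Tru t T co i J p q) {z : Q} (hz : z ∈ bdR (hiN Q J))
    (h1 : hcan (hiN Q J) (thJ J p q co) z = 1) :
    ∃ x, z ⋖ x ∧ lev x = J ∧ lev z = J + 1 ∧ (co x).1 < p ∧ (co x).2 < q ∧
      (co x).1 + (co x).2 = J := by
  classical
  obtain ⟨x, hxR, hzx, hx⟩ := hcan_spec (θ := thJ J p q co) hz
  have h0 : lev x ≤ J := by
    rw [mem_hiN] at hxR
    omega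
  have hzJ : J < lev z := by
    have := (mem_filter.1 hz).1
    rwa [mem_hiN] at this
  obtain ⟨h2, h3⟩ := bd_lev H.graded hzJ h0 hzx
  rw [thJ_lo h0] at hx
  have h4 : thE p q co x = 0 := by omega
  unfold thE at h4
  have h5 := H.chart.lev x (mem_loN.2 h0)
  exact ⟨x, hzx, h3, h2, by omega, by omega, by omega⟩

lemma bd_lev' (H : Tru t T co i J p q) {z : Q} (hz : z ∈ bdR (hiN Q J)) : lev z = J + 1 := by
  classical
  obtain ⟨x, hxR, hzx⟩ := (mem_filter.1 hz).2
  have hzJ : J < lev z := by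
    have := (mem_filter.1 hz).1
    rwa [mem_hiN] at this
  have h0 : lev x ≤ J := by
    rw [mem_hiN] at hxR
    omega
  exact (bd_lev H.graded hzJ h0 hzx).1

/-- RECTANGLES: everything of level `> J` is expensive -/
theorem Tru.cost_rect (H : Tru t (fun _ => True) co i J p q) {z : Q} (hz : z ∈ bdR (hiN Q J)) :
    2 * (J - i) + 1 ≤ cst i (hcan (hiN Q J) (thJ J p q co)) z := by
  classical
  have hiJ := H.hiJ
  have hp := H.hp
  have hq := H.hq
  have hl := bd_lev' H hz
  rcases Nat.lt_or_ge (hcan (hiN Q J) (thJ J p q co) z) 2 with h2 | h2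
  · have h1 : hcan (hiN Q J) (thJ J p q co) z = 1 := by
      obtain ⟨x, -, -, hx⟩ := hcan_spec (θ := thJ J p q co) hz
      omega
    obtain ⟨x, hzx, hxl, -, hs, hc, hsc⟩ := free_cover H hz h1
    have h3 := (cost_one (i := i) hl (by omega) h1 gR (by
      intro m hm
      refine le_trans ?_ (nab_mono hzx.le)
      unfold gR
      split_ifs with e1 e2
      · exact one_le_nab (by omega)
      · exact nab_two H (by omega) (a := (co x).1 - 1) (b := (co x).2) (a' := (co x).1)
          (b' := (co x).2 - 1) (by omega) (by omega) (by omega) (by omega) (by omega) (by omega)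
          (by omega) trivial trivial
      · exact nab_three H (by omega) (a := (co x).1 - 2) (b := (co x).2 - (m - 2)) (by omega)
          (by omega) (by omega) (by omega) trivial trivial trivial)).1
    obtain ⟨L, hL⟩ : ∃ L, J - i = L + 2 := ⟨J - i - 2, by omega⟩
    rw [hL, sum_gR] at h3
    omega
  · exact cost_two hl (by omega) h2

/-- RECTANGLES ARE CLEAN UP TO `2 (J - i)` -/
theorem Tru.rect_clean (H : Tru t (fun _ => True) co i J p q) (hr : i + 2 ≤ p + q) {n : ℕ}
    (hn : n ≤ 2 * (J - i)) : (1 + X : ℤ[X]) ^ (p + q - 1 - i) ∣ Z Q i n := by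
  refine (H.farT (H.cln_rect hr le_rfl)).dvd_of_lt (by omega) fun z hz => ?_
  have := H.cost_rect hz
  omega

end Pool.Agent.GaussPoset

end

/-! From `Pool.Agent.W_448ec_h63.EI` -/

section

/-!
Staircases: costs, cleanness.
-/

namespace Pool.Agent.GaussPoset

set_option linter.unusedSectionVars false

open Polynomial Finset OrderDual

universe u

variable {Q : Type u} [Fintype Q] [PartialOrder Q] [DecidableEq Q]
variable {t : Q} {co : Q → ℕ × ℕ} {i J q : ℕ}

/-- the canonical labels of a staircase -/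
noncomputable abbrev hS (co : Q → ℕ × ℕ) (i J q : ℕ) : Q → ℕ :=
  hcan (hiN Q J) (thJ J (i + 1) q co)

/-- cost of a boundary element with label one over a cell `(s, c)`, `s ≤ c` -/
theorem stair_cost_one (H : Tru t (fun c => c.1 ≤ c.2) co i J (i + 1) q) {z : Q}
    (hz : z ∈ bdR (hiN Q J)) (h1 : hS co i J q z = 1) :
    ∃ x, z ⋖ x ∧ lev x = J ∧ (co x).1 + (co x).2 = J ∧ (co x).2 < q ∧
      (((co x).1 + 2 ≤ (co x).2 ∧ 1 + ∑ m ∈ range (J - i), gR m ≤ cst i (hS co i J q) z) ∨
      ((co x).2 = (co x).1 + 1 ∧ 1 + ∑ m ∈ range (J - i), gS m ≤ cst i (hS co i J q) z ∧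
        (cst i (hS co i J q) z = 1 + ∑ m ∈ range (J - i), gS m →
          ∀ m < J - i, nab (J - m) z = gS m)) ∨
      ((co x).2 = (co x).1 ∧ 1 + ∑ m ∈ range (J - i), gT m ≤ cst i (hS co i J q) z ∧
        (cst i (hS co i J q) z = 1 + ∑ m ∈ range (J - i), gT m →
          ∀ m < J - i, nab (J - m) z = gT m))) := by
  classical
  have hiJ := H.hiJ
  have hq := H.hq
  obtain ⟨x, hzx, hxl, hl, hs, hc, hsc⟩ := free_cover H hz h1
  have hge : (co x).1 ≤ (co x).2 := H.chart.mem x (mem_loN.2 hxl.le)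
  refine ⟨x, hzx, hxl, hsc, hc, ?_⟩
  rcases Nat.lt_or_ge ((co x).1 + 1) (co x).2 with hf | hf
  · left
    refine ⟨by omega, (cost_one (i := i) hl (by omega) h1 gR (by
      intro m hm
      refine le_trans ?_ (nab_mono hzx.le)
      unfold gR
      split_ifs with e1 e2
      · exact one_le_nab (by omega)
      · exact nab_two H (by omega) (a := (co x).1 - 1) (b := (co x).2) (a' := (co x).1)
          (b' := (co x).2 - 1) (by omega) (by omega) (by omega) (by omega) (by omega) (by omega)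
          (by omega) (by simp only; omega) (by simp only; omega)
      · exact nab_three H (by omega) (a := (co x).1 - m) (b := (co x).2) (by omega)
          (by omega) (by omega) (by omega) (by simp only; omega) (by simp only; omega)
          (by simp only; omega))).1⟩
  · rcases Nat.lt_or_ge (co x).1 (co x).2 with hf' | hf'
    · right; left
      refine ⟨by omega, cost_one (i := i) hl (by omega) h1 gS ?_⟩
      intro m hm
      refine le_trans ?_ (nab_mono hzx.le)
      unfold gS
      split_ifs with e1 e2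
      · exact one_le_nab (by omega)
      · exact nab_two H (by omega) (a := (co x).1 - m) (b := (co x).2) (a' := (co x).1 - m + 1)
          (b' := (co x).2 - 1) (by omega) (by omega) (by omega) (by omega) (by omega) (by omega)
          (by omega) (by simp only; omega) (by simp only; omega)
      · exact nab_three H (by omega) (a := (co x).1 - m) (b := (co x).2) (by omega)
          (by omega) (by omega) (by omega) (by simp only; omega) (by simp only; omega)
          (by simp only; omega)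
    · right; right
      refine ⟨by omega, cost_one (i := i) hl (by omega) h1 gT ?_⟩
      intro m hm
      refine le_trans ?_ (nab_mono hzx.le)
      unfold gT
      split_ifs with e1 e2
      · exact one_le_nab (by omega)
      · exact nab_two H (by omega) (a := (co x).1 - m) (b := (co x).2) (a' := (co x).1 - m + 1)
          (b' := (co x).2 - 1) (by omega) (by omega) (by omega) (by omega) (by omega) (by omega)
          (by omega) (by simp only; omega) (by simp only; omega)
      · exact nab_three H (by omega) (a := (co x).1 - m) (b := (co x).2) (by omega)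
          (by omega) (by omega) (by omega) (by simp only; omega) (by simp only; omega)
          (by simp only; omega)

/-- costs of staircases -/
theorem Tru.cost_stair (H : Tru t (fun c => c.1 ≤ c.2) co i J (i + 1) q) {z : Q}
    (hz : z ∈ bdR (hiN Q J)) :
    2 * (J - i) + 1 ≤ cst i (hS co i J q) z ∨
    (J = i + 3 ∧ 2 * (J / 2) + 1 = J ∧ 6 ≤ cst i (hS co i J q) z) ∨
    (J = i + 3 ∧ 2 * (J / 2) = J ∧ 5 ≤ cst i (hS co i J q) z) ∨
    (J = i + 4 ∧ 2 * (J / 2) = J ∧ 7 ≤ cst i (hS co i J q) z) ∨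
    (J = i + 5 ∧ 2 * (J / 2) = J ∧ 10 ≤ cst i (hS co i J q) z) := by
  classical
  have hiJ := H.hiJ
  rcases Nat.lt_or_ge (hS co i J q z) 2 with h2 | h2
  swap
  · exact Or.inl (cost_two (bd_lev' H hz) (by omega) h2)
  have h1 : hS co i J q z = 1 := by
    obtain ⟨x, -, -, hx⟩ := hcan_spec (θ := thJ J (i + 1) q co) hz
    change hcan (hiN Q J) (thJ J (i + 1) q co) z < 2 at h2
    change hcan (hiN Q J) (thJ J (i + 1) q co) z = 1
    omega
  obtain ⟨x, -, -, hsc, -, h | h | h⟩ := stair_cost_one H hz h1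
  · obtain ⟨L, hL⟩ : ∃ L, J - i = L + 2 := ⟨J - i - 2, by omega⟩
    rw [hL, sum_gR] at h
    omega
  · obtain ⟨L, hL⟩ : ∃ L, J - i = L + 3 := ⟨J - i - 3, by omega⟩
    rw [hL, sum_gS] at h
    omega
  · by_cases h3 : J = i + 3
    · have h4 : J - i = 3 := by omega
      rw [h4] at h
      have h5 : ∑ m ∈ range 3, gT m = 4 := by decide
      rw [h5] at h
      omega
    · obtain ⟨L, hL⟩ : ∃ L, J - i = L + 4 := ⟨J - i - 4, by omega⟩
      rw [hL, sum_gT] at h
      omega

/-- STAIRCASES ARE CLEAN, apart from the exceptional energies -/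
theorem Tru.stair_clean (H : Tru t (fun c => c.1 ≤ c.2) co i J (i + 1) q) (hr : i + 2 ≤ 2 * q)
    {n : ℕ} (hn : n ≤ 2 * (J - i)) (e1 : J = i + 3 → 2 * (J / 2) + 1 = J → n ≤ 5)
    (e2 : J = i + 3 → 2 * (J / 2) = J → n ≤ 4) (e3 : J = i + 4 → 2 * (J / 2) = J → n ≤ 6)
    (e4 : J = i + 5 → 2 * (J / 2) = J → n ≤ 9) :
    (1 + X : ℤ[X]) ^ (i / 2 + q - i) ∣ Z Q i n := by
  have hF := H.farT (H.cln_stair hr (n0 := n + 1) (by omega) (fun h h' => by omega))
  refine hF.dvd_of_lt (by omega) fun z hz => ?_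
  have := H.cost_stair hz
  change n < cst i (hS co i J q) z
  omega

/-- sites of a staircase -/
lemma Tru.lv_stair (H : Tru t (fun c => c.1 ≤ c.2) co i J (i + 1) q) :
    i / 2 + q - i ≤ (lv Q i).card := by
  classical
  have hiJ := H.hiJ
  have hq := H.hq
  have h1 : (range (i / 2 + q - i)).image (fun a => (i / 2 - a, i - (i / 2 - a))) ⊆
      (lv Q i).image co := by
    intro c hc
    rw [mem_image] at hc
    obtain ⟨a, ha, rfl⟩ := hc
    rw [mem_range] at ha
    obtain ⟨x, hx, hcx⟩ := H.base (i / 2 - a) (i - (i / 2 - a)) (by simp only; omega) (by omega)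
      (by omega) (by omega)
    rw [mem_image]
    refine ⟨x, ?_, hcx⟩
    rw [mem_lv, H.chart.lev x (mem_loN.2 hx), hcx]
    simp only
    omega
  have h2 := (card_le_card h1).trans card_image_le
  rwa [card_image_of_injOn, card_range] at h2
  intro a ha b hb hab
  rw [mem_coe, mem_range] at ha hb
  simp only [Prod.mk.injEq] at hab
  omega

/-- the drop of the exceptional elements is at most one -/
theorem Tru.drop_stair (H : Tru t (fun c => c.1 ≤ c.2) co i J (i + 1) q) {z : Q}
    (hz : z ∈ bdR (hiN Q J)) (h1 : hS co i J q z = 1)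
    (hn : (J = i + 3 ∧ 2 * (J / 2) + 1 = J ∧ cst i (hS co i J q) z = 6) ∨
      (J = i + 3 ∧ 2 * (J / 2) = J ∧ cst i (hS co i J q) z = 5) ∨
      (J = i + 4 ∧ 2 * (J / 2) = J ∧ cst i (hS co i J q) z = 7) ∨
      (J = i + 5 ∧ 2 * (J / 2) = J ∧ cst i (hS co i J q) z = 10)) :
    nab i z ≤ nab (i + 1) z + 1 := by
  classical
  have hiJ := H.hiJ
  obtain ⟨x, hzx, hxl, hsc, hcq, h | h | h⟩ := stair_cost_one H hz h1
  · exfalso
    obtain ⟨L, hL⟩ : ∃ L, J - i = L + 2 := ⟨J - i - 2, by omega⟩
    rw [hL, sum_gR] at h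
    omega
  · obtain ⟨L, hL⟩ : ∃ L, J - i = L + 3 := ⟨J - i - 3, by omega⟩
    obtain ⟨hf, h2, h3⟩ := h
    rw [hL, sum_gS] at h2 h3
    have hL0 : L = 0 := by omega
    have h4 := h3 (by omega)
    have h5 := h4 0 (by omega)
    have h6 := h4 (J - i - 1) (by omega)
    rw [show J - (J - i - 1) = i + 1 by omega, show J - i - 1 = 2 by omega] at h6
    rw [show J - 0 = lev x by omega] at h5
    have h7 := nab_of_single H.graded hzx.le h5 (l := i) (by omega)
    have h8 := nab_upper H hxl.le (l := i) (lo := (co x).1 - 3) (hi := (co x).1) (by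
      intro a ha1 ha2 ha3 ha4
      simp only at ha4
      omega)
    have h9 : gS 2 = 2 := rfl
    omega
  · obtain ⟨hf, h2, h3⟩ := h
    have hcase : J = i + 3 ∨ J = i + 4 ∨ J = i + 5 := by omega
    have key : cst i (hS co i J q) z = 1 + ∑ m ∈ range (J - i), gT m := by
      rcases hcase with h4 | h4 | h4
      · have h5 : J - i = 3 := by omega
        rw [h5] at h2 ⊢
        have h6 : ∑ m ∈ range 3, gT m = 4 := by decide
        omega
      · have h5 : J - i = 4 := by omega
        rw [h5] at h2 ⊢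
        have h6 : ∑ m ∈ range 4, gT m = 6 := by decide
        omega
      · have h5 : J - i = 5 := by omega
        rw [h5] at h2 ⊢
        have h6 : ∑ m ∈ range 5, gT m = 9 := by decide
        omega
    have h4 := h3 key
    have h5 := h4 0 (by omega)
    have h6 := h4 (J - i - 1) (by omega)
    rw [show J - (J - i - 1) = i + 1 by omega] at h6
    rw [show J - 0 = lev x by omega] at h5
    have h7 := nab_of_single H.graded hzx.le h5 (l := i) (by omega)
    have h8 := nab_upper H hxl.le (l := i) (lo := (co x).1 - (J - i)) (hi := i / 2 + 1) (by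
      intro a ha1 ha2 ha3 ha4
      simp only at ha4
      omega)
    rcases hcase with h9 | h9 | h9
    · rw [show J - i - 1 = 2 by omega] at h6
      have h10 : gT 2 = 2 := rfl
      omega
    · rw [show J - i - 1 = 3 by omega] at h6
      have h10 : gT 3 = 2 := rfl
      omega
    · rw [show J - i - 1 = 4 by omega] at h6
      have h10 : gT 4 = 3 := rfl
      omega

/-- STAIRCASES, ORDER ONE LESS -/
theorem Tru.stair_less (H : Tru t (fun c => c.1 ≤ c.2) co i J (i + 1) q) (hr : i + 2 ≤ 2 * q)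
    {n : ℕ} (hn : n ≤ 2 * (J - i)) (e2 : J = i + 3 → 2 * (J / 2) = J → n ≤ 5)
    (e3 : J = i + 4 → 2 * (J / 2) = J → n ≤ 7) :
    (1 + X : ℤ[X]) ^ (i / 2 + q - i - 1) ∣ Z Q i n := by
  classical
  have hiJ := H.hiJ
  have hlv := H.lv_stair
  by_cases hc : (J = i + 3 → 2 * (J / 2) + 1 = J → n ≤ 5) ∧ (J = i + 3 → 2 * (J / 2) = J → n ≤ 4) ∧
      (J = i + 4 → 2 * (J / 2) = J → n ≤ 6) ∧ (J = i + 5 → 2 * (J / 2) = J → n ≤ 9)
  · exact (pow_dvd_pow _ (Nat.sub_le _ _)).trans
      (H.stair_clean hr hn hc.1 hc.2.1 hc.2.2.1 hc.2.2.2)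
  have hexc : (J = i + 3 ∧ 2 * (J / 2) + 1 = J ∧ n = 6) ∨ (J = i + 3 ∧ 2 * (J / 2) = J ∧ n = 5) ∨
      (J = i + 4 ∧ 2 * (J / 2) = J ∧ n = 7) ∨ (J = i + 5 ∧ 2 * (J / 2) = J ∧ n = 10) := by
    omega
  have hle : ∀ z ∈ bdR (hiN Q J), n ≤ cst i (hS co i J q) z := by
    intro z hz
    have := H.cost_stair hz
    omega
  have hdrop : ∀ z ∈ (bdR (hiN Q J)).filter (fun z => cst i (hS co i J q) z = n),
      (1 + X : ℤ[X]) ^ (i / 2 + q - i - 1) ∣ Lt i (hS co i J q) z := by
    intro z hz
    rw [mem_filter] at hz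
    have h1 : hS co i J q z = 1 := by
      by_contra hne
      obtain ⟨x, -, -, hx⟩ := hcan_spec (θ := thJ J (i + 1) q co) hz.1
      change ¬ hcan (hiN Q J) (thJ J (i + 1) q co) z = 1 at hne
      have h2 := cost_two (h := hS co i J q) (i := i) (bd_lev' H hz.1) (by omega)
        (show 2 ≤ hcan (hiN Q J) (thJ J (i + 1) q co) z by omega)
      omega
    have h2 := H.drop_stair hz.1 h1 (by
      rw [hz.2]
      exact hexc)
    unfold Lt
    refine Dvd.dvd.mul_left (pow_dvd_pow _ ?_) _
    rw [h1]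
    omega
  have hsum : (1 + X : ℤ[X]) ^ (i / 2 + q - i - 1) ∣
      ∑ z ∈ (bdR (hiN Q J)).filter (fun z => cst i (hS co i J q) z = n), Lt i (hS co i J q) z :=
    dvd_sum hdrop
  have hmain : (1 + X : ℤ[X]) ^ (i / 2 + q - i - 1) ∣ Z Q i n -
      ∑ z ∈ (bdR (hiN Q J)).filter (fun z => cst i (hS co i J q) z = n), Lt i (hS co i J q) z := by
    rcases hexc with h | h | h | h
    · exact (H.farT (H.cln_exc hr h.1)).dvd_lead (by omega) hle
    · exact (pow_dvd_pow _ (Nat.sub_le _ _)).trans
        ((H.farT (H.cln_stair hr (n0 := n + 1) (by omega) (fun _ _ => h.2.1))).dvd_lead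
          (by omega) hle)
    · exact (pow_dvd_pow _ (Nat.sub_le _ _)).trans
        ((H.farT (H.cln_stair hr (n0 := n + 1) (by omega) (fun _ _ => h.2.1))).dvd_lead
          (by omega) hle)
    · exact (pow_dvd_pow _ (Nat.sub_le _ _)).trans
        ((H.farT (H.cln_stair hr (n0 := n + 1) (by omega) (fun _ _ => h.2.1))).dvd_lead
          (by omega) hle)
  have h3 := dvd_add hmain hsum
  rwa [sub_add_cancel] at h3

end Pool.Agent.GaussPoset

end

/-! From `Pool.Agent.W_448nl_h15.NlB` -/

section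

/-!
# MP_448cb3_co: early shapes, energies up to `2 (J - i) + 2`, distance at least six
-/

namespace Pool.Agent.GaussPoset.Nl

set_option linter.unusedSectionVars false

open Polynomial Finset OrderDual

universe u

variable {Q : Type u} [Fintype Q] [PartialOrder Q] [DecidableEq Q]
variable {t : Q} {T : ℕ × ℕ → Prop} {co : Q → ℕ × ℕ} {i J p q : ℕ}

/-- truncated rectangles are clean -/
theorem cln_rect2 (H : Tru t (fun _ => True) co i J p q) (hr : i + 2 ≤ p + q) {n0 : ℕ}
    (hn0 : n0 ≤ 2 * (J - i) + 3) : Cln Q co i J p q (p + q - 1 - i) n0 := by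
  classical
  intro D hD hRD hDi hDθ n hn
  obtain ⟨h1, h2, h3, h4, h5⟩ := H.sub_facts hD hRD hDθ
  have hiJ := H.hiJ
  have hp := H.hp
  have hq := H.hq
  by_cases hqi : q = i + 1
  · have e1 : p + q - 1 - i = p := by omega
    rw [e1]
    exact young_trunc2 (fun x : {x : Q // x ∉ D} => co (x : Q)) h2 h3
      (fun x c hc => h4 x c hc trivial) (J := J) H.hp (by omega)
      (fun s c hs hc hsc => h5 s c trivial hs (by omega) hsc) (by omega)
  · by_cases hpi : p = i + 1
    · have e1 : p + q - 1 - i = q := by omega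
      rw [e1]
      refine young_trunc2 (fun x : {x : Q // x ∉ D} => (co (x : Q)).swap) ?_ ?_ ?_ (J := J) H.hq
        (by omega) ?_ (by omega)
      · intro x y h
        exact h2 (Prod.swap_injective h)
      · intro x y
        rw [h3 x y]
        exact Prod.swap_le_swap.symm
      · intro x c hc
        obtain ⟨y, hy⟩ := h4 x c.swap ⟨hc.2, hc.1⟩ trivial
        exact ⟨y, by rw [hy, Prod.swap_swap]⟩
      · intro s c hs hc hsc
        obtain ⟨y, hy⟩ := h5 c s trivial (by omega) hs (by omega)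
        exact ⟨y, by rw [hy]; rfl⟩
    · have hsub : ∀ x : {x : Q // x ∉ D}, (co (x : Q)).1 < p ∧ (co (x : Q)).2 < q := fun x =>
        ⟨H.pcl.resolve_left hpi x (h1 x), H.qcl.resolve_left hqi x (h1 x)⟩
      exact rect_trunc2 (fun x : {x : Q // x ∉ D} => co (x : Q)) h2 h3
        (fun x c hc => h4 x c hc trivial) H.hp H.hq hr (by omega) hsub
        (fun s c hs hc hsc => h5 s c trivial hs hc hsc) (by omega)

/-- truncated staircases are clean, without the exceptional cells -/
theorem cln_stair2 (H : Tru t (fun c => c.1 ≤ c.2) co i J (i + 1) q) (hr : i + 2 ≤ 2 * q)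
    {n0 : ℕ} (hn0 : n0 ≤ 2 * (J - i) + 3)
    (hex : i + 6 ≤ J ∨ (i + 4 ≤ J ∧ 2 * (J / 2) = J) ∨ (J = i + 3 ∧ 2 * (J / 2) = J ∧ n0 ≤ 8)) :
    Cln Q co i J (i + 1) q (i / 2 + q - i) n0 := by
  classical
  intro D hD hRD hDi hDθ n hn
  obtain ⟨h1, h2, h3, h4, h5⟩ := H.sub_facts hD hRD hDθ
  have hiJ := H.hiJ
  have hq := H.hq
  refine stair_trunc2 (fun x : {x : Q // x ∉ D} => co (x : Q)) h2
    (fun x => H.chart.mem x (mem_loN.2 (h1 x))) h3 h4 H.hq hr H.hiJ ?_
    (fun s c hsc hc hJ => h5 s c hsc (by omega) hc hJ) (by omega) ?_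
  · rcases H.qcl with h | h
    · exact Or.inl h
    · exact Or.inr fun x => h x (h1 x)
  · intro s c hsc hc _ hE
    unfold Exc at hE
    omega

lemma sum_min_three (i : ℕ) :
    ∀ L : ℕ, ∑ k ∈ range (i + L + 3), min 3 (k - i) * 1 = 3 * L + 3 := by
  intro L
  induction L with
  | zero =>
    rw [Finset.sum_range_succ, Finset.sum_range_succ]
    have h1 : ∑ k ∈ range (i + 0 + 1), min 3 (k - i) * 1 = 0 := by
      refine Finset.sum_eq_zero fun k hk => ?_
      rw [mem_range] at hk
      omega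
    rw [h1]
    omega
  | succ L ih =>
    rw [show i + (L + 1) + 3 = (i + L + 3) + 1 by ring, Finset.sum_range_succ, ih]
    omega

/-- label at least three -/
lemma cost_three {h : Q → ℕ} {z : Q} (hz : lev z = J + 1) (hiJ : i + 3 ≤ J) (h3 : 3 ≤ h z) :
    2 * (J - i) + 3 ≤ cst i h z := by
  have h4 := cst_ge (h := h) (z := z) (i := i) (fun _ => 1) (fun k _ hk => one_le_nab hk)
  refine le_trans ?_ h4
  obtain ⟨L, hL⟩ : ∃ L, J = i + L + 1 := ⟨J - i - 1, by omega⟩
  rw [hz, hL, show i + L + 1 + 1 + 1 = i + L + 3 by ring]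
  have h5 := sum_min_three i L
  have h6 : ∑ k ∈ range (i + L + 3), min 3 (k - i) * 1 ≤
      ∑ k ∈ range (i + L + 3), min (h z) (k - i) * 1 := by
    refine Finset.sum_le_sum fun k _ => ?_
    have : min 3 (k - i) ≤ min (h z) (k - i) := min_le_min_right _ h3
    omega
  omega

/-- label at least two, two elements on the levels between -/
lemma cost_two2 {h : Q → ℕ} {z : Q} (hz : lev z = J + 1) (hiJ : i + 3 ≤ J) (h2 : 2 ≤ h z)
    (hn : ∀ k, i < k → k < J → 2 ≤ nab k z) : 2 * (J - i) + 3 ≤ cst i h z := by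
  have h4 := cst_ge (h := h) (z := z) (i := i) (fun k => if k < J then 2 else 1) (by
    intro k hk hk2
    split_ifs with hc
    · exact hn k hk hc
    · exact one_le_nab hk2)
  refine le_trans ?_ h4
  obtain ⟨L, hL⟩ : ∃ L, J = i + L + 2 := ⟨J - i - 2, by omega⟩
  rw [hz, Finset.sum_range_succ, Finset.sum_range_succ, if_neg (lt_irrefl _),
    if_neg (show ¬ J + 1 < J by omega)]
  have h5' : 2 * ∑ k ∈ range J, min 2 (k - i) * 1 ≤
      ∑ k ∈ range J, min (h z) (k - i) * (if k < J then 2 else 1) := by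
    rw [Finset.mul_sum]
    refine Finset.sum_le_sum fun k hk => ?_
    rw [mem_range] at hk
    rw [if_pos hk]
    have : min 2 (k - i) ≤ min (h z) (k - i) := min_le_min_right _ h2
    omega
  have h6 := sum_min_two i L
  rw [← hL] at h6
  rw [h6] at h5'
  have h7 : 2 ≤ min (h z) (J - i) := le_min h2 (by omega)
  have h8 : 2 ≤ min (h z) (J + 1 - i) := le_min h2 (by omega)
  omega

/-- RECTANGLES: labels at least two are expensive -/
lemma cost_label_rect (H : Tru t (fun _ => True) co i J p q) {z : Q} (hz : z ∈ bdR (hiN Q J))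
    (h2 : 2 ≤ hcan (hiN Q J) (thJ J p q co) z) :
    2 * (J - i) + 3 ≤ cst i (hcan (hiN Q J) (thJ J p q co)) z := by
  classical
  have hiJ := H.hiJ
  have hp := H.hp
  have hq := H.hq
  have hl := bd_lev' H hz
  rcases Nat.lt_or_ge (hcan (hiN Q J) (thJ J p q co) z) 3 with h3 | h3
  swap
  · exact cost_three hl hiJ h3
  obtain ⟨x, hxR, hzx, hx⟩ := hcan_spec (θ := thJ J p q co) hz
  have h0 : lev x ≤ J := by
    rw [mem_hiN] at hxR
    omega
  have hxJ : lev x = J := (bd_lev H.graded (by omega) h0 hzx).2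
  have hsc := H.chart.lev x (mem_loN.2 h0)
  rw [thJ_lo h0] at hx
  have h4 : thE p q co x = 1 := by omega
  unfold thE at h4
  have h5 : ((co x).1 = i + 1 ∧ (co x).2 ≤ i) ∨ ((co x).2 = i + 1 ∧ (co x).1 ≤ i) := by
    rcases H.pcl with h6 | h6
    · rcases H.qcl with h7 | h7
      · omega
      · have := h7 x h0
        omega
    · have := h6 x h0
      rcases H.qcl with h7 | h7
      · omega
      · have := h7 x h0
        omega
  refine cost_two2 hl hiJ h2 fun k hk hkJ => ?_
  refine le_trans ?_ (nab_mono hzx.le)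
  rcases h5 with h5 | h5
  · exact nab_two H h0 (a := k - (co x).2) (b := (co x).2) (a' := k - (co x).2 + 1)
      (b' := (co x).2 - 1) (by omega) (by omega) (by omega) (by omega) (by omega) (by omega)
      (by omega) trivial trivial
  · exact nab_two H h0 (a := (co x).1) (b := k - (co x).1) (a' := (co x).1 - 1)
      (b' := k - (co x).1 + 1) (by omega) (by omega) (by omega) (by omega) (by omega) (by omega)
      (by omega) trivial trivial

/-- STAIRCASES: labels at least two are expensive -/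
lemma cost_label_stair (H : Tru t (fun c => c.1 ≤ c.2) co i J (i + 1) q) {z : Q}
    (hz : z ∈ bdR (hiN Q J)) (h2 : 2 ≤ hS co i J q z) :
    2 * (J - i) + 3 ≤ cst i (hS co i J q) z := by
  classical
  have hiJ := H.hiJ
  have hq := H.hq
  have hl := bd_lev' H hz
  rcases Nat.lt_or_ge (hS co i J q z) 3 with h3 | h3
  swap
  · exact cost_three hl hiJ h3
  obtain ⟨x, hxR, hzx, hx⟩ := hcan_spec (θ := thJ J (i + 1) q co) hz
  have h0 : lev x ≤ J := by
    rw [mem_hiN] at hxR
    omega
  have hxJ : lev x = J := (bd_lev H.graded (by omega) h0 hzx).2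
  have hsc := H.chart.lev x (mem_loN.2 h0)
  have hge : (co x).1 ≤ (co x).2 := H.chart.mem x (mem_loN.2 h0)
  change hcan (hiN Q J) (thJ J (i + 1) q co) z < 3 at h3
  change 2 ≤ hcan (hiN Q J) (thJ J (i + 1) q co) z at h2
  rw [thJ_lo h0] at hx
  have h4 : thE (i + 1) q co x = 1 := by omega
  unfold thE at h4
  have h5 : (co x).2 = i + 1 ∧ (co x).1 ≤ i := by
    rcases H.qcl with h7 | h7
    · omega
    · have := h7 x h0
      omega
  refine cost_two2 hl hiJ h2 fun k hk hkJ => ?_
  refine le_trans ?_ (nab_mono hzx.le)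
  rcases Nat.lt_or_ge (k - (co x).1) (co x).1 with h6 | h6
  · exact nab_two H h0 (a := k / 2) (b := k - k / 2) (a' := k / 2 - 1)
      (b' := k - k / 2 + 1) (by omega) (by omega) (by omega) (by omega) (by omega) (by omega)
      (by omega) (by simp only; omega) (by simp only; omega)
  · exact nab_two H h0 (a := (co x).1) (b := k - (co x).1) (a' := (co x).1 - 1)
      (b' := k - (co x).1 + 1) (by omega) (by omega) (by omega) (by omega) (by omega) (by omega)
      (by omega) (by simp only; omega) (by simp only; omega)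

/-- no pendant below the fold end -/
def NoFold (co : Q → ℕ × ℕ) (J : ℕ) : Prop :=
  ∀ z x : Q, lev z = J + 1 → z ⋖ x → (co x).1 = (co x).2 → (co x).1 + (co x).2 = J →
    ∃ x', z ⋖ x' ∧ x' ≠ x

/-- RECTANGLES, distance at least five -/
theorem rect_clean5 (H : Tru t (fun _ => True) co i J p q) (hr : i + 2 ≤ p + q)
    (h5 : i + 5 ≤ J) {n : ℕ} (hn : n ≤ 2 * (J - i) + 2) :
    (1 + X : ℤ[X]) ^ (p + q - 1 - i) ∣ Z Q i n := by
  classical
  refine (H.farT (cln_rect2 H hr le_rfl)).dvd_of_lt (by omega) fun z hz => ?_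
  have hl := bd_lev' H hz
  rcases Nat.lt_or_ge (hcan (hiN Q J) (thJ J p q co) z) 2 with h2 | h2
  · have h1 : hcan (hiN Q J) (thJ J p q co) z = 1 := by
      obtain ⟨x, -, -, hx⟩ := hcan_spec (θ := thJ J p q co) hz
      omega
    obtain ⟨x, hzx, hxl, -, hs, hc, hsc⟩ := free_cover H hz h1
    have hp := H.hp
    have hq := H.hq
    have h3 := (cost_one (i := i) hl (by omega) h1 gR (by
      intro m hm
      refine le_trans ?_ (nab_mono hzx.le)
      unfold gR
      split_ifs with e1 e2
      · exact one_le_nab (by omega)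
      · exact nab_two H (by omega) (a := (co x).1 - 1) (b := (co x).2) (a' := (co x).1)
          (b' := (co x).2 - 1) (by omega) (by omega) (by omega) (by omega) (by omega) (by omega)
          (by omega) trivial trivial
      · exact nab_three H (by omega) (a := (co x).1 - 2) (b := (co x).2 - (m - 2)) (by omega)
          (by omega) (by omega) (by omega) trivial trivial trivial)).1
    obtain ⟨L, hL⟩ : ∃ L, J - i = L + 2 := ⟨J - i - 2, by omega⟩
    rw [hL, sum_gR] at h3
    omega
  · have := cost_label_rect H hz h2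
    omega

/-- improved bounds for a double with the fold end -/
def gU (m : ℕ) : ℕ := if m < 4 then 2 else 3

lemma sum_gU : ∀ L : ℕ, ∑ m ∈ range (L + 4), gU m = 3 * L + 8 := by
  intro L
  induction L with
  | zero => decide
  | succ L ih =>
    rw [show L + 1 + 4 = (L + 4) + 1 by ring, Finset.sum_range_succ, ih]
    unfold gU
    rw [if_neg (by omega)]
    ring

/-- two elements above a double with the fold end -/
lemma fold_double (H : Tru t (fun c => c.1 ≤ c.2) co i J (i + 1) q) {z x x' : Q}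
    (hzl : lev z = J + 1) (hzx : z ⋖ x) (hzx' : z ⋖ x') (hne : x' ≠ x)
    (hsc : (co x).1 + (co x).2 = J) (hf : (co x).1 = (co x).2) (hi : 2 ≤ (co x).1) :
    2 ≤ nab J z ∧ 2 ≤ nab (J - 1) z := by
  classical
  have hiJ := H.hiJ
  have hxl : lev x = J := by
    have := H.graded.lev_covBy hzx
    omega
  have hxl' : lev x' = J := by
    have := H.graded.lev_covBy hzx'
    omega
  refine ⟨two_le_nab hzx'.le hzx.le hxl' hxl hne, ?_⟩
  have hge' : (co x').1 ≤ (co x').2 := H.chart.mem x' (mem_loN.2 hxl'.le)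
  have hsc' := H.chart.lev x' (mem_loN.2 hxl'.le)
  have hco : (co x').1 ≠ (co x).1 := by
    intro h
    exact hne (H.chart.inj x' (mem_loN.2 hxl'.le) x (mem_loN.2 hxl.le)
      (Prod.ext h (by omega)))
  -- the element above `x`
  obtain ⟨y, hy, hcy⟩ := H.chart.low x (mem_loN.2 hxl.le) ((co x).1 - 1, (co x).2)
    ⟨Nat.sub_le _ _, le_rfl⟩ (by simp only; omega)
  have hyx : x ≤ y := (H.chart.le_iff x (mem_loN.2 hxl.le) y hy).2 (by
    rw [hcy]; exact ⟨Nat.sub_le _ _, le_rfl⟩)
  have hyl : lev y = J - 1 := by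
    have := H.chart.lev y hy
    rw [hcy] at this
    simp only at this
    omega
  -- an element above `x'`
  by_cases hc : (co x').1 + 1 = (co x).1
  · obtain ⟨y', hy', hcy'⟩ := H.chart.low x' (mem_loN.2 hxl'.le) ((co x').1 - 1, (co x').2)
      ⟨Nat.sub_le _ _, le_rfl⟩ (by simp only; omega)
    have hyx' : x' ≤ y' := (H.chart.le_iff x' (mem_loN.2 hxl'.le) y' hy').2 (by
      rw [hcy']; exact ⟨Nat.sub_le _ _, le_rfl⟩)
    have hyl' : lev y' = J - 1 := by
      have := H.chart.lev y' hy'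
      rw [hcy'] at this
      simp only at this
      omega
    refine two_le_nab (hzx'.le.trans hyx') (hzx.le.trans hyx) hyl' hyl ?_
    intro h
    have h1 := congrArg Prod.fst (congrArg co h)
    rw [hcy, hcy'] at h1
    simp only at h1
    omega
  · obtain ⟨y', hy', hcy'⟩ := H.chart.low x' (mem_loN.2 hxl'.le) ((co x').1, (co x').2 - 1)
      ⟨le_rfl, Nat.sub_le _ _⟩ (by simp only; omega)
    have hyx' : x' ≤ y' := (H.chart.le_iff x' (mem_loN.2 hxl'.le) y' hy').2 (by
      rw [hcy']; exact ⟨le_rfl, Nat.sub_le _ _⟩)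
    have hyl' : lev y' = J - 1 := by
      have := H.chart.lev y' hy'
      rw [hcy'] at this
      simp only at this
      omega
    refine two_le_nab (hzx'.le.trans hyx') (hzx.le.trans hyx) hyl' hyl ?_
    intro h
    have h1 := congrArg Prod.fst (congrArg co h)
    rw [hcy, hcy'] at h1
    simp only at h1
    omega

/-- STAIRCASES, distance at least six -/
theorem stair_clean6 (H : Tru t (fun c => c.1 ≤ c.2) co i J (i + 1) q) (hr : i + 2 ≤ 2 * q)
    (h6 : i + 6 ≤ J) (hN : NoFold co J) {n : ℕ} (hn : n ≤ 2 * (J - i) + 2) :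
    (1 + X : ℤ[X]) ^ (i / 2 + q - i) ∣ Z Q i n := by
  classical
  refine (H.farT (cln_stair2 H hr le_rfl (Or.inl h6))).dvd_of_lt (by omega) fun z hz => ?_
  have hl := bd_lev' H hz
  rcases Nat.lt_or_ge (hS co i J q z) 2 with h2 | h2
  swap
  · have h3 := cost_label_stair H hz h2
    change n < cst i (hS co i J q) z
    omega
  have h1 : hS co i J q z = 1 := by
    obtain ⟨x, -, -, hx⟩ := hcan_spec (θ := thJ J (i + 1) q co) hz
    change hcan (hiN Q J) (thJ J (i + 1) q co) z < 2 at h2
    change hcan (hiN Q J) (thJ J (i + 1) q co) z = 1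
    omega
  change n < cst i (hS co i J q) z
  obtain ⟨x, hzx, hxl, hsc, hc, h | h | h⟩ := stair_cost_one H hz h1
  · obtain ⟨L, hL⟩ : ∃ L, J - i = L + 2 := ⟨J - i - 2, by omega⟩
    rw [hL, sum_gR] at h
    omega
  · obtain ⟨L, hL⟩ : ∃ L, J - i = L + 3 := ⟨J - i - 3, by omega⟩
    rw [hL, sum_gS] at h
    omega
  · obtain ⟨x', hzx', hne⟩ := hN z x hl hzx h.1.symm hsc
    obtain ⟨n1, n2⟩ := fold_double H hl hzx hzx' hne hsc h.1.symm (by omega)
    have hq := H.hq
    have h3 := (cost_one (i := i) hl (by omega) h1 gU (by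
      intro m hm
      unfold gU
      rcases Nat.lt_or_ge m 2 with h4 | h4
      · rw [if_pos (by omega)]
        obtain rfl | rfl : m = 0 ∨ m = 1 := by omega
        · exact n1
        · exact n2
      · refine le_trans ?_ (nab_mono hzx.le)
        split_ifs with e2
        · exact nab_two H (by omega) (a := (co x).1 - m) (b := (co x).2) (a' := (co x).1 - m + 1)
            (b' := (co x).2 - 1) (by omega) (by omega) (by omega) (by omega) (by omega) (by omega)
            (by omega) (by simp only; omega) (by simp only; omega)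
        · exact nab_three H (by omega) (a := (co x).1 - m) (b := (co x).2) (by omega)
            (by omega) (by omega) (by omega) (by simp only; omega) (by simp only; omega)
            (by simp only; omega))).1
    obtain ⟨L, hL⟩ : ∃ L, J - i = L + 4 := ⟨J - i - 4, by omega⟩
    rw [hL, sum_gU] at h3
    omega

end Pool.Agent.GaussPoset.Nl

end
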