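import Mathlib
import Pool.Agent.W_448zz_h61.Ns
import Pool.Agent.W_448zz_h61.M046

/-! From `Pool.Agent.W_448t6_h94.TsA` -/

section

/-! An abstract count: slack at most one (MP_448cb3_co). -/

namespace Pool.Agent.GaussPoset.Win
namespace T6N

set_option linter.unusedSectionVars false

open Finset

universe u

section Abs

variable {P : Type u} [DecidableEq P] {c : P → Finset P} {e : P → ℕ} {V N1 N2 Sd : Finset P}

open Classical in
/-- The case of equality, labels at most one on the sites. -/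
theorem slack0 (L : Lay c V N1 N2 Sd)
    (adm : ∀ z ∈ Sd, ¬ (aF c e z ∧ aG c e z)) (hV : ∀ v ∈ V, e v ≤ 1)
    (heq : (fre c e Sd).card + ∑ x ∈ Sd, e x ≤ (V.filter (fun v => aF c e v)).card) :
    (∀ z ∈ Sd, z ∉ N1 → e z = 0) ∧ (∀ w ∈ N1, e w = 0 ∨ (e w = 1 ∧ (c w).card = 2)) := by
  rw [forced_eq L, sum_split L, fre_split L] at heq
  have h1 : (N1.biUnion (fc c e)).card ≤ ∑ w ∈ N1, (fc c e w).card := card_biUnion_le
  have h2 := Finset.sum_le_sum (fun w hw => fc_le L adm (w := w) hw)
  rw [sum_add_distrib, sum_add_distrib] at h2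
  have h3 := card_aF_le L adm
  rw [card_filter] at h3
  have h4 := Finset.sum_le_sum (c2_le (e := e) L)
  have hE3 : ∑ x ∈ (Sd \ N1) \ N2, e x = 0 := by omega
  have hf2 : ∑ x ∈ N2, (if x ∈ fre c e Sd then 1 else 0) = 0 := by omega
  have hz3 : ∀ x ∈ (Sd \ N1) \ N2, e x = 0 := by
    intro x hx
    exact (Finset.sum_eq_zero_iff.1 hE3) x hx
  have heq2 := (Finset.sum_eq_sum_iff_of_le (c2_le (e := e) L)).1 (by omega)
  have hz2 : ∀ z ∈ N2, e z = 0 := by
    intro z hz
    by_contra hne
    have h5 := heq2 z hz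
    have h6 : 2 ≤ e z := by
      by_contra h7
      rw [if_neg h7] at h5
      omega
    rw [if_pos h6] at h5
    have h7 : ((c z).filter (fun w => e w < e z)).card ≤ (c z).card := card_filter_le _ _
    have h8 := L.c2 z
    have h9 : (c z).filter (fun w => e w < e z) = c z :=
      eq_of_subset_of_card_le (filter_subset _ _) (by omega)
    have h10 := (Finset.sum_eq_zero_iff.1 hf2) z hz
    refine absurd h10 ?_
    rw [if_pos]
    · exact one_ne_zero
    unfold fre
    rw [mem_filter]
    refine ⟨L.s2 hz, ?_, ?_⟩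
    · rintro ⟨z', hz', hlt⟩
      obtain ⟨a1, a2, a3⟩ := L.n3 z hz z' hz'
      have := hz3 z' (mem_sdiff.2 ⟨mem_sdiff.2 ⟨a1, a2⟩, a3⟩)
      omega
    · rintro ⟨y, hy, hle⟩
      rw [← h9, mem_filter] at hy
      omega
  have hE2 : ∑ x ∈ N2, e x = 0 := Finset.sum_eq_zero hz2
  have hF0 : ∑ w ∈ N1, (if aF c e w then 1 else 0) = 0 := by omega
  have heq1 := (Finset.sum_eq_sum_iff_of_le (fun w hw => fc_le L adm (w := w) hw)).1 (by
    rw [sum_add_distrib, sum_add_distrib]
    omega)
  have hN1 : ∀ w ∈ N1, e w = 0 ∨ (e w = 1 ∧ (c w).card = 2) := by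
    intro w hw
    have h5 := heq1 w hw
    have h6 := (Finset.sum_eq_zero_iff.1 hF0) w hw
    rw [h6] at h5
    have hFw : ¬ aF c e w := by
      intro h
      rw [if_pos h] at h6
      exact one_ne_zero h6
    by_cases h0 : e w = 0
    · exact Or.inl h0
    right
    have h8 : (fc c e w).card ≤ (c w).card := card_filter_le _ _
    have h9 := L.c2 w
    by_cases hG : aG c e w
    · have h7 : w ∉ fre c e Sd := by
        unfold fre
        rw [mem_filter]
        rintro ⟨_, _, h⟩
        exact h hG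
      rw [if_neg h7] at h5
      obtain ⟨y, hy, hle⟩ := hG
      have h10 := hV y (L.n1 w hw hy)
      have h11 : (fc c e w).card < (c w).card := by
        refine card_lt_card ⟨filter_subset _ _, fun h => ?_⟩
        have h12 := h hy
        unfold fc at h12
        rw [mem_filter] at h12
        omega
      omega
    · have h7 : w ∈ fre c e Sd := by
        unfold fre
        rw [mem_filter]
        exact ⟨L.s1 hw, hFw, hG⟩
      rw [if_pos h7] at h5
      omega
  refine ⟨?_, hN1⟩
  intro z hz hz1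
  by_cases h : z ∈ N2
  · exact hz2 z h
  · exact hz3 z (mem_sdiff.2 ⟨mem_sdiff.2 ⟨hz, hz1⟩, h⟩)

lemma two_le_sum {s : Finset P} {t : P → ℕ} {x y : P} (hx : x ∈ s) (hy : y ∈ s) (hne : x ≠ y) :
    t x + t y ≤ ∑ z ∈ s, t z := by
  rw [← sum_pair hne]
  exact sum_le_sum_of_subset (by
    intro z hz
    rw [mem_insert, mem_singleton] at hz
    rcases hz with rfl | rfl
    · exact hx
    · exact hy)

/-- disjointness of the sets of the positive near elements -/
def Dsj (c : P → Finset P) (e : P → ℕ) (N1 : Finset P) : Prop :=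
  ∀ w ∈ N1, ∀ w' ∈ N1, w ≠ w' → 0 < e w → 0 < e w' → Disjoint (c w) (c w')

/-- all near labels are 0, or 1 on double elements -/
def Nr (c : P → Finset P) (e : P → ℕ) (N1 : Finset P) : Prop :=
  ∀ w ∈ N1, e w = 0 ∨ (e w = 1 ∧ (c w).card = 2)

open Classical in
/-- Labels zero on the sites, slack at most one. -/
theorem slack1 (L : Lay c V N1 N2 Sd)
    (L4 : ∀ z ∈ Sd, z ∉ N1 → z ∉ N2 → ∀ y ∈ c z, y ∈ Sd ∧ y ∉ N1 ∧ y ≠ z)
    (adm : ∀ z ∈ Sd, ¬ (aF c e z ∧ aG c e z)) (hV : ∀ v ∈ V, e v = 0)
    (heq : (fre c e Sd).card + ∑ x ∈ Sd, e x ≤ (V.filter (fun v => aF c e v)).card + 1) :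
    ((∀ z ∈ Sd, z ∉ N1 → e z = 0) ∧ (∀ w ∈ N1, e w ≤ 1)) ∨
    ((∀ z ∈ Sd, z ∉ N1 → e z = 0) ∧ Dsj c e N1 ∧ ∃ w0 ∈ N1, e w0 = 2 ∧ (c w0).card = 2 ∧
      ∀ w ∈ N1, w ≠ w0 → e w = 0 ∨ (e w = 1 ∧ (c w).card = 2)) ∨
    (Nr c e N1 ∧ Dsj c e N1 ∧ ∃ z0 ∈ N2, (e z0 = 1 ∨ (e z0 = 2 ∧ (c z0).card = 2)) ∧
      (∀ z ∈ Sd, z ∉ N1 → z ≠ z0 → e z = 0) ∧ ∀ w ∈ c z0, 0 < e w) := by
  rw [forced_eq L, sum_split L, fre_split L] at heq
  have h1 : (N1.biUnion (fc c e)).card ≤ ∑ w ∈ N1, (fc c e w).card := card_biUnion_le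
  have h3 := card_aF_le L adm
  rw [card_filter] at h3
  -- near slack
  set rr : P → ℕ := fun w => e w + (if w ∈ fre c e Sd then 1 else 0) + (if aF c e w then 1 else 0)
    - (fc c e w).card with hrr
  have hr : ∀ w ∈ N1, (fc c e w).card + rr w =
      e w + (if w ∈ fre c e Sd then 1 else 0) + (if aF c e w then 1 else 0) := by
    intro w hw
    have := fc_le L adm (w := w) hw
    rw [hrr]
    simp only
    omega
  have h2 : ∑ w ∈ N1, (fc c e w).card + ∑ w ∈ N1, rr w = ∑ w ∈ N1, e w +
      ∑ w ∈ N1, (if w ∈ fre c e Sd then 1 else 0) + ∑ w ∈ N1, (if aF c e w then 1 else 0) := by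
    rw [← sum_add_distrib, ← sum_add_distrib, ← sum_add_distrib]
    exact sum_congr rfl hr
  -- far slack
  set c2 : P → ℕ := fun z => (if 2 ≤ e z then ((c z).filter (fun w => e w < e z)).card else 0)
    with hc2
  have h3' : ∑ w ∈ N1, (if aF c e w then 1 else 0) ≤ ∑ z ∈ N2, c2 z := h3
  set tt : P → ℕ := fun z => e z - c2 z + (if z ∈ fre c e Sd then 1 else 0) with htt
  have ht : ∀ z ∈ N2, c2 z + tt z = e z + (if z ∈ fre c e Sd then 1 else 0) := by
    intro z hz
    have := c2_le (e := e) L z hz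
    rw [htt]
    simp only
    have h5 : c2 z ≤ e z := this
    omega
  have h4 : ∑ z ∈ N2, c2 z + ∑ z ∈ N2, tt z = ∑ z ∈ N2, e z +
      ∑ z ∈ N2, (if z ∈ fre c e Sd then 1 else 0) := by
    rw [← sum_add_distrib, ← sum_add_distrib]
    exact sum_congr rfl ht
  have hfc : ∀ w ∈ N1, 0 < e w → fc c e w = c w := by
    intro w hw h0
    unfold fc
    rw [filter_eq_self]
    intro v hv
    rw [hV v (L.n1 w hw hv)]
    exact h0
  have hG0 : ∀ w ∈ N1, 0 < e w → ¬ aG c e w := by
    rintro w hw h0 ⟨y, hy, hle⟩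
    have := hV y (L.n1 w hw hy)
    omega
  have hFfre : ∀ w ∈ N1, 0 < e w →
      (if w ∈ fre c e Sd then 1 else 0) + (if aF c e w then 1 else 0) = 1 := by
    intro w hw h0
    by_cases hF : aF c e w
    · have : w ∉ fre c e Sd := by
        unfold fre
        rw [mem_filter]
        rintro ⟨_, h, _⟩
        exact h hF
      rw [if_neg this, if_pos hF]
    · have : w ∈ fre c e Sd := by
        unfold fre
        rw [mem_filter]
        exact ⟨L.s1 hw, hF, hG0 w hw h0⟩
      rw [if_pos this, if_neg hF]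
  have hrv : ∀ w ∈ N1, 0 < e w → (c w).card + rr w = e w + 1 := by
    intro w hw h0
    have h5 := hr w hw
    have h6 := hFfre w hw h0
    rw [hfc w hw h0] at h5
    omega
  have hrtot : ∑ w ∈ N1, rr w + ∑ z ∈ N2, tt z + ∑ x ∈ (Sd \ N1) \ N2, e x ≤ 1 := by omega
  have hE3le : ∑ x ∈ (Sd \ N1) \ N2, e x ≤ 1 := by omega
  -- positive covers
  have hpos : ∀ z ∈ N2, 0 < e z → ∀ w ∈ c z, 0 < e w := by
    intro z hz h0 w hw
    by_contra h5
    have hw1 := L.n2' z hz hw
    obtain ⟨y, hy⟩ := L.ne w (L.s1 hw1)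
    exact adm w (L.s1 hw1) ⟨⟨z, hw, by omega⟩, ⟨y, hy, by omega⟩⟩
  -- a near element with label at least two has slack
  have hr2 : ∀ w ∈ N1, 2 ≤ e w → 1 ≤ rr w := by
    intro w hw h0
    have h5 := hrv w hw (by omega)
    have h6 := L.c2 w
    omega
  have hrsum : ∀ w ∈ N1, rr w ≤ ∑ w ∈ N1, rr w := fun w hw =>
    single_le_sum (f := rr) (fun _ _ => Nat.zero_le _) hw
  have htsum : ∀ z ∈ N2, tt z ≤ ∑ z ∈ N2, tt z := fun z hz =>
    single_le_sum (f := tt) (fun _ _ => Nat.zero_le _) hz
  have hesum : ∀ z ∈ (Sd \ N1) \ N2, e z ≤ ∑ x ∈ (Sd \ N1) \ N2, e x := fun z hz =>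
    single_le_sum (f := e) (fun _ _ => Nat.zero_le _) hz
  -- a far element of `N2` with positive label has slack
  have hFz : ∀ z ∈ N2, 2 ≤ e z → ¬ aF c e z := by
    rintro z hz h0 ⟨z', hz', hlt⟩
    obtain ⟨a1, a2, a3⟩ := L.n3 z hz z' hz'
    have := hesum z' (mem_sdiff.2 ⟨mem_sdiff.2 ⟨a1, a2⟩, a3⟩)
    omega
  have ht1 : ∀ z ∈ N2, 0 < e z → 1 ≤ tt z := by
    intro z hz h0
    have h5 := ht z hz
    by_cases h6 : 2 ≤ e z
    · by_cases hG : aG c e z
      · obtain ⟨w, hw, hle⟩ := hG
        have h7 : c2 z ≤ 1 := by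
          have h8 : c2 z = ((c z).filter (fun w => e w < e z)).card := by
            rw [hc2]
            simp only
            rw [if_pos h6]
          rw [h8]
          have h9 : ((c z).filter (fun w => e w < e z)).card < (c z).card := by
            refine card_lt_card ⟨filter_subset _ _, fun h => ?_⟩
            have h12 := h hw
            rw [mem_filter] at h12
            omega
          have := L.c2 z
          omega
        omega
      · have : z ∈ fre c e Sd := by
          unfold fre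
          rw [mem_filter]
          exact ⟨L.s2 hz, hFz z hz h6, hG⟩
        rw [if_pos this] at h5
        have h7 : c2 z ≤ e z := c2_le (e := e) L z hz
        omega
    · have h8 : c2 z = 0 := by
        rw [hc2]
        simp only
        rw [if_neg h6]
      omega
  by_cases hfar : ∃ z0 ∈ N2, 0 < e z0
  · obtain ⟨z0, hz0, hpos0⟩ := hfar
    right; right
    have h5 := ht1 z0 hz0 hpos0
    have h6 := htsum z0 hz0
    have hrr0 : ∑ w ∈ N1, rr w = 0 := by omega
    have hE30 : ∑ x ∈ (Sd \ N1) \ N2, e x = 0 := by omega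
    have hr0 : ∀ w ∈ N1, rr w = 0 := Finset.sum_eq_zero_iff.1 hrr0
    have he30 : ∀ x ∈ (Sd \ N1) \ N2, e x = 0 := Finset.sum_eq_zero_iff.1 hE30
    have hnr : Nr c e N1 := by
      intro w hw
      by_cases h0 : e w = 0
      · exact Or.inl h0
      · right
        have h7 := hrv w hw (by omega)
        have h8 := hr0 w hw
        have h9 := L.c2 w
        omega
    have hdsj : Dsj c e N1 := by
      intro w hw w' hw' hne h0 h0'
      rw [← hfc w hw h0, ← hfc w' hw' h0']
      exact disj_of_card_biUnion (by omega) hw hw' hne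
    refine ⟨hnr, hdsj, z0, hz0, ?_, ?_, hpos z0 hz0 hpos0⟩
    · have h7 := ht z0 hz0
      by_cases h8 : e z0 = 1
      · exact Or.inl h8
      · right
        have h9 : c2 z0 = ((c z0).filter (fun w => e w < e z0)).card := by
          rw [hc2]
          simp only
          rw [if_pos (by omega)]
        have h10 : ((c z0).filter (fun w => e w < e z0)).card ≤ (c z0).card := card_filter_le _ _
        have h11 := L.c2 z0
        have hG : ¬ aG c e z0 := by
          rintro ⟨w, hw, hle⟩
          have h12 := hr2 w (L.n2' z0 hz0 hw) (by omega)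
          have h13 := hr0 w (L.n2' z0 hz0 hw)
          omega
        have h14 : z0 ∈ fre c e Sd := by
          unfold fre
          rw [mem_filter]
          exact ⟨L.s2 hz0, hFz z0 hz0 (by omega), hG⟩
        rw [if_pos h14] at h7
        omega
    · intro z hz hz1 hne
      by_cases h : z ∈ N2
      · by_contra h7
        have h8 := ht1 z h (by omega)
        have h9 := two_le_sum (t := tt) h hz0 hne
        omega
      · exact he30 z (mem_sdiff.2 ⟨mem_sdiff.2 ⟨hz, hz1⟩, h⟩)
  · push Not at hfar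
    have hz2 : ∀ z ∈ N2, e z = 0 := fun z hz => by
      have := hfar z hz
      omega
    have hz3 : ∀ z ∈ (Sd \ N1) \ N2, e z = 0 := by
      by_contra hcon
      push Not at hcon
      obtain ⟨z', hz', hne⟩ := hcon
      have h5 := hesum z' hz'
      have h5' := hz'
      rw [mem_sdiff, mem_sdiff] at h5'
      obtain ⟨y, hy⟩ := L.ne z' h5'.1.1
      obtain ⟨h6, h6', h7⟩ := L4 z' h5'.1.1 h5'.1.2 h5'.2 y hy
      have h8 : e y = 0 := by
        by_cases h9 : y ∈ N2
        · exact hz2 y h9
        · by_contra h10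
          have h11 := two_le_sum (t := e) (mem_sdiff.2 ⟨mem_sdiff.2 ⟨h6, h6'⟩, h9⟩) hz' h7
          omega
      obtain ⟨y', hy'⟩ := L.ne y h6
      exact adm y h6 ⟨⟨z', hy, by omega⟩, ⟨y', hy', by omega⟩⟩
    have hfz : ∀ z ∈ Sd, z ∉ N1 → e z = 0 := by
      intro z hz hz1
      by_cases h : z ∈ N2
      · exact hz2 z h
      · exact hz3 z (mem_sdiff.2 ⟨mem_sdiff.2 ⟨hz, hz1⟩, h⟩)
    by_cases hall : ∀ w ∈ N1, e w ≤ 1
    · exact Or.inl ⟨hfz, hall⟩
    · right; left
      push Not at hall
      obtain ⟨w0, hw0, hlt⟩ := hall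
      have h5 := hr2 w0 hw0 (by omega)
      have h6 := hrsum w0 hw0
      have h7 := hrv w0 hw0 (by omega)
      have h8 := L.c2 w0
      refine ⟨hfz, ?_, w0, hw0, by omega, by omega, ?_⟩
      · intro w hw w' hw' hne h0 h0'
        rw [← hfc w hw h0, ← hfc w' hw' h0']
        exact disj_of_card_biUnion (by omega) hw hw' hne
      · intro w hw hne
        by_cases h0 : e w = 0
        · exact Or.inl h0
        · right
          have h9 := hrv w hw (by omega)
          have h10 := two_le_sum (t := rr) hw hw0 hne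
          have h11 := L.c2 w
          omega

end Abs

end T6N
end Pool.Agent.GaussPoset.Win

end

/-! From `Pool.Agent.W_448t6_h94.TsB` -/

section

/-! Configurations with slack at most one (MP_448cb3_co). -/

namespace Pool.Agent.GaussPoset.Win
namespace T6N

set_option linter.unusedSectionVars false

open Finset

universe u

variable {P : Type u} [Fintype P] [PartialOrder P] [DecidableEq P] {r : ℕ}

lemma lay4_L (H : Gr P r) (i : ℕ) : ∀ z ∈ sdL P i, z ∉ lv P (i + 1) → z ∉ lv P (i + 2) →
    ∀ y ∈ uc z, y ∈ sdL P i ∧ y ∉ lv P (i + 1) ∧ y ≠ z := by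
  intro z hz h1 h2 y hy
  rw [mem_sdL] at hz ⊢
  rw [mem_lv] at h1 h2 ⊢
  have h3 := lev_uc H hy
  refine ⟨by omega, by omega, ?_⟩
  rintro rfl
  omega

lemma lay4_U (H : Gr P r) (i : ℕ) : ∀ z ∈ sdU P i, z ∉ lU P i 1 → z ∉ lU P i 2 →
    ∀ y ∈ dc z, y ∈ sdU P i ∧ y ∉ lU P i 1 ∧ y ≠ z := by
  intro z hz h1 h2 y hy
  rw [mem_sdU] at hz ⊢
  rw [mem_lU] at h1 h2 ⊢
  have h3 := lev_dc H hy
  refine ⟨by omega, by omega, ?_⟩
  rintro rfl
  omega

lemma ns_sub_AL (H : Gr P r) {i : ℕ} {e : P → ℕ} (hV : ∀ v ∈ lv P i, e v = 0) {x : P}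
    (hx : x ∈ dbL P i) (h0 : 0 < e x) : ns i x ⊆ AL i e := by
  classical
  rw [ns_L hx]
  intro v hv
  rw [mem_dbL] at hx
  have h7 := lev_uc H hv
  unfold AL
  rw [mem_filter, mem_lv]
  refine ⟨by omega, x, mem_uc.1 hv, ?_⟩
  rw [hV v (mem_lv.2 (by omega))]
  exact h0

lemma ns_sub_AU (H : Gr P r) {i : ℕ} {e : P → ℕ} (hV : ∀ v ∈ lv P i, e v = 0) {x : P}
    (hx : x ∈ dbU P i) (h0 : 0 < e x) : ns i x ⊆ AU i e := by
  classical
  rw [ns_U hx]
  intro v hv
  rw [mem_dbU] at hx
  have h7 := lev_dc H hv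
  unfold AU
  rw [mem_filter, mem_lv]
  refine ⟨by omega, x, mem_dc.1 hv, ?_⟩
  rw [hV v (mem_lv.2 (by omega))]
  exact h0

lemma mkDj (H : Gr P r) {i : ℕ} {e : P → ℕ} (hV : ∀ v ∈ lv P i, e v = 0)
    (hD : Disjoint (AL i e) (AU i e)) (dL : Dsj uc e (lv P (i + 1))) (dU : Dsj dc e (lU P i 1))
    {F : Finset P} (hF : F ⊆ dbL P i ∪ dbU P i) (hp : ∀ x ∈ F, 0 < e x) : Dj i F := by
  refine ⟨hF, ?_⟩
  intro x hx y hy hne
  rcases mem_union.1 (hF hx) with hx0 | hx0 <;> rcases mem_union.1 (hF hy) with hy0 | hy0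
  · rw [ns_L hx0, ns_L hy0]
    exact dL x (mem_lv.2 (mem_dbL.1 hx0).1) y (mem_lv.2 (mem_dbL.1 hy0).1) hne (hp x hx) (hp y hy)
  · exact disjoint_of_subset_left (ns_sub_AL H hV hx0 (hp x hx))
      (disjoint_of_subset_right (ns_sub_AU H hV hy0 (hp y hy)) hD)
  · exact (disjoint_of_subset_left (ns_sub_AL H hV hy0 (hp y hy))
      (disjoint_of_subset_right (ns_sub_AU H hV hx0 (hp x hx)) hD)).symm
  · rw [ns_U hx0, ns_U hy0]
    exact dU x (mem_lU.2 (mem_dbU.1 hx0).1) y (mem_lU.2 (mem_dbU.1 hy0).1) hne (hp x hx) (hp y hy)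

/-- a configuration with labels at most one is an indicator -/
lemma eq_ind {e : P → ℕ} (h : ∀ x, e x ≤ 1) : e = indK (univ.filter (fun x => 0 < e x)) := by
  funext x
  have h1 := h x
  by_cases h0 : 0 < e x
  · have hm : x ∈ univ.filter (fun x => 0 < e x) := mem_filter.2 ⟨mem_univ _, h0⟩
    rw [indK_of_mem hm]
    omega
  · have hm : x ∉ univ.filter (fun x => 0 < e x) := by
      rw [mem_filter]
      rintro ⟨_, h2⟩
      exact h0 h2
    rw [indK_of_not hm]
    omega

lemma sg_self (a : P) : sg a a = 1 := by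
  unfold sg
  exact Pi.single_eq_same a 1

lemma sg_ne {a x : P} (h : x ≠ a) : sg a x = 0 := by
  unfold sg
  exact Pi.single_eq_of_ne h 1

/-- a configuration with label two at `w` and labels at most one elsewhere -/
lemma eq_ind_sg {e : P → ℕ} {w : P} (hw : e w = 2) (h : ∀ x, x ≠ w → e x ≤ 1) :
    e = indK (univ.filter (fun x => 0 < e x)) + sg w := by
  funext x
  rw [Pi.add_apply]
  by_cases hx : x = w
  · subst hx
    have hm : x ∈ univ.filter (fun x => 0 < e x) := mem_filter.2 ⟨mem_univ _, by omega⟩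
    rw [indK_of_mem hm, sg_self, hw]
  · have h1 := h x hx
    rw [sg_ne hx]
    by_cases h0 : 0 < e x
    · have hm : x ∈ univ.filter (fun x => 0 < e x) := mem_filter.2 ⟨mem_univ _, h0⟩
      rw [indK_of_mem hm]
      omega
    · have hm : x ∉ univ.filter (fun x => 0 < e x) := by
        rw [mem_filter]
        rintro ⟨_, h2⟩
        exact h0 h2
      rw [indK_of_not hm]
      omega

/-- the types of configurations with slack at most one -/
def T1 (i : ℕ) (e : P → ℕ) : Prop := ∃ G, G ⊆ near P i ∧ e = indK G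
def T2 (i : ℕ) (e : P → ℕ) : Prop := ∃ F w, Dj i F ∧ w ∈ F ∧ e = indK F + sg w
def T3 (i : ℕ) (e : P → ℕ) : Prop := ∃ v G, v ∈ lv P i ∧ G ⊆ dbL P i ∪ dbU P i ∧
  e = indK (insert v G)
def T4 (i : ℕ) (e : P → ℕ) : Prop := ∃ z F, lev z = i + 2 ∧ uc z ⊆ F ∧ Dj i F ∧
  e = indK (insert z F)
def T5 (i : ℕ) (e : P → ℕ) : Prop := ∃ z F, lev z = i + 2 ∧ (uc z).card = 2 ∧ uc z ⊆ F ∧
  Dj i F ∧ e = indK (insert z F) + sg z
def T6 (i : ℕ) (e : P → ℕ) : Prop := ∃ x F, lev x + 2 = i ∧ (dc x).card = 1 ∧ dc x ⊆ F ∧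
  Dj i F ∧ e = indK (insert x F)

theorem cls1 (H : Gr P r) {i : ℕ} (hi : i ≤ r) (h3 : ∀ x : P, lev x + 2 = i → dn i x ≤ 3)
    {e : P → ℕ} (hA : AdmL i e) (hB : AdmU i e) (hD : Disjoint (AL i e) (AU i e))
    (h : pL i e + pU i e + ∑ x, e x ≤ (AL i e).card + (AU i e).card + 1) :
    T1 i e ∨ T2 i e ∨ T3 i e ∨ T4 i e ∨ T5 i e ∨ T6 i e := by
  classical
  have h1 := card_AL_le H hA
  have h2 := card_AU_le H hi hB
  have hs := kk_sum_parts i e
  have afL : (AL i e).card = ((lv P i).filter (fun v => aF uc e v)).card := by rw [AL_af]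
  have afU : (AU i e).card = ((lv P i).filter (fun v => aF dc e v)).card := by rw [AU_af]
  have lev_near : ∀ x : P, (i < lev x → x ∉ lv P (i + 1) → i + 2 ≤ lev x) := by
    intro x hx hx1
    rw [mem_lv] at hx1
    omega
  rcases Nat.eq_zero_or_pos (∑ z ∈ lv P i, e z) with hV0 | hV0
  · -- sites zero
    have hV : ∀ v ∈ lv P i, e v = 0 := Finset.sum_eq_zero_iff.1 hV0
    by_cases hU : pU i e + ∑ z ∈ sdU P i, e z ≤ (AU i e).card
    · -- upper slack zero
      obtain ⟨u1, u2, u3⟩ := forced_eq_case (lay_U H hi) (adm_U hB) hV (by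
        rw [pU_fre, afU] at hU
        exact hU)
      have hL : pL i e + ∑ z ∈ sdL P i, e z ≤ (AL i e).card + 1 := by omega
      have hU2 : ∀ x, lev x < i → e x = 0 ∨ (e x = 1 ∧ x ∈ dbU P i) := by
        intro x hx
        by_cases hx1 : x ∈ lU P i 1
        · rcases u2 x hx1 with h5 | h5
          · exact Or.inl h5
          · exact Or.inr ⟨h5.1, mem_dbU.2 ⟨mem_lU.1 hx1, h5.2⟩⟩
        · exact Or.inl (u1 x (mem_sdU.2 hx) hx1)
      rcases slack1 (lay_L H i) (lay4_L H i) (adm_L hA) hV (by
          rw [pL_fre, afL] at hL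
          exact hL) with ⟨l1, l2⟩ | ⟨l1, l2, w0, hw0, hw2, hwc, l3⟩ |
          ⟨l1, l2, z0, hz0, hz1, l3, l4⟩
      · left
        refine ⟨univ.filter (fun x => 0 < e x), ?_, eq_ind ?_⟩
        · intro x hx
          rw [mem_filter] at hx
          rw [mem_near]
          rcases Nat.lt_trichotomy (lev x) i with h4 | h4 | h4
          · rcases hU2 x h4 with h5 | h5
            · omega
            · exact Or.inr (mem_dbU.1 h5.2).1
          · have := hV x (mem_lv.2 h4)
            omega
          · left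
            by_contra h5
            have := l1 x (mem_sdL.2 h4) (fun h6 => h5 (mem_lv.1 h6))
            omega
        · intro x
          rcases Nat.lt_trichotomy (lev x) i with h4 | h4 | h4
          · rcases hU2 x h4 with h5 | h5 <;> omega
          · have := hV x (mem_lv.2 h4)
            omega
          · by_cases h6 : x ∈ lv P (i + 1)
            · exact l2 x h6
            · have := l1 x (mem_sdL.2 h4) h6
              omega
      · right; left
        have hne : ∀ x, x ≠ w0 → e x = 0 ∨ (e x = 1 ∧ x ∈ dbL P i ∪ dbU P i) := by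
          intro x hx
          rcases Nat.lt_trichotomy (lev x) i with h4 | h4 | h4
          · rcases hU2 x h4 with h5 | h5
            · exact Or.inl h5
            · exact Or.inr ⟨h5.1, mem_union_right _ h5.2⟩
          · exact Or.inl (hV x (mem_lv.2 h4))
          · by_cases h6 : x ∈ lv P (i + 1)
            · rcases l3 x h6 hx with h5 | h5
              · exact Or.inl h5
              · exact Or.inr ⟨h5.1, mem_union_left _ (mem_dbL.2 ⟨mem_lv.1 h6, h5.2⟩)⟩
            · exact Or.inl (l1 x (mem_sdL.2 h4) h6)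
        refine ⟨univ.filter (fun x => 0 < e x), w0, ?_, mem_filter.2 ⟨mem_univ _, by omega⟩,
          eq_ind_sg hw2 (fun x hx => by rcases hne x hx with h5 | h5 <;> omega)⟩
        refine mkDj H hV hD l2 u3 ?_ (fun x hx => (mem_filter.1 hx).2)
        intro x hx
        rw [mem_filter] at hx
        by_cases h5 : x = w0
        · subst h5
          exact mem_union_left _ (mem_dbL.2 ⟨mem_lv.1 hw0, hwc⟩)
        · rcases hne x h5 with h6 | h6
          · omega
          · exact h6.2
      · have hne : ∀ x, x ≠ z0 → e x = 0 ∨ (e x = 1 ∧ x ∈ dbL P i ∪ dbU P i) := by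
          intro x hx
          rcases Nat.lt_trichotomy (lev x) i with h4 | h4 | h4
          · rcases hU2 x h4 with h5 | h5
            · exact Or.inl h5
            · exact Or.inr ⟨h5.1, mem_union_right _ h5.2⟩
          · exact Or.inl (hV x (mem_lv.2 h4))
          · by_cases h6 : x ∈ lv P (i + 1)
            · rcases l1 x h6 with h5 | h5
              · exact Or.inl h5
              · exact Or.inr ⟨h5.1, mem_union_left _ (mem_dbL.2 ⟨mem_lv.1 h6, h5.2⟩)⟩
            · exact Or.inl (l3 x (mem_sdL.2 h4) h6 hx)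
        have hF : (univ.filter (fun x => 0 < e x)).erase z0 ⊆ dbL P i ∪ dbU P i := by
          intro x hx
          rw [mem_erase, mem_filter] at hx
          rcases hne x hx.1 with h6 | h6
          · omega
          · exact h6.2
        have hDj : Dj i ((univ.filter (fun x => 0 < e x)).erase z0) :=
          mkDj H hV hD l2 u3 hF (fun x hx => (mem_filter.1 (mem_erase.1 hx).2).2)
        have hzm : z0 ∈ univ.filter (fun x => 0 < e x) := mem_filter.2 ⟨mem_univ _, by omega⟩
        have hsub : uc z0 ⊆ (univ.filter (fun x => 0 < e x)).erase z0 := by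
          intro y hy
          rw [mem_erase, mem_filter]
          refine ⟨?_, mem_univ _, l4 y hy⟩
          rintro rfl
          have := lev_uc H hy
          omega
        have hins : insert z0 ((univ.filter (fun x => 0 < e x)).erase z0) =
            univ.filter (fun x => 0 < e x) := insert_erase hzm
        rw [mem_lv] at hz0
        rcases hz1 with hz1 | hz1
        · right; right; right; left
          refine ⟨z0, _, hz0, hsub, hDj, ?_⟩
          rw [hins]
          refine eq_ind (fun x => ?_)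
          by_cases h5 : x = z0
          · subst h5
            omega
          · rcases hne x h5 with h6 | h6 <;> omega
        · right; right; right; right; left
          refine ⟨z0, _, hz0, hz1.2, hsub, hDj, ?_⟩
          rw [hins]
          exact eq_ind_sg hz1.1 (fun x hx => by rcases hne x hx with h5 | h5 <;> omega)
    · -- upper slack one
      have hU1 : pU i e + ∑ z ∈ sdU P i, e z ≤ (AU i e).card + 1 := by omega
      have hL0 : pL i e + ∑ z ∈ sdL P i, e z ≤ (AL i e).card := by omega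
      obtain ⟨l1, l2, l3⟩ := forced_eq_case (lay_L H i) (adm_L hA) hV (by
        rw [pL_fre, afL] at hL0
        exact hL0)
      have hL2 : ∀ x, i < lev x → e x = 0 ∨ (e x = 1 ∧ x ∈ dbL P i) := by
        intro x hx
        by_cases hx1 : x ∈ lv P (i + 1)
        · rcases l2 x hx1 with h5 | h5
          · exact Or.inl h5
          · exact Or.inr ⟨h5.1, mem_dbL.2 ⟨mem_lv.1 hx1, h5.2⟩⟩
        · exact Or.inl (l1 x (mem_sdL.2 hx) hx1)
      rcases slack1 (lay_U H hi) (lay4_U H i) (adm_U hB) hV (by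
          rw [pU_fre, afU] at hU1
          exact hU1) with ⟨u1, u2⟩ | ⟨u1, u2, w0, hw0, hw2, hwc, u3⟩ |
          ⟨u1, u2, z0, hz0, hz1, u3, u4⟩
      · left
        refine ⟨univ.filter (fun x => 0 < e x), ?_, eq_ind ?_⟩
        · intro x hx
          rw [mem_filter] at hx
          rw [mem_near]
          rcases Nat.lt_trichotomy (lev x) i with h4 | h4 | h4
          · right
            by_contra h5
            have := u1 x (mem_sdU.2 h4) (fun h6 => h5 (mem_lU.1 h6))
            omega
          · have := hV x (mem_lv.2 h4)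
            omega
          · rcases hL2 x h4 with h5 | h5
            · omega
            · exact Or.inl (mem_dbL.1 h5.2).1
        · intro x
          rcases Nat.lt_trichotomy (lev x) i with h4 | h4 | h4
          · by_cases h6 : x ∈ lU P i 1
            · exact u2 x h6
            · have := u1 x (mem_sdU.2 h4) h6
              omega
          · have := hV x (mem_lv.2 h4)
            omega
          · rcases hL2 x h4 with h5 | h5 <;> omega
      · right; left
        have hne : ∀ x, x ≠ w0 → e x = 0 ∨ (e x = 1 ∧ x ∈ dbL P i ∪ dbU P i) := by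
          intro x hx
          rcases Nat.lt_trichotomy (lev x) i with h4 | h4 | h4
          · by_cases h6 : x ∈ lU P i 1
            · rcases u3 x h6 hx with h5 | h5
              · exact Or.inl h5
              · exact Or.inr ⟨h5.1, mem_union_right _ (mem_dbU.2 ⟨mem_lU.1 h6, h5.2⟩)⟩
            · exact Or.inl (u1 x (mem_sdU.2 h4) h6)
          · exact Or.inl (hV x (mem_lv.2 h4))
          · rcases hL2 x h4 with h5 | h5
            · exact Or.inl h5
            · exact Or.inr ⟨h5.1, mem_union_left _ h5.2⟩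
        refine ⟨univ.filter (fun x => 0 < e x), w0, ?_, mem_filter.2 ⟨mem_univ _, by omega⟩,
          eq_ind_sg hw2 (fun x hx => by rcases hne x hx with h5 | h5 <;> omega)⟩
        refine mkDj H hV hD l3 u2 ?_ (fun x hx => (mem_filter.1 hx).2)
        intro x hx
        rw [mem_filter] at hx
        by_cases h5 : x = w0
        · subst h5
          exact mem_union_right _ (mem_dbU.2 ⟨mem_lU.1 hw0, hwc⟩)
        · rcases hne x h5 with h6 | h6
          · omega
          · exact h6.2
      · have hne : ∀ x, x ≠ z0 → e x = 0 ∨ (e x = 1 ∧ x ∈ dbL P i ∪ dbU P i) := by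
          intro x hx
          rcases Nat.lt_trichotomy (lev x) i with h4 | h4 | h4
          · by_cases h6 : x ∈ lU P i 1
            · rcases u1 x h6 with h5 | h5
              · exact Or.inl h5
              · exact Or.inr ⟨h5.1, mem_union_right _ (mem_dbU.2 ⟨mem_lU.1 h6, h5.2⟩)⟩
            · exact Or.inl (u3 x (mem_sdU.2 h4) h6 hx)
          · exact Or.inl (hV x (mem_lv.2 h4))
          · rcases hL2 x h4 with h5 | h5
            · exact Or.inl h5
            · exact Or.inr ⟨h5.1, mem_union_left _ h5.2⟩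
        have hF : (univ.filter (fun x => 0 < e x)).erase z0 ⊆ dbL P i ∪ dbU P i := by
          intro x hx
          rw [mem_erase, mem_filter] at hx
          rcases hne x hx.1 with h6 | h6
          · omega
          · exact h6.2
        have hDj : Dj i ((univ.filter (fun x => 0 < e x)).erase z0) :=
          mkDj H hV hD l3 u2 hF (fun x hx => (mem_filter.1 (mem_erase.1 hx).2).2)
        have hzm : z0 ∈ univ.filter (fun x => 0 < e x) := mem_filter.2 ⟨mem_univ _, by omega⟩
        have hsub : dc z0 ⊆ (univ.filter (fun x => 0 < e x)).erase z0 := by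
          intro y hy
          rw [mem_erase, mem_filter]
          refine ⟨?_, mem_univ _, u4 y hy⟩
          rintro rfl
          have := lev_dc H hy
          omega
        have hins : insert z0 ((univ.filter (fun x => 0 < e x)).erase z0) =
            univ.filter (fun x => 0 < e x) := insert_erase hzm
        rw [mem_lU] at hz0
        have hcard : (dc z0).card = 1 := by
          have h5 : (dc z0).Nonempty := dc_nonempty H (by omega)
          have h6 := dc_card_le H z0
          have h7 := Finset.card_pos.2 h5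
          by_contra h8
          have h9 : (dc z0).card = 2 := by omega
          obtain ⟨a, b, hab, hab2⟩ := card_eq_two.1 h9
          have ha : a ∈ dc z0 := by rw [hab2]; simp
          have hb : b ∈ dc z0 := by rw [hab2]; simp
          have h10 := hDj.2 a (hsub ha) b (hsub hb) hab
          have h11 : ns i a ∪ ns i b ⊆ stD i z0 := by
            intro v hv
            rw [mem_stD_iff H hz0]
            have la := lev_dc H ha
            have lb := lev_dc H hb
            have ha2 : a ∈ dbU P i := by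
              rcases mem_union.1 (hF (hsub ha)) with h12 | h12
              · have := (mem_dbL.1 h12).1
                omega
              · exact h12
            have hb2 : b ∈ dbU P i := by
              rcases mem_union.1 (hF (hsub hb)) with h12 | h12
              · have := (mem_dbL.1 h12).1
                omega
              · exact h12
            rw [ns_U ha2, ns_U hb2] at hv
            rcases mem_union.1 hv with h12 | h12
            · exact ⟨a, ha, h12⟩
            · exact ⟨b, hb, h12⟩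
          have h12 := card_le_card h11
          rw [card_union_of_disjoint h10, ns_card (hF (hsub ha)), ns_card (hF (hsub hb)),
            card_stD] at h12
          have := h3 z0 hz0
          omega
        right; right; right; right; right
        have he1 : e z0 = 1 := by omega
        refine ⟨z0, _, hz0, hcard, hsub, hDj, ?_⟩
        rw [hins]
        refine eq_ind (fun x => ?_)
        by_cases h5 : x = z0
        · subst h5
          omega
        · rcases hne x h5 with h6 | h6 <;> omega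
  · -- one site raised
    have hV1 : ∀ v ∈ lv P i, e v ≤ 1 := by
      intro v hv
      have := single_le_sum (f := e) (fun _ _ => Nat.zero_le _) hv
      omega
    obtain ⟨l1, l2⟩ := slack0 (lay_L H i) (adm_L hA) hV1 (by
      have : pL i e + ∑ z ∈ sdL P i, e z ≤ (AL i e).card := by omega
      rw [pL_fre, afL] at this
      exact this)
    obtain ⟨u1, u2⟩ := slack0 (lay_U H hi) (adm_U hB) hV1 (by
      have : pU i e + ∑ z ∈ sdU P i, e z ≤ (AU i e).card := by omega
      rw [pU_fre, afU] at this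
      exact this)
    obtain ⟨v0, hv0, hne0⟩ : ∃ v ∈ lv P i, e v ≠ 0 := by
      by_contra hcon
      push Not at hcon
      rw [Finset.sum_eq_zero hcon] at hV0
      omega
    have hv1 := hV1 v0 hv0
    have hne : ∀ x, x ≠ v0 → e x = 0 ∨ (e x = 1 ∧ x ∈ dbL P i ∪ dbU P i) := by
      intro x hx
      rcases Nat.lt_trichotomy (lev x) i with h4 | h4 | h4
      · by_cases h6 : x ∈ lU P i 1
        · rcases u2 x h6 with h5 | h5
          · exact Or.inl h5
          · exact Or.inr ⟨h5.1, mem_union_right _ (mem_dbU.2 ⟨mem_lU.1 h6, h5.2⟩)⟩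
        · exact Or.inl (u1 x (mem_sdU.2 h4) h6)
      · left
        by_contra h5
        have h6 := two_le_sum (t := e) (mem_lv.2 h4) hv0 hx
        omega
      · by_cases h6 : x ∈ lv P (i + 1)
        · rcases l2 x h6 with h5 | h5
          · exact Or.inl h5
          · exact Or.inr ⟨h5.1, mem_union_left _ (mem_dbL.2 ⟨mem_lv.1 h6, h5.2⟩)⟩
        · exact Or.inl (l1 x (mem_sdL.2 h4) h6)
    right; right; left
    refine ⟨v0, (univ.filter (fun x => 0 < e x)).erase v0, hv0, ?_, ?_⟩
    · intro x hx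
      rw [mem_erase, mem_filter] at hx
      rcases hne x hx.1 with h6 | h6
      · omega
      · exact h6.2
    · rw [insert_erase (mem_filter.2 ⟨mem_univ _, by omega⟩)]
      refine eq_ind (fun x => ?_)
      by_cases h5 : x = v0
      · subst h5
        exact hv1
      · rcases hne x h5 with h6 | h6 <;> omega

end T6N
end Pool.Agent.GaussPoset.Win

end

/-! From `Pool.Agent.W_448t6_h94.TsE` -/

section

/-! Coefficients of the configurations with slack at most one, far elements (MP_448cb3_co). -/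

namespace Pool.Agent.GaussPoset.Win
namespace T6N

set_option linter.unusedSectionVars false

open Finset

universe u

variable {P : Type u} [Fintype P] [PartialOrder P] [DecidableEq P] {r : ℕ}

lemma trm_congr {i : ℕ} {e e' : P → ℕ} (h1 : ∀ z, i ≤ lev z → (FD e z ↔ FD e' z))
    (h2 : ∀ z, i < lev z → (GU e z ↔ GU e' z)) (h3 : ∀ z, lev z ≤ i → (FU e z ↔ FU e' z))
    (h4 : ∀ z, lev z < i → (GD e z ↔ GD e' z)) : trm i e = trm i e' := by
  classical
  have hAL : AL i e = AL i e' := by
    unfold AL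
    ext v
    rw [mem_filter, mem_filter, mem_lv]
    constructor
    · rintro ⟨a, b⟩
      exact ⟨a, (h1 v a.ge).1 b⟩
    · rintro ⟨a, b⟩
      exact ⟨a, (h1 v a.ge).2 b⟩
  have hAU : AU i e = AU i e' := by
    unfold AU
    ext v
    rw [mem_filter, mem_filter, mem_lv]
    constructor
    · rintro ⟨a, b⟩
      exact ⟨a, (h3 v a.le).1 b⟩
    · rintro ⟨a, b⟩
      exact ⟨a, (h3 v a.le).2 b⟩
  have haL : aL i e = aL i e' := by
    unfold aL
    congr 1
    ext z
    rw [mem_filter, mem_filter]
    constructor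
    · rintro ⟨a, b, c⟩
      exact ⟨a, b, (h1 z b.le).1 c⟩
    · rintro ⟨a, b, c⟩
      exact ⟨a, b, (h1 z b.le).2 c⟩
  have haU : aU i e = aU i e' := by
    unfold aU
    congr 1
    ext z
    rw [mem_filter, mem_filter]
    constructor
    · rintro ⟨a, b, c⟩
      exact ⟨a, b, (h3 z b.le).1 c⟩
    · rintro ⟨a, b, c⟩
      exact ⟨a, b, (h3 z b.le).2 c⟩
  have hpL : pL i e = pL i e' := by
    unfold pL
    congr 1
    ext z
    rw [mem_filter, mem_filter]
    constructor
    · rintro ⟨a, b, c, d⟩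
      exact ⟨a, b, fun x => c ((h1 z b.le).2 x), fun x => d ((h2 z b).2 x)⟩
    · rintro ⟨a, b, c, d⟩
      exact ⟨a, b, fun x => c ((h1 z b.le).1 x), fun x => d ((h2 z b).1 x)⟩
  have hpU : pU i e = pU i e' := by
    unfold pU
    congr 1
    ext z
    rw [mem_filter, mem_filter]
    constructor
    · rintro ⟨a, b, c, d⟩
      exact ⟨a, b, fun x => c ((h3 z b.le).2 x), fun x => d ((h4 z b).2 x)⟩
    · rintro ⟨a, b, c, d⟩
      exact ⟨a, b, fun x => c ((h3 z b.le).1 x), fun x => d ((h4 z b).1 x)⟩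
  have hA : AdmL i e ↔ AdmL i e' := by
    unfold AdmL
    refine forall_congr' fun z => ?_
    refine forall_congr' fun hz => ?_
    rw [h1 z hz.le, h2 z hz]
  have hB : AdmU i e ↔ AdmU i e' := by
    unfold AdmU
    refine forall_congr' fun z => ?_
    refine forall_congr' fun hz => ?_
    rw [h3 z hz.le, h4 z hz]
  unfold trm cw
  rw [hAL, hAU, haL, haU, hpL, hpU]
  simp only [hA, hB]

section far

variable {i : ℕ} {F : Finset P}

/-- label two on a near element of the family -/
lemma trm_F2 (H : Gr P r) (hi : i ≤ r) (h : Dj i F) {w : P} (hw : w ∈ F) :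
    trm i (indK F + sg w) = trm i (indK F) := by
  have hw1 := Dj_lev h hw
  have hpos : ∀ x, 0 < (indK F + sg w) x ↔ x ∈ F := by
    intro x
    rw [Pi.add_apply]
    by_cases hx : x = w
    · subst hx
      rw [sg_self]
      constructor
      · exact fun _ => hw
      · intro _
        omega
    · rw [sg_ne hx, add_zero, indK_pos]
  have hz : ∀ x, x ∉ F → (indK F + sg w) x = 0 := by
    intro x hx
    by_contra h1
    exact hx ((hpos x).1 (Nat.pos_of_ne_zero h1))
  refine trm_congr ?_ ?_ ?_ ?_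
  · intro z hzl
    constructor
    · rintro ⟨z', hz', hlt⟩
      have h1 := (H.covBy_iff.1 hz').2
      have h2 : z' ∈ F := (hpos z').1 (by omega)
      have h3 := Dj_lev h h2
      refine ⟨z', hz', ?_⟩
      rw [indK_of_mem h2, Dj_site h (x := z) (by omega)]
      exact one_pos
    · rintro ⟨z', hz', hlt⟩
      have h1 := (H.covBy_iff.1 hz').2
      have h2 : z' ∈ F := indK_pos.1 (by omega)
      have h3 := Dj_lev h h2
      refine ⟨z', hz', ?_⟩
      have h4 : z ∉ F := fun h5 => by
        have := Dj_lev h h5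
        omega
      rw [hz z h4]
      exact (hpos z').2 h2
  · intro z hzl
    rw [Dj_GU H h hzl]
    constructor
    · rintro ⟨y, hy, hle⟩ hzF
      have h1 := (H.covBy_iff.1 hy).2
      have h2 := Dj_lev h hzF
      have h3 : y ∉ F := fun h5 => by
        have := Dj_lev h h5
        omega
      rw [hz y h3] at hle
      have := (hpos z).2 hzF
      omega
    · intro hzF
      obtain ⟨y, hy⟩ := uc_nonempty H (x := z) (by omega)
      refine ⟨y, mem_uc.1 hy, ?_⟩
      rw [hz z hzF]
      exact Nat.zero_le _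
  · intro z hzl
    constructor
    · rintro ⟨z', hz', hlt⟩
      have h1 := (H.covBy_iff.1 hz').2
      have h2 : z' ∈ F := (hpos z').1 (by omega)
      have h3 := Dj_lev h h2
      refine ⟨z', hz', ?_⟩
      rw [indK_of_mem h2, Dj_site h (x := z) (by omega)]
      exact one_pos
    · rintro ⟨z', hz', hlt⟩
      have h1 := (H.covBy_iff.1 hz').2
      have h2 : z' ∈ F := indK_pos.1 (by omega)
      have h3 := Dj_lev h h2
      refine ⟨z', hz', ?_⟩
      have h4 : z ∉ F := fun h5 => by
        have := Dj_lev h h5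
        omega
      rw [hz z h4]
      exact (hpos z').2 h2
  · intro z hzl
    rw [Dj_GD H hi h hzl]
    constructor
    · rintro ⟨y, hy, hle⟩ hzF
      have h1 := (H.covBy_iff.1 hy).2
      have h2 := Dj_lev h hzF
      have h3 : y ∉ F := fun h5 => by
        have := Dj_lev h h5
        omega
      rw [hz y h3] at hle
      have := (hpos z).2 hzF
      omega
    · intro hzF
      obtain ⟨y, hy⟩ := dc_nonempty H (x := z) (by omega)
      refine ⟨y, mem_dc.1 hy, ?_⟩
      rw [hz z hzF]
      exact Nat.zero_le _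

lemma ind_ins_ne {z x : P} (hx : x ≠ z) : indK (insert z F) x = indK F x := by
  by_cases h : x ∈ F
  · rw [indK_of_mem h, indK_of_mem (mem_insert_of_mem h)]
  · rw [indK_of_not h, indK_of_not]
    rw [mem_insert]
    rintro (h1 | h1)
    · exact hx h1
    · exact h h1

/-- a far lower element with label one -/
lemma trm_F4 (H : Gr P r) (h : Dj i F) {z : P} (hz : lev z = i + 2)
    (hzF : uc z ⊆ F) : trm i (indK (insert z F)) = trm i (indK F) := by
  have hzn : z ∉ F := fun h1 => by
    have := Dj_lev h h1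
    omega
  have hz1 : indK (insert z F) z = 1 := indK_of_mem (mem_insert_self _ _)
  have hlev : ∀ x, lev x ≠ i + 2 → x ≠ z := by
    rintro x hx rfl
    exact hx hz
  refine trm_congr ?_ ?_ ?_ ?_
  · intro y hy
    constructor
    · rintro ⟨z', hz', hlt⟩
      have h1 := (H.covBy_iff.1 hz').2
      have hne : z' ≠ z := by
        rintro rfl
        rw [indK_of_mem (mem_insert_of_mem (hzF (mem_uc.2 hz')))] at hlt
        have := indK_le (insert z' F) z'
        omega
      rw [ind_ins_ne hne] at hlt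
      refine ⟨z', hz', ?_⟩
      by_cases hyz : y = z
      · subst hyz
        rw [indK_of_not hzn]
        omega
      · rwa [ind_ins_ne hyz] at hlt
    · rintro ⟨z', hz', hlt⟩
      have h1 := (H.covBy_iff.1 hz').2
      have h2 : z' ∈ F := indK_pos.1 (by omega)
      have h3 := Dj_lev h h2
      refine ⟨z', hz', ?_⟩
      rw [ind_ins_ne (hlev z' (by omega)), ind_ins_ne (hlev y (by omega))]
      exact hlt
  · intro y hy
    by_cases hyz : y = z
    · subst hyz
      obtain ⟨t, ht⟩ := uc_nonempty H (x := y) (by omega)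
      constructor
      · intro _
        refine ⟨t, mem_uc.1 ht, ?_⟩
        rw [indK_of_not hzn]
        exact Nat.zero_le _
      · intro _
        refine ⟨t, mem_uc.1 ht, ?_⟩
        rw [hz1, indK_of_mem (mem_insert_of_mem (hzF ht))]
    · constructor
      · rintro ⟨t, ht, hle⟩
        rw [ind_ins_ne hyz] at hle
        by_cases htz : t = z
        · subst htz
          have h1 := (H.covBy_iff.1 ht).2
          have hyF : y ∉ F := fun h2 => by
            have := Dj_lev h h2
            omega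
          refine ⟨t, ht, ?_⟩
          rw [indK_of_not hyF]
          exact Nat.zero_le _
        · rw [ind_ins_ne htz] at hle
          exact ⟨t, ht, hle⟩
      · rintro ⟨t, ht, hle⟩
        refine ⟨t, ht, ?_⟩
        rw [ind_ins_ne hyz]
        by_cases htz : t = z
        · subst htz
          rw [hz1]
          exact indK_le F y
        · rw [ind_ins_ne htz]
          exact hle
  · intro y hy
    have hyz : y ≠ z := hlev y (by omega)
    constructor
    · rintro ⟨t, ht, hlt⟩
      have h1 := (H.covBy_iff.1 ht).2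
      rw [ind_ins_ne hyz, ind_ins_ne (hlev t (by omega))] at hlt
      exact ⟨t, ht, hlt⟩
    · rintro ⟨t, ht, hlt⟩
      have h1 := (H.covBy_iff.1 ht).2
      refine ⟨t, ht, ?_⟩
      rw [ind_ins_ne hyz, ind_ins_ne (hlev t (by omega))]
      exact hlt
  · intro y hy
    have hyz : y ≠ z := hlev y (by omega)
    constructor
    · rintro ⟨t, ht, hlt⟩
      have h1 := (H.covBy_iff.1 ht).2
      rw [ind_ins_ne hyz, ind_ins_ne (hlev t (by omega))] at hlt
      exact ⟨t, ht, hlt⟩
    · rintro ⟨t, ht, hlt⟩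
      have h1 := (H.covBy_iff.1 ht).2
      refine ⟨t, ht, ?_⟩
      rw [ind_ins_ne hyz, ind_ins_ne (hlev t (by omega))]
      exact hlt

/-- a far upper element with label one -/
lemma trm_F6 (H : Gr P r) (hi : i ≤ r) (h : Dj i F) {z : P} (hz : lev z + 2 = i)
    (hzF : dc z ⊆ F) : trm i (indK (insert z F)) = trm i (indK F) := by
  have hzn : z ∉ F := fun h1 => by
    have := Dj_lev h h1
    omega
  have hz1 : indK (insert z F) z = 1 := indK_of_mem (mem_insert_self _ _)
  have hlev : ∀ x, lev x + 2 ≠ i → x ≠ z := by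
    rintro x hx rfl
    exact hx hz
  refine trm_congr ?_ ?_ ?_ ?_
  · intro y hy
    have hyz : y ≠ z := hlev y (by omega)
    constructor
    · rintro ⟨t, ht, hlt⟩
      have h1 := (H.covBy_iff.1 ht).2
      rw [ind_ins_ne hyz, ind_ins_ne (hlev t (by omega))] at hlt
      exact ⟨t, ht, hlt⟩
    · rintro ⟨t, ht, hlt⟩
      have h1 := (H.covBy_iff.1 ht).2
      refine ⟨t, ht, ?_⟩
      rw [ind_ins_ne hyz, ind_ins_ne (hlev t (by omega))]
      exact hlt
  · intro y hy
    have hyz : y ≠ z := hlev y (by omega)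
    constructor
    · rintro ⟨t, ht, hlt⟩
      have h1 := (H.covBy_iff.1 ht).2
      rw [ind_ins_ne hyz, ind_ins_ne (hlev t (by omega))] at hlt
      exact ⟨t, ht, hlt⟩
    · rintro ⟨t, ht, hlt⟩
      have h1 := (H.covBy_iff.1 ht).2
      refine ⟨t, ht, ?_⟩
      rw [ind_ins_ne hyz, ind_ins_ne (hlev t (by omega))]
      exact hlt
  · intro y hy
    constructor
    · rintro ⟨z', hz', hlt⟩
      have h1 := (H.covBy_iff.1 hz').2
      have hne : z' ≠ z := by
        rintro rfl
        rw [indK_of_mem (mem_insert_of_mem (hzF (mem_dc.2 hz')))] at hlt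
        have := indK_le (insert z' F) z'
        omega
      rw [ind_ins_ne hne] at hlt
      refine ⟨z', hz', ?_⟩
      by_cases hyz : y = z
      · subst hyz
        rw [indK_of_not hzn]
        omega
      · rwa [ind_ins_ne hyz] at hlt
    · rintro ⟨z', hz', hlt⟩
      have h1 := (H.covBy_iff.1 hz').2
      have h2 : z' ∈ F := indK_pos.1 (by omega)
      have h3 := Dj_lev h h2
      refine ⟨z', hz', ?_⟩
      rw [ind_ins_ne (hlev z' (by omega)), ind_ins_ne (hlev y (by omega))]
      exact hlt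
  · intro y hy
    by_cases hyz : y = z
    · subst hyz
      obtain ⟨t, ht⟩ := dc_nonempty H (x := y) (by omega)
      constructor
      · intro _
        refine ⟨t, mem_dc.1 ht, ?_⟩
        rw [indK_of_not hzn]
        exact Nat.zero_le _
      · intro _
        refine ⟨t, mem_dc.1 ht, ?_⟩
        rw [hz1, indK_of_mem (mem_insert_of_mem (hzF ht))]
    · constructor
      · rintro ⟨t, ht, hle⟩
        rw [ind_ins_ne hyz] at hle
        by_cases htz : t = z
        · subst htz
          have h1 := (H.covBy_iff.1 ht).2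
          have hyF : y ∉ F := fun h2 => by
            have := Dj_lev h h2
            omega
          refine ⟨t, ht, ?_⟩
          rw [indK_of_not hyF]
          exact Nat.zero_le _
        · rw [ind_ins_ne htz] at hle
          exact ⟨t, ht, hle⟩
      · rintro ⟨t, ht, hle⟩
        refine ⟨t, ht, ?_⟩
        rw [ind_ins_ne hyz]
        by_cases htz : t = z
        · subst htz
          rw [hz1]
          exact indK_le F y
        · rw [ind_ins_ne htz]
          exact hle

end far

end T6N
end Pool.Agent.GaussPoset.Win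

end

/-! From `Pool.Agent.W_448t6_h94.TsF` -/

section

/-! A far lower element with label two; one site raised (MP_448cb3_co). -/

namespace Pool.Agent.GaussPoset.Win
namespace T6N

set_option linter.unusedSectionVars false

open Finset

universe u

variable {P : Type u} [Fintype P] [PartialOrder P] [DecidableEq P] {r : ℕ}

section far

variable {i : ℕ} {F : Finset P}

/-- a far lower element with label two: term -/
lemma trm_F5 (H : Gr P r) (hi : i ≤ r) (h : Dj i F) {z : P} (hz : lev z = i + 2)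
    (hz2 : (uc z).card = 2) (hzF : uc z ⊆ F) :
    trm i (indK (insert z F) + sg z) = xx ^ 2 * xi ^ (F ∩ dbU P i).card *
      dd ^ ((F ∩ dbL P i).card - 1 + (F ∩ dbU P i).card) * (xx ^ (2 * (F ∩ dbL P i).card) *
        dd ^ ((lv P i).card - 2 * (F ∩ dbL P i).card - 2 * (F ∩ dbU P i).card)) := by
  classical
  have hzn : z ∉ F := fun h1 => by
    have := Dj_lev h h1
    omega
  set e : P → ℕ := indK (insert z F) + sg z with he
  have ez : e z = 2 := by
    rw [he, Pi.add_apply, sg_self, indK_of_mem (mem_insert_self _ _)]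
  have ene : ∀ x, x ≠ z → e x = indK F x := by
    intro x hx
    rw [he, Pi.add_apply, sg_ne hx, add_zero, ind_ins_ne hx]
  have hlev : ∀ x, lev x ≠ i + 2 → x ≠ z := by
    rintro x hx rfl
    exact hx hz
  have hucF : ∀ y, z ⋖ y → y ∈ F := fun y hy => hzF (mem_uc.2 hy)
  have hFD : ∀ y, i < lev y → (FD e y ↔ y ∈ uc z) := by
    intro y hy
    constructor
    · rintro ⟨z', hz', hlt⟩
      have h1 := (H.covBy_iff.1 hz').2
      by_cases h2 : z' = z
      · subst h2
        exact mem_uc.2 hz'
      · rw [ene z' h2] at hlt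
        have h3 : z' ∈ F := indK_pos.1 (by omega)
        have := Dj_lev h h3
        omega
    · intro hy2
      rw [mem_uc] at hy2
      have h1 := (H.covBy_iff.1 hy2).2
      refine ⟨z, hy2, ?_⟩
      rw [ez, ene y (hlev y (by omega)), indK_of_mem (hucF y hy2)]
      omega
  have hFDs : ∀ v, lev v = i → (FD e v ↔ FD (indK F) v) := by
    intro v hv
    have hvz : v ≠ z := hlev v (by omega)
    constructor
    · rintro ⟨z', hz', hlt⟩
      have h1 := (H.covBy_iff.1 hz').2
      rw [ene v hvz, ene z' (hlev z' (by omega))] at hlt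
      exact ⟨z', hz', hlt⟩
    · rintro ⟨z', hz', hlt⟩
      have h1 := (H.covBy_iff.1 hz').2
      refine ⟨z', hz', ?_⟩
      rw [ene v hvz, ene z' (hlev z' (by omega))]
      exact hlt
  have hFU : ∀ y, lev y ≤ i → (FU e y ↔ FU (indK F) y) := by
    intro v hv
    have hvz : v ≠ z := hlev v (by omega)
    constructor
    · rintro ⟨z', hz', hlt⟩
      have h1 := (H.covBy_iff.1 hz').2
      rw [ene v hvz, ene z' (hlev z' (by omega))] at hlt
      exact ⟨z', hz', hlt⟩
    · rintro ⟨z', hz', hlt⟩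
      have h1 := (H.covBy_iff.1 hz').2
      refine ⟨z', hz', ?_⟩
      rw [ene v hvz, ene z' (hlev z' (by omega))]
      exact hlt
  have hGD : ∀ y, lev y < i → (GD e y ↔ GD (indK F) y) := by
    intro v hv
    have hvz : v ≠ z := hlev v (by omega)
    constructor
    · rintro ⟨z', hz', hlt⟩
      have h1 := (H.covBy_iff.1 hz').2
      rw [ene v hvz, ene z' (hlev z' (by omega))] at hlt
      exact ⟨z', hz', hlt⟩
    · rintro ⟨z', hz', hlt⟩
      have h1 := (H.covBy_iff.1 hz').2
      refine ⟨z', hz', ?_⟩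
      rw [ene v hvz, ene z' (hlev z' (by omega))]
      exact hlt
  have hGU : ∀ y, i < lev y → (GU e y ↔ y ∉ insert z F) := by
    intro y hy
    constructor
    · rintro ⟨t, ht, hle⟩ hy2
      have h1 := (H.covBy_iff.1 ht).2
      rcases mem_insert.1 hy2 with h2 | h2
      · subst h2
        rw [ez, ene t (hlev t (by omega))] at hle
        have := indK_le F t
        omega
      · have h3 := Dj_lev h h2
        rw [ene y (hlev y (by omega)), ene t (hlev t (by omega)), indK_of_mem h2,
          Dj_site h (x := t) (by omega)] at hle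
        omega
    · intro hy2
      rw [mem_insert] at hy2
      push Not at hy2
      obtain ⟨t, ht⟩ := uc_nonempty H (x := y) (by omega)
      refine ⟨t, mem_uc.1 ht, ?_⟩
      rw [ene y hy2.1, indK_of_not hy2.2]
      exact Nat.zero_le _
  have hA : AdmL i e := by
    rintro y hy ⟨h1, h2⟩
    rw [hFD y hy] at h1
    rw [hGU y hy] at h2
    exact h2 (mem_insert_of_mem (hzF h1))
  have hB : AdmU i e := by
    rintro y hy ⟨h1, h2⟩
    rw [hFU y hy.le] at h1
    exact Dj_FU H h hy h1
  have hAL : AL i e = AL i (indK F) := by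
    unfold AL
    ext v
    rw [mem_filter, mem_filter, mem_lv]
    constructor
    · rintro ⟨a, b⟩
      exact ⟨a, (hFDs v a).1 b⟩
    · rintro ⟨a, b⟩
      exact ⟨a, (hFDs v a).2 b⟩
  have hAU : AU i e = AU i (indK F) := by
    unfold AU
    ext v
    rw [mem_filter, mem_filter, mem_lv]
    constructor
    · rintro ⟨a, b⟩
      exact ⟨a, (hFU v a.le).1 b⟩
    · rintro ⟨a, b⟩
      exact ⟨a, (hFU v a.le).2 b⟩
  have haL : aL i e = 2 := by
    rw [← hz2]
    unfold aL
    congr 1
    ext y
    rw [mem_filter]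
    constructor
    · rintro ⟨_, a, b⟩
      exact (hFD y a).1 b
    · intro a
      have h1 := lev_uc H a
      exact ⟨mem_univ _, by omega, (hFD y (by omega)).2 a⟩
  have haU : aU i e = 0 := by
    unfold aU
    rw [card_eq_zero, filter_eq_empty_iff]
    rintro y _ ⟨h1, h2⟩
    rw [hFU y h1.le] at h2
    exact Dj_FU H h h1 h2
  have hpU : pU i e = (F ∩ dbU P i).card := by
    rw [← Dj_pU H hi h]
    unfold pU
    congr 1
    ext y
    rw [mem_filter, mem_filter]
    constructor
    · rintro ⟨a, b, c, d⟩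
      exact ⟨a, b, fun x => c ((hFU y b.le).2 x), fun x => d ((hGD y b).2 x)⟩
    · rintro ⟨a, b, c, d⟩
      exact ⟨a, b, fun x => c ((hFU y b.le).1 x), fun x => d ((hGD y b).1 x)⟩
  have hucL : uc z ⊆ F ∩ dbL P i := by
    intro y hy
    rw [mem_inter]
    refine ⟨hzF hy, ?_⟩
    rcases mem_union.1 (h.1 (hzF hy)) with h1 | h1
    · exact h1
    · have h2 := lev_uc H hy
      have h3 := (mem_dbU.1 h1).1
      omega
  have hpL : pL i e = (F ∩ dbL P i).card - 1 := by
    have h1 : univ.filter (fun y : P => i < lev y ∧ ¬ FD e y ∧ ¬ GU e y) =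
        insert z ((F ∩ dbL P i) \ uc z) := by
      ext y
      rw [mem_filter, mem_insert, mem_sdiff, mem_inter]
      constructor
      · rintro ⟨_, a, b, c⟩
        rw [hFD y a] at b
        rw [hGU y a, not_not] at c
        rcases mem_insert.1 c with h2 | h2
        · exact Or.inl h2
        · right
          refine ⟨⟨h2, ?_⟩, b⟩
          rcases mem_union.1 (h.1 h2) with h3 | h3
          · exact h3
          · have := (mem_dbU.1 h3).1
            omega
      · rintro (h2 | ⟨⟨h2, h3⟩, h4⟩)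
        · subst h2
          refine ⟨mem_univ _, by omega, ?_, ?_⟩
          · rw [hFD y (by omega)]
            intro h5
            have := lev_uc H h5
            omega
          · rw [hGU y (by omega), not_not]
            exact mem_insert_self _ _
        · have h5 := (mem_dbL.1 h3).1
          refine ⟨mem_univ _, by omega, ?_, ?_⟩
          · rw [hFD y (by omega)]
            exact h4
          · rw [hGU y (by omega), not_not]
            exact mem_insert_of_mem h2
    have h2 : z ∉ (F ∩ dbL P i) \ uc z := by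
      rw [mem_sdiff, mem_inter]
      rintro ⟨⟨h3, _⟩, _⟩
      exact hzn h3
    unfold pL
    rw [h1, card_insert_of_notMem h2, card_sdiff_of_subset hucL, hz2]
    have h3 := card_le_card hucL
    omega
  have h1 : (AL i (indK F)).card = 2 * (F ∩ dbL P i).card := by
    rw [Dj_AL H h, Dj_bi_card h inter_subset_left]
  have h2 : (AU i (indK F)).card = 2 * (F ∩ dbU P i).card := by
    rw [Dj_AU H h, Dj_bi_card h inter_subset_left]
  have hAB : AdmL i e ∧ AdmU i e := ⟨hA, hB⟩
  unfold trm
  rw [hAL, hAU, if_pos (Dj_disj H h)]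
  unfold cw
  rw [if_pos hAB, haL, haU, hpL, hpU, h1, h2, zero_add]

/-- value at a family with a far lower element of label two -/
lemma KK_F5 (H : Gr P r) (hi : i ≤ r) (h : Dj i F) {z : P} (hz : lev z = i + 2)
    (hz2 : (uc z).card = 2) (hzF : uc z ⊆ F) {n : ℕ} (hn : F.card + 2 = n) :
    KK i n (indK (insert z F) + sg z) = eps i F := by
  have h2 := Dj_two_le H h
  have h4 := Dj_card h
  have hucL : uc z ⊆ F ∩ dbL P i := by
    intro y hy
    rw [mem_inter]
    refine ⟨hzF hy, ?_⟩
    rcases mem_union.1 (h.1 (hzF hy)) with h1 | h1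
    · exact h1
    · have h2 := lev_uc H hy
      have h3 := (mem_dbU.1 h1).1
      omega
  have h5 := card_le_card hucL
  unfold KK
  rw [trm_F5 H hi h hz hz2 hzF]
  have h6 : xx ^ 2 * xi ^ (F ∩ dbU P i).card *
      dd ^ ((F ∩ dbL P i).card - 1 + (F ∩ dbU P i).card) * (xx ^ (2 * (F ∩ dbL P i).card) *
        dd ^ ((lv P i).card - 2 * (F ∩ dbL P i).card - 2 * (F ∩ dbU P i).card)) =
      dd ^ ((lv P i).card - n + 1) * (xi ^ (F ∩ dbU P i).card *
        (xx ^ 2 * xx ^ (2 * (F ∩ dbL P i).card))) := by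
    rw [show (lv P i).card - n + 1 = ((F ∩ dbL P i).card - 1 + (F ∩ dbU P i).card) +
      ((lv P i).card - 2 * (F ∩ dbL P i).card - 2 * (F ∩ dbU P i).card) by omega, pow_add dd
      ((F ∩ dbL P i).card - 1 + (F ∩ dbU P i).card)]
    ring
  rw [h6]
  have h7 := cf_dd ((lv P i).card - n + 1) 0 (xi ^ (F ∩ dbU P i).card *
        (xx ^ 2 * xx ^ (2 * (F ∩ dbL P i).card)))
  rw [zero_add] at h7
  rw [h7, PowerSeries.coeff_zero_eq_constantCoeff, map_mul, map_mul, map_pow, map_pow, map_pow,
    cc_xi, cc_xx, eps_eq, pow_mul]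
  norm_num

end far

/-- families with one site removed -/
def SvF (i : ℕ) (v : P) (G : Finset P) : Prop :=
  G ⊆ dbL P i ∪ dbU P i ∧ ∀ x ∈ G, ∀ y ∈ G, x ≠ y → Disjoint (ns i x \ {v}) (ns i y \ {v})

/-- sign of a near element with one site raised -/
noncomputable def sgv (i : ℕ) (v x : P) : ℤ := if v ∈ ns i x then -sgn i x else sgn i x

section site

variable {i : ℕ} {G : Finset P} {v : P}

lemma ns_sdiff_card {x : P} (hx : x ∈ dbL P i ∪ dbU P i) (v : P) :
    (ns i x \ {v}).card + (if v ∈ ns i x then 1 else 0) = 2 := by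
  have h := ns_card hx
  split_ifs with h1
  · rw [sdiff_singleton_eq_erase, card_erase_of_mem h1]
    omega
  · rw [sdiff_singleton_eq_erase, erase_eq_of_notMem h1]
    omega

lemma sum_ns_sdiff (hG : G ⊆ dbL P i ∪ dbU P i) (v : P) :
    ∑ x ∈ G, (ns i x \ {v}).card + (G.filter (fun x => v ∈ ns i x)).card = 2 * G.card := by
  rw [card_filter, ← sum_add_distrib, sum_congr rfl (fun x hx => ns_sdiff_card (hG hx) v),
    sum_const, smul_eq_mul, mul_comm]

lemma biU_sdiff (G : Finset P) (v : P) :
    G.biUnion (ns i) \ {v} = G.biUnion (fun x => ns i x \ {v}) := by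
  ext y
  simp only [mem_sdiff, mem_biUnion, mem_singleton]
  constructor
  · rintro ⟨⟨x, hx, hy⟩, hne⟩
    exact ⟨x, hx, hy, hne⟩
  · rintro ⟨x, hx, hy, hne⟩
    exact ⟨⟨x, hx, hy⟩, hne⟩

/-- value at one raised site -/
lemma KK_site (H : Gr P r) (hi : i ≤ r) (hv : v ∈ lv P i) (hG : G ⊆ dbL P i ∪ dbU P i) {n : ℕ}
    (hn : G.card + 1 = n) (hnb : n ≤ (lv P i).card) :
    (SvF i v G → KK i n (indK (insert v G)) = ∏ x ∈ G, sgv i v x) ∧
      (¬ SvF i v G → KK i n (indK (insert v G)) = 0) := by
  classical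
  have hGn : G ⊆ near P i := hG.trans dbl_near
  have hW : ({v} : Finset P) ⊆ lv P i := singleton_subset_iff.2 hv
  have hT := trm_GW H hi hGn hW
  have hins : G ∪ {v} = insert v G := by
    rw [union_comm]
    rfl
  rw [hins] at hT
  have hdj : ∀ x : P, Disjoint (ns i x) {v} ↔ v ∉ ns i x := fun x => disjoint_singleton_right
  simp only [hdj] at hT
  set UL := (gL i G).biUnion (ns i) \ {v} with hUL
  set UU := (gU i G).biUnion (ns i) \ {v} with hUU
  set pl := ((gL i G).filter (fun x => v ∉ ns i x)).card with hpl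
  set pu := ((gU i G).filter (fun x => v ∉ ns i x)).card with hpu
  have hU : UL ∪ UU = G.biUnion (fun x => ns i x \ {v}) := by
    rw [hUL, hUU, ← union_sdiff_distrib, gLU_bi H hGn, biU_sdiff]
  have hsub : UL ∪ UU ⊆ (lv P i).erase v := by
    rw [hU, biUnion_subset]
    intro x hx y hy
    rw [mem_sdiff, mem_singleton] at hy
    exact mem_erase.2 ⟨hy.2, mem_lv.2 (ns_lv H (hGn hx) hy.1)⟩
  have hcb : (UL ∪ UU).card + 1 ≤ (lv P i).card := by
    have := card_le_card hsub
    rw [card_erase_of_mem hv] at this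
    omega
  have hJ : pl + pu + (G.filter (fun x => v ∈ ns i x)).card = G.card := by
    have h1 : pl + pu = (G.filter (fun x => v ∉ ns i x)).card := by
      rw [hpl, hpu, ← gLU H (G := G.filter (fun x => v ∉ ns i x)) ((filter_subset _ _).trans hGn)]
      congr 1
      · congr 1
        ext x
        simp only [mem_filter, mem_gL]
        tauto
      · congr 1
        ext x
        simp only [mem_filter, mem_gU]
        tauto
    rw [h1, add_comm]
    exact card_filter_add_card_filter_not _
  have hsum := sum_ns_sdiff hG v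
  have hle : (UL ∪ UU).card ≤ ∑ x ∈ G, (ns i x \ {v}).card := by
    rw [hU]
    exact card_biUnion_le
  by_cases hd : Disjoint UL UU
  · rw [if_pos hd] at hT
    have hcu := card_union_of_disjoint hd
    constructor
    · intro hS
      have heq : (UL ∪ UU).card = ∑ x ∈ G, (ns i x \ {v}).card := by
        rw [hU]
        exact card_biUnion (fun x hx y hy hne => hS.2 x hx y hy hne)
      unfold KK
      rw [hT]
      have h6 : xi ^ pu * dd ^ (pl + pu) * (xx ^ UL.card *
          dd ^ ((lv P i).card - UL.card - UU.card)) =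
          dd ^ ((lv P i).card - n + 1) * (xi ^ pu * xx ^ UL.card) := by
        rw [show (lv P i).card - n + 1 = (pl + pu) + ((lv P i).card - UL.card - UU.card) by omega,
          pow_add dd (pl + pu)]
        ring
      have h7 := cf_dd ((lv P i).card - n + 1) 0 (xi ^ pu * xx ^ UL.card)
      rw [zero_add] at h7
      rw [h6, h7, PowerSeries.coeff_zero_eq_constantCoeff, map_mul, map_pow, map_pow, cc_xi, cc_xx]
      have hULc : UL.card = ∑ x ∈ gL i G, (ns i x \ {v}).card := by
        rw [hUL, biU_sdiff]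
        exact card_biUnion (fun x hx y hy hne => hS.2 x (mem_gL.1 hx).1 y (mem_gL.1 hy).1 hne)
      have hprod : ∏ x ∈ G, sgv i v x = (∏ x ∈ gL i G, sgv i v x) * ∏ x ∈ gU i G, sgv i v x := by
        rw [← prod_union]
        · congr 1
          ext x
          rw [mem_union, mem_gL, mem_gU]
          constructor
          · intro h
            have := mem_near.1 (hGn h)
            tauto
          · rintro (h | h) <;> exact h.1
        · rw [disjoint_left]
          intro x h1 h2
          rw [mem_gL] at h1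
          rw [mem_gU] at h2
          omega
      have hpL : ∏ x ∈ gL i G, sgv i v x = (-1) ^ UL.card := by
        rw [hULc, ← prod_pow_eq_pow_sum]
        refine prod_congr rfl fun x hx => ?_
        rw [mem_gL] at hx
        have h8 := ns_sdiff_card (hG hx.1) v
        have h9 : sgn i x = 1 := by
          unfold sgn
          rw [if_neg]
          intro h10
          have := (mem_dbU.1 h10).1
          omega
        unfold sgv
        rw [h9]
        split_ifs at h8 ⊢ with h10
        · rw [show (ns i x \ {v}).card = 1 by omega]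
          norm_num
        · rw [show (ns i x \ {v}).card = 2 by omega]
          norm_num
      have hpU : ∏ x ∈ gU i G, sgv i v x = (-1) ^ pu := by
        have h8 : ∀ x ∈ gU i G, sgv i v x = if v ∉ ns i x then (-1 : ℤ) else 1 := by
          intro x hx
          rw [mem_gU] at hx
          have h9 : sgn i x = -1 := by
            unfold sgn
            rw [if_pos]
            rcases mem_union.1 (hG hx.1) with h10 | h10
            · have := (mem_dbL.1 h10).1
              omega
            · exact h10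
          unfold sgv
          rw [h9]
          by_cases h10 : v ∈ ns i x
          · rw [if_pos h10, if_neg (not_not.2 h10)]
            norm_num
          · rw [if_neg h10, if_pos h10]
        rw [prod_congr rfl h8, prod_ite, prod_const, prod_const_one, mul_one]
      rw [hprod, hpL, hpU]
      ring
    · intro hS
      have hlt : (UL ∪ UU).card < ∑ x ∈ G, (ns i x \ {v}).card := by
        refine lt_of_le_of_ne hle (fun heq => hS ⟨hG, ?_⟩)
        intro x hx y hy hne
        refine disj_of_card_biUnion (s := G) (t := fun x => ns i x \ {v}) ?_ hx hy hne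
        rw [← hU, heq]
      unfold KK
      rw [hT]
      have h6 : xi ^ pu * dd ^ (pl + pu) * (xx ^ UL.card *
          dd ^ ((lv P i).card - UL.card - UU.card)) =
          dd ^ ((pl + pu) + ((lv P i).card - UL.card - UU.card)) * (xi ^ pu * xx ^ UL.card) := by
        rw [pow_add dd (pl + pu)]
        ring
      rw [h6]
      exact cf_dd_lt (by omega) _
  · rw [if_neg hd] at hT
    constructor
    · intro hS
      exfalso
      apply hd
      rw [disjoint_left]
      intro y h1 h2
      rw [hUL, mem_sdiff, mem_biUnion] at h1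
      rw [hUU, mem_sdiff, mem_biUnion] at h2
      obtain ⟨⟨x, hx, hyx⟩, hyv⟩ := h1
      obtain ⟨⟨x', hx', hyx'⟩, _⟩ := h2
      rw [mem_gL] at hx
      rw [mem_gU] at hx'
      have hne : x ≠ x' := by
        rintro rfl
        omega
      exact disjoint_left.1 (hS.2 x hx.1 x' hx'.1 hne) (mem_sdiff.2 ⟨hyx, hyv⟩)
        (mem_sdiff.2 ⟨hyx', hyv⟩)
    · intro _
      unfold KK
      rw [hT, map_zero]

end site

end T6N
end Pool.Agent.GaussPoset.Win

end

/-! From `Pool.Agent.W_448t6_h94.TsG` -/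

section

/-! Sum over the near sets (MP_448cb3_co). -/

namespace Pool.Agent.GaussPoset.Win
namespace T6N

set_option linter.unusedSectionVars false

open Finset

universe u

variable {P : Type u} [Fintype P] [PartialOrder P] [DecidableEq P] {r : ℕ}

/-- sign of a near set -/
noncomputable def sig (i : ℕ) (G : Finset P) : ℤ :=
  (-1) ^ ((gU i G).card + ((gL i G).biUnion (ns i)).card)

/-- single near elements -/
noncomputable def sgl (P : Type u) [Fintype P] [PartialOrder P] [DecidableEq P] (i : ℕ) :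
    Finset P := (near P i).filter (fun x => (ns i x).card = 1)

/-- pairs of near double elements on one side with exactly one common site -/
noncomputable def OP (P : Type u) [Fintype P] [PartialOrder P] [DecidableEq P] (i : ℕ) :
    Finset (Finset P) := ((dbL P i ∪ dbU P i).powersetCard 2).filter
      (fun p => (p ⊆ dbL P i ∨ p ⊆ dbU P i) ∧ (p.biUnion (ns i)).card = 3)

/-- sign of such a pair -/
noncomputable def osg (i : ℕ) (p : Finset P) : ℤ := if p ⊆ dbU P i then 1 else -1

open Classical in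
/-- disjoint families of size `k` avoiding the sites `T` -/
noncomputable def FFa (P : Type u) [Fintype P] [PartialOrder P] [DecidableEq P] (i k : ℕ)
    (T : Finset P) : Finset (Finset P) :=
  (FF P i k).filter (fun F => Disjoint (F.biUnion (ns i)) T)

variable {i : ℕ}

lemma mem_sgl {x : P} : x ∈ sgl P i ↔ x ∈ near P i ∧ (ns i x).card = 1 := by
  unfold sgl; rw [mem_filter]

lemma mem_OP {p : Finset P} : p ∈ OP P i ↔ (p ⊆ dbL P i ∨ p ⊆ dbU P i) ∧ p.card = 2 ∧
    (p.biUnion (ns i)).card = 3 := by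
  unfold OP
  rw [mem_filter, mem_powersetCard]
  constructor
  · rintro ⟨⟨h1, h2⟩, h3, h4⟩
    exact ⟨h3, h2, h4⟩
  · rintro ⟨h1, h2, h3⟩
    refine ⟨⟨?_, h2⟩, h1, h3⟩
    rcases h1 with h | h
    · exact h.trans subset_union_left
    · exact h.trans subset_union_right

lemma mem_FFa {k : ℕ} {T F : Finset P} :
    F ∈ FFa P i k T ↔ Dj i F ∧ F.card = k ∧ Disjoint (F.biUnion (ns i)) T := by
  classical
  unfold FFa
  rw [mem_filter, mem_FF, and_assoc]

lemma gL_union (G1 G2 : Finset P) : gL i (G1 ∪ G2) = gL i G1 ∪ gL i G2 := by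
  unfold gL; rw [filter_union]

lemma gU_union (G1 G2 : Finset P) : gU i (G1 ∪ G2) = gU i G1 ∪ gU i G2 := by
  unfold gU; rw [filter_union]

lemma gL_sub (G : Finset P) : gL i G ⊆ G := filter_subset _ _

lemma gU_sub (G : Finset P) : gU i G ⊆ G := filter_subset _ _

lemma sig_union {G1 G2 : Finset P} (hd : Disjoint G1 G2)
    (hs : Disjoint (G1.biUnion (ns i)) (G2.biUnion (ns i))) :
    sig i (G1 ∪ G2) = sig i G1 * sig i G2 := by
  unfold sig
  rw [gL_union, gU_union, union_biUnion, card_union_of_disjoint, card_union_of_disjoint, ← pow_add]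
  · congr 1
    omega
  · exact disjoint_of_subset_left (biUnion_subset_biUnion_of_subset_left _ (gL_sub G1))
      (disjoint_of_subset_right (biUnion_subset_biUnion_of_subset_left _ (gL_sub G2)) hs)
  · exact disjoint_of_subset_left (gU_sub G1) (disjoint_of_subset_right (gU_sub G2) hd)

lemma sig_F {F : Finset P} (h : Dj i F) : sig i F = eps i F := by
  have h1 : gU i F = F ∩ dbU P i := by
    ext x
    rw [mem_gU, mem_inter]
    constructor
    · rintro ⟨a, b⟩
      refine ⟨a, ?_⟩
      rcases mem_union.1 (h.1 a) with c | c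
      · have := (mem_dbL.1 c).1
        omega
      · exact c
    · rintro ⟨a, b⟩
      exact ⟨a, (mem_dbU.1 b).1⟩
  unfold sig
  rw [eps_eq, h1, Dj_bi_card h (gL_sub F), pow_add, pow_mul (-1 : ℤ) 2]
  norm_num

lemma sig_single {h : P} (hh : h ∈ sgl P i) : sig i {h} = -1 := by
  rw [mem_sgl] at hh
  unfold sig
  rcases mem_near.1 hh.1 with h1 | h1
  · have e1 : gU i {h} = ∅ := by
      rw [eq_empty_iff_forall_notMem]
      intro x hx
      rw [mem_gU, mem_singleton] at hx
      obtain ⟨rfl, h2⟩ := hx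
      omega
    have e2 : gL i {h} = {h} := by
      ext x
      rw [mem_gL, mem_singleton]
      constructor
      · exact fun h2 => h2.1
      · rintro rfl
        exact ⟨rfl, h1⟩
    rw [e1, e2, singleton_biUnion, hh.2, card_empty]
    norm_num
  · have e1 : gL i {h} = ∅ := by
      rw [eq_empty_iff_forall_notMem]
      intro x hx
      rw [mem_gL, mem_singleton] at hx
      obtain ⟨rfl, h2⟩ := hx
      omega
    have e2 : gU i {h} = {h} := by
      ext x
      rw [mem_gU, mem_singleton]
      constructor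
      · exact fun h2 => h2.1
      · rintro rfl
        exact ⟨rfl, h1⟩
    rw [e1, e2, biUnion_empty, card_empty, card_singleton]
    norm_num

lemma gLU_side {p : Finset P} :
    (p ⊆ dbL P i → gL i p = p ∧ gU i p = ∅) ∧ (p ⊆ dbU P i → gL i p = ∅ ∧ gU i p = p) := by
  constructor
  · intro h
    constructor
    · ext x
      rw [mem_gL]
      exact ⟨fun h1 => h1.1, fun h1 => ⟨h1, (mem_dbL.1 (h h1)).1⟩⟩
    · rw [eq_empty_iff_forall_notMem]
      intro x hx
      rw [mem_gU] at hx
      have := (mem_dbL.1 (h hx.1)).1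
      omega
  · intro h
    constructor
    · rw [eq_empty_iff_forall_notMem]
      intro x hx
      rw [mem_gL] at hx
      have := (mem_dbU.1 (h hx.1)).1
      omega
    · ext x
      rw [mem_gU]
      exact ⟨fun h1 => h1.1, fun h1 => ⟨h1, (mem_dbU.1 (h h1)).1⟩⟩

lemma OP_ne {p : Finset P} (hp : p ∈ OP P i) : p.Nonempty := by
  rw [mem_OP] at hp
  rw [← card_pos]
  omega

lemma not_both {p : Finset P} (h1 : p ⊆ dbL P i) (h2 : p ⊆ dbU P i) (h3 : p.Nonempty) : False := by
  obtain ⟨x, hx⟩ := h3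
  have := (mem_dbL.1 (h1 hx)).1
  have := (mem_dbU.1 (h2 hx)).1
  omega

lemma sig_pair {p : Finset P} (hp : p ∈ OP P i) : sig i p = osg i p := by
  have hne := OP_ne hp
  rw [mem_OP] at hp
  unfold sig osg
  rcases hp.1 with h | h
  · rw [(gLU_side.1 h).1, (gLU_side.1 h).2, hp.2.2, if_neg (fun h2 => not_both h h2 hne),
      card_empty]
    norm_num
  · rw [(gLU_side.2 h).1, (gLU_side.2 h).2, hp.2.1, if_pos h, biUnion_empty, card_empty]
    norm_num

lemma Sds_union {G1 G2 : Finset P} (h1 : Sds i G1) (h2 : Sds i G2)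
    (hs : Disjoint (G1.biUnion (ns i)) (G2.biUnion (ns i))) : Sds i (G1 ∪ G2) := by
  unfold Sds at h1 h2 ⊢
  rw [gL_union, gU_union, union_biUnion, union_biUnion, disjoint_union_left, disjoint_union_right,
    disjoint_union_right]
  have a1 := biUnion_subset_biUnion_of_subset_left (ns i) (gL_sub (i := i) G1)
  have a2 := biUnion_subset_biUnion_of_subset_left (ns i) (gL_sub (i := i) G2)
  have b1 := biUnion_subset_biUnion_of_subset_left (ns i) (gU_sub (i := i) G1)
  have b2 := biUnion_subset_biUnion_of_subset_left (ns i) (gU_sub (i := i) G2)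
  exact ⟨⟨h1, disjoint_of_subset_left a1 (disjoint_of_subset_right b2 hs)⟩,
    (disjoint_of_subset_left b1 (disjoint_of_subset_right a2 hs)).symm, h2⟩

lemma Sds_F {F : Finset P} (h : Dj i F) : Sds i F := by
  unfold Sds
  rw [disjoint_left]
  intro v h1 h2
  rw [mem_biUnion] at h1 h2
  obtain ⟨x, hx, hv⟩ := h1
  obtain ⟨y, hy, hv'⟩ := h2
  rw [mem_gL] at hx
  rw [mem_gU] at hy
  have hne : x ≠ y := by
    rintro rfl
    omega
  exact (disjoint_left.1 (h.2 x hx.1 y hy.1 hne) hv) hv'

lemma Sds_single {h : P} : Sds i {h} := by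
  unfold Sds
  rw [disjoint_left]
  intro v h1 h2
  rw [mem_biUnion] at h1 h2
  obtain ⟨x, hx, hv⟩ := h1
  obtain ⟨y, hy, hv'⟩ := h2
  rw [mem_gL, mem_singleton] at hx
  rw [mem_gU, mem_singleton] at hy
  rw [hx.1] at hx
  rw [hy.1] at hy
  omega

lemma Sds_pair {p : Finset P} (hp : p ∈ OP P i) : Sds i p := by
  rw [mem_OP] at hp
  unfold Sds
  rcases hp.1 with h | h
  · rw [(gLU_side.1 h).2, biUnion_empty]
    exact disjoint_empty_right _
  · rw [(gLU_side.2 h).1, biUnion_empty]
    exact disjoint_empty_left _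

end T6N
end Pool.Agent.GaussPoset.Win

end

/-! From `Pool.Agent.W_448t6_h94.TsH` -/

section

/-! Sum over the near sets, II (MP_448cb3_co). -/

namespace Pool.Agent.GaussPoset.Win
namespace T6N

set_option linter.unusedSectionVars false

open Finset

universe u

variable {P : Type u} [Fintype P] [PartialOrder P] [DecidableEq P] {r : ℕ} {i : ℕ}

lemma sgl_not_dbl {h : P} (hh : h ∈ sgl P i) : h ∉ dbL P i ∪ dbU P i := by
  intro h1
  rw [mem_sgl] at hh
  have := ns_card h1
  omega

lemma near_dbl_or (H : Gr P r) (hi : i ≤ r) {x : P} (hx : x ∈ near P i) :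
    x ∈ dbL P i ∪ dbU P i ∨ x ∈ sgl P i := by
  have h1 := ns_le2 H (i := i) x
  have h2 := card_pos.2 (ns_ne H hi hx)
  rw [dbl_iff hx, mem_sgl]
  by_cases h3 : (ns i x).card = 2
  · exact Or.inl h3
  · exact Or.inr ⟨hx, by omega⟩

lemma Dj_sub {F G : Finset P} (h : Dj i F) (hG : G ⊆ F) : Dj i G :=
  ⟨hG.trans h.1, fun x hx y hy hne => h.2 x (hG hx) y (hG hy) hne⟩

lemma disj_of_sites {F T : Finset P} (hF : F ⊆ dbL P i ∪ dbU P i)
    (hd : Disjoint (F.biUnion (ns i)) (T.biUnion (ns i))) : Disjoint F T := by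
  rw [disjoint_left]
  intro x h1 h2
  have h3 := ns_card (hF h1)
  obtain ⟨v, hv⟩ : (ns i x).Nonempty := by
    rw [← card_pos]
    omega
  exact disjoint_left.1 hd (mem_biUnion.2 ⟨x, h1, hv⟩) (mem_biUnion.2 ⟨x, h2, hv⟩)

/-- a near set with slack at most one -/
lemma near_cases (H : Gr P r) (hi : i ≤ r) {G : Finset P} (hG : G ⊆ near P i) {n : ℕ}
    (hn : G.card = n) (hS : Sds i G) (hb : 2 * n ≤ (G.biUnion (ns i)).card + 1) :
    Dj i G ∨ (∃ h F, h ∈ sgl P i ∧ Dj i F ∧ F.card + 1 = n ∧
      Disjoint (F.biUnion (ns i)) (ns i h) ∧ G = insert h F) ∨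
    (∃ p F, p ∈ OP P i ∧ Dj i F ∧ F.card + 2 = n ∧
      Disjoint (F.biUnion (ns i)) (p.biUnion (ns i)) ∧ G = p ∪ F) := by
  classical
  by_cases hsin : ∃ h ∈ G, h ∈ sgl P i
  · obtain ⟨h, hh, hs⟩ := hsin
    right; left
    have hcard : ∑ x ∈ G.erase h, (ns i x).card ≤ 2 * (G.erase h).card := by
      rw [mul_comm]
      exact sum_le_card_nsmul _ _ _ (fun x _ => ns_le2 H x)
    have hsum : ∑ x ∈ G, (ns i x).card = (ns i h).card + ∑ x ∈ G.erase h, (ns i x).card :=
      (add_sum_erase G (fun x => (ns i x).card) hh).symm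
    have hle : (G.biUnion (ns i)).card ≤ ∑ x ∈ G, (ns i x).card := card_biUnion_le
    have h1 := (mem_sgl.1 hs).2
    have h2 := card_erase_of_mem hh
    have h3 := card_pos.2 ⟨h, hh⟩
    have hdis : ∀ x ∈ G, ∀ y ∈ G, x ≠ y → Disjoint (ns i x) (ns i y) := fun x hx y hy hne =>
      disj_of_card_biUnion (by omega) hx hy hne
    have hall : ∀ x ∈ G.erase h, (ns i x).card = 2 := by
      intro x hx
      by_contra hne
      have h4 := ns_le2 H (i := i) x
      have h5 : ∑ x ∈ G.erase h, (ns i x).card < ∑ x ∈ G.erase h, 2 :=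
        sum_lt_sum (fun x _ => ns_le2 H x) ⟨x, hx, by omega⟩
      rw [sum_const, smul_eq_mul] at h5
      omega
    refine ⟨h, G.erase h, hs, ⟨?_, ?_⟩, by omega, ?_, (insert_erase hh).symm⟩
    · intro x hx
      exact (dbl_iff (hG (mem_of_mem_erase hx))).2 (hall x hx)
    · intro x hx y hy hne
      exact hdis x (mem_of_mem_erase hx) y (mem_of_mem_erase hy) hne
    · rw [disjoint_biUnion_left]
      intro x hx
      rw [mem_erase] at hx
      exact hdis x hx.2 h hh hx.1
  · push Not at hsin
    have hdbl : G ⊆ dbL P i ∪ dbU P i := by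
      intro x hx
      rcases near_dbl_or H hi (hG hx) with h | h
      · exact h
      · exact absurd h (hsin x hx)
    by_cases hDj : ∀ x ∈ G, ∀ y ∈ G, x ≠ y → Disjoint (ns i x) (ns i y)
    · exact Or.inl ⟨hdbl, hDj⟩
    · right; right
      push Not at hDj
      obtain ⟨x, hx, y, hy, hne, hnd⟩ := hDj
      have hpG : ({x, y} : Finset P) ⊆ G := by
        intro z hz
        rw [mem_insert, mem_singleton] at hz
        rcases hz with rfl | rfl
        · exact hx
        · exact hy
      have hpc : ({x, y} : Finset P).card = 2 := card_pair hne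
      have hFc := card_sdiff_of_subset hpG
      have hpl := card_le_card hpG
      have hU : G.biUnion (ns i) = ({x, y} : Finset P).biUnion (ns i) ∪
          (G \ {x, y}).biUnion (ns i) := by
        rw [← union_biUnion, union_sdiff_of_subset hpG]
      have hpU : ({x, y} : Finset P).biUnion (ns i) = ns i x ∪ ns i y := by
        rw [biUnion_insert, singleton_biUnion]
      have hp4 := card_union_add_card_inter (ns i x) (ns i y)
      have hx2 := ns_card (hdbl hx)
      have hy2 := ns_card (hdbl hy)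
      have hint : 0 < (ns i x ∩ ns i y).card := by
        rw [card_pos, nonempty_iff_ne_empty]
        intro h
        exact hnd (disjoint_iff_inter_eq_empty.2 h)
      have hsum2 : ∑ z ∈ G \ {x, y}, (ns i z).card = 2 * (G \ {x, y}).card := by
        rw [sum_congr rfl (fun z hz => ns_card (hdbl (sdiff_subset hz))), sum_const, smul_eq_mul,
          mul_comm]
      have hFle : ((G \ {x, y}).biUnion (ns i)).card ≤ ∑ z ∈ G \ {x, y}, (ns i z).card :=
        card_biUnion_le
      have hUle := card_union_add_card_inter (({x, y} : Finset P).biUnion (ns i))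
        ((G \ {x, y}).biUnion (ns i))
      rw [← hU] at hUle
      have hpUc : (({x, y} : Finset P).biUnion (ns i)).card = (ns i x ∪ ns i y).card := by rw [hpU]
      have hside : ({x, y} : Finset P) ⊆ dbL P i ∨ ({x, y} : Finset P) ⊆ dbU P i := by
        obtain ⟨v, hv⟩ := card_pos.1 hint
        rw [mem_inter] at hv
        rcases mem_union.1 (hdbl hx) with hx1 | hx1 <;> rcases mem_union.1 (hdbl hy) with hy1 | hy1
        · left
          intro z hz
          rw [mem_insert, mem_singleton] at hz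
          rcases hz with rfl | rfl
          · exact hx1
          · exact hy1
        · exfalso
          exact disjoint_left.1 hS (mem_biUnion.2 ⟨x, mem_gL.2 ⟨hx, (mem_dbL.1 hx1).1⟩, hv.1⟩)
            (mem_biUnion.2 ⟨y, mem_gU.2 ⟨hy, (mem_dbU.1 hy1).1⟩, hv.2⟩)
        · exfalso
          exact disjoint_left.1 hS (mem_biUnion.2 ⟨y, mem_gL.2 ⟨hy, (mem_dbL.1 hy1).1⟩, hv.2⟩)
            (mem_biUnion.2 ⟨x, mem_gU.2 ⟨hx, (mem_dbU.1 hx1).1⟩, hv.1⟩)
        · right
          intro z hz
          rw [mem_insert, mem_singleton] at hz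
          rcases hz with rfl | rfl
          · exact hx1
          · exact hy1
      refine ⟨{x, y}, G \ {x, y}, mem_OP.2 ⟨hside, hpc, by omega⟩,
        ⟨sdiff_subset.trans hdbl, ?_⟩, by omega, ?_, (union_sdiff_of_subset hpG).symm⟩
      · intro a ha b hb hab
        exact disj_of_card_biUnion (by omega) ha hb hab
      · rw [disjoint_comm, disjoint_iff_inter_eq_empty, ← card_eq_zero]
        omega

lemma bi_insert_card {h : P} {F : Finset P} (hs : h ∈ sgl P i) (hF : Dj i F)
    (hd : Disjoint (F.biUnion (ns i)) (ns i h)) :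
    ((insert h F).biUnion (ns i)).card = 2 * F.card + 1 := by
  rw [biUnion_insert, card_union_of_disjoint hd.symm, (mem_sgl.1 hs).2,
    Dj_bi_card hF (Subset.refl F)]
  omega

/-- value at a family with a single element -/
lemma KK_h (H : Gr P r) (hi : i ≤ r) {h : P} {F : Finset P} (hs : h ∈ sgl P i) (hF : Dj i F)
    (hd : Disjoint (F.biUnion (ns i)) (ns i h)) {n : ℕ} (hn : F.card + 1 = n) :
    KK i n (indK (insert h F)) = -eps i F := by
  have hhF : h ∉ F := fun h1 => sgl_not_dbl hs (hF.1 h1)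
  have hG : insert h F ⊆ near P i := by
    intro x hx
    rcases mem_insert.1 hx with rfl | h1
    · exact (mem_sgl.1 hs).1
    · exact dbl_near (hF.1 h1)
  have hd' : Disjoint (({h} : Finset P).biUnion (ns i)) (F.biUnion (ns i)) := by
    rw [singleton_biUnion]
    exact hd.symm
  have hins : insert h F = {h} ∪ F := rfl
  have hc := bi_insert_card hs hF hd
  rw [KK_G1 H hi hG (by rw [hins]; exact Sds_union Sds_single (Sds_F hF) hd')
    (by rw [card_insert_of_notMem hhF]; exact hn) (by omega)]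
  have h1 := sig_union (i := i) (disjoint_singleton_left.2 hhF) hd'
  rw [sig_single hs, sig_F hF] at h1
  rw [hins]
  unfold sig at h1
  rw [h1]
  ring

/-- value at a family with an overlapping pair -/
lemma KK_p (H : Gr P r) (hi : i ≤ r) {p F : Finset P} (hp : p ∈ OP P i) (hF : Dj i F)
    (hd : Disjoint (F.biUnion (ns i)) (p.biUnion (ns i))) {n : ℕ} (hn : F.card + 2 = n) :
    KK i n (indK (p ∪ F)) = osg i p * eps i F := by
  have hpd : Disjoint p F := (disj_of_sites hF.1 hd).symm
  have hp' := mem_OP.1 hp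
  have hpn : p ⊆ near P i := by
    rcases hp'.1 with h | h
    · exact (h.trans subset_union_left).trans dbl_near
    · exact (h.trans subset_union_right).trans dbl_near
  have hG : p ∪ F ⊆ near P i := union_subset hpn (hF.1.trans dbl_near)
  have hc : ((p ∪ F).biUnion (ns i)).card = 3 + 2 * F.card := by
    rw [union_biUnion, card_union_of_disjoint hd.symm, hp'.2.2, Dj_bi_card hF (Subset.refl F)]
  rw [KK_G1 H hi hG (Sds_union (Sds_pair hp) (Sds_F hF) hd.symm)
    (by rw [card_union_of_disjoint hpd, hp'.2.1]; omega) (by omega)]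
  have h1 := sig_union (i := i) hpd hd.symm
  rw [sig_pair hp, sig_F hF] at h1
  unfold sig at h1
  exact h1

/-- sum over the near sets of size `n` -/
theorem near_sum (H : Gr P r) (hi : i ≤ r) {n : ℕ} (hn : 2 ≤ n) (hnb : n ≤ (lv P i).card) :
    ∑ G ∈ (near P i).powersetCard n, KK i n (indK G) =
      ∑ F ∈ FF P i n, eps i F * (3 * ((F ∩ dbU P i).card : ℤ) - 2 * n) +
      ∑ h ∈ sgl P i, ∑ F ∈ FFa P i (n - 1) (ns i h), -eps i F +
      ∑ p ∈ OP P i, ∑ F ∈ FFa P i (n - 2) (p.biUnion (ns i)), osg i p * eps i F := by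
  classical
  set I1 := ((sgl P i).sigma (fun h => FFa P i (n - 1) (ns i h))).image
    (fun q => insert q.1 q.2) with hI1
  set I2 := ((OP P i).sigma (fun p => FFa P i (n - 2) (p.biUnion (ns i)))).image
    (fun q => q.1 ∪ q.2) with hI2
  have m1 : ∀ G, G ∈ I1 ↔ ∃ h F, h ∈ sgl P i ∧ Dj i F ∧ F.card + 1 = n ∧
      Disjoint (F.biUnion (ns i)) (ns i h) ∧ G = insert h F := by
    intro G
    rw [hI1, mem_image]
    constructor
    · rintro ⟨⟨h, F⟩, hq, rfl⟩
      rw [mem_sigma, mem_FFa] at hq
      have h9 : F.card = n - 1 := hq.2.2.1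
      have h10 : F.card + 1 = n := by omega
      exact ⟨h, F, hq.1, hq.2.1, h10, hq.2.2.2, rfl⟩
    · rintro ⟨h, F, a, b, c, d, rfl⟩
      have h9 : F.card = n - 1 := by omega
      exact ⟨⟨h, F⟩, mem_sigma.2 ⟨a, mem_FFa.2 ⟨b, h9, d⟩⟩, rfl⟩
  have m2 : ∀ G, G ∈ I2 ↔ ∃ p F, p ∈ OP P i ∧ Dj i F ∧ F.card + 2 = n ∧
      Disjoint (F.biUnion (ns i)) (p.biUnion (ns i)) ∧ G = p ∪ F := by
    intro G
    rw [hI2, mem_image]
    constructor
    · rintro ⟨⟨h, F⟩, hq, rfl⟩
      rw [mem_sigma, mem_FFa] at hq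
      have h9 : F.card = n - 2 := hq.2.2.1
      have h10 : F.card + 2 = n := by omega
      exact ⟨h, F, hq.1, hq.2.1, h10, hq.2.2.2, rfl⟩
    · rintro ⟨h, F, a, b, c, d, rfl⟩
      have h9 : F.card = n - 2 := by omega
      exact ⟨⟨h, F⟩, mem_sigma.2 ⟨a, mem_FFa.2 ⟨b, h9, d⟩⟩, rfl⟩
  have dA : Disjoint (FF P i n) I1 := by
    rw [disjoint_left]
    intro G h1 h2
    rw [mem_FF] at h1
    obtain ⟨h, F, a, b, c, d, rfl⟩ := (m1 G).1 h2
    exact sgl_not_dbl a (h1.1.1 (mem_insert_self _ _))
  have dB : Disjoint (FF P i n ∪ I1) I2 := by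
    rw [disjoint_left]
    intro G h1 h2
    obtain ⟨p, F, a, b, c, d, rfl⟩ := (m2 G).1 h2
    have hp := mem_OP.1 a
    rcases mem_union.1 h1 with h3 | h3
    · rw [mem_FF] at h3
      have := Dj_bi_card h3.1 (subset_union_left (s₁ := p) (s₂ := F))
      rw [hp.2.2, hp.2.1] at this
      omega
    · obtain ⟨h, F', a', b', c', d', e'⟩ := (m1 _).1 h3
      have h4 : h ∈ p ∪ F := by
        rw [e']
        exact mem_insert_self _ _
      apply sgl_not_dbl a'
      rcases mem_union.1 h4 with h5 | h5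
      · rcases hp.1 with h6 | h6
        · exact mem_union_left _ (h6 h5)
        · exact mem_union_right _ (h6 h5)
      · exact b.1 h5
  have hsub : (FF P i n ∪ I1) ∪ I2 ⊆ (near P i).powersetCard n := by
    intro G hG
    rw [mem_powersetCard]
    rcases mem_union.1 hG with h1 | h1
    · rcases mem_union.1 h1 with h2 | h2
      · rw [mem_FF] at h2
        exact ⟨h2.1.1.trans dbl_near, h2.2⟩
      · obtain ⟨h, F, a, b, c, d, rfl⟩ := (m1 G).1 h2
        refine ⟨?_, ?_⟩
        · intro x hx
          rcases mem_insert.1 hx with rfl | h3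
          · exact (mem_sgl.1 a).1
          · exact dbl_near (b.1 h3)
        · rw [card_insert_of_notMem (fun h3 => sgl_not_dbl a (b.1 h3))]
          exact c
    · obtain ⟨p, F, a, b, c, d, rfl⟩ := (m2 G).1 h1
      have hp := mem_OP.1 a
      refine ⟨union_subset ?_ (b.1.trans dbl_near), ?_⟩
      · rcases hp.1 with h | h
        · exact (h.trans subset_union_left).trans dbl_near
        · exact (h.trans subset_union_right).trans dbl_near
      · rw [card_union_of_disjoint (disj_of_sites b.1 d).symm, hp.2.1]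
        omega
  rw [← sum_subset hsub, sum_union dB, sum_union dA]
  · congr 1
    · congr 1
      · refine sum_congr rfl fun F hF => ?_
        rw [mem_FF] at hF
        exact KK_F H hi hF.1 hF.2
      · rw [sum_sigma' (sgl P i) (fun h => FFa P i (n - 1) (ns i h)) (fun _ F => -eps i F), hI1,
          sum_image]
        · refine sum_congr rfl fun q hq => ?_
          obtain ⟨h, F⟩ := q
          rw [mem_sigma, mem_FFa] at hq
          exact KK_h H hi hq.1 hq.2.1 hq.2.2.2 (by have := hq.2.2.1; simp only at this; omega)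
        · rintro ⟨h, F⟩ hq ⟨h', F'⟩ hq' he
          rw [mem_coe, mem_sigma, mem_FFa] at hq hq'
          simp only at hq hq' he
          have e1 : h = h' := by
            have h1 : h ∈ insert h' F' := by
              rw [← he]
              exact mem_insert_self _ _
            rcases mem_insert.1 h1 with h2 | h2
            · exact h2
            · exact absurd (hq'.2.1.1 h2) (sgl_not_dbl hq.1)
          subst e1
          have e2 : F = F' := by
            rw [← erase_insert (a := h) (s := F) (fun h1 => sgl_not_dbl hq.1 (hq.2.1.1 h1)), he,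
              erase_insert (fun h1 => sgl_not_dbl hq.1 (hq'.2.1.1 h1))]
          rw [e2]
    · rw [sum_sigma' (OP P i) (fun p => FFa P i (n - 2) (p.biUnion (ns i)))
        (fun p F => osg i p * eps i F), hI2, sum_image]
      · refine sum_congr rfl fun q hq => ?_
        obtain ⟨p, F⟩ := q
        rw [mem_sigma, mem_FFa] at hq
        exact KK_p H hi hq.1 hq.2.1 hq.2.2.2 (by have := hq.2.2.1; simp only at this; omega)
      · rintro ⟨p, F⟩ hq ⟨p', F'⟩ hq' he
        rw [mem_coe, mem_sigma, mem_FFa] at hq hq'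
        simp only at hq hq' he
        have hp := mem_OP.1 hq.1
        have hp' := mem_OP.1 hq'.1
        have hsubp : p ⊆ p' := by
          obtain ⟨x, y, hxy, rfl⟩ := card_eq_two.1 hp.2.1
          have hx2 : x ∈ dbL P i ∪ dbU P i := by
            rcases hp.1 with h6 | h6
            · exact mem_union_left _ (h6 (by simp))
            · exact mem_union_right _ (h6 (by simp))
          have hy2 : y ∈ dbL P i ∪ dbU P i := by
            rcases hp.1 with h6 | h6
            · exact mem_union_left _ (h6 (by simp))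
            · exact mem_union_right _ (h6 (by simp))
          have hnd : ¬ Disjoint (ns i x) (ns i y) := by
            intro h1
            have h2 := hp.2.2
            rw [biUnion_insert, singleton_biUnion, card_union_of_disjoint h1, ns_card hx2,
              ns_card hy2] at h2
            omega
          have hx : x ∈ p' ∪ F' := by
            rw [← he]
            exact mem_union_left _ (by simp)
          have hy : y ∈ p' ∪ F' := by
            rw [← he]
            exact mem_union_left _ (by simp)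
          intro z hz
          rw [mem_insert, mem_singleton] at hz
          rcases mem_union.1 hx with hx1 | hx1 <;> rcases mem_union.1 hy with hy1 | hy1
          · rcases hz with rfl | rfl
            · exact hx1
            · exact hy1
          · exfalso
            apply hnd
            refine disjoint_of_subset_left (subset_biUnion_of_mem (ns i) hx1)
              (disjoint_of_subset_right (subset_biUnion_of_mem (ns i) hy1) hq'.2.2.2.symm)
          · exfalso
            apply hnd
            exact disjoint_of_subset_left (subset_biUnion_of_mem (ns i) hx1)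
              (disjoint_of_subset_right (subset_biUnion_of_mem (ns i) hy1) hq'.2.2.2)
          · exfalso
            exact hnd (hq'.2.1.2 x hx1 y hy1 hxy)
        have e1 : p = p' := eq_of_subset_of_card_le hsubp (by rw [hp.2.1, hp'.2.1])
        subst e1
        have e2 : F = F' := by
          have h1 := (disj_of_sites hq.2.1.1 hq.2.2.2)
          have h2 := (disj_of_sites hq'.2.1.1 hq'.2.2.2)
          rw [← union_sdiff_cancel_left h1.symm, he, union_sdiff_cancel_left h2.symm]
        rw [e2]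
  · intro G hG hnot
    rw [mem_powersetCard] at hG
    by_cases hS : Sds i G
    · by_cases hb : 2 * n ≤ (G.biUnion (ns i)).card + 1
      · exfalso
        apply hnot
        rcases near_cases H hi hG.1 hG.2 hS hb with h1 | h1 | h1
        · exact mem_union_left _ (mem_union_left _ (mem_FF.2 ⟨h1, hG.2⟩))
        · exact mem_union_left _ (mem_union_right _ ((m1 G).2 h1))
        · exact mem_union_right _ ((m2 G).2 h1)
      · exact KK_G2 H hi hG.1 hG.2 hnb (by omega)
    · exact KK_G_not H hi hG.1 hS n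

end T6N
end Pool.Agent.GaussPoset.Win

end

/-! From `Pool.Agent.W_448t6_h94.TsI` -/

section

/-! The identity at energy `n` (MP_448cb3_co). -/

namespace Pool.Agent.GaussPoset.Win
namespace T6N

set_option linter.unusedSectionVars false

open Finset

universe u

variable {P : Type u} [Fintype P] [PartialOrder P] [DecidableEq P] {r : ℕ} {i : ℕ}

/-- the signature of a configuration -/
def Sg1 (i : ℕ) (e : P → ℕ) : Prop := ∃ v, lev v = i ∧ 0 < e v
def Sg2 (i : ℕ) (e : P → ℕ) : Prop := ∃ v, lev v = i + 2 ∧ 0 < e v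
def Sg3 (i : ℕ) (e : P → ℕ) : Prop := ∃ v, lev v + 2 = i ∧ 0 < e v
def Sg4 (e : P → ℕ) : Prop := ∃ v, e v = 2

lemma sgT1 {e : P → ℕ} (h : T1 i e) : ¬ Sg1 i e ∧ ¬ Sg2 i e ∧ ¬ Sg3 i e ∧ ¬ Sg4 e := by
  obtain ⟨G, hG, rfl⟩ := h
  have key : ∀ x, 0 < indK G x → lev x = i + 1 ∨ lev x + 1 = i := fun x hx =>
    mem_near.1 (hG (indK_pos.1 hx))
  refine ⟨?_, ?_, ?_, ?_⟩
  · rintro ⟨v, a, b⟩
    have := key v b
    omega
  · rintro ⟨v, a, b⟩
    have := key v b
    omega
  · rintro ⟨v, a, b⟩
    have := key v b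
    omega
  · rintro ⟨v, a⟩
    have := indK_le G v
    omega

lemma sgT2 {e : P → ℕ} (h : T2 i e) : ¬ Sg1 i e ∧ ¬ Sg2 i e ∧ ¬ Sg3 i e ∧ Sg4 e := by
  obtain ⟨F, w, hF, hw, rfl⟩ := h
  have key : ∀ x, 0 < (indK F + sg w) x → lev x = i + 1 ∨ lev x + 1 = i := by
    intro x hx
    rw [Pi.add_apply] at hx
    by_cases h1 : x = w
    · subst h1
      exact Dj_lev hF hw
    · rw [sg_ne h1, add_zero] at hx
      exact Dj_lev hF (indK_pos.1 hx)
  refine ⟨?_, ?_, ?_, ⟨w, ?_⟩⟩
  · rintro ⟨v, a, b⟩
    have := key v b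
    omega
  · rintro ⟨v, a, b⟩
    have := key v b
    omega
  · rintro ⟨v, a, b⟩
    have := key v b
    omega
  · rw [Pi.add_apply, indK_of_mem hw, sg_self]

lemma sgT3 {e : P → ℕ} (h : T3 i e) : Sg1 i e ∧ ¬ Sg2 i e ∧ ¬ Sg3 i e ∧ ¬ Sg4 e := by
  obtain ⟨v0, G, hv, hG, rfl⟩ := h
  have key : ∀ x, 0 < indK (insert v0 G) x → lev x = i + 1 ∨ lev x + 1 = i ∨ lev x = i := by
    intro x hx
    rcases mem_insert.1 (indK_pos.1 hx) with rfl | h1
    · exact Or.inr (Or.inr (mem_lv.1 hv))
    · have := mem_near.1 (dbl_near (hG h1))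
      tauto
  refine ⟨⟨v0, mem_lv.1 hv, ?_⟩, ?_, ?_, ?_⟩
  · rw [indK_pos]
    exact mem_insert_self _ _
  · rintro ⟨v, a, b⟩
    have := key v b
    omega
  · rintro ⟨v, a, b⟩
    have := key v b
    omega
  · rintro ⟨v, a⟩
    have := indK_le (insert v0 G) v
    omega

lemma sgT4 {e : P → ℕ} (h : T4 i e) : ¬ Sg1 i e ∧ Sg2 i e ∧ ¬ Sg3 i e ∧ ¬ Sg4 e := by
  obtain ⟨z, F, hz, hzF, hF, rfl⟩ := h
  have key : ∀ x, 0 < indK (insert z F) x → lev x = i + 1 ∨ lev x + 1 = i ∨ lev x = i + 2 := by
    intro x hx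
    rcases mem_insert.1 (indK_pos.1 hx) with rfl | h1
    · exact Or.inr (Or.inr hz)
    · have := Dj_lev hF h1
      tauto
  refine ⟨?_, ⟨z, hz, ?_⟩, ?_, ?_⟩
  · rintro ⟨v, a, b⟩
    have := key v b
    omega
  · rw [indK_pos]
    exact mem_insert_self _ _
  · rintro ⟨v, a, b⟩
    have := key v b
    omega
  · rintro ⟨v, a⟩
    have := indK_le (insert z F) v
    omega

lemma sgT5 {e : P → ℕ} (h : T5 i e) : ¬ Sg1 i e ∧ Sg2 i e ∧ ¬ Sg3 i e ∧ Sg4 e := by
  obtain ⟨z, F, hz, hz2, hzF, hF, rfl⟩ := h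
  have key : ∀ x, 0 < (indK (insert z F) + sg z) x →
      lev x = i + 1 ∨ lev x + 1 = i ∨ lev x = i + 2 := by
    intro x hx
    rw [Pi.add_apply] at hx
    by_cases h1 : x = z
    · subst h1
      exact Or.inr (Or.inr hz)
    · rw [sg_ne h1, add_zero, ind_ins_ne h1] at hx
      have := Dj_lev hF (indK_pos.1 hx)
      tauto
  have hval : (indK (insert z F) + sg z) z = 2 := by
    rw [Pi.add_apply, indK_of_mem (mem_insert_self _ _), sg_self]
  refine ⟨?_, ⟨z, hz, by omega⟩, ?_, ⟨z, hval⟩⟩
  · rintro ⟨v, a, b⟩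
    have := key v b
    omega
  · rintro ⟨v, a, b⟩
    have := key v b
    omega

lemma sgT6 {e : P → ℕ} (h : T6 i e) : ¬ Sg1 i e ∧ ¬ Sg2 i e ∧ Sg3 i e ∧ ¬ Sg4 e := by
  obtain ⟨z, F, hz, hz1, hzF, hF, rfl⟩ := h
  have key : ∀ x, 0 < indK (insert z F) x → lev x = i + 1 ∨ lev x + 1 = i ∨ lev x + 2 = i := by
    intro x hx
    rcases mem_insert.1 (indK_pos.1 hx) with rfl | h1
    · exact Or.inr (Or.inr hz)
    · have := Dj_lev hF h1
      tauto
  refine ⟨?_, ?_, ⟨z, hz, ?_⟩, ?_⟩
  · rintro ⟨v, a, b⟩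
    have := key v b
    omega
  · rintro ⟨v, a, b⟩
    have := key v b
    omega
  · rw [indK_pos]
    exact mem_insert_self _ _
  · rintro ⟨v, a⟩
    have := indK_le (insert z F) v
    omega

open Classical in
/-- splitting into the six types -/
lemma split6 (s : Finset (P → ℕ)) (f : (P → ℕ) → ℤ)
    (h0 : ∀ e ∈ s, ¬ (T1 i e ∨ T2 i e ∨ T3 i e ∨ T4 i e ∨ T5 i e ∨ T6 i e) → f e = 0) :
    ∑ e ∈ s, f e = ∑ e ∈ s.filter (T1 i), f e + ∑ e ∈ s.filter (T2 i), f e +
      ∑ e ∈ s.filter (T3 i), f e + ∑ e ∈ s.filter (T4 i), f e +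
      ∑ e ∈ s.filter (T5 i), f e + ∑ e ∈ s.filter (T6 i), f e := by
  simp only [sum_filter]
  rw [← sum_add_distrib, ← sum_add_distrib, ← sum_add_distrib, ← sum_add_distrib,
    ← sum_add_distrib]
  refine sum_congr rfl fun e he => ?_
  by_cases h1 : T1 i e
  · have a1 := sgT1 h1
    have a2 : ¬ T2 i e := fun h => by have := sgT2 h; tauto
    have a3 : ¬ T3 i e := fun h => by have := sgT3 h; tauto
    have a4 : ¬ T4 i e := fun h => by have := sgT4 h; tauto
    have a5 : ¬ T5 i e := fun h => by have := sgT5 h; tauto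
    have a6 : ¬ T6 i e := fun h => by have := sgT6 h; tauto
    rw [if_pos h1, if_neg a2, if_neg a3, if_neg a4, if_neg a5, if_neg a6]
    ring
  rw [if_neg h1]
  by_cases h2 : T2 i e
  · have a1 := sgT2 h2
    have a3 : ¬ T3 i e := fun h => by have := sgT3 h; tauto
    have a4 : ¬ T4 i e := fun h => by have := sgT4 h; tauto
    have a5 : ¬ T5 i e := fun h => by have := sgT5 h; tauto
    have a6 : ¬ T6 i e := fun h => by have := sgT6 h; tauto
    rw [if_pos h2, if_neg a3, if_neg a4, if_neg a5, if_neg a6]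
    ring
  rw [if_neg h2]
  by_cases h3 : T3 i e
  · have a1 := sgT3 h3
    have a4 : ¬ T4 i e := fun h => by have := sgT4 h; tauto
    have a5 : ¬ T5 i e := fun h => by have := sgT5 h; tauto
    have a6 : ¬ T6 i e := fun h => by have := sgT6 h; tauto
    rw [if_pos h3, if_neg a4, if_neg a5, if_neg a6]
    ring
  rw [if_neg h3]
  by_cases h4 : T4 i e
  · have a1 := sgT4 h4
    have a5 : ¬ T5 i e := fun h => by have := sgT5 h; tauto
    have a6 : ¬ T6 i e := fun h => by have := sgT6 h; tauto
    rw [if_pos h4, if_neg a5, if_neg a6]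
    ring
  rw [if_neg h4]
  by_cases h5 : T5 i e
  · have a1 := sgT5 h5
    have a6 : ¬ T6 i e := fun h => by have := sgT6 h; tauto
    rw [if_pos h5, if_neg a6]
    ring
  rw [if_neg h5]
  by_cases h6 : T6 i e
  · rw [if_pos h6]
    ring
  rw [if_neg h6, h0 e he (by tauto)]
  ring

lemma mem_anti {n : ℕ} {e : P → ℕ} : e ∈ (univ : Finset P).piAntidiag n ↔ ∑ x, e x = n := by
  rw [mem_piAntidiag]
  constructor
  · exact fun h => h.1
  · exact fun h => ⟨h, fun x _ => mem_univ x⟩

lemma sum_ind_sg (F : Finset P) (w : P) : ∑ x, (indK F + sg w) x = F.card + 1 := by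
  have h1 : ∑ x, (indK F + sg w) x = ∑ x, indK F x + ∑ x, sg w x := by
    rw [← sum_add_distrib]
    rfl
  have h2 : ∑ x, sg w x = 1 := by
    unfold sg
    rw [Finset.sum_pi_single']
    simp
  rw [h1, sum_indK, h2]

open Classical in
/-- the sum over all configurations of energy `n` -/
lemma total (H : Gr P r) (hi : i ≤ r) (h3 : ∀ x : P, lev x + 2 = i → dn i x ≤ 3) {n : ℕ}
    (hn : 2 ≤ n) (hnb : n ≤ (lv P i).card) :
    ∑ e ∈ ((univ : Finset P).piAntidiag n).filter (T1 i), KK i n e +
      ∑ e ∈ ((univ : Finset P).piAntidiag n).filter (T2 i), KK i n e +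
      ∑ e ∈ ((univ : Finset P).piAntidiag n).filter (T3 i), KK i n e +
      ∑ e ∈ ((univ : Finset P).piAntidiag n).filter (T4 i), KK i n e +
      ∑ e ∈ ((univ : Finset P).piAntidiag n).filter (T5 i), KK i n e +
      ∑ e ∈ ((univ : Finset P).piAntidiag n).filter (T6 i), KK i n e = 0 := by
  rw [← split6]
  · unfold KK
    rw [← map_sum]
    exact cf_dvd (by omega) (dvd_sum_trm H hi n)
  · intro e he hnot
    by_cases hc : Cheap (n - 2) i e
    · unfold KK
      exact cf_dvd (by omega) (dvd_trm_of_cheap hc)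
    · exfalso
      apply hnot
      rw [mem_anti] at he
      unfold Cheap at hc
      push Not at hc
      obtain ⟨hA, hB, hD, h5⟩ := hc
      exact cls1 H hi h3 hA hB hD (by omega)

end T6N
end Pool.Agent.GaussPoset.Win

end

/-! From `Pool.Agent.W_448t6_h94.TsJ` -/

section

/-! The identity at energy `n`, parameters (MP_448cb3_co). -/

namespace Pool.Agent.GaussPoset.Win
namespace T6N

set_option linter.unusedSectionVars false

open Finset

universe u

variable {P : Type u} [Fintype P] [PartialOrder P] [DecidableEq P] {r : ℕ} {i : ℕ}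

open Classical in
/-- families of size `k` with one site removed -/
noncomputable def SV (P : Type u) [Fintype P] [PartialOrder P] [DecidableEq P] (i k : ℕ) (v : P) :
    Finset (Finset P) := ((dbL P i ∪ dbU P i).powersetCard k).filter (fun G => SvF i v G)

lemma mem_SV {k : ℕ} {v : P} {G : Finset P} : G ∈ SV P i k v ↔ SvF i v G ∧ G.card = k := by
  classical
  unfold SV
  rw [mem_filter, mem_powersetCard]
  constructor
  · rintro ⟨⟨_, h2⟩, h3⟩
    exact ⟨h3, h2⟩
  · rintro ⟨h1, h2⟩
    exact ⟨⟨h1.1, h2⟩, h1⟩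

/-- families of size `k` containing the set `T` -/
noncomputable def FFc (P : Type u) [Fintype P] [PartialOrder P] [DecidableEq P] (i k : ℕ)
    (T : Finset P) : Finset (Finset P) := (FF P i k).filter (fun F => T ⊆ F)

lemma mem_FFc {k : ℕ} {T F : Finset P} : F ∈ FFc P i k T ↔ Dj i F ∧ F.card = k ∧ T ⊆ F := by
  unfold FFc
  rw [mem_filter, mem_FF, and_assoc]

open Classical in
lemma par1 (n : ℕ) : ∑ e ∈ ((univ : Finset P).piAntidiag n).filter (T1 i), KK i n e =
    ∑ G ∈ (near P i).powersetCard n, KK i n (indK G) := by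
  have h : ((univ : Finset P).piAntidiag n).filter (T1 i) =
      ((near P i).powersetCard n).image indK := by
    ext e
    rw [mem_filter, mem_anti, mem_image]
    constructor
    · rintro ⟨h1, G, hG, rfl⟩
      rw [sum_indK] at h1
      exact ⟨G, mem_powersetCard.2 ⟨hG, h1⟩, rfl⟩
    · rintro ⟨G, hG, rfl⟩
      rw [mem_powersetCard] at hG
      exact ⟨by rw [sum_indK, hG.2], G, hG.1, rfl⟩
  rw [h, sum_image (fun F _ G _ h => indK_inj h)]

lemma supp_F2 {F : Finset P} {w : P} (hw : w ∈ F) (x : P) : 0 < (indK F + sg w) x ↔ x ∈ F := by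
  rw [Pi.add_apply]
  by_cases hx : x = w
  · subst hx
    rw [sg_self]
    constructor
    · exact fun _ => hw
    · intro _
      omega
  · rw [sg_ne hx, add_zero, indK_pos]

lemma F2_inj {F F' : Finset P} {w w' : P} (hw : w ∈ F) (hw' : w' ∈ F')
    (h : indK F + sg w = indK F' + sg w') : F = F' ∧ w = w' := by
  constructor
  · ext x
    rw [← supp_F2 hw x, ← supp_F2 hw' x, h]
  · by_contra hne
    have h1 := congrFun h w
    rw [Pi.add_apply, Pi.add_apply, sg_self, indK_of_mem hw, sg_ne hne] at h1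
    have := indK_le F' w
    omega

open Classical in
lemma par2 (H : Gr P r) (hi : i ≤ r) {n : ℕ} (hn : 2 ≤ n) :
    ∑ e ∈ ((univ : Finset P).piAntidiag n).filter (T2 i), KK i n e = 0 := by
  have h : ((univ : Finset P).piAntidiag n).filter (T2 i) =
      ((FF P i (n - 1)).sigma (fun F => F)).image (fun q => indK q.1 + sg q.2) := by
    ext e
    rw [mem_filter, mem_anti, mem_image]
    constructor
    · rintro ⟨h1, F, w, hF, hw, rfl⟩
      rw [sum_ind_sg] at h1
      have h9 : F.card = n - 1 := by omega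
      exact ⟨⟨F, w⟩, mem_sigma.2 ⟨mem_FF.2 ⟨hF, h9⟩, hw⟩, rfl⟩
    · rintro ⟨⟨F, w⟩, hq, rfl⟩
      rw [mem_sigma, mem_FF] at hq
      have h9 : F.card = n - 1 := hq.1.2
      exact ⟨by rw [sum_ind_sg]; omega, F, w, hq.1.1, hq.2, rfl⟩
  rw [h, sum_image, ← sum_sigma' (FF P i (n - 1)) (fun F => F) (fun F w => KK i n (indK F + sg w))]
  · have h2 : ∀ F ∈ FF P i (n - 1), ∑ w ∈ F, KK i n (indK F + sg w) =
        ((n - 1 : ℕ) : ℤ) * (-1) ^ (F ∩ dbU P i).card := by
      intro F hF
      rw [mem_FF] at hF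
      have h3 : ∀ w ∈ F, KK i n (indK F + sg w) = (-1) ^ (F ∩ dbU P i).card := by
        intro w hw
        unfold KK
        rw [trm_F2 H hi hF.1 hw, ← eps_eq]
        exact KK_F1 H hi hF.1 (by omega) ⟨w, hw⟩
      rw [sum_congr rfl h3, sum_const, hF.2, nsmul_eq_mul]
    rw [sum_congr rfl h2, ← mul_sum, kk H hi (by omega), mul_zero]
  · rintro ⟨F, w⟩ hq ⟨F', w'⟩ hq' he
    rw [mem_coe, mem_sigma] at hq hq'
    obtain ⟨e1, e2⟩ := F2_inj (show w ∈ F from hq.2) (show w' ∈ F' from hq'.2) he
    rw [e1, e2]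

open Classical in
lemma par3 (H : Gr P r) (hi : i ≤ r) {n : ℕ} (hn : 2 ≤ n) (hnb : n ≤ (lv P i).card) :
    ∑ e ∈ ((univ : Finset P).piAntidiag n).filter (T3 i), KK i n e =
      ∑ v ∈ lv P i, ∑ G ∈ SV P i (n - 1) v, ∏ x ∈ G, sgv i v x := by
  have hnot : ∀ v ∈ lv P i, ∀ G ⊆ dbL P i ∪ dbU P i, v ∉ G := by
    intro v hv G hG hvG
    have h1 := mem_near.1 (dbl_near (hG hvG))
    rw [mem_lv] at hv
    omega
  have h : ((univ : Finset P).piAntidiag n).filter (T3 i) =
      ((lv P i) ×ˢ (dbL P i ∪ dbU P i).powersetCard (n - 1)).image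
        (fun q => indK (insert q.1 q.2)) := by
    ext e
    rw [mem_filter, mem_anti, mem_image]
    constructor
    · rintro ⟨h1, v, G, hv, hG, rfl⟩
      rw [sum_indK, card_insert_of_notMem (hnot v hv G hG)] at h1
      exact ⟨⟨v, G⟩, mem_product.2 ⟨hv, mem_powersetCard.2 ⟨hG, by simp only; omega⟩⟩, rfl⟩
    · rintro ⟨⟨v, G⟩, hq, rfl⟩
      rw [mem_product, mem_powersetCard] at hq
      obtain ⟨hv, hG, hc⟩ := hq
      simp only at hv hG hc
      exact ⟨by rw [sum_indK, card_insert_of_notMem (hnot v hv G hG)]; omega, v, G, hv, hG, rfl⟩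
  rw [h, sum_image, sum_product]
  · refine sum_congr rfl fun v hv => ?_
    unfold SV
    rw [sum_filter]
    refine sum_congr rfl fun G hG => ?_
    rw [mem_powersetCard] at hG
    have h1 := KK_site (n := n) H hi hv hG.1 (by omega) hnb
    split_ifs with h2
    · exact h1.1 h2
    · exact h1.2 h2
  · rintro ⟨v, G⟩ hq ⟨v', G'⟩ hq' he
    rw [mem_coe, mem_product, mem_powersetCard] at hq hq'
    obtain ⟨hv, hG, hc⟩ := hq
    obtain ⟨hv', hG', hc'⟩ := hq'
    simp only at hv hG hc hv' hG' hc' he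
    have h1 := indK_inj he
    have e1 : v = v' := by
      have h2 : v ∈ insert v' G' := by
        rw [← h1]
        exact mem_insert_self _ _
      rcases mem_insert.1 h2 with h3 | h3
      · exact h3
      · exact absurd h3 (hnot v hv G' hG')
    subst e1
    have e2 : G = G' := by
      rw [← erase_insert (hnot v hv G hG), h1, erase_insert (hnot v hv G' hG')]
    rw [e2]

open Classical in
lemma par4 (H : Gr P r) (hi : i ≤ r) {n : ℕ} (hn : 2 ≤ n) :
    ∑ e ∈ ((univ : Finset P).piAntidiag n).filter (T4 i), KK i n e =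
      ∑ z ∈ lv P (i + 2), ∑ F ∈ FFc P i (n - 1) (uc z), eps i F := by
  have hnot : ∀ z ∈ lv P (i + 2), ∀ F, Dj i F → z ∉ F := by
    intro z hz F hF hzF
    have h1 := Dj_lev hF hzF
    rw [mem_lv] at hz
    omega
  have h : ((univ : Finset P).piAntidiag n).filter (T4 i) =
      ((lv P (i + 2)).sigma (fun z => FFc P i (n - 1) (uc z))).image
        (fun q => indK (insert q.1 q.2)) := by
    ext e
    rw [mem_filter, mem_anti, mem_image]
    constructor
    · rintro ⟨h1, z, F, hz, hzF, hF, rfl⟩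
      rw [sum_indK, card_insert_of_notMem (hnot z (mem_lv.2 hz) F hF)] at h1
      have h9 : F.card = n - 1 := by omega
      exact ⟨⟨z, F⟩, mem_sigma.2 ⟨mem_lv.2 hz, mem_FFc.2 ⟨hF, h9, hzF⟩⟩, rfl⟩
    · rintro ⟨⟨z, F⟩, hq, rfl⟩
      rw [mem_sigma, mem_FFc] at hq
      obtain ⟨hz, hF, hc, hzF⟩ := hq
      simp only at hz hF hc hzF
      exact ⟨by rw [sum_indK, card_insert_of_notMem (hnot z hz F hF)]; omega, z, F, mem_lv.1 hz,
        hzF, hF, rfl⟩
  rw [h, sum_image, sum_sigma]
  · refine sum_congr rfl fun z hz => sum_congr rfl fun F hF => ?_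
    rw [mem_FFc] at hF
    rw [mem_lv] at hz
    unfold KK
    rw [trm_F4 H hF.1 hz hF.2.2]
    refine KK_F1 H hi hF.1 (by omega) ?_
    obtain ⟨y, hy⟩ := uc_nonempty H (x := z) (by omega)
    exact ⟨y, hF.2.2 hy⟩
  · rintro ⟨v, G⟩ hq ⟨v', G'⟩ hq' he
    rw [mem_coe, mem_sigma, mem_FFc] at hq hq'
    obtain ⟨hv, hG, hc, _⟩ := hq
    obtain ⟨hv', hG', hc', _⟩ := hq'
    simp only at hv hG hc hv' hG' hc' he
    have h1 := indK_inj he
    have e1 : v = v' := by
      have h2 : v ∈ insert v' G' := by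
        rw [← h1]
        exact mem_insert_self _ _
      rcases mem_insert.1 h2 with h3 | h3
      · exact h3
      · exact absurd h3 (hnot v hv G' hG')
    subst e1
    have e2 : G = G' := by
      rw [← erase_insert (hnot v hv G hG), h1, erase_insert (hnot v hv G' hG')]
    rw [e2]

open Classical in
lemma par5 (H : Gr P r) (hi : i ≤ r) {n : ℕ} (hn : 2 ≤ n) :
    ∑ e ∈ ((univ : Finset P).piAntidiag n).filter (T5 i), KK i n e =
      ∑ z ∈ (lv P (i + 2)).filter (fun z => (uc z).card = 2),
        ∑ F ∈ FFc P i (n - 2) (uc z), eps i F := by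
  have hnot : ∀ z : P, lev z = i + 2 → ∀ F, Dj i F → z ∉ F := by
    intro z hz F hF hzF
    have h1 := Dj_lev hF hzF
    omega
  have h : ((univ : Finset P).piAntidiag n).filter (T5 i) =
      (((lv P (i + 2)).filter (fun z => (uc z).card = 2)).sigma
        (fun z => FFc P i (n - 2) (uc z))).image (fun q => indK (insert q.1 q.2) + sg q.1) := by
    ext e
    rw [mem_filter, mem_anti, mem_image]
    constructor
    · rintro ⟨h1, z, F, hz, hz2, hzF, hF, rfl⟩
      rw [sum_ind_sg, card_insert_of_notMem (hnot z hz F hF)] at h1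
      have h9 : F.card = n - 2 := by omega
      exact ⟨⟨z, F⟩, mem_sigma.2 ⟨mem_filter.2 ⟨mem_lv.2 hz, hz2⟩, mem_FFc.2 ⟨hF, h9, hzF⟩⟩, rfl⟩
    · rintro ⟨⟨z, F⟩, hq, rfl⟩
      rw [mem_sigma, mem_FFc, mem_filter, mem_lv] at hq
      obtain ⟨⟨hz, hz2⟩, hF, hc, hzF⟩ := hq
      simp only at hz hF hc hzF hz2
      have h8 := card_le_card hzF
      exact ⟨by rw [sum_ind_sg, card_insert_of_notMem (hnot z hz F hF)]; omega, z, F, hz, hz2,
        hzF, hF, rfl⟩
  rw [h, sum_image, sum_sigma]
  · refine sum_congr rfl fun z hz => sum_congr rfl fun F hF => ?_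
    rw [mem_FFc] at hF
    rw [mem_filter, mem_lv] at hz
    have h8 := card_le_card hF.2.2
    exact KK_F5 H hi hF.1 hz.1 hz.2 hF.2.2 (by omega)
  · rintro ⟨v, G⟩ hq ⟨v', G'⟩ hq' he
    rw [mem_coe, mem_sigma, mem_FFc, mem_filter, mem_lv] at hq hq'
    obtain ⟨⟨hv, _⟩, hG, hc, _⟩ := hq
    obtain ⟨⟨hv', _⟩, hG', hc', _⟩ := hq'
    simp only at hv hG hc hv' hG' hc' he
    obtain ⟨h1, e1⟩ := F2_inj (mem_insert_self _ _) (mem_insert_self _ _) he
    subst e1
    have e2 : G = G' := by
      rw [← erase_insert (hnot v hv G hG), h1, erase_insert (hnot v hv G' hG')]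
    rw [e2]

open Classical in
lemma par6 (H : Gr P r) (hi : i ≤ r) {n : ℕ} (hn : 2 ≤ n) :
    ∑ e ∈ ((univ : Finset P).piAntidiag n).filter (T6 i), KK i n e =
      ∑ z ∈ (lU P i 2).filter (fun z => (dc z).card = 1),
        ∑ F ∈ FFc P i (n - 1) (dc z), eps i F := by
  have hnot : ∀ z : P, lev z + 2 = i → ∀ F, Dj i F → z ∉ F := by
    intro z hz F hF hzF
    have h1 := Dj_lev hF hzF
    omega
  have h : ((univ : Finset P).piAntidiag n).filter (T6 i) =
      (((lU P i 2).filter (fun z => (dc z).card = 1)).sigma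
        (fun z => FFc P i (n - 1) (dc z))).image (fun q => indK (insert q.1 q.2)) := by
    ext e
    rw [mem_filter, mem_anti, mem_image]
    constructor
    · rintro ⟨h1, z, F, hz, hz2, hzF, hF, rfl⟩
      rw [sum_indK, card_insert_of_notMem (hnot z hz F hF)] at h1
      have h9 : F.card = n - 1 := by omega
      exact ⟨⟨z, F⟩, mem_sigma.2 ⟨mem_filter.2 ⟨mem_lU.2 hz, hz2⟩, mem_FFc.2 ⟨hF, h9, hzF⟩⟩, rfl⟩
    · rintro ⟨⟨z, F⟩, hq, rfl⟩
      rw [mem_sigma, mem_FFc, mem_filter, mem_lU] at hq
      obtain ⟨⟨hz, hz2⟩, hF, hc, hzF⟩ := hq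
      simp only at hz hF hc hzF hz2
      exact ⟨by rw [sum_indK, card_insert_of_notMem (hnot z hz F hF)]; omega, z, F, hz, hz2,
        hzF, hF, rfl⟩
  rw [h, sum_image, sum_sigma]
  · refine sum_congr rfl fun z hz => sum_congr rfl fun F hF => ?_
    rw [mem_FFc] at hF
    rw [mem_filter, mem_lU] at hz
    unfold KK
    rw [trm_F6 H hi hF.1 hz.1 hF.2.2]
    refine KK_F1 H hi hF.1 (by omega) ?_
    obtain ⟨y, hy⟩ := dc_nonempty H (x := z) (by omega)
    exact ⟨y, hF.2.2 hy⟩
  · rintro ⟨v, G⟩ hq ⟨v', G'⟩ hq' he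
    rw [mem_coe, mem_sigma, mem_FFc, mem_filter, mem_lU] at hq hq'
    obtain ⟨⟨hv, _⟩, hG, hc, _⟩ := hq
    obtain ⟨⟨hv', _⟩, hG', hc', _⟩ := hq'
    simp only at hv hG hc hv' hG' hc' he
    have h1 := indK_inj he
    have e1 : v = v' := by
      have h2 : v ∈ insert v' G' := by
        rw [← h1]
        exact mem_insert_self _ _
      rcases mem_insert.1 h2 with h3 | h3
      · exact h3
      · exact absurd h3 (hnot v hv G' hG')
    subst e1
    have e2 : G = G' := by
      rw [← erase_insert (hnot v hv G hG), h1, erase_insert (hnot v hv G' hG')]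
    rw [e2]

end T6N
end Pool.Agent.GaussPoset.Win

end

/-! From `Pool.Agent.W_448t6_h94.TsK` -/

section

/-! The first order identity at `s = -1`, raw form (MP_448cb3_co). -/

namespace Pool.Agent.GaussPoset.Win
namespace T6N

set_option linter.unusedSectionVars false

open Finset

universe u

variable {P : Type u} [Fintype P] [PartialOrder P] [DecidableEq P] {r : ℕ} {i : ℕ}

/-- the identity at energy `n` -/
theorem idn (H : Gr P r) (hi : i ≤ r) (h3 : ∀ x : P, lev x + 2 = i → dn i x ≤ 3) {n : ℕ}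
    (hn : 2 ≤ n) :
    ∑ F ∈ FF P i n, eps i F * (3 * ((F ∩ dbU P i).card : ℤ) - 2 * n) +
      ∑ h ∈ sgl P i, ∑ F ∈ FFa P i (n - 1) (ns i h), -eps i F +
      ∑ p ∈ OP P i, ∑ F ∈ FFa P i (n - 2) (p.biUnion (ns i)), osg i p * eps i F +
      ∑ v ∈ lv P i, ∑ G ∈ SV P i (n - 1) v, ∏ x ∈ G, sgv i v x +
      ∑ z ∈ lv P (i + 2), ∑ F ∈ FFc P i (n - 1) (uc z), eps i F +
      ∑ z ∈ (lv P (i + 2)).filter (fun z => (uc z).card = 2),
        ∑ F ∈ FFc P i (n - 2) (uc z), eps i F +
      ∑ z ∈ (lU P i 2).filter (fun z => (dc z).card = 1),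
        ∑ F ∈ FFc P i (n - 1) (dc z), eps i F = 0 := by
  classical
  by_cases hnb : n ≤ (lv P i).card
  · have h := total H hi h3 hn hnb
    rw [par1, par2 H hi hn, par3 H hi hn hnb, par4 H hi hn, par5 H hi hn, par6 H hi hn,
      near_sum H hi hn hnb] at h
    linarith
  · push Not at hnb
    have e1 : FF P i n = ∅ := by
      rw [eq_empty_iff_forall_notMem]
      intro F hF
      rw [mem_FF] at hF
      have := Dj_two_le H hF.1
      omega
    have hFFac : ∀ (k : ℕ) (T : Finset P), T ⊆ lv P i → ∀ F ∈ FFa P i k T,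
        2 * k + T.card ≤ (lv P i).card := by
      intro k T hT F hF
      rw [mem_FFa] at hF
      have h1 := Dj_bi_card hF.1 (Subset.refl F)
      have h2 : F.biUnion (ns i) ∪ T ⊆ lv P i := by
        refine union_subset (bi_sub H (hF.1.1.trans dbl_near)) hT
      have h3 := card_le_card h2
      rw [card_union_of_disjoint hF.2.2, h1, hF.2.1] at h3
      exact h3
    have e2 : ∀ h ∈ sgl P i, FFa P i (n - 1) (ns i h) = ∅ := by
      intro h hh
      rw [eq_empty_iff_forall_notMem]
      intro F hF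
      rw [mem_sgl] at hh
      have h1 := hFFac (n - 1) (ns i h) (fun v hv => mem_lv.2 (ns_lv H hh.1 hv)) F hF
      omega
    have e3 : ∀ p ∈ OP P i, FFa P i (n - 2) (p.biUnion (ns i)) = ∅ := by
      intro p hp
      rw [eq_empty_iff_forall_notMem]
      intro F hF
      rw [mem_OP] at hp
      have h1 := hFFac (n - 2) (p.biUnion (ns i)) (bi_sub H (by
        rcases hp.1 with h | h
        · exact (h.trans subset_union_left).trans dbl_near
        · exact (h.trans subset_union_right).trans dbl_near)) F hF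
      omega
    have e4 : ∀ v ∈ lv P i, SV P i (n - 1) v = ∅ := by
      intro v hv
      rw [eq_empty_iff_forall_notMem]
      intro G hG
      rw [mem_SV] at hG
      have h1 : (G.biUnion (fun x => ns i x \ {v})).card = ∑ x ∈ G, (ns i x \ {v}).card :=
        card_biUnion (fun x hx y hy hne => hG.1.2 x hx y hy hne)
      have h2 : G.biUnion (fun x => ns i x \ {v}) ⊆ (lv P i).erase v := by
        rw [biUnion_subset]
        intro x hx y hy
        rw [mem_sdiff, mem_singleton] at hy
        exact mem_erase.2 ⟨hy.2, mem_lv.2 (ns_lv H (dbl_near (hG.1.1 hx)) hy.1)⟩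
      have h3 := card_le_card h2
      rw [card_erase_of_mem hv, h1] at h3
      have h4 := sum_ns_sdiff hG.1.1 v
      have h5 : (G.filter (fun x => v ∈ ns i x)).card ≤ G.card := card_filter_le _ _
      have h6 := card_pos.2 ⟨v, hv⟩
      omega
    have e5 : ∀ z ∈ lv P (i + 2), FFc P i (n - 1) (uc z) = ∅ := by
      intro z hz
      rw [eq_empty_iff_forall_notMem]
      intro F hF
      rw [mem_FFc] at hF
      have := Dj_two_le H hF.1
      omega
    have e6 : ∀ z ∈ (lv P (i + 2)).filter (fun z => (uc z).card = 2),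
        FFc P i (n - 2) (uc z) = ∅ := by
      intro z hz
      rw [eq_empty_iff_forall_notMem]
      intro F hF
      rw [mem_FFc] at hF
      rw [mem_filter] at hz
      have := Dj_two_le H hF.1
      have := card_le_card hF.2.2
      omega
    have e7 : ∀ z ∈ (lU P i 2).filter (fun z => (dc z).card = 1),
        FFc P i (n - 1) (dc z) = ∅ := by
      intro z hz
      rw [eq_empty_iff_forall_notMem]
      intro F hF
      rw [mem_FFc] at hF
      have := Dj_two_le H hF.1
      omega
    have f2 : ∑ h ∈ sgl P i, ∑ F ∈ FFa P i (n - 1) (ns i h), -eps i F = 0 :=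
      sum_eq_zero fun h hh => by rw [e2 h hh, sum_empty]
    have f3 : ∑ p ∈ OP P i, ∑ F ∈ FFa P i (n - 2) (p.biUnion (ns i)), osg i p * eps i F = 0 :=
      sum_eq_zero fun h hh => by rw [e3 h hh, sum_empty]
    have f4 : ∑ v ∈ lv P i, ∑ G ∈ SV P i (n - 1) v, ∏ x ∈ G, sgv i v x = 0 :=
      sum_eq_zero fun h hh => by rw [e4 h hh, sum_empty]
    have f5 : ∑ z ∈ lv P (i + 2), ∑ F ∈ FFc P i (n - 1) (uc z), eps i F = 0 :=
      sum_eq_zero fun h hh => by rw [e5 h hh, sum_empty]
    have f6 : ∑ z ∈ (lv P (i + 2)).filter (fun z => (uc z).card = 2),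
        ∑ F ∈ FFc P i (n - 2) (uc z), eps i F = 0 :=
      sum_eq_zero fun h hh => by rw [e6 h hh, sum_empty]
    have f7 : ∑ z ∈ (lU P i 2).filter (fun z => (dc z).card = 1),
        ∑ F ∈ FFc P i (n - 1) (dc z), eps i F = 0 :=
      sum_eq_zero fun h hh => by rw [e7 h hh, sum_empty]
    rw [e1, f2, f3, f4, f5, f6, f7, sum_empty]
    ring

section layers

variable (X : Finset (Finset P)) (g : Finset P → ℤ) (K : ℕ)

lemma lay0 (hX : ∀ F ∈ X, F.card ≤ K) (j : ℕ) :
    ∑ m ∈ range (K + 1 + j), (-1 : ℤ) ^ m * ∑ F ∈ X.filter (fun F => F.card = m), g F =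
      ∑ F ∈ X, (-1 : ℤ) ^ F.card * g F := by
  rw [← sum_fiberwise_of_maps_to (s := X) (t := range (K + 1 + j)) (g := fun F => F.card)
    (fun F hF => mem_range.2 (by have := hX F hF; omega))]
  refine sum_congr rfl fun m _ => ?_
  rw [mul_sum]
  refine sum_congr rfl fun F hF => ?_
  rw [(mem_filter.1 hF).2]

lemma lay1 (hX : ∀ F ∈ X, F.card ≤ K) :
    ∑ m ∈ range (K + 1), (-1 : ℤ) ^ m * ∑ F ∈ X.filter (fun F => F.card = m + 1), g F =
      ∑ F ∈ X.filter (fun F => F.card = 0), g F - ∑ F ∈ X, (-1 : ℤ) ^ F.card * g F := by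
  rw [← lay0 X g K hX 1, sum_range_succ' _ (K + 1)]
  have h : ∑ m ∈ range (K + 1), (-1 : ℤ) ^ (m + 1) *
      ∑ F ∈ X.filter (fun F => F.card = m + 1), g F =
      - ∑ m ∈ range (K + 1), (-1 : ℤ) ^ m * ∑ F ∈ X.filter (fun F => F.card = m + 1), g F := by
    rw [← sum_neg_distrib]
    refine sum_congr rfl fun m _ => ?_
    rw [pow_succ]
    ring
  rw [h, pow_zero]
  ring

lemma lay2 (hX : ∀ F ∈ X, F.card ≤ K) :
    ∑ m ∈ range (K + 1), (-1 : ℤ) ^ m * ∑ F ∈ X.filter (fun F => F.card = m + 2), g F =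
      ∑ F ∈ X, (-1 : ℤ) ^ F.card * g F - ∑ F ∈ X.filter (fun F => F.card = 0), g F +
        ∑ F ∈ X.filter (fun F => F.card = 1), g F := by
  rw [← lay0 X g K hX 2, sum_range_succ' _ (K + 2), sum_range_succ' _ (K + 1)]
  have h : ∑ m ∈ range (K + 1), (-1 : ℤ) ^ (m + 1 + 1) *
      ∑ F ∈ X.filter (fun F => F.card = m + 1 + 1), g F =
      ∑ m ∈ range (K + 1), (-1 : ℤ) ^ m * ∑ F ∈ X.filter (fun F => F.card = m + 2), g F := by
    refine sum_congr rfl fun m _ => ?_
    rw [pow_succ, pow_succ]
    ring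
  rw [h, pow_zero, zero_add, pow_one]
  ring

end layers

open Classical in
/-- all disjoint families -/
noncomputable def FA (P : Type u) [Fintype P] [PartialOrder P] [DecidableEq P] (i : ℕ) :
    Finset (Finset P) := (dbL P i ∪ dbU P i).powerset.filter (fun F => Dj i F)

open Classical in
/-- all families with the site `v` removed -/
noncomputable def SA (P : Type u) [Fintype P] [PartialOrder P] [DecidableEq P] (i : ℕ) (v : P) :
    Finset (Finset P) := (dbL P i ∪ dbU P i).powerset.filter (fun F => SvF i v F)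

lemma mem_FA {F : Finset P} : F ∈ FA P i ↔ Dj i F := by
  classical
  unfold FA
  rw [mem_filter, mem_powerset]
  exact ⟨fun h => h.2, fun h => ⟨h.1, h⟩⟩

lemma mem_SA {v : P} {F : Finset P} : F ∈ SA P i v ↔ SvF i v F := by
  classical
  unfold SA
  rw [mem_filter, mem_powerset]
  exact ⟨fun h => h.2, fun h => ⟨h.1, h⟩⟩

/-- weight of a family at `s = -1` -/
noncomputable def om (i : ℕ) (F : Finset P) : ℤ := (-1) ^ F.card * eps i F

/-- families avoiding the sites `T` at `s = -1` -/
noncomputable def ph (i : ℕ) (T : Finset P) : ℤ :=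
  ∑ F ∈ (FA P i).filter (fun F => Disjoint (F.biUnion (ns i)) T), om i F

/-- families containing `T` at `s = -1` -/
noncomputable def ps (i : ℕ) (T : Finset P) : ℤ := ∑ F ∈ (FA P i).filter (fun F => T ⊆ F), om i F

/-- the site sum at `s = -1` -/
noncomputable def GG (i : ℕ) (v : P) : ℤ := ∑ G ∈ SA P i v, (-1) ^ G.card * ∏ x ∈ G, sgv i v x

lemma FF_eq (k : ℕ) : FF P i k = (FA P i).filter (fun F => F.card = k) := by
  ext F
  rw [mem_FF, mem_filter, mem_FA]

lemma FFa_eq (k : ℕ) (T : Finset P) : FFa P i k T =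
    ((FA P i).filter (fun F => Disjoint (F.biUnion (ns i)) T)).filter (fun F => F.card = k) := by
  ext F
  rw [mem_FFa, mem_filter, mem_filter, mem_FA]
  tauto

lemma FFc_eq (k : ℕ) (T : Finset P) : FFc P i k T =
    ((FA P i).filter (fun F => T ⊆ F)).filter (fun F => F.card = k) := by
  ext F
  rw [mem_FFc, mem_filter, mem_filter, mem_FA]
  tauto

lemma SV_eq (k : ℕ) (v : P) : SV P i k v = (SA P i v).filter (fun F => F.card = k) := by
  ext F
  rw [mem_SV, mem_filter, mem_SA]

end T6N
end Pool.Agent.GaussPoset.Win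

end

/-! From `Pool.Agent.W_448t6_h94.TsL` -/

section

/-! The first order identity at `s = -1`, raw form, summation (MP_448cb3_co). -/

namespace Pool.Agent.GaussPoset.Win
namespace T6N

set_option linter.unusedSectionVars false

open Finset

universe u

variable {P : Type u} [Fintype P] [PartialOrder P] [DecidableEq P] {r : ℕ} {i : ℕ}

lemma FA_card {F : Finset P} (h : F ∈ FA P i) : F.card ≤ (dbL P i ∪ dbU P i).card :=
  card_le_card (mem_FA.1 h).1

lemma SA_card {v : P} {F : Finset P} (h : F ∈ SA P i v) : F.card ≤ (dbL P i ∪ dbU P i).card :=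
  card_le_card (mem_SA.1 h).1

lemma Dj_empty : Dj i (∅ : Finset P) :=
  ⟨empty_subset _, fun x hx => absurd hx (notMem_empty x)⟩

lemma SvF_empty (v : P) : SvF i v (∅ : Finset P) :=
  ⟨empty_subset _, fun x hx => absurd hx (notMem_empty x)⟩

lemma zero_fib {X : Finset (Finset P)} (h : ∅ ∈ X) (g : Finset P → ℤ) :
    ∑ F ∈ X.filter (fun F => F.card = 0), g F = g ∅ := by
  have h1 : X.filter (fun F => F.card = 0) = {∅} := by
    ext F
    rw [mem_filter, mem_singleton, card_eq_zero]
    constructor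
    · exact fun h2 => h2.2
    · rintro rfl
      exact ⟨h, rfl⟩
  rw [h1, sum_singleton]

lemma zero_fib' {X : Finset (Finset P)} (h : ∅ ∉ X) (g : Finset P → ℤ) :
    ∑ F ∈ X.filter (fun F => F.card = 0), g F = 0 := by
  have h1 : X.filter (fun F => F.card = 0) = ∅ := by
    rw [filter_eq_empty_iff]
    intro F hF h2
    rw [card_eq_zero] at h2
    subst h2
    exact h hF
  rw [h1, sum_empty]

lemma eps_empty : eps i (∅ : Finset P) = 1 := by
  unfold eps
  exact prod_empty

/-- sum of a layer identity -/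
lemma lsum (K : ℕ) (f : ℕ → ℤ) (h : ∀ m, f m = 0) : ∑ m ∈ range (K + 1), (-1 : ℤ) ^ m * f m = 0 :=
  sum_eq_zero fun m _ => by rw [h m, mul_zero]

/-- the part `A` -/
lemma partA (H : Gr P r) (hi : i ≤ r) :
    ∑ m ∈ range ((dbL P i ∪ dbU P i).card + 1), (-1 : ℤ) ^ m *
      ∑ F ∈ FF P i (m + 2), eps i F * (3 * ((F ∩ dbU P i).card : ℤ) - 2 * ((m + 2 : ℕ) : ℤ)) =
    3 * ∑ F ∈ FA P i, om i F * ((F ∩ dbU P i).card : ℤ) - 3 * ((dbU P i).card : ℤ) := by
  have h1 : ∀ m, ∑ F ∈ FF P i (m + 2), eps i F * (3 * ((F ∩ dbU P i).card : ℤ) -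
      2 * ((m + 2 : ℕ) : ℤ)) =
      ∑ F ∈ (FA P i).filter (fun F => F.card = m + 2), 3 * (eps i F * (F ∩ dbU P i).card) := by
    intro m
    rw [← FF_eq]
    have h2 := kk H hi (k := m + 2) (by omega)
    have h3 : ∑ F ∈ FF P i (m + 2), eps i F * (3 * ((F ∩ dbU P i).card : ℤ) -
        2 * ((m + 2 : ℕ) : ℤ)) = ∑ F ∈ FF P i (m + 2), 3 * (eps i F * (F ∩ dbU P i).card) -
        2 * ((m + 2 : ℕ) : ℤ) * ∑ F ∈ FF P i (m + 2), (-1 : ℤ) ^ (F ∩ dbU P i).card := by
      rw [mul_sum, ← sum_sub_distrib]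
      refine sum_congr rfl fun F _ => ?_
      rw [← eps_eq]
      ring
    rw [h3, h2, mul_zero, sub_zero]
  simp only [h1]
  rw [lay2 (FA P i) (fun F => 3 * (eps i F * (F ∩ dbU P i).card)) _ (fun F hF => FA_card hF),
    zero_fib (mem_FA.2 Dj_empty)]
  have h4 : ∑ F ∈ FA P i, (-1 : ℤ) ^ F.card * (3 * (eps i F * (F ∩ dbU P i).card)) =
      3 * ∑ F ∈ FA P i, om i F * ((F ∩ dbU P i).card : ℤ) := by
    rw [mul_sum]
    refine sum_congr rfl fun F _ => ?_
    unfold om
    ring
  have h5 : ∑ F ∈ (FA P i).filter (fun F => F.card = 1), 3 * (eps i F * (F ∩ dbU P i).card) =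
      -3 * ((dbU P i).card : ℤ) := by
    have h6 : (FA P i).filter (fun F => F.card = 1) = (dbL P i ∪ dbU P i).image (fun x => {x}) := by
      ext F
      rw [mem_filter, mem_FA, mem_image]
      constructor
      · rintro ⟨h7, h8⟩
        obtain ⟨x, rfl⟩ := card_eq_one.1 h8
        exact ⟨x, h7.1 (mem_singleton_self x), rfl⟩
      · rintro ⟨x, hx, rfl⟩
        refine ⟨⟨singleton_subset_iff.2 hx, ?_⟩, card_singleton x⟩
        intro a ha b hb hne
        rw [mem_singleton] at ha hb
        exact absurd (ha.trans hb.symm) hne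
    rw [h6, sum_image (fun a _ b _ h => singleton_injective h)]
    have h7 : ∀ x ∈ dbL P i ∪ dbU P i, 3 * (eps i {x} * (({x} : Finset P) ∩ dbU P i).card) =
        if x ∈ dbU P i then (-3 : ℤ) else 0 := by
      intro x hx
      split_ifs with h8
      · rw [eps_eq, inter_eq_left.2 (singleton_subset_iff.2 h8), card_singleton]
        norm_num
      · rw [singleton_inter_of_notMem h8, card_empty]
        norm_num
    rw [sum_congr rfl h7, ← sum_filter, sum_const, nsmul_eq_mul]
    have h8 : (dbL P i ∪ dbU P i).filter (fun x => x ∈ dbU P i) = dbU P i := by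
      ext x
      rw [mem_filter, mem_union]
      tauto
    rw [h8]
    ring
  rw [h4, h5, empty_inter, card_empty]
  push_cast
  ring

/-- RAW IDENTITY at `s = -1` -/
theorem raw0 (H : Gr P r) (hi : i ≤ r) (h3 : ∀ x : P, lev x + 2 = i → dn i x ≤ 3) :
    (3 * ∑ F ∈ FA P i, om i F * ((F ∩ dbU P i).card : ℤ) - 3 * ((dbU P i).card : ℤ)) +
      ∑ h ∈ sgl P i, (ph i (ns i h) - 1) +
      ∑ p ∈ OP P i, osg i p * ph i (p.biUnion (ns i)) -
      ∑ v ∈ lv P i, (GG i v - 1) -
      ∑ z ∈ lv P (i + 2), ps i (uc z) +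
      ∑ z ∈ (lv P (i + 2)).filter (fun z => (uc z).card = 2), ps i (uc z) -
      ∑ z ∈ (lU P i 2).filter (fun z => (dc z).card = 1), ps i (dc z) = 0 := by
  set K := (dbL P i ∪ dbU P i).card with hK
  have hid := lsum K _ (fun m => idn H hi h3 (n := m + 2) (by omega))
  simp only [mul_add, sum_add_distrib, show ∀ m, m + 2 - 1 = m + 1 from fun m => by omega,
    show ∀ m, m + 2 - 2 = m from fun m => by omega] at hid
  have hA := partA H hi (P := P) (i := i)
  rw [← hK] at hA
  have hB : ∑ m ∈ range (K + 1), (-1 : ℤ) ^ m * ∑ h ∈ sgl P i, ∑ F ∈ FFa P i (m + 1) (ns i h),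
      -eps i F = ∑ h ∈ sgl P i, (ph i (ns i h) - 1) := by
    simp only [mul_sum (sgl P i)]
    rw [sum_comm]
    refine sum_congr rfl fun h _ => ?_
    simp only [FFa_eq]
    rw [lay1 _ (fun F => -eps i F) K (fun F hF => FA_card (mem_filter.1 hF).1), zero_fib, eps_empty]
    · unfold ph om
      have : ∑ F ∈ (FA P i).filter (fun F => Disjoint (F.biUnion (ns i)) (ns i h)),
          (-1 : ℤ) ^ F.card * -eps i F = - ∑ F ∈ (FA P i).filter
            (fun F => Disjoint (F.biUnion (ns i)) (ns i h)), (-1 : ℤ) ^ F.card * eps i F := by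
        rw [← sum_neg_distrib]
        exact sum_congr rfl fun F _ => by ring
      rw [this]
      ring
    · rw [mem_filter, mem_FA, biUnion_empty]
      exact ⟨Dj_empty, disjoint_empty_left _⟩
  have hC : ∑ m ∈ range (K + 1), (-1 : ℤ) ^ m * ∑ p ∈ OP P i,
      ∑ F ∈ FFa P i m (p.biUnion (ns i)), osg i p * eps i F =
      ∑ p ∈ OP P i, osg i p * ph i (p.biUnion (ns i)) := by
    simp only [mul_sum (OP P i)]
    rw [sum_comm]
    refine sum_congr rfl fun p _ => ?_
    simp only [FFa_eq]
    have h := lay0 ((FA P i).filter (fun F => Disjoint (F.biUnion (ns i)) (p.biUnion (ns i))))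
      (fun F => osg i p * eps i F) K (fun F hF => FA_card (mem_filter.1 hF).1) 0
    rw [add_zero] at h
    rw [h]
    unfold ph om
    rw [mul_sum]
    exact sum_congr rfl fun F _ => by ring
  have hD : ∑ m ∈ range (K + 1), (-1 : ℤ) ^ m * ∑ v ∈ lv P i,
      ∑ G ∈ SV P i (m + 1) v, ∏ x ∈ G, sgv i v x = - ∑ v ∈ lv P i, (GG i v - 1) := by
    simp only [mul_sum (lv P i)]
    rw [sum_comm, ← sum_neg_distrib]
    refine sum_congr rfl fun v _ => ?_
    simp only [SV_eq]
    rw [lay1 _ (fun G => ∏ x ∈ G, sgv i v x) K (fun F hF => SA_card hF), zero_fib, prod_empty]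
    · unfold GG
      ring
    · exact mem_SA.2 (SvF_empty v)
  have hne : ∀ z : P, z ∈ lv P (i + 2) → ∅ ∉ (FA P i).filter (fun F => uc z ⊆ F) := by
    intro z hz h
    rw [mem_filter, subset_empty] at h
    rw [mem_lv] at hz
    have := uc_nonempty H (x := z) (by omega)
    rw [h.2] at this
    exact not_nonempty_empty this
  have hE4 : ∑ m ∈ range (K + 1), (-1 : ℤ) ^ m * ∑ z ∈ lv P (i + 2),
      ∑ F ∈ FFc P i (m + 1) (uc z), eps i F = - ∑ z ∈ lv P (i + 2), ps i (uc z) := by
    simp only [mul_sum (lv P (i + 2))]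
    rw [sum_comm, ← sum_neg_distrib]
    refine sum_congr rfl fun z hz => ?_
    simp only [FFc_eq]
    rw [lay1 _ (fun F => eps i F) K (fun F hF => FA_card (mem_filter.1 hF).1), zero_fib' (hne z hz)]
    unfold ps om
    ring
  have hE5 : ∑ m ∈ range (K + 1), (-1 : ℤ) ^ m *
      ∑ z ∈ (lv P (i + 2)).filter (fun z => (uc z).card = 2),
      ∑ F ∈ FFc P i m (uc z), eps i F =
      ∑ z ∈ (lv P (i + 2)).filter (fun z => (uc z).card = 2), ps i (uc z) := by
    simp only [mul_sum ((lv P (i + 2)).filter (fun z => (uc z).card = 2))]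
    rw [sum_comm]
    refine sum_congr rfl fun z hz => ?_
    simp only [FFc_eq]
    have h := lay0 ((FA P i).filter (fun F => uc z ⊆ F))
      (fun F => eps i F) K (fun F hF => FA_card (mem_filter.1 hF).1) 0
    rw [add_zero] at h
    rw [h]
    rfl
  have hE6 : ∑ m ∈ range (K + 1), (-1 : ℤ) ^ m *
      ∑ z ∈ (lU P i 2).filter (fun z => (dc z).card = 1),
      ∑ F ∈ FFc P i (m + 1) (dc z), eps i F =
      - ∑ z ∈ (lU P i 2).filter (fun z => (dc z).card = 1), ps i (dc z) := by
    simp only [mul_sum ((lU P i 2).filter (fun z => (dc z).card = 1))]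
    rw [sum_comm, ← sum_neg_distrib]
    refine sum_congr rfl fun z hz => ?_
    simp only [FFc_eq]
    rw [lay1 _ (fun F => eps i F) K (fun F hF => FA_card (mem_filter.1 hF).1), zero_fib']
    · unfold ps om
      ring
    · intro h
      rw [mem_filter, subset_empty] at h
      rw [mem_filter, h.2, card_empty] at hz
      exact absurd hz.2 (by norm_num)
  rw [hA, hB, hC, hD, hE4, hE5, hE6] at hid
  linarith

end T6N
end Pool.Agent.GaussPoset.Win

end

/-! From `Pool.Agent.W_448t6_h94.TsM` -/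

section

/-! The first order identity at `s = -1`, element form (MP_448cb3_co). -/

namespace Pool.Agent.GaussPoset.Win
namespace T6N

set_option linter.unusedSectionVars false

open Finset

universe u

variable {P : Type u} [Fintype P] [PartialOrder P] [DecidableEq P] {r : ℕ} {i : ℕ}

lemma om_insert {w : P} {F : Finset P} (h : w ∉ F) : om i (insert w F) = -sgn i w * om i F := by
  unfold om eps
  rw [card_insert_of_notMem h, prod_insert h, pow_succ]
  ring

/-- families avoiding `T` which contain `w` -/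
lemma contains (H : Gr P r) {w : P} (hw : w ∈ dbL P i ∪ dbU P i) {T : Finset P}
    (hT : Disjoint (ns i w) T) :
    ∑ F ∈ ((FA P i).filter (fun F => Disjoint (F.biUnion (ns i)) T)).filter (fun F => w ∈ F),
      om i F = -sgn i w * ph i (T ∪ ns i w) := by
  unfold ph
  rw [mul_sum]
  symm
  refine sum_nbij' (fun F => insert w F) (fun F => F.erase w) ?_ ?_ ?_ ?_ ?_
  · intro F hF
    rw [mem_filter, mem_FA, disjoint_union_right] at hF
    rw [mem_filter, mem_filter, mem_FA, biUnion_insert, disjoint_union_left]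
    refine ⟨⟨⟨insert_subset hw hF.1.1, ?_⟩, hT, hF.2.1⟩, mem_insert_self _ _⟩
    intro x hx y hy hne
    have key : ∀ z ∈ F, Disjoint (ns i z) (ns i w) := fun z hz =>
      disjoint_of_subset_left (subset_biUnion_of_mem (ns i) hz) hF.2.2
    rcases mem_insert.1 hx with rfl | hx1 <;> rcases mem_insert.1 hy with rfl | hy1
    · exact absurd rfl hne
    · exact (key y hy1).symm
    · exact key x hx1
    · exact hF.1.2 x hx1 y hy1 hne
  · intro F hF
    rw [mem_filter, mem_filter, mem_FA] at hF
    rw [mem_filter, mem_FA, disjoint_union_right]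
    refine ⟨Dj_sub hF.1.1 (erase_subset _ _), ?_, ?_⟩
    · exact disjoint_of_subset_left (biUnion_subset_biUnion_of_subset_left _ (erase_subset _ _))
        hF.1.2
    · rw [disjoint_biUnion_left]
      intro x hx
      rw [mem_erase] at hx
      exact hF.1.1.2 x hx.2 w hF.2 hx.1
  · intro F hF
    rw [mem_filter, mem_FA, disjoint_union_right] at hF
    refine erase_insert (fun h => ?_)
    obtain ⟨v, hv⟩ : (ns i w).Nonempty := by
      rw [← card_pos, ns_card hw]
      norm_num
    exact disjoint_left.1 hF.2.2 (mem_biUnion.2 ⟨w, h, hv⟩) hv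
  · intro F hF
    rw [mem_filter] at hF
    exact insert_erase hF.2
  · intro F hF
    rw [mem_filter, mem_FA, disjoint_union_right] at hF
    refine (om_insert (fun h => ?_)).symm
    obtain ⟨v, hv⟩ : (ns i w).Nonempty := by
      rw [← card_pos, ns_card hw]
      norm_num
    exact disjoint_left.1 hF.2.2 (mem_biUnion.2 ⟨w, h, hv⟩) hv

lemma filt_empty : (FA P i).filter (fun F => Disjoint (F.biUnion (ns i)) (∅ : Finset P)) =
    FA P i := filter_true_of_mem (fun _ _ => disjoint_empty_right _)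

lemma ps_one (H : Gr P r) {w : P} (hw : w ∈ dbL P i ∪ dbU P i) :
    ps i {w} = -sgn i w * ph i (ns i w) := by
  have h := contains H hw (disjoint_empty_right (ns i w))
  rw [filt_empty, empty_union] at h
  rw [← h]
  unfold ps
  refine sum_congr ?_ fun _ _ => rfl
  ext F
  simp only [mem_filter, singleton_subset_iff]

lemma ps_zero {w : P} (hw : w ∉ dbL P i ∪ dbU P i) : ps i {w} = 0 := by
  unfold ps
  rw [filter_eq_empty_iff.2, sum_empty]
  intro F hF h
  exact hw ((mem_FA.1 hF).1 (singleton_subset_iff.1 h))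

/-- sum over the families of a function of the size -/
lemma sum_card_mul (H : Gr P r) (hi : i ≤ r) : ∑ F ∈ FA P i, om i F * (F.card : ℤ) = 0 := by
  have h := lay0 (FA P i) (fun F => eps i F * (F.card : ℤ)) _ (fun F hF => FA_card hF) 0
  rw [add_zero] at h
  have h0 : ∑ F ∈ FA P i, om i F * (F.card : ℤ) =
      ∑ F ∈ FA P i, (-1 : ℤ) ^ F.card * (eps i F * (F.card : ℤ)) := by
    refine sum_congr rfl fun F _ => ?_
    unfold om
    ring
  rw [h0, ← h]
  refine sum_eq_zero fun k _ => ?_
  rw [← FF_eq]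
  rcases Nat.eq_zero_or_pos k with h1 | h1
  · subst h1
    have h2 : ∑ F ∈ FF P i 0, eps i F * (F.card : ℤ) = 0 := by
      refine sum_eq_zero fun F hF => ?_
      rw [mem_FF] at hF
      rw [hF.2]
      norm_num
    rw [h2, mul_zero]
  · have h2 : ∑ F ∈ FF P i k, eps i F * (F.card : ℤ) = (k : ℤ) * ∑ F ∈ FF P i k, eps i F := by
      rw [mul_sum]
      refine sum_congr rfl fun F hF => ?_
      rw [mem_FF] at hF
      rw [hF.2]
      ring
    rw [h2]
    simp only [eps_eq]
    rw [kk H hi h1, mul_zero, mul_zero]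

/-- counting the elements of a set `W` in the families -/
lemma sum_inter (W : Finset P) : ∑ F ∈ FA P i, om i F * ((F ∩ W).card : ℤ) =
    ∑ w ∈ W, ps i {w} := by
  have h1 : ∀ F ∈ FA P i, om i F * ((F ∩ W).card : ℤ) = ∑ w ∈ W, if w ∈ F then om i F else 0 := by
    intro F _
    rw [← sum_filter, sum_const, nsmul_eq_mul, filter_mem_eq_inter, inter_comm]
    ring
  rw [sum_congr rfl h1, sum_comm]
  refine sum_congr rfl fun w _ => ?_
  unfold ps
  rw [← sum_filter]
  refine sum_congr ?_ fun _ _ => rfl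
  ext F
  simp only [mem_filter, singleton_subset_iff]

lemma sum_dbU (H : Gr P r) : ∑ F ∈ FA P i, om i F * ((F ∩ dbU P i).card : ℤ) =
    ∑ u ∈ dbU P i, ph i (ns i u) := by
  rw [sum_inter]
  refine sum_congr rfl fun u hu => ?_
  rw [ps_one H (mem_union_right _ hu)]
  unfold sgn
  rw [if_pos hu]
  ring

lemma dis_LU : Disjoint (dbL P i) (dbU P i) := by
  rw [disjoint_left]
  intro x h1 h2
  have := (mem_dbL.1 h1).1
  have := (mem_dbU.1 h2).1
  omega

/-- the two sides have the same sum -/
lemma sides_eq (H : Gr P r) (hi : i ≤ r) :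
    ∑ w ∈ dbL P i, ph i (ns i w) = ∑ u ∈ dbU P i, ph i (ns i u) := by
  have h1 := sum_card_mul H hi (P := P) (i := i)
  have h2 := sum_inter (i := i) (dbL P i ∪ dbU P i)
  have h3 : ∑ F ∈ FA P i, om i F * ((F ∩ (dbL P i ∪ dbU P i)).card : ℤ) =
      ∑ F ∈ FA P i, om i F * (F.card : ℤ) := by
    refine sum_congr rfl fun F hF => ?_
    rw [inter_eq_left.2 (mem_FA.1 hF).1]
  rw [← h3, h2, sum_union dis_LU] at h1
  have h4 : ∑ w ∈ dbL P i, ps i {w} = - ∑ w ∈ dbL P i, ph i (ns i w) := by
    rw [← sum_neg_distrib]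
    refine sum_congr rfl fun w hw => ?_
    rw [ps_one H (mem_union_left _ hw)]
    unfold sgn
    rw [if_neg (disjoint_left.1 dis_LU hw)]
    ring
  have h5 : ∑ w ∈ dbU P i, ps i {w} = ∑ w ∈ dbU P i, ph i (ns i w) := by
    refine sum_congr rfl fun w hw => ?_
    rw [ps_one H (mem_union_right _ hw)]
    unfold sgn
    rw [if_pos hw]
    ring
  rw [h4, h5] at h1
  linarith

lemma card_sides (H : Gr P r) (hi : i ≤ r) : ((dbL P i).card : ℤ) = (dbU P i).card := by
  have h1 := kk H hi (k := 1) le_rfl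
  have h6 : FF P i 1 = (dbL P i ∪ dbU P i).image (fun x => {x}) := by
    ext F
    rw [mem_FF, mem_image]
    constructor
    · rintro ⟨h7, h8⟩
      obtain ⟨x, rfl⟩ := card_eq_one.1 h8
      exact ⟨x, h7.1 (mem_singleton_self x), rfl⟩
    · rintro ⟨x, hx, rfl⟩
      refine ⟨⟨singleton_subset_iff.2 hx, ?_⟩, card_singleton x⟩
      intro a ha b hb hne
      rw [mem_singleton] at ha hb
      exact absurd (ha.trans hb.symm) hne
  rw [h6, sum_image (fun a _ b _ h => singleton_injective h), sum_union dis_LU] at h1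
  have h7 : ∑ x ∈ dbL P i, (-1 : ℤ) ^ (({x} : Finset P) ∩ dbU P i).card = (dbL P i).card := by
    have : ∀ x ∈ dbL P i, (-1 : ℤ) ^ (({x} : Finset P) ∩ dbU P i).card = 1 := by
      intro x hx
      rw [singleton_inter_of_notMem (disjoint_left.1 dis_LU hx), card_empty, pow_zero]
    rw [sum_congr rfl this, sum_const, nsmul_eq_mul, mul_one]
  have h8 : ∑ x ∈ dbU P i, (-1 : ℤ) ^ (({x} : Finset P) ∩ dbU P i).card = -(dbU P i).card := by
    have : ∀ x ∈ dbU P i, (-1 : ℤ) ^ (({x} : Finset P) ∩ dbU P i).card = -1 := by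
      intro x hx
      rw [inter_eq_left.2 (singleton_subset_iff.2 hx), card_singleton, pow_one]
    rw [sum_congr rfl this, sum_const, nsmul_eq_mul]
    ring
  rw [h7, h8] at h1
  linarith

/-- vertex expansion -/
theorem expand (H : Gr P r) {T : Finset P} {u : P} :
    ph i T = ph i (insert u T) + ∑ y ∈ (dbL P i ∪ dbU P i).filter
      (fun y => u ∈ ns i y ∧ Disjoint (ns i y) T), -sgn i y * ph i (T ∪ ns i y) := by
  classical
  set X := (FA P i).filter (fun F => Disjoint (F.biUnion (ns i)) T) with hX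
  have h1 : ph i T = ∑ F ∈ X.filter (fun F => u ∉ F.biUnion (ns i)), om i F +
      ∑ F ∈ X.filter (fun F => ¬ u ∉ F.biUnion (ns i)), om i F :=
    (sum_filter_add_sum_filter_not X _ _).symm
  have h2 : ∑ F ∈ X.filter (fun F => u ∉ F.biUnion (ns i)), om i F = ph i (insert u T) := by
    unfold ph
    refine sum_congr ?_ fun _ _ => rfl
    ext F
    rw [hX, mem_filter, mem_filter, mem_filter, disjoint_insert_right]
    tauto
  have h3 : ∑ F ∈ X.filter (fun F => ¬ u ∉ F.biUnion (ns i)), om i F =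
      ∑ y ∈ (dbL P i ∪ dbU P i).filter (fun y => u ∈ ns i y),
        ∑ F ∈ X.filter (fun F => y ∈ F), om i F := by
    have h4 : ∀ F ∈ X.filter (fun F => ¬ u ∉ F.biUnion (ns i)), om i F =
        ∑ y ∈ (dbL P i ∪ dbU P i).filter (fun y => u ∈ ns i y), if y ∈ F then om i F else 0 := by
      intro F hF
      rw [mem_filter, not_not, mem_biUnion, hX, mem_filter, mem_FA] at hF
      obtain ⟨⟨hF1, hF2⟩, y, hy, huy⟩ := hF
      rw [sum_eq_single y]
      · rw [if_pos hy]
      · intro z hz hne
        rw [mem_filter] at hz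
        rw [if_neg]
        intro hzF
        exact disjoint_left.1 (hF1.2 z hzF y hy hne) hz.2 huy
      · intro h5
        exact absurd (mem_filter.2 ⟨hF1.1 hy, huy⟩) h5
    rw [sum_congr rfl h4, sum_comm]
    refine sum_congr rfl fun y hy => ?_
    rw [mem_filter] at hy
    rw [← sum_filter]
    refine sum_congr ?_ fun _ _ => rfl
    ext F
    rw [mem_filter, mem_filter (p := fun F => y ∈ F), mem_filter, not_not, mem_biUnion]
    constructor
    · exact fun h => ⟨h.1.1, h.2⟩
    · exact fun h => ⟨⟨h.1, y, h.2, hy.2⟩, h.2⟩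
  rw [h1, h2, h3]
  congr 1
  rw [← filter_filter]
  rw [sum_filter (s := (dbL P i ∪ dbU P i).filter (fun y => u ∈ ns i y))
    (p := fun y => Disjoint (ns i y) T)]
  refine sum_congr rfl fun y hy => ?_
  rw [mem_filter] at hy
  split_ifs with h5
  · exact contains H hy.1 h5
  · rw [filter_eq_empty_iff.2, sum_empty]
    intro F hF hyF
    rw [hX, mem_filter] at hF
    exact h5 (disjoint_of_subset_left (subset_biUnion_of_mem (ns i) hyF) hF.2)

end T6N
end Pool.Agent.GaussPoset.Win

end

/-! From `Pool.Agent.W_448t6_h94.TsN` -/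

section

/-! The first order identity at `s = -1`, element form (MP_448cb3_co). -/

namespace Pool.Agent.GaussPoset.Win
namespace T6N

set_option linter.unusedSectionVars false

open Finset

universe u

variable {P : Type u} [Fintype P] [PartialOrder P] [DecidableEq P] {r : ℕ} {i : ℕ}

/-- near double elements with exactly one site in common with `x` -/
noncomputable def Rr (i : ℕ) (x : P) : Finset P :=
  (dbL P i ∪ dbU P i).filter (fun y => (ns i x ∩ ns i y).card = 1)

lemma mem_Rr {x y : P} : y ∈ Rr i x ↔ y ∈ dbL P i ∪ dbU P i ∧ (ns i x ∩ ns i y).card = 1 := by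
  unfold Rr; rw [mem_filter]

lemma pair_inter_card {a u : P} (hau : a ≠ u) (S : Finset P) :
    (({a, u} : Finset P) ∩ S).card = 1 ↔ (u ∈ S ∧ a ∉ S) ∨ (a ∈ S ∧ u ∉ S) := by
  by_cases ha : a ∈ S <;> by_cases hu : u ∈ S
  · have h : ({a, u} : Finset P) ∩ S = {a, u} := by
      rw [inter_eq_left]
      intro z hz
      rw [mem_insert, mem_singleton] at hz
      rcases hz with rfl | rfl <;> assumption
    rw [h, card_pair hau]
    constructor
    · intro h1
      omega
    · rintro (h1 | h1)
      · exact absurd ha h1.2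
      · exact absurd hu h1.2
  · have h : ({a, u} : Finset P) ∩ S = {a} := by
      ext z
      simp only [mem_inter, mem_insert, mem_singleton]
      constructor
      · rintro ⟨rfl | rfl, h2⟩
        · rfl
        · exact absurd h2 hu
      · rintro rfl
        exact ⟨Or.inl rfl, ha⟩
    rw [h, card_singleton]
    tauto
  · have h : ({a, u} : Finset P) ∩ S = {u} := by
      ext z
      simp only [mem_inter, mem_insert, mem_singleton]
      constructor
      · rintro ⟨rfl | rfl, h2⟩
        · exact absurd h2 ha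
        · rfl
      · rintro rfl
        exact ⟨Or.inr rfl, hu⟩
    rw [h, card_singleton]
    tauto
  · have h : ({a, u} : Finset P) ∩ S = ∅ := by
      rw [eq_empty_iff_forall_notMem]
      intro z hz
      simp only [mem_inter, mem_insert, mem_singleton] at hz
      rcases hz with ⟨rfl | rfl, h2⟩
      · exact ha h2
      · exact hu h2
    rw [h, card_empty]
    tauto

/-- the sum around one near double element -/
lemma around (H : Gr P r) {x : P} (hx : x ∈ dbL P i ∪ dbU P i) :
    ∑ y ∈ Rr i x, -sgn i y * ph i (ns i x ∪ ns i y) =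
      ∑ a ∈ ns i x, ph i {a} - 2 * ph i (ns i x) := by
  obtain ⟨a, u, hau, hns⟩ := card_eq_two.1 (ns_card hx)
  have hR : Rr i x = (dbL P i ∪ dbU P i).filter (fun y => u ∈ ns i y ∧ Disjoint (ns i y) {a}) ∪
      (dbL P i ∪ dbU P i).filter (fun y => a ∈ ns i y ∧ Disjoint (ns i y) {u}) := by
    ext y
    simp only [mem_Rr, mem_union, mem_filter, disjoint_singleton_right]
    rw [hns, pair_inter_card hau]
    tauto
  have hdis : Disjoint ((dbL P i ∪ dbU P i).filter (fun y => u ∈ ns i y ∧ Disjoint (ns i y) {a}))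
      ((dbL P i ∪ dbU P i).filter (fun y => a ∈ ns i y ∧ Disjoint (ns i y) {u})) := by
    rw [disjoint_left]
    intro y h1 h2
    rw [mem_filter, disjoint_singleton_right] at h1 h2
    exact h2.2.2 h1.2.1
  have e1 := expand H (i := i) (T := {a}) (u := u)
  have e2 := expand H (i := i) (T := {u}) (u := a)
  have s1 : ∑ y ∈ (dbL P i ∪ dbU P i).filter (fun y => u ∈ ns i y ∧ Disjoint (ns i y) {a}),
      -sgn i y * ph i ({a} ∪ ns i y) =
      ∑ y ∈ (dbL P i ∪ dbU P i).filter (fun y => u ∈ ns i y ∧ Disjoint (ns i y) {a}),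
      -sgn i y * ph i (ns i x ∪ ns i y) := by
    refine sum_congr rfl fun y hy => ?_
    rw [mem_filter] at hy
    congr 2
    rw [hns]
    ext z
    simp only [mem_union, mem_insert, mem_singleton]
    constructor
    · tauto
    · rintro ((h | h) | h)
      · exact Or.inl h
      · subst h
        exact Or.inr hy.2.1
      · exact Or.inr h
  have s2 : ∑ y ∈ (dbL P i ∪ dbU P i).filter (fun y => a ∈ ns i y ∧ Disjoint (ns i y) {u}),
      -sgn i y * ph i ({u} ∪ ns i y) =
      ∑ y ∈ (dbL P i ∪ dbU P i).filter (fun y => a ∈ ns i y ∧ Disjoint (ns i y) {u}),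
      -sgn i y * ph i (ns i x ∪ ns i y) := by
    refine sum_congr rfl fun y hy => ?_
    rw [mem_filter] at hy
    congr 2
    rw [hns]
    ext z
    simp only [mem_union, mem_insert, mem_singleton]
    constructor
    · tauto
    · rintro ((h | h) | h)
      · subst h
        exact Or.inr hy.2.1
      · exact Or.inl h
      · exact Or.inr h
  rw [hR, sum_union hdis, ← s1, ← s2]
  have h3 : ph i (insert u {a}) = ph i (ns i x) := by rw [hns, pair_comm]
  have h4 : ph i (insert a {u}) = ph i (ns i x) := by rw [hns]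
  rw [h3] at e1
  rw [h4] at e2
  have h5 : ∑ b ∈ ns i x, ph i {b} = ph i {a} + ph i {u} := by rw [hns, sum_pair hau]
  rw [h5]
  linarith

/-- same side -/
def Sm (i : ℕ) (x y : P) : Prop := (x ∈ dbL P i ∧ y ∈ dbL P i) ∨ (x ∈ dbU P i ∧ y ∈ dbU P i)

lemma sgn_L {x : P} (h : x ∈ dbL P i) : sgn i x = 1 := by
  unfold sgn
  rw [if_neg (disjoint_left.1 dis_LU h)]

lemma sgn_U {x : P} (h : x ∈ dbU P i) : sgn i x = -1 := by
  unfold sgn
  rw [if_pos h]

open Classical in
/-- the sum over the pairs of one side -/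
lemma pairs_sum (H : Gr P r) :
    2 * ∑ p ∈ OP P i, osg i p * ph i (p.biUnion (ns i)) =
      ∑ x ∈ dbL P i ∪ dbU P i, (∑ a ∈ ns i x, ph i {a} - 2 * ph i (ns i x)) := by
  set W := dbL P i ∪ dbU P i with hW
  set Q := (W ×ˢ W).filter (fun q => (ns i q.1 ∩ ns i q.2).card = 1) with hQ
  have h1 : ∑ x ∈ W, (∑ a ∈ ns i x, ph i {a} - 2 * ph i (ns i x)) =
      ∑ q ∈ Q, -sgn i q.2 * ph i (ns i q.1 ∪ ns i q.2) := by
    rw [hQ, sum_filter, sum_product]
    refine sum_congr rfl fun x hx => ?_
    rw [← around H hx]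
    unfold Rr
    rw [sum_filter]
  have h2 : ∑ q ∈ Q, -sgn i q.2 * ph i (ns i q.1 ∪ ns i q.2) =
      ∑ q ∈ Q, -sgn i q.1 * ph i (ns i q.1 ∪ ns i q.2) := by
    refine sum_nbij' (fun q => (q.2, q.1)) (fun q => (q.2, q.1)) ?_ ?_ ?_ ?_ ?_
    · intro q hq
      rw [hQ, mem_filter, mem_product] at hq ⊢
      exact ⟨⟨hq.1.2, hq.1.1⟩, by rw [inter_comm]; exact hq.2⟩
    · intro q hq
      rw [hQ, mem_filter, mem_product] at hq ⊢
      exact ⟨⟨hq.1.2, hq.1.1⟩, by rw [inter_comm]; exact hq.2⟩
    · intro q _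
      rfl
    · intro q _
      rfl
    · intro q _
      simp only
      rw [union_comm (ns i q.2)]
  have h3 : ∑ q ∈ Q, -sgn i q.2 * ph i (ns i q.1 ∪ ns i q.2) =
      ∑ q ∈ Q.filter (fun q => Sm i q.1 q.2), -sgn i q.1 * ph i (ns i q.1 ∪ ns i q.2) := by
    have h4 : 2 * ∑ q ∈ Q, -sgn i q.2 * ph i (ns i q.1 ∪ ns i q.2) =
        2 * ∑ q ∈ Q.filter (fun q => Sm i q.1 q.2), -sgn i q.1 * ph i (ns i q.1 ∪ ns i q.2) := by
      have h5 : 2 * ∑ q ∈ Q, -sgn i q.2 * ph i (ns i q.1 ∪ ns i q.2) =
          ∑ q ∈ Q, -sgn i q.2 * ph i (ns i q.1 ∪ ns i q.2) +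
            ∑ q ∈ Q, -sgn i q.1 * ph i (ns i q.1 ∪ ns i q.2) := by
        rw [← h2]
        ring
      rw [h5, ← sum_add_distrib, mul_sum, sum_filter (s := Q) (p := fun q => Sm i q.1 q.2)]
      refine sum_congr rfl fun q hq => ?_
      rw [hQ, mem_filter, mem_product, hW, mem_union, mem_union] at hq
      obtain ⟨⟨hx, hy⟩, _⟩ := hq
      rcases hx with hx | hx <;> rcases hy with hy | hy
      · have hsm : Sm i q.1 q.2 := Or.inl ⟨hx, hy⟩
        rw [if_pos hsm, sgn_L hx, sgn_L hy]
        ring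
      · rw [if_neg, sgn_L hx, sgn_U hy]
        · ring
        · rintro (h | h)
          · exact disjoint_left.1 dis_LU h.2 hy
          · exact disjoint_left.1 dis_LU hx h.1
      · rw [if_neg, sgn_U hx, sgn_L hy]
        · ring
        · rintro (h | h)
          · exact disjoint_left.1 dis_LU h.1 hx
          · exact disjoint_left.1 dis_LU hy h.2
      · have hsm : Sm i q.1 q.2 := Or.inr ⟨hx, hy⟩
        rw [if_pos hsm, sgn_U hx, sgn_U hy]
        ring
    linarith
  rw [h1, h3, mul_sum]
  have hmem : ∀ q ∈ Q.filter (fun q => Sm i q.1 q.2), ({q.1, q.2} : Finset P) ∈ OP P i := by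
    rintro ⟨x, y⟩ hq
    rw [mem_filter, hQ, mem_filter, mem_product] at hq
    obtain ⟨⟨⟨hx, hy⟩, hc⟩, hs⟩ := hq
    simp only at hx hy hc hs
    have hne : x ≠ y := by
      rintro rfl
      rw [inter_self, ns_card hx] at hc
      omega
    rw [mem_OP]
    refine ⟨?_, card_pair hne, ?_⟩
    · rcases hs with h | h
      · left
        intro z hz
        rw [mem_insert, mem_singleton] at hz
        rcases hz with rfl | rfl
        · exact h.1
        · exact h.2
      · right
        intro z hz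
        rw [mem_insert, mem_singleton] at hz
        rcases hz with rfl | rfl
        · exact h.1
        · exact h.2
    · rw [biUnion_insert, singleton_biUnion]
      have h5 := card_union_add_card_inter (ns i x) (ns i y)
      have h6 := ns_card hx
      have h7 := ns_card hy
      show (ns i x ∪ ns i y).card = 3
      omega
  rw [← sum_fiberwise_of_maps_to hmem]
  refine sum_congr rfl fun p hp => ?_
  have hp' := mem_OP.1 hp
  obtain ⟨x, y, hne, rfl⟩ := card_eq_two.1 hp'.2.1
  have hside : (x ∈ dbL P i ∧ y ∈ dbL P i) ∨ (x ∈ dbU P i ∧ y ∈ dbU P i) := by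
    rcases hp'.1 with h | h
    · exact Or.inl ⟨h (by simp), h (by simp)⟩
    · exact Or.inr ⟨h (by simp), h (by simp)⟩
  have hxW : x ∈ W := by
    rw [hW, mem_union]
    tauto
  have hyW : y ∈ W := by
    rw [hW, mem_union]
    tauto
  have hc : (ns i x ∩ ns i y).card = 1 := by
    have h5 := card_union_add_card_inter (ns i x) (ns i y)
    have h6 := ns_card hxW
    have h7 := ns_card hyW
    have h8 := hp'.2.2
    rw [biUnion_insert, singleton_biUnion] at h8
    omega
  have hfib : (Q.filter (fun q => Sm i q.1 q.2)).filter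
      (fun q => ({q.1, q.2} : Finset P) = {x, y}) = {(x, y), (y, x)} := by
    ext ⟨a, b⟩
    rw [mem_filter, mem_filter, hQ, mem_filter, mem_product, mem_insert, mem_singleton,
      Prod.mk.injEq, Prod.mk.injEq]
    simp only
    constructor
    · rintro ⟨⟨⟨⟨ha, hb⟩, hab⟩, _⟩, he⟩
      have hne2 : a ≠ b := by
        rintro rfl
        rw [inter_self, ns_card ha] at hab
        omega
      have h5 : a ∈ ({x, y} : Finset P) := by rw [← he]; simp
      have h6 : b ∈ ({x, y} : Finset P) := by rw [← he]; simp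
      rw [mem_insert, mem_singleton] at h5 h6
      rcases h5 with rfl | rfl <;> rcases h6 with rfl | rfl
      · exact absurd rfl hne2
      · exact Or.inl ⟨rfl, rfl⟩
      · exact Or.inr ⟨rfl, rfl⟩
      · exact absurd rfl hne2
    · rintro (⟨rfl, rfl⟩ | ⟨rfl, rfl⟩)
      · exact ⟨⟨⟨⟨hxW, hyW⟩, hc⟩, hside⟩, rfl⟩
      · refine ⟨⟨⟨⟨hyW, hxW⟩, by rw [inter_comm]; exact hc⟩, ?_⟩, pair_comm _ _⟩
        rcases hside with h | h
        · exact Or.inl ⟨h.2, h.1⟩
        · exact Or.inr ⟨h.2, h.1⟩
  have hne3 : (x, y) ≠ (y, x) := by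
    intro h
    rw [Prod.mk.injEq] at h
    exact hne h.1
  rw [hfib, sum_pair hne3, biUnion_insert, singleton_biUnion]
  simp only
  rw [union_comm (ns i y)]
  unfold osg
  rcases hside with h | h
  · rw [if_neg, sgn_L h.1, sgn_L h.2]
    · ring
    · intro h9
      exact disjoint_left.1 dis_LU h.1 (h9 (by simp))
  · rw [if_pos, sgn_U h.1, sgn_U h.2]
    · ring
    · intro z hz
      rw [mem_insert, mem_singleton] at hz
      rcases hz with rfl | rfl
      · exact h.1
      · exact h.2

lemma mem_PD {z : P} : z ∈ PD P i ↔ lev z = i + 2 ∧ (uc z).card = 1 ∧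
    ∃ w, z ⋖ w ∧ (uc w).card = 2 := by
  classical
  unfold PD
  rw [mem_filter]
  simp

lemma mem_PU {x : P} : x ∈ PU P i ↔ lev x + 2 = i ∧ (dc x).card = 1 ∧
    ∃ u, u ⋖ x ∧ (dc u).card = 2 := by
  classical
  unfold PU
  rw [mem_filter]
  simp

/-- far lower elements -/
lemma far_L (H : Gr P r) : ∑ z ∈ lv P (i + 2), ps i (uc z) -
    ∑ z ∈ (lv P (i + 2)).filter (fun z => (uc z).card = 2), ps i (uc z) =
    - ∑ z ∈ PD P i, ph i ((uc z).biUnion (ns i)) := by
  classical
  rw [← sum_filter_add_sum_filter_not (lv P (i + 2)) (fun z => (uc z).card = 2),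
    add_sub_cancel_left, ← sum_neg_distrib]
  symm
  refine sum_subset_zero_on_sdiff ?_ ?_ ?_
  · intro z hz
    rw [mem_PD] at hz
    rw [mem_filter, mem_lv]
    refine ⟨hz.1, ?_⟩
    rw [hz.2.1]
    norm_num
  · intro z hz
    rw [mem_sdiff, mem_filter, mem_lv, mem_PD] at hz
    obtain ⟨⟨h1, h2⟩, h3⟩ := hz
    have h4 := uc_card_le H z
    have h5 := card_pos.2 (uc_nonempty H (x := z) (by omega))
    obtain ⟨w, hw⟩ := card_eq_one.1 (show (uc z).card = 1 by omega)
    rw [hw]
    refine ps_zero (fun h6 => h3 ⟨h1, by omega, w, ?_, ?_⟩)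
    · rw [← mem_uc, hw]
      exact mem_singleton_self w
    · have h7 : w ∈ uc z := by
        rw [hw]
        exact mem_singleton_self w
      have h8 := lev_uc H h7
      rcases mem_union.1 h6 with h9 | h9
      · exact (mem_dbL.1 h9).2
      · have := (mem_dbU.1 h9).1
        omega
  · intro z hz
    rw [mem_PD] at hz
    obtain ⟨h1, h2, w, h3, h4⟩ := hz
    obtain ⟨w', hw'⟩ := card_eq_one.1 h2
    have h5 : w = w' := by
      rw [← mem_uc, hw', mem_singleton] at h3
      exact h3
    subst h5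
    have h6 : w ∈ dbL P i := by
      have := (H.covBy_iff.1 h3).2
      exact mem_dbL.2 ⟨by omega, h4⟩
    rw [hw', ps_one H (mem_union_left _ h6), sgn_L h6, singleton_biUnion]
    ring

/-- far upper elements -/
lemma far_U (H : Gr P r) : ∑ z ∈ (lU P i 2).filter (fun z => (dc z).card = 1), ps i (dc z) =
    ∑ z ∈ PU P i, ph i ((dc z).biUnion (ns i)) := by
  classical
  symm
  refine sum_subset_zero_on_sdiff ?_ ?_ ?_
  · intro z hz
    rw [mem_PU] at hz
    rw [mem_filter, mem_lU]
    exact ⟨hz.1, hz.2.1⟩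
  · intro z hz
    rw [mem_sdiff, mem_filter, mem_lU, mem_PU] at hz
    obtain ⟨⟨h1, h2⟩, h3⟩ := hz
    obtain ⟨w, hw⟩ := card_eq_one.1 h2
    rw [hw]
    have h7 : w ∈ dc z := by
      rw [hw]
      exact mem_singleton_self w
    refine ps_zero (fun h6 => h3 ⟨h1, h2, w, mem_dc.1 h7, ?_⟩)
    have h8 := lev_dc H h7
    rcases mem_union.1 h6 with h9 | h9
    · have := (mem_dbL.1 h9).1
      omega
    · exact (mem_dbU.1 h9).2
  · intro z hz
    rw [mem_PU] at hz
    obtain ⟨h1, h2, w, h3, h4⟩ := hz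
    obtain ⟨w', hw'⟩ := card_eq_one.1 h2
    have h5 : w = w' := by
      rw [← mem_dc, hw', mem_singleton] at h3
      exact h3
    subst h5
    have h6 : w ∈ dbU P i := by
      have := (H.covBy_iff.1 h3).2
      exact mem_dbU.2 ⟨by omega, h4⟩
    rw [hw', ps_one H (mem_union_right _ h6), sgn_U h6, singleton_biUnion]
    ring

/-- T6, ELEMENT FORM: the first order identity at `s = -1` -/
theorem T6elem (H : Gr P r) (hi : i ≤ r) (h3 : ∀ x : P, lev x + 2 = i → dn i x ≤ 3) :
    ∑ x ∈ dbL P i ∪ dbU P i, (∑ a ∈ ns i x, ph i {a} + ph i (ns i x) - 3) +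
      2 * ∑ h ∈ sgl P i, (ph i (ns i h) - 1) - 2 * ∑ v ∈ lv P i, (GG i v - 1) +
      2 * ∑ z ∈ PD P i, ph i ((uc z).biUnion (ns i)) -
      2 * ∑ z ∈ PU P i, ph i ((dc z).biUnion (ns i)) = 0 := by
  have h := raw0 H hi h3
  have hp := pairs_sum H (P := P) (i := i)
  have hL := far_L H (P := P) (i := i)
  have hU := far_U H (P := P) (i := i)
  have hd := sum_dbU H (P := P) (i := i)
  have hs := sides_eq H hi (P := P)
  have hc := card_sides H hi (P := P)
  have e1 : ∑ x ∈ dbL P i ∪ dbU P i, (∑ a ∈ ns i x, ph i {a} + ph i (ns i x) - 3) =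
      ∑ x ∈ dbL P i ∪ dbU P i, (∑ a ∈ ns i x, ph i {a} - 2 * ph i (ns i x)) +
      3 * (∑ x ∈ dbL P i, ph i (ns i x) + ∑ x ∈ dbU P i, ph i (ns i x)) -
      3 * ((dbL P i).card + (dbU P i).card) := by
    have e2 : ∑ x ∈ dbL P i, ph i (ns i x) + ∑ x ∈ dbU P i, ph i (ns i x) =
        ∑ x ∈ dbL P i ∪ dbU P i, ph i (ns i x) := (sum_union dis_LU).symm
    have e3 : ((dbL P i).card : ℤ) + (dbU P i).card = ∑ x ∈ dbL P i ∪ dbU P i, (1 : ℤ) := by
      rw [sum_const, card_union_of_disjoint dis_LU, nsmul_eq_mul, mul_one]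
      push_cast
      ring
    rw [e2, e3, mul_sum, mul_sum, ← sum_add_distrib, ← sum_sub_distrib]
    refine sum_congr rfl fun x _ => ?_
    ring
  rw [e1]
  linarith

end T6N
end Pool.Agent.GaussPoset.Win

end

/-! From `Pool.Agent.W_448t6_h94.TsO` -/

section

/-! The first order identity at `s = -1`, matching form (MP_448cb3_co). -/

namespace Pool.Agent.GaussPoset.Win
namespace T6N

set_option linter.unusedSectionVars false

open Finset

universe u

variable {P : Type u} [Fintype P] [PartialOrder P] [DecidableEq P] {r : ℕ} {i : ℕ}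

lemma om_prod (F : Finset P) : om i F = ∏ x ∈ F, -sgn i x := by
  unfold om eps
  rw [prod_neg]

lemma Fm_eval (A : Finset P → ℤ) (V T : Finset P) :
    St.Fm A V T = ∑ M ∈ St.MS (V \ T), ∏ e ∈ M, -A e := by
  unfold St.Fm St.mp
  rw [Polynomial.eval_finsetSum]
  refine sum_congr rfl fun M _ => ?_
  rw [Polynomial.eval_prod]
  refine prod_congr rfl fun e _ => ?_
  rw [Polynomial.eval_mul, Polynomial.eval_C, Polynomial.eval_X]
  ring

lemma prod_neg_Df (M : Finset (Finset P)) : ∏ T ∈ M, -Df i T =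
    ∑ F ∈ SR (dbL P i ∪ dbU P i) (ns i) M, ∏ x ∈ F, -sgn i x := by
  rw [← prod_fib (dbL P i ∪ dbU P i) (ns i) (fun x => -sgn i x) M]
  refine prod_congr rfl fun T _ => ?_
  rw [← sum_fib, sum_neg_distrib]

lemma Dj_inj {F : Finset P} (h : Dj i F) : Set.InjOn (ns i) (F : Set P) := by
  intro a ha b hb hab
  by_contra hne
  have h4 := h.2 a (mem_coe.1 ha) b (mem_coe.1 hb) hne
  rw [hab, disjoint_self] at h4
  have h5 := ns_card (h.1 (mem_coe.1 hb))
  rw [show ns i b = ∅ from h4, card_empty] at h5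
  omega

/-- the families avoiding `T` in matching form -/
theorem ph_eq (H : Gr P r) (T : Finset P) : ph i T = St.Fm (Df i) (lv P i) T := by
  classical
  rw [Fm_eval]
  unfold ph
  have hmaps : ∀ F ∈ (FA P i).filter (fun F => Disjoint (F.biUnion (ns i)) T),
      F.image (ns i) ∈ St.MS (lv P i \ T) := by
    intro F hF
    rw [mem_filter, mem_FA] at hF
    rw [St.mem_MS]
    constructor
    · intro S hS
      obtain ⟨x, hx, rfl⟩ := mem_image.1 hS
      refine ⟨?_, ns_card (hF.1.1 hx)⟩
      intro v hv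
      rw [mem_sdiff]
      exact ⟨ns_sub H (hF.1.1 hx) hv,
        fun h => disjoint_left.1 hF.2 (mem_biUnion.2 ⟨x, hx, hv⟩) h⟩
    · intro S hS S' hS' hne
      obtain ⟨x, hx, rfl⟩ := mem_image.1 (mem_coe.1 hS)
      obtain ⟨y, hy, rfl⟩ := mem_image.1 (mem_coe.1 hS')
      exact hF.1.2 x hx y hy (fun h => hne (by rw [h]))
  rw [← sum_fiberwise_of_maps_to hmaps]
  refine sum_congr rfl fun M hM => ?_
  rw [prod_neg_Df]
  refine sum_congr ?_ fun F _ => om_prod F
  rw [St.mem_MS] at hM
  ext F
  rw [mem_filter, mem_filter, mem_FA, mem_SR]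
  constructor
  · rintro ⟨⟨h1, _⟩, h3⟩
    exact ⟨h1.1, Dj_inj h1, h3⟩
  · rintro ⟨h1, h2, h3⟩
    have hm : ∀ x ∈ F, ns i x ∈ M := fun x hx => by
      rw [← h3]
      exact mem_image_of_mem _ hx
    refine ⟨⟨⟨h1, ?_⟩, ?_⟩, h3⟩
    · intro x hx y hy hne
      exact hM.2 (mem_coe.2 (hm x hx)) (mem_coe.2 (hm y hy))
        (fun h => hne (h2 (mem_coe.2 hx) (mem_coe.2 hy) h))
    · rw [disjoint_biUnion_left]
      intro x hx
      rw [disjoint_left]
      intro v hv hvT
      exact (mem_sdiff.1 ((hM.1 _ (hm x hx)).1 hv)).2 hvT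

/-- product of the defects at `v` -/
lemma prod_Df_star (v : P) {S : Finset P} (hv : v ∉ S) : ∏ y ∈ S, Df i {v, y} =
    ∑ J ∈ SR (dbL P i ∪ dbU P i) (ns i) (S.image (fun y => ({v, y} : Finset P))),
      ∏ x ∈ J, sgn i x := by
  rw [← prod_fib (dbL P i ∪ dbU P i) (ns i) (fun x => sgn i x), prod_image]
  · exact prod_congr rfl fun y _ => (sum_fib _).symm
  · intro a ha b hb hab
    have h1 : a ∈ ({v, b} : Finset P) := by
      rw [← show ({v, a} : Finset P) = {v, b} from hab]
      simp
    rw [mem_insert, mem_singleton] at h1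
    rcases h1 with h1 | h1
    · exact absurd (h1 ▸ ha) hv
    · exact h1

lemma SvF_inj {v : P} {G : Finset P} (h : SvF i v G) : Set.InjOn (ns i) (G : Set P) := by
  intro a ha b hb hab
  by_contra hne
  have h4 := h.2 a (mem_coe.1 ha) b (mem_coe.1 hb) hne
  rw [hab, disjoint_self] at h4
  have h5 := ns_sdiff_card (h.1 (mem_coe.1 hb)) v
  rw [show ns i b \ {v} = ∅ from h4, card_empty] at h5
  split_ifs at h5 <;> omega

/-- the site sum in matching form -/
theorem GG_eq (H : Gr P r) {v : P} (hv : v ∈ lv P i) : GG i v = St.gg (Df i) (lv P i) v := by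
  classical
  unfold St.gg
  have h1 : ∀ S ∈ ((lv P i).erase v).powerset, (∏ y ∈ S, Df i {v, y}) *
      St.Fm (Df i) (lv P i) (insert v S) =
      ∑ q ∈ (SR (dbL P i ∪ dbU P i) (ns i) (S.image (fun y => ({v, y} : Finset P)))) ×ˢ
        ((FA P i).filter (fun F => Disjoint (F.biUnion (ns i)) (insert v S))),
        (∏ x ∈ q.1, sgn i x) * ∏ x ∈ q.2, -sgn i x := by
    intro S hS
    rw [mem_powerset] at hS
    have hvS : v ∉ S := fun h => by
      have := mem_erase.1 (hS h)
      exact this.1 rfl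
    rw [prod_Df_star v hvS, ← ph_eq H]
    unfold ph
    rw [sum_mul_sum, ← sum_product']
    refine sum_congr rfl fun q _ => ?_
    rw [om_prod]
  rw [sum_congr rfl h1, sum_sigma']
  unfold GG
  symm
  -- the other ends
  have hpair : ∀ x ∈ dbL P i ∪ dbU P i, v ∈ ns i x → ∃ y, y ∈ (lv P i).erase v ∧
      ns i x = {v, y} := by
    intro x hx hvx
    obtain ⟨a, b, hab, hns⟩ := card_eq_two.1 (ns_card hx)
    have hsub := ns_sub H hx
    rw [hns, mem_insert, mem_singleton] at hvx
    rcases hvx with rfl | rfl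
    · exact ⟨b, mem_erase.2 ⟨hab.symm, hsub (by rw [hns]; simp)⟩, hns⟩
    · exact ⟨a, mem_erase.2 ⟨hab, hsub (by rw [hns]; simp)⟩, by rw [hns, pair_comm]⟩
  refine sum_bij' (fun p _ => p.2.1 ∪ p.2.2)
    (fun G _ => ⟨((G.filter (fun x => v ∈ ns i x)).biUnion (ns i)).erase v,
      (G.filter (fun x => v ∈ ns i x), G.filter (fun x => v ∉ ns i x))⟩) ?_ ?_ ?_ ?_ ?_
  · rintro ⟨S, J, F⟩ hp
    rw [mem_sigma, mem_product, mem_powerset, mem_SR, mem_filter, mem_FA,
      disjoint_insert_right] at hp
    obtain ⟨hS, ⟨hJ, hJi, hJS⟩, hF, hFv, hFS⟩ := hp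
    simp only at hS hJ hJi hJS hF hFv hFS
    rw [mem_SA]
    have hJx : ∀ x ∈ J, ∃ y ∈ S, ns i x = {v, y} := by
      intro x hx
      have : ns i x ∈ S.image (fun y => ({v, y} : Finset P)) := by
        rw [← hJS]
        exact mem_image_of_mem _ hx
      obtain ⟨y, hy, hxy⟩ := mem_image.1 this
      exact ⟨y, hy, hxy.symm⟩
    have hcross : ∀ x ∈ J, ∀ z ∈ F, Disjoint (ns i x \ {v}) (ns i z \ {v}) := by
      intro x hx z hz
      obtain ⟨y, hy, hxy⟩ := hJx x hx
      rw [disjoint_left]
      intro w hw hw2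
      rw [mem_sdiff, hxy, mem_insert, mem_singleton] at hw
      rw [mem_sdiff] at hw2
      have h5 : w = y := by
        rcases hw.1 with h5 | h5
        · exact absurd (mem_singleton.2 h5) hw.2
        · exact h5
      subst h5
      exact disjoint_left.1 hFS (mem_biUnion.2 ⟨z, hz, hw2.1⟩) hy
    refine ⟨union_subset hJ hF.1, ?_⟩
    intro x hx z hz hne
    rcases mem_union.1 hx with hx1 | hx1 <;> rcases mem_union.1 hz with hz1 | hz1
    · obtain ⟨y, hy, hxy⟩ := hJx x hx1
      obtain ⟨y', hy', hzy⟩ := hJx z hz1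
      have hyy : y ≠ y' := by
        rintro rfl
        exact hne (hJi (mem_coe.2 hx1) (mem_coe.2 hz1) (hxy.trans hzy.symm))
      rw [hxy, hzy, disjoint_left]
      intro w hw hw2
      simp only [mem_sdiff, mem_insert, mem_singleton] at hw hw2
      rcases hw.1 with h5 | h5
      · exact hw.2 h5
      · rcases hw2.1 with h6 | h6
        · exact hw.2 h6
        · exact hyy (h5.symm.trans h6)
    · exact hcross x hx1 z hz1
    · exact (hcross z hz1 x hx1).symm
    · exact disjoint_of_subset_left sdiff_subset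
        (disjoint_of_subset_right sdiff_subset (hF.2 x hx1 z hz1 hne))
  · intro G hG
    rw [mem_SA] at hG
    have hGf : ∀ x ∈ G.filter (fun x => v ∈ ns i x), x ∈ dbL P i ∪ dbU P i ∧ v ∈ ns i x :=
      fun x hx => ⟨hG.1 (mem_filter.1 hx).1, (mem_filter.1 hx).2⟩
    rw [mem_sigma, mem_product, mem_powerset, mem_SR, mem_filter, mem_FA]
    refine ⟨?_, ⟨(filter_subset _ _).trans hG.1, ?_, ?_⟩, ⟨(filter_subset _ _).trans hG.1, ?_⟩, ?_⟩
    · intro w hw
      rw [mem_erase, mem_biUnion] at hw
      obtain ⟨hne, x, hx, hwx⟩ := hw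
      exact mem_erase.2 ⟨hne, ns_sub H (hGf x hx).1 hwx⟩
    · exact (SvF_inj hG).mono (fun x hx => (mem_filter.1 (mem_coe.1 hx)).1)
    · ext T
      rw [mem_image, mem_image]
      constructor
      · rintro ⟨x, hx, rfl⟩
        obtain ⟨y, hy, hxy⟩ := hpair x (hGf x hx).1 (hGf x hx).2
        refine ⟨y, mem_erase.2 ⟨(mem_erase.1 hy).1, mem_biUnion.2 ⟨x, hx, ?_⟩⟩, hxy.symm⟩
        rw [hxy]
        simp
      · rintro ⟨y, hy, rfl⟩
        rw [mem_erase, mem_biUnion] at hy
        obtain ⟨hne, x, hx, hyx⟩ := hy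
        obtain ⟨y', hy', hxy⟩ := hpair x (hGf x hx).1 (hGf x hx).2
        refine ⟨x, hx, ?_⟩
        rw [hxy, mem_insert, mem_singleton] at hyx
        rcases hyx with h5 | h5
        · exact absurd h5 hne
        · rw [hxy, h5]
    · intro x hx y hy hne
      rw [mem_filter] at hx hy
      have h5 := hG.2 x hx.1 y hy.1 hne
      rwa [sdiff_singleton_eq_erase, erase_eq_of_notMem hx.2, sdiff_singleton_eq_erase,
        erase_eq_of_notMem hy.2] at h5
    · rw [disjoint_left]
      intro w hw hw2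
      rw [mem_biUnion] at hw
      obtain ⟨z, hz, hwz⟩ := hw
      rw [mem_filter] at hz
      rcases mem_insert.1 hw2 with h5 | h5
      · subst h5
        exact hz.2 hwz
      · rw [mem_erase, mem_biUnion] at h5
        obtain ⟨hne, x, hx, hwx⟩ := h5
        rw [mem_filter] at hx
        have hxz : x ≠ z := by
          rintro rfl
          exact hz.2 hx.2
        exact disjoint_left.1 (hG.2 x hx.1 z hz.1 hxz)
          (mem_sdiff.2 ⟨hwx, fun h => hne (mem_singleton.1 h)⟩)
          (mem_sdiff.2 ⟨hwz, fun h => hne (mem_singleton.1 h)⟩)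
  · rintro ⟨S, J, F⟩ hp
    rw [mem_sigma, mem_product, mem_powerset, mem_SR, mem_filter, mem_FA,
      disjoint_insert_right] at hp
    obtain ⟨hS, ⟨hJ, hJi, hJS⟩, hF, hFv, hFS⟩ := hp
    simp only at hS hJ hJi hJS hF hFv hFS
    have hJx : ∀ x ∈ J, ∃ y ∈ S, ns i x = {v, y} := by
      intro x hx
      have : ns i x ∈ S.image (fun y => ({v, y} : Finset P)) := by
        rw [← hJS]
        exact mem_image_of_mem _ hx
      obtain ⟨y, hy, hxy⟩ := mem_image.1 this
      exact ⟨y, hy, hxy.symm⟩
    have hJv : ∀ x ∈ J, v ∈ ns i x := by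
      intro x hx
      obtain ⟨y, _, hxy⟩ := hJx x hx
      rw [hxy]
      simp
    have hFv' : ∀ x ∈ F, v ∉ ns i x := fun x hx h => hFv (mem_biUnion.2 ⟨x, hx, h⟩)
    have e1 : (J ∪ F).filter (fun x => v ∈ ns i x) = J := by
      rw [filter_union, filter_true_of_mem hJv, filter_false_of_mem hFv', union_empty]
    have e2 : (J ∪ F).filter (fun x => v ∉ ns i x) = F := by
      rw [filter_union, filter_true_of_mem hFv', filter_false_of_mem (fun x hx h => h (hJv x hx)),
        empty_union]
    have e3 : (J.biUnion (ns i)).erase v = S := by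
      ext y
      rw [mem_erase, mem_biUnion]
      constructor
      · rintro ⟨hne, x, hx, hyx⟩
        obtain ⟨y', hy', hxy⟩ := hJx x hx
        rw [hxy, mem_insert, mem_singleton] at hyx
        rcases hyx with h5 | h5
        · exact absurd h5 hne
        · rw [h5]
          exact hy'
      · intro hy
        refine ⟨(mem_erase.1 (hS hy)).1, ?_⟩
        have : ({v, y} : Finset P) ∈ J.image (ns i) := by
          rw [hJS]
          exact mem_image_of_mem _ hy
        obtain ⟨x, hx, hxy⟩ := mem_image.1 this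
        refine ⟨x, hx, ?_⟩
        rw [hxy]
        simp
    simp only [e1, e2, e3]
  · intro G hG
    simp only
    exact filter_union_filter_not_eq _ _
  · rintro ⟨S, J, F⟩ hp
    rw [mem_sigma, mem_product, mem_powerset, mem_SR, mem_filter, mem_FA,
      disjoint_insert_right] at hp
    obtain ⟨hS, ⟨hJ, hJi, hJS⟩, hF, hFv, hFS⟩ := hp
    simp only at hS hJ hJi hJS hF hFv hFS
    have hJv : ∀ x ∈ J, v ∈ ns i x := by
      intro x hx
      have : ns i x ∈ S.image (fun y => ({v, y} : Finset P)) := by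
        rw [← hJS]
        exact mem_image_of_mem _ hx
      obtain ⟨y, hy, hxy⟩ := mem_image.1 this
      rw [← hxy]
      simp
    have hFv' : ∀ x ∈ F, v ∉ ns i x := fun x hx h => hFv (mem_biUnion.2 ⟨x, hx, h⟩)
    have hdis : Disjoint J F := by
      rw [disjoint_left]
      intro x hx hx2
      exact hFv' x hx2 (hJv x hx)
    have e1 : ∏ x ∈ J, sgn i x = ∏ x ∈ J, -sgv i v x := by
      refine prod_congr rfl fun x hx => ?_
      unfold sgv
      rw [if_pos (hJv x hx), neg_neg]
    have e2 : ∏ x ∈ F, -sgn i x = ∏ x ∈ F, -sgv i v x := by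
      refine prod_congr rfl fun x hx => ?_
      unfold sgv
      rw [if_neg (hFv' x hx)]
    simp only
    rw [e1, e2, ← prod_union hdis, prod_neg]

end T6N
end Pool.Agent.GaussPoset.Win

end

/-! From `Pool.Agent.W_448qd_h16.QA` -/

section

/-! The first order identities at an integer `s`: raw form (MP_448cb3_co). -/

namespace Pool.Agent.GaussPoset.Win
namespace T6N

set_option linter.unusedSectionVars false

open Finset

universe u

section layers

variable {P : Type u} (X : Finset (Finset P)) (g : Finset P → ℤ) (K : ℕ) (s : ℤ)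

lemma lays0 (hX : ∀ F ∈ X, F.card ≤ K) (j : ℕ) :
    ∑ m ∈ range (K + 1 + j), s ^ m * ∑ F ∈ X.filter (fun F => F.card = m), g F =
      ∑ F ∈ X, s ^ F.card * g F := by
  rw [← sum_fiberwise_of_maps_to (s := X) (t := range (K + 1 + j)) (g := fun F => F.card)
    (fun F hF => mem_range.2 (by have := hX F hF; omega))]
  refine sum_congr rfl fun m _ => ?_
  rw [mul_sum]
  refine sum_congr rfl fun F hF => ?_
  rw [(mem_filter.1 hF).2]

lemma lays1 (hX : ∀ F ∈ X, F.card ≤ K) :
    s * ∑ m ∈ range (K + 1), s ^ m * ∑ F ∈ X.filter (fun F => F.card = m + 1), g F =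
      ∑ F ∈ X, s ^ F.card * g F - ∑ F ∈ X.filter (fun F => F.card = 0), g F := by
  rw [← lays0 X g K s hX 1, sum_range_succ' _ (K + 1)]
  have h : ∑ m ∈ range (K + 1), s ^ (m + 1) *
      ∑ F ∈ X.filter (fun F => F.card = m + 1), g F =
      s * ∑ m ∈ range (K + 1), s ^ m * ∑ F ∈ X.filter (fun F => F.card = m + 1), g F := by
    rw [mul_sum]
    refine sum_congr rfl fun m _ => ?_
    rw [pow_succ]
    ring
  rw [h, pow_zero]
  ring

lemma lays2 (hX : ∀ F ∈ X, F.card ≤ K) :
    s ^ 2 * ∑ m ∈ range (K + 1), s ^ m * ∑ F ∈ X.filter (fun F => F.card = m + 2), g F =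
      ∑ F ∈ X, s ^ F.card * g F - ∑ F ∈ X.filter (fun F => F.card = 0), g F -
        s * ∑ F ∈ X.filter (fun F => F.card = 1), g F := by
  rw [← lays0 X g K s hX 2, sum_range_succ' _ (K + 2), sum_range_succ' _ (K + 1)]
  have h : ∑ m ∈ range (K + 1), s ^ (m + 1 + 1) *
      ∑ F ∈ X.filter (fun F => F.card = m + 1 + 1), g F =
      s ^ 2 * ∑ m ∈ range (K + 1), s ^ m * ∑ F ∈ X.filter (fun F => F.card = m + 2), g F := by
    rw [mul_sum]
    refine sum_congr rfl fun m _ => ?_
    rw [pow_succ, pow_succ]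
    ring
  rw [h, pow_zero, zero_add, pow_one]
  ring

/-- sum of a layer identity -/
lemma lsums (f : ℕ → ℤ) (h : ∀ m, f m = 0) : ∑ m ∈ range (K + 1), s ^ m * f m = 0 :=
  sum_eq_zero fun m _ => by rw [h m, mul_zero]

end layers

variable {P : Type u} [Fintype P] [PartialOrder P] [DecidableEq P] {r : ℕ} {i : ℕ}

/-- weight of a family at `s` -/
noncomputable def oms (s : ℤ) (i : ℕ) (F : Finset P) : ℤ := s ^ F.card * eps i F

/-- families avoiding the sites `T` -/
noncomputable def phs (s : ℤ) (i : ℕ) (T : Finset P) : ℤ :=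
  ∑ F ∈ (FA P i).filter (fun F => Disjoint (F.biUnion (ns i)) T), oms s i F

/-- families containing `T` -/
noncomputable def pss (s : ℤ) (i : ℕ) (T : Finset P) : ℤ :=
  ∑ F ∈ (FA P i).filter (fun F => T ⊆ F), oms s i F

/-- the site sum -/
noncomputable def GGs (s : ℤ) (i : ℕ) (v : P) : ℤ :=
  ∑ G ∈ SA P i v, s ^ G.card * ∏ x ∈ G, sgv i v x

/-- the part `A` -/
lemma partAs (H : Gr P r) (hi : i ≤ r) (s : ℤ) :
    s ^ 2 * ∑ m ∈ range ((dbL P i ∪ dbU P i).card + 1), s ^ m *
      ∑ F ∈ FF P i (m + 2), eps i F * (3 * ((F ∩ dbU P i).card : ℤ) - 2 * ((m + 2 : ℕ) : ℤ)) =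
    3 * ∑ F ∈ FA P i, oms s i F * ((F ∩ dbU P i).card : ℤ) + 3 * s * ((dbU P i).card : ℤ) := by
  have h1 : ∀ m, ∑ F ∈ FF P i (m + 2), eps i F * (3 * ((F ∩ dbU P i).card : ℤ) -
      2 * ((m + 2 : ℕ) : ℤ)) =
      ∑ F ∈ (FA P i).filter (fun F => F.card = m + 2), 3 * (eps i F * (F ∩ dbU P i).card) := by
    intro m
    rw [← FF_eq]
    have h2 := kk H hi (k := m + 2) (by omega)
    have h3 : ∑ F ∈ FF P i (m + 2), eps i F * (3 * ((F ∩ dbU P i).card : ℤ) -
        2 * ((m + 2 : ℕ) : ℤ)) = ∑ F ∈ FF P i (m + 2), 3 * (eps i F * (F ∩ dbU P i).card) -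
        2 * ((m + 2 : ℕ) : ℤ) * ∑ F ∈ FF P i (m + 2), (-1 : ℤ) ^ (F ∩ dbU P i).card := by
      rw [mul_sum, ← sum_sub_distrib]
      refine sum_congr rfl fun F _ => ?_
      rw [← eps_eq]
      ring
    rw [h3, h2, mul_zero, sub_zero]
  simp only [h1]
  rw [lays2 (FA P i) (fun F => 3 * (eps i F * (F ∩ dbU P i).card)) _ s (fun F hF => FA_card hF),
    zero_fib (mem_FA.2 Dj_empty)]
  have h4 : ∑ F ∈ FA P i, s ^ F.card * (3 * (eps i F * (F ∩ dbU P i).card)) =
      3 * ∑ F ∈ FA P i, oms s i F * ((F ∩ dbU P i).card : ℤ) := by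
    rw [mul_sum]
    refine sum_congr rfl fun F _ => ?_
    unfold oms
    ring
  have h5 : ∑ F ∈ (FA P i).filter (fun F => F.card = 1), 3 * (eps i F * (F ∩ dbU P i).card) =
      -3 * ((dbU P i).card : ℤ) := by
    have h6 : (FA P i).filter (fun F => F.card = 1) = (dbL P i ∪ dbU P i).image (fun x => {x}) := by
      ext F
      rw [mem_filter, mem_FA, mem_image]
      constructor
      · rintro ⟨h7, h8⟩
        obtain ⟨x, rfl⟩ := card_eq_one.1 h8
        exact ⟨x, h7.1 (mem_singleton_self x), rfl⟩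
      · rintro ⟨x, hx, rfl⟩
        refine ⟨⟨singleton_subset_iff.2 hx, ?_⟩, card_singleton x⟩
        intro a ha b hb hne
        rw [mem_singleton] at ha hb
        exact absurd (ha.trans hb.symm) hne
    rw [h6, sum_image (fun a _ b _ h => singleton_injective h)]
    have h7 : ∀ x ∈ dbL P i ∪ dbU P i, 3 * (eps i {x} * (({x} : Finset P) ∩ dbU P i).card) =
        if x ∈ dbU P i then (-3 : ℤ) else 0 := by
      intro x hx
      split_ifs with h8
      · rw [eps_eq, inter_eq_left.2 (singleton_subset_iff.2 h8), card_singleton]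
        norm_num
      · rw [singleton_inter_of_notMem h8, card_empty]
        norm_num
    rw [sum_congr rfl h7, ← sum_filter, sum_const, nsmul_eq_mul]
    have h8 : (dbL P i ∪ dbU P i).filter (fun x => x ∈ dbU P i) = dbU P i := by
      ext x
      rw [mem_filter, mem_union]
      tauto
    rw [h8]
    ring
  rw [h4, h5, empty_inter, card_empty]
  push_cast
  ring

/-- RAW IDENTITY at `s` -/
theorem raws (H : Gr P r) (hi : i ≤ r) (h3 : ∀ x : P, lev x + 2 = i → dn i x ≤ 3) (s : ℤ) :
    (3 * ∑ F ∈ FA P i, oms s i F * ((F ∩ dbU P i).card : ℤ) + 3 * s * ((dbU P i).card : ℤ)) -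
      s * ∑ h ∈ sgl P i, (phs s i (ns i h) - 1) +
      s ^ 2 * ∑ p ∈ OP P i, osg i p * phs s i (p.biUnion (ns i)) +
      s * ∑ v ∈ lv P i, (GGs s i v - 1) +
      s * ∑ z ∈ lv P (i + 2), pss s i (uc z) +
      s ^ 2 * ∑ z ∈ (lv P (i + 2)).filter (fun z => (uc z).card = 2), pss s i (uc z) +
      s * ∑ z ∈ (lU P i 2).filter (fun z => (dc z).card = 1), pss s i (dc z) = 0 := by
  set K := (dbL P i ∪ dbU P i).card with hK
  have hid := lsums K s _ (fun m => idn H hi h3 (n := m + 2) (by omega))
  simp only [mul_add, sum_add_distrib, show ∀ m, m + 2 - 1 = m + 1 from fun m => by omega,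
    show ∀ m, m + 2 - 2 = m from fun m => by omega] at hid
  have hA := partAs H hi (P := P) (i := i) s
  rw [← hK] at hA
  have hB : s * ∑ m ∈ range (K + 1), s ^ m * ∑ h ∈ sgl P i, ∑ F ∈ FFa P i (m + 1) (ns i h),
      -eps i F = - ∑ h ∈ sgl P i, (phs s i (ns i h) - 1) := by
    have e : ∀ m, s ^ m * ∑ h ∈ sgl P i, ∑ F ∈ FFa P i (m + 1) (ns i h), -eps i F =
        ∑ h ∈ sgl P i, s ^ m * ∑ F ∈ FFa P i (m + 1) (ns i h), -eps i F := fun m => mul_sum _ _ _
    simp only [e]
    rw [sum_comm, mul_sum, ← sum_neg_distrib]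
    refine sum_congr rfl fun h _ => ?_
    simp only [FFa_eq]
    rw [lays1 _ (fun F => -eps i F) K s (fun F hF => FA_card (mem_filter.1 hF).1), zero_fib,
      eps_empty]
    · unfold phs oms
      have : ∑ F ∈ (FA P i).filter (fun F => Disjoint (F.biUnion (ns i)) (ns i h)),
          s ^ F.card * -eps i F = - ∑ F ∈ (FA P i).filter
            (fun F => Disjoint (F.biUnion (ns i)) (ns i h)), s ^ F.card * eps i F := by
        rw [← sum_neg_distrib]
        exact sum_congr rfl fun F _ => by ring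
      rw [this]
      ring
    · rw [mem_filter, mem_FA, biUnion_empty]
      exact ⟨Dj_empty, disjoint_empty_left _⟩
  have hC : ∑ m ∈ range (K + 1), s ^ m * ∑ p ∈ OP P i,
      ∑ F ∈ FFa P i m (p.biUnion (ns i)), osg i p * eps i F =
      ∑ p ∈ OP P i, osg i p * phs s i (p.biUnion (ns i)) := by
    simp only [mul_sum (OP P i)]
    rw [sum_comm]
    refine sum_congr rfl fun p _ => ?_
    simp only [FFa_eq]
    have h := lays0 ((FA P i).filter (fun F => Disjoint (F.biUnion (ns i)) (p.biUnion (ns i))))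
      (fun F => osg i p * eps i F) K s (fun F hF => FA_card (mem_filter.1 hF).1) 0
    rw [add_zero] at h
    rw [h]
    unfold phs oms
    rw [mul_sum]
    exact sum_congr rfl fun F _ => by ring
  have hD : s * ∑ m ∈ range (K + 1), s ^ m * ∑ v ∈ lv P i,
      ∑ G ∈ SV P i (m + 1) v, ∏ x ∈ G, sgv i v x = ∑ v ∈ lv P i, (GGs s i v - 1) := by
    have e : ∀ m, s ^ m * ∑ v ∈ lv P i, ∑ G ∈ SV P i (m + 1) v, ∏ x ∈ G, sgv i v x =
        ∑ v ∈ lv P i, s ^ m * ∑ G ∈ SV P i (m + 1) v, ∏ x ∈ G, sgv i v x :=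
      fun m => mul_sum _ _ _
    simp only [e]
    rw [sum_comm, mul_sum]
    refine sum_congr rfl fun v _ => ?_
    simp only [SV_eq]
    rw [lays1 _ (fun G => ∏ x ∈ G, sgv i v x) K s (fun F hF => SA_card hF), zero_fib, prod_empty]
    · unfold GGs
      ring
    · exact mem_SA.2 (SvF_empty v)
  have hne : ∀ z : P, z ∈ lv P (i + 2) → ∅ ∉ (FA P i).filter (fun F => uc z ⊆ F) := by
    intro z hz h
    rw [mem_filter, subset_empty] at h
    rw [mem_lv] at hz
    have := uc_nonempty H (x := z) (by omega)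
    rw [h.2] at this
    exact not_nonempty_empty this
  have hE4 : s * ∑ m ∈ range (K + 1), s ^ m * ∑ z ∈ lv P (i + 2),
      ∑ F ∈ FFc P i (m + 1) (uc z), eps i F = ∑ z ∈ lv P (i + 2), pss s i (uc z) := by
    have e : ∀ m, s ^ m * ∑ z ∈ lv P (i + 2), ∑ F ∈ FFc P i (m + 1) (uc z), eps i F =
        ∑ z ∈ lv P (i + 2), s ^ m * ∑ F ∈ FFc P i (m + 1) (uc z), eps i F :=
      fun m => mul_sum _ _ _
    simp only [e]
    rw [sum_comm, mul_sum]
    refine sum_congr rfl fun z hz => ?_
    simp only [FFc_eq]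
    rw [lays1 _ (fun F => eps i F) K s (fun F hF => FA_card (mem_filter.1 hF).1),
      zero_fib' (hne z hz)]
    unfold pss oms
    ring
  have hE5 : ∑ m ∈ range (K + 1), s ^ m *
      ∑ z ∈ (lv P (i + 2)).filter (fun z => (uc z).card = 2),
      ∑ F ∈ FFc P i m (uc z), eps i F =
      ∑ z ∈ (lv P (i + 2)).filter (fun z => (uc z).card = 2), pss s i (uc z) := by
    simp only [mul_sum ((lv P (i + 2)).filter (fun z => (uc z).card = 2))]
    rw [sum_comm]
    refine sum_congr rfl fun z hz => ?_
    simp only [FFc_eq]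
    have h := lays0 ((FA P i).filter (fun F => uc z ⊆ F))
      (fun F => eps i F) K s (fun F hF => FA_card (mem_filter.1 hF).1) 0
    rw [add_zero] at h
    rw [h]
    rfl
  have hE6 : s * ∑ m ∈ range (K + 1), s ^ m *
      ∑ z ∈ (lU P i 2).filter (fun z => (dc z).card = 1),
      ∑ F ∈ FFc P i (m + 1) (dc z), eps i F =
      ∑ z ∈ (lU P i 2).filter (fun z => (dc z).card = 1), pss s i (dc z) := by
    have e : ∀ m, s ^ m * ∑ z ∈ (lU P i 2).filter (fun z => (dc z).card = 1),
        ∑ F ∈ FFc P i (m + 1) (dc z), eps i F =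
        ∑ z ∈ (lU P i 2).filter (fun z => (dc z).card = 1),
          s ^ m * ∑ F ∈ FFc P i (m + 1) (dc z), eps i F :=
      fun m => mul_sum _ _ _
    simp only [e]
    rw [sum_comm, mul_sum]
    refine sum_congr rfl fun z hz => ?_
    simp only [FFc_eq]
    rw [lays1 _ (fun F => eps i F) K s (fun F hF => FA_card (mem_filter.1 hF).1), zero_fib']
    · unfold pss oms
      ring
    · intro h
      rw [mem_filter, subset_empty] at h
      rw [mem_filter, h.2, card_empty] at hz
      exact absurd hz.2 (by norm_num)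
  linear_combination s ^ 2 * hid - hA - s * hB - s ^ 2 * hC - s * hD - s * hE4 - s ^ 2 * hE5 -
    s * hE6

end T6N
end Pool.Agent.GaussPoset.Win

end
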