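import Mathlib
import Pool.Agent.W_448zz_h61.Ns
import Pool.Agent.W_448zz_h61.M007
import Pool.Agent.W_448zz_h61.M031

/-! From `Pool.Agent.W_448i2_h61.IC` -/

section

/-!
(I2) for Gaussian posets (MP_448cb3_co), row 431: the inequality for a configuration of a window.
-/

namespace Pool.Agent.GaussPoset.Win.I2

set_option linter.unusedSectionVars false

open Finset

universe u

variable {P : Type u} [Fintype P] [PartialOrder P] [DecidableEq P] {r i : ℕ} {e : P → ℕ}

/-- the lower side -/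
noncomputable def lS (P : Type u) [Fintype P] [PartialOrder P] [DecidableEq P] (i : ℕ) :
    Finset P := univ.filter (fun x => i < lev x)

/-- the upper side -/
noncomputable def uS (P : Type u) [Fintype P] [PartialOrder P] [DecidableEq P] (i : ℕ) :
    Finset P := univ.filter (fun x => lev x < i)

lemma mem_lS {x : P} : x ∈ lS P i ↔ i < lev x := by unfold lS; simp

lemma mem_uS {x : P} : x ∈ uS P i ↔ lev x < i := by unfold uS; simp

lemma kd_dc {a : P} : kd dc e a ↔ FD e a := by
  unfold kd FD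
  simp only [mem_dc]

lemma kd_uc {a : P} : kd uc e a ↔ FU e a := by
  unfold kd FU
  simp only [mem_uc]

lemma gu_uc {a : P} : gu uc e a ↔ GU e a := by
  unfold gu GU
  simp only [mem_uc]

lemma gu_dc {a : P} : gu dc e a ↔ GD e a := by
  unfold gu GD
  simp only [mem_dc]

lemma adm_low (h : AdmL i e) : ∀ z ∈ lS P i, ¬ (kd dc e z ∧ gu uc e z) := by
  intro z hz
  rw [kd_dc, gu_uc]
  exact h z (mem_lS.1 hz)

lemma adm_up (h : AdmU i e) : ∀ z ∈ uS P i, ¬ (kd uc e z ∧ gu dc e z) := by
  intro z hz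
  rw [kd_uc, gu_dc]
  exact h z (mem_uS.1 hz)

lemma KD_low : KD dc e (lv P i) = AL i e := by
  classical
  ext v
  unfold KD AL
  rw [mem_filter, mem_filter, kd_dc]

lemma KD_up : KD uc e (lv P i) = AU i e := by
  classical
  ext v
  unfold KD AU
  rw [mem_filter, mem_filter, kd_uc]

lemma fr_low : (fr uc dc e (lS P i)).card = pL i e := by
  classical
  unfold pL
  congr 1
  ext v
  unfold fr
  simp only [mem_filter, mem_lS, mem_univ, true_and, kd_dc, gu_uc]

lemma fr_up : (fr dc uc e (uS P i)).card = pU i e := by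
  classical
  unfold pU
  congr 1
  ext v
  unfold fr
  simp only [mem_filter, mem_uS, mem_univ, true_and, kd_uc, gu_dc]

lemma side_low (H : Gr P r) (hg : Good P (i + 1)) :
    Side uc dc (fun x : P => lev x - i) (lv P i) (lS P i) where
  dual := by
    intro x y
    rw [mem_uc, mem_dc]
  c2 := uc_card_le H
  c2' := dc_card_le H
  ne := by
    intro x hx
    rw [mem_lS] at hx
    exact uc_nonempty H (by omega)
  tS := by
    intro x hx
    rw [mem_lS] at hx
    omega
  tV := by
    intro x hx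
    rw [mem_lv] at hx
    omega
  cin := by
    intro x hx y hy
    rw [mem_lS] at hx
    have := lev_uc H hy
    rw [mem_lS, mem_lv]
    omega
  cout := by
    intro y hy x hx
    rw [mem_lS, mem_lv] at hy
    have := lev_dc H hx
    rw [mem_lS]
    omega
  good := by
    intro z hz ht y hy y' hy' hne
    classical
    rw [mem_lS] at hz
    have h1 := lev_uc H hy
    have h2 := lev_uc H hy'
    have h3 := hg y y' (by omega) (by omega) hne
    rw [mem_uc] at hy hy'
    have h4 : 0 < dcv y y' := by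
      unfold dcv
      rw [card_pos]
      exact ⟨z, by simp [hy, hy']⟩
    rw [← h3] at h4
    unfold ucv at h4
    rw [card_pos] at h4
    obtain ⟨x, hx⟩ := h4
    rw [mem_filter] at hx
    exact ⟨x, mem_uc.2 hx.2.1, mem_uc.2 hx.2.2⟩

lemma side_up (H : Gr P r) (hir : i ≤ r) (hg : ∀ m, m + 1 = i → Good P m) :
    Side dc uc (fun x : P => i - lev x) (lv P i) (uS P i) where
  dual := by
    intro x y
    rw [mem_uc, mem_dc]
  c2 := dc_card_le H
  c2' := uc_card_le H
  ne := by
    intro x hx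
    rw [mem_uS] at hx
    exact dc_nonempty H (by omega)
  tS := by
    intro x hx
    rw [mem_uS] at hx
    omega
  tV := by
    intro x hx
    rw [mem_lv] at hx
    omega
  cin := by
    intro x hx y hy
    rw [mem_uS] at hx
    have := lev_dc H hy
    rw [mem_uS, mem_lv]
    omega
  cout := by
    intro y hy x hx
    rw [mem_uS, mem_lv] at hy
    have := lev_uc H hx
    rw [mem_uS]
    omega
  good := by
    intro z hz ht y hy y' hy' hne
    classical
    rw [mem_uS] at hz
    have h1 := lev_dc H hy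
    have h2 := lev_dc H hy'
    have h3 := hg (lev y) (by omega) y y' rfl (by omega) hne
    rw [mem_dc] at hy hy'
    have h4 : 0 < ucv y y' := by
      unfold ucv
      rw [card_pos]
      exact ⟨z, by simp [hy, hy']⟩
    rw [h3] at h4
    unfold dcv at h4
    rw [card_pos] at h4
    obtain ⟨x, hx⟩ := h4
    rw [mem_filter] at hx
    exact ⟨x, mem_dc.2 hx.2.1, mem_dc.2 hx.2.2⟩

/-- the edge of `y` is simple in the configuration `e` -/
structure Smp (psi : P → P) (e : P → ℕ) (y : P) : Prop where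
  one : (e y = 1 ∧ e (psi y) = 0) ∨ (e y = 0 ∧ e (psi y) = 1)
  lo : ∀ z ∈ dc y, e z = 0
  up : ∀ u ∈ uc (psi y), e u = 0
  ex : ∃ x ∈ uc y, e x = 0
  lo' : ∀ x ∈ uc y, e x = 0 → ∀ z ∈ dc x, z ≠ y → e z = 0
  up' : ∀ x ∈ uc y, e x = 0 → ∀ u ∈ uc x, u ≠ psi y → e u = 0

open Classical in
/-- the simple edges -/
noncomputable def SS (i : ℕ) (psi : P → P) (e : P → ℕ) : Finset P :=
  (dbL P i).filter (fun y => Smp psi e y)

lemma mem_SS {psi : P → P} {y : P} : y ∈ SS i psi e ↔ y ∈ dbL P i ∧ Smp psi e y := by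
  classical
  unfold SS
  rw [mem_filter]

lemma mem_dbL' {y : P} : y ∈ dbL P i ↔ lev y = i + 1 ∧ (uc y).card = 2 := by
  classical
  unfold dbL
  simp

lemma mem_dbU' {y : P} : y ∈ dbU P i ↔ lev y + 1 = i ∧ (dc y).card = 2 := by
  classical
  unfold dbU
  simp

section mat

variable {psi : P → P} (hM : Mat P i ∅ psi)
include hM

lemma psi_low {y : P} (hy : y ∈ dbL P i) :
    psi y ∈ dbU P i ∧ dc (psi y) = uc y ∧ psi (psi y) = y := by
  have h1 := hM.low y hy (Finset.notMem_empty _)
  have h2 := hM.invol y (mem_union_left _ hy) (Finset.notMem_empty _)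
  exact ⟨h1.1, h1.2, h2.1⟩

lemma psi_up {w : P} (hw : w ∈ dbU P i) :
    psi w ∈ dbL P i ∧ uc (psi w) = dc w ∧ psi (psi w) = w := by
  have h1 := hM.upp w hw (Finset.notMem_empty _)
  have h2 := hM.invol w (mem_union_right _ hw) (Finset.notMem_empty _)
  exact ⟨h1.1, h1.2, h2.1⟩

/-- a bad lower element without excited lower covers is simple -/
lemma low_simple (H : Gr P r) (hg : Good P (i + 1)) (hU : AdmU i e)
    (hd : Disjoint (AL i e) (AU i e)) {y : P}
    (hy : y ∈ bd uc dc e (fun x : P => lev x - i) (lS P i)) (h0 : ∀ z ∈ dc y, e z = 0) :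
    y ∈ SS i psi e ∧ e y = 1 := by
  have S := side_low (i := i) H hg
  rw [mem_bd, mem_lS] at hy
  obtain ⟨hyS, ty, ey, ⟨a, ha, hlt⟩, cy⟩ := hy
  obtain ⟨c1, c3⟩ := cc_eq_two S cy
  have hdb : y ∈ dbL P i := mem_dbL'.2 ⟨by omega, c1⟩
  obtain ⟨h1, h2, h3⟩ := psi_low hM hdb
  have key : ∀ x ∈ uc y, e x = 0 → ∀ u ∈ uc x, e u = 0 := by
    intro x hx hx0 u hu
    by_contra hne
    have hlx := lev_uc H hx
    have h4 : x ∈ AL i e := by
      rw [NormD_mem_AL]
      exact ⟨by omega, y, mem_uc.1 hx, by omega⟩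
    have h5 : x ∈ AU i e := by
      rw [NormD_mem_AU]
      exact ⟨by omega, u, mem_uc.1 hu, by omega⟩
    exact disjoint_left.1 hd h4 h5
  have ha0 : e a = 0 := by omega
  have hau : psi y ∈ uc a := by
    rw [mem_uc, ← mem_dc, h2]
    exact ha
  have hp0 : e (psi y) = 0 := key a ha ha0 _ hau
  refine ⟨mem_SS.2 ⟨hdb, Or.inl ⟨ey, hp0⟩, h0, ?_, ⟨a, ha, ha0⟩, ?_, ?_⟩, ey⟩
  · intro u hu
    by_contra hne
    rw [mem_dbU'] at h1
    refine hU (psi y) (by omega) ⟨⟨u, mem_uc.1 hu, by omega⟩, ⟨a, ?_, by omega⟩⟩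
    rw [← mem_dc, h2]
    exact ha
  · intro x hx hx0 z hz hzy
    by_contra hne
    have h4 := c3 x hx (by omega)
    rw [Finset.card_eq_one] at h4
    obtain ⟨b, hb⟩ := h4
    have h5 : y ∈ kr dc e x := mem_kr.2 ⟨mem_dc.2 (mem_uc.1 hx), by omega⟩
    have h6 : z ∈ kr dc e x := mem_kr.2 ⟨hz, by omega⟩
    rw [hb, mem_singleton] at h5 h6
    exact hzy (h6.trans h5.symm)
  · intro x hx hx0 u hu _
    exact key x hx hx0 u hu

/-- a bad upper element without excited upper covers is simple -/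
lemma up_simple (H : Gr P r) (hir : i ≤ r) (hg : ∀ m, m + 1 = i → Good P m) (hL : AdmL i e)
    (hd : Disjoint (AL i e) (AU i e)) {w : P}
    (hw : w ∈ bd dc uc e (fun x : P => i - lev x) (uS P i)) (h0 : ∀ z ∈ uc w, e z = 0) :
    w ∈ dbU P i ∧ psi w ∈ SS i psi e ∧ e (psi w) = 0 := by
  have S := side_up H hir hg
  rw [mem_bd, mem_uS] at hw
  obtain ⟨hwS, tw, ew, ⟨a, ha, hlt⟩, cw⟩ := hw
  obtain ⟨c1, c3⟩ := cc_eq_two S cw
  have hdb : w ∈ dbU P i := mem_dbU'.2 ⟨by omega, c1⟩
  obtain ⟨h1, h2, h3⟩ := psi_up hM hdb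
  have key : ∀ x ∈ dc w, e x = 0 → ∀ u ∈ dc x, e u = 0 := by
    intro x hx hx0 u hu
    by_contra hne
    have hlx := lev_dc H hx
    have h4 : x ∈ AU i e := by
      rw [NormD_mem_AU]
      exact ⟨by omega, w, mem_dc.1 hx, by omega⟩
    have h5 : x ∈ AL i e := by
      rw [NormD_mem_AL]
      exact ⟨by omega, u, mem_dc.1 hu, by omega⟩
    exact disjoint_left.1 hd h5 h4
  have ha0 : e a = 0 := by omega
  have hau : psi w ∈ dc a := by
    rw [mem_dc, ← mem_uc, h2]
    exact ha
  have hp0 : e (psi w) = 0 := key a ha ha0 _ hau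
  refine ⟨hdb, mem_SS.2 ⟨h1, Or.inr ⟨hp0, by rw [h3]; exact ew⟩, ?_, ?_, ?_, ?_, ?_⟩, hp0⟩
  · intro u hu
    by_contra hne
    rw [mem_dbL'] at h1
    refine hL (psi w) (by omega) ⟨⟨u, mem_dc.1 hu, by omega⟩, ⟨a, ?_, by omega⟩⟩
    rw [← mem_uc, h2]
    exact ha
  · rw [h3]
    exact h0
  · rw [h2]
    exact ⟨a, ha, ha0⟩
  · rw [h2]
    intro x hx hx0 u hu _
    exact key x hx hx0 u hu
  · rw [h2, h3]
    intro x hx hx0 z hz hzy
    by_contra hne
    have h4 := c3 x hx (by omega)
    rw [Finset.card_eq_one] at h4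
    obtain ⟨b, hb⟩ := h4
    have h5 : w ∈ kr uc e x := mem_kr.2 ⟨mem_uc.2 (mem_dc.1 hx), by omega⟩
    have h6 : z ∈ kr uc e x := mem_kr.2 ⟨hz, by omega⟩
    rw [hb, mem_singleton] at h5 h6
    exact hzy (h6.trans h5.symm)

/-- THE INEQUALITY FOR A CONFIGURATION -/
theorem main_ineq (H : Gr P r) (hir : i ≤ r) (hg : ∀ m, i ≤ m + 1 → m ≤ i + 1 → Good P m)
    (hL : AdmL i e) (hU : AdmU i e) (hd : Disjoint (AL i e) (AU i e)) {δ : ℕ}
    (hδ : δ = 0 ∨ δ = 1 ∧ ∃ z : P, (i + 3 ≤ lev z ∨ lev z + 3 ≤ i) ∧ 1 ≤ e z) :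
    2 * ((AL i e).card + (AU i e).card) + δ ≤
      ∑ x, e x + 2 * (pL i e + pU i e) + (SS i psi e).card := by
  classical
  have SL := side_low (i := i) H (hg (i + 1) (by omega) (by omega))
  have SU := side_up H hir (fun m hm => hg m (by omega) (by omega))
  set bL := bd uc dc e (fun x : P => lev x - i) (lS P i) with hbL
  set bU := bd dc uc e (fun x : P => i - lev x) (uS P i) with hbU
  obtain ⟨BL, hBL⟩ : ∃ BL : Finset P, ∀ y, y ∈ BL ↔ y ∈ bL ∧ ∃ z ∈ dc y, 1 ≤ e z :=
    ⟨bL.filter (fun y => ∃ z ∈ dc y, 1 ≤ e z), fun y => mem_filter⟩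
  obtain ⟨BU, hBU⟩ : ∃ BU : Finset P, ∀ y, y ∈ BU ↔ y ∈ bU ∧ ∃ z ∈ uc y, 1 ≤ e z :=
    ⟨bU.filter (fun y => ∃ z ∈ uc y, 1 ≤ e z), fun y => mem_filter⟩
  obtain ⟨XL, hXL, iL⟩ := side_bound SL (adm_low hL) (B := BL) (fun y hy => ((hBL y).1 hy).1)
    (fun y hy => ((hBL y).1 hy).2)
  obtain ⟨XU, hXU, iU⟩ := side_bound SU (adm_up hU) (B := BU) (fun y hy => ((hBU y).1 hy).1)
    (fun y hy => ((hBU y).1 hy).2)
  rw [KD_low, fr_low, ← hbL] at iL
  rw [KD_up, fr_up, ← hbU] at iU
  -- simple edges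
  have h1 : (bL \ BL).card ≤ ((SS i psi e).filter (fun y => e y = 1)).card := by
    apply card_le_card
    intro y hy
    rw [mem_sdiff, hBL] at hy
    have h0 : ∀ z ∈ dc y, e z = 0 := by
      intro z hz
      by_contra hne
      exact hy.2 ⟨hy.1, z, hz, by omega⟩
    rw [mem_filter]
    exact low_simple hM H (hg (i + 1) (by omega) (by omega)) hU hd hy.1 h0
  have h2 : (bU \ BU).card ≤ ((SS i psi e).filter (fun y => ¬ e y = 1)).card := by
    have h0 : ∀ w ∈ bU \ BU, w ∈ dbU P i ∧ psi w ∈ SS i psi e ∧ e (psi w) = 0 := by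
      intro w hw
      rw [mem_sdiff, hBU] at hw
      have h0 : ∀ z ∈ uc w, e z = 0 := by
        intro z hz
        by_contra hne
        exact hw.2 ⟨hw.1, z, hz, by omega⟩
      exact up_simple hM H hir (fun m hm => hg m (by omega) (by omega)) hL hd hw.1 h0
    refine card_le_card_of_injOn psi ?_ ?_
    · intro w hw
      have := h0 w hw
      rw [mem_coe, mem_filter]
      exact ⟨this.2.1, by omega⟩
    · intro w hw w' hw' heq
      have h3 := (psi_up hM (h0 w hw).1).2.2
      have h4 := (psi_up hM (h0 w' hw').1).2.2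
      rw [← h3, ← h4, heq]
  have h3 : ((SS i psi e).filter (fun y => e y = 1)).card +
      ((SS i psi e).filter (fun y => ¬ e y = 1)).card = (SS i psi e).card :=
    Finset.card_filter_add_card_filter_not _
  -- sites
  have hdX : Disjoint XL XU := by
    rw [disjoint_left]
    intro x hx hx'
    obtain ⟨-, ex, -, hxL⟩ := hXL x hx
    obtain ⟨-, -, ⟨w, hw⟩, hxU⟩ := hXU x hx'
    have hwU := mem_bd.1 ((hBU _).1 (hxU w hw)).1
    obtain ⟨hwS, tw, ew, ⟨v, hv, hlt⟩, cw⟩ := hwU
    rw [mem_uS] at hwS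
    have hwdb : w ∈ dbU P i := mem_dbU'.2 ⟨by omega, (cc_eq_two SU cw).1⟩
    obtain ⟨q1, q2, q3⟩ := psi_up hM hwdb
    have hxy : psi w ∈ dc x := by
      rw [mem_dc, ← mem_uc, q2, mem_dc]
      exact mem_uc.1 hw
    have hyL := mem_bd.1 ((hBL _).1 (hxL _ hxy)).1
    have hlv := lev_dc H hv
    have h4 : v ∈ AL i e := by
      rw [NormD_mem_AL]
      refine ⟨by omega, psi w, ?_, ?_⟩
      · rw [← mem_uc, q2]
        exact hv
      · have := hyL.2.2.1
        omega
    have h5 : v ∈ AU i e := by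
      rw [NormD_mem_AU]
      exact ⟨by omega, w, mem_dc.1 hv, hlt⟩
    exact disjoint_left.1 hd h4 h5
  have h4 : XL.card + XU.card ≤ ∑ x ∈ lv P i, e x := by
    rw [← card_union_of_disjoint hdX, Finset.card_eq_sum_ones]
    refine le_trans (Finset.sum_le_sum (g := fun x => e x) ?_) ?_
    · intro x hx
      rcases mem_union.1 hx with h | h
      · exact (hXL x h).2.1
      · exact (hXU x h).2.1
    · apply Finset.sum_le_sum_of_subset
      intro x hx
      rcases mem_union.1 hx with h | h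
      · exact (hXL x h).1
      · exact (hXU x h).1
  have h5 : ∑ x, e x = ∑ x ∈ lS P i, e x + ∑ x ∈ uS P i, e x + ∑ x ∈ lv P i, e x := by
    have h6 : (univ : Finset P) = (lS P i ∪ uS P i) ∪ lv P i := by
      ext x
      simp only [mem_univ, mem_union, mem_lS, mem_uS, mem_lv, true_iff]
      omega
    rw [h6, Finset.sum_union, Finset.sum_union]
    · rw [disjoint_left]
      intro x hx hx'
      rw [mem_lS] at hx
      rw [mem_uS] at hx'
      omega
    · rw [disjoint_left]
      intro x hx hx'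
      rw [mem_union, mem_lS, mem_uS] at hx
      rw [mem_lv] at hx'
      omega
  have h6 : ((∑ x ∈ lS P i, e x : ℕ) : ℤ) = ∑ x ∈ lS P i, (e x : ℤ) := by push_cast; rfl
  have h7 : ((∑ x ∈ uS P i, e x : ℕ) : ℤ) = ∑ x ∈ uS P i, (e x : ℤ) := by push_cast; rfl
  rw [← h6] at iL
  rw [← h7] at iU
  rcases hδ with rfl | ⟨rfl, z, hz | hz, hze⟩
  · have iL0 := iL 0 (Or.inl rfl)
    have iU0 := iU 0 (Or.inl rfl)
    omega
  · have iL0 := iL 1 (Or.inr ⟨rfl, z, mem_lS.2 (by omega), by omega, hze⟩)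
    have iU0 := iU 0 (Or.inl rfl)
    omega
  · have iL0 := iL 0 (Or.inl rfl)
    have iU0 := iU 1 (Or.inr ⟨rfl, z, mem_uS.2 (by omega), by omega, hze⟩)
    omega

end mat

end Pool.Agent.GaussPoset.Win.I2

end

/-! From `Pool.Agent.W_448i2_h61.ID` -/

section

/-!
(I2) for Gaussian posets (MP_448cb3_co), row 431: the swap at a simple edge.
-/

namespace Pool.Agent.GaussPoset.Win.I2

set_option linter.unusedSectionVars false

open Finset

universe u

variable {P : Type u} [Fintype P] [PartialOrder P] [DecidableEq P] {r i : ℕ} {e : P → ℕ}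

/-- exchange the labels of `y` and of its partner -/
def sw (psi : P → P) (y : P) (e : P → ℕ) : P → ℕ := e ∘ Equiv.swap y (psi y)

lemma sw_y (psi : P → P) (y : P) (e : P → ℕ) : sw psi y e y = e (psi y) := by
  unfold sw; rw [Function.comp_apply, Equiv.swap_apply_left]

lemma sw_psi (psi : P → P) (y : P) (e : P → ℕ) : sw psi y e (psi y) = e y := by
  unfold sw; rw [Function.comp_apply, Equiv.swap_apply_right]

lemma sw_ne {psi : P → P} {x y : P} (e : P → ℕ) (h1 : x ≠ y) (h2 : x ≠ psi y) :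
    sw psi y e x = e x := by
  unfold sw; rw [Function.comp_apply, Equiv.swap_apply_of_ne_of_ne h1 h2]

lemma sw_sw (psi : P → P) (y : P) (e : P → ℕ) : sw psi y (sw psi y e) = e := by
  funext x
  unfold sw
  simp only [Function.comp_apply, Equiv.swap_apply_self]

lemma sum_sw (psi : P → P) (y : P) (e : P → ℕ) : ∑ x, sw psi y e x = ∑ x, e x :=
  Equiv.sum_comp (Equiv.swap y (psi y)) e

section mat

variable {psi : P → P} (hM : Mat P i ∅ psi)
include hM

lemma sw_lev {y : P} (hy : y ∈ dbL P i) {x : P} (h1 : lev x ≠ i + 1) (h2 : lev x + 1 ≠ i)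
    (e : P → ℕ) : sw psi y e x = e x := by
  have h3 := (psi_low hM hy).1
  rw [mem_dbU'] at h3
  rw [mem_dbL'] at hy
  apply sw_ne
  · rintro rfl
    exact h1 hy.1
  · rintro rfl
    exact h2 h3.1

/-- two simple edges have no common end with label zero -/
lemma no_common {y y' : P} (hy : y ∈ SS i psi e) (hy' : y' ∈ SS i psi e) (hne : y' ≠ y) {x : P}
    (hx : x ∈ uc y) (hx' : x ∈ uc y') (h0 : e x = 0) : False := by
  rw [mem_SS] at hy hy'
  have hn : psi y' ≠ psi y := by
    intro h
    apply hne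
    rw [← (psi_low hM hy.1).2.2, ← (psi_low hM hy'.1).2.2, h]
  have h1 : e y' = 0 := hy.2.lo' x hx h0 y' (mem_dc.2 (mem_uc.1 hx')) hne
  have h2 : psi y' ∈ uc x := by
    rw [mem_uc, ← mem_dc, (psi_low hM hy'.1).2.1]
    exact hx'
  have h3 : e (psi y') = 0 := hy.2.up' x hx h0 _ h2 hn
  rcases hy'.2.one with h | h <;> omega

lemma SS_sub (H : Gr P r) {y : P} (hy : y ∈ SS i psi e) :
    SS i psi e ⊆ SS i psi (sw psi y e) := by
  intro y' hy'
  have hy0 := (mem_SS.1 hy).1
  have hyS := (mem_SS.1 hy).2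
  have hy0' := (mem_SS.1 hy').1
  have hyS' := (mem_SS.1 hy').2
  obtain ⟨p1, p2, p3⟩ := psi_low hM hy0
  obtain ⟨q1, q2, q3⟩ := psi_low hM hy0'
  have hl := (mem_dbL'.1 hy0).1
  have hl' := (mem_dbL'.1 hy0').1
  have hp := (mem_dbU'.1 p1).1
  have hq := (mem_dbU'.1 q1).1
  have uy' : ∀ x ∈ uc y', sw psi y e x = e x := by
    intro x hx
    have := lev_uc H hx
    exact sw_lev hM hy0 (by omega) (by omega) e
  rw [mem_SS]
  refine ⟨hy0', ?_, ?_, ?_, ?_, ?_, ?_⟩
  · by_cases h : y' = y
    · subst h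
      rw [sw_y, sw_psi]
      rcases hyS.one with h1 | h1
      · exact Or.inr ⟨h1.2, h1.1⟩
      · exact Or.inl ⟨h1.2, h1.1⟩
    · rw [sw_ne e h (by rintro rfl; omega), sw_ne e (x := psi y') (by
        intro h2
        rw [← h2] at hl
        omega) (by
        intro h2
        apply h
        rw [← p3, ← q3, h2])]
      exact hyS'.one
  · intro z hz
    have := lev_dc H hz
    rw [sw_lev hM hy0 (by omega) (by omega)]
    exact hyS'.lo z hz
  · intro u hu
    have := lev_uc H hu
    rw [sw_lev hM hy0 (by omega) (by omega)]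
    exact hyS'.up u hu
  · obtain ⟨x, hx, hx0⟩ := hyS'.ex
    exact ⟨x, hx, by rw [uy' x hx, hx0]⟩
  · intro x hx hx0 z hz hzy
    rw [uy' x hx] at hx0
    have h1 := lev_dc H hz
    have h2 := lev_uc H hx
    have hz0 := hyS'.lo' x hx hx0 z hz hzy
    by_cases h3 : z = y
    · subst h3
      exact absurd (no_common hM hy' hy (fun h => hzy h) hx (mem_uc.2 (mem_dc.1 hz)) hx0) id
    · rw [sw_ne e h3 (by rintro rfl; omega), hz0]
  · intro x hx hx0 u hu huy
    rw [uy' x hx] at hx0
    have h1 := lev_uc H hu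
    have h2 := lev_uc H hx
    have hu0 := hyS'.up' x hx hx0 u hu huy
    by_cases h3 : u = psi y
    · subst h3
      have h4 : x ∈ uc y := by
        rw [← p2, mem_dc, ← mem_uc]
        exact hu
      refine absurd (no_common hM hy' hy ?_ hx h4 hx0) id
      rintro rfl
      exact huy rfl
    · rw [sw_ne e (by rintro rfl; omega) h3, hu0]

/-- the simple edges are not changed by a swap -/
theorem SS_sw (H : Gr P r) {y : P} (hy : y ∈ SS i psi e) :
    SS i psi (sw psi y e) = SS i psi e := by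
  have h1 := SS_sub hM H hy
  apply Finset.Subset.antisymm _ h1
  have h2 := SS_sub hM H (h1 hy)
  rwa [sw_sw] at h2

end mat

/-- the ends of `y` with label zero -/
noncomputable def z0 (e : P → ℕ) (y : P) : Finset P := (uc y).filter (fun x => e x = 0)

section stat

variable {psi : P → P} (hM : Mat P i ∅ psi) (H : Gr P r) {y : P} (hy : y ∈ SS i psi e)
  (h1 : e y = 1)
include hM H hy h1

lemma psi0 : e (psi y) = 0 := by
  rcases (mem_SS.1 hy).2.one with h | h <;> omega

lemma FD_sw {z : P} (hz : i < lev z) : FD (sw psi y e) z ↔ FD e z := by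
  have hy0 := (mem_SS.1 hy).1
  have hyS := (mem_SS.1 hy).2
  have hl := (mem_dbL'.1 hy0).1
  have hp := (mem_dbU'.1 (psi_low hM hy0).1).1
  have key : ∀ z', z' ⋖ z → sw psi y e z' = e z' := by
    intro z' hz'
    have := lev_uc H (mem_uc.2 hz')
    exact sw_lev hM hy0 (by omega) (by omega) e
  by_cases h : z = y
  · subst h
    constructor
    · rintro ⟨z', hz', hlt⟩
      rw [key z' hz', hyS.lo z' (mem_dc.2 hz')] at hlt
      omega
    · rintro ⟨z', hz', hlt⟩
      rw [hyS.lo z' (mem_dc.2 hz')] at hlt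
      omega
  · have h2 : sw psi y e z = e z := sw_ne e h (by rintro rfl; omega)
    constructor
    · rintro ⟨z', hz', hlt⟩
      exact ⟨z', hz', by rwa [key z' hz', h2] at hlt⟩
    · rintro ⟨z', hz', hlt⟩
      exact ⟨z', hz', by rwa [key z' hz', h2]⟩

lemma GU_sw {z : P} (hz : i < lev z) (hne : z ≠ y) : GU (sw psi y e) z ↔ GU e z := by
  have hy0 := (mem_SS.1 hy).1
  have hyS := (mem_SS.1 hy).2
  have hl := (mem_dbL'.1 hy0).1
  have hp := (mem_dbU'.1 (psi_low hM hy0).1).1
  have h2 : sw psi y e z = e z := sw_ne e hne (by rintro rfl; omega)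
  by_cases h : y ∈ uc z
  · have h3 : e z = 0 := hyS.lo z (mem_dc.2 (mem_uc.1 h))
    constructor
    · intro _
      exact ⟨y, mem_uc.1 h, by omega⟩
    · intro _
      exact ⟨y, mem_uc.1 h, by rw [h2]; omega⟩
  · have key : ∀ a, z ⋖ a → sw psi y e a = e a := by
      intro a ha
      have := lev_uc H (mem_uc.2 ha)
      exact sw_ne e (by rintro rfl; exact h (mem_uc.2 ha)) (by rintro rfl; omega)
    constructor
    · rintro ⟨a, ha, hle⟩
      exact ⟨a, ha, by rwa [h2, key a ha] at hle⟩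
    · rintro ⟨a, ha, hle⟩
      exact ⟨a, ha, by rwa [h2, key a ha]⟩

lemma FU_sw {z : P} (hz : lev z < i) : FU (sw psi y e) z ↔ FU e z := by
  have hy0 := (mem_SS.1 hy).1
  have hyS := (mem_SS.1 hy).2
  have hl := (mem_dbL'.1 hy0).1
  have hp := (mem_dbU'.1 (psi_low hM hy0).1).1
  have key : ∀ z', z ⋖ z' → sw psi y e z' = e z' := by
    intro z' hz'
    have := lev_uc H (mem_uc.2 hz')
    exact sw_lev hM hy0 (by omega) (by omega) e
  by_cases h : z = psi y
  · subst h
    constructor
    · rintro ⟨z', hz', hlt⟩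
      rw [key z' hz', hyS.up z' (mem_uc.2 hz')] at hlt
      omega
    · rintro ⟨z', hz', hlt⟩
      rw [hyS.up z' (mem_uc.2 hz')] at hlt
      omega
  · have h2 : sw psi y e z = e z := sw_ne e (by rintro rfl; omega) h
    constructor
    · rintro ⟨z', hz', hlt⟩
      exact ⟨z', hz', by rwa [key z' hz', h2] at hlt⟩
    · rintro ⟨z', hz', hlt⟩
      exact ⟨z', hz', by rwa [key z' hz', h2]⟩

lemma GD_sw {z : P} (hz : lev z < i) (hne : z ≠ psi y) : GD (sw psi y e) z ↔ GD e z := by
  have hy0 := (mem_SS.1 hy).1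
  have hyS := (mem_SS.1 hy).2
  have hl := (mem_dbL'.1 hy0).1
  have hp := (mem_dbU'.1 (psi_low hM hy0).1).1
  have h2 : sw psi y e z = e z := sw_ne e (by rintro rfl; omega) hne
  by_cases h : psi y ∈ dc z
  · have h3 : e z = 0 := hyS.up z (mem_uc.2 (mem_dc.1 h))
    constructor
    · intro _
      exact ⟨psi y, mem_dc.1 h, by omega⟩
    · intro _
      exact ⟨psi y, mem_dc.1 h, by rw [h2]; omega⟩
  · have key : ∀ a, a ⋖ z → sw psi y e a = e a := by
      intro a ha
      have := lev_uc H (mem_uc.2 ha)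
      exact sw_ne e (by rintro rfl; omega) (by rintro rfl; exact h (mem_dc.2 ha))
    constructor
    · rintro ⟨a, ha, hle⟩
      exact ⟨a, ha, by rwa [h2, key a ha] at hle⟩
    · rintro ⟨a, ha, hle⟩
      exact ⟨a, ha, by rwa [h2, key a ha]⟩

lemma not_FD_y : ¬ FD e y := by
  rintro ⟨z', hz', hlt⟩
  rw [(mem_SS.1 hy).2.lo z' (mem_dc.2 hz')] at hlt
  omega

lemma GU_y : GU e y ↔ (z0 e y).card ≠ 2 := by
  have hc := (mem_dbL'.1 (mem_SS.1 hy).1).2
  unfold z0
  constructor
  · rintro ⟨a, ha, hle⟩ h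
    have h2 : (uc y).filter (fun x => e x = 0) = uc y := by
      apply Finset.eq_of_subset_of_card_le (filter_subset _ _)
      omega
    have h3 : a ∈ (uc y).filter (fun x => e x = 0) := by
      rw [h2]
      exact mem_uc.2 ha
    rw [mem_filter] at h3
    omega
  · intro h
    by_contra h2
    apply h
    rw [← hc]
    congr 1
    rw [Finset.filter_eq_self]
    intro a ha
    by_contra h3
    exact h2 ⟨a, mem_uc.1 ha, by omega⟩

lemma GU_sw_y : GU (sw psi y e) y := by
  have hc := (mem_dbL'.1 (mem_SS.1 hy).1).2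
  have h2 : (uc y).Nonempty := by
    rw [← card_pos]
    omega
  obtain ⟨a, ha⟩ := h2
  refine ⟨a, mem_uc.1 ha, ?_⟩
  rw [sw_y, psi0 hM H hy h1]
  exact Nat.zero_le _

lemma not_FU_psi : ¬ FU (sw psi y e) (psi y) := by
  have hp := (mem_dbU'.1 (psi_low hM (mem_SS.1 hy).1).1).1
  rintro ⟨z', hz', hlt⟩
  have := lev_uc H (mem_uc.2 hz')
  have h2 := sw_lev hM (mem_SS.1 hy).1 (x := z') (by omega) (by omega) e
  rw [h2, (mem_SS.1 hy).2.up z' (mem_uc.2 hz')] at hlt
  omega

lemma GD_psi : GD e (psi y) := by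
  have hc := (mem_dbU'.1 (psi_low hM (mem_SS.1 hy).1).1).2
  have h2 : (dc (psi y)).Nonempty := by
    rw [← card_pos]
    omega
  obtain ⟨a, ha⟩ := h2
  refine ⟨a, mem_dc.1 ha, ?_⟩
  rw [psi0 hM H hy h1]
  exact Nat.zero_le _

lemma GD_sw_psi : GD (sw psi y e) (psi y) ↔ (z0 e y).card ≠ 2 := by
  obtain ⟨p1, p2, p3⟩ := psi_low hM (mem_SS.1 hy).1
  have hl := (mem_dbL'.1 (mem_SS.1 hy).1).1
  rw [← GU_y hM H hy h1]
  have key : ∀ a ∈ uc y, sw psi y e a = e a := by
    intro a ha
    have := lev_uc H ha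
    exact sw_lev hM (mem_SS.1 hy).1 (by omega) (by omega) e
  unfold GD GU
  rw [sw_psi]
  constructor
  · rintro ⟨a, ha, hle⟩
    have h2 : a ∈ uc y := by
      rw [← p2]
      exact mem_dc.2 ha
    exact ⟨a, mem_uc.1 h2, by rwa [key a h2] at hle⟩
  · rintro ⟨a, ha, hle⟩
    refine ⟨a, ?_, by rwa [key a (mem_uc.2 ha)]⟩
    rw [← mem_dc, p2]
    exact mem_uc.2 ha

lemma AdmL_sw : AdmL i (sw psi y e) ↔ AdmL i e := by
  constructor
  · rintro h z hz ⟨h2, h3⟩
    have h4 : z ≠ y := by
      rintro rfl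
      exact not_FD_y hM H hy h1 h2
    exact h z hz ⟨(FD_sw hM H hy h1 hz).2 h2, (GU_sw hM H hy h1 hz h4).2 h3⟩
  · rintro h z hz ⟨h2, h3⟩
    rw [FD_sw hM H hy h1 hz] at h2
    have h4 : z ≠ y := by
      rintro rfl
      exact not_FD_y hM H hy h1 h2
    exact h z hz ⟨h2, (GU_sw hM H hy h1 hz h4).1 h3⟩

lemma AdmU_sw : AdmU i (sw psi y e) ↔ AdmU i e := by
  constructor
  · rintro h z hz ⟨h2, h3⟩
    rw [← FU_sw hM H hy h1 hz] at h2
    have h4 : z ≠ psi y := by
      rintro rfl
      exact not_FU_psi hM H hy h1 h2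
    exact h z hz ⟨h2, (GD_sw hM H hy h1 hz h4).2 h3⟩
  · rintro h z hz ⟨h2, h3⟩
    have h4 : z ≠ psi y := by
      rintro rfl
      exact not_FU_psi hM H hy h1 h2
    rw [FU_sw hM H hy h1 hz] at h2
    exact h z hz ⟨h2, (GD_sw hM H hy h1 hz h4).1 h3⟩

lemma aL_sw : aL i (sw psi y e) = aL i e := by
  classical
  unfold aL
  congr 1
  ext z
  simp only [mem_filter, mem_univ, true_and]
  constructor
  · rintro ⟨hz, h⟩
    exact ⟨hz, (FD_sw hM H hy h1 hz).1 h⟩
  · rintro ⟨hz, h⟩
    exact ⟨hz, (FD_sw hM H hy h1 hz).2 h⟩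

lemma aU_sw : aU i (sw psi y e) = aU i e := by
  classical
  unfold aU
  congr 1
  ext z
  simp only [mem_filter, mem_univ, true_and]
  constructor
  · rintro ⟨hz, h⟩
    exact ⟨hz, (FU_sw hM H hy h1 hz).1 h⟩
  · rintro ⟨hz, h⟩
    exact ⟨hz, (FU_sw hM H hy h1 hz).2 h⟩

lemma pL_sw : pL i e = pL i (sw psi y e) + (if (z0 e y).card = 2 then 1 else 0) := by
  classical
  have hl := (mem_dbL'.1 (mem_SS.1 hy).1).1
  unfold pL
  have h2 : univ.filter (fun z : P => i < lev z ∧ ¬ FD e z ∧ ¬ GU e z) =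
      univ.filter (fun z : P => i < lev z ∧ ¬ FD (sw psi y e) z ∧ ¬ GU (sw psi y e) z) ∪
        (if (z0 e y).card = 2 then {y} else ∅) := by
    ext z
    simp only [mem_filter, mem_univ, true_and, mem_union]
    by_cases hz : z = y
    · subst hz
      have h3 := GU_sw_y hM H hy h1
      have h4 := not_FD_y hM H hy h1
      have h5 := GU_y hM H hy h1
      split_ifs with h6
      · simp only [mem_singleton, or_true, iff_true]
        exact ⟨by omega, h4, fun h => (h5.1 h) h6⟩
      · simp only [notMem_empty, or_false]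
        constructor
        · rintro ⟨-, -, h⟩
          exact absurd (h5.2 h6) h
        · rintro ⟨-, -, h⟩
          exact absurd h3 h
    · have h3 : z ∉ (if (z0 e y).card = 2 then ({y} : Finset P) else ∅) := by
        split_ifs
        · rwa [mem_singleton]
        · exact notMem_empty _
      simp only [h3, or_false]
      constructor
      · rintro ⟨h4, h5, h6⟩
        refine ⟨h4, ?_, ?_⟩
        · rwa [FD_sw hM H hy h1 h4]
        · rwa [GU_sw hM H hy h1 h4 hz]
      · rintro ⟨h4, h5, h6⟩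
        rw [FD_sw hM H hy h1 h4] at h5
        rw [GU_sw hM H hy h1 h4 hz] at h6
        exact ⟨h4, h5, h6⟩
  rw [h2, card_union_of_disjoint]
  · split_ifs <;> simp
  · split_ifs
    · rw [disjoint_singleton_right, mem_filter]
      rintro ⟨-, -, -, h⟩
      exact h (GU_sw_y hM H hy h1)
    · exact disjoint_empty_right _

lemma pU_sw : pU i (sw psi y e) = pU i e + (if (z0 e y).card = 2 then 1 else 0) := by
  classical
  have hp := (mem_dbU'.1 (psi_low hM (mem_SS.1 hy).1).1).1
  unfold pU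
  have h2 : univ.filter (fun z : P => lev z < i ∧ ¬ FU (sw psi y e) z ∧ ¬ GD (sw psi y e) z) =
      univ.filter (fun z : P => lev z < i ∧ ¬ FU e z ∧ ¬ GD e z) ∪
        (if (z0 e y).card = 2 then {psi y} else ∅) := by
    ext z
    simp only [mem_filter, mem_univ, true_and, mem_union]
    by_cases hz : z = psi y
    · subst hz
      have h3 := GD_psi hM H hy h1
      have h4 := not_FU_psi hM H hy h1
      have h5 := GD_sw_psi hM H hy h1
      split_ifs with h6
      · simp only [mem_singleton, or_true, iff_true]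
        exact ⟨by omega, h4, fun h => (h5.1 h) h6⟩
      · simp only [notMem_empty, or_false]
        constructor
        · rintro ⟨-, -, h⟩
          exact absurd (h5.2 h6) h
        · rintro ⟨-, -, h⟩
          exact absurd h3 h
    · have h3 : z ∉ (if (z0 e y).card = 2 then ({psi y} : Finset P) else ∅) := by
        split_ifs
        · rwa [mem_singleton]
        · exact notMem_empty _
      simp only [h3, or_false]
      constructor
      · rintro ⟨h4, h5, h6⟩
        rw [FU_sw hM H hy h1 h4] at h5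
        rw [GD_sw hM H hy h1 h4 hz] at h6
        exact ⟨h4, h5, h6⟩
      · rintro ⟨h4, h5, h6⟩
        refine ⟨h4, ?_, ?_⟩
        · rwa [FU_sw hM H hy h1 h4]
        · rwa [GD_sw hM H hy h1 h4 hz]
  rw [h2, card_union_of_disjoint]
  · split_ifs <;> simp
  · split_ifs
    · rw [disjoint_singleton_right, mem_filter]
      rintro ⟨-, -, -, h⟩
      exact h (GD_psi hM H hy h1)
    · exact disjoint_empty_right _

lemma AL_sw : AL i e = AL i (sw psi y e) ∪ z0 e y ∧ Disjoint (AL i (sw psi y e)) (z0 e y) := by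
  classical
  have hy0 := (mem_SS.1 hy).1
  have hyS := (mem_SS.1 hy).2
  have hl := (mem_dbL'.1 hy0).1
  have hp := (mem_dbU'.1 (psi_low hM hy0).1).1
  have hp0 := psi0 hM H hy h1
  have site : ∀ v, lev v = i → sw psi y e v = e v := fun v hv =>
    sw_lev hM hy0 (by omega) (by omega) e
  have hzf : ∀ v ∈ z0 e y, ¬ FD (sw psi y e) v := by
    intro v hv
    unfold z0 at hv
    rw [mem_filter] at hv
    have h2 := lev_uc H hv.1
    rintro ⟨z, hz, hlt⟩
    have h3 := lev_dc H (mem_dc.2 hz)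
    by_cases h4 : z = y
    · subst h4
      rw [sw_y, hp0] at hlt
      omega
    · rw [sw_ne e h4 (by rintro rfl; omega),
        hyS.lo' v hv.1 hv.2 z (mem_dc.2 hz) h4] at hlt
      omega
  constructor
  · ext v
    rw [mem_union, NormD_mem_AL, NormD_mem_AL]
    constructor
    · rintro ⟨hv, z, hz, hlt⟩
      have h3 := lev_dc H (mem_dc.2 hz)
      by_cases h4 : z = y
      · rw [h4] at hz hlt
        right
        unfold z0
        rw [mem_filter]
        exact ⟨mem_uc.2 hz, by omega⟩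
      · left
        refine ⟨hv, z, hz, ?_⟩
        rwa [site v hv, sw_ne e h4 (by rintro rfl; omega)]
    · rintro (⟨hv, z, hz, hlt⟩ | h)
      · refine ⟨hv, z, hz, ?_⟩
        have h3 := lev_dc H (mem_dc.2 hz)
        by_cases h4 : z = y
        · subst h4
          rw [sw_y, hp0] at hlt
          omega
        · rwa [site v hv, sw_ne e h4 (by rintro rfl; omega)] at hlt
      · unfold z0 at h
        rw [mem_filter] at h
        have h2 := lev_uc H h.1
        exact ⟨by omega, y, mem_uc.1 h.1, by omega⟩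
  · rw [disjoint_left]
    intro v hv hv'
    rw [NormD_mem_AL] at hv
    exact hzf v hv' hv.2

lemma AU_sw : AU i (sw psi y e) = AU i e ∪ z0 e y ∧ Disjoint (AU i e) (z0 e y) := by
  classical
  have hy0 := (mem_SS.1 hy).1
  have hyS := (mem_SS.1 hy).2
  have hl := (mem_dbL'.1 hy0).1
  obtain ⟨p1, p2, p3⟩ := psi_low hM hy0
  have hp := (mem_dbU'.1 p1).1
  have hp0 := psi0 hM H hy h1
  have site : ∀ v, lev v = i → sw psi y e v = e v := fun v hv =>
    sw_lev hM hy0 (by omega) (by omega) e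
  have hz : ∀ v ∈ z0 e y, ¬ FU e v := by
    intro v hv
    unfold z0 at hv
    rw [mem_filter] at hv
    have h2 := lev_uc H hv.1
    rintro ⟨z, hz, hlt⟩
    by_cases h4 : z = psi y
    · subst h4
      omega
    · rw [hyS.up' v hv.1 hv.2 z (mem_uc.2 hz) h4] at hlt
      omega
  constructor
  · ext v
    rw [mem_union, NormD_mem_AU, NormD_mem_AU]
    constructor
    · rintro ⟨hv, z, hz, hlt⟩
      have h3 := lev_uc H (mem_uc.2 hz)
      rw [site v hv] at hlt
      by_cases h4 : z = psi y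
      · subst h4
        right
        rw [sw_psi] at hlt
        unfold z0
        rw [mem_filter]
        refine ⟨?_, by omega⟩
        rw [← p2]
        exact mem_dc.2 hz
      · left
        refine ⟨hv, z, hz, ?_⟩
        rwa [sw_ne e (by rintro rfl; omega) h4] at hlt
    · rintro (⟨hv, z, hz, hlt⟩ | h)
      · refine ⟨hv, z, hz, ?_⟩
        have h3 := lev_uc H (mem_uc.2 hz)
        rw [site v hv]
        by_cases h4 : z = psi y
        · subst h4
          omega
        · rwa [sw_ne e (by rintro rfl; omega) h4]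
      · unfold z0 at h
        rw [mem_filter] at h
        have h2 := lev_uc H h.1
        refine ⟨by omega, psi y, ?_, ?_⟩
        · rw [← mem_dc, p2]
          exact h.1
        · rw [site v (by omega), sw_psi]
          omega
  · rw [disjoint_left]
    intro v hv hv'
    rw [NormD_mem_AU] at hv
    exact hz v hv' hv.2

end stat

end Pool.Agent.GaussPoset.Win.I2

end

/-! From `Pool.Agent.W_448i2_h61.IE` -/

section

/-!
(I2) for Gaussian posets (MP_448cb3_co), row 431: the sum over a class of configurations.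
-/

namespace Pool.Agent.GaussPoset.Win.I2

set_option linter.unusedSectionVars false

open Finset

universe u

variable {P : Type u} [Fintype P] [PartialOrder P] [DecidableEq P] {r i : ℕ} {e : P → ℕ}

/-- exponent of `xi` in a swap -/
noncomputable def mm (e : P → ℕ) (y : P) : ℕ :=
  (z0 e y).card + (if (z0 e y).card = 2 then 1 else 0)

lemma dd_eq : dd = (1 : A) + xx := one_add_xx.symm

lemma one_add_xi : 1 + xi = dd * xi := by
  rw [dd_eq, add_mul, one_mul, xx_mul_xi]
  ring

lemma dd_dvd_odd {m : ℕ} (h : m = 1 ∨ m = 3) : dd ∣ 1 + xi ^ m := by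
  rcases h with rfl | rfl
  · rw [pow_one, one_add_xi]
    exact dvd_mul_right _ _
  · have : 1 + xi ^ 3 = dd * (xi * (1 - xi + xi ^ 2)) := by
      rw [← mul_assoc, ← one_add_xi]
      ring
    rw [this]
    exact dvd_mul_right _ _

section stat

variable {psi : P → P} (hM : Mat P i ∅ psi) (H : Gr P r) {y : P}
include hM

lemma mm_cases (hy : y ∈ SS i psi e) : mm e y = 1 ∨ mm e y = 3 := by
  have h1 := (mem_dbL'.1 (mem_SS.1 hy).1).2
  have h2 : (z0 e y).card ≤ 2 := by
    rw [← h1]
    exact card_le_card (filter_subset _ _)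
  have h3 : 0 < (z0 e y).card := by
    rw [card_pos]
    obtain ⟨x, hx, hx0⟩ := (mem_SS.1 hy).2.ex
    exact ⟨x, by unfold z0; rw [mem_filter]; exact ⟨hx, hx0⟩⟩
  unfold mm
  split_ifs with h
  · right
    omega
  · left
    omega

include H

theorem tC_sw (hy : y ∈ SS i psi e) (h1 : e y = 1) (C : Finset P) :
    tC i C (sw psi y e) = tC i C e * xi ^ mm e y := by
  classical
  obtain ⟨a1, a2⟩ := AL_sw hM H hy h1
  obtain ⟨b1, b2⟩ := AU_sw hM H hy h1
  have hd : Disjoint (AL i (sw psi y e)) (AU i (sw psi y e)) ↔ Disjoint (AL i e) (AU i e) := by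
    rw [b1, a1, disjoint_union_right, disjoint_union_left]
    constructor
    · rintro ⟨h2, -⟩
      exact ⟨h2, b2.symm⟩
    · rintro ⟨h2, -⟩
      exact ⟨h2, a2⟩
  unfold tC
  by_cases h2 : Disjoint (AL i e) (AU i e)
  · rw [if_pos h2, if_pos (hd.2 h2)]
    have c1 : (AL i e).card = (AL i (sw psi y e)).card + (z0 e y).card := by
      conv_lhs => rw [a1]
      exact card_union_of_disjoint a2
    have c2 : (AU i (sw psi y e)).card = (AU i e).card + (z0 e y).card := by
      rw [b1]
      exact card_union_of_disjoint b2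
    have hcw : cw i (sw psi y e) = cw i e * xi ^ (if (z0 e y).card = 2 then 1 else 0) := by
      unfold cw
      rw [AdmL_sw hM H hy h1, AdmU_sw hM H hy h1, aL_sw hM H hy h1, aU_sw hM H hy h1]
      by_cases h3 : AdmL i e ∧ AdmU i e
      · rw [if_pos h3, if_pos h3, pU_sw hM H hy h1, pL_sw hM H hy h1]
        have : pL i (sw psi y e) + (pU i e + (if (z0 e y).card = 2 then 1 else 0)) =
            pL i (sw psi y e) + (if (z0 e y).card = 2 then 1 else 0) + pU i e := by omega
        rw [this, ← add_assoc (aU i e), pow_add xi]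
        ring
      · rw [if_neg h3, if_neg h3, zero_mul]
    rw [hcw, c2, c1]
    have h4 : (st i C).card - (AL i (sw psi y e)).card - ((AU i e).card + (z0 e y).card) =
        (st i C).card - ((AL i (sw psi y e)).card + (z0 e y).card) - (AU i e).card := by omega
    rw [h4]
    unfold mm
    rw [pow_add xi, pow_add xx]
    have h5 : xx ^ (z0 e y).card * xi ^ (z0 e y).card = 1 := by
      rw [← mul_pow, xx_mul_xi, one_pow]
    calc cw i e * xi ^ (if (z0 e y).card = 2 then 1 else 0) *
          (xx ^ (AL i (sw psi y e)).card * dd ^ ((st i C).card -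
            ((AL i (sw psi y e)).card + (z0 e y).card) - (AU i e).card))
        = cw i e * xi ^ (if (z0 e y).card = 2 then 1 else 0) *
          (xx ^ (AL i (sw psi y e)).card * dd ^ ((st i C).card -
            ((AL i (sw psi y e)).card + (z0 e y).card) - (AU i e).card)) * 1 := by rw [mul_one]
      _ = _ := by rw [← h5]; ring
  · rw [if_neg h2, if_neg (fun h => h2 (hd.1 h)), zero_mul]

lemma mm_sw (hy : y ∈ dbL P i) {y' : P} (hy' : y' ∈ dbL P i) :
    mm (sw psi y e) y' = mm e y' := by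
  have h2 : z0 (sw psi y e) y' = z0 e y' := by
    unfold z0
    refine filter_congr fun x hx => ?_
    have h3 := lev_uc H hx
    rw [mem_dbL'] at hy'
    rw [sw_lev hM hy (by omega) (by omega)]
  unfold mm
  rw [h2]

omit H in
/-- the weight of a configuration with the simple edges in `D` summed -/
noncomputable def gg (i : ℕ) (psi : P → P) (C D : Finset P) (e : P → ℕ) : A :=
  tC i C e * ∏ y ∈ SS i psi e ∩ D, (1 + xi ^ mm e y)

end stat

open Classical in
/-- the configurations with all simple edges in `D` in the first orientation -/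
noncomputable def Om (i : ℕ) (psi : P → P) (Ω : Finset (P → ℕ)) (D : Finset P) :
    Finset (P → ℕ) := Ω.filter (fun e => ∀ y ∈ SS i psi e ∩ D, e y = 1)

end Pool.Agent.GaussPoset.Win.I2

end
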