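import Mathlib
import Pool.Agent.W_448zz_h61.Ns
import Pool.Agent.W_448zz_h61.M016
import Pool.Agent.W_448zz_h61.M021
import Pool.Agent.W_448zz_h61.M066

/-! From `Pool.Agent.W_448i2_h61.IF` -/

section

/-!
(I2) for Gaussian posets (MP_448cb3_co), row 431: divisibility of the sum over the classes.
-/

namespace Pool.Agent.GaussPoset.Win.I2

set_option linter.unusedSectionVars false

open Finset

universe u

variable {P : Type u} [Fintype P] [PartialOrder P] [DecidableEq P] {r i : ℕ} {e : P → ℕ}

section cls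

variable {psi : P → P} (hM : Mat P i ∅ psi) (H : Gr P r) {C : Finset P} {Ω : Finset (P → ℕ)}
  (hΩ : ∀ e ∈ Ω, ∀ y ∈ SS i psi e, sw psi y e ∈ Ω)
include hM H hΩ

lemma step {D : Finset P} {y0 : P} (hD : D ⊆ dbL P i) (hy0 : y0 ∈ dbL P i) (hn : y0 ∉ D) :
    ∑ e ∈ Om i psi Ω D, gg i psi C D e =
      ∑ e ∈ Om i psi Ω (insert y0 D), gg i psi C (insert y0 D) e := by
  classical
  have inter : ∀ e : P → ℕ, y0 ∉ SS i psi e → SS i psi e ∩ insert y0 D = SS i psi e ∩ D := by
    intro e h
    ext y
    simp only [mem_inter, mem_insert]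
    constructor
    · rintro ⟨h1, rfl | h2⟩
      · exact absurd h1 h
      · exact ⟨h1, h2⟩
    · rintro ⟨h1, h2⟩
      exact ⟨h1, Or.inr h2⟩
  have inter' : ∀ e : P → ℕ, y0 ∈ SS i psi e →
      SS i psi e ∩ insert y0 D = insert y0 (SS i psi e ∩ D) := by
    intro e h
    ext y
    simp only [mem_inter, mem_insert]
    constructor
    · rintro ⟨h1, rfl | h2⟩
      · exact Or.inl rfl
      · exact Or.inr ⟨h1, h2⟩
    · rintro (rfl | ⟨h1, h2⟩)
      · exact ⟨h, Or.inl rfl⟩
      · exact ⟨h1, Or.inr h2⟩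
  rw [← Finset.sum_filter_add_sum_filter_not (Om i psi Ω D) (fun e => y0 ∈ SS i psi e),
    ← Finset.sum_filter_add_sum_filter_not (Om i psi Ω (insert y0 D)) (fun e => y0 ∈ SS i psi e)]
  congr 1
  · rw [← Finset.sum_filter_add_sum_filter_not
      ((Om i psi Ω D).filter (fun e => y0 ∈ SS i psi e)) (fun e => e y0 = 1)]
    have hA : ((Om i psi Ω D).filter (fun e => y0 ∈ SS i psi e)).filter (fun e => e y0 = 1) =
        (Om i psi Ω (insert y0 D)).filter (fun e => y0 ∈ SS i psi e) := by
      ext e
      unfold Om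
      simp only [mem_filter]
      constructor
      · rintro ⟨⟨⟨h1, h2⟩, h3⟩, h4⟩
        refine ⟨⟨h1, ?_⟩, h3⟩
        rw [inter' e h3]
        intro y hy
        rcases mem_insert.1 hy with rfl | hy
        · exact h4
        · exact h2 y hy
      · rintro ⟨⟨h1, h2⟩, h3⟩
        rw [inter' e h3] at h2
        exact ⟨⟨⟨h1, fun y hy => h2 y (mem_insert_of_mem hy)⟩, h3⟩, h2 y0 (mem_insert_self _ _)⟩
    rw [hA]
    have hB : ∑ e ∈ ((Om i psi Ω D).filter (fun e => y0 ∈ SS i psi e)).filter
        (fun e => ¬ e y0 = 1), gg i psi C D e =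
        ∑ e ∈ (Om i psi Ω (insert y0 D)).filter (fun e => y0 ∈ SS i psi e),
          gg i psi C D e * xi ^ mm e y0 := by
      symm
      refine Finset.sum_bij' (fun e _ => sw psi y0 e) (fun e _ => sw psi y0 e) ?_ ?_ ?_ ?_ ?_
      · intro e he
        rw [← hA] at he
        unfold Om at he ⊢
        simp only [mem_filter] at he ⊢
        obtain ⟨⟨⟨h1, h2⟩, h3⟩, h4⟩ := he
        have h5 := SS_sw hM H h3
        refine ⟨⟨⟨hΩ e h1 y0 h3, ?_⟩, by rw [h5]; exact h3⟩, ?_⟩
        · rw [h5]
          intro y hy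
          have hyD := (mem_inter.1 hy).2
          have l1 := mem_dbL'.1 (hD hyD)
          have l2 := mem_dbU'.1 (psi_low hM hy0).1
          rw [sw_ne e (by rintro rfl; exact hn hyD) (by rintro rfl; omega)]
          exact h2 y hy
        · rw [sw_y, psi0 hM H h3 h4]
          omega
      · intro e he
        rw [← hA]
        unfold Om at he ⊢
        simp only [mem_filter] at he ⊢
        obtain ⟨⟨⟨h1, h2⟩, h3⟩, h4⟩ := he
        have h5 := SS_sw hM H h3
        refine ⟨⟨⟨hΩ e h1 y0 h3, ?_⟩, by rw [h5]; exact h3⟩, ?_⟩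
        · rw [h5]
          intro y hy
          have hyD := (mem_inter.1 hy).2
          have l1 := mem_dbL'.1 (hD hyD)
          have l2 := mem_dbU'.1 (psi_low hM hy0).1
          rw [sw_ne e (by rintro rfl; exact hn hyD) (by rintro rfl; omega)]
          exact h2 y hy
        · rw [sw_y]
          rcases (mem_SS.1 h3).2.one with h | h <;> omega
      · intro e _
        exact sw_sw _ _ _
      · intro e _
        exact sw_sw _ _ _
      · intro e he
        rw [← hA] at he
        unfold Om at he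
        simp only [mem_filter] at he
        obtain ⟨⟨⟨h1, h2⟩, h3⟩, h4⟩ := he
        unfold gg
        rw [SS_sw hM H h3, tC_sw hM H h3 h4]
        have h5 : ∏ y ∈ SS i psi e ∩ D, (1 + xi ^ mm (sw psi y0 e) y) =
            ∏ y ∈ SS i psi e ∩ D, (1 + xi ^ mm e y) := by
          refine Finset.prod_congr rfl fun y hy => ?_
          rw [mm_sw hM H hy0 (hD (mem_inter.1 hy).2)]
        rw [h5]
        ring
    rw [hB, ← Finset.sum_add_distrib]
    refine Finset.sum_congr rfl fun e he => ?_
    rw [mem_filter] at he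
    unfold gg
    rw [inter' e he.2, Finset.prod_insert]
    · ring
    · intro h
      exact hn (mem_inter.1 h).2
  · have hA : (Om i psi Ω D).filter (fun e => ¬ y0 ∈ SS i psi e) =
        (Om i psi Ω (insert y0 D)).filter (fun e => ¬ y0 ∈ SS i psi e) := by
      ext e
      unfold Om
      simp only [mem_filter]
      constructor
      · rintro ⟨⟨h1, h2⟩, h3⟩
        exact ⟨⟨h1, by rw [inter e h3]; exact h2⟩, h3⟩
      · rintro ⟨⟨h1, h2⟩, h3⟩
        rw [inter e h3] at h2
        exact ⟨⟨h1, h2⟩, h3⟩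
    rw [hA]
    refine Finset.sum_congr rfl fun e he => ?_
    rw [mem_filter] at he
    unfold gg
    rw [inter e he.2]

lemma all_steps (D : Finset P) (hD : D ⊆ dbL P i) :
    ∑ e ∈ Ω, tC i C e = ∑ e ∈ Om i psi Ω D, gg i psi C D e := by
  classical
  induction D using Finset.induction_on with
  | empty =>
    have h1 : Om i psi Ω ∅ = Ω := by
      unfold Om
      simp
    rw [h1]
    refine Finset.sum_congr rfl fun e _ => ?_
    unfold gg
    simp
  | insert y D hy ih =>
    rw [ih (fun x hx => hD (mem_insert_of_mem hx))]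
    exact step hM H hΩ (fun x hx => hD (mem_insert_of_mem hx)) (hD (mem_insert_self _ _)) hy

/-- divisibility of the sum over all classes -/
theorem class_dvd {N : ℕ} (hN : ∀ e ∈ Ω, dd ^ N ∣ tC i C e * dd ^ (SS i psi e).card) :
    dd ^ N ∣ ∑ e ∈ Ω, tC i C e := by
  classical
  rw [all_steps hM H hΩ (dbL P i) (Finset.Subset.refl _)]
  refine Finset.dvd_sum fun e he => ?_
  unfold Om at he
  rw [mem_filter] at he
  have h1 : SS i psi e ∩ dbL P i = SS i psi e := by
    rw [Finset.inter_eq_left]
    intro y hy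
    exact (mem_SS.1 hy).1
  unfold gg
  rw [h1]
  refine (hN e he.1).trans (mul_dvd_mul_left _ ?_)
  rw [← Finset.prod_const]
  refine Finset.prod_dvd_prod_of_dvd _ _ fun y hy => ?_
  exact dd_dvd_odd (mm_cases hM hy)

end cls

section wt

variable {psi : P → P} (hM : Mat P i ∅ psi) (H : Gr P r)
include hM H

/-- the support of a configuration after a swap -/
lemma spt_sw {C : Finset P} (hC : Part (i + 1) C) (hs : Spt C e) {y : P} (hy : y ∈ SS i psi e) :
    Spt C (sw psi y e) := by
  have hy0 := (mem_SS.1 hy).1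
  obtain ⟨p1, p2, p3⟩ := psi_low hM hy0
  have hl := mem_dbL'.1 hy0
  have hp := mem_dbU'.1 p1
  obtain ⟨x, hx⟩ : (uc y).Nonempty := by
    rw [← card_pos]
    omega
  have hxl := lev_uc H hx
  have h1 : y ∈ C → psi y ∈ C := by
    intro h
    refine hC.up (hC.up h (mem_uc.1 hx)) ?_
    rw [← mem_dc, p2]
    exact hx
  have h2 : psi y ∈ C → y ∈ C := by
    intro h
    refine hC.dn (hC.dn (x := x) h (by omega) ?_) (by omega) (mem_uc.1 hx)
    rw [← mem_dc, p2]
    exact hx
  have h3 : y ∈ C ∧ psi y ∈ C := by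
    rcases (mem_SS.1 hy).2.one with h | h
    · have h4 : y ∈ C := by
        by_contra h5
        have := hs y h5
        omega
      exact ⟨h4, h1 h4⟩
    · have h4 : psi y ∈ C := by
        by_contra h5
        have := hs _ h5
        omega
      exact ⟨h2 h4, h4⟩
  intro z hz
  rw [sw_ne e (by rintro rfl; exact hz h3.1) (by rintro rfl; exact hz h3.2)]
  exact hs z hz

omit hM H in
lemma mem_pa {C : Finset P} {n : ℕ} : e ∈ C.piAntidiag n ↔ ∑ x, e x = n ∧ Spt C e := by
  rw [mem_piAntidiag]
  constructor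
  · rintro ⟨h1, h2⟩
    have h3 : Spt C e := by
      intro x hx
      by_contra h
      exact hx (h2 x h)
    refine ⟨?_, h3⟩
    rw [← h1]
    symm
    exact Finset.sum_subset (subset_univ _) fun x _ hx => h3 x hx
  · rintro ⟨h1, h2⟩
    constructor
    · rw [← h1]
      exact Finset.sum_subset (subset_univ _) fun x _ hx => h2 x hx
    · intro x hx
      by_contra h
      exact hx (h2 x h)

open Classical in
/-- WEIGHT BOUND for a part and a class of configurations which is closed under the swaps -/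
theorem wt_bound (hir : i ≤ r) (hg : ∀ m, i ≤ m + 1 → m ≤ i + 1 → Good P m) {C : Finset P}
    (hC : Part (i + 1) C) (Q : (P → ℕ) → Prop)
    (hQ : ∀ e : P → ℕ, Q e → ∀ y ∈ SS i psi e, Q (sw psi y e)) {δ : ℕ}
    (hδ : δ = 0 ∨ δ = 1 ∧ ∀ e : P → ℕ, Q e →
      ∃ z : P, (i + 3 ≤ lev z ∨ lev z + 3 ≤ i) ∧ 1 ≤ e z) (n : ℕ) :
    dd ^ ((st i C).card - (n - δ) / 2) ∣ ∑ e ∈ (C.piAntidiag n).filter Q, tC i C e := by
  have hC' : Part i C := ⟨fun h1 h2 => hC.up h1 h2, fun h1 h2 h3 => hC.dn h1 (by omega) h3⟩
  refine class_dvd hM H ?_ ?_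
  · intro e he y hy
    rw [mem_filter, mem_pa] at he ⊢
    exact ⟨⟨by rw [sum_sw]; exact he.1.1, spt_sw hM H hC he.1.2 hy⟩, hQ e he.2 y hy⟩
  · intro e he
    rw [mem_filter, mem_pa] at he
    unfold tC
    by_cases hd : Disjoint (AL i e) (AU i e)
    · rw [if_pos hd]
      unfold cw
      by_cases hA : AdmL i e ∧ AdmU i e
      · rw [if_pos hA]
        have hδ' : δ = 0 ∨ δ = 1 ∧ ∃ z : P, (i + 3 ≤ lev z ∨ lev z + 3 ≤ i) ∧ 1 ≤ e z := by
          rcases hδ with h | ⟨h, h2⟩
          · exact Or.inl h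
          · exact Or.inr ⟨h, h2 e he.2⟩
        have h1 := main_ineq hM H hir hg hA.1 hA.2 hd hδ'
        rw [he.1.1] at h1
        have h2 := card_le_st H hC' he.1.2 hd
        have h3 : xx ^ aL i e * xi ^ (aU i e + pU i e) * dd ^ (pL i e + pU i e) *
            (xx ^ (AL i e).card * dd ^ ((st i C).card - (AL i e).card - (AU i e).card)) *
            dd ^ (SS i psi e).card =
            (xx ^ aL i e * xi ^ (aU i e + pU i e) * xx ^ (AL i e).card) *
              dd ^ ((pL i e + pU i e) + ((st i C).card - (AL i e).card - (AU i e).card) +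
                (SS i psi e).card) := by
          ring
        rw [h3]
        refine Dvd.dvd.mul_left (pow_dvd_pow _ ?_) _
        omega
      · rw [if_neg hA, zero_mul, zero_mul]
        exact dvd_zero _
    · rw [if_neg hd, zero_mul]
      exact dvd_zero _

end wt

end Pool.Agent.GaussPoset.Win.I2

end

/-! From `Pool.Agent.W_448i2_h61.IG` -/

section

/-!
(I2) for Gaussian posets (MP_448cb3_co), row 431: initial forms (weight 1 for the energy, weight 2
for `dd`) and the individual identities of slope at most two.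
-/

namespace Pool.Agent.GaussPoset.Win.I2

set_option linter.unusedSectionVars false

open Finset

universe u

/-- weight at least `2 b` -/
def Wt (b : ℕ) (f : PowerSeries A) : Prop := ∀ n, dd ^ (b - n / 2) ∣ PowerSeries.coeff n f

/-- the part of weight `2 b` -/
noncomputable def ini (b : ℕ) (f : PowerSeries A) : Polynomial ℤ :=
  ∑ k ∈ Finset.range (b + 1),
    Polynomial.monomial k (PowerSeries.coeff (b - k) (PowerSeries.coeff (2 * k) f : A))

lemma coeff_ini (b : ℕ) (f : PowerSeries A) (k : ℕ) : (ini b f).coeff k =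
    if k ≤ b then PowerSeries.coeff (b - k) (PowerSeries.coeff (2 * k) f : A) else 0 := by
  unfold ini
  rw [Polynomial.finsetSum_coeff]
  simp only [Polynomial.coeff_monomial]
  rw [Finset.sum_ite_eq']
  simp only [Finset.mem_range]
  by_cases h : k ≤ b
  · rw [if_pos (by omega), if_pos h]
  · rw [if_neg (by omega), if_neg h]

lemma coeff_zero_of_dvd {a k : ℕ} {F : A} (h : dd ^ a ∣ F) (hk : k < a) :
    PowerSeries.coeff k F = 0 := by
  obtain ⟨F', rfl⟩ := h
  unfold dd
  rw [PowerSeries.coeff_X_pow_mul', if_neg (by omega)]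

lemma coeff_low {a b : ℕ} {F G : A} (hF : dd ^ a ∣ F) (hG : dd ^ b ∣ G) :
    PowerSeries.coeff (a + b) (F * G) = PowerSeries.coeff a F * PowerSeries.coeff b G := by
  obtain ⟨F', rfl⟩ := hF
  obtain ⟨G', rfl⟩ := hG
  have h1 : dd ^ a * F' * (dd ^ b * G') = PowerSeries.X ^ (a + b) * (F' * G') := by
    unfold dd
    rw [pow_add]
    ring
  rw [h1]
  unfold dd
  rw [PowerSeries.coeff_X_pow_mul', if_pos le_rfl, PowerSeries.coeff_X_pow_mul', if_pos le_rfl,
    PowerSeries.coeff_X_pow_mul', if_pos le_rfl, Nat.sub_self, Nat.sub_self, Nat.sub_self]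
  simp

lemma dvd_of_coeff {a : ℕ} {F : A} (h : ∀ k, k < a → PowerSeries.coeff k F = 0) :
    dd ^ a ∣ F := by
  unfold dd
  rw [PowerSeries.X_pow_dvd_iff]
  exact h

lemma Wt.mul {b c : ℕ} {f g : PowerSeries A} (hf : Wt b f) (hg : Wt c g) : Wt (b + c) (f * g) := by
  intro n
  rw [PowerSeries.coeff_mul]
  refine Finset.dvd_sum fun p hp => ?_
  rw [HasAntidiagonal.mem_antidiagonal] at hp
  refine (pow_dvd_pow dd (m := b + c - n / 2) (n := (b - p.1 / 2) + (c - p.2 / 2)) (by omega)).trans
    ?_
  rw [pow_add]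
  exact mul_dvd_mul (hf p.1) (hg p.2)

lemma ini_mul {b c : ℕ} {f g : PowerSeries A} (hf : Wt b f) (hg : Wt c g) :
    ini (b + c) (f * g) = ini b f * ini c g := by
  ext k
  rw [coeff_ini, Polynomial.coeff_mul]
  simp only [coeff_ini]
  by_cases hk : k ≤ b + c
  · rw [if_pos hk, PowerSeries.coeff_mul, map_sum]
    symm
    refine Finset.sum_of_injOn (fun p : ℕ × ℕ => (2 * p.1, 2 * p.2)) ?_ ?_ ?_ ?_
    · intro p _ q _ h
      simp only [Prod.mk.injEq] at h
      ext <;> omega
    · intro p hp
      rw [mem_coe, HasAntidiagonal.mem_antidiagonal] at hp ⊢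
      simp only
      omega
    · intro p hp hne
      rw [HasAntidiagonal.mem_antidiagonal] at hp
      have hodd : p.1 % 2 = 1 ∧ p.2 % 2 = 1 := by
        by_contra h
        apply hne
        refine ⟨(p.1 / 2, p.2 / 2), ?_, ?_⟩
        · rw [mem_coe, HasAntidiagonal.mem_antidiagonal]
          simp only
          omega
        · ext <;> simp only <;> omega
      apply coeff_zero_of_dvd (a := (b - p.1 / 2) + (c - p.2 / 2))
      · rw [pow_add]
        exact mul_dvd_mul (hf p.1) (hg p.2)
      · omega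
    · intro p hp
      rw [HasAntidiagonal.mem_antidiagonal] at hp
      have h1 := hf (2 * p.1)
      have h2 := hg (2 * p.2)
      rw [Nat.mul_div_cancel_left _ (by norm_num)] at h1 h2
      by_cases h3 : p.1 ≤ b
      · by_cases h4 : p.2 ≤ c
        · rw [if_pos h3, if_pos h4, ← coeff_low h1 h2]
          congr 2
          omega
        · rw [if_neg h4, mul_zero]
          symm
          apply coeff_zero_of_dvd (a := b - p.1)
          · exact Dvd.dvd.mul_right h1 _
          · omega
      · rw [if_neg h3, zero_mul]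
        symm
        apply coeff_zero_of_dvd (a := c - p.2)
        · exact Dvd.dvd.mul_left h2 _
        · omega
  · rw [if_neg hk]
    symm
    refine Finset.sum_eq_zero fun p hp => ?_
    rw [HasAntidiagonal.mem_antidiagonal] at hp
    by_cases h3 : p.1 ≤ b
    · rw [if_neg (c := p.2 ≤ c) (by omega), mul_zero]
    · rw [if_neg h3, zero_mul]

lemma Wt.one : Wt 0 (1 : PowerSeries A) := by
  intro n
  rw [Nat.zero_sub, pow_zero]
  exact one_dvd _

lemma ini_one : ini 0 (1 : PowerSeries A) = 1 := by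
  unfold ini
  simp

lemma prod_wt {ι : Type*} [DecidableEq ι] (s : Finset ι) (b : ι → ℕ) (f : ι → PowerSeries A)
    (h : ∀ a ∈ s, Wt (b a) (f a)) :
    Wt (∑ a ∈ s, b a) (∏ a ∈ s, f a) ∧
      ini (∑ a ∈ s, b a) (∏ a ∈ s, f a) = ∏ a ∈ s, ini (b a) (f a) := by
  induction s using Finset.induction_on with
  | empty => simpa using ⟨Wt.one, ini_one⟩
  | insert a s ha ih =>
    have h1 := ih fun x hx => h x (mem_insert_of_mem hx)
    have h2 := h a (mem_insert_self _ _)
    rw [Finset.sum_insert ha, Finset.prod_insert ha, Finset.prod_insert ha]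
    refine ⟨h2.mul h1.1, ?_⟩
    rw [ini_mul h2 h1.1, h1.2]

variable {P : Type u} [Fintype P] [PartialOrder P] [DecidableEq P] {r i l : ℕ}

variable {ι : Type*} [DecidableEq ι] {κ : P → ι}

/-- the window series of an extended component has weight at least twice the number of its sites -/
theorem wt_cext (H : Gr P r) (hir : i ≤ r) (hil : i + 1 ≤ l)
    (hg : ∀ m, i ≤ m + 1 → m ≤ i + 1 → Good P m) (hκ : Split l κ) (a : ι) :
    Wt (st i (cext l κ a)).card (ZS i (cext l κ a)) := by
  classical
  obtain ⟨psi, hM⟩ := good_mat H (hg i (by omega) (by omega))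
  intro n
  have h1 := wt_bound hM H hir hg (part_cext H hil hκ a) (fun _ => True) (fun _ _ _ _ => trivial)
    (δ := 0) (Or.inl rfl) n
  rw [coeff_ZS]
  unfold ZC
  simpa using h1

/-- the configurations which excite an element outside the extended components -/
theorem wt_rest (H : Gr P r) (hir : i ≤ r) (hil : i + 2 ≤ l)
    (hg : ∀ m, i ≤ m + 1 → m ≤ i + 1 → Good P m) (hκ : Split l κ) (n : ℕ) :
    dd ^ ((lv P i).card - (n - 1) / 2) ∣ ∑ e ∈ (univ : Finset P).piAntidiag n, trm i e -
      PowerSeries.coeff n (∏ a ∈ univ.image κ, ZS i (cext l κ a)) := by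
  classical
  obtain ⟨psi, hM⟩ := good_mat H (hg i (by omega) (by omega))
  have hP : Part (i + 1) (univ : Finset P) := ⟨fun _ _ => mem_univ _, fun _ _ _ => mem_univ _⟩
  have hu : st i (univ : Finset P) = lv P i := by
    ext v
    rw [mem_st, mem_lv]
    simp
  have h1 := wt_bound hM H hir hg hP (fun e => ∃ z, z ∉ cuni l κ ∧ 1 ≤ e z) (by
    rintro e ⟨z, hz, hze⟩ y hy
    refine ⟨z, hz, ?_⟩
    have hy0 := (mem_SS.1 hy).1
    have l1 := mem_dbL'.1 hy0
    have l2 := mem_dbU'.1 (psi_low hM hy0).1
    rw [sw_ne e (by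
      rintro rfl
      exact hz (le_mem_cuni hκ (by omega))) (by
      rintro rfl
      exact hz (le_mem_cuni hκ (by omega)))]
    exact hze) (δ := 1) (Or.inr ⟨rfl, by
      rintro e ⟨z, hz, hze⟩
      have := (two_up H hκ hz).1
      exact ⟨z, Or.inl (by omega), hze⟩⟩) n
  rw [hu] at h1
  convert h1 using 1
  rw [← ZS_cuni H hir (by omega) hκ, coeff_ZS, sub_eq_iff_eq_add]
  rw [← Finset.sum_filter_add_sum_filter_not ((univ : Finset P).piAntidiag n)
    (fun e => ∃ z, z ∉ cuni l κ ∧ 1 ≤ e z)]
  congr 1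
  · refine Finset.sum_congr ?_ fun e _ => ?_
    · ext e
      simp only [mem_filter]
    · unfold tC trm
      rw [hu]
  · unfold ZC
    have h2 : ((univ : Finset P).piAntidiag n).filter (fun e => ¬ ∃ z, z ∉ cuni l κ ∧ 1 ≤ e z) =
        (cuni l κ).piAntidiag n := by
      ext e
      rw [mem_filter, mem_pa, mem_pa]
      constructor
      · rintro ⟨⟨h3, -⟩, h4⟩
        refine ⟨h3, fun x hx => ?_⟩
        by_contra h5
        exact h4 ⟨x, hx, by omega⟩
      · rintro ⟨h3, h4⟩
        refine ⟨⟨h3, fun x hx => absurd (mem_univ x) hx⟩, ?_⟩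
        rintro ⟨z, hz, hze⟩
        have := h4 z hz
        omega
    rw [h2]
    refine Finset.sum_congr rfl fun e _ => ?_
    unfold tC trm
    rw [st_cuni (by omega) hκ]

/-- the initial form of the product of the window series of the components is trivial -/
theorem ini_prod (H : Gr P r) (hir : i ≤ r) (hil : i + 2 ≤ l)
    (hg : ∀ m, i ≤ m + 1 → m ≤ i + 1 → Good P m) (hκ : Split l κ) :
    ini (lv P i).card (∏ a ∈ univ.image κ, ZS i (cext l κ a)) = 1 := by
  classical
  ext k
  rw [coeff_ini, Polynomial.coeff_one]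
  rcases Nat.eq_zero_or_pos k with rfl | hk
  · rw [if_pos (Nat.zero_le _), if_pos rfl, Nat.sub_zero, Nat.mul_zero]
    rw [← ZS_cuni H hir (by omega) hκ, coeff_ZS, ZC_zero H hir, st_cuni (by omega) hκ]
    unfold dd
    rw [PowerSeries.coeff_X_pow, if_pos rfl]
  · have h0 : ¬ k = 0 := by omega
    simp only [h0, if_false]
    split_ifs with h
    · have h1 := wt_rest H hir hil hg hκ (2 * k)
      have h2 := dvd_sum_trm H hir (2 * k)
      have h3 : PowerSeries.coeff ((lv P i).card - k)
          (∑ e ∈ (univ : Finset P).piAntidiag (2 * k), trm i e) = 0 :=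
        coeff_zero_of_dvd h2 (by omega)
      have h4 := coeff_zero_of_dvd h1 (k := (lv P i).card - k) (by omega)
      rw [map_sub, h3, zero_sub, neg_eq_zero] at h4
      exact h4
    · rfl

/-- (I2): at every window `i ≤ j - 2` (levels `i-1, i, i+1` good, `P_(≤ l)` split into components,
`l ≥ i + 2`) every component satisfies all the identities of slope at most two: for `n ≥ 1` the
coefficient of `q^n` of its window series has no term `dd ^ (b - k)` with `2 k ≥ n`. -/
theorem indiv_two (H : Gr P r) (hir : i ≤ r) (hil : i + 2 ≤ l)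
    (hg : ∀ m, i ≤ m + 1 → m ≤ i + 1 → Good P m) (hκ : Split l κ) {a : ι}
    (ha : a ∈ univ.image κ) {n : ℕ} (hn : 1 ≤ n) :
    dd ^ ((st i (cext l κ a)).card + 1 - (n + 1) / 2) ∣ ZC i (cext l κ a) n := by
  classical
  have hw := wt_cext H hir (by omega) hg hκ (l := l)
  have h1 := (prod_wt (univ.image κ) (fun a => (st i (cext l κ a)).card)
    (fun a => ZS i (cext l κ a)) (fun a _ => hw a)).2
  rw [sum_card_st (by omega) hκ, ini_prod H hir hil hg hκ] at h1
  have h2 : IsUnit (ini (st i (cext l κ a)).card (ZS i (cext l κ a))) := by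
    refine isUnit_of_dvd_one ?_
    rw [h1]
    exact Finset.dvd_prod_of_mem (fun a => ini (st i (cext l κ a)).card (ZS i (cext l κ a))) ha
  have h3 := Polynomial.natDegree_eq_zero_of_isUnit h2
  set b := (st i (cext l κ a)).card with hb
  have h4 := hw a n
  rw [coeff_ZS] at h4
  rcases Nat.even_or_odd' n with ⟨k, rfl | rfl⟩
  · rw [Nat.mul_div_cancel_left _ (by norm_num)] at h4
    have h5 : b + 1 - (2 * k + 1) / 2 = b + 1 - k := by omega
    rw [h5]
    by_cases hkb : k ≤ b
    · apply dvd_of_coeff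
      intro m hm
      rcases Nat.lt_or_ge m (b - k) with h6 | h6
      · exact coeff_zero_of_dvd h4 h6
      · have h7 : m = b - k := by omega
        have h8 := coeff_ini b (ZS i (cext l κ a)) k
        rw [if_pos hkb, coeff_ZS, Polynomial.coeff_eq_zero_of_natDegree_lt (by omega)] at h8
        rw [h7]
        exact h8.symm
    · have h6 : b + 1 - k = 0 := by omega
      rw [h6, pow_zero]
      exact one_dvd _
  · have h5 : b + 1 - (2 * k + 1 + 1) / 2 = b - (2 * k + 1) / 2 := by omega
    rw [h5]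
    exact h4

end Pool.Agent.GaussPoset.Win.I2

end

/-! From `Pool.Agent.W_448i2_h61.TC` -/

section

/-!
Two coefficient version of the second power sum identity (G2 S2, row 452, (W) and (P)): helper64's
file W_448tc_h64/TwoCoeff.lean, ported to the coefficient ring `A` (power series in `dd`).

`V` is a power series in `q` whose coefficients are polynomials in `d = X`.  `Prof e m b V` says
that the coefficient of `q^n` is divisible by `d^b` for `n < e`, by `d^(b-1)` for `n < m` and by
`d^(b-2)` for `n = m` (written without subtraction).  Here `e ≤ m ≤ 2 e`.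
-/

open Finset

namespace Pool.Agent.GaussPoset.Win.I2

/-- order profile -/
structure Prof (e m b : ℕ) (V : PowerSeries A) : Prop where
  lo : ∀ n, n < e → dd ^ b ∣ PowerSeries.coeff n V
  mid : ∀ n, n < m → dd ^ b ∣ dd * PowerSeries.coeff n V
  top : dd ^ b ∣ dd ^ 2 * PowerSeries.coeff m V

/-- leading coefficient of the `q^0` part -/
noncomputable def eps (b : ℕ) (V : PowerSeries A) : ℤ := PowerSeries.coeff b (PowerSeries.coeff 0 V : A)

/-- coefficient of `q^e d^(b-1)` -/
noncomputable def al (e b : ℕ) (V : PowerSeries A) : ℤ :=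
  PowerSeries.coeff b (dd * PowerSeries.coeff e V : A)

/-- coefficient of `q^m d^(b-2)` -/
noncomputable def be (m b : ℕ) (V : PowerSeries A) : ℤ :=
  PowerSeries.coeff b (dd ^ 2 * PowerSeries.coeff m V : A)

theorem coeff_mul_of_dvd {b b' : ℕ} {p p' : A} (h : dd ^ b ∣ p) (h' : dd ^ b' ∣ p') :
    PowerSeries.coeff (b + b') (p * p') = PowerSeries.coeff b p * PowerSeries.coeff b' p' :=
  coeff_low h h'

theorem coeff_eq_zero_of_dvd {b : ℕ} {p : A} (h : dd ^ (b + 1) ∣ p) :
    PowerSeries.coeff b p = 0 := coeff_zero_of_dvd h (Nat.lt_succ_self b)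

theorem Prof.mul {e m b b' : ℕ} (hem : e ≤ m) (hm : m ≤ 2 * e) {V V' : PowerSeries A}
    (h : Prof e m b V) (h' : Prof e m b' V') (he : 1 ≤ e) : Prof e m (b + b') (V * V') := by
  refine ⟨?_, ?_, ?_⟩
  · intro n hn
    rw [PowerSeries.coeff_mul]
    refine Finset.dvd_sum ?_
    rintro ⟨i, j⟩ hij
    rw [Finset.HasAntidiagonal.mem_antidiagonal] at hij
    simp only at hij ⊢
    rw [pow_add]
    exact mul_dvd_mul (h.lo i (by omega)) (h'.lo j (by omega))
  · intro n hn
    rw [PowerSeries.coeff_mul, Finset.mul_sum]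
    refine Finset.dvd_sum ?_
    rintro ⟨i, j⟩ hij
    rw [Finset.HasAntidiagonal.mem_antidiagonal] at hij
    simp only at hij ⊢
    rw [pow_add]
    by_cases hi : i < e
    · rw [mul_left_comm]
      exact mul_dvd_mul (h.lo i hi) (h'.mid j (by omega))
    · rw [← mul_assoc]
      exact mul_dvd_mul (h.mid i (by omega)) (h'.lo j (by omega))
  · rw [PowerSeries.coeff_mul, Finset.mul_sum]
    refine Finset.dvd_sum ?_
    rintro ⟨i, j⟩ hij
    rw [Finset.HasAntidiagonal.mem_antidiagonal] at hij
    simp only at hij ⊢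
    rw [pow_add]
    by_cases hi0 : i = 0
    · have hj : j = m := by omega
      subst hi0
      subst hj
      rw [mul_left_comm]
      exact mul_dvd_mul (h.lo 0 (by omega)) h'.top
    · by_cases hj0 : j = 0
      · have hi : i = m := by omega
        subst hj0
        subst hi
        rw [← mul_assoc]
        exact mul_dvd_mul h.top (h'.lo 0 (by omega))
      · have e1 : dd ^ 2 * (PowerSeries.coeff i V * PowerSeries.coeff j V') =
            (dd * PowerSeries.coeff i V) * (dd * PowerSeries.coeff j V') := by ring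
        rw [e1]
        exact mul_dvd_mul (h.mid i (by omega)) (h'.mid j (by omega))

theorem eps_mul {e m b b' : ℕ} {V V' : PowerSeries A}
    (h : Prof e m b V) (h' : Prof e m b' V') (he : 1 ≤ e) :
    eps (b + b') (V * V') = eps b V * eps b' V' := by
  unfold eps
  rw [PowerSeries.coeff_mul 0 V V', Finset.Nat.antidiagonal_zero, Finset.sum_singleton]
  exact coeff_mul_of_dvd (h.lo 0 (by omega)) (h'.lo 0 (by omega))

theorem al_mul {e m b b' : ℕ} (hem : e < m) {V V' : PowerSeries A}
    (h : Prof e m b V) (h' : Prof e m b' V') (he : 1 ≤ e) :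
    al e (b + b') (V * V') = al e b V * eps b' V' + eps b V * al e b' V' := by
  unfold al eps
  rw [PowerSeries.coeff_mul e V V', Finset.mul_sum, map_sum]
  have hne : ((e, 0) : ℕ × ℕ) ≠ (0, e) := by
    intro h1
    have := congrArg Prod.fst h1
    simp only at this
    omega
  rw [Finset.sum_eq_add (a := ((e, 0) : ℕ × ℕ)) (b := ((0, e) : ℕ × ℕ)) hne]
  · simp only
    congr 1
    · rw [← mul_assoc]
      exact coeff_mul_of_dvd (h.mid e hem) (h'.lo 0 (by omega))
    · rw [mul_left_comm]
      exact coeff_mul_of_dvd (h.lo 0 (by omega)) (h'.mid e hem)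
  · rintro ⟨i, j⟩ hij ⟨h1, h2⟩
    rw [Finset.HasAntidiagonal.mem_antidiagonal] at hij
    simp only at hij ⊢
    have hi : i < e := by
      by_contra hc
      apply h1
      have : i = e := by omega
      rw [this]
      congr 1
      omega
    have hj : j < e := by
      by_contra hc
      apply h2
      have : j = e := by omega
      rw [this]
      congr 1
      omega
    apply coeff_eq_zero_of_dvd
    rw [pow_succ', pow_add]
    exact mul_dvd_mul_left _ (mul_dvd_mul (h.lo i hi) (h'.lo j hj))
  · intro h1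
    exact absurd (Finset.HasAntidiagonal.mem_antidiagonal.2 (by simp)) h1
  · intro h1
    exact absurd (Finset.HasAntidiagonal.mem_antidiagonal.2 (by simp)) h1

/-- the general term of `be` for `0 < i`, `0 < j`, not both equal to `e` -/
theorem be_aux {e m b b' : ℕ} (hm : m ≤ 2 * e) {V V' : PowerSeries A}
    (h : Prof e m b V) (h' : Prof e m b' V') {i j : ℕ} (hij : i + j = m) (hi : i ≠ 0)
    (hj : j ≠ 0) (hne : ¬ (i = e ∧ j = e)) :
    PowerSeries.coeff (b + b') (dd ^ 2 * (PowerSeries.coeff i V * PowerSeries.coeff j V') : A) = 0 := by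
  apply coeff_eq_zero_of_dvd
  rw [pow_succ', pow_add]
  by_cases hie : i < e
  · have e1 : dd ^ 2 * (PowerSeries.coeff i V * PowerSeries.coeff j V') =
        dd * (PowerSeries.coeff i V * (dd * PowerSeries.coeff j V')) := by ring
    rw [e1]
    exact mul_dvd_mul_left _ (mul_dvd_mul (h.lo i hie) (h'.mid j (by omega)))
  · have hje : j < e := by omega
    have e1 : dd ^ 2 * (PowerSeries.coeff i V * PowerSeries.coeff j V') =
        dd * ((dd * PowerSeries.coeff i V) * PowerSeries.coeff j V') := by ring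
    rw [e1]
    exact mul_dvd_mul_left _ (mul_dvd_mul (h.mid i (by omega)) (h'.lo j hje))

theorem be_mul {e m b b' : ℕ} (hem : e < m) (hm : m ≤ 2 * e) {V V' : PowerSeries A}
    (h : Prof e m b V) (h' : Prof e m b' V') (he : 1 ≤ e) :
    be m (b + b') (V * V') = be m b V * eps b' V' + eps b V * be m b' V' +
      (if m = 2 * e then al e b V * al e b' V' else 0) := by
  unfold be al eps
  rw [PowerSeries.coeff_mul m V V', Finset.mul_sum, map_sum]
  have hne : ((m, 0) : ℕ × ℕ) ≠ (0, m) := by
    intro h1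
    have := congrArg Prod.fst h1
    simp only at this
    omega
  by_cases hme : m = 2 * e
  · rw [if_pos hme]
    have hmem1 : ((m, 0) : ℕ × ℕ) ∈ Finset.HasAntidiagonal.antidiagonal m := Finset.HasAntidiagonal.mem_antidiagonal.2 (by simp)
    have hmem2 : ((0, m) : ℕ × ℕ) ∈ (Finset.HasAntidiagonal.antidiagonal m).erase (m, 0) :=
      Finset.mem_erase.2 ⟨hne.symm, Finset.HasAntidiagonal.mem_antidiagonal.2 (by simp)⟩
    rw [← Finset.add_sum_erase _ _ hmem1, ← Finset.add_sum_erase _ _ hmem2]
    have hrest : ∑ x ∈ ((Finset.HasAntidiagonal.antidiagonal m).erase (m, 0)).erase (0, m),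
        PowerSeries.coeff (b + b') (dd ^ 2 * (PowerSeries.coeff x.1 V * PowerSeries.coeff x.2 V') : A) =
        PowerSeries.coeff b (dd * PowerSeries.coeff e V : A) *
          PowerSeries.coeff b' (dd * PowerSeries.coeff e V' : A) := by
      rw [Finset.sum_eq_single (e, e)]
      · simp only
        have e1 : dd ^ 2 * (PowerSeries.coeff e V * PowerSeries.coeff e V') =
            (dd * PowerSeries.coeff e V) * (dd * PowerSeries.coeff e V') := by ring
        rw [e1]
        exact coeff_mul_of_dvd (h.mid e hem) (h'.mid e hem)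
      · rintro ⟨i, j⟩ hij hne2
        rw [Finset.mem_erase, Finset.mem_erase, Finset.HasAntidiagonal.mem_antidiagonal] at hij
        obtain ⟨h1, h2, h3⟩ := hij
        simp only at h3 ⊢
        apply be_aux hm h h' h3
        · intro h4
          apply h1
          rw [h4] at h3 ⊢
          congr 1
          omega
        · intro h4
          apply h2
          have h5 : i = m := by omega
          rw [h4, h5]
        · rintro ⟨h4, h5⟩
          apply hne2
          rw [h4, h5]
      · intro h1
        exfalso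
        apply h1
        rw [Finset.mem_erase, Finset.mem_erase, Finset.HasAntidiagonal.mem_antidiagonal]
        refine ⟨?_, ?_, by simp only; omega⟩
        · intro h2
          have := congrArg Prod.fst h2
          simp only at this
          omega
        · intro h2
          have := congrArg Prod.snd h2
          simp only at this
          omega
    rw [hrest]
    simp only
    have t1 : PowerSeries.coeff (b + b') (dd ^ 2 * (PowerSeries.coeff m V * PowerSeries.coeff 0 V') : A) =
        PowerSeries.coeff b (dd ^ 2 * PowerSeries.coeff m V : A) * PowerSeries.coeff b' (PowerSeries.coeff 0 V' : A) := by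
      rw [← mul_assoc]
      exact coeff_mul_of_dvd h.top (h'.lo 0 (by omega))
    have t2 : PowerSeries.coeff (b + b') (dd ^ 2 * (PowerSeries.coeff 0 V * PowerSeries.coeff m V') : A) =
        PowerSeries.coeff b (PowerSeries.coeff 0 V : A) * PowerSeries.coeff b' (dd ^ 2 * PowerSeries.coeff m V' : A) := by
      rw [mul_left_comm]
      exact coeff_mul_of_dvd (h.lo 0 (by omega)) h'.top
    rw [t1, t2]
    ring
  · rw [if_neg hme, add_zero]
    rw [Finset.sum_eq_add (a := ((m, 0) : ℕ × ℕ)) (b := ((0, m) : ℕ × ℕ)) hne]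
    · simp only
      congr 1
      · rw [← mul_assoc]
        exact coeff_mul_of_dvd h.top (h'.lo 0 (by omega))
      · rw [mul_left_comm]
        exact coeff_mul_of_dvd (h.lo 0 (by omega)) h'.top
    · rintro ⟨i, j⟩ hij ⟨h1, h2⟩
      rw [Finset.HasAntidiagonal.mem_antidiagonal] at hij
      simp only at hij ⊢
      apply be_aux hm h h' hij
      · intro h4
        apply h2
        rw [h4] at hij ⊢
        congr 1
        omega
      · intro h4
        apply h1
        have h5 : i = m := by omega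
        rw [h4, h5]
      · rintro ⟨h4, h5⟩
        omega
    · intro h1
      exact absurd (Finset.HasAntidiagonal.mem_antidiagonal.2 (by simp)) h1
    · intro h1
      exact absurd (Finset.HasAntidiagonal.mem_antidiagonal.2 (by simp)) h1

theorem prof_one {e m : ℕ} : Prof e m 0 (1 : PowerSeries A) :=
  ⟨fun n _ => by simp, fun n _ => by simp, by simp⟩

/-- the product over the components: profile, `eps`, and the two Newton identities -/
theorem prod_all {ι : Type*} (s : Finset ι) {e m : ℕ} (he : 1 ≤ e) (hem : e < m)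
    (hm : m ≤ 2 * e) (b : ι → ℕ) (V : ι → PowerSeries A)
    (h : ∀ c ∈ s, Prof e m (b c) (V c)) (h1 : ∀ c ∈ s, eps (b c) (V c) ^ 2 = 1) :
    Prof e m (∑ c ∈ s, b c) (∏ c ∈ s, V c) ∧
    eps (∑ c ∈ s, b c) (∏ c ∈ s, V c) ^ 2 = 1 ∧
    eps (∑ c ∈ s, b c) (∏ c ∈ s, V c) * al e (∑ c ∈ s, b c) (∏ c ∈ s, V c) =
      ∑ c ∈ s, eps (b c) (V c) * al e (b c) (V c) ∧
    (if m = 2 * e then
      (eps (∑ c ∈ s, b c) (∏ c ∈ s, V c) * al e (∑ c ∈ s, b c) (∏ c ∈ s, V c)) ^ 2 else 0) -
      2 * (eps (∑ c ∈ s, b c) (∏ c ∈ s, V c) * be m (∑ c ∈ s, b c) (∏ c ∈ s, V c)) =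
      ∑ c ∈ s, ((if m = 2 * e then (al e (b c) (V c)) ^ 2 else 0) -
        2 * (eps (b c) (V c) * be m (b c) (V c))) := by
  classical
  induction s using Finset.induction_on with
  | empty =>
    simp only [Finset.sum_empty, Finset.prod_empty]
    have e1 : eps 0 (1 : PowerSeries A) = 1 := by simp [eps]
    have e2 : al e 0 (1 : PowerSeries A) = 0 := by
      simp [al, PowerSeries.coeff_one, show e ≠ 0 by omega]
    have e3 : be m 0 (1 : PowerSeries A) = 0 := by
      simp [be, PowerSeries.coeff_one, show m ≠ 0 by omega]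
    refine ⟨prof_one, by rw [e1]; norm_num, by rw [e2]; simp, by rw [e2, e3]; simp⟩
  | insert a s ha ih =>
    have ih' := ih (fun c hc => h c (Finset.mem_insert_of_mem hc))
      (fun c hc => h1 c (Finset.mem_insert_of_mem hc))
    obtain ⟨i1, i2, i3, i4⟩ := ih'
    have ha1 := h a (Finset.mem_insert_self a s)
    have ha2 := h1 a (Finset.mem_insert_self a s)
    rw [Finset.sum_insert ha, Finset.prod_insert ha, Finset.sum_insert ha, Finset.sum_insert ha,
      eps_mul ha1 i1 he, al_mul hem ha1 i1 he, be_mul hem hm ha1 i1 he]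
    refine ⟨ha1.mul hem.le hm i1 he, by rw [mul_pow, ha2, i2, one_mul], ?_, ?_⟩
    · rw [← i3]
      linear_combination (eps (b a) (V a) * al e (b a) (V a)) * i2 +
        (eps (∑ c ∈ s, b c) (∏ c ∈ s, V c) * al e (∑ c ∈ s, b c) (∏ c ∈ s, V c)) * ha2
    · rw [← i4]
      by_cases hme : m = 2 * e
      · simp only [if_pos hme]
        generalize eps (∑ c ∈ s, b c) (∏ c ∈ s, V c) = E at *
        generalize al e (∑ c ∈ s, b c) (∏ c ∈ s, V c) = A at *
        generalize be m (∑ c ∈ s, b c) (∏ c ∈ s, V c) = B at *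
        generalize eps (b a) (V a) = ε at *
        generalize al e (b a) (V a) = α at *
        generalize be m (b a) (V a) = β at *
        have hE : E ^ 2 = 1 := i2
        have hε : ε ^ 2 = 1 := ha2
        have e1 : ε * E * (α * E + ε * A) = ε * α + E * A := by
          linear_combination (ε * α) * hE + (E * A) * hε
        have e2 : ε * E * (β * E + ε * B + α * A) = ε * β + E * B + (ε * α) * (E * A) := by
          linear_combination (ε * β) * hE + (E * B) * hε
        rw [e1, e2]
        linear_combination (α ^ 2) * hε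
      · simp only [if_neg hme, add_zero]
        generalize eps (∑ c ∈ s, b c) (∏ c ∈ s, V c) = E at *
        generalize be m (∑ c ∈ s, b c) (∏ c ∈ s, V c) = B at *
        generalize eps (b a) (V a) = ε at *
        generalize be m (b a) (V a) = β at *
        have hE : E ^ 2 = 1 := i2
        have hε : ε ^ 2 = 1 := ha2
        linear_combination (-2 * ε * β) * hE + (-2 * E * B) * hε

/-- second power sum: `∑ (α_c² - 2 ε_c β_c) = 0` (coefficients at `q^(2e)`) -/
theorem sum_second {ι : Type*} (s : Finset ι) {e : ℕ} (he : 1 ≤ e) (b : ι → ℕ)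
    (V : ι → PowerSeries A) (h : ∀ c ∈ s, Prof e (2 * e) (b c) (V c))
    (h1 : ∀ c ∈ s, eps (b c) (V c) ^ 2 = 1)
    (hP : dd ^ (∑ c ∈ s, b c) ∣ PowerSeries.coeff e (∏ c ∈ s, V c))
    (hP2 : dd ^ (∑ c ∈ s, b c) ∣ PowerSeries.coeff (2 * e) (∏ c ∈ s, V c)) :
    ∑ c ∈ s, ((al e (b c) (V c)) ^ 2 - 2 * (eps (b c) (V c) * be (2 * e) (b c) (V c))) = 0 := by
  obtain ⟨_, _, i3, i4⟩ := prod_all s he (by omega) le_rfl b V h h1
  simp only [if_true] at i4
  rw [← i4]
  have e1 : al e (∑ c ∈ s, b c) (∏ c ∈ s, V c) = 0 := by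
    unfold al
    apply coeff_eq_zero_of_dvd
    rw [pow_succ']
    exact mul_dvd_mul_left _ hP
  have e2 : be (2 * e) (∑ c ∈ s, b c) (∏ c ∈ s, V c) = 0 := by
    unfold be
    apply coeff_eq_zero_of_dvd
    rw [pow_succ, mul_comm]
    exact mul_dvd_mul (dvd_pow_self dd (by norm_num)) hP2
  rw [e1, e2]
  ring

/-- below `2 e`: `∑ ε_c β_c = 0` for the coefficients at `q^m d^(b-2)`, `e < m < 2 e` -/
theorem sum_odd {ι : Type*} (s : Finset ι) {e m : ℕ} (he : 1 ≤ e) (hem : e < m) (hm : m < 2 * e)
    (b : ι → ℕ) (V : ι → PowerSeries A) (h : ∀ c ∈ s, Prof e m (b c) (V c))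
    (h1 : ∀ c ∈ s, eps (b c) (V c) ^ 2 = 1)
    (hP2 : dd ^ (∑ c ∈ s, b c) ∣ PowerSeries.coeff m (∏ c ∈ s, V c)) :
    ∑ c ∈ s, eps (b c) (V c) * be m (b c) (V c) = 0 := by
  obtain ⟨_, _, _, i4⟩ := prod_all s he hem hm.le b V h h1
  have hne : m ≠ 2 * e := hm.ne
  simp only [if_neg hne, zero_sub] at i4
  have e2 : be m (∑ c ∈ s, b c) (∏ c ∈ s, V c) = 0 := by
    unfold be
    apply coeff_eq_zero_of_dvd
    rw [pow_succ, mul_comm]
    exact mul_dvd_mul (dvd_pow_self dd (by norm_num)) hP2
  rw [e2, mul_zero, mul_zero, neg_zero, Finset.sum_neg_distrib, ← Finset.mul_sum] at i4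
  linarith

/-- individuality: if no component has a positive second order term then all first order terms
vanish -/
theorem individual {ι : Type*} (s : Finset ι) {e : ℕ} (he : 1 ≤ e) (b : ι → ℕ)
    (V : ι → PowerSeries A) (h : ∀ c ∈ s, Prof e (2 * e) (b c) (V c))
    (h1 : ∀ c ∈ s, eps (b c) (V c) ^ 2 = 1)
    (hP : dd ^ (∑ c ∈ s, b c) ∣ PowerSeries.coeff e (∏ c ∈ s, V c))
    (hP2 : dd ^ (∑ c ∈ s, b c) ∣ PowerSeries.coeff (2 * e) (∏ c ∈ s, V c))
    (hneg : ∀ c ∈ s, eps (b c) (V c) * be (2 * e) (b c) (V c) ≤ 0) :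
    ∀ c ∈ s, dd ^ (b c) ∣ PowerSeries.coeff e (V c) := by
  intro c hc
  have h2 := sum_second s he b V h h1 hP hP2
  have h3 : ∀ c ∈ s, 0 ≤ (al e (b c) (V c)) ^ 2 -
      2 * (eps (b c) (V c) * be (2 * e) (b c) (V c)) := by
    intro c hc
    have := hneg c hc
    nlinarith [sq_nonneg (al e (b c) (V c))]
  have h4 := (Finset.sum_eq_zero_iff_of_nonneg h3).1 h2 c hc
  have h5 : al e (b c) (V c) = 0 := by
    have := hneg c hc
    have h6 : (al e (b c) (V c)) ^ 2 ≤ 0 := by linarith
    exact pow_eq_zero_iff (two_ne_zero) |>.1 (le_antisymm h6 (sq_nonneg _))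
  have h6 := (h c hc).mid e (by omega)
  apply dvd_of_coeff
  intro d hd
  have h7 : PowerSeries.coeff (d + 1) (dd * PowerSeries.coeff e (V c) : A) =
      PowerSeries.coeff d (PowerSeries.coeff e (V c) : A) := by
    unfold dd
    exact PowerSeries.coeff_succ_X_mul d _
  rw [← h7]
  by_cases hdb : d + 1 < b c
  · exact coeff_zero_of_dvd h6 hdb
  · have hd1 : d + 1 = b c := by omega
    unfold al at h5
    rw [hd1]
    exact h5

end Pool.Agent.GaussPoset.Win.I2

end
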