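import Mathlib
import Pool.Agent.W_448zz_h61.Ns
import Pool.Agent.W_448zz_h61.M008
import Pool.Agent.W_448zz_h61.M015
import Pool.Agent.W_448zz_h61.M067

/-! From `Pool.Agent.W_448ev_h61.EvN` -/

section

/-! Splitting a long evaluation along the first label. -/

namespace Pool.Agent.GaussPoset.Win.Ev

/-- the program without its first assignment -/
def tl : Prog → Prog
  | Prog.asg _ _ _ p => p
  | p => p

/-- first assignment is `x`, from label `0`, without caps -/
def hd0 (x : ℕ) : Prog → Bool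
  | Prog.asg y lb caps _ => Nat.beq y x && Nat.beq lb 0 && caps.isEmpty
  | _ => false

theorem ev_split {m x : ℕ} {p : Prog} (h : hd0 x p = true) (v b n1 n2 f : ℕ) :
    ev m p v b n1 n2 f =
      ∑ k ∈ Finset.range (b + 1), ev m (tl p) (v + k * 32 ^ x) (b - k) n1 n2 f := by
  cases p with
  | asg y lb caps q =>
    simp only [hd0, Bool.and_eq_true] at h
    obtain ⟨⟨h1, h2⟩, h3⟩ := h
    have e1 : y = x := Nat.eq_of_beq_eq_true h1
    have e2 : lb = 0 := Nat.eq_of_beq_eq_true h2
    have e3 : caps = [] := List.isEmpty_iff.1 h3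
    subst e1 e2 e3
    have e : ev m (Prog.asg y 0 [] q) v b n1 n2 f =
        loop (fun k => ev m q (v + k * 32 ^ y) (b - k) n1 n2 f) 0 (b + 1 - 0) := rfl
    rw [e, loop_eq]
    simp only [Nat.zero_add, Nat.sub_zero, tl]
  | nil => simp [hd0] at h
  | site _ _ _ _ => simp [hd0] at h
  | low _ _ _ _ => simp [hd0] at h
  | upp _ _ _ _ => simp [hd0] at h
  | skp _ _ _ _ => simp [hd0] at h

/-- the values of the pieces `k ∈ [u, w)` of a split evaluation -/
noncomputable def pcs (m : ℕ) (q : Prog) (x b u : ℕ) (c : List ℤ) : Bool :=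
  (List.range c.length).all fun k =>
    decide (ev m q ((u + k) * 32 ^ x) (b - (u + k)) 0 0 0 = c.getD k 0)

end Pool.Agent.GaussPoset.Win.Ev

end

/-! From `Pool.Agent.W_448co_h5.FirstDiff` -/

section

/-! The first difference lemma: at energy `≤ k - i` the level `k` is seen by the window `i` only
through the elements whose cone (above level `i`) is a chain. -/

namespace Pool.Agent.GaussPoset.Win

set_option linter.unusedSectionVars false

open Finset

universe u

variable {P : Type u} [Fintype P] [PartialOrder P] [DecidableEq P] {r : ℕ}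

variable {i k : ℕ} {C : Finset P}

open Classical in
/-- the lower elements above `z` (`z` included) -/
noncomputable def cone (i : ℕ) (z : P) : Finset P := univ.filter (fun y => z ≤ y ∧ i < lev y)

/-- label one on the cone of `z` -/
noncomputable def cind (i : ℕ) (z : P) : P → ℕ := fun y => if y ∈ cone i z then 1 else 0

open Classical in
/-- number of elements of level `m` in the cone of `z` (`z` included) -/
noncomputable def cat (m : ℕ) (z : P) : ℕ := ((lv P m).filter (fun y => z ≤ y)).card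

lemma mem_cone {z y : P} : y ∈ cone i z ↔ z ≤ y ∧ i < lev y := by
  classical
  unfold cone
  simp

lemma cind_of_mem {z y : P} (h : y ∈ cone i z) : cind i z y = 1 := if_pos h

lemma cind_of_not_mem {z y : P} (h : y ∉ cone i z) : cind i z y = 0 := if_neg h

lemma cind_le_one (z y : P) : cind i z y ≤ 1 := by
  unfold cind
  split_ifs <;> omega

lemma cind_pos {z y : P} (h : 0 < cind i z y) : y ∈ cone i z := by
  by_contra h'
  rw [cind_of_not_mem h'] at h
  omega

lemma sum_cind (z : P) : ∑ y, cind i z y = (cone i z).card := by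
  unfold cind
  rw [Finset.sum_ite_mem, Finset.univ_inter, Finset.sum_const, smul_eq_mul, mul_one]

/-- every level between meets the cone -/
lemma card_cone_ge {z : P} : lev z - i ≤ (cone i z).card := by
  classical
  have h : ((cone i z).image lev) ⊇ Finset.Ioc i (lev z) := by
    intro m hm
    rw [Finset.mem_Ioc] at hm
    obtain ⟨y, hy, hym⟩ := exists_above' (x := z) (j := m) hm.2
    rw [mem_image]
    exact ⟨y, mem_cone.2 ⟨hy, by omega⟩, hym⟩
  calc lev z - i = (Finset.Ioc i (lev z)).card := by rw [Nat.card_Ioc]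
    _ ≤ ((cone i z).image lev).card := Finset.card_le_card h
    _ ≤ (cone i z).card := Finset.card_image_le

/-- an admissible configuration dominates the cone of every excited lower element -/
theorem cind_le (H : Gr P r) {e : P → ℕ} (hA : AdmL i e) {z : P} (he : 0 < e z) (y : P) :
    cind i z y ≤ e y := by
  by_cases hy : y ∈ cone i z
  · rw [cind_of_mem hy]
    rw [mem_cone] at hy
    exact pos_above H hA hy.2 z hy.1 he
  · rw [cind_of_not_mem hy]
    exact Nat.zero_le _

theorem card_cone_le (H : Gr P r) {e : P → ℕ} (hA : AdmL i e) {z : P} (he : 0 < e z) :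
    (cone i z).card ≤ ∑ y, e y := by
  rw [← sum_cind]
  exact Finset.sum_le_sum fun y _ => cind_le H hA he y

/-- a configuration of energy at most `k - i` which excites level `k` or a deeper level is the
indicator of the cone of an element of level `k` -/
theorem eq_ind (H : Gr P r) {e : P → ℕ} (hA : AdmL i e) {z : P} (he : 0 < e z)
    (hik : i < k) (hz : k ≤ lev z) (hn : ∑ y, e y ≤ k - i) :
    lev z = k ∧ (cone i z).card = k - i ∧ ∑ y, e y = k - i ∧ e = cind i z := by
  have h1 := card_cone_ge (i := i) (z := z)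
  have h2 := card_cone_le H hA he
  refine ⟨by omega, by omega, by omega, ?_⟩
  have h3 : ∑ y, e y = ∑ y, cind i z y := by
    rw [sum_cind]
    omega
  funext y
  have h4 := (Finset.sum_eq_sum_iff_of_le (s := univ) (f := cind i z) (g := e)
    (fun y _ => cind_le H hA he y)).1 h3.symm
  exact (h4 y (mem_univ y)).symm

section val

variable {z : P}

lemma not_FD_ind (hy : P) (h : i < lev hy) : ¬ FD (cind i z) hy := by
  rintro ⟨y', hy', hlt⟩
  have h1 : y' ∈ cone i z := cind_pos (by omega)
  have h2 : hy ∈ cone i z := by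
    rw [mem_cone] at h1 ⊢
    exact ⟨h1.1.trans hy'.le, h⟩
  rw [cind_of_mem h2] at hlt
  have := cind_le_one (i := i) z y'
  omega

lemma not_FU_ind (u : P) (h : lev u ≤ i) : ¬ FU (cind i z) u := by
  rintro ⟨y, hy, hlt⟩
  have h1 : y ∈ cone i z := cind_pos (by omega)
  rw [mem_cone] at h1
  have h2 : lev y < lev u := lev_strictAnti hy.lt
  omega

open Classical in
lemma AU_ind : AU i (cind i z) = ∅ := by
  ext v
  rw [NormD_mem_AU]
  constructor
  · rintro ⟨h1, h2⟩
    exact absurd h2 (not_FU_ind v h1.le)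
  · intro h
    exact absurd h (Finset.notMem_empty v)

open Classical in
lemma AL_ind (H : Gr P r) (hz : i < lev z) :
    AL i (cind i z) = (lv P i).filter (fun v => z < v) := by
  ext v
  rw [NormD_mem_AL, mem_filter, mem_lv]
  constructor
  · rintro ⟨h1, y', hy', hlt⟩
    have h2 : y' ∈ cone i z := cind_pos (by omega)
    rw [mem_cone] at h2
    exact ⟨h1, lt_of_le_of_lt h2.1 hy'.lt⟩
  · rintro ⟨h1, h2⟩
    refine ⟨h1, ?_⟩
    obtain ⟨w, hw1, hw2, hw3⟩ := exists_mid H h2.le (k := i + 1) (by omega) (by omega)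
    have h3 : w ⋖ v := by
      rw [H.covBy_iff]
      refine ⟨lt_of_le_of_ne hw2 ?_, by omega⟩
      rintro rfl
      omega
    refine ⟨w, h3, ?_⟩
    have h4 : v ∉ cone i z := by
      rw [mem_cone]
      omega
    have h5 : w ∈ cone i z := mem_cone.2 ⟨hw1, by omega⟩
    rw [cind_of_mem h5, cind_of_not_mem h4]
    omega

lemma card_AL_ind (H : Gr P r) (hz : i < lev z) : (AL i (cind i z)).card = up i z := by
  classical
  rw [AL_ind H hz]
  unfold up
  congr

lemma pL_ind (H : Gr P r) : pL i (cind i z) = cat (i + 1) z := by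
  classical
  unfold pL cat
  congr 1
  ext y
  simp only [mem_filter, mem_univ, true_and, mem_lv]
  constructor
  · rintro ⟨h1, h2, h3⟩
    have h4 : y ∈ cone i z := by
      by_contra h
      obtain ⟨t, ht⟩ := uc_nonempty H (x := y) (by omega)
      exact h3 ⟨t, mem_uc.1 ht, by rw [cind_of_not_mem h]; exact Nat.zero_le _⟩
    refine ⟨?_, (mem_cone.1 h4).1⟩
    by_contra h5
    obtain ⟨t, ht⟩ := uc_nonempty H (x := y) (by omega)
    have h6 := lev_uc H ht
    have h7 : t ∈ cone i z := by
      rw [mem_cone] at h4 ⊢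
      exact ⟨h4.1.trans (mem_uc.1 ht).le, by omega⟩
    exact h3 ⟨t, mem_uc.1 ht, by rw [cind_of_mem h7]; exact cind_le_one z y⟩
  · rintro ⟨h1, h2⟩
    have h4 : y ∈ cone i z := mem_cone.2 ⟨h2, by omega⟩
    refine ⟨by omega, not_FD_ind y (by omega), ?_⟩
    rintro ⟨t, ht, hle⟩
    have h5 := lev_uc H (mem_uc.2 ht)
    have h6 : t ∉ cone i z := by
      rw [mem_cone]
      omega
    rw [cind_of_mem h4, cind_of_not_mem h6] at hle
    omega

lemma cw_ind (H : Gr P r) (hir : i ≤ r) :
    cw i (cind i z) = dd ^ cat (i + 1) z := by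
  classical
  have h3 : AdmL i (cind i z) := fun y hy h => not_FD_ind y hy h.1
  have h4 : AdmU i (cind i z) := fun y hy h => not_FU_ind y hy.le h.1
  have h5 : aL i (cind i z) = 0 := by
    unfold aL
    rw [Finset.card_eq_zero, Finset.filter_eq_empty_iff]
    rintro y - ⟨h, h'⟩
    exact not_FD_ind y h h'
  have h6 : aU i (cind i z) = 0 := by
    unfold aU
    rw [Finset.card_eq_zero, Finset.filter_eq_empty_iff]
    rintro y - ⟨h, h'⟩
    exact not_FU_ind y h.le h'
  have h8 : pU i (cind i z) = 0 := by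
    unfold pU
    rw [Finset.card_eq_zero, Finset.filter_eq_empty_iff]
    rintro y - ⟨h, _, h'⟩
    apply h'
    obtain ⟨t, ht⟩ := dc_nonempty H (x := y) (by omega)
    have h9 : y ∉ cone i z := by
      rw [mem_cone]
      omega
    exact ⟨t, mem_dc.1 ht, by rw [cind_of_not_mem h9]; exact Nat.zero_le _⟩
  unfold cw
  rw [if_pos ⟨h3, h4⟩, h5, h6, pL_ind H, h8]
  simp

/-- the term of the indicator of a cone -/
theorem tC_ind (H : Gr P r) (hir : i ≤ r) (C : Finset P) (hz : i < lev z) :
    tC i C (cind i z) = xx ^ up i z * dd ^ (cat (i + 1) z + ((st i C).card - up i z)) := by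
  classical
  unfold tC
  rw [AU_ind, if_pos (disjoint_empty_right _), cw_ind H hir, card_AL_ind H hz,
    Finset.card_empty, Nat.sub_zero, pow_add]
  ring

end val

open Classical in
/-- the elements of level `k` of the part whose cone is a chain -/
noncomputable def slim (i k : ℕ) (C : Finset P) : Finset P :=
  C.filter (fun z => lev z = k ∧ (cone i z).card = k - i)

lemma mem_slim {z : P} : z ∈ slim i k C ↔ z ∈ C ∧ lev z = k ∧ (cone i z).card = k - i := by
  classical
  unfold slim
  rw [mem_filter]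

/-- the part above level `k` -/
noncomputable def cut (k : ℕ) (C : Finset P) : Finset P := C.filter (fun z => lev z < k)

lemma mem_cut {z : P} : z ∈ cut k C ↔ z ∈ C ∧ lev z < k := by
  unfold cut
  rw [mem_filter]

lemma st_cut (hik : i < k) : st i (cut k C) = st i C := by
  ext v
  rw [mem_st, mem_st, mem_cut]
  constructor
  · exact fun h => ⟨h.1.1, h.2⟩
  · exact fun h => ⟨⟨h.1, by omega⟩, h.2⟩

lemma cind_inj {z z' : P} (h1 : lev z = lev z') (hi : i < lev z) (h : cind i z = cind i z') :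
    z = z' := by
  have h2 : z ∈ cone i z := mem_cone.2 ⟨le_rfl, hi⟩
  have h3 : cind i z' z = 1 := by rw [← h, cind_of_mem h2]
  have h4 : z ∈ cone i z' := cind_pos (by omega)
  rw [mem_cone] at h4
  rcases eq_or_lt_of_le h4.1 with h5 | h5
  · exact h5.symm
  · have := lev_strictAnti h5
    omega

lemma cone_sub (hC : Part i C) {z : P} (hz : z ∈ C) : cone i z ⊆ C := by
  intro y hy
  rw [mem_cone] at hy
  have key : ∀ x, x ≤ y → x ∈ C → y ∈ C := by
    refine normb_induct (C := fun x => x ∈ C → y ∈ C) (fun h => h) ?_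
    intro x w hxw _ ih hx
    exact ih (hC.up hx hxw)
  exact key z hy.1 hz

/-- FIRST DIFFERENCE LEMMA -/
theorem ZC_first (H : Gr P r) (hir : i ≤ r) (hC : Part i C) (hik : i < k) {n : ℕ}
    (hn : n ≤ k - i) :
    ZC i C n = ZC i (cut k C) n + if n = k - i then
      ∑ z ∈ slim i k C, xx ^ up i z * dd ^ (1 + ((st i C).card - up i z)) else 0 := by
  classical
  have hsub : (cut k C).piAntidiag n ⊆ C.piAntidiag n := by
    intro e he
    have hs := spt_of_mem he
    rw [mem_piAntidiag] at he ⊢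
    have hsubC : cut k C ⊆ C := filter_subset _ _
    refine ⟨?_, fun x hx => hsubC (he.2 x hx)⟩
    rw [← he.1]
    symm
    exact Finset.sum_subset hsubC fun x _ hx => hs x hx
  have h1 : ZC i C n = ∑ e ∈ (cut k C).piAntidiag n, tC i C e +
      ∑ e ∈ C.piAntidiag n \ (cut k C).piAntidiag n, tC i C e := by
    unfold ZC
    rw [add_comm, Finset.sum_sdiff hsub]
  have h2 : ∑ e ∈ (cut k C).piAntidiag n, tC i C e = ZC i (cut k C) n := by
    unfold ZC
    refine Finset.sum_congr rfl fun e _ => ?_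
    unfold tC
    rw [st_cut hik]
  rw [h1, h2]
  congr 1
  -- the configurations which excite level `k`
  have h3 : ∀ e ∈ C.piAntidiag n \ (cut k C).piAntidiag n, tC i C e ≠ 0 →
      n = k - i ∧ ∃ z ∈ slim i k C, e = cind i z := by
    intro e he hne
    rw [mem_sdiff] at he
    obtain ⟨heC, heN⟩ := he
    have hs := spt_of_mem heC
    rw [mem_piAntidiag] at heC heN
    have hsum : ∑ x, e x = n := by
      rw [← heC.1]
      symm
      exact Finset.sum_subset (subset_univ C) fun x _ hx => hs x hx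
    have hex : ∃ z, e z ≠ 0 ∧ z ∉ cut k C := by
      by_contra hcon
      push Not at hcon
      apply heN
      refine ⟨?_, hcon⟩
      rw [← heC.1]
      refine Finset.sum_subset (filter_subset _ _) fun x _ hx => ?_
      by_contra h0
      exact hx (hcon x h0)
    obtain ⟨z, hz0, hz⟩ := hex
    have hzC : z ∈ C := heC.2 z hz0
    have hzk : k ≤ lev z := by
      by_contra h
      exact hz (mem_cut.2 ⟨hzC, by omega⟩)
    have hA : AdmL i e := by
      by_contra h
      apply hne
      unfold tC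
      split_ifs with hd
      · unfold cw
        rw [if_neg (fun h' => h h'.1), zero_mul]
      · rfl
    obtain ⟨g1, g2, g3, g4⟩ := eq_ind H hA (z := z) (by omega) hik hzk (by omega)
    exact ⟨by omega, z, mem_slim.2 ⟨hzC, g1, g2⟩, g4⟩
  split_ifs with hnk
  · have h4 : (slim i k C).image (cind i) ⊆ C.piAntidiag n \ (cut k C).piAntidiag n := by
      intro e he
      rw [mem_image] at he
      obtain ⟨z, hz, rfl⟩ := he
      rw [mem_slim] at hz
      have hsupp : ∀ x, cind i z x ≠ 0 → x ∈ C := by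
        intro x hx
        exact cone_sub hC hz.1 (cind_pos (Nat.pos_of_ne_zero hx))
      rw [mem_sdiff, mem_piAntidiag, mem_piAntidiag]
      refine ⟨⟨?_, hsupp⟩, ?_⟩
      · have : C.sum (cind i z) = ∑ x, cind i z x := by
          refine Finset.sum_subset (subset_univ C) fun x _ hx => ?_
          by_contra h0
          exact hx (hsupp x h0)
        rw [this, sum_cind, hz.2.2, hnk]
      · rintro ⟨-, h⟩
        have h5 : z ∈ cone i z := mem_cone.2 ⟨le_rfl, by omega⟩
        have h6 := h z (by rw [cind_of_mem h5]; exact one_ne_zero)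
        rw [mem_cut] at h6
        omega
    rw [← Finset.sum_subset h4]
    · rw [Finset.sum_image]
      · refine Finset.sum_congr rfl fun z hz => ?_
        rw [mem_slim] at hz
        rw [tC_ind H hir C (by omega)]
        congr 2
        -- exactly one element of the cone on level `i + 1`
        have h7 : cat (i + 1) z = 1 := by
          have himg : ((cone i z).image lev) = Finset.Ioc i k := by
            ext m
            rw [mem_image, Finset.mem_Ioc]
            constructor
            · rintro ⟨y, hy, rfl⟩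
              rw [mem_cone] at hy
              refine ⟨hy.2, ?_⟩
              rcases eq_or_lt_of_le hy.1 with h8 | h8
              · rw [← h8, hz.2.1]
              · have := lev_strictAnti h8
                omega
            · rintro ⟨h8, h9⟩
              obtain ⟨y, hy, hym⟩ := exists_above' (x := z) (j := m) (by omega)
              exact ⟨y, mem_cone.2 ⟨hy, by omega⟩, hym⟩
          have hinj : Set.InjOn lev (cone i z : Set P) := by
            rw [← Finset.card_image_iff, himg, Nat.card_Ioc, hz.2.2]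
          unfold cat
          rw [Finset.card_eq_one]
          obtain ⟨y, hy, hym⟩ := exists_above' (x := z) (j := i + 1) (by omega)
          refine ⟨y, ?_⟩
          ext w
          rw [mem_filter, mem_lv, mem_singleton]
          constructor
          · rintro ⟨h8, h9⟩
            exact hinj (mem_coe.2 (mem_cone.2 ⟨h9, by omega⟩))
              (mem_coe.2 (mem_cone.2 ⟨hy, by omega⟩)) (h8.trans hym.symm)
          · rintro rfl
            exact ⟨hym, hy⟩
        rw [h7]
      · intro z hz z' hz' h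
        rw [mem_coe, mem_slim] at hz hz'
        exact cind_inj (by omega) (by omega) h
    · intro e he hne
      by_contra h0
      obtain ⟨-, z, hz, rfl⟩ := h3 e he h0
      exact hne (mem_image_of_mem _ hz)
  · refine Finset.sum_eq_zero fun e he => ?_
    by_contra h0
    exact hnk (h3 e he h0).1

end Pool.Agent.GaussPoset.Win

end

/-! From `Pool.Agent.W_448ev_h61.EvE` -/

section

/-!
# Verified evaluator, part E: the term of a configuration is a product of local weights
-/

namespace Pool.Agent.GaussPoset.Win.Ev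

set_option linter.unusedSectionVars false

open Finset

universe u

variable {P : Type u} [Fintype P] [PartialOrder P] [DecidableEq P] {r i : ℕ}
variable {C S : Finset P} {e : P → ℕ}

open Classical in
/-- local weight -/
noncomputable def wP (i : ℕ) (e : P → ℕ) (z : P) : A :=
  if i < lev z then
    (if FD e z then (if GU e z then 0 else xx) else (if GU e z then 1 else dd))
  else if lev z < i then
    (if FU e z then (if GD e z then 0 else xi) else (if GD e z then 1 else xi * dd))
  else (if FD e z then (if FU e z then 0 else xx) else (if FU e z then 1 else dd))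

lemma prod_two {ι : Type*} (s : Finset ι) (p q : ι → Prop) [DecidablePred p] [DecidablePred q]
    (x y : A) :
    ∏ z ∈ s, (if p z then (if q z then 0 else x) else (if q z then 1 else y)) =
      if ∃ z ∈ s, p z ∧ q z then 0 else
        x ^ (s.filter p).card * y ^ (s.filter (fun z => ¬ p z ∧ ¬ q z)).card := by
  classical
  induction s using Finset.induction_on with
  | empty => simp
  | insert a s ha ih =>
    rw [Finset.prod_insert ha, ih]
    have f1 : p a → ((insert a s).filter p).card = (s.filter p).card + 1 := by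
      intro h
      rw [filter_insert, if_pos h, card_insert_of_notMem (fun h => ha (mem_filter.1 h).1)]
    have f1' : ¬ p a → ((insert a s).filter p).card = (s.filter p).card := by
      intro h
      rw [filter_insert, if_neg h]
    have f2 : (¬ p a ∧ ¬ q a) → ((insert a s).filter (fun z => ¬ p z ∧ ¬ q z)).card =
        (s.filter (fun z => ¬ p z ∧ ¬ q z)).card + 1 := by
      intro h
      rw [filter_insert, if_pos h, card_insert_of_notMem (fun h => ha (mem_filter.1 h).1)]
    have f2' : ¬ (¬ p a ∧ ¬ q a) → ((insert a s).filter (fun z => ¬ p z ∧ ¬ q z)).card =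
        (s.filter (fun z => ¬ p z ∧ ¬ q z)).card := by
      intro h
      rw [filter_insert, if_neg h]
    have hh : ¬ (p a ∧ q a) → ((∃ z ∈ insert a s, p z ∧ q z) ↔ ∃ z ∈ s, p z ∧ q z) := by
      intro h0
      constructor
      · rintro ⟨z, hz, h4⟩
        rcases mem_insert.1 hz with rfl | h
        · exact absurd h4 h0
        · exact ⟨z, h, h4⟩
      · rintro ⟨z, hz, h4⟩
        exact ⟨z, mem_insert_of_mem hz, h4⟩
    by_cases h1 : p a
    · by_cases h2 : q a
      · have h3 : ∃ z ∈ insert a s, p z ∧ q z := ⟨a, mem_insert_self _ _, h1, h2⟩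
        rw [if_pos h1, if_pos h2, zero_mul, if_pos h3]
      · rw [if_pos h1, if_neg h2, f1 h1, f2' (fun h => h.1 h1)]
        by_cases h3 : ∃ z ∈ s, p z ∧ q z
        · rw [if_pos h3, if_pos ((hh (fun h => h2 h.2)).2 h3), mul_zero]
        · rw [if_neg h3, if_neg (fun h => h3 ((hh (fun h => h2 h.2)).1 h)), pow_succ]
          ring
    · by_cases h2 : q a
      · rw [if_neg h1, if_pos h2, one_mul, f1' h1, f2' (fun h => h.2 h2)]
        by_cases h3 : ∃ z ∈ s, p z ∧ q z
        · rw [if_pos h3, if_pos ((hh (fun h => h1 h.1)).2 h3)]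
        · rw [if_neg h3, if_neg (fun h => h3 ((hh (fun h => h1 h.1)).1 h))]
      · rw [if_neg h1, if_neg h2, f1' h1, f2 ⟨h1, h2⟩]
        by_cases h3 : ∃ z ∈ s, p z ∧ q z
        · rw [if_pos h3, if_pos ((hh (fun h => h1 h.1)).2 h3), mul_zero]
        · rw [if_neg h3, if_neg (fun h => h3 ((hh (fun h => h1 h.1)).1 h)), pow_succ]
          ring

/-- THE TERM OF A CONFIGURATION AS A PRODUCT. -/
theorem tC_prod (H : Gr P r) (hir : i ≤ r) (hC : Part i C) (he : Spt C e) :
    tC i C e = ∏ z ∈ C, wP i e z := by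
  classical
  -- the three parts
  have hL : ∏ z ∈ C.filter (fun z => i < lev z), wP i e z =
      if AdmL i e then xx ^ aL i e * dd ^ pL i e else 0 := by
    have e1 : ∏ z ∈ C.filter (fun z => i < lev z), wP i e z =
        ∏ z ∈ C.filter (fun z => i < lev z),
          (if FD e z then (if GU e z then 0 else xx) else (if GU e z then 1 else dd)) := by
      refine prod_congr rfl fun z hz => ?_
      unfold wP
      rw [if_pos (mem_filter.1 hz).2]
    rw [e1, prod_two]
    by_cases hA : AdmL i e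
    · rw [if_pos hA, if_neg]
      · congr 2
        · unfold aL
          congr 1
          ext z
          simp only [mem_filter, mem_univ, true_and]
          constructor
          · rintro ⟨⟨_, h1⟩, h2⟩; exact ⟨h1, h2⟩
          · rintro ⟨h1, h2⟩; exact ⟨⟨FD_mem hC he h2, h1⟩, h2⟩
        · unfold pL
          congr 1
          ext z
          simp only [mem_filter, mem_univ, true_and]
          constructor
          · rintro ⟨⟨_, h1⟩, h2, h3⟩; exact ⟨h1, h2, h3⟩
          · rintro ⟨h1, h2, h3⟩; exact ⟨⟨free_low_mem H he h1 h3, h1⟩, h2, h3⟩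
      · rintro ⟨z, hz, h1⟩
        exact hA z (mem_filter.1 hz).2 h1
    · rw [if_neg hA, if_pos]
      unfold AdmL at hA
      push Not at hA
      obtain ⟨z, h1, h2⟩ := hA
      exact ⟨z, mem_filter.2 ⟨FD_mem hC he h2.1, h1⟩, h2⟩
  have hU : ∏ z ∈ C.filter (fun z => lev z < i), wP i e z =
      if AdmU i e then xi ^ (aU i e + pU i e) * dd ^ pU i e else 0 := by
    have e1 : ∏ z ∈ C.filter (fun z => lev z < i), wP i e z =
        ∏ z ∈ C.filter (fun z => lev z < i),
          (if FU e z then (if GD e z then 0 else xi) else (if GD e z then 1 else xi * dd)) := by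
      refine prod_congr rfl fun z hz => ?_
      have := (mem_filter.1 hz).2
      unfold wP
      rw [if_neg (by omega), if_pos this]
    rw [e1, prod_two]
    by_cases hA : AdmU i e
    · rw [if_pos hA, if_neg]
      · have g1 : ((C.filter (fun z => lev z < i)).filter (fun z => FU e z)).card = aU i e := by
          unfold aU
          congr 1
          ext z
          simp only [mem_filter, mem_univ, true_and]
          constructor
          · rintro ⟨⟨_, h1⟩, h2⟩; exact ⟨h1, h2⟩
          · rintro ⟨h1, h2⟩; exact ⟨⟨FU_mem H hC he h1.le h2, h1⟩, h2⟩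
        have g2 : ((C.filter (fun z => lev z < i)).filter (fun z => ¬ FU e z ∧ ¬ GD e z)).card =
            pU i e := by
          unfold pU
          congr 1
          ext z
          simp only [mem_filter, mem_univ, true_and]
          constructor
          · rintro ⟨⟨_, h1⟩, h2, h3⟩; exact ⟨h1, h2, h3⟩
          · rintro ⟨h1, h2, h3⟩; exact ⟨⟨free_up_mem H hir he h1 h3, h1⟩, h2, h3⟩
        rw [g1, g2, mul_pow, pow_add]
        ring
      · rintro ⟨z, hz, h1⟩
        exact hA z (mem_filter.1 hz).2 h1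
    · rw [if_neg hA, if_pos]
      unfold AdmU at hA
      push Not at hA
      obtain ⟨z, h1, h2⟩ := hA
      exact ⟨z, mem_filter.2 ⟨FU_mem H hC he h1.le h2.1, h1⟩, h2⟩
  have hS : ∏ z ∈ st i C, wP i e z =
      if Disjoint (AL i e) (AU i e) then
        xx ^ (AL i e).card * dd ^ ((st i C).card - (AL i e).card - (AU i e).card) else 0 := by
    have e1 : ∏ z ∈ st i C, wP i e z =
        ∏ z ∈ st i C,
          (if FD e z then (if FU e z then 0 else xx) else (if FU e z then 1 else dd)) := by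
      refine prod_congr rfl fun z hz => ?_
      have := (mem_st.1 hz).2
      unfold wP
      rw [if_neg (by omega), if_neg (by omega)]
    have g1 : (st i C).filter (fun z => FD e z) = AL i e := by
      ext z
      rw [mem_filter, NormD_mem_AL]
      constructor
      · rintro ⟨h1, h2⟩; exact ⟨(mem_st.1 h1).2, h2⟩
      · rintro ⟨h1, h2⟩; exact ⟨mem_st.2 ⟨FD_mem hC he h2, h1⟩, h2⟩
    rw [e1, prod_two, g1]
    by_cases hD : Disjoint (AL i e) (AU i e)
    · rw [if_pos hD, if_neg]
      · congr 2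
        have g2 : (st i C).filter (fun z => ¬ FD e z ∧ ¬ FU e z) =
            (st i C) \ (AL i e ∪ AU i e) := by
          ext z
          rw [mem_filter, mem_sdiff, mem_union, NormD_mem_AL, NormD_mem_AU, mem_st]
          constructor
          · rintro ⟨⟨h1, h2⟩, h3, h4⟩
            refine ⟨⟨h1, h2⟩, ?_⟩
            rintro (h5 | h5)
            · exact h3 h5.2
            · exact h4 h5.2
          · rintro ⟨⟨h1, h2⟩, h3⟩
            exact ⟨⟨h1, h2⟩, fun h4 => h3 (Or.inl ⟨h2, h4⟩), fun h4 => h3 (Or.inr ⟨h2, h4⟩)⟩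
        have h5 : AL i e ∪ AU i e ⊆ st i C := union_subset (AL_sub hC he) (AU_sub H hC he)
        rw [g2, card_sdiff_of_subset h5, card_union_of_disjoint hD]
        omega
      · rintro ⟨z, hz, h1, h2⟩
        have h3 := (mem_st.1 hz).2
        exact disjoint_left.1 hD ((NormD_mem_AL i e z).2 ⟨h3, h1⟩) ((NormD_mem_AU i e z).2 ⟨h3, h2⟩)
    · rw [if_neg hD, if_pos]
      rw [not_disjoint_iff] at hD
      obtain ⟨z, h1, h2⟩ := hD
      exact ⟨z, AL_sub hC he h1, ((NormD_mem_AL i e z).1 h1).2, ((NormD_mem_AU i e z).1 h2).2⟩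
  have hsplit : ∏ z ∈ C, wP i e z = (∏ z ∈ C.filter (fun z => i < lev z), wP i e z) *
      ((∏ z ∈ C.filter (fun z => lev z < i), wP i e z) * ∏ z ∈ st i C, wP i e z) := by
    rw [← prod_filter_mul_prod_filter_not C (fun z => i < lev z)]
    congr 1
    rw [← prod_filter_mul_prod_filter_not (C.filter (fun z => ¬ i < lev z)) (fun z => lev z < i)]
    congr 1
    · apply prod_congr _ fun _ _ => rfl
      ext z
      simp only [mem_filter]
      constructor
      · rintro ⟨⟨h1, _⟩, h2⟩; exact ⟨h1, h2⟩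
      · rintro ⟨h1, h2⟩; exact ⟨⟨h1, by omega⟩, h2⟩
    · apply prod_congr _ fun _ _ => rfl
      ext z
      rw [mem_st]
      simp only [mem_filter]
      constructor
      · rintro ⟨⟨h1, h2⟩, h3⟩; exact ⟨h1, by omega⟩
      · rintro ⟨h1, h2⟩; exact ⟨⟨h1, by omega⟩, by omega⟩
  rw [hsplit, hL, hU, hS]
  unfold tC cw
  by_cases hD : Disjoint (AL i e) (AU i e)
  · rw [if_pos hD, if_pos hD]
    by_cases hA : AdmL i e
    · by_cases hB : AdmU i e
      · rw [if_pos ⟨hA, hB⟩, if_pos hA, if_pos hB, pow_add dd]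
        ring
      · rw [if_neg (fun h => hB h.2), if_neg hB]
        ring
    · rw [if_neg (fun h => hA h.1), if_neg hA]
      ring
  · rw [if_neg hD, if_neg hD, mul_zero, mul_zero]

/-- only the elements of `S` matter if `e` is supported on the closed set `S` -/
theorem prod_restrict (H : Gr P r) (hir : i ≤ r) (hS : S ⊆ C) (hst : st i C ⊆ S)
    (hup : ∀ x ∈ S, i < lev x → ∀ y, x ⋖ y → y ∈ S)
    (hdn : ∀ x ∈ S, lev x < i → ∀ y, y ⋖ x → y ∈ S) (he : Spt S e) :
    ∏ z ∈ C, wP i e z = ∏ z ∈ S, wP i e z := by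
  classical
  symm
  apply prod_subset hS
  intro z hz hzS
  have hez : e z = 0 := he z hzS
  have h1 : lev z ≠ i := fun h => hzS (hst (mem_st.2 ⟨hz, h⟩))
  unfold wP
  rcases Nat.lt_or_gt_of_ne h1 with h2 | h2
  · rw [if_neg (by omega), if_pos h2]
    have h3 : ¬ FU e z := by
      rintro ⟨y, hy, hlt⟩
      have hyS : y ∈ S := by
        by_contra h
        rw [he y h] at hlt
        omega
      have hl := (H.covBy_iff.1 hy).2
      exact hzS (hdn y hyS (by omega) z hy)
    have h4 : GD e z := by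
      obtain ⟨y, hy⟩ := dc_nonempty H (x := z) (by omega)
      exact ⟨y, mem_dc.1 hy, by rw [hez]; exact Nat.zero_le _⟩
    rw [if_neg h3, if_pos h4]
  · rw [if_pos h2]
    have h3 : ¬ FD e z := by
      rintro ⟨y, hy, hlt⟩
      have hyS : y ∈ S := by
        by_contra h
        rw [he y h] at hlt
        omega
      have hl := (H.covBy_iff.1 hy).2
      exact hzS (hup y hyS (by omega) z hy)
    have h4 : GU e z := by
      obtain ⟨y, hy⟩ := uc_nonempty H (x := z) (by omega)
      exact ⟨y, mem_uc.1 hy, by rw [hez]; exact Nat.zero_le _⟩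
    rw [if_neg h3, if_pos h4]

/-- energy above an excited upper element -/
lemma up_energy (H : Gr P r) (hir : i ≤ r) (hB : AdmU i e) : ∀ (k : ℕ) (u : P), lev u + (k + 1) = i →
    0 < e u → k + 1 ≤ ∑ y ∈ univ.filter (fun y => lev u ≤ lev y ∧ lev y < i), e y := by
  classical
  intro k
  induction k with
  | zero =>
    intro u hu he
    have h1 : e u ≤ ∑ y ∈ univ.filter (fun y => lev u ≤ lev y ∧ lev y < i), e y :=
      single_le_sum (f := e) (fun _ _ => Nat.zero_le _) (mem_filter.2 ⟨mem_univ _, le_rfl, by omega⟩)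
    omega
  | succ k ih =>
    intro u hu he
    obtain ⟨y, hy⟩ := dc_nonempty H (x := u) (by omega)
    have hy' := mem_dc.1 hy
    have hl := (H.covBy_iff.1 hy').2
    have h1 := ih y (by omega) (pos_dn H hir hB (by omega) he hy')
    have h2 : (univ.filter (fun z : P => lev y ≤ lev z ∧ lev z < i)) ∪ {u} ⊆
        univ.filter (fun z : P => lev u ≤ lev z ∧ lev z < i) := by
      intro z hz
      rw [mem_union, mem_filter, mem_singleton] at hz
      rw [mem_filter]
      rcases hz with ⟨_, h3, h4⟩ | rfl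
      · exact ⟨mem_univ _, by omega, h4⟩
      · exact ⟨mem_univ _, le_rfl, by omega⟩
    have h3 : Disjoint (univ.filter (fun z : P => lev y ≤ lev z ∧ lev z < i)) {u} := by
      rw [disjoint_singleton_right, mem_filter]
      rintro ⟨_, h4, _⟩
      omega
    calc k + 1 + 1 ≤ (∑ z ∈ univ.filter (fun z : P => lev y ≤ lev z ∧ lev z < i), e z) + e u := by
          omega
      _ = ∑ z ∈ (univ.filter (fun z : P => lev y ≤ lev z ∧ lev z < i)) ∪ {u}, e z := by
          rw [sum_union h3, sum_singleton]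
      _ ≤ _ := sum_le_sum_of_subset h2

lemma adm_of_tC (h : tC i C e ≠ 0) : AdmL i e ∧ AdmU i e := by
  classical
  by_contra h1
  apply h
  unfold tC cw
  rw [if_neg h1, zero_mul, ite_self]

/-- a configuration with a nonzero term does not reach farther than its energy -/
theorem far_zero (H : Gr P r) (hir : i ≤ r) {n : ℕ} (h : tC i C e ≠ 0) (hn : ∑ y, e y ≤ n) {z : P}
    (hz : i + n < lev z ∨ lev z + n < i) : e z = 0 := by
  classical
  obtain ⟨hA, hB⟩ := adm_of_tC h
  by_contra he
  have he' : 0 < e z := Nat.pos_of_ne_zero he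
  rcases hz with hz | hz
  · have h1 := card_cone_ge (i := i) (z := z)
    have h2 := card_cone_le H hA he'
    omega
  · obtain ⟨k, hk⟩ : ∃ k, lev z + (k + 1) = i := ⟨i - lev z - 1, by omega⟩
    have h1 := up_energy H hir hB k z hk he'
    have h2 : ∑ y ∈ univ.filter (fun y => lev z ≤ lev y ∧ lev y < i), e y ≤ ∑ y, e y :=
      sum_le_sum_of_subset (filter_subset _ _)
    omega

end Pool.Agent.GaussPoset.Win.Ev

end

/-! From `Pool.Agent.W_448ev_h61.EvF` -/

section

/-!
# Verified evaluator, part F: from codes to elements of the poset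
-/

namespace Pool.Agent.GaussPoset.Win.Ev

set_option linter.unusedSectionVars false

open Finset

universe u

variable {P : Type u} [Fintype P] [PartialOrder P] [DecidableEq P] {r i : ℕ}
variable {C S : Finset P} {e : P → ℕ} {pt : ℕ → P} {I : Finset ℕ}

/-- `pt` codes the elements of the closed subset `S` of `C` by the numbers of `I` -/
structure Chart (i : ℕ) (C S : Finset P) (pt : ℕ → P) (I : Finset ℕ) : Prop where
  sub : S ⊆ C
  st_sub : st i C ⊆ S
  up : ∀ x ∈ S, i < lev x → ∀ y, x ⋖ y → y ∈ S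
  dn : ∀ x ∈ S, lev x < i → ∀ y, y ⋖ x → y ∈ S
  maps : ∀ c ∈ I, pt c ∈ S
  inj : ∀ c ∈ I, ∀ d ∈ I, pt c = pt d → c = d
  surj : ∀ x ∈ S, ∃ c ∈ I, pt c = x

/-- `l` lists the lower covers of `x` in `S` -/
def nbD (S : Finset P) (pt : ℕ → P) (I : Finset ℕ) (x : ℕ) (l : List ℕ) : Prop :=
  (∀ y ∈ l, y ∈ I ∧ pt y ⋖ pt x) ∧ ∀ z ∈ S, z ⋖ pt x → ∃ y ∈ l, pt y = z

/-- `l` lists the upper covers of `x` in `S` -/
def nbU (S : Finset P) (pt : ℕ → P) (I : Finset ℕ) (x : ℕ) (l : List ℕ) : Prop :=
  (∀ y ∈ l, y ∈ I ∧ pt x ⋖ pt y) ∧ ∀ z ∈ S, pt x ⋖ z → ∃ y ∈ l, pt y = z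

/-- the checks of the program fit to the poset -/
def fits (i : ℕ) (S : Finset P) (pt : ℕ → P) (I : Finset ℕ) : Prog → Prop
  | Prog.nil => True
  | Prog.asg _ _ _ p => fits i S pt I p
  | Prog.site x dl ul p => (x ∈ I ∧ lev (pt x) = i ∧ nbD S pt I x dl ∧ nbU S pt I x ul) ∧
      fits i S pt I p
  | Prog.low x o inn p => (x ∈ I ∧ i < lev (pt x) ∧ nbD S pt I x o ∧ nbU S pt I x inn) ∧
      fits i S pt I p
  | Prog.upp x o inn p => (x ∈ I ∧ lev (pt x) < i ∧ nbU S pt I x o ∧ nbD S pt I x inn) ∧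
      fits i S pt I p
  | Prog.skp _ _ _ p => fits i S pt I p

/-- the checked elements -/
def chks : Prog → List ℕ
  | Prog.nil => []
  | Prog.asg _ _ _ p => chks p
  | Prog.site x _ _ p => x :: chks p
  | Prog.low x _ _ p => x :: chks p
  | Prog.upp x _ _ p => x :: chks p
  | Prog.skp _ _ _ p => chks p

/-- labels of the codes -/
def jM (pt : ℕ → P) (I : Finset ℕ) (e : P → ℕ) : ℕ → ℕ := fun c => if c ∈ I then e (pt c) else 0

lemma jM_of_mem {c : ℕ} (h : c ∈ I) : jM pt I e c = e (pt c) := if_pos h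

section nb

variable (he : Spt S e) {x : ℕ} (hx : x ∈ I) {l : List ℕ}

include he hx

lemma gt_iff_FD (h : nbD S pt I x l) :
    (∃ y ∈ l, jM pt I e x < jM pt I e y) ↔ FD e (pt x) := by
  constructor
  · rintro ⟨y, hy, h1⟩
    obtain ⟨h2, h3⟩ := h.1 y hy
    rw [jM_of_mem hx, jM_of_mem h2] at h1
    exact ⟨pt y, h3, h1⟩
  · rintro ⟨z, hz, h1⟩
    have hzS : z ∈ S := by
      by_contra h2
      rw [he z h2] at h1
      omega
    obtain ⟨y, hy, rfl⟩ := h.2 z hzS hz
    refine ⟨y, hy, ?_⟩
    rw [jM_of_mem hx, jM_of_mem (h.1 y hy).1]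
    exact h1

lemma gt_iff_FU (h : nbU S pt I x l) :
    (∃ y ∈ l, jM pt I e x < jM pt I e y) ↔ FU e (pt x) := by
  constructor
  · rintro ⟨y, hy, h1⟩
    obtain ⟨h2, h3⟩ := h.1 y hy
    rw [jM_of_mem hx, jM_of_mem h2] at h1
    exact ⟨pt y, h3, h1⟩
  · rintro ⟨z, hz, h1⟩
    have hzS : z ∈ S := by
      by_contra h2
      rw [he z h2] at h1
      omega
    obtain ⟨y, hy, rfl⟩ := h.2 z hzS hz
    refine ⟨y, hy, ?_⟩
    rw [jM_of_mem hx, jM_of_mem (h.1 y hy).1]
    exact h1

lemma ge_iff_GU (h : nbU S pt I x l) (hcl : ∀ y, pt x ⋖ y → y ∈ S) :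
    (∃ y ∈ l, jM pt I e x ≤ jM pt I e y) ↔ GU e (pt x) := by
  constructor
  · rintro ⟨y, hy, h1⟩
    obtain ⟨h2, h3⟩ := h.1 y hy
    rw [jM_of_mem hx, jM_of_mem h2] at h1
    exact ⟨pt y, h3, h1⟩
  · rintro ⟨z, hz, h1⟩
    obtain ⟨y, hy, rfl⟩ := h.2 z (hcl z hz) hz
    refine ⟨y, hy, ?_⟩
    rw [jM_of_mem hx, jM_of_mem (h.1 y hy).1]
    exact h1

lemma ge_iff_GD (h : nbD S pt I x l) (hcl : ∀ y, y ⋖ pt x → y ∈ S) :
    (∃ y ∈ l, jM pt I e x ≤ jM pt I e y) ↔ GD e (pt x) := by
  constructor
  · rintro ⟨y, hy, h1⟩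
    obtain ⟨h2, h3⟩ := h.1 y hy
    rw [jM_of_mem hx, jM_of_mem h2] at h1
    exact ⟨pt y, h3, h1⟩
  · rintro ⟨z, hz, h1⟩
    obtain ⟨y, hy, rfl⟩ := h.2 z (hcl z hz) hz
    refine ⟨y, hy, ?_⟩
    rw [jM_of_mem hx, jM_of_mem (h.1 y hy).1]
    exact h1

end nb

/-- the weights of a program are the local weights -/
theorem prodW_eq (hc : Chart i C S pt I) (he : Spt S e) : ∀ (p : Prog), fits i S pt I p →
    prodW p (jM pt I e) = ((chks p).map (fun c => wP i e (pt c))).prod := by
  classical
  intro p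
  induction p with
  | nil => intro _; rfl
  | asg x lb caps p ih => intro h; exact ih h
  | skp xs k q p _ ih => intro h; exact ih h
  | site x dl ul p ih =>
    rintro ⟨⟨h1, h2, h3, h4⟩, h5⟩
    rw [prodW, ih h5, chks, List.map_cons, List.prod_cons]
    congr 1
    have e1 : wP i e (pt x) = (if FD e (pt x) then (if FU e (pt x) then 0 else xx)
        else (if FU e (pt x) then 1 else dd)) := by
      unfold wP
      rw [if_neg (by omega), if_neg (by omega)]
    rw [e1]
    unfold wS
    simp only [gt_iff_FD he h1 h3, gt_iff_FU he h1 h4]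
  | low x o inn p ih =>
    rintro ⟨⟨h1, h2, h3, h4⟩, h5⟩
    rw [prodW, ih h5, chks, List.map_cons, List.prod_cons]
    congr 1
    have e1 : wP i e (pt x) = (if FD e (pt x) then (if GU e (pt x) then 0 else xx)
        else (if GU e (pt x) then 1 else dd)) := by
      unfold wP
      rw [if_pos h2]
    rw [e1]
    unfold wL
    simp only [gt_iff_FD he h1 h3, ge_iff_GU he h1 h4 (fun y hy => hc.up _ (hc.maps x h1) h2 y hy)]
  | upp x o inn p ih =>
    rintro ⟨⟨h1, h2, h3, h4⟩, h5⟩
    rw [prodW, ih h5, chks, List.map_cons, List.prod_cons]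
    congr 1
    have e1 : wP i e (pt x) = (if FU e (pt x) then (if GD e (pt x) then 0 else xi)
        else (if GD e (pt x) then 1 else xi * dd)) := by
      unfold wP
      rw [if_neg (by omega), if_pos h2]
    rw [e1]
    unfold wU
    simp only [gt_iff_FU he h1 h3, ge_iff_GD he h1 h4 (fun y hy => hc.dn _ (hc.maps x h1) h2 y hy)]

/-- reindexing -/
theorem sum_reindex (hc : Chart i C S pt I) (n : ℕ) (G : (ℕ → ℕ) → A) :
    ∑ M ∈ I.piAntidiag n, G M = ∑ e ∈ S.piAntidiag n, G (jM pt I e) := by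
  classical
  have hval : ∀ (M : ℕ → ℕ) (c : ℕ), c ∈ I →
      ∑ d ∈ I, (if pt d = pt c then M d else 0) = M c := by
    intro M c hcI
    rw [Finset.sum_eq_single c]
    · rw [if_pos rfl]
    · intro d hd hne
      rw [if_neg (fun h => hne (hc.inj d hd c hcI h))]
    · intro h; exact absurd hcI h
  have himg : S = I.image pt := by
    ext x
    rw [mem_image]
    constructor
    · intro hx
      obtain ⟨c, h1, h2⟩ := hc.surj x hx
      exact ⟨c, h1, h2⟩
    · rintro ⟨c, h1, rfl⟩
      exact hc.maps c h1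
  have hsumS : ∀ f : P → ℕ, ∑ x ∈ S, f x = ∑ c ∈ I, f (pt c) := by
    intro f
    rw [himg, Finset.sum_image (fun c h1 d h2 h => hc.inj c h1 d h2 h)]
  refine (Finset.sum_bij' (fun e _ => jM pt I e)
    (fun M _ => fun z => ∑ c ∈ I, if pt c = z then M c else 0) ?_ ?_ ?_ ?_ ?_).symm
  · intro e he
    rw [mem_piAntidiag] at he ⊢
    obtain ⟨h1, h2⟩ := he
    constructor
    · rw [← h1, hsumS]
      exact Finset.sum_congr rfl fun c hcI => jM_of_mem hcI
    · intro c hcne
      by_contra h
      exact hcne (if_neg h)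
  · intro M hM
    rw [mem_piAntidiag] at hM ⊢
    obtain ⟨h1, h2⟩ := hM
    constructor
    · rw [hsumS, ← h1]
      exact Finset.sum_congr rfl fun c hcI => (hval M c hcI :)
    · intro z hz
      obtain ⟨c, hcI, hne⟩ := Finset.exists_ne_zero_of_sum_ne_zero hz
      have : pt c = z := by
        by_contra h
        exact hne (if_neg h)
      rw [← this]
      exact hc.maps c hcI
  · intro e he
    rw [mem_piAntidiag] at he
    obtain ⟨h1, h2⟩ := he
    funext z
    by_cases hz : z ∈ S
    · obtain ⟨c, hcI, rfl⟩ := hc.surj z hz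
      show ∑ d ∈ I, (if pt d = pt c then jM pt I e d else 0) = e (pt c)
      rw [hval _ c hcI, jM_of_mem hcI]
    · have h3 : e z = 0 := by
        by_contra h
        exact hz (h2 z h)
      show ∑ d ∈ I, (if pt d = z then jM pt I e d else 0) = e z
      rw [h3]
      refine Finset.sum_eq_zero fun d hd => ?_
      rw [if_neg]
      rintro rfl
      exact hz (hc.maps d hd)
  · intro M hM
    rw [mem_piAntidiag] at hM
    funext c
    unfold jM
    by_cases hcI : c ∈ I
    · rw [if_pos hcI]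
      exact hval M c hcI
    · rw [if_neg hcI]
      by_contra h
      exact hcI (hM.2 c (Ne.symm h))
  · intro e he
    rfl

/-- THE EVALUATOR COMPUTES SUMS OVER CONFIGURATIONS. -/
theorem ev_chart (H : Gr P r) (hir : i ≤ r) (hC : Part i C) (hc : Chart i C S pt I) {m : ℕ}
    (hm : m ≤ 2) {p : Prog} (hv : valid p = true) (hd : dsj p = true) {n : ℕ} (hn : n < 32)
    (hf : fits i S pt I p) (hI : (asgs p).toFinset = I) (hI2 : (chks p).Perm (asgs p))
    (hnd : (asgs p).Nodup) :
    ev m p 0 n 0 0 0 = PowerSeries.coeff m (∑ e ∈ S.piAntidiag n,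
      (by classical exact if lbs p (jM pt I e) then tC i C e else 0) : A) := by
  classical
  rw [ev_sum hm hv hd hn, hI, sum_reindex hc n]
  congr 1
  refine Finset.sum_congr rfl fun e he => ?_
  have heS : Spt S e := spt_of_mem he
  have heC : Spt C e := fun x hx => heS x (fun h => hx (hc.sub h))
  have e1 : prodW p (jM pt I e) = tC i C e := by
    rw [prodW_eq hc heS p hf, tC_prod H hir hC heC, prod_restrict H hir hc.sub hc.st_sub hc.up hc.dn heS]
    rw [(hI2.map (fun c => wP i e (pt c))).prod_eq]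
    have e2 : ((asgs p).map (fun c => wP i e (pt c))).prod = ∏ c ∈ (asgs p).toFinset, wP i e (pt c) :=
      (List.prod_toFinset _ hnd).symm
    rw [e2, hI]
    have himg : S = I.image pt := by
      ext x
      rw [mem_image]
      constructor
      · intro hx
        obtain ⟨c, h1, h2⟩ := hc.surj x hx
        exact ⟨c, h1, h2⟩
      · rintro ⟨c, h1, rfl⟩
        exact hc.maps c h1
    rw [himg, Finset.prod_image (fun c h1 d h2 h => hc.inj c h1 d h2 h)]
  rw [e1]

end Pool.Agent.GaussPoset.Win.Ev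

end

/-! From `Pool.Agent.W_448ev_h61.EvG` -/

section

/-!
# Verified evaluator, part G: programs of strips and component rows
-/

namespace Pool.Agent.GaussPoset.Win.Ev

set_option linter.unusedSectionVars false

open Finset

/-- `(r, a)` is an element of the strip -/
def inR (lo hi : List ℕ) (R r a : ℕ) : Bool :=
  Nat.ble (r + 1) R && Nat.ble (lo.getD r 0) a && Nat.ble a (hi.getD r 0)

/-- all checks are the checks of the strip with `R` rows and sites in row `s` -/
def okS (lo hi : List ℕ) (R s : ℕ) : Prog → Bool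
  | Prog.nil => true
  | Prog.asg _ _ _ p => okS lo hi R s p
  | Prog.skp _ _ _ p => okS lo hi R s p
  | Prog.site x dl ul p => Nat.beq (x / 32) s && inR lo hi R (x / 32) (x % 32) &&
      decide (dl = dnN lo hi R (x / 32) (x % 32)) && decide (ul = upN lo hi (x / 32) (x % 32)) &&
      okS lo hi R s p
  | Prog.low x o inn p => Nat.ble (s + 1) (x / 32) && inR lo hi R (x / 32) (x % 32) &&
      decide (o = dnN lo hi R (x / 32) (x % 32)) && decide (inn = upN lo hi (x / 32) (x % 32)) &&
      okS lo hi R s p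
  | Prog.upp x o inn p => Nat.ble (x / 32 + 1) s && inR lo hi R (x / 32) (x % 32) &&
      decide (o = upN lo hi (x / 32) (x % 32)) && decide (inn = dnN lo hi R (x / 32) (x % 32)) &&
      okS lo hi R s p

/-- the program belongs to the strip -/
def okP (lo hi : List ℕ) (R s : ℕ) (p : Prog) : Bool :=
  valid p && dsj p && okS lo hi R s p && decide ((chks p).Perm (asgs p)) &&
  (asgs p).all (fun c => inR lo hi R (c / 32) (c % 32)) &&
  (List.range R).all (fun r => (rowN lo hi r).all (fun a => (asgs p).contains (cd r a))) &&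
  (List.range R).all (fun r => Nat.ble (hi.getD r 0) 30) &&
  decide ((asgs p).Nodup)

lemma inR_iff {lo hi : List ℕ} {R r a : ℕ} :
    inR lo hi R r a = true ↔ r < R ∧ lo.getD r 0 ≤ a ∧ a ≤ hi.getD r 0 := by
  unfold inR
  rw [Bool.and_eq_true, Bool.and_eq_true, Nat.ble_eq, Nat.ble_eq, Nat.ble_eq]
  constructor
  · rintro ⟨⟨h1, h2⟩, h3⟩; exact ⟨h1, h2, h3⟩
  · rintro ⟨h1, h2, h3⟩; exact ⟨⟨h1, h2⟩, h3⟩

lemma cd_div {r a : ℕ} (h : a < 32) : cd r a / 32 = r := by unfold cd; omega
lemma cd_mod {r a : ℕ} (h : a < 32) : cd r a % 32 = a := by unfold cd; omega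

lemma mem_rowN {lo hi : List ℕ} {r a : ℕ} :
    a ∈ rowN lo hi r ↔ lo.getD r 0 ≤ a ∧ a ≤ hi.getD r 0 := by
  unfold rowN
  rw [List.mem_map]
  constructor
  · rintro ⟨k, hk, rfl⟩
    rw [List.mem_range] at hk
    omega
  · rintro ⟨h1, h2⟩
    exact ⟨a - lo.getD r 0, List.mem_range.2 (by omega), by omega⟩

lemma mem_dnN {lo hi : List ℕ} {R r a y : ℕ} :
    y ∈ dnN lo hi R r a ↔ ∃ a', y = cd (r + 1) a' ∧ (a' = a ∨ a' = a + 1) ∧
      inR lo hi R (r + 1) a' = true := by
  unfold dnN
  rcases Nat.lt_or_ge (r + 1) R with h | h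
  · have h1 : Nat.ble R (r + 1) = false := by
      rw [← Bool.not_eq_true, Nat.ble_eq]; omega
    rw [h1, cond_false, List.mem_append]
    constructor
    · rintro (h2 | h2)
      · cases hc : (Nat.ble (lo.getD (r + 1) 0) a && Nat.ble a (hi.getD (r + 1) 0)) with
        | false => rw [hc, cond_false] at h2; exact absurd h2 (by simp)
        | true =>
          rw [hc, cond_true, List.mem_singleton] at h2
          rw [Bool.and_eq_true, Nat.ble_eq, Nat.ble_eq] at hc
          exact ⟨a, h2, Or.inl rfl, inR_iff.2 ⟨h, hc.1, hc.2⟩⟩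
      · cases hc : (Nat.ble (lo.getD (r + 1) 0) (a + 1) && Nat.ble (a + 1) (hi.getD (r + 1) 0)) with
        | false => rw [hc, cond_false] at h2; exact absurd h2 (by simp)
        | true =>
          rw [hc, cond_true, List.mem_singleton] at h2
          rw [Bool.and_eq_true, Nat.ble_eq, Nat.ble_eq] at hc
          exact ⟨a + 1, h2, Or.inr rfl, inR_iff.2 ⟨h, hc.1, hc.2⟩⟩
    · rintro ⟨a', rfl, h2 | h2, h3⟩
      · subst h2
        rw [inR_iff] at h3
        left
        have hc : (Nat.ble (lo.getD (r + 1) 0) a' && Nat.ble a' (hi.getD (r + 1) 0)) = true := by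
          rw [Bool.and_eq_true, Nat.ble_eq, Nat.ble_eq]; exact ⟨h3.2.1, h3.2.2⟩
        rw [hc, cond_true]
        simp
      · subst h2
        rw [inR_iff] at h3
        right
        have hc : (Nat.ble (lo.getD (r + 1) 0) (a + 1) &&
            Nat.ble (a + 1) (hi.getD (r + 1) 0)) = true := by
          rw [Bool.and_eq_true, Nat.ble_eq, Nat.ble_eq]; exact ⟨h3.2.1, h3.2.2⟩
        rw [hc, cond_true]
        simp
  · have h1 : Nat.ble R (r + 1) = true := by rw [Nat.ble_eq]; omega
    rw [h1, cond_true]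
    constructor
    · intro h2; exact absurd h2 (by simp)
    · rintro ⟨a', _, _, h3⟩
      rw [inR_iff] at h3
      omega

lemma mem_upN {lo hi : List ℕ} {r a y : ℕ} :
    y ∈ upN lo hi r a ↔ ∃ r' a', r = r' + 1 ∧ y = cd r' a' ∧ (a' = a ∨ a' + 1 = a) ∧
      lo.getD r' 0 ≤ a' ∧ a' ≤ hi.getD r' 0 := by
  cases r with
  | zero =>
    unfold upN
    constructor
    · intro h; exact absurd h (by simp)
    · rintro ⟨r', a', h, _⟩; omega
  | succ r =>
    unfold upN
    rw [List.mem_append]
    constructor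
    · rintro (h2 | h2)
      · cases hc : (Nat.ble (lo.getD r 0 + 1) a && Nat.ble a (hi.getD r 0 + 1)) with
        | false => rw [hc, cond_false] at h2; exact absurd h2 (by simp)
        | true =>
          rw [hc, cond_true, List.mem_singleton] at h2
          rw [Bool.and_eq_true, Nat.ble_eq, Nat.ble_eq] at hc
          exact ⟨r, a - 1, rfl, h2, Or.inr (by omega), by omega, by omega⟩
      · cases hc : (Nat.ble (lo.getD r 0) a && Nat.ble a (hi.getD r 0)) with
        | false => rw [hc, cond_false] at h2; exact absurd h2 (by simp)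
        | true =>
          rw [hc, cond_true, List.mem_singleton] at h2
          rw [Bool.and_eq_true, Nat.ble_eq, Nat.ble_eq] at hc
          exact ⟨r, a, rfl, h2, Or.inl rfl, hc.1, hc.2⟩
    · rintro ⟨r', a', h1, rfl, h2 | h2, h3, h4⟩
      · obtain rfl : r' = r := by omega
        subst h2
        right
        have hc : (Nat.ble (lo.getD r' 0) a' && Nat.ble a' (hi.getD r' 0)) = true := by
          rw [Bool.and_eq_true, Nat.ble_eq, Nat.ble_eq]; exact ⟨h3, h4⟩
        rw [hc, cond_true]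
        simp
      · obtain rfl : r' = r := by omega
        subst h2
        left
        have hc : (Nat.ble (lo.getD r' 0 + 1) (a' + 1) &&
            Nat.ble (a' + 1) (hi.getD r' 0 + 1)) = true := by
          rw [Bool.and_eq_true, Nat.ble_eq, Nat.ble_eq]; exact ⟨by omega, by omega⟩
        rw [hc, cond_true]
        simp

universe u

variable {P : Type u} [Fintype P] [PartialOrder P] [DecidableEq P] {r i j : ℕ}
variable {C : Finset P} {t : P} {lo hi : ℕ → ℕ} {x : ℕ → ℕ → P}

/-- element of the code `c` -/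
def ptc (x : ℕ → ℕ → P) (base c0 : ℕ) (c : ℕ) : P := x (base + c / 32) (c0 + c % 32)

/-- the rows `los`, `his` are the rows of the component from level `base` on -/
structure Rows (lo hi : ℕ → ℕ) (base c0 R : ℕ) (los his : List ℕ) : Prop where
  lo_eq : ∀ k, k < R → lo (base + k) = c0 + los.getD k 0
  hi_eq : ∀ k, k < R → hi (base + k) = c0 + his.getD k 0

/-- the part of the component in the rows -/
noncomputable def SR (t : P) (base R : ℕ) : Finset P := by
  classical
  exact univ.filter (fun z => z ≤ t ∧ base ≤ lev z ∧ lev z < base + R)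

lemma mem_SR {base R : ℕ} {z : P} : z ∈ SR t base R ↔ z ≤ t ∧ base ≤ lev z ∧ lev z < base + R := by
  classical
  unfold SR
  rw [mem_filter]
  exact ⟨fun h => h.2, fun h => ⟨mem_univ _, h⟩⟩

/-- everything the evaluator needs to know about the component -/
structure Loc (P : Type u) [Fintype P] [PartialOrder P] [DecidableEq P] (r j : ℕ) (t : P)
    (lo hi : ℕ → ℕ) (x : ℕ → ℕ → P) (C : Finset P) (i base c0 R s : ℕ) (los his : List ℕ) : Prop where
  h : GoodTo P r j
  ht : lev t = 0
  hc : Comp P t j lo hi x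
  part : Part i C
  mem : ∀ z, lev z < base + R → (z ∈ C ↔ z ≤ t)
  rows : Rows lo hi base c0 R los his
  hi' : i = base + s
  hs : s < R
  hj : base + R ≤ j + 1

section loc

variable {base c0 R s : ℕ} {los his : List ℕ}

theorem Loc.hir (Lc : Loc P r j t lo hi x C i base c0 R s los his) : i ≤ r := by
  have := Lc.h.hr
  have := Lc.hi'
  have := Lc.hs
  have := Lc.hj
  omega

lemma Loc.pt_spec (Lc : Loc P r j t lo hi x C i base c0 R s los his) {c : ℕ}
    (h : inR los his R (c / 32) (c % 32) = true) :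
    lev (ptc x base c0 c) = base + c / 32 ∧ ptc x base c0 c ≤ t ∧
      lo (base + c / 32) ≤ c0 + c % 32 ∧ c0 + c % 32 ≤ hi (base + c / 32) ∧ c / 32 < R := by
  rw [inR_iff] at h
  obtain ⟨h1, h2, h3⟩ := h
  have e1 := Lc.rows.lo_eq _ h1
  have e2 := Lc.rows.hi_eq _ h1
  have hj := Lc.hj
  have h4 : lo (base + c / 32) ≤ c0 + c % 32 := by omega
  have h5 : c0 + c % 32 ≤ hi (base + c / 32) := by omega
  exact ⟨Lc.hc.lev_x _ (by omega) _ h4 h5, Lc.hc.le_t _ (by omega) _ h4 h5, h4, h5, h1⟩

/-- the chart of a component -/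
theorem Loc.chart (Lc : Loc P r j t lo hi x C i base c0 R s los his) {p : Prog}
    (hok : okP los his R s p = true) :
    Chart i C (SR t base R) (ptc x base c0) (asgs p).toFinset := by
  classical
  unfold okP at hok
  simp only [Bool.and_eq_true] at hok
  obtain ⟨⟨⟨⟨⟨⟨⟨o1, o2⟩, o3⟩, o4⟩, o5⟩, o6⟩, o7⟩, o8⟩ := hok
  have hin : ∀ c ∈ (asgs p).toFinset, inR los his R (c / 32) (c % 32) = true := by
    intro c hc
    exact List.all_eq_true.1 o5 c (List.mem_toFinset.1 hc)
  have hj := Lc.hj
  have hi' := Lc.hi'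
  have hs := Lc.hs
  refine ⟨?_, ?_, ?_, ?_, ?_, ?_, ?_⟩
  · intro z hz
    rw [mem_SR] at hz
    exact (Lc.mem z hz.2.2).2 hz.1
  · intro z hz
    rw [mem_st] at hz
    rw [mem_SR]
    exact ⟨(Lc.mem z (by omega)).1 hz.1, by omega, by omega⟩
  · intro z hz hiz y hy
    rw [mem_SR] at hz ⊢
    have hl := (Lc.h.H.covBy_iff.1 hy).2
    refine ⟨Lc.h.cov_le (by omega) Lc.ht hz.1 hy, by omega, by omega⟩
  · intro z hz hiz y hy
    rw [mem_SR] at hz ⊢
    have hl := (Lc.h.H.covBy_iff.1 hy).2
    exact ⟨hy.le.trans hz.1, by omega, by omega⟩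
  · intro c hc
    obtain ⟨h1, h2, h3, h4, h5⟩ := Lc.pt_spec (hin c hc)
    rw [mem_SR]
    exact ⟨h2, by omega, by omega⟩
  · intro c hc d hd hcd
    obtain ⟨h1, h2, h3, h4, h5⟩ := Lc.pt_spec (hin c hc)
    obtain ⟨g1, g2, g3, g4, g5⟩ := Lc.pt_spec (hin d hd)
    have e1 : c / 32 = d / 32 := by
      rw [hcd] at h1
      omega
    unfold ptc at hcd
    rw [← e1] at g3 g4 hcd
    have := Lc.hc.inj' (by omega) h3 h4 g3 g4 hcd
    omega
  · intro z hz
    rw [mem_SR] at hz
    obtain ⟨a, h1, h2, h3⟩ := Lc.hc.surj (lev z) (by omega) z rfl hz.1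
    have hk : lev z - base < R := by omega
    have e1 := Lc.rows.lo_eq _ hk
    have e2 := Lc.rows.hi_eq _ hk
    have e3 : base + (lev z - base) = lev z := by omega
    rw [e3] at e1 e2
    have h4 : his.getD (lev z - base) 0 ≤ 30 := by
      have := List.all_eq_true.1 o7 _ (List.mem_range.2 hk)
      rwa [Nat.ble_eq] at this
    have h5 : a - c0 < 32 := by omega
    refine ⟨cd (lev z - base) (a - c0), ?_, ?_⟩
    · rw [List.mem_toFinset]
      have h6 := List.all_eq_true.1 o6 _ (List.mem_range.2 hk)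
      exact List.contains_iff_mem.1 (List.all_eq_true.1 h6 _ (mem_rowN.2 ⟨by omega, by omega⟩))
    · unfold ptc
      rw [cd_div h5, cd_mod h5, e3]
      have e4 : c0 + (a - c0) = a := by omega
      rw [e4]
      exact h3

lemma Loc.nbD_dnN (Lc : Loc P r j t lo hi x C i base c0 R s los his) {p : Prog}
    (hok : okP los his R s p = true) {c : ℕ} (hc : inR los his R (c / 32) (c % 32) = true) :
    nbD (SR t base R) (ptc x base c0) (asgs p).toFinset c (dnN los his R (c / 32) (c % 32)) := by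
  classical
  unfold okP at hok
  simp only [Bool.and_eq_true] at hok
  obtain ⟨⟨⟨⟨⟨⟨⟨o1, o2⟩, o3⟩, o4⟩, o5⟩, o6⟩, o7⟩, o8⟩ := hok
  obtain ⟨h1, h2, h3, h4, h5⟩ := Lc.pt_spec hc
  have hj := Lc.hj
  constructor
  · intro y hy
    obtain ⟨a', rfl, ha', hin⟩ := mem_dnN.1 hy
    rw [inR_iff] at hin
    have h6 : his.getD (c / 32 + 1) 0 ≤ 30 := by
      have := List.all_eq_true.1 o7 _ (List.mem_range.2 hin.1)
      rwa [Nat.ble_eq] at this
    have h7 : a' < 32 := by omega
    have e1 := Lc.rows.lo_eq _ hin.1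
    have e2 := Lc.rows.hi_eq _ hin.1
    constructor
    · rw [List.mem_toFinset]
      have h6 := List.all_eq_true.1 o6 _ (List.mem_range.2 hin.1)
      exact List.contains_iff_mem.1 (List.all_eq_true.1 h6 _ (mem_rowN.2 ⟨by omega, by omega⟩))
    · unfold ptc
      rw [cd_div h7, cd_mod h7, ← Nat.add_assoc]
      refine (Lc.hc.cov _ (by omega) _ _ ?_ ?_ h3 h4).2 ?_
      · rw [← Nat.add_assoc] at e1; omega
      · rw [← Nat.add_assoc] at e2; omega
      · omega
  · intro z hz hzc
    rw [mem_SR] at hz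
    have hl := (Lc.h.H.covBy_iff.1 hzc).2
    rw [h1] at hl
    have hk : c / 32 + 1 < R := by omega
    obtain ⟨a, g1, g2, g3⟩ := Lc.hc.surj (lev z) (by omega) z rfl hz.1
    have e0 : lev z = base + c / 32 + 1 := hl
    rw [e0] at g1 g2 g3
    have e1 := Lc.rows.lo_eq _ hk
    have e2 := Lc.rows.hi_eq _ hk
    rw [← Nat.add_assoc] at e1 e2
    rw [← g3] at hzc
    unfold ptc at hzc
    have g4 := (Lc.hc.cov _ (by omega) _ _ g1 g2 h3 h4).1 hzc
    have h6 : his.getD (c / 32 + 1) 0 ≤ 30 := by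
      have := List.all_eq_true.1 o7 _ (List.mem_range.2 hk)
      rwa [Nat.ble_eq] at this
    have h7 : a - c0 < 32 := by omega
    refine ⟨cd (c / 32 + 1) (a - c0), mem_dnN.2 ⟨a - c0, rfl, by omega, inR_iff.2 ⟨hk, by omega, by omega⟩⟩, ?_⟩
    unfold ptc
    rw [cd_div h7, cd_mod h7, ← Nat.add_assoc]
    have e4 : c0 + (a - c0) = a := by omega
    rw [e4]
    exact g3

lemma Loc.nbU_upN (Lc : Loc P r j t lo hi x C i base c0 R s los his) {p : Prog}
    (hok : okP los his R s p = true) {c : ℕ} (hc : inR los his R (c / 32) (c % 32) = true) :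
    nbU (SR t base R) (ptc x base c0) (asgs p).toFinset c (upN los his (c / 32) (c % 32)) := by
  classical
  unfold okP at hok
  simp only [Bool.and_eq_true] at hok
  obtain ⟨⟨⟨⟨⟨⟨⟨o1, o2⟩, o3⟩, o4⟩, o5⟩, o6⟩, o7⟩, o8⟩ := hok
  obtain ⟨h1, h2, h3, h4, h5⟩ := Lc.pt_spec hc
  have hj := Lc.hj
  constructor
  · intro y hy
    obtain ⟨r', a', hr', rfl, ha', hlo, hhi⟩ := mem_upN.1 hy
    have hk : r' < R := by omega
    have h6 : his.getD r' 0 ≤ 30 := by
      have := List.all_eq_true.1 o7 _ (List.mem_range.2 hk)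
      rwa [Nat.ble_eq] at this
    have h7 : a' < 32 := by omega
    have e1 := Lc.rows.lo_eq _ hk
    have e2 := Lc.rows.hi_eq _ hk
    constructor
    · rw [List.mem_toFinset]
      have h6 := List.all_eq_true.1 o6 _ (List.mem_range.2 hk)
      exact List.contains_iff_mem.1 (List.all_eq_true.1 h6 _ (mem_rowN.2 ⟨by omega, by omega⟩))
    · unfold ptc
      rw [cd_div h7, cd_mod h7]
      rw [hr', ← Nat.add_assoc] at h3 h4 ⊢
      refine (Lc.hc.cov _ (by omega) _ _ h3 h4 ?_ ?_).2 ?_
      · omega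
      · omega
      · omega
  · intro z hz hzc
    rw [mem_SR] at hz
    have hl := (Lc.h.H.covBy_iff.1 hzc).2
    rw [h1] at hl
    obtain ⟨r', hr'⟩ : ∃ r', c / 32 = r' + 1 := ⟨c / 32 - 1, by omega⟩
    have hk : r' < R := by omega
    have e0 : lev z = base + r' := by omega
    obtain ⟨a, g1, g2, g3⟩ := Lc.hc.surj (lev z) (by omega) z rfl hz.1
    rw [e0] at g1 g2 g3
    have e1 := Lc.rows.lo_eq _ hk
    have e2 := Lc.rows.hi_eq _ hk
    rw [← g3] at hzc
    unfold ptc at hzc
    rw [hr', ← Nat.add_assoc] at h3 h4 hzc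
    have g4 := (Lc.hc.cov _ (by omega) _ _ h3 h4 g1 g2).1 hzc
    have h6 : his.getD r' 0 ≤ 30 := by
      have := List.all_eq_true.1 o7 _ (List.mem_range.2 hk)
      rwa [Nat.ble_eq] at this
    have h7 : a - c0 < 32 := by omega
    refine ⟨cd r' (a - c0), mem_upN.2 ⟨r', a - c0, hr', rfl, by omega, by omega, by omega⟩, ?_⟩
    unfold ptc
    rw [cd_div h7, cd_mod h7]
    have e4 : c0 + (a - c0) = a := by omega
    rw [e4]
    exact g3

/-- the program fits -/
theorem Loc.fits (Lc : Loc P r j t lo hi x C i base c0 R s los his) {p0 : Prog}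
    (hok : okP los his R s p0 = true) : ∀ p : Prog, okS los his R s p = true →
    (∀ c ∈ chks p, c ∈ asgs p0) → fits i (SR t base R) (ptc x base c0) (asgs p0).toFinset p := by
  classical
  have hi' := Lc.hi'
  intro p
  induction p with
  | nil => intro _ _; trivial
  | asg x' lb caps p ih => intro h1 h2; exact ih h1 h2
  | skp xs k q p _ ih => intro h1 h2; exact ih h1 h2
  | site c dl ul p ih =>
    intro h1 h2
    simp only [okS, Bool.and_eq_true] at h1
    obtain ⟨⟨⟨⟨g1, g2⟩, g3⟩, g4⟩, g5⟩ := h1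
    have h3 := Lc.pt_spec g2
    have h4 := Nat.eq_of_beq_eq_true g1
    refine ⟨⟨List.mem_toFinset.2 (h2 c (by rw [chks]; simp)), by omega, ?_, ?_⟩,
      ih g5 fun d hd => h2 d (by rw [chks]; exact List.mem_cons_of_mem _ hd)⟩
    · rw [of_decide_eq_true g3]; exact Lc.nbD_dnN hok g2
    · rw [of_decide_eq_true g4]; exact Lc.nbU_upN hok g2
  | low c dl ul p ih =>
    intro h1 h2
    simp only [okS, Bool.and_eq_true] at h1
    obtain ⟨⟨⟨⟨g1, g2⟩, g3⟩, g4⟩, g5⟩ := h1
    have h3 := Lc.pt_spec g2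
    have h4 := Nat.le_of_ble_eq_true g1
    refine ⟨⟨List.mem_toFinset.2 (h2 c (by rw [chks]; simp)), by omega, ?_, ?_⟩,
      ih g5 fun d hd => h2 d (by rw [chks]; exact List.mem_cons_of_mem _ hd)⟩
    · rw [of_decide_eq_true g3]; exact Lc.nbD_dnN hok g2
    · rw [of_decide_eq_true g4]; exact Lc.nbU_upN hok g2
  | upp c dl ul p ih =>
    intro h1 h2
    simp only [okS, Bool.and_eq_true] at h1
    obtain ⟨⟨⟨⟨g1, g2⟩, g3⟩, g4⟩, g5⟩ := h1
    have h3 := Lc.pt_spec g2
    have h4 := Nat.le_of_ble_eq_true g1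
    refine ⟨⟨List.mem_toFinset.2 (h2 c (by rw [chks]; simp)), by omega, ?_, ?_⟩,
      ih g5 fun d hd => h2 d (by rw [chks]; exact List.mem_cons_of_mem _ hd)⟩
    · rw [of_decide_eq_true g3]; exact Lc.nbU_upN hok g2
    · rw [of_decide_eq_true g4]; exact Lc.nbD_dnN hok g2

/-- EVALUATION OF A COMPONENT, with lower bounds. -/
theorem Loc.eval_lb (Lc : Loc P r j t lo hi x C i base c0 R s los his) {p : Prog}
    (hok : okP los his R s p = true) {m n : ℕ} (hm : m ≤ 2) (hn : n < 32) :
    ev m p 0 n 0 0 0 = PowerSeries.coeff m (∑ e ∈ (SR t base R).piAntidiag n,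
      (by classical exact if lbs p (jM (ptc x base c0) (asgs p).toFinset e) then tC i C e else 0) : A) := by
  classical
  have hch := Lc.chart hok
  have hok0 := hok
  unfold okP at hok
  simp only [Bool.and_eq_true] at hok
  obtain ⟨⟨⟨⟨⟨⟨⟨o1, o2⟩, o3⟩, o4⟩, o5⟩, o6⟩, o7⟩, o8⟩ := hok
  have hperm : (chks p).Perm (asgs p) := of_decide_eq_true o4
  exact ev_chart Lc.h.H Lc.hir Lc.part hch hm o1 o2 hn
    (Lc.fits hok0 p o3 fun c hc => hperm.subset hc) rfl hperm (of_decide_eq_true o8)

/-- no lower bounds -/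
def lb0 : Prog → Bool
  | Prog.nil => true
  | Prog.asg _ lb _ p => Nat.beq lb 0 && lb0 p
  | Prog.site _ _ _ p => lb0 p
  | Prog.low _ _ _ p => lb0 p
  | Prog.upp _ _ _ p => lb0 p
  | Prog.skp _ _ _ p => lb0 p

lemma lbs_of_lb0 : ∀ (p : Prog) {M : ℕ → ℕ}, lb0 p = true → lbs p M := by
  intro p
  induction p with
  | nil => intro M _; exact trivial
  | asg x lb caps p ih =>
    intro M h
    simp only [lb0, Bool.and_eq_true] at h
    rw [lbs_asg, Nat.eq_of_beq_eq_true h.1]
    exact ⟨Nat.zero_le _, ih h.2⟩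
  | site x dl ul p ih => intro M h; exact ih h
  | low x o inn p ih => intro M h; exact ih h
  | upp x o inn p ih => intro M h; exact ih h
  | skp xs k q p _ ih => intro M h; exact ih h

/-- EVALUATION OF A COMPONENT: the rows reach far enough, or the component ends. -/
theorem Loc.eval (Lc : Loc P r j t lo hi x C i base c0 R s los his) {p : Prog}
    (hok : okP los his R s p = true) (h0 : lb0 p = true) {m n : ℕ} (hm : m ≤ 2) (hn : n < 32)
    (htop : base = 0 ∨ n ≤ s) (hbot : s + n < R ∨ ∀ z ∈ C, lev z < base + R) :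
    PowerSeries.coeff m (ZC i C n : A) = ev m p 0 n 0 0 0 := by
  classical
  rw [Lc.eval_lb hok hm hn]
  congr 1
  unfold ZC
  have hsub : (SR t base R).piAntidiag n ⊆ C.piAntidiag n := by
    intro e he
    rw [mem_piAntidiag] at he ⊢
    have hS : SR t base R ⊆ C := (Lc.chart hok).sub
    refine ⟨?_, fun z hz => hS (he.2 z hz)⟩
    rw [← he.1]
    symm
    refine sum_subset hS fun z _ hz => ?_
    by_contra h
    exact hz (he.2 z h)
  rw [← sum_subset hsub]
  · refine Finset.sum_congr rfl fun e _ => ?_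
    rw [if_pos (lbs_of_lb0 p h0)]
  · intro e he hes
    by_contra hne
    apply hes
    rw [mem_piAntidiag] at he ⊢
    have hsum : ∑ y, e y = n := by
      rw [← he.1]
      symm
      refine sum_subset (subset_univ _) fun z _ hz => ?_
      by_contra h
      exact hz (he.2 z h)
    have hin : ∀ z, e z ≠ 0 → z ∈ SR t base R := by
      intro z hz
      have hzC := he.2 z hz
      have hi' := Lc.hi'
      have h1 : base ≤ lev z := by
        by_contra h
        rcases htop with h2 | h2
        · omega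
        · exact hz (far_zero Lc.h.H Lc.hir hne hsum.le (Or.inr (by omega)))
      have h2 : lev z < base + R := by
        rcases hbot with h3 | h3
        · by_contra h
          exact hz (far_zero Lc.h.H Lc.hir hne hsum.le (Or.inl (by omega)))
        · exact h3 z hzC
      rw [mem_SR]
      exact ⟨(Lc.mem z h2).1 hzC, h1, h2⟩
    refine ⟨?_, hin⟩
    rw [← he.1]
    refine sum_subset (Lc.chart hok).sub fun z _ hz => ?_
    by_contra h
    exact hz (hin z h)

end loc

end Pool.Agent.GaussPoset.Win.Ev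

end

/-! From `Pool.Agent.W_448nl_h15.NvA` -/

section

/-!
# MP_448cb3_co: splitting a long evaluation along the first two labels
-/

namespace Pool.Agent.GaussPoset.Win.Ev

set_option maxRecDepth 100000

/-- the values of the pieces `k ∈ [u, w)` of a split evaluation, with labels given before -/
noncomputable def pcv (m : ℕ) (q : Prog) (v x b u : ℕ) (c : List ℤ) : Bool :=
  (List.range c.length).all fun k =>
    decide (ev m q (v + (u + k) * 32 ^ x) (b - (u + k)) 0 0 0 = c.getD k 0)

lemma pcv_get {m : ℕ} {q : Prog} {v x b u : ℕ} {c : List ℤ} (h : pcv m q v x b u c = true) {k : ℕ}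
    (hk : k < c.length) :
    ev m q (v + (u + k) * 32 ^ x) (b - (u + k)) 0 0 0 = c.getD k 0 := by
  unfold pcv at h
  rw [List.all_eq_true] at h
  exact of_decide_eq_true (h k (List.mem_range.2 hk))

theorem E7_8_okb : okP [0, 0, 0, 0, 0, 0, 1, 2, 2, 3, 3, 3, 4, 5, 5, 5, 5] [0, 0, 0, 0, 1, 1, 2, 3, 4, 4, 4, 4, 5, 5, 5, 5, 5] 17 8
    (mk [0, 0, 0, 0, 0, 0, 1, 2, 2, 3, 3, 3, 4, 5, 5, 5, 5]
    [0, 0, 0, 0, 1, 1, 2, 3, 4, 4, 4, 4, 5, 5, 5, 5, 5] 17 8) = true ∧ lb0 (mk [0, 0, 0, 0, 0, 0, 1, 2, 2, 3, 3, 3, 4, 5, 5, 5, 5]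
    [0, 0, 0, 0, 1, 1, 2, 3, 4, 4, 4, 4, 5, 5, 5, 5, 5] 17 8) = true := by
  constructor <;> decide +kernel

theorem E7_8_hd : hd0 258 (mk [0, 0, 0, 0, 0, 0, 1, 2, 2, 3, 3, 3, 4, 5, 5, 5, 5]
    [0, 0, 0, 0, 1, 1, 2, 3, 4, 4, 4, 4, 5, 5, 5, 5, 5] 17 8) = true := by decide +kernel

theorem E7_8_hd2 : hd0 291 (tl (mk [0, 0, 0, 0, 0, 0, 1, 2, 2, 3, 3, 3, 4, 5, 5, 5, 5]
    [0, 0, 0, 0, 1, 1, 2, 3, 4, 4, 4, 4, 5, 5, 5, 5, 5] 17 8)) = true := by decide +kernel

end Pool.Agent.GaussPoset.Win.Ev

end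

/-! From `Pool.Agent.W_448nl_h15.NvB` -/

section

/-!
# MP_448cb3_co: pieces of long evaluations from smaller pieces
-/

namespace Pool.Agent.GaussPoset.Win.Ev

set_option linter.unusedSectionVars false

lemma sum_getD_B (c : List ℤ) : ∑ k ∈ Finset.range c.length, c.getD k 0 = c.sum := by
  induction c with
  | nil => simp
  | cons a c ih =>
    rw [List.length_cons, Finset.sum_range_succ', List.sum_cons]
    simp only [List.getD_cons_succ, List.getD_cons_zero]
    rw [ih, add_comm]

/-- concatenation of the lists of values -/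
lemma pcv_app {m v x b u w : ℕ} {q : Prog} {c c' : List ℤ} (h : pcv m q v x b u c = true)
    (hw : w = u + c.length) (h' : pcv m q v x b w c' = true) :
    pcv m q v x b u (c ++ c') = true := by
  subst hw
  unfold pcv
  rw [List.all_eq_true]
  intro k hk
  rw [List.mem_range, List.length_append] at hk
  rw [decide_eq_true_eq]
  rcases Nat.lt_or_ge k c.length with h1 | h1
  · rw [pcv_get h h1, List.getD_append _ _ _ _ h1]
  · have h2 := pcv_get h' (k := k - c.length) (by omega)
    rw [show u + c.length + (k - c.length) = u + k by omega] at h2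
    rw [h2, List.getD_append_right _ _ _ _ h1]

/-- the same without given labels -/
lemma pcs_of {m x b u : ℕ} {q : Prog} {c : List ℤ} (h : pcv m q 0 x b u c = true) :
    pcs m q x b u c = true := by
  unfold pcs
  rw [List.all_eq_true]
  intro k hk
  rw [List.mem_range] at hk
  rw [decide_eq_true_eq]
  have h1 := pcv_get h hk
  rwa [Nat.zero_add] at h1

/-- one value from the values of the next label -/
lemma pcv_one {m v x y b u : ℕ} {p : Prog} (h : hd0 y p = true) {c : List ℤ}
    (hc : c.length = b - u + 1) (hp : pcv m (tl p) (v + u * 32 ^ x) y (b - u) 0 c = true) {s : ℤ}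
    (hs : c.sum = s) : pcv m p v x b u [s] = true := by
  unfold pcv
  rw [List.all_eq_true]
  intro k hk
  rw [List.mem_range, List.length_singleton] at hk
  obtain rfl : k = 0 := by omega
  rw [decide_eq_true_eq, Nat.add_zero, ev_split h, ← hc, List.getD_cons_zero, ← hs, ← sum_getD_B]
  refine Finset.sum_congr rfl fun k hk => ?_
  rw [Finset.mem_range] at hk
  have h1 := pcv_get hp hk
  rwa [Nat.zero_add] at h1

set_option maxRecDepth 100000 in
theorem E7_8_hd3 : hd0 226 (tl (tl (mk [0, 0, 0, 0, 0, 0, 1, 2, 2, 3, 3, 3, 4, 5, 5, 5, 5]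
    [0, 0, 0, 0, 1, 1, 2, 3, 4, 4, 4, 4, 5, 5, 5, 5, 5] 17 8))) = true := by decide +kernel

end Pool.Agent.GaussPoset.Win.Ev

end

/-! From `Pool.Agent.W_448ev_h61.EvH` -/

section

/-!
# Verified evaluator, part H: sums with labels `≥ 1` on a set of the last row
-/

namespace Pool.Agent.GaussPoset.Win.Ev

set_option linter.unusedSectionVars false

open Finset

/-- bottom row and everything above it, down from the sites (`n` rows) -/
def coneN (lo hi : List ℕ) (s : ℕ) : ℕ → List ℕ → List ℕ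
  | 0, _ => []
  | n + 1, l => l ++ coneN lo hi s n
      ((l.flatMap (fun y => upN lo hi (y / 32) (y % 32))).filter (fun y => Nat.ble (s + 1) (y / 32)))

/-- lower bound -/
def lbf (K : List ℕ) (x : ℕ) : ℕ := bif K.contains x then 1 else 0

/-- lower part from row `r` (assigned) to row `r + n`, then `q`; no jumps -/
def lowX (lo hi : List ℕ) (R : ℕ) (K : List ℕ) (q : Prog) : ℕ → ℕ → Prog
  | r, 0 => chkL lo hi R r q
  | r, n + 1 =>
    (rowN lo hi (r + 1)).foldr (fun a p => Prog.asg (cd (r + 1) a) (lbf K (cd (r + 1) a))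
      ((upN lo hi (r + 1) a).map (fun y => (y, upN lo hi (y / 32) (y % 32)))) p)
      (chkL lo hi R r (lowX lo hi R K q (r + 1) n))

/-- near part with lower bounds -/
def nearX (lo hi : List ℕ) (R s : ℕ) (K : List ℕ) (q : Prog) : List ℕ → List ℕ → Prog
  | _, [] => q
  | done, a :: t =>
    let nb := (dnN lo hi R s a ++ upN lo hi s a).filter (fun y => !(done.contains y))
    Prog.asg (cd s a) 0 [] (nb.foldr (fun y p => Prog.asg y (lbf K y) [] p)
      (Prog.site (cd s a) (dnN lo hi R s a) (upN lo hi s a) (nearX lo hi R s K q (nb ++ done) t)))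

/-- program with lower bound 1 on the elements above `X` (codes of the last row) -/
def mkX (lo hi : List ℕ) (R s : ℕ) (X : List ℕ) : Prog :=
  let K := coneN lo hi s (R - 1 - s) X
  nearX lo hi R s K (lowX lo hi R K (uppP lo hi R Prog.nil (s - 1)) (s + 1) (R - s - 2)) []
    (rowN lo hi s)

/-- elements with lower bound 1 -/
def lbL : Prog → List ℕ
  | Prog.nil => []
  | Prog.asg x lb _ p => bif Nat.beq lb 0 then lbL p else x :: lbL p
  | Prog.site _ _ _ p => lbL p
  | Prog.low _ _ _ p => lbL p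
  | Prog.upp _ _ _ p => lbL p
  | Prog.skp _ _ _ p => lbL p

/-- all lower bounds are at most 1 -/
def lb1 : Prog → Bool
  | Prog.nil => true
  | Prog.asg _ lb _ p => Nat.ble lb 1 && lb1 p
  | Prog.site _ _ _ p => lb1 p
  | Prog.low _ _ _ p => lb1 p
  | Prog.upp _ _ _ p => lb1 p
  | Prog.skp _ _ _ p => lb1 p

lemma lbs_iff : ∀ (p : Prog) {M : ℕ → ℕ}, lb1 p = true → (lbs p M ↔ ∀ c ∈ lbL p, 1 ≤ M c) := by
  intro p
  induction p with
  | nil => intro M _; exact ⟨fun _ c hc => absurd hc (by simp [lbL]), fun _ => trivial⟩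
  | asg x lb caps p ih =>
    intro M h
    simp only [lb1, Bool.and_eq_true] at h
    have hle := Nat.le_of_ble_eq_true h.1
    rw [lbs_asg, ih h.2, lbL]
    cases hb : Nat.beq lb 0 with
    | true =>
      have := Nat.eq_of_beq_eq_true hb
      rw [cond_true, this]
      exact ⟨fun h => h.2, fun h => ⟨Nat.zero_le _, h⟩⟩
    | false =>
      have h1 := Nat.ne_of_beq_eq_false hb
      have h2 : lb = 1 := by omega
      rw [cond_false, h2]
      constructor
      · rintro ⟨h3, h4⟩ c hc
        rcases List.mem_cons.1 hc with rfl | h5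
        · exact h3
        · exact h4 c h5
      · intro h3
        exact ⟨h3 x (by simp), fun c hc => h3 c (List.mem_cons_of_mem _ hc)⟩
  | site x dl ul p ih => intro M h; exact ih h
  | low x o inn p ih => intro M h; exact ih h
  | upp x o inn p ih => intro M h; exact ih h
  | skp xs k q p _ ih => intro M h; exact ih h

/-- the check for one set `X` and all energies `< N` -/
noncomputable def okX (lo hi : List ℕ) (R s m N : ℕ) (X : List ℕ) : Bool :=
  okP lo hi R s (mkX lo hi R s X) && lb1 (mkX lo hi R s X) &&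
  (lbL (mkX lo hi R s X)).all (fun c => (coneN lo hi s (R - 1 - s) X).contains c) &&
  X.all (fun c => (lbL (mkX lo hi R s X)).contains c) &&
  (List.range N).all (fun n => decide (ev m (mkX lo hi R s X) 0 n 0 0 0 = 0))

/-- the check for all nonempty sets `X` of the last row and all energies `< N` -/
noncomputable def okXs (lo hi : List ℕ) (R s m N : ℕ) : Bool :=
  (((rowN lo hi (R - 1)).map (cd (R - 1))).sublists).all
    (fun X => X.isEmpty || okX lo hi R s m N X)

universe u

variable {P : Type u} [Fintype P] [PartialOrder P] [DecidableEq P] {r i j : ℕ}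
variable {C : Finset P} {t : P} {lo hi : ℕ → ℕ} {x : ℕ → ℕ → P}

section loc

variable {base c0 R s : ℕ} {los his : List ℕ}

/-- the levels of `C` down to the last row -/
noncomputable def DR (C : Finset P) (J : ℕ) : Finset P := by
  classical
  exact C.filter (fun z => lev z ≤ J)

lemma mem_DR {J : ℕ} {z : P} : z ∈ DR C J ↔ z ∈ C ∧ lev z ≤ J := by
  classical
  unfold DR
  rw [mem_filter]

/-- restriction of a sum to the rows -/
theorem Loc.sum_rows (Lc : Loc P r j t lo hi x C i base c0 R s los his) {n : ℕ} {D : Finset P}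
    (hDC : D ⊆ C) (hSD : SR t base R ⊆ D) (htop : base = 0 ∨ n ≤ s)
    (hbot : s + n < R ∨ ∀ z ∈ D, lev z < base + R) (Q : (P → ℕ) → Prop) :
    (∑ e ∈ D.piAntidiag n, (by classical exact if Q e then tC i C e else 0) : A) =
      ∑ e ∈ (SR t base R).piAntidiag n, (by classical exact if Q e then tC i C e else 0) := by
  classical
  have hsub : (SR t base R).piAntidiag n ⊆ D.piAntidiag n := by
    intro e he
    rw [mem_piAntidiag] at he ⊢
    refine ⟨?_, fun z hz => hSD (he.2 z hz)⟩
    rw [← he.1]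
    symm
    refine sum_subset hSD fun z _ hz => ?_
    by_contra h
    exact hz (he.2 z h)
  symm
  refine sum_subset hsub ?_
  intro e he hes
  split_ifs with hQ
  · by_contra hne
    apply hes
    rw [mem_piAntidiag] at he ⊢
    have hsum : ∑ y, e y = n := by
      rw [← he.1]
      symm
      refine sum_subset (subset_univ _) fun z _ hz => ?_
      by_contra h
      exact hz (he.2 z h)
    have hin : ∀ z, e z ≠ 0 → z ∈ SR t base R := by
      intro z hz
      have hzD := he.2 z hz
      have hi' := Lc.hi'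
      have h1 : base ≤ lev z := by
        by_contra h
        rcases htop with h2 | h2
        · omega
        · exact hz (far_zero Lc.h.H Lc.hir hne hsum.le (Or.inr (by omega)))
      have h2 : lev z < base + R := by
        rcases hbot with h3 | h3
        · by_contra h
          exact hz (far_zero Lc.h.H Lc.hir hne hsum.le (Or.inl (by omega)))
        · exact h3 z hzD
      rw [mem_SR]
      exact ⟨(Lc.mem z h2).1 (hDC hzD), h1, h2⟩
    refine ⟨?_, hin⟩
    rw [← he.1]
    refine sum_subset hSD fun z _ hz => ?_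
    by_contra h
    exact hz (hin z h)
  · rfl

lemma Loc.SR_sub_DR (Lc : Loc P r j t lo hi x C i base c0 R s los his) {J : ℕ}
    (hJ : base + R ≤ J + 1) : SR t base R ⊆ DR C J := by
  intro z hz
  rw [mem_SR] at hz
  rw [mem_DR]
  exact ⟨(Lc.mem z hz.2.2).2 hz.1, by omega⟩

/-- EVALUATION OF THE CUT COMPONENT. -/
theorem Loc.eval_cut (Lc : Loc P r j t lo hi x C i base c0 R s los his) {p : Prog}
    (hok : okP los his R s p = true) (h0 : lb0 p = true) {m n J : ℕ} (hm : m ≤ 2) (hn : n < 32)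
    (htop : base = 0 ∨ n ≤ s) (hJ : base + R = J + 1) :
    PowerSeries.coeff m (∑ e ∈ (DR C J).piAntidiag n, tC i C e : A) = ev m p 0 n 0 0 0 := by
  classical
  rw [Lc.eval_lb hok hm hn]
  congr 1
  have h1 := Lc.sum_rows (D := DR C J) (n := n) (fun z hz => (mem_DR.1 hz).1)
    (Lc.SR_sub_DR hJ.le) htop (Or.inr (fun z hz => by have := (mem_DR.1 hz).2; omega)) (fun _ => True)
  simp only [if_true] at h1
  rw [h1]
  refine Finset.sum_congr rfl fun e _ => ?_
  rw [if_pos (lbs_of_lb0 p h0)]

/-- elements of the cone are above an element of the list, and below the sites -/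
lemma Loc.cone_spec (Lc : Loc P r j t lo hi x C i base c0 R s los his) {p : Prog}
    (hok : okP los his R s p = true) : ∀ (n : ℕ) (l : List ℕ),
    (∀ c ∈ l, inR los his R (c / 32) (c % 32) = true ∧ s < c / 32) →
    ∀ c ∈ coneN los his s n l, inR los his R (c / 32) (c % 32) = true ∧ s < c / 32 ∧
      ∃ d ∈ l, ptc x base c0 d ≤ ptc x base c0 c := by
  classical
  intro n
  induction n with
  | zero => intro l _ c hc; exact absurd hc (by simp [coneN])
  | succ n ih =>
    intro l hl c hc
    rw [coneN, List.mem_append] at hc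
    rcases hc with hc | hc
    · exact ⟨(hl c hc).1, (hl c hc).2, c, hc, le_rfl⟩
    · have hl' : ∀ c ∈ (l.flatMap (fun y => upN los his (y / 32) (y % 32))).filter
          (fun y => Nat.ble (s + 1) (y / 32)),
          inR los his R (c / 32) (c % 32) = true ∧ s < c / 32 ∧
            ∃ d ∈ l, ptc x base c0 d ≤ ptc x base c0 c := by
        intro y hy
        rw [List.mem_filter, List.mem_flatMap] at hy
        obtain ⟨⟨d, hd, hy1⟩, hy2⟩ := hy
        have h1 := (Lc.nbU_upN hok (hl d hd).1).1 y hy1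
        have h2 : inR los his R (y / 32) (y % 32) = true := by
          have h3 := h1.1
          rw [List.mem_toFinset] at h3
          unfold okP at hok
          simp only [Bool.and_eq_true] at hok
          obtain ⟨⟨⟨⟨⟨⟨⟨o1, o2⟩, o3⟩, o4⟩, o5⟩, o6⟩, o7⟩, o8⟩ := hok
          exact List.all_eq_true.1 o5 y h3
        rw [Nat.ble_eq] at hy2
        exact ⟨h2, by omega, d, hd, h1.2.le⟩
      obtain ⟨h1, h2, d, hd, h3⟩ := ih _ (fun y hy => ⟨(hl' y hy).1, (hl' y hy).2.1⟩) c hc
      obtain ⟨_, _, d', hd', h4⟩ := hl' d hd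
      exact ⟨h1, h2, d', hd', h4.trans h3⟩

/-- ZERO SUMS: the sum over all configurations with labels `≥ 1` on a nonempty set `X` of the last
row has no coefficient of `dd ^ m`. -/
theorem Loc.zeroX (Lc : Loc P r j t lo hi x C i base c0 R s los his) {m N J : ℕ} (hm : m ≤ 2)
    (hN : N ≤ 32) (htop : base = 0 ∨ N ≤ s + 1) (hJ : base + R = J + 1) (hsR : s + 1 < R)
    (hok : okXs los his R s m N = true) {X : Finset P} (hX : ∀ z ∈ X, z ∈ C ∧ lev z = J)
    (hne : X.Nonempty) {n : ℕ} (hn : n < N) :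
    PowerSeries.coeff m (∑ e ∈ (DR C J).piAntidiag n,
      (by classical exact if ∀ z ∈ X, 1 ≤ e z then tC i C e else 0) : A) = 0 := by
  classical
  set row : List ℕ := (rowN los his (R - 1)).map (cd (R - 1)) with hrow
  set l : List ℕ := row.filter (fun c => decide (ptc x base c0 c ∈ X)) with hl
  have hlX : okX los his R s m N l = true := by
    unfold okXs at hok
    have h1 := List.all_eq_true.1 hok l (List.mem_sublists.2 List.filter_sublist)
    rw [Bool.or_eq_true] at h1
    rcases h1 with h1 | h1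
    · exfalso
      obtain ⟨z, hz⟩ := hne
      obtain ⟨hzC, hzJ⟩ := hX z hz
      have hzt : z ≤ t := (Lc.mem z (by omega)).1 hzC
      obtain ⟨a, g1, g2, g3⟩ := Lc.hc.surj (lev z) (by have := Lc.hj; omega) z rfl hzt
      have e0 : lev z = base + (R - 1) := by omega
      rw [e0] at g1 g2 g3
      have e1 := Lc.rows.lo_eq (R - 1) (by omega)
      have e2 := Lc.rows.hi_eq (R - 1) (by omega)
      -- bound on the columns: from any valid program; use the whole row
      have hb : his.getD (R - 1) 0 ≤ 30 := by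
        have h2 := List.all_eq_true.1 hok row (List.mem_sublists.2 (List.Sublist.refl _))
        rw [Bool.or_eq_true] at h2
        rcases h2 with h2 | h2
        · rw [List.isEmpty_iff] at h2
          exfalso
          have : a - c0 ∈ rowN los his (R - 1) := mem_rowN.2 ⟨by omega, by omega⟩
          have h3 : cd (R - 1) (a - c0) ∈ row := List.mem_map.2 ⟨_, this, rfl⟩
          rw [h2] at h3
          exact absurd h3 (by simp)
        · unfold okX okP at h2
          simp only [Bool.and_eq_true] at h2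
          have h3 := h2.1.1.1.1.1.2
          have := List.all_eq_true.1 h3 _ (List.mem_range.2 (show R - 1 < R by omega))
          rwa [Nat.ble_eq] at this
      have h7 : a - c0 < 32 := by omega
      have hmem : cd (R - 1) (a - c0) ∈ l := by
        rw [hl, List.mem_filter]
        refine ⟨List.mem_map.2 ⟨_, mem_rowN.2 ⟨by omega, by omega⟩, rfl⟩, ?_⟩
        rw [decide_eq_true_eq]
        unfold ptc
        rw [cd_div h7, cd_mod h7]
        have e4 : c0 + (a - c0) = a := by omega
        rw [e4, g3]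
        exact hz
      rw [List.isEmpty_iff] at h1
      rw [h1] at hmem
      exact absurd hmem (by simp)
    · exact h1
  unfold okX at hlX
  simp only [Bool.and_eq_true] at hlX
  obtain ⟨⟨⟨⟨k1, k2⟩, k3⟩, k4⟩, k5⟩ := hlX
  have hev := of_decide_eq_true (List.all_eq_true.1 k5 n (List.mem_range.2 hn))
  have hmain := Lc.eval_lb k1 hm (n := n) (by omega)
  rw [hev] at hmain
  have hsum := Lc.sum_rows (D := DR C J) (n := n) (fun z hz => (mem_DR.1 hz).1)
    (Lc.SR_sub_DR hJ.le) (by rcases htop with h | h; exact Or.inl h; exact Or.inr (by omega))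
    (Or.inr (fun z hz => by have := (mem_DR.1 hz).2; omega)) (fun e => ∀ z ∈ X, 1 ≤ e z)
  have hsum' : (∑ e ∈ (DR C J).piAntidiag n, (if ∀ z ∈ X, 1 ≤ e z then tC i C e else 0) : A) =
      ∑ e ∈ (SR t base R).piAntidiag n, (if ∀ z ∈ X, 1 ≤ e z then tC i C e else 0) := by
    convert hsum
  rw [hsum', hmain]
  congr 1
  refine Finset.sum_congr rfl fun e he => ?_
  -- facts about the codes of `l`
  have k1' := k1
  unfold okP at k1'
  simp only [Bool.and_eq_true] at k1'
  obtain ⟨⟨⟨⟨⟨⟨⟨o1, o2⟩, o3⟩, o4⟩, o5⟩, o6⟩, o7⟩, o8⟩ := k1'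
  have hcol : his.getD (R - 1) 0 ≤ 30 := by
    have := List.all_eq_true.1 o7 _ (List.mem_range.2 (show R - 1 < R by omega))
    rwa [Nat.ble_eq] at this
  have hlin : ∀ c ∈ l, inR los his R (c / 32) (c % 32) = true ∧ s < c / 32 ∧ c / 32 = R - 1 := by
    intro c hc
    rw [hl, List.mem_filter] at hc
    obtain ⟨a, ha, rfl⟩ := List.mem_map.1 hc.1
    rw [mem_rowN] at ha
    rw [cd_div (by omega), cd_mod (by omega)]
    exact ⟨inR_iff.2 ⟨by omega, ha.1, ha.2⟩, by omega, rfl⟩
  have hcone := Lc.cone_spec k1 (R - 1 - s) l (fun c hc => ⟨(hlin c hc).1, (hlin c hc).2.1⟩)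
  have hXl : ∀ z ∈ X, ∃ c ∈ l, ptc x base c0 c = z := by
    intro z hz
    obtain ⟨hzC, hzJ⟩ := hX z hz
    have hzt : z ≤ t := (Lc.mem z (by omega)).1 hzC
    obtain ⟨a, g1, g2, g3⟩ := Lc.hc.surj (lev z) (by have := Lc.hj; omega) z rfl hzt
    have e0 : lev z = base + (R - 1) := by omega
    rw [e0] at g1 g2 g3
    have e1 := Lc.rows.lo_eq (R - 1) (by omega)
    have e2 := Lc.rows.hi_eq (R - 1) (by omega)
    have h7 : a - c0 < 32 := by omega
    have hpt : ptc x base c0 (cd (R - 1) (a - c0)) = z := by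
      unfold ptc
      rw [cd_div h7, cd_mod h7]
      have e4 : c0 + (a - c0) = a := by omega
      rw [e4, g3]
    refine ⟨cd (R - 1) (a - c0), ?_, hpt⟩
    rw [hl, List.mem_filter]
    refine ⟨List.mem_map.2 ⟨_, mem_rowN.2 ⟨by omega, by omega⟩, rfl⟩, ?_⟩
    rw [decide_eq_true_eq, hpt]
    exact hz
  have hlsub : ∀ c ∈ lbL (mkX los his R s l), c ∈ (asgs (mkX los his R s l)).toFinset ∧
      c ∈ coneN los his s (R - 1 - s) l := by
    intro c hc
    have h1 : c ∈ coneN los his s (R - 1 - s) l := List.contains_iff_mem.1 (List.all_eq_true.1 k3 c hc)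
    refine ⟨?_, h1⟩
    have : ∀ p : Prog, ∀ c ∈ lbL p, c ∈ asgs p := by
      intro p
      induction p with
      | nil => intro c hc; exact absurd hc (by simp [lbL])
      | asg x' lb caps p ih =>
        intro c hc
        rw [lbL] at hc
        rw [asgs]
        cases hb : Nat.beq lb 0 with
        | true => rw [hb, cond_true] at hc; exact List.mem_cons_of_mem _ (ih c hc)
        | false =>
          rw [hb, cond_false] at hc
          rcases List.mem_cons.1 hc with h | h
          · rw [h]; simp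
          · exact List.mem_cons_of_mem _ (ih c h)
      | site _ _ _ p ih => intro c hc; exact ih c hc
      | low _ _ _ p ih => intro c hc; exact ih c hc
      | upp _ _ _ p ih => intro c hc; exact ih c hc
      | skp _ _ _ p _ ih => intro c hc; exact ih c hc
    exact List.mem_toFinset.2 (this _ c hc)
  by_cases hT : tC i C e = 0
  · rw [hT, ite_self, ite_self]
  · have hA := (adm_of_tC hT).1
    have hiff : (∀ z ∈ X, 1 ≤ e z) ↔
        lbs (mkX los his R s l) (jM (ptc x base c0) (asgs (mkX los his R s l)).toFinset e) := by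
      rw [lbs_iff _ k2]
      constructor
      · intro h c hc
        obtain ⟨h1, h2⟩ := hlsub c hc
        rw [jM_of_mem h1]
        obtain ⟨h3, h4, d, hd, h5⟩ := hcone c h2
        have hdX : ptc x base c0 d ∈ X := by
          rw [hl, List.mem_filter] at hd
          exact of_decide_eq_true hd.2
        have h6 := (Lc.pt_spec h3).1
        have hi' := Lc.hi'
        exact pos_above Lc.h.H hA (by omega) _ h5 (h _ hdX)
      · intro h z hz
        obtain ⟨c, hc, rfl⟩ := hXl z hz
        have h1 : c ∈ lbL (mkX los his R s l) :=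
          List.contains_iff_mem.1 (List.all_eq_true.1 k4 c hc)
        have h2 := h c h1
        rw [jM_of_mem (hlsub c h1).1] at h2
        exact h2
    by_cases h : ∀ z ∈ X, 1 ≤ e z
    · rw [if_pos h, if_pos (hiff.1 h)]
    · rw [if_neg h, if_neg (fun h' => h (hiff.2 h'))]

end loc

end Pool.Agent.GaussPoset.Win.Ev

end

/-! From `Pool.Agent.W_448ev_h61.EvK` -/

section

/-! First order values: decidable check, and the words of the laws `fa` and `bad`. -/

namespace Pool.Agent.GaussPoset.Win.Ev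

/-- check for one value: `m` free sites at most, energy `E`, rows `0 .. R-1`, window row `s` -/
noncomputable def goodE (los his : List ℕ) (R s m E : ℕ) (v : ℤ) : Bool :=
  okP los his R s (mk los his R s) && lb0 (mk los his R s) &&
  decide (ev m (mk los his R s) 0 E 0 0 0 = v)

/-- check for the second order at the energies `2 ρ - 1`, `2 ρ` (`R = s + ρ + 1` rows): both values
vanish and the last row is not seen below the energy `2 ρ` -/
noncomputable def goodB (los his : List ℕ) (R s N : ℕ) : Bool :=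
  okP los his R s (mk los his R s) && lb0 (mk los his R s) &&
  decide (ev 1 (mk los his R s) 0 (N - 1) 0 0 0 = 0) &&
  decide (ev 1 (mk los his R s) 0 N 0 0 0 = 0) && okXs los his R s 1 N

end Pool.Agent.GaussPoset.Win.Ev

end

/-! From `Pool.Agent.W_448bf_h61.BA` -/

section

/-!
# Verified evaluator for up-sets of strips (MP_448cb3_co, S7, window 4, block BF)
-/

namespace Pool.Agent.GaussPoset.Win.Ev

set_option linter.unusedSectionVars false

open Finset

universe u

variable {P : Type u} [Fintype P] [PartialOrder P] [DecidableEq P] {r i j : ℕ}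
variable {C : Finset P} {t : P} {lo hi : ℕ → ℕ} {e : ℕ → ℕ → P}

/-- a part `C` of the strip with the rows `los`, `his` from level `base` on; the window is
`base + s` -/
structure LocS (P : Type u) [Fintype P] [PartialOrder P] [DecidableEq P] (r j : ℕ) (t : P)
    (lo hi : ℕ → ℕ) (e : ℕ → ℕ → P) (C : Finset P) (i base R s : ℕ) (los his : List ℕ) :
    Prop where
  H : Gr P r
  hc : Cp.Comp j t lo hi e
  part : Part i C
  sub : ∀ z ∈ C, z ≤ t ∧ lev z < base + R
  row : ∀ k, k < R → lo (base + k) ≤ los.getD k 0 ∧ his.getD k 0 ≤ hi (base + k)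
  mem : ∀ k a, k < R → lo (base + k) ≤ a → a ≤ hi (base + k) →
    (e (base + k) a ∈ C ↔ los.getD k 0 ≤ a ∧ a ≤ his.getD k 0)
  hi' : i = base + s
  hs : s < R
  hj : base + R ≤ j + 1

section loc

variable {base R s : ℕ} {los his : List ℕ}

theorem LocS.hir (Lc : LocS P r j t lo hi e C i base R s los his) : i ≤ r := by
  have h1 := Lc.hi'
  have h2 := Lc.hs
  have h3 := Lc.hj
  have h4 := Lc.hc.lev_e i (lo i) (by omega) le_rfl (Lc.hc.lo_le i (by omega))
  have h5 := Lc.H.hr (e i (lo i))
  omega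

/-- the part in the rows -/
noncomputable def SC' (C : Finset P) (base : ℕ) : Finset P := by
  classical
  exact C.filter (fun z => base ≤ lev z)

lemma mem_SC' {base : ℕ} {z : P} : z ∈ SC' C base ↔ z ∈ C ∧ base ≤ lev z := by
  classical
  unfold SC'
  rw [mem_filter]

/-- the element of a code -/
def pte (e : ℕ → ℕ → P) (base : ℕ) (c : ℕ) : P := e (base + c / 32) (c % 32)

lemma LocS.pt_spec (Lc : LocS P r j t lo hi e C i base R s los his) {c : ℕ}
    (h : inR los his R (c / 32) (c % 32) = true) :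
    lev (pte e base c) = base + c / 32 ∧ pte e base c ∈ C ∧
      lo (base + c / 32) ≤ c % 32 ∧ c % 32 ≤ hi (base + c / 32) ∧ c / 32 < R := by
  rw [inR_iff] at h
  obtain ⟨h1, h2, h3⟩ := h
  have e1 := Lc.row _ h1
  have hj := Lc.hj
  have h4 : lo (base + c / 32) ≤ c % 32 := by omega
  have h5 : c % 32 ≤ hi (base + c / 32) := by omega
  exact ⟨Lc.hc.lev_e _ _ (by omega) h4 h5, (Lc.mem _ _ h1 h4 h5).2 ⟨h2, h3⟩, h4, h5, h1⟩

/-- the code of an element -/
lemma LocS.code (Lc : LocS P r j t lo hi e C i base R s los his) {z : P} (hz : z ∈ C)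
    (hb : base ≤ lev z) : ∃ a, lo (lev z) ≤ a ∧ a ≤ hi (lev z) ∧ e (lev z) a = z ∧
      los.getD (lev z - base) 0 ≤ a ∧ a ≤ his.getD (lev z - base) 0 ∧ lev z - base < R := by
  obtain ⟨h1, h2⟩ := Lc.sub z hz
  have hj := Lc.hj
  obtain ⟨a, h3, h4, h5⟩ := Lc.hc.surj z h1 (by omega)
  have e3 : base + (lev z - base) = lev z := by omega
  have h6 := Lc.mem (lev z - base) a (by omega) (by rw [e3]; exact h3) (by rw [e3]; exact h4)
  rw [e3, h5] at h6
  have h7 := h6.1 hz
  exact ⟨a, h3, h4, h5, h7.1, h7.2, by omega⟩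

/-- the chart -/
theorem LocS.chart (Lc : LocS P r j t lo hi e C i base R s los his) {p : Prog}
    (hok : okP los his R s p = true) :
    Chart i C (SC' C base) (pte e base) (asgs p).toFinset := by
  classical
  unfold okP at hok
  simp only [Bool.and_eq_true] at hok
  obtain ⟨⟨⟨⟨⟨⟨⟨o1, o2⟩, o3⟩, o4⟩, o5⟩, o6⟩, o7⟩, o8⟩ := hok
  have hin : ∀ c ∈ (asgs p).toFinset, inR los his R (c / 32) (c % 32) = true := by
    intro c hc
    exact List.all_eq_true.1 o5 c (List.mem_toFinset.1 hc)
  have hj := Lc.hj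
  have hi' := Lc.hi'
  have hs := Lc.hs
  refine ⟨?_, ?_, ?_, ?_, ?_, ?_, ?_⟩
  · intro z hz
    exact (mem_SC'.1 hz).1
  · intro z hz
    rw [mem_st] at hz
    rw [mem_SC']
    exact ⟨hz.1, by omega⟩
  · intro z hz hiz y hy
    rw [mem_SC'] at hz ⊢
    have hl := (Lc.H.covBy_iff.1 hy).2
    exact ⟨Lc.part.up hz.1 hy, by omega⟩
  · intro z hz hiz y hy
    rw [mem_SC'] at hz ⊢
    have hl := (Lc.H.covBy_iff.1 hy).2
    exact ⟨Lc.part.dn hz.1 hiz hy, by omega⟩
  · intro c hc
    obtain ⟨h1, h2, h3, h4, h5⟩ := Lc.pt_spec (hin c hc)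
    rw [mem_SC']
    exact ⟨h2, by omega⟩
  · intro c hc d hd hcd
    obtain ⟨h1, h2, h3, h4, h5⟩ := Lc.pt_spec (hin c hc)
    obtain ⟨g1, g2, g3, g4, g5⟩ := Lc.pt_spec (hin d hd)
    have e1 : c / 32 = d / 32 := by
      rw [hcd] at h1
      omega
    unfold pte at hcd
    rw [← e1] at g3 g4 hcd
    have := Lc.hc.inj _ _ _ (by omega) h3 h4 g3 g4 hcd
    omega
  · intro z hz
    rw [mem_SC'] at hz
    obtain ⟨a, h1, h2, h3, h4, h5, hk⟩ := Lc.code hz.1 hz.2
    have e3 : base + (lev z - base) = lev z := by omega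
    have h6 : his.getD (lev z - base) 0 ≤ 30 := by
      have := List.all_eq_true.1 o7 _ (List.mem_range.2 hk)
      rwa [Nat.ble_eq] at this
    have h7 : a < 32 := by omega
    refine ⟨cd (lev z - base) a, ?_, ?_⟩
    · rw [List.mem_toFinset]
      have h6 := List.all_eq_true.1 o6 _ (List.mem_range.2 hk)
      exact List.contains_iff_mem.1 (List.all_eq_true.1 h6 _ (mem_rowN.2 ⟨by omega, by omega⟩))
    · unfold pte
      rw [cd_div h7, cd_mod h7, e3]
      exact h3

lemma LocS.nbD_dnN (Lc : LocS P r j t lo hi e C i base R s los his) {p : Prog}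
    (hok : okP los his R s p = true) {c : ℕ} (hc : inR los his R (c / 32) (c % 32) = true) :
    nbD (SC' C base) (pte e base) (asgs p).toFinset c (dnN los his R (c / 32) (c % 32)) := by
  classical
  unfold okP at hok
  simp only [Bool.and_eq_true] at hok
  obtain ⟨⟨⟨⟨⟨⟨⟨o1, o2⟩, o3⟩, o4⟩, o5⟩, o6⟩, o7⟩, o8⟩ := hok
  obtain ⟨h1, h2, h3, h4, h5⟩ := Lc.pt_spec hc
  have hj := Lc.hj
  constructor
  · intro y hy
    obtain ⟨a', rfl, ha', hin⟩ := mem_dnN.1 hy
    rw [inR_iff] at hin
    have h6 : his.getD (c / 32 + 1) 0 ≤ 30 := by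
      have := List.all_eq_true.1 o7 _ (List.mem_range.2 hin.1)
      rwa [Nat.ble_eq] at this
    have h7 : a' < 32 := by omega
    have e1 := Lc.row _ hin.1
    constructor
    · rw [List.mem_toFinset]
      have h6 := List.all_eq_true.1 o6 _ (List.mem_range.2 hin.1)
      exact List.contains_iff_mem.1 (List.all_eq_true.1 h6 _ (mem_rowN.2 ⟨by omega, by omega⟩))
    · unfold pte
      rw [cd_div h7, cd_mod h7, ← Nat.add_assoc]
      refine (Lc.hc.cov _ _ _ (by omega) ?_ ?_ h3 h4).2 ?_
      · rw [← Nat.add_assoc] at e1; omega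
      · rw [← Nat.add_assoc] at e1; omega
      · omega
  · intro z hz hzc
    rw [mem_SC'] at hz
    have hl := (Lc.H.covBy_iff.1 hzc).2
    rw [h1] at hl
    obtain ⟨a, g1, g2, g3, g4, g5, g6⟩ := Lc.code hz.1 hz.2
    have e0 : lev z = base + c / 32 + 1 := hl
    have e0' : lev z - base = c / 32 + 1 := by omega
    rw [e0'] at g4 g5 g6
    rw [e0] at g1 g2 g3
    rw [← g3] at hzc
    unfold pte at hzc
    have g7 := (Lc.hc.cov _ _ _ (by omega) g1 g2 h3 h4).1 hzc
    have h6 : his.getD (c / 32 + 1) 0 ≤ 30 := by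
      have := List.all_eq_true.1 o7 _ (List.mem_range.2 g6)
      rwa [Nat.ble_eq] at this
    have h7 : a < 32 := by omega
    refine ⟨cd (c / 32 + 1) a, mem_dnN.2 ⟨a, rfl, by omega,
      inR_iff.2 ⟨g6, by omega, by omega⟩⟩, ?_⟩
    unfold pte
    rw [cd_div h7, cd_mod h7, ← Nat.add_assoc]
    exact g3

lemma LocS.nbU_upN (Lc : LocS P r j t lo hi e C i base R s los his) {p : Prog}
    (hok : okP los his R s p = true) {c : ℕ} (hc : inR los his R (c / 32) (c % 32) = true) :
    nbU (SC' C base) (pte e base) (asgs p).toFinset c (upN los his (c / 32) (c % 32)) := by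
  classical
  unfold okP at hok
  simp only [Bool.and_eq_true] at hok
  obtain ⟨⟨⟨⟨⟨⟨⟨o1, o2⟩, o3⟩, o4⟩, o5⟩, o6⟩, o7⟩, o8⟩ := hok
  obtain ⟨h1, h2, h3, h4, h5⟩ := Lc.pt_spec hc
  have hj := Lc.hj
  constructor
  · intro y hy
    obtain ⟨r', a', hr', rfl, ha', hlo, hhi⟩ := mem_upN.1 hy
    have hk : r' < R := by omega
    have h6 : his.getD r' 0 ≤ 30 := by
      have := List.all_eq_true.1 o7 _ (List.mem_range.2 hk)
      rwa [Nat.ble_eq] at this
    have h7 : a' < 32 := by omega
    have e1 := Lc.row _ hk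
    constructor
    · rw [List.mem_toFinset]
      have h6 := List.all_eq_true.1 o6 _ (List.mem_range.2 hk)
      exact List.contains_iff_mem.1 (List.all_eq_true.1 h6 _ (mem_rowN.2 ⟨by omega, by omega⟩))
    · unfold pte
      rw [cd_div h7, cd_mod h7]
      rw [hr', ← Nat.add_assoc] at h3 h4 ⊢
      refine (Lc.hc.cov _ _ _ (by omega) h3 h4 ?_ ?_).2 ?_
      · omega
      · omega
      · omega
  · intro z hz hzc
    rw [mem_SC'] at hz
    have hl := (Lc.H.covBy_iff.1 hzc).2
    rw [h1] at hl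
    obtain ⟨r', hr'⟩ : ∃ r', c / 32 = r' + 1 := ⟨c / 32 - 1, by omega⟩
    have hk : r' < R := by omega
    have e0 : lev z = base + r' := by omega
    have e0' : lev z - base = r' := by omega
    obtain ⟨a, g1, g2, g3, g4, g5, g6⟩ := Lc.code hz.1 hz.2
    rw [e0'] at g4 g5 g6
    rw [e0] at g1 g2 g3
    rw [← g3] at hzc
    unfold pte at hzc
    rw [hr', ← Nat.add_assoc] at h3 h4 hzc
    have g7 := (Lc.hc.cov _ _ _ (by omega) h3 h4 g1 g2).1 hzc
    have h6 : his.getD r' 0 ≤ 30 := by
      have := List.all_eq_true.1 o7 _ (List.mem_range.2 hk)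
      rwa [Nat.ble_eq] at this
    have h7 : a < 32 := by omega
    refine ⟨cd r' a, mem_upN.2 ⟨r', a, hr', rfl, by omega, by omega, by omega⟩, ?_⟩
    unfold pte
    rw [cd_div h7, cd_mod h7]
    exact g3

/-- the program fits -/
theorem LocS.fits (Lc : LocS P r j t lo hi e C i base R s los his) {p0 : Prog}
    (hok : okP los his R s p0 = true) : ∀ p : Prog, okS los his R s p = true →
    (∀ c ∈ chks p, c ∈ asgs p0) → fits i (SC' C base) (pte e base) (asgs p0).toFinset p := by
  classical
  have hi' := Lc.hi'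
  intro p
  induction p with
  | nil => intro _ _; trivial
  | asg x' lb caps p ih => intro h1 h2; exact ih h1 h2
  | skp xs k q p _ ih => intro h1 h2; exact ih h1 h2
  | site c dl ul p ih =>
    intro h1 h2
    simp only [okS, Bool.and_eq_true] at h1
    obtain ⟨⟨⟨⟨g1, g2⟩, g3⟩, g4⟩, g5⟩ := h1
    have h3 := Lc.pt_spec g2
    have h4 := Nat.eq_of_beq_eq_true g1
    refine ⟨⟨List.mem_toFinset.2 (h2 c (by rw [chks]; simp)), by omega, ?_, ?_⟩,
      ih g5 fun d hd => h2 d (by rw [chks]; exact List.mem_cons_of_mem _ hd)⟩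
    · rw [of_decide_eq_true g3]; exact Lc.nbD_dnN hok g2
    · rw [of_decide_eq_true g4]; exact Lc.nbU_upN hok g2
  | low c dl ul p ih =>
    intro h1 h2
    simp only [okS, Bool.and_eq_true] at h1
    obtain ⟨⟨⟨⟨g1, g2⟩, g3⟩, g4⟩, g5⟩ := h1
    have h3 := Lc.pt_spec g2
    have h4 := Nat.le_of_ble_eq_true g1
    refine ⟨⟨List.mem_toFinset.2 (h2 c (by rw [chks]; simp)), by omega, ?_, ?_⟩,
      ih g5 fun d hd => h2 d (by rw [chks]; exact List.mem_cons_of_mem _ hd)⟩
    · rw [of_decide_eq_true g3]; exact Lc.nbD_dnN hok g2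
    · rw [of_decide_eq_true g4]; exact Lc.nbU_upN hok g2
  | upp c dl ul p ih =>
    intro h1 h2
    simp only [okS, Bool.and_eq_true] at h1
    obtain ⟨⟨⟨⟨g1, g2⟩, g3⟩, g4⟩, g5⟩ := h1
    have h3 := Lc.pt_spec g2
    have h4 := Nat.le_of_ble_eq_true g1
    refine ⟨⟨List.mem_toFinset.2 (h2 c (by rw [chks]; simp)), by omega, ?_, ?_⟩,
      ih g5 fun d hd => h2 d (by rw [chks]; exact List.mem_cons_of_mem _ hd)⟩
    · rw [of_decide_eq_true g3]; exact Lc.nbU_upN hok g2
    · rw [of_decide_eq_true g4]; exact Lc.nbD_dnN hok g2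

/-- EVALUATION OF AN UP-SET OF A STRIP -/
theorem LocS.eval (Lc : LocS P r j t lo hi e C i base R s los his) {p : Prog}
    (hok : okP los his R s p = true) (h0 : lb0 p = true) {m n : ℕ} (hm : m ≤ 2) (hn : n < 32)
    (htop : base = 0 ∨ n ≤ s) :
    PowerSeries.coeff m (ZC i C n : A) = ev m p 0 n 0 0 0 := by
  classical
  have hch := Lc.chart hok
  have hok0 := hok
  unfold okP at hok
  simp only [Bool.and_eq_true] at hok
  obtain ⟨⟨⟨⟨⟨⟨⟨o1, o2⟩, o3⟩, o4⟩, o5⟩, o6⟩, o7⟩, o8⟩ := hok
  have hperm : (chks p).Perm (asgs p) := of_decide_eq_true o4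
  rw [ev_chart Lc.H Lc.hir Lc.part hch hm o1 o2 hn
    (Lc.fits hok0 p o3 fun c hc => hperm.subset hc) rfl hperm (of_decide_eq_true o8)]
  congr 1
  unfold ZC
  have hSC : SC' C base ⊆ C := fun z hz => (mem_SC'.1 hz).1
  have hsub : (SC' C base).piAntidiag n ⊆ C.piAntidiag n := by
    intro f hf
    rw [mem_piAntidiag] at hf ⊢
    refine ⟨?_, fun z hz => hSC (hf.2 z hz)⟩
    rw [← hf.1]
    symm
    refine sum_subset hSC fun z _ hz => ?_
    by_contra h
    exact hz (hf.2 z h)
  rw [← sum_subset hsub]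
  · refine Finset.sum_congr rfl fun f _ => ?_
    rw [if_pos (lbs_of_lb0 p h0)]
  · intro f hf hfs
    by_contra hne
    apply hfs
    rw [mem_piAntidiag] at hf ⊢
    have hsum : ∑ y, f y = n := by
      rw [← hf.1]
      symm
      refine sum_subset (subset_univ _) fun z _ hz => ?_
      by_contra h
      exact hz (hf.2 z h)
    have hin : ∀ z, f z ≠ 0 → z ∈ SC' C base := by
      intro z hz
      have hzC := hf.2 z hz
      have hi' := Lc.hi'
      rw [mem_SC']
      refine ⟨hzC, ?_⟩
      by_contra h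
      rcases htop with h2 | h2
      · omega
      · exact hz (far_zero Lc.H Lc.hir hne hsum.le (Or.inr (by omega)))
    refine ⟨?_, hin⟩
    rw [← hf.1]
    refine sum_subset hSC fun z _ hz => ?_
    by_contra h
    exact hz (hin z h)

/-- order two from the two lowest coefficients -/
theorem LocS.dvd (Lc : LocS P r j t lo hi e C i base R s los his) {p : Prog}
    (hok : okP los his R s p = true) (h0 : lb0 p = true) {n : ℕ} (hn : n < 32)
    (htop : base = 0 ∨ n ≤ s) (v0 : ev 0 p 0 n 0 0 0 = 0) (v1 : ev 1 p 0 n 0 0 0 = 0) :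
    dd ^ 2 ∣ ZC i C n := by
  unfold dd
  rw [PowerSeries.X_pow_dvd_iff]
  intro m hm
  have h1 := Lc.eval hok h0 (m := m) (by omega) hn htop
  have : m = 0 ∨ m = 1 := by omega
  rcases this with rfl | rfl
  · exact h1.trans v0
  · exact h1.trans v1

end loc

end Pool.Agent.GaussPoset.Win.Ev

end

/-! From `Pool.Agent.W_448so_h63.FB` -/

section

/-!
S9 with Z2 (MP_448cb3_co, case B): algebra of the profiles `(3,1), (5,2), (6,2)` with nonzero `(5,2)`.
-/

set_option autoImplicit false

namespace Pool.Agent.GaussPoset.Win.So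

set_option linter.unusedSectionVars false

open Finset I2

/-- number of deficits allowed at the energy `n` -/
def dk (n : ℕ) : ℕ := if n < 3 then 0 else if n < 5 then 1 else 2

/-- profile of a window series: one deficit from energy three on, two from energy five on -/
def P6 (b : ℕ) (V : PowerSeries A) : Prop :=
  ∀ n, n ≤ 6 → dd ^ b ∣ dd ^ dk n * PowerSeries.coeff n V

/-- the leading coefficient at the energy `n` -/
noncomputable def cf (n b : ℕ) (V : PowerSeries A) : ℤ :=
  PowerSeries.coeff b (dd ^ dk n * PowerSeries.coeff n V : A)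

lemma cf_zero (b : ℕ) (V : PowerSeries A) : cf 0 b V = eps b V := by
  unfold cf eps dk
  simp

lemma cf_three (b : ℕ) (V : PowerSeries A) : cf 3 b V = al 3 b V := by
  unfold cf al dk
  simp

lemma cf_five (b : ℕ) (V : PowerSeries A) : cf 5 b V = be 5 b V := by
  unfold cf be dk
  simp

lemma cf_six (b : ℕ) (V : PowerSeries A) : cf 6 b V = be 6 b V := by
  unfold cf be dk
  simp

lemma cf_one (b : ℕ) (V : PowerSeries A) :
    cf 1 b V = PowerSeries.coeff b (PowerSeries.coeff 1 V : A) := by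
  unfold cf dk
  simp

lemma dk_add {i j : ℕ} (h : i + j ≤ 6) : dk i + dk j ≤ dk (i + j) := by
  unfold dk
  split_ifs <;> omega

theorem P6.mul {b b' : ℕ} {V V' : PowerSeries A} (h : P6 b V) (h' : P6 b' V') :
    P6 (b + b') (V * V') := by
  intro n hn
  rw [PowerSeries.coeff_mul, Finset.mul_sum]
  refine Finset.dvd_sum ?_
  rintro ⟨i, j⟩ hij
  rw [Finset.HasAntidiagonal.mem_antidiagonal] at hij
  simp only at hij ⊢
  subst hij
  have h1 := dk_add hn
  have h2 : dd ^ dk (i + j) * (PowerSeries.coeff i V * PowerSeries.coeff j V') =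
      dd ^ (dk (i + j) - (dk i + dk j)) *
        ((dd ^ dk i * PowerSeries.coeff i V) * (dd ^ dk j * PowerSeries.coeff j V')) := by
    have h3 : (dd : A) ^ dk (i + j) = dd ^ (dk (i + j) - (dk i + dk j)) * (dd ^ dk i * dd ^ dk j) := by
      rw [← pow_add, ← pow_add]
      congr 1
      omega
    rw [h3]
    ring
  rw [h2, pow_add]
  exact dvd_mul_of_dvd_right (mul_dvd_mul (h i (by omega)) (h' j (by omega))) _

theorem cf_mul {b b' : ℕ} {V V' : PowerSeries A} (h : P6 b V) (h' : P6 b' V') {n : ℕ}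
    (hn : n ≤ 6) : cf n (b + b') (V * V') =
      ∑ p ∈ Finset.HasAntidiagonal.antidiagonal n,
        if dk p.1 + dk p.2 = dk n then cf p.1 b V * cf p.2 b' V' else 0 := by
  unfold cf
  rw [PowerSeries.coeff_mul n V V', Finset.mul_sum, map_sum]
  refine Finset.sum_congr rfl ?_
  rintro ⟨i, j⟩ hij
  rw [Finset.HasAntidiagonal.mem_antidiagonal] at hij
  simp only at hij ⊢
  subst hij
  have h1 := dk_add hn
  have h2 : dd ^ dk (i + j) * (PowerSeries.coeff i V * PowerSeries.coeff j V') =
      dd ^ (dk (i + j) - (dk i + dk j)) *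
        ((dd ^ dk i * PowerSeries.coeff i V) * (dd ^ dk j * PowerSeries.coeff j V')) := by
    have h3 : (dd : A) ^ dk (i + j) = dd ^ (dk (i + j) - (dk i + dk j)) * (dd ^ dk i * dd ^ dk j) := by
      rw [← pow_add, ← pow_add]
      congr 1
      omega
    rw [h3]
    ring
  have h4 := h i (by omega)
  have h5 := h' j (by omega)
  rw [h2]
  by_cases h6 : dk i + dk j = dk (i + j)
  · rw [if_pos h6, h6, Nat.sub_self, pow_zero, one_mul]
    exact coeff_mul_of_dvd h4 h5
  · rw [if_neg h6]
    apply coeff_eq_zero_of_dvd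
    rw [pow_succ', pow_add]
    refine mul_dvd_mul ?_ (mul_dvd_mul h4 h5)
    exact dvd_pow_self _ (by omega)

lemma anti_list (f : ℕ × ℕ → ℤ) :
    (∑ p ∈ Finset.HasAntidiagonal.antidiagonal 6, f p =
      f (0, 6) + f (1, 5) + f (2, 4) + f (3, 3) + f (4, 2) + f (5, 1) + f (6, 0)) ∧
    (∑ p ∈ Finset.HasAntidiagonal.antidiagonal 5, f p =
      f (0, 5) + f (1, 4) + f (2, 3) + f (3, 2) + f (4, 1) + f (5, 0)) ∧
    (∑ p ∈ Finset.HasAntidiagonal.antidiagonal 3, f p =
      f (0, 3) + f (1, 2) + f (2, 1) + f (3, 0)) ∧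
    (∑ p ∈ Finset.HasAntidiagonal.antidiagonal 1, f p = f (0, 1) + f (1, 0)) ∧
    (∑ p ∈ Finset.HasAntidiagonal.antidiagonal 0, f p = f (0, 0)) := by
  simp only [Finset.Nat.sum_antidiagonal_eq_sum_range_succ_mk, Finset.sum_range_succ,
    Finset.sum_range_zero]
  norm_num

section mul

variable {b b' : ℕ} {V V' : PowerSeries A} (h : P6 b V) (h' : P6 b' V')
include h h'

lemma cf0_mul : cf 0 (b + b') (V * V') = cf 0 b V * cf 0 b' V' := by
  rw [cf_mul h h' (by omega), (anti_list _).2.2.2.2]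
  simp [dk]

lemma cf1_mul : cf 1 (b + b') (V * V') = cf 0 b V * cf 1 b' V' + cf 1 b V * cf 0 b' V' := by
  rw [cf_mul h h' (by omega), (anti_list _).2.2.2.1]
  simp [dk]

lemma cf3_mul : cf 3 (b + b') (V * V') = cf 0 b V * cf 3 b' V' + cf 3 b V * cf 0 b' V' := by
  rw [cf_mul h h' (by omega), (anti_list _).2.2.1]
  simp [dk]

lemma cf5_mul : cf 5 (b + b') (V * V') = cf 0 b V * cf 5 b' V' + cf 5 b V * cf 0 b' V' := by
  rw [cf_mul h h' (by omega), (anti_list _).2.1]
  simp [dk]

lemma cf6_mul : cf 6 (b + b') (V * V') = cf 0 b V * cf 6 b' V' + cf 1 b V * cf 5 b' V' +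
    cf 3 b V * cf 3 b' V' + cf 5 b V * cf 1 b' V' + cf 6 b V * cf 0 b' V' := by
  rw [cf_mul h h' (by omega), (anti_list _).1]
  simp [dk]

end mul

/-- the second power sum at the energy six, normalised by the unit -/
noncomputable def Q6 (b : ℕ) (V : PowerSeries A) : ℤ :=
  cf 3 b V ^ 2 - 2 * cf 6 b V + 2 * (cf 1 b V * cf 5 b V)

lemma P6_one : P6 0 (1 : PowerSeries A) := by
  intro n hn
  rw [pow_zero]
  exact one_dvd _

/-- the product over the components -/
theorem prod_six {ι : Type*} (s : Finset ι) (b : ι → ℕ) (V : ι → PowerSeries A)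
    (h : ∀ c ∈ s, P6 (b c) (V c)) (h1 : ∀ c ∈ s, cf 0 (b c) (V c) = 1) :
    P6 (∑ c ∈ s, b c) (∏ c ∈ s, V c) ∧ cf 0 (∑ c ∈ s, b c) (∏ c ∈ s, V c) = 1 ∧
    cf 1 (∑ c ∈ s, b c) (∏ c ∈ s, V c) = ∑ c ∈ s, cf 1 (b c) (V c) ∧
    cf 3 (∑ c ∈ s, b c) (∏ c ∈ s, V c) = ∑ c ∈ s, cf 3 (b c) (V c) ∧
    cf 5 (∑ c ∈ s, b c) (∏ c ∈ s, V c) = ∑ c ∈ s, cf 5 (b c) (V c) ∧
    Q6 (∑ c ∈ s, b c) (∏ c ∈ s, V c) = ∑ c ∈ s, Q6 (b c) (V c) := by
  classical
  induction s using Finset.induction_on with
  | empty =>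
    simp only [Finset.sum_empty, Finset.prod_empty]
    refine ⟨P6_one, ?_, ?_, ?_, ?_, ?_⟩
    · simp [cf, dk]
    · simp [cf, dk, PowerSeries.coeff_one]
    · simp [cf, dk, PowerSeries.coeff_one]
    · simp [cf, dk, PowerSeries.coeff_one]
    · simp [Q6, cf, dk, PowerSeries.coeff_one]
  | insert a s ha ih =>
    obtain ⟨i1, i2, i3, i4, i5, i6⟩ := ih (fun c hc => h c (Finset.mem_insert_of_mem hc))
      (fun c hc => h1 c (Finset.mem_insert_of_mem hc))
    have ha1 := h a (Finset.mem_insert_self a s)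
    have ha2 := h1 a (Finset.mem_insert_self a s)
    simp only [Finset.sum_insert ha, Finset.prod_insert ha]
    rw [← i3, ← i4, ← i5, ← i6]
    refine ⟨ha1.mul i1, ?_, ?_, ?_, ?_, ?_⟩
    · rw [cf0_mul ha1 i1, ha2, i2, one_mul]
    · rw [cf1_mul ha1 i1, ha2, i2]; ring
    · rw [cf3_mul ha1 i1, ha2, i2]; ring
    · rw [cf5_mul ha1 i1, ha2, i2]; ring
    · unfold Q6
      rw [cf3_mul ha1 i1, cf6_mul ha1 i1, cf5_mul ha1 i1, cf1_mul ha1 i1, ha2, i2]
      ring

end Pool.Agent.GaussPoset.Win.So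

end

/-! From `Pool.Agent.W_448t8_h97.TA` -/

section

/-!
Window `j - 1` (MP_448cb3_co, case B): algebra of the profiles up to the energy ten, orders
`0,0,0,1,1,2,2,2,3,3,4`; the totals (8,3) and (10,4).
-/

set_option autoImplicit false

namespace Pool.Agent.GaussPoset.Win.T8

set_option linter.unusedSectionVars false

open Finset I2 So

/-- number of deficits allowed at the energy `n` -/
def kk (n : ℕ) : ℕ :=
  if n < 3 then 0 else if n < 5 then 1 else if n < 8 then 2 else if n < 10 then 3 else 4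

/-- profile of a window series up to the energy ten -/
def P10 (b : ℕ) (V : PowerSeries A) : Prop :=
  ∀ n, n ≤ 10 → dd ^ b ∣ dd ^ kk n * PowerSeries.coeff n V

/-- the leading coefficient at the energy `n` -/
noncomputable def cg (n b : ℕ) (V : PowerSeries A) : ℤ :=
  PowerSeries.coeff b (dd ^ kk n * PowerSeries.coeff n V : A)

lemma kk_eq {n : ℕ} (hn : n ≤ 7) : kk n = dk n := by
  unfold kk dk
  split_ifs <;> omega

lemma cg_cf {n : ℕ} (hn : n ≤ 7) (b : ℕ) (V : PowerSeries A) : cg n b V = cf n b V := by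
  unfold cg cf
  rw [kk_eq hn]

lemma P10.p6 {b : ℕ} {V : PowerSeries A} (h : P10 b V) : P6 b V := by
  intro n hn
  rw [← kk_eq (by omega)]
  exact h n (by omega)

lemma kk_add {i j : ℕ} (h : i + j ≤ 10) : kk i + kk j ≤ kk (i + j) := by
  unfold kk
  split_ifs <;> omega

lemma pow_split {i j : ℕ} (h : i + j ≤ 10) (F G : A) :
    dd ^ kk (i + j) * (F * G) =
      dd ^ (kk (i + j) - (kk i + kk j)) * ((dd ^ kk i * F) * (dd ^ kk j * G)) := by
  have h1 := kk_add h
  have h3 : (dd : A) ^ kk (i + j) = dd ^ (kk (i + j) - (kk i + kk j)) * (dd ^ kk i * dd ^ kk j) := by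
    rw [← pow_add, ← pow_add]
    congr 1
    omega
  rw [h3]
  ring

theorem P10.mul {b b' : ℕ} {V V' : PowerSeries A} (h : P10 b V) (h' : P10 b' V') :
    P10 (b + b') (V * V') := by
  intro n hn
  rw [PowerSeries.coeff_mul, Finset.mul_sum]
  refine Finset.dvd_sum ?_
  rintro ⟨i, j⟩ hij
  rw [Finset.HasAntidiagonal.mem_antidiagonal] at hij
  simp only at hij ⊢
  subst hij
  rw [pow_split hn, pow_add]
  exact dvd_mul_of_dvd_right (mul_dvd_mul (h i (by omega)) (h' j (by omega))) _

theorem cg_mul {b b' : ℕ} {V V' : PowerSeries A} (h : P10 b V) (h' : P10 b' V') {n : ℕ}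
    (hn : n ≤ 10) : cg n (b + b') (V * V') =
      ∑ p ∈ Finset.HasAntidiagonal.antidiagonal n,
        if kk p.1 + kk p.2 = kk n then cg p.1 b V * cg p.2 b' V' else 0 := by
  unfold cg
  rw [PowerSeries.coeff_mul n V V', Finset.mul_sum, map_sum]
  refine Finset.sum_congr rfl ?_
  rintro ⟨i, j⟩ hij
  rw [Finset.HasAntidiagonal.mem_antidiagonal] at hij
  simp only at hij ⊢
  subst hij
  have h1 := kk_add hn
  have h4 := h i (by omega)
  have h5 := h' j (by omega)
  rw [pow_split hn]
  by_cases h6 : kk i + kk j = kk (i + j)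
  · rw [if_pos h6, h6, Nat.sub_self, pow_zero, one_mul]
    exact coeff_mul_of_dvd h4 h5
  · rw [if_neg h6]
    apply coeff_eq_zero_of_dvd
    rw [pow_succ', pow_add]
    refine mul_dvd_mul ?_ (mul_dvd_mul h4 h5)
    exact dvd_pow_self _ (by omega)

section mul

variable {b b' : ℕ} {V V' : PowerSeries A} (h : P10 b V) (h' : P10 b' V')
include h h'

lemma cg0_mul : cg 0 (b + b') (V * V') = cg 0 b V * cg 0 b' V' := by
  rw [cg_cf (by omega), cg_cf (by omega), cg_cf (by omega), cf0_mul h.p6 h'.p6]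

lemma cg3_mul : cg 3 (b + b') (V * V') = cg 0 b V * cg 3 b' V' + cg 3 b V * cg 0 b' V' := by
  simp only [cg_cf (show (0 : ℕ) ≤ 7 by omega), cg_cf (show (3 : ℕ) ≤ 7 by omega)]
  exact cf3_mul h.p6 h'.p6

lemma cg5_mul : cg 5 (b + b') (V * V') = cg 0 b V * cg 5 b' V' + cg 5 b V * cg 0 b' V' := by
  simp only [cg_cf (show (0 : ℕ) ≤ 7 by omega), cg_cf (show (5 : ℕ) ≤ 7 by omega)]
  exact cf5_mul h.p6 h'.p6

lemma cg8_mul : cg 8 (b + b') (V * V') = cg 0 b V * cg 8 b' V' + cg 3 b V * cg 5 b' V' +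
    cg 5 b V * cg 3 b' V' + cg 8 b V * cg 0 b' V' := by
  rw [cg_mul h h' (by omega)]
  simp [Finset.Nat.sum_antidiagonal_eq_sum_range_succ_mk, Finset.sum_range_succ, kk]

lemma cg10_mul : cg 10 (b + b') (V * V') = cg 0 b V * cg 10 b' V' + cg 5 b V * cg 5 b' V' +
    cg 10 b V * cg 0 b' V' := by
  rw [cg_mul h h' (by omega)]
  simp [Finset.Nat.sum_antidiagonal_eq_sum_range_succ_mk, Finset.sum_range_succ, kk]

end mul

/-- the mixed power sum at the energy eight -/
noncomputable def Q8 (b : ℕ) (V : PowerSeries A) : ℤ := cg 3 b V * cg 5 b V - cg 8 b V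

/-- the second power sum at the energy ten -/
noncomputable def Q10 (b : ℕ) (V : PowerSeries A) : ℤ := cg 5 b V ^ 2 - 2 * cg 10 b V

lemma P10_one : P10 0 (1 : PowerSeries A) := by
  intro n hn
  rw [pow_zero]
  exact one_dvd _

/-- the product over the components -/
theorem prod_ten {ι : Type*} (s : Finset ι) (b : ι → ℕ) (V : ι → PowerSeries A)
    (h : ∀ c ∈ s, P10 (b c) (V c)) (h1 : ∀ c ∈ s, cg 0 (b c) (V c) = 1) :
    P10 (∑ c ∈ s, b c) (∏ c ∈ s, V c) ∧ cg 0 (∑ c ∈ s, b c) (∏ c ∈ s, V c) = 1 ∧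
    cg 3 (∑ c ∈ s, b c) (∏ c ∈ s, V c) = ∑ c ∈ s, cg 3 (b c) (V c) ∧
    cg 5 (∑ c ∈ s, b c) (∏ c ∈ s, V c) = ∑ c ∈ s, cg 5 (b c) (V c) ∧
    Q8 (∑ c ∈ s, b c) (∏ c ∈ s, V c) = ∑ c ∈ s, Q8 (b c) (V c) ∧
    Q10 (∑ c ∈ s, b c) (∏ c ∈ s, V c) = ∑ c ∈ s, Q10 (b c) (V c) := by
  classical
  induction s using Finset.induction_on with
  | empty =>
    simp only [Finset.sum_empty, Finset.prod_empty]
    refine ⟨P10_one, ?_, ?_, ?_, ?_, ?_⟩
    · simp [cg, kk]
    · simp [cg, kk, PowerSeries.coeff_one]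
    · simp [cg, kk, PowerSeries.coeff_one]
    · simp [Q8, cg, kk, PowerSeries.coeff_one]
    · simp [Q10, cg, kk, PowerSeries.coeff_one]
  | insert a s ha ih =>
    obtain ⟨i1, i2, i4, i5, i6, i7⟩ := ih (fun c hc => h c (Finset.mem_insert_of_mem hc))
      (fun c hc => h1 c (Finset.mem_insert_of_mem hc))
    have ha1 := h a (Finset.mem_insert_self a s)
    have ha2 := h1 a (Finset.mem_insert_self a s)
    simp only [Finset.sum_insert ha, Finset.prod_insert ha]
    rw [← i4, ← i5, ← i6, ← i7]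
    refine ⟨ha1.mul i1, ?_, ?_, ?_, ?_, ?_⟩
    · rw [cg0_mul ha1 i1, ha2, i2, one_mul]
    · rw [cg3_mul ha1 i1, ha2, i2]; ring
    · rw [cg5_mul ha1 i1, ha2, i2]; ring
    · unfold Q8
      rw [cg3_mul ha1 i1, cg8_mul ha1 i1, cg5_mul ha1 i1, ha2, i2]
      ring
    · unfold Q10
      rw [cg10_mul ha1 i1, cg5_mul ha1 i1, ha2, i2]
      ring

end Pool.Agent.GaussPoset.Win.T8

end

/-! From `Pool.Agent.W_448wd_h84.WdQ` -/

section

/-!
# MP_448cb3_co, (E,1)(a) for the quadric rows

`a` is the first level with two elements, the levels `a + 1, …, a + E - 1` have one element each.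
For `2 ≤ E ≤ a + 1` the coefficient of `q^E d` in the window series is (number of elements of
level `a + E`) `- [E ≤ a]`: the configurations supported on the two chains cancel by reflection.
-/

namespace Pool.Agent.GaussPoset.Wd

set_option linter.unusedSectionVars false

open Finset Win Win.Ev

universe u

/-! ## duality modulo `d ^ 2` -/

/-- `w'` is the image of `w` under the duality `d ↦ - d + …` modulo `d ^ 2` -/
def TT (w w' : A) : Prop :=
  PowerSeries.coeff 0 w' = PowerSeries.coeff 0 w ∧ PowerSeries.coeff 1 w' = - PowerSeries.coeff 1 w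

lemma c0_mul (f g : A) :
    PowerSeries.coeff 0 (f * g) = PowerSeries.coeff 0 f * PowerSeries.coeff 0 g := by
  rw [PowerSeries.coeff_mul]
  simp

lemma c1_mul (f g : A) : PowerSeries.coeff 1 (f * g) =
    PowerSeries.coeff 0 f * PowerSeries.coeff 1 g + PowerSeries.coeff 1 f * PowerSeries.coeff 0 g := by
  rw [PowerSeries.coeff_mul]
  rw [show (1 : ℕ) = 0 + 1 from rfl, Finset.Nat.antidiagonal_succ]
  simp

lemma TT.mul {u v u' v' : A} (h : TT u u') (h' : TT v v') : TT (u * v) (u' * v') := by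
  obtain ⟨h1, h2⟩ := h
  obtain ⟨h3, h4⟩ := h'
  refine ⟨?_, ?_⟩
  · rw [c0_mul, c0_mul, h1, h3]
  · rw [c1_mul, c1_mul, h1, h2, h3, h4]
    ring

lemma TT.one : TT 1 1 := by
  refine ⟨rfl, ?_⟩
  rw [PowerSeries.coeff_one]
  simp

lemma TT.zero : TT 0 0 := ⟨rfl, by simp⟩

lemma TT.prod {ι : Type*} (s : Finset ι) {f g : ι → A} (h : ∀ z ∈ s, TT (f z) (g z)) :
    TT (∏ z ∈ s, f z) (∏ z ∈ s, g z) := by
  classical
  induction s using Finset.induction_on with
  | empty => rw [Finset.prod_empty, Finset.prod_empty]; exact TT.one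
  | insert a s ha ih =>
    rw [Finset.prod_insert ha, Finset.prod_insert ha]
    exact (h a (mem_insert_self _ _)).mul (ih fun z hz => h z (mem_insert_of_mem hz))

lemma c0_dd : PowerSeries.coeff 0 dd = 0 := by unfold dd; simp
lemma c1_dd : PowerSeries.coeff 1 dd = 1 := by unfold dd; simp
lemma c0_xx : PowerSeries.coeff 0 xx = -1 := by unfold xx dd; simp
lemma c1_xx : PowerSeries.coeff 1 xx = 1 := by
  unfold xx dd
  rw [map_sub, PowerSeries.coeff_one]
  simp
lemma c0_xi : PowerSeries.coeff 0 xi = -1 := by unfold xi; rw [map_neg, PowerSeries.coeff_mk]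
lemma c1_xi : PowerSeries.coeff 1 xi = -1 := by unfold xi; rw [map_neg, PowerSeries.coeff_mk]

lemma TT.xx_xi : TT xx xi := ⟨by rw [c0_xx, c0_xi], by rw [c1_xx, c1_xi]⟩
lemma TT.xi_xx : TT xi xx := ⟨by rw [c0_xx, c0_xi], by rw [c1_xx, c1_xi]; norm_num⟩
lemma TT.dd_xd : TT dd (xi * dd) := by
  refine ⟨by rw [c0_mul, c0_dd, mul_zero], ?_⟩
  rw [c1_mul, c0_dd, c1_dd, c0_xi]
  norm_num
lemma TT.xd_dd : TT (xi * dd) dd := by
  refine ⟨by rw [c0_mul, c0_dd, mul_zero], ?_⟩
  rw [c1_mul, c0_dd, c1_dd, c0_xi]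
  norm_num

variable {P : Type u} [Fintype P] [PartialOrder P] [DecidableEq P] {r a E : ℕ}

open Classical in
lemma wP_low {e : P → ℕ} {z : P} (hz : a < lev z) : wP a e z =
    if FD e z then (if GU e z then 0 else xx) else (if GU e z then 1 else dd) := by
  unfold wP
  rw [if_pos hz]

open Classical in
lemma wP_upp {e : P → ℕ} {z : P} (hz : lev z < a) : wP a e z =
    if FU e z then (if GD e z then 0 else xi) else (if GD e z then 1 else xi * dd) := by
  unfold wP
  rw [if_neg (by omega), if_pos hz]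

lemma tt_low {e e' : P → ℕ} {z z' : P} (hz : a < lev z) (hz' : lev z' < a)
    (h1 : FU e' z' ↔ FD e z) (h2 : GD e' z' ↔ GU e z) : TT (wP a e z) (wP a e' z') := by
  classical
  rw [wP_low hz, wP_upp hz']
  simp only [h1, h2]
  by_cases hd : FD e z
  · by_cases hu : GU e z
    · rw [if_pos hd, if_pos hu, if_pos hd, if_pos hu]
      exact TT.zero
    · rw [if_pos hd, if_neg hu, if_pos hd, if_neg hu]
      exact TT.xx_xi
  · by_cases hu : GU e z
    · rw [if_neg hd, if_pos hu, if_neg hd, if_pos hu]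
      exact TT.one
    · rw [if_neg hd, if_neg hu, if_neg hd, if_neg hu]
      exact TT.dd_xd

lemma tt_upp {e e' : P → ℕ} {z z' : P} (hz : lev z < a) (hz' : a < lev z')
    (h1 : FD e' z' ↔ FU e z) (h2 : GU e' z' ↔ GD e z) : TT (wP a e z) (wP a e' z') := by
  classical
  rw [wP_low hz', wP_upp hz]
  simp only [h1, h2]
  by_cases hd : FU e z
  · by_cases hu : GD e z
    · rw [if_pos hd, if_pos hu, if_pos hd, if_pos hu]
      exact TT.zero
    · rw [if_pos hd, if_neg hu, if_pos hd, if_neg hu]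
      exact TT.xi_xx
  · by_cases hu : GD e z
    · rw [if_neg hd, if_pos hu, if_neg hd, if_pos hu]
      exact TT.one
    · rw [if_neg hd, if_neg hu, if_neg hd, if_neg hu]
      exact TT.xd_dd

open Classical in
lemma wP_site {e : P → ℕ} {z : P} (hz : lev z = a) : wP a e z =
    if FD e z then (if FU e z then 0 else xx) else (if FU e z then 1 else dd) := by
  unfold wP
  rw [if_neg (by omega), if_neg (by omega)]

lemma tt_site {e e' : P → ℕ} {z : P} (hz : lev z = a)
    (h1 : FD e' z ↔ FU e z) (h2 : FU e' z ↔ FD e z) : TT (wP a e z) (xi * wP a e' z) := by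
  classical
  rw [wP_site hz, wP_site hz]
  simp only [h1, h2]
  by_cases hd : FD e z
  · by_cases hu : FU e z
    · rw [if_pos hd, if_pos hu, if_pos hu, if_pos hd, mul_zero]
      exact TT.zero
    · rw [if_pos hd, if_neg hu, if_neg hu, if_pos hd, mul_one]
      exact TT.xx_xi
  · by_cases hu : FU e z
    · rw [if_neg hd, if_pos hu, if_pos hu, if_neg hd, mul_comm, xx_mul_xi]
      exact TT.one
    · rw [if_neg hd, if_neg hu, if_neg hu, if_neg hd]
      exact TT.dd_xd

/-! ## the chains -/

/-- `C` is the part of a component with two sites `s1`, `s2`; `y k` is the only element of the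
level `k ≠ a`, `k < a + E` -/
structure Qd (r a E : ℕ) (C : Finset P) (y : ℕ → P) (s1 s2 : P) : Prop where
  H : Gr P r
  hr : a + E ≤ r
  part : Part a C
  dn : ∀ {x z : P}, z ∈ C → x ⋖ z → lev z < a + E → x ∈ C
  hE : 2 ≤ E
  hEa : E ≤ a + 1
  ne : s1 ≠ s2
  st1 : ∀ z, z ∈ C → lev z = a → z = s1 ∨ z = s2
  m1 : s1 ∈ C
  m2 : s2 ∈ C
  l1 : lev s1 = a
  l2 : lev s2 = a
  ym : ∀ k, k < a + E → k ≠ a → y k ∈ C
  yl : ∀ k, k < a + E → k ≠ a → lev (y k) = k
  uniq : ∀ z, z ∈ C → lev z < a + E → lev z ≠ a → y (lev z) = z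

variable {C : Finset P} {y : ℕ → P} {s1 s2 : P} {e : P → ℕ}

/-- the elements with `|lev z - a| < E` -/
noncomputable def S0 (a E : ℕ) (C : Finset P) : Finset P := C.filter (fun z => a < lev z + E ∧ lev z < a + E)

lemma mem_S0 {z : P} : z ∈ S0 a E C ↔ z ∈ C ∧ a < lev z + E ∧ lev z < a + E := by
  unfold S0; rw [mem_filter]

namespace Qd

variable (Q : Qd r a E C y s1 s2)
include Q

lemma cov_s {s : P} (hs : s ∈ C) (hl : lev s = a) : y (a + 1) ⋖ s := by
  have hr := Q.hr
  have hE := Q.hE
  obtain ⟨x, hx⟩ := dc_nonempty Q.H (x := s) (by omega)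
  have h1 := mem_dc.1 hx
  have h2 := Q.dn hs h1 (by omega)
  have h3 := lev_dc Q.H hx
  have h4 := Q.uniq x h2 (by omega) (by omega)
  rw [h3, hl] at h4
  rw [h4]
  exact h1

lemma cov_t {s : P} (hs : s ∈ C) (hl : lev s = a) : s ⋖ y (a - 1) := by
  have hE := Q.hE
  have hEa := Q.hEa
  obtain ⟨x, hx⟩ := uc_nonempty Q.H (x := s) (by omega)
  have h1 := mem_uc.1 hx
  have h2 := Q.part.up hs h1
  have h3 := lev_uc Q.H hx
  have h4 := Q.uniq x h2 (by omega) (by omega)
  rw [show lev x = a - 1 by omega] at h4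
  rw [h4]
  exact h1

lemma cov_y {k : ℕ} (hk : k + 1 < a + E) (h1 : k ≠ a) (h2 : k + 1 ≠ a) : y (k + 1) ⋖ y k := by
  have m1 := Q.ym (k + 1) hk h2
  have l1 := Q.yl (k + 1) hk h2
  obtain ⟨x, hx⟩ := uc_nonempty Q.H (x := y (k + 1)) (by omega)
  have g1 := mem_uc.1 hx
  have g2 := Q.part.up m1 g1
  have g3 := lev_uc Q.H hx
  have g4 := Q.uniq x g2 (by omega) (by omega)
  rw [show lev x = k by omega] at g4
  rw [g4]
  exact g1

/-- an excited element of `C` in the support -/
lemma spt_mem (he : Spt (S0 a E C) e) {z : P} (h : 0 < e z) : z ∈ S0 a E C := by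
  by_contra hz
  rw [he z hz] at h
  exact Nat.lt_irrefl _ h

lemma FD_low (he : Spt (S0 a E C) e) {k : ℕ} (h1 : a < k) (h2 : k < a + E) :
    FD e (y k) ↔ k + 1 < a + E ∧ e (y k) < e (y (k + 1)) := by
  constructor
  · rintro ⟨z, hz, hlt⟩
    have h3 := mem_S0.1 (Q.spt_mem he (lt_of_le_of_lt (Nat.zero_le _) hlt))
    have h4 := (Q.H.covBy_iff.1 hz).2
    rw [Q.yl k h2 (by omega)] at h4
    have h5 := Q.uniq z h3.1 h3.2.2 (by omega)
    rw [h4] at h5
    rw [h5]
    exact ⟨by omega, hlt⟩
  · rintro ⟨h3, h4⟩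
    exact ⟨_, Q.cov_y h3 (by omega) (by omega), h4⟩

lemma GU_low {k : ℕ} (h1 : a < k) (h2 : k + 1 < a + E) :
    GU e (y (k + 1)) ↔ e (y (k + 1)) ≤ e (y k) := by
  constructor
  · rintro ⟨z, hz, hle⟩
    have m1 := Q.ym (k + 1) h2 (by omega)
    have l1 := Q.yl (k + 1) h2 (by omega)
    have h3 := Q.part.up m1 hz
    have h4 := (Q.H.covBy_iff.1 hz).2
    have h5 := Q.uniq z h3 (by omega) (by omega)
    rw [show lev z = k by omega] at h5
    rw [h5]
    exact hle
  · intro h
    exact ⟨_, Q.cov_y h2 (by omega) (by omega), h⟩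

lemma GU_low1 : GU e (y (a + 1)) ↔ e (y (a + 1)) ≤ e s1 ∨ e (y (a + 1)) ≤ e s2 := by
  have hE := Q.hE
  have m1 := Q.ym (a + 1) (by omega) (by omega)
  have l1 := Q.yl (a + 1) (by omega) (by omega)
  constructor
  · rintro ⟨z, hz, hle⟩
    have h3 := Q.part.up m1 hz
    have h4 := (Q.H.covBy_iff.1 hz).2
    rcases Q.st1 z h3 (by omega) with rfl | rfl
    · exact Or.inl hle
    · exact Or.inr hle
  · rintro (h | h)
    · exact ⟨_, Q.cov_s Q.m1 Q.l1, h⟩
    · exact ⟨_, Q.cov_s Q.m2 Q.l2, h⟩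

lemma FU_upp (he : Spt (S0 a E C) e) {k : ℕ} (h1 : k < a) (h2 : a < k + E) :
    FU e (y k) ↔ a + 1 < k + E ∧ e (y k) < e (y (k - 1)) := by
  have hEa := Q.hEa
  constructor
  · rintro ⟨z, hz, hlt⟩
    have h3 := mem_S0.1 (Q.spt_mem he (lt_of_le_of_lt (Nat.zero_le _) hlt))
    have h4 := (Q.H.covBy_iff.1 hz).2
    rw [Q.yl k (by omega) (by omega)] at h4
    have h5 := Q.uniq z h3.1 h3.2.2 (by omega)
    rw [show lev z = k - 1 by omega] at h5
    rw [h5]
    exact ⟨by omega, hlt⟩
  · rintro ⟨h3, h4⟩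
    have h5 := Q.cov_y (k := k - 1) (by omega) (by omega) (by omega)
    rw [show k - 1 + 1 = k by omega] at h5
    exact ⟨_, h5, h4⟩

lemma GD_upp {k : ℕ} (h1 : k + 1 < a) :
    GD e (y k) ↔ e (y k) ≤ e (y (k + 1)) := by
  constructor
  · rintro ⟨z, hz, hle⟩
    have m1 := Q.ym k (by omega) (by omega)
    have l1 := Q.yl k (by omega) (by omega)
    have h3 := Q.part.dn m1 (by omega) hz
    have h4 := (Q.H.covBy_iff.1 hz).2
    have h5 := Q.uniq z h3 (by omega) (by omega)
    rw [show lev z = k + 1 by omega] at h5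
    rw [h5]
    exact hle
  · intro h
    exact ⟨_, Q.cov_y (by omega) (by omega) (by omega), h⟩

lemma GD_upp1 : GD e (y (a - 1)) ↔ e (y (a - 1)) ≤ e s1 ∨ e (y (a - 1)) ≤ e s2 := by
  have hE := Q.hE
  have hEa := Q.hEa
  have m1 := Q.ym (a - 1) (by omega) (by omega)
  have l1 := Q.yl (a - 1) (by omega) (by omega)
  constructor
  · rintro ⟨z, hz, hle⟩
    have h3 := Q.part.dn m1 (by omega) hz
    have h4 := (Q.H.covBy_iff.1 hz).2
    rcases Q.st1 z h3 (by omega) with rfl | rfl
    · exact Or.inl hle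
    · exact Or.inr hle
  · rintro (h | h)
    · exact ⟨_, Q.cov_t Q.m1 Q.l1, h⟩
    · exact ⟨_, Q.cov_t Q.m2 Q.l2, h⟩

lemma FD_s {s : P} (hs : s ∈ C) (hl : lev s = a) : FD e s ↔ e s < e (y (a + 1)) := by
  have hE := Q.hE
  constructor
  · rintro ⟨z, hz, hlt⟩
    have h4 := (Q.H.covBy_iff.1 hz).2
    have h3 := Q.dn hs hz (by omega)
    have h5 := Q.uniq z h3 (by omega) (by omega)
    rw [h4, hl] at h5
    rw [h5]
    exact hlt
  · intro h
    exact ⟨_, Q.cov_s hs hl, h⟩

lemma FU_s {s : P} (hs : s ∈ C) (hl : lev s = a) : FU e s ↔ e s < e (y (a - 1)) := by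
  constructor
  · rintro ⟨z, hz, hlt⟩
    have h4 := (Q.H.covBy_iff.1 hz).2
    have h3 := Q.part.up hs hz
    have h5 := Q.uniq z h3 (by omega) (by omega)
    rw [show lev z = a - 1 by omega] at h5
    rw [h5]
    exact hlt
  · intro h
    exact ⟨_, Q.cov_t hs hl, h⟩

end Qd

/-! ## reflection -/

/-- the reflection of the chains -/
noncomputable def rf (a E : ℕ) (C : Finset P) (y : ℕ → P) (z : P) : P :=
  if z ∈ S0 a E C ∧ lev z ≠ a then y (2 * a - lev z) else z

namespace Qd

variable (Q : Qd r a E C y s1 s2)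
include Q

lemma y_mem {k : ℕ} (h1 : k ≠ a) (h2 : a < k + E) (h3 : k < a + E) : y k ∈ S0 a E C := by
  rw [mem_S0, Q.yl k h3 h1]
  exact ⟨Q.ym k h3 h1, h2, h3⟩

lemma rf_y {k : ℕ} (h1 : k ≠ a) (h2 : a < k + E) (h3 : k < a + E) :
    rf a E C y (y k) = y (2 * a - k) := by
  unfold rf
  rw [if_pos ⟨Q.y_mem h1 h2 h3, by rw [Q.yl k h3 h1]; exact h1⟩, Q.yl k h3 h1]

lemma rf_s {s : P} (hl : lev s = a) : rf a E C y s = s := by
  unfold rf
  rw [if_neg (fun h => h.2 hl)]

lemma rf_out {z : P} (hz : z ∉ S0 a E C) : rf a E C y z = z := by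
  unfold rf
  rw [if_neg (fun h => hz h.1)]

/-- the three kinds of elements -/
lemma cases {z : P} (hz : z ∈ S0 a E C) :
    (lev z = a) ∨ (lev z ≠ a ∧ a < lev z + E ∧ lev z < a + E ∧ z = y (lev z)) := by
  by_cases h : lev z = a
  · exact Or.inl h
  · obtain ⟨h1, h2, h3⟩ := mem_S0.1 hz
    exact Or.inr ⟨h, h2, h3, (Q.uniq z h1 h3 h).symm⟩

lemma rf_mem {z : P} (hz : z ∈ S0 a E C) : rf a E C y z ∈ S0 a E C := by
  have hEa := Q.hEa
  rcases Q.cases hz with h | ⟨h1, h2, h3, h4⟩
  · rw [Q.rf_s h]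
    exact hz
  · rw [h4, Q.rf_y h1 h2 h3]
    exact Q.y_mem (by omega) (by omega) (by omega)

lemma rf_rf (z : P) : rf a E C y (rf a E C y z) = z := by
  have hEa := Q.hEa
  by_cases hz : z ∈ S0 a E C
  · rcases Q.cases hz with h | ⟨h1, h2, h3, h4⟩
    · rw [Q.rf_s h, Q.rf_s h]
    · rw [h4, Q.rf_y h1 h2 h3, Q.rf_y (by omega) (by omega) (by omega)]
      congr 1
      omega
  · rw [Q.rf_out hz, Q.rf_out hz]

lemma rf_spt (he : Spt (S0 a E C) e) : Spt (S0 a E C) (e ∘ rf a E C y) := by
  intro z hz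
  rw [Function.comp_apply, Q.rf_out hz]
  exact he z hz

lemma sum_rf (f : P → ℕ) : ∑ z ∈ S0 a E C, f (rf a E C y z) = ∑ z ∈ S0 a E C, f z :=
  Finset.sum_nbij' (rf a E C y) (rf a E C y) (fun _ h => Q.rf_mem h) (fun _ h => Q.rf_mem h)
    (fun _ _ => Q.rf_rf _) (fun _ _ => Q.rf_rf _) (fun _ _ => rfl)

lemma prod_rf (f : P → A) : ∏ z ∈ S0 a E C, f (rf a E C y z) = ∏ z ∈ S0 a E C, f z :=
  Finset.prod_nbij' (rf a E C y) (rf a E C y) (fun _ h => Q.rf_mem h) (fun _ h => Q.rf_mem h)
    (fun _ _ => Q.rf_rf _) (fun _ _ => Q.rf_rf _) (fun _ _ => rfl)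

lemma st_eq : st a C = {s1, s2} := by
  ext z
  rw [mem_st, mem_insert, mem_singleton]
  constructor
  · rintro ⟨h1, h2⟩
    exact Q.st1 z h1 h2
  · rintro (rfl | rfl)
    · exact ⟨Q.m1, Q.l1⟩
    · exact ⟨Q.m2, Q.l2⟩

lemma tC_S0 (he : Spt (S0 a E C) e) : tC a C e = ∏ z ∈ S0 a E C, wP a e z := by
  have hE := Q.hE
  have hEa := Q.hEa
  have hr := Q.hr
  have heC : Spt C e := fun x hx => he x (fun h => hx (mem_S0.1 h).1)
  rw [tC_prod Q.H (by omega) Q.part heC]
  refine prod_restrict Q.H (by omega) (fun z hz => (mem_S0.1 hz).1) ?_ ?_ ?_ he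
  · intro z hz
    rw [mem_st] at hz
    exact mem_S0.2 ⟨hz.1, by omega, by omega⟩
  · intro x hx hl z hz
    rw [mem_S0] at hx ⊢
    have h1 := (Q.H.covBy_iff.1 hz).2
    exact ⟨Q.part.up hx.1 hz, by omega, by omega⟩
  · intro x hx hl z hz
    rw [mem_S0] at hx ⊢
    have h1 := (Q.H.covBy_iff.1 hz).2
    exact ⟨Q.part.dn hx.1 hl hz, by omega, by omega⟩

/-- reflection, local weights -/
lemma tt_rf (he : Spt (S0 a E C) e) {z : P} (hz : z ∈ S0 a E C) :
    TT (wP a e z) ((if lev z = a then xi else 1) * wP a (e ∘ rf a E C y) (rf a E C y z)) := by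
  have hE := Q.hE
  have hEa := Q.hEa
  set e' := e ∘ rf a E C y with he'
  have hy : ∀ k, k ≠ a → a < k + E → k < a + E → e' (y k) = e (y (2 * a - k)) := by
    intro k h1 h2 h3
    rw [he', Function.comp_apply, Q.rf_y h1 h2 h3]
  have hs : ∀ s, lev s = a → e' s = e s := by
    intro s hl
    rw [he', Function.comp_apply, Q.rf_s hl]
  have hspt : Spt (S0 a E C) e' := Q.rf_spt he
  rcases Q.cases hz with h | ⟨h1, h2, h3, h4⟩
  · rw [if_pos h, Q.rf_s h]
    have hzC := (mem_S0.1 hz).1
    refine tt_site h ?_ ?_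
    · rw [Q.FD_s hzC h, Q.FU_s hzC h, hs z h, hy (a + 1) (by omega) (by omega) (by omega)]
      rw [show 2 * a - (a + 1) = a - 1 by omega]
    · rw [Q.FD_s hzC h, Q.FU_s hzC h, hs z h, hy (a - 1) (by omega) (by omega) (by omega)]
      rw [show 2 * a - (a - 1) = a + 1 by omega]
  · rw [if_neg h1, one_mul]
    set k := lev z with hk
    rw [h4, Q.rf_y h1 h2 h3]
    rcases Nat.lt_or_gt_of_ne h1 with h5 | h5
    · refine tt_upp (by rw [Q.yl k h3 h1]; exact h5)
        (by rw [Q.yl (2 * a - k) (by omega) (by omega)]; omega) ?_ ?_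
      · rw [Q.FD_low hspt (by omega) (by omega), Q.FU_upp he h5 h2,
          hy (2 * a - k) (by omega) (by omega) (by omega)]
        rw [show 2 * a - (2 * a - k) = k by omega]
        constructor
        · rintro ⟨g1, g2⟩
          rw [hy _ (by omega) (by omega) (by omega),
            show 2 * a - (2 * a - k + 1) = k - 1 by omega] at g2
          exact ⟨by omega, g2⟩
        · rintro ⟨g1, g2⟩
          refine ⟨by omega, ?_⟩
          rw [hy _ (by omega) (by omega) (by omega),
            show 2 * a - (2 * a - k + 1) = k - 1 by omega]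
          exact g2
      · rcases Nat.lt_or_ge (k + 1) a with h6 | h6
        · rw [Q.GD_upp h6]
          have := Q.GU_low (e := e') (k := 2 * a - k - 1) (by omega) (by omega)
          rw [show 2 * a - k - 1 + 1 = 2 * a - k by omega] at this
          rw [this, hy _ (by omega) (by omega) (by omega), hy _ (by omega) (by omega) (by omega),
            show 2 * a - (2 * a - k) = k by omega, show 2 * a - (2 * a - k - 1) = k + 1 by omega]
        · have h7 : k = a - 1 := by omega
          rw [h7, show 2 * a - (a - 1) = a + 1 by omega, Q.GU_low1, Q.GD_upp1,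
            hy _ (by omega) (by omega) (by omega), hs s1 Q.l1, hs s2 Q.l2,
            show 2 * a - (a + 1) = a - 1 by omega]
    · refine tt_low (by rw [Q.yl k h3 h1]; exact h5)
        (by rw [Q.yl (2 * a - k) (by omega) (by omega)]; omega) ?_ ?_
      · rw [Q.FD_low he h5 h3, Q.FU_upp hspt (by omega) (by omega),
          hy (2 * a - k) (by omega) (by omega) (by omega)]
        rw [show 2 * a - (2 * a - k) = k by omega]
        constructor
        · rintro ⟨g1, g2⟩
          rw [hy _ (by omega) (by omega) (by omega),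
            show 2 * a - (2 * a - k - 1) = k + 1 by omega] at g2
          exact ⟨by omega, g2⟩
        · rintro ⟨g1, g2⟩
          refine ⟨by omega, ?_⟩
          rw [hy _ (by omega) (by omega) (by omega),
            show 2 * a - (2 * a - k - 1) = k + 1 by omega]
          exact g2
      · rcases Nat.lt_or_ge (a + 1) k with h6 | h6
        · have := Q.GU_low (e := e) (k := k - 1) (by omega) (by omega)
          rw [show k - 1 + 1 = k by omega] at this
          rw [this, Q.GD_upp (k := 2 * a - k) (by omega), hy _ (by omega) (by omega) (by omega),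
            hy _ (by omega) (by omega) (by omega),
            show 2 * a - (2 * a - k) = k by omega, show 2 * a - (2 * a - k + 1) = k - 1 by omega]
        · have h7 : k = a + 1 := by omega
          rw [h7, show 2 * a - (a + 1) = a - 1 by omega, Q.GU_low1, Q.GD_upp1,
            hy _ (by omega) (by omega) (by omega), hs s1 Q.l1, hs s2 Q.l2,
            show 2 * a - (a - 1) = a + 1 by omega]

/-- reflection changes the sign of the coefficient of `d` -/
theorem c1_rf (he : Spt (S0 a E C) e) :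
    PowerSeries.coeff 1 (tC a C e) + PowerSeries.coeff 1 (tC a C (e ∘ rf a E C y)) = 0 := by
  classical
  have hE := Q.hE
  have h1 := TT.prod (S0 a E C) (fun z hz => Q.tt_rf he hz)
  rw [Finset.prod_mul_distrib, Q.prod_rf (fun z => wP a (e ∘ rf a E C y) z), ← Q.tC_S0 he,
    ← Q.tC_S0 (Q.rf_spt he)] at h1
  have h2 : ∏ z ∈ S0 a E C, (if lev z = a then xi else (1 : A)) = xi * xi := by
    rw [← Finset.prod_filter]
    have h3 : (S0 a E C).filter (fun z => lev z = a) = {s1, s2} := by
      rw [← Q.st_eq]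
      ext z
      rw [mem_filter, mem_S0, mem_st]
      constructor
      · rintro ⟨⟨g1, -⟩, g2⟩
        exact ⟨g1, g2⟩
      · rintro ⟨g1, g2⟩
        exact ⟨⟨g1, by omega, by omega⟩, g2⟩
    rw [h3, Finset.prod_pair Q.ne]
  rw [h2] at h1
  have hspt' : Spt C (e ∘ rf a E C y) := fun x hx => Q.rf_spt he x (fun h => hx (mem_S0.1 h).1)
  have h4 : PowerSeries.coeff 0 (tC a C (e ∘ rf a E C y)) = 0 := by
    obtain ⟨w, hw⟩ := dd_dvd_tC Q.H Q.part hspt' ⟨s1, mem_st.2 ⟨Q.m1, Q.l1⟩⟩
    rw [hw, c0_mul, c0_dd, zero_mul]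
  have h5 := h1.2
  rw [c1_mul, h4, mul_zero, add_zero, c0_mul, c0_xi] at h5
  linarith

/-- the configurations on the two chains cancel -/
theorem sum_S0 (n : ℕ) : ∑ e ∈ (S0 a E C).piAntidiag n, PowerSeries.coeff 1 (tC a C e) = 0 := by
  classical
  refine Finset.sum_involution (fun e _ => e ∘ rf a E C y) ?_ ?_ ?_ ?_
  · intro e he
    exact Q.c1_rf (spt_of_mem he)
  · intro e he h1 h2
    have h3 := Q.c1_rf (spt_of_mem he)
    rw [h2] at h3
    omega
  · intro e he
    rw [mem_piAntidiag] at he ⊢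
    refine ⟨?_, ?_⟩
    · have := Q.sum_rf e
      rw [← he.1]
      exact this
    · intro x hx
      by_contra h
      exact hx (Q.rf_spt (fun z hz => by
        by_contra h0
        exact hz (he.2 z h0)) x h)
  · intro e he
    funext z
    rw [Function.comp_apply, Function.comp_apply, Q.rf_rf]

end Qd

end Pool.Agent.GaussPoset.Wd

end
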