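import Mathlib
import Pool.Agent.W_448zz_h61.Ns
import Pool.Agent.W_448zz_h61.M068

/-! From `Pool.Agent.W_448nl_h15.NvD` -/

section

/-!
# MP_448cb3_co: the first labels of the programs of the word E7 with 15 and 16 rows
-/

namespace Pool.Agent.GaussPoset.Win.Ev

set_option maxRecDepth 100000

theorem E7_7_hd2 : hd0 291 (tl (mk [0, 0, 0, 0, 0, 0, 1, 2, 2, 3, 3, 3, 4, 5, 5, 5]
    [0, 0, 0, 0, 1, 1, 2, 3, 4, 4, 4, 4, 5, 5, 5, 5] 16 8)) = true := by decide +kernel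

theorem E7_7_hd3 : hd0 226 (tl (tl (mk [0, 0, 0, 0, 0, 0, 1, 2, 2, 3, 3, 3, 4, 5, 5, 5]
    [0, 0, 0, 0, 1, 1, 2, 3, 4, 4, 4, 4, 5, 5, 5, 5] 16 8))) = true := by decide +kernel

theorem E7_6_hd : hd0 258 (mk [0, 0, 0, 0, 0, 0, 1, 2, 2, 3, 3, 3, 4, 5, 5]
    [0, 0, 0, 0, 1, 1, 2, 3, 4, 4, 4, 4, 5, 5, 5] 15 8) = true := by decide +kernel

theorem E7_6_hd2 : hd0 291 (tl (mk [0, 0, 0, 0, 0, 0, 1, 2, 2, 3, 3, 3, 4, 5, 5]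
    [0, 0, 0, 0, 1, 1, 2, 3, 4, 4, 4, 4, 5, 5, 5] 15 8)) = true := by decide +kernel

theorem E7_8_Xr : (rowN [0, 0, 0, 0, 0, 0, 1, 2, 2, 3, 3, 3, 4, 5, 5, 5, 5]
    [0, 0, 0, 0, 1, 1, 2, 3, 4, 4, 4, 4, 5, 5, 5, 5, 5] (17 - 1)).map (cd (17 - 1)) = [517] := by
  decide +kernel

end Pool.Agent.GaussPoset.Win.Ev

end

/-! From `Pool.Agent.W_448ev_h61.EvL7a` -/

section

/-! Values of the word E7 at the window 8 (kernel evaluation, in pieces). -/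

namespace Pool.Agent.GaussPoset.Win.Ev

set_option maxRecDepth 100000

/-- 136973 nodes -/
theorem E7p13_0_p_0_0 : pcv 1 (tl (tl (mk [0, 0, 0, 0, 0, 0, 1, 2, 2, 3, 3, 3, 4, 5, 5, 5] [0, 0, 0, 0, 1, 1, 2, 3, 4, 4, 4, 4, 5, 5, 5, 5] 16 8))) (0 + 0 * 32 ^ 258) 291 (13 - 0) 0
    [1] = true := by
  decide +kernel

/-- 94841 nodes -/
theorem E7p13_0_p_0_1 : pcv 1 (tl (tl (mk [0, 0, 0, 0, 0, 0, 1, 2, 2, 3, 3, 3, 4, 5, 5, 5] [0, 0, 0, 0, 1, 1, 2, 3, 4, 4, 4, 4, 5, 5, 5, 5] 16 8))) (0 + 0 * 32 ^ 258) 291 (13 - 0) 1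
    [0, -26] = true := by
  decide +kernel

/-- 53512 nodes -/
theorem E7p13_0_p_0_2 : pcv 1 (tl (tl (mk [0, 0, 0, 0, 0, 0, 1, 2, 2, 3, 3, 3, 4, 5, 5, 5] [0, 0, 0, 0, 1, 1, 2, 3, 4, 4, 4, 4, 5, 5, 5, 5] 16 8))) (0 + 0 * 32 ^ 258) 291 (13 - 0) 3
    [10, 12, 4, 1, 0, 0, 0, 0, 0, 0, 0] = true := by
  decide +kernel

theorem E7p13_0_p_0 : pcv 1 (tl (mk [0, 0, 0, 0, 0, 0, 1, 2, 2, 3, 3, 3, 4, 5, 5, 5] [0, 0, 0, 0, 1, 1, 2, 3, 4, 4, 4, 4, 5, 5, 5, 5] 16 8)) (0) 258 (13) 0 [2] = true := by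
  have h := pcv_app (pcv_app E7p13_0_p_0_0 (by decide) E7p13_0_p_0_1) (by decide) E7p13_0_p_0_2
  exact pcv_one E7_7_hd2 (c := [1, 0, -26, 10, 12, 4, 1, 0, 0, 0, 0, 0, 0, 0]) (by decide) h (by decide)

theorem E7p13_0 : pcs 1 (tl (mk [0, 0, 0, 0, 0, 0, 1, 2, 2, 3, 3, 3, 4, 5, 5, 5] [0, 0, 0, 0, 1, 1, 2, 3, 4, 4, 4, 4, 5, 5, 5, 5] 16 8)) 258 13 0
    [2] = true := by
  have h := E7p13_0_p_0
  exact pcs_of h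

end Pool.Agent.GaussPoset.Win.Ev

end
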