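import Mathlib
import Pool.Agent.W_448zz_h61.Ns
import Pool.Agent.W_448zz_h61.M069
import Pool.Agent.W_448zz_h61.M070

/-! From `Pool.Agent.W_448ev_h61.EvL6b` -/

/-! Values of the word E7 at the window 8 (kernel evaluation, in pieces). -/

namespace Pool.Agent.GaussPoset.Win.Ev

set_option maxRecDepth 100000

/-- 86539 nodes -/
theorem E7_6_12_0_0 : pcv 1 (tl (tl (mk [0, 0, 0, 0, 0, 0, 1, 2, 2, 3, 3, 3, 4, 5, 5] [0, 0, 0, 0, 1, 1, 2, 3, 4, 4, 4, 4, 5, 5, 5] 15 8))) (0 + 0 * 32 ^ 258) 291 (12 - 0) 0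
    [-1] = true := by
  decide +kernel

/-- 91943 nodes -/
theorem E7_6_12_0_1 : pcv 1 (tl (tl (mk [0, 0, 0, 0, 0, 0, 1, 2, 2, 3, 3, 3, 4, 5, 5] [0, 0, 0, 0, 1, 1, 2, 3, 4, 4, 4, 4, 5, 5, 5] 15 8))) (0 + 0 * 32 ^ 258) 291 (12 - 0) 1
    [-1, -13, 8, 4, 1, 0, 0, 0, 0, 0, 0, 0] = true := by
  decide +kernel

theorem E7_6_12_0 : pcv 1 (tl (mk [0, 0, 0, 0, 0, 0, 1, 2, 2, 3, 3, 3, 4, 5, 5] [0, 0, 0, 0, 1, 1, 2, 3, 4, 4, 4, 4, 5, 5, 5] 15 8)) (0) 258 (12) 0 [-2] = true := by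
  have h := pcv_app E7_6_12_0_0 (by decide) E7_6_12_0_1
  exact pcv_one E7_6_hd2 (c := [-1, -1, -13, 8, 4, 1, 0, 0, 0, 0, 0, 0, 0]) (by decide) h (by decide)

/-- 127384 nodes -/
theorem E7_6_12_1 : pcv 1 (tl (mk [0, 0, 0, 0, 0, 0, 1, 2, 2, 3, 3, 3, 4, 5, 5] [0, 0, 0, 0, 1, 1, 2, 3, 4, 4, 4, 4, 5, 5, 5] 15 8)) (0) 258 (12) 1
    [2] = true := by
  decide +kernel

/-- 98916 nodes -/
theorem E7_6_12_2 : pcv 1 (tl (mk [0, 0, 0, 0, 0, 0, 1, 2, 2, 3, 3, 3, 4, 5, 5] [0, 0, 0, 0, 1, 1, 2, 3, 4, 4, 4, 4, 5, 5, 5] 15 8)) (0) 258 (12) 2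
    [0, 0, 0, 0, 0, 0, 0, 0, 0, 0, 0] = true := by
  decide +kernel

theorem E7_6_12 : ev 1 (mk [0, 0, 0, 0, 0, 0, 1, 2, 2, 3, 3, 3, 4, 5, 5] [0, 0, 0, 0, 1, 1, 2, 3, 4, 4, 4, 4, 5, 5, 5] 15 8) 0 12 0 0 0 = 0 := by
  have h := pcv_app (pcv_app E7_6_12_0 (by decide) E7_6_12_1) (by decide) E7_6_12_2
  exact ev_one E7_6_hd (c := [-2, 2, 0, 0, 0, 0, 0, 0, 0, 0, 0, 0, 0]) (by decide) h (by decide)

end Pool.Agent.GaussPoset.Win.Ev
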