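import Mathlib
import Pool.Agent.W_448zz_h61.Ns
import Pool.Agent.W_448zz_h61.M066

/-! From `Pool.Agent.W_448so_h61.CB` -/

/-! The two sides of a window as `Side0`; twice the number of killed sites minus free elements is
the sum of the charges of the killers (tool (A) of row 476). -/

set_option autoImplicit false

namespace Pool.Agent.GaussPoset.Win.I2

set_option linter.unusedSectionVars false

open Finset

universe u

section gen

variable {P : Type u} [DecidableEq P]
variable {c c' : P → Finset P} {e : P → ℕ} {t : P → ℕ} {V Sd : Finset P}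

lemma so_sub_kn {z : P} : so c c' e z ⊆ kn c e z := filter_subset _ _

/-- charge of a killer with one cover towards the window -/
lemma cc_one {z : P} (h1 : (c z).card = 1) (hk : kl c e z) :
    cc c c' e z = ((so c c' e z).card : ℤ) - 1 ∧ (so c c' e z).card ≤ 1 := by
  classical
  obtain ⟨a, ha⟩ := card_eq_one.1 h1
  obtain ⟨b, hb, hb2⟩ := hk
  rw [ha, mem_singleton] at hb
  subst hb
  have h2 : kn c e z = {b} := by
    unfold kn
    rw [ha]
    ext x
    rw [mem_filter, mem_singleton]
    constructor
    · exact fun h => h.1
    · rintro rfl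
      exact ⟨rfl, hb2⟩
  have h3 : ¬ gu c e z := by
    rintro ⟨x, hx, hx2⟩
    rw [ha, mem_singleton] at hx
    subst hx
    omega
  have h4 : (so c c' e z).card ≤ 1 := by
    refine (card_le_card so_sub_kn).trans ?_
    rw [h2, card_singleton]
  refine ⟨?_, h4⟩
  unfold cc
  rw [h2, card_singleton, if_neg h3]
  push_cast
  ring

lemma cc_le_zero {z : P} (h1 : (c z).card = 1) (hk : kl c e z) : cc c c' e z ≤ 0 := by
  have h2 := cc_one (c' := c') h1 hk
  have h3 := h2.2
  rw [h2.1]
  omega

end gen

variable {P : Type u} [Fintype P] [PartialOrder P] [DecidableEq P] {r i : ℕ} {e : P → ℕ}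

lemma side0_low (H : Gr P r) (i : ℕ) : Side0 uc dc (fun x : P => lev x - i) (lv P i) (lS P i) where
  dual := by
    intro x y
    rw [mem_uc, mem_dc]
  c2 := uc_card_le H
  c2' := dc_card_le H
  ne := by
    intro x hx
    rw [mem_lS] at hx
    exact uc_nonempty H (by omega)
  tS := by
    intro x hx
    rw [mem_lS] at hx
    omega
  tV := by
    intro x hx
    rw [mem_lv] at hx
    omega
  cin := by
    intro x hx y hy
    rw [mem_lS] at hx
    have := lev_uc H hy
    rw [mem_lS, mem_lv]
    omega
  cout := by
    intro y hy x hx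
    rw [mem_lS, mem_lv] at hy
    have := lev_dc H hx
    rw [mem_lS]
    omega

lemma side0_up (H : Gr P r) (hir : i ≤ r) :
    Side0 dc uc (fun x : P => i - lev x) (lv P i) (uS P i) where
  dual := by
    intro x y
    rw [mem_uc, mem_dc]
  c2 := dc_card_le H
  c2' := uc_card_le H
  ne := by
    intro x hx
    rw [mem_uS] at hx
    exact dc_nonempty H (by omega)
  tS := by
    intro x hx
    rw [mem_uS] at hx
    omega
  tV := by
    intro x hx
    rw [mem_lv] at hx
    omega
  cin := by
    intro x hx y hy
    rw [mem_uS] at hx
    have := lev_dc H hy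
    rw [mem_uS, mem_lv]
    omega
  cout := by
    intro y hy x hx
    rw [mem_uS, mem_lv] at hy
    have := lev_uc H hx
    rw [mem_uS]
    omega

/-- killed sites minus free elements -/
noncomputable def kk (i : ℕ) (e : P → ℕ) : ℤ :=
  (AL i e).card + (AU i e).card - pL i e - pU i e

end Pool.Agent.GaussPoset.Win.I2
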