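import Mathlib
import Pool.Agent.W_448zz_h61.Ns
import Pool.Agent.W_448zz_h61.M072

/-! From `Pool.Agent.W_448so_h63.DA` -/

section

/-!
Classification of the cores of S9 (row 476), one side of the window: basic facts.
-/

set_option autoImplicit false

namespace Pool.Agent.GaussPoset.Win.So

set_option linter.unusedSectionVars false

open Finset I2

universe u

variable {P : Type u} [DecidableEq P]

/-- one side of the window with a configuration of energy at most six -/
structure OS (c c' : P → Finset P) (t : P → ℕ) (V Sd : Finset P) (e : P → ℕ) : Prop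
    extends Side0 c c' t V Sd where
  adm : ∀ z ∈ Sd, ¬ (kd c' e z ∧ gu c e z)
  nl : ∀ z ∈ Sd, t z = 2 → 1 ≤ e z → ∀ x ∈ c z, ∀ x' ∈ c z, x ≠ x' → (c x).card = 2 →
    (c x ∩ c x').card = 1
  nc : ∀ x ∈ Sd, ∀ x' ∈ Sd, x ≠ x' → t x = 1 → t x' = 1 → (c x).card = 2 → (c x').card = 2 →
    ∀ z z', z ∈ c' x → z ∈ c' x' → z' ∈ c' x → z' ∈ c' x' → 1 ≤ e z → 1 ≤ e z' → z = z'
  pd : ∀ z ∈ Sd, ∀ z' ∈ Sd, t z = 2 → t z' = 2 → 1 ≤ e z → 1 ≤ e z' → (c z).card = 1 →
    (c z').card = 1 → (∃ x ∈ c z, (c x).card = 2) → (∃ x ∈ c z', (c x).card = 2) → z = z'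
  tch : ∀ x ∈ Sd, t x = 1 → 1 ≤ e x → ∃ z ∈ c' x, 1 ≤ e z
  en : ∑ x ∈ Sd ∪ V, e x ≤ 6

open Classical in
/-- the positive part of the charge of a killer -/
noncomputable def gg (c c' : P → Finset P) (e : P → ℕ) (z : P) : ℤ :=
  if kl c e z then max (cc c c' e z) 0 else 0

variable {c c' : P → Finset P} {e : P → ℕ} {t : P → ℕ} {V Sd : Finset P}

lemma gg_nonneg (z : P) : 0 ≤ gg c c' e z := by
  classical
  unfold gg
  split_ifs
  · exact le_max_right _ _
  · exact le_rfl

lemma gg_pos {z : P} (h : 0 < gg c c' e z) : kl c e z ∧ gg c c' e z = cc c c' e z := by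
  classical
  unfold gg at h ⊢
  split_ifs at h ⊢ with h1
  · refine ⟨h1, ?_⟩
    rw [max_eq_left]
    by_contra h2
    rw [max_eq_right (by omega)] at h
    omega
  · omega

lemma gg_zero_of_not_kl {z : P} (h : ¬ kl c e z) : gg c c' e z = 0 := by
  classical
  unfold gg
  rw [if_neg h]

lemma gg_le {z : P} {n : ℤ} (hn : 0 ≤ n) (h : cc c c' e z ≤ n) : gg c c' e z ≤ n := by
  classical
  unfold gg
  split_ifs
  · exact max_le h hn
  · exact hn

namespace OS

variable (S : OS c c' t V Sd e)

include S

/-- the sum is bounded by the sum over any set containing the positive elements -/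
lemma sum_le (F : Finset P) (h : ∀ z ∈ Sd, 0 < gg c c' e z → z ∈ F) :
    ∑ z ∈ Sd, gg c c' e z ≤ ∑ z ∈ F, gg c c' e z := by
  classical
  have h1 : ∑ z ∈ Sd, gg c c' e z = ∑ z ∈ Sd ∩ F, gg c c' e z := by
    symm
    apply Finset.sum_subset inter_subset_left
    intro z hz hz'
    by_contra h2
    have h3 := gg_nonneg (c := c) (c' := c') (e := e) z
    exact hz' (mem_inter.2 ⟨hz, h z hz (by omega)⟩)
  rw [h1]
  exact Finset.sum_le_sum_of_subset_of_nonneg inter_subset_right fun z _ _ => gg_nonneg z

lemma gg2 (z : P) : gg c c' e z ≤ 2 := gg_le (by norm_num) (S.toSide0.cc_le_two z)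

/-- energy of a list of different elements -/
lemma en_list (l : List P) (h : l.Nodup) (hm : ∀ z ∈ l, z ∈ Sd ∪ V) : (l.map e).sum ≤ 6 := by
  have h1 : (l.map e).sum = ∑ z ∈ l.toFinset, e z := by
    rw [List.sum_toFinset _ h]
  rw [h1]
  refine le_trans (Finset.sum_le_sum_of_subset ?_) S.en
  intro z hz
  exact hm z (List.mem_toFinset.1 hz)

lemma disj {z : P} (h : z ∈ Sd) : z ∉ V := by
  intro h'
  have := S.tS z h
  have := S.tV z h'
  omega

lemma cov {z y : P} (hz : z ∈ Sd) (ht : 2 ≤ t z) (he : 1 ≤ e z) (hy : y ∈ c z) :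
    y ∈ Sd ∧ t z = t y + 1 ∧ 1 ≤ e y := by
  obtain ⟨h1, h2⟩ := S.cin z hz y hy
  have h3 : y ∈ Sd := by
    rcases h1 with h1 | h1
    · exact h1
    · have := S.tV y h1
      omega
  refine ⟨h3, h2, ?_⟩
  by_contra h4
  have h5 : kd c' e y := ⟨z, (S.dual z y).1 hy, by omega⟩
  obtain ⟨a, ha⟩ := S.ne y h3
  have := not_gu_of_kd S.adm h3 h5 a ha
  omega

lemma chd {x z : P} (hx : x ∈ Sd ∨ x ∈ V) (hz : z ∈ c' x) : z ∈ Sd ∧ t z = t x + 1 ∧ x ∈ c z := by
  have h1 := S.cout x hx z hz
  have h2 := (S.dual z x).2 hz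
  exact ⟨h1, (S.cin z h1 x h2).2, h2⟩

lemma site {x v : P} (hx : x ∈ Sd) (ht : t x = 1) (hv : v ∈ c x) : v ∈ V ∧ t v = 0 := by
  obtain ⟨h1, h2⟩ := S.cin x hx v hv
  rcases h1 with h1 | h1
  · have := S.tS v h1
    omega
  · exact ⟨h1, by omega⟩

lemma kd_all {z : P} (hz : z ∈ Sd) {q : P} (hq : q ∈ c' z) (h : e z < e q) :
    ∀ a ∈ c z, e a < e z := not_gu_of_kd S.adm hz ⟨q, hq, h⟩

lemma kl_e {z : P} (hk : kl c e z) : 1 ≤ e z := by
  obtain ⟨a, _, h⟩ := hk
  omega

lemma pos_two {z : P} (hz : z ∈ Sd) (h : 0 < gg c c' e z) :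
    (c z).card = 2 ∧ kl c e z ∧ 0 < cc c c' e z := by
  obtain ⟨h1, h2⟩ := gg_pos h
  refine ⟨?_, h1, by omega⟩
  by_contra h3
  have h4 := S.c2 z
  have h5 := (S.ne z hz).card_pos
  have h6 := cc_le_zero (c' := c') (show (c z).card = 1 by omega) h1
  omega

end OS

end Pool.Agent.GaussPoset.Win.So

end

/-! From `Pool.Agent.W_448so_h63.DB` -/

section

/-!
Classification of the cores of S9 (row 476), one side of the window: positive killers.
-/

set_option autoImplicit false

namespace Pool.Agent.GaussPoset.Win.So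

set_option linter.unusedSectionVars false

open Finset I2

universe u

variable {P : Type u} [DecidableEq P]

variable {c c' : P → Finset P} {e : P → ℕ} {t : P → ℕ} {V Sd : Finset P}

/-- two elements of a set with two elements -/
lemma card_two_other {s : Finset P} (h : s.card = 2) {a : P} (ha : a ∈ s) :
    ∃ b, b ≠ a ∧ s = {a, b} := by
  obtain ⟨x, y, hxy, rfl⟩ := card_eq_two.1 h
  rw [mem_insert, mem_singleton] at ha
  rcases ha with rfl | rfl
  · exact ⟨y, hxy.symm, rfl⟩
  · exact ⟨x, hxy, pair_comm _ _⟩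

/-- shared victims -/
lemma not_mem_so {z z' a : P} (dual : ∀ x y, y ∈ c x ↔ x ∈ c' y) (hne : z ≠ z')
    (h1 : a ∈ kn c e z) (h2 : a ∈ kn c e z') : a ∉ so c c' e z := by
  intro h3
  rw [mem_so] at h3
  rw [mem_kn] at h1 h2
  obtain ⟨y, hy⟩ := card_eq_one.1 h3.2
  have h4 : z ∈ kr c' e a := mem_kr.2 ⟨(dual z a).1 h1.1, h1.2⟩
  have h5 : z' ∈ kr c' e a := mem_kr.2 ⟨(dual z' a).1 h2.1, h2.2⟩
  rw [hy, mem_singleton] at h4 h5
  exact hne (h4.trans h5.symm)

namespace OS

variable (S : OS c c' t V Sd e)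

include S

/-- a killer which shares a victim has charge at most one -/
lemma cc_one_of {z a : P} (h1 : a ∈ kn c e z) (h2 : a ∉ so c c' e z) : cc c c' e z ≤ 1 := by
  classical
  have h3 : (so c c' e z).card + 1 ≤ (kn c e z).card := by
    have h4 : so c c' e z ⊆ (kn c e z).erase a := by
      intro b hb
      rw [mem_erase]
      refine ⟨?_, so_sub_kn hb⟩
      rintro rfl
      exact h2 hb
    have h5 := card_le_card h4
    rw [card_erase_of_mem h1] at h5
    have h6 := card_pos.2 ⟨a, h1⟩
    omega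
  unfold cc
  split_ifs with h
  · have := S.kn_le_one h
    omega
  · have := S.kn_le (e := e) z
    omega

/-- a killer which shares two victims has no positive charge -/
lemma cc_zero_of {z a b : P} (hab : a ≠ b) (h1 : a ∈ kn c e z) (h2 : a ∉ so c c' e z)
    (h3 : b ∈ kn c e z) (h4 : b ∉ so c c' e z) : cc c c' e z ≤ 0 := by
  classical
  have h5 := S.kn_le (e := e) z
  have h6 : kn c e z = {a, b} := by
    symm
    apply Finset.eq_of_subset_of_card_le
    · intro q hq
      rw [mem_insert, mem_singleton] at hq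
      rcases hq with rfl | rfl
      · exact h1
      · exact h3
    · rw [card_pair hab]
      exact h5
  have h7 : so c c' e z = ∅ := by
    apply Finset.eq_empty_of_forall_notMem
    intro q hq
    have h8 := so_sub_kn hq
    rw [h6, mem_insert, mem_singleton] at h8
    rcases h8 with rfl | rfl
    · exact h2 hq
    · exact h4 hq
  have h8 : ¬ gu c e z := by
    intro h9
    have := S.kn_le_one h9
    rw [h6, card_pair hab] at this
    omega
  unfold cc
  rw [if_neg h8, h6, card_pair hab, h7, card_empty]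
  norm_num

lemma pos_t {z : P} (hz : z ∈ Sd) (h : 0 < gg c c' e z) : t z ≤ 2 := by
  by_contra h3
  obtain ⟨h1, h2, -⟩ := S.pos_two hz h
  have h4 := h2
  obtain ⟨a, ha, hlt⟩ := h4
  obtain ⟨a', hne, hc⟩ := card_two_other h1 ha
  have h5 := S.toSide0.t_le_of_kl S.adm (t z) z hz h2 rfl
  obtain ⟨a1, a2, a3⟩ := S.cov hz (by omega) (by omega) ha
  obtain ⟨b1, b2, b3⟩ := S.cov hz (by omega) (by omega)
    (show a' ∈ c z by rw [hc]; exact mem_insert_of_mem (mem_singleton_self _))
  obtain ⟨b, hb⟩ := S.ne a a1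
  have h6 := S.kd_all a1 ((S.dual z a).1 ha) hlt b hb
  have h7 := S.toSide0.t_le_of_kl S.adm (t a) a a1 ⟨b, hb, h6⟩ rfl
  obtain ⟨c1, c2, c3⟩ := S.cov a1 (by omega) (by omega) hb
  have hE := S.en_list [z, a, a', b] (by
        simp only [List.nodup_cons, List.mem_cons, List.not_mem_nil, or_false, not_or, List.nodup_nil,
          and_true, not_false_eq_true]
        and_intros
        all_goals first
          | assumption
          | (apply Ne.symm; assumption)
          | (intro hnd; subst hnd; omega)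
          | (intro hnd; rw [hnd] at *; omega)) (by
        simp only [List.forall_mem_cons, mem_union, List.not_mem_nil, false_imp_iff, implies_true,
          and_true]
        and_intros
        all_goals first
          | exact Or.inl (by assumption)
          | exact Or.inr (by assumption))
  simp only [List.map_cons, List.sum_cons, List.map_nil, List.sum_nil] at hE
  omega

lemma pos_t' {z : P} (hz : z ∈ Sd) (h : 0 < gg c c' e z) : t z = 1 ∨ t z = 2 := by
  have := S.pos_t hz h
  have := S.tS z hz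
  omega

lemma far_two {w : P} (hw : w ∈ Sd) (ht : t w = 2) (h : 0 < gg c c' e w) : 2 ≤ e w := by
  obtain ⟨-, h2, -⟩ := S.pos_two hw h
  exact S.toSide0.t_le_of_kl S.adm 2 w hw h2 ht

/-- at most one far element has positive charge -/
lemma far_one {w w' : P} (hw : w ∈ Sd) (hw' : w' ∈ Sd) (ht : t w = 2) (ht' : t w' = 2)
    (h : 0 < gg c c' e w) (h' : 0 < gg c c' e w') : w = w' := by
  by_contra hne
  obtain ⟨a1, a2, a3⟩ := S.pos_two hw h
  obtain ⟨b1, b2, b3⟩ := S.pos_two hw' h'
  have a4 := S.far_two hw ht h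
  have b4 := S.far_two hw' ht' h'
  obtain ⟨x, x', hx, hc⟩ := card_eq_two.1 a1
  obtain ⟨c1, c2, c3⟩ := S.cov hw (by omega) (by omega)
    (show x ∈ c w by rw [hc]; exact mem_insert_self _ _)
  obtain ⟨d1, d2, d3⟩ := S.cov hw (by omega) (by omega)
    (show x' ∈ c w by rw [hc]; exact mem_insert_of_mem (mem_singleton_self _))
  have hE := S.en_list [w, w', x, x'] (by
        simp only [List.nodup_cons, List.mem_cons, List.not_mem_nil, or_false, not_or, List.nodup_nil,
          and_true, not_false_eq_true]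
        and_intros
        all_goals first
          | assumption
          | (apply Ne.symm; assumption)
          | (intro hnd; subst hnd; omega)
          | (intro hnd; rw [hnd] at *; omega)) (by
        simp only [List.forall_mem_cons, mem_union, List.not_mem_nil, false_imp_iff, implies_true,
          and_true]
        and_intros
        all_goals first
          | exact Or.inl (by assumption)
          | exact Or.inr (by assumption))
  simp only [List.map_cons, List.sum_cons, List.map_nil, List.sum_nil] at hE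
  by_cases hs : c w' ⊆ c w
  · have hcc : c w' = c w := Finset.eq_of_subset_of_card_le hs (by omega)
    have k1 : ∀ z, z = x ∨ z = x' → z ∈ kn c e w ∧ z ∈ kn c e w' := by
      intro z hz
      have : z ∈ c w := by rw [hc, mem_insert, mem_singleton]; exact hz
      rw [mem_kn, mem_kn, hcc]
      refine ⟨⟨this, ?_⟩, this, ?_⟩
      · rcases hz with rfl | rfl <;> omega
      · rcases hz with rfl | rfl <;> omega
    have k2 := S.cc_zero_of hx (k1 x (Or.inl rfl)).1
      (not_mem_so S.dual hne (k1 x (Or.inl rfl)).1 (k1 x (Or.inl rfl)).2) (k1 x' (Or.inr rfl)).1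
      (not_mem_so S.dual hne (k1 x' (Or.inr rfl)).1 (k1 x' (Or.inr rfl)).2)
    omega
  · obtain ⟨q, hq, hq'⟩ := Finset.not_subset.1 hs
    obtain ⟨q1, q2, q3⟩ := S.cov hw' (by omega) (by omega) hq
    have n1 : q ≠ x := by
      rintro rfl
      exact hq' (by rw [hc]; exact mem_insert_self _ _)
    have n2 : q ≠ x' := by
      rintro rfl
      exact hq' (by rw [hc]; exact mem_insert_of_mem (mem_singleton_self _))
    have hE := S.en_list [w, w', x, x', q] (by
          simp only [List.nodup_cons, List.mem_cons, List.not_mem_nil, or_false, not_or, List.nodup_nil,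
            and_true, not_false_eq_true]
          and_intros
          all_goals first
            | assumption
            | (apply Ne.symm; assumption)
            | (intro hnd; subst hnd; omega)
            | (intro hnd; rw [hnd] at *; omega)) (by
          simp only [List.forall_mem_cons, mem_union, List.not_mem_nil, false_imp_iff, implies_true,
            and_true]
          and_intros
          all_goals first
            | exact Or.inl (by assumption)
            | exact Or.inr (by assumption))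
    simp only [List.map_cons, List.sum_cons, List.map_nil, List.sum_nil] at hE
    omega

/-- the common site of two covers -/
lemma common {w x x' : P} (hw : w ∈ Sd) (ht : t w = 2) (he : 1 ≤ e w) (hx : x ∈ c w)
    (hx' : x' ∈ c w) (hne : x ≠ x') (h2 : (c x).card = 2) :
    ∃ a s, a ≠ s ∧ c x = {a, s} ∧ s ∈ c x' ∧ a ∉ c x' ∧ a ∈ V ∧ s ∈ V ∧ c' s = {x, x'} := by
  have h3 := S.nl w hw ht he x hx x' hx' hne h2
  obtain ⟨s, hs⟩ := card_eq_one.1 h3
  have h4 : s ∈ c x ∩ c x' := by rw [hs]; exact mem_singleton_self _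
  rw [mem_inter] at h4
  obtain ⟨a, ha, hc⟩ := card_two_other h2 h4.1
  have h5 : a ∈ c x := by rw [hc]; exact mem_insert_of_mem (mem_singleton_self _)
  obtain ⟨x1, x2, x3⟩ := S.cov hw (by omega) he hx
  obtain ⟨y1, y2, y3⟩ := S.cov hw (by omega) he hx'
  have h6 : a ∉ c x' := by
    intro h7
    have : a ∈ c x ∩ c x' := mem_inter.2 ⟨h5, h7⟩
    rw [hs, mem_singleton] at this
    exact ha this
  refine ⟨a, s, ha, ?_, h4.2, h6, (S.site x1 (by omega) h5).1, (S.site x1 (by omega) h4.1).1, ?_⟩
  · rw [hc, pair_comm]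
  · symm
    apply Finset.eq_of_subset_of_card_le
    · intro q hq
      rw [mem_insert, mem_singleton] at hq
      rcases hq with rfl | rfl
      · exact (S.dual _ _).1 h4.1
      · exact (S.dual _ _).1 h4.2
    · rw [card_pair hne]
      exact S.c2' s

end OS

end Pool.Agent.GaussPoset.Win.So

end

/-! From `Pool.Agent.W_448so_h63.DC` -/

section

/-!
Classification of the cores of S9 (row 476), one side of the window: a joined pair of positive
near elements.
-/

set_option autoImplicit false

namespace Pool.Agent.GaussPoset.Win.So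

set_option linter.unusedSectionVars false

open Finset I2

universe u

variable {P : Type u} [DecidableEq P]

/-- `w` over two double elements with one common site -/
structure TT (c c' : P → Finset P) (t : P → ℕ) (V Sd : Finset P) (w x x' a s b : P) : Prop where
  mw : w ∈ Sd
  mx : x ∈ Sd
  mx' : x' ∈ Sd
  tw : t w = 2
  tx : t x = 1
  tx' : t x' = 1
  uw : c w = {x, x'}
  ux : c x = {a, s}
  ux' : c x' = {s, b}
  as : a ≠ s
  sb : s ≠ b
  ab : a ≠ b
  xx' : x ≠ x'
  ds : c' s = {x, x'}
  ma : a ∈ V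
  ms : s ∈ V
  mb : b ∈ V

/-- the toggle structure on one side -/
structure TG (c c' : P → Finset P) (t : P → ℕ) (V Sd : Finset P) (e : P → ℕ)
    (w x x' a s b : P) : Prop extends TT c c' t V Sd w x x' a s b where
  hw : 1 ≤ e w
  hx : 1 ≤ e x
  hx' : 1 ≤ e x'
  st : ((e x < e w ∨ e x' < e w) ∧ e s < e x ∧ e s < e x') ∨
    (e w ≤ e x ∧ e w ≤ e x' ∧ (e x ≤ e s ∨ e x' ≤ e s))
  cw : ∀ z ∈ c' w, e z ≤ e w ∧ e z ≤ e s + 1
  ca : e x < e w ∨ e x < e s + 1 → e a < e x
  cc : e x' < e w ∨ e x' < e s + 1 → e b < e x'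
  dx : ∀ y ∈ c' x, y ≠ w → e y ≤ e x
  dx' : ∀ y ∈ c' x', y ≠ w → e y ≤ e x'

/-- the reflection structure on one side -/
structure RF (c c' : P → Finset P) (t : P → ℕ) (V Sd : Finset P) (e : P → ℕ) (y p : P) :
    Prop where
  my : y ∈ Sd
  mp : p ∈ Sd
  ty : t y = 1
  tp : t p = 2
  cp : c p = {y}
  two : (c y).card = 2
  hy : 1 ≤ e y
  hp : 1 ≤ e p
  ch : ∀ z ∈ c' y, z ≠ p → e z = 0
  chp : ∀ z ∈ c' p, e z = 0

/-- six different excited elements -/
def Six (e : P → ℕ) (a1 a2 a3 a4 a5 a6 : P) : Prop :=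
  [a1, a2, a3, a4, a5, a6].Nodup ∧ ∀ z ∈ [a1, a2, a3, a4, a5, a6], 1 ≤ e z

variable {c c' : P → Finset P} {e : P → ℕ} {t : P → ℕ} {V Sd : Finset P}

lemma TT.symm {w x x' a s b : P} (T : TT c c' t V Sd w x x' a s b) :
    TT c c' t V Sd w x' x b s a where
  mw := T.mw
  mx := T.mx'
  mx' := T.mx
  tw := T.tw
  tx := T.tx'
  tx' := T.tx
  uw := by rw [T.uw, pair_comm]
  ux := by rw [T.ux', pair_comm]
  ux' := by rw [T.ux, pair_comm]
  as := T.sb.symm
  sb := T.as.symm
  ab := T.ab.symm
  xx' := T.xx'.symm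
  ds := by rw [T.ds, pair_comm]
  ma := T.mb
  ms := T.ms
  mb := T.ma

namespace TT

variable {w x x' a s b : P} (T : TT c c' t V Sd w x x' a s b)

include T

lemma xw : x ∈ c w := by rw [T.uw]; exact mem_insert_self _ _

lemma xw' : x' ∈ c w := by rw [T.uw]; exact mem_insert_of_mem (mem_singleton_self _)

lemma ax : a ∈ c x := by rw [T.ux]; exact mem_insert_self _ _

lemma sx : s ∈ c x := by rw [T.ux]; exact mem_insert_of_mem (mem_singleton_self _)

lemma sx' : s ∈ c x' := by rw [T.ux']; exact mem_insert_self _ _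

lemma bx' : b ∈ c x' := by rw [T.ux']; exact mem_insert_of_mem (mem_singleton_self _)

lemma cx2 : (c x).card = 2 := by rw [T.ux]; exact card_pair T.as

lemma cx2' : (c x').card = 2 := by rw [T.ux']; exact card_pair T.sb

end TT

namespace OS

variable (S : OS c c' t V Sd e)

include S

/-- the labels outside a list of energy six vanish -/
lemma rest_zero {l : List P} (h : l.Nodup) (hm : ∀ z ∈ l, z ∈ Sd ∪ V) (h6 : 6 ≤ (l.map e).sum)
    {q : P} (hq : q ∈ Sd ∪ V) (hl : q ∉ l) : e q = 0 := by
  have h1 := S.en_list (q :: l) (List.nodup_cons.2 ⟨hl, h⟩) (by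
    intro z hz
    rw [List.mem_cons] at hz
    rcases hz with rfl | hz
    · exact hq
    · exact hm z hz)
  rw [List.map_cons, List.sum_cons] at h1
  omega

lemma rest_pos {l : List P} (h : l.Nodup) (hm : ∀ z ∈ l, z ∈ Sd ∪ V) (h6 : 6 ≤ (l.map e).sum)
    {q : P} (hq : q ∈ Sd ∪ V) (he : 1 ≤ e q) : q ∈ l := by
  by_contra h1
  have := S.rest_zero h hm h6 hq h1
  omega

lemma mkTT {w x x' : P} (hw : w ∈ Sd) (tw : t w = 2) (ew : 1 ≤ e w) (cw : c w = {x, x'})
    (hne : x ≠ x') (h2 : (c x).card = 2) (h2' : (c x').card = 2) :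
    ∃ a s b, TT c c' t V Sd w x x' a s b := by
  have hx : x ∈ c w := by rw [cw]; exact mem_insert_self _ _
  have hx' : x' ∈ c w := by rw [cw]; exact mem_insert_of_mem (mem_singleton_self _)
  obtain ⟨a, s, h3, h4, h5, h6, h7, h8, h9⟩ := S.common hw tw ew hx hx' hne h2
  obtain ⟨b, hb, hc⟩ := card_two_other h2' h5
  obtain ⟨x1, x2, x3⟩ := S.cov hw (by omega) ew hx
  obtain ⟨y1, y2, y3⟩ := S.cov hw (by omega) ew hx'
  have h10 : b ∈ c x' := by rw [hc]; exact mem_insert_of_mem (mem_singleton_self _)
  refine ⟨a, s, b, hw, x1, y1, tw, by omega, by omega, cw, h4, hc, h3, hb.symm, ?_, hne, h9, h7, h8,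
    (S.site y1 (by omega) h10).1⟩
  rintro rfl
  exact h6 h10

/-- no further child of `x` kills it if `w` has a large label -/
lemma noextra {w x x' a s b : P} (T : TT c c' t V Sd w x x' a s b) (h2 : 2 ≤ e w)
    (ex : 1 ≤ e x) (ex' : 1 ≤ e x') (h4 : 4 ≤ ∑ z ∈ Sd, gg c c' e z) {y : P} (hy : y ∈ c' x)
    (hyw : y ≠ w) : e y ≤ e x := by
  by_contra h3
  have mw := T.mw
  have mx := T.mx
  have mx' := T.mx'
  have ms := T.ms
  have tw := T.tw
  have tx := T.tx
  have tx' := T.tx'
  have xx' := T.xx'
  have ts := S.tV s T.ms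
  obtain ⟨my, ty, cy⟩ := S.chd (Or.inl mx) hy
  have n1 : [y, w, x, x'].Nodup := by
    simp only [List.nodup_cons, List.mem_cons, List.not_mem_nil, or_false, not_or, List.nodup_nil,
      and_true, not_false_eq_true]
    and_intros
    all_goals first
      | assumption
      | (apply Ne.symm; assumption)
      | (intro hnd; subst hnd; omega)
      | (intro hnd; rw [hnd] at *; omega)
  have n2 : ∀ z ∈ [y, w, x, x'], z ∈ Sd ∪ V := by
    simp only [List.forall_mem_cons, mem_union, List.not_mem_nil, false_imp_iff, implies_true,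
      and_true]
    and_intros
    all_goals first
      | exact Or.inl (by assumption)
      | exact Or.inr (by assumption)
  have hE := S.en_list _ n1 n2
  simp only [List.map_cons, List.sum_cons, List.map_nil, List.sum_nil] at hE
  have n3 : 6 ≤ ([y, w, x, x'].map e).sum := by
    simp only [List.map_cons, List.sum_cons, List.map_nil, List.sum_nil]
    omega
  have hs : e s = 0 := by
    apply S.rest_zero n1 n2 n3 (mem_union_right _ ms)
    intro h5
    simp only [List.mem_cons, List.not_mem_nil, or_false] at h5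
    rcases h5 with rfl | rfl | rfl | rfl <;> omega
  have gy : gg c c' e y = 0 := by
    by_contra h5
    have h6 := gg_nonneg (c := c) (c' := c') (e := e) y
    obtain ⟨k1, k2, -⟩ := S.pos_two my (by omega)
    obtain ⟨q, q1, q2⟩ := card_two_other k1 cy
    have q3 : q ∈ c y := by rw [q2]; exact mem_insert_of_mem (mem_singleton_self _)
    obtain ⟨q4, q5, q6⟩ := S.cov my (by omega) (by omega) q3
    have q7 := S.rest_pos n1 n2 n3 (mem_union_left _ q4) q6
    simp only [List.mem_cons, List.not_mem_nil, or_false] at q7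
    have q8 : q = x' := by
      rcases q7 with q7 | q7 | q7 | q7
      · subst q7; omega
      · subst q7; omega
      · exact absurd q7 q1
      · exact q7
    subst q8
    exact hyw (S.nc x mx q mx' xx' tx tx' T.cx2 T.cx2' y w hy ((S.dual _ _).1 q3)
      ((S.dual _ _).1 T.xw) ((S.dual _ _).1 T.xw') (by omega) (by omega))
  have hF : ∀ z ∈ Sd, 0 < gg c c' e z → z ∈ ({w, x, x'} : Finset P) := by
    intro z hz hg
    obtain ⟨-, k2, -⟩ := S.pos_two hz hg
    have k3 := S.rest_pos n1 n2 n3 (mem_union_left _ hz) (S.kl_e k2)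
    simp only [List.mem_cons, List.not_mem_nil, or_false] at k3
    simp only [mem_insert, mem_singleton]
    rcases k3 with k3 | k3
    · subst k3; omega
    · exact k3
  have h5 := S.sum_le _ hF
  have hwx : w ≠ x := by rintro rfl; omega
  have hwx' : w ≠ x' := by rintro rfl; omega
  rw [sum_insert (by simp only [mem_insert, mem_singleton, not_or]; exact ⟨hwx, hwx'⟩),
    sum_pair xx'] at h5
  have g1 : gg c c' e w ≤ 1 := by
    apply gg_le (by norm_num)
    have a1 : x ∈ kn c e w := mem_kn.2 ⟨T.xw, by omega⟩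
    have a2 : x ∈ kn c e y := mem_kn.2 ⟨cy, by omega⟩
    exact S.cc_one_of a1 (not_mem_so S.dual hyw.symm a1 a2)
  have a1 : s ∈ kn c e x := mem_kn.2 ⟨T.sx, by omega⟩
  have a2 : s ∈ kn c e x' := mem_kn.2 ⟨T.sx', by omega⟩
  have g2 : gg c c' e x ≤ 1 := gg_le (by norm_num) (S.cc_one_of a1 (not_mem_so S.dual xx' a1 a2))
  have g3 : gg c c' e x' ≤ 1 :=
    gg_le (by norm_num) (S.cc_one_of a2 (not_mem_so S.dual xx'.symm a2 a1))
  omega

/-- a joined pair with a killer below: toggle or `N1` -/
lemma stateA {w x x' a s b : P} (T : TT c c' t V Sd w x x' a s b) (ex : 1 ≤ e x)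
    (ex' : 1 ≤ e x') (h4 : 4 ≤ ∑ z ∈ Sd, gg c c' e z) (h : e x < e w) :
    TG c c' t V Sd e w x x' a s b ∨
      ∃ z, z ∈ Sd ∧ t z = 3 ∧ c z = {w} ∧ 2 ≤ e z ∧ 2 ≤ e w := by
  have mw := T.mw
  have mx := T.mx
  have mx' := T.mx'
  have ms := T.ms
  have tw := T.tw
  have tx := T.tx
  have tx' := T.tx'
  have xx' := T.xx'
  have ts := S.tV s T.ms
  have k1 := S.kd_all mx ((S.dual _ _).1 T.xw) h
  have k2 := k1 a T.ax
  have k3 := k1 s T.sx
  have k4 : e x' < e w → ∀ q ∈ c x', e q < e x' := fun h5 =>
    S.kd_all mx' ((S.dual _ _).1 T.xw') h5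
  have k5 : e s < e x' := by
    by_contra h5
    have := k4 (by omega) s T.sx'
    omega
  by_cases hz : ∃ z ∈ c' w, e s + 1 < e z
  · right
    obtain ⟨z, hz1, hz2⟩ := hz
    obtain ⟨mz, tz, cz⟩ := S.chd (Or.inl mw) hz1
    have n1 : [z, w, x, x'].Nodup := by
      simp only [List.nodup_cons, List.mem_cons, List.not_mem_nil, or_false, not_or, List.nodup_nil,
        and_true, not_false_eq_true]
      and_intros
      all_goals first
        | assumption
        | (apply Ne.symm; assumption)
        | (intro hnd; subst hnd; omega)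
        | (intro hnd; rw [hnd] at *; omega)
    have n2 : ∀ z' ∈ [z, w, x, x'], z' ∈ Sd ∪ V := by
      simp only [List.forall_mem_cons, mem_union, List.not_mem_nil, false_imp_iff, implies_true,
        and_true]
      and_intros
      all_goals first
        | exact Or.inl (by assumption)
        | exact Or.inr (by assumption)
    have hE := S.en_list _ n1 n2
    simp only [List.map_cons, List.sum_cons, List.map_nil, List.sum_nil] at hE
    have n3 : 6 ≤ ([z, w, x, x'].map e).sum := by
      simp only [List.map_cons, List.sum_cons, List.map_nil, List.sum_nil]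
      omega
    refine ⟨z, mz, by omega, ?_, by omega, by omega⟩
    ext q
    rw [mem_singleton]
    constructor
    · intro hq
      obtain ⟨q4, q5, q6⟩ := S.cov mz (by omega) (by omega) hq
      have q7 := S.rest_pos n1 n2 n3 (mem_union_left _ q4) q6
      simp only [List.mem_cons, List.not_mem_nil, or_false] at q7
      rcases q7 with q7 | q7 | q7 | q7
      · subst q7; omega
      · exact q7
      · subst q7; omega
      · subst q7; omega
    · rintro rfl
      exact cz
  · left
    push Not at hz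
    refine ⟨T, by omega, ex, ex', Or.inl ⟨Or.inl h, k3, k5⟩, ?_, ?_, ?_, ?_, ?_⟩
    · intro z hz1
      refine ⟨?_, hz z hz1⟩
      by_contra h5
      obtain ⟨mz, tz, cz⟩ := S.chd (Or.inl mw) hz1
      have h6 := S.toSide0.t_le_of_kl S.adm (t z) z mz ⟨w, cz, by omega⟩ rfl
      have hE := S.en_list [z, w, x, x'] (by
            simp only [List.nodup_cons, List.mem_cons, List.not_mem_nil, or_false, not_or, List.nodup_nil,
              and_true, not_false_eq_true]
            and_intros
            all_goals first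
              | assumption
              | (apply Ne.symm; assumption)
              | (intro hnd; subst hnd; omega)
              | (intro hnd; rw [hnd] at *; omega)) (by
            simp only [List.forall_mem_cons, mem_union, List.not_mem_nil, false_imp_iff, implies_true,
              and_true]
            and_intros
            all_goals first
              | exact Or.inl (by assumption)
              | exact Or.inr (by assumption))
      simp only [List.map_cons, List.sum_cons, List.map_nil, List.sum_nil] at hE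
      omega
    · exact fun _ => k2
    · rintro (h5 | h5)
      · exact k4 h5 b T.bx'
      · omega
    · intro y hy hyw
      exact S.noextra T (by omega) ex ex' h4 hy hyw
    · intro y hy hyw
      exact S.noextra T.symm (by omega) ex' ex h4 hy hyw

/-- a joined pair with an excited site: toggle -/
lemma stateB {w x x' a s b : P} (T : TT c c' t V Sd w x x' a s b) (ew : 1 ≤ e w)
    (gx : 0 < gg c c' e x) (gx' : 0 < gg c c' e x') (h1 : e w ≤ e x) (h2 : e w ≤ e x')
    (h3 : e x ≤ e s ∨ e x' ≤ e s) : TG c c' t V Sd e w x x' a s b := by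
  have main : ∀ {x x' a b : P} (T : TT c c' t V Sd w x x' a s b)
      (gx : 0 < gg c c' e x) (h1 : e w ≤ e x) (h2 : e w ≤ e x')
      (h3 : e x ≤ e s ∨ e x' ≤ e s), (e x < e w ∨ e x < e s + 1 → e a < e x) ∧
      (∀ y ∈ c' x, y ≠ w → e y ≤ e x) := by
    intro x x' a b T gx h1 h2 h3
    have mw := T.mw
    have mx := T.mx
    have mx' := T.mx'
    have ms := T.ms
    have tw := T.tw
    have tx := T.tx
    have tx' := T.tx'
    have xx' := T.xx'
    have ts := S.tV s T.ms
    constructor
    · intro h5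
      obtain ⟨-, ⟨q, hq, hlt⟩, -⟩ := S.pos_two mx gx
      rw [T.ux, mem_insert, mem_singleton] at hq
      rcases hq with rfl | rfl
      · exact hlt
      · omega
    · intro y hy hyw
      by_contra h5
      obtain ⟨my, ty, cy⟩ := S.chd (Or.inl mx) hy
      have hE := S.en_list [w, y, x, x', s] (by
            simp only [List.nodup_cons, List.mem_cons, List.not_mem_nil, or_false, not_or, List.nodup_nil,
              and_true, not_false_eq_true]
            and_intros
            all_goals first
              | assumption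
              | (apply Ne.symm; assumption)
              | (intro hnd; subst hnd; omega)
              | (intro hnd; rw [hnd] at *; omega)) (by
            simp only [List.forall_mem_cons, mem_union, List.not_mem_nil, false_imp_iff, implies_true,
              and_true]
            and_intros
            all_goals first
              | exact Or.inl (by assumption)
              | exact Or.inr (by assumption))
      simp only [List.map_cons, List.sum_cons, List.map_nil, List.sum_nil] at hE
      have h6 := S.kd_all mx hy (by omega) s T.sx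
      omega
  have mw := T.mw
  obtain ⟨a1, a2⟩ := main T gx h1 h2 h3
  obtain ⟨b1, b2⟩ := main T.symm gx' h2 h1 h3.symm
  refine ⟨T, ew, by omega, by omega, Or.inr ⟨h1, h2, h3⟩, ?_, a1, b1, a2, b2⟩
  intro z hz
  have h5 : e z ≤ e w := by
    by_contra h6
    have := S.kd_all mw hz (by omega) x T.xw
    omega
  refine ⟨h5, by omega⟩

end OS

end Pool.Agent.GaussPoset.Win.So

end

/-! From `Pool.Agent.W_448so_h63.DD` -/

section

/-!
Classification of the cores of S9 (row 476), one side of the window: a single positive near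
element; a third positive near element beside a joined pair.
-/

set_option autoImplicit false

namespace Pool.Agent.GaussPoset.Win.So

set_option linter.unusedSectionVars false

open Finset I2

universe u

variable {P : Type u} [DecidableEq P]

/-- the exceptional configurations of one side -/
def Out (c c' : P → Finset P) (t : P → ℕ) (V Sd : Finset P) (e : P → ℕ) : Prop :=
  (∃ w x x' a s b, TG c c' t V Sd e w x x' a s b) ∨
  (∃ w x x' a s b z, TT c c' t V Sd w x x' a s b ∧ 1 ≤ e x ∧ 1 ≤ e x' ∧ z ∈ Sd ∧ t z = 3 ∧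
    c z = {w} ∧ 2 ≤ e z ∧ 2 ≤ e w) ∨
  (∃ w x x' a s b z p y, TT c c' t V Sd w x x' a s b ∧ y ∈ Sd ∧ p ∈ Sd ∧ z ∈ Sd ∧ t y = 1 ∧
    t p = 2 ∧ t z = 3 ∧ (c y).card = 2 ∧ c p = {y} ∧ (c z = {p} ∨ c z = {p, w}) ∧
    Disjoint {a, s, b} (c y) ∧ Six e w x x' z p y) ∨
  (∃ w x x' a s b w' y y' a' s' b', TT c c' t V Sd w x x' a s b ∧
    TT c c' t V Sd w' y y' a' s' b' ∧ Disjoint ({a, s, b} : Finset P) {a', s', b'} ∧
    Six e w x x' w' y y')

variable {c c' : P → Finset P} {e : P → ℕ} {t : P → ℕ} {V Sd : Finset P}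

namespace OS

variable (S : OS c c' t V Sd e)

include S

/-- shared site of two killers -/
lemma shared_one {x x' s : P} (hne : x ≠ x') (h1 : s ∈ c x) (h2 : s ∈ c x') (h3 : e s < e x)
    (h4 : e s < e x') : gg c c' e x ≤ 1 := by
  have a1 : s ∈ kn c e x := mem_kn.2 ⟨h1, h3⟩
  have a2 : s ∈ kn c e x' := mem_kn.2 ⟨h2, h4⟩
  exact gg_le (by norm_num) (S.cc_one_of a1 (not_mem_so S.dual hne a1 a2))

/-- two shared sites -/
lemma shared_two {x x' x'' s s' : P} (hss : s ≠ s') (hne : x ≠ x') (hne' : x ≠ x'')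
    (h1 : s ∈ c x) (h2 : s ∈ c x') (h3 : e s < e x) (h4 : e s < e x')
    (h1' : s' ∈ c x) (h2' : s' ∈ c x'') (h3' : e s' < e x) (h4' : e s' < e x'') :
    gg c c' e x ≤ 0 := by
  have a1 : s ∈ kn c e x := mem_kn.2 ⟨h1, h3⟩
  have a2 : s ∈ kn c e x' := mem_kn.2 ⟨h2, h4⟩
  have b1 : s' ∈ kn c e x := mem_kn.2 ⟨h1', h3'⟩
  have b2 : s' ∈ kn c e x'' := mem_kn.2 ⟨h2', h4'⟩
  exact gg_le le_rfl (S.cc_zero_of hss a1 (not_mem_so S.dual hne a1 a2) b1
    (not_mem_so S.dual hne' b1 b2))

/-- an excited private child: the reflection structure or a further excited child -/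
lemma rf_or {v z : P} (hv : v ∈ Sd) (tv : t v = 1) (c2 : (c v).card = 2) (ev : 1 ≤ e v)
    (cz : c z = {v}) (ez : 1 ≤ e z) (hR : ¬ ∃ y p, RF c c' t V Sd e y p) :
    ∃ q ∈ Sd, 1 ≤ e q ∧ ((t q = 2 ∧ v ∈ c q ∧ q ≠ z ∧ ∃ v', v' ≠ v ∧ c q = {v, v'} ∧ v' ∈ Sd ∧
      t v' = 1 ∧ 1 ≤ e v') ∨ (t q = 3 ∧ z ∈ c q)) := by
  have hz : z ∈ c' v := (S.dual _ _).1 (by rw [cz]; exact mem_singleton_self _)
  obtain ⟨mz, tz, -⟩ := S.chd (Or.inl hv) hz
  by_contra h
  push Not at h
  apply hR
  refine ⟨v, z, hv, mz, tv, by omega, cz, c2, ev, ez, ?_, ?_⟩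
  · intro q hq hqz
    by_contra h1
    obtain ⟨mq, tq, cq⟩ := S.chd (Or.inl hv) hq
    have h2 := (h q mq (by omega)).1 (by omega) cq hqz
    by_cases h3 : (c q).card = 2
    · obtain ⟨v', h4, h5⟩ := card_two_other h3 cq
      obtain ⟨q4, q5, q6⟩ := S.cov mq (by omega) (by omega)
        (show v' ∈ c q by rw [h5]; exact mem_insert_of_mem (mem_singleton_self _))
      have := h2 v' h4 h5 q4 (by omega)
      omega
    · have h4 := S.c2 q
      have h5 := (S.ne q mq).card_pos
      exact hqz (S.pd q mq z mz (by omega) (by omega) (by omega) ez (by omega)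
        (by rw [cz, card_singleton]) ⟨v, cq, c2⟩
        ⟨v, by rw [cz]; exact mem_singleton_self _, c2⟩)
  · intro q hq
    by_contra h1
    obtain ⟨mq, tq, cq⟩ := S.chd (Or.inl mz) hq
    exact (h q mq (by omega)).2 (by omega) cq

/-- a single positive near element -/
lemma single_near {x1 : P} (h1 : x1 ∈ Sd) (t1 : t x1 = 1)
    (hN : ∀ x ∈ Sd, t x = 1 → 0 < gg c c' e x → x = x1) (h4 : 4 ≤ ∑ z ∈ Sd, gg c c' e z) :
    ∃ y p, RF c c' t V Sd e y p := by
  have g1 := S.gg2 x1
  obtain ⟨w, hw, tw, gw⟩ : ∃ w ∈ Sd, t w = 2 ∧ 0 < gg c c' e w := by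
    by_contra h
    push Not at h
    have h2 := S.sum_le {x1} (by
      intro z hz hg
      rw [mem_singleton]
      rcases S.pos_t' hz hg with h3 | h3
      · exact hN z hz h3 hg
      · have := h z hz h3
        omega)
    rw [sum_singleton] at h2
    omega
  have g2 := S.gg2 w
  have hwx : x1 ≠ w := by rintro rfl; omega
  have h5 := S.sum_le {x1, w} (by
    intro z hz hg
    rw [mem_insert, mem_singleton]
    rcases S.pos_t' hz hg with h3 | h3
    · exact Or.inl (hN z hz h3 hg)
    · exact Or.inr (S.far_one hz hw h3 tw hg gw))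
  rw [sum_pair hwx] at h5
  obtain ⟨-, hx2⟩ := gg_pos (show 0 < gg c c' e x1 by omega)
  obtain ⟨k1, k2, -⟩ := S.pos_two h1 (show 0 < gg c c' e x1 by omega)
  obtain ⟨m1, m2, -⟩ := S.pos_two hw gw
  have ew := S.far_two hw tw gw
  have e1 := S.kl_e k2
  by_cases hin : x1 ∈ c w
  · exfalso
    obtain ⟨x', hne, hc⟩ := card_two_other m1 hin
    have hx' : x' ∈ c w := by rw [hc]; exact mem_insert_of_mem (mem_singleton_self _)
    obtain ⟨a, s, as, ux, sx', ax', ma, ms, ds⟩ :=
      S.common hw tw (by omega) hin hx' hne.symm k1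
    obtain ⟨q4, q5, q6⟩ := S.cov hw (by omega) (by omega) hx'
    have sx : s ∈ c x1 := by rw [ux]; exact mem_insert_of_mem (mem_singleton_self _)
    have key : ¬ (e s < e x1 ∧ e s < e x') := by
      rintro ⟨b1, b2⟩
      have := S.shared_one hne.symm sx sx' b1 b2
      omega
    obtain ⟨q, hq, hlt⟩ := m2
    rw [hc, mem_insert, mem_singleton] at hq
    rcases hq with rfl | rfl
    · have b1 := S.kd_all h1 ((S.dual _ _).1 hin) hlt s sx
      have b2 : ¬ e s < e x' := fun h => key ⟨b1, h⟩
      have b3 := S.kd_all q4 ((S.dual _ _).1 hx') (by omega) s sx'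
      omega
    · have b1 := S.kd_all q4 ((S.dual _ _).1 hx') hlt s sx'
      by_cases b2 : e x1 < e w
      · have b3 := S.kd_all h1 ((S.dual _ _).1 hin) b2 s sx
        exact key ⟨b3, b1⟩
      · exact key ⟨by omega, b1⟩
  · obtain ⟨x, x', hne, hc⟩ := card_eq_two.1 m1
    have hx : x ∈ c w := by rw [hc]; exact mem_insert_self _ _
    have hx' : x' ∈ c w := by rw [hc]; exact mem_insert_of_mem (mem_singleton_self _)
    obtain ⟨a4, a5, a6⟩ := S.cov hw (by omega) (by omega) hx
    obtain ⟨b4, b5, b6⟩ := S.cov hw (by omega) (by omega) hx'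
    obtain ⟨z, hz, ez⟩ := S.tch x1 h1 t1 e1
    obtain ⟨mz, tz, cz⟩ := S.chd (Or.inl h1) hz
    have hzw : z ≠ w := by
      rintro rfl
      exact hin cz
    have d1 : x1 ≠ x := by
      rintro rfl
      exact hin hx
    have d2 : x1 ≠ x' := by
      rintro rfl
      exact hin hx'
    have n1 : [w, x, x', x1, z].Nodup := by
      simp only [List.nodup_cons, List.mem_cons, List.not_mem_nil, or_false, not_or, List.nodup_nil,
        and_true, not_false_eq_true]
      and_intros
      all_goals first
        | assumption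
        | (apply Ne.symm; assumption)
        | (intro hnd; subst hnd; omega)
        | (intro hnd; rw [hnd] at *; omega)
    have n2 : ∀ z' ∈ [w, x, x', x1, z], z' ∈ Sd ∪ V := by
      simp only [List.forall_mem_cons, mem_union, List.not_mem_nil, false_imp_iff, implies_true,
        and_true]
      and_intros
      all_goals first
        | exact Or.inl (by assumption)
        | exact Or.inr (by assumption)
    have hE := S.en_list _ n1 n2
    simp only [List.map_cons, List.sum_cons, List.map_nil, List.sum_nil] at hE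
    have n3 : 6 ≤ ([w, x, x', x1, z].map e).sum := by
      simp only [List.map_cons, List.sum_cons, List.map_nil, List.sum_nil]
      omega
    have hV : ∀ s ∈ V, e s = 0 := by
      intro s hs
      have ts := S.tV s hs
      apply S.rest_zero n1 n2 n3 (mem_union_right _ hs)
      intro h5
      simp only [List.mem_cons, List.not_mem_nil, or_false] at h5
      rcases h5 with rfl | rfl | rfl | rfl | rfl <;> omega
    by_cases h3 : (c z).card = 2
    · exfalso
      obtain ⟨q, hq, hcq⟩ := card_two_other h3 cz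
      have hq' : q ∈ c z := by rw [hcq]; exact mem_insert_of_mem (mem_singleton_self _)
      obtain ⟨q4, q5, q6⟩ := S.cov mz (by omega) (by omega) hq'
      obtain ⟨a, s, as, ux, sx', ax', ma, ms, ds⟩ :=
        S.common mz (by omega) (by omega) cz hq' hq.symm k1
      have sx : s ∈ c x1 := by rw [ux]; exact mem_insert_of_mem (mem_singleton_self _)
      have := hV s ms
      have := S.shared_one hq.symm sx sx' (by omega) (by omega)
      omega
    · have h6 := S.c2 z
      have h7 := (S.ne z mz).card_pos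
      obtain ⟨y, hy⟩ := card_eq_one.1 (show (c z).card = 1 by omega)
      have hy2 : y = x1 := by
        rw [hy, mem_singleton] at cz
        exact cz.symm
      subst hy2
      refine ⟨y, z, h1, mz, t1, by omega, hy, k1, e1, ez, ?_, ?_⟩
      · intro q hq hqz
        obtain ⟨mq, tq, cq⟩ := S.chd (Or.inl h1) hq
        apply S.rest_zero n1 n2 n3 (mem_union_left _ mq)
        intro h5
        simp only [List.mem_cons, List.not_mem_nil, or_false] at h5
        rcases h5 with h5 | h5 | h5 | h5 | h5
        · subst h5; exact hin cq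
        · subst h5; omega
        · subst h5; omega
        · subst h5; omega
        · exact hqz h5
      · intro q hq
        obtain ⟨mq, tq, cq⟩ := S.chd (Or.inl mz) hq
        apply S.rest_zero n1 n2 n3 (mem_union_left _ mq)
        intro h5
        simp only [List.mem_cons, List.not_mem_nil, or_false] at h5
        rcases h5 with rfl | rfl | rfl | rfl | rfl <;> omega

end OS

end Pool.Agent.GaussPoset.Win.So

end

/-! From `Pool.Agent.W_448so_h63.DE` -/

section

/-!
Classification of the cores of S9 (row 476), one side of the window: a third positive near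
element beside a joined pair.
-/

set_option autoImplicit false

namespace Pool.Agent.GaussPoset.Win.So

set_option linter.unusedSectionVars false

open Finset I2

universe u

variable {P : Type u} [DecidableEq P]

variable {c c' : P → Finset P} {e : P → ℕ} {t : P → ℕ} {V Sd : Finset P}

namespace OS

variable (S : OS c c' t V Sd e)

include S

lemma sites_zero {l : List P} (n1 : l.Nodup) (n2 : ∀ z ∈ l, z ∈ Sd ∪ V)
    (n3 : 6 ≤ (l.map e).sum) (hl : ∀ z ∈ l, 1 ≤ t z) : ∀ s ∈ V, e s = 0 := by
  intro s hs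
  have ts := S.tV s hs
  apply S.rest_zero n1 n2 n3 (mem_union_right _ hs)
  intro h5
  have := hl s h5
  omega

lemma no_share {w x x' a s b v s' : P} (T : TT c c' t V Sd w x x' a s b) (ex : 1 ≤ e x)
    (ex' : 1 ≤ e x') (ev : 1 ≤ e v) (vx : v ≠ x) (vx' : v ≠ x') (hs : e s = 0) (hs' : e s' = 0)
    (h1 : s' ∈ c x) (h2 : s' ∈ c v) : gg c c' e x ≤ 0 := by
  have h3 : s ≠ s' := by
    rintro rfl
    have h4 : v ∈ c' s := (S.dual _ _).1 h2
    rw [T.ds, mem_insert, mem_singleton] at h4
    rcases h4 with h4 | h4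
    · exact vx h4
    · exact vx' h4
  exact S.shared_two h3 T.xx' vx.symm T.sx T.sx' (by omega) (by omega) h1 h2 (by omega) (by omega)

lemma third_ii1 {w x x' a s b v z : P} (T : TT c c' t V Sd w x x' a s b) (ew : 1 ≤ e w)
    (gx : 0 < gg c c' e x) (gx' : 0 < gg c c' e x') (hv : v ∈ Sd) (tv : t v = 1)
    (gv : 0 < gg c c' e v) (vx : v ≠ x) (vx' : v ≠ x') (mz : z ∈ Sd) (tz : t z = 2)
    (ez : 1 ≤ e z) (cz : c z = {v, x}) :
    ∑ z ∈ Sd, gg c c' e z ≤ 5 ∧ Out c c' t V Sd e := by
  have mw := T.mw
  have mx := T.mx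
  have mx' := T.mx'
  have ms := T.ms
  have tw := T.tw
  have tx := T.tx
  have tx' := T.tx'
  have xx' := T.xx'
  have ts := S.tV s T.ms
  obtain ⟨v1, v2, -⟩ := S.pos_two hv gv
  obtain ⟨x1, x2, -⟩ := S.pos_two mx gx
  obtain ⟨y1, y2, -⟩ := S.pos_two mx' gx'
  have ev := S.kl_e v2
  have ex := S.kl_e x2
  have ex' := S.kl_e y2
  have hvz : v ∈ c z := by rw [cz]; exact mem_insert_self _ _
  have hxz : x ∈ c z := by rw [cz]; exact mem_insert_of_mem (mem_singleton_self _)
  have hzw : z ≠ w := by
    rintro rfl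
    rw [T.uw, mem_insert, mem_singleton] at hvz
    rcases hvz with h | h
    · exact vx h
    · exact vx' h
  obtain ⟨a1, s1, as1, ux1, sv, av, ma1, ms1, ds1⟩ := S.common mz tz ez hxz hvz vx.symm x1
  have ts1 := S.tV s1 ms1
  have sx1 : s1 ∈ c x := by rw [ux1]; exact mem_insert_of_mem (mem_singleton_self _)
  have hss : s ≠ s1 := by
    rintro rfl
    have h4 : v ∈ c' s := (S.dual _ _).1 sv
    rw [T.ds, mem_insert, mem_singleton] at h4
    rcases h4 with h4 | h4
    · exact vx h4
    · exact vx' h4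
  have n1 : [w, x, x', v, z].Nodup := by
    simp only [List.nodup_cons, List.mem_cons, List.not_mem_nil, or_false, not_or, List.nodup_nil,
      and_true, not_false_eq_true]
    and_intros
    all_goals first
      | assumption
      | (apply Ne.symm; assumption)
      | (intro hnd; subst hnd; omega)
      | (intro hnd; rw [hnd] at *; omega)
  have n2 : ∀ z' ∈ [w, x, x', v, z], z' ∈ Sd ∪ V := by
    simp only [List.forall_mem_cons, mem_union, List.not_mem_nil, false_imp_iff, implies_true,
      and_true]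
    and_intros
    all_goals first
      | exact Or.inl (by assumption)
      | exact Or.inr (by assumption)
  have hE := S.en_list _ n1 n2
  simp only [List.map_cons, List.sum_cons, List.map_nil, List.sum_nil] at hE
  by_cases hk : e w ≤ e x ∧ e w ≤ e x'
  swap
  · exfalso
    have n3 : 6 ≤ ([w, x, x', v, z].map e).sum := by
      simp only [List.map_cons, List.sum_cons, List.map_nil, List.sum_nil]
      omega
    have hV := S.sites_zero n1 n2 n3 (by
      simp only [List.forall_mem_cons, List.not_mem_nil, false_imp_iff, implies_true, and_true]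
      omega)
    have := S.no_share T ex ex' ev vx vx' (hV s ms) (hV s1 ms1) sx1 sv
    omega
  by_cases hB : e x ≤ e s ∨ e x' ≤ e s
  · have n4 : [w, x, x', v, z, s].Nodup := by
      simp only [List.nodup_cons, List.mem_cons, List.not_mem_nil, or_false, not_or, List.nodup_nil,
        and_true, not_false_eq_true]
      and_intros
      all_goals first
        | assumption
        | (apply Ne.symm; assumption)
        | (intro hnd; subst hnd; omega)
        | (intro hnd; rw [hnd] at *; omega)
    have n5 : ∀ z' ∈ [w, x, x', v, z, s], z' ∈ Sd ∪ V := by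
      simp only [List.forall_mem_cons, mem_union, List.not_mem_nil, false_imp_iff, implies_true,
        and_true]
      and_intros
      all_goals first
        | exact Or.inl (by assumption)
        | exact Or.inr (by assumption)
    have n6 : 6 ≤ ([w, x, x', v, z, s].map e).sum := by
      simp only [List.map_cons, List.sum_cons, List.map_nil, List.sum_nil]
      omega
    have hE := S.en_list _ n4 n5
    simp only [List.map_cons, List.sum_cons, List.map_nil, List.sum_nil] at hE
    have hs1 : e s1 = 0 := by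
      apply S.rest_zero n4 n5 n6 (mem_union_right _ ms1)
      intro h5
      simp only [List.mem_cons, List.not_mem_nil, or_false] at h5
      rcases h5 with h5 | h5 | h5 | h5 | h5 | h5
      · subst h5; omega
      · subst h5; omega
      · subst h5; omega
      · subst h5; omega
      · subst h5; omega
      · exact hss h5.symm
    refine ⟨?_, Or.inl ⟨w, x, x', a, s, b, S.stateB T ew gx gx' hk.1 hk.2 hB⟩⟩
    have hF := S.sum_le {x, x', v} (by
      intro q hq hg
      obtain ⟨-, ⟨q1, q2, q3⟩, -⟩ := S.pos_two hq hg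
      have q4 := S.rest_pos n4 n5 n6 (mem_union_left _ hq) (by omega)
      simp only [List.mem_cons, List.not_mem_nil, or_false] at q4
      simp only [mem_insert, mem_singleton]
      rcases q4 with h5 | h5 | h5 | h5 | h5 | h5
      · subst h5
        obtain ⟨-, -, q5⟩ := S.cov hq (by omega) (by omega) q2
        omega
      · exact Or.inl h5
      · exact Or.inr (Or.inl h5)
      · exact Or.inr (Or.inr h5)
      · subst h5
        obtain ⟨-, -, q5⟩ := S.cov hq (by omega) (by omega) q2
        omega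
      · subst h5
        exact absurd ms (S.disj hq))
    rw [sum_insert (by simp only [mem_insert, mem_singleton, not_or]; exact ⟨xx', vx.symm⟩),
      sum_pair vx'.symm] at hF
    have g1 := S.shared_one vx.symm sx1 sv (by omega) (by omega)
    have g2 := S.shared_one vx sv sx1 (by omega) (by omega)
    have g3 := S.gg2 x'
    omega
  · push Not at hB
    have hs1 : 1 ≤ e s1 := by
      by_contra h5
      have := S.shared_two hss T.xx' vx.symm T.sx T.sx' (by omega) (by omega) sx1 sv
        (by omega) (by omega)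
      omega
    have n4 : [w, x, x', v, z, s1].Nodup := by
      simp only [List.nodup_cons, List.mem_cons, List.not_mem_nil, or_false, not_or, List.nodup_nil,
        and_true, not_false_eq_true]
      and_intros
      all_goals first
        | assumption
        | (apply Ne.symm; assumption)
        | (intro hnd; subst hnd; omega)
        | (intro hnd; rw [hnd] at *; omega)
    have n5 : ∀ z' ∈ [w, x, x', v, z, s1], z' ∈ Sd ∪ V := by
      simp only [List.forall_mem_cons, mem_union, List.not_mem_nil, false_imp_iff, implies_true,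
        and_true]
      and_intros
      all_goals first
        | exact Or.inl (by assumption)
        | exact Or.inr (by assumption)
    have n6 : 6 ≤ ([w, x, x', v, z, s1].map e).sum := by
      simp only [List.map_cons, List.sum_cons, List.map_nil, List.sum_nil]
      omega
    have hE := S.en_list _ n4 n5
    simp only [List.map_cons, List.sum_cons, List.map_nil, List.sum_nil] at hE
    obtain ⟨a2, s2, b2, T2⟩ := S.mkTT mz tz ez cz vx v1 x1
    have hs2 : s2 = s1 := by
      have h5 := T2.sx'
      rw [ux1, mem_insert, mem_singleton] at h5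
      rcases h5 with h5 | h5
      · exact absurd (h5 ▸ T2.sx) av
      · exact h5
    refine ⟨?_, Or.inl ⟨z, v, x, a2, s2, b2, S.stateB T2 ez gv gx (by omega) (by omega)
      (by rw [hs2]; omega)⟩⟩
    have hF := S.sum_le {x, x', v} (by
      intro q hq hg
      obtain ⟨-, ⟨q1, q2, q3⟩, -⟩ := S.pos_two hq hg
      have q4 := S.rest_pos n4 n5 n6 (mem_union_left _ hq) (by omega)
      simp only [List.mem_cons, List.not_mem_nil, or_false] at q4
      simp only [mem_insert, mem_singleton]
      rcases q4 with h5 | h5 | h5 | h5 | h5 | h5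
      · subst h5
        obtain ⟨-, -, q5⟩ := S.cov hq (by omega) (by omega) q2
        omega
      · exact Or.inl h5
      · exact Or.inr (Or.inl h5)
      · exact Or.inr (Or.inr h5)
      · subst h5
        obtain ⟨-, -, q5⟩ := S.cov hq (by omega) (by omega) q2
        omega
      · subst h5
        exact absurd ms1 (S.disj hq))
    rw [sum_insert (by simp only [mem_insert, mem_singleton, not_or]; exact ⟨xx', vx.symm⟩),
      sum_pair vx'.symm] at hF
    have g1 := S.shared_one xx' T.sx T.sx' (by omega) (by omega)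
    have g2 := S.shared_one xx'.symm T.sx' T.sx (by omega) (by omega)
    have g3 := S.gg2 v
    omega

lemma third_ii2 {w x x' a s b v v' z : P} (T : TT c c' t V Sd w x x' a s b) (ew : 1 ≤ e w)
    (gx : 0 < gg c c' e x) (gx' : 0 < gg c c' e x') (h4 : 4 ≤ ∑ z ∈ Sd, gg c c' e z)
    (hv : v ∈ Sd) (tv : t v = 1)
    (gv : 0 < gg c c' e v) (vx : v ≠ x) (vx' : v ≠ x') (mz : z ∈ Sd) (tz : t z = 2)
    (ez : 1 ≤ e z) (cz : c z = {v, v'}) (vv' : v ≠ v') (v'x : v' ≠ x) (v'x' : v' ≠ x') :
    ∑ z ∈ Sd, gg c c' e z ≤ 5 ∧ Out c c' t V Sd e := by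
  have mw := T.mw
  have mx := T.mx
  have mx' := T.mx'
  have ms := T.ms
  have tw := T.tw
  have tx := T.tx
  have tx' := T.tx'
  have xx' := T.xx'
  have ts := S.tV s T.ms
  obtain ⟨v1, v2, -⟩ := S.pos_two hv gv
  obtain ⟨x1, x2, -⟩ := S.pos_two mx gx
  obtain ⟨y1, y2, -⟩ := S.pos_two mx' gx'
  have ev := S.kl_e v2
  have ex := S.kl_e x2
  have ex' := S.kl_e y2
  have hvz : v ∈ c z := by rw [cz]; exact mem_insert_self _ _
  have hvz' : v' ∈ c z := by rw [cz]; exact mem_insert_of_mem (mem_singleton_self _)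
  obtain ⟨mv', tv', ev'⟩ := S.cov mz (by omega) ez hvz'
  have hzw : z ≠ w := by
    rintro rfl
    rw [T.uw, mem_insert, mem_singleton] at hvz
    rcases hvz with h | h
    · exact vx h
    · exact vx' h
  have n1 : [w, x, x', z, v, v'].Nodup := by
    simp only [List.nodup_cons, List.mem_cons, List.not_mem_nil, or_false, not_or, List.nodup_nil,
      and_true, not_false_eq_true]
    and_intros
    all_goals first
      | assumption
      | (apply Ne.symm; assumption)
      | (intro hnd; subst hnd; omega)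
      | (intro hnd; rw [hnd] at *; omega)
  have n2 : ∀ z' ∈ [w, x, x', z, v, v'], z' ∈ Sd ∪ V := by
    simp only [List.forall_mem_cons, mem_union, List.not_mem_nil, false_imp_iff, implies_true,
      and_true]
    and_intros
    all_goals first
      | exact Or.inl (by assumption)
      | exact Or.inr (by assumption)
  have hE := S.en_list _ n1 n2
  have n3 : 6 ≤ ([w, x, x', z, v, v'].map e).sum := by
    simp only [List.map_cons, List.sum_cons, List.map_nil, List.sum_nil]
    omega
  simp only [List.map_cons, List.sum_cons, List.map_nil, List.sum_nil] at hE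
  have hV := S.sites_zero n1 n2 n3 (by
    simp only [List.forall_mem_cons, List.not_mem_nil, false_imp_iff, implies_true, and_true]
    omega)
  have hF := S.sum_le {x, x', v, v'} (by
    intro q hq hg
    obtain ⟨-, ⟨q1, q2, q3⟩, -⟩ := S.pos_two hq hg
    have q4 := S.rest_pos n1 n2 n3 (mem_union_left _ hq) (by omega)
    simp only [List.mem_cons, List.not_mem_nil, or_false] at q4
    simp only [mem_insert, mem_singleton]
    rcases q4 with h5 | h5 | h5 | h5 | h5 | h5
    · subst h5
      obtain ⟨-, -, q5⟩ := S.cov hq (by omega) (by omega) q2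
      omega
    · exact Or.inl h5
    · exact Or.inr (Or.inl h5)
    · subst h5
      obtain ⟨-, -, q5⟩ := S.cov hq (by omega) (by omega) q2
      omega
    · exact Or.inr (Or.inr (Or.inl h5))
    · exact Or.inr (Or.inr (Or.inr h5)))
  rw [sum_insert (by
      simp only [mem_insert, mem_singleton, not_or]
      exact ⟨xx', vx.symm, v'x.symm⟩),
    sum_insert (by
      simp only [mem_insert, mem_singleton, not_or]
      exact ⟨vx'.symm, v'x'.symm⟩),
    sum_pair vv'] at hF
  obtain ⟨a1, s1, as1, ux1, sv, av, ma1, ms1, ds1⟩ := S.common mz tz ez hvz hvz' vv' v1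
  have sv1 : s1 ∈ c v := by rw [ux1]; exact mem_insert_of_mem (mem_singleton_self _)
  have e0 := hV s ms
  have e1 := hV s1 ms1
  have g1 := S.shared_one xx' T.sx T.sx' (by omega) (by omega)
  have g2 := S.shared_one xx'.symm T.sx' T.sx (by omega) (by omega)
  have g3 := S.shared_one vv' sv1 sv (by omega) (by omega)
  have g4 := S.shared_one vv'.symm sv sv1 (by omega) (by omega)
  refine ⟨by omega, ?_⟩
  obtain ⟨v3, -, -⟩ := S.pos_two mv' (show 0 < gg c c' e v' by omega)
  obtain ⟨a2, s2, b2, T2⟩ := S.mkTT mz tz ez cz vv' v1 v3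
  refine Or.inr (Or.inr (Or.inr ⟨w, x, x', a, s, b, z, v, v', a2, s2, b2, T, T2, ?_, ?_⟩))
  · rw [Finset.disjoint_left]
    intro q hq hq'
    have k1 : q ∈ c x ∨ q ∈ c x' := by
      simp only [mem_insert, mem_singleton] at hq
      rcases hq with rfl | rfl | rfl
      · exact Or.inl T.ax
      · exact Or.inl T.sx
      · exact Or.inr T.bx'
    have k2 : q ∈ c v ∨ q ∈ c v' := by
      simp only [mem_insert, mem_singleton] at hq'
      rcases hq' with rfl | rfl | rfl
      · exact Or.inl T2.ax
      · exact Or.inl T2.sx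
      · exact Or.inr T2.bx'
    have k3 : e q = 0 := by
      rcases k1 with k1 | k1
      · exact hV q (S.site mx tx k1).1
      · exact hV q (S.site mx' tx' k1).1
    rcases k1 with k1 | k1 <;> rcases k2 with k2 | k2
    · have := S.no_share T ex ex' ev vx vx' e0 k3 k1 k2
      omega
    · have := S.no_share T ex ex' ev' v'x v'x' e0 k3 k1 k2
      omega
    · have := S.no_share T.symm ex' ex ev vx' vx e0 k3 k1 k2
      omega
    · have := S.no_share T.symm ex' ex ev' v'x' v'x e0 k3 k1 k2
      omega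
  · refine ⟨n1, ?_⟩
    simp only [List.forall_mem_cons, List.not_mem_nil, false_imp_iff, implies_true, and_true]
    exact ⟨ew, ex, ex', ez, ev, ev'⟩

lemma third_i {w x x' a s b v z : P} (T : TT c c' t V Sd w x x' a s b) (ew : 1 ≤ e w)
    (gx : 0 < gg c c' e x) (gx' : 0 < gg c c' e x')
    (hv : v ∈ Sd) (tv : t v = 1)
    (gv : 0 < gg c c' e v) (vx : v ≠ x) (vx' : v ≠ x') (mz : z ∈ Sd) (tz : t z = 2)
    (ez : 1 ≤ e z) (cz : c z = {v}) (hR : ¬ ∃ y p, RF c c' t V Sd e y p) :
    ∑ z ∈ Sd, gg c c' e z ≤ 5 ∧ Out c c' t V Sd e := by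
  have mw := T.mw
  have mx := T.mx
  have mx' := T.mx'
  have ms := T.ms
  have tw := T.tw
  have tx := T.tx
  have tx' := T.tx'
  have xx' := T.xx'
  have ts := S.tV s T.ms
  obtain ⟨v1, v2, -⟩ := S.pos_two hv gv
  obtain ⟨x1, x2, -⟩ := S.pos_two mx gx
  obtain ⟨y1, y2, -⟩ := S.pos_two mx' gx'
  have ev := S.kl_e v2
  have ex := S.kl_e x2
  have ex' := S.kl_e y2
  have hvw : v ∉ c w := by
    rw [T.uw, mem_insert, mem_singleton]
    rintro (h | h)
    · exact vx h
    · exact vx' h
  have hvz : v ∈ c z := by rw [cz]; exact mem_singleton_self _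
  have hzw : z ≠ w := by
    rintro rfl
    exact hvw hvz
  obtain ⟨q, mq, eq, hq⟩ := S.rf_or hv tv v1 ev cz ez hR
  have hqz : q ≠ z := by
    rcases hq with ⟨-, -, h, -⟩ | ⟨h, -⟩
    · exact h
    · rintro rfl
      omega
  have hqw : q ≠ w := by
    rcases hq with ⟨-, h, -, -⟩ | ⟨h, -⟩
    · rintro rfl
      exact hvw h
    · rintro rfl
      omega
  have tq : t q = 2 ∨ t q = 3 := by
    rcases hq with ⟨h, -⟩ | ⟨h, -⟩
    · exact Or.inl h
    · exact Or.inr h
  have n1 : [w, x, x', q, z, v].Nodup := by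
    simp only [List.nodup_cons, List.mem_cons, List.not_mem_nil, or_false, not_or, List.nodup_nil,
      and_true, not_false_eq_true]
    and_intros
    all_goals first
      | assumption
      | (apply Ne.symm; assumption)
      | (intro hnd; subst hnd; omega)
      | (intro hnd; rw [hnd] at *; omega)
  have n2 : ∀ z' ∈ [w, x, x', q, z, v], z' ∈ Sd ∪ V := by
    simp only [List.forall_mem_cons, mem_union, List.not_mem_nil, false_imp_iff, implies_true,
      and_true]
    and_intros
    all_goals first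
      | exact Or.inl (by assumption)
      | exact Or.inr (by assumption)
  have hE := S.en_list _ n1 n2
  have n3 : 6 ≤ ([w, x, x', q, z, v].map e).sum := by
    simp only [List.map_cons, List.sum_cons, List.map_nil, List.sum_nil]
    omega
  simp only [List.map_cons, List.sum_cons, List.map_nil, List.sum_nil] at hE
  have hV := S.sites_zero n1 n2 n3 (by
    simp only [List.forall_mem_cons, List.not_mem_nil, false_imp_iff, implies_true, and_true]
    omega)
  have e0 := hV s ms
  rcases hq with ⟨tq, hvq, -, v', hv', cq, mv', tv', ev'⟩ | ⟨tq, hzq⟩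
  · exfalso
    have hv'q : v' ∈ c q := by rw [cq]; exact mem_insert_of_mem (mem_singleton_self _)
    obtain ⟨a1, s1, as1, ux1, sv, av, ma1, ms1, ds1⟩ := S.common mq tq (by omega) hvq hv'q hv'.symm v1
    have sv1 : s1 ∈ c v := by rw [ux1]; exact mem_insert_of_mem (mem_singleton_self _)
    have q4 := S.rest_pos n1 n2 n3 (mem_union_left _ mv') ev'
    simp only [List.mem_cons, List.not_mem_nil, or_false] at q4
    rcases q4 with h5 | h5 | h5 | h5 | h5 | h5
    · subst h5; omega
    · subst h5
      have := S.no_share T ex ex' ev vx vx' e0 (hV s1 ms1) sv sv1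
      omega
    · subst h5
      have := S.no_share T.symm ex' ex ev vx' vx e0 (hV s1 ms1) sv sv1
      omega
    · subst h5; omega
    · subst h5; omega
    · exact hv' h5
  · have hF := S.sum_le {x, x', v} (by
      intro q' hq' hg
      obtain ⟨-, ⟨q1, q2, q3⟩, -⟩ := S.pos_two hq' hg
      have q4 := S.rest_pos n1 n2 n3 (mem_union_left _ hq') (by omega)
      simp only [List.mem_cons, List.not_mem_nil, or_false] at q4
      simp only [mem_insert, mem_singleton]
      rcases q4 with h5 | h5 | h5 | h5 | h5 | h5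
      · subst h5
        obtain ⟨-, -, q5⟩ := S.cov hq' (by omega) (by omega) q2
        omega
      · exact Or.inl h5
      · exact Or.inr (Or.inl h5)
      · subst h5
        obtain ⟨-, -, q5⟩ := S.cov hq' (by omega) (by omega) q2
        omega
      · subst h5
        obtain ⟨-, -, q5⟩ := S.cov hq' (by omega) (by omega) q2
        omega
      · exact Or.inr (Or.inr h5))
    rw [sum_insert (by simp only [mem_insert, mem_singleton, not_or]; exact ⟨xx', vx.symm⟩),
      sum_pair vx'.symm] at hF
    have g1 := S.shared_one xx' T.sx T.sx' (by omega) (by omega)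
    have g2 := S.shared_one xx'.symm T.sx' T.sx (by omega) (by omega)
    have g3 := S.gg2 v
    refine ⟨by omega, Or.inr (Or.inr (Or.inl ⟨w, x, x', a, s, b, q, z, v, T, hv, mz, mq, tv, tz, tq,
      v1, cz, ?_, ?_, ?_⟩))⟩
    · by_cases hc : (c q).card = 2
      · right
        obtain ⟨q', h6, h7⟩ := card_two_other hc hzq
        have h8 : q' ∈ c q := by rw [h7]; exact mem_insert_of_mem (mem_singleton_self _)
        obtain ⟨r1, r2, r3⟩ := S.cov mq (by omega) (by omega) h8
        have q4 := S.rest_pos n1 n2 n3 (mem_union_left _ r1) r3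
        simp only [List.mem_cons, List.not_mem_nil, or_false] at q4
        rcases q4 with h5 | h5 | h5 | h5 | h5 | h5
        · rw [h7, h5]
        · subst h5; omega
        · subst h5; omega
        · subst h5; omega
        · exact absurd h5 h6
        · subst h5; omega
      · left
        have h6 := S.c2 q
        have h7 := (S.ne q mq).card_pos
        obtain ⟨y, hy⟩ := card_eq_one.1 (show (c q).card = 1 by omega)
        rw [hy, mem_singleton] at hzq
        rw [hy, hzq]
    · rw [Finset.disjoint_left]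
      intro q' hq hq'
      have k1 : q' ∈ c x ∨ q' ∈ c x' := by
        simp only [mem_insert, mem_singleton] at hq
        rcases hq with rfl | rfl | rfl
        · exact Or.inl T.ax
        · exact Or.inl T.sx
        · exact Or.inr T.bx'
      have k3 := hV q' (S.site hv tv hq').1
      rcases k1 with k1 | k1
      · have := S.no_share T ex ex' ev vx vx' e0 k3 k1 hq'
        omega
      · have := S.no_share T.symm ex' ex ev vx' vx e0 k3 k1 hq'
        omega
    · refine ⟨n1, ?_⟩
      simp only [List.forall_mem_cons, List.not_mem_nil, false_imp_iff, implies_true, and_true]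
      exact ⟨ew, ex, ex', eq, ez, ev⟩

/-- a third positive near element beside a joined pair -/
theorem third {w x x' a s b v : P} (T : TT c c' t V Sd w x x' a s b) (ew : 1 ≤ e w)
    (gx : 0 < gg c c' e x) (gx' : 0 < gg c c' e x') (h4 : 4 ≤ ∑ z ∈ Sd, gg c c' e z)
    (hv : v ∈ Sd) (tv : t v = 1) (gv : 0 < gg c c' e v) (vx : v ≠ x) (vx' : v ≠ x')
    (hR : ¬ ∃ y p, RF c c' t V Sd e y p) :
    ∑ z ∈ Sd, gg c c' e z ≤ 5 ∧ Out c c' t V Sd e := by
  obtain ⟨v1, v2, -⟩ := S.pos_two hv gv
  obtain ⟨z, hz, ez⟩ := S.tch v hv tv (S.kl_e v2)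
  obtain ⟨mz, tz, cz⟩ := S.chd (Or.inl hv) hz
  by_cases h2 : (c z).card = 2
  · obtain ⟨v', hne, hc⟩ := card_two_other h2 cz
    by_cases h5 : v' = x
    · subst h5
      exact S.third_ii1 T ew gx gx' hv tv gv vx vx' mz (by omega) ez hc
    · by_cases h6 : v' = x'
      · subst h6
        exact S.third_ii1 T.symm ew gx' gx hv tv gv vx' vx mz (by omega) ez hc
      · exact S.third_ii2 T ew gx gx' h4 hv tv gv vx vx' mz (by omega) ez hc hne.symm h5 h6
  · have h6 := S.c2 z
    have h7 := (S.ne z mz).card_pos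
    obtain ⟨y, hy⟩ := card_eq_one.1 (show (c z).card = 1 by omega)
    have hy2 : y = v := by
      rw [hy, mem_singleton] at cz
      exact cz.symm
    subst hy2
    exact S.third_i T ew gx gx' hv tv gv vx vx' mz (by omega) ez hy hR

end OS

end Pool.Agent.GaussPoset.Win.So

end

/-! From `Pool.Agent.W_448so_h63.DF` -/

section

/-!
Classification of the cores of S9 (row 476), one side of the window: the one-sided theorem.
-/

set_option autoImplicit false

namespace Pool.Agent.GaussPoset.Win.So

set_option linter.unusedSectionVars false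

open Finset I2

universe u

variable {P : Type u} [DecidableEq P]

variable {c c' : P → Finset P} {e : P → ℕ} {t : P → ℕ} {V Sd : Finset P}

namespace OS

variable (S : OS c c' t V Sd e)

include S

/-- both near elements above a killer kill the common site -/
lemma stateA_s {w x x' a s b : P} (T : TT c c' t V Sd w x x' a s b) (h : e x < e w) :
    e s < e x ∧ e s < e x' := by
  have k1 := S.kd_all T.mx ((S.dual _ _).1 T.xw) h s T.sx
  refine ⟨k1, ?_⟩
  by_contra h5
  have := S.kd_all T.mx' ((S.dual _ _).1 T.xw') (by omega) s T.sx'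
  omega

theorem joined_pair {w x x' a s b : P} (T : TT c c' t V Sd w x x' a s b) (ew : 1 ≤ e w)
    (gx : 0 < gg c c' e x) (gx' : 0 < gg c c' e x') (h4 : 4 ≤ ∑ z ∈ Sd, gg c c' e z)
    (hR : ¬ ∃ y p, RF c c' t V Sd e y p) :
    ∑ z ∈ Sd, gg c c' e z ≤ 5 ∧ Out c c' t V Sd e := by
  have mw := T.mw
  have mx := T.mx
  have mx' := T.mx'
  have ms := T.ms
  have tw := T.tw
  have tx := T.tx
  have tx' := T.tx'
  have xx' := T.xx'
  have ts := S.tV s T.ms
  obtain ⟨x1, x2, -⟩ := S.pos_two mx gx
  obtain ⟨y1, y2, -⟩ := S.pos_two mx' gx'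
  have ex := S.kl_e x2
  have ex' := S.kl_e y2
  by_cases hN : ∃ v ∈ Sd, t v = 1 ∧ 0 < gg c c' e v ∧ v ≠ x ∧ v ≠ x'
  · obtain ⟨v, hv, tv, gv, vx, vx'⟩ := hN
    exact S.third T ew gx gx' h4 hv tv gv vx vx' hR
  have hN' : ∀ v ∈ Sd, t v = 1 → 0 < gg c c' e v → v = x ∨ v = x' := by
    intro v hv tv gv
    by_contra h5
    rw [not_or] at h5
    exact hN ⟨v, hv, tv, gv, h5.1, h5.2⟩
  by_cases hF : ∃ v ∈ Sd, t v = 2 ∧ 0 < gg c c' e v
  · obtain ⟨v, hv, tv, gv⟩ := hF
    have ev := S.far_two hv tv gv
    obtain ⟨v1, v2, -⟩ := S.pos_two hv gv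
    have hs := S.sum_le {x, x', v} (by
      intro q hq hg
      simp only [mem_insert, mem_singleton]
      rcases S.pos_t' hq hg with h6 | h6
      · rcases hN' q hq h6 hg with h7 | h7
        · exact Or.inl h7
        · exact Or.inr (Or.inl h7)
      · exact Or.inr (Or.inr (S.far_one hq hv h6 tv hg gv)))
    have hxv : x ≠ v := by rintro rfl; omega
    have hxv' : x' ≠ v := by rintro rfl; omega
    rw [sum_insert (by simp only [mem_insert, mem_singleton, not_or]; exact ⟨xx', hxv⟩),
      sum_pair hxv'] at hs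
    have gv2 := S.gg2 v
    by_cases hvw : v = w
    · subst hvw
      have key : e s < e x ∧ e s < e x' := by
        obtain ⟨q, hq, hlt⟩ := v2
        rw [T.uw, mem_insert, mem_singleton] at hq
        rcases hq with rfl | rfl
        · exact S.stateA_s T hlt
        · exact (S.stateA_s T.symm hlt).symm
      have g1 := S.shared_one xx' T.sx T.sx' key.1 key.2
      have g2 := S.shared_one xx'.symm T.sx' T.sx key.2 key.1
      refine ⟨by omega, ?_⟩
      obtain ⟨q, hq, hlt⟩ := v2
      rw [T.uw, mem_insert, mem_singleton] at hq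
      rcases hq with rfl | rfl
      · rcases S.stateA T ex ex' h4 hlt with h | ⟨z, h⟩
        · exact Or.inl ⟨_, _, _, _, _, _, h⟩
        · exact Or.inr (Or.inl ⟨_, _, _, _, _, _, z, T, by omega, by omega, h⟩)
      · rcases S.stateA T.symm ex' ex h4 hlt with h | ⟨z, h⟩
        · exact Or.inl ⟨_, _, _, _, _, _, h⟩
        · exact Or.inr (Or.inl ⟨_, _, _, _, _, _, z, T.symm, by omega, by omega, h⟩)
    · exfalso
      obtain ⟨x3, h31, h32, h33⟩ : ∃ x3 ∈ c v, x3 ≠ x ∧ x3 ≠ x' := by
        by_contra h5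
        push Not at h5
        have h6 : c v ⊆ {x, x'} := by
          intro q hq
          rw [mem_insert, mem_singleton]
          by_cases h7 : q = x
          · exact Or.inl h7
          · exact Or.inr (h5 q hq h7)
        have h7 : c v = {x, x'} := by
          apply Finset.eq_of_subset_of_card_le h6
          rw [card_pair xx']
          omega
        have h8 : x ∈ c v := by rw [h7]; exact mem_insert_self _ _
        have h9 : x' ∈ c v := by rw [h7]; exact mem_insert_of_mem (mem_singleton_self _)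
        exact hvw (S.nc x mx x' mx' xx' tx tx' x1 y1 v w ((S.dual _ _).1 h8) ((S.dual _ _).1 h9)
          ((S.dual _ _).1 T.xw) ((S.dual _ _).1 T.xw') (by omega) ew)
      obtain ⟨x4, h41, h42⟩ := card_two_other v1 h31
      have h43 : x4 ∈ c v := by rw [h42]; exact mem_insert_of_mem (mem_singleton_self _)
      obtain ⟨a4, a5, a6⟩ := S.cov hv (by omega) (by omega) h31
      obtain ⟨b4, b5, b6⟩ := S.cov hv (by omega) (by omega) h43
      have n1 : [w, v, x, x', x3].Nodup := by
        simp only [List.nodup_cons, List.mem_cons, List.not_mem_nil, or_false, not_or, List.nodup_nil,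
          and_true, not_false_eq_true]
        and_intros
        all_goals first
          | assumption
          | (apply Ne.symm; assumption)
          | (intro hnd; subst hnd; omega)
          | (intro hnd; rw [hnd] at *; omega)
      have n2 : ∀ z' ∈ [w, v, x, x', x3], z' ∈ Sd ∪ V := by
        simp only [List.forall_mem_cons, mem_union, List.not_mem_nil, false_imp_iff, implies_true,
          and_true]
        and_intros
        all_goals first
          | exact Or.inl (by assumption)
          | exact Or.inr (by assumption)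
      have hE := S.en_list _ n1 n2
      have n3 : 6 ≤ ([w, v, x, x', x3].map e).sum := by
        simp only [List.map_cons, List.sum_cons, List.map_nil, List.sum_nil]
        omega
      simp only [List.map_cons, List.sum_cons, List.map_nil, List.sum_nil] at hE
      have hV := S.sites_zero n1 n2 n3 (by
        simp only [List.forall_mem_cons, List.not_mem_nil, false_imp_iff, implies_true, and_true]
        omega)
      have e0 := hV s ms
      have q4 := S.rest_pos n1 n2 n3 (mem_union_left _ b4) b6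
      simp only [List.mem_cons, List.not_mem_nil, or_false] at q4
      have key : ∀ {x x' a b : P}, TT c c' t V Sd w x x' a s b → x ∈ c v → (c x).card = 2 →
          1 ≤ e x → 1 ≤ e x' → x3 ≠ x → x3 ≠ x' → gg c c' e x ≤ 0 := by
        intro x x' a b T h1 h2 h3 h3' h4 h5
        obtain ⟨a1, s1, as1, ux1, sv, av, ma1, ms1, ds1⟩ :=
          S.common hv tv (by omega) h1 h31 h4.symm h2
        have sv1 : s1 ∈ c x := by rw [ux1]; exact mem_insert_of_mem (mem_singleton_self _)
        exact S.no_share T h3 h3' a6 h4 h5 e0 (hV s1 ms1) sv1 sv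
      rcases q4 with h5 | h5 | h5 | h5 | h5
      · subst h5; omega
      · subst h5; omega
      · subst h5
        have := key T h43 x1 ex ex' h32 h33
        omega
      · subst h5
        have := key T.symm h43 y1 ex' ex h33 h32
        omega
      · exact h41 h5
  · have hs := S.sum_le {x, x'} (by
      intro q hq hg
      simp only [mem_insert, mem_singleton]
      rcases S.pos_t' hq hg with h6 | h6
      · exact hN' q hq h6 hg
      · exact absurd ⟨q, hq, h6, hg⟩ hF)
    rw [sum_pair xx'] at hs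
    have g1 := S.gg2 x
    have g2 := S.gg2 x'
    have hns : ¬ (e s < e x ∧ e s < e x') := by
      rintro ⟨h5, h6⟩
      have := S.shared_one xx' T.sx T.sx' h5 h6
      omega
    have k1 : ¬ e x < e w := fun h => hns (S.stateA_s T h)
    have k2 : ¬ e x' < e w := fun h => hns (S.stateA_s T.symm h).symm
    exact ⟨by omega, Or.inl ⟨_, _, _, _, _, _, S.stateB T ew gx gx' (by omega) (by omega)
      (by omega)⟩⟩

/-- no joined pair, one of the two positive near elements has a private child -/
lemma unj_i {x1 x2 x1' z1 z2 : P} (hJ : ∀ w ∈ Sd, t w = 2 → 1 ≤ e w → ∀ x x', c w = {x, x'} →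
      x ≠ x' → 0 < gg c c' e x → 0 < gg c c' e x' → False)
    (h4 : 4 ≤ ∑ z ∈ Sd, gg c c' e z) (h1 : x1 ∈ Sd) (t1 : t x1 = 1) (g1 : 0 < gg c c' e x1)
    (h2 : x2 ∈ Sd) (t2 : t x2 = 1) (g2 : 0 < gg c c' e x2) (h12 : x1 ≠ x2)
    (m1 : z1 ∈ Sd) (tz1 : t z1 = 2) (ez1 : 1 ≤ e z1) (m2 : z2 ∈ Sd) (tz2 : t z2 = 2)
    (ez2 : 1 ≤ e z2) (cz1 : c z1 = {x1, x1'}) (hx1' : x1 ≠ x1') (cz2 : c z2 = {x2}) :
    ∃ y p, RF c c' t V Sd e y p := by
  by_contra hR
  obtain ⟨a1, a2, -⟩ := S.pos_two h1 g1
  obtain ⟨b1, b2, -⟩ := S.pos_two h2 g2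
  have e1 := S.kl_e a2
  have e2 := S.kl_e b2
  have hx1 : x1 ∈ c z1 := by rw [cz1]; exact mem_insert_self _ _
  have hx1'z : x1' ∈ c z1 := by rw [cz1]; exact mem_insert_of_mem (mem_singleton_self _)
  obtain ⟨c4, c5, c6⟩ := S.cov m1 (by omega) (by omega) hx1'z
  have hx2 : x2 ∉ c z1 := by
    intro h5
    rw [cz1, mem_insert, mem_singleton] at h5
    rcases h5 with h5 | h5
    · exact h12 h5.symm
    · subst h5
      exact hJ z1 m1 tz1 ez1 x1 x2 cz1 hx1' g1 g2
  have n0 : x1' ≠ x2 := by
    rintro rfl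
    exact hx2 hx1'z
  have hz12 : z1 ≠ z2 := by
    rintro rfl
    exact hx2 (by rw [cz2]; exact mem_singleton_self _)
  obtain ⟨q, mq, eq, hq⟩ := S.rf_or h2 t2 b1 e2 cz2 ez2 hR
  have hqz : q ≠ z2 := by
    rcases hq with ⟨-, -, h, -⟩ | ⟨h, -⟩
    · exact h
    · rintro rfl
      omega
  have hqw : q ≠ z1 := by
    rcases hq with ⟨-, h, -, -⟩ | ⟨h, -⟩
    · rintro rfl
      exact hx2 h
    · rintro rfl
      omega
  have tq : t q = 2 ∨ t q = 3 := by
    rcases hq with ⟨h, -⟩ | ⟨h, -⟩
    · exact Or.inl h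
    · exact Or.inr h
  have n1 : [z1, z2, x1, x1', x2, q].Nodup := by
    simp only [List.nodup_cons, List.mem_cons, List.not_mem_nil, or_false, not_or, List.nodup_nil,
      and_true, not_false_eq_true]
    and_intros
    all_goals first
      | assumption
      | (apply Ne.symm; assumption)
      | (intro hnd; subst hnd; omega)
      | (intro hnd; rw [hnd] at *; omega)
  have n2 : ∀ z' ∈ [z1, z2, x1, x1', x2, q], z' ∈ Sd ∪ V := by
    simp only [List.forall_mem_cons, mem_union, List.not_mem_nil, false_imp_iff, implies_true,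
      and_true]
    and_intros
    all_goals first
      | exact Or.inl (by assumption)
      | exact Or.inr (by assumption)
  have hE := S.en_list _ n1 n2
  have n3 : 6 ≤ ([z1, z2, x1, x1', x2, q].map e).sum := by
    simp only [List.map_cons, List.sum_cons, List.map_nil, List.sum_nil]
    omega
  simp only [List.map_cons, List.sum_cons, List.map_nil, List.sum_nil] at hE
  have hV := S.sites_zero n1 n2 n3 (by
    simp only [List.forall_mem_cons, List.not_mem_nil, false_imp_iff, implies_true, and_true]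
    omega)
  have hF := S.sum_le {x1, x1', x2} (by
    intro q' hq' hg
    obtain ⟨-, ⟨q1, q2, q3⟩, -⟩ := S.pos_two hq' hg
    have q4 := S.rest_pos n1 n2 n3 (mem_union_left _ hq') (by omega)
    simp only [List.mem_cons, List.not_mem_nil, or_false] at q4
    simp only [mem_insert, mem_singleton]
    rcases q4 with h5 | h5 | h5 | h5 | h5 | h5
    · subst h5
      obtain ⟨-, -, q5⟩ := S.cov hq' (by omega) (by omega) q2
      omega
    · subst h5
      obtain ⟨-, -, q5⟩ := S.cov hq' (by omega) (by omega) q2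
      omega
    · exact Or.inl h5
    · exact Or.inr (Or.inl h5)
    · exact Or.inr (Or.inr h5)
    · subst h5
      obtain ⟨-, -, q5⟩ := S.cov hq' (by omega) (by omega) q2
      omega)
  rw [sum_insert (by simp only [mem_insert, mem_singleton, not_or]; exact ⟨hx1', h12⟩),
    sum_pair n0] at hF
  obtain ⟨a3, s1, as1, ux1, sv, av, ma1, ms1, ds1⟩ :=
    S.common m1 tz1 (by omega) hx1 hx1'z hx1' a1
  have sv1 : s1 ∈ c x1 := by rw [ux1]; exact mem_insert_of_mem (mem_singleton_self _)
  have e0 := hV s1 ms1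
  have g3 := S.shared_one hx1' sv1 sv (by omega) (by omega)
  have g4 := S.gg2 x2
  have g5 : gg c c' e x1' ≤ 0 := by
    by_contra h5
    exact hJ z1 m1 tz1 ez1 x1 x1' cz1 hx1' g1 (by omega)
  omega

/-- no joined pair, no private children -/
lemma unj_ii {x1 x2 x1' x2' z1 z2 : P} (hJ : ∀ w ∈ Sd, t w = 2 → 1 ≤ e w → ∀ x x',
      c w = {x, x'} → x ≠ x' → 0 < gg c c' e x → 0 < gg c c' e x' → False)
    (h4 : 4 ≤ ∑ z ∈ Sd, gg c c' e z) (h1 : x1 ∈ Sd) (t1 : t x1 = 1) (g1 : 0 < gg c c' e x1)
    (h2 : x2 ∈ Sd) (t2 : t x2 = 1) (g2 : 0 < gg c c' e x2) (h12 : x1 ≠ x2)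
    (m1 : z1 ∈ Sd) (tz1 : t z1 = 2) (ez1 : 1 ≤ e z1) (m2 : z2 ∈ Sd) (tz2 : t z2 = 2)
    (ez2 : 1 ≤ e z2) (cz1 : c z1 = {x1, x1'}) (hx1' : x1 ≠ x1') (cz2 : c z2 = {x2, x2'})
    (hx2' : x2 ≠ x2') :
    ∑ z ∈ Sd, gg c c' e z ≤ 5 ∧ Out c c' t V Sd e := by
  obtain ⟨a1, a2, -⟩ := S.pos_two h1 g1
  obtain ⟨b1, b2, -⟩ := S.pos_two h2 g2
  have e1 := S.kl_e a2
  have e2 := S.kl_e b2
  have hx1 : x1 ∈ c z1 := by rw [cz1]; exact mem_insert_self _ _
  have hx1'z : x1' ∈ c z1 := by rw [cz1]; exact mem_insert_of_mem (mem_singleton_self _)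
  have hx2 : x2 ∈ c z2 := by rw [cz2]; exact mem_insert_self _ _
  have hx2'z : x2' ∈ c z2 := by rw [cz2]; exact mem_insert_of_mem (mem_singleton_self _)
  obtain ⟨c4, c5, c6⟩ := S.cov m1 (by omega) (by omega) hx1'z
  obtain ⟨d4, d5, d6⟩ := S.cov m2 (by omega) (by omega) hx2'z
  have g5 : ¬ 0 < gg c c' e x1' := fun h5 => hJ z1 m1 tz1 ez1 x1 x1' cz1 hx1' g1 h5
  have g6 : ¬ 0 < gg c c' e x2' := fun h5 => hJ z2 m2 tz2 ez2 x2 x2' cz2 hx2' g2 h5
  have n0 : x1' ≠ x2 := by
    rintro rfl
    exact g5 g2
  have n0' : x2' ≠ x1 := by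
    rintro rfl
    exact g6 g1
  have hx2z : x2 ∉ c z1 := by
    rw [cz1, mem_insert, mem_singleton]
    rintro (h5 | h5)
    · exact h12 h5.symm
    · exact n0 h5.symm
  have hx1z : x1 ∉ c z2 := by
    rw [cz2, mem_insert, mem_singleton]
    rintro (h5 | h5)
    · exact h12 h5
    · exact n0' h5.symm
  have hz12 : z1 ≠ z2 := by
    rintro rfl
    exact hx2z hx2
  obtain ⟨a3, s1, as1, ux1, sv, av, ma1, ms1, ds1⟩ :=
    S.common m1 tz1 (by omega) hx1 hx1'z hx1' a1
  have sv1 : s1 ∈ c x1 := by rw [ux1]; exact mem_insert_of_mem (mem_singleton_self _)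
  obtain ⟨b3, s2, bs2, ux2, sv', bv', mb2, ms2, ds2⟩ :=
    S.common m2 tz2 (by omega) hx2 hx2'z hx2' b1
  have sv2 : s2 ∈ c x2 := by rw [ux2]; exact mem_insert_of_mem (mem_singleton_self _)
  by_cases hv : x1' = x2'
  swap
  · exfalso
    have n1 : [z1, z2, x1, x1', x2, x2'].Nodup := by
      simp only [List.nodup_cons, List.mem_cons, List.not_mem_nil, or_false, not_or, List.nodup_nil,
        and_true, not_false_eq_true]
      and_intros
      all_goals first
        | assumption
        | (apply Ne.symm; assumption)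
        | (intro hnd; subst hnd; omega)
        | (intro hnd; rw [hnd] at *; omega)
    have n2 : ∀ z' ∈ [z1, z2, x1, x1', x2, x2'], z' ∈ Sd ∪ V := by
      simp only [List.forall_mem_cons, mem_union, List.not_mem_nil, false_imp_iff, implies_true,
        and_true]
      and_intros
      all_goals first
        | exact Or.inl (by assumption)
        | exact Or.inr (by assumption)
    have hE := S.en_list _ n1 n2
    have n3 : 6 ≤ ([z1, z2, x1, x1', x2, x2'].map e).sum := by
      simp only [List.map_cons, List.sum_cons, List.map_nil, List.sum_nil]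
      omega
    simp only [List.map_cons, List.sum_cons, List.map_nil, List.sum_nil] at hE
    have hV := S.sites_zero n1 n2 n3 (by
      simp only [List.forall_mem_cons, List.not_mem_nil, false_imp_iff, implies_true, and_true]
      omega)
    have hF := S.sum_le {x1, x2} (by
      intro q' hq' hg
      obtain ⟨-, ⟨q1, q2, q3⟩, -⟩ := S.pos_two hq' hg
      have q4 := S.rest_pos n1 n2 n3 (mem_union_left _ hq') (by omega)
      simp only [List.mem_cons, List.not_mem_nil, or_false] at q4
      simp only [mem_insert, mem_singleton]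
      rcases q4 with h5 | h5 | h5 | h5 | h5 | h5
      · subst h5
        obtain ⟨-, -, q5⟩ := S.cov hq' (by omega) (by omega) q2
        omega
      · subst h5
        obtain ⟨-, -, q5⟩ := S.cov hq' (by omega) (by omega) q2
        omega
      · exact Or.inl h5
      · subst h5
        exact absurd hg g5
      · exact Or.inr h5
      · subst h5
        exact absurd hg g6)
    rw [sum_pair h12] at hF
    have e3 := hV s1 ms1
    have e4 := hV s2 ms2
    have g3 := S.shared_one hx1' sv1 sv (by omega) (by omega)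
    have g4 := S.shared_one hx2' sv2 sv' (by omega) (by omega)
    omega
  · subst hv
    have hss : s1 ≠ s2 := by
      rintro rfl
      have h5 : x2 ∈ c' s1 := by rw [ds2]; exact mem_insert_self _ _
      rw [ds1, mem_insert, mem_singleton] at h5
      rcases h5 with h5 | h5
      · exact h12 h5.symm
      · exact n0 h5.symm
    have cv : (c x1').card = 2 := by
      have h5 : ({s1, s2} : Finset P) ⊆ c x1' := by
        intro q hq
        rw [mem_insert, mem_singleton] at hq
        rcases hq with rfl | rfl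
        · exact sv
        · exact sv'
      have h6 := card_le_card h5
      rw [card_pair hss] at h6
      have := S.c2 x1'
      omega
    have ts1 := S.tV s1 ms1
    have ts2 := S.tV s2 ms2
    have n1 : [z1, z2, x1, x1', x2].Nodup := by
      simp only [List.nodup_cons, List.mem_cons, List.not_mem_nil, or_false, not_or, List.nodup_nil,
        and_true, not_false_eq_true]
      and_intros
      all_goals first
        | assumption
        | (apply Ne.symm; assumption)
        | (intro hnd; subst hnd; omega)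
        | (intro hnd; rw [hnd] at *; omega)
    have n2 : ∀ z' ∈ [z1, z2, x1, x1', x2], z' ∈ Sd ∪ V := by
      simp only [List.forall_mem_cons, mem_union, List.not_mem_nil, false_imp_iff, implies_true,
        and_true]
      and_intros
      all_goals first
        | exact Or.inl (by assumption)
        | exact Or.inr (by assumption)
    have hE := S.en_list _ n1 n2
    simp only [List.map_cons, List.sum_cons, List.map_nil, List.sum_nil] at hE
    -- the positive elements are among x1, x2, z1, z2
    have hp : ∀ z ∈ Sd, 0 < gg c c' e z → z = x1 ∨ z = x2 ∨ z = z1 ∨ z = z2 := by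
      intro q mq hg
      by_contra hne
      simp only [not_or] at hne
      obtain ⟨q1, q2, q3, q4⟩ := hne
      have q5 : q ≠ x1' := by
        rintro rfl
        exact g5 hg
      obtain ⟨-, q6, -⟩ := S.pos_two mq hg
      have q7 := S.kl_e q6
      have n4 : [q, z1, z2, x1, x1', x2].Nodup := by
        simp only [List.nodup_cons, List.mem_cons, List.not_mem_nil, or_false, not_or, List.nodup_nil,
          and_true, not_false_eq_true]
        and_intros
        all_goals first
          | assumption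
          | (apply Ne.symm; assumption)
          | (intro hnd; subst hnd; omega)
          | (intro hnd; rw [hnd] at *; omega)
      have n5 : ∀ z' ∈ [q, z1, z2, x1, x1', x2], z' ∈ Sd ∪ V := by
        simp only [List.forall_mem_cons, mem_union, List.not_mem_nil, false_imp_iff, implies_true,
          and_true]
        and_intros
        all_goals first
          | exact Or.inl (by assumption)
          | exact Or.inr (by assumption)
      have hE' := S.en_list _ n4 n5
      have n6 : 6 ≤ ([q, z1, z2, x1, x1', x2].map e).sum := by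
        simp only [List.map_cons, List.sum_cons, List.map_nil, List.sum_nil]
        omega
      simp only [List.map_cons, List.sum_cons, List.map_nil, List.sum_nil] at hE'
      rcases S.pos_t' mq hg with tq | tq
      · obtain ⟨z, hz, ez⟩ := S.tch q mq tq q7
        obtain ⟨mz, tz, cz⟩ := S.chd (Or.inl mq) hz
        have q8 := S.rest_pos n4 n5 n6 (mem_union_left _ mz) ez
        simp only [List.mem_cons, List.not_mem_nil, or_false] at q8
        rcases q8 with h5 | h5 | h5 | h5 | h5 | h5
        · subst h5; omega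
        · subst h5
          rw [cz1, mem_insert, mem_singleton] at cz
          rcases cz with cz | cz
          · exact q1 cz
          · exact q5 cz
        · subst h5
          rw [cz2, mem_insert, mem_singleton] at cz
          rcases cz with cz | cz
          · exact q2 cz
          · exact q5 cz
        · subst h5; omega
        · subst h5; omega
        · subst h5; omega
      · have := S.far_two mq tq hg
        omega
    have main : ∀ {x1 x2 z1 z2 s1 s2 : P}, x1 ∈ Sd → t x1 = 1 → (c x1).card = 2 → 1 ≤ e x1 →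
        x2 ∈ Sd → t x2 = 1 → 1 ≤ e x2 → x1 ≠ x2 → z1 ∈ Sd → t z1 = 2 → z2 ∈ Sd → t z2 = 2 →
        1 ≤ e z2 → z1 ≠ z2 → c z1 = {x1, x1'} → x1 ≠ x1' → x2 ≠ x1' →
        s1 ∈ c x1 → s1 ∈ c x1' → s2 ∈ c x2 → s2 ∈ c x1' →
        (∀ z ∈ Sd, 0 < gg c c' e z → z = x1 ∨ z = x2 ∨ z = z1 ∨ z = z2) → 0 < gg c c' e z1 →
        ∑ z ∈ Sd, gg c c' e z ≤ 5 ∧ Out c c' t V Sd e := by
      intro x1 x2 z1 z2 s1 s2 h1 t1 a1 e1 h2 t2 e2 h12 m1 tz1 m2 tz2 ez2 hz12 cz1 hx1' hx2'
        sv1 sv sv2 sv' hp gz
      have ez := S.far_two m1 tz1 gz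
      obtain ⟨-, k2, -⟩ := S.pos_two m1 gz
      have n1 : [z1, z2, x1, x1', x2].Nodup := by
        simp only [List.nodup_cons, List.mem_cons, List.not_mem_nil, or_false, not_or, List.nodup_nil,
          and_true, not_false_eq_true]
        and_intros
        all_goals first
          | assumption
          | (apply Ne.symm; assumption)
          | (intro hnd; subst hnd; omega)
          | (intro hnd; rw [hnd] at *; omega)
      have n2 : ∀ z' ∈ [z1, z2, x1, x1', x2], z' ∈ Sd ∪ V := by
        simp only [List.forall_mem_cons, mem_union, List.not_mem_nil, false_imp_iff, implies_true,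
          and_true]
        and_intros
        all_goals first
          | exact Or.inl (by assumption)
          | exact Or.inr (by assumption)
      have hE := S.en_list _ n1 n2
      have n3 : 6 ≤ ([z1, z2, x1, x1', x2].map e).sum := by
        simp only [List.map_cons, List.sum_cons, List.map_nil, List.sum_nil]
        omega
      simp only [List.map_cons, List.sum_cons, List.map_nil, List.sum_nil] at hE
      have hV := S.sites_zero n1 n2 n3 (by
        simp only [List.forall_mem_cons, List.not_mem_nil, false_imp_iff, implies_true, and_true]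
        omega)
      have e3 := hV s1 (S.site h1 t1 sv1).1
      have e4 := hV s2 (S.site h2 t2 sv2).1
      obtain ⟨a, s, b, T⟩ := S.mkTT m1 tz1 (by omega) cz1 hx1' a1 cv
      have hF := S.sum_le {x1, x2, z1} (by
        intro q mq hg
        simp only [mem_insert, mem_singleton]
        rcases hp q mq hg with h5 | h5 | h5 | h5
        · exact Or.inl h5
        · exact Or.inr (Or.inl h5)
        · exact Or.inr (Or.inr h5)
        · exfalso
          subst h5
          exact hz12 (S.far_one m1 m2 tz1 tz2 gz hg))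
      rw [sum_insert (by
          simp only [mem_insert, mem_singleton, not_or]
          exact ⟨h12, by rintro rfl; omega⟩),
        sum_pair (by rintro rfl; omega)] at hF
      have g3 := S.shared_one hx1' sv1 sv (by omega) (by omega)
      have g4 := S.shared_one hx2' sv2 sv' (by omega) (by omega)
      have g7 := S.gg2 z1
      refine ⟨by omega, ?_⟩
      rcases S.stateA T e1 c6 h4 (by omega) with h | ⟨z, h⟩
      · exact Or.inl ⟨_, _, _, _, _, _, h⟩
      · exact Or.inr (Or.inl ⟨_, _, _, _, _, _, z, T, by omega, by omega, h⟩)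
    by_cases gz1 : 0 < gg c c' e z1
    · exact main h1 t1 a1 e1 h2 t2 e2 h12 m1 tz1 m2 tz2 ez2 hz12 cz1 hx1' n0.symm sv1 sv sv2 sv'
        hp gz1
    · by_cases gz2 : 0 < gg c c' e z2
      · refine main h2 t2 b1 e2 h1 t1 e1 h12.symm m2 tz2 m1 tz1 ez1 hz12.symm cz2 hx2' hx1'
          sv2 sv' sv1 sv ?_ gz2
        intro z hz hg
        rcases hp z hz hg with h | h | h | h
        · exact Or.inr (Or.inl h)
        · exact Or.inl h
        · exact Or.inr (Or.inr (Or.inr h))
        · exact Or.inr (Or.inr (Or.inl h))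
      · exfalso
        have hF := S.sum_le {x1, x2} (by
          intro q mq hg
          simp only [mem_insert, mem_singleton]
          rcases hp q mq hg with h5 | h5 | h5 | h5
          · exact Or.inl h5
          · exact Or.inr h5
          · subst h5; exact absurd hg gz1
          · subst h5; exact absurd hg gz2)
        rw [sum_pair h12] at hF
        have g3 := S.gg2 x1
        have g4 := S.gg2 x2
        have k1 : 1 ≤ e s1 := by
          by_contra h5
          have := S.shared_one hx1' sv1 sv (by omega) (by omega)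
          omega
        have k2 : 1 ≤ e s2 := by
          by_contra h5
          have := S.shared_one hx2' sv2 sv' (by omega) (by omega)
          omega
        have hE' := S.en_list [z1, z2, x1, x1', x2, s1, s2] (by
              simp only [List.nodup_cons, List.mem_cons, List.not_mem_nil, or_false, not_or, List.nodup_nil,
                and_true, not_false_eq_true]
              and_intros
              all_goals first
                | assumption
                | (apply Ne.symm; assumption)
                | (intro hnd; subst hnd; omega)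
                | (intro hnd; rw [hnd] at *; omega)) (by
              simp only [List.forall_mem_cons, mem_union, List.not_mem_nil, false_imp_iff, implies_true,
                and_true]
              and_intros
              all_goals first
                | exact Or.inl (by assumption)
                | exact Or.inr (by assumption))
        simp only [List.map_cons, List.sum_cons, List.map_nil, List.sum_nil] at hE'
        omega

/-- THE ONE-SIDED CLASSIFICATION -/
theorem one_sided (h4 : 4 ≤ ∑ z ∈ Sd, gg c c' e z) (hR : ¬ ∃ y p, RF c c' t V Sd e y p) :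
    ∑ z ∈ Sd, gg c c' e z ≤ 5 ∧ Out c c' t V Sd e := by
  by_cases hJ : ∃ w ∈ Sd, t w = 2 ∧ 1 ≤ e w ∧ ∃ x x', c w = {x, x'} ∧ x ≠ x' ∧
      0 < gg c c' e x ∧ 0 < gg c c' e x'
  · obtain ⟨w, mw, tw, ew, x, x', cw, hne, gx, gx'⟩ := hJ
    obtain ⟨mx, -, -⟩ := S.cov mw (by omega) ew (show x ∈ c w by rw [cw]; exact mem_insert_self _ _)
    obtain ⟨mx', -, -⟩ := S.cov mw (by omega) ew
      (show x' ∈ c w by rw [cw]; exact mem_insert_of_mem (mem_singleton_self _))
    obtain ⟨a, s, b, T⟩ := S.mkTT mw tw ew cw hne (S.pos_two mx gx).1 (S.pos_two mx' gx').1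
    exact S.joined_pair T ew gx gx' h4 hR
  have hJ' : ∀ w ∈ Sd, t w = 2 → 1 ≤ e w → ∀ x x', c w = {x, x'} →
      x ≠ x' → 0 < gg c c' e x → 0 < gg c c' e x' → False := by
    intro w mw tw ew x x' cw hne gx gx'
    exact hJ ⟨w, mw, tw, ew, x, x', cw, hne, gx, gx'⟩
  -- a positive near element
  obtain ⟨x1, h1, t1, g1⟩ : ∃ x ∈ Sd, t x = 1 ∧ 0 < gg c c' e x := by
    by_contra h
    push Not at h
    by_cases hw : ∃ w ∈ Sd, 0 < gg c c' e w
    · obtain ⟨w, mw, gw⟩ := hw
      have tw : t w = 2 := by
        rcases S.pos_t' mw gw with h5 | h5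
        · have := h w mw h5
          omega
        · exact h5
      have hF := S.sum_le {w} (by
        intro q mq hg
        rw [mem_singleton]
        rcases S.pos_t' mq hg with h5 | h5
        · have := h q mq h5
          omega
        · exact S.far_one mq mw h5 tw hg gw)
      rw [sum_singleton] at hF
      have := S.gg2 w
      omega
    · have hF := S.sum_le ∅ (by
        intro q mq hg
        exact absurd ⟨q, mq, hg⟩ hw)
      rw [sum_empty] at hF
      omega
  obtain ⟨x2, h2, t2, g2, h12⟩ : ∃ x ∈ Sd, t x = 1 ∧ 0 < gg c c' e x ∧ x1 ≠ x := by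
    by_contra h
    push Not at h
    exact hR (S.single_near h1 t1 (fun x hx tx gx => (h x hx tx gx).symm) h4)
  obtain ⟨a1, a2, -⟩ := S.pos_two h1 g1
  obtain ⟨b1, b2, -⟩ := S.pos_two h2 g2
  obtain ⟨z1, hz1, ez1⟩ := S.tch x1 h1 t1 (S.kl_e a2)
  obtain ⟨z2, hz2, ez2⟩ := S.tch x2 h2 t2 (S.kl_e b2)
  obtain ⟨m1, tz1, cz1⟩ := S.chd (Or.inl h1) hz1
  obtain ⟨m2, tz2, cz2⟩ := S.chd (Or.inl h2) hz2
  have one : ∀ {z x : P}, z ∈ Sd → x ∈ c z → (c z).card ≠ 2 → c z = {x} := by
    intro z x mz hx hc
    have h6 := S.c2 z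
    have h7 := (S.ne z mz).card_pos
    obtain ⟨y, hy⟩ := card_eq_one.1 (show (c z).card = 1 by omega)
    rw [hy, mem_singleton] at hx
    rw [hy, hx]
  by_cases k1 : (c z1).card = 2
  · obtain ⟨x1', p1, p2⟩ := card_two_other k1 cz1
    by_cases k2 : (c z2).card = 2
    · obtain ⟨x2', r1, r2⟩ := card_two_other k2 cz2
      exact S.unj_ii hJ' h4 h1 t1 g1 h2 t2 g2 h12 m1 (by omega) ez1 m2 (by omega) ez2 p2 p1.symm
        r2 r1.symm
    · exact absurd (S.unj_i hJ' h4 h1 t1 g1 h2 t2 g2 h12 m1 (by omega) ez1 m2 (by omega) ez2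
        p2 p1.symm (one m2 cz2 k2)) hR
  · have k1' := one m1 cz1 k1
    by_cases k2 : (c z2).card = 2
    · obtain ⟨x2', r1, r2⟩ := card_two_other k2 cz2
      exact absurd (S.unj_i hJ' h4 h2 t2 g2 h1 t1 g1 h12.symm m2 (by omega) ez2 m1 (by omega) ez1
        r2 r1.symm k1') hR
    · exfalso
      have k2' := one m2 cz2 k2
      have h5 := S.pd z1 m1 z2 m2 (by omega) (by omega) ez1 ez2 (by rw [k1', card_singleton])
        (by rw [k2', card_singleton]) ⟨x1, cz1, a1⟩ ⟨x2, cz2, b1⟩
      subst h5
      rw [k1', mem_singleton] at cz2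
      exact h12 cz2.symm

end OS

end Pool.Agent.GaussPoset.Win.So

end

/-! From `Pool.Agent.W_448so_h63.DG` -/

section

/-!
Classification of the cores of S9 (row 476), two sides: partners, one-sided data from two-sided data.
-/

set_option autoImplicit false

namespace Pool.Agent.GaussPoset.Win.So

set_option linter.unusedSectionVars false

open Finset I2

universe u

variable {P : Type u} [DecidableEq P]
variable {c c' : P → Finset P} {e : P → ℕ} {t t' : P → ℕ} {V Sd Sd' : Finset P} {psi : P → P}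

lemma mem_KD {v : P} : v ∈ KD c' e V ↔ v ∈ V ∧ kd c' e v := by
  classical
  unfold KD
  rw [mem_filter]

lemma side0_of (S : SO.Sde c c' t V Sd) : Side0 c c' t V Sd :=
  ⟨S.dual, S.c2, S.c2', S.ne, S.tS, S.tV, S.cin, S.cout⟩

lemma z_kS (S : Side0 c c' t V Sd) (adm : ∀ z ∈ Sd, ¬ (kd c' e z ∧ gu c e z)) :
    2 * SO.kS c c' V Sd e ≤ ∑ z ∈ Sd, gg c c' e z := by
  classical
  have h1 := S.sum_cc adm
  unfold SO.kS
  rw [mul_sub, ← h1]
  have h2 : ∑ z ∈ Sd, gg c c' e z = ∑ z ∈ KK c e Sd, max (cc c c' e z) 0 := by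
    unfold KK gg
    rw [Finset.sum_filter]
  rw [h2]
  exact Finset.sum_le_sum fun z _ => le_max_left _ _

lemma z_sum_le (F : Finset P) (h : ∀ z ∈ Sd, 0 < gg c c' e z → z ∈ F) :
    ∑ z ∈ Sd, gg c c' e z ≤ ∑ z ∈ F, gg c c' e z := by
  classical
  have h1 : ∑ z ∈ Sd, gg c c' e z = ∑ z ∈ Sd ∩ F, gg c c' e z := by
    symm
    apply Finset.sum_subset inter_subset_left
    intro z hz hz'
    by_contra h2
    have h3 := gg_nonneg (c := c) (c' := c') (e := e) z
    exact hz' (mem_inter.2 ⟨hz, h z hz (by omega)⟩)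
  rw [h1]
  exact Finset.sum_le_sum_of_subset_of_nonneg inter_subset_right fun z _ _ => gg_nonneg z

lemma z_sum_zero (h : ∀ z ∈ Sd, ¬ 0 < gg c c' e z) : ∑ z ∈ Sd, gg c c' e z ≤ 0 := by
  have := z_sum_le (c := c) (c' := c') (e := e) (Sd := Sd) ∅ (fun z hz hg => absurd hg (h z hz))
  rwa [sum_empty] at this

lemma z_sum_one (S : Side0 c c' t V Sd) {q : P} (h : ∀ z ∈ Sd, 0 < gg c c' e z → z = q) :
    ∑ z ∈ Sd, gg c c' e z ≤ 2 := by
  have := z_sum_le (c := c) (c' := c') (e := e) (Sd := Sd) {q}
    (fun z hz hg => mem_singleton.2 (h z hz hg))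
  rw [sum_singleton] at this
  exact this.trans (gg_le (by norm_num) (S.cc_le_two q))

lemma z_pos (S : Side0 c c' t V Sd) {z : P} (hz : z ∈ Sd) (h : 0 < gg c c' e z) :
    (c z).card = 2 ∧ kl c e z := by
  obtain ⟨h1, h2⟩ := gg_pos h
  refine ⟨?_, h1⟩
  by_contra h3
  have h4 := S.c2 z
  have h5 := (S.ne z hz).card_pos
  have h6 := cc_le_zero (c' := c') (show (c z).card = 1 by omega) h1
  omega

lemma z_kl {z : P} (h : kl c e z) : 1 ≤ e z := by
  obtain ⟨a, _, h⟩ := h
  omega

lemma z_cov (S : Side0 c c' t V Sd) (adm : ∀ z ∈ Sd, ¬ (kd c' e z ∧ gu c e z)) {z y : P}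
    (hz : z ∈ Sd) (ht : 2 ≤ t z) (he : 1 ≤ e z) (hy : y ∈ c z) :
    y ∈ Sd ∧ t z = t y + 1 ∧ 1 ≤ e y := by
  obtain ⟨h1, h2⟩ := S.cin z hz y hy
  have h3 : y ∈ Sd := by
    rcases h1 with h1 | h1
    · exact h1
    · have := S.tV y h1
      omega
  refine ⟨h3, h2, ?_⟩
  by_contra h4
  have h5 : kd c' e y := ⟨z, (S.dual z y).1 hy, by omega⟩
  obtain ⟨a, ha⟩ := S.ne y h3
  have := not_gu_of_kd adm h3 h5 a ha
  omega

lemma z_chd (S : Side0 c c' t V Sd) {x z : P} (hx : x ∈ Sd ∨ x ∈ V) (hz : z ∈ c' x) :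
    z ∈ Sd ∧ t z = t x + 1 ∧ x ∈ c z := by
  have h1 := S.cout x hx z hz
  have h2 := (S.dual z x).2 hz
  exact ⟨h1, (S.cin z h1 x h2).2, h2⟩

variable [Fintype P]

lemma tot {l : List P} (h : l.Nodup) : (l.map e).sum ≤ ∑ x, e x := by
  have h1 : (l.map e).sum = ∑ z ∈ l.toFinset, e z := by
    rw [List.sum_toFinset _ h]
  rw [h1]
  exact Finset.sum_le_sum_of_subset (subset_univ _)

lemma tot_zero {l : List P} (h : l.Nodup) {n : ℕ} (hE : ∑ x, e x ≤ n) (hl : n ≤ (l.map e).sum)
    {q : P} (hq : q ∉ l) : e q = 0 := by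
  have h1 := tot (e := e) (List.nodup_cons.2 ⟨hq, h⟩)
  rw [List.map_cons, List.sum_cons] at h1
  omega

lemma tot_pos {l : List P} (h : l.Nodup) {n : ℕ} (hE : ∑ x, e x ≤ n) (hl : n ≤ (l.map e).sum)
    {q : P} (hq : 1 ≤ e q) : q ∈ l := by
  by_contra h1
  have := tot_zero h hE hl h1
  omega

/-- PARTNER: an excited near element with an excited partner which is touched: then at most one
positive killer.  `n` excited, `u = psi n` excited and touched by `z`. -/
theorem partner_main (W : SO.Two c c' t t' V Sd Sd' psi)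
    (C : SO.Cfg c c' t t' V Sd Sd' psi e) (hE : ∑ x, e x ≤ 6) {n z : P} (hn : n ∈ Sd)
    (tn : t n = 1) (en : 1 ≤ e n) (c2 : (c n).card = 2) (hz : z ∈ c (psi n)) (ez : 1 ≤ e z) :
    SO.kS c c' V Sd e + SO.kS c' c V Sd' e ≤ 1 := by
  have S := side0_of W.s1
  have S' := side0_of W.s2
  obtain ⟨hu, tu, cu, -⟩ := W.psi1 n hn tn c2
  obtain ⟨hz', tz', cz'⟩ := z_chd S' (Or.inl hu) hz
  obtain ⟨-, -, eu⟩ := z_cov S' C.adm2 hz' (by omega) ez cz'
  obtain ⟨a, b, hab, hc⟩ := card_eq_two.1 c2
  have site : ∀ v, v ∈ c n → v ∈ V ∧ 1 ≤ e v ∧ (e n ≤ e v ∨ e (psi n) ≤ e v) := by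
    intro v hv
    obtain ⟨h1, h2⟩ := S.cin n hn v hv
    have h3 : v ∈ V := by
      rcases h1 with h1 | h1
      · have := S.tS v h1
        omega
      · exact h1
    have h4 : e n ≤ e v ∨ e (psi n) ≤ e v := by
      by_contra h5
      push Not at h5
      have k1 : v ∈ KD c' e V := mem_KD.2 ⟨h3, n, (S.dual _ _).1 hv, h5.1⟩
      have k2 : v ∈ KD c e V := by
        refine mem_KD.2 ⟨h3, psi n, (S'.dual _ _).1 ?_, h5.2⟩
        rw [cu]
        exact hv
      exact disjoint_left.1 C.dis k1 k2
    exact ⟨h3, by omega, h4⟩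
  obtain ⟨va, ea, ka⟩ := site a (by rw [hc]; exact mem_insert_self _ _)
  obtain ⟨vb, eb, kb⟩ := site b (by rw [hc]; exact mem_insert_of_mem (mem_singleton_self _))
  have sV : ∀ {x v : P}, x ∈ Sd → v ∈ V → x ≠ v := by
    rintro x v h1 h2 rfl
    exact disjoint_left.1 W.d1 h1 h2
  have sV' : ∀ {x v : P}, x ∈ Sd' → v ∈ V → x ≠ v := by
    rintro x v h1 h2 rfl
    exact disjoint_left.1 W.d2 h1 h2
  have sS : ∀ {x v : P}, x ∈ Sd → v ∈ Sd' → x ≠ v := by
    rintro x v h1 h2 rfl
    exact disjoint_left.1 W.d3 h1 h2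
  have hzu : z ≠ psi n := by
    intro h5
    rw [h5] at tz'
    omega
  have n0 : [n, psi n, z, a, b].Nodup := by
    simp only [List.nodup_cons, List.mem_cons, List.not_mem_nil, or_false, not_or, List.nodup_nil,
      and_true, not_false_eq_true]
    exact ⟨⟨sS hn hu, sS hn hz', sV hn va, sV hn vb⟩, ⟨hzu.symm, sV' hu va, sV' hu vb⟩,
      ⟨sV' hz' va, sV' hz' vb⟩, hab⟩
  have hT := tot (e := e) n0
  simp only [List.map_cons, List.sum_cons, List.map_nil, List.sum_nil] at hT
  have more : ∀ q, q ≠ n → q ≠ psi n → q ≠ z → q ≠ a → q ≠ b → 1 ≤ e q →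
      e q = 1 ∧ e n = 1 ∧ e (psi n) = 1 ∧ e z = 1 ∧ e a = 1 ∧ e b = 1 ∧
        ∀ q', q' ≠ n → q' ≠ psi n → q' ≠ z → q' ≠ a → q' ≠ b → 1 ≤ e q' → q' = q := by
    intro q h1 h2 h3 h4 h5 h6
    have n1 : [q, n, psi n, z, a, b].Nodup := by
      rw [List.nodup_cons]
      refine ⟨?_, n0⟩
      simp only [List.mem_cons, List.not_mem_nil, or_false, not_or]
      exact ⟨h1, h2, h3, h4, h5⟩
    have hT := tot (e := e) n1
    simp only [List.map_cons, List.sum_cons, List.map_nil, List.sum_nil] at hT
    refine ⟨by omega, by omega, by omega, by omega, by omega, by omega, ?_⟩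
    intro q' g1 g2 g3 g4 g5 g6
    have := tot_pos n1 hE (by
      simp only [List.map_cons, List.sum_cons, List.map_nil, List.sum_nil]
      omega) g6
    simp only [List.mem_cons, List.not_mem_nil, or_false] at this
    rcases this with h | h | h | h | h | h
    · exact h
    · exact absurd h g1
    · exact absurd h g2
    · exact absurd h g3
    · exact absurd h g4
    · exact absurd h g5
  have notn : e n = 1 → ¬ 0 < gg c c' e n := by
    intro h1 h2
    obtain ⟨-, v, hv, hlt⟩ := z_pos S hn h2
    have := (site v hv).2.1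
    omega
  have notu : e (psi n) = 1 → ¬ 0 < gg c' c e (psi n) := by
    intro h1 h2
    obtain ⟨-, v, hv, hlt⟩ := z_pos S' hu h2
    rw [cu] at hv
    have := (site v hv).2.1
    omega
  have notz : e z = 1 → ¬ 0 < gg c' c e z := by
    intro h1 h2
    obtain ⟨-, k⟩ := z_pos S' hz' h2
    have := S'.t_le_of_kl C.adm2 (t' z) z hz' k rfl
    omega
  have g1 := z_kS S C.adm1
  have g2 := z_kS S' C.adm2
  by_cases hq : ∃ q ∈ Sd, q ≠ n ∧ 0 < gg c c' e q
  · obtain ⟨q, mq, qn, gq⟩ := hq
    obtain ⟨m1, m2, m3, m4, m5, m6, m7⟩ := more q qn (sS mq hu) (sS mq hz') (sV mq va) (sV mq vb)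
      (z_kl (z_pos S mq gq).2)
    have h1 : ∑ z ∈ Sd, gg c c' e z ≤ 2 := by
      apply z_sum_one S (q := q)
      intro q' mq' gq'
      have hne : q' ≠ n := by
        rintro rfl
        exact notn m2 gq'
      exact m7 q' hne (sS mq' hu) (sS mq' hz') (sV mq' va) (sV mq' vb)
        (z_kl (z_pos S mq' gq').2)
    have h2 : ∑ z ∈ Sd', gg c' c e z ≤ 0 := by
      apply z_sum_zero
      intro q' mq' gq'
      have hne : q' ≠ psi n := by
        rintro rfl
        exact notu m3 gq'
      have hne' : q' ≠ z := by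
        rintro rfl
        exact notz m4 gq'
      have := m7 q' (sS hn mq').symm hne hne' (sV' mq' va) (sV' mq' vb)
        (z_kl (z_pos S' mq' gq').2)
      exact sS mq mq' this.symm
    omega
  · have h1 : ∀ z ∈ Sd, 0 < gg c c' e z → z = n := by
      intro z hz hg
      by_contra h5
      exact hq ⟨z, hz, h5, hg⟩
    by_cases gn : 0 < gg c c' e n
    · have en2 : 2 ≤ e n := by
        by_contra h5
        exact notn (by omega) gn
      have h2 : ∑ z ∈ Sd', gg c' c e z ≤ 0 := by
        apply z_sum_zero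
        intro q' mq' gq'
        have hne : q' ≠ psi n := by
          rintro rfl
          exact notu (by omega) gq'
        have hne' : q' ≠ z := by
          rintro rfl
          exact notz (by omega) gq'
        have := more q' (sS hn mq').symm hne hne' (sV' mq' va) (sV' mq' vb)
          (z_kl (z_pos S' mq' gq').2)
        omega
      have h3 := z_sum_one S h1
      omega
    · have h2 : ∑ z ∈ Sd, gg c c' e z ≤ 0 := by
        apply z_sum_zero
        intro q mq gq
        rw [h1 q mq gq] at gq
        exact gn gq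
      by_cases hq' : ∃ q ∈ Sd', q ≠ psi n ∧ q ≠ z ∧ 0 < gg c' c e q
      · obtain ⟨q, mq, q1, q2, gq⟩ := hq'
        obtain ⟨m1, m2, m3, m4, m5, m6, m7⟩ := more q (sS hn mq).symm q1 q2 (sV' mq va)
          (sV' mq vb) (z_kl (z_pos S' mq gq).2)
        have h3 : ∑ z ∈ Sd', gg c' c e z ≤ 2 := by
          apply z_sum_one S' (q := q)
          intro q' mq' gq'
          have hne : q' ≠ psi n := by
            rintro rfl
            exact notu m3 gq'
          have hne' : q' ≠ z := by
            rintro rfl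
            exact notz m4 gq'
          exact m7 q' (sS hn mq').symm hne hne' (sV' mq' va) (sV' mq' vb)
            (z_kl (z_pos S' mq' gq').2)
        omega
      · have h3 : ∀ q ∈ Sd', 0 < gg c' c e q → q = psi n ∨ q = z := by
          intro q mq gq
          by_contra h5
          rw [not_or] at h5
          exact hq' ⟨q, mq, h5.1, h5.2, gq⟩
        by_cases g3 : 0 < gg c' c e (psi n)
        · have h4 : 2 ≤ e (psi n) := by
            by_contra h5
            exact notu (by omega) g3
          have h5 := z_sum_one S' (q := psi n) (e := e) (fun q mq gq => by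
            rcases h3 q mq gq with h6 | h6
            · exact h6
            · subst h6
              exact absurd gq (notz (by omega)))
          omega
        · have h5 := z_sum_one S' (q := z) (e := e) (fun q mq gq => by
            rcases h3 q mq gq with h6 | h6
            · subst h6
              exact absurd gq g3
            · exact h6)
          omega

end Pool.Agent.GaussPoset.Win.So

end

/-! From `Pool.Agent.W_448so_h63.DH` -/

section

/-!
Classification of the cores of S9 (row 476): energy five, structure of a side with surplus one.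
-/

set_option autoImplicit false

namespace Pool.Agent.GaussPoset.Win.So

set_option linter.unusedSectionVars false

open Finset I2

universe u

variable {P : Type u} [DecidableEq P]
variable {c c' : P → Finset P} {e : P → ℕ} {t t' : P → ℕ} {V Sd Sd' : Finset P} {psi : P → P}

lemma one_cov (S : Side0 c c' t V Sd) {z x : P} (mz : z ∈ Sd) (hx : x ∈ c z)
    (hc : (c z).card ≠ 2) : c z = {x} := by
  have h6 := S.c2 z
  have h7 := (S.ne z mz).card_pos
  obtain ⟨y, hy⟩ := card_eq_one.1 (show (c z).card = 1 by omega)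
  rw [hy, mem_singleton] at hx
  rw [hy, hx]

/-- exactly the touched pair `x`, `x'` below which `w` hangs can be positive, sites are not excited -/
lemma t_of (S : OS c c' t V Sd e) {w x x' : P} (mw : w ∈ Sd) (tw : t w = 2) (ew : 1 ≤ e w)
    (cw : c w = {x, x'}) (hne : x ≠ x') (hp : ∀ z ∈ Sd, 0 < gg c c' e z → z = x ∨ z = x')
    (hV : ∀ s ∈ V, e s = 0) (h2 : 2 ≤ ∑ z ∈ Sd, gg c c' e z) :
    ∃ a s b, TT c c' t V Sd w x x' a s b := by
  have hx : x ∈ c w := by rw [cw]; exact mem_insert_self _ _
  have hx' : x' ∈ c w := by rw [cw]; exact mem_insert_of_mem (mem_singleton_self _)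
  obtain ⟨mx, tx, ex⟩ := S.cov mw (by omega) ew hx
  obtain ⟨mx', tx', ex'⟩ := S.cov mw (by omega) ew hx'
  have h3 := S.sum_le {x, x'} (by
    intro z hz hg
    rw [mem_insert, mem_singleton]
    exact hp z hz hg)
  rw [sum_pair hne] at h3
  have key : ∀ {x x' : P}, x ∈ Sd → x' ∈ Sd → x ∈ c w → x' ∈ c w → x ≠ x' → 1 ≤ e x → 1 ≤ e x' →
      (c x).card = 2 → gg c c' e x ≤ 1 ∧ gg c c' e x' ≤ 1 := by
    intro x x' mx mx' hx hx' hne ex ex' h4
    obtain ⟨a1, s1, as1, ux1, sv, av, ma1, ms1, ds1⟩ := S.common mw tw ew hx hx' hne h4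
    have sx1 : s1 ∈ c x := by rw [ux1]; exact mem_insert_of_mem (mem_singleton_self _)
    have := hV s1 ms1
    exact ⟨S.shared_one hne sx1 sv (by omega) (by omega),
      S.shared_one hne.symm sv sx1 (by omega) (by omega)⟩
  by_cases h4 : (c x).card = 2
  · obtain ⟨k1, k2⟩ := key mx mx' hx hx' hne ex ex' h4
    exact S.mkTT mw tw ew cw hne h4 (S.pos_two mx' (by omega)).1
  · exfalso
    have h5 : ¬ 0 < gg c c' e x := fun h => h4 (S.pos_two mx h).1
    have h6 : (c x').card = 2 := (S.pos_two mx' (by omega)).1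
    obtain ⟨k1, k2⟩ := key mx' mx hx' hx hne.symm ex' ex h6
    omega

/-- a side with surplus: an excited pendant or an excited double at distance two -/
lemma one_struct (S : OS c c' t V Sd e) (h2 : 1 ≤ ∑ z ∈ Sd, gg c c' e z) :
    (∃ y p, y ∈ Sd ∧ p ∈ Sd ∧ t y = 1 ∧ t p = 2 ∧ c p = {y} ∧ 1 ≤ e p ∧ 1 ≤ e y ∧
      (c y).card = 2) ∨
    (∃ w x x', w ∈ Sd ∧ x ∈ Sd ∧ x' ∈ Sd ∧ t w = 2 ∧ t x = 1 ∧ t x' = 1 ∧ 1 ≤ e w ∧ 1 ≤ e x ∧
      1 ≤ e x' ∧ c w = {x, x'} ∧ x ≠ x') := by
  obtain ⟨q, mq, gq⟩ : ∃ q ∈ Sd, 0 < gg c c' e q := by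
    by_contra h
    push Not at h
    have := S.sum_le ∅ (fun z hz hg => by
      have := h z hz
      omega)
    rw [sum_empty] at this
    omega
  obtain ⟨h3, h4, -⟩ := S.pos_two mq gq
  have eq := S.kl_e h4
  have dbl : ∀ {w x : P}, w ∈ Sd → t w = 2 → 1 ≤ e w → x ∈ c w → (c w).card = 2 →
      (∃ w x x', w ∈ Sd ∧ x ∈ Sd ∧ x' ∈ Sd ∧ t w = 2 ∧ t x = 1 ∧ t x' = 1 ∧ 1 ≤ e w ∧ 1 ≤ e x ∧
      1 ≤ e x' ∧ c w = {x, x'} ∧ x ≠ x') := by
    intro w x mw tw ew hx hc
    obtain ⟨x', hne, hw⟩ := card_two_other hc hx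
    have hx' : x' ∈ c w := by rw [hw]; exact mem_insert_of_mem (mem_singleton_self _)
    obtain ⟨mx, tx, ex⟩ := S.cov mw (by omega) ew hx
    obtain ⟨mx', tx', ex'⟩ := S.cov mw (by omega) ew hx'
    exact ⟨w, x, x', mw, mx, mx', tw, by omega, by omega, ew, ex, ex', hw, hne.symm⟩
  rcases S.pos_t' mq gq with tq | tq
  · obtain ⟨z, hz, ez⟩ := S.tch q mq tq eq
    obtain ⟨mz, tz, cz⟩ := S.chd (Or.inl mq) hz
    by_cases h5 : (c z).card = 2
    · exact Or.inr (dbl mz (by omega) ez cz h5)
    · exact Or.inl ⟨q, z, mq, mz, tq, by omega, one_cov S.toSide0 mz cz h5, ez, eq, h3⟩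
  · obtain ⟨x, x', hne, hc⟩ := card_eq_two.1 h3
    exact Or.inr (dbl mq tq eq (by rw [hc]; exact mem_insert_self _ _) h3)

variable [Fintype P]

lemma on_list {l : List P} (h : l.Nodup) (hE : ∑ x, e x ≤ l.length) (h1 : ∀ z ∈ l, 1 ≤ e z) :
    ∀ q, e q = if q ∈ l then 1 else 0 := by
  have h2 : l.length ≤ (l.map e).sum := by
    clear hE h
    induction l with
    | nil => simp
    | cons a l ih =>
      rw [List.map_cons, List.sum_cons, List.length_cons]
      have := h1 a List.mem_cons_self
      have := ih (fun z hz => h1 z (List.mem_cons_of_mem _ hz))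
      omega
  intro q
  split_ifs with hq
  · have h3 : (l.map e).sum = ∑ z ∈ l.toFinset, e z := by rw [List.sum_toFinset _ h]
    have h4 := List.toFinset_card_of_nodup h
    have h5 : q ∈ l.toFinset := List.mem_toFinset.2 hq
    have h6 := Finset.add_sum_erase l.toFinset e h5
    have h7 : (l.toFinset.erase q).card ≤ ∑ z ∈ l.toFinset.erase q, e z := by
      rw [Finset.card_eq_sum_ones]
      apply Finset.sum_le_sum
      intro z hz
      rw [mem_erase, List.mem_toFinset] at hz
      exact h1 z hz.2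
    rw [card_erase_of_mem h5] at h7
    have h8 := tot (e := e) h
    have h9 := h1 q hq
    omega
  · exact tot_zero h hE h2 hq

lemma on_list' {l : List P} (h : l.Nodup) (hE : ∑ x, e x ≤ l.length) (h1 : ∀ z ∈ l, 1 ≤ e z)
    {F : Finset P} (hF : ∀ q, q ∈ l ↔ q ∈ F) : SO.On e F := by
  intro q
  rw [on_list h hE h1 q]
  simp only [hF]

/-- energy five: reflection structure and enough charge -/
lemma rf5 (S : OS c c' t V Sd e) {y p : P} (R : RF c c' t V Sd e y p)
    (h4 : 4 ≤ ∑ z ∈ Sd, gg c c' e z) (hE : ∑ x, e x ≤ 5) :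
    ∃ w x x' a s b, TT c c' t V Sd w x x' a s b ∧ Disjoint {a, s, b} (c y) ∧
      SO.On e {w, x, x', p, y} := by
  have my := R.my
  have mp := R.mp
  have ty := R.ty
  have tp := R.tp
  have ey := R.hy
  have ep := R.hp
  have noy : ∀ z, z ∈ Sd → 1 ≤ e z → z ≠ p → y ∉ c z := by
    intro z _ ez hne hy
    have := R.ch z ((S.dual _ _).1 hy) hne
    omega
  have hfar : ∀ w ∈ Sd, t w = 2 → ¬ 0 < gg c c' e w := by
    intro w mw tw gw
    obtain ⟨h1, -, -⟩ := S.pos_two mw gw
    have ew := S.far_two mw tw gw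
    obtain ⟨x, x', hne, hc⟩ := card_eq_two.1 h1
    have hx : x ∈ c w := by rw [hc]; exact mem_insert_self _ _
    have hx' : x' ∈ c w := by rw [hc]; exact mem_insert_of_mem (mem_singleton_self _)
    obtain ⟨mx, tx, ex⟩ := S.cov mw (by omega) (by omega) hx
    obtain ⟨mx', tx', ex'⟩ := S.cov mw (by omega) (by omega) hx'
    have hwp : w ≠ p := by
      rintro rfl
      rw [R.cp, card_singleton] at h1
      omega
    have hn := noy w mw (by omega) hwp
    have d1 : y ≠ x := by
      rintro rfl
      exact hn hx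
    have d2 : y ≠ x' := by
      rintro rfl
      exact hn hx'
    have hT := tot (e := e) (show [w, x, x', p, y].Nodup by
          simp only [List.nodup_cons, List.mem_cons, List.not_mem_nil, or_false, not_or, List.nodup_nil,
            and_true, not_false_eq_true]
          and_intros
          all_goals first
            | assumption
            | (apply Ne.symm; assumption)
            | (intro hnd; subst hnd; omega)
            | (intro hnd; rw [hnd] at *; omega))
    simp only [List.map_cons, List.sum_cons, List.map_nil, List.sum_nil] at hT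
    omega
  obtain ⟨x1, m1, t1, g1, h1y⟩ : ∃ x ∈ Sd, t x = 1 ∧ 0 < gg c c' e x ∧ x ≠ y := by
    by_contra h
    push Not at h
    have h5 := S.sum_le {y} (fun z hz hg => by
      rw [mem_singleton]
      rcases S.pos_t' hz hg with tz | tz
      · exact h z hz tz hg
      · exact absurd hg (hfar z hz tz))
    rw [sum_singleton] at h5
    have := S.gg2 y
    omega
  obtain ⟨k1, k2, -⟩ := S.pos_two m1 g1
  have e1 := S.kl_e k2
  obtain ⟨z1, hz1, ez1⟩ := S.tch x1 m1 t1 e1
  obtain ⟨mz, tz, cz⟩ := S.chd (Or.inl m1) hz1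
  have hzp : z1 ≠ p := by
    rintro rfl
    rw [R.cp, mem_singleton] at cz
    exact h1y cz
  have hyz := noy z1 mz ez1 hzp
  have hc2 : (c z1).card = 2 := by
    by_contra h5
    have h6 := one_cov S.toSide0 mz cz h5
    exact hzp (S.pd z1 mz p mp (by omega) tp ez1 ep (by rw [h6, card_singleton])
      (by rw [R.cp, card_singleton]) ⟨x1, cz, k1⟩ ⟨y, by rw [R.cp]; exact mem_singleton_self _, R.two⟩)
  obtain ⟨x2, h21, hc⟩ := card_two_other hc2 cz
  have hx2 : x2 ∈ c z1 := by rw [hc]; exact mem_insert_of_mem (mem_singleton_self _)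
  obtain ⟨m2, t2, e2⟩ := S.cov mz (by omega) ez1 hx2
  have d2 : x2 ≠ y := by
    rintro rfl
    exact hyz hx2
  have n1 : [z1, x1, x2, p, y].Nodup := by
    simp only [List.nodup_cons, List.mem_cons, List.not_mem_nil, or_false, not_or, List.nodup_nil,
      and_true, not_false_eq_true]
    and_intros
    all_goals first
      | assumption
      | (apply Ne.symm; assumption)
      | (intro hnd; subst hnd; omega)
      | (intro hnd; rw [hnd] at *; omega)
  have n3 : 5 ≤ ([z1, x1, x2, p, y].map e).sum := by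
    simp only [List.map_cons, List.sum_cons, List.map_nil, List.sum_nil]
    omega
  have hT := tot (e := e) n1
  simp only [List.map_cons, List.sum_cons, List.map_nil, List.sum_nil] at hT
  have hV : ∀ s ∈ V, e s = 0 := by
    intro s hs
    have ts := S.tV s hs
    apply tot_zero n1 hE n3
    intro h5
    simp only [List.mem_cons, List.not_mem_nil, or_false] at h5
    rcases h5 with h5 | h5 | h5 | h5 | h5 <;> (subst h5; omega)
  obtain ⟨a1, s1, as1, ux1, sv, av, ma1, ms1, ds1⟩ :=
    S.common mz (by omega) ez1 cz hx2 h21.symm k1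
  have sx1 : s1 ∈ c x1 := by rw [ux1]; exact mem_insert_of_mem (mem_singleton_self _)
  have es1 := hV s1 ms1
  have g3 := S.shared_one h21.symm sx1 sv (by omega) (by omega)
  have g4 := S.shared_one h21 sv sx1 (by omega) (by omega)
  have g5 := S.gg2 y
  have hF := S.sum_le {x1, x2, y} (by
    intro q mq gq
    simp only [mem_insert, mem_singleton]
    rcases S.pos_t' mq gq with tq | tq
    · obtain ⟨-, k3, -⟩ := S.pos_two mq gq
      have h5 := tot_pos n1 hE n3 (S.kl_e k3)
      simp only [List.mem_cons, List.not_mem_nil, or_false] at h5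
      rcases h5 with h5 | h5 | h5 | h5 | h5
      · subst h5; omega
      · exact Or.inl h5
      · exact Or.inr (Or.inl h5)
      · subst h5; omega
      · exact Or.inr (Or.inr h5)
    · exact absurd gq (hfar q mq tq))
  rw [sum_insert (by simp only [mem_insert, mem_singleton, not_or]; exact ⟨h21.symm, h1y⟩),
    sum_pair d2] at hF
  obtain ⟨k5, -, -⟩ := S.pos_two m2 (show 0 < gg c c' e x2 by omega)
  obtain ⟨a, s, b, T⟩ := S.mkTT mz (by omega) ez1 hc h21.symm k1 k5
  refine ⟨z1, x1, x2, a, s, b, T, ?_, on_list' n1 hE ?_ ?_⟩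
  · rw [Finset.disjoint_left]
    intro q hq hq'
    have e0 := hV q (S.site my ty hq').1
    have k1 : q ∈ c x1 ∨ q ∈ c x2 := by
      simp only [mem_insert, mem_singleton] at hq
      rcases hq with rfl | rfl | rfl
      · exact Or.inl T.ax
      · exact Or.inl T.sx
      · exact Or.inr T.bx'
    rcases k1 with k1 | k1
    · have := S.shared_one h1y.symm hq' k1 (by omega) (by omega)
      omega
    · have := S.shared_one d2.symm hq' k1 (by omega) (by omega)
      omega
  · simp only [List.forall_mem_cons, List.not_mem_nil, false_imp_iff, implies_true, and_true]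
    omega
  · intro q
    simp only [List.mem_cons, List.not_mem_nil, or_false, mem_insert, mem_singleton]

end Pool.Agent.GaussPoset.Win.So

end

/-! From `Pool.Agent.W_448so_h63.DI` -/

section

/-!
Classification of the cores of S9 (row 476), two sides.
-/

set_option autoImplicit false

namespace Pool.Agent.GaussPoset.Win.So

set_option linter.unusedSectionVars false

open Finset I2

universe u

variable {P : Type u} [DecidableEq P]
variable {c c' : P → Finset P} {e : P → ℕ} {t t' : P → ℕ} {V Sd Sd' : Finset P} {psi : P → P}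

lemma TT.td {w x x' a s b : P} (T : TT c c' t V Sd w x x' a s b) : SO.TD c t Sd w x x' s where
  m := T.mw
  tw := T.tw
  cw := T.uw
  ne := T.xx'
  cx := T.cx2
  cx' := T.cx2'
  sx := T.sx
  sx' := T.sx'
  only := by
    intro v h1 h2
    rw [T.ux, mem_insert, mem_singleton] at h1
    rcases h1 with h1 | h1
    · subst h1
      rw [T.ux', mem_insert, mem_singleton] at h2
      rcases h2 with h2 | h2
      · exact h2
      · exact absurd h2 T.ab
    · exact h1

lemma TT.sites {w x x' a s b : P} (T : TT c c' t V Sd w x x' a s b) :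
    c x ∪ c x' = {a, s, b} := by
  rw [T.ux, T.ux']
  ext q
  simp only [mem_union, mem_insert, mem_singleton]
  tauto

lemma TG.tog {w x x' a s b : P} (T : TG c c' t V Sd e w x x' a s b) (h : e (psi x) = 0)
    (h' : e (psi x') = 0) : SO.Tog c c' t Sd psi e w x x' s where
  T := T.toTT.td
  w1 := T.hw
  x1 := T.hx
  x1' := T.hx'
  st := by
    rcases T.st with ⟨h1, h2, h3⟩ | ⟨h1, h2, h3⟩
    · left; omega
    · right; omega
  p0 := h
  p0' := h'
  dw := by
    intro z hz
    have := T.cw z hz
    omega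
  vx := by
    intro h1 v hv hvs
    rw [T.ux, mem_insert, mem_singleton] at hv
    rcases hv with rfl | rfl
    · exact T.ca (by omega)
    · exact absurd rfl hvs
  vx' := by
    intro h1 v hv hvs
    rw [T.ux', mem_insert, mem_singleton] at hv
    rcases hv with rfl | rfl
    · exact absurd rfl hvs
    · exact T.cc (by omega)
  dx := T.dx
  dx' := T.dx'

lemma RF.ref {y p : P} (R : RF c c' t V Sd e y p) (h : e (psi y) = 0) :
    SO.Ref c c' t Sd psi e p y where
  pen := ⟨R.mp, R.tp, R.cp, R.two⟩
  p1 := R.hp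
  u0 := h
  dy := R.ch
  dp := R.chp

variable [Fintype P]

/-- the whole surplus on one side -/
theorem case_i (S : OS c c' t V Sd e)
    (ps : ∀ y ∈ Sd, t y = 1 → (c y).card = 2 → 1 ≤ e y → e (psi y) = 0)
    (hE : ∑ x, e x ≤ 6) (h2 : 2 ≤ SO.kS c c' V Sd e) (h0 : SO.kS c' c V Sd' e ≤ 0) :
    (SO.kS c c' V Sd e + SO.kS c' c V Sd' e ≤ 2 ∧
      ∃ w x x' s, SO.Tog c c' t Sd psi e w x x' s) ∨
    ((∃ p y, SO.Ref c c' t Sd psi e p y) ∧ (∑ x, e x ≤ 5 → SO.TPp c t Sd e)) ∨
    SO.TTp c t Sd e ∨ SO.TCp c t Sd e ∨ SO.N1 c t Sd e ∨ SO.N5 c t Sd e := by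
  have h4 := z_kS (e := e) S.toSide0 S.adm
  by_cases hR : ∃ y p, RF c c' t V Sd e y p
  · obtain ⟨y, p, R⟩ := hR
    refine Or.inr (Or.inl ⟨⟨p, y, R.ref (ps y R.my R.ty R.two R.hy)⟩, fun h5 => ?_⟩)
    obtain ⟨w, x, x', a, s, b, T, hd, ho⟩ := rf5 S R (by omega) h5
    refine ⟨w, x, x', s, p, y, T.td, ⟨R.mp, R.tp, R.cp, R.two⟩, ?_, ho⟩
    rw [T.sites]
    exact hd
  · obtain ⟨h5, h6⟩ := S.one_sided (by omega) hR
    rcases h6 with ⟨w, x, x', a, s, b, T⟩ | ⟨w, x, x', a, s, b, z, T, ex, ex', mz, tz, cz, ez, ew⟩ |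
      ⟨w, x, x', a, s, b, z, p, y, T, my, mp, mz, ty, tp, tz, c2, cp, cz, hd, n1, hl⟩ |
      ⟨w, x, x', a, s, b, w', y, y', a', s', b', T, T', hd, n1, hl⟩
    · exact Or.inl ⟨by omega, w, x, x', s, T.tog (ps x T.mx T.tx T.cx2 T.hx)
        (ps x' T.mx' T.tx' T.cx2' T.hx')⟩
    · refine Or.inr (Or.inr (Or.inr (Or.inr (Or.inl ⟨z, w, x, x', s, T.td, mz, cz, ?_⟩))))
      have mw := T.mw
      have mx := T.mx
      have mx' := T.mx'
      have tw := T.tw
      have tx := T.tx
      have tx' := T.tx'
      have xx' := T.xx'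
      have n1 : [z, w, x, x'].Nodup := by
        simp only [List.nodup_cons, List.mem_cons, List.not_mem_nil, or_false, not_or, List.nodup_nil,
          and_true, not_false_eq_true]
        and_intros
        all_goals first
          | assumption
          | (apply Ne.symm; assumption)
          | (intro hnd; subst hnd; omega)
          | (intro hnd; rw [hnd] at *; omega)
      have hT := tot (e := e) n1
      simp only [List.map_cons, List.sum_cons, List.map_nil, List.sum_nil] at hT
      have n3 : 6 ≤ ([z, w, x, x'].map e).sum := by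
        simp only [List.map_cons, List.sum_cons, List.map_nil, List.sum_nil]
        omega
      intro q
      have hwx : w ≠ x := by rintro rfl; omega
      have hwx' : w ≠ x' := by rintro rfl; omega
      have hzx : z ≠ x := by rintro rfl; omega
      have hzx' : z ≠ x' := by rintro rfl; omega
      have hzw : z ≠ w := by rintro rfl; omega
      by_cases q1 : q = z
      · subst q1; rw [if_pos (Or.inl rfl)]; omega
      by_cases q2 : q = w
      · subst q2; rw [if_pos (Or.inr rfl)]; omega
      by_cases q3 : q = x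
      · subst q3; rw [if_neg (by rw [not_or]; exact ⟨q1, q2⟩), if_pos (Or.inl rfl)]; omega
      by_cases q4 : q = x'
      · subst q4; rw [if_neg (by rw [not_or]; exact ⟨q1, q2⟩), if_pos (Or.inr rfl)]; omega
      rw [if_neg (by rw [not_or]; exact ⟨q1, q2⟩), if_neg (by rw [not_or]; exact ⟨q3, q4⟩)]
      apply tot_zero n1 hE n3
      simp only [List.mem_cons, List.not_mem_nil, or_false, not_or]
      exact ⟨q1, q2, q3, q4⟩
    · rcases cz with cz | cz
      · refine Or.inr (Or.inr (Or.inr (Or.inl ⟨w, x, x', s, z, p, y, T.td,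
          ⟨mz, cz, ⟨mp, tp, cp, c2⟩⟩, ?_, on_list' n1 hE hl ?_⟩)))
        · rw [T.sites]
          exact hd
        · intro q
          simp only [List.mem_cons, List.not_mem_nil, or_false, mem_insert, mem_singleton]
      · refine Or.inr (Or.inr (Or.inr (Or.inr (Or.inr ⟨z, p, y, w, x, x', s, ⟨mp, tp, cp, c2⟩, T.td,
          mz, ?_, ?_, ?_, cz, ?_, on_list' n1 hE hl ?_⟩))))
        · rintro rfl; omega
        · rintro rfl
          have := T.tw
          omega
        · rintro rfl
          have h7 := T.uw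
          rw [cp] at h7
          have h8 := congrArg Finset.card h7
          rw [card_singleton, card_pair T.xx'] at h8
          omega
        · rw [T.sites]
          exact hd.symm
        · intro q
          simp only [List.mem_cons, List.not_mem_nil, or_false, mem_insert, mem_singleton]
          tauto
    · refine Or.inr (Or.inr (Or.inl ⟨w, x, x', s, w', y, y', s', T.td, T'.td, ?_,
        on_list' n1 hE hl ?_⟩))
      · rw [T.sites, T'.sites]
        exact hd
      · intro q
        simp only [List.mem_cons, List.not_mem_nil, or_false, mem_insert, mem_singleton]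

/-- sites of positive labels above and below -/
lemma dis_sites (W : SO.Two c c' t t' V Sd Sd' psi) (C : SO.Cfg c c' t t' V Sd Sd' psi e)
    (hV : ∀ s ∈ V, e s = 0) {x v : P} (mx : x ∈ Sd) (tx : t x = 1) (ex : 1 ≤ e x)
    (ev : 1 ≤ e v) : Disjoint (c x) (c' v) := by
  rw [Finset.disjoint_left]
  intro q h1 h2
  have hq : q ∈ V := by
    obtain ⟨k1, k2⟩ := W.s1.cin x mx q h1
    rcases k1 with k1 | k1
    · have := W.s1.tS q k1
      omega
    · exact k1
  have h0 := hV q hq
  have k1 : q ∈ KD c' e V := mem_KD.2 ⟨hq, x, (W.s1.dual _ _).1 h1, by omega⟩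
  have k2 : q ∈ KD c e V := mem_KD.2 ⟨hq, v, (W.s2.dual _ _).1 h2, by omega⟩
  exact disjoint_left.1 C.dis k1 k2

/-- an excited pendant on one side, an excited double at distance two on the other side -/
theorem case_AB (W : SO.Two c c' t t' V Sd Sd' psi) (C : SO.Cfg c c' t t' V Sd Sd' psi e)
    (S : OS c c' t V Sd e) (S' : OS c' c t' V Sd' e)
    (ps : ∀ y ∈ Sd, t y = 1 → (c y).card = 2 → 1 ≤ e y → e (psi y) = 0)
    (hE : ∑ x, e x ≤ 6) (hG : 2 ≤ ∑ z ∈ Sd', gg c' c e z) {y p w v v' : P}
    (my : y ∈ Sd) (mp : p ∈ Sd) (ty : t y = 1) (tp : t p = 2) (cp : c p = {y}) (ep : 1 ≤ e p)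
    (ey : 1 ≤ e y) (c2 : (c y).card = 2)
    (mw : w ∈ Sd') (mv : v ∈ Sd') (mv' : v' ∈ Sd') (tw : t' w = 2) (tv : t' v = 1)
    (tv' : t' v' = 1) (ew : 1 ≤ e w) (ev : 1 ≤ e v) (ev' : 1 ≤ e v') (cw : c' w = {v, v'})
    (vv' : v ≠ v') :
    ((∃ p y, SO.Ref c c' t Sd psi e p y) ∧ (∑ x, e x ≤ 5 → SO.TQp c' c t' t Sd' Sd e)) ∨
      SO.TVp c' c t' t Sd' Sd e := by
  have sS : ∀ {x v : P}, x ∈ Sd → v ∈ Sd' → x ≠ v := by
    rintro x v h1 h2 rfl
    exact disjoint_left.1 W.d3 h1 h2
  have sV : ∀ {x v : P}, x ∈ Sd → v ∈ V → x ≠ v := by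
    rintro x v h1 h2 rfl
    exact disjoint_left.1 W.d1 h1 h2
  have sV' : ∀ {x v : P}, x ∈ Sd' → v ∈ V → x ≠ v := by
    rintro x v h1 h2 rfl
    exact disjoint_left.1 W.d2 h1 h2
  by_cases hR : ∃ y p, RF c c' t V Sd e y p
  · left
    obtain ⟨y1, p1, R⟩ := hR
    refine ⟨⟨p1, y1, R.ref (ps y1 R.my R.ty R.two R.hy)⟩, fun h5 => ?_⟩
    have n1 : [w, v, v', p, y].Nodup := by
      simp only [List.nodup_cons, List.mem_cons, List.not_mem_nil, or_false, not_or, List.nodup_nil,
        and_true, not_false_eq_true]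
      and_intros
      all_goals first
        | assumption
        | (apply Ne.symm; assumption)
        | exact sS (by assumption) (by assumption)
        | exact Ne.symm (sS (by assumption) (by assumption))
        | (intro hnd; subst hnd; omega)
    have hT := tot (e := e) n1
    have n3 : 5 ≤ ([w, v, v', p, y].map e).sum := by
      simp only [List.map_cons, List.sum_cons, List.map_nil, List.sum_nil]
      omega
    simp only [List.map_cons, List.sum_cons, List.map_nil, List.sum_nil] at hT
    have hV : ∀ s ∈ V, e s = 0 := by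
      intro s hs
      apply tot_zero n1 h5 n3
      simp only [List.mem_cons, List.not_mem_nil, or_false, not_or]
      exact ⟨(sV' mw hs).symm, (sV' mv hs).symm, (sV' mv' hs).symm, (sV mp hs).symm,
        (sV my hs).symm⟩
    obtain ⟨a, s, b, T⟩ := t_of S' mw tw ew cw vv' (by
      intro q mq gq
      obtain ⟨-, k3, -⟩ := S'.pos_two mq gq
      have h6 := tot_pos n1 h5 n3 (S'.kl_e k3)
      simp only [List.mem_cons, List.not_mem_nil, or_false] at h6
      rcases h6 with h6 | h6 | h6 | h6 | h6
      · subst h6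
        have := S'.far_two mq tw gq
        omega
      · exact Or.inl h6
      · exact Or.inr h6
      · exact absurd h6.symm (sS mp mq)
      · exact absurd h6.symm (sS my mq)) hV hG
    refine ⟨w, v, v', s, p, y, T.td, ⟨mp, tp, cp, c2⟩, ?_, on_list' n1 h5 ?_ ?_⟩
    · rw [Finset.disjoint_union_left]
      exact ⟨(dis_sites W C hV my ty ey ev).symm, (dis_sites W C hV my ty ey ev').symm⟩
    · simp only [List.forall_mem_cons, List.not_mem_nil, false_imp_iff, implies_true, and_true]
      first | omega | (and_intros <;> assumption)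
    · intro q
      simp only [List.mem_cons, List.not_mem_nil, or_false, mem_insert, mem_singleton]
  · right
    obtain ⟨q, mq, eq, hq⟩ := S.rf_or my ty c2 ey cp ep hR
    have hqp : q ≠ p := by
      rcases hq with ⟨-, -, h, -⟩ | ⟨h, -⟩
      · exact h
      · rintro rfl
        omega
    have tq : t q = 2 ∨ t q = 3 := by
      rcases hq with ⟨h, -⟩ | ⟨h, -⟩
      · exact Or.inl h
      · exact Or.inr h
    have n1 : [w, v, v', q, p, y].Nodup := by
      simp only [List.nodup_cons, List.mem_cons, List.not_mem_nil, or_false, not_or, List.nodup_nil,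
        and_true, not_false_eq_true]
      and_intros
      all_goals first
        | assumption
        | (apply Ne.symm; assumption)
        | exact sS (by assumption) (by assumption)
        | exact Ne.symm (sS (by assumption) (by assumption))
        | (intro hnd; subst hnd; omega)
    have hT := tot (e := e) n1
    have n3 : 6 ≤ ([w, v, v', q, p, y].map e).sum := by
      simp only [List.map_cons, List.sum_cons, List.map_nil, List.sum_nil]
      omega
    simp only [List.map_cons, List.sum_cons, List.map_nil, List.sum_nil] at hT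
    have inl : ∀ z ∈ Sd, 1 ≤ e z → z = q ∨ z = p ∨ z = y := by
      intro z mz ez
      have h6 := tot_pos n1 hE n3 ez
      simp only [List.mem_cons, List.not_mem_nil, or_false] at h6
      rcases h6 with h6 | h6 | h6 | h6 | h6 | h6
      · exact absurd h6 (sS mz mw)
      · exact absurd h6 (sS mz mv)
      · exact absurd h6 (sS mz mv')
      · exact Or.inl h6
      · exact Or.inr (Or.inl h6)
      · exact Or.inr (Or.inr h6)
    rcases hq with ⟨tq, hy, -, v1, h1, h2, mv1, tv1, ev1⟩ | ⟨tq, hp⟩
    · exfalso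
      rcases inl v1 mv1 ev1 with h3 | h3 | h3
      · subst h3; omega
      · subst h3; omega
      · exact h1 h3
    · have cq : c q = {p} := by
        by_cases h3 : (c q).card = 2
        · exfalso
          obtain ⟨p1, h4, h5⟩ := card_two_other h3 hp
          have h6 : p1 ∈ c q := by rw [h5]; exact mem_insert_of_mem (mem_singleton_self _)
          obtain ⟨k1, k2, k3⟩ := S.cov mq (by omega) eq h6
          rcases inl p1 k1 k3 with h7 | h7 | h7
          · subst h7; omega
          · exact h4 h7
          · subst h7; omega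
        · exact one_cov S.toSide0 mq hp h3
      have hV : ∀ s ∈ V, e s = 0 := by
        intro s hs
        apply tot_zero n1 hE n3
        simp only [List.mem_cons, List.not_mem_nil, or_false, not_or]
        exact ⟨(sV' mw hs).symm, (sV' mv hs).symm, (sV' mv' hs).symm, (sV mq hs).symm,
          (sV mp hs).symm, (sV my hs).symm⟩
      obtain ⟨a, s, b, T⟩ := t_of S' mw tw ew cw vv' (by
        intro z mz gz
        obtain ⟨-, k3, -⟩ := S'.pos_two mz gz
        have h6 := tot_pos n1 hE n3 (S'.kl_e k3)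
        simp only [List.mem_cons, List.not_mem_nil, or_false] at h6
        rcases h6 with h6 | h6 | h6 | h6 | h6 | h6
        · subst h6
          have := S'.far_two mz tw gz
          omega
        · exact Or.inl h6
        · exact Or.inr h6
        · exact absurd h6.symm (sS mq mz)
        · exact absurd h6.symm (sS mp mz)
        · exact absurd h6.symm (sS my mz)) hV hG
      refine ⟨w, v, v', s, q, p, y, T.td, ⟨mq, cq, ⟨mp, tp, cp, c2⟩⟩, ?_, on_list' n1 hE ?_ ?_⟩
      · rw [Finset.disjoint_union_left]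
        exact ⟨(dis_sites W C hV my ty ey ev).symm, (dis_sites W C hV my ty ey ev').symm⟩
      · simp only [List.forall_mem_cons, List.not_mem_nil, false_imp_iff, implies_true, and_true]
        first | omega | (and_intros <;> assumption)
      · intro q
        simp only [List.mem_cons, List.not_mem_nil, or_false, mem_insert, mem_singleton]

/-- excited doubles at distance two on both sides -/
theorem case_BB (W : SO.Two c c' t t' V Sd Sd' psi) (C : SO.Cfg c c' t t' V Sd Sd' psi e)
    (S : OS c c' t V Sd e) (S' : OS c' c t' V Sd' e)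
    (hE : ∑ x, e x ≤ 6) (hG : 2 ≤ ∑ z ∈ Sd, gg c c' e z) (hG' : 2 ≤ ∑ z ∈ Sd', gg c' c e z)
    {w x x' w' v v' : P}
    (mw : w ∈ Sd) (mx : x ∈ Sd) (mx' : x' ∈ Sd) (tw : t w = 2) (tx : t x = 1)
    (tx' : t x' = 1) (ew : 1 ≤ e w) (ex : 1 ≤ e x) (ex' : 1 ≤ e x') (cw : c w = {x, x'})
    (xx' : x ≠ x')
    (mw' : w' ∈ Sd') (mv : v ∈ Sd') (mv' : v' ∈ Sd') (tw' : t' w' = 2) (tv : t' v = 1)
    (tv' : t' v' = 1) (ew' : 1 ≤ e w') (ev : 1 ≤ e v) (ev' : 1 ≤ e v') (cw' : c' w' = {v, v'})
    (vv' : v ≠ v') : SO.TUp c c' t t' Sd Sd' e := by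
  have sS : ∀ {x v : P}, x ∈ Sd → v ∈ Sd' → x ≠ v := by
    rintro x v h1 h2 rfl
    exact disjoint_left.1 W.d3 h1 h2
  have sV : ∀ {x v : P}, x ∈ Sd → v ∈ V → x ≠ v := by
    rintro x v h1 h2 rfl
    exact disjoint_left.1 W.d1 h1 h2
  have sV' : ∀ {x v : P}, x ∈ Sd' → v ∈ V → x ≠ v := by
    rintro x v h1 h2 rfl
    exact disjoint_left.1 W.d2 h1 h2
  have n1 : [w, x, x', w', v, v'].Nodup := by
    simp only [List.nodup_cons, List.mem_cons, List.not_mem_nil, or_false, not_or, List.nodup_nil,
      and_true, not_false_eq_true]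
    and_intros
    all_goals first
      | assumption
      | (apply Ne.symm; assumption)
      | exact sS (by assumption) (by assumption)
      | exact Ne.symm (sS (by assumption) (by assumption))
      | (intro hnd; subst hnd; omega)
  have hT := tot (e := e) n1
  have n3 : 6 ≤ ([w, x, x', w', v, v'].map e).sum := by
    simp only [List.map_cons, List.sum_cons, List.map_nil, List.sum_nil]
    omega
  simp only [List.map_cons, List.sum_cons, List.map_nil, List.sum_nil] at hT
  have hV : ∀ s ∈ V, e s = 0 := by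
    intro s hs
    apply tot_zero n1 hE n3
    simp only [List.mem_cons, List.not_mem_nil, or_false, not_or]
    exact ⟨(sV mw hs).symm, (sV mx hs).symm, (sV mx' hs).symm, (sV' mw' hs).symm,
      (sV' mv hs).symm, (sV' mv' hs).symm⟩
  obtain ⟨a, s, b, T⟩ := t_of S mw tw ew cw xx' (by
    intro z mz gz
    obtain ⟨-, k3, -⟩ := S.pos_two mz gz
    have h6 := tot_pos n1 hE n3 (S.kl_e k3)
    simp only [List.mem_cons, List.not_mem_nil, or_false] at h6
    rcases h6 with h6 | h6 | h6 | h6 | h6 | h6
    · subst h6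
      have := S.far_two mz tw gz
      omega
    · exact Or.inl h6
    · exact Or.inr h6
    · exact absurd h6 (sS mz mw')
    · exact absurd h6 (sS mz mv)
    · exact absurd h6 (sS mz mv')) hV hG
  obtain ⟨a', s', b', T'⟩ := t_of S' mw' tw' ew' cw' vv' (by
    intro z mz gz
    obtain ⟨-, k3, -⟩ := S'.pos_two mz gz
    have h6 := tot_pos n1 hE n3 (S'.kl_e k3)
    simp only [List.mem_cons, List.not_mem_nil, or_false] at h6
    rcases h6 with h6 | h6 | h6 | h6 | h6 | h6
    · exact absurd h6.symm (sS mw mz)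
    · exact absurd h6.symm (sS mx mz)
    · exact absurd h6.symm (sS mx' mz)
    · subst h6
      have := S'.far_two mz tw' gz
      omega
    · exact Or.inl h6
    · exact Or.inr h6) hV hG'
  refine ⟨w, x, x', s, w', v, v', s', T.td, T'.td, ?_, on_list' n1 hE ?_ ?_⟩
  · rw [Finset.disjoint_union_left, Finset.disjoint_union_right, Finset.disjoint_union_right]
    exact ⟨⟨dis_sites W C hV mx tx ex ev, dis_sites W C hV mx tx ex ev'⟩,
      dis_sites W C hV mx' tx' ex' ev, dis_sites W C hV mx' tx' ex' ev'⟩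
  · simp only [List.forall_mem_cons, List.not_mem_nil, false_imp_iff, implies_true, and_true]
    first | omega | (and_intros <;> assumption)
  · intro q
    simp only [List.mem_cons, List.not_mem_nil, or_false, mem_insert, mem_singleton]

end Pool.Agent.GaussPoset.Win.So

end

/-! From `Pool.Agent.W_448so_h63.DJ` -/

section

/-!
Classification of the cores of S9 (row 476): THE CLASSIFICATION in the form of `W_448so_h64/SoE`.
-/

set_option autoImplicit false

namespace Pool.Agent.GaussPoset.Win.So

set_option linter.unusedSectionVars false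

open Finset I2

universe u

variable {P : Type u} [DecidableEq P]
variable {c c' : P → Finset P} {e : P → ℕ} {t t' : P → ℕ} {V Sd Sd' : Finset P} {psi : P → P}

/-- the leftover list of energy six -/
def L6 (c c' : P → Finset P) (t t' : P → ℕ) (Sd Sd' : Finset P) (e : P → ℕ) : Prop :=
  SO.TTp c t Sd e ∨ SO.TTp c' t' Sd' e ∨ SO.TCp c t Sd e ∨ SO.TCp c' t' Sd' e ∨
    SO.TUp c c' t t' Sd Sd' e ∨
    SO.TVp c c' t t' Sd Sd' e ∨ SO.TVp c' c t' t Sd' Sd e ∨ SO.N1 c t Sd e ∨ SO.N1 c' t' Sd' e ∨
    SO.N5 c t Sd e ∨ SO.N5 c' t' Sd' e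

/-- the leftover list of energy five -/
def L5 (c c' : P → Finset P) (t t' : P → ℕ) (Sd Sd' : Finset P) (e : P → ℕ) : Prop :=
  SO.TPp c t Sd e ∨ SO.TPp c' t' Sd' e ∨ SO.TQp c c' t t' Sd Sd' e ∨ SO.TQp c' c t' t Sd' Sd e

lemma eq_pair {s : Finset P} {x x' : P} (h : s.card ≤ 2) (hne : x ≠ x') (hx : x ∈ s)
    (hx' : x' ∈ s) : s = {x, x'} := by
  symm
  apply Finset.eq_of_subset_of_card_le
  · intro q hq
    rw [mem_insert, mem_singleton] at hq
    rcases hq with rfl | rfl
    · exact hx
    · exact hx'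
  · rw [card_pair hne]
    exact h

variable [Fintype P]

lemma os_of (S : SO.Sde c c' t V Sd) (nl : SO.NL c t Sd)
    (adm : ∀ z ∈ Sd, ¬ (kd c' e z ∧ gu c e z))
    (near : ∀ x ∈ Sd, t x = 1 → 0 < e x → ∃ z ∈ c' x, 0 < e z) (pd : SO.PDx c t Sd e)
    (hC : ¬ SO.Clo c t Sd e) (hE : ∑ x, e x ≤ 6) : OS c c' t V Sd e where
  toSide0 := side0_of S
  adm := adm
  nl := by
    intro z mz tz _ x hx x' hx' hne h2
    rcases nl z mz tz x hx x' hx' hne with h | h
    · exact h
    · omega
  nc := by
    intro x mx x' mx' hne tx tx' h2 h2' z z' h3 h4 h5 h6 ez ez'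
    by_contra h7
    have d : ∀ {x z : P}, x ∈ Sd → t x = 1 → z ∈ c' x → z ∈ Sd ∧ t z = 2 ∧ x ∈ c z := by
      intro x z mx tx hz
      obtain ⟨k1, k2, k3⟩ := z_chd (side0_of S) (Or.inl mx) hz
      exact ⟨k1, by omega, k3⟩
    exact hC ⟨z, z', x, x', (d mx tx h3).1, (d mx tx h5).1, (d mx tx h3).2.1, (d mx tx h5).2.1,
      h7, hne, eq_pair (S.c2 z) hne (d mx tx h3).2.2 (d mx' tx' h4).2.2,
      eq_pair (S.c2 z') hne (d mx tx h5).2.2 (d mx' tx' h6).2.2, h2, h2', ez, ez'⟩
  pd := by
    intro z mz z' mz' tz tz' ez ez' h1 h1' h2 h2'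
    have d : ∀ {z : P}, z ∈ Sd → t z = 2 → (c z).card = 1 → (∃ x ∈ c z, (c x).card = 2) →
        ∃ y, SO.Pen c t Sd z y := by
      intro z mz tz h1 h2
      obtain ⟨x, hx, h3⟩ := h2
      obtain ⟨y, hy⟩ := card_eq_one.1 h1
      rw [hy, mem_singleton] at hx
      subst hx
      exact ⟨x, mz, tz, hy, h3⟩
    obtain ⟨y, hy⟩ := d mz tz h1 h2
    obtain ⟨y', hy'⟩ := d mz' tz' h1' h2'
    exact pd z y z' y' hy hy' ez ez'
  tch := near
  en := (Finset.sum_le_sum_of_subset (subset_univ _)).trans hE

/-- THE CLASSIFICATION, energy at most six -/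
theorem classify (W : SO.Two c c' t t' V Sd Sd' psi) (C : SO.Cfg c c' t t' V Sd Sd' psi e)
    (pd : SO.PDx c t Sd e) (pd' : SO.PDx c' t' Sd' e) (hE : ∑ x, e x ≤ 6) :
    SO.kS c c' V Sd e + SO.kS c' c V Sd' e ≤ 1 ∨ SO.Clo c t Sd e ∨ SO.Clo c' t' Sd' e ∨
    (∃ p y p' u, SO.Pen c t Sd p y ∧ SO.Pen c' t' Sd' p' u ∧ 0 < e p ∧ 0 < e p' ∧ u ≠ psi y) ∨
    (SO.kS c c' V Sd e + SO.kS c' c V Sd' e ≤ 2 ∧
      ((∃ w x x' s, SO.Tog c c' t Sd psi e w x x' s) ∨
        ∃ w x x' s, SO.Tog c' c t' Sd' psi e w x x' s)) ∨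
    (((∃ p y, SO.Ref c c' t Sd psi e p y) ∨ ∃ p y, SO.Ref c' c t' Sd' psi e p y) ∧
      (∑ x, e x ≤ 5 → L5 c c' t t' Sd Sd' e)) ∨
    L6 c c' t t' Sd Sd' e := by
  by_cases hk : SO.kS c c' V Sd e + SO.kS c' c V Sd' e ≤ 1
  · exact Or.inl hk
  by_cases h1 : SO.Clo c t Sd e
  · exact Or.inr (Or.inl h1)
  by_cases h2 : SO.Clo c' t' Sd' e
  · exact Or.inr (Or.inr (Or.inl h2))
  by_cases h3 : ∃ p y p' u, SO.Pen c t Sd p y ∧ SO.Pen c' t' Sd' p' u ∧ 0 < e p ∧ 0 < e p' ∧
      u ≠ psi y
  · exact Or.inr (Or.inr (Or.inr (Or.inl h3)))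
  have hk' : ¬ SO.kS c' c V Sd' e + SO.kS c c' V Sd e ≤ 1 := by omega
  have near : ∀ x ∈ Sd, t x = 1 → 0 < e x → ∃ z ∈ c' x, 0 < e z := by
    intro x mx tx ex
    rcases C.core1 x mx tx ex with h | ⟨h4, z, hz, ez⟩
    · exact h
    · exact absurd (partner_main W C hE mx tx ex h4 hz ez) hk
  have near' : ∀ x ∈ Sd', t' x = 1 → 0 < e x → ∃ z ∈ c x, 0 < e z := by
    intro x mx tx ex
    rcases C.core2 x mx tx ex with h | ⟨h4, z, hz, ez⟩
    · exact h
    · exact absurd (partner_main W.symm C.symm hE mx tx ex h4 hz ez) hk'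
  have S := os_of W.s1 W.nl1 C.adm1 near pd h1 hE
  have S' := os_of W.s2 W.nl2 C.adm2 near' pd' h2 hE
  have ps : ∀ y ∈ Sd, t y = 1 → (c y).card = 2 → 1 ≤ e y → e (psi y) = 0 := by
    intro y my ty hy ey
    by_contra h4
    obtain ⟨g1, g2, -, -⟩ := W.psi1 y my ty hy
    obtain ⟨z, hz, ez⟩ := near' _ g1 g2 (by omega)
    exact hk (partner_main W C hE my ty ey hy hz ez)
  have ps' : ∀ y ∈ Sd', t' y = 1 → (c' y).card = 2 → 1 ≤ e y → e (psi y) = 0 := by
    intro y my ty hy ey
    by_contra h4
    obtain ⟨g1, g2, -, -⟩ := W.psi2 y my ty hy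
    obtain ⟨z, hz, ez⟩ := near _ g1 g2 (by omega)
    exact hk' (partner_main W.symm C.symm hE my ty ey hy hz ez)
  have k1 := z_kS (e := e) S.toSide0 S.adm
  have k2 := z_kS (e := e) S'.toSide0 S'.adm
  by_cases h4 : SO.kS c' c V Sd' e ≤ 0
  · rcases case_i (Sd' := Sd') (psi := psi) S ps hE (by omega) h4 with h | h | h | h | h | h
    · exact Or.inr (Or.inr (Or.inr (Or.inr (Or.inl ⟨h.1, Or.inl h.2⟩))))
    · exact Or.inr (Or.inr (Or.inr (Or.inr (Or.inr (Or.inl ⟨Or.inl h.1, fun h5 =>
        Or.inl (h.2 h5)⟩)))))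
    · exact Or.inr (Or.inr (Or.inr (Or.inr (Or.inr (Or.inr (Or.inl h))))))
    · exact Or.inr (Or.inr (Or.inr (Or.inr (Or.inr (Or.inr (Or.inr (Or.inr (Or.inl h))))))))
    · exact Or.inr (Or.inr (Or.inr (Or.inr (Or.inr (Or.inr (Or.inr (Or.inr (Or.inr (Or.inr
        (Or.inr (Or.inr (Or.inr (Or.inl h)))))))))))))
    · exact Or.inr (Or.inr (Or.inr (Or.inr (Or.inr (Or.inr (Or.inr (Or.inr (Or.inr (Or.inr
        (Or.inr (Or.inr (Or.inr (Or.inr (Or.inr (Or.inl h)))))))))))))))
  by_cases h5 : SO.kS c c' V Sd e ≤ 0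
  · rcases case_i (Sd' := Sd) (psi := psi) S' ps' hE (by omega) h5 with h | h | h | h | h | h
    · exact Or.inr (Or.inr (Or.inr (Or.inr (Or.inl ⟨by omega, Or.inr h.2⟩))))
    · exact Or.inr (Or.inr (Or.inr (Or.inr (Or.inr (Or.inl ⟨Or.inr h.1, fun h5 =>
        Or.inr (Or.inl (h.2 h5))⟩)))))
    · exact Or.inr (Or.inr (Or.inr (Or.inr (Or.inr (Or.inr (Or.inr (Or.inl h)))))))
    · exact Or.inr (Or.inr (Or.inr (Or.inr (Or.inr (Or.inr (Or.inr (Or.inr (Or.inr
        (Or.inl h)))))))))
    · exact Or.inr (Or.inr (Or.inr (Or.inr (Or.inr (Or.inr (Or.inr (Or.inr (Or.inr (Or.inr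
        (Or.inr (Or.inr (Or.inr (Or.inr (Or.inl h))))))))))))))
    · exact Or.inr (Or.inr (Or.inr (Or.inr (Or.inr (Or.inr (Or.inr (Or.inr (Or.inr (Or.inr
        (Or.inr (Or.inr (Or.inr (Or.inr (Or.inr (Or.inr h)))))))))))))))
  rcases one_struct S (by omega) with ⟨y, p, my, mp, ty, tp, cp, ep, ey, c2⟩ |
    ⟨w, x, x', mw, mx, mx', tw, tx, tx', ew, ex, ex', cw, xx'⟩
  · rcases one_struct S' (by omega) with ⟨u, p', mu, mp', tu, tp', cp', ep', eu, c2'⟩ |
      ⟨w', v, v', mw', mv, mv', tw', tv, tv', ew', ev, ev', cw', vv'⟩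
    · exfalso
      apply h3
      refine ⟨p, y, p', u, ⟨mp, tp, cp, c2⟩, ⟨mp', tp', cp', c2'⟩, ep, ep', ?_⟩
      rintro rfl
      have := ps y my ty c2 ey
      omega
    · rcases case_AB W C S S' ps hE (by omega) my mp ty tp cp ep ey c2 mw' mv mv' tw' tv tv' ew'
        ev ev' cw' vv' with h | h
      · exact Or.inr (Or.inr (Or.inr (Or.inr (Or.inr (Or.inl ⟨Or.inl h.1, fun h5 =>
          Or.inr (Or.inr (Or.inr (h.2 h5)))⟩)))))
      · exact Or.inr (Or.inr (Or.inr (Or.inr (Or.inr (Or.inr (Or.inr (Or.inr (Or.inr (Or.inr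
          (Or.inr (Or.inr (Or.inl h))))))))))))
  · rcases one_struct S' (by omega) with ⟨u, p', mu, mp', tu, tp', cp', ep', eu, c2'⟩ |
      ⟨w', v, v', mw', mv, mv', tw', tv, tv', ew', ev, ev', cw', vv'⟩
    · rcases case_AB W.symm C.symm S' S ps' hE (by omega) mu mp' tu tp' cp' ep' eu c2' mw mx mx'
        tw tx tx' ew ex ex' cw xx' with h | h
      · exact Or.inr (Or.inr (Or.inr (Or.inr (Or.inr (Or.inl ⟨Or.inr h.1, fun h5 =>
          Or.inr (Or.inr (Or.inl (h.2 h5)))⟩)))))
      · exact Or.inr (Or.inr (Or.inr (Or.inr (Or.inr (Or.inr (Or.inr (Or.inr (Or.inr (Or.inr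
          (Or.inr (Or.inl h)))))))))))
    · exact Or.inr (Or.inr (Or.inr (Or.inr (Or.inr (Or.inr (Or.inr (Or.inr (Or.inr (Or.inr
        (Or.inl (case_BB W C S S' hE (by omega) (by omega) mw mx mx' tw tx tx' ew ex ex' cw xx'
          mw' mv mv' tw' tv tv' ew' ev ev' cw' vv')))))))))))

end Pool.Agent.GaussPoset.Win.So

end

/-! From `Pool.Agent.W_448so_h63.DK` -/

section

/-!
Classification of the cores of S9 (row 476): closed pairs and flips at energy five
(`clo5`, `flip5` of `W_448so_h64/SoE`).
-/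

set_option autoImplicit false

namespace Pool.Agent.GaussPoset.Win.So

set_option linter.unusedSectionVars false

open Finset I2

universe u

variable {P : Type u} [DecidableEq P] [Fintype P]
variable {c c' : P → Finset P} {e : P → ℕ} {t t' : P → ℕ} {V Sd Sd' : Finset P} {psi : P → P}

/-- a site is not killed from both sides -/
lemma not_both (W : SO.Two c c' t t' V Sd Sd' psi) (C : SO.Cfg c c' t t' V Sd Sd' psi e)
    {x v q : P} (mx : x ∈ Sd) (tx : t x = 1) (h1 : q ∈ c x) (h2 : q ∈ c' v) :
    q ∈ V ∧ (e x ≤ e q ∨ e v ≤ e q) := by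
  have hq : q ∈ V := by
    obtain ⟨k1, k2⟩ := W.s1.cin x mx q h1
    rcases k1 with k1 | k1
    · have := W.s1.tS q k1
      omega
    · exact k1
  refine ⟨hq, ?_⟩
  by_contra h
  push Not at h
  have k1 : q ∈ KD c' e V := mem_KD.2 ⟨hq, x, (W.s1.dual _ _).1 h1, h.1⟩
  have k2 : q ∈ KD c e V := mem_KD.2 ⟨hq, v, (W.s2.dual _ _).1 h2, h.2⟩
  exact disjoint_left.1 C.dis k1 k2

theorem flip5 (W : SO.Two c c' t t' V Sd Sd' psi) (C : SO.Cfg c c' t t' V Sd Sd' psi e)
    (hE : ∑ x, e x ≤ 5) {p y p' u s : P} (hp : SO.Pen c t Sd p y) (hp' : SO.Pen c' t' Sd' p' u)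
    (h1 : 0 < e p) (h1' : 0 < e p') (hs : c y ∩ c' u = {s}) : SO.On e {p, y, s, u, p'} := by
  have sS : ∀ {x v : P}, x ∈ Sd → v ∈ Sd' → x ≠ v := by
    rintro x v h1 h2 rfl
    exact disjoint_left.1 W.d3 h1 h2
  have sV : ∀ {x v : P}, x ∈ Sd → v ∈ V → x ≠ v := by
    rintro x v h1 h2 rfl
    exact disjoint_left.1 W.d1 h1 h2
  have sV' : ∀ {x v : P}, x ∈ Sd' → v ∈ V → x ≠ v := by
    rintro x v h1 h2 rfl
    exact disjoint_left.1 W.d2 h1 h2
  have mp := hp.m
  have mp' := hp'.m
  have tp := hp.tp
  have tp' := hp'.tp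
  obtain ⟨my, ty, ey⟩ := z_cov (side0_of W.s1) C.adm1 mp (by omega) h1
    (show y ∈ c p by rw [hp.cp]; exact mem_singleton_self _)
  obtain ⟨mu, tu, eu⟩ := z_cov (side0_of W.s2) C.adm2 mp' (by omega) h1'
    (show u ∈ c' p' by rw [hp'.cp]; exact mem_singleton_self _)
  have h2 : s ∈ c y ∩ c' u := by rw [hs]; exact mem_singleton_self _
  rw [mem_inter] at h2
  obtain ⟨ms, h3⟩ := not_both W C my (by omega) h2.1 h2.2
  have d1 : p ≠ y := by rintro rfl; omega
  have d2 : u ≠ p' := by rintro rfl; omega
  have n1 : [p, y, s, u, p'].Nodup := by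
    simp only [List.nodup_cons, List.mem_cons, List.not_mem_nil, or_false, not_or, List.nodup_nil,
      and_true, not_false_eq_true]
    exact ⟨⟨d1, sV mp ms, sS mp mu, sS mp mp'⟩, ⟨sV my ms, sS my mu, sS my mp'⟩,
      ⟨(sV' mu ms).symm, (sV' mp' ms).symm⟩, d2⟩
  refine on_list' n1 hE ?_ ?_
  · simp only [List.forall_mem_cons, List.not_mem_nil, false_imp_iff, implies_true, and_true]
    first | omega | (and_intros <;> assumption)
  · intro q
    simp only [List.mem_cons, List.not_mem_nil, or_false, mem_insert, mem_singleton]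

theorem clo5 (W : SO.Two c c' t t' V Sd Sd' psi) (C : SO.Cfg c c' t t' V Sd Sd' psi e)
    (hE : ∑ x, e x ≤ 5) (h : SO.Clo c t Sd e) :
    SO.kS c c' V Sd e + SO.kS c' c V Sd' e ≤ 1 ∨
    (∃ w w' x x' s, SO.TD c t Sd w x x' s ∧ SO.TD c t Sd w' x x' s ∧ w ≠ w' ∧
      ((∀ y, e y = if y = w then 2 else if y = w' ∨ y = x ∨ y = x' then 1 else 0) ∨
        SO.On e {w, w', x, x', s})) := by
  obtain ⟨w, w', x, x', mw, mw', tw, tw', hww, xx', cw, cw', c2, c2', ew, ew'⟩ := h
  have S := side0_of W.s1
  have S' := side0_of W.s2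
  have sS : ∀ {x v : P}, x ∈ Sd → v ∈ Sd' → x ≠ v := by
    rintro x v h1 h2 rfl
    exact disjoint_left.1 W.d3 h1 h2
  have hx : x ∈ c w := by rw [cw]; exact mem_insert_self _ _
  have hx' : x' ∈ c w := by rw [cw]; exact mem_insert_of_mem (mem_singleton_self _)
  obtain ⟨mx, tx, ex⟩ := z_cov S C.adm1 mw (by omega) ew hx
  obtain ⟨mx', tx', ex'⟩ := z_cov S C.adm1 mw (by omega) ew hx'
  have tx1 : t x = 1 := by omega
  have tx1' : t x' = 1 := by omega
  obtain ⟨s, hs⟩ : ∃ s, c x ∩ c x' = {s} := by
    rcases W.nl1 w mw tw x hx x' hx' xx' with h1 | h1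
    · exact card_eq_one.1 h1
    · omega
  have hs1 : s ∈ c x ∩ c x' := by rw [hs]; exact mem_singleton_self _
  rw [mem_inter] at hs1
  have only : ∀ v, v ∈ c x → v ∈ c x' → v = s := by
    intro v h1 h2
    have : v ∈ c x ∩ c x' := mem_inter.2 ⟨h1, h2⟩
    rwa [hs, mem_singleton] at this
  have T : SO.TD c t Sd w x x' s := ⟨mw, tw, cw, xx', c2, c2', hs1.1, hs1.2, only⟩
  have T' : SO.TD c t Sd w' x x' s := ⟨mw', tw', cw', xx', c2, c2', hs1.1, hs1.2, only⟩
  have ms : s ∈ V := by
    obtain ⟨k1, k2⟩ := S.cin x mx s hs1.1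
    rcases k1 with k1 | k1
    · have := S.tS s k1
      omega
    · exact k1
  have ts := S.tV s ms
  have n0 : [w, w', x, x'].Nodup := by
    simp only [List.nodup_cons, List.mem_cons, List.not_mem_nil, or_false, not_or, List.nodup_nil,
      and_true, not_false_eq_true]
    and_intros
    all_goals first
      | assumption
      | (apply Ne.symm; assumption)
      | (intro hnd; subst hnd; omega)
      | (intro hnd; rw [hnd] at *; omega)
  have hT := tot (e := e) n0
  simp only [List.map_cons, List.sum_cons, List.map_nil, List.sum_nil] at hT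
  have two : ∀ {w w' : P}, [w, w', x, x'].Nodup → 2 ≤ e w → 1 ≤ e w' →
      ∀ y, e y = if y = w then 2 else if y = w' ∨ y = x ∨ y = x' then 1 else 0 := by
    intro w w' n0 h2 h3 y
    have hT := tot (e := e) n0
    simp only [List.map_cons, List.sum_cons, List.map_nil, List.sum_nil] at hT
    by_cases q1 : y = w
    · subst q1; rw [if_pos rfl]; omega
    rw [if_neg q1]
    by_cases q2 : y = w'
    · subst q2; rw [if_pos (Or.inl rfl)]; omega
    by_cases q3 : y = x
    · subst q3; rw [if_pos (Or.inr (Or.inl rfl))]; omega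
    by_cases q4 : y = x'
    · subst q4; rw [if_pos (Or.inr (Or.inr rfl))]; omega
    rw [if_neg (by rw [not_or, not_or]; exact ⟨q2, q3, q4⟩)]
    apply tot_zero n0 hE
    · simp only [List.map_cons, List.sum_cons, List.map_nil, List.sum_nil]
      omega
    · simp only [List.mem_cons, List.not_mem_nil, or_false, not_or]
      exact ⟨q1, q2, q3, q4⟩
  by_cases h2 : 2 ≤ e w
  · exact Or.inr ⟨w, w', x, x', s, T, T', hww, Or.inl (two n0 h2 ew')⟩
  by_cases h2' : 2 ≤ e w'
  · have n0' : [w', w, x, x'].Nodup := by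
      simp only [List.nodup_cons, List.mem_cons, List.not_mem_nil, or_false, not_or, List.nodup_nil,
        and_true, not_false_eq_true]
      and_intros
      all_goals first
        | assumption
        | (apply Ne.symm; assumption)
        | (intro hnd; subst hnd; omega)
        | (intro hnd; rw [hnd] at *; omega)
    exact Or.inr ⟨w', w, x, x', s, T', T, hww.symm, Or.inl (two n0' h2' ew)⟩
  by_cases hs0 : 1 ≤ e s
  · right
    refine ⟨w, w', x, x', s, T, T', hww, Or.inr ?_⟩
    have n1 : [w, w', x, x', s].Nodup := by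
      simp only [List.nodup_cons, List.mem_cons, List.not_mem_nil, or_false, not_or, List.nodup_nil,
        and_true, not_false_eq_true]
      and_intros
      all_goals first
        | assumption
        | (apply Ne.symm; assumption)
        | (intro hnd; subst hnd; omega)
        | (intro hnd; rw [hnd] at *; omega)
    refine on_list' n1 hE ?_ ?_
    · simp only [List.forall_mem_cons, List.not_mem_nil, false_imp_iff, implies_true, and_true]
      first | omega | (and_intros <;> assumption)
    · intro q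
      simp only [List.mem_cons, List.not_mem_nil, or_false, mem_insert, mem_singleton]
  left
  have g1 := z_kS (e := e) S C.adm1
  have g2 := z_kS (e := e) S' C.adm2
  have a1 : s ∈ kn c e x := mem_kn.2 ⟨hs1.1, by omega⟩
  have a2 : s ∈ kn c e x' := mem_kn.2 ⟨hs1.2, by omega⟩
  -- charge of a killer with a shared victim
  have sh : ∀ {z a : P}, a ∈ kn c e z → a ∉ so c c' e z → gg c c' e z ≤ 1 := by
    intro z a h1 h2
    classical
    apply gg_le (by norm_num)
    have h3 : (so c c' e z).card + 1 ≤ (kn c e z).card := by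
      have h4 : so c c' e z ⊆ (kn c e z).erase a := by
        intro b hb
        rw [mem_erase]
        refine ⟨?_, so_sub_kn hb⟩
        rintro rfl
        exact h2 hb
      have h5 := card_le_card h4
      rw [card_erase_of_mem h1] at h5
      have h6 := card_pos.2 ⟨a, h1⟩
      omega
    unfold cc
    split_ifs with h
    · have := S.kn_le_one h
      omega
    · have := S.kn_le (e := e) z
      omega
  have gx := sh a1 (not_mem_so S.dual xx' a1 a2)
  have gx' := sh a2 (not_mem_so S.dual xx'.symm a2 a1)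
  -- a further excited element
  have more : ∀ q, q ≠ w → q ≠ w' → q ≠ x → q ≠ x' → 1 ≤ e q → e q = 1 ∧ e x = 1 ∧ e x' = 1 ∧
      ∀ z, 1 ≤ e z → z = q ∨ z = w ∨ z = w' ∨ z = x ∨ z = x' := by
    intro q q1 q2 q3 q4 q5
    have n1 : [q, w, w', x, x'].Nodup := by
      rw [List.nodup_cons]
      refine ⟨?_, n0⟩
      simp only [List.mem_cons, List.not_mem_nil, or_false, not_or]
      exact ⟨q1, q2, q3, q4⟩
    have hT := tot (e := e) n1
    simp only [List.map_cons, List.sum_cons, List.map_nil, List.sum_nil] at hT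
    refine ⟨by omega, by omega, by omega, ?_⟩
    intro z hz
    have := tot_pos n1 hE (by
      simp only [List.map_cons, List.sum_cons, List.map_nil, List.sum_nil]
      omega) hz
    simpa only [List.mem_cons, List.not_mem_nil, or_false] using this
  have hF := z_sum_le (c := c) (c' := c') (e := e) (Sd := Sd) {x, x'} (by
    intro q mq gq
    rw [mem_insert, mem_singleton]
    by_contra hne
    rw [not_or] at hne
    obtain ⟨k1, k2⟩ := z_pos S mq gq
    have eq := z_kl k2
    have tq := S.t_le_of_kl C.adm1 (t q) q mq k2 rfl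
    have q1 : q ≠ w := by rintro rfl; omega
    have q2 : q ≠ w' := by rintro rfl; omega
    obtain ⟨m1, m2, m3, m4⟩ := more q q1 q2 hne.1 hne.2 eq
    have := S.tS q mq
    rcases C.core1 q mq (by omega) (by omega) with ⟨z, hz, ez⟩ | ⟨-, z, hz, ez⟩
    · obtain ⟨mz, tz, cz⟩ := z_chd S (Or.inl mq) hz
      have key : z = w ∨ z = w' := by
        rcases m4 z ez with h5 | h5 | h5 | h5 | h5
        · subst h5; omega
        · exact Or.inl h5
        · exact Or.inr h5
        · subst h5; omega
        · subst h5; omega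
      have hq : q ∈ ({x, x'} : Finset P) := by
        rcases key with h5 | h5
        · rw [← cw, ← h5]; exact cz
        · rw [← cw', ← h5]; exact cz
      rw [mem_insert, mem_singleton] at hq
      exact absurd hq (not_or.2 hne)
    · obtain ⟨p1, p2, -, -⟩ := W.psi1 q mq (by omega) k1
      obtain ⟨mz, tz, cz⟩ := z_chd S' (Or.inl p1) hz
      rcases m4 z ez with h5 | h5 | h5 | h5 | h5
      · exact sS mq mz h5.symm
      · exact sS mw mz h5.symm
      · exact sS mw' mz h5.symm
      · exact sS mx mz h5.symm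
      · exact sS mx' mz h5.symm)
  rw [sum_pair xx'] at hF
  have hF' : ∑ z ∈ Sd', gg c' c e z ≤ 0 := by
    apply z_sum_zero
    intro q mq gq
    obtain ⟨k1, k2⟩ := z_pos S' mq gq
    have eq := z_kl k2
    have tq := S'.t_le_of_kl C.adm2 (t' q) q mq k2 rfl
    obtain ⟨m1, m2, m3, m4⟩ := more q (sS mw mq).symm (sS mw' mq).symm (sS mx mq).symm
      (sS mx' mq).symm eq
    have := S'.tS q mq
    rcases C.core2 q mq (by omega) (by omega) with ⟨z, hz, ez⟩ | ⟨k3, z, hz, ez⟩
    · obtain ⟨mz, tz, cz⟩ := z_chd S' (Or.inl mq) hz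
      rcases m4 z ez with h5 | h5 | h5 | h5 | h5
      · subst h5; omega
      · exact sS mw mz h5.symm
      · exact sS mw' mz h5.symm
      · exact sS mx mz h5.symm
      · exact sS mx' mz h5.symm
    · obtain ⟨p1, p2, p3, p4⟩ := W.psi2 q mq (by omega) k1
      obtain ⟨mz, tz, cz⟩ := z_chd S (Or.inl p1) hz
      have key : z = w ∨ z = w' := by
        rcases m4 z ez with h5 | h5 | h5 | h5 | h5
        · exact absurd h5 (sS mz mq)
        · exact Or.inl h5
        · exact Or.inr h5
        · subst h5; omega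
        · subst h5; omega
      have hq : psi q ∈ ({x, x'} : Finset P) := by
        rcases key with h5 | h5
        · rw [← cw, ← h5]; exact cz
        · rw [← cw', ← h5]; exact cz
      rw [mem_insert, mem_singleton] at hq
      -- the common site is killed from both sides
      have hsq : s ∈ c (psi q) := by
        rcases hq with h5 | h5
        · rw [h5]; exact hs1.1
        · rw [h5]; exact hs1.2
      have hsq' : s ∈ c' q := by rw [← p3]; exact hsq
      have e1 : 1 ≤ e (psi q) := by
        rcases hq with h5 | h5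
        · rw [h5]; exact ex
        · rw [h5]; exact ex'
      have := (not_both W C p1 p2 hsq hsq').2
      omega
  omega

end Pool.Agent.GaussPoset.Win.So

end

/-! From `Pool.Agent.W_448so_h64.SoE` -/

section

/-!
SECOND ORDER THEOREM (MP_448cb3_co, proofs row 476): the classification (proof: helper63, `W_448so_h63`).
-/

namespace Pool.Agent.GaussPoset.Win.SO

set_option linter.unusedSectionVars false

open Finset
open Pool.Agent.GaussPoset.Win.I2 (kd gu kl kn kr so cc fr KK KD mem_kn mem_kr mem_so kd_iff kl_iff)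

universe u

variable {P : Type u} [Fintype P] [DecidableEq P]
variable {c c' : P → Finset P} {t t' : P → ℕ} {V Sd Sd' : Finset P} {psi : P → P} {e : P → ℕ}

/-- the leftover list of energy six -/
def LO6 (c c' : P → Finset P) (t t' : P → ℕ) (Sd Sd' : Finset P) (e : P → ℕ) : Prop :=
  TTp c t Sd e ∨ TTp c' t' Sd' e ∨ TCp c t Sd e ∨ TCp c' t' Sd' e ∨ TUp c c' t t' Sd Sd' e ∨
    TVp c c' t t' Sd Sd' e ∨ TVp c' c t' t Sd' Sd e ∨ N1 c t Sd e ∨ N1 c' t' Sd' e ∨
    N5 c t Sd e ∨ N5 c' t' Sd' e

/-- the leftover list of energy five -/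
def LO5 (c c' : P → Finset P) (t t' : P → ℕ) (Sd Sd' : Finset P) (e : P → ℕ) : Prop :=
  TPp c t Sd e ∨ TPp c' t' Sd' e ∨ TQp c c' t t' Sd Sd' e ∨ TQp c' c t' t Sd' Sd e

/-- CLASSIFICATION, energy at most six -/
theorem classify (W : Two c c' t t' V Sd Sd' psi) (C : Cfg c c' t t' V Sd Sd' psi e)
    (pd : PDx c t Sd e) (pd' : PDx c' t' Sd' e) (hE : ∑ x, e x ≤ 6) :
    kS c c' V Sd e + kS c' c V Sd' e ≤ 1 ∨ Clo c t Sd e ∨ Clo c' t' Sd' e ∨
    (∃ p y p' u, Pen c t Sd p y ∧ Pen c' t' Sd' p' u ∧ 0 < e p ∧ 0 < e p' ∧ u ≠ psi y) ∨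
    (kS c c' V Sd e + kS c' c V Sd' e ≤ 2 ∧
      ((∃ w x x' s, Tog c c' t Sd psi e w x x' s) ∨ ∃ w x x' s, Tog c' c t' Sd' psi e w x x' s)) ∨
    (((∃ p y, Ref c c' t Sd psi e p y) ∨ ∃ p y, Ref c' c t' Sd' psi e p y) ∧
      (∑ x, e x ≤ 5 → LO5 c c' t t' Sd Sd' e)) ∨
    LO6 c c' t t' Sd Sd' e :=
  Pool.Agent.GaussPoset.Win.So.classify W C pd pd' hE

/-- CLOSED PAIRS at energy five.  `w, w', x, x'` are excited: energy `≥ 4`, so at most one extra unit `g`
(`TT = {x, x'}`, other side empty).  With `c x = {a, s}`, `c x' = {s, b}` (nl; `TD` for both):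
no extra unit, or g outside `{w, w', s}`: `kS = 3 - 2 = 1` (or less).  g = w or w': `kS = 3 - 1 = 2`.
g = s: `kS = 2 - 0 = 2`. -/
theorem clo5 (W : Two c c' t t' V Sd Sd' psi) (C : Cfg c c' t t' V Sd Sd' psi e)
    (hE : ∑ x, e x ≤ 5) (h : Clo c t Sd e) :
    kS c c' V Sd e + kS c' c V Sd' e ≤ 1 ∨
    (∃ w w' x x' s, TD c t Sd w x x' s ∧ TD c t Sd w' x x' s ∧ w ≠ w' ∧
      ((∀ y, e y = if y = w then 2 else if y = w' ∨ y = x ∨ y = x' then 1 else 0) ∨
        On e {w, w', x, x', s})) :=
  Pool.Agent.GaussPoset.Win.So.clo5 W C hE h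

/-- FLIPS at energy five: `p` below `y`, `p'` above `u`, excited, the site sets of `y` and `u` have exactly one
common element `s`.  Energy `≥ 4`.  `s` is not killed by both (`C.dis`), so `e s ≥ min (e y) (e u) ≥ 1`: energy 5, all
labels one on `{p, y, s, u, p'}`, and then `kk = 2` (`y` and `u` are not free, each kills its other site). -/
theorem flip5 (W : Two c c' t t' V Sd Sd' psi) (C : Cfg c c' t t' V Sd Sd' psi e)
    (hE : ∑ x, e x ≤ 5) {p y p' u s : P} (hp : Pen c t Sd p y) (hp' : Pen c' t' Sd' p' u)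
    (h1 : 0 < e p) (h1' : 0 < e p') (hs : c y ∩ c' u = {s}) : On e {p, y, s, u, p'} :=
  Pool.Agent.GaussPoset.Win.So.flip5 W C hE hp hp' h1 h1' hs

end Pool.Agent.GaussPoset.Win.SO

end
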