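import Mathlib
import Pool.Agent.W_448zz_h61.Ns
import Pool.Agent.W_448zz_h61.M030
import Pool.Agent.W_448zz_h61.M073

/-! From `Pool.Agent.W_448wd_h84.WdD` -/

section

/-!
# MP_448cb3_co, the early components (row 470)
-/

namespace Pool.Agent.GaussPoset.Wd

variable {lo hi : ℕ → ℕ} {j : ℕ}

/-! ## `a = 1`: rectangles -/

lemma Laws3.rect_aux (h : Laws3 lo hi j) (h1 : lo 1 < hi 1) : ∀ n, n ≤ j →
    (∀ k, 1 ≤ k → k < n → lo k < hi k) ∧ (∀ i, i + 2 ≤ n → ¬ pdL lo hi i ∧ ¬ pdR lo hi i) := by
  intro n
  induction n with
  | zero => intro _; exact ⟨fun k _ hk => by omega, fun i hi => by omega⟩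
  | succ n ih =>
    intro hn
    obtain ⟨ih1, ih2⟩ := ih (by omega)
    have e0 := h.lo_zero
    have f0 := h.hi_zero
    have hb : ∀ k, 1 ≤ k → k < n + 1 → lo k < hi k := by
      intro k hk hk'
      rcases Nat.lt_or_ge k n with h3 | h3
      · exact ih1 k hk h3
      obtain rfl : k = n := by omega
      rcases Nat.eq_or_lt_of_le hk with rfl | h4
      · exact h1
      by_contra h5
      obtain ⟨m, rfl⟩ : ∃ m, k = m + 1 := ⟨k - 1, by omega⟩
      have g1 := ih1 m (by omega) (by omega)
      have g2 := h.lo_step m (by omega)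
      have g3 := h.hi_step m (by omega)
      have g4 := h.lo_step (m + 1) (by omega)
      have g5 := h.hi_step (m + 1) (by omega)
      have g6 := h.lo_le (m + 1) (by omega)
      have g7 := h.lo_le (m + 1 + 1) (by omega)
      -- the pattern at `m`
      have k1 : npd lo hi m = npu lo hi m := h.two m (by omega)
      have k2 : npu lo hi m = 0 := by
        unfold npu
        have : ¬ puL lo hi m ∧ ¬ puR lo hi m := by
          constructor
          · rintro ⟨a1, a2, a3, a4⟩
            obtain ⟨s, rfl⟩ : ∃ s, m = s + 2 := ⟨m - 2, by omega⟩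
            have : pdL lo hi s := by
              refine ⟨?_, ?_, ?_⟩
              · simpa using a2
              · simpa using a3
              · rcases Nat.eq_zero_or_pos s with rfl | hs
                · simp at a2
                  have := h.lo_step 1 (by omega)
                  have := h.hi_step 0 (by omega)
                  simp at *
                  omega
                · exact ih1 s hs (by omega)
            exact (ih2 s (by omega)).1 this
          · rintro ⟨a1, a2, a3, a4⟩
            obtain ⟨s, rfl⟩ : ∃ s, m = s + 2 := ⟨m - 2, by omega⟩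
            have : pdR lo hi s := by
              refine ⟨?_, ?_, ?_⟩
              · simpa using a2
              · simpa using a3
              · rcases Nat.eq_zero_or_pos s with rfl | hs
                · simp at a2
                  have := h.lo_step 0 (by omega)
                  simp at *
                  omega
                · exact ih1 s hs (by omega)
            exact (ih2 s (by omega)).2 this
        rw [if_neg this.1, if_neg this.2]
      rw [k2] at k1
      unfold npd at k1
      have k3 : ¬ pdL lo hi m ∧ ¬ pdR lo hi m := by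
        constructor
        · intro hh; rw [if_pos hh] at k1; omega
        · intro hh; rw [if_pos hh] at k1; omega
      obtain ⟨k4, k5⟩ := k3
      unfold pdL at k4
      unfold pdR at k5
      rw [show m + 1 + 1 = m + 2 from rfl] at g4 g5 g7
      omega
    refine ⟨hb, ?_⟩
    intro i hi2
    rcases Nat.lt_or_ge (i + 2) (n + 1) with h3 | h3
    · exact ih2 i (by omega)
    have k1 : npd lo hi i = npu lo hi i := h.two i (by omega)
    have k2 : npu lo hi i = 0 := by
      unfold npu
      have : ¬ puL lo hi i ∧ ¬ puR lo hi i := by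
        constructor
        · rintro ⟨a1, a2, a3, a4⟩
          obtain ⟨s, rfl⟩ : ∃ s, i = s + 2 := ⟨i - 2, by omega⟩
          have : pdL lo hi s := by
            refine ⟨?_, ?_, ?_⟩
            · simpa using a2
            · simpa using a3
            · rcases Nat.eq_zero_or_pos s with rfl | hs
              · simp at a2
                have := h.hi_step 0 (by omega)
                simp at *
                omega
              · exact hb s hs (by omega)
          exact (ih2 s (by omega)).1 this
        · rintro ⟨a1, a2, a3, a4⟩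
          obtain ⟨s, rfl⟩ : ∃ s, i = s + 2 := ⟨i - 2, by omega⟩
          have : pdR lo hi s := by
            refine ⟨?_, ?_, ?_⟩
            · simpa using a2
            · simpa using a3
            · rcases Nat.eq_zero_or_pos s with rfl | hs
              · simp at a2
                have := h.lo_step 0 (by omega)
                simp at *
                omega
              · exact hb s hs (by omega)
          exact (ih2 s (by omega)).2 this
      rw [if_neg this.1, if_neg this.2]
    rw [k2] at k1
    unfold npd at k1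
    constructor
    · intro hh; rw [if_pos hh] at k1; omega
    · intro hh; rw [if_pos hh] at k1; omega

/-- (A) a component with two elements on level `1` is rectangle-like -/
theorem Laws3.rect (h : Laws3 lo hi j) (h1 : lo 1 < hi 1) :
    (∀ k, k < j → lo (k + 1) = 0 ∨ lo (k + 1) = lo k + 1) ∧
    (∀ k, k < j → hi (k + 1) = k + 1 ∨ hi (k + 1) = hi k) := by
  obtain ⟨hb, hc⟩ := h.rect_aux h1 j le_rfl
  have e0 := h.lo_zero
  have f0 := h.hi_zero
  have hlo : ∀ k, k < j → lo (k + 1) = lo k → lo k = 0 := by
    intro k
    induction k with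
    | zero => intro _ _; exact e0
    | succ k ih =>
      intro hk h3
      rcases h.lo_step k (by omega) with h4 | h4
      · rw [h4]
        exact ih (by omega) h4
      · exfalso
        rcases Nat.eq_zero_or_pos k with rfl | hk0
        · have := h.hi_step 0 (by omega)
          simp at *
          omega
        · exact (hc k (by omega)).1 ⟨h4, h3, hb k hk0 (by omega)⟩
  have hhi : ∀ k, k < j → hi (k + 1) = hi k + 1 → hi k = k := by
    intro k
    induction k with
    | zero => intro _ _; exact f0
    | succ k ih =>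
      intro hk h3
      rcases h.hi_step k (by omega) with h4 | h4
      · exfalso
        rcases Nat.eq_zero_or_pos k with rfl | hk0
        · have := h.lo_step 0 (by omega)
          simp at *
          omega
        · exact (hc k (by omega)).2 ⟨h4, h3, hb k hk0 (by omega)⟩
      · rw [h4, ih (by omega) h4]
  constructor
  · intro k hk
    rcases h.lo_step k hk with h3 | h3
    · left
      rw [h3]
      exact hlo k hk h3
    · right
      exact h3
  · intro k hk
    rcases h.hi_step k hk with h3 | h3
    · right
      exact h3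
    · left
      rw [h3, hhi k hk h3]

/-! ## `a = 2`: stairs -/

/-- natural like a stair (fold on the side of `hi`) down to level `n` -/
def Stair (lo hi : ℕ → ℕ) (n : ℕ) : Prop :=
  (∀ k, k < n → lo (k + 1) = 0 ∨ lo (k + 1) = lo k + 1) ∧ (∀ k, k ≤ n → hi k = k / 2)

lemma Stair.not_puL {n i : ℕ} (S : Stair lo hi n) (hi2 : i ≤ n) : ¬ puL lo hi i := by
  rintro ⟨a1, a2, a3, a4⟩
  obtain ⟨s, rfl⟩ : ∃ s, i = s + 2 := ⟨i - 2, by omega⟩
  simp only [Nat.add_sub_cancel, show s + 2 - 1 = s + 1 by omega] at a2 a3
  have := S.1 s (by omega)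
  have := S.1 (s + 1) (by omega)
  rw [show s + 1 + 1 = s + 2 from rfl] at this
  omega

lemma Stair.fuw_zero {n i : ℕ} (S : Stair lo hi n) (hi2 : i ≤ n) (he : i % 2 = 0)
    (hb : 4 ≤ i → lo (i - 2) < hi (i - 2)) : fuw lo hi i = 0 := by
  unfold fuw
  have h0 := S.not_puL hi2
  rw [if_neg, if_neg]
  · rintro ⟨h1, h2, -⟩
    rw [S.2 (i - 2) (by omega), S.2 (i - 3) (by omega)] at h2
    omega
  · rintro ⟨h1, h2, h3⟩
    rcases h3 with h3 | ⟨-, h3⟩
    · exact h0 h3
    · have := hb (by omega)
      omega

/-- a row of even level which is not the last one has at least two elements -/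
lemma Laws3.even_two (h : Laws3 lo hi j) (h2 : lo 2 < hi 2) {n : ℕ} (S : Stair lo hi n) (_ : n ≤ j) :
    ∀ k, 2 ≤ k → k % 2 = 0 → k < j → k ≤ n → lo k < hi k := by
  intro k
  induction k using Nat.strong_induction_on with
  | _ k ih =>
    intro hk he hkj hkn
    rcases Nat.lt_or_ge k 3 with h3 | h3
    · obtain rfl : k = 2 := by omega
      exact h2
    obtain ⟨i, rfl⟩ : ∃ i, k = i + 2 := ⟨k - 2, by omega⟩
    have hbi : lo i < hi i := ih i (by omega) (by omega) (by omega) (by omega) (by omega)
    by_contra hc
    have e0 := S.2 i (by omega)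
    have e1 := S.2 (i + 1) (by omega)
    have e2 := S.2 (i + 2) (by omega)
    have g0 := S.1 i (by omega)
    have g1 := S.1 (i + 1) (by omega)
    have g2 := h.lo_le (i + 2) (by omega)
    have l0 := h.lo_step i (by omega)
    have l1 := h.lo_step (i + 1) (by omega)
    rw [show i + 1 + 1 = i + 2 from rfl] at g1 l1
    have g3 := h.lo_le (i + 3) (by omega)
    have l2 := h.lo_step (i + 2) (by omega)
    have l3 := h.hi_step (i + 2) (by omega)
    rw [show i + 2 + 1 = i + 3 from rfl] at l2 l3
    have hpd : pdR lo hi i := ⟨by omega, by omega, hbi⟩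
    have k1 := h.thr i (by omega) (by omega) hbi
    rw [S.fuw_zero (by omega) (by omega) (fun h4 => ih (i - 2) (by omega) (by omega) (by omega) (by omega)
      (by omega))] at k1
    unfold flw at k1
    have k2 : lo (i + 2) = hi (i + 2) := by omega
    have k3 : lo (i + 3) = lo (i + 2) ∨ hi (i + 3) = hi (i + 2) + 1 := by omega
    rcases k3 with k3 | k3
    · rw [if_pos ⟨k3, Or.inr ⟨hpd, k2⟩⟩] at k1
      omega
    · rw [if_pos (show hi (i + 3) = hi (i + 2) + 1 ∧ _ from ⟨k3, Or.inl hpd⟩)] at k1
      omega

/-- the exceptional word `F1 = OO OC OO CC OC` (levels `≤ 6`) -/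
def F1 (lo hi : ℕ → ℕ) : Prop :=
  (lo 0 = 0 ∧ lo 1 = 0 ∧ lo 2 = 0 ∧ lo 3 = 0 ∧ lo 4 = 0 ∧ lo 5 = 1 ∧ lo 6 = 1) ∧
  (hi 0 = 0 ∧ hi 1 = 0 ∧ hi 2 = 1 ∧ hi 3 = 1 ∧ hi 4 = 2 ∧ hi 5 = 2 ∧ hi 6 = 2)

/-- one more level -/
lemma Laws3.stair_step (h : Laws3 lo hi j) (h2 : lo 2 < hi 2)
    (hN : ∀ k, 2 ≤ k → k < j → lo k = hi k → lo (k + 1) = hi (k + 1) → lo (k + 1) = lo k + 1)
    {n : ℕ} (S : Stair lo hi n) (hn4 : 4 ≤ n) (hn : n < j) :
    Stair lo hi (n + 1) ∨ (j = 6 ∧ F1 lo hi) := by
  have e0 := h.lo_zero
  have f0 := h.hi_zero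
  have hl := h.lo_step n hn
  have hr := h.hi_step n hn
  have ev := h.even_two h2 S hn.le
  -- it is enough to know the letters
  have fin : (lo (n + 1) = lo n → lo n = 0) → hi (n + 1) = (n + 1) / 2 → Stair lo hi (n + 1) := by
    intro h3 h4
    refine ⟨fun k hk => ?_, fun k hk => ?_⟩
    · rcases Nat.lt_or_ge k n with h5 | h5
      · exact S.1 k h5
      · obtain rfl : k = n := by omega
        rcases hl with hl | hl
        · left
          rw [hl, h3 hl]
        · right
          exact hl
    · rcases Nat.lt_or_ge k (n + 1) with h5 | h5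
      · exact S.2 k (by omega)
      · obtain rfl : k = n + 1 := by omega
        exact h4
  -- the left letters before
  have hl0 : ∀ k, k < n → lo (k + 1) = lo k → lo k = 0 := by
    intro k hk h3
    rcases S.1 k hk with h4 | h4 <;> omega
  rcases Nat.mod_two_eq_zero_or_one n with he | he
  · -- `n` even: the letter on the right is C
    obtain ⟨i, rfl⟩ : ∃ i, n = i + 2 := ⟨n - 2, by omega⟩
    left
    have hbi := ev i (by omega) (by omega) (by omega) (by omega)
    have hbn := ev (i + 2) (by omega) he hn le_rfl
    have c0 := S.2 i (by omega)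
    have c1 := S.2 (i + 1) (by omega)
    have c2 := S.2 (i + 2) (by omega)
    have l0 := h.lo_step i (by omega)
    have l1 := h.lo_step (i + 1) (by omega)
    have h31 := h.lo_le (i + 1) (by omega)
    rw [show i + 1 + 1 = i + 2 from rfl] at l1
    have hpd : pdR lo hi i := ⟨by omega, by omega, hbi⟩
    have k1 := h.thr i (by omega) (by omega) hbi
    rw [S.fuw_zero (by omega) (by omega) (fun h4 => ev (i - 2) (by omega) (by omega) (by omega)
      (by omega))] at k1
    unfold flw at k1
    rw [show i + 2 + 1 = i + 3 from rfl] at *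
    have hr2 : hi (i + 3) = hi (i + 2) := by
      rcases hr with hr | hr
      · exact hr
      · rw [if_pos (show hi (i + 3) = hi (i + 2) + 1 ∧ _ from ⟨hr, Or.inl hpd⟩)] at k1
        omega
    apply fin
    · intro h3
      -- window `i + 1`
      rcases Nat.lt_or_ge (lo (i + 1)) (hi (i + 1)) with h5 | h5
      · have k2 : npd lo hi (i + 1) = npu lo hi (i + 1) := h.two (i + 1) (by omega)
        have k3 : npu lo hi (i + 1) = 0 := by
          unfold npu
          rw [if_neg (S.not_puL (by omega)), if_neg]
          rintro ⟨a1, a2, a3, a4⟩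
          simp only [Nat.add_sub_cancel] at a3
          omega
        rw [k3] at k2
        unfold npd at k2
        have k4 : ¬ pdL lo hi (i + 1) := by
          intro hh
          rw [if_pos hh] at k2
          omega
        rcases l1 with l1 | l1
        · rw [l1]
          exact hl0 (i + 1) (by omega) l1
        · exfalso
          exact k4 ⟨l1, h3, h5⟩
      · have h6 : lo (i + 2) = lo (i + 1) := by omega
        have h7 := hl0 (i + 1) (by omega) h6
        omega
    · rw [hr2, c2]
      omega
  · -- `n` odd: the letter on the right is O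
    obtain ⟨i, rfl⟩ : ∃ i, n = i + 1 := ⟨n - 1, by omega⟩
    have hbi := ev i (by omega) (by omega) (by omega) (by omega)
    have c0 := S.2 i (by omega)
    have c1 := S.2 (i + 1) (by omega)
    have l0 := h.lo_step i (by omega)
    have h31 := h.lo_le (i + 1) (by omega)
    have h32 := h.lo_le (i + 2) (by omega)
    rw [show i + 1 + 1 = i + 2 from rfl] at *
    have hpu : puR lo hi i := by
      refine ⟨by omega, ?_, ?_, hbi⟩
      · rw [S.2 (i - 1) (by omega), S.2 (i - 2) (by omega)]
        omega
      · rw [c0, S.2 (i - 1) (by omega)]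
        omega
    have npul : ¬ puL lo hi i := S.not_puL (by omega)
    have k2 : npd lo hi i = npu lo hi i := h.two i (by omega)
    have k3 : npu lo hi i = 1 := by
      unfold npu
      rw [if_neg npul, if_pos hpu]
    rw [k3] at k2
    unfold npd at k2
    by_cases hL : pdL lo hi i
    · -- the bad case
      rw [if_pos hL] at k2
      have hR : ¬ pdR lo hi i := by
        intro hh
        rw [if_pos hh] at k2
        omega
      obtain ⟨a1, a2, -⟩ := hL
      have a3 : hi (i + 2) = hi (i + 1) := by
        rcases hr with hr | hr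
        · exact hr
        · exact absurd ⟨by omega, hr, hbi⟩ hR
      rcases Nat.lt_or_ge (lo i + 2) (hi i) with h5 | h5
      · exfalso
        exact npul ((h.two4 i (by omega) (by omega) (by omega)).1.1 ⟨a1, a2, hbi⟩)
      rcases Nat.lt_or_ge (lo i + 1) (hi i) with h6 | h6
      · -- `b_i = 3`
        have h7 : hi i = lo i + 2 := by omega
        rcases Nat.lt_or_ge (i + 2) j with h8 | h8
        · exfalso
          exact h.be5 i (by omega) (by omega) ⟨h7, Or.inr ⟨hpu, ⟨a1, a2, hbi⟩⟩⟩
        · have hj : j = i + 2 := by omega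
          obtain ⟨s, rfl⟩ : ∃ s, i = s + 1 := ⟨i - 1, by omega⟩
          have d0 := S.2 s (by omega)
          rcases h.lo_step s (by omega) with h9 | h9
          · right
            have h10 : lo s = 0 := hl0 s (by omega) h9
            have hs : s = 3 := by omega
            subst hs
            have h11 : ∀ k, k ≤ 3 → lo k = 0 := by
              intro k hk
              have q0 := h.lo_step 0 (by omega)
              have q1 := h.lo_step 1 (by omega)
              have q2 := h.lo_step 2 (by omega)
              simp only [Nat.reduceAdd] at *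
              interval_cases k <;> omega
            refine ⟨by omega, ⟨e0, h11 1 (by omega), h11 2 (by omega), h11 3 (by omega), ?_, ?_, ?_⟩,
              f0, ?_, ?_, ?_, ?_, ?_, ?_⟩
            · simp only [Nat.reduceAdd] at *; omega
            · simp only [Nat.reduceAdd] at *; omega
            · simp only [Nat.reduceAdd] at *; omega
            · rw [S.2 1 (by omega)]
            · rw [S.2 2 (by omega)]
            · rw [S.2 3 (by omega)]
            · rw [S.2 4 (by omega)]
            · rw [S.2 5 (by omega)]
            · simp only [Nat.reduceAdd] at *; omega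
          · exfalso
            refine h.be6 s (by omega) (by omega) (by omega) ?_ (Or.inl ⟨h9, a1, a2⟩)
            rw [show s + 1 + 1 = s + 2 from rfl] at *
            omega
      · -- `b_i = 2`
        exfalso
        have := hN (i + 1) (by omega) (by omega) (by omega) (by
          rw [show i + 1 + 1 = i + 2 from rfl]
          omega)
        rw [show i + 1 + 1 = i + 2 from rfl] at this
        omega
    · left
      rw [if_neg hL] at k2
      have hR : pdR lo hi i := by
        by_contra hh
        rw [if_neg hh] at k2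
        omega
      obtain ⟨a1, a2, -⟩ := hR
      apply fin
      · intro h3
        rcases l0 with l0 | l0
        · rw [l0]
          exact hl0 i (by omega) l0
        · exact absurd ⟨l0, h3, hbi⟩ hL
      · rw [a2, a1, c0]
        omega

/-- (B) a component with two elements on level `2`, one element on level `1`, fold on the right side -/
theorem Laws3.stair (h : Laws3 lo hi j) (hj : 4 ≤ j) (h10 : lo 1 = 0) (h11 : hi 1 = 0) (h2 : lo 2 < hi 2)
    (hor : ¬ pdL lo hi 2)
    (hN : ∀ k, 2 ≤ k → k < j → lo k = hi k → lo (k + 1) = hi (k + 1) → lo (k + 1) = lo k + 1) :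
    Stair lo hi j ∨ (j = 6 ∧ F1 lo hi) := by
  have e0 := h.lo_zero
  have f0 := h.hi_zero
  have l1 := h.lo_step 1 (by omega)
  have r1 := h.hi_step 1 (by omega)
  have l2 := h.lo_step 2 (by omega)
  have r2 := h.hi_step 2 (by omega)
  have l3 := h.lo_step 3 (by omega)
  have r3 := h.hi_step 3 (by omega)
  simp only [Nat.reduceAdd] at l1 r1 l2 r2 l3 r3
  have hlo2 : lo 2 = 0 := by omega
  have hhi2 : hi 2 = 1 := by omega
  have base : Stair lo hi 4 := by
    have k2 : npd lo hi 2 = npu lo hi 2 := h.two 2 (by omega)
    have k3 : npu lo hi 2 = 1 := by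
      unfold npu
      rw [if_neg, if_pos]
      · exact ⟨le_rfl, by rw [h11, f0], by rw [hhi2, h11], h2⟩
      · rintro ⟨-, a2, -⟩
        rw [show (2 : ℕ) - 1 = 1 from rfl, show (2 : ℕ) - 2 = 0 from rfl] at a2
        omega
    rw [k3] at k2
    unfold npd at k2
    rw [if_neg hor] at k2
    have hR : pdR lo hi 2 := by
      by_contra hh
      rw [if_neg hh] at k2
      omega
    obtain ⟨a1, a2, -⟩ := hR
    have a3 : ¬ (lo 3 = 1 ∧ lo 4 = lo 3) := by
      rintro ⟨b1, b2⟩
      exact hor ⟨show lo 3 = lo 2 + 1 by omega, b2, h2⟩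
    simp only [Nat.reduceAdd] at a1 a2
    constructor
    · intro k hk
      obtain rfl | rfl | rfl | rfl : k = 0 ∨ k = 1 ∨ k = 2 ∨ k = 3 := by omega
      · left; exact h10
      · left; exact hlo2
      · show lo 3 = 0 ∨ lo 3 = lo 2 + 1
        omega
      · show lo 4 = 0 ∨ lo 4 = lo 3 + 1
        omega
    · intro k hk
      obtain rfl | rfl | rfl | rfl | rfl : k = 0 ∨ k = 1 ∨ k = 2 ∨ k = 3 ∨ k = 4 := by omega
      · exact f0
      · exact h11
      · exact hhi2
      · omega
      · omega
  have main : ∀ n, 4 ≤ n → n ≤ j → Stair lo hi n ∨ (j = 6 ∧ F1 lo hi) := by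
    intro n hn
    induction n, hn using Nat.le_induction with
    | base => intro _; exact Or.inl base
    | succ n hn ih =>
      intro hnj
      rcases ih (by omega) with S | hF
      · exact h.stair_step h2 hN S hn (by omega)
      · exact Or.inr hF
  exact main j hj le_rfl

end Pool.Agent.GaussPoset.Wd

end

/-! From `Pool.Agent.W_448wd_h84.WdE` -/

section

/-!
# MP_448cb3_co: the shapes of the components (S3 and S4), from the laws
-/

namespace Pool.Agent.GaussPoset.Wd

set_option linter.unusedSectionVars false

open Cp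

universe u

variable {P : Type u} [Fintype P] [PartialOrder P] [DecidableEq P]

/-! ## renormalisation of the steps between one-element rows -/

/-- new left ends; the steps between one-element rows are given by `c` -/
def rlo (lo hi c : ℕ → ℕ) : ℕ → ℕ
  | 0 => 0
  | k + 1 => rlo lo hi c k + if lo k = hi k ∧ lo (k + 1) = hi (k + 1) then c k else lo (k + 1) - lo k

def rhi (lo hi c : ℕ → ℕ) (k : ℕ) : ℕ := rlo lo hi c k + (hi k - lo k)

lemma rlo_succ_one {lo hi c : ℕ → ℕ} {k : ℕ} (h : lo k = hi k ∧ lo (k + 1) = hi (k + 1)) :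
    rlo lo hi c (k + 1) = rlo lo hi c k + c k := by
  rw [rlo, if_pos h]

lemma rlo_succ {lo hi c : ℕ → ℕ} {k : ℕ} (h : ¬ (lo k = hi k ∧ lo (k + 1) = hi (k + 1))) :
    rlo lo hi c (k + 1) = rlo lo hi c k + (lo (k + 1) - lo k) := by
  rw [rlo, if_neg h]

theorem renorm {j : ℕ} {t : P} {lo hi : ℕ → ℕ} {e : ℕ → ℕ → P} (C : Comp j t lo hi e) (c : ℕ → ℕ)
    (hc : ∀ k, c k ≤ 1) :
    Comp j t (rlo lo hi c) (rhi lo hi c) (fun k s => e k (s + lo k - rlo lo hi c k)) where
  lo_zero := rfl
  hi_zero := by
    unfold rhi
    rw [C.hi_zero, C.lo_zero]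
    rfl
  top := by
    have h1 := C.lo_zero
    show e 0 (0 + lo 0 - 0) = t
    rw [h1]
    exact C.top
  lo_step := by
    intro k hk
    by_cases h : lo k = hi k ∧ lo (k + 1) = hi (k + 1)
    · rw [rlo_succ_one h]
      have := hc k
      omega
    · rw [rlo_succ h]
      have := C.lo_step k hk
      omega
  hi_step := by
    intro k hk
    unfold rhi
    have h1 := C.lo_le k (by omega)
    have h2 := C.lo_le (k + 1) (by omega)
    have h3 := C.lo_step k hk
    have h4 := C.hi_step k hk
    by_cases h : lo k = hi k ∧ lo (k + 1) = hi (k + 1)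
    · rw [rlo_succ_one h]
      have := hc k
      omega
    · rw [rlo_succ h]
      omega
  lo_le := by
    intro k hk
    unfold rhi
    omega
  lev_e := by
    intro k s hk h1 h2
    unfold rhi at h2
    have h3 := C.lo_le k hk
    exact C.lev_e k _ hk (by omega) (by omega)
  le_t := by
    intro k s hk h1 h2
    unfold rhi at h2
    have h3 := C.lo_le k hk
    exact C.le_t k _ hk (by omega) (by omega)
  inj := by
    intro k s s' hk h1 h2 h3 h4 h5
    unfold rhi at h2 h4
    have h6 := C.lo_le k hk
    have := C.inj k _ _ hk (by omega) (by omega) (by omega) (by omega) h5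
    omega
  surj := by
    intro z hz hzj
    obtain ⟨s, h1, h2, h3⟩ := C.surj z hz hzj
    refine ⟨s + rlo lo hi c (lev z) - lo (lev z), by omega, ?_, ?_⟩
    · unfold rhi
      omega
    · show e (lev z) (s + rlo lo hi c (lev z) - lo (lev z) + lo (lev z) - rlo lo hi c (lev z)) = z
      rw [show s + rlo lo hi c (lev z) - lo (lev z) + lo (lev z) - rlo lo hi c (lev z) = s by omega]
      exact h3
  cov := by
    intro k s s' hk h1 h2 h3 h4
    unfold rhi at h2 h4
    have g1 := C.lo_le k (by omega)
    have g2 := C.lo_le (k + 1) (by omega)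
    have g3 := C.lo_step k hk
    have g4 := C.hi_step k hk
    have key := C.cov k (s + lo (k + 1) - rlo lo hi c (k + 1)) (s' + lo k - rlo lo hi c k) hk (by omega)
      (by omega) (by omega) (by omega)
    show e (k + 1) (s + lo (k + 1) - rlo lo hi c (k + 1)) ⋖ e k (s' + lo k - rlo lo hi c k) ↔
      s' = s ∨ s' + 1 = s
    rw [key]
    by_cases h : lo k = hi k ∧ lo (k + 1) = hi (k + 1)
    · rw [rlo_succ_one h] at h1 h2 ⊢
      have := hc k
      omega
    · rw [rlo_succ h] at h1 h2 ⊢
      omega

variable {lo hi : ℕ → ℕ} {j : ℕ} {t : P} {e : ℕ → ℕ → P}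

lemma r_one {c : ℕ → ℕ} (C : Comp j t lo hi e) {k : ℕ} (hk : k ≤ j) :
    rlo lo hi c k = rhi lo hi c k ↔ lo k = hi k := by
  have := C.lo_le k hk
  unfold rhi
  omega

/-- normal form for a step: no move between one-element rows -/
lemma renorm_NF (C : Comp j t lo hi e) : NF (rlo lo hi fun _ => 0) (rhi lo hi fun _ => 0) j := by
  intro k hk h1 h2
  rw [r_one C (by omega)] at h1
  rw [r_one C (by omega)] at h2
  rw [rlo_succ_one ⟨h1, h2⟩]
  rfl

/-! ## the classification -/

/-- the possible shapes of a component which is natural down to level `j` -/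
inductive Shape (j : ℕ) (lo hi : ℕ → ℕ) : Prop
  /-- one element on every level -/
  | light (h : ∀ k, k ≤ j → lo k = 0 ∧ hi k = 0)
  /-- two elements on level 1 -/
  | rect (h1 : lo 1 = 0 ∧ hi 1 = 1) (h2 : RectShape j lo hi)
  /-- two elements on level 2 -/
  | stair (h0 : 2 ≤ j) (h2 : StairShape j lo hi)
  /-- `OO OO`, level 3 -/
  | three (h0 : j = 3) (h1 : lo 1 = 0 ∧ lo 2 = 0 ∧ lo 3 = 0) (h2 : hi 1 = 0 ∧ hi 2 = 1 ∧ hi 3 = 2)
  /-- the word `F1`, level 6 -/
  | six (h0 : j = 6) (h1 : F1 lo hi)
  /-- two elements on level `a ≥ 3` for the first time -/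
  | late (a : ℕ) (h0 : 3 ≤ a) (h1 : a ≤ j) (h2 : ∀ k, k < a → lo k = 0 ∧ hi k = 0) (h3 : lo a = 0 ∧ hi a = 1)
      (hN : NF lo hi j)
      (h4 : ((1 ≤ j - a ∧ j - a ≤ a) ∧ word lo hi a (j - a) = Qw (j - a)) ∨ word lo hi a (j - a) ∈ lateW a)

/-- the possible shapes of a component, the late ones not analysed -/
inductive Pre (j : ℕ) (lo hi : ℕ → ℕ) : Prop
  /-- one element on every level -/
  | light (h : ∀ k, k ≤ j → lo k = 0 ∧ hi k = 0)
  /-- two elements on level 1 -/
  | rect (h1 : lo 1 = 0 ∧ hi 1 = 1) (h2 : RectShape j lo hi)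
  /-- two elements on level 2 -/
  | stair (h0 : 2 ≤ j) (h2 : StairShape j lo hi)
  /-- `OO OO`, level 3 -/
  | three (h0 : j = 3) (h1 : lo 1 = 0 ∧ lo 2 = 0 ∧ lo 3 = 0) (h2 : hi 1 = 0 ∧ hi 2 = 1 ∧ hi 3 = 2)
  /-- the word `F1`, level 6 -/
  | six (h0 : j = 6) (h1 : F1 lo hi)
  /-- two elements on level `a ≥ 3` for the first time -/
  | late (a : ℕ) (h0 : 3 ≤ a) (h1 : a ≤ j) (h2 : ∀ k, k < a → lo k = 0 ∧ hi k = 0) (h3 : lo a = 0 ∧ hi a = 1)
      (hN : NF lo hi j) (h4 : (word lo hi a (j - a)).head? ≠ some CO)

/-- the late components, from all the laws -/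
theorem Pre.shape {lo hi : ℕ → ℕ} {j : ℕ} (h : Pre j lo hi) (L : Laws lo hi j) : Shape j lo hi := by
  rcases h with h | ⟨h1, h2⟩ | ⟨h1, h2⟩ | ⟨h1, h2, h3⟩ | ⟨h1, h2⟩ | ⟨a, h0, h1, h2, h3, hN, h4⟩
  · exact Shape.light h
  · exact Shape.rect h1 h2
  · exact Shape.stair h1 h2
  · exact Shape.three h1 h2 h3
  · exact Shape.six h1 h2
  · exact Shape.late a h0 h1 h2 h3 hN (L.late hN h0 h1 (fun k hk => by have := h2 k hk; omega) (by omega) h4)

/-- S3: the shape of a component, from the laws `Laws3`; the late components are only normalised -/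
theorem exists_pre (C : Comp j t lo hi e) (HL : ∀ lo hi e, Comp j t lo hi e → Laws3 lo hi j) :
    ∃ lo hi e, Comp j t lo hi e ∧ Pre j lo hi := by
  classical
  -- normal form, first level with two elements
  by_cases hl : ∀ k, k ≤ j → lo k = hi k
  · -- light
    have C1 := renorm C (fun _ => 0) (fun _ => by omega)
    refine ⟨_, _, _, C1, Pre.light ?_⟩
    have hN := renorm_NF C
    intro k
    induction k with
    | zero => intro _; exact ⟨C1.lo_zero, C1.hi_zero⟩
    | succ k ih =>
      intro hk
      have h1 := ih (by omega)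
      have h2 := (r_one (c := fun _ => 0) C (by omega)).2 (hl (k + 1) hk)
      have h3 := hN k (by omega) (by omega) h2
      omega
  push Not at hl
  obtain ⟨k0, hk0, hk0'⟩ := hl
  have hex : ∃ k, lo k ≠ hi k := ⟨k0, hk0'⟩
  set a := Nat.find hex with ha
  have ha1 : lo a ≠ hi a := Nat.find_spec hex
  have ha2 : ∀ k, k < a → lo k = hi k := fun k hk => by
    by_contra hc
    exact Nat.find_min hex hk hc
  have haj : a ≤ j := (Nat.find_min' hex hk0').trans hk0
  have ha0 : 1 ≤ a := by
    rcases Nat.eq_zero_or_pos a with h | h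
    · rw [h, C.lo_zero, C.hi_zero] at ha1
      exact absurd rfl ha1
    · exact h
  have hle := C.lo_le a haj
  -- the facts for a representation in normal form below level `a`
  have start : ∀ lo' hi' e', Comp j t lo' hi' e' → (∀ k, k < a → lo' k = hi' k) → lo' a ≠ hi' a →
      (∀ k, k + 1 < a → lo' (k + 1) = lo' k) →
      (∀ k, k < a → lo' k = 0 ∧ hi' k = 0) ∧ lo' a = 0 ∧ hi' a = 1 := by
    intro lo' hi' e' C' h1 h2 h3
    have h4 : ∀ k, k < a → lo' k = 0 := by
      intro k
      induction k with
      | zero => intro _; exact C'.lo_zero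
      | succ k ih =>
        intro hk
        rw [h3 k hk]
        exact ih (by omega)
    obtain ⟨b, hb⟩ : ∃ b, a = b + 1 := ⟨a - 1, by omega⟩
    have h5 := h4 b (by omega)
    have h6 := h1 b (by omega)
    have h7 := C'.lo_step b (by omega)
    have h8 := C'.hi_step b (by omega)
    have h9 := C'.lo_le a haj
    rw [hb] at h2 h9 ⊢
    refine ⟨fun k hk => ⟨h4 k (by omega), ?_⟩, by omega, by omega⟩
    rw [← h1 k (by omega), h4 k (by omega)]
  -- mirror image
  have swp : ∀ lo' hi' e', Comp j t lo' hi' e' → (∀ k, k < a → lo' k = hi' k) → lo' a ≠ hi' a →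
      ∃ lo'' hi'' e'', Comp j t lo'' hi'' e'' ∧ (∀ k, k < a → lo'' k = hi'' k) ∧ lo'' a ≠ hi'' a ∧
        (∀ k, k ≤ j → lo'' k = k - hi' k ∧ hi'' k = k - lo' k) := by
    intro lo' hi' e' C' h1 h2
    refine ⟨_, _, _, comp_swap C', ?_, ?_, fun k _ => ⟨rfl, rfl⟩⟩
    · intro k hk
      show k - hi' k = k - lo' k
      rw [h1 k hk]
    · have h3 := C'.hi_le (k := a) haj
      have h4 := C'.lo_le a haj
      show a - hi' a ≠ a - lo' a
      omega
  -- renormalisation keeps the letters of the other steps
  have ren : ∀ (c : ℕ → ℕ), (∀ k, c k ≤ 1) → ∀ lo' hi' e', Comp j t lo' hi' e' →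
      (∀ k, k < a → lo' k = hi' k) → lo' a ≠ hi' a →
      ∃ lo'' hi'' e'', Comp j t lo'' hi'' e'' ∧ (∀ k, k < a → lo'' k = hi'' k) ∧ lo'' a ≠ hi'' a ∧
        (∀ k, k < j → lo' k = hi' k → lo' (k + 1) = hi' (k + 1) → lo'' (k + 1) = lo'' k + c k) ∧
        (∀ k, k < j → ¬ (lo' k = hi' k ∧ lo' (k + 1) = hi' (k + 1)) →
          lo'' (k + 1) = lo'' k + (lo' (k + 1) - lo' k)) ∧
        (∀ k, k ≤ j → hi'' k = lo'' k + (hi' k - lo' k)) := by
    intro c hc lo' hi' e' C' h1 h2
    refine ⟨_, _, _, renorm C' c hc, ?_, ?_, ?_, ?_, ?_⟩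
    · intro k hk
      exact (r_one C' (by omega)).2 (h1 k hk)
    · intro h3
      exact h2 ((r_one C' haj).1 h3)
    · intro k hk h3 h4
      exact rlo_succ_one ⟨h3, h4⟩
    · intro k hk h3
      exact rlo_succ h3
    · intro k hk
      rfl
  rcases Nat.lt_or_ge a 2 with h1 | h1
  · -- rectangle
    have hA : a = 1 := by omega
    have L := HL lo hi e C
    rw [hA] at ha1 hle
    obtain ⟨h2, h3⟩ := L.rect (by omega)
    refine ⟨lo, hi, e, C, Pre.rect ?_ ⟨h2, h3⟩⟩
    have h4 := C.lo_step 0 (by omega)
    have h5 := C.hi_step 0 (by omega)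
    have h6 := C.lo_zero
    have h7 := C.hi_zero
    simp only [Nat.reduceAdd] at h4 h5
    omega
  rcases Nat.lt_or_ge a 3 with h3 | h3
  · -- stair
    have hA : a = 2 := by omega
    -- the normalisation: step `0 → 1` does not move, the others move
    have norm : ∀ lo' hi' e', Comp j t lo' hi' e' → (∀ k, k < a → lo' k = hi' k) → lo' a ≠ hi' a →
        ∃ lo'' hi'' e'', Comp j t lo'' hi'' e'' ∧ lo'' 1 = 0 ∧ hi'' 1 = 0 ∧ lo'' 2 = 0 ∧ hi'' 2 = 1 ∧
          (∀ k, 2 ≤ k → k < j → lo'' k = hi'' k → lo'' (k + 1) = hi'' (k + 1) →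
            lo'' (k + 1) = lo'' k + 1) ∧
          (∀ k, k < j → ¬ (lo' k = hi' k ∧ lo' (k + 1) = hi' (k + 1)) →
            lo'' (k + 1) = lo'' k + (lo' (k + 1) - lo' k)) ∧
          (∀ k, k ≤ j → hi'' k = lo'' k + (hi' k - lo' k)) := by
      intro lo' hi' e' C' h4 h5
      obtain ⟨lo'', hi'', e'', C'', g1, g2, g3, g4, g5⟩ :=
        ren (fun k => if k = 0 then 0 else 1) (fun k => by split_ifs <;> omega) lo' hi' e' C' h4 h5
      have g6 := start lo'' hi'' e'' C'' g1 g2 (by
        intro k hk
        obtain rfl : k = 0 := by omega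
        rw [g3 0 (by omega) (h4 0 (by omega)) (h4 1 (by omega))]
        rfl)
      have g7 := g6.1 1 (by omega)
      have g8 := g6.2
      rw [hA] at g8
      refine ⟨lo'', hi'', e'', C'', g7.1, g7.2, g8.1, g8.2, ?_, g4, g5⟩
      intro k hk hk' h6 h7
      have h8 := g5 k (by omega)
      have h9 := g5 (k + 1) (by omega)
      have := C'.lo_le k (by omega)
      have := C'.lo_le (k + 1) (by omega)
      rw [g3 k hk' (by omega) (by omega), if_neg (by omega)]
    rcases Nat.lt_or_ge j 4 with hj4 | hj4
    · -- small `j`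
      obtain ⟨lo', hi', e', C', g1, g2, g3, g4, g5, g6, g7⟩ := norm lo hi e C ha2 ha1
      rcases Nat.lt_or_ge j 3 with hj3 | hj3
      · refine ⟨lo', hi', e', C', Pre.stair (by omega) ⟨?_, ?_⟩⟩
        · intro k hk
          obtain rfl | rfl : k = 0 ∨ k = 1 := by omega
          · left; exact g1
          · left; exact g3
        · intro k hk
          obtain rfl | rfl | rfl : k = 0 ∨ k = 1 ∨ k = 2 := by omega
          · exact C'.hi_zero
          · exact g2
          · exact g4
      · have hj : j = 3 := by omega
        have k1 := C'.lo_step 2 (by omega)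
        have k2 := C'.hi_step 2 (by omega)
        simp only [Nat.reduceAdd] at k1 k2
        rcases k2 with k2 | k2
        · refine ⟨lo', hi', e', C', Pre.stair (by omega) ⟨?_, ?_⟩⟩
          · intro k hk
            obtain rfl | rfl | rfl : k = 0 ∨ k = 1 ∨ k = 2 := by omega
            · left; exact g1
            · left; exact g3
            · show lo' 3 = 0 ∨ lo' 3 = lo' 2 + 1
              omega
          · intro k hk
            obtain rfl | rfl | rfl | rfl : k = 0 ∨ k = 1 ∨ k = 2 ∨ k = 3 := by omega
            · exact C'.hi_zero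
            · exact g2
            · exact g4
            · omega
        · rcases k1 with k1 | k1
          · exact ⟨lo', hi', e', C', Pre.three hj ⟨g1, g3, by omega⟩ ⟨g2, g4, by omega⟩⟩
          · -- the mirror image
            obtain ⟨lo2, hi2, e2, C2, m1, m2, m3⟩ := swp lo' hi' e' C' (by
              intro k hk
              obtain rfl | rfl : k = 0 ∨ k = 1 := by omega
              · rw [C'.lo_zero, C'.hi_zero]
              · rw [g1, g2]) (by rw [hA]; omega)
            obtain ⟨lo3, hi3, e3, C3, n1, n2, n3, n4, n5, n6, n7⟩ := norm lo2 hi2 e2 C2 m1 m2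
            have p2 := m3 2 (by omega)
            have p3 := m3 3 (by omega)
            have q2 := n7 2 (by omega)
            have q3 := n7 3 (by omega)
            have q4 := n6 2 (by omega) (by omega)
            simp only [Nat.reduceAdd] at q4
            refine ⟨lo3, hi3, e3, C3, Pre.stair (by omega) ⟨?_, ?_⟩⟩
            · intro k hk
              obtain rfl | rfl | rfl : k = 0 ∨ k = 1 ∨ k = 2 := by omega
              · left; exact n1
              · left; exact n3
              · show lo3 3 = 0 ∨ lo3 3 = lo3 2 + 1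
                omega
            · intro k hk
              obtain rfl | rfl | rfl | rfl : k = 0 ∨ k = 1 ∨ k = 2 ∨ k = 3 := by omega
              · exact C3.hi_zero
              · exact n2
              · exact n4
              · omega
    · -- `j ≥ 4`
      have big : ∀ lo' hi' e', Comp j t lo' hi' e' → lo' 1 = 0 → hi' 1 = 0 → lo' 2 = 0 → hi' 2 = 1 →
          (∀ k, 2 ≤ k → k < j → lo' k = hi' k → lo' (k + 1) = hi' (k + 1) → lo' (k + 1) = lo' k + 1) →
          ¬ pdL lo' hi' 2 → Comp j t lo' hi' e' ∧ Pre j lo' hi' := by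
        intro lo' hi' e' C' g1 g2 g3 g4 g5 g6
        refine ⟨C', ?_⟩
        rcases (HL lo' hi' e' C').stair hj4 g1 g2 (by omega) g6 g5 with S | ⟨h4, h5⟩
        · exact Pre.stair (by omega) ⟨S.1, S.2⟩
        · exact Pre.six h4 h5
      obtain ⟨lo', hi', e', C', g1, g2, g3, g4, g5, g6, g7⟩ := norm lo hi e C ha2 ha1
      by_cases hor : pdL lo' hi' 2
      · -- mirror
        have L := HL lo' hi' e' C'
        obtain ⟨lo2, hi2, e2, C2, m1, m2, m3⟩ := swp lo' hi' e' C' (by
          intro k hk
          obtain rfl | rfl : k = 0 ∨ k = 1 := by omega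
          · rw [C'.lo_zero, C'.hi_zero]
          · rw [g1, g2]) (by rw [hA]; omega)
        obtain ⟨lo3, hi3, e3, C3, n1, n2, n3, n4, n5, n6, n7⟩ := norm lo2 hi2 e2 C2 m1 m2
        refine ⟨lo3, hi3, e3, big lo3 hi3 e3 C3 n1 n2 n3 n4 n5 ?_⟩
        -- the pattern on the left would mean two patterns
        intro h4
        obtain ⟨a1, a2, -⟩ := hor
        obtain ⟨b1, b2, -⟩ := h4
        simp only [Nat.reduceAdd] at a1 a2 b1 b2
        have p2 := m3 2 (by omega)
        have p3 := m3 3 (by omega)
        have p4 := m3 4 (by omega)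
        have q3 := n7 3 (by omega)
        have q4 := n7 4 (by omega)
        have r2 := n6 2 (by omega) (by omega)
        simp only [Nat.reduceAdd] at r2
        have u2 := C'.hi_le (k := 3) (by omega)
        have u3 := C'.hi_le (k := 4) (by omega)
        have v1 := C'.hi_step 2 (by omega)
        have v2 := C'.hi_step 3 (by omega)
        simp only [Nat.reduceAdd] at v1 v2
        have w1 := C'.lo_le 3 (by omega)
        have w2 := C'.lo_le 4 (by omega)
        -- row 3 has one element or more
        have k2 : npd lo' hi' 2 = npu lo' hi' 2 := L.two 2 (by omega)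
        have k5 := L.two_le 2 (by omega)
        have k6 : pdL lo' hi' 2 := ⟨a1, a2, by omega⟩
        have k7 : ¬ pdR lo' hi' 2 := by
          intro hh
          unfold npd at k5
          rw [if_pos k6, if_pos hh] at k5
          omega
        have k8 : ¬ (hi' 3 = hi' 2 ∧ hi' 4 = hi' 3 + 1) := fun hh => k7 ⟨hh.1, hh.2, by omega⟩
        by_cases h33 : lo' 3 = hi' 3
        · -- then level 4 has one element, the word is `OO CC OC`, and nothing is wrong with the new one
          have r3 := n5 3 (by omega) (by omega) (by omega) (by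
            have := C3.lo_le 4 (by omega)
            simp only [Nat.reduceAdd]
            omega)
          simp only [Nat.reduceAdd] at r3
          omega
        · have r3 := n6 3 (by omega) (by omega)
          simp only [Nat.reduceAdd] at r3
          omega
      · exact ⟨lo', hi', e', big lo' hi' e' C' g1 g2 g3 g4 g5 hor⟩
  · -- late
    have fin : ∀ lo' hi' e', Comp j t lo' hi' e' → (∀ k, k < a → lo' k = hi' k) → lo' a ≠ hi' a →
        NF lo' hi' j → (word lo' hi' a (j - a)).head? ≠ some CO → Pre j lo' hi' := by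
      intro lo' hi' e' C' g1 g2 g3 g4
      have g5 := start lo' hi' e' C' g1 g2 (fun k hk => g3 k (by omega) (g1 k (by omega)) (g1 (k + 1) hk))
      exact Pre.late a h3 haj g5.1 g5.2 g3 g4
    obtain ⟨lo', hi', e', C', g1, g2, g3, g4, g5⟩ := ren (fun _ => 0) (fun _ => by omega) lo hi e C ha2 ha1
    have hN' : NF lo' hi' j := by
      intro k hk h4 h5
      have h6 := g5 k (by omega)
      have h7 := g5 (k + 1) (by omega)
      have := C.lo_le k (by omega)
      have := C.lo_le (k + 1) (by omega)
      rw [g3 k hk (by omega) (by omega), Nat.add_zero]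
    by_cases hor : (word lo' hi' a (j - a)).head? = some CO
    · obtain ⟨lo2, hi2, e2, C2, m1, m2, m3⟩ := swp lo' hi' e' C' g1 g2
      obtain ⟨lo3, hi3, e3, C3, n1, n2, n3, n4, n5⟩ := ren (fun _ => 0) (fun _ => by omega) lo2 hi2 e2 C2 m1 m2
      have hN3 : NF lo3 hi3 j := by
        intro k hk h4 h5
        have h6 := n5 k (by omega)
        have h7 := n5 (k + 1) (by omega)
        have := C2.lo_le k (by omega)
        have := C2.lo_le (k + 1) (by omega)
        rw [n3 k hk (by omega) (by omega), Nat.add_zero]
      refine ⟨lo3, hi3, e3, C3, fin lo3 hi3 e3 C3 n1 n2 hN3 ?_⟩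
      have hja : 1 ≤ j - a := by
        rcases Nat.eq_zero_or_pos (j - a) with h4 | h4
        · rw [h4] at hor
          simp [word] at hor
        · exact h4
      obtain ⟨d, hd⟩ : ∃ d, j - a = d + 1 := ⟨j - a - 1, by omega⟩
      have hw : ∀ lo hi : ℕ → ℕ, (word lo hi a (j - a)).head? =
          some (decide (lo (a + 1) ≠ lo a), decide (hi (a + 1) ≠ hi a)) := by
        intro lo hi
        rw [hd]
        unfold word
        rw [List.range_succ_eq_map]
        rfl
      rw [hw] at hor ⊢
      simp only [CO, ne_eq, Option.some.injEq, Prod.mk.injEq, decide_eq_true_eq] at hor ⊢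
      obtain ⟨h4, h5⟩ := hor
      have q1 := C'.lo_step a (by omega)
      have q2 := C'.hi_step a (by omega)
      have q3 := C'.hi_le (k := a) haj
      have q4 := C'.hi_le (k := a + 1) (by omega)
      have q5 := C'.lo_le a haj
      have q6 := C'.lo_le (a + 1) (by omega)
      have p1 := m3 a haj
      have p2 := m3 (a + 1) (by omega)
      have r1 := n4 a (by omega) (by omega)
      omega
    · exact ⟨lo', hi', e', C', fin lo' hi' e' C' g1 g2 hN' hor⟩

/-- S3 and S4: the shape of a component, from the laws -/
theorem exists_shape (C : Comp j t lo hi e) (HL : ∀ lo hi e, Comp j t lo hi e → Laws lo hi j) :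
    ∃ lo hi e, Comp j t lo hi e ∧ Shape j lo hi := by
  obtain ⟨lo', hi', e', C', h⟩ := exists_pre C (fun lo hi e C => (HL lo hi e C).toLaws3)
  exact ⟨lo', hi', e', C', h.shape (HL _ _ _ C')⟩

end Pool.Agent.GaussPoset.Wd

end

/-! From `Pool.Agent.W_448cl_h64.ClA` -/

section

/-!
CLOSED PAIRS AT ENERGY SIX (MP_448cb3_co, G2): classification of the cores with a closed pair.
-/

set_option autoImplicit false

namespace Pool.Agent.GaussPoset.Win.So

set_option linter.unusedSectionVars false

open Finset I2

universe u

variable {P : Type u} [DecidableEq P] [Fintype P]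
variable {c c' : P → Finset P} {e : P → ℕ} {t t' : P → ℕ} {V Sd Sd' : Finset P} {psi : P → P}

/-- the elements away from the window at `x` are the two elements of the closed pair -/
lemma pair_down (S : Side0 c c' t V Sd) {w w' x x' s : P} (T : SO.TD c t Sd w x x' s)
    (T' : SO.TD c t Sd w' x x' s) (hww : w ≠ w') :
    c' x = {w, w'} ∧ c' x' = {w, w'} := by
  have m : ∀ {y : P}, y ∈ c w → y ∈ c w' → c' y = {w, w'} := by
    intro y h1 h2
    have h3 : ({w, w'} : Finset P) ⊆ c' y := by
      intro q hq
      rw [mem_insert, mem_singleton] at hq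
      rcases hq with rfl | rfl
      · exact (S.dual _ _).1 h1
      · exact (S.dual _ _).1 h2
    symm
    apply Finset.eq_of_subset_of_card_le h3
    rw [card_pair hww]
    exact S.c2' y
  refine ⟨m ?_ ?_, m ?_ ?_⟩
  · rw [T.cw]; exact mem_insert_self _ _
  · rw [T'.cw]; exact mem_insert_self _ _
  · rw [T.cw]; exact mem_insert_of_mem (mem_singleton_self _)
  · rw [T'.cw]; exact mem_insert_of_mem (mem_singleton_self _)

/-- a killer over a site which is also killed by another element -/
lemma gg_shared (S : Side0 c c' t V Sd) {z z' a : P} (hne : z ≠ z') (h1 : a ∈ kn c e z)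
    (h2 : a ∈ kn c e z') : gg c c' e z ≤ 1 := by
  classical
  have h3 := not_mem_so S.dual hne h1 h2
  apply gg_le (by norm_num)
  have h4 : (so c c' e z).card + 1 ≤ (kn c e z).card := by
    have h5 : so c c' e z ⊆ (kn c e z).erase a := by
      intro b hb
      rw [mem_erase]
      refine ⟨?_, so_sub_kn hb⟩
      rintro rfl
      exact h3 hb
    have h6 := card_le_card h5
    rw [card_erase_of_mem h1] at h6
    have h7 := card_pos.2 ⟨a, h1⟩
    omega
  unfold cc
  split_ifs with h
  · have := S.kn_le_one h
    omega
  · have := S.kn_le (e := e) z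
    omega

/-- the excited elements of a core with a closed pair: all positive charges are at the closed pair,
or there is a reflection -/
theorem clo6_pos (W : SO.Two c c' t t' V Sd Sd' psi) (C : SO.Cfg c c' t t' V Sd Sd' psi e)
    (hE : ∑ x, e x ≤ 6) {w w' x x' s : P} (T : SO.TD c t Sd w x x' s)
    (T' : SO.TD c t Sd w' x x' s) (hww : w ≠ w') (ew : 1 ≤ e w) (ew' : 1 ≤ e w') :
    SO.kS c c' V Sd e + SO.kS c' c V Sd' e ≤ 1 ∨
    (∃ p y, SO.Ref c c' t Sd psi e p y) ∨ (∃ p y, SO.Ref c' c t' Sd' psi e p y) ∨
    ((∀ q ∈ Sd, 0 < gg c c' e q → q ∈ ({w, w', x, x'} : Finset P)) ∧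
      ∀ q ∈ Sd', ¬ 0 < gg c' c e q) := by
  have S := side0_of W.s1
  have S' := side0_of W.s2
  have sS : ∀ {x v : P}, x ∈ Sd → v ∈ Sd' → x ≠ v := by
    rintro x v h1 h2 rfl
    exact disjoint_left.1 W.d3 h1 h2
  have mw := T.m
  have mw' := T'.m
  have tw := T.tw
  have tw' := T'.tw
  have cw := T.cw
  have cw' := T'.cw
  have xx' := T.ne
  have hx : x ∈ c w := by rw [cw]; exact mem_insert_self _ _
  have hx' : x' ∈ c w := by rw [cw]; exact mem_insert_of_mem (mem_singleton_self _)
  obtain ⟨mx, tx, ex⟩ := z_cov S C.adm1 mw (by omega) ew hx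
  obtain ⟨mx', tx', ex'⟩ := z_cov S C.adm1 mw (by omega) ew hx'
  obtain ⟨dx, dx'⟩ := pair_down S T T' hww
  have n0 : [w, w', x, x'].Nodup := by
    simp only [List.nodup_cons, List.mem_cons, List.not_mem_nil, or_false, not_or, List.nodup_nil,
      and_true, not_false_eq_true]
    and_intros
    all_goals first
      | assumption
      | (apply Ne.symm; assumption)
      | (intro hnd; subst hnd; omega)
  -- one further excited element
  have more : ∀ q, q ≠ w → q ≠ w' → q ≠ x → q ≠ x' → 1 ≤ e q → e q ≤ 2 := by
    intro q q1 q2 q3 q4 q5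
    have n1 : [q, w, w', x, x'].Nodup := by
      rw [List.nodup_cons]
      refine ⟨?_, n0⟩
      simp only [List.mem_cons, List.not_mem_nil, or_false, not_or]
      exact ⟨q1, q2, q3, q4⟩
    have hT := tot (e := e) n1
    simp only [List.map_cons, List.sum_cons, List.map_nil, List.sum_nil] at hT
    omega
  -- two further excited elements
  have more2 : ∀ q q', q ≠ w → q ≠ w' → q ≠ x → q ≠ x' → q' ≠ w → q' ≠ w' → q' ≠ x → q' ≠ x' →
      q ≠ q' → 1 ≤ e q → 1 ≤ e q' → e q = 1 ∧ e q' = 1 ∧
      ∀ z, 1 ≤ e z → z = q ∨ z = q' ∨ z = w ∨ z = w' ∨ z = x ∨ z = x' := by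
    intro q q' q1 q2 q3 q4 r1 r2 r3 r4 hqq q5 r5
    have n1 : [q, q', w, w', x, x'].Nodup := by
      rw [List.nodup_cons, List.nodup_cons]
      refine ⟨?_, ?_, n0⟩
      · simp only [List.mem_cons, List.not_mem_nil, or_false, not_or]
        exact ⟨hqq, q1, q2, q3, q4⟩
      · simp only [List.mem_cons, List.not_mem_nil, or_false, not_or]
        exact ⟨r1, r2, r3, r4⟩
    have hT := tot (e := e) n1
    simp only [List.map_cons, List.sum_cons, List.map_nil, List.sum_nil] at hT
    refine ⟨by omega, by omega, ?_⟩
    intro z hz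
    have := tot_pos n1 hE (by
      simp only [List.map_cons, List.sum_cons, List.map_nil, List.sum_nil]
      omega) hz
    simpa only [List.mem_cons, List.not_mem_nil, or_false] using this
  by_cases hA : ∀ q ∈ Sd, 0 < gg c c' e q → q ∈ ({w, w', x, x'} : Finset P)
  · by_cases hB : ∀ q ∈ Sd', ¬ 0 < gg c' c e q
    · exact Or.inr (Or.inr (Or.inr ⟨hA, hB⟩))
    · push Not at hB
      obtain ⟨q, mq, gq⟩ := hB
      obtain ⟨k1, k2⟩ := z_pos S' mq gq
      have eq := z_kl k2
      have tq := S'.t_le_of_kl C.adm2 (t' q) q mq k2 rfl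
      have := S'.tS q mq
      have q1 := (sS mw mq).symm
      have q2 := (sS mw' mq).symm
      have q3 := (sS mx mq).symm
      have q4 := (sS mx' mq).symm
      have hq2 := more q q1 q2 q3 q4 eq
      by_cases tq2 : t' q = 2
      · exfalso
        obtain ⟨y, hy⟩ : (c' q).Nonempty := card_pos.1 (by omega)
        obtain ⟨my, ty, ey⟩ := z_cov S' C.adm2 mq (by omega) eq hy
        have := more2 q y q1 q2 q3 q4 (sS mw my).symm (sS mw' my).symm (sS mx my).symm
          (sS mx' my).symm (by rintro rfl; omega) eq ey
        omega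
      have tq1 : t' q = 1 := by omega
      rcases C.core2 q mq tq1 eq with ⟨z, hz, ez⟩ | ⟨h4, z, hz, ez⟩
      · obtain ⟨mz, tz, cz⟩ := z_chd S' (Or.inl mq) hz
        have hqz : q ≠ z := by rintro rfl; omega
        obtain ⟨-, -, m4⟩ := more2 q z q1 q2 q3 q4 (sS mw mz).symm (sS mw' mz).symm
          (sS mx mz).symm (sS mx' mz).symm hqz eq ez
        have m5 : ∀ b ∈ Sd', 1 ≤ e b → b = q ∨ b = z := by
          intro b mb eb
          rcases m4 b eb with h5 | h5 | h5 | h5 | h5 | h5
          · exact Or.inl h5
          · exact Or.inr h5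
          · exact absurd h5 (sS mw mb).symm
          · exact absurd h5 (sS mw' mb).symm
          · exact absurd h5 (sS mx mb).symm
          · exact absurd h5 (sS mx' mb).symm
        have hcz : c' z = {q} := by
          rw [eq_singleton_iff_unique_mem]
          refine ⟨cz, fun b hb => ?_⟩
          obtain ⟨mb, tb, eb⟩ := z_cov S' C.adm2 mz (by omega) ez hb
          rcases m5 b mb eb with h5 | h5
          · exact h5
          · subst h5; omega
        have noV : ∀ v ∈ V, ¬ 1 ≤ e v := by
          intro v mv ev
          rcases m4 v ev with h5 | h5 | h5 | h5 | h5 | h5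
          · rw [h5] at mv; exact disjoint_left.1 W.d2 mq mv
          · rw [h5] at mv; exact disjoint_left.1 W.d2 mz mv
          · rw [h5] at mv; exact disjoint_left.1 W.d1 mw mv
          · rw [h5] at mv; exact disjoint_left.1 W.d1 mw' mv
          · rw [h5] at mv; exact disjoint_left.1 W.d1 mx mv
          · rw [h5] at mv; exact disjoint_left.1 W.d1 mx' mv
        obtain ⟨p1, p2, p3, p4⟩ := W.psi2 q mq tq1 k1
        -- the partner is not excited
        have hps : e (psi q) = 0 := by
          by_contra hne
          obtain ⟨v, hv⟩ : (c' q).Nonempty := card_pos.1 (by omega)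
          have hv' : v ∈ c (psi q) := by rw [p3]; exact hv
          obtain ⟨mv, ev⟩ := not_both W C p1 p2 hv' hv
          exact noV v mv (by omega)
        refine Or.inr (Or.inr (Or.inl ⟨z, q, ⟨⟨mz, by omega, hcz, k1⟩, ez, hps, ?_, ?_⟩⟩))
        · intro b hb hbz
          by_contra hne
          obtain ⟨mb, tb, cb⟩ := z_chd S' (Or.inl mq) hb
          rcases m5 b mb (by omega) with h5 | h5
          · subst h5; omega
          · exact hbz h5
        · intro b hb
          by_contra hne
          obtain ⟨mb, tb, cb⟩ := z_chd S' (Or.inl mz) hb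
          rcases m5 b mb (by omega) with h5 | h5
          · subst h5; omega
          · subst h5; omega
      · left
        have := partner_main W.symm C.symm hE mq tq1 eq h4 hz ez
        omega
  · push Not at hA
    obtain ⟨q, mq, gq, hq⟩ := hA
    simp only [mem_insert, mem_singleton, not_or] at hq
    obtain ⟨q1, q2, q3, q4⟩ := hq
    obtain ⟨k1, k2⟩ := z_pos S mq gq
    have eq := z_kl k2
    have tq := S.t_le_of_kl C.adm1 (t q) q mq k2 rfl
    have := S.tS q mq
    have hq2 := more q q1 q2 q3 q4 eq
    have nox : ∀ {z : P}, z ≠ w → z ≠ w' → x ∉ c z ∧ x' ∉ c z := by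
      intro z h1 h2
      constructor
      · intro h3
        have h4 := (S.dual _ _).1 h3
        rw [dx, mem_insert, mem_singleton] at h4
        tauto
      · intro h3
        have h4 := (S.dual _ _).1 h3
        rw [dx', mem_insert, mem_singleton] at h4
        tauto
    by_cases tq2 : t q = 2
    · exfalso
      obtain ⟨y, hy⟩ : (c q).Nonempty := card_pos.1 (by omega)
      obtain ⟨my, ty, ey⟩ := z_cov S C.adm1 mq (by omega) eq hy
      have y3 : y ≠ x := by rintro rfl; exact (nox q1 q2).1 hy
      have y4 : y ≠ x' := by rintro rfl; exact (nox q1 q2).2 hy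
      have := more2 q y q1 q2 q3 q4 (by rintro rfl; omega) (by rintro rfl; omega) y3 y4
        (by rintro rfl; omega) eq ey
      omega
    have tq1 : t q = 1 := by omega
    rcases C.core1 q mq tq1 eq with ⟨z, hz, ez⟩ | ⟨h4, z, hz, ez⟩
    · obtain ⟨mz, tz, cz⟩ := z_chd S (Or.inl mq) hz
      have z1 : z ≠ w := by
        rintro rfl
        rw [cw, mem_insert, mem_singleton] at cz
        tauto
      have z2 : z ≠ w' := by
        rintro rfl
        rw [cw', mem_insert, mem_singleton] at cz
        tauto
      have z3 : z ≠ x := by rintro rfl; omega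
      have z4 : z ≠ x' := by rintro rfl; omega
      have hqz : q ≠ z := by rintro rfl; omega
      obtain ⟨-, -, m4⟩ := more2 q z q1 q2 q3 q4 z1 z2 z3 z4 hqz eq ez
      have hcz : c z = {q} := by
        rw [eq_singleton_iff_unique_mem]
        refine ⟨cz, fun b hb => ?_⟩
        obtain ⟨mb, tb, eb⟩ := z_cov S C.adm1 mz (by omega) ez hb
        rcases m4 b eb with h5 | h5 | h5 | h5 | h5 | h5
        · exact h5
        · subst h5; omega
        · subst h5; omega
        · subst h5; omega
        · subst h5; exact absurd hb (nox z1 z2).1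
        · subst h5; exact absurd hb (nox z1 z2).2
      obtain ⟨p1, p2, p3, p4⟩ := W.psi1 q mq tq1 k1
      refine Or.inr (Or.inl ⟨z, q, ⟨⟨mz, by omega, hcz, k1⟩, ez, ?_, ?_, ?_⟩⟩)
      · by_contra hne
        rcases m4 (psi q) (by omega) with h5 | h5 | h5 | h5 | h5 | h5
        · exact sS mq p1 h5.symm
        · exact sS mz p1 h5.symm
        · exact sS mw p1 h5.symm
        · exact sS mw' p1 h5.symm
        · exact sS mx p1 h5.symm
        · exact sS mx' p1 h5.symm
      · intro b hb hbz
        by_contra hne
        obtain ⟨mb, tb, cb⟩ := z_chd S (Or.inl mq) hb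
        rcases m4 b (by omega) with h5 | h5 | h5 | h5 | h5 | h5
        · subst h5; omega
        · exact hbz h5
        · subst h5
          rw [cw, mem_insert, mem_singleton] at cb
          tauto
        · subst h5
          rw [cw', mem_insert, mem_singleton] at cb
          tauto
        · subst h5; omega
        · subst h5; omega
      · intro b hb
        by_contra hne
        obtain ⟨mb, tb, cb⟩ := z_chd S (Or.inl mz) hb
        rcases m4 b (by omega) with h5 | h5 | h5 | h5 | h5 | h5
        · subst h5; omega
        · subst h5; omega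
        · subst h5; omega
        · subst h5; omega
        · subst h5; omega
        · subst h5; omega
    · left
      exact partner_main W C hE mq tq1 eq h4 hz ez

/-- CLASSIFICATION OF THE CORES WITH A CLOSED PAIR, energy at most six -/
theorem clo6 (W : SO.Two c c' t t' V Sd Sd' psi) (C : SO.Cfg c c' t t' V Sd Sd' psi e)
    (hE : ∑ x, e x ≤ 6) {w w' x x' s : P} (T : SO.TD c t Sd w x x' s)
    (T' : SO.TD c t Sd w' x x' s) (hww : w ≠ w') (ew : 1 ≤ e w) (ew' : 1 ≤ e w') :
    SO.kS c c' V Sd e + SO.kS c' c V Sd' e ≤ 1 ∨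
    (∃ p y, SO.Ref c c' t Sd psi e p y) ∨ (∃ p y, SO.Ref c' c t' Sd' psi e p y) ∨
    (SO.kS c c' V Sd e + SO.kS c' c V Sd' e ≤ 2 ∧
      (SO.Tog c c' t Sd psi e w x x' s ∨ (e w = 1 ∧ 2 ≤ e w' ∧ 1 ≤ e x ∧ 1 ≤ e x'))) := by
  by_cases hk : SO.kS c c' V Sd e + SO.kS c' c V Sd' e ≤ 1
  · exact Or.inl hk
  rcases clo6_pos W C hE T T' hww ew ew' with h | h | h | ⟨hA, hB⟩
  · exact Or.inl h
  · exact Or.inr (Or.inl h)
  · exact Or.inr (Or.inr (Or.inl h))
  right; right; right
  have S := side0_of W.s1
  have S' := side0_of W.s2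
  have mw := T.m
  have mw' := T'.m
  have tw := T.tw
  have tw' := T'.tw
  have cw := T.cw
  have cw' := T'.cw
  have xx' := T.ne
  have hx : x ∈ c w := by rw [cw]; exact mem_insert_self _ _
  have hx' : x' ∈ c w := by rw [cw]; exact mem_insert_of_mem (mem_singleton_self _)
  have hxw' : x ∈ c w' := by rw [cw']; exact mem_insert_self _ _
  have hxw'' : x' ∈ c w' := by rw [cw']; exact mem_insert_of_mem (mem_singleton_self _)
  obtain ⟨mx, tx, ex⟩ := z_cov S C.adm1 mw (by omega) ew hx
  obtain ⟨mx', tx', ex'⟩ := z_cov S C.adm1 mw (by omega) ew hx'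
  obtain ⟨dx, dx'⟩ := pair_down S T T' hww
  have ms : s ∈ V := by
    obtain ⟨k1, k2⟩ := S.cin x mx s T.sx
    rcases k1 with k1 | k1
    · have := S.tS s k1
      omega
    · exact k1
  have ts := S.tV s ms
  have n0 : [w, w', x, x'].Nodup := by
    simp only [List.nodup_cons, List.mem_cons, List.not_mem_nil, or_false, not_or, List.nodup_nil,
      and_true, not_false_eq_true]
    and_intros
    all_goals first
      | assumption
      | (apply Ne.symm; assumption)
      | (intro hnd; subst hnd; omega)
  have hT := tot (e := e) n0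
  simp only [List.map_cons, List.sum_cons, List.map_nil, List.sum_nil] at hT
  have g1 := z_kS (e := e) S C.adm1
  have g2 := z_kS (e := e) S' C.adm2
  have g3 := z_sum_zero (c := c') (c' := c) (e := e) (Sd := Sd') hB
  have g4 := z_sum_le (c := c) (c' := c') (e := e) (Sd := Sd) _ hA
  have hsum : ∑ z ∈ ({w, w', x, x'} : Finset P), gg c c' e z =
      gg c c' e w + gg c c' e w' + gg c c' e x + gg c c' e x' := by
    simp only [List.nodup_cons, List.mem_cons, List.not_mem_nil, or_false, not_or, List.nodup_nil,
      and_true, not_false_eq_true] at n0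
    rw [sum_insert, sum_insert, sum_pair xx']
    · ring
    · simp only [mem_insert, mem_singleton, not_or]
      exact n0.2.1
    · simp only [mem_insert, mem_singleton, not_or]
      exact n0.1
  rw [hsum] at g4
  have b1 : ∀ z : P, gg c c' e z ≤ 2 := fun z => gg_le (by norm_num) (S.cc_le_two z)
  -- an element of the pair with label one is no killer
  have nk : ∀ {z : P}, z ∈ Sd → t z = 2 → e z ≤ 1 → gg c c' e z = 0 := by
    intro z mz tz hz
    apply gg_zero_of_not_kl
    intro hk
    have := S.t_le_of_kl C.adm1 (t z) z mz hk rfl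
    omega
  -- admissibility at the two near elements
  have ad : ∀ {z : P}, z ∈ Sd → ∀ {d a : P}, d ∈ c' z → a ∈ c z → e z < e d → ¬ e z ≤ e a := by
    intro z mz d a hd ha h1 h2
    exact C.adm1 z mz ⟨⟨d, hd, h1⟩, a, ha, h2⟩
  have wx : w ∈ c' x := (S.dual _ _).1 hx
  have wx' : w ∈ c' x' := (S.dual _ _).1 hx'
  have w'x : w' ∈ c' x := (S.dual _ _).1 hxw'
  have w'x' : w' ∈ c' x' := (S.dual _ _).1 hxw''
  -- an excited site together with more
  have five : ∀ {v : P}, v ∈ V → e w + e w' + e x + e x' + e v ≤ 6 := by
    intro v mv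
    have tv := S.tV v mv
    have n1 : [v, w, w', x, x'].Nodup := by
      rw [List.nodup_cons]
      refine ⟨?_, n0⟩
      simp only [List.mem_cons, List.not_mem_nil, or_false, not_or]
      refine ⟨?_, ?_, ?_, ?_⟩ <;> rintro rfl <;> omega
    have hT := tot (e := e) n1
    simp only [List.map_cons, List.sum_cons, List.map_nil, List.sum_nil] at hT
    omega
  have six : ∀ {v v' : P}, v ∈ V → v' ∈ V → v ≠ v' → e w + e w' + e x + e x' + e v + e v' ≤ 6 := by
    intro v v' mv mv' hne
    have tv := S.tV v mv
    have tv' := S.tV v' mv'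
    have n1 : [v, v', w, w', x, x'].Nodup := by
      rw [List.nodup_cons, List.nodup_cons]
      refine ⟨?_, ?_, n0⟩
      · simp only [List.mem_cons, List.not_mem_nil, or_false, not_or]
        refine ⟨hne, ?_, ?_, ?_, ?_⟩ <;> rintro rfl <;> omega
      · simp only [List.mem_cons, List.not_mem_nil, or_false, not_or]
        refine ⟨?_, ?_, ?_, ?_⟩ <;> rintro rfl <;> omega
    have hT := tot (e := e) n1
    simp only [List.map_cons, List.sum_cons, List.map_nil, List.sum_nil] at hT
    omega
  have siteV : ∀ {z v : P}, z ∈ Sd → t z = 1 → v ∈ c z → v ∈ V := by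
    intro z v mz tz hv
    obtain ⟨k1, k2⟩ := S.cin z mz v hv
    rcases k1 with k1 | k1
    · have := S.tS v k1
      omega
    · exact k1
  -- both near elements with charge two: the site is not killed by both
  have both : gg c c' e x = 2 → gg c c' e x' = 2 → e x ≤ e s ∨ e x' ≤ e s := by
    intro h1 h2
    by_contra h3
    push Not at h3
    have h4 := gg_shared (c := c) (c' := c') (e := e) S xx' (a := s)
      (mem_kn.2 ⟨T.sx, h3.1⟩) (mem_kn.2 ⟨T.sx', h3.2⟩)
    omega
  have hkp : SO.kS c c' V Sd e + SO.kS c' c V Sd' e ≤ 2 ∧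
      (2 ≤ e w → 2 ≤ e w' → False) ∧
      (e w ≤ 1 → e w' ≤ 1 → gg c c' e x = 2 ∧ gg c c' e x' = 2) := by
    have hbx := b1 x
    have hbx' := b1 x'
    have hbw := b1 w
    have hbw' := b1 w'
    by_cases c1 : 2 ≤ e w
    · by_cases c2 : 2 ≤ e w'
      · exfalso
        have h1 : e w = 2 ∧ e w' = 2 ∧ e x = 1 ∧ e x' = 1 := by omega
        have z1 : gg c c' e w = 0 := by
          have h2 : gg c c' e w ≤ 0 := by
            apply gg_le le_rfl
            have k1 : kn c e w = {x, x'} := by
              ext a
              rw [mem_kn, cw, mem_insert, mem_singleton]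
              constructor
              · exact fun h => h.1
              · rintro (rfl | rfl)
                · exact ⟨Or.inl rfl, by omega⟩
                · exact ⟨Or.inr rfl, by omega⟩
            have k2 : so c c' e w = ∅ := by
              rw [eq_empty_iff_forall_notMem]
              intro a ha
              have h3 := so_sub_kn ha
              have h4 : a ∈ kn c e w' := by
                rw [k1, mem_insert, mem_singleton] at h3
                rw [mem_kn, cw', mem_insert, mem_singleton]
                rcases h3 with rfl | rfl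
                · exact ⟨Or.inl rfl, by omega⟩
                · exact ⟨Or.inr rfl, by omega⟩
              exact not_mem_so S.dual hww h3 h4 ha
            have k3 : ¬ gu c e w := by
              rintro ⟨a, ha, hle⟩
              rw [cw, mem_insert, mem_singleton] at ha
              rcases ha with rfl | rfl <;> omega
            unfold cc
            rw [k1, k2, card_pair xx', if_neg k3]
            simp
          have := gg_nonneg (c := c) (c' := c') (e := e) w
          omega
        have z2 : gg c c' e w' = 0 := by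
          have h2 : gg c c' e w' ≤ 0 := by
            apply gg_le le_rfl
            have k1 : kn c e w' = {x, x'} := by
              ext a
              rw [mem_kn, cw', mem_insert, mem_singleton]
              constructor
              · exact fun h => h.1
              · rintro (rfl | rfl)
                · exact ⟨Or.inl rfl, by omega⟩
                · exact ⟨Or.inr rfl, by omega⟩
            have k2 : so c c' e w' = ∅ := by
              rw [eq_empty_iff_forall_notMem]
              intro a ha
              have h3 := so_sub_kn ha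
              have h4 : a ∈ kn c e w := by
                rw [k1, mem_insert, mem_singleton] at h3
                rw [mem_kn, cw, mem_insert, mem_singleton]
                rcases h3 with rfl | rfl
                · exact ⟨Or.inl rfl, by omega⟩
                · exact ⟨Or.inr rfl, by omega⟩
              exact not_mem_so S.dual hww.symm h3 h4 ha
            have k3 : ¬ gu c e w' := by
              rintro ⟨a, ha, hle⟩
              rw [cw', mem_insert, mem_singleton] at ha
              rcases ha with rfl | rfl <;> omega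
            unfold cc
            rw [k1, k2, card_pair xx', if_neg k3]
            simp
          have := gg_nonneg (c := c) (c' := c') (e := e) w'
          omega
        have hs0 : e s = 0 := by
          have := five ms
          omega
        have h4 := gg_shared (c := c) (c' := c') (e := e) S xx' (a := s)
          (mem_kn.2 ⟨T.sx, by omega⟩) (mem_kn.2 ⟨T.sx', by omega⟩)
        have h5 := gg_shared (c := c) (c' := c') (e := e) S xx'.symm (a := s)
          (mem_kn.2 ⟨T.sx', by omega⟩) (mem_kn.2 ⟨T.sx, by omega⟩)
        omega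
      · have z2 := nk mw' tw' (by omega)
        refine ⟨?_, fun _ h => absurd h c2, fun h => absurd c1 (by omega)⟩
        by_contra hc
        have h1 : gg c c' e x = 2 ∧ gg c c' e x' = 2 := by omega
        have h2 := five ms
        rcases both h1.1 h1.2 with h3 | h3
        · exact ad mx wx T.sx (by omega) (by omega)
        · exact ad mx' wx' T.sx' (by omega) (by omega)
    · by_cases c2 : 2 ≤ e w'
      · have z1 := nk mw tw (by omega)
        refine ⟨?_, fun h => absurd h c1, fun _ h => absurd c2 (by omega)⟩
        by_contra hc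
        have h1 : gg c c' e x = 2 ∧ gg c c' e x' = 2 := by omega
        have h2 := five ms
        rcases both h1.1 h1.2 with h3 | h3
        · exact ad mx w'x T.sx (by omega) (by omega)
        · exact ad mx' w'x' T.sx' (by omega) (by omega)
      · have z1 := nk mw tw (by omega)
        have z2 := nk mw' tw' (by omega)
        refine ⟨by omega, fun h => absurd h c1, fun _ _ => by omega⟩
  obtain ⟨kp2, hcc, hgg⟩ := hkp
  refine ⟨kp2, ?_⟩
  by_cases c2 : 2 ≤ e w'
  · right
    refine ⟨?_, c2, ex, ex'⟩
    by_contra h
    exact hcc (by omega) c2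
  left
  have ew'1 : e w' = 1 := by omega
  have hfs := five ms
  have key : (min (e x) (e x') < e w ∧ e s < min (e x) (e x')) ∨
      (e w ≤ min (e x) (e x') ∧ min (e x) (e x') ≤ e s) := by
    by_cases c1 : 2 ≤ e w
    · left
      refine ⟨by omega, ?_⟩
      by_contra h
      have h1 : e x = 1 ∧ e x' = 1 ∧ e s = 1 ∧ e w = 2 := by omega
      exact ad mx wx T.sx (by omega) (by omega)
    · right
      have h1 := hgg (by omega) (by omega)
      have := both h1.1 h1.2
      omega
  -- the sites away from `s`
  have hv : ∀ {y : P}, y ∈ Sd → t y = 1 → w ∈ c' y → w' ∈ c' y → s ∈ c y → y = x ∨ y = x' →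
      e y < max (e w) (e s + 1) → ∀ v ∈ c y, v ≠ s → e v < e y := by
    intro y my ty hwy hwy' hsy hyx hlt v hvy hvs
    by_contra hc
    have mv := siteV my ty hvy
    by_cases c1 : e y < e w
    · exact ad my hwy hvy c1 (by omega)
    · have h1 := six mv ms hvs
      have h2 : 1 ≤ e y := by rcases hyx with rfl | rfl <;> assumption
      have h3 : e y ≤ e s := by omega
      have h4 := hgg (by omega) (by omega)
      have h5 : ¬ kl c e y := by
        rintro ⟨a, ha, hlt'⟩
        have h6 : (c y).card = 2 := by rcases hyx with rfl | rfl <;> [exact T.cx; exact T.cx']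
        have h7 : c y = {v, s} := by
          symm
          apply Finset.eq_of_subset_of_card_le
          · intro b hb
            rw [mem_insert, mem_singleton] at hb
            rcases hb with rfl | rfl <;> assumption
          · rw [card_pair hvs, h6]
        rw [h7, mem_insert, mem_singleton] at ha
        rcases ha with rfl | rfl <;> omega
      have h8 := gg_zero_of_not_kl (c' := c') h5
      rcases hyx with rfl | rfl <;> omega
  have ps : ∀ {y : P}, y ∈ Sd → t y = 1 → (c y).card = 2 → y = x ∨ y = x' → e (psi y) = 0 := by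
    intro y my ty hc hyx
    by_contra hne
    obtain ⟨p1, p2, p3, p4⟩ := W.psi1 y my ty hc
    obtain ⟨a, b, hab, hcy⟩ := card_eq_two.1 hc
    have h2 : 1 ≤ e y := by rcases hyx with rfl | rfl <;> assumption
    have ha : a ∈ c y := by rw [hcy]; exact mem_insert_self _ _
    have hb : b ∈ c y := by rw [hcy]; exact mem_insert_of_mem (mem_singleton_self _)
    obtain ⟨ma, ha'⟩ := not_both W C my ty ha (v := psi y) (by rw [p3]; exact ha)
    obtain ⟨mb, hb'⟩ := not_both W C my ty hb (v := psi y) (by rw [p3]; exact hb)
    have m1 : psi y ≠ a := by rintro rfl; exact disjoint_left.1 W.d2 p1 ma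
    have m2 : psi y ≠ b := by rintro rfl; exact disjoint_left.1 W.d2 p1 mb
    have ta := S.tV a ma
    have tb := S.tV b mb
    have sS : ∀ {z : P}, z ∈ Sd → psi y ≠ z := by
      rintro z h1 rfl
      exact disjoint_left.1 W.d3 h1 p1
    have n1 : [psi y, a, b, w, w', x, x'].Nodup := by
      rw [List.nodup_cons, List.nodup_cons, List.nodup_cons]
      refine ⟨?_, ?_, ?_, n0⟩
      · simp only [List.mem_cons, List.not_mem_nil, or_false, not_or]
        exact ⟨m1, m2, sS mw, sS mw', sS mx, sS mx'⟩
      · simp only [List.mem_cons, List.not_mem_nil, or_false, not_or]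
        refine ⟨hab, ?_, ?_, ?_, ?_⟩ <;> rintro rfl <;> omega
      · simp only [List.mem_cons, List.not_mem_nil, or_false, not_or]
        refine ⟨?_, ?_, ?_, ?_⟩ <;> rintro rfl <;> omega
    have hT := tot (e := e) n1
    simp only [List.map_cons, List.sum_cons, List.map_nil, List.sum_nil] at hT
    omega
  refine ⟨T, ew, ex, ex', key, ps mx (by omega) T.cx (Or.inl rfl),
    ps mx' (by omega) T.cx' (Or.inr rfl), ?_, ?_, ?_, ?_, ?_⟩
  · -- children of `w`
    intro z hz
    obtain ⟨mz, tz, cz⟩ := z_chd S (Or.inl mw) hz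
    by_contra hc
    have n1 : [z, w, w', x, x'].Nodup := by
      rw [List.nodup_cons]
      refine ⟨?_, n0⟩
      simp only [List.mem_cons, List.not_mem_nil, or_false, not_or]
      refine ⟨?_, ?_, ?_, ?_⟩ <;> rintro rfl <;> omega
    have hT := tot (e := e) n1
    simp only [List.map_cons, List.sum_cons, List.map_nil, List.sum_nil] at hT
    have h1 : e z = 2 ∧ e w = 1 ∧ e x = 1 := by omega
    exact ad mw hz hx (by omega) (by omega)
  · exact hv mx (by omega) wx w'x T.sx (Or.inl rfl)
  · exact hv mx' (by omega) wx' w'x' T.sx' (Or.inr rfl)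
  · intro z hz hzw
    rw [dx, mem_insert, mem_singleton] at hz
    rcases hz with rfl | rfl
    · exact absurd rfl hzw
    · omega
  · intro z hz hzw
    rw [dx', mem_insert, mem_singleton] at hz
    rcases hz with rfl | rfl
    · exact absurd rfl hzw
    · omega

end Pool.Agent.GaussPoset.Win.So

end
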