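import Mathlib
import Pool.Agent.W_448zz_h61.Ns
import Pool.Agent.W_448zz_h61.M037
import Pool.Agent.W_448zz_h61.M048
import Pool.Agent.W_448zz_h61.M049
import Pool.Agent.W_448zz_h61.M050
import Pool.Agent.W_448zz_h61.M074

/-! From `Pool.Agent.W_448s7_h5.SevW` -/

section

/-!
# The windows of S7: the cheapest class has both signs (MP_448cb3_co)
-/

namespace Pool.Agent.GaussPoset

set_option linter.unusedSectionVars false

open Polynomial Finset

universe u

variable {P : Type u} [Fintype P] [PartialOrder P] [DecidableEq P] {r j w : ℕ}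
  {N : Tops P → Finset P} {b : Tops P → ℕ} {θ : Tops P → P → ℕ} {Ea : Tops P → Prop}

/-- the outcomes for a cheapest boundary element -/
theorem Wn.out (W : Wn r j w N b θ) (L : Lgt j w b Ea) {v : ℕ}
    (hP : OnePen P j (fun t => 2 ≤ b t) ∨ v ≤ (j + 1 - w) ^ 2 + 5 * (j - w))
    (M : Mn j w N θ v) {z : P} (hz : z ∈ bdR (rA N)) (hc : cst w (hA N θ) z = v) :
    Out j w Ea (hA N θ) z v := by
  classical
  have H := W.gt.H
  have hj := W.hj
  have hw := W.hw
  have hlz := W.bd_lev hz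
  by_cases hd : ∃ x, x ∉ rA N ∧ z ⋖ x ∧ Dp j w N θ (GaussPoset.bs N x)
  · obtain ⟨x, hx, hzx, hD⟩ := hd
    have e1 := (H.covBy_iff.mp hzx).2
    by_cases hl : j + 1 ≤ lev x
    · left
      have := W.deep_cover hz hx hzx hl hD
      omega
    · have hxu : x ∉ unnat N := W.low (by omega)
      have hbs : GaussPoset.bs N x = x := by
        unfold GaussPoset.bs
        rw [if_neg (W.not_tw hxu)]
      rw [hbs] at hD
      exact W.deep_j hz hc (by omega) hzx hD
  · push Not at hd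
    obtain ⟨hF, hge⟩ := W.flat M hz hc hd
    by_cases hR : ∃ x, z ⋖ x ∧ Row1 j w N θ x
    · obtain ⟨x, hzx, hR⟩ := hR
      exact W.row1_out hz hc hF hge hzx hR
    · push Not at hR
      have hS : ∀ x, z ⋖ x → x ∉ unnat N ∧ Str w N θ x := fun x hx =>
        ⟨(hF x hx).1, (hF x hx).2.resolve_right (hR x hx)⟩
      have hh : hA N θ z = lev z - w := by
        obtain ⟨x0, f1, f2, f3⟩ := W.hA_spec hz
        obtain ⟨g1, g2⟩ := hS x0 f2
        have hbs : GaussPoset.bs N x0 = x0 := by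
          unfold GaussPoset.bs
          rw [if_neg (W.not_tw g1)]
        rw [hbs, g2.th] at f3
        have := (H.covBy_iff.mp f2).2
        omega
      by_cases hT : ∃ x x', z ⋖ x ∧ z ⋖ x' ∧ topOf x ≠ topOf x'
      · obtain ⟨x, x', h1, h2, h3⟩ := hT
        exact W.cross_out L hz hh hc (hS x h1).1 (hS x' h2).1 (hS x h1).2 (hS x' h2).2 h1 h2 h3
      · push Not at hT
        obtain ⟨x, hzx, -⟩ := Hul.exists_cov (w := z) (v := (topOf z : P))
          (lt_of_le_of_ne (le_topOf z) (by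
            intro h
            have := (topOf z).2
            rw [← h] at this
            omega))
        exact W.own_out hP hz hh hc hS (t := topOf x) fun x' hx' => hT x' x hx' hzx

/-- the outcome for the twins -/
theorem Wn.out_tw (W : Wn r j w N b θ) {v : ℕ} {x : P} (hx : x ∈ twA N)
    (hc : tcst w (thA N θ) (twT N x, x) = v) (h : P → ℕ) (hh : h x = lev x - w) :
    cap j w < v ∨ (thA N θ (twT N x) + 1 = lev (twT N x) - w ∧ nab w x = nab (w + h x) x + 1 ∧
      Even (nst w h x) ∧ EvN j w v) := by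
  have hj := W.hj
  have hw := W.hw
  obtain ⟨hl, hk⟩ := W.tw_cases hx
  have hl2 := W.twSys.lev hx
  have hup := W.twSys.up x hx
  rcases hk with hk | hk
  · right
    obtain ⟨a, ha⟩ : ∃ a, lev x = w + a := ⟨lev x - w, by omega⟩
    have h1 := W.tcst_row1 hx hk ha
    have hn : ∀ k, w ≤ k → k < lev x → nab k x = 2 := fun k h1 h2 => by
      rw [← nab_congr_up hup h2]
      exact hk.nab k h1 (by omega)
    have e1 : thA N θ (twT N x) = θ (topOf (twT N x)) (twT N x) :=
      W.thA_nat (W.twSys.nat x hx)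
    refine ⟨by rw [e1]; exact hk.th, ?_, ?_, hk.one_le, Or.inr (Or.inl ⟨a - (j + 1 - w),
      Or.inr ?_⟩)⟩
    · rw [hn w le_rfl (by omega), hh, show w + (lev x - w) = lev x by omega, nab_self]
    · rw [nst_eq, hh, Finset.sum_congr rfl (g := fun _ => 2)]
      · rw [Finset.sum_const, card_range]
        exact ⟨lev x - w, by simp only [smul_eq_mul]; ring⟩
      · intro k hk'
        rw [mem_range] at hk'
        exact hn _ (by omega) (by omega)
    · rw [← hc, h1, show j + 1 - w + (a - (j + 1 - w)) = a by omega]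
      ring
  · left
    rw [← hc]
    exact W.tcst_deep hx hk

/-- existence of the minimal value -/
lemma exists_min (W : Wn r j w N b θ) (hne : (bdR (rA N)).Nonempty) :
    ∃ v, Mn j w N θ v ∧ ((∃ z ∈ bdR (rA N), cst w (hA N θ) z = v) ∨
      ∃ x ∈ twA N, tcst w (thA N θ) (twT N x, x) = v) := by
  classical
  let A : Finset ℕ := (bdR (rA N)).image (cst w (hA N θ)) ∪
    (twA N).image (fun x => tcst w (thA N θ) (twT N x, x))
  have hA : A.Nonempty := by
    obtain ⟨z, hz⟩ := hne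
    exact ⟨_, mem_union_left _ (mem_image_of_mem _ hz)⟩
  refine ⟨A.min' hA, ⟨fun z hz => A.min'_le _ (mem_union_left _ (mem_image_of_mem _ hz)),
    fun x hx => A.min'_le _ (mem_union_right _
      (mem_image_of_mem (fun x => tcst w (thA N θ) (twT N x, x)) hx))⟩, ?_⟩
  have := A.min'_mem hA
  rcases mem_union.mp this with h | h
  · obtain ⟨z, hz, h⟩ := mem_image.mp h
    exact Or.inl ⟨z, hz, h⟩
  · obtain ⟨x, hx, h⟩ := mem_image.mp h
    exact Or.inr ⟨x, hx, h⟩

/-- a vanishing sum of signs has both signs -/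
lemma both_signs {ι : Type*} (T : Finset ι) (a : ι → ℕ) (h : ∑ z ∈ T, (-1 : ℤ) ^ (a z) = 0)
    (hne : T.Nonempty) : (∃ z ∈ T, Even (a z)) ∧ ∃ z ∈ T, Odd (a z) := by
  classical
  constructor
  · by_contra hcon
    push Not at hcon
    have h1 : ∀ z ∈ T, (-1 : ℤ) ^ (a z) = -1 := fun z hz =>
      (Nat.not_even_iff_odd.mp (hcon z hz)).neg_one_pow
    rw [Finset.sum_congr rfl h1, Finset.sum_const, nsmul_eq_mul] at h
    have := Finset.card_pos.mpr hne
    omega
  · by_contra hcon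
    push Not at hcon
    have h1 : ∀ z ∈ T, (-1 : ℤ) ^ (a z) = 1 := fun z hz =>
      (Nat.not_odd_iff_even.mp (hcon z hz)).neg_one_pow
    rw [Finset.sum_congr rfl h1, Finset.sum_const, nsmul_eq_mul] at h
    have := Finset.card_pos.mpr hne
    omega

/-- **The cheapest class at window `w` has both signs.** -/
theorem Wn.both (W : Wn r j w N b θ) (L : Lgt j w b Ea) {v : ℕ}
    (hP : OnePen P j (fun t => 2 ≤ b t) ∨ v ≤ (j + 1 - w) ^ 2 + 5 * (j - w))
    (M : Mn j w N θ v) (hex : (∃ z ∈ bdR (rA N), cst w (hA N θ) z = v) ∨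
      ∃ x ∈ twA N, tcst w (thA N θ) (twT N x, x) = v) (hcap : v ≤ cap j w) :
    ((∃ z x x', Crs j Ea z x x' ∧ ful w z = v ∧ Odd (nst w (fun z => lev z - w) z)) ∨
      OdN j w v) ∧
    ((∃ z x x', Crs j Ea z x x' ∧ ful w z = v ∧ Even (nst w (fun z => lev z - w) z)) ∨
      EvN j w v) := by
  classical
  have H := W.gt.H
  have hj := W.hj
  have hw := W.hw
  -- labels on the whole class
  let hh : P → ℕ := fun z => if z ∈ twA N then lev z - w else hA N θ z
  have hh1 : ∀ z ∈ twA N, hh z = lev z - w := fun z hz => if_pos hz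
  have hh2 : ∀ z, z ∉ twA N → hh z = hA N θ z := fun z hz => if_neg hz
  set T1 := (bdR (rA N)).filter (fun z => cst w (hA N θ) z = v) with hT1
  set T2 := (twA N).filter (fun x => tcst w (thA N θ) (twT N x, x) = v) with hT2
  have hn1 : ∀ z ∈ T1, z ∉ twA N := by
    intro z hz
    rw [hT1, mem_filter] at hz
    exact (mem_rA.mp (mem_bdR.mp hz.1).1).2
  have hdisj : Disjoint T1 T2 := by
    rw [Finset.disjoint_left]
    intro z hz hz'
    rw [hT2, mem_filter] at hz'
    exact hn1 z hz hz'.1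
  have hout1 : ∀ z ∈ T1, nab w z = nab (w + hh z) z + 1 ∧
      ((Even (nst w hh z) ∧ EvN j w v) ∨ (Odd (nst w hh z) ∧ OdN j w v) ∨
      (∃ x x', Crs j Ea z x x') ∧ v = ful w z ∧ hh z = lev z - w) := by
    intro z hz
    have hzt := hn1 z hz
    rw [hT1, mem_filter] at hz
    have h1 := W.out L hP M hz.1 hz.2
    have h2 : nst w hh z = nst w (hA N θ) z := by
      rw [nst_eq, nst_eq, hh2 z hzt]
    rw [h2, hh2 z hzt]
    exact h1.resolve_left (by omega)
  have hout2 : ∀ x ∈ T2, thA N θ (twT N x) + 1 = lev (twT N x) - w ∧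
      nab w x = nab (w + hh x) x + 1 ∧ Even (nst w hh x) ∧ EvN j w v := by
    intro x hx
    rw [hT2, mem_filter] at hx
    exact (W.out_tw hx.1 hx.2 hh (hh1 x hx.1)).resolve_left (by omega)
  -- the exact far window theorem
  have F := W.farX v M.tw
  have hd := F.lead M.bd
  have hZ := dvd_Z H.gauss w v
  have hsum2 : ∑ t ∈ (pairsX (twA N) (twT N)).filter (fun t => tcst w (thA N θ) t = v),
      Tm w (thA N θ) t = ∑ x ∈ T2, Lt w hh x := by
    have h1 : (pairsX (twA N) (twT N)).filter (fun t => tcst w (thA N θ) t = v) =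
        T2.image (fun x => (twT N x, x)) := by
      unfold pairsX
      rw [Finset.filter_image]
    rw [h1, Finset.sum_image (by
      intro x _ y _ h
      exact (Prod.mk.inj h).2)]
    refine Finset.sum_congr rfl fun x hx => ?_
    have h2 := (hout2 x hx).1
    rw [hT2, mem_filter] at hx
    rw [Tm_eq H.gradedBelow (W.twn hx.1) h2]
    unfold Lt
    simp only
    rw [nst_eq, nst_eq, hh1 x hx.1]
  have hsum1 : ∑ z ∈ T1, Lt w (hA N θ) z = ∑ z ∈ T1, Lt w hh z := by
    refine Finset.sum_congr rfl fun z hz => ?_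
    unfold Lt
    rw [nst_eq, nst_eq, hh2 z (hn1 z hz)]
  rw [hsum2] at hd
  have hsum1' : ∑ z ∈ (bdR (rA N)).filter (fun z => cst w (hA N θ) z = v), Lt w (hA N θ) z =
      ∑ z ∈ T1, Lt w hh z := hsum1
  rw [hsum1', ← Finset.sum_union hdisj] at hd
  have hdrop : ∀ z ∈ T1 ∪ T2, nab w z = nab (w + hh z) z + 1 := by
    intro z hz
    rcases mem_union.mp hz with h | h
    · exact (hout1 z h).1
    · exact (hout2 z h).2.1
  have hTne : (T1 ∪ T2).Nonempty := by
    rcases hex with ⟨z, hz, h⟩ | ⟨x, hx, h⟩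
    · exact ⟨z, mem_union_left _ (mem_filter.mpr ⟨hz, h⟩)⟩
    · exact ⟨x, mem_union_right _ (mem_filter.mpr ⟨hx, h⟩)⟩
  have hcard : 1 ≤ (lv P w).card := by
    obtain ⟨z, hz⟩ := hTne
    have h1 := hdrop z hz
    have h2 := nab_le z w
    omega
  have hs := sign_sum_of_dvd (T1 ∪ T2) hZ hd (c0 := (lv P w).card - 1) (by omega) (by
    intro z hz
    have := hdrop z hz
    omega)
  rw [Finset.filter_true_of_mem (fun z hz => by
    have := hdrop z hz
    omega)] at hs
  obtain ⟨⟨z1, hz1, he⟩, z2, hz2, ho⟩ := both_signs _ _ hs hTne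
  have hcls : ∀ z ∈ T1 ∪ T2, (Even (nst w hh z) ∧ EvN j w v) ∨ (Odd (nst w hh z) ∧ OdN j w v) ∨
      (∃ x x', Crs j Ea z x x') ∧ v = ful w z ∧ nst w hh z = nst w (fun z => lev z - w) z := by
    intro z hz
    rcases mem_union.mp hz with h | h
    · rcases (hout1 z h).2 with h1 | h1 | h1
      · exact Or.inl h1
      · exact Or.inr (Or.inl h1)
      · refine Or.inr (Or.inr ⟨h1.1, h1.2.1, ?_⟩)
        rw [nst_eq, nst_eq, h1.2.2]
    · exact Or.inl (hout2 z h).2.2
  constructor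
  · rcases hcls z2 hz2 with h | h | ⟨⟨x, x', h⟩, h1, h2⟩
    · exact absurd h.1 (Nat.not_even_iff_odd.mpr ho)
    · exact Or.inr h.2
    · rw [h2] at ho
      exact Or.inl ⟨z2, x, x', h, h1.symm, ho⟩
  · rcases hcls z1 hz1 with h | h | ⟨⟨x, x', h⟩, h1, h2⟩
    · exact Or.inr h.2
    · exact absurd h.1 (Nat.not_odd_iff_even.mpr he)
    · rw [h2] at he
      exact Or.inl ⟨z1, x, x', h, h1.symm, he⟩

end Pool.Agent.GaussPoset

end

/-! From `Pool.Agent.W_448s7_h5.SevX` -/

section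

/-!
# Classification at the windows `0, 1, 2, 3` (MP_448cb3_co, S7, `j ≥ 17`)
-/

namespace Pool.Agent.GaussPoset

set_option linter.unusedSectionVars false

open Polynomial Finset

universe u

variable {P : Type u} [Fintype P] [PartialOrder P] [DecidableEq P] {r j w : ℕ}

/-- the strips of a first bad level `j ≥ 17`: early components have a natural shape, late components
have one element on every level `k ≤ 8` -/
structure Strips (P : Type u) [Fintype P] [PartialOrder P] [DecidableEq P] (r j : ℕ)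
    (lo hi : Tops P → ℕ → ℕ) (e : Tops P → ℕ → ℕ → P) (Ea : Tops P → Prop) : Prop where
  gt : Win.GoodTo P r j
  hj : 17 ≤ j
  comp : ∀ t : Tops P, Cp.Comp j (t : P) (lo t) (hi t) (e t)
  early : ∀ t, Ea t → RectShape j (lo t) (hi t) ∨ StairShape j (lo t) (hi t) ∨
    StairShape j (fun k => k - hi t k) (fun k => k - lo t k)
  late : ∀ t, ¬ Ea t → ∀ k, k ≤ 8 → lo t k = hi t k
  pen : OnePen P j Ea ∨ ∃ z : P, Hul.Jn z ∧ ∀ w, w ≤ 3 → ful w z ≤ (j + 1 - w) ^ 2 + 5 * (j - w)

variable {lo hi : Tops P → ℕ → ℕ} {e : Tops P → ℕ → ℕ → P} {Ea : Tops P → Prop}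

/-- the window context -/
theorem Strips.window (S : Strips P r j lo hi e Ea) (hw : w ≤ 3) :
    ∃ N θ, Wn r j w N (fun t => hi t w - lo t w + 1) θ ∧
      Lgt j w (fun t => hi t w - lo t w + 1) Ea := by
  have hj := S.hj
  have H := S.gt.H
  have hT : ∀ t : Tops P, lo t w = hi t w ∨ RectShape j (lo t) (hi t) ∨
      StairShape j (lo t) (hi t) ∨ StairShape j (fun k => k - hi t k) (fun k => k - lo t k) := by
    intro t
    by_cases hE : Ea t
    · exact Or.inr (S.early t hE)
    · exact Or.inl (S.late t hE w (by omega))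
  choose N θ h1 h2 using fun t => exists_typeX S.gt (by omega) (S.comp t) (i := w) (by omega)
    (hT t)
  refine ⟨N, θ, ⟨S.gt, hj, hw, h1, h2, (card_level H S.gt.good S.comp (by omega)).symm⟩, ?_, ?_⟩
  · intro t ht x y hx hy hlx hly
    have e1 := (S.comp t).lo_le w (by omega)
    obtain ⟨s, a1, a2, a3⟩ := (S.comp t).surj x hx (by omega)
    obtain ⟨s', b1, b2, b3⟩ := (S.comp t).surj y hy (by omega)
    rw [hlx] at a1 a2 a3
    rw [hly] at b1 b2 b3
    rw [← a3, ← b3, show s = s' by omega]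
  · intro t hE ht x hx hl
    have e1 := (S.comp t).lo_le w (by omega)
    exact strip_dich H S.gt.good hj hw (S.comp t) (S.early t hE) (by omega) hx hl

/-- the number of elements strictly above `z` -/
noncomputable def anc (z : P) : ℕ := ∑ k ∈ range (lev z), nab k z

/-- cross elements have two ancestors on the levels `k ≤ 3` -/
lemma Strips.crs_low (S : Strips P r j lo hi e Ea) {z x x' : P} (h : Crs j Ea z x x') :
    j + 1 ≤ lev z ∧ ∀ k, k ≤ 8 → nab k z = 2 := by
  have H := S.gt.H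
  have hj := S.hj
  have e1 := (H.covBy_iff.mp h.cov).2
  have e2 := (H.covBy_iff.mp h.cov').2
  have hJ : Hul.Jn z := ⟨topOf x, topOf x', (topOf x).2, (topOf x').2,
    fun hh => h.ne (Subtype.ext hh), h.cov.1.le.trans (le_topOf x),
    h.cov'.1.le.trans (le_topOf x')⟩
  have hl : j + 1 ≤ lev z := by
    by_contra hcon
    exact S.gt.no_join z (by omega) hJ
  have hone : ∀ a : P, a ∈ onlyB (topOf a) → lev z = lev a + 1 →
      (Ea (topOf a) → ∀ k, k ≤ j → nab k a = 1) → ∀ k, k ≤ 8 → nab k a = 1 := by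
    intro a ha hla hs k hk
    by_cases hE : Ea (topOf a)
    · exact hs hE k (by omega)
    · exact nab_one_of_eq (S.comp (topOf a)) ha (by omega) (by omega) (S.late _ hE k hk)
  refine ⟨hl, fun k hk => ?_⟩
  -- the two up-sets are disjoint
  have hne : x ≠ x' := by rintro rfl; exact h.ne rfl
  have huni := uc_two_of H h.cov h.cov' hne
  have a1 := hone x h.only (by omega) h.str k hk
  have a2 := hone x' h.only' (by omega) h.str' k hk
  have hle := nab_le_add huni (k := k) (by omega)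
  have hge : nab k x + 1 ≤ nab k z := by
    classical
    obtain ⟨q, q1, q2, q3⟩ := exists_between H.gradedBelow (z := x') (s := (topOf x' : P))
      (le_topOf x') (l := k) (by have := (topOf x').2; omega) (by omega)
    have h1 : insert q ((lv P k).filter (fun y => x ≤ y)) ⊆ (lv P k).filter (fun y => z ≤ y) := by
      intro y hy
      rw [mem_insert, mem_filter, mem_lv] at hy
      rw [mem_filter, mem_lv]
      rcases hy with rfl | hy
      · exact ⟨q3, h.cov'.1.le.trans q1⟩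
      · exact ⟨hy.1, h.cov.1.le.trans hy.2⟩
    have h2 := Finset.card_le_card h1
    rw [Finset.card_insert_of_notMem (by
      rw [mem_filter]
      rintro ⟨-, hxq⟩
      exact h.ne (Subtype.ext ((mem_onlyB.mp h.only) (topOf x') (topOf x').2
        (hxq.trans q2)).symm))] at h2
    exact h2
  omega

/-- **Classification at window `w ≤ 3`.** -/
theorem Strips.class (S : Strips P r j lo hi e Ea) (hw : w ≤ 3) (hJ : ∃ z : P, Hul.Jn z) :
    ∃ v, (∀ z : P, Hul.Jn z → v ≤ ful w z) ∧ (cap j w < v ∨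
      (((∃ z x x', Crs j Ea z x x' ∧ ful w z = v ∧ Odd (anc z)) ∨ OdN j w v) ∧
        ((∃ z x x', Crs j Ea z x x' ∧ ful w z = v ∧ Even (anc z)) ∨ EvN j w v))) := by
  classical
  obtain ⟨N, θ, W, L⟩ := S.window hw
  have HN := W.natSys
  have hj := S.hj
  -- joins are in the far set
  have hjoin : ∀ z : P, Hul.Jn z → z ∈ rA N := by
    rintro z ⟨t1, t2, h1, h2, hne, hz1, hz2⟩
    have key : ∀ y, y ∉ unnat N → (y ≤ t1 → y ≤ t2 → False) := by
      intro y hy g1 g2
      have h3 : y ∈ N (topOf y) := HN.mem_iff.mpr ⟨hy, rfl⟩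
      exact hne ((HN.top_eq h3 h1 g1).trans (HN.top_eq h3 h2 g2).symm)
    have hzu : z ∈ unnat N := by
      by_contra hcon
      exact key z hcon hz1 hz2
    refine mem_rA.mpr ⟨hzu, fun h => ?_⟩
    obtain ⟨-, y, hy, hup⟩ := mem_twA.mp h
    have hl := W.lt_lev hzu
    refine key y hy ((hup t1).mpr ?_).le ((hup t2).mpr ?_).le
    · exact lt_of_le_of_ne hz1 (by rintro rfl; omega)
    · exact lt_of_le_of_ne hz2 (by rintro rfl; omega)
  have hpos : ∀ x ∈ rA N, 0 < lev x := fun x hx => by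
    have := W.lt_lev (mem_rA.mp hx).1
    omega
  have hbd : (bdR (rA N)).Nonempty := by
    obtain ⟨z, hz⟩ := hJ
    obtain ⟨z', hz', -⟩ := exists_bd_above hpos (hjoin z hz)
    exact ⟨z', hz'⟩
  obtain ⟨v, M, hex⟩ := exists_min W hbd
  have hmin : ∀ z, Hul.Jn z → v ≤ ful w z := fun z hz => min_le_ful hpos M.bd (hjoin z hz)
  have hPen : OnePen P j (fun t => 2 ≤ hi t w - lo t w + 1) ∨
      v ≤ (j + 1 - w) ^ 2 + 5 * (j - w) := by
    rcases S.pen with h | ⟨z, hz, h⟩
    · left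
      intro e e' p p' hB
      refine h e e' p p' ?_
      by_contra hcon
      have := S.late _ hcon w (by omega)
      omega
    · exact Or.inr ((hmin z hz).trans (h w hw))
  refine ⟨v, hmin, ?_⟩
  by_cases hcap : cap j w < v
  · exact Or.inl hcap
  right
  have hpar : ∀ {z x x' : P}, Crs j Ea z x x' →
      anc z = 2 * w + nst w (fun z => lev z - w) z := by
    intro z x x' h
    obtain ⟨h1, h2⟩ := S.crs_low h
    unfold anc
    obtain ⟨c, hc⟩ : ∃ c, lev z = w + c := ⟨lev z - w, by omega⟩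
    rw [nst_eq, hc, Finset.sum_range_add, Nat.add_sub_cancel_left,
      Finset.sum_congr rfl (g := fun _ => 2) (fun k hk => h2 k (by
        rw [mem_range] at hk
        omega)), Finset.sum_const, card_range, smul_eq_mul, Nat.mul_comm]
  obtain ⟨ho, he⟩ := W.both L hPen M hex (not_lt.mp hcap)
  constructor
  · rcases ho with ⟨z, x, x', h1, h2, h3⟩ | h
    · exact Or.inl ⟨z, x, x', h1, h2, by
        rw [hpar h1]
        exact (even_two_mul w).add_odd h3⟩
    · exact Or.inr h
  · rcases he with ⟨z, x, x', h1, h2, h3⟩ | h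
    · exact Or.inl ⟨z, x, x', h1, h2, by
        rw [hpar h1]
        exact (even_two_mul w).add h3⟩
    · exact Or.inr h

end Pool.Agent.GaussPoset

end

/-! From `Pool.Agent.W_448s7_h5.SevY` -/

section

/-!
# The cost lines of the cross elements (MP_448cb3_co, S7, `j ≥ 17`)
-/

namespace Pool.Agent.GaussPoset

set_option linter.unusedSectionVars false

open Polynomial Finset

universe u

variable {P : Type u} [Fintype P] [PartialOrder P] [DecidableEq P] {r j w : ℕ}
  {lo hi : Tops P → ℕ → ℕ} {e : Tops P → ℕ → ℕ → P} {Ea : Tops P → Prop}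

/-- number of extra elements above `z` -/
noncomputable def mZ (z : P) : ℤ := ∑ k ∈ range (lev z), ((nab k z : ℤ) - 2)

/-- total depth of the extra elements above `z` -/
noncomputable def cZ (j : ℕ) (z : P) : ℤ :=
  ∑ k ∈ range (lev z), ((nab k z : ℤ) - 2) * ((j : ℤ) - k)

/-- number of extra elements above `x`, levels less than `j` -/
noncomputable def mX (j : ℕ) (x : P) : ℤ := ∑ k ∈ range j, ((nab k x : ℤ) - 1)

/-- total depth of the extra elements above `x`, levels less than `j` -/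
noncomputable def cX (j : ℕ) (x : P) : ℤ := ∑ k ∈ range j, ((nab k x : ℤ) - 1) * ((j : ℤ) - k)

/-- slope -/
noncomputable def kapZ (j : ℕ) (z : P) : ℤ := 2 * ((lev z : ℤ) - (j + 1)) + mZ z

/-- constant -/
noncomputable def gZ (j : ℕ) (z : P) : ℤ :=
  ((lev z : ℤ) - (j + 1)) * ((lev z : ℤ) - (j + 1)) + 2 * ((lev z : ℤ) - (j + 1)) - cZ j z

/-- the full cost as a line -/
theorem ful_line {z : P} (hw : w ≤ j) (hl : w < lev z) (h2 : ∀ k, k < w → nab k z = 2) :
    (ful w z : ℤ) = ((j : ℤ) + 1 - w) ^ 2 + (kapZ j z * ((j : ℤ) - w) + gZ j z) := by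
  have h1 : (ful w z : ℤ) = ∑ k ∈ range (lev z), ((k - w : ℕ) : ℤ) * 2 +
      ∑ k ∈ range (lev z), (((k : ℤ) - w) * ((nab k z : ℤ) - 2)) + ((lev z : ℤ) - w) := by
    rw [ful_eq_above]
    push_cast
    rw [Nat.cast_sub hl.le, ← Finset.sum_add_distrib]
    congr 1
    refine Finset.sum_congr rfl fun k _ => ?_
    rcases Nat.lt_or_ge k w with hk | hk
    · rw [h2 k hk, Nat.sub_eq_zero_of_le hk.le]
      simp
    · rw [Nat.cast_sub hk]
      ring
  have h3 : ∑ k ∈ range (lev z), ((k - w : ℕ) : ℤ) * 2 = ((lev z : ℤ) - w) * ((lev z : ℤ) - w - 1) := by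
    obtain ⟨c, hc⟩ : ∃ c, lev z = w + c := ⟨lev z - w, by omega⟩
    rw [hc, Finset.sum_range_add]
    have e1 : ∑ k ∈ range w, ((k - w : ℕ) : ℤ) * 2 = 0 :=
      Finset.sum_eq_zero fun k hk => by
        rw [mem_range] at hk
        rw [Nat.sub_eq_zero_of_le hk.le]
        simp
    rw [e1, zero_add]
    have e2 : ∑ k ∈ range c, ((w + k - w : ℕ) : ℤ) * 2 = ((∑ k ∈ range c, k : ℕ) : ℤ) * 2 := by
      push_cast
      rw [Finset.sum_mul]
      refine Finset.sum_congr rfl fun k _ => ?_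
      rw [Nat.add_sub_cancel_left]
    rw [e2]
    have e3 := Finset.sum_range_id_mul_two c
    have e4 : ((∑ k ∈ range c, k : ℕ) : ℤ) * 2 = ((c * (c - 1) : ℕ) : ℤ) := by
      rw [← e3]
      push_cast
      ring
    rw [e4]
    rcases Nat.eq_zero_or_pos c with h0 | h0
    · subst h0
      push_cast
      ring
    · push_cast [Nat.cast_sub h0]
      ring
  have h4 : ∑ k ∈ range (lev z), (((k : ℤ) - w) * ((nab k z : ℤ) - 2)) =
      ((j : ℤ) - w) * mZ z - cZ j z := by
    unfold mZ cZ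
    rw [Finset.mul_sum, ← Finset.sum_sub_distrib]
    refine Finset.sum_congr rfl fun k _ => ?_
    ring
  rw [h1, h3, h4]
  unfold kapZ gZ
  ring

section Split

variable {z x x' : P}

/-- numbers of elements above a cross element -/
lemma Crs.sum (H : Gr P r) (h : Crs j Ea z x x') {k : ℕ} (hk : k < lev z) :
    nab k z = nab k x + nab k x' := by
  classical
  have hne : x ≠ x' := by rintro rfl; exact h.ne rfl
  have huni := uc_two_of H h.cov h.cov' hne
  refine le_antisymm (nab_le_add huni hk) ?_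
  unfold nab
  rw [← Finset.card_union_of_disjoint]
  · refine Finset.card_le_card fun y hy => ?_
    rw [mem_union, mem_filter, mem_filter] at hy
    rw [mem_filter]
    rcases hy with hy | hy
    · exact ⟨hy.1, h.cov.1.le.trans hy.2⟩
    · exact ⟨hy.1, h.cov'.1.le.trans hy.2⟩
  · rw [Finset.disjoint_left]
    intro y hy hy'
    rw [mem_filter, mem_lv] at hy hy'
    have e1 := mem_onlyB.mp (onlyB_up h.only hy.2) (topOf y) (topOf y).2 (le_topOf y)
    have e2 := mem_onlyB.mp (onlyB_up h.only' hy'.2) (topOf y) (topOf y).2 (le_topOf y)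
    exact h.ne (Subtype.ext (e1.symm.trans e2))

lemma Crs.lev_eq (H : Gr P r) (h : Crs j Ea z x x') : lev z = lev x + 1 ∧ lev z = lev x' + 1 :=
  ⟨(H.covBy_iff.mp h.cov).2, (H.covBy_iff.mp h.cov').2⟩

/-- the extra elements of a cross element -/
theorem Crs.parts (H : Gr P r) (h : Crs j Ea z x x') (hl : j + 1 ≤ lev z) :
    mX j x + mX j x' ≤ mZ z ∧ cZ j z ≤ cX j x + cX j x' ∧ 0 ≤ mX j x ∧ 0 ≤ mX j x' ∧
      (lev z = j + 1 → mZ z = mX j x + mX j x' ∧ cZ j z = cX j x + cX j x') := by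
  obtain ⟨l1, l2⟩ := h.lev_eq H
  have hx : ∀ k, k < lev z → (1 : ℤ) ≤ nab k x := fun k hk => by
    have := one_le_nab (l := k) (z := x) (by omega)
    exact_mod_cast this
  have hx' : ∀ k, k < lev z → (1 : ℤ) ≤ nab k x' := fun k hk => by
    have := one_le_nab (l := k) (z := x') (by omega)
    exact_mod_cast this
  have hs : ∀ k, k < lev z → (nab k z : ℤ) = nab k x + nab k x' := fun k hk => by
    rw [h.sum H hk]
    push_cast
    ring
  obtain ⟨c, hc⟩ : ∃ c, lev z = j + (c + 1) := ⟨lev z - j - 1, by omega⟩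
  have em : mZ z = mX j x + mX j x' + ∑ k ∈ range (c + 1), ((nab (j + k) z : ℤ) - 2) := by
    unfold mZ mX
    rw [hc, Finset.sum_range_add, ← Finset.sum_add_distrib]
    congr 1
    refine Finset.sum_congr rfl fun k hk => ?_
    rw [mem_range] at hk
    rw [hs k (by omega)]
    ring
  have ec : cZ j z = cX j x + cX j x' +
      ∑ k ∈ range (c + 1), ((nab (j + k) z : ℤ) - 2) * ((j : ℤ) - ((j + k : ℕ) : ℤ)) := by
    unfold cZ cX
    rw [hc, Finset.sum_range_add, ← Finset.sum_add_distrib]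
    congr 1
    refine Finset.sum_congr rfl fun k hk => ?_
    rw [mem_range] at hk
    rw [hs k (by omega)]
    ring
  have hnn : ∀ k, k < c + 1 → 0 ≤ (nab (j + k) z : ℤ) - 2 := fun k hk => by
    have h1 := hx (j + k) (by omega)
    have h2 := hx' (j + k) (by omega)
    rw [hs (j + k) (by omega)]
    linarith
  refine ⟨?_, ?_, ?_, ?_, ?_⟩
  · rw [em]
    have : 0 ≤ ∑ k ∈ range (c + 1), ((nab (j + k) z : ℤ) - 2) :=
      Finset.sum_nonneg fun k hk => hnn k (mem_range.mp hk)
    linarith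
  · rw [ec]
    have : ∑ k ∈ range (c + 1), ((nab (j + k) z : ℤ) - 2) * ((j : ℤ) - ((j + k : ℕ) : ℤ)) ≤ 0 := by
      refine Finset.sum_nonpos fun k hk => ?_
      have h1 := hnn k (mem_range.mp hk)
      refine mul_nonpos_of_nonneg_of_nonpos h1 ?_
      push_cast
      linarith
    linarith
  · exact Finset.sum_nonneg fun k hk => by
      have := hx k (by rw [mem_range] at hk; omega)
      linarith
  · exact Finset.sum_nonneg fun k hk => by
      have := hx' k (by rw [mem_range] at hk; omega)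
      linarith
  · intro hlz
    have hc0 : c = 0 := by omega
    subst hc0
    have e1 : nab (j + 0) z = 2 := by
      rw [h.sum H (by omega), show j + 0 = lev x by omega, nab_self,
        show lev x = lev x' by omega, nab_self]
    rw [em, ec]
    simp only [zero_add, Finset.sum_range_one, e1]
    norm_num

/-- bounds for the constant -/
theorem Crs.bounds (H : Gr P r) (h : Crs j Ea z x x') (hl : j + 1 ≤ lev z) :
    -(((lev z : ℤ) - (j + 1) - 1) * mZ z) ≤ cZ j z ∧ (mZ z = 0 → cZ j z = 0) := by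
  obtain ⟨l1, l2⟩ := h.lev_eq H
  have hnn : ∀ k, k < lev z → 0 ≤ (nab k z : ℤ) - 2 := fun k hk => by
    have h1 := one_le_nab (l := k) (z := x) (by omega)
    have h2 := one_le_nab (l := k) (z := x') (by omega)
    rw [h.sum H hk]
    push_cast
    have h1' : (1 : ℤ) ≤ nab k x := by exact_mod_cast h1
    have h2' : (1 : ℤ) ≤ nab k x' := by exact_mod_cast h2
    linarith
  have hlast : nab (lev z - 1) z = 2 := by
    rw [h.sum H (by omega), show lev z - 1 = lev x by omega, nab_self,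
      show lev x = lev x' by omega, nab_self]
  constructor
  · unfold mZ cZ
    rw [Finset.mul_sum, ← Finset.sum_neg_distrib]
    refine Finset.sum_le_sum fun k hk => ?_
    rw [mem_range] at hk
    rcases Nat.lt_or_ge (k + 1) (lev z) with h1 | h1
    · have h2 := hnn k hk
      have h3 : (k : ℤ) + 2 ≤ lev z := by exact_mod_cast h1
      nlinarith
    · rw [show k = lev z - 1 by omega, hlast]
      norm_num
  · intro h0
    unfold mZ at h0
    have h1 := (Finset.sum_eq_zero_iff_of_nonneg (fun k hk => hnn k (mem_range.mp hk))).mp h0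
    unfold cZ
    exact Finset.sum_eq_zero fun k hk => by rw [h1 k hk, zero_mul]

/-- parity -/
lemma anc_parity : (anc z : ℤ) = 2 * lev z + mZ z := by
  unfold anc mZ
  rw [Finset.sum_sub_distrib]
  push_cast
  rw [Finset.sum_const, card_range, nsmul_eq_mul]
  ring

end Split

end Pool.Agent.GaussPoset

end

/-! From `Pool.Agent.W_448s7_h5.SevZ` -/

section

/-!
# Assembly of S7 for `j ≥ 17` (MP_448cb3_co)
-/

namespace Pool.Agent.GaussPoset

set_option linter.unusedSectionVars false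

open Polynomial Finset

universe u

variable {P : Type u} [Fintype P] [PartialOrder P] [DecidableEq P] {r j w : ℕ}
  {lo hi : Tops P → ℕ → ℕ} {e : Tops P → ℕ → ℕ → P} {Ea : Tops P → Prop}

/-- even noise in integers -/
lemma EvN.noise {v : ℕ} (h : EvN j w v) (hw : w ≤ j) {V : ℤ}
    (hV : (v : ℤ) = ((j : ℤ) + 1 - w) ^ 2 + V) :
    Bal.Noise ((j : ℤ) + 1 - w) V ∨ Bal.EvenNoise ((j : ℤ) - w) V := by
  obtain ⟨_, h⟩ := h
  obtain ⟨Y, hY⟩ : ∃ Y, j = w + Y := ⟨j - w, by omega⟩
  subst hY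
  have e1 : w + Y + 1 - w = Y + 1 := by omega
  have e2 : w + Y - w = Y := by omega
  rw [e1, e2] at h
  have e3 : ((w + Y : ℕ) : ℤ) + 1 - w = Y + 1 := by push_cast; ring
  have e4 : ((w + Y : ℕ) : ℤ) - w = Y := by push_cast; ring
  rw [e3] at hV ⊢
  rw [e4]
  rcases h with ⟨t, ht⟩ | ⟨t, ht⟩ | ⟨s, m, E, hs, hm, he, hv, h1, h2⟩
  · left
    right
    refine ⟨t, by positivity, ?_⟩
    rw [ht] at hV
    push_cast at hV
    linear_combination -hV
  · left
    left
    refine ⟨t + 1, by omega, ?_⟩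
    rcases ht with ht | ht
    · left
      rw [ht] at hV
      push_cast at hV
      linear_combination -hV
    · right
      have ht' : (v : ℤ) + 1 = ((Y : ℤ) + 1 + t) * (Y + 1 + t + 1) := by exact_mod_cast ht
      linear_combination ht' - hV
  · right
    have h1' : ((Y : ℤ) + 2) * m ≤ E := by exact_mod_cast h1
    have h2' : (E : ℤ) ≤ (Y + ((s : ℤ) - 1)) * m := by
      have : (E : ℤ) ≤ ((Y + (s - 1) : ℕ) : ℤ) * m := by exact_mod_cast h2
      rw [Nat.cast_add, Nat.cast_sub (by omega), Nat.cast_one] at this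
      exact this
    refine ⟨s, m, 2 * s + s * s + E - Y * m, by exact_mod_cast hs, by exact_mod_cast hm,
      by exact_mod_cast he, by linarith, by linarith, ?_⟩
    rw [hv] at hV
    push_cast at hV
    linear_combination -hV

/-- odd noise in integers -/
lemma OdN.noise {v : ℕ} (h : OdN j w v) (hw : w ≤ j) {V : ℤ}
    (hV : (v : ℤ) = ((j : ℤ) + 1 - w) ^ 2 + V) :
    Bal.OddNoise ((j : ℤ) - w) V ∨ (j = 18 ∧ ((w = 3 ∧ V = 94) ∨ (w = 2 ∧ V = 113))) := by
  obtain ⟨_, h⟩ := h
  rcases h with ⟨s, m, E, hs, hm, he, hv, h1, h2⟩ | ⟨hj, h⟩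
  · left
    obtain ⟨Y, hY⟩ : ∃ Y, j = w + Y := ⟨j - w, by omega⟩
    subst hY
    have e1 : w + Y + 1 - w = Y + 1 := by omega
    have e2 : w + Y - w = Y := by omega
    rw [e1] at hv
    rw [e2] at h1 h2
    have e3 : ((w + Y : ℕ) : ℤ) + 1 - w = Y + 1 := by push_cast; ring
    have e4 : ((w + Y : ℕ) : ℤ) - w = Y := by push_cast; ring
    rw [e3] at hV
    rw [e4]
    have h1' : ((Y : ℤ) + 2) * m ≤ E := by exact_mod_cast h1
    have h2' : (E : ℤ) ≤ (Y + ((s : ℤ) - 1)) * m := by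
      have : (E : ℤ) ≤ ((Y + (s - 1) : ℕ) : ℤ) * m := by exact_mod_cast h2
      rw [Nat.cast_add, Nat.cast_sub (by omega), Nat.cast_one] at this
      exact this
    refine ⟨s, m, 2 * s + s * s + E - Y * m, by exact_mod_cast hs, by exact_mod_cast hm,
      by exact_mod_cast he, by linarith, by linarith, ?_⟩
    rw [hv] at hV
    push_cast at hV
    linear_combination -hV
  · right
    subst hj
    refine ⟨rfl, ?_⟩
    rcases h with ⟨rfl, rfl⟩ | ⟨rfl, rfl⟩
    · left
      refine ⟨rfl, ?_⟩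
      push_cast at hV
      linarith
    · right
      refine ⟨rfl, ?_⟩
      push_cast at hV
      linarith

/-- pool of extra elements of a late component -/
def pool (d : ℕ) : ℕ := if d ≤ 1 then 3 else if d ≤ 3 then 2 else if d ≤ 7 then 1 else 0

/-- widths of a late component -/
def LateWd (j : ℕ) (lo hi : ℕ → ℕ) : Prop :=
  (∀ d, 1 ≤ d → d ≤ j → hi (j - d) - lo (j - d) ≤ pool d) ∨
    ∃ a, a ≤ j ∧ 2 * (j - a) ≤ j ∧ ∀ k, k < j → hi k - lo k ≤ if k = a then 1 else 0

/-- number of elements above `x` on a level of the strip -/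
lemma nab_le_width {t : Tops P} {lo hi : ℕ → ℕ} {e : ℕ → ℕ → P} (C : Cp.Comp j (t : P) lo hi e) {x : P}
    (hx : x ∈ onlyB t) {k : ℕ} (hk : k ≤ j) : nab k x ≤ hi k - lo k + 1 := by
  classical
  have h0 := C.lo_le k hk
  unfold nab
  have h1 : (lv P k).filter (x ≤ ·) ⊆ (Finset.Icc (lo k) (hi k)).image (e k) := by
    intro y hy
    rw [mem_filter, mem_lv] at hy
    obtain ⟨s, a1, a2, a3⟩ := C.surj y (onlyB_le (onlyB_up hx hy.2)) (by omega)
    rw [hy.1] at a1 a2 a3
    rw [mem_image]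
    exact ⟨s, mem_Icc.mpr ⟨a1, a2⟩, a3⟩
  refine (Finset.card_le_card h1).trans (Finset.card_image_le.trans ?_)
  rw [Nat.card_Icc]
  omega

/-- the part of a late cover -/
theorem late_part {t : Tops P} {lo hi : ℕ → ℕ} {e : ℕ → ℕ → P} (C : Cp.Comp j (t : P) lo hi e)
    (hW : LateWd j lo hi) {x : P} (hx : x ∈ onlyB t) (hl : j ≤ lev x) :
    Bal.Part2 j (mX j x) (cX j x) := by
  have hnn : ∀ k, k < j → (0 : ℤ) ≤ (nab k x : ℤ) - 1 := fun k hk => by
    have := one_le_nab (l := k) (z := x) (by omega)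
    have : (1 : ℤ) ≤ nab k x := by exact_mod_cast this
    linarith
  have hle : ∀ k, k < j → (nab k x : ℤ) - 1 ≤ ((hi k - lo k : ℕ) : ℤ) := fun k hk => by
    have := nab_le_width C hx (k := k) hk.le
    have : (nab k x : ℤ) ≤ ((hi k - lo k : ℕ) : ℤ) + 1 := by exact_mod_cast this
    linarith
  refine ⟨Finset.sum_nonneg fun k hk => hnn k (mem_range.mp hk), ?_⟩
  rcases hW with hW | ⟨a, ha, ha2, hW⟩
  · left
    unfold cX mX
    rw [Finset.mul_sum, ← sub_le_iff_le_add', ← Finset.sum_sub_distrib, ← Finset.sum_range_reflect]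
    have h1 : ∀ d ∈ range j, (((nab (j - 1 - d) x : ℤ) - 1) * ((j : ℤ) - ((j - 1 - d : ℕ) : ℤ)) -
        3 * ((nab (j - 1 - d) x : ℤ) - 1)) ≤
        (if d = 3 then 1 else 0) + (if d = 4 then 2 else 0) + (if d = 5 then 3 else 0) +
          (if d = 6 then 4 else 0) := by
      intro d hd
      rw [mem_range] at hd
      have h2 := hnn (j - 1 - d) (by omega)
      have h3 := hle (j - 1 - d) (by omega)
      have h4 := hW (d + 1) (by omega) (by omega)
      rw [show j - (d + 1) = j - 1 - d by omega] at h4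
      have h5 : (j : ℤ) - ((j - 1 - d : ℕ) : ℤ) = d + 1 := by omega
      rw [h5]
      rcases Nat.lt_or_ge d 7 with h7 | h7
      · have h6 : ((hi (j - 1 - d) - lo (j - 1 - d) : ℕ) : ℤ) ≤ (pool (d + 1) : ℕ) := by
          exact_mod_cast h4
        have h8 := h3.trans h6
        clear h3 h4 h5 h6 hW hle hnn
        generalize (nab (j - 1 - d) x : ℤ) - 1 = W at h2 h8 ⊢
        interval_cases d <;> norm_num [pool] at h8 ⊢ <;> linarith
      · have h6 : pool (d + 1) = 0 := by
          unfold pool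
          rw [if_neg (by omega), if_neg (by omega), if_neg (by omega)]
        rw [h6] at h4
        have h8 : (nab (j - 1 - d) x : ℤ) - 1 = 0 := by
          have : ((hi (j - 1 - d) - lo (j - 1 - d) : ℕ) : ℤ) ≤ 0 := by exact_mod_cast h4
          linarith
        rw [h8, if_neg (by omega), if_neg (by omega), if_neg (by omega), if_neg (by omega)]
        norm_num
    refine (Finset.sum_le_sum h1).trans ?_
    rw [Finset.sum_add_distrib, Finset.sum_add_distrib, Finset.sum_add_distrib]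
    have h2 : ∀ (b : ℕ) (c : ℤ), 0 ≤ c → ∑ d ∈ range j, (if d = b then c else 0) ≤ c := by
      intro b c hc
      rw [Finset.sum_ite_eq']
      split_ifs <;> linarith
    have a1 := h2 3 1 (by norm_num)
    have a2 := h2 4 2 (by norm_num)
    have a3 := h2 5 3 (by norm_num)
    have a4 := h2 6 4 (by norm_num)
    linarith
  · right
    unfold cX
    have h1 : ∑ k ∈ range j, ((nab k x : ℤ) - 1) * ((j : ℤ) - k) ≤
        ∑ k ∈ range j, (if k = a then ((j : ℤ) - a) else 0) := by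
      refine Finset.sum_le_sum fun k hk => ?_
      rw [mem_range] at hk
      have h2 := hnn k hk
      have h3 := hle k hk
      have h4 := hW k hk
      have h5 : (0 : ℤ) ≤ (j : ℤ) - k := by omega
      by_cases hka : k = a
      · subst hka
        rw [if_pos rfl] at h4 ⊢
        have h6 : ((hi k - lo k : ℕ) : ℤ) ≤ 1 := by exact_mod_cast h4
        have h7 : (nab k x : ℤ) - 1 ≤ 1 := by linarith
        calc ((nab k x : ℤ) - 1) * ((j : ℤ) - k) ≤ 1 * ((j : ℤ) - k) :=
              mul_le_mul_of_nonneg_right h7 h5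
          _ = _ := one_mul _
      · rw [if_neg hka] at h4 ⊢
        have h6 : ((hi k - lo k : ℕ) : ℤ) ≤ 0 := by exact_mod_cast h4
        have h7 : (nab k x : ℤ) - 1 = 0 := by linarith
        rw [h7, zero_mul]
    have h2 : ∑ k ∈ range j, (if k = a then ((j : ℤ) - a) else 0) ≤ (j : ℤ) - a := by
      rw [Finset.sum_ite_eq']
      split_ifs
      · exact le_rfl
      · omega
    have h3 : 2 * ((j : ℤ) - a) ≤ j := by omega
    linarith

end Pool.Agent.GaussPoset

end

/-! From `Pool.Agent.W_448s7_h5.SevZb` -/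

section

/-!
# S7 for `j ≥ 17`: no element of level `j + 1` joins two ends (MP_448cb3_co)
-/

namespace Pool.Agent.GaussPoset

set_option linter.unusedSectionVars false

open Polynomial Finset

universe u

variable {P : Type u} [Fintype P] [PartialOrder P] [DecidableEq P] {r j w : ℕ}
  {lo hi : Tops P → ℕ → ℕ} {e : Tops P → ℕ → ℕ → P} {Ea : Tops P → Prop}

/-- the late components: short widths and the list of the single-up ends -/
structure Lates (j : ℕ) (lo hi : Tops P → ℕ → ℕ) (Ea : Tops P → Prop) : Prop where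
  wd : ∀ t, ¬ Ea t → LateWd j (lo t) (hi t)
  en : ∀ t : Tops P, ¬ Ea t → ∀ x : P, x ≤ (t : P) → lev x = j → (Win.uc x).card = 1 →
    Bal.NEnd2 j (mX j x) (cX j x)

lemma mX_zero {x : P} (h : ∀ k, k ≤ j → nab k x = 1) : mX j x = 0 ∧ cX j x = 0 := by
  constructor
  · exact Finset.sum_eq_zero fun k hk => by
      rw [mem_range] at hk
      rw [h k hk.le]
      norm_num
  · exact Finset.sum_eq_zero fun k hk => by
      rw [mem_range] at hk
      rw [h k hk.le]
      norm_num

/-- the covers of a join of level `j + 1` are ends -/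
theorem Strips.ends (S : Strips P r j lo hi e Ea) (L : Lates j lo hi Ea) {z x x' : P}
    (h : Crs j Ea z x x') (hl : lev z = j + 1) :
    Bal.NEnd2 j (mX j x) (cX j x) ∧ Bal.NEnd2 j (mX j x') (cX j x') := by
  have H := S.gt.H
  have hj := S.hj
  obtain ⟨l1, l2⟩ := h.lev_eq H
  have hne : x ≠ x' := by rintro rfl; exact h.ne rfl
  have G : Win.GoodTo P r ((j - 1) + 1) := by
    rw [show j - 1 + 1 = j by omega]
    exact S.gt
  have hcard : (Win.uc x).card = 1 ∧ (Win.uc x').card = 1 := by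
    rcases (Win.near_level' G (by omega)).1 z x x' (by omega) h.cov h.cov' hne with h1 | ⟨h1, h2, _⟩
    · exfalso
      obtain ⟨y, hy, hy'⟩ := Win.exists_of_ucv (v := x) (v' := x') (by rw [h1]; exact one_pos)
      have e1 := mem_onlyB.mp (onlyB_up h.only hy.1.le) (topOf y) (topOf y).2 (le_topOf y)
      have e2 := mem_onlyB.mp (onlyB_up h.only' hy'.1.le) (topOf y) (topOf y).2 (le_topOf y)
      exact h.ne (Subtype.ext (e1.symm.trans e2))
    · exact ⟨h1, h2⟩
  constructor
  · by_cases hE : Ea (topOf x)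
    · obtain ⟨a, b⟩ := mX_zero (h.str hE)
      exact Or.inl ⟨a, b⟩
    · exact L.en _ hE x (le_topOf x) (by omega) hcard.1
  · by_cases hE : Ea (topOf x')
    · obtain ⟨a, b⟩ := mX_zero (h.str' hE)
      exact Or.inl ⟨a, b⟩
    · exact L.en _ hE x' (le_topOf x') (by omega) hcard.2

/-- the parts of the covers -/
lemma Strips.part (S : Strips P r j lo hi e Ea) (L : Lates j lo hi Ea) {x : P}
    (hx : x ∈ onlyB (topOf x)) (hl : j ≤ lev x)
    (h : Ea (topOf x) → ∀ k, k ≤ j → nab k x = 1) : Bal.Part2 j (mX j x) (cX j x) := by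
  by_cases hE : Ea (topOf x)
  · obtain ⟨a, b⟩ := mX_zero (h hE)
    rw [a, b]
    exact ⟨le_rfl, Or.inl (by norm_num)⟩
  · exact late_part (S.comp (topOf x)) (L.wd _ hE) hx hl

/-- the line of a cross element -/
lemma Strips.line (S : Strips P r j lo hi e Ea) {z x x' : P} (h : Crs j Ea z x x') (hw : w ≤ 3) :
    (ful w z : ℤ) = ((j : ℤ) + 1 - w) ^ 2 + (kapZ j z * ((j : ℤ) - w) + gZ j z) := by
  obtain ⟨h1, h2⟩ := S.crs_low h
  have := S.hj
  exact ful_line (by omega) (by omega) fun k hk => h2 k (by omega)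

/-- the line of an optimal cross element is admissible -/
theorem Strips.ln (S : Strips P r j lo hi e Ea) (L : Lates j lo hi Ea) {z x x' : P}
    (h : Crs j Ea z x x') {v0 v1 v2 v3 w : ℤ} (hw : 0 ≤ w) (hw3 : w ≤ 3)
    (hv : kapZ j z * (j - w) + gZ j z ≤ 10 * (j - w) - 40)
    (t0 : v0 ≤ kapZ j z * j + gZ j z) (t1 : v1 ≤ kapZ j z * (j - 1) + gZ j z)
    (t2 : v2 ≤ kapZ j z * (j - 2) + gZ j z) (t3 : v3 ≤ kapZ j z * (j - 3) + gZ j z) :
    Bal.Ln2 j v0 v1 v2 v3 (kapZ j z) (gZ j z) := by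
  have H := S.gt.H
  have hj := S.hj
  obtain ⟨hl, _⟩ := S.crs_low h
  obtain ⟨p1, p2, p3, p4, p5⟩ := h.parts H hl
  obtain ⟨b1, b2⟩ := h.bounds H hl
  obtain ⟨l1, l2⟩ := h.lev_eq H
  have hjz : (17 : ℤ) ≤ j := by exact_mod_cast hj
  rcases Nat.lt_or_ge (j + 1) (lev z) with hlt | hge
  · have hq : (1 : ℤ) ≤ (lev z : ℤ) - (j + 1) := by
      have : ((j + 1 : ℕ) : ℤ) < lev z := by exact_mod_cast hlt
      push_cast at this
      linarith
    exact Bal.ln2_pos hjz hq hw hw3 p1 (S.part L h.only (by omega) h.str)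
      (S.part L h.only' (by omega) h.str') p2 b1 b2 rfl rfl hv t0 t1 t2 t3
  · have hlz : lev z = j + 1 := le_antisymm hge hl
    obtain ⟨e1, e2⟩ := S.ends L h hlz
    obtain ⟨m1, m2⟩ := p5 hlz
    have hz0 : (lev z : ℤ) - (j + 1) = 0 := by rw [hlz]; push_cast; ring
    refine Bal.ln2_zero hjz e1 e2 ?_ ?_ t0 t1 t2 t3
    · unfold kapZ
      rw [hz0, m1]
      ring
    · unfold gZ
      rw [hz0, m2]
      ring

lemma kap_parity {z : P} : (Odd (anc z) → Odd (kapZ j z)) ∧ (Even (anc z) → Even (kapZ j z)) := by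
  have h := anc_parity (z := z)
  have h2 : kapZ j z = (anc z : ℤ) - 2 * (j + 1) := by
    unfold kapZ
    rw [h]
    ring
  rw [h2]
  constructor
  · intro ho
    have : Odd (anc z : ℤ) := by exact_mod_cast ho
    exact this.sub_even (even_two_mul _)
  · intro ho
    have : Even (anc z : ℤ) := by exact_mod_cast ho
    exact this.sub (even_two_mul _)

/-- the classification in terms of the lines -/
theorem Strips.cls (S : Strips P r j lo hi e Ea) (L : Lates j lo hi Ea) {z₀ x₀ x₀' : P}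
    (h₀ : Crs j Ea z₀ x₀ x₀') (hl₀ : lev z₀ = j + 1) (hw : w ≤ 3) :
    ∃ V : ℤ, V ≤ 10 * ((j : ℤ) - w) - 40 ∧
      (∀ z x x', Crs j Ea z x x' → V ≤ kapZ j z * ((j : ℤ) - w) + gZ j z) ∧
      ((∃ z x x', Crs j Ea z x x' ∧ kapZ j z * ((j : ℤ) - w) + gZ j z = V ∧ Odd (kapZ j z)) ∨
        (1 ≤ w ∧ (Bal.OddNoise ((j : ℤ) - w) V ∨
          (j = 18 ∧ ((w = 3 ∧ V = 94) ∨ (w = 2 ∧ V = 113)))))) ∧
      ((∃ z x x', Crs j Ea z x x' ∧ kapZ j z * ((j : ℤ) - w) + gZ j z = V ∧ Even (kapZ j z)) ∨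
        (1 ≤ w ∧ (Bal.Noise ((j : ℤ) + 1 - w) V ∨ Bal.EvenNoise ((j : ℤ) - w) V))) := by
  have H := S.gt.H
  have hj := S.hj
  have hjn : ∀ z x x', Crs j Ea z x x' → Hul.Jn z := fun z x x' h =>
    ⟨topOf x, topOf x', (topOf x).2, (topOf x').2, fun hh => h.ne (Subtype.ext hh),
      h.cov.1.le.trans (le_topOf x), h.cov'.1.le.trans (le_topOf x')⟩
  obtain ⟨v, hv, hc⟩ := S.class hw ⟨z₀, hjn _ _ _ h₀⟩
  obtain ⟨e1, e2⟩ := S.ends L h₀ hl₀
  obtain ⟨p1, p2, p3, p4, p5⟩ := h₀.parts H hl₀.ge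
  obtain ⟨m1, m2⟩ := p5 hl₀
  have hjz : (17 : ℤ) ≤ j := by exact_mod_cast hj
  have hwz : (w : ℤ) ≤ 3 := by exact_mod_cast hw
  have hz0 : (lev z₀ : ℤ) - (j + 1) = 0 := by rw [hl₀]; push_cast; ring
  have hcap := Bal.cap_of2 hjz hwz e1 e2
  have hline₀ := S.line h₀ hw
  have hkg : kapZ j z₀ * ((j : ℤ) - w) + gZ j z₀ =
      (mX j x₀ + mX j x₀') * ((j : ℤ) - w) - (cX j x₀ + cX j x₀') := by
    unfold kapZ gZ
    rw [hz0, m1, m2]
    ring
  have hvz : (v : ℤ) ≤ ful w z₀ := by exact_mod_cast hv z₀ (hjn _ _ _ h₀)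
  have hVcap : (v : ℤ) - ((j : ℤ) + 1 - w) ^ 2 ≤ 10 * ((j : ℤ) - w) - 40 := by linarith
  have hncap : ¬ cap j w < v := by
    intro hlt
    have h1 : ((cap j w : ℕ) : ℤ) < v := by exact_mod_cast hlt
    unfold cap at h1
    have e3 : ((j + 1 - w : ℕ) : ℤ) = (j : ℤ) + 1 - w := by omega
    have e4 : ((10 * (j - w) - 40 : ℕ) : ℤ) = 10 * ((j : ℤ) - w) - 40 := by omega
    rw [Nat.cast_add, Nat.cast_pow, e3, e4] at h1
    linarith
  have hc' := hc.resolve_left hncap
  have hVeq : (v : ℤ) = ((j : ℤ) + 1 - w) ^ 2 + ((v : ℤ) - ((j : ℤ) + 1 - w) ^ 2) := by ring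
  refine ⟨(v : ℤ) - ((j : ℤ) + 1 - w) ^ 2, hVcap, ?_, ?_, ?_⟩
  · intro z x x' h
    have h1 := S.line h hw
    have h2 : (v : ℤ) ≤ ful w z := by exact_mod_cast hv z (hjn _ _ _ h)
    linarith
  · rcases hc'.1 with ⟨z, x, x', h, hf, hp⟩ | hn
    · left
      refine ⟨z, x, x', h, ?_, kap_parity.1 hp⟩
      have h1 := S.line h hw
      rw [hf] at h1
      linarith
    · exact Or.inr ⟨hn.1, hn.noise (by omega) hVeq⟩
  · rcases hc'.2 with ⟨z, x, x', h, hf, hp⟩ | hn
    · left
      refine ⟨z, x, x', h, ?_, kap_parity.2 hp⟩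
      have h1 := S.line h hw
      rw [hf] at h1
      linarith
    · exact Or.inr ⟨hn.1, hn.noise (by omega) hVeq⟩

/-- S7, `j ≥ 17`: no element of level `j + 1` below two tops covers two ends -/
theorem Strips.no_end_join (S : Strips P r j lo hi e Ea) (L : Lates j lo hi Ea) {z x x' : P}
    (h : Crs j Ea z x x') (hl : lev z = j + 1) : False := by
  have hjz : (17 : ℤ) ≤ j := by exact_mod_cast S.hj
  obtain ⟨V0, c0, n0, o0, e0⟩ := S.cls L h hl (w := 0) (by norm_num)
  obtain ⟨V1, c1, n1, o1, e1⟩ := S.cls L h hl (w := 1) (by norm_num)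
  obtain ⟨V2, c2, n2, o2, e2⟩ := S.cls L h hl (w := 2) (by norm_num)
  obtain ⟨V3, c3, n3, o3, e3⟩ := S.cls L h hl (w := 3) (by norm_num)
  simp only [Nat.cast_ofNat, Nat.cast_one, Nat.cast_zero, sub_zero] at c0 c1 c2 c3 n0 n1 n2 n3
  simp only [Nat.cast_ofNat, Nat.cast_one, Nat.cast_zero, sub_zero] at o0 o1 o2 o3 e0 e1 e2 e3
  refine Bal.no_balance2 hjz c0 c1 c2 c3
    (fun κ g => ∃ z x x', Crs j Ea z x x' ∧ κ = kapZ j z ∧ g = gZ j z ∧
      ∃ w : ℤ, 0 ≤ w ∧ w ≤ 3 ∧ κ * ((j : ℤ) - w) + g ≤ 10 * ((j : ℤ) - w) - 40) ?_ ?_ ?_ ?_ ?_ ?_ ?_ ?_ ?_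
  · rintro κ g ⟨z, x, x', hc, rfl, rfl, w, hw0, hw3, hv⟩
    exact S.ln L hc hw0 hw3 hv (n0 z x x' hc) (n1 z x x' hc) (n2 z x x' hc) (n3 z x x' hc)
  · rcases o0 with ⟨z, x, x', hc, hv, hp⟩ | ⟨hn, _⟩
    · exact ⟨_, _, ⟨z, x, x', hc, rfl, rfl, 0, le_rfl, by norm_num, by rw [sub_zero, hv]; exact c0⟩,
        hp, hv⟩
    · omega
  · rcases e0 with ⟨z, x, x', hc, hv, hp⟩ | ⟨hn, _⟩
    · exact ⟨_, _, ⟨z, x, x', hc, rfl, rfl, 0, le_rfl, by norm_num, by rw [sub_zero, hv]; exact c0⟩,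
        hp, hv⟩
    · omega
  · rcases o1 with ⟨z, x, x', hc, hv, hp⟩ | ⟨_, hn | ⟨_, hn⟩⟩
    · exact Or.inl ⟨_, _, ⟨z, x, x', hc, rfl, rfl, 1, by norm_num, by norm_num, by rw [hv]; exact c1⟩,
        hp, hv⟩
    · exact Or.inr hn
    · omega
  · rcases e1 with ⟨z, x, x', hc, hv, hp⟩ | ⟨_, hn⟩
    · exact Or.inl ⟨_, _, ⟨z, x, x', hc, rfl, rfl, 1, by norm_num, by norm_num, by rw [hv]; exact c1⟩,
        hp, hv⟩
    · exact Or.inr hn
  · rcases o2 with ⟨z, x, x', hc, hv, hp⟩ | ⟨_, hn | ⟨hn, hn2⟩⟩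
    · exact Or.inl ⟨_, _, ⟨z, x, x', hc, rfl, rfl, 2, by norm_num, by norm_num, by rw [hv]; exact c2⟩,
        hp, hv⟩
    · exact Or.inr (Or.inl hn)
    · refine Or.inr (Or.inr ⟨by exact_mod_cast hn, ?_⟩)
      rcases hn2 with ⟨h1, _⟩ | ⟨_, h2⟩
      · omega
      · exact h2
  · rcases e2 with ⟨z, x, x', hc, hv, hp⟩ | ⟨_, hn⟩
    · exact Or.inl ⟨_, _, ⟨z, x, x', hc, rfl, rfl, 2, by norm_num, by norm_num, by rw [hv]; exact c2⟩,
        hp, hv⟩
    · exact Or.inr hn
  · rcases o3 with ⟨z, x, x', hc, hv, hp⟩ | ⟨_, hn | ⟨hn, hn2⟩⟩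
    · exact Or.inl ⟨_, _, ⟨z, x, x', hc, rfl, rfl, 3, by norm_num, by norm_num, by rw [hv]; exact c3⟩,
        hp, hv⟩
    · exact Or.inr (Or.inl hn)
    · refine Or.inr (Or.inr ⟨by exact_mod_cast hn, ?_⟩)
      rcases hn2 with ⟨_, h1⟩ | ⟨h2, _⟩
      · exact h1
      · omega
  · rcases e3 with ⟨z, x, x', hc, hv, hp⟩ | ⟨_, hn⟩
    · exact Or.inl ⟨_, _, ⟨z, x, x', hc, rfl, rfl, 3, by norm_num, by norm_num, by rw [hv]; exact c3⟩,
        hp, hv⟩
    · exact Or.inr hn

end Pool.Agent.GaussPoset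

end

/-! From `Pool.Agent.W_448s7_h5.SevEn` -/

section

/-!
# The late components for S7, `j ≥ 17`: widths and single-up ends (MP_448cb3_co)
-/

namespace Pool.Agent.GaussPoset

set_option linter.unusedSectionVars false

open Finset Wd

universe u

variable {P : Type u} [Fintype P] [PartialOrder P] [DecidableEq P] {r j w : ℕ}

/-- number of elements above `e (k + d) s` on level `k` -/
theorem nab_e {t : P} {lo hi : ℕ → ℕ} {e : ℕ → ℕ → P} (H : Gr P r)
    (hg : ∀ l, l < j → Win.Good P l) (C : Cp.Comp j t lo hi e) (ht : lev t = 0) {k d s : ℕ}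
    (hk : k + d ≤ j) (h1 : lo (k + d) ≤ s) (h2 : s ≤ hi (k + d)) :
    nab k (e (k + d) s) = min (hi k) s + 1 - max (lo k) (s - d) := by
  classical
  have hl := C.lev_e (k + d) s hk h1 h2
  have hle := C.le_t (k + d) s hk h1 h2
  unfold nab
  have : (lv P k).filter (e (k + d) s ≤ ·) =
      (Finset.Icc (max (lo k) (s - d)) (min (hi k) s)).image (e k) := by
    ext y
    rw [mem_filter, mem_lv, mem_image]
    constructor
    · rintro ⟨hy, hy2⟩
      obtain ⟨s', a1, a2, a3⟩ := C.surj y (Cp.up_le H hg ht hle (by omega) hy2) (by omega)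
      rw [hy] at a1 a2 a3
      rw [← a3] at hy2
      have := (C.le_iff H hg ht a1 a2 hk h1 h2).mp hy2
      exact ⟨s', by rw [mem_Icc]; omega, a3⟩
    · rintro ⟨s', hs, rfl⟩
      rw [mem_Icc] at hs
      have a1 : lo k ≤ s' := by omega
      have a2 : s' ≤ hi k := by omega
      exact ⟨C.lev_e k s' (by omega) a1 a2, (C.le_iff H hg ht a1 a2 hk h1 h2).mpr (by omega)⟩
  rw [this, Finset.card_image_of_injOn, Nat.card_Icc]
  intro a ha b hb hab
  rw [Finset.mem_coe, mem_Icc] at ha hb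
  exact C.inj k a b (by omega) (by omega) (by omega) (by omega) (by omega) hab

/-- extra elements above `e j s` on the level `a + n` -/
def fW (w : List Ltr) (s n : ℕ) : ℕ :=
  min (Hw w (n + 3)) s - max (Lw w (n + 3)) (s - (w.length - n))

def eM (w : List Ltr) (s : ℕ) : ℕ := ∑ n ∈ range w.length, fW w s n

def eC (w : List Ltr) (s : ℕ) : ℕ := ∑ n ∈ range w.length, fW w s n * (w.length - n)

/-- the list of the ends -/
def okE (a d : ℕ) : Prop :=
  (a = 0 ∧ d = 0) ∨ (a = 1 ∧ 1 ≤ d ∧ d ≤ 7) ∨ (a = 3 ∧ d = 9) ∨ (a = 5 ∧ d = 20) ∨ (a = 5 ∧ d = 25)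

instance (a d : ℕ) : Decidable (okE a d) := by unfold okE; infer_instance

instance (w : List Ltr) (s n : ℕ) : Decidable (s = Lw w n ∨ s = Hw w n + 1) := by infer_instance

lemma chkW : ∀ w ∈ lateW 9, (∀ n, n < w.length → Hw w (n + 3) - Lw w (n + 3) ≤ pool (w.length - n)) ∧
    ∀ s, s < 9 → Lw w (w.length + 3) ≤ s → s ≤ Hw w (w.length + 3) →
      (w.length = 0 ∨ s = Lw w (w.length + 2) ∨ s = Hw w (w.length + 2) + 1) →
        okE (eM w s) (eC w s) := by
  decide +kernel

lemma chkH : ∀ w ∈ lateW 9, Hw w (w.length + 3) < 9 := by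
  decide +kernel

lemma chkA : ∀ a, a < 9 → 3 ≤ a → ∀ w ∈ lateW a, a + w.length ≤ 16 := by
  decide +kernel

lemma lateW_big {a : ℕ} (h : 9 ≤ a) : lateW a = lateW 9 := by
  unfold lateW
  rw [if_neg (by omega : ¬ a = 3), if_neg (by omega : ¬ a = 4), if_pos (by omega : 5 ≤ a),
    if_neg (by omega : ¬ a = 5), if_pos (by omega : 6 ≤ a), if_neg (by omega : ¬ a = 6),
    if_pos (by omega : 7 ≤ a)]
  rfl

section

variable {lo hi : ℕ → ℕ} {a : ℕ}

lemma lo_word (hs : ∀ k, k < j → lo (k + 1) = lo k ∨ lo (k + 1) = lo k + 1) (h0 : lo a = 0) {d : ℕ}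
    (hd : a + d ≤ j) : ∀ n, n ≤ d → Lw (word lo hi a d) (n + 3) = lo (a + n) := by
  intro n hn
  unfold Lw
  rw [show n + 3 - 3 = n by omega, word_take hn]
  induction n with
  | zero => simpa [word] using h0.symm
  | succ m ih =>
    rw [word_succ, List.countP_append, ih (by omega)]
    rcases hs (a + m) (by omega) with e3 | e3
    · simp [e3, ← Nat.add_assoc]
    · simp [e3, ← Nat.add_assoc]

lemma hi_word (hs : ∀ k, k < j → hi (k + 1) = hi k ∨ hi (k + 1) = hi k + 1) (h0 : hi a = 1) {d : ℕ}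
    (hd : a + d ≤ j) : ∀ n, n ≤ d → Hw (word lo hi a d) (n + 3) = hi (a + n) := by
  intro n hn
  unfold Hw
  rw [if_neg (by omega), show n + 3 - 3 = n by omega, word_take hn]
  induction n with
  | zero => simpa [word] using h0.symm
  | succ m ih =>
    rw [word_succ, List.countP_append, ← Nat.add_assoc, ih (by omega)]
    rcases hs (a + m) (by omega) with e3 | e3
    · simp [e3, ← Nat.add_assoc]
    · simp [e3, ← Nat.add_assoc]

lemma Qw_take {d n : ℕ} : (Qw d).take (n + 1) = CC :: List.replicate (min n (d - 1)) OC := by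
  unfold Qw
  rw [List.take_succ_cons, List.take_replicate]

lemma Lw_Qw {d n : ℕ} : Lw (Qw d) (n + 1 + 3) = 1 := by
  unfold Lw
  rw [show n + 1 + 3 - 3 = n + 1 by omega, Qw_take, List.countP_cons, List.countP_replicate]
  simp [OC, CC]

lemma Hw_Qw {d n : ℕ} : Hw (Qw d) (n + 1 + 3) = 1 := by
  unfold Hw
  rw [if_neg (by omega), show n + 1 + 3 - 3 = n + 1 by omega, Qw_take, List.countP_cons,
    List.countP_replicate]
  simp [OC, CC]

end

end Pool.Agent.GaussPoset

end

/-! From `Pool.Agent.W_448s7_h5.SevFn` -/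

section

/-!
# S7 for `j ≥ 17` from the shapes of the components (MP_448cb3_co)
-/

namespace Pool.Agent.GaussPoset

set_option linter.unusedSectionVars false

open Finset Wd

universe u

variable {P : Type u} [Fintype P] [PartialOrder P] [DecidableEq P] {r j w : ℕ}

section

variable {t : Tops P} {lo hi : ℕ → ℕ} {e : ℕ → ℕ → P} {a : ℕ}

lemma nab_one_le {t : Tops P} {lo hi : ℕ → ℕ} {e : ℕ → ℕ → P} (C : Cp.Comp j (t : P) lo hi e)
    {x : P} (hx : x ∈ onlyB t) {k : ℕ} (hk : k ≤ j) (hkx : k ≤ lev x) (h : lo k = hi k) :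
    nab k x = 1 := nab_one_of_eq C hx hk hkx h

/-- the sums over the levels of a late component -/
lemma mX_word (H : Gr P r) (hg : ∀ l, l < j → Win.Good P l) (C : Cp.Comp j (t : P) lo hi e)
    (haj : a ≤ j) (h2 : ∀ k, k < a → lo k = 0 ∧ hi k = 0) (h3 : lo a = 0 ∧ hi a = 1) {s : ℕ}
    (hs1 : lo j ≤ s) (hs2 : s ≤ hi j) (hx : e j s ∈ onlyB t) :
    mX j (e j s) = eM (word lo hi a (j - a)) s ∧ cX j (e j s) = eC (word lo hi a (j - a)) s := by
  have ht : lev (t : P) = 0 := t.2
  have hl := C.lev_e j s le_rfl hs1 hs2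
  obtain ⟨d, rfl⟩ : ∃ d, j = a + d := ⟨j - a, by omega⟩
  rw [Nat.add_sub_cancel_left]
  have hL := lo_word (a := a) (d := d) C.lo_step h3.1 (hi := hi) le_rfl
  have hH := hi_word (a := a) (d := d) C.hi_step h3.2 (lo := lo) le_rfl
  have hone : ∀ k, k < a → (nab k (e (a + d) s) : ℤ) - 1 = 0 := by
    intro k hk
    have h := h2 k hk
    rw [nab_one_le C hx (by omega) (by omega) (by rw [h.1, h.2])]
    norm_num
  have hfw : ∀ n, n < d → (nab (a + n) (e (a + d) s) : ℤ) - 1 = fW (word lo hi a d) s n := by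
    intro n hn
    have h1 : nab (a + n) (e (a + d) s) = min (hi (a + n)) s + 1 - max (lo (a + n)) (s - (d - n)) := by
      have := nab_e H hg C ht (k := a + n) (d := d - n) (s := s) (by omega)
        (by rw [show a + n + (d - n) = a + d by omega]; exact hs1)
        (by rw [show a + n + (d - n) = a + d by omega]; exact hs2)
      rw [show a + n + (d - n) = a + d by omega] at this
      exact this
    have h2 := one_le_nab (l := a + n) (z := e (a + d) s) (by omega)
    unfold fW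
    rw [hL n hn.le, hH n hn.le, word_length]
    omega
  constructor
  · unfold mX eM
    rw [Finset.sum_range_add, Finset.sum_eq_zero fun k hk => hone k (mem_range.mp hk), zero_add,
      word_length, Nat.cast_sum]
    exact Finset.sum_congr rfl fun n hn => hfw n (mem_range.mp hn)
  · unfold cX eC
    rw [Finset.sum_range_add, Finset.sum_eq_zero fun k hk => by
      rw [hone k (mem_range.mp hk), zero_mul], zero_add, word_length, Nat.cast_sum]
    refine Finset.sum_congr rfl fun n hn => ?_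
    rw [hfw n (mem_range.mp hn), Nat.cast_mul]
    rw [mem_range] at hn
    congr 1
    omega

/-- the position of a single-up element -/
lemma single_pos (C : Cp.Comp (j + 1) (t : P) lo hi e) {s : ℕ}
    (hs1 : lo (j + 1) ≤ s) (hs2 : s ≤ hi (j + 1)) (h1 : (Win.uc (e (j + 1) s)).card = 1) :
    s = lo j ∨ s = hi j + 1 := by
  classical
  by_contra hcon
  push Not at hcon
  have e1 := C.lo_step j (by omega)
  have e2 := C.hi_step j (by omega)
  have e3 := C.lo_le j (by omega)
  have a1 : lo j ≤ s := by omega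
  have a2 : s ≤ hi j := by omega
  have c1 := (C.cov j s s (by omega) hs1 hs2 a1 a2).mpr (Or.inl rfl)
  have c2 := (C.cov j s (s - 1) (by omega) hs1 hs2 (by omega) (by omega)).mpr (by omega)
  rw [Finset.card_eq_one] at h1
  obtain ⟨y, hy⟩ := h1
  have d1 : e j s ∈ Win.uc (e (j + 1) s) := Win.mem_uc.mpr c1
  have d2 : e j (s - 1) ∈ Win.uc (e (j + 1) s) := Win.mem_uc.mpr c2
  rw [hy, mem_singleton] at d1 d2
  have := C.inj j s (s - 1) (by omega) a1 a2 (by omega) (by omega) (d1.trans d2.symm)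
  omega

/-- an element of level `j` of a component is private -/
lemma only_of_le (H : Gr P r) (hg : ∀ l, l < j → Win.Good P l) {x : P} (hx : x ≤ (t : P))
    (hl : lev x ≤ j) : x ∈ onlyB t := by
  rw [mem_onlyB]
  intro s hs hxs
  exact Hul.top_unique (Cp.no_join H hg x hl) hs t.2 hxs hx

end

/-- a light or late component, `j ≥ 17` -/
theorem late_of_shape {t : Tops P} {lo hi : ℕ → ℕ} {e : ℕ → ℕ → P} (H : Gr P r)
    (hg : ∀ l, l < j → Win.Good P l) (hj : 17 ≤ j) (C : Cp.Comp j (t : P) lo hi e)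
    (S : Shape j lo hi) (hE : ¬ (RectShape j lo hi ∨ StairShape j lo hi)) :
    (∀ k, k ≤ 8 → lo k = hi k) ∧ LateWd j lo hi ∧
      ∀ x : P, x ≤ (t : P) → lev x = j → (Win.uc x).card = 1 → Bal.NEnd2 j (mX j x) (cX j x) := by
  rcases S with h | ⟨h1, h2⟩ | ⟨h0, h2⟩ | ⟨h0, _, _⟩ | ⟨h0, _⟩ | ⟨a, h0, h1, h2, h3, hN, h4⟩
  · refine ⟨fun k hk => by rw [(h k (by omega)).1, (h k (by omega)).2], Or.inl fun d hd1 hd2 => ?_,
      fun x hx hl h1 => Or.inl ?_⟩
    · have := h (j - d) (by omega)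
      rw [this.1, this.2]
      exact Nat.zero_le _
    · have hxo := only_of_le H hg hx hl.le
      exact mX_zero fun k hk => nab_one_le C hxo hk (by omega) (by rw [(h k hk).1, (h k hk).2])
  · exact absurd (Or.inl h2) hE
  · exact absurd (Or.inr h2) hE
  · omega
  · omega
  · obtain ⟨d, rfl⟩ : ∃ d, j = a + d := ⟨j - a, by omega⟩
    rw [Nat.add_sub_cancel_left] at h4
    have hL := lo_word (a := a) (d := d) C.lo_step h3.1 (hi := hi) le_rfl
    have hH := hi_word (a := a) (d := d) C.hi_step h3.2 (lo := lo) le_rfl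
    have ha9 : 9 ≤ a := by
      rcases h4 with h4 | h4
      · omega
      · by_contra hcon
        have := chkA a (by omega) h0 _ h4
        rw [word_length] at this
        omega
    refine ⟨fun k hk => by rw [(h2 k (by omega)).1, (h2 k (by omega)).2], ?_, ?_⟩
    · rcases h4 with ⟨⟨g1, g2⟩, g3⟩ | h4
      · right
        refine ⟨a, by omega, by omega, fun k hk => ?_⟩
        rcases Nat.lt_trichotomy k a with hka | hka | hka
        · rw [(h2 k hka).1, (h2 k hka).2]
          exact Nat.zero_le _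
        · subst hka
          rw [h3.1, h3.2, if_pos rfl]
        · rw [if_neg (by omega)]
          obtain ⟨n, rfl⟩ : ∃ n, k = a + (n + 1) := ⟨k - a - 1, by omega⟩
          rw [← hL (n + 1) (by omega), ← hH (n + 1) (by omega), g3, Lw_Qw, Hw_Qw]
      · left
        rw [lateW_big ha9] at h4
        intro m hm1 hm2
        rcases Nat.lt_or_ge (a + d - m) a with hlt | hge
        · rw [(h2 _ hlt).1, (h2 _ hlt).2]
          exact Nat.zero_le _
        · obtain ⟨n, hn⟩ : ∃ n, a + d - m = a + n := ⟨a + d - m - a, by omega⟩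
          have h5 := (chkW _ h4).1 n (by rw [word_length]; omega)
          rw [hn, ← hL n (by omega), ← hH n (by omega)]
          rw [word_length, show d - n = m by omega] at h5
          exact h5
    · intro x hx hl hc
      have hxo := only_of_le H hg hx hl.le
      obtain ⟨s, s1, s2, s3⟩ := C.surj x hx hl.le
      rw [hl] at s1 s2 s3
      subst s3
      obtain ⟨m1, m2⟩ := mX_word H hg C h1 h2 h3 s1 s2 hxo
      rw [Nat.add_sub_cancel_left] at m1 m2
      rcases h4 with ⟨⟨g1, g2⟩, g3⟩ | h4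
      · -- a quadric
        right; left
        have hLd : lo (a + d) = 1 := by
          rw [← hL d le_rfl, g3, show d = d - 1 + 1 by omega, Lw_Qw]
        have hHd : hi (a + d) = 1 := by
          rw [← hH d le_rfl, g3, show d = d - 1 + 1 by omega, Hw_Qw]
        have hs : s = 1 := by omega
        subst hs
        have hf0 : fW (word lo hi a d) 1 0 = 1 := by
          unfold fW
          rw [hL 0 (by omega), hH 0 (by omega), word_length, Nat.add_zero, h3.1, h3.2]
          omega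
        have hfn : ∀ n, n ≠ 0 → n < d → fW (word lo hi a d) 1 n = 0 := by
          intro n hn0 hn
          unfold fW
          obtain ⟨n', rfl⟩ : ∃ n', n = n' + 1 := ⟨n - 1, by omega⟩
          rw [g3, Hw_Qw, Lw_Qw]
          omega
        have em : eM (word lo hi a d) 1 = 1 := by
          unfold eM
          rw [word_length, Finset.sum_eq_single_of_mem 0 (mem_range.mpr (by omega))
            (fun n hn hn0 => hfn n hn0 (mem_range.mp hn)), hf0]
        have ec : eC (word lo hi a d) 1 = d := by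
          unfold eC
          rw [word_length, Finset.sum_eq_single_of_mem 0 (mem_range.mpr (by omega))
            (fun n hn hn0 => by rw [hfn n hn0 (mem_range.mp hn), zero_mul]), hf0]
          omega
        rw [m1, m2, em, ec]
        refine ⟨by norm_num, by exact_mod_cast g1, Or.inr ?_⟩
        push_cast
        have : (d : ℤ) ≤ a := by exact_mod_cast g2
        linarith
      · rw [lateW_big ha9] at h4
        have h9 := chkH _ h4
        have hcase : (word lo hi a d).length = 0 ∨ s = Lw (word lo hi a d) ((word lo hi a d).length + 2) ∨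
            s = Hw (word lo hi a d) ((word lo hi a d).length + 2) + 1 := by
          rw [word_length]
          rcases Nat.eq_zero_or_pos d with hd0 | hd0
          · exact Or.inl hd0
          · right
            obtain ⟨d', rfl⟩ : ∃ d', d = d' + 1 := ⟨d - 1, by omega⟩
            rw [show d' + 1 + 2 = d' + 3 by omega, hL d' (by omega), hH d' (by omega)]
            exact single_pos (j := a + d') C s1 s2 hc
        rw [word_length] at h9
        rw [hH d le_rfl] at h9
        have h5 := (chkW _ h4).2 s (by omega) (by rw [word_length, hL d le_rfl]; exact s1)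
          (by rw [word_length, hH d le_rfl]; exact s2) hcase
        rw [m1, m2]
        rcases h5 with ⟨b1, b2⟩ | ⟨b1, b2, b3⟩ | ⟨b1, b2⟩ | ⟨b1, b2⟩ | ⟨b1, b2⟩
        · rw [b1, b2]; exact Or.inl ⟨rfl, rfl⟩
        · rw [b1]
          exact Or.inr (Or.inl ⟨rfl, by exact_mod_cast b2, Or.inl (by exact_mod_cast b3)⟩)
        · rw [b1, b2]; exact Or.inr (Or.inr (Or.inl ⟨rfl, rfl⟩))
        · rw [b1, b2]; exact Or.inr (Or.inr (Or.inr (Or.inl ⟨rfl, rfl⟩)))
        · rw [b1, b2]; exact Or.inr (Or.inr (Or.inr (Or.inr ⟨rfl, rfl⟩)))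

end Pool.Agent.GaussPoset

end

/-! From `Pool.Agent.W_448s7s_h5.SmA` -/

section

/-!
# S7 for `j ≤ 16`: window 0, all joins of least cost (MP_448cb3_co)
-/

namespace Pool.Agent.GaussPoset.Sm

set_option linter.unusedSectionVars false

open Polynomial Finset

universe u

variable {P : Type u} [Fintype P] [PartialOrder P] [DecidableEq P] {r j w : ℕ}

/-- an element below two tops with two private covers -/
abbrev Cg (z x x' : P) : Prop := Crs 0 (fun _ => False) z x x'

lemma Cg.mk' {z x x' : P} (h1 : z ⋖ x) (h2 : z ⋖ x') (h3 : x ∈ onlyB (topOf x))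
    (h4 : x' ∈ onlyB (topOf x')) (h5 : topOf x ≠ topOf x') : Cg z x x' :=
  ⟨h1, h2, h3, h4, h5, fun h => h.elim, fun h => h.elim⟩

lemma Cg.symm {z x x' : P} (h : Cg z x x') : Cg z x' x :=
  Cg.mk' h.cov' h.cov h.only' h.only h.ne.symm

lemma Cg.jn {z x x' : P} (h : Cg z x x') : Hul.Jn z :=
  ⟨topOf x, topOf x', (topOf x).2, (topOf x').2, fun hh => h.ne (Subtype.ext hh),
    h.cov.1.le.trans (le_topOf x), h.cov'.1.le.trans (le_topOf x')⟩

lemma ful_zero (z : P) : Hul.En 0 z = ful 0 z := by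
  rw [Hul.En_levels, ful_eq_above]
  rfl

lemma ua_anc (z : P) : Hul.ua z = anc z + 1 := Hul.ua_levels z

/-- a join above which there is no join -/
theorem cg_of_max {z : P} (hz : Hul.Jn z) (hmax : ∀ u, z < u → ¬ Hul.Jn u) :
    ∃ x x', Cg z x x' := by
  obtain ⟨t1, t2, h1, h2, hne, hz1, hz2⟩ := hz
  have hlt : ∀ t t' : P, lev t = 0 → lev t' = 0 → t ≠ t' → z ≤ t → z ≤ t' → z < t := by
    intro t t' h h' hn hz hz'
    refine lt_of_le_of_ne hz ?_
    rintro rfl
    have h3 : z < t' := lt_of_le_of_ne hz' hn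
    have := lev_strictAnti h3
    omega
  obtain ⟨x, hx, hxt⟩ := Hul.exists_cov (hlt t1 t2 h1 h2 hne hz1 hz2)
  obtain ⟨x', hx', hxt'⟩ := Hul.exists_cov (hlt t2 t1 h2 h1 hne.symm hz2 hz1)
  have hon : ∀ y : P, z < y → y ∈ onlyB (topOf y) := fun y hy =>
    mem_onlyB.mpr fun s hs hys => Hul.top_unique (hmax y hy) hs (topOf y).2 hys (le_topOf y)
  have e1 : (topOf x : P) = t1 := Hul.top_unique (hmax x hx.1) (topOf x).2 h1 (le_topOf x) hxt
  have e2 : (topOf x' : P) = t2 := Hul.top_unique (hmax x' hx'.1) (topOf x').2 h2 (le_topOf x') hxt'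
  refine ⟨x, x', Cg.mk' hx hx' (hon x hx.1) (hon x' hx'.1) ?_⟩
  intro h
  apply hne
  rw [← e1, ← e2, h]

/-- **Classification at window `0`.** -/
theorem class_zero (H : Gr P r) (hJ : ∃ z : P, Hul.Jn z) :
    ∃ v, (∀ z : P, Hul.Jn z → v ≤ ful 0 z) ∧
      (∃ z x x' : P, Cg z x x' ∧ ful 0 z = v ∧ Odd (anc z)) ∧
      ∃ z x x' : P, Cg z x x' ∧ ful 0 z = v ∧ Even (anc z) := by
  classical
  obtain ⟨w0, hw0⟩ := hJ
  obtain ⟨w, hw, hmin⟩ := Finset.exists_min_image (univ.filter fun u : P => Hul.Jn u)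
    (fun u => Hul.En 0 u) ⟨w0, by simp [hw0]⟩
  rw [mem_filter] at hw
  have hE : ∀ u : P, Hul.Jn u → Hul.En 0 w ≤ Hul.En 0 u := fun u hu => hmin u (by simp [hu])
  have hpos : ∀ u : P, Hul.Jn u → 0 < lev u := by
    rintro u ⟨t1, t2, h1, h2, hne, hz1, hz2⟩
    by_contra h0
    have e1 : u = t1 := by
      by_contra hcon
      have := lev_strictAnti (lt_of_le_of_ne hz1 hcon)
      omega
    have e2 : u = t2 := by
      by_contra hcon
      have := lev_strictAnti (lt_of_le_of_ne hz2 hcon)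
      omega
    exact hne (e1.symm.trans e2)
  have hmx : ∀ u : P, Hul.Jn u → Hul.En 0 u = Hul.En 0 w → ∀ t, u < t → ¬ Hul.Jn t := by
    intro u hu huE t ht hJ
    have h1 := hE t hJ
    have h2 := Hul.En_lt (i := 0) (hpos u hu) ht
    omega
  have hsum := Hul.hull_zero H hE
  have hne : (univ.filter (fun u : P => Hul.Jn u ∧ Hul.En 0 u = Hul.En 0 w)).Nonempty :=
    ⟨w, by simp [hw.2]⟩
  obtain ⟨⟨z1, hz1, he⟩, z2, hz2, ho⟩ := both_signs _ _ hsum hne
  rw [mem_filter] at hz1 hz2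
  refine ⟨ful 0 w, fun z hz => ?_, ?_, ?_⟩
  · rw [← ful_zero, ← ful_zero]
    exact hE z hz
  · obtain ⟨x, x', h⟩ := cg_of_max hz1.2.1 (hmx z1 hz1.2.1 hz1.2.2)
    refine ⟨z1, x, x', h, by rw [← ful_zero, ← ful_zero]; exact hz1.2.2, ?_⟩
    rw [ua_anc] at he
    rcases Nat.even_or_odd (anc z1) with h' | h'
    · exact absurd he (Nat.not_even_iff_odd.mpr h'.add_one)
    · exact h'
  · obtain ⟨x, x', h⟩ := cg_of_max hz2.2.1 (hmx z2 hz2.2.1 hz2.2.2)
    refine ⟨z2, x, x', h, by rw [← ful_zero, ← ful_zero]; exact hz2.2.2, ?_⟩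
    rw [ua_anc] at ho
    rcases Nat.even_or_odd (anc z2) with h' | h'
    · exact h'
    · exact absurd ho (Nat.not_odd_iff_even.mpr h'.add_one)

/-- extra elements on the levels `> j` -/
noncomputable def nJ (j : ℕ) (z : P) : ℤ :=
  ∑ k ∈ range (lev z - (j + 1)), ((nab (j + 1 + k) z : ℤ) - 2)

/-- their total depth -/
noncomputable def dJ (j : ℕ) (z : P) : ℤ :=
  ∑ k ∈ range (lev z - (j + 1)), ((nab (j + 1 + k) z : ℤ) - 2) * ((k : ℤ) + 1)

/-- **The line of a cross element.** -/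
theorem Cg.line (H : Gr P r) {z x x' : P} (h : Cg z x x') (hl : j + 1 ≤ lev z) :
    kapZ j z = 2 * ((lev z : ℤ) - (j + 1)) + (mX j x + mX j x') +
        (((nab j x : ℤ) - 1) + ((nab j x' : ℤ) - 1)) + nJ j z ∧
      gZ j z = ((lev z : ℤ) - (j + 1)) * ((lev z : ℤ) - (j + 1)) + 2 * ((lev z : ℤ) - (j + 1)) -
        (cX j x + cX j x') + dJ j z ∧
      0 ≤ nJ j z ∧ nJ j z ≤ dJ j z ∧ dJ j z ≤ ((lev z : ℤ) - (j + 1) - 1) * nJ j z ∧
      (lev z ≤ j + 2 → nJ j z = 0 ∧ dJ j z = 0) := by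
  obtain ⟨l1, l2⟩ := h.lev_eq H
  have hs : ∀ k, k < lev z → (nab k z : ℤ) = nab k x + nab k x' := fun k hk => by
    rw [h.sum H hk]
    push_cast
    ring
  have hnn : ∀ k, k < lev z → 0 ≤ (nab k z : ℤ) - 2 := fun k hk => by
    have h1 := one_le_nab (l := k) (z := x) (by omega)
    have h2 := one_le_nab (l := k) (z := x') (by omega)
    rw [hs k hk]
    have h1' : (1 : ℤ) ≤ nab k x := by exact_mod_cast h1
    have h2' : (1 : ℤ) ≤ nab k x' := by exact_mod_cast h2
    linarith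
  obtain ⟨c, hc⟩ : ∃ c, lev z = j + 1 + c := ⟨lev z - (j + 1), by omega⟩
  have hc' : lev z - (j + 1) = c := by omega
  have em : mZ z = mX j x + mX j x' + (((nab j x : ℤ) - 1) + ((nab j x' : ℤ) - 1)) + nJ j z := by
    unfold mZ mX nJ
    rw [hc', hc, Finset.sum_range_add, Finset.sum_range_succ, ← Finset.sum_add_distrib]
    rw [hs j (by omega)]
    have : ∑ k ∈ range j, ((nab k z : ℤ) - 2) =
        ∑ k ∈ range j, ((nab k x : ℤ) - 1 + ((nab k x' : ℤ) - 1)) := by
      refine Finset.sum_congr rfl fun k hk => ?_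
      rw [mem_range] at hk
      rw [hs k (by omega)]
      ring
    rw [this]
    ring
  have ec : cZ j z = cX j x + cX j x' - dJ j z := by
    unfold cZ cX dJ
    rw [hc', hc, Finset.sum_range_add, Finset.sum_range_succ, ← Finset.sum_add_distrib]
    have e1 : ∑ k ∈ range j, ((nab k z : ℤ) - 2) * ((j : ℤ) - k) =
        ∑ k ∈ range j, (((nab k x : ℤ) - 1) * ((j : ℤ) - k) + ((nab k x' : ℤ) - 1) * ((j : ℤ) - k)) := by
      refine Finset.sum_congr rfl fun k hk => ?_
      rw [mem_range] at hk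
      rw [hs k (by omega)]
      ring
    have e2 : ∑ k ∈ range c, ((nab (j + 1 + k) z : ℤ) - 2) * ((j : ℤ) - ((j + 1 + k : ℕ) : ℤ)) =
        -∑ k ∈ range c, ((nab (j + 1 + k) z : ℤ) - 2) * ((k : ℤ) + 1) := by
      rw [← Finset.sum_neg_distrib]
      refine Finset.sum_congr rfl fun k _ => ?_
      push_cast
      ring
    rw [e1, e2]
    ring
  have hlast : ∀ k, k < c → c ≤ k + 1 → (nab (j + 1 + k) z : ℤ) - 2 = 0 := by
    intro k hk hk2
    rw [hs _ (by omega), show j + 1 + k = lev x by omega, nab_self,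
      show lev x = lev x' by omega, nab_self]
    norm_num
  refine ⟨?_, ?_, ?_, ?_, ?_, ?_⟩
  · unfold kapZ
    rw [em]
    ring
  · unfold gZ
    rw [ec]
    ring
  · unfold nJ
    exact Finset.sum_nonneg fun k hk => hnn _ (by rw [mem_range] at hk; omega)
  · unfold nJ dJ
    refine Finset.sum_le_sum fun k hk => ?_
    rw [mem_range] at hk
    have h1 := hnn (j + 1 + k) (by omega)
    have h2 : (0 : ℤ) ≤ k := Int.natCast_nonneg k
    nlinarith
  · unfold nJ dJ
    rw [hc', Finset.mul_sum]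
    refine Finset.sum_le_sum fun k hk => ?_
    rw [mem_range] at hk
    rcases Nat.lt_or_ge (k + 1) c with h1 | h1
    · have h2 := hnn (j + 1 + k) (by omega)
      rw [mul_comm]
      refine mul_le_mul_of_nonneg_right ?_ h2
      rw [hc]
      push_cast
      have : (k : ℤ) + 2 ≤ c := by exact_mod_cast h1
      linarith
    · rw [hlast k hk h1]
      norm_num
  · intro hl2
    have hz : ∀ k, k < c → (nab (j + 1 + k) z : ℤ) - 2 = 0 := fun k hk => hlast k hk (by omega)
    constructor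
    · unfold nJ
      rw [hc']
      exact Finset.sum_eq_zero fun k hk => hz k (mem_range.mp hk)
    · unfold dJ
      rw [hc']
      exact Finset.sum_eq_zero fun k hk => by rw [hz k (mem_range.mp hk), zero_mul]

end Pool.Agent.GaussPoset.Sm

end

/-! From `Pool.Agent.W_448s7s_h5.SmB` -/

section

/-!
# S7 for `j ≤ 16`: the extra elements above an element of a late component (MP_448cb3_co)
-/

namespace Pool.Agent.GaussPoset.Sm

set_option linter.unusedSectionVars false

open Finset Wd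

universe u

variable {P : Type u} [Fintype P] [PartialOrder P] [DecidableEq P] {r j w : ℕ}

/-- extra elements on the level `a + n` above a set `A` of positions on the last level -/
def xA (w : List Ltr) (A : Finset ℕ) (n : ℕ) : ℕ :=
  ((Icc (Lw w (n + 3)) (Hw w (n + 3))).filter
    (fun s' => ∃ s ∈ A, s' ≤ s ∧ s ≤ s' + (w.length - n))).card - 1

def mA (w : List Ltr) (A : Finset ℕ) : ℕ := ∑ n ∈ range w.length, xA w A n

def dA (w : List Ltr) (A : Finset ℕ) : ℕ := ∑ n ∈ range w.length, xA w A n * (w.length - n)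

/-- the end positions of the last level -/
def EndP (w : List Ltr) (s : ℕ) : Prop := s = Lw w (w.length + 2) ∨ s = Hw w (w.length + 2) + 1

instance (w : List Ltr) (s : ℕ) : Decidable (EndP w s) := by unfold EndP; infer_instance

/-- the possible positions of the ancestors of an element of level `j + q` -/
def condA (q : ℕ) (w : List Ltr) (A : Finset ℕ) : Prop :=
  (q = 0 → A.card = 1 ∧ ∀ s ∈ A, EndP w s) ∧
    (q = 1 → A.card ≤ 2 ∧ ((∀ s ∈ A, ∀ s' ∈ A, s ≤ s' + 1) ∨ ∀ s ∈ A, EndP w s))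

instance (q : ℕ) (w : List Ltr) (A : Finset ℕ) : Decidable (condA q w A) := by
  unfold condA; infer_instance

open Classical in
/-- the positions of the ancestors of level `j` -/
noncomputable def posA (j : ℕ) (lo hi : ℕ → ℕ) (e : ℕ → ℕ → P) (x : P) : Finset ℕ :=
  (Icc (lo j) (hi j)).filter (fun s => x ≤ e j s)

section

variable {t : Tops P} {lo hi : ℕ → ℕ} {e : ℕ → ℕ → P}

lemma mem_posA {x : P} {s : ℕ} : s ∈ posA j lo hi e x ↔ (lo j ≤ s ∧ s ≤ hi j) ∧ x ≤ e j s := by
  classical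
  unfold posA
  rw [mem_filter, mem_Icc]

/-- numbers of elements above `x` from the positions of level `j` -/
theorem nab_pos (H : Gr P r) (hg : ∀ l, l < j → Win.Good P l) (C : Cp.Comp j (t : P) lo hi e)
    {x : P} (hx : x ∈ onlyB t) (hl : j ≤ lev x) {k : ℕ} (hk : k ≤ j) :
    nab k x = ((Icc (lo k) (hi k)).filter
      (fun s' => ∃ s ∈ posA j lo hi e x, s' ≤ s ∧ s ≤ s' + (j - k))).card := by
  classical
  have ht : lev (t : P) = 0 := t.2
  have key : ∀ s s', lo j ≤ s → s ≤ hi j → lo k ≤ s' → s' ≤ hi k →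
      (e j s ≤ e k s' ↔ s' ≤ s ∧ s ≤ s' + (j - k)) := by
    intro s s' h1 h2 h3 h4
    have := C.le_iff H hg ht h3 h4 (d := j - k) (s := s) (by omega)
      (by rw [show k + (j - k) = j by omega]; exact h1)
      (by rw [show k + (j - k) = j by omega]; exact h2)
    rw [show k + (j - k) = j by omega] at this
    exact this
  unfold nab
  have : (lv P k).filter (x ≤ ·) = ((Icc (lo k) (hi k)).filter
      (fun s' => ∃ s ∈ posA j lo hi e x, s' ≤ s ∧ s ≤ s' + (j - k))).image (e k) := by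
    ext y
    rw [mem_filter, mem_lv, mem_image]
    constructor
    · rintro ⟨hy, hxy⟩
      obtain ⟨s', a1, a2, a3⟩ := C.surj y (onlyB_le (onlyB_up hx hxy)) (by omega)
      rw [hy] at a1 a2 a3
      obtain ⟨q, h1, h2, h3⟩ := exists_between H.gradedBelow (z := x) (s := y) hxy (l := j)
        (by omega) hl
      obtain ⟨s, b1, b2, b3⟩ := C.surj q (onlyB_le (onlyB_up hx h1)) (by omega)
      rw [h3] at b1 b2 b3
      refine ⟨s', ?_, a3⟩
      rw [mem_filter, mem_Icc]
      refine ⟨⟨a1, a2⟩, s, mem_posA.mpr ⟨⟨b1, b2⟩, by rw [b3]; exact h1⟩, ?_⟩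
      exact (key s s' b1 b2 a1 a2).mp (by rw [b3, a3]; exact h2)
    · rintro ⟨s', hs, rfl⟩
      rw [mem_filter, mem_Icc] at hs
      obtain ⟨⟨a1, a2⟩, s, h1, h2⟩ := hs
      obtain ⟨⟨b1, b2⟩, h3⟩ := mem_posA.mp h1
      exact ⟨C.lev_e k s' (by omega) a1 a2, h3.trans ((key s s' b1 b2 a1 a2).mpr h2)⟩
  rw [this, Finset.card_image_of_injOn]
  intro a ha b hb hab
  rw [Finset.mem_coe, mem_filter, mem_Icc] at ha hb
  exact C.inj k a b (by omega) ha.1.1 ha.1.2 hb.1.1 hb.1.2 hab

/-- the number of ancestors of level `j` -/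
lemma card_posA (C : Cp.Comp j (t : P) lo hi e)
    {x : P} (hx : x ∈ onlyB t) : nab j x = (posA j lo hi e x).card := by
  classical
  unfold nab
  have : (lv P j).filter (x ≤ ·) = (posA j lo hi e x).image (e j) := by
    ext y
    rw [mem_filter, mem_lv, mem_image]
    constructor
    · rintro ⟨hy, hxy⟩
      obtain ⟨s', a1, a2, a3⟩ := C.surj y (onlyB_le (onlyB_up hx hxy)) (by omega)
      rw [hy] at a1 a2 a3
      exact ⟨s', mem_posA.mpr ⟨⟨a1, a2⟩, by rw [a3]; exact hxy⟩, a3⟩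
    · rintro ⟨s', hs, rfl⟩
      obtain ⟨⟨b1, b2⟩, h3⟩ := mem_posA.mp hs
      exact ⟨C.lev_e j s' le_rfl b1 b2, h3⟩
  rw [this, Finset.card_image_of_injOn]
  intro a ha b hb hab
  rw [Finset.mem_coe, mem_posA] at ha hb
  exact C.inj j a b le_rfl ha.1.1 ha.1.2 hb.1.1 hb.1.2 hab

/-- end positions -/
lemma end_pos (C : Cp.Comp j (t : P) lo hi e) (hj : 1 ≤ j) {s : ℕ}
    (hs1 : lo j ≤ s) (hs2 : s ≤ hi j) (h1 : (Win.uc (e j s)).card = 1) :
    s = lo (j - 1) ∨ s = hi (j - 1) + 1 := by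
  obtain ⟨i, rfl⟩ : ∃ i, j = i + 1 := ⟨j - 1, by omega⟩
  exact single_pos C hs1 hs2 h1

/-- the positions for an element of level `j` or `j + 1` -/
theorem pos_cond (G : Win.GoodTo P r j) (hj : 2 ≤ j) (C : Cp.Comp j (t : P) lo hi e) {x : P}
    (hx : x ∈ onlyB t) (hl : j ≤ lev x) (hend : lev x = j → (Win.uc x).card = 1) :
    (lev x = j → (posA j lo hi e x).card = 1 ∧
      ∀ s ∈ posA j lo hi e x, s = lo (j - 1) ∨ s = hi (j - 1) + 1) ∧
    (lev x = j + 1 → (posA j lo hi e x).card ≤ 2 ∧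
      ((∀ s ∈ posA j lo hi e x, ∀ s' ∈ posA j lo hi e x, s ≤ s' + 1) ∨
        ∀ s ∈ posA j lo hi e x, s = lo (j - 1) ∨ s = hi (j - 1) + 1)) := by
  classical
  have H := G.H
  have hle : ∀ s ∈ posA j lo hi e x, lev (e j s) = j := fun s hs => by
    obtain ⟨⟨b1, b2⟩, -⟩ := mem_posA.mp hs
    exact C.lev_e j s le_rfl b1 b2
  constructor
  · intro hlx
    have heq : ∀ s ∈ posA j lo hi e x, e j s = x := by
      intro s hs
      have h1 := hle s hs
      obtain ⟨⟨b1, b2⟩, h3⟩ := mem_posA.mp hs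
      by_contra hne
      have := lev_strictAnti (lt_of_le_of_ne h3 (Ne.symm hne))
      omega
    constructor
    · rw [← card_posA C hx, ← hlx, nab_self]
    · intro s hs
      obtain ⟨⟨b1, b2⟩, h3⟩ := mem_posA.mp hs
      exact end_pos C (by omega) b1 b2 (by rw [heq s hs]; exact hend hlx)
  · intro hlx
    have hcov : ∀ s ∈ posA j lo hi e x, x ⋖ e j s := by
      intro s hs
      have h1 := hle s hs
      obtain ⟨⟨b1, b2⟩, h3⟩ := mem_posA.mp hs
      exact H.covBy_iff.mpr ⟨lt_of_le_of_ne h3 (by intro h; rw [← h] at h1; omega), by omega⟩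
    constructor
    · have h1 : (posA j lo hi e x).image (e j) ⊆ Win.uc x := by
        intro y hy
        obtain ⟨s, hs, rfl⟩ := mem_image.mp hy
        exact Win.mem_uc.mpr (hcov s hs)
      have h2 := Finset.card_le_card h1
      rw [Finset.card_image_of_injOn (by
        intro a ha b hb hab
        rw [Finset.mem_coe, mem_posA] at ha hb
        exact C.inj j a b le_rfl ha.1.1 ha.1.2 hb.1.1 hb.1.2 hab)] at h2
      have := Win.uc_card_le H x
      omega
    · by_cases hall : ∀ s ∈ posA j lo hi e x, ∀ s' ∈ posA j lo hi e x, s ≤ s' + 1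
      · exact Or.inl hall
      right
      push Not at hall
      obtain ⟨s0, hs0, s1, hs1, hlt⟩ := hall
      obtain ⟨i, rfl⟩ : ∃ i, j = i + 1 := ⟨j - 1, by omega⟩
      have hne : e (i + 1) s0 ≠ e (i + 1) s1 := by
        intro h
        have h0 := (mem_posA.mp hs0).1
        have h1 := (mem_posA.mp hs1).1
        have := C.inj (i + 1) s0 s1 le_rfl h0.1 h0.2 h1.1 h1.2 h
        omega
      have hnear := (Win.near_level' G (by omega)).1 x (e (i + 1) s0) (e (i + 1) s1) (by omega)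
        (hcov s0 hs0) (hcov s1 hs1) hne
      have htwo : ∀ s ∈ posA (i + 1) lo hi e x, s = s0 ∨ s = s1 := by
        intro s hs
        have h0 := (mem_posA.mp hs0).1
        have h1 := (mem_posA.mp hs1).1
        have h2 := (mem_posA.mp hs).1
        rcases uc_two_of H (hcov s0 hs0) (hcov s1 hs1) hne _ (hcov s hs) with h | h
        · exact Or.inl (C.inj (i + 1) s s0 le_rfl h2.1 h2.2 h0.1 h0.2 h)
        · exact Or.inr (C.inj (i + 1) s s1 le_rfl h2.1 h2.2 h1.1 h1.2 h)
      rcases hnear with h | ⟨h1, h2, -⟩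
      · exfalso
        obtain ⟨y, hy, hy'⟩ := Win.exists_of_ucv (v := e (i + 1) s0) (v' := e (i + 1) s1)
          (by rw [h]; exact one_pos)
        have hyt : y ≤ (t : P) := onlyB_le (onlyB_up hx ((hcov s0 hs0).1.le.trans hy.1.le))
        have hly := (H.covBy_iff.mp hy).2
        rw [hle s0 hs0] at hly
        obtain ⟨s', c1, c2, c3⟩ := C.surj y hyt (by omega)
        rw [show lev y = i by omega] at c1 c2 c3
        rw [← c3] at hy hy'
        have g0 := (mem_posA.mp hs0).1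
        have g1 := (mem_posA.mp hs1).1
        have k1 := (C.cov i s0 s' (by omega) g0.1 g0.2 c1 c2).mp hy
        have k2 := (C.cov i s1 s' (by omega) g1.1 g1.2 c1 c2).mp hy'
        omega
      · intro s hs
        have g := (mem_posA.mp hs).1
        rcases htwo s hs with rfl | rfl
        · exact single_pos C g.1 g.2 h1
        · exact single_pos C g.1 g.2 h2

end

end Pool.Agent.GaussPoset.Sm

end

/-! From `Pool.Agent.W_448s7s_h5.SmC` -/

section

/-!
# S7 for `j ≤ 16`: the sides of a cross element (MP_448cb3_co)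
-/

namespace Pool.Agent.GaussPoset.Sm

set_option linter.unusedSectionVars false

open Finset Wd

universe u

variable {P : Type u} [Fintype P] [PartialOrder P] [DecidableEq P] {r j w : ℕ}

/-- extra elements on the level `j - 2` -/
def rhA (w : List Ltr) (A : Finset ℕ) : ℕ := if 2 ≤ w.length then xA w A (w.length - 2) else 0

/-- the words of level `j` -/
def wds (j a : ℕ) : List (List Ltr) :=
  if a = 2 then (if j = 6 then [[OC, OO, CC, OC]] else [])
  else lateW a ++ (if 1 ≤ j - a ∧ j - a ≤ a then [Qw (j - a)] else [])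

/-- the data of the ends of level `j` -/
def ChkE (j : ℕ) (S : List (ℕ × ℕ × ℕ)) : Prop :=
  ∀ a ∈ range (j + 1), 2 ≤ a → ∀ w ∈ wds j a, w.length = j - a →
    ∀ A ∈ (Icc (Lw w (w.length + 3)) (Hw w (w.length + 3))).powerset, A.Nonempty →
      condA 0 w A → (mA w A, dA w A, rhA w A) ∈ S

instance (j : ℕ) (S : List (ℕ × ℕ × ℕ)) : Decidable (ChkE j S) := by
  unfold ChkE; infer_instance

/-- the data of the sides of level `j + q` -/
def ChkS (j q : ℕ) (S : List (ℕ × ℕ × ℕ)) : Prop :=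
  ∀ a ∈ range (j + 1), 2 ≤ a → ∀ w ∈ wds j a, w.length = j - a →
    ∀ A ∈ (Icc (Lw w (w.length + 3)) (Hw w (w.length + 3))).powerset, A.Nonempty →
      condA q w A → (mA w A, dA w A, A.card - 1) ∈ S

instance (j q : ℕ) (S : List (ℕ × ℕ × ℕ)) : Decidable (ChkS j q S) := by
  unfold ChkS; infer_instance

section

variable {t : Tops P} {lo hi : ℕ → ℕ} {e : ℕ → ℕ → P} {a : ℕ}

/-- the side of a late component -/
theorem late_side (G : Win.GoodTo P r j) (hj : 2 ≤ j) (C : Cp.Comp j (t : P) lo hi e)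
    (h0 : 2 ≤ a) (h1 : a ≤ j) (h2 : ∀ k, k < a → lo k = 0 ∧ hi k = 0) (h3 : lo a = 0 ∧ hi a = 1)
    {x : P} (hx : x ∈ onlyB t) (hl : j ≤ lev x) (hend : lev x = j → (Win.uc x).card = 1)
    {W : List Ltr} (hW : word lo hi a (j - a) = W) :
    ∃ A ∈ (Icc (Lw W (W.length + 3)) (Hw W (W.length + 3))).powerset, A.Nonempty ∧
      (∀ q, lev x = j + q → condA q W A) ∧ mX j x = mA W A ∧ cX j x = dA W A ∧
      (nab j x : ℤ) - 1 = ((A.card - 1 : ℕ) : ℤ) ∧ nab (j - 2) x = rhA W A + 1 := by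
  classical
  have H := G.H
  have hg := G.good
  obtain ⟨d, rfl⟩ : ∃ d, j = a + d := ⟨j - a, by omega⟩
  rw [Nat.add_sub_cancel_left] at hW
  have hlen : W.length = d := by rw [← hW, word_length]
  have hL : ∀ n, n ≤ d → Lw W (n + 3) = lo (a + n) := by
    rw [← hW]
    exact lo_word (a := a) (d := d) C.lo_step h3.1 (hi := hi) le_rfl
  have hH : ∀ n, n ≤ d → Hw W (n + 3) = hi (a + n) := by
    rw [← hW]
    exact hi_word (a := a) (d := d) C.hi_step h3.2 (lo := lo) le_rfl
  have hpl : Lw W (W.length + 2) = lo (a + d - 1) := by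
    rw [hlen]
    rcases Nat.eq_zero_or_pos d with hd | hd
    · subst hd
      have : Lw W (0 + 2) = 0 := by simp [Lw]
      rw [this, (h2 (a + 0 - 1) (by omega)).1]
    · obtain ⟨d', rfl⟩ : ∃ d', d = d' + 1 := ⟨d - 1, by omega⟩
      rw [show d' + 1 + 2 = d' + 3 by omega, hL d' (by omega)]
      rfl
  have hph : Hw W (W.length + 2) = hi (a + d - 1) := by
    rw [hlen]
    rcases Nat.eq_zero_or_pos d with hd | hd
    · subst hd
      have : Hw W (0 + 2) = 0 := by simp [Hw]
      rw [this, (h2 (a + 0 - 1) (by omega)).2]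
    · obtain ⟨d', rfl⟩ : ∃ d', d = d' + 1 := ⟨d - 1, by omega⟩
      rw [show d' + 1 + 2 = d' + 3 by omega, hH d' (by omega)]
      rfl
  have hone : ∀ k, k < a → (nab k x : ℤ) - 1 = 0 := by
    intro k hk
    rw [nab_one_of_eq C hx (by omega) (by omega) (by rw [(h2 k hk).1, (h2 k hk).2])]
    norm_num
  set A := posA (a + d) lo hi e x with hA
  have hxA : ∀ n, n < d → (nab (a + n) x : ℤ) - 1 = xA W A n := by
    intro n hn
    have h4 := nab_pos H hg C hx hl (k := a + n) (by omega)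
    have h5 := one_le_nab (l := a + n) (z := x) (by omega)
    unfold xA
    rw [hL n hn.le, hH n hn.le, hlen, h4, ← hA, show a + d - (a + n) = d - n by omega]
    rw [h4, ← hA, show a + d - (a + n) = d - n by omega] at h5
    omega
  have hcard := card_posA C hx
  have hnj := one_le_nab (l := a + d) (z := x) hl
  rw [hcard, ← hA] at hnj
  obtain ⟨c1, c2⟩ := pos_cond G hj C hx hl hend
  rw [← hA] at c1 c2
  refine ⟨A, ?_, Finset.card_pos.mp hnj, ?_, ?_, ?_, ?_, ?_⟩
  · rw [Finset.mem_powerset, hlen, hL d le_rfl, hH d le_rfl]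
    intro s hs
    rw [hA, mem_posA] at hs
    exact mem_Icc.mpr hs.1
  · intro q hq
    refine ⟨fun hq0 => ?_, fun hq1 => ?_⟩
    · obtain ⟨g1, g2⟩ := c1 (by omega)
      refine ⟨g1, fun s hs => ?_⟩
      unfold EndP
      rw [hpl, hph]
      exact g2 s hs
    · obtain ⟨g1, g2⟩ := c2 (by omega)
      refine ⟨g1, g2.imp id fun g s hs => ?_⟩
      unfold EndP
      rw [hpl, hph]
      exact g s hs
  · unfold mX mA
    rw [Finset.sum_range_add, Finset.sum_eq_zero fun k hk => hone k (mem_range.mp hk), zero_add,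
      hlen, Nat.cast_sum]
    exact Finset.sum_congr rfl fun n hn => hxA n (mem_range.mp hn)
  · unfold cX dA
    rw [Finset.sum_range_add, Finset.sum_eq_zero fun k hk => by
      rw [hone k (mem_range.mp hk), zero_mul], zero_add, hlen, Nat.cast_sum]
    refine Finset.sum_congr rfl fun n hn => ?_
    rw [hxA n (mem_range.mp hn), Nat.cast_mul]
    rw [mem_range] at hn
    congr 1
    omega
  · rw [hcard, ← hA]
    omega
  · unfold rhA
    rw [hlen]
    split_ifs with hd
    · have h4 := hxA (d - 2) (by omega)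
      rw [show a + (d - 2) = a + d - 2 by omega] at h4
      omega
    · have h4 := hone (a + d - 2) (by omega)
      omega

/-- the kinds of components whose sides are in the lists -/
structure LateC (j : ℕ) (lo hi : ℕ → ℕ) (a : ℕ) : Prop where
  two : 2 ≤ a
  le : a ≤ j
  low : ∀ k, k < a → lo k = 0 ∧ hi k = 0
  at_a : lo a = 0 ∧ hi a = 1
  word : word lo hi a (j - a) ∈ wds j a

/-- the side of a late component in a list -/
theorem late_mem (G : Win.GoodTo P r j) (hj : 2 ≤ j) (C : Cp.Comp j (t : P) lo hi e)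
    (h : LateC j lo hi a)
    {x : P} (hx : x ∈ onlyB t) (hl : j ≤ lev x) (hend : lev x = j → (Win.uc x).card = 1)
    {q p : ℕ} (hq : lev x = j + q) (hp : p = min q 2) {S : List (ℕ × ℕ × ℕ)} (hS : ChkS j p S) :
    ∃ m c b : ℕ, (m, c, b) ∈ S ∧ mX j x = m ∧ cX j x = c ∧ (nab j x : ℤ) - 1 = b := by
  obtain ⟨A, g1, g2, g3, g4, g5, g6, -⟩ := late_side G hj C h.two h.le h.low h.at_a hx hl hend rfl
  refine ⟨_, _, _, hS a (mem_range.mpr (by have := h.le; omega)) h.two _ h.word (by simp) A g1 g2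
    ?_, g4, g5, g6⟩
  have h5 := g3 q hq
  exact ⟨fun h => h5.1 (by omega), fun h => h5.2 (by omega)⟩

/-- the ends of a late component in a list -/
theorem late_end (G : Win.GoodTo P r j) (hj : 2 ≤ j) (C : Cp.Comp j (t : P) lo hi e)
    (h : LateC j lo hi a) {x : P} (hx : x ∈ onlyB t) (hl : lev x = j)
    (hend : (Win.uc x).card = 1) {S : List (ℕ × ℕ × ℕ)} (hS : ChkE j S) :
    ∃ m c b : ℕ, (m, c, b) ∈ S ∧ mX j x = m ∧ cX j x = c ∧ nab (j - 2) x = b + 1 := by
  obtain ⟨A, g1, g2, g3, g4, g5, -, g7⟩ := late_side G hj C h.two h.le h.low h.at_a hx hl.ge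
    (fun _ => hend) rfl
  exact ⟨_, _, _, hS a (mem_range.mpr (by have := h.le; omega)) h.two _ h.word (by simp) A g1 g2
    (g3 0 hl), g4, g5, g7⟩

/-- the shapes: straight, early or late -/
theorem shape_cases (C : Cp.Comp j (t : P) lo hi e) (hj : 5 ≤ j) (S : Shape j lo hi) :
    (∀ k, k ≤ j → lo k = hi k) ∨ (RectShape j lo hi ∨ StairShape j lo hi) ∨
      ∃ a, LateC j lo hi a ∧ (j ≠ 6 → 3 ≤ a) := by
  rcases S with h | ⟨h1, h2⟩ | ⟨h1, h2⟩ | ⟨h0, _, _⟩ | ⟨h0, h1⟩ | ⟨a, h0, h1, h2, h3, hN, h4⟩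
  · exact Or.inl fun k hk => by rw [(h k hk).1, (h k hk).2]
  · exact Or.inr (Or.inl (Or.inl h2))
  · exact Or.inr (Or.inl (Or.inr h2))
  · omega
  · right; right
    obtain ⟨⟨l0, l1, l2, l3, l4, l5, l6⟩, u0, u1, u2, u3, u4, u5, u6⟩ := h1
    subst h0
    refine ⟨2, ⟨le_rfl, by norm_num, fun k hk => ?_, ⟨l2, u2⟩, ?_⟩, fun h => absurd rfl h⟩
    · have : k = 0 ∨ k = 1 := by omega
      rcases this with rfl | rfl
      · exact ⟨l0, u0⟩
      · exact ⟨l1, u1⟩
    · have : Wd.word lo hi 2 (6 - 2) = [OC, OO, CC, OC] := by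
        unfold Wd.word
        simp [List.range_succ, l2, l3, l4, l5, l6, u2, u3, u4, u5, u6, OC, OO, CC]
      rw [this]
      simp [wds]
  · right; right
    refine ⟨a, ⟨by omega, h1, h2, h3, ?_⟩, fun _ => h0⟩
    unfold wds
    rw [if_neg (by omega), List.mem_append]
    rcases h4 with ⟨h5, h6⟩ | h5
    · right
      rw [if_pos h5, h6]
      simp
    · exact Or.inl h5

end

end Pool.Agent.GaussPoset.Sm

end

/-! From `Pool.Agent.W_448s7s_h5.SmF` -/

section

/-!
# S7 for `j ≤ 16`: the system of lines (MP_448cb3_co)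
-/

namespace Pool.Agent.GaussPoset.Sm

set_option linter.unusedSectionVars false

open Finset Wd

universe u

variable {P : Type u} [Fintype P] [PartialOrder P] [DecidableEq P] {r j w : ℕ}

/-- expensive sides -/
def Fatt (j : ℕ) (x : P) : Prop := j + 1 ≤ lev x ∧ ∀ k, 2 ≤ k → k + 2 ≤ j → 2 ≤ nab k x

/-- the sides which are used -/
def Sok (j : ℕ) (x : P) : Prop := ¬ Fatt j x ∧ (12 ≤ j → ¬ Fold j x)

/-- the context -/
structure Ctx (P : Type u) [Fintype P] [PartialOrder P] [DecidableEq P] (r j : ℕ)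
    (lo hi : Tops P → ℕ → ℕ) (e : Tops P → ℕ → ℕ → P) : Prop where
  gt : Win.GoodTo P r j
  h5 : 5 ≤ j
  h16 : j ≤ 16
  comp : ∀ t : Tops P, Cp.Comp j (t : P) (lo t) (hi t) (e t)
  shape : ∀ t, Shape j (lo t) (hi t)

variable {lo hi : Tops P → ℕ → ℕ} {e : Tops P → ℕ → ℕ → P}

/-- cross elements have level at least `j + 1` -/
lemma Ctx.lev_ge (K : Ctx P r j lo hi e) {z x x' : P} (h : Cg z x x') : j + 1 ≤ lev z := by
  by_contra hcon
  exact K.gt.no_join z (by omega) h.jn

/-- the covers of a join of level `j + 1` have one cover -/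
theorem Ctx.ends (K : Ctx P r j lo hi e) {z x x' : P} (h : Cg z x x') (hl : lev z = j + 1) :
    (Win.uc x).card = 1 ∧ (Win.uc x').card = 1 := by
  have H := K.gt.H
  have h5 := K.h5
  obtain ⟨l1, l2⟩ := h.lev_eq H
  have hne : x ≠ x' := by rintro rfl; exact h.ne rfl
  have G : Win.GoodTo P r ((j - 1) + 1) := by
    rw [show j - 1 + 1 = j by omega]
    exact K.gt
  rcases (Win.near_level' G (by omega)).1 z x x' (by omega) h.cov h.cov' hne with h1 | ⟨h1, h2, _⟩
  · exfalso
    obtain ⟨y, hy, hy'⟩ := Win.exists_of_ucv (v := x) (v' := x') (by rw [h1]; exact one_pos)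
    have e1 := mem_onlyB.mp (onlyB_up h.only hy.1.le) (topOf y) (topOf y).2 (le_topOf y)
    have e2 := mem_onlyB.mp (onlyB_up h.only' hy'.1.le) (topOf y) (topOf y).2 (le_topOf y)
    exact h.ne (Subtype.ext (e1.symm.trans e2))
  · exact ⟨h1, h2⟩

/-- sides: the fold end, straight, or in a late component -/
theorem Ctx.cases (K : Ctx P r j lo hi e) {x : P} (hx : x ∈ onlyB (topOf x)) (hl : j ≤ lev x)
    (hend : lev x = j → (Win.uc x).card = 1) (hf : ¬ Fatt j x) :
    Fold j x ∨ Strt j x ∨ ∃ a, LateC j (lo (topOf x)) (hi (topOf x)) a ∧ (j ≠ 6 → 3 ≤ a) := by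
  have H := K.gt.H
  have h5 := K.h5
  rcases shape_cases (K.comp (topOf x)) h5 (K.shape (topOf x)) with h | h | h
  · exact Or.inr (Or.inl fun k hk => nab_one_of_eq (K.comp (topOf x)) hx hk (by omega) (h k hk))
  · rcases early_dich H K.gt.good (by omega) (K.comp (topOf x)) (h.imp id Or.inl) hx hl hend
      with h1 | h1 | h1
    · exact Or.inr (Or.inl h1)
    · exact Or.inl h1
    · exact absurd h1 hf
  · exact Or.inr (Or.inr h)

lemma Strt.mX {x : P} (h : Strt j x) : mX j x = 0 ∧ cX j x = 0 := mX_zero h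

/-- the data of a side -/
theorem Ctx.side (K : Ctx P r j lo hi e) {x : P} (hx : x ∈ onlyB (topOf x)) (hl : j + 1 ≤ lev x)
    (hf : ¬ Fatt j x) {q p : ℕ} (hq : lev x = j + q) (hp : p = min q 2)
    {S : List (ℕ × ℕ × ℕ)} (hS : ChkS j p S) (h0 : (0, 0, 0) ∈ S) :
    ∃ m c b : ℕ, (m, c, b) ∈ S ∧ mX j x = m ∧ cX j x = c ∧ (nab j x : ℤ) - 1 = b := by
  have h5 := K.h5
  rcases K.cases hx (by omega) (fun h => by omega) hf with h | h | ⟨a, h, -⟩
  · have := h.1
    omega
  · refine ⟨0, 0, 0, h0, h.mX.1, h.mX.2, ?_⟩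
    rw [h j le_rfl]
    norm_num
  · exact late_mem K.gt (by omega) (K.comp _) h hx (by omega) (fun h => by omega) hq hp hS

/-- profile of the fold end -/
def fnb (j k : ℕ) : ℕ := k / 2 - (k - j / 2)

def fm (j : ℕ) : ℕ := ∑ k ∈ range j, fnb j k

def fc (j : ℕ) : ℕ := ∑ k ∈ range j, fnb j k * (j - k)

lemma Fold.nab {x : P} (h : Fold j x) {k : ℕ} (hk : k ≤ j) : (nab k x : ℤ) - 1 = fnb j k := by
  have h1 := h.2.2 k hk
  have h2 := one_le_nab (l := k) (z := x) (by rw [h.1]; exact hk)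
  unfold fnb
  omega

lemma Fold.mX {x : P} (h : Fold j x) : mX j x = fm j ∧ cX j x = fc j := by
  constructor
  · unfold GaussPoset.mX fm
    rw [Nat.cast_sum]
    exact Finset.sum_congr rfl fun k hk => h.nab (by rw [mem_range] at hk; omega)
  · unfold GaussPoset.cX fc
    rw [Nat.cast_sum]
    refine Finset.sum_congr rfl fun k hk => ?_
    rw [mem_range] at hk
    rw [h.nab hk.le, Nat.cast_mul, Nat.cast_sub hk.le]

/-- data of an end -/
def Dt (j : ℕ) (x : P) (s : ℕ × ℕ × ℕ) : Prop :=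
  mX j x = s.1 ∧ cX j x = s.2.1 ∧ nab (j - 2) x = s.2.2 + 1

/-- the data of an end -/
theorem Ctx.endd (K : Ctx P r j lo hi e) {x : P} (hx : x ∈ onlyB (topOf x)) (hl : lev x = j)
    (hend : (Win.uc x).card = 1) {S : List (ℕ × ℕ × ℕ)} (hS : ChkE j S) (h0 : (0, 0, 0) ∈ S)
    (hF : Fold j x → (fm j, fc j, 1) ∈ S) : ∃ s ∈ S, Dt j x s := by
  suffices h : ∃ m c b : ℕ, (m, c, b) ∈ S ∧ mX j x = m ∧ cX j x = c ∧ nab (j - 2) x = b + 1 by
    obtain ⟨m, c, b, h1, h2, h3, h4⟩ := h
    exact ⟨_, h1, h2, h3, h4⟩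
  have h5 := K.h5
  rcases K.cases hx hl.ge (fun _ => hend) (fun h => by have := h.1; omega) with h | h | ⟨a, h, -⟩
  · refine ⟨_, _, _, hF h, h.mX.1, h.mX.2, ?_⟩
    have h1 := h.2.2 (j - 2) (by omega)
    have := h.2.1
    omega
  · exact ⟨0, 0, 0, h0, h.mX.1, h.mX.2, h (j - 2) (by omega)⟩
  · exact late_end K.gt (by omega) (K.comp _) h hx hl hend hS

/-- at all windows above the cap -/
def dead (j : ℤ) (W : ℕ) (cap : ℕ → ℤ) (κ g : ℤ) : Bool :=
  (List.range (W + 1)).all fun w => decide (cap w < κ * (j - w) + g)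

/-- the table of the lines -/
def aT (tab : List (List ℤ)) (κ g : ℤ) : Bool :=
  decide (0 ≤ κ) && (tab.getD κ.toNat []).elem g

def okL (j : ℤ) (W : ℕ) (cap : ℕ → ℤ) (tab : List (List ℤ)) (κ g : ℤ) : Bool :=
  dead j W cap κ g || aT tab κ g

def chk0 (j : ℤ) (W : ℕ) (cap : ℕ → ℤ) (tab : List (List ℤ)) (E : List (ℕ × ℕ × ℕ))
    (X : ℕ × ℕ × ℕ → ℕ × ℕ × ℕ → Bool) : Bool :=
  E.all fun s => E.all fun s' => X s s' || okL j W cap tab (s.1 + s'.1) (-(s.2.1 + s'.2.1))

def chk1 (j : ℤ) (W : ℕ) (cap : ℕ → ℤ) (tab : List (List ℤ)) (S : List (ℕ × ℕ × ℕ)) : Bool :=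
  S.all fun s => S.all fun s' =>
    okL j W cap tab (2 + (s.1 + s'.1) + (s.2.2 + s'.2.2)) (3 - (s.2.1 + s'.2.1))

def chk2 (j : ℤ) (W : ℕ) (cap : ℕ → ℤ) (tab : List (List ℤ)) (S : List (ℕ × ℕ × ℕ)) : Bool :=
  S.all fun s => S.all fun s' => (List.range 5).all fun q => decide (q < 2) ||
    (List.range (9 - 2 * q)).all fun n => (List.range ((q - 1) * n + 1)).all fun d =>
      decide (d < n) || okL j W cap tab (2 * q + (s.1 + s'.1) + (s.2.2 + s'.2.2) + n)
        (q * q + 2 * q - (s.2.1 + s'.2.1) + d)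

def chkB (j : ℤ) (W : ℕ) (cap : ℕ → ℤ) (S : List (ℕ × ℕ × ℕ)) : Bool :=
  (List.range (W + 1)).all fun w => decide (cap w < 9 * (j - w)) &&
    S.all fun s => decide ((s.2.1 : ℤ) ≤ s.1 * (j - w))

lemma not_dead {j : ℤ} {W : ℕ} {cap : ℕ → ℤ} {κ g : ℤ} (hw : w ≤ W) (h : κ * (j - w) + g ≤ cap w) :
    dead j W cap κ g = false := by
  rw [Bool.eq_false_iff]
  intro hd
  unfold dead at hd
  rw [List.all_eq_true] at hd
  have := hd w (List.mem_range.mpr (by omega))
  rw [decide_eq_true_eq] at this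
  omega

lemma okL_at {j : ℤ} {W : ℕ} {cap : ℕ → ℤ} {tab : List (List ℤ)} {κ g : ℤ}
    (h : okL j W cap tab κ g = true) (hw : w ≤ W) (hc : κ * (j - w) + g ≤ cap w) :
    aT tab κ g = true := by
  unfold okL at h
  rw [not_dead hw hc, Bool.false_or] at h
  exact h

/-- the tables; `X` = the excluded pairs of ends -/
structure Tab (j W : ℕ) (cap : ℕ → ℤ) (tab : List (List ℤ)) (E S1 S2 : List (ℕ × ℕ × ℕ))
    (X : ℕ × ℕ × ℕ → ℕ × ℕ × ℕ → Bool) : Prop where
  wj : W < j
  e : ChkE j E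
  s1 : ChkS j 1 S1
  s2 : ChkS j 2 S2
  e0 : (0, 0, 0) ∈ E
  s10 : (0, 0, 0) ∈ S1
  s20 : (0, 0, 0) ∈ S2
  ef : j < 12 → j % 2 = 0 → (fm j, fc j, 1) ∈ E
  c0 : chk0 j W cap tab E X = true
  c1 : chk1 j W cap tab S1 = true
  c2 : chk2 j W cap tab S2 = true
  cb : chkB j W cap S2 = true

/-- the joins of level `j + 1` with the pairs of ends `X` are excluded -/
def NoP (P : Type u) [Fintype P] [PartialOrder P] [DecidableEq P] (j : ℕ)
    (X : ℕ × ℕ × ℕ → ℕ × ℕ × ℕ → Bool) : Prop :=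
  ∀ z x x' : P, Cg z x x' → lev z = j + 1 → ∀ s s', Dt j x s → Dt j x' s' → X s s' = false

/-- two ends, each with two ancestors on level `j - 2` -/
def XRR (s s' : ℕ × ℕ × ℕ) : Bool := s.2.2 == 1 && s'.2.2 == 1

/-- no exclusion -/
def X0 (_ _ : ℕ × ℕ × ℕ) : Bool := false

lemma noP_zero (j : ℕ) : NoP P j X0 := fun _ _ _ _ _ _ _ _ _ => rfl

/-- the data of a join of level `j + 1` -/
theorem Ctx.pair (K : Ctx P r j lo hi e) {E : List (ℕ × ℕ × ℕ)} (hE : ChkE j E)
    (h0 : (0, 0, 0) ∈ E) (hf : j < 12 → j % 2 = 0 → (fm j, fc j, 1) ∈ E)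
    {z x x' : P} (h : Cg z x x') (hlz : lev z = j + 1) (hs : Sok j x) (hs' : Sok j x') :
    ∃ s s', s ∈ E ∧ s' ∈ E ∧ Dt j x s ∧ Dt j x' s' ∧
      kapZ j z = (s.1 : ℤ) + s'.1 ∧ gZ j z = -((s.2.1 : ℤ) + s'.2.1) := by
  have H := K.gt.H
  obtain ⟨l1, l2⟩ := h.lev_eq H
  obtain ⟨k1, k2, k3, k4, k5, k6⟩ := h.line H hlz.ge
  have hqz : (lev z : ℤ) - (j + 1) = 0 := by rw [hlz]; push_cast; ring
  rw [hqz] at k1 k2 k5
  obtain ⟨u1, u2⟩ := K.ends h hlz
  have hF : ∀ y : P, Sok j y → Fold j y → (fm j, fc j, 1) ∈ E := by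
    intro y hy hfy
    refine hf ?_ hfy.2.1
    by_contra hcon
    exact hy.2 (by omega) hfy
  obtain ⟨s, g1, g2, g3, g4⟩ := K.endd h.only (by omega) u1 hE h0 (hF x hs)
  obtain ⟨s', g1', g2', g3', g4'⟩ := K.endd h.only' (by omega) u2 hE h0 (hF x' hs')
  obtain ⟨n0, d0⟩ := k6 (by omega)
  have hn : (nab j x : ℤ) = 1 ∧ (nab j x' : ℤ) = 1 := by
    constructor
    · rw [show j = lev x by omega, nab_self]; norm_num
    · rw [show j = lev x' by omega, nab_self]; norm_num
  refine ⟨s, s', g1, g1', ⟨g2, g3, g4⟩, ⟨g2', g3', g4'⟩, ?_, ?_⟩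
  · rw [k1, n0, hn.1, hn.2, g2, g2']
    ring
  · rw [k2, d0, g3, g3']
    ring

/-- **the cheap lines are in the table** -/
theorem Ctx.mem_tab (K : Ctx P r j lo hi e) {X : ℕ × ℕ × ℕ → ℕ × ℕ × ℕ → Bool} (hN : NoP P j X)
    {W : ℕ} {cap : ℕ → ℤ} {tab : List (List ℤ)} {E S1 S2 : List (ℕ × ℕ × ℕ)}
    (T : Tab j W cap tab E S1 S2 X)
    {z x x' : P} (h : Cg z x x') (hs : Sok j x) (hs' : Sok j x') (hw : w ≤ W)
    (hc : kapZ j z * (j - w) + gZ j z ≤ cap w) : aT tab (kapZ j z) (gZ j z) = true := by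
  have H := K.gt.H
  have hl := K.lev_ge h
  obtain ⟨l1, l2⟩ := h.lev_eq H
  obtain ⟨k1, k2, k3, k4, k5, k6⟩ := h.line H hl
  obtain ⟨q, hq⟩ : ∃ q, lev z = j + 1 + q := ⟨lev z - (j + 1), by omega⟩
  have hqz : (lev z : ℤ) - (j + 1) = q := by rw [hq]; push_cast; ring
  rw [hqz] at k1 k2 k5
  rcases Nat.lt_or_ge q 1 with h0 | h0
  · -- level `j + 1`
    have hlz : lev z = j + 1 := by omega
    obtain ⟨s, s', g1, g1', d1, d1', e1, e2⟩ := K.pair T.e T.e0 T.ef h hlz hs hs'
    have h1 := T.c0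
    unfold chk0 at h1
    rw [List.all_eq_true] at h1
    have h2 := h1 _ g1
    rw [List.all_eq_true] at h2
    have h3 := h2 _ g1'
    rw [hN z x x' h hlz s s' d1 d1', Bool.false_or] at h3
    rw [e1, e2] at hc ⊢
    exact okL_at h3 hw hc
  · rcases Nat.lt_or_ge q 2 with h1q | h1q
    · obtain rfl : q = 1 := by omega
      obtain ⟨m, c, b, g1, g2, g3, g4⟩ := K.side h.only (by omega) hs.1 (q := 1) (by omega) rfl
        T.s1 T.s10
      obtain ⟨m', c', b', g1', g2', g3', g4'⟩ := K.side h.only' (by omega) hs'.1 (q := 1) (by omega)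
        rfl T.s1 T.s10
      obtain ⟨n0, d0⟩ := k6 (by omega)
      have e1 : kapZ j z = 2 + ((m : ℤ) + m') + ((b : ℤ) + b') := by
        rw [k1, n0, g4, g4', g2, g2']
        push_cast; ring
      have e2 : gZ j z = 3 - ((c : ℤ) + c') := by
        rw [k2, d0, g3, g3']
        push_cast; ring
      have h1 := T.c1
      unfold chk1 at h1
      rw [List.all_eq_true] at h1
      have h2 := h1 _ g1
      rw [List.all_eq_true] at h2
      have h3 := h2 _ g1'
      rw [e1, e2] at hc ⊢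
      exact okL_at h3 hw hc
    · have hp : ∀ y : P, lev y = j + q → 2 = min q 2 := fun _ _ => by omega
      obtain ⟨m, c, b, g1, g2, g3, g4⟩ := K.side h.only (by omega) hs.1 (q := q) (by omega)
        (p := 2) (by omega) T.s2 T.s20
      obtain ⟨m', c', b', g1', g2', g3', g4'⟩ := K.side h.only' (by omega) hs'.1 (q := q) (by omega)
        (p := 2) (by omega) T.s2 T.s20
      obtain ⟨n, hn⟩ : ∃ n : ℕ, nJ j z = n := ⟨(nJ j z).toNat, (Int.toNat_of_nonneg k3).symm⟩
      obtain ⟨d, hd⟩ : ∃ d : ℕ, dJ j z = d :=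
        ⟨(dJ j z).toNat, (Int.toNat_of_nonneg (k3.trans k4)).symm⟩
      rw [hn, hd] at k4 k5
      have e1 : kapZ j z = 2 * (q : ℤ) + ((m : ℤ) + m') + ((b : ℤ) + b') + n := by
        rw [k1, hn, g4, g4', g2, g2']
      have e2 : gZ j z = (q : ℤ) * q + 2 * q - ((c : ℤ) + c') + d := by
        rw [k2, hd, g3, g3']
      have hB := T.cb
      unfold chkB at hB
      rw [List.all_eq_true] at hB
      have hB1 := hB w (List.mem_range.mpr (by omega))
      rw [Bool.and_eq_true, decide_eq_true_eq, List.all_eq_true] at hB1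
      have b1 := hB1.2 _ g1
      have b2 := hB1.2 _ g1'
      rw [decide_eq_true_eq] at b1 b2
      simp only at b1 b2
      have hjw : (0 : ℤ) < (j : ℤ) - w := by
        have := T.wj
        omega
      have e5 : kapZ j z * ((j : ℤ) - w) + gZ j z =
          (2 * (q : ℤ) + ((b : ℤ) + b') + n) * ((j : ℤ) - w) +
            (m * ((j : ℤ) - w) - c) + (m' * ((j : ℤ) - w) - c') + (q : ℤ) * q + 2 * q + d := by
        rw [e1, e2]; ring
      have hqn : 2 * q + n ≤ 8 := by
        by_contra hcon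
        push Not at hcon
        have e6 : (9 : ℤ) ≤ 2 * (q : ℤ) + ((b : ℤ) + b') + n := by
          have : (9 : ℤ) ≤ 2 * (q : ℤ) + n := by exact_mod_cast hcon
          have := Int.natCast_nonneg b
          have := Int.natCast_nonneg b'
          linarith
        have e7 : 9 * ((j : ℤ) - w) ≤ (2 * (q : ℤ) + ((b : ℤ) + b') + n) * ((j : ℤ) - w) :=
          mul_le_mul_of_nonneg_right e6 hjw.le
        have e8 : (0 : ℤ) ≤ (q : ℤ) * q + 2 * q + d := by positivity
        linarith [hB1.1]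
      have h1 := T.c2
      unfold chk2 at h1
      rw [List.all_eq_true] at h1
      have h2 := h1 _ g1
      rw [List.all_eq_true] at h2
      have h3 := h2 _ g1'
      rw [List.all_eq_true] at h3
      have h4 := h3 q (List.mem_range.mpr (by omega))
      rw [Bool.or_eq_true, decide_eq_true_eq] at h4
      have h5 := h4.resolve_left (by omega)
      rw [List.all_eq_true] at h5
      have h6 := h5 n (List.mem_range.mpr (by omega))
      rw [List.all_eq_true] at h6
      have k5' : d ≤ (q - 1) * n := by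
        have : (d : ℤ) ≤ ((q - 1 : ℕ) : ℤ) * n := by
          rw [Nat.cast_sub (by omega)]
          exact_mod_cast k5
        exact_mod_cast this
      have h7 := h6 d (List.mem_range.mpr (by omega))
      rw [Bool.or_eq_true, decide_eq_true_eq] at h7
      have h8 := h7.resolve_left (by
        have : (n : ℤ) ≤ d := k4
        have : n ≤ d := by exact_mod_cast this
        omega)
      rw [e1, e2] at hc ⊢
      exact okL_at h8 hw hc

/-- the balance at one window -/
structure WinB (P : Type u) [Fintype P] [PartialOrder P] [DecidableEq P] (j w : ℕ) (cp : ℤ)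
    (nO nE : ℤ → Bool) (lb V : ℤ) : Prop where
  lo : V ≤ cp → lb ≤ V
  mn : ∀ z x x' : P, Cg z x x' → Sok j x → Sok j x' → V ≤ kapZ j z * (j - w) + gZ j z
  od : V ≤ cp → (∃ z x x' : P, Cg z x x' ∧ Sok j x ∧ Sok j x' ∧ Odd (kapZ j z) ∧
    kapZ j z * (j - w) + gZ j z = V) ∨ nO V = true
  ev : V ≤ cp → (∃ z x x' : P, Cg z x x' ∧ Sok j x ∧ Sok j x' ∧ Even (kapZ j z) ∧
    kapZ j z * (j - w) + gZ j z = V) ∨ nE V = true

def odds (n : ℕ) : List ℤ :=
  List.map (fun k : ℕ => (k : ℤ)) (List.filter (fun k => k % 2 == 1) (List.range n))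

def evens (n : ℕ) : List ℤ :=
  List.map (fun k : ℕ => (k : ℤ)) (List.filter (fun k => k % 2 == 0) (List.range n))

lemma aT_mem {tab : List (List ℤ)} {κ g : ℤ} (h : aT tab κ g = true) :
    (Odd κ → κ ∈ odds tab.length) ∧ (Even κ → κ ∈ evens tab.length) := by
  unfold aT at h
  rw [Bool.and_eq_true, decide_eq_true_eq] at h
  obtain ⟨h0, h1⟩ := h
  have h2 : κ.toNat < tab.length := by
    by_contra hcon
    rw [List.getD_eq_default _ _ (by omega)] at h1
    simp at h1
  have h3 : ((κ.toNat : ℕ) : ℤ) = κ := Int.toNat_of_nonneg h0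
  constructor
  · intro ho
    unfold odds
    rw [List.mem_map]
    refine ⟨κ.toNat, ?_, h3⟩
    rw [List.mem_filter, List.mem_range]
    refine ⟨h2, ?_⟩
    rw [beq_iff_eq]
    rw [Int.odd_iff] at ho
    omega
  · intro he
    unfold evens
    rw [List.mem_map]
    refine ⟨κ.toNat, ?_, h3⟩
    rw [List.mem_filter, List.mem_range]
    refine ⟨h2, ?_⟩
    rw [beq_iff_eq]
    rw [Int.even_iff] at he
    omega

/-- **The bounds of the checker hold for the lines of the joins of level `j + 1`.** -/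
theorem Ctx.bounds (K : Ctx P r j lo hi e) {X : ℕ × ℕ × ℕ → ℕ × ℕ × ℕ → Bool} (hN : NoP P j X)
    {W : ℕ} {cap : ℕ → ℤ} {tab : List (List ℤ)} {E S1 S2 : List (ℕ × ℕ × ℕ)}
    (T : Tab j W cap tab E S1 S2 X)
    {nO nE : ℕ → ℤ → Bool} {lb : ℕ → ℤ}
    (hB : ∀ w ≤ W, ∃ V, WinB P j w (cap w) (nO w) (nE w) (lb w) V) (N R : ℕ)
    {z x x' : P} (h : Cg z x x') (hs : Sok j x) (hs' : Sok j x') :
    Chk.above (kapZ j z) (gZ j z) (rnds (aT tab) nO nE cap (odds tab.length) (evens tab.length) j N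
      (W + 1) R ((List.range (W + 1)).map fun w => min (lb w) (cap w + 1))) j = true := by
  classical
  have hB' : ∀ w, ∃ V, w ≤ W → WinB P j w (cap w) (nO w) (nE w) (lb w) V := by
    intro w
    by_cases hw : w ≤ W
    · obtain ⟨V, hV⟩ := hB w hw
      exact ⟨V, fun _ => hV⟩
    · exact ⟨0, fun h => absurd h hw⟩
  choose V hV using hB'
  have hS : Sys (j : ℤ) W cap (aT tab) nO nE (odds tab.length) (evens tab.length) V
      (fun κ g => ∃ z x x' : P, Cg z x x' ∧ Sok j x ∧ Sok j x' ∧ κ = kapZ j z ∧ g = gZ j z) := by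
    refine ⟨?_, ?_, ?_, ?_⟩
    · rintro κ g ⟨z, x, x', h, hs, hs', rfl, rfl⟩ w hw he hc
      have h1 := K.mem_tab hN T h hs hs' hw (by rw [he]; exact hc)
      exact ⟨h1, aT_mem h1⟩
    · rintro κ g ⟨z, x, x', h, hs, hs', rfl, rfl⟩ w hw
      exact (hV w hw).mn z x x' h hs hs'
    · intro w hw hc
      rcases (hV w hw).od hc with ⟨z, x, x', h1, h2, h3, h4, h5⟩ | h1
      · exact Or.inl ⟨_, _, ⟨z, x, x', h1, h2, h3, rfl, rfl⟩, h4, h5⟩
      · exact Or.inr h1
    · intro w hw hc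
      rcases (hV w hw).ev hc with ⟨z, x, x', h1, h2, h3, h4, h5⟩ | h1
      · exact Or.inl ⟨_, _, ⟨z, x, x', h1, h2, h3, rfl, rfl⟩, h4, h5⟩
      · exact Or.inr h1
  refine hS.target N R ?_ ⟨z, x, x', h, hs, hs', rfl, rfl⟩
  refine ⟨by simp, fun w hw => ?_⟩
  rw [List.getD_eq_getElem?_getD, List.getElem?_map, List.getElem?_range (by omega)]
  simp only [Option.map_some, Option.getD_some]
  rcases le_or_gt (V w) (cap w) with h1 | h1
  · exact (min_le_left _ _).trans ((hV w hw).lo h1)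
  · exact (min_le_right _ _).trans (by omega)

end Pool.Agent.GaussPoset.Sm

end
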