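import Mathlib
import Pool.Agent.W_448zz_h61.Ns
import Pool.Agent.W_448zz_h61.M075

/-! From `Pool.Agent.W_448s7s_h5.SmH` -/

section

/-!
# S7 for `j ≤ 16`: the joins which are left (MP_448cb3_co)
-/

namespace Pool.Agent.GaussPoset.Sm

set_option linter.unusedSectionVars false

open Finset Wd

universe u

variable {P : Type u} [Fintype P] [PartialOrder P] [DecidableEq P] {r j w : ℕ}

/-- the pairs of ends above the bounds -/
def rest (j : ℕ) (E : List (ℕ × ℕ × ℕ)) (X : ℕ × ℕ × ℕ → ℕ × ℕ × ℕ → Bool) (u : List ℤ) :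
    List ((ℕ × ℕ × ℕ) × (ℕ × ℕ × ℕ)) :=
  E.flatMap fun s => (E.filter fun s' => !X s s' &&
    Chk.above ((s.1 : ℤ) + s'.1) (-((s.2.1 : ℤ) + s'.2.1)) u j).map fun s' => (s, s')

/-- the bounds -/
def ubd (j W : ℕ) (cap lb : ℕ → ℤ) (tab : List (List ℤ)) (nO nE : ℕ → ℤ → Bool) (N R : ℕ) :
    List ℤ :=
  rnds (aT tab) nO nE cap (odds tab.length) (evens tab.length) j N (W + 1) R
    ((List.range (W + 1)).map fun w => min (lb w) (cap w + 1))

variable {lo hi : Tops P → ℕ → ℕ} {e : Tops P → ℕ → ℕ → P}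

/-- **the pairs of ends which are left** -/
theorem Ctx.left (K : Ctx P r j lo hi e) {X : ℕ × ℕ × ℕ → ℕ × ℕ × ℕ → Bool} (hN : NoP P j X)
    {W : ℕ} {cap : ℕ → ℤ} {tab : List (List ℤ)} {E S1 S2 : List (ℕ × ℕ × ℕ)}
    (T : Tab j W cap tab E S1 S2 X)
    {nO nE : ℕ → ℤ → Bool} {lb : ℕ → ℤ}
    (hB : ∀ w ≤ W, ∃ V, WinB P j w (cap w) (nO w) (nE w) (lb w) V) (N R : ℕ)
    {z x x' : P} (h : Cg z x x') (hl : lev z = j + 1) (hs : Sok j x) (hs' : Sok j x') :
    ∃ s s', (s, s') ∈ rest j E X (ubd j W cap lb tab nO nE N R) ∧ Dt j x s ∧ Dt j x' s' := by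
  obtain ⟨s, s', g1, g1', d1, d1', e1, e2⟩ := K.pair T.e T.e0 T.ef h hl hs hs'
  refine ⟨s, s', ?_, d1, d1'⟩
  have h1 := K.bounds hN T hB N R h hs hs'
  rw [e1, e2] at h1
  unfold rest
  rw [List.mem_flatMap]
  refine ⟨s, g1, ?_⟩
  rw [List.mem_map]
  refine ⟨s', ?_, rfl⟩
  rw [List.mem_filter]
  refine ⟨g1', ?_⟩
  rw [hN z x x' h hl s s' d1 d1', Bool.not_false, Bool.true_and]
  exact h1

/-- a join of level `j + 1` is a cross element -/
theorem Ctx.cross (K : Ctx P r j lo hi e) {z : P} (hz : Hul.Jn z) (hl : lev z = j + 1) :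
    ∃ x x' : P, Cg z x x' := by
  refine cg_of_max hz fun y hy => K.gt.no_join y ?_
  have := lev_strictAnti hy
  omega

end Pool.Agent.GaussPoset.Sm

end

/-! From `Pool.Agent.W_448s7s_h5.SrA` -/

section

/-!
# S7 for `j ≤ 16`: refined sides of level `j + 1` (MP_448cb3_co)
-/

namespace Pool.Agent.GaussPoset.Sm

set_option linter.unusedSectionVars false

open Finset Wd

universe u

variable {P : Type u} [Fintype P] [PartialOrder P] [DecidableEq P] {r j w : ℕ}

/-- letters C, O at the left end, before the last level -/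
def LCw (w : List Ltr) : Prop :=
  Lw w (w.length + 1) = Lw w w.length + 1 ∧ Lw w (w.length + 2) = Lw w (w.length + 1)

/-- letters C, O at the right end, before the last level -/
def RCw (w : List Ltr) : Prop :=
  Hw w (w.length + 1) = Hw w w.length ∧ Hw w (w.length + 2) = Hw w (w.length + 1) + 1

instance (w : List Ltr) : Decidable (LCw w) := by unfold LCw; infer_instance
instance (w : List Ltr) : Decidable (RCw w) := by unfold RCw; infer_instance

/-- the positions which may have a pendant below -/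
def PenP (w : List Ltr) (s : ℕ) : Prop :=
  EndP w s ∨ (LCw w ∧ (s = Lw w (w.length + 2) + 1 ∨ s = Lw w (w.length + 2) + 2)) ∨
    (RCw w ∧ (s = Hw w (w.length + 2) ∨ s + 1 = Hw w (w.length + 2)))

instance (w : List Ltr) (s : ℕ) : Decidable (PenP w s) := by unfold PenP; infer_instance

/-- a single ancestor -/
def condB (w : List Ltr) (A : Finset ℕ) : Prop := A.card = 1 → ∀ s ∈ A, PenP w s

instance (w : List Ltr) (A : Finset ℕ) : Decidable (condB w A) := by
  unfold condB; infer_instance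

/-- the data of the sides of level `j + 1` -/
def ChkT (j : ℕ) (S : List (ℕ × ℕ × ℕ)) : Prop :=
  ∀ a ∈ range (j + 1), 2 ≤ a → ∀ w ∈ wds j a, w.length = j - a →
    ∀ A ∈ (Icc (Lw w (w.length + 3)) (Hw w (w.length + 3))).powerset, A.Nonempty →
      condA 1 w A → condB w A → (mA w A, dA w A, A.card - 1) ∈ S

instance (j : ℕ) (S : List (ℕ × ℕ × ℕ)) : Decidable (ChkT j S) := by
  unfold ChkT; infer_instance

section

variable {t : Tops P} {lo hi : ℕ → ℕ} {e : ℕ → ℕ → P} {a : ℕ}

/-- the position of a single ancestor -/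
theorem pos_pen (G : Win.GoodTo P r j) (hj : 2 ≤ j) (C : Cp.Comp j (t : P) lo hi e) {x : P}
    (hx : x ∈ onlyB t) (hlx : lev x = j + 1) (hc : (posA j lo hi e x).card = 1) :
    ∀ s ∈ posA j lo hi e x, (s = lo (j - 1) ∨ s = hi (j - 1) + 1) ∨
      (Win.LCO lo hi (j - 1) ∧ (s = lo (j - 1) + 1 ∨ s = lo (j - 1) + 2)) ∨
      (Win.RCO lo hi (j - 1) ∧ (s = hi (j - 1) ∨ s + 1 = hi (j - 1))) := by
  classical
  intro s hs
  have H := G.H
  obtain ⟨i, rfl⟩ : ∃ i, j = i + 1 := ⟨j - 1, by omega⟩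
  rw [show i + 1 - 1 = i by omega]
  obtain ⟨⟨b1, b2⟩, b3⟩ := mem_posA.mp hs
  have hle : lev (e (i + 1) s) = i + 1 := C.lev_e _ s le_rfl b1 b2
  have hcov : x ⋖ e (i + 1) s := H.covBy_iff.mpr
    ⟨lt_of_le_of_ne b3 (by intro h; rw [← h] at hle; omega), by omega⟩
  have huni : ∀ y, x ⋖ y → y = e (i + 1) s := by
    intro y hy
    have hly := (H.covBy_iff.mp hy).2
    obtain ⟨s', a1, a2, a3⟩ := C.surj y (onlyB_le (onlyB_up hx hy.1.le)) (by omega)
    rw [show lev y = i + 1 by omega] at a1 a2 a3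
    have hs' : s' ∈ posA (i + 1) lo hi e x :=
      mem_posA.mpr ⟨⟨a1, a2⟩, by rw [a3]; exact hy.1.le⟩
    obtain ⟨q, hq⟩ := Finset.card_eq_one.mp hc
    rw [hq, mem_singleton] at hs hs'
    rw [← a3, hs, hs']
  have huc : (Win.uc x).card = 1 := by
    have : Win.uc x = {e (i + 1) s} := by
      ext y
      rw [Win.mem_uc, mem_singleton]
      exact ⟨huni y, fun h => h ▸ hcov⟩
    rw [this, card_singleton]
  have hpen : 1 ≤ (Win.pen (e (i + 1) s)).card :=
    Finset.card_pos.mpr ⟨x, Win.mem_pen.mpr ⟨hcov, huc⟩⟩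
  have f1 := C.lo_step i (by omega)
  have f2 := C.hi_step i (by omega)
  by_cases hin : lo i < s ∧ s ≤ hi i
  · right
    rcases (Win.near_level' G (by omega)).2 t lo hi e t.2 C.toWin with ⟨-, -, g⟩ | ⟨g1, -, b, hb, g⟩ |
      ⟨g1, -, b, hb, g⟩
    · rw [g s hin.1 hin.2] at hpen
      omega
    · rw [g s hin.1 hin.2] at hpen
      split_ifs at hpen with hab
      · left
        exact ⟨g1, by omega⟩
      · omega
    · rw [g s hin.1 hin.2] at hpen
      split_ifs at hpen with hab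
      · right
        exact ⟨g1, by omega⟩
      · omega
  · left
    omega

/-- the side of a late component -/
theorem late_side' (G : Win.GoodTo P r j) (hj : 2 ≤ j) (C : Cp.Comp j (t : P) lo hi e)
    (h0 : 2 ≤ a) (h1 : a ≤ j) (h2 : ∀ k, k < a → lo k = 0 ∧ hi k = 0) (h3 : lo a = 0 ∧ hi a = 1)
    {x : P} (hx : x ∈ onlyB t) (hl : j ≤ lev x) (hend : lev x = j → (Win.uc x).card = 1)
    {W : List Ltr} (hW : word lo hi a (j - a) = W) :
    ∃ A ∈ (Icc (Lw W (W.length + 3)) (Hw W (W.length + 3))).powerset, A.Nonempty ∧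
      (∀ q, lev x = j + q → condA q W A) ∧ (lev x = j + 1 → condB W A) ∧
      mX j x = mA W A ∧ cX j x = dA W A ∧
      (nab j x : ℤ) - 1 = ((A.card - 1 : ℕ) : ℤ) := by
  classical
  have H := G.H
  have hg := G.good
  obtain ⟨d, rfl⟩ : ∃ d, j = a + d := ⟨j - a, by omega⟩
  rw [Nat.add_sub_cancel_left] at hW
  have hlen : W.length = d := by rw [← hW, word_length]
  have hL : ∀ n, n ≤ d → Lw W (n + 3) = lo (a + n) := by
    rw [← hW]
    exact lo_word (a := a) (d := d) C.lo_step h3.1 (hi := hi) le_rfl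
  have hH : ∀ n, n ≤ d → Hw W (n + 3) = hi (a + n) := by
    rw [← hW]
    exact hi_word (a := a) (d := d) C.hi_step h3.2 (lo := lo) le_rfl
  have hL' : ∀ n, n ≤ d + 3 → Lw W n = lo (a + n - 3) := by
    intro n hn
    rcases Nat.lt_or_ge n 3 with h | h
    · rw [(h2 (a + n - 3) (by omega)).1]
      unfold Lw
      rw [show n - 3 = 0 by omega]
      simp
    · obtain ⟨n', rfl⟩ : ∃ n', n = n' + 3 := ⟨n - 3, by omega⟩
      rw [hL n' (by omega)]
      rfl
  have hH' : ∀ n, n ≤ d + 3 → Hw W n = hi (a + n - 3) := by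
    intro n hn
    rcases Nat.lt_or_ge n 3 with h | h
    · rw [(h2 (a + n - 3) (by omega)).2]
      unfold Hw
      rw [if_pos h]
    · obtain ⟨n', rfl⟩ : ∃ n', n = n' + 3 := ⟨n - 3, by omega⟩
      rw [hH n' (by omega)]
      rfl
  have hpl : Lw W (W.length + 2) = lo (a + d - 1) := by
    rw [hlen, hL' _ (by omega)]
    rfl
  have hph : Hw W (W.length + 2) = hi (a + d - 1) := by
    rw [hlen, hH' _ (by omega)]
    rfl
  have hone : ∀ k, k < a → (nab k x : ℤ) - 1 = 0 := by
    intro k hk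
    rw [nab_one_of_eq C hx (by omega) (by omega) (by rw [(h2 k hk).1, (h2 k hk).2])]
    norm_num
  set A := posA (a + d) lo hi e x with hA
  have hxA : ∀ n, n < d → (nab (a + n) x : ℤ) - 1 = xA W A n := by
    intro n hn
    have h4 := nab_pos H hg C hx hl (k := a + n) (by omega)
    have h5 := one_le_nab (l := a + n) (z := x) (by omega)
    unfold xA
    rw [hL n hn.le, hH n hn.le, hlen, h4, ← hA, show a + d - (a + n) = d - n by omega]
    rw [h4, ← hA, show a + d - (a + n) = d - n by omega] at h5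
    omega
  have hcard := card_posA C hx
  have hnj := one_le_nab (l := a + d) (z := x) hl
  rw [hcard, ← hA] at hnj
  obtain ⟨c1, c2⟩ := pos_cond G hj C hx hl hend
  rw [← hA] at c1 c2
  refine ⟨A, ?_, Finset.card_pos.mp hnj, ?_, ?_, ?_, ?_, ?_⟩
  · rw [Finset.mem_powerset, hlen, hL d le_rfl, hH d le_rfl]
    intro s hs
    rw [hA, mem_posA] at hs
    exact mem_Icc.mpr hs.1
  · intro q hq
    refine ⟨fun hq0 => ?_, fun hq1 => ?_⟩
    · obtain ⟨g1, g2⟩ := c1 (by omega)
      refine ⟨g1, fun s hs => ?_⟩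
      unfold EndP
      rw [hpl, hph]
      exact g2 s hs
    · obtain ⟨g1, g2⟩ := c2 (by omega)
      refine ⟨g1, g2.imp id fun g s hs => ?_⟩
      unfold EndP
      rw [hpl, hph]
      exact g s hs
  · intro hlx hc s hs
    have g := pos_pen G hj C hx hlx hc s hs
    unfold PenP EndP LCw RCw
    rw [hlen, hL' _ (by omega), hL' _ (by omega), hL' _ (by omega), hH' _ (by omega),
      hH' _ (by omega), hH' _ (by omega)]
    rcases g with g | ⟨⟨g1, g2, g3, g4⟩, g5⟩ | ⟨⟨g1, g2, g3, g4⟩, g5⟩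
    · exact Or.inl g
    · right; left
      rw [show a + (d + 1) - 3 = a + d - 1 - 1 by omega, show a + d - 3 = a + d - 1 - 2 by omega,
        show a + (d + 2) - 3 = a + d - 1 by omega]
      exact ⟨⟨g2, g3⟩, g5⟩
    · right; right
      rw [show a + (d + 1) - 3 = a + d - 1 - 1 by omega, show a + d - 3 = a + d - 1 - 2 by omega,
        show a + (d + 2) - 3 = a + d - 1 by omega]
      exact ⟨⟨g2, g3⟩, g5⟩
  · unfold mX mA
    rw [Finset.sum_range_add, Finset.sum_eq_zero fun k hk => hone k (mem_range.mp hk), zero_add,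
      hlen, Nat.cast_sum]
    exact Finset.sum_congr rfl fun n hn => hxA n (mem_range.mp hn)
  · unfold cX dA
    rw [Finset.sum_range_add, Finset.sum_eq_zero fun k hk => by
      rw [hone k (mem_range.mp hk), zero_mul], zero_add, hlen, Nat.cast_sum]
    refine Finset.sum_congr rfl fun n hn => ?_
    rw [hxA n (mem_range.mp hn), Nat.cast_mul]
    rw [mem_range] at hn
    congr 1
    omega
  · rw [hcard, ← hA]
    omega

/-- the side of level `j + 1` of a late component in a list -/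
theorem late_mem' (G : Win.GoodTo P r j) (hj : 2 ≤ j) (C : Cp.Comp j (t : P) lo hi e)
    (h : LateC j lo hi a) {x : P} (hx : x ∈ onlyB t) (hl : lev x = j + 1)
    {S : List (ℕ × ℕ × ℕ)} (hS : ChkT j S) :
    ∃ m c b : ℕ, (m, c, b) ∈ S ∧ mX j x = m ∧ cX j x = c ∧ (nab j x : ℤ) - 1 = b := by
  obtain ⟨A, g1, g2, g3, g3', g4, g5, g6⟩ := late_side' G hj C h.two h.le h.low h.at_a hx
    (by omega) (fun hh => by omega) rfl
  exact ⟨_, _, _, hS a (mem_range.mpr (by have := h.le; omega)) h.two _ h.word (by simp) A g1 g2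
    (g3 1 hl) (g3' hl), g4, g5, g6⟩

end

/-- the data of a side of level `j + 1` -/
theorem Ctx.side1 {lo hi : Tops P → ℕ → ℕ} {e : Tops P → ℕ → ℕ → P} (K : Ctx P r j lo hi e) {x : P}
    (hx : x ∈ onlyB (topOf x)) (hl : lev x = j + 1) (hf : ¬ Fatt j x)
    {S : List (ℕ × ℕ × ℕ)} (hS : ChkT j S) (h0 : (0, 0, 0) ∈ S) :
    ∃ m c b : ℕ, (m, c, b) ∈ S ∧ mX j x = m ∧ cX j x = c ∧ (nab j x : ℤ) - 1 = b := by
  have h5 := K.h5
  rcases K.cases hx (by omega) (fun h => by omega) hf with h | h | ⟨a, h, -⟩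
  · have := h.1
    omega
  · refine ⟨0, 0, 0, h0, h.mX.1, h.mX.2, ?_⟩
    rw [h j le_rfl]
    norm_num
  · exact late_mem' K.gt (by omega) (K.comp _) h hx hl hS

end Pool.Agent.GaussPoset.Sm

end

/-! From `Pool.Agent.W_448s7s_h5.SrB` -/

section

/-!
# S7 for `j ≤ 16`: the tables with the refined sides, without fold ends (MP_448cb3_co)
-/

namespace Pool.Agent.GaussPoset.Sm

set_option linter.unusedSectionVars false

open Finset Wd

universe u

variable {P : Type u} [Fintype P] [PartialOrder P] [DecidableEq P] {r j w : ℕ}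

variable {lo hi : Tops P → ℕ → ℕ} {e : Tops P → ℕ → ℕ → P}

/-- for `j < 12` the joins of level `j + 1` at a fold end are excluded -/
def NoFo (P : Type u) [Fintype P] [PartialOrder P] [DecidableEq P] (j : ℕ) : Prop :=
  j < 12 → ∀ z x x' : P, Cg z x x' → lev z = j + 1 → ¬ Fold j x

/-- pairs with the end `s` -/
def XE (s0 s s' : ℕ × ℕ × ℕ) : Bool := s == s0 || s' == s0

/-- the tables; `X` = the excluded pairs of ends -/
structure Tab' (j W : ℕ) (cap : ℕ → ℤ) (tab : List (List ℤ)) (E S1 S2 : List (ℕ × ℕ × ℕ))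
    (X : ℕ × ℕ × ℕ → ℕ × ℕ × ℕ → Bool) : Prop where
  wj : W < j
  e : ChkE j E
  s1 : ChkT j S1
  s2 : ChkS j 2 S2
  e0 : (0, 0, 0) ∈ E
  s10 : (0, 0, 0) ∈ S1
  s20 : (0, 0, 0) ∈ S2
  c0 : chk0 j W cap tab E X = true
  c1 : chk1 j W cap tab S1 = true
  c2 : chk2 j W cap tab S2 = true
  cb : chkB j W cap S2 = true

/-- the data of a join of level `j + 1` -/
theorem Ctx.pair' (K : Ctx P r j lo hi e) {E : List (ℕ × ℕ × ℕ)} (hE : ChkE j E)
    (h0 : (0, 0, 0) ∈ E) (hf : NoFo P j)
    {z x x' : P} (h : Cg z x x') (hlz : lev z = j + 1) (hs : Sok j x) (hs' : Sok j x') :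
    ∃ s s', s ∈ E ∧ s' ∈ E ∧ Dt j x s ∧ Dt j x' s' ∧
      kapZ j z = (s.1 : ℤ) + s'.1 ∧ gZ j z = -((s.2.1 : ℤ) + s'.2.1) := by
  have H := K.gt.H
  obtain ⟨l1, l2⟩ := h.lev_eq H
  obtain ⟨k1, k2, k3, k4, k5, k6⟩ := h.line H hlz.ge
  have hqz : (lev z : ℤ) - (j + 1) = 0 := by rw [hlz]; push_cast; ring
  rw [hqz] at k1 k2 k5
  obtain ⟨u1, u2⟩ := K.ends h hlz
  have hF : ∀ y y' : P, Cg z y y' → Sok j y → Fold j y → (fm j, fc j, 1) ∈ E := by
    intro y y' hyy hy hfy
    rcases Nat.lt_or_ge j 12 with h12 | h12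
    · exact absurd hfy (hf h12 z y y' hyy hlz)
    · exact absurd hfy (hy.2 h12)
  obtain ⟨s, g1, g2, g3, g4⟩ := K.endd h.only (by omega) u1 hE h0 (hF x x' h hs)
  obtain ⟨s', g1', g2', g3', g4'⟩ := K.endd h.only' (by omega) u2 hE h0 (hF x' x h.symm hs')
  obtain ⟨n0, d0⟩ := k6 (by omega)
  have hn : (nab j x : ℤ) = 1 ∧ (nab j x' : ℤ) = 1 := by
    constructor
    · rw [show j = lev x by omega, nab_self]; norm_num
    · rw [show j = lev x' by omega, nab_self]; norm_num
  refine ⟨s, s', g1, g1', ⟨g2, g3, g4⟩, ⟨g2', g3', g4'⟩, ?_, ?_⟩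
  · rw [k1, n0, hn.1, hn.2, g2, g2']
    ring
  · rw [k2, d0, g3, g3']
    ring

/-- **the cheap lines are in the table** -/
theorem Ctx.mem_tab' (K : Ctx P r j lo hi e) {X : ℕ × ℕ × ℕ → ℕ × ℕ × ℕ → Bool} (hN : NoP P j X)
    (hF : NoFo P j)
    {W : ℕ} {cap : ℕ → ℤ} {tab : List (List ℤ)} {E S1 S2 : List (ℕ × ℕ × ℕ)}
    (T : Tab' j W cap tab E S1 S2 X)
    {z x x' : P} (h : Cg z x x') (hs : Sok j x) (hs' : Sok j x') (hw : w ≤ W)
    (hc : kapZ j z * (j - w) + gZ j z ≤ cap w) : aT tab (kapZ j z) (gZ j z) = true := by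
  have H := K.gt.H
  have hl := K.lev_ge h
  obtain ⟨l1, l2⟩ := h.lev_eq H
  obtain ⟨k1, k2, k3, k4, k5, k6⟩ := h.line H hl
  obtain ⟨q, hq⟩ : ∃ q, lev z = j + 1 + q := ⟨lev z - (j + 1), by omega⟩
  have hqz : (lev z : ℤ) - (j + 1) = q := by rw [hq]; push_cast; ring
  rw [hqz] at k1 k2 k5
  rcases Nat.lt_or_ge q 1 with h0 | h0
  · -- level `j + 1`
    have hlz : lev z = j + 1 := by omega
    obtain ⟨s, s', g1, g1', d1, d1', e1, e2⟩ := K.pair' T.e T.e0 hF h hlz hs hs'
    have h1 := T.c0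
    unfold chk0 at h1
    rw [List.all_eq_true] at h1
    have h2 := h1 _ g1
    rw [List.all_eq_true] at h2
    have h3 := h2 _ g1'
    rw [hN z x x' h hlz s s' d1 d1', Bool.false_or] at h3
    rw [e1, e2] at hc ⊢
    exact okL_at h3 hw hc
  · rcases Nat.lt_or_ge q 2 with h1q | h1q
    · obtain rfl : q = 1 := by omega
      obtain ⟨m, c, b, g1, g2, g3, g4⟩ := K.side1 h.only (by omega) hs.1 T.s1 T.s10
      obtain ⟨m', c', b', g1', g2', g3', g4'⟩ := K.side1 h.only' (by omega) hs'.1 T.s1 T.s10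
      obtain ⟨n0, d0⟩ := k6 (by omega)
      have e1 : kapZ j z = 2 + ((m : ℤ) + m') + ((b : ℤ) + b') := by
        rw [k1, n0, g4, g4', g2, g2']
        push_cast; ring
      have e2 : gZ j z = 3 - ((c : ℤ) + c') := by
        rw [k2, d0, g3, g3']
        push_cast; ring
      have h1 := T.c1
      unfold chk1 at h1
      rw [List.all_eq_true] at h1
      have h2 := h1 _ g1
      rw [List.all_eq_true] at h2
      have h3 := h2 _ g1'
      rw [e1, e2] at hc ⊢
      exact okL_at h3 hw hc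
    · have hp : ∀ y : P, lev y = j + q → 2 = min q 2 := fun _ _ => by omega
      obtain ⟨m, c, b, g1, g2, g3, g4⟩ := K.side h.only (by omega) hs.1 (q := q) (by omega)
        (p := 2) (by omega) T.s2 T.s20
      obtain ⟨m', c', b', g1', g2', g3', g4'⟩ := K.side h.only' (by omega) hs'.1 (q := q) (by omega)
        (p := 2) (by omega) T.s2 T.s20
      obtain ⟨n, hn⟩ : ∃ n : ℕ, nJ j z = n := ⟨(nJ j z).toNat, (Int.toNat_of_nonneg k3).symm⟩
      obtain ⟨d, hd⟩ : ∃ d : ℕ, dJ j z = d :=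
        ⟨(dJ j z).toNat, (Int.toNat_of_nonneg (k3.trans k4)).symm⟩
      rw [hn, hd] at k4 k5
      have e1 : kapZ j z = 2 * (q : ℤ) + ((m : ℤ) + m') + ((b : ℤ) + b') + n := by
        rw [k1, hn, g4, g4', g2, g2']
      have e2 : gZ j z = (q : ℤ) * q + 2 * q - ((c : ℤ) + c') + d := by
        rw [k2, hd, g3, g3']
      have hB := T.cb
      unfold chkB at hB
      rw [List.all_eq_true] at hB
      have hB1 := hB w (List.mem_range.mpr (by omega))
      rw [Bool.and_eq_true, decide_eq_true_eq, List.all_eq_true] at hB1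
      have b1 := hB1.2 _ g1
      have b2 := hB1.2 _ g1'
      rw [decide_eq_true_eq] at b1 b2
      simp only at b1 b2
      have hjw : (0 : ℤ) < (j : ℤ) - w := by
        have := T.wj
        omega
      have e5 : kapZ j z * ((j : ℤ) - w) + gZ j z =
          (2 * (q : ℤ) + ((b : ℤ) + b') + n) * ((j : ℤ) - w) +
            (m * ((j : ℤ) - w) - c) + (m' * ((j : ℤ) - w) - c') + (q : ℤ) * q + 2 * q + d := by
        rw [e1, e2]; ring
      have hqn : 2 * q + n ≤ 8 := by
        by_contra hcon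
        push Not at hcon
        have e6 : (9 : ℤ) ≤ 2 * (q : ℤ) + ((b : ℤ) + b') + n := by
          have : (9 : ℤ) ≤ 2 * (q : ℤ) + n := by exact_mod_cast hcon
          have := Int.natCast_nonneg b
          have := Int.natCast_nonneg b'
          linarith
        have e7 : 9 * ((j : ℤ) - w) ≤ (2 * (q : ℤ) + ((b : ℤ) + b') + n) * ((j : ℤ) - w) :=
          mul_le_mul_of_nonneg_right e6 hjw.le
        have e8 : (0 : ℤ) ≤ (q : ℤ) * q + 2 * q + d := by positivity
        linarith [hB1.1]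
      have h1 := T.c2
      unfold chk2 at h1
      rw [List.all_eq_true] at h1
      have h2 := h1 _ g1
      rw [List.all_eq_true] at h2
      have h3 := h2 _ g1'
      rw [List.all_eq_true] at h3
      have h4 := h3 q (List.mem_range.mpr (by omega))
      rw [Bool.or_eq_true, decide_eq_true_eq] at h4
      have h5 := h4.resolve_left (by omega)
      rw [List.all_eq_true] at h5
      have h6 := h5 n (List.mem_range.mpr (by omega))
      rw [List.all_eq_true] at h6
      have k5' : d ≤ (q - 1) * n := by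
        have : (d : ℤ) ≤ ((q - 1 : ℕ) : ℤ) * n := by
          rw [Nat.cast_sub (by omega)]
          exact_mod_cast k5
        exact_mod_cast this
      have h7 := h6 d (List.mem_range.mpr (by omega))
      rw [Bool.or_eq_true, decide_eq_true_eq] at h7
      have h8 := h7.resolve_left (by
        have : (n : ℤ) ≤ d := k4
        have : n ≤ d := by exact_mod_cast this
        omega)
      rw [e1, e2] at hc ⊢
      exact okL_at h8 hw hc

/-- **The bounds of the checker hold for the lines of the joins of level `j + 1`.** -/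
theorem Ctx.bounds' (K : Ctx P r j lo hi e) {X : ℕ × ℕ × ℕ → ℕ × ℕ × ℕ → Bool} (hN : NoP P j X)
    (hF : NoFo P j)
    {W : ℕ} {cap : ℕ → ℤ} {tab : List (List ℤ)} {E S1 S2 : List (ℕ × ℕ × ℕ)}
    (T : Tab' j W cap tab E S1 S2 X)
    {nO nE : ℕ → ℤ → Bool} {lb : ℕ → ℤ}
    (hB : ∀ w ≤ W, ∃ V, WinB P j w (cap w) (nO w) (nE w) (lb w) V) (N R : ℕ)
    {z x x' : P} (h : Cg z x x') (hs : Sok j x) (hs' : Sok j x') :
    Chk.above (kapZ j z) (gZ j z) (rnds (aT tab) nO nE cap (odds tab.length) (evens tab.length) j N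
      (W + 1) R ((List.range (W + 1)).map fun w => min (lb w) (cap w + 1))) j = true := by
  classical
  have hB' : ∀ w, ∃ V, w ≤ W → WinB P j w (cap w) (nO w) (nE w) (lb w) V := by
    intro w
    by_cases hw : w ≤ W
    · obtain ⟨V, hV⟩ := hB w hw
      exact ⟨V, fun _ => hV⟩
    · exact ⟨0, fun h => absurd h hw⟩
  choose V hV using hB'
  have hS : Sys (j : ℤ) W cap (aT tab) nO nE (odds tab.length) (evens tab.length) V
      (fun κ g => ∃ z x x' : P, Cg z x x' ∧ Sok j x ∧ Sok j x' ∧ κ = kapZ j z ∧ g = gZ j z) := by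
    refine ⟨?_, ?_, ?_, ?_⟩
    · rintro κ g ⟨z, x, x', h, hs, hs', rfl, rfl⟩ w hw he hc
      have h1 := K.mem_tab' hN hF T h hs hs' hw (by rw [he]; exact hc)
      exact ⟨h1, aT_mem h1⟩
    · rintro κ g ⟨z, x, x', h, hs, hs', rfl, rfl⟩ w hw
      exact (hV w hw).mn z x x' h hs hs'
    · intro w hw hc
      rcases (hV w hw).od hc with ⟨z, x, x', h1, h2, h3, h4, h5⟩ | h1
      · exact Or.inl ⟨_, _, ⟨z, x, x', h1, h2, h3, rfl, rfl⟩, h4, h5⟩
      · exact Or.inr h1
    · intro w hw hc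
      rcases (hV w hw).ev hc with ⟨z, x, x', h1, h2, h3, h4, h5⟩ | h1
      · exact Or.inl ⟨_, _, ⟨z, x, x', h1, h2, h3, rfl, rfl⟩, h4, h5⟩
      · exact Or.inr h1
  refine hS.target N R ?_ ⟨z, x, x', h, hs, hs', rfl, rfl⟩
  refine ⟨by simp, fun w hw => ?_⟩
  rw [List.getD_eq_getElem?_getD, List.getElem?_map, List.getElem?_range (by omega)]
  simp only [Option.map_some, Option.getD_some]
  rcases le_or_gt (V w) (cap w) with h1 | h1
  · exact (min_le_left _ _).trans ((hV w hw).lo h1)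
  · exact (min_le_right _ _).trans (by omega)

/-- **the pairs of ends which are left** -/
theorem Ctx.left' (K : Ctx P r j lo hi e) {X : ℕ × ℕ × ℕ → ℕ × ℕ × ℕ → Bool} (hN : NoP P j X)
    (hF : NoFo P j)
    {W : ℕ} {cap : ℕ → ℤ} {tab : List (List ℤ)} {E S1 S2 : List (ℕ × ℕ × ℕ)}
    (T : Tab' j W cap tab E S1 S2 X)
    {nO nE : ℕ → ℤ → Bool} {lb : ℕ → ℤ}
    (hB : ∀ w ≤ W, ∃ V, WinB P j w (cap w) (nO w) (nE w) (lb w) V) (N R : ℕ)
    {z x x' : P} (h : Cg z x x') (hl : lev z = j + 1) (hs : Sok j x) (hs' : Sok j x') :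
    ∃ s s', (s, s') ∈ rest j E X (ubd j W cap lb tab nO nE N R) ∧ Dt j x s ∧ Dt j x' s' := by
  obtain ⟨s, s', g1, g1', d1, d1', e1, e2⟩ := K.pair' T.e T.e0 hF h hl hs hs'
  refine ⟨s, s', ?_, d1, d1'⟩
  have h1 := K.bounds' hN hF T hB N R h hs hs'
  rw [e1, e2] at h1
  unfold rest
  rw [List.mem_flatMap]
  refine ⟨s, g1, ?_⟩
  rw [List.mem_map]
  refine ⟨s', ?_, rfl⟩
  rw [List.mem_filter]
  refine ⟨g1', ?_⟩
  rw [hN z x x' h hl s s' d1 d1', Bool.not_false, Bool.true_and]
  exact h1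

end Pool.Agent.GaussPoset.Sm

end

/-! From `Pool.Agent.W_448s7_h27.PhA` -/

section

/-!
The sides of joins in early components, exact form (MP_448cb3_co, S7).
-/

namespace Pool.Agent.GaussPoset.Sm

set_option linter.unusedSectionVars false

open Finset Wd

universe u

variable {P : Type u} [Fintype P] [PartialOrder P] [DecidableEq P] {r j w : ℕ}

/-- two elements above on the levels `2, …, j - 1`, or the profile of the fold end -/
def FatT (j : ℕ) (x : P) : Prop :=
  (∀ k, 2 ≤ k → k + 1 ≤ j → 2 ≤ nab k x) ∨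
    (j % 2 = 0 ∧ ∀ k, k ≤ j → k / 2 + 1 ≤ nab k x + (k - j / 2))

section

open Cp

variable {t : Tops P} {lo hi : ℕ → ℕ} {e : ℕ → ℕ → P}

lemma rect_fat (H : Gr P r) {co : P → ℕ × ℕ}
    (C : Chart (t : P) (fun _ => True) (lowPart j (t : P)) co) {x : P}
    (hx : x ∈ onlyB t) (hl : j ≤ lev x) :
    (∀ k, k ≤ j → nab k x = 1) ∨ (∀ k, 2 ≤ k → k + 1 ≤ j → 2 ≤ nab k x) := by
  classical
  have hstr : ∀ q ∈ lowPart j (t : P), lev q = j → ((co q).1 = 0 ∨ (co q).2 = 0) →
      ∀ k, k ≤ j → nab k q = 1 := by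
    intro q hq hlq h0 k hk
    have h1 := rect_nab C hq (k := k) (by omega)
    have h2 := C.lev q hq
    omega
  by_cases hin : ∃ q, x ≤ q ∧ lev q = j ∧ 1 ≤ (co q).1 ∧ 1 ≤ (co q).2
  · obtain ⟨q, h1, h2, h3, h4⟩ := hin
    have hq := low_anc hx h1 h2
    right
    intro k hk hk2
    refine le_trans ?_ (nab_mono h1)
    have h3 := rect_nab C hq (k := k) (by omega)
    have h4 := C.lev q hq
    omega
  · push Not at hin
    have hst : ∀ q, x ≤ q → lev q = j → (co q).1 = 0 ∨ (co q).2 = 0 := by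
      intro q h1 h2
      have := hin q h1 h2
      omega
    obtain ⟨q, h1, h2, h3⟩ := exists_between H.gradedBelow (z := x) (s := (t : P)) (onlyB_le hx)
      (l := j) (by have := t.2; omega) hl
    by_cases huni : ∀ q', x ≤ q' → lev q' = j → q' = q
    · left
      intro k hk
      rw [nab_through H h1 h3 huni hk]
      exact hstr q (low_anc hx h1 h3) h3 (hst q h1 h3) k hk
    · push Not at huni
      obtain ⟨q', h1', h3', hne⟩ := huni
      right
      have hq := low_anc hx h1 h3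
      have hq' := low_anc hx h1' h3'
      have key : ∀ a a' : P, x ≤ a → x ≤ a' → a ∈ lowPart j (t : P) → a' ∈ lowPart j (t : P) →
          lev a = j → lev a' = j → (co a).1 = 0 → (co a').2 = 0 → ∀ k, 2 ≤ k → k + 1 ≤ j →
          2 ≤ nab k x := by
        intro a a' hxa hxa' ha ha' hla hla' h0 h0' k hk hk2
        have l1 := C.lev a ha
        have l2 := C.lev a' ha'
        obtain ⟨y, hy, hcy⟩ := C.low a ha (0, k) ⟨Nat.zero_le _, by simp only; omega⟩ trivial
        obtain ⟨y', hy', hcy'⟩ := C.low a' ha' (k, 0) ⟨by simp only; omega, Nat.zero_le _⟩ trivial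
        have ly := C.lev y hy
        have ly' := C.lev y' hy'
        rw [hcy] at ly
        rw [hcy'] at ly'
        simp only at ly ly'
        refine two_le_nab (x := y) (y := y') (hxa.trans ?_) (hxa'.trans ?_) (by omega) (by omega) ?_
        · rw [C.le_iff a ha y hy, hcy]
          exact ⟨Nat.zero_le _, by simp only; omega⟩
        · rw [C.le_iff a' ha' y' hy', hcy']
          exact ⟨by simp only; omega, Nat.zero_le _⟩
        · rintro rfl
          rw [hcy] at hcy'
          simp only [Prod.mk.injEq] at hcy'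
          omega
      have l1 := C.lev q hq
      have l2 := C.lev q' hq'
      rcases hst q h1 h3 with s1 | s1
      · rcases hst q' h1' h3' with s2 | s2
        · exact absurd (C.inj q' hq' q hq (Prod.ext (by omega) (by omega))) hne
        · exact key q q' h1 h1' hq hq' h3 h3' s1 s2
      · rcases hst q' h1' h3' with s2 | s2
        · exact key q' q h1' h1 hq' hq h3' h3 s2 s1
        · exact absurd (C.inj q' hq' q hq (Prod.ext (by omega) (by omega))) hne

lemma stair_fat (H : Gr P r) {co : P → ℕ × ℕ}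
    (C : Chart (t : P) (fun c => c.1 ≤ c.2) (lowPart j (t : P)) co) {x : P}
    (hx : x ∈ onlyB t) (hl : j ≤ lev x) :
    (∀ k, k ≤ j → nab k x = 1) ∨ FatT j x := by
  classical
  by_cases hin : ∃ q, x ≤ q ∧ lev q = j ∧ 1 ≤ (co q).1
  · obtain ⟨q, h1, h2, h3⟩ := hin
    have hq := low_anc hx h1 h2
    have hm : (co q).1 ≤ (co q).2 := C.mem q hq
    have hlq := C.lev q hq
    right
    rcases Nat.lt_or_ge (co q).1 (co q).2 with h4 | h4
    · left
      intro k hk hk2
      refine le_trans ?_ (nab_mono h1)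
      have h5 := stair_nab C hq (k := k) (by omega)
      omega
    · right
      refine ⟨by omega, fun k hk => ?_⟩
      have h5 := stair_nab C hq (k := k) (by omega)
      have h6 : (co q).2 = j / 2 := by omega
      have h7 := nab_mono (l := k) h1
      rw [h6] at h5
      omega
  · push Not at hin
    left
    obtain ⟨q, h1, h2, h3⟩ := exists_between H.gradedBelow (z := x) (s := (t : P)) (onlyB_le hx)
      (l := j) (by have := t.2; omega) hl
    have hq := low_anc hx h1 h3
    have hlq := C.lev q hq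
    have h4 := hin q h1 h3
    intro k hk
    rw [nab_through H h1 h3 (fun q' h1' h3' => by
      have hq' := low_anc hx h1' h3'
      have hlq' := C.lev q' hq'
      have h4' := hin q' h1' h3'
      exact C.inj q' hq' q hq (Prod.ext (by omega) (by omega))) hk]
    have h5 := stair_nab C hq (k := k) (by omega)
    omega

end

variable {lo hi : Tops P → ℕ → ℕ} {e : Tops P → ℕ → ℕ → P}

/-- sides: straight, in a late component, or fat -/
theorem Ctx.cases_fat (K : Ctx P r j lo hi e) {x : P} (hx : x ∈ onlyB (topOf x))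
    (hl : j ≤ lev x) :
    Strt j x ∨ (∃ a, LateC j (lo (topOf x)) (hi (topOf x)) a ∧ (j ≠ 6 → 3 ≤ a)) ∨ FatT j x := by
  have H := K.gt.H
  have h5 := K.h5
  have hg := K.gt.good
  have hstair : ∀ (lo hi : ℕ → ℕ) (e : ℕ → ℕ → P), Cp.Comp j (topOf x : P) lo hi e →
      StairShape j lo hi → Strt j x ∨ FatT j x := by
    intro lo hi e C S
    exact stair_fat H (chart_stair C H hg S) hx hl
  rcases shape_cases (K.comp (topOf x)) h5 (K.shape (topOf x)) with h | (h | h) | h
  · exact Or.inl fun k hk => nab_one_of_eq (K.comp (topOf x)) hx hk (by omega) (h k hk)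
  · rcases rect_fat H (chart_rect (K.comp _) H hg h) hx hl with h1 | h1
    · exact Or.inl h1
    · exact Or.inr (Or.inr (Or.inl h1))
  · rcases hstair _ _ _ (K.comp _) h with h1 | h1
    · exact Or.inl h1
    · exact Or.inr (Or.inr h1)
  · exact Or.inr (Or.inl h)

end Pool.Agent.GaussPoset.Sm

end

/-! From `Pool.Agent.W_448s7_h27.PnB` -/

section

/-!
S7 for `j = 11, 13, 14` (MP_448cb3_co): final forms, from the windows `2`, `3` and from the pairs
of ends without a join.
-/

namespace Pool.Agent.GaussPoset.Sm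

set_option linter.unusedSectionVars false

open Finset Wd Ec W4

universe u

variable {P : Type u} [Fintype P] [PartialOrder P] [DecidableEq P] {r j : ℕ}
  {lo hi : Tops P → ℕ → ℕ} {e : Tops P → ℕ → ℕ → P}

/-- no join of level `j + 1` has the data `s`, `s'` of its ends -/
def NoPr (P : Type u) [Fintype P] [PartialOrder P] [DecidableEq P] (j : ℕ)
    (s s' : ℕ × ℕ × ℕ) : Prop :=
  ∀ z x x' : P, Cg z x x' → lev z = j + 1 → Dt j x s → Dt j x' s' → False

end Pool.Agent.GaussPoset.Sm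

end
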