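import Mathlib
import Pool.Agent.W_448zz_h61.Ns
import Pool.Agent.W_448zz_h61.M061
import Pool.Agent.W_448zz_h61.M062
import Pool.Agent.W_448zz_h61.M075

/-! From `Pool.Agent.W_448s7s_h5.SkQ` -/

section

/-!
# The windows of S7 with a cap: own values, elements below a cell of row `1` (MP_448cb3_co)
-/

namespace Pool.Agent.GaussPoset.Sm

set_option linter.unusedSectionVars false

open Polynomial Finset

universe u

variable {P : Type u} [Fintype P] [PartialOrder P] [DecidableEq P] {r j w K : ℕ}
  {N : Tops P → Finset P} {b : Tops P → ℕ} {θ : Tops P → P → ℕ} {XE XO : ℕ → Prop}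

/-- the outcomes for a cheapest element `z` with the label `h z` and the cost `v` -/
def OutK (j w K : ℕ) (XE XO : ℕ → Prop) (h : P → ℕ) (z : P) (v : ℕ) : Prop :=
  K < v ∨ (nab w z = nab (w + h z) z + 1 ∧
    ((Even (nst w h z) ∧ (EvN j w v ∨ XE v)) ∨ (Odd (nst w h z) ∧ (OdN j w v ∨ XO v)) ∨
      (∃ x x', Cg z x x' ∧ Sok j x ∧ Sok j x') ∧ v = ful w z ∧ h z = lev z - w))

/-- a flat cheapest element below a cell of row `1` -/
theorem Wk.row1_out (W : Wk r j w K N b θ) {v : ℕ} {z : P} (hz : z ∈ bdR (rA N))
    (hc : cst w (hA N θ) z = v) (hF : Flat j w N θ z) (hge : lev z ≤ hA N θ z + 1 + w) {x : P}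
    (hzx : z ⋖ x) (hR : Row1 j w N θ x) : OutK j w K XE XO (hA N θ) z v := by
  classical
  have H := W.gt.H
  have hj := W.hj
  have hw := W.hw
  have hzR := (mem_bdR.mp hz).1
  have hlz := W.bd_lev hz
  have e1 := (H.covBy_iff.mp hzx).2
  have hx := (hF x hzx).1
  have hbs : GaussPoset.bs N x = x := by
    unfold GaussPoset.bs
    rw [if_neg (W.not_tw hx)]
  have hle := W.hA_le (not_mem_rA.mpr (Or.inl hx)) hzx
  rw [hbs] at hle
  have hRt := hR.th
  obtain ⟨a, ha⟩ : ∃ a, lev x = w + a := ⟨lev x - w, by omega⟩
  have hha : hA N θ z = a := by omega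
  have h1w := hR.one_le
  by_cases honly : ∀ y, z ⋖ y → y = x
  · -- a pendant
    have hlx : lev x ≠ j := fun h => hR.nopen h z hzx honly
    right
    refine ⟨?_, Or.inl ⟨?_, Or.inl ⟨h1w, Or.inr (Or.inl ⟨a - (j + 1 - w), Or.inl ?_⟩)⟩⟩⟩
    · rw [hha, ← ha, nab_only honly hzx (by omega), hR.nab w le_rfl (by omega),
        nab_only honly hzx (by omega), nab_self]
    · rw [nst_eq, hha, Finset.sum_congr rfl (g := fun _ => 2)]
      · rw [Finset.sum_const, card_range]
        exact ⟨a, by simp only [smul_eq_mul]; ring⟩
      · intro k hk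
        rw [mem_range] at hk
        rw [nab_only honly hzx (by omega), hR.nab _ (by omega) (by omega)]
    · rw [← hc, cst_only H.gradedBelow hzx honly, hha, cst_eq_ful (by omega),
        ful_two ha (fun k hk1 hk2 => hR.nab k hk1.le hk2)]
      rw [show j + 1 - w + (a - (j + 1 - w)) = a by omega, Nat.min_eq_left (by omega)]
      ring
  · -- a pair
    push Not at honly
    obtain ⟨x', hzx', hne'⟩ := honly
    have hne : x ≠ x' := Ne.symm hne'
    have e2 := (H.covBy_iff.mp hzx').2
    have hx' := (hF x' hzx').1
    have hlx : lev x ≠ j := by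
      intro h
      have := (W.near hzR (by omega) hzx hzx' hne).1
      have := hR.dbl
      omega
    left
    have h3 : ∀ k, 2 ≤ k → w ≤ k → k < lev x → 3 ≤ nab k z := fun k hk1 hk2 hk3 =>
      W.row1_three hzR hx hx' hzx hzx' hne hR (hF x' hzx').2 hk1 hk2 hk3
    have h4 : 2 ≤ nab (lev x) z := two_le_nab hzx.1.le hzx'.1.le rfl (by omega) hne
    have h5 : ∑ n ∈ range a, n * 3 + a * 2 + a ≤ v := by
      rw [← hc, cst_shift (a := a + 1) (by omega), Finset.sum_range_succ
        (fun n => min (hA N θ z) n * nab (w + n) z), Finset.sum_range_succ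
        (fun n => min (hA N θ z) n * nab (w + n) z), hha]
      refine Nat.add_le_add (Nat.add_le_add ?_ ?_) ?_
      · refine Finset.sum_le_sum fun n hn => ?_
        rw [mem_range] at hn
        rw [Nat.min_eq_right hn.le]
        rcases Nat.eq_zero_or_pos n with h0 | h0
        · subst h0; simp
        · exact Nat.mul_le_mul_left _ (h3 _ (by omega) (by omega) (by omega))
      · rw [Nat.min_self, ← ha]
        exact Nat.mul_le_mul_left _ h4
      · rw [show w + (a + 1) = lev z by omega, nab_self, mul_one]
        exact Nat.le_min.mpr ⟨le_rfl, by omega⟩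
    have h6 := Finset.sum_range_id_mul_two a
    rw [← Finset.sum_mul] at h5
    have hK := W.hK
    have h7 : (j + 1 - w) ^ 2 ≤ a ^ 2 := Nat.pow_le_pow_left (by omega) 2
    have h8 : a * (a - 1) + a = a ^ 2 := by
      obtain ⟨c, rfl⟩ : ∃ c, a = c + 1 := ⟨a - 1, by omega⟩
      rw [Nat.add_sub_cancel]
      ring
    omega

end Pool.Agent.GaussPoset.Sm

end

/-! From `Pool.Agent.W_448s7s_h5.SkU` -/

section

/-!
# The windows of S7 with a cap: straight covers below two tops (MP_448cb3_co)
-/

namespace Pool.Agent.GaussPoset.Sm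

set_option linter.unusedSectionVars false

open Polynomial Finset

universe u

variable {P : Type u} [Fintype P] [PartialOrder P] [DecidableEq P] {r j w K : ℕ}
  {N : Tops P → Finset P} {b : Tops P → ℕ} {θ : Tops P → P → ℕ} {XE XO : ℕ → Prop}

/-- the strips which are light at window `w` have one element of level `w` -/
def Unq (P : Type u) [Fintype P] [PartialOrder P] [DecidableEq P] (w : ℕ) (b : Tops P → ℕ) : Prop :=
  ∀ t : Tops P, b t = 1 → ∀ x y : P, x ≤ (t : P) → y ≤ (t : P) → lev x = w → lev y = w → x = y

/-- straight natural elements -/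
lemma Wk.str_nab (W : Wk r j w K N b θ) (L : Unq P w b) {x : P} (hx : x ∉ unnat N)
    (hS : Str w N θ x) (hl : j ≤ lev x) : nab w x = 1 := by
  classical
  have H := W.gt.H
  have HN := W.natSys
  have hg := W.gt.good
  have hj := W.hj
  have hw := W.hw
  have hxt : x ∈ N (topOf x) := HN.mem_iff.mpr ⟨hx, rfl⟩
  have hth := hS.th
  generalize topOf x = t at hxt hth
  rcases W.typ t with ⟨g1, g2, g3, g5⟩ | ⟨Nc, co, h0, g1, g2, g4⟩ |
    ⟨Nc, co, h0, g1, g2, g3, g4, g5'⟩
  · rw [g1] at hxt
    refine le_antisymm ?_ (one_le_nab (by omega))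
    unfold nab
    rw [Finset.card_le_one]
    intro y hy y' hy'
    rw [mem_filter, mem_lv] at hy hy'
    exact L t g3 y y' (onlyB_le (onlyB_up hxt hy.2)) (onlyB_le (onlyB_up hxt hy'.2)) hy.1 hy'.1
  · rw [g1] at hxt
    rw [g2] at hth
    rcases rect_str7 h0 hw hxt (by omega) hth with h | h
    · exact h.nab_one rowT_true h0.chart H hg h0.strip h0.one1 (by omega) (by omega)
    · exact h.nab_one rowT_true h0.chart.swap H hg h0.strip h0.one2 (by omega) (by omega)
  · rw [g1] at hxt
    rw [g2] at hth
    have h := stair_str7 h0 hw g4 hxt (by omega) hth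
    exact h.nab_one rowT_shift h0.chart H hg h0.strip (h0.one1 g4) (by omega) (by omega)

/-- straight covers below two tops -/
theorem Wk.cross_out (W : Wk r j w K N b θ) (L : Unq P w b)
    (F : ∀ z x x' : P, Cg z x x' → j + 1 ≤ lev z → nab w x = 1 → ¬ Sok j x → K < ful w z)
    {v : ℕ} {z : P}
    (hz : z ∈ bdR (rA N)) (hh : hA N θ z = lev z - w) (hc : cst w (hA N θ) z = v) {x x' : P}
    (hx : x ∉ unnat N) (hx' : x' ∉ unnat N) (hS : Str w N θ x) (hS' : Str w N θ x')
    (hzx : z ⋖ x) (hzx' : z ⋖ x') (htt : topOf x ≠ topOf x') :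
    OutK j w K XE XO (hA N θ) z v := by
  classical
  have H := W.gt.H
  have HN := W.natSys
  have hj := W.hj
  have hw := W.hw
  have hlz := W.bd_lev hz
  have e1 := (H.covBy_iff.mp hzx).2
  have e2 := (H.covBy_iff.mp hzx').2
  have hxt : x ∈ N (topOf x) := HN.mem_iff.mpr ⟨hx, rfl⟩
  have hxt' : x' ∈ N (topOf x') := HN.mem_iff.mpr ⟨hx', rfl⟩
  have n1 := W.str_nab L hx hS (by omega)
  have n2 := W.str_nab L hx' hS' (by omega)
  have hv : v = ful w z := by
    rw [← hc]
    exact cst_eq_ful (by omega)
  have C : Cg z x x' := Cg.mk' hzx hzx' (mem_onlyB.mpr fun s hs hxs => HN.top_eq hxt hs hxs)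
    (mem_onlyB.mpr fun s hs hxs => HN.top_eq hxt' hs hxs) htt
  by_cases s1 : Sok j x
  · by_cases s2 : Sok j x'
    · right
      refine ⟨?_, Or.inr (Or.inr ⟨⟨x, x', C, s1, s2⟩, hv, hh⟩)⟩
      rw [nab_join_eq HN H hxt hxt' htt hzx hzx' (by omega), n1, n2, hh,
        show w + (lev z - w) = lev z by omega, nab_self]
    · left
      rw [hv]
      exact F z x' x C.symm (by omega) n2 s2
  · left
    rw [hv]
    exact F z x x' C (by omega) n1 s1

end Pool.Agent.GaussPoset.Sm

end

/-! From `Pool.Agent.W_448s7s_h5.SlB` -/

section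

/-!
# The windows of S7 with a cap: elements of level `j + 1` below a deep cell (MP_448cb3_co)
-/

namespace Pool.Agent.GaussPoset.Sm

set_option linter.unusedSectionVars false

open Polynomial Finset

universe u

variable {P : Type u} [Fintype P] [PartialOrder P] [DecidableEq P] {r j w K : ℕ}
  {N : Tops P → Finset P} {b : Tops P → ℕ} {θ : Tops P → P → ℕ} {XE XO : ℕ → Prop}

/-- cost of a pendant below the flip cell `((j - 3) / 2, (j + 3) / 2)` of level `j` -/
def flC (w j : ℕ) : ℕ :=
  ∑ n ∈ range (j - w + 1), min (j - w - 1) n *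
    (min ((w + n) / 2) ((j - 3) / 2) + 1 - ((w + n) - (j + 3) / 2)) + (j - w - 1)

/-- cost of a pendant below the fold end of level `j` -/
def foC (w j : ℕ) : ℕ :=
  ∑ n ∈ range (j - w + 1), min (j - w - 1) n *
    (min ((w + n) / 2) (j / 2) + 1 - ((w + n) - j / 2)) + (j - w - 1)

/-- the additional cost of a second cover -/
def foE (w j : ℕ) : ℕ :=
  ∑ n ∈ range (j - w + 1), min (j - w - 1) n * (if j / 2 < w + n then 1 else 0)

/-- the parity -/
def foN (w j : ℕ) : ℕ :=
  ∑ n ∈ range (j - w - 1), (min ((w + n) / 2) (j / 2) + 1 - ((w + n) - j / 2))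

/-- thresholds of single-up elements of level `j` -/
lemma Wk.single_th (W : Wk r j w K N b θ) {x : P} (hx : x ∉ unnat N) (hl : lev x = j)
    (h1 : (Win.uc x).card = 1) : lev x ≤ θ (topOf x) x + 2 + w := by
  have H := W.gt.H
  have HN := W.natSys
  have hj := W.hj
  have hw := W.hw
  have hxt : x ∈ N (topOf x) := HN.mem_iff.mpr ⟨hx, rfl⟩
  generalize topOf x = t at hxt ⊢
  rcases W.typ t with ⟨g1, g2, g3, g5⟩ | ⟨Nc, co, h0, g1, g2, g4⟩ |
    ⟨Nc, co, h0, g1, g2, g3, g4, g5'⟩
  · rw [g2]
    simp only
    omega
  · rw [g1] at hxt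
    by_cases hJ : x ∈ junk (fun _ => True) Nc co ∨ x ∈ junk (fun _ => True) Nc (swp co)
    · rw [g2]
      unfold thR
      rw [if_pos hJ]
      omega
    · have hxN : x ∈ Nc := by
        rw [mem_natR] at hxt
        rcases hxt with h | h | h
        · exact h
        · exact absurd (Or.inl h) hJ
        · exact absurd (Or.inr h) hJ
      have h2 := rect_th7 h0 hw hxN hJ (by omega)
      rw [g2]
      by_contra hcon
      have := chart_inner_uc h0.chart H hxN (by omega) (by omega)
      omega
  · rw [g1] at hxt
    by_cases hJ : x ∈ junk (fun c => c.1 ≤ c.2) Nc co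
    · rw [g2]
      unfold thS
      rw [if_pos hJ]
      omega
    · have hxN : x ∈ Nc := by
        rw [mem_natS] at hxt
        exact hxt.resolve_right hJ
      have h2 := stair_th7 h0 hw g4 hxN hJ (by omega)
      rw [g2]
      omega

/-- elements of level `j + 1` below a deep cell -/
theorem Wk.deep_j (W : Wk r j w K N b θ) (hw2 : 2 ≤ w) (hj8 : 8 ≤ j)
    (hfl : j % 2 = 1 → K < flC w j) (hfo : j % 2 = 0 → K < foC w j + foE w j)
    (hfv : j % 2 = 0 → (Even (foN w j) ∧ XE (foC w j)) ∨ (Odd (foN w j) ∧ XO (foC w j)))
    {v : ℕ} {z : P} (hz : z ∈ bdR (rA N))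
    (hc : cst w (hA N θ) z = v) (hlz : lev z = j + 1) {x : P} (hzx : z ⋖ x)
    (hD : Dk j w K N θ x) : OutK j w K XE XO (hA N θ) z v := by
  classical
  have H := W.gt.H
  have HN := W.natSys
  have hj := W.hj
  have hw := W.hw
  have hzR := (mem_bdR.mp hz).1
  have hzu := (mem_rA.mp hzR).1
  have e1 := (H.covBy_iff.mp hzx).2
  have hlx : lev x = j := by omega
  have hx : x ∉ unnat N := W.low (by omega)
  have hbs : GaussPoset.bs N x = x := by
    unfold GaussPoset.bs
    rw [if_neg (W.not_tw hx)]
  have hle := W.hA_le (not_mem_rA.mpr (Or.inl hx)) hzx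
  rw [hbs] at hle
  have hth := hD.th
  have h1w := hD.one_le
  have hxt : x ∈ N (topOf x) := HN.mem_iff.mpr ⟨hx, rfl⟩
  have hxle : x ≤ (topOf x : P) := le_topOf x
  have hzN := mem_unnat.mp hzu (topOf x)
  have hnat : ∀ y ∈ N (topOf x), y ∉ unnat N := fun y hy => (HN.mem_iff.mp hy).1
  have hzt : ∀ y, y ∉ unnat N → ¬ ∀ v, y < v ↔ z < v := fun y hy h =>
    (mem_rA.mp hzR).2 (mem_twA.mpr ⟨hzu, y, hy, h⟩)
  -- two covers have one cover each
  have hnear : (Win.uc x).card = 2 → ∀ y, z ⋖ y → y = x := by
    intro h2 y hy
    by_contra hne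
    have := (W.near hzR hlz hzx hy (Ne.symm hne)).1
    omega
  -- the label of an element with one cover
  have hlab : (∀ y, z ⋖ y → y = x) → hA N θ z = θ (topOf x) x + 1 := by
    intro ho
    obtain ⟨x0, g1, g2, g3⟩ := W.hA_spec hz
    rw [ho x0 g2, hbs] at g3
    exact g3
  have hthx : θ (topOf x) x = θ (topOf x) x := rfl
  generalize htt : topOf x = t at hxt hxle hzN hnat hle hth hlab
  rcases W.typ t with ⟨g1, g2, g3, g5⟩ | ⟨Nc, co, h0, g1, g2, g4⟩ |
    ⟨Nc, co, h0, g1, g2, g3, g4, g5'⟩
  · exfalso
    rw [g2] at hth
    simp only at hth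
    omega
  · exfalso
    rw [g1] at hxt
    rw [g2] at hth
    have hJ : ¬ (x ∈ junk (fun _ => True) Nc co ∨ x ∈ junk (fun _ => True) Nc (swp co)) := by
      intro h
      unfold thR at hth
      rw [if_pos h] at hth
      omega
    have hxN : x ∈ Nc := by
      rw [mem_natR] at hxt
      rcases hxt with h | h | h
      · exact h
      · exact absurd (Or.inl h) hJ
      · exact absurd (Or.inr h) hJ
    have h2 := rect_th7 h0 hw hxN hJ (by omega)
    have h3 := chart_inner_uc h0.chart H hxN (by omega) (by omega)
    exact g4 x z hxle hlx h3 hzx (hnear h3)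
  · rw [g1] at hxt hzN
    rw [g2] at hth
    have hJ : x ∉ junk (fun c => c.1 ≤ c.2) Nc co := by
      intro h
      unfold thS at hth
      rw [if_pos h] at hth
      omega
    have hxN : x ∈ Nc := by
      rw [mem_natS] at hxt
      exact hxt.resolve_right hJ
    have hl := h0.chart.lev x hxN
    have hm : (co x).1 ≤ (co x).2 := h0.chart.mem x hxN
    have h2 := stair_th7 h0 hw g4 hxN hJ (by omega)
    have hzN1 : z ∉ Nc := fun h => hzN (mem_natS.mpr (Or.inl h))
    have h6 := cst_ge_cover (i := w) (h := hA N θ) H.gradedBelow hzx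
    rw [hc] at h6
    rcases Nat.lt_or_ge (co x).1 (co x).2 with hlt | hge
    · -- a double
      have h3 := stair_inner_uc h0.chart H hxN (by omega) hlt
      have ho := hnear h3
      rcases g5' x z hxle hlx h3 hzx ho with h4 | h4
      · exfalso
        obtain ⟨y, hy, h⟩ := diag_twin h0.chart h0.max H hzN1 hxN hzx ho h4
        exact hzt y (hnat y (by rw [g1]; exact mem_natS.mpr (Or.inl hy))) h
      · left
        have h5 := hlab ho
        rw [g2] at h5
        have hlb : hA N θ z = j - w - 1 := by omega
        have h7 := cst_stair (w := w) (L := j) (h := hA N θ z) h0.chart hxN hlx (by omega)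
        have h8 := hfl (by omega)
        rw [h7, Nat.min_eq_left (by omega), hlb] at h6
        unfold flC at h8
        rw [show (co x).1 = (j - 3) / 2 by omega, show j - (j - 3) / 2 = (j + 3) / 2 by omega]
          at h6
        omega
    · -- the fold end
      have hcc : (co x).2 = (co x).1 := by omega
      -- the label
      have hlb : hA N θ z + 1 = lev x - w := by
        obtain ⟨x0, f1, f2, f3⟩ := W.hA_spec hz
        rw [g2] at hle
        by_cases hne : x0 = x
        · rw [hne, hbs, htt, g2] at f3
          omega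
        · have f4 := W.near hzR hlz hzx f2 (Ne.symm hne)
          have f5 := (H.covBy_iff.mp f2).2
          have hx0 : x0 ∉ unnat N := W.low (by omega)
          have hbs0 : GaussPoset.bs N x0 = x0 := by
            unfold GaussPoset.bs
            rw [if_neg (W.not_tw hx0)]
          rw [hbs0] at f3
          have f6 := W.single_th hx0 (by omega) f4.2
          omega
      have h8 : min (hA N θ z) (lev z - w) = hA N θ z := Nat.min_eq_left (by omega)
      rw [h8] at h6
      have hj2 : j % 2 = 0 := by omega
      have hA2 : (co x).1 = j / 2 := by omega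
      have hlb' : hA N θ z = j - w - 1 := by omega
      have h7 := cst_stair (w := w) (L := j) (h := j - w - 1) h0.chart hxN hlx (by omega)
      rw [hA2, show j - j / 2 = j / 2 by omega] at h7
      have hnk : ∀ k, k ≤ j → nab k x + (k - j / 2) = min (k / 2) (j / 2) + 1 := by
        intro k hk
        have := stair_nab h0.chart hxN (k := k) (by omega)
        rw [hA2, show (co x).2 = j / 2 by omega] at this
        exact this
      by_cases ho : ∀ y, z ⋖ y → y = x
      · -- a pendant
        have h9 := cst_only (i := w) (h := hA N θ) H.gradedBelow hzx ho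
        rw [hc, h8, hlb', h7] at h9
        have hfv' := hfv hj2
        have hvv : v = foC w j := by
          unfold foC
          exact h9
        have hns : nst w (hA N θ) z = foN w j := by
          rw [nst_eq, hlb']
          unfold foN
          refine Finset.sum_congr rfl fun n hn => ?_
          rw [mem_range] at hn
          rw [nab_only ho hzx (by omega)]
          have := hnk (w + n) (by omega)
          omega
        right
        constructor
        · rw [hlb', nab_only ho hzx (by omega), nab_only ho hzx (by omega)]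
          have a1 := hnk w (by omega)
          have a2 := hnk (w + (j - w - 1)) (by omega)
          omega
        · rw [hns, hvv]
          rcases hfv' with h | h
          · exact Or.inl ⟨h.1, Or.inr h.2⟩
          · exact Or.inr (Or.inl ⟨h.1, Or.inr h.2⟩)
      · -- a second cover
        left
        push Not at ho
        obtain ⟨x', hzx', hne'⟩ := ho
        have hne : x ≠ x' := Ne.symm hne'
        have e2 := (H.covBy_iff.mp hzx').2
        have hx' : x' ∉ unnat N := W.low (by omega)
        have hnr := W.near hzR hlz hzx hzx' hne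
        have hextra : ∀ k, j / 2 < k → k ≤ j → nab k x + 1 ≤ nab k z := by
          intro k hk1 hk2
          obtain ⟨q, q1, q2, q3⟩ := exists_between H.gradedBelow (z := x') (s := (topOf x' : P))
            (le_topOf x') (l := k) (by have := (topOf x').2; omega) (by omega)
          have hxq : ¬ x ≤ q := by
            intro hxq
            have hqt : topOf q = topOf x' := (W.up hx' q1).2
            have hqt' : topOf q = topOf x := (W.up hx hxq).2
            have hx't : x' ∈ N t := by
              rw [← htt, ← hqt', hqt]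
              exact HN.mem_iff.mpr ⟨hx', rfl⟩
            rw [g1] at hx't
            have hx'N : x' ∈ Nc := by
              refine h0.strip (mem_lowPart.mpr ⟨?_, by omega⟩)
              have h5 := le_topOf x'
              rw [← hqt, hqt', htt] at h5
              exact h5
            have hl' := h0.chart.lev x' hx'N
            have hm' : (co x').1 ≤ (co x').2 := h0.chart.mem x' hx'N
            have h10 : (co x').1 = 0 := by
              by_contra h11
              rcases Nat.lt_or_ge (co x').1 (co x').2 with h12 | h12
              · have := stair_inner_uc h0.chart H hx'N (by omega) h12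
                omega
              · exact hne (h0.chart.inj x hxN x' hx'N (Prod.ext (by omega) (by omega)))
            have hqN := h0.chart.up x' hx'N q q1
            have hq1 := (h0.chart.le_iff x' hx'N q hqN).mp q1
            have hq2 := (h0.chart.le_iff x hxN q hqN).mp hxq
            have hlq := h0.chart.lev q hqN
            have b1 : (co q).1 ≤ (co x').1 := hq1.1
            have b2 : (co q).2 ≤ (co x).2 := hq2.2
            omega
          have h11 : insert q ((lv P k).filter (fun y => x ≤ y)) ⊆
              (lv P k).filter (fun y => z ≤ y) := by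
            intro y hy
            rw [mem_insert, mem_filter, mem_lv] at hy
            rw [mem_filter, mem_lv]
            rcases hy with rfl | hy
            · exact ⟨q3, hzx'.1.le.trans q1⟩
            · exact ⟨hy.1, hzx.1.le.trans hy.2⟩
          have h12 := Finset.card_le_card h11
          rw [Finset.card_insert_of_notMem (by
            rw [mem_filter]
            exact fun h => hxq h.2)] at h12
          exact h12
        have hfo' := hfo hj2
        have key : foC w j + foE w j ≤ v := by
          rw [← hc, cst_shift (i := w) (h := hA N θ) (a := j - w + 1) (by omega),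
            Finset.sum_range_succ, hlb']
          have s4 : min (j - w - 1) (j - w + 1) * nab (w + (j - w + 1)) z = j - w - 1 := by
            rw [Nat.min_eq_left (by omega), show w + (j - w + 1) = lev z by omega, nab_self,
              mul_one]
          rw [s4]
          unfold foC foE
          have s5 : ∑ n ∈ range (j - w + 1), min (j - w - 1) n *
              (min ((w + n) / 2) (j / 2) + 1 - ((w + n) - j / 2)) +
              ∑ n ∈ range (j - w + 1), min (j - w - 1) n * (if j / 2 < w + n then 1 else 0) ≤
              ∑ n ∈ range (j - w + 1), min (j - w - 1) n * nab (w + n) z := by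
            rw [← Finset.sum_add_distrib]
            refine Finset.sum_le_sum fun n hn => ?_
            rw [mem_range] at hn
            rw [← Nat.mul_add]
            refine Nat.mul_le_mul_left _ ?_
            have a1 := hnk (w + n) (by omega)
            split_ifs with h13
            · have := hextra (w + n) h13 (by omega)
              omega
            · have := nab_mono (l := w + n) hzx.1.le
              omega
          omega
        omega

end Pool.Agent.GaussPoset.Sm

end
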