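import Mathlib
import Pool.Agent.W_448zz_h61.Ns
import Pool.Agent.W_448zz_h61.M056
import Pool.Agent.W_448zz_h61.M077

/-! From `Pool.Agent.W_448s7s_h5.SlC` -/

section

/-!
# The windows `2`, `3` for `12 ≤ j ≤ 16`: the balance (MP_448cb3_co)
-/

namespace Pool.Agent.GaussPoset.Sm

set_option linter.unusedSectionVars false

open Finset Wd Cp

universe u

variable {P : Type u} [Fintype P] [PartialOrder P] [DecidableEq P] {r j w K : ℕ}
  {lo hi : Tops P → ℕ → ℕ} {e : Tops P → ℕ → ℕ → P}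

lemma late3_len : ∀ v ∈ lateW 3, v.length ≤ 7 := by decide +kernel

lemma LateC.four {lo hi : ℕ → ℕ} {a : ℕ} (h : LateC j lo hi a) (hj : 11 ≤ j) : 4 ≤ a := by
  by_contra hcon
  have h2 := h.two
  have hw := h.word
  have : a = 2 ∨ a = 3 := by omega
  rcases this with rfl | rfl
  · unfold wds at hw
    rw [if_pos rfl, if_neg (by omega)] at hw
    exact absurd hw List.not_mem_nil
  · unfold wds at hw
    rw [if_neg (by omega), if_neg (by omega), List.append_nil] at hw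
    have := late3_len _ hw
    simp at this
    omega

/-- sides which are not allowed do not occur at the windows `2`, `3` -/
lemma nsk23 (hj : 12 ≤ j) (hw : w = 2 ∨ w = 3) {x : P} (hn : nab w x = 1) (hs : ¬ Sok j x) :
    False := by
  apply hs
  refine ⟨fun hf => ?_, fun _ hf => ?_⟩
  · have := hf.2 w (by omega) (by omega)
    omega
  · have := hf.2.2 w (by omega)
    rcases hw with rfl | rfl <;> omega

/-- the low levels of an allowed side -/
lemma Ctx.low_one (K : Ctx P r j lo hi e) (hj : 12 ≤ j) {x : P} (hx : x ∈ onlyB (topOf x))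
    (hl : j ≤ lev x) (hend : lev x = j → (Win.uc x).card = 1) (hs : Sok j x) {k : ℕ} (hk : k < 4) :
    nab k x = 1 := by
  rcases K.cases hx hl hend hs.1 with h | h | ⟨a, h, -⟩
  · exact absurd h (hs.2 hj)
  · exact h k (by omega)
  · have h4 := h.four (by omega)
    obtain ⟨e1, e2⟩ := h.low k (by omega)
    exact nab_one_of_eq (K.comp (topOf x)) hx (by omega) (by omega) (by rw [e1, e2])

end Pool.Agent.GaussPoset.Sm

end

/-! From `Pool.Agent.W_448s7_h27.EwC` -/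

section

/-!
The components at window `4` with a fine and a coarse natural system: `E7` and the stairs are the
defect tops (MP_448cb3_co, S7).
-/

namespace Pool.Agent.GaussPoset.Ec

set_option linter.unusedSectionVars false

open Polynomial Finset Sm Wd Cp W4 Cl

universe u

variable {P : Type u} [Fintype P] [PartialOrder P] [DecidableEq P] {r j : ℕ}

/-- the types of the components at window `4`, with the coarse natural set `N`, thresholds `θ4`,
and the fine natural set `Nf`, thresholds `θf tb` (`tb` a table for `E7`), order `b`; `d`: the two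
systems differ in the order -/
inductive FineY (j : ℕ) (t : Tops P) (lo hi : ℕ → ℕ) (e : ℕ → ℕ → P)
    (N : Finset P) (θ4 : P → ℕ) (b : ℕ) (Nf : Finset P) (θf : (ℕ → ℕ → ℕ) → P → ℕ)
    (d : Prop) : Prop
  | light (h1 : N = onlyB t) (h2 : θ4 = fun x => lev x - 4) (h3 : b = 1) (h4 : Nf = N)
      (h5 : θf = fun _ => θ4) (h6 : ¬ d) (h7 : ∀ x, x ≤ (t : P) → lev x ≤ j → x ∈ onlyB t)
  | rect (c : ℕ) (Nc : Finset P) (co : P → ℕ × ℕ) (h0 : RectNat j 4 t c Nc co)
      (h1 : N = natR Nc co) (h2 : θ4 = thR 4 c Nc co) (h3 : b = c) (h4 : Nf = N)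
      (h5 : θf = fun _ => θ4) (h6 : ¬ d) (h7 : lo 3 < hi 3)
  | e7 (h0 : WordD j 4 w7 lo hi) (h1 : N = onlyB t) (h2 : θ4 = fun x => lev x - 4) (h3 : b = 2)
      (h4 : Nf = lowPart j (t : P)) (h5 : θf = fun tb => thC lo hi e tb) (h6 : d)
      (h7 : ∀ x, x ≤ (t : P) → lev x ≤ j → x ∈ onlyB t) (h8 : j ≤ 16)
  | stair (Nc : Finset P) (co : P → ℕ × ℕ) (h0 : StairNat j 4 t Nc co) (h1 : N = natS Nc co)
      (h2 : θ4 = thSg 2 4 Nc co) (h3 : b = 3) (h4 : Nf = N) (h5 : θf = fun _ => thS 4 Nc co)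
      (h6 : d)

section

variable {t : Tops P} {lo hi : ℕ → ℕ} {e : ℕ → ℕ → P} {N : Finset P} {θ4 : P → ℕ} {b : ℕ}
  {Nf : Finset P} {θf : (ℕ → ℕ → ℕ) → P → ℕ} {d : Prop}

lemma hex4 (C : Comp j (t : P) lo hi e) (hj : 4 ≤ j) : ∃ x ≤ (t : P), lev x = 4 :=
  ⟨e 4 (lo 4), C.le_t 4 _ hj le_rfl (C.lo_le 4 hj), C.lev_e 4 _ hj le_rfl (C.lo_le 4 hj)⟩

/-- the fine natural system -/
theorem FineY.nat (F : FineY j t lo hi e N θ4 b Nf θf d) (C : Comp j (t : P) lo hi e)
    (H : Gr P r) (hg : ∀ l, l < j → Win.Good P l) (hj : 8 ≤ j) :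
    ∃ B, NatTop 4 t b Nf (θf E7t4) B := by
  have hgr := H.gradedBelow
  rcases F with ⟨h1, h2, h3, h4, h5, h6, h7⟩ | ⟨c, Nc, co, h0, h1, h2, h3, h4, h5, h6⟩ |
    ⟨h0, h1, h2, h3, h4, h5, h6, h7, h8⟩ | ⟨Nc, co, h0, h1, h2, h3, h4, h5, h6⟩
  · subst h4 h1 h5 h2 h3
    exact ⟨_, natTop_light hgr (fun x hx hxi => h7 x hx (by omega)) (hex4 C (by omega))⟩
  · subst h4 h1 h5 h2 h3
    exact ⟨_, h0.natTop hgr (by omega)⟩
  · subst h4 h1 h5 h2 h3
    exact ⟨_, natTopC_E7_4 h0 C H hg hj h8⟩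
  · subst h4 h1 h5 h2 h3
    exact ⟨_, h0.natTop hgr (by norm_num) (by omega)⟩

/-- the coarse natural system of a defect top -/
theorem FineY.nat1 (F : FineY j t lo hi e N θ4 b Nf θf d) (C : Comp j (t : P) lo hi e)
    (H : Gr P r) (hj : 8 ≤ j) (hd : d) : ∃ B, NatTop 4 t (b - 1) N θ4 B := by
  have hgr := H.gradedBelow
  rcases F with ⟨h1, h2, h3, h4, h5, h6, h7⟩ | ⟨c, Nc, co, h0, h1, h2, h3, h4, h5, h6⟩ |
    ⟨h0, h1, h2, h3, h4, h5, h6, h7, h8⟩ | ⟨Nc, co, h0, h1, h2, h3, h4, h5, h6⟩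
  · exact absurd hd h6
  · exact absurd hd h6
  · subst h4 h1 h5 h2 h3
    exact ⟨_, natTop_light hgr (fun x hx hxi => h7 x hx (by omega)) (hex4 C (by omega))⟩
  · subst h4 h1 h5 h2 h3
    exact ⟨_, h0.natTop_less hgr le_rfl (by omega)⟩

lemma FineY.one (F : FineY j t lo hi e N θ4 b Nf θf d) (hd : d) : 1 ≤ b := by
  rcases F with ⟨h1, h2, h3, h4, h5, h6, h7⟩ | ⟨c, Nc, co, h0, h1, h2, h3, h4, h5, h6⟩ |
    ⟨h0, h1, h2, h3, h4, h5, h6, h7, h8⟩ | ⟨Nc, co, h0, h1, h2, h3, h4, h5, h6⟩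
  · exact absurd hd h6
  · exact absurd hd h6
  · omega
  · omega

lemma FineY.sub (F : FineY j t lo hi e N θ4 b Nf θf d) : Nf ⊆ N := by
  rcases F with ⟨h1, h2, h3, h4, h5, h6, h7⟩ | ⟨c, Nc, co, h0, h1, h2, h3, h4, h5, h6⟩ |
    ⟨h0, h1, h2, h3, h4, h5, h6, h7, h8⟩ | ⟨Nc, co, h0, h1, h2, h3, h4, h5, h6⟩
  · rw [h4]
  · rw [h4]
  · intro x hx
    rw [h4, mem_lowPart] at hx
    rw [h1]
    exact h7 x hx.1 hx.2
  · rw [h4]

lemma FineY.eq (F : FineY j t lo hi e N θ4 b Nf θf d) (hd : ¬ d) :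
    Nf = N ∧ ∀ tb, θf tb = θ4 := by
  rcases F with ⟨h1, h2, h3, h4, h5, h6, h7⟩ | ⟨c, Nc, co, h0, h1, h2, h3, h4, h5, h6⟩ |
    ⟨h0, h1, h2, h3, h4, h5, h6, h7, h8⟩ | ⟨Nc, co, h0, h1, h2, h3, h4, h5, h6⟩
  · exact ⟨h4, fun tb => by rw [h5]⟩
  · exact ⟨h4, fun tb => by rw [h5]⟩
  · exact absurd h6 hd
  · exact absurd h6 hd

/-- a table below the level -/
def TbOK (tb : ℕ → ℕ → ℕ) : Prop := ∀ k s, tb k s ≤ k - 4

lemma FineY.le1 (F : FineY j t lo hi e N θ4 b Nf θf d) {tb : ℕ → ℕ → ℕ} (htb : TbOK tb)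
    (x : P) : θf tb x ≤ θ4 x := by
  rcases F with ⟨h1, h2, h3, h4, h5, h6, h7⟩ | ⟨c, Nc, co, h0, h1, h2, h3, h4, h5, h6⟩ |
    ⟨h0, h1, h2, h3, h4, h5, h6, h7, h8⟩ | ⟨Nc, co, h0, h1, h2, h3, h4, h5, h6⟩
  · rw [h5]
  · rw [h5]
  · rw [h5, h2]
    exact htb _ _
  · rw [h5, h2]
    unfold thSg
    show thS 4 Nc co x ≤ _
    unfold thS
    split_ifs
    · exact le_rfl
    · omega

lemma FineY.le2 (F : FineY j t lo hi e N θ4 b Nf θf d) {tb : ℕ → ℕ → ℕ} (htb : TbOK tb)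
    {x y : P} (hx : x ∈ N) (hx' : x ∉ Nf) (hxy : x ≤ y) : θf tb y ≤ θ4 x := by
  rcases F with ⟨h1, h2, h3, h4, h5, h6, h7⟩ | ⟨c, Nc, co, h0, h1, h2, h3, h4, h5, h6⟩ |
    ⟨h0, h1, h2, h3, h4, h5, h6, h7, h8⟩ | ⟨Nc, co, h0, h1, h2, h3, h4, h5, h6⟩
  · exact absurd (h4 ▸ hx) hx'
  · exact absurd (h4 ▸ hx) hx'
  · rw [h5, h2]
    have h9 : tb (lev y) (scoord lo hi e y) ≤ lev y - 4 := htb _ _
    have h10 := lev_anti hxy
    show tb (lev y) (scoord lo hi e y) ≤ lev x - 4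
    omega
  · exact absurd (h4 ▸ hx) hx'

lemma FineY.up (F : FineY j t lo hi e N θ4 b Nf θf d) {tb : ℕ → ℕ → ℕ}
    (hd : d) {x y : P} (hx : x ∈ N) (hne : θ4 x + 1 ≤ lev x - 4) (hxy : x < y) :
    θf tb y ≤ θ4 x := by
  rcases F with ⟨h1, h2, h3, h4, h5, h6, h7⟩ | ⟨c, Nc, co, h0, h1, h2, h3, h4, h5, h6⟩ |
    ⟨h0, h1, h2, h3, h4, h5, h6, h7, h8⟩ | ⟨Nc, co, h0, h1, h2, h3, h4, h5, h6⟩
  · exact absurd hd h6
  · exact absurd hd h6
  · rw [h2] at hne
    have h9 : lev x - 4 + 1 ≤ lev x - 4 := hne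
    omega
  · rw [h2] at hne ⊢
    rw [h5]
    have hJ : x ∉ junk (fun c => c.1 ≤ c.2) Nc co := by
      intro hJ
      unfold thSg at hne
      rw [if_pos hJ] at hne
      omega
    have hxN : x ∈ Nc := by
      rw [h1, mem_natS] at hx
      exact hx.resolve_right hJ
    have hl := h0.chart.lev x hxN
    have hyN := h0.chart.up x hxN y hxy.le
    have hle := (h0.chart.le_iff x hxN y hyN).mp hxy.le
    have hle1 : (co y).1 ≤ (co x).1 := hle.1
    have hle2 : (co y).2 ≤ (co x).2 := hle.2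
    have g1 : 1 ≤ (co x).1 := by
      unfold thSg at hne
      rw [if_neg hJ] at hne
      omega
    have hy1 := not_junk_above h0.chart hxN g1 hxy.le
    show thS 4 Nc co y ≤ thSg 2 4 Nc co x
    unfold thS thSg
    rw [if_neg hy1, if_neg hJ]
    omega

end

end Pool.Agent.GaussPoset.Ec

end

/-! From `Pool.Agent.W_448s7_h27.EwD` -/

section

/-!
Existence of the fine and the coarse systems at window `4` (MP_448cb3_co, S7).
-/

namespace Pool.Agent.GaussPoset.Ec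

set_option linter.unusedSectionVars false

open Polynomial Finset Sm Wd Cp W4 Cl

universe u

variable {P : Type u} [Fintype P] [PartialOrder P] [DecidableEq P] {r j : ℕ}

lemma lateD_of {lo hi : ℕ → ℕ} {a : ℕ} (h : LateC j lo hi a) (h3 : 3 ≤ a) : LateD j a lo hi := by
  refine ⟨h3, h.le, h.low, h.at_a, ?_⟩
  have hw := h.word
  unfold wds at hw
  rw [if_neg (by omega), List.mem_append] at hw
  rcases hw with hw | hw
  · exact Or.inr hw
  · left
    split_ifs at hw with hc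
    · exact ⟨hc, by simpa using hw⟩
    · exact absurd hw List.not_mem_nil

section Exists

variable {t : Tops P} {lo hi : ℕ → ℕ} {e : ℕ → ℕ → P}

/-- every component has a fine and a coarse system -/
theorem exists_fineY (h : Win.GoodTo P r j) (hj : 12 ≤ j)
    (C : Comp j (t : P) lo hi e) (S : Shape j lo hi) :
    ∃ N θ3 θ4 Nf θf, ∃ d : Prop, TypeY j t N θ3 θ4 ∧ TypeX j 3 t (hi 3 - lo 3 + 1) N θ3 ∧
      TopType j 3 t (hi 3 - lo 3 + 1) N θ3 ∧
      FineY j t lo hi e N θ4 (hi 4 - lo 4 + 1) Nf θf d := by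
  have H := h.H
  have hg := h.good
  have hlo := C.lo_le 3 (by omega)
  have hlo4 := C.lo_le 4 (by omega)
  have h5 : ∀ x, x ≤ (t : P) → lev x ≤ j → x ∈ onlyB t := by
    intro x hx hxi
    rw [mem_onlyB]
    intro s hs hxs
    exact top_eq H hg hxi hs t.2 hxs hx
  have hls : lo 4 = lo 3 ∨ lo 4 = lo 3 + 1 := C.lo_step 3 (by omega)
  have hhs : hi 4 = hi 3 ∨ hi 4 = hi 3 + 1 := C.hi_step 3 (by omega)
  have hii : hi 3 ≤ 3 := C.hi_le (by omega)
  have hii4 : hi 4 ≤ 4 := C.hi_le (by omega)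
  have hlight : lo 3 = hi 3 → lo 4 = hi 4 →
      ∃ N θ3 θ4 Nf θf, ∃ d : Prop, TypeY j t N θ3 θ4 ∧ TypeX j 3 t (hi 3 - lo 3 + 1) N θ3 ∧
      TopType j 3 t (hi 3 - lo 3 + 1) N θ3 ∧
      FineY j t lo hi e N θ4 (hi 4 - lo 4 + 1) Nf θf d := by
    intro e1 e2
    rw [e1, e2, Nat.sub_self, Nat.sub_self]
    exact ⟨_, _, _, _, _, False, TypeY.light rfl rfl rfl h5, TypeX.light rfl rfl rfl h5,
      type_light H hg C (by omega), FineY.light rfl rfl rfl rfl rfl (fun h => h) h5⟩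
  have hstair : ∀ {lo' hi' : ℕ → ℕ} {e' : ℕ → ℕ → P}, Comp j (t : P) lo' hi' e' →
      StairShape j lo' hi' → hi' 3 - lo' 3 = hi 3 - lo 3 → hi' 4 - lo' 4 = hi 4 - lo 4 →
      ∃ N θ3 θ4 Nf θf, ∃ d : Prop, TypeY j t N θ3 θ4 ∧ TypeX j 3 t (hi 3 - lo 3 + 1) N θ3 ∧
      TopType j 3 t (hi 3 - lo 3 + 1) N θ3 ∧
      FineY j t lo hi e N θ4 (hi 4 - lo 4 + 1) Nf θf d := by
    intro lo' hi' e' C' hT q3 q4
    have h2 : hi' 3 = 3 / 2 := hT.hi 3 (by omega)
    have h2' : hi' 4 = 4 / 2 := hT.hi 4 (by omega)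
    have hls' : lo' 4 = lo' 3 ∨ lo' 4 = lo' 3 + 1 := C'.lo_step 3 (by omega)
    have h0 : lo' 4 = 0 := by
      by_contra hcon
      have e1 := shape_lo C' hT.lo (l := 4) (by omega) 4 (by omega)
      have e2 := hT.hi (4 + 4) (by omega)
      have e3 := C'.lo_le (4 + 4) (by omega)
      omega
    obtain ⟨N, co, h1, h1'⟩ := exists_stair C' H hg H.gradedBelow hT (i := 4) (by omega)
    have h3 := stairNat_three h1
    have hb : hi 3 - lo 3 + 1 = 3 / 2 + 1 := by omega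
    have hb4 : hi 4 - lo 4 + 1 = 3 := by omega
    have pen : ∀ x z, x ≤ (t : P) → lev x = j → (Win.uc x).card = 2 → z ⋖ x →
        (∀ y, z ⋖ y → y = x) → (co x).2 = (co x).1 + 1 ∨ (co x).2 = (co x).1 + 3 := by
      intro x z hxt hlx hx2 hzx honly
      rw [h1' x (mem_lowPart.mpr ⟨hxt, by omega⟩)]
      obtain ⟨j', rfl⟩ : ∃ j', j = j' + 1 := ⟨j - 1, by omega⟩
      exact stairShape_pendant h (by omega) t.2 C' hT hlx hxt hx2 hzx honly
    exact ⟨_, _, _, _, _, True, TypeY.stair N co h1 h3 rfl rfl rfl pen,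
      TypeX.stair N co h3 rfl rfl hb (by omega) pen,
      TopType.stair N co h3 rfl rfl hb (by omega) (by omega),
      FineY.stair N co h1 rfl rfl hb4 rfl rfl trivial⟩
  rcases shape_cases C (by omega) S with hs | (hT | hT) | ⟨a, hL, h3⟩
  · exact hlight (hs 3 (by omega)) (hs 4 (by omega))
  · have f1 : lo 4 = 0 ∨ lo 4 = lo 3 + 1 := hT.lo 3 (by omega)
    have f2 : hi 4 = 4 ∨ hi 4 = hi 3 := hT.hi 3 (by omega)
    have f3 : lo 4 = 0 ∨ hi 4 = 4 := by
      by_contra hcon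
      have e1 := shape_lo C hT.lo (l := 4) (by omega) 4 (by omega)
      have e2 := shape_hi C hT.hi (l := 4) (by omega) 4 (by omega)
      have e3 := C.lo_le (4 + 4) (by omega)
      omega
    by_cases hl : lo 3 = hi 3
    · exact hlight hl (by omega)
    · have hlt : lo 3 < hi 3 := by omega
      have hb : min (hi 4 - lo 4 + 1) 4 = hi 3 - lo 3 + 1 := by omega
      obtain ⟨N, co, h1, -⟩ := exists_rect C H hg H.gradedBelow hT (i := 4) (by omega) (by omega)
      have h3 := rectNat_three h1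
      have pen : ∀ x z, x ≤ (t : P) → lev x = j → (Win.uc x).card = 2 → z ⋖ x →
          ¬ ∀ y, z ⋖ y → y = x := by
        intro x z hxt hlx hx2 hzx honly
        obtain ⟨j', rfl⟩ : ∃ j', j = j' + 1 := ⟨j - 1, by omega⟩
        exact rectShape_no_pendant h (by omega) t.2 C hT hlx hxt hx2 hzx honly
      refine ⟨_, _, _, _, _, False, TypeY.rect _ N co h1 h3 rfl rfl rfl pen, ?_, ?_,
        FineY.rect _ N co h1 rfl rfl rfl rfl rfl (fun h => h) hlt⟩
      · rw [← hb]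
        exact TypeX.rect N co h3 rfl rfl pen
      · rw [← hb]
        exact TopType.rect N co h3 rfl rfl (by omega)
  · exact hstair C hT rfl rfl
  · have h4 := hL.four (by omega)
    have e3 := hL.low 3 (by omega)
    by_cases ha : a = 4
    · subst ha
      obtain ⟨D, hj16⟩ := wordD_four (lateD_of hL (by omega)) (by omega) (by omega)
      have hb : hi 4 - lo 4 + 1 = 2 := by
        rw [hL.at_a.1, hL.at_a.2]
      rw [e3.1, e3.2, hb]
      exact ⟨_, _, _, _, _, True, TypeY.light rfl rfl rfl h5, TypeX.light rfl rfl rfl h5,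
        type_light H hg C (by omega), FineY.e7 D rfl rfl rfl rfl rfl trivial h5 hj16⟩
    · have e4 := hL.low 4 (by omega)
      exact hlight (by rw [e3.1, e3.2]) (by rw [e4.1, e4.2])

end Exists

end Pool.Agent.GaussPoset.Ec

end

/-! From `Pool.Agent.W_448s7_h27.PhB` -/

section

/-!
The data of the sides with the number of elements on the level `4` (MP_448cb3_co, S7).
-/

namespace Pool.Agent.GaussPoset.Sm

set_option linter.unusedSectionVars false

open Finset Wd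

universe u

variable {P : Type u} [Fintype P] [PartialOrder P] [DecidableEq P] {r j w : ℕ}

/-- extra elements on the level `4` -/
def x4A (w : List Ltr) (A : Finset ℕ) (a : ℕ) : ℕ := if a ≤ 4 then xA w A (4 - a) else 0

/-- the data of the ends of level `j` -/
def ChkE4 (j : ℕ) (S : List (ℕ × ℕ × ℕ × ℕ)) : Prop :=
  ∀ a ∈ range (j + 1), 4 ≤ a → ∀ w ∈ wds j a, w.length = j - a →
    ∀ A ∈ (Icc (Lw w (w.length + 3)) (Hw w (w.length + 3))).powerset, A.Nonempty →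
      condA 0 w A → (mA w A, dA w A, rhA w A, x4A w A a) ∈ S

instance (j : ℕ) (S : List (ℕ × ℕ × ℕ × ℕ)) : Decidable (ChkE4 j S) := by
  unfold ChkE4; infer_instance

/-- the data of the sides of level `j + 1` -/
def ChkT4 (j : ℕ) (S : List (ℕ × ℕ × ℕ × ℕ)) : Prop :=
  ∀ a ∈ range (j + 1), 4 ≤ a → ∀ w ∈ wds j a, w.length = j - a →
    ∀ A ∈ (Icc (Lw w (w.length + 3)) (Hw w (w.length + 3))).powerset, A.Nonempty →
      condA 1 w A → condB w A → (mA w A, dA w A, A.card - 1, x4A w A a) ∈ S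

instance (j : ℕ) (S : List (ℕ × ℕ × ℕ × ℕ)) : Decidable (ChkT4 j S) := by
  unfold ChkT4; infer_instance

/-- the data of the sides of level at least `j + 2` -/
def ChkS4 (j : ℕ) (S : List (ℕ × ℕ × ℕ × ℕ)) : Prop :=
  ∀ a ∈ range (j + 1), 4 ≤ a → ∀ w ∈ wds j a, w.length = j - a →
    ∀ A ∈ (Icc (Lw w (w.length + 3)) (Hw w (w.length + 3))).powerset, A.Nonempty →
      (mA w A, dA w A, A.card - 1, x4A w A a) ∈ S

instance (j : ℕ) (S : List (ℕ × ℕ × ℕ × ℕ)) : Decidable (ChkS4 j S) := by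
  unfold ChkS4; infer_instance

section

variable {t : Tops P} {lo hi : ℕ → ℕ} {e : ℕ → ℕ → P} {a : ℕ}

/-- the side of a late component -/
theorem late_side4 (G : Win.GoodTo P r j) (hj : 5 ≤ j) (C : Cp.Comp j (t : P) lo hi e)
    (h0 : 2 ≤ a) (h1 : a ≤ j) (h2 : ∀ k, k < a → lo k = 0 ∧ hi k = 0) (h3 : lo a = 0 ∧ hi a = 1)
    {x : P} (hx : x ∈ onlyB t) (hl : j ≤ lev x) (hend : lev x = j → (Win.uc x).card = 1)
    {W : List Ltr} (hW : word lo hi a (j - a) = W) :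
    ∃ A ∈ (Icc (Lw W (W.length + 3)) (Hw W (W.length + 3))).powerset, A.Nonempty ∧
      (∀ q, lev x = j + q → condA q W A) ∧ (lev x = j + 1 → condB W A) ∧
      mX j x = mA W A ∧ cX j x = dA W A ∧
      (nab j x : ℤ) - 1 = ((A.card - 1 : ℕ) : ℤ) ∧ nab (j - 2) x = rhA W A + 1 ∧
      nab 4 x = x4A W A a + 1 := by
  classical
  have H := G.H
  have hg := G.good
  obtain ⟨d, rfl⟩ : ∃ d, j = a + d := ⟨j - a, by omega⟩
  rw [Nat.add_sub_cancel_left] at hW
  have hlen : W.length = d := by rw [← hW, word_length]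
  have hL : ∀ n, n ≤ d → Lw W (n + 3) = lo (a + n) := by
    rw [← hW]
    exact lo_word (a := a) (d := d) C.lo_step h3.1 (hi := hi) le_rfl
  have hH : ∀ n, n ≤ d → Hw W (n + 3) = hi (a + n) := by
    rw [← hW]
    exact hi_word (a := a) (d := d) C.hi_step h3.2 (lo := lo) le_rfl
  have hL' : ∀ n, n ≤ d + 3 → Lw W n = lo (a + n - 3) := by
    intro n hn
    rcases Nat.lt_or_ge n 3 with h | h
    · rw [(h2 (a + n - 3) (by omega)).1]
      unfold Lw
      rw [show n - 3 = 0 by omega]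
      simp
    · obtain ⟨n', rfl⟩ : ∃ n', n = n' + 3 := ⟨n - 3, by omega⟩
      rw [hL n' (by omega)]
      rfl
  have hH' : ∀ n, n ≤ d + 3 → Hw W n = hi (a + n - 3) := by
    intro n hn
    rcases Nat.lt_or_ge n 3 with h | h
    · rw [(h2 (a + n - 3) (by omega)).2]
      unfold Hw
      rw [if_pos h]
    · obtain ⟨n', rfl⟩ : ∃ n', n = n' + 3 := ⟨n - 3, by omega⟩
      rw [hH n' (by omega)]
      rfl
  have hpl : Lw W (W.length + 2) = lo (a + d - 1) := by
    rw [hlen, hL' _ (by omega)]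
    rfl
  have hph : Hw W (W.length + 2) = hi (a + d - 1) := by
    rw [hlen, hH' _ (by omega)]
    rfl
  have hone : ∀ k, k < a → (nab k x : ℤ) - 1 = 0 := by
    intro k hk
    rw [nab_one_of_eq C hx (by omega) (by omega) (by rw [(h2 k hk).1, (h2 k hk).2])]
    norm_num
  set A := posA (a + d) lo hi e x with hA
  have hxA : ∀ n, n < d → (nab (a + n) x : ℤ) - 1 = xA W A n := by
    intro n hn
    have h4 := nab_pos H hg C hx hl (k := a + n) (by omega)
    have h5 := one_le_nab (l := a + n) (z := x) (by omega)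
    unfold xA
    rw [hL n hn.le, hH n hn.le, hlen, h4, ← hA, show a + d - (a + n) = d - n by omega]
    rw [h4, ← hA, show a + d - (a + n) = d - n by omega] at h5
    omega
  have hcard := card_posA C hx
  have hnj := one_le_nab (l := a + d) (z := x) hl
  rw [hcard, ← hA] at hnj
  obtain ⟨c1, c2⟩ := pos_cond G (by omega) C hx hl hend
  rw [← hA] at c1 c2
  refine ⟨A, ?_, Finset.card_pos.mp hnj, ?_, ?_, ?_, ?_, ?_, ?_, ?_⟩
  · rw [Finset.mem_powerset, hlen, hL d le_rfl, hH d le_rfl]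
    intro s hs
    rw [hA, mem_posA] at hs
    exact mem_Icc.mpr hs.1
  · intro q hq
    refine ⟨fun hq0 => ?_, fun hq1 => ?_⟩
    · obtain ⟨g1, g2⟩ := c1 (by omega)
      refine ⟨g1, fun s hs => ?_⟩
      unfold EndP
      rw [hpl, hph]
      exact g2 s hs
    · obtain ⟨g1, g2⟩ := c2 (by omega)
      refine ⟨g1, g2.imp id fun g s hs => ?_⟩
      unfold EndP
      rw [hpl, hph]
      exact g s hs
  · intro hlx hc s hs
    have g := pos_pen G (by omega) C hx hlx hc s hs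
    unfold PenP EndP LCw RCw
    rw [hlen, hL' _ (by omega), hL' _ (by omega), hL' _ (by omega), hH' _ (by omega),
      hH' _ (by omega), hH' _ (by omega)]
    rcases g with g | ⟨⟨g1, g2, g3, g4⟩, g5⟩ | ⟨⟨g1, g2, g3, g4⟩, g5⟩
    · exact Or.inl g
    · right; left
      rw [show a + (d + 1) - 3 = a + d - 1 - 1 by omega, show a + d - 3 = a + d - 1 - 2 by omega,
        show a + (d + 2) - 3 = a + d - 1 by omega]
      exact ⟨⟨g2, g3⟩, g5⟩
    · right; right
      rw [show a + (d + 1) - 3 = a + d - 1 - 1 by omega, show a + d - 3 = a + d - 1 - 2 by omega,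
        show a + (d + 2) - 3 = a + d - 1 by omega]
      exact ⟨⟨g2, g3⟩, g5⟩
  · unfold mX mA
    rw [Finset.sum_range_add, Finset.sum_eq_zero fun k hk => hone k (mem_range.mp hk), zero_add,
      hlen, Nat.cast_sum]
    exact Finset.sum_congr rfl fun n hn => hxA n (mem_range.mp hn)
  · unfold cX dA
    rw [Finset.sum_range_add, Finset.sum_eq_zero fun k hk => by
      rw [hone k (mem_range.mp hk), zero_mul], zero_add, hlen, Nat.cast_sum]
    refine Finset.sum_congr rfl fun n hn => ?_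
    rw [hxA n (mem_range.mp hn), Nat.cast_mul]
    rw [mem_range] at hn
    congr 1
    omega
  · rw [hcard, ← hA]
    omega
  · unfold rhA
    rw [hlen]
    split_ifs with hd
    · have h4 := hxA (d - 2) (by omega)
      rw [show a + (d - 2) = a + d - 2 by omega] at h4
      omega
    · have h4 := hone (a + d - 2) (by omega)
      omega
  · unfold x4A
    split_ifs with hd
    · have h4 := hxA (4 - a) (by omega)
      rw [show a + (4 - a) = 4 by omega] at h4
      omega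
    · have h4 := hone 4 (by omega)
      omega

end

variable {lo hi : Tops P → ℕ → ℕ} {e : Tops P → ℕ → ℕ → P}

/-- the data of an end -/
theorem Ctx.endd4 (K : Ctx P r j lo hi e) (h12 : 12 ≤ j) {x : P} (hx : x ∈ onlyB (topOf x))
    (hl : lev x = j) (hend : (Win.uc x).card = 1) {S : List (ℕ × ℕ × ℕ × ℕ)} (hS : ChkE4 j S)
    (h0 : (0, 0, 0, 0) ∈ S) (hF : ¬ Fold j x) :
    ∃ m c b f : ℕ, (m, c, b, f) ∈ S ∧ Dt j x (m, c, b) ∧ nab 4 x = f + 1 := by
  have h5 := K.h5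
  rcases K.cases hx hl.ge (fun _ => hend) (fun h => by have := h.1; omega) with h | h | ⟨a, h, -⟩
  · exact absurd h hF
  · exact ⟨0, 0, 0, 0, h0, ⟨h.mX.1, h.mX.2, h (j - 2) (by omega)⟩, h 4 (by omega)⟩
  · obtain ⟨A, g1, g2, g3, -, g4, g5, -, g7, g8⟩ := late_side4 K.gt (by omega) (K.comp _) h.two h.le
      h.low h.at_a hx hl.ge (fun _ => hend) rfl
    exact ⟨_, _, _, _, hS a (mem_range.mpr (by have := h.le; omega)) (h.four (by omega)) _ h.word
      (by simp) A g1 g2 (g3 0 hl), ⟨g4, g5, g7⟩, g8⟩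

/-- the data of a side of level `j + 1` -/
theorem Ctx.side14 (K : Ctx P r j lo hi e) (h12 : 12 ≤ j) {x : P} (hx : x ∈ onlyB (topOf x))
    (hl : lev x = j + 1) (hf : ¬ Fatt j x) {S : List (ℕ × ℕ × ℕ × ℕ)} (hS : ChkT4 j S)
    (h0 : (0, 0, 0, 0) ∈ S) :
    ∃ m c b f : ℕ, (m, c, b, f) ∈ S ∧ mX j x = m ∧ cX j x = c ∧ (nab j x : ℤ) - 1 = b ∧
      nab 4 x = f + 1 := by
  have h5 := K.h5
  rcases K.cases hx (by omega) (fun h => by omega) hf with h | h | ⟨a, h, -⟩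
  · have := h.1
    omega
  · refine ⟨0, 0, 0, 0, h0, h.mX.1, h.mX.2, ?_, h 4 (by omega)⟩
    rw [h j le_rfl]
    norm_num
  · obtain ⟨A, g1, g2, g3, g3', g4, g5, g6, -, g8⟩ := late_side4 K.gt (by omega) (K.comp _) h.two
      h.le h.low h.at_a hx (by omega) (fun hh => by omega) rfl
    exact ⟨_, _, _, _, hS a (mem_range.mpr (by have := h.le; omega)) (h.four (by omega)) _ h.word
      (by simp) A g1 g2 (g3 1 hl) (g3' hl), g4, g5, g6, g8⟩

/-- the data of a side -/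
theorem Ctx.side4 (K : Ctx P r j lo hi e) (h12 : 12 ≤ j) {x : P} (hx : x ∈ onlyB (topOf x))
    (hl : j + 1 ≤ lev x) (hf : ¬ Fatt j x) {S : List (ℕ × ℕ × ℕ × ℕ)} (hS : ChkS4 j S)
    (h0 : (0, 0, 0, 0) ∈ S) :
    ∃ m c b f : ℕ, (m, c, b, f) ∈ S ∧ mX j x = m ∧ cX j x = c ∧ (nab j x : ℤ) - 1 = b ∧
      nab 4 x = f + 1 := by
  have h5 := K.h5
  rcases K.cases hx (by omega) (fun h => by omega) hf with h | h | ⟨a, h, -⟩
  · have := h.1
    omega
  · refine ⟨0, 0, 0, 0, h0, h.mX.1, h.mX.2, ?_, h 4 (by omega)⟩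
    rw [h j le_rfl]
    norm_num
  · obtain ⟨A, g1, g2, g3, g3', g4, g5, g6, -, g8⟩ := late_side4 K.gt (by omega) (K.comp _) h.two
      h.le h.low h.at_a hx (by omega) (fun hh => by omega) rfl
    exact ⟨_, _, _, _, hS a (mem_range.mpr (by have := h.le; omega)) (h.four (by omega)) _ h.word
      (by simp) A g1 g2, g4, g5, g6, g8⟩

end Pool.Agent.GaussPoset.Sm

end

/-! From `Pool.Agent.W_448s7_h27.PhC` -/

section

/-!
Tables of the lines with the number of elements on the level `4` (MP_448cb3_co, S7).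
-/

namespace Pool.Agent.GaussPoset.Sm

set_option linter.unusedSectionVars false

open Finset Wd

universe u

variable {P : Type u} [Fintype P] [PartialOrder P] [DecidableEq P] {r j w : ℕ}

/-- the table `tA` is used for the joins with two elements above on the level `4`, the table `tB`
for the others -/
def aF (tA tB : List (List ℤ)) (f : ℕ) (κ g : ℤ) : Bool := if f = 0 then aT tA κ g else aT tB κ g

/-- dead or in the table -/
def okF (j : ℤ) (W : ℕ) (cap : ℕ → ℤ) (tA tB : List (List ℤ)) (f : ℕ) (κ g : ℤ) : Bool :=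
  dead j W cap κ g || aF tA tB f κ g

/-- the data without the level `4` -/
def tr3 (s : ℕ × ℕ × ℕ × ℕ) : ℕ × ℕ × ℕ := (s.1, s.2.1, s.2.2.1)

def chk0F (j : ℤ) (W : ℕ) (cap : ℕ → ℤ) (tA tB : List (List ℤ)) (E : List (ℕ × ℕ × ℕ × ℕ))
    (X : ℕ × ℕ × ℕ → ℕ × ℕ × ℕ → Bool) : Bool :=
  E.all fun s => E.all fun s' => X (tr3 s) (tr3 s') ||
    okF j W cap tA tB (s.2.2.2 + s'.2.2.2) (s.1 + s'.1) (-(s.2.1 + s'.2.1))

def chk1F (j : ℤ) (W : ℕ) (cap : ℕ → ℤ) (tA tB : List (List ℤ)) (S : List (ℕ × ℕ × ℕ × ℕ)) :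
    Bool :=
  S.all fun s => S.all fun s' =>
    okF j W cap tA tB (s.2.2.2 + s'.2.2.2) (2 + (s.1 + s'.1) + (s.2.2.1 + s'.2.2.1))
      (3 - (s.2.1 + s'.2.1))

def chk2F (j : ℤ) (W : ℕ) (cap : ℕ → ℤ) (tA tB : List (List ℤ)) (S : List (ℕ × ℕ × ℕ × ℕ)) :
    Bool :=
  S.all fun s => S.all fun s' => (List.range 5).all fun q => decide (q < 2) ||
    (List.range (9 - 2 * q)).all fun n => (List.range ((q - 1) * n + 1)).all fun d =>
      decide (d < n) || okF j W cap tA tB (s.2.2.2 + s'.2.2.2)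
        (2 * q + (s.1 + s'.1) + (s.2.2.1 + s'.2.2.1) + n) (q * q + 2 * q - (s.2.1 + s'.2.1) + d)

def chkBF (j : ℤ) (W : ℕ) (cap : ℕ → ℤ) (S : List (ℕ × ℕ × ℕ × ℕ)) : Bool :=
  (List.range (W + 1)).all fun w => decide (cap w < 9 * (j - w)) &&
    S.all fun s => decide ((s.2.1 : ℤ) ≤ s.1 * (j - w))

lemma okF_at {j : ℤ} {W : ℕ} {cap : ℕ → ℤ} {tA tB : List (List ℤ)} {f : ℕ} {κ g : ℤ}
    (h : okF j W cap tA tB f κ g = true) (hw : w ≤ W) (hc : κ * (j - w) + g ≤ cap w) :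
    aF tA tB f κ g = true := by
  unfold okF at h
  rw [not_dead hw hc, Bool.false_or] at h
  exact h

/-- the tables; `X` = the excluded pairs of ends -/
structure TabF (j W : ℕ) (cap : ℕ → ℤ) (tA tB : List (List ℤ)) (E S1 S2 : List (ℕ × ℕ × ℕ × ℕ))
    (X : ℕ × ℕ × ℕ → ℕ × ℕ × ℕ → Bool) : Prop where
  h12 : 12 ≤ j
  wj : W < j
  e : ChkE4 j E
  s1 : ChkT4 j S1
  s2 : ChkS4 j S2
  e0 : (0, 0, 0, 0) ∈ E
  s10 : (0, 0, 0, 0) ∈ S1
  s20 : (0, 0, 0, 0) ∈ S2
  len : tB.length = tA.length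
  c0 : chk0F j W cap tA tB E X = true
  c1 : chk1F j W cap tA tB S1 = true
  c2 : chk2F j W cap tA tB S2 = true
  cb : chkBF j W cap S2 = true

variable {lo hi : Tops P → ℕ → ℕ} {e : Tops P → ℕ → ℕ → P}

/-- the data of a join of level `j + 1` -/
theorem Ctx.pairF (K : Ctx P r j lo hi e) (h12 : 12 ≤ j) {E : List (ℕ × ℕ × ℕ × ℕ)}
    (hE : ChkE4 j E) (h0 : (0, 0, 0, 0) ∈ E)
    {z x x' : P} (h : Cg z x x') (hlz : lev z = j + 1) (hs : Sok j x) (hs' : Sok j x') :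
    ∃ s s' : ℕ × ℕ × ℕ × ℕ, s ∈ E ∧ s' ∈ E ∧ Dt j x (tr3 s) ∧ Dt j x' (tr3 s') ∧
      kapZ j z = (s.1 : ℤ) + s'.1 ∧ gZ j z = -((s.2.1 : ℤ) + s'.2.1) ∧
      nab 4 z = s.2.2.2 + s'.2.2.2 + 2 := by
  have H := K.gt.H
  obtain ⟨l1, l2⟩ := h.lev_eq H
  obtain ⟨k1, k2, k3, k4, k5, k6⟩ := h.line H hlz.ge
  have hqz : (lev z : ℤ) - (j + 1) = 0 := by rw [hlz]; push_cast; ring
  rw [hqz] at k1 k2 k5
  obtain ⟨u1, u2⟩ := K.ends h hlz
  obtain ⟨m, c, b, f, g1, ⟨g2, g3, g4⟩, g5⟩ := K.endd4 h12 h.only (by omega) u1 hE h0 (hs.2 h12)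
  obtain ⟨m', c', b', f', g1', ⟨g2', g3', g4'⟩, g5'⟩ := K.endd4 h12 h.only' (by omega) u2 hE h0
    (hs'.2 h12)
  obtain ⟨n0, d0⟩ := k6 (by omega)
  have hn : (nab j x : ℤ) = 1 ∧ (nab j x' : ℤ) = 1 := by
    constructor
    · rw [show j = lev x by omega, nab_self]; norm_num
    · rw [show j = lev x' by omega, nab_self]; norm_num
  refine ⟨_, _, g1, g1', ⟨g2, g3, g4⟩, ⟨g2', g3', g4'⟩, ?_, ?_, ?_⟩
  · rw [k1, n0, hn.1, hn.2, g2, g2']
    ring
  · rw [k2, d0, g3, g3']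
    ring
  · rw [h.sum H (by omega), g5, g5']
    ring

/-- **the cheap lines are in the table** -/
theorem Ctx.mem_tabF (K : Ctx P r j lo hi e) {X : ℕ × ℕ × ℕ → ℕ × ℕ × ℕ → Bool} (hN : NoP P j X)
    {W : ℕ} {cap : ℕ → ℤ} {tA tB : List (List ℤ)} {E S1 S2 : List (ℕ × ℕ × ℕ × ℕ)}
    (T : TabF j W cap tA tB E S1 S2 X)
    {z x x' : P} (h : Cg z x x') (hs : Sok j x) (hs' : Sok j x') (hw : w ≤ W)
    (hc : kapZ j z * (j - w) + gZ j z ≤ cap w) :
    ∃ f, nab 4 z = f + 2 ∧ aF tA tB f (kapZ j z) (gZ j z) = true := by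
  have H := K.gt.H
  have h12 := T.h12
  have hl := K.lev_ge h
  obtain ⟨l1, l2⟩ := h.lev_eq H
  obtain ⟨k1, k2, k3, k4, k5, k6⟩ := h.line H hl
  obtain ⟨q, hq⟩ : ∃ q, lev z = j + 1 + q := ⟨lev z - (j + 1), by omega⟩
  have hqz : (lev z : ℤ) - (j + 1) = q := by rw [hq]; push_cast; ring
  rw [hqz] at k1 k2 k5
  have h4 : nab 4 z = nab 4 x + nab 4 x' := h.sum H (by omega)
  rcases Nat.lt_or_ge q 1 with h0 | h0
  · -- level `j + 1`
    have hlz : lev z = j + 1 := by omega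
    obtain ⟨s, s', g1, g1', d1, d1', e1, e2, e3⟩ := K.pairF h12 T.e T.e0 h hlz hs hs'
    refine ⟨_, e3, ?_⟩
    have h1 := T.c0
    unfold chk0F at h1
    rw [List.all_eq_true] at h1
    have h2 := h1 _ g1
    rw [List.all_eq_true] at h2
    have h3 := h2 _ g1'
    rw [hN z x x' h hlz _ _ d1 d1', Bool.false_or] at h3
    rw [e1, e2] at hc ⊢
    exact okF_at h3 hw hc
  · rcases Nat.lt_or_ge q 2 with h1q | h1q
    · obtain rfl : q = 1 := by omega
      obtain ⟨m, c, b, f, g1, g2, g3, g4, g5⟩ := K.side14 h12 h.only (by omega) hs.1 T.s1 T.s10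
      obtain ⟨m', c', b', f', g1', g2', g3', g4', g5'⟩ := K.side14 h12 h.only' (by omega) hs'.1
        T.s1 T.s10
      obtain ⟨n0, d0⟩ := k6 (by omega)
      have e1 : kapZ j z = 2 + ((m : ℤ) + m') + ((b : ℤ) + b') := by
        rw [k1, n0, g4, g4', g2, g2']
        push_cast; ring
      have e2 : gZ j z = 3 - ((c : ℤ) + c') := by
        rw [k2, d0, g3, g3']
        push_cast; ring
      refine ⟨f + f', by rw [h4, g5, g5']; ring, ?_⟩
      have h1 := T.c1
      unfold chk1F at h1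
      rw [List.all_eq_true] at h1
      have h2 := h1 _ g1
      rw [List.all_eq_true] at h2
      have h3 := h2 _ g1'
      rw [e1, e2] at hc ⊢
      exact okF_at h3 hw hc
    · obtain ⟨m, c, b, f, g1, g2, g3, g4, g5⟩ := K.side4 h12 h.only (by omega) hs.1 T.s2 T.s20
      obtain ⟨m', c', b', f', g1', g2', g3', g4', g5'⟩ := K.side4 h12 h.only' (by omega) hs'.1
        T.s2 T.s20
      obtain ⟨n, hn⟩ : ∃ n : ℕ, nJ j z = n := ⟨(nJ j z).toNat, (Int.toNat_of_nonneg k3).symm⟩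
      obtain ⟨d, hd⟩ : ∃ d : ℕ, dJ j z = d :=
        ⟨(dJ j z).toNat, (Int.toNat_of_nonneg (k3.trans k4)).symm⟩
      rw [hn, hd] at k4 k5
      have e1 : kapZ j z = 2 * (q : ℤ) + ((m : ℤ) + m') + ((b : ℤ) + b') + n := by
        rw [k1, hn, g4, g4', g2, g2']
      have e2 : gZ j z = (q : ℤ) * q + 2 * q - ((c : ℤ) + c') + d := by
        rw [k2, hd, g3, g3']
      refine ⟨f + f', by rw [h4, g5, g5']; ring, ?_⟩
      have hB := T.cb
      unfold chkBF at hB
      rw [List.all_eq_true] at hB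
      have hB1 := hB w (List.mem_range.mpr (by omega))
      rw [Bool.and_eq_true, decide_eq_true_eq, List.all_eq_true] at hB1
      have b1 := hB1.2 _ g1
      have b2 := hB1.2 _ g1'
      rw [decide_eq_true_eq] at b1 b2
      simp only at b1 b2
      have hjw : (0 : ℤ) < (j : ℤ) - w := by
        have := T.wj
        omega
      have e5 : kapZ j z * ((j : ℤ) - w) + gZ j z =
          (2 * (q : ℤ) + ((b : ℤ) + b') + n) * ((j : ℤ) - w) +
            (m * ((j : ℤ) - w) - c) + (m' * ((j : ℤ) - w) - c') + (q : ℤ) * q + 2 * q + d := by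
        rw [e1, e2]; ring
      have hqn : 2 * q + n ≤ 8 := by
        by_contra hcon
        push Not at hcon
        have e6 : (9 : ℤ) ≤ 2 * (q : ℤ) + ((b : ℤ) + b') + n := by
          have : (9 : ℤ) ≤ 2 * (q : ℤ) + n := by exact_mod_cast hcon
          have := Int.natCast_nonneg b
          have := Int.natCast_nonneg b'
          linarith
        have e7 : 9 * ((j : ℤ) - w) ≤ (2 * (q : ℤ) + ((b : ℤ) + b') + n) * ((j : ℤ) - w) :=
          mul_le_mul_of_nonneg_right e6 hjw.le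
        have e8 : (0 : ℤ) ≤ (q : ℤ) * q + 2 * q + d := by positivity
        linarith [hB1.1]
      have h1 := T.c2
      unfold chk2F at h1
      rw [List.all_eq_true] at h1
      have h2 := h1 _ g1
      rw [List.all_eq_true] at h2
      have h3 := h2 _ g1'
      rw [List.all_eq_true] at h3
      have h4 := h3 q (List.mem_range.mpr (by omega))
      rw [Bool.or_eq_true, decide_eq_true_eq] at h4
      have h5 := h4.resolve_left (by omega)
      rw [List.all_eq_true] at h5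
      have h6 := h5 n (List.mem_range.mpr (by omega))
      rw [List.all_eq_true] at h6
      have k5' : d ≤ (q - 1) * n := by
        have : (d : ℤ) ≤ ((q - 1 : ℕ) : ℤ) * n := by
          rw [Nat.cast_sub (by omega)]
          exact_mod_cast k5
        exact_mod_cast this
      have h7 := h6 d (List.mem_range.mpr (by omega))
      rw [Bool.or_eq_true, decide_eq_true_eq] at h7
      have h8 := h7.resolve_left (by
        have : (n : ℤ) ≤ d := k4
        have : n ≤ d := by exact_mod_cast this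
        omega)
      rw [e1, e2] at hc ⊢
      exact okF_at h8 hw hc

end Pool.Agent.GaussPoset.Sm

end
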