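import Mathlib
import Pool.Agent.W_448zz_h61.Ns
import Pool.Agent.W_448zz_h61.M068
import Pool.Agent.W_448zz_h61.M077

/-! From `Pool.Agent.W_448s7s_h5.SrE` -/

section

/-!
# The pairs of ends which are left, without fold ends (MP_448cb3_co, S7, `j ≤ 16`)
-/

namespace Pool.Agent.GaussPoset.Sm

set_option linter.unusedSectionVars false

open Finset Wd

universe u

variable {P : Type u} [Fintype P] [PartialOrder P] [DecidableEq P] {r j w : ℕ}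

/-- there is no join of level `j + 1` at a fold end -/
def NF (P : Type u) [Fintype P] [PartialOrder P] [DecidableEq P] (j : ℕ) : Prop :=
  ∀ z x x' : P, Cg z x x' → lev z = j + 1 → ¬ Fold j x

lemma NF.noFo (h : NF P j) : NoFo P j := fun _ z x x' hz hl => h z x x' hz hl

lemma nf_odd (hj : j % 2 = 1) : NF P j := fun _ _ _ _ _ hf => by
  have := hf.2.1
  omega

lemma noFo_big (hj : 12 ≤ j) : NoFo P j := fun h => absurd h (by omega)

lemma NF.sok (h : NF P j) (H : Gr P r) {z x x' : P} (hz : Cg z x x') (hl : lev z = j + 1) :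
    Sok j x :=
  ⟨fun hf => by
    have := hf.1
    have := (hz.lev_eq H).1
    omega, fun _ => h z x x' hz hl⟩

/-- both exclusions -/
def XO (X Y : ℕ × ℕ × ℕ → ℕ × ℕ × ℕ → Bool) (s s' : ℕ × ℕ × ℕ) : Bool := X s s' || Y s s'

/-- the data of an element are unique -/
lemma Dt.uniq {x : P} {s s' : ℕ × ℕ × ℕ} (h : Dt j x s) (h' : Dt j x s') : s = s' := by
  obtain ⟨a1, a2, a3⟩ := h
  obtain ⟨b1, b2, b3⟩ := h'
  refine Prod.ext ?_ (Prod.ext ?_ ?_)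
  · rw [a1] at b1
    exact_mod_cast b1
  · rw [a2] at b2
    exact_mod_cast b2
  · omega

end Pool.Agent.GaussPoset.Sm

end

/-! From `Pool.Agent.W_448nl_h15.Nv16h` -/

section

/-! Values of the word E7 at the window 8, level 16 natural (kernel evaluation, in pieces). -/

namespace Pool.Agent.GaussPoset.Win.Ev

set_option maxRecDepth 100000

/-- 131332 nodes -/
theorem E7q16_21_0 : pcv 1 (tl (tl (mk [0, 0, 0, 0, 0, 0, 1, 2, 2, 3, 3, 3, 4, 5, 5, 5, 5] [0, 0, 0, 0, 1, 1, 2, 3, 4, 4, 4, 4, 5, 5, 5, 5, 5] 17 8))) (2 * 32 ^ 258) 291 (14) 1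
    [-29] = true := by
  decide +kernel

/-- 65381 nodes -/
theorem E7q16_21_1 : pcv 1 (tl (tl (mk [0, 0, 0, 0, 0, 0, 1, 2, 2, 3, 3, 3, 4, 5, 5, 5, 5] [0, 0, 0, 0, 1, 1, 2, 3, 4, 4, 4, 4, 5, 5, 5, 5, 5] 17 8))) (2 * 32 ^ 258) 291 (14) 2
    [-4] = true := by
  decide +kernel

/-- 92728 nodes -/
theorem E7q16_21_2 : pcv 1 (tl (tl (mk [0, 0, 0, 0, 0, 0, 1, 2, 2, 3, 3, 3, 4, 5, 5, 5, 5] [0, 0, 0, 0, 1, 1, 2, 3, 4, 4, 4, 4, 5, 5, 5, 5, 5] 17 8))) (2 * 32 ^ 258) 291 (14) 3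
    [4] = true := by
  decide +kernel

/-- 112115 nodes -/
theorem E7q16_21_3 : pcv 1 (tl (tl (mk [0, 0, 0, 0, 0, 0, 1, 2, 2, 3, 3, 3, 4, 5, 5, 5, 5] [0, 0, 0, 0, 1, 1, 2, 3, 4, 4, 4, 4, 5, 5, 5, 5, 5] 17 8))) (2 * 32 ^ 258) 291 (14) 4
    [3, 1, 0, 0, 0, 0, 0, 0, 0, 0, 0] = true := by
  decide +kernel

theorem E7q16_21 : pcv 1 (tl (tl (mk [0, 0, 0, 0, 0, 0, 1, 2, 2, 3, 3, 3, 4, 5, 5, 5, 5] [0, 0, 0, 0, 1, 1, 2, 3, 4, 4, 4, 4, 5, 5, 5, 5, 5] 17 8))) (2 * 32 ^ 258) 291 14 1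
    [-29, -4, 4, 3, 1, 0, 0, 0, 0, 0, 0, 0, 0, 0] = true := by
  have h := pcv_app (pcv_app (pcv_app E7q16_21_0 (by decide) E7q16_21_1) (by decide) E7q16_21_2) (by decide) E7q16_21_3
  exact h

end Pool.Agent.GaussPoset.Win.Ev

end
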