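import Mathlib
import Pool.Agent.W_448zz_h61.Ns
import Pool.Agent.W_448zz_h61.M056
import Pool.Agent.W_448zz_h61.M078

/-! From `Pool.Agent.W_448w4_h70.WB` -/

section

/-!
# The numbers of the windows `3`, `4` (MP_448cb3_co, S7, `j = 12, 14, 15`)
-/

namespace Pool.Agent.GaussPoset.W4

set_option linter.unusedSectionVars false

open Polynomial Finset Sm

universe u

variable {P : Type u} [Fintype P] [PartialOrder P] [DecidableEq P] {r j K V3 : ℕ}

/-- the check for a cell `(a, L - a)` of a stair -/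
abbrev SB (j K V3 L a : ℕ) : Prop :=
  K + 1 < stC 4 L a ∨ ((K < stC 4 L a ∨ stC 3 L a < V3) ∧ K < stC 4 L a + 2 * (L - 4 - 1) ∧
    stC 3 L a ≤ V3 ∧ (L = 2 * a ∨ (L = j + 1 ∧ L ≠ 2 * a + 2 ∧ L ≠ 2 * a + 4)))

/-- the check for a cell `(a, L - a)` of a rectangle -/
abbrev RB (j K V3 L a : ℕ) : Prop :=
  K + 1 < reC 4 L a ∨ (min a (L - a) = 2 ∧ (K < reC 4 L a ∨ reC 3 L a < V3) ∧
    K < reC 4 L a + 2 * (L - 4 - 1) ∧ reC 3 L a ≤ V3 ∧ L = j + 1)

/-- the numbers of the windows `3`, `4`: the cap `K` at window `4`, the least cost `V3` at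
window `3` -/
structure Nm (j K V3 : ℕ) : Prop where
  hj : 12 ≤ j
  k3 : 2 * K < 3 * (j - 3) ^ 2 + 3 * (j - 3)
  kk : K < (j - 3 + 3) ^ 2
  st1 : ∀ L ∈ Finset.Icc (j + 1) (j + 2), ∀ a ∈ Finset.Icc 2 (L / 2), SB j K V3 L a
  st3 : ∀ a ∈ Finset.Icc 2 ((j + 3) / 2), K + 1 < stC 4 (j + 3) a
  re1 : ∀ L ∈ Finset.Icc (j + 1) (j + 2), ∀ a ∈ Finset.Icc 2 (L - 2), RB j K V3 L a
  re3 : ∀ a ∈ Finset.Icc 2 (j + 1), K + 1 < reC 4 (j + 3) a
  fl : j % 2 = 1 → K < flC 4 j
  fo1 : j % 2 = 0 → foC 3 j < V3
  fo2 : j % 2 = 0 → K < foC 4 j + foE 4 j ∨ foC 3 j + foE 3 j < V3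
  own : ∀ t ∈ Finset.range 3, ∀ m ∈ Finset.range 3, (m = 0 ∨ t = 2) →
    (j - 3 + t) ^ 2 + (j - 3) * m ≤ K →
      (if m = 0 then (j - 3 + t) ^ 2 else K) + (2 * (j - 3 + t) + 1 + m) < V3
  row : ∀ t ∈ Finset.range 3, (j - 3 + t) ^ 2 + (j - 3 + t) ≤ K + 1 →
    (j - 3 + t + 1) ^ 2 + (j - 3 + t + 1) ≤ V3 ∧
      ((j - 3 + t) ^ 2 + (j - 3 + t) ≤ K → (j - 3 + t + 1) ^ 2 + (j - 3 + t + 1) < V3)

/-- deep cells of the stairs -/
theorem sdeep4 (n : Nm j K V3) {t : P} {Nc : Finset P} {co : P → ℕ × ℕ}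
    (C : Chart t (fun c => c.1 ≤ c.2) Nc co) {x : P}
    (hx : x ∈ Nc) (h1 : 2 ≤ (co x).1) (hlx : j + 1 ≤ lev x) :
    K + 1 < cst 4 (fun _ => lev x - 4 - 1) x + (lev x - 4 - 1) ∨
    ((K < cst 4 (fun _ => lev x - 4 - 1) x + (lev x - 4 - 1) ∨
        cst 3 (fun _ => lev x - 3 - 1) x + (lev x - 3 - 1) < V3) ∧
      K < cst 4 (fun _ => lev x - 4 - 1) x + 3 * (lev x - 4 - 1) ∧
      cst 3 (fun _ => lev x - 3 - 1) x + (lev x - 3 - 1) ≤ V3 ∧
      ((co x).1 = (co x).2 ∨ (lev x = j + 1 ∧ (co x).2 ≠ (co x).1 + 2 ∧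
        (co x).2 ≠ (co x).1 + 4))) := by
  have hj := n.hj
  have hl := C.lev x hx
  have hm : (co x).1 ≤ (co x).2 := C.mem x hx
  rcases Nat.lt_or_ge (lev x) (j + 3) with hlt | hge
  · have e4 : stC 4 (lev x) (co x).1 = cst 4 (fun _ => lev x - 4 - 1) x + (lev x - 4 - 1) := by
      rw [cst_stair (w := 4) (h := lev x - 4 - 1) C hx rfl (by omega)]
      rfl
    have e3 : stC 3 (lev x) (co x).1 = cst 3 (fun _ => lev x - 3 - 1) x + (lev x - 3 - 1) := by
      rw [cst_stair (w := 3) (h := lev x - 3 - 1) C hx rfl (by omega)]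
      rfl
    have h := n.st1 (lev x) (by rw [Finset.mem_Icc]; omega) (co x).1
      (by rw [Finset.mem_Icc]; omega)
    unfold SB at h
    rw [e4, e3] at h
    rcases h with h | ⟨b1, b2, b3, b4⟩
    · exact Or.inl h
    · refine Or.inr ⟨b1, by omega, b3, ?_⟩
      omega
  · left
    obtain ⟨y, hy, hcy⟩ := C.low x hx (j + 3 - min (co x).2 (j + 1), min (co x).2 (j + 1))
      ⟨by simp only; omega, by simp only; omega⟩
      (show j + 3 - min (co x).2 (j + 1) ≤ min (co x).2 (j + 1) by omega)
    have hly := C.lev y hy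
    have hxy : x ≤ y := by
      rw [C.le_iff x hx y hy, hcy]
      exact ⟨by simp only; omega, by simp only; omega⟩
    have hy1 : (co y).1 = j + 3 - min (co x).2 (j + 1) := by rw [hcy]
    have hy2 : (co y).2 = min (co x).2 (j + 1) := by rw [hcy]
    have hly' : lev y = j + 3 := by omega
    have h2 := cst_up (w := 4) (h := lev x - 4 - 1) (h' := j + 3 - 4 - 1) hxy (by omega)
    have h3 := cst_stair (w := 4) (h := j + 3 - 4 - 1) C hy hly' (by omega)
    have h4 := n.st3 (co y).1 (by rw [Finset.mem_Icc]; omega)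
    unfold stC at h4
    rw [h3] at h2
    omega

/-- deep cells of the rectangles -/
theorem rdeep4 (n : Nm j K V3) {t : P} {Nc : Finset P} {co : P → ℕ × ℕ}
    (C : Chart t (fun _ => True) Nc co) {x : P}
    (hx : x ∈ Nc) (h1 : 2 ≤ (co x).1) (h2 : 2 ≤ (co x).2) (hlx : j + 1 ≤ lev x) {h : ℕ}
    (hh : h + min (min (co x).1 (co x).2) 4 = lev x - 4 + 1) :
    K + 1 < cst 4 (fun _ => h) x + h ∨
    (h = lev x - 4 - 1 ∧ min (co x).1 (co x).2 = 2 ∧ (K < cst 4 (fun _ => h) x + h ∨
        cst 3 (fun _ => lev x - 3 - 1) x + (lev x - 3 - 1) < V3) ∧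
      K < cst 4 (fun _ => h) x + 3 * h ∧
      cst 3 (fun _ => lev x - 3 - 1) x + (lev x - 3 - 1) ≤ V3 ∧ lev x = j + 1) := by
  have hj := n.hj
  have hl := C.lev x hx
  have hsub : lev x - (co x).1 = (co x).2 := by omega
  have hhe : h = lev x - 4 + 1 - min (min (co x).1 (lev x - (co x).1)) 4 := by
    rw [hsub]; omega
  rcases Nat.lt_or_ge (lev x) (j + 3) with hlt | hge
  · have e4 : reC 4 (lev x) (co x).1 = cst 4 (fun _ => h) x + h := by
      rw [cst_rect (w := 4) (h := h) C hx rfl (by omega), hhe]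
      rfl
    have h' := n.re1 (lev x) (by rw [Finset.mem_Icc]; omega) (co x).1
      (by rw [Finset.mem_Icc]; omega)
    unfold RB at h'
    rw [e4] at h'
    rcases h' with h' | ⟨b0, b1, b2, b3, b4⟩
    · exact Or.inl h'
    · right
      rw [hsub] at b0
      have e3 : reC 3 (lev x) (co x).1 =
          cst 3 (fun _ => lev x - 3 - 1) x + (lev x - 3 - 1) := by
        rw [cst_rect (w := 3) (h := lev x - 3 - 1) C hx rfl (by omega)]
        unfold reC
        rw [hsub, b0, show lev x - 3 + 1 - min 2 3 = lev x - 3 - 1 by omega]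
      rw [e3] at b1 b3
      have hh' : h = lev x - 4 - 1 := by omega
      exact ⟨hh', b0, b1, by omega, b3, b4⟩
  · left
    obtain ⟨y, hy, hcy⟩ := C.low x hx (j + 3 - min (co x).2 (j + 1), min (co x).2 (j + 1))
      ⟨by simp only; omega, by simp only; omega⟩ trivial
    have hly := C.lev y hy
    have hxy : x ≤ y := by
      rw [C.le_iff x hx y hy, hcy]
      exact ⟨by simp only; omega, by simp only; omega⟩
    have hy1 : (co y).1 = j + 3 - min (co x).2 (j + 1) := by rw [hcy]
    have hy2 : (co y).2 = min (co x).2 (j + 1) := by rw [hcy]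
    have hly' : lev y = j + 3 := by omega
    have h3 := cst_up (w := 4) (h := h)
      (h' := j + 3 - 4 + 1 - min (min (co y).1 (j + 3 - (co y).1)) 4) hxy (by omega)
    have h4 := cst_rect (w := 4)
      (h := j + 3 - 4 + 1 - min (min (co y).1 (j + 3 - (co y).1)) 4) C hy hly' (by omega)
    have h5 := n.re3 (co y).1 (by rw [Finset.mem_Icc]; omega)
    unfold reC at h5
    rw [h4] at h3
    omega

theorem nm_15_64 : Nm 15 (12 ^ 2 + 64) (13 ^ 2 + 77) := by
  constructor <;> decide +kernel

end Pool.Agent.GaussPoset.W4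

end

/-! From `Pool.Agent.W_448w4_h70.WC` -/

section

/-!
# The windows `3`, `4`: natural elements (MP_448cb3_co, S7, `j = 12, 14, 15`)
-/

namespace Pool.Agent.GaussPoset.W4

set_option linter.unusedSectionVars false

open Polynomial Finset Sm

universe u

variable {P : Type u} [Fintype P] [PartialOrder P] [DecidableEq P] {r j K3 K V3 : ℕ}
  {N : Tops P → Finset P} {b : Tops P → ℕ} {θ3 θ4 : Tops P → P → ℕ}

/-- the windows `3` and `4`; `V3` is a lower bound for the costs at window `3` -/
structure Y4 (r j K3 K V3 : ℕ) (N : Tops P → Finset P) (b : Tops P → ℕ)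
    (θ3 θ4 : Tops P → P → ℕ) : Prop where
  W : Wk r j 3 K3 N b θ3
  typ : ∀ t, TypeY j t (N t) (θ3 t) (θ4 t)
  m3 : ∀ z ∈ bdR (rA N), V3 ≤ cst 3 (hA N θ3) z
  m3' : ∀ x ∈ twA N, V3 ≤ tcst 3 (thA N θ3) (twT N x, x)
  n : Nm j K V3

/-- data of the cheap deep cells -/
structure Ch (K V3 : ℕ) (N : Tops P → Finset P) (θ3 θ4 : Tops P → P → ℕ) (x : P) : Prop where
  t4 : θ4 (topOf x) x + 1 = lev x - 4 - 1
  t3 : θ3 (topOf x) x + 1 = lev x - 3 - 1
  b1 : K < cst 4 (fun _ => lev x - 4 - 1) x + (lev x - 4 - 1) ∨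
    cst 3 (fun _ => lev x - 3 - 1) x + (lev x - 3 - 1) < V3
  b2 : K < cst 4 (fun _ => lev x - 4 - 1) x + 3 * (lev x - 4 - 1)
  b3 : cst 3 (fun _ => lev x - 3 - 1) x + (lev x - 3 - 1) ≤ V3
  b4 : (∃ p, ∀ q, x ⋖ q → q = p) ∨ (∀ q, x ⋖ q → ∀ z ∈ bdR (rA N), z ⋖ q →
    ¬ ∀ y, z ⋖ y → y = q)

/-- deep cells -/
structure Dy (j K V3 : ℕ) (N : Tops P → Finset P) (θ3 θ4 : Tops P → P → ℕ) (x : P) : Prop where
  th : θ4 (topOf x) x + 2 ≤ lev x - 4
  th4 : lev x - 4 ≤ θ4 (topOf x) x + 4
  mono : ∀ y, x < y → θ4 (topOf y) y ≤ θ4 (topOf x) x + 1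
  alt : j + 1 ≤ lev x →
    K + 1 < cst 4 (fun _ => θ4 (topOf x) x + 1) x + (θ4 (topOf x) x + 1) ∨ Ch K V3 N θ3 θ4 x

/-- the threshold of a cell of a rectangle-like chart at window `4` -/
lemma rect_th4 {t : Tops P} {c : ℕ} {Nc : Finset P} {co : P → ℕ × ℕ} (R : RectNat j 4 t c Nc co)
    {x : P} (hx : x ∈ Nc)
    (hJ : ¬ (x ∈ junk (fun _ => True) Nc co ∨ x ∈ junk (fun _ => True) Nc (swp co)))
    (hl : 9 ≤ lev x) :
    thR 4 c Nc co x + min (min (co x).1 (co x).2) 4 = lev x - 4 := by
  have h1 := R.chart.lev x hx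
  have h2 := R.b_two
  have h3 := R.b_le
  have h4 : c = 4 + 1 ∨ (co x).1 ≤ c - 1 := R.rows.imp id fun h => h x hx
  unfold thR
  rw [if_neg hJ]
  omega

/-- the threshold of a cell of a stair-like chart at window `4` -/
lemma stair_th4 {t : Tops P} {Nc : Finset P} {co : P → ℕ × ℕ} (R : StairNat j 4 t Nc co)
    {x : P} (hx : x ∈ Nc) (hJ : x ∉ junk (fun c => c.1 ≤ c.2) Nc co) (hl : 9 ≤ lev x) :
    thSg 2 4 Nc co x + min (co x).1 2 = lev x - 4 := by
  have h1 := R.chart.lev x hx
  have h2 : (co x).1 ≤ (co x).2 := R.chart.mem x hx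
  unfold thSg
  rw [if_neg hJ]
  omega

/-- pendants below the doubles of level `j` of a stair -/
lemma Y4.stair_pend (Y : Y4 r j K3 K V3 N b θ3 θ4) {t : Tops P} {Nc : Finset P}
    {co : P → ℕ × ℕ} (h0 : StairNat j 4 t Nc co)
    (h1 : N t = natS Nc co)
    (pen : ∀ x z, x ≤ (t : P) → lev x = j → (Win.uc x).card = 2 → z ⋖ x →
        (∀ y, z ⋖ y → y = x) → (co x).2 = (co x).1 + 1 ∨ (co x).2 = (co x).1 + 3)
    {x z : P} (hx : x ∈ Nc) (hlx : lev x = j) (hx2 : 1 ≤ (co x).1) (hlt : (co x).1 < (co x).2)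
    (hz : z ∈ bdR (rA N)) (hzx : z ⋖ x) (ho : ∀ y, z ⋖ y → y = x) :
    (co x).2 = (co x).1 + 3 := by
  have H := Y.W.gt.H
  have HN := Y.W.natSys
  have hzR := (mem_bdR.mp hz).1
  have hzu := (mem_rA.mp hzR).1
  have h3 := stair_inner_uc h0.chart H hx hx2 hlt
  rcases pen x z (h0.chart.le_t x hx) hlx h3 hzx ho with h4 | h4
  · exfalso
    have hzN1 : z ∉ Nc := fun h => mem_unnat.mp hzu t (by rw [h1]; exact mem_natS.mpr (Or.inl h))
    obtain ⟨y, hy, h⟩ := diag_twin h0.chart h0.max H hzN1 hx hzx ho h4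
    refine (mem_rA.mp hzR).2 (mem_twA.mpr ⟨hzu, y, ?_, h⟩)
    exact (HN.mem_iff.mp (show y ∈ N t by rw [h1]; exact mem_natS.mpr (Or.inl hy))).1
  · exact h4

/-- a pendant below the fold end -/
lemma Y4.fold_pend (Y : Y4 r j K3 K V3 N b θ3 θ4) {t : Tops P} {Nc : Finset P}
    {co : P → ℕ × ℕ} (h0' : StairNat j 3 t Nc co)
    (h1 : N t = natS Nc co) (h2 : θ3 t = thS 3 Nc co)
    {x z : P} (hx : x ∈ Nc) (hlx : lev x = j) (hcc : (co x).1 = (co x).2)
    (hz : z ∈ bdR (rA N)) (hzx : z ⋖ x) (ho : ∀ y, z ⋖ y → y = x) : False := by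
  have H := Y.W.gt.H
  have HN := Y.W.natSys
  have hj := Y.n.hj
  have hlz := (H.covBy_iff.mp hzx).2
  have hl := h0'.chart.lev x hx
  have hxN : x ∈ N t := by rw [h1]; exact mem_natS.mpr (Or.inl hx)
  obtain ⟨hxu, hxt⟩ := HN.mem_iff.mp hxN
  have hbs : GaussPoset.bs N x = x := by
    unfold GaussPoset.bs
    rw [if_neg (Y.W.not_tw hxu)]
  have hJ : x ∉ junk (fun c => c.1 ≤ c.2) Nc co := not_junk_above h0'.chart hx (by omega) le_rfl
  have hth := stair_th7 h0' le_rfl (by norm_num) hx hJ (by omega)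
  obtain ⟨x0, g1, g2, g3⟩ := Y.W.hA_spec hz
  rw [ho x0 g2, hbs, hxt, h2] at g3
  have hj2 : j % 2 = 0 := by omega
  have hA2 : (co x).1 = j / 2 := by omega
  have hlb : hA N θ3 z = j - 3 - 1 := by omega
  have h7 := cst_stair (w := 3) (L := j) (h := j - 3 - 1) h0'.chart hx hlx (by omega)
  rw [hA2, show j - j / 2 = j / 2 by omega] at h7
  have h9 := cst_only (i := 3) (h := hA N θ3) H.gradedBelow hzx ho
  rw [show min (hA N θ3 z) (lev z - 3) = hA N θ3 z by rw [hlb]; omega, hlb, h7] at h9
  have h10 := Y.m3 z hz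
  rw [h9] at h10
  have h11 := Y.n.fo1 hj2
  unfold foC at h11
  omega

/-- the kinds of natural elements of level at least `j`, both windows -/
theorem Y4.cases (Y : Y4 r j K3 K V3 N b θ3 θ4) {x : P} (hx : x ∉ unnat N) (hlx : j ≤ lev x) :
    (Str 3 N θ3 x ∧ Str 4 N θ4 x) ∨ (Row1 j 3 N θ3 x ∧ Row1 j 4 N θ4 x) ∨
      Dy j K V3 N θ3 θ4 x := by
  have W := Y.W
  have H := W.gt.H
  have HN := W.natSys
  have hxt : x ∈ N (topOf x) := HN.mem_iff.mpr ⟨hx, rfl⟩
  have hj := Y.n.hj
  have hT := Y.typ (topOf x)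
  generalize ht : topOf x = t at hxt hT
  rcases hT with ⟨h1, h2, h2', h5⟩ | ⟨c, Nc, co, h0, h0', h1, h2, h2', h4⟩ |
    ⟨Nc, co, h0, h0', h1, h2, h2', h5'⟩
  · left
    have htw : ∀ z ∈ unnat N, ¬ ∀ y, x < y ↔ z < y := by
      intro z hz h
      have h7 : z ∉ onlyB t := by
        rw [← h1]
        exact mem_unnat.mp hz t
      rw [mem_onlyB] at h7
      push Not at h7
      obtain ⟨s, hs1, hs2, hs3⟩ := h7
      have h7 := W.lt_lev hz
      have h8 : z < s := lt_of_le_of_ne hs2 (by rintro rfl; omega)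
      exact hs3 (HN.top_eq hxt hs1 ((h s).mpr h8).le)
    exact ⟨⟨by rw [ht, h2], htw⟩, ⟨by rw [ht, h2'], htw⟩⟩
  · have e1 := h0.b_two
    have e2 := h0.b_le
    have hxN' : x ∈ natR Nc co := by rw [← h1]; exact hxt
    by_cases hJ : x ∈ junk (fun _ => True) Nc co ∨ x ∈ junk (fun _ => True) Nc (swp co)
    · left
      have htw : ∀ z ∈ unnat N, ¬ ∀ y, x < y ↔ z < y := by
        intro z hz h
        refine mem_unnat.mp hz t ?_
        rw [h1, mem_natR]
        rcases hJ with h' | h'
        · exact Or.inr (Or.inl (junk_twin h' h))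
        · exact Or.inr (Or.inr (junk_twin h' h))
      refine ⟨⟨?_, htw⟩, ⟨?_, htw⟩⟩
      · rw [ht, h2]
        unfold thR
        rw [if_pos hJ]
      · rw [ht, h2']
        unfold thR
        rw [if_pos hJ]
    · have hxN : x ∈ Nc := by
        rw [mem_natR] at hxN'
        rcases hxN' with h | h | h
        · exact h
        · exact absurd (Or.inl h) hJ
        · exact absurd (Or.inr h) hJ
      have hl := h0.chart.lev x hxN
      have hth := rect_th4 h0 hxN hJ (by omega)
      have hth3 := rect_th7 h0' le_rfl hxN hJ (by omega)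
      -- thresholds above `x`
      have hmono : 1 ≤ (co x).1 → 1 ≤ (co x).2 → ∀ y, x < y →
          θ4 (topOf y) y ≤ θ4 t x + 1 ∧ θ3 (topOf y) y ≤ θ3 t x + 1 := by
        intro g1 g2 y hxy
        have hy := h0.chart.up x hxN y hxy.le
        have hyt : topOf y = t := by
          have := (W.up hx hxy.le).2
          rw [this, ht]
        have hy1 := not_junk_above h0.chart hxN g1 hxy.le
        have hy2 := not_junk_above h0.chart.swap hxN g2 hxy.le
        have hle := (h0.chart.le_iff x hxN y hy).mp hxy.le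
        have hle1 : (co y).1 ≤ (co x).1 := hle.1
        have hle2 : (co y).2 ≤ (co x).2 := hle.2
        rw [hyt, h2, h2']
        unfold thR
        rw [if_neg (by rintro (h | h); exacts [hy1 h, hy2 h]), if_neg hJ,
          if_neg (by rintro (h | h); exacts [hy1 h, hy2 h]), if_neg hJ]
        omega
      by_cases h7 : (co x).1 = 0 ∨ (co x).2 = 0
      · left
        have htw : ∀ z ∈ unnat N, ¬ ∀ y, x < y ↔ z < y := by
          intro z hz h
          rcases h7 with h7 | h7
          · obtain ⟨u, hu, hcu⟩ := h0.chart.low x hxN (0, (co x).2 - 1)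
              ⟨Nat.zero_le _, Nat.sub_le _ _⟩ trivial
            refine straight_twin H h0 h1 hxN hu ?_ ?_ ?_ hz h
            · rw [hcu]
              exact Or.inr ⟨by simp only; omega, by simp only; omega⟩
            · intro y hy hp
              rw [hcu]
              rcases hp with hp | hp
              · omega
              · exact Prod.ext (by simp only; omega) (by simp only; omega)
            · rw [hcu]
              exact Or.inl rfl
          · obtain ⟨u, hu, hcu⟩ := h0.chart.low x hxN ((co x).1 - 1, 0)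
              ⟨Nat.sub_le _ _, Nat.zero_le _⟩ trivial
            refine straight_twin H h0 h1 hxN hu ?_ ?_ ?_ hz h
            · rw [hcu]
              exact Or.inl ⟨by simp only; omega, by simp only; omega⟩
            · intro y hy hp
              rw [hcu]
              rcases hp with hp | hp
              · exact Prod.ext (by simp only; omega) (by simp only; omega)
              · omega
            · rw [hcu]
              exact Or.inr rfl
        refine ⟨⟨?_, htw⟩, ⟨?_, htw⟩⟩
        · rw [ht, h2]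
          omega
        · rw [ht, h2']
          omega
      · by_cases h8 : (co x).1 = 1 ∨ (co x).2 = 1
        · right; left
          have hd := chart_inner_uc h0.chart H hxN (by omega) (by omega)
          have hno : lev x = j → ∀ z, z ⋖ x → ¬ ∀ y, z ⋖ y → y = x := fun hlx z hz =>
            h4 x z (h0.chart.le_t x hxN) hlx hd hz
          have hnab : ∀ k, 3 ≤ k → k < lev x → nab k x = 2 := by
            intro k hk hkx
            have := rect_nab h0.chart hxN (k := k) (by omega)
            omega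
          refine ⟨⟨by omega, hd, hno, by rw [ht, h2]; omega, hnab, ?_⟩,
            ⟨by omega, hd, hno, by rw [ht, h2']; omega, fun k hk => hnab k (by omega), ?_⟩⟩
          · rw [ht]
            exact fun y hy => (hmono (by omega) (by omega) y hy).2
          · rw [ht]
            exact fun y hy => (hmono (by omega) (by omega) y hy).1
        · right; right
          refine ⟨?_, ?_, ?_, ?_⟩
          · rw [ht, h2']; omega
          · rw [ht, h2']; omega
          · rw [ht]
            exact fun y hy => (hmono (by omega) (by omega) y hy).1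
          · intro hlj
            rw [ht, h2']
            rcases rdeep4 Y.n h0.chart hxN (by omega) (by omega) hlj
              (h := thR 4 c Nc co x + 1) (by omega) with h | ⟨a1, a2, a3, a4, a5, a6⟩
            · exact Or.inl h
            · right
              rw [a1] at a3 a4
              refine ⟨by rw [ht, h2']; exact a1, by rw [ht, h2]; omega, a3, a4, a5, Or.inr ?_⟩
              intro q hq z hz hzq ho
              have hqN := h0.chart.up x hxN q hq.1.le
              have hlq := (H.covBy_iff.mp hq).2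
              have hcq := (chart_cov h0.chart H hxN hqN).mp hq
              unfold Prd at hcq
              exact h4 q z (h0.chart.le_t q hqN) (by omega)
                (chart_inner_uc h0.chart H hqN (by omega) (by omega)) hzq ho
  · have hxN' : x ∈ natS Nc co := by rw [← h1]; exact hxt
    by_cases hJ : x ∈ junk (fun c => c.1 ≤ c.2) Nc co
    · left
      have htw : ∀ z ∈ unnat N, ¬ ∀ y, x < y ↔ z < y := by
        intro z hz h
        refine mem_unnat.mp hz t ?_
        rw [h1, mem_natS]
        exact Or.inr (junk_twin hJ h)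
      refine ⟨⟨?_, htw⟩, ⟨?_, htw⟩⟩
      · rw [ht, h2]
        unfold thS
        rw [if_pos hJ]
      · rw [ht, h2']
        unfold thSg
        rw [if_pos hJ]
    · have hxN : x ∈ Nc := by
        rw [mem_natS] at hxN'
        rcases hxN' with h | h
        · exact h
        · exact absurd h hJ
      have hl := h0.chart.lev x hxN
      have hm : (co x).1 ≤ (co x).2 := h0.chart.mem x hxN
      have hth := stair_th4 h0 hxN hJ (by omega)
      have hth3 := stair_th7 h0' le_rfl (by norm_num) hxN hJ (by omega)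
      have hmono : 1 ≤ (co x).1 → ∀ y, x < y →
          θ4 (topOf y) y ≤ θ4 t x + 1 ∧ θ3 (topOf y) y ≤ θ3 t x + 1 := by
        intro g1 y hxy
        have hy := h0.chart.up x hxN y hxy.le
        have hyt : topOf y = t := by
          have := (W.up hx hxy.le).2
          rw [this, ht]
        have hy1 := not_junk_above h0.chart hxN g1 hxy.le
        have hle := (h0.chart.le_iff x hxN y hy).mp hxy.le
        have hle1 : (co y).1 ≤ (co x).1 := hle.1
        have hle2 : (co y).2 ≤ (co x).2 := hle.2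
        rw [hyt, h2, h2']
        unfold thS thSg
        rw [if_neg hy1, if_neg hJ, if_neg hy1, if_neg hJ]
        omega
      rcases Nat.lt_or_ge (co x).1 1 with h7 | h7
      · left
        have htw : ∀ z ∈ unnat N, ¬ ∀ y, x < y ↔ z < y := by
          intro z hz h
          obtain ⟨u, hu, hcu⟩ := h0.chart.low x hxN (0, (co x).2 - 1)
            ⟨Nat.zero_le _, Nat.sub_le _ _⟩ (Nat.zero_le _)
          have g1 : x ⋖ u := by
            rw [chart_cov h0.chart H hxN hu, hcu]
            exact Or.inr ⟨by simp only; omega, by simp only; omega⟩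
          have g2 : z ⋖ u := (cov_of_up h).mp g1
          have g3 := stair_pendant H h0 (by omega) h1 hz (x := u)
            (by rw [h1]; exact mem_natS.mpr (Or.inl hu)) g2 (by
            intro y hy
            have hy1 : x ⋖ y := (cov_of_up h).mpr hy
            have hyN := h0.chart.up x hxN y hy1.le
            refine h0.chart.inj y hyN u hu ?_
            rw [hcu]
            rcases (chart_cov h0.chart H hxN hyN).mp hy1 with hp | hp
            · omega
            · exact Prod.ext (by simp only; omega) (by simp only; omega))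
          have g4 := g3.2.2
          rw [hcu] at g4
          simp only at g4
          omega
        refine ⟨⟨?_, htw⟩, ⟨?_, htw⟩⟩
        · rw [ht, h2]
          omega
        · rw [ht, h2']
          omega
      · rcases Nat.lt_or_ge (co x).1 2 with h8 | h8
        · right; left
          have hd := stair_inner_uc h0.chart H hxN h7 (by omega)
          have hno : lev x = j → ∀ z, z ⋖ x → ¬ ∀ y, z ⋖ y → y = x := by
            intro hlx z hz hon
            have := h5' x z (h0.chart.le_t x hxN) hlx hd hz hon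
            omega
          have hnab : ∀ k, 3 ≤ k → k < lev x → nab k x = 2 := by
            intro k hk hkx
            have := stair_nab h0.chart hxN (k := k) (by omega)
            omega
          refine ⟨⟨by omega, hd, hno, by rw [ht, h2]; omega, hnab, ?_⟩,
            ⟨by omega, hd, hno, by rw [ht, h2']; omega, fun k hk => hnab k (by omega), ?_⟩⟩
          · rw [ht]
            exact fun y hy => (hmono h7 y hy).2
          · rw [ht]
            exact fun y hy => (hmono h7 y hy).1
        · right; right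
          have ht4 : thSg 2 4 Nc co x + 1 = lev x - 4 - 1 := by omega
          refine ⟨?_, ?_, ?_, ?_⟩
          · rw [ht, h2']; omega
          · rw [ht, h2']; omega
          · rw [ht]
            exact fun y hy => (hmono h7 y hy).1
          · intro hlj
            rw [ht, h2', ht4]
            rcases sdeep4 Y.n h0.chart hxN h8 hlj with h | ⟨a1, a2, a3, a4⟩
            · exact Or.inl h
            · right
              refine ⟨by rw [ht, h2']; exact ht4, by rw [ht, h2]; omega, a1, a2, a3, ?_⟩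
              rcases a4 with a4 | ⟨a4, a5, a6⟩
              · -- a cell of the diagonal
                left
                obtain ⟨p, hp, hcp⟩ := h0.chart.low x hxN ((co x).1 - 1, (co x).2)
                  ⟨Nat.sub_le _ _, le_rfl⟩ (show (co x).1 - 1 ≤ (co x).2 by omega)
                refine ⟨p, fun q hq => ?_⟩
                have hqN := h0.chart.up x hxN q hq.1.le
                have hmq : (co q).1 ≤ (co q).2 := h0.chart.mem q hqN
                have hcq := (chart_cov h0.chart H hxN hqN).mp hq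
                refine h0.chart.inj q hqN p hp ?_
                rw [hcp]
                rcases hcq with hcq | hcq
                · exact Prod.ext (by simp only; omega) (by simp only; omega)
                · omega
              · right
                intro q hq z hz hzq ho
                have hqN := h0.chart.up x hxN q hq.1.le
                have hmq : (co q).1 ≤ (co q).2 := h0.chart.mem q hqN
                have hlq := (H.covBy_iff.mp hq).2
                have hcq := (chart_cov h0.chart H hxN hqN).mp hq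
                unfold Prd at hcq
                rcases Nat.lt_or_ge (co q).1 (co q).2 with hlt | hge
                · have := Y.stair_pend h0 h1 h5' hqN (by omega) (by omega) hlt hz hzq ho
                  omega
                · exact Y.fold_pend h0' h1 h2 hqN (by omega) (by omega) hz hzq ho

end Pool.Agent.GaussPoset.W4

end

/-! From `Pool.Agent.W_448w4_h70.WD` -/

section

/-!
# The windows `3`, `4`: labels, twins, deep covers (MP_448cb3_co, S7, `j = 12, 14, 15`)
-/

namespace Pool.Agent.GaussPoset.W4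

set_option linter.unusedSectionVars false

open Polynomial Finset Sm

universe u

variable {P : Type u} [Fintype P] [PartialOrder P] [DecidableEq P] {r j K3 K V3 : ℕ}
  {N : Tops P → Finset P} {b : Tops P → ℕ} {θ3 θ4 : Tops P → P → ℕ}

lemma Y4.thA_nat (Y : Y4 r j K3 K V3 N b θ3 θ4) {x : P} (hx : x ∉ unnat N) :
    thA N θ4 x = θ4 (topOf x) x := thX_not (Y.W.not_tw hx)

lemma thA_tw4 {x : P} (hx : x ∈ twA N) :
    thA N θ4 x = θ4 (topOf (twT N x)) (twT N x) := thX_of hx

/-- twins are not straight -/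
lemma Y4.tw_cases (Y : Y4 r j K3 K V3 N b θ3 θ4) {x : P} (hx : x ∈ twA N) :
    j < lev (twT N x) ∧ ((Row1 j 3 N θ3 (twT N x) ∧ Row1 j 4 N θ4 (twT N x)) ∨
      Dy j K V3 N θ3 θ4 (twT N x)) := by
  have h1 := mem_twA.mp hx
  have h3 := twT_spec h1.2
  have h4 := Y.W.lt_lev h1.1
  have h5 := Y.W.twSys.lev hx
  refine ⟨by omega, ?_⟩
  rcases Y.cases h3.1 (by omega) with h | h
  · exact absurd h3.2 (h.1.tw x h1.1)
  · exact h

theorem Y4.twn (Y : Y4 r j K3 K V3 N b θ3 θ4) {x : P} (hx : x ∈ twA N) :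
    Twn 4 (thA N θ4) (twT N x, x) := by
  have h1 := mem_twA.mp hx
  have h3 := twT_spec h1.2
  obtain ⟨hl, hk⟩ := Y.tw_cases hx
  have hj := Y.n.hj
  have e1 : thA N θ4 (twT N x) = θ4 (topOf (twT N x)) (twT N x) := Y.thA_nat h3.1
  have e2 := thA_tw4 (θ4 := θ4) hx
  have hm : ∀ y, twT N x < y → θ4 (topOf y) y ≤ θ4 (topOf (twT N x)) (twT N x) + 1 := by
    rcases hk with h | h
    · exact h.2.mono
    · exact h.mono
  have ht : θ4 (topOf (twT N x)) (twT N x) + 1 ≤ lev (twT N x) - 4 ∧
      lev (twT N x) - 4 ≤ θ4 (topOf (twT N x)) (twT N x) + 4 := by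
    rcases hk with h | h
    · have := h.2.th
      omega
    · have := h.th
      exact ⟨by omega, h.th4⟩
  refine ⟨?_, h3.2, ?_, ?_, ?_, ?_⟩
  · intro h
    simp only at h
    exact h3.1 (by rw [h]; exact h1.1)
  · simp only
    rw [e1]
    omega
  · simp only
    rw [e1, e2]
  · simp only
    rw [e1]
    exact ht.1
  · intro y hy
    simp only at hy ⊢
    rw [e1, Y.thA_nat (Y.W.up h3.1 hy.le).1]
    exact hm y hy

/-- cost of the twins of cells of row `1` -/
lemma Y4.tcst_row1 (Y : Y4 r j K3 K V3 N b θ3 θ4) {x : P} (hx : x ∈ twA N)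
    (hk : Row1 j 4 N θ4 (twT N x)) {a : ℕ} (ha : lev x = 4 + a) :
    tcst 4 (thA N θ4) (twT N x, x) + 1 = a ^ 2 + a := by
  have h1 := mem_twA.mp hx
  have h3 := twT_spec h1.2
  have hl := Y.W.twSys.lev hx
  have e1 : thA N θ4 (twT N x) = θ4 (topOf (twT N x)) (twT N x) := Y.thA_nat h3.1
  have h4 := hk.th
  have h5 : thA N θ4 (twT N x) + 1 = a := by omega
  rw [tcst_cst (Y.twn hx)]
  simp only
  rw [h5, cst_eq_ful (by omega), ful_two (a := a) (by omega)
    fun k hk1 hk2 => hk.nab k hk1.le hk2]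
  omega

/-- a twin of a cheap cell does not exist -/
lemma Y4.no_cheap_twin (Y : Y4 r j K3 K V3 N b θ3 θ4) {x : P} (hx : x ∈ twA N)
    (hC : Ch K V3 N θ3 θ4 (twT N x)) : False := by
  have h1 := mem_twA.mp hx
  have h3 := twT_spec h1.2
  have h4 := Y.m3' x hx
  have hl := (Y.tw_cases hx).1
  have hj := Y.n.hj
  rw [tcst_cst (Y.W.twn hx)] at h4
  simp only at h4
  rw [Y.W.thA_nat h3.1, hC.t3] at h4
  have h5 := hC.t3
  have h6 := hC.b3
  omega

/-- twins are expensive -/
theorem Y4.out_tw (Y : Y4 r j K3 K V3 N b θ3 θ4) {x : P} (hx : x ∈ twA N) :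
    K < tcst 4 (thA N θ4) (twT N x, x) := by
  have hj := Y.n.hj
  have h1 := mem_twA.mp hx
  have h3 := twT_spec h1.2
  obtain ⟨hl, hk⟩ := Y.tw_cases hx
  have hl2 := Y.W.twSys.lev hx
  rcases hk with ⟨hk3, hk4⟩ | hD
  · obtain ⟨a, ha⟩ : ∃ a, lev x = 4 + a := ⟨lev x - 4, by omega⟩
    have h5 := Y.tcst_row1 hx hk4 ha
    have h6 := Y.W.tcst_row1 hx hk3 (a := a + 1) (by omega)
    have h7 := Y.m3' x hx
    by_contra hcon
    obtain ⟨t, ht⟩ : ∃ t, a = j - 3 + t := ⟨a - (j - 3), by omega⟩
    have h8 : t < 3 := by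
      by_contra h9
      have h10 : (j - 3 + 3) ^ 2 ≤ a ^ 2 := Nat.pow_le_pow_left (by omega) 2
      have := Y.n.kk
      omega
    have h9 := Y.n.row t (Finset.mem_range.mpr h8) (by rw [← ht]; omega)
    rw [← ht] at h9
    omega
  · have e1 : thA N θ4 (twT N x) = θ4 (topOf (twT N x)) (twT N x) := Y.thA_nat h3.1
    rcases hD.alt (by omega) with h | h
    · rw [tcst_cst (Y.twn hx)]
      simp only
      rw [e1]
      omega
    · exact (Y.no_cheap_twin hx h).elim

/-- the natural element of an element off the far set, window `4` -/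
lemma Y4.bs (Y : Y4 r j K3 K V3 N b θ3 θ4) {x : P} (hx : x ∉ rA N) :
    Bs N θ4 x (GaussPoset.bs N x) := by
  classical
  unfold GaussPoset.bs
  rcases not_mem_rA.mp hx with h | h
  · rw [if_neg (Y.W.not_tw h)]
    exact ⟨h, rfl, Y.thA_nat h, fun k => Or.inl rfl, fun v => Iff.rfl⟩
  · rw [if_pos h]
    have h1 := Y.W.twSys.up x h
    refine ⟨Y.W.twSys.nat x h, Y.W.twSys.lev h, thA_tw4 h, fun k => ?_, h1⟩
    rcases Nat.lt_or_ge k (Pool.Agent.GaussPoset.lev x) with h2 | h2
    · exact Or.inl (nab_congr_up h1 h2)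
    · exact Or.inr h2

lemma Y4.hA_le (Y : Y4 r j K3 K V3 N b θ3 θ4) {z x : P} (hx : x ∉ rA N) (hzx : z ⋖ x) :
    hA N θ4 z ≤ θ4 (topOf (GaussPoset.bs N x)) (GaussPoset.bs N x) + 1 := by
  rw [← (Y.bs hx).th]
  exact hcan_le hx hzx

lemma Y4.hA_spec (Y : Y4 r j K3 K V3 N b θ3 θ4) {z : P} (hz : z ∈ bdR (rA N)) :
    ∃ x, x ∉ rA N ∧ z ⋖ x ∧
      hA N θ4 z = θ4 (topOf (GaussPoset.bs N x)) (GaussPoset.bs N x) + 1 := by
  obtain ⟨x, h1, h2, h3⟩ := hcan_spec (θ := thA N θ4) hz
  refine ⟨x, h1, h2, ?_⟩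
  rw [← (Y.bs h1).th]
  exact h3

/-- elements below a cheap cell -/
theorem Y4.cheap_cover (Y : Y4 r j K3 K V3 N b θ3 θ4) {z x1 : P} (hz : z ∈ bdR (rA N))
    (hx1 : x1 ∉ unnat N) (hzx : z ⋖ x1) (hlx : j + 1 ≤ lev x1) (hC : Ch K V3 N θ3 θ4 x1)
    (he : hA N θ4 z = θ4 (topOf x1) x1 + 1) : K < cst 4 (hA N θ4) z := by
  classical
  have W := Y.W
  have H := W.gt.H
  have hj := Y.n.hj
  have hzR := (mem_bdR.mp hz).1
  have e1 := (H.covBy_iff.mp hzx).2
  have hh := he.trans hC.t4
  by_cases ho : ∀ q, z ⋖ q → q = x1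
  · -- a pendant
    rcases hC.b1 with h | h
    · have h9 := cst_only (i := 4) (h := hA N θ4) H.gradedBelow hzx ho
      rw [h9, hh, Nat.min_eq_left (by omega)]
      exact h
    · exfalso
      obtain ⟨x0, g1, g2, g3⟩ := W.hA_spec hz
      have hbs : GaussPoset.bs N x1 = x1 := by
        unfold GaussPoset.bs
        rw [if_neg (W.not_tw hx1)]
      rw [ho x0 g2, hbs, hC.t3] at g3
      have h9 := cst_only (i := 3) (h := hA N θ3) H.gradedBelow hzx ho
      have h10 := Y.m3 z hz
      rw [h9, g3, Nat.min_eq_left (by omega)] at h10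
      omega
  · push Not at ho
    obtain ⟨x2, hzx2, hne⟩ := ho
    have e2 := (H.covBy_iff.mp hzx2).2
    have hlx2 : lev x2 = lev x1 := by omega
    by_cases hq : ∃ q, x2 ⋖ q ∧ ¬ x1 ≤ q
    · -- another element of the level above
      obtain ⟨q, hq1, hq2⟩ := hq
      have e3 := (H.covBy_iff.mp hq1).2
      obtain ⟨a, ha⟩ : ∃ a, lev x1 = 4 + (a + 1) := ⟨lev x1 - 5, by omega⟩
      have hha : hA N θ4 z = a := by omega
      have hmono : ∀ k, nab k x1 ≤ nab k z := fun k => nab_mono hzx.1.le
      have n1 : nab (4 + a) x1 + 1 ≤ nab (4 + a) z := by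
        unfold nab
        have h11 : insert q ((lv P (4 + a)).filter (fun y => x1 ≤ y)) ⊆
            (lv P (4 + a)).filter (fun y => z ≤ y) := by
          intro y hy
          rw [mem_insert, mem_filter, mem_lv] at hy
          rw [mem_filter, mem_lv]
          rcases hy with rfl | hy
          · exact ⟨by omega, hzx2.1.le.trans hq1.1.le⟩
          · exact ⟨hy.1, hzx.1.le.trans hy.2⟩
        have h12 := Finset.card_le_card h11
        rw [Finset.card_insert_of_notMem (by
          rw [mem_filter]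
          exact fun h => hq2 h.2)] at h12
        exact h12
      have n2 : 2 ≤ nab (4 + (a + 1)) z :=
        two_le_nab hzx.1.le hzx2.1.le (by omega) (by omega) (Ne.symm hne)
      have n3 : nab (4 + (a + 1)) x1 = 1 := by
        rw [← ha]
        exact nab_self
      have n4 : nab (4 + (a + 2)) z = 1 := by
        rw [show 4 + (a + 2) = lev z by omega]
        exact nab_self
      have h7 := hC.b2
      rw [show lev x1 - 4 - 1 = a by omega,
        cst_shift (i := 4) (a := a + 1) (h := fun _ => a) (x := x1) (by omega),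
        Finset.sum_range_succ, Finset.sum_range_succ, n3] at h7
      rw [cst_shift (i := 4) (a := a + 2) (h := hA N θ4) (x := z) (by omega), hha,
        Finset.sum_range_succ, Finset.sum_range_succ, Finset.sum_range_succ, n4]
      have h8 : ∑ n ∈ range a, min a n * nab (4 + n) x1 ≤
          ∑ n ∈ range a, min a n * nab (4 + n) z :=
        Finset.sum_le_sum fun n _ => Nat.mul_le_mul_left _ (hmono _)
      have m1 : min a (a + 1) = a := by omega
      have m2 : min a (a + 1 + 1) = a := by omega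
      have m3 : min a (a + 2) = a := by omega
      rw [m1] at h7 ⊢
      rw [Nat.min_self] at h7 ⊢
      have h9 : a * (nab (4 + a) x1 + 1) ≤ a * nab (4 + a) z := Nat.mul_le_mul_left _ n1
      have h10 : a * 2 ≤ a * nab (4 + (a + 1)) z := Nat.mul_le_mul_left _ n2
      rw [Nat.mul_add] at h9
      omega
    · exfalso
      push Not at hq
      have hq' : ∀ q, x2 ⋖ q → x1 ⋖ q := by
        intro q hq1
        have e3 := (H.covBy_iff.mp hq1).2
        refine H.covBy_iff.mpr ⟨lt_of_le_of_ne (hq q hq1) (fun h => ?_), by omega⟩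
        have := congrArg lev h
        omega
      obtain ⟨q, hq1, -⟩ := Hul.exists_cov (w := x2) (v := (topOf x2 : P))
        (lt_of_le_of_ne (le_topOf x2) (by
          intro h
          have := (topOf x2).2
          rw [← h] at this
          omega))
      by_cases hx2 : x2 ∈ unnat N
      · by_cases ht2 : x2 ∈ twA N
        · have h3 := twT_spec (mem_twA.mp ht2).2
          have hyq : twT N x2 ⋖ q := (cov_of_up h3.2).mpr hq1
          have hyx : twT N x2 = x1 := by
            by_contra hcon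
            refine Win.dc_three H hq1 hyq (hq' q hq1) ?_ hne hcon
            intro h
            exact h3.1 (h ▸ hx2)
          exact Y.no_cheap_twin ht2 (by rw [hyx]; exact hC)
        · have key : (∀ v, x1 < v ↔ x2 < v) → False := fun h =>
            ht2 (mem_twA.mpr ⟨hx2, x1, hx1, h⟩)
          rcases hC.b4 with ⟨p, hp⟩ | h4
          · have hqp : q = p := hp q (hq' q hq1)
            refine key (twin_of_single (x := p) (fun v => ⟨hp v, ?_⟩) (fun v => ⟨fun h =>
              hp v (hq' v h), ?_⟩))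
            · rintro rfl
              rw [← hqp]
              exact hq' q hq1
            · rintro rfl
              rw [← hqp]
              exact hq1
          · by_cases ho2 : ∀ y, x2 ⋖ y → y = q
            · have hqn : q ∉ rA N := not_mem_rA.mpr (Or.inl (W.up hx1 (hq' q hq1).1.le).1)
              exact h4 q (hq' q hq1) x2 (mem_bdR.mpr ⟨mem_rA.mpr ⟨hx2, ht2⟩, q, hqn, hq1⟩)
                hq1 ho2
            · push Not at ho2
              obtain ⟨q2, hq3, hq4⟩ := ho2
              exact key (twin_of_pair H (hq' q hq1) (hq' q2 hq3) hq1 hq3 (Ne.symm hq4))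
      · exact W.no_adj hzR hx1 hx2 hzx hzx2 (Ne.symm hne) (hq' q hq1) hq1

/-- a boundary element with a deep cover of level greater than `j` is expensive -/
theorem Y4.deep_cover (Y : Y4 r j K3 K V3 N b θ3 θ4) {z : P} (hz : z ∈ bdR (rA N)) {x : P}
    (hx : x ∉ rA N) (hzx : z ⋖ x) (hlx : j + 1 ≤ lev x)
    (hD : Dy j K V3 N θ3 θ4 (GaussPoset.bs N x)) : K < cst 4 (hA N θ4) z := by
  have H := Y.W.gt.H.gradedBelow
  have hj := Y.n.hj
  -- a deep cover which defines the label
  obtain ⟨x1, h1, h2, h3, h4⟩ : ∃ x1, x1 ∉ rA N ∧ z ⋖ x1 ∧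
      Dy j K V3 N θ3 θ4 (GaussPoset.bs N x1) ∧
      hA N θ4 z = θ4 (topOf (GaussPoset.bs N x1)) (GaussPoset.bs N x1) + 1 := by
    by_cases he : hA N θ4 z = θ4 (topOf (GaussPoset.bs N x)) (GaussPoset.bs N x) + 1
    · exact ⟨x, hx, hzx, hD, he⟩
    · obtain ⟨x0, g1, g2, g3⟩ := Y.hA_spec hz
      refine ⟨x0, g1, g2, ?_, g3⟩
      have g4 := Y.hA_le hx hzx
      have g5 := hD.th
      have g6 := Y.bs hx
      have g7 := Y.bs g1
      have e1 := H.lev_covBy hzx
      have e2 := H.lev_covBy g2
      have e3 := g6.lev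
      have e4 := g7.lev
      rcases Y.cases g7.nat (by omega) with h | h | h
      · have := h.2.th
        omega
      · have := h.2.th
        omega
      · exact h
  have g7 := Y.bs h1
  have e1 := H.lev_covBy hzx
  have e2 := H.lev_covBy h2
  have e4 := g7.lev
  rcases h3.alt (by omega) with h5 | h5
  · have h6 := cst_ge_cover (i := 4) (h := hA N θ4) H h2
    rw [h4] at h6
    rw [← cst_const_congr g7.lev g7.nab] at h6
    have h7 := h3.th
    rw [Nat.min_eq_left (by omega)] at h6
    omega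
  · by_cases ht : x1 ∈ twA N
    · have hbs : GaussPoset.bs N x1 = twT N x1 := by
        unfold GaussPoset.bs
        rw [if_pos ht]
      rw [hbs] at h5
      exact (Y.no_cheap_twin ht h5).elim
    · have hbs : GaussPoset.bs N x1 = x1 := by
        unfold GaussPoset.bs
        rw [if_neg ht]
      rw [hbs] at h5 h4
      exact Y.cheap_cover hz ((not_mem_rA.mp h1).resolve_right ht) h2 (by omega) h5 h4

end Pool.Agent.GaussPoset.W4

end

/-! From `Pool.Agent.W_448w4_h70.WF` -/

section

/-!
# The windows `3`, `4`: straight covers (MP_448cb3_co, S7, `j = 12, 14, 15`)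
-/

namespace Pool.Agent.GaussPoset.W4

set_option linter.unusedSectionVars false

open Polynomial Finset Sm

universe u

variable {P : Type u} [Fintype P] [PartialOrder P] [DecidableEq P] {r j K3 K V3 : ℕ}
  {N : Tops P → Finset P} {b : Tops P → ℕ} {θ3 θ4 : Tops P → P → ℕ}

/-- the full costs at the windows `3` and `4` -/
lemma ful_three_four {z : P} {a : ℕ} (hl : lev z = 4 + a) :
    ful 3 z = ful 4 z + ∑ n ∈ range (a + 1), nab (4 + n) z := by
  have h4 : ful 4 z = ∑ n ∈ range (a + 1), n * nab (4 + n) z := by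
    have h := cst_shift (i := 4) (a := a) (h := fun _ => a) (x := z) hl
    rw [cst_eq_ful (by omega)] at h
    rw [h]
    refine Finset.sum_congr rfl fun n hn => ?_
    rw [mem_range] at hn
    rw [Nat.min_eq_right (by omega)]
  have h3 : ful 3 z = ∑ n ∈ range (a + 2), n * nab (3 + n) z := by
    have h := cst_shift (i := 3) (a := a + 1) (h := fun _ => a + 1) (x := z) (by omega)
    rw [cst_eq_ful (by omega)] at h
    rw [h]
    refine Finset.sum_congr rfl fun n hn => ?_
    rw [mem_range] at hn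
    rw [Nat.min_eq_right (by omega)]
  rw [h3, h4, Finset.sum_range_succ', zero_mul, add_zero, ← Finset.sum_add_distrib]
  refine Finset.sum_congr rfl fun n _ => ?_
  rw [show 3 + (n + 1) = 4 + n by omega]
  ring

/-- numbers of an own pair -/
lemma pair_numbers {y s c : ℕ} (f : ℕ → ℕ) (hc : c = y + s) (h2 : ∀ n, n < c → 2 ≤ f n)
    (he : ∀ n, n < c → (n < y ∨ c ≤ n + 1) → f n = 2) :
    ∃ m E, ∑ n ∈ range c, n * f n + c = c ^ 2 + E ∧ ∑ n ∈ range c, f n = 2 * c + m ∧
      y * m ≤ E ∧ (m = 0 → E = 0) ∧ (m ≠ 0 → 2 ≤ s) := by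
  refine ⟨∑ n ∈ range c, (f n - 2), ∑ n ∈ range c, n * (f n - 2), ?_, ?_, ?_, ?_, ?_⟩
  · have h3 : ∑ n ∈ range c, n * f n = (∑ n ∈ range c, n) * 2 + ∑ n ∈ range c, n * (f n - 2) := by
      rw [Finset.sum_mul, ← Finset.sum_add_distrib]
      refine Finset.sum_congr rfl fun n hn => ?_
      rw [mem_range] at hn
      rw [← Nat.mul_add]
      congr 1
      have := h2 n hn
      omega
    rw [h3, Finset.sum_range_id_mul_two]
    rcases Nat.eq_zero_or_pos c with h0 | h0
    · subst h0; simp
    · obtain ⟨d, rfl⟩ : ∃ d, c = d + 1 := ⟨c - 1, by omega⟩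
      rw [Nat.add_sub_cancel]
      ring
  · have h3 : ∑ n ∈ range c, f n = ∑ n ∈ range c, (2 + (f n - 2)) := by
      refine Finset.sum_congr rfl fun n hn => ?_
      rw [mem_range] at hn
      have := h2 n hn
      omega
    rw [h3, Finset.sum_add_distrib, Finset.sum_const, card_range, smul_eq_mul]
    ring
  · rw [Finset.mul_sum]
    refine Finset.sum_le_sum fun n hn => ?_
    rw [mem_range] at hn
    rcases Nat.lt_or_ge n y with h | h
    · rw [he n hn (Or.inl h), Nat.sub_self, mul_zero]
      exact Nat.zero_le _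
    · exact Nat.mul_le_mul_right _ h
  · intro h
    rw [Finset.sum_eq_zero_iff] at h
    refine Finset.sum_eq_zero fun n hn => ?_
    rw [h n hn, mul_zero]
  · intro h
    by_contra hs
    refine h (Finset.sum_eq_zero fun n hn => ?_)
    rw [mem_range] at hn
    rw [he n hn (by omega), Nat.sub_self]

/-- the own pair: two straight covers on the two sides of a rectangle-like component -/
theorem Y4.own_pair (Y : Y4 r j K3 K V3 N b θ3 θ4) {z : P}
    (hz : z ∈ bdR (rA N)) (hh : hA N θ4 z = lev z - 4) (hh3 : hA N θ3 z = lev z - 3) {t : Tops P}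
    {c : ℕ} {Nc : Finset P} {co : P → ℕ × ℕ} (R : RectNat j 3 t c Nc co) {x x' : P}
    (hx : Side (fun _ => True) Nc co x) (hx' : Side (fun _ => True) Nc (swp co) x')
    (hzx : z ⋖ x) (hzx' : z ⋖ x') : K < cst 4 (hA N θ4) z := by
  classical
  have H := Y.W.gt.H
  have hg := Y.W.gt.good
  have hj := Y.n.hj
  have hlz := Y.W.bd_lev hz
  have e1 := (H.covBy_iff.mp hzx).2
  have e2 := (H.covBy_iff.mp hzx').2
  have hsum := fun {k : ℕ} (hk : 1 ≤ k) (hkz : k < lev z) =>
    nab_two_sides H R hx hx' hzx hzx' hk hkz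
  have n1 : ∀ k, k ≤ j → nab k x = 1 := fun k hk =>
    hx.nab_one rowT_true R.chart H hg R.strip R.one1 hk (by omega)
  have n2 : ∀ k, k ≤ j → nab k x' = 1 := fun k hk =>
    hx'.nab_one rowT_true R.chart.swap H hg R.strip R.one2 hk (by omega)
  obtain ⟨c0, hc0⟩ : ∃ c0, lev z = 4 + c0 := ⟨lev z - 4, by omega⟩
  obtain ⟨s, hs⟩ : ∃ s, c0 = j - 3 + s := ⟨c0 - (j - 3), by omega⟩
  have hge2 : ∀ n, n < c0 → 2 ≤ nab (4 + n) z := by
    intro n hn
    rw [hsum (k := 4 + n) (by omega) (by omega)]
    have := one_le_nab (l := 4 + n) (z := x) (by omega)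
    have := one_le_nab (l := 4 + n) (z := x') (by omega)
    omega
  have heq1 : ∀ n, n < c0 → (n < j - 3 ∨ c0 ≤ n + 1) → nab (4 + n) z = 2 := by
    intro n hn hor
    rw [hsum (k := 4 + n) (by omega) (by omega)]
    rcases Nat.lt_or_ge (4 + n) (j + 1) with h | h
    · rw [n1 _ (by omega), n2 _ (by omega)]
    · rw [show 4 + n = lev x by omega, nab_self, show lev x = lev x' by omega, nab_self]
  obtain ⟨m, E, f1, f2, f3, f4, f5⟩ := pair_numbers (y := j - 3) (s := s) (c := c0)
    (fun n => nab (4 + n) z) hs hge2 heq1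
  have hv : cst 4 (hA N θ4) z = ful 4 z := cst_eq_ful (by omega)
  have hv3 : cst 3 (hA N θ3) z = ful 3 z := cst_eq_ful (by omega)
  have h34 := ful_three_four hc0
  have h4 : ful 4 z = c0 ^ 2 + E := by
    have h := cst_shift (i := 4) (a := c0) (h := fun _ => c0) (x := z) hc0
    rw [cst_eq_ful (by omega), Finset.sum_range_succ, ← hc0, nab_self, mul_one,
      Nat.min_self] at h
    rw [h, ← f1]
    congr 1
    refine Finset.sum_congr rfl fun n hn => ?_
    rw [mem_range] at hn
    rw [Nat.min_eq_right (by omega)]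
  rw [Finset.sum_range_succ, f2, ← hc0, nab_self] at h34
  have h7 := Y.m3 z hz
  rw [hv3, h34] at h7
  rw [hv]
  by_contra hcon
  have h8 : s < 3 := by
    by_contra h9
    have h10 : (j - 3 + 3) ^ 2 ≤ c0 ^ 2 := Nat.pow_le_pow_left (by omega) 2
    have := Y.n.kk
    omega
  have h9 : m < 3 := by
    by_contra h9
    have hkk := Y.n.kk
    have h10 := f5 (by omega)
    have h11 : (j - 3 + 2) ^ 2 ≤ c0 ^ 2 := Nat.pow_le_pow_left (by omega) 2
    have h12 : (j - 3) * 3 ≤ (j - 3) * m := Nat.mul_le_mul_left _ (by omega)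
    have h13 : (j - 3 + 3) ^ 2 = (j - 3 + 2) ^ 2 + (2 * (j - 3) + 5) := by ring
    omega
  have h10 := Y.n.own s (Finset.mem_range.mpr h8) m (Finset.mem_range.mpr h9) (by
    by_cases hm : m = 0
    · exact Or.inl hm
    · have := f5 hm
      exact Or.inr (by omega)) (by rw [← hs]; omega)
  rw [← hs] at h10
  by_cases hm : m = 0
  · rw [if_pos hm] at h10
    have := f4 hm
    omega
  · rw [if_neg hm] at h10
    omega

/-- straight covers below one top -/
theorem Y4.own_out (Y : Y4 r j K3 K V3 N b θ3 θ4) {z : P}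
    (hz : z ∈ bdR (rA N)) (hh : hA N θ4 z = lev z - 4) (hh3 : hA N θ3 z = lev z - 3)
    (hF : ∀ x, z ⋖ x → x ∉ unnat N ∧ Str 3 N θ3 x) {t : Tops P}
    (ht : ∀ x, z ⋖ x → topOf x = t) : K < cst 4 (hA N θ4) z := by
  classical
  have H := Y.W.gt.H
  have HN := Y.W.natSys
  have hj := Y.n.hj
  have hlz := Y.W.bd_lev hz
  have hzu := (mem_rA.mp (mem_bdR.mp hz).1).1
  obtain ⟨x, hzx, -⟩ := Hul.exists_cov (w := z) (v := (topOf z : P))
    (lt_of_le_of_ne (le_topOf z) (by
      intro h
      have := (topOf z).2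
      rw [← h] at this
      omega))
  have hzN := mem_unnat.mp hzu t
  have hin : ∀ x, z ⋖ x → x ∈ N t ∧ θ3 t x = lev x - 3 ∧ lev z = lev x + 1 := by
    intro x hx
    refine ⟨HN.mem_iff.mpr ⟨(hF x hx).1, ht x hx⟩, ?_, (H.covBy_iff.mp hx).2⟩
    rw [← ht x hx]
    exact (hF x hx).2.th
  have hxx := hin x hzx
  rcases Y.typ t with ⟨g1, g2, g2', g5⟩ | ⟨c, Nc, co, h0, h0', g1, g2, g2', g4⟩ |
    ⟨Nc, co, h0, h0', g1, g2, g2', g5'⟩
  · exfalso
    apply hzN
    rw [g1, mem_onlyB]
    intro s hs hzs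
    have hzs' : z < s := lt_of_le_of_ne hzs (by rintro rfl; omega)
    obtain ⟨u, hu, hus⟩ := Hul.exists_cov hzs'
    have h1 := (hin u hu).1
    rw [g1, mem_onlyB] at h1
    exact h1 s hs hus
  · rw [g1] at hzN
    have hside : ∀ x, z ⋖ x → Side (fun _ => True) Nc co x ∨ Side (fun _ => True) Nc (swp co) x := by
      intro x hx
      obtain ⟨a1, a2, a3⟩ := hin x hx
      rw [g1] at a1
      rw [g2] at a2
      exact rect_str7 h0' le_rfl a1 (by omega) a2
    by_cases honly : ∀ y, z ⋖ y → y = x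
    · exfalso
      obtain ⟨a1, a2, a3, a4, a5⟩ := rect_pendant H h0' g1 hzu hxx.1 hzx honly
      rcases hside x hzx with h | h
      · rcases h with h | h
        · exact a2 h
        · have := h.2
          omega
      · rcases h with h | h
        · exact a3 h
        · have := h.2
          rw [swp_fst] at this
          omega
    · push Not at honly
      obtain ⟨x', hzx', hne'⟩ := honly
      have hne : x ≠ x' := Ne.symm hne'
      have hxx' := hin x' hzx'
      have huni := uc_two_of H hzx hzx' hne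
      rcases hside x hzx with h | h
      · rcases hside x' hzx' with h' | h'
        · exact absurd (mem_natR.mpr (Or.inr (Or.inl
            (junk_of_sides rowT_true h0.chart h0.one1 h h' hne (by omega) huni hzx)))) hzN
        · exact Y.own_pair hz hh hh3 h0' h h' hzx hzx'
      · rcases hside x' hzx' with h' | h'
        · exact Y.own_pair hz hh hh3 h0' h' h hzx' hzx
        · exact absurd (mem_natR.mpr (Or.inr (Or.inr
            (junk_of_sides rowT_true h0.chart.swap h0.one2 h h' hne (by omega) huni hzx)))) hzN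
  · exfalso
    rw [g1] at hzN
    have hside : ∀ x, z ⋖ x → Side (fun c => c.1 ≤ c.2) Nc co x := by
      intro x hx
      obtain ⟨a1, a2, a3⟩ := hin x hx
      rw [g1] at a1
      rw [g2] at a2
      exact stair_str7 h0' le_rfl (by norm_num) a1 (by omega) a2
    by_cases honly : ∀ y, z ⋖ y → y = x
    · obtain ⟨a1, a2, a3⟩ := stair_pendant H h0' (by omega) g1 hzu hxx.1 hzx honly
      rcases hside x hzx with h | h
      · exact a2 h
      · have := h.2
        omega
    · push Not at honly
      obtain ⟨x', hzx', hne'⟩ := honly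
      have hne : x ≠ x' := Ne.symm hne'
      have hxx' := hin x' hzx'
      have huni := uc_two_of H hzx hzx' hne
      exact hzN (mem_natS.mpr (Or.inr (junk_of_sides rowT_shift h0.chart (h0'.one1 (by norm_num))
        (hside x hzx) (hside x' hzx') hne (by omega) huni hzx)))

end Pool.Agent.GaussPoset.W4

end

/-! From `Pool.Agent.W_448f4_h70.FB` -/

section

/-!
# The numbers of the windows `3`, `4`, second list (MP_448cb3_co, S7, `j = 12, 14, 15, 16`)
-/

namespace Pool.Agent.GaussPoset.W4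

set_option linter.unusedSectionVars false

open Polynomial Finset Sm

theorem nm_15_71 : Nm 15 (12 ^ 2 + 71) (13 ^ 2 + 78) := by
  constructor <;> decide +kernel

theorem nm_15_75 : Nm 15 (12 ^ 2 + 75) (13 ^ 2 + 81) := by
  constructor <;> decide +kernel

theorem nm_16_75 : Nm 16 (13 ^ 2 + 75) (14 ^ 2 + 81) := by
  constructor <;> decide +kernel

end Pool.Agent.GaussPoset.W4

end
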