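import Mathlib
import Pool.Agent.W_448zz_h61.Ns
import Pool.Agent.W_448zz_h61.M076

/-! From `Pool.Agent.W_448s7s_h5.SpC` -/

section

/-!
# S7 and S8 for `j ≤ 4`: window `0` (MP_448cb3_co)
-/

namespace Pool.Agent.GaussPoset.Sm

set_option linter.unusedSectionVars false

open Finset Wd

universe u

variable {P : Type u} [Fintype P] [PartialOrder P] [DecidableEq P] {r j : ℕ}

/-- the elements above on the next level are the upper covers -/
lemma nab_uc (H : Gr P r) {z : P} {k : ℕ} (hk : lev z = k + 1) : nab k z = (Win.uc z).card := by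
  classical
  unfold nab
  congr 1
  ext y
  rw [mem_filter, mem_lv, Win.mem_uc]
  constructor
  · rintro ⟨h1, h2⟩
    exact H.covBy_iff.mpr ⟨lt_of_le_of_ne h2 (by rintro rfl; omega), by omega⟩
  · intro h
    have := (H.covBy_iff.mp h).2
    exact ⟨by omega, h.1.le⟩

/-- the covers of a join of level `j + 1` have one cover -/
theorem cg_ends (G : Win.GoodTo P r j) (hj : 2 ≤ j) {z x x' : P} (h : Cg z x x')
    (hl : lev z = j + 1) : (Win.uc x).card = 1 ∧ (Win.uc x').card = 1 := by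
  have H := G.H
  obtain ⟨l1, l2⟩ := h.lev_eq H
  have hne : x ≠ x' := by rintro rfl; exact h.ne rfl
  have G' : Win.GoodTo P r ((j - 1) + 1) := by
    rw [show j - 1 + 1 = j by omega]
    exact G
  rcases (Win.near_level' G' (by omega)).1 z x x' (by omega) h.cov h.cov' hne with h1 | ⟨h1, h2, _⟩
  · exfalso
    obtain ⟨y, hy, hy'⟩ := Win.exists_of_ucv (v := x) (v' := x') (by rw [h1]; exact one_pos)
    have e1 := mem_onlyB.mp (onlyB_up h.only hy.1.le) (topOf y) (topOf y).2 (le_topOf y)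
    have e2 := mem_onlyB.mp (onlyB_up h.only' hy'.1.le) (topOf y) (topOf y).2 (le_topOf y)
    exact h.ne (Subtype.ext (e1.symm.trans e2))
  · exact ⟨h1, h2⟩

/-- deeper joins are more expensive -/
lemma big_T (G : Win.GoodTo P r j) (hj : 1 ≤ j) {z x x' : P} (h : Cg z x x')
    (hl : j + 2 ≤ lev z) : 5 ≤ kapZ j z * j + gZ j z := by
  have H := G.H
  obtain ⟨l1, l2⟩ := h.lev_eq H
  obtain ⟨k1, k2, k3, k4, -, -⟩ := h.line H (j := j) (by omega)
  have s1 := side_nonneg (x := x) (j := j) (by omega)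
  have s2 := side_nonneg (x := x') (j := j) (by omega)
  have n1 : (1 : ℤ) ≤ nab j x := by exact_mod_cast one_le_nab (l := j) (z := x) (by omega)
  have n2 : (1 : ℤ) ≤ nab j x' := by exact_mod_cast one_le_nab (l := j) (z := x') (by omega)
  have hj' : (1 : ℤ) ≤ j := by exact_mod_cast hj
  have hq : (1 : ℤ) ≤ (lev z : ℤ) - (j + 1) := by
    have : ((j + 2 : ℕ) : ℤ) ≤ lev z := by exact_mod_cast hl
    push_cast at this
    linarith
  rw [k1, k2]
  generalize (lev z : ℤ) - (j + 1) = q at *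
  generalize (nab j x : ℤ) = a at *
  generalize (nab j x' : ℤ) = b at *
  generalize (j : ℤ) = J at *
  have p1 : 0 ≤ (a - 1) * J := mul_nonneg (by linarith) (by linarith)
  have p2 : 0 ≤ (b - 1) * J := mul_nonneg (by linarith) (by linarith)
  have p3 : 0 ≤ nJ j z * J := mul_nonneg k3 (by linarith)
  have p4 : 1 ≤ q * q := by nlinarith
  have p5 : 1 ≤ q * J := by nlinarith
  nlinarith

/-- no joins if the relative cost of the joins of level `j + 1` is small and determines the parity -/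
theorem no_join_prop (G : Win.GoodTo P r j) (hj : 1 ≤ j) (c : ℤ)
    (hA : ∀ z x x' : P, Cg z x x' → lev z = j + 1 → kapZ j z * j + gZ j z ≤ 4 ∧
      kapZ j z * j + gZ j z = c * kapZ j z ∧ (c = 0 → kapZ j z = 0))
    {z : P} (hl : lev z = j + 1) : ¬ Hul.Jn z := by
  intro hz
  have H := G.H
  obtain ⟨v, hv, ⟨z1, x1, x1', hz1, e1, o1⟩, z2, x2, x2', hz2, e2, o2⟩ := class_zero H ⟨z, hz⟩
  obtain ⟨x, x', h⟩ := cg_of_max hz fun y hy => G.no_join y (by
    have := lev_strictAnti hy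
    omega)
  have hlev : ∀ z x x' : P, Cg z x x' → j + 1 ≤ lev z := fun z x x' h => by
    by_contra hcon
    exact G.no_join z (by omega) h.jn
  have l0 := h.line0 (j := j) H
  have l1 := hz1.line0 (j := j) H
  have l2 := hz2.line0 (j := j) H
  have hle : (v : ℤ) ≤ ful 0 z := by exact_mod_cast hv z h.jn
  obtain ⟨a1, -, -⟩ := hA z x x' h hl
  rw [e1] at l1
  rw [e2] at l2
  push_cast at l0 l1 l2
  have t1 : kapZ j z1 * j + gZ j z1 ≤ 4 := by linarith
  have t2 : kapZ j z2 * j + gZ j z2 ≤ 4 := by linarith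
  have g1 : lev z1 = j + 1 := by
    have := hlev z1 x1 x1' hz1
    by_contra hcon
    have := big_T G hj hz1 (by omega)
    linarith
  have g2 : lev z2 = j + 1 := by
    have := hlev z2 x2 x2' hz2
    by_contra hcon
    have := big_T G hj hz2 (by omega)
    linarith
  obtain ⟨-, b1, c1⟩ := hA z1 x1 x1' hz1 g1
  obtain ⟨-, b2, c2⟩ := hA z2 x2 x2' hz2 g2
  have p1 := (kap_parity (j := j)).1 o1
  have p2 := (kap_parity (j := j)).2 o2
  by_cases hc : c = 0
  · rw [c1 hc] at p1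
    exact absurd p1 (by decide)
  · have h3 : c * kapZ j z1 = c * kapZ j z2 := by rw [← b1, ← b2]; linarith
    rw [mul_left_cancel₀ hc h3] at p1
    exact absurd p2 (Int.not_even_iff_odd.mpr p1)

/-- **no joins on the level `j + 1`, `j ≤ 4`** -/
theorem no_join_le4 (G : Win.GoodTo P r j) (hj : 1 ≤ j) (h4 : j ≤ 4)
    {lo hi : Tops P → ℕ → ℕ} {e : Tops P → ℕ → ℕ → P}
    (C : ∀ t : Tops P, Cp.Comp j (t : P) (lo t) (hi t) (e t)) (S : ∀ t, Shape j (lo t) (hi t))
    {z : P} (hl : lev z = j + 1) : ¬ Hul.Jn z := by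
  have H := G.H
  have hn0 : ∀ x : P, x ∈ onlyB (topOf x) → nab 0 x = 1 := fun x hx => by
    classical
    refine le_antisymm ?_ (one_le_nab (Nat.zero_le _))
    unfold nab
    rw [Finset.card_le_one]
    intro y hy y' hy'
    rw [mem_filter, mem_lv] at hy hy'
    rw [mem_onlyB.mp hx y hy.1 hy.2, mem_onlyB.mp hx y' hy'.1 hy'.2]
  have hnp : ∀ x : P, lev x = j → (Win.uc x).card = 1 → nab (j - 1) x = 1 := fun x h1 h2 => by
    rw [nab_uc H (k := j - 1) (by omega), h2]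
  have hnpp : 2 ≤ j → ∀ x : P, lev x = j → (Win.uc x).card = 1 → nab (j - 2) x ≤ 2 :=
    fun h2j x h1 h2 => by
      obtain ⟨y, hy⟩ := Finset.card_eq_one.mp h2
      have hxy : x ⋖ y := by
        rw [← Win.mem_uc, hy]
        exact mem_singleton_self y
      have ho : ∀ u, x ⋖ u → u = y := fun u hu => by
        rw [← Win.mem_uc, hy, mem_singleton] at hu
        exact hu
      have e1 := (H.covBy_iff.mp hxy).2
      rw [nab_only ho hxy (by omega), nab_uc H (k := j - 2) (by omega)]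
      exact Win.uc_card_le H y
  have hkey : ∀ z x x' : P, Cg z x x' → lev z = j + 1 →
      kapZ j z * j + gZ j z = (mX j x * j - cX j x) + (mX j x' * j - cX j x') ∧
      kapZ j z = mX j x + mX j x' := by
    intro z x x' h hl
    obtain ⟨l1, l2⟩ := h.lev_eq H
    obtain ⟨k1, k2, -, -, -, k6⟩ := h.line H (j := j) hl.ge
    obtain ⟨n0, d0⟩ := k6 (by omega)
    have q0 : (lev z : ℤ) - (j + 1) = 0 := by rw [hl]; push_cast; ring
    have n1 : nab j x = 1 := by rw [show j = lev x by omega, nab_self]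
    have n2 : nab j x' = 1 := by rw [show j = lev x' by omega, nab_self]
    rw [k1, k2, n0, d0, q0, n1, n2]
    push_cast
    constructor <;> ring
  have h1234 : j = 1 ∨ j = 2 ∨ j = 3 ∨ j = 4 := by omega
  rcases h1234 with rfl | rfl | rfl | rfl
  · refine no_join_prop G hj 0 (fun z x x' h hl => ?_) hl
    obtain ⟨l1, l2⟩ := h.lev_eq H
    obtain ⟨g1, g2⟩ := hkey z x x' h hl
    have a1 := hn0 x h.only
    have a2 := hn0 x' h.only'
    have m1 : mX 1 x = 0 ∧ cX 1 x = 0 := by simp [mX, cX, a1]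
    have m2 : mX 1 x' = 0 ∧ cX 1 x' = 0 := by simp [mX, cX, a2]
    rw [g1, g2, m1.1, m1.2, m2.1, m2.2]
    norm_num
  · refine no_join_prop G hj 0 (fun z x x' h hl => ?_) hl
    obtain ⟨l1, l2⟩ := h.lev_eq H
    obtain ⟨g1, g2⟩ := hkey z x x' h hl
    obtain ⟨u1, u2⟩ := cg_ends G (by norm_num) h hl
    have a1 := hn0 x h.only
    have a2 := hn0 x' h.only'
    have b1 := hnp x (by omega) u1
    have b2 := hnp x' (by omega) u2
    norm_num at b1 b2
    have m1 : mX 2 x = 0 ∧ cX 2 x = 0 := by simp [mX, cX, Finset.sum_range_succ, a1, b1]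
    have m2 : mX 2 x' = 0 ∧ cX 2 x' = 0 := by simp [mX, cX, Finset.sum_range_succ, a2, b2]
    rw [g1, g2, m1.1, m1.2, m2.1, m2.2]
    norm_num
  · refine no_join_prop G hj 1 (fun z x x' h hl => ?_) hl
    obtain ⟨l1, l2⟩ := h.lev_eq H
    obtain ⟨g1, g2⟩ := hkey z x x' h hl
    obtain ⟨u1, u2⟩ := cg_ends G (by norm_num) h hl
    have a1 := hn0 x h.only
    have a2 := hn0 x' h.only'
    have b1 := hnp x (by omega) u1
    have b2 := hnp x' (by omega) u2
    have c1 := hnpp (by norm_num) x (by omega) u1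
    have c2 := hnpp (by norm_num) x' (by omega) u2
    norm_num at b1 b2 c1 c2
    have m1 : mX 3 x = (nab 1 x : ℤ) - 1 ∧ cX 3 x = 2 * ((nab 1 x : ℤ) - 1) := by
      constructor
      · simp only [mX, Finset.sum_range_succ, a1, b1]
        push_cast
        simp only [Finset.range_zero, Finset.sum_empty]
        ring
      · simp only [cX, Finset.sum_range_succ, a1, b1]
        push_cast
        simp only [Finset.range_zero, Finset.sum_empty]
        ring
    have m2 : mX 3 x' = (nab 1 x' : ℤ) - 1 ∧ cX 3 x' = 2 * ((nab 1 x' : ℤ) - 1) := by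
      constructor
      · simp only [mX, Finset.sum_range_succ, a2, b2]
        push_cast
        simp only [Finset.range_zero, Finset.sum_empty]
        ring
      · simp only [cX, Finset.sum_range_succ, a2, b2]
        push_cast
        simp only [Finset.range_zero, Finset.sum_empty]
        ring
    have c1' : (nab 1 x : ℤ) ≤ 2 := by exact_mod_cast c1
    have c2' : (nab 1 x' : ℤ) ≤ 2 := by exact_mod_cast c2
    rw [g1, g2, m1.1, m1.2, m2.1, m2.2]
    push_cast
    refine ⟨by linarith, by ring, by norm_num⟩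
  · have hn1 : ∀ x : P, x ∈ onlyB (topOf x) → lev x = 4 → (Win.uc x).card = 1 → nab 1 x = 1 := by
      intro x hx hlx hu
      have hone : ∀ k, k ≤ 4 → lo (topOf x) k = hi (topOf x) k → nab k x = 1 := fun k hk hh =>
        nab_one_of_eq (C (topOf x)) hx hk (by omega) hh
      have hear : RectShape 4 (lo (topOf x)) (hi (topOf x)) ∨
          StairShape 4 (lo (topOf x)) (hi (topOf x)) → nab 1 x = 1 := by
        intro hh
        rcases early_dich H G.good (by norm_num) (C (topOf x)) (hh.imp id Or.inl) hx hlx.ge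
          (fun _ => hu) with h1 | h1 | h1
        · exact h1 1 (by norm_num)
        · have := h1.2.2 1 (by norm_num)
          omega
        · omega
      rcases S (topOf x) with h | ⟨h1, h2⟩ | ⟨h1, h2⟩ | ⟨h0, _, _⟩ | ⟨h0, h1⟩ |
        ⟨a, h0, h1, h2, h3, hN, h4⟩
      · exact hone 1 (by norm_num) (by rw [(h 1 (by norm_num)).1, (h 1 (by norm_num)).2])
      · exact hear (Or.inl h2)
      · exact hear (Or.inr h2)
      · omega
      · omega
      · exact hone 1 (by norm_num) (by rw [(h2 1 (by omega)).1, (h2 1 (by omega)).2])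
    refine no_join_prop G hj 2 (fun z x x' h hl => ?_) hl
    obtain ⟨l1, l2⟩ := h.lev_eq H
    obtain ⟨g1, g2⟩ := hkey z x x' h hl
    obtain ⟨u1, u2⟩ := cg_ends G (by norm_num) h hl
    have a1 := hn0 x h.only
    have a2 := hn0 x' h.only'
    have b1 := hnp x (by omega) u1
    have b2 := hnp x' (by omega) u2
    have c1 := hnpp (by norm_num) x (by omega) u1
    have c2 := hnpp (by norm_num) x' (by omega) u2
    have d1 := hn1 x h.only (by omega) u1
    have d2 := hn1 x' h.only' (by omega) u2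
    norm_num at b1 b2 c1 c2
    have m1 : mX 4 x = (nab 2 x : ℤ) - 1 ∧ cX 4 x = 2 * ((nab 2 x : ℤ) - 1) := by
      constructor
      · simp only [mX, Finset.sum_range_succ, a1, b1, d1]
        push_cast
        simp only [Finset.range_zero, Finset.sum_empty]
        ring
      · simp only [cX, Finset.sum_range_succ, a1, b1, d1]
        push_cast
        simp only [Finset.range_zero, Finset.sum_empty]
        ring
    have m2 : mX 4 x' = (nab 2 x' : ℤ) - 1 ∧ cX 4 x' = 2 * ((nab 2 x' : ℤ) - 1) := by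
      constructor
      · simp only [mX, Finset.sum_range_succ, a2, b2, d2]
        push_cast
        simp only [Finset.range_zero, Finset.sum_empty]
        ring
      · simp only [cX, Finset.sum_range_succ, a2, b2, d2]
        push_cast
        simp only [Finset.range_zero, Finset.sum_empty]
        ring
    have c1' : (nab 2 x : ℤ) ≤ 2 := by exact_mod_cast c1
    have c2' : (nab 2 x' : ℤ) ≤ 2 := by exact_mod_cast c2
    rw [g1, g2, m1.1, m1.2, m2.1, m2.2]
    push_cast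
    refine ⟨by linarith, by ring, by norm_num⟩

end Pool.Agent.GaussPoset.Sm

end

/-! From `Pool.Agent.W_448jx_h67.WeK` -/

section

/-!
Explicit costs and lines of the joins of level `11`, `j = 10` (MP_448cb3_co, HJoin10).
-/

namespace Pool.Agent.GaussPoset.Sm

set_option linter.unusedSectionVars false

open Finset W4

universe u

variable {P : Type u} [Fintype P] [PartialOrder P] [DecidableEq P] {r : ℕ}

section Num

variable {z : P}

/-- the cost with the label `7` at the window `2`, level `11` -/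
lemma cst2_11 (hl : lev z = 11) : cst 2 (fun _ => 7) z = nab 3 z + 2 * nab 4 z + 3 * nab 5 z +
    4 * nab 6 z + 5 * nab 7 z + 6 * nab 8 z + 7 * nab 9 z + 7 * nab 10 z + 7 := by
  have h1 : nab 11 z = 1 := by rw [← hl]; exact nab_self
  rw [cst_eq, hl]
  simp only [Finset.sum_range_succ, Finset.sum_range_zero, h1]
  norm_num

/-- the cost with the label `6` at the window `3`, level `11` -/
lemma cst3_11 (hl : lev z = 11) : cst 3 (fun _ => 6) z = nab 4 z + 2 * nab 5 z + 3 * nab 6 z +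
    4 * nab 7 z + 5 * nab 8 z + 6 * nab 9 z + 6 * nab 10 z + 6 := by
  have h1 : nab 11 z = 1 := by rw [← hl]; exact nab_self
  rw [cst_eq, hl]
  simp only [Finset.sum_range_succ, Finset.sum_range_zero, h1]
  norm_num

/-- the cost with the label `5` at the window `3`, level `11` -/
lemma cst3e_11 (hl : lev z = 11) : cst 3 (fun _ => 5) z = nab 4 z + 2 * nab 5 z + 3 * nab 6 z +
    4 * nab 7 z + 5 * nab 8 z + 5 * nab 9 z + 5 * nab 10 z + 5 := by
  have h1 : nab 11 z = 1 := by rw [← hl]; exact nab_self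
  rw [cst_eq, hl]
  simp only [Finset.sum_range_succ, Finset.sum_range_zero, h1]
  norm_num

lemma nst2_11 {h : P → ℕ} (hh : h z = 7) : nst 2 h z = nab 2 z + nab 3 z + nab 4 z + nab 5 z +
    nab 6 z + nab 7 z + nab 8 z := by
  rw [nst_eq, hh]
  simp only [Finset.sum_range_succ, Finset.sum_range_zero]
  norm_num

lemma nst3_11 {h : P → ℕ} (hh : h z = 6) : nst 3 h z = nab 3 z + nab 4 z + nab 5 z +
    nab 6 z + nab 7 z + nab 8 z := by
  rw [nst_eq, hh]
  simp only [Finset.sum_range_succ, Finset.sum_range_zero]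
  norm_num

lemma nst3e_11 {h : P → ℕ} (hh : h z = 5) : nst 3 h z = nab 3 z + nab 4 z + nab 5 z +
    nab 6 z + nab 7 z := by
  rw [nst_eq, hh]
  simp only [Finset.sum_range_succ, Finset.sum_range_zero]
  norm_num

/-- the line of an element of level `11` -/
lemma line_11 (hl : lev z = 11) : kapZ 10 z = (nab 0 z : ℤ) + nab 1 z + nab 2 z + nab 3 z +
      nab 4 z + nab 5 z + nab 6 z + nab 7 z + nab 8 z + nab 9 z + nab 10 z - 22 ∧
    gZ 10 z = 110 - (10 * (nab 0 z : ℤ) + 9 * nab 1 z + 8 * nab 2 z + 7 * nab 3 z +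
      6 * nab 4 z + 5 * nab 5 z + 4 * nab 6 z + 3 * nab 7 z + 2 * nab 8 z + nab 9 z) := by
  unfold kapZ gZ mZ cZ
  rw [hl]
  simp only [Finset.sum_range_succ, Finset.sum_range_zero]
  constructor
  · push_cast
    ring
  · push_cast
    ring

end Num

/-- the data of an end, explicitly -/
lemma Dt.expl {x : P} {s : ℕ × ℕ × ℕ} (h : Dt 10 x s) :
    nab 0 x + nab 1 x + nab 2 x + nab 3 x + nab 4 x + nab 5 x + nab 6 x + nab 7 x + nab 8 x +
      nab 9 x = s.1 + 10 ∧
    10 * nab 0 x + 9 * nab 1 x + 8 * nab 2 x + 7 * nab 3 x + 6 * nab 4 x + 5 * nab 5 x +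
      4 * nab 6 x + 3 * nab 7 x + 2 * nab 8 x + nab 9 x = s.2.1 + 55 ∧
    nab 8 x = s.2.2 + 1 := by
  obtain ⟨h1, h2, h3⟩ := h
  unfold mX at h1
  unfold cX at h2
  simp only [Finset.sum_range_succ, Finset.sum_range_zero] at h1 h2
  push_cast at h1 h2
  refine ⟨?_, ?_, h3⟩
  · have : ((nab 0 x + nab 1 x + nab 2 x + nab 3 x + nab 4 x + nab 5 x + nab 6 x + nab 7 x +
        nab 8 x + nab 9 x : ℕ) : ℤ) = ((s.1 + 10 : ℕ) : ℤ) := by
      push_cast
      linarith
    exact_mod_cast this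
  · have : ((10 * nab 0 x + 9 * nab 1 x + 8 * nab 2 x + 7 * nab 3 x + 6 * nab 4 x + 5 * nab 5 x +
        4 * nab 6 x + 3 * nab 7 x + 2 * nab 8 x + nab 9 x : ℕ) : ℤ) =
        ((s.2.1 + 55 : ℕ) : ℤ) := by
      push_cast
      linarith
    exact_mod_cast this

/-- a side: at least one element on each level, one on level `9` -/
lemma side_ge (H : Gr P r) {x : P} (hl : lev x = 10) (h1 : (Win.uc x).card = 1) :
    (∀ k, k ≤ 10 → 1 ≤ nab k x) ∧ nab 9 x = 1 ∧ nab 10 x = 1 :=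
  ⟨fun k hk => one_le_nab (by omega), by rw [nab_uc H (k := 9) (by omega), h1],
    by rw [← hl]; exact nab_self⟩

/-- the levels above a join of level `11` -/
lemma Cg.sums (H : Gr P r) {z x x' : P} (h : Cg z x x') (hl : lev z = 11) :
    ∀ k, k ≤ 10 → nab k z = nab k x + nab k x' := fun k hk => h.sum H (by omega)

end Pool.Agent.GaussPoset.Sm

end

/-! From `Pool.Agent.W_448j6_h22.KcD` -/

section

/-!
MP_448cb3_co, G2, case B, window `j`: the triangle: the finite check of the values of energy at most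
four.
-/

namespace Pool.Agent.GaussPoset.Win.W4

set_option linter.unusedSectionVars false

/-- the number of sites killed from below -/
def tnL (x0 x1 x2 w w' p : ℕ) : ℕ := (if x0 < w ∨ x0 < w' then 1 else 0) +
  (if x1 < p then 1 else 0) + (if x2 < w ∨ x2 < w' then 1 else 0)

/-- the number of sites killed from above -/
def tnU (x0 x1 x2 v1 v2 : ℕ) : ℕ := (if x0 < v1 then 1 else 0) +
  (if x1 < v1 ∨ x1 < v2 then 1 else 0) + (if x2 < v2 then 1 else 0)

/-- no site is killed from both sides -/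
def tdj (x0 x1 x2 v1 v2 w w' p : ℕ) : Bool :=
  decide ((x0 < w ∨ x0 < w') → v1 ≤ x0) && decide (x1 < p → v1 ≤ x1 ∧ v2 ≤ x1) &&
    decide ((x2 < w ∨ x2 < w') → v2 ≤ x2)

/-- the guards of the lower elements -/
def tgL (x0 x1 x2 w w' p : ℕ) : Bool :=
  decide (w ≤ x0 ∨ w ≤ x2) && decide (w' ≤ x0 ∨ w' ≤ x2) && decide (p ≤ x1)

/-- the guards of the upper elements -/
def tgU (x0 x1 x2 v1 v2 : ℕ) : Bool :=
  decide (v1 ≤ x0 ∨ v1 ≤ x1) && decide (v2 ≤ x1 ∨ v2 ≤ x2)

/-- the code of the values -/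
def tcd (x0 x1 x2 v1 v2 w w' p : ℕ) : List ℕ := [x0, x1, x2, v1, v2, w, w', p]

/-- the ten lists of values -/
def tens : List (List ℕ) :=
  [[0, 2, 0, 1, 1, 0, 0, 0], [0, 1, 0, 1, 1, 0, 0, 1],
    [1, 0, 0, 1, 0, 2, 0, 0], [1, 0, 0, 1, 0, 0, 2, 0], [0, 0, 1, 0, 1, 2, 0, 0],
    [0, 0, 1, 0, 1, 0, 2, 0], [1, 0, 0, 2, 0, 1, 0, 0], [1, 0, 0, 2, 0, 0, 1, 0],
    [0, 0, 1, 0, 2, 1, 0, 0], [0, 0, 1, 0, 2, 0, 1, 0]]

def tb0 (x0 x1 x2 v1 v2 w w' p : ℕ) : Bool :=
  ! (tdj x0 x1 x2 v1 v2 w w' p && tgL x0 x1 x2 w w' p && tgU x0 x1 x2 v1 v2 &&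
    decide (tnL x0 x1 x2 w w' p + tnU x0 x1 x2 v1 v2 = 2) &&
    decide (tnL x0 x1 x2 w w' p % 2 = 0)) ||
  (decide (tcd x0 x1 x2 v1 v2 w w' p ∈ tens) ||
    decide (tcd x0 x1 x2 v1 v2 w w' p = [0, 1, 0, 1, 1, 0, 0, 0]))

def tb1 (x0 x1 x2 v1 v2 w w' p : ℕ) : Bool :=
  ! (tdj x0 x1 x2 v1 v2 w w' p && tgU x0 x1 x2 v1 v2 &&
    decide (tnL x0 x1 x2 w w' p + tnU x0 x1 x2 v1 v2 = 3)) ||
  (decide (tcd x0 x1 x2 v1 v2 w w' p ∈ tens) ||
    decide (tnL x0 x1 x2 w w' p = 3 ∧ x1 < p ∧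
      ((x0 < w ∧ x2 < w) ∨ (x0 < w' ∧ x2 < w'))))

def tb2 (x0 x1 x2 v1 v2 w w' p : ℕ) : Bool :=
  ! (tdj x0 x1 x2 v1 v2 w w' p && tgL x0 x1 x2 w w' p &&
    decide (tnL x0 x1 x2 w w' p + tnU x0 x1 x2 v1 v2 = 3)) ||
  (decide (tcd x0 x1 x2 v1 v2 w w' p ∈ tens) ||
    decide (tnL x0 x1 x2 w w' p = 0 ∧ x0 < v1 ∧ x2 < v2))

/-- a check of all lists of eight numbers of sum at most four -/
def tall (f : ℕ → ℕ → ℕ → ℕ → ℕ → ℕ → ℕ → ℕ → Bool) : Bool :=
  (List.range 5).all fun x0 => (List.range (5 - x0)).all fun x1 =>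
  (List.range (5 - x0 - x1)).all fun x2 => (List.range (5 - x0 - x1 - x2)).all fun v1 =>
  (List.range (5 - x0 - x1 - x2 - v1)).all fun v2 =>
  (List.range (5 - x0 - x1 - x2 - v1 - v2)).all fun w =>
  (List.range (5 - x0 - x1 - x2 - v1 - v2 - w)).all fun w' =>
  (List.range (5 - x0 - x1 - x2 - v1 - v2 - w - w')).all fun p =>
  f x0 x1 x2 v1 v2 w w' p

lemma tall_use {f : ℕ → ℕ → ℕ → ℕ → ℕ → ℕ → ℕ → ℕ → Bool} (h : tall f = true)
    {x0 x1 x2 v1 v2 w w' p : ℕ} (hs : x0 + x1 + x2 + v1 + v2 + w + w' + p ≤ 4) :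
    f x0 x1 x2 v1 v2 w w' p = true := by
  unfold tall at h
  rw [List.all_eq_true] at h
  have h1 := h x0 (List.mem_range.2 (by omega))
  rw [List.all_eq_true] at h1
  have h2 := h1 x1 (List.mem_range.2 (by omega))
  rw [List.all_eq_true] at h2
  have h3 := h2 x2 (List.mem_range.2 (by omega))
  rw [List.all_eq_true] at h3
  have h4 := h3 v1 (List.mem_range.2 (by omega))
  rw [List.all_eq_true] at h4
  have h5 := h4 v2 (List.mem_range.2 (by omega))
  rw [List.all_eq_true] at h5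
  have h6 := h5 w (List.mem_range.2 (by omega))
  rw [List.all_eq_true] at h6
  have h7 := h6 w' (List.mem_range.2 (by omega))
  rw [List.all_eq_true] at h7
  exact h7 p (List.mem_range.2 (by omega))

lemma tb0_all : tall tb0 = true := by decide +kernel

lemma tb1_all : tall tb1 = true := by decide +kernel

lemma tb2_all : tall tb2 = true := by decide +kernel

lemma tkey0 {x0 x1 x2 v1 v2 w w' p : ℕ} (hs : x0 + x1 + x2 + v1 + v2 + w + w' + p ≤ 4)
    (hd : ((x0 < w ∨ x0 < w') → v1 ≤ x0) ∧ (x1 < p → v1 ≤ x1 ∧ v2 ≤ x1) ∧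
      ((x2 < w ∨ x2 < w') → v2 ≤ x2)) (g1 : w ≤ x0 ∨ w ≤ x2) (g2 : w' ≤ x0 ∨ w' ≤ x2)
    (g3 : p ≤ x1) (g4 : v1 ≤ x0 ∨ v1 ≤ x1) (g5 : v2 ≤ x1 ∨ v2 ≤ x2)
    (hc : tnL x0 x1 x2 w w' p + tnU x0 x1 x2 v1 v2 = 2)
    (hp : tnL x0 x1 x2 w w' p % 2 = 0) :
    tcd x0 x1 x2 v1 v2 w w' p ∈ tens ∨
      tcd x0 x1 x2 v1 v2 w w' p = [0, 1, 0, 1, 1, 0, 0, 0] := by
  have h := tall_use tb0_all hs
  unfold tb0 tdj tgL tgU at h
  simp only [Bool.or_eq_true, Bool.not_eq_true', Bool.and_eq_false_iff, decide_eq_false_iff_not,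
    decide_eq_true_eq] at h
  tauto

lemma tkey1 {x0 x1 x2 v1 v2 w w' p : ℕ} (hs : x0 + x1 + x2 + v1 + v2 + w + w' + p ≤ 4)
    (hd : ((x0 < w ∨ x0 < w') → v1 ≤ x0) ∧ (x1 < p → v1 ≤ x1 ∧ v2 ≤ x1) ∧
      ((x2 < w ∨ x2 < w') → v2 ≤ x2)) (g4 : v1 ≤ x0 ∨ v1 ≤ x1) (g5 : v2 ≤ x1 ∨ v2 ≤ x2)
    (hc : tnL x0 x1 x2 w w' p + tnU x0 x1 x2 v1 v2 = 3) :
    tcd x0 x1 x2 v1 v2 w w' p ∈ tens ∨ (tnL x0 x1 x2 w w' p = 3 ∧ x1 < p ∧
      ((x0 < w ∧ x2 < w) ∨ (x0 < w' ∧ x2 < w'))) := by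
  have h := tall_use tb1_all hs
  unfold tb1 tdj tgU at h
  simp only [Bool.or_eq_true, Bool.not_eq_true', Bool.and_eq_false_iff, decide_eq_false_iff_not,
    decide_eq_true_eq] at h
  tauto

lemma tkey2 {x0 x1 x2 v1 v2 w w' p : ℕ} (hs : x0 + x1 + x2 + v1 + v2 + w + w' + p ≤ 4)
    (hd : ((x0 < w ∨ x0 < w') → v1 ≤ x0) ∧ (x1 < p → v1 ≤ x1 ∧ v2 ≤ x1) ∧
      ((x2 < w ∨ x2 < w') → v2 ≤ x2)) (g1 : w ≤ x0 ∨ w ≤ x2) (g2 : w' ≤ x0 ∨ w' ≤ x2)
    (g3 : p ≤ x1)
    (hc : tnL x0 x1 x2 w w' p + tnU x0 x1 x2 v1 v2 = 3) :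
    tcd x0 x1 x2 v1 v2 w w' p ∈ tens ∨
      (tnL x0 x1 x2 w w' p = 0 ∧ x0 < v1 ∧ x2 < v2) := by
  have h := tall_use tb2_all hs
  unfold tb2 tdj tgL at h
  simp only [Bool.or_eq_true, Bool.not_eq_true', Bool.and_eq_false_iff, decide_eq_false_iff_not,
    decide_eq_true_eq] at h
  tauto

lemma tens_sum : ∀ l ∈ tens, l.sum = 4 := by decide

lemma tens_card : tens.toFinset.card = 10 := by decide +kernel

end Pool.Agent.GaussPoset.Win.W4

end
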