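import Mathlib
import Pool.Agent.W_448zz_h61.Ns
import Pool.Agent.W_448zz_h61.M013
import Pool.Agent.W_448zz_h61.M022
import Pool.Agent.W_448zz_h61.M084

/-! From `Pool.Agent.W_448so_h17.RfB` -/

section

/-!
S9, row 476 (C), mirror image: exciting a near upper element `y` together with its private upper
cover `p` multiplies the function of the configuration by `phiU`.
-/

namespace Pool.Agent.GaussPoset.Win.So

set_option linter.unusedSectionVars false

open Finset

universe u

variable {P : Type u} [Fintype P] [PartialOrder P] [DecidableEq P] {r i : ℕ}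

variable {e : P → ℕ} {y p : P} {Y Q : ℕ}

/-- `y` near upper with the parent `p`, both with label zero, as all their upper covers -/
structure UpD (r i : ℕ) (e : P → ℕ) (y p : P) : Prop where
  ly : lev y + 1 = i
  lr : lev y < r
  cp : dc p = {y}
  ey : e y = 0
  ep : e p = 0
  hy : ∀ z, y ⋖ z → e z = 0
  hp : ∀ z, p ⋖ z → e z = 0

open Classical in
/-- the factor of `(y, p)` with labels `(Y, Q)`, upper version -/
noncomputable def phiU (e : P → ℕ) (y : P) (Y Q : ℕ) (S : Finset P) : A :=
  (if ∀ v ∈ dc y, e v < Y then (if Y < Q then xi ^ 2 * dd else xi * dd) else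
    (if Y < Q then 0 else 1)) * (if ∀ v ∈ dc y, e v < Y → v ∉ S then 1 else 0)

namespace UpD

variable (H : Gr P r) (D : UpD r i e y p)

include D

lemma py : y ⋖ p := mem_dc.1 (by rw [D.cp]; exact mem_singleton_self y)

lemma ne : p ≠ y := D.py.lt.ne'

lemma only {z : P} (h : z ⋖ p) : z = y := by
  have := mem_dc.2 h
  rwa [D.cp, mem_singleton] at this

include H

lemma lp : lev p + 2 = i := by
  have h1 := lev_dc H (mem_dc.2 D.py)
  have := D.ly
  omega

/-- the label of an element which is neither `y` nor `p` -/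
lemma oth {z : P} (h1 : lev z + 1 ≠ i) (h2 : lev z + 2 ≠ i) : up2 y p Y Q e z = e z := by
  apply up2_ne
  · rintro rfl
    exact h1 D.ly
  · rintro rfl
    exact h2 (D.lp H)

lemma FU_p : ¬ FU (up2 y p Y Q e) p := by
  rintro ⟨z, hz, hlt⟩
  have l1 := lev_dc H (mem_dc.2 hz)
  have l2 := D.lp H
  have h3 : up2 y p Y Q e z = e z := D.oth H (by omega) (by omega)
  rw [h3, D.hp z hz] at hlt
  omega

lemma GD_p : GD (up2 y p Y Q e) p ↔ Q ≤ Y := by
  constructor
  · rintro ⟨z, hz, hle⟩
    rw [D.only hz, up2_y, up2_p D.ne] at hle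
    exact hle
  · intro h
    refine ⟨y, D.py, ?_⟩
    rw [up2_y, up2_p D.ne]
    exact h

lemma FU_y : FU (up2 y p Y Q e) y ↔ Y < Q := by
  constructor
  · rintro ⟨z, hz, hlt⟩
    rw [up2_y] at hlt
    by_cases h : z = p
    · rw [h, up2_p D.ne] at hlt
      exact hlt
    · rw [up2_ne hz.lt.ne' h, D.hy z hz] at hlt
      omega
  · intro h
    refine ⟨p, D.py, ?_⟩
    rw [up2_y, up2_p D.ne]
    exact h

lemma GD_y : GD (up2 y p Y Q e) y ↔ ¬ ∀ v ∈ dc y, e v < Y := by
  have key : ∀ v ∈ dc y, up2 y p Y Q e v = e v := by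
    intro v hv
    have l1 := lev_dc H hv
    have l2 := D.ly
    exact D.oth H (by omega) (by omega)
  constructor
  · rintro ⟨v, hv, hle⟩ h
    rw [up2_y, key v (mem_dc.2 hv)] at hle
    have := h v (mem_dc.2 hv)
    omega
  · intro h
    push Not at h
    obtain ⟨v, hv, hle⟩ := h
    refine ⟨v, mem_dc.1 hv, ?_⟩
    rw [up2_y, key v hv]
    exact hle

lemma FU0_p : ¬ FU e p := by
  rintro ⟨z, hz, hlt⟩
  rw [D.hp z hz] at hlt
  omega

lemma GD0_p : GD e p := ⟨y, D.py, by rw [D.ep]; exact Nat.zero_le _⟩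

lemma FU0_y : ¬ FU e y := by
  rintro ⟨z, hz, hlt⟩
  rw [D.hy z hz] at hlt
  omega

lemma GD0_y : GD e y := by
  obtain ⟨v, hv⟩ := dc_nonempty H D.lr
  exact ⟨v, mem_dc.1 hv, by rw [D.ey]; exact Nat.zero_le _⟩

lemma FU_oth {z : P} (hz : lev z < i) (h1 : z ≠ y) (h2 : z ≠ p) :
    FU (up2 y p Y Q e) z ↔ FU e z := by
  have key : ∀ z', z ⋖ z' → up2 y p Y Q e z' = e z' := by
    intro z' hz'
    apply up2_ne
    · rintro rfl
      have l1 := lev_dc H (mem_dc.2 hz')
      have := D.ly
      omega
    · rintro rfl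
      exact h1 (D.only hz')
  unfold FU
  constructor
  · rintro ⟨z', hz', hlt⟩
    rw [key z' hz', up2_ne h1 h2] at hlt
    exact ⟨z', hz', hlt⟩
  · rintro ⟨z', hz', hlt⟩
    refine ⟨z', hz', ?_⟩
    rw [key z' hz', up2_ne h1 h2]
    exact hlt

lemma GD_oth {z : P} (h1 : z ≠ y) (h2 : z ≠ p) :
    GD (up2 y p Y Q e) z ↔ GD e z := by
  by_cases hzy : y ⋖ z
  · have h0 := D.hy z hzy
    constructor
    · intro _
      exact ⟨y, hzy, by omega⟩
    · intro _
      exact ⟨y, hzy, by rw [up2_ne h1 h2]; omega⟩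
  · by_cases hzp : p ⋖ z
    · have h0 := D.hp z hzp
      constructor
      · intro _
        exact ⟨p, hzp, by omega⟩
      · intro _
        exact ⟨p, hzp, by rw [up2_ne h1 h2]; omega⟩
    · have key : ∀ w, w ⋖ z → up2 y p Y Q e w = e w := by
        intro w hw
        apply up2_ne
        · rintro rfl
          exact hzy hw
        · rintro rfl
          exact hzp hw
      unfold GD
      constructor
      · rintro ⟨w, hw, hle⟩
        rw [key w hw, up2_ne h1 h2] at hle
        exact ⟨w, hw, hle⟩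
      · rintro ⟨w, hw, hle⟩
        refine ⟨w, hw, ?_⟩
        rw [key w hw, up2_ne h1 h2]
        exact hle

lemma FU_site {v : P} (hv : lev v = i) :
    FU (up2 y p Y Q e) v ↔ FU e v ∨ (v ∈ dc y ∧ e v < Y) := by
  have hve : up2 y p Y Q e v = e v := D.oth H (by omega) (by omega)
  constructor
  · rintro ⟨z, hz, hlt⟩
    rw [hve] at hlt
    by_cases h : z = y
    · subst h
      rw [up2_y] at hlt
      exact Or.inr ⟨mem_dc.2 hz, hlt⟩
    · left
      refine ⟨z, hz, ?_⟩
      rwa [up2_ne h] at hlt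
      rintro rfl
      have l1 := lev_dc H (mem_dc.2 hz)
      have := D.lp H
      omega
  · rintro (⟨z, hz, hlt⟩ | ⟨h1, h2⟩)
    · refine ⟨z, hz, ?_⟩
      rw [hve, up2_ne]
      · exact hlt
      · rintro rfl
        rw [D.ey] at hlt
        omega
      · rintro rfl
        have l1 := lev_dc H (mem_dc.2 hz)
        have := D.lp H
        omega
    · refine ⟨y, mem_dc.1 h1, ?_⟩
      rw [hve, up2_y]
      exact h2

lemma up_eq {z : P} (hz : i ≤ lev z) : up2 y p Y Q e z = e z := D.oth H (by omega) (by omega)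

lemma FD_iff {v : P} (hv : i ≤ lev v) : FD (up2 y p Y Q e) v ↔ FD e v := by
  have hve : up2 y p Y Q e v = e v := D.up_eq H hv
  have key : ∀ w, w ⋖ v → up2 y p Y Q e w = e w := by
    intro w hw
    have l1 := lev_dc H (mem_dc.2 hw)
    exact D.up_eq H (by omega)
  unfold FD
  constructor
  · rintro ⟨w, hw, hlt⟩
    rw [key w hw, hve] at hlt
    exact ⟨w, hw, hlt⟩
  · rintro ⟨w, hw, hlt⟩
    refine ⟨w, hw, ?_⟩
    rw [key w hw, hve]
    exact hlt

lemma GU_iff {v : P} (hv : i < lev v) : GU (up2 y p Y Q e) v ↔ GU e v := by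
  have hve : up2 y p Y Q e v = e v := D.up_eq H hv.le
  have key : ∀ w, v ⋖ w → up2 y p Y Q e w = e w := by
    intro w hw
    have l1 := lev_dc H (mem_dc.2 hw)
    exact D.up_eq H (by omega)
  unfold GU
  constructor
  · rintro ⟨w, hw, hlt⟩
    rw [key w hw, hve] at hlt
    exact ⟨w, hw, hlt⟩
  · rintro ⟨w, hw, hlt⟩
    refine ⟨w, hw, ?_⟩
    rw [key w hw, hve]
    exact hlt

lemma AdmL_iff : AdmL i (up2 y p Y Q e) ↔ AdmL i e := by
  unfold AdmL
  constructor
  · intro h u hu
    have := h u hu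
    rwa [D.FD_iff H hu.le, D.GU_iff H hu] at this
  · intro h u hu
    rw [D.FD_iff H hu.le, D.GU_iff H hu]
    exact h u hu

lemma AL_eq : AL i (up2 y p Y Q e) = AL i e := by
  classical
  ext v
  rw [NormD_mem_AL, NormD_mem_AL]
  constructor
  · rintro ⟨h1, h2⟩
    exact ⟨h1, (D.FD_iff H h1.ge).1 h2⟩
  · rintro ⟨h1, h2⟩
    exact ⟨h1, (D.FD_iff H h1.ge).2 h2⟩

lemma aL_eq : aL i (up2 y p Y Q e) = aL i e := by
  classical
  unfold aL
  congr 1
  ext u
  rw [mem_filter, mem_filter]
  constructor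
  · rintro ⟨h1, h2, h3⟩
    exact ⟨h1, h2, (D.FD_iff H h2.le).1 h3⟩
  · rintro ⟨h1, h2, h3⟩
    exact ⟨h1, h2, (D.FD_iff H h2.le).2 h3⟩

lemma pL_eq : pL i (up2 y p Y Q e) = pL i e := by
  classical
  unfold pL
  congr 1
  ext u
  rw [mem_filter, mem_filter]
  constructor
  · rintro ⟨h1, h2, h3, h4⟩
    exact ⟨h1, h2, fun h => h3 ((D.FD_iff H h2.le).2 h), fun h => h4 ((D.GU_iff H h2).2 h)⟩
  · rintro ⟨h1, h2, h3, h4⟩
    exact ⟨h1, h2, fun h => h3 ((D.FD_iff H h2.le).1 h), fun h => h4 ((D.GU_iff H h2).1 h)⟩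

lemma AdmU_iff : AdmU i (up2 y p Y Q e) ↔
    AdmU i e ∧ (Y < Q → ∀ v ∈ dc y, e v < Y) := by
  have ly := D.ly
  constructor
  · intro h
    constructor
    · intro z hz
      by_cases z1 : z = y
      · subst z1
        exact fun h1 => D.FU0_y H h1.1
      · by_cases z2 : z = p
        · subst z2
          exact fun h1 => D.FU0_p H h1.1
        · have := h z hz
          rwa [D.FU_oth H hz z1 z2, D.GD_oth H z1 z2] at this
    · intro hYQ
      by_contra h1
      exact h y (by omega) ⟨(D.FU_y H).2 hYQ, (D.GD_y H).2 h1⟩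
  · rintro ⟨h, h1⟩ z hz
    by_cases z1 : z = y
    · subst z1
      rw [D.FU_y H, D.GD_y H]
      exact fun h2 => h2.2 (h1 h2.1)
    · by_cases z2 : z = p
      · subst z2
        exact fun h1 => D.FU_p H h1.1
      · rw [D.FU_oth H hz z1 z2, D.GD_oth H z1 z2]
        exact h z hz

open Classical in
lemma aU_eq : aU i (up2 y p Y Q e) = aU i e + (if Y < Q then 1 else 0) := by
  have ly := D.ly
  have h1 : univ.filter (fun z : P => lev z < i ∧ FU (up2 y p Y Q e) z) =
      univ.filter (fun z : P => lev z < i ∧ FU e z) ∪ (if Y < Q then {y} else ∅) := by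
    ext z
    rw [mem_union, mem_filter, mem_filter]
    have hu := mem_univ z
    by_cases z1 : z = y
    · subst z1
      rw [D.FU_y H]
      have h2 := D.FU0_y H
      have h3 : lev z < i := by omega
      by_cases h4 : Y < Q
      · rw [if_pos h4, mem_singleton]
        have hz0 : z = z := rfl
        tauto
      · rw [if_neg h4]
        have := notMem_empty z
        tauto
    · have h6 : z ∉ (if Y < Q then ({y} : Finset P) else ∅) := by
        split_ifs
        · rwa [mem_singleton]
        · exact notMem_empty z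
      by_cases z2 : z = p
      · subst z2
        have := D.FU_p H (Y := Y) (Q := Q)
        have := D.FU0_p H
        tauto
      · constructor
        · rintro ⟨h2, h3, h4⟩
          exact Or.inl ⟨h2, h3, (D.FU_oth H h3 z1 z2).1 h4⟩
        · rintro (⟨h2, h3, h4⟩ | h)
          · exact ⟨h2, h3, (D.FU_oth H h3 z1 z2).2 h4⟩
          · exact absurd h h6
  unfold aU
  rw [h1, card_union_of_disjoint]
  · congr 1
    split_ifs
    · exact card_singleton y
    · exact card_empty
  · rw [disjoint_left]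
    intro z hz hz'
    rw [mem_filter] at hz
    split_ifs at hz' with hk
    · rw [mem_singleton] at hz'
      subst hz'
      exact D.FU0_y H hz.2.2
    · exact notMem_empty z hz'

open Classical in
lemma pU_eq : pU i (up2 y p Y Q e) =
    pU i e + (if Y < Q ∨ ∀ v ∈ dc y, e v < Y then 1 else 0) := by
  have ly := D.ly
  have lp := D.lp H
  have hne := D.ne
  have h1 : univ.filter (fun z : P => lev z < i ∧ ¬ FU (up2 y p Y Q e) z ∧
      ¬ GD (up2 y p Y Q e) z) =
      univ.filter (fun z : P => lev z < i ∧ ¬ FU e z ∧ ¬ GD e z) ∪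
        (if Y < Q then {p} else if ∀ v ∈ dc y, e v < Y then {y} else ∅) := by
    ext z
    rw [mem_union, mem_filter, mem_filter]
    have hu := mem_univ z
    have he := notMem_empty z
    by_cases z1 : z = y
    · subst z1
      rw [D.FU_y H, D.GD_y H]
      have h2 := D.GD0_y H
      have h3 : lev z < i := by omega
      have hz0 : z = z := rfl
      by_cases h4 : Y < Q
      · rw [if_pos h4, mem_singleton]
        have := hne.symm
        tauto
      · rw [if_neg h4]
        by_cases h5 : ∀ v ∈ dc z, e v < Y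
        · rw [if_pos h5, mem_singleton]
          tauto
        · rw [if_neg h5]
          tauto
    · by_cases z2 : z = p
      · subst z2
        rw [D.GD_p H]
        have h2 := D.FU_p H (Y := Y) (Q := Q)
        have h3 := D.GD0_p H
        have h4 : lev z < i := by omega
        have hz0 : z = z := rfl
        by_cases h5 : Y < Q
        · rw [if_pos h5, mem_singleton]
          have : ¬ Q ≤ Y := by omega
          tauto
        · rw [if_neg h5]
          have : Q ≤ Y := by omega
          by_cases h6 : ∀ v ∈ dc y, e v < Y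
          · rw [if_pos h6, mem_singleton]
            tauto
          · rw [if_neg h6]
            tauto
      · have h6 : z ∉ (if Y < Q then ({p} : Finset P) else
            if ∀ v ∈ dc y, e v < Y then {y} else ∅) := by
          split_ifs
          · rwa [mem_singleton]
          · rwa [mem_singleton]
          · exact notMem_empty z
        constructor
        · rintro ⟨h2, h3, h4, h5⟩
          exact Or.inl ⟨h2, h3, fun h => h4 ((D.FU_oth H h3 z1 z2).2 h),
            fun h => h5 ((D.GD_oth H z1 z2).2 h)⟩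
        · rintro (⟨h2, h3, h4, h5⟩ | h)
          · exact ⟨h2, h3, fun h => h4 ((D.FU_oth H h3 z1 z2).1 h),
              fun h => h5 ((D.GD_oth H z1 z2).1 h)⟩
          · exact absurd h h6
  unfold pU
  rw [h1, card_union_of_disjoint]
  · congr 1
    by_cases h2 : Y < Q
    · rw [if_pos h2, if_pos (Or.inl h2), card_singleton]
    · rw [if_neg h2]
      by_cases h3 : ∀ v ∈ dc y, e v < Y
      · rw [if_pos h3, if_pos (Or.inr h3), card_singleton]
      · rw [if_neg h3, if_neg (by tauto), card_empty]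
  · rw [disjoint_left]
    intro z hz hz'
    rw [mem_filter] at hz
    split_ifs at hz' with hk hk2
    · rw [mem_singleton] at hz'
      subst hz'
      exact hz.2.2.2 (D.GD0_p H)
    · rw [mem_singleton] at hz'
      subst hz'
      exact hz.2.2.2 (D.GD0_y H)
    · exact notMem_empty z hz'

open Classical in
lemma AU_eq : AU i (up2 y p Y Q e) = AU i e ∪ (dc y).filter (fun v => e v < Y) := by
  ext v
  rw [mem_union, NormD_mem_AU, NormD_mem_AU, mem_filter]
  constructor
  · rintro ⟨h1, h2⟩
    rcases (D.FU_site H h1).1 h2 with h | h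
    · exact Or.inl ⟨h1, h⟩
    · exact Or.inr h
  · rintro (⟨h1, h2⟩ | h)
    · exact ⟨h1, (D.FU_site H h1).2 (Or.inl h2)⟩
    · have l1 := lev_dc H h.1
      have l2 := D.ly
      exact ⟨by omega, (D.FU_site H (by omega)).2 (Or.inr h)⟩

/-- THE FACTOR of an upper near element and its private upper cover -/
theorem Fe_upp (S : Finset P) : Fe i (up2 y p Y Q e) S = Fe i e S * phiU e y Y Q S := by
  classical
  have h1 : chi (AL i (up2 y p Y Q e)) (AU i (up2 y p Y Q e)) S =
      chi (AL i e) (AU i e) S * (if ∀ v ∈ dc y, e v < Y → v ∉ S then 1 else 0) := by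
    rw [D.AU_eq H, D.AL_eq H]
    unfold chi
    have h2 : (AL i e ⊆ S ∧ Disjoint (AU i e ∪ (dc y).filter (fun v => e v < Y)) S) ↔
        ((AL i e ⊆ S ∧ Disjoint (AU i e) S) ∧ ∀ v ∈ dc y, e v < Y → v ∉ S) := by
      rw [disjoint_union_left]
      constructor
      · rintro ⟨h3, h4, h5⟩
        exact ⟨⟨h3, h4⟩, fun v hv hlt => disjoint_left.1 h5 (mem_filter.2 ⟨hv, hlt⟩)⟩
      · rintro ⟨⟨h3, h5⟩, h4⟩
        refine ⟨h3, h5, disjoint_left.2 fun v hv => ?_⟩
        rw [mem_filter] at hv
        exact h4 v hv.1 hv.2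
    by_cases h3 : AL i e ⊆ S ∧ Disjoint (AU i e) S
    · by_cases h4 : ∀ v ∈ dc y, e v < Y → v ∉ S
      · rw [if_pos h3, if_pos h4, if_pos (h2.2 ⟨h3, h4⟩), mul_one]
      · rw [if_neg h4, if_neg (fun h => h4 (h2.1 h).2), mul_zero]
    · rw [if_neg h3, if_neg (fun h => h3 (h2.1 h).1), zero_mul]
  have h2 : cw i (up2 y p Y Q e) = cw i e *
      (if ∀ v ∈ dc y, e v < Y then (if Y < Q then xi ^ 2 * dd else xi * dd) else
        (if Y < Q then 0 else 1)) := by
    unfold cw
    rw [D.aU_eq H, D.aL_eq H, D.pU_eq H, D.pL_eq H, D.AdmL_iff H, D.AdmU_iff H]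
    by_cases h3 : ∀ v ∈ dc y, e v < Y
    · rw [if_pos (Or.inr h3), if_pos h3]
      by_cases h4 : Y < Q
      · rw [if_pos h4, if_pos h4]
        by_cases h5 : AdmL i e ∧ AdmU i e
        · rw [if_pos h5, if_pos ⟨h5.1, h5.2, fun _ => h3⟩]
          ring
        · rw [if_neg h5, if_neg (fun h => h5 ⟨h.1, h.2.1⟩), zero_mul]
      · rw [if_neg h4, if_neg h4]
        by_cases h5 : AdmL i e ∧ AdmU i e
        · rw [if_pos h5, if_pos ⟨h5.1, h5.2, fun _ => h3⟩]
          ring
        · rw [if_neg h5, if_neg (fun h => h5 ⟨h.1, h.2.1⟩), zero_mul]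
    · rw [if_neg h3]
      by_cases h4 : Y < Q
      · rw [if_pos h4, if_pos h4, if_neg (fun h => h3 (h.2.2 h4)), mul_zero]
      · have h6 : ¬ (Y < Q ∨ ∀ v ∈ dc y, e v < Y) := by tauto
        rw [if_neg h4, if_neg h4, if_neg h6]
        by_cases h5 : AdmL i e ∧ AdmU i e
        · rw [if_pos h5, if_pos ⟨h5.1, h5.2, fun h => absurd h h4⟩]
          ring
        · rw [if_neg h5, if_neg (fun h => h5 ⟨h.1, h.2.1⟩), zero_mul]
  unfold Fe phiU
  rw [h1, h2]
  ring

end UpD

end Pool.Agent.GaussPoset.Win.So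

end

/-! From `Pool.Agent.W_448so_h17.RfC` -/

section

/-!
S9, row 476 (C): the reflection `(y, p) ↔ (u, p')`, `u = psi y`: structures `RefL`, `RefU`, the map
`rho`, the factors, and `phiL + phiU ∈ Rk V 0`.
-/

namespace Pool.Agent.GaussPoset.Win.So

set_option linter.unusedSectionVars false

open Finset

universe u

variable {P : Type u} [Fintype P] [PartialOrder P] [DecidableEq P] {r i : ℕ}

variable {e : P → ℕ} {y p u p' : P} {Y Q : ℕ}

/-! ### the sum of the two factors -/

/-- a two term function in `Rk V 0` -/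
lemma Rk_pair {V E : Finset P} {a b : A} (hE : E ⊆ V)
    (h2 : E.card = 2 → dd ∣ b ∧ dd ^ 2 ∣ a + b) (h1 : E.card = 1 → dd ∣ a - b)
    (h3 : E.card ≤ 2) : Rk V 0 (fun S => a * chi E ∅ S + b * chi ∅ E S) := by
  classical
  refine ⟨fun T => (if E ⊆ T ∧ T ⊆ E ∪ ∅ then a * (-1) ^ (T.card - E.card) else 0) +
    (if ∅ ⊆ T ∧ T ⊆ ∅ ∪ E then b * (-1) ^ (T.card - (∅ : Finset P).card) else 0), ?_, ?_⟩
  · intro T _
    simp only [union_empty, empty_union, empty_subset, true_and, card_empty, Nat.sub_zero]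
    by_cases hT : T ⊆ E
    · rw [if_pos hT]
      have hc := card_le_card hT
      by_cases hT2 : E ⊆ T
      · have hTE : T = E := subset_antisymm hT hT2
        subst hTE
        rw [if_pos ⟨subset_rfl, subset_rfl⟩, Nat.sub_self, pow_zero, mul_one]
        interval_cases hcard : T.card
        · simp
        · have := h1 rfl
          rw [pow_one, pow_one, mul_neg, mul_one, ← sub_eq_add_neg]
          exact this
        · have := (h2 rfl).2
          simpa using this
      · rw [if_neg (fun h => hT2 h.1), zero_add]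
        have hlt : T.card < E.card := by
          refine lt_of_le_of_ne hc fun h => hT2 ?_
          rw [eq_of_subset_of_card_le hT (by omega)]
        rcases Nat.eq_zero_or_pos T.card with h0 | h0
        · rw [h0]
          simp
        · have h4 : T.card = 1 := by omega
          rw [h4, pow_one]
          exact Dvd.dvd.mul_right (h2 (by omega)).1 _
    · rw [if_neg hT, if_neg (fun h => hT h.2), add_zero]
      exact dvd_zero _
  · intro S _
    rw [Finset.sum_add_distrib, RkC_sum (disjoint_empty_right E) S a,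
      RkC_sum (disjoint_empty_left E) S b]

lemma phiL_eq (e : P → ℕ) (y : P) (Y Q : ℕ) (S : Finset P) [DecidablePred fun v => e v < Y] :
    phiL e y Y Q S =
      (if ∀ v ∈ uc y, e v < Y then (if Y < Q then xx * dd else dd) else
        (if Y < Q then 0 else 1)) * chi ((uc y).filter (fun v => e v < Y)) ∅ S := by
  classical
  unfold phiL chi
  congr 1
  · congr 1
  have h : (((uc y).filter (fun v => e v < Y)) ⊆ S ∧ Disjoint ∅ S) ↔
      (∀ v ∈ uc y, e v < Y → v ∈ S) := by
    constructor
    · rintro ⟨h1, -⟩ v hv hlt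
      exact h1 (mem_filter.2 ⟨hv, hlt⟩)
    · intro h1
      refine ⟨fun v hv => ?_, disjoint_empty_left _⟩
      rw [mem_filter] at hv
      exact h1 v hv.1 hv.2
  by_cases h1 : ∀ v ∈ uc y, e v < Y → v ∈ S
  · rw [if_pos h1, if_pos (h.2 h1)]
  · rw [if_neg h1, if_neg (fun h2 => h1 (h.1 h2))]

lemma phiU_eq (e : P → ℕ) (y : P) (Y Q : ℕ) (S : Finset P) [DecidablePred fun v => e v < Y] :
    phiU e y Y Q S =
      (if ∀ v ∈ dc y, e v < Y then (if Y < Q then xi ^ 2 * dd else xi * dd) else
        (if Y < Q then 0 else 1)) * chi ∅ ((dc y).filter (fun v => e v < Y)) S := by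
  classical
  unfold phiU chi
  congr 1
  · congr 1
  have h : (∅ ⊆ S ∧ Disjoint ((dc y).filter (fun v => e v < Y)) S) ↔
      (∀ v ∈ dc y, e v < Y → v ∉ S) := by
    constructor
    · rintro ⟨-, h1⟩ v hv hlt
      exact disjoint_left.1 h1 (mem_filter.2 ⟨hv, hlt⟩)
    · intro h1
      refine ⟨empty_subset _, disjoint_left.2 fun v hv => ?_⟩
      rw [mem_filter] at hv
      exact h1 v hv.1 hv.2
  by_cases h1 : ∀ v ∈ dc y, e v < Y → v ∉ S
  · rw [if_pos h1, if_pos (h.2 h1)]
  · rw [if_neg h1, if_neg (fun h2 => h1 (h.1 h2))]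

/-- THE SUM OF THE FACTORS of the two mirror images has no deficit -/
theorem Rk_phi {V : Finset P} (hV : uc y ⊆ V) (h2 : (uc y).card = 2) (hu : dc u = uc y) :
    Rk V 0 (fun S => phiL e y Y Q S + phiU e u Y Q S) := by
  classical
  have h3 : ∀ S, phiL e y Y Q S + phiU e u Y Q S =
      (if ∀ v ∈ uc y, e v < Y then (if Y < Q then xx * dd else dd) else
        (if Y < Q then 0 else 1)) * chi ((uc y).filter (fun v => e v < Y)) ∅ S +
      (if ∀ v ∈ uc y, e v < Y then (if Y < Q then xi ^ 2 * dd else xi * dd) else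
        (if Y < Q then 0 else 1)) * chi ∅ ((uc y).filter (fun v => e v < Y)) S := by
    intro S
    rw [phiL_eq, phiU_eq, hu]
  refine Rk_congr (fun S _ => (h3 S).symm) ?_
  have hd : (1 : A) + xi = dd * xi := I2.one_add_xi
  have hle : ((uc y).filter (fun v => e v < Y)).card ≤ 2 := by
    rw [← h2]
    exact card_le_card (filter_subset _ _)
  have hall : ((uc y).filter (fun v => e v < Y)).card = 2 ↔ ∀ v ∈ uc y, e v < Y := by
    constructor
    · intro h v hv
      have h4 := eq_of_subset_of_card_le (filter_subset (fun v => e v < Y) (uc y)) (by omega)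
      rw [← h4, mem_filter] at hv
      exact hv.2
    · intro h
      rw [filter_true_of_mem h, h2]
  refine Rk_pair ((filter_subset _ _).trans hV) (fun hc => ?_) (fun hc => ?_) hle
  · have h4 := hall.1 hc
    rw [if_pos h4, if_pos h4]
    by_cases h5 : Y < Q
    · rw [if_pos h5, if_pos h5]
      refine ⟨Dvd.intro_left _ rfl, ?_⟩
      have h6 : xx * dd + xi ^ 2 * dd = dd * (xi ^ 2 * (1 + xx ^ 3)) := by
        have h7 : xx * xi = 1 := xx_mul_xi
        linear_combination (-(xx * dd) * (xx * xi + 1)) * h7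
      rw [h6, pow_two]
      exact mul_dvd_mul_left _ (Dvd.dvd.mul_left (dd_dvd_xx (Or.inr rfl)) _)
    · rw [if_neg h5, if_neg h5]
      refine ⟨Dvd.intro_left _ rfl, ?_⟩
      have h6 : dd + xi * dd = dd ^ 2 * xi := by
        linear_combination dd * hd
      rw [h6]
      exact Dvd.intro _ rfl
  · have h4 : ¬ ∀ v ∈ uc y, e v < Y := fun h => by
      have := hall.2 h
      omega
    rw [if_neg h4, if_neg h4, sub_self]
    exact dvd_zero _

/-! ### the reflection -/

/-- the static data of a reflection -/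
structure RefD (r i : ℕ) (y p u p' : P) : Prop where
  ly : lev y = i + 1
  lu : lev u + 1 = i
  lr : lev u < r
  cp : uc p = {y}
  dp : dc p' = {u}
  yu : dc u = uc y
  two : (uc y).card = 2

/-- the pair `(y, p)` is excited and nothing else touches `y`, `p`, `u`, `p'` -/
structure RefL (e : P → ℕ) (y p u p' : P) : Prop where
  hy : 1 ≤ e y
  hp : 1 ≤ e p
  eu : e u = 0
  ch : ∀ z, z ⋖ y → z ≠ p → e z = 0
  chp : ∀ z, z ⋖ p → e z = 0
  ab : ∀ q, u ⋖ q → e q = 0
  abp : ∀ q, p' ⋖ q → e q = 0

/-- the pair `(u, p')` is excited and nothing else touches `y`, `p`, `u`, `p'` -/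
structure RefU (e : P → ℕ) (y p u p' : P) : Prop where
  hu : 1 ≤ e u
  hp : 1 ≤ e p'
  ey : e y = 0
  ab : ∀ q, u ⋖ q → q ≠ p' → e q = 0
  abp : ∀ q, p' ⋖ q → e q = 0
  ch : ∀ z, z ⋖ y → e z = 0
  chp : ∀ z, z ⋖ p → e z = 0

/-- the reflected configuration -/
def rho (y p u p' : P) (e : P → ℕ) : P → ℕ := fun z =>
  if z = y then e u else if z = p then e p' else if z = u then e y else if z = p' then e p else e z

namespace RefD

variable (H : Gr P r) (D : RefD r i y p u p')

include D

lemma py : p ⋖ y := mem_uc.1 (by rw [D.cp]; exact mem_singleton_self y)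

lemma up : u ⋖ p' := mem_dc.1 (by rw [D.dp]; exact mem_singleton_self u)

include H

lemma lp : lev p = i + 2 := by
  have h1 := lev_uc H (mem_uc.2 D.py)
  have := D.ly
  omega

lemma lp' : lev p' + 2 = i := by
  have h1 := lev_uc H (mem_uc.2 D.up)
  have := D.lu
  omega

lemma nes : y ≠ p ∧ y ≠ u ∧ y ≠ p' ∧ p ≠ u ∧ p ≠ p' ∧ u ≠ p' := by
  have h1 := D.ly
  have h2 := D.lp H
  have h3 := D.lu
  have h4 := D.lp' H
  refine ⟨?_, ?_, ?_, ?_, ?_, ?_⟩ <;> rintro rfl <;> omega

lemma rho_y (e : P → ℕ) : rho y p u p' e y = e u := by unfold rho; rw [if_pos rfl]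

lemma rho_p (e : P → ℕ) : rho y p u p' e p = e p' := by
  obtain ⟨h1, h2, h3, h4, h5, h6⟩ := D.nes H
  unfold rho; rw [if_neg h1.symm, if_pos rfl]

lemma rho_u (e : P → ℕ) : rho y p u p' e u = e y := by
  obtain ⟨h1, h2, h3, h4, h5, h6⟩ := D.nes H
  unfold rho; rw [if_neg h2.symm, if_neg h4.symm, if_pos rfl]

lemma rho_p' (e : P → ℕ) : rho y p u p' e p' = e p := by
  obtain ⟨h1, h2, h3, h4, h5, h6⟩ := D.nes H
  unfold rho; rw [if_neg h3.symm, if_neg h5.symm, if_neg h6.symm, if_pos rfl]

omit H D in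
lemma rho_ne {z : P} (e : P → ℕ) (h1 : z ≠ y) (h2 : z ≠ p) (h3 : z ≠ u) (h4 : z ≠ p') :
    rho y p u p' e z = e z := by
  unfold rho; rw [if_neg h1, if_neg h2, if_neg h3, if_neg h4]

lemma rho_rho (e : P → ℕ) : rho y p u p' (rho y p u p' e) = e := by
  funext z
  by_cases h1 : z = y
  · subst h1; rw [D.rho_y H, D.rho_u H]
  · by_cases h2 : z = p
    · subst h2; rw [D.rho_p H, D.rho_p' H]
    · by_cases h3 : z = u
      · subst h3; rw [D.rho_u H, D.rho_y H]
      · by_cases h4 : z = p'
        · subst h4; rw [D.rho_p' H, D.rho_p H]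
        · rw [rho_ne _ h1 h2 h3 h4, rho_ne _ h1 h2 h3 h4]

lemma rho_sum (e : P → ℕ) : ∑ z, rho y p u p' e z = ∑ z, e z := by
  obtain ⟨h1, h2, h3, h4, h5, h6⟩ := D.nes H
  have h : ∀ g : P → ℕ, ∑ z, g z = g y + (g p + (g u + (g p' +
      ∑ z ∈ (((univ.erase y).erase p).erase u).erase p', g z))) := by
    intro g
    rw [Finset.add_sum_erase _ _ (by simp only [mem_erase, mem_univ, and_true]; tauto),
      Finset.add_sum_erase _ _ (by simp only [mem_erase, mem_univ, and_true]; tauto),
      Finset.add_sum_erase _ _ (by simp only [mem_erase, mem_univ, and_true]; tauto),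
      Finset.add_sum_erase _ _ (mem_univ y)]
  rw [h, h e, D.rho_y H, D.rho_p H, D.rho_u H, D.rho_p' H]
  have h7 : ∑ z ∈ (((univ.erase y).erase p).erase u).erase p', rho y p u p' e z =
      ∑ z ∈ (((univ.erase y).erase p).erase u).erase p', e z := by
    refine Finset.sum_congr rfl fun z hz => ?_
    simp only [mem_erase, mem_univ, and_true] at hz
    exact rho_ne e hz.2.2.2 hz.2.2.1 hz.2.1 hz.1
  rw [h7]
  omega

/-- the reflection maps `RefL` to `RefU` -/
theorem LU (R : RefL e y p u p') : RefU (rho y p u p' e) y p u p' := by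
  obtain ⟨h1, h2, h3, h4, h5, h6⟩ := D.nes H
  have ly := D.ly
  have lp := D.lp H
  have lu := D.lu
  have lp' := D.lp' H
  refine ⟨by rw [D.rho_u H]; exact R.hy, by rw [D.rho_p' H]; exact R.hp,
    by rw [D.rho_y H]; exact R.eu, ?_, ?_, ?_, ?_⟩
  · intro q hq hq2
    have l1 := lev_uc H (mem_uc.2 hq)
    rw [rho_ne e (by rintro rfl; omega) (by rintro rfl; omega) (by rintro rfl; omega) hq2]
    exact R.ab q hq
  · intro q hq
    have l1 := lev_uc H (mem_uc.2 hq)
    rw [rho_ne e (by rintro rfl; omega) (by rintro rfl; omega) (by rintro rfl; omega)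
      (by rintro rfl; omega)]
    exact R.abp q hq
  · intro z hz
    have l1 := lev_uc H (mem_uc.2 hz)
    by_cases h : z = p
    · rw [h, D.rho_p H]
      exact R.ab p' D.up
    · rw [rho_ne e (by rintro rfl; omega) h (by rintro rfl; omega) (by rintro rfl; omega)]
      exact R.ch z hz h
  · intro z hz
    have l1 := lev_uc H (mem_uc.2 hz)
    rw [rho_ne e (by rintro rfl; omega) (by rintro rfl; omega) (by rintro rfl; omega)
      (by rintro rfl; omega)]
    exact R.chp z hz

/-- the reflection maps `RefU` to `RefL` -/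
theorem UL (R : RefU e y p u p') : RefL (rho y p u p' e) y p u p' := by
  obtain ⟨h1, h2, h3, h4, h5, h6⟩ := D.nes H
  have ly := D.ly
  have lp := D.lp H
  have lu := D.lu
  have lp' := D.lp' H
  refine ⟨by rw [D.rho_y H]; exact R.hu, by rw [D.rho_p H]; exact R.hp,
    by rw [D.rho_u H]; exact R.ey, ?_, ?_, ?_, ?_⟩
  · intro z hz hz2
    have l1 := lev_uc H (mem_uc.2 hz)
    rw [rho_ne e (by rintro rfl; omega) hz2 (by rintro rfl; omega) (by rintro rfl; omega)]
    exact R.ch z hz
  · intro z hz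
    have l1 := lev_uc H (mem_uc.2 hz)
    rw [rho_ne e (by rintro rfl; omega) (by rintro rfl; omega) (by rintro rfl; omega)
      (by rintro rfl; omega)]
    exact R.chp z hz
  · intro q hq
    have l1 := lev_uc H (mem_uc.2 hq)
    by_cases h : q = p'
    · rw [h, D.rho_p' H]
      exact R.ch p D.py
    · rw [rho_ne e (by rintro rfl; omega) (by rintro rfl; omega) (by rintro rfl; omega) h]
      exact R.ab q hq h
  · intro q hq
    have l1 := lev_uc H (mem_uc.2 hq)
    rw [rho_ne e (by rintro rfl; omega) (by rintro rfl; omega) (by rintro rfl; omega)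
      (by rintro rfl; omega)]
    exact R.abp q hq

end RefD

/-- the reduced configuration: all four labels zero -/
def red (y p : P) (e : P → ℕ) : P → ℕ := up2 y p 0 0 e

namespace RefL

variable (H : Gr P r) (D : RefD r i y p u p') (R : RefL e y p u p')

include H D R

lemma low : LowD i (red y p e) y p := by
  have hne := D.py.lt.ne
  refine ⟨D.ly, D.cp, ?_, ?_, ?_, ?_⟩
  · unfold red; rw [up2_y]
  · unfold red; rw [up2_p hne]
  · intro z hz
    unfold red
    by_cases h : z = p
    · rw [h, up2_p hne]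
    · rw [up2_ne hz.lt.ne h]
      exact R.ch z hz h
  · intro z hz
    unfold red
    rw [up2_ne (hz.lt.trans D.py.lt).ne hz.lt.ne]
    exact R.chp z hz

lemma upp : UpD r i (red y p e) u p' := by
  obtain ⟨h1, h2, h3, h4, h5, h6⟩ := D.nes H
  have ly := D.ly
  have lp := D.lp H
  have lu := D.lu
  have lp' := D.lp' H
  refine ⟨D.lu, D.lr, D.dp, ?_, ?_, ?_, ?_⟩
  · unfold red; rw [up2_ne h2.symm h4.symm]; exact R.eu
  · unfold red; rw [up2_ne h3.symm h5.symm]; exact R.ab p' D.up
  · intro z hz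
    have l1 := lev_uc H (mem_uc.2 hz)
    unfold red
    rw [up2_ne (by rintro rfl; omega) (by rintro rfl; omega)]
    exact R.ab z hz
  · intro z hz
    have l1 := lev_uc H (mem_uc.2 hz)
    unfold red
    rw [up2_ne (by rintro rfl; omega) (by rintro rfl; omega)]
    exact R.abp z hz

/-- the factor of the excited pair `(y, p)` -/
theorem Fe_eq (S : Finset P) :
    Fe i e S = Fe i (red y p e) S * phiL (red y p e) y (e y) (e p) S := by
  have h1 := (R.low H D).Fe_low H (Y := e y) (Q := e p) S
  have h2 : up2 y p (e y) (e p) (red y p e) = e := by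
    funext z
    by_cases h3 : z = y
    · rw [h3, up2_y]
    · by_cases h4 : z = p
      · rw [h4, up2_p D.py.lt.ne]
      · rw [up2_ne h3 h4]
        unfold red
        rw [up2_ne h3 h4]
  rw [h2] at h1
  exact h1

/-- the factor of the mirror image -/
theorem Fe_rho (S : Finset P) :
    Fe i (rho y p u p' e) S = Fe i (red y p e) S * phiU (red y p e) u (e y) (e p) S := by
  have h1 := (R.upp H D).Fe_upp H (Y := e y) (Q := e p) S
  have h2 : up2 u p' (e y) (e p) (red y p e) = rho y p u p' e := by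
    obtain ⟨n1, n2, n3, n4, n5, n6⟩ := D.nes H
    funext z
    by_cases z1 : z = y
    · rw [z1, D.rho_y H, up2_ne n2 n3]
      unfold red
      rw [up2_y, R.eu]
    · by_cases z2 : z = p
      · rw [z2, D.rho_p H, up2_ne n4 n5]
        unfold red
        rw [up2_p n1.symm, R.ab p' D.up]
      · by_cases z3 : z = u
        · rw [z3, D.rho_u H, up2_y]
        · by_cases z4 : z = p'
          · rw [z4, D.rho_p' H, up2_p n6.symm]
          · rw [RefD.rho_ne e z1 z2 z3 z4, up2_ne z3 z4]
            unfold red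
            rw [up2_ne z1 z2]
  rw [h2] at h1
  exact h1

/-- the sum of the two functions is the reduced function times a function without deficit -/
theorem pair_eq (S : Finset P) :
    Fe i e S + Fe i (rho y p u p' e) S = Fe i (red y p e) S *
      (phiL (red y p e) y (e y) (e p) S + phiU (red y p e) u (e y) (e p) S) := by
  rw [R.Fe_eq H D, R.Fe_rho H D]
  ring

theorem pair_Rk {V : Finset P} (hV : uc y ⊆ V) :
    Rk V 0 (fun S => phiL (red y p e) y (e y) (e p) S + phiU (red y p e) u (e y) (e p) S) :=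
  Rk_phi hV D.two D.yu

omit R in
/-- admissibility gives the upper conditions -/
theorem mk' (hir : i ≤ r) (hA : AdmL i e) (hB : AdmU i e) (hp : 1 ≤ e p) (eu : e u = 0)
    (ch : ∀ z, z ⋖ y → z ≠ p → e z = 0) (chp : ∀ z, z ⋖ p → e z = 0) : RefL e y p u p' := by
  have lp := D.lp H
  have lp' := D.lp' H
  have lu := D.lu
  have ab : ∀ q, u ⋖ q → e q = 0 := by
    intro q hq
    have l1 := lev_uc H (mem_uc.2 hq)
    by_contra h
    have := pos_dn H hir hB (by omega) (by omega : 0 < e q) hq
    omega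
  refine ⟨pos_up H hA (by omega) hp D.py, hp, eu, ch, chp, ab, ?_⟩
  intro q hq
  have l1 := lev_uc H (mem_uc.2 hq)
  have h0 := ab p' D.up
  by_contra h
  have := pos_dn H hir hB (by omega) (by omega : 0 < e q) hq
  omega

end RefL

/-- admissibility gives the lower conditions -/
theorem RefU.mk' (H : Gr P r) (D : RefD r i y p u p') (hir : i ≤ r) (hA : AdmL i e)
    (hB : AdmU i e) (hp : 1 ≤ e p') (ey : e y = 0) (ab : ∀ q, u ⋖ q → q ≠ p' → e q = 0)
    (abp : ∀ q, p' ⋖ q → e q = 0) : RefU e y p u p' := by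
  have lp := D.lp H
  have lp' := D.lp' H
  have ly := D.ly
  have ch : ∀ z, z ⋖ y → e z = 0 := by
    intro z hz
    have l1 := lev_uc H (mem_uc.2 hz)
    by_contra h
    have := pos_up H hA (by omega) (by omega : 0 < e z) hz
    omega
  refine ⟨pos_dn H hir hB (by omega) hp D.up, hp, ey, ab, abp, ch, ?_⟩
  intro z hz
  have l1 := lev_uc H (mem_uc.2 hz)
  have h0 := ch p D.py
  by_contra h
  have := pos_up H hA (by omega) (by omega : 0 < e z) hz
  omega

end Pool.Agent.GaussPoset.Win.So

end

/-! From `Pool.Agent.W_448so_h64.SoK` -/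

section

/-!
SECOND ORDER THEOREM (MP_448cb3_co, proofs row 476): (C4), the classification of the reduced configuration.
-/

namespace Pool.Agent.GaussPoset.Win.SO

set_option linter.unusedSectionVars false

open Finset
open Pool.Agent.GaussPoset.Win.I2 (lS uS mem_lS mem_uS)
open Pool.Agent.GaussPoset.Win.So (TogL RefL RefU RefD red up2 up2_y up2_p up2_ne)

universe u

variable {P : Type u} [Fintype P] [PartialOrder P] [DecidableEq P] {r i : ℕ} {psi : P → P}
  {e : P → ℕ} {C : Finset P}

/-- the pendants of reflection data -/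
lemma refD_PD (H : Gr P r) {y p u p' : P} (D : RefD r i y p u p') : p ∈ PD P i := by
  have h1 := D.lp H
  have h2 := D.cp
  have h3 : p ⋖ y := D.py
  exact mem_PD.2 ⟨h1, by rw [h2]; simp, y, h3, D.two⟩

lemma refD_PU (H : Gr P r) {y p u p' : P} (D : RefD r i y p u p') : p' ∈ PU P i := by
  have h1 := D.lp' H
  have h3 : u ⋖ p' := D.up
  refine mem_PU.2 ⟨by omega, by rw [D.dp]; simp, u, h3, ?_⟩
  rw [D.yu]
  exact D.two

end Pool.Agent.GaussPoset.Win.SO

end
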