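import Mathlib
import Pool.Agent.W_448zz_h61.Ns
import Pool.Agent.W_448zz_h61.M084

/-! From `Pool.Agent.W_448so_h17.TgB` -/

/-!
S9, row 476 (B), mirror image: the toggle at an upper element `w` over two double-down elements
`x`, `x'` with the common site `s`: `(e w, e s) ↦ (e s + 1, e w - 1)`.
-/

namespace Pool.Agent.GaussPoset.Win.So

set_option linter.unusedSectionVars false

open Finset

universe u

variable {P : Type u} [Fintype P] [PartialOrder P] [DecidableEq P] {r i : ℕ}

variable {e : P → ℕ} {w x x' a s c : P}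

/-- a lower element `w` of level `i + 2` over two double-up elements `x`, `x'` with the sites
`a, s` and `s, c` is togglable in `e` -/
structure TogU (i : ℕ) (e : P → ℕ) (w x x' a s c : P) : Prop where
  lw : lev w + 2 = i
  uw : dc w = {x, x'}
  ux : dc x = {a, s}
  ux' : dc x' = {s, c}
  as : a ≠ s
  sc : s ≠ c
  xx' : x ≠ x'
  ds : uc s = {x, x'}
  us : ∀ u, u ⋖ s → e u = 0
  hw : 1 ≤ e w
  hx : 1 ≤ e x
  hx' : 1 ≤ e x'
  st : ((e x < e w ∨ e x' < e w) ∧ e s < e x ∧ e s < e x') ∨
    (e w ≤ e x ∧ e w ≤ e x' ∧ (e x ≤ e s ∨ e x' ≤ e s))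
  cw : ∀ z, w ⋖ z → e z ≤ e w ∧ e z ≤ e s + 1
  ca : e x < e w ∨ e x < e s + 1 → e a < e x
  cc : e x' < e w ∨ e x' < e s + 1 → e c < e x'
  dx : ∀ y, x ⋖ y → y ≠ w → e y ≤ e x
  dx' : ∀ y, x' ⋖ y → y ≠ w → e y ≤ e x'

namespace TogU

lemma lx (H : Gr P r) (T : TogU i e w x x' a s c) : lev x + 1 = i := by
  have h1 := lev_dc H (show x ∈ dc w by rw [T.uw]; exact mem_insert_self _ _)
  have := T.lw
  omega

lemma lx' (H : Gr P r) (T : TogU i e w x x' a s c) : lev x' + 1 = i := by
  have h1 := lev_dc H (show x' ∈ dc w by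
    rw [T.uw]; exact mem_insert_of_mem (mem_singleton_self _))
  have := T.lw
  omega

lemma ls (H : Gr P r) (T : TogU i e w x x' a s c) : lev s = i := by
  have h1 := lev_dc H (show s ∈ dc x by
    rw [T.ux]; exact mem_insert_of_mem (mem_singleton_self _))
  have := T.lx H
  omega

lemma la (H : Gr P r) (T : TogU i e w x x' a s c) : lev a = i := by
  have h1 := lev_dc H (show a ∈ dc x by rw [T.ux]; exact mem_insert_self _ _)
  have := T.lx H
  omega

lemma wx (T : TogU i e w x x' a s c) : x ⋖ w := mem_dc.1 (by rw [T.uw]; exact mem_insert_self _ _)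

lemma wx' (T : TogU i e w x x' a s c) : x' ⋖ w :=
  mem_dc.1 (by rw [T.uw]; exact mem_insert_of_mem (mem_singleton_self _))

lemma xs (T : TogU i e w x x' a s c) : s ⋖ x :=
  mem_dc.1 (by rw [T.ux]; exact mem_insert_of_mem (mem_singleton_self _))

lemma xs' (T : TogU i e w x x' a s c) : s ⋖ x' :=
  mem_dc.1 (by rw [T.ux']; exact mem_insert_self _ _)

lemma xa (T : TogU i e w x x' a s c) : a ⋖ x :=
  mem_dc.1 (by rw [T.ux]; exact mem_insert_self _ _)

/-- the mirror image -/
lemma symm (T : TogU i e w x x' a s c) : TogU i e w x' x c s a where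
  lw := T.lw
  uw := by rw [T.uw, Finset.pair_comm]
  ux := by rw [T.ux', Finset.pair_comm]
  ux' := by rw [T.ux, Finset.pair_comm]
  as := T.sc.symm
  sc := T.as.symm
  xx' := T.xx'.symm
  ds := by rw [T.ds, Finset.pair_comm]
  us := T.us
  hw := T.hw
  hx := T.hx'
  hx' := T.hx
  st := by
    rcases T.st with ⟨h1, h2, h3⟩ | ⟨h1, h2, h3⟩
    · exact Or.inl ⟨h1.symm, h3, h2⟩
    · exact Or.inr ⟨h2, h1, h3.symm⟩
  cw := T.cw
  ca := T.cc
  cc := T.ca
  dx := T.dx'
  dx' := T.dx

end TogU

namespace TogU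

variable (H : Gr P r) (T : TogU i e w x x' a s c)

include H T

lemma sw : s ≠ w := by
  rintro rfl
  have := T.lw
  have := T.ls H
  omega

/-- the label of an element which is neither `w` nor `s` -/
lemma ne {y : P} (h1 : lev y + 2 ≠ i) (h2 : lev y ≠ i) : tg w s e y = e y := by
  apply tg_ne
  · rintro rfl
    exact h1 T.lw
  · rintro rfl
    exact h2 (T.ls H)

lemma tx : tg w s e x = e x := by
  have := T.lx H
  exact T.ne H (by omega) (by omega)

lemma tx' : tg w s e x' = e x' := T.symm.tx H

lemma ta : tg w s e a = e a :=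
  tg_ne (by rintro rfl; have := T.lw; have := T.la H; omega) T.as e

lemma tc : tg w s e c = e c := T.symm.ta H

/-- the toggle preserves the structure -/
theorem tg : TogU i (tg w s e) w x x' a s c where
  lw := T.lw
  uw := T.uw
  ux := T.ux
  ux' := T.ux'
  as := T.as
  sc := T.sc
  xx' := T.xx'
  ds := T.ds
  us := by
    intro u hu
    have h1 := lev_dc H (mem_dc.2 hu)
    have h2 := T.ls H
    rw [T.ne H (by omega) (by omega)]
    exact T.us u hu
  hw := by rw [tg_w]; omega
  hx := by rw [T.tx H]; exact T.hx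
  hx' := by rw [T.tx' H]; exact T.hx'
  st := by
    rw [tg_w, tg_s (T.sw H), T.tx H, T.tx' H]
    have := T.st
    have := T.hw
    omega
  cw := by
    intro z hz
    have h1 := lev_dc H (mem_dc.2 hz)
    have h2 := T.lw
    rw [tg_w, tg_s (T.sw H), T.ne H (by omega) (by omega)]
    have h3 := T.cw z hz
    have := T.hw
    omega
  ca := by
    rw [tg_w, tg_s (T.sw H), T.tx H, T.ta H]
    have h1 := T.ca
    have := T.hw
    intro h
    apply h1
    omega
  cc := by
    rw [tg_w, tg_s (T.sw H), T.tx' H, T.tc H]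
    have h1 := T.cc
    have := T.hw
    intro h
    apply h1
    omega
  dx := by
    intro y hy hyw
    have h1 := lev_dc H (mem_dc.2 hy)
    have h2 := T.lx H
    rw [T.tx H, tg_ne hyw (by rintro rfl; have := T.ls H; omega)]
    exact T.dx y hy hyw
  dx' := by
    intro y hy hyw
    have h1 := lev_dc H (mem_dc.2 hy)
    have h2 := T.lx' H
    rw [T.tx' H, tg_ne hyw (by rintro rfl; have := T.ls H; omega)]
    exact T.dx' y hy hyw

/-- one of the two configurations is in state A, the other one is not -/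
lemma st_tg : StA (Win.So.tg w s e) w x x' ↔ ¬ StA e w x x' := by
  unfold StA
  rw [tg_w, T.tx H, T.tx' H]
  have := T.st
  have := T.hw
  omega

lemma not_FU_w : ¬ FU e w := by
  rintro ⟨z, hz, hlt⟩
  have := T.cw z hz
  omega

lemma FU_x : FU e x ↔ e x < e w := by
  constructor
  · rintro ⟨z, hz, hlt⟩
    by_cases h : z = w
    · rw [← h]
      exact hlt
    · have := T.dx z hz h
      omega
  · intro h
    exact ⟨w, T.wx, h⟩

lemma GD_x : GD e x ↔ e x ≤ e a ∨ e x ≤ e s := by
  constructor
  · rintro ⟨y, hy, hle⟩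
    have h1 := mem_dc.2 hy
    rw [T.ux, mem_insert, mem_singleton] at h1
    rcases h1 with rfl | rfl
    · exact Or.inl hle
    · exact Or.inr hle
  · rintro (h | h)
    · exact ⟨a, T.xa, h⟩
    · exact ⟨s, T.xs, h⟩

lemma GD_w : GD e w ↔ e w ≤ e x ∨ e w ≤ e x' := by
  constructor
  · rintro ⟨y, hy, hle⟩
    have h1 := mem_dc.2 hy
    rw [T.uw, mem_insert, mem_singleton] at h1
    rcases h1 with rfl | rfl
    · exact Or.inl hle
    · exact Or.inr hle
  · rintro (h | h)
    · exact ⟨x, T.wx, h⟩
    · exact ⟨x', T.wx', h⟩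

/-- lower elements other than `w`, `x`, `x'`: `FU` unchanged -/
lemma FU_oth {z : P} (hz : lev z < i) (h1 : z ≠ w) (h2 : z ≠ x) (h3 : z ≠ x') :
    FU (Win.So.tg w s e) z ↔ FU e z := by
  have hzs : z ≠ s := by
    rintro rfl
    have := T.ls H
    omega
  have key : ∀ z', z ⋖ z' → Win.So.tg w s e z' = e z' := by
    intro z' hz'
    have l1 := lev_dc H (mem_dc.2 hz')
    apply tg_ne
    · rintro rfl
      have h4 := mem_dc.2 hz'
      rw [T.uw, mem_insert, mem_singleton] at h4
      rcases h4 with h4 | h4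
      · exact h2 h4
      · exact h3 h4
    · rintro rfl
      have := T.ls H
      omega
  unfold FU
  constructor
  · rintro ⟨z', hz', hlt⟩
    rw [key z' hz', tg_ne h1 hzs] at hlt
    exact ⟨z', hz', hlt⟩
  · rintro ⟨z', hz', hlt⟩
    refine ⟨z', hz', ?_⟩
    rw [key z' hz', tg_ne h1 hzs]
    exact hlt

/-- lower elements other than `w`, `x`, `x'`: `GD` unchanged -/
lemma GD_oth {z : P} (hz : lev z < i) (h1 : z ≠ w) (h2 : z ≠ x) (h3 : z ≠ x') :
    GD (Win.So.tg w s e) z ↔ GD e z := by
  have hzs : z ≠ s := by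
    rintro rfl
    have := T.ls H
    omega
  by_cases hzw : w ⋖ z
  · have h4 := T.cw z hzw
    constructor
    · intro _
      exact ⟨w, hzw, h4.1⟩
    · intro _
      refine ⟨w, hzw, ?_⟩
      rw [tg_w, tg_ne h1 hzs]
      exact h4.2
  · have key : ∀ y, y ⋖ z → Win.So.tg w s e y = e y := by
      intro y hy
      apply tg_ne
      · rintro rfl
        exact hzw hy
      · rintro rfl
        have h4 := mem_uc.2 hy
        rw [T.ds, mem_insert, mem_singleton] at h4
        rcases h4 with h4 | h4
        · exact h2 h4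
        · exact h3 h4
    unfold GD
    constructor
    · rintro ⟨y, hy, hle⟩
      rw [key y hy, tg_ne h1 hzs] at hle
      exact ⟨y, hy, hle⟩
    · rintro ⟨y, hy, hle⟩
      refine ⟨y, hy, ?_⟩
      rw [key y hy, tg_ne h1 hzs]
      exact hle

lemma FU_site {v : P} (hv : lev v = i) (h : v ≠ s) : FU (Win.So.tg w s e) v ↔ FU e v := by
  have hvw : v ≠ w := by
    rintro rfl
    have := T.lw
    omega
  have key : ∀ z', v ⋖ z' → Win.So.tg w s e z' = e z' := by
    intro z' hz'
    have l1 := lev_dc H (mem_dc.2 hz')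
    exact T.ne H (by omega) (by omega)
  unfold FU
  constructor
  · rintro ⟨z', hz', hlt⟩
    rw [key z' hz', tg_ne hvw h] at hlt
    exact ⟨z', hz', hlt⟩
  · rintro ⟨z', hz', hlt⟩
    refine ⟨z', hz', ?_⟩
    rw [key z' hz', tg_ne hvw h]
    exact hlt

lemma FU_s : FU e s ↔ e s < e x ∨ e s < e x' := by
  constructor
  · rintro ⟨z, hz, hlt⟩
    have h1 := mem_uc.2 hz
    rw [T.ds, mem_insert, mem_singleton] at h1
    rcases h1 with rfl | rfl
    · exact Or.inl hlt
    · exact Or.inr hlt
  · rintro (h | h)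
    · exact ⟨x, T.xs, h⟩
    · exact ⟨x', T.xs', h⟩

lemma FD_site {v : P} (hv : lev v = i) : FD (Win.So.tg w s e) v ↔ FD e v := by
  have hvw : v ≠ w := by
    rintro rfl
    have := T.lw
    omega
  have key : ∀ y, y ⋖ v → Win.So.tg w s e y = e y := by
    intro y hy
    have l1 := lev_dc H (mem_dc.2 hy)
    exact T.ne H (by omega) (by omega)
  by_cases h : v = s
  · subst h
    constructor
    · rintro ⟨y, hy, hlt⟩
      rw [key y hy, T.us y hy] at hlt
      omega
    · rintro ⟨y, hy, hlt⟩
      rw [T.us y hy] at hlt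
      omega
  · unfold FD
    constructor
    · rintro ⟨y, hy, hlt⟩
      rw [key y hy, tg_ne hvw h] at hlt
      exact ⟨y, hy, hlt⟩
    · rintro ⟨y, hy, hlt⟩
      refine ⟨y, hy, ?_⟩
      rw [key y hy, tg_ne hvw h]
      exact hlt

lemma FD_up {u : P} (hu : i < lev u) : FD (Win.So.tg w s e) u ↔ FD e u := by
  have key : ∀ y, y ≤ u → Win.So.tg w s e y = e y := by
    intro y hy
    have l1 : lev u ≤ lev y := by
      rcases eq_or_lt_of_le hy with h | h
      · rw [h]
      · exact (lev_strictAnti h).le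
    exact T.ne H (by omega) (by omega)
  unfold FD
  constructor
  · rintro ⟨y, hy, hlt⟩
    rw [key y hy.le, key u le_rfl] at hlt
    exact ⟨y, hy, hlt⟩
  · rintro ⟨y, hy, hlt⟩
    refine ⟨y, hy, ?_⟩
    rw [key y hy.le, key u le_rfl]
    exact hlt

lemma GU_up {u : P} (hu : i < lev u) : GU (Win.So.tg w s e) u ↔ GU e u := by
  have hue : Win.So.tg w s e u = e u := T.ne H (by omega) (by omega)
  by_cases hsu : u ⋖ s
  · have h0 := T.us u hsu
    constructor
    · intro _
      exact ⟨s, hsu, by omega⟩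
    · intro _
      exact ⟨s, hsu, by rw [hue]; omega⟩
  · have key : ∀ z, u ⋖ z → Win.So.tg w s e z = e z := by
      intro z hz
      have l1 := lev_dc H (mem_dc.2 hz)
      apply tg_ne
      · rintro rfl
        have := T.lw
        omega
      · rintro rfl
        exact hsu hz
    unfold GU
    constructor
    · rintro ⟨z, hz, hle⟩
      rw [key z hz, hue] at hle
      exact ⟨z, hz, hle⟩
    · rintro ⟨z, hz, hle⟩
      refine ⟨z, hz, ?_⟩
      rw [key z hz, hue]
      exact hle

end TogU

namespace TogU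

section data

variable (H : Gr P r) (T : TogU i e w x x' a s c) (hA : StA e w x x')

include H T hA

lemma sA : (e x < e w ∨ e x' < e w) ∧ e s < e x ∧ e s < e x' := by
  have h1 := T.st
  unfold StA at hA
  omega

lemma AdmU_tg : AdmU i (Win.So.tg w s e) ↔ AdmU i e := by
  have T' := T.tg H
  have h0 := T.sA H hA
  have ex' : ∀ {x x' a c : P}, TogU i e w x x' a s c → e s < e x → ¬ (FU e x ∧ GD e x) := by
    intro x x' a c T hs
    rw [T.FU_x H, T.GD_x H]
    rintro ⟨h1, h2 | h2⟩
    · have := T.ca (Or.inl h1)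
      omega
    · omega
  have fx : ∀ {x x' a c : P}, TogU i e w x x' a s c → e s < e x →
      ¬ FU (Win.So.tg w s e) x := by
    intro x x' a c T hs
    rw [(T.tg H).FU_x H, tg_w, T.tx H]
    omega
  constructor
  · intro h z hz
    by_cases h1 : z = w
    · subst h1
      exact fun h2 => T.not_FU_w H h2.1
    · by_cases h2 : z = x
      · subst h2
        exact ex' T h0.2.1
      · by_cases h3 : z = x'
        · subst h3
          exact ex' T.symm h0.2.2
        · have := h z hz
          rwa [T.FU_oth H hz h1 h2 h3, T.GD_oth H hz h1 h2 h3] at this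
  · intro h z hz
    by_cases h1 : z = w
    · subst h1
      exact fun h2 => T'.not_FU_w H h2.1
    · by_cases h2 : z = x
      · subst h2
        exact fun h4 => fx T h0.2.1 h4.1
      · by_cases h3 : z = x'
        · subst h3
          exact fun h4 => fx T.symm h0.2.2 h4.1
        · rw [T.FU_oth H hz h1 h2 h3, T.GD_oth H hz h1 h2 h3]
          exact h z hz

omit hA in
lemma AdmL_tg : AdmL i (Win.So.tg w s e) ↔ AdmL i e := by
  unfold AdmL
  constructor
  · intro h u hu
    have := h u hu
    rwa [T.FD_up H hu, T.GU_up H hu] at this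
  · intro h u hu
    rw [T.FD_up H hu, T.GU_up H hu]
    exact h u hu

omit hA in
lemma aL_tg : aL i (Win.So.tg w s e) = aL i e := by
  classical
  unfold aL
  congr 1
  ext u
  rw [mem_filter, mem_filter]
  constructor
  · rintro ⟨h1, h2, h3⟩
    exact ⟨h1, h2, (T.FD_up H h2).1 h3⟩
  · rintro ⟨h1, h2, h3⟩
    exact ⟨h1, h2, (T.FD_up H h2).2 h3⟩

omit hA in
lemma pL_tg : pL i (Win.So.tg w s e) = pL i e := by
  classical
  unfold pL
  congr 1
  ext u
  rw [mem_filter, mem_filter]
  constructor
  · rintro ⟨h1, h2, h3, h4⟩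
    exact ⟨h1, h2, fun h => h3 ((T.FD_up H h2).2 h), fun h => h4 ((T.GU_up H h2).2 h)⟩
  · rintro ⟨h1, h2, h3, h4⟩
    exact ⟨h1, h2, fun h => h3 ((T.FD_up H h2).1 h), fun h => h4 ((T.GU_up H h2).1 h)⟩

omit hA in
lemma AL_tg : AL i (Win.So.tg w s e) = AL i e := by
  classical
  ext v
  rw [NormD_mem_AL, NormD_mem_AL]
  constructor
  · rintro ⟨h1, h2⟩
    exact ⟨h1, (T.FD_site H h1).1 h2⟩
  · rintro ⟨h1, h2⟩
    exact ⟨h1, (T.FD_site H h1).2 h2⟩

omit hA in
lemma s_AL : s ∉ AL i e := by
  rw [NormD_mem_AL]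
  rintro ⟨-, y, hy, hlt⟩
  rw [T.us y hy] at hlt
  omega

open Classical in
lemma aU_tg : aU i e = aU i (Win.So.tg w s e) + (if Kb e w x x' then 2 else 1) := by
  have T' := T.tg H
  have h0 := T.sA H hA
  have lx := T.lx H
  have lx' := T.lx' H
  have fx : ¬ FU (Win.So.tg w s e) x := by
    rw [T'.FU_x H, tg_w, T.tx H]
    omega
  have fx' : ¬ FU (Win.So.tg w s e) x' := by
    rw [T'.symm.FU_x H, tg_w, T.tx' H]
    omega
  have h1 : univ.filter (fun z : P => lev z < i ∧ FU e z) =
      univ.filter (fun z : P => lev z < i ∧ FU (Win.So.tg w s e) z) ∪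
        ({x, x'} : Finset P).filter (fun z => e z < e w) := by
    ext z
    rw [mem_union, mem_filter, mem_filter, mem_filter, mem_insert, mem_singleton]
    by_cases z1 : z = w
    · subst z1
      have := T.not_FU_w H
      have := T'.not_FU_w H
      have h4 : z ≠ x := by rintro rfl; have := T.lw; omega
      have h5 : z ≠ x' := by rintro rfl; have := T.lw; omega
      tauto
    · by_cases z2 : z = x
      · subst z2
        rw [T.FU_x H]
        have : lev z < i := by omega
        have hu := mem_univ z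
        have hz0 : z = z := rfl
        tauto
      · by_cases z3 : z = x'
        · subst z3
          rw [T.symm.FU_x H]
          have : lev z < i := by omega
          have hu := mem_univ z
          have hz0 : z = z := rfl
          tauto
        · constructor
          · rintro ⟨h2, h3, h4⟩
            exact Or.inl ⟨h2, h3, (T.FU_oth H h3 z1 z2 z3).2 h4⟩
          · rintro (⟨h2, h3, h4⟩ | ⟨h2 | h2, -⟩)
            · exact ⟨h2, h3, (T.FU_oth H h3 z1 z2 z3).1 h4⟩
            · exact absurd h2 z2
            · exact absurd h2 z3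
  unfold aU
  rw [h1, card_union_of_disjoint]
  · congr 1
    unfold Kb
    unfold StA at hA
    by_cases k1 : e x < e w
    · by_cases k2 : e x' < e w
      · rw [if_pos ⟨k1, k2⟩, filter_true_of_mem, card_pair T.xx']
        intro z hz
        rw [mem_insert, mem_singleton] at hz
        rcases hz with rfl | rfl
        · exact k1
        · exact k2
      · rw [if_neg (fun h => k2 h.2)]
        have : ({x, x'} : Finset P).filter (fun z => e z < e w) = {x} := by
          ext z
          rw [mem_filter, mem_insert, mem_singleton, mem_singleton]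
          constructor
          · rintro ⟨rfl | rfl, h3⟩
            · rfl
            · exact absurd h3 k2
          · rintro rfl
            exact ⟨Or.inl rfl, k1⟩
        rw [this, card_singleton]
    · have k2 : e x' < e w := by tauto
      rw [if_neg (fun h => k1 h.1)]
      have : ({x, x'} : Finset P).filter (fun z => e z < e w) = {x'} := by
        ext z
        simp only [mem_filter, mem_insert, mem_singleton]
        constructor
        · rintro ⟨rfl | rfl, h3⟩
          · exact absurd h3 k1
          · rfl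
        · rintro rfl
          exact ⟨Or.inr rfl, k2⟩
      rw [this, card_singleton]
  · rw [disjoint_left]
    intro z hz hz'
    rw [mem_filter] at hz hz'
    rw [mem_insert, mem_singleton] at hz'
    rcases hz'.1 with rfl | rfl
    · exact fx hz.2.2
    · exact fx' hz.2.2

open Classical in
lemma pU_tg : pU i e = pU i (Win.So.tg w s e) + (if Kb e w x x' then 1 else 0) := by
  have T' := T.tg H
  have h0 := T.sA H hA
  have lx := T.lx H
  have lx' := T.lx' H
  have lw := T.lw
  have gw : GD (Win.So.tg w s e) w := by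
    rw [T'.GD_w H, tg_w, T.tx H, T.tx' H]
    omega
  have fr : ∀ {x x' a c : P}, TogU i e w x x' a s c → e s < e x →
      ((¬ FU e x ∧ ¬ GD e x) ↔ (¬ FU (Win.So.tg w s e) x ∧ ¬ GD (Win.So.tg w s e) x)) := by
    intro x x' a c T hs
    rw [T.FU_x H, T.GD_x H, (T.tg H).FU_x H, (T.tg H).GD_x H, tg_w, T.tx H, T.ta H,
      tg_s (T.sw H)]
    have := T.ca
    have := T.hx
    omega
  have h1 : univ.filter (fun z : P => lev z < i ∧ ¬ FU e z ∧ ¬ GD e z) =
      univ.filter (fun z : P => lev z < i ∧ ¬ FU (Win.So.tg w s e) z ∧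
        ¬ GD (Win.So.tg w s e) z) ∪ (if Kb e w x x' then {w} else ∅) := by
    ext z
    rw [mem_union, mem_filter, mem_filter]
    by_cases z1 : z = w
    · subst z1
      have h2 := T.not_FU_w H
      have h3 : lev z < i := by omega
      have h4 : GD e z ↔ ¬ Kb e z x x' := by
        rw [T.GD_w H]
        unfold Kb
        omega
      have hu := mem_univ z
      have hz0 : z = z := rfl
      by_cases h5 : Kb e z x x'
      · rw [if_pos h5, mem_singleton]
        tauto
      · rw [if_neg h5]
        have := notMem_empty z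
        tauto
    · have h6 : z ∉ (if Kb e w x x' then ({w} : Finset P) else ∅) := by
        split_ifs
        · rwa [mem_singleton]
        · exact notMem_empty z
      by_cases z2 : z = x
      · subst z2
        have := fr T h0.2.1
        tauto
      · by_cases z3 : z = x'
        · subst z3
          have := fr T.symm h0.2.2
          tauto
        · constructor
          · rintro ⟨h2, h3, h4, h5⟩
            exact Or.inl ⟨h2, h3, fun h => h4 ((T.FU_oth H h3 z1 z2 z3).1 h),
              fun h => h5 ((T.GD_oth H h3 z1 z2 z3).1 h)⟩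
          · rintro (⟨h2, h3, h4, h5⟩ | h)
            · exact ⟨h2, h3, fun h => h4 ((T.FU_oth H h3 z1 z2 z3).2 h),
                fun h => h5 ((T.GD_oth H h3 z1 z2 z3).2 h)⟩
            · exact absurd h h6
  unfold pU
  rw [h1, card_union_of_disjoint]
  · congr 1
    split_ifs
    · exact card_singleton w
    · exact card_empty
  · rw [disjoint_left]
    intro z hz hz'
    rw [mem_filter] at hz
    split_ifs at hz' with hk
    · rw [mem_singleton] at hz'
      subst hz'
      exact hz.2.2.2 gw
    · exact notMem_empty z hz'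

open Classical in
lemma AU_tg : AU i e = AU i (Win.So.tg w s e) ∪ (if Kb e w x x' then {s} else ∅) ∧
    (Kb e w x x' → s ∉ AU i (Win.So.tg w s e)) := by
  have T' := T.tg H
  have h0 := T.sA H hA
  have ls := T.ls H
  have hs : FU (Win.So.tg w s e) s ↔ ¬ Kb e w x x' := by
    rw [T'.FU_s H, tg_s (T.sw H), T.tx H, T.tx' H]
    unfold Kb
    have := T.hw
    omega
  have hs' : FU e s := (T.FU_s H).2 (Or.inl h0.2.1)
  refine ⟨?_, fun h1 h2 => (hs.1 ((NormD_mem_AU _ _ _).1 h2).2) h1⟩
  ext v
  rw [mem_union, NormD_mem_AU, NormD_mem_AU]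
  by_cases hv : v = s
  · subst hv
    by_cases hk : Kb e w x x'
    · rw [if_pos hk, mem_singleton]
      tauto
    · rw [if_neg hk]
      tauto
  · have h6 : v ∉ (if Kb e w x x' then ({s} : Finset P) else ∅) := by
      split_ifs
      · rwa [mem_singleton]
      · exact notMem_empty v
    constructor
    · rintro ⟨h1, h2⟩
      exact Or.inl ⟨h1, (T.FU_site H h1 hv).2 h2⟩
    · rintro (⟨h1, h2⟩ | h)
      · exact ⟨h1, (T.FU_site H h1 hv).1 h2⟩
      · exact absurd h h6

end data

end TogU

/-! ### the values -/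

lemma cw_tgU (H : Gr P r) (T : TogU i e w x x' a s c) (hA : StA e w x x') :
    (¬ Kb e w x x' → cw i e = xi * cw i (tg w s e)) ∧
    (Kb e w x x' → cw i e = xi ^ 3 * dd * cw i (tg w s e)) := by
  classical
  unfold cw
  rw [T.AdmU_tg H hA, T.AdmL_tg H, T.aL_tg H, T.pL_tg H, T.aU_tg H hA, T.pU_tg H hA]
  constructor
  · intro hk
    rw [if_neg hk, if_neg hk]
    split_ifs
    · ring
    · ring
  · intro hk
    rw [if_pos hk, if_pos hk]
    split_ifs
    · ring
    · ring

/-- THE TOGGLE LEMMA, upper version -/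
theorem IV_tgU (H : Gr P r) (T : TogU i e w x x' a s c) (hA : StA e w x x')
    {V : Finset P} (hs : s ∈ V) (G : Finset P → A) (hG : ∀ S, G (insert s S) = G S) :
    ∃ m, (m = 1 ∨ m = 3) ∧
      IV V (fun S => Fe i e S * G S) = xi ^ m * IV V (fun S => Fe i (tg w s e) S * G S) := by
  classical
  obtain ⟨hAU, hAU2⟩ := T.AU_tg H hA
  have hAL := T.AL_tg H
  have hsL := T.s_AL H
  obtain ⟨c1, c2⟩ := cw_tgU H T hA
  by_cases hk : Kb e w x x'
  · refine ⟨3, Or.inr rfl, ?_⟩
    rw [if_pos hk] at hAU
    have hsU := hAU2 hk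
    rw [IV_split hs, IV_split hs, Finset.mul_sum]
    refine Finset.sum_congr rfl fun S hS => ?_
    rw [mem_powerset] at hS
    have hsS : s ∉ S := fun h => Finset.notMem_erase s V (hS h)
    unfold Fe
    rw [hG, c2 hk, hAU, hAL]
    have e1 : chi (AL i e) (AU i (tg w s e) ∪ {s}) (insert s S) = 0 := by
      unfold chi
      rw [if_neg]
      rintro ⟨-, h⟩
      exact disjoint_left.1 h (mem_union_right _ (mem_singleton_self s)) (mem_insert_self s S)
    have e2 : chi (AL i e) (AU i (tg w s e) ∪ {s}) S = chi (AL i e) (AU i (tg w s e)) S := by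
      unfold chi
      congr 1
      rw [eq_iff_iff, disjoint_union_left, disjoint_singleton_left]
      constructor
      · rintro ⟨h1, h2, -⟩
        exact ⟨h1, h2⟩
      · rintro ⟨h1, h2⟩
        exact ⟨h1, h2, hsS⟩
    have e3 : chi (AL i e) (AU i (tg w s e)) (insert s S) =
        chi (AL i e) (AU i (tg w s e)) S := by
      unfold chi
      congr 1
      rw [eq_iff_iff, disjoint_insert_right]
      constructor
      · rintro ⟨h1, -, h2⟩
        exact ⟨(subset_insert_iff_of_notMem hsL).1 h1, h2⟩
      · rintro ⟨h1, h2⟩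
        exact ⟨h1.trans (subset_insert _ _), hsU, h2⟩
    rw [e1, e2, e3]
    have hd : dd = 1 + xx := I2.dd_eq
    rw [hd]
    ring
  · refine ⟨1, Or.inl rfl, ?_⟩
    rw [if_neg hk, union_empty] at hAU
    unfold IV
    rw [Finset.mul_sum]
    refine Finset.sum_congr rfl fun S _ => ?_
    unfold Fe
    rw [c1 hk, hAU, hAL]
    ring

/-- the sum of the two values gains a factor `dd` -/
theorem dvd_tgU (H : Gr P r) (T : TogU i e w x x' a s c) {V : Finset P} (hs : s ∈ V)
    (G : Finset P → A) (hG : ∀ S, G (insert s S) = G S) {k : ℕ}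
    (h1 : dd ^ k ∣ IV V (fun S => Fe i e S * G S))
    (h2 : dd ^ k ∣ IV V (fun S => Fe i (tg w s e) S * G S)) :
    dd ^ (k + 1) ∣ IV V (fun S => Fe i e S * G S) +
      IV V (fun S => Fe i (tg w s e) S * G S) := by
  by_cases hA : StA e w x x'
  · obtain ⟨m, hm, h3⟩ := IV_tgU H T hA hs G hG
    rw [h3]
    have h4 : xi ^ m * IV V (fun S => Fe i (tg w s e) S * G S) +
        IV V (fun S => Fe i (tg w s e) S * G S) =
        IV V (fun S => Fe i (tg w s e) S * G S) * (1 + xi ^ m) := by ring
    rw [h4, pow_succ]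
    exact mul_dvd_mul h2 (I2.dd_dvd_odd hm)
  · have hA' := (T.st_tg H).2 hA
    obtain ⟨m, hm, h3⟩ := IV_tgU H (T.tg H) hA' hs G hG
    rw [tg_tg (T.sw H) T.hw] at h3
    rw [h3]
    have h4 : IV V (fun S => Fe i e S * G S) + xi ^ m * IV V (fun S => Fe i e S * G S) =
        IV V (fun S => Fe i e S * G S) * (1 + xi ^ m) := by ring
    rw [h4, pow_succ]
    exact mul_dvd_mul h1 (I2.dd_dvd_odd hm)

end Pool.Agent.GaussPoset.Win.So
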