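import Mathlib
import Pool.Agent.W_448zz_h61.Ns
import Pool.Agent.W_448zz_h61.M067
import Pool.Agent.W_448zz_h61.M085
import Pool.Agent.W_448zz_h61.M086

/-! From `Pool.Agent.W_448so_h17.TgC` -/

section

/-!
S9, row 476: the touched elements, the free near elements (`Rst`), the cores and the weights `wt`
are invariant under the toggle and under the reflection.
-/

namespace Pool.Agent.GaussPoset.Win.So

set_option linter.unusedSectionVars false

open Finset

universe u

variable {P : Type u} [Fintype P] [PartialOrder P] [DecidableEq P] {r i : ℕ}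

variable {e f : P → ℕ} {psi : P → P}

/-! ### weights -/

/-- the weights depend on the labels of the sites only -/
lemma wt_congr (H : Gr P r) (h : ∀ v, lev v = i → e v = f v) {x : P} (hx : x ∈ near P i) (a : ℕ)
    (S : Finset P) : wt i e x a S = wt i f x a S := by
  unfold wt
  rcases mem_near.1 hx with h1 | h1
  · rw [if_pos h1, if_pos h1]
    unfold wtL
    have key : ∀ v ∈ uc x, e v = f v := by
      intro v hv
      have := lev_uc H hv
      exact h v (by omega)
    have k1 : (∀ v ∈ uc x, e v < a) ↔ ∀ v ∈ uc x, f v < a :=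
      forall₂_congr fun v hv => by rw [key v hv]
    have k2 : (∀ v ∈ uc x, e v < a → v ∈ S) ↔ ∀ v ∈ uc x, f v < a → v ∈ S :=
      forall₂_congr fun v hv => by rw [key v hv]
    simp only [k1, k2]
  · have h2 : ¬ lev x = i + 1 := by omega
    rw [if_neg h2, if_neg h2]
    unfold wtU
    have key : ∀ v ∈ dc x, e v = f v := by
      intro v hv
      have := lev_dc H hv
      exact h v (by omega)
    have k1 : (∀ v ∈ dc x, e v < a) ↔ ∀ v ∈ dc x, f v < a :=
      forall₂_congr fun v hv => by rw [key v hv]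
    have k2 : (∀ v ∈ dc x, e v < a → v ∉ S) ↔ ∀ v ∈ dc x, f v < a → v ∉ S :=
      forall₂_congr fun v hv => by rw [key v hv]
    simp only [k1, k2]

/-- `x` is near and has nothing to do with the site `s` -/
def Far (s x : P) : Prop := s ∉ uc x ∧ s ∉ dc x

/-- the weights of elements which are not adjacent to `s` do not see the label of `s` -/
lemma wt_congr_far (H : Gr P r) {s : P} (h : ∀ v, lev v = i → v ≠ s → e v = f v) {x : P}
    (hx : x ∈ near P i) (hf : Far s x) (a : ℕ)
    (S : Finset P) : wt i e x a S = wt i f x a S := by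
  unfold wt
  rcases mem_near.1 hx with h1 | h1
  · rw [if_pos h1, if_pos h1]
    unfold wtL
    have key : ∀ v ∈ uc x, e v = f v := by
      intro v hv
      have := lev_uc H hv
      exact h v (by omega) (by rintro rfl; exact hf.1 hv)
    have k1 : (∀ v ∈ uc x, e v < a) ↔ ∀ v ∈ uc x, f v < a :=
      forall₂_congr fun v hv => by rw [key v hv]
    have k2 : (∀ v ∈ uc x, e v < a → v ∈ S) ↔ ∀ v ∈ uc x, f v < a → v ∈ S :=
      forall₂_congr fun v hv => by rw [key v hv]
    simp only [k1, k2]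
  · have h2 : ¬ lev x = i + 1 := by omega
    rw [if_neg h2, if_neg h2]
    unfold wtU
    have key : ∀ v ∈ dc x, e v = f v := by
      intro v hv
      have := lev_dc H hv
      exact h v (by omega) (by rintro rfl; exact hf.2 hv)
    have k1 : (∀ v ∈ dc x, e v < a) ↔ ∀ v ∈ dc x, f v < a :=
      forall₂_congr fun v hv => by rw [key v hv]
    have k2 : (∀ v ∈ dc x, e v < a → v ∉ S) ↔ ∀ v ∈ dc x, f v < a → v ∉ S :=
      forall₂_congr fun v hv => by rw [key v hv]
    simp only [k1, k2]

/-- the weights of elements which are not adjacent to `s` do not see `s` -/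
lemma wt_insert {s x : P} (hf : Far s x) (a : ℕ) (S : Finset P) :
    wt i e x a (insert s S) = wt i e x a S := by
  unfold wt
  split_ifs
  · unfold wtL
    have k2 : (∀ v ∈ uc x, e v < a → v ∈ insert s S) ↔ ∀ v ∈ uc x, e v < a → v ∈ S :=
      forall₂_congr fun v hv => by
        rw [mem_insert]
        have : v ≠ s := by rintro rfl; exact hf.1 hv
        tauto
    simp only [k2]
  · unfold wtU
    have k2 : (∀ v ∈ dc x, e v < a → v ∉ insert s S) ↔ ∀ v ∈ dc x, e v < a → v ∉ S :=
      forall₂_congr fun v hv => by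
        rw [mem_insert]
        have : v ≠ s := by rintro rfl; exact hf.2 hv
        tauto
    simp only [k2]

/-! ### touched elements under the toggle -/

section toggle

variable {w x x' a s c : P}

lemma TogL.Tch_eq (H : Gr P r) (T : TogL i e w x x' a s c) :
    Tch i (So.tg w s e) = Tch i e := by
  ext z
  rw [mem_Tch, mem_Tch]
  have hw := T.hw
  have lw := T.lw
  have ls := T.ls H
  have key : ∀ z', (lev z' = i + 2 ∨ lev z' + 2 = i) → (0 < So.tg w s e z' ↔ 0 < e z') := by
    intro z' hz'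
    by_cases h : z' = w
    · rw [h, tg_w]
      omega
    · rw [tg_ne h (by rintro rfl; omega)]
  constructor
  · rintro (⟨h1, z', h2, h3⟩ | ⟨h1, z', h2, h3⟩)
    · have l1 := lev_uc H (mem_uc.2 h2)
      exact Or.inl ⟨h1, z', h2, (key z' (by omega)).1 h3⟩
    · have l1 := lev_uc H (mem_uc.2 h2)
      exact Or.inr ⟨h1, z', h2, (key z' (by omega)).1 h3⟩
  · rintro (⟨h1, z', h2, h3⟩ | ⟨h1, z', h2, h3⟩)
    · have l1 := lev_uc H (mem_uc.2 h2)
      exact Or.inl ⟨h1, z', h2, (key z' (by omega)).2 h3⟩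
    · have l1 := lev_uc H (mem_uc.2 h2)
      exact Or.inr ⟨h1, z', h2, (key z' (by omega)).2 h3⟩

lemma TogL.Rst_eq (H : Gr P r) (T : TogL i e w x x' a s c) (K : Finset P) :
    Rst i K psi (So.tg w s e) = Rst i K psi e := by
  unfold Rst
  rw [T.Tch_eq H]

lemma TogL.core_iff (H : Gr P r) (T : TogL i e w x x' a s c) (K : Finset P) :
    IsCore i K psi (So.tg w s e) ↔ IsCore i K psi e := by
  unfold IsCore
  rw [T.Rst_eq H]
  refine forall₂_congr fun z hz => ?_
  have h1 := (mem_Rst.1 hz).1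
  rw [T.ne H]
  · rcases mem_near.1 h1 with h | h <;> omega
  · rcases mem_near.1 h1 with h | h <;> omega

/-- the free near elements are not adjacent to the toggled site -/
lemma TogL.far (H : Gr P r) (T : TogL i e w x x' a s c) (hM : Mat P i ∅ psi) {z : P}
    (hz : z ∈ Rst i ∅ psi e) : Far s z := by
  have lx := T.lx H
  have lx' := T.lx' H
  have ls := T.ls H
  have hw := T.hw
  have tx : x ∈ Tch i e := mem_Tch.2 (Or.inl ⟨lx, w, T.wx, by omega⟩)
  have tx' : x' ∈ Tch i e := mem_Tch.2 (Or.inl ⟨lx', w, T.wx', by omega⟩)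
  obtain ⟨z1, z2, z3, z4⟩ := mem_Rst.1 hz
  constructor
  · intro h
    have h1 : z ∈ dc s := mem_dc.2 (mem_uc.1 h)
    rw [T.ds, mem_insert, mem_singleton] at h1
    rcases h1 with rfl | rfl
    · exact z3 tx
    · exact z3 tx'
  · intro h
    have h1 : z ∈ uc s := mem_uc.2 (mem_dc.1 h)
    have dx : x ∈ dbL P i := mem_dbL.2 ⟨lx, by rw [T.ux, card_pair T.as]⟩
    have dx' : x' ∈ dbL P i := mem_dbL.2 ⟨lx', by rw [T.ux', card_pair T.sc]⟩
    obtain ⟨m1, m2⟩ := hM.low x dx (notMem_empty x)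
    obtain ⟨m1', m2'⟩ := hM.low x' dx' (notMem_empty x')
    have hne : psi x ≠ psi x' := by
      intro hp
      rw [← hp, m2] at m2'
      have : a ∈ uc x' := by
        rw [← m2', T.ux]
        exact mem_insert_self _ _
      have hx'a : x' ⋖ a := mem_uc.1 this
      rw [T.ux', mem_insert, mem_singleton] at this
      rcases this with h2 | h2
      · exact T.as h2
      · -- two elements with the same covers `a, s`
        have h3 : c ∈ uc x := by rw [← h2, T.ux]; exact mem_insert_self _ _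
        have h4 := (hM.invol x (mem_union_left _ dx) (notMem_empty x)).1
        have h5 := (hM.invol x' (mem_union_left _ dx') (notMem_empty x')).1
        rw [← hp, h4] at h5
        exact T.xx' h5
    have us : uc s = {psi x, psi x'} := by
      symm
      apply Finset.eq_of_subset_of_card_le
      · intro q hq
        rw [mem_insert, mem_singleton] at hq
        rcases hq with rfl | rfl
        · refine mem_uc.2 (mem_dc.1 ?_)
          rw [m2, T.ux]
          exact mem_insert_of_mem (mem_singleton_self s)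
        · refine mem_uc.2 (mem_dc.1 ?_)
          rw [m2', T.ux']
          exact mem_insert_self _ _
      · rw [card_pair hne]
        exact uc_card_le H s
    rw [us, mem_insert, mem_singleton] at h1
    apply z4
    rcases h1 with rfl | rfl
    · exact ⟨mem_union_right _ m1, by
        rw [(hM.invol x (mem_union_left _ dx) (notMem_empty x)).1]; exact tx⟩
    · exact ⟨mem_union_right _ m1', by
        rw [(hM.invol x' (mem_union_left _ dx') (notMem_empty x')).1]; exact tx'⟩

end toggle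

/-! ### touched elements under the reflection -/

section reflection

variable {y p u p' : P}

lemma RefL.mem_Tch_iff (H : Gr P r) (D : RefD r i y p u p') (R : RefL e y p u p') {z : P}
    (h1 : z ≠ y) (h2 : z ≠ u) : z ∈ Tch i (rho y p u p' e) ↔ z ∈ Tch i e := by
  rw [mem_Tch, mem_Tch]
  have ly := D.ly
  have lp := D.lp H
  have lu := D.lu
  have lp' := D.lp' H
  have k1 : lev z = i + 1 → ∀ z', z' ⋖ z → rho y p u p' e z' = e z' := by
    intro hz z' hz'
    have l1 := lev_uc H (mem_uc.2 hz')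
    refine RefD.rho_ne e (by rintro rfl; omega) ?_ (by rintro rfl; omega) (by rintro rfl; omega)
    rintro rfl
    have h3 := mem_uc.2 hz'
    rw [D.cp, mem_singleton] at h3
    exact h1 h3
  have k2 : lev z + 1 = i → ∀ z', z ⋖ z' → rho y p u p' e z' = e z' := by
    intro hz z' hz'
    have l1 := lev_uc H (mem_uc.2 hz')
    refine RefD.rho_ne e (by rintro rfl; omega) (by rintro rfl; omega) (by rintro rfl; omega) ?_
    rintro rfl
    have h3 := mem_dc.2 hz'
    rw [D.dp, mem_singleton] at h3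
    exact h2 h3
  constructor
  · rintro (⟨h3, z', h4, h5⟩ | ⟨h3, z', h4, h5⟩)
    · rw [k1 h3 z' h4] at h5
      exact Or.inl ⟨h3, z', h4, h5⟩
    · rw [k2 h3 z' h4] at h5
      exact Or.inr ⟨h3, z', h4, h5⟩
  · rintro (⟨h3, z', h4, h5⟩ | ⟨h3, z', h4, h5⟩)
    · exact Or.inl ⟨h3, z', h4, by rw [k1 h3 z' h4]; exact h5⟩
    · exact Or.inr ⟨h3, z', h4, by rw [k2 h3 z' h4]; exact h5⟩

lemma RefL.y_Tch (D : RefD r i y p u p') (R : RefL e y p u p') : y ∈ Tch i e :=
  mem_Tch.2 (Or.inl ⟨D.ly, p, D.py, by have := R.hp; omega⟩)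

lemma RefU.u_Tch (D : RefD r i y p u p') (R : RefU e y p u p') : u ∈ Tch i e :=
  mem_Tch.2 (Or.inr ⟨D.lu, p', D.up, by have := R.hp; omega⟩)

lemma RefD.dy (D : RefD r i y p u p') : y ∈ dbL P i := mem_dbL.2 ⟨D.ly, D.two⟩

lemma RefD.du (D : RefD r i y p u p') : u ∈ dbU P i := mem_dbU.2 ⟨D.lu, by rw [D.yu]; exact D.two⟩

/-- `psi y = u` gives `psi u = y` -/
lemma RefD.psi_u (D : RefD r i y p u p') (hM : Mat P i ∅ psi) (hp : psi y = u) : psi u = y := by
  have := (hM.invol y (mem_union_left _ D.dy) (notMem_empty y)).1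
  rwa [hp] at this

lemma RefL.y_Rst (D : RefD r i y p u p') (R : RefL e y p u p')
    (hM : Mat P i ∅ psi) (hp : psi y = u) : y ∉ Rst i ∅ psi e ∧ u ∉ Rst i ∅ psi e := by
  constructor
  · intro h
    exact (mem_Rst.1 h).2.2.1 (R.y_Tch D)
  · intro h
    apply (mem_Rst.1 h).2.2.2
    refine ⟨mem_union_right _ D.du, ?_⟩
    rw [D.psi_u hM hp]
    exact R.y_Tch D

lemma RefU.y_Rst (D : RefD r i y p u p') (R : RefU e y p u p')
    (hp : psi y = u) : y ∉ Rst i ∅ psi e ∧ u ∉ Rst i ∅ psi e := by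
  constructor
  · intro h
    apply (mem_Rst.1 h).2.2.2
    refine ⟨mem_union_left _ D.dy, ?_⟩
    rw [hp]
    exact R.u_Tch D
  · intro h
    exact (mem_Rst.1 h).2.2.1 (R.u_Tch D)

lemma RefL.Rst_eq (H : Gr P r) (D : RefD r i y p u p') (R : RefL e y p u p')
    (hM : Mat P i ∅ psi) (hp : psi y = u) :
    Rst i ∅ psi (rho y p u p' e) = Rst i ∅ psi e := by
  have hpu := D.psi_u hM hp
  have r1 := R.y_Rst D hM hp
  have r2 := (D.LU H R).y_Rst D hp
  ext z
  by_cases h1 : z = y
  · subst h1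
    exact ⟨fun h => absurd h r2.1, fun h => absurd h r1.1⟩
  · by_cases h2 : z = u
    · subst h2
      exact ⟨fun h => absurd h r2.2, fun h => absurd h r1.2⟩
    · rw [mem_Rst, mem_Rst, R.mem_Tch_iff H D h1 h2]
      have key : z ∈ dbL P i ∪ dbU P i →
          (psi z ∈ Tch i (rho y p u p' e) ↔ psi z ∈ Tch i e) := by
        intro hz
        have h3 := (hM.invol z hz (notMem_empty z)).1
        apply R.mem_Tch_iff H D
        · intro h
          rw [h, hp] at h3
          exact h2 h3.symm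
        · intro h
          rw [h, hpu] at h3
          exact h1 h3.symm
      constructor
      · rintro ⟨a1, a2, a3, a4⟩
        exact ⟨a1, a2, a3, fun h => a4 ⟨h.1, (key h.1).2 h.2⟩⟩
      · rintro ⟨a1, a2, a3, a4⟩
        exact ⟨a1, a2, a3, fun h => a4 ⟨h.1, (key h.1).1 h.2⟩⟩

lemma RefL.core_iff (H : Gr P r) (D : RefD r i y p u p') (R : RefL e y p u p')
    (hM : Mat P i ∅ psi) (hp : psi y = u) :
    IsCore i ∅ psi (rho y p u p' e) ↔ IsCore i ∅ psi e := by
  unfold IsCore
  rw [R.Rst_eq H D hM hp]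
  have r1 := R.y_Rst D hM hp
  have lp := D.lp H
  have lp' := D.lp' H
  refine forall₂_congr fun z hz => ?_
  have h1 := (mem_Rst.1 hz).1
  rw [RefD.rho_ne e (by rintro rfl; exact r1.1 hz) ?_ (by rintro rfl; exact r1.2 hz) ?_]
  · rintro rfl
    rcases mem_near.1 h1 with h | h <;> omega
  · rintro rfl
    rcases mem_near.1 h1 with h | h <;> omega

/-- the labels of the sites are unchanged -/
lemma RefD.rho_site (H : Gr P r) (D : RefD r i y p u p') {v : P} (hv : lev v = i) :
    rho y p u p' e v = e v := by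
  have ly := D.ly
  have lp := D.lp H
  have lu := D.lu
  have lp' := D.lp' H
  exact RefD.rho_ne e (by rintro rfl; omega) (by rintro rfl; omega) (by rintro rfl; omega)
    (by rintro rfl; omega)

end reflection

end Pool.Agent.GaussPoset.Win.So

end

/-! From `Pool.Agent.W_448so_h17.TgD` -/

section

/-!
S9, row 476: the same invariances for the upper toggle.
-/

namespace Pool.Agent.GaussPoset.Win.So

set_option linter.unusedSectionVars false

open Finset

universe u

variable {P : Type u} [Fintype P] [PartialOrder P] [DecidableEq P] {r i : ℕ}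

variable {e f : P → ℕ} {psi : P → P}

section toggle

variable {w x x' a s c : P}

lemma TogU.Tch_eq (H : Gr P r) (T : TogU i e w x x' a s c) :
    Tch i (So.tg w s e) = Tch i e := by
  ext z
  rw [mem_Tch, mem_Tch]
  have hw := T.hw
  have lw := T.lw
  have ls := T.ls H
  have key : ∀ z', (lev z' = i + 2 ∨ lev z' + 2 = i) → (0 < So.tg w s e z' ↔ 0 < e z') := by
    intro z' hz'
    by_cases h : z' = w
    · rw [h, tg_w]
      omega
    · rw [tg_ne h (by rintro rfl; omega)]
  constructor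
  · rintro (⟨h1, z', h2, h3⟩ | ⟨h1, z', h2, h3⟩)
    · have l1 := lev_uc H (mem_uc.2 h2)
      exact Or.inl ⟨h1, z', h2, (key z' (by omega)).1 h3⟩
    · have l1 := lev_uc H (mem_uc.2 h2)
      exact Or.inr ⟨h1, z', h2, (key z' (by omega)).1 h3⟩
  · rintro (⟨h1, z', h2, h3⟩ | ⟨h1, z', h2, h3⟩)
    · have l1 := lev_uc H (mem_uc.2 h2)
      exact Or.inl ⟨h1, z', h2, (key z' (by omega)).2 h3⟩
    · have l1 := lev_uc H (mem_uc.2 h2)
      exact Or.inr ⟨h1, z', h2, (key z' (by omega)).2 h3⟩

lemma TogU.Rst_eq (H : Gr P r) (T : TogU i e w x x' a s c) (K : Finset P) :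
    Rst i K psi (So.tg w s e) = Rst i K psi e := by
  unfold Rst
  rw [T.Tch_eq H]

lemma TogU.core_iff (H : Gr P r) (T : TogU i e w x x' a s c) (K : Finset P) :
    IsCore i K psi (So.tg w s e) ↔ IsCore i K psi e := by
  unfold IsCore
  rw [T.Rst_eq H]
  refine forall₂_congr fun z hz => ?_
  have h1 := (mem_Rst.1 hz).1
  rw [T.ne H]
  · rcases mem_near.1 h1 with h | h <;> omega
  · rcases mem_near.1 h1 with h | h <;> omega

/-- the free near elements are not adjacent to the toggled site -/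
lemma TogU.far (H : Gr P r) (T : TogU i e w x x' a s c) (hM : Mat P i ∅ psi) {z : P}
    (hz : z ∈ Rst i ∅ psi e) : Far s z := by
  have lx := T.lx H
  have lx' := T.lx' H
  have ls := T.ls H
  have hw := T.hw
  have tx : x ∈ Tch i e := mem_Tch.2 (Or.inr ⟨lx, w, T.wx, by omega⟩)
  have tx' : x' ∈ Tch i e := mem_Tch.2 (Or.inr ⟨lx', w, T.wx', by omega⟩)
  obtain ⟨z1, z2, z3, z4⟩ := mem_Rst.1 hz
  show s ∉ uc z ∧ s ∉ dc z
  refine And.symm ⟨?_, ?_⟩
  · intro h
    have h1 : z ∈ uc s := mem_uc.2 (mem_dc.1 h)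
    rw [T.ds, mem_insert, mem_singleton] at h1
    rcases h1 with rfl | rfl
    · exact z3 tx
    · exact z3 tx'
  · intro h
    have h1 : z ∈ dc s := mem_dc.2 (mem_uc.1 h)
    have dx : x ∈ dbU P i := mem_dbU.2 ⟨lx, by rw [T.ux, card_pair T.as]⟩
    have dx' : x' ∈ dbU P i := mem_dbU.2 ⟨lx', by rw [T.ux', card_pair T.sc]⟩
    obtain ⟨m1, m2⟩ := hM.upp x dx (notMem_empty x)
    obtain ⟨m1', m2'⟩ := hM.upp x' dx' (notMem_empty x')
    have hne : psi x ≠ psi x' := by
      intro hp
      rw [← hp, m2] at m2'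
      have : a ∈ dc x' := by
        rw [← m2', T.ux]
        exact mem_insert_self _ _
      have hx'a : a ⋖ x' := mem_dc.1 this
      rw [T.ux', mem_insert, mem_singleton] at this
      rcases this with h2 | h2
      · exact T.as h2
      · -- two elements with the same covers `a, s`
        have h3 : c ∈ dc x := by rw [← h2, T.ux]; exact mem_insert_self _ _
        have h4 := (hM.invol x (mem_union_right _ dx) (notMem_empty x)).1
        have h5 := (hM.invol x' (mem_union_right _ dx') (notMem_empty x')).1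
        rw [← hp, h4] at h5
        exact T.xx' h5
    have us : dc s = {psi x, psi x'} := by
      symm
      apply Finset.eq_of_subset_of_card_le
      · intro q hq
        rw [mem_insert, mem_singleton] at hq
        rcases hq with rfl | rfl
        · refine mem_dc.2 (mem_uc.1 ?_)
          rw [m2, T.ux]
          exact mem_insert_of_mem (mem_singleton_self s)
        · refine mem_dc.2 (mem_uc.1 ?_)
          rw [m2', T.ux']
          exact mem_insert_self _ _
      · rw [card_pair hne]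
        exact dc_card_le H s
    rw [us, mem_insert, mem_singleton] at h1
    apply z4
    rcases h1 with rfl | rfl
    · exact ⟨mem_union_left _ m1, by
        rw [(hM.invol x (mem_union_right _ dx) (notMem_empty x)).1]; exact tx⟩
    · exact ⟨mem_union_left _ m1', by
        rw [(hM.invol x' (mem_union_right _ dx') (notMem_empty x')).1]; exact tx'⟩

end toggle

end Pool.Agent.GaussPoset.Win.So

end

/-! From `Pool.Agent.W_448so_h17.PtA` -/

section

/-!
S9, row 476 (D): the window sum of a part `C` as a sum over cores: `ZC i C n` is the sum over the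
cores `e` supported on `C` of `J i psi C (n - |e|) e`.
-/

namespace Pool.Agent.GaussPoset.Win.So

set_option linter.unusedSectionVars false

open Finset

universe u

variable {P : Type u} [Fintype P] [PartialOrder P] [DecidableEq P] {r i : ℕ}

variable {e f : P → ℕ} {psi : P → P} {C : Finset P}

/-! ### sums over subsets of `V` -/

theorem IV_chi {V B D : Finset P} (hB : B ⊆ V) (hD : D ⊆ V) :
    IV V (chi B D) = if Disjoint B D then xx ^ B.card * dd ^ (V.card - B.card - D.card)
      else 0 := by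
  unfold IV chi
  split_ifs with hd
  · have h1 : ∑ S ∈ V.powerset, xx ^ S.card * (if B ⊆ S ∧ Disjoint D S then (1 : A) else 0) =
        ∑ S ∈ V.powerset.filter (fun S => B ⊆ S ∧ Disjoint D S), xx ^ S.card := by
      rw [Finset.sum_filter]
      refine Finset.sum_congr rfl fun S _ => ?_
      split_ifs <;> simp
    have h2 : ∑ S ∈ V.powerset.filter (fun S => B ⊆ S ∧ Disjoint D S), xx ^ S.card =
        ∑ T ∈ ((V \ B) \ D).powerset, xx ^ (B ∪ T).card := by
      symm
      refine Finset.sum_nbij' (fun T => B ∪ T) (fun S => S \ B) ?_ ?_ ?_ ?_ ?_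
      · intro T hT
        rw [mem_powerset] at hT
        rw [mem_filter, mem_powerset]
        refine ⟨union_subset hB (hT.trans (sdiff_subset.trans sdiff_subset)),
          subset_union_left, ?_⟩
        rw [disjoint_union_right]
        refine ⟨hd.symm, ?_⟩
        exact (disjoint_of_subset_left hT sdiff_disjoint).symm
      · intro S hS
        rw [mem_filter, mem_powerset] at hS
        rw [mem_powerset]
        intro x hx
        rw [mem_sdiff] at hx
        rw [mem_sdiff, mem_sdiff]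
        exact ⟨⟨hS.1 hx.1, hx.2⟩, fun h => (disjoint_left.1 hS.2.2 h) hx.1⟩
      · intro T hT
        rw [mem_powerset] at hT
        have h3 : Disjoint B T := by
          rw [disjoint_left]
          intro x hx hxT
          have := hT hxT
          rw [mem_sdiff, mem_sdiff] at this
          exact this.1.2 hx
        exact h3.sup_sdiff_cancel_left
      · intro S hS
        rw [mem_filter, mem_powerset] at hS
        exact union_sdiff_of_subset hS.2.1
      · intro T _
        rfl
    have h3 : ∀ T ∈ ((V \ B) \ D).powerset, xx ^ (B ∪ T).card = xx ^ B.card * xx ^ T.card := by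
      intro T hT
      rw [mem_powerset] at hT
      rw [card_union_of_disjoint, pow_add]
      rw [disjoint_left]
      intro x hx hxT
      have := hT hxT
      rw [mem_sdiff, mem_sdiff] at this
      exact this.1.2 hx
    have h4 : ((V \ B) \ D).card = V.card - B.card - D.card := by
      rw [card_sdiff_of_subset, card_sdiff_of_subset hB]
      intro x hx
      rw [mem_sdiff]
      exact ⟨hD hx, fun h => (disjoint_left.1 hd h) hx⟩
    rw [h1, h2, Finset.sum_congr rfl h3, ← Finset.mul_sum, ← h4, ← one_add_xx, add_comm 1 xx,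
      ← Finset.sum_pow_mul_eq_add_pow]
    simp
  · refine Finset.sum_eq_zero fun S _ => ?_
    rw [if_neg, mul_zero]
    rintro ⟨h1, h2⟩
    exact hd (disjoint_of_subset_left h1 h2.symm)

theorem IV_Fe (H : Gr P r) (hC : Part i C) (he : Spt C e) :
    IV (st i C) (Fe i e) = tC i C e := by
  have h1 : IV (st i C) (Fe i e) = cw i e * IV (st i C) (chi (AL i e) (AU i e)) := by
    unfold IV Fe
    rw [Finset.mul_sum]
    refine Finset.sum_congr rfl fun S _ => ?_
    ring
  rw [h1, IV_chi (AL_sub hC he) (AU_sub H hC he)]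
  unfold tC
  split_ifs
  · rfl
  · rw [mul_zero]

lemma IV_congr {V : Finset P} {f g : Finset P → A} (h : ∀ S, f S = g S) : IV V f = IV V g := by
  rw [show f = g from funext h]

lemma IV_add (V : Finset P) (f g : Finset P → A) :
    IV V (fun S => f S + g S) = IV V f + IV V g := by
  unfold IV
  rw [← Finset.sum_add_distrib]
  exact Finset.sum_congr rfl fun S _ => mul_add _ _ _

theorem Rk_IV {V : Finset P} {k : ℕ} {f : Finset P → A} (hf : Rk V k f) :
    dd ^ (V.card - k) ∣ IV V f := by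
  classical
  obtain ⟨c, hc, hf⟩ := hf
  have h1 : IV V f = ∑ T ∈ V.powerset, c T * IV V (chi T ∅) := by
    unfold IV
    simp only [Finset.mul_sum]
    rw [Finset.sum_comm]
    apply Finset.sum_congr rfl
    intro S hS
    rw [hf S (Finset.mem_powerset.1 hS), Finset.mul_sum]
    have h2 : ∑ T ∈ S.powerset, xx ^ S.card * c T =
        ∑ T ∈ S.powerset, c T * (xx ^ S.card * chi T ∅ S) := by
      apply Finset.sum_congr rfl
      intro T hT
      unfold chi
      rw [if_pos ⟨Finset.mem_powerset.1 hT, Finset.disjoint_empty_left S⟩]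
      ring
    rw [h2]
    apply Finset.sum_subset
    · exact Finset.powerset_mono.2 (Finset.mem_powerset.1 hS)
    · intro T _ hT
      unfold chi
      rw [if_neg (fun h => hT (Finset.mem_powerset.2 h.1))]
      ring
  rw [h1]
  apply Finset.dvd_sum
  intro T hT
  have hT' := Finset.mem_powerset.1 hT
  rw [IV_chi hT' (Finset.empty_subset _), if_pos (Finset.disjoint_empty_right T),
    Finset.card_empty, Nat.sub_zero]
  have h3 : dd ^ (V.card - k) ∣ dd ^ (T.card - k) * dd ^ (V.card - T.card) := by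
    rw [← pow_add]
    apply pow_dvd_pow
    have := Finset.card_le_card hT'
    omega
  have h4 : dd ^ (T.card - k) * dd ^ (V.card - T.card) ∣
      c T * dd ^ (V.card - T.card) := mul_dvd_mul_right (hc T hT') _
  have h5 : c T * (xx ^ T.card * dd ^ (V.card - T.card)) =
      (c T * dd ^ (V.card - T.card)) * xx ^ T.card := by ring
  rw [h5]
  exact Dvd.dvd.mul_right (h3.trans h4) _

lemma Rk_sub {V W : Finset P} {k : ℕ} {f : Finset P → A} (h : W ⊆ V) (hf : Rk V k f) :
    Rk W k f := by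
  obtain ⟨c, h1, h2⟩ := hf
  exact ⟨c, fun T hT => h1 T (hT.trans h), fun S hS => h2 S (hS.trans h)⟩

lemma st_sub (i : ℕ) (C : Finset P) : st i C ⊆ lv P i := by
  intro v hv
  rw [mem_st] at hv
  exact mem_lv.2 hv.2

/-! ### parts and `psi` -/

lemma psi_mem (H : Gr P r) (hM : Mat P i ∅ psi) (hC : Part (i + 1) C) {x : P}
    (hx : x ∈ dbL P i ∪ dbU P i) (hxC : x ∈ C) : psi x ∈ C := by
  rcases mem_union.1 hx with h | h
  · obtain ⟨h1, h2⟩ := hM.low x h (notMem_empty x)
    have h3 := (mem_dbL.1 h).2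
    obtain ⟨v, hv⟩ : (uc x).Nonempty := by rw [← card_pos]; omega
    have hvC : v ∈ C := hC.up hxC (mem_uc.1 hv)
    rw [← h2] at hv
    exact hC.up hvC (mem_dc.1 hv)
  · obtain ⟨h1, h2⟩ := hM.upp x h (notMem_empty x)
    have h3 := mem_dbU.1 h
    obtain ⟨v, hv⟩ : (dc x).Nonempty := by rw [← card_pos]; omega
    have hl := lev_dc H hv
    have hvC : v ∈ C := hC.dn hxC (by omega) (mem_dc.1 hv)
    rw [← h2] at hv
    exact hC.dn hvC (by omega) (mem_uc.1 hv)

/-- the free near elements of the part -/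
noncomputable def RC (i : ℕ) (psi : P → P) (C : Finset P) (e : P → ℕ) : Finset P :=
  Rst i ∅ psi e ∩ C

/-- the sum over the labellings of the free near elements of the part -/
noncomputable def RG (i : ℕ) (psi : P → P) (C : Finset P) (e : P → ℕ) (m : ℕ) (S : Finset P) :
    A := ∑ l ∈ (RC i psi C e).piAntidiag m, ∏ x ∈ RC i psi C e, wt i e x (l x) S

lemma RC_near {x : P} (hx : x ∈ RC i psi C e) : x ∈ near P i :=
  (mem_Rst.1 (mem_inter.1 hx).1).1

lemma psi_Rst (H : Gr P r) (hM : Mat P i ∅ psi) {x : P} (hx : x ∈ Rst i ∅ psi e)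
    (hd : x ∈ dbL P i ∪ dbU P i) : psi x ∈ Rst i ∅ psi e := by
  obtain ⟨h1, h2, h3, h4⟩ := mem_Rst.mp hx
  have h5 := hM.invol x hd h2
  refine mem_Rst.mpr ⟨?_, h5.2, fun h6 => h4 ⟨hd, h6⟩, ?_⟩
  · rcases Finset.mem_union.mp hd with h6 | h6
    · have h7 := (mem_dbU.mp (hM.low x h6 h2).1).1
      exact mem_near.mpr (Or.inr h7)
    · have h7 := (mem_dbL.mp (hM.upp x h6 h2).1).1
      exact mem_near.mpr (Or.inl h7)
  · rintro ⟨-, h6⟩
    rw [h5.1] at h6
    exact h3 h6

theorem RG_Rk (H : Gr P r) (hi : 1 ≤ i) (hi2 : i + 1 ≤ r) (hM : Mat P i ∅ psi)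
    (hC : Part (i + 1) C) (e : P → ℕ) (m : ℕ) : Rk (lv P i) 0 (RG i psi C e m) := by
  refine rest_prod H hi hi2 hM e (RC i psi C e) (fun x hx => RC_near hx)
    (fun x _ => notMem_empty x) (fun x hx hd => ?_) m
  unfold RC at hx ⊢
  rw [mem_inter] at hx ⊢
  exact ⟨psi_Rst H hM hx.1 hd, psi_mem H hM hC hd hx.2⟩

lemma RG_zero (H : Gr P r) (hir : i ≤ r) (e : P → ℕ) (S : Finset P) :
    RG i psi C e 0 S = 1 := by
  unfold RG
  rw [Finset.piAntidiag_zero, Finset.sum_singleton]
  refine Finset.prod_eq_one fun x hx => ?_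
  show wt i e x ((0 : P → ℕ) x) S = 1
  rw [Pi.zero_apply]
  exact wt_zero H hir (RC_near hx) e S

/-- the contribution of a core -/
noncomputable def J (i : ℕ) (psi : P → P) (C : Finset P) (m : ℕ) (e : P → ℕ) : A :=
  IV (st i C) (fun S => Fe i e S * RG i psi C e m S)

lemma J_zero (H : Gr P r) (hir : i ≤ r) (hC : Part i C) (he : Spt C e) :
    J i psi C 0 e = tC i C e := by
  rw [← IV_Fe H hC he]
  unfold J
  congr 1
  funext S
  rw [RG_zero H hir, mul_one]

/-- cores with at most `k` deficits -/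
theorem J_dvd (H : Gr P r) (hi : 1 ≤ i) (hi2 : i + 1 ≤ r) (hM : Mat P i ∅ psi)
    (hC : Part (i + 1) C) {k : ℕ} (hk : Rk (lv P i) k (Fe i e)) (m : ℕ) :
    dd ^ ((st i C).card - k) ∣ J i psi C m e := by
  have h1 := Rk_mul hk (RG_Rk H hi hi2 hM hC e m)
  rw [add_zero] at h1
  exact Rk_IV (Rk_sub (st_sub i C) h1)

open Classical in
/-- grouping by cores inside a part -/
theorem group_C {M : Type*} [AddCommMonoid M] (H : Gr P r) (F : (P → ℕ) → M) (i : ℕ)
    (psi : P → P) (C : Finset P) (n : ℕ) :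
    ∑ e ∈ C.piAntidiag n, F e =
      ∑ q ∈ range (n + 1), ∑ e0 ∈ (C.piAntidiag q).filter (IsCore i ∅ psi),
        ∑ l ∈ (RC i psi C e0).piAntidiag (n - q), F (e0 + l) := by
  classical
  have h := core_group H (fun e => if Spt C e then F e else 0) i ∅ psi n
  have h1 : ∑ e ∈ (univ : Finset P).piAntidiag n, (if Spt C e then F e else 0) =
      ∑ e ∈ C.piAntidiag n, F e := by
    rw [← Finset.sum_filter]
    refine Finset.sum_congr ?_ fun _ _ => rfl
    ext e
    rw [mem_filter, I2.mem_pa, I2.mem_pa]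
    constructor
    · rintro ⟨⟨h1, -⟩, h2⟩
      exact ⟨h1, h2⟩
    · rintro ⟨h1, h2⟩
      exact ⟨⟨h1, fun x hx => absurd (mem_univ x) hx⟩, h2⟩
  rw [h1] at h
  rw [h]
  refine Finset.sum_congr rfl fun q _ => ?_
  have h2 : (C.piAntidiag q).filter (IsCore i ∅ psi) =
      (((univ : Finset P).piAntidiag q).filter (IsCore i ∅ psi)).filter (Spt C) := by
    ext e
    rw [mem_filter, mem_filter, mem_filter, I2.mem_pa, I2.mem_pa]
    constructor
    · rintro ⟨⟨h1, h2⟩, h3⟩
      exact ⟨⟨⟨h1, fun x hx => absurd (mem_univ x) hx⟩, h3⟩, h2⟩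
    · rintro ⟨⟨⟨h1, -⟩, h3⟩, h2⟩
      exact ⟨⟨h1, h2⟩, h3⟩
  rw [h2]
  conv_rhs => rw [Finset.sum_filter]
  refine Finset.sum_congr rfl fun e0 _ => ?_
  · by_cases hs : Spt C e0
    · rw [if_pos hs, ← Finset.sum_filter]
      refine Finset.sum_congr ?_ fun _ _ => rfl
      ext l
      rw [mem_filter, I2.mem_pa, I2.mem_pa]
      constructor
      · rintro ⟨⟨a1, a2⟩, a3⟩
        refine ⟨a1, fun x hx => ?_⟩
        unfold RC at hx
        rw [mem_inter, not_and_or] at hx
        rcases hx with hx | hx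
        · exact a2 x hx
        · have := a3 x hx
          rw [Pi.add_apply] at this
          omega
      · rintro ⟨a1, a2⟩
        have hl : ∀ x, x ∉ C → l x = 0 := fun x hx => a2 x (fun h => hx (by
          unfold RC at h
          exact (mem_inter.1 h).2))
        refine ⟨⟨a1, fun x hx => a2 x (fun h => hx (by
          unfold RC at h
          exact (mem_inter.1 h).1))⟩, fun x hx => ?_⟩
        rw [Pi.add_apply, hs x hx, hl x hx]
    · rw [if_neg hs]
      refine Finset.sum_eq_zero fun l _ => ?_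
      rw [if_neg]
      intro h
      apply hs
      intro x hx
      have := h x hx
      rw [Pi.add_apply] at this
      omega

open Classical in
/-- THE WINDOW SUM OF A PART as a sum over cores -/
theorem ZC_cores (H : Gr P r) (hir : i ≤ r) (psi : P → P) (hC : Part i C) (n : ℕ) :
    ZC i C n = ∑ q ∈ range (n + 1), ∑ e ∈ (C.piAntidiag q).filter (IsCore i ∅ psi),
      J i psi C (n - q) e := by
  unfold ZC
  rw [group_C H (tC i C) i psi C n]
  refine Finset.sum_congr rfl fun q _ => Finset.sum_congr rfl fun e he => ?_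
  rw [mem_filter, I2.mem_pa] at he
  obtain ⟨⟨h1, h2⟩, h3⟩ := he
  have h4 : ∀ l ∈ (RC i psi C e).piAntidiag (n - q), tC i C (e + l) =
      IV (st i C) (fun S => Fe i e S * ∏ x ∈ RC i psi C e, wt i e x (l x) S) := by
    intro l hl
    rw [I2.mem_pa] at hl
    have hs : Spt C (e + l) := by
      intro x hx
      rw [Pi.add_apply, h2 x hx, hl.2 x (fun h => hx (by
        unfold RC at h
        exact (mem_inter.1 h).2))]
    rw [← IV_Fe H hC hs]
    congr 1
    funext S
    refine fact_many H hir (RC i psi C e) (fun x hx => RC_near hx) (fun x hx => ?_)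
      (fun x hx => ?_) l hl.2 S
    · unfold RC at hx
      exact (mem_Rst.1 (mem_inter.1 hx).1).2.2.1
    · unfold RC at hx
      exact h3 x (mem_inter.1 hx).1
  rw [Finset.sum_congr rfl h4]
  unfold J RG IV
  rw [Finset.sum_comm]
  refine Finset.sum_congr rfl fun S _ => ?_
  rw [← Finset.mul_sum, ← Finset.mul_sum]

/-! ### invariance of `RG` -/

lemma RG_congr (H : Gr P r) {s : P} (h1 : RC i psi C e = RC i psi C f)
    (h2 : ∀ v, lev v = i → v ≠ s → e v = f v) (h3 : ∀ x ∈ RC i psi C f, Far s x) (m : ℕ)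
    (S : Finset P) : RG i psi C e m S = RG i psi C f m S := by
  unfold RG
  rw [h1]
  refine Finset.sum_congr rfl fun l _ => Finset.prod_congr rfl fun x hx => ?_
  exact wt_congr_far H h2 (RC_near hx) (h3 x hx) (l x) S

lemma RG_congr' (H : Gr P r) (h1 : RC i psi C e = RC i psi C f)
    (h2 : ∀ v, lev v = i → e v = f v) (m : ℕ)
    (S : Finset P) : RG i psi C e m S = RG i psi C f m S := by
  unfold RG
  rw [h1]
  refine Finset.sum_congr rfl fun l _ => Finset.prod_congr rfl fun x hx => ?_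
  exact wt_congr H h2 (RC_near hx) (l x) S

lemma RG_insert {s : P} (h3 : ∀ x ∈ RC i psi C e, Far s x) (m : ℕ) (S : Finset P) :
    RG i psi C e m (insert s S) = RG i psi C e m S := by
  unfold RG
  refine Finset.sum_congr rfl fun l _ => Finset.prod_congr rfl fun x hx => ?_
  exact wt_insert (h3 x hx) (l x) S

section toggle

variable {w x x' a s c : P}

lemma TogL.RG_tg (H : Gr P r) (T : TogL i e w x x' a s c) (hM : Mat P i ∅ psi) (m : ℕ)
    (S : Finset P) : RG i psi C (So.tg w s e) m S = RG i psi C e m S := by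
  apply RG_congr H (s := s)
  · unfold RC
    rw [T.Rst_eq H]
  · intro v hv hvs
    refine tg_ne (by rintro rfl; have := T.lw; omega) hvs e
  · intro z hz
    unfold RC at hz
    exact T.far H hM (mem_inter.1 hz).1

lemma TogL.RG_ins (H : Gr P r) (T : TogL i e w x x' a s c) (hM : Mat P i ∅ psi) (m : ℕ)
    (S : Finset P) : RG i psi C e m (insert s S) = RG i psi C e m S := by
  apply RG_insert
  intro z hz
  unfold RC at hz
  exact T.far H hM (mem_inter.1 hz).1

lemma TogU.RG_tg (H : Gr P r) (T : TogU i e w x x' a s c) (hM : Mat P i ∅ psi) (m : ℕ)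
    (S : Finset P) : RG i psi C (So.tg w s e) m S = RG i psi C e m S := by
  apply RG_congr H (s := s)
  · unfold RC
    rw [T.Rst_eq H]
  · intro v hv hvs
    refine tg_ne (by rintro rfl; have := T.lw; omega) hvs e
  · intro z hz
    unfold RC at hz
    exact T.far H hM (mem_inter.1 hz).1

lemma TogU.RG_ins (H : Gr P r) (T : TogU i e w x x' a s c) (hM : Mat P i ∅ psi) (m : ℕ)
    (S : Finset P) : RG i psi C e m (insert s S) = RG i psi C e m S := by
  apply RG_insert
  intro z hz
  unfold RC at hz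
  exact T.far H hM (mem_inter.1 hz).1

/-- the two members of a toggle pair: the sum of their contributions gains a factor -/
theorem TogL.J_pair (H : Gr P r) (T : TogL i e w x x' a s c) (hM : Mat P i ∅ psi) {m k : ℕ}
    (hs : s ∈ C) (h1 : dd ^ k ∣ J i psi C m e) (h2 : dd ^ k ∣ J i psi C m (So.tg w s e)) :
    dd ^ (k + 1) ∣ J i psi C m e + J i psi C m (So.tg w s e) := by
  have hsv : s ∈ Win.st i C := mem_st.2 ⟨hs, T.ls H⟩
  have h3 : J i psi C m (So.tg w s e) =
      IV (Win.st i C) (fun S => Fe i (So.tg w s e) S * RG i psi C e m S) := by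
    unfold J
    refine IV_congr fun S => ?_
    rw [T.RG_tg H hM]
  rw [h3] at h2 ⊢
  exact dvd_tg H T hsv (RG i psi C e m) (fun S => T.RG_ins H hM m S) h1 h2

theorem TogU.J_pair (H : Gr P r) (T : TogU i e w x x' a s c) (hM : Mat P i ∅ psi) {m k : ℕ}
    (hs : s ∈ C) (h1 : dd ^ k ∣ J i psi C m e) (h2 : dd ^ k ∣ J i psi C m (So.tg w s e)) :
    dd ^ (k + 1) ∣ J i psi C m e + J i psi C m (So.tg w s e) := by
  have hsv : s ∈ Win.st i C := mem_st.2 ⟨hs, T.ls H⟩
  have h3 : J i psi C m (So.tg w s e) =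
      IV (Win.st i C) (fun S => Fe i (So.tg w s e) S * RG i psi C e m S) := by
    unfold J
    refine IV_congr fun S => ?_
    rw [T.RG_tg H hM]
  rw [h3] at h2 ⊢
  exact dvd_tgU H T hsv (RG i psi C e m) (fun S => T.RG_ins H hM m S) h1 h2

end toggle

section reflection

variable {y p u p' : P}

lemma RefL.RG_rho (H : Gr P r) (D : RefD r i y p u p') (R : RefL e y p u p')
    (hM : Mat P i ∅ psi) (hp : psi y = u) (m : ℕ) (S : Finset P) :
    RG i psi C (rho y p u p' e) m S = RG i psi C e m S := by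
  apply RG_congr' H
  · unfold RC
    rw [R.Rst_eq H D hM hp]
  · intro v hv
    exact D.rho_site H hv

/-- the function of the sum of two mirror images: `(phiL + phiU) * rest` -/
noncomputable def GR (i : ℕ) (psi : P → P) (C : Finset P) (y p u : P) (m : ℕ) (e : P → ℕ)
    (S : Finset P) : A :=
  (phiL (red y p e) y (e y) (e p) S + phiU (red y p e) u (e y) (e p) S) * RG i psi C e m S

lemma RefL.GR_Rk (H : Gr P r) (hi : 1 ≤ i) (hi2 : i + 1 ≤ r) (D : RefD r i y p u p')
    (R : RefL e y p u p') (hM : Mat P i ∅ psi) (hC : Part (i + 1) C) (m : ℕ) :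
    Rk (lv P i) 0 (GR i psi C y p u m e) := by
  have h1 : Rk (lv P i) 0 (fun S => phiL (red y p e) y (e y) (e p) S +
      phiU (red y p e) u (e y) (e p) S) := by
    apply R.pair_Rk H D
    intro v hv
    have l1 := lev_uc H hv
    have l2 := D.ly
    exact mem_lv.2 (by omega)
  have h2 := Rk_mul h1 (RG_Rk H hi hi2 hM hC e m)
  rw [add_zero] at h2
  exact h2

/-- THE SUM OF THE CONTRIBUTIONS of two mirror images -/
theorem RefL.J_pair (H : Gr P r) (D : RefD r i y p u p') (R : RefL e y p u p')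
    (hM : Mat P i ∅ psi) (hp : psi y = u) (m : ℕ) :
    J i psi C m e + J i psi C m (rho y p u p' e) =
      IV (st i C) (fun S => Fe i (red y p e) S * GR i psi C y p u m e S) := by
  have h3 : J i psi C m (rho y p u p' e) =
      IV (st i C) (fun S => Fe i (rho y p u p' e) S * RG i psi C e m S) := by
    unfold J
    refine IV_congr fun S => ?_
    rw [R.RG_rho H D hM hp]
  rw [h3]
  unfold J
  rw [← IV_add]
  refine IV_congr fun S => ?_
  have h4 := R.pair_eq H D S
  unfold GR
  rw [← add_mul, h4, mul_assoc]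

end reflection

end Pool.Agent.GaussPoset.Win.So

end

/-! From `Pool.Agent.W_448so_h17.AsA` -/

section

/-!
S9, row 476, ASSEMBLY: sums of the contributions of cores over the toggle class and over the
reflection class.
-/

namespace Pool.Agent.GaussPoset.Win.So

set_option linter.unusedSectionVars false

open Finset

universe u

variable {P : Type u} [Fintype P] [PartialOrder P] [DecidableEq P] {r i : ℕ}

variable {e f : P → ℕ} {psi : P → P} {C : Finset P}

/-! ### involutions -/

lemma dvd_of_two {k : ℕ} {X : A} (h : dd ^ k ∣ X + X) : dd ^ k ∣ X := by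
  apply I2.dvd_of_coeff
  intro n hn
  have h1 := I2.coeff_zero_of_dvd h hn
  rw [map_add] at h1
  omega

lemma dvd_sum_invol {α : Type*} {T : Finset α} (σ : α → α) (h1 : ∀ e ∈ T, σ e ∈ T)
    (h2 : ∀ e ∈ T, σ (σ e) = e) {F : α → A} {k : ℕ}
    (h3 : ∀ e ∈ T, dd ^ k ∣ F e + F (σ e)) : dd ^ k ∣ ∑ e ∈ T, F e := by
  apply dvd_of_two
  have h4 : ∑ e ∈ T, F e = ∑ e ∈ T, F (σ e) := by
    symm
    exact Finset.sum_nbij' σ σ h1 h1 h2 h2 (fun e _ => rfl)
  conv_rhs => rw [h4]
  have h5 : ∑ e ∈ T, F (σ e) + ∑ e ∈ T, F (σ e) = ∑ e ∈ T, (F e + F (σ e)) := by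
    rw [Finset.sum_add_distrib, ← h4]
  rw [h5]
  exact Finset.dvd_sum h3

/-! ### the toggle class -/

/-- `w`, `s` is a toggle pair of `e` (lower or upper) -/
def TgP (i : ℕ) (e : P → ℕ) (w s : P) : Prop :=
  (∃ x x' a c, TogL i e w x x' a s c ∧ a ≠ c) ∨ (∃ x x' a c, TogU i e w x x' a s c ∧ a ≠ c)

namespace TgP

variable {w s : P}

lemma ls (H : Gr P r) (T : TgP i e w s) : lev s = i := by
  rcases T with ⟨x, x', a, c, T, hac⟩ | ⟨x, x', a, c, T, hac⟩
  · exact T.ls H
  · exact T.ls H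

lemma lw (T : TgP i e w s) : lev w = i + 2 ∨ lev w + 2 = i := by
  rcases T with ⟨x, x', a, c, T, hac⟩ | ⟨x, x', a, c, T, hac⟩
  · exact Or.inl T.lw
  · exact Or.inr T.lw

lemma sw (H : Gr P r) (T : TgP i e w s) : s ≠ w := by
  rcases T with ⟨x, x', a, c, T, hac⟩ | ⟨x, x', a, c, T, hac⟩
  · exact T.sw H
  · exact T.sw H

lemma hw (T : TgP i e w s) : 1 ≤ e w := by
  rcases T with ⟨x, x', a, c, T, hac⟩ | ⟨x, x', a, c, T, hac⟩
  · exact T.hw
  · exact T.hw

lemma tg (H : Gr P r) (T : TgP i e w s) : TgP i (So.tg w s e) w s := by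
  rcases T with ⟨x, x', a, c, T, hac⟩ | ⟨x, x', a, c, T, hac⟩
  · exact Or.inl ⟨x, x', a, c, T.tg H, hac⟩
  · exact Or.inr ⟨x, x', a, c, T.tg H, hac⟩

lemma core (H : Gr P r) (T : TgP i e w s) (K : Finset P) (h : IsCore i K psi e) :
    IsCore i K psi (So.tg w s e) := by
  rcases T with ⟨x, x', a, c, T, hac⟩ | ⟨x, x', a, c, T, hac⟩
  · exact (T.core_iff H K).2 h
  · exact (T.core_iff H K).2 h

/-- the two elements of a toggle pair lie in the part -/
lemma mem (H : Gr P r) (hC : Part i C) (hs : Spt C e) (T : TgP i e w s) : w ∈ C ∧ s ∈ C := by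
  have hw : w ∈ C := by
    by_contra h
    have := hs w h
    have := T.hw
    omega
  refine ⟨hw, ?_⟩
  rcases T with ⟨x, x', a, c, T, hac⟩ | ⟨x, x', a, c, T, hac⟩
  · exact hC.up (hC.up hw T.wx) T.xs
  · have h1 := T.lw
    have h2 := T.lx H
    exact hC.dn (hC.dn hw (by omega) T.wx) (by omega) T.xs

lemma spt (H : Gr P r) (hC : Part i C) (hs : Spt C e) (T : TgP i e w s) :
    Spt C (So.tg w s e) := by
  obtain ⟨h1, h2⟩ := T.mem H hC hs
  intro z hz
  rw [tg_ne (by rintro rfl; exact hz h1) (by rintro rfl; exact hz h2)]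
  exact hs z hz

lemma J_pair (H : Gr P r) (hC : Part i C) (hs : Spt C e) (T : TgP i e w s)
    (hM : Mat P i ∅ psi) {m k : ℕ}
    (h1 : dd ^ k ∣ J i psi C m e) (h2 : dd ^ k ∣ J i psi C m (So.tg w s e)) :
    dd ^ (k + 1) ∣ J i psi C m e + J i psi C m (So.tg w s e) := by
  have hsC := (T.mem H hC hs).2
  rcases T with ⟨x, x', a, c, T, hac⟩ | ⟨x, x', a, c, T, hac⟩
  · exact T.J_pair H hM hsC h1 h2
  · exact T.J_pair H hM hsC h1 h2

end TgP

open Classical in
/-- toggle `e` at its toggle pair -/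
noncomputable def sg2 (i : ℕ) (e0 e : P → ℕ) : P → ℕ :=
  if h : ∃ p : P × P, TgP i e0 p.1 p.2 then tg h.choose.1 h.choose.2 e else e

lemma sg2_eq {i : ℕ} {e0 : P → ℕ} {w s : P} (T : TgP i e0 w s)
    (hu : ∀ w1 s1, TgP i e0 w1 s1 → w1 = w ∧ s1 = s) (e : P → ℕ) :
    sg2 i e0 e = tg w s e := by
  have h : ∃ p : P × P, TgP i e0 p.1 p.2 := ⟨(w, s), T⟩
  unfold sg2
  rw [dif_pos h]
  obtain ⟨h1, h2⟩ := hu _ _ h.choose_spec
  rw [h1, h2]

/-- THE TOGGLE CLASS: a set of cores of the part, each with exactly one toggle pair, closed under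
the toggles -/
theorem dvd_toggle (H : Gr P r) (hC : Part i C) (hM : Mat P i ∅ psi) {T : Finset (P → ℕ)}
    {m k : ℕ}
    (h1 : ∀ e ∈ T, Spt C e)
    (h2 : ∀ e ∈ T, ∃ w s, TgP i e w s ∧ (∀ w1 s1, TgP i e w1 s1 → w1 = w ∧ s1 = s) ∧
      tg w s e ∈ T)
    (h3 : ∀ e ∈ T, dd ^ k ∣ J i psi C m e) :
    dd ^ (k + 1) ∣ ∑ e ∈ T, J i psi C m e := by
  have key : ∀ e ∈ T, sg2 i e e ∈ T ∧ sg2 i (sg2 i e e) (sg2 i e e) = e ∧
      dd ^ (k + 1) ∣ J i psi C m e + J i psi C m (sg2 i e e) := by
    intro e he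
    obtain ⟨w, s, hT, hu, hm⟩ := h2 e he
    rw [sg2_eq hT hu]
    have hT2 := hT.tg H
    refine ⟨hm, ?_, ?_⟩
    · obtain ⟨w1, s1, hT1, hu1, -⟩ := h2 _ hm
      obtain ⟨h4, h5⟩ := hu1 w s hT2
      subst h4
      subst h5
      rw [sg2_eq hT1 hu1, tg_tg (hT.sw H) hT.hw]
    · exact hT.J_pair H hC (h1 e he) hM (h3 e he) (h3 _ hm)
  exact dvd_sum_invol (fun e => sg2 i e e) (fun e he => (key e he).1) (fun e he => (key e he).2.1)
    (fun e he => (key e he).2.2)

/-! ### the reflection class -/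

section reflection

variable {y p u p' w s : P}

/-- touched elements: only the positivity of the labels of the far elements counts -/
lemma Tch_congr (H : Gr P r) (h : ∀ z, lev z = i + 2 ∨ lev z + 2 = i → (0 < e z ↔ 0 < f z)) :
    Tch i e = Tch i f := by
  ext z
  rw [mem_Tch, mem_Tch]
  constructor
  · rintro (⟨h1, z', h2, h3⟩ | ⟨h1, z', h2, h3⟩)
    · have l1 := lev_uc H (mem_uc.2 h2)
      exact Or.inl ⟨h1, z', h2, (h z' (by omega)).1 h3⟩
    · have l1 := lev_uc H (mem_uc.2 h2)
      exact Or.inr ⟨h1, z', h2, (h z' (by omega)).1 h3⟩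
  · rintro (⟨h1, z', h2, h3⟩ | ⟨h1, z', h2, h3⟩)
    · have l1 := lev_uc H (mem_uc.2 h2)
      exact Or.inl ⟨h1, z', h2, (h z' (by omega)).2 h3⟩
    · have l1 := lev_uc H (mem_uc.2 h2)
      exact Or.inr ⟨h1, z', h2, (h z' (by omega)).2 h3⟩

lemma Tch_tg (H : Gr P r) (hs : lev s = i) (hw : 1 ≤ e w) : Tch i (tg w s e) = Tch i e := by
  apply Tch_congr H
  intro z hz
  by_cases h : z = w
  · rw [h, tg_w]
    omega
  · rw [tg_ne h (by rintro rfl; omega)]

lemma Tch_mono (H : Gr P r) (h : ∀ z, 0 < e z → 0 < f z) {z : P} (hz : z ∈ Tch i e) :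
    z ∈ Tch i f := by
  rw [mem_Tch] at hz ⊢
  rcases hz with ⟨h1, z', h2, h3⟩ | ⟨h1, z', h2, h3⟩
  · exact Or.inl ⟨h1, z', h2, h z' h3⟩
  · exact Or.inr ⟨h1, z', h2, h z' h3⟩

lemma red_le (y p : P) (e : P → ℕ) (z : P) : red y p e z ≤ e z := by
  unfold red up2
  split_ifs <;> omega

/-- the reduced configuration of a core is a core -/
lemma RefL.red_core (H : Gr P r) (D : RefD r i y p u p') (R : RefL e y p u p')
    (hM : Mat P i ∅ psi) (hp : psi y = u) (hc : IsCore i ∅ psi e) :
    IsCore i ∅ psi (red y p e) := by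
  have hpu := D.psi_u hM hp
  have lp := D.lp H
  intro z hz
  by_cases h1 : z = y
  · subst h1
    unfold red
    exact up2_y _ _ _ _ _
  by_cases h2 : z = u
  · subst h2
    have := red_le y p e z
    have := R.eu
    omega
  have h3 : z ≠ p := by
    rintro rfl
    rcases mem_near.1 (mem_Rst.1 hz).1 with h | h <;> omega
  have hmem : ∀ x, x ≠ y → (x ∈ Tch i e → x ∈ Tch i (red y p e)) := by
    intro x hx hxT
    rw [mem_Tch] at hxT ⊢
    rcases hxT with ⟨a1, z', a2, a3⟩ | ⟨a1, z', a2, a3⟩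
    · have l1 := lev_uc H (mem_uc.2 a2)
      have ly := D.ly
      refine Or.inl ⟨a1, z', a2, ?_⟩
      unfold red
      rw [up2_ne (by rintro rfl; omega)]
      · exact a3
      · rintro rfl
        have := mem_uc.2 a2
        rw [D.cp, mem_singleton] at this
        exact hx this
    · have l1 := lev_uc H (mem_uc.2 a2)
      have ly := D.ly
      refine Or.inr ⟨a1, z', a2, ?_⟩
      unfold red
      rw [up2_ne (by rintro rfl; omega) (by rintro rfl; omega)]
      exact a3
  obtain ⟨a1, a2, a3, a4⟩ := mem_Rst.1 hz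
  have hz' : z ∈ Rst i ∅ psi e := by
    refine mem_Rst.2 ⟨a1, a2, fun h => a3 (hmem z h1 h), ?_⟩
    rintro ⟨a5, a6⟩
    apply a4
    refine ⟨a5, hmem _ ?_ a6⟩
    intro h
    have h4 := (hM.invol z a5 a2).1
    rw [h, hp] at h4
    exact h2 h4.symm
  have h4 := hc z hz'
  have := red_le y p e z
  omega

/-- a toggle pair of the reduced configuration has nothing to do with `y`, `p`, `u`, `p'` -/
lemma RefL.tgp (H : Gr P r) (D : RefD r i y p u p') (R : RefL e y p u p')
    (T : TgP i (red y p e) w s) :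
    w ≠ y ∧ w ≠ p ∧ w ≠ u ∧ w ≠ p' ∧ s ≠ y ∧ s ≠ p ∧ s ≠ u ∧ s ≠ p' ∧ s ∉ uc y := by
  have lp := D.lp H
  have lp' := D.lp' H
  have ly := D.ly
  have lu := D.lu
  have ls := T.ls H
  have lw := T.lw
  have hw := T.hw
  have n1 : w ≠ p := by
    rintro rfl
    unfold red at hw
    rw [up2_p D.py.lt.ne] at hw
    omega
  have n2 : w ≠ p' := by
    rintro rfl
    have := red_le y p e w
    have := R.ab w D.up
    omega
  refine ⟨by rintro rfl; omega, n1, by rintro rfl; omega, n2, by rintro rfl; omega,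
    by rintro rfl; omega, by rintro rfl; omega, by rintro rfl; omega, ?_⟩
  intro h
  rcases T with ⟨x, x', a, c, T, hac⟩ | ⟨x, x', a, c, T, hac⟩
  · have h1 : y ∈ dc s := mem_dc.2 (mem_uc.1 h)
    have h0 : red y p e y = 0 := by
      unfold red
      exact up2_y _ _ _ _ _
    rw [T.ds, mem_insert, mem_singleton] at h1
    rcases h1 with rfl | rfl
    · have := T.hx
      omega
    · have := T.hx'
      omega
  · rw [← D.yu] at h
    have h1 : u ∈ uc s := mem_uc.2 (mem_dc.1 h)
    have h0 : red y p e u = 0 := by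
      have := red_le y p e u
      have := R.eu
      omega
    rw [T.ds, mem_insert, mem_singleton] at h1
    rcases h1 with rfl | rfl
    · have := T.hx
      omega
    · have := T.hx'
      omega

lemma RefL.tg_ref (H : Gr P r) (D : RefD r i y p u p') (R : RefL e y p u p')
    (T : TgP i (red y p e) w s) :
    RefL (tg w s e) y p u p' ∧ red y p (tg w s e) = tg w s (red y p e) := by
  obtain ⟨n1, n2, n3, n4, n5, n6, n7, n8, n9⟩ := R.tgp H D T
  have lp := D.lp H
  have lp' := D.lp' H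
  have ly := D.ly
  have lu := D.lu
  have ls := T.ls H
  have hw := T.hw
  have hw' : 1 ≤ e w := hw.trans (red_le y p e w)
  have tgz : ∀ z, z ≠ s → e z = 0 → tg w s e z = 0 := by
    intro z hz h0
    rw [tg_ne _ hz]
    · exact h0
    · rintro rfl
      omega
  refine ⟨⟨?_, ?_, ?_, ?_, ?_, ?_, ?_⟩, ?_⟩
  · rw [tg_ne n1.symm n5.symm]
    exact R.hy
  · rw [tg_ne n2.symm n6.symm]
    exact R.hp
  · rw [tg_ne n3.symm n7.symm]
    exact R.eu
  · intro z hz hzp
    have l1 := lev_uc H (mem_uc.2 hz)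
    exact tgz z (by rintro rfl; omega) (R.ch z hz hzp)
  · intro z hz
    have l1 := lev_uc H (mem_uc.2 hz)
    exact tgz z (by rintro rfl; omega) (R.chp z hz)
  · intro z hz
    have l1 := lev_uc H (mem_uc.2 hz)
    exact tgz z (by rintro rfl; omega) (R.ab z hz)
  · intro z hz
    have l1 := lev_uc H (mem_uc.2 hz)
    exact tgz z (by rintro rfl; omega) (R.abp z hz)
  · have hsw : s ≠ w := T.sw H
    funext z
    unfold red
    by_cases z1 : z = y
    · rw [z1, up2_y, tg_ne n1.symm n5.symm, up2_y]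
    · by_cases z2 : z = p
      · rw [z2, up2_p D.py.lt.ne, tg_ne n2.symm n6.symm, up2_p D.py.lt.ne]
      · rw [up2_ne z1 z2]
        by_cases z3 : z = w
        · subst z3
          rw [tg_w, tg_w, up2_ne n5 n6]
        · by_cases z4 : z = s
          · subst z4
            rw [tg_s hsw, tg_s hsw, up2_ne n1 n2]
          · rw [tg_ne z3 z4, tg_ne z3 z4, up2_ne z1 z2]

lemma phiL_congr {e f : P → ℕ} {y : P} {Y Q : ℕ} {S S' : Finset P}
    (h : ∀ v ∈ uc y, e v = f v) (hS : ∀ v ∈ uc y, (v ∈ S ↔ v ∈ S')) :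
    phiL e y Y Q S = phiL f y Y Q S' := by
  unfold phiL
  have k1 : (∀ v ∈ uc y, e v < Y) ↔ ∀ v ∈ uc y, f v < Y :=
    forall₂_congr fun v hv => by rw [h v hv]
  have k2 : (∀ v ∈ uc y, e v < Y → v ∈ S) ↔ ∀ v ∈ uc y, f v < Y → v ∈ S' :=
    forall₂_congr fun v hv => by rw [h v hv, hS v hv]
  simp only [k1, k2]

lemma phiU_congr {e f : P → ℕ} {u : P} {Y Q : ℕ} {S S' : Finset P}
    (h : ∀ v ∈ dc u, e v = f v) (hS : ∀ v ∈ dc u, (v ∈ S ↔ v ∈ S')) :
    phiU e u Y Q S = phiU f u Y Q S' := by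
  unfold phiU
  have k1 : (∀ v ∈ dc u, e v < Y) ↔ ∀ v ∈ dc u, f v < Y :=
    forall₂_congr fun v hv => by rw [h v hv]
  have k2 : (∀ v ∈ dc u, e v < Y → v ∉ S) ↔ ∀ v ∈ dc u, f v < Y → v ∉ S' :=
    forall₂_congr fun v hv => by rw [h v hv, hS v hv]
  simp only [k1, k2]

/-- the second factor is the same for the toggled configuration, and does not see `s` -/
lemma RefL.GR_tg (H : Gr P r) (D : RefD r i y p u p') (R : RefL e y p u p')
    (hM : Mat P i ∅ psi) (T : TgP i (red y p e) w s) (m : ℕ) (S : Finset P) :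
    GR i psi C y p u m (tg w s e) S = GR i psi C y p u m e S ∧
      GR i psi C y p u m e (insert s S) = GR i psi C y p u m e S := by
  obtain ⟨n1, n2, n3, n4, n5, n6, n7, n8, n9⟩ := R.tgp H D T
  obtain ⟨-, hred⟩ := R.tg_ref H D T
  have ls := T.ls H
  have hw := T.hw
  have hw' : 1 ≤ e w := hw.trans (red_le y p e w)
  have hfar : ∀ x ∈ RC i psi C e, Far s x := by
    intro x hx
    unfold RC at hx
    have h1 : x ∈ Rst i ∅ psi (red y p e) := by
      obtain ⟨a1, a2, a3, a4⟩ := mem_Rst.1 (mem_inter.1 hx).1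
      have hmono : ∀ z, 0 < red y p e z → 0 < e z := fun z hz => lt_of_lt_of_le hz (red_le y p e z)
      exact mem_Rst.2 ⟨a1, a2, fun h => a3 (Tch_mono H hmono h),
        fun h => a4 ⟨h.1, Tch_mono H hmono h.2⟩⟩
    rcases T with ⟨x1, x1', a, c, T, -⟩ | ⟨x1, x1', a, c, T, -⟩
    · exact T.far H hM h1
    · exact T.far H hM h1
  have hRC : RC i psi C (tg w s e) = RC i psi C e := by
    unfold RC Rst
    rw [Tch_tg H ls hw']
  have hsite : ∀ v, lev v = i → v ≠ s → tg w s e v = e v := by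
    intro v hv hvs
    refine tg_ne ?_ hvs e
    rintro rfl
    rcases T.lw with h | h <;> omega
  have hG1 : RG i psi C (tg w s e) m S = RG i psi C e m S := RG_congr H hRC hsite hfar m S
  have hG2 : RG i psi C e m (insert s S) = RG i psi C e m S := RG_insert hfar m S
  have ly := D.ly
  have hey : tg w s e y = e y := tg_ne n1.symm n5.symm e
  have hep : tg w s e p = e p := tg_ne n2.symm n6.symm e
  have hv : ∀ v ∈ uc y, red y p (tg w s e) v = red y p e v := by
    intro v hv
    have l1 := lev_uc H hv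
    rw [hred]
    refine tg_ne ?_ (by rintro rfl; exact n9 hv) _
    rintro rfl
    rcases T.lw with h | h <;> omega
  have hvu : ∀ v ∈ dc u, red y p (tg w s e) v = red y p e v := by
    rw [D.yu]
    exact hv
  have hS : ∀ v ∈ uc y, (v ∈ insert s S ↔ v ∈ S) := by
    intro v hvy
    rw [mem_insert]
    have : v ≠ s := fun h => n9 (h ▸ hvy)
    tauto
  have hSu : ∀ v ∈ dc u, (v ∈ insert s S ↔ v ∈ S) := by
    rw [D.yu]
    exact hS
  constructor
  · unfold GR
    rw [hG1, hey, hep, phiL_congr (S' := S) hv (fun v _ => Iff.rfl),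
      phiU_congr (S' := S) hvu (fun v _ => Iff.rfl)]
  · unfold GR
    rw [hG2, phiL_congr (f := red y p e) (S' := S) (fun v _ => rfl) hS,
      phiU_congr (f := red y p e) (S' := S) (fun v _ => rfl) hSu]

end reflection

end Pool.Agent.GaussPoset.Win.So

end

/-! From `Pool.Agent.W_448so_h17.AsB` -/

section

/-!
S9, row 476, ASSEMBLY: the sum over the cores of fixed energy: nonreflection class and reflection
class.
-/

namespace Pool.Agent.GaussPoset.Win.So

set_option linter.unusedSectionVars false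

open Finset

universe u

variable {P : Type u} [Fintype P] [PartialOrder P] [DecidableEq P] {r i : ℕ}

variable {e f : P → ℕ} {psi : P → P} {C : Finset P} {w s y p u p' : P}

lemma _root_.Pool.Agent.GaussPoset.Win.Part.pred (hC : Part (i + 1) C) : Part i C :=
  ⟨hC.up, fun h1 h2 h3 => hC.dn h1 (by omega) h3⟩

lemma spt_pa {q : ℕ} (h : e ∈ C.piAntidiag q) : Spt C e := by
  rw [I2.mem_pa] at h
  exact h.2

/-- toggles keep the energy and the support -/
lemma TgP.pa (H : Gr P r) (hC : Part i C) {q : ℕ} (he : e ∈ C.piAntidiag q)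
    (T : TgP i e w s) : So.tg w s e ∈ C.piAntidiag q := by
  have h := he
  rw [I2.mem_pa] at h ⊢
  exact ⟨by rw [tg_sum (T.sw H) T.hw]; exact h.1, T.spt H hC h.2⟩

/-- the positivity of the labels outside the sites does not change -/
lemma TgP.pos (T : TgP i e w s) {z : P} (hs : z ≠ s) : 0 < So.tg w s e z ↔ 0 < e z := by
  by_cases h : z = w
  · subst h
    rw [tg_w]
    have := T.hw
    omega
  · rw [tg_ne h hs]

lemma TgP.zero (T : TgP i e w s) {z : P} (hs : z ≠ s) : So.tg w s e z = 0 ↔ e z = 0 := by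
  have := T.pos hs
  omega

lemma core_congr (h1 : Rst i ∅ psi e = Rst i ∅ psi f) (h2 : ∀ x ∈ near P i, e x = f x) :
    IsCore i ∅ psi e ↔ IsCore i ∅ psi f := by
  unfold IsCore
  rw [h1]
  constructor
  · intro h x hx
    rw [← h2 x (mem_Rst.1 hx).1]
    exact h x hx
  · intro h x hx
    rw [h2 x (mem_Rst.1 hx).1]
    exact h x hx

/-! ### the class without reflections -/

open Classical in
theorem asm_N (H : Gr P r) (hi : 1 ≤ i) (hi2 : i + 1 ≤ r) (hM : Mat P i ∅ psi)
    (hC : Part (i + 1) C) {q : ℕ} (m : ℕ) (N Q L : (P → ℕ) → Prop)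
    (hN : ∀ e w s, TgP i e w s → N e → N (tg w s e))
    (hQ : ∀ e w s, TgP i e w s → Q e → Q (tg w s e))
    (hu : ∀ e ∈ C.piAntidiag q, IsCore i ∅ psi e → N e → Q e → ∀ w s w1 s1,
      TgP i e w s → TgP i e w1 s1 → w1 = w ∧ s1 = s)
    (h2 : ∀ e ∈ C.piAntidiag q, IsCore i ∅ psi e → N e → Q e → ∀ w s, TgP i e w s →
      Cheap 2 i e)
    (h1 : ∀ e ∈ C.piAntidiag q, IsCore i ∅ psi e → N e → (Q e → ∀ w s, ¬ TgP i e w s) → ¬ L e →
      Cheap 1 i e)
    (hL : ∀ e ∈ C.piAntidiag q, L e → IsCore i ∅ psi e ∧ N e ∧ (Q e → ∀ w s, ¬ TgP i e w s)) :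
    dd ^ ((st i C).card - 1) ∣
      ∑ e ∈ (C.piAntidiag q).filter (fun e => IsCore i ∅ psi e ∧ N e), J i psi C m e -
        ∑ e ∈ (C.piAntidiag q).filter L, J i psi C m e := by
  have hC0 : Part i C := hC.pred
  set b := (st i C).card with hb
  rcases Nat.lt_or_ge b 2 with hb2 | hb2
  · rw [show b - 1 = 0 by omega, pow_zero]
    exact one_dvd _
  have e1 : ∑ e ∈ (C.piAntidiag q).filter (fun e => IsCore i ∅ psi e ∧ N e), J i psi C m e =
      ∑ e ∈ ((C.piAntidiag q).filter (fun e => IsCore i ∅ psi e ∧ N e)).filter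
        (fun e => Q e ∧ ∃ w s, TgP i e w s), J i psi C m e +
      ∑ e ∈ ((C.piAntidiag q).filter (fun e => IsCore i ∅ psi e ∧ N e)).filter
        (fun e => ¬ (Q e ∧ ∃ w s, TgP i e w s)), J i psi C m e :=
    (Finset.sum_filter_add_sum_filter_not _ _ _).symm
  have e2 : ∑ e ∈ ((C.piAntidiag q).filter (fun e => IsCore i ∅ psi e ∧ N e)).filter
        (fun e => ¬ (Q e ∧ ∃ w s, TgP i e w s)), J i psi C m e =
      ∑ e ∈ (((C.piAntidiag q).filter (fun e => IsCore i ∅ psi e ∧ N e)).filter
        (fun e => ¬ (Q e ∧ ∃ w s, TgP i e w s))).filter L, J i psi C m e +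
      ∑ e ∈ (((C.piAntidiag q).filter (fun e => IsCore i ∅ psi e ∧ N e)).filter
        (fun e => ¬ (Q e ∧ ∃ w s, TgP i e w s))).filter (fun e => ¬ L e), J i psi C m e :=
    (Finset.sum_filter_add_sum_filter_not _ _ _).symm
  have e3 : (((C.piAntidiag q).filter (fun e => IsCore i ∅ psi e ∧ N e)).filter
        (fun e => ¬ (Q e ∧ ∃ w s, TgP i e w s))).filter L = (C.piAntidiag q).filter L := by
    ext e
    simp only [mem_filter]
    constructor
    · rintro ⟨⟨⟨a1, -⟩, -⟩, a2⟩
      exact ⟨a1, a2⟩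
    · rintro ⟨a1, a2⟩
      obtain ⟨b1, b2, b3⟩ := hL e a1 a2
      refine ⟨⟨⟨a1, b1, b2⟩, ?_⟩, a2⟩
      rintro ⟨c1, w, s, c2⟩
      exact b3 c1 w s c2
  rw [e1, e2, e3]
  have d1 : dd ^ (b - 1) ∣ ∑ e ∈ ((C.piAntidiag q).filter
      (fun e => IsCore i ∅ psi e ∧ N e)).filter
        (fun e => Q e ∧ ∃ w s, TgP i e w s), J i psi C m e := by
    have := dvd_toggle (k := b - 2) (m := m) H hC0 hM (T := ((C.piAntidiag q).filter
      (fun e => IsCore i ∅ psi e ∧ N e)).filter (fun e => Q e ∧ ∃ w s, TgP i e w s))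
      (fun e he => spt_pa (mem_filter.1 (mem_filter.1 he).1).1)
      (fun e he => by
        obtain ⟨a1, a2, w, s, a3⟩ := mem_filter.1 he
        obtain ⟨b1, b2, b3⟩ := mem_filter.1 a1
        refine ⟨w, s, a3, fun w1 s1 h => hu e b1 b2 b3 a2 w s w1 s1 a3 h, ?_⟩
        exact mem_filter.2 ⟨mem_filter.2 ⟨a3.pa H hC0 b1, a3.core H ∅ b2, hN e w s a3 b3⟩,
          hQ e w s a3 a2, w, s, a3.tg H⟩)
      (fun e he => by
        obtain ⟨a1, a2, w, s, a3⟩ := mem_filter.1 he
        obtain ⟨b1, b2, b3⟩ := mem_filter.1 a1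
        exact J_dvd H hi hi2 hM hC (Rk_of_cheap (h2 e b1 b2 b3 a2 w s a3)) m)
    rw [show b - 2 + 1 = b - 1 by omega] at this
    exact this
  have d2 : dd ^ (b - 1) ∣ ∑ e ∈ (((C.piAntidiag q).filter
      (fun e => IsCore i ∅ psi e ∧ N e)).filter
        (fun e => ¬ (Q e ∧ ∃ w s, TgP i e w s))).filter (fun e => ¬ L e), J i psi C m e := by
    refine Finset.dvd_sum fun e he => ?_
    obtain ⟨a1, a2⟩ := mem_filter.1 he
    obtain ⟨b1, b2⟩ := mem_filter.1 a1
    obtain ⟨c1, c2, c3⟩ := mem_filter.1 b1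
    refine J_dvd H hi hi2 hM hC (Rk_of_cheap (h1 e c1 c2 c3 ?_ a2)) m
    intro hq w s hT
    exact b2 ⟨hq, w, s, hT⟩
  have := dvd_add d1 d2
  convert this using 1
  ring

/-! ### the reflection class -/

lemma RefL.tg_core (H : Gr P r) (D : RefD r i y p u p') (T : TgP i (red y p e) w s)
    (hc : IsCore i ∅ psi e) : IsCore i ∅ psi (tg w s e) := by
  have hw : 1 ≤ e w := T.hw.trans (red_le y p e w)
  have ls := T.ls H
  rw [core_congr (f := e)]
  · exact hc
  · unfold Rst
    rw [Tch_tg H ls hw]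
  · intro x hx
    refine tg_ne ?_ ?_ e
    · rintro rfl
      rcases mem_near.1 hx with h | h <;> rcases T.lw with h' | h' <;> omega
    · rintro rfl
      rcases mem_near.1 hx with h | h <;> omega

lemma spt_red (h : Spt C e) (y p : P) : Spt C (red y p e) := by
  intro x hx
  have := h x hx
  have := red_le y p e x
  omega

lemma RefL.tg_pa (H : Gr P r) (hC : Part i C) {q : ℕ} (he : e ∈ C.piAntidiag q)
    (T : TgP i (red y p e) w s) : tg w s e ∈ C.piAntidiag q := by
  have h := he
  rw [I2.mem_pa] at h ⊢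
  have hw : 1 ≤ e w := T.hw.trans (red_le y p e w)
  obtain ⟨m1, m2⟩ := T.mem H hC (spt_red h.2 y p)
  refine ⟨by rw [tg_sum (T.sw H) hw]; exact h.1, ?_⟩
  intro z hz
  rw [tg_ne (by rintro rfl; exact hz m1) (by rintro rfl; exact hz m2)]
  exact h.2 z hz

/-- the sum of the contributions of two mirror images -/
noncomputable def XR (i : ℕ) (psi : P → P) (C : Finset P) (y p u : P) (m : ℕ) (e : P → ℕ) : A :=
  IV (st i C) (fun S => Fe i (red y p e) S * GR i psi C y p u m e S)

lemma XR_dvd (H : Gr P r) (hi : 1 ≤ i) (hi2 : i + 1 ≤ r) (D : RefD r i y p u p')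
    (R : RefL e y p u p') (hM : Mat P i ∅ psi) (hC : Part (i + 1) C) {k : ℕ}
    (hk : Cheap k i (red y p e)) (m : ℕ) :
    dd ^ ((st i C).card - k) ∣ XR i psi C y p u m e := by
  have h1 := Rk_mul (Rk_of_cheap hk) (R.GR_Rk H hi hi2 D hM hC m)
  rw [add_zero] at h1
  exact Rk_IV (Rk_sub (st_sub i C) h1)

lemma XR_pair (H : Gr P r) (D : RefD r i y p u p') (R : RefL e y p u p')
    (hM : Mat P i ∅ psi) (hC : Part i C) (hs : Spt C e)
    (T : TgP i (red y p e) w s) {m k : ℕ}
    (h1 : dd ^ k ∣ XR i psi C y p u m e) (h2 : dd ^ k ∣ XR i psi C y p u m (tg w s e)) :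
    dd ^ (k + 1) ∣ XR i psi C y p u m e + XR i psi C y p u m (tg w s e) := by
  have hsC := (T.mem H hC (spt_red hs y p)).2
  have hsv : s ∈ st i C := mem_st.2 ⟨hsC, T.ls H⟩
  obtain ⟨-, hred⟩ := R.tg_ref H D T
  have h3 : XR i psi C y p u m (tg w s e) =
      IV (st i C) (fun S => Fe i (tg w s (red y p e)) S * GR i psi C y p u m e S) := by
    unfold XR
    refine IV_congr fun S => ?_
    rw [hred, (R.GR_tg H D hM T m S).1]
  rw [h3] at h2 ⊢
  unfold XR at h1 ⊢
  have hG : ∀ S, GR i psi C y p u m e (insert s S) = GR i psi C y p u m e S :=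
    fun S => (R.GR_tg H D hM T m S).2
  rcases T with ⟨x, x', a, c, T, -⟩ | ⟨x, x', a, c, T, -⟩
  · exact dvd_tg H T hsv (GR i psi C y p u m e) hG h1 h2
  · exact dvd_tgU H T hsv (GR i psi C y p u m e) hG h1 h2

open Classical in
/-- the pairs of mirror images -/
theorem asm_R1 (H : Gr P r) (hi : 1 ≤ i) (hi2 : i + 1 ≤ r) (hM : Mat P i ∅ psi)
    (hC : Part (i + 1) C) (D : RefD r i y p u p') {q : ℕ} (m : ℕ)
    (h4 : ∀ e ∈ C.piAntidiag q, IsCore i ∅ psi e → RefL e y p u p' →
      Cheap 1 i (red y p e) ∨ (Cheap 2 i (red y p e) ∧ ∃ w s, TgP i (red y p e) w s))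
    (hu : ∀ e ∈ C.piAntidiag q, IsCore i ∅ psi e → RefL e y p u p' → ∀ w s w1 s1,
      TgP i (red y p e) w s → TgP i (red y p e) w1 s1 → w1 = w ∧ s1 = s) :
    dd ^ ((st i C).card - 1) ∣
      ∑ e ∈ (C.piAntidiag q).filter (fun e => IsCore i ∅ psi e ∧ RefL e y p u p'),
        XR i psi C y p u m e := by
  have hC0 : Part i C := hC.pred
  set b := (st i C).card with hb
  rcases Nat.lt_or_ge b 2 with hb2 | hb2
  · rw [show b - 1 = 0 by omega, pow_zero]
    exact one_dvd _
  rw [← Finset.sum_filter_add_sum_filter_not _ (fun e => ∃ w s, TgP i (red y p e) w s)]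
  refine dvd_add ?_ ?_
  · have key : ∀ e ∈ ((C.piAntidiag q).filter
        (fun e => IsCore i ∅ psi e ∧ RefL e y p u p')).filter
          (fun e => ∃ w s, TgP i (red y p e) w s),
        sg2 i (red y p e) e ∈ ((C.piAntidiag q).filter
          (fun e => IsCore i ∅ psi e ∧ RefL e y p u p')).filter
            (fun e => ∃ w s, TgP i (red y p e) w s) ∧
        sg2 i (red y p (sg2 i (red y p e) e)) (sg2 i (red y p e) e) = e ∧
        dd ^ (b - 2 + 1) ∣ XR i psi C y p u m e + XR i psi C y p u m (sg2 i (red y p e) e) := by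
      intro e he
      obtain ⟨a1, w, s, a2⟩ := mem_filter.1 he
      obtain ⟨b1, b2, b3⟩ := mem_filter.1 a1
      have c1 := hu e b1 b2 b3 w s
      rw [sg2_eq a2 (fun w1 s1 h => c1 w1 s1 a2 h)]
      obtain ⟨c2, c3⟩ := b3.tg_ref H D a2
      have c4 : TgP i (red y p (tg w s e)) w s := by
        rw [c3]
        exact a2.tg H
      have c5 := RefL.tg_core H D a2 b2
      have c6 := RefL.tg_pa H hC0 b1 a2
      have hw : 1 ≤ e w := a2.hw.trans (red_le y p e w)
      have hk : ∀ e ∈ C.piAntidiag q, IsCore i ∅ psi e → RefL e y p u p' →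
          Cheap 2 i (red y p e) := by
        intro e h5 h6 h7
        rcases h4 e h5 h6 h7 with h | h
        · exact Cheap.mono (by omega) h
        · exact h.1
      refine ⟨mem_filter.2 ⟨mem_filter.2 ⟨c6, c5, c2⟩, w, s, c4⟩, ?_, ?_⟩
      · have c7 := hu _ c6 c5 c2 w s
        rw [sg2_eq c4 (fun w1 s1 h => c7 w1 s1 c4 h), tg_tg (a2.sw H) hw]
      · exact XR_pair H D b3 hM hC0 (spt_pa b1) a2
          (XR_dvd H hi hi2 D b3 hM hC (hk e b1 b2 b3) m)
          (XR_dvd H hi hi2 D c2 hM hC (hk _ c6 c5 c2) m)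
    have h5 := dvd_sum_invol (fun e => sg2 i (red y p e) e) (fun e he => (key e he).1)
      (fun e he => (key e he).2.1) (fun e he => (key e he).2.2)
    rw [show b - 2 + 1 = b - 1 by omega] at h5
    exact h5
  · refine Finset.dvd_sum fun e he => ?_
    obtain ⟨a1, a2⟩ := mem_filter.1 he
    obtain ⟨b1, b2, b3⟩ := mem_filter.1 a1
    rcases h4 e b1 b2 b3 with h | h
    · exact XR_dvd H hi hi2 D b3 hM hC h m
    · exact absurd h.2 a2

open Classical in
/-- THE REFLECTION CLASS -/
theorem asm_R (H : Gr P r) (hi : 1 ≤ i) (hi2 : i + 1 ≤ r) (hM : Mat P i ∅ psi)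
    (hC : Part (i + 1) C) (D : RefD r i y p u p') (hp : psi y = u) (hpC : p ∈ C) (hpC' : p' ∈ C)
    {q : ℕ} (m : ℕ)
    (h4 : ∀ e ∈ C.piAntidiag q, IsCore i ∅ psi e → RefL e y p u p' →
      Cheap 1 i (red y p e) ∨ (Cheap 2 i (red y p e) ∧ ∃ w s, TgP i (red y p e) w s))
    (hu : ∀ e ∈ C.piAntidiag q, IsCore i ∅ psi e → RefL e y p u p' → ∀ w s w1 s1,
      TgP i (red y p e) w s → TgP i (red y p e) w1 s1 → w1 = w ∧ s1 = s) :
    dd ^ ((st i C).card - 1) ∣
      ∑ e ∈ (C.piAntidiag q).filter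
        (fun e => IsCore i ∅ psi e ∧ (RefL e y p u p' ∨ RefU e y p u p')),
        J i psi C m e := by
  have hC0 : Part i C := hC.pred
  have hpu := D.psi_u hM hp
  have hyC : y ∈ C := hC.up hpC D.py
  have huC : u ∈ C := hC.dn hpC' (by have := D.lp' H; omega) D.up
  have e1 : (C.piAntidiag q).filter
        (fun e => IsCore i ∅ psi e ∧ (RefL e y p u p' ∨ RefU e y p u p')) =
      (C.piAntidiag q).filter (fun e => IsCore i ∅ psi e ∧ RefL e y p u p') ∪
      (C.piAntidiag q).filter (fun e => IsCore i ∅ psi e ∧ RefU e y p u p') := by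
    ext e
    simp only [mem_filter, mem_union]
    tauto
  have e2 : Disjoint ((C.piAntidiag q).filter (fun e => IsCore i ∅ psi e ∧ RefL e y p u p'))
      ((C.piAntidiag q).filter (fun e => IsCore i ∅ psi e ∧ RefU e y p u p')) := by
    rw [disjoint_left]
    intro e he he'
    have h1 := (mem_filter.1 he).2.2.eu
    have h2 := (mem_filter.1 he').2.2.hu
    omega
  have pa : ∀ e ∈ C.piAntidiag q, rho y p u p' e ∈ C.piAntidiag q := by
    intro e he
    rw [I2.mem_pa] at he ⊢
    refine ⟨by rw [D.rho_sum H]; exact he.1, ?_⟩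
    intro z hz
    rw [RefD.rho_ne e (by rintro rfl; exact hz hyC) (by rintro rfl; exact hz hpC)
      (by rintro rfl; exact hz huC) (by rintro rfl; exact hz hpC')]
    exact he.2 z hz
  have e3 : ∑ e ∈ (C.piAntidiag q).filter (fun e => IsCore i ∅ psi e ∧ RefU e y p u p'),
        J i psi C m e =
      ∑ e ∈ (C.piAntidiag q).filter (fun e => IsCore i ∅ psi e ∧ RefL e y p u p'),
        J i psi C m (rho y p u p' e) := by
    symm
    refine Finset.sum_nbij' (rho y p u p') (rho y p u p') ?_ ?_ ?_ ?_ ?_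
    · intro e he
      obtain ⟨a1, a2, a3⟩ := mem_filter.1 he
      exact mem_filter.2 ⟨pa e a1, (a3.core_iff H D hM hp).2 a2, D.LU H a3⟩
    · intro e he
      obtain ⟨a1, a2, a3⟩ := mem_filter.1 he
      refine mem_filter.2 ⟨pa e a1, ?_, D.UL H a3⟩
      rw [← (D.UL H a3).core_iff H D hM hp, D.rho_rho H]
      exact a2
    · intro e _
      exact D.rho_rho H e
    · intro e _
      exact D.rho_rho H e
    · intro e _
      rfl
  rw [e1, Finset.sum_union e2, e3, ← Finset.sum_add_distrib]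
  have e4 : ∀ e ∈ (C.piAntidiag q).filter (fun e => IsCore i ∅ psi e ∧ RefL e y p u p'),
      J i psi C m e + J i psi C m (rho y p u p' e) = XR i psi C y p u m e := by
    intro e he
    obtain ⟨a1, a2, a3⟩ := mem_filter.1 he
    exact a3.J_pair H D hM hp m
  rw [Finset.sum_congr rfl e4]
  exact asm_R1 H hi hi2 hM hC D m h4 hu

end Pool.Agent.GaussPoset.Win.So

end

/-! From `Pool.Agent.W_448w4_h10.KA` -/

section

/-!
MP_448cb3_co, G2, case B, window `j`: the window sum of a part as a sum over cores, general set `K` of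
near elements which are not matched (`W_448so_h17.PtA` has `K = ∅`).  helper10.
-/

namespace Pool.Agent.GaussPoset.Win.W4

set_option linter.unusedSectionVars false

open Finset
open Pool.Agent.GaussPoset.Win.So (IV_Fe RC_near)

universe u

variable {P : Type u} [Fintype P] [PartialOrder P] [DecidableEq P] {r i : ℕ}
variable {e f : P → ℕ} {psi : P → P} {C K : Finset P}

/-- a part is closed under the matching -/
lemma psi_memK (H : Gr P r) (hM : Mat P i K psi) (hC : Part (i + 1) C) {x : P}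
    (hx : x ∈ dbL P i ∪ dbU P i) (hxK : x ∉ K) (hxC : x ∈ C) : psi x ∈ C := by
  rcases mem_union.1 hx with h | h
  · obtain ⟨h1, h2⟩ := hM.low x h hxK
    have h3 := (mem_dbL.1 h).2
    obtain ⟨v, hv⟩ : (uc x).Nonempty := by rw [← card_pos]; omega
    have hvC : v ∈ C := hC.up hxC (mem_uc.1 hv)
    rw [← h2] at hv
    exact hC.up hvC (mem_dc.1 hv)
  · obtain ⟨h1, h2⟩ := hM.upp x h hxK
    have h3 := mem_dbU.1 h
    obtain ⟨v, hv⟩ : (dc x).Nonempty := by rw [← card_pos]; omega
    have hl := lev_dc H hv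
    have hvC : v ∈ C := hC.dn hxC (by omega) (mem_dc.1 hv)
    rw [← h2] at hv
    exact hC.dn hvC (by omega) (mem_uc.1 hv)

/-- the free near elements of the part -/
noncomputable def RK (i : ℕ) (K : Finset P) (psi : P → P) (C : Finset P) (e : P → ℕ) : Finset P :=
  Rst i K psi e ∩ C

/-- the sum over the labellings of the free near elements of the part -/
noncomputable def GK (i : ℕ) (K : Finset P) (psi : P → P) (C : Finset P) (e : P → ℕ) (m : ℕ)
    (S : Finset P) : A := ∑ l ∈ (RK i K psi C e).piAntidiag m, ∏ x ∈ RK i K psi C e, wt i e x (l x) S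

lemma mem_RK {x : P} : x ∈ RK i K psi C e ↔ x ∈ Rst i K psi e ∧ x ∈ C := by
  unfold RK; rw [mem_inter]

lemma RK_near {x : P} (hx : x ∈ RK i K psi C e) : x ∈ near P i :=
  (mem_Rst.1 (mem_RK.1 hx).1).1

lemma psi_RstK (hM : Mat P i K psi) {x : P} (hx : x ∈ Rst i K psi e)
    (hd : x ∈ dbL P i ∪ dbU P i) : psi x ∈ Rst i K psi e := by
  obtain ⟨h1, h2, h3, h4⟩ := mem_Rst.mp hx
  have h5 := hM.invol x hd h2
  refine mem_Rst.mpr ⟨?_, h5.2, fun h6 => h4 ⟨hd, h6⟩, ?_⟩
  · rcases Finset.mem_union.mp hd with h6 | h6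
    · have h7 := (mem_dbU.mp (hM.low x h6 h2).1).1
      exact mem_near.mpr (Or.inr h7)
    · have h7 := (mem_dbL.mp (hM.upp x h6 h2).1).1
      exact mem_near.mpr (Or.inl h7)
  · rintro ⟨-, h6⟩
    rw [h5.1] at h6
    exact h3 h6

theorem GK_Rk (H : Gr P r) (hi : 1 ≤ i) (hi2 : i + 1 ≤ r) (hM : Mat P i K psi)
    (hC : Part (i + 1) C) (e : P → ℕ) (m : ℕ) : Rk (lv P i) 0 (GK i K psi C e m) := by
  refine rest_prod H hi hi2 hM e (RK i K psi C e) (fun x hx => RK_near hx)
    (fun x hx => (mem_Rst.1 (mem_RK.1 hx).1).2.1) (fun x hx hd => ?_) m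
  rw [mem_RK] at hx ⊢
  exact ⟨psi_RstK hM hx.1 hd, psi_memK H hM hC hd (mem_Rst.1 hx.1).2.1 hx.2⟩

lemma GK_zero (H : Gr P r) (hir : i ≤ r) (e : P → ℕ) (S : Finset P) :
    GK i K psi C e 0 S = 1 := by
  unfold GK
  rw [Finset.piAntidiag_zero, Finset.sum_singleton]
  refine Finset.prod_eq_one fun x hx => ?_
  show wt i e x ((0 : P → ℕ) x) S = 1
  rw [Pi.zero_apply]
  exact wt_zero H hir (RK_near hx) e S

/-- the contribution of a core -/
noncomputable def JK (i : ℕ) (K : Finset P) (psi : P → P) (C : Finset P) (m : ℕ) (e : P → ℕ) : A :=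
  So.IV (st i C) (fun S => Fe i e S * GK i K psi C e m S)

lemma JK_zero (H : Gr P r) (hir : i ≤ r) (hC : Part i C) (he : Spt C e) :
    JK i K psi C 0 e = tC i C e := by
  rw [← IV_Fe H hC he]
  unfold JK
  congr 1
  funext S
  rw [GK_zero H hir, mul_one]

/-- cores with at most `k` deficits -/
theorem JK_dvd (H : Gr P r) (hi : 1 ≤ i) (hi2 : i + 1 ≤ r) (hM : Mat P i K psi)
    (hC : Part (i + 1) C) {k : ℕ} (hk : Rk (lv P i) k (Fe i e)) (m : ℕ) :
    dd ^ ((st i C).card - k) ∣ JK i K psi C m e := by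
  have h1 := Rk_mul hk (GK_Rk H hi hi2 hM hC e m)
  rw [add_zero] at h1
  exact So.Rk_IV (So.Rk_sub (So.st_sub i C) h1)

open Classical in
/-- grouping by cores inside a part -/
theorem group_K {M : Type*} [AddCommMonoid M] (H : Gr P r) (F : (P → ℕ) → M) (i : ℕ)
    (K : Finset P) (psi : P → P) (C : Finset P) (n : ℕ) :
    ∑ e ∈ C.piAntidiag n, F e =
      ∑ q ∈ range (n + 1), ∑ e0 ∈ (C.piAntidiag q).filter (IsCore i K psi),
        ∑ l ∈ (RK i K psi C e0).piAntidiag (n - q), F (e0 + l) := by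
  classical
  have h := core_group H (fun e => if Spt C e then F e else 0) i K psi n
  have h1 : ∑ e ∈ (univ : Finset P).piAntidiag n, (if Spt C e then F e else 0) =
      ∑ e ∈ C.piAntidiag n, F e := by
    rw [← Finset.sum_filter]
    refine Finset.sum_congr ?_ fun _ _ => rfl
    ext e
    rw [mem_filter, I2.mem_pa, I2.mem_pa]
    constructor
    · rintro ⟨⟨h1, -⟩, h2⟩
      exact ⟨h1, h2⟩
    · rintro ⟨h1, h2⟩
      exact ⟨⟨h1, fun x hx => absurd (mem_univ x) hx⟩, h2⟩
  rw [h1] at h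
  rw [h]
  refine Finset.sum_congr rfl fun q _ => ?_
  have h2 : (C.piAntidiag q).filter (IsCore i K psi) =
      (((univ : Finset P).piAntidiag q).filter (IsCore i K psi)).filter (Spt C) := by
    ext e
    rw [mem_filter, mem_filter, mem_filter, I2.mem_pa, I2.mem_pa]
    constructor
    · rintro ⟨⟨h1, h2⟩, h3⟩
      exact ⟨⟨⟨h1, fun x hx => absurd (mem_univ x) hx⟩, h3⟩, h2⟩
    · rintro ⟨⟨⟨h1, -⟩, h3⟩, h2⟩
      exact ⟨⟨h1, h2⟩, h3⟩
  rw [h2]
  conv_rhs => rw [Finset.sum_filter]
  refine Finset.sum_congr rfl fun e0 _ => ?_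
  · by_cases hs : Spt C e0
    · rw [if_pos hs, ← Finset.sum_filter]
      refine Finset.sum_congr ?_ fun _ _ => rfl
      ext l
      rw [mem_filter, I2.mem_pa, I2.mem_pa]
      constructor
      · rintro ⟨⟨a1, a2⟩, a3⟩
        refine ⟨a1, fun x hx => ?_⟩
        rw [mem_RK, not_and_or] at hx
        rcases hx with hx | hx
        · exact a2 x hx
        · have := a3 x hx
          rw [Pi.add_apply] at this
          omega
      · rintro ⟨a1, a2⟩
        have hl : ∀ x, x ∉ C → l x = 0 := fun x hx => a2 x (fun h => hx (mem_RK.1 h).2)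
        refine ⟨⟨a1, fun x hx => a2 x (fun h => hx (mem_RK.1 h).1)⟩, fun x hx => ?_⟩
        rw [Pi.add_apply, hs x hx, hl x hx]
    · rw [if_neg hs]
      refine Finset.sum_eq_zero fun l _ => ?_
      rw [if_neg]
      intro h
      apply hs
      intro x hx
      have := h x hx
      rw [Pi.add_apply] at this
      omega

open Classical in
/-- THE WINDOW SUM OF A PART as a sum over cores -/
theorem ZC_coresK (H : Gr P r) (hir : i ≤ r) (K : Finset P) (psi : P → P) (hC : Part i C) (n : ℕ) :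
    ZC i C n = ∑ q ∈ range (n + 1), ∑ e ∈ (C.piAntidiag q).filter (IsCore i K psi),
      JK i K psi C (n - q) e := by
  unfold ZC
  rw [group_K H (tC i C) i K psi C n]
  refine Finset.sum_congr rfl fun q _ => Finset.sum_congr rfl fun e he => ?_
  rw [mem_filter, I2.mem_pa] at he
  obtain ⟨⟨h1, h2⟩, h3⟩ := he
  have h4 : ∀ l ∈ (RK i K psi C e).piAntidiag (n - q), tC i C (e + l) =
      So.IV (st i C) (fun S => Fe i e S * ∏ x ∈ RK i K psi C e, wt i e x (l x) S) := by
    intro l hl
    rw [I2.mem_pa] at hl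
    have hs : Spt C (e + l) := by
      intro x hx
      rw [Pi.add_apply, h2 x hx, hl.2 x (fun h => hx (mem_RK.1 h).2)]
    rw [← IV_Fe H hC hs]
    congr 1
    funext S
    refine fact_many H hir (RK i K psi C e) (fun x hx => RK_near hx) (fun x hx => ?_)
      (fun x hx => ?_) l hl.2 S
    · exact (mem_Rst.1 (mem_RK.1 hx).1).2.2.1
    · exact h3 x (mem_RK.1 hx).1
  rw [Finset.sum_congr rfl h4]
  unfold JK GK So.IV
  rw [Finset.sum_comm]
  refine Finset.sum_congr rfl fun S _ => ?_
  rw [← Finset.mul_sum, ← Finset.mul_sum]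

open Classical in
/-- if all cores of energy less than `n` have at most `k` deficits, then modulo `dd ^ (b - k)` only the
cores of energy `n` with more than `k` deficits count -/
theorem ZC_subK (H : Gr P r) (hi : 1 ≤ i) (hi2 : i + 1 ≤ r) (hM : Mat P i K psi)
    (hC : Part (i + 1) C) {n k : ℕ}
    (hk : ∀ e : P → ℕ, IsCore i K psi e → Spt C e → ∑ x, e x < n → Cheap k i e) :
    dd ^ ((st i C).card - k) ∣ ZC i C n -
      ∑ e ∈ (C.piAntidiag n).filter (fun e => IsCore i K psi e ∧ ¬ Cheap k i e), tC i C e := by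
  have hC' : Part i C := ⟨fun h1 h2 => hC.up h1 h2, fun h1 h2 h3 => hC.dn h1 (by omega) h3⟩
  have hir : i ≤ r := by omega
  rw [ZC_coresK H hir K psi hC' n, Finset.sum_range_succ, Nat.sub_self, add_sub_assoc]
  refine dvd_add ?_ ?_
  · refine Finset.dvd_sum fun q hq => Finset.dvd_sum fun e he => ?_
    rw [mem_range] at hq
    rw [mem_filter, I2.mem_pa] at he
    exact JK_dvd H hi hi2 hM hC (Rk_of_cheap (hk e he.2 he.1.2 (by rw [he.1.1]; exact hq))) _
  · have h1 : ∑ e ∈ (C.piAntidiag n).filter (IsCore i K psi), JK i K psi C 0 e =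
        ∑ e ∈ (C.piAntidiag n).filter (fun e => IsCore i K psi e ∧ ¬ Cheap k i e), tC i C e +
        ∑ e ∈ (C.piAntidiag n).filter (fun e => IsCore i K psi e ∧ Cheap k i e), tC i C e := by
      have h2 : ∀ e ∈ (C.piAntidiag n).filter (IsCore i K psi), JK i K psi C 0 e = tC i C e := by
        intro e he
        rw [mem_filter, I2.mem_pa] at he
        exact JK_zero H hir hC' he.1.2
      rw [Finset.sum_congr rfl h2,
        ← Finset.sum_filter_add_sum_filter_not ((C.piAntidiag n).filter (IsCore i K psi))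
          (fun e => ¬ Cheap k i e), Finset.filter_filter, Finset.filter_filter]
      simp only [not_not]
    rw [h1, add_sub_cancel_left]
    refine Finset.dvd_sum fun e he => ?_
    rw [mem_filter, I2.mem_pa] at he
    rw [← JK_zero (K := K) (psi := psi) H hir hC' he.1.2]
    exact JK_dvd H hi hi2 hM hC (Rk_of_cheap he.2.2) 0

end Pool.Agent.GaussPoset.Win.W4

end
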