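import Mathlib
import Pool.Agent.W_448zz_h61.Ns
import Pool.Agent.W_448zz_h61.M011
import Pool.Agent.W_448zz_h61.M017
import Pool.Agent.W_448zz_h61.M026
import Pool.Agent.W_448zz_h61.M027
import Pool.Agent.W_448zz_h61.M087

/-! From `Pool.Agent.W_448ec_h63.EJ` -/

section

/-!
The window series of a part is the window sum of the subposet.
-/

namespace Pool.Agent.GaussPoset

set_option linter.unusedSectionVars false

open Finset Win

universe u

variable {P : Type u} [Fintype P] [PartialOrder P] [DecidableEq P] {r i : ℕ} {C : Finset P}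

lemma part_up (hC : Part i C) {x y : P} (hx : x ∈ C) (hxy : x ≤ y) : y ∈ C := by
  refine normb_induct (y := y) (C := fun x => x ∈ C → y ∈ C) (fun h => h) ?_ x hxy hx
  intro x z hxz _ ih hx
  exact ih (hC.up hx hxz)

lemma part_dn (H : Gr P r) (hC : Part i C) {x y : P} (hy : y ∈ C) (hxy : x ≤ y)
    (hx : lev x ≤ i) : x ∈ C := by
  refine normb_induct (y := y) (C := fun x => lev x ≤ i → x ∈ C) (fun _ => hy) ?_ x hxy hx
  intro x z hxz _ ih hx
  have h1 := lev_uc H (mem_uc.2 hxz)
  exact hC.dn (ih (by omega)) (by omega) hxz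

/-- the subposet of a part -/
abbrev PQ (C : Finset P) : Type u := {x : P // x ∈ C}

lemma lev_PQ (hC : Part i C) (x : PQ C) : lev x = lev (x : P) :=
  lev_subtype (p := fun x : P => x ∈ C) (fun _ _ hac ha => part_up hC ha hac) x

/-- restriction -/
def resQ (C : Finset P) (e : P → ℕ) : PQ C → ℕ := fun x => e x

/-- extension by zero -/
def extQ (C : Finset P) (e : PQ C → ℕ) : P → ℕ := fun x => if h : x ∈ C then e ⟨x, h⟩ else 0

lemma res_ext (e : PQ C → ℕ) : resQ C (extQ C e) = e := by
  funext x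
  unfold resQ extQ
  rw [dif_pos x.2]

lemma ext_res {e : P → ℕ} (he : Spt C e) : extQ C (resQ C e) = e := by
  funext x
  unfold resQ extQ
  split_ifs with h
  · rfl
  · exact (he x h).symm

lemma spt_ext (e : PQ C → ℕ) : Spt C (extQ C e) := by
  intro x hx
  unfold extQ
  rw [dif_neg hx]

lemma sum_res {e : P → ℕ} : ∑ x : PQ C, resQ C e x = ∑ x ∈ C, e x := by
  unfold resQ
  rw [← Finset.sum_subtype C (fun x => Iff.rfl) e]

section one

variable {e : P → ℕ}

lemma rho_res (hC : Part i C) (x : PQ C) : rho i (resQ C e) x = rho i e (x : P) := by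
  unfold rho resQ
  rw [lev_PQ hC]

lemma rho_out (he : Spt C e) {x : P} (hx : x ∉ C) : rho i e x = -((i - lev x : ℕ) : ℤ) := by
  unfold rho
  rw [he x hx]
  simp

lemma FI_res (hC : Part i C) (he : Spt C e) (x : PQ C) :
    FI i (resQ C e) x ↔ FI i e (x : P) := by
  unfold FI
  rw [rho_res hC]
  constructor
  · rintro (h | ⟨z, hz, h⟩)
    · exact Or.inl h
    · rw [rho_res hC] at h
      exact Or.inr ⟨z, hz, h⟩
  · rintro (h | ⟨z, hz, h⟩)
    · exact Or.inl h
    · by_cases hzC : z ∈ C
      · refine Or.inr ⟨⟨z, hzC⟩, hz, ?_⟩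
        rw [rho_res hC]
        exact h
      · left
        rw [rho_out he hzC] at h
        omega

lemma FA_res (hC : Part i C) (x : PQ C) : FA i (resQ C e) x ↔ FA i e (x : P) := by
  unfold FA
  rw [rho_res hC]
  constructor
  · rintro ⟨y, hy, h⟩
    rw [rho_res hC] at h
    exact ⟨y, hy, h⟩
  · rintro ⟨y, hy, h⟩
    refine ⟨⟨y, part_up hC x.2 hy.le⟩, hy, ?_⟩
    rw [rho_res hC]
    exact h

lemma FI_out (hC : Part i C) (he : Spt C e) {x : P} (hx : x ∉ C) : FI i e x ↔ lev x < i := by
  unfold FI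
  rw [rho_out he hx]
  constructor
  · rintro (h | ⟨z, hz, h⟩)
    · omega
    · have hzC : z ∉ C := fun h' => hx (part_up hC h' hz.le)
      rw [rho_out he hzC] at h
      omega
  · intro h
    left
    omega

lemma FA_out (H : Gr P r) (hC : Part i C) (he : Spt C e) {x : P} (hx : x ∉ C) :
    FA i e x ↔ i < lev x := by
  unfold FA
  rw [rho_out he hx]
  constructor
  · rintro ⟨y, hy, h⟩
    by_contra hcon
    have hyC : y ∉ C := fun h' => hx (part_dn H hC h' hy.le (by omega))
    rw [rho_out he hyC] at h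
    have := lev_strictAnti hy
    omega
  · intro h
    obtain ⟨y, hy, hyl⟩ := exists_above' (x := x) (j := i) h.le
    refine ⟨y, lt_of_le_of_ne hy (by rintro rfl; omega), ?_⟩
    unfold rho
    rw [hyl]
    omega

lemma adm_res (H : Gr P r) (hC : Part i C) (he : Spt C e) :
    Adm i (resQ C e) ↔ Adm i e := by
  unfold Adm
  constructor
  · intro h x
    by_cases hx : x ∈ C
    · have := h ⟨x, hx⟩
      rwa [FI_res hC he, FA_res hC] at this
    · rw [FI_out hC he hx, FA_out H hC he hx]
      omega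
  · intro h x
    rw [FI_res hC he, FA_res hC]
    exact h x

open Classical in
lemma card_res (R : P → Prop) : (univ.filter (fun x : P => R x)).card =
    (univ.filter (fun x : PQ C => R x)).card + (univ.filter (fun x : P => x ∉ C ∧ R x)).card := by
  have h1 : (univ.filter (fun x : PQ C => R x)).card =
      (univ.filter (fun x : P => x ∈ C ∧ R x)).card := by
    refine Finset.card_bij (fun x _ => (x : P)) ?_ ?_ ?_
    · intro x hx
      rw [mem_filter] at hx ⊢
      exact ⟨mem_univ _, x.2, hx.2⟩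
    · intro x _ y _ h
      exact Subtype.ext h
    · intro x hx
      rw [mem_filter] at hx
      exact ⟨⟨x, hx.2.1⟩, by rw [mem_filter]; exact ⟨mem_univ _, hx.2.2⟩, rfl⟩
  rw [h1, ← card_union_of_disjoint]
  · congr 1
    ext x
    rw [mem_union, mem_filter, mem_filter, mem_filter]
    tauto
  · rw [disjoint_left]
    intro x hx hx'
    rw [mem_filter] at hx hx'
    exact hx'.2.1 hx.2.1

open Classical in
/-- the number of elements outside `C` above the window -/
noncomputable def nOut (i : ℕ) (C : Finset P) : ℕ := (univ.filter (fun x : P => x ∉ C ∧ lev x < i)).card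

open Classical in
/-- the number of sites outside `C` -/
noncomputable def sOut (i : ℕ) (C : Finset P) : ℕ := (univ.filter (fun x : P => x ∉ C ∧ lev x = i)).card

lemma nf_res (hC : Part i C) (he : Spt C e) : nf i e = nf i (resQ C e) + nOut i C := by
  classical
  unfold nf nOut
  rw [card_res (C := C)]
  congr 1
  · refine congrArg Finset.card (Finset.filter_congr fun x _ => ?_)
    rw [FI_res hC he]
  · refine congrArg Finset.card (Finset.filter_congr fun x _ => ?_)
    constructor
    · rintro ⟨h1, h2⟩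
      exact ⟨h1, (FI_out hC he h1).1 h2⟩
    · rintro ⟨h1, h2⟩
      exact ⟨h1, (FI_out hC he h1).2 h2⟩

lemma pk_res (H : Gr P r) (hC : Part i C) (he : Spt C e) :
    (Pk i e).card = (Pk i (resQ C e)).card + sOut i C := by
  classical
  have h0 : (Pk i e).card = (univ.filter (fun x : P => ¬ FI i e x ∧ ¬ FA i e x)).card := by
    unfold Pk
    congr
  have h1 := card_res (C := C) (fun x : P => ¬ FI i e x ∧ ¬ FA i e x)
  have h2 : (univ.filter (fun x : P => ¬ FI i e x ∧ ¬ FA i e x)).card =
      (univ.filter (fun x : PQ C => ¬ FI i e x ∧ ¬ FA i e x)).card +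
      (univ.filter (fun x : P => x ∉ C ∧ ¬ FI i e x ∧ ¬ FA i e x)).card := by
    convert h1
  rw [h0, h2]
  unfold Pk sOut
  congr 1
  · refine congrArg Finset.card (Finset.filter_congr fun x _ => ?_)
    rw [FI_res hC he, FA_res hC]
  · refine congrArg Finset.card (Finset.filter_congr fun x _ => ?_)
    constructor
    · rintro ⟨h1, h2, h3⟩
      rw [FI_out hC he h1] at h2
      rw [FA_out H hC he h1] at h3
      exact ⟨h1, by omega⟩
    · rintro ⟨h1, h2⟩
      refine ⟨h1, ?_, ?_⟩
      · rw [FI_out hC he h1]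
        omega
      · rw [FA_out H hC he h1]
        omega

end one

/-- the window sum of the subposet -/
theorem sum_PQ (H : Gr P r) (hC : Part i C) (n : ℕ) :
    ∑ e ∈ C.piAntidiag n, (by classical exact if Adm i e then
      (Polynomial.X : Polynomial ℤ) ^ (nf i e) * (1 + Polynomial.X) ^ (Pk i e).card else 0) =
    Polynomial.X ^ (nOut i C) * (1 + Polynomial.X) ^ (sOut i C) * Z (PQ C) i n := by
  classical
  unfold Z
  rw [Finset.mul_sum]
  symm
  refine Finset.sum_nbij' (fun e => extQ C e) (fun e => resQ C e) ?_ ?_ ?_ ?_ ?_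
  · intro e he
    rw [mem_piAntidiag] at he ⊢
    refine ⟨?_, fun x hx => ?_⟩
    · rw [← sum_res (C := C) (e := extQ C e), res_ext]
      exact he.1
    · by_contra hxC
      exact hx (spt_ext e x hxC)
  · intro e he
    rw [mem_piAntidiag] at he ⊢
    refine ⟨?_, fun x _ => mem_univ x⟩
    rw [← he.1]
    exact sum_res
  · intro e _
    exact res_ext e
  · intro e he
    exact ext_res (spt_of_mem he)
  · intro e _
    have hs := spt_ext (C := C) e
    have h1 := adm_res (i := i) H hC hs
    have h2 := nf_res (i := i) hC hs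
    have h3 := pk_res (i := i) H hC hs
    rw [res_ext] at h1 h2 h3
    by_cases hA : Adm i e
    · rw [if_pos hA, if_pos (h1.1 hA), h2, h3]
      ring
    · rw [if_neg hA, if_neg (fun h => hA (h1.2 h)), mul_zero]

lemma card_sOut : (lv P i).card = (st i C).card + sOut i C := by
  classical
  unfold sOut
  rw [← card_union_of_disjoint]
  · congr 1
    ext x
    rw [mem_union, mem_lv, mem_st, mem_filter]
    constructor
    · intro h
      by_cases hx : x ∈ C
      · exact Or.inl ⟨hx, h⟩
      · exact Or.inr ⟨mem_univ _, hx, h⟩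
    · rintro (h | h)
      · exact h.2
      · exact h.2.2
  · rw [disjoint_left]
    intro x hx hx'
    rw [mem_st] at hx
    rw [mem_filter] at hx'
    exact hx'.2.1 hx.1

/-- the term of the whole poset and of the part -/
lemma trm_tC (H : Gr P r) (hC : Part i C) {e : P → ℕ} (he : Spt C e) :
    trm i e = dd ^ (sOut i C) * tC i C e := by
  unfold trm tC
  split_ifs with hd
  · have h1 := card_le_card (AL_sub hC he)
    have h2 := card_le_card (AU_sub H hC he)
    have h3 : (AL i e).card + (AU i e).card ≤ (st i C).card := by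
      rw [← card_union_of_disjoint hd]
      exact card_le_card (union_subset (AL_sub hC he) (AU_sub H hC he))
    have h4 := card_sOut (i := i) (C := C)
    have h5 : (lv P i).card - (AL i e).card - (AU i e).card =
        sOut i C + ((st i C).card - (AL i e).card - (AU i e).card) := by omega
    rw [h5, pow_add]
    ring
  · rw [mul_zero]

/-- THE BRIDGE -/
theorem ZC_PQ (H : Gr P r) (hi : i ≤ r) (hC : Part i C) (n : ℕ) :
    ZC i C n = xx ^ (nOut i C) * xi ^ (below P i) * ev (Z (PQ C) i n) := by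
  classical
  have h1 := congrArg ev (sum_PQ H hC n)
  rw [map_sum] at h1
  have h2 := congrArg (fun y => y * xi ^ (below P i)) h1
  simp only [Finset.sum_mul] at h2
  have h3 : ∑ e ∈ C.piAntidiag n, trm i e = dd ^ (sOut i C) * ZC i C n := by
    unfold ZC
    rw [Finset.mul_sum]
    exact Finset.sum_congr rfl fun e he => trm_tC H hC (spt_of_mem he)
  have h4 : ∑ e ∈ C.piAntidiag n, trm i e = ev (Polynomial.X ^ (nOut i C) *
      (1 + Polynomial.X) ^ (sOut i C) * Z (PQ C) i n) * xi ^ (below P i) := by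
    rw [← h2]
    refine Finset.sum_congr rfl fun e _ => ?_
    rw [← ev_term H hi e]
  rw [h3, map_mul, map_mul, map_pow, map_pow, ev_X, ev_one_add] at h4
  have h5 : dd ^ (sOut i C) * ZC i C n = dd ^ (sOut i C) *
      (xx ^ (nOut i C) * xi ^ (below P i) * ev (Z (PQ C) i n)) := by
    rw [h4]
    ring
  have h6 : (dd : A) ^ (sOut i C) ≠ 0 := by
    unfold dd
    exact pow_ne_zero _ PowerSeries.X_ne_zero
  exact mul_left_cancel₀ h6 h5

/-- divisibility -/
theorem dvd_ZC_of (H : Gr P r) (hi : i ≤ r) (hC : Part i C) {n b : ℕ}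
    (h : (1 + Polynomial.X : Polynomial ℤ) ^ b ∣ Z (PQ C) i n) : dd ^ b ∣ ZC i C n := by
  rw [ZC_PQ H hi hC]
  have h1 := map_dvd ev h
  rw [map_pow, ev_one_add] at h1
  exact Dvd.dvd.mul_left h1 _

end Pool.Agent.GaussPoset

end

/-! From `Pool.Agent.W_448xc_h84.XgD` -/

section

/-!
# The general exchange (MP_448cb3_co): the contributions of the cores
-/

namespace Pool.Agent.GaussPoset.Win.Xg

set_option linter.unusedSectionVars false

open Finset Kd W4

universe u

variable {P : Type u} [Fintype P] [PartialOrder P] [DecidableEq P] {r i : ℕ}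
variable {dn up : P → Finset P} {lam : P → ℤ} {d w w2 p x q d' x' : P} {e l : P → ℕ}
variable {psi : P → P} {C K : Finset P}

section multi

/-- many independent exchanges -/
theorem multi {ι α : Type*} [DecidableEq ι] (D : Finset ι) (S : Finset α) (σ : ι → α → α)
    (u : ι → α → A) :
    ∀ (T : α → A) (N : ℕ), (∀ t ∈ D, ∀ e ∈ S, σ t e ∈ S ∧ σ t (σ t e) = e) →
    (∀ t ∈ D, ∀ e ∈ S, T (σ t e) = u t e * T e) → (∀ t ∈ D, ∀ e ∈ S, dd ∣ 1 + u t e) →
    (∀ t ∈ D, ∀ t' ∈ D, t ≠ t' → ∀ e ∈ S, u t (σ t' e) = u t e) →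
    (∀ e ∈ S, dd ^ N ∣ T e) → dd ^ (N + D.card) ∣ ∑ e ∈ S, T e := by
  classical
  induction D using Finset.induction_on with
  | empty =>
    intro T N _ _ _ _ hN
    rw [card_empty, add_zero]
    exact dvd_sum hN
  | insert t D ht ih =>
    intro T N hσ hT hu hc hN
    have h1 := ih (fun e => T e + T (σ t e)) (N + 1)
      (fun t' ht' e he => hσ t' (mem_insert_of_mem ht') e he) ?_
      (fun t' ht' e he => hu t' (mem_insert_of_mem ht') e he)
      (fun a ha b hb hab e he => hc a (mem_insert_of_mem ha) b (mem_insert_of_mem hb) hab e he) ?_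
    · have h2 : ∑ e ∈ S, T (σ t e) = ∑ e ∈ S, T e := by
        refine sum_bij' (fun e _ => σ t e) (fun e _ => σ t e)
          (fun e he => (hσ t (mem_insert_self _ _) e he).1)
          (fun e he => (hσ t (mem_insert_self _ _) e he).1)
          (fun e he => (hσ t (mem_insert_self _ _) e he).2)
          (fun e he => (hσ t (mem_insert_self _ _) e he).2) (fun e _ => rfl)
      rw [sum_add_distrib, h2, ← two_mul] at h1
      rw [card_insert_of_notMem ht, show N + (D.card + 1) = N + 1 + D.card by ring]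
      unfold dd at h1 ⊢
      rw [PowerSeries.X_pow_dvd_iff] at h1 ⊢
      intro m hm
      have h5 := h1 m hm
      rw [show (2 : A) * ∑ e ∈ S, T e = ∑ e ∈ S, T e + ∑ e ∈ S, T e by ring, map_add] at h5
      omega
    · intro t' ht' e he
      have hne : t' ≠ t := by
        rintro rfl
        exact ht ht'
      have a1 := hT t' (mem_insert_of_mem ht') e he
      have a2 := hT t (mem_insert_self _ _) e he
      have a3 := hT t (mem_insert_self _ _) (σ t' e) (hσ t' (mem_insert_of_mem ht') e he).1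
      have a4 := hc t (mem_insert_self _ _) t' (mem_insert_of_mem ht') hne.symm e he
      show T (σ t' e) + T (σ t (σ t' e)) = u t' e * (T e + T (σ t e))
      rw [a3, a4, a1, a2]
      ring
    · intro e he
      show dd ^ (N + 1) ∣ T e + T (σ t e)
      rw [hT t (mem_insert_self _ _) e he, show T e + u t e * T e = (1 + u t e) * T e by ring,
        pow_succ']
      exact mul_dvd_mul (hu t (mem_insert_self _ _) e he) (hN e he)

end multi

section add

/-- adding labels on free near elements, one side -/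
lemma Exo.add (S : Side dn up lam) (T : Tee dn up lam d w w2 p x q)
    (E : Exo dn up d w w2 p x q e) (hl : ∀ z, l z ≠ 0 → lam z = 1 ∨ lam z = -1)
    (h1 : l w = 0) (h2 : l w2 = 0) (h3 : ∀ u ∈ up x, l u = 0) :
    Exo dn up d w w2 p x q (e + l) := by
  have hv := T.lv S
  have hld := T.ld
  have z0 : ∀ z, lam z ≠ 1 → lam z ≠ -1 → (e + l) z = e z := by
    intro z g1 g2
    have : l z = 0 := by
      by_contra hc
      rcases hl z hc with g | g
      · exact g1 g
      · exact g2 g
    rw [Pi.add_apply, this, add_zero]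
  have ed := z0 d (by omega) (by omega)
  have ex := z0 x (by omega) (by omega)
  have ep := z0 p (by omega) (by omega)
  have eq := z0 q (by omega) (by omega)
  have ew : (e + l) w = e w := by rw [Pi.add_apply, h1, add_zero]
  have ew2 : (e + l) w2 = e w2 := by rw [Pi.add_apply, h2, add_zero]
  have ech : ∀ y, lam y = 1 → ∀ z ∈ dn y, (e + l) z = e z := by
    intro y hy z hz
    have := S.lm hz
    exact z0 z (by omega) (by omega)
  refine ⟨by rw [ed]; exact E.pos, fun t ht => ?_, fun u hu => ?_, ?_, ?_, ?_⟩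
  · have := S.lm ht
    rw [z0 t (by omega) (by omega), ed, ex]
    exact E.t1 t ht
  · rw [Pi.add_apply, h3 u hu, add_zero, ed, ex]
    exact E.u1 u hu
  · have h := E.s1
    unfold SdO at h ⊢
    rw [ed, ex, ep, ew]
    exact h.imp id fun g => ⟨fun z hz hn => by rw [ech w hv.1 z hz]; exact g.1 z hz hn, g.2⟩
  · have h := E.s2
    unfold SdO at h ⊢
    rw [ed, ex, eq, ew2]
    exact h.imp id fun g => ⟨fun z hz hn => by rw [ech w2 hv.2.1 z hz]; exact g.1 z hz hn, g.2⟩
  · have h := E.act
    unfold Act at h ⊢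
    rw [ed, ex, ew, ew2]
    exact h

lemma Can.add (S : Side dn up lam) (h : Can dn up lam e d x)
    (hl : ∀ z, l z ≠ 0 → lam z = 1 ∨ lam z = -1)
    (h1 : ∀ y ∈ up d, l y = 0) (h3 : ∀ u ∈ up x, l u = 0) : Can dn up lam (e + l) d x := by
  obtain ⟨w, w2, p, q, T, E, hr⟩ := h
  refine ⟨w, w2, p, q, T, E.add S T hl (h1 w (by rw [T.ud]; simp)) (h1 w2 (by rw [T.ud]; simp)) h3,
    fun z hz hlt => ?_⟩
  have hv := T.lv S
  have h5 : l z = 0 := by
    by_contra hc
    have := S.lm (S.du.2 (show w ∈ up z by rw [hz]; simp))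
    rcases hl z hc with g | g <;> omega
  rw [Pi.add_apply, h5, add_zero]
  exact hr z hz hlt

end add

section cores

variable (H : Gr P r)
include H

/-- the touched near elements are not changed -/
lemma Tch_xc (h : CanD i e d x) : Tch i (xc d x e) = Tch i e := by
  have hv := h.lvl H
  have key : ∀ z, (i + 2 ≤ lev z ∨ lev z + 2 ≤ i) → (0 < xc d x e z ↔ 0 < e z) := by
    intro z hz
    by_cases hd : z = d
    · subst hd
      rw [xc_d]
      constructor <;> intro _ <;> omega
    · rw [xc_of hd (by rintro rfl; omega)]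
  ext y
  rw [mem_Tch, mem_Tch]
  refine or_congr (and_congr_right fun hy => exists_congr fun z => and_congr_right fun hz => ?_)
    (and_congr_right fun hy => exists_congr fun z => and_congr_right fun hz => ?_)
  · have := lev_dc H (mem_dc.2 hz)
    exact key z (by omega)
  · have := lev_uc H (mem_uc.2 hz)
    exact key z (by omega)

lemma Rst_xc (h : CanD i e d x) : Rst i K psi (xc d x e) = Rst i K psi e := by
  ext y
  rw [mem_Rst, mem_Rst, Tch_xc H h]

lemma core_xc (h : CanD i e d x) : IsCore i K psi (xc d x e) ↔ IsCore i K psi e := by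
  have hv := h.lvl H
  unfold IsCore
  rw [Rst_xc H h]
  refine forall_congr' fun y => forall_congr' fun hy => ?_
  have hn := mem_near.1 (mem_Rst.1 hy).1
  rw [xc_of (by rintro rfl; omega) (by rintro rfl; omega)]

/-- the place of an exchange is not near a free element -/
def Clr (i : ℕ) (K : Finset P) (psi : P → P) (e : P → ℕ) (x : P) : Prop :=
  ∀ u ∈ uc x ∪ dc x, u ∉ Rst i K psi e

/-- adding labels on free near elements -/
lemma CanD.add (h : CanD i e d x) (hc : Clr i K psi e x)
    (hl : ∀ z, l z ≠ 0 → z ∈ Rst i K psi e) :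
    CanD i (e + l) d x ∧ xc d x (e + l) = xc d x e + l ∧ un i d x (e + l) = un i d x e := by
  have hv := h.lvl H
  have h1 : ∀ z, l z ≠ 0 → lev z = i + 1 ∨ lev z + 1 = i := fun z hz =>
    mem_near.1 (mem_Rst.1 (hl z hz)).1
  have h2 : ∀ z, z ∉ Rst i K psi e → l z = 0 := by
    intro z hz
    by_contra hc'
    exact hz (hl z hc')
  have hld : l d = 0 := by
    by_contra hc'
    have := h1 d hc'
    omega
  have hlx : l x = 0 := by
    by_contra hc'
    have := h1 x hc'
    omega
  -- the near elements over the place are touched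
  have h3 : ∀ y ∈ uc d ∪ dc d, l y = 0 := by
    intro y hy
    rcases mem_union.1 hy with g | g
    · have hl1 := lev_uc H g
      by_cases h5 : lev d = i + 2
      · refine h2 y fun hR => (mem_Rst.1 hR).2.2.1 (mem_Tch.2 (Or.inl ⟨by omega, d, mem_uc.1 g, ?_⟩))
        omega
      · by_contra hc'
        have := h1 y hc'
        omega
    · have hl1 := lev_dc H g
      by_cases h5 : lev d + 2 = i
      · refine h2 y fun hR => (mem_Rst.1 hR).2.2.1 (mem_Tch.2 (Or.inr ⟨by omega, d, mem_dc.1 g, ?_⟩))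
        omega
      · by_contra hc'
        have := h1 y hc'
        omega
  refine ⟨?_, ?_, ?_⟩
  · rcases h with h | h
    · refine Or.inl (h.add (sideL H i) (fun z hz => ?_)
        (fun y hy => h3 y (mem_union_left _ hy)) (fun u hu => h2 u (hc u (mem_union_left _ hu))))
      have := h1 z hz
      unfold laL
      omega
    · refine Or.inr (h.add (sideU H i) (fun z hz => ?_)
        (fun y hy => h3 y (mem_union_right _ hy)) (fun u hu => h2 u (hc u (mem_union_right _ hu))))
      have := h1 z hz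
      unfold laU
      omega
  · funext y
    by_cases hd : y = d
    · subst hd
      rw [Pi.add_apply, xc_d, xc_d, Pi.add_apply, hlx, hld]
    · have nx : x ≠ d := by rintro rfl; omega
      by_cases hx : y = x
      · subst hx
        rw [Pi.add_apply, xc_x nx, xc_x nx, Pi.add_apply, hld, hlx]
        omega
      · rw [Pi.add_apply, xc_of hd hx, xc_of hd hx, Pi.add_apply]
  · refine un_congr (by rw [Pi.add_apply, hld, add_zero]) (by rw [Pi.add_apply, hlx, add_zero]) ?_
    intro y hy
    rw [Pi.add_apply, h3 y hy, add_zero]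

/-- the contribution of a core as a sum -/
lemma JK_sum (hir : i ≤ r) (hC : Part i C) (hs : Spt C e) (hc : IsCore i K psi e) (m : ℕ) :
    JK i K psi C m e = ∑ l ∈ (RK i K psi C e).piAntidiag m, tC i C (e + l) := by
  have h4 : ∀ l ∈ (RK i K psi C e).piAntidiag m, tC i C (e + l) =
      So.IV (st i C) (fun S => Fe i e S * ∏ x ∈ RK i K psi C e, wt i e x (l x) S) := by
    intro l hl
    rw [I2.mem_pa] at hl
    have hs' : Spt C (e + l) := by
      intro x hx
      rw [Pi.add_apply, hs x hx, hl.2 x (fun h => hx (mem_RK.1 h).2)]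
    rw [← So.IV_Fe H hC hs']
    congr 1
    funext S
    refine fact_many H hir (RK i K psi C e) (fun x hx => RK_near hx) (fun x hx => ?_)
      (fun x hx => ?_) l hl.2 S
    · exact (mem_Rst.1 (mem_RK.1 hx).1).2.2.1
    · exact hc x (mem_RK.1 hx).1
  rw [Finset.sum_congr rfl h4]
  unfold JK GK So.IV
  rw [Finset.sum_comm]
  refine Finset.sum_congr rfl fun S _ => ?_
  rw [← Finset.mul_sum, ← Finset.mul_sum]

/-- the support of an exchange -/
lemma CanD.spt (h : CanD i e d x) (hC : Part i C) (he : Spt C e) :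
    d ∈ C ∧ x ∈ C ∧ Spt C (xc d x e) := by
  have hv := h.lvl H
  have hd : d ∈ C := by
    by_contra hcon
    have := he d hcon
    omega
  have hx : x ∈ C := by
    rcases h with ⟨w, w2, p, q, T, E, hr⟩ | ⟨w, w2, p, q, T, E, hr⟩
    · have hw : w ∈ C := hC.up hd (mem_uc.1 (by rw [T.ud]; simp))
      exact hC.up hw (mem_uc.1 (by rw [T.uw]; simp))
    · have l1 := T.ld
      have l2 := T.lv (sideU H i)
      unfold laU at l1 l2
      have hw : w ∈ C := hC.dn hd (by omega) (mem_dc.1 (by rw [T.ud]; simp))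
      exact hC.dn hw (by omega) (mem_dc.1 (by rw [T.uw]; simp))
  refine ⟨hd, hx, fun y hy => ?_⟩
  rw [xc_of (by rintro rfl; exact hy hd) (by rintro rfl; exact hy hx)]
  exact he y hy

/-- the energy of an exchange -/
lemma CanD.sum (h : CanD i e d x) (hC : Part i C) (he : Spt C e) :
    C.sum (xc d x e) = C.sum e := by
  obtain ⟨h1, h2, -⟩ := h.spt H hC he
  have hv := h.lvl H
  exact sum_xc (by rintro rfl; omega) h1 h2 hv.2.2

/-- THE EXCHANGE, contributions of cores -/
theorem CanD.JK (hir : i ≤ r) (h : CanD i e d x) (hC : Part i C) (he : Spt C e)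
    (hc : IsCore i K psi e) (hcl : Clr i K psi e x) (m : ℕ) :
    W4.JK i K psi C m (xc d x e) = un i d x e * W4.JK i K psi C m e := by
  have hf := (h.spt H hC he).2.2
  rw [JK_sum H hir hC he hc, JK_sum H hir hC hf ((core_xc H h).2 hc), mul_sum]
  have hR : RK i K psi C (xc d x e) = RK i K psi C e := by
    unfold RK
    rw [Rst_xc H h]
  rw [hR]
  refine sum_congr rfl fun l hl => ?_
  rw [I2.mem_pa] at hl
  obtain ⟨a1, a2, a3⟩ := h.add H hcl (l := l) (fun z hz => by
    by_contra hcon
    exact hz (hl.2 z (fun g => hcon (mem_RK.1 g).1)))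
  have hs' : Spt C (e + l) := by
    intro y hy
    rw [Pi.add_apply, he y hy, hl.2 y (fun g => hy (mem_RK.1 g).2)]
  rw [← a2, a1.unit H hC hs' (a1.spt H hC hs').2.2, a3]

/-- THE EXCHANGE, sums of contributions: `k` independent places gain `dd ^ k` -/
theorem exchange_JK (hir : i ≤ r) (hC : Part i C) {S : Finset (P → ℕ)} {N k m : ℕ}
    (h1 : ∀ e ∈ S, Spt C e ∧ IsCore i K psi e ∧ AdmL i e ∧ AdmU i e ∧ k ≤ (CC i e).card ∧
      ∀ t ∈ CC i e, Clr i K psi e t.2)
    (h2 : ∀ e ∈ S, ∀ d x, CanD i e d x → xc d x e ∈ S)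
    (h3 : ∀ e ∈ S, dd ^ N ∣ W4.JK i K psi C m e) :
    dd ^ (N + k) ∣ ∑ e ∈ S, W4.JK i K psi C m e := by
  classical
  rw [← sum_fiberwise_of_maps_to (t := S.image (CC i)) (g := CC i)
    (fun e he => mem_image_of_mem _ he)]
  refine dvd_sum fun D hD => ?_
  rw [mem_image] at hD
  obtain ⟨e0, he0, rfl⟩ := hD
  obtain ⟨D', hD', hcard⟩ := exists_subset_card_eq (h1 e0 he0).2.2.2.2.1
  rw [← hcard]
  have hm : ∀ e, e ∈ S.filter (fun e => CC i e = CC i e0) ↔ e ∈ S ∧ CC i e = CC i e0 := by
    intro e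
    rw [mem_filter]
  have hcan : ∀ t ∈ D', ∀ e ∈ S.filter (fun e => CC i e = CC i e0), CanD i e t.1 t.2 := by
    intro t ht e he
    rw [hm] at he
    have := hD' ht
    rw [← he.2] at this
    exact (mem_CC H).1 this
  refine multi D' _ (fun t e => xc t.1 t.2 e) (fun t e => un i t.1 t.2 e) _ N ?_ ?_ ?_ ?_ ?_
  · intro t ht e he
    have hc := hcan t ht e he
    rw [hm] at he
    obtain ⟨a1, a2, a3, a4, a5, a6⟩ := h1 e he.1
    refine ⟨(hm _).2 ⟨h2 e he.1 _ _ hc, ?_⟩, hc.inv H⟩
    rw [CC_xc H a3 a4 hc, he.2]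
  · intro t ht e he
    have hc := hcan t ht e he
    rw [hm] at he
    obtain ⟨a1, a2, a3, a4, a5, a6⟩ := h1 e he.1
    exact hc.JK H hir hC a1 a2 (a6 t ((mem_CC H).2 hc)) m
  · intro t ht e he
    have hc := hcan t ht e he
    rw [hm] at he
    obtain ⟨a1, a2, a3, a4, a5, a6⟩ := h1 e he.1
    exact hc.neg H a3 a4
  · intro t ht t' ht' hne e he
    have hc := hcan t ht e he
    have hc' := hcan t' ht' e he
    rw [hm] at he
    obtain ⟨a1, a2, a3, a4, a5, a6⟩ := h1 e he.1
    exact CanD.unit_xc H a3 a4 hc hc' hne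
  · intro e he
    rw [hm] at he
    exact h3 e he.1

/-- the place of an exchange is clear when the sites have at most two covers -/
theorem CanD.clr (hM : Mat P i K psi) (h : CanD i e d x) (hu : (uc x).card ≤ 2)
    (hd : (dc x).card ≤ 2) (hK : ∀ y ∈ uc d ∪ dc d, y ∉ K) : Clr i K psi e x := by
  have hv := h.lvl H
  rcases h with ⟨w, w2, p, q, T, E, hr⟩ | ⟨w, w2, p, q, T, E, hr⟩
  · have l1 := T.ld
    have l2 := T.lv (sideL H i)
    unfold laL at l1 l2
    have mw : w ∈ dbL P i := mem_dbL.2 ⟨by omega, by rw [T.uw]; exact card_pair T.px⟩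
    have mw2 : w2 ∈ dbL P i := mem_dbL.2 ⟨by omega, by rw [T.uw2]; exact card_pair T.xq⟩
    have kw : w ∉ K := hK w (mem_union_left _ (by rw [T.ud]; simp))
    have kw2 : w2 ∉ K := hK w2 (mem_union_left _ (by rw [T.ud]; simp))
    have tw : ∀ y, y = w ∨ y = w2 → y ∈ Tch i e := by
      rintro y hy
      refine mem_Tch.2 (Or.inl ⟨by rcases hy with rfl | rfl <;> omega, d, ?_, by omega⟩)
      refine mem_uc.1 ?_
      rw [T.ud]
      rcases hy with rfl | rfl <;> simp
    intro u huu hR
    rcases mem_union.1 huu with g | g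
    · have e1 := (hM.low w mw kw)
      have e2 := (hM.low w2 mw2 kw2)
      have i1 := hM.invol w (mem_union_left _ mw) kw
      have i2 := hM.invol w2 (mem_union_left _ mw2) kw2
      have p1 : psi w ∈ uc x := by
        rw [mem_uc, ← mem_dc, e1.2, T.uw]; simp
      have p2 : psi w2 ∈ uc x := by
        rw [mem_uc, ← mem_dc, e2.2, T.uw2]; simp
      have hne : psi w ≠ psi w2 := by
        intro hh
        have := i1.1
        rw [hh, i2.1] at this
        exact T.ne this.symm
      have hsub : ({psi w, psi w2} : Finset P) ⊆ uc x := by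
        intro z hz
        rw [mem_insert, mem_singleton] at hz
        rcases hz with rfl | rfl
        · exact p1
        · exact p2
      have heq := eq_of_subset_of_card_le hsub (by rw [card_pair hne]; exact hu)
      rw [← heq, mem_insert, mem_singleton] at g
      obtain ⟨-, -, -, hn⟩ := mem_Rst.1 hR
      rcases g with rfl | rfl
      · exact hn ⟨mem_union_right _ e1.1, by rw [i1.1]; exact tw w (Or.inl rfl)⟩
      · exact hn ⟨mem_union_right _ e2.1, by rw [i2.1]; exact tw w2 (Or.inr rfl)⟩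
    · rw [T.dx, mem_insert, mem_singleton] at g
      exact (mem_Rst.1 hR).2.2.1 (tw u g)
  · have l1 := T.ld
    have l2 := T.lv (sideU H i)
    unfold laU at l1 l2
    have mw : w ∈ dbU P i := mem_dbU.2 ⟨by omega, by rw [T.uw]; exact card_pair T.px⟩
    have mw2 : w2 ∈ dbU P i := mem_dbU.2 ⟨by omega, by rw [T.uw2]; exact card_pair T.xq⟩
    have kw : w ∉ K := hK w (mem_union_right _ (by rw [T.ud]; simp))
    have kw2 : w2 ∉ K := hK w2 (mem_union_right _ (by rw [T.ud]; simp))
    have tw : ∀ y, y = w ∨ y = w2 → y ∈ Tch i e := by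
      rintro y hy
      refine mem_Tch.2 (Or.inr ⟨by rcases hy with rfl | rfl <;> omega, d, ?_, by omega⟩)
      refine mem_dc.1 ?_
      rw [T.ud]
      rcases hy with rfl | rfl <;> simp
    intro u huu hR
    rcases mem_union.1 huu with g | g
    · rw [T.dx, mem_insert, mem_singleton] at g
      exact (mem_Rst.1 hR).2.2.1 (tw u g)
    · have e1 := (hM.upp w mw kw)
      have e2 := (hM.upp w2 mw2 kw2)
      have i1 := hM.invol w (mem_union_right _ mw) kw
      have i2 := hM.invol w2 (mem_union_right _ mw2) kw2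
      have p1 : psi w ∈ dc x := by
        rw [mem_dc, ← mem_uc, e1.2, T.uw]; simp
      have p2 : psi w2 ∈ dc x := by
        rw [mem_dc, ← mem_uc, e2.2, T.uw2]; simp
      have hne : psi w ≠ psi w2 := by
        intro hh
        have := i1.1
        rw [hh, i2.1] at this
        exact T.ne this.symm
      have hsub : ({psi w, psi w2} : Finset P) ⊆ dc x := by
        intro z hz
        rw [mem_insert, mem_singleton] at hz
        rcases hz with rfl | rfl
        · exact p1
        · exact p2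
      have heq := eq_of_subset_of_card_le hsub (by rw [card_pair hne]; exact hd)
      rw [← heq, mem_insert, mem_singleton] at g
      obtain ⟨-, -, -, hn⟩ := mem_Rst.1 hR
      rcases g with rfl | rfl
      · exact hn ⟨mem_union_left _ e1.1, by rw [i1.1]; exact tw w (Or.inl rfl)⟩
      · exact hn ⟨mem_union_left _ e2.1, by rw [i2.1]; exact tw w2 (Or.inr rfl)⟩

end cores

end Pool.Agent.GaussPoset.Win.Xg

end

/-! From `Pool.Agent.W_448xc_h84.XgE` -/

section

/-!
# The general exchange (MP_448cb3_co): the flip of a pendant block, one side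
-/

namespace Pool.Agent.GaussPoset.Win.Xg

set_option linter.unusedSectionVars false

open Finset Kd W4

universe u

variable {P : Type u} [Fintype P] [PartialOrder P] [DecidableEq P] {r i : ℕ}
variable {dn up : P → Finset P} {lam : P → ℤ} {y p v v' z : P} {e : P → ℕ}

/-- an isolated pendant block `{y, p}`, both labels one -/
structure PBk (dn up : P → Finset P) (lam : P → ℤ) (y p v v' : P) (e : P → ℕ) : Prop where
  ly : lam y = 1
  uy : up y = {v, v'}
  ne : v ≠ v'
  upp : up p = {y}
  e1 : e y = 1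
  e2 : e p = 1
  ev : e v = 0
  ev' : e v' = 0
  nv : ∀ z ∈ dn v, z ≠ y → e z = 0
  nv' : ∀ z ∈ dn v', z ≠ y → e z = 0
  ny : ∀ z ∈ dn y, z ≠ p → e z = 0
  np : ∀ z ∈ dn p, e z = 0

/-- remove a block -/
def rm (y p : P) (e : P → ℕ) : P → ℕ := fun z => if z = y ∨ z = p then 0 else e z

lemma rm_of (h1 : z ≠ y) (h2 : z ≠ p) : rm y p e z = e z := by
  unfold rm
  rw [if_neg (by tauto)]

lemma rm_y : rm y p e y = 0 := by
  unfold rm
  rw [if_pos (Or.inl rfl)]

lemma rm_p : rm y p e p = 0 := by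
  unfold rm
  rw [if_pos (Or.inr rfl)]

lemma rm_le : rm y p e z ≤ e z := by
  unfold rm
  split_ifs <;> omega

section one

variable (S : Side dn up lam) (B : PBk dn up lam y p v v' e)
include S B

lemma PBk.symm : PBk dn up lam y p v' v e where
  ly := B.ly
  uy := by rw [B.uy, pair_comm]
  ne := B.ne.symm
  upp := B.upp
  e1 := B.e1
  e2 := B.e2
  ev := B.ev'
  ev' := B.ev
  nv := B.nv'
  nv' := B.nv
  ny := B.ny
  np := B.np

lemma PBk.lv : lam v = 0 ∧ lam v' = 0 ∧ lam p = 2 := by
  have h1 := S.lm (S.du.2 (show v ∈ up y by rw [B.uy]; simp))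
  have h2 := S.lm (S.du.2 (show v' ∈ up y by rw [B.uy]; simp))
  have h3 := S.lm (S.du.2 (show y ∈ up p by rw [B.upp]; simp))
  have := B.ly
  omega

lemma PBk.mem_y : y ∈ dn v ∧ y ∈ dn v' ∧ p ∈ dn y := by
  refine ⟨S.du.2 ?_, S.du.2 ?_, S.du.2 ?_⟩
  · rw [B.uy]; simp
  · rw [B.uy]; simp
  · rw [B.upp]; simp

lemma PBk.bg_v : Bg dn e v ∧ ¬ Bg dn (rm y p e) v := by
  have h := B.lv S
  have hm := B.mem_y S
  have hv : v ≠ y := by rintro rfl; have := B.ly; omega
  have hvp : v ≠ p := by rintro rfl; omega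
  refine ⟨⟨y, hm.1, by rw [B.ev, B.e1]; omega⟩, ?_⟩
  rintro ⟨z, hz, hlt⟩
  rw [rm_of hv hvp, B.ev] at hlt
  by_cases h1 : z = y
  · rw [h1, rm_y] at hlt
    omega
  · have h2 := B.nv z hz h1
    have h3 := rm_le (y := y) (p := p) (e := e) (z := z)
    omega

lemma PBk.bg_of (hz : 0 ≤ lam z) (h1 : z ≠ v) (h2 : z ≠ v') :
    Bg dn (rm y p e) z ↔ Bg dn e z := by
  have h := B.lv S
  have hly := B.ly
  by_cases hy : z = y
  · subst hy
    constructor
    · rintro ⟨c, hc, hlt⟩
      rw [rm_y] at hlt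
      by_cases hcp : c = p
      · rw [hcp, rm_p] at hlt
        omega
      · have h2 := B.ny c hc hcp
        have h3 := rm_le (y := z) (p := p) (e := e) (z := c)
        omega
    · rintro ⟨c, hc, hlt⟩
      rw [B.e1] at hlt
      by_cases hcp : c = p
      · rw [hcp, B.e2] at hlt
        omega
      · have h2 := B.ny c hc hcp
        omega
  by_cases hp : z = p
  · subst hp
    constructor
    · rintro ⟨c, hc, hlt⟩
      have h2 := B.np c hc
      have h3 := rm_le (y := y) (p := z) (e := e) (z := c)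
      omega
    · rintro ⟨c, hc, hlt⟩
      have h2 := B.np c hc
      omega
  -- the elements of `dn z` are not `y`, `p`
  have key : ∀ c ∈ dn z, c ≠ y ∧ c ≠ p := by
    intro c hc
    constructor
    · rintro rfl
      have := S.du.1 hc
      rw [B.uy, mem_insert, mem_singleton] at this
      tauto
    · rintro rfl
      have := S.du.1 hc
      rw [B.upp, mem_singleton] at this
      tauto
  unfold Bg
  refine exists_congr fun c => and_congr_right fun hc => ?_
  rw [rm_of hy hp, rm_of (key c hc).1 (key c hc).2]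

lemma PBk.ge_of (hz : 1 ≤ lam z) (h1 : z ≠ y) : Ge up (rm y p e) z ↔ Ge up e z := by
  have h := B.lv S
  have hly := B.ly
  have hm := B.mem_y S
  have hyp : y ≠ p := by rintro rfl; omega
  by_cases hp : z = p
  · subst hp
    constructor
    · rintro -
      exact ⟨y, by rw [B.upp]; simp, by rw [B.e1, B.e2]⟩
    · rintro -
      exact ⟨y, by rw [B.upp]; simp, by rw [rm_y, rm_p]⟩
  by_cases h2 : y ∈ up z
  · have h3 : e z = 0 := B.ny z (S.du.2 h2) hp
    constructor
    · rintro -
      exact ⟨y, h2, by omega⟩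
    · rintro -
      exact ⟨y, h2, by rw [rm_of h1 hp, rm_y, h3]⟩
  by_cases h3 : p ∈ up z
  · have h4 : e z = 0 := B.np z (S.du.2 h3)
    constructor
    · rintro -
      exact ⟨p, h3, by omega⟩
    · rintro -
      exact ⟨p, h3, by rw [rm_of h1 hp, rm_p, h4]⟩
  unfold Ge
  refine exists_congr fun c => and_congr_right fun hc => ?_
  rw [rm_of h1 hp, rm_of (by rintro rfl; exact h2 hc) (by rintro rfl; exact h3 hc)]

lemma PBk.ge_y : ¬ Ge up e y ∧ Ge up (rm y p e) y := by
  have h := B.lv S
  have hly := B.ly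
  constructor
  · rintro ⟨c, hc, hle⟩
    rw [B.uy, mem_insert, mem_singleton] at hc
    rw [B.e1] at hle
    have h1 := B.ev
    have h2 := B.ev'
    rcases hc with rfl | rfl <;> omega
  · exact ⟨v, by rw [B.uy]; simp, by rw [rm_y]; omega⟩

lemma PBk.bg_y : ¬ Bg dn e y := by
  rintro ⟨c, hc, hlt⟩
  rw [B.e1] at hlt
  by_cases hcp : c = p
  · rw [hcp, B.e2] at hlt
    omega
  · have h2 := B.ny c hc hcp
    omega

lemma PBk.bgu_of (hz : lam z ≤ 0) : Bg up (rm y p e) z ↔ Bg up e z := by
  have h := B.lv S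
  have hly := B.ly
  unfold Bg
  refine exists_congr fun c => and_congr_right fun hc => ?_
  have h1 := S.lm (S.du.2 hc)
  rw [rm_of (by rintro rfl; omega) (by rintro rfl; omega),
    rm_of (by rintro rfl; omega) (by rintro rfl; omega)]

lemma PBk.geu_of (hz : lam z < 0) : Ge dn (rm y p e) z ↔ Ge dn e z := by
  have h := B.lv S
  have hly := B.ly
  unfold Ge
  refine exists_congr fun c => and_congr_right fun hc => ?_
  have h1 := S.lm hc
  rw [rm_of (by rintro rfl; omega) (by rintro rfl; omega),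
    rm_of (by rintro rfl; omega) (by rintro rfl; omega)]

lemma PBk.ads : AdS dn up lam (rm y p e) ↔ AdS dn up lam e := by
  have h := B.lv S
  unfold AdS
  refine forall_congr' fun z => forall_congr' fun hz => ?_
  have hv : z ≠ v := by rintro rfl; omega
  have hv' : z ≠ v' := by rintro rfl; omega
  rw [B.bg_of S (by omega) hv hv']
  by_cases hy : z = y
  · subst hy
    have := B.bg_y S
    tauto
  · rw [B.ge_of S hz hy]

lemma PBk.NB : NB dn lam (rm y p e) = NB dn lam e := by
  classical
  have h := B.lv S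
  unfold Xg.NB
  congr 1
  refine filter_congr fun z _ => and_congr_right fun hz => ?_
  exact B.bg_of S (by omega) (by rintro rfl; omega) (by rintro rfl; omega)

lemma PBk.NP : NP dn up lam e = NP dn up lam (rm y p e) + 1 := by
  classical
  have h := B.lv S
  unfold Xg.NP
  have h1 : y ∉ univ.filter (fun z : P => 1 ≤ lam z ∧ ¬ Bg dn (rm y p e) z ∧
      ¬ Ge up (rm y p e) z) := by
    rw [mem_filter]
    rintro ⟨-, -, -, h3⟩
    exact h3 (B.ge_y S).2
  rw [← card_insert_of_notMem h1]
  congr 1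
  ext z
  rw [mem_insert, mem_filter, mem_filter]
  by_cases hy : z = y
  · subst hy
    have a1 := B.bg_y S
    have a2 := (B.ge_y S).1
    have a3 := B.ly
    simp only [mem_univ, true_and, true_or, iff_true]
    exact ⟨by omega, a1, a2⟩
  · simp only [mem_univ, true_and, hy, false_or]
    refine and_congr_right fun hz => ?_
    rw [B.bg_of S (by omega) (by rintro rfl; omega) (by rintro rfl; omega), B.ge_of S hz hy]

lemma PBk.NA : NA dn lam e = NA dn lam (rm y p e) + 2 := by
  classical
  have h := B.lv S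
  unfold Xg.NA
  have h1 : v' ∉ univ.filter (fun z : P => lam z = 0 ∧ Bg dn (rm y p e) z) := by
    rw [mem_filter]
    rintro ⟨-, -, h3⟩
    exact (B.symm S).bg_v S |>.2 h3
  have h2 : v ∉ insert v' (univ.filter (fun z : P => lam z = 0 ∧ Bg dn (rm y p e) z)) := by
    rw [mem_insert, mem_filter]
    rintro (h3 | ⟨-, -, h3⟩)
    · exact B.ne h3
    · exact (B.bg_v S).2 h3
  have h3 : (univ.filter (fun z : P => lam z = 0 ∧ Bg dn e z)) =
      insert v (insert v' (univ.filter (fun z : P => lam z = 0 ∧ Bg dn (rm y p e) z))) := by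
    ext z
    rw [mem_insert, mem_insert, mem_filter, mem_filter]
    simp only [mem_univ, true_and]
    by_cases hv : z = v
    · subst hv
      simp only [true_or, iff_true]
      exact ⟨h.1, (B.bg_v S).1⟩
    by_cases hv' : z = v'
    · subst hv'
      simp only [true_or, or_true, iff_true]
      exact ⟨h.2.1, ((B.symm S).bg_v S).1⟩
    simp only [hv, hv', false_or]
    refine and_congr_right fun hz => ?_
    rw [B.bg_of S (by omega) hv hv']
  rw [h3, card_insert_of_notMem h2, card_insert_of_notMem h1]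

end one

end Pool.Agent.GaussPoset.Win.Xg

end

/-! From `Pool.Agent.W_448xc_h84.XgF` -/

section

/-!
# The general exchange (MP_448cb3_co): the flip of a pendant block, terms of a window
-/

namespace Pool.Agent.GaussPoset.Win.Xg

set_option linter.unusedSectionVars false

open Finset Kd W4

universe u

variable {P : Type u} [Fintype P] [PartialOrder P] [DecidableEq P] {r i : ℕ}
variable {y p w u v v' z : P} {e f : P → ℕ} {psi : P → P} {C : Finset P}

/-- the number of deficits -/
noncomputable def kp (i : ℕ) (e : P → ℕ) : ℤ :=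
  ((AL i e).card : ℤ) + (AU i e).card - pL i e - pU i e

/-- admissible and disjoint -/
structure Adm (i : ℕ) (e : P → ℕ) : Prop where
  l : AdmL i e
  u : AdmU i e
  d : Disjoint (AL i e) (AU i e)

lemma Adm.cheap (h : Adm i e) {k : ℕ} : Cheap k i e ↔ kp i e ≤ k := by
  unfold Cheap kp
  have h1 := h.l
  have h2 := h.u
  have h3 := h.d
  constructor
  · rintro (g | g | g | g)
    · exact absurd h1 g
    · exact absurd h2 g
    · exact absurd h3 g
    · omega
  · intro g
    right; right; right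
    omega

/-- the number of deficits is not changed by an exchange -/
lemma CanD.kp (H : Gr P r) {d x : P} (h : CanD i e d x) (ha : Adm i e) :
    kp i (xc d x e) = kp i e := by
  rcases h with ⟨w, w2, p, q, T, E, hr⟩ | ⟨w, w2, p, q, T, E, hr⟩
  · have hcnt := (E.count (sideL H i) T ((AdmL_ads i e).1 ha.l)).1
    rw [← pL_NP, ← pL_NP, ← AL_NA, ← AL_NA] at hcnt
    unfold Xg.kp
    rw [low_AU H T E, low_pU H T E]
    omega
  · have hcnt := (E.count (sideU H i) T ((AdmU_ads i e).1 ha.u)).1
    rw [← pU_NP, ← pU_NP, ← AU_NA, ← AU_NA] at hcnt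
    unfold Xg.kp
    rw [upp_AL H T E, upp_pL H T E]
    omega

lemma CanD.Adm (H : Gr P r) {d x : P} (h : CanD i e d x) (ha : Adm i e) :
    Adm i (xc d x e) := by
  obtain ⟨a1, a2, a3⟩ := h.adm H
  exact ⟨a1.2 ha.l, a2.2 ha.u, a3.2 ha.d⟩

/-- the positions of a pendant block on both sides -/
structure FlS (i : ℕ) (y p w u v v' : P) : Prop where
  ly : lev y = i + 1
  lw : lev w + 1 = i
  uy : uc y = {v, v'}
  dw : dc w = {v, v'}
  ne : v ≠ v'
  up : uc p = {y}
  du : dc u = {w}

/-- everything near the two sites is zero -/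
structure Zr (y p w u v v' : P) (e : P → ℕ) : Prop where
  v0 : e v = 0
  v0' : e v' = 0
  dv : ∀ z ∈ dc v, e z = 0
  dv' : ∀ z ∈ dc v', e z = 0
  uv : ∀ z ∈ uc v, e z = 0
  uv' : ∀ z ∈ uc v', e z = 0
  dy : ∀ z ∈ dc y, e z = 0
  dp : ∀ z ∈ dc p, e z = 0
  uw : ∀ z ∈ uc w, e z = 0
  uu : ∀ z ∈ uc u, e z = 0

/-- a lower pendant block -/
def LoP (y p w u v v' : P) (e : P → ℕ) : Prop := e y = 1 ∧ e p = 1 ∧ Zr y p w u v v' (rm y p e)

/-- an upper pendant block -/
def UpP (y p w u v v' : P) (e : P → ℕ) : Prop := e w = 1 ∧ e u = 1 ∧ Zr y p w u v v' (rm w u e)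

/-- the flip -/
def fl (y p w u : P) (e : P → ℕ) : P → ℕ := fun z => e (Equiv.swap y w (Equiv.swap p u z))

section pos

variable (H : Gr P r) (F : FlS i y p w u v v')
include H F

lemma FlS.lv : lev v = i ∧ lev v' = i ∧ lev p = i + 2 ∧ lev u + 2 = i := by
  have h1 := lev_uc H (show v ∈ uc y by rw [F.uy]; simp)
  have h2 := lev_uc H (show v' ∈ uc y by rw [F.uy]; simp)
  have h3 := lev_uc H (show y ∈ uc p by rw [F.up]; simp)
  have h4 := lev_dc H (show w ∈ dc u by rw [F.du]; simp)
  have := F.ly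
  have := F.lw
  omega

lemma FlS.nes : y ≠ w ∧ y ≠ p ∧ y ≠ u ∧ w ≠ p ∧ w ≠ u ∧ p ≠ u := by
  have h := F.lv H
  have := F.ly
  have := F.lw
  refine ⟨?_, ?_, ?_, ?_, ?_, ?_⟩ <;> (rintro rfl; omega)

lemma FlS.fl_y : fl y p w u e y = e w := by
  obtain ⟨h1, h2, h3, h4, h5, h6⟩ := F.nes H
  unfold fl
  rw [Equiv.swap_apply_of_ne_of_ne h2 h3, Equiv.swap_apply_left]

lemma FlS.fl_w : fl y p w u e w = e y := by
  obtain ⟨h1, h2, h3, h4, h5, h6⟩ := F.nes H
  unfold fl
  rw [Equiv.swap_apply_of_ne_of_ne h4 h5, Equiv.swap_apply_right]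

lemma FlS.fl_p : fl y p w u e p = e u := by
  obtain ⟨h1, h2, h3, h4, h5, h6⟩ := F.nes H
  unfold fl
  rw [Equiv.swap_apply_left, Equiv.swap_apply_of_ne_of_ne h3.symm h5.symm]

lemma FlS.fl_u : fl y p w u e u = e p := by
  obtain ⟨h1, h2, h3, h4, h5, h6⟩ := F.nes H
  unfold fl
  rw [Equiv.swap_apply_right, Equiv.swap_apply_of_ne_of_ne h2.symm h4.symm]

omit H F in
lemma fl_of (h1 : z ≠ y) (h2 : z ≠ p) (h3 : z ≠ w) (h4 : z ≠ u) : fl y p w u e z = e z := by
  unfold fl
  rw [Equiv.swap_apply_of_ne_of_ne h2 h4, Equiv.swap_apply_of_ne_of_ne h1 h3]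

lemma FlS.fl_fl : fl y p w u (fl y p w u e) = e := by
  funext z
  by_cases h1 : z = y
  · rw [h1, F.fl_y H, F.fl_w H]
  by_cases h2 : z = p
  · rw [h2, F.fl_p H, F.fl_u H]
  by_cases h3 : z = w
  · rw [h3, F.fl_w H, F.fl_y H]
  by_cases h4 : z = u
  · rw [h4, F.fl_u H, F.fl_p H]
  rw [fl_of h1 h2 h3 h4, fl_of h1 h2 h3 h4]

/-- the places of the four elements -/
lemma FlS.mems : w ∈ uc v ∧ u ∈ uc w ∧ y ∈ dc v ∧ p ∈ dc y := by
  refine ⟨?_, ?_, ?_, ?_⟩
  · rw [mem_uc, ← mem_dc, F.dw]; simp
  · rw [mem_uc, ← mem_dc, F.du]; simp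
  · rw [mem_dc, ← mem_uc, F.uy]; simp
  · rw [mem_dc, ← mem_uc, F.up]; simp

lemma FlS.rm_lo (h : LoP y p w u v v' e) : rm w u (fl y p w u e) = rm y p e := by
  obtain ⟨h1, h2, h3, h4, h5, h6⟩ := F.nes H
  obtain ⟨m1, m2, m3, m4⟩ := F.mems H
  obtain ⟨e1, e2, Z⟩ := h
  funext z
  by_cases g1 : z = y
  · rw [g1, rm_y, rm_of h1 h3, F.fl_y H]
    have := Z.uv w m1
    rwa [rm_of h1.symm h4] at this
  by_cases g2 : z = p
  · rw [g2, rm_p, rm_of h4.symm h6, F.fl_p H]
    have := Z.uw u m2
    rwa [rm_of h3.symm h6.symm] at this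
  by_cases g3 : z = w
  · rw [g3, rm_y, rm_of h1.symm h4]
    have := Z.uv w m1
    rw [rm_of h1.symm h4] at this
    exact this.symm
  by_cases g4 : z = u
  · rw [g4, rm_p, rm_of h3.symm h6.symm]
    have := Z.uw u m2
    rw [rm_of h3.symm h6.symm] at this
    exact this.symm
  rw [rm_of g3 g4, rm_of g1 g2, fl_of g1 g2 g3 g4]

lemma FlS.rm_up (h : UpP y p w u v v' e) : rm y p (fl y p w u e) = rm w u e := by
  obtain ⟨h1, h2, h3, h4, h5, h6⟩ := F.nes H
  obtain ⟨m1, m2, m3, m4⟩ := F.mems H
  obtain ⟨e1, e2, Z⟩ := h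
  funext z
  by_cases g3 : z = w
  · rw [g3, rm_y, rm_of h1.symm h4, F.fl_w H]
    have := Z.dv y m3
    rwa [rm_of h1 h3] at this
  by_cases g4 : z = u
  · rw [g4, rm_p, rm_of h3.symm h6.symm, F.fl_u H]
    have := Z.dy p m4
    rwa [rm_of h4.symm h6] at this
  by_cases g1 : z = y
  · rw [g1, rm_y, rm_of h1 h3]
    have := Z.dv y m3
    rw [rm_of h1 h3] at this
    exact this.symm
  by_cases g2 : z = p
  · rw [g2, rm_p, rm_of h4.symm h6]
    have := Z.dy p m4
    rw [rm_of h4.symm h6] at this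
    exact this.symm
  rw [rm_of g3 g4, rm_of g1 g2, fl_of g1 g2 g3 g4]

lemma FlS.lo_up (h : LoP y p w u v v' e) : UpP y p w u v v' (fl y p w u e) := by
  refine ⟨by rw [F.fl_w H]; exact h.1, by rw [F.fl_u H]; exact h.2.1, ?_⟩
  rw [F.rm_lo H h]
  exact h.2.2

lemma FlS.up_lo (h : UpP y p w u v v' e) : LoP y p w u v v' (fl y p w u e) := by
  refine ⟨by rw [F.fl_y H]; exact h.1, by rw [F.fl_p H]; exact h.2.1, ?_⟩
  rw [F.rm_up H h]
  exact h.2.2

/-- the lower block -/
lemma FlS.blL (h : LoP y p w u v v' e) : PBk dc uc (laL i) y p v v' e := by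
  obtain ⟨h1, h2, h3, h4, h5, h6⟩ := F.nes H
  obtain ⟨k1, k2, k3, k4⟩ := F.lv H
  have hly := F.ly
  obtain ⟨e1, e2, Z⟩ := h
  have lu := F.lw
  have q : ∀ z, z ≠ y → z ≠ p → rm y p e z = 0 → e z = 0 := by
    intro z g1 g2 g3
    rwa [rm_of g1 g2] at g3
  refine ⟨by unfold laL; omega, F.uy, F.ne, F.up, e1, e2, q v ?_ ?_ Z.v0, q v' ?_ ?_ Z.v0',
    fun z hz hn => q z hn ?_ (Z.dv z hz), fun z hz hn => q z hn ?_ (Z.dv' z hz),
    fun z hz hn => q z ?_ hn (Z.dy z hz), fun z hz => q z ?_ ?_ (Z.dp z hz)⟩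
  · rintro rfl; omega
  · rintro rfl; omega
  · rintro rfl; omega
  · rintro rfl; omega
  · rintro rfl
    have := lev_dc H hz
    omega
  · rintro rfl
    have := lev_dc H hz
    omega
  · rintro rfl
    have := lev_dc H hz
    omega
  · rintro rfl
    have := lev_dc H hz
    omega
  · rintro rfl
    have := lev_dc H hz
    omega

/-- the upper block -/
lemma FlS.blU (h : UpP y p w u v v' e) : PBk uc dc (laU i) w u v v' e := by
  obtain ⟨h1, h2, h3, h4, h5, h6⟩ := F.nes H
  obtain ⟨k1, k2, k3, k4⟩ := F.lv H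
  have hly := F.lw
  obtain ⟨e1, e2, Z⟩ := h
  have q : ∀ z, z ≠ w → z ≠ u → rm w u e z = 0 → e z = 0 := by
    intro z g1 g2 g3
    rwa [rm_of g1 g2] at g3
  refine ⟨by unfold laU; omega, F.dw, F.ne, F.du, e1, e2, q v ?_ ?_ Z.v0, q v' ?_ ?_ Z.v0',
    fun z hz hn => q z hn ?_ (Z.uv z hz), fun z hz hn => q z hn ?_ (Z.uv' z hz),
    fun z hz hn => q z ?_ hn (Z.uw z hz), fun z hz => q z ?_ ?_ (Z.uu z hz)⟩
  · rintro rfl; omega
  · rintro rfl; omega
  · rintro rfl; omega
  · rintro rfl; omega
  · rintro rfl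
    have := lev_uc H hz
    omega
  · rintro rfl
    have := lev_uc H hz
    omega
  · rintro rfl
    have := lev_uc H hz
    omega
  · rintro rfl
    have := lev_uc H hz
    omega
  · rintro rfl
    have := lev_uc H hz
    omega

end pos

section one

variable (H : Gr P r)
include H

/-- the counts of a lower block -/
lemma low_blk (B : PBk dc uc (laL i) y p v v' e) :
    aL i e = aL i (rm y p e) ∧ pL i e = pL i (rm y p e) + 1 ∧
      (AL i e).card = (AL i (rm y p e)).card + 2 ∧ aU i e = aU i (rm y p e) ∧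
      pU i e = pU i (rm y p e) ∧ AU i e = AU i (rm y p e) ∧
      (AdmL i e ↔ AdmL i (rm y p e)) ∧ (AdmU i e ↔ AdmU i (rm y p e)) := by
  classical
  have S := sideL H i
  refine ⟨?_, ?_, ?_, ?_, ?_, ?_, ?_, ?_⟩
  · rw [aL_NB, aL_NB, B.NB S]
  · rw [pL_NP, pL_NP, B.NP S]
  · rw [AL_NA, AL_NA, B.NA S]
  · unfold aU
    congr 1
    ext z
    simp only [mem_filter, mem_univ, true_and]
    refine and_congr_right fun hv => ?_
    rw [FU_bg, FU_bg]
    exact (B.bgu_of S (by unfold laL; omega)).symm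
  · unfold pU
    congr 1
    ext z
    simp only [mem_filter, mem_univ, true_and]
    refine and_congr_right fun hv => ?_
    rw [FU_bg, FU_bg, GD_ge, GD_ge, B.bgu_of S (by unfold laL; omega),
      B.geu_of S (by unfold laL; omega)]
  · ext v
    rw [NormD_mem_AU, NormD_mem_AU]
    refine and_congr_right fun hv => ?_
    rw [FU_bg, FU_bg]
    exact (B.bgu_of S (by unfold laL; omega)).symm
  · rw [AdmL_ads, AdmL_ads, B.ads S]
  · unfold AdmU
    refine forall_congr' fun z => forall_congr' fun hz => ?_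
    rw [FU_bg, FU_bg, GD_ge, GD_ge, B.bgu_of S (by unfold laL; omega),
      B.geu_of S (by unfold laL; omega)]

/-- the forced sites of a lower block -/
lemma low_blk_AL (B : PBk dc uc (laL i) y p v v' e) :
    AL i e = insert v (insert v' (AL i (rm y p e))) := by
  classical
  have S := sideL H i
  have h := B.lv S
  unfold laL at h
  ext z
  rw [mem_insert, mem_insert, NormD_mem_AL, NormD_mem_AL, FD_bg, FD_bg]
  by_cases hv : z = v
  · subst hv
    simp only [true_or, iff_true]
    exact ⟨by omega, (B.bg_v S).1⟩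
  by_cases hv' : z = v'
  · subst hv'
    simp only [true_or, or_true, iff_true]
    exact ⟨by omega, ((B.symm S).bg_v S).1⟩
  simp only [hv, hv', false_or]
  refine and_congr_right fun hz => ?_
  rw [B.bg_of S (by unfold laL; omega) hv hv']

/-- the counts of an upper block -/
lemma upp_blk (B : PBk uc dc (laU i) w u v v' e) :
    aU i e = aU i (rm w u e) ∧ pU i e = pU i (rm w u e) + 1 ∧
      (AU i e).card = (AU i (rm w u e)).card + 2 ∧ aL i e = aL i (rm w u e) ∧
      pL i e = pL i (rm w u e) ∧ AL i e = AL i (rm w u e) ∧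
      (AdmU i e ↔ AdmU i (rm w u e)) ∧ (AdmL i e ↔ AdmL i (rm w u e)) := by
  classical
  have S := sideU H i
  refine ⟨?_, ?_, ?_, ?_, ?_, ?_, ?_, ?_⟩
  · rw [aU_NB, aU_NB, B.NB S]
  · rw [pU_NP, pU_NP, B.NP S]
  · rw [AU_NA, AU_NA, B.NA S]
  · unfold aL
    congr 1
    ext z
    simp only [mem_filter, mem_univ, true_and]
    refine and_congr_right fun hv => ?_
    rw [FD_bg, FD_bg]
    exact (B.bgu_of S (by unfold laU; omega)).symm
  · unfold pL
    congr 1
    ext z
    simp only [mem_filter, mem_univ, true_and]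
    refine and_congr_right fun hv => ?_
    rw [FD_bg, FD_bg, GU_ge, GU_ge, B.bgu_of S (by unfold laU; omega),
      B.geu_of S (by unfold laU; omega)]
  · ext v
    rw [NormD_mem_AL, NormD_mem_AL]
    refine and_congr_right fun hv => ?_
    rw [FD_bg, FD_bg]
    exact (B.bgu_of S (by unfold laU; omega)).symm
  · rw [AdmU_ads, AdmU_ads, B.ads S]
  · unfold AdmL
    refine forall_congr' fun z => forall_congr' fun hz => ?_
    rw [FD_bg, FD_bg, GU_ge, GU_ge, B.bgu_of S (by unfold laU; omega),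
      B.geu_of S (by unfold laU; omega)]

/-- the forced sites of an upper block -/
lemma upp_blk_AU (B : PBk uc dc (laU i) w u v v' e) :
    AU i e = insert v (insert v' (AU i (rm w u e))) := by
  classical
  have S := sideU H i
  have h := B.lv S
  unfold laU at h
  ext z
  rw [mem_insert, mem_insert, NormD_mem_AU, NormD_mem_AU, FU_bg, FU_bg]
  by_cases hv : z = v
  · subst hv
    simp only [true_or, iff_true]
    exact ⟨by omega, (B.bg_v S).1⟩
  by_cases hv' : z = v'
  · subst hv'
    simp only [true_or, or_true, iff_true]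
    exact ⟨by omega, ((B.symm S).bg_v S).1⟩
  simp only [hv, hv', false_or]
  refine and_congr_right fun hz => ?_
  rw [B.bg_of S (by unfold laU; omega) hv hv']

end one

end Pool.Agent.GaussPoset.Win.Xg

end

/-! From `Pool.Agent.W_448xc_h84.XgG` -/

section

/-!
# The general exchange (MP_448cb3_co): the unit of the flip
-/

namespace Pool.Agent.GaussPoset.Win.Xg

set_option linter.unusedSectionVars false

open Finset Kd W4

universe u

variable {P : Type u} [Fintype P] [PartialOrder P] [DecidableEq P] {r i : ℕ}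
variable {y p w u v v' z d x : P} {e f : P → ℕ} {psi : P → P} {C : Finset P}

lemma prop_aux {a b A B D : Prop} (hD : D) :
    (¬ (b ∨ A) ∧ ¬ (D ∧ (a ∨ B))) ↔ (¬ (a ∨ A) ∧ ¬ (D ∧ (b ∨ B))) := by
  tauto

lemma prop_aux' {a b A B D a' b' : Prop} (hD : ¬ D) (ha : ¬ a) (hb : ¬ b) :
    (¬ (b ∨ A) ∧ ¬ (D ∧ (a' ∨ B))) ↔ (¬ (a ∨ A) ∧ ¬ (D ∧ (b' ∨ B))) := by
  tauto

section pos

variable (H : Gr P r) (F : FlS i y p w u v v')
include H F

omit H F in
lemma Zr.nA (Z : Zr y p w u v v' e) :
    v ∉ AU i e ∧ v' ∉ AU i e ∧ v ∉ AL i e ∧ v' ∉ AL i e := by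
  refine ⟨?_, ?_, ?_, ?_⟩
  · rw [NormD_mem_AU, FU_bg]
    rintro ⟨-, z, hz, hlt⟩
    rw [Z.uv z hz] at hlt
    omega
  · rw [NormD_mem_AU, FU_bg]
    rintro ⟨-, z, hz, hlt⟩
    rw [Z.uv' z hz] at hlt
    omega
  · rw [NormD_mem_AL, FD_bg]
    rintro ⟨-, z, hz, hlt⟩
    rw [Z.dv z hz] at hlt
    omega
  · rw [NormD_mem_AL, FD_bg]
    rintro ⟨-, z, hz, hlt⟩
    rw [Z.dv' z hz] at hlt
    omega

lemma FlS.adm_lo (h : LoP y p w u v v' e) : Adm i e ↔ Adm i (rm y p e) := by
  have B := F.blL H h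
  obtain ⟨a1, a2, a3, a4, a5, a6, a7, a8⟩ := low_blk H B
  have a9 := low_blk_AL H B
  obtain ⟨n1, n2, n3, n4⟩ := h.2.2.nA (i := i)
  have hd : Disjoint (AL i e) (AU i e) ↔ Disjoint (AL i (rm y p e)) (AU i (rm y p e)) := by
    rw [a9, a6, disjoint_insert_left, disjoint_insert_left]
    tauto
  constructor
  · intro g
    exact ⟨a7.1 g.l, a8.1 g.u, hd.1 g.d⟩
  · intro g
    exact ⟨a7.2 g.l, a8.2 g.u, hd.2 g.d⟩

lemma FlS.adm_up (h : UpP y p w u v v' e) : Adm i e ↔ Adm i (rm w u e) := by
  have B := F.blU H h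
  obtain ⟨a1, a2, a3, a4, a5, a6, a7, a8⟩ := upp_blk H B
  have a9 := upp_blk_AU H B
  obtain ⟨n1, n2, n3, n4⟩ := h.2.2.nA (i := i)
  have hd : Disjoint (AL i e) (AU i e) ↔ Disjoint (AL i (rm w u e)) (AU i (rm w u e)) := by
    rw [a9, a6, disjoint_insert_right, disjoint_insert_right]
    tauto
  constructor
  · intro g
    exact ⟨a8.1 g.l, a7.1 g.u, hd.1 g.d⟩
  · intro g
    exact ⟨a8.2 g.l, a7.2 g.u, hd.2 g.d⟩

lemma FlS.kp_lo (h : LoP y p w u v v' e) : kp i e = kp i (rm y p e) + 1 := by
  obtain ⟨a1, a2, a3, a4, a5, a6, a7, a8⟩ := low_blk H (F.blL H h)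
  unfold kp
  rw [a6, a3, a2, a5]
  push_cast
  ring

lemma FlS.kp_up (h : UpP y p w u v v' e) : kp i e = kp i (rm w u e) + 1 := by
  obtain ⟨a1, a2, a3, a4, a5, a6, a7, a8⟩ := upp_blk H (F.blU H h)
  unfold kp
  rw [a6, a3, a2, a5]
  push_cast
  ring

/-- the block is there, on one of the two sides -/
def FP (y p w u v v' : P) (e : P → ℕ) : Prop := LoP y p w u v v' e ∨ UpP y p w u v v' e

lemma FlS.fp_fl (h : FP y p w u v v' e) : FP y p w u v v' (fl y p w u e) := by
  rcases h with h | h
  · exact Or.inr (F.lo_up H h)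
  · exact Or.inl (F.up_lo H h)

lemma FlS.adm_fl (h : FP y p w u v v' e) (ha : Adm i e) : Adm i (fl y p w u e) := by
  rcases h with h | h
  · rw [F.adm_up H (F.lo_up H h), F.rm_lo H h, ← F.adm_lo H h]
    exact ha
  · rw [F.adm_lo H (F.up_lo H h), F.rm_up H h, ← F.adm_up H h]
    exact ha

lemma FlS.kp_fl (h : FP y p w u v v' e) : kp i (fl y p w u e) = kp i e := by
  rcases h with h | h
  · rw [F.kp_up H (F.lo_up H h), F.rm_lo H h, ← F.kp_lo H h]
  · rw [F.kp_lo H (F.up_lo H h), F.rm_up H h, ← F.kp_up H h]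

/-- the term of a lower block -/
lemma FlS.tC_lo (h : LoP y p w u v v' e) (ha : Adm i e) (hC : Part i C) (he : Spt C e) :
    ∃ D : A, tC i C e = xx ^ 2 * D ∧
      tC i C (fl y p w u e) = xi * D ∨ ¬ Spt C (fl y p w u e) := by
  classical
  by_cases hf : Spt C (fl y p w u e)
  swap
  · exact ⟨0, Or.inr hf⟩
  have h' := F.lo_up H h
  obtain ⟨a1, a2, a3, a4, a5, a6, a7, a8⟩ := low_blk H (F.blL H h)
  obtain ⟨b1, b2, b3, b4, b5, b6, b7, b8⟩ := upp_blk H (F.blU H h')
  rw [F.rm_lo H h] at b1 b2 b3 b4 b5 b6 b7 b8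
  have ha' := F.adm_fl H (Or.inl h) ha
  have hle : (AL i e).card + (AU i e).card ≤ (st i C).card := by
    rw [← card_union_of_disjoint ha.d]
    exact card_le_card (union_subset (AL_sub hC he) (AU_sub H hC he))
  set g := rm y p e with hg
  refine ⟨xx ^ (aL i g + (AL i g).card) * xi ^ (aU i g + pU i g) *
    dd ^ (pL i g + pU i g + 1 + ((st i C).card - (AL i g).card - (AU i g).card - 2)),
    Or.inl ⟨?_, ?_⟩⟩
  · unfold tC Win.cw
    rw [if_pos ha.d, if_pos ⟨ha.l, ha.u⟩, a1, a2, a3, a4, a5, a6,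
      show (st i C).card - ((AL i g).card + 2) - (AU i g).card =
        (st i C).card - (AL i g).card - (AU i g).card - 2 by omega]
    ring
  · unfold tC Win.cw
    rw [if_pos ha'.d, if_pos ⟨ha'.l, ha'.u⟩, b1, b2, b3, b4, b5, b6,
      show (st i C).card - (AL i g).card - ((AU i g).card + 2) =
        (st i C).card - (AL i g).card - (AU i g).card - 2 by omega]
    ring

/-- THE FLIP of a lower block -/
theorem FlS.unit_lo (h : LoP y p w u v v' e) (ha : Adm i e) (hC : Part i C) (he : Spt C e)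
    (hf : Spt C (fl y p w u e)) : tC i C (fl y p w u e) = xi ^ 3 * tC i C e := by
  obtain ⟨D, h1⟩ := F.tC_lo H h ha hC he
  rcases h1 with ⟨h1, h2⟩ | h1
  · rw [h1, h2]
    have e1 : xi ^ 2 * xx ^ 2 = (1 : A) := by rw [← mul_pow, mul_comm xi xx, xx_mul_xi, one_pow]
    calc xi * D = xi * (xi ^ 2 * xx ^ 2) * D := by rw [e1, mul_one]
      _ = xi ^ 3 * (xx ^ 2 * D) := by ring
  · exact absurd hf h1

/-- THE FLIP of an upper block -/
theorem FlS.unit_up (h : UpP y p w u v v' e) (ha : Adm i e) (hC : Part i C) (he : Spt C e)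
    (hf : Spt C (fl y p w u e)) : tC i C (fl y p w u e) = xx ^ 3 * tC i C e := by
  have h1 := F.unit_lo H (F.up_lo H h) (F.adm_fl H (Or.inr h) ha) hC hf
    (by rw [F.fl_fl H]; exact he)
  rw [F.fl_fl H] at h1
  have e1 : xx ^ 3 * xi ^ 3 = (1 : A) := by rw [← mul_pow, xx_mul_xi, one_pow]
  rw [h1]
  calc tC i C (fl y p w u e) = (xx ^ 3 * xi ^ 3) * tC i C (fl y p w u e) := by rw [e1, one_mul]
    _ = xx ^ 3 * (xi ^ 3 * tC i C (fl y p w u e)) := by ring

/-- the touched elements of a lower block -/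
lemma FlS.tch (h : LoP y p w u v v' e) (x : P) :
    (x ∈ Tch i e ↔ x = y ∨ x ∈ Tch i (rm y p e)) ∧
      (x ∈ Tch i (fl y p w u e) ↔ x = w ∨ x ∈ Tch i (rm y p e)) := by
  obtain ⟨h1, h2, h3, h4, h5, h6⟩ := F.nes H
  obtain ⟨k1, k2, k3, k4⟩ := F.lv H
  obtain ⟨m1, m2, m3, m4⟩ := F.mems H
  have ly := F.ly
  have lw := F.lw
  have hrw : rm y p e w = 0 := h.2.2.uv w m1
  have hru : rm y p e u = 0 := h.2.2.uw u m2
  rw [mem_Tch, mem_Tch, mem_Tch]
  -- values of the three labellings
  have ev : ∀ z, z ≠ y → z ≠ p → rm y p e z = e z := fun z g1 g2 => rm_of g1 g2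
  have fv : ∀ z, z ≠ w → z ≠ u → fl y p w u e z = rm y p e z := by
    intro z g1 g2
    have := congrFun (F.rm_lo H h) z
    rwa [rm_of g1 g2] at this
  constructor
  · constructor
    · rintro (⟨g1, z, g2, g3⟩ | ⟨g1, z, g2, g3⟩)
      · by_cases hz : z = p
        · subst hz
          left
          have := mem_uc.2 g2
          rw [F.up, mem_singleton] at this
          exact this
        · right; left
          refine ⟨g1, z, g2, ?_⟩
          have := lev_dc H (mem_dc.2 g2)
          rw [ev z (by rintro rfl; omega) hz]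
          exact g3
      · right; right
        refine ⟨g1, z, g2, ?_⟩
        have := lev_uc H (mem_uc.2 g2)
        rw [ev z (by rintro rfl; omega) (by rintro rfl; omega)]
        exact g3
    · rintro (g | ⟨g1, z, g2, g3⟩ | ⟨g1, z, g2, g3⟩)
      · subst g
        left
        refine ⟨ly, p, mem_dc.1 m4, ?_⟩
        rw [h.2.1]
        omega
      · left
        exact ⟨g1, z, g2, lt_of_lt_of_le g3 rm_le⟩
      · right
        exact ⟨g1, z, g2, lt_of_lt_of_le g3 rm_le⟩
  · constructor
    · rintro (⟨g1, z, g2, g3⟩ | ⟨g1, z, g2, g3⟩)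
      · right; left
        refine ⟨g1, z, g2, ?_⟩
        have := lev_dc H (mem_dc.2 g2)
        rw [fv z (by rintro rfl; omega) (by rintro rfl; omega)] at g3
        exact g3
      · by_cases hz : z = u
        · subst hz
          left
          have := mem_dc.2 g2
          rw [F.du, mem_singleton] at this
          exact this
        · right; right
          refine ⟨g1, z, g2, ?_⟩
          have := lev_uc H (mem_uc.2 g2)
          rw [fv z (by rintro rfl; omega) hz] at g3
          exact g3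
    · rintro (g | ⟨g1, z, g2, g3⟩ | ⟨g1, z, g2, g3⟩)
      · subst g
        right
        refine ⟨lw, u, mem_uc.1 m2, ?_⟩
        rw [F.fl_u H, h.2.1]
        omega
      · left
        refine ⟨g1, z, g2, ?_⟩
        have := lev_dc H (mem_dc.2 g2)
        rw [fv z (by rintro rfl; omega) (by rintro rfl; omega)]
        exact g3
      · right
        refine ⟨g1, z, g2, ?_⟩
        by_cases hz : z = u
        · subst hz
          rw [hru] at g3
          omega
        · have := lev_uc H (mem_uc.2 g2)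
          rw [fv z (by rintro rfl; omega) hz]
          exact g3

end pos

section core

variable (H : Gr P r) (F : FlS i y p w u v v') (hM : Mat P i ∅ psi) (hy : psi y = w)
include H F hM hy

lemma FlS.dbs : y ∈ dbL P i ∧ w ∈ dbU P i := by
  have ly := F.ly
  have lw := F.lw
  exact ⟨mem_dbL.2 ⟨ly, by rw [F.uy]; exact card_pair F.ne⟩,
    mem_dbU.2 ⟨lw, by rw [F.dw]; exact card_pair F.ne⟩⟩

lemma FlS.psi_w : psi w = y := by
  have h := (hM.invol y (mem_union_left _ (F.dbs H hM hy).1) (notMem_empty _)).1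
  rw [hy] at h
  exact h

lemma FlS.rst_lo (h : LoP y p w u v v' e) : Rst i ∅ psi (fl y p w u e) = Rst i ∅ psi e := by
  obtain ⟨d1, d2⟩ := F.dbs H hM hy
  have hw := F.psi_w H hM hy
  have hyw := (F.nes H).1
  ext x
  rw [mem_Rst, mem_Rst]
  refine and_congr_right fun hx => and_congr_right fun _ => ?_
  have a1 := F.tch H h x
  have a2 := F.tch H h (psi x)
  rw [a1.1, a1.2, a2.1, a2.2]
  by_cases hxd : x ∈ dbL P i ∪ dbU P i
  · have hi := (hM.invol x hxd (notMem_empty _)).1
    have c1 : x = y ↔ psi x = w := by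
      constructor
      · rintro rfl
        exact hy
      · intro g
        rw [← hi, g, hw]
    have c2 : x = w ↔ psi x = y := by
      constructor
      · rintro rfl
        exact hw
      · intro g
        rw [← hi, g, hy]
    rw [← c1, ← c2]
    exact prop_aux hxd
  · have c1 : x ≠ y := by
      rintro rfl
      exact hxd (mem_union_left _ d1)
    have c2 : x ≠ w := by
      rintro rfl
      exact hxd (mem_union_right _ d2)
    exact prop_aux' hxd c1 c2

lemma FlS.core_fl (h : FP y p w u v v' e) (hc : IsCore i ∅ psi e) :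
    IsCore i ∅ psi (fl y p w u e) := by
  obtain ⟨d1, d2⟩ := F.dbs H hM hy
  have hw := F.psi_w H hM hy
  obtain ⟨k1, k2, k3, k4⟩ := F.lv H
  have ly := F.ly
  have lw := F.lw
  have key : ∀ {e : P → ℕ}, LoP y p w u v v' e →
      (∀ x ∈ Rst i ∅ psi e, x ≠ y ∧ x ≠ w ∧ x ≠ p ∧ x ≠ u) := by
    intro e h x hx
    obtain ⟨h1, -, h3, h4⟩ := mem_Rst.1 hx
    have hn := mem_near.1 h1
    refine ⟨?_, ?_, ?_, ?_⟩
    · rintro rfl
      exact h3 ((F.tch H h x).1.2 (Or.inl rfl))
    · rintro rfl
      exact h4 ⟨mem_union_right _ d2, by rw [hw]; exact (F.tch H h y).1.2 (Or.inl rfl)⟩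
    · rintro rfl
      omega
    · rintro rfl
      omega
  rcases h with h | h
  · intro x hx
    rw [F.rst_lo H hM hy h] at hx
    obtain ⟨c1, c2, c3, c4⟩ := key h x hx
    rw [fl_of c1 c3 c2 c4]
    exact hc x hx
  · intro x hx
    have h' := F.up_lo H h
    obtain ⟨c1, c2, c3, c4⟩ := key h' x hx
    have h2 := F.rst_lo H hM hy h'
    rw [F.fl_fl H] at h2
    rw [← h2] at hx
    rw [fl_of c1 c3 c2 c4]
    exact hc x hx

end core

end Pool.Agent.GaussPoset.Win.Xg

end

/-! From `Pool.Agent.W_448xc_h84.XgH` -/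

section

/-!
# The general exchange (MP_448cb3_co): exchange and flip together, the frame for a part
-/

namespace Pool.Agent.GaussPoset.Win.Xg

set_option linter.unusedSectionVars false

open Finset Kd W4

universe u

variable {P : Type u} [Fintype P] [PartialOrder P] [DecidableEq P] {r i : ℕ}
variable {y p w u v v' z d x : P} {e f : P → ℕ} {psi : P → P} {C : Finset P}

section stable

variable (H : Gr P r) (F : FlS i y p w u v v')
include H F

omit F in
/-- the near elements over an exchangeable place are positive -/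
lemma CanD.posL {w2 q : P} (T : Tee dc uc (laL i) d w w2 p x q) (E : Exo dc uc d w w2 p x q e)
    (hL : AdmL i e) : 1 ≤ e w ∧ 1 ≤ e w2 := by
  have key : ∀ {w w2 p q : P}, Tee dc uc (laL i) d w w2 p x q → 1 ≤ e w := by
    intro w w2 p q T
    by_contra h
    have l1 := T.lv (sideL H i)
    have l2 := E.pos
    refine (AdmL_ads i e).1 hL w (by omega) ⟨⟨d, T.d_dw (sideL H i), by omega⟩,
      ⟨x, by rw [T.uw]; simp, by omega⟩⟩
  exact ⟨key T, key T.symm⟩

omit F in
lemma CanD.posU {w2 q : P} (T : Tee uc dc (laU i) d w w2 p x q) (E : Exo uc dc d w w2 p x q e)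
    (hU : AdmU i e) : 1 ≤ e w ∧ 1 ≤ e w2 := by
  have key : ∀ {w w2 p q : P}, Tee uc dc (laU i) d w w2 p x q → 1 ≤ e w := by
    intro w w2 p q T
    by_contra h
    have l1 := T.lv (sideU H i)
    have l2 := E.pos
    refine (AdmU_ads i e).1 hU w (by omega) ⟨⟨d, T.d_dw (sideU H i), by omega⟩,
      ⟨x, by rw [T.uw]; simp, by omega⟩⟩
  exact ⟨key T, key T.symm⟩

/-- a labelling which is zero near the two sites keeps this property -/
lemma Zr.xc (Z : Zr y p w u v v' e) (hd : 1 ≤ e d) (hdl : lev d = i + 2 ∨ lev d + 2 = i)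
    (hx : lev x = i) (hxv : x ≠ v) (hxv' : x ≠ v') : Zr y p w u v v' (xc d x e) := by
  obtain ⟨k1, k2, k3, k4⟩ := F.lv H
  have ly := F.ly
  have lw := F.lw
  have q : ∀ z, z ≠ d → z ≠ x → e z = 0 → Kd.xc d x e z = 0 := by
    intro z g1 g2 g3
    rw [xc_of g1 g2]
    exact g3
  have lev0 : ∀ z, e z = 0 → (lev z ≠ i) → Kd.xc d x e z = 0 := by
    intro z g1 g2
    refine q z ?_ ?_ g1
    · rintro rfl
      omega
    · rintro rfl
      exact g2 hx
  refine ⟨q v ?_ hxv.symm Z.v0, q v' ?_ hxv'.symm Z.v0', fun z hz => lev0 z (Z.dv z hz) ?_,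
    fun z hz => lev0 z (Z.dv' z hz) ?_, fun z hz => lev0 z (Z.uv z hz) ?_,
    fun z hz => lev0 z (Z.uv' z hz) ?_, fun z hz => lev0 z (Z.dy z hz) ?_,
    fun z hz => lev0 z (Z.dp z hz) ?_, fun z hz => lev0 z (Z.uw z hz) ?_,
    fun z hz => lev0 z (Z.uu z hz) ?_⟩
  · rintro rfl
    omega
  · rintro rfl
    omega
  all_goals
    first
      | (have := lev_dc H hz; omega)
      | (have := lev_uc H hz; omega)

omit F in
/-- the labelling without the block and an exchange -/
lemma rm_xc {a b : P} (h1 : d ≠ a) (h2 : d ≠ b) (h3 : x ≠ a) (h4 : x ≠ b) :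
    rm a b (xc d x e) = xc d x (rm a b e) := by
  funext z
  by_cases g1 : z = a
  · subst g1
    rw [rm_y, xc_of h1.symm h3.symm, rm_y]
  by_cases g2 : z = b
  · subst g2
    rw [rm_p, xc_of h2.symm h4.symm, rm_p]
  rw [rm_of g1 g2]
  by_cases g3 : z = d
  · subst g3
    rw [xc_d, xc_d, rm_of h3 h4]
  by_cases g4 : z = x
  · subst g4
    have : z ≠ d := g3
    rw [xc_x this, xc_x this, rm_of h1 h2]
  rw [xc_of g3 g4, xc_of g3 g4, rm_of g1 g2]

/-- the exchanges keep the pendant block -/
lemma FlS.fp_xc (h : FP y p w u v v' e) (hL : AdmL i e) (hU : AdmU i e) (hc : CanD i e d x) :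
    FP y p w u v v' (xc d x e) := by
  obtain ⟨k1, k2, k3, k4⟩ := F.lv H
  have ly := F.ly
  have lw := F.lw
  obtain ⟨h1, h2, h3, h4, h5, h6⟩ := F.nes H
  have hv := hc.lvl H
  -- `x` is not one of the two sites, `d` is not one of the four elements
  have main : ∀ g : P → ℕ, ∀ a b : P, (∀ z, z ≠ a → z ≠ b → g z = e z) →
      (lev a = i + 1 ∧ lev b = i + 2 ∧ uc b = {a} ∨ lev a + 1 = i ∧ lev b + 2 = i ∧ dc b = {a}) →
      Zr y p w u v v' g → x ≠ v ∧ x ≠ v' ∧ d ≠ a ∧ d ≠ b ∧ x ≠ a ∧ x ≠ b := by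
    intro g a b hg hab Z
    have hxab : x ≠ a ∧ x ≠ b := by
      constructor <;> (rintro rfl; omega)
    have hda : d ≠ a := by rintro rfl; omega
    have hdb : d ≠ b := by
      rintro rfl
      rcases hc with ⟨w1, w2, p1, q1, T, E, hr⟩ | ⟨w1, w2, p1, q1, T, E, hr⟩
      · have l1 := T.ld
        unfold laL at l1
        rcases hab with ⟨a1, a2, a3⟩ | ⟨a1, a2, a3⟩
        · have := T.ud
          rw [a3] at this
          have m1 : w1 ∈ ({a} : Finset P) := by rw [this]; simp
          have m2 : w2 ∈ ({a} : Finset P) := by rw [this]; simp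
          rw [mem_singleton] at m1 m2
          exact T.ne (m1.trans m2.symm)
        · omega
      · have l1 := T.ld
        unfold laU at l1
        rcases hab with ⟨a1, a2, a3⟩ | ⟨a1, a2, a3⟩
        · omega
        · have := T.ud
          rw [a3] at this
          have m1 : w1 ∈ ({a} : Finset P) := by rw [this]; simp
          have m2 : w2 ∈ ({a} : Finset P) := by rw [this]; simp
          rw [mem_singleton] at m1 m2
          exact T.ne (m1.trans m2.symm)
    have hxs : ∀ s, (∀ z ∈ dc s, g z = 0) → (∀ z ∈ uc s, g z = 0) → x ≠ s := by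
      rintro s z1 z2 rfl
      rcases hc with ⟨w1, w2, p1, q1, T, E, hr⟩ | ⟨w1, w2, p1, q1, T, E, hr⟩
      · obtain ⟨e1, e2⟩ := CanD.posL H T E hL
        have l1 := T.lv (sideL H i)
        unfold laL at l1
        have key : ∀ c, c ∈ dc x → 1 ≤ e c → lev c = i + 1 → c = a := by
          intro c hcd hc1 hlc
          by_contra hca
          have hcb : c ≠ b := by rintro rfl; omega
          have := z1 c hcd
          rw [hg c hca hcb] at this
          omega
        have q1' := key w1 (by rw [T.dx]; simp) e1 (by omega)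
        have q2' := key w2 (by rw [T.dx]; simp) e2 (by omega)
        exact T.ne (q1'.trans q2'.symm)
      · obtain ⟨e1, e2⟩ := CanD.posU H T E hU
        have l1 := T.lv (sideU H i)
        unfold laU at l1
        have key : ∀ c, c ∈ uc x → 1 ≤ e c → lev c + 1 = i → c = a := by
          intro c hcd hc1 hlc
          by_contra hca
          have hcb : c ≠ b := by rintro rfl; omega
          have := z2 c hcd
          rw [hg c hca hcb] at this
          omega
        have q1' := key w1 (by rw [T.dx]; simp) e1 (by omega)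
        have q2' := key w2 (by rw [T.dx]; simp) e2 (by omega)
        exact T.ne (q1'.trans q2'.symm)
    exact ⟨hxs v Z.dv Z.uv, hxs v' Z.dv' Z.uv', hda, hdb, hxab.1, hxab.2⟩
  rcases h with ⟨a1, a2, Z⟩ | ⟨a1, a2, Z⟩
  · obtain ⟨b1, b2, b3, b4, b5, b6⟩ := main (rm y p e) y p (fun z g1 g2 => rm_of g1 g2)
      (Or.inl ⟨ly, k3, F.up⟩) Z
    left
    refine ⟨by rw [xc_of b3.symm b5.symm]; exact a1, by rw [xc_of b4.symm b6.symm]; exact a2, ?_⟩
    rw [rm_xc H b3 b4 b5 b6]
    exact Z.xc H F (by rw [rm_of b3 b4]; exact hv.2.2) hv.1 hv.2.1 b1 b2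
  · obtain ⟨b1, b2, b3, b4, b5, b6⟩ := main (rm w u e) w u (fun z g1 g2 => rm_of g1 g2)
      (Or.inr ⟨lw, k4, F.du⟩) Z
    right
    refine ⟨by rw [xc_of b3.symm b5.symm]; exact a1, by rw [xc_of b4.symm b6.symm]; exact a2, ?_⟩
    rw [rm_xc H b3 b4 b5 b6]
    exact Z.xc H F (by rw [rm_of b3 b4]; exact hv.2.2) hv.1 hv.2.1 b1 b2

end stable

end Pool.Agent.GaussPoset.Win.Xg

end

/-! From `Pool.Agent.W_448xc_h84.XgK` -/

section

/-!
# The general exchange (MP_448cb3_co): the flip of a matched pendant with the free near elements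
-/

namespace Pool.Agent.GaussPoset.Win.Xg

set_option linter.unusedSectionVars false

open Finset Kd W4

universe u

variable {P : Type u} [Fintype P] [PartialOrder P] [DecidableEq P] {r i : ℕ}
variable {y p w u v v' z d x : P} {e f : P → ℕ} {psi : P → P} {C : Finset P}

section jk

variable (H : Gr P r) (F : FlS i y p w u v v')
include H F

/-- the two functions of a flip pair -/
lemma FlS.fe_lo (h : LoP y p w u v v' e) (ha : Adm i e) (S : Finset P) :
    Fe i e S + Fe i (fl y p w u e) S = Fe i (rm y p e) S *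
      (dd * (if v ∈ S ∧ v' ∈ S then 1 else 0) +
        xi * dd * (if v ∉ S ∧ v' ∉ S then 1 else 0)) := by
  classical
  have h' := F.lo_up H h
  obtain ⟨a1, a2, a3, a4, a5, a6, a7, a8⟩ := low_blk H (F.blL H h)
  have a9 := low_blk_AL H (F.blL H h)
  obtain ⟨b1, b2, b3, b4, b5, b6, b7, b8⟩ := upp_blk H (F.blU H h')
  have b9 := upp_blk_AU H (F.blU H h')
  rw [F.rm_lo H h] at b1 b2 b3 b4 b5 b6 b7 b8 b9
  have ha' := F.adm_fl H (Or.inl h) ha
  have hg := (F.adm_lo H h).1 ha
  set g := rm y p e with hgd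
  have e1 : (chi (AL i e) (AU i e) S : A) =
      chi (AL i g) (AU i g) S * (if v ∈ S ∧ v' ∈ S then 1 else 0) := by
    rw [a9, a6]
    unfold chi
    by_cases c1 : v ∈ S <;> by_cases c2 : v' ∈ S <;> by_cases c3 : AL i g ⊆ S <;>
      by_cases c4 : Disjoint (AU i g) S <;> simp [insert_subset_iff, c1, c2, c3, c4]
  have e2 : (chi (AL i (fl y p w u e)) (AU i (fl y p w u e)) S : A) =
      chi (AL i g) (AU i g) S * (if v ∉ S ∧ v' ∉ S then 1 else 0) := by
    rw [b9, b6]
    unfold chi
    by_cases c1 : v ∈ S <;> by_cases c2 : v' ∈ S <;> by_cases c3 : AL i g ⊆ S <;>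
      by_cases c4 : Disjoint (AU i g) S <;> simp [disjoint_insert_left, c1, c2, c3, c4]
  unfold Fe Win.cw
  rw [if_pos ⟨ha.l, ha.u⟩, if_pos ⟨ha'.l, ha'.u⟩, if_pos ⟨hg.l, hg.u⟩, e1, e2, a1, a2, a4, a5,
    b1, b2, b4, b5]
  ring

/-- the free near elements do not see the flip -/
lemma FlS.GK_lo (hM : Mat P i ∅ psi) (hy : psi y = w) (h : LoP y p w u v v' e) (m : ℕ)
    (S : Finset P) : GK i ∅ psi C (fl y p w u e) m S = GK i ∅ psi C e m S := by
  classical
  obtain ⟨k1, k2, k3, k4⟩ := F.lv H
  have ly := F.ly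
  have lw := F.lw
  have hr : RK i ∅ psi C (fl y p w u e) = RK i ∅ psi C e := by
    unfold RK
    rw [F.rst_lo H hM hy h]
  unfold GK
  rw [hr]
  refine sum_congr rfl fun l _ => prod_congr rfl fun x hx => ?_
  refine So.wt_congr H (fun z hz => ?_) (RK_near hx) _ _
  exact fl_of (by rintro rfl; omega) (by rintro rfl; omega) (by rintro rfl; omega)
    (by rintro rfl; omega)

omit H F in
lemma IV_add' (V : Finset P) (f g : Finset P → A) :
    So.IV V f + So.IV V g = So.IV V (fun S => f S + g S) := (So.IV_add V f g).symm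

variable (hi : 1 ≤ i) (hi2 : i + 1 ≤ r) (hM : Mat P i ∅ psi) (hy : psi y = w)
  (hC : Part (i + 1) C)
include hi hi2 hM hy hC

lemma FlS.jk_lo (h : LoP y p w u v v' e) (ha : Adm i e) (m : ℕ) {k : ℕ}
    (hk : kp i e = k + 1) :
    dd ^ ((st i C).card - k) ∣ W4.JK i ∅ psi C m e + W4.JK i ∅ psi C m (fl y p w u e) := by
  classical
  obtain ⟨k1, k2, k3, k4⟩ := F.lv H
  have hg := (F.adm_lo H h).1 ha
  have h1 : Rk (GaussPoset.lv P i) k (Fe i (rm y p e)) := by
    refine Rk_of_cheap (hg.cheap.2 ?_)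
    have := F.kp_lo H h
    omega
  have h2 := Rk_mul (Rk_mul h1 (FactF_big (mem_lv.2 k1) (mem_lv.2 k2) F.ne))
    (GK_Rk H hi hi2 hM hC e m)
  rw [add_zero, add_zero] at h2
  have h3 := So.Rk_IV (So.Rk_sub (So.st_sub i C) h2)
  have h4 : W4.JK i ∅ psi C m e + W4.JK i ∅ psi C m (fl y p w u e) =
      So.IV (st i C) (fun S => Fe i (rm y p e) S *
        (dd * (if v ∈ S ∧ v' ∈ S then 1 else 0) +
        xi * dd * (if v ∉ S ∧ v' ∉ S then 1 else 0)) * GK i ∅ psi C e m S) := by
    unfold W4.JK
    rw [IV_add']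
    refine So.IV_congr fun S => ?_
    rw [F.GK_lo H hM hy h m S, ← add_mul, F.fe_lo H h ha S]
  rw [h4]
  exact h3

/-- THE FLIP with the free near elements -/
theorem FlS.jk (h : FP y p w u v v' e) (ha : Adm i e) (m : ℕ) {k : ℕ}
    (hk : kp i e = k + 1) :
    dd ^ ((st i C).card - k) ∣ W4.JK i ∅ psi C m e + W4.JK i ∅ psi C m (fl y p w u e) := by
  rcases h with h | h
  · exact F.jk_lo H hi hi2 hM hy hC h ha m hk
  · have h1 := F.jk_lo H hi hi2 hM hy hC (F.up_lo H h) (F.adm_fl H (Or.inr h) ha) m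
      (by rw [F.kp_fl H (Or.inr h)]; exact hk)
    rwa [F.fl_fl H, add_comm] at h1

end jk

end Pool.Agent.GaussPoset.Win.Xg

end

/-! From `Pool.Agent.W_448xc_h84.XgI` -/

section

/-!
# The general exchange (MP_448cb3_co): the frame for a part
-/

namespace Pool.Agent.GaussPoset.Win.Xg

set_option linter.unusedSectionVars false

open Finset Kd W4

universe u

variable {P : Type u} [Fintype P] [PartialOrder P] [DecidableEq P] {r i : ℕ}
variable {y p w u v v' z d x : P} {e f : P → ℕ} {psi : P → P} {C : Finset P}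

/-- an admissible core of the part -/
structure Okc (i : ℕ) (psi : P → P) (C : Finset P) (e : P → ℕ) : Prop where
  spt : Spt C e
  core : IsCore i ∅ psi e
  adm : Adm i e

/-- a sign reversing flip on the cores with the property `Q` -/
structure Flp (i : ℕ) (psi : P → P) (C : Finset P) (Q : (P → ℕ) → Prop)
    (φ : (P → ℕ) → (P → ℕ)) : Prop where
  xc : ∀ e d x, Okc i psi C e → CanD i e d x → Q e → Q (xc d x e)
  ok : ∀ e, Okc i psi C e → Q e → Okc i psi C (φ e) ∧ Q (φ e) ∧ φ (φ e) = e ∧
    kp i (φ e) = kp i e ∧ ∑ z, φ e z = ∑ z, e z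
  unit : ∀ e, Okc i psi C e → Q e → ∃ a : A, dd ∣ 1 + a ∧ tC i C (φ e) = a * tC i C e
  jk : ∀ e, Okc i psi C e → Q e → ∀ m k : ℕ, kp i e = k + 1 →
    dd ^ ((st i C).card - k) ∣ W4.JK i ∅ psi C m e + W4.JK i ∅ psi C m (φ e)

variable {Q : (P → ℕ) → Prop} {φ : (P → ℕ) → (P → ℕ)}

section trivialflip

/-- no flip at all -/
lemma flp_none : Flp i psi C (fun _ => False) id := by
  refine ⟨?_, ?_, ?_, ?_⟩
  · intro _ _ _ _ _ h
    exact h
  · intro _ _ h
    exact h.elim
  · intro _ _ h
    exact h.elim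
  · intro _ _ h
    exact h.elim

end trivialflip

section frame

variable (H : Gr P r)
include H

lemma CanD.sumU (hc : CanD i e d x) : ∑ z, xc d x e z = ∑ z, e z := by
  have hv := hc.lvl H
  exact sum_xc (C := univ) (by rintro rfl; omega) (mem_univ _) (mem_univ _) hv.2.2

lemma Okc.xc (hC : Part i C) (h : Okc i psi C e) (hc : CanD i e d x) :
    Okc i psi C (Kd.xc d x e) :=
  ⟨(hc.spt H hC h.spt).2.2, (core_xc H hc).2 h.core, hc.Adm H h.adm⟩

lemma Flp.xc_iff (F : Flp i psi C Q φ) (hC : Part i C) (h : Okc i psi C e) (hc : CanD i e d x) :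
    Q (Kd.xc d x e) ↔ Q e := by
  constructor
  · intro g
    have h1 := h.xc H hC hc
    have h2 := CanD.stable H h.adm.l h.adm.u hc hc
    have h3 := F.xc _ d x h1 h2 g
    rwa [hc.inv H] at h3
  · exact F.xc _ d x h hc

omit H in
lemma JK_bad (K : Finset P) (h : ¬ Adm i e) (m : ℕ) : W4.JK i K psi C m e = 0 := by
  classical
  have h1 : ∀ S, Fe i e S = 0 := by
    intro S
    unfold Fe
    by_cases ha : AdmL i e ∧ AdmU i e
    · have hd : ¬ Disjoint (AL i e) (AU i e) := fun hd => h ⟨ha.1, ha.2, hd⟩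
      rw [ClE_chi_zero hd, mul_zero]
    · unfold Win.cw
      rw [if_neg ha, zero_mul]
  unfold W4.JK So.IV
  refine sum_eq_zero fun S _ => ?_
  show xx ^ S.card * (Fe i e S * GK i K psi C e m S) = 0
  rw [h1, zero_mul, mul_zero]

omit H in
lemma tC_bad (h : ¬ Adm i e) : tC i C e = 0 := by
  classical
  unfold tC
  by_cases hd : Disjoint (AL i e) (AU i e)
  · have ha : ¬ (AdmL i e ∧ AdmU i e) := fun ha => h ⟨ha.1, ha.2, hd⟩
    unfold Win.cw
    rw [if_pos hd, if_neg ha, zero_mul]
  · rw [if_neg hd]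

variable (hi : 1 ≤ i) (hi2 : i + 1 ≤ r) (hM : Mat P i ∅ psi) (hC : Part (i + 1) C)
  (hs : ∀ x ∈ C, lev x = i → (uc x).card ≤ 2 ∧ (dc x).card ≤ 2)
include hi hi2 hM hC hs

/-- a class of cores with enough exchangeable places -/
theorem class_dvd {K : ℕ} {S : Finset (P → ℕ)}
    (h1 : ∀ e ∈ S, Okc i psi C e ∧ kp i e ≤ K + (CC i e).card)
    (h2 : ∀ e ∈ S, ∀ d x, CanD i e d x → Kd.xc d x e ∈ S) (m : ℕ) :
    dd ^ ((st i C).card - K) ∣ ∑ e ∈ S, W4.JK i ∅ psi C m e := by
  classical
  have hC' : Part i C := hC.pred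
  rw [← sum_fiberwise_of_maps_to (t := S.image (fun e => (kp i e).toNat))
    (g := fun e => (kp i e).toNat) (fun e he => mem_image_of_mem _ he)]
  refine dvd_sum fun c hc => ?_
  have hm : ∀ e, e ∈ S.filter (fun e => (kp i e).toNat = c) ↔ e ∈ S ∧ (kp i e).toNat = c := by
    intro e
    rw [mem_filter]
  rcases Nat.lt_or_ge K c with hK | hK
  · have h3 := exchange_JK H (K := ∅) (psi := psi) (by omega) hC'
      (S := S.filter (fun e => (kp i e).toNat = c)) (N := (st i C).card - c) (k := c - K) (m := m)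
      ?_ ?_ ?_
    · exact dvd_trans (pow_dvd_pow _ (by omega)) h3
    · intro e he
      rw [hm] at he
      obtain ⟨a1, a2⟩ := h1 e he.1
      refine ⟨a1.spt, a1.core, a1.adm.l, a1.adm.u, by omega, fun t ht => ?_⟩
      have ht' := (mem_CC H).1 ht
      obtain ⟨b1, b2, -⟩ := ht'.spt H hC' a1.spt
      obtain ⟨c1, c2⟩ := hs t.2 b2 (ht'.lvl H).2.1
      exact CanD.clr H hM ht' c1 c2 (fun y _ => notMem_empty _)
    · intro e he d x hd
      rw [hm] at he ⊢
      exact ⟨h2 e he.1 d x hd, by rw [hd.kp H (h1 e he.1).1.adm]; exact he.2⟩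
    · intro e he
      rw [hm] at he
      obtain ⟨a1, a2⟩ := h1 e he.1
      refine JK_dvd H hi hi2 hM hC (Rk_of_cheap (a1.adm.cheap.2 ?_)) m
      omega
  · refine dvd_sum fun e he => ?_
    rw [hm] at he
    obtain ⟨a1, a2⟩ := h1 e he.1
    refine JK_dvd H hi hi2 hM hC (Rk_of_cheap (a1.adm.cheap.2 ?_)) m
    omega

omit H hi hi2 hM hC hs in
/-- a class of cores with a flip -/
theorem flip_dvd (F : Flp i psi C Q φ) {N : ℕ} {S : Finset (P → ℕ)}
    (h1 : ∀ e ∈ S, Okc i psi C e ∧ Q e ∧ φ e ∈ S) (h3 : ∀ e ∈ S, dd ^ N ∣ tC i C e) :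
    dd ^ (N + 1) ∣ ∑ e ∈ S, tC i C e := by
  classical
  have hu : ∀ e : P → ℕ, ∃ a : A, (e ∈ S → dd ∣ 1 + a ∧ tC i C (φ e) = a * tC i C e) := by
    intro e
    by_cases he : e ∈ S
    · obtain ⟨a, ha⟩ := F.unit e (h1 e he).1 (h1 e he).2.1
      exact ⟨a, fun _ => ha⟩
    · exact ⟨0, fun h => absurd h he⟩
  choose a ha using hu
  have h := multi ({()} : Finset Unit) S (fun _ e => φ e) (fun _ e => a e) (tC i C) N
    (fun _ _ e he => ⟨(h1 e he).2.2, (F.ok e (h1 e he).1 (h1 e he).2.1).2.2.1⟩)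
    (fun _ _ e he => (ha e he).2) (fun _ _ e he => (ha e he).1)
    (fun t _ t' _ hne => absurd (Subsingleton.elim t t') hne) h3
  simpa using h

omit H hi hi2 hM hC hs in
lemma dvd_of_two {N : ℕ} {a : A} (h : dd ^ N ∣ 2 * a) : dd ^ N ∣ a := by
  unfold dd at *
  rw [PowerSeries.X_pow_dvd_iff] at h ⊢
  intro m hm
  have h1 := h m hm
  rw [two_mul, map_add] at h1
  omega

omit H hi hi2 hM hC hs in
/-- a class of cores with a flip, with the free near elements -/
theorem flip_JK (F : Flp i psi C Q φ) {k : ℕ} {S : Finset (P → ℕ)}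
    (h1 : ∀ e ∈ S, Okc i psi C e ∧ Q e ∧ φ e ∈ S ∧ kp i e = k + 1) (m : ℕ) :
    dd ^ ((st i C).card - k) ∣ ∑ e ∈ S, W4.JK i ∅ psi C m e := by
  classical
  have h2 : ∑ e ∈ S, W4.JK i ∅ psi C m (φ e) = ∑ e ∈ S, W4.JK i ∅ psi C m e := by
    refine sum_nbij' φ φ (fun e he => (h1 e he).2.2.1) (fun e he => (h1 e he).2.2.1) ?_ ?_ ?_
    · intro e he
      exact (F.ok e (h1 e he).1 (h1 e he).2.1).2.2.1
    · intro e he
      exact (F.ok e (h1 e he).1 (h1 e he).2.1).2.2.1
    · intro e he
      rfl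
  refine dvd_of_two ?_
  rw [two_mul]
  nth_rw 2 [← h2]
  rw [← sum_add_distrib]
  exact dvd_sum fun e he => F.jk e (h1 e he).1 (h1 e he).2.1 m k (h1 e he).2.2.2

open Classical in
/-- the leftover of the frame -/
noncomputable def Lft (i : ℕ) (psi : P → P) (C : Finset P) (Q : (P → ℕ) → Prop) (n K : ℕ) :
    Finset (P → ℕ) :=
  (C.piAntidiag n).filter (fun e => Okc i psi C e ∧ kp i e = K + 1 ∧ CC i e = ∅ ∧ ¬ Q e)

omit H hi hi2 hM hC hs in
lemma mem_Lft {n K : ℕ} : e ∈ Lft i psi C Q n K ↔ ∑ z, e z = n ∧ Okc i psi C e ∧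
    kp i e = K + 1 ∧ CC i e = ∅ ∧ ¬ Q e := by
  classical
  unfold Lft
  rw [mem_filter, I2.mem_pa]
  constructor
  · rintro ⟨⟨h1, -⟩, h2⟩
    exact ⟨h1, h2⟩
  · rintro ⟨h1, h2⟩
    exact ⟨⟨h1, h2.1.spt⟩, h2⟩

/-- THE FRAME: up to the leftover, the window sum has order at most `K` at the energy `n` -/
theorem frame (F : Flp i psi C Q φ) {n K : ℕ}
    (hA : ∀ e, Okc i psi C e → ∑ z, e z ≤ n → kp i e ≤ K + (CC i e).card ∨
      (kp i e = K + 1 ∧ Q e) ∨ (∑ z, e z = n ∧ kp i e = K + 1 ∧ CC i e = ∅)) :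
    dd ^ ((st i C).card - K) ∣ ZC i C n - ∑ e ∈ Lft i psi C Q n K, tC i C e := by
  classical
  have hC' : Part i C := hC.pred
  have hir : i ≤ r := by omega
  rw [ZC_coresK H hir ∅ psi hC' n, sum_range_succ, Nat.sub_self, add_sub_assoc]
  refine dvd_add (dvd_sum fun q hq => ?_) ?_
  · rw [mem_range] at hq
    have h0 : ∑ e ∈ (C.piAntidiag q).filter (IsCore i ∅ psi), W4.JK i ∅ psi C (n - q) e =
        ∑ e ∈ ((C.piAntidiag q).filter (IsCore i ∅ psi)).filter (Adm i),
          W4.JK i ∅ psi C (n - q) e := by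
      symm
      refine sum_filter_of_ne fun e _ hne => ?_
      by_contra hcon
      exact hne (JK_bad ∅ hcon _)
    rw [h0]
    have hm : ∀ e, e ∈ ((C.piAntidiag q).filter (IsCore i ∅ psi)).filter (Adm i) ↔
        ∑ z, e z = q ∧ Okc i psi C e := by
      intro e
      rw [mem_filter, mem_filter, I2.mem_pa]
      constructor
      · rintro ⟨⟨⟨a1, a2⟩, a3⟩, a4⟩
        exact ⟨a1, a2, a3, a4⟩
      · rintro ⟨a1, a2, a3, a4⟩
        exact ⟨⟨⟨a1, a2⟩, a3⟩, a4⟩
    set T := ((C.piAntidiag q).filter (IsCore i ∅ psi)).filter (Adm i) with hT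
    rw [← sum_filter_add_sum_filter_not T (fun e => kp i e = K + 1 ∧ Q e)]
    refine dvd_add ?_ ?_
    · refine flip_JK F (fun e he => ?_) _
      rw [mem_filter, hm] at he
      obtain ⟨b1, b2, b3, b4, b5⟩ := F.ok e he.1.2 he.2.2
      refine ⟨he.1.2, he.2.2, ?_, he.2.1⟩
      rw [mem_filter, hm]
      exact ⟨⟨by rw [b5]; exact he.1.1, b1⟩, by rw [b4]; exact he.2.1, b2⟩
    · refine class_dvd H hi hi2 hM hC hs (fun e he => ?_) (fun e he d x hd => ?_) _
      · rw [mem_filter, hm] at he
        refine ⟨he.1.2, ?_⟩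
        rcases hA e he.1.2 (by omega) with h | h | h
        · exact h
        · exact absurd h he.2
        · omega
      · rw [mem_filter, hm] at he ⊢
        refine ⟨⟨by rw [hd.sumU H]; exact he.1.1, he.1.2.xc H hC' hd⟩, ?_⟩
        rw [hd.kp H he.1.2.adm, F.xc_iff H hC' he.1.2 hd]
        exact he.2
  · -- the cores of energy `n`
    have h0 : ∑ e ∈ (C.piAntidiag n).filter (IsCore i ∅ psi), W4.JK i ∅ psi C 0 e =
        ∑ e ∈ (C.piAntidiag n).filter (Okc i psi C), tC i C e := by
      have h1 : ∀ e ∈ (C.piAntidiag n).filter (IsCore i ∅ psi), W4.JK i ∅ psi C 0 e =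
          tC i C e := by
        intro e he
        rw [mem_filter, I2.mem_pa] at he
        exact JK_zero H hir hC' he.1.2
      rw [sum_congr rfl h1]
      refine (sum_subset ?_ ?_).symm
      · intro e he
        rw [mem_filter] at he ⊢
        exact ⟨he.1, he.2.core⟩
      · intro e he hne
        rw [mem_filter] at he hne
        by_contra hcon
        refine hne ⟨he.1, (I2.mem_pa.1 he.1).2, he.2, ?_⟩
        by_contra ha
        exact hcon (tC_bad ha)
    rw [h0]
    set S := (C.piAntidiag n).filter (Okc i psi C) with hS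
    have hmS : ∀ e, e ∈ S ↔ ∑ z, e z = n ∧ Okc i psi C e := by
      intro e
      rw [hS, mem_filter, I2.mem_pa]
      constructor
      · rintro ⟨⟨a1, -⟩, a2⟩
        exact ⟨a1, a2⟩
      · rintro ⟨a1, a2⟩
        exact ⟨⟨a1, a2.spt⟩, a2⟩
    -- three classes
    have hsplit : ∑ e ∈ S, tC i C e = ∑ e ∈ S.filter (fun e => kp i e = K + 1 ∧ Q e), tC i C e +
        (∑ e ∈ Lft i psi C Q n K, tC i C e + ∑ e ∈ S.filter (fun e =>
          ¬ (kp i e = K + 1 ∧ Q e) ∧ ¬ (kp i e = K + 1 ∧ CC i e = ∅ ∧ ¬ Q e)), tC i C e) := by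
      rw [← sum_filter_add_sum_filter_not S (fun e => kp i e = K + 1 ∧ Q e)]
      congr 1
      rw [← sum_filter_add_sum_filter_not (S.filter (fun e => ¬ (kp i e = K + 1 ∧ Q e)))
        (fun e => kp i e = K + 1 ∧ CC i e = ∅ ∧ ¬ Q e)]
      congr 1
      · refine sum_congr ?_ fun _ _ => rfl
        ext e
        rw [mem_filter, mem_filter, hmS, mem_Lft]
        tauto
      · rw [filter_filter]
    rw [hsplit, add_sub_assoc, add_sub_cancel_left]
    refine dvd_add ?_ ?_
    · have h3 := flip_dvd F (N := (st i C).card - (K + 1))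
        (S := S.filter (fun e => kp i e = K + 1 ∧ Q e)) (fun e he => ?_) (fun e he => ?_)
      · exact dvd_trans (pow_dvd_pow _ (by omega)) h3
      · rw [mem_filter, hmS] at he
        obtain ⟨b1, b2, b3, b4, b5⟩ := F.ok e he.1.2 he.2.2
        refine ⟨he.1.2, he.2.2, ?_⟩
        rw [mem_filter, hmS]
        exact ⟨⟨by rw [b5]; exact he.1.1, b1⟩, by rw [b4]; exact he.2.1, b2⟩
      · rw [mem_filter, hmS] at he
        rw [← JK_zero (K := ∅) (psi := psi) H hir hC' he.1.2.spt]
        refine JK_dvd H hi hi2 hM hC (Rk_of_cheap (he.1.2.adm.cheap.2 ?_)) 0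
        have := he.2.1
        push_cast
        omega
    · have h4 : ∀ e ∈ S.filter (fun e =>
          ¬ (kp i e = K + 1 ∧ Q e) ∧ ¬ (kp i e = K + 1 ∧ CC i e = ∅ ∧ ¬ Q e)),
          tC i C e = W4.JK i ∅ psi C 0 e := by
        intro e he
        rw [mem_filter, hmS] at he
        exact (JK_zero H hir hC' he.1.2.spt).symm
      rw [sum_congr rfl h4]
      refine class_dvd H hi hi2 hM hC hs (fun e he => ?_) (fun e he d x hd => ?_) _
      · rw [mem_filter, hmS] at he
        refine ⟨he.1.2, ?_⟩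
        rcases hA e he.1.2 (le_of_eq he.1.1) with h | h | ⟨-, h5, h6⟩
        · exact h
        · exact absurd h he.2.1
        · exfalso
          obtain ⟨-, g1, g2⟩ := he
          by_cases hq : Q e
          · exact g1 ⟨h5, hq⟩
          · exact g2 ⟨h5, h6, hq⟩
      · rw [mem_filter, hmS] at he ⊢
        obtain ⟨⟨g1, g2⟩, g3⟩ := he
        refine ⟨⟨by rw [hd.sumU H]; exact g1, g2.xc H hC' hd⟩, ?_⟩
        rw [hd.kp H g2.adm, F.xc_iff H hC' g2 hd, CC_xc H g2.adm.l g2.adm.u hd]
        exact g3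

end frame

end Pool.Agent.GaussPoset.Win.Xg

end

/-! From `Pool.Agent.W_448xc_h84.XgJ` -/

section

/-!
# The general exchange (MP_448cb3_co): the flip of a matched pendant as a flip of cores
-/

namespace Pool.Agent.GaussPoset.Win.Xg

set_option linter.unusedSectionVars false

open Finset Kd W4

universe u

variable {P : Type u} [Fintype P] [PartialOrder P] [DecidableEq P] {r i : ℕ}
variable {y p w u v v' z d x : P} {e f : P → ℕ} {psi : P → P} {C : Finset P}

/-- THE FLIP of a matched pendant -/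
theorem flp_fl (H : Gr P r) (hi : 1 ≤ i) (hi2 : i + 1 ≤ r) (F : FlS i y p w u v v')
    (hM : Mat P i ∅ psi) (hy : psi y = w) (hC1 : Part (i + 1) C) (m1 : y ∈ C) (m2 : p ∈ C) (m3 : w ∈ C) (m4 : u ∈ C) :
    Flp i psi C (FP y p w u v v') (fl y p w u) := by
  have hC : Part i C := hC1.pred
  have hspt : ∀ e, Spt C e → Spt C (fl y p w u e) := by
    intro e he z hz
    rw [fl_of (by rintro rfl; exact hz m1) (by rintro rfl; exact hz m2)
      (by rintro rfl; exact hz m3) (by rintro rfl; exact hz m4)]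
    exact he z hz
  refine ⟨fun e d x ho hd hq => F.fp_xc H hq ho.adm.l ho.adm.u hd, fun e ho hq => ?_,
    fun e ho hq => ?_, fun e ho hq m k hk => F.jk H hi hi2 hM hy hC1 hq ho.adm m hk⟩
  · refine ⟨⟨hspt e ho.spt, F.core_fl H hM hy hq ho.core, F.adm_fl H hq ho.adm⟩, F.fp_fl H hq,
      F.fl_fl H, F.kp_fl H hq, ?_⟩
    have h1 := Equiv.sum_comp ((Equiv.swap p u).trans (Equiv.swap y w)) e
    exact h1
  · rcases hq with hq | hq
    · refine ⟨xi ^ 3, ?_, F.unit_lo H hq ho.adm hC ho.spt (hspt e ho.spt)⟩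
      obtain ⟨k, hk⟩ := dd_dvd_odd (m := 0) (n := 3) (by decide)
      rw [pow_zero, one_mul] at hk
      exact ⟨k, hk⟩
    · refine ⟨xx ^ 3, ?_, F.unit_up H hq ho.adm hC ho.spt (hspt e ho.spt)⟩
      obtain ⟨k, hk⟩ := dd_dvd_odd (m := 3) (n := 0) (by decide)
      rw [pow_zero, mul_one] at hk
      exact ⟨k, hk⟩

end Pool.Agent.GaussPoset.Win.Xg

end

/-! From `Pool.Agent.W_448ev_h24.JkA` -/

section

/-! Junk elements far away from the window: one side, in an abstract form. `c x` are the covers of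
`x` towards the window, `c' x` those away from it, `T` is the distance, `V` the window. -/

set_option autoImplicit false

namespace Pool.Agent.GaussPoset.Jk

open Finset

universe u

variable {P : Type u} [Fintype P] [DecidableEq P]

/-- one side of a window -/
structure Sid (c c' : P → Finset P) (T : P → ℕ) (Sd V : P → Prop) : Prop where
  dual : ∀ x y, y ∈ c x ↔ x ∈ c' y
  ne : ∀ x, Sd x → (c x).Nonempty
  tS : ∀ x, Sd x → 1 ≤ T x
  tV : ∀ x, V x → T x = 0
  cin : ∀ x, Sd x → ∀ y ∈ c x, T x = T y + 1 ∧ (Sd y ∨ V y)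
  cout : ∀ x, (Sd x ∨ V x) → ∀ z ∈ c' x, Sd z ∧ T z = T x + 1

/-- some element away from the window has a larger label -/
def kd (c' : P → Finset P) (e : P → ℕ) (a : P) : Prop := ∃ z ∈ c' a, e a < e z

/-- some element towards the window has a label at least as large -/
def gu (c : P → Finset P) (e : P → ℕ) (z : P) : Prop := ∃ a ∈ c z, e z ≤ e a

variable {c c' : P → Finset P} {T : P → ℕ} {Sd V : P → Prop} {e : P → ℕ}

lemma Sid.sd_of (S : Sid c c' T Sd V) {x y : P} (hx : Sd x) (hy : y ∈ c x) (h : 1 ≤ T y) :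
    Sd y := by
  rcases (S.cin x hx y hy).2 with h1 | h1
  · exact h1
  · have := S.tV y h1
    omega

/-- sum of the labels at distance at most `n` -/
def sm (T : P → ℕ) (e : P → ℕ) (n : ℕ) : ℕ := ∑ x, if T x ≤ n then e x else 0

lemma sm_le (n : ℕ) : sm T e n ≤ ∑ x, e x := by
  unfold sm
  refine Finset.sum_le_sum fun x _ => ?_
  split_ifs <;> omega

lemma sm_succ {n : ℕ} {z : P} (h1 : T z = n + 1) : sm T e n + e z ≤ sm T e (n + 1) := by
  unfold sm
  rw [← Finset.add_sum_erase _ _ (mem_univ z), ← Finset.add_sum_erase univ (fun x =>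
    if T x ≤ n + 1 then e x else 0) (mem_univ z)]
  rw [if_neg (by omega), if_pos (by omega)]
  have : ∑ x ∈ univ.erase z, (if T x ≤ n then e x else 0) ≤
      ∑ x ∈ univ.erase z, (if T x ≤ n + 1 then e x else 0) := by
    refine Finset.sum_le_sum fun x _ => ?_
    split_ifs <;> omega
  omega

/-- an element which is not dominated has a large label and a long chain of labels above it -/
lemma chain (S : Sid c c' T Sd V) (adm : ∀ z, Sd z → ¬ (kd c' e z ∧ gu c e z)) :
    ∀ n z, Sd z → T z = n + 1 → ¬ gu c e z →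
      n + 1 ≤ e z ∧ (n + 1) * (n + 2) ≤ 2 * sm T e (n + 1) := by
  intro n
  induction n with
  | zero =>
    intro z hz hT hg
    obtain ⟨a, ha⟩ := S.ne z hz
    have h1 : e a < e z := by
      by_contra h
      exact hg ⟨a, ha, by omega⟩
    have h2 := sm_succ (e := e) hT
    omega
  | succ n ih =>
    intro z hz hT hg
    obtain ⟨a, ha⟩ := S.ne z hz
    have h1 : e a < e z := by
      by_contra h
      exact hg ⟨a, ha, by omega⟩
    have h3 := (S.cin z hz a ha).1
    have h5 : Sd a := S.sd_of hz ha (by omega)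
    have h6 : kd c' e a := ⟨z, (S.dual z a).1 ha, h1⟩
    obtain ⟨h7, h8⟩ := ih a h5 (by omega) (fun h => adm a h5 ⟨h6, h⟩)
    have h2 := sm_succ (e := e) hT
    refine ⟨by omega, ?_⟩
    have h9 : (n + 1 + 1) * (n + 1 + 2) = (n + 1) * (n + 2) + 2 * (n + 2) := by ring
    rw [h9]
    omega

/-- a label two at distance `n` costs at least `2 n - 1` -/
lemma two_label (S : Sid c c' T Sd V) (adm : ∀ z, Sd z → ¬ (kd c' e z ∧ gu c e z)) :
    ∀ n z, (Sd z ∨ V z) → T z = n → 2 ≤ e z → 2 * n ≤ sm T e n + 1 := by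
  intro n
  induction n with
  | zero => intro z _ _ _; omega
  | succ n ih =>
    intro z hz hT he
    have hz' : Sd z := by
      rcases hz with h | h
      · exact h
      · have := S.tV z h
        omega
    by_cases hg : gu c e z
    · obtain ⟨a, ha, hle⟩ := hg
      obtain ⟨h3, h4⟩ := S.cin z hz' a ha
      have h5 := ih a h4 (by omega) (by omega)
      have h2 := sm_succ (e := e) hT
      omega
    · obtain ⟨h1, h2⟩ := chain S adm n z hz' hT hg
      cases n with
      | zero => omega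
      | succ n =>
        have h3 : (n + 1 + 1) * (n + 1 + 2) = n * n + 5 * n + 6 := by ring
        rw [h3] at h2
        have h4 : n ≤ n * n := by nlinarith [Nat.zero_le n, sq_nonneg (n : ℤ)]
        omega

section far

variable (S : Sid c c' T Sd V) (adm : ∀ z, Sd z → ¬ (kd c' e z ∧ gu c e z)) {ρ : ℕ}
  (h6 : ∑ x, e x ≤ 2 * ρ)

include S adm h6

/-- far labels are at most one -/
lemma far_one {z : P} (hz : Sd z) (hT : ρ + 1 ≤ T z) : e z ≤ 1 := by
  by_contra h
  have h1 := two_label S adm (T z) z (Or.inl hz) rfl (by omega)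
  have h3 := sm_le (T := T) (e := e) (T z)
  omega

end far

section ind

variable {f : P → ℕ} {Y : Finset P} {ρ : ℕ}

/-- the indicator of a set -/
def ind (Y : Finset P) : P → ℕ := fun x => if x ∈ Y then 1 else 0

lemma ind_kd (S : Sid c c' T Sd V) (hf : ∀ x, Sd x → ρ + 1 ≤ T x → f x = 0)
    (hY : ∀ x ∈ Y, Sd x ∧ ρ + 1 ≤ T x)
    (hcl : ∀ x ∈ Y, ∀ w ∈ c x, ρ + 1 ≤ T w → w ∈ Y) (hc : ∀ x ∈ Y, ∀ w ∈ c x, T w = ρ → 1 ≤ f w)
    {w : P} (hw : Sd w ∨ V w) :
    kd c' (f + ind Y) w ↔ kd c' f w := by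
  have hTw : Sd w → 1 ≤ T w := S.tS w
  by_cases h : T w + 1 ≤ ρ
  · unfold kd
    have h0 : ind Y w = 0 := by
      unfold ind
      rw [if_neg]
      intro h1
      have := (hY w h1).2
      omega
    have h2 : ∀ z ∈ c' w, ind Y z = 0 := by
      intro z hz
      unfold ind
      rw [if_neg]
      intro h1
      have h3 := (hY z h1).2
      have h4 := (S.cout w hw z hz).2
      omega
    constructor
    · rintro ⟨x, hx, hlt⟩
      refine ⟨x, hx, ?_⟩
      rwa [Pi.add_apply, Pi.add_apply, h0, h2 x hx, add_zero, add_zero] at hlt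
    · rintro ⟨x, hx, hlt⟩
      refine ⟨x, hx, ?_⟩
      rwa [Pi.add_apply, Pi.add_apply, h0, h2 x hx, add_zero, add_zero]
  · constructor
    · rintro ⟨x, hx, hlt⟩
      exfalso
      obtain ⟨h1, h2⟩ := S.cout w hw x hx
      rw [Pi.add_apply, Pi.add_apply, hf x h1 (by omega), zero_add] at hlt
      unfold ind at hlt
      by_cases hxY : x ∈ Y
      · rw [if_pos hxY] at hlt
        have hwx := (S.dual x w).2 hx
        by_cases h3 : ρ + 1 ≤ T w
        · rw [if_pos (hcl x hxY w hwx h3)] at hlt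
          omega
        · have := hc x hxY w hwx (by omega)
          omega
      · rw [if_neg hxY] at hlt
        omega
    · rintro ⟨x, hx, hlt⟩
      exfalso
      obtain ⟨h1, h2⟩ := S.cout w hw x hx
      rw [hf x h1 (by omega)] at hlt
      omega

lemma ind_gu (S : Sid c c' T Sd V) (hf : ∀ x, Sd x → ρ + 1 ≤ T x → f x = 0)
    (hY : ∀ x ∈ Y, Sd x ∧ ρ + 1 ≤ T x)
    (hcl : ∀ x ∈ Y, ∀ w ∈ c x, ρ + 1 ≤ T w → w ∈ Y) (hc : ∀ x ∈ Y, ∀ w ∈ c x, T w = ρ → 1 ≤ f w)
    {w : P} (hw : Sd w) :
    gu c (f + ind Y) w ↔ gu c f w := by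
  by_cases h : T w ≤ ρ
  · unfold gu
    have h0 : ∀ z, T z ≤ ρ → ind Y z = 0 := by
      intro z hz
      unfold ind
      rw [if_neg]
      intro h1
      have := (hY z h1).2
      omega
    constructor
    · rintro ⟨x, hx, hlt⟩
      have h1 := (S.cin w hw x hx).1
      refine ⟨x, hx, ?_⟩
      rwa [Pi.add_apply, Pi.add_apply, h0 w h, h0 x (by omega), add_zero, add_zero] at hlt
    · rintro ⟨x, hx, hlt⟩
      have h1 := (S.cin w hw x hx).1
      refine ⟨x, hx, ?_⟩
      rwa [Pi.add_apply, Pi.add_apply, h0 w h, h0 x (by omega), add_zero, add_zero]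
  · obtain ⟨a, ha⟩ := S.ne w hw
    have h1 := (S.cin w hw a ha).1
    constructor
    · intro _
      exact ⟨a, ha, by rw [hf w hw (by omega)]; exact Nat.zero_le _⟩
    · intro _
      refine ⟨a, ha, ?_⟩
      rw [Pi.add_apply, Pi.add_apply, hf w hw (by omega), zero_add]
      unfold ind
      by_cases hwY : w ∈ Y
      · rw [if_pos hwY]
        by_cases h3 : ρ + 1 ≤ T a
        · rw [if_pos (hcl w hwY a ha h3)]
          omega
        · have := hc w hwY a ha (by omega)
          omega
      · rw [if_neg hwY]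
        exact Nat.zero_le _

/-- an excited element below an element of label zero -/
lemma ind_bad (S : Sid c c' T Sd V) {g : P → ℕ} {z : P} (hz : Sd z) (hT : 2 ≤ T z) (h1 : 1 ≤ g z)
    (hc : ∃ w ∈ c z, g w = 0) :
    ¬ ∀ x, Sd x → ¬ (kd c' g x ∧ gu c g x) := by
  obtain ⟨w, hw, h0⟩ := hc
  intro h
  have h3 : Sd w := S.sd_of hz hw (by have := (S.cin z hz w hw).1; omega)
  refine h w h3 ⟨⟨z, (S.dual z w).1 hw, ?_⟩, ?_⟩
  · omega
  · obtain ⟨a, ha⟩ := S.ne w h3
    exact ⟨a, ha, by rw [h0]; exact Nat.zero_le _⟩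

end ind

end Pool.Agent.GaussPoset.Jk

end

/-! From `Pool.Agent.W_448ev_h24.JkB` -/

section

/-! Junk elements far below a window: their configurations do not change the window sum of a part if
the restricted sums vanish (MP_448cb3_co, G2). -/

set_option autoImplicit false

namespace Pool.Agent.GaussPoset.Jk

set_option linter.unusedSectionVars false

open Finset Win

universe u

variable {P : Type u} [Fintype P] [PartialOrder P] [DecidableEq P] {r i ρ : ℕ} {e f : P → ℕ}

lemma sid_low (H : Gr P r) (i : ℕ) :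
    Sid (P := P) uc dc (fun x => lev x - i) (fun x => i < lev x) (fun x => lev x = i) where
  dual x y := by rw [mem_uc, mem_dc]
  ne x hx := uc_nonempty H (by omega)
  tS x hx := by omega
  tV x hx := by omega
  cin x hx y hy := by
    have := lev_uc H hy
    omega
  cout x hx z hz := by
    have := lev_dc H hz
    omega

lemma kd_dc {a : P} : kd dc e a ↔ FD e a := by
  unfold kd FD
  simp only [mem_dc]

lemma gu_uc {a : P} : gu uc e a ↔ GU e a := by
  unfold gu GU
  simp only [mem_uc]

lemma adm_low : AdmL i e ↔ ∀ z : P, i < lev z → ¬ (kd dc e z ∧ gu uc e z) := by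
  unfold AdmL
  simp only [kd_dc, gu_uc]

/-- the term depends only on the covering comparisons -/
lemma tC_congr (C : Finset P) (h1 : ∀ z : P, i ≤ lev z → (FD e z ↔ FD f z))
    (h2 : ∀ z : P, i < lev z → (GU e z ↔ GU f z)) (h3 : ∀ z : P, lev z ≤ i → (FU e z ↔ FU f z))
    (h4 : ∀ z : P, lev z < i → (GD e z ↔ GD f z)) : tC i C e = tC i C f := by
  classical
  have a1 : AdmL i e ↔ AdmL i f := by
    unfold AdmL
    refine forall_congr' fun z => imp_congr_right fun hz => ?_
    rw [h1 z hz.le, h2 z hz]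
  have a2 : AdmU i e ↔ AdmU i f := by
    unfold AdmU
    refine forall_congr' fun z => imp_congr_right fun hz => ?_
    rw [h3 z hz.le, h4 z hz]
  have b1 : aL i e = aL i f := by
    unfold aL
    congr 1
    ext z
    simp only [mem_filter, mem_univ, true_and]
    refine and_congr_right fun hz => ?_
    rw [h1 z hz.le]
  have b2 : pL i e = pL i f := by
    unfold pL
    congr 1
    ext z
    simp only [mem_filter, mem_univ, true_and]
    refine and_congr_right fun hz => ?_
    rw [h1 z hz.le, h2 z hz]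
  have b3 : aU i e = aU i f := by
    unfold aU
    congr 1
    ext z
    simp only [mem_filter, mem_univ, true_and]
    refine and_congr_right fun hz => ?_
    rw [h3 z hz.le]
  have b4 : pU i e = pU i f := by
    unfold pU
    congr 1
    ext z
    simp only [mem_filter, mem_univ, true_and]
    refine and_congr_right fun hz => ?_
    rw [h3 z hz.le, h4 z hz]
  have c1 : AL i e = AL i f := by
    ext z
    rw [NormD_mem_AL, NormD_mem_AL]
    refine and_congr_right fun hz => ?_
    rw [h1 z hz.ge]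
  have c2 : AU i e = AU i f := by
    ext z
    rw [NormD_mem_AU, NormD_mem_AU]
    refine and_congr_right fun hz => ?_
    rw [h3 z hz.le]
  unfold tC cw
  rw [c1, c2, b1, b2, b3, b4]
  simp only [a1, a2]

/-- the term of an inadmissible configuration -/
lemma tC_zero (C : Finset P) (h : ¬ AdmL i e) : tC i C e = 0 := by
  have h0 : cw i e = 0 := by
    unfold cw
    exact if_neg fun h1 => h h1.1
  unfold tC
  rw [h0]
  simp

/-- a set of far elements which is closed towards the window does not change the term -/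
lemma tC_ind (H : Gr P r) (C : Finset P) {Y : Finset P} (hf : ∀ x, i + ρ < lev x → f x = 0)
    (hY : ∀ x ∈ Y, i + ρ < lev x) (hcl : ∀ x ∈ Y, ∀ w ∈ uc x, i + ρ < lev w → w ∈ Y)
    (hc : ∀ x ∈ Y, ∀ w ∈ uc x, lev w = i + ρ → 1 ≤ f w) (hρ : 1 ≤ ρ) :
    tC i C (f + ind Y) = tC i C f := by
  have S := sid_low H (P := P) i
  have hY' : ∀ x ∈ Y, i < lev x ∧ ρ + 1 ≤ lev x - i := fun x hx => by
    have := hY x hx
    omega
  have hf' : ∀ x : P, i < lev x → ρ + 1 ≤ lev x - i → f x = 0 := fun x h1 h2 =>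
    hf x (by omega)
  have hcl' : ∀ x ∈ Y, ∀ w ∈ uc x, ρ + 1 ≤ lev w - i → w ∈ Y := fun x hx w hw h =>
    hcl x hx w hw (by omega)
  have hc' : ∀ x ∈ Y, ∀ w ∈ uc x, lev w - i = ρ → 1 ≤ f w := fun x hx w hw h =>
    hc x hx w hw (by omega)
  have h0 : ∀ x : P, lev x ≤ i → (f + ind Y) x = f x := by
    intro x hx
    rw [Pi.add_apply]
    unfold ind
    rw [if_neg, add_zero]
    intro h
    have := hY x h
    omega
  refine tC_congr C ?_ ?_ ?_ ?_
  · intro x hx
    rw [← kd_dc, ← kd_dc]
    exact ind_kd S hf' hY' hcl' hc' (by omega)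
  · intro x hx
    rw [← gu_uc, ← gu_uc]
    exact ind_gu S hf' hY' hcl' hc' hx
  · intro x hx
    unfold FU
    refine exists_congr fun y => and_congr_right fun hy => ?_
    have h1 := lev_uc H (mem_uc.2 hy)
    rw [h0 x hx, h0 y (by omega)]
  · intro x hx
    unfold GD
    refine exists_congr fun y => and_congr_right fun hy => ?_
    have h1 := lev_dc H (mem_dc.2 hy)
    rw [h0 x (by omega), h0 y (by omega)]

lemma mem_pa' {D : Finset P} {n : ℕ} : e ∈ D.piAntidiag n ↔ ∑ x, e x = n ∧ ∀ x, x ∉ D → e x = 0 := by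
  rw [mem_piAntidiag]
  constructor
  · rintro ⟨h1, h2⟩
    have h3 : ∀ x, x ∉ D → e x = 0 := by
      intro x hx
      by_contra h
      exact hx (h2 x h)
    refine ⟨?_, h3⟩
    rw [← h1]
    symm
    exact Finset.sum_subset (Finset.subset_univ D) fun x _ hx => h3 x hx
  · rintro ⟨h1, h3⟩
    refine ⟨?_, fun x hx => ?_⟩
    · rw [← h1]
      exact Finset.sum_subset (Finset.subset_univ D) fun x _ hx => h3 x hx
    · by_contra h
      exact hx (h3 x h)

lemma sum_ind (Y : Finset P) : ∑ x, ind Y x = Y.card := by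
  unfold ind
  rw [Finset.sum_ite_mem, univ_inter, Finset.sum_const, smul_eq_mul, mul_one]

/-- the excited far elements -/
noncomputable def jun (i ρ : ℕ) (e : P → ℕ) : Finset P :=
  univ.filter (fun x => i + ρ < lev x ∧ e x ≠ 0)

lemma mem_jun {x : P} : x ∈ jun i ρ e ↔ i + ρ < lev x ∧ e x ≠ 0 := by
  unfold jun
  simp

/-- the part near the window -/
noncomputable def nr (i ρ : ℕ) (e : P → ℕ) (x : P) : ℕ := if lev x ≤ i + ρ then e x else 0

/-- an admissible configuration is determined by its near part and its set of far elements -/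
lemma split_e (H : Gr P r) (h6 : ∑ x, e x ≤ 2 * ρ) (hL : AdmL i e) :
    nr i ρ e + ind (jun i ρ e) = e := by
  have S := sid_low H (P := P) i
  ext x
  rw [Pi.add_apply]
  unfold nr ind
  by_cases h : lev x ≤ i + ρ
  · rw [if_pos h, if_neg, add_zero]
    intro h1
    have := (mem_jun.1 h1).1
    omega
  · rw [if_neg h, zero_add]
    have h1 : e x ≤ 1 := far_one S (adm_low.1 hL) h6 (show i < lev x by omega) (by omega)
    by_cases h2 : e x = 0
    · rw [if_neg, h2]
      intro h3
      exact (mem_jun.1 h3).2 h2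
    · rw [if_pos (mem_jun.2 ⟨by omega, h2⟩)]
      omega

/-- THE JUNK LEMMA: configurations with excited elements below the level `i + ρ` do not contribute
if the sums restricted by lower bounds one on the last row vanish. -/
theorem junk_low (H : Gr P r) {C D : Finset P} (hC : Part i C) {n m : ℕ} (hρ : 1 ≤ ρ)
    (hn : n ≤ 2 * ρ) (hDC : D ⊆ C) (hDJ : ∀ z ∈ D, lev z ≤ i + ρ)
    (hDc : ∀ e : P → ℕ, tC i C e ≠ 0 → ∑ x, e x ≤ n → ∀ z ∈ C, lev z ≤ i + ρ → e z ≠ 0 → z ∈ D)
    (hX : ∀ X : Finset P, X ⊆ C → (∀ x ∈ X, lev x = i + ρ) → X.Nonempty → ∀ n', n' < n →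
      PowerSeries.coeff m (∑ f ∈ D.piAntidiag n',
        (if (∀ x ∈ X, 1 ≤ f x) then tC i C f else 0) : A) = 0) :
    PowerSeries.coeff m (ZC i C n : A) = PowerSeries.coeff m (∑ f ∈ D.piAntidiag n, tC i C f) := by
  classical
  have S := sid_low H (P := P) i
  have hDf : ∀ {n' : ℕ} {f : P → ℕ}, f ∈ D.piAntidiag n' → ∀ x : P, i + ρ < lev x → f x = 0 := by
    intro n' f hf x hx
    exact (mem_pa'.1 hf).2 x fun h => by have := hDJ x h; omega
  unfold ZC
  -- group by the set of far elements
  have hmaps : ∀ e ∈ C.piAntidiag n, jun i ρ e ∈ (C.filter (fun x => i + ρ < lev x)).powerset := by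
    intro e he
    rw [mem_powerset]
    intro x hx
    rw [mem_jun] at hx
    rw [mem_filter]
    refine ⟨?_, hx.1⟩
    by_contra h
    exact hx.2 ((mem_pa'.1 he).2 x h)
  rw [← Finset.sum_fiberwise_of_maps_to hmaps]
  -- the fibre of `Y`
  have fib : ∀ Y ∈ (C.filter (fun x => i + ρ < lev x)).powerset,
      ∑ e ∈ (C.piAntidiag n).filter (fun e => jun i ρ e = Y), tC i C e =
      if Y.card ≤ n then ∑ f ∈ D.piAntidiag (n - Y.card), tC i C (f + ind Y) else 0 := by
    intro Y hY
    rw [mem_powerset] at hY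
    have hY' : ∀ x ∈ Y, x ∈ C ∧ i + ρ < lev x := fun x hx => mem_filter.1 (hY hx)
    split_ifs with hcard
    · have hinj : Function.Injective (fun f : P → ℕ => f + ind Y) := fun f g hfg =>
        add_right_cancel hfg
      rw [← Finset.sum_image (s := D.piAntidiag (n - Y.card)) (g := fun f : P → ℕ => f + ind Y)
        (f := fun e => tC i C e) (fun _ _ _ _ h => hinj h)]
      symm
      refine Finset.sum_subset ?_ ?_
      · intro e he
        rw [mem_image] at he
        obtain ⟨f, hf, rfl⟩ := he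
        have hf2 := mem_pa'.1 hf
        rw [mem_filter, mem_pa']
        refine ⟨⟨?_, fun x hx => ?_⟩, ?_⟩
        · simp only [Pi.add_apply, Finset.sum_add_distrib]
          rw [hf2.1, sum_ind]
          omega
        · rw [Pi.add_apply, hf2.2 x fun h => hx (hDC h)]
          unfold ind
          rw [if_neg fun h => hx (hY' x h).1]
        · ext x
          rw [mem_jun, Pi.add_apply]
          constructor
          · rintro ⟨h1, h2⟩
            rw [hDf hf x h1, zero_add] at h2
            unfold ind at h2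
            by_contra h
            rw [if_neg h] at h2
            exact h2 rfl
          · intro h
            refine ⟨(hY' x h).2, ?_⟩
            unfold ind
            rw [if_pos h]
            omega
      · intro e he hne
        by_contra hc
        rw [mem_filter] at he
        obtain ⟨he1, he2⟩ := he
        have he3 := mem_pa'.1 he1
        have hL : AdmL i e := by
          by_contra h
          exact hc (tC_zero C h)
        have hsp := split_e (ρ := ρ) H (by rw [he3.1]; exact hn) hL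
        rw [he2] at hsp
        refine hne (mem_image.2 ⟨nr i ρ e, ?_, hsp⟩)
        rw [mem_pa']
        constructor
        · have h1 : ∑ x, (nr i ρ e + ind Y) x = n := by rw [hsp]; exact he3.1
          simp only [Pi.add_apply, Finset.sum_add_distrib] at h1
          rw [sum_ind] at h1
          omega
        · intro x hx
          unfold nr
          split_ifs with h
          · by_contra h1
            have hxC : x ∈ C := by
              by_contra h2
              exact h1 (he3.2 x h2)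
            exact hx (hDc e hc he3.1.le x hxC h h1)
          · rfl
    · refine Finset.sum_eq_zero fun e he => ?_
      rw [mem_filter] at he
      exfalso
      have h1 : Y.card ≤ ∑ x, e x := by
        rw [← sum_ind]
        refine Finset.sum_le_sum fun x _ => ?_
        unfold ind
        split_ifs with h
        · rw [← he.2, mem_jun] at h
          omega
        · exact Nat.zero_le _
      rw [(mem_pa'.1 he.1).1] at h1
      exact hcard h1
  rw [Finset.sum_congr rfl fib, map_sum,
    Finset.sum_eq_single_of_mem ∅ (mem_powerset.2 (Finset.empty_subset _))]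
  · rw [if_pos (by simp), card_empty, Nat.sub_zero]
    congr 1
  · intro Y hY hYne
    rw [mem_powerset] at hY
    have hY' : ∀ x ∈ Y, x ∈ C ∧ i + ρ < lev x := fun x hx => mem_filter.1 (hY hx)
    have hYn : Y.Nonempty := Finset.nonempty_iff_ne_empty.2 hYne
    split_ifs with hcard
    swap
    · exact map_zero _
    have hYc : 1 ≤ Y.card := card_pos.2 hYn
    set X : Finset P := univ.filter (fun w => lev w = i + ρ ∧ ∃ x ∈ Y, w ∈ uc x) with hXdef
    have memX : ∀ w, w ∈ X ↔ lev w = i + ρ ∧ ∃ x ∈ Y, w ∈ uc x := fun w => by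
      rw [hXdef]
      simp
    by_cases hcl : ∀ x ∈ Y, ∀ w ∈ uc x, i + ρ < lev w → w ∈ Y
    · have hval : ∀ f ∈ D.piAntidiag (n - Y.card), tC i C (f + ind Y) =
          if (∀ x ∈ X, 1 ≤ f x) then tC i C f else 0 := by
        intro f hf
        split_ifs with hc
        · exact tC_ind H C (hDf hf) (fun x hx => (hY' x hx).2) hcl
            (fun x hx w hw hl => hc w ((memX w).2 ⟨hl, x, hx, hw⟩)) hρ
        · refine tC_zero C fun hL => ?_
          push Not at hc
          obtain ⟨w, hw, h0⟩ := hc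
          obtain ⟨hl, x, hx, hwx⟩ := (memX w).1 hw
          have hxl := (hY' x hx).2
          refine ind_bad S (z := x) (by omega) (by omega) ?_ ⟨w, hwx, ?_⟩ (adm_low.1 hL)
          · rw [Pi.add_apply]
            unfold ind
            rw [if_pos hx]
            omega
          · rw [Pi.add_apply]
            unfold ind
            rw [if_neg]
            · omega
            · intro h
              have := (hY' w h).2
              omega
      rw [Finset.sum_congr rfl hval]
      refine hX X ?_ ?_ ?_ _ (by omega)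
      · intro w hw
        obtain ⟨hl, x, hx, hwx⟩ := (memX w).1 hw
        exact hC.up (hY' x hx).1 (mem_uc.1 hwx)
      · intro w hw
        exact ((memX w).1 hw).1
      · obtain ⟨z, hz, hzmin⟩ := Finset.exists_min_image Y (fun x => lev x) hYn
        have hzl := (hY' z hz).2
        obtain ⟨w, hw⟩ := uc_nonempty H (x := z) (by omega)
        have hwl := lev_uc H hw
        refine ⟨w, (memX w).2 ⟨?_, z, hz, hw⟩⟩
        by_contra h
        have h1 := hcl z hz w hw (by omega)
        have h2 := hzmin w h1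
        omega
    · push Not at hcl
      obtain ⟨x, hx, w, hw, hwl, hwY⟩ := hcl
      rw [Finset.sum_eq_zero, map_zero]
      intro f hf
      refine tC_zero C fun hL => ?_
      have hxl := (hY' x hx).2
      refine ind_bad S (z := x) (by omega) (by omega) ?_ ⟨w, hw, ?_⟩ (adm_low.1 hL)
      · rw [Pi.add_apply]
        unfold ind
        rw [if_pos hx]
        omega
      · rw [Pi.add_apply, hDf hf w hwl]
        unfold ind
        rw [if_neg hwY]

end Pool.Agent.GaussPoset.Jk

end
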