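import Mathlib
import Pool.Agent.W_448zz_h61.Ns
import Pool.Agent.W_448zz_h61.M011
import Pool.Agent.W_448zz_h61.M013
import Pool.Agent.W_448zz_h61.M024
import Pool.Agent.W_448zz_h61.M072

/-! From `Pool.Agent.W_448so_h64.SoF` -/

section

/-!
SECOND ORDER THEOREM (MP_448cb3_co, proofs row 476): the abstract setting is realised by the windows of a
Gaussian poset.
-/

namespace Pool.Agent.GaussPoset.Win.SO

set_option linter.unusedSectionVars false

open Finset
open Pool.Agent.GaussPoset.Win.I2 (kd gu kl kn kr so cc fr KK KD mem_kn mem_kr mem_so kd_iff kl_iff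
  lS uS mem_lS mem_uS kd_dc kd_uc gu_uc gu_dc adm_low adm_up KD_low KD_up fr_low fr_up Side0
  side0_low side0_up kk)
-- (open list not needed)

universe u

variable {P : Type u} [Fintype P] [PartialOrder P] [DecidableEq P] {r i : ℕ} {psi : P → P}
  {e : P → ℕ}

/-- distance below the window -/
noncomputable def tL (i : ℕ) (x : P) : ℕ := lev x - i

/-- distance above the window -/
noncomputable def tU (i : ℕ) (x : P) : ℕ := i - lev x

lemma sde_low (H : Gr P r) (i : ℕ) : Sde uc dc (tL (P := P) i) (lv P i) (lS P i) := by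
  have h := side0_low H i
  exact ⟨h.dual, h.c2, h.c2', h.ne, h.tS, h.tV, h.cin, h.cout⟩

lemma sde_up (H : Gr P r) (hir : i ≤ r) : Sde dc uc (tU (P := P) i) (lv P i) (uS P i) := by
  have h := side0_up H hir
  exact ⟨h.dual, h.c2, h.c2', h.ne, h.tS, h.tV, h.cin, h.cout⟩

/-- the near level condition below the window -/
def NLL (P : Type u) [Fintype P] [PartialOrder P] [DecidableEq P] (i : ℕ) : Prop :=
  NL uc (tL (P := P) i) (lS P i)

/-- the near level condition above the window -/
def NLU (P : Type u) [Fintype P] [PartialOrder P] [DecidableEq P] (i : ℕ) : Prop :=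
  NL dc (tU (P := P) i) (uS P i)

/-- the two sides of the window `i` -/
theorem two_of (H : Gr P r) (hi2 : i + 1 ≤ r) (hM : Mat P i ∅ psi) (h1 : NLL P i)
    (h2 : NLU P i) :
    Two uc dc (tL (P := P) i) (tU i) (lv P i) (lS P i) (uS P i) psi where
  s1 := sde_low H i
  s2 := sde_up H (by omega)
  nl1 := h1
  nl2 := h2
  psi1 := by
    classical
    intro x hx ht hc
    rw [mem_lS] at hx
    unfold tL at ht
    have hd : x ∈ dbL P i := by unfold dbL; rw [mem_filter]; exact ⟨mem_univ _, by omega, hc⟩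
    obtain ⟨g1, g2⟩ := hM.low x hd (by simp)
    have g3 := (hM.invol x (mem_union_left _ hd) (by simp)).1
    unfold dbU at g1
    rw [mem_filter] at g1
    refine ⟨?_, ?_, g2, g3⟩
    · rw [mem_uS]; omega
    · unfold tU; omega
  psi2 := by
    classical
    intro x hx ht hc
    rw [mem_uS] at hx
    unfold tU at ht
    have hd : x ∈ dbU P i := by unfold dbU; rw [mem_filter]; exact ⟨mem_univ _, by omega, hc⟩
    obtain ⟨g1, g2⟩ := hM.upp x hd (by simp)
    have g3 := (hM.invol x (mem_union_right _ hd) (by simp)).1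
    unfold dbL at g1
    rw [mem_filter] at g1
    refine ⟨?_, ?_, g2, g3⟩
    · rw [mem_lS]; omega
    · unfold tL; omega
  d1 := by
    rw [disjoint_left]
    intro x hx hx'
    rw [mem_lS] at hx
    rw [mem_lv] at hx'
    omega
  d2 := by
    rw [disjoint_left]
    intro x hx hx'
    rw [mem_uS] at hx
    rw [mem_lv] at hx'
    omega
  d3 := by
    rw [disjoint_left]
    intro x hx hx'
    rw [mem_lS] at hx
    rw [mem_uS] at hx'
    omega

/-- an untouched excited near element of a core is a double with touched partner -/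
lemma core_near (hc : IsCore i ∅ psi e) {x : P} (hx : x ∈ near P i) (he : 0 < e x) :
    x ∈ Tch i e ∨ (x ∈ dbL P i ∪ dbU P i ∧ psi x ∈ Tch i e) := by
  by_contra h
  rw [not_or] at h
  have h1 : x ∈ Rst i ∅ psi e := mem_Rst.2 ⟨hx, by simp, h.1, h.2⟩
  have := hc x h1
  omega

/-- the configuration of a core -/
theorem cfg_of (H : Gr P r) (hi2 : i + 1 ≤ r) (hM : Mat P i ∅ psi) (hc : IsCore i ∅ psi e)
    (hA : AdmL i e) (hB : AdmU i e) (hd : Disjoint (AL i e) (AU i e)) :
    Cfg uc dc (tL (P := P) i) (tU i) (lv P i) (lS P i) (uS P i) psi e where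
  adm1 := adm_low hA
  adm2 := adm_up hB
  dis := by rw [KD_low, KD_up]; exact hd
  core1 := by
    classical
    intro x hx ht he
    rw [mem_lS] at hx
    unfold tL at ht
    have hl : lev x = i + 1 := by omega
    have hn : x ∈ near P i := by unfold near; rw [mem_filter]; exact ⟨mem_univ _, Or.inl hl⟩
    rcases core_near hc hn he with h | ⟨h1, h2⟩
    · left
      unfold Tch at h
      rw [mem_filter] at h
      rcases h.2 with ⟨-, z, hz, hz'⟩ | ⟨h3, -⟩
      · exact ⟨z, mem_dc.2 hz, hz'⟩
      · omega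
    · right
      rw [mem_union] at h1
      have hd : x ∈ dbL P i := by
        rcases h1 with h1 | h1
        · exact h1
        · unfold dbU at h1; rw [mem_filter] at h1; omega
      obtain ⟨g1, g2⟩ := hM.low x hd (by simp)
      unfold dbL at hd
      unfold dbU at g1
      rw [mem_filter] at hd g1
      refine ⟨hd.2.2, ?_⟩
      unfold Tch at h2
      rw [mem_filter] at h2
      rcases h2.2 with ⟨h3, -⟩ | ⟨-, z, hz, hz'⟩
      · omega
      · exact ⟨z, mem_uc.2 hz, hz'⟩
  core2 := by
    classical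
    intro x hx ht he
    rw [mem_uS] at hx
    unfold tU at ht
    have hl : lev x + 1 = i := by omega
    have hn : x ∈ near P i := by unfold near; rw [mem_filter]; exact ⟨mem_univ _, Or.inr hl⟩
    rcases core_near hc hn he with h | ⟨h1, h2⟩
    · left
      unfold Tch at h
      rw [mem_filter] at h
      rcases h.2 with ⟨h3, -⟩ | ⟨-, z, hz, hz'⟩
      · omega
      · exact ⟨z, mem_uc.2 hz, hz'⟩
    · right
      rw [mem_union] at h1
      have hd : x ∈ dbU P i := by
        rcases h1 with h1 | h1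
        · unfold dbL at h1; rw [mem_filter] at h1; omega
        · exact h1
      obtain ⟨g1, g2⟩ := hM.upp x hd (by simp)
      unfold dbU at hd
      unfold dbL at g1
      rw [mem_filter] at hd g1
      refine ⟨hd.2.2, ?_⟩
      unfold Tch at h2
      rw [mem_filter] at h2
      rcases h2.2 with ⟨-, z, hz, hz'⟩ | ⟨h3, -⟩
      · exact ⟨z, mem_dc.2 hz, hz'⟩
      · omega

/-- surplus and deficits -/
lemma kS_sum (i : ℕ) (e : P → ℕ) :
    kS uc dc (lv P i) (lS P i) e + kS dc uc (lv P i) (uS P i) e =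
      ((AL i e).card + (AU i e).card : ℕ) - ((pL i e + pU i e : ℕ) : ℤ) := by
  unfold kS
  rw [KD_low, KD_up, fr_low, fr_up]
  push_cast
  ring

lemma cheap_of {k : ℕ}
    (h : kS uc dc (lv P i) (lS P i) e + kS dc uc (lv P i) (uS P i) e ≤ (k : ℤ)) :
    Cheap k i e := by
  rw [kS_sum] at h
  right; right; right
  omega

/-- pendants are the elements of `PD` -/
lemma pen_low (H : Gr P r) {p y : P} (h : Pen uc (tL (P := P) i) (lS P i) p y) :
    p ∈ PD P i ∧ lev p = i + 2 ∧ lev y = i + 1 ∧ uc p = {y} ∧ (uc y).card = 2 := by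
  obtain ⟨h1, h2, h3, h4⟩ := h
  rw [mem_lS] at h1
  unfold tL at h2
  have h5 : y ∈ uc p := by rw [h3]; simp
  have h6 := lev_uc H h5
  refine ⟨?_, by omega, by omega, h3, h4⟩
  exact mem_PD.2 ⟨by omega, by rw [h3]; simp, y, mem_uc.1 h5, h4⟩

lemma pen_up (H : Gr P r) {p y : P} (h : Pen dc (tU (P := P) i) (uS P i) p y) :
    p ∈ PU P i ∧ lev p + 2 = i ∧ lev y + 1 = i ∧ dc p = {y} ∧ (dc y).card = 2 := by
  obtain ⟨h1, h2, h3, h4⟩ := h
  rw [mem_uS] at h1
  unfold tU at h2
  have h5 : y ∈ dc p := by rw [h3]; simp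
  have h6 := lev_dc H h5
  refine ⟨?_, by omega, by omega, h3, h4⟩
  exact mem_PU.2 ⟨by omega, by rw [h3]; simp, y, mem_dc.1 h5, h4⟩

/-- T data below the window -/
lemma td_low (H : Gr P r) {w x x' s : P} (h : TD uc (tL (P := P) i) (lS P i) w x x' s) :
    lev w = i + 2 ∧ lev x = i + 1 ∧ lev x' = i + 1 ∧ lev s = i ∧
      ∃ a b, uc x = {a, s} ∧ uc x' = {s, b} ∧ a ≠ s ∧ s ≠ b ∧ a ≠ b := by
  obtain ⟨h1, h2, h3, h4, h5, h6, h7, h8, h9⟩ := h
  rw [mem_lS] at h1
  unfold tL at h2
  have g1 := lev_uc H (x := w) (v := x) (by rw [h3]; simp)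
  have g2 := lev_uc H (x := w) (v := x') (by rw [h3]; simp)
  have g3 := lev_uc H h7
  refine ⟨by omega, by omega, by omega, by omega, ?_⟩
  have k1 : ((uc x).erase s).card = 1 := by rw [card_erase_of_mem h7]; omega
  have k2 : ((uc x').erase s).card = 1 := by rw [card_erase_of_mem h8]; omega
  obtain ⟨a, ha⟩ := card_eq_one.1 k1
  obtain ⟨b, hb⟩ := card_eq_one.1 k2
  have ha' : a ∈ (uc x).erase s := by rw [ha]; simp
  have hb' : b ∈ (uc x').erase s := by rw [hb]; simp
  rw [mem_erase] at ha' hb'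
  refine ⟨a, b, ?_, ?_, ha'.1, hb'.1.symm, ?_⟩
  · rw [← insert_erase h7, ha, pair_comm]
  · rw [← insert_erase h8, hb]
  · rintro rfl
    exact ha'.1 (h9 a ha'.2 hb'.2)

/-- T data above the window -/
lemma td_up (H : Gr P r) {w x x' s : P} (h : TD dc (tU (P := P) i) (uS P i) w x x' s) :
    lev w + 2 = i ∧ lev x + 1 = i ∧ lev x' + 1 = i ∧ lev s = i ∧
      ∃ a b, dc x = {a, s} ∧ dc x' = {s, b} ∧ a ≠ s ∧ s ≠ b ∧ a ≠ b := by
  obtain ⟨h1, h2, h3, h4, h5, h6, h7, h8, h9⟩ := h
  rw [mem_uS] at h1
  unfold tU at h2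
  have g1 := lev_dc H (x := w) (v := x) (by rw [h3]; simp)
  have g2 := lev_dc H (x := w) (v := x') (by rw [h3]; simp)
  have g3 := lev_dc H h7
  refine ⟨by omega, by omega, by omega, by omega, ?_⟩
  have k1 : ((dc x).erase s).card = 1 := by rw [card_erase_of_mem h7]; omega
  have k2 : ((dc x').erase s).card = 1 := by rw [card_erase_of_mem h8]; omega
  obtain ⟨a, ha⟩ := card_eq_one.1 k1
  obtain ⟨b, hb⟩ := card_eq_one.1 k2
  have ha' : a ∈ (dc x).erase s := by rw [ha]; simp
  have hb' : b ∈ (dc x').erase s := by rw [hb]; simp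
  rw [mem_erase] at ha' hb'
  refine ⟨a, b, ?_, ?_, ha'.1, hb'.1.symm, ?_⟩
  · rw [← insert_erase h7, ha, pair_comm]
  · rw [← insert_erase h8, hb]
  · rintro rfl
    exact ha'.1 (h9 a ha'.2 hb'.2)

end Pool.Agent.GaussPoset.Win.SO

end

/-! From `Pool.Agent.W_448so_h63.EC` -/

section

/-!
SECOND ORDER THEOREM (MP_448cb3_co, proofs row 476): values of explicit configurations (closed pairs, flips, N1).
-/

set_option autoImplicit false

namespace Pool.Agent.GaussPoset.Win.SO

set_option linter.unusedSectionVars false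

open Finset
open Pool.Agent.GaussPoset.Win.I2 (lS uS mem_lS mem_uS)

universe u

variable {P : Type u} [Fintype P] [PartialOrder P] [DecidableEq P] {r i : ℕ}
  {e : P → ℕ} {C : Finset P}

/-- the data of a labelling below the window -/
structure LowD (i : ℕ) (e : P → ℕ) (K F B : Finset P) : Prop where
  kl : ∀ z, i < lev z → (FD e z ↔ z ∈ K)
  si : ∀ z, lev z = i → (FD e z ↔ z ∈ B)
  gu : ∀ z, i < lev z → (GU e z ↔ z ∉ K ∧ z ∉ F)
  lk : ∀ z ∈ K, i < lev z
  lf : ∀ z ∈ F, i < lev z ∧ z ∉ K
  lb : ∀ z ∈ B, lev z = i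

/-- the data of a labelling above the window -/
structure UppD (i : ℕ) (e : P → ℕ) (K F B : Finset P) : Prop where
  kl : ∀ z, lev z < i → (FU e z ↔ z ∈ K)
  si : ∀ z, lev z = i → (FU e z ↔ z ∈ B)
  gd : ∀ z, lev z < i → (GD e z ↔ z ∉ K ∧ z ∉ F)
  lk : ∀ z ∈ K, lev z < i
  lf : ∀ z ∈ F, lev z < i ∧ z ∉ K
  lb : ∀ z ∈ B, lev z = i

variable {K F B K' F' B' : Finset P}

lemma LowD.adm (D : LowD i e K F B) : AdmL i e := by
  rintro z hz ⟨h1, h2⟩
  exact ((D.gu z hz).1 h2).1 ((D.kl z hz).1 h1)

lemma LowD.aL_eq (D : LowD i e K F B) : aL i e = K.card := by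
  classical
  unfold aL
  congr 1
  ext z
  rw [mem_filter]
  constructor
  · rintro ⟨-, h1, h2⟩
    exact (D.kl z h1).1 h2
  · intro h
    exact ⟨mem_univ _, D.lk z h, (D.kl z (D.lk z h)).2 h⟩

lemma LowD.pL_eq (D : LowD i e K F B) : pL i e = F.card := by
  classical
  unfold pL
  congr 1
  ext z
  rw [mem_filter]
  constructor
  · rintro ⟨-, h1, h2, h3⟩
    by_contra h4
    exact h3 ((D.gu z h1).2 ⟨fun h5 => h2 ((D.kl z h1).2 h5), h4⟩)
  · intro h
    obtain ⟨h1, h2⟩ := D.lf z h
    exact ⟨mem_univ _, h1, fun h3 => h2 ((D.kl z h1).1 h3), fun h3 => ((D.gu z h1).1 h3).2 h⟩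

lemma LowD.AL_eq (D : LowD i e K F B) : AL i e = B := by
  classical
  ext z
  rw [NormD_mem_AL]
  constructor
  · rintro ⟨h1, h2⟩
    exact (D.si z h1).1 h2
  · intro h
    exact ⟨D.lb z h, (D.si z (D.lb z h)).2 h⟩

lemma UppD.adm (D : UppD i e K F B) : AdmU i e := by
  rintro z hz ⟨h1, h2⟩
  exact ((D.gd z hz).1 h2).1 ((D.kl z hz).1 h1)

lemma UppD.aU_eq (D : UppD i e K F B) : aU i e = K.card := by
  classical
  unfold aU
  congr 1
  ext z
  rw [mem_filter]
  constructor
  · rintro ⟨-, h1, h2⟩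
    exact (D.kl z h1).1 h2
  · intro h
    exact ⟨mem_univ _, D.lk z h, (D.kl z (D.lk z h)).2 h⟩

lemma UppD.pU_eq (D : UppD i e K F B) : pU i e = F.card := by
  classical
  unfold pU
  congr 1
  ext z
  rw [mem_filter]
  constructor
  · rintro ⟨-, h1, h2, h3⟩
    by_contra h4
    exact h3 ((D.gd z h1).2 ⟨fun h5 => h2 ((D.kl z h1).2 h5), h4⟩)
  · intro h
    obtain ⟨h1, h2⟩ := D.lf z h
    exact ⟨mem_univ _, h1, fun h3 => h2 ((D.kl z h1).1 h3), fun h3 => ((D.gd z h1).1 h3).2 h⟩

lemma UppD.AU_eq (D : UppD i e K F B) : AU i e = B := by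
  classical
  ext z
  rw [NormD_mem_AU]
  constructor
  · rintro ⟨h1, h2⟩
    exact (D.si z h1).1 h2
  · intro h
    exact ⟨D.lb z h, (D.si z (D.lb z h)).2 h⟩

lemma coef_units (a b n : ℕ) :
    PowerSeries.coeff n (dd ^ n * (xx ^ a * xi ^ b) : A) = (-1) ^ (a + b) := by
  have h1 : PowerSeries.coeff n (dd ^ n * (xx ^ a * xi ^ b) : A) =
      PowerSeries.coeff 0 (xx ^ a * xi ^ b : A) := by
    have h := PowerSeries.coeff_X_pow_mul (xx ^ a * xi ^ b : A) n 0
    rw [zero_add] at h
    exact h
  have hx : PowerSeries.constantCoeff (xx : A) = -1 := by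
    unfold xx dd
    simp
  have hy : PowerSeries.constantCoeff (xi : A) = -1 := by
    unfold xi
    rw [map_neg, ← PowerSeries.coeff_zero_eq_constantCoeff_apply, PowerSeries.coeff_mk]
  rw [h1, PowerSeries.coeff_zero_eq_constantCoeff_apply, map_mul, map_pow, map_pow, hx, hy, pow_add]

/-- THE VALUE of a labelling with two deficits -/
theorem val_of (H : Gr P r) (hC : Part (i + 1) C) (hs : Spt C e)
    (D : LowD i e K F B) (D' : UppD i e K' F' B') (hd : Disjoint B B')
    (h2 : B.card + B'.card = F.card + F'.card + 2) :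
    AdmL i e ∧ AdmU i e ∧ Disjoint (AL i e) (AU i e) ∧
      dd ^ ((st i C).card - 2) ∣ tC i C e ∧
      PowerSeries.coeff (st i C).card (dd ^ 2 * tC i C e : A) =
        (-1) ^ (K.card + B.card + (K'.card + F'.card)) := by
  classical
  have hCi : Part i C := ⟨fun h1 h2 => hC.up h1 h2, fun h1 h2 h3 => hC.dn h1 (by omega) h3⟩
  have hdis : Disjoint (AL i e) (AU i e) := by rw [D.AL_eq, D'.AU_eq]; exact hd
  have s1 : B ∪ B' ⊆ st i C := by
    rw [← D.AL_eq, ← D'.AU_eq]
    exact union_subset (AL_sub hCi hs) (AU_sub H hCi hs)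
  have s2 := card_le_card s1
  rw [card_union_of_disjoint hd] at s2
  have ht : tC i C e = dd ^ ((st i C).card - 2) *
      (xx ^ (K.card + B.card) * xi ^ (K'.card + F'.card)) := by
    unfold tC cw
    rw [if_pos hdis, if_pos ⟨D.adm, D'.adm⟩, D.aL_eq, D.pL_eq, D.AL_eq, D'.aU_eq, D'.pU_eq,
      D'.AU_eq]
    have h3 : (st i C).card - 2 = (F.card + F'.card) + ((st i C).card - B.card - B'.card) := by
      omega
    rw [h3, pow_add (dd : A) (F.card + F'.card), pow_add (xx : A)]
    ring
  refine ⟨D.adm, D'.adm, hdis, ?_, ?_⟩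
  · rw [ht]
    exact dvd_mul_right _ _
  · rw [ht, ← mul_assoc, ← pow_add, show 2 + ((st i C).card - 2) = (st i C).card by omega]
    exact coef_units _ _ _

/-- nothing above the window -/
lemma upp_none (H : Gr P r) (hir : i ≤ r) (h : ∀ z, lev z < i → e z = 0) :
    UppD i e (∅ : Finset P) ∅ ∅ where
  kl := by
    intro z hz
    constructor
    · rintro ⟨y, hy, hlt⟩
      have := lev_cov H hy
      rw [h y (by omega)] at hlt
      omega
    · intro h'
      exact absurd h' (notMem_empty _)
  si := by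
    intro z hz
    constructor
    · rintro ⟨y, hy, hlt⟩
      have := lev_cov H hy
      rw [h y (by omega)] at hlt
      omega
    · intro h'
      exact absurd h' (notMem_empty _)
  gd := by
    intro z hz
    constructor
    · intro _
      exact ⟨notMem_empty _, notMem_empty _⟩
    · intro _
      obtain ⟨y, hy⟩ := dc_nonempty H (x := z) (by omega)
      exact ⟨y, mem_dc.1 hy, by rw [h z hz]; exact Nat.zero_le _⟩
  lk := fun z hz => absurd hz (notMem_empty _)
  lf := fun z hz => absurd hz (notMem_empty _)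
  lb := fun z hz => absurd hz (notMem_empty _)

/-- nothing below the window -/
lemma low_none (H : Gr P r) (h : ∀ z, i < lev z → e z = 0) :
    LowD i e (∅ : Finset P) ∅ ∅ where
  kl := by
    intro z hz
    constructor
    · rintro ⟨y, hy, hlt⟩
      have := lev_cov H hy
      rw [h y (by omega)] at hlt
      omega
    · intro h'
      exact absurd h' (notMem_empty _)
  si := by
    intro z hz
    constructor
    · rintro ⟨y, hy, hlt⟩
      have := lev_cov H hy
      rw [h y (by omega)] at hlt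
      omega
    · intro h'
      exact absurd h' (notMem_empty _)
  gu := by
    intro z hz
    constructor
    · intro _
      exact ⟨notMem_empty _, notMem_empty _⟩
    · intro _
      obtain ⟨y, hy⟩ := uc_nonempty H (x := z) (by omega)
      exact ⟨y, mem_uc.1 hy, by rw [h z hz]; exact Nat.zero_le _⟩
  lk := fun z hz => absurd hz (notMem_empty _)
  lf := fun z hz => absurd hz (notMem_empty _)
  lb := fun z hz => absurd hz (notMem_empty _)

/-! ### T-elements below the window -/

section TDL

variable {w x x' s : P}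

lemma TD.lw (T : TD uc (tL (P := P) i) (lS P i) w x x' s) : lev w = i + 2 := by
  have h1 := mem_lS.1 T.m
  have h2 := T.tw
  unfold tL at h2
  omega

lemma TD.lx (H : Gr P r) (T : TD uc (tL (P := P) i) (lS P i) w x x' s) :
    lev x = i + 1 ∧ lev x' = i + 1 := by
  have h1 := T.lw
  have h2 := lev_uc H (x := w) (v := x) (by rw [T.cw]; exact mem_insert_self _ _)
  have h3 := lev_uc H (x := w) (v := x') (by
    rw [T.cw]; exact mem_insert_of_mem (mem_singleton_self _))
  omega

lemma TD.site (H : Gr P r) (T : TD uc (tL (P := P) i) (lS P i) w x x' s) {v : P}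
    (hv : v ∈ uc x ∪ uc x') : lev v = i := by
  obtain ⟨h1, h2⟩ := T.lx H
  rcases mem_union.1 hv with h | h
  · have := lev_uc H h
    omega
  · have := lev_uc H h
    omega

lemma TD.three {c : P → Finset P} {t : P → ℕ} {Sd : Finset P} (T : TD c t Sd w x x' s) :
    (c x ∪ c x').card = 3 := by
  have h1 : c x ∩ c x' = {s} := by
    ext v
    rw [mem_inter, mem_singleton]
    constructor
    · rintro ⟨h1, h2⟩
      exact T.only v h1 h2
    · rintro rfl
      exact ⟨T.sx, T.sx'⟩
  have h2 := card_union_add_card_inter (c x) (c x')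
  rw [h1, card_singleton, T.cx, T.cx'] at h2
  omega

lemma TD.lw' (T : TD dc (tU (P := P) i) (uS P i) w x x' s) : lev w + 2 = i := by
  have h1 := mem_uS.1 T.m
  have h2 := T.tw
  unfold tU at h2
  omega

lemma TD.lx' (H : Gr P r) (T : TD dc (tU (P := P) i) (uS P i) w x x' s) :
    lev x + 1 = i ∧ lev x' + 1 = i := by
  have h1 := T.lw'
  have h2 := lev_dc H (x := w) (v := x) (by rw [T.cw]; exact mem_insert_self _ _)
  have h3 := lev_dc H (x := w) (v := x') (by
    rw [T.cw]; exact mem_insert_of_mem (mem_singleton_self _))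
  omega

lemma TD.site' (H : Gr P r) (T : TD dc (tU (P := P) i) (uS P i) w x x' s) {v : P}
    (hv : v ∈ dc x ∪ dc x') : lev v = i := by
  obtain ⟨h1, h2⟩ := T.lx' H
  rcases mem_union.1 hv with h | h
  · have := lev_dc H h
    omega
  · have := lev_dc H h
    omega

end TDL

/-- labels `w = 2`, one more element `z` over `x, x'` or over `w`, `x = x' = 1`, below the window -/
lemma low_two (H : Gr P r) {w x x' s z : P} (T : TD uc (tL (P := P) i) (lS P i) w x x' s)
    (hz : i + 1 < lev z) (hew : e w = 2) (hex : e x = 1) (hex' : e x' = 1)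
    (he : ∀ y, i ≤ lev y → y ≠ w → y ≠ x → y ≠ x' → y ≠ z → e y = 0)
    (hzk : ∀ y, z ⋖ y → e y < e z → y = x ∨ y = x') (hzg : GU e z) (hzw : z ≠ w) :
    LowD i e {x, x'} {w} (uc x ∪ uc x') := by
  have lw := T.lw
  obtain ⟨lx, lx'⟩ := T.lx H
  have hwx : w ⋖ x := by rw [← mem_uc, T.cw]; exact mem_insert_self _ _
  have hwx' : w ⋖ x' := by
    rw [← mem_uc, T.cw]; exact mem_insert_of_mem (mem_singleton_self _)
  have hsite : ∀ v, lev v = i → e v = 0 := by
    intro v hv
    refine he v (by omega) ?_ ?_ ?_ ?_ <;> rintro rfl <;> omega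
  refine ⟨?_, ?_, ?_, ?_, ?_, ?_⟩
  · intro v hv
    rw [mem_insert, mem_singleton]
    constructor
    · rintro ⟨y, hy, hlt⟩
      have hl := lev_cov H hy
      by_cases h1 : y = w
      · subst h1
        rw [← mem_uc, T.cw, mem_insert, mem_singleton] at hy
        exact hy
      by_cases h2 : y = x
      · subst h2; omega
      by_cases h3 : y = x'
      · subst h3; omega
      by_cases h4 : y = z
      · subst h4
        exact hzk v hy hlt
      · rw [he y (by omega) h1 h2 h3 h4] at hlt
        omega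
    · rintro (rfl | rfl)
      · exact ⟨w, hwx, by omega⟩
      · exact ⟨w, hwx', by omega⟩
  · intro v hv
    rw [mem_union]
    constructor
    · rintro ⟨y, hy, hlt⟩
      have hl := lev_cov H hy
      by_cases h1 : y = w
      · subst h1; omega
      by_cases h2 : y = x
      · subst h2; exact Or.inl (mem_uc.2 hy)
      by_cases h3 : y = x'
      · subst h3; exact Or.inr (mem_uc.2 hy)
      by_cases h4 : y = z
      · subst h4; omega
      · rw [he y (by omega) h1 h2 h3 h4] at hlt
        omega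
    · rintro (h | h)
      · exact ⟨x, mem_uc.1 h, by rw [hsite v hv]; omega⟩
      · exact ⟨x', mem_uc.1 h, by rw [hsite v hv]; omega⟩
  · intro v hv
    rw [mem_insert, mem_singleton, mem_singleton]
    constructor
    · rintro ⟨y, hy, hle⟩
      have hl := lev_cov H hy
      refine ⟨?_, ?_⟩
      · rintro (rfl | rfl)
        · rw [hsite y (by omega)] at hle; omega
        · rw [hsite y (by omega)] at hle; omega
      · rintro rfl
        rw [← mem_uc, T.cw, mem_insert, mem_singleton] at hy
        rcases hy with rfl | rfl <;> omega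
    · rintro ⟨h1, h2⟩
      push Not at h1
      by_cases h4 : v = z
      · subst h4; exact hzg
      · obtain ⟨y, hy⟩ := uc_nonempty H (x := v) (by omega)
        refine ⟨y, mem_uc.1 hy, ?_⟩
        rw [he v (by omega) h2 h1.1 h1.2 h4]
        exact Nat.zero_le _
  · intro v hv
    rw [mem_insert, mem_singleton] at hv
    rcases hv with rfl | rfl <;> omega
  · intro v hv
    rw [mem_singleton] at hv
    subst hv
    refine ⟨by omega, ?_⟩
    rw [mem_insert, mem_singleton]
    rintro (rfl | rfl) <;> omega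
  · intro v hv
    exact T.site H hv

/-- labels `z = w = 2`, `x = x' = 1` above the window -/
lemma upp_two (H : Gr P r) (hir : i ≤ r) {w x x' s z : P}
    (T : TD dc (tU (P := P) i) (uS P i) w x x' s)
    (hz : lev z + 1 < i) (hew : e w = 2) (hex : e x = 1) (hex' : e x' = 1)
    (he : ∀ y, lev y ≤ i → y ≠ w → y ≠ x → y ≠ x' → y ≠ z → e y = 0)
    (hzk : ∀ y, y ⋖ z → e y < e z → y = x ∨ y = x') (hzg : GD e z) (hzw : z ≠ w) :
    UppD i e {x, x'} {w} (dc x ∪ dc x') := by
  have lw := T.lw'
  obtain ⟨lx, lx'⟩ := T.lx' H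
  have hwx : x ⋖ w := by rw [← mem_dc, T.cw]; exact mem_insert_self _ _
  have hwx' : x' ⋖ w := by
    rw [← mem_dc, T.cw]; exact mem_insert_of_mem (mem_singleton_self _)
  have hsite : ∀ v, lev v = i → e v = 0 := by
    intro v hv
    refine he v (by omega) ?_ ?_ ?_ ?_ <;> rintro rfl <;> omega
  refine ⟨?_, ?_, ?_, ?_, ?_, ?_⟩
  · intro v hv
    rw [mem_insert, mem_singleton]
    constructor
    · rintro ⟨y, hy, hlt⟩
      have hl := lev_cov H hy
      by_cases h1 : y = w
      · subst h1
        rw [← mem_dc, T.cw, mem_insert, mem_singleton] at hy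
        exact hy
      by_cases h2 : y = x
      · subst h2; omega
      by_cases h3 : y = x'
      · subst h3; omega
      by_cases h4 : y = z
      · subst h4
        exact hzk v hy hlt
      · rw [he y (by omega) h1 h2 h3 h4] at hlt
        omega
    · rintro (rfl | rfl)
      · exact ⟨w, hwx, by omega⟩
      · exact ⟨w, hwx', by omega⟩
  · intro v hv
    rw [mem_union]
    constructor
    · rintro ⟨y, hy, hlt⟩
      have hl := lev_cov H hy
      by_cases h1 : y = w
      · subst h1; omega
      by_cases h2 : y = x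
      · subst h2; exact Or.inl (mem_dc.2 hy)
      by_cases h3 : y = x'
      · subst h3; exact Or.inr (mem_dc.2 hy)
      by_cases h4 : y = z
      · subst h4; omega
      · rw [he y (by omega) h1 h2 h3 h4] at hlt
        omega
    · rintro (h | h)
      · exact ⟨x, mem_dc.1 h, by rw [hsite v hv]; omega⟩
      · exact ⟨x', mem_dc.1 h, by rw [hsite v hv]; omega⟩
  · intro v hv
    rw [mem_insert, mem_singleton, mem_singleton]
    constructor
    · rintro ⟨y, hy, hle⟩
      have hl := lev_cov H hy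
      refine ⟨?_, ?_⟩
      · rintro (rfl | rfl)
        · rw [hsite y (by omega)] at hle; omega
        · rw [hsite y (by omega)] at hle; omega
      · rintro rfl
        rw [← mem_dc, T.cw, mem_insert, mem_singleton] at hy
        rcases hy with rfl | rfl <;> omega
    · rintro ⟨h1, h2⟩
      push Not at h1
      by_cases h4 : v = z
      · subst h4; exact hzg
      · obtain ⟨y, hy⟩ := dc_nonempty H (x := v) (by omega)
        refine ⟨y, mem_dc.1 hy, ?_⟩
        rw [he v (by omega) h2 h1.1 h1.2 h4]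
        exact Nat.zero_le _
  · intro v hv
    rw [mem_insert, mem_singleton] at hv
    rcases hv with rfl | rfl <;> omega
  · intro v hv
    rw [mem_singleton] at hv
    subst hv
    refine ⟨by omega, ?_⟩
    rw [mem_insert, mem_singleton]
    rintro (rfl | rfl) <;> omega
  · intro v hv
    exact T.site' H hv

/-! ### one sum of labels -/

lemma sum_on (s : Finset P) (h : On e s) : ∑ x, e x = s.card := by
  rw [sum_congr rfl fun x _ => h x, sum_ite_mem, univ_inter, sum_const, smul_eq_mul, mul_one]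

/-- N1 below the window -/
theorem n1_val (H : Gr P r) (hir : i ≤ r) (hC : Part (i + 1) C)
    (hs : Spt C e) (h : N1 uc (tL (P := P) i) (lS P i) e) :
    AdmL i e ∧ AdmU i e ∧ Disjoint (AL i e) (AU i e) ∧ ∑ x, e x = 6 ∧
      dd ^ ((st i C).card - 2) ∣ tC i C e ∧
      PowerSeries.coeff (st i C).card (dd ^ 2 * tC i C e : A) = -1 := by
  obtain ⟨z, w, x, x', s, T, hz, hcz, he⟩ := h
  have lw := T.lw
  obtain ⟨lx, lx'⟩ := T.lx H
  have hzw : z ⋖ w := by rw [← mem_uc, hcz]; exact mem_singleton_self _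
  have lz := lev_cov H hzw
  have nzw : z ≠ w := by rintro rfl; omega
  have nzx : x ≠ z := by rintro rfl; omega
  have nzx' : x' ≠ z := by rintro rfl; omega
  have nwx : x ≠ w := by rintro rfl; omega
  have nwx' : x' ≠ w := by rintro rfl; omega
  have ez : e z = 2 := by rw [he]; simp
  have ew : e w = 2 := by rw [he]; simp
  have ex : e x = 1 := by rw [he]; simp [nzx, nwx]
  have ex' : e x' = 1 := by rw [he]; simp [nzx', nwx']
  have h0 : ∀ y, y ≠ w → y ≠ x → y ≠ x' → y ≠ z → e y = 0 := by
    intro y h1 h2 h3 h4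
    rw [he]; simp [h1, h2, h3, h4]
  have D := low_two H T (z := z) (by omega) ew ex ex' (fun y _ => h0 y) (by
    intro y hy hlt
    rw [← mem_uc, hcz, mem_singleton] at hy
    subst hy
    omega) ⟨w, hzw, by omega⟩ nzw
  have D' : UppD i e ∅ ∅ ∅ := upp_none H hir (by
    intro y hy
    refine h0 y ?_ ?_ ?_ ?_ <;> rintro rfl <;> omega)
  obtain ⟨g1, g2, g3, g4, g5⟩ := val_of H hC hs D D' (disjoint_empty_right _) (by
    rw [T.three]; simp)
  refine ⟨g1, g2, g3, ?_, g4, ?_⟩
  · have h1 : ∀ y, e y = (if y = z then 2 else 0) + (if y = w then 2 else 0) +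
        (if y = x then 1 else 0) + (if y = x' then 1 else 0) := by
      intro y
      by_cases h1 : y = z
      · subst h1; simp [ez, nzw, Ne.symm nzx, Ne.symm nzx']
      by_cases h2 : y = w
      · subst h2; simp [ew, Ne.symm nzw, Ne.symm nwx, Ne.symm nwx']
      by_cases h3 : y = x
      · subst h3; simp [ex, nzx, nwx, T.ne]
      by_cases h4 : y = x'
      · subst h4; simp [ex', nzx', nwx', Ne.symm T.ne]
      · rw [h0 y h2 h3 h4 h1]; simp [h1, h2, h3, h4]
    rw [sum_congr rfl fun y _ => h1 y]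
    simp [sum_add_distrib]
  · rw [g5, T.three, card_pair T.ne]
    norm_num

/-- N1 above the window -/
theorem n1U_val (H : Gr P r) (hir : i ≤ r) (hC : Part (i + 1) C)
    (hs : Spt C e) (h : N1 dc (tU (P := P) i) (uS P i) e) :
    AdmL i e ∧ AdmU i e ∧ Disjoint (AL i e) (AU i e) ∧ ∑ x, e x = 6 ∧
      dd ^ ((st i C).card - 2) ∣ tC i C e ∧
      PowerSeries.coeff (st i C).card (dd ^ 2 * tC i C e : A) = -1 := by
  obtain ⟨z, w, x, x', s, T, hz, hcz, he⟩ := h
  have lw := T.lw'
  obtain ⟨lx, lx'⟩ := T.lx' H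
  have hzw : w ⋖ z := by rw [← mem_dc, hcz]; exact mem_singleton_self _
  have lz := lev_cov H hzw
  have nzw : z ≠ w := by rintro rfl; omega
  have nzx : x ≠ z := by rintro rfl; omega
  have nzx' : x' ≠ z := by rintro rfl; omega
  have nwx : x ≠ w := by rintro rfl; omega
  have nwx' : x' ≠ w := by rintro rfl; omega
  have ez : e z = 2 := by rw [he]; simp
  have ew : e w = 2 := by rw [he]; simp
  have ex : e x = 1 := by rw [he]; simp [nzx, nwx]
  have ex' : e x' = 1 := by rw [he]; simp [nzx', nwx']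
  have h0 : ∀ y, y ≠ w → y ≠ x → y ≠ x' → y ≠ z → e y = 0 := by
    intro y h1 h2 h3 h4
    rw [he]; simp [h1, h2, h3, h4]
  have D' := upp_two H hir T (z := z) (by omega) ew ex ex' (fun y _ => h0 y) (by
    intro y hy hlt
    rw [← mem_dc, hcz, mem_singleton] at hy
    subst hy
    omega) ⟨w, hzw, by omega⟩ nzw
  have D : LowD i e ∅ ∅ ∅ := low_none H (by
    intro y hy
    refine h0 y ?_ ?_ ?_ ?_ <;> rintro rfl <;> omega)
  obtain ⟨g1, g2, g3, g4, g5⟩ := val_of H hC hs D D' (disjoint_empty_left _) (by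
    rw [T.three]; simp)
  refine ⟨g1, g2, g3, ?_, g4, ?_⟩
  · have h1 : ∀ y, e y = (if y = z then 2 else 0) + (if y = w then 2 else 0) +
        (if y = x then 1 else 0) + (if y = x' then 1 else 0) := by
      intro y
      by_cases h1 : y = z
      · subst h1; simp [ez, nzw, Ne.symm nzx, Ne.symm nzx']
      by_cases h2 : y = w
      · subst h2; simp [ew, Ne.symm nzw, Ne.symm nwx, Ne.symm nwx']
      by_cases h3 : y = x
      · subst h3; simp [ex, nzx, nwx, T.ne]
      by_cases h4 : y = x'
      · subst h4; simp [ex', nzx', nwx', Ne.symm T.ne]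
      · rw [h0 y h2 h3 h4 h1]; simp [h1, h2, h3, h4]
    rw [sum_congr rfl fun y _ => h1 y]
    simp [sum_add_distrib]
  · rw [g5, card_pair T.ne, card_singleton]
    norm_num

/-- closed pair, labels `2, 1, 1, 1` -/
theorem clo_val (H : Gr P r) (hir : i ≤ r) (hC : Part (i + 1) C)
    (hs : Spt C e) {w w' x x' s : P} (h : TD uc (tL (P := P) i) (lS P i) w x x' s)
    (h' : TD uc (tL (P := P) i) (lS P i) w' x x' s) (hne : w ≠ w')
    (he : ∀ y, e y = if y = w then 2 else if y = w' ∨ y = x ∨ y = x' then 1 else 0) :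
    AdmL i e ∧ AdmU i e ∧ Disjoint (AL i e) (AU i e) ∧ ∑ x, e x = 5 ∧
      dd ^ ((st i C).card - 2) ∣ tC i C e ∧
      PowerSeries.coeff (st i C).card (dd ^ 2 * tC i C e : A) = -1 := by
  have lw := h.lw
  have lw' := h'.lw
  obtain ⟨lx, lx'⟩ := h.lx H
  have nwx : x ≠ w := by rintro rfl; omega
  have nwx' : x' ≠ w := by rintro rfl; omega
  have nvx : x ≠ w' := by rintro rfl; omega
  have nvx' : x' ≠ w' := by rintro rfl; omega
  have ew : e w = 2 := by rw [he]; simp
  have ev : e w' = 1 := by rw [he]; simp [Ne.symm hne]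
  have ex : e x = 1 := by rw [he]; simp [nwx]
  have ex' : e x' = 1 := by rw [he]; simp [nwx']
  have h0 : ∀ y, y ≠ w → y ≠ x → y ≠ x' → y ≠ w' → e y = 0 := by
    intro y h1 h2 h3 h4
    rw [he]; simp [h1, h2, h3, h4]
  have D := low_two H h (z := w') (by omega) ew ex ex' (fun y _ => h0 y) (by
    intro y hy hlt
    rw [← mem_uc, h'.cw, mem_insert, mem_singleton] at hy
    exact hy) ⟨x, by rw [← mem_uc, h'.cw]; exact mem_insert_self _ _, by omega⟩ hne.symm
  have D' : UppD i e ∅ ∅ ∅ := upp_none H hir (by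
    intro y hy
    refine h0 y ?_ ?_ ?_ ?_ <;> rintro rfl <;> omega)
  obtain ⟨g1, g2, g3, g4, g5⟩ := val_of H hC hs D D' (disjoint_empty_right _) (by
    rw [h.three]; simp)
  refine ⟨g1, g2, g3, ?_, g4, ?_⟩
  · have h1 : ∀ y, e y = (if y = w then 2 else 0) + (if y = w' then 1 else 0) +
        (if y = x then 1 else 0) + (if y = x' then 1 else 0) := by
      intro y
      by_cases h1 : y = w
      · subst h1; simp [ew, hne, Ne.symm nwx, Ne.symm nwx']
      by_cases h2 : y = w'
      · subst h2; simp [ev, Ne.symm hne, Ne.symm nvx, Ne.symm nvx']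
      by_cases h3 : y = x
      · subst h3; simp [ex, nwx, nvx, h.ne]
      by_cases h4 : y = x'
      · subst h4; simp [ex', nwx', nvx', Ne.symm h.ne]
      · rw [h0 y h1 h3 h4 h2]; simp [h1, h2, h3, h4]
    rw [sum_congr rfl fun y _ => h1 y]
    simp [sum_add_distrib]
  · rw [g5, h.three, card_pair h.ne]
    norm_num

/-- labels one below the window: a set closed under covers, with one site -/
lemma low_on (H : Gr P r) {S B : Finset P} {s : P} (he : On e S)
    (hB : ∀ v, lev v = i → (v ∈ B ↔ (v ∉ S ∧ ∃ y ∈ S, y ⋖ v)))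
    (hBl : ∀ v ∈ B, lev v = i)
    (hc : ∀ y ∈ S, i + 1 < lev y → ∀ v, y ⋖ v → v ∈ S)
    (hn : ∀ y ∈ S, lev y = i + 1 → y ⋖ s) (hs : s ∈ S) :
    LowD i e ∅ ∅ B := by
  have hk : ∀ z, i < lev z → ¬ FD e z := by
    rintro z hz ⟨y, hy, hlt⟩
    have hl := lev_cov H hy
    have h1 : y ∈ S := by
      by_contra h
      rw [he y, if_neg h] at hlt
      omega
    have h2 := hc y h1 (by omega) z hy
    rw [he z, he y, if_pos h1, if_pos h2] at hlt
    omega
  have hg : ∀ z, i < lev z → GU e z := by
    intro z hz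
    by_cases h : z ∈ S
    · rcases Nat.lt_or_ge (i + 1) (lev z) with h1 | h1
      · obtain ⟨y, hy⟩ := uc_nonempty H (x := z) (by omega)
        refine ⟨y, mem_uc.1 hy, ?_⟩
        rw [he z, he y, if_pos h, if_pos (hc z h h1 y (mem_uc.1 hy))]
      · refine ⟨s, hn z h (by omega), ?_⟩
        rw [he z, he s, if_pos h, if_pos hs]
    · obtain ⟨y, hy⟩ := uc_nonempty H (x := z) (by omega)
      refine ⟨y, mem_uc.1 hy, ?_⟩
      rw [he z, if_neg h]
      exact Nat.zero_le _
  refine ⟨?_, ?_, ?_, ?_, ?_, hBl⟩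
  · intro z hz
    exact ⟨fun h => absurd h (hk z hz), fun h => absurd h (notMem_empty _)⟩
  · intro z hz
    rw [hB z hz]
    constructor
    · rintro ⟨y, hy, hlt⟩
      have h1 : y ∈ S := by
        by_contra h
        rw [he y, if_neg h] at hlt
        omega
      refine ⟨fun h2 => ?_, y, h1, hy⟩
      rw [he z, he y, if_pos h1, if_pos h2] at hlt
      omega
    · rintro ⟨h1, y, hy, hyz⟩
      refine ⟨y, hyz, ?_⟩
      rw [he z, he y, if_pos hy, if_neg h1]
      exact Nat.zero_lt_one
  · intro z hz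
    exact ⟨fun _ => ⟨notMem_empty _, notMem_empty _⟩, fun _ => hg z hz⟩
  · exact fun z hz => absurd hz (notMem_empty _)
  · exact fun z hz => absurd hz (notMem_empty _)

/-- labels one above the window -/
lemma upp_on (H : Gr P r) (hir : i ≤ r) {S B : Finset P} {s : P} (he : On e S)
    (hB : ∀ v, lev v = i → (v ∈ B ↔ (v ∉ S ∧ ∃ y ∈ S, v ⋖ y)))
    (hBl : ∀ v ∈ B, lev v = i)
    (hc : ∀ y ∈ S, lev y + 1 < i → ∀ v, v ⋖ y → v ∈ S)
    (hn : ∀ y ∈ S, lev y + 1 = i → s ⋖ y) (hs : s ∈ S) :
    UppD i e ∅ ∅ B := by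
  have hk : ∀ z, lev z < i → ¬ FU e z := by
    rintro z hz ⟨y, hy, hlt⟩
    have hl := lev_cov H hy
    have h1 : y ∈ S := by
      by_contra h
      rw [he y, if_neg h] at hlt
      omega
    have h2 := hc y h1 (by omega) z hy
    rw [he z, he y, if_pos h1, if_pos h2] at hlt
    omega
  have hg : ∀ z, lev z < i → GD e z := by
    intro z hz
    by_cases h : z ∈ S
    · rcases Nat.lt_or_ge (lev z + 1) i with h1 | h1
      · obtain ⟨y, hy⟩ := dc_nonempty H (x := z) (by omega)
        refine ⟨y, mem_dc.1 hy, ?_⟩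
        rw [he z, he y, if_pos h, if_pos (hc z h h1 y (mem_dc.1 hy))]
      · refine ⟨s, hn z h (by omega), ?_⟩
        rw [he z, he s, if_pos h, if_pos hs]
    · obtain ⟨y, hy⟩ := dc_nonempty H (x := z) (by omega)
      refine ⟨y, mem_dc.1 hy, ?_⟩
      rw [he z, if_neg h]
      exact Nat.zero_le _
  refine ⟨?_, ?_, ?_, ?_, ?_, hBl⟩
  · intro z hz
    exact ⟨fun h => absurd h (hk z hz), fun h => absurd h (notMem_empty _)⟩
  · intro z hz
    rw [hB z hz]
    constructor
    · rintro ⟨y, hy, hlt⟩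
      have h1 : y ∈ S := by
        by_contra h
        rw [he y, if_neg h] at hlt
        omega
      refine ⟨fun h2 => ?_, y, h1, hy⟩
      rw [he z, he y, if_pos h1, if_pos h2] at hlt
      omega
    · rintro ⟨h1, y, hy, hyz⟩
      refine ⟨y, hyz, ?_⟩
      rw [he z, he y, if_pos hy, if_neg h1]
      exact Nat.zero_lt_one
  · intro z hz
    exact ⟨fun _ => ⟨notMem_empty _, notMem_empty _⟩, fun _ => hg z hz⟩
  · exact fun z hz => absurd hz (notMem_empty _)
  · exact fun z hz => absurd hz (notMem_empty _)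

/-- closed pair, all labels one -/
theorem clo_val' (H : Gr P r) (hir : i ≤ r) (hC : Part (i + 1) C)
    (hs : Spt C e) {w w' x x' s : P} (h : TD uc (tL (P := P) i) (lS P i) w x x' s)
    (h' : TD uc (tL (P := P) i) (lS P i) w' x x' s) (hne : w ≠ w')
    (he : On e {w, w', x, x', s}) :
    AdmL i e ∧ AdmU i e ∧ Disjoint (AL i e) (AU i e) ∧ ∑ x, e x = 5 ∧
      dd ^ ((st i C).card - 2) ∣ tC i C e ∧
      PowerSeries.coeff (st i C).card (dd ^ 2 * tC i C e : A) = 1 := by
  have lw := h.lw
  have lw' := h'.lw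
  obtain ⟨lx, lx'⟩ := h.lx H
  have ls := lev_uc H h.sx
  have D : LowD i e ∅ ∅ ((uc x ∪ uc x').erase s) := by
    refine low_on H (s := s) he ?_ ?_ ?_ ?_ (by simp)
    · intro v hv
      rw [mem_erase, mem_union]
      simp only [mem_insert, mem_singleton, not_or, exists_eq_or_imp, exists_eq_left]
      constructor
      · rintro ⟨g1, g2⟩
        refine ⟨⟨?_, ?_, ?_, ?_, g1⟩, ?_⟩
        · rintro rfl; omega
        · rintro rfl; omega
        · rintro rfl; omega
        · rintro rfl; omega
        · rcases g2 with g2 | g2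
          · exact Or.inr (Or.inr (Or.inl (mem_uc.1 g2)))
          · exact Or.inr (Or.inr (Or.inr (Or.inl (mem_uc.1 g2))))
      · rintro ⟨⟨-, -, -, -, g1⟩, g2⟩
        refine ⟨g1, ?_⟩
        rcases g2 with g2 | g2 | g2 | g2 | g2
        · have := lev_cov H g2; omega
        · have := lev_cov H g2; omega
        · exact Or.inl (mem_uc.2 g2)
        · exact Or.inr (mem_uc.2 g2)
        · have := lev_cov H g2; omega
    · intro v hv
      exact h.site H (mem_of_mem_erase hv)
    · intro y hy hl v hv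
      simp only [mem_insert, mem_singleton] at hy ⊢
      rcases hy with rfl | rfl | rfl | rfl | rfl
      · rw [← mem_uc, h.cw, mem_insert, mem_singleton] at hv
        tauto
      · rw [← mem_uc, h'.cw, mem_insert, mem_singleton] at hv
        tauto
      all_goals omega
    · intro y hy hl
      simp only [mem_insert, mem_singleton] at hy
      rcases hy with rfl | rfl | rfl | rfl | rfl
      · omega
      · omega
      · exact mem_uc.1 h.sx
      · exact mem_uc.1 h.sx'
      · omega
  have D' : UppD i e ∅ ∅ ∅ := upp_none H hir (by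
    intro y hy
    rw [he y, if_neg]
    simp only [mem_insert, mem_singleton]
    rintro (rfl | rfl | rfl | rfl | rfl) <;> omega)
  have hc : ((uc x ∪ uc x').erase s).card = 2 := by
    rw [card_erase_of_mem (mem_union_left _ h.sx), h.three]
  obtain ⟨g1, g2, g3, g4, g5⟩ := val_of H hC hs D D' (disjoint_empty_right _) (by
    rw [hc]; simp)
  refine ⟨g1, g2, g3, ?_, g4, ?_⟩
  · rw [sum_on _ he]
    rw [card_insert_of_notMem, card_insert_of_notMem, card_insert_of_notMem, card_pair]
    · rintro rfl; omega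
    · rw [mem_insert, mem_singleton]
      rintro (g | rfl)
      · exact h.ne g
      · omega
    · simp only [mem_insert, mem_singleton]
      rintro (rfl | rfl | rfl) <;> omega
    · simp only [mem_insert, mem_singleton]
      rintro (g | rfl | rfl | rfl)
      · exact hne g
      all_goals omega
  · rw [g5, hc]
    norm_num

/-- flip -/
theorem flp_val (H : Gr P r) (hir : i ≤ r) (hC : Part (i + 1) C)
    (hs : Spt C e) {p y p' u s : P} (h : Pen uc (tL (P := P) i) (lS P i) p y)
    (h' : Pen dc (tU (P := P) i) (uS P i) p' u) (hys : uc y ∩ dc u = {s})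
    (he : On e {p, y, s, u, p'}) :
    AdmL i e ∧ AdmU i e ∧ Disjoint (AL i e) (AU i e) ∧ ∑ x, e x = 5 ∧
      dd ^ ((st i C).card - 2) ∣ tC i C e ∧
      PowerSeries.coeff (st i C).card (dd ^ 2 * tC i C e : A) = -1 := by
  have l1 := mem_lS.1 h.m
  have l2 := h.tp
  have l3 := mem_uS.1 h'.m
  have l4 := h'.tp
  unfold tL at l2
  unfold tU at l4
  have hpy : p ⋖ y := by rw [← mem_uc, h.cp]; exact mem_singleton_self _
  have hpu : u ⋖ p' := by rw [← mem_dc, h'.cp]; exact mem_singleton_self _
  have ly := lev_cov H hpy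
  have lu := lev_cov H hpu
  have hsy : s ∈ uc y ∩ dc u := by rw [hys]; exact mem_singleton_self _
  rw [mem_inter] at hsy
  have ls := lev_uc H hsy.1
  have D : LowD i e ∅ ∅ ((uc y).erase s) := by
    refine low_on H (s := s) he ?_ ?_ ?_ ?_ (by simp)
    · intro v hv
      rw [mem_erase]
      simp only [mem_insert, mem_singleton, not_or, exists_eq_or_imp, exists_eq_left]
      constructor
      · rintro ⟨g1, g2⟩
        refine ⟨⟨?_, ?_, g1, ?_, ?_⟩, Or.inr (Or.inl (mem_uc.1 g2))⟩
        · rintro rfl; omega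
        · rintro rfl; omega
        · rintro rfl; omega
        · rintro rfl; omega
      · rintro ⟨⟨-, -, g1, -, -⟩, g2⟩
        refine ⟨g1, ?_⟩
        rcases g2 with g2 | g2 | g2 | g2 | g2
        · have := lev_cov H g2; omega
        · exact mem_uc.2 g2
        · have := lev_cov H g2; omega
        · have := lev_cov H g2; omega
        · have := lev_cov H g2; omega
    · intro v hv
      have := lev_uc H (mem_of_mem_erase hv)
      omega
    · intro z hz hl v hv
      simp only [mem_insert, mem_singleton] at hz ⊢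
      rcases hz with rfl | rfl | rfl | rfl | rfl
      · rw [← mem_uc, h.cp, mem_singleton] at hv
        tauto
      all_goals omega
    · intro z hz hl
      simp only [mem_insert, mem_singleton] at hz
      rcases hz with rfl | rfl | rfl | rfl | rfl
      · omega
      · exact mem_uc.1 hsy.1
      all_goals omega
  have D' : UppD i e ∅ ∅ ((dc u).erase s) := by
    refine upp_on H hir (s := s) he ?_ ?_ ?_ ?_ (by simp)
    · intro v hv
      rw [mem_erase]
      simp only [mem_insert, mem_singleton, not_or, exists_eq_or_imp, exists_eq_left]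
      constructor
      · rintro ⟨g1, g2⟩
        refine ⟨⟨?_, ?_, g1, ?_, ?_⟩, Or.inr (Or.inr (Or.inr (Or.inl (mem_dc.1 g2))))⟩
        · rintro rfl; omega
        · rintro rfl; omega
        · rintro rfl; omega
        · rintro rfl; omega
      · rintro ⟨⟨-, -, g1, -, -⟩, g2⟩
        refine ⟨g1, ?_⟩
        rcases g2 with g2 | g2 | g2 | g2 | g2
        · have := lev_cov H g2; omega
        · have := lev_cov H g2; omega
        · have := lev_cov H g2; omega
        · exact mem_dc.2 g2
        · have := lev_cov H g2; omega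
    · intro v hv
      have := lev_dc H (mem_of_mem_erase hv)
      omega
    · intro z hz hl v hv
      simp only [mem_insert, mem_singleton] at hz ⊢
      rcases hz with rfl | rfl | rfl | rfl | rfl
      · omega
      · omega
      · omega
      · omega
      · rw [← mem_dc, h'.cp, mem_singleton] at hv
        tauto
    · intro z hz hl
      simp only [mem_insert, mem_singleton] at hz
      rcases hz with rfl | rfl | rfl | rfl | rfl
      · omega
      · omega
      · omega
      · exact mem_dc.1 hsy.2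
      · omega
  have c1 : ((uc y).erase s).card = 1 := by rw [card_erase_of_mem hsy.1, h.cy]
  have c2 : ((dc u).erase s).card = 1 := by rw [card_erase_of_mem hsy.2, h'.cy]
  have hdis : Disjoint ((uc y).erase s) ((dc u).erase s) := by
    rw [disjoint_left]
    intro v h1 h2
    have h3 : v ∈ uc y ∩ dc u := mem_inter.2 ⟨mem_of_mem_erase h1, mem_of_mem_erase h2⟩
    rw [hys, mem_singleton] at h3
    exact (mem_erase.1 h1).1 h3
  obtain ⟨g1, g2, g3, g4, g5⟩ := val_of H hC hs D D' hdis (by rw [c1, c2]; simp)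
  refine ⟨g1, g2, g3, ?_, g4, ?_⟩
  · rw [sum_on _ he]
    rw [card_insert_of_notMem, card_insert_of_notMem, card_insert_of_notMem, card_pair]
    · rintro rfl; omega
    · simp only [mem_insert, mem_singleton]
      rintro (rfl | rfl) <;> omega
    · simp only [mem_insert, mem_singleton]
      rintro (rfl | rfl | rfl) <;> omega
    · simp only [mem_insert, mem_singleton]
      rintro (rfl | rfl | rfl | rfl) <;> omega
  · rw [g5, c1]
    norm_num

end Pool.Agent.GaussPoset.Win.SO

end

/-! From `Pool.Agent.W_448so_h63.ED` -/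

section

/-!
SECOND ORDER THEOREM (MP_448cb3_co, proofs row 476): labels one on a set without sites.
-/

set_option autoImplicit false

namespace Pool.Agent.GaussPoset.Win.SO

set_option linter.unusedSectionVars false

open Finset

universe u

variable {P : Type u} [Fintype P] [PartialOrder P] [DecidableEq P] {r i : ℕ}
  {e : P → ℕ} {C s : Finset P} {K F B K' F' B' : Finset P}

/-- the value of a labelling with `k` deficits -/
theorem val_gen (H : Gr P r) (hC : Part (i + 1) C) (hs : Spt C e)
    (D : LowD i e K F B) (D' : UppD i e K' F' B') (hd : Disjoint B B') {k : ℕ}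
    (h2 : B.card + B'.card = F.card + F'.card + k) :
    dd ^ ((st i C).card - k) ∣ tC i C e ∧
      PowerSeries.coeff (st i C).card (dd ^ k * tC i C e : A) =
        (-1) ^ (K.card + B.card + (K'.card + F'.card)) := by
  classical
  have hCi : Part i C := ⟨fun h1 h2 => hC.up h1 h2, fun h1 h2 h3 => hC.dn h1 (by omega) h3⟩
  have hdis : Disjoint (AL i e) (AU i e) := by rw [D.AL_eq, D'.AU_eq]; exact hd
  have s1 : B ∪ B' ⊆ st i C := by
    rw [← D.AL_eq, ← D'.AU_eq]
    exact union_subset (AL_sub hCi hs) (AU_sub H hCi hs)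
  have s2 := card_le_card s1
  rw [card_union_of_disjoint hd] at s2
  have ht : tC i C e = dd ^ ((st i C).card - k) *
      (xx ^ (K.card + B.card) * xi ^ (K'.card + F'.card)) := by
    unfold tC cw
    rw [if_pos hdis, if_pos ⟨D.adm, D'.adm⟩, D.aL_eq, D.pL_eq, D.AL_eq, D'.aU_eq, D'.pU_eq,
      D'.AU_eq]
    have h3 : (st i C).card - k = (F.card + F'.card) + ((st i C).card - B.card - B'.card) := by
      omega
    rw [h3, pow_add (dd : A) (F.card + F'.card), pow_add (xx : A)]
    ring
  refine ⟨?_, ?_⟩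
  · rw [ht]
    exact dvd_mul_right _ _
  · rw [ht, ← mul_assoc, ← pow_add, show k + ((st i C).card - k) = (st i C).card by omega]
    exact coef_units _ _ _

/-- the labelling one on a set without sites, below the window -/
lemma low_cls (H : Gr P r)
    (he : ∀ y, e y = if y ∈ s then 1 else 0) (ns : ∀ x ∈ s, lev x ≠ i)
    (lo : ∀ x ∈ s, i + 1 < lev x → ∀ y, x ⋖ y → y ∈ s) {N : Finset P}
    (hN : ∀ z, z ∈ N ↔ z ∈ s ∧ lev z = i + 1) (hB : ∀ v, v ∈ B ↔ lev v = i ∧ ∃ x ∈ s, x ⋖ v) :
    LowD i e ∅ N B := by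
  have hk : ∀ z, i < lev z → ¬ FD e z := by
    rintro z hz ⟨y, hy, hlt⟩
    have hl := lev_cov H hy
    have h1 : y ∈ s := by
      by_contra h
      rw [he y, if_neg h] at hlt
      omega
    have h2 := lo y h1 (by omega) z hy
    rw [he z, he y, if_pos h1, if_pos h2] at hlt
    omega
  refine ⟨?_, ?_, ?_, ?_, ?_, fun v hv => ((hB v).1 hv).1⟩
  · intro z hz
    exact ⟨fun h => absurd h (hk z hz), fun h => absurd h (notMem_empty _)⟩
  · intro z hz
    rw [hB]
    have hzs : z ∉ s := fun h => ns z h hz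
    constructor
    · rintro ⟨y, hy, hlt⟩
      refine ⟨hz, y, ?_, hy⟩
      by_contra h
      rw [he y, if_neg h] at hlt
      omega
    · rintro ⟨-, y, hy, hyz⟩
      refine ⟨y, hyz, ?_⟩
      rw [he z, he y, if_pos hy, if_neg hzs]
      exact Nat.zero_lt_one
  · intro z hz
    constructor
    · rintro ⟨y, hy, hle⟩
      have hl := lev_cov H hy
      refine ⟨notMem_empty _, fun h => ?_⟩
      obtain ⟨h1, h2⟩ := (hN z).1 h
      have hys : y ∉ s := fun h3 => ns y h3 (by omega)
      rw [he z, he y, if_pos h1, if_neg hys] at hle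
      omega
    · rintro ⟨-, h⟩
      obtain ⟨y, hy⟩ := uc_nonempty H (x := z) (by omega)
      refine ⟨y, mem_uc.1 hy, ?_⟩
      by_cases h1 : z ∈ s
      · have h2 : lev z ≠ i + 1 := fun h3 => h ((hN z).2 ⟨h1, h3⟩)
        rw [he z, he y, if_pos h1, if_pos (lo z h1 (by omega) y (mem_uc.1 hy))]
      · rw [he z, if_neg h1]
        exact Nat.zero_le _
  · exact fun z hz => absurd hz (notMem_empty _)
  · intro z hz
    obtain ⟨h1, h2⟩ := (hN z).1 hz
    exact ⟨by omega, notMem_empty _⟩

/-- the labelling one on a set without sites, above the window -/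
lemma upp_cls (H : Gr P r) (hir : i ≤ r)
    (he : ∀ y, e y = if y ∈ s then 1 else 0) (ns : ∀ x ∈ s, lev x ≠ i)
    (up : ∀ x ∈ s, lev x + 1 < i → ∀ y, y ⋖ x → y ∈ s) {N : Finset P}
    (hN : ∀ z, z ∈ N ↔ z ∈ s ∧ lev z + 1 = i) (hB : ∀ v, v ∈ B ↔ lev v = i ∧ ∃ x ∈ s, v ⋖ x) :
    UppD i e ∅ N B := by
  have hk : ∀ z, lev z < i → ¬ FU e z := by
    rintro z hz ⟨y, hy, hlt⟩
    have hl := lev_cov H hy
    have h1 : y ∈ s := by
      by_contra h
      rw [he y, if_neg h] at hlt
      omega
    have h2 := up y h1 (by omega) z hy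
    rw [he z, he y, if_pos h1, if_pos h2] at hlt
    omega
  refine ⟨?_, ?_, ?_, ?_, ?_, fun v hv => ((hB v).1 hv).1⟩
  · intro z hz
    exact ⟨fun h => absurd h (hk z hz), fun h => absurd h (notMem_empty _)⟩
  · intro z hz
    rw [hB]
    have hzs : z ∉ s := fun h => ns z h hz
    constructor
    · rintro ⟨y, hy, hlt⟩
      refine ⟨hz, y, ?_, hy⟩
      by_contra h
      rw [he y, if_neg h] at hlt
      omega
    · rintro ⟨-, y, hy, hyz⟩
      refine ⟨y, hyz, ?_⟩
      rw [he z, he y, if_pos hy, if_neg hzs]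
      exact Nat.zero_lt_one
  · intro z hz
    constructor
    · rintro ⟨y, hy, hle⟩
      have hl := lev_cov H hy
      refine ⟨notMem_empty _, fun h => ?_⟩
      obtain ⟨h1, h2⟩ := (hN z).1 h
      have hys : y ∉ s := fun h3 => ns y h3 (by omega)
      rw [he z, he y, if_pos h1, if_neg hys] at hle
      omega
    · rintro ⟨-, h⟩
      obtain ⟨y, hy⟩ := dc_nonempty H (x := z) (by omega)
      refine ⟨y, mem_dc.1 hy, ?_⟩
      by_cases h1 : z ∈ s
      · have h2 : lev z + 1 ≠ i := fun h3 => h ((hN z).2 ⟨h1, h3⟩)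
        rw [he z, he y, if_pos h1, if_pos (up z h1 (by omega) y (mem_dc.1 hy))]
      · rw [he z, if_neg h1]
        exact Nat.zero_le _
  · exact fun z hz => absurd hz (notMem_empty _)
  · intro z hz
    obtain ⟨h1, h2⟩ := (hN z).1 hz
    exact ⟨by omega, notMem_empty _⟩

end Pool.Agent.GaussPoset.Win.SO

end

/-! From `Pool.Agent.W_448so_h64.SoI` -/

section

/-!
SECOND ORDER THEOREM (MP_448cb3_co, proofs row 476): VALUES of the explicit configurations.
Typed by helper64 (statements) and helper63 (proofs, EC and ED).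
-/

namespace Pool.Agent.GaussPoset.Win.SO

set_option linter.unusedSectionVars false

open Finset
open Pool.Agent.GaussPoset.Win.I2 (lS uS mem_lS mem_uS)

universe u

variable {P : Type u} [Fintype P] [PartialOrder P] [DecidableEq P] {r i : ℕ} {psi : P → P}
  {e : P → ℕ} {C : Finset P}

/-- label one on `s` -/
def on (s : Finset P) : P → ℕ := fun y => if y ∈ s then 1 else 0

/-- `s` has no sites and is closed towards the window -/
structure Cls (i : ℕ) (s : Finset P) : Prop where
  ns : ∀ x ∈ s, lev x ≠ i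
  lo : ∀ x ∈ s, i + 1 < lev x → ∀ y, x ⋖ y → y ∈ s
  up : ∀ x ∈ s, lev x + 1 < i → ∀ y, y ⋖ x → y ∈ s

open Classical in
/-- sites above the lower near elements of `s` -/
noncomputable def BL (i : ℕ) (s : Finset P) : Finset P :=
  (lv P i).filter (fun v => ∃ x ∈ s, x ⋖ v)

open Classical in
/-- sites below the upper near elements of `s` -/
noncomputable def BU (i : ℕ) (s : Finset P) : Finset P :=
  (lv P i).filter (fun v => ∃ x ∈ s, v ⋖ x)

/-- lower near elements of `s` -/
noncomputable def nL (i : ℕ) (s : Finset P) : Finset P := s.filter (fun x => lev x = i + 1)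

/-- upper near elements of `s` -/
noncomputable def nU (i : ℕ) (s : Finset P) : Finset P := s.filter (fun x => lev x + 1 = i)

lemma on_dat (H : Gr P r) (hir : i ≤ r) {s : Finset P} (hs : Cls i s) :
    LowD i (on s) ∅ (nL i s) (BL i s) ∧ UppD i (on s) ∅ (nU i s) (BU i s) := by
  classical
  constructor
  · refine low_cls H (fun _ => rfl) hs.ns hs.lo ?_ ?_
    · intro z
      unfold nL
      rw [mem_filter]
    · intro v
      unfold BL
      rw [mem_filter, mem_lv]
  · refine upp_cls H hir (fun _ => rfl) hs.ns hs.up ?_ ?_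
    · intro z
      unfold nU
      rw [mem_filter]
    · intro v
      unfold BU
      rw [mem_filter, mem_lv]

lemma on_spt {s : Finset P} (hsC : s ⊆ C) : Spt C (on s) := by
  intro x hx
  unfold on
  rw [if_neg (fun h => hx (hsC h))]

/-- LABELS ONE ON A CLOSED SET.  No element of a side is killed (labels `≤ 1`; an element `z ∉ s` of a side has no
lower cover / upper cover away from the window in `s`), an element of `s` at distance `≥ 2` has a cover towards the
window in `s` (GU / GD), an element outside `s` has label zero (GU / GD, there is a cover); so the free elements are the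
near elements of `s`, all others are not free; killed sites: `BL`, `BU`. -/
theorem on_data (H : Gr P r) (hi : 1 ≤ i) (hi2 : i + 1 ≤ r) {s : Finset P} (hs : Cls i s) :
    AdmL i (on s) ∧ AdmU i (on s) ∧ aL i (on s) = 0 ∧ aU i (on s) = 0 ∧
      pL i (on s) = (nL i s).card ∧ pU i (on s) = (nU i s).card ∧ AL i (on s) = BL i s ∧
      AU i (on s) = BU i s := by
  obtain ⟨D, D'⟩ := on_dat H (by omega) hs
  exact ⟨D.adm, D'.adm, by rw [D.aL_eq, card_empty], by rw [D'.aU_eq, card_empty], D.pL_eq,
    D'.pU_eq, D.AL_eq, D'.AU_eq⟩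

/-- the value: sign `(-1) ^ (killed below + free above)` if there are exactly two deficits
(`tC = xx ^ |BL| * xi ^ |nU| * dd ^ (|nL| + |nU| + (b - |BL| - |BU|))`, exponent `b - 2`, `|BL| + |BU| ≤ b`). -/
theorem on_coeff (H : Gr P r) (hi : 1 ≤ i) (hi2 : i + 1 ≤ r) (hC : Part (i + 1) C)
    {s : Finset P} (hs : Cls i s) (hsC : s ⊆ C) (hd : Disjoint (BL i s) (BU i s))
    (h2 : (BL i s).card + (BU i s).card = (nL i s).card + (nU i s).card + 2) :
    PowerSeries.coeff (st i C).card (dd ^ 2 * tC i C (on s) : A) =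
      (-1) ^ ((BL i s).card + (nU i s).card) := by
  obtain ⟨D, D'⟩ := on_dat H (by omega) hs
  have h := (val_gen H hC (on_spt hsC) D D' hd h2).2
  rw [card_empty, zero_add, zero_add] at h
  exact h

/-- one deficit: first order value -/
theorem on_coeff1 (H : Gr P r) (hi : 1 ≤ i) (hi2 : i + 1 ≤ r) (hC : Part (i + 1) C)
    {s : Finset P} (hs : Cls i s) (hsC : s ⊆ C) (hd : Disjoint (BL i s) (BU i s))
    (h2 : (BL i s).card + (BU i s).card = (nL i s).card + (nU i s).card + 1) :
    PowerSeries.coeff (st i C).card (dd * tC i C (on s) : A) =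
      (-1) ^ ((BL i s).card + (nU i s).card) := by
  obtain ⟨D, D'⟩ := on_dat H (by omega) hs
  have h := (val_gen H hC (on_spt hsC) D D' hd h2).2
  rw [card_empty, zero_add, zero_add, pow_one] at h
  exact h

/-- N1 below the window: `z = w = 2`, `x = x' = 1`: `x, x'` killed (aL = 2), `w` free (pL = 1), three sites killed:
`xx ^ 5 * dd ^ (b - 2)`, value `-1`. -/
theorem n1_coeff (H : Gr P r) (hi : 1 ≤ i) (hi2 : i + 1 ≤ r) (hC : Part (i + 1) C)
    (hs : Spt C e) (h : N1 uc (tL (P := P) i) (lS P i) e) :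
    AdmL i e ∧ AdmU i e ∧ Disjoint (AL i e) (AU i e) ∧ ∑ x, e x = 6 ∧
      dd ^ ((st i C).card - 2) ∣ tC i C e ∧
      PowerSeries.coeff (st i C).card (dd ^ 2 * tC i C e : A) = -1 := by
  exact n1_val H (by omega) hC hs h

/-- N1 above the window: `xi ^ 3 * dd ^ (b - 2)`, value `-1`. -/
theorem n1U_coeff (H : Gr P r) (hi : 1 ≤ i) (hi2 : i + 1 ≤ r) (hC : Part (i + 1) C)
    (hs : Spt C e) (h : N1 dc (tU (P := P) i) (uS P i) e) :
    AdmL i e ∧ AdmU i e ∧ Disjoint (AL i e) (AU i e) ∧ ∑ x, e x = 6 ∧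
      dd ^ ((st i C).card - 2) ∣ tC i C e ∧
      PowerSeries.coeff (st i C).card (dd ^ 2 * tC i C e : A) = -1 := by
  exact n1U_val H (by omega) hC hs h

/-- closed pair, labels `(w, w', x, x') = (2, 1, 1, 1)`: `x, x'` killed, `w` free, three sites:
`xx ^ 5 * dd ^ (b - 2)`, value `-1`. -/
theorem clo_coeff (H : Gr P r) (hi : 1 ≤ i) (hi2 : i + 1 ≤ r) (hC : Part (i + 1) C)
    (hs : Spt C e) {w w' x x' s : P} (h : TD uc (tL (P := P) i) (lS P i) w x x' s)
    (h' : TD uc (tL (P := P) i) (lS P i) w' x x' s) (hne : w ≠ w')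
    (he : ∀ y, e y = if y = w then 2 else if y = w' ∨ y = x ∨ y = x' then 1 else 0) :
    AdmL i e ∧ AdmU i e ∧ Disjoint (AL i e) (AU i e) ∧ ∑ x, e x = 5 ∧
      dd ^ ((st i C).card - 2) ∣ tC i C e ∧
      PowerSeries.coeff (st i C).card (dd ^ 2 * tC i C e : A) = -1 := by
  exact clo_val H (by omega) hC hs h h' hne he

/-- closed pair, all labels one and the common site `s` with label one: `x, x'` are not free (`GU`), they kill their
other sites: `xx ^ 2 * dd ^ (b - 2)`, value `+1`. -/
theorem clo_coeff' (H : Gr P r) (hi : 1 ≤ i) (hi2 : i + 1 ≤ r) (hC : Part (i + 1) C)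
    (hs : Spt C e) {w w' x x' s : P} (h : TD uc (tL (P := P) i) (lS P i) w x x' s)
    (h' : TD uc (tL (P := P) i) (lS P i) w' x x' s) (hne : w ≠ w')
    (he : On e {w, w', x, x', s}) :
    AdmL i e ∧ AdmU i e ∧ Disjoint (AL i e) (AU i e) ∧ ∑ x, e x = 5 ∧
      dd ^ ((st i C).card - 2) ∣ tC i C e ∧
      PowerSeries.coeff (st i C).card (dd ^ 2 * tC i C e : A) = 1 := by
  exact clo_val' H (by omega) hC hs h h' hne he

/-- flip: `p` below `y`, `p'` above `u`, common site `s`, all five labels one: `y`, `u` are not free, each kills its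
other site: `xx * dd ^ (b - 2)`, value `-1`. -/
theorem flp_coeff (H : Gr P r) (hi : 1 ≤ i) (hi2 : i + 1 ≤ r) (hC : Part (i + 1) C)
    (hs : Spt C e) {p y p' u s : P} (h : Pen uc (tL (P := P) i) (lS P i) p y)
    (h' : Pen dc (tU (P := P) i) (uS P i) p' u) (hys : uc y ∩ dc u = {s})
    (he : On e {p, y, s, u, p'}) :
    AdmL i e ∧ AdmU i e ∧ Disjoint (AL i e) (AU i e) ∧ ∑ x, e x = 5 ∧
      dd ^ ((st i C).card - 2) ∣ tC i C e ∧
      PowerSeries.coeff (st i C).card (dd ^ 2 * tC i C e : A) = -1 := by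
  exact flp_val H (by omega) hC hs h h' hys he

end Pool.Agent.GaussPoset.Win.SO

end
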