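import Mathlib
import Pool.Agent.W_448zz_h61.Ns
import Pool.Agent.W_448zz_h61.M086
import Pool.Agent.W_448zz_h61.M089

/-! From `Pool.Agent.W_448so_h64.SoG` -/

/-!
SECOND ORDER THEOREM (MP_448cb3_co, proofs row 476): toggles and reflections of the abstract setting are those
of `W_448so_h17`; uniqueness of toggles.
-/

namespace Pool.Agent.GaussPoset.Win.SO

set_option linter.unusedSectionVars false

open Finset
open Pool.Agent.GaussPoset.Win.I2 (kd gu kl kn kr so cc fr KK KD mem_kn mem_kr mem_so kd_iff kl_iff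
  lS uS mem_lS mem_uS kd_dc kd_uc gu_uc gu_dc adm_low adm_up KD_low KD_up fr_low fr_up Side0
  side0_low side0_up kk)
open Pool.Agent.GaussPoset.Win.So (TogL TogU)

universe u

variable {P : Type u} [Fintype P] [PartialOrder P] [DecidableEq P] {r i : ℕ} {psi : P → P}
  {e : P → ℕ}

lemma pair_of_card {α : Type*} [DecidableEq α] {s : Finset α} {x x' : α} (h : s.card ≤ 2)
    (hx : x ∈ s) (hx' : x' ∈ s) (hne : x ≠ x') : s = {x, x'} := by
  symm
  apply Finset.eq_of_subset_of_card_le
  · intro y hy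
    rw [mem_insert, mem_singleton] at hy
    rcases hy with rfl | rfl
    · exact hx
    · exact hx'
  · rw [card_pair hne]; exact h

/-- the toggle condition below the window in the form of `W_448so_h17` -/
theorem togL_of (H : Gr P r) (hM : Mat P i ∅ psi) {w x x' s : P}
    (T : Tog uc dc (tL (P := P) i) (lS P i) psi e w x x' s) :
    ∃ a b, TogL i e w x x' a s b ∧ a ≠ b := by
  classical
  obtain ⟨lw, lx, lx', ls, a, b, ha, hb, h1, h2, h3⟩ := td_low H T.T
  have hne := T.T.ne
  have hx : x ∈ dbL P i := by unfold dbL; rw [mem_filter]; exact ⟨mem_univ _, lx, T.T.cx⟩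
  have hx' : x' ∈ dbL P i := by unfold dbL; rw [mem_filter]; exact ⟨mem_univ _, lx', T.T.cx'⟩
  have p1 := hM.low x hx (by simp)
  have p1' := hM.low x' hx' (by simp)
  have p2 := (hM.invol x (mem_union_left _ hx) (by simp)).1
  have p2' := (hM.invol x' (mem_union_left _ hx') (by simp)).1
  have hpn : psi x ≠ psi x' := by
    intro h
    rw [h] at p2
    rw [p2] at p2'
    exact hne p2'
  have hus : uc s = {psi x, psi x'} := by
    apply pair_of_card (uc_card_le H s) _ _ hpn
    · have : s ∈ dc (psi x) := by rw [p1.2]; exact T.T.sx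
      rw [mem_dc] at this
      exact mem_uc.2 this
    · have : s ∈ dc (psi x') := by rw [p1'.2]; exact T.T.sx'
      rw [mem_dc] at this
      exact mem_uc.2 this
  refine ⟨a, b, ⟨lw, T.T.cw, ha, hb, h1, h2, hne, ?_, ?_, T.w1, T.x1, T.x1', ?_, ?_, ?_, ?_, ?_,
    ?_⟩, h3⟩
  · exact pair_of_card (dc_card_le H s) (mem_dc.2 (mem_uc.1 T.T.sx))
      (mem_dc.2 (mem_uc.1 T.T.sx')) hne
  · intro u hu
    have : u ∈ uc s := mem_uc.2 hu
    rw [hus, mem_insert, mem_singleton] at this
    rcases this with rfl | rfl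
    · exact T.p0
    · exact T.p0'
  · rcases T.st with ⟨g1, g2⟩ | ⟨g1, g2⟩
    · left; omega
    · right; omega
  · intro z hz
    have := T.dw z (mem_dc.2 hz)
    omega
  · intro h
    refine T.vx (by omega) a (by rw [ha]; simp) h1
  · intro h
    refine T.vx' (by omega) b (by rw [hb]; simp) h2.symm
  · intro z hz hzw
    exact T.dx z (mem_dc.2 hz) hzw
  · intro z hz hzw
    exact T.dx' z (mem_dc.2 hz) hzw

/-- the toggle condition above the window in the form of `W_448so_h17` -/
theorem togU_of (H : Gr P r) (hM : Mat P i ∅ psi) {w x x' s : P}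
    (T : Tog dc uc (tU (P := P) i) (uS P i) psi e w x x' s) :
    ∃ a b, TogU i e w x x' a s b ∧ a ≠ b := by
  classical
  obtain ⟨lw, lx, lx', ls, a, b, ha, hb, h1, h2, h3⟩ := td_up H T.T
  have hne := T.T.ne
  have hx : x ∈ dbU P i := by unfold dbU; rw [mem_filter]; exact ⟨mem_univ _, lx, T.T.cx⟩
  have hx' : x' ∈ dbU P i := by unfold dbU; rw [mem_filter]; exact ⟨mem_univ _, lx', T.T.cx'⟩
  have p1 := hM.upp x hx (by simp)
  have p1' := hM.upp x' hx' (by simp)
  have p2 := (hM.invol x (mem_union_right _ hx) (by simp)).1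
  have p2' := (hM.invol x' (mem_union_right _ hx') (by simp)).1
  have hpn : psi x ≠ psi x' := by
    intro h
    rw [h] at p2
    rw [p2] at p2'
    exact hne p2'
  have hus : dc s = {psi x, psi x'} := by
    apply pair_of_card (dc_card_le H s) _ _ hpn
    · have : s ∈ uc (psi x) := by rw [p1.2]; exact T.T.sx
      rw [mem_uc] at this
      exact mem_dc.2 this
    · have : s ∈ uc (psi x') := by rw [p1'.2]; exact T.T.sx'
      rw [mem_uc] at this
      exact mem_dc.2 this
  refine ⟨a, b, ⟨lw, T.T.cw, ha, hb, h1, h2, hne, ?_, ?_, T.w1, T.x1, T.x1', ?_, ?_, ?_, ?_, ?_,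
    ?_⟩, h3⟩
  · exact pair_of_card (uc_card_le H s) (mem_uc.2 (mem_dc.1 T.T.sx))
      (mem_uc.2 (mem_dc.1 T.T.sx')) hne
  · intro u hu
    have : u ∈ dc s := mem_dc.2 hu
    rw [hus, mem_insert, mem_singleton] at this
    rcases this with rfl | rfl
    · exact T.p0
    · exact T.p0'
  · rcases T.st with ⟨g1, g2⟩ | ⟨g1, g2⟩
    · left; omega
    · right; omega
  · intro z hz
    have := T.dw z (mem_uc.2 hz)
    omega
  · intro h
    refine T.vx (by omega) a (by rw [ha]; simp) h1
  · intro h
    refine T.vx' (by omega) b (by rw [hb]; simp) h2.symm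
  · intro z hz hzw
    exact T.dx z (mem_uc.2 hz) hzw
  · intro z hz hzw
    exact T.dx' z (mem_uc.2 hz) hzw

/-- the labels of a toggle -/
lemma TogL.four {w x x' a s b : P} (T : TogL i e w x x' a s b) :
    1 ≤ e w ∧ 1 ≤ e x ∧ 1 ≤ e x' ∧ 2 ≤ e w + e s := by
  have h1 := T.hw
  have h2 := T.hx
  have h3 := T.hx'
  have h4 := T.st
  refine ⟨h1, h2, h3, ?_⟩
  omega

lemma TogU.four {w x x' a s b : P} (T : TogU i e w x x' a s b) :
    1 ≤ e w ∧ 1 ≤ e x ∧ 1 ≤ e x' ∧ 2 ≤ e w + e s := by
  have h1 := T.hw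
  have h2 := T.hx
  have h3 := T.hx'
  have h4 := T.st
  refine ⟨h1, h2, h3, ?_⟩
  omega

/-- the sum over a list of different elements -/
lemma list_sum_le (l : List P) (hl : l.Nodup) : (l.map e).sum ≤ ∑ x, e x := by
  classical
  have h1 : (l.map e).sum = ∑ x ∈ l.toFinset, e x := by
    rw [List.sum_toFinset _ hl]
  rw [h1]
  exact Finset.sum_le_sum_of_subset (subset_univ _)

/-- two lower toggles with energy at most six have the same `w`, unless they are a closed pair -/
theorem togL_unique (H : Gr P r) (hE : ∑ x, e x ≤ 6) {w x x' a s b w1 x1 x1' a1 s1 b1 : P}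
    (T : TogL i e w x x' a s b) (T1 : TogL i e w1 x1 x1' a1 s1 b1) :
    w = w1 ∨ (({x, x'} : Finset P) = {x1, x1'}) := by
  classical
  by_contra hcon
  rw [not_or] at hcon
  obtain ⟨hw, hx⟩ := hcon
  have lw := T.lw
  have lw1 := T1.lw
  have lx := T.lx H
  have lx' := T.lx' H
  have lx1 := T1.lx H
  have lx1' := T1.lx' H
  have ls := T.ls H
  have ls1 := T1.ls H
  have hs : s ≠ s1 := by
    rintro rfl
    apply hx
    rw [← T.ds, ← T1.ds]
  obtain ⟨f1, f2, f3, f4⟩ := TogL.four T
  obtain ⟨g1, g2, g3, g4⟩ := TogL.four T1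
  have ne_of_lev : ∀ p q : P, lev p ≠ lev q → p ≠ q := fun p q h h' => h (by rw [h'])
  -- the elements of `{x1, x1'}` which are not in `{x, x'}`
  by_cases k1 : x1 = x ∨ x1 = x'
  · by_cases k2 : x1' = x ∨ x1' = x'
    · exfalso
      apply hx
      have := T1.xx'
      rcases k1 with rfl | rfl <;> rcases k2 with rfl | rfl
      · exact absurd rfl this
      · rfl
      · rw [pair_comm]
      · exact absurd rfl this
    · rw [not_or] at k2
      have h1 := list_sum_le (e := e) [w, x, x', s, w1, x1', s1] (by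
        simp only [List.nodup_cons, List.mem_cons, List.not_mem_nil, or_false, not_or,
          not_false_eq_true, List.nodup_nil, and_true]
        refine ⟨⟨ne_of_lev _ _ (by omega), ne_of_lev _ _ (by omega), ne_of_lev _ _ (by omega), hw,
          ne_of_lev _ _ (by omega), ne_of_lev _ _ (by omega)⟩,
          ⟨T.xx', ne_of_lev _ _ (by omega), ne_of_lev _ _ (by omega), Ne.symm k2.1,
          ne_of_lev _ _ (by omega)⟩, ⟨ne_of_lev _ _ (by omega), ne_of_lev _ _ (by omega),
          Ne.symm k2.2, ne_of_lev _ _ (by omega)⟩, ⟨ne_of_lev _ _ (by omega),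
          ne_of_lev _ _ (by omega), hs⟩, ⟨ne_of_lev _ _ (by omega), ne_of_lev _ _ (by omega)⟩,
          ne_of_lev _ _ (by omega)⟩)
      simp only [List.map_cons, List.map_nil, List.sum_cons, List.sum_nil] at h1
      omega
  · rw [not_or] at k1
    have h1 := list_sum_le (e := e) [w, x, x', s, w1, x1, s1] (by
        simp only [List.nodup_cons, List.mem_cons, List.not_mem_nil, or_false, not_or,
          not_false_eq_true, List.nodup_nil, and_true]
        refine ⟨⟨ne_of_lev _ _ (by omega), ne_of_lev _ _ (by omega), ne_of_lev _ _ (by omega), hw,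
          ne_of_lev _ _ (by omega), ne_of_lev _ _ (by omega)⟩,
          ⟨T.xx', ne_of_lev _ _ (by omega), ne_of_lev _ _ (by omega), Ne.symm k1.1,
          ne_of_lev _ _ (by omega)⟩, ⟨ne_of_lev _ _ (by omega), ne_of_lev _ _ (by omega),
          Ne.symm k1.2, ne_of_lev _ _ (by omega)⟩, ⟨ne_of_lev _ _ (by omega),
          ne_of_lev _ _ (by omega), hs⟩, ⟨ne_of_lev _ _ (by omega), ne_of_lev _ _ (by omega)⟩,
          ne_of_lev _ _ (by omega)⟩)
    simp only [List.map_cons, List.map_nil, List.sum_cons, List.sum_nil] at h1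
    omega

/-- the same above the window -/
theorem togU_unique (H : Gr P r) (hE : ∑ x, e x ≤ 6) {w x x' a s b w1 x1 x1' a1 s1 b1 : P}
    (T : TogU i e w x x' a s b) (T1 : TogU i e w1 x1 x1' a1 s1 b1) :
    w = w1 ∨ (({x, x'} : Finset P) = {x1, x1'}) := by
  classical
  by_contra hcon
  rw [not_or] at hcon
  obtain ⟨hw, hx⟩ := hcon
  have lw := T.lw
  have lw1 := T1.lw
  have lx := T.lx H
  have lx' := T.lx' H
  have lx1 := T1.lx H
  have lx1' := T1.lx' H
  have ls := T.ls H
  have ls1 := T1.ls H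
  have hs : s ≠ s1 := by
    rintro rfl
    apply hx
    rw [← T.ds, ← T1.ds]
  obtain ⟨f1, f2, f3, f4⟩ := TogU.four T
  obtain ⟨g1, g2, g3, g4⟩ := TogU.four T1
  have ne_of_lev : ∀ p q : P, lev p ≠ lev q → p ≠ q := fun p q h h' => h (by rw [h'])
  by_cases k1 : x1 = x ∨ x1 = x'
  · by_cases k2 : x1' = x ∨ x1' = x'
    · exfalso
      apply hx
      have := T1.xx'
      rcases k1 with rfl | rfl <;> rcases k2 with rfl | rfl
      · exact absurd rfl this
      · rfl
      · rw [pair_comm]
      · exact absurd rfl this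
    · rw [not_or] at k2
      have h1 := list_sum_le (e := e) [w, x, x', s, w1, x1', s1] (by
        simp only [List.nodup_cons, List.mem_cons, List.not_mem_nil, or_false, not_or,
          not_false_eq_true, List.nodup_nil, and_true]
        refine ⟨⟨ne_of_lev _ _ (by omega), ne_of_lev _ _ (by omega), ne_of_lev _ _ (by omega), hw,
          ne_of_lev _ _ (by omega), ne_of_lev _ _ (by omega)⟩,
          ⟨T.xx', ne_of_lev _ _ (by omega), ne_of_lev _ _ (by omega), Ne.symm k2.1,
          ne_of_lev _ _ (by omega)⟩, ⟨ne_of_lev _ _ (by omega), ne_of_lev _ _ (by omega),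
          Ne.symm k2.2, ne_of_lev _ _ (by omega)⟩, ⟨ne_of_lev _ _ (by omega),
          ne_of_lev _ _ (by omega), hs⟩, ⟨ne_of_lev _ _ (by omega), ne_of_lev _ _ (by omega)⟩,
          ne_of_lev _ _ (by omega)⟩)
      simp only [List.map_cons, List.map_nil, List.sum_cons, List.sum_nil] at h1
      omega
  · rw [not_or] at k1
    have h1 := list_sum_le (e := e) [w, x, x', s, w1, x1, s1] (by
        simp only [List.nodup_cons, List.mem_cons, List.not_mem_nil, or_false, not_or,
          not_false_eq_true, List.nodup_nil, and_true]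
        refine ⟨⟨ne_of_lev _ _ (by omega), ne_of_lev _ _ (by omega), ne_of_lev _ _ (by omega), hw,
          ne_of_lev _ _ (by omega), ne_of_lev _ _ (by omega)⟩,
          ⟨T.xx', ne_of_lev _ _ (by omega), ne_of_lev _ _ (by omega), Ne.symm k1.1,
          ne_of_lev _ _ (by omega)⟩, ⟨ne_of_lev _ _ (by omega), ne_of_lev _ _ (by omega),
          Ne.symm k1.2, ne_of_lev _ _ (by omega)⟩, ⟨ne_of_lev _ _ (by omega),
          ne_of_lev _ _ (by omega), hs⟩, ⟨ne_of_lev _ _ (by omega), ne_of_lev _ _ (by omega)⟩,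
          ne_of_lev _ _ (by omega)⟩)
    simp only [List.map_cons, List.map_nil, List.sum_cons, List.sum_nil] at h1
    omega

/-- no lower and upper toggle at the same time -/
theorem togLU (H : Gr P r) (hE : ∑ x, e x ≤ 6) {w x x' a s b w1 x1 x1' a1 s1 b1 : P}
    (T : TogL i e w x x' a s b) (T1 : TogU i e w1 x1 x1' a1 s1 b1) : False := by
  classical
  have lw := T.lw
  have lw1 := T1.lw
  have lx := T.lx H
  have lx' := T.lx' H
  have lx1 := T1.lx H
  have lx1' := T1.lx' H
  have ls := T.ls H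
  have ls1 := T1.ls H
  have hs : s ≠ s1 := by
    rintro rfl
    have h1 : x1 ∈ uc s := by rw [T1.ds]; simp
    have h2 := T.us x1 (mem_uc.1 h1)
    have := T1.hx
    omega
  obtain ⟨f1, f2, f3, f4⟩ := TogL.four T
  obtain ⟨g1, g2, g3, g4⟩ := TogU.four T1
  have ne_of_lev : ∀ p q : P, lev p ≠ lev q → p ≠ q := fun p q h h' => h (by rw [h'])
  have h1 := list_sum_le (e := e) [w, x, x', s, w1, x1, x1', s1] (by
        simp only [List.nodup_cons, List.mem_cons, List.not_mem_nil, or_false, not_or,
          not_false_eq_true, List.nodup_nil, and_true]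
        refine ⟨⟨ne_of_lev _ _ (by omega), ne_of_lev _ _ (by omega), ne_of_lev _ _ (by omega),
          ne_of_lev _ _ (by omega), ne_of_lev _ _ (by omega), ne_of_lev _ _ (by omega),
          ne_of_lev _ _ (by omega)⟩,
          ⟨T.xx', ne_of_lev _ _ (by omega), ne_of_lev _ _ (by omega), ne_of_lev _ _ (by omega),
          ne_of_lev _ _ (by omega), ne_of_lev _ _ (by omega)⟩,
          ⟨ne_of_lev _ _ (by omega), ne_of_lev _ _ (by omega), ne_of_lev _ _ (by omega),
          ne_of_lev _ _ (by omega), ne_of_lev _ _ (by omega)⟩,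
          ⟨ne_of_lev _ _ (by omega), ne_of_lev _ _ (by omega), ne_of_lev _ _ (by omega), hs⟩,
          ⟨ne_of_lev _ _ (by omega), ne_of_lev _ _ (by omega), ne_of_lev _ _ (by omega)⟩,
          ⟨T1.xx', ne_of_lev _ _ (by omega)⟩, ne_of_lev _ _ (by omega)⟩)
  simp only [List.map_cons, List.map_nil, List.sum_cons, List.sum_nil] at h1
  omega

end Pool.Agent.GaussPoset.Win.SO
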