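import Mathlib
import Pool.Agent.W_448zz_h61.Ns
import Pool.Agent.W_448zz_h61.M022
import Pool.Agent.W_448zz_h61.M089

/-! From `Pool.Agent.W_448so_h63.FC` -/

section

/-!
S9 with Z2 (MP_448cb3_co, case B): a labelling one on a closed set of lower elements plus one unit.
-/

set_option autoImplicit false

namespace Pool.Agent.GaussPoset.Win.So

set_option linter.unusedSectionVars false

open Finset SO

universe u

variable {P : Type u} [Fintype P] [PartialOrder P] [DecidableEq P] {r i : ℕ}

/-- a closed set of lower elements, its near elements and its sites -/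
structure Con (i : ℕ) (U F0 B0 : Finset P) : Prop where
  lo : ∀ x ∈ U, i < lev x
  up : ∀ x ∈ U, i + 1 < lev x → ∀ y, x ⋖ y → y ∈ U
  F : ∀ z, z ∈ F0 ↔ z ∈ U ∧ lev z = i + 1
  B : ∀ v, v ∈ B0 ↔ lev v = i ∧ ∃ x ∈ U, x ⋖ v

/-- label one on `U`, one unit more at `x` -/
def en (U : Finset P) (x : P) : P → ℕ := fun z => (if z ∈ U then 1 else 0) + (if z = x then 1 else 0)

lemma con_empty : Con i (∅ : Finset P) ∅ ∅ where
  lo := fun x hx => absurd hx (notMem_empty x)
  up := fun x hx => absurd hx (notMem_empty x)
  F := by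
    intro z
    constructor
    · intro h
      exact absurd h (notMem_empty z)
    · rintro ⟨h, -⟩
      exact h
  B := by
    intro v
    constructor
    · intro h
      exact absurd h (notMem_empty v)
    · rintro ⟨-, x, hx, -⟩
      exact absurd hx (notMem_empty x)

section en

variable {U F0 B0 : Finset P} {x : P}

lemma en_self (hx : x ∉ U) : en U x x = 1 := by
  unfold en
  rw [if_neg hx, if_pos rfl]

lemma en_mem {z : P} (hz : z ∈ U) (h : z ≠ x) : en U x z = 1 := by
  unfold en
  rw [if_pos hz, if_neg h]

lemma en_out {z : P} (hz : z ∉ U) (h : z ≠ x) : en U x z = 0 := by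
  unfold en
  rw [if_neg hz, if_neg h]

lemma en_pos {z : P} (h : 0 < en U x z) : z ∈ U ∨ z = x := by
  by_contra hc
  push Not at hc
  rw [en_out hc.1 hc.2] at h
  exact lt_irrefl _ h

/-- a site outside: nothing changes -/
lemma en_site (H : Gr P r) (D : Con i U F0 B0) (hl : lev x = i) (hx : x ∉ B0) :
    SO.LowD i (en U x) ∅ F0 B0 := by
  have hxU : x ∉ U := fun h => by have := D.lo x h; omega
  refine ⟨?_, ?_, ?_, ?_, ?_, fun v hv => ((D.B v).1 hv).1⟩
  · intro z hz
    refine ⟨?_, fun h => absurd h (notMem_empty z)⟩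
    rintro ⟨y, hy, hlt⟩
    exfalso
    have ly := lev_cov H hy
    rcases en_pos (show 0 < en U x y by omega) with h | h
    · have h1 := D.up y h (by omega) z hy
      rw [en_mem h (by rintro rfl; omega), en_mem h1 (by rintro rfl; omega)] at hlt
      exact lt_irrefl _ hlt
    · rw [h] at ly
      omega
  · intro z hz
    rw [D.B]
    constructor
    · rintro ⟨y, hy, hlt⟩
      have ly := lev_cov H hy
      rcases en_pos (show 0 < en U x y by omega) with h | h
      · exact ⟨hz, y, h, hy⟩
      · rw [h] at ly
        omega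
    · rintro ⟨-, y, hy, hyz⟩
      refine ⟨y, hyz, ?_⟩
      have hzx : z ≠ x := by
        rintro rfl
        exact hx ((D.B z).2 ⟨hz, y, hy, hyz⟩)
      have hzU : z ∉ U := fun h => by have := D.lo z h; omega
      have ly := lev_cov H hyz
      rw [en_mem hy (by rintro rfl; omega), en_out hzU hzx]
      exact Nat.zero_lt_one
  · intro z hz
    rw [D.F]
    constructor
    · rintro ⟨y, hy, hle⟩
      refine ⟨notMem_empty z, ?_⟩
      rintro ⟨h1, h2⟩
      have ly := lev_cov H hy
      have hyU : y ∉ U := fun h => by have := D.lo y h; omega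
      have hyx : y ≠ x := by
        rintro rfl
        exact hx ((D.B y).2 ⟨hl, z, h1, hy⟩)
      rw [en_mem h1 (by rintro rfl; omega), en_out hyU hyx] at hle
      omega
    · rintro ⟨-, h⟩
      obtain ⟨y, hy⟩ := uc_nonempty H (x := z) (by omega)
      refine ⟨y, mem_uc.1 hy, ?_⟩
      by_cases h1 : z ∈ U
      · have h2 : lev z ≠ i + 1 := fun h3 => h ⟨h1, h3⟩
        have h3 := D.up z h1 (by omega) y (mem_uc.1 hy)
        have ly := D.lo y h3
        rw [en_mem h1 (by rintro rfl; omega), en_mem h3 (by rintro rfl; omega)]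
      · rw [en_out h1 (by rintro rfl; omega)]
        exact Nat.zero_le _
  · exact fun z hz => absurd hz (notMem_empty z)
  · intro z hz
    have := (D.F z).1 hz
    exact ⟨by omega, notMem_empty z⟩

/-- a site of the set: its near elements are not free any more, the site is not killed -/
lemma en_siteB (H : Gr P r) (D : Con i U F0 B0) (hl : lev x = i) :
    SO.LowD i (en U x) ∅ (F0 \ dc x) (B0.erase x) := by
  have hxU : x ∉ U := fun h => by have := D.lo x h; omega
  refine ⟨?_, ?_, ?_, ?_, ?_, fun v hv => ((D.B v).1 (mem_of_mem_erase hv)).1⟩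
  · intro z hz
    refine ⟨?_, fun h => absurd h (notMem_empty z)⟩
    rintro ⟨y, hy, hlt⟩
    exfalso
    have ly := lev_cov H hy
    rcases en_pos (show 0 < en U x y by omega) with h | h
    · have h1 := D.up y h (by omega) z hy
      rw [en_mem h (by rintro rfl; omega), en_mem h1 (by rintro rfl; omega)] at hlt
      exact lt_irrefl _ hlt
    · rw [h] at ly
      omega
  · intro z hz
    rw [mem_erase, D.B]
    constructor
    · rintro ⟨y, hy, hlt⟩
      have ly := lev_cov H hy
      rcases en_pos (show 0 < en U x y by omega) with h | h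
      · refine ⟨?_, hz, y, h, hy⟩
        rintro rfl
        rw [en_mem h (by rintro rfl; omega), en_self hxU] at hlt
        exact lt_irrefl _ hlt
      · rw [h] at ly
        omega
    · rintro ⟨hzx, -, y, hy, hyz⟩
      refine ⟨y, hyz, ?_⟩
      have hzU : z ∉ U := fun h => by have := D.lo z h; omega
      have ly := lev_cov H hyz
      rw [en_mem hy (by rintro rfl; omega), en_out hzU hzx]
      exact Nat.zero_lt_one
  · intro z hz
    rw [mem_sdiff, D.F, mem_dc]
    constructor
    · rintro ⟨y, hy, hle⟩
      refine ⟨notMem_empty z, ?_⟩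
      rintro ⟨⟨h1, h2⟩, h3⟩
      have ly := lev_cov H hy
      have hyU : y ∉ U := fun h => by have := D.lo y h; omega
      have hyx : y ≠ x := by
        rintro rfl
        exact h3 hy
      rw [en_mem h1 (by rintro rfl; omega), en_out hyU hyx] at hle
      omega
    · rintro ⟨-, h⟩
      by_cases h0 : z ∈ U ∧ lev z = i + 1
      · have h1 : z ⋖ x := by
          by_contra h2
          exact h ⟨h0, h2⟩
        refine ⟨x, h1, ?_⟩
        rw [en_mem h0.1 (by rintro rfl; omega), en_self hxU]
      · obtain ⟨y, hy⟩ := uc_nonempty H (x := z) (by omega)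
        refine ⟨y, mem_uc.1 hy, ?_⟩
        by_cases h1 : z ∈ U
        · have h2 : lev z ≠ i + 1 := fun h3 => h0 ⟨h1, h3⟩
          have h3 := D.up z h1 (by omega) y (mem_uc.1 hy)
          have ly := D.lo y h3
          rw [en_mem h1 (by rintro rfl; omega), en_mem h3 (by rintro rfl; omega)]
        · rw [en_out h1 (by rintro rfl; omega)]
          exact Nat.zero_le _
  · exact fun z hz => absurd hz (notMem_empty z)
  · intro z hz
    have := (D.F z).1 (mem_sdiff.1 hz).1
    exact ⟨by omega, notMem_empty z⟩

/-- a lower element outside, all of whose lower covers towards the window are in the set -/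
lemma en_low (H : Gr P r) (D : Con i U F0 B0) (hl : i < lev x) (hxU : x ∉ U)
    (hc : i + 1 < lev x → ∀ y, x ⋖ y → y ∈ U) {F1 B1 : Finset P}
    (hF : ∀ z, z ∈ F1 ↔ z ∈ F0 ∨ (z = x ∧ lev x = i + 1))
    (hB : ∀ v, v ∈ B1 ↔ v ∈ B0 ∨ (x ⋖ v ∧ lev x = i + 1)) :
    SO.LowD i (en U x) ∅ F1 B1 := by
  have hpos : ∀ z, z ∈ U ∨ z = x → en U x z = 1 := by
    rintro z (h | h)
    · exact en_mem h (by rintro rfl; exact hxU h)
    · rw [h, en_self hxU]
  have hcl : ∀ z, (z ∈ U ∨ z = x) → i + 1 < lev z → ∀ y, z ⋖ y → y ∈ U := by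
    rintro z (h | h) hz y hy
    · exact D.up z h hz y hy
    · subst h
      exact hc hz y hy
  have hsite : ∀ z, lev z ≤ i → en U x z = 0 := by
    intro z hz
    exact en_out (fun h => by have := D.lo z h; omega) (by rintro rfl; omega)
  refine ⟨?_, ?_, ?_, ?_, ?_, ?_⟩
  · intro z hz
    refine ⟨?_, fun h => absurd h (notMem_empty z)⟩
    rintro ⟨y, hy, hlt⟩
    exfalso
    have ly := lev_cov H hy
    have h := en_pos (show 0 < en U x y by omega)
    have h1 := hcl y h (by omega) z hy
    rw [hpos y h, hpos z (Or.inl h1)] at hlt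
    exact lt_irrefl _ hlt
  · intro z hz
    rw [hB, D.B]
    constructor
    · rintro ⟨y, hy, hlt⟩
      have ly := lev_cov H hy
      rcases en_pos (show 0 < en U x y by omega) with h | h
      · exact Or.inl ⟨hz, y, h, hy⟩
      · subst h
        exact Or.inr ⟨hy, by omega⟩
    · rintro (⟨-, y, hy, hyz⟩ | ⟨hxz, hx1⟩)
      · exact ⟨y, hyz, by rw [hpos y (Or.inl hy), hsite z hz.le]; exact Nat.zero_lt_one⟩
      · exact ⟨x, hxz, by rw [hpos x (Or.inr rfl), hsite z hz.le]; exact Nat.zero_lt_one⟩
  · intro z hz
    rw [hF, D.F]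
    constructor
    · rintro ⟨y, hy, hle⟩
      refine ⟨notMem_empty z, ?_⟩
      have ly := lev_cov H hy
      rintro (⟨h1, h2⟩ | ⟨rfl, h2⟩)
      · rw [hpos z (Or.inl h1), hsite y (by omega)] at hle
        omega
      · rw [hpos z (Or.inr rfl), hsite y (by omega)] at hle
        omega
    · rintro ⟨-, h⟩
      obtain ⟨y, hy⟩ := uc_nonempty H (x := z) (by omega)
      refine ⟨y, mem_uc.1 hy, ?_⟩
      by_cases h1 : z ∈ U ∨ z = x
      · have h2 : lev z ≠ i + 1 := by
          intro h3
          rcases h1 with h1 | h1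
          · exact h (Or.inl ⟨h1, h3⟩)
          · exact h (Or.inr ⟨h1, by rw [← h1]; exact h3⟩)
        rw [hpos z h1, hpos y (Or.inl (hcl z h1 (by omega) y (mem_uc.1 hy)))]
      · push Not at h1
        rw [en_out h1.1 h1.2]
        exact Nat.zero_le _
  · exact fun z hz => absurd hz (notMem_empty z)
  · intro z hz
    refine ⟨?_, notMem_empty z⟩
    rcases (hF z).1 hz with h | ⟨rfl, h⟩
    · have := (D.F z).1 h
      omega
    · exact hl
  · intro z hz
    rcases (hB z).1 hz with h | ⟨h1, h2⟩
    · exact ((D.B z).1 h).1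
    · have := lev_cov H h1
      omega

/-- a lower element with a cover outside the set which is not a site: not admissible -/
lemma en_bad (D : Con i U F0 B0) (hl : i + 1 < lev x) (H : Gr P r) (hxU : x ∉ U) {y : P}
    (hy : x ⋖ y) (hyU : y ∉ U) : ¬ AdmL i (en U x) := by
  intro hA
  have ly := lev_cov H hy
  have hyx : y ≠ x := by rintro rfl; omega
  apply hA y (by omega)
  constructor
  · exact ⟨x, hy, by rw [en_out hyU hyx, en_self hxU]; exact Nat.zero_lt_one⟩
  · obtain ⟨z, hz⟩ := uc_nonempty H (x := y) (by omega)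
    exact ⟨z, mem_uc.1 hz, by rw [en_out hyU hyx]; exact Nat.zero_le _⟩

/-- an upper element far from the window: not admissible -/
lemma en_badU (H : Gr P r) (hir : i ≤ r) (D : Con i U F0 B0) (hl : lev x + 1 < i) :
    ¬ AdmU i (en U x) := by
  intro hA
  obtain ⟨y, hy⟩ := dc_nonempty H (x := x) (by omega)
  have ly := lev_cov H (mem_dc.1 hy)
  have hyU : y ∉ U := fun h => by have := D.lo y h; omega
  have hxU : x ∉ U := fun h => by have := D.lo x h; omega
  have hyx : y ≠ x := by rintro rfl; omega
  apply hA y (by omega)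
  constructor
  · exact ⟨x, mem_dc.1 hy, by rw [en_out hyU hyx, en_self hxU]; exact Nat.zero_lt_one⟩
  · obtain ⟨z, hz⟩ := dc_nonempty H (x := y) (by omega)
    exact ⟨z, mem_dc.1 hz, by rw [en_out hyU hyx]; exact Nat.zero_le _⟩

/-- a near upper element -/
lemma en_upp (H : Gr P r) (hir : i ≤ r) (D : Con i U F0 B0) (hl : lev x + 1 = i) :
    SO.LowD i (en U x) ∅ F0 B0 ∧ SO.UppD i (en U x) ∅ {x} (dc x) := by
  have hxU : x ∉ U := fun h => by have := D.lo x h; omega
  have hlow : ∀ z, i ≤ lev z → en U x z = if z ∈ U then 1 else 0 := by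
    intro z hz
    unfold en
    rw [if_neg (show z ≠ x by rintro rfl; omega), add_zero]
  constructor
  · refine ⟨?_, ?_, ?_, ?_, ?_, fun v hv => ((D.B v).1 hv).1⟩
    · intro z hz
      refine ⟨?_, fun h => absurd h (notMem_empty z)⟩
      rintro ⟨y, hy, hlt⟩
      exfalso
      have ly := lev_cov H hy
      rw [hlow z (by omega), hlow y (by omega)] at hlt
      by_cases h : y ∈ U
      · rw [if_pos h, if_pos (D.up y h (by omega) z hy)] at hlt
        exact lt_irrefl _ hlt
      · rw [if_neg h] at hlt
        omega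
    · intro z hz
      rw [D.B]
      have hzU : z ∉ U := fun h => by have := D.lo z h; omega
      constructor
      · rintro ⟨y, hy, hlt⟩
        have ly := lev_cov H hy
        rw [hlow z (by omega), hlow y (by omega)] at hlt
        refine ⟨hz, y, ?_, hy⟩
        by_contra h
        rw [if_neg h] at hlt
        omega
      · rintro ⟨-, y, hy, hyz⟩
        have ly := lev_cov H hyz
        exact ⟨y, hyz, by rw [hlow z (by omega), hlow y (by omega), if_pos hy, if_neg hzU]
                          exact Nat.zero_lt_one⟩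
    · intro z hz
      rw [D.F]
      constructor
      · rintro ⟨y, hy, hle⟩
        refine ⟨notMem_empty z, ?_⟩
        rintro ⟨h1, h2⟩
        have ly := lev_cov H hy
        have hyU : y ∉ U := fun h => by have := D.lo y h; omega
        rw [hlow z (by omega), hlow y (by omega), if_pos h1, if_neg hyU] at hle
        omega
      · rintro ⟨-, h⟩
        obtain ⟨y, hy⟩ := uc_nonempty H (x := z) (by omega)
        refine ⟨y, mem_uc.1 hy, ?_⟩
        have ly := lev_cov H (mem_uc.1 hy)
        rw [hlow z (by omega), hlow y (by omega)]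
        by_cases h1 : z ∈ U
        · have h2 : lev z ≠ i + 1 := fun h3 => h ⟨h1, h3⟩
          rw [if_pos h1, if_pos (D.up z h1 (by omega) y (mem_uc.1 hy))]
        · rw [if_neg h1]
          exact Nat.zero_le _
    · exact fun z hz => absurd hz (notMem_empty z)
    · intro z hz
      have := (D.F z).1 hz
      exact ⟨by omega, notMem_empty z⟩
  · have hup : ∀ z, lev z ≤ i → z ≠ x → en U x z = 0 := by
      intro z hz h
      exact en_out (fun h => by have := D.lo z h; omega) h
    refine ⟨?_, ?_, ?_, ?_, ?_, ?_⟩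
    · intro z hz
      refine ⟨?_, fun h => absurd h (notMem_empty z)⟩
      rintro ⟨y, hy, hlt⟩
      exfalso
      have ly := lev_cov H hy
      rw [hup y (by omega) (by rintro rfl; omega)] at hlt
      omega
    · intro z hz
      rw [mem_dc]
      constructor
      · rintro ⟨y, hy, hlt⟩
        have ly := lev_cov H hy
        by_contra h
        have hyx : y ≠ x := by rintro rfl; exact h hy
        rw [hup y (by omega) hyx] at hlt
        omega
      · intro h
        exact ⟨x, h, by rw [en_self hxU, hup z hz.le (by rintro rfl; omega)]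
                        exact Nat.zero_lt_one⟩
    · intro z hz
      rw [mem_singleton]
      constructor
      · rintro ⟨y, hy, hle⟩
        refine ⟨notMem_empty z, ?_⟩
        rintro rfl
        have ly := lev_cov H hy
        rw [en_self hxU, hup y (by omega) (by rintro rfl; omega)] at hle
        omega
      · rintro ⟨-, h⟩
        obtain ⟨y, hy⟩ := dc_nonempty H (x := z) (by omega)
        refine ⟨y, mem_dc.1 hy, ?_⟩
        rw [hup z (by omega) h]
        exact Nat.zero_le _
    · exact fun z hz => absurd hz (notMem_empty z)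
    · intro z hz
      rw [mem_singleton] at hz
      subst hz
      exact ⟨by omega, notMem_empty z⟩
    · intro z hz
      have := lev_dc H hz
      omega

/-- nothing above the window if `x` is a site or a lower element -/
lemma en_none (H : Gr P r) (hir : i ≤ r) (D : Con i U F0 B0) (hl : i ≤ lev x) :
    SO.UppD i (en U x) ∅ ∅ ∅ := by
  refine SO.upp_none H hir fun z hz => ?_
  exact en_out (fun h => by have := D.lo z h; omega) (by rintro rfl; omega)

/-- a second unit on a near element of the set -/
lemma en_near (H : Gr P r) (D : Con i U F0 B0) (hx : x ∈ F0) : SO.LowD i (en U x) ∅ F0 B0 := by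
  obtain ⟨hxU, hl⟩ := (D.F x).1 hx
  have hx2 : en U x x = 2 := by
    unfold en
    rw [if_pos hxU, if_pos rfl]
  have h1 : ∀ z ∈ U, 1 ≤ en U x z := by
    intro z hz
    unfold en
    rw [if_pos hz]
    omega
  have hsite : ∀ z, lev z ≤ i → en U x z = 0 := by
    intro z hz
    exact en_out (fun h => by have := D.lo z h; omega) (by rintro rfl; omega)
  refine ⟨?_, ?_, ?_, ?_, ?_, fun v hv => ((D.B v).1 hv).1⟩
  · intro z hz
    refine ⟨?_, fun h => absurd h (notMem_empty z)⟩
    rintro ⟨y, hy, hlt⟩
    exfalso
    have ly := lev_cov H hy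
    have hyx : y ≠ x := by rintro rfl; omega
    rcases en_pos (show 0 < en U x y by omega) with h | h
    · rw [en_mem h hyx] at hlt
      have := h1 z (D.up y h (by omega) z hy)
      omega
    · exact hyx h
  · intro z hz
    rw [D.B]
    constructor
    · rintro ⟨y, hy, hlt⟩
      rcases en_pos (show 0 < en U x y by omega) with h | h
      · exact ⟨hz, y, h, hy⟩
      · exact ⟨hz, y, by rw [h]; exact hxU, hy⟩
    · rintro ⟨-, y, hy, hyz⟩
      exact ⟨y, hyz, by rw [hsite z hz.le]; exact h1 y hy⟩
  · intro z hz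
    rw [D.F]
    constructor
    · rintro ⟨y, hy, hle⟩
      refine ⟨notMem_empty z, ?_⟩
      rintro ⟨h2, h3⟩
      have ly := lev_cov H hy
      rw [hsite y (by omega)] at hle
      have := h1 z h2
      omega
    · rintro ⟨-, h⟩
      obtain ⟨y, hy⟩ := uc_nonempty H (x := z) (by omega)
      refine ⟨y, mem_uc.1 hy, ?_⟩
      by_cases h2 : z ∈ U
      · have h3 : lev z ≠ i + 1 := fun h3 => h ⟨h2, h3⟩
        rw [en_mem h2 (by rintro rfl; omega)]
        exact h1 y (D.up z h2 (by omega) y (mem_uc.1 hy))
      · rw [en_out h2 (by rintro rfl; exact h2 hxU)]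
        exact Nat.zero_le _
  · exact fun z hz => absurd hz (notMem_empty z)
  · intro z hz
    have := (D.F z).1 hz
    exact ⟨by omega, notMem_empty z⟩

end en

end Pool.Agent.GaussPoset.Win.So

end

/-! From `Pool.Agent.W_448so_h63.FD` -/

section

/-!
S9 with Z2 (MP_448cb3_co, case B): values of the labellings `en U x`.
-/

set_option autoImplicit false

namespace Pool.Agent.GaussPoset.Win.So

set_option linter.unusedSectionVars false

open Finset SO

universe u

variable {P : Type u} [Fintype P] [PartialOrder P] [DecidableEq P] {r i : ℕ}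
  {e : P → ℕ} {K F B K' F' B' : Finset P}

lemma coeff_dd (m b : ℕ) (G : A) :
    PowerSeries.coeff b (dd ^ m * G : A) = if m ≤ b then PowerSeries.coeff (b - m) G else 0 := by
  unfold dd
  exact PowerSeries.coeff_X_pow_mul' G m b

lemma xx_0 : PowerSeries.coeff 0 (xx : A) = -1 := by
  unfold xx dd
  simp

lemma xx_c : PowerSeries.constantCoeff (xx : A) = -1 := by
  have := xx_0
  rwa [PowerSeries.coeff_zero_eq_constantCoeff_apply] at this

lemma xx_1 : PowerSeries.coeff 1 (xx : A) = 1 := by
  unfold xx dd
  rw [map_sub, PowerSeries.coeff_one_X, PowerSeries.coeff_one, if_neg one_ne_zero, sub_zero]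

lemma xi_n (n : ℕ) : PowerSeries.coeff n (xi : A) = -1 := by
  unfold xi
  rw [map_neg, PowerSeries.coeff_mk]

lemma c0_units (m n : ℕ) : PowerSeries.coeff 0 (xx ^ m * xi ^ n : A) = (-1) ^ (m + n) := by
  have h := coef_units m n 0
  rwa [pow_zero, one_mul] at h

lemma c1_xx (m : ℕ) : PowerSeries.coeff 1 (xx ^ (m + 1) : A) = ((m : ℤ) + 1) * (-1) ^ m := by
  rw [PowerSeries.coeff_one_pow, xx_1]
  have h : PowerSeries.constantCoeff (xx : A) = -1 := by
    have := xx_0
    rwa [PowerSeries.coeff_zero_eq_constantCoeff_apply] at this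
  rw [h]
  push_cast
  simp

lemma c1_mix : PowerSeries.coeff 1 (xx ^ 4 * xi ^ 1 : A) = 3 := by
  have h : PowerSeries.constantCoeff (xx : A) = -1 := by
    have := xx_0
    rwa [PowerSeries.coeff_zero_eq_constantCoeff_apply] at this
  have h' : PowerSeries.constantCoeff (xi : A) = -1 := by
    have := xi_n 0
    rwa [PowerSeries.coeff_zero_eq_constantCoeff_apply] at this
  rw [pow_one, PowerSeries.coeff_one_mul, c1_xx 3, xi_n, map_pow, h, h']
  norm_num

/-- the term of a labelling -/
lemma trm_of (D : SO.LowD i e K F B) (D' : SO.UppD i e K' F' B') (hd : Disjoint B B') :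
    trm i e = dd ^ (F.card + F'.card + ((lv P i).card - B.card - B'.card)) *
      (xx ^ (K.card + B.card) * xi ^ (K'.card + F'.card)) ∧
      B.card + B'.card ≤ (lv P i).card := by
  classical
  have hdis : Disjoint (AL i e) (AU i e) := by rw [D.AL_eq, D'.AU_eq]; exact hd
  refine ⟨?_, ?_⟩
  · unfold trm cw
    rw [if_pos hdis, if_pos ⟨D.adm, D'.adm⟩, D.aL_eq, D.pL_eq, D.AL_eq, D'.aU_eq, D'.pU_eq,
      D'.AU_eq, pow_add (dd : A) (F.card + F'.card), pow_add (xx : A)]
    ring
  · rw [← card_union_of_disjoint hd]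
    apply card_le_card
    intro v hv
    rw [mem_lv]
    rcases mem_union.1 hv with h | h
    · exact D.lb v h
    · exact D'.lb v h

/-- the coefficient of a labelling -/
theorem coeff_trm (D : SO.LowD i e K F B) (D' : SO.UppD i e K' F' B') (hd : Disjoint B B')
    (s : ℕ) : PowerSeries.coeff (lv P i).card (dd ^ s * trm i e : A) =
      if F.card + F'.card + s ≤ B.card + B'.card then
        PowerSeries.coeff (B.card + B'.card - (F.card + F'.card + s))
          (xx ^ (K.card + B.card) * xi ^ (K'.card + F'.card) : A) else 0 := by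
  obtain ⟨h1, h2⟩ := trm_of D D' hd
  rw [h1, ← mul_assoc, ← pow_add, coeff_dd]
  by_cases h : F.card + F'.card + s ≤ B.card + B'.card
  · rw [if_pos h, if_pos (by omega)]
    congr 1
    congr 1
    omega
  · rw [if_neg h, if_neg (by omega)]

/-- two deficits -/
lemma coeff_trm2 (D : SO.LowD i e K F B) (D' : SO.UppD i e K' F' B') (hd : Disjoint B B')
    {s : ℕ} (h : B.card + B'.card = F.card + F'.card + s) :
    PowerSeries.coeff (lv P i).card (dd ^ s * trm i e : A) =
      (-1) ^ (K.card + B.card + (K'.card + F'.card)) := by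
  rw [coeff_trm D D' hd, if_pos (by omega), show B.card + B'.card - (F.card + F'.card + s) = 0
    by omega, c0_units]

lemma coeff_trm_small (D : SO.LowD i e K F B) (D' : SO.UppD i e K' F' B') (hd : Disjoint B B')
    {s : ℕ} (h : B.card + B'.card < F.card + F'.card + s) :
    PowerSeries.coeff (lv P i).card (dd ^ s * trm i e : A) = 0 := by
  rw [coeff_trm D D' hd, if_neg (by omega)]

lemma trm_zero_adm (h : ¬ (AdmL i e ∧ AdmU i e)) : trm i e = 0 := by
  unfold trm cw
  split_ifs
  · rw [zero_mul]
  · rfl

lemma trm_zero_dis (D : SO.LowD i e K F B) (D' : SO.UppD i e K' F' B') (hd : ¬ Disjoint B B') :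
    trm i e = 0 := by
  unfold trm
  rw [if_neg]
  rw [D.AL_eq, D'.AU_eq]
  exact hd

/-! ### the empty set -/

section zero

variable {x : P}

lemma e0_site (H : Gr P r) (hir : i ≤ r) (hl : lev x = i) :
    PowerSeries.coeff (lv P i).card (trm i (en ∅ x) : A) = 1 := by
  have h := coeff_trm2 (s := 0) (en_site H con_empty hl (notMem_empty x))
    (en_none H hir con_empty hl.ge) (disjoint_empty_left _) (by simp)
  rw [pow_zero, one_mul] at h
  rw [h]
  simp

lemma e0_low (H : Gr P r) (hir : i ≤ r) (hl : lev x = i + 1) :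
    PowerSeries.coeff (lv P i).card (trm i (en ∅ x) : A) = - ((uc x).card : ℤ) := by
  have D : SO.LowD i (en ∅ x) ∅ {x} (uc x) := by
    refine en_low H con_empty (by omega) (notMem_empty x) (by omega) ?_ ?_
    · intro z
      rw [mem_singleton]
      constructor
      · intro h
        exact Or.inr ⟨h, hl⟩
      · rintro (h | ⟨h, -⟩)
        · exact absurd h (notMem_empty z)
        · exact h
    · intro z
      rw [mem_uc]
      constructor
      · intro h
        exact Or.inr ⟨h, hl⟩
      · rintro (h | ⟨h, -⟩)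
        · exact absurd h (notMem_empty z)
        · exact h
  have D' := en_none (U := ∅) (x := x) H hir con_empty (by omega)
  have h := coeff_trm D D' (disjoint_empty_right _) 0
  rw [pow_zero, one_mul] at h
  rw [h]
  rcases uc_card_cases H (x := x) (by omega) with h1 | h1
  · rw [h1]
    simp only [card_singleton, card_empty]
    rw [if_pos (by omega)]
    norm_num
    exact xx_c
  · rw [h1]
    simp only [card_singleton, card_empty]
    rw [if_pos (by omega)]
    norm_num
    have := c1_xx 1
    norm_num at this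
    exact this

lemma e0_upp (H : Gr P r) (hir : i ≤ r) (hl : lev x + 1 = i) :
    PowerSeries.coeff (lv P i).card (trm i (en ∅ x) : A) = -1 := by
  obtain ⟨D, D'⟩ := en_upp (U := ∅) (x := x) H hir con_empty hl
  have h := coeff_trm D D' (disjoint_empty_left _) 0
  rw [pow_zero, one_mul] at h
  rw [h]
  have h1 : 1 ≤ (dc x).card := card_pos.2 (dc_nonempty H (by omega))
  simp only [card_singleton, card_empty]
  rw [if_pos (by omega)]
  norm_num
  exact xi_n _

lemma e0_low_far (H : Gr P r) (hl : i + 1 < lev x) :
    trm i (en ∅ x) = 0 := by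
  obtain ⟨y, hy⟩ := uc_nonempty H (x := x) (by omega)
  apply trm_zero_adm
  rintro ⟨h, -⟩
  exact en_bad con_empty hl H (notMem_empty x) (mem_uc.1 hy) (notMem_empty y) h

lemma e0_upp_far (H : Gr P r) (hir : i ≤ r) (hl : lev x + 1 < i) :
    trm i (en ∅ x) = 0 := by
  apply trm_zero_adm
  rintro ⟨-, h⟩
  exact en_badU H hir con_empty hl h

end zero

/-! ### a join of two pendants -/

/-- a join of level `i + 3` between two pendants of different components -/
structure ZD {ι : Type*} (i : ℕ) (κ : P → ι) (v p p' y y' : P) : Prop extends CrV i κ v p p' where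
  hp : uc p = {y}
  hp' : uc p' = {y'}
  c : (uc y).card = 2
  c' : (uc y').card = 2

section join

variable {ι : Type*} [DecidableEq ι] {κ : P → ι} {v p p' y y' : P}

lemma ZD.yp (D : ZD i κ v p p' y y') : p ⋖ y := by
  rw [← mem_uc, D.hp]
  exact mem_singleton_self y

lemma ZD.yp' (D : ZD i κ v p p' y y') : p' ⋖ y' := by
  rw [← mem_uc, D.hp']
  exact mem_singleton_self y'

lemma ZD.ly (H : Gr P r) (D : ZD i κ v p p' y y') : lev y = i + 1 := by
  have h1 := lev_cov H D.yp
  have h2 := D.lp H
  omega

lemma ZD.ly' (H : Gr P r) (D : ZD i κ v p p' y y') : lev y' = i + 1 := by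
  have h1 := lev_cov H D.yp'
  have h2 := D.lp' H
  omega

lemma ZD.dis (H : Gr P r) (hκ : Split (i + 2) κ) (D : ZD i κ v p p' y y') :
    Disjoint (uc y) (uc y') := by
  rw [disjoint_left]
  intro x hx hx'
  exact D.ne ((D.lab2 hκ H (mem_uc.2 D.yp) hx).symm.trans
    (D.toCrV.symm.lab2 hκ H (mem_uc.2 D.yp') hx'))

lemma ZD.nyy (H : Gr P r) (hκ : Split (i + 2) κ) (D : ZD i κ v p p' y y') : y ≠ y' := by
  rintro rfl
  have h1 := D.dis H hκ
  rw [disjoint_self, bot_eq_empty] at h1
  have h2 := D.c
  rw [h1, card_empty] at h2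
  omega

lemma ZD.four (H : Gr P r) (hκ : Split (i + 2) κ) (D : ZD i κ v p p' y y') :
    (uc y ∪ uc y').card = 4 := by
  rw [card_union_of_disjoint (D.dis H hκ), D.c, D.c']

/-- the cone of the join as a closed set -/
lemma ZD.con (H : Gr P r) (D : ZD i κ v p p' y y') :
    Con i {v, p, p', y, y'} {y, y'} (uc y ∪ uc y') := by
  have lv := D.lv
  have lp := D.lp H
  have lp' := D.lp' H
  have ly := D.ly H
  have ly' := D.ly' H
  have hm : ∀ z, z ∈ ({v, p, p', y, y'} : Finset P) ↔ z = v ∨ z = p ∨ z = p' ∨ z = y ∨ z = y' := by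
    intro z
    simp only [mem_insert, mem_singleton]
  refine ⟨?_, ?_, ?_, ?_⟩
  · intro x hx
    rcases (hm x).1 hx with rfl | rfl | rfl | rfl | rfl <;> omega
  · intro x hx hl z hz
    rw [hm]
    rcases (hm x).1 hx with rfl | rfl | rfl | rfl | rfl
    · rw [← mem_uc, D.cov, mem_insert, mem_singleton] at hz
      tauto
    · rw [← mem_uc, D.hp, mem_singleton] at hz
      tauto
    · rw [← mem_uc, D.hp', mem_singleton] at hz
      tauto
    · omega
    · omega
  · intro z
    rw [hm, mem_insert, mem_singleton]
    constructor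
    · rintro (rfl | rfl)
      · exact ⟨by tauto, ly⟩
      · exact ⟨by tauto, ly'⟩
    · rintro ⟨rfl | rfl | rfl | h | h, h2⟩
      · omega
      · omega
      · omega
      · exact Or.inl h
      · exact Or.inr h
  · intro z
    rw [mem_union, mem_uc, mem_uc]
    constructor
    · rintro (h | h)
      · have := lev_cov H h
        exact ⟨by omega, y, (hm y).2 (by tauto), h⟩
      · have := lev_cov H h
        exact ⟨by omega, y', (hm y').2 (by tauto), h⟩
    · rintro ⟨h1, x, hx, hxz⟩
      have lx := lev_cov H hxz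
      rcases (hm x).1 hx with rfl | rfl | rfl | rfl | rfl
      · omega
      · omega
      · omega
      · exact Or.inl hxz
      · exact Or.inr hxz

end join

end Pool.Agent.GaussPoset.Win.So

end

/-! From `Pool.Agent.W_448so_h63.FE` -/

section

/-!
S9 with Z2 (MP_448cb3_co, case B): the environment of a join of two pendants.
-/

set_option autoImplicit false

namespace Pool.Agent.GaussPoset.Win.So

set_option linter.unusedSectionVars false

open Finset SO

universe u

variable {P : Type u} [Fintype P] [PartialOrder P] [DecidableEq P] {r i : ℕ}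

variable {ι : Type*} [DecidableEq ι] {κ : P → ι} {v p p' y y' x : P}

/-- the middle element of a cone: a second unit on a pendant -/
lemma en_mid {U F0 B0 : Finset P} (H : Gr P r) (D : Con i U F0 B0) (hxU : x ∈ U)
    (hl : lev x = i + 2) {y : P} (hy : uc x = {y}) :
    SO.LowD i (en U x) {y} (insert x (F0.erase y)) B0 := by
  have hxy : x ⋖ y := by rw [← mem_uc, hy]; exact mem_singleton_self y
  have ly := lev_cov H hxy
  have hyU : y ∈ U := D.up x hxU (by omega) y hxy
  have hyx : y ≠ x := by rintro rfl; omega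
  have hx2 : en U x x = 2 := by
    unfold en
    rw [if_pos hxU, if_pos rfl]
  have h1 : ∀ z ∈ U, 1 ≤ en U x z := by
    intro z hz
    unfold en
    rw [if_pos hz]
    omega
  have hsite : ∀ z, lev z ≤ i → en U x z = 0 := by
    intro z hz
    exact en_out (fun h => by have := D.lo z h; omega) (by rintro rfl; omega)
  refine ⟨?_, ?_, ?_, ?_, ?_, fun v hv => ((D.B v).1 hv).1⟩
  · intro z hz
    rw [mem_singleton]
    constructor
    · rintro ⟨w, hw, hlt⟩
      have lw := lev_cov H hw
      rcases en_pos (show 0 < en U x w by omega) with h | h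
      · by_cases hwx : w = x
        · subst hwx
          rw [← mem_uc, hy, mem_singleton] at hw
          exact hw
        · exfalso
          rw [en_mem h hwx] at hlt
          have := h1 z (D.up w h (by omega) z hw)
          omega
      · subst h
        rw [← mem_uc, hy, mem_singleton] at hw
        exact hw
    · rintro rfl
      exact ⟨x, hxy, by rw [en_mem hyU hyx, hx2]; omega⟩
  · intro z hz
    rw [D.B]
    constructor
    · rintro ⟨w, hw, hlt⟩
      rcases en_pos (show 0 < en U x w by omega) with h | h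
      · exact ⟨hz, w, h, hw⟩
      · exact ⟨hz, w, by rw [h]; exact hxU, hw⟩
    · rintro ⟨-, w, hw, hwz⟩
      exact ⟨w, hwz, by rw [hsite z hz.le]; exact h1 w hw⟩
  · intro z hz
    rw [mem_singleton, mem_insert, mem_erase, D.F]
    constructor
    · rintro ⟨w, hw, hle⟩
      have lw := lev_cov H hw
      refine ⟨?_, ?_⟩
      · rintro rfl
        rw [en_mem hyU hyx, hsite w (by omega)] at hle
        omega
      · rintro (rfl | ⟨-, h2, h3⟩)
        · rw [← mem_uc, hy, mem_singleton] at hw
          subst hw
          rw [hx2, en_mem hyU hyx] at hle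
          omega
        · rw [hsite w (by omega)] at hle
          have := h1 z h2
          omega
    · rintro ⟨hzy, h⟩
      push Not at h
      obtain ⟨w, hw⟩ := uc_nonempty H (x := z) (by omega)
      refine ⟨w, mem_uc.1 hw, ?_⟩
      by_cases h2 : z ∈ U
      · have h3 : lev z ≠ i + 1 := h.2 hzy h2
        rw [en_mem h2 h.1]
        exact h1 w (D.up z h2 (by omega) w (mem_uc.1 hw))
      · rw [en_out h2 h.1]
        exact Nat.zero_le _
  · intro z hz
    rw [mem_singleton] at hz
    subst hz
    omega
  · intro z hz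
    rw [mem_singleton]
    rw [mem_insert, mem_erase, D.F] at hz
    rcases hz with rfl | ⟨h2, -, h3⟩
    · exact ⟨by omega, Ne.symm hyx⟩
    · exact ⟨by omega, h2⟩

/-- a second unit on an element at distance at least three: not admissible -/
lemma en_top {U F0 B0 : Finset P} (H : Gr P r) (D : Con i U F0 B0) (hxU : x ∈ U)
    (hl : i + 2 < lev x) : ¬ AdmL i (en U x) := by
  intro hA
  obtain ⟨w, hw⟩ := uc_nonempty H (x := x) (by omega)
  have lw := lev_uc H hw
  have hwU := D.up x hxU (by omega) w (mem_uc.1 hw)
  have hwx : w ≠ x := by rintro rfl; omega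
  obtain ⟨z, hz⟩ := uc_nonempty H (x := w) (by omega)
  have lz := lev_uc H hz
  have hzU := D.up w hwU (by omega) z (mem_uc.1 hz)
  apply hA w (by omega)
  constructor
  · refine ⟨x, mem_uc.1 hw, ?_⟩
    rw [en_mem hwU hwx]
    unfold en
    rw [if_pos hxU, if_pos rfl]
    omega
  · refine ⟨z, mem_uc.1 hz, ?_⟩
    rw [en_mem hwU hwx, en_mem hzU (by rintro rfl; omega)]

section values

variable (H : Gr P r) (hir : i ≤ r) (hκ : Split (i + 2) κ) (D : ZD i κ v p p' y y')
include H hir hκ D

/-- the coefficient of `q^6 dd^(b-2)` of the labelling with one more unit at `x` -/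
lemma zv_site_out (hl : lev x = i) (hx : x ∉ uc y ∪ uc y') :
    PowerSeries.coeff (lv P i).card (dd ^ 2 * trm i (en {v, p, p', y, y'} x) : A) = 1 := by
  have c := D.con H
  rw [coeff_trm2 (en_site H c hl hx) (en_none H hir c hl.ge) (disjoint_empty_right _) (by
    rw [D.four H hκ, card_pair (D.nyy H hκ)]
    simp), D.four H hκ]
  norm_num

lemma zv_site_in (hl : lev x = i) (hx : x ∈ uc y ∪ uc y') :
    PowerSeries.coeff (lv P i).card (dd ^ 2 * trm i (en {v, p, p', y, y'} x) : A) = -1 := by
  have c := D.con H
  have h1 : (({y, y'} : Finset P) \ dc x).card = 1 := by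
    have hd := D.dis H hκ
    rw [disjoint_left] at hd
    rcases mem_union.1 hx with h | h
    · have h2 : ({y, y'} : Finset P) \ dc x = {y'} := by
        ext z
        simp only [mem_sdiff, mem_insert, mem_singleton, mem_dc]
        constructor
        · rintro ⟨rfl | rfl, h3⟩
          · exact absurd (mem_uc.1 h) h3
          · rfl
        · rintro rfl
          exact ⟨Or.inr rfl, fun h3 => hd h (mem_uc.2 h3)⟩
      rw [h2, card_singleton]
    · have h2 : ({y, y'} : Finset P) \ dc x = {y} := by
        ext z
        simp only [mem_sdiff, mem_insert, mem_singleton, mem_dc]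
        constructor
        · rintro ⟨rfl | rfl, h3⟩
          · rfl
          · exact absurd (mem_uc.1 h) h3
        · rintro rfl
          exact ⟨Or.inl rfl, fun h3 => hd (mem_uc.2 h3) h⟩
      rw [h2, card_singleton]
  rw [coeff_trm2 (en_siteB H c hl) (en_none H hir c hl.ge) (disjoint_empty_right _) (by
    rw [card_erase_of_mem hx, D.four H hκ, h1]
    simp), card_erase_of_mem hx, D.four H hκ]
  norm_num

lemma zv_near_in (hx : x = y ∨ x = y') :
    PowerSeries.coeff (lv P i).card (dd ^ 2 * trm i (en {v, p, p', y, y'} x) : A) = 1 := by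
  have c := D.con H
  have hx' : x ∈ ({y, y'} : Finset P) := by rw [mem_insert, mem_singleton]; exact hx
  have hl := ((c.F x).1 hx').2
  rw [coeff_trm2 (en_near H c hx') (en_none H hir c (by omega)) (disjoint_empty_right _) (by
    rw [D.four H hκ, card_pair (D.nyy H hκ)]
    simp), D.four H hκ]
  norm_num

lemma zv_mid (hx : x = p ∨ x = p') :
    PowerSeries.coeff (lv P i).card (dd ^ 2 * trm i (en {v, p, p', y, y'} x) : A) = -1 := by
  have c := D.con H
  have lp := D.lp H
  have lp' := D.lp' H
  have ly := D.ly H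
  have ly' := D.ly' H
  have hn := D.nyy H hκ
  rcases hx with rfl | rfl
  · have D1 := en_mid H c (x := x) (by simp) lp D.hp
    have h1 : (insert x (({y, y'} : Finset P).erase y)).card = 2 := by
      rw [card_insert_of_notMem, card_erase_of_mem (by simp), card_pair hn]
      rw [mem_erase, mem_insert, mem_singleton]
      rintro ⟨-, rfl | rfl⟩ <;> omega
    rw [coeff_trm2 D1 (en_none H hir c (by omega)) (disjoint_empty_right _) (by
      rw [D.four H hκ, h1]
      simp), D.four H hκ]
    norm_num
  · have D1 := en_mid H c (x := x) (by simp) lp' D.hp'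
    have h1 : (insert x (({y, y'} : Finset P).erase y')).card = 2 := by
      rw [card_insert_of_notMem, card_erase_of_mem (by simp), card_pair hn]
      rw [mem_erase, mem_insert, mem_singleton]
      rintro ⟨-, rfl | rfl⟩ <;> omega
    rw [coeff_trm2 D1 (en_none H hir c (by omega)) (disjoint_empty_right _) (by
      rw [D.four H hκ, h1]
      simp), D.four H hκ]
    norm_num

lemma zv_top : trm i (en {v, p, p', y, y'} v) = 0 := by
  have c := D.con H
  apply trm_zero_adm
  rintro ⟨h, -⟩
  exact en_top H c (by simp) (by have := D.lv; omega) h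

lemma zv_child (hl : i + 1 < lev x) (hxU : x ∉ ({v, p, p', y, y'} : Finset P))
    (hc : uc x ⊆ ({v, p, p', y, y'} : Finset P)) :
    PowerSeries.coeff (lv P i).card (dd ^ 2 * trm i (en {v, p, p', y, y'} x) : A) = 1 := by
  have c := D.con H
  have D1 : SO.LowD i (en {v, p, p', y, y'} x) ∅ {y, y'} (uc y ∪ uc y') := by
    refine en_low H c (by omega) hxU (fun _ z hz => hc (mem_uc.2 hz)) ?_ ?_
    · intro z
      constructor
      · exact Or.inl
      · rintro (h | ⟨-, h⟩)
        · exact h
        · omega
    · intro z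
      constructor
      · exact Or.inl
      · rintro (h | ⟨-, h⟩)
        · exact h
        · omega
  rw [coeff_trm2 D1 (en_none H hir c (by omega)) (disjoint_empty_right _) (by
    rw [D.four H hκ, card_pair (D.nyy H hκ)]
    simp), D.four H hκ]
  norm_num

lemma zv_child_bad (hl : i + 1 < lev x) (hxU : x ∉ ({v, p, p', y, y'} : Finset P))
    (hc : ¬ uc x ⊆ ({v, p, p', y, y'} : Finset P)) :
    trm i (en {v, p, p', y, y'} x) = 0 := by
  rw [not_subset] at hc
  obtain ⟨z, hz, hzU⟩ := hc
  apply trm_zero_adm
  rintro ⟨h, -⟩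
  exact en_bad (D.con H) hl H hxU (mem_uc.1 hz) hzU h

lemma zv_near_out (hl : lev x = i + 1) (hxU : x ≠ y ∧ x ≠ y') :
    PowerSeries.coeff (lv P i).card (dd ^ 2 * trm i (en {v, p, p', y, y'} x) : A) =
      if (uc x \ (uc y ∪ uc y')).card = 0 then 0 else
        if (uc x \ (uc y ∪ uc y')).card = 1 then -1 else -6 := by
  have c := D.con H
  have lv := D.lv
  have lp := D.lp H
  have lp' := D.lp' H
  have hxU' : x ∉ ({v, p, p', y, y'} : Finset P) := by
    simp only [mem_insert, mem_singleton]
    rintro (rfl | rfl | rfl | h | h)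
    · omega
    · omega
    · omega
    · exact hxU.1 h
    · exact hxU.2 h
  have D1 : SO.LowD i (en {v, p, p', y, y'} x) ∅ (insert x {y, y'})
      ((uc y ∪ uc y') ∪ (uc x \ (uc y ∪ uc y'))) := by
    refine en_low H c (by omega) hxU' (by omega) ?_ ?_
    · intro z
      rw [mem_insert]
      tauto
    · intro z
      rw [mem_union, mem_sdiff, mem_uc (x := x)]
      tauto
  have h1 : (insert x ({y, y'} : Finset P)).card = 3 := by
    rw [card_insert_of_notMem, card_pair (D.nyy H hκ)]
    rw [mem_insert, mem_singleton]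
    rintro (h | h)
    · exact hxU.1 h
    · exact hxU.2 h
  have h2 : ((uc y ∪ uc y') ∪ (uc x \ (uc y ∪ uc y'))).card =
      4 + (uc x \ (uc y ∪ uc y')).card := by
    rw [card_union_of_disjoint disjoint_sdiff, D.four H hκ]
  have h3 : (uc x \ (uc y ∪ uc y')).card ≤ 2 :=
    (card_le_card sdiff_subset).trans (uc_card_le H x)
  have hn := en_none (x := x) H hir c (by omega)
  rcases Nat.lt_or_ge (uc x \ (uc y ∪ uc y')).card 1 with h4 | h4
  · have h5 : (uc x \ (uc y ∪ uc y')).card = 0 := by omega
    rw [if_pos h5]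
    apply coeff_trm_small D1 hn (disjoint_empty_right _)
    rw [h1, h2, h5]
    simp
  · rw [if_neg (by omega)]
    rcases Nat.lt_or_ge (uc x \ (uc y ∪ uc y')).card 2 with h5 | h5
    · have h6 : (uc x \ (uc y ∪ uc y')).card = 1 := by omega
      rw [if_pos h6, coeff_trm2 D1 hn (disjoint_empty_right _) (by
        rw [h1, h2, h6]
        simp), h2, h6]
      norm_num
    · have h6 : (uc x \ (uc y ∪ uc y')).card = 2 := by omega
      rw [if_neg (by omega), coeff_trm D1 hn (disjoint_empty_right _), h1, h2, h6]
      simp only [card_empty]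
      rw [if_pos (by omega)]
      have := c1_xx 5
      norm_num at this ⊢
      exact this

lemma zv_upp_near (hl : lev x + 1 = i) (hd : Disjoint (uc y ∪ uc y') (dc x)) :
    PowerSeries.coeff (lv P i).card (dd ^ 2 * trm i (en {v, p, p', y, y'} x) : A) =
      if (dc x).card = 1 then -1 else 3 := by
  have c := D.con H
  obtain ⟨D1, D2⟩ := en_upp (x := x) H hir c hl
  have h1 : 1 ≤ (dc x).card := card_pos.2 (dc_nonempty H (by omega))
  have h2 := dc_card_le H x
  rcases Nat.lt_or_ge (dc x).card 2 with h3 | h3
  · have h4 : (dc x).card = 1 := by omega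
    rw [if_pos h4, coeff_trm2 D1 D2 hd (by
      rw [D.four H hκ, card_pair (D.nyy H hκ), h4]
      simp), D.four H hκ]
    norm_num
  · have h4 : (dc x).card = 2 := by omega
    rw [if_neg (by omega), coeff_trm D1 D2 hd, D.four H hκ, card_pair (D.nyy H hκ), h4]
    simp only [card_empty, card_singleton]
    rw [if_pos (by omega)]
    have := c1_mix
    norm_num at this ⊢
    exact this

lemma zv_upp_meet (hl : lev x + 1 = i) (hd : ¬ Disjoint (uc y ∪ uc y') (dc x)) :
    trm i (en {v, p, p', y, y'} x) = 0 := by
  obtain ⟨D1, D2⟩ := en_upp (x := x) H hir (D.con H) hl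
  exact trm_zero_dis D1 D2 hd

lemma zv_upp_far (hl : lev x + 1 < i) : trm i (en {v, p, p', y, y'} x) = 0 := by
  apply trm_zero_adm
  rintro ⟨-, h⟩
  exact en_badU H hir (D.con H) hl h

end values

end Pool.Agent.GaussPoset.Win.So

end

/-! From `Pool.Agent.W_448so_h63.FF` -/

section

/-!
S9 with Z2 (MP_448cb3_co, case B): the environment number of a join of two pendants.
-/

set_option autoImplicit false

namespace Pool.Agent.GaussPoset.Win.So

set_option linter.unusedSectionVars false

open Finset SO

universe u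

variable {P : Type u} [Fintype P] [PartialOrder P] [DecidableEq P] {r i : ℕ}

open Classical in
/-- the sites above `v` -/
noncomputable def Sv (i : ℕ) (v : P) : Finset P := univ.filter (fun x => lev x = i ∧ v < x)

open Classical in
/-- the lower elements above `v` (with `v`) -/
noncomputable def Cn (i : ℕ) (v : P) : Finset P := univ.filter (fun x => v ≤ x ∧ i < lev x)

open Classical in
/-- near lower elements with a site above `v` -/
noncomputable def nLs (i : ℕ) (v : P) : Finset P :=
  univ.filter (fun w => lev w = i + 1 ∧ ¬ Disjoint (uc w) (Sv i v))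

open Classical in
/-- near upper elements with a site above `v` -/
noncomputable def nUs (i : ℕ) (v : P) : Finset P :=
  univ.filter (fun w => lev w + 1 = i ∧ ¬ Disjoint (dc w) (Sv i v))

open Classical in
/-- elements outside the cone of `v`, not near, with all upper covers in the cone -/
noncomputable def chs (i : ℕ) (v : P) : Finset P :=
  univ.filter (fun x => i + 1 < lev x ∧ x ∉ Cn i v ∧ uc x ⊆ Cn i v)

/-- the environment number -/
noncomputable def env (i : ℕ) (v : P) : ℤ :=
  ((chs i v).card : ℤ) + (nLs i v).card + (nUs i v).card - 6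

variable {ι : Type*} [DecidableEq ι] {κ : P → ι} {v p p' y y' x : P}

lemma mem_Cn : x ∈ Cn i v ↔ v ≤ x ∧ i < lev x := by
  classical
  unfold Cn
  simp

lemma mem_Sv : x ∈ Sv i v ↔ lev x = i ∧ v < x := by
  classical
  unfold Sv
  simp

lemma ZD.cn (H : Gr P r) (D : ZD i κ v p p' y y') : Cn i v = {v, p, p', y, y'} := by
  classical
  ext x
  rw [mem_Cn, ← D.T_iff H, CrV.mem_T, D.hp, D.hp']
  simp only [mem_insert, mem_singleton, mem_union]

lemma ZD.sv (H : Gr P r) (D : ZD i κ v p p' y y') : Sv i v = uc y ∪ uc y' := by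
  classical
  ext x
  rw [mem_Sv, D.mem0 H, D.hp, D.hp', mem_union]
  constructor
  · rintro ⟨w, hw, hx⟩
    rw [mem_union, mem_singleton, mem_singleton] at hw
    rcases hw with rfl | rfl
    · exact Or.inl hx
    · exact Or.inr hx
  · rintro (h | h)
    · exact ⟨y, by simp, h⟩
    · exact ⟨y', by simp, h⟩

/-- another near element shares at most one site with the join -/
lemma ZD.share (H : Gr P r) (hκ : Split (i + 2) κ) (D : ZD i κ v p p' y y')
    (hu : ∀ w w' : P, lev w = i + 1 → lev w' = i + 1 → w ≠ w' → (uc w ∩ uc w').card ≤ 1)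
    (hl : lev x = i + 1) (hx : x ≠ y ∧ x ≠ y') :
    (uc x).card ≤ (uc x \ (uc y ∪ uc y')).card + 1 := by
  have h1 : (uc x ∩ (uc y ∪ uc y')).card ≤ 1 := by
    rw [inter_union_distrib_left]
    have l1 := hu x y hl (D.ly H) hx.1
    have l2 := hu x y' hl (D.ly' H) hx.2
    rcases (uc x ∩ uc y).eq_empty_or_nonempty with h | ⟨s, hs⟩
    · rw [h, empty_union]
      exact l2
    · rcases (uc x ∩ uc y').eq_empty_or_nonempty with h' | ⟨s', hs'⟩
      · rw [h', union_empty]
        exact l1
      · exfalso
        rw [mem_inter] at hs hs'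
        have k1 : κ x = κ s := hκ (mem_uc.1 hs.1) (by omega)
        have k2 : κ x = κ s' := hκ (mem_uc.1 hs'.1) (by omega)
        have k3 := D.lab2 hκ H (mem_uc.2 D.yp) hs.2
        have k4 := D.toCrV.symm.lab2 hκ H (mem_uc.2 D.yp') hs'.2
        exact D.ne (by rw [← k3, ← k1, k2, k4])
  have h2 := card_sdiff_add_card_inter (uc x) (uc y ∪ uc y')
  omega

lemma not_disj_iff {s t : Finset P} : (¬ Disjoint s t) ↔ (s \ t).card < s.card := by
  rw [not_disjoint_iff_nonempty_inter]
  have h2 := card_sdiff_add_card_inter s t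
  constructor
  · intro h
    have := card_pos.2 h
    omega
  · intro h
    rw [← card_pos]
    omega

open Classical in
/-- the contribution of the unit `x` to the environment -/
noncomputable def dl (i : ℕ) (v p p' y y' x : P) : ℤ :=
  (if x ∈ Sv i v then -2 else 0) + (if x ∈ nLs i v then 1 else 0) +
  (if x = y ∨ x = y' then 2 else 0) +
  (if x ∈ dbL P i ∧ Disjoint (uc x) (Sv i v) then -4 else 0) +
  (if x ∈ nUs i v then 1 else 0) +
  (if x ∈ dbU P i ∧ Disjoint (dc x) (Sv i v) then 4 else 0) +
  (if x = p ∨ x = p' then -1 else 0) + (if x ∈ chs i v then 1 else 0)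

/-- the difference of the coefficients at `x` -/
theorem delta (H : Gr P r) (hir : i ≤ r) (hκ : Split (i + 2) κ) (D : ZD i κ v p p' y y')
    (hu : ∀ w w' : P, lev w = i + 1 → lev w' = i + 1 → w ≠ w' → (uc w ∩ uc w').card ≤ 1)
    (x : P) :
    PowerSeries.coeff (lv P i).card (dd ^ 2 * trm i (en {v, p, p', y, y'} x) : A) =
      PowerSeries.coeff (lv P i).card (trm i (en ∅ x) : A) + dl i v p p' y y' x := by
  classical
  have lv' := D.lv
  have lp := D.lp H
  have lp' := D.lp' H
  have ly := D.ly H
  have ly' := D.ly' H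
  have hSv := D.sv H
  have hCn := D.cn H
  have mS : ∀ z, z ∈ Sv i v → lev z = i := fun z hz => (mem_Sv.1 hz).1
  have mL : ∀ z, z ∈ nLs i v ↔ lev z = i + 1 ∧ ¬ Disjoint (uc z) (Sv i v) := by
    intro z
    unfold nLs
    simp
  have mU : ∀ z, z ∈ nUs i v ↔ lev z + 1 = i ∧ ¬ Disjoint (dc z) (Sv i v) := by
    intro z
    unfold nUs
    simp
  have mC : ∀ z, z ∈ chs i v ↔ i + 1 < lev z ∧ z ∉ Cn i v ∧ uc z ⊆ Cn i v := by
    intro z
    unfold chs
    simp
  unfold dl
  rcases Nat.lt_trichotomy (lev x) i with hl | hl | hl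
  · -- above the window
    have n1 : x ∉ Sv i v := fun h => by have := mS x h; omega
    have n2 : x ∉ nLs i v := fun h => by have := ((mL x).1 h).1; omega
    have n3 : ¬ (x = y ∨ x = y') := by rintro (rfl | rfl) <;> omega
    have n4 : ¬ (x ∈ dbL P i ∧ Disjoint (uc x) (Sv i v)) := fun h => by
      have := (mem_dbL.1 h.1).1; omega
    have n5 : ¬ (x = p ∨ x = p') := by rintro (rfl | rfl) <;> omega
    have n6 : x ∉ chs i v := fun h => by have := ((mC x).1 h).1; omega
    rw [if_neg n1, if_neg n2, if_neg n3, if_neg n4, if_neg n5, if_neg n6]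
    rcases Nat.lt_or_ge (lev x + 1) i with h1 | h1
    · have n7 : x ∉ nUs i v := fun h => by have := ((mU x).1 h).1; omega
      have n8 : ¬ (x ∈ dbU P i ∧ Disjoint (dc x) (Sv i v)) := fun h => by
        have := (mem_dbU.1 h.1).1; omega
      rw [if_neg n7, if_neg n8, zv_upp_far H hir hκ D h1, e0_upp_far H hir h1]
      simp
    · have h2 : lev x + 1 = i := by omega
      rw [e0_upp H hir h2]
      have c1 : 1 ≤ (dc x).card := card_pos.2 (dc_nonempty H (by omega))
      have c2 := dc_card_le H x
      by_cases h3 : Disjoint (uc y ∪ uc y') (dc x)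
      · rw [zv_upp_near H hir hκ D h2 h3]
        have h4 : Disjoint (dc x) (Sv i v) := by rw [hSv]; exact h3.symm
        have n7 : x ∉ nUs i v := fun h => ((mU x).1 h).2 h4
        rw [if_neg n7]
        by_cases h5 : (dc x).card = 1
        · have n8 : ¬ (x ∈ dbU P i ∧ Disjoint (dc x) (Sv i v)) := fun h => by
            have := (mem_dbU.1 h.1).2; omega
          rw [if_pos h5, if_neg n8]
          norm_num
        · have n8 : x ∈ dbU P i ∧ Disjoint (dc x) (Sv i v) := ⟨mem_dbU.2 ⟨h2, by omega⟩, h4⟩
          rw [if_neg h5, if_pos n8]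
          norm_num
      · rw [zv_upp_meet H hir hκ D h2 h3]
        have h4 : ¬ Disjoint (dc x) (Sv i v) := by rw [hSv]; exact fun h => h3 h.symm
        have n7 : x ∈ nUs i v := (mU x).2 ⟨h2, h4⟩
        have n8 : ¬ (x ∈ dbU P i ∧ Disjoint (dc x) (Sv i v)) := fun h => h4 h.2
        rw [if_pos n7, if_neg n8]
        simp
  · -- sites
    have n2 : x ∉ nLs i v := fun h => by have := ((mL x).1 h).1; omega
    have n3 : ¬ (x = y ∨ x = y') := by rintro (rfl | rfl) <;> omega
    have n4 : ¬ (x ∈ dbL P i ∧ Disjoint (uc x) (Sv i v)) := fun h => by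
      have := (mem_dbL.1 h.1).1; omega
    have n5 : ¬ (x = p ∨ x = p') := by rintro (rfl | rfl) <;> omega
    have n6 : x ∉ chs i v := fun h => by have := ((mC x).1 h).1; omega
    have n7 : x ∉ nUs i v := fun h => by have := ((mU x).1 h).1; omega
    have n8 : ¬ (x ∈ dbU P i ∧ Disjoint (dc x) (Sv i v)) := fun h => by
      have := (mem_dbU.1 h.1).1; omega
    rw [if_neg n2, if_neg n3, if_neg n4, if_neg n5, if_neg n6, if_neg n7, if_neg n8,
      e0_site H hir hl]
    by_cases h1 : x ∈ uc y ∪ uc y'
    · rw [zv_site_in H hir hκ D hl h1, if_pos (by rw [hSv]; exact h1)]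
      norm_num
    · rw [zv_site_out H hir hκ D hl h1, if_neg (by rw [hSv]; exact h1)]
      norm_num
  · -- below the window
    have n1 : x ∉ Sv i v := fun h => by have := mS x h; omega
    have n7 : x ∉ nUs i v := fun h => by have := ((mU x).1 h).1; omega
    have n8 : ¬ (x ∈ dbU P i ∧ Disjoint (dc x) (Sv i v)) := fun h => by
      have := (mem_dbU.1 h.1).1; omega
    rw [if_neg n1, if_neg n7, if_neg n8]
    rcases Nat.lt_or_ge (i + 1) (lev x) with h1 | h1
    · -- far
      have n2 : x ∉ nLs i v := fun h => by have := ((mL x).1 h).1; omega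
      have n3 : ¬ (x = y ∨ x = y') := by rintro (rfl | rfl) <;> omega
      have n4 : ¬ (x ∈ dbL P i ∧ Disjoint (uc x) (Sv i v)) := fun h => by
        have := (mem_dbL.1 h.1).1; omega
      rw [if_neg n2, if_neg n3, if_neg n4, e0_low_far H h1]
      by_cases h2 : x ∈ ({v, p, p', y, y'} : Finset P)
      · have n6 : x ∉ chs i v := fun h => ((mC x).1 h).2.1 (by rw [hCn]; exact h2)
        rw [if_neg n6]
        simp only [mem_insert, mem_singleton] at h2
        rcases h2 with rfl | rfl | rfl | rfl | rfl
        · have n5 : ¬ (x = p ∨ x = p') := by rintro (rfl | rfl) <;> omega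
          rw [if_neg n5, zv_top H hir hκ D]
          simp
        · rw [if_pos (Or.inl rfl), zv_mid H hir hκ D (Or.inl rfl)]
          simp
        · rw [if_pos (Or.inr rfl), zv_mid H hir hκ D (Or.inr rfl)]
          simp
        · omega
        · omega
      · have n5 : ¬ (x = p ∨ x = p') := by
          rintro (rfl | rfl)
          · exact h2 (by simp)
          · exact h2 (by simp)
        rw [if_neg n5]
        by_cases h3 : uc x ⊆ ({v, p, p', y, y'} : Finset P)
        · have n6 : x ∈ chs i v := (mC x).2 ⟨h1, by rw [hCn]; exact h2, by rw [hCn]; exact h3⟩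
          rw [if_pos n6, zv_child H hir hκ D h1 h2 h3]
          simp
        · have n6 : x ∉ chs i v := fun h => h3 (by rw [← hCn]; exact ((mC x).1 h).2.2)
          rw [if_neg n6, zv_child_bad H hir hκ D h1 h2 h3]
          simp
    · -- near
      have h2 : lev x = i + 1 := by omega
      have n5 : ¬ (x = p ∨ x = p') := by rintro (rfl | rfl) <;> omega
      have n6 : x ∉ chs i v := fun h => by have := ((mC x).1 h).1; omega
      rw [if_neg n5, if_neg n6, e0_low H hir h2]
      by_cases h3 : x = y ∨ x = y'
      · rw [if_pos h3, zv_near_in H hir hκ D h3]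
        have hc2 : (uc x).card = 2 := by
          rcases h3 with rfl | rfl
          · exact D.c
          · exact D.c'
        have hnd : ¬ Disjoint (uc x) (Sv i v) := by
          rw [not_disjoint_iff_nonempty_inter, hSv]
          have hne : (uc x).Nonempty := card_pos.1 (by omega)
          obtain ⟨s, hs⟩ := hne
          refine ⟨s, mem_inter.2 ⟨hs, ?_⟩⟩
          rcases h3 with rfl | rfl
          · exact mem_union_left _ hs
          · exact mem_union_right _ hs
        have n2 : x ∈ nLs i v := (mL x).2 ⟨h2, hnd⟩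
        have n4 : ¬ (x ∈ dbL P i ∧ Disjoint (uc x) (Sv i v)) := fun h => hnd h.2
        rw [if_pos n2, if_neg n4, hc2]
        norm_num
      · rw [if_neg h3]
        push Not at h3
        rw [zv_near_out H hir hκ D h2 h3]
        have h4 := D.share H hκ hu h2 h3
        have h5 : (uc x \ (uc y ∪ uc y')).card ≤ (uc x).card := card_le_card sdiff_subset
        have h6 := uc_card_cases H (x := x) (by omega)
        have hdj : (¬ Disjoint (uc x) (Sv i v)) ↔
            (uc x \ (uc y ∪ uc y')).card < (uc x).card := by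
          rw [hSv]
          exact not_disj_iff
        generalize (uc x \ (uc y ∪ uc y')).card = m at h4 h5 hdj ⊢
        by_cases h7 : Disjoint (uc x) (Sv i v)
        · have n2 : x ∉ nLs i v := fun h => ((mL x).1 h).2 h7
          rw [if_neg n2]
          have h8 : ¬ (m < (uc x).card) := fun h => (hdj.2 h) h7
          rcases h6 with h6 | h6
          · have n4 : ¬ (x ∈ dbL P i ∧ Disjoint (uc x) (Sv i v)) := fun h => by
              have := (mem_dbL.1 h.1).2; omega
            rw [if_neg n4, h6, if_neg (by omega), if_pos (by omega)]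
            norm_num
          · have n4 : x ∈ dbL P i ∧ Disjoint (uc x) (Sv i v) := ⟨mem_dbL.2 ⟨h2, h6⟩, h7⟩
            rw [if_pos n4, h6, if_neg (by omega), if_neg (by omega)]
            norm_num
        · have n2 : x ∈ nLs i v := (mL x).2 ⟨h2, h7⟩
          have n4 : ¬ (x ∈ dbL P i ∧ Disjoint (uc x) (Sv i v)) := fun h => h7 h.2
          have h8 := hdj.1 h7
          rw [if_pos n2, if_neg n4]
          rcases h6 with h6 | h6
          · rw [h6, if_pos (by omega)]
            norm_num
          · rw [h6, if_neg (by omega), if_pos (by omega)]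
            norm_num

/-- the sum of the differences -/
theorem sum_dl (H : Gr P r) (hκ : Split (i + 2) κ) (D : ZD i κ v p p' y y')
    {psi : P → P} (hM : Mat P i ∅ psi) : ∑ x, dl i v p p' y y' x = env i v := by
  classical
  have lp := D.lp H
  have hpp : p ≠ p' := fun h => D.ne (by rw [h])
  have hyy := D.nyy H hκ
  have hS4 : (Sv i v).card = 4 := by rw [D.sv H, D.four H hκ]
  unfold dl env
  simp only [sum_add_distrib]
  have s1 : ∑ x : P, (if x ∈ Sv i v then (-2 : ℤ) else 0) = -8 := by
    rw [sum_ite_mem, univ_inter, sum_const, hS4]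
    norm_num
  have s2 : ∑ x : P, (if x ∈ nLs i v then (1 : ℤ) else 0) = (nLs i v).card := by
    rw [sum_ite_mem, univ_inter, sum_const]
    simp
  have s3 : ∑ x : P, (if x = y ∨ x = y' then (2 : ℤ) else 0) = 4 := by
    have h : ∀ x : P, (x = y ∨ x = y') ↔ x ∈ ({y, y'} : Finset P) := by
      intro x
      rw [mem_insert, mem_singleton]
    simp only [h]
    rw [sum_ite_mem, univ_inter, sum_const, card_pair hyy]
    norm_num
  have s5 : ∑ x : P, (if x ∈ nUs i v then (1 : ℤ) else 0) = (nUs i v).card := by
    rw [sum_ite_mem, univ_inter, sum_const]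
    simp
  have s7 : ∑ x : P, (if x = p ∨ x = p' then (-1 : ℤ) else 0) = -2 := by
    have h : ∀ x : P, (x = p ∨ x = p') ↔ x ∈ ({p, p'} : Finset P) := by
      intro x
      rw [mem_insert, mem_singleton]
    simp only [h]
    rw [sum_ite_mem, univ_inter, sum_const, card_pair hpp]
    norm_num
  have s8 : ∑ x : P, (if x ∈ chs i v then (1 : ℤ) else 0) = (chs i v).card := by
    rw [sum_ite_mem, univ_inter, sum_const]
    simp
  have s46 : ∑ x : P, (if x ∈ dbL P i ∧ Disjoint (uc x) (Sv i v) then (-4 : ℤ) else 0) +
      ∑ x : P, (if x ∈ dbU P i ∧ Disjoint (dc x) (Sv i v) then (4 : ℤ) else 0) = 0 := by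
    rw [← sum_filter, ← sum_filter, sum_const, sum_const]
    have h1 : (univ.filter (fun x : P => x ∈ dbL P i ∧ Disjoint (uc x) (Sv i v))).card =
        (univ.filter (fun x : P => x ∈ dbU P i ∧ Disjoint (dc x) (Sv i v))).card := by
      refine card_bij (fun x _ => psi x) ?_ ?_ ?_
      · intro x hx
        rw [mem_filter] at hx ⊢
        obtain ⟨h1, h2⟩ := hM.low x hx.2.1 (notMem_empty x)
        exact ⟨mem_univ _, h1, by rw [h2]; exact hx.2.2⟩
      · intro x hx x' hx' h
        rw [mem_filter] at hx hx'
        have h1 := (hM.invol x (mem_union_left _ hx.2.1) (notMem_empty x)).1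
        have h2 := (hM.invol x' (mem_union_left _ hx'.2.1) (notMem_empty x')).1
        rw [← h1, ← h2, h]
      · intro x hx
        rw [mem_filter] at hx
        obtain ⟨h1, h2⟩ := hM.upp x hx.2.1 (notMem_empty x)
        refine ⟨psi x, ?_, (hM.invol x (mem_union_right _ hx.2.1) (notMem_empty x)).1⟩
        rw [mem_filter]
        exact ⟨mem_univ _, h1, by rw [h2]; exact hx.2.2⟩
    rw [h1]
    simp only [nsmul_eq_mul]
    ring
  rw [s1, s2, s3, s5, s7, s8]
  linarith [s46]

/-- THE ENVIRONMENT of a join of two pendants -/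
theorem env_sum (H : Gr P r) (hir : i ≤ r) (hκ : Split (i + 2) κ) (D : ZD i κ v p p' y y')
    {psi : P → P} (hM : Mat P i ∅ psi)
    (hu : ∀ w w' : P, lev w = i + 1 → lev w' = i + 1 → w ≠ w' → (uc w ∩ uc w').card ≤ 1) :
    ∑ x : P, PowerSeries.coeff (lv P i).card (dd ^ 2 * trm i (en {v, p, p', y, y'} x) : A) =
      ∑ x : P, PowerSeries.coeff (lv P i).card (trm i (en ∅ x) : A) + env i v := by
  rw [sum_congr rfl fun x _ => delta H hir hκ D hu x, sum_add_distrib, sum_dl H hκ D hM]

end Pool.Agent.GaussPoset.Win.So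

end

/-! From `Pool.Agent.W_448w4_h10.KD` -/

section

/-!
MP_448cb3_co, G2, case B, window `j`: values of the cores of energy four of a natural part.  helper10.
-/

namespace Pool.Agent.GaussPoset.Win.W4

set_option linter.unusedSectionVars false

open Finset
open Pool.Agent.GaussPoset.Win.SO (Sde Pen TD On kS tL tU LowD UppD val_of)
open Pool.Agent.GaussPoset.Win.I2 (lS uS mem_lS mem_uS)

universe u

variable {P : Type u} [Fintype P] [PartialOrder P] [DecidableEq P] {r i : ℕ}
variable {e f : P → ℕ} {psi : P → P} {C K : Finset P}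

/-- labels `z = 2`, `x = x' = 1` below the window -/
lemma lowA (H : Gr P r) {z x x' : P} (hz : lev z = i + 2) (hc : uc z = {x, x'})
    (he : ∀ y, e y = if y = z then 2 else if y = x ∨ y = x' then 1 else 0) :
    LowD i e {x, x'} {z} (uc x ∪ uc x') := by
  have lx : lev x = i + 1 := by
    have := lev_uc H (x := z) (v := x) (by rw [hc]; simp)
    omega
  have lx' : lev x' = i + 1 := by
    have := lev_uc H (x := z) (v := x') (by rw [hc]; simp)
    omega
  have hzx : z ⋖ x := by rw [← mem_uc, hc]; simp
  have hzx' : z ⋖ x' := by rw [← mem_uc, hc]; simp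
  have ez : e z = 2 := by rw [he z, if_pos rfl]
  have ex : e x = 1 := by
    rw [he x, if_neg (by rintro rfl; omega), if_pos (Or.inl rfl)]
  have ex' : e x' = 1 := by
    rw [he x', if_neg (by rintro rfl; omega), if_pos (Or.inr rfl)]
  have h0 : ∀ y, y ≠ z → y ≠ x → y ≠ x' → e y = 0 := by
    intro y h1 h2 h3
    rw [he y, if_neg h1, if_neg]
    rintro (h | h)
    · exact h2 h
    · exact h3 h
  have hsite : ∀ v, lev v = i → e v = 0 := by
    intro v hv
    refine h0 v ?_ ?_ ?_ <;> rintro rfl <;> omega
  refine ⟨?_, ?_, ?_, ?_, ?_, ?_⟩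
  · intro v hv
    rw [mem_insert, mem_singleton]
    constructor
    · rintro ⟨y, hy, hlt⟩
      have hl := lev_cov H hy
      by_cases h1 : y = z
      · subst h1
        rw [← mem_uc, hc, mem_insert, mem_singleton] at hy
        exact hy
      by_cases h2 : y = x
      · subst h2; omega
      by_cases h3 : y = x'
      · subst h3; omega
      · rw [h0 y h1 h2 h3] at hlt
        omega
    · rintro (rfl | rfl)
      · exact ⟨z, hzx, by omega⟩
      · exact ⟨z, hzx', by omega⟩
  · intro v hv
    rw [mem_union]
    constructor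
    · rintro ⟨y, hy, hlt⟩
      have hl := lev_cov H hy
      by_cases h1 : y = z
      · subst h1; omega
      by_cases h2 : y = x
      · subst h2; exact Or.inl (mem_uc.2 hy)
      by_cases h3 : y = x'
      · subst h3; exact Or.inr (mem_uc.2 hy)
      · rw [h0 y h1 h2 h3] at hlt
        omega
    · rintro (h | h)
      · exact ⟨x, mem_uc.1 h, by rw [hsite v hv]; omega⟩
      · exact ⟨x', mem_uc.1 h, by rw [hsite v hv]; omega⟩
  · intro v hv
    rw [mem_insert, mem_singleton, mem_singleton]
    constructor
    · rintro ⟨y, hy, hle⟩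
      have hl := lev_cov H hy
      refine ⟨?_, ?_⟩
      · rintro (rfl | rfl)
        · rw [hsite y (by omega)] at hle; omega
        · rw [hsite y (by omega)] at hle; omega
      · rintro rfl
        rw [← mem_uc, hc, mem_insert, mem_singleton] at hy
        rcases hy with rfl | rfl <;> omega
    · rintro ⟨h1, h2⟩
      push Not at h1
      obtain ⟨y, hy⟩ := uc_nonempty H (x := v) (by omega)
      refine ⟨y, mem_uc.1 hy, ?_⟩
      rw [h0 v h2 h1.1 h1.2]
      exact Nat.zero_le _
  · intro v hv
    rw [mem_insert, mem_singleton] at hv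
    rcases hv with rfl | rfl <;> omega
  · intro v hv
    rw [mem_singleton] at hv
    subst hv
    refine ⟨by omega, ?_⟩
    rw [mem_insert, mem_singleton]
    rintro (rfl | rfl) <;> omega
  · intro v hv
    rcases mem_union.1 hv with h | h
    · have := lev_uc H h
      omega
    · have := lev_uc H h
      omega

/-- labels `z = 2`, `x = x' = 1` above the window -/
lemma uppA (H : Gr P r) (hir : i ≤ r) {z x x' : P} (hz : lev z + 2 = i) (hc : dc z = {x, x'})
    (he : ∀ y, e y = if y = z then 2 else if y = x ∨ y = x' then 1 else 0) :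
    UppD i e {x, x'} {z} (dc x ∪ dc x') := by
  have lx : lev x + 1 = i := by
    have := lev_dc H (x := z) (v := x) (by rw [hc]; simp)
    omega
  have lx' : lev x' + 1 = i := by
    have := lev_dc H (x := z) (v := x') (by rw [hc]; simp)
    omega
  have hzx : x ⋖ z := by rw [← mem_dc, hc]; simp
  have hzx' : x' ⋖ z := by rw [← mem_dc, hc]; simp
  have ez : e z = 2 := by rw [he z, if_pos rfl]
  have ex : e x = 1 := by
    rw [he x, if_neg (by rintro rfl; omega), if_pos (Or.inl rfl)]
  have ex' : e x' = 1 := by
    rw [he x', if_neg (by rintro rfl; omega), if_pos (Or.inr rfl)]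
  have h0 : ∀ y, y ≠ z → y ≠ x → y ≠ x' → e y = 0 := by
    intro y h1 h2 h3
    rw [he y, if_neg h1, if_neg]
    rintro (h | h)
    · exact h2 h
    · exact h3 h
  have hsite : ∀ v, lev v = i → e v = 0 := by
    intro v hv
    refine h0 v ?_ ?_ ?_ <;> rintro rfl <;> omega
  refine ⟨?_, ?_, ?_, ?_, ?_, ?_⟩
  · intro v hv
    rw [mem_insert, mem_singleton]
    constructor
    · rintro ⟨y, hy, hlt⟩
      have hl := lev_cov H hy
      by_cases h1 : y = z
      · subst h1
        rw [← mem_dc, hc, mem_insert, mem_singleton] at hy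
        exact hy
      by_cases h2 : y = x
      · subst h2; omega
      by_cases h3 : y = x'
      · subst h3; omega
      · rw [h0 y h1 h2 h3] at hlt
        omega
    · rintro (rfl | rfl)
      · exact ⟨z, hzx, by omega⟩
      · exact ⟨z, hzx', by omega⟩
  · intro v hv
    rw [mem_union]
    constructor
    · rintro ⟨y, hy, hlt⟩
      have hl := lev_cov H hy
      by_cases h1 : y = z
      · subst h1; omega
      by_cases h2 : y = x
      · subst h2; exact Or.inl (mem_dc.2 hy)
      by_cases h3 : y = x'
      · subst h3; exact Or.inr (mem_dc.2 hy)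
      · rw [h0 y h1 h2 h3] at hlt
        omega
    · rintro (h | h)
      · exact ⟨x, mem_dc.1 h, by rw [hsite v hv]; omega⟩
      · exact ⟨x', mem_dc.1 h, by rw [hsite v hv]; omega⟩
  · intro v hv
    rw [mem_insert, mem_singleton, mem_singleton]
    constructor
    · rintro ⟨y, hy, hle⟩
      have hl := lev_cov H hy
      refine ⟨?_, ?_⟩
      · rintro (rfl | rfl)
        · rw [hsite y (by omega)] at hle; omega
        · rw [hsite y (by omega)] at hle; omega
      · rintro rfl
        rw [← mem_dc, hc, mem_insert, mem_singleton] at hy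
        rcases hy with rfl | rfl <;> omega
    · rintro ⟨h1, h2⟩
      push Not at h1
      obtain ⟨y, hy⟩ := dc_nonempty H (x := v) (by omega)
      refine ⟨y, mem_dc.1 hy, ?_⟩
      rw [h0 v h2 h1.1 h1.2]
      exact Nat.zero_le _
  · intro v hv
    rw [mem_insert, mem_singleton] at hv
    rcases hv with rfl | rfl <;> omega
  · intro v hv
    rw [mem_singleton] at hv
    subst hv
    refine ⟨by omega, ?_⟩
    rw [mem_insert, mem_singleton]
    rintro (rfl | rfl) <;> omega
  · intro v hv
    rcases mem_union.1 hv with h | h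
    · have := lev_dc H h
      omega
    · have := lev_dc H h
      omega

/-- labels one on `z`, `x`, `x'` and the common site `s`, below the window -/
lemma lowB (H : Gr P r) {z x x' s : P} (T : TD uc (tL (P := P) i) (lS P i) z x x' s)
    (he : On e {z, x, x', s}) :
    LowD i e ∅ ∅ ((uc x ∪ uc x').erase s) := by
  have hz := T.lw
  obtain ⟨lx, lx'⟩ := T.lx H
  have ls := T.site H (mem_union_left _ T.sx)
  have hc := T.cw
  have hzx : z ⋖ x := by rw [← mem_uc, hc]; simp
  have hzx' : z ⋖ x' := by rw [← mem_uc, hc]; simp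
  have hxs : x ⋖ s := mem_uc.1 T.sx
  have hxs' : x' ⋖ s := mem_uc.1 T.sx'
  have ez : e z = 1 := by rw [he z, if_pos (by simp)]
  have ex : e x = 1 := by rw [he x, if_pos (by simp)]
  have ex' : e x' = 1 := by rw [he x', if_pos (by simp)]
  have es : e s = 1 := by rw [he s, if_pos (by simp)]
  have h0 : ∀ y, y ≠ z → y ≠ x → y ≠ x' → y ≠ s → e y = 0 := by
    intro y h1 h2 h3 h4
    rw [he y, if_neg]
    rw [mem_insert, mem_insert, mem_insert, mem_singleton]
    rintro (h | h | h | h)
    · exact h1 h
    · exact h2 h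
    · exact h3 h
    · exact h4 h
  have hle : ∀ y, e y ≤ 1 := by
    intro y
    rw [he y]
    split_ifs <;> omega
  have hsite : ∀ v, lev v = i → v ≠ s → e v = 0 := by
    intro v hv hvs
    refine h0 v ?_ ?_ ?_ hvs <;> rintro rfl <;> omega
  refine ⟨?_, ?_, ?_, ?_, ?_, ?_⟩
  · intro v hv
    constructor
    · rintro ⟨y, hy, hlt⟩
      exfalso
      have hl := lev_cov H hy
      have hy1 := hle y
      have hv0 : e v = 0 := by omega
      have hy2 : e y = 1 := by omega
      by_cases h1 : y = z
      · subst h1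
        rw [← mem_uc, hc, mem_insert, mem_singleton] at hy
        rcases hy with rfl | rfl <;> omega
      by_cases h2 : y = x
      · subst h2; omega
      by_cases h3 : y = x'
      · subst h3; omega
      by_cases h4 : y = s
      · subst h4; omega
      · rw [h0 y h1 h2 h3 h4] at hy2
        omega
    · intro h
      exact absurd h (notMem_empty _)
  · intro v hv
    rw [mem_erase, mem_union]
    constructor
    · rintro ⟨y, hy, hlt⟩
      have hl := lev_cov H hy
      have hy1 := hle y
      have hv0 : e v = 0 := by omega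
      have hy2 : e y = 1 := by omega
      refine ⟨by rintro rfl; omega, ?_⟩
      by_cases h1 : y = z
      · subst h1; omega
      by_cases h2 : y = x
      · subst h2; exact Or.inl (mem_uc.2 hy)
      by_cases h3 : y = x'
      · subst h3; exact Or.inr (mem_uc.2 hy)
      by_cases h4 : y = s
      · subst h4; omega
      · rw [h0 y h1 h2 h3 h4] at hy2
        omega
    · rintro ⟨hvs, h | h⟩
      · exact ⟨x, mem_uc.1 h, by rw [hsite v hv hvs]; omega⟩
      · exact ⟨x', mem_uc.1 h, by rw [hsite v hv hvs]; omega⟩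
  · intro v hv
    constructor
    · intro _
      exact ⟨notMem_empty _, notMem_empty _⟩
    · intro _
      by_cases h1 : v = z
      · subst h1; exact ⟨x, hzx, by omega⟩
      by_cases h2 : v = x
      · subst h2; exact ⟨s, hxs, by omega⟩
      by_cases h3 : v = x'
      · subst h3; exact ⟨s, hxs', by omega⟩
      · obtain ⟨y, hy⟩ := uc_nonempty H (x := v) (by omega)
        refine ⟨y, mem_uc.1 hy, ?_⟩
        rw [h0 v h1 h2 h3 (by rintro rfl; omega)]
        exact Nat.zero_le _
  · intro v hv
    exact absurd hv (notMem_empty _)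
  · intro v hv
    exact absurd hv (notMem_empty _)
  · intro v hv
    exact T.site H (mem_of_mem_erase hv)

/-- labels one on `z`, `x`, `x'` and the common site `s`, above the window -/
lemma uppB (H : Gr P r) (hir : i ≤ r) {z x x' s : P}
    (T : TD dc (tU (P := P) i) (uS P i) z x x' s) (he : On e {z, x, x', s}) :
    UppD i e ∅ ∅ ((dc x ∪ dc x').erase s) := by
  have hz := T.lw'
  obtain ⟨lx, lx'⟩ := T.lx' H
  have ls := T.site' H (mem_union_left _ T.sx)
  have hc := T.cw
  have hzx : x ⋖ z := by rw [← mem_dc, hc]; simp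
  have hzx' : x' ⋖ z := by rw [← mem_dc, hc]; simp
  have hxs : s ⋖ x := mem_dc.1 T.sx
  have hxs' : s ⋖ x' := mem_dc.1 T.sx'
  have ez : e z = 1 := by rw [he z, if_pos (by simp)]
  have ex : e x = 1 := by rw [he x, if_pos (by simp)]
  have ex' : e x' = 1 := by rw [he x', if_pos (by simp)]
  have es : e s = 1 := by rw [he s, if_pos (by simp)]
  have h0 : ∀ y, y ≠ z → y ≠ x → y ≠ x' → y ≠ s → e y = 0 := by
    intro y h1 h2 h3 h4
    rw [he y, if_neg]
    rw [mem_insert, mem_insert, mem_insert, mem_singleton]
    rintro (h | h | h | h)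
    · exact h1 h
    · exact h2 h
    · exact h3 h
    · exact h4 h
  have hle : ∀ y, e y ≤ 1 := by
    intro y
    rw [he y]
    split_ifs <;> omega
  have hsite : ∀ v, lev v = i → v ≠ s → e v = 0 := by
    intro v hv hvs
    refine h0 v ?_ ?_ ?_ hvs <;> rintro rfl <;> omega
  refine ⟨?_, ?_, ?_, ?_, ?_, ?_⟩
  · intro v hv
    constructor
    · rintro ⟨y, hy, hlt⟩
      exfalso
      have hl := lev_cov H hy
      have hy1 := hle y
      have hv0 : e v = 0 := by omega
      have hy2 : e y = 1 := by omega
      by_cases h1 : y = z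
      · subst h1
        rw [← mem_dc, hc, mem_insert, mem_singleton] at hy
        rcases hy with rfl | rfl <;> omega
      by_cases h2 : y = x
      · subst h2; omega
      by_cases h3 : y = x'
      · subst h3; omega
      by_cases h4 : y = s
      · subst h4; omega
      · rw [h0 y h1 h2 h3 h4] at hy2
        omega
    · intro h
      exact absurd h (notMem_empty _)
  · intro v hv
    rw [mem_erase, mem_union]
    constructor
    · rintro ⟨y, hy, hlt⟩
      have hl := lev_cov H hy
      have hy1 := hle y
      have hv0 : e v = 0 := by omega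
      have hy2 : e y = 1 := by omega
      refine ⟨by rintro rfl; omega, ?_⟩
      by_cases h1 : y = z
      · subst h1; omega
      by_cases h2 : y = x
      · subst h2; exact Or.inl (mem_dc.2 hy)
      by_cases h3 : y = x'
      · subst h3; exact Or.inr (mem_dc.2 hy)
      by_cases h4 : y = s
      · subst h4; omega
      · rw [h0 y h1 h2 h3 h4] at hy2
        omega
    · rintro ⟨hvs, h | h⟩
      · exact ⟨x, mem_dc.1 h, by rw [hsite v hv hvs]; omega⟩
      · exact ⟨x', mem_dc.1 h, by rw [hsite v hv hvs]; omega⟩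
  · intro v hv
    constructor
    · intro _
      exact ⟨notMem_empty _, notMem_empty _⟩
    · intro _
      by_cases h1 : v = z
      · subst h1; exact ⟨x, hzx, by omega⟩
      by_cases h2 : v = x
      · subst h2; exact ⟨s, hxs, by omega⟩
      by_cases h3 : v = x'
      · subst h3; exact ⟨s, hxs', by omega⟩
      · obtain ⟨y, hy⟩ := dc_nonempty H (x := v) (by omega)
        refine ⟨y, mem_dc.1 hy, ?_⟩
        rw [h0 v h1 h2 h3 (by rintro rfl; omega)]
        exact Nat.zero_le _
  · intro v hv
    exact absurd hv (notMem_empty _)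
  · intro v hv
    exact absurd hv (notMem_empty _)
  · intro v hv
    exact T.site' H (mem_of_mem_erase hv)

/-- value of `A4` below the window -/
theorem A4_val (H : Gr P r) (hir : i ≤ r) (hC : Part (i + 1) C) (hs : Spt C e)
    (h : A4 uc (tL (P := P) i) (lS P i) e) :
    AdmL i e ∧ AdmU i e ∧ Disjoint (AL i e) (AU i e) ∧
      PowerSeries.coeff (st i C).card (dd ^ 2 * tC i C e : A) = -1 := by
  obtain ⟨z, x, x', h1, h2, h3, h4, h5, h6⟩ := h
  have hz : lev z = i + 2 := by
    rw [mem_lS] at h1
    unfold tL at h2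
    omega
  have lx : lev x = i + 1 := by
    have := lev_uc H (x := z) (v := x) (by rw [h3]; simp)
    omega
  have lx' : lev x' = i + 1 := by
    have := lev_uc H (x := z) (v := x') (by rw [h3]; simp)
    omega
  have D := lowA H hz h3 h6
  have D' : UppD i e (∅ : Finset P) ∅ ∅ := SO.upp_none H hir fun y hy => by
    rw [h6 y, if_neg (by rintro rfl; omega), if_neg]
    rintro (rfl | rfl) <;> omega
  obtain ⟨g1, g2, g3, -, g5⟩ := val_of H hC hs D D' (disjoint_empty_right _) (by
    rw [h5, card_empty, card_singleton])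
  refine ⟨g1, g2, g3, ?_⟩
  rw [g5, card_pair h4, h5, card_empty]
  norm_num

/-- value of `A4` above the window -/
theorem A4_val' (H : Gr P r) (hir : i ≤ r) (hC : Part (i + 1) C) (hs : Spt C e)
    (h : A4 dc (tU (P := P) i) (uS P i) e) :
    AdmL i e ∧ AdmU i e ∧ Disjoint (AL i e) (AU i e) ∧
      PowerSeries.coeff (st i C).card (dd ^ 2 * tC i C e : A) = -1 := by
  obtain ⟨z, x, x', h1, h2, h3, h4, h5, h6⟩ := h
  have hz : lev z + 2 = i := by
    rw [mem_uS] at h1
    unfold tU at h2
    omega
  have lx : lev x + 1 = i := by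
    have := lev_dc H (x := z) (v := x) (by rw [h3]; simp)
    omega
  have lx' : lev x' + 1 = i := by
    have := lev_dc H (x := z) (v := x') (by rw [h3]; simp)
    omega
  have D' := uppA H hir hz h3 h6
  have D : LowD i e (∅ : Finset P) ∅ ∅ := SO.low_none H fun y hy => by
    rw [h6 y, if_neg (by rintro rfl; omega), if_neg]
    rintro (rfl | rfl) <;> omega
  obtain ⟨g1, g2, g3, -, g5⟩ := val_of H hC hs D D' (disjoint_empty_left _) (by
    rw [h5, card_empty, card_singleton])
  refine ⟨g1, g2, g3, ?_⟩
  rw [g5, card_pair h4, card_singleton, card_empty]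
  norm_num

/-- value of `B4` below the window -/
theorem B4_val (H : Gr P r) (hir : i ≤ r) (hC : Part (i + 1) C) (hs : Spt C e)
    (h : B4 uc (tL (P := P) i) (lS P i) e) :
    AdmL i e ∧ AdmU i e ∧ Disjoint (AL i e) (AU i e) ∧
      PowerSeries.coeff (st i C).card (dd ^ 2 * tC i C e : A) = 1 := by
  obtain ⟨z, x, x', s, T, h6⟩ := h
  have hz := T.lw
  obtain ⟨lx, lx'⟩ := T.lx H
  have ls := T.site H (mem_union_left _ T.sx)
  have D := lowB H T h6
  have D' : UppD i e (∅ : Finset P) ∅ ∅ := SO.upp_none H hir fun y hy => by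
    rw [h6 y, if_neg]
    rw [mem_insert, mem_insert, mem_insert, mem_singleton]
    rintro (rfl | rfl | rfl | rfl) <;> omega
  have h5 := T.three
  have h7 : ((uc x ∪ uc x').erase s).card = 2 := by
    rw [card_erase_of_mem (mem_union_left _ T.sx), h5]
  obtain ⟨g1, g2, g3, -, g5⟩ := val_of H hC hs D D' (disjoint_empty_right _) (by
    rw [h7, card_empty])
  refine ⟨g1, g2, g3, ?_⟩
  rw [g5, h7, card_empty]
  norm_num

/-- value of `B4` above the window -/
theorem B4_val' (H : Gr P r) (hir : i ≤ r) (hC : Part (i + 1) C) (hs : Spt C e)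
    (h : B4 dc (tU (P := P) i) (uS P i) e) :
    AdmL i e ∧ AdmU i e ∧ Disjoint (AL i e) (AU i e) ∧
      PowerSeries.coeff (st i C).card (dd ^ 2 * tC i C e : A) = 1 := by
  obtain ⟨z, x, x', s, T, h6⟩ := h
  have hz := T.lw'
  obtain ⟨lx, lx'⟩ := T.lx' H
  have ls := T.site' H (mem_union_left _ T.sx)
  have D' := uppB H hir T h6
  have D : LowD i e (∅ : Finset P) ∅ ∅ := SO.low_none H fun y hy => by
    rw [h6 y, if_neg]
    rw [mem_insert, mem_insert, mem_insert, mem_singleton]
    rintro (rfl | rfl | rfl | rfl) <;> omega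
  have h5 := T.three
  have h7 : ((dc x ∪ dc x').erase s).card = 2 := by
    rw [card_erase_of_mem (mem_union_left _ T.sx), h5]
  obtain ⟨g1, g2, g3, -, g5⟩ := val_of H hC hs D D' (disjoint_empty_left _) (by
    rw [h7, card_empty])
  refine ⟨g1, g2, g3, ?_⟩
  rw [g5, card_empty]
  norm_num

end Pool.Agent.GaussPoset.Win.W4

end
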