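import Mathlib
import Pool.Agent.W_448zz_h61.Ns
import Pool.Agent.W_448zz_h61.M009
import Pool.Agent.W_448zz_h61.M010
import Pool.Agent.W_448zz_h61.M014
import Pool.Agent.W_448zz_h61.M021

/-! From `Pool.Agent.W_448al_h63.LA` -/

section

/-! The window calculus on a part: weighted sums over the subsets of the sites of the part, and the
core theorem for a part with some far elements deleted. -/

namespace Pool.Agent.GaussPoset.Win

set_option linter.unusedSectionVars false

open Finset

universe u

variable {P : Type u} [Fintype P] [PartialOrder P] [DecidableEq P] {r i : ℕ}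

/-- weighted sum over the subsets of `V` -/
noncomputable def IV (V : Finset P) (f : Finset P → A) : A := ∑ S ∈ V.powerset, xx ^ S.card * f S

lemma IV_congr {V : Finset P} {f g : Finset P → A} (h : ∀ S, S ⊆ V → f S = g S) :
    IV V f = IV V g := by
  unfold IV
  refine Finset.sum_congr rfl fun S hS => ?_
  rw [h S (mem_powerset.1 hS)]

lemma IV_mul (V : Finset P) (a : A) (f : Finset P → A) :
    IV V (fun S => a * f S) = a * IV V f := by
  unfold IV
  rw [Finset.mul_sum]
  exact Finset.sum_congr rfl fun S _ => by ring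

lemma IV_sum {ι : Type*} (V : Finset P) (s : Finset ι) (f : ι → Finset P → A) :
    IV V (fun S => ∑ a ∈ s, f a S) = ∑ a ∈ s, IV V (f a) := by
  unfold IV
  simp only [Finset.mul_sum]
  exact Finset.sum_comm

lemma IV_add (V : Finset P) (f g : Finset P → A) :
    IV V (fun S => f S + g S) = IV V f + IV V g := by
  unfold IV
  rw [← Finset.sum_add_distrib]
  exact Finset.sum_congr rfl fun S _ => by ring

/-- weighted sum of `chi B C` over the subsets of `V` -/
theorem IV_chi {V B C : Finset P} (hB : B ⊆ V) (hC : C ⊆ V) :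
    IV V (chi B C) = if Disjoint B C then xx ^ B.card * dd ^ (V.card - B.card - C.card)
      else 0 := by
  unfold IV chi
  split_ifs with hd
  · have h1 : ∑ S ∈ V.powerset, xx ^ S.card * (if B ⊆ S ∧ Disjoint C S then (1 : A) else 0) =
        ∑ S ∈ V.powerset.filter (fun S => B ⊆ S ∧ Disjoint C S), xx ^ S.card := by
      rw [Finset.sum_filter]
      refine Finset.sum_congr rfl fun S _ => ?_
      split_ifs <;> simp
    have h2 : ∑ S ∈ V.powerset.filter (fun S => B ⊆ S ∧ Disjoint C S), xx ^ S.card =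
        ∑ T ∈ ((V \ B) \ C).powerset, xx ^ (B ∪ T).card := by
      symm
      refine Finset.sum_nbij' (fun T => B ∪ T) (fun S => S \ B) ?_ ?_ ?_ ?_ ?_
      · intro T hT
        rw [mem_powerset] at hT
        rw [mem_filter, mem_powerset]
        refine ⟨union_subset hB (hT.trans (sdiff_subset.trans sdiff_subset)),
          subset_union_left, ?_⟩
        rw [disjoint_union_right]
        refine ⟨hd.symm, ?_⟩
        exact (disjoint_of_subset_left hT sdiff_disjoint).symm
      · intro S hS
        rw [mem_filter, mem_powerset] at hS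
        rw [mem_powerset]
        intro x hx
        rw [mem_sdiff] at hx
        rw [mem_sdiff, mem_sdiff]
        exact ⟨⟨hS.1 hx.1, hx.2⟩, fun h => (disjoint_left.1 hS.2.2 h) hx.1⟩
      · intro T hT
        rw [mem_powerset] at hT
        have h3 : Disjoint B T := by
          rw [disjoint_left]
          intro x hx hxT
          have := hT hxT
          rw [mem_sdiff, mem_sdiff] at this
          exact this.1.2 hx
        exact h3.sup_sdiff_cancel_left
      · intro S hS
        rw [mem_filter, mem_powerset] at hS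
        exact union_sdiff_of_subset hS.2.1
      · intro T _
        rfl
    have h3 : ∀ T ∈ ((V \ B) \ C).powerset, xx ^ (B ∪ T).card = xx ^ B.card * xx ^ T.card := by
      intro T hT
      rw [mem_powerset] at hT
      rw [card_union_of_disjoint, pow_add]
      rw [disjoint_left]
      intro x hx hxT
      have := hT hxT
      rw [mem_sdiff, mem_sdiff] at this
      exact this.1.2 hx
    have h4 : ((V \ B) \ C).card = V.card - B.card - C.card := by
      rw [card_sdiff_of_subset, card_sdiff_of_subset hB]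
      intro x hx
      rw [mem_sdiff]
      exact ⟨hC hx, fun h => (disjoint_left.1 hd h) hx⟩
    rw [h1, h2, Finset.sum_congr rfl h3, ← Finset.mul_sum, ← h4, ← one_add_xx, add_comm 1 xx,
      ← Finset.sum_pow_mul_eq_add_pow]
    simp
  · refine Finset.sum_eq_zero fun S _ => ?_
    rw [if_neg, mul_zero]
    rintro ⟨h1, h2⟩
    exact hd (disjoint_of_subset_left h1 h2.symm)

/-- functions with at most `k` deficits -/
theorem Rk_IV {V : Finset P} {k : ℕ} {f : Finset P → A} (hf : Rk V k f) :
    dd ^ (V.card - k) ∣ IV V f := by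
  obtain ⟨c, h1, h2⟩ := hf
  have h3 : IV V f = ∑ T ∈ V.powerset, c T * IV V (chi T ∅) := by
    have h4 : IV V f = IV V (fun S => ∑ T ∈ V.powerset, c T * chi T ∅ S) := by
      refine IV_congr fun S hS => ?_
      rw [h2 S hS]
      have h5 : ∑ T ∈ V.powerset, c T * chi T ∅ S =
          ∑ T ∈ V.powerset.filter (fun T => T ⊆ S), c T := by
        rw [Finset.sum_filter]
        refine Finset.sum_congr rfl fun T _ => ?_
        unfold chi
        simp only [Finset.disjoint_empty_left, and_true, mul_ite, mul_one, mul_zero]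
      rw [h5]
      refine Finset.sum_congr ?_ fun _ _ => rfl
      ext T
      rw [mem_filter, mem_powerset, mem_powerset]
      exact ⟨fun h => ⟨h.trans hS, h⟩, fun h => h.2⟩
    rw [h4, IV_sum]
    refine Finset.sum_congr rfl fun T _ => ?_
    rw [← IV_mul]
  rw [h3]
  refine Finset.dvd_sum fun T hT => ?_
  rw [mem_powerset] at hT
  rw [IV_chi hT (Finset.empty_subset _), if_pos (Finset.disjoint_empty_right _),
    Finset.card_empty, Nat.sub_zero]
  have h4 := card_le_card hT
  have h5 : dd ^ (T.card - k) * dd ^ (V.card - T.card) ∣ c T * (xx ^ T.card * dd ^ (V.card - T.card)) :=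
    mul_dvd_mul (h1 T hT) (dvd_mul_left _ _)
  rw [← pow_add] at h5
  exact (pow_dvd_pow dd (by omega)).trans h5

lemma Rk_sub {V W : Finset P} {k : ℕ} {f : Finset P → A} (h : W ⊆ V) (hf : Rk V k f) :
    Rk W k f := by
  obtain ⟨c, h1, h2⟩ := hf
  exact ⟨c, fun T hT => h1 T (hT.trans h), fun S hS => h2 S (hS.trans h)⟩

lemma st_sub (i : ℕ) (C : Finset P) : st i C ⊆ lv P i := by
  intro v hv
  rw [mem_lv]
  exact (mem_st.1 hv).2

/-- the term of a configuration of a part -/
theorem tC_IV (H : Gr P r) {C : Finset P} (hC : Part i C) {e : P → ℕ} (he : Spt C e) :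
    tC i C e = IV (st i C) (Fe i e) := by
  have h1 : IV (st i C) (Fe i e) = cw i e * IV (st i C) (chi (AL i e) (AU i e)) := by
    rw [← IV_mul]
    rfl
  rw [h1, IV_chi (AL_sub hC he) (AU_sub H hC he)]
  unfold tC
  split_ifs
  · rfl
  · rw [mul_zero]

open Classical in
/-- the rest of a core inside a part -/
noncomputable def RstC (i : ℕ) (C : Finset P) (psi : P → P) (e : P → ℕ) : Finset P :=
  (Rst i ∅ psi e).filter (fun x => x ∈ C)

lemma mem_RstC {C : Finset P} {psi : P → P} {e : P → ℕ} {x : P} :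
    x ∈ RstC i C psi e ↔ x ∈ Rst i ∅ psi e ∧ x ∈ C := by
  classical
  unfold RstC
  rw [mem_filter]

/-- a part is closed under the partner map -/
lemma psi_mem (H : Gr P r) {C : Finset P} (hC : Part (i + 1) C) {psi : P → P}
    (hM : Mat P i ∅ psi) {x : P} (hx : x ∈ dbL P i ∪ dbU P i) (hxC : x ∈ C) : psi x ∈ C := by
  rcases mem_union.1 hx with h | h
  · have h1 := hM.low x h (Finset.notMem_empty _)
    rw [mem_dbL] at h
    obtain ⟨v, hv⟩ : (uc x).Nonempty := by
      rw [← card_pos]
      omega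
    have h2 := hC.up hxC (mem_uc.1 hv)
    refine hC.up h2 ?_
    rw [← mem_dc, h1.2]
    exact hv
  · have h1 := hM.upp x h (Finset.notMem_empty _)
    rw [mem_dbU] at h
    obtain ⟨v, hv⟩ : (dc x).Nonempty := by
      rw [← card_pos]
      omega
    have h3 := lev_dc H hv
    have h2 := hC.dn hxC (by omega) (mem_dc.1 hv)
    refine hC.dn h2 (by omega) ?_
    rw [← mem_uc, h1.2]
    exact hv

section rest

variable {C : Finset P} {psi : P → P} {e : P → ℕ}

lemma RstC_near : RstC i C psi e ⊆ near P i := fun _ hx => (mem_Rst.mp (mem_RstC.1 hx).1).1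

lemma RstC_Tch : ∀ x ∈ RstC i C psi e, x ∉ Tch i e :=
  fun _ hx => (mem_Rst.mp (mem_RstC.1 hx).1).2.2.1

lemma RstC_closed (H : Gr P r) (hC : Part (i + 1) C) (hM : Mat P i ∅ psi) :
    ∀ x ∈ RstC i C psi e, x ∈ dbL P i ∪ dbU P i → psi x ∈ RstC i C psi e := by
  intro x hx hd
  rw [mem_RstC] at hx ⊢
  refine ⟨?_, psi_mem H hC hM hd hx.2⟩
  obtain ⟨h1, h2, h3, h4⟩ := mem_Rst.mp hx.1
  have h5 := hM.invol x hd h2
  refine mem_Rst.mpr ⟨?_, h5.2, fun h6 => h4 ⟨hd, h6⟩, ?_⟩
  · rcases Finset.mem_union.mp hd with h6 | h6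
    · have h7 := (mem_dbU.mp (hM.low x h6 h2).1).1
      exact mem_near.mpr (Or.inr h7)
    · have h7 := (mem_dbL.mp (hM.upp x h6 h2).1).1
      exact mem_near.mpr (Or.inl h7)
  · rintro ⟨-, h6⟩
    rw [h5.1] at h6
    exact h3 h6

/-- the product of the weights of the rest has no deficits -/
lemma rest_Rk (H : Gr P r) (hi : 1 ≤ i) (hi2 : i + 1 ≤ r) (hC : Part (i + 1) C)
    (hM : Mat P i ∅ psi) (e' : P → ℕ) (m : ℕ) :
    Rk (st i C) 0 (fun S => ∑ l ∈ (RstC i C psi e).piAntidiag m,
      ∏ x ∈ RstC i C psi e, wt i e' x (l x) S) :=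
  Rk_sub (st_sub i C) (rest_prod H hi hi2 hM e' (RstC i C psi e) RstC_near
    (fun x hx => (mem_Rst.mp (mem_RstC.1 hx).1).2.1) (RstC_closed H hC hM) m)

end rest

end Pool.Agent.GaussPoset.Win

end

/-! From `Pool.Agent.W_448al_h63.LB` -/

section

/-! The core theorem for a part with some far elements deleted. -/

namespace Pool.Agent.GaussPoset.Win

set_option linter.unusedSectionVars false

open Finset

universe u

variable {P : Type u} [Fintype P] [PartialOrder P] [DecidableEq P] {r i : ℕ}

lemma mem_piA {D : Finset P} {n : ℕ} {e : P → ℕ} :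
    e ∈ D.piAntidiag n ↔ ∑ x, e x = n ∧ Spt D e := by
  rw [mem_piAntidiag]
  constructor
  · rintro ⟨h1, h2⟩
    have h3 : Spt D e := by
      intro x hx
      by_contra h
      exact hx (h2 x h)
    refine ⟨?_, h3⟩
    rw [← h1]
    symm
    exact Finset.sum_subset (subset_univ _) fun x _ hx => h3 x hx
  · rintro ⟨h1, h2⟩
    constructor
    · rw [← h1]
      exact Finset.sum_subset (subset_univ _) fun x _ hx => h2 x hx
    · intro x hx
      by_contra h
      exact hx (h2 x h)

lemma spt_add_iff {D : Finset P} {e f : P → ℕ} : Spt D (e + f) ↔ Spt D e ∧ Spt D f := by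
  constructor
  · intro h
    refine ⟨fun x hx => ?_, fun x hx => ?_⟩
    · have := h x hx
      rw [Pi.add_apply] at this
      omega
    · have := h x hx
      rw [Pi.add_apply] at this
      omega
  · rintro ⟨h1, h2⟩ x hx
    rw [Pi.add_apply, h1 x hx, h2 x hx]

section main

variable {C D : Finset P} {psi : P → P}

/-- the group of one core -/
lemma group_eq (H : Gr P r) (hi2 : i + 1 ≤ r) (hC : Part (i + 1) C)
    (hDC : D ⊆ C) (hD : ∀ x ∈ C, x ∈ near P i → x ∈ D) {e0 : P → ℕ}
    (hc : IsCore i ∅ psi e0) (hs : Spt D e0) (m : ℕ) :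
    ∑ l ∈ (Rst i ∅ psi e0).piAntidiag m, (open Classical in if Spt D (e0 + l) then
      tC i C (e0 + l) else 0) =
    IV (st i C) (fun S => Fe i e0 S * ∑ l ∈ (RstC i C psi e0).piAntidiag m,
      ∏ x ∈ RstC i C psi e0, wt i e0 x (l x) S) := by
  classical
  have hC' : Part i C := ⟨fun h1 h2 => hC.up h1 h2, fun h1 h2 h3 => hC.dn h1 (by omega) h3⟩
  have h1 : ∑ l ∈ (Rst i ∅ psi e0).piAntidiag m, (if Spt D (e0 + l) then
      tC i C (e0 + l) else 0) = ∑ l ∈ (RstC i C psi e0).piAntidiag m, tC i C (e0 + l) := by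
    rw [← Finset.sum_filter]
    refine Finset.sum_congr ?_ fun _ _ => rfl
    ext l
    rw [mem_filter, mem_piA, mem_piA, spt_add_iff]
    constructor
    · rintro ⟨⟨h1, h2⟩, -, h3⟩
      refine ⟨h1, fun x hx => ?_⟩
      by_contra hne
      apply hx
      rw [mem_RstC]
      constructor
      · by_contra h4
        exact hne (h2 x h4)
      · apply hDC
        by_contra h4
        exact hne (h3 x h4)
    · rintro ⟨h1, h2⟩
      refine ⟨⟨h1, fun x hx => h2 x fun h3 => hx (mem_RstC.1 h3).1⟩, hs, fun x hx => ?_⟩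
      apply h2
      intro h3
      exact hx (hD x (mem_RstC.1 h3).2 (RstC_near h3))
  rw [h1]
  have h2 : ∀ l ∈ (RstC i C psi e0).piAntidiag m, tC i C (e0 + l) =
      IV (st i C) (fun S => Fe i e0 S * ∏ x ∈ RstC i C psi e0, wt i e0 x (l x) S) := by
    intro l hl
    rw [mem_piA] at hl
    have h3 : Spt C (e0 + l) := by
      rw [spt_add_iff]
      refine ⟨fun x hx => hs x fun h => hx (hDC h), fun x hx => hl.2 x fun h => ?_⟩
      exact hx (mem_RstC.1 h).2
    rw [tC_IV H hC' h3]
    refine IV_congr fun S _ => ?_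
    exact fact_many H (by omega) (RstC i C psi e0) RstC_near RstC_Tch
      (fun x hx => hc x (mem_RstC.1 hx).1) l hl.2 S
  rw [Finset.sum_congr rfl h2, ← IV_sum]
  refine IV_congr fun S _ => ?_
  rw [Finset.mul_sum]

/-- the group of a core without deficits is divisible by the full power -/
lemma group_dvd (H : Gr P r) (hi : 1 ≤ i) (hi2 : i + 1 ≤ r) (hC : Part (i + 1) C)
    (hDC : D ⊆ C) (hD : ∀ x ∈ C, x ∈ near P i → x ∈ D) (hM : Mat P i ∅ psi) {e0 : P → ℕ}
    (hc : IsCore i ∅ psi e0) (hs : Spt D e0) (h0 : Rk (st i C) 0 (Fe i e0)) (m : ℕ) :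
    dd ^ (st i C).card ∣ ∑ l ∈ (Rst i ∅ psi e0).piAntidiag m,
      (open Classical in if Spt D (e0 + l) then tC i C (e0 + l) else 0) := by
  rw [group_eq H hi2 hC hDC hD hc hs m]
  have h1 := Rk_IV (Rk_mul h0 (rest_Rk (e := e0) H hi hi2 hC hM e0 m))
  simpa using h1

open Classical in
/-- CORE THEOREM FOR A PART: if all cores of energy `< n` supported on `D` have no deficits, then modulo
`dd ^ b` only the cores of energy `n` with deficits count. -/
theorem core_part (H : Gr P r) (hi : 1 ≤ i) (hi2 : i + 1 ≤ r) (hC : Part (i + 1) C)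
    (hDC : D ⊆ C) (hD : ∀ x ∈ C, x ∈ near P i → x ∈ D) (hM : Mat P i ∅ psi) (n : ℕ)
    (hk : ∀ e : P → ℕ, IsCore i ∅ psi e → Spt D e → ∑ x, e x < n → Rk (st i C) 0 (Fe i e)) :
    dd ^ (st i C).card ∣ ∑ e ∈ D.piAntidiag n, tC i C e -
      ∑ e ∈ (D.piAntidiag n).filter (fun e => IsCore i ∅ psi e ∧ ¬ Rk (st i C) 0 (Fe i e)),
        tC i C e := by
  have e1 : ∑ e ∈ D.piAntidiag n, tC i C e =
      ∑ e ∈ (univ : Finset P).piAntidiag n, if Spt D e then tC i C e else 0 := by
    rw [← Finset.sum_filter]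
    refine Finset.sum_congr ?_ fun _ _ => rfl
    ext e
    rw [mem_filter, mem_piA, mem_piA]
    constructor
    · rintro ⟨h1, h2⟩
      exact ⟨⟨h1, fun x hx => absurd (mem_univ x) hx⟩, h2⟩
    · rintro ⟨⟨h1, -⟩, h2⟩
      exact ⟨h1, h2⟩
  rw [e1, core_group H _ i ∅ psi n, Finset.sum_range_succ, Nat.sub_self]
  have h1 : dd ^ (st i C).card ∣ ∑ q ∈ range n,
      ∑ e0 ∈ ((univ : Finset P).piAntidiag q).filter (IsCore i ∅ psi),
        ∑ l ∈ (Rst i ∅ psi e0).piAntidiag (n - q),
          if Spt D (e0 + l) then tC i C (e0 + l) else 0 := by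
    refine Finset.dvd_sum fun q hq => Finset.dvd_sum fun e0 he => ?_
    rw [Finset.mem_range] at hq
    rw [Finset.mem_filter, mem_piA] at he
    by_cases hs : Spt D e0
    · exact group_dvd H hi hi2 hC hDC hD hM he.2 hs (hk e0 he.2 hs (by omega)) (n - q)
    · refine Finset.dvd_sum fun l _ => ?_
      rw [if_neg (fun h => hs (spt_add_iff.1 h).1)]
      exact dvd_zero _
  rw [add_sub_assoc]
  refine dvd_add h1 ?_
  have h2 : ∑ e0 ∈ ((univ : Finset P).piAntidiag n).filter (IsCore i ∅ psi),
      ∑ l ∈ (Rst i ∅ psi e0).piAntidiag 0,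
        (if Spt D (e0 + l) then tC i C (e0 + l) else 0) =
      ∑ e ∈ (D.piAntidiag n).filter (IsCore i ∅ psi), tC i C e := by
    have h3 : ∀ e0 ∈ ((univ : Finset P).piAntidiag n).filter (IsCore i ∅ psi),
        ∑ l ∈ (Rst i ∅ psi e0).piAntidiag 0,
          (if Spt D (e0 + l) then tC i C (e0 + l) else 0) =
        if Spt D e0 then tC i C e0 else 0 := by
      intro e0 _
      rw [Finset.piAntidiag_zero, Finset.sum_singleton, add_zero]
    rw [Finset.sum_congr rfl h3, ← Finset.sum_filter, Finset.filter_filter]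
    refine Finset.sum_congr ?_ fun _ _ => rfl
    ext e
    rw [mem_filter, mem_filter, mem_piA, mem_piA]
    constructor
    · rintro ⟨⟨h1, -⟩, h2, h3⟩
      exact ⟨⟨h1, h3⟩, h2⟩
    · rintro ⟨⟨h1, h3⟩, h2⟩
      exact ⟨⟨h1, fun x hx => absurd (mem_univ x) hx⟩, h2, h3⟩
  rw [h2, ← Finset.sum_filter_add_sum_filter_not ((D.piAntidiag n).filter (IsCore i ∅ psi))
    (fun e => ¬ Rk (st i C) 0 (Fe i e)), Finset.filter_filter, Finset.filter_filter,
    add_sub_cancel_left]
  refine Finset.dvd_sum fun e he => ?_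
  rw [mem_filter, mem_piA, not_not] at he
  have hC' : Part i C := ⟨fun h1 h2 => hC.up h1 h2, fun h1 h2 h3 => hC.dn h1 (by omega) h3⟩
  rw [tC_IV H hC' (fun x hx => he.1.2 x fun h => hx (hDC h))]
  have := Rk_IV he.2.2
  simpa using this

end main

end Pool.Agent.GaussPoset.Win

end

/-! From `Pool.Agent.W_448al_h63.LD` -/

section

/-! Explicit data of small configurations on one side of the window, and their mirror images. -/

namespace Pool.Agent.GaussPoset.Win

set_option linter.unusedSectionVars false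

open Finset OrderDual

universe u

variable {P : Type u} [Fintype P] [PartialOrder P] [DecidableEq P] {r i : ℕ}

/-- data of the lower part of a configuration -/
structure LDat (i : ℕ) (e : P → ℕ) (a p : ℕ) (B : Finset P) : Prop where
  adm : AdmL i e
  a_eq : aL i e = a
  p_eq : pL i e = p
  al_eq : AL i e = B

/-- data of the upper part of a configuration -/
structure UDat (i : ℕ) (e : P → ℕ) (a p : ℕ) (B : Finset P) : Prop where
  adm : AdmU i e
  a_eq : aU i e = a
  p_eq : pU i e = p
  au_eq : AU i e = B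

lemma LDat.to_UDat (H : Gr P r) (hi : i ≤ r) {e : P → ℕ} {a p : ℕ} {B' : Finset Pᵒᵈ}
    {B : Finset P} (h : LDat (r - i) (eo e) a p B') (hB : ∀ v, v ∈ B ↔ toDual v ∈ B') :
    UDat i e a p B := by
  obtain ⟨n1, n2, n3, n4, n5, n6, n7⟩ := nums_od H hi e
  refine ⟨(AdmL_od H hi e).1 h.adm, by rw [← n1]; exact h.a_eq, by rw [← n3]; exact h.p_eq, ?_⟩
  ext v
  rw [← mem_AL_od H hi, h.al_eq, hB]

section vals

variable {e : P → ℕ} {a p : ℕ} {B : Finset P}

lemma LDat.Fe (H : Gr P r) (hi : i ≤ r) (h : LDat i e a p B) (h0 : ∀ z, lev z < i → e z = 0)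
    (S : Finset P) : Fe i e S = xx ^ a * dd ^ p * chi B ∅ S := by
  obtain ⟨u1, u2, u3, u4⟩ := upp_none H hi h0
  unfold Win.Fe cw
  rw [if_pos ⟨h.adm, u1⟩, h.a_eq, h.p_eq, h.al_eq, u2, u3, u4]
  simp

lemma UDat.Fe (H : Gr P r) (h : UDat i e a p B) (h0 : ∀ z, i < lev z → e z = 0)
    (S : Finset P) : Fe i e S = xi ^ (a + p) * dd ^ p * chi ∅ B S := by
  obtain ⟨u1, u2, u3, u4⟩ := low_none H h0
  unfold Win.Fe cw
  rw [if_pos ⟨u1, h.adm⟩, h.a_eq, h.p_eq, h.au_eq, u2, u3, u4]
  simp

lemma LDat.tC (H : Gr P r) (hi : i ≤ r) (h : LDat i e a p B) (h0 : ∀ z, lev z < i → e z = 0)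
    (C : Finset P) : tC i C e = xx ^ (a + B.card) * dd ^ (p + ((st i C).card - B.card)) := by
  obtain ⟨u1, u2, u3, u4⟩ := upp_none H hi h0
  unfold Win.tC cw
  rw [if_pos (show Disjoint (AL i e) (AU i e) by rw [u2]; exact disjoint_empty_right _),
    if_pos ⟨h.adm, u1⟩, h.a_eq, h.p_eq, h.al_eq, u2, u3, u4]
  simp only [Finset.card_empty, Nat.sub_zero, add_zero, pow_zero, mul_one]
  rw [pow_add, pow_add]
  ring

lemma UDat.tC (H : Gr P r) (h : UDat i e a p B) (h0 : ∀ z, i < lev z → e z = 0)
    (C : Finset P) : tC i C e = xi ^ (a + p) * dd ^ (p + ((st i C).card - B.card)) := by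
  obtain ⟨u1, u2, u3, u4⟩ := low_none H h0
  unfold Win.tC cw
  rw [if_pos (show Disjoint (AL i e) (AU i e) by rw [u2]; exact disjoint_empty_left _),
    if_pos ⟨u1, h.adm⟩, h.a_eq, h.p_eq, h.au_eq, u2, u3, u4]
  simp only [Finset.card_empty, Nat.sub_zero, pow_zero, one_mul, zero_add]
  rw [pow_add dd]
  ring

end vals

/-- a chain of single elements below `y` with decreasing labels -/
lemma chain_dat (H : Gr P r) {e : P → ℕ} {y z : P} (hy : lev y = i + 1) (hz : uc z = {y})
    (h1 : ∀ x, i < lev x → e x ≠ 0 → x = y ∨ x = z ∨ (uc x = {z} ∧ e x ≤ e z))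
    (h2 : e z ≤ e y) :
    LDat i e 0 (if ∀ v ∈ uc y, e v < e y then 1 else 0) ((uc y).filter (fun v => e v < e y)) := by
  classical
  have hzy : z ⋖ y := by rw [← mem_uc, hz]; exact mem_singleton_self y
  have hlz : lev z = i + 2 := by
    have := lev_uc H (mem_uc.2 hzy)
    omega
  have hFD : ∀ x, i < lev x → ¬ FD e x := by
    rintro x hx ⟨z', hz', hlt⟩
    have hl := lev_uc H (mem_uc.2 hz')
    rcases h1 z' (by omega) (by omega) with h | h | ⟨h, h'⟩
    · rw [h] at hl
      omega
    · rw [h] at hz' hlt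
      have h3 : x ∈ uc z := mem_uc.2 hz'
      rw [hz, mem_singleton] at h3
      rw [h3] at hlt
      omega
    · have h3 : x ∈ uc z' := mem_uc.2 hz'
      rw [h, mem_singleton] at h3
      rw [h3] at hlt
      omega
  have hGU : ∀ x, i < lev x → x ≠ y → GU e x := by
    intro x hx hxy
    by_cases h0 : e x = 0
    · exact ExpC_GU H (by omega) h0
    · rcases h1 x hx h0 with h | h | ⟨h, h'⟩
      · exact absurd h hxy
      · rw [h]
        exact ⟨y, hzy, h2⟩
      · refine ⟨z, ?_, h'⟩
        rw [← mem_uc, h]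
        exact mem_singleton_self z
  refine ⟨fun x hx h => hFD x hx h.1, ?_, ?_, ?_⟩
  · unfold aL
    rw [Finset.card_eq_zero, Finset.filter_eq_empty_iff]
    rintro x - ⟨hx, h⟩
    exact hFD x hx h
  · have e1 : (univ.filter (fun x : P => i < lev x ∧ ¬ FD e x ∧ ¬ GU e x)) =
        if ∀ v ∈ uc y, e v < e y then {y} else ∅ := by
      ext x
      rw [mem_filter]
      by_cases hxy : x = y
      · subst hxy
        have hG : GU e x ↔ ¬ ∀ v ∈ uc x, e v < e x := by
          constructor
          · rintro ⟨v, hv, hle⟩ h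
            have := h v (mem_uc.2 hv)
            omega
          · intro h
            push Not at h
            obtain ⟨v, hv, hle⟩ := h
            exact ⟨v, mem_uc.1 hv, hle⟩
        split_ifs with h
        · simp only [mem_univ, true_and, mem_singleton, iff_true]
          exact ⟨by omega, hFD x (by omega), fun h3 => hG.1 h3 h⟩
        · simp only [mem_univ, true_and, notMem_empty, iff_false]
          rintro ⟨-, -, h3⟩
          exact h3 (hG.2 h)
      · split_ifs
        · simp only [mem_univ, true_and, mem_singleton, hxy, iff_false]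
          rintro ⟨h3, -, h4⟩
          exact h4 (hGU x h3 hxy)
        · simp only [mem_univ, true_and, notMem_empty, iff_false]
          rintro ⟨h3, -, h4⟩
          exact h4 (hGU x h3 hxy)
    unfold pL
    rw [e1]
    split_ifs <;> simp
  · ext v
    rw [NormD_mem_AL, mem_filter]
    constructor
    · rintro ⟨hv, z', hz', hlt⟩
      have hl := lev_uc H (mem_uc.2 hz')
      rcases h1 z' (by omega) (by omega) with h | h | ⟨h, h'⟩
      · rw [h] at hz' hlt
        exact ⟨mem_uc.2 hz', hlt⟩
      · rw [h] at hl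
        omega
      · have h3 : v ∈ uc z' := mem_uc.2 hz'
        rw [h, mem_singleton] at h3
        rw [h3] at hv
        omega
    · rintro ⟨hv, hlt⟩
      have hl := lev_uc H hv
      exact ⟨by omega, y, mem_uc.1 hv, hlt⟩

/-- a single element below `y` with a larger label -/
lemma kill_dat (H : Gr P r) {e : P → ℕ} {y z : P} (hy : lev y = i + 1) (hz : uc z = {y})
    (h1 : ∀ x, i < lev x → e x ≠ 0 → x = y ∨ x = z)
    (h2 : e y < e z) (h3 : ∀ v ∈ uc y, e v < e y) : LDat i e 1 1 (uc y) := by
  classical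
  have hzy : z ⋖ y := by rw [← mem_uc, hz]; exact mem_singleton_self y
  have hlz : lev z = i + 2 := by
    have := lev_uc H (mem_uc.2 hzy)
    omega
  have hFD : ∀ x, i < lev x → (FD e x ↔ x = y) := by
    intro x hx
    constructor
    · rintro ⟨z', hz', hlt⟩
      have hl := lev_uc H (mem_uc.2 hz')
      rcases h1 z' (by omega) (by omega) with h | h
      · rw [h] at hl
        omega
      · rw [h] at hz'
        have h3 : x ∈ uc z := mem_uc.2 hz'
        rwa [hz, mem_singleton] at h3
    · rintro rfl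
      exact ⟨z, hzy, h2⟩
  have hGU : ∀ x, i < lev x → (GU e x ↔ x ≠ y ∧ x ≠ z) := by
    intro x hx
    constructor
    · rintro ⟨v, hv, hle⟩
      constructor
      · rintro rfl
        have := h3 v (mem_uc.2 hv)
        omega
      · rintro rfl
        have h4 : v ∈ uc x := mem_uc.2 hv
        rw [hz, mem_singleton] at h4
        rw [h4] at hle
        omega
    · rintro ⟨h4, h5⟩
      refine ExpC_GU H (by omega) ?_
      by_contra h0
      rcases h1 x hx h0 with h | h
      · exact h4 h
      · exact h5 h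
  refine ⟨fun x hx h => ?_, ?_, ?_, ?_⟩
  · rw [hFD x hx, hGU x hx] at h
    exact h.2.1 h.1
  · unfold aL
    rw [Finset.card_eq_one]
    refine ⟨y, ?_⟩
    ext x
    rw [mem_filter, mem_singleton]
    constructor
    · rintro ⟨-, hx, h⟩
      exact (hFD x hx).1 h
    · rintro rfl
      exact ⟨mem_univ _, by omega, (hFD x (by omega)).2 rfl⟩
  · unfold pL
    rw [Finset.card_eq_one]
    refine ⟨z, ?_⟩
    ext x
    rw [mem_filter, mem_singleton]
    constructor
    · rintro ⟨-, hx, h, h'⟩
      rw [hFD x hx] at h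
      rw [hGU x hx] at h'
      by_contra h4
      exact h' ⟨h, h4⟩
    · rintro rfl
      refine ⟨mem_univ _, by omega, ?_, ?_⟩
      · rw [hFD x (by omega)]
        rintro rfl
        omega
      · rw [hGU x (by omega)]
        exact fun h => h.2 rfl
  · ext v
    rw [NormD_mem_AL]
    constructor
    · rintro ⟨hv, z', hz', hlt⟩
      have hl := lev_uc H (mem_uc.2 hz')
      rcases h1 z' (by omega) (by omega) with h | h
      · rw [h] at hz'
        exact mem_uc.2 hz'
      · rw [h] at hl
        omega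
    · intro hv
      have hl := lev_uc H hv
      exact ⟨by omega, y, mem_uc.1 hv, h3 v hv⟩

/-- the data of `cl z` -/
lemma cl_dat (H : Gr P r) {z : P} (hz : lev z = i + 2) :
    LDat i (cl z) 0 (uc z).card (sts i z) := by
  classical
  have hlow : ∀ x, 0 < cl z x → i < lev x := by
    intro x hx
    rcases ExpC_cl_pos hx with h | h
    · rw [h]; omega
    · rw [ExpC_lev_uc H hz h]; omega
  have hs0 : ∀ u, lev u = i → cl z u = 0 := by
    intro u hu
    by_contra hcon
    have := hlow u (Nat.pos_of_ne_zero hcon)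
    omega
  have hFD : ∀ x, i < lev x → ¬ FD (cl z) x := by
    rintro x hx ⟨z', hz', hlt⟩
    have h1 := ExpC_cl_le z z'
    have h2 : cl z x = 0 := by omega
    rcases ExpC_cl_pos (z := z) (x := z') (by omega) with h | h
    · have h3 : cl z x = 1 := ExpC_cl_uc (mem_uc.2 (h ▸ hz'))
      omega
    · have h3 := ExpC_lev_uc H hz h
      have h4 := ExpC_cov H hz'
      omega
  refine ⟨fun x hx h => hFD x hx h.1, ?_, ?_, ?_⟩
  · unfold aL
    rw [Finset.card_eq_zero, Finset.filter_eq_empty_iff]
    rintro x - ⟨hx, h⟩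
    exact hFD x hx h
  · unfold pL
    congr 1
    ext x
    rw [mem_filter]
    constructor
    · rintro ⟨-, h1, -, h3⟩
      by_contra hx
      apply h3
      by_cases hxz : x = z
      · obtain ⟨w, hw⟩ := uc_nonempty H (x := z) (by omega)
        refine ⟨w, by rw [hxz]; exact mem_uc.1 hw, ?_⟩
        rw [hxz, ExpC_cl_z, ExpC_cl_uc hw]
      · refine ExpC_GU H (by omega) ?_
        by_contra hne
        rcases ExpC_cl_pos (Nat.pos_of_ne_zero hne) with h | h
        · exact hxz h
        · exact hx h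
    · intro hx
      have h1 := ExpC_lev_uc H hz hx
      refine ⟨mem_univ _, by omega, hFD x (by omega), ?_⟩
      rintro ⟨y, hy, hle⟩
      have h2 := ExpC_cov H hy
      have h3 := hs0 y (by omega)
      rw [ExpC_cl_uc hx] at hle
      omega
  · ext v
    unfold AL
    rw [Finset.mem_filter, mem_lv]
    constructor
    · rintro ⟨hv, z', hz', hlt⟩
      rcases ExpC_cl_pos (z := z) (x := z') (by omega) with h | h
      · have h3 := ExpC_cov H hz'
        rw [h] at h3
        omega
      · exact (mem_sts_iff H hz).2 ⟨z', h, mem_uc.2 hz'⟩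
    · intro hv
      have hv1 := (mem_sts.1 hv).1
      obtain ⟨w, hw, hwv⟩ := (mem_sts_iff H hz).1 hv
      refine ⟨hv1, w, mem_uc.1 hwv, ?_⟩
      rw [hs0 v hv1, ExpC_cl_uc hw]
      exact one_pos

/-- the data of `cu x` -/
lemma cu_dat (H : Gr P r) (hi : i ≤ r) {x : P} (hx : lev x + 2 = i) :
    UDat i (cu x) 0 (dc x).card (stD i x) := by
  have h1 : lev (toDual x) = r - i + 2 := by
    rw [lev_od H]
    have := H.hr x
    omega
  have h2 := cl_dat H.dual h1
  have h3 : (uc (toDual x)).card = (dc x).card := by rw [uc_od, Finset.card_map]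
  rw [← cu_od, h3] at h2
  refine h2.to_UDat H hi fun v => ?_
  rw [mem_sts, mem_stD, lev_od H, toDual_lt_toDual]
  have := H.hr v
  constructor
  · rintro ⟨h4, h5⟩
    exact ⟨by omega, h5⟩
  · rintro ⟨h4, h5⟩
    exact ⟨by omega, h5⟩

end Pool.Agent.GaussPoset.Win

end
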