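import Mathlib
import Pool.Agent.W_448zz_h61.Ns
import Pool.Agent.W_448zz_h61.M024
import Pool.Agent.W_448zz_h61.M093

/-! From `Pool.Agent.W_448al_h63.LC` -/

section

/-! Cores of energy at most three which do not excite `PD` and `PU`. -/

namespace Pool.Agent.GaussPoset.Win

set_option linter.unusedSectionVars false

open Finset OrderDual

universe u

variable {P : Type u} [Fintype P] [PartialOrder P] [DecidableEq P] {r : ℕ}

theorem cl3_low (H : Gr P r) {i : ℕ} (hi : 1 ≤ i) (hi2 : i + 1 ≤ r) {psi : P → P}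
    (hM : Mat P i ∅ psi) (h3 : ∀ z : P, lev z = i + 2 → up i z ≤ 3)
    {e : P → ℕ} (hPD : ∀ z ∈ PD P i, e z = 0) (hc : IsCore i ∅ psi e) (hn : ∑ x, e x ≤ 3)
    (h2 : TU i e = ∅) :
    Rk (lv P i) 0 (Fe i e) ∨ (∃ z, lev z = i + 2 ∧ up i z = 3 ∧ e = cl z) := by
  classical
  have hir : i ≤ r := by omega
  by_cases hadm : AdmL i e ∧ AdmU i e
  swap
  · exact Or.inl (Rk_of_not_adm hadm 0)
  obtain ⟨hA, hB⟩ := hadm
  have hE := energy_bound H hir hA hB
  have hT := card_TL_le H (i := i) e
  rcases Nat.lt_or_ge 2 (TL i e).card with h | h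
  · omega
  interval_cases hcard : (TL i e).card
  · exact Or.inl (core_none H hi hi2 hc (Finset.card_eq_zero.1 hcard) h2)
  · obtain ⟨w, hw⟩ := Finset.card_eq_one.1 hcard
    left
    refine (core_one H hi hi2 hM hc hw h2).2 ?_
    have hwT : w ∈ TL i e := by rw [hw]; exact Finset.mem_singleton_self w
    obtain ⟨hlw, z, hzw, hez⟩ := clb_mem_TL.1 hwT
    have hlz : lev z = i + 2 := by
      have := lev_uc H (mem_uc.2 hzw)
      omega
    have hucz : uc z = {w} := by
      apply Finset.eq_singleton_iff_unique_mem.2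
      refine ⟨mem_uc.2 hzw, fun y hy => ?_⟩
      have hly := lev_uc H hy
      have hyT : y ∈ TL i e := clb_mem_TL.2 ⟨by omega, z, mem_uc.1 hy, hez⟩
      rw [hw, Finset.mem_singleton] at hyT
      exact hyT
    have hw2 : (uc w).card ≠ 2 := by
      intro hcon
      have hzPD : z ∈ PD P i := by
        unfold PD
        rw [Finset.mem_filter]
        exact ⟨Finset.mem_univ _, hlz, by rw [hucz, Finset.card_singleton], w, hzw, hcon⟩
      have := hPD z hzPD
      omega
    have hw3 := uc_card_le H w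
    have hw4 : 0 < (uc w).card := Finset.card_pos.2 (uc_nonempty H (by omega))
    omega
  · obtain ⟨z, hz, hz2, he⟩ := clb_two H hir hA hB hcard hn
    have h5 := h3 z hz
    by_cases h4 : up i z = 3
    · exact Or.inr ⟨z, hz, h4, he⟩
    · left
      rw [he]
      apply clb_Rk H hir hz
      rw [card_sts]
      omega

theorem cl3_upp (H : Gr P r) {i : ℕ} (hi : 1 ≤ i) (hi2 : i + 1 ≤ r) {psi : P → P}
    (hM : Mat P i ∅ psi) (h3 : ∀ x : P, lev x + 2 = i → dn i x ≤ 3)
    {e : P → ℕ} (hPU : ∀ x ∈ PU P i, e x = 0) (hc : IsCore i ∅ psi e) (hn : ∑ x, e x ≤ 3)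
    (h2 : TL i e = ∅) :
    Rk (lv P i) 0 (Fe i e) ∨ (∃ x, lev x + 2 = i ∧ dn i x = 3 ∧ e = cu x) := by
  have hir : i ≤ r := by omega
  have hn' : ∑ x, eo e x ≤ 3 := by rw [ClD_sum]; exact hn
  have hPD : ∀ z ∈ PD Pᵒᵈ (r - i), eo e z = 0 := by
    intro z hz
    rw [(PD_od H hir).1, Finset.mem_map] at hz
    obtain ⟨x, hx, rfl⟩ := hz
    exact hPU x hx
  rcases cl3_low H.dual (i := r - i) (by omega) (by omega) (ClD_mat H hir hM)
    (ClD_up H hir h3) hPD (ClD_core H hir hc) hn' (ClD_TU H hir h2) with h | ⟨z, hz, hz2, hz3⟩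
  · exact Or.inl ((Rk_od H hir 0 e).1 h)
  · refine Or.inr ⟨ofDual z, ClD_lev H hir (x := ofDual z) hz, ?_, ?_⟩
    · rw [← up_od H hir]
      exact hz2
    · apply ClD_inj
      rw [cu_od]
      exact hz3

theorem cl3 (H : Gr P r) {i : ℕ} (hi : 1 ≤ i) (hi2 : i + 1 ≤ r) {psi : P → P}
    (hM : Mat P i ∅ psi) (h3 : ∀ z : P, lev z = i + 2 → up i z ≤ 3)
    (h3' : ∀ x : P, lev x + 2 = i → dn i x ≤ 3)
    {e : P → ℕ} (hPD : ∀ z ∈ PD P i, e z = 0) (hPU : ∀ x ∈ PU P i, e x = 0)
    (hc : IsCore i ∅ psi e) (hn : ∑ x, e x ≤ 3) :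
    Rk (lv P i) 0 (Fe i e) ∨ (∃ z, lev z = i + 2 ∧ up i z = 3 ∧ e = cl z) ∨
      (∃ x, lev x + 2 = i ∧ dn i x = 3 ∧ e = cu x) := by
  have hir : i ≤ r := by omega
  by_cases hadm : AdmL i e ∧ AdmU i e
  swap
  · exact Or.inl (Rk_of_not_adm hadm 0)
  obtain ⟨hA, hB⟩ := hadm
  have hE := energy_bound H hir hA hB
  have b1 := card_TL_le H (i := i) e
  have b2 := card_TU_le H (i := i) e
  by_cases hU : TU i e = ∅
  · rcases cl3_low H hi hi2 hM h3 hPD hc hn hU with h | h
    · exact Or.inl h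
    · exact Or.inr (Or.inl h)
  · by_cases hL : TL i e = ∅
    · rcases cl3_upp H hi hi2 hM h3' hPU hc hn hL with h | h
      · exact Or.inl h
      · exact Or.inr (Or.inr h)
    · exfalso
      have h4 : 0 < (TU i e).card := by
        rw [card_pos]
        exact Finset.nonempty_iff_ne_empty.2 hU
      have h5 : 0 < (TL i e).card := by
        rw [card_pos]
        exact Finset.nonempty_iff_ne_empty.2 hL
      omega

/-- three sites at most above an element of level `i + 2` -/
lemma up_le_three (H : Gr P r) {i : ℕ} (hg : Good P (i + 1)) {z : P} (hz : lev z = i + 2) :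
    up i z ≤ 3 := by
  classical
  rw [← card_sts]
  have h1 : sts i z = (uc z).biUnion uc := by
    ext v
    rw [mem_sts_iff H hz, mem_biUnion]
  rw [h1]
  have h2 := uc_card_le H z
  rcases Nat.lt_or_ge (uc z).card 2 with h3 | h3
  · have h4 : ((uc z).biUnion uc).card ≤ ∑ w ∈ uc z, (uc w).card := Finset.card_biUnion_le
    have h5 : ∑ w ∈ uc z, (uc w).card ≤ ∑ _w ∈ uc z, 2 :=
      Finset.sum_le_sum (fun w _ => uc_card_le H w)
    rw [Finset.sum_const, smul_eq_mul] at h5
    omega
  · obtain ⟨y, y', hne, huc⟩ := Finset.card_eq_two.1 (show (uc z).card = 2 by omega)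
    have hy : y ∈ uc z := by rw [huc]; simp
    have hy' : y' ∈ uc z := by rw [huc]; simp
    have l1 := lev_uc H hy
    have l2 := lev_uc H hy'
    have h4 := hg y y' (by omega) (by omega) hne
    have h5 : 0 < dcv y y' := by
      unfold dcv
      rw [card_pos]
      exact ⟨z, by simp [mem_uc.1 hy, mem_uc.1 hy']⟩
    rw [← h4] at h5
    unfold ucv at h5
    rw [card_pos] at h5
    obtain ⟨x, hx⟩ := h5
    rw [mem_filter] at hx
    rw [huc, Finset.biUnion_insert, Finset.singleton_biUnion]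
    have h6 := Finset.card_union_add_card_inter (uc y) (uc y')
    have h7 : 0 < (uc y ∩ uc y').card := by
      rw [card_pos]
      exact ⟨x, mem_inter.2 ⟨mem_uc.2 hx.2.1, mem_uc.2 hx.2.2⟩⟩
    have h8 := uc_card_le H y
    have h9 := uc_card_le H y'
    omega

/-- three sites at most below an element of level `i - 2` -/
lemma LC_dn_le_three (H : Gr P r) {i : ℕ} (hg : ∀ m, m + 1 = i → Good P m) {x : P}
    (hx : lev x + 2 = i) : dn i x ≤ 3 := by
  classical
  rw [← card_stD]
  have h1 : stD i x = (dc x).biUnion dc := by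
    ext v
    rw [mem_stD_iff H hx, mem_biUnion]
  rw [h1]
  have h2 := dc_card_le H x
  rcases Nat.lt_or_ge (dc x).card 2 with h3 | h3
  · have h4 : ((dc x).biUnion dc).card ≤ ∑ w ∈ dc x, (dc w).card := Finset.card_biUnion_le
    have h5 : ∑ w ∈ dc x, (dc w).card ≤ ∑ _w ∈ dc x, 2 :=
      Finset.sum_le_sum (fun w _ => dc_card_le H w)
    rw [Finset.sum_const, smul_eq_mul] at h5
    omega
  · obtain ⟨y, y', hne, hdc⟩ := Finset.card_eq_two.1 (show (dc x).card = 2 by omega)
    have hy : y ∈ dc x := by rw [hdc]; simp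
    have hy' : y' ∈ dc x := by rw [hdc]; simp
    have l1 := lev_dc H hy
    have l2 := lev_dc H hy'
    have h4 := hg (lev y) (by omega) y y' rfl (by omega) hne
    have h5 : 0 < ucv y y' := by
      unfold ucv
      rw [card_pos]
      exact ⟨x, by simp [mem_dc.1 hy, mem_dc.1 hy']⟩
    rw [h4] at h5
    unfold dcv at h5
    rw [card_pos] at h5
    obtain ⟨w, hw⟩ := h5
    rw [mem_filter] at hw
    rw [hdc, Finset.biUnion_insert, Finset.singleton_biUnion]
    have h6 := Finset.card_union_add_card_inter (dc y) (dc y')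
    have h7 : 0 < (dc y ∩ dc y').card := by
      rw [card_pos]
      exact ⟨w, mem_inter.2 ⟨mem_dc.2 hw.2.1, mem_dc.2 hw.2.2⟩⟩
    have h8 := dc_card_le H y
    have h9 := dc_card_le H y'
    omega

end Pool.Agent.GaussPoset.Win

end

/-! From `Pool.Agent.W_448al_h63.LE` -/

section

/-! The coefficient of energy three of a part, without the configurations which excite `PD` or
`PU`. -/

namespace Pool.Agent.GaussPoset.Win

set_option linter.unusedSectionVars false

open Finset OrderDual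

universe u

variable {P : Type u} [Fintype P] [PartialOrder P] [DecidableEq P] {r i : ℕ}

open Classical in
/-- the part without `PD` and `PU` -/
noncomputable def Dm (i : ℕ) (C : Finset P) : Finset P :=
  C.filter (fun x => x ∉ PD P i ∧ x ∉ PU P i)

open Classical in
/-- elements of level `i + 2` with three sites above -/
noncomputable def ZL (i : ℕ) (C : Finset P) : Finset P :=
  C.filter (fun z => lev z = i + 2 ∧ up i z = 3)

open Classical in
/-- elements of level `i - 2` with three sites below -/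
noncomputable def ZU (i : ℕ) (C : Finset P) : Finset P :=
  C.filter (fun z => lev z + 2 = i ∧ dn i z = 3)

lemma mem_Dm {C : Finset P} {x : P} : x ∈ Dm i C ↔ x ∈ C ∧ x ∉ PD P i ∧ x ∉ PU P i := by
  classical
  unfold Dm
  rw [mem_filter]

lemma mem_ZL {C : Finset P} {x : P} : x ∈ ZL i C ↔ x ∈ C ∧ lev x = i + 2 ∧ up i x = 3 := by
  classical
  unfold ZL
  rw [mem_filter]

lemma mem_ZU {C : Finset P} {x : P} : x ∈ ZU i C ↔ x ∈ C ∧ lev x + 2 = i ∧ dn i x = 3 := by
  classical
  unfold ZU
  rw [mem_filter]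

lemma lev_PD {z : P} (h : z ∈ PD P i) : lev z = i + 2 ∧ (uc z).card = 1 := by
  classical
  unfold PD at h
  rw [mem_filter] at h
  exact ⟨h.2.1, h.2.2.1⟩

lemma lev_PU {z : P} (h : z ∈ PU P i) : lev z + 2 = i ∧ (dc z).card = 1 := by
  classical
  unfold PU at h
  rw [mem_filter] at h
  exact ⟨h.2.1, h.2.2.1⟩

lemma card_uc_of_up (H : Gr P r) {z : P} (hz : lev z = i + 2) (h : up i z = 3) :
    (uc z).card = 2 := by
  classical
  have h1 : sts i z = (uc z).biUnion uc := by
    ext v
    rw [mem_sts_iff H hz, mem_biUnion]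
  have h2 : ((uc z).biUnion uc).card ≤ ∑ w ∈ uc z, (uc w).card := Finset.card_biUnion_le
  have h3 : ∑ w ∈ uc z, (uc w).card ≤ ∑ _w ∈ uc z, 2 :=
    Finset.sum_le_sum (fun w _ => uc_card_le H w)
  have h4 := uc_card_le H z
  rw [Finset.sum_const, smul_eq_mul] at h3
  rw [← h1, card_sts, h] at h2
  omega

lemma card_dc_of_dn (H : Gr P r) {z : P} (hz : lev z + 2 = i) (h : dn i z = 3) :
    (dc z).card = 2 := by
  classical
  have h1 : stD i z = (dc z).biUnion dc := by
    ext v
    rw [mem_stD_iff H hz, mem_biUnion]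
  have h2 : ((dc z).biUnion dc).card ≤ ∑ w ∈ dc z, (dc w).card := Finset.card_biUnion_le
  have h3 : ∑ w ∈ dc z, (dc w).card ≤ ∑ _w ∈ dc z, 2 :=
    Finset.sum_le_sum (fun w _ => dc_card_le H w)
  have h4 := dc_card_le H z
  rw [Finset.sum_const, smul_eq_mul] at h3
  rw [← h1, card_stD, h] at h2
  omega

section part

variable {C : Finset P}

lemma part_up (hC : Part i C) {x y : P} (hx : x ∈ C) (h : x ≤ y) : y ∈ C := by
  have key : ∀ w, w ≤ y → w ∈ C → y ∈ C := by
    refine normb_induct (C := fun w => w ∈ C → y ∈ C) (fun h => h) ?_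
    intro x w hxw _ ih hx
    exact ih (hC.up hx hxw)
  exact key x h hx

lemma spt_cl (hC : Part i C) {z : P} (hz : z ∈ C) : Spt C (cl z) := by
  intro x hx
  by_contra h
  rcases ExpC_cl_pos (z := z) (x := x) (Nat.pos_of_ne_zero h) with h | h
  · rw [h] at hx
    exact hx hz
  · exact hx (hC.up hz (mem_uc.1 h))

lemma cu_pos {x y : P} (h : 0 < cu x y) : y = x ∨ y ∈ dc x := by
  by_contra hcon
  rw [not_or] at hcon
  have := ExpD_cu_zero hcon.1 hcon.2
  omega

lemma spt_cu (hC : Part i C) {z : P} (hz : z ∈ C) (hl : lev z < i) : Spt C (cu z) := by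
  intro x hx
  by_contra h
  rcases cu_pos (x := z) (y := x) (Nat.pos_of_ne_zero h) with h | h
  · rw [h] at hx
    exact hx hz
  · exact hx (hC.dn hz hl (mem_dc.1 h))

lemma cl_up_zero (H : Gr P r) {z : P} (hz : lev z = i + 2) : ∀ x, lev x < i → cl z x = 0 := by
  intro x hx
  by_contra h
  rcases ExpC_cl_pos (z := z) (x := x) (Nat.pos_of_ne_zero h) with h | h
  · rw [h] at hx
    omega
  · have := lev_uc H h
    omega

lemma cu_low_zero (H : Gr P r) {z : P} (hz : lev z + 2 = i) : ∀ x, i < lev x → cu z x = 0 := by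
  intro x hx
  by_contra h
  rcases cu_pos (x := z) (y := x) (Nat.pos_of_ne_zero h) with h | h
  · rw [h] at hx
    omega
  · have := lev_dc H h
    omega

lemma core_cl {psi : P → P} {z : P} (H : Gr P r) (hz : lev z = i + 2) :
    IsCore i ∅ psi (cl z) := by
  intro x hx
  obtain ⟨h1, -, h2, -⟩ := mem_Rst.1 hx
  by_contra h
  rcases ExpC_cl_pos (z := z) (x := x) (Nat.pos_of_ne_zero h) with h | h
  · rw [mem_near, h] at h1
    omega
  · apply h2
    rw [mem_Tch]
    have := lev_uc H h
    exact Or.inl ⟨by omega, z, mem_uc.1 h, by rw [ExpC_cl_z]; exact one_pos⟩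

lemma core_cu {psi : P → P} {z : P} (H : Gr P r) (hz : lev z + 2 = i) :
    IsCore i ∅ psi (cu z) := by
  intro x hx
  obtain ⟨h1, -, h2, -⟩ := mem_Rst.1 hx
  by_contra h
  rcases cu_pos (x := z) (y := x) (Nat.pos_of_ne_zero h) with h | h
  · rw [mem_near, h] at h1
    omega
  · apply h2
    rw [mem_Tch]
    have := lev_dc H h
    exact Or.inr ⟨by omega, z, mem_dc.1 h, by rw [ExpD_cu_x]; exact one_pos⟩

lemma sum_cu (H : Gr P r) (x : P) : ∑ y, cu x y = (dc x).card + 1 := by
  have h1 := clb_sum_cl (toDual x)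
  rw [uc_od, Finset.card_map] at h1
  rw [← h1, ← ClD_sum (cu x), cu_od]

/-- THE BASE FORMULA -/
theorem base3 (H : Gr P r) (hi : 1 ≤ i) (hi2 : i + 1 ≤ r)
    (hg : ∀ m, i ≤ m + 1 → m ≤ i + 1 → Good P m) (hC : Part (i + 1) C) :
    dd ^ (st i C).card ∣ ∑ e ∈ (Dm i C).piAntidiag 3, tC i C e -
      (((ZL i C).card : A) * (xx ^ 3 * dd ^ ((st i C).card - 1)) +
        ((ZU i C).card : A) * (xi ^ 2 * dd ^ ((st i C).card - 1))) := by
  classical
  have hC' : Part i C := ⟨fun h1 h2 => hC.up h1 h2, fun h1 h2 h3 => hC.dn h1 (by omega) h3⟩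
  obtain ⟨psi, hM⟩ := good_mat H (hg i (by omega) (by omega))
  have h3 : ∀ z : P, lev z = i + 2 → up i z ≤ 3 := fun z hz =>
    up_le_three H (hg (i + 1) (by omega) (by omega)) hz
  have h3' : ∀ x : P, lev x + 2 = i → dn i x ≤ 3 := fun x hx =>
    LC_dn_le_three H (fun m hm => hg m (by omega) (by omega)) hx
  have hDC : Dm i C ⊆ C := fun x hx => (mem_Dm.1 hx).1
  have hD : ∀ x ∈ C, x ∈ near P i → x ∈ Dm i C := by
    intro x hx hn
    rw [mem_near] at hn
    refine mem_Dm.2 ⟨hx, fun h => ?_, fun h => ?_⟩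
    · have := (lev_PD h).1
      omega
    · have := (lev_PU h).1
      omega
  have hcls : ∀ e : P → ℕ, IsCore i ∅ psi e → Spt (Dm i C) e → ∑ x, e x ≤ 3 →
      Rk (st i C) 0 (Fe i e) ∨ (∃ z, lev z = i + 2 ∧ up i z = 3 ∧ e = cl z) ∨
      (∃ x, lev x + 2 = i ∧ dn i x = 3 ∧ e = cu x) := by
    intro e he hs hn
    rcases cl3 H hi hi2 hM h3 h3' (e := e) (fun z hz => hs z fun h => (mem_Dm.1 h).2.1 hz)
      (fun z hz => hs z fun h => (mem_Dm.1 h).2.2 hz) he hn with h | h
    · exact Or.inl (Rk_sub (st_sub i C) h)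
    · exact Or.inr h
  have h1 := core_part H hi hi2 hC hDC hD hM 3 (by
    intro e he hs hn
    rcases hcls e he hs (by omega) with h | ⟨z, hz, hz2, rfl⟩ | ⟨z, hz, hz2, rfl⟩
    · exact h
    · rw [clb_sum_cl, card_uc_of_up H hz hz2] at hn
      omega
    · rw [sum_cu H, card_dc_of_dn H hz hz2] at hn
      omega)
  set F := (Dm i C).piAntidiag 3 |>.filter
    (fun e => IsCore i ∅ psi e ∧ ¬ Rk (st i C) 0 (Fe i e)) with hF
  set T := (ZL i C).image cl ∪ (ZU i C).image cu with hT
  have hFT : F ⊆ T := by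
    intro e he
    rw [hF, mem_filter, mem_piA] at he
    obtain ⟨⟨h4, h5⟩, h6, h7⟩ := he
    rw [hT, mem_union, mem_image, mem_image]
    rcases hcls e h6 h5 (by omega) with h | ⟨z, hz, hz2, rfl⟩ | ⟨z, hz, hz2, rfl⟩
    · exact absurd h h7
    · left
      refine ⟨z, mem_ZL.2 ⟨?_, hz, hz2⟩, rfl⟩
      by_contra hzC
      have := h5 z fun h => hzC (hDC h)
      rw [ExpC_cl_z] at this
      omega
    · right
      refine ⟨z, mem_ZU.2 ⟨?_, hz, hz2⟩, rfl⟩
      by_contra hzC
      have := h5 z fun h => hzC (hDC h)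
      rw [ExpD_cu_x] at this
      omega
  have hTF : ∀ e ∈ T \ F, dd ^ (st i C).card ∣ tC i C e := by
    intro e he
    rw [mem_sdiff, hT, mem_union, mem_image, mem_image, hF, mem_filter, mem_piA] at he
    obtain ⟨h4, h5⟩ := he
    have key : ∑ x, e x = 3 ∧ Spt (Dm i C) e ∧ IsCore i ∅ psi e ∧ Spt C e := by
      rcases h4 with ⟨z, hz, rfl⟩ | ⟨z, hz, rfl⟩
      · rw [mem_ZL] at hz
        refine ⟨by rw [clb_sum_cl, card_uc_of_up H hz.2.1 hz.2.2], ?_,
          core_cl H hz.2.1, spt_cl hC' hz.1⟩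
        intro x hx
        by_contra h
        apply hx
        have hxC : x ∈ C := by
          by_contra h6
          exact h (spt_cl hC' hz.1 x h6)
        refine mem_Dm.2 ⟨hxC, fun h6 => ?_, fun h6 => ?_⟩
        · have h7 := lev_PD h6
          rcases ExpC_cl_pos (z := z) (x := x) (Nat.pos_of_ne_zero h) with h8 | h8
          · rw [h8] at h7
            have := card_uc_of_up H hz.2.1 hz.2.2
            omega
          · have := lev_uc H h8
            omega
        · have h7 := lev_PU h6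
          exact h (cl_up_zero H hz.2.1 x (by omega))
      · rw [mem_ZU] at hz
        refine ⟨by rw [sum_cu H, card_dc_of_dn H hz.2.1 hz.2.2], ?_,
          core_cu H hz.2.1, spt_cu hC' hz.1 (by omega)⟩
        intro x hx
        by_contra h
        apply hx
        have hxC : x ∈ C := by
          by_contra h6
          exact h (spt_cu hC' hz.1 (by omega) x h6)
        refine mem_Dm.2 ⟨hxC, fun h6 => ?_, fun h6 => ?_⟩
        · have h7 := lev_PD h6
          exact h (cu_low_zero H hz.2.1 x (by omega))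
        · have h7 := lev_PU h6
          rcases cu_pos (x := z) (y := x) (Nat.pos_of_ne_zero h) with h8 | h8
          · rw [h8] at h7
            have := card_dc_of_dn H hz.2.1 hz.2.2
            omega
          · have := lev_dc H h8
            omega
    have h6 : Rk (st i C) 0 (Fe i e) := by
      by_contra h7
      exact h5 ⟨⟨key.1, key.2.1⟩, key.2.2.1, h7⟩
    rw [tC_IV H hC' key.2.2.2]
    have := Rk_IV h6
    simpa using this
  have hsum : ∑ e ∈ T, tC i C e = ∑ z ∈ ZL i C, tC i C (cl z) + ∑ z ∈ ZU i C, tC i C (cu z) := by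
    rw [hT, Finset.sum_union, Finset.sum_image, Finset.sum_image]
    · intro z hz z' hz' h
      rw [mem_coe, mem_ZU] at hz hz'
      have h4 : cu z z' = 1 := by rw [h, ExpD_cu_x]
      rcases cu_pos (x := z) (y := z') (by omega) with h5 | h5
      · exact h5.symm
      · have := lev_dc H h5
        omega
    · intro z hz z' hz' h
      rw [mem_coe, mem_ZL] at hz hz'
      have h4 : cl z z' = 1 := by rw [h, ExpC_cl_z]
      rcases ExpC_cl_pos (z := z) (x := z') (by omega) with h5 | h5
      · exact h5.symm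
      · have := lev_uc H h5
        omega
    · rw [Finset.disjoint_left]
      intro e he he'
      rw [mem_image] at he he'
      obtain ⟨z, hz, rfl⟩ := he
      obtain ⟨z', hz', h⟩ := he'
      rw [mem_ZL] at hz
      rw [mem_ZU] at hz'
      have h4 : cl z z' = 1 := by rw [← h, ExpD_cu_x]
      have h5 := cl_up_zero H hz.2.1 z' (by omega)
      omega
  have hL : ∀ z ∈ ZL i C, tC i C (cl z) = xx ^ 3 * dd ^ ((st i C).card - 1) := by
    intro z hz
    rw [mem_ZL] at hz
    have h4 : (sts i z).card = 3 := by rw [card_sts]; exact hz.2.2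
    have h5 : (sts i z).card ≤ (st i C).card := by
      apply card_le_card
      intro v hv
      rw [mem_sts] at hv
      exact mem_st.2 ⟨part_up hC' hz.1 hv.2.le, hv.1⟩
    rw [(cl_dat H hz.2.1).tC H (by omega) (cl_up_zero H hz.2.1), h4,
      card_uc_of_up H hz.2.1 hz.2.2, zero_add]
    congr 2
    omega
  have hU : ∀ z ∈ ZU i C, tC i C (cu z) = xi ^ 2 * dd ^ ((st i C).card - 1) := by
    intro z hz
    rw [mem_ZU] at hz
    have h4 : (stD i z).card = 3 := by rw [card_stD]; exact hz.2.2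
    have h5 : (stD i z).card ≤ (st i C).card := by
      apply card_le_card
      intro v hv
      rw [mem_stD_iff H hz.2.1] at hv
      obtain ⟨u, hu, hv⟩ := hv
      have l1 := lev_dc H hu
      have l2 := lev_dc H hv
      exact mem_st.2 ⟨hC'.dn (hC'.dn hz.1 (by omega) (mem_dc.1 hu)) (by omega) (mem_dc.1 hv),
        by omega⟩
    rw [(cu_dat H (by omega) hz.2.1).tC H (cu_low_zero H hz.2.1), h4,
      card_dc_of_dn H hz.2.1 hz.2.2, zero_add]
    congr 2
    omega
  have h8 : ∑ e ∈ T, tC i C e = ∑ e ∈ F, tC i C e + ∑ e ∈ T \ F, tC i C e := by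
    rw [add_comm, Finset.sum_sdiff hFT]
  rw [hsum, Finset.sum_congr rfl hL, Finset.sum_congr rfl hU, Finset.sum_const, Finset.sum_const,
    nsmul_eq_mul, nsmul_eq_mul] at h8
  rw [h8]
  have h9 := Finset.dvd_sum hTF
  have h10 := dvd_sub h1 h9
  convert h10 using 1
  ring

end part

end Pool.Agent.GaussPoset.Win

end
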