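import Mathlib
import Pool.Agent.W_448zz_h61.Ns
import Pool.Agent.W_448zz_h61.M025
import Pool.Agent.W_448zz_h61.M067
import Pool.Agent.W_448zz_h61.M094
import Pool.Agent.W_448zz_h61.M095

/-! From `Pool.Agent.W_448i2_h61.TD` -/

section

/-!
(I2) and the two coefficient identities (G2 S2, rows 431 and 452) for the components of `P_(≤ l)`
at the windows `i` with `l - i ≥ 3`.
-/

namespace Pool.Agent.GaussPoset.Win.I2

set_option linter.unusedSectionVars false

open Finset

universe u

variable {P : Type u} [Fintype P] [PartialOrder P] [DecidableEq P] {r i l : ℕ}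

variable {ι : Type*} [DecidableEq ι] {κ : P → ι}

/-- number of sites of the component `a` -/
noncomputable def bb (i l : ℕ) (κ : P → ι) (a : ι) : ℕ := (st i (cext l κ a)).card

/-- window series of the component `a` -/
noncomputable def VV (i l : ℕ) (κ : P → ι) (a : ι) : PowerSeries A := ZS i (cext l κ a)

lemma eps_VV (H : Gr P r) (hir : i ≤ r) (a : ι) : eps (bb i l κ a) (VV i l κ a) = 1 := by
  unfold eps VV bb
  rw [coeff_ZS, ZC_zero H hir]
  unfold dd
  rw [PowerSeries.coeff_X_pow, if_pos rfl]

lemma eps_sq (H : Gr P r) (hir : i ≤ r) (a : ι) : eps (bb i l κ a) (VV i l κ a) ^ 2 = 1 := by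
  rw [eps_VV H hir, one_pow]

lemma tot_dvd (H : Gr P r) (hir : i ≤ r) (hil : i ≤ l) (hκ : Split l κ) {n : ℕ}
    (hn : n ≤ 2 * (l - i)) :
    dd ^ (∑ a ∈ univ.image κ, bb i l κ a) ∣
      PowerSeries.coeff n (∏ a ∈ univ.image κ, VV i l κ a) :=
  dvd_prod H hir hil hκ hn

/-- total second order identity at `q^(2e)` -/
theorem tot_second (H : Gr P r) (hir : i ≤ r) (hil : i ≤ l) (hκ : Split l κ) {e : ℕ} (he : 1 ≤ e)
    (hel : e ≤ l - i)
    (h : ∀ a ∈ univ.image κ, Prof e (2 * e) (bb i l κ a) (VV i l κ a)) :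
    ∑ a ∈ univ.image κ, ((al e (bb i l κ a) (VV i l κ a)) ^ 2 -
      2 * be (2 * e) (bb i l κ a) (VV i l κ a)) = 0 := by
  have h1 := sum_second (univ.image κ) he (bb i l κ) (VV i l κ) h (fun a _ => eps_sq H hir a)
    (tot_dvd H hir hil hκ (by omega)) (tot_dvd H hir hil hκ (by omega))
  simpa only [eps_VV H hir, one_mul] using h1

/-- total second order identity at `q^m`, `e < m < 2 e` -/
theorem tot_odd (H : Gr P r) (hir : i ≤ r) (hil : i ≤ l) (hκ : Split l κ) {e m : ℕ} (he : 1 ≤ e)
    (hem : e < m) (hm : m < 2 * e) (hml : m ≤ 2 * (l - i))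
    (h : ∀ a ∈ univ.image κ, Prof e m (bb i l κ a) (VV i l κ a)) :
    ∑ a ∈ univ.image κ, be m (bb i l κ a) (VV i l κ a) = 0 := by
  have h1 := sum_odd (univ.image κ) he hem hm (bb i l κ) (VV i l κ) h (fun a _ => eps_sq H hir a)
    (tot_dvd H hir hil hκ hml)
  simpa only [eps_VV H hir, one_mul] using h1

/-- the exact zero: narrow components have no second order coefficient -/
lemma be_small (H : Gr P r) (hir : i ≤ r) (hil : i ≤ l) (hκ : Split l κ) (a : ι)
    (hb : bb i l κ a ≤ 2) (m : ℕ) : be m (bb i l κ a) (VV i l κ a) = 0 := by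
  have key : 1 ≤ bb i l κ a → dd ∣ PowerSeries.coeff m (VV i l κ a) := by
    intro h
    unfold VV
    rw [coeff_ZS]
    apply dd_dvd_ZC H (part_cext H hil hκ a)
    rw [← card_pos]
    exact h
  unfold be
  rcases Nat.eq_zero_or_pos (bb i l κ a) with h | h
  · rw [h]
    apply coeff_zero_of_dvd (a := 2)
    · exact Dvd.intro _ rfl
    · omega
  · apply coeff_zero_of_dvd (a := 3)
    · rw [show (3 : ℕ) = 2 + 1 from rfl, pow_add, pow_one]
      exact mul_dvd_mul_left _ (key h)
    · omega

lemma dd_cancel {b : ℕ} {F : A} (h : dd ^ (b + 1) ∣ dd * F) : dd ^ b ∣ F := by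
  rw [pow_succ'] at h
  exact (mul_dvd_mul_iff_left (by unfold dd; exact PowerSeries.X_ne_zero)).1 h

lemma dvd_succ_of_coeff {b : ℕ} {F : A} (h : dd ^ b ∣ F) (h0 : PowerSeries.coeff b F = 0) :
    dd ^ (b + 1) ∣ F := by
  apply dvd_of_coeff
  intro k hk
  rcases Nat.lt_or_ge k b with h1 | h1
  · exact coeff_zero_of_dvd h h1
  · have : k = b := by omega
    rw [this]
    exact h0

lemma be_zero_iff {m b : ℕ} {V : PowerSeries A} (h : dd ^ b ∣ dd ^ 2 * PowerSeries.coeff m V) :
    be m b V = 0 → dd ^ b ∣ dd * PowerSeries.coeff m V := by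
  intro h0
  have h1 := dvd_succ_of_coeff h h0
  rw [pow_two, mul_assoc] at h1
  exact dd_cancel h1

lemma al_zero {e b : ℕ} {V : PowerSeries A} (h : dd ^ b ∣ dd * PowerSeries.coeff e V)
    (h0 : al e b V = 0) : dd ^ b ∣ PowerSeries.coeff e V := by
  have h1 := dvd_succ_of_coeff h h0
  exact dd_cancel h1

lemma pow_sub_dvd {b k : ℕ} {F : A} (h : dd ^ (b - k) ∣ F) : dd ^ b ∣ dd ^ k * F := by
  refine (pow_dvd_pow dd (show b ≤ k + (b - k) by omega)).trans ?_
  rw [pow_add]
  exact mul_dvd_mul_left _ h

/-- the profile given by (I2) -/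
theorem prof35 (H : Gr P r) (hir : i ≤ r) (hil : i + 2 ≤ l)
    (hg : ∀ m, i ≤ m + 1 → m ≤ i + 1 → Good P m) (hκ : Split l κ) {a : ι}
    (ha : a ∈ univ.image κ) : Prof 3 5 (bb i l κ a) (VV i l κ a) := by
  have h0 : PowerSeries.coeff 0 (VV i l κ a) = dd ^ bb i l κ a := by
    unfold VV bb
    rw [coeff_ZS, ZC_zero H hir]
  have h1 : ∀ n, 1 ≤ n → dd ^ (bb i l κ a + 1 - (n + 1) / 2) ∣ PowerSeries.coeff n (VV i l κ a) := by
    intro n hn
    have := indiv_two H hir hil hg hκ ha hn
    unfold VV bb
    rw [coeff_ZS]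
    exact this
  refine ⟨?_, ?_, ?_⟩
  · intro n hn
    rcases Nat.eq_zero_or_pos n with rfl | h
    · rw [h0]
    · have := h1 n h
      rwa [show (n + 1) / 2 = 1 by omega, Nat.add_sub_cancel] at this
  · intro n hn
    rcases Nat.eq_zero_or_pos n with rfl | h
    · rw [h0]
      exact Dvd.intro_left _ rfl
    · have h2 := (pow_dvd_pow dd (show bb i l κ a - 1 ≤ bb i l κ a + 1 - (n + 1) / 2 by
        omega)).trans (h1 n h)
      have := pow_sub_dvd h2
      rwa [pow_one] at this
  · have h2 := (pow_dvd_pow dd (show bb i l κ a - 2 ≤ bb i l κ a + 1 - (5 + 1) / 2 by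
        omega)).trans (h1 5 (by omega))
    exact pow_sub_dvd h2

/-- the profile given by (I2) and the vanishing of the coefficient (5,2) -/
theorem prof36 (H : Gr P r) (hir : i ≤ r) (hil : i + 2 ≤ l)
    (hg : ∀ m, i ≤ m + 1 → m ≤ i + 1 → Good P m) (hκ : Split l κ) {a : ι}
    (ha : a ∈ univ.image κ) (h5 : be 5 (bb i l κ a) (VV i l κ a) = 0) :
    Prof 3 6 (bb i l κ a) (VV i l κ a) := by
  have h := prof35 H hir hil hg hκ ha
  refine ⟨h.lo, ?_, ?_⟩
  · intro n hn
    rcases Nat.lt_or_ge n 5 with h1 | h1
    · exact h.mid n h1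
    · have h2 : n = 5 := by omega
      rw [h2]
      exact be_zero_iff h.top h5
  · apply pow_sub_dvd
    have := indiv_two H hir hil hg hκ ha (n := 6) (by omega)
    unfold VV bb
    rw [coeff_ZS]
    exact (pow_dvd_pow dd (by omega)).trans this

/-- (5,2) vanishes for every component if it is nowhere positive -/
theorem be5_zero (H : Gr P r) (hir : i ≤ r) (hil : i + 3 ≤ l)
    (hg : ∀ m, i ≤ m + 1 → m ≤ i + 1 → Good P m) (hκ : Split l κ)
    (hneg : ∀ a ∈ univ.image κ, 3 ≤ bb i l κ a → be 5 (bb i l κ a) (VV i l κ a) ≤ 0) :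
    ∀ a ∈ univ.image κ, be 5 (bb i l κ a) (VV i l κ a) = 0 := by
  have h1 := tot_odd H hir (by omega) hκ (e := 3) (m := 5) (by omega) (by omega) (by omega)
    (by omega) (fun a ha => prof35 H hir (by omega) hg hκ ha)
  have h2 : ∀ a ∈ univ.image κ, be 5 (bb i l κ a) (VV i l κ a) ≤ 0 := by
    intro a ha
    rcases Nat.lt_or_ge (bb i l κ a) 3 with h | h
    · rw [be_small H hir (by omega) hκ a (by omega)]
    · exact hneg a ha h
  exact (Finset.sum_eq_zero_iff_of_nonpos h2).1 h1

/-- (3,1) and (6,2): if `2 (6,2) ≤ (3,1)^2` for every component with at least three sites then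
equality holds for every component -/
theorem al3_sq (H : Gr P r) (hir : i ≤ r) (hil : i + 3 ≤ l)
    (hg : ∀ m, i ≤ m + 1 → m ≤ i + 1 → Good P m) (hκ : Split l κ)
    (h5 : ∀ a ∈ univ.image κ, be 5 (bb i l κ a) (VV i l κ a) = 0)
    (hneg : ∀ a ∈ univ.image κ, 3 ≤ bb i l κ a →
      2 * be 6 (bb i l κ a) (VV i l κ a) ≤ (al 3 (bb i l κ a) (VV i l κ a)) ^ 2) :
    ∀ a ∈ univ.image κ,
      (al 3 (bb i l κ a) (VV i l κ a)) ^ 2 = 2 * be 6 (bb i l κ a) (VV i l κ a) := by
  have h1 := tot_second H hir (by omega) hκ (e := 3) (by omega) (by omega)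
    (fun a ha => prof36 H hir (by omega) hg hκ ha (h5 a ha))
  have h2 : ∀ a ∈ univ.image κ, 0 ≤ (al 3 (bb i l κ a) (VV i l κ a)) ^ 2 -
      2 * be (2 * 3) (bb i l κ a) (VV i l κ a) := by
    intro a ha
    rcases Nat.lt_or_ge (bb i l κ a) 3 with h | h
    · rw [be_small H hir (by omega) hκ a (by omega)]
      have := sq_nonneg (al 3 (bb i l κ a) (VV i l κ a))
      linarith
    · have := hneg a ha h
      linarith
  intro a ha
  have h3 := (Finset.sum_eq_zero_iff_of_nonneg h2).1 h1 a ha
  linarith

/-- the additional divisibilities needed by `prof47`, `prof48` hold for at most three sites -/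
lemma dvd_small (H : Gr P r) (hir : i ≤ r) (hil : i ≤ l) (hκ : Split l κ) (a : ι)
    (hb : bb i l κ a ≤ 3) (m : ℕ) :
    dd ^ bb i l κ a ∣ dd ^ 2 * PowerSeries.coeff m (VV i l κ a) := by
  rcases Nat.eq_zero_or_pos (bb i l κ a) with h | h
  · rw [h, pow_zero]
    exact one_dvd _
  · have key : dd ∣ PowerSeries.coeff m (VV i l κ a) := by
      unfold VV
      rw [coeff_ZS]
      apply dd_dvd_ZC H (part_cext H hil hκ a)
      rw [← card_pos]
      exact h
    refine (pow_dvd_pow dd (show bb i l κ a ≤ 2 + 1 by omega)).trans ?_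
    rw [pow_add, pow_one]
    exact mul_dvd_mul_left _ key

end Pool.Agent.GaussPoset.Win.I2

end

/-! From `Pool.Agent.W_448so_h17.CrC` -/

section

/-!
S9, cross part: the classification (`cross_core`) and the sums (`rest5`, `rest6`).
-/

namespace Pool.Agent.GaussPoset.Win.So

set_option linter.unusedSectionVars false

open Finset

universe u

variable {P : Type u} [Fintype P] [PartialOrder P] [DecidableEq P] {r i l : ℕ}

variable {ι : Type*} [DecidableEq ι] {κ : P → ι} {e : P → ℕ} {psi : P → P}

variable {v p p' : P}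

/-- both covers of the join have one cover: a free element below the sites of `y` -/
lemma free_one (H : Gr P r) (hκ : Split (i + 2) κ) (D : CrV i κ v p p') (hA : AdmL i e)
    (hv : 1 ≤ e v) {y : P} (hy : uc p = {y})
    (hs : ∑ x, e x ≤ (CrV.T v p p').card + 1)
    (hk : ∀ x ∈ uc y, e x < e y) :
    ∃ f, (f = y ∨ f = p) ∧ i < lev f ∧ ¬ FD e f ∧ ¬ GU e f := by
  have hpos := D.pos_T H hA hv
  have hyp : y ∈ uc p := by rw [hy]; exact mem_singleton_self y
  have ly := lev_uc H hyp
  have lp := D.lp H
  by_cases hf : FD e y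
  · obtain ⟨z, hz, hlt⟩ := hf
    have lz := lev_uc H (mem_uc.2 hz)
    have h1 := ex1 hpos hs z
    have hyT : y ∈ CrV.T v p p' := CrV.mem_T.2 (Or.inr (Or.inr (Or.inr (mem_union_left _ hyp))))
    have h2 := hpos y hyT
    have hzT : z ∈ CrV.T v p p' := by
      by_contra h
      rw [if_neg h] at h1
      omega
    have h3 : z = p := by
      rcases D.T_two H hzT (by omega) with h | h
      · exact h
      · exfalso
        subst h
        exact disjoint_left.1 (D.disj hκ H) hyp (mem_uc.2 hz)
    subst h3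
    refine ⟨z, Or.inr rfl, by omega, ?_, ?_⟩
    · rintro ⟨z', hz', hlt'⟩
      have h4 := ex1 hpos hs z'
      split_ifs at h4 <;> omega
    · rintro ⟨y', hy', hle⟩
      have h5 := mem_uc.2 hy'
      rw [hy, mem_singleton] at h5
      subst h5
      omega
  · refine ⟨y, Or.inl rfl, by omega, hf, ?_⟩
    rintro ⟨x, hx, hle⟩
    have := hk x (mem_uc.2 hx)
    omega

/-- the near lower elements outside the cone have label zero -/
lemma near_zero (H : Gr P r) (D : CrV i κ v p p') (hA : AdmL i e) (hv : 1 ≤ e v)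
    (hM : Mat P i ∅ psi) (hc : IsCore i ∅ psi e)
    (hs : ∑ x, e x ≤ (CrV.T v p p').card + 1) {w : P} (hw : lev w = i + 1)
    (hwT : w ∉ CrV.T v p p') : e w = 0 := by
  by_contra h0
  have hpos := D.pos_T H hA hv
  have key : ∀ x, x ≠ w → 0 < e x → x ∈ CrV.T v p p' := by
    intro x hx hx0
    by_contra h1
    have h2 := ex2 hpos hs hx
    rw [if_neg h1, if_neg hwT] at h2
    omega
  have h1 : w ∉ Rst i ∅ psi e := fun h => h0 (hc w h)
  rw [mem_Rst] at h1
  have h2 : w ∈ near P i := mem_near.2 (Or.inl hw)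
  have h3 : w ∉ Tch i e := by
    rw [mem_Tch]
    rintro (⟨-, z, hz, hz0⟩ | ⟨h4, -⟩)
    · have lz := lev_uc H (mem_uc.2 hz)
      have hzT := key z (by rintro rfl; omega) hz0
      apply hwT
      rw [CrV.mem_T, mem_union]
      rcases D.T_two H hzT (by omega) with h5 | h5
      · subst h5
        exact Or.inr (Or.inr (Or.inr (Or.inl (mem_uc.2 hz))))
      · subst h5
        exact Or.inr (Or.inr (Or.inr (Or.inr (mem_uc.2 hz))))
    · omega
  apply h1
  refine ⟨h2, notMem_empty w, h3, ?_⟩
  rintro ⟨h4, h5⟩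
  have h6 : w ∈ dbL P i := by
    rcases mem_union.1 h4 with h | h
    · exact h
    · have := (mem_dbU.1 h).1
      omega
  have h7 := (mem_dbU.1 (hM.low w h6 (notMem_empty w)).1).1
  rw [mem_Tch] at h5
  rcases h5 with ⟨h8, -⟩ | ⟨-, y, hy, hy0⟩
  · omega
  · have ly := lev_uc H (mem_uc.2 hy)
    have := D.T_lev H (key y (by rintro rfl; omega) hy0)
    omega

/-- the upper part is zero, or the configuration is not admissible, or the two sides meet -/
lemma upper_zero (H : Gr P r) (hir : i ≤ r) (D : CrV i κ v p p') (hA : AdmL i e)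
    (hB : AdmU i e) (hd : Disjoint (AL i e) (AU i e)) (hv : 1 ≤ e v)
    (hM : Mat P i ∅ psi) (hc : IsCore i ∅ psi e)
    (hs : ∑ x, e x ≤ (CrV.T v p p').card + 1) {u : P} (hu : lev u < i) : e u = 0 := by
  by_contra h0
  have hpos := D.pos_T H hA hv
  have huT : u ∉ CrV.T v p p' := by
    intro h
    have := D.T_lev H h
    omega
  have key : ∀ x, x ≠ u → 0 < e x → x ∈ CrV.T v p p' := by
    intro x hx hx0
    by_contra h1
    have h2 := ex2 hpos hs hx
    rw [if_neg h1, if_neg huT] at h2
    omega
  rcases Nat.lt_or_ge (lev u + 1) i with h1 | h1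
  · obtain ⟨y, hy⟩ := dc_nonempty H (x := u) (by omega)
    have ly := lev_dc H hy
    have h2 := pos_dn H hir hB (by omega) (by omega : 0 < e u) (mem_dc.1 hy)
    have := D.T_lev H (key y (by rintro rfl; omega) h2)
    omega
  · have h2 : u ∉ Rst i ∅ psi e := fun h => h0 (hc u h)
    rw [mem_Rst] at h2
    have h3 : u ∉ Tch i e := by
      rw [mem_Tch]
      rintro (⟨h4, -⟩ | ⟨-, y, hy, hy0⟩)
      · omega
      · have ly := lev_uc H (mem_uc.2 hy)
        have := D.T_lev H (key y (by rintro rfl; omega) hy0)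
        omega
    apply h2
    refine ⟨mem_near.2 (Or.inr (by omega)), notMem_empty u, h3, ?_⟩
    rintro ⟨h4, h5⟩
    have h6 : u ∈ dbU P i := by
      rcases mem_union.1 h4 with h | h
      · have := (mem_dbL.1 h).1
        omega
      · exact h
    obtain ⟨h7, h8⟩ := hM.upp u h6 (notMem_empty u)
    have h9 := (mem_dbL.1 h7)
    rw [mem_Tch] at h5
    rcases h5 with ⟨-, z, hz, hz0⟩ | ⟨h10, -⟩
    · have lz := lev_uc H (mem_uc.2 hz)
      have hzT := key z (by rintro rfl; omega) hz0
      have h11 : psi u ∈ CrV.T v p p' := by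
        rw [CrV.mem_T, mem_union]
        rcases D.T_two H hzT (by omega) with h5 | h5
        · rw [h5] at hz
          exact Or.inr (Or.inr (Or.inr (Or.inl (mem_uc.2 hz))))
        · rw [h5] at hz
          exact Or.inr (Or.inr (Or.inr (Or.inr (mem_uc.2 hz))))
      have h12 := hpos _ h11
      obtain ⟨x, hx⟩ : (uc (psi u)).Nonempty := by
        rw [← Finset.card_pos]
        omega
      have lx := lev_uc H hx
      have hx0 : e x = 0 := by
        by_contra h13
        have := D.T_lev H (key x (by rintro rfl; omega) (by omega))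
        omega
      have hxd : x ∈ dc u := by rw [← h8]; exact hx
      have hxA : x ∈ AL i e := by
        rw [NormD_mem_AL]
        exact ⟨by omega, psi u, mem_uc.1 hx, by omega⟩
      have hxB : x ∈ AU i e := by
        rw [NormD_mem_AU]
        exact ⟨by omega, u, mem_dc.1 hxd, by omega⟩
      exact disjoint_left.1 hd hxA hxB
    · omega

open Classical in
/-- the sites killed by `y` -/
noncomputable def Kl (e : P → ℕ) (y : P) : Finset P := (uc y).filter (fun x => e x < e y)

/-- the case of two single-up covers -/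
lemma cross_one (H : Gr P r) (hir : i ≤ r) (hκ : Split (i + 2) κ) (D : CrV i κ v p p')
    (hA : AdmL i e) (hB : AdmU i e) (hd : Disjoint (AL i e) (AU i e)) (hv : 1 ≤ e v)
    (hM : Mat P i ∅ psi) (hc : IsCore i ∅ psi e)
    {y y' : P} (hy : uc p = {y}) (hy' : uc p' = {y'}) (hn : ∑ x, e x ≤ 6)
    (hZ : up i v ≤ 3) : (AL i e).card + (AU i e).card ≤ pL i e + pU i e + 1 := by
  classical
  have hcard := D.card_T H hκ
  rw [hy, hy', card_singleton, card_singleton] at hcard
  have hs : ∑ x, e x ≤ (CrV.T v p p').card + 1 := by omega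
  have hpos := D.pos_T H hA hv
  have hyp : y ∈ uc p := by rw [hy]; exact mem_singleton_self y
  have hyp' : y' ∈ uc p' := by rw [hy']; exact mem_singleton_self y'
  have ly := lev_uc H hyp
  have ly' := lev_uc H hyp'
  have lp := D.lp H
  have lp' := D.lp' H
  have hyT : y ∈ CrV.T v p p' := CrV.mem_T.2 (Or.inr (Or.inr (Or.inr (mem_union_left _ hyp))))
  have hyT' : y' ∈ CrV.T v p p' := CrV.mem_T.2 (Or.inr (Or.inr (Or.inr (mem_union_right _ hyp'))))
  obtain ⟨-, hAU, -, hpU⟩ := upp_none H hir (e := e)
    (fun u hu => upper_zero H hir D hA hB hd hv hM hc hs hu)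
  have hAL : AL i e ⊆ Kl e y ∪ Kl e y' := by
    intro x hx
    rw [NormD_mem_AL] at hx
    obtain ⟨h1, w, hw, hlt⟩ := hx
    have lw := lev_uc H (mem_uc.2 hw)
    have hwT : w ∈ CrV.T v p p' := by
      by_contra h
      have := near_zero H D hA hv hM hc hs (by omega) h
      omega
    have h2 : w = y ∨ w = y' := by
      rw [CrV.mem_T, mem_union, hy, hy', mem_singleton, mem_singleton] at hwT
      rcases hwT with h | h | h | h
      · exfalso
        rw [h] at lw
        have := D.lv
        omega
      · exfalso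
        rw [h] at lw
        omega
      · exfalso
        rw [h] at lw
        omega
      · exact h
    rw [mem_union]
    unfold Kl
    rw [mem_filter, mem_filter]
    rcases h2 with rfl | rfl
    · exact Or.inl ⟨mem_uc.2 hw, hlt⟩
    · exact Or.inr ⟨mem_uc.2 hw, hlt⟩
  have hALc : (AL i e).card ≤ (Kl e y).card + (Kl e y').card :=
    (card_le_card hAL).trans (card_union_le _ _)
  -- the number of sites
  have hsit : (uc y).card + (uc y').card ≤ 3 := by
    refine le_trans (le_of_eq ?_) hZ
    rw [up_eq, ← card_union_of_disjoint]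
    · congr 1
      ext x
      rw [mem_filter, mem_lv, D.mem0 H, mem_union, hy, hy']
      constructor
      · rintro (h | h)
        · exact ⟨y, by simp, h⟩
        · exact ⟨y', by simp, h⟩
      · rintro ⟨w, hw, hx⟩
        rw [mem_union, mem_singleton, mem_singleton] at hw
        rcases hw with rfl | rfl
        · exact Or.inl hx
        · exact Or.inr hx
    · rw [disjoint_left]
      intro x hx hx'
      exact D.ne ((D.lab2 hκ H hyp hx).symm.trans (D.symm.lab2 hκ H hyp' hx'))
  have hKle : ∀ w, (Kl e w).card ≤ (uc w).card := fun w => card_le_card (filter_subset _ _)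
  have hTsymm : CrV.T v p' p = CrV.T v p p' := by
    ext x
    rw [D.T_iff H, D.symm.T_iff H]
  have hne : y ≠ p' := by rintro rfl; omega
  have hne2 : y' ≠ p := by rintro rfl; omega
  have hne3 : y ≠ y' := by
    rintro rfl
    exact disjoint_left.1 (D.disj hκ H) hyp hyp'
  have hne4 : p ≠ p' := fun h => D.ne (by rw [h])
  rw [hAU, hpU, card_empty]
  -- a site with a label
  have key : ∀ {q q' w w' : P}, CrV i κ v q q' → uc q = {w} → uc q' = {w'} →
      CrV.T v q q' = CrV.T v p p' → (uc w).card + (uc w').card ≤ 3 →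
      (AL i e).card ≤ (Kl e w).card + (Kl e w').card → w ≠ w' →
      (∃ x ∈ uc w, e w ≤ e x) → (AL i e).card ≤ pL i e + 1 := by
    intro q q' w w' E hw hw' hT hs3 hAL3 hww ⟨x, hx, hxe⟩
    have hwq : w ∈ uc q := by rw [hw]; exact mem_singleton_self w
    have hwq' : w' ∈ uc q' := by rw [hw']; exact mem_singleton_self w'
    have lw := lev_uc H hwq
    have lw' := lev_uc H hwq'
    have lq := E.lp H
    have lq' := E.lp' H
    have lx := lev_uc H hx
    have hwT : w ∈ CrV.T v p p' := by
      rw [← hT]
      exact CrV.mem_T.2 (Or.inr (Or.inr (Or.inr (mem_union_left _ hwq))))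
    have hwT' : w' ∈ CrV.T v p p' := by
      rw [← hT]
      exact CrV.mem_T.2 (Or.inr (Or.inr (Or.inr (mem_union_right _ hwq'))))
    have h1 := hpos w hwT
    have h1' := hpos w' hwT'
    have hxT : x ∉ CrV.T v p p' := by
      intro h
      have := D.T_lev H h
      omega
    have h2 : ∀ z ∈ uc w', e z < e w' := by
      intro z hz
      have lz := lev_uc H hz
      have hzT : z ∉ CrV.T v p p' := by
        intro h
        have := D.T_lev H h
        omega
      have hzx : z ≠ x := by
        rintro rfl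
        exact E.ne ((E.lab2 hκ H hwq hx).symm.trans (E.symm.lab2 hκ H hwq' hz))
      have h3 := ex2 hpos hs hzx
      rw [if_neg hzT, if_neg hxT] at h3
      omega
    obtain ⟨f, -, hf⟩ := free_one H hκ E.symm hA hv hw' (by
      rw [show CrV.T v q' q = CrV.T v p p' from by
        rw [← hT]
        ext z
        rw [E.T_iff H, E.symm.T_iff H]]
      exact hs) h2
    have h4 : 1 ≤ pL i e := by
      have := pL_ge (e := e) (i := i) (T := {f}) (by
        intro z hz
        rw [mem_singleton] at hz
        subst hz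
        exact hf)
      rwa [card_singleton] at this
    have h5 : (Kl e w).card + 1 ≤ (uc w).card := by
      have h6 : Kl e w ⊂ uc w := by
        refine ⟨filter_subset _ _, fun h => ?_⟩
        have := h hx
        unfold Kl at this
        rw [mem_filter] at this
        omega
      exact card_lt_card h6
    have h7 := hKle w'
    omega
  by_cases c1 : ∃ x ∈ uc y, e y ≤ e x
  · have := key D hy hy' rfl hsit hALc hne3 c1
    omega
  · by_cases c2 : ∃ x ∈ uc y', e y' ≤ e x
    · have := key D.symm hy' hy hTsymm (by omega) (by omega) hne3.symm c2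
      omega
    · push Not at c1 c2
      obtain ⟨f, hf1, hf⟩ := free_one H hκ D hA hv hy hs c1
      obtain ⟨f', hf1', hf'⟩ := free_one H hκ D.symm hA hv hy' (by rw [hTsymm]; exact hs) c2
      have hff : f ≠ f' := by
        rcases hf1 with rfl | rfl <;> rcases hf1' with rfl | rfl
        · exact hne3
        · exact hne
        · exact hne2.symm
        · exact hne4
      have h4 : 2 ≤ pL i e := by
        have := pL_ge (e := e) (i := i) (T := {f, f'}) (by
          intro z hz
          rw [mem_insert, mem_singleton] at hz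
          rcases hz with rfl | rfl
          · exact hf
          · exact hf')
        rwa [card_pair hff] at this
      have h7 := hKle y
      have h7' := hKle y'
      omega

/-- THE CROSS CORES of energy at most six: one deficit, or `eN i v` with five sites and three near
elements -/
theorem cross_core (H : Gr P r) (hi : 1 ≤ i) (hi2 : i + 1 ≤ r) (hg : Good P i)
    (hκ : Split (i + 2) κ) (hM : Mat P i ∅ psi)
    (hZ : ∀ v, lev v = i + 3 → v ∉ cuni (i + 2) κ → up (i + 1) v = 2 → up i v ≤ 3)
    (hc : IsCore i ∅ psi e) (hQ : CrO i κ e) (hn : ∑ x, e x ≤ 6) :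
    Cheap 1 i e ∨ (∑ x, e x = 6 ∧ ∃ v, lev v = i + 3 ∧ v ∉ cuni (i + 2) κ ∧ up (i + 1) v = 3 ∧
      up i v = 5 ∧ e = eN i v) := by
  classical
  by_cases hA : AdmL i e
  swap
  · exact Or.inl (Or.inl hA)
  by_cases hB : AdmU i e
  swap
  · exact Or.inl (Or.inr (Or.inl hB))
  by_cases hd : Disjoint (AL i e) (AU i e)
  swap
  · exact Or.inl (Or.inr (Or.inr (Or.inl hd)))
  obtain ⟨z, hz, hze⟩ := hQ
  have hlz := (two_up H hκ hz).1
  obtain ⟨v, lv', hvc, hv⟩ := cross_v H hκ hA hn (lev z - (i + 3)) z (by omega) hz hze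
  obtain ⟨p, p', hk, huc⟩ := two_labels H hκ hvc (by omega)
  have D : CrV i κ v p p' := ⟨lv', huc, hk⟩
  have lp := D.lp H
  have lp' := D.lp' H
  have hcard := D.card_T H hκ
  have hpos := D.pos_T H hA hv
  have hle := card_le_sum hpos
  have n1 : 1 ≤ (uc p).card := card_pos.2 (uc_nonempty H (by omega))
  have n2 : 1 ≤ (uc p').card := card_pos.2 (uc_nonempty H (by omega))
  have hup1 := D.up1 H hκ
  by_cases h3 : (uc p).card + (uc p').card = 2
  · left
    refine Or.inr (Or.inr (Or.inr ?_))
    obtain ⟨y, hy⟩ := card_eq_one.1 (by omega : (uc p).card = 1)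
    obtain ⟨y', hy'⟩ := card_eq_one.1 (by omega : (uc p').card = 1)
    exact cross_one H (by omega) hκ D hA hB hd hv hM hc hy hy' hn
      (hZ v lv' hvc (by omega))
  · have h4 : (uc p).card + (uc p').card = 3 := by omega
    have h5 : ∀ x, e x = if x ∈ CrV.T v p p' then 1 else 0 :=
      LowD_ind (fun x hx => hpos x hx) (by omega)
    have h6 : e = eN i v := by
      funext x
      rw [h5 x]
      unfold eN
      by_cases hx : x ∈ CrV.T v p p'
      · rw [if_pos hx, if_pos ((D.T_iff H).1 hx)]
      · rw [if_neg hx, if_neg (fun h => hx ((D.T_iff H).2 h))]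
    have h7 := cone_data H (i := i) (by omega) (v := v)
    obtain ⟨-, -, -, -, h8, h9, h10⟩ := h7
    obtain ⟨h11, h12⟩ := h10 (by omega)
    rw [← h6] at h8 h9 h11 h12
    have h13 : (AL i e).card = up i v := by rw [h12, up_eq]
    rw [if_neg (by omega)] at h11
    have h14 := D.up0_le H
    have h32 := (I32' H hi hi2 hg).1
    have u1 := (up_le_four H lp).1
    have u2 := (up_le_four H lp').1
    have u3 := h32 p lp
    have u4 := h32 p' lp'
    have h15 : up i v ≤ 5 := by
      have c1 : (uc p).card = 1 ∨ (uc p').card = 1 := by omega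
      rcases c1 with c1 | c1
      · rw [c1] at u1
        omega
      · rw [c1] at u2
        omega
    by_cases h16 : up i v = 5
    · right
      refine ⟨by omega, v, lv', hvc, by omega, h16, h6⟩
    · left
      refine Or.inr (Or.inr (Or.inr ?_))
      rw [h9, card_empty, h8]
      omega

end Pool.Agent.GaussPoset.Win.So

end

/-! From `Pool.Agent.W_448so_h61.CD` -/

section

/-!
SECOND ORDER THEOREM (MP_448cb3_co, proofs row 476): the near class of a part.
-/

namespace Pool.Agent.GaussPoset.Win

set_option linter.unusedSectionVars false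

open Finset OrderDual

universe u

variable {P : Type u} [Fintype P] [PartialOrder P] [DecidableEq P] {r i : ℕ} {psi : P → P}

/-- the near configurations of both classes together have no deficits -/
theorem so_near_class (H : Gr P r) (hi : 1 ≤ i) (hi2 : i + 1 ≤ r) (hM : Mat P i ∅ psi)
    {C : Finset P} (hC : Part (i + 1) C) {z x y u : P} (hy : lev y = i + 1) (hz : uc z = {y})
    (h2 : (uc y).card = 2) (hu : lev u + 1 = i) (hx : dc x = {u}) (hyu : dc u = uc y)
    (hzC : z ∈ C) (hxC : x ∈ C) (hpsi : psi y = u) :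
    dd ^ (st i C).card ∣ ∑ v ∈ Nr i C y u, tC i C (cl z + sg v) +
      ∑ v ∈ Nr i C y u, tC i C (cu x + sg v) := by
  classical
  have hC' : Part i C := ⟨fun h1 h2 => hC.up h1 h2, fun h1 h2 h3 => hC.dn h1 (by omega) h3⟩
  have hzy : z ⋖ y := by rw [← mem_uc, hz]; exact mem_singleton_self y
  have hlz : lev z = i + 2 := by
    have := lev_uc H (mem_uc.2 hzy)
    omega
  have hyC : y ∈ C := hC.up hzC hzy
  have hxu : u ⋖ x := by rw [← mem_dc, hx]; exact mem_singleton_self u
  have hlx : lev x + 2 = i := by
    have := lev_dc H (mem_dc.2 hxu)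
    omega
  have huC : u ∈ C := hC.dn hxC (by omega) hxu
  have hyd : y ∈ dbL P i := mem_dbL.2 ⟨hy, h2⟩
  have hpsi2 : psi u = y := by
    rw [← hpsi]
    exact (hM.invol y (mem_union_left _ hyd) (Finset.notMem_empty _)).1
  have hR1 : RstC i C psi (cl z) = Nr i C y u := by
    ext w
    rw [mem_RstC, mem_Rst, mem_Nr]
    have hT : w ∈ Tch i (cl z) ↔ w = y := by
      rw [mem_Tch]
      constructor
      · rintro (⟨h3, v, hv, h4⟩ | ⟨h3, v, hv, h4⟩)
        · have lv := lev_uc H (mem_uc.2 hv)
          rcases ExpC_cl_pos h4 with h5 | h5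
          · rw [h5] at hv
            have h6 := mem_uc.2 hv
            rwa [hz, mem_singleton] at h6
          · rw [hz, mem_singleton] at h5
            rw [h5] at lv
            omega
        · have lv := lev_uc H (mem_uc.2 hv)
          have := cl_up_zero H hlz v (by omega)
          omega
      · rintro rfl
        exact Or.inl ⟨hy, z, hzy, by rw [ExpC_cl_z]; exact one_pos⟩
    constructor
    · rintro ⟨⟨h3, -, h4, h5⟩, h6⟩
      refine ⟨h6, h3, fun h => h4 (hT.2 h), ?_⟩
      rintro rfl
      apply h5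
      refine ⟨mem_union_right _ (mem_dbU.2 ⟨hu, by rw [hyu]; exact h2⟩), ?_⟩
      rw [hpsi2, mem_Tch]
      exact Or.inl ⟨hy, z, hzy, by rw [ExpC_cl_z]; exact one_pos⟩
    · rintro ⟨h3, h4, h5, h6⟩
      refine ⟨⟨h4, Finset.notMem_empty _, fun h => h5 (hT.1 h), ?_⟩, h3⟩
      rintro ⟨h7, h8⟩
      have h9 : psi w = y := by
        rw [mem_Tch] at h8
        rcases h8 with ⟨h10, v, hv, h11⟩ | ⟨h10, v, hv, h11⟩
        · rcases ExpC_cl_pos h11 with h12 | h12
          · rw [h12] at hv
            have h13 := mem_uc.2 hv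
            rwa [hz, mem_singleton] at h13
          · rw [hz, mem_singleton] at h12
            have lv := lev_uc H (mem_uc.2 hv)
            rw [h12] at lv
            omega
        · have lv := lev_uc H (mem_uc.2 hv)
          have := cl_up_zero H hlz v (by omega)
          omega
      apply h6
      rw [← (hM.invol w h7 (Finset.notMem_empty _)).1, h9, hpsi]
  have hR2 : RstC i C psi (cu x) = Nr i C y u := by
    ext w
    rw [mem_RstC, mem_Rst, mem_Nr]
    have hT : ∀ w, w ∈ Tch i (cu x) ↔ w = u := by
      intro w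
      rw [mem_Tch]
      constructor
      · rintro (⟨h3, v, hv, h4⟩ | ⟨h3, v, hv, h4⟩)
        · have lv := lev_uc H (mem_uc.2 hv)
          have := cu_low_zero H hlx v (by omega)
          omega
        · have lv := lev_uc H (mem_uc.2 hv)
          rcases cu_pos h4 with h5 | h5
          · rw [h5] at hv
            have h6 := mem_dc.2 hv
            rwa [hx, mem_singleton] at h6
          · rw [hx, mem_singleton] at h5
            rw [h5] at lv
            omega
      · rintro rfl
        exact Or.inr ⟨hu, x, hxu, by rw [ExpD_cu_x]; exact one_pos⟩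
    constructor
    · rintro ⟨⟨h3, -, h4, h5⟩, h6⟩
      refine ⟨h6, h3, ?_, fun h => h4 ((hT w).2 h)⟩
      rintro rfl
      apply h5
      refine ⟨mem_union_left _ hyd, ?_⟩
      rw [hpsi, hT]
    · rintro ⟨h3, h4, h5, h6⟩
      refine ⟨⟨h4, Finset.notMem_empty _, fun h => h6 ((hT w).1 h), ?_⟩, h3⟩
      rintro ⟨h7, h8⟩
      rw [hT] at h8
      apply h5
      rw [← (hM.invol w h7 (Finset.notMem_empty _)).1, h8, hpsi2]
  -- the sums as weighted sums
  have hwt : ∀ v ∈ Nr i C y u, ∀ S, wt i (cu x) v 1 S = wt i (cl z) v 1 S := by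
    intro v _ S
    have hs : ∀ w, lev w = i → cu x w = cl z w := by
      intro w hw
      have h3 : cu x w = 0 := by
        by_contra h
        rcases cu_pos (Nat.pos_of_ne_zero h) with h4 | h4
        · rw [h4] at hw
          omega
        · rw [hx, mem_singleton] at h4
          rw [h4] at hw
          omega
      have h4 : cl z w = 0 := by
        by_contra h
        rcases ExpC_cl_pos (Nat.pos_of_ne_zero h) with h4 | h4
        · rw [h4] at hw
          omega
        · rw [hz, mem_singleton] at h4
          rw [h4] at hw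
          omega
      rw [h3, h4]
    unfold wt
    split_ifs with hv1
    · unfold wtL
      have e1 : (∀ w ∈ uc v, cu x w < 1) ↔ ∀ w ∈ uc v, cl z w < 1 := by
        constructor
        · intro h w hw
          have := lev_uc H hw
          rw [← hs w (by omega)]
          exact h w hw
        · intro h w hw
          have := lev_uc H hw
          rw [hs w (by omega)]
          exact h w hw
      have e2 : (∀ w ∈ uc v, cu x w < 1 → w ∈ S) ↔ ∀ w ∈ uc v, cl z w < 1 → w ∈ S := by
        constructor
        · intro h w hw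
          have := lev_uc H hw
          rw [← hs w (by omega)]
          exact h w hw
        · intro h w hw
          have := lev_uc H hw
          rw [hs w (by omega)]
          exact h w hw
      simp only [e1, e2]
    · have hv2 : lev v + 1 = i := by
        have := (mem_Nr.1 (by assumption)).2.1
        rw [mem_near] at this
        omega
      unfold wtU
      have e1 : (∀ w ∈ dc v, cu x w < 1) ↔ ∀ w ∈ dc v, cl z w < 1 := by
        constructor
        · intro h w hw
          have := lev_dc H hw
          rw [← hs w (by omega)]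
          exact h w hw
        · intro h w hw
          have := lev_dc H hw
          rw [hs w (by omega)]
          exact h w hw
      have e2 : (∀ w ∈ dc v, cu x w < 1 → w ∉ S) ↔ ∀ w ∈ dc v, cl z w < 1 → w ∉ S := by
        constructor
        · intro h w hw
          have := lev_dc H hw
          rw [← hs w (by omega)]
          exact h w hw
        · intro h w hw
          have := lev_dc H hw
          rw [hs w (by omega)]
          exact h w hw
      simp only [e1, e2]
  have hsp1 : ∀ v ∈ Nr i C y u, Spt C (cl z + sg v) := by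
    intro v hv
    rw [spt_add_iff]
    refine ⟨spt_cl hC' hzC, fun w hw => ?_⟩
    exact ExpC_sg_ne (by rintro rfl; exact hw (mem_Nr.1 hv).1)
  have hsp2 : ∀ v ∈ Nr i C y u, Spt C (cu x + sg v) := by
    intro v hv
    rw [spt_add_iff]
    refine ⟨spt_cu hC' hxC (by omega), fun w hw => ?_⟩
    exact ExpC_sg_ne (by rintro rfl; exact hw (mem_Nr.1 hv).1)
  have f1 : ∀ v ∈ Nr i C y u, tC i C (cl z + sg v) =
      IV (st i C) (fun S => Fe i (cl z) S * wt i (cl z) v 1 S) := by
    intro v hv
    rw [tC_IV H hC' (hsp1 v hv)]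
    refine IV_congr fun S _ => ?_
    rw [← hR1] at hv
    exact fact H (by omega) (RstC_near hv) (RstC_Tch v hv) (by
      have := (core_cl (psi := psi) H hlz) v (mem_RstC.1 hv).1
      exact this) 1 S
  have f2 : ∀ v ∈ Nr i C y u, tC i C (cu x + sg v) =
      IV (st i C) (fun S => Fe i (cu x) S * wt i (cl z) v 1 S) := by
    intro v hv
    rw [tC_IV H hC' (hsp2 v hv)]
    refine IV_congr fun S _ => ?_
    rw [← hwt v hv S]
    rw [← hR2] at hv
    exact fact H (by omega) (RstC_near hv) (RstC_Tch v hv) (by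
      have := (core_cu (psi := psi) H hlx) v (mem_RstC.1 hv).1
      exact this) 1 S
  rw [Finset.sum_congr rfl f1, Finset.sum_congr rfl f2, ← IV_sum, ← IV_sum, ← IV_add]
  -- the weights
  have hw1 : Rk (st i C) 0 (fun S => ∑ v ∈ Nr i C y u, wt i (cl z) v 1 S) := by
    have h3 := rest_Rk (e := cl z) H hi hi2 hC hM (cl z) 1
    rw [hR1] at h3
    refine Rk_congr (fun S _ => ?_) h3
    have h4 : (Nr i C y u).piAntidiag 1 = (Nr i C y u).image (fun v => sg v) := by
      ext l
      rw [mem_piA, mem_image]
      constructor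
      · rintro ⟨h5, h6⟩
        obtain ⟨v, hv⟩ : ∃ v, l v ≠ 0 := by
          by_contra hcon
          push Not at hcon
          rw [Finset.sum_eq_zero (fun v _ => hcon v)] at h5
          omega
        have hvN : v ∈ Nr i C y u := by
          by_contra h
          exact hv (h6 v h)
        have h7 := Finset.add_sum_erase univ l (mem_univ v)
        rw [h5] at h7
        refine ⟨v, hvN, ?_⟩
        funext w
        by_cases hwv : w = v
        · rw [hwv, ExpC_sg_self]
          omega
        · rw [ExpC_sg_ne hwv]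
          have h8 : ∑ w ∈ univ.erase v, l w = 0 := by omega
          rw [Finset.sum_eq_zero_iff] at h8
          exact (h8 w (mem_erase.2 ⟨hwv, mem_univ _⟩)).symm
      · rintro ⟨v, hv, rfl⟩
        refine ⟨?_, fun w hw => ExpC_sg_ne (by rintro rfl; exact hw hv)⟩
        unfold sg
        rw [Finset.sum_pi_single']
        simp
    rw [h4, Finset.sum_image]
    · refine Finset.sum_congr rfl fun v hv => ?_
      rw [← Finset.mul_prod_erase _ _ hv, ExpC_sg_self]
      rw [Finset.prod_eq_one, mul_one]
      intro w hw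
      rw [mem_erase] at hw
      rw [ExpC_sg_ne hw.1]
      exact wt_zero H (by omega) (mem_Nr.1 hw.2).2.1 _ _
    · intro v _ v' _ h
      have h5 : sg v v = sg v' v := congrFun h v
      rw [ExpC_sg_self] at h5
      by_contra hne
      rw [ExpC_sg_ne hne] at h5
      omega
  have hw2 : Rk (st i C) 0 (fun S => Fe i (cl z) S + Fe i (cu x) S) := by
    obtain ⟨p, q, hpq, huc⟩ := Finset.card_eq_two.1 h2
    have hp : p ∈ uc y := by rw [huc]; simp
    have hq : q ∈ uc y := by rw [huc]; simp
    have lp := lev_uc H hp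
    have lq := lev_uc H hq
    have hpC : p ∈ st i C := mem_st.2 ⟨hC.up hyC (mem_uc.1 hp), by omega⟩
    have hqC : q ∈ st i C := mem_st.2 ⟨hC.up hyC (mem_uc.1 hq), by omega⟩
    refine Rk_congr (fun S _ => ?_) (FactF_big hpC hqC hpq)
    have s1 : sts i z = {p, q} := by rw [ClE_sts H hlz hz, huc]
    have s2 : stD i x = {p, q} := by rw [ClE_stD H hlx hx, hyu, huc]
    rw [(cl_dat H hlz).Fe H (by omega) (cl_up_zero H hlz), (cu_dat H (by omega) hlx).Fe H
      (cu_low_zero H hlx), s1, s2, hz, hx]
    simp only [Finset.card_singleton, pow_one, pow_zero, one_mul, zero_add]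
    unfold chi
    congr 1
    · congr 1
      refine if_congr ?_ rfl rfl
      rw [Finset.insert_subset_iff, Finset.singleton_subset_iff]
      simp
    · congr 1
      refine if_congr ?_ rfl rfl
      rw [Finset.disjoint_insert_left, Finset.disjoint_singleton_left]
      simp
  have h5 := Rk_IV (Rk_mul hw2 hw1)
  simp only [add_zero, Nat.sub_zero] at h5
  convert h5 using 1
  refine IV_congr fun S _ => ?_
  rw [Finset.sum_congr rfl (fun v _ => rfl), ← Finset.mul_sum, ← Finset.mul_sum]
  ring

end Pool.Agent.GaussPoset.Win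

end
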