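import Mathlib
import Pool.Agent.W_448zz_h61.Ns
import Pool.Agent.W_448zz_h61.M017
import Pool.Agent.W_448zz_h61.M026
import Pool.Agent.W_448zz_h61.M027
import Pool.Agent.W_448zz_h61.M068
import Pool.Agent.W_448zz_h61.M085
import Pool.Agent.W_448zz_h61.M092
import Pool.Agent.W_448zz_h61.M096

/-! From `Pool.Agent.W_448so_h17.CrD` -/

section

/-!
S9, cross part: sums over the configurations which excite an element outside the extended
components, the total identities (5,2), (6,2) at the window `i` with the components of `P_(≤ i+2)`.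
-/

namespace Pool.Agent.GaussPoset.Win.So

set_option linter.unusedSectionVars false

open Finset I2

universe u

variable {P : Type u} [Fintype P] [PartialOrder P] [DecidableEq P] {r i l : ℕ}

variable {ι : Type*} [DecidableEq ι] {κ : P → ι} {e : P → ℕ} {psi : P → P}

variable {v p p' : P}

open Classical in
/-- joins of the level `i + 3` with three elements of level `i + 1` and five sites above -/
noncomputable def N5s (i : ℕ) (κ : P → ι) : Finset P :=
  univ.filter (fun v => lev v = i + 3 ∧ v ∉ cuni (i + 2) κ ∧ up (i + 1) v = 3 ∧ up i v = 5)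

lemma mem_N5s {v : P} : v ∈ N5s i κ ↔ lev v = i + 3 ∧ v ∉ cuni (i + 2) κ ∧ up (i + 1) v = 3 ∧
    up i v = 5 := by
  classical
  unfold N5s
  rw [mem_filter]
  simp

lemma eN_core (H : Gr P r) (hv : i + 1 < lev v) : IsCore i ∅ psi (eN i v) := by
  apply isCore_of
  intro x hx h0
  have h1 : v ≤ x ∧ i < lev x := by
    by_contra h
    apply h0
    unfold eN
    rw [if_neg h]
  have h2 : lev x = i + 1 := by
    rcases mem_near.1 hx with h | h <;> omega
  rw [mem_Tch]
  left
  refine ⟨h2, ?_⟩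
  obtain ⟨z, hz1, hz2, hz3⟩ := exists_mid H h1.1 (k := i + 2) (by omega) (by omega)
  have h3 : z < x := by
    refine lt_of_le_of_ne hz2 ?_
    rintro rfl
    omega
  refine ⟨z, H.covBy_iff.2 ⟨h3, by omega⟩, ?_⟩
  unfold eN
  rw [if_pos ⟨hz1, by omega⟩]
  exact one_pos

lemma eN_sum (H : Gr P r) (hκ : Split (i + 2) κ) {v : P} (hv : v ∈ N5s i κ) :
    ∑ x, eN i v x = 6 := by
  classical
  obtain ⟨h1, h2, h3, h4⟩ := mem_N5s.1 hv
  obtain ⟨p, p', hk, huc⟩ := two_labels H hκ h2 (by omega)
  have D : CrV i κ v p p' := ⟨h1, huc, hk⟩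
  have h5 : ∀ x, eN i v x = if x ∈ CrV.T v p p' then 1 else 0 := by
    intro x
    unfold eN
    by_cases hx : x ∈ CrV.T v p p'
    · rw [if_pos hx, if_pos ((D.T_iff H).1 hx)]
    · rw [if_neg hx, if_neg (fun h => hx ((D.T_iff H).2 h))]
  rw [Finset.sum_congr rfl (fun x _ => h5 x), Finset.sum_ite_mem, univ_inter, Finset.sum_const,
    smul_eq_mul, mul_one, D.card_T H hκ, ← D.up1 H hκ, h3]

lemma eN_inj {v v' : P} (h1 : lev v = lev v') (hi : i < lev v) (h : eN i v = eN i v') :
    v = v' := by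
  classical
  have h2 : eN i v' v = 1 := by
    rw [← h]
    unfold eN
    rw [if_pos ⟨le_rfl, hi⟩]
  have h3 : v' ≤ v ∧ i < lev v := by
    unfold eN at h2
    by_contra h3
    rw [if_neg h3] at h2
    omega
  by_contra hne
  have := lev_strictAnti (lt_of_le_of_ne h3.1 (fun h => hne h.symm))
  omega

lemma eN_trm (H : Gr P r) (hir : i ≤ r) {v : P} (h1 : lev v = i + 3)
    (h3 : up (i + 1) v = 3) (h4 : up i v = 5) :
    trm i (eN i v) = xx ^ 5 * dd ^ ((lv P i).card - 2) ∧ 5 ≤ (lv P i).card := by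
  classical
  obtain ⟨a1, a2, a3, a4, a5, a6, a7⟩ := cone_data H hir (v := v)
  obtain ⟨a8, a9⟩ := a7 (by omega)
  rw [if_neg (by omega)] at a8
  have a10 : (AL i (eN i v)).card = 5 := by rw [a9, ← up_eq, h4]
  have a11 : 5 ≤ (lv P i).card := by
    rw [← a10, a9]
    exact card_le_card (filter_subset _ _)
  refine ⟨?_, a11⟩
  unfold trm
  rw [a6, if_pos (disjoint_empty_right _), a10, card_empty]
  unfold cw
  rw [if_pos ⟨a1, a2⟩, a3, a4, a5, a8, h3]
  have h5 : dd ^ ((lv P i).card - 2) = dd ^ 3 * dd ^ ((lv P i).card - 5 - 0) := by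
    rw [← pow_add]
    congr 1
    omega
  rw [h5]
  ring

open Classical in
/-- energy at most five: one deficit -/
theorem rest5 (H : Gr P r) (hi : 1 ≤ i) (hi2 : i + 1 ≤ r) (hg : Good P i)
    (hκ : Split (i + 2) κ)
    (hZ : ∀ v, lev v = i + 3 → v ∉ cuni (i + 2) κ → up (i + 1) v = 2 → up i v ≤ 3)
    {n : ℕ} (hn : n ≤ 5) :
    dd ^ ((lv P i).card - 1) ∣
      ∑ e ∈ ((univ : Finset P).piAntidiag n).filter (CrO i κ), trm i e := by
  obtain ⟨psi, hM⟩ := good_mat H hg
  have key : ∀ e : P → ℕ, IsCore i ∅ psi e → CrO i κ e → ∑ x, e x ≤ 5 →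
      Rk (lv P i) 1 (Fe i e) := by
    intro e hc hQ hs
    rcases cross_core H hi hi2 hg hκ hM hZ hc hQ (by omega) with h | h
    · exact Rk_of_cheap h
    · omega
  have h := core_sum_Q H hi hi2 hM n 1 (CrO i κ) (CrO_add H hκ)
    (fun e hc hQ hs => key e hc hQ (by omega)) ∅ (fun e he => absurd he (notMem_empty e))
    (fun e hc hQ hs _ => key e hc hQ (by omega))
  rwa [Finset.sum_empty, sub_zero] at h

open Classical in
/-- energy six: up to one deficit only the joins of `N5s`, with the coefficient `-1` -/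
theorem rest6 (H : Gr P r) (hi : 1 ≤ i) (hi2 : i + 1 ≤ r) (hg : Good P i)
    (hκ : Split (i + 2) κ)
    (hZ : ∀ v, lev v = i + 3 → v ∉ cuni (i + 2) κ → up (i + 1) v = 2 → up i v ≤ 3) :
    dd ^ ((lv P i).card - 1) ∣
      ∑ e ∈ ((univ : Finset P).piAntidiag 6).filter (CrO i κ), trm i e -
        ((N5s i κ).card : A) * (xx ^ 5 * dd ^ ((lv P i).card - 2)) := by
  obtain ⟨psi, hM⟩ := good_mat H hg
  have h := core_sum_Q H hi hi2 hM 6 1 (CrO i κ) (CrO_add H hκ) (fun e hc hQ hs => by
      rcases cross_core H hi hi2 hg hκ hM hZ hc hQ (by omega) with h | h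
      · exact Rk_of_cheap h
      · omega) ((N5s i κ).image (eN i)) (fun e he => by
      rw [mem_image] at he
      obtain ⟨v, hv, rfl⟩ := he
      obtain ⟨h1, h2, h3, h4⟩ := mem_N5s.1 hv
      refine ⟨eN_core H (by omega), eN_sum H hκ hv, v, h2, ?_⟩
      unfold eN
      rw [if_pos ⟨le_rfl, by omega⟩]) (fun e hc hQ hs he => by
      rcases cross_core H hi hi2 hg hκ hM hZ hc hQ (by omega) with h | ⟨-, v, h1, h2, h3, h4, h5⟩
      · exact Rk_of_cheap h
      · exfalso
        apply he
        rw [mem_image]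
        exact ⟨v, mem_N5s.2 ⟨h1, h2, h3, h4⟩, h5.symm⟩)
  have h2 : ∑ e ∈ (N5s i κ).image (eN i), trm i e =
      ((N5s i κ).card : A) * (xx ^ 5 * dd ^ ((lv P i).card - 2)) := by
    rw [Finset.sum_image]
    · rw [Finset.sum_congr rfl (fun v hv => ?_), Finset.sum_const, nsmul_eq_mul]
      obtain ⟨h1, h2, h3, h4⟩ := mem_N5s.1 hv
      exact (eN_trm H (by omega) h1 h3 h4).1
    · intro v hv v' hv' hvv
      have h1 := (mem_N5s.1 hv).1
      have h1' := (mem_N5s.1 hv').1
      exact eN_inj (by omega) (by omega) hvv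
  rwa [h2] at h

open Classical in
/-- the product over the components is the total minus the rest -/
theorem prod_eq (H : Gr P r) (hir : i ≤ r) (hκ : Split (i + 2) κ) (n : ℕ) :
    PowerSeries.coeff n (∏ a ∈ univ.image κ, VV i (i + 2) κ a) =
      ∑ e ∈ (univ : Finset P).piAntidiag n, trm i e -
      ∑ e ∈ ((univ : Finset P).piAntidiag n).filter (CrO i κ), trm i e := by
  unfold VV
  rw [← ZS_cuni H hir (by omega) hκ, coeff_ZS, eq_sub_iff_add_eq, add_comm]
  rw [← Finset.sum_filter_add_sum_filter_not ((univ : Finset P).piAntidiag n) (CrO i κ)]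
  congr 1
  unfold ZC
  have h2 : ((univ : Finset P).piAntidiag n).filter (fun e => ¬ CrO i κ e) =
      (cuni (i + 2) κ).piAntidiag n := by
    ext e
    rw [mem_filter, mem_pa, mem_pa]
    constructor
    · rintro ⟨⟨h3, -⟩, h4⟩
      refine ⟨h3, fun x hx => ?_⟩
      by_contra h5
      exact h4 ⟨x, hx, by omega⟩
    · rintro ⟨h3, h4⟩
      refine ⟨⟨h3, fun x hx => absurd (mem_univ x) hx⟩, ?_⟩
      rintro ⟨z, hz, hze⟩
      have := h4 z hz
      omega
  rw [h2]
  refine Finset.sum_congr rfl fun e _ => ?_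
  unfold tC trm
  rw [st_cuni (by omega) hκ]

lemma sum_bb (hκ : Split (i + 2) κ) :
    ∑ a ∈ univ.image κ, bb i (i + 2) κ a = (lv P i).card :=
  sum_card_st (by omega) hκ

lemma dvd_two {b : ℕ} {F : A} (h : dd ^ (b - 1) ∣ F) (hb : 1 ≤ b) :
    PowerSeries.coeff b (dd ^ 2 * F : A) = 0 := by
  apply coeff_zero_of_dvd (a := b + 1)
  · refine (pow_dvd_pow dd (show b + 1 ≤ 2 + (b - 1) by omega)).trans ?_
    rw [pow_add]
    exact mul_dvd_mul_left _ h
  · omega

lemma coeff_xx5 : PowerSeries.coeff 0 (xx ^ 5 : A) = -1 := by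
  have h1 : PowerSeries.coeff 0 (xx : A) = -1 := by
    unfold xx dd
    simp
  rw [PowerSeries.coeff_zero_eq_constantCoeff] at h1 ⊢
  rw [map_pow, h1]
  norm_num

/-- `be` of the product -/
theorem be_prod (H : Gr P r) (hi : 1 ≤ i) (hi2 : i + 1 ≤ r) (hg : Good P i)
    (hκ : Split (i + 2) κ) (hb : 1 ≤ (lv P i).card)
    (hZ : ∀ v, lev v = i + 3 → v ∉ cuni (i + 2) κ → up (i + 1) v = 2 → up i v ≤ 3) :
    be 5 (lv P i).card (∏ a ∈ univ.image κ, VV i (i + 2) κ a) = 0 ∧
    be 6 (lv P i).card (∏ a ∈ univ.image κ, VV i (i + 2) κ a) = ((N5s i κ).card : ℤ) := by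
  classical
  have htot : ∀ n, dd ^ ((lv P i).card - 1) ∣ ∑ e ∈ (univ : Finset P).piAntidiag n, trm i e :=
    fun n => (pow_dvd_pow dd (Nat.sub_le _ _)).trans (dvd_sum_trm H (by omega) n)
  constructor
  · unfold be
    rw [prod_eq H (by omega) hκ]
    exact dvd_two (dvd_sub (htot 5) (rest5 H hi hi2 hg hκ hZ le_rfl)) hb
  · have h1 := rest6 H hi hi2 hg hκ hZ
    unfold be
    rw [prod_eq H (by omega) hκ]
    set R := ∑ e ∈ ((univ : Finset P).piAntidiag 6).filter (CrO i κ), trm i e with hR
    set T := ∑ e ∈ (univ : Finset P).piAntidiag 6, trm i e with hT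
    have h2 : dd ^ 2 * (T - R) = dd ^ 2 * (T - (R - ((N5s i κ).card : A) *
        (xx ^ 5 * dd ^ ((lv P i).card - 2)))) -
        dd ^ 2 * (((N5s i κ).card : A) * (xx ^ 5 * dd ^ ((lv P i).card - 2))) := by
      ring
    rw [h2, map_sub, dvd_two (dvd_sub (htot 6) h1) hb, zero_sub]
    rcases (N5s i κ).eq_empty_or_nonempty with h3 | ⟨v, hv⟩
    · rw [h3]
      simp
    · obtain ⟨a1, a2, a3, a4⟩ := mem_N5s.1 hv
      have h5 := (eN_trm H (by omega) a1 a3 a4).2
      have h6 : dd ^ 2 * (((N5s i κ).card : A) * (xx ^ 5 * dd ^ ((lv P i).card - 2))) =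
          dd ^ (lv P i).card * (((N5s i κ).card : A) * xx ^ 5) := by
        have : dd ^ (lv P i).card = dd ^ 2 * dd ^ ((lv P i).card - 2) := by
          rw [← pow_add]
          congr 1
          omega
        rw [this]
        ring
      rw [h6]
      have h7 : PowerSeries.coeff (lv P i).card
          (dd ^ (lv P i).card * (((N5s i κ).card : A) * xx ^ 5)) =
          PowerSeries.coeff 0 (((N5s i κ).card : A) * xx ^ 5) := by
        unfold dd
        have := PowerSeries.coeff_X_pow_mul (((N5s i κ).card : A) * xx ^ 5) (lv P i).card 0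
        rwa [zero_add] at this
      rw [h7]
      have h8 : ((N5s i κ).card : A) * xx ^ 5 = (N5s i κ).card • (xx ^ 5 : A) := by
        rw [nsmul_eq_mul]
      rw [h8, map_nsmul, coeff_xx5]
      simp

lemma eps_prod (H : Gr P r) (hir : i ≤ r) (hκ : Split (i + 2) κ) :
    eps (lv P i).card (∏ a ∈ univ.image κ, VV i (i + 2) κ a) = 1 := by
  unfold eps VV
  rw [← ZS_cuni H hir (by omega) hκ, coeff_ZS, ZC_zero H hir, st_cuni (by omega) hκ]
  unfold dd
  rw [PowerSeries.coeff_X_pow, if_pos rfl]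

lemma al3_prod (H : Gr P r) (hir : i ≤ r) (hκ : Split (i + 2) κ) :
    al 3 (lv P i).card (∏ a ∈ univ.image κ, VV i (i + 2) κ a) = 0 := by
  unfold al
  apply coeff_eq_zero_of_dvd
  rw [pow_succ']
  refine mul_dvd_mul_left _ ?_
  rw [← sum_bb hκ]
  exact dvd_prod H hir (by omega) hκ (by omega)

/-- TOTAL (5,2) at the window `i = j - 1` -/
theorem tot_five (H : Gr P r) (hi : 1 ≤ i) (hi2 : i + 1 ≤ r) (hg : Good P i)
    (hκ : Split (i + 2) κ) (hb : 1 ≤ (lv P i).card)
    (hZ : ∀ v, lev v = i + 3 → v ∉ cuni (i + 2) κ → up (i + 1) v = 2 → up i v ≤ 3)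
    (hP : ∀ a ∈ univ.image κ, Prof 3 5 (bb i (i + 2) κ a) (VV i (i + 2) κ a)) :
    ∑ a ∈ univ.image κ, be 5 (bb i (i + 2) κ a) (VV i (i + 2) κ a) = 0 := by
  obtain ⟨-, -, -, h4⟩ := prod_all (univ.image κ) (e := 3) (m := 5) (by omega) (by omega)
    (by omega) (bb i (i + 2) κ) (VV i (i + 2) κ) hP (fun a _ => eps_sq H (by omega) a)
  rw [sum_bb hκ, eps_prod H (by omega) hκ, (be_prod H hi hi2 hg hκ hb hZ).1] at h4
  simp only [show (5 : ℕ) ≠ 2 * 3 from by norm_num, if_false, eps_VV H (show i ≤ r by omega),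
    one_mul, mul_zero, sub_zero, zero_sub] at h4
  rw [Finset.sum_neg_distrib, ← Finset.mul_sum] at h4
  linarith

/-- TOTAL (6,2) at the window `i = j - 1` -/
theorem tot_six (H : Gr P r) (hi : 1 ≤ i) (hi2 : i + 1 ≤ r) (hg : Good P i)
    (hκ : Split (i + 2) κ) (hb : 1 ≤ (lv P i).card)
    (hZ : ∀ v, lev v = i + 3 → v ∉ cuni (i + 2) κ → up (i + 1) v = 2 → up i v ≤ 3)
    (hP : ∀ a ∈ univ.image κ, Prof 3 6 (bb i (i + 2) κ a) (VV i (i + 2) κ a)) :
    ∑ a ∈ univ.image κ, ((al 3 (bb i (i + 2) κ a) (VV i (i + 2) κ a)) ^ 2 -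
      2 * be 6 (bb i (i + 2) κ a) (VV i (i + 2) κ a)) = - (2 * ((N5s i κ).card : ℤ)) := by
  obtain ⟨-, -, -, h4⟩ := prod_all (univ.image κ) (e := 3) (m := 6) (by omega) (by omega)
    (by omega) (bb i (i + 2) κ) (VV i (i + 2) κ) hP (fun a _ => eps_sq H (by omega) a)
  rw [sum_bb hκ, eps_prod H (by omega) hκ, (be_prod H hi hi2 hg hκ hb hZ).2,
    al3_prod H (by omega) hκ] at h4
  simp only [show (6 : ℕ) = 2 * 3 from by norm_num, if_true, eps_VV H (show i ≤ r by omega),
    one_mul] at h4
  rw [← h4]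
  ring

/-- profile `3, 6` from `3, 5` -/
lemma prof36' {b : ℕ} {V : PowerSeries A} (h : Prof 3 5 b V) (h5 : be 5 b V = 0)
    (h6 : dd ^ b ∣ dd ^ 2 * PowerSeries.coeff 6 V) : Prof 3 6 b V := by
  refine ⟨h.lo, ?_, h6⟩
  intro n hn
  rcases Nat.lt_or_ge n 5 with h1 | h1
  · exact h.mid n h1
  · have h2 : n = 5 := by omega
    rw [h2]
    exact be_zero_iff h.top h5

/-- THEOREM S9, (5,2): if `(5,2) ≤ 0` for every component then `(5,2) = 0` for every component -/
theorem five_zero (H : Gr P r) (hi : 1 ≤ i) (hi2 : i + 1 ≤ r) (hg : Good P i)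
    (hκ : Split (i + 2) κ) (hb : 1 ≤ (lv P i).card)
    (hZ : ∀ v, lev v = i + 3 → v ∉ cuni (i + 2) κ → up (i + 1) v = 2 → up i v ≤ 3)
    (hP : ∀ a ∈ univ.image κ, Prof 3 5 (bb i (i + 2) κ a) (VV i (i + 2) κ a))
    (hneg : ∀ a ∈ univ.image κ, 3 ≤ bb i (i + 2) κ a →
      be 5 (bb i (i + 2) κ a) (VV i (i + 2) κ a) ≤ 0) :
    ∀ a ∈ univ.image κ, be 5 (bb i (i + 2) κ a) (VV i (i + 2) κ a) = 0 := by
  have h1 := tot_five H hi hi2 hg hκ hb hZ hP
  have h2 : ∀ a ∈ univ.image κ, be 5 (bb i (i + 2) κ a) (VV i (i + 2) κ a) ≤ 0 := by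
    intro a ha
    rcases Nat.lt_or_ge (bb i (i + 2) κ a) 3 with h | h
    · rw [be_small H (by omega) (by omega) hκ a (by omega)]
    · exact hneg a ha h
  exact (Finset.sum_eq_zero_iff_of_nonpos h2).1 h1

/-- THEOREM S9, (6,2): if moreover `2 (6,2) ≤ (3,1)^2` for every component then equality holds for
every component, and there is no join of type `N5` -/
theorem six_zero (H : Gr P r) (hi : 1 ≤ i) (hi2 : i + 1 ≤ r) (hg : Good P i)
    (hκ : Split (i + 2) κ) (hb : 1 ≤ (lv P i).card)
    (hZ : ∀ v, lev v = i + 3 → v ∉ cuni (i + 2) κ → up (i + 1) v = 2 → up i v ≤ 3)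
    (hP : ∀ a ∈ univ.image κ, Prof 3 5 (bb i (i + 2) κ a) (VV i (i + 2) κ a))
    (hP6 : ∀ a ∈ univ.image κ, 3 ≤ bb i (i + 2) κ a →
      dd ^ bb i (i + 2) κ a ∣ dd ^ 2 * PowerSeries.coeff 6 (VV i (i + 2) κ a))
    (hneg : ∀ a ∈ univ.image κ, 3 ≤ bb i (i + 2) κ a →
      be 5 (bb i (i + 2) κ a) (VV i (i + 2) κ a) ≤ 0)
    (hneg6 : ∀ a ∈ univ.image κ, 3 ≤ bb i (i + 2) κ a →
      2 * be 6 (bb i (i + 2) κ a) (VV i (i + 2) κ a) ≤
        (al 3 (bb i (i + 2) κ a) (VV i (i + 2) κ a)) ^ 2) :
    (∀ a ∈ univ.image κ, (al 3 (bb i (i + 2) κ a) (VV i (i + 2) κ a)) ^ 2 =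
      2 * be 6 (bb i (i + 2) κ a) (VV i (i + 2) κ a)) ∧ N5s i κ = ∅ := by
  have h5 := five_zero H hi hi2 hg hκ hb hZ hP hneg
  have h1 := tot_six H hi hi2 hg hκ hb hZ (fun a ha => by
    refine prof36' (hP a ha) (h5 a ha) ?_
    rcases Nat.lt_or_ge (bb i (i + 2) κ a) 3 with h | h
    · exact dvd_small H (by omega) (by omega) hκ a (by omega) 6
    · exact hP6 a ha h)
  have h2 : ∀ a ∈ univ.image κ, 0 ≤ (al 3 (bb i (i + 2) κ a) (VV i (i + 2) κ a)) ^ 2 -
      2 * be 6 (bb i (i + 2) κ a) (VV i (i + 2) κ a) := by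
    intro a ha
    rcases Nat.lt_or_ge (bb i (i + 2) κ a) 3 with h | h
    · rw [be_small H (by omega) (by omega) hκ a (by omega)]
      have := sq_nonneg (al 3 (bb i (i + 2) κ a) (VV i (i + 2) κ a))
      linarith
    · have := hneg6 a ha h
      linarith
  have h3 := Finset.sum_nonneg h2
  rw [h1] at h3
  have h4 : (N5s i κ).card = 0 := by
    have : (0 : ℤ) ≤ ((N5s i κ).card : ℤ) := Int.natCast_nonneg _
    omega
  rw [h4] at h1
  simp only [Nat.cast_zero, mul_zero, neg_zero] at h1
  refine ⟨fun a ha => ?_, card_eq_zero.1 h4⟩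
  have h6 := (Finset.sum_eq_zero_iff_of_nonneg h2).1 h1 a ha
  linarith

end Pool.Agent.GaussPoset.Win.So

end

/-! From `Pool.Agent.W_448pn_h63.PnA` -/

section

/-!
# Pinned window series (MP_448cb3_co, G2, case B, window j - 1)

`ZP i C t n`: the window sum of the part `C` over the configurations which are positive on the elements
of `W` in `C`. Factorisation over disjoint parts.
-/

namespace Pool.Agent.GaussPoset.Win.Pn

set_option linter.unusedSectionVars false

open Finset

universe u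

variable {P : Type u} [Fintype P] [PartialOrder P] [DecidableEq P] {r i : ℕ}

variable {C D : Finset P} {t e f : P → ℕ}

/-- at least `t` on the part -/
def Pin (C : Finset P) (t e : P → ℕ) : Prop := ∀ w ∈ C, t w ≤ e w

open Classical in
/-- the pinned window sum -/
noncomputable def ZP (i : ℕ) (C : Finset P) (t : P → ℕ) (n : ℕ) : A :=
  ∑ e ∈ (C.piAntidiag n).filter (Pin C t), tC i C e

/-- the pinned window series -/
noncomputable def ZPS (i : ℕ) (C : Finset P) (t : P → ℕ) : PowerSeries A :=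
  PowerSeries.mk (ZP i C t)

lemma coeff_ZPS (C : Finset P) (t : P → ℕ) (n : ℕ) :
    PowerSeries.coeff n (ZPS i C t) = ZP i C t n := by
  unfold ZPS
  rw [PowerSeries.coeff_mk]

lemma pin_of_zero (h : ∀ w ∈ C, t w = 0) : Pin C t e := fun w hw => by
  rw [h w hw]
  exact Nat.zero_le _

lemma ZP_disj (h : ∀ w ∈ C, t w = 0) (n : ℕ) : ZP i C t n = ZC i C n := by
  classical
  unfold ZP ZC
  rw [filter_true_of_mem fun e _ => pin_of_zero h]

lemma ZPS_disj (h : ∀ w ∈ C, t w = 0) : ZPS i C t = ZS i C := by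
  ext1 n
  rw [coeff_ZPS, coeff_ZS, ZP_disj h]

lemma pin_add (hCD : Disjoint C D) (he : Spt C e) (hf : Spt D f) :
    Pin (C ∪ D) t (e + f) ↔ Pin C t e ∧ Pin D t f := by
  constructor
  · intro h
    refine ⟨fun w hwC => ?_, fun w hwD => ?_⟩
    · have h1 := h w (mem_union_left _ hwC)
      rwa [Pi.add_apply, hf w (disjoint_left.1 hCD hwC), add_zero] at h1
    · have h1 := h w (mem_union_right _ hwD)
      rwa [Pi.add_apply, he w (disjoint_right.1 hCD hwD), zero_add] at h1
  · rintro ⟨h1, h2⟩ w hwCD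
    rw [Pi.add_apply]
    rcases mem_union.1 hwCD with h | h
    · have := h1 w h
      omega
    · have := h2 w h
      omega

theorem ZP_union (H : Gr P r) (hir : i ≤ r) (hC : Part i C) (hD : Part i D)
    (hCD : Disjoint C D) (n : ℕ) :
    ZP i (C ∪ D) t n = ∑ p ∈ antidiagonal n, ZP i C t p.1 * ZP i D t p.2 := by
  classical
  have h1 : ∑ p ∈ antidiagonal n, ZP i C t p.1 * ZP i D t p.2 =
      ∑ q ∈ (antidiagonal n).sigma (fun p => (C.piAntidiag p.1).filter (Pin C t) ×ˢ
        (D.piAntidiag p.2).filter (Pin D t)), tC i C q.2.1 * tC i D q.2.2 := by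
    rw [Finset.sum_sigma]
    refine Finset.sum_congr rfl fun p _ => ?_
    unfold ZP
    rw [Finset.sum_mul_sum, ← Finset.sum_product']
  rw [h1]
  unfold ZP
  refine Finset.sum_bij'
    (i := fun g _ => (⟨(C.sum g, D.sum g), (rst C g, rst D g)⟩ :
      Σ _ : ℕ × ℕ, (P → ℕ) × (P → ℕ)))
    (j := fun q _ => q.2.1 + q.2.2) ?_ ?_ ?_ ?_ ?_
  · intro g hg
    rw [mem_filter] at hg
    obtain ⟨hg, hpin⟩ := hg
    have hs := spt_of_mem hg
    rw [mem_piAntidiag] at hg
    rw [mem_sigma]
    have hpin' : Pin C t (rst C g) ∧ Pin D t (rst D g) := by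
      rw [← pin_add hCD (rst_spt C g) (rst_spt D g), rst_add_rst hCD hs]
      exact hpin
    refine ⟨?_, ?_⟩
    · rw [Finset.HasAntidiagonal.mem_antidiagonal]
      simp only
      rw [← Finset.sum_union hCD]
      exact hg.1
    · rw [mem_product, mem_filter, mem_filter, mem_piAntidiag, mem_piAntidiag]
      refine ⟨⟨⟨rst_sum C g, fun x hx => ?_⟩, hpin'.1⟩, ⟨rst_sum D g, fun x hx => ?_⟩, hpin'.2⟩
      · by_contra h; exact hx (rst_spt C g x h)
      · by_contra h; exact hx (rst_spt D g x h)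
  · rintro ⟨⟨a, b⟩, ⟨e, f⟩⟩ hq
    rw [mem_sigma, mem_product] at hq
    simp only at hq
    obtain ⟨hab, he, hf⟩ := hq
    rw [mem_filter] at he hf
    obtain ⟨he, hpe⟩ := he
    obtain ⟨hf, hpf⟩ := hf
    have hse := spt_of_mem he
    have hsf := spt_of_mem hf
    rw [mem_piAntidiag] at he hf
    rw [Finset.HasAntidiagonal.mem_antidiagonal] at hab
    rw [mem_filter, mem_piAntidiag]
    simp only
    refine ⟨⟨?_, ?_⟩, (pin_add hCD hse hsf).2 ⟨hpe, hpf⟩⟩
    · have h2 := sum_zero_of hCD hse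
      have h3 := sum_zero_of hCD.symm hsf
      have h4 : C.sum (e + f) = a := by
        have : C.sum (e + f) = C.sum e + C.sum f := by
          rw [← Finset.sum_add_distrib]; rfl
        rw [this, he.1, h3, add_zero]
      have h5 : D.sum (e + f) = b := by
        have : D.sum (e + f) = D.sum e + D.sum f := by
          rw [← Finset.sum_add_distrib]; rfl
        rw [this, hf.1, h2, zero_add]
      rw [Finset.sum_union hCD, h4, h5]
      exact hab
    · intro x hx
      by_contra h
      exact hx ((hse.add hsf) x h)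
  · intro g hg
    exact rst_add_rst hCD (spt_of_mem (mem_filter.1 hg).1)
  · rintro ⟨⟨a, b⟩, ⟨e, f⟩⟩ hq
    rw [mem_sigma, mem_product] at hq
    simp only at hq
    obtain ⟨hab, he, hf⟩ := hq
    rw [mem_filter] at he hf
    obtain ⟨he, hpe⟩ := he
    obtain ⟨hf, hpf⟩ := hf
    have hse := spt_of_mem he
    have hsf := spt_of_mem hf
    rw [mem_piAntidiag] at he hf
    have h2 := sum_zero_of hCD hse
    have h3 := sum_zero_of hCD.symm hsf
    have h4 : C.sum (e + f) = a := by
      have : C.sum (e + f) = C.sum e + C.sum f := by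
        rw [← Finset.sum_add_distrib]; rfl
      rw [this, he.1, h3, add_zero]
    have h5 : D.sum (e + f) = b := by
      have : D.sum (e + f) = D.sum e + D.sum f := by
        rw [← Finset.sum_add_distrib]; rfl
      rw [this, hf.1, h2, zero_add]
    have h6 : rst C (e + f) = e := rst_left hCD hse hsf
    have h7 : rst D (e + f) = f := by
      rw [add_comm e f]
      exact rst_left hCD.symm hsf hse
    simp only [h4, h5, h6, h7]
  · intro g hg
    have hs := spt_of_mem (mem_filter.1 hg).1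
    simp only
    rw [← tC_add H hir hC hD hCD (rst_spt C g) (rst_spt D g), rst_add_rst hCD hs]

theorem ZPS_union (H : Gr P r) (hir : i ≤ r) (hC : Part i C) (hD : Part i D)
    (hCD : Disjoint C D) : ZPS i (C ∪ D) t = ZPS i C t * ZPS i D t := by
  ext1 n
  rw [coeff_ZPS, PowerSeries.coeff_mul, ZP_union H hir hC hD hCD]
  simp only [coeff_ZPS]

/-- FACTORISATION of the pinned series over pairwise disjoint parts -/
theorem ZPS_biUnion (H : Gr P r) (hir : i ≤ r) {ι : Type*} [DecidableEq ι] (s : Finset ι)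
    (c : ι → Finset P) (hc : ∀ a ∈ s, Part i (c a))
    (hd : ∀ a ∈ s, ∀ b ∈ s, a ≠ b → Disjoint (c a) (c b)) :
    ZPS i (s.biUnion c) t = ∏ a ∈ s, ZPS i (c a) t := by
  induction s using Finset.induction_on with
  | empty =>
    rw [Finset.biUnion_empty, Finset.prod_empty, ZPS_disj (fun w hw => absurd hw (notMem_empty w)),
      ZS_empty H hir]
  | insert a s ha ih =>
    rw [Finset.biUnion_insert, Finset.prod_insert ha, ZPS_union H hir, ih]
    · exact fun b hb => hc b (mem_insert_of_mem hb)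
    · exact fun b hb b' hb' => hd b (mem_insert_of_mem hb) b' (mem_insert_of_mem hb')
    · exact hc a (mem_insert_self a s)
    · exact Part.biUnion s c fun b hb => hc b (mem_insert_of_mem hb)
    · rw [disjoint_biUnion_right]
      intro b hb
      refine hd a (mem_insert_self a s) b (mem_insert_of_mem hb) ?_
      rintro rfl
      exact ha hb

variable {ι : Type*} [DecidableEq ι] {κ : P → ι} {l : ℕ}

theorem ZPS_cuni (H : Gr P r) (hir : i ≤ r) (hil : i ≤ l) (hκ : Split l κ) :
    ZPS i (cuni l κ) t = ∏ a ∈ univ.image κ, ZPS i (cext l κ a) t :=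
  ZPS_biUnion H hir _ _ (fun a _ => part_cext H hil hκ a) (fun _ _ _ _ h => disj_cext h)

end Pool.Agent.GaussPoset.Win.Pn

end

/-! From `Pool.Agent.W_448pn_h63.PnB` -/

section

/-!
# Crossing factorisation (MP_448cb3_co, G2, case B, window j - 1)

`G`: the labels of the elements outside the extended components. If they are at most two, then the sum
over the configurations with these labels is the pinned window sum of the union of the components.
-/

namespace Pool.Agent.GaussPoset.Win.Pn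

set_option linter.unusedSectionVars false

open Finset

universe u

variable {P : Type u} [Fintype P] [PartialOrder P] [DecidableEq P] {r i l : ℕ}

variable {ι : Type*} [DecidableEq ι] {κ : P → ι} {e f G : P → ℕ}

/-- the elements outside the extended components -/
noncomputable def Crs (l : ℕ) (κ : P → ι) : Finset P := univ \ cuni l κ

lemma mem_Crs {z : P} : z ∈ Crs l κ ↔ z ∉ cuni l κ := by
  unfold Crs
  simp

/-- the thresholds given by the labels outside the components -/
noncomputable def th (G : P → ℕ) (w : P) : ℕ := (dc w).sup G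

lemma th_le {w : P} {n : ℕ} : th G w ≤ n ↔ ∀ z, z ⋖ w → G z ≤ n := by
  unfold th
  rw [Finset.sup_le_iff]
  simp only [mem_dc]

/-- the labels outside the components do not decrease upwards -/
def Mon (l : ℕ) (κ : P → ι) (G : P → ℕ) : Prop := ∀ z y, z ⋖ y → y ∉ cuni l κ → G z ≤ G y

lemma up_cuni (H : Gr P r) {x y : P} (hx : x ∈ cuni l κ) (hxy : x ⋖ y) : y ∈ cuni l κ := by
  unfold cuni at hx ⊢
  rw [mem_biUnion] at hx ⊢
  obtain ⟨a, ha, hx⟩ := hx
  refine ⟨a, ha, ?_⟩
  rw [mem_cext] at hx ⊢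
  exact fun w hw hl => hx w (hxy.le.trans hw) hl

/-- a small label cannot be killed at the distance two -/
lemma kill_bad (H : Gr P r) {w : P} (hw : i + 2 ≤ lev w) (h1 : e w ≤ 1) (h : FD e w) :
    ¬ AdmL i e := by
  intro hA
  obtain ⟨y, hy⟩ := uc_nonempty H (x := w) (by omega)
  have hly := lev_uc H hy
  have h2 : ¬ GU e w := fun h2 => hA w (by omega) ⟨h, h2⟩
  have h3 : e y < e w := by
    by_contra h3
    exact h2 ⟨y, mem_uc.1 hy, by omega⟩
  obtain ⟨s, hs⟩ := uc_nonempty H (x := y) (by omega)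
  exact hA y (by omega) ⟨⟨w, mem_uc.1 hy, h3⟩, s, mem_uc.1 hs, by omega⟩

lemma trm_bad (h : ¬ (AdmL i e ∧ AdmU i e)) : trm i e = 0 := by
  unfold trm cw
  rw [if_neg h, zero_mul, ite_self]

section fact

variable (H : Gr P r) (hir : i ≤ r) (hil : i + 2 ≤ l) (hκ : Split l κ) (hG : Spt (Crs l κ) G)
  (hf : Spt (cuni l κ) f)
include hκ hG hf

lemma add_out {z : P} (hz : z ∉ cuni l κ) : (G + f) z = G z := by
  rw [Pi.add_apply, hf z hz, add_zero]

lemma add_in {z : P} (hz : z ∈ cuni l κ) : (G + f) z = f z := by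
  rw [Pi.add_apply, hG z (fun h => mem_Crs.1 h hz), zero_add]

include H hil

/-- otherwise the term is zero -/
theorem fact_zero (h2 : ∀ z, G z ≤ 2) (h : ¬ (Mon l κ G ∧ Pin (cuni l κ) (th G) f)) :
    trm i (G + f) = 0 := by
  have key : ∀ z w, z ⋖ w → z ∉ cuni l κ → (G + f) w < G z → trm i (G + f) = 0 := by
    intro z w hzw hz hlt
    apply trm_bad
    rintro ⟨hA, -⟩
    have h3 := (two_up H hκ hz).1
    have h4 := lev_uc H (mem_uc.2 hzw)
    have h5 := h2 z
    exact kill_bad H (i := i) (w := w) (by omega) (by omega)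
      ⟨z, hzw, by rw [add_out hκ hG hf hz]; exact hlt⟩ hA
  rw [not_and_or] at h
  rcases h with h | h
  · unfold Mon at h
    push Not at h
    obtain ⟨z, y, hzy, hy, hlt⟩ := h
    have hz : z ∉ cuni l κ := fun hz => hy (up_cuni H hz hzy)
    exact key z y hzy hz (by rw [add_out hκ hG hf hy]; exact hlt)
  · unfold Pin at h
    push Not at h
    obtain ⟨w, hw, hlt⟩ := h
    have h3 : ∃ z, z ⋖ w ∧ f w < G z := by
      by_contra h3
      push Not at h3
      have := th_le.2 h3
      omega
    obtain ⟨z, hzw, hlt'⟩ := h3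
    have hz : z ∉ cuni l κ := by
      intro hz
      rw [hG z (fun h => mem_Crs.1 h hz)] at hlt'
      omega
    exact key z w hzw hz (by rw [add_in hκ hG hf hw]; exact hlt')

variable (hm : Mon l κ G) (hp : Pin (cuni l κ) (th G) f)
include hm hp

omit hil in
lemma fact_FD (x : P) : FD (G + f) x ↔ FD f x := by
  by_cases hx : x ∈ cuni l κ
  · have hpx := th_le.1 (hp x hx)
    constructor
    · rintro ⟨x', hx', hlt⟩
      rw [add_in hκ hG hf hx] at hlt
      by_cases hx2 : x' ∈ cuni l κ
      · exact ⟨x', hx', by rwa [add_in hκ hG hf hx2] at hlt⟩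
      · rw [add_out hκ hG hf hx2] at hlt
        have := hpx x' hx'
        omega
    · rintro ⟨x', hx', hlt⟩
      refine ⟨x', hx', ?_⟩
      rw [add_in hκ hG hf hx, Pi.add_apply]
      omega
  · constructor
    · rintro ⟨x', hx', hlt⟩
      have hx2 : x' ∉ cuni l κ := fun h => hx (up_cuni H h hx')
      rw [add_out hκ hG hf hx, add_out hκ hG hf hx2] at hlt
      have := hm x' x hx' hx
      omega
    · rintro ⟨x', hx', hlt⟩
      have hx2 : x' ∉ cuni l κ := fun h => hx (up_cuni H h hx')
      rw [hf x' hx2] at hlt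
      omega

omit hil in
lemma fact_GU {x : P} (hx1 : 1 ≤ lev x) : GU (G + f) x ↔ GU f x := by
  by_cases hx : x ∈ cuni l κ
  · constructor
    · rintro ⟨y, hy, hle⟩
      refine ⟨y, hy, ?_⟩
      rwa [add_in hκ hG hf hx, add_in hκ hG hf (up_cuni H hx hy)] at hle
    · rintro ⟨y, hy, hle⟩
      refine ⟨y, hy, ?_⟩
      rwa [add_in hκ hG hf hx, add_in hκ hG hf (up_cuni H hx hy)]
  · obtain ⟨y, hy⟩ := uc_nonempty H hx1
    refine iff_of_true ⟨y, mem_uc.1 hy, ?_⟩ ⟨y, mem_uc.1 hy, ?_⟩
    · rw [add_out hκ hG hf hx]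
      by_cases hy2 : y ∈ cuni l κ
      · rw [add_in hκ hG hf hy2]
        exact th_le.1 (hp y hy2) x (mem_uc.1 hy)
      · rw [add_out hκ hG hf hy2]
        exact hm x y (mem_uc.1 hy) hy2
    · rw [hf x hx]
      exact Nat.zero_le _

omit hm hp in
lemma fact_FU {x : P} (hx : lev x ≤ i) : FU (G + f) x ↔ FU f x := by
  have hx2 : x ∈ cuni l κ := le_mem_cuni hκ (by omega)
  constructor
  · rintro ⟨y, hy, hlt⟩
    refine ⟨y, hy, ?_⟩
    rwa [add_in hκ hG hf hx2, add_in hκ hG hf (up_cuni H hx2 hy)] at hlt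
  · rintro ⟨y, hy, hlt⟩
    refine ⟨y, hy, ?_⟩
    rwa [add_in hκ hG hf hx2, add_in hκ hG hf (up_cuni H hx2 hy)]

omit hm hp in
lemma fact_GD {x : P} (hx : lev x < i) : GD (G + f) x ↔ GD f x := by
  have hx2 : x ∈ cuni l κ := le_mem_cuni hκ (by omega)
  have key : ∀ z, z ⋖ x → z ∈ cuni l κ := by
    intro z hz
    have := lev_uc H (mem_uc.2 hz)
    exact le_mem_cuni hκ (by omega)
  constructor
  · rintro ⟨y, hy, hlt⟩
    refine ⟨y, hy, ?_⟩
    rwa [add_in hκ hG hf hx2, add_in hκ hG hf (key y hy)] at hlt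
  · rintro ⟨y, hy, hlt⟩
    refine ⟨y, hy, ?_⟩
    rwa [add_in hκ hG hf hx2, add_in hκ hG hf (key y hy)]

/-- the term factorises -/
theorem fact_term : trm i (G + f) = tC i (cuni l κ) f := by
  classical
  have h1 : AdmL i (G + f) ↔ AdmL i f := by
    unfold AdmL
    refine forall_congr' fun z => ?_
    refine imp_congr_right fun hz => ?_
    rw [fact_FD H hκ hG hf hm hp, fact_GU H hκ hG hf hm hp (by omega)]
  have h2 : AdmU i (G + f) ↔ AdmU i f := by
    unfold AdmU
    refine forall_congr' fun z => ?_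
    refine imp_congr_right fun hz => ?_
    rw [fact_FU H hil hκ hG hf (by omega), fact_GD H hil hκ hG hf hz]
  have h3 : aL i (G + f) = aL i f := by
    unfold aL
    congr 1
    refine Finset.filter_congr fun z _ => ?_
    rw [fact_FD H hκ hG hf hm hp]
  have h4 : pL i (G + f) = pL i f := by
    unfold pL
    congr 1
    refine Finset.filter_congr fun z _ => ?_
    refine and_congr_right fun hz => ?_
    rw [fact_FD H hκ hG hf hm hp, fact_GU H hκ hG hf hm hp (by omega)]
  have h5 : aU i (G + f) = aU i f := by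
    unfold aU
    congr 1
    refine Finset.filter_congr fun z _ => ?_
    refine and_congr_right fun hz => ?_
    rw [fact_FU H hil hκ hG hf (by omega)]
  have h6 : pU i (G + f) = pU i f := by
    unfold pU
    congr 1
    refine Finset.filter_congr fun z _ => ?_
    refine and_congr_right fun hz => ?_
    rw [fact_FU H hil hκ hG hf (by omega), fact_GD H hil hκ hG hf hz]
  have h7 : AL i (G + f) = AL i f := by
    unfold AL
    refine Finset.filter_congr fun z _ => ?_
    rw [fact_FD H hκ hG hf hm hp]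
  have h8 : AU i (G + f) = AU i f := by
    unfold AU
    refine Finset.filter_congr fun z hz => ?_
    rw [mem_lv] at hz
    rw [fact_FU H hil hκ hG hf (by omega)]
  unfold trm tC cw
  rw [h3, h4, h5, h6, h7, h8, st_cuni (by omega) hκ]
  simp only [h1, h2]

end fact

end Pool.Agent.GaussPoset.Win.Pn

end

/-! From `Pool.Agent.W_448pn_h63.PnC` -/

section

/-!
# Crossing configurations as products of pinned series (MP_448cb3_co, G2, case B, window j - 1)
-/

namespace Pool.Agent.GaussPoset.Win.Pn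

set_option linter.unusedSectionVars false

open Finset

universe u

variable {P : Type u} [Fintype P] [PartialOrder P] [DecidableEq P] {r i l : ℕ}

variable {C D : Finset P}

/-- a sum over the configurations on a disjoint union -/
theorem split_sum {M : Type*} [AddCommMonoid M] (hCD : Disjoint C D) (F : (P → ℕ) → M) (n : ℕ) :
    ∑ e ∈ (C ∪ D).piAntidiag n, F e = ∑ p ∈ Finset.HasAntidiagonal.antidiagonal n,
      ∑ g ∈ C.piAntidiag p.1, ∑ f ∈ D.piAntidiag p.2, F (g + f) := by
  classical
  have h1 : ∑ p ∈ Finset.HasAntidiagonal.antidiagonal n,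
      ∑ g ∈ C.piAntidiag p.1, ∑ f ∈ D.piAntidiag p.2, F (g + f) =
      ∑ q ∈ (Finset.HasAntidiagonal.antidiagonal n).sigma (fun p => (C.piAntidiag p.1) ×ˢ
        (D.piAntidiag p.2)), F (q.2.1 + q.2.2) := by
    rw [Finset.sum_sigma]
    refine Finset.sum_congr rfl fun p _ => ?_
    rw [← Finset.sum_product']
  rw [h1]
  refine Finset.sum_bij'
    (i := fun g _ => (⟨(C.sum g, D.sum g), (rst C g, rst D g)⟩ :
      Σ _ : ℕ × ℕ, (P → ℕ) × (P → ℕ)))
    (j := fun q _ => q.2.1 + q.2.2) ?_ ?_ ?_ ?_ ?_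
  · intro g hg
    have hs := spt_of_mem hg
    rw [mem_piAntidiag] at hg
    rw [mem_sigma]
    refine ⟨?_, ?_⟩
    · rw [Finset.HasAntidiagonal.mem_antidiagonal]
      simp only
      rw [← Finset.sum_union hCD]
      exact hg.1
    · rw [mem_product, mem_piAntidiag, mem_piAntidiag]
      refine ⟨⟨rst_sum C g, fun x hx => ?_⟩, ⟨rst_sum D g, fun x hx => ?_⟩⟩
      · by_contra h; exact hx (rst_spt C g x h)
      · by_contra h; exact hx (rst_spt D g x h)
  · rintro ⟨⟨a, b⟩, ⟨e, f⟩⟩ hq
    rw [mem_sigma, mem_product] at hq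
    simp only at hq
    obtain ⟨hab, he, hf⟩ := hq
    have hse := spt_of_mem he
    have hsf := spt_of_mem hf
    rw [mem_piAntidiag] at he hf
    rw [Finset.HasAntidiagonal.mem_antidiagonal] at hab
    rw [mem_piAntidiag]
    simp only
    refine ⟨?_, ?_⟩
    · have h2 := sum_zero_of hCD hse
      have h3 := sum_zero_of hCD.symm hsf
      have h4 : C.sum (e + f) = a := by
        have : C.sum (e + f) = C.sum e + C.sum f := by
          rw [← Finset.sum_add_distrib]; rfl
        rw [this, he.1, h3, add_zero]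
      have h5 : D.sum (e + f) = b := by
        have : D.sum (e + f) = D.sum e + D.sum f := by
          rw [← Finset.sum_add_distrib]; rfl
        rw [this, hf.1, h2, zero_add]
      rw [Finset.sum_union hCD, h4, h5]
      exact hab
    · intro x hx
      by_contra h
      exact hx ((hse.add hsf) x h)
  · intro g hg
    exact rst_add_rst hCD (spt_of_mem hg)
  · rintro ⟨⟨a, b⟩, ⟨e, f⟩⟩ hq
    rw [mem_sigma, mem_product] at hq
    simp only at hq
    obtain ⟨hab, he, hf⟩ := hq
    have hse := spt_of_mem he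
    have hsf := spt_of_mem hf
    rw [mem_piAntidiag] at he hf
    have h2 := sum_zero_of hCD hse
    have h3 := sum_zero_of hCD.symm hsf
    have h4 : C.sum (e + f) = a := by
      have : C.sum (e + f) = C.sum e + C.sum f := by
        rw [← Finset.sum_add_distrib]; rfl
      rw [this, he.1, h3, add_zero]
    have h5 : D.sum (e + f) = b := by
      have : D.sum (e + f) = D.sum e + D.sum f := by
        rw [← Finset.sum_add_distrib]; rfl
      rw [this, hf.1, h2, zero_add]
    have h6 : rst C (e + f) = e := rst_left hCD hse hsf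
    have h7 : rst D (e + f) = f := by
      rw [add_comm e f]
      exact rst_left hCD.symm hsf hse
    simp only [h4, h5, h6, h7]
  · intro g hg
    have hs := spt_of_mem hg
    simp only
    rw [rst_add_rst hCD hs]

variable {ι : Type*} [DecidableEq ι] {κ : P → ι} {e f G : P → ℕ}

lemma crs_union : Crs l κ ∪ cuni l κ = univ := by
  unfold Crs
  exact sdiff_union_of_subset (subset_univ _)

lemma crs_disj : Disjoint (Crs l κ) (cuni l κ) := sdiff_disjoint

open Classical in
/-- the admissible labels outside the components, of total `m`, at most two -/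
noncomputable def GG (l : ℕ) (κ : P → ι) (m : ℕ) : Finset (P → ℕ) :=
  ((Crs l κ).piAntidiag m).filter (fun G => (∀ z, G z ≤ 2) ∧ Mon l κ G)

/-- some label outside the components is at least three -/
def Big (l : ℕ) (κ : P → ι) (e : P → ℕ) : Prop := ∃ z, z ∉ cuni l κ ∧ 3 ≤ e z

/-- the product of the pinned series -/
noncomputable def PPS (i l : ℕ) (κ : P → ι) (G : P → ℕ) : PowerSeries A :=
  ∏ a ∈ univ.image κ, ZPS i (cext l κ a) (th G)

lemma small_iff (hG : Spt (Crs l κ) G) (hf : Spt (cuni l κ) f) (hκ : Split l κ) :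
    (∀ z, G z ≤ 2) ↔ ¬ Big l κ (G + f) := by
  unfold Big
  constructor
  · rintro h ⟨z, hz, h3⟩
    rw [add_out hκ hG hf hz] at h3
    have := h z
    omega
  · intro h z
    by_contra h2
    by_cases hz : z ∈ cuni l κ
    · rw [hG z (fun h => mem_Crs.1 h hz)] at h2
      omega
    · exact h ⟨z, hz, by rw [add_out hκ hG hf hz]; omega⟩

open Classical in
/-- the sum over the configurations with given labels outside the components -/
theorem inner_sum (H : Gr P r) (hir : i ≤ r) (hil : i + 2 ≤ l) (hκ : Split l κ)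
    (hG : Spt (Crs l κ) G) (h2 : ∀ z, G z ≤ 2) (n : ℕ) :
    ∑ f ∈ (cuni l κ).piAntidiag n, trm i (G + f) =
      if Mon l κ G then PowerSeries.coeff n (PPS i l κ G) else 0 := by
  classical
  unfold PPS
  rw [← ZPS_cuni H hir (by omega) hκ, coeff_ZPS]
  split_ifs with hm
  · unfold ZP
    rw [Finset.sum_filter]
    refine Finset.sum_congr rfl fun f hf => ?_
    split_ifs with hp
    · exact fact_term H hil hκ hG (spt_of_mem hf) hm hp
    · exact fact_zero H hil hκ hG (spt_of_mem hf) h2 (fun h => hp h.2)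
  · exact Finset.sum_eq_zero fun f hf =>
      fact_zero H hil hκ hG (spt_of_mem hf) h2 (fun h => hm h.1)

open Classical in
/-- THE CROSSING SUM: products of pinned series, and the configurations with a label at least three
outside the components -/
theorem cross_sum (H : Gr P r) (hir : i ≤ r) (hil : i + 2 ≤ l) (hκ : Split l κ) (n : ℕ) :
    ∑ e ∈ ((univ : Finset P).piAntidiag n).filter (fun e => ∃ z, z ∉ cuni l κ ∧ 1 ≤ e z),
      trm i e =
    ∑ p ∈ (Finset.HasAntidiagonal.antidiagonal n).filter (fun p => 1 ≤ p.1),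
      ∑ G ∈ GG l κ p.1, PowerSeries.coeff p.2 (PPS i l κ G) +
    ∑ e ∈ ((univ : Finset P).piAntidiag n).filter (Big l κ), trm i e := by
  classical
  rw [Finset.sum_filter, Finset.sum_filter (s := (univ : Finset P).piAntidiag n), ← crs_union
    (l := l) (κ := κ), split_sum crs_disj, split_sum crs_disj, Finset.sum_filter,
    ← Finset.sum_add_distrib]
  refine Finset.sum_congr rfl fun p hp => ?_
  have h0 : ∀ g ∈ (Crs l κ).piAntidiag p.1, ∀ f ∈ (cuni l κ).piAntidiag p.2,
      ((∃ z, z ∉ cuni l κ ∧ 1 ≤ (g + f) z) ↔ 1 ≤ p.1) := by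
    intro g hg f hf
    have hgs := spt_of_mem hg
    have hfs := spt_of_mem hf
    rw [mem_piAntidiag] at hg
    constructor
    · rintro ⟨z, hz, h1⟩
      rw [add_out hκ hgs hfs hz] at h1
      rw [← hg.1]
      exact h1.trans (Finset.single_le_sum (f := g) (fun _ _ => Nat.zero_le _) (mem_Crs.2 hz))
    · intro h1
      by_contra h2
      push Not at h2
      have : (Crs l κ).sum g = 0 := Finset.sum_eq_zero fun z hz => by
        have h3 := h2 z (mem_Crs.1 hz)
        rw [add_out hκ hgs hfs (mem_Crs.1 hz)] at h3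
        omega
      omega
  have h1 : ∀ g ∈ (Crs l κ).piAntidiag p.1,
      ∑ f ∈ (cuni l κ).piAntidiag p.2,
        (if ∃ z, z ∉ cuni l κ ∧ 1 ≤ (g + f) z then trm i (g + f) else 0) =
      (if 1 ≤ p.1 then (if (∀ z, g z ≤ 2) ∧ Mon l κ g then
        PowerSeries.coeff p.2 (PPS i l κ g) else 0) else 0) +
      ∑ f ∈ (cuni l κ).piAntidiag p.2, (if Big l κ (g + f) then trm i (g + f) else 0) := by
    intro g hg
    have hgs := spt_of_mem hg
    by_cases h2 : ∀ z, g z ≤ 2
    · rw [Finset.sum_eq_zero (s := (cuni l κ).piAntidiag p.2)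
        (f := fun f => if Big l κ (g + f) then trm i (g + f) else 0) (fun f hf => by
          rw [if_neg ((small_iff hgs (spt_of_mem hf) hκ).1 h2)]), add_zero]
      by_cases h3 : 1 ≤ p.1
      · rw [if_pos h3, Finset.sum_congr rfl (fun f hf => if_pos ((h0 g hg f hf).2 h3)),
          inner_sum H hir hil hκ hgs h2]
        by_cases hm : Mon l κ g
        · rw [if_pos hm, if_pos ⟨h2, hm⟩]
        · rw [if_neg hm, if_neg (fun h => hm h.2)]
      · rw [if_neg h3]
        exact Finset.sum_eq_zero fun f hf => if_neg (fun h => h3 ((h0 g hg f hf).1 h))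
    · have h3 : ∀ f ∈ (cuni l κ).piAntidiag p.2, Big l κ (g + f) := by
        intro f hf
        by_contra h
        exact h2 ((small_iff hgs (spt_of_mem hf) hκ).2 h)
      have h4 : (if 1 ≤ p.1 then (if (∀ z, g z ≤ 2) ∧ Mon l κ g then
          PowerSeries.coeff p.2 (PPS i l κ g) else 0) else 0) = 0 := by
        rw [if_neg (show ¬ ((∀ z, g z ≤ 2) ∧ Mon l κ g) from fun h => h2 h.1), ite_self]
      rw [h4, zero_add]
      refine Finset.sum_congr rfl fun f hf => ?_
      rw [if_pos (h3 f hf), if_pos]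
      obtain ⟨z, hz, h⟩ := h3 f hf
      exact ⟨z, hz, by omega⟩
  rw [Finset.sum_congr rfl h1, Finset.sum_add_distrib]
  congr 1
  by_cases h3 : 1 ≤ p.1
  · simp only [if_pos h3]
    unfold GG
    rw [Finset.sum_filter]
  · simp only [if_neg h3]
    rw [Finset.sum_const_zero]

end Pool.Agent.GaussPoset.Win.Pn

end

/-! From `Pool.Agent.W_448so_h63.FA` -/

section

/-!
S9 with Z2 (MP_448cb3_co, case B): the sum over the cores with exceptional cores of smaller energy.
-/

set_option autoImplicit false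

namespace Pool.Agent.GaussPoset.Win.So

set_option linter.unusedSectionVars false

open Finset

universe u

variable {P : Type u} [Fintype P] [PartialOrder P] [DecidableEq P] {r i : ℕ}

open Classical in
/-- core theorem for a class `Q`, with a set `S'` of exceptional cores of smaller energy -/
theorem core_sum_E (H : Gr P r) {i : ℕ} (hi : 1 ≤ i) (hi2 : i + 1 ≤ r) {K : Finset P}
    {psi : P → P} (hM : Mat P i K psi) (n k : ℕ) (Q : (P → ℕ) → Prop)
    (hQ : ∀ e l : P → ℕ, (∀ x, x ∉ near P i → l x = 0) → (Q (e + l) ↔ Q e))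
    (S' : Finset (P → ℕ)) (hS' : ∀ e ∈ S', IsCore i K psi e ∧ ∑ x, e x < n ∧ Q e)
    (hk : ∀ e : P → ℕ, IsCore i K psi e → Q e → ∑ x, e x < n → e ∉ S' →
      Rk (lv P i) k (Fe i e))
    (S : Finset (P → ℕ)) (hS : ∀ e ∈ S, IsCore i K psi e ∧ ∑ x, e x = n ∧ Q e)
    (hall : ∀ e : P → ℕ, IsCore i K psi e → Q e → ∑ x, e x = n → e ∉ S →
      Rk (lv P i) k (Fe i e)) :
    dd ^ ((lv P i).card - k) ∣
      ∑ e ∈ ((univ : Finset P).piAntidiag n).filter Q, trm i e - (∑ e ∈ S, trm i e +
        ∑ e ∈ S', ∑ l ∈ (Rst i K psi e).piAntidiag (n - ∑ x, e x), trm i (e + l)) := by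
  have hl0 : ∀ (e0 l : P → ℕ) (m : ℕ), l ∈ (Rst i K psi e0).piAntidiag m →
      (Q (e0 + l) ↔ Q e0) := by
    intro e0 l m hl
    apply hQ
    intro x hx
    by_contra h
    rw [Finset.mem_piAntidiag] at hl
    exact hx (mem_Rst.mp (hl.2 x h)).1
  -- the value of a core
  set g : (P → ℕ) → A := fun e0 => ∑ l ∈ (Rst i K psi e0).piAntidiag (n - ∑ x, e0 x),
    (if Q (e0 + l) then trm i (e0 + l) else 0) with hg
  set U : Finset (P → ℕ) := (range (n + 1)).biUnion
    (fun q => ((univ : Finset P).piAntidiag q).filter (IsCore i K psi)) with hU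
  have mU : ∀ e, e ∈ U ↔ ∑ x, e x ≤ n ∧ IsCore i K psi e := by
    intro e
    rw [hU, mem_biUnion]
    constructor
    · rintro ⟨q, hq, he⟩
      rw [mem_range] at hq
      rw [mem_filter, Finset.mem_piAntidiag] at he
      have h1 : ∑ x, e x = q := he.1.1
      exact ⟨by omega, he.2⟩
    · rintro ⟨h1, h2⟩
      refine ⟨∑ x, e x, mem_range.2 (by omega), ?_⟩
      rw [mem_filter, Finset.mem_piAntidiag]
      exact ⟨⟨rfl, fun x _ => mem_univ x⟩, h2⟩
  have htot : ∑ e ∈ ((univ : Finset P).piAntidiag n).filter Q, trm i e = ∑ e ∈ U, g e := by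
    rw [Finset.sum_filter, core_group H (fun e => if Q e then trm i e else 0) i K psi n, hU,
      Finset.sum_biUnion]
    · refine Finset.sum_congr rfl fun q hq => Finset.sum_congr rfl fun e0 he => ?_
      rw [mem_filter, Finset.mem_piAntidiag] at he
      have h2 : ∑ x, e0 x = q := he.1.1
      simp only [hg, h2]
    · intro q hq q' hq' hne
      rw [Function.onFun, disjoint_left]
      intro e he he'
      rw [mem_filter, Finset.mem_piAntidiag] at he he'
      exact hne (he.1.1.symm.trans he'.1.1)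
  have hSU : S ⊆ U := fun e he => (mU e).2 ⟨(hS e he).2.1.le, (hS e he).1⟩
  have hSU' : S' ⊆ U := fun e he => (mU e).2 ⟨(hS' e he).2.1.le, (hS' e he).1⟩
  have hdis : Disjoint S S' := by
    rw [disjoint_left]
    intro e he he'
    have h1 := (hS e he).2.1
    have h2 := (hS' e he').2.1
    omega
  have gS : ∑ e ∈ S, g e = ∑ e ∈ S, trm i e := by
    refine Finset.sum_congr rfl fun e he => ?_
    have h1 := (hS e he).2.1
    simp only [hg, h1, Nat.sub_self]
    rw [Finset.piAntidiag_zero, Finset.sum_singleton, add_zero, if_pos (hS e he).2.2]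
  have gS' : ∑ e ∈ S', g e =
      ∑ e ∈ S', ∑ l ∈ (Rst i K psi e).piAntidiag (n - ∑ x, e x), trm i (e + l) := by
    refine Finset.sum_congr rfl fun e he => Finset.sum_congr rfl fun l hl => ?_
    rw [if_pos ((hl0 e l _ hl).2 (hS' e he).2.2)]
  have hrest : ∀ e ∈ U \ (S ∪ S'), dd ^ ((lv P i).card - k) ∣ g e := by
    intro e he
    rw [mem_sdiff, mU, mem_union, not_or] at he
    obtain ⟨⟨h1, h2⟩, h3, h4⟩ := he
    by_cases hQ0 : Q e
    · have h5 : Rk (lv P i) k (Fe i e) := by
        rcases lt_or_eq_of_le h1 with h | h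
        · exact hk e h2 hQ0 h h4
        · exact hall e h2 hQ0 h h3
      have h6 := Rk_II (core_cheap H hi hi2 hM h2 h5 (n - ∑ x, e x))
      have h7 : II i (fun S => ∑ l ∈ (Rst i K psi e).piAntidiag (n - ∑ x, e x), Fe i (e + l) S) =
          g e := by
        unfold II
        simp only [Finset.mul_sum, hg]
        rw [Finset.sum_comm]
        refine Finset.sum_congr rfl fun l hl => ?_
        rw [if_pos ((hl0 e l _ hl).2 hQ0), ← II_Fe]
        rfl
      rw [h7] at h6
      exact h6
    · have h5 : g e = 0 := by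
        simp only [hg]
        refine Finset.sum_eq_zero fun l hl => ?_
        rw [if_neg (fun h => hQ0 ((hl0 e l _ hl).1 h))]
      rw [h5]
      exact dvd_zero _
  rw [htot, ← Finset.sum_sdiff (union_subset hSU hSU'), Finset.sum_union hdis, gS, gS',
    add_sub_cancel_right]
  exact Finset.dvd_sum hrest

/-- configurations of energy one -/
lemma sum_pa_one {M : Type*} [AddCommMonoid M] (R : Finset P) (f : (P → ℕ) → M) :
    ∑ l ∈ R.piAntidiag 1, f l = ∑ x ∈ R, f (Pi.single x 1) := by
  classical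
  symm
  refine Finset.sum_bij (fun x _ => Pi.single x 1) ?_ ?_ ?_ (fun _ _ => rfl)
  · intro x hx
    rw [Finset.mem_piAntidiag]
    constructor
    · rw [Finset.sum_eq_single_of_mem x hx]
      · rw [Pi.single_apply, if_pos rfl]
      · intro y _ hyx
        rw [Pi.single_apply, if_neg hyx]
    · intro y hy
      by_cases h : y = x
      · rw [h]; exact hx
      · exact absurd (by rw [Pi.single_apply, if_neg h]) hy
  · intro x hx y hy h
    by_contra hne
    have h1 := congrFun h x
    rw [Pi.single_apply, Pi.single_apply, if_pos rfl, if_neg hne] at h1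
    exact absurd h1 one_ne_zero
  · intro l hl
    rw [Finset.mem_piAntidiag] at hl
    obtain ⟨h1, h2⟩ := hl
    have h3 : ∃ x ∈ R, l x ≠ 0 := by
      by_contra h
      push Not at h
      rw [Finset.sum_eq_zero h] at h1
      exact absurd h1 zero_ne_one
    obtain ⟨x, hx, hlx⟩ := h3
    refine ⟨x, hx, ?_⟩
    have h4 : ∑ y ∈ R.erase x, l y = 0 ∧ l x = 1 := by
      have h5 : l x + ∑ y ∈ R.erase x, l y = ∑ y ∈ R, l y := Finset.add_sum_erase R l hx
      have h6 : ∑ y ∈ R, l y = 1 := h1
      constructor <;> omega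
    funext y
    rw [Pi.single_apply]
    by_cases h : y = x
    · rw [if_pos h, h, h4.2]
    · rw [if_neg h]
      by_contra h6
      have h7 := (Finset.sum_eq_zero_iff.1 h4.1) y (Finset.mem_erase.2 ⟨h, h2 y (Ne.symm h6)⟩)
      exact h6 h7.symm

end Pool.Agent.GaussPoset.Win.So

end

/-! From `Pool.Agent.W_448so_h63.FG` -/

section

/-!
S9 with Z2 (MP_448cb3_co, case B): classification of the cross cores and the sums at the energies five, six.
-/

set_option autoImplicit false

namespace Pool.Agent.GaussPoset.Win.So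

set_option linter.unusedSectionVars false

open Finset SO

universe u

variable {P : Type u} [Fintype P] [PartialOrder P] [DecidableEq P] {r i : ℕ}

variable {ι : Type*} [DecidableEq ι] {κ : P → ι} {v p p' y y' x : P} {e : P → ℕ} {psi : P → P}

open Classical in
/-- joins of the level `i + 3` between two pendants over disjoint pairs of sites -/
noncomputable def Z2s (i : ℕ) (κ : P → ι) : Finset P :=
  univ.filter (fun v => lev v = i + 3 ∧ v ∉ cuni (i + 2) κ ∧ up (i + 1) v = 2 ∧ up i v = 4)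

lemma mem_Z2s {v : P} : v ∈ Z2s i κ ↔ lev v = i + 3 ∧ v ∉ cuni (i + 2) κ ∧ up (i + 1) v = 2 ∧
    up i v = 4 := by
  classical
  unfold Z2s
  rw [mem_filter]
  simp

lemma Z2s_ZD (H : Gr P r) (hκ : Split (i + 2) κ) (hv : v ∈ Z2s i κ) :
    ∃ p p' y y', ZD i κ v p p' y y' := by
  classical
  obtain ⟨h1, h2, h3, h4⟩ := mem_Z2s.1 hv
  obtain ⟨p, p', hk, huc⟩ := two_labels H hκ h2 (by omega)
  have D : CrV i κ v p p' := ⟨h1, huc, hk⟩
  have lp := D.lp H
  have lp' := D.lp' H
  have n1 : 1 ≤ (uc p).card := card_pos.2 (uc_nonempty H (by omega))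
  have n2 : 1 ≤ (uc p').card := card_pos.2 (uc_nonempty H (by omega))
  rw [D.up1 H hκ] at h3
  obtain ⟨y, hy⟩ := card_eq_one.1 (by omega : (uc p).card = 1)
  obtain ⟨y', hy'⟩ := card_eq_one.1 (by omega : (uc p').card = 1)
  have hs : up i v = (uc y ∪ uc y').card := by
    rw [up_eq]
    congr 1
    ext x
    rw [mem_filter, mem_lv, D.mem0 H, mem_union, hy, hy']
    constructor
    · rintro ⟨w, hw, hx⟩
      rw [mem_union, mem_singleton, mem_singleton] at hw
      rcases hw with rfl | rfl
      · exact Or.inl hx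
      · exact Or.inr hx
    · rintro (h | h)
      · exact ⟨y, by simp, h⟩
      · exact ⟨y', by simp, h⟩
  have h5 := card_union_le (uc y) (uc y')
  have h6 := uc_card_le H y
  have h7 := uc_card_le H y'
  exact ⟨p, p', y, y', D, hy, hy', by omega, by omega⟩

lemma en_eq (H : Gr P r) (D : ZD i κ v p p' y y') (x : P) :
    en {v, p, p', y, y'} x = eN i v + Pi.single x 1 := by
  classical
  funext z
  rw [Pi.add_apply, Pi.single_apply]
  unfold en eN
  rw [← D.cn H]
  congr 1
  by_cases h : z ∈ Cn i v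
  · rw [if_pos h, if_pos (mem_Cn.1 h)]
  · rw [if_neg h, if_neg (fun h' => h (mem_Cn.2 h'))]

lemma en_eq0 (x : P) : en (∅ : Finset P) x = Pi.single x 1 := by
  classical
  funext z
  rw [Pi.single_apply]
  unfold en
  rw [if_neg (notMem_empty z), zero_add]

lemma eN_sum5 (H : Gr P r) (hκ : Split (i + 2) κ) (hv : v ∈ Z2s i κ) : ∑ x, eN i v x = 5 := by
  classical
  obtain ⟨p, p', y, y', D⟩ := Z2s_ZD H hκ hv
  have h5 : ∀ x, eN i v x = if x ∈ CrV.T v p p' then 1 else 0 := by
    intro x
    unfold eN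
    by_cases hx : x ∈ CrV.T v p p'
    · rw [if_pos hx, if_pos ((D.T_iff H).1 hx)]
    · rw [if_neg hx, if_neg (fun h => hx ((D.T_iff H).2 h))]
  rw [Finset.sum_congr rfl (fun x _ => h5 x), Finset.sum_ite_mem, univ_inter, Finset.sum_const,
    smul_eq_mul, mul_one, D.card_T H hκ, D.hp, D.hp', card_singleton, card_singleton]

/-- THE CROSS CORES of energy at most six, joins of two pendants allowed -/
theorem cross_core' (H : Gr P r) (hi : 1 ≤ i) (hi2 : i + 1 ≤ r) (hg : Good P i)
    (hκ : Split (i + 2) κ) (hM : Mat P i ∅ psi)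
    (hc : IsCore i ∅ psi e) (hQ : CrO i κ e) (hn : ∑ x, e x ≤ 6) :
    Cheap 1 i e ∨ (∑ x, e x = 6 ∧ ∃ v ∈ N5s i κ, e = eN i v) ∨
      ∃ v ∈ Z2s i κ, ∀ x, eN i v x ≤ e x := by
  classical
  by_cases hA : AdmL i e
  swap
  · exact Or.inl (Or.inl hA)
  by_cases hB : AdmU i e
  swap
  · exact Or.inl (Or.inr (Or.inl hB))
  by_cases hd : Disjoint (AL i e) (AU i e)
  swap
  · exact Or.inl (Or.inr (Or.inr (Or.inl hd)))
  obtain ⟨z, hz, hze⟩ := hQ
  have hlz := (two_up H hκ hz).1
  obtain ⟨v, lv', hvc, hv⟩ := cross_v H hκ hA hn (lev z - (i + 3)) z (by omega) hz hze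
  obtain ⟨p, p', hk, huc⟩ := two_labels H hκ hvc (by omega)
  have D : CrV i κ v p p' := ⟨lv', huc, hk⟩
  have lp := D.lp H
  have lp' := D.lp' H
  have hcard := D.card_T H hκ
  have hpos := D.pos_T H hA hv
  have hle := card_le_sum hpos
  have n1 : 1 ≤ (uc p).card := card_pos.2 (uc_nonempty H (by omega))
  have n2 : 1 ≤ (uc p').card := card_pos.2 (uc_nonempty H (by omega))
  have hup1 := D.up1 H hκ
  by_cases h3 : (uc p).card + (uc p').card = 2
  · have h0 := D.up0_le H
    have u1 := (up_le_four H lp).1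
    have u2 := (up_le_four H lp').1
    rcases Nat.lt_or_ge (up i v) 4 with h4 | h4
    · left
      refine Or.inr (Or.inr (Or.inr ?_))
      obtain ⟨y, hy⟩ := card_eq_one.1 (by omega : (uc p).card = 1)
      obtain ⟨y', hy'⟩ := card_eq_one.1 (by omega : (uc p').card = 1)
      exact cross_one H (by omega) hκ D hA hB hd hv hM hc hy hy' hn (by omega)
    · right
      right
      have h5 : (uc p).card = 1 ∧ (uc p').card = 1 := by omega
      rw [h5.1] at u1
      rw [h5.2] at u2
      refine ⟨v, mem_Z2s.2 ⟨lv', hvc, by omega, by omega⟩, ?_⟩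
      intro x
      unfold eN
      split_ifs with hx
      · exact hpos x ((D.T_iff H).2 hx)
      · exact Nat.zero_le _
  · have hle2 := hle.trans hn
    have h4 : (uc p).card + (uc p').card = 3 := by omega
    have h5 : ∀ x, e x = if x ∈ CrV.T v p p' then 1 else 0 :=
      LowD_ind (fun x hx => hpos x hx) (by omega)
    have h6 : e = eN i v := by
      funext x
      rw [h5 x]
      unfold eN
      by_cases hx : x ∈ CrV.T v p p'
      · rw [if_pos hx, if_pos ((D.T_iff H).1 hx)]
      · rw [if_neg hx, if_neg (fun h => hx ((D.T_iff H).2 h))]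
    have h7 := cone_data H (i := i) (by omega) (v := v)
    obtain ⟨-, -, -, -, h8, h9, h10⟩ := h7
    obtain ⟨h11, h12⟩ := h10 (by omega)
    rw [← h6] at h8 h9 h11 h12
    have h13 : (AL i e).card = up i v := by rw [h12, up_eq]
    rw [if_neg (by omega)] at h11
    have h14 := D.up0_le H
    have h32 := (I32' H hi hi2 hg).1
    have u1 := (up_le_four H lp).1
    have u2 := (up_le_four H lp').1
    have u3 := h32 p lp
    have u4 := h32 p' lp'
    have h15 : up i v ≤ 5 := by
      have c1 : (uc p).card = 1 ∨ (uc p').card = 1 := by omega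
      rcases c1 with c1 | c1
      · rw [c1] at u1
        omega
      · rw [c1] at u2
        omega
    by_cases h16 : up i v = 5
    · right
      left
      exact ⟨by omega, v, mem_N5s.2 ⟨lv', hvc, by omega, h16⟩, h6⟩
    · left
      refine Or.inr (Or.inr (Or.inr ?_))
      rw [h9, card_empty, h8]
      omega

/-! ### adding a unit -/

lemma eq_of_sum {a b : P → ℕ} (h : ∀ x, a x ≤ b x) (hs : ∑ x, b x ≤ ∑ x, a x) : b = a := by
  have h1 : ∑ x, a x = ∑ x, b x := le_antisymm (sum_le_sum fun x _ => h x) hs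
  have h2 := (sum_eq_sum_iff_of_le (s := (univ : Finset P)) fun x _ => h x).1 h1
  funext x
  exact (h2 x (mem_univ x)).symm

lemma eq_add_single {a b : P → ℕ} (h : ∀ x, a x ≤ b x) (hs : ∑ x, b x = ∑ x, a x + 1) :
    ∃ x, b = a + Pi.single x 1 := by
  classical
  have h1 : ∃ x, a x < b x := by
    by_contra hc
    push Not at hc
    have : ∑ x, b x ≤ ∑ x, a x := sum_le_sum fun x _ => hc x
    omega
  obtain ⟨x, hx⟩ := h1
  refine ⟨x, eq_of_sum (a := a + Pi.single x 1) ?_ ?_⟩
  · intro z
    rw [Pi.add_apply, Pi.single_apply]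
    split_ifs with hz
    · subst hz
      omega
    · have := h z
      omega
  · have h2 : ∑ z, (a + Pi.single x 1 : P → ℕ) z = ∑ z, a z + 1 := by
      simp only [Pi.add_apply, sum_add_distrib]
      rw [Finset.sum_pi_single']
      simp
    omega

lemma sum_single_one (x : P) : ∑ z, (Pi.single x 1 : P → ℕ) z = 1 := by
  classical
  rw [Finset.sum_pi_single']
  simp

end Pool.Agent.GaussPoset.Win.So

end

/-! From `Pool.Agent.W_448so_h63.FH` -/

section

/-!
S9 with Z2 (MP_448cb3_co, case B): the sums over the cross configurations at the energies five, six.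
-/

set_option autoImplicit false

namespace Pool.Agent.GaussPoset.Win.So

set_option linter.unusedSectionVars false

open Finset SO

universe u

variable {P : Type u} [Fintype P] [PartialOrder P] [DecidableEq P] {r i : ℕ}

variable {ι : Type*} [DecidableEq ι] {κ : P → ι} {v p p' y y' x : P} {e : P → ℕ} {psi : P → P}

lemma eN_self (hv : i < lev v) : eN i v v = 1 := by
  unfold eN
  rw [if_pos ⟨le_rfl, hv⟩]

lemma eN_CrO (hl : i < lev v) (hv : v ∉ cuni (i + 2) κ) : CrO i κ (eN i v) :=
  ⟨v, hv, (eN_self hl).ge⟩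

/-- energy five: the joins of two pendants -/
theorem restZ5 (H : Gr P r) (hi : 1 ≤ i) (hi2 : i + 1 ≤ r) (hg : Good P i)
    (hκ : Split (i + 2) κ) [DecidablePred (CrO i κ)] :
    dd ^ ((lv P i).card - 1) ∣
      ∑ e ∈ ((univ : Finset P).piAntidiag 5).filter (CrO i κ), trm i e -
        ∑ v ∈ Z2s i κ, trm i (eN i v) := by
  classical
  obtain ⟨psi, hM⟩ := good_mat H hg
  have h := core_sum_Q H hi hi2 hM 5 1 (CrO i κ) (CrO_add H hκ) (fun e hc hQ hs => by
      rcases cross_core' H hi hi2 hg hκ hM hc hQ (by omega) with h | h | ⟨v, hv, h⟩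
      · exact Rk_of_cheap h
      · omega
      · have h1 := eN_sum5 H hκ hv
        have h2 : ∑ x, eN i v x ≤ ∑ x, e x := sum_le_sum fun x _ => h x
        omega) ((Z2s i κ).image (eN i)) (fun e he => by
      rw [mem_image] at he
      obtain ⟨v, hv, rfl⟩ := he
      obtain ⟨h1, h2, h3, h4⟩ := mem_Z2s.1 hv
      exact ⟨eN_core H (by omega), eN_sum5 H hκ hv, eN_CrO (by omega) h2⟩)
    (fun e hc hQ hs he => by
      rcases cross_core' H hi hi2 hg hκ hM hc hQ (by omega) with h | h | ⟨v, hv, h⟩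
      · exact Rk_of_cheap h
      · omega
      · exfalso
        apply he
        rw [mem_image]
        exact ⟨v, hv, (eq_of_sum h (by rw [hs, eN_sum5 H hκ hv])).symm⟩)
  rw [Finset.sum_image] at h
  · convert h
  · intro v hv v' hv' hvv
    have h1 := (mem_Z2s.1 hv).1
    have h1' := (mem_Z2s.1 hv').1
    exact eN_inj (by omega) (by omega) hvv

/-! ### energy six -/

open Classical in
/-- a join and a unit which is not a free near element -/
noncomputable def PPs (i : ℕ) (κ : P → ι) (psi : P → P) : Finset (P × P) :=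
  ((Z2s i κ) ×ˢ (univ : Finset P)).filter (fun q => q.2 ∉ Rst i ∅ psi (eN i q.1))

/-- the labelling of a join and a unit -/
noncomputable def fq (i : ℕ) (q : P × P) : P → ℕ := eN i q.1 + Pi.single q.2 1

open Classical in
/-- ordered pairs of joins with the same covers -/
noncomputable def TWs (i : ℕ) (κ : P → ι) : Finset (P × P) :=
  ((Z2s i κ) ×ˢ (Z2s i κ)).filter (fun q => q.1 ≠ q.2 ∧ uc q.1 = uc q.2)

lemma mem_PPs {q : P × P} : q ∈ PPs i κ psi ↔ q.1 ∈ Z2s i κ ∧ q.2 ∉ Rst i ∅ psi (eN i q.1) := by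
  classical
  unfold PPs
  rw [mem_filter, mem_product]
  simp

lemma mem_TWs {q : P × P} : q ∈ TWs i κ ↔ q.1 ∈ Z2s i κ ∧ q.2 ∈ Z2s i κ ∧ q.1 ≠ q.2 ∧
    uc q.1 = uc q.2 := by
  classical
  unfold TWs
  rw [mem_filter, mem_product, and_assoc]

lemma TWs_sub : TWs i κ ⊆ PPs i κ psi := by
  classical
  intro q hq
  obtain ⟨h1, h2, h3, h4⟩ := mem_TWs.1 hq
  refine mem_PPs.2 ⟨h1, fun h => ?_⟩
  have h5 := (mem_Rst.1 h).1
  have h6 := (mem_Z2s.1 h2).1
  rcases mem_near.1 h5 with h7 | h7 <;> omega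

lemma swap_TWs {q : P × P} (hq : q ∈ TWs i κ) : q.swap ∈ TWs i κ := by
  obtain ⟨h1, h2, h3, h4⟩ := mem_TWs.1 hq
  exact mem_TWs.2 ⟨h2, h1, Ne.symm h3, h4.symm⟩

/-- coincidences of the labellings -/
lemma fq_inj (H : Gr P r) {q q' : P × P} (hq : q ∈ PPs i κ psi) (hq' : q' ∈ PPs i κ psi)
    (h : fq i q = fq i q') : q = q' ∨ (q' = q.swap ∧ q ∈ TWs i κ) := by
  classical
  obtain ⟨v, x⟩ := q
  obtain ⟨v', x'⟩ := q'
  obtain ⟨h1, -⟩ := mem_PPs.1 hq
  obtain ⟨h1', -⟩ := mem_PPs.1 hq'
  have l1 := (mem_Z2s.1 h1).1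
  have l1' := (mem_Z2s.1 h1').1
  simp only at h1 h1' l1 l1'
  have key : ∀ z, eN i v z + (if z = x then 1 else 0) = eN i v' z + (if z = x' then 1 else 0) := by
    intro z
    have h2 := congrFun h z
    simp only [fq, Pi.add_apply, Pi.single_apply] at h2
    exact h2
  by_cases hv : v = v'
  · subst hv
    left
    have h2 := key x
    rw [if_pos rfl] at h2
    have h3 : x = x' := by
      by_contra hne
      rw [if_neg hne] at h2
      omega
    rw [h3]
  · right
    have e1 : ∀ a b : P, lev a = lev b → a ≠ b → eN i a b = 0 := by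
      intro a b hl hne
      unfold eN
      rw [if_neg]
      rintro ⟨h2, -⟩
      have := lev_strictAnti (lt_of_le_of_ne h2 hne)
      omega
    have hx : x = v' := by
      have h2 := key v'
      rw [e1 v v' (by omega) hv, eN_self (by omega)] at h2
      by_contra hne
      rw [if_neg (Ne.symm hne)] at h2
      omega
    have hx' : x' = v := by
      have h2 := key v
      rw [e1 v' v (by omega) (Ne.symm hv), eN_self (by omega)] at h2
      by_contra hne
      rw [if_neg (show ¬ v = x' from Ne.symm hne)] at h2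
      omega
    have sub : ∀ a b : P, lev a = i + 3 → lev b = i + 3 →
        (∀ z, eN i a z + (if z = b then 1 else 0) = eN i b z + (if z = a then 1 else 0)) →
        uc a ⊆ uc b := by
      intro a b la lb hk z hz
      have lz := lev_uc H hz
      have h2 := hk z
      have h3 : eN i a z = 1 := by
        unfold eN
        rw [if_pos ⟨(mem_uc.1 hz).le, by omega⟩]
      rw [h3, if_neg (show z ≠ a by rintro rfl; omega)] at h2
      have h4 : b ≤ z ∧ i < lev z := by
        by_contra h5
        unfold eN at h2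
        rw [if_neg h5] at h2
        omega
      rw [mem_uc, H.covBy_iff]
      refine ⟨lt_of_le_of_ne h4.1 ?_, by omega⟩
      rintro rfl
      omega
    have hk : ∀ z, eN i v z + (if z = v' then 1 else 0) = eN i v' z + (if z = v then 1 else 0) := by
      intro z
      have := key z
      rw [hx, hx'] at this
      exact this
    refine ⟨by rw [hx, hx']; rfl, ?_⟩
    rw [hx]
    exact mem_TWs.2 ⟨h1, h1', hv, Finset.Subset.antisymm (sub v v' l1 l1' hk)
      (sub v' v l1' l1 fun z => (hk z).symm)⟩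

/-- the sum over the labellings, coincidences taken into account -/
lemma sum_fq {M : Type*} [AddCommGroup M] (H : Gr P r) [DecidableEq (P → ℕ)]
    (f : (P → ℕ) → M) :
    (2 : ℕ) • ∑ e ∈ (PPs i κ psi).image (fq i), f e =
      (2 : ℕ) • ∑ q ∈ PPs i κ psi, f (fq i q) - ∑ q ∈ TWs i κ, f (fq i q) := by
  classical
  have hsub : TWs i κ ⊆ PPs i κ psi := TWs_sub
  have h1 : (PPs i κ psi).image (fq i) =
      (PPs i κ psi \ TWs i κ).image (fq i) ∪ (TWs i κ).image (fq i) := by
    rw [← image_union, sdiff_union_of_subset hsub]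
  have h2 : Disjoint ((PPs i κ psi \ TWs i κ).image (fq i)) ((TWs i κ).image (fq i)) := by
    rw [disjoint_left]
    intro e he he'
    rw [mem_image] at he he'
    obtain ⟨q, hq, rfl⟩ := he
    obtain ⟨q', hq', h⟩ := he'
    rw [mem_sdiff] at hq
    rcases fq_inj H (hsub hq') hq.1 h with h3 | ⟨h3, h4⟩
    · rw [h3] at hq'
      exact hq.2 hq'
    · apply hq.2
      rw [h3]
      exact swap_TWs h4
  have h3 : ∑ e ∈ (PPs i κ psi \ TWs i κ).image (fq i), f e =
      ∑ q ∈ PPs i κ psi \ TWs i κ, f (fq i q) := by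
    rw [sum_image]
    intro q hq q' hq' h
    rw [mem_coe, mem_sdiff] at hq hq'
    rcases fq_inj H hq.1 hq'.1 h with h4 | ⟨-, h4⟩
    · exact h4
    · exact absurd h4 hq.2
  have h4 : (2 : ℕ) • ∑ e ∈ (TWs i κ).image (fq i), f e = ∑ q ∈ TWs i κ, f (fq i q) := by
    rw [Finset.sum_comp f (fq i), Finset.smul_sum]
    refine sum_congr rfl fun e he => ?_
    rw [mem_image] at he
    obtain ⟨q, hq, rfl⟩ := he
    have h5 : (TWs i κ).filter (fun a => fq i a = fq i q) = {q, q.swap} := by
      ext q'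
      rw [mem_filter, mem_insert, mem_singleton]
      constructor
      · rintro ⟨h6, h7⟩
        rcases fq_inj H (hsub hq) (hsub h6) h7.symm with h8 | ⟨h8, -⟩
        · exact Or.inl h8.symm
        · exact Or.inr h8
      · have hsw : fq i q.swap = fq i q := by
          obtain ⟨k1, k2, k3, k4⟩ := mem_TWs.1 hq
          have l1 := (mem_Z2s.1 k1).1
          have l2 := (mem_Z2s.1 k2).1
          funext z
          simp only [fq, Pi.add_apply, Pi.single_apply, Prod.fst_swap, Prod.snd_swap]
          have cone : ∀ a b : P, lev a = i + 3 → lev b = i + 3 → uc a = uc b → z ≠ a →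
              (a ≤ z ∧ i < lev z) → (b ≤ z ∧ i < lev z) := by
            intro a b la lb hab hza ⟨h6, h7⟩
            refine ⟨?_, h7⟩
            obtain ⟨w, hw, hwz⟩ := exists_covBy_le_of_lt (lt_of_le_of_ne h6 (Ne.symm hza))
            have h8 : w ∈ uc b := by rw [← hab]; exact mem_uc.2 hw
            exact (mem_uc.1 h8).le.trans hwz
          by_cases z1 : z = q.1
          · subst z1
            have h9 : eN i q.2 q.1 = 0 := by
              unfold eN
              rw [if_neg]
              rintro ⟨h9, -⟩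
              have := lev_strictAnti (lt_of_le_of_ne h9 (Ne.symm k3))
              omega
            rw [h9, eN_self (by omega)]
            simp [k3]
          · by_cases z2 : z = q.2
            · subst z2
              have h9 : eN i q.1 q.2 = 0 := by
                unfold eN
                rw [if_neg]
                rintro ⟨h9, -⟩
                have := lev_strictAnti (lt_of_le_of_ne h9 k3)
                omega
              rw [h9, eN_self (by omega)]
              simp [Ne.symm k3]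
            · rw [if_neg z1, if_neg z2]
              unfold eN
              by_cases hc : q.1 ≤ z ∧ i < lev z
              · rw [if_pos hc, if_pos (cone q.1 q.2 l1 l2 k4 z1 hc)]
              · rw [if_neg hc, if_neg (fun h => hc (cone q.2 q.1 l2 l1 k4.symm z2 h))]
        rintro (rfl | rfl)
        · exact ⟨hq, rfl⟩
        · exact ⟨swap_TWs hq, hsw⟩
    rw [h5, card_pair]
    intro h6
    have h7 := (mem_TWs.1 hq).2.2.1
    exact h7 (congrArg Prod.fst h6)
  rw [h1, sum_union h2, smul_add, h3, h4, ← sum_sdiff hsub, smul_add]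
  have h5 : (2 : ℕ) • ∑ q ∈ TWs i κ, f (fq i q) =
      ∑ q ∈ TWs i κ, f (fq i q) + ∑ q ∈ TWs i κ, f (fq i q) := two_nsmul _
  rw [h5]
  abel

end Pool.Agent.GaussPoset.Win.So

end

/-! From `Pool.Agent.W_448so_h63.FI` -/

section

/-!
S9 with Z2 (MP_448cb3_co, case B): THE TOTAL IDENTITIES (5,2), (6,2) with joins of two pendants.
-/

set_option autoImplicit false

namespace Pool.Agent.GaussPoset.Win.So

set_option linter.unusedSectionVars false

open Finset SO I2

universe u

variable {P : Type u} [Fintype P] [PartialOrder P] [DecidableEq P] {r i : ℕ}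

variable {ι : Type*} [DecidableEq ι] {κ : P → ι} {v p p' y y' x : P} {e : P → ℕ} {psi : P → P}

lemma Rst_mono {a b : P → ℕ} (h : ∀ x, a x ≤ b x) (hx : x ∈ Rst i ∅ psi b) :
    x ∈ Rst i ∅ psi a := by
  have hT : ∀ z, z ∈ Tch i a → z ∈ Tch i b := by
    intro z hz
    rw [mem_Tch] at hz ⊢
    rcases hz with ⟨h1, w, hw, h2⟩ | ⟨h1, w, hw, h2⟩
    · exact Or.inl ⟨h1, w, hw, lt_of_lt_of_le h2 (h w)⟩
    · exact Or.inr ⟨h1, w, hw, lt_of_lt_of_le h2 (h w)⟩
  obtain ⟨h1, h2, h3, h4⟩ := mem_Rst.1 hx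
  exact mem_Rst.2 ⟨h1, h2, fun h5 => h3 (hT _ h5), fun h5 => h4 ⟨h5.1, hT _ h5.2⟩⟩

lemma fq_props (H : Gr P r) (hκ : Split (i + 2) κ) {q : P × P} (hq : q ∈ PPs i κ psi) :
    IsCore i ∅ psi (fq i q) ∧ ∑ x, fq i q x = 6 ∧ CrO i κ (fq i q) := by
  classical
  obtain ⟨h1, h2⟩ := mem_PPs.1 hq
  obtain ⟨k1, k2, k3, k4⟩ := mem_Z2s.1 h1
  refine ⟨?_, ?_, ?_⟩
  · intro x hx
    have h3 : x ∈ Rst i ∅ psi (eN i q.1) :=
      Rst_mono (fun z => by simp only [fq, Pi.add_apply]; omega) hx
    have h4 := eN_core (psi := psi) H (i := i) (v := q.1) (by omega) x h3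
    have h5 : x ≠ q.2 := by
      rintro rfl
      exact h2 h3
    simp only [fq, Pi.add_apply, Pi.single_apply]
    rw [h4, if_neg h5, add_zero]
  · have h3 := eN_sum5 H hκ h1
    have h4 := sum_single_one q.2
    simp only [fq, Pi.add_apply, sum_add_distrib]
    rw [h3, h4]
  · refine ⟨q.1, k2, ?_⟩
    have := eN_self (i := i) (v := q.1) (by omega)
    simp only [fq, Pi.add_apply]
    omega

/-- energy six: the exceptional labellings -/
theorem restZ6 (H : Gr P r) (hi : 1 ≤ i) (hi2 : i + 1 ≤ r) (hM : Mat P i ∅ psi)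
    (hg : Good P i) (hκ : Split (i + 2) κ) [DecidablePred (CrO i κ)] [DecidableEq (P → ℕ)] :
    dd ^ ((lv P i).card - 1) ∣
      ∑ e ∈ ((univ : Finset P).piAntidiag 6).filter (CrO i κ), trm i e -
        (∑ e ∈ (PPs i κ psi).image (fq i), trm i e + ∑ v ∈ N5s i κ, trm i (eN i v) +
          ∑ v ∈ Z2s i κ, ∑ x ∈ Rst i ∅ psi (eN i v), trm i (fq i (v, x))) := by
  classical
  have hz5 : ∀ v ∈ Z2s i κ, ∑ x, eN i v x = 5 := fun v hv => eN_sum5 H hκ hv
  have h := core_sum_E H hi hi2 hM 6 1 (CrO i κ) (CrO_add H hκ) ((Z2s i κ).image (eN i))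
    (fun e he => by
      rw [mem_image] at he
      obtain ⟨v, hv, rfl⟩ := he
      obtain ⟨h1, h2, h3, h4⟩ := mem_Z2s.1 hv
      refine ⟨eN_core H (by omega), ?_, eN_CrO (by omega) h2⟩
      rw [hz5 v hv]
      omega)
    (fun e hc hQ hs he => by
      rcases cross_core' H hi hi2 hg hκ hM hc hQ (by omega) with h | h | ⟨v, hv, h⟩
      · exact Rk_of_cheap h
      · omega
      · exfalso
        apply he
        rw [mem_image]
        exact ⟨v, hv, (eq_of_sum h (by rw [hz5 v hv]; omega)).symm⟩)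
    ((PPs i κ psi).image (fq i) ∪ (N5s i κ).image (eN i))
    (fun e he => by
      rw [mem_union, mem_image, mem_image] at he
      rcases he with ⟨q, hq, rfl⟩ | ⟨v, hv, rfl⟩
      · exact fq_props H hκ hq
      · obtain ⟨h1, h2, h3, h4⟩ := mem_N5s.1 hv
        exact ⟨eN_core H (by omega), eN_sum H hκ hv, eN_CrO (by omega) h2⟩)
    (fun e hc hQ hs he => by
      rcases cross_core' H hi hi2 hg hκ hM hc hQ (by omega) with h | ⟨-, v, hv, h⟩ | ⟨v, hv, h⟩
      · exact Rk_of_cheap h
      · exfalso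
        apply he
        rw [mem_union, mem_image, mem_image]
        exact Or.inr ⟨v, hv, h.symm⟩
      · exfalso
        obtain ⟨x, hx⟩ := eq_add_single h (by rw [hz5 v hv, hs])
        have hx1 : 1 ≤ e x := by
          rw [hx, Pi.add_apply, Pi.single_apply, if_pos rfl]
          omega
        by_cases hR : x ∈ Rst i ∅ psi (eN i v)
        · have h5 := (Rst_add H ∅ psi (eN i v) (Pi.single x 1) (fun z hz => by
            rw [Pi.single_apply, if_neg]
            rintro rfl
            exact hz (mem_Rst.1 hR).1)).2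
          rw [← hx] at h5
          rw [← h5] at hR
          have := hc x hR
          omega
        · apply he
          rw [mem_union, mem_image, mem_image]
          exact Or.inl ⟨(v, x), mem_PPs.2 ⟨hv, hR⟩, hx.symm⟩)
  have hd : Disjoint ((PPs i κ psi).image (fq i)) ((N5s i κ).image (eN i)) := by
    rw [disjoint_left]
    intro e he he'
    rw [mem_image] at he he'
    obtain ⟨q, hq, rfl⟩ := he
    obtain ⟨v, hv, h1⟩ := he'
    obtain ⟨k1, k2, k3, k4⟩ := mem_Z2s.1 (mem_PPs.1 hq).1
    obtain ⟨m1, m2, m3, m4⟩ := mem_N5s.1 hv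
    have h2 := congrFun h1 q.1
    have h3 := eN_self (i := i) (v := q.1) (by omega)
    simp only [fq, Pi.add_apply] at h2
    have h4 : v ≤ q.1 := by
      by_contra h5
      have : eN i v q.1 = 0 := by
        unfold eN
        rw [if_neg (fun h6 => h5 h6.1)]
      omega
    have h5 : v = q.1 := by
      by_contra h6
      have := lev_strictAnti (lt_of_le_of_ne h4 h6)
      omega
    rw [h5] at m3
    omega
  rw [sum_union hd] at h
  rw [Finset.sum_image (s := N5s i κ)] at h
  rw [Finset.sum_image (s := Z2s i κ)] at h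
  · have h6 : ∑ v ∈ Z2s i κ, ∑ l ∈ (Rst i ∅ psi (eN i v)).piAntidiag (6 - ∑ x, eN i v x),
        trm i (eN i v + l) =
        ∑ v ∈ Z2s i κ, ∑ x ∈ Rst i ∅ psi (eN i v), trm i (fq i (v, x)) := by
      refine sum_congr rfl fun v hv => ?_
      rw [hz5 v hv]
      exact sum_pa_one (Rst i ∅ psi (eN i v)) (fun l => trm i (eN i v + l))
    rw [h6] at h
    convert h
  · intro v hv v' hv' hvv
    have h1 := (mem_Z2s.1 hv).1
    have h1' := (mem_Z2s.1 hv').1
    exact eN_inj (by omega) (by omega) hvv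
  · intro v hv v' hv' hvv
    have h1 := (mem_N5s.1 hv).1
    have h1' := (mem_N5s.1 hv').1
    exact eN_inj (by omega) (by omega) hvv

/-! ### leading coefficients -/

/-- leading coefficient with two deficits -/
noncomputable def ph (b : ℕ) : A →+ ℤ :=
  (PowerSeries.coeff b : A →ₗ[ℤ] ℤ).toAddMonoidHom.comp (AddMonoidHom.mulLeft (dd ^ 2 : A))

lemma ph_apply (b : ℕ) (F : A) : ph b F = PowerSeries.coeff b (dd ^ 2 * F : A) := rfl

lemma ph_dvd {b : ℕ} {F : A} (h : dd ^ (b - 1) ∣ F) (hb : 1 ≤ b) : ph b F = 0 :=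
  dvd_two h hb

lemma coeff_xxn (n : ℕ) : PowerSeries.coeff 0 (xx ^ n : A) = (-1) ^ n := by
  have h1 : PowerSeries.coeff 0 (xx : A) = -1 := by
    unfold xx dd
    simp
  rw [PowerSeries.coeff_zero_eq_constantCoeff] at h1 ⊢
  rw [map_pow, h1]

lemma ph_xx {b : ℕ} (n : ℕ) (hb : 2 ≤ b) : ph b (xx ^ n * dd ^ (b - 2)) = (-1) ^ n := by
  rw [ph_apply]
  have h1 : dd ^ 2 * (xx ^ n * dd ^ (b - 2)) = (dd ^ b * xx ^ n : A) := by
    have : (dd : A) ^ b = dd ^ 2 * dd ^ (b - 2) := by
      rw [← pow_add]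
      congr 1
      omega
    rw [this]
    ring
  rw [h1]
  have h7 : PowerSeries.coeff b (dd ^ b * xx ^ n : A) = PowerSeries.coeff 0 (xx ^ n : A) := by
    unfold dd
    have := PowerSeries.coeff_X_pow_mul (xx ^ n : A) b 0
    rwa [zero_add] at this
  rw [h7, coeff_xxn]

lemma ph_N5 (H : Gr P r) (hir : i ≤ r) (hv : v ∈ N5s i κ) :
    ph (lv P i).card (trm i (eN i v)) = -1 := by
  obtain ⟨h1, h2, h3, h4⟩ := mem_N5s.1 hv
  obtain ⟨h5, h6⟩ := eN_trm H hir h1 h3 h4
  rw [h5, ph_xx 5 (by omega)]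
  norm_num

lemma ph_Z2 (H : Gr P r) (hir : i ≤ r) (hv : v ∈ Z2s i κ) :
    ph (lv P i).card (trm i (eN i v)) = 1 := by
  classical
  obtain ⟨h1, h2, h3, h4⟩ := mem_Z2s.1 hv
  obtain ⟨a1, a2, a3, a4, a5, a6, a7⟩ := cone_data H hir (v := v)
  obtain ⟨a8, a9⟩ := a7 (by omega)
  rw [if_neg (by omega)] at a8
  have a10 : (AL i (eN i v)).card = 4 := by rw [a9, ← up_eq, h4]
  have a11 : 4 ≤ (lv P i).card := by
    rw [← a10, a9]
    exact card_le_card (filter_subset _ _)
  have h5 : trm i (eN i v) = xx ^ 4 * dd ^ ((lv P i).card - 2) := by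
    unfold trm
    rw [a6, if_pos (disjoint_empty_right _), a10, card_empty]
    unfold cw
    rw [if_pos ⟨a1, a2⟩, a3, a4, a5, a8, h3]
    have h5 : dd ^ ((lv P i).card - 2) = dd ^ 2 * dd ^ ((lv P i).card - 4 - 0) := by
      rw [← pow_add]
      congr 1
      omega
    rw [h5]
    ring
  rw [h5, ph_xx 4 (by omega)]
  norm_num

lemma ph_TW (H : Gr P r) (hir : i ≤ r) (hκ : Split (i + 2) κ) {q : P × P} (hq : q ∈ TWs i κ) :
    ph (lv P i).card (trm i (fq i q)) = 1 := by
  classical
  obtain ⟨h1, h2, h3, h4⟩ := mem_TWs.1 hq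
  obtain ⟨p, p', y, y', D⟩ := Z2s_ZD H hκ h1
  have l1 := (mem_Z2s.1 h1).1
  have l2 := (mem_Z2s.1 h2).1
  have lp := D.lp H
  have lp' := D.lp' H
  have ly := D.ly H
  have ly' := D.ly' H
  have h5 := zv_child H hir hκ D (x := q.2) (by omega) (by
    simp only [mem_insert, mem_singleton]
    rintro (h | h | h | h | h)
    · exact h3 h.symm
    · rw [← h] at lp; omega
    · rw [← h] at lp'; omega
    · rw [← h] at ly; omega
    · rw [← h] at ly'; omega) (by
    intro z hz
    rw [← h4, D.cov, mem_insert, mem_singleton] at hz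
    rcases hz with rfl | rfl <;> simp)
  rw [en_eq H D] at h5
  exact h5

end Pool.Agent.GaussPoset.Win.So

end

/-! From `Pool.Agent.W_448so_h63.FJ` -/

section

/-!
S9 with Z2 (MP_448cb3_co, case B): THE TOTAL IDENTITIES (5,2), (6,2) with joins of two pendants.
-/

set_option autoImplicit false

namespace Pool.Agent.GaussPoset.Win.So

set_option linter.unusedSectionVars false

open Finset SO I2

universe u

variable {P : Type u} [Fintype P] [PartialOrder P] [DecidableEq P] {r i : ℕ}

variable {ι : Type*} [DecidableEq ι] {κ : P → ι} {v p p' y y' x : P} {e : P → ℕ} {psi : P → P}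

/-- the terms of energy one -/
noncomputable def T1 (P : Type u) [Fintype P] [PartialOrder P] [DecidableEq P] (i : ℕ) : ℤ :=
  ∑ x : P, PowerSeries.coeff (lv P i).card (trm i (en ∅ x) : A)

lemma ph_TWsum (H : Gr P r) (hir : i ≤ r) (hκ : Split (i + 2) κ) :
    ph (lv P i).card (∑ q ∈ TWs i κ, trm i (fq i q)) = (TWs i κ).card := by
  rw [map_sum, sum_congr rfl fun q hq => ph_TW H hir hκ hq, sum_const]
  simp

/-- the leading coefficient of the cross configurations at the energy six -/
theorem ph_rest6 (H : Gr P r) (hi : 1 ≤ i) (hi2 : i + 1 ≤ r) (hg : Good P i)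
    (hκ : Split (i + 2) κ) (hb : 1 ≤ (lv P i).card)
    (hu : ∀ w w' : P, lev w = i + 1 → lev w' = i + 1 → w ≠ w' → (uc w ∩ uc w').card ≤ 1)
    [DecidablePred (CrO i κ)] :
    2 * ph (lv P i).card (∑ e ∈ ((univ : Finset P).piAntidiag 6).filter (CrO i κ), trm i e) =
      2 * ∑ v ∈ Z2s i κ, (T1 P i + env i v) - (TWs i κ).card - 2 * (N5s i κ).card := by
  classical
  obtain ⟨psi, hM⟩ := good_mat H hg
  have h := ph_dvd (restZ6 H hi hi2 hM hg hκ) hb
  rw [map_sub, sub_eq_zero, map_add, map_add] at h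
  have h1 : ph (lv P i).card (∑ v ∈ N5s i κ, trm i (eN i v)) = -((N5s i κ).card : ℤ) := by
    rw [map_sum, sum_congr rfl fun v hv => ph_N5 H (by omega) hv, sum_const]
    simp
  have h2 := congrArg (ph (lv P i).card) (sum_fq (i := i) (κ := κ) (psi := psi) H (trm i))
  rw [map_nsmul, map_sub, map_nsmul, ph_TWsum H (by omega) hκ, nsmul_eq_mul, nsmul_eq_mul,
    Nat.cast_ofNat] at h2
  have h3 : ph (lv P i).card (∑ q ∈ PPs i κ psi, trm i (fq i q)) +
      ph (lv P i).card (∑ v ∈ Z2s i κ, ∑ x ∈ Rst i ∅ psi (eN i v), trm i (fq i (v, x))) =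
      ∑ v ∈ Z2s i κ, (T1 P i + env i v) := by
    have h4 : ∑ q ∈ PPs i κ psi, trm i (fq i q) =
        ∑ v ∈ Z2s i κ, ∑ x ∈ (univ : Finset P).filter (fun x => x ∉ Rst i ∅ psi (eN i v)),
          trm i (fq i (v, x)) := by
      unfold PPs
      rw [sum_filter, sum_product]
      refine sum_congr rfl fun v _ => ?_
      rw [sum_filter]
    rw [h4, ← map_add, ← sum_add_distrib, map_sum]
    refine sum_congr rfl fun v hv => ?_
    obtain ⟨p, p', y, y', D⟩ := Z2s_ZD H hκ hv
    have h5 : ∑ x ∈ (univ : Finset P).filter (fun x => x ∉ Rst i ∅ psi (eN i v)),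
          trm i (fq i (v, x)) + ∑ x ∈ Rst i ∅ psi (eN i v), trm i (fq i (v, x)) =
        ∑ x : P, trm i (fq i (v, x)) := by
      rw [add_comm, ← sum_filter_add_sum_filter_not univ (fun x => x ∈ Rst i ∅ psi (eN i v))]
      congr 1
      refine sum_congr ?_ fun _ _ => rfl
      ext x
      simp
    rw [h5, map_sum]
    have h6 := env_sum H (by omega) hκ D hM hu
    unfold T1
    rw [← h6]
    refine sum_congr rfl fun x _ => ?_
    rw [en_eq H D]
    rfl
  rw [h, h1]
  linarith

/-- energy one: no cross terms -/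
lemma rest_one (H : Gr P r) (hκ : Split (i + 2) κ) [DecidablePred (CrO i κ)] :
    ∑ e ∈ ((univ : Finset P).piAntidiag 1).filter (CrO i κ), trm i e = 0 := by
  classical
  refine sum_eq_zero fun e he => ?_
  rw [mem_filter, Finset.mem_piAntidiag] at he
  obtain ⟨⟨h1, -⟩, z, hz, hze⟩ := he
  have hlz := (two_up H hκ hz).1
  have h2 : e = Pi.single z 1 := by
    refine eq_of_sum (a := Pi.single z 1) ?_ ?_
    · intro x
      rw [Pi.single_apply]
      split_ifs with h
      · rw [h]; exact hze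
      · exact Nat.zero_le _
    · rw [sum_single_one]
      exact h1.le
  rw [h2, ← en_eq0]
  exact e0_low_far H (by omega)

lemma cf1_prod (H : Gr P r) (hir : i ≤ r) (hκ : Split (i + 2) κ) :
    cf 1 (lv P i).card (∏ a ∈ univ.image κ, VV i (i + 2) κ a) = T1 P i := by
  classical
  rw [cf_one, prod_eq H hir hκ, rest_one H hκ, sub_zero, sum_pa_one, map_sum]
  unfold T1
  refine sum_congr rfl fun x _ => ?_
  rw [en_eq0]

lemma ph_tot (H : Gr P r) (hi : 1 ≤ i) (hi2 : i + 1 ≤ r) (hb : 1 ≤ (lv P i).card) (n : ℕ) :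
    ph (lv P i).card (∑ e ∈ (univ : Finset P).piAntidiag n, trm i e) = 0 :=
  ph_dvd ((pow_dvd_pow dd (Nat.sub_le _ _)).trans (dvd_sum_trm H (by omega) n)) hb

lemma cf5_prod (H : Gr P r) (hi : 1 ≤ i) (hi2 : i + 1 ≤ r) (hg : Good P i)
    (hκ : Split (i + 2) κ) (hb : 1 ≤ (lv P i).card) :
    cf 5 (lv P i).card (∏ a ∈ univ.image κ, VV i (i + 2) κ a) = -((Z2s i κ).card : ℤ) := by
  classical
  rw [cf_five]
  unfold be
  rw [prod_eq H (by omega) hκ, ← ph_apply, map_sub, ph_tot H hi hi2 hb, zero_sub]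
  congr 1
  have h := ph_dvd (restZ5 H hi hi2 hg hκ) hb
  rw [map_sub, sub_eq_zero] at h
  rw [h, map_sum, sum_congr rfl fun v hv => ph_Z2 H (show i ≤ r by omega) hv, sum_const]
  simp

lemma cf6_prod (H : Gr P r) (hi : 1 ≤ i) (hi2 : i + 1 ≤ r) (hg : Good P i)
    (hκ : Split (i + 2) κ) (hb : 1 ≤ (lv P i).card)
    (hu : ∀ w w' : P, lev w = i + 1 → lev w' = i + 1 → w ≠ w' → (uc w ∩ uc w').card ≤ 1) :
    2 * cf 6 (lv P i).card (∏ a ∈ univ.image κ, VV i (i + 2) κ a) =
      -(2 * ∑ v ∈ Z2s i κ, (T1 P i + env i v) - (TWs i κ).card - 2 * (N5s i κ).card) := by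
  classical
  rw [cf_six]
  unfold be
  rw [prod_eq H (by omega) hκ, ← ph_apply, map_sub, ph_tot H hi hi2 hb, zero_sub, mul_neg,
    ph_rest6 H hi hi2 hg hκ hb hu]

/-- the product of the components -/
theorem Q6_prod (H : Gr P r) (hi : 1 ≤ i) (hi2 : i + 1 ≤ r) (hg : Good P i)
    (hκ : Split (i + 2) κ) (hb : 1 ≤ (lv P i).card)
    (hu : ∀ w w' : P, lev w = i + 1 → lev w' = i + 1 → w ≠ w' → (uc w ∩ uc w').card ≤ 1) :
    Q6 (lv P i).card (∏ a ∈ univ.image κ, VV i (i + 2) κ a) =
      2 * ∑ v ∈ Z2s i κ, env i v - (TWs i κ).card - 2 * (N5s i κ).card := by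
  classical
  unfold Q6
  rw [cf1_prod H (by omega) hκ, cf5_prod H hi hi2 hg hκ hb, cf6_prod H hi hi2 hg hκ hb hu,
    cf_three, al3_prod H (by omega) hκ, sum_add_distrib, sum_const, nsmul_eq_mul]
  ring

section total

variable (H : Gr P r) (hi : 1 ≤ i) (hi2 : i + 1 ≤ r) (hg : Good P i)
  (hκ : Split (i + 2) κ) (hb : 1 ≤ (lv P i).card)
include H hi hi2 hg hκ hb

/-- TOTAL (6,2) at the window `i = j - 1`, case B -/
theorem tot_six_Z
    (hu : ∀ w w' : P, lev w = i + 1 → lev w' = i + 1 → w ≠ w' → (uc w ∩ uc w').card ≤ 1)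
    (hP : ∀ a ∈ univ.image κ, P6 (bb i (i + 2) κ a) (VV i (i + 2) κ a)) :
    ∑ a ∈ univ.image κ, Q6 (bb i (i + 2) κ a) (VV i (i + 2) κ a) =
      2 * ∑ v ∈ Z2s i κ, env i v - (TWs i κ).card - 2 * (N5s i κ).card := by
  obtain ⟨-, -, -, -, -, h6⟩ := prod_six (univ.image κ) (bb i (i + 2) κ) (VV i (i + 2) κ) hP
    (fun a _ => by rw [cf_zero]; exact eps_VV H (by omega) a)
  rw [sum_bb hκ, Q6_prod H hi hi2 hg hκ hb hu] at h6
  exact h6.symm

end total

end Pool.Agent.GaussPoset.Win.So

end

/-! From `Pool.Agent.W_448t8_h97.TB` -/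

section

/-!
Window `j - 1` (MP_448cb3_co, case B): the totals (8,3) and (10,4) in terms of the leading
coefficients of the parts and of the crossing configurations.
-/

set_option autoImplicit false

namespace Pool.Agent.GaussPoset.Win.T8

set_option linter.unusedSectionVars false

open Finset I2 So SO

universe u

variable {P : Type u} [Fintype P] [PartialOrder P] [DecidableEq P] {r i : ℕ}

variable {ι : Type*} [DecidableEq ι] {κ : P → ι}

open Classical in
/-- the sum over the crossing configurations of energy `n` -/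
noncomputable def XS (i : ℕ) (κ : P → ι) (n : ℕ) : A :=
  ∑ e ∈ ((univ : Finset P).piAntidiag n).filter (CrO i κ), trm i e

/-- the leading coefficient of the crossing configurations of energy `n` -/
noncomputable def XX (i : ℕ) (κ : P → ι) (n : ℕ) : ℤ :=
  PowerSeries.coeff (lv P i).card (dd ^ kk n * XS i κ n : A)

/-- the leading coefficient of the product of the parts -/
theorem cg_prod (H : Gr P r) (hir : i ≤ r) (hκ : Split (i + 2) κ) {n : ℕ} (hn : 3 ≤ n) :
    cg n (lv P i).card (∏ a ∈ univ.image κ, VV i (i + 2) κ a) = - XX i κ n := by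
  classical
  unfold cg XX XS
  rw [prod_eq H hir hκ, mul_sub, map_sub, coeff_eq_zero_of_dvd, zero_sub]
  have h1 : 1 ≤ kk n := by
    unfold kk
    split_ifs <;> omega
  obtain ⟨m, hm⟩ := Nat.exists_eq_add_of_le h1
  rw [hm, add_comm 1 m, pow_succ (dd : A) (lv P i).card, mul_comm _ (dd : A),
    pow_succ' (dd : A) m, mul_assoc]
  exact mul_dvd_mul_left _ (dvd_mul_of_dvd_right (dvd_sum_trm H hir n) _)

section total

variable (H : Gr P r) (hi : 1 ≤ i) (hi2 : i + 1 ≤ r) (hg : Good P i)
  (hκ : Split (i + 2) κ) (hb : 1 ≤ (lv P i).card)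
  (hP : ∀ a ∈ univ.image κ, P10 (bb i (i + 2) κ a) (VV i (i + 2) κ a))
include H hi hi2 hg hκ hb hP

/-- TOTAL (8,3) at the window `i = j - 1`, case B -/
theorem tot_eight :
    ∑ a ∈ univ.image κ, Q8 (bb i (i + 2) κ a) (VV i (i + 2) κ a) = XX i κ 8 := by
  obtain ⟨-, -, -, -, h8, -⟩ := prod_ten (univ.image κ) (bb i (i + 2) κ) (VV i (i + 2) κ) hP
    (fun a _ => by rw [cg_cf (by omega), cf_zero]; exact eps_VV H (by omega) a)
  rw [sum_bb hκ] at h8
  rw [← h8]
  unfold Q8
  rw [cg_cf (show (3 : ℕ) ≤ 7 by omega), cf_three, al3_prod H (by omega) hκ,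
    cg_prod (n := 8) H (by omega) hκ (by omega)]
  ring

/-- TOTAL (10,4) at the window `i = j - 1`, case B -/
theorem tot_ten :
    ∑ a ∈ univ.image κ, Q10 (bb i (i + 2) κ a) (VV i (i + 2) κ a) =
      ((Z2s i κ).card : ℤ) ^ 2 + 2 * XX i κ 10 := by
  obtain ⟨-, -, -, -, -, h8⟩ := prod_ten (univ.image κ) (bb i (i + 2) κ) (VV i (i + 2) κ) hP
    (fun a _ => by rw [cg_cf (by omega), cf_zero]; exact eps_VV H (by omega) a)
  rw [sum_bb hκ] at h8
  rw [← h8]
  unfold Q10
  rw [cg_cf (show (5 : ℕ) ≤ 7 by omega), cf5_prod H hi hi2 hg hκ hb,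
    cg_prod (n := 10) H (by omega) hκ (by omega)]
  ring

end total

end Pool.Agent.GaussPoset.Win.T8

end

/-! From `Pool.Agent.W_448pn_h63.PnD` -/

section

/-!
# Half profiles (MP_448cb3_co, G2, case B, window j - 1)

`HP`: at the energy `n` at most `n / 2` deficits. The leading coefficients at the even energies of the
pinned series are those of a monomial (`Mo`), and those at the odd energies are a derivation.
-/

set_option autoImplicit false

namespace Pool.Agent.GaussPoset.Win.Pn

set_option linter.unusedSectionVars false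

open Finset I2

/-- at most `n / 2` deficits at the energy `n` -/
def HP (b : ℕ) (V : PowerSeries A) : Prop :=
  ∀ n, n ≤ 9 → dd ^ b ∣ dd ^ (n / 2) * PowerSeries.coeff n V

/-- the leading coefficient at the energy `n` -/
noncomputable def hc (n b : ℕ) (V : PowerSeries A) : ℤ :=
  PowerSeries.coeff b (dd ^ (n / 2) * PowerSeries.coeff n V : A)

lemma pow_half (i j : ℕ) (F G : A) :
    dd ^ ((i + j) / 2) * (F * G) =
      dd ^ ((i + j) / 2 - (i / 2 + j / 2)) * ((dd ^ (i / 2) * F) * (dd ^ (j / 2) * G)) := by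
  have h3 : (dd : A) ^ ((i + j) / 2) =
      dd ^ ((i + j) / 2 - (i / 2 + j / 2)) * (dd ^ (i / 2) * dd ^ (j / 2)) := by
    rw [← pow_add, ← pow_add]
    congr 1
    omega
  rw [h3]
  ring

theorem HP.mul {b b' : ℕ} {V V' : PowerSeries A} (h : HP b V) (h' : HP b' V') :
    HP (b + b') (V * V') := by
  intro n hn
  rw [PowerSeries.coeff_mul, Finset.mul_sum]
  refine Finset.dvd_sum ?_
  rintro ⟨i, j⟩ hij
  rw [Finset.HasAntidiagonal.mem_antidiagonal] at hij
  simp only at hij ⊢
  subst hij
  rw [pow_half, pow_add]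
  exact dvd_mul_of_dvd_right (mul_dvd_mul (h i (by omega)) (h' j (by omega))) _

theorem hc_mul {b b' : ℕ} {V V' : PowerSeries A} (h : HP b V) (h' : HP b' V') {n : ℕ}
    (hn : n ≤ 9) : hc n (b + b') (V * V') =
      ∑ p ∈ Finset.HasAntidiagonal.antidiagonal n,
        if p.1 / 2 + p.2 / 2 = n / 2 then hc p.1 b V * hc p.2 b' V' else 0 := by
  unfold hc
  rw [PowerSeries.coeff_mul n V V', Finset.mul_sum, map_sum]
  refine Finset.sum_congr rfl ?_
  rintro ⟨i, j⟩ hij
  rw [Finset.HasAntidiagonal.mem_antidiagonal] at hij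
  simp only at hij ⊢
  subst hij
  have h4 := h i (by omega)
  have h5 := h' j (by omega)
  rw [pow_half]
  by_cases h6 : i / 2 + j / 2 = (i + j) / 2
  · rw [if_pos h6, h6, Nat.sub_self, pow_zero, one_mul]
    exact coeff_mul_of_dvd h4 h5
  · rw [if_neg h6]
    apply coeff_eq_zero_of_dvd
    rw [pow_succ', pow_add]
    refine mul_dvd_mul ?_ (mul_dvd_mul h4 h5)
    exact dvd_pow_self _ (by omega)

lemma anti_even {M : Type*} [AddCommMonoid M] (m : ℕ) (f : ℕ × ℕ → M) :
    ∑ p ∈ Finset.HasAntidiagonal.antidiagonal (2 * m),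
      (if p.1 / 2 + p.2 / 2 = 2 * m / 2 then f p else 0) =
    ∑ q ∈ Finset.HasAntidiagonal.antidiagonal m, f (2 * q.1, 2 * q.2) := by
  rw [← Finset.sum_filter]
  refine Finset.sum_nbij' (fun p => (p.1 / 2, p.2 / 2)) (fun q => (2 * q.1, 2 * q.2)) ?_ ?_ ?_ ?_ ?_
  · intro p hp
    rw [mem_filter, Finset.HasAntidiagonal.mem_antidiagonal] at hp
    rw [Finset.HasAntidiagonal.mem_antidiagonal]
    simp only
    omega
  · intro q hq
    rw [Finset.HasAntidiagonal.mem_antidiagonal] at hq
    rw [mem_filter, Finset.HasAntidiagonal.mem_antidiagonal]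
    simp only
    omega
  · intro p hp
    rw [mem_filter, Finset.HasAntidiagonal.mem_antidiagonal] at hp
    ext <;> simp only <;> omega
  · intro q hq
    ext <;> simp only <;> omega
  · intro p hp
    rw [mem_filter, Finset.HasAntidiagonal.mem_antidiagonal] at hp
    congr 1
    ext <;> simp only <;> omega

lemma anti_odd {M : Type*} [AddCommMonoid M] (m : ℕ) (f : ℕ × ℕ → M) :
    ∑ p ∈ Finset.HasAntidiagonal.antidiagonal (2 * m + 1),
      (if p.1 / 2 + p.2 / 2 = (2 * m + 1) / 2 then f p else 0) =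
    ∑ q ∈ Finset.HasAntidiagonal.antidiagonal m,
      (f (2 * q.1 + 1, 2 * q.2) + f (2 * q.1, 2 * q.2 + 1)) := by
  rw [← Finset.sum_filter, Finset.sum_add_distrib]
  rw [← Finset.sum_filter_add_sum_filter_not ((Finset.HasAntidiagonal.antidiagonal
    (2 * m + 1)).filter (fun p : ℕ × ℕ => p.1 / 2 + p.2 / 2 = (2 * m + 1) / 2))
    (fun p => p.1 % 2 = 1)]
  congr 1
  · refine Finset.sum_nbij' (fun p => (p.1 / 2, p.2 / 2)) (fun q => (2 * q.1 + 1, 2 * q.2))
      ?_ ?_ ?_ ?_ ?_
    · intro p hp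
      rw [mem_filter, mem_filter, Finset.HasAntidiagonal.mem_antidiagonal] at hp
      rw [Finset.HasAntidiagonal.mem_antidiagonal]
      simp only
      omega
    · intro q hq
      rw [Finset.HasAntidiagonal.mem_antidiagonal] at hq
      rw [mem_filter, mem_filter, Finset.HasAntidiagonal.mem_antidiagonal]
      simp only
      omega
    · intro p hp
      rw [mem_filter, mem_filter, Finset.HasAntidiagonal.mem_antidiagonal] at hp
      ext <;> simp only <;> omega
    · intro q hq
      ext <;> simp only <;> omega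
    · intro p hp
      rw [mem_filter, mem_filter, Finset.HasAntidiagonal.mem_antidiagonal] at hp
      congr 1
      ext <;> simp only <;> omega
  · refine Finset.sum_nbij' (fun p => (p.1 / 2, p.2 / 2)) (fun q => (2 * q.1, 2 * q.2 + 1))
      ?_ ?_ ?_ ?_ ?_
    · intro p hp
      rw [mem_filter, mem_filter, Finset.HasAntidiagonal.mem_antidiagonal] at hp
      rw [Finset.HasAntidiagonal.mem_antidiagonal]
      simp only
      omega
    · intro q hq
      rw [Finset.HasAntidiagonal.mem_antidiagonal] at hq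
      rw [mem_filter, mem_filter, Finset.HasAntidiagonal.mem_antidiagonal]
      simp only
      omega
    · intro p hp
      rw [mem_filter, mem_filter, Finset.HasAntidiagonal.mem_antidiagonal] at hp
      ext <;> simp only <;> omega
    · intro q hq
      ext <;> simp only <;> omega
    · intro p hp
      rw [mem_filter, mem_filter, Finset.HasAntidiagonal.mem_antidiagonal] at hp
      congr 1
      ext <;> simp only <;> omega

/-- the even leading coefficients are those of the monomial `c X ^ k` -/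
structure Mo (b : ℕ) (V : PowerSeries A) (k : ℕ) (c : ℤ) : Prop where
  hp : HP b V
  ev : ∀ m, m ≤ 4 → hc (2 * m) b V = if m = k then c else 0

section mul

variable {b b' k k' : ℕ} {c c' : ℤ} {V V' : PowerSeries A} (h : Mo b V k c)
  (h' : Mo b' V' k' c')
include h h'

theorem Mo.mul : Mo (b + b') (V * V') (k + k') (c * c') where
  hp := h.hp.mul h'.hp
  ev := by
    intro m hm
    rw [hc_mul h.hp h'.hp (by omega), anti_even m (fun p => hc p.1 b V * hc p.2 b' V')]
    simp only
    have h1 : ∀ q ∈ Finset.HasAntidiagonal.antidiagonal m,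
        hc (2 * q.1) b V * hc (2 * q.2) b' V' = if q = (k, k') then c * c' else 0 := by
      intro q hq
      rw [Finset.HasAntidiagonal.mem_antidiagonal] at hq
      rw [h.ev q.1 (by omega), h'.ev q.2 (by omega)]
      by_cases h2 : q.1 = k
      · by_cases h3 : q.2 = k'
        · rw [if_pos h2, if_pos h3, if_pos (by ext <;> assumption)]
        · rw [if_neg h3, mul_zero, if_neg (fun h4 => h3 (by rw [h4]))]
      · rw [if_neg h2, zero_mul, if_neg (fun h4 => h2 (by rw [h4]))]
    rw [Finset.sum_congr rfl h1, Finset.sum_ite_eq']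
    refine if_congr ?_ rfl rfl
    rw [Finset.HasAntidiagonal.mem_antidiagonal]
    exact eq_comm

theorem Mo.odd_mul {m : ℕ} (hm : m ≤ 4) : hc (2 * m + 1) (b + b') (V * V') =
    (if k' ≤ m then c' * hc (2 * (m - k') + 1) b V else 0) +
    (if k ≤ m then c * hc (2 * (m - k) + 1) b' V' else 0) := by
  rw [hc_mul h.hp h'.hp (by omega), anti_odd m (fun p => hc p.1 b V * hc p.2 b' V')]
  simp only
  rw [Finset.sum_add_distrib]
  congr 1
  · have h1 : ∀ q ∈ Finset.HasAntidiagonal.antidiagonal m,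
        hc (2 * q.1 + 1) b V * hc (2 * q.2) b' V' =
          if q = (m - k', k') then c' * hc (2 * (m - k') + 1) b V else 0 := by
      intro q hq
      rw [Finset.HasAntidiagonal.mem_antidiagonal] at hq
      rw [h'.ev q.2 (by omega)]
      by_cases h3 : q.2 = k'
      · have h4 : q.1 = m - k' := by omega
        rw [if_pos h3, if_pos (by ext <;> assumption), h4, mul_comm]
      · rw [if_neg h3, mul_zero, if_neg (fun h4 => h3 (by rw [h4]))]
    rw [Finset.sum_congr rfl h1, Finset.sum_ite_eq']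
    refine if_congr ?_ rfl rfl
    rw [Finset.HasAntidiagonal.mem_antidiagonal]
    simp only
    omega
  · have h1 : ∀ q ∈ Finset.HasAntidiagonal.antidiagonal m,
        hc (2 * q.1) b V * hc (2 * q.2 + 1) b' V' =
          if q = (k, m - k) then c * hc (2 * (m - k) + 1) b' V' else 0 := by
      intro q hq
      rw [Finset.HasAntidiagonal.mem_antidiagonal] at hq
      rw [h.ev q.1 (by omega)]
      by_cases h3 : q.1 = k
      · have h4 : q.2 = m - k := by omega
        rw [if_pos h3, if_pos (by ext <;> assumption), h4]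
      · rw [if_neg h3, zero_mul, if_neg (fun h4 => h3 (by rw [h4]))]
    rw [Finset.sum_congr rfl h1, Finset.sum_ite_eq']
    refine if_congr ?_ rfl rfl
    rw [Finset.HasAntidiagonal.mem_antidiagonal]
    simp only
    omega

end mul

end Pool.Agent.GaussPoset.Win.Pn

end

/-! From `Pool.Agent.W_448pn_h63.PnE` -/

section

/-!
# Crossing labels at least three (MP_448cb3_co, G2, case B, window j - 1)

At energy at most eight they do not occur, at energy at most ten they have at most three deficits,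
except `bN i v` (energy ten, four deficits) for the joins `v` with three elements of level `i + 1` and
five sites above.
-/

set_option autoImplicit false

namespace Pool.Agent.GaussPoset.Win.Pn

set_option linter.unusedSectionVars false

open Finset So

universe u

variable {P : Type u} [Fintype P] [PartialOrder P] [DecidableEq P] {r i : ℕ}

variable {ι : Type*} [DecidableEq ι] {κ : P → ι} {e : P → ℕ} {psi : P → P} {v p p' : P}

/-- a killed lower element is large -/
lemma fd_lab (H : Gr P r) (hA : AdmL i e) :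
    ∀ (m : ℕ) (x : P), lev x = i + 1 + m → FD e x → lev x - i ≤ e x := by
  intro m
  induction m with
  | zero =>
    intro x hx hF
    obtain ⟨s, hs⟩ := uc_nonempty H (x := x) (by omega)
    by_contra h
    exact hA x (by omega) ⟨hF, s, mem_uc.1 hs, by omega⟩
  | succ m ih =>
    intro x hx hF
    obtain ⟨y, hy⟩ := uc_nonempty H (x := x) (by omega)
    have ly := lev_uc H hy
    have h1 : e y < e x := by
      by_contra h
      exact hA x (by omega) ⟨hF, y, mem_uc.1 hy, by omega⟩
    have h2 := ih y (by omega) ⟨x, mem_uc.1 hy, h1⟩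
    omega

/-- labels above a lower element -/
lemma lab_up (H : Gr P r) (hA : AdmL i e) {x : P} (hx : i < lev x) :
    ∀ z, z ≤ x → min (e z) (lev x - i) ≤ e x := by
  refine normb_induct (C := fun z => min (e z) (lev x - i) ≤ e x) (min_le_left _ _) ?_
  intro z w hzw hwx ih
  have lw := lev_uc H (mem_uc.2 hzw)
  have h2 : lev x ≤ lev w := by
    rcases eq_or_lt_of_le hwx with h | h
    · rw [h]
    · exact (lev_strictAnti h).le
  rcases Nat.lt_or_ge (e w) (e z) with h | h
  · have h3 := fd_lab H hA (lev w - (i + 1)) w (by omega) ⟨z, hzw, h⟩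
    omega
  · omega

/-- an element of maximal label is free if the labels of the sites are smaller -/
lemma free_max (H : Gr P r) {w : P} (hw : i < lev w) (hs : ∀ s, lev s = i → e s < e w) :
    1 ≤ pL i e := by
  classical
  obtain ⟨w0, hw0, hmax⟩ := exists_max_image (univ.filter (fun z : P => i < lev z)) e
    ⟨w, by rw [mem_filter]; exact ⟨mem_univ _, hw⟩⟩
  obtain ⟨w1, hw1, hmin⟩ := exists_min_image
    (univ.filter (fun z : P => i < lev z ∧ e z = e w0)) lev
    ⟨w0, by rw [mem_filter] at hw0 ⊢; exact ⟨mem_univ _, hw0.2, rfl⟩⟩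
  rw [mem_filter] at hw1
  have hw' := hmax w (by rw [mem_filter]; exact ⟨mem_univ _, hw⟩)
  unfold pL
  rw [Nat.one_le_iff_ne_zero, ← Nat.pos_iff_ne_zero, card_pos]
  refine ⟨w1, ?_⟩
  rw [mem_filter]
  refine ⟨mem_univ _, hw1.2.1, ?_, ?_⟩
  · rintro ⟨z, hz, hlt⟩
    have lz := lev_uc H (mem_uc.2 hz)
    have h1 := hmax z (by rw [mem_filter]; exact ⟨mem_univ _, by omega⟩)
    omega
  · rintro ⟨y, hy, hle⟩
    have ly := lev_uc H (mem_uc.2 hy)
    rcases Nat.lt_or_ge i (lev y) with h | h
    · have h1 := hmax y (by rw [mem_filter]; exact ⟨mem_univ _, h⟩)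
      have h2 := hmin y (by rw [mem_filter]; exact ⟨mem_univ _, h, by omega⟩)
      omega
    · have h1 := hs y (by omega)
      omega

open Classical in
/-- the distance to the window on the elements above `v` -/
noncomputable def bN (i : ℕ) (v : P) : P → ℕ := fun x =>
  if v ≤ x ∧ i < lev x then lev x - i else 0

lemma bN_pos {x : P} (h : v ≤ x ∧ i < lev x) : bN i v x = lev x - i := by
  unfold bN
  rw [if_pos h]

lemma bN_zero {x : P} (h : ¬ (v ≤ x ∧ i < lev x)) : bN i v x = 0 := by
  unfold bN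
  rw [if_neg h]

/-- `bN` is below the labels -/
lemma bN_le (H : Gr P r) (hA : AdmL i e) (lv : lev v = i + 3) (hv : 3 ≤ e v) (x : P) :
    bN i v x ≤ e x := by
  by_cases h : v ≤ x ∧ i < lev x
  · rw [bN_pos h]
    have h1 := lab_up H hA h.2 v h.1
    have h2 : lev x ≤ lev v := by
      rcases eq_or_lt_of_le h.1 with h | h
      · rw [h]
      · exact (lev_strictAnti h).le
    omega
  · rw [bN_zero h]
    exact Nat.zero_le _

lemma bN_sum (H : Gr P r) (hκ : Split (i + 2) κ) (D : CrV i κ v p p') :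
    ∑ x, bN i v x = (uc p).card + (uc p').card + 7 := by
  classical
  have h1 := D.lv
  have h2 := D.lp H
  have h3 := D.lp' H
  have h4 : p ≠ p' := fun h => D.ne (by rw [h])
  have h5 : ∑ x, bN i v x = ∑ x ∈ CrV.T v p p', (lev x - i) := by
    rw [← Finset.sum_filter_add_sum_filter_not univ (fun x => x ∈ CrV.T v p p')]
    have h6 : ∑ x ∈ univ.filter (fun x => ¬ x ∈ CrV.T v p p'), bN i v x = 0 :=
      Finset.sum_eq_zero fun x hx => by
        rw [mem_filter] at hx
        exact bN_zero fun h => hx.2 ((D.T_iff H).2 h)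
    rw [h6, add_zero, Finset.filter_mem_eq_inter, univ_inter]
    exact Finset.sum_congr rfl fun x hx => bN_pos ((D.T_iff H).1 hx)
  rw [h5]
  unfold CrV.T
  rw [sum_insert, sum_insert, sum_insert, sum_union (D.disj hκ H)]
  · have h7 : ∀ q : P, lev q = i + 2 → ∑ x ∈ uc q, (lev x - i) = (uc q).card := by
      intro q hq
      rw [Finset.card_eq_sum_ones]
      refine Finset.sum_congr rfl fun x hx => ?_
      have := lev_uc H hx
      omega
    rw [h7 p h2, h7 p' h3]
    omega
  · intro h
    have := ((D.mem1 H).2 h).1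
    omega
  · rw [mem_insert]
    rintro (h | h)
    · exact h4 h
    · have := ((D.mem1 H).2 h).1
      omega
  · rw [mem_insert, mem_insert]
    rintro (h | h | h)
    · rw [← h] at h2
      omega
    · rw [← h] at h3
      omega
    · have := ((D.mem1 H).2 h).1
      omega

/-- a label at least three outside the components at energy at most eleven is on the level `i + 3` -/
lemma big_lev (H : Gr P r) (hκ : Split (i + 2) κ) (hA : AdmL i e) (hn : ∑ x, e x ≤ 11) {z : P}
    (hz : z ∉ cuni (i + 2) κ) (h3 : 3 ≤ e z) : lev z = i + 3 := by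
  classical
  have hlz := (two_up H hκ hz).1
  by_contra hne
  have hu := (two_up H hκ hz).2
  have hu1 := hu (i + 1) (by omega)
  have hu2 := hu (i + 2) le_rfl
  rw [up_eq] at hu1 hu2
  obtain ⟨y0, hy0, hl0⟩ := exists_top z
  obtain ⟨w, hw1, -, hw3⟩ := exists_mid H hy0 (k := i + 3) (by omega) (by omega)
  have hzw : z < w := by
    refine lt_of_le_of_ne hw1 ?_
    rintro rfl
    exact hne hw3
  set V1 := (lv P (i + 1)).filter (fun v => z < v) with hV1
  set V2 := (lv P (i + 2)).filter (fun v => z < v) with hV2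
  have m1 : ∀ x ∈ V1, lev x = i + 1 ∧ z < x := by
    intro x hx
    rw [hV1, mem_filter, mem_lv] at hx
    exact hx
  have m2 : ∀ x ∈ V2, lev x = i + 2 ∧ z < x := by
    intro x hx
    rw [hV2, mem_filter, mem_lv] at hx
    exact hx
  have d1 : Disjoint V1 V2 := by
    rw [disjoint_left]
    intro x hx hx'
    have := (m1 x hx).1
    have := (m2 x hx').1
    omega
  have n1 : w ∉ V1 ∪ V2 := by
    rw [mem_union]
    rintro (h | h)
    · have := (m1 _ h).1
      omega
    · have := (m2 _ h).1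
      omega
  have n2 : z ∉ insert w (V1 ∪ V2) := by
    rw [mem_insert, mem_union]
    rintro (h | h | h)
    · exact hzw.ne h
    · exact lt_irrefl _ (m1 _ h).2
    · exact lt_irrefl _ (m2 _ h).2
  have c1 : e z + (e w + (∑ x ∈ V1, e x + ∑ x ∈ V2, e x)) ≤ ∑ x, e x := by
    rw [← Finset.sum_union d1, ← Finset.sum_insert n1, ← Finset.sum_insert n2]
    exact Finset.sum_le_sum_of_subset (subset_univ _)
  have c2 : 2 ≤ ∑ x ∈ V1, e x := by
    refine hu1.trans ?_
    rw [Finset.card_eq_sum_ones]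
    refine Finset.sum_le_sum fun x hx => ?_
    have h4 := lab_up H hA (x := x) (by have := (m1 x hx).1; omega) z (m1 x hx).2.le
    have := (m1 x hx).1
    omega
  have c3 : 4 ≤ ∑ x ∈ V2, e x := by
    have : 2 * V2.card ≤ ∑ x ∈ V2, e x := by
      rw [Finset.card_eq_sum_ones, Finset.mul_sum]
      refine Finset.sum_le_sum fun x hx => ?_
      have h4 := lab_up H hA (x := x) (by have := (m2 x hx).1; omega) z (m2 x hx).2.le
      have := (m2 x hx).1
      omega
    omega
  have c4 : 3 ≤ e w := by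
    have h4 := lab_up H hA (x := w) (by omega) z hw1
    omega
  omega

/-- the data of `bN` -/
lemma bN_FD (H : Gr P r) (hv : i < lev v) {x : P} (hx : i ≤ lev x) : FD (bN i v) x ↔ v < x := by
  constructor
  · rintro ⟨z, hz, hlt⟩
    by_cases h : v ≤ z ∧ i < lev z
    · exact lt_of_le_of_lt h.1 hz.lt
    · rw [bN_zero h] at hlt
      omega
  · intro h
    have l1 := lev_strictAnti h
    obtain ⟨z, hz1, hz2, hz3⟩ := exists_mid H h.le (k := lev x + 1) (by omega) (by omega)
    have h3 : z < x := by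
      refine lt_of_le_of_ne hz2 ?_
      rintro rfl
      omega
    refine ⟨z, H.covBy_iff.2 ⟨h3, by omega⟩, ?_⟩
    rw [bN_pos ⟨hz1, by omega⟩]
    by_cases h4 : i < lev x
    · rw [bN_pos ⟨h.le, h4⟩]
      omega
    · rw [bN_zero (fun h5 => h4 h5.2)]
      omega

lemma bN_GU (H : Gr P r) {x : P} (hx : i < lev x) : GU (bN i v) x ↔ ¬ v ≤ x := by
  constructor
  · rintro ⟨y, hy, hle⟩ h
    have ly := lev_uc H (mem_uc.2 hy)
    rw [bN_pos ⟨h, hx⟩] at hle
    by_cases h4 : i < lev y
    · rw [bN_pos ⟨h.trans hy.le, h4⟩] at hle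
      omega
    · rw [bN_zero (fun h5 => h4 h5.2)] at hle
      omega
  · intro h
    obtain ⟨y, hy⟩ := uc_nonempty H (x := x) (by omega)
    refine ⟨y, mem_uc.1 hy, ?_⟩
    rw [bN_zero (fun h5 => h h5.1)]
    exact Nat.zero_le _

lemma bN_adm (H : Gr P r) (hv : i < lev v) : AdmL i (bN i v) := by
  rintro z hz ⟨h1, h2⟩
  rw [bN_FD H hv hz.le] at h1
  rw [bN_GU H hz] at h2
  exact h2 h1.le

lemma bN_pL (H : Gr P r) (hv : i < lev v) : pL i (bN i v) = 1 := by
  classical
  unfold pL
  rw [card_eq_one]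
  refine ⟨v, ?_⟩
  ext x
  rw [mem_filter, mem_singleton]
  constructor
  · rintro ⟨-, h1, h2, h3⟩
    rw [bN_FD H hv h1.le] at h2
    rw [bN_GU H h1, not_not] at h3
    by_contra h4
    exact h2 (lt_of_le_of_ne h3 (fun h => h4 h.symm))
  · rintro rfl
    refine ⟨mem_univ _, hv, ?_, ?_⟩
    · rw [bN_FD H hv hv.le]
      exact lt_irrefl _
    · rw [bN_GU H hv, not_not]

lemma bN_AL (H : Gr P r) (hv : i < lev v) : (AL i (bN i v)).card = up i v := by
  classical
  rw [up_eq]
  congr 1
  ext x
  rw [NormD_mem_AL, mem_filter, mem_lv]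
  refine and_congr_right fun hx => ?_
  rw [bN_FD H hv (by omega)]

lemma bN_aL (H : Gr P r) (hκ : Split (i + 2) κ) (D : CrV i κ v p p') :
    aL i (bN i v) = (uc p).card + (uc p').card + 2 := by
  classical
  have hv : i < lev v := by have := D.lv; omega
  have h1 : (univ.filter (fun z : P => i < lev z ∧ FD (bN i v) z)) = (CrV.T v p p').erase v := by
    ext x
    rw [mem_filter, mem_erase, D.T_iff H]
    constructor
    · rintro ⟨-, h1, h2⟩
      rw [bN_FD H hv h1.le] at h2
      exact ⟨h2.ne', h2.le, h1⟩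
    · rintro ⟨h1, h2, h3⟩
      refine ⟨mem_univ _, h3, ?_⟩
      rw [bN_FD H hv h3.le]
      exact lt_of_le_of_ne h2 (fun h => h1 h.symm)
  unfold aL
  rw [h1, card_erase_of_mem (CrV.mem_T.2 (Or.inl rfl)), D.card_T H hκ]
  omega

/-- the term of `bN` -/
theorem bN_trm (H : Gr P r) (hir : i ≤ r) (hκ : Split (i + 2) κ) (D : CrV i κ v p p') :
    trm i (bN i v) = xx ^ ((uc p).card + (uc p').card + 2 + up i v) *
      dd ^ ((lv P i).card - up i v + 1) := by
  classical
  have hv : i < lev v := by have := D.lv; omega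
  obtain ⟨u1, u2, u3, u4⟩ := upp_none H hir (e := bN i v) (by
    intro z hz
    apply bN_zero
    rintro ⟨-, h⟩
    omega)
  unfold trm
  rw [u2, if_pos (disjoint_empty_right _), bN_AL H hv, card_empty]
  unfold cw
  rw [if_pos ⟨bN_adm H hv, u1⟩, bN_aL H hκ D, u3, u4, bN_pL H hv]
  simp only [add_zero, pow_zero, mul_one, Nat.sub_zero]
  ring

section core

variable (H : Gr P r) (hi : 1 ≤ i) (hi2 : i + 1 ≤ r) (hκ : Split (i + 2) κ)
  (D : CrV i κ v p p') (hM : Mat P i ∅ psi)
include H hi2 D hM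

/-- one more unit: nothing new near the window -/
lemma big_one (hA : AdmL i e) (hB : AdmU i e) (hd : Disjoint (AL i e) (AU i e))
    (hc : IsCore i ∅ psi e) {w : P} (he : e = bN i v + Pi.single w 1) (h4 : up i v ≤ 4) :
    (AL i e).card + (AU i e).card ≤ pL i e + pU i e + 3 := by
  classical
  have hlv := D.lv
  have hin : ∀ x, e x = bN i v x + (if x = w then 1 else 0) := by
    intro x
    rw [he, Pi.add_apply, Pi.single_apply]
  have key : ∀ x, x ≠ w → 0 < e x → v ≤ x ∧ i < lev x := by
    intro x hx h0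
    by_contra h
    rw [hin x, bN_zero h, if_neg hx] at h0
    omega
  have low : ∀ x, lev x = i + 1 → 0 < e x → v ≤ x := by
    intro x hx h0
    by_contra hn
    have hxw : x = w := by
      by_contra h
      exact hn (key x h h0).1
    subst hxw
    have h1 : x ∉ Rst i ∅ psi e := fun h => by
      have := hc x h
      omega
    rw [mem_Rst] at h1
    have h3 : x ∉ Tch i e := by
      rw [mem_Tch]
      rintro (⟨-, z, hz, hz0⟩ | ⟨h4, -⟩)
      · have lz := lev_uc H (mem_uc.2 hz)
        exact hn ((key z (by rintro rfl; omega) hz0).1.trans hz.le)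
      · omega
    apply h1
    refine ⟨mem_near.2 (Or.inl hx), notMem_empty x, h3, ?_⟩
    rintro ⟨h4, h5⟩
    have h6 : x ∈ dbL P i := by
      rcases mem_union.1 h4 with h | h
      · exact h
      · have := (mem_dbU.1 h).1
        omega
    have h7 := (mem_dbU.1 (hM.low x h6 (notMem_empty x)).1).1
    rw [mem_Tch] at h5
    rcases h5 with ⟨h8, -⟩ | ⟨-, y, hy, hy0⟩
    · omega
    · have ly := lev_uc H (mem_uc.2 hy)
      have := (key y (by rintro rfl; omega) hy0).2
      omega
  have upp : ∀ u, lev u < i → e u = 0 := by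
    intro u hu
    by_contra h0
    have huw : u = w := by
      by_contra h
      have := (key u h (by omega)).2
      omega
    subst huw
    rcases Nat.lt_or_ge (lev u + 1) i with h1 | h1
    · obtain ⟨y, hy⟩ := dc_nonempty H (x := u) (by omega)
      have ly := lev_dc H hy
      have h2 := pos_dn H (by omega) hB (by omega) (by omega : 0 < e u) (mem_dc.1 hy)
      have := (key y (by rintro rfl; omega) h2).2
      omega
    · have h2 : u ∉ Rst i ∅ psi e := fun h => h0 (hc u h)
      rw [mem_Rst] at h2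
      have h3 : u ∉ Tch i e := by
        rw [mem_Tch]
        rintro (⟨h4, -⟩ | ⟨-, y, hy, hy0⟩)
        · omega
        · have ly := lev_uc H (mem_uc.2 hy)
          have := (key y (by rintro rfl; omega) hy0).2
          omega
      apply h2
      refine ⟨mem_near.2 (Or.inr (by omega)), notMem_empty u, h3, ?_⟩
      rintro ⟨h4, h5⟩
      have h6 : u ∈ dbU P i := by
        rcases mem_union.1 h4 with h | h
        · have := (mem_dbL.1 h).1
          omega
        · exact h
      obtain ⟨h7, h8⟩ := hM.upp u h6 (notMem_empty u)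
      have h9 := (mem_dbL.1 h7)
      rw [mem_Tch] at h5
      rcases h5 with ⟨-, z, hz, hz0⟩ | ⟨h10, -⟩
      · have lz := lev_uc H (mem_uc.2 hz)
        have h11 : v ≤ psi u := (key z (by rintro rfl; omega) hz0).1.trans hz.le
        have h12 : 1 ≤ e (psi u) := by
          rw [hin, bN_pos ⟨h11, by omega⟩]
          omega
        obtain ⟨x, hx⟩ : (uc (psi u)).Nonempty := by
          rw [← Finset.card_pos]
          omega
        have lx := lev_uc H hx
        have hx0 : e x = 0 := by
          by_contra h13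
          have := (key x (by rintro rfl; omega) (by omega)).2
          omega
        have hxd : x ∈ dc u := by rw [← h8]; exact hx
        have hxA : x ∈ AL i e := by
          rw [NormD_mem_AL]
          exact ⟨by omega, psi u, mem_uc.1 hx, by omega⟩
        have hxB : x ∈ AU i e := by
          rw [NormD_mem_AU]
          exact ⟨by omega, u, mem_dc.1 hxd, by omega⟩
        exact disjoint_left.1 hd hxA hxB
      · omega
  have hAU : AU i e = ∅ := by
    rw [eq_empty_iff_forall_notMem]
    intro s hs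
    rw [NormD_mem_AU] at hs
    obtain ⟨h1, y, hy, hlt⟩ := hs
    have ly := lev_uc H (mem_uc.2 hy)
    have := upp y (by omega)
    omega
  have hAL : (AL i e).card ≤ up i v := by
    rw [up_eq]
    apply card_le_card
    intro s hs
    rw [NormD_mem_AL] at hs
    obtain ⟨h1, y, hy, hlt⟩ := hs
    have ly := lev_uc H (mem_uc.2 hy)
    rw [mem_filter, mem_lv]
    exact ⟨h1, lt_of_le_of_lt (low y (by omega) (by omega)) hy.lt⟩
  have hp : 1 ≤ pL i e := by
    refine free_max H (w := v) (by omega) fun s hs => ?_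
    rw [hin s, hin v, bN_zero (fun h => by omega), bN_pos ⟨le_rfl, by omega⟩]
    split_ifs <;> omega
  rw [hAU, card_empty]
  omega

end core

/-- THE CORES with a label at least three outside the components, energy at most ten -/
theorem big_core (H : Gr P r) (hi : 1 ≤ i) (hi2 : i + 1 ≤ r) (hg : Good P i)
    (hκ : Split (i + 2) κ) (hM : Mat P i ∅ psi) (hc : IsCore i ∅ psi e)
    (hQ : Big (i + 2) κ e) (hn : ∑ x, e x ≤ 10) :
    Cheap 3 i e ∨ (∑ x, e x = 10 ∧ ∃ v ∈ N5s i κ, e = bN i v) := by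
  classical
  by_cases hA : AdmL i e
  swap
  · exact Or.inl (Or.inl hA)
  by_cases hB : AdmU i e
  swap
  · exact Or.inl (Or.inr (Or.inl hB))
  by_cases hd : Disjoint (AL i e) (AU i e)
  swap
  · exact Or.inl (Or.inr (Or.inr (Or.inl hd)))
  obtain ⟨v, hvc, h3⟩ := hQ
  have lv' := big_lev H hκ hA (by omega) hvc h3
  obtain ⟨p, p', hk, huc⟩ := two_labels H hκ hvc (by omega)
  have D : CrV i κ v p p' := ⟨lv', huc, hk⟩
  have lp := D.lp H
  have lp' := D.lp' H
  have hle := bN_le H hA lv' h3
  have hsum := bN_sum H hκ D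
  have n1 : 1 ≤ (uc p).card := card_pos.2 (uc_nonempty H (by omega))
  have n2 : 1 ≤ (uc p').card := card_pos.2 (uc_nonempty H (by omega))
  have hup1 := D.up1 H hκ
  have hs := Finset.sum_le_sum (fun x (_ : x ∈ (univ : Finset P)) => hle x)
  have h14 := D.up0_le H
  have h32 := (I32' H hi hi2 hg).1
  have u1 := (up_le_four H lp).1
  have u2 := (up_le_four H lp').1
  have u3 := h32 p lp
  have u4 := h32 p' lp'
  have hbN : e = bN i v → (AL i e).card + (AU i e).card ≤ pL i e + pU i e + 3 ∨
      up i v = 5 := by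
    intro he
    obtain ⟨-, b2, -, -⟩ := upp_none H (show i ≤ r by omega) (e := bN i v) (by
      intro z hz
      apply bN_zero
      rintro ⟨-, h⟩
      omega)
    rw [he, bN_AL H (by omega), b2, card_empty, bN_pL H (by omega)]
    have : up i v ≤ 5 := by
      have c1 : (uc p).card = 1 ∨ (uc p').card = 1 := by omega
      rcases c1 with c1 | c1
      · rw [c1] at u1
        omega
      · rw [c1] at u2
        omega
    omega
  by_cases h2 : (uc p).card + (uc p').card = 2
  · left
    refine Or.inr (Or.inr (Or.inr ?_))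
    have h4 : up i v ≤ 4 := by
      have c1 : (uc p).card = 1 := by omega
      have c2 : (uc p').card = 1 := by omega
      rw [c1] at u1
      rw [c2] at u2
      omega
    by_cases h5 : ∑ x, e x = 9
    · have he : e = bN i v := eq_of_sum hle (by omega)
      rcases hbN he with h | h
      · exact h
      · omega
    · obtain ⟨w, hw⟩ := eq_add_single hle (by omega)
      exact big_one H hi2 D hM hA hB hd hc hw h4
  · have he : e = bN i v := eq_of_sum hle (by omega)
    rcases hbN he with h | h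
    · exact Or.inl (Or.inr (Or.inr (Or.inr h)))
    · right
      have : (uc p).card + (uc p').card = 3 := by omega
      refine ⟨by omega, v, mem_N5s.2 ⟨lv', hvc, by omega, h⟩, he⟩

end Pool.Agent.GaussPoset.Win.Pn

end

/-! From `Pool.Agent.W_448pn_h63.PnF` -/

section

/-!
# The crossing numbers at the energies eight and ten (MP_448cb3_co, G2, case B, window j - 1)
-/

set_option autoImplicit false

namespace Pool.Agent.GaussPoset.Win.Pn

set_option linter.unusedSectionVars false

open Finset So I2 T8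

universe u

variable {P : Type u} [Fintype P] [PartialOrder P] [DecidableEq P] {r i : ℕ}

variable {ι : Type*} [DecidableEq ι] {κ : P → ι} {e : P → ℕ} {psi : P → P} {v p p' : P}

/-- no label at least three outside the components at energy at most eight -/
lemma big_trm (H : Gr P r) (hκ : Split (i + 2) κ) (hn : ∑ x, e x ≤ 8)
    (hQ : Big (i + 2) κ e) : trm i e = 0 := by
  classical
  apply trm_bad
  rintro ⟨hA, -⟩
  obtain ⟨v, hvc, h3⟩ := hQ
  have lv' := big_lev H hκ hA (by omega) hvc h3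
  obtain ⟨p, p', hk, huc⟩ := two_labels H hκ hvc (by omega)
  have D : CrV i κ v p p' := ⟨lv', huc, hk⟩
  have lp := D.lp H
  have lp' := D.lp' H
  have hle := bN_le H hA lv' h3
  have hsum := bN_sum H hκ D
  have n1 : 1 ≤ (uc p).card := card_pos.2 (uc_nonempty H (by omega))
  have n2 : 1 ≤ (uc p').card := card_pos.2 (uc_nonempty H (by omega))
  have hs := Finset.sum_le_sum (fun x (_ : x ∈ (univ : Finset P)) => hle x)
  omega

open Classical in
theorem big_eight (H : Gr P r) (hκ : Split (i + 2) κ) {n : ℕ} (hn : n ≤ 8) :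
    ∑ e ∈ ((univ : Finset P).piAntidiag n).filter (Big (i + 2) κ), trm i e = 0 := by
  refine Finset.sum_eq_zero fun e he => ?_
  rw [mem_filter, mem_pa] at he
  exact big_trm H hκ (by rw [he.1.1]; exact hn) he.2

lemma Big_add (H : Gr P r) (hκ : Split (i + 2) κ) (e l : P → ℕ)
    (hl : ∀ x, x ∉ near P i → l x = 0) : Big (i + 2) κ (e + l) ↔ Big (i + 2) κ e := by
  have key : ∀ z, z ∉ cuni (i + 2) κ → (e + l) z = e z := by
    intro z hz
    have h1 := (two_up H hκ hz).1
    rw [Pi.add_apply, hl z (fun h => ?_), add_zero]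
    rw [mem_near] at h
    omega
  unfold Big
  constructor
  · rintro ⟨z, hz, h⟩
    exact ⟨z, hz, by rwa [key z hz] at h⟩
  · rintro ⟨z, hz, h⟩
    exact ⟨z, hz, by rwa [key z hz]⟩

lemma bN_core (H : Gr P r) (hv : lev v = i + 3) : IsCore i ∅ psi (bN i v) := by
  apply isCore_of
  intro x hx h0
  have h1 : v ≤ x ∧ i < lev x := by
    by_contra h
    exact h0 (bN_zero h)
  have h2 : lev x = i + 1 := by
    rcases mem_near.1 hx with h | h <;> omega
  rw [mem_Tch]
  left
  refine ⟨h2, ?_⟩
  obtain ⟨z, hz1, hz2, hz3⟩ := exists_mid H h1.1 (k := i + 2) (by omega) (by omega)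
  have h3 : z < x := by
    refine lt_of_le_of_ne hz2 ?_
    rintro rfl
    omega
  refine ⟨z, H.covBy_iff.2 ⟨h3, by omega⟩, ?_⟩
  rw [bN_pos ⟨hz1, by omega⟩]
  omega

lemma bN_inj {v' : P} (h1 : lev v = i + 3) (h1' : lev v' = i + 3) (h : bN i v = bN i v') :
    v = v' := by
  have h2 : bN i v' v = 3 := by
    rw [← h, bN_pos ⟨le_rfl, by omega⟩]
    omega
  have h3 : v' ≤ v ∧ i < lev v := by
    by_contra h3
    rw [bN_zero h3] at h2
    omega
  by_contra hne
  have := lev_strictAnti (lt_of_le_of_ne h3.1 (fun h => hne h.symm))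
  omega

open Classical in
/-- the data of a join with three elements of level `i + 1` and five sites -/
lemma N5s_data (H : Gr P r) (hκ : Split (i + 2) κ) (hv : v ∈ N5s i κ) :
    ∃ p p', CrV i κ v p p' ∧ (uc p).card + (uc p').card = 3 ∧ up i v = 5 ∧
      5 ≤ (lv P i).card := by
  obtain ⟨h1, h2, h3, h4⟩ := mem_N5s.1 hv
  obtain ⟨p, p', hk, huc⟩ := two_labels H hκ h2 (by omega)
  have D : CrV i κ v p p' := ⟨h1, huc, hk⟩
  refine ⟨p, p', D, by rw [← D.up1 H hκ, h3], h4, ?_⟩
  rw [← h4, up_eq]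
  exact card_le_card (filter_subset _ _)

open Classical in
theorem big_ten (H : Gr P r) (hi : 1 ≤ i) (hi2 : i + 1 ≤ r) (hg : Good P i)
    (hκ : Split (i + 2) κ) :
    dd ^ ((lv P i).card - 3) ∣
      ∑ e ∈ ((univ : Finset P).piAntidiag 10).filter (Big (i + 2) κ), trm i e -
        ((N5s i κ).card : A) * (xx ^ 10 * dd ^ ((lv P i).card - 4)) := by
  obtain ⟨psi, hM⟩ := good_mat H hg
  have h := core_sum_Q H hi hi2 hM 10 3 (Big (i + 2) κ) (Big_add H hκ) (fun e hc hQ hs => by
      rcases big_core H hi hi2 hg hκ hM hc hQ (by omega) with h | h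
      · exact Rk_of_cheap h
      · omega) ((N5s i κ).image (bN i)) (fun e he => by
      rw [mem_image] at he
      obtain ⟨v, hv, rfl⟩ := he
      obtain ⟨p, p', D, h1, h2, h3⟩ := N5s_data H hκ hv
      have hlv := D.lv
      refine ⟨bN_core H hlv, by rw [bN_sum H hκ D, h1], v, (mem_N5s.1 hv).2.1, ?_⟩
      rw [bN_pos ⟨le_rfl, by omega⟩]
      omega) (fun e hc hQ hs he => by
      rcases big_core H hi hi2 hg hκ hM hc hQ (by omega) with h | ⟨-, v, h1, h2⟩
      · exact Rk_of_cheap h
      · exfalso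
        apply he
        rw [mem_image]
        exact ⟨v, h1, h2.symm⟩)
  have h2 : ∑ e ∈ (N5s i κ).image (bN i), trm i e =
      ((N5s i κ).card : A) * (xx ^ 10 * dd ^ ((lv P i).card - 4)) := by
    rw [Finset.sum_image]
    · rw [Finset.sum_congr rfl (fun v hv => ?_), Finset.sum_const, nsmul_eq_mul]
      obtain ⟨p, p', D, h1, h2, h3⟩ := N5s_data H hκ hv
      rw [bN_trm H (by omega) hκ D, h1, h2]
      congr 2
      omega
    · intro v hv v' hv' hvv
      exact bN_inj (mem_N5s.1 hv).1 (mem_N5s.1 hv').1 hvv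
  rwa [h2] at h

lemma coeff_high {b k : ℕ} {F : A} (h : dd ^ (b - k) ∣ F) (hb : 1 ≤ b) :
    PowerSeries.coeff b (dd ^ (k + 1) * F : A) = 0 := by
  apply coeff_zero_of_dvd (a := b + 1)
  · refine (pow_dvd_pow dd (show b + 1 ≤ (k + 1) + (b - k) by omega)).trans ?_
    rw [pow_add]
    exact mul_dvd_mul_left _ h
  · omega

lemma c0_xx (n : ℕ) : PowerSeries.coeff 0 (xx ^ n : A) = (-1) ^ n := by
  have h1 : PowerSeries.coeff 0 (xx : A) = -1 := by
    unfold xx dd
    simp
  rw [PowerSeries.coeff_zero_eq_constantCoeff] at h1 ⊢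
  rw [map_pow, h1]

/-- the leading coefficient of the configurations with a label at least three -/
theorem big_ten_coeff (H : Gr P r) (hi : 1 ≤ i) (hi2 : i + 1 ≤ r) (hg : Good P i)
    (hκ : Split (i + 2) κ) (hb : 1 ≤ (lv P i).card)
    [DecidablePred (Big (i + 2) κ)] :
    PowerSeries.coeff (lv P i).card (dd ^ 4 *
      ∑ e ∈ ((univ : Finset P).piAntidiag 10).filter (Big (i + 2) κ), trm i e : A) =
      ((N5s i κ).card : ℤ) := by
  classical
  have h1 := big_ten H hi hi2 hg hκ
  have h0 : ∑ e ∈ ((univ : Finset P).piAntidiag 10).filter (Big (i + 2) κ), trm i e =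
      (∑ e ∈ ((univ : Finset P).piAntidiag 10).filter (Big (i + 2) κ), trm i e -
        ((N5s i κ).card : A) * (xx ^ 10 * dd ^ ((lv P i).card - 4))) +
      ((N5s i κ).card : A) * (xx ^ 10 * dd ^ ((lv P i).card - 4)) := by ring
  rw [h0, mul_add, map_add]
  have h2 : PowerSeries.coeff (lv P i).card (dd ^ 4 *
      (∑ e ∈ ((univ : Finset P).piAntidiag 10).filter (Big (i + 2) κ), trm i e -
        ((N5s i κ).card : A) * (xx ^ 10 * dd ^ ((lv P i).card - 4))) : A) = 0 := by
    refine coeff_high (k := 3) ?_ hb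
    convert h1
  rw [h2, zero_add]
  rcases (N5s i κ).eq_empty_or_nonempty with h3 | ⟨v, hv⟩
  · rw [h3]
    simp
  · obtain ⟨p, p', D, -, -, h5⟩ := N5s_data H hκ hv
    have h6 : dd ^ 4 * (((N5s i κ).card : A) * (xx ^ 10 * dd ^ ((lv P i).card - 4))) =
        dd ^ (lv P i).card * (((N5s i κ).card : A) * xx ^ 10) := by
      have : dd ^ (lv P i).card = dd ^ 4 * dd ^ ((lv P i).card - 4) := by
        rw [← pow_add]
        congr 1
        omega
      rw [this]
      ring
    rw [h6]
    have h7 : PowerSeries.coeff (lv P i).card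
        (dd ^ (lv P i).card * (((N5s i κ).card : A) * xx ^ 10)) =
        PowerSeries.coeff 0 (((N5s i κ).card : A) * xx ^ 10) := by
      unfold dd
      have := PowerSeries.coeff_X_pow_mul (((N5s i κ).card : A) * xx ^ 10) (lv P i).card 0
      rwa [zero_add] at this
    rw [h7]
    have h8 : ((N5s i κ).card : A) * xx ^ 10 = (N5s i κ).card • (xx ^ 10 : A) := by
      rw [nsmul_eq_mul]
    rw [h8, map_nsmul, c0_xx]
    simp

/-! ### the numbers -/

lemma hp_zero {b n k : ℕ} {V : PowerSeries A} (h : HP b V) (hn : n ≤ 9) (hk : n / 2 < k) :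
    PowerSeries.coeff b (dd ^ k * PowerSeries.coeff n V : A) = 0 := by
  apply coeff_zero_of_dvd (a := b + 1)
  · have h1 : (dd : A) ^ k = dd ^ (k - (n / 2 + 1)) * (dd * dd ^ (n / 2)) := by
      rw [← pow_succ', ← pow_add]
      congr 1
      omega
    rw [h1, mul_assoc, mul_assoc, pow_succ']
    exact dvd_mul_of_dvd_right (mul_dvd_mul_left _ (h n hn)) _
  · omega

open Classical in
/-- the crossing sum -/
lemma XS_eq (H : Gr P r) (hir : i ≤ r) (hκ : Split (i + 2) κ) (n : ℕ) : XS i κ n =
    ∑ p ∈ (Finset.HasAntidiagonal.antidiagonal n).filter (fun p => 1 ≤ p.1),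
      ∑ G ∈ GG (i + 2) κ p.1, PowerSeries.coeff p.2 (PPS i (i + 2) κ G) +
    ∑ e ∈ ((univ : Finset P).piAntidiag n).filter (Big (i + 2) κ), trm i e := by
  rw [← cross_sum H hir le_rfl hκ n]
  unfold XS
  refine Finset.sum_congr ?_ fun _ _ => rfl
  ext e
  rw [mem_filter, mem_filter]
  rfl

section main

variable (H : Gr P r) (hi : 1 ≤ i) (hi2 : i + 1 ≤ r) (hg : Good P i) (hκ : Split (i + 2) κ)
  (hb : 1 ≤ (lv P i).card)
  (hP : ∀ m G, 1 ≤ m → G ∈ GG (i + 2) κ m → HP (lv P i).card (PPS i (i + 2) κ G))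
include H hi hi2 hκ hb hP

/-- the sum over the labels outside the components -/
lemma main_sum {n : ℕ} (hn : 3 ≤ n) (hn' : n ≤ 10) (he : n % 2 = 0) :
    PowerSeries.coeff (lv P i).card (dd ^ (n / 2 - 1) *
      ∑ p ∈ (Finset.HasAntidiagonal.antidiagonal n).filter (fun p => 1 ≤ p.1),
        ∑ G ∈ GG (i + 2) κ p.1, PowerSeries.coeff p.2 (PPS i (i + 2) κ G) : A) =
    ∑ G ∈ GG (i + 2) κ 1, hc (n - 1) (lv P i).card (PPS i (i + 2) κ G) +
      ∑ G ∈ GG (i + 2) κ 2, hc (n - 2) (lv P i).card (PPS i (i + 2) κ G) := by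
  classical
  rw [Finset.mul_sum, map_sum]
  have h1 : ∀ p ∈ (Finset.HasAntidiagonal.antidiagonal n).filter (fun p => 1 ≤ p.1),
      PowerSeries.coeff (lv P i).card (dd ^ (n / 2 - 1) *
        ∑ G ∈ GG (i + 2) κ p.1, PowerSeries.coeff p.2 (PPS i (i + 2) κ G) : A) =
      (if p = (1, n - 1) then
        ∑ G ∈ GG (i + 2) κ 1, hc (n - 1) (lv P i).card (PPS i (i + 2) κ G) else 0) +
      (if p = (2, n - 2) then
        ∑ G ∈ GG (i + 2) κ 2, hc (n - 2) (lv P i).card (PPS i (i + 2) κ G) else 0) := by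
    rintro ⟨m, k⟩ hp
    rw [mem_filter, Finset.HasAntidiagonal.mem_antidiagonal] at hp
    simp only at hp ⊢
    rw [Finset.mul_sum, map_sum]
    by_cases hm1 : m = 1
    · have hk : k = n - 1 := by omega
      subst hm1
      subst hk
      rw [if_pos rfl, if_neg (by simp), add_zero]
      refine Finset.sum_congr rfl fun G hG => ?_
      unfold hc
      congr 3
      omega
    · by_cases hm2 : m = 2
      · have hk : k = n - 2 := by omega
        subst hm2
        subst hk
        rw [if_neg (by simp), if_pos rfl, zero_add]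
        refine Finset.sum_congr rfl fun G hG => ?_
        unfold hc
        congr 3
        omega
      · rw [if_neg (fun h => hm1 (by rw [Prod.mk.injEq] at h; exact h.1)),
          if_neg (fun h => hm2 (by rw [Prod.mk.injEq] at h; exact h.1)), add_zero]
        refine Finset.sum_eq_zero fun G hG => ?_
        exact hp_zero (hP m G hp.2 hG) (by omega) (by omega)
  rw [Finset.sum_congr rfl h1, Finset.sum_add_distrib, Finset.sum_ite_eq', Finset.sum_ite_eq',
    if_pos, if_pos]
  · rw [mem_filter, Finset.HasAntidiagonal.mem_antidiagonal]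
    simp only
    omega
  · rw [mem_filter, Finset.HasAntidiagonal.mem_antidiagonal]
    simp only
    omega

/-- THE CROSSING NUMBER at the energy eight -/
theorem XX_eight : XX i κ 8 =
    ∑ G ∈ GG (i + 2) κ 1, hc 7 (lv P i).card (PPS i (i + 2) κ G) +
      ∑ G ∈ GG (i + 2) κ 2, hc 6 (lv P i).card (PPS i (i + 2) κ G) := by
  classical
  unfold XX
  rw [XS_eq H (by omega) hκ, big_eight H hκ le_rfl, add_zero]
  exact main_sum H hi hi2 hκ hb hP (n := 8) (by omega) (by omega) (by omega)

include hg in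
/-- THE CROSSING NUMBER at the energy ten -/
theorem XX_ten : XX i κ 10 =
    ∑ G ∈ GG (i + 2) κ 1, hc 9 (lv P i).card (PPS i (i + 2) κ G) +
      ∑ G ∈ GG (i + 2) κ 2, hc 8 (lv P i).card (PPS i (i + 2) κ G) + ((N5s i κ).card : ℤ) := by
  classical
  unfold XX
  rw [XS_eq H (by omega) hκ, mul_add, map_add]
  have h1 := main_sum H hi hi2 hκ hb hP (n := 10) (by omega) (by omega) (by omega)
  have h2 := big_ten_coeff H hi hi2 hg hκ hb
  have h3 : T8.kk 10 = 4 := by unfold T8.kk; simp
  rw [h3]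
  congr 1

end main

end Pool.Agent.GaussPoset.Win.Pn

end

/-! From `Pool.Agent.W_448pn_h63.PnG` -/

section

/-!
# Products of half profiles (MP_448cb3_co, G2, case B, window j - 1)
-/

set_option autoImplicit false

namespace Pool.Agent.GaussPoset.Win.Pn

set_option linter.unusedSectionVars false

open Finset So I2 T8

lemma Mo_one : Mo 0 (1 : PowerSeries A) 0 1 where
  hp := fun n _ => by rw [pow_zero]; exact one_dvd _
  ev := by
    intro m hm
    unfold hc
    rw [PowerSeries.coeff_one]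
    by_cases h : m = 0
    · subst h
      simp
    · rw [if_neg (by omega), if_neg h, mul_zero, map_zero]

lemma odd_one (m : ℕ) : hc (2 * m + 1) 0 (1 : PowerSeries A) = 0 := by
  unfold hc
  rw [PowerSeries.coeff_one, if_neg (by omega), mul_zero, map_zero]

/-- the product over the components -/
theorem prod_Mo {α : Type*} [DecidableEq α] (s : Finset α) (b : α → ℕ) (V : α → PowerSeries A)
    (k : α → ℕ) (c : α → ℤ) (h : ∀ a ∈ s, Mo (b a) (V a) (k a) (c a)) :
    Mo (∑ a ∈ s, b a) (∏ a ∈ s, V a) (∑ a ∈ s, k a) (∏ a ∈ s, c a) ∧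
    ∀ m, m ≤ 4 → hc (2 * m + 1) (∑ a ∈ s, b a) (∏ a ∈ s, V a) =
      ∑ a ∈ s, if ∑ x ∈ s.erase a, k x ≤ m then
        (∏ x ∈ s.erase a, c x) * hc (2 * (m - ∑ x ∈ s.erase a, k x) + 1) (b a) (V a) else 0 := by
  induction s using Finset.induction_on with
  | empty =>
    simp only [Finset.sum_empty, Finset.prod_empty]
    exact ⟨Mo_one, fun m _ => odd_one m⟩
  | insert a s ha ih =>
    obtain ⟨i1, i2⟩ := ih (fun c hc => h c (Finset.mem_insert_of_mem hc))
    have ha1 := h a (Finset.mem_insert_self a s)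
    rw [Finset.sum_insert ha, Finset.prod_insert ha, Finset.sum_insert ha, Finset.prod_insert ha]
    refine ⟨ha1.mul i1, fun m hm => ?_⟩
    rw [ha1.odd_mul i1 hm, Finset.sum_insert ha, Finset.erase_insert ha]
    congr 1
    have h1 : ∀ x ∈ s, (insert a s).erase x = insert a (s.erase x) := by
      intro x hx
      rw [Finset.erase_insert_of_ne]
      rintro rfl
      exact ha hx
    have h2 : ∀ x ∈ s, a ∉ s.erase x := fun x _ hax => ha (Finset.mem_of_mem_erase hax)
    split_ifs with hk
    · rw [i2 (m - k a) (by omega), Finset.mul_sum]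
      refine Finset.sum_congr rfl fun x hx => ?_
      rw [h1 x hx, Finset.sum_insert (h2 x hx), Finset.prod_insert (h2 x hx)]
      by_cases h3 : ∑ y ∈ s.erase x, k y ≤ m - k a
      · rw [if_pos h3, if_pos (by omega)]
        have h4 : m - (k a + ∑ y ∈ s.erase x, k y) = m - k a - ∑ y ∈ s.erase x, k y := by omega
        rw [h4]
        ring
      · rw [if_neg h3, if_neg (by omega), mul_zero]
    · symm
      refine Finset.sum_eq_zero fun x hx => ?_
      rw [h1 x hx, Finset.sum_insert (h2 x hx), if_neg (by omega)]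

/-- one factor with a pin -/
theorem prod_two {α : Type*} [DecidableEq α] (s : Finset α) (b : α → ℕ) (V : α → PowerSeries A)
    {x y : α} (hx : x ∈ s) (hy : y ∈ s) (hxy : x ≠ y) {cx cy : ℤ}
    (h : ∀ a ∈ s, a ≠ x → a ≠ y → Mo (b a) (V a) 0 1) (h1 : Mo (b x) (V x) 1 cx)
    (h2 : Mo (b y) (V y) 1 cy) {m : ℕ} (hm : 2 ≤ m) (hm' : m ≤ 4) :
    hc (2 * m + 1) (∑ a ∈ s, b a) (∏ a ∈ s, V a) =
      cy * hc (2 * m - 1) (b x) (V x) + cx * hc (2 * m - 1) (b y) (V y) +
      cx * cy * ∑ a ∈ (s.erase x).erase y, hc (2 * m - 3) (b a) (V a) := by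
  set k : α → ℕ := fun a => if a = x ∨ a = y then 1 else 0 with hk
  set c : α → ℤ := fun a => if a = x then cx else if a = y then cy else 1 with hc'
  have h0 : ∀ a ∈ s, Mo (b a) (V a) (k a) (c a) := by
    intro a ha
    by_cases e1 : a = x
    · subst e1
      simp only [hk, hc']
      simpa using h1
    · by_cases e2 : a = y
      · subst e2
        simp only [hk, hc']
        simpa [e1] using h2
      · simp only [hk, hc']
        simpa [e1, e2] using h a ha e1 e2
  have hy' : y ∈ s.erase x := mem_erase.2 ⟨hxy.symm, hy⟩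
  have split : ∀ F : α → ℤ, ∑ a ∈ s, F a = F x + F y + ∑ a ∈ (s.erase x).erase y, F a := by
    intro F
    rw [← Finset.add_sum_erase s F hx, ← Finset.add_sum_erase (s.erase x) F hy', ← add_assoc]
  rw [(prod_Mo s b V k c h0).2 m hm', split]
  have z1 : ∀ T : Finset α, T ⊆ (s.erase x).erase y → ∑ a ∈ T, k a = 0 := by
    intro T hT
    refine Finset.sum_eq_zero fun a ha => ?_
    have := hT ha
    rw [mem_erase, mem_erase] at this
    simp only [hk]
    rw [if_neg]
    tauto
  have z2 : ∀ T : Finset α, T ⊆ (s.erase x).erase y → ∏ a ∈ T, c a = 1 := by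
    intro T hT
    refine Finset.prod_eq_one fun a ha => ?_
    have := hT ha
    rw [mem_erase, mem_erase] at this
    simp only [hc']
    rw [if_neg this.2.1, if_neg this.1]
  have kx : k x = 1 := by simp only [hk]; simp
  have ky : k y = 1 := by simp only [hk]; simp
  have ex : c x = cx := by simp only [hc']; simp
  have ey : c y = cy := by simp only [hc']; rw [if_neg hxy.symm, if_pos trivial]
  congr 1
  · congr 1
    · rw [← Finset.add_sum_erase (s.erase x) k hy', ← Finset.mul_prod_erase (s.erase x) c hy',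
        z1 _ (Finset.Subset.refl _), z2 _ (Finset.Subset.refl _), ky, ey, if_pos (by omega)]
      have : 2 * (m - (1 + 0)) + 1 = 2 * m - 1 := by omega
      rw [this, mul_one]
    · have hx' : x ∈ s.erase y := mem_erase.2 ⟨hxy, hx⟩
      rw [← Finset.add_sum_erase (s.erase y) k hx', ← Finset.mul_prod_erase (s.erase y) c hx',
        Finset.erase_right_comm, z1 _ (Finset.Subset.refl _), z2 _ (Finset.Subset.refl _), kx, ex,
        if_pos (by omega)]
      have : 2 * (m - (1 + 0)) + 1 = 2 * m - 1 := by omega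
      rw [this, mul_one]
  · rw [Finset.mul_sum]
    refine Finset.sum_congr rfl fun a ha => ?_
    rw [mem_erase, mem_erase] at ha
    have hx' : x ∈ s.erase a := mem_erase.2 ⟨fun h => ha.2.1 h.symm, hx⟩
    have hy'' : y ∈ (s.erase a).erase x := mem_erase.2 ⟨hxy.symm, mem_erase.2
      ⟨fun h => ha.1 h.symm, hy⟩⟩
    have hsub : ((s.erase a).erase x).erase y ⊆ (s.erase x).erase y := by
      intro z hz
      rw [mem_erase, mem_erase, mem_erase] at hz
      rw [mem_erase, mem_erase]
      exact ⟨hz.1, hz.2.1, hz.2.2.2⟩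
    rw [← Finset.add_sum_erase (s.erase a) k hx', ← Finset.mul_prod_erase (s.erase a) c hx',
      ← Finset.add_sum_erase ((s.erase a).erase x) k hy'',
      ← Finset.mul_prod_erase ((s.erase a).erase x) c hy'', z1 _ hsub, z2 _ hsub, kx, ky, ex, ey,
      if_pos (by omega)]
    have : 2 * (m - (1 + (1 + 0))) + 1 = 2 * m - 3 := by omega
    rw [this, mul_one]

lemma HP_one : HP 0 (1 : PowerSeries A) := Mo_one.hp

/-- half profile of the product -/
theorem prod_HP {α : Type*} [DecidableEq α] (s : Finset α) (b : α → ℕ) (V : α → PowerSeries A)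
    (h : ∀ a ∈ s, HP (b a) (V a)) : HP (∑ a ∈ s, b a) (∏ a ∈ s, V a) := by
  induction s using Finset.induction_on with
  | empty =>
    simp only [Finset.sum_empty, Finset.prod_empty]
    exact HP_one
  | insert a s ha ih =>
    rw [Finset.sum_insert ha, Finset.prod_insert ha]
    exact (h a (Finset.mem_insert_self a s)).mul (ih fun c hc => h c (Finset.mem_insert_of_mem hc))

/-- one factor without even leading coefficients -/
theorem even_zero {b b' : ℕ} {V V' : PowerSeries A} (h : HP b V) (h' : HP b' V')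
    (h0 : ∀ m, m ≤ 4 → hc (2 * m) b V = 0) {m : ℕ} (hm : m ≤ 4) :
    hc (2 * m) (b + b') (V * V') = 0 := by
  rw [hc_mul h h' (by omega), anti_even m (fun p => hc p.1 b V * hc p.2 b' V')]
  refine Finset.sum_eq_zero fun q hq => ?_
  rw [Finset.HasAntidiagonal.mem_antidiagonal] at hq
  simp only
  rw [h0 q.1 (by omega), zero_mul]

theorem prod_even_zero {α : Type*} [DecidableEq α] (s : Finset α) (b : α → ℕ)
    (V : α → PowerSeries A) (h : ∀ a ∈ s, HP (b a) (V a)) {x : α} (hx : x ∈ s)
    (h0 : ∀ m, m ≤ 4 → hc (2 * m) (b x) (V x) = 0) {m : ℕ} (hm : m ≤ 4) :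
    hc (2 * m) (∑ a ∈ s, b a) (∏ a ∈ s, V a) = 0 := by
  rw [← Finset.add_sum_erase s b hx, ← Finset.mul_prod_erase s V hx]
  exact even_zero (h x hx) (prod_HP _ _ _ fun a ha => h a (Finset.mem_of_mem_erase ha)) h0 hm

end Pool.Agent.GaussPoset.Win.Pn

end

/-! From `Pool.Agent.W_448pn_h63.PnH` -/

section

/-!
# One crossing label (MP_448cb3_co, G2, case B, window j - 1)
-/

set_option autoImplicit false

namespace Pool.Agent.GaussPoset.Win.Pn

set_option linter.unusedSectionVars false

open Finset So I2 T8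

universe u

variable {P : Type u} [Fintype P] [PartialOrder P] [DecidableEq P] {r i l : ℕ}

variable {ι : Type*} [DecidableEq ι] {κ : P → ι} {e G : P → ℕ} {C : Finset P} {t t' : P → ℕ}
  {z p p' : P}

/-- the pinned elements -/
noncomputable def pns (C : Finset P) (t : P → ℕ) : Finset P := C.filter (fun w => 1 ≤ t w)

lemma mem_pns {w : P} : w ∈ pns C t ↔ w ∈ C ∧ 1 ≤ t w := by
  unfold pns
  rw [mem_filter]

/-- good pins: label one, pendants below doubles, disjoint sites -/
def Gd (i : ℕ) (C : Finset P) (t : P → ℕ) : Prop :=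
  (∀ w ∈ pns C t, t w = 1 ∧ w ∈ PD P i) ∧
    ∀ w ∈ pns C t, ∀ w' ∈ pns C t, w ≠ w' → Disjoint (sts i w) (sts i w')

/-- the element `d` can be exchanged with a site -/
def TeeL (i : ℕ) (d : P) : Prop := ∃ w w2 p x q, Xg.Tee dc uc (Xg.laL i) d w w2 p x q

open Classical in
/-- THE PINNED SERIES OF THE COMPONENTS: half profiles; the even leading coefficients count the
pendants, when the elements which can be exchanged are pinned at most once -/
structure PinH (i : ℕ) (κ : P → ι) : Prop where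
  hp : ∀ a ∈ univ.image κ, ∀ t : P → ℕ, (∀ w, 1 ≤ t w → i + 2 ≤ lev w) → (∀ w, t w ≤ 2) →
    HP (bb i (i + 2) κ a) (ZPS i (cext (i + 2) κ a) t)
  mo : ∀ a ∈ univ.image κ, ∀ t : P → ℕ, (∀ w, 1 ≤ t w → i + 2 ≤ lev w) → (∀ w, t w ≤ 2) →
    (∀ w ∈ cext (i + 2) κ a, TeeL i w → t w ≤ 1) →
    Mo (bb i (i + 2) κ a) (ZPS i (cext (i + 2) κ a) t) (pns (cext (i + 2) κ a) t).card
      (if Gd i (cext (i + 2) κ a) t then 1 else 0)

lemma ZPS_congr (h : ∀ w ∈ C, t w = t' w) : ZPS i C t = ZPS i C t' := by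
  classical
  ext1 n
  rw [coeff_ZPS, coeff_ZPS]
  unfold ZP
  refine Finset.sum_congr ?_ fun _ _ => rfl
  refine Finset.filter_congr fun e _ => ?_
  unfold Pin
  refine forall_congr' fun w => ?_
  refine imp_congr_right fun hw => ?_
  rw [h w hw]

lemma pns_congr (h : ∀ w ∈ C, t w = t' w) : pns C t = pns C t' := by
  unfold pns
  exact Finset.filter_congr fun w hw => by rw [h w hw]

lemma Gd_congr (h : ∀ w ∈ C, t w = t' w) : Gd i C t ↔ Gd i C t' := by
  unfold Gd
  rw [pns_congr h]
  refine and_congr ?_ Iff.rfl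
  refine forall_congr' fun w => ?_
  refine imp_congr_right fun hw => ?_
  rw [h w (mem_pns.1 hw).1]

/-- label one on one element -/
noncomputable def ind (p : P) : P → ℕ := Pi.single p 1

lemma ind_self : ind p p = 1 := by unfold ind; rw [Pi.single_eq_same]

lemma ind_ne {w : P} (h : w ≠ p) : ind p w = 0 := by
  unfold ind
  rw [Pi.single_eq_of_ne h]

lemma ind_le (w : P) : ind p w ≤ 1 := by
  by_cases h : w = p
  · rw [h, ind_self]
  · rw [ind_ne h]
    omega

lemma pns_ind (hp : p ∈ C) : pns C (ind p) = {p} := by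
  ext w
  rw [mem_pns, mem_singleton]
  constructor
  · rintro ⟨-, h⟩
    by_contra h1
    rw [ind_ne h1] at h
    omega
  · rintro rfl
    exact ⟨hp, by rw [ind_self]⟩

lemma Gd_ind (hp : p ∈ C) : Gd i C (ind p) ↔ p ∈ PD P i := by
  unfold Gd
  rw [pns_ind hp]
  simp only [mem_singleton, forall_eq, ind_self, true_and, ne_eq, not_true_eq_false,
    IsEmpty.forall_iff, and_true]

lemma pns_zero (h : ∀ w ∈ C, t w = 0) : pns C t = ∅ := by
  rw [eq_empty_iff_forall_notMem]
  intro w hw
  have h1 := mem_pns.1 hw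
  rw [h w h1.1] at h1
  omega

lemma Gd_zero (h : ∀ w ∈ C, t w = 0) : Gd i C t := by
  unfold Gd
  rw [pns_zero h]
  exact ⟨fun w hw => absurd hw (notMem_empty w), fun w hw => absurd hw (notMem_empty w)⟩

/-! ### the labels of total one -/

/-- crossing elements without crossing covers -/
noncomputable def z1s (l : ℕ) (κ : P → ι) : Finset P :=
  (Crs l κ).filter (fun z => uc z ⊆ cuni l κ)

/-- no crossing element has two covers which can be exchanged -/
def NoTT (i : ℕ) (κ : P → ι) : Prop := ∀ z ∈ z1s (i + 2) κ, ∃ p ∈ uc z, ¬ TeeL i p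

lemma mem_z1s : z ∈ z1s l κ ↔ z ∉ cuni l κ ∧ ∀ y, z ⋖ y → y ∈ cuni l κ := by
  unfold z1s
  rw [mem_filter, mem_Crs]
  refine and_congr_right fun _ => ?_
  constructor
  · exact fun h y hy => h (mem_uc.2 hy)
  · exact fun h y hy => h y (mem_uc.1 hy)

lemma sum_one_single {D : Finset P} {f : P → ℕ} (hf : Spt D f) (h : ∑ x ∈ D, f x = 1) :
    ∃ x ∈ D, f = Pi.single x 1 := by
  classical
  have h1 : ∃ x ∈ D, 1 ≤ f x := by
    by_contra hc
    push Not at hc
    have : ∑ x ∈ D, f x = 0 := Finset.sum_eq_zero fun x hx => by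
      have := hc x hx
      omega
    omega
  obtain ⟨x, hx, hx1⟩ := h1
  refine ⟨x, hx, ?_⟩
  have h2 := Finset.add_sum_erase D f hx
  funext y
  by_cases hy : y = x
  · subst hy
    rw [Pi.single_eq_same]
    omega
  · rw [Pi.single_eq_of_ne hy]
    by_cases hyD : y ∈ D
    · have h3 := Finset.single_le_sum (f := f) (fun _ _ => Nat.zero_le _)
        (mem_erase.2 ⟨hy, hyD⟩)
      omega
    · exact hf y hyD

open Classical in
lemma th_single {w : P} : th (Pi.single z 1) w = if z ⋖ w then 1 else 0 := by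
  classical
  apply le_antisymm
  · rw [th_le]
    intro y hy
    split_ifs with h
    · by_cases hyz : y = z
      · subst hyz
        rw [Pi.single_eq_same]
      · rw [Pi.single_eq_of_ne hyz]
        omega
    · rw [Pi.single_eq_of_ne]
      rintro rfl
      exact h hy
  · split_ifs with h
    · have := (th_le (G := Pi.single z 1) (w := w)).1 le_rfl z h
      rwa [Pi.single_eq_same] at this
    · exact Nat.zero_le _

open Classical in
lemma GG_one : GG l κ 1 = (z1s l κ).image (fun z => (Pi.single z 1 : P → ℕ)) := by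
  ext G
  unfold GG
  rw [mem_filter, mem_pa, mem_image]
  constructor
  · rintro ⟨⟨h1, h2⟩, -, h4⟩
    obtain ⟨z, hz, rfl⟩ := sum_one_single (D := Crs l κ) h2 (by
      rw [← h1]
      refine Finset.sum_subset (subset_univ _) fun x _ hx => h2 x hx)
    refine ⟨z, mem_z1s.2 ⟨mem_Crs.1 hz, fun y hy => ?_⟩, rfl⟩
    by_contra h5
    have h6 := h4 z y hy h5
    rw [Pi.single_eq_same, Pi.single_eq_of_ne hy.ne'] at h6
    omega
  · rintro ⟨z, hz, rfl⟩
    obtain ⟨h1, h2⟩ := mem_z1s.1 hz
    refine ⟨⟨sum_single_one z, fun x hx => ?_⟩, fun x => ?_, fun x y hxy hy => ?_⟩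
    · rw [Pi.single_eq_of_ne]
      rintro rfl
      exact hx (mem_Crs.2 h1)
    · by_cases h : x = z
      · rw [h, Pi.single_eq_same]
        omega
      · rw [Pi.single_eq_of_ne h]
        omega
    · rw [Pi.single_eq_of_ne]
      · exact Nat.zero_le _
      · rintro rfl
        exact hy (h2 y hxy)

lemma sum_GG_one {M : Type*} [AddCommMonoid M] (F : (P → ℕ) → M) :
    ∑ G ∈ GG l κ 1, F G = ∑ z ∈ z1s l κ, F (Pi.single z 1) := by
  classical
  rw [GG_one, Finset.sum_image]
  intro z _ z' _ h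
  by_contra hne
  have h1 := congrFun h z
  simp only at h1
  rw [Pi.single_eq_same, Pi.single_eq_of_ne hne] at h1
  omega

/-- the two covers of a crossing element without crossing covers -/
lemma z1s_covers (H : Gr P r) (hκ : Split l κ) (hz : z ∈ z1s l κ) : ∃ p p' a a', uc z = {p, p'} ∧ p ≠ p' ∧
    a ∈ univ.image κ ∧ a' ∈ univ.image κ ∧ a ≠ a' ∧ p ∈ cext l κ a ∧ p' ∈ cext l κ a' := by
  classical
  obtain ⟨h1, h2⟩ := mem_z1s.1 hz
  have hz0 := (two_up H hκ h1).1
  have hin : ∀ y, z ⋖ y → ∃ a ∈ univ.image κ, y ∈ cext l κ a := by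
    intro y hy
    have := h2 y hy
    unfold cuni at this
    rwa [mem_biUnion] at this
  obtain ⟨p, hp⟩ := uc_nonempty H (x := z) (by omega)
  obtain ⟨a, ha, hpa⟩ := hin p (mem_uc.1 hp)
  have hex : ∃ p', z ⋖ p' ∧ p' ∉ cext l κ a := by
    by_contra hc
    push Not at hc
    apply h1
    unfold cuni
    rw [mem_biUnion]
    refine ⟨a, ha, ?_⟩
    rw [mem_cext]
    intro y hy hly
    rcases eq_or_lt_of_le hy with h3 | h3
    · subst h3
      omega
    · obtain ⟨w, hw, hwy⟩ := exists_covBy_le_of_lt h3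
      exact mem_cext.1 (hc w hw) y hwy hly
  obtain ⟨p', hp', hpa'⟩ := hex
  obtain ⟨a', ha', hpa2⟩ := hin p' hp'
  have hne : p ≠ p' := by
    rintro rfl
    exact hpa' hpa
  refine ⟨p, p', a, a', ?_, hne, ha, ha', ?_, hpa, hpa2⟩
  · symm
    apply Finset.eq_of_subset_of_card_le
    · intro x hx
      rw [mem_insert, mem_singleton] at hx
      rcases hx with rfl | rfl
      · exact hp
      · exact mem_uc.2 hp'
    · rw [Finset.card_pair hne]
      exact uc_card_le H z
  · rintro rfl
    exact hpa' hpa2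

/-- the leading coefficient of the series of the component of `p` pinned at `p` -/
noncomputable def rho (i : ℕ) (κ : P → ι) (n : ℕ) (p : P) : ℤ :=
  hc n (bb i (i + 2) κ (κ p)) (ZPS i (cext (i + 2) κ (κ p)) (ind p))

/-- the leading coefficient of the series of a component -/
noncomputable def sg (i : ℕ) (κ : P → ι) (n : ℕ) (a : ι) : ℤ :=
  hc n (bb i (i + 2) κ a) (VV i (i + 2) κ a)

open Classical in
/-- crossing elements of the level `i + 3` -/
noncomputable def X3 (i : ℕ) (κ : P → ι) : Finset P :=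
  univ.filter (fun z => lev z = i + 3 ∧ z ∉ cuni (i + 2) κ)

lemma mem_X3 : z ∈ X3 i κ ↔ lev z = i + 3 ∧ z ∉ cuni (i + 2) κ := by
  classical
  unfold X3
  rw [mem_filter]
  simp

open Classical in
/-- the contribution of a crossing element of the level `i + 3` -/
noncomputable def WW (i : ℕ) (κ : P → ι) (m : ℕ) (z : P) : ℤ :=
  ∑ p ∈ uc z, (if ∀ q ∈ uc z, q ≠ p → q ∈ PD P i then rho i κ (2 * m - 1) p else 0) +
    (if ∀ q ∈ uc z, q ∈ PD P i then
      ∑ a ∈ univ.image κ, sg i κ (2 * m - 3) a - ∑ p ∈ uc z, sg i κ (2 * m - 3) (κ p) else 0)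

lemma th_far (H : Gr P r) (hκ : Split (i + 2) κ) (hG : Spt (Crs (i + 2) κ) G) {w : P}
    (hw : 1 ≤ th G w) : i + 2 ≤ lev w := by
  have h : ∃ z, z ⋖ w ∧ 1 ≤ G z := by
    by_contra hc
    push Not at hc
    have := (th_le (n := 0)).2 (fun z hz => Nat.lt_succ_iff.1 (hc z hz))
    omega
  obtain ⟨z, hz, hG1⟩ := h
  have hzc : z ∉ cuni (i + 2) κ := by
    intro h
    rw [hG z (fun h' => mem_Crs.1 h' h)] at hG1
    omega
  have h1 := (two_up H hκ hzc).1
  have h2 := lev_uc H (mem_uc.2 hz)
  omega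

lemma PD_lev (h : p ∈ PD P i) : lev p = i + 2 := (mem_PD.1 h).1

section single

variable (H : Gr P r) (hir : i ≤ r) (hκ : Split (i + 2) κ) (hPin : PinH i κ)
include H hκ hPin

open Classical in
/-- the product for one crossing label -/
theorem hc_single (hz : z ∈ z1s (i + 2) κ) {m : ℕ} (hm : 2 ≤ m) (hm' : m ≤ 4) :
    hc (2 * m + 1) (lv P i).card (PPS i (i + 2) κ (Pi.single z 1)) =
      if z ∈ X3 i κ then WW i κ m z else 0 := by
  obtain ⟨p, p', a, a', huc, hpp, ha, ha', haa, hpa, hpa'⟩ := z1s_covers H hκ hz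
  obtain ⟨hzc, hzcov⟩ := mem_z1s.1 hz
  have hlz := (two_up H hκ hzc).1
  have hGs : Spt (Crs (i + 2) κ) (Pi.single z 1 : P → ℕ) := by
    intro x hx
    rw [Pi.single_eq_of_ne]
    rintro rfl
    exact hx (mem_Crs.2 hzc)
  have hfar : ∀ w, 1 ≤ th (Pi.single z 1) w → i + 2 ≤ lev w := fun w hw => th_far H hκ hGs hw
  have hle1 : ∀ w, th (Pi.single z 1) w ≤ 1 := by
    intro w
    rw [th_single]
    split_ifs <;> omega
  have hle : ∀ w, th (Pi.single z 1) w ≤ 2 := fun w => (hle1 w).trans (by omega)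
  have hp : z ⋖ p := mem_uc.1 (by rw [huc]; simp)
  have hp' : z ⋖ p' := mem_uc.1 (by rw [huc]; simp)
  have lp := lev_uc H (mem_uc.2 hp)
  have lp' := lev_uc H (mem_uc.2 hp')
  have hcov : ∀ w, z ⋖ w → w = p ∨ w = p' := by
    intro w hw
    have := mem_uc.2 hw
    rwa [huc, mem_insert, mem_singleton] at this
  have t1 : ∀ w ∈ cext (i + 2) κ a, th (Pi.single z 1) w = ind p w := by
    intro w hw
    rw [th_single]
    by_cases h : w = p
    · rw [h, if_pos hp, ind_self]
    · rw [ind_ne h, if_neg]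
      intro h1
      rcases hcov w h1 with h2 | h2
      · exact h h2
      · rw [h2] at hw
        exact disjoint_left.1 (disj_cext haa) hw hpa'
  have t2 : ∀ w ∈ cext (i + 2) κ a', th (Pi.single z 1) w = ind p' w := by
    intro w hw
    rw [th_single]
    by_cases h : w = p'
    · rw [h, if_pos hp', ind_self]
    · rw [ind_ne h, if_neg]
      intro h1
      rcases hcov w h1 with h2 | h2
      · rw [h2] at hw
        exact disjoint_left.1 (disj_cext haa) hpa hw
      · exact h h2
  have t3 : ∀ x, x ≠ a → x ≠ a' → ∀ w ∈ cext (i + 2) κ x, th (Pi.single z 1) w = 0 := by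
    intro x hx hx' w hw
    rw [th_single, if_neg]
    intro h1
    rcases hcov w h1 with h2 | h2
    · rw [h2] at hw
      exact disjoint_left.1 (disj_cext hx) hw hpa
    · rw [h2] at hw
      exact disjoint_left.1 (disj_cext hx') hw hpa'
  have M1 := hPin.mo a ha _ hfar hle (fun w _ _ => hle1 w)
  have M2 := hPin.mo a' ha' _ hfar hle (fun w _ _ => hle1 w)
  rw [ZPS_congr t1, pns_congr t1, pns_ind hpa, card_singleton] at M1
  rw [ZPS_congr t2, pns_congr t2, pns_ind hpa', card_singleton] at M2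
  have h3 := prod_two (univ.image κ) (bb i (i + 2) κ)
    (fun x => ZPS i (cext (i + 2) κ x) (th (Pi.single z 1))) ha ha' haa
    (fun x hx h1 h2 => by
      have M := hPin.mo x hx _ hfar hle (fun w _ _ => hle1 w)
      rw [pns_zero (t3 x h1 h2), card_empty, if_pos (Gd_zero (t3 x h1 h2))] at M
      exact M) (cx := if Gd i (cext (i + 2) κ a) (th (Pi.single z 1)) then 1 else 0)
      (cy := if Gd i (cext (i + 2) κ a') (th (Pi.single z 1)) then 1 else 0)
      (by rw [ZPS_congr t1]; exact M1) (by rw [ZPS_congr t2]; exact M2) hm hm'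
  unfold PPS
  rw [← sum_bb hκ, h3]
  have g1 : Gd i (cext (i + 2) κ a) (th (Pi.single z 1)) ↔ p ∈ PD P i := by
    rw [Gd_congr t1, Gd_ind hpa]
  have g2 : Gd i (cext (i + 2) κ a') (th (Pi.single z 1)) ↔ p' ∈ PD P i := by
    rw [Gd_congr t2, Gd_ind hpa']
  simp only [g1, g2]
  rw [ZPS_congr t1, ZPS_congr t2]
  have h4 : ∑ x ∈ ((univ.image κ).erase a).erase a', hc (2 * m - 3) (bb i (i + 2) κ x)
      (ZPS i (cext (i + 2) κ x) (th (Pi.single z 1))) =
      ∑ x ∈ ((univ.image κ).erase a).erase a', sg i κ (2 * m - 3) x := by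
    refine Finset.sum_congr rfl fun x hx => ?_
    rw [mem_erase, mem_erase] at hx
    unfold sg VV
    rw [ZPS_disj (t3 x hx.2.1 hx.1)]
  rw [h4]
  by_cases hl : lev z = i + 3
  · rw [if_pos (mem_X3.2 ⟨hl, hzc⟩)]
    have k1 : κ p = a := mem_cext.1 hpa p le_rfl (by omega)
    have k2 : κ p' = a' := mem_cext.1 hpa' p' le_rfl (by omega)
    have q1 : (∀ q ∈ uc z, q ≠ p → q ∈ PD P i) ↔ p' ∈ PD P i := by
      rw [huc]
      constructor
      · exact fun h => h p' (by simp) (fun h => hpp h.symm)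
      · intro h q hq hqp
        rw [mem_insert, mem_singleton] at hq
        rcases hq with rfl | rfl
        · exact absurd rfl hqp
        · exact h
    have q2 : (∀ q ∈ uc z, q ≠ p' → q ∈ PD P i) ↔ p ∈ PD P i := by
      rw [huc]
      constructor
      · exact fun h => h p (by simp) hpp
      · intro h q hq hqp
        rw [mem_insert, mem_singleton] at hq
        rcases hq with rfl | rfl
        · exact h
        · exact absurd rfl hqp
    have q3 : (∀ q ∈ uc z, q ∈ PD P i) ↔ p ∈ PD P i ∧ p' ∈ PD P i := by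
      rw [huc]
      simp only [mem_insert, mem_singleton, forall_eq_or_imp, forall_eq]
    have hsum : ∀ F : P → ℤ, ∑ q ∈ uc z, F q = F p + F p' := by
      intro F
      rw [huc, Finset.sum_pair hpp]
    unfold WW
    rw [hsum, hsum]
    simp only [q1, q2, q3]
    unfold rho
    rw [k1, k2]
    have h5 := Finset.add_sum_erase (univ.image κ) (fun x => sg i κ (2 * m - 3) x) ha
    have h6 := Finset.add_sum_erase ((univ.image κ).erase a) (fun x => sg i κ (2 * m - 3) x)
      (mem_erase.2 ⟨haa.symm, ha'⟩)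
    by_cases c1 : p ∈ PD P i
    · by_cases c2 : p' ∈ PD P i
      · simp only [c1, c2, and_self, if_true]
        linarith
      · simp only [c1, c2, and_false, if_true, if_false]
        ring
    · by_cases c2 : p' ∈ PD P i
      · simp only [c1, c2, false_and, if_true, if_false]
        ring
      · simp only [c1, c2, and_self, if_false]
        ring
  · have c1 : p ∉ PD P i := fun h => hl (by have := PD_lev h; omega)
    have c2 : p' ∉ PD P i := fun h => hl (by have := PD_lev h; omega)
    rw [if_neg (fun h => hl (mem_X3.1 h).1), if_neg c1, if_neg c2]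
    ring

/-- THE SUM over the labels of total one -/
theorem sum_one {m : ℕ} (hm : 2 ≤ m) (hm' : m ≤ 4) :
    ∑ G ∈ GG (i + 2) κ 1, hc (2 * m + 1) (lv P i).card (PPS i (i + 2) κ G) =
      ∑ z ∈ X3 i κ, WW i κ m z := by
  classical
  rw [sum_GG_one, Finset.sum_congr rfl (fun z hz => hc_single H hκ hPin hz hm hm'),
    ← Finset.sum_filter]
  refine Finset.sum_congr ?_ fun _ _ => rfl
  ext z
  rw [mem_filter]
  constructor
  · exact fun h => h.2
  · intro h
    refine ⟨?_, h⟩
    obtain ⟨h1, h2⟩ := mem_X3.1 h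
    refine mem_z1s.2 ⟨h2, fun y hy => ?_⟩
    have := lev_uc H (mem_uc.2 hy)
    exact le_mem_cuni hκ (by omega)

end single

end Pool.Agent.GaussPoset.Win.Pn

end
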