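import Mathlib
import Pool.Agent.W_448zz_h61.Ns
import Pool.Agent.W_448zz_h61.M015
import Pool.Agent.W_448zz_h61.M067
import Pool.Agent.W_448zz_h61.M094
import Pool.Agent.W_448zz_h61.M095

/-! From `Pool.Agent.W_448al_h63.LG` -/

section

/-! The configurations of energy three which excite an element of `PU` (upper class). -/

namespace Pool.Agent.GaussPoset.Win

set_option linter.unusedSectionVars false

open Finset OrderDual

universe u

variable {P : Type u} [Fintype P] [PartialOrder P] [DecidableEq P] {r i : ℕ}

/-- UPPER CLASS -/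
theorem upp_class (H : Gr P r) (hi : i + 1 ≤ r) {C : Finset P} (hC : Part (i + 1) C)
    {x y u : P} (hu : lev u + 1 = i) (hx : dc x = {u}) (h2 : (dc u).card = 2)
    (hy : lev y = i + 1) (hyu : dc u = uc y) (hxC : x ∈ C)
    (huniq : ∀ x' ∈ C, dc x' = {u} → x' = x) :
    ∑ v ∈ C, tC i C (cu x + sg v) =
      xi ^ 2 * dd ^ ((st i C).card - 1) + xi * dd ^ ((st i C).card - 1) +
      2 * dd ^ ((st i C).card - 1) +
      (((st i C).card - 2 : ℕ) : A) * (xi * dd ^ ((st i C).card - 1)) +
      ((FUp C x).card : A) * (xi * dd ^ ((st i C).card - 1)) +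
      ∑ v ∈ Nr i C y u, tC i C (cu x + sg v) := by
  classical
  have hC' : Part i C := ⟨fun h1 h2 => hC.up h1 h2, fun h1 h2 h3 => hC.dn h1 (by omega) h3⟩
  have hzy : u ⋖ x := by rw [← mem_dc, hx]; exact mem_singleton_self u
  have hlz : lev x + 2 = i := by
    have := lev_dc H (mem_dc.2 hzy)
    omega
  have huC : u ∈ C := hC.dn hxC (by omega) hzy
  have hE : dc u ⊆ st i C := by
    intro v hv
    have := lev_dc H hv
    exact mem_st.2 ⟨hC.dn huC (by omega) (mem_dc.1 hv), by omega⟩
  have hb : 2 ≤ (st i C).card := by
    rw [← h2]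
    exact card_le_card hE
  set b := (st i C).card with hbdef
  have clv : ∀ w, cu x w = if w = x ∨ w = u then 1 else 0 := by
    intro w
    unfold cu
    simp only [hx, mem_singleton]
  have ev : ∀ v w, (cu x + sg v : P → ℕ) w =
      (if w = x ∨ w = u then 1 else 0) + if w = v then 1 else 0 := by
    intro v w
    rw [Pi.add_apply, clv]
    congr 1
    by_cases h : w = v
    · rw [h, ExpC_sg_self, if_pos rfl]
    · rw [ExpC_sg_ne h, if_neg h]
  have hzny : x ≠ u := by rintro rfl; omega
  have up0 : ∀ v, lev v ≤ i → ∀ w, i < lev w → (cu x + sg v : P → ℕ) w = 0 := by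
    intro v hv w hw
    rw [ev, if_neg, if_neg]
    · rintro rfl; omega
    · rintro (rfl | rfl) <;> omega
  -- the values
  have v1 : tC i C (cu x + sg x) = xi ^ 2 * dd ^ (b - 1) := by
    have hd := kill_datU H (by omega) (e := cu x + sg x) hu hx (by
      intro w hw hne
      rw [ev] at hne
      by_contra hcon
      rw [not_or] at hcon
      rw [if_neg (fun h => h.elim hcon.2 hcon.1), if_neg hcon.2] at hne
      exact hne rfl) (by
      rw [ev, ev, if_pos (Or.inr rfl), if_pos (Or.inl rfl), if_neg hzny.symm, if_pos rfl]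
      omega) (by
      intro v hv
      have := lev_dc H hv
      rw [ev, ev, if_neg, if_neg, if_pos (Or.inr rfl)]
      · omega
      · rintro rfl; omega
      · rintro (rfl | rfl) <;> omega)
    rw [hd.tC H (up0 x (by omega)), h2]
    congr 2
    omega
  have chain : ∀ v, v ≠ x → (∀ w, lev w < i → w = v → w = u ∨ (dc w = {x})) →
      UDat i (cu x + sg v) 0
        (if ∀ w ∈ dc u, (cu x + sg v : P → ℕ) w < (cu x + sg v : P → ℕ) u then 1 else 0)
        ((dc u).filter (fun w => (cu x + sg v : P → ℕ) w < (cu x + sg v : P → ℕ) u)) := by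
    intro v hv hv2
    refine chain_datU H (by omega) hu hx ?_ ?_
    · intro w hw hne
      rw [ev] at hne
      by_cases h4 : w = x ∨ w = u
      · rcases h4 with h4 | h4
        · exact Or.inr (Or.inl h4)
        · exact Or.inl h4
      · rw [if_neg h4, zero_add] at hne
        have h5 : w = v := by
          by_contra h
          rw [if_neg h] at hne
          exact hne rfl
        rcases hv2 w hw h5 with h6 | h6
        · exact Or.inl h6
        · refine Or.inr (Or.inr ⟨h6, ?_⟩)
          rw [ev, ev, if_neg h4, if_pos h5, if_pos (Or.inl rfl)]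
          omega
    · rw [ev, ev, if_pos (Or.inl rfl), if_pos (Or.inr rfl), if_neg (fun h => hv h.symm)]
      omega
  have site0 : ∀ v w, w ∈ dc u → w ≠ v → (cu x + sg v : P → ℕ) w = 0 := by
    intro v w hw hne
    have := lev_dc H hw
    rw [ev, if_neg, if_neg hne]
    rintro (rfl | rfl) <;> omega
  have full : ∀ v, v ∉ dc u → v ≠ x → (∀ w, lev w < i → w = v → w = u ∨ (dc w = {x})) →
      lev v ≤ i → tC i C (cu x + sg v) = xi * dd ^ (b - 1) := by
    intro v hv hvz hv2 hvl
    have hd := chain v hvz hv2
    have hall : ∀ w ∈ dc u, (cu x + sg v : P → ℕ) w < (cu x + sg v : P → ℕ) u := by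
      intro w hw
      rw [site0 v w hw (by rintro rfl; exact hv hw), ev, if_pos (Or.inr rfl)]
      omega
    rw [if_pos hall, Finset.filter_true_of_mem hall] at hd
    rw [hd.tC H (up0 v hvl), h2, zero_add, pow_one]
    congr 2
    omega
  have half : ∀ v ∈ dc u, tC i C (cu x + sg v) = dd ^ (b - 1) := by
    intro v hv
    have hlv := lev_dc H hv
    have hd := chain v (by rintro rfl; omega) (by rintro w hw rfl; omega)
    have a1 : (cu x + sg v : P → ℕ) v = 1 := by
      rw [ev, if_neg, if_pos rfl]
      rintro (h | h)
      · rw [h] at hlv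
        omega
      · rw [h] at hlv
        omega
    have a2 : (cu x + sg v : P → ℕ) u = 1 := by
      rw [ev, if_pos (Or.inr rfl), if_neg]
      intro h
      rw [← h] at hlv
      omega
    have h5 : ¬ ∀ w ∈ dc u, (cu x + sg v : P → ℕ) w < (cu x + sg v : P → ℕ) u := by
      intro h
      have := h v hv
      omega
    have h6 : (dc u).filter (fun w => (cu x + sg v : P → ℕ) w < (cu x + sg v : P → ℕ) u) =
        (dc u).erase v := by
      ext w
      rw [mem_filter, mem_erase]
      constructor
      · rintro ⟨h7, h8⟩
        refine ⟨?_, h7⟩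
        intro h9
        rw [h9] at h8
        omega
      · rintro ⟨h7, h8⟩
        refine ⟨h8, ?_⟩
        rw [site0 v w h8 h7, a2]
        omega
    rw [if_neg h5, h6] at hd
    rw [hd.tC H (up0 v (by omega)), card_erase_of_mem hv, h2, ← hbdef]
    simp
  -- the decomposition
  set W : Finset P := insert x (insert u (st i C ∪ (FUp C x ∪ Nr i C y u))) with hW
  have lFL : ∀ w ∈ FUp C x, lev w + 3 = i := by
    intro w hw
    have := lev_dc H (x := w) (v := x) (by rw [(mem_FUp.1 hw).2]; exact mem_singleton_self x)
    omega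
  have hWC : W ⊆ C := by
    intro v hv
    rw [hW, mem_insert, mem_insert, mem_union, mem_union] at hv
    rcases hv with rfl | rfl | h | h | h
    · exact hxC
    · exact huC
    · exact (mem_st.1 h).1
    · exact (mem_FUp.1 h).1
    · exact (mem_Nr.1 h).1
  have hout : ∀ v ∈ C, v ∉ W → tC i C (cu x + sg v) = 0 := by
    intro v hv hvW
    rw [hW, mem_insert, mem_insert, mem_union, mem_union, not_or, not_or, not_or, not_or] at hvW
    obtain ⟨n1, n2, n3, n4, n5⟩ := hvW
    by_cases hvu : v = y
    · subst hvu
      apply tC_not_disj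
      intro hd
      obtain ⟨p, hp⟩ : (dc u).Nonempty := by
        rw [← card_pos]
        omega
      have lp := lev_dc H hp
      have p0 : (cu x + sg v : P → ℕ) p = 0 := site0 v p hp (by rintro rfl; omega)
      have h4 : p ∈ AL i (cu x + sg v) := by
        rw [NormD_mem_AL]
        refine ⟨by omega, v, ?_, ?_⟩
        · rw [← mem_uc, ← hyu]
          exact hp
        · rw [p0, ev, if_pos rfl]
          omega
      have h5 : p ∈ AU i (cu x + sg v) := by
        rw [NormD_mem_AU]
        refine ⟨by omega, u, mem_dc.1 hp, ?_⟩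
        rw [p0, ev, if_pos (Or.inr rfl)]
        omega
      exact disjoint_left.1 hd h4 h5
    have hnl : lev v ≠ i := fun h => n3 (mem_st.2 ⟨hv, h⟩)
    have hnn : ¬ v ∈ near P i := fun h => n5 (mem_Nr.2 ⟨hv, h, hvu, n2⟩)
    rw [mem_near, not_or] at hnn
    rcases Nat.lt_or_gt_of_ne hnl with h | h
    · apply tC_not_admU
      intro hA
      have key : ∀ w ∈ dc v, w = x ∨ w = u := by
        intro w hw
        have lw := lev_dc H hw
        have h4 := pos_dn H (by omega) hA (x := v) (y := w) (by omega) (by
          rw [ev, if_pos rfl]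
          omega) (mem_dc.1 hw)
        by_contra hcon
        rw [ev, if_neg hcon, if_neg] at h4
        · omega
        · rintro rfl; omega
      obtain ⟨w, hw⟩ := dc_nonempty H (x := v) (by omega)
      have lw := lev_dc H hw
      rcases key w hw with h4 | h4
      · apply n4
        rw [mem_FUp]
        refine ⟨hv, ?_⟩
        rw [Finset.eq_singleton_iff_unique_mem]
        refine ⟨by rw [← h4]; exact hw, fun w' hw' => ?_⟩
        rcases key w' hw' with h5 | h5
        · exact h5
        · have := lev_dc H hw'
          rw [h5] at this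
          rw [h4] at lw
          omega
      · apply n1
        apply huniq v hv
        rw [Finset.eq_singleton_iff_unique_mem]
        refine ⟨by rw [← h4]; exact hw, fun w' hw' => ?_⟩
        rcases key w' hw' with h5 | h5
        · have := lev_dc H hw'
          rw [h5] at this
          rw [h4] at lw
          omega
        · exact h5
    · apply tC_not_admL
      intro hA
      obtain ⟨w, hw⟩ := uc_nonempty H (x := v) (by omega)
      have lw := lev_uc H hw
      have h4 := pos_up H hA (z := v) (y := w) (by omega) (by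
        rw [ev, if_pos rfl]
        omega) (mem_uc.1 hw)
      rw [ev, if_neg, if_neg] at h4
      · omega
      · rintro rfl; omega
      · rintro (rfl | rfl) <;> omega
  rw [← Finset.sum_subset hWC hout, hW, Finset.sum_insert, Finset.sum_insert, Finset.sum_union,
    Finset.sum_union]
  · have e1 : ∑ v ∈ st i C, tC i C (cu x + sg v) =
        2 * dd ^ (b - 1) + ((b - 2 : ℕ) : A) * (xi * dd ^ (b - 1)) := by
      rw [← Finset.sum_sdiff hE, Finset.sum_congr rfl (fun v hv => half v hv), Finset.sum_const,
        Finset.sum_congr rfl (fun v hv => full v (mem_sdiff.1 hv).2 ?_ ?_ ?_), Finset.sum_const,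
        card_sdiff_of_subset hE, h2, nsmul_eq_mul, nsmul_eq_mul, Nat.cast_ofNat, add_comm]
      · have := (mem_st.1 (mem_sdiff.1 hv).1).2
        rintro rfl
        omega
      · have := (mem_st.1 (mem_sdiff.1 hv).1).2
        rintro x hx rfl
        omega
      · have := (mem_st.1 (mem_sdiff.1 hv).1).2
        omega
    have e2 : ∑ v ∈ FUp C x, tC i C (cu x + sg v) =
        ((FUp C x).card : A) * (xi * dd ^ (b - 1)) := by
      rw [Finset.sum_congr rfl (fun v hv => full v ?_ ?_ ?_ ?_), Finset.sum_const, nsmul_eq_mul]
      · intro h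
        have := lev_dc H h
        have := lFL v hv
        omega
      · have := lFL v hv
        rintro rfl
        omega
      · rintro w hw rfl
        exact Or.inr (mem_FUp.1 hv).2
      · have := lFL v hv
        omega
    have e3 : tC i C (cu x + sg u) = xi * dd ^ (b - 1) := by
      refine full u ?_ hzny.symm ?_ (by omega)
      · intro h
        have := lev_dc H h
        omega
      · rintro w hw rfl
        exact Or.inl rfl
    rw [v1, e1, e2, e3]
    ring
  · rw [disjoint_left]
    intro w hw hw'
    have h4 := lFL w hw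
    have h5 := (mem_Nr.1 hw').2.1
    rw [mem_near] at h5
    omega
  · rw [disjoint_left]
    intro w hw hw'
    have h3 := (mem_st.1 hw).2
    rcases mem_union.1 hw' with h | h
    · have h4 := lFL w h
      omega
    · have h5 := (mem_Nr.1 h).2.1
      rw [mem_near] at h5
      omega
  · intro h
    rcases mem_union.1 h with h | h
    · have := (mem_st.1 h).2
      omega
    · rcases mem_union.1 h with h | h
      · have := lFL u h
        omega
      · exact (mem_Nr.1 h).2.2.2 rfl
  · intro h
    rcases mem_insert.1 h with h | h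
    · exact hzny h
    · rcases mem_union.1 h with h | h
      · have := (mem_st.1 h).2
        omega
      · rcases mem_union.1 h with h | h
        · have := lFL x h
          omega
        · have h5 := (mem_Nr.1 h).2.1
          rw [mem_near] at h5
          omega

/-- the near configurations of both classes together have no deficits -/
theorem near_class (H : Gr P r) (hi : 1 ≤ i) (hi2 : i + 1 ≤ r) (hg : Good P i)
    {C : Finset P} (hC : Part (i + 1) C) {z x y u : P} (hy : lev y = i + 1) (hz : uc z = {y})
    (h2 : (uc y).card = 2) (hu : lev u + 1 = i) (hx : dc x = {u}) (hyu : dc u = uc y)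
    (hzC : z ∈ C) (hxC : x ∈ C) (hone : ∀ w : P, lev w + 1 = i → dc w = uc y → w = u) :
    dd ^ (st i C).card ∣ ∑ v ∈ Nr i C y u, tC i C (cl z + sg v) +
      ∑ v ∈ Nr i C y u, tC i C (cu x + sg v) := by
  classical
  have hC' : Part i C := ⟨fun h1 h2 => hC.up h1 h2, fun h1 h2 h3 => hC.dn h1 (by omega) h3⟩
  obtain ⟨psi, hM⟩ := good_mat H hg
  have hzy : z ⋖ y := by rw [← mem_uc, hz]; exact mem_singleton_self y
  have hlz : lev z = i + 2 := by
    have := lev_uc H (mem_uc.2 hzy)
    omega
  have hyC : y ∈ C := hC.up hzC hzy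
  have hxu : u ⋖ x := by rw [← mem_dc, hx]; exact mem_singleton_self u
  have hlx : lev x + 2 = i := by
    have := lev_dc H (mem_dc.2 hxu)
    omega
  have huC : u ∈ C := hC.dn hxC (by omega) hxu
  have hyd : y ∈ dbL P i := mem_dbL.2 ⟨hy, h2⟩
  have hpsi : psi y = u := by
    have h3 := hM.low y hyd (Finset.notMem_empty _)
    exact hone _ (mem_dbU.1 h3.1).1 h3.2
  have hpsi2 : psi u = y := by
    rw [← hpsi]
    exact (hM.invol y (mem_union_left _ hyd) (Finset.notMem_empty _)).1
  have hR1 : RstC i C psi (cl z) = Nr i C y u := by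
    ext w
    rw [mem_RstC, mem_Rst, mem_Nr]
    have hT : w ∈ Tch i (cl z) ↔ w = y := by
      rw [mem_Tch]
      constructor
      · rintro (⟨h3, v, hv, h4⟩ | ⟨h3, v, hv, h4⟩)
        · have lv := lev_uc H (mem_uc.2 hv)
          rcases ExpC_cl_pos h4 with h5 | h5
          · rw [h5] at hv
            have h6 := mem_uc.2 hv
            rwa [hz, mem_singleton] at h6
          · rw [hz, mem_singleton] at h5
            rw [h5] at lv
            omega
        · have lv := lev_uc H (mem_uc.2 hv)
          have := cl_up_zero H hlz v (by omega)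
          omega
      · rintro rfl
        exact Or.inl ⟨hy, z, hzy, by rw [ExpC_cl_z]; exact one_pos⟩
    constructor
    · rintro ⟨⟨h3, -, h4, h5⟩, h6⟩
      refine ⟨h6, h3, fun h => h4 (hT.2 h), ?_⟩
      rintro rfl
      apply h5
      refine ⟨mem_union_right _ (mem_dbU.2 ⟨hu, by rw [hyu]; exact h2⟩), ?_⟩
      rw [hpsi2, mem_Tch]
      exact Or.inl ⟨hy, z, hzy, by rw [ExpC_cl_z]; exact one_pos⟩
    · rintro ⟨h3, h4, h5, h6⟩
      refine ⟨⟨h4, Finset.notMem_empty _, fun h => h5 (hT.1 h), ?_⟩, h3⟩
      rintro ⟨h7, h8⟩
      have h9 : psi w = y := by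
        rw [mem_Tch] at h8
        rcases h8 with ⟨h10, v, hv, h11⟩ | ⟨h10, v, hv, h11⟩
        · rcases ExpC_cl_pos h11 with h12 | h12
          · rw [h12] at hv
            have h13 := mem_uc.2 hv
            rwa [hz, mem_singleton] at h13
          · rw [hz, mem_singleton] at h12
            have lv := lev_uc H (mem_uc.2 hv)
            rw [h12] at lv
            omega
        · have lv := lev_uc H (mem_uc.2 hv)
          have := cl_up_zero H hlz v (by omega)
          omega
      apply h6
      rw [← (hM.invol w h7 (Finset.notMem_empty _)).1, h9, hpsi]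
  have hR2 : RstC i C psi (cu x) = Nr i C y u := by
    ext w
    rw [mem_RstC, mem_Rst, mem_Nr]
    have hT : ∀ w, w ∈ Tch i (cu x) ↔ w = u := by
      intro w
      rw [mem_Tch]
      constructor
      · rintro (⟨h3, v, hv, h4⟩ | ⟨h3, v, hv, h4⟩)
        · have lv := lev_uc H (mem_uc.2 hv)
          have := cu_low_zero H hlx v (by omega)
          omega
        · have lv := lev_uc H (mem_uc.2 hv)
          rcases cu_pos h4 with h5 | h5
          · rw [h5] at hv
            have h6 := mem_dc.2 hv
            rwa [hx, mem_singleton] at h6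
          · rw [hx, mem_singleton] at h5
            rw [h5] at lv
            omega
      · rintro rfl
        exact Or.inr ⟨hu, x, hxu, by rw [ExpD_cu_x]; exact one_pos⟩
    constructor
    · rintro ⟨⟨h3, -, h4, h5⟩, h6⟩
      refine ⟨h6, h3, ?_, fun h => h4 ((hT w).2 h)⟩
      rintro rfl
      apply h5
      refine ⟨mem_union_left _ hyd, ?_⟩
      rw [hpsi, hT]
    · rintro ⟨h3, h4, h5, h6⟩
      refine ⟨⟨h4, Finset.notMem_empty _, fun h => h6 ((hT w).1 h), ?_⟩, h3⟩
      rintro ⟨h7, h8⟩
      rw [hT] at h8
      apply h5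
      rw [← (hM.invol w h7 (Finset.notMem_empty _)).1, h8, hpsi2]
  -- the sums as weighted sums
  have hwt : ∀ v ∈ Nr i C y u, ∀ S, wt i (cu x) v 1 S = wt i (cl z) v 1 S := by
    intro v _ S
    have hs : ∀ w, lev w = i → cu x w = cl z w := by
      intro w hw
      have h3 : cu x w = 0 := by
        by_contra h
        rcases cu_pos (Nat.pos_of_ne_zero h) with h4 | h4
        · rw [h4] at hw
          omega
        · rw [hx, mem_singleton] at h4
          rw [h4] at hw
          omega
      have h4 : cl z w = 0 := by
        by_contra h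
        rcases ExpC_cl_pos (Nat.pos_of_ne_zero h) with h4 | h4
        · rw [h4] at hw
          omega
        · rw [hz, mem_singleton] at h4
          rw [h4] at hw
          omega
      rw [h3, h4]
    unfold wt
    split_ifs with hv1
    · unfold wtL
      have e1 : (∀ w ∈ uc v, cu x w < 1) ↔ ∀ w ∈ uc v, cl z w < 1 := by
        constructor
        · intro h w hw
          have := lev_uc H hw
          rw [← hs w (by omega)]
          exact h w hw
        · intro h w hw
          have := lev_uc H hw
          rw [hs w (by omega)]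
          exact h w hw
      have e2 : (∀ w ∈ uc v, cu x w < 1 → w ∈ S) ↔ ∀ w ∈ uc v, cl z w < 1 → w ∈ S := by
        constructor
        · intro h w hw
          have := lev_uc H hw
          rw [← hs w (by omega)]
          exact h w hw
        · intro h w hw
          have := lev_uc H hw
          rw [hs w (by omega)]
          exact h w hw
      simp only [e1, e2]
    · have hv2 : lev v + 1 = i := by
        have := (mem_Nr.1 (by assumption)).2.1
        rw [mem_near] at this
        omega
      unfold wtU
      have e1 : (∀ w ∈ dc v, cu x w < 1) ↔ ∀ w ∈ dc v, cl z w < 1 := by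
        constructor
        · intro h w hw
          have := lev_dc H hw
          rw [← hs w (by omega)]
          exact h w hw
        · intro h w hw
          have := lev_dc H hw
          rw [hs w (by omega)]
          exact h w hw
      have e2 : (∀ w ∈ dc v, cu x w < 1 → w ∉ S) ↔ ∀ w ∈ dc v, cl z w < 1 → w ∉ S := by
        constructor
        · intro h w hw
          have := lev_dc H hw
          rw [← hs w (by omega)]
          exact h w hw
        · intro h w hw
          have := lev_dc H hw
          rw [hs w (by omega)]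
          exact h w hw
      simp only [e1, e2]
  have hsp1 : ∀ v ∈ Nr i C y u, Spt C (cl z + sg v) := by
    intro v hv
    rw [spt_add_iff]
    refine ⟨spt_cl hC' hzC, fun w hw => ?_⟩
    exact ExpC_sg_ne (by rintro rfl; exact hw (mem_Nr.1 hv).1)
  have hsp2 : ∀ v ∈ Nr i C y u, Spt C (cu x + sg v) := by
    intro v hv
    rw [spt_add_iff]
    refine ⟨spt_cu hC' hxC (by omega), fun w hw => ?_⟩
    exact ExpC_sg_ne (by rintro rfl; exact hw (mem_Nr.1 hv).1)
  have f1 : ∀ v ∈ Nr i C y u, tC i C (cl z + sg v) =
      IV (st i C) (fun S => Fe i (cl z) S * wt i (cl z) v 1 S) := by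
    intro v hv
    rw [tC_IV H hC' (hsp1 v hv)]
    refine IV_congr fun S _ => ?_
    rw [← hR1] at hv
    exact fact H (by omega) (RstC_near hv) (RstC_Tch v hv) (by
      have := (core_cl (psi := psi) H hlz) v (mem_RstC.1 hv).1
      exact this) 1 S
  have f2 : ∀ v ∈ Nr i C y u, tC i C (cu x + sg v) =
      IV (st i C) (fun S => Fe i (cu x) S * wt i (cl z) v 1 S) := by
    intro v hv
    rw [tC_IV H hC' (hsp2 v hv)]
    refine IV_congr fun S _ => ?_
    rw [← hwt v hv S]
    rw [← hR2] at hv
    exact fact H (by omega) (RstC_near hv) (RstC_Tch v hv) (by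
      have := (core_cu (psi := psi) H hlx) v (mem_RstC.1 hv).1
      exact this) 1 S
  rw [Finset.sum_congr rfl f1, Finset.sum_congr rfl f2, ← IV_sum, ← IV_sum, ← IV_add]
  -- the weights
  have hw1 : Rk (st i C) 0 (fun S => ∑ v ∈ Nr i C y u, wt i (cl z) v 1 S) := by
    have h3 := rest_Rk (e := cl z) H hi hi2 hC hM (cl z) 1
    rw [hR1] at h3
    refine Rk_congr (fun S _ => ?_) h3
    have h4 : (Nr i C y u).piAntidiag 1 = (Nr i C y u).image (fun v => sg v) := by
      ext l
      rw [mem_piA, mem_image]
      constructor
      · rintro ⟨h5, h6⟩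
        obtain ⟨v, hv⟩ : ∃ v, l v ≠ 0 := by
          by_contra hcon
          push Not at hcon
          rw [Finset.sum_eq_zero (fun v _ => hcon v)] at h5
          omega
        have hvN : v ∈ Nr i C y u := by
          by_contra h
          exact hv (h6 v h)
        have h7 := Finset.add_sum_erase univ l (mem_univ v)
        rw [h5] at h7
        refine ⟨v, hvN, ?_⟩
        funext w
        by_cases hwv : w = v
        · rw [hwv, ExpC_sg_self]
          omega
        · rw [ExpC_sg_ne hwv]
          have h8 : ∑ w ∈ univ.erase v, l w = 0 := by omega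
          rw [Finset.sum_eq_zero_iff] at h8
          exact (h8 w (mem_erase.2 ⟨hwv, mem_univ _⟩)).symm
      · rintro ⟨v, hv, rfl⟩
        refine ⟨?_, fun w hw => ExpC_sg_ne (by rintro rfl; exact hw hv)⟩
        unfold sg
        rw [Finset.sum_pi_single']
        simp
    rw [h4, Finset.sum_image]
    · refine Finset.sum_congr rfl fun v hv => ?_
      rw [← Finset.mul_prod_erase _ _ hv, ExpC_sg_self]
      rw [Finset.prod_eq_one, mul_one]
      intro w hw
      rw [mem_erase] at hw
      rw [ExpC_sg_ne hw.1]
      exact wt_zero H (by omega) (mem_Nr.1 hw.2).2.1 _ _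
    · intro v _ v' _ h
      have h5 : sg v v = sg v' v := congrFun h v
      rw [ExpC_sg_self] at h5
      by_contra hne
      rw [ExpC_sg_ne hne] at h5
      omega
  have hw2 : Rk (st i C) 0 (fun S => Fe i (cl z) S + Fe i (cu x) S) := by
    obtain ⟨p, q, hpq, huc⟩ := Finset.card_eq_two.1 h2
    have hp : p ∈ uc y := by rw [huc]; simp
    have hq : q ∈ uc y := by rw [huc]; simp
    have lp := lev_uc H hp
    have lq := lev_uc H hq
    have hpC : p ∈ st i C := mem_st.2 ⟨hC.up hyC (mem_uc.1 hp), by omega⟩
    have hqC : q ∈ st i C := mem_st.2 ⟨hC.up hyC (mem_uc.1 hq), by omega⟩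
    refine Rk_congr (fun S _ => ?_) (FactF_big hpC hqC hpq)
    have s1 : sts i z = {p, q} := by rw [ClE_sts H hlz hz, huc]
    have s2 : stD i x = {p, q} := by rw [ClE_stD H hlx hx, hyu, huc]
    rw [(cl_dat H hlz).Fe H (by omega) (cl_up_zero H hlz), (cu_dat H (by omega) hlx).Fe H
      (cu_low_zero H hlx), s1, s2, hz, hx]
    simp only [Finset.card_singleton, pow_one, pow_zero, one_mul, zero_add]
    unfold chi
    congr 1
    · congr 1
      refine if_congr ?_ rfl rfl
      rw [Finset.insert_subset_iff, Finset.singleton_subset_iff]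
      simp
    · congr 1
      refine if_congr ?_ rfl rfl
      rw [Finset.disjoint_insert_left, Finset.disjoint_singleton_left]
      simp
  have h5 := Rk_IV (Rk_mul hw2 hw1)
  simp only [add_zero, Nat.sub_zero] at h5
  convert h5 using 1
  refine IV_congr fun S _ => ?_
  rw [Finset.sum_congr rfl (fun v _ => rfl), ← Finset.mul_sum, ← Finset.mul_sum]
  ring

end Pool.Agent.GaussPoset.Win

end

/-! From `Pool.Agent.W_448al_h63.LH` -/

section

/-! The value of the coefficient `(3,1)` of a part. -/

namespace Pool.Agent.GaussPoset.Win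

set_option linter.unusedSectionVars false

open Finset OrderDual

universe u

variable {P : Type u} [Fintype P] [PartialOrder P] [DecidableEq P] {r i : ℕ}

open Classical in
/-- elements of level `i + 3` hanging below an element of `PD` -/
noncomputable def FL (i : ℕ) (C : Finset P) : Finset P :=
  C.filter (fun w => ∃ z ∈ PD P i, uc w = {z})

open Classical in
/-- elements of level `i - 3` above an element of `PU` only -/
noncomputable def FU' (i : ℕ) (C : Finset P) : Finset P :=
  C.filter (fun w => ∃ z ∈ PU P i, dc w = {z})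

lemma mem_FL {C : Finset P} {w : P} : w ∈ FL i C ↔ w ∈ C ∧ ∃ z ∈ PD P i, uc w = {z} := by
  classical
  unfold FL
  rw [mem_filter]

lemma mem_FU' {C : Finset P} {w : P} : w ∈ FU' i C ↔ w ∈ C ∧ ∃ z ∈ PU P i, dc w = {z} := by
  classical
  unfold FU'
  rw [mem_filter]

/-- `PD` and `PU` of the part are matched: both empty or one element each, at the same pair of
sites -/
structure Mtc (i : ℕ) (C : Finset P) : Prop where
  out : (∀ z ∈ C, z ∉ PD P i ∧ z ∉ PU P i) ∨
    ∃ z x y u, z ∈ C ∧ x ∈ C ∧ z ∈ PD P i ∧ x ∈ PU P i ∧ uc z = {y} ∧ dc x = {u} ∧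
      dc u = uc y ∧ (uc y).card = 2 ∧ (∀ z' ∈ C, z' ∈ PD P i → z' = z) ∧
      (∀ x' ∈ C, x' ∈ PU P i → x' = x) ∧ (∀ w : P, lev w + 1 = i → dc w = uc y → w = u)

open Classical in
/-- the excess of a configuration over `cl z` -/
lemma split_cl (H : Gr P r) {C : Finset P} {z y : P} (hz : lev z = i + 2) (huc : uc z = {y}) :
    ∑ e ∈ (C.piAntidiag 3).filter (fun e => e z ≠ 0), tC i C e =
      ∑ v ∈ C.filter (fun v => Spt C (cl z + sg v)), tC i C (cl z + sg v) := by
  classical
  have hzy : z ⋖ y := by rw [← mem_uc, huc]; exact mem_singleton_self y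
  have hzny : z ≠ y := hzy.ne
  have hs3 : ∀ v, ∑ x, (cl z + sg v : P → ℕ) x = 3 := by
    intro v
    have h2 : ∑ x, sg v x = 1 := by
      unfold sg
      rw [Finset.sum_pi_single']
      simp
    have h3 : ∑ x, (cl z + sg v : P → ℕ) x = ∑ x, cl z x + ∑ x, sg v x := by
      rw [← Finset.sum_add_distrib]
      rfl
    rw [h3, h2, clb_sum_cl, huc, card_singleton]
  symm
  have hinj : ∀ v v' : P, (cl z + sg v : P → ℕ) = cl z + sg v' → v = v' := by
    intro v v' h
    have h1 : (cl z + sg v : P → ℕ) v = (cl z + sg v' : P → ℕ) v := by rw [h]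
    rw [Pi.add_apply, Pi.add_apply, ExpC_sg_self] at h1
    by_contra hne
    rw [ExpC_sg_ne hne] at h1
    omega
  rw [← Finset.sum_image (s := C.filter (fun v => Spt C (cl z + sg v))) (g := fun v => cl z + sg v)
    (f := fun e => tC i C e) (fun v _ v' _ h => hinj v v' h)]
  apply Finset.sum_subset
  · intro e he
    rw [mem_image] at he
    obtain ⟨v, hv, rfl⟩ := he
    rw [mem_filter] at hv
    rw [mem_filter, mem_piA]
    refine ⟨⟨hs3 v, hv.2⟩, ?_⟩
    rw [Pi.add_apply, ExpC_cl_z]
    omega
  · intro e he hne
    rw [mem_filter, mem_piA] at he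
    obtain ⟨⟨h1, h2⟩, h3⟩ := he
    apply tC_not_admL
    intro hA
    apply hne
    have hey := pos_up H hA (z := z) (y := y) (by omega) (by omega) hzy
    have h4 : ∀ x, cl z x ≤ e x := by
      intro x
      have := ExpC_cl_le z x
      by_cases h : cl z x = 0
      · omega
      · rcases ExpC_cl_pos (z := z) (x := x) (by omega) with h5 | h5
        · rw [h5]
          have := ExpC_cl_z z
          omega
        · rw [huc, mem_singleton] at h5
          rw [h5] at this ⊢
          omega
    have h5 : ∑ x, (e x - cl z x) = 1 := by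
      have h6 : ∑ x, e x = ∑ x, (e x - cl z x) + ∑ x, cl z x := by
        rw [← Finset.sum_add_distrib]
        refine Finset.sum_congr rfl fun x _ => ?_
        have := h4 x
        omega
      rw [h1, clb_sum_cl, huc, card_singleton] at h6
      omega
    obtain ⟨v, hv⟩ : ∃ v, e v - cl z v ≠ 0 := by
      by_contra hcon
      push Not at hcon
      rw [Finset.sum_eq_zero (fun v _ => hcon v)] at h5
      omega
    have h7 := Finset.add_sum_erase univ (fun x => e x - cl z x) (mem_univ v)
    simp only [h5] at h7
    have h8 : ∑ w ∈ univ.erase v, (e w - cl z w) = 0 := by omega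
    rw [Finset.sum_eq_zero_iff] at h8
    have h9 : e = cl z + sg v := by
      funext w
      rw [Pi.add_apply]
      by_cases hwv : w = v
      · subst hwv
        rw [ExpC_sg_self]
        have := h4 w
        omega
      · rw [ExpC_sg_ne hwv]
        have := h8 w (mem_erase.2 ⟨hwv, mem_univ _⟩)
        have := h4 w
        omega
    rw [mem_image]
    refine ⟨v, ?_, h9.symm⟩
    rw [mem_filter]
    constructor
    · by_contra h
      have := h2 v h
      omega
    · rw [← h9]
      exact h2

open Classical in
lemma split_cu (H : Gr P r) (hi : i ≤ r) {C : Finset P} {z y : P} (hz : lev z + 2 = i)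
    (huc : dc z = {y}) :
    ∑ e ∈ (C.piAntidiag 3).filter (fun e => e z ≠ 0), tC i C e =
      ∑ v ∈ C.filter (fun v => Spt C (cu z + sg v)), tC i C (cu z + sg v) := by
  classical
  have hzy : y ⋖ z := by rw [← mem_dc, huc]; exact mem_singleton_self y
  have hzny : z ≠ y := hzy.ne.symm
  have hs3 : ∀ v, ∑ x, (cu z + sg v : P → ℕ) x = 3 := by
    intro v
    have h2 : ∑ x, sg v x = 1 := by
      unfold sg
      rw [Finset.sum_pi_single']
      simp
    have h3 : ∑ x, (cu z + sg v : P → ℕ) x = ∑ x, cu z x + ∑ x, sg v x := by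
      rw [← Finset.sum_add_distrib]
      rfl
    rw [h3, h2, sum_cu H, huc, card_singleton]
  symm
  have hinj : ∀ v v' : P, (cu z + sg v : P → ℕ) = cu z + sg v' → v = v' := by
    intro v v' h
    have h1 : (cu z + sg v : P → ℕ) v = (cu z + sg v' : P → ℕ) v := by rw [h]
    rw [Pi.add_apply, Pi.add_apply, ExpC_sg_self] at h1
    by_contra hne
    rw [ExpC_sg_ne hne] at h1
    omega
  have cu1 : ∀ x, cu z x ≤ 1 := by
    intro x
    unfold cu
    split_ifs <;> omega
  rw [← Finset.sum_image (s := C.filter (fun v => Spt C (cu z + sg v))) (g := fun v => cu z + sg v)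
    (f := fun e => tC i C e) (fun v _ v' _ h => hinj v v' h)]
  apply Finset.sum_subset
  · intro e he
    rw [mem_image] at he
    obtain ⟨v, hv, rfl⟩ := he
    rw [mem_filter] at hv
    rw [mem_filter, mem_piA]
    refine ⟨⟨hs3 v, hv.2⟩, ?_⟩
    rw [Pi.add_apply, ExpD_cu_x]
    omega
  · intro e he hne
    rw [mem_filter, mem_piA] at he
    obtain ⟨⟨h1, h2⟩, h3⟩ := he
    apply tC_not_admU
    intro hA
    apply hne
    have hey := pos_dn H hi hA (x := z) (y := y) (by omega) (by omega) hzy
    have h4 : ∀ x, cu z x ≤ e x := by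
      intro x
      have := cu1 x
      by_cases h : cu z x = 0
      · omega
      · rcases cu_pos (x := z) (y := x) (by omega) with h5 | h5
        · rw [h5]
          have := ExpD_cu_x z
          omega
        · rw [huc, mem_singleton] at h5
          rw [h5] at this ⊢
          omega
    have h5 : ∑ x, (e x - cu z x) = 1 := by
      have h6 : ∑ x, e x = ∑ x, (e x - cu z x) + ∑ x, cu z x := by
        rw [← Finset.sum_add_distrib]
        refine Finset.sum_congr rfl fun x _ => ?_
        have := h4 x
        omega
      rw [h1, sum_cu H, huc, card_singleton] at h6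
      omega
    obtain ⟨v, hv⟩ : ∃ v, e v - cu z v ≠ 0 := by
      by_contra hcon
      push Not at hcon
      rw [Finset.sum_eq_zero (fun v _ => hcon v)] at h5
      omega
    have h7 := Finset.add_sum_erase univ (fun x => e x - cu z x) (mem_univ v)
    simp only [h5] at h7
    have h8 : ∑ w ∈ univ.erase v, (e w - cu z w) = 0 := by omega
    rw [Finset.sum_eq_zero_iff] at h8
    have h9 : e = cu z + sg v := by
      funext w
      rw [Pi.add_apply]
      by_cases hwv : w = v
      · subst hwv
        rw [ExpC_sg_self]
        have := h4 w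
        omega
      · rw [ExpC_sg_ne hwv]
        have := h8 w (mem_erase.2 ⟨hwv, mem_univ _⟩)
        have := h4 w
        omega
    rw [mem_image]
    refine ⟨v, ?_, h9.symm⟩
    rw [mem_filter]
    constructor
    · by_contra h
      have := h2 v h
      omega
    · rw [← h9]
      exact h2

lemma dd_dvd_1 : dd ∣ 1 + xx := by rw [one_add_xx]

lemma dd_dvd_2 : dd ∣ xx ^ 2 + xi := by
  have h : xx ^ 2 + xi = dd * (xi * (xx ^ 2 - xx + 1)) := by
    rw [← one_add_xx]
    linear_combination (-xx ^ 2) * xx_mul_xi
  rw [h]
  exact dvd_mul_right _ _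

lemma dd_dvd_3 : dd ∣ xx ^ 3 + xi ^ 2 := by
  have h : xx ^ 3 + xi ^ 2 = dd * (xi ^ 2 * (xx ^ 4 - xx ^ 3 + xx ^ 2 - xx + 1)) := by
    rw [← one_add_xx]
    linear_combination (-xx ^ 3 * (xx * xi + 1)) * xx_mul_xi
  rw [h]
  exact dvd_mul_right _ _

/-- THE VALUE OF (3,1), divisibility form -/
theorem val3 (H : Gr P r) (hi : 1 ≤ i) (hi2 : i + 1 ≤ r)
    (hg : ∀ m, i ≤ m + 1 → m ≤ i + 1 → Good P m) {C : Finset P} (hC : Part (i + 1) C)
    (hb : 1 ≤ (st i C).card) (hM : Mtc i C) :
    dd ^ (st i C).card ∣ ZC i C 3 -
      (((ZL i C).card : A) * xx ^ 3 + ((ZU i C).card : A) * xi ^ 2 +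
        ((FL i C).card : A) * xx ^ 2 + ((FU' i C).card : A) * xi) * dd ^ ((st i C).card - 1) := by
  classical
  have hC' : Part i C := ⟨fun h1 h2 => hC.up h1 h2, fun h1 h2 h3 => hC.dn h1 (by omega) h3⟩
  have hbase := base3 H hi hi2 hg hC
  rcases hM.out with hN | ⟨z, x, y, u, hzC, hxC, hzP, hxP, hz, hx, hyu, h2, hz1, hx1, hone⟩
  · have e1 : Dm i C = C := by
      ext w
      rw [mem_Dm]
      exact ⟨fun h => h.1, fun h => ⟨h, hN w h⟩⟩
    have e2 : FL i C = ∅ := by
      rw [Finset.eq_empty_iff_forall_notMem]
      intro w hw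
      obtain ⟨h3, z, hz, hz2⟩ := mem_FL.1 hw
      have h4 : z ∈ C := by
        refine hC.up h3 ?_
        rw [← mem_uc, hz2]
        exact mem_singleton_self z
      exact (hN z h4).1 hz
    have e3 : FU' i C = ∅ := by
      rw [Finset.eq_empty_iff_forall_notMem]
      intro w hw
      obtain ⟨h3, z, hz, hz2⟩ := mem_FU'.1 hw
      have hzw : z ⋖ w := by
        rw [← mem_dc, hz2]
        exact mem_singleton_self z
      have l1 := lev_uc H (mem_uc.2 hzw)
      have l2 := (lev_PU hz).1
      have h4 : z ∈ C := hC.dn h3 (by omega) hzw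
      exact (hN z h4).2 hz
    rw [e1] at hbase
    rw [e2, e3]
    unfold ZC
    convert hbase using 1
    simp only [Finset.card_empty, Nat.cast_zero, zero_mul, add_zero]
    ring
  · have lz := (lev_PD hzP).1
    have lx := (lev_PU hxP).1
    have hzy : z ⋖ y := by rw [← mem_uc, hz]; exact mem_singleton_self y
    have hux : u ⋖ x := by rw [← mem_dc, hx]; exact mem_singleton_self u
    have ly : lev y = i + 1 := by
      have := lev_uc H (mem_uc.2 hzy)
      omega
    have lu : lev u + 1 = i := by
      have := lev_uc H (mem_uc.2 hux)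
      omega
    have hyC : y ∈ C := hC.up hzC hzy
    have huC : u ∈ C := hC.dn hxC (by omega) hux
    -- decomposition of the sum
    have hdec : ZC i C 3 = ∑ e ∈ (Dm i C).piAntidiag 3, tC i C e +
        ∑ e ∈ (C.piAntidiag 3).filter (fun e => e z ≠ 0), tC i C e +
        ∑ e ∈ (C.piAntidiag 3).filter (fun e => e x ≠ 0), tC i C e := by
      unfold ZC
      rw [← Finset.sum_filter_add_sum_filter_not (C.piAntidiag 3) (fun e => e z ≠ 0)]
      rw [← Finset.sum_filter_add_sum_filter_not ((C.piAntidiag 3).filter (fun e => ¬ e z ≠ 0))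
        (fun e => e x ≠ 0), Finset.filter_filter, Finset.filter_filter]
      have e1 : ∑ e ∈ (C.piAntidiag 3).filter (fun e => ¬ e z ≠ 0 ∧ e x ≠ 0), tC i C e =
          ∑ e ∈ (C.piAntidiag 3).filter (fun e => e x ≠ 0), tC i C e := by
        refine Finset.sum_subset ?_ ?_
        · intro e he
          rw [mem_filter] at he ⊢
          exact ⟨he.1, he.2.2⟩
        · intro e he hne
          rw [mem_filter, mem_piA] at he
          have hez : e z ≠ 0 := by
            by_contra h
            apply hne
            rw [mem_filter, mem_piA]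
            exact ⟨he.1, fun h' => h' h, he.2⟩
          by_cases hA : AdmL i e
          · by_cases hB : AdmU i e
            · exfalso
              have h4 := pos_up H hA (z := z) (y := y) (by omega) (by omega) hzy
              have h5 := pos_dn H (by omega) hB (x := x) (y := u) (by omega) (by
                have := he.2
                omega) hux
              have h6 : ({z, y, x, u} : Finset P).card = 4 := by
                rw [Finset.card_insert_of_notMem, Finset.card_insert_of_notMem,
                  Finset.card_insert_of_notMem, card_singleton]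
                · rw [mem_singleton]
                  rintro rfl
                  omega
                · rw [mem_insert, mem_singleton, not_or]
                  refine ⟨?_, ?_⟩
                  · rintro rfl
                    omega
                  · rintro rfl
                    omega
                · rw [mem_insert, mem_insert, mem_singleton, not_or, not_or]
                  refine ⟨?_, ?_, ?_⟩
                  · rintro rfl
                    omega
                  · rintro rfl
                    omega
                  · rintro rfl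
                    omega
              have h7 : ∑ w ∈ ({z, y, x, u} : Finset P), e w ≤ ∑ w, e w :=
                Finset.sum_le_sum_of_subset (subset_univ _)
              have h8 : ({z, y, x, u} : Finset P).card ≤ ∑ w ∈ ({z, y, x, u} : Finset P), e w := by
                rw [Finset.card_eq_sum_ones]
                refine Finset.sum_le_sum fun w hw => ?_
                rw [mem_insert, mem_insert, mem_insert, mem_singleton] at hw
                have := he.2
                rcases hw with rfl | rfl | rfl | rfl <;> omega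
              have := he.1.1
              omega
            · exact tC_not_admU hB
          · exact tC_not_admL hA
      have e2 : (C.piAntidiag 3).filter (fun e => ¬ e z ≠ 0 ∧ ¬ e x ≠ 0) =
          (Dm i C).piAntidiag 3 := by
        ext e
        rw [mem_filter, mem_piA, mem_piA]
        constructor
        · rintro ⟨⟨h3, h4⟩, h5, h6⟩
          refine ⟨h3, fun w hw => ?_⟩
          by_contra hne
          have hwC : w ∈ C := by
            by_contra h
            exact hne (h4 w h)
          apply hw
          refine mem_Dm.2 ⟨hwC, fun h7 => ?_, fun h7 => ?_⟩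
          · rw [hz1 w hwC h7] at hne
            exact h5 hne
          · rw [hx1 w hwC h7] at hne
            exact h6 hne
        · rintro ⟨h3, h4⟩
          refine ⟨⟨h3, fun w hw => h4 w fun h => hw (mem_Dm.1 h).1⟩, ?_, ?_⟩
          · rw [not_not]
            exact h4 z fun h => (mem_Dm.1 h).2.1 hzP
          · rw [not_not]
            exact h4 x fun h => (mem_Dm.1 h).2.2 hxP
      rw [e1, e2]
      ring
    have hspt1 : ∀ v ∈ C, Spt C (cl z + sg v) := by
      intro v hv
      rw [spt_add_iff]
      exact ⟨spt_cl hC' hzC, fun w hw => ExpC_sg_ne (by rintro rfl; exact hw hv)⟩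
    have hspt2 : ∀ v ∈ C, Spt C (cu x + sg v) := by
      intro v hv
      rw [spt_add_iff]
      exact ⟨spt_cu hC' hxC (by omega), fun w hw => ExpC_sg_ne (by rintro rfl; exact hw hv)⟩
    rw [split_cl H lz hz, split_cu H (by omega) lx hx, Finset.filter_true_of_mem hspt1,
      Finset.filter_true_of_mem hspt2,
      low_class H (by omega) hC ly hz h2 lu hyu hzC (by
        intro z' hz' huc
        apply hz1 z' hz'
        unfold PD
        rw [mem_filter]
        refine ⟨mem_univ _, ?_, by rw [huc, card_singleton], y, ?_, h2⟩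
        · have := lev_uc H (x := z') (v := y) (by rw [huc]; exact mem_singleton_self y)
          omega
        · rw [← mem_uc, huc]
          exact mem_singleton_self y),
      upp_class H hi2 hC lu hx (by rw [hyu]; exact h2) ly hyu hxC (by
        intro x' hx' hdc
        apply hx1 x' hx'
        unfold PU
        rw [mem_filter]
        refine ⟨mem_univ _, ?_, by rw [hdc, card_singleton], u, ?_, by rw [hyu]; exact h2⟩
        · have := lev_dc H (x := x') (v := u) (by rw [hdc]; exact mem_singleton_self u)
          omega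
        · rw [← mem_dc, hdc]
          exact mem_singleton_self u)] at hdec
    have hnear := near_class H hi hi2 (hg i (by omega) (by omega)) hC ly hz h2 lu hx hyu hzC hxC
      hone
    have e4 : FL i C = FLo C z := by
      ext w
      rw [mem_FL, mem_FLo]
      constructor
      · rintro ⟨h3, z', h4, h5⟩
        refine ⟨h3, ?_⟩
        rw [← hz1 z' ?_ h4]
        · exact h5
        · refine hC.up h3 ?_
          rw [← mem_uc, h5]
          exact mem_singleton_self z'
      · rintro ⟨h3, h4⟩
        exact ⟨h3, z, hzP, h4⟩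
    have e5 : FU' i C = FUp C x := by
      ext w
      rw [mem_FU', mem_FUp]
      constructor
      · rintro ⟨h3, z', h4, h5⟩
        refine ⟨h3, ?_⟩
        have hzw : z' ⋖ w := by
          rw [← mem_dc, h5]
          exact mem_singleton_self z'
        have l1 := lev_uc H (mem_uc.2 hzw)
        have l2 := (lev_PU h4).1
        rw [← hx1 z' (hC.dn h3 (by omega) hzw) h4]
        exact h5
      · rintro ⟨h3, h4⟩
        exact ⟨h3, x, hxP, h4⟩
    rw [e4, e5, hdec]
    -- constants
    have hb2 : 2 ≤ (st i C).card := by
      rw [← h2]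
      apply card_le_card
      intro v hv
      have := lev_uc H hv
      exact mem_st.2 ⟨hC.up hyC (mem_uc.1 hv), by omega⟩
    have hcast : (((st i C).card - 2 : ℕ) : A) = ((st i C).card : A) - 2 := by
      rw [Nat.cast_sub hb2]
      norm_num
    have hpow : dd ^ (st i C).card = dd * dd ^ ((st i C).card - 1) := by
      rw [← pow_succ']
      congr 1
      omega
    have hk : dd ^ (st i C).card ∣ ((xx ^ 3 + xi ^ 2) + (((st i C).card : A) - 1) * (xx ^ 2 + xi) +
        2 * (1 + xx)) * dd ^ ((st i C).card - 1) := by
      rw [hpow]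
      refine mul_dvd_mul (dvd_add (dvd_add dd_dvd_3 ?_) ?_) dvd_rfl
      · exact Dvd.dvd.mul_left dd_dvd_2 _
      · exact Dvd.dvd.mul_left dd_dvd_1 _
    have htot := dvd_add (dvd_add hbase hnear) hk
    rw [hcast]
    convert htot using 1
    ring

/-- THE VALUE OF (3,1) -/
theorem al3_val (H : Gr P r) (hi : 1 ≤ i) (hi2 : i + 1 ≤ r)
    (hg : ∀ m, i ≤ m + 1 → m ≤ i + 1 → Good P m) {C : Finset P} (hC : Part (i + 1) C)
    (hb : 1 ≤ (st i C).card) (hM : Mtc i C) :
    I2.al 3 (st i C).card (ZS i C) =
      (ZU i C).card - (ZL i C).card + (FL i C).card - (FU' i C).card := by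
  have h1 := val3 H hi hi2 hg hC hb hM
  obtain ⟨q, hq⟩ := h1
  set κ : A := ((ZL i C).card : A) * xx ^ 3 + ((ZU i C).card : A) * xi ^ 2 +
        ((FL i C).card : A) * xx ^ 2 + ((FU' i C).card : A) * xi with hκ
  have h2 : dd * ZC i C 3 = dd ^ (st i C).card * (κ + dd * q) := by
    have h3 : ZC i C 3 = κ * dd ^ ((st i C).card - 1) + dd ^ (st i C).card * q := by
      rw [← hq]
      ring
    have hpow : dd ^ (st i C).card = dd * dd ^ ((st i C).card - 1) := by
      rw [← pow_succ']
      congr 1
      omega
    rw [h3]
    calc dd * (κ * dd ^ ((st i C).card - 1) + dd ^ (st i C).card * q)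
        = κ * (dd * dd ^ ((st i C).card - 1)) + dd ^ (st i C).card * (dd * q) := by ring
      _ = _ := by rw [← hpow]; ring
  unfold I2.al
  rw [coeff_ZS, h2]
  unfold dd
  have h4 := PowerSeries.coeff_X_pow_mul (κ + PowerSeries.X * q) (st i C).card 0
  rw [zero_add] at h4
  rw [h4, PowerSeries.coeff_zero_eq_constantCoeff, map_add, map_mul, PowerSeries.constantCoeff_X,
    zero_mul, add_zero, hκ]
  simp only [map_add, map_mul, map_pow, cc_xx, cc_xi, map_natCast]
  norm_num
  ring

end Pool.Agent.GaussPoset.Win

end

/-! From `Pool.Agent.W_448so_h39.FE` -/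

section

/-!
# S9 (MP_448cb3_co): the charged elements and their sites
-/

namespace Pool.Agent.GaussPoset.Win

set_option linter.unusedSectionVars false

open Finset

universe u

variable {P : Type u} [Fintype P] [PartialOrder P] [DecidableEq P] {r i j : ℕ} {t : P}
  {lo hi : ℕ → ℕ} {x : ℕ → ℕ → P} {S : Finset P}

/-- the sites comparable to an element -/
noncomputable def sit (i : ℕ) (z : P) : Finset P := sts i z ∪ stD i z

/-- the charged elements of a part -/
noncomputable def Chs (i : ℕ) (S : Finset P) : Finset P := ZL i S ∪ ZU i S ∪ FL i S ∪ FU' i S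

/-- the charge -/
noncomputable def chg (i : ℕ) (S : Finset P) (z : P) : ℤ := if z ∈ ZU i S ∪ FL i S then 1 else -1

/-- the sum over the ordered pairs of charged elements with meeting sites -/
noncomputable def QQ (i : ℕ) (S : Finset P) : ℤ :=
  ∑ z ∈ Chs i S, ∑ z' ∈ Chs i S,
    if Disjoint (sit i z) (sit i z') then 0 else chg i S z * chg i S z'

lemma lev_strict (H : Gr P r) {v w : P} (h : v < w) : lev w < lev v := by
  obtain ⟨u, h1, h2⟩ := exists_covBy_le_of_lt h
  have h3 := lev_cov H h1
  have h4 := lev_anti h2
  omega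

lemma sit_low (H : Gr P r) {z : P} (h : i ≤ lev z) : sit i z = sts i z := by
  have h1 : stD i z = ∅ := by
    rw [eq_empty_iff_forall_notMem]
    intro v hv
    rw [mem_stD] at hv
    have := lev_strict H hv.2
    omega
  unfold sit
  rw [h1, union_empty]

lemma sit_upp (H : Gr P r) {z : P} (h : lev z ≤ i) : sit i z = stD i z := by
  have h1 : sts i z = ∅ := by
    rw [eq_empty_iff_forall_notMem]
    intro v hv
    rw [mem_sts] at hv
    have := lev_strict H hv.2
    omega
  unfold sit
  rw [h1, empty_union]

lemma lev_FL (H : Gr P r) {w : P} (hw : w ∈ FL i S) : lev w = i + 3 := by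
  obtain ⟨-, z, hz, hu⟩ := mem_FL.1 hw
  have h1 : w ⋖ z := by
    rw [← mem_uc, hu]
    exact mem_singleton_self z
  have h2 := lev_cov H h1
  have h3 := lev_PD hz
  omega

lemma lev_FU (H : Gr P r) {w : P} (hw : w ∈ FU' i S) : lev w + 3 = i := by
  obtain ⟨-, z, hz, hu⟩ := mem_FU'.1 hw
  have h1 : z ⋖ w := by
    rw [← mem_dc, hu]
    exact mem_singleton_self z
  have h2 := lev_cov H h1
  have h3 := lev_PU hz
  omega

/-- the sites of a lower chain -/
lemma sit_FL (H : Gr P r) {w z : P} (hz : z ∈ PD P i) (hu : uc w = {z}) :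
    sit i w = sts i z := by
  have h1 : w ⋖ z := by
    rw [← mem_uc, hu]
    exact mem_singleton_self z
  have h2 := lev_cov H h1
  have h3 := lev_PD hz
  rw [sit_low H (by omega)]
  ext v
  rw [mem_sts, mem_sts]
  constructor
  · rintro ⟨h4, h5⟩
    refine ⟨h4, ?_⟩
    obtain ⟨u, h6, h7⟩ := exists_covBy_le_of_lt h5
    rw [← mem_uc, hu, mem_singleton] at h6
    subst h6
    refine lt_of_le_of_ne h7 ?_
    rintro rfl
    omega
  · rintro ⟨h4, h5⟩
    exact ⟨h4, h1.lt.trans h5⟩

/-- the sites of an upper chain -/
lemma sit_FU (H : Gr P r) {w z : P} (hz : z ∈ PU P i) (hu : dc w = {z}) :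
    sit i w = stD i z := by
  have h1 : z ⋖ w := by
    rw [← mem_dc, hu]
    exact mem_singleton_self z
  have h2 := lev_cov H h1
  have h3 := lev_PU hz
  rw [sit_upp H (by omega)]
  ext v
  rw [mem_stD, mem_stD]
  constructor
  · rintro ⟨h4, h5⟩
    refine ⟨h4, ?_⟩
    obtain ⟨u, h6, h7⟩ := exists_le_covBy_of_lt h5
    rw [← mem_dc, hu, mem_singleton] at h7
    subst h7
    refine lt_of_le_of_ne h6 ?_
    rintro rfl
    omega
  · rintro ⟨h4, h5⟩
    exact ⟨h4, h5.trans h1.lt⟩

/-- sums over the charged elements -/
lemma sum_chg (H : Gr P r) (p : P → Prop) [DecidablePred p] :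
    ∑ z ∈ (Chs i S).filter p, chg i S z =
      ((ZU i S).filter p).card + ((FL i S).filter p).card - ((ZL i S).filter p).card -
        ((FU' i S).filter p).card := by
  have d1 : Disjoint (ZL i S) (ZU i S) := by
    rw [disjoint_left]
    intro z h1 h2
    have := (mem_ZL.1 h1).2.1
    have := (mem_ZU.1 h2).2.1
    omega
  have d2 : Disjoint (ZL i S ∪ ZU i S) (FL i S) := by
    rw [disjoint_left]
    intro z h1 h2
    have h3 := lev_FL H h2
    rcases mem_union.1 h1 with h1 | h1
    · have := (mem_ZL.1 h1).2.1
      omega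
    · have := (mem_ZU.1 h1).2.1
      omega
  have d3 : Disjoint (ZL i S ∪ ZU i S ∪ FL i S) (FU' i S) := by
    rw [disjoint_left]
    intro z h1 h2
    have h3 := lev_FU H h2
    rcases mem_union.1 h1 with h1 | h1
    · rcases mem_union.1 h1 with h1 | h1
      · have := (mem_ZL.1 h1).2.1
        omega
      · have := (mem_ZU.1 h1).2.1
        omega
    · have := lev_FL H h1
      omega
  have c1 : ∀ z ∈ (ZL i S).filter p, chg i S z = -1 := by
    intro z hz
    unfold chg
    rw [if_neg]
    intro h1
    have h2 := (mem_ZL.1 (mem_filter.1 hz).1).2.1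
    rcases mem_union.1 h1 with h1 | h1
    · have := (mem_ZU.1 h1).2.1
      omega
    · have := lev_FL H h1
      omega
  have c2 : ∀ z ∈ (ZU i S).filter p, chg i S z = 1 := by
    intro z hz
    unfold chg
    rw [if_pos (mem_union_left _ (mem_filter.1 hz).1)]
  have c3 : ∀ z ∈ (FL i S).filter p, chg i S z = 1 := by
    intro z hz
    unfold chg
    rw [if_pos (mem_union_right _ (mem_filter.1 hz).1)]
  have c4 : ∀ z ∈ (FU' i S).filter p, chg i S z = -1 := by
    intro z hz
    unfold chg
    rw [if_neg]
    intro h1
    have h2 := lev_FU H (mem_filter.1 hz).1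
    rcases mem_union.1 h1 with h1 | h1
    · have := (mem_ZU.1 h1).2.1
      omega
    · have := lev_FL H h1
      omega
  unfold Chs
  rw [filter_union, sum_union (disjoint_filter_filter d3), filter_union,
    sum_union (disjoint_filter_filter d2), filter_union, sum_union (disjoint_filter_filter d1),
    sum_congr rfl c1, sum_congr rfl c2, sum_congr rfl c3, sum_congr rfl c4]
  simp only [sum_const, nsmul_eq_mul, mul_one, mul_neg]
  ring

/-- three consecutive sites -/
def Tr (x : ℕ → ℕ → P) (i a : ℕ) : Finset P := {x i (a - 1), x i a, x i (a + 1)}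

/-- membership in a triple -/
lemma mem_Tr (C : Comp P t j lo hi x) (hij : i ≤ j) {a c : ℕ} (ha : lo i < a) (ha' : a < hi i)
    (hc : lo i ≤ c) (hc' : c ≤ hi i) : x i c ∈ Tr x i a ↔ a ≤ c + 1 ∧ c ≤ a + 1 := by
  unfold Tr
  simp only [mem_insert, mem_singleton]
  constructor
  · rintro (h | h | h)
    · have := C.inj' hij hc hc' (by omega) (by omega) h
      omega
    · have := C.inj' hij hc hc' (by omega) (by omega) h
      omega
    · have := C.inj' hij hc hc' (by omega) (by omega) h
      omega
  · rintro ⟨h1, h2⟩
    rcases (show c = a - 1 ∨ c = a ∨ c = a + 1 by omega) with rfl | rfl | rfl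
    · exact Or.inl rfl
    · exact Or.inr (Or.inl rfl)
    · exact Or.inr (Or.inr rfl)

lemma Tr_sub {a : ℕ} {v : P} (hv : v ∈ Tr x i a) (ha : lo i < a) (ha' : a < hi i) :
    ∃ c, lo i ≤ c ∧ c ≤ hi i ∧ v = x i c := by
  unfold Tr at hv
  simp only [mem_insert, mem_singleton] at hv
  rcases hv with rfl | rfl | rfl
  · exact ⟨a - 1, by omega, by omega, rfl⟩
  · exact ⟨a, by omega, by omega, rfl⟩
  · exact ⟨a + 1, by omega, by omega, rfl⟩

lemma card_Tr (C : Comp P t j lo hi x) (hij : i ≤ j) {a : ℕ} (ha : lo i < a) (ha' : a < hi i) :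
    (Tr x i a).card = 3 := by
  unfold Tr
  rw [card_eq_three]
  refine ⟨_, _, _, ?_, ?_, ?_, rfl⟩
  · exact C.inj i hij _ _ (by omega) (by omega) (by omega)
  · exact C.inj i hij _ _ (by omega) (by omega) (by omega)
  · exact C.inj i hij _ _ (by omega) (by omega) (by omega)

lemma Tr_inj (C : Comp P t j lo hi x) (hij : i ≤ j) {a b : ℕ} (ha : lo i < a) (ha' : a < hi i)
    (hb : lo i < b) (hb' : b < hi i) (h : Tr x i a = Tr x i b) : a = b := by
  have h1 : x i (a - 1) ∈ Tr x i b := by
    rw [← h]
    exact (mem_Tr C hij ha ha' (by omega) (by omega)).2 (by omega)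
  have h2 : x i (a + 1) ∈ Tr x i b := by
    rw [← h]
    exact (mem_Tr C hij ha ha' (by omega) (by omega)).2 (by omega)
  rw [mem_Tr C hij hb hb' (by omega) (by omega)] at h1 h2
  omega

end Pool.Agent.GaussPoset.Win

end
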