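import Mathlib
import Pool.Agent.W_448zz_h61.Ns
import Pool.Agent.W_448zz_h61.M042
import Pool.Agent.W_448zz_h61.M098

/-! From `Pool.Agent.W_448al_h63.LI` -/

section

/-! The value of (3,1) in letters: the counts in coordinates. -/

namespace Pool.Agent.GaussPoset.Win

set_option linter.unusedSectionVars false

open Finset

universe u

variable {P : Type u} [Fintype P] [PartialOrder P] [DecidableEq P] {r j i : ℕ}
variable {t : P} {lo hi : ℕ → ℕ} {x : ℕ → ℕ → P}

/-- the single upper cover in coordinates -/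
lemma Comp.uc_single (C : Comp P t j lo hi x) (h : GoodTo P r j) (ht : lev t = 0) {k a b : ℕ}
    (hk : k < j) (h1 : lo (k + 1) ≤ a) (h2 : a ≤ hi (k + 1)) (h3 : lo k ≤ b) (h4 : b ≤ hi k) :
    uc (x (k + 1) a) = {x k b} ↔ (b = a ∧ a = lo k) ∨ (b + 1 = a ∧ b = hi k) := by
  have e1 := C.lo_le k hk
  have e2 := C.hi_ge k hk
  constructor
  · intro hu
    have hc : (uc (x (k + 1) a)).card = 1 := by rw [hu, card_singleton]
    have hn : ¬ (lo k < a ∧ a ≤ hi k) := by
      rw [← C.uc_two h ht hk h1 h2]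
      omega
    have hb : x (k + 1) a ⋖ x k b := by rw [← mem_uc, hu]; exact mem_singleton_self _
    have := (C.cov k hk a b h1 h2 h3 h4).1 hb
    omega
  · intro hcase
    have hb : x (k + 1) a ⋖ x k b := (C.cov k hk a b h1 h2 h3 h4).2 (by omega)
    have hn : ¬ (uc (x (k + 1) a)).card = 2 := by
      rw [C.uc_two h ht hk h1 h2]
      omega
    have hc : (uc (x (k + 1) a)).card = 1 := by
      rcases uc_card_cases h.H (x := x (k + 1) a)
        (by rw [C.lev_x (k + 1) hk a h1 h2]; omega) with h5 | h5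
      · exact h5
      · exact absurd h5 hn
    obtain ⟨v, hv⟩ := Finset.card_eq_one.1 hc
    have h5 : x k b ∈ uc (x (k + 1) a) := mem_uc.2 hb
    rw [hv, mem_singleton] at h5
    rw [hv, h5]

/-- the single lower cover in coordinates -/
lemma Comp.dc_single (C : Comp P t j lo hi x) (h : GoodTo P r j) (ht : lev t = 0) {k a b : ℕ}
    (hk : k < j) (h1 : lo (k + 1) ≤ a) (h2 : a ≤ hi (k + 1)) (h3 : lo k ≤ b) (h4 : b ≤ hi k) :
    dc (x k b) = {x (k + 1) a} ↔ (a = b ∧ b = hi (k + 1)) ∨ (a = b + 1 ∧ a = lo (k + 1)) := by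
  have e1 := C.lo_ge k hk
  have e2 := C.hi_le k hk
  constructor
  · intro hu
    have hc : (dc (x k b)).card = 1 := by rw [hu, card_singleton]
    have hn : ¬ (lo (k + 1) ≤ b ∧ b + 1 ≤ hi (k + 1)) := by
      rw [← C.dc_two h ht hk h3 h4]
      omega
    have hb : x (k + 1) a ⋖ x k b := by rw [← mem_dc, hu]; exact mem_singleton_self _
    have := (C.cov k hk a b h1 h2 h3 h4).1 hb
    omega
  · intro hcase
    have hb : x (k + 1) a ⋖ x k b := (C.cov k hk a b h1 h2 h3 h4).2 (by omega)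
    have hn : ¬ (dc (x k b)).card = 2 := by
      rw [C.dc_two h ht hk h3 h4]
      omega
    have hc : (dc (x k b)).card = 1 := by
      rcases dc_card_cases h.H hb with h5 | h5
      · exact h5
      · exact absurd h5 hn
    obtain ⟨v, hv⟩ := Finset.card_eq_one.1 hc
    have h5 : x (k + 1) a ∈ dc (x k b) := mem_dc.2 hb
    rw [hv, mem_singleton] at h5
    rw [hv, h5]

/-- two levels: order in coordinates -/
lemma Comp.lt_two (C : Comp P t j lo hi x) (h : GoodTo P r j) (ht : lev t = 0) {k a c : ℕ}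
    (hk : k + 2 ≤ j) (h1 : lo (k + 2) ≤ a) (h2 : a ≤ hi (k + 2)) (h3 : lo k ≤ c) (h4 : c ≤ hi k) :
    x (k + 2) a < x k c ↔ c ≤ a ∧ a ≤ c + 2 := by
  have e1 := C.lo_le k (by omega)
  have e2 := C.lo_ge k (by omega)
  have e3 := C.hi_le k (by omega)
  have e4 := C.hi_ge k (by omega)
  have e5 : lo (k + 1) ≤ lo (k + 2) := C.lo_le (k + 1) (by omega)
  have e6 : lo (k + 2) ≤ lo (k + 1) + 1 := C.lo_ge (k + 1) (by omega)
  have e7 : hi (k + 1) ≤ hi (k + 2) := C.hi_le (k + 1) (by omega)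
  have e8 : hi (k + 2) ≤ hi (k + 1) + 1 := C.hi_ge (k + 1) (by omega)
  have e9 := C.lohi (k + 1) (by omega)
  have hl1 := C.lev_x (k + 2) hk a h1 h2
  have hl2 := C.lev_x k (by omega) c h3 h4
  constructor
  · intro hlt
    obtain ⟨w, hw1, hw2⟩ := exists_covBy_le_of_lt hlt
    obtain ⟨b, b1, b2, b3, rfl⟩ := (C.uc_iff h ht (k := k + 1) (by omega) h1 h2).1 hw1
    have hl3 := C.lev_x (k + 1) (by omega) b b1 b2
    have hcov : x (k + 1) b ⋖ x k c := by
      rw [h.H.covBy_iff]
      refine ⟨lt_of_le_of_ne hw2 ?_, by omega⟩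
      intro he
      rw [he, hl2] at hl3
      omega
    have := (C.cov k (by omega) b c b1 b2 h3 h4).1 hcov
    omega
  · rintro ⟨h5, h6⟩
    have key : ∀ b, lo (k + 1) ≤ b → b ≤ hi (k + 1) → (b = a ∨ b + 1 = a) →
        (c = b ∨ c + 1 = b) → x (k + 2) a < x k c := by
      intro b b1 b2 b3 b4
      have g1 := (C.cov (k + 1) (by omega) a b h1 h2 b1 b2).2 b3
      have g2 := (C.cov k (by omega) b c b1 b2 h3 h4).2 b4
      exact g1.lt.trans g2.lt
    rcases Nat.lt_trichotomy (c + 1) a with h7 | h7 | h7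
    · exact key (a - 1) (by omega) (by omega) (by omega) (by omega)
    · rcases Nat.lt_or_ge (hi (k + 1)) a with h8 | h8
      · exact key (a - 1) (by omega) (by omega) (by omega) (by omega)
      · exact key a (by omega) (by omega) (by omega) (by omega)
    · exact key a (by omega) (by omega) (by omega) (by omega)

/-- elements with three sites above -/
lemma Comp.up_three (C : Comp P t j lo hi x) (h : GoodTo P r j) (ht : lev t = 0) {a : ℕ}
    (hk : i + 2 ≤ j) (h1 : lo (i + 2) ≤ a) (h2 : a ≤ hi (i + 2)) :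
    up i (x (i + 2) a) = 3 ↔ lo i + 2 ≤ a ∧ a ≤ hi i := by
  classical
  have hle := C.le_t (i + 2) hk a h1 h2
  have hs : sts i (x (i + 2) a) =
      ((Finset.Icc (lo i) (hi i)).filter (fun c => c ≤ a ∧ a ≤ c + 2)).image (x i) := by
    ext v
    rw [mem_sts, mem_image]
    constructor
    · rintro ⟨hv, hlt⟩
      have hvt : v ≤ t := by
        obtain ⟨s, hs1, hs2⟩ := exists_above' (x := v) (j := 0) (Nat.zero_le _)
        rw [h.top_eq (x := x (i + 2) a) (by rw [C.lev_x (i + 2) hk a h1 h2]; exact hk) ht hs2 hle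
          (hlt.le.trans hs1)]
        exact hs1
      obtain ⟨c, c1, c2, rfl⟩ := C.surj i (by omega) v hv hvt
      exact ⟨c, mem_filter.2 ⟨Finset.mem_Icc.2 ⟨c1, c2⟩,
        (C.lt_two h ht hk h1 h2 c1 c2).1 hlt⟩, rfl⟩
    · rintro ⟨c, hc, rfl⟩
      rw [mem_filter, Finset.mem_Icc] at hc
      exact ⟨C.lev_x i (by omega) c hc.1.1 hc.1.2, (C.lt_two h ht hk h1 h2 hc.1.1 hc.1.2).2 hc.2⟩
  rw [← card_sts, hs, Finset.card_image_of_injOn]
  · have hf : (Finset.Icc (lo i) (hi i)).filter (fun c => c ≤ a ∧ a ≤ c + 2) =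
        Finset.Icc (max (lo i) (a - 2)) (min (hi i) a) := by
      ext c
      rw [mem_filter, Finset.mem_Icc, Finset.mem_Icc]
      omega
    rw [hf, Nat.card_Icc]
    omega
  · intro c hc c' hc' he
    rw [mem_coe, mem_filter, Finset.mem_Icc] at hc hc'
    exact C.inj' (by omega) hc.1.1 hc.1.2 hc'.1.1 hc'.1.2 he

/-- elements with three sites below -/
lemma Comp.dn_three (C : Comp P t j lo hi x) (h : GoodTo P r j) (ht : lev t = 0) {k c : ℕ}
    (hk : k + 2 ≤ j) (h1 : lo k ≤ c) (h2 : c ≤ hi k) :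
    dn (k + 2) (x k c) = 3 ↔ lo (k + 2) ≤ c ∧ c + 2 ≤ hi (k + 2) := by
  classical
  have hle := C.le_t k (by omega) c h1 h2
  have hs : stD (k + 2) (x k c) =
      ((Finset.Icc (lo (k + 2)) (hi (k + 2))).filter (fun a => c ≤ a ∧ a ≤ c + 2)).image
        (x (k + 2)) := by
    ext v
    rw [mem_stD, mem_image]
    constructor
    · rintro ⟨hv, hlt⟩
      obtain ⟨a, a1, a2, rfl⟩ := C.surj (k + 2) hk v hv (hlt.le.trans hle)
      exact ⟨a, mem_filter.2 ⟨Finset.mem_Icc.2 ⟨a1, a2⟩,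
        (C.lt_two h ht hk a1 a2 h1 h2).1 hlt⟩, rfl⟩
    · rintro ⟨a, ha, rfl⟩
      rw [mem_filter, Finset.mem_Icc] at ha
      exact ⟨C.lev_x (k + 2) hk a ha.1.1 ha.1.2, (C.lt_two h ht hk ha.1.1 ha.1.2 h1 h2).2 ha.2⟩
  rw [← card_stD, hs, Finset.card_image_of_injOn]
  · have hf : (Finset.Icc (lo (k + 2)) (hi (k + 2))).filter (fun a => c ≤ a ∧ a ≤ c + 2) =
        Finset.Icc (max (lo (k + 2)) c) (min (hi (k + 2)) (c + 2)) := by
      ext a
      rw [mem_filter, Finset.mem_Icc, Finset.mem_Icc]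
      omega
    rw [hf, Nat.card_Icc]
    omega
  · intro a ha a' ha' he
    rw [mem_coe, mem_filter, Finset.mem_Icc] at ha ha'
    exact C.inj' hk ha.1.1 ha.1.2 ha'.1.1 ha'.1.2 he

section counts

variable {S : Finset P}

/-- the number of twisted lower triples -/
lemma Comp.card_ZL (C : Comp P t j lo hi x) (h : GoodTo P r j) (ht : lev t = 0)
    (hk : i + 2 ≤ j) (hS : ∀ y, lev y ≤ i + 2 → (y ∈ S ↔ y ≤ t)) :
    (ZL i S).card = hi i - (lo i + 1) := by
  classical
  have e1 := C.lo_ge i (by omega)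
  have e3 := C.hi_le i (by omega)
  have e6 : lo (i + 2) ≤ lo (i + 1) + 1 := C.lo_ge (i + 1) (by omega)
  have e7 : hi (i + 1) ≤ hi (i + 2) := C.hi_le (i + 1) (by omega)
  have hs : ZL i S = (Finset.Icc (lo i + 2) (hi i)).image (x (i + 2)) := by
    ext z
    rw [mem_ZL, mem_image]
    constructor
    · rintro ⟨hz, hl, h3⟩
      have hzt := (hS z (by omega)).1 hz
      obtain ⟨a, a1, a2, rfl⟩ := C.surj (i + 2) hk z hl hzt
      exact ⟨a, Finset.mem_Icc.2 ((C.up_three h ht hk a1 a2).1 h3), rfl⟩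
    · rintro ⟨a, ha, rfl⟩
      rw [Finset.mem_Icc] at ha
      have a1 : lo (i + 2) ≤ a := by omega
      have a2 : a ≤ hi (i + 2) := by omega
      have hl := C.lev_x (i + 2) hk a a1 a2
      exact ⟨(hS _ (by omega)).2 (C.le_t (i + 2) hk a a1 a2), hl,
        (C.up_three h ht hk a1 a2).2 ha⟩
  rw [hs, Finset.card_image_of_injOn, Nat.card_Icc]
  · omega
  · intro a ha a' ha' he
    rw [mem_coe, Finset.mem_Icc] at ha ha'
    exact C.inj' hk (by omega) (by omega) (by omega) (by omega) he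

/-- the number of twisted upper triples -/
lemma Comp.card_ZU (C : Comp P t j lo hi x) (h : GoodTo P r j) (ht : lev t = 0)
    (hi1 : 1 ≤ i) (hk : i ≤ j) (hS : ∀ y, lev y ≤ i → (y ∈ S ↔ y ≤ t)) :
    (ZU i S).card = hi i - (lo i + 1) := by
  classical
  rcases Nat.lt_or_ge i 2 with hi2 | hi2
  · obtain rfl : i = 1 := by omega
    have h1 := C.hi_bd 1 hk
    have h2 : ZU 1 S = ∅ := by
      rw [Finset.eq_empty_iff_forall_notMem]
      intro z hz
      have := (mem_ZU.1 hz).2.1
      omega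
    rw [h2, card_empty]
    omega
  · obtain ⟨k, rfl⟩ : ∃ k, i = k + 2 := ⟨i - 2, by omega⟩
    have e1 := C.lo_le k (by omega)
    have e3 := C.hi_ge k (by omega)
    have e6 : lo (k + 1) ≤ lo (k + 2) := C.lo_le (k + 1) (by omega)
    have e7 : hi (k + 2) ≤ hi (k + 1) + 1 := C.hi_ge (k + 1) (by omega)
    have hs : ZU (k + 2) S = ((Finset.Icc (lo (k + 2) + 2) (hi (k + 2))).image
        (fun a => x k (a - 2))) := by
      ext z
      rw [mem_ZU, mem_image]
      constructor
      · rintro ⟨hz, hl, h3⟩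
        have hl' : lev z = k := by omega
        have hzt := (hS z (by omega)).1 hz
        obtain ⟨a, a1, a2, rfl⟩ := C.surj k (by omega) z hl' hzt
        have h4 := (C.dn_three h ht hk a1 a2).1 h3
        refine ⟨a + 2, Finset.mem_Icc.2 (by omega), ?_⟩
        rw [Nat.add_sub_cancel]
      · rintro ⟨a, ha, rfl⟩
        rw [Finset.mem_Icc] at ha
        have a1 : lo k ≤ a - 2 := by omega
        have a2 : a - 2 ≤ hi k := by omega
        have hl := C.lev_x k (by omega) _ a1 a2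
        exact ⟨(hS _ (by omega)).2 (C.le_t k (by omega) _ a1 a2), by omega,
          (C.dn_three h ht hk a1 a2).2 (by omega)⟩
    rw [hs, Finset.card_image_of_injOn, Nat.card_Icc]
    · omega
    · intro a ha a' ha' he
      rw [mem_coe, Finset.mem_Icc] at ha ha'
      have h5 := C.inj' (k := k) (by omega) (by omega) (by omega) (by omega) (by omega)
        (show x k (a - 2) = x k (a' - 2) from he)
      omega

end counts

end Pool.Agent.GaussPoset.Win

end

/-! From `Pool.Agent.W_448so_h39.FF` -/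

section

/-!
# S9 (MP_448cb3_co): the charged triples in coordinates
-/

namespace Pool.Agent.GaussPoset.Win

set_option linter.unusedSectionVars false

open Finset

universe u

variable {P : Type u} [Fintype P] [PartialOrder P] [DecidableEq P] {r i j : ℕ} {t : P}
  {lo hi : ℕ → ℕ} {x : ℕ → ℕ → P} {S : Finset P}

/-- the sites below an element two levels above the window -/
lemma stD_two (C : Comp P t j lo hi x) (h : GoodTo P r j) (ht : lev t = 0) {k c : ℕ}
    (hk : k + 2 ≤ j) (h1 : lo k ≤ c) (h2 : c ≤ hi k) (h3 : lo (k + 2) ≤ c)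
    (h4 : c + 2 ≤ hi (k + 2)) : stD (k + 2) (x k c) = Tr x (k + 2) (c + 1) := by
  ext v
  rw [mem_stD]
  unfold Tr
  simp only [mem_insert, mem_singleton, Nat.add_sub_cancel]
  constructor
  · rintro ⟨hv, hlt⟩
    obtain ⟨a, a1, a2, rfl⟩ := C.surj (k + 2) hk v hv (hlt.le.trans (C.le_t k (by omega) c h1 h2))
    have := (C.lt_two h ht hk a1 a2 h1 h2).1 hlt
    rcases (show a = c ∨ a = c + 1 ∨ a = c + 1 + 1 by omega) with rfl | rfl | rfl
    · exact Or.inl rfl
    · exact Or.inr (Or.inl rfl)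
    · exact Or.inr (Or.inr rfl)
  · have key : ∀ a, c ≤ a → a ≤ c + 2 → lev (x (k + 2) a) = k + 2 ∧ x (k + 2) a < x k c :=
      fun a ha ha' => ⟨C.lev_x (k + 2) hk a (by omega) (by omega),
        (C.lt_two h ht hk (by omega) (by omega) h1 h2).2 ⟨ha, ha'⟩⟩
    rintro (rfl | rfl | rfl)
    · exact key c (by omega) (by omega)
    · exact key (c + 1) (by omega) (by omega)
    · exact key (c + 1 + 1) (by omega) (by omega)

/-- upper triples -/
lemma ZU_spec (C : Comp P t (i + 1) lo hi x) (h : GoodTo P r (i + 1)) (ht : lev t = 0)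
    (hS : ∀ y, lev y ≤ i + 2 → (y ∈ S ↔ y ≤ t)) {z : P} (hz : z ∈ ZU i S) :
    ∃ a, lo i < a ∧ a < hi i ∧ sit i z = Tr x i a ∧ z = x (i - 2) (a - 1) := by
  obtain ⟨h1, h2, h3⟩ := mem_ZU.1 hz
  obtain ⟨k, rfl⟩ : ∃ k, i = k + 2 := ⟨i - 2, by omega⟩
  have hzt := (hS z (by omega)).1 h1
  obtain ⟨c, c1, c2, rfl⟩ := C.surj k (by omega) z (by omega) hzt
  have h4 := (C.dn_three h ht (by omega) c1 c2).1 h3
  refine ⟨c + 1, by omega, by omega, ?_, by simp⟩
  rw [sit_upp h.H (by omega)]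
  exact stD_two C h ht (by omega) c1 c2 h4.1 h4.2

lemma ZU_mem (C : Comp P t (i + 1) lo hi x) (h : GoodTo P r (i + 1)) (ht : lev t = 0)
    (hS : ∀ y, lev y ≤ i + 2 → (y ∈ S ↔ y ≤ t)) {a : ℕ} (ha : lo i < a) (ha' : a < hi i) :
    x (i - 2) (a - 1) ∈ ZU i S ∧ sit i (x (i - 2) (a - 1)) = Tr x i a := by
  have hb := C.hi_bd i (by omega)
  obtain ⟨k, rfl⟩ : ∃ k, i = k + 2 := ⟨i - 2, by omega⟩
  rw [Nat.add_sub_cancel]
  have e1 := C.lo_le k (by omega)
  have e4 := C.hi_ge k (by omega)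
  have e5 : lo (k + 1) ≤ lo (k + 2) := C.lo_le (k + 1) (by omega)
  have e8 : hi (k + 2) ≤ hi (k + 1) + 1 := C.hi_ge (k + 1) (by omega)
  have c1 : lo k ≤ a - 1 := by omega
  have c2 : a - 1 ≤ hi k := by omega
  have hl := C.lev_x k (by omega) (a - 1) c1 c2
  refine ⟨mem_ZU.2 ⟨(hS _ (by omega)).2 (C.le_t k (by omega) _ c1 c2), by omega,
    (C.dn_three h ht (by omega) c1 c2).2 (by omega)⟩, ?_⟩
  rw [sit_upp h.H (by omega), stD_two C h ht (by omega) c1 c2 (by omega) (by omega),
    Nat.sub_add_cancel (by omega)]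

/-- exactly one upper triple at every three consecutive sites -/
lemma card_ZU_Tr (C : Comp P t (i + 1) lo hi x) (h : GoodTo P r (i + 1)) (ht : lev t = 0)
    (hS : ∀ y, lev y ≤ i + 2 → (y ∈ S ↔ y ≤ t)) {a : ℕ} (ha : lo i < a) (ha' : a < hi i) :
    ((ZU i S).filter (fun z => sit i z = Tr x i a)).card = 1 := by
  rw [card_eq_one]
  refine ⟨x (i - 2) (a - 1), ?_⟩
  ext z
  rw [mem_filter, mem_singleton]
  constructor
  · rintro ⟨h1, h2⟩
    obtain ⟨b, b1, b2, b3, b4⟩ := ZU_spec C h ht hS h1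
    rw [b3] at h2
    have := Tr_inj C (by omega) b1 b2 ha ha' h2
    rw [b4, this]
  · rintro rfl
    exact ZU_mem C h ht hS ha ha'

/-- the sites above a common lower cover of two neighbouring double-ups -/
lemma low_Tr (C : Comp P t (i + 1) lo hi x) (h : GoodTo P r (i + 1)) (ht : lev t = 0)
    (hS : ∀ y, lev y ≤ i + 2 → (y ∈ S ↔ y ≤ t)) {a : ℕ} (ha : lo i < a) (ha' : a < hi i) {z : P}
    (hz : z ⋖ x (i + 1) a) (hz' : z ⋖ x (i + 1) (a + 1)) :
    z ∈ ZL i S ∧ sit i z = Tr x i a := by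
  have f1 := C.lo_ge i (by omega)
  have f2 := C.hi_le i (by omega)
  have hl := C.lev_x (i + 1) le_rfl a (by omega) (by omega)
  have hl2 := lev_cov h.H hz
  have hne := C.inj (i + 1) le_rfl a (a + 1) (by omega) (by omega) (by omega)
  have hu1 := C.uc_eq h ht (k := i) (by omega) ha (by omega)
  have hu2 := C.uc_eq h ht (k := i) (by omega) (a := a + 1) (by omega) (by omega)
  rw [Nat.add_sub_cancel] at hu2
  have huc := StB_uc_pair h.H hz hz' hne
  have hsts : sts i z = Tr x i a := by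
    ext v
    rw [mem_sts_iff h.H (by omega), huc]
    unfold Tr
    simp only [mem_insert, mem_singleton]
    constructor
    · rintro ⟨w, rfl | rfl, hv⟩
      · rw [hu1, mem_insert, mem_singleton] at hv
        rcases hv with rfl | rfl
        · exact Or.inl rfl
        · exact Or.inr (Or.inl rfl)
      · rw [hu2, mem_insert, mem_singleton] at hv
        rcases hv with rfl | rfl
        · exact Or.inr (Or.inl rfl)
        · exact Or.inr (Or.inr rfl)
    · rintro (rfl | rfl | rfl)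
      · exact ⟨_, Or.inl rfl, by rw [hu1]; exact mem_insert_self _ _⟩
      · exact ⟨_, Or.inl rfl, by rw [hu1]; exact mem_insert_of_mem (mem_singleton_self _)⟩
      · exact ⟨_, Or.inr rfl, by rw [hu2]; exact mem_insert_of_mem (mem_singleton_self _)⟩
  refine ⟨mem_ZL.2 ⟨(hS z (by omega)).2 (hz.le.trans (C.le_t (i + 1) le_rfl a (by omega)
    (by omega))), by omega, ?_⟩, ?_⟩
  · rw [← card_sts, hsts]
    exact card_Tr C (by omega) ha ha'
  · rw [sit_low h.H (by omega)]
    exact hsts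

/-- lower triples -/
lemma ZL_spec (C : Comp P t (i + 1) lo hi x) (h : GoodTo P r (i + 1)) (hi1 : 1 ≤ i)
    (ht : lev t = 0) (hS : ∀ y, lev y ≤ i + 2 → (y ∈ S ↔ y ≤ t))
    (hno : ∀ z : P, lev z = i + 2 → ¬ Hul.Jn z) {z : P} (hz : z ∈ ZL i S) :
    ∃ a, lo i < a ∧ a < hi i ∧ sit i z = Tr x i a ∧ z ⋖ x (i + 1) a ∧ z ⋖ x (i + 1) (a + 1) := by
  obtain ⟨h1, h2, h3⟩ := mem_ZL.1 hz
  have hzt := (hS z (by omega)).1 h1
  have hcov : ∀ v, z ⋖ v → v ≤ t := by
    intro v hv
    obtain ⟨s, hs, hs2⟩ := exists_above' (x := v) (j := 0) (Nat.zero_le _)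
    rw [Hul.top_unique (hno z h2) ht hs2 hzt (hv.le.trans hs)]
    exact hs
  have hbU : ∀ v, z ⋖ v → (uc v).card ≤ 2 := fun v _ => uc_card_le h.H v
  have hsts : sts i z = (uc z).biUnion uc := by
    ext v
    rw [mem_sts_iff h.H h2, mem_biUnion]
  rw [← card_sts, hsts] at h3
  rcases uc_card_cases h.H (x := z) (by omega) with h4 | h4
  · exfalso
    obtain ⟨v, hv⟩ := card_eq_one.1 h4
    rw [hv, singleton_biUnion] at h3
    have := uc_card_le h.H v
    omega
  · obtain ⟨v, v', hne, hv⟩ := card_eq_two.1 h4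
    have c1 : z ⋖ v := by rw [← mem_uc, hv]; exact mem_insert_self _ _
    have c2 : z ⋖ v' := by rw [← mem_uc, hv]; exact mem_insert_of_mem (mem_singleton_self _)
    have l1 := lev_cov h.H c1
    have l2 := lev_cov h.H c2
    rw [hv, biUnion_insert, singleton_biUnion] at h3
    have hbU1 := hbU v c1
    have hbU2 := hbU v' c2
    have hun := card_union_add_card_inter (uc v) (uc v')
    rcases (near_level' h hi1).1 z v v' h2 c1 c2 hne with g | ⟨g1, g2, -⟩
    swap
    · omega
    have hint : (uc v ∩ uc v').card = 1 := by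
      classical
      unfold ucv at g
      rw [← g]
      congr 1
      ext y
      simp only [mem_inter, mem_uc, mem_filter, mem_univ, true_and]
    obtain ⟨a, a1, a2, rfl⟩ := C.surj (i + 1) le_rfl v (by omega) (hcov v c1)
    obtain ⟨b, b1, b2, rfl⟩ := C.surj (i + 1) le_rfl v' (by omega) (hcov v' c2)
    have hab : a ≠ b := fun he => hne (by rw [he])
    have hu := C.ucv_eq h ht le_rfl a1 a2 b1 b2 hab
    rw [g] at hu
    have hab' : b = a + 1 ∨ a = b + 1 := by
      by_contra hcon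
      rw [if_neg hcon] at hu
      exact absurd hu (by norm_num)
    have d1 := (C.uc_two h ht (k := i) (by omega) a1 a2).1 (by omega)
    have d2 := (C.uc_two h ht (k := i) (by omega) b1 b2).1 (by omega)
    rcases hab' with rfl | rfl
    · exact ⟨a, d1.1, by omega, (low_Tr C h ht hS d1.1 (by omega) c1 c2).2, c1, c2⟩
    · exact ⟨b, d2.1, by omega, (low_Tr C h ht hS d2.1 (by omega) c2 c1).2, c2, c1⟩

/-- the number of the lower triples at three consecutive sites -/
lemma card_ZL_Tr (C : Comp P t (i + 1) lo hi x) (h : GoodTo P r (i + 1)) (hi1 : 1 ≤ i)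
    (ht : lev t = 0) (hS : ∀ y, lev y ≤ i + 2 → (y ∈ S ↔ y ≤ t))
    (hno : ∀ z : P, lev z = i + 2 → ¬ Hul.Jn z) {a : ℕ} (ha : lo i < a) (ha' : a < hi i) :
    ((ZL i S).filter (fun z => sit i z = Tr x i a)).card =
      dcv (x (i + 1) a) (x (i + 1) (a + 1)) := by
  classical
  unfold dcv
  congr 1
  ext z
  simp only [mem_filter, mem_univ, true_and]
  constructor
  · rintro ⟨h1, h2⟩
    obtain ⟨b, b1, b2, b3, b4, b5⟩ := ZL_spec C h hi1 ht hS hno h1
    rw [b3] at h2
    have hba := Tr_inj C (by omega) b1 b2 ha ha' h2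
    subst hba
    exact ⟨b4, b5⟩
  · rintro ⟨h1, h2⟩
    exact low_Tr C h ht hS ha ha' h1 h2

end Pool.Agent.GaussPoset.Win

end

/-! From `Pool.Agent.W_448al_h63.LJ` -/

section

/-! The value of (3,1) in letters: the end patterns and the final formula. -/

namespace Pool.Agent.GaussPoset.Win

set_option linter.unusedSectionVars false

open Finset

universe u

variable {P : Type u} [Fintype P] [PartialOrder P] [DecidableEq P] {r j i : ℕ}
variable {t : P} {lo hi : ℕ → ℕ} {x : ℕ → ℕ → P}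

/-- left pendant pattern below the window: letters C, O -/
def pdL (lo hi : ℕ → ℕ) (i : ℕ) : Prop :=
  lo (i + 1) = lo i + 1 ∧ lo (i + 2) = lo (i + 1) ∧ lo i < hi i

/-- right pendant pattern below the window: letters C, O -/
def pdR (lo hi : ℕ → ℕ) (i : ℕ) : Prop :=
  hi (i + 1) = hi i ∧ hi (i + 2) = hi (i + 1) + 1 ∧ lo i < hi i

/-- left pendant pattern above the window: letters C, O -/
def puL (lo hi : ℕ → ℕ) (i : ℕ) : Prop :=
  2 ≤ i ∧ lo (i - 1) = lo (i - 2) + 1 ∧ lo i = lo (i - 1) ∧ lo i < hi i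

/-- right pendant pattern above the window: letters C, O -/
def puR (lo hi : ℕ → ℕ) (i : ℕ) : Prop :=
  2 ≤ i ∧ hi (i - 1) = hi (i - 2) ∧ hi i = hi (i - 1) + 1 ∧ lo i < hi i

instance (lo hi : ℕ → ℕ) (i : ℕ) : Decidable (pdL lo hi i) := by unfold pdL; infer_instance
instance (lo hi : ℕ → ℕ) (i : ℕ) : Decidable (pdR lo hi i) := by unfold pdR; infer_instance
instance (lo hi : ℕ → ℕ) (i : ℕ) : Decidable (puL lo hi i) := by unfold puL; infer_instance
instance (lo hi : ℕ → ℕ) (i : ℕ) : Decidable (puR lo hi i) := by unfold puR; infer_instance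

/-- number of patterns COO below the window -/
def flw (lo hi : ℕ → ℕ) (i : ℕ) : ℕ :=
  (if lo (i + 3) = lo (i + 2) ∧ (pdL lo hi i ∨ (pdR lo hi i ∧ lo (i + 2) = hi (i + 2)))
    then 1 else 0) +
  (if hi (i + 3) = hi (i + 2) + 1 ∧ (pdR lo hi i ∨ (pdL lo hi i ∧ lo (i + 2) = hi (i + 2)))
    then 1 else 0)

/-- number of patterns OCC above the window -/
def fuw (lo hi : ℕ → ℕ) (i : ℕ) : ℕ :=
  (if 3 ≤ i ∧ lo (i - 2) = lo (i - 3) + 1 ∧ (puL lo hi i ∨ (puR lo hi i ∧ lo (i - 2) = hi (i - 2)))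
    then 1 else 0) +
  (if 3 ≤ i ∧ hi (i - 2) = hi (i - 3) ∧ (puR lo hi i ∨ (puL lo hi i ∧ lo (i - 2) = hi (i - 2)))
    then 1 else 0)

/-- `PD` in coordinates -/
lemma Comp.mem_PD_iff (C : Comp P t j lo hi x) (h : GoodTo P r j) (ht : lev t = 0)
    (hk : i + 2 ≤ j) {c : ℕ} (c1 : lo (i + 2) ≤ c) (c2 : c ≤ hi (i + 2)) :
    x (i + 2) c ∈ PD P i ↔ (c = lo (i + 2) ∧ pdL lo hi i) ∨ (c = hi (i + 2) ∧ pdR lo hi i) := by
  have e0 := C.lohi (i + 2) hk
  constructor
  · intro hz
    obtain ⟨h1, h2⟩ := C.PD_cases h ht hk hz (C.le_t (i + 2) hk c c1 c2)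
    rcases h2 with ⟨h3, h4, h5, -⟩ | ⟨h3, h4, h5, -⟩
    · left
      exact ⟨C.inj' hk c1 c2 le_rfl e0 h5, h3, h4, h1⟩
    · right
      exact ⟨C.inj' hk c1 c2 e0 le_rfl h5, h3, h4, h1⟩
  · rintro (⟨rfl, h3, h4, h1⟩ | ⟨rfl, h3, h4, h1⟩)
    · exact C.PD_left h ht hk h3 h4 h1
    · exact C.PD_right h ht hk h3 h4 h1

/-- `PU` in coordinates -/
lemma Comp.mem_PU_iff (C : Comp P t j lo hi x) (h : GoodTo P r j) (ht : lev t = 0) {k : ℕ}
    (hk : k + 2 ≤ j) {c : ℕ} (c1 : lo k ≤ c) (c2 : c ≤ hi k) :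
    x k c ∈ PU P (k + 2) ↔
      (c = lo k ∧ puL lo hi (k + 2)) ∨ (c = hi k ∧ puR lo hi (k + 2)) := by
  have e0 := C.lohi k (by omega)
  have i1 : k + 2 - 1 = k + 1 := by omega
  have i2 : k + 2 - 2 = k := by omega
  unfold puL puR
  rw [i1, i2]
  constructor
  · intro hz
    obtain ⟨h1, h2⟩ := C.PU_cases h ht hk hz (C.le_t k (by omega) c c1 c2)
    rcases h2 with ⟨h3, h4, h5, -⟩ | ⟨h3, h4, h5, -⟩
    · left
      exact ⟨C.inj' (by omega) c1 c2 le_rfl e0 h5, by omega, h3, h4, by omega⟩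
    · right
      exact ⟨C.inj' (by omega) c1 c2 e0 le_rfl h5, by omega, h3, h4, by omega⟩
  · rintro (⟨rfl, -, h3, h4, h1⟩ | ⟨rfl, -, h3, h4, h1⟩)
    · exact C.PU_left h ht hk h3 h4 (by omega)
    · exact C.PU_right h ht hk h3 h4 (by omega)

section counts

variable {S : Finset P}

/-- the number of elements of level `i + 3` below `PD` only -/
lemma Comp.card_FL (C : Comp P t j lo hi x) (h : GoodTo P r j) (ht : lev t = 0)
    (hk : i + 3 ≤ j) (hS : ∀ y, lev y ≤ i + 3 → (y ∈ S ↔ y ≤ t)) :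
    (FL i S).card = flw lo hi i := by
  classical
  have e5 : lo (i + 2) ≤ lo (i + 3) := C.lo_le (i + 2) (by omega)
  have e6 : lo (i + 3) ≤ lo (i + 2) + 1 := C.lo_ge (i + 2) (by omega)
  have e7 : hi (i + 2) ≤ hi (i + 3) := C.hi_le (i + 2) (by omega)
  have e8 : hi (i + 3) ≤ hi (i + 2) + 1 := C.hi_ge (i + 2) (by omega)
  have e9 := C.lohi (i + 2) (by omega)
  have e10 := C.lohi (i + 3) (by omega)
  -- the two candidates
  have hmem : ∀ a, lo (i + 3) ≤ a → a ≤ hi (i + 3) → (x (i + 3) a ∈ FL i S ↔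
      (a = lo (i + 2) ∧ (pdL lo hi i ∨ (pdR lo hi i ∧ lo (i + 2) = hi (i + 2)))) ∨
      (a = hi (i + 2) + 1 ∧ (pdR lo hi i ∨ (pdL lo hi i ∧ lo (i + 2) = hi (i + 2))))) := by
    intro a a1 a2
    have hla := C.lev_x (i + 3) hk a a1 a2
    have hlt := C.le_t (i + 3) hk a a1 a2
    rw [mem_FL]
    constructor
    · rintro ⟨-, z, hz, hu⟩
      have hz2 := lev_PD hz
      have hcov : x (i + 3) a ⋖ z := by rw [← mem_uc, hu]; exact mem_singleton_self z
      have hzt : z ≤ t := h.cov_le (by rw [hla]; exact hk) ht hlt hcov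
      obtain ⟨c, c1, c2, rfl⟩ := C.surj (i + 2) (by omega) z hz2.1 hzt
      have h5 := (C.uc_single h ht (k := i + 2) (by omega) a1 a2 c1 c2).1 hu
      have h6 := (C.mem_PD_iff h ht (by omega) c1 c2).1 hz
      rcases h5 with ⟨h5, h5'⟩ | ⟨h5, h5'⟩
      · left
        refine ⟨h5', ?_⟩
        rcases h6 with ⟨h6, h7⟩ | ⟨h6, h7⟩
        · exact Or.inl h7
        · exact Or.inr ⟨h7, by omega⟩
      · right
        refine ⟨by omega, ?_⟩
        rcases h6 with ⟨h6, h7⟩ | ⟨h6, h7⟩
        · exact Or.inr ⟨h7, by omega⟩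
        · exact Or.inl h7
    · intro hcase
      refine ⟨(hS _ (by omega)).2 hlt, ?_⟩
      rcases hcase with ⟨h5, h6⟩ | ⟨h5, h6⟩
      · refine ⟨x (i + 2) (lo (i + 2)), ?_, ?_⟩
        · rw [C.mem_PD_iff h ht (by omega) le_rfl e9]
          rcases h6 with h6 | ⟨h6, h7⟩
          · exact Or.inl ⟨rfl, h6⟩
          · exact Or.inr ⟨h7, h6⟩
        · rw [C.uc_single h ht (k := i + 2) (by omega) a1 a2 le_rfl e9]
          exact Or.inl ⟨h5.symm, h5⟩
      · refine ⟨x (i + 2) (hi (i + 2)), ?_, ?_⟩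
        · rw [C.mem_PD_iff h ht (by omega) e9 le_rfl]
          rcases h6 with h6 | ⟨h6, h7⟩
          · exact Or.inr ⟨rfl, h6⟩
          · exact Or.inl ⟨h7.symm, h6⟩
        · rw [C.uc_single h ht (k := i + 2) (by omega) a1 a2 e9 le_rfl]
          exact Or.inr ⟨h5.symm, rfl⟩
  have hs : FL i S = ((if lo (i + 3) = lo (i + 2) ∧
        (pdL lo hi i ∨ (pdR lo hi i ∧ lo (i + 2) = hi (i + 2))) then {lo (i + 2)} else ∅ :
          Finset ℕ) ∪
      (if hi (i + 3) = hi (i + 2) + 1 ∧
        (pdR lo hi i ∨ (pdL lo hi i ∧ lo (i + 2) = hi (i + 2))) then {hi (i + 2) + 1} else ∅ :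
          Finset ℕ)).image (x (i + 3)) := by
    ext w
    rw [mem_image]
    constructor
    · intro hw
      have hw' := mem_FL.1 hw
      obtain ⟨hwS, z, hz, hu⟩ := hw'
      have hz2 := lev_PD hz
      have hl := lev_uc h.H (x := w) (v := z) (by rw [hu]; exact mem_singleton_self z)
      have hlw : lev w = i + 3 := by omega
      obtain ⟨a, a1, a2, rfl⟩ := C.surj (i + 3) hk w hlw ((hS w (by omega)).1 hwS)
      refine ⟨a, ?_, rfl⟩
      rw [mem_union]
      rcases (hmem a a1 a2).1 hw with ⟨h5, h6⟩ | ⟨h5, h6⟩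
      · left
        rw [if_pos ⟨by omega, h6⟩, mem_singleton]
        exact h5
      · right
        rw [if_pos ⟨by omega, h6⟩, mem_singleton]
        exact h5
    · rintro ⟨a, ha, rfl⟩
      rw [mem_union] at ha
      rcases ha with ha | ha
      · split_ifs at ha with hc
        · rw [mem_singleton] at ha
          exact (hmem a (by omega) (by omega)).2 (Or.inl ⟨ha, hc.2⟩)
        · exact absurd ha (Finset.notMem_empty _)
      · split_ifs at ha with hc
        · rw [mem_singleton] at ha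
          exact (hmem a (by omega) (by omega)).2 (Or.inr ⟨ha, hc.2⟩)
        · exact absurd ha (Finset.notMem_empty _)
  have hrange : ∀ a ∈ ((if lo (i + 3) = lo (i + 2) ∧
        (pdL lo hi i ∨ (pdR lo hi i ∧ lo (i + 2) = hi (i + 2))) then {lo (i + 2)} else ∅ :
          Finset ℕ) ∪
      (if hi (i + 3) = hi (i + 2) + 1 ∧
        (pdR lo hi i ∨ (pdL lo hi i ∧ lo (i + 2) = hi (i + 2))) then {hi (i + 2) + 1} else ∅ :
          Finset ℕ)), lo (i + 3) ≤ a ∧ a ≤ hi (i + 3) := by
    intro a ha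
    rw [mem_union] at ha
    rcases ha with ha | ha
    · split_ifs at ha with hc
      · rw [mem_singleton] at ha
        omega
      · exact absurd ha (Finset.notMem_empty _)
    · split_ifs at ha with hc
      · rw [mem_singleton] at ha
        omega
      · exact absurd ha (Finset.notMem_empty _)
  rw [hs, Finset.card_image_of_injOn, Finset.card_union_of_disjoint]
  · unfold flw
    congr 1
    · split_ifs
      · exact card_singleton _
      · exact card_empty
    · split_ifs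
      · exact card_singleton _
      · exact card_empty
  · rw [Finset.disjoint_left]
    intro a ha ha'
    split_ifs at ha ha'
    · rw [mem_singleton] at ha ha'
      omega
    all_goals simp at ha ha'
  · intro a ha a' ha' he
    have g1 := hrange a (mem_coe.1 ha)
    have g2 := hrange a' (mem_coe.1 ha')
    exact C.inj' hk g1.1 g1.2 g2.1 g2.2 he

/-- the number of elements of level `i - 3` above `PU` only -/
lemma Comp.card_FU (C : Comp P t j lo hi x) (h : GoodTo P r j) (ht : lev t = 0)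
    (hk : i ≤ j) (hS : ∀ y, lev y ≤ i → (y ∈ S ↔ y ≤ t)) :
    (FU' i S).card = fuw lo hi i := by
  classical
  rcases Nat.lt_or_ge i 3 with hi3 | hi3
  · have h1 : FU' i S = ∅ := by
      rw [Finset.eq_empty_iff_forall_notMem]
      intro w hw
      obtain ⟨-, z, hz, hd⟩ := mem_FU'.1 hw
      have h2 := lev_PU hz
      have h3 := lev_dc h.H (x := w) (v := z) (by rw [hd]; exact mem_singleton_self z)
      omega
    rw [h1, card_empty]
    unfold fuw
    rw [if_neg (by omega), if_neg (by omega)]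
  obtain ⟨k, rfl⟩ : ∃ k, i = k + 3 := ⟨i - 3, by omega⟩
  have e5 : lo k ≤ lo (k + 1) := C.lo_le k (by omega)
  have e6 : lo (k + 1) ≤ lo k + 1 := C.lo_ge k (by omega)
  have e7 : hi k ≤ hi (k + 1) := C.hi_le k (by omega)
  have e8 : hi (k + 1) ≤ hi k + 1 := C.hi_ge k (by omega)
  have e9 := C.lohi (k + 1) (by omega)
  have e10 := C.lohi k (by omega)
  -- the two candidates
  have hmem : ∀ a, lo k ≤ a → a ≤ hi k → (x k a ∈ FU' (k + 3) S ↔
      (a + 1 = lo (k + 1) ∧ (puL lo hi (k + 3) ∨ (puR lo hi (k + 3) ∧ lo (k + 1) = hi (k + 1)))) ∨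
      (a = hi (k + 1) ∧ (puR lo hi (k + 3) ∨ (puL lo hi (k + 3) ∧ lo (k + 1) = hi (k + 1))))) := by
    intro a a1 a2
    have hla := C.lev_x k (by omega) a a1 a2
    have hlt := C.le_t k (by omega) a a1 a2
    rw [mem_FU']
    constructor
    · rintro ⟨-, z, hz, hu⟩
      have hz2 := lev_PU hz
      have hcov : z ⋖ x k a := by rw [← mem_dc, hu]; exact mem_singleton_self z
      have hzt : z ≤ t := hcov.le.trans hlt
      obtain ⟨c, c1, c2, rfl⟩ := C.surj (k + 1) (by omega) z (by omega) hzt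
      have h5 := (C.dc_single h ht (k := k) (by omega) c1 c2 a1 a2).1 hu
      have h6 := (C.mem_PU_iff h ht (k := k + 1) (by omega) c1 c2).1 hz
      rcases h5 with ⟨h5, h5'⟩ | ⟨h5, h5'⟩
      · right
        refine ⟨by omega, ?_⟩
        rcases h6 with ⟨h6, h7⟩ | ⟨h6, h7⟩
        · exact Or.inr ⟨h7, by omega⟩
        · exact Or.inl h7
      · left
        refine ⟨by omega, ?_⟩
        rcases h6 with ⟨h6, h7⟩ | ⟨h6, h7⟩
        · exact Or.inl h7
        · exact Or.inr ⟨h7, by omega⟩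
    · intro hcase
      refine ⟨(hS _ (by omega)).2 hlt, ?_⟩
      rcases hcase with ⟨h5, h6⟩ | ⟨h5, h6⟩
      · refine ⟨x (k + 1) (lo (k + 1)), ?_, ?_⟩
        · have := C.mem_PU_iff h ht (k := k + 1) (by omega) le_rfl e9
          rw [this]
          rcases h6 with h6 | ⟨h6, h7⟩
          · exact Or.inl ⟨rfl, h6⟩
          · exact Or.inr ⟨h7, h6⟩
        · rw [C.dc_single h ht (k := k) (by omega) le_rfl e9 a1 a2]
          exact Or.inr ⟨by omega, rfl⟩
      · refine ⟨x (k + 1) (hi (k + 1)), ?_, ?_⟩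
        · have := C.mem_PU_iff h ht (k := k + 1) (by omega) e9 le_rfl
          rw [this]
          rcases h6 with h6 | ⟨h6, h7⟩
          · exact Or.inr ⟨rfl, h6⟩
          · exact Or.inl ⟨h7.symm, h6⟩
        · rw [C.dc_single h ht (k := k) (by omega) e9 le_rfl a1 a2]
          exact Or.inl ⟨h5.symm, h5⟩
  have hs : FU' (k + 3) S = ((if lo (k + 1) = lo k + 1 ∧
        (puL lo hi (k + 3) ∨ (puR lo hi (k + 3) ∧ lo (k + 1) = hi (k + 1))) then {lo k} else ∅ :
          Finset ℕ) ∪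
      (if hi (k + 1) = hi k ∧
        (puR lo hi (k + 3) ∨ (puL lo hi (k + 3) ∧ lo (k + 1) = hi (k + 1))) then {hi k} else ∅ :
          Finset ℕ)).image (x k) := by
    ext w
    rw [mem_image]
    constructor
    · intro hw
      have hw' := mem_FU'.1 hw
      obtain ⟨hwS, z, hz, hu⟩ := hw'
      have hz2 := lev_PU hz
      have hl := lev_dc h.H (x := w) (v := z) (by rw [hu]; exact mem_singleton_self z)
      have hlw : lev w = k := by omega
      obtain ⟨a, a1, a2, rfl⟩ := C.surj k (by omega) w hlw ((hS w (by omega)).1 hwS)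
      refine ⟨a, ?_, rfl⟩
      rw [mem_union]
      rcases (hmem a a1 a2).1 hw with ⟨h5, h6⟩ | ⟨h5, h6⟩
      · left
        rw [if_pos ⟨by omega, h6⟩, mem_singleton]
        omega
      · right
        rw [if_pos ⟨by omega, h6⟩, mem_singleton]
        omega
    · rintro ⟨a, ha, rfl⟩
      rw [mem_union] at ha
      rcases ha with ha | ha
      · split_ifs at ha with hc
        · rw [mem_singleton] at ha
          exact (hmem a (by omega) (by omega)).2 (Or.inl ⟨by omega, hc.2⟩)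
        · exact absurd ha (Finset.notMem_empty _)
      · split_ifs at ha with hc
        · rw [mem_singleton] at ha
          exact (hmem a (by omega) (by omega)).2 (Or.inr ⟨by omega, hc.2⟩)
        · exact absurd ha (Finset.notMem_empty _)
  have hcard : ((if lo (k + 1) = lo k + 1 ∧
        (puL lo hi (k + 3) ∨ (puR lo hi (k + 3) ∧ lo (k + 1) = hi (k + 1))) then {lo k} else ∅ :
          Finset ℕ) ∪
      (if hi (k + 1) = hi k ∧
        (puR lo hi (k + 3) ∨ (puL lo hi (k + 3) ∧ lo (k + 1) = hi (k + 1))) then {hi k} else ∅ :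
          Finset ℕ)).card = fuw lo hi (k + 3) := by
    have i1 : k + 3 - 2 = k + 1 := by omega
    have i2 : k + 3 - 3 = k := by omega
    rw [Finset.card_union_of_disjoint]
    · unfold fuw
      rw [i1, i2]
      congr 1
      · split_ifs with h1 h2 h2
        · exact card_singleton _
        · exact absurd ⟨by omega, h1⟩ h2
        · exact absurd h2.2 h1
        · exact card_empty
      · split_ifs with h1 h2 h2
        · exact card_singleton _
        · exact absurd ⟨by omega, h1⟩ h2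
        · exact absurd h2.2 h1
        · exact card_empty
    · rw [Finset.disjoint_left]
      intro a ha ha'
      split_ifs at ha ha'
      · rw [mem_singleton] at ha ha'
        omega
      all_goals simp at ha ha'
  rw [hs, Finset.card_image_of_injOn, hcard]
  intro a ha a' ha' he
  have hrange : ∀ a ∈ ((if lo (k + 1) = lo k + 1 ∧
        (puL lo hi (k + 3) ∨ (puR lo hi (k + 3) ∧ lo (k + 1) = hi (k + 1))) then {lo k} else ∅ :
          Finset ℕ) ∪
      (if hi (k + 1) = hi k ∧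
        (puR lo hi (k + 3) ∨ (puL lo hi (k + 3) ∧ lo (k + 1) = hi (k + 1))) then {hi k} else ∅ :
          Finset ℕ)), lo k ≤ a ∧ a ≤ hi k := by
    intro a ha
    rw [mem_union] at ha
    rcases ha with ha | ha
    · split_ifs at ha with hc
      · rw [mem_singleton] at ha
        omega
      · exact absurd ha (Finset.notMem_empty _)
    · split_ifs at ha with hc
      · rw [mem_singleton] at ha
        omega
      · exact absurd ha (Finset.notMem_empty _)
  have g1 := hrange a (mem_coe.1 ha)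
  have g2 := hrange a' (mem_coe.1 ha')
  exact C.inj' (by omega) g1.1 g1.2 g2.1 g2.2 he

/-- the number of sites -/
lemma Comp.card_st (C : Comp P t j lo hi x) (hk : i ≤ j)
    (hS : ∀ y, lev y ≤ i → (y ∈ S ↔ y ≤ t)) : (st i S).card = hi i + 1 - lo i := by
  classical
  have hs : st i S = (Finset.Icc (lo i) (hi i)).image (x i) := by
    ext v
    rw [mem_st, mem_image]
    constructor
    · rintro ⟨h1, h2⟩
      obtain ⟨a, a1, a2, rfl⟩ := C.surj i hk v h2 ((hS v (by omega)).1 h1)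
      exact ⟨a, Finset.mem_Icc.2 ⟨a1, a2⟩, rfl⟩
    · rintro ⟨a, ha, rfl⟩
      rw [Finset.mem_Icc] at ha
      have hl := C.lev_x i hk a ha.1 ha.2
      exact ⟨(hS _ (by omega)).2 (C.le_t i hk a ha.1 ha.2), hl⟩
  rw [hs, Finset.card_image_of_injOn, Nat.card_Icc]
  intro a ha a' ha' he
  rw [mem_coe, Finset.mem_Icc] at ha ha'
  exact C.inj' hk ha.1 ha.2 ha'.1 ha'.2 he

end counts

end Pool.Agent.GaussPoset.Win

end

/-! From `Pool.Agent.W_448al_h63.LK` -/

section

/-! The value of (3,1) in letters: the patterns are matched, final formula. -/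

namespace Pool.Agent.GaussPoset.Win

set_option linter.unusedSectionVars false

open Finset

universe u

variable {P : Type u} [Fintype P] [PartialOrder P] [DecidableEq P] {r j i : ℕ}
variable {t : P} {lo hi : ℕ → ℕ} {x : ℕ → ℕ → P}

/-- the flipped pattern at a window with three sites -/
def Flip (lo hi : ℕ → ℕ) (i : ℕ) : Prop :=
  hi i = lo i + 2 ∧ ((puL lo hi i ∧ pdR lo hi i) ∨ (puR lo hi i ∧ pdL lo hi i))

instance (lo hi : ℕ → ℕ) (i : ℕ) : Decidable (Flip lo hi i) := by unfold Flip; infer_instance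

/-- the edge of the row `i` at the sites `a - 1`, `a` -/
lemma Comp.mtc_aux (C : Comp P t j lo hi x) (h : GoodTo P r j) (ht : lev t = 0) {k : ℕ}
    (hk : k + 4 ≤ j) {S : Finset P} (hS : ∀ y, lev y ≤ k + 4 → (y ∈ S ↔ y ≤ t)) {z w : P}
    (hz : z ∈ PD P (k + 2)) (hzt : z ≤ t) (hw : w ∈ PU P (k + 2)) (hwt : w ≤ t)
    (h1 : (PDt (k + 2) t).card = 1) (h2 : (PUt (k + 2) t).card = 1)
    {a : ℕ} (ha : lo (k + 2) < a) (ha' : a ≤ hi (k + 2))
    (hzs : sts (k + 2) z = {x (k + 2) (a - 1), x (k + 2) a})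
    (hws : stD (k + 2) w = {x (k + 2) (a - 1), x (k + 2) a}) : Mtc (k + 2) S := by
  classical
  have hg : ∀ l, l < j → Good P l := h.good
  -- the double below and the double above
  obtain ⟨y, hy, hy2⟩ := S5_uc_PD hz
  obtain ⟨hlz, hz1, -⟩ := mem_PD.1 hz
  obtain ⟨hlw, hw1, u, hu, hu2⟩ := mem_PU.1 hw
  have hdw : dc w = {u} := by
    obtain ⟨v, hv⟩ := Finset.card_eq_one.1 hw1
    have : u ∈ dc w := mem_dc.2 hu
    rw [hv, mem_singleton] at this
    rw [hv, this]
  have e1 := ClE_sts h.H (i := k + 2) hlz hy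
  have e2 := ClE_stD h.H (i := k + 2) hlw hdw
  have hlu := lev_dc h.H (x := w) (v := u) (mem_dc.2 hu)
  refine ⟨Or.inr ⟨z, w, y, u, (hS z (by omega)).2 hzt, (hS w (by omega)).2 hwt, hz, hw, hy, hdw,
    ?_, hy2, ?_, ?_, ?_⟩⟩
  · rw [← e2, ← e1, hws, hzs]
  · intro z' hz' hzP
    have h3 : z' ∈ PDt (k + 2) t :=
      mem_PDt.2 ⟨hzP, (hS z' (by have := (lev_PD hzP).1; omega)).1 hz'⟩
    have h4 : z ∈ PDt (k + 2) t := mem_PDt.2 ⟨hz, hzt⟩
    exact Finset.card_le_one.1 h1.le _ h3 _ h4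
  · intro x' hx' hxP
    have h3 : x' ∈ PUt (k + 2) t :=
      mem_PUt.2 ⟨hxP, (hS x' (by have := (lev_PU hxP).1; omega)).1 hx'⟩
    have h4 : w ∈ PUt (k + 2) t := mem_PUt.2 ⟨hw, hwt⟩
    exact Finset.card_le_one.1 h2.le _ h3 _ h4
  · intro w' hlw' hdc
    have hdu : dc u = uc y := by rw [← e2, ← e1, hws, hzs]
    rw [← e1, hzs] at hdc hdu
    -- `w'` is `x (k + 1) (a - 1)`
    have hlt : lev w' = k + 1 := by omega
    have hcov : x (k + 2) a ⋖ w' := by rw [← mem_dc, hdc]; simp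
    have hcov' : x (k + 2) (a - 1) ⋖ w' := by rw [← mem_dc, hdc]; simp
    have hcu : x (k + 2) a ⋖ u := by rw [← mem_dc, hdu]; simp
    have hcu' : x (k + 2) (a - 1) ⋖ u := by rw [← mem_dc, hdu]; simp
    obtain ⟨b, b1, b2, b3, rfl⟩ := (C.uc_iff h ht (k := k + 1) (by omega) (show lo (k + 2) ≤ a by omega) ha').1 hcov
    have g1 := (C.cov (k + 1) (by omega) (a - 1) b (show lo (k + 2) ≤ a - 1 by omega)
      (show a - 1 ≤ hi (k + 2) by omega) b1 b2).1 hcov'
    obtain ⟨c, c1, c2, c3, rfl⟩ := (C.uc_iff h ht (k := k + 1) (by omega) (show lo (k + 2) ≤ a by omega) ha').1 hcu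
    have g2 := (C.cov (k + 1) (by omega) (a - 1) c (show lo (k + 2) ≤ a - 1 by omega)
      (show a - 1 ≤ hi (k + 2) by omega) c1 c2).1 hcu'
    rw [show b = c by omega]

/-- THE PATTERNS ARE MATCHED, unless there is a flip at a window with three sites -/
theorem Comp.mtc (C : Comp P t j lo hi x) (h : GoodTo P r j) (ht : lev t = 0)
    (hi1 : 1 ≤ i) (hk : i + 2 ≤ j) {S : Finset P} (hS : ∀ y, lev y ≤ i + 2 → (y ∈ S ↔ y ≤ t))
    (hf : ¬ Flip lo hi i) : Mtc i S := by
  classical
  have hind := indiv_21 h i (by omega) t ht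
  by_cases h0 : (PUt i t).card = 0
  · have h1 : (PDt i t).card = 0 := by omega
    rw [card_eq_zero] at h0 h1
    refine ⟨Or.inl fun z hz => ⟨fun hz' => ?_, fun hz' => ?_⟩⟩
    · have h2 : z ∈ PDt i t := mem_PDt.2 ⟨hz', (hS z (by have := (lev_PD hz').1; omega)).1 hz⟩
      rw [h1] at h2
      exact absurd h2 (Finset.notMem_empty _)
    · have h2 : z ∈ PUt i t := mem_PUt.2 ⟨hz', (hS z (by have := (lev_PU hz').1; omega)).1 hz⟩
      rw [h0] at h2
      exact absurd h2 (Finset.notMem_empty _)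
  have hU : (PUt i t).card = 1 := by omega
  have hD : (PDt i t).card = 1 := by omega
  obtain ⟨w, hw⟩ := Finset.card_eq_one.1 hU
  obtain ⟨z, hz⟩ := Finset.card_eq_one.1 hD
  have hw1 : w ∈ PUt i t := by rw [hw]; exact mem_singleton_self w
  have hz1 : z ∈ PDt i t := by rw [hz]; exact mem_singleton_self z
  rw [mem_PUt] at hw1
  rw [mem_PDt] at hz1
  have hi2 : 2 ≤ i := by
    have := (mem_PU.1 hw1.1).1
    omega
  obtain ⟨k, rfl⟩ : ∃ k, i = k + 2 := ⟨i - 2, by omega⟩
  obtain ⟨hlh, hPU⟩ := C.PU_cases h ht (m := k) (by omega) hw1.1 hw1.2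
  obtain ⟨-, hPD⟩ := C.PD_cases h ht (m := k + 2) hk hz1.1 hz1.2
  have hS5 := (near_level' (i := k + 2) (h.mono (by omega)) (by omega)).2 t lo hi x ht
    (C.mono (by omega))
  have i1 : k + 2 - 1 = k + 1 := by omega
  have i2 : k + 2 - 2 = k := by omega
  -- the pendant sits below the double of its pair
  have hpen : ∀ a, lo (k + 2) < a → a ≤ hi (k + 2) →
      sts (k + 2) z = {x (k + 2) (a - 1), x (k + 2) a} →
      (pen (x (k + 3) a)).card ≠ 0 := by
    intro a ha ha' hs h0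
    rw [card_eq_zero] at h0
    obtain ⟨y, hy, hy2⟩ := S5_uc_PD hz1.1
    obtain ⟨hlz, hz11, -⟩ := mem_PD.1 hz1.1
    have e1 := ClE_sts h.H (i := k + 2) hlz hy
    rw [hs] at e1
    have hzy : z ⋖ y := by rw [← mem_uc, hy]; exact mem_singleton_self y
    have hly := lev_uc h.H (mem_uc.2 hzy)
    have hyt : y ≤ t := h.cov_le (by omega) ht hz1.2 hzy
    obtain ⟨b, b1, b2, rfl⟩ := C.surj (k + 3) (by omega) y (by omega) hyt
    have hb2 := (C.uc_two h ht (k := k + 2) (by omega) b1 b2).1 hy2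
    rw [C.uc_eq h ht (k := k + 2) (by omega) hb2.1 hb2.2] at e1
    have hab : a = b := by
      have g1 : x (k + 2) a ∈ ({x (k + 2) (b - 1), x (k + 2) b} : Finset P) := by
        rw [← e1]; simp
      have g2 : x (k + 2) b ∈ ({x (k + 2) (a - 1), x (k + 2) a} : Finset P) := by
        rw [e1]; simp
      rw [mem_insert, mem_singleton] at g1 g2
      rcases g1 with g1 | g1
      · have := C.inj' (k := k + 2) (by omega) (by omega) (by omega) (by omega) (by omega) g1
        rcases g2 with g2 | g2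
        · have := C.inj' (k := k + 2) (by omega) (by omega) (by omega) (by omega) (by omega) g2
          omega
        · exact (C.inj' (k := k + 2) (by omega) (by omega) (by omega) (by omega) (by omega)
            g2).symm
      · exact C.inj' (k := k + 2) (by omega) (by omega) (by omega) (by omega) (by omega) g1
    subst hab
    have : z ∈ pen (x (k + 3) a) := mem_pen.2 ⟨hzy, hz11⟩
    rw [h0] at this
    exact absurd this (Finset.notMem_empty _)
  unfold Flip puL puR pdL pdR at hf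
  unfold S5c LCO RCO at hS5
  rw [i1, i2] at hf hS5
  rcases hPU with ⟨u1, u2, -, u4⟩ | ⟨u1, u2, -, u4⟩
  · rcases hPD with ⟨d1, d2, -, d4⟩ | ⟨d1, d2, -, d4⟩
    · -- both left
      refine C.mtc_aux h ht (k := k) hk hS hz1.1 hz1.2 hw1.1 hw1.2 hD hU (a := lo (k + 2) + 1)
        (by omega) (by omega) ?_ ?_
      · rw [d4, Nat.add_sub_cancel]
      · rw [u4, Nat.add_sub_cancel]
    · -- above left, below right
      by_cases hb : hi (k + 2) = lo (k + 2) + 1
      · refine C.mtc_aux h ht (k := k) hk hS hz1.1 hz1.2 hw1.1 hw1.2 hD hU (a := lo (k + 2) + 1)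
          (by omega) (by omega) ?_ ?_
        · rw [d4, hb, Nat.add_sub_cancel]
        · rw [u4, Nat.add_sub_cancel]
      exfalso
      have hp := hpen (hi (k + 2)) (by omega) le_rfl d4
      rcases hS5 with ⟨h3, -, -⟩ | ⟨-, h3, b, hb1, hb2⟩ | ⟨-, h3, -⟩
      · exact h3 ⟨by omega, u1, u2, by omega⟩
      · have h4 := hb2 (hi (k + 2)) (by omega) le_rfl
        rw [h4] at hp
        have h5 : hi (k + 2) = b := by
          by_contra hne
          rw [if_neg hne] at hp
          exact hp rfl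
        apply hf
        refine ⟨by omega, Or.inl ⟨⟨by omega, u1, u2, by omega⟩, ?_⟩⟩
        exact ⟨d1, d2, by omega⟩
      · exact h3 ⟨by omega, u1, u2, by omega⟩
  · rcases hPD with ⟨d1, d2, -, d4⟩ | ⟨d1, d2, -, d4⟩
    · -- above right, below left
      by_cases hb : hi (k + 2) = lo (k + 2) + 1
      · refine C.mtc_aux h ht (k := k) hk hS hz1.1 hz1.2 hw1.1 hw1.2 hD hU (a := lo (k + 2) + 1)
          (by omega) (by omega) ?_ ?_
        · rw [d4, Nat.add_sub_cancel]
        · rw [u4, hb, Nat.add_sub_cancel]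
      exfalso
      have hp := hpen (lo (k + 2) + 1) (by omega) (by omega) (by rw [d4, Nat.add_sub_cancel])
      rcases hS5 with ⟨-, h3, -⟩ | ⟨-, h3, -⟩ | ⟨-, -, b, hb1, hb2⟩
      · exact h3 ⟨by omega, u1, u2, by omega⟩
      · exact h3 ⟨by omega, u1, u2, by omega⟩
      · have h4 := hb2 (lo (k + 2) + 1) (by omega) (by omega)
        rw [h4] at hp
        have h5 : lo (k + 2) + 1 = b := by
          by_contra hne
          rw [if_neg hne] at hp
          exact hp rfl
        apply hf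
        refine ⟨by omega, Or.inr ⟨⟨by omega, u1, u2, by omega⟩, ?_⟩⟩
        exact ⟨d1, d2, by omega⟩
    · -- both right
      refine C.mtc_aux h ht (k := k) hk hS hz1.1 hz1.2 hw1.1 hw1.2 hD hU (a := hi (k + 2))
        (by omega) le_rfl d4 u4

/-- THE VALUE OF (3,1) IN LETTERS -/
theorem Comp.al3 (C : Comp P t j lo hi x) (h : GoodTo P r j) (ht : lev t = 0)
    (hi1 : 1 ≤ i) (hk : i + 3 ≤ j) {S : Finset P} (hS : ∀ y, lev y ≤ i + 3 → (y ∈ S ↔ y ≤ t))
    (hP : Part (i + 1) S) (hf : ¬ Flip lo hi i) :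
    I2.al 3 (st i S).card (ZS i S) = (flw lo hi i : ℤ) - (fuw lo hi i : ℤ) := by
  have hr := h.hr
  have h1 := C.card_st (i := i) (S := S) (by omega) (fun y hy => hS y (by omega))
  have h2 := C.lohi i (by omega)
  rw [al3_val h.H hi1 (by omega) (fun m h3 h4 => h.good m (by omega)) hP (by omega)
    (C.mtc h ht hi1 (by omega) (fun y hy => hS y (by omega)) hf),
    C.card_ZL h ht (by omega) (fun y hy => hS y (by omega)),
    C.card_ZU h ht hi1 (by omega) (fun y hy => hS y (by omega)),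
    C.card_FL h ht hk hS, C.card_FU h ht (by omega) (fun y hy => hS y (by omega))]
  ring

end Pool.Agent.GaussPoset.Win

end

/-! From `Pool.Agent.W_448wd_h84.WdF` -/

section

/-!
# MP_448cb3_co, the laws of one component from the landed identities
-/

namespace Pool.Agent.GaussPoset.Wd

set_option linter.unusedSectionVars false

open Finset Win

universe u

variable {P : Type u} [Fintype P] [PartialOrder P] [DecidableEq P] {r j : ℕ}
variable {t : P} {lo hi : ℕ → ℕ} {e : ℕ → ℕ → P}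

lemma npd_eq (i : ℕ) : npd lo hi i = Cp.nPD lo hi i := by
  unfold npd Cp.nPD pdL pdR
  congr 1

lemma npu_eq (i : ℕ) : npu lo hi (i + 2) = Cp.nPU lo hi i := by
  unfold npu Cp.nPU puL puR
  simp

lemma npu_small {i : ℕ} (h : i < 2) : npu lo hi i = 0 := by
  unfold npu puL puR
  rw [if_neg (by omega), if_neg (by omega)]

/-- (2,1) -/
theorem law_two (h : GoodTo P r j) (ht : lev t = 0) (C : Cp.Comp j t lo hi e) {i : ℕ}
    (hi2 : i + 2 ≤ j) : npd lo hi i = npu lo hi i ∧ npd lo hi i ≤ 1 := by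
  classical
  obtain ⟨h1, h2⟩ := indiv_21 h i (by omega) t ht
  have h3 : (PDt i t).card = npd lo hi i := by
    rw [npd_eq, ← C.card_PD h.H h.good ht hi2]
    rfl
  have h4 : (PUt i t).card = npu lo hi i := by
    rcases Nat.lt_or_ge i 2 with h5 | h5
    · rw [npu_small h5, card_eq_zero, Finset.eq_empty_iff_forall_notMem]
      intro z hz
      have := (mem_PU.1 (mem_PUt.1 hz).1).1
      omega
    · obtain ⟨k, rfl⟩ : ∃ k, i = k + 2 := ⟨i - 2, by omega⟩
      rw [npu_eq, ← C.card_PU h.H (by omega)]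
      rfl
  omega

/-- (4,2) -/
theorem law_two4 (h : GoodTo P r j) (ht : lev t = 0) (C : Cp.Comp j t lo hi e) {i : ℕ}
    (hi1 : 1 ≤ i) (hi2 : i + 2 ≤ j) (hb : lo i + 3 ≤ hi i) :
    (pdL lo hi i ↔ puL lo hi i) ∧ (pdR lo hi i ↔ puR lo hi i) := by
  classical
  obtain ⟨h1, h2⟩ := law_two h ht C hi2
  have W := C.toWin
  have hS5 := (near_level' (i := i) (h.mono (by omega)) hi1).2 t lo hi e ht (W.mono (by omega))
  have e1 := C.lo_step i (by omega)
  have e2 := C.hi_step i (by omega)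
  have hL : pdL lo hi i → (pen (e (i + 1) (lo i + 1))).card ≠ 0 := by
    rintro ⟨d1, d2, d3⟩ h0
    rw [card_eq_zero] at h0
    have hz := W.PD_left h ht hi2 d1 d2 d3
    have hm := mem_PD.1 hz
    obtain ⟨w, hw, hw2⟩ := hm.2.2
    have h3 : w = e (i + 1) (lo i + 1) := by
      have hlo := C.lo_le (i + 2) hi2
      obtain ⟨b, b1, b2, b3, rfl⟩ := (W.uc_iff h ht (k := i + 1) (by omega) le_rfl hlo).1 hw
      have e9 : lo (i + 1 + 1) = lo (i + 2) := rfl
      rw [show b = lo i + 1 by omega]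
    have h4 : e (i + 2) (lo (i + 2)) ∈ pen (e (i + 1) (lo i + 1)) := by
      rw [← h3]
      exact mem_pen.2 ⟨hw, hm.2.1⟩
    rw [h0] at h4
    exact absurd h4 (Finset.notMem_empty _)
  have hR : pdR lo hi i → (pen (e (i + 1) (hi i))).card ≠ 0 := by
    rintro ⟨d1, d2, d3⟩ h0
    rw [card_eq_zero] at h0
    have hz := W.PD_right h ht hi2 d1 d2 d3
    have hm := mem_PD.1 hz
    obtain ⟨w, hw, hw2⟩ := hm.2.2
    have h3 : w = e (i + 1) (hi i) := by
      have hlo := C.lo_le (i + 2) hi2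
      obtain ⟨b, b1, b2, b3, rfl⟩ := (W.uc_iff h ht (k := i + 1) (by omega) hlo le_rfl).1 hw
      rw [show b = hi i by omega]
    have h4 : e (i + 2) (hi (i + 2)) ∈ pen (e (i + 1) (hi i)) := by
      rw [← h3]
      exact mem_pen.2 ⟨hw, hm.2.1⟩
    rw [h0] at h4
    exact absurd h4 (Finset.notMem_empty _)
  have hd : npd lo hi i = (if pdL lo hi i then 1 else 0) + (if pdR lo hi i then 1 else 0) := rfl
  have hu : npu lo hi i = (if puL lo hi i then 1 else 0) + (if puR lo hi i then 1 else 0) := rfl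
  have l1 : LCO lo hi i ↔ puL lo hi i := Iff.rfl
  have l2 : RCO lo hi i ↔ puR lo hi i := Iff.rfl
  rcases hS5 with ⟨h3, h4, -⟩ | ⟨h3, h4, b, hb1, hb2⟩ | ⟨h3, h4, b, hb1, hb2⟩
  · rw [l1] at h3
    rw [l2] at h4
    rw [if_neg h3, if_neg h4] at hu
    rw [hd] at h1
    split_ifs at h1 with h5 h6 h6
    · omega
    · omega
    · omega
    · tauto
  · rw [l1] at h3
    rw [l2] at h4
    rw [if_pos h3, if_neg h4] at hu
    have h5 : ¬ pdR lo hi i := by
      intro h6
      have h7 := hR h6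
      rw [hb2 (hi i) (by omega) le_rfl, if_neg (by omega)] at h7
      exact h7 rfl
    rw [hd, if_neg h5] at h1
    split_ifs at h1 with h6
    · tauto
    · omega
  · rw [l2] at h3
    rw [l1] at h4
    rw [if_neg h4, if_pos h3] at hu
    have h5 : ¬ pdL lo hi i := by
      intro h6
      have h7 := hL h6
      rw [hb2 (lo i + 1) (by omega) (by omega), if_neg (by omega)] at h7
      exact h7 rfl
    rw [hd, if_neg h5] at h1
    split_ifs at h1 with h6
    · tauto
    · omega

/-! ## components as parts -/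

end Pool.Agent.GaussPoset.Wd

end
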