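import Mathlib
import Pool.Agent.W_448zz_h61.Ns
import Pool.Agent.W_448zz_h61.M065
import Pool.Agent.W_448zz_h61.M099

/-! From `Pool.Agent.W_448C_h48.StE` -/

section

/-!
# Strips of the first bad level (MP_448cb3_co, `b_1 = 2 b_0`): sums and degrees
-/

namespace Pool.Agent.GaussPoset.Win

set_option linter.unusedSectionVars false

open Finset

universe u

variable {P : Type u} [Fintype P] [PartialOrder P] [DecidableEq P] {r j : ℕ} {t : P} {m : ℕ}
  {x : ℕ → P}

/-- the sites of a strip -/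
def SV (m : ℕ) (x : ℕ → P) : Finset P := (range (m + 1)).image x

lemma mem_SV {a : ℕ} (ha : a ≤ m) : x a ∈ SV m x :=
  mem_image.2 ⟨a, mem_range.2 (by omega), rfl⟩

lemma StE_sum_two {s : Finset ℕ} {p q : ℕ} (hpq : p ≠ q) (hp : p ∈ s) (hq : q ∈ s) {f : ℕ → ℤ}
    (h : ∀ b ∈ s, b ≠ p → b ≠ q → f b = 0) : ∑ b ∈ s, f b = f p + f q := by
  rw [← sum_pair hpq]
  symm
  refine sum_subset ?_ ?_
  · intro b hb
    rw [mem_insert, mem_singleton] at hb
    rcases hb with rfl | rfl
    · exact hp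
    · exact hq
  · intro b hb hb2
    rw [mem_insert, mem_singleton, not_or] at hb2
    exact h b hb hb2.1 hb2.2

/-- weights on the edges of the strip and on the pair of its ends -/
def OnStrip (m : ℕ) (x : ℕ → P) (g : Finset P → ℤ) : Prop :=
  ∀ a b, a + 1 < b → b ≤ m → ¬ (a = 0 ∧ b = m) → g {x a, x b} = 0

/-- the defects of the strip -/
lemma StE_Df (H : Gr P r) {v v' : P} (hv : lev v = j) (hne : v ≠ v') :
    Df j {v, v'} = (dcv v v' : ℤ) - ucv v v' := Df_pair H hv hne

end Pool.Agent.GaussPoset.Win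

end

/-! From `Pool.Agent.W_448s6_h67.PcB` -/

section

/-!
# The pieces of the first bad level inside one component (MP_448cb3_co): a row of elements
-/

namespace Pool.Agent.GaussPoset.Win

set_option linter.unusedSectionVars false

open Finset

universe u

variable {P : Type u} [Fintype P] [PartialOrder P] [DecidableEq P] {r j : ℕ} {t : P} {m : ℕ}
  {x : ℕ → P}

/-- the elements of level `j` below `t`: a path; no new edges except at the pair of the ends -/
structure Rw (P : Type u) [Fintype P] [PartialOrder P] [DecidableEq P] (j : ℕ) (t : P) (m : ℕ)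
    (x : ℕ → P) : Prop where
  lev_x : ∀ a, a ≤ m → lev (x a) = j
  le_t : ∀ a, a ≤ m → x a ≤ t
  inj : ∀ a b, a ≤ m → b ≤ m → x a = x b → a = b
  surj : ∀ y, lev y = j → y ≤ t → ∃ a, a ≤ m ∧ x a = y
  ucv_x : ∀ a b, a ≤ m → b ≤ m → a ≠ b →
    ucv (x a) (x b) = if a + 1 = b ∨ b + 1 = a then 1 else 0
  far : ∀ a b, a + 1 < b → b ≤ m → dcv (x a) (x b) ≠ 0 →
    a = 0 ∧ b = m ∧ (uc (x 0)).card = 1 ∧ (uc (x m)).card = 1

lemma Rw.sum_SV (S : Rw P j t m x) (f : P → ℤ) :
    ∑ v ∈ SV m x, f v = ∑ a ∈ range (m + 1), f (x a) := by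
  unfold SV
  rw [sum_image]
  intro a ha b hb hab
  rw [mem_coe, mem_range] at ha hb
  exact S.inj a b (by omega) (by omega) hab

lemma Rw.sum_SV_erase (S : Rw P j t m x) {a : ℕ} (ha : a ≤ m) (f : P → ℤ) :
    ∑ v ∈ (SV m x).erase (x a), f v = ∑ b ∈ (range (m + 1)).erase a, f (x b) := by
  have h1 := sum_erase_add (SV m x) f (mem_SV ha)
  have h2 := sum_erase_add (range (m + 1)) (fun b => f (x b)) (mem_range.2 (show a < m + 1 by omega))
  rw [S.sum_SV] at h1
  linarith

lemma Rw.row_first (S : Rw P j t m x) (hm : 2 ≤ m) {g : Finset P → ℤ} (hg : OnStrip m x g) :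
    St.dg g (SV m x) (x 0) = g {x 0, x 1} + g {x 0, x m} := by
  unfold St.dg
  rw [S.sum_SV_erase (Nat.zero_le m)]
  refine StE_sum_two (f := fun b => g {x 0, x b}) (by omega) ?_ ?_ ?_
  · rw [mem_erase, mem_range]
    omega
  · rw [mem_erase, mem_range]
    omega
  · intro b hb h1 h2
    rw [mem_erase, mem_range] at hb
    exact hg 0 b (by omega) (by omega) (by omega)

lemma Rw.row_last (S : Rw P j t m x) (hm : 2 ≤ m) {g : Finset P → ℤ} (hg : OnStrip m x g) :
    St.dg g (SV m x) (x m) = g {x (m - 1), x m} + g {x 0, x m} := by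
  unfold St.dg
  rw [S.sum_SV_erase le_rfl]
  rw [pair_comm (x (m - 1)) (x m), pair_comm (x 0) (x m)]
  refine StE_sum_two (f := fun b => g {x m, x b}) (by omega) ?_ ?_ ?_
  · rw [mem_erase, mem_range]
    omega
  · rw [mem_erase, mem_range]
    omega
  · intro b hb h1 h2
    rw [mem_erase, mem_range] at hb
    show g {x m, x b} = 0
    rw [pair_comm]
    exact hg b m (by omega) le_rfl (by omega)

lemma Rw.row_mid (S : Rw P j t m x) {g : Finset P → ℤ} (hg : OnStrip m x g) {a : ℕ}
    (ha : a + 1 < m) :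
    St.dg g (SV m x) (x (a + 1)) = g {x a, x (a + 1)} + g {x (a + 1), x (a + 2)} := by
  unfold St.dg
  rw [S.sum_SV_erase (show a + 1 ≤ m by omega)]
  rw [pair_comm (x a) (x (a + 1))]
  refine StE_sum_two (f := fun b => g {x (a + 1), x b}) (by omega) ?_ ?_ ?_
  · rw [mem_erase, mem_range]
    omega
  · rw [mem_erase, mem_range]
    omega
  · intro b hb h1 h2
    rw [mem_erase, mem_range] at hb
    show g {x (a + 1), x b} = 0
    rcases Nat.lt_or_ge b (a + 1) with h3 | h3
    · rw [pair_comm]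
      exact hg b (a + 1) (by omega) (by omega) (by omega)
    · exact hg (a + 1) b (by omega) (by omega) (by omega)

lemma Rw.sum_split (S : Rw P j t m x) {n : ℕ} (hm : m = n + 2) (f : P → ℤ) :
    ∑ v ∈ SV m x, f v = f (x 0) + f (x m) + ∑ a ∈ range (n + 1), f (x (a + 1)) := by
  rw [S.sum_SV, hm, sum_range_succ, sum_range_succ']
  ring

lemma Rw.ne (S : Rw P j t m x) {a b : ℕ} (hab : a < b) (hb : b ≤ m) : x a ≠ x b := fun he => by
  have := S.inj a b (by omega) hb he
  omega

lemma Rw.Df_adj (S : Rw P j t m x) (H : Gr P r) {k : ℕ} (hk : k < m) :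
    Df j {x k, x (k + 1)} = (dcv (x k) (x (k + 1)) : ℤ) - 1 := by
  rw [StE_Df H (S.lev_x k hk.le) (S.ne (Nat.lt_succ_self k) hk),
    S.ucv_x k (k + 1) hk.le hk (by omega), if_pos (Or.inl rfl)]
  norm_num

lemma Rw.Df_ends (S : Rw P j t m x) (H : Gr P r) (hm : 2 ≤ m) :
    Df j {x 0, x m} = (dcv (x 0) (x m) : ℤ) := by
  rw [StE_Df H (S.lev_x 0 (by omega)) (S.ne (by omega) le_rfl),
    S.ucv_x 0 m (by omega) le_rfl (by omega), if_neg (by omega)]
  norm_num

lemma Rw.dcv_far (S : Rw P j t m x) {a b : ℕ} (hab : a + 1 < b) (hb : b ≤ m)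
    (hne : ¬ (a = 0 ∧ b = m)) : dcv (x a) (x b) = 0 := by
  by_contra hcon
  obtain ⟨h1, h2, -⟩ := S.far a b hab hb hcon
  exact hne ⟨h1, h2⟩

lemma Rw.onStrip (S : Rw P j t m x) (H : Gr P r) : OnStrip m x (Df j) := by
  intro a b hab hb hne
  rw [StE_Df H (S.lev_x a (by omega)) (S.ne (by omega) hb), S.dcv_far hab hb hne,
    S.ucv_x a b (by omega) hb (by omega), if_neg (by omega)]
  norm_num

/-- at most two double lower covers -/
lemma Rw.degD_le (S : Rw P j t m x) (H : Gr P r) {a : ℕ} (ha : a ≤ m) :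
    ∑ b ∈ (range (m + 1)).erase a, (dcv (x a) (x b) : ℤ) ≤ 2 := by
  classical
  have h1 : ∀ b, dcv (x a) (x b) = ∑ z ∈ dc (x a), if z ⋖ x b then 1 else 0 := by
    intro b
    unfold dcv
    rw [← Finset.card_filter]
    congr 1
    ext z
    simp only [mem_filter, mem_univ, true_and, mem_dc]
  have h2 : ∑ b ∈ (range (m + 1)).erase a, dcv (x a) (x b) ≤ (dc (x a)).card := by
    rw [Finset.sum_congr rfl fun b _ => h1 b, Finset.sum_comm, Finset.card_eq_sum_ones]
    refine Finset.sum_le_sum fun z hz => ?_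
    rw [← Finset.card_filter]
    rw [mem_dc] at hz
    by_contra hcon
    obtain ⟨b, hb, b', hb', hbb⟩ := Finset.one_lt_card.1 (not_le.1 hcon)
    rw [mem_filter, mem_erase, mem_range] at hb hb'
    have h3 : ({x a, x b, x b'} : Finset P) ⊆ uc z := by
      intro w hw
      simp only [mem_insert, mem_singleton] at hw
      rw [mem_uc]
      rcases hw with rfl | rfl | rfl
      · exact hz
      · exact hb.2
      · exact hb'.2
    have h4 : x b ≠ x b' := fun he => hbb (S.inj b b' (by omega) (by omega) he)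
    have h5 : x a ≠ x b := fun he => hb.1.1 (S.inj a b (by omega) (by omega) he).symm
    have h6 : x a ≠ x b' := fun he => hb'.1.1 (S.inj a b' (by omega) (by omega) he).symm
    have h7 := Finset.card_le_card h3
    rw [Finset.card_insert_of_notMem (by simp [h5, h6]), Finset.card_pair h4] at h7
    have := uc_card_le H z
    omega
  have h3 := dc_card_le H (x a)
  have h4 : (∑ b ∈ (range (m + 1)).erase a, (dcv (x a) (x b) : ℤ)) =
      ((∑ b ∈ (range (m + 1)).erase a, dcv (x a) (x b) : ℕ) : ℤ) := by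
    push_cast
    rfl
  rw [h4]
  exact_mod_cast h2.trans h3

/-- the row sums of the common covers -/
lemma Rw.dcv_mid (S : Rw P j t m x) {a : ℕ} (ha : a + 1 < m) :
    ∑ b ∈ (range (m + 1)).erase (a + 1), (dcv (x (a + 1)) (x b) : ℤ) =
      dcv (x a) (x (a + 1)) + dcv (x (a + 1)) (x (a + 2)) := by
  rw [StB_dcv_comm (x a) (x (a + 1))]
  refine StE_sum_two (f := fun b => (dcv (x (a + 1)) (x b) : ℤ)) (by omega) ?_ ?_ ?_
  · rw [mem_erase, mem_range]
    omega
  · rw [mem_erase, mem_range]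
    omega
  · intro b hb h1 h2
    rw [mem_erase, mem_range] at hb
    rcases Nat.lt_or_ge b (a + 1) with h3 | h3
    · rw [StB_dcv_comm, S.dcv_far (by omega) (by omega) (by omega)]
      rfl
    · rw [S.dcv_far (by omega) (by omega) (by omega)]
      rfl

lemma Rw.dcv_first (S : Rw P j t m x) (hm : 2 ≤ m) :
    ∑ b ∈ (range (m + 1)).erase 0, (dcv (x 0) (x b) : ℤ) = dcv (x 0) (x 1) + dcv (x 0) (x m) := by
  refine StE_sum_two (f := fun b => (dcv (x 0) (x b) : ℤ)) (by omega) ?_ ?_ ?_
  · rw [mem_erase, mem_range]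
    omega
  · rw [mem_erase, mem_range]
    omega
  · intro b hb h1 h2
    rw [mem_erase, mem_range] at hb
    rw [S.dcv_far (by omega) (by omega) (by omega)]
    rfl

lemma Rw.dcv_last (S : Rw P j t m x) (hm : 2 ≤ m) :
    ∑ b ∈ (range (m + 1)).erase m, (dcv (x m) (x b) : ℤ) =
      dcv (x (m - 1)) (x m) + dcv (x 0) (x m) := by
  rw [StB_dcv_comm (x (m - 1)) (x m), StB_dcv_comm (x 0) (x m)]
  refine StE_sum_two (f := fun b => (dcv (x m) (x b) : ℤ)) (by omega) ?_ ?_ ?_
  · rw [mem_erase, mem_range]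
    omega
  · rw [mem_erase, mem_range]
    omega
  · intro b hb h1 h2
    rw [mem_erase, mem_range] at hb
    rw [StB_dcv_comm, S.dcv_far (by omega) (by omega) (by omega)]
    rfl

/-- the pair of the ends is not an isolated piece -/
lemma Rw.iso (S : Rw P j t m x) (H : Gr P r) (hm : 2 ≤ m) (hmp : St.mp (Df j) (SV m x) = 1)
    (h0 : Df j {x 0, x 1} = 0) (h1 : Df j {x (m - 1), x m} = 0) : Df j {x 0, x m} = 0 := by
  have hon := S.onStrip H
  have hsub : ({x 0, x m} : Finset P) ⊆ SV m x := by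
    intro v hv
    rw [mem_insert, mem_singleton] at hv
    rcases hv with rfl | rfl
    · exact mem_SV (Nat.zero_le m)
    · exact mem_SV le_rfl
  have hd : Disjoint ({x 0, x m} : Finset P) (SV m x \ {x 0, x m}) := disjoint_sdiff
  have hcr : ∀ u ∈ ({x 0, x m} : Finset P), ∀ w ∈ SV m x \ {x 0, x m}, Df j {u, w} = 0 := by
    intro u hu w hw
    rw [mem_sdiff] at hw
    obtain ⟨hw1, hw2⟩ := hw
    unfold SV at hw1
    obtain ⟨b, hb, rfl⟩ := mem_image.1 hw1
    rw [mem_range] at hb
    rw [mem_insert, mem_singleton, not_or] at hw2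
    have hb0 : b ≠ 0 := fun he => hw2.1 (by rw [he])
    have hbm : b ≠ m := fun he => hw2.2 (by rw [he])
    rw [mem_insert, mem_singleton] at hu
    rcases hu with rfl | rfl
    · rcases Nat.lt_or_ge 1 b with h2 | h2
      · exact hon 0 b (by omega) (by omega) (by omega)
      · rw [show b = 1 by omega]
        exact h0
    · rw [pair_comm]
      rcases Nat.lt_or_ge (b + 1) m with h2 | h2
      · exact hon b m (by omega) le_rfl (by omega)
      · rw [show b = m - 1 by omega]
        exact h1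
  have h2 : St.mp (Df j) ({x 0, x m} ∪ (SV m x \ {x 0, x m})) = 1 := by
    rw [union_sdiff_of_subset hsub]
    exact hmp
  have h3 := St.mp_left hd hcr h2
  rw [St.mp_two (S.ne (by omega) le_rfl)] at h3
  have h4 := congrArg (fun p : Polynomial ℤ => p.coeff 1) h3
  simpa [Polynomial.coeff_one] using h4

/-- THE DEFECTS OF A ROW whose matching polynomial is `1`; `p + 1` is the only inner element which
may have no double lower cover -/
theorem Rw.cases (S : Rw P j t m x) (H : Gr P r) (hmp : St.mp (Df j) (SV m x) = 1) {p : ℕ}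
    (hp : ∀ a, a + 1 < m → a ≠ p → 1 ≤ dcv (x a) (x (a + 1)) + dcv (x (a + 1)) (x (a + 2))) :
    ∃ (c : ℕ → ℤ) (β : ℤ), PcPat m c β ∧ (∀ k, k < m → Df j {x k, x (k + 1)} = c k) ∧
      (2 ≤ m → Df j {x 0, x m} = β) := by
  have hP1' : ∑ u ∈ SV m x, St.dg (Df j) (SV m x) u = 0 := St.P2_eq_zero hmp
  have hP2' : 2 * ∑ u ∈ SV m x, St.dg (Df j) (SV m x) u ^ 2 =
      ∑ u ∈ SV m x, St.dg (fun T => Df j T ^ 2) (SV m x) u := St.sq_eq hmp
  rcases Nat.lt_or_ge m 2 with hm2 | hm2
  · refine ⟨fun _ => 0, 0, Or.inl ⟨rfl, fun _ _ => rfl⟩, ?_, fun h => by omega⟩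
    intro k hk
    have hm1 : m = 1 := by omega
    subst hm1
    have hk0 : k = 0 := by omega
    subst hk0
    have hd : ∀ a, a ≤ 1 → St.dg (Df j) (SV 1 x) (x a) = Df j {x 0, x 1} := by
      intro a ha
      unfold St.dg
      rw [S.sum_SV_erase ha]
      have hcase : a = 0 ∨ a = 1 := by omega
      rcases hcase with rfl | rfl
      · rw [show (range (1 + 1)).erase 0 = {1} by decide, sum_singleton]
      · rw [show (range (1 + 1)).erase 1 = {0} by decide, sum_singleton, pair_comm]
    rw [S.sum_SV, show range (1 + 1) = {0, 1} by decide, sum_pair (by norm_num), hd 0 (by omega),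
      hd 1 le_rfl] at hP1'
    show Df j {x 0, x 1} = 0
    linarith
  obtain ⟨n, hn⟩ : ∃ n, m = n + 2 := ⟨m - 2, by omega⟩
  have hon := S.onStrip H
  have hon2 : OnStrip m x (fun T => Df j T ^ 2) := by
    intro a b h1 h2 h3
    show Df j {x a, x b} ^ 2 = 0
    rw [hon a b h1 h2 h3]
    norm_num
  -- the defects
  obtain ⟨c, hc⟩ : ∃ c : ℕ → ℤ, ∀ k, c k = Df j {x k, x (k + 1)} := ⟨_, fun _ => rfl⟩
  obtain ⟨β, hβ⟩ : ∃ β : ℤ, β = Df j {x 0, x m} := ⟨_, rfl⟩
  have hm1 : m - 1 = n + 1 := by omega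
  have hd0 : St.dg (Df j) (SV m x) (x 0) = c 0 + β := by
    rw [S.row_first hm2 hon, hc 0, hβ]
  have hdm : St.dg (Df j) (SV m x) (x m) = c (n + 1) + β := by
    rw [S.row_last hm2 hon, hc (n + 1), hβ, hm1, hn]
  have hdk : ∀ a, a < n + 1 → St.dg (Df j) (SV m x) (x (a + 1)) = c a + c (a + 1) := by
    intro a ha
    rw [S.row_mid hon (by omega), hc a, hc (a + 1)]
  have hq0 : St.dg (fun T => Df j T ^ 2) (SV m x) (x 0) = c 0 ^ 2 + β ^ 2 := by
    rw [S.row_first hm2 hon2, hc 0, hβ]
  have hqm : St.dg (fun T => Df j T ^ 2) (SV m x) (x m) = c (n + 1) ^ 2 + β ^ 2 := by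
    rw [S.row_last hm2 hon2, hc (n + 1), hβ, hm1, hn]
  have hqk : ∀ a, a < n + 1 →
      St.dg (fun T => Df j T ^ 2) (SV m x) (x (a + 1)) = c a ^ 2 + c (a + 1) ^ 2 := by
    intro a ha
    rw [S.row_mid hon2 (by omega), hc a, hc (a + 1)]
  -- the two sums
  have E1 : ∑ k ∈ range (n + 2), c k + β = 0 := by
    rw [S.sum_split hn, hd0, hdm,
      sum_congr rfl (fun a ha => hdk a (mem_range.1 ha)), Ar_sum_two] at hP1'
    linarith
  have E2 : (c 0 + β) ^ 2 + (c (n + 1) + β) ^ 2 + ∑ a ∈ range (n + 1), (c a + c (a + 1)) ^ 2 =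
      ∑ k ∈ range (n + 2), c k ^ 2 + β ^ 2 := by
    rw [S.sum_split hn, S.sum_split hn, hd0, hdm, hq0, hqm,
      sum_congr rfl (fun a ha => by rw [hdk a (mem_range.1 ha)]),
      sum_congr rfl (fun a ha => hqk a (mem_range.1 ha))] at hP2'
    have h3 : ∑ a ∈ range (n + 1), (c a ^ 2 + c (a + 1) ^ 2) =
        2 * ∑ k ∈ range (n + 2), c k ^ 2 - c 0 ^ 2 - c (n + 1) ^ 2 :=
      Ar_sum_two n (fun k => c k ^ 2)
    rw [h3] at hP2'
    linarith
  -- the bounds
  have hcd : ∀ k, k < n + 2 → c k = (dcv (x k) (x (k + 1)) : ℤ) - 1 := by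
    intro k hk
    rw [hc k, S.Df_adj H (by omega)]
  have hβd : β = (dcv (x 0) (x m) : ℤ) := by
    rw [hβ, S.Df_ends H hm2]
  have hlow : ∀ k, k < n + 2 → -1 ≤ c k := by
    intro k hk
    rw [hcd k hk]
    have := Int.natCast_nonneg (dcv (x k) (x (k + 1)))
    linarith
  have hs1 : ∀ a, a < n + 1 → a ≠ p → -1 ≤ c a + c (a + 1) := by
    intro a ha hap
    have h3 := hp a (by omega) hap
    rw [hcd a (by omega), hcd (a + 1) (by omega)]
    have h4 : (1 : ℤ) ≤ (dcv (x a) (x (a + 1)) : ℤ) + (dcv (x (a + 1)) (x (a + 2)) : ℤ) := by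
      exact_mod_cast h3
    show -1 ≤ (dcv (x a) (x (a + 1)) : ℤ) - 1 + ((dcv (x (a + 1)) (x (a + 2)) : ℤ) - 1)
    linarith
  have hs2 : ∀ a, a < n + 1 → c a + c (a + 1) ≤ 0 := by
    intro a ha
    have h3 := S.degD_le H (a := a + 1) (by omega)
    rw [S.dcv_mid (by omega)] at h3
    rw [hcd a (by omega), hcd (a + 1) (by omega)]
    show (dcv (x a) (x (a + 1)) : ℤ) - 1 + ((dcv (x (a + 1)) (x (a + 2)) : ℤ) - 1) ≤ 0
    linarith
  have hb0 : c 0 + β ≤ 1 := by
    have h3 := S.degD_le H (a := 0) (by omega)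
    rw [S.dcv_first hm2] at h3
    rw [hcd 0 (by omega), hβd]
    linarith
  have hb1 : c (n + 1) + β ≤ 1 := by
    have h3 := S.degD_le H (a := m) le_rfl
    rw [S.dcv_last hm2] at h3
    rw [hcd (n + 1) (by omega), hβd]
    have h4 : dcv (x (n + 1)) (x (n + 1 + 1)) = dcv (x (m - 1)) (x m) := by
      rw [hm1, hn]
    rw [h4]
    linarith
  have hβ0 : 0 ≤ β := by
    rw [hβd]
    exact Int.natCast_nonneg _
  have hiso : c 0 = 0 → c (n + 1) = 0 → β = 0 := by
    intro e0 e1
    rw [hβ]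
    refine S.iso H hm2 hmp ?_ ?_
    · rw [← e0, hc 0]
    · rw [← e1, hc (n + 1), hm1, hn]
  refine ⟨c, β, ?_, fun k _ => (hc k).symm, fun _ => hβ.symm⟩
  rw [hn]
  exact Pc_arith hlow hs1 hs2 hb0 hb1 hβ0 E1 E2 hiso

end Pool.Agent.GaussPoset.Win

end

/-! From `Pool.Agent.W_448s6_h67.PcC` -/

section

/-!
# S6 (MP_448cb3_co): the defects of the first bad level inside the components, no joins

All levels less than `j = i + 1` are good and no element of level `j + 1` is below two maximal elements.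
In every component the defects `A = D - U` of level `j` are: none; a rotation (new pair of the ends, one
end edge lost); end doublings (`x_0 x_1` doubled, `x_1 x_2` lost) at one or both ends; the triangle
(three elements, pair of the ends doubled, both edges lost); or, in a row of seven elements, a doubling at
both ends with alternating middle part.  In the last two cases an inner element has lost both edges, and
this element has a pendant below it.
-/

namespace Pool.Agent.GaussPoset.Win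

set_option linter.unusedSectionVars false

open Finset

universe u

variable {P : Type u} [Fintype P] [PartialOrder P] [DecidableEq P] {r i : ℕ} {t : P}
  {lo hi : ℕ → ℕ} {x : ℕ → ℕ → P}

/-- two lower covers are below the same maximal element, if there are no joins -/
lemma GoodTo.top_of_dcv (h : GoodTo P r i) (hno : ∀ z : P, lev z = i + 1 → ¬ Hul.Jn z) {v v' : P}
    (hv : lev v = i) (hv' : lev v' = i) (hd : 1 ≤ dcv v v') (ht : lev t = 0) (hvt : v ≤ t) :
    v' ≤ t := by
  obtain ⟨z, hz, hz'⟩ := StA_of_dcv hd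
  have hlz := lev_cov h.H hz
  obtain ⟨s, hs, hs2⟩ := exists_above' (x := v') (j := 0) (Nat.zero_le _)
  by_contra hcon
  refine hno z (by omega) ⟨t, s, ht, hs2, ?_, hz.le.trans hvt, hz'.le.trans hs⟩
  rintro rfl
  exact hcon hs

lemma S6_cross (h : GoodTo P r i) (hno : ∀ z : P, lev z = i + 1 → ¬ Hul.Jn z) {t t' : P}
    (ht : t ∈ lv P 0) (ht' : t' ∈ lv P 0) (hne : t ≠ t') {v v' : P} (hv : v ∈ St.wt0 i t)
    (hv' : v' ∈ St.wt0 i t') : v ≠ v' ∧ dcv v v' = 0 ∧ ucv v v' = 0 := by
  rw [St.mem_wt0] at hv hv'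
  rw [mem_lv] at ht ht'
  have key : ¬ v' ≤ t := fun hc => hne (h.top_eq hv'.1.le ht ht' hc hv'.2)
  refine ⟨?_, ?_, ?_⟩
  · rintro rfl
    exact key hv.2
  · by_contra hcon
    exact key (h.top_of_dcv hno hv.1 hv'.1 (by omega) ht hv.2)
  · by_contra hcon
    exact key (h.top_of_ucv hv.1.le (by omega) ht hv.2)

/-- the matching polynomial of every component is one, if there are no joins -/
theorem S6_mp (h : GoodTo P r i) (hno : ∀ z : P, lev z = i + 1 → ¬ Hul.Jn z) {t : P}
    (ht : lev t = 0) : St.mp (Df i) (St.wt0 i t) = 1 := by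
  have h1 : St.mp (Df i) (lv P i) = 1 := St.mp_level h.H h.hr
  rw [St.lv_eq i, St.mp_biUnion (lv P 0) (St.wt0 i)] at h1
  · exact St.prod_one _ _ (fun i _ => St.coeff_zero_mp) h1 t (mem_lv.2 ht)
  · intro t ht t' ht' hne
    rw [disjoint_left]
    intro v hv hv'
    exact (S6_cross h hno ht ht' hne hv hv').1 rfl
  · intro t ht t' ht' hne u hu w hw
    obtain ⟨h2, h3, h4⟩ := S6_cross h hno ht ht' hne hu hw
    rw [Df_pair h.H (St.mem_wt0.1 hu).1 h2, h3, h4]
    simp

/-- the row of level `i + 1` of a component -/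
theorem Comp.rw_row (C : Comp P t (i + 1) lo hi x) (h : GoodTo P r (i + 1)) (hi1 : 1 ≤ i)
    (ht : lev t = 0) :
    Rw P (i + 1) t (hi (i + 1) - lo (i + 1)) (fun a => x (i + 1) (lo (i + 1) + a)) := by
  have hlohi := C.lohi (i + 1) le_rfl
  have hinj : ∀ a b, a ≤ hi (i + 1) - lo (i + 1) → b ≤ hi (i + 1) - lo (i + 1) →
      x (i + 1) (lo (i + 1) + a) = x (i + 1) (lo (i + 1) + b) → a = b := by
    intro a b ha hb he
    have := C.inj' le_rfl (by omega) (by omega) (by omega) (by omega) he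
    omega
  refine ⟨fun a ha => C.lev_x _ le_rfl _ (by omega) (by omega),
    fun a ha => C.le_t _ le_rfl _ (by omega) (by omega), hinj, ?_, ?_, ?_⟩
  · intro y hy hyt
    obtain ⟨a, a1, a2, rfl⟩ := C.surj (i + 1) le_rfl y hy hyt
    refine ⟨a - lo (i + 1), by omega, ?_⟩
    show x (i + 1) (lo (i + 1) + (a - lo (i + 1))) = x (i + 1) a
    congr 1
    omega
  · intro a b ha hb hab
    show ucv (x (i + 1) (lo (i + 1) + a)) (x (i + 1) (lo (i + 1) + b)) = _
    rw [C.ucv_eq h ht le_rfl (by omega) (by omega) (by omega) (by omega) (by omega)]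
    exact if_congr (by omega) rfl rfl
  · intro a b hab hb hd
    obtain ⟨z, hz, hz'⟩ := StA_of_dcv (Nat.one_le_iff_ne_zero.2 hd)
    have hl := C.lev_x (i + 1) le_rfl (lo (i + 1) + a) (by omega) (by omega)
    have hlz := lev_cov h.H hz
    have hu : ucv (x (i + 1) (lo (i + 1) + a)) (x (i + 1) (lo (i + 1) + b)) = 0 := by
      rw [C.ucv_eq h ht le_rfl (by omega) (by omega) (by omega) (by omega) (by omega),
        if_neg (by omega)]
    have hne : x (i + 1) (lo (i + 1) + a) ≠ x (i + 1) (lo (i + 1) + b) := fun he => by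
      have := hinj a b (by omega) hb he
      omega
    have h1 := (near_level' h hi1).1 z _ _ (by omega) hz hz' hne
    rw [hu] at h1
    rcases h1 with h1 | ⟨h1, h2, -⟩
    · omega
    · have e1 := C.uc_two h ht (k := i) (a := lo (i + 1) + a) (by omega) (by omega) (by omega)
      have e2 := C.uc_two h ht (k := i) (a := lo (i + 1) + b) (by omega) (by omega) (by omega)
      rw [h1] at e1
      rw [h2] at e2
      have e3 : ¬ (lo i < lo (i + 1) + a ∧ lo (i + 1) + a ≤ hi i) := fun h3 => by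
        have := e1.2 h3
        omega
      have e4 : ¬ (lo i < lo (i + 1) + b ∧ lo (i + 1) + b ≤ hi i) := fun h3 => by
        have := e2.2 h3
        omega
      have f1 := C.lo_le i (by omega)
      have f2 := C.lo_ge i (by omega)
      have f3 := C.hi_le i (by omega)
      have f4 := C.hi_ge i (by omega)
      have g1 : a = 0 := by omega
      have g2 : b = hi (i + 1) - lo (i + 1) := by omega
      subst g1
      refine ⟨rfl, g2, h1, ?_⟩
      rw [← g2]
      exact h2

/-- an inner element without double lower covers has a pendant below it -/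
theorem S6_pendant (C : Comp P t (i + 1) lo hi x) (h : GoodTo P r (i + 1)) (hi1 : 1 ≤ i)
    (hr : i + 2 ≤ r) (hno : ∀ z : P, lev z = i + 2 → ¬ Hul.Jn z) (ht : lev t = 0) {a : ℕ}
    (ha : lo (i + 1) < a) (ha' : a < hi (i + 1))
    (h1 : dcv (x (i + 1) (a - 1)) (x (i + 1) a) = 0)
    (h2 : dcv (x (i + 1) a) (x (i + 1) (a + 1)) = 0) : 1 ≤ (pen (x (i + 1) a)).card := by
  have hl := C.lev_x (i + 1) le_rfl a ha.le ha'.le
  obtain ⟨z, hz⟩ := exists_dc h.H (v := x (i + 1) a) (by omega)
  have hlz := lev_cov h.H hz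
  rcases uc_card_cases h.H (x := z) (by omega) with h3 | h3
  · exact Finset.card_pos.2 ⟨z, mem_pen.2 ⟨hz, h3⟩⟩
  · exfalso
    obtain ⟨v, hv, hne⟩ := exists_other_uc (y := x (i + 1) a) h3
    have hlv := lev_cov h.H hv
    have hvt := h.top_of_dcv hno hl (by omega) (StA_dcv_pos hz hv) ht
      (C.le_t (i + 1) le_rfl a ha.le ha'.le)
    obtain ⟨b, b1, b2, rfl⟩ := C.surj (i + 1) le_rfl v (by omega) hvt
    have hab : a ≠ b := fun he => hne (by rw [he])
    have S := C.rw_row h hi1 ht
    rcases Nat.lt_or_ge a b with h4 | h4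
    · rcases Nat.lt_or_ge (a + 1) b with h5 | h5
      · have h6 := S.far (a - lo (i + 1)) (b - lo (i + 1)) (by omega) (by omega) (by
          show dcv (x (i + 1) (lo (i + 1) + (a - lo (i + 1))))
            (x (i + 1) (lo (i + 1) + (b - lo (i + 1)))) ≠ 0
          rw [show lo (i + 1) + (a - lo (i + 1)) = a by omega,
            show lo (i + 1) + (b - lo (i + 1)) = b by omega]
          have := StA_dcv_pos hz hv
          omega)
        omega
      · rw [show a + 1 = b by omega] at h2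
        have := StA_dcv_pos hz hv
        omega
    · rcases Nat.lt_or_ge (b + 1) a with h5 | h5
      · have h6 := S.far (b - lo (i + 1)) (a - lo (i + 1)) (by omega) (by omega) (by
          show dcv (x (i + 1) (lo (i + 1) + (b - lo (i + 1))))
            (x (i + 1) (lo (i + 1) + (a - lo (i + 1)))) ≠ 0
          rw [show lo (i + 1) + (a - lo (i + 1)) = a by omega,
            show lo (i + 1) + (b - lo (i + 1)) = b by omega]
          have := StA_dcv_pos hv hz
          omega)
        omega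
      · rw [show a - 1 = b by omega] at h1
        have := StA_dcv_pos hv hz
        omega

/-- at most one inner element has a pendant -/
lemma S5c_pen (hS : S5c lo hi x i) : ∃ q, ∀ a, lo i < a → a ≤ hi i → a ≠ q →
    (pen (x (i + 1) a)).card = 0 := by
  rcases hS with ⟨-, -, h1⟩ | ⟨-, -, b, -, h1⟩ | ⟨-, -, b, -, h1⟩
  · exact ⟨0, fun a h2 h3 _ => h1 a h2 h3⟩
  · exact ⟨b, fun a h2 h3 h4 => by rw [h1 a h2 h3, if_neg h4]⟩
  · exact ⟨b, fun a h2 h3 h4 => by rw [h1 a h2 h3, if_neg h4]⟩

/-- S6.  All levels less than `j = i + 1` are good, `i ≥ 1`, and no element of level `j + 1` is below two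
maximal elements.  Then the defects of level `j` in the component of `t` are given by `c` (on the edges of
the path) and `β` (on the pair of the ends), of one of the forms of `PcPat`; `β ≠ 0` only if both ends are
single-up; an inner element with two lost edges has exactly one pendant. -/
theorem S6_pieces (h : GoodTo P r (i + 1)) (hi1 : 1 ≤ i) (hr : i + 2 ≤ r)
    (hno : ∀ z : P, lev z = i + 2 → ¬ Hul.Jn z) (ht : lev t = 0) (C : Comp P t (i + 1) lo hi x) :
    ∃ (c : ℕ → ℤ) (β : ℤ), PcPat (hi (i + 1) - lo (i + 1)) c β ∧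
      (∀ a b, lo (i + 1) ≤ a → a < b → b ≤ hi (i + 1) →
        (dcv (x (i + 1) a) (x (i + 1) b) : ℤ) - ucv (x (i + 1) a) (x (i + 1) b) =
          if b = a + 1 then c (a - lo (i + 1)) else
          if a = lo (i + 1) ∧ b = hi (i + 1) then β else 0) ∧
      (β ≠ 0 → (uc (x (i + 1) (lo (i + 1)))).card = 1 ∧ (uc (x (i + 1) (hi (i + 1)))).card = 1) ∧
      (∀ a, lo (i + 1) < a → a < hi (i + 1) → c (a - 1 - lo (i + 1)) = -1 →
        c (a - lo (i + 1)) = -1 → (pen (x (i + 1) a)).card = 1) := by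
  have S := C.rw_row h hi1 ht
  have hlohi := C.lohi (i + 1) le_rfl
  have hS5 := (near_level' h hi1).2 t lo hi x ht C
  set m := hi (i + 1) - lo (i + 1) with hm
  set X : ℕ → P := fun a => x (i + 1) (lo (i + 1) + a) with hX
  have hXe : ∀ a, lo (i + 1) ≤ a → X (a - lo (i + 1)) = x (i + 1) a := by
    intro a ha
    show x (i + 1) (lo (i + 1) + (a - lo (i + 1))) = x (i + 1) a
    congr 1
    omega
  have hSV : St.wt0 (i + 1) t = SV m X := by
    ext v
    unfold SV
    rw [St.mem_wt0, mem_image]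
    constructor
    · rintro ⟨h1, h2⟩
      obtain ⟨a, ha, hx⟩ := S.surj v h1 h2
      exact ⟨a, mem_range.2 (by omega), hx⟩
    · rintro ⟨a, ha, rfl⟩
      rw [mem_range] at ha
      exact ⟨S.lev_x a (by omega), S.le_t a (by omega)⟩
  have hmp : St.mp (Df (i + 1)) (SV m X) = 1 := by
    rw [← hSV]
    exact S6_mp h hno ht
  obtain ⟨q, hq⟩ := S5c_pen hS5
  have f1 := C.lo_le i (by omega)
  have f2 := C.lo_ge i (by omega)
  have f3 := C.hi_le i (by omega)
  have f4 := C.hi_ge i (by omega)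
  obtain ⟨c, β, hpat, hc, hβ⟩ := S.cases h.H hmp (p := q - 1 - lo (i + 1)) (by
    intro a ha hap
    by_contra hcon
    have h3 : 1 ≤ (pen (x (i + 1) (lo (i + 1) + a + 1))).card := by
      refine S6_pendant C h hi1 hr hno ht (by omega) (by omega) ?_ ?_
      · have : dcv (X a) (X (a + 1)) = 0 := by omega
        exact this
      · have : dcv (X (a + 1)) (X (a + 2)) = 0 := by omega
        exact this
    rw [hq (lo (i + 1) + a + 1) (by omega) (by omega) (by omega)] at h3
    omega)
  have hval : ∀ a b, lo (i + 1) ≤ a → a < b → b ≤ hi (i + 1) →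
      (dcv (x (i + 1) a) (x (i + 1) b) : ℤ) - ucv (x (i + 1) a) (x (i + 1) b) =
        Df (i + 1) {X (a - lo (i + 1)), X (b - lo (i + 1))} := by
    intro a b h1 h2 h3
    rw [hXe a h1, hXe b (by omega), Df_pair h.H (C.lev_x _ le_rfl a h1 (by omega))
      (C.inj _ le_rfl a b h1 h2 h3)]
  refine ⟨c, β, hpat, ?_, ?_, ?_⟩
  · intro a b h1 h2 h3
    rw [hval a b h1 h2 h3]
    split_ifs with h4 h5
    · have h6 := hc (a - lo (i + 1)) (by omega)
      rw [← h6, show b - lo (i + 1) = a - lo (i + 1) + 1 by omega]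
    · have h6 := hβ (by omega)
      rw [← h6, show a - lo (i + 1) = 0 by omega, show b - lo (i + 1) = m by omega]
    · exact S.onStrip h.H _ _ (by omega) (by omega) (by omega)
  · intro hβ0
    by_cases hm2 : 2 ≤ m
    · have h6 := hβ hm2
      rw [S.Df_ends h.H hm2] at h6
      have h7 : dcv (X 0) (X m) ≠ 0 := by
        intro h8
        rw [h8] at h6
        exact hβ0 (by rw [← h6]; norm_num)
      obtain ⟨-, -, h8, h9⟩ := S.far 0 m (by omega) le_rfl h7
      refine ⟨h8, ?_⟩
      have h10 : X m = x (i + 1) (hi (i + 1)) := by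
        show x (i + 1) (lo (i + 1) + m) = x (i + 1) (hi (i + 1))
        congr 1
        omega
      rw [← h10]
      exact h9
    · exfalso
      rcases hpat with ⟨e, -⟩ | ⟨e, -⟩ | ⟨e, -⟩ | ⟨e, -⟩ | ⟨e, -⟩ | ⟨e, -⟩ | ⟨e, -⟩ | ⟨e, -⟩
      · exact hβ0 e
      all_goals omega
  · intro a h1 h2 h3 h4
    have e1 : Df (i + 1) {X (a - 1 - lo (i + 1)), X (a - lo (i + 1))} = -1 := by
      rw [← h3, ← hc (a - 1 - lo (i + 1)) (by omega),
        show a - lo (i + 1) = a - 1 - lo (i + 1) + 1 by omega]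
    have e2 : Df (i + 1) {X (a - lo (i + 1)), X (a + 1 - lo (i + 1))} = -1 := by
      rw [← h4, ← hc (a - lo (i + 1)) (by omega),
        show a + 1 - lo (i + 1) = a - lo (i + 1) + 1 by omega]
    rw [← hval (a - 1) a (by omega) (by omega) (by omega),
      C.ucv_lt h ht le_rfl (by omega) (by omega) (by omega), if_pos (by omega)] at e1
    rw [← hval a (a + 1) (by omega) (by omega) (by omega),
      C.ucv_lt h ht le_rfl (by omega) (by omega) (by omega), if_pos rfl] at e2
    have h5 := S6_pendant C h hi1 hr hno ht h1 h2 (by omega) (by omega)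
    have h6 : (pen (x (i + 1) a)).card ≤ 1 := by
      rcases hS5 with ⟨-, -, g1⟩ | ⟨-, -, b, -, g1⟩ | ⟨-, -, b, -, g1⟩
      · rw [g1 a (by omega) (by omega)]
        omega
      · rw [g1 a (by omega) (by omega)]
        split_ifs <;> omega
      · rw [g1 a (by omega) (by omega)]
        split_ifs <;> omega
    omega

end Pool.Agent.GaussPoset.Win

end

/-! From `Pool.Agent.W_448t6_h16.TB` -/

section

/-! The difference of two identities, localised on the blocks (MP_448cb3_co). -/

namespace Pool.Agent.GaussPoset.St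

set_option linter.unusedSectionVars false

open Finset Polynomial

section ct

variable {α : Type*} [DecidableEq α] {A : Finset α → ℤ}

/-- the contribution of a block -/
noncomputable def ct (A th : Finset α → ℤ) (V : Finset α) : ℤ :=
  P2 V (fun e => th e * (Fm A V e - 1)) - 2 * ∑ v ∈ V, (gg A V v - 1)

variable {ι : Type*} [DecidableEq ι] {s : Finset ι} {W : ι → Finset α}

/-- the contributions of the blocks have sum zero -/
theorem Blk.sum_ct (B : Blk A s W) (ht : ∀ i ∈ s, Tight A (W i)) {Bf th : Finset α → ℤ}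
    {sg : α → ℤ}
    (hB : ∀ i ∈ s, ∀ j ∈ s, i ≠ j → ∀ u ∈ W i, ∀ w ∈ W j, Bf {u, w} = 0)
    (hth : ∀ i ∈ s, ∀ j ∈ s, i ≠ j → ∀ u ∈ W i, ∀ w ∈ W j, th {u, w} = 0)
    (h6 : ∑ u ∈ s.biUnion W, ∑ w ∈ (s.biUnion W).erase u, Bf {u, w} *
        (Fm A (s.biUnion W) {u, w} + Fm A (s.biUnion W) {u} + Fm A (s.biUnion W) {w} - 3) +
      2 * ∑ u ∈ s.biUnion W, ∑ w ∈ (s.biUnion W).erase u, th {u, w} *
        Fm A (s.biUnion W) {u, w} =
      4 * ∑ v ∈ s.biUnion W, (gg A (s.biUnion W) v - 1) -
        4 * ∑ v ∈ s.biUnion W, sg v * (Fm A (s.biUnion W) {v} - 1))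
    (h21 : 2 * ∑ u ∈ s.biUnion W, ∑ w ∈ (s.biUnion W).erase u, th {u, w} +
      4 * ∑ v ∈ s.biUnion W, dg A (s.biUnion W) v * sg v +
      4 * ∑ v ∈ s.biUnion W, dg A (s.biUnion W) v * dg Bf (s.biUnion W) v -
      ∑ u ∈ s.biUnion W, ∑ w ∈ (s.biUnion W).erase u, A {u, w} * Bf {u, w} = 0) :
    ∑ i ∈ s, ct A th (W i) = 0 := by
  set V := s.biUnion W with hV
  have hF1 : ∀ v ∈ V, Fm A V {v} = 1 + dg A V v := by
    intro v hv
    obtain ⟨i, hi, h1⟩ := mem_biUnion.1 hv
    rw [hV, B.Fm_loc hi (singleton_subset_iff.2 h1), B.dg_loc hi h1]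
    exact (ht i hi).F_one (B.one i hi) h1
  have hS : ∑ u ∈ V, ∑ w ∈ V.erase u, Bf {u, w} *
      (Fm A V {u, w} + Fm A V {u} + Fm A V {w} - 3) =
      ∑ u ∈ V, ∑ w ∈ V.erase u, (Bf {u, w} * (2 * dg A V u + 2 * dg A V w) -
        A {u, w} * Bf {u, w}) := by
    refine sum_congr rfl fun u hu => sum_congr rfl fun w hw => ?_
    rw [mem_erase] at hw
    obtain ⟨i, hi, h1⟩ := mem_biUnion.1 hu
    obtain ⟨j, hj, h2⟩ := mem_biUnion.1 hw.2
    by_cases hij : i = j
    · subst hij
      have h3 : Fm A V {u, w} = 1 + dg A V u + dg A V w - A {u, w} := by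
        rw [hV, B.Fm_loc hi, B.dg_loc hi h1, B.dg_loc hi h2]
        · exact (ht i hi).F_two (B.one i hi) h1 h2 hw.1.symm
        · intro x hx
          rw [mem_insert, mem_singleton] at hx
          rcases hx with rfl | rfl
          · exact h1
          · exact h2
      rw [h3, hF1 u hu, hF1 w hw.2]
      ring
    · rw [hB i hi j hj hij u h1 w h2]
      ring
  have hD : ∑ v ∈ V, dg A V v * dg Bf V v = ∑ u ∈ V, ∑ w ∈ V.erase u, Bf {u, w} * dg A V u := by
    refine sum_congr rfl fun u _ => ?_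
    rw [show dg Bf V u = ∑ w ∈ V.erase u, Bf {u, w} from rfl, mul_sum]
    exact sum_congr rfl fun w _ => mul_comm _ _
  have hD2 : ∑ u ∈ V, ∑ w ∈ V.erase u, Bf {u, w} * dg A V u =
      ∑ u ∈ V, ∑ w ∈ V.erase u, Bf {u, w} * dg A V w := by
    rw [sum_swap (V := V) (fun u w => Bf {u, w} * dg A V u)]
    refine sum_congr rfl fun u _ => sum_congr rfl fun w _ => ?_
    rw [pair_comm]
  have hsg : ∑ v ∈ V, sg v * (Fm A V {v} - 1) = ∑ v ∈ V, dg A V v * sg v := by
    refine sum_congr rfl fun v hv => ?_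
    rw [hF1 v hv]
    ring
  have hS2 : ∑ u ∈ V, ∑ w ∈ V.erase u, (Bf {u, w} * (2 * dg A V u + 2 * dg A V w) -
        A {u, w} * Bf {u, w}) = 2 * ∑ u ∈ V, ∑ w ∈ V.erase u, Bf {u, w} * dg A V u +
        2 * ∑ u ∈ V, ∑ w ∈ V.erase u, Bf {u, w} * dg A V w -
        ∑ u ∈ V, ∑ w ∈ V.erase u, A {u, w} * Bf {u, w} := by
    simp only [mul_sum, ← sum_add_distrib, ← sum_sub_distrib]
    refine sum_congr rfl fun u _ => sum_congr rfl fun w _ => ?_
    ring
  have hth2 : ∑ u ∈ V, ∑ w ∈ V.erase u, th {u, w} * Fm A V {u, w} -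
      ∑ u ∈ V, ∑ w ∈ V.erase u, th {u, w} =
      ∑ u ∈ V, ∑ w ∈ V.erase u, th {u, w} * (Fm A V {u, w} - 1) := by
    simp only [← sum_sub_distrib]
    refine sum_congr rfl fun u _ => sum_congr rfl fun w _ => ?_
    ring
  have hmain : ∑ u ∈ V, ∑ w ∈ V.erase u, th {u, w} * (Fm A V {u, w} - 1) =
      2 * ∑ v ∈ V, (gg A V v - 1) := by
    rw [← hth2]
    rw [hS, hS2, hsg, ← hD2, ← hD] at h6
    linarith
  have hL : ∑ u ∈ V, ∑ w ∈ V.erase u, th {u, w} * (Fm A V {u, w} - 1) =
      ∑ i ∈ s, P2 (W i) (fun e => th e * (Fm A (W i) e - 1)) := by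
    rw [hV, Blk.sum2_loc (g := fun u w => th {u, w} * (Fm A (s.biUnion W) {u, w} - 1)) B.disj]
    · refine sum_congr rfl fun i hi => ?_
      unfold P2
      refine sum_congr rfl fun u hu => sum_congr rfl fun w hw => ?_
      rw [B.Fm_loc hi]
      intro x hx
      rw [mem_insert, mem_singleton] at hx
      rcases hx with rfl | rfl
      · exact hu
      · exact mem_of_mem_erase hw
    · intro i hi j hj hij u hu w hw
      rw [hth i hi j hj hij u hu w hw, zero_mul]
  have hR : ∑ v ∈ V, (gg A V v - 1) = ∑ i ∈ s, ∑ v ∈ W i, (gg A (W i) v - 1) := by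
    rw [hV, sum_biUnion (fun i hi j hj hij => B.disj i hi j hj hij)]
    refine sum_congr rfl fun i hi => sum_congr rfl fun v hv => ?_
    rw [B.gg_loc hi hv]
  rw [hL, hR] at hmain
  unfold ct
  rw [sum_sub_distrib, hmain, mul_sum]
  ring

/-- no edges: the contribution is zero -/
lemma ct_zero {V : Finset α} {th : Finset α → ℤ}
    (h : ∀ u ∈ V, ∀ w ∈ V, u ≠ w → A {u, w} = 0) : ct A th V = 0 := by
  have hF : ∀ T, Fm A V T = 1 := fun T => Fm_of_zero fun u hu w hw huw =>
    h u (mem_sdiff.1 hu).1 w (mem_sdiff.1 hw).1 huw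
  have hg : ∀ v ∈ V, gg A V v = 1 := by
    intro v hv
    rw [gg_sub (N := ∅) (empty_subset _)]
    · rw [powerset_empty, sum_singleton, prod_empty, one_mul, hF]
    · intro y hy _
      exact h v hv y (mem_of_mem_erase hy) (ne_of_mem_erase hy).symm
  unfold ct P2
  rw [sum_eq_zero, sum_eq_zero]
  · ring
  · intro v hv
    rw [hg v hv]
    ring
  · intro u _
    refine sum_eq_zero fun w _ => ?_
    beta_reduce
    rw [hF]
    ring

/-- at most three vertices: the contribution is the sum of the squares -/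
lemma ct_small {V : Finset α} {th : Finset α → ℤ} (hV : V.card ≤ 3) (h1 : mp A V = 1) :
    0 ≤ ct A th V ∧ (ct A th V = 0 → ∀ u ∈ V, ∀ w ∈ V, u ≠ w → A {u, w} = 0) := by
  rcases Nat.lt_or_ge V.card 3 with h3 | h3
  · have hz : ∀ u ∈ V, ∀ w ∈ V, u ≠ w → A {u, w} = 0 := by
      intro u hu w hw huw
      have hV2 : V = {u, w} := by
        symm
        apply eq_of_subset_of_card_le
        · intro x hx
          rw [mem_insert, mem_singleton] at hx
          rcases hx with rfl | rfl
          · exact hu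
          · exact hw
        · rw [card_pair huw]
          omega
      rw [hV2, mp_two huw] at h1
      have h4 := congrArg (fun p : Polynomial ℤ => p.coeff 1) h1
      simpa [Polynomial.coeff_one] using h4
    rw [ct_zero hz]
    exact ⟨le_rfl, fun _ => hz⟩
  · obtain ⟨a, b, c, hab, hac, hbc, rfl⟩ := card_eq_three.1 (le_antisymm hV h3)
    have hg := sum_gg_three hab hac hbc h1
    have hs := sum_three hab hac hbc h1
    have hF : ∀ u ∈ ({a, b, c} : Finset α), ∀ w ∈ ({a, b, c} : Finset α), u ≠ w →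
        Fm A {a, b, c} {u, w} = 1 := by
      intro u hu w hw huw
      refine Fm_of_zero ?_
      intro x hx y hy hxy
      exfalso
      rw [mem_sdiff] at hx hy
      have h5 : ({u, w, x, y} : Finset α) ⊆ {a, b, c} := by
        intro z hz
        simp only [mem_insert, mem_singleton] at hz
        rcases hz with rfl | rfl | rfl | rfl
        · exact hu
        · exact hw
        · exact hx.1
        · exact hy.1
      have h6 := card_le_card h5
      have h7 : ({u, w, x, y} : Finset α).card = 4 := by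
        rw [card_insert_of_notMem, card_insert_of_notMem, card_pair hxy]
        · intro h8
          rw [mem_insert, mem_singleton] at h8
          rcases h8 with rfl | rfl
          · exact hx.2 (by simp)
          · exact hy.2 (by simp)
        · intro h8
          rw [mem_insert, mem_insert, mem_singleton] at h8
          rcases h8 with h8 | rfl | rfl
          · exact huw h8
          · exact hx.2 (by simp)
          · exact hy.2 (by simp)
      omega
    have hct : ct A th {a, b, c} = A {a, b} ^ 2 + A {a, c} ^ 2 + A {b, c} ^ 2 := by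
      unfold ct P2
      rw [sum_eq_zero]
      · linarith
      · intro u hu
        refine sum_eq_zero fun w hw => ?_
        beta_reduce
        rw [hF u hu w (mem_of_mem_erase hw) (ne_of_mem_erase hw).symm]
        ring
    rw [hct]
    have q1 := sq_nonneg (A {a, b})
    have q2 := sq_nonneg (A {a, c})
    have q3 := sq_nonneg (A {b, c})
    refine ⟨by linarith, fun h0 => ?_⟩
    have z1 : A {a, b} = 0 := by
      have : A {a, b} ^ 2 = 0 := by linarith
      exact pow_eq_zero_iff (two_ne_zero) |>.1 this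
    have z2 : A {a, c} = 0 := by
      have : A {a, c} ^ 2 = 0 := by linarith
      exact pow_eq_zero_iff (two_ne_zero) |>.1 this
    have z3 : A {b, c} = 0 := by
      have : A {b, c} ^ 2 = 0 := by linarith
      exact pow_eq_zero_iff (two_ne_zero) |>.1 this
    intro u hu w hw huw
    simp only [mem_insert, mem_singleton] at hu hw
    rcases hu with rfl | rfl | rfl <;> rcases hw with rfl | rfl | rfl <;>
      first
        | exact absurd rfl huw
        | assumption
        | (rw [pair_comm]; assumption)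

/-- one star -/
lemma ct_star {V : Finset α} {th : Finset α → ℤ} {d : α × α × α} (H : Starry A V {d}) :
    ct A th V = P2 V (fun e => th e * (Fm A V e - 1)) + 2 := by
  unfold ct
  rw [H.sum_gg, card_singleton]
  ring

end ct

end Pool.Agent.GaussPoset.St

end

/-! From `Pool.Agent.W_448t6_h94.TsP` -/

section

/-! The first order identity at `s = -1`, final forms (MP_448cb3_co). -/

namespace Pool.Agent.GaussPoset.Win

open Finset

namespace T6N

set_option linter.unusedSectionVars false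

universe u

variable {P : Type u} [Fintype P] [PartialOrder P] [DecidableEq P] {r : ℕ} {i : ℕ}

/-- sum over the fibres of a map to pairs -/
lemma sum_fibre {S V : Finset P} {g : P → Finset P} (hg : ∀ x ∈ S, g x ∈ V.powersetCard 2)
    (f : Finset P → ℤ) :
    ∑ x ∈ S, f (g x) =
      ∑ e ∈ V.powersetCard 2, ((S.filter (fun x => g x = e)).card : ℤ) * f e := by
  rw [← sum_fiberwise_of_maps_to hg]
  refine sum_congr rfl fun e _ => ?_
  have h1 : ∀ x ∈ S.filter (fun x => g x = e), f (g x) = f e := by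
    intro x hx
    rw [(mem_filter.1 hx).2]
  rw [sum_congr rfl h1, sum_const, nsmul_eq_mul]

lemma dbl_pair (H : Gr P r) {x : P} (hx : x ∈ dbL P i ∪ dbU P i) :
    ns i x ∈ (lv P i).powersetCard 2 := by
  rw [mem_powersetCard]
  refine ⟨fun v hv => ?_, ns_card hx⟩
  rw [mem_lv]
  exact ns_lv H (dbl_near hx) hv

lemma Bf_card (T : Finset P) :
    (((dbL P i ∪ dbU P i).filter (fun x => ns i x = T)).card : ℤ) = St.Bf i T := by
  have h1 : (dbL P i ∪ dbU P i).filter (fun x => ns i x = T) = CoreC_L i T ∪ CoreC_U i T := by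
    ext x
    rw [mem_filter, mem_union, mem_union, mem_CoreC_L, mem_CoreC_U]
    constructor
    · rintro ⟨h | h, h2⟩
      · rw [ns_L h] at h2
        exact Or.inl ⟨h, h2⟩
      · rw [ns_U h] at h2
        exact Or.inr ⟨h, h2⟩
    · rintro (⟨h, h2⟩ | ⟨h, h2⟩)
      · exact ⟨Or.inl h, by rw [ns_L h]; exact h2⟩
      · exact ⟨Or.inr h, by rw [ns_U h]; exact h2⟩
  have h2 : Disjoint (CoreC_L i T) (CoreC_U i T) := by
    rw [disjoint_left]
    intro x hx hy
    have h3 := (mem_dbL.1 (mem_CoreC_L.1 hx).1).1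
    have h4 := (mem_dbU.1 (mem_CoreC_U.1 hy).1).1
    omega
  rw [h1, card_union_of_disjoint h2]
  unfold St.Bf
  push_cast
  ring

lemma sgl_sum (H : Gr P r) (f : Finset P → ℤ) :
    ∑ h ∈ sgl P i, f (ns i h) = ∑ v ∈ lv P i, sing v * f {v} := by
  classical
  have h1 : ∀ h ∈ sgl P i, f (ns i h) = ∑ v ∈ lv P i, if v ∈ ns i h then f {v} else 0 := by
    intro h hh
    rw [mem_sgl] at hh
    obtain ⟨u, hu⟩ := card_eq_one.1 hh.2
    have hul : u ∈ lv P i := by
      rw [mem_lv]
      exact ns_lv H hh.1 (by rw [hu]; exact mem_singleton_self _)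
    rw [sum_eq_single_of_mem u hul]
    · rw [hu, if_pos (mem_singleton_self _)]
    · intro v _ hv
      rw [if_neg]
      rw [hu, mem_singleton]
      exact hv
  rw [sum_congr rfl h1, sum_comm]
  refine sum_congr rfl fun v hv => ?_
  rw [← sum_filter, sum_const, nsmul_eq_mul]
  congr 1
  rw [← cnt_sg H (mem_lv.1 hv)]
  have h2 : (sgl P i).filter (fun h => v ∈ ns i h) =
      (sgL P i).filter (fun w => v ∈ uc w) ∪ (sgU P i).filter (fun u => v ∈ dc u) := by
    ext x
    unfold sgL sgU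
    simp only [mem_filter, mem_union, mem_univ, true_and, mem_sgl, mem_near]
    constructor
    · rintro ⟨⟨h | h, h3⟩, h4⟩
      · rw [nsl h] at h3 h4
        exact Or.inl ⟨⟨h, h3⟩, h4⟩
      · rw [nsu h] at h3 h4
        exact Or.inr ⟨⟨h, h3⟩, h4⟩
    · rintro (⟨⟨h, h3⟩, h4⟩ | ⟨⟨h, h3⟩, h4⟩)
      · rw [← nsl h] at h3 h4
        exact ⟨⟨Or.inl h, h3⟩, h4⟩
      · rw [← nsu h] at h3 h4
        exact ⟨⟨Or.inr h, h3⟩, h4⟩
  have h3 : Disjoint ((sgL P i).filter (fun w => v ∈ uc w))
      ((sgU P i).filter (fun u => v ∈ dc u)) := by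
    rw [disjoint_left]
    intro x hx hy
    unfold sgL at hx
    unfold sgU at hy
    simp only [mem_filter, mem_univ, true_and] at hx hy
    omega
  rw [h2, card_union_of_disjoint h3]
  push_cast
  ring

/-- number of elements of `PD` hanging at the site `T` -/
noncomputable def thD (i : ℕ) (T : Finset P) : ℤ :=
  ((PD P i).filter (fun z => (uc z).biUnion (ns i) = T)).card

/-- number of elements of `PU` hanging at the site `T` -/
noncomputable def thU (i : ℕ) (T : Finset P) : ℤ :=
  ((PU P i).filter (fun z => (dc z).biUnion (ns i) = T)).card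

lemma PD_site {z w : P} (hz : z ∈ PD P i) (hw : z ⋖ w) (H : Gr P r) :
    (uc z).biUnion (ns i) = uc w := by
  rw [mem_PD] at hz
  obtain ⟨h1, h2, _⟩ := hz
  obtain ⟨u, hu⟩ := card_eq_one.1 h2
  have h3 : w ∈ uc z := mem_uc.2 hw
  rw [hu, mem_singleton] at h3
  subst h3
  rw [hu, singleton_biUnion, nsl]
  have := (H.covBy_iff.1 hw).2
  omega

lemma PD_pair (H : Gr P r) {z : P} (hz : z ∈ PD P i) :
    (uc z).biUnion (ns i) ∈ (lv P i).powersetCard 2 := by
  have hz' := hz
  rw [mem_PD] at hz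
  obtain ⟨h1, h2, w, hw, h4⟩ := hz
  rw [PD_site hz' hw H, mem_powersetCard]
  refine ⟨fun v hv => ?_, h4⟩
  rw [mem_lv]
  have h5 := (H.covBy_iff.1 hw).2
  have h6 := lev_uc H hv
  omega

lemma PU_pair (H : Gr P r) {z : P} (hz : z ∈ PU P i) :
    (dc z).biUnion (ns i) ∈ (lv P i).powersetCard 2 := by
  rw [mem_PU] at hz
  obtain ⟨h1, h2, w, hw, h4⟩ := hz
  obtain ⟨u, hu⟩ := card_eq_one.1 h2
  have h3 : w ∈ dc z := mem_dc.2 hw
  rw [hu, mem_singleton] at h3
  subst h3
  have h5 := (H.covBy_iff.1 hw).2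
  rw [hu, singleton_biUnion, nsu (by omega), mem_powersetCard]
  refine ⟨fun v hv => ?_, h4⟩
  rw [mem_lv]
  have h6 := lev_dc H hv
  omega

lemma thD_nonneg (i : ℕ) (T : Finset P) : 0 ≤ thD i T := by
  unfold thD
  positivity

/-- T6, the first order identity at `s = -1`, in terms of the pairs of sites -/
theorem T6pairs (H : Gr P r) (hi : i ≤ r) (h3 : ∀ x : P, lev x + 2 = i → dn i x ≤ 3) :
    ∑ e ∈ (lv P i).powersetCard 2, St.Bf i e * (∑ v ∈ e, ph i {v} + ph i e - 3) +
      2 * ∑ v ∈ lv P i, sing v * (ph i {v} - 1) - 2 * ∑ v ∈ lv P i, (GG i v - 1) +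
      2 * ∑ e ∈ (lv P i).powersetCard 2, (thD i e - thU i e) * ph i e = 0 := by
  have h := T6elem H hi h3
  have e1 : ∑ x ∈ dbL P i ∪ dbU P i, (∑ a ∈ ns i x, ph i {a} + ph i (ns i x) - 3) =
      ∑ e ∈ (lv P i).powersetCard 2, St.Bf i e * (∑ v ∈ e, ph i {v} + ph i e - 3) := by
    rw [sum_fibre (V := lv P i) (g := ns i) (fun x hx => dbl_pair H hx)
      (fun e => ∑ a ∈ e, ph i {a} + ph i e - 3)]
    refine sum_congr rfl fun e _ => ?_
    rw [Bf_card]
  have e2 : ∑ h ∈ sgl P i, (ph i (ns i h) - 1) = ∑ v ∈ lv P i, sing v * (ph i {v} - 1) :=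
    sgl_sum H (fun T => ph i T - 1)
  have e3 : ∑ z ∈ PD P i, ph i ((uc z).biUnion (ns i)) =
      ∑ e ∈ (lv P i).powersetCard 2, thD i e * ph i e :=
    sum_fibre (V := lv P i) (g := fun z => (uc z).biUnion (ns i)) (fun x hx => PD_pair H hx) _
  have e4 : ∑ z ∈ PU P i, ph i ((dc z).biUnion (ns i)) =
      ∑ e ∈ (lv P i).powersetCard 2, thU i e * ph i e :=
    sum_fibre (V := lv P i) (g := fun z => (dc z).biUnion (ns i)) (fun x hx => PU_pair H hx) _
  have e5 : ∑ e ∈ (lv P i).powersetCard 2, (thD i e - thU i e) * ph i e =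
      ∑ e ∈ (lv P i).powersetCard 2, thD i e * ph i e -
        ∑ e ∈ (lv P i).powersetCard 2, thU i e * ph i e := by
    rw [← sum_sub_distrib]
    exact sum_congr rfl fun e _ => by ring
  rw [e1, e2, e3, e4] at h
  rw [e5]
  linarith

/-- T6, ordered form -/
theorem T6ord (H : Gr P r) (hi : i ≤ r) (h3 : ∀ x : P, lev x + 2 = i → dn i x ≤ 3) :
    ∑ u ∈ lv P i, ∑ w ∈ (lv P i).erase u, St.Bf i {u, w} *
        (St.Fm (Df i) (lv P i) {u, w} + St.Fm (Df i) (lv P i) {u} +
          St.Fm (Df i) (lv P i) {w} - 3) +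
      2 * ∑ u ∈ lv P i, ∑ w ∈ (lv P i).erase u,
        (thD i {u, w} - thU i {u, w}) * St.Fm (Df i) (lv P i) {u, w} =
      4 * ∑ v ∈ lv P i, (St.gg (Df i) (lv P i) v - 1) -
        4 * ∑ v ∈ lv P i, sing v * (St.Fm (Df i) (lv P i) {v} - 1) := by
  refine St.h6_of (A := Df i) (V := lv P i) (B := St.Bf i) (th := fun T => thD i T - thU i T)
    (sg := sing) (f := ph i) (g := GG i) (ph_eq H) ?_ (T6pairs H hi h3)
  intro v hv
  rw [GG_eq H hv]
  unfold St.gg
  refine sum_congr rfl fun S _ => ?_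
  rw [ph_eq H]

end T6N

universe u

variable {P : Type u} [Fintype P] [PartialOrder P] [DecidableEq P] {r : ℕ}

end Pool.Agent.GaussPoset.Win

end

/-! From `Pool.Agent.W_448t6_h16.TC` -/

section

/-!
# T6 at the first bad level (MP_448cb3_co)

All levels less than `j` are good, no element of level `j + 1` is below two maximal elements, and in
every component of level `j` there are no two disjoint pairs of sites with nonzero defects.  Then the
contributions `ct` of the components have sum zero.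
-/

namespace Pool.Agent.GaussPoset.Win

set_option linter.unusedSectionVars false

open Finset

universe u

variable {P : Type u} [Fintype P] [PartialOrder P] [DecidableEq P] {r j : ℕ}

lemma T6_Bf (H : Gr P r) {v v' : P} (hv : lev v = j) (hne : v ≠ v') :
    St.Bf j {v, v'} = (dcv v v' : ℤ) + (ucv v v' : ℤ) := by
  unfold St.Bf
  rw [CoreC_L_pair H hv hne, CoreC_U_pair H hv hne]

/-- the sites of an element of `PD` have a common lower cover -/
lemma T6_thD (H : Gr P r) {u w : P} (h : T6N.thD j {u, w} ≠ 0) : 1 ≤ dcv u w := by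
  unfold T6N.thD at h
  have h1 : ((PD P j).filter (fun z => (uc z).biUnion (ns j) = {u, w})).card ≠ 0 := by
    intro h2
    rw [h2] at h
    exact h rfl
  obtain ⟨z, hz⟩ := card_pos.1 (Nat.pos_of_ne_zero h1)
  rw [mem_filter] at hz
  obtain ⟨hz1, hz2⟩ := hz
  obtain ⟨-, -, y, hy, -⟩ := mem_PD.1 hz1
  rw [T6N.PD_site hz1 hy H] at hz2
  have h3 : u ∈ uc y := by
    rw [hz2]
    exact mem_insert_self _ _
  have h4 : w ∈ uc y := by
    rw [hz2]
    exact mem_insert_of_mem (mem_singleton_self _)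
  exact StA_dcv_pos (mem_uc.1 h3) (mem_uc.1 h4)

/-- the sites of an element of `PU` have a common upper cover -/
lemma T6_thU (H : Gr P r) {u w : P} (h : T6N.thU j {u, w} ≠ 0) : 1 ≤ ucv u w := by
  unfold T6N.thU at h
  have h1 : ((PU P j).filter (fun z => (dc z).biUnion (ns j) = {u, w})).card ≠ 0 := by
    intro h2
    rw [h2] at h
    exact h rfl
  obtain ⟨z, hz⟩ := card_pos.1 (Nat.pos_of_ne_zero h1)
  rw [mem_filter] at hz
  obtain ⟨hz1, hz2⟩ := hz
  obtain ⟨hl, h5, y, hy, -⟩ := mem_PU.1 hz1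
  obtain ⟨y', hy'⟩ := card_eq_one.1 h5
  have h6 : y = y' := by
    have : y ∈ dc z := mem_dc.2 hy
    rw [hy', mem_singleton] at this
    exact this
  subst h6
  have h7 := lev_cov H hy
  have h8 : ns j y = dc y := by
    unfold ns
    rw [if_neg]
    omega
  rw [hy', singleton_biUnion, h8] at hz2
  have h3 : u ∈ dc y := by
    rw [hz2]
    exact mem_insert_self _ _
  have h4 : w ∈ dc y := by
    rw [hz2]
    exact mem_insert_of_mem (mem_singleton_self _)
  exact StA_ucv_pos (mem_dc.1 h3) (mem_dc.1 h4)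

lemma T6N.thU_nonneg (i : ℕ) (T : Finset P) : 0 ≤ T6N.thU i T := by
  unfold T6N.thU
  positivity

/-- the number of elements of `PD` -/
lemma T6_card_PD (H : Gr P r) : ∑ u ∈ lv P j, ∑ w ∈ (lv P j).erase u, T6N.thD j {u, w} =
    2 * ((PD P j).card : ℤ) := by
  have h1 := T6N.sum_fibre (S := PD P j) (V := lv P j) (g := fun z => (uc z).biUnion (ns j))
    (fun x hx => T6N.PD_pair H hx) (fun _ => 1)
  have h2 := St.two_mul_pairs (V := lv P j) (T6N.thD j)
  unfold St.P2 at h2
  rw [← h2]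
  unfold T6N.thD
  simp only [sum_const, nsmul_eq_mul, mul_one] at h1
  rw [h1]

/-- the number of elements of `PU` -/
lemma T6_card_PU (H : Gr P r) : ∑ u ∈ lv P j, ∑ w ∈ (lv P j).erase u, T6N.thU j {u, w} =
    2 * ((PU P j).card : ℤ) := by
  have h1 := T6N.sum_fibre (S := PU P j) (V := lv P j) (g := fun z => (dc z).biUnion (ns j))
    (fun x hx => T6N.PU_pair H hx) (fun _ => 1)
  have h2 := St.two_mul_pairs (V := lv P j) (T6N.thU j)
  unfold St.P2 at h2
  rw [← h2]
  unfold T6N.thU
  simp only [sum_const, nsmul_eq_mul, mul_one] at h1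
  rw [h1]

/-- identity (21) in terms of the defects -/
theorem T6_21 (H : Gr P r) (hj : 1 ≤ j) (hr : j + 1 ≤ r) :
    2 * ∑ u ∈ lv P j, ∑ w ∈ (lv P j).erase u, (T6N.thD j {u, w} - T6N.thU j {u, w}) +
      4 * ∑ v ∈ lv P j, St.dg (Df j) (lv P j) v * sing v +
      4 * ∑ v ∈ lv P j, St.dg (Df j) (lv P j) v * St.dg (St.Bf j) (lv P j) v -
      ∑ u ∈ lv P j, ∑ w ∈ (lv P j).erase u, Df j {u, w} * St.Bf j {u, w} = 0 := by
  rcases Nat.lt_or_ge (lv P j).card 2 with hb | hb
  · have key : ∀ v ∈ lv P j, (lv P j).erase v = ∅ := by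
      intro v hv
      rw [← Finset.card_eq_zero, Finset.card_erase_of_mem hv]
      omega
    have e1 : ∑ u ∈ lv P j, ∑ w ∈ (lv P j).erase u, (T6N.thD j {u, w} - T6N.thU j {u, w}) = 0 :=
      sum_eq_zero fun u hu => by rw [key u hu, sum_empty]
    have e2 : ∑ v ∈ lv P j, St.dg (Df j) (lv P j) v * sing v = 0 :=
      sum_eq_zero fun u hu => by
        unfold St.dg
        rw [key u hu, sum_empty, zero_mul]
    have e3 : ∑ v ∈ lv P j, St.dg (Df j) (lv P j) v * St.dg (St.Bf j) (lv P j) v = 0 :=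
      sum_eq_zero fun u hu => by
        unfold St.dg
        rw [key u hu, sum_empty, zero_mul]
    have e4 : ∑ u ∈ lv P j, ∑ w ∈ (lv P j).erase u, Df j {u, w} * St.Bf j {u, w} = 0 :=
      sum_eq_zero fun u hu => by rw [key u hu, sum_empty]
    rw [e1, e2, e3, e4]
    norm_num
  · have h := E21 H hj hr hb
    have hA : ∀ v ∈ lv P j, St.dg (Df j) (lv P j) v = dgD j v - dgT j v := by
      intro v hv
      unfold St.dg dgD dgT
      rw [← sum_sub_distrib]
      refine sum_congr rfl fun w hw => ?_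
      exact Df_pair H (mem_lv.1 hv) (ne_of_mem_erase hw).symm
    have hB : ∀ v ∈ lv P j, St.dg (St.Bf j) (lv P j) v = dgD j v + dgT j v := by
      intro v hv
      unfold St.dg dgD dgT
      rw [← sum_add_distrib]
      refine sum_congr rfl fun w hw => ?_
      exact T6_Bf H (mem_lv.1 hv) (ne_of_mem_erase hw).symm
    have e1 : ∑ u ∈ lv P j, ∑ w ∈ (lv P j).erase u, (T6N.thD j {u, w} - T6N.thU j {u, w}) =
        2 * ((PD P j).card : ℤ) - 2 * ((PU P j).card : ℤ) := by
      rw [← T6_card_PD H, ← T6_card_PU H]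
      simp only [← sum_sub_distrib]
    have e2 : ∑ v ∈ lv P j, St.dg (Df j) (lv P j) v * sing v =
        ∑ v ∈ lv P j, (dgD j v - dgT j v) * sing v :=
      sum_congr rfl fun v hv => by rw [hA v hv]
    have e3 : ∑ v ∈ lv P j, St.dg (Df j) (lv P j) v * St.dg (St.Bf j) (lv P j) v =
        ∑ v ∈ lv P j, (dgD j v ^ 2 - dgT j v ^ 2) :=
      sum_congr rfl fun v hv => by
        rw [hA v hv, hB v hv]
        ring
    have e4 : ∑ u ∈ lv P j, ∑ w ∈ (lv P j).erase u, Df j {u, w} * St.Bf j {u, w} =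
        ∑ v ∈ lv P j, ∑ v' ∈ (lv P j).erase v, ((dcv v v' : ℤ) ^ 2 - (ucv v v' : ℤ) ^ 2) :=
      sum_congr rfl fun v hv => sum_congr rfl fun w hw => by
        rw [Df_pair H (mem_lv.1 hv) (ne_of_mem_erase hw).symm,
          T6_Bf H (mem_lv.1 hv) (ne_of_mem_erase hw).symm]
        ring
    rw [e1, e2, e3, e4]
    linarith

/-- the components of the first bad level, if there are no joins -/
lemma T6_blk (h : GoodTo P r j) (hno : ∀ z : P, lev z = j + 1 → ¬ Hul.Jn z) :
    St.Blk (Df j) (lv P 0) (St.wt0 j) where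
  disj := by
    intro t ht t' ht' hne
    rw [disjoint_left]
    intro v hv hv'
    exact (S6_cross h hno ht ht' hne hv hv').1 rfl
  zero := by
    intro t ht t' ht' hne u hu w hw
    obtain ⟨h2, h3, h4⟩ := S6_cross h hno ht ht' hne hu hw
    rw [Df_pair h.H (St.mem_wt0.1 hu).1 h2, h3, h4]
    simp
  one := fun t ht => S6_mp h hno (mem_lv.1 ht)

/-- T6 minus (21), localised on the components -/
theorem T6_sum (h : GoodTo P r j) (hj : 1 ≤ j) (hr : j + 1 ≤ r)
    (hno : ∀ z : P, lev z = j + 1 → ¬ Hul.Jn z)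
    (ht : ∀ t : P, lev t = 0 → St.Tight (Df j) (St.wt0 j t)) :
    ∑ t ∈ lv P 0, St.ct (Df j) (fun e => T6N.thD j e - T6N.thU j e) (St.wt0 j t) = 0 := by
  have h3 : ∀ x : P, lev x + 2 = j → dn j x ≤ 3 := by
    intro x hx
    have h4 := dn_le_three h.H (k := lev x) (h.good (lev x + 1) (by omega)) rfl
    rw [hx] at h4
    exact h4
  have h6 := T6N.T6ord h.H h.hr h3
  have h21 := T6_21 h.H hj hr
  have hV := St.lv_eq (P := P) j
  refine (T6_blk h hno).sum_ct (Bf := St.Bf j) (th := fun e => T6N.thD j e - T6N.thU j e)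
    (sg := sing) (fun t ht' => ht t (mem_lv.1 ht')) ?_ ?_ ?_ ?_
  · intro t ht t' ht' hne u hu w hw
    obtain ⟨h2, h3, h4⟩ := S6_cross h hno ht ht' hne hu hw
    rw [T6_Bf h.H (St.mem_wt0.1 hu).1 h2, h3, h4]
    simp
  · intro t ht t' ht' hne u hu w hw
    obtain ⟨h2, h3, h4⟩ := S6_cross h hno ht ht' hne hu hw
    have e1 : T6N.thD j {u, w} = 0 := by
      by_contra hcon
      have := T6_thD h.H hcon
      omega
    have e2 : T6N.thU j {u, w} = 0 := by
      by_contra hcon
      have := T6_thU h.H hcon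
      omega
    show T6N.thD j {u, w} - T6N.thU j {u, w} = 0
    rw [e1, e2, sub_zero]
  · rw [← hV]
    exact h6
  · rw [← hV]
    exact h21

end Pool.Agent.GaussPoset.Win

end

/-! From `Pool.Agent.W_448t6_h16.TD` -/

section

/-!
# T6 at the first bad level (MP_448cb3_co): rotations

Final form of row 474.
-/

namespace Pool.Agent.GaussPoset.Win

set_option linter.unusedSectionVars false

open Finset

universe u

variable {P : Type u} [Fintype P] [PartialOrder P] [DecidableEq P] {r j : ℕ} {t : P} {m : ℕ}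
  {x : ℕ → P}

/-- a rotated row: new pair `{x 0, x m}`, lost pair `{x 0, x 1}` -/
structure RotR (P : Type u) [Fintype P] [PartialOrder P] [DecidableEq P] (j : ℕ) (t : P) (m : ℕ)
    (x : ℕ → P) : Prop where
  row : Rw P j t m x
  hm : 3 ≤ m
  new : Df j {x 0, x m} = 1
  lost : Df j {x 0, x 1} = -1
  rest : ∀ k, 1 ≤ k → k < m → Df j {x k, x (k + 1)} = 0

/-- the component of `t` is natural at level `j` -/
def NatT (j : ℕ) (t : P) : Prop :=
  ∀ u w : P, lev u = j → lev w = j → u ≤ t → w ≤ t → u ≠ w → ucv u w = dcv u w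

lemma natT_iff (H : Gr P r) : NatT j t ↔
    ∀ u ∈ St.wt0 j t, ∀ w ∈ St.wt0 j t, u ≠ w → Df j {u, w} = 0 := by
  constructor
  · intro h u hu w hw huw
    rw [St.mem_wt0] at hu hw
    rw [Df_pair H hu.1 huw, h u w hu.1 hw.1 hu.2 hw.2 huw]
    ring
  · intro h u w hu hw hut hwt huw
    have h1 := h u (St.mem_wt0.2 ⟨hu, hut⟩) w (St.mem_wt0.2 ⟨hw, hwt⟩) huw
    rw [Df_pair H hu huw] at h1
    omega

lemma Rw.wt_eq (S : Rw P j t m x) : St.wt0 j t = SV m x := by
  ext v
  unfold SV
  rw [St.mem_wt0, mem_image]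
  constructor
  · rintro ⟨h1, h2⟩
    obtain ⟨a, ha, hx⟩ := S.surj v h1 h2
    exact ⟨a, mem_range.2 (by omega), hx⟩
  · rintro ⟨a, ha, rfl⟩
    rw [mem_range] at ha
    exact ⟨S.lev_x a (by omega), S.le_t a (by omega)⟩

/-- the defects of a rotated row -/
lemma RotR.zero (R : RotR P j t m x) (H : Gr P r) {a b : ℕ} (hab : a < b) (hb : b ≤ m)
    (h0 : a = 0 → b ≠ 1 ∧ b ≠ m) : Df j {x a, x b} = 0 := by
  have hm := R.hm
  by_cases h1 : b = a + 1
  · subst h1
    exact R.rest a (by omega) (by omega)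
  · exact R.row.onStrip H a b (by omega) hb (by omega)

lemma RotR.starry (R : RotR P j t m x) (H : Gr P r) :
    St.Starry (Df j) (SV m x) {(x 0, x m, x 1)} := by
  have hm := R.hm
  have S := R.row
  have key : ∀ a b, a < b → b ≤ m →
      ¬ (x a ∈ St.sp (x 0, x m, x 1) ∧ x b ∈ St.sp (x 0, x m, x 1)) → Df j {x a, x b} = 0 := by
    intro a b hab hb hn
    refine R.zero H hab hb ?_
    rintro rfl
    refine ⟨?_, ?_⟩
    · rintro rfl
      exact hn ⟨St.mem_sp.2 (Or.inl rfl), St.mem_sp.2 (Or.inr (Or.inr rfl))⟩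
    · rintro rfl
      exact hn ⟨St.mem_sp.2 (Or.inl rfl), St.mem_sp.2 (Or.inr (Or.inl rfl))⟩
  refine ⟨?_, ?_, ?_, ?_⟩
  · intro d hd
    rw [mem_singleton] at hd
    subst hd
    refine ⟨S.ne (by omega) le_rfl, S.ne (by omega) (by omega), (S.ne (by omega) le_rfl).symm,
      R.new, R.lost, ?_⟩
    show Df j {x m, x 1} = 0
    rw [pair_comm]
    exact R.zero H (by omega) le_rfl (by omega)
  · intro d hd
    rw [mem_singleton] at hd
    subst hd
    intro v hv
    rw [St.mem_sp] at hv
    rcases hv with rfl | rfl | rfl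
    · exact mem_SV (Nat.zero_le m)
    · exact mem_SV le_rfl
    · exact mem_SV (show 1 ≤ m by omega)
  · intro d hd d' hd' hne
    rw [mem_singleton] at hd hd'
    exact absurd (hd.trans hd'.symm) hne
  · intro u hu w hw huw hn
    have hn' := hn _ (mem_singleton_self _)
    unfold SV at hu hw
    obtain ⟨a, ha, rfl⟩ := mem_image.1 hu
    obtain ⟨b, hb, rfl⟩ := mem_image.1 hw
    rw [mem_range] at ha hb
    rcases Nat.lt_trichotomy a b with h1 | h1 | h1
    · exact key a b h1 (by omega) hn'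
    · rw [h1] at huw
      exact absurd rfl huw
    · rw [pair_comm]
      exact key b a h1 (by omega) (fun h2 => hn' ⟨h2.2, h2.1⟩)

/-- the contribution of a rotated row -/
theorem RotR.ct (R : RotR P j t m x) (H : Gr P r) (h1 : St.mp (Df j) (SV m x) = 1)
    {th : Finset P → ℤ} (hth : OnStrip m x th) :
    St.ct (Df j) th (SV m x) = 2 + 2 * th {x (m - 1), x m} - 2 * th {x 1, x 2} := by
  have hm := R.hm
  have S := R.row
  have hS := R.starry H
  have ht := St.tight_of_star hS
  obtain ⟨n, hn⟩ : ∃ n, m = n + 3 := ⟨m - 3, by omega⟩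
  have hon := S.onStrip H
  have d0 : St.dg (Df j) (SV m x) (x 0) = 0 := by
    rw [S.row_first (by omega) hon, R.lost, R.new]
    norm_num
  have dm : St.dg (Df j) (SV m x) (x m) = 1 := by
    have h2 := R.rest (m - 1) (by omega) (by omega)
    rw [show m - 1 + 1 = m by omega] at h2
    rw [S.row_last (by omega) hon, h2, R.new]
    norm_num
  have d1 : St.dg (Df j) (SV m x) (x 1) = -1 := by
    have h2 := S.row_mid hon (a := 0) (by omega)
    have h3 := R.rest 1 le_rfl (by omega)
    have h4 := R.lost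
    rw [show (0 : ℕ) + 1 = 1 from rfl, show (0 : ℕ) + 2 = 2 from rfl] at h2
    rw [show (1 : ℕ) + 1 = 2 from rfl] at h3
    rw [h2, h3, h4]
    norm_num
  have dk : ∀ a, 2 ≤ a → a < m → St.dg (Df j) (SV m x) (x a) = 0 := by
    intro a ha ha2
    have h2 := S.row_mid hon (a := a - 1) (by omega)
    have h3 := R.rest (a - 1) (by omega) (by omega)
    have h4 := R.rest a (by omega) (by omega)
    rw [show a - 1 + 2 = a + 1 by omega] at h2
    rw [show a - 1 + 1 = a by omega] at h2 h3
    rw [h2, h3, h4]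
    norm_num
  set g : Finset P → ℤ := fun e => th e * (St.Fm (Df j) (SV m x) e - 1) with hg
  have hong : OnStrip m x g := by
    intro a b h2 h3 h4
    show th {x a, x b} * _ = 0
    rw [hth a b h2 h3 h4, zero_mul]
  have hF : ∀ a b, a < b → b ≤ m → St.Fm (Df j) (SV m x) {x a, x b} =
      1 + St.dg (Df j) (SV m x) (x a) + St.dg (Df j) (SV m x) (x b) - Df j {x a, x b} :=
    fun a b hab hb => ht.F_two h1 (mem_SV (by omega)) (mem_SV hb) (S.ne hab hb)
  obtain ⟨c, hc⟩ : ∃ c : ℕ → ℤ, ∀ k, c k = g {x k, x (k + 1)} := ⟨_, fun _ => rfl⟩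
  have c0 : c 0 = 0 := by
    rw [hc]
    show th {x 0, x (0 + 1)} * (St.Fm (Df j) (SV m x) {x 0, x (0 + 1)} - 1) = 0
    rw [show (0 : ℕ) + 1 = 1 from rfl, hF 0 1 (by omega) (by omega), d0, d1, R.lost]
    ring
  have c1 : c 1 = -th {x 1, x 2} := by
    rw [hc]
    show th {x 1, x (1 + 1)} * (St.Fm (Df j) (SV m x) {x 1, x (1 + 1)} - 1) = _
    rw [show (1 : ℕ) + 1 = 2 from rfl, hF 1 2 (by omega) (by omega), d1,
      dk 2 le_rfl (by omega), R.zero H (by omega) (by omega) (by omega)]
    ring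
  have cm : c (m - 1) = th {x (m - 1), x m} := by
    rw [hc, show m - 1 + 1 = m by omega]
    show th {x (m - 1), x m} * (St.Fm (Df j) (SV m x) {x (m - 1), x m} - 1) = _
    rw [hF (m - 1) m (by omega) le_rfl, dm, dk (m - 1) (by omega) (by omega),
      R.zero H (by omega) le_rfl (by omega)]
    ring
  have ck : ∀ k, k < m → k ≠ 1 → k ≠ m - 1 → c k = 0 := by
    intro k hk h2 h3
    rcases Nat.eq_zero_or_pos k with rfl | h4
    · exact c0
    · rw [hc]
      show th {x k, x (k + 1)} * (St.Fm (Df j) (SV m x) {x k, x (k + 1)} - 1) = 0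
      rw [hF k (k + 1) (by omega) (by omega), dk k (by omega) hk, dk (k + 1) (by omega) (by omega),
        R.zero H (by omega) (by omega) (by omega)]
      ring
  have g0m : g {x 0, x m} = 0 := by
    show th {x 0, x m} * (St.Fm (Df j) (SV m x) {x 0, x m} - 1) = 0
    rw [hF 0 m (by omega) le_rfl, d0, dm, R.new]
    ring
  have hsum : ∑ k ∈ range m, c k = c 1 + c (m - 1) := by
    refine StE_sum_two (by omega) (mem_range.2 (by omega)) (mem_range.2 (by omega)) ?_
    intro b hb h2 h3
    exact ck b (mem_range.1 hb) h2 h3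
  have hP2 : St.P2 (SV m x) g = 2 * ∑ k ∈ range m, c k := by
    have e1 : St.P2 (SV m x) g = ∑ v ∈ SV m x, St.dg g (SV m x) v := rfl
    have e2 : ∀ a ∈ range (n + 2), St.dg g (SV m x) (x (a + 1)) = c a + c (a + 1) := by
      intro a ha
      rw [mem_range] at ha
      rw [S.row_mid hong (by omega), hc a, hc (a + 1)]
    have e3 : g {x (m - 1), x m} = c (m - 1) := by
      rw [hc, show m - 1 + 1 = m by omega]
    have e4 : g {x 0, x 1} = c 0 := by
      rw [hc]
    rw [e1, S.sum_split (n := n + 1) hn, S.row_first (by omega) hong, S.row_last (by omega) hong,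
      sum_congr rfl e2, Ar_sum_two (n + 1) c, g0m, e3, e4, hn,
      show n + 3 - 1 = n + 1 + 1 by omega, show n + 1 + 2 = n + 3 by omega]
    ring
  rw [St.ct_star hS, hP2, hsum, c1, cm]
  ring

/-- `PD` and `PU` hang at the edges of the row and at the pair of its ends -/
lemma Rw.th_strip (S : Rw P j t m x) (H : Gr P r) :
    OnStrip m x (fun e => T6N.thD j e - T6N.thU j e) := by
  intro a b h2 h3 h4
  have e1 : T6N.thD j {x a, x b} = 0 := by
    by_contra hcon
    have := T6_thD H hcon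
    have := S.dcv_far h2 h3 h4
    omega
  have e2 : T6N.thU j {x a, x b} = 0 := by
    by_contra hcon
    have h5 := T6_thU H hcon
    rw [S.ucv_x a b (by omega) h3 (by omega), if_neg (by omega)] at h5
    omega
  show T6N.thD j {x a, x b} - T6N.thU j {x a, x b} = 0
  rw [e1, e2, sub_zero]

/-- the possible components of the first bad level -/
def T6case (P : Type u) [Fintype P] [PartialOrder P] [DecidableEq P] (j : ℕ) (t : P) : Prop :=
  NatT j t ∨ (St.wt0 j t).card ≤ 3 ∨ ∃ m x, RotR P j t m x ∧ T6N.thD j {x 1, x 2} = 0 ∧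
    T6N.thU j {x (m - 1), x m} ≤ 1

section main

variable (h : GoodTo P r j) (hj : 1 ≤ j) (hr : j + 1 ≤ r)
  (hno : ∀ z : P, lev z = j + 1 → ¬ Hul.Jn z)

include h hno in
lemma T6_nonneg (ht : lev t = 0) (hc : T6case P j t) :
    St.Tight (Df j) (St.wt0 j t) ∧
      0 ≤ St.ct (Df j) (fun e => T6N.thD j e - T6N.thU j e) (St.wt0 j t) := by
  have h1 := S6_mp h hno ht
  rcases hc with hc | hc | ⟨m, x, R, hD, hU⟩
  · rw [natT_iff h.H] at hc
    exact ⟨St.tight_of_zero hc, by rw [St.ct_zero hc]⟩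
  · exact ⟨St.tight_of_card hc, (St.ct_small hc h1).1⟩
  · rw [R.row.wt_eq] at h1 ⊢
    refine ⟨St.tight_of_star (R.starry h.H), ?_⟩
    rw [R.ct h.H h1 (R.row.th_strip h.H)]
    have e1 := T6N.thD_nonneg j {x (m - 1), x m}
    have e2 := T6N.thU_nonneg j {x 1, x 2}
    show 0 ≤ 2 + 2 * (T6N.thD j {x (m - 1), x m} - T6N.thU j {x (m - 1), x m}) -
      2 * (T6N.thD j {x 1, x 2} - T6N.thU j {x 1, x 2})
    linarith

include h hj hr hno in
/-- every contribution vanishes -/
theorem T6_zero (hcase : ∀ t : P, lev t = 0 → T6case P j t) (ht : lev t = 0) :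
    St.ct (Df j) (fun e => T6N.thD j e - T6N.thU j e) (St.wt0 j t) = 0 := by
  have h1 := T6_sum h hj hr hno (fun t ht => (T6_nonneg h hno ht (hcase t ht)).1)
  exact (sum_eq_zero_iff_of_nonneg (fun t ht => (T6_nonneg h hno (mem_lv.1 ht)
    (hcase t (mem_lv.1 ht))).2)).1 h1 t (mem_lv.2 ht)

include h hj hr hno in
/-- T6, components with at most three sites: natural -/
theorem T6_small (hcase : ∀ t : P, lev t = 0 → T6case P j t) (ht : lev t = 0)
    (hc : (St.wt0 j t).card ≤ 3) : NatT j t := by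
  rw [natT_iff h.H]
  exact (St.ct_small hc (S6_mp h hno ht)).2 (T6_zero h hj hr hno hcase ht)

include h hj hr hno in
/-- T6, rotations -/
theorem T6_rot (hcase : ∀ t : P, lev t = 0 → T6case P j t) (ht : lev t = 0)
    (R : RotR P j t m x) (hD : T6N.thD j {x 1, x 2} = 0)
    (hU : T6N.thU j {x (m - 1), x m} ≤ 1) :
    T6N.thU j {x (m - 1), x m} = 1 ∧ T6N.thD j {x (m - 1), x m} = 0 ∧
      T6N.thU j {x 1, x 2} = 0 := by
  have h1 := S6_mp h hno ht
  have h2 := T6_zero h hj hr hno hcase ht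
  rw [R.row.wt_eq] at h1 h2
  rw [R.ct h.H h1 (R.row.th_strip h.H)] at h2
  have h3 : 2 + 2 * (T6N.thD j {x (m - 1), x m} - T6N.thU j {x (m - 1), x m}) -
      2 * (T6N.thD j {x 1, x 2} - T6N.thU j {x 1, x 2}) = 0 := h2
  have e1 := T6N.thD_nonneg j {x (m - 1), x m}
  have e2 := T6N.thU_nonneg j {x 1, x 2}
  refine ⟨by linarith, by linarith, by linarith⟩

include h hj hr hno in
/-- T6, FINAL FORM of row 474 -/
theorem T6_final (hcase : ∀ t : P, lev t = 0 → T6case P j t) (ht : lev t = 0) :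
    NatT j t ∨ ∃ m x, RotR P j t m x ∧ T6N.thD j {x 1, x 2} = 0 ∧
      T6N.thU j {x (m - 1), x m} = 1 ∧ T6N.thD j {x (m - 1), x m} = 0 ∧
      T6N.thU j {x 1, x 2} = 0 := by
  rcases hcase t ht with hc | hc | ⟨m, x, R, hD, hU⟩
  · exact Or.inl hc
  · exact Or.inl (T6_small h hj hr hno hcase ht hc)
  · obtain ⟨h1, h2, h3⟩ := T6_rot h hj hr hno hcase ht R hD hU
    exact Or.inr ⟨m, x, R, hD, h1, h2, h3⟩

include h hj hr hno in
/-- the level is good if there are no rotated rows with at least four sites -/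
theorem T6_good (hcase : ∀ t : P, lev t = 0 → NatT j t ∨ (St.wt0 j t).card ≤ 3) :
    Good P j := by
  have hc : ∀ t : P, lev t = 0 → T6case P j t := fun t ht =>
    (hcase t ht).elim Or.inl (fun h1 => Or.inr (Or.inl h1))
  have hnat : ∀ t : P, lev t = 0 → NatT j t := fun t ht =>
    (hcase t ht).elim id (fun h1 => T6_small h hj hr hno hc ht h1)
  intro v v' hv hv' hne
  obtain ⟨t, ht, ht2⟩ := exists_above' (x := v) (j := 0) (Nat.zero_le _)
  obtain ⟨t', ht', ht2'⟩ := exists_above' (x := v') (j := 0) (Nat.zero_le _)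
  by_cases htt : t = t'
  · subst htt
    exact hnat t ht2 v v' hv hv' ht ht' hne
  · obtain ⟨-, h2, h3⟩ := S6_cross h hno (mem_lv.2 ht2) (mem_lv.2 ht2') htt
      (St.mem_wt0.2 ⟨hv, ht⟩) (St.mem_wt0.2 ⟨hv', ht'⟩)
    rw [h2, h3]

end main

end Pool.Agent.GaussPoset.Win

end

/-! From `Pool.Agent.W_448so_h39.FB` -/

section

/-!
# S9 (MP_448cb3_co): from the second order identity at the window `j - 1` to the input of T6
-/

namespace Pool.Agent.GaussPoset.Win

set_option linter.unusedSectionVars false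

open Finset

universe u

variable {P : Type u} [Fintype P] [PartialOrder P] [DecidableEq P] {r i j m : ℕ} {t : P}
  {lo hi : ℕ → ℕ} {x : ℕ → ℕ → P}

/-- reversal of a row -/
lemma Rw.rev {x : ℕ → P} (S : Rw P j t m x) : Rw P j t m (fun a => x (m - a)) where
  lev_x := fun a _ => S.lev_x (m - a) (by omega)
  le_t := fun a _ => S.le_t (m - a) (by omega)
  inj := fun a b ha hb he => by
    have := S.inj (m - a) (m - b) (by omega) (by omega) he
    omega
  surj := fun y h1 h2 => by
    obtain ⟨a, ha, hx⟩ := S.surj y h1 h2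
    exact ⟨m - a, by omega, by rw [show m - (m - a) = a by omega]; exact hx⟩
  ucv_x := fun a b ha hb hab => by
    rw [S.ucv_x (m - a) (m - b) (by omega) (by omega) (by omega)]
    exact if_congr (by omega) rfl rfl
  far := fun a b hab hb hd => by
    have h1 := S.far (m - b) (m - a) (by omega) (by omega) (by rw [StB_dcv_comm]; exact hd)
    have hb' : b = m := by omega
    have ha' : a = 0 := by omega
    refine ⟨ha', hb', ?_, ?_⟩
    · show (uc (x (m - 0))).card = 1
      rw [Nat.sub_zero]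
      exact h1.2.2.2
    · show (uc (x (m - m))).card = 1
      rw [Nat.sub_self]
      exact h1.2.2.1

/-- the number of sites -/
lemma Rw.card_wt {x : ℕ → P} (S : Rw P j t m x) : (St.wt0 j t).card = m + 1 := by
  rw [S.wt_eq]
  unfold SV
  rw [card_image_of_injOn, card_range]
  intro a ha b hb hab
  rw [mem_coe, mem_range] at ha hb
  exact S.inj a b (by omega) (by omega) hab

/-- at most one element of `PU` hangs at a pair of sites of a component with at least three sites -/
lemma thU_le_one (h : GoodTo P r j) (ht : lev t = 0) (hc : 3 ≤ (St.wt0 j t).card) {v v' : P}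
    (hv : v ≤ t) (hu : ucv v v' ≤ 1) : T6N.thU j {v, v'} ≤ 1 := by
  classical
  unfold T6N.thU
  have key : ((PU P j).filter (fun z => (dc z).biUnion (ns j) = {v, v'})).card ≤ 1 := by
    rw [card_le_one]
    intro z hz z' hz'
    rw [mem_filter] at hz hz'
    obtain ⟨hz1, hz2⟩ := hz
    obtain ⟨hz1', hz2'⟩ := hz'
    rw [T6N.mem_PU] at hz1 hz1'
    obtain ⟨a1, a2, w, a3, a4⟩ := hz1
    obtain ⟨b1, b2, w', b3, b4⟩ := hz1'
    obtain ⟨q, hq⟩ := card_eq_one.1 a2
    obtain ⟨q', hq'⟩ := card_eq_one.1 b2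
    have hqw : q = w := by
      have : w ∈ dc z := mem_dc.2 a3
      rw [hq, mem_singleton] at this
      exact this.symm
    subst hqw
    have hqw' : q' = w' := by
      have : w' ∈ dc z' := mem_dc.2 b3
      rw [hq', mem_singleton] at this
      exact this.symm
    subst hqw'
    have lq := lev_cov h.H a3
    have lq' := lev_cov h.H b3
    rw [hq, singleton_biUnion, T6N.nsu (by omega)] at hz2
    rw [hq', singleton_biUnion, T6N.nsu (by omega)] at hz2'
    -- the two elements of level `j - 1` coincide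
    have hv1 : v ∈ dc q := by rw [hz2]; exact mem_insert_self _ _
    have hv2 : v' ∈ dc q := by rw [hz2]; exact mem_insert_of_mem (mem_singleton_self _)
    have hv1' : v ∈ dc q' := by rw [hz2']; exact mem_insert_self _ _
    have hv2' : v' ∈ dc q' := by rw [hz2']; exact mem_insert_of_mem (mem_singleton_self _)
    have hqq : q = q' := by
      unfold ucv at hu
      exact card_le_one.1 hu q (by
        simp only [mem_filter, mem_univ, true_and]
        exact ⟨mem_dc.1 hv1, mem_dc.1 hv2⟩) q' (by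
        simp only [mem_filter, mem_univ, true_and]
        exact ⟨mem_dc.1 hv1', mem_dc.1 hv2'⟩)
    subst hqq
    by_contra hne
    -- coordinates
    obtain ⟨k, rfl⟩ : ∃ k, j = k + 2 := ⟨j - 2, by omega⟩
    obtain ⟨lo, hi, x, C⟩ := comp_exists h ht
    have hqt : q ≤ t := by
      have := h.cov_le (z := v) (v := q) (by
        have := lev_dc h.H hv1
        omega) ht hv (mem_dc.1 hv1)
      exact this
    have hzt : z ≤ t := h.cov_le (by omega) ht hqt a3
    have hzt' : z' ≤ t := h.cov_le (by omega) ht hqt b3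
    obtain ⟨a, ha1, ha2, rfl⟩ := C.surj k (by omega) z (by omega) hzt
    obtain ⟨b, hb1, hb2, rfl⟩ := C.surj k (by omega) z' (by omega) hzt'
    obtain ⟨c, hc1, hc2, rfl⟩ := C.surj (k + 1) (by omega) q (by omega) hqt
    have e1 := (C.cov k (by omega) c a hc1 hc2 ha1 ha2).1 a3
    have e2 := (C.cov k (by omega) c b hc1 hc2 hb1 hb2).1 b3
    have hab : a ≠ b := fun he => hne (by rw [he])
    have f1 := C.lo_le k (by omega)
    have f2 := C.lo_ge k (by omega)
    have f3 := C.hi_le k (by omega)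
    have f4 := C.hi_ge k (by omega)
    -- every element of level `k + 1` is `q`
    have hone : ∀ d, lo (k + 1) ≤ d → d ≤ hi (k + 1) → d = c := by
      intro d hd1 hd2
      by_contra hdc
      have g1 : ∀ p, lo k ≤ p → p ≤ hi k → (p = a ∨ p = b) → lo (k + 1) ≤ p →
          p ≤ hi (k + 1) → p = c := by
        intro p hp1 hp2 hp3 hp4 hp5
        have hcov := (C.cov k (by omega) p p hp4 hp5 hp1 hp2).2 (Or.inl rfl)
        rcases hp3 with rfl | rfl
        · have : x (k + 1) p ∈ dc (x k p) := mem_dc.2 hcov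
          rw [hq, mem_singleton] at this
          exact C.inj' (by omega) hp4 hp5 hc1 hc2 this
        · have : x (k + 1) p ∈ dc (x k p) := mem_dc.2 hcov
          rw [hq', mem_singleton] at this
          exact C.inj' (by omega) hp4 hp5 hc1 hc2 this
      have g2 : ∀ p, lo k ≤ p → p ≤ hi k → (p = a ∨ p = b) → lo (k + 1) ≤ p + 1 →
          p + 1 ≤ hi (k + 1) → p + 1 = c := by
        intro p hp1 hp2 hp3 hp4 hp5
        have hcov := (C.cov k (by omega) (p + 1) p hp4 hp5 hp1 hp2).2 (Or.inr rfl)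
        rcases hp3 with rfl | rfl
        · have : x (k + 1) (p + 1) ∈ dc (x k p) := mem_dc.2 hcov
          rw [hq, mem_singleton] at this
          exact C.inj' (by omega) hp4 hp5 hc1 hc2 this
        · have : x (k + 1) (p + 1) ∈ dc (x k p) := mem_dc.2 hcov
          rw [hq', mem_singleton] at this
          exact C.inj' (by omega) hp4 hp5 hc1 hc2 this
      have g3 := g1 a ha1 ha2 (Or.inl rfl)
      have g4 := g1 b hb1 hb2 (Or.inr rfl)
      have g5 := g2 a ha1 ha2 (Or.inl rfl)
      have g6 := g2 b hb1 hb2 (Or.inr rfl)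
      omega
    have hlh : lo (k + 1) = hi (k + 1) := by
      have h1 := hone (lo (k + 1)) le_rfl (C.lohi (k + 1) (by omega))
      have h2 := hone (hi (k + 1)) (C.lohi (k + 1) (by omega)) le_rfl
      omega
    have S := C.rw_row h (by omega) ht
    have f5 := C.lo_le (k + 1) (by omega)
    have f6 := C.hi_ge (k + 1) (by omega)
    have hcard := S.card_wt
    have e : k + 1 + 1 = k + 2 := rfl
    rw [e] at hcard f5 f6
    omega
  exact_mod_cast key

end Pool.Agent.GaussPoset.Win

end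

/-! From `Pool.Agent.W_448fin_h16.FnA` -/

section

/-!
# Final assembly (MP_448cb3_co): the ends of a rotated row

Two enumerations of the row of a component agree up to the reversal (at the ends); the element of
`PU` at the last pair of a rotated row gives the letters C, O at this end.
-/

namespace Pool.Agent.GaussPoset.Win

set_option linter.unusedSectionVars false

open Finset

universe u

variable {P : Type u} [Fintype P] [PartialOrder P] [DecidableEq P] {r i j : ℕ} {t : P}
  {lo hi : ℕ → ℕ} {x : ℕ → ℕ → P}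

/-- two enumerations of a row -/
lemma Rw.ends {X Y : ℕ → P} {m m' : ℕ} (S : Rw P j t m X) (S' : Rw P j t m' Y) (hm : 3 ≤ m) :
    m = m' ∧ ((X 0 = Y 0 ∧ X m = Y m ∧ X (m - 1) = Y (m - 1)) ∨
      (X 0 = Y m ∧ X m = Y 0 ∧ X (m - 1) = Y 1)) := by
  have hmm : m = m' := by
    have h1 := S.card_wt
    have h2 := S'.card_wt
    omega
  subst hmm
  have hs : ∀ a, a ≤ m → ∃ b, b ≤ m ∧ Y b = X a :=
    fun a ha => S'.surj (X a) (S.lev_x a ha) (S.le_t a ha)
  have hs' : ∀ b, b ≤ m → ∃ a, a ≤ m ∧ X a = Y b :=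
    fun b hb => S.surj (Y b) (S'.lev_x b hb) (S'.le_t b hb)
  have adj : ∀ a a' b b', a ≤ m → a' ≤ m → b ≤ m → b' ≤ m → Y b = X a → Y b' = X a' →
      ((a + 1 = a' ∨ a' + 1 = a) ↔ (b + 1 = b' ∨ b' + 1 = b)) := by
    intro a a' b b' ha ha' hb hb' e e'
    by_cases hne : a = a'
    · subst hne
      have : b = b' := S'.inj b b' hb hb' (e.trans e'.symm)
      constructor <;> intro h <;> omega
    · have hne' : b ≠ b' := fun hbb => hne (S.inj a a' ha ha' (by rw [← e, ← e', hbb]))
      have h1 := S.ucv_x a a' ha ha' hne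
      have h2 := S'.ucv_x b b' hb hb' hne'
      rw [e, e', h1] at h2
      constructor
      · intro h3
        rw [if_pos h3] at h2
        by_contra hcon
        rw [if_neg hcon] at h2
        exact absurd h2 (by norm_num)
      · intro h3
        rw [if_pos h3] at h2
        by_contra hcon
        rw [if_neg hcon] at h2
        exact absurd h2 (by norm_num)
  have endpt : ∀ a b, (a = 0 ∨ a = m) → b ≤ m → Y b = X a → b = 0 ∨ b = m := by
    intro a b ha hb e
    by_contra hcon
    obtain ⟨c, hc, ec⟩ := hs' (b - 1) (by omega)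
    obtain ⟨c', hc', ec'⟩ := hs' (b + 1) (by omega)
    have ham : a ≤ m := by omega
    have g1 := (adj a c b (b - 1) ham hc hb (by omega) e ec.symm).2 (by omega)
    have g2 := (adj a c' b (b + 1) ham hc' hb (by omega) e ec'.symm).2 (by omega)
    have hcc : c = c' := by omega
    subst hcc
    have := S'.inj (b - 1) (b + 1) (by omega) (by omega) (ec.symm.trans ec')
    omega
  obtain ⟨b0, hb0, e0⟩ := hs 0 (by omega)
  obtain ⟨bm, hbm, em⟩ := hs m le_rfl
  obtain ⟨bn, hbn, en⟩ := hs (m - 1) (by omega)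
  have h0 := endpt 0 b0 (Or.inl rfl) hb0 e0
  have h1 := endpt m bm (Or.inr rfl) hbm em
  have hne : b0 ≠ bm := by
    rintro rfl
    have := S.inj 0 m (by omega) le_rfl (e0.symm.trans em)
    omega
  have h2 := (adj (m - 1) m bn bm (by omega) le_rfl hbn hbm en em).1 (by omega)
  refine ⟨rfl, ?_⟩
  rcases h1 with h1 | h1
  · right
    have g1 : b0 = m := by omega
    have g2 : bn = 1 := by omega
    rw [g1] at e0
    rw [h1] at em
    rw [g2] at en
    exact ⟨e0.symm, em.symm, en.symm⟩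
  · left
    have g1 : b0 = 0 := by omega
    have g2 : bn = m - 1 := by omega
    rw [g1] at e0
    rw [h1] at em
    rw [g2] at en
    exact ⟨e0.symm, em.symm, en.symm⟩

/-- the letters at the last pair of a rotated row -/
theorem RotR.letters {k : ℕ} (h : GoodTo P r (k + 2)) (ht : lev t = 0)
    (C : Comp P t (k + 2) lo hi x) {m : ℕ} {X : ℕ → P} (R : RotR P (k + 2) t m X)
    (hU : T6N.thU (k + 2) {X (m - 1), X m} = 1) :
    hi (k + 2) = lo (k + 2) + m ∧
      ((puR lo hi (k + 2) ∧ X 0 = x (k + 2) (lo (k + 2)) ∧ X m = x (k + 2) (hi (k + 2))) ∨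
      (puL lo hi (k + 2) ∧ X 0 = x (k + 2) (hi (k + 2)) ∧ X m = x (k + 2) (lo (k + 2)) ∧
        X (m - 1) = x (k + 2) (lo (k + 2) + 1))) := by
  have H := h.H
  have hm := R.hm
  have S' : Rw P (k + 2) t (hi (k + 2) - lo (k + 2)) (fun a => x (k + 2) (lo (k + 2) + a)) :=
    C.rw_row (i := k + 1) h (by omega) ht
  obtain ⟨e1, e2⟩ := R.row.ends S' hm
  have f1 := C.lo_le k (by omega)
  have f2 := C.lo_ge k (by omega)
  have f3 := C.hi_le k (by omega)
  have f4 := C.hi_ge k (by omega)
  have f5 := C.lo_le (k + 1) (by omega)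
  have f6 := C.lo_ge (k + 1) (by omega)
  have f7 := C.hi_le (k + 1) (by omega)
  have f8 := C.hi_ge (k + 1) (by omega)
  have f9 := C.lohi (k + 2) le_rfl
  have f10 := C.lohi k (by omega)
  refine ⟨by omega, ?_⟩
  have em : lo (k + 2) + m = hi (k + 2) := by omega
  -- the element of `PU`
  have hne : ((PU P (k + 2)).filter
      (fun z => (dc z).biUnion (ns (k + 2)) = {X (m - 1), X m})).Nonempty := by
    unfold T6N.thU at hU
    rw [← card_pos]
    omega
  obtain ⟨z, hz⟩ := hne
  rw [mem_filter] at hz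
  obtain ⟨hz, hs⟩ := hz
  obtain ⟨l1, hc, w, hw, -⟩ := T6N.mem_PU.1 hz
  obtain ⟨u, hu⟩ := card_eq_one.1 hc
  have hwu : w = u := by
    have := mem_dc.2 hw
    rw [hu, mem_singleton] at this
    exact this
  subst hwu
  have l2 := lev_cov H hw
  have hdw : dc w = {X (m - 1), X m} := by
    rw [← hs, hu, singleton_biUnion, T6N.nsu (x := w) (i := k + 2) (by omega)]
  have hmw : X m ⋖ w := by
    rw [← mem_dc, hdw]
    exact mem_insert_of_mem (mem_singleton_self _)
  have hwt : w ≤ t := h.cov_le (z := X m) (v := w)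
    (by have := R.row.lev_x m le_rfl; omega) ht (R.row.le_t m le_rfl) hmw
  have hzt : z ≤ t := h.cov_le (z := w) (v := z) (by omega) ht hwt hw
  obtain ⟨c, c1, c2, rfl⟩ := C.surj k (by omega) z (by omega) hzt
  obtain ⟨d, d1, d2, rfl⟩ := C.surj (k + 1) (by omega) w (by omega) hwt
  have hcd := (C.cov k (by omega) d c d1 d2 c1 c2).1 hw
  have hinj : ∀ a b, lo (k + 2) ≤ a → a ≤ hi (k + 2) → lo (k + 2) ≤ b → b ≤ hi (k + 2) →
      x (k + 2) a = x (k + 2) b → a = b := fun a b h1 h2 h3 h4 h5 => C.inj' le_rfl h1 h2 h3 h4 h5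
  rcases (C.mem_PU_iff h ht (k := k) (by omega) c1 c2).1 hz with ⟨g1, hp⟩ | ⟨g1, hp⟩
  · -- left
    have hp' := hp
    unfold puL at hp'
    rw [show k + 2 - 1 = k + 1 by omega, show k + 2 - 2 = k by omega] at hp'
    obtain ⟨-, p1, p2, p3⟩ := hp'
    have hd : d = lo (k + 2) := by omega
    have hin : x (k + 2) (lo (k + 2)) ∈ dc (x (k + 1) d) := by
      rw [mem_dc]
      exact (C.cov (k + 1) (by omega) (lo (k + 2)) d le_rfl f9 d1 d2).2 (Or.inl hd)
    rw [hdw, mem_insert, mem_singleton] at hin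
    rcases e2 with ⟨g2, g3, g4⟩ | ⟨g2, g3, g4⟩
    · exfalso
      try beta_reduce at g2 g3 g4
      rw [g3, g4] at hin
      rcases hin with q | q
      · have := hinj _ _ le_rfl f9 (by omega) (by omega) q
        omega
      · have := hinj _ _ le_rfl f9 (by omega) (by omega) q
        omega
    · right
      try beta_reduce at g2 g3 g4
      exact ⟨hp, by rw [g2, em], g3, g4⟩
  · -- right
    have hp' := hp
    unfold puR at hp'
    rw [show k + 2 - 1 = k + 1 by omega, show k + 2 - 2 = k by omega] at hp'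
    obtain ⟨-, p1, p2, p3⟩ := hp'
    have hd : hi (k + 2) = d + 1 := by omega
    have hin : x (k + 2) (hi (k + 2)) ∈ dc (x (k + 1) d) := by
      rw [mem_dc]
      exact (C.cov (k + 1) (by omega) (hi (k + 2)) d f9 le_rfl d1 d2).2 (Or.inr hd.symm)
    rw [hdw, mem_insert, mem_singleton] at hin
    rcases e2 with ⟨g2, g3, g4⟩ | ⟨g2, g3, g4⟩
    · left
      try beta_reduce at g2 g3 g4
      exact ⟨hp, g2, by rw [g3, em]⟩
    · exfalso
      try beta_reduce at g2 g3 g4
      rw [g3, g4] at hin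
      rcases hin with q | q
      · have := hinj _ _ f9 le_rfl (by omega) (by omega) q
        omega
      · have := hinj _ _ f9 le_rfl (by omega) (by omega) q
        omega

end Pool.Agent.GaussPoset.Win

end
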