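import Mathlib
import Pool.Agent.W_448zz_h61.Ns
import Pool.Agent.W_448zz_h61.M075
import Pool.Agent.W_448zz_h61.M100

/-! From `Pool.Agent.W_448s7_h5.PenA` -/

section

/-!
# Two pendants below an end of a long row force a join at the other end (MP_448cb3_co, S7)

All levels less than `j = i + 1` are good, the row of level `j` of a component is `x_0, …, x_m`, `m ≥ 3`,
both ends are single-up and no inner element has a pendant.  If `x_0` has two pendants, then `m` is odd and
`x_m` has a lower cover which is below another maximal element.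
-/

namespace Pool.Agent.GaussPoset.Win

set_option linter.unusedSectionVars false

open Finset

universe u

variable {P : Type u} [Fintype P] [PartialOrder P] [DecidableEq P] {r i : ℕ} {t : P}

/-- the first coefficient of the matching polynomial of a path -/
lemma coeff_path (A : Finset P → ℤ) (X : ℕ → P) {k : ℕ}
    (hinj : ∀ a b, a ≤ k → b ≤ k → X a = X b → a = b)
    (hfar : ∀ a b, a + 1 < b → b ≤ k → A {X a, X b} = 0) :
    (St.mp A ((range (k + 1)).image X)).coeff 1 = ∑ a ∈ range k, A {X a, X (a + 1)} := by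
  induction k with
  | zero =>
    rw [show (range (0 + 1)).image X = {X 0} by simp, St.mp_singleton, Polynomial.coeff_one,
      if_neg (by norm_num)]
    simp
  | succ k ih =>
    have h1 := ih (fun a b ha hb => hinj a b (by omega) (by omega))
      (fun a b ha hb => hfar a b ha (by omega))
    have hnm : X (k + 1) ∉ (range (k + 1)).image X := by
      rw [mem_image]
      rintro ⟨a, ha, he⟩
      rw [mem_range] at ha
      have := hinj a (k + 1) (by omega) le_rfl he
      omega
    rw [range_add_one (n := k + 1), image_insert, St.coeff_one_insert hnm, h1, sum_range_succ]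
    congr 1
    rw [sum_image (by
      intro a ha b hb he
      rw [mem_coe, mem_range] at ha hb
      exact hinj a b (by omega) (by omega) he)]
    rw [sum_eq_single_of_mem k (mem_range.2 (by omega)) (by
      intro b hb hbk
      rw [mem_range] at hb
      rw [pair_comm]
      exact hfar b (k + 1) (by omega) le_rfl)]
    rw [pair_comm]

/-- **Two pendants below an end of a long row.** -/
theorem pen_join {lo hi : ℕ → ℕ} {x : ℕ → ℕ → P} (h : GoodTo P r (i + 1)) (hi1 : 1 ≤ i)
    (ht : lev t = 0) (C : Comp P t (i + 1) lo hi x)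
    (hpen : ∀ a, lo i < a → a ≤ hi i → (pen (x (i + 1) a)).card = 0)
    (hlo : lo (i + 1) = lo i) (hhi : hi (i + 1) = hi i + 1) (hm3 : lo (i + 1) + 3 ≤ hi (i + 1))
    {p p' : P} (hpp : p ≠ p') (hp : p ⋖ x (i + 1) (lo (i + 1))) (hp' : p' ⋖ x (i + 1) (lo (i + 1)))
    (ho : ∀ y, p ⋖ y → y = x (i + 1) (lo (i + 1)))
    (ho' : ∀ y, p' ⋖ y → y = x (i + 1) (lo (i + 1))) :
    Odd (hi (i + 1) - lo (i + 1)) ∧
      ∃ z y, z ⋖ x (i + 1) (hi (i + 1)) ∧ z ⋖ y ∧ ¬ y ≤ t := by
  classical
  have H := h.H
  have S := C.rw_row h hi1 ht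
  set m := hi (i + 1) - lo (i + 1) with hm
  set X : ℕ → P := fun a => x (i + 1) (lo (i + 1) + a) with hX
  have hX0 : X 0 = x (i + 1) (lo (i + 1)) := rfl
  have hXm : X m = x (i + 1) (hi (i + 1)) := by
    show x (i + 1) (lo (i + 1) + m) = x (i + 1) (hi (i + 1))
    congr 1
    omega
  rw [← hXm]
  rw [← hX0] at hp hp' ho ho'
  have hmr : i + 2 ≤ r := by
    have h1 := lev_cov H hp
    have h2 := S.lev_x 0 (by omega)
    have h3 := H.lev_le p
    omega
  -- covers of the row elements
  have huc : ∀ a, 1 ≤ a → a < m → (uc (X a)).card = 2 := by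
    intro a h1 h2
    exact (C.uc_two h ht (k := i) (a := lo (i + 1) + a) (by omega) (by omega) (by omega)).2
      (by omega)
  have hnear := (near_level' h hi1).1
  -- the first element has no pairs
  have F0 : ∀ v, v ≠ X 0 → dcv (X 0) v = 0 := by
    intro v hv
    by_contra hcon
    obtain ⟨z, hz, hz'⟩ := StA_of_dcv (Nat.one_le_iff_ne_zero.2 hcon)
    by_cases h1 : z = p
    · subst h1
      exact hv (ho v hz')
    · by_cases h2 : z = p'
      · subst h2
        exact hv (ho' v hz')
      · exact dc_three H hp hp' hz hpp (Ne.symm h1) (Ne.symm h2)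
  -- inner elements have pairs in the component only
  have F1 : ∀ a, 1 ≤ a → a < m → ∀ v z, z ⋖ X a → z ⋖ v → v ≠ X a → v ≤ t := by
    intro a h1 h2 v z hz hz' hne
    have hl := S.lev_x a h2.le
    have hlz := lev_cov H hz
    rcases hnear z (X a) v (by omega) hz hz' (Ne.symm hne) with h3 | ⟨h3, -⟩
    · exact h.top_of_ucv (by omega) (by omega) ht (S.le_t a h2.le)
    · have := huc a h1 h2
      omega
  have hfar0 : ∀ a b, a + 1 < b → b ≤ m → dcv (X a) (X b) = 0 := by
    intro a b h1 h2
    by_cases h3 : a = 0 ∧ b = m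
    · rw [h3.1, h3.2]
      exact F0 _ fun he => by
        have := S.inj m 0 le_rfl (by omega) he
        omega
    · exact S.dcv_far h1 h2 h3
  have hDfar : ∀ a b, a + 1 < b → b ≤ m → Df (i + 1) {X a, X b} = 0 := by
    intro a b h1 h2
    rw [Df_pair H (S.lev_x a (by omega)) (fun he => by
      have := S.inj a b (by omega) h2 he
      omega), hfar0 a b h1 h2, S.ucv_x a b (by omega) h2 (by omega), if_neg (by omega)]
    norm_num
  -- the defects on the path
  obtain ⟨c, hc⟩ : ∃ c : ℕ → ℤ, ∀ k, c k = Df (i + 1) {X k, X (k + 1)} := ⟨_, fun _ => rfl⟩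
  have hcd : ∀ k, k < m → c k = (dcv (X k) (X (k + 1)) : ℤ) - 1 := fun k hk => by
    rw [hc k, S.Df_adj H hk]
  have hc0 : c 0 = -1 := by
    rw [hcd 0 (by omega), F0 (X 1) (fun he => by
      have := S.inj 1 0 (by omega) (by omega) he
      omega)]
    norm_num
  have hcm : ∀ k, k < m → -1 ≤ c k := fun k hk => by
    rw [hcd k hk]
    have : (0 : ℤ) ≤ dcv (X k) (X (k + 1)) := by positivity
    linarith
  have F3 : ∀ a, a + 1 < m → 1 ≤ dcv (X a) (X (a + 1)) + dcv (X (a + 1)) (X (a + 2)) := by
    intro a ha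
    by_contra hcon
    have g1 : dcv (X a) (X (a + 1)) = 0 := by omega
    have g2 : dcv (X (a + 1)) (X (a + 2)) = 0 := by omega
    have hl := S.lev_x (a + 1) (by omega)
    obtain ⟨z, hz⟩ := exists_dc H (v := X (a + 1)) (by omega)
    have hlz := lev_cov H hz
    have hnp : (uc z).card ≠ 1 := by
      intro h1
      have h2 : z ∈ pen (X (a + 1)) := mem_pen.2 ⟨hz, h1⟩
      have h3 := hpen (lo (i + 1) + (a + 1)) (by omega) (by omega)
      rw [Finset.card_eq_zero] at h3
      rw [show X (a + 1) = x (i + 1) (lo (i + 1) + (a + 1)) from rfl, h3] at h2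
      exact absurd h2 (Finset.notMem_empty _)
    have h2 : (uc z).card = 2 := by
      rcases uc_card_cases H (x := z) (by omega) with h3 | h3
      · exact absurd h3 hnp
      · exact h3
    obtain ⟨v, hv, hne⟩ := exists_other_uc (y := X (a + 1)) h2
    have hvt := F1 (a + 1) (by omega) (by omega) v z hz hv hne
    obtain ⟨b, hb, rfl⟩ := S.surj v (by have := lev_cov H hv; omega) hvt
    have h3 := StA_dcv_pos hz hv
    have h4 := StA_dcv_pos hv hz
    have hab : a + 1 ≠ b := fun he => hne (by rw [he])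
    rcases Nat.lt_or_ge (a + 1) b with h5 | h5
    · by_cases h6 : a + 2 = b
      · rw [← h6] at h3
        omega
      · have := hfar0 (a + 1) b (by omega) hb
        omega
    · by_cases h6 : b = a
      · rw [h6] at h4
        omega
      · have := hfar0 b (a + 1) (by omega) (by omega)
        omega
  have F4 : ∀ a, a + 1 < m → c a + c (a + 1) ≤ 0 := by
    intro a ha
    have h1 := S.degD_le H (a := a + 1) (by omega)
    rw [S.dcv_mid ha] at h1
    rw [hcd a (by omega), hcd (a + 1) ha]
    linarith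
  have F3' : ∀ a, a + 1 < m → -1 ≤ c a + c (a + 1) := by
    intro a ha
    have h1 : (1 : ℤ) ≤ dcv (X a) (X (a + 1)) + dcv (X (a + 1)) (X (a + 2)) := by
      exact_mod_cast F3 a ha
    rw [hcd a (by omega), hcd (a + 1) ha]
    linarith
  -- alternation
  have halt : ∀ k, k ≤ m → (∀ a, 1 ≤ a → a < k → c a ≠ 0) → ∀ a, a < k → c a = -(-1) ^ a := by
    intro k hk hne a
    induction a with
    | zero => intro _; rw [hc0]; norm_num
    | succ a ih =>
      intro ha
      have h1 := ih (by omega)
      have h2 := F4 a (by omega)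
      have h3 := F3' a (by omega)
      have h4 := hcm (a + 1) (by omega)
      have h5 := hne (a + 1) (by omega) ha
      rcases Nat.even_or_odd a with h6 | h6
      · rw [h6.neg_one_pow] at h1
        rw [pow_succ, h6.neg_one_pow]
        omega
      · rw [h6.neg_one_pow] at h1
        rw [pow_succ, h6.neg_one_pow]
        omega
  have hsum : ∀ k, ∑ a ∈ range k, (-(-1 : ℤ) ^ a) = if Even k then 0 else -1 := by
    intro k
    induction k with
    | zero => simp
    | succ k ih =>
      rw [sum_range_succ, ih]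
      rcases Nat.even_or_odd k with h6 | h6
      · rw [if_pos h6, h6.neg_one_pow, if_neg (by
          rw [Nat.not_even_iff_odd]
          exact h6.add_one)]
        norm_num
      · rw [if_neg (Nat.not_even_iff_odd.2 h6), h6.neg_one_pow, if_pos h6.add_one]
        norm_num
  -- no pairs of the row with other elements
  have hout : ∀ a, a < m → ∀ v, lev v = i + 1 → ¬ v ≤ t → Df (i + 1) {X a, v} = 0 := by
    intro a ha v hv hvt
    have hne : X a ≠ v := by
      rintro rfl
      exact hvt (S.le_t a ha.le)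
    rw [Df_pair H (S.lev_x a ha.le) hne]
    have e1 : dcv (X a) v = 0 := by
      rcases Nat.eq_zero_or_pos a with h0 | h0
      · rw [h0]
        exact F0 v fun he => hvt (by rw [he]; exact S.le_t 0 (by omega))
      · by_contra hcon
        obtain ⟨z, hz, hz'⟩ := StA_of_dcv (Nat.one_le_iff_ne_zero.2 hcon)
        exact hvt (F1 a h0 ha v z hz hz' hne.symm)
    have e2 : ucv (X a) v = 0 := by
      by_contra hcon
      exact hvt (h.top_of_ucv (by have := S.lev_x a ha.le; omega) (by omega) ht (S.le_t a ha.le))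
    rw [e1, e2]
    norm_num
  have hmpall : St.mp (Df (i + 1)) (lv P (i + 1)) = 1 := St.mp_level H (by have := h.hr; omega)
  have hsep : ∀ k, k ≤ m → (∀ w ∈ lv P (i + 1), w ∉ SV k X → ∀ a, a ≤ k →
      Df (i + 1) {X a, w} = 0) → St.mp (Df (i + 1)) (SV k X) = 1 := by
    intro k hk hw
    have hsub : SV k X ⊆ lv P (i + 1) := by
      intro v hv
      unfold SV at hv
      rw [mem_image] at hv
      obtain ⟨a, ha, rfl⟩ := hv
      rw [mem_range] at ha
      exact mem_lv.2 (S.lev_x a (by omega))
    refine St.mp_left (W := lv P (i + 1) \ SV k X) disjoint_sdiff ?_ ?_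
    · intro u hu w hw'
      rw [mem_sdiff] at hw'
      unfold SV at hu
      rw [mem_image] at hu
      obtain ⟨a, ha, rfl⟩ := hu
      rw [mem_range] at ha
      exact hw w hw'.1 hw'.2 a (by omega)
    · rw [union_sdiff_of_subset hsub]
      exact hmpall
  have hnz : ∀ a, 1 ≤ a → a < m → c a ≠ 0 := by
    by_contra hcon
    push Not at hcon
    obtain ⟨k, ⟨h1, h2, h3⟩, hmin⟩ : ∃ k, (1 ≤ k ∧ k < m ∧ c k = 0) ∧
        ∀ a, a < k → ¬ (1 ≤ a ∧ a < m ∧ c a = 0) :=
      ⟨Nat.find hcon, Nat.find_spec hcon, fun a ha => Nat.find_min hcon ha⟩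
    have h4 := halt k h2.le fun a ha hak he => hmin a hak ⟨ha, by omega, he⟩
    have h5 : c (k - 1) = -1 := by
      have g1 := h4 (k - 1) (by omega)
      have g2 := F4 (k - 1) (by omega)
      have g3 := F3' (k - 1) (by omega)
      rw [show k - 1 + 1 = k by omega, h3] at g2 g3
      rcases Nat.even_or_odd (k - 1) with h6 | h6
      · rw [h6.neg_one_pow] at g1
        exact g1
      · rw [h6.neg_one_pow] at g1
        omega
    have h6 : ¬ Even k := by
      intro hk
      have g1 := h4 (k - 1) (by omega)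
      have h7 : Odd (k - 1) := by
        obtain ⟨q, hq⟩ := hk
        exact ⟨q - 1, by omega⟩
      rw [h7.neg_one_pow] at g1
      omega
    have h7 := hsep k h2.le (by
      intro w hw hwS a ha
      rw [mem_lv] at hw
      by_cases hwt : w ≤ t
      · obtain ⟨b, hb, rfl⟩ := S.surj w hw hwt
        have hbk : k < b := by
          by_contra hcon'
          exact hwS (mem_SV (by omega))
        by_cases h8 : a + 1 < b
        · exact hDfar a b h8 hb
        · rw [show b = a + 1 by omega, ← hc a, show a = k by omega]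
          exact h3
      · exact hout a (by omega) w hw hwt)
    have h8 := coeff_path (Df (i + 1)) X (k := k)
      (fun a b ha hb => S.inj a b (by omega) (by omega))
      (fun a b ha hb => hDfar a b ha (by omega))
    rw [show (range (k + 1)).image X = SV k X from rfl, h7, Polynomial.coeff_one,
      if_neg (by norm_num)] at h8
    have h9 : ∑ a ∈ range k, Df (i + 1) {X a, X (a + 1)} = ∑ a ∈ range k, (-(-1 : ℤ) ^ a) :=
      sum_congr rfl fun a ha => by
        rw [← hc a]
        exact h4 a (mem_range.1 ha)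
    rw [h9, hsum k, if_neg h6] at h8
    norm_num at h8
  have hall := halt m le_rfl hnz
  -- a join at the last element
  have hjoin : ∃ z y, z ⋖ X m ∧ z ⋖ y ∧ ¬ y ≤ t := by
    by_contra hcon
    push Not at hcon
    have h7 := hsep m le_rfl (by
      intro w hw hwS a ha
      rw [mem_lv] at hw
      have hwt : ¬ w ≤ t := by
        intro hwt
        obtain ⟨b, hb, rfl⟩ := S.surj w hw hwt
        exact hwS (mem_SV hb)
      rcases Nat.lt_or_ge a m with h8 | h8
      · exact hout a h8 w hw hwt
      · obtain rfl : a = m := by omega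
        have hne : X m ≠ w := by
          rintro rfl
          exact hwt (S.le_t m le_rfl)
        rw [Df_pair H (S.lev_x m le_rfl) hne]
        have e1 : dcv (X m) w = 0 := by
          by_contra hcon'
          obtain ⟨z, hz, hz'⟩ := StA_of_dcv (Nat.one_le_iff_ne_zero.2 hcon')
          exact hwt (hcon z w hz hz')
        have e2 : ucv (X m) w = 0 := by
          by_contra hcon'
          exact hwt (h.top_of_ucv (by have := S.lev_x m le_rfl; omega) (by omega) ht
            (S.le_t m le_rfl))
        rw [e1, e2]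
        norm_num)
    obtain ⟨c', β, hpat, hc', hβ⟩ := S.cases H h7 (p := 0) (fun a ha _ => F3 a ha)
    have g1 : c' 0 = -1 := by rw [← hc' 0 (by omega), ← hc 0]; exact hc0
    have g2 : β = 0 := by rw [← hβ (by omega)]; exact hDfar 0 m (by omega) le_rfl
    rcases hpat with ⟨-, e⟩ | ⟨-, e, -⟩ | ⟨-, e, -⟩ | ⟨-, -, e, -⟩ | ⟨-, -, -, -, e⟩ | ⟨-, -, e, -⟩ |
      ⟨e, -⟩ | ⟨-, -, e, -⟩
    · have := e 0 (by omega)
      omega
    · omega
    · omega
    · omega
    · have := e 0 (by omega)
      omega
    · omega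
    · omega
    · omega
  refine ⟨?_, hjoin⟩
  by_contra hodd
  rw [Nat.not_odd_iff_even] at hodd
  obtain ⟨z, y, hz, hzy, hyt⟩ := hjoin
  have h1 := hall (m - 1) (by omega)
  have h2 : Odd (m - 1) := by
    obtain ⟨q, hq⟩ := hodd
    exact ⟨q - 1, by omega⟩
  rw [h2.neg_one_pow, hcd (m - 1) (by omega), show m - 1 + 1 = m by omega] at h1
  have h3 : 2 ≤ dcv (X (m - 1)) (X m) := by
    have : (dcv (X (m - 1)) (X m) : ℤ) = 2 := by linarith
    have : dcv (X (m - 1)) (X m) = 2 := by exact_mod_cast this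
    omega
  -- two common children and `z`
  unfold dcv at h3
  obtain ⟨q, hq1, q', hq2, hqq⟩ := Finset.one_lt_card.mp (Nat.lt_of_succ_le h3)
  have hq := And.intro hq1 hq2
  rw [mem_filter, mem_filter] at hq
  have hz1 : ∀ a, a ⋖ X (m - 1) → a ⋖ X m → a ≠ z := by
    rintro a ha ha' rfl
    -- `a` has the covers `X (m-1)`, `X m`, `y`
    have g1 : X (m - 1) ≠ X m := fun he => by
      have := S.inj (m - 1) m (by omega) le_rfl he
      omega
    have g2 : X (m - 1) ≠ y := by
      rintro rfl
      exact hyt (S.le_t _ (by omega))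
    have g3 : X m ≠ y := by
      rintro rfl
      exact hyt (S.le_t _ le_rfl)
    have g4 := uc_card_le H a
    have g5 : ({X (m - 1), X m, y} : Finset P) ⊆ uc a := by
      intro v hv
      rw [mem_insert, mem_insert, mem_singleton] at hv
      rw [mem_uc]
      rcases hv with rfl | rfl | rfl
      · exact ha
      · exact ha'
      · exact hzy
    have g6 := Finset.card_le_card g5
    rw [Finset.card_insert_of_notMem (by
      rw [mem_insert, mem_singleton]
      exact fun hh => hh.elim g1 g2), Finset.card_pair g3] at g6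
    omega
  exact dc_three H hq.1.2.2 hq.2.2.2 hz hqq (hz1 q hq.1.2.1 hq.1.2.2) (hz1 q' hq.2.2.1 hq.2.2.2)

end Pool.Agent.GaussPoset.Win

end

/-! From `Pool.Agent.W_448s7_h5.PenB` -/

section

/-!
# One pendant below the straight ends, or a cheap join (MP_448cb3_co, S7, `j ≥ 17`)
-/

namespace Pool.Agent.GaussPoset

set_option linter.unusedSectionVars false

open Finset Wd

universe u

variable {P : Type u} [Fintype P] [PartialOrder P] [DecidableEq P] {r j w : ℕ}

section

variable {t : Tops P} {lo hi : ℕ → ℕ} {e : ℕ → ℕ → P}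

/-- two pendants below the end `e j 0` of a full rectangle row -/
lemma pen_left (G : Win.GoodTo P r j) (hj : 3 ≤ j) (C : Cp.Comp j (t : P) lo hi e)
    (S : RectShape j lo hi) (h0 : lo j = 0) (h1 : hi j = j) {p p' : P} (hpp : p ≠ p')
    (hp : p ⋖ e j 0) (hp' : p' ⋖ e j 0) (ho : ∀ y, p ⋖ y → y = e j 0)
    (ho' : ∀ y, p' ⋖ y → y = e j 0) :
    Odd j ∧ ∃ z y, z ⋖ e j j ∧ z ⋖ y ∧ ¬ y ≤ (t : P) := by
  obtain ⟨i, rfl⟩ : ∃ i, j = i + 1 := ⟨j - 1, by omega⟩
  have ht : lev (t : P) = 0 := t.2
  have a1 := C.lo_step i (by omega)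
  have a2 := C.hi_step i (by omega)
  have a3 := C.hi_le (k := i) (by omega)
  obtain ⟨n1, n2⟩ := rectShape_no_co C S
  have hS := (Win.near_level' G (by omega)).2 t lo hi e ht C.toWin
  have hpen : ∀ a, lo i < a → a ≤ hi i → (Win.pen (e (i + 1) a)).card = 0 := by
    rcases hS with ⟨-, -, h8⟩ | ⟨h8, -⟩ | ⟨h8, -⟩
    · exact h8
    · exact absurd h8 n1
    · exact absurd h8 n2
  have h := Win.pen_join G (by omega) ht C.toWin hpen (by omega) (by omega) (by omega)
    (p := p) (p' := p') hpp (by rw [h0]; exact hp) (by rw [h0]; exact hp')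
    (by rw [h0]; exact ho) (by rw [h0]; exact ho')
  rw [h0, h1, Nat.sub_zero] at h
  exact h

/-- single-up elements of an early component are straight, `j` odd -/
lemma early_straight (H : Gr P r) (hg : ∀ l, l < j → Win.Good P l) (hj : 1 ≤ j) (hodd : Odd j)
    (C : Cp.Comp j (t : P) lo hi e) (S : RectShape j lo hi ∨ StairShape j lo hi) {y : P}
    (hy : y ≤ (t : P)) (hl : lev y = j) (hc : (Win.uc y).card = 1) :
    ∀ k, k ≤ j → nab k y = 1 := by
  have ht : lev (t : P) = 0 := t.2
  obtain ⟨i, rfl⟩ : ∃ i, j = i + 1 := ⟨j - 1, by omega⟩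
  obtain ⟨s, s1, s2, s3⟩ := C.surj y hy hl.le
  rw [hl] at s1 s2 s3
  subst s3
  have hpos := single_pos (j := i) C s1 s2 hc
  have hloS : lo (i + 1) = 0 ∨ lo (i + 1) = lo i + 1 := by
    rcases S with S | S
    · exact S.lo i (by omega)
    · exact S.lo i (by omega)
  have a1 := C.lo_step i (by omega)
  have a2 := C.hi_step i (by omega)
  have a3 := C.lo_le i (by omega)
  have hform : ∀ k, k ≤ i + 1 → nab k (e (i + 1) s) =
      min (hi k) s + 1 - max (lo k) (s - (i + 1 - k)) := by
    intro k hk
    have := nab_e H hg C ht (k := k) (d := i + 1 - k) (s := s) (by omega)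
      (by rw [show k + (i + 1 - k) = i + 1 by omega]; exact s1)
      (by rw [show k + (i + 1 - k) = i + 1 by omega]; exact s2)
    rw [show k + (i + 1 - k) = i + 1 by omega] at this
    exact this
  have hmono : ∀ k, k ≤ i + 1 → lo k ≤ lo (i + 1) ∧ hi (i + 1) ≤ hi k + (i + 1 - k) := by
    intro k hk
    have b1 := C.lo_mono (l := k) (d := i + 1 - k) (by omega)
    have b2 := C.hi_mono (l := k) (d := i + 1 - k) (by omega)
    rw [show k + (i + 1 - k) = i + 1 by omega] at b1 b2
    omega
  rcases hpos with hs | hs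
  · -- left end
    have hlo0 : lo (i + 1) = 0 := by omega
    have hs0 : s = 0 := by omega
    intro k hk
    have b1 := (hmono k hk).1
    rw [hform k hk, hs0]
    omega
  · -- right end
    have hrect : hi (i + 1) = i + 1 := by
      rcases S with S | S
      · have := S.hi i (by omega)
        omega
      · have b1 := S.hi i (by omega)
        have b2 := S.hi (i + 1) le_rfl
        obtain ⟨q, hq⟩ := hodd
        omega
    intro k hk
    have b1 := (hmono k hk).2
    have b2 := C.hi_le (k := k) hk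
    have b3 := C.lo_le k hk
    rw [hform k hk]
    have b4 : s = i + 1 := by omega
    omega

/-- two different straight elements of level `j` of an early component are the ends of a full
rectangle row -/
lemma two_straight (H : Gr P r) (hg : ∀ l, l < j → Win.Good P l) (hj : 4 ≤ j)
    (C : Cp.Comp j (t : P) lo hi e) (S : RectShape j lo hi ∨ StairShape j lo hi) {y y' : P}
    (hy : y ≤ (t : P)) (hy' : y' ≤ (t : P)) (hl : lev y = j) (hl' : lev y' = j)
    (h1 : ∀ k, k ≤ j → nab k y = 1) (h1' : ∀ k, k ≤ j → nab k y' = 1) (hne : y ≠ y') :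
    RectShape j lo hi ∧ lo j = 0 ∧ hi j = j ∧
      ((y = e j 0 ∧ y' = e j j) ∨ (y = e j j ∧ y' = e j 0)) := by
  have ht : lev (t : P) = 0 := t.2
  obtain ⟨i, rfl⟩ : ∃ i, j = i + 1 := ⟨j - 1, by omega⟩
  obtain ⟨s, s1, s2, s3⟩ := C.surj y hy hl.le
  rw [hl] at s1 s2 s3
  obtain ⟨s', s1', s2', s3'⟩ := C.surj y' hy' hl'.le
  rw [hl'] at s1' s2' s3'
  subst s3 s3'
  have hss : s ≠ s' := fun h => hne (by rw [h])
  have hform : ∀ k s, k ≤ i + 1 → lo (i + 1) ≤ s → s ≤ hi (i + 1) → nab k (e (i + 1) s) =
      min (hi k) s + 1 - max (lo k) (s - (i + 1 - k)) := by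
    intro k s hk s1 s2
    have := nab_e H hg C ht (k := k) (d := i + 1 - k) (s := s) (by omega)
      (by rw [show k + (i + 1 - k) = i + 1 by omega]; exact s1)
      (by rw [show k + (i + 1 - k) = i + 1 by omega]; exact s2)
    rw [show k + (i + 1 - k) = i + 1 by omega] at this
    exact this
  have f1 := h1 i (by omega)
  have f1' := h1' i (by omega)
  rw [hform i s (by omega) s1 s2, show i + 1 - i = 1 by omega] at f1
  rw [hform i s' (by omega) s1' s2', show i + 1 - i = 1 by omega] at f1'
  have a1 := C.lo_step i (by omega)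
  have a2 := C.hi_step i (by omega)
  have a3 := C.lo_le i (by omega)
  have hloS : lo (i + 1) = 0 ∨ lo (i + 1) = lo i + 1 := by
    rcases S with S | S
    · exact S.lo i (by omega)
    · exact S.lo i (by omega)
  have g1 : s = lo i ∨ s = hi i + 1 := by omega
  have g2 : s' = lo i ∨ s' = hi i + 1 := by omega
  have hlo0 : lo (i + 1) = 0 := by omega
  have hlo1 : lo i = 0 := by omega
  have hhi1 : hi (i + 1) = hi i + 1 := by omega
  have hrect : RectShape (i + 1) lo hi := by
    rcases S with S | S
    · exact S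
    · exfalso
      have b1 := S.hi i (by omega)
      have b2 := S.hi (i + 1) le_rfl
      have b3 := S.hi (i - 1) (by omega)
      have b4 := C.lo_mono (l := i - 1) (d := 2) (by omega)
      rw [show i - 1 + 2 = i + 1 by omega] at b4
      have b5 : lo (i - 1) = 0 := by omega
      rcases g1 with g1 | g1
      · have c1 := h1' (i - 1) (by omega)
        rw [hform (i - 1) s' (by omega) s1' s2', show i + 1 - (i - 1) = 2 by omega] at c1
        omega
      · have c1 := h1 (i - 1) (by omega)
        rw [hform (i - 1) s (by omega) s1 s2, show i + 1 - (i - 1) = 2 by omega] at c1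
        omega
  have hhij : hi (i + 1) = i + 1 := by
    have := hrect.hi i (by omega)
    omega
  refine ⟨hrect, hlo0, hhij, ?_⟩
  rcases g1 with g1 | g1
  · left
    exact ⟨by rw [show s = 0 by omega], by rw [show s' = i + 1 by omega]⟩
  · right
    exact ⟨by rw [show s = i + 1 by omega], by rw [show s' = 0 by omega]⟩

end

/-- the cost of a join of two ends is small if one of them is straight -/
lemma cheap_join (H : Gr P r) (hj : 17 ≤ j) {Ea : Tops P → Prop} {z x x' : P}
    (h : Crs j Ea z x x') (hl : lev z = j + 1) (h1 : ∀ k, k ≤ j → nab k x = 1)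
    (h2 : ∀ k, k ≤ 8 → nab k x' = 1) (hE : Bal.NEnd2 j (mX j x') (cX j x')) (hw : w ≤ 3) :
    ful w z ≤ (j + 1 - w) ^ 2 + 5 * (j - w) := by
  have hs := fun k (hk : k < lev z) => h.sum H hk
  have hline := ful_line (z := z) (w := w) (j := j) (by omega) (by omega) (fun k hk => by
    rw [hs k (by omega), h1 k (by omega), h2 k (by omega)])
  obtain ⟨p1, p2, p3, p4, p5⟩ := h.parts H hl.ge
  obtain ⟨m1, m2⟩ := p5 hl
  obtain ⟨x1, x2⟩ := mX_zero h1
  have hz0 : (lev z : ℤ) - (j + 1) = 0 := by rw [hl]; push_cast; ring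
  have hkg : kapZ j z * ((j : ℤ) - w) + gZ j z = mX j x' * ((j : ℤ) - w) - cX j x' := by
    unfold kapZ gZ
    rw [hz0, m1, m2, x1, x2]
    ring
  have hjw : (0 : ℤ) ≤ (j : ℤ) - w := by omega
  have hb : mX j x' * ((j : ℤ) - w) - cX j x' ≤ 5 * ((j : ℤ) - w) := by
    rcases hE with ⟨b1, b2⟩ | ⟨b1, b2, _⟩ | ⟨b1, b2⟩ | ⟨b1, b2⟩ | ⟨b1, b2⟩
    · rw [b1, b2]; linarith
    · rw [b1]; linarith
    · rw [b1, b2]; linarith
    · rw [b1, b2]; linarith
    · rw [b1, b2]; linarith
  have hc1 : (((j + 1 - w) ^ 2 + 5 * (j - w) : ℕ) : ℤ) =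
      ((j : ℤ) + 1 - w) ^ 2 + 5 * ((j : ℤ) - w) := by
    rw [Nat.cast_add, Nat.cast_pow, Nat.cast_mul, Nat.cast_sub (by omega : w ≤ j + 1),
      Nat.cast_sub (by omega : w ≤ j)]
    push_cast
    ring
  have : ((ful w z : ℕ) : ℤ) ≤ (((j + 1 - w) ^ 2 + 5 * (j - w) : ℕ) : ℤ) := by
    rw [hc1, hline, hkg]
    linarith
  exact_mod_cast this

/-- one pendant below the straight ends of the rectangles, or a cheap join -/
theorem pen_or (G : Win.GoodTo P r j) (hj : 17 ≤ j)
    {lo hi : Tops P → ℕ → ℕ} {e : Tops P → ℕ → ℕ → P}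
    (C : ∀ t : Tops P, Cp.Comp j (t : P) (lo t) (hi t) (e t)) (hS : ∀ t, Shape j (lo t) (hi t)) :
    OnePen P j (fun t => RectShape j (lo t) (hi t) ∨ StairShape j (lo t) (hi t)) ∨
      ∃ z : P, Hul.Jn z ∧ ∀ w, w ≤ 3 → ful w z ≤ (j + 1 - w) ^ 2 + 5 * (j - w) := by
  have H := G.H
  by_cases hO : OnePen P j (fun t => RectShape j (lo t) (hi t) ∨ StairShape j (lo t) (hi t))
  · exact Or.inl hO
  right
  unfold OnePen at hO
  push Not at hO
  obtain ⟨y, y', p, p', hB, hl, hl', h1, h1', htt, hne, hp, hp', ho, ho', hpp⟩ := hO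
  set t := topOf y with htdef
  have hy : y ≤ (t : P) := le_topOf y
  have hy' : y' ≤ (t : P) := by rw [htt]; exact le_topOf y'
  obtain ⟨hR, hlo, hhi, hcase⟩ := two_straight H G.good (by omega) (C t) hB hy hy' hl hl' h1 h1' hne
  have key : Odd j ∧ ∃ z u, z ⋖ y' ∧ z ⋖ u ∧ ¬ u ≤ (t : P) := by
    rcases hcase with ⟨e1, e2⟩ | ⟨e1, e2⟩
    · rw [e1] at hp hp' ho ho'
      rw [e2]
      exact pen_left G (by omega) (C t) hR hlo hhi hpp hp hp' ho ho'
    · rw [e1] at hp hp' ho ho'
      rw [e2]
      have h := pen_left G (by omega) (comp_swap (C t)) (hR.swap (C t))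
        (by show j - hi t j = 0; omega) (by show j - lo t j = j; omega) (p := p) (p' := p') hpp
        (by show p ⋖ e t j (j - 0); rw [Nat.sub_zero]; exact hp)
        (by show p' ⋖ e t j (j - 0); rw [Nat.sub_zero]; exact hp')
        (by show ∀ y, p ⋖ y → y = e t j (j - 0); rw [Nat.sub_zero]; exact ho)
        (by show ∀ y, p' ⋖ y → y = e t j (j - 0); rw [Nat.sub_zero]; exact ho')
      obtain ⟨h2, z, u, h3, h4, h5⟩ := h
      refine ⟨h2, z, u, ?_, h4, h5⟩
      have h6 : z ⋖ e t j (j - j) := h3
      rw [Nat.sub_self] at h6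
      exact h6
  obtain ⟨hodd, z, u, hz, hzu, hut⟩ := key
  have lz := (H.covBy_iff.mp hz).2
  have lu := (H.covBy_iff.mp hzu).2
  have hyu : y' ≠ u := by
    rintro rfl
    exact hut hy'
  have hjn : Hul.Jn z := ⟨t, topOf u, t.2, (topOf u).2, fun hh => hut (by
    rw [hh]; exact le_topOf u), hz.1.le.trans hy', hzu.1.le.trans (le_topOf u)⟩
  have hty : topOf y' = t := htt.symm
  have htne : topOf y' ≠ topOf u := by
    rw [hty]
    intro hh
    exact hut (by rw [hh]; exact le_topOf u)
  have G' : Win.GoodTo P r ((j - 1) + 1) := by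
    rw [show j - 1 + 1 = j by omega]
    exact G
  have hcu : (Win.uc u).card = 1 := by
    rcases (Win.near_level' G' (by omega)).1 z y' u (by omega) hz hzu hyu with h2 | ⟨-, h2, -⟩
    · exfalso
      exact hut (G.top_of_ucv (by omega) (by omega) t.2 hy')
    · exact h2
  have hou : u ∈ onlyB (topOf u) := only_of_le H G.good (le_topOf u) (by omega)
  have hstr : (RectShape j (lo (topOf u)) (hi (topOf u)) ∨
      StairShape j (lo (topOf u)) (hi (topOf u))) → ∀ k, k ≤ j → nab k u = 1 := fun hB =>
    early_straight H G.good (by omega) hodd (C (topOf u)) hB (le_topOf u) (by omega) hcu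
  have hcrs : Crs j (fun t => RectShape j (lo t) (hi t) ∨ StairShape j (lo t) (hi t)) z y' u :=
    ⟨hz, hzu, only_of_le H G.good (le_topOf y') (by omega), hou, htne, fun _ => h1', hstr⟩
  have hfin : (∀ k, k ≤ 8 → nab k u = 1) ∧ Bal.NEnd2 j (mX j u) (cX j u) := by
    by_cases hB : RectShape j (lo (topOf u)) (hi (topOf u)) ∨
      StairShape j (lo (topOf u)) (hi (topOf u))
    · obtain ⟨a, b⟩ := mX_zero (hstr hB)
      exact ⟨fun k hk => hstr hB k (by omega), Or.inl ⟨a, b⟩⟩
    · obtain ⟨c1, c2, c3⟩ := late_of_shape H G.good hj (C (topOf u)) (hS (topOf u)) hB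
      exact ⟨fun k hk => nab_one_le (C (topOf u)) hou (by omega) (by omega) (c1 k hk),
        c3 u (le_topOf u) (by omega) hcu⟩
  exact ⟨z, hjn, fun w hw => cheap_join H hj hcrs (by omega) h1' hfin.1 hfin.2 hw⟩

end Pool.Agent.GaussPoset

end

/-! From `Pool.Agent.W_448s7_h5.SevGn` -/

section

/-!
# S7 for `j ≥ 17` (MP_448cb3_co): final form
-/

namespace Pool.Agent.GaussPoset

set_option linter.unusedSectionVars false

open Finset Wd

universe u

variable {P : Type u} [Fintype P] [PartialOrder P] [DecidableEq P] {r j w : ℕ}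

/-- the context of S7, `j ≥ 17`, from the shapes -/
theorem strips_of_shape (G : Win.GoodTo P r j) (hj : 17 ≤ j)
    {lo hi : Tops P → ℕ → ℕ} {e : Tops P → ℕ → ℕ → P}
    (C : ∀ t : Tops P, Cp.Comp j (t : P) (lo t) (hi t) (e t)) (hS : ∀ t, Shape j (lo t) (hi t)) :
    Strips P r j lo hi e (fun t => RectShape j (lo t) (hi t) ∨ StairShape j (lo t) (hi t)) ∧
      Lates j lo hi (fun t => RectShape j (lo t) (hi t) ∨ StairShape j (lo t) (hi t)) := by
  have h := fun t => late_of_shape G.H G.good hj (C t) (hS t)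
  exact ⟨⟨G, hj, C, fun t ht => ht.elim Or.inl fun h => Or.inr (Or.inl h),
    fun t ht => (h t ht).1, pen_or G hj C hS⟩, ⟨fun t ht => (h t ht).2.1, fun t ht => (h t ht).2.2⟩⟩

/-- S7, `j ≥ 17`: an element of level `j + 1` below two maximal elements has a cover which is not
straight and belongs to an early component -/
theorem no_end_join (G : Win.GoodTo P r j) (hj : 17 ≤ j)
    {lo hi : Tops P → ℕ → ℕ} {e : Tops P → ℕ → ℕ → P}
    (C : ∀ t : Tops P, Cp.Comp j (t : P) (lo t) (hi t) (e t)) (hS : ∀ t, Shape j (lo t) (hi t))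
    {z x x' : P} (hl : lev z = j + 1) (hzx : z ⋖ x) (hzx' : z ⋖ x') (hne : topOf x ≠ topOf x')
    (hx : (RectShape j (lo (topOf x)) (hi (topOf x)) ∨ StairShape j (lo (topOf x)) (hi (topOf x))) →
      ∀ k, k ≤ j → nab k x = 1)
    (hx' : (RectShape j (lo (topOf x')) (hi (topOf x')) ∨
      StairShape j (lo (topOf x')) (hi (topOf x'))) → ∀ k, k ≤ j → nab k x' = 1) : False := by
  obtain ⟨S, L⟩ := strips_of_shape G hj C hS
  have l1 := (G.H.covBy_iff.mp hzx).2
  have l2 := (G.H.covBy_iff.mp hzx').2
  exact S.no_end_join L ⟨hzx, hzx', only_of_le G.H G.good (le_topOf x) (by omega),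
    only_of_le G.H G.good (le_topOf x') (by omega), hne, hx, hx'⟩ hl

end Pool.Agent.GaussPoset

end
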