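import Mathlib
import Pool.Agent.W_448zz_h61.Ns
import Pool.Agent.W_448zz_h61.M076
import Pool.Agent.W_448zz_h61.M079
import Pool.Agent.W_448zz_h61.M101

/-! From `Pool.Agent.W_448s7s_h5.SkX` -/

section

/-!
# The windows of S7 with a cap: the balance (MP_448cb3_co)
-/

namespace Pool.Agent.GaussPoset.Sm

set_option linter.unusedSectionVars false

open Polynomial Finset

universe u

variable {P : Type u} [Fintype P] [PartialOrder P] [DecidableEq P] {r j w K : ℕ}
  {N : Tops P → Finset P} {b : Tops P → ℕ} {θ : Tops P → P → ℕ} {XE XO : ℕ → Prop}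

/-- the values of the even own classes, relative to `y ^ 2` -/
def nz (y V : ℤ) : Bool := (List.range 10).any fun t : ℕ =>
  decide (V = 2 * t * y + t * t ∨ V = (2 * t + 1) * y + t * t + t ∨
    V = (2 * t + 1) * y + t * t + t - 1)

/-- values relative to the square -/
def XL (y : ℕ) (L : List ℤ) (v : ℕ) : Prop := ((v : ℤ) - (y : ℤ) ^ 2) ∈ L

/-- the exceptional own values -/
lemma ev_nz {v : ℕ} {cT : ℤ} (h : EvN j w v) (hwj : w ≤ j)
    (hv : (v : ℤ) ≤ ((j + 1 - w : ℕ) : ℤ) ^ 2 + cT)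
    (hT : cT < 7 * ((j + 1 - w : ℕ) : ℤ) + 10) :
    nz ((j + 1 - w : ℕ) : ℤ) ((v : ℤ) - ((j + 1 - w : ℕ) : ℤ) ^ 2) = true := by
  obtain ⟨h1w, h⟩ := h
  obtain ⟨y, hy⟩ : ∃ y, y = j + 1 - w := ⟨_, rfl⟩
  rw [← hy] at hv hT h ⊢
  have hy1 : 1 ≤ y := by omega
  have hbd : ∀ t : ℕ, 2 * (t : ℤ) * y + t * t ≤ cT → t < 10 := by
    intro t ht
    by_contra hcon
    push Not at hcon
    have h1 : (10 : ℤ) ≤ t := by exact_mod_cast hcon
    have h2 : (1 : ℤ) ≤ y := by exact_mod_cast hy1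
    nlinarith
  unfold nz
  rw [List.any_eq_true]
  rcases h with ⟨t, h⟩ | ⟨t, h⟩ | ⟨s, m, E, hs, hm, -, hv', hE, -⟩
  · have e1 : (v : ℤ) - (y : ℤ) ^ 2 = 2 * t * y + t * t := by
      rw [h]; push_cast; ring
    refine ⟨t, List.mem_range.mpr (hbd t (by linarith)), ?_⟩
    rw [decide_eq_true_eq]
    exact Or.inl e1
  · have hty : (0 : ℤ) ≤ t := Int.natCast_nonneg t
    have hyy : (1 : ℤ) ≤ y := by exact_mod_cast hy1
    rcases h with h | h
    · have e1 : (v : ℤ) - (y : ℤ) ^ 2 = (2 * t + 1) * y + t * t + t := by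
        rw [h]; push_cast; ring
      refine ⟨t, List.mem_range.mpr (hbd t (by nlinarith)), ?_⟩
      rw [decide_eq_true_eq]
      exact Or.inr (Or.inl e1)
    · have e1 : (v : ℤ) - (y : ℤ) ^ 2 = (2 * t + 1) * y + t * t + t - 1 := by
        have : (v : ℤ) + 1 = ((y : ℤ) + t) * ((y : ℤ) + t + 1) := by exact_mod_cast h
        linarith
      refine ⟨t, List.mem_range.mpr (hbd t (by nlinarith)), ?_⟩
      rw [decide_eq_true_eq]
      exact Or.inr (Or.inr e1)
  · exfalso
    have h1 : (y + 3) ^ 2 + (y + 1) ≤ v := by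
      rw [hv']
      refine Nat.add_le_add (Nat.pow_le_pow_left (by omega) 2) (le_trans ?_ hE)
      calc y + 1 = (j - w + 2) * 1 := by omega
        _ ≤ (j - w + 2) * m := Nat.mul_le_mul_left _ hm
    have h2 : (((y + 3) ^ 2 + (y + 1) : ℕ) : ℤ) ≤ v := by exact_mod_cast h1
    push_cast at h2
    nlinarith

lemma od_false {v : ℕ} {cT : ℤ} (h : OdN j w v) (hwj : w ≤ j) (h16 : j ≤ 16)
    (hv : (v : ℤ) ≤ ((j + 1 - w : ℕ) : ℤ) ^ 2 + cT)
    (hT : cT < 7 * ((j + 1 - w : ℕ) : ℤ) + 10) : False := by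
  obtain ⟨h1w, h⟩ := h
  rcases h with ⟨s, m, E, hs, hm, -, hv', hE, -⟩ | ⟨h, -⟩
  · obtain ⟨y, hy⟩ : ∃ y, y = j + 1 - w := ⟨_, rfl⟩
    rw [← hy] at hv hT hv'
    have h1 : (y + 3) ^ 2 + (y + 1) ≤ v := by
      rw [hv']
      refine Nat.add_le_add (Nat.pow_le_pow_left (by omega) 2) (le_trans ?_ hE)
      calc y + 1 = (j - w + 2) * 1 := by omega
        _ ≤ (j - w + 2) * m := Nat.mul_le_mul_left _ hm
    have h2 : (((y + 3) ^ 2 + (y + 1) : ℕ) : ℤ) ≤ v := by exact_mod_cast h1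
    push_cast at h2
    nlinarith
  · omega

/-- **The balance at window `w`.** -/
theorem Wk.winB (W : Wk r j w K N b θ) {LE LO : List ℤ}
    (L : Lk P j w K N b θ (XL (j + 1 - w) LE) (XL (j + 1 - w) LO)) (h16 : j ≤ 16) {cT lb : ℤ}
    (hK : (K : ℤ) = ((j + 1 - w : ℕ) : ℤ) ^ 2 + cT) (hT : cT < 7 * ((j + 1 - w : ℕ) : ℤ) + 10)
    (hl0 : lb ≤ 0) (hlE : ∀ x ∈ LE, lb ≤ x) (hlO : ∀ x ∈ LO, lb ≤ x)
    (hlow : ∀ z x x' : P, Cg z x x' → Sok j x → Sok j x' → j + 1 ≤ lev z →
      ∀ k, k < w → nab k z = 2)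
    (hPen : OnePen P j (fun t => 2 ≤ b t) ∨ ∃ z : P, Hul.Jn z ∧
      ful w z ≤ (j + 1 - w) ^ 2 + 5 * (j - w))
    (hJ : ∃ z : P, Hul.Jn z) :
    ∃ V, WinB P j w cT (fun V => LO.elem V) (fun V => nz ((j + 1 - w : ℕ) : ℤ) V || LE.elem V)
      lb V := by
  classical
  have HN := W.natSys
  have hj := W.hj
  have hw := W.hw
  have H := W.gt.H
  -- joins are in the far set
  have hjoin : ∀ z : P, Hul.Jn z → z ∈ rA N := by
    rintro z ⟨t1, t2, h1, h2, hne, hz1, hz2⟩
    have key : ∀ y, y ∉ unnat N → (y ≤ t1 → y ≤ t2 → False) := by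
      intro y hy g1 g2
      have h3 : y ∈ N (topOf y) := HN.mem_iff.mpr ⟨hy, rfl⟩
      exact hne ((HN.top_eq h3 h1 g1).trans (HN.top_eq h3 h2 g2).symm)
    have hzu : z ∈ unnat N := by
      by_contra hcon
      exact key z hcon hz1 hz2
    refine mem_rA.mpr ⟨hzu, fun h => ?_⟩
    obtain ⟨-, y, hy, hup⟩ := mem_twA.mp h
    have hl := W.lt_lev hzu
    refine key y hy ((hup t1).mpr ?_).le ((hup t2).mpr ?_).le
    · exact lt_of_le_of_ne hz1 (by rintro rfl; omega)
    · exact lt_of_le_of_ne hz2 (by rintro rfl; omega)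
  have hpos : ∀ x ∈ rA N, 0 < lev x := fun x hx => by
    have := W.lt_lev (mem_rA.mp hx).1
    omega
  have hbd : (bdR (rA N)).Nonempty := by
    obtain ⟨z, hz⟩ := hJ
    obtain ⟨z', hz', -⟩ := exists_bd_above hpos (hjoin z hz)
    exact ⟨z', hz'⟩
  obtain ⟨v, M, hex⟩ := exists_minK W hbd
  have hmin : ∀ z, Hul.Jn z → v ≤ ful w z := fun z hz => min_le_ful hpos M.bd (hjoin z hz)
  have hPen' : OnePen P j (fun t => 2 ≤ b t) ∨ v ≤ (j + 1 - w) ^ 2 + 5 * (j - w) := by
    rcases hPen with h | ⟨z, hz, h⟩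
    · exact Or.inl h
    · exact Or.inr ((hmin z hz).trans h)
  have hlev : ∀ z x x' : P, Cg z x x' → j + 1 ≤ lev z := by
    intro z x x' h
    by_contra hcon
    exact W.gt.no_join z (by omega) h.jn
  have hyc : ((j + 1 - w : ℕ) : ℤ) = (j : ℤ) + 1 - w := by
    rw [Nat.cast_sub (by omega)]
    push_cast
    ring
  have hline : ∀ z x x' : P, Cg z x x' → Sok j x → Sok j x' →
      (ful w z : ℤ) = ((j + 1 - w : ℕ) : ℤ) ^ 2 + (kapZ j z * ((j : ℤ) - w) + gZ j z) := by
    intro z x x' h hs hs'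
    have hl := hlev z x x' h
    rw [hyc]
    exact ful_line (by omega) (by omega) (hlow z x x' h hs hs' hl)
  have hpar : ∀ {z x x' : P}, Cg z x x' → Sok j x → Sok j x' →
      anc z = 2 * w + nst w (fun z => lev z - w) z := by
    intro z x x' h hs hs'
    have hl := hlev z x x' h
    have h2 := hlow z x x' h hs hs' hl
    unfold anc
    obtain ⟨c, hc⟩ : ∃ c, lev z = w + c := ⟨lev z - w, by omega⟩
    rw [nst_eq, hc, Finset.sum_range_add, Nat.add_sub_cancel_left,
      Finset.sum_congr rfl (g := fun _ => 2) (fun k hk => h2 k (by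
        rw [mem_range] at hk
        omega)), Finset.sum_const, card_range, smul_eq_mul, Nat.mul_comm]
  have hkp : ∀ {z : P}, (Odd (anc z) → Odd (kapZ j z)) ∧ (Even (anc z) → Even (kapZ j z)) :=
    kap_parity
  refine ⟨(v : ℤ) - ((j + 1 - w : ℕ) : ℤ) ^ 2, ?_⟩
  have hmn : ∀ z x x' : P, Cg z x x' → Sok j x → Sok j x' →
      (v : ℤ) - ((j + 1 - w : ℕ) : ℤ) ^ 2 ≤ kapZ j z * (j - w) + gZ j z := by
    intro z x x' h hs hs'
    have h1 : (v : ℤ) ≤ ful w z := by exact_mod_cast hmin z h.jn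
    rw [hline z x x' h hs hs'] at h1
    linarith
  by_cases hcap : K < v
  · have hcap' : (K : ℤ) < v := by exact_mod_cast hcap
    exact ⟨fun h => by linarith, hmn, fun h => by linarith, fun h => by linarith⟩
  have hcv : (v : ℤ) ≤ ((j + 1 - w : ℕ) : ℤ) ^ 2 + cT := by
    rw [← hK]
    exact_mod_cast not_lt.mp hcap
  obtain ⟨ho, he⟩ := W.both L hPen' M hex (not_lt.mp hcap)
  have hsq : ∀ z x x' : P, Cg z x x' → ful w z = v → 0 ≤ (v : ℤ) - ((j + 1 - w : ℕ) : ℤ) ^ 2 := by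
    intro z x x' h he
    have hl := hlev z x x' h
    obtain ⟨c, hc⟩ : ∃ c, lev z = w + c := ⟨lev z - w, by omega⟩
    have h4 := ful_ge (w := w) (z := z) (c := c) (fun _ => 0) hc
      (fun n hn1 hn2 => h.two_le H (k := w + n) (by omega))
    simp only [mul_zero, Finset.sum_const_zero, add_zero] at h4
    have h5 : (j + 1 - w) ^ 2 ≤ c ^ 2 := Nat.pow_le_pow_left (by omega) 2
    have h6 : (j + 1 - w) ^ 2 ≤ v := by rw [← he]; exact h5.trans h4
    have h7 : (((j + 1 - w) ^ 2 : ℕ) : ℤ) ≤ v := by exact_mod_cast h6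
    push_cast at h7
    linarith
  have hnzpos : ∀ {V : ℤ}, nz ((j + 1 - w : ℕ) : ℤ) V = true → 0 ≤ V := by
    intro V hV
    unfold nz at hV
    rw [List.any_eq_true] at hV
    obtain ⟨t, -, ht⟩ := hV
    rw [decide_eq_true_eq] at ht
    have h1 : (0 : ℤ) ≤ t := Int.natCast_nonneg t
    have h2 : (1 : ℤ) ≤ ((j + 1 - w : ℕ) : ℤ) := by
      have : 1 ≤ j + 1 - w := by omega
      exact_mod_cast this
    rcases ht with ht | ht | ht <;> nlinarith
  refine ⟨fun _ => ?_, hmn, fun _ => ?_, fun _ => ?_⟩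
  · rcases ho with ⟨z, x, x', h1, h2, h3, h4, h5⟩ | h | h
    · exact hl0.trans (hsq z x x' h1 h4)
    · exact (od_false h (by omega) h16 hcv hT).elim
    · exact hlO _ h
  · rcases ho with ⟨z, x, x', h1, h2, h3, h4, h5⟩ | h | h
    · left
      refine ⟨z, x, x', h1, h2, h3, hkp.1 (by
        rw [hpar h1 h2 h3]
        exact (even_two_mul w).add_odd h5), ?_⟩
      have := hline z x x' h1 h2 h3
      rw [h4] at this
      linarith
    · exact (od_false h (by omega) h16 hcv hT).elim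
    · right
      exact List.elem_iff.mpr h
  · rcases he with ⟨z, x, x', h1, h2, h3, h4, h5⟩ | h | h
    · left
      refine ⟨z, x, x', h1, h2, h3, hkp.2 (by
        rw [hpar h1 h2 h3]
        exact (even_two_mul w).add h5), ?_⟩
      have := hline z x x' h1 h2 h3
      rw [h4] at this
      linarith
    · right
      rw [Bool.or_eq_true]
      exact Or.inl (ev_nz h (by omega) hcv hT)
    · right
      rw [Bool.or_eq_true]
      exact Or.inr (List.elem_iff.mpr h)

end Pool.Agent.GaussPoset.Sm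

end

/-! From `Pool.Agent.W_448s7s_h5.SkZ` -/

section

/-!
# The window `1` for `7 ≤ j ≤ 16`: the balance (MP_448cb3_co)
-/

namespace Pool.Agent.GaussPoset.Sm

set_option linter.unusedSectionVars false

open Finset Wd Cp

universe u

variable {P : Type u} [Fintype P] [PartialOrder P] [DecidableEq P] {r j w K : ℕ}
  {lo hi : Tops P → ℕ → ℕ} {e : Tops P → ℕ → ℕ → P}

/-- one pendant below the straight ends of the rectangles, or a join at a straight end -/
theorem Ctx.pen_or (K : Ctx P r j lo hi e) :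
    OnePen P j (fun t => RectShape j (lo t) (hi t) ∨ StairShape j (lo t) (hi t)) ∨
      (j % 2 = 1 ∧ ∃ z x x' : P, Cg z x x' ∧ lev z = j + 1 ∧ (∀ k, k ≤ j → nab k x = 1) ∧
        (Win.uc x').card = 1) := by
  have G := K.gt
  have H := G.H
  have hj := K.h5
  have C := K.comp
  by_cases hO : OnePen P j (fun t => RectShape j (lo t) (hi t) ∨ StairShape j (lo t) (hi t))
  · exact Or.inl hO
  right
  unfold OnePen at hO
  push Not at hO
  obtain ⟨y, y', p, p', hB, hl, hl', h1, h1', htt, hne, hp, hp', ho, ho', hpp⟩ := hO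
  set t := topOf y with htdef
  have hy : y ≤ (t : P) := le_topOf y
  have hy' : y' ≤ (t : P) := by rw [htt]; exact le_topOf y'
  obtain ⟨hR, hlo, hhi, hcase⟩ := two_straight H G.good (by omega) (C t) hB hy hy' hl hl' h1 h1' hne
  have key : Odd j ∧ ∃ z u, z ⋖ y' ∧ z ⋖ u ∧ ¬ u ≤ (t : P) := by
    rcases hcase with ⟨e1, e2⟩ | ⟨e1, e2⟩
    · rw [e1] at hp hp' ho ho'
      rw [e2]
      exact pen_left G (by omega) (C t) hR hlo hhi hpp hp hp' ho ho'
    · rw [e1] at hp hp' ho ho'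
      rw [e2]
      have h := pen_left G (by omega) (comp_swap (C t)) (hR.swap (C t))
        (by show j - hi t j = 0; omega) (by show j - lo t j = j; omega) (p := p) (p' := p') hpp
        (by show p ⋖ e t j (j - 0); rw [Nat.sub_zero]; exact hp)
        (by show p' ⋖ e t j (j - 0); rw [Nat.sub_zero]; exact hp')
        (by show ∀ y, p ⋖ y → y = e t j (j - 0); rw [Nat.sub_zero]; exact ho)
        (by show ∀ y, p' ⋖ y → y = e t j (j - 0); rw [Nat.sub_zero]; exact ho')
      obtain ⟨h2, z, u, h3, h4, h5⟩ := h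
      refine ⟨h2, z, u, ?_, h4, h5⟩
      have h6 : z ⋖ e t j (j - j) := h3
      rw [Nat.sub_self] at h6
      exact h6
  obtain ⟨hodd, z, u, hz, hzu, hut⟩ := key
  have lz := (H.covBy_iff.mp hz).2
  have lu := (H.covBy_iff.mp hzu).2
  have hyu : y' ≠ u := by
    rintro rfl
    exact hut hy'
  have hty : topOf y' = t := htt.symm
  have htne : topOf y' ≠ topOf u := by
    rw [hty]
    intro hh
    exact hut (by rw [hh]; exact le_topOf u)
  have G' : Win.GoodTo P r ((j - 1) + 1) := by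
    rw [show j - 1 + 1 = j by omega]
    exact G
  have hcu : (Win.uc u).card = 1 := by
    rcases (Win.near_level' G' (by omega)).1 z y' u (by omega) hz hzu hyu with h2 | ⟨-, h2, -⟩
    · exfalso
      exact hut (G.top_of_ucv (by omega) (by omega) t.2 hy')
    · exact h2
  have hou : u ∈ onlyB (topOf u) := only_of_le H G.good (le_topOf u) (by omega)
  exact ⟨Nat.odd_iff.mp hodd, z, y', u, Cg.mk' hz hzu (only_of_le H G.good (le_topOf y') (by omega))
    hou htne, by omega, h1', hcu⟩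

/-- the cost of a join at a straight end -/
lemma Ctx.cheap (K : Ctx P r j lo hi e) (hw : w < j) (hodd : j % 2 = 1) {E : List (ℕ × ℕ × ℕ)}
    (hE : ChkE j E) (h0 : (0, 0, 0) ∈ E)
    (hb : ∀ s ∈ E, (s.1 : ℤ) * ((j : ℤ) - w) - s.2.1 ≤ 5 * ((j : ℤ) - w)) {z x x' : P}
    (h : Cg z x x') (hl : lev z = j + 1) (h1 : ∀ k, k ≤ j → nab k x = 1)
    (hu : (Win.uc x').card = 1) (h2 : ∀ k, k < w → nab k z = 2) :
    ful w z ≤ (j + 1 - w) ^ 2 + 5 * (j - w) := by
  have H := K.gt.H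
  obtain ⟨l1, l2⟩ := h.lev_eq H
  obtain ⟨k1, k2, k3, k4, k5, k6⟩ := h.line H hl.ge
  obtain ⟨n0, d0⟩ := k6 (by omega)
  have hn : (nab j x : ℤ) = 1 ∧ (nab j x' : ℤ) = 1 := by
    constructor
    · rw [show j = lev x by omega, nab_self]; norm_num
    · rw [show j = lev x' by omega, nab_self]; norm_num
  have hz0 : (lev z : ℤ) - (j + 1) = 0 := by rw [hl]; push_cast; ring
  obtain ⟨x1, x2⟩ := mX_zero h1
  obtain ⟨s, g1, g2, g3, g4⟩ := K.endd h.only' (by omega) hu hE h0 (fun hf => by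
    have := hf.2.1
    omega)
  have hline := ful_line (z := z) (w := w) (j := j) (by omega) (by omega) h2
  have hc1 : (((j + 1 - w) ^ 2 + 5 * (j - w) : ℕ) : ℤ) =
      ((j : ℤ) + 1 - w) ^ 2 + 5 * ((j : ℤ) - w) := by
    rw [Nat.cast_add, Nat.cast_pow, Nat.cast_mul, Nat.cast_sub (by omega : w ≤ j + 1),
      Nat.cast_sub (by omega : w ≤ j)]
    push_cast
    ring
  have : ((ful w z : ℕ) : ℤ) ≤ (((j + 1 - w) ^ 2 + 5 * (j - w) : ℕ) : ℤ) := by
    rw [hc1, hline, k1, k2, n0, d0, hn.1, hn.2, hz0, x1, x2, g2, g3]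
    have := hb s g1
    linarith
  exact_mod_cast this

/-- the strips at window `w` -/
theorem Ctx.types (K : Ctx P r j lo hi e) (h2 : 2 * w ≤ j)
    (hT : ∀ t : Tops P, lo t w = hi t w ∨ RectShape j (lo t) (hi t) ∨
      StairShape j (lo t) (hi t) ∨ StairShape j (fun k => k - hi t k) (fun k => k - lo t k)) :
    ∃ (N : Tops P → Finset P) (θ : Tops P → P → ℕ), (∀ t, TypeX j w t (hi t w - lo t w + 1) (N t) (θ t)) ∧
      (∀ t, TopType j w t (hi t w - lo t w + 1) (N t) (θ t)) ∧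
      ∑ t, (hi t w - lo t w + 1) = (lv P w).card ∧ Unq P w (fun t => hi t w - lo t w + 1) := by
  have H := K.gt.H
  have hj := K.h5
  choose N θ h1 h2 using fun t => exists_typeX K.gt (by omega) (K.comp t) (i := w) (by omega)
    (hT t)
  refine ⟨N, θ, h1, h2, (card_level H K.gt.good K.comp (by omega)).symm, ?_⟩
  intro t ht x y hx hy hlx hly
  have e1 := (K.comp t).lo_le w (by omega)
  obtain ⟨s, a1, a2, a3⟩ := (K.comp t).surj x hx (by omega)
  obtain ⟨s', b1, b2, b3⟩ := (K.comp t).surj y hy (by omega)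
  rw [hlx] at a1 a2 a3
  rw [hly] at b1 b2 b3
  simp only at ht
  rw [← a3, ← b3, show s = s' by omega]

/-- **the balance at window `1`** -/
theorem Ctx.win1 (K : Ctx P r j lo hi e) (hj7 : 6 ≤ j) {E : List (ℕ × ℕ × ℕ)} (hE : ChkE j E)
    (h0 : (0, 0, 0) ∈ E)
    (hb : ∀ s ∈ E, (s.1 : ℤ) * ((j : ℤ) - 1) - s.2.1 ≤ 5 * ((j : ℤ) - 1))
    (hJ : ∃ z : P, Hul.Jn z) :
    ∃ V, WinB P j 1 (((j * (j - 1) / 2 : ℕ) : ℤ) - 1) (fun _ => false) (nz j) 0 V := by
  have H := K.gt.H
  have h16 := K.h16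
  have hsh : ∀ t : Tops P, lo t 1 = hi t 1 ∨ RectShape j (lo t) (hi t) ∨
      StairShape j (lo t) (hi t) ∨ StairShape j (fun k => k - hi t k) (fun k => k - lo t k) := by
    intro t
    rcases shape_cases (K.comp t) (by omega) (K.shape t) with h | h | ⟨a, h, h3⟩
    · exact Or.inl (h 1 (by omega))
    · exact Or.inr (by tauto)
    · left
      rw [(h.low 1 (by have := h.two; omega)).1, (h.low 1 (by have := h.two; omega)).2]
  obtain ⟨N, θ, t1, t2, hs, hu⟩ := K.types (w := 1) (by omega) hsh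
  have hKc : 2 * K1 j < 3 * (j + 1 - 1) ^ 2 + 3 * (j + 1 - 1) := by
    unfold K1
    obtain ⟨i, rfl⟩ : ∃ i, j = i + 1 := ⟨j - 1, by omega⟩
    rw [show i + 1 - 1 = i by omega, show i + 1 + 1 - 1 = i + 1 by omega]
    have e1 : (i + 1) ^ 2 = i * i + 2 * i + 1 := by ring
    have e2 : (i + 1) * i = i * i + i := by ring
    rw [e1, e2]
    omega
  have W : Wk r j 1 (K1 j) N (fun t => hi t 1 - lo t 1 + 1) θ :=
    { gt := K.gt, hj := hj7, hw1 := le_rfl, hw := by norm_num, typ := t1, top := t2, sum_b := hs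
      hK := hKc
      rdeep := fun C _ hx _ h1 h2 h3 h4 => rect_deep1 C hj7 hx h1 h2 h3 h4
      sdeep := fun h => absurd h (by norm_num) }
  have L : Lk P j 1 (K1 j) N (fun t => hi t 1 - lo t 1 + 1) θ (XL (j + 1 - 1) [])
      (XL (j + 1 - 1) []) :=
    { unq := hu
      nsk := fun z x x' h hl _ hn => nsk1 H hj7 h16 h hl hn
      dj := fun v z x hz _ hl hzx hD => (W.deep_j1 hz hl hzx hD).elim }
  have hy : ((j + 1 - 1 : ℕ) : ℤ) = j := by
    rw [Nat.add_sub_cancel]
  have hpen : OnePen P j (fun t => 2 ≤ hi t 1 - lo t 1 + 1) ∨ ∃ z : P, Hul.Jn z ∧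
      ful 1 z ≤ (j + 1 - 1) ^ 2 + 5 * (j - 1) := by
    rcases K.pen_or with h | ⟨hodd, z, x, x', h1, h2, h3, h4⟩
    · left
      intro e e' p p' hB
      refine h e e' p p' ?_
      rcases shape_cases (K.comp (topOf e)) (by omega) (K.shape (topOf e)) with h | h | ⟨a, h, h3⟩
      · have := h 1 (by omega)
        omega
      · exact h
      · have e1 := h.low 1 (by have := h.two; omega)
        omega
    · right
      refine ⟨z, h1.jn, K.cheap (by omega) hodd hE h0 (by exact_mod_cast hb) h1 h2 h3 h4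
        fun k hk => ?_⟩
      obtain rfl : k = 0 := by omega
      rw [h1.sum H (by omega), nab_zero_only h1.only, nab_zero_only h1.only']
  obtain ⟨V, hV⟩ := W.winB L h16 (cT := ((j * (j - 1) / 2 : ℕ) : ℤ) - 1) (lb := 0)
    (by rw [hy]; exact K1_cast hj7)
    (by
      rw [hy]
      have h1 : j * (j - 1) / 2 < 7 * j + 11 := by
        have h2 : j * (j - 1) ≤ j * 15 := Nat.mul_le_mul_left _ (by omega)
        omega
      have : ((j * (j - 1) / 2 : ℕ) : ℤ) < 7 * j + 11 := by exact_mod_cast h1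
      linarith)
    le_rfl (fun x hx => absurd hx List.not_mem_nil) (fun x hx => absurd hx List.not_mem_nil)
    (fun z x x' h _ _ hl k hk => by
      obtain rfl : k = 0 := by omega
      rw [h.sum H (by omega), nab_zero_only h.only, nab_zero_only h.only'])
    hpen hJ
  refine ⟨V, hV.lo, hV.mn, fun h => ?_, fun h => ?_⟩
  · rcases hV.od h with h' | h'
    · exact Or.inl h'
    · simp at h'
  · rcases hV.ev h with h' | h'
    · exact Or.inl h'
    · right
      rw [hy] at h'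
      simpa using h'

end Pool.Agent.GaussPoset.Sm

end
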