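import Mathlib
import Pool.Agent.W_448zz_h61.Ns
import Pool.Agent.W_448zz_h61.M080
import Pool.Agent.W_448zz_h61.M102

/-! From `Pool.Agent.W_448s7s_h5.SrC` -/

section

/-!
# The windows `2`, `3` for `10 ≤ j ≤ 16`: the balance (MP_448cb3_co)
-/

namespace Pool.Agent.GaussPoset.Sm

set_option linter.unusedSectionVars false

open Finset Wd Cp

universe u

variable {P : Type u} [Fintype P] [PartialOrder P] [DecidableEq P] {r j w K : ℕ}
  {lo hi : Tops P → ℕ → ℕ} {e : Tops P → ℕ → ℕ → P}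

/-- sides which are not allowed do not occur at the windows `2`, `3` -/
lemma nsk23' (hj : 10 ≤ j) (hw : w = 2 ∨ w = 3) {x : P} (hn : nab w x = 1) (hs : ¬ Sok j x) :
    False := by
  apply hs
  refine ⟨fun hf => ?_, fun h12 hf => ?_⟩
  · have := hf.2 w (by omega) (by omega)
    omega
  · have := hf.2.2 w (by omega)
    rcases hw with rfl | rfl <;> omega

/-- late components are light -/
lemma LateC.lt {lo hi : ℕ → ℕ} {a : ℕ} (h : LateC j lo hi a) (h3 : 3 ≤ a)
    (hw : w = 2 ∨ (w = 3 ∧ 11 ≤ j)) : w < a := by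
  rcases hw with rfl | ⟨rfl, h11⟩
  · omega
  · exact h.four h11

/-- the low levels of an allowed side -/
lemma Ctx.low_one' (K : Ctx P r j lo hi e) (hF : NoFo P j) (hj : 10 ≤ j)
    (hw : w = 2 ∨ (w = 3 ∧ 11 ≤ j)) {z x x' : P} (h : Cg z x x') (hs : Sok j x)
    {k : ℕ} (hk : k < w) : nab k x = 1 := by
  have hl := K.lev_ge h
  obtain ⟨l1, l2⟩ := h.lev_eq K.gt.H
  have hend : lev x = j → (Win.uc x).card = 1 := fun hh => (K.ends h (by omega)).1
  rcases K.cases h.only (by omega) hend hs.1 with g | g | ⟨a, g, g3⟩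
  · exfalso
    rcases Nat.lt_or_ge j 12 with h12 | h12
    · exact hF h12 z x x' h (by rw [l1, g.1]) g
    · exact hs.2 h12 g
  · exact g k (by omega)
  · have h4 := g.lt (g3 (by omega)) hw
    obtain ⟨e1, e2⟩ := g.low k (by omega)
    exact nab_one_of_eq (K.comp (topOf x)) h.only (by omega) (by omega) (by rw [e1, e2])

/-- **the balance at the windows `2`, `3`** -/
theorem Ctx.win23' (K : Ctx P r j lo hi e) (hF : NoFo P j) (h10 : 10 ≤ j)
    (hwj : w = 2 ∨ (w = 3 ∧ 11 ≤ j)) {cT : ℕ}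
    {LE LO : List ℤ} {lb : ℤ} {E : List (ℕ × ℕ × ℕ)} (hE : ChkE j E) (h0 : (0, 0, 0) ∈ E)
    (hb : j % 2 = 1 → ∀ s ∈ E, (s.1 : ℤ) * ((j : ℤ) - w) - s.2.1 ≤ 5 * ((j : ℤ) - w))
    (c1 : ∀ a ∈ Finset.Icc 2 ((j + 1) / 2), (j + 1 - w) ^ 2 + cT + 1 < stC w (j + 1) a)
    (c2 : ∀ a ∈ Finset.Icc 2 (j - 1), (j + 1 - w) ^ 2 + cT + 1 < reC w (j + 1) a)
    (c3 : j % 2 = 1 → (j + 1 - w) ^ 2 + cT < flC w j)
    (c4 : j % 2 = 0 → (j + 1 - w) ^ 2 + cT < foC w j + foE w j)
    (c5 : j % 2 = 0 → (Even (foN w j) ∧ (foC w j : ℤ) - ((j + 1 - w : ℕ) : ℤ) ^ 2 ∈ LE) ∨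
      (Odd (foN w j) ∧ (foC w j : ℤ) - ((j + 1 - w : ℕ) : ℤ) ^ 2 ∈ LO))
    (c6 : 2 * ((j + 1 - w) ^ 2 + cT) < 3 * (j + 1 - w) ^ 2 + 3 * (j + 1 - w))
    (c7 : cT < 7 * (j + 1 - w) + 10)
    (hl0 : lb ≤ 0) (hlE : ∀ x ∈ LE, lb ≤ x) (hlO : ∀ x ∈ LO, lb ≤ x)
    (hJ : ∃ z : P, Hul.Jn z) :
    ∃ V, WinB P j w cT (fun V => LO.elem V) (fun V => nz ((j + 1 - w : ℕ) : ℤ) V || LE.elem V)
      lb V := by
  have H := K.gt.H
  have h16 := K.h16
  have hw : w = 2 ∨ w = 3 := by omega
  have hsh : ∀ t : Tops P, lo t w = hi t w ∨ RectShape j (lo t) (hi t) ∨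
      StairShape j (lo t) (hi t) ∨ StairShape j (fun k => k - hi t k) (fun k => k - lo t k) := by
    intro t
    rcases shape_cases (K.comp t) (by omega) (K.shape t) with h | h | ⟨a, h, h3⟩
    · exact Or.inl (h w (by omega))
    · exact Or.inr (by tauto)
    · left
      have h4 := h.lt (h3 (by omega)) hwj
      rw [(h.low w (by omega)).1, (h.low w (by omega)).2]
  obtain ⟨N, θ, t1, t2, hs, hu⟩ := K.types (w := w) (by omega) hsh
  have W : Wk r j w ((j + 1 - w) ^ 2 + cT) N (fun t => hi t w - lo t w + 1) θ :=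
    { gt := K.gt, hj := by omega, hw1 := by omega, hw := by omega, typ := t1, top := t2
      sum_b := hs
      hK := c6
      rdeep := fun C _ hx _ h1 h2 h3 h4 => rdeep_of (by omega) (by omega) c2 C hx h1 h2 h3 h4
      sdeep := fun _ _ _ _ C _ hx _ h1 h3 h4 => sdeep_of (by omega) (by omega) c1 C hx h1 h3 h4 }
  have L : Lk P j w ((j + 1 - w) ^ 2 + cT) N (fun t => hi t w - lo t w + 1) θ
      (XL (j + 1 - w) LE) (XL (j + 1 - w) LO) :=
    { unq := hu
      nsk := fun z x x' h hl hn hns => (nsk23' h10 hw hn hns).elim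
      dj := fun v z x hz hc hl hzx hD =>
        W.deep_j (by omega) (by omega) c3 c4 c5 hz hc hl hzx hD }
  have hlow : ∀ z x x' : P, Cg z x x' → Sok j x → Sok j x' → j + 1 ≤ lev z →
      ∀ k, k < w → nab k z = 2 := by
    intro z x x' h hs hs' hl k hk
    rw [h.sum H (by omega), K.low_one' hF h10 hwj h hs hk, K.low_one' hF h10 hwj h.symm hs' hk]
  have hpen : OnePen P j (fun t => 2 ≤ hi t w - lo t w + 1) ∨ ∃ z : P, Hul.Jn z ∧
      ful w z ≤ (j + 1 - w) ^ 2 + 5 * (j - w) := by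
    rcases K.pen_or with h | ⟨hodd, z, x, x', h1, h2, h3, h4⟩
    · left
      intro e e' p p' hB
      refine h e e' p p' ?_
      rcases shape_cases (K.comp (topOf e)) (by omega) (K.shape (topOf e)) with h | h | ⟨a, h, h3⟩
      · have := h w (by omega)
        omega
      · exact h
      · have h4 := h.lt (h3 (by omega)) hwj
        have e1 := h.low w (by omega)
        omega
    · right
      have hs : Sok j x := ⟨fun hf => by
        have := hf.1
        have := (h1.lev_eq H).1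
        omega, fun _ hf => by
        have := hf.2.1
        omega⟩
      have hs' : Sok j x' := ⟨fun hf => by
        have := hf.1
        have := (h1.lev_eq H).2
        omega, fun _ hf => by
        have := hf.2.1
        omega⟩
      exact ⟨z, h1.jn, K.cheap (by omega) hodd hE h0 (hb hodd) h1 h2 h3 h4
        (hlow z x x' h1 hs hs' h2.ge)⟩
  exact W.winB L h16 (cT := (cT : ℤ)) (lb := lb) (by push_cast; ring)
    (by exact_mod_cast c7) hl0 hlE hlO hlow hpen hJ

end Pool.Agent.GaussPoset.Sm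

end

/-! From `Pool.Agent.W_448s7s_h5.SrJ11` -/

section

/-!
# S7 for `j = 11`: windows `0, …, 3` (MP_448cb3_co)
-/

namespace Pool.Agent.GaussPoset.Sm

set_option linter.unusedSectionVars false

open Finset Wd

universe u

variable {P : Type u} [Fintype P] [PartialOrder P] [DecidableEq P] {r : ℕ}

/-- ends -/
def Er11 : List (ℕ × ℕ × ℕ) :=
    [(0, 0, 0), (1, 2, 1), (1, 3, 0), (1, 4, 0), (1, 5, 0), (3, 9, 1), (5, 20, 1), (5, 25, 0)]

/-- sides, two or more levels deeper -/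
def Sr11b : List (ℕ × ℕ × ℕ) :=
    [(0, 0, 0), (0, 0, 1), (1, 1, 0), (1, 1, 1), (1, 1, 2), (1, 2, 0), (1, 3, 0), (1, 4, 0),
    (1, 5, 0), (2, 3, 0), (2, 3, 1), (2, 3, 2), (3, 6, 0), (3, 6, 1), (3, 9, 0), (4, 7, 1),
    (4, 7, 2), (4, 7, 3), (4, 10, 0), (4, 10, 1), (4, 10, 2), (5, 12, 0), (5, 12, 1),
    (5, 15, 0), (5, 15, 1), (5, 20, 0), (5, 25, 0), (6, 13, 1), (6, 13, 2), (6, 13, 3),
    (6, 16, 1), (6, 16, 2), (6, 21, 0), (7, 23, 0), (7, 23, 1), (8, 24, 1), (8, 24, 2),
    (8, 31, 0), (8, 31, 1)]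

lemma chkEr11 : ChkE 11 Er11 := by decide +kernel

lemma chkSr11b : ChkS 11 2 Sr11b := by decide +kernel

/-- caps -/
def cr11 (w : ℕ) : ℤ :=
  if w = 0 then cap0 11 else if w = 1 then ((11 * (11 - 1) / 2 : ℕ) : ℤ) - 1 else if w = 2 then ((21 : ℕ) : ℤ) else ((15 : ℕ) : ℤ)

/-- even noise -/
def ner11 (w : ℕ) (V : ℤ) : Bool :=
  if w = 0 then false else if w = 1 then nz 11 V else if w = 2 then (nz ((11 + 1 - 2 : ℕ) : ℤ) V || ([] : List ℤ).elem V) else (nz ((11 + 1 - 3 : ℕ) : ℤ) V || ([] : List ℤ).elem V)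

/-- odd noise -/
def nor11 (w : ℕ) (V : ℤ) : Bool :=
  if w = 0 then false else if w = 1 then false else if w = 2 then ([] : List ℤ).elem V else ([] : List ℤ).elem V

/-- lower bounds -/
def lwr11 (w : ℕ) : ℤ :=
  if w = 0 then 0 else if w = 1 then 0 else if w = 2 then (0) else (0)

lemma balr11 {lo hi : Tops P → ℕ → ℕ} {e : Tops P → ℕ → ℕ → P} (K : Ctx P r 11 lo hi e)
    (hF : NoFo P 11) (hJ : ∃ z : P, Hul.Jn z) :
    ∀ w ≤ 3, ∃ V, WinB P 11 w (cr11 w) (nor11 w) (ner11 w) (lwr11 w) V := by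
  intro w hw
  have : w = 0 ∨ w = 1 ∨ w = 2 ∨ w = 3 := by omega
  rcases this with rfl | rfl | rfl | rfl
  · exact K.win0 hJ
  · exact K.win1 (by norm_num) chkEr11 (by decide +kernel) (by decide +kernel) hJ
  · exact K.win23' (w := 2) (cT := 21) (LE := []) (LO := []) (lb := 0) hF (by norm_num)
      (by norm_num) chkEr11 (by decide +kernel)
      (fun _ => by decide +kernel)
      (by decide +kernel) (by decide +kernel)
      (fun _ => by decide +kernel)
      (fun h => absurd h (by norm_num))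
      (fun h => absurd h (by norm_num))
      (by norm_num) (by norm_num) (by norm_num) (by decide +kernel) (by decide +kernel) hJ
  · exact K.win23' (w := 3) (cT := 15) (LE := []) (LO := []) (lb := 0) hF (by norm_num)
      (by norm_num) chkEr11 (by decide +kernel)
      (fun _ => by decide +kernel)
      (by decide +kernel) (by decide +kernel)
      (fun _ => by decide +kernel)
      (fun h => absurd h (by norm_num))
      (fun h => absurd h (by norm_num))
      (by norm_num) (by norm_num) (by norm_num) (by decide +kernel) (by decide +kernel) hJ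

end Pool.Agent.GaussPoset.Sm

end

/-! From `Pool.Agent.W_448s7s_h5.SrJ13` -/

section

/-!
# S7 for `j = 13`: windows `0, …, 3` (MP_448cb3_co)
-/

namespace Pool.Agent.GaussPoset.Sm

set_option linter.unusedSectionVars false

open Finset Wd

universe u

variable {P : Type u} [Fintype P] [PartialOrder P] [DecidableEq P] {r : ℕ}

/-- ends -/
def Er13 : List (ℕ × ℕ × ℕ) :=
    [(0, 0, 0), (1, 2, 1), (1, 3, 0), (1, 4, 0), (1, 5, 0), (1, 6, 0), (3, 9, 1), (5, 20, 1),
    (5, 25, 0)]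

/-- sides, one level deeper -/
def Sr13a : List (ℕ × ℕ × ℕ) :=
    [(0, 0, 0), (0, 0, 1), (1, 1, 0), (1, 1, 1), (1, 2, 0), (1, 3, 0), (1, 4, 0), (1, 5, 0),
    (1, 6, 0), (2, 3, 1), (3, 6, 0), (3, 6, 1), (3, 9, 0), (4, 7, 1), (4, 10, 1), (5, 12, 1),
    (5, 15, 0), (5, 15, 1), (5, 20, 0), (5, 25, 0), (6, 13, 1), (6, 16, 1), (6, 21, 1),
    (7, 23, 1), (8, 24, 1), (8, 31, 0), (8, 31, 1), (9, 33, 0), (10, 34, 1), (10, 50, 0)]

/-- sides, two or more levels deeper -/
def Sr13b : List (ℕ × ℕ × ℕ) :=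
    [(0, 0, 0), (0, 0, 1), (1, 1, 0), (1, 1, 1), (1, 1, 2), (1, 2, 0), (1, 3, 0), (1, 4, 0),
    (1, 5, 0), (1, 6, 0), (2, 3, 0), (2, 3, 1), (2, 3, 2), (3, 6, 0), (3, 6, 1), (3, 9, 0),
    (4, 7, 1), (4, 7, 2), (4, 7, 3), (4, 10, 0), (4, 10, 1), (4, 10, 2), (5, 12, 0),
    (5, 12, 1), (5, 15, 0), (5, 15, 1), (5, 20, 0), (5, 25, 0), (6, 13, 1), (6, 13, 2),
    (6, 13, 3), (6, 16, 1), (6, 16, 2), (6, 21, 0), (6, 21, 1), (7, 23, 0), (7, 23, 1),
    (7, 28, 0), (8, 24, 1), (8, 24, 2), (8, 24, 3), (8, 31, 0), (8, 31, 1), (9, 33, 0),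
    (10, 34, 1), (10, 34, 2), (10, 50, 0), (11, 35, 1), (11, 35, 2), (11, 35, 3)]

lemma chkEr13 : ChkE 13 Er13 := by decide +kernel

lemma chkSr13b : ChkS 13 2 Sr13b := by decide +kernel

/-- caps -/
def cr13 (w : ℕ) : ℤ :=
  if w = 0 then cap0 13 else if w = 1 then ((13 * (13 - 1) / 2 : ℕ) : ℤ) - 1 else if w = 2 then ((47 : ℕ) : ℤ) else ((37 : ℕ) : ℤ)

/-- even noise -/
def ner13 (w : ℕ) (V : ℤ) : Bool :=
  if w = 0 then false else if w = 1 then nz 13 V else if w = 2 then (nz ((13 + 1 - 2 : ℕ) : ℤ) V || ([] : List ℤ).elem V) else (nz ((13 + 1 - 3 : ℕ) : ℤ) V || ([] : List ℤ).elem V)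

/-- odd noise -/
def nor13 (w : ℕ) (V : ℤ) : Bool :=
  if w = 0 then false else if w = 1 then false else if w = 2 then ([] : List ℤ).elem V else ([] : List ℤ).elem V

/-- lower bounds -/
def lwr13 (w : ℕ) : ℤ :=
  if w = 0 then 0 else if w = 1 then 0 else if w = 2 then (0) else (0)

lemma balr13 {lo hi : Tops P → ℕ → ℕ} {e : Tops P → ℕ → ℕ → P} (K : Ctx P r 13 lo hi e)
    (hF : NoFo P 13) (hJ : ∃ z : P, Hul.Jn z) :
    ∀ w ≤ 3, ∃ V, WinB P 13 w (cr13 w) (nor13 w) (ner13 w) (lwr13 w) V := by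
  intro w hw
  have : w = 0 ∨ w = 1 ∨ w = 2 ∨ w = 3 := by omega
  rcases this with rfl | rfl | rfl | rfl
  · exact K.win0 hJ
  · exact K.win1 (by norm_num) chkEr13 (by decide +kernel) (by decide +kernel) hJ
  · exact K.win23' (w := 2) (cT := 47) (LE := []) (LO := []) (lb := 0) hF (by norm_num)
      (by norm_num) chkEr13 (by decide +kernel)
      (fun _ => by decide +kernel)
      (by decide +kernel) (by decide +kernel)
      (fun _ => by decide +kernel)
      (fun h => absurd h (by norm_num))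
      (fun h => absurd h (by norm_num))
      (by norm_num) (by norm_num) (by norm_num) (by decide +kernel) (by decide +kernel) hJ
  · exact K.win23' (w := 3) (cT := 37) (LE := []) (LO := []) (lb := 0) hF (by norm_num)
      (by norm_num) chkEr13 (by decide +kernel)
      (fun _ => by decide +kernel)
      (by decide +kernel) (by decide +kernel)
      (fun _ => by decide +kernel)
      (fun h => absurd h (by norm_num))
      (fun h => absurd h (by norm_num))
      (by norm_num) (by norm_num) (by norm_num) (by decide +kernel) (by decide +kernel) hJ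

end Pool.Agent.GaussPoset.Sm

end

/-! From `Pool.Agent.W_448s7s_h5.SrJ15` -/

section

/-!
# S7 for `j = 15`: windows `0, …, 3` (MP_448cb3_co)
-/

namespace Pool.Agent.GaussPoset.Sm

set_option linter.unusedSectionVars false

open Finset Wd

universe u

variable {P : Type u} [Fintype P] [PartialOrder P] [DecidableEq P] {r : ℕ}

/-- ends -/
def Er15 : List (ℕ × ℕ × ℕ) :=
    [(0, 0, 0), (1, 2, 1), (1, 3, 0), (1, 4, 0), (1, 5, 0), (1, 6, 0), (1, 7, 0), (3, 9, 1),
    (5, 20, 1), (5, 25, 0), (10, 70, 0)]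

lemma chkEr15 : ChkE 15 Er15 := by decide +kernel

/-- caps -/
def cr15 (w : ℕ) : ℤ :=
  if w = 0 then cap0 15 else if w = 1 then ((15 * (15 - 1) / 2 : ℕ) : ℤ) - 1 else if w = 2 then ((87 : ℕ) : ℤ) else ((72 : ℕ) : ℤ)

/-- even noise -/
def ner15 (w : ℕ) (V : ℤ) : Bool :=
  if w = 0 then false else if w = 1 then nz 15 V else if w = 2 then (nz ((15 + 1 - 2 : ℕ) : ℤ) V || ([] : List ℤ).elem V) else (nz ((15 + 1 - 3 : ℕ) : ℤ) V || ([] : List ℤ).elem V)

/-- odd noise -/
def nor15 (w : ℕ) (V : ℤ) : Bool :=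
  if w = 0 then false else if w = 1 then false else if w = 2 then ([] : List ℤ).elem V else ([] : List ℤ).elem V

/-- lower bounds -/
def lwr15 (w : ℕ) : ℤ :=
  if w = 0 then 0 else if w = 1 then 0 else if w = 2 then (0) else (0)

lemma balr15 {lo hi : Tops P → ℕ → ℕ} {e : Tops P → ℕ → ℕ → P} (K : Ctx P r 15 lo hi e)
    (hF : NoFo P 15) (hJ : ∃ z : P, Hul.Jn z) :
    ∀ w ≤ 3, ∃ V, WinB P 15 w (cr15 w) (nor15 w) (ner15 w) (lwr15 w) V := by
  intro w hw
  have : w = 0 ∨ w = 1 ∨ w = 2 ∨ w = 3 := by omega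
  rcases this with rfl | rfl | rfl | rfl
  · exact K.win0 hJ
  · exact K.win1 (by norm_num) chkEr15 (by decide +kernel) (by decide +kernel) hJ
  · exact K.win23' (w := 2) (cT := 87) (LE := []) (LO := []) (lb := 0) hF (by norm_num)
      (by norm_num) chkEr15 (by decide +kernel)
      (fun _ => by decide +kernel)
      (by decide +kernel) (by decide +kernel)
      (fun _ => by decide +kernel)
      (fun h => absurd h (by norm_num))
      (fun h => absurd h (by norm_num))
      (by norm_num) (by norm_num) (by norm_num) (by decide +kernel) (by decide +kernel) hJ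
  · exact K.win23' (w := 3) (cT := 72) (LE := []) (LO := []) (lb := 0) hF (by norm_num)
      (by norm_num) chkEr15 (by decide +kernel)
      (fun _ => by decide +kernel)
      (by decide +kernel) (by decide +kernel)
      (fun _ => by decide +kernel)
      (fun h => absurd h (by norm_num))
      (fun h => absurd h (by norm_num))
      (by norm_num) (by norm_num) (by norm_num) (by decide +kernel) (by decide +kernel) hJ

end Pool.Agent.GaussPoset.Sm

end

/-! From `Pool.Agent.W_448s7s_h5.SrJ16` -/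

section

/-!
# S7 for `j = 16`: windows `0, …, 3` (MP_448cb3_co)
-/

namespace Pool.Agent.GaussPoset.Sm

set_option linter.unusedSectionVars false

open Finset Wd

universe u

variable {P : Type u} [Fintype P] [PartialOrder P] [DecidableEq P] {r : ℕ}

/-- ends -/
def Er16 : List (ℕ × ℕ × ℕ) :=
    [(0, 0, 0), (1, 2, 1), (1, 3, 0), (1, 4, 0), (1, 5, 0), (1, 6, 0), (1, 7, 0), (1, 8, 0),
    (3, 9, 1), (5, 20, 1), (5, 25, 0), (10, 80, 0)]

lemma chkEr16 : ChkE 16 Er16 := by decide +kernel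

/-- caps -/
def cr16 (w : ℕ) : ℤ :=
  if w = 0 then cap0 16 else if w = 1 then ((16 * (16 - 1) / 2 : ℕ) : ℤ) - 1 else if w = 2 then ((101 : ℕ) : ℤ) else ((88 : ℕ) : ℤ)

/-- even noise -/
def ner16 (w : ℕ) (V : ℤ) : Bool :=
  if w = 0 then false else if w = 1 then nz 16 V else if w = 2 then (nz ((16 + 1 - 2 : ℕ) : ℤ) V || ([] : List ℤ).elem V) else (nz ((16 + 1 - 3 : ℕ) : ℤ) V || ([] : List ℤ).elem V)

/-- odd noise -/
def nor16 (w : ℕ) (V : ℤ) : Bool :=
  if w = 0 then false else if w = 1 then false else if w = 2 then ([60] : List ℤ).elem V else ([47] : List ℤ).elem V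

/-- lower bounds -/
def lwr16 (w : ℕ) : ℤ :=
  if w = 0 then 0 else if w = 1 then 0 else if w = 2 then (0) else (0)

lemma balr16 {lo hi : Tops P → ℕ → ℕ} {e : Tops P → ℕ → ℕ → P} (K : Ctx P r 16 lo hi e)
    (hF : NoFo P 16) (hJ : ∃ z : P, Hul.Jn z) :
    ∀ w ≤ 3, ∃ V, WinB P 16 w (cr16 w) (nor16 w) (ner16 w) (lwr16 w) V := by
  intro w hw
  have : w = 0 ∨ w = 1 ∨ w = 2 ∨ w = 3 := by omega
  rcases this with rfl | rfl | rfl | rfl
  · exact K.win0 hJ
  · exact K.win1 (by norm_num) chkEr16 (by decide +kernel) (by decide +kernel) hJ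
  · exact K.win23' (w := 2) (cT := 101) (LE := []) (LO := [60]) (lb := 0) hF (by norm_num)
      (by norm_num) chkEr16 (by decide +kernel)
      (fun h => absurd h (by norm_num))
      (by decide +kernel) (by decide +kernel)
      (fun h => absurd h (by norm_num))
      (fun _ => by decide +kernel)
      (fun _ => Or.inr ⟨by decide +kernel, by decide +kernel⟩)
      (by norm_num) (by norm_num) (by norm_num) (by decide +kernel) (by decide +kernel) hJ
  · exact K.win23' (w := 3) (cT := 88) (LE := []) (LO := [47]) (lb := 0) hF (by norm_num)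
      (by norm_num) chkEr16 (by decide +kernel)
      (fun h => absurd h (by norm_num))
      (by decide +kernel) (by decide +kernel)
      (fun h => absurd h (by norm_num))
      (fun _ => by decide +kernel)
      (fun _ => Or.inr ⟨by decide +kernel, by decide +kernel⟩)
      (by norm_num) (by norm_num) (by norm_num) (by decide +kernel) (by decide +kernel) hJ

end Pool.Agent.GaussPoset.Sm

end
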