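import Mathlib
import Pool.Agent.W_448zz_h61.Ns
import Pool.Agent.W_448zz_h61.M080
import Pool.Agent.W_448zz_h61.M082
import Pool.Agent.W_448zz_h61.M102

/-! From `Pool.Agent.W_448w4_h70.WH` -/

section

/-!
# The balance at window `3` with the least cost as a number (MP_448cb3_co, S7)
-/

namespace Pool.Agent.GaussPoset.W4

set_option linter.unusedSectionVars false

open Polynomial Finset Sm Wd Cp

universe u

section Bal

variable {P : Type u} [Fintype P] [PartialOrder P] [DecidableEq P] {r j w K : ℕ}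
  {N : Tops P → Finset P} {b : Tops P → ℕ} {θ : Tops P → P → ℕ}

/-- joins are in the far set -/
lemma join_mem_rA (W : Wk r j w K N b θ) {z : P} (hz : Hul.Jn z) : z ∈ rA N := by
  have HN := W.natSys
  obtain ⟨t1, t2, h1, h2, hne, hz1, hz2⟩ := hz
  have key : ∀ y, y ∉ unnat N → (y ≤ t1 → y ≤ t2 → False) := by
    intro y hy g1 g2
    have h3 : y ∈ N (topOf y) := HN.mem_iff.mpr ⟨hy, rfl⟩
    exact hne ((HN.top_eq h3 h1 g1).trans (HN.top_eq h3 h2 g2).symm)
  have hzu : z ∈ unnat N := by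
    by_contra hcon
    exact key z hcon hz1 hz2
  refine mem_rA.mpr ⟨hzu, fun h => ?_⟩
  obtain ⟨-, y, hy, hup⟩ := mem_twA.mp h
  have hl := W.lt_lev hzu
  refine key y hy ((hup t1).mpr ?_).le ((hup t2).mpr ?_).le
  · exact lt_of_le_of_ne hz1 (by rintro rfl; omega)
  · exact lt_of_le_of_ne hz2 (by rintro rfl; omega)

lemma rA_pos (W : Wk r j w K N b θ) : ∀ x ∈ rA N, 0 < lev x := fun x hx => by
  have := W.lt_lev (mem_rA.mp hx).1
  omega

lemma bdR_nonempty (W : Wk r j w K N b θ) (hJ : ∃ z : P, Hul.Jn z) : (bdR (rA N)).Nonempty := by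
  obtain ⟨z, hz⟩ := hJ
  obtain ⟨z', hz', -⟩ := exists_bd_above (rA_pos W) (join_mem_rA W hz)
  exact ⟨z', hz'⟩

/-- **The balance at window `w`, with the least cost `v`.** -/
theorem winB_of (W : Wk r j w K N b θ) {LE LO : List ℤ}
    (L : Lk P j w K N b θ (XL (j + 1 - w) LE) (XL (j + 1 - w) LO)) (h16 : j ≤ 16) {cT lb : ℤ}
    (hK : (K : ℤ) = ((j + 1 - w : ℕ) : ℤ) ^ 2 + cT) (hT : cT < 7 * ((j + 1 - w : ℕ) : ℤ) + 10)
    (hl0 : lb ≤ 0) (hlE : ∀ x ∈ LE, lb ≤ x) (hlO : ∀ x ∈ LO, lb ≤ x)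
    (hlow : ∀ z x x' : P, Cg z x x' → Sok j x → Sok j x' → j + 1 ≤ lev z →
      ∀ k, k < w → nab k z = 2)
    (hPen : OnePen P j (fun t => 2 ≤ b t) ∨ ∃ z : P, Hul.Jn z ∧
      ful w z ≤ (j + 1 - w) ^ 2 + 5 * (j - w))
    {v : ℕ} (M : Mn j w N θ v) (hex : (∃ z ∈ bdR (rA N), cst w (hA N θ) z = v) ∨
      ∃ x ∈ twA N, tcst w (thA N θ) (twT N x, x) = v) :
    WinB P j w cT (fun V => LO.elem V) (fun V => nz ((j + 1 - w : ℕ) : ℤ) V || LE.elem V)
      lb ((v : ℤ) - ((j + 1 - w : ℕ) : ℤ) ^ 2) := by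
  classical
  have HN := W.natSys
  have hj := W.hj
  have hw := W.hw
  have H := W.gt.H
  have hpos := rA_pos W
  have hmin : ∀ z, Hul.Jn z → v ≤ ful w z := fun z hz => min_le_ful hpos M.bd (join_mem_rA W hz)
  have hPen' : OnePen P j (fun t => 2 ≤ b t) ∨ v ≤ (j + 1 - w) ^ 2 + 5 * (j - w) := by
    rcases hPen with h | ⟨z, hz, h⟩
    · exact Or.inl h
    · exact Or.inr ((hmin z hz).trans h)
  have hlev : ∀ z x x' : P, Cg z x x' → j + 1 ≤ lev z := by
    intro z x x' h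
    by_contra hcon
    exact W.gt.no_join z (by omega) h.jn
  have hyc : ((j + 1 - w : ℕ) : ℤ) = (j : ℤ) + 1 - w := by
    rw [Nat.cast_sub (by omega)]
    push_cast
    ring
  have hline : ∀ z x x' : P, Cg z x x' → Sok j x → Sok j x' →
      (ful w z : ℤ) = ((j + 1 - w : ℕ) : ℤ) ^ 2 + (kapZ j z * ((j : ℤ) - w) + gZ j z) := by
    intro z x x' h hs hs'
    have hl := hlev z x x' h
    rw [hyc]
    exact ful_line (by omega) (by omega) (hlow z x x' h hs hs' hl)
  have hpar : ∀ {z x x' : P}, Cg z x x' → Sok j x → Sok j x' →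
      anc z = 2 * w + nst w (fun z => lev z - w) z := by
    intro z x x' h hs hs'
    have hl := hlev z x x' h
    have h2 := hlow z x x' h hs hs' hl
    unfold anc
    obtain ⟨c, hc⟩ : ∃ c, lev z = w + c := ⟨lev z - w, by omega⟩
    rw [nst_eq, hc, Finset.sum_range_add, Nat.add_sub_cancel_left,
      Finset.sum_congr rfl (g := fun _ => 2) (fun k hk => h2 k (by
        rw [mem_range] at hk
        omega)), Finset.sum_const, card_range, smul_eq_mul, Nat.mul_comm]
  have hkp : ∀ {z : P}, (Odd (anc z) → Odd (kapZ j z)) ∧ (Even (anc z) → Even (kapZ j z)) :=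
    kap_parity
  have hmn : ∀ z x x' : P, Cg z x x' → Sok j x → Sok j x' →
      (v : ℤ) - ((j + 1 - w : ℕ) : ℤ) ^ 2 ≤ kapZ j z * (j - w) + gZ j z := by
    intro z x x' h hs hs'
    have h1 : (v : ℤ) ≤ ful w z := by exact_mod_cast hmin z h.jn
    rw [hline z x x' h hs hs'] at h1
    linarith
  by_cases hcap : K < v
  · have hcap' : (K : ℤ) < v := by exact_mod_cast hcap
    exact ⟨fun h => by linarith, hmn, fun h => by linarith, fun h => by linarith⟩
  have hcv : (v : ℤ) ≤ ((j + 1 - w : ℕ) : ℤ) ^ 2 + cT := by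
    rw [← hK]
    exact_mod_cast not_lt.mp hcap
  obtain ⟨ho, he⟩ := W.both L hPen' M hex (not_lt.mp hcap)
  have hsq : ∀ z x x' : P, Cg z x x' → ful w z = v → 0 ≤ (v : ℤ) - ((j + 1 - w : ℕ) : ℤ) ^ 2 := by
    intro z x x' h he
    have hl := hlev z x x' h
    obtain ⟨c, hc⟩ : ∃ c, lev z = w + c := ⟨lev z - w, by omega⟩
    have h4 := ful_ge (w := w) (z := z) (c := c) (fun _ => 0) hc
      (fun n hn1 hn2 => h.two_le H (k := w + n) (by omega))
    simp only [mul_zero, Finset.sum_const_zero, add_zero] at h4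
    have h5 : (j + 1 - w) ^ 2 ≤ c ^ 2 := Nat.pow_le_pow_left (by omega) 2
    have h6 : (j + 1 - w) ^ 2 ≤ v := by rw [← he]; exact h5.trans h4
    have h7 : (((j + 1 - w) ^ 2 : ℕ) : ℤ) ≤ v := by exact_mod_cast h6
    push_cast at h7
    linarith
  have hnzpos : ∀ {V : ℤ}, nz ((j + 1 - w : ℕ) : ℤ) V = true → 0 ≤ V := by
    intro V hV
    unfold nz at hV
    rw [List.any_eq_true] at hV
    obtain ⟨t, -, ht⟩ := hV
    rw [decide_eq_true_eq] at ht
    have h1 : (0 : ℤ) ≤ t := Int.natCast_nonneg t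
    have h2 : (1 : ℤ) ≤ ((j + 1 - w : ℕ) : ℤ) := by
      have : 1 ≤ j + 1 - w := by omega
      exact_mod_cast this
    rcases ht with ht | ht | ht <;> nlinarith
  refine ⟨fun _ => ?_, hmn, fun _ => ?_, fun _ => ?_⟩
  · rcases ho with ⟨z, x, x', h1, h2, h3, h4, h5⟩ | h | h
    · exact hl0.trans (hsq z x x' h1 h4)
    · exact (od_false h (by omega) h16 hcv hT).elim
    · exact hlO _ h
  · rcases ho with ⟨z, x, x', h1, h2, h3, h4, h5⟩ | h | h
    · left
      refine ⟨z, x, x', h1, h2, h3, hkp.1 (by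
        rw [hpar h1 h2 h3]
        exact (even_two_mul w).add_odd h5), ?_⟩
      have := hline z x x' h1 h2 h3
      rw [h4] at this
      linarith
    · exact (od_false h (by omega) h16 hcv hT).elim
    · right
      exact List.elem_iff.mpr h
  · rcases he with ⟨z, x, x', h1, h2, h3, h4, h5⟩ | h | h
    · left
      refine ⟨z, x, x', h1, h2, h3, hkp.2 (by
        rw [hpar h1 h2 h3]
        exact (even_two_mul w).add h5), ?_⟩
      have := hline z x x' h1 h2 h3
      rw [h4] at this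
      linarith
    · right
      rw [Bool.or_eq_true]
      exact Or.inl (ev_nz h (by omega) hcv hT)
    · right
      rw [Bool.or_eq_true]
      exact Or.inr (List.elem_iff.mpr h)

end Bal

section Context

variable {P : Type u} [Fintype P] [PartialOrder P] [DecidableEq P] {r j : ℕ}
  {lo hi : Tops P → ℕ → ℕ} {e : Tops P → ℕ → ℕ → P}

/-- a system of natural sets for the windows `3` and `4` -/
structure Sy (P : Type u) [Fintype P] [PartialOrder P] [DecidableEq P] (j : ℕ)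
    (lo hi : Tops P → ℕ → ℕ) (N : Tops P → Finset P) (θ3 θ4 : Tops P → P → ℕ) : Prop where
  typ : ∀ t, TypeY j t (N t) (θ3 t) (θ4 t)
  typ3 : ∀ t, TypeX j 3 t (hi t 3 - lo t 3 + 1) (N t) (θ3 t)
  top3 : ∀ t, TopType j 3 t (hi t 3 - lo t 3 + 1) (N t) (θ3 t)
  sum3 : ∑ t, (hi t 3 - lo t 3 + 1) = (lv P 3).card
  unq3 : Unq P 3 (fun t => hi t 3 - lo t 3 + 1)

/-- the strips at the windows `3` and `4` -/
theorem exists_sy (K : Ctx P r j lo hi e) (h12 : 12 ≤ j) : ∃ N θ3 θ4, Sy P j lo hi N θ3 θ4 := by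
  have H := K.gt.H
  have hsh : ∀ t : Tops P, lo t 3 = hi t 3 ∨ RectShape j (lo t) (hi t) ∨
      StairShape j (lo t) (hi t) ∨ StairShape j (fun k => k - hi t k) (fun k => k - lo t k) := by
    intro t
    rcases shape_cases (K.comp t) (by omega) (K.shape t) with h | h | ⟨a, h, h3⟩
    · exact Or.inl (h 3 (by omega))
    · exact Or.inr (by tauto)
    · left
      have h4 := h.four (by omega)
      rw [(h.low 3 (by omega)).1, (h.low 3 (by omega)).2]
  choose N θ3 θ4 h1 h2 h3 using fun t =>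
    exists_typeY K.gt (by omega) (K.comp t) (hsh t)
  refine ⟨N, θ3, θ4, h1, h2, h3, (card_level H K.gt.good K.comp (by omega)).symm, ?_⟩
  intro t ht x y hx hy hlx hly
  have e1 := (K.comp t).lo_le 3 (by omega)
  obtain ⟨s, a1, a2, a3⟩ := (K.comp t).surj x hx (by omega)
  obtain ⟨s', b1, b2, b3⟩ := (K.comp t).surj y hy (by omega)
  rw [hlx] at a1 a2 a3
  rw [hly] at b1 b2 b3
  simp only at ht
  rw [← a3, ← b3, show s = s' by omega]

/-- **the balance at window `3` for the system, with the least cost `v`** -/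
theorem win3_sy (K : Ctx P r j lo hi e) (h12 : 12 ≤ j) {N : Tops P → Finset P}
    {θ3 θ4 : Tops P → P → ℕ} (S : Sy P j lo hi N θ3 θ4) {cT : ℕ}
    {LE LO : List ℤ} {lb : ℤ} {E : List (ℕ × ℕ × ℕ)} (hE : ChkE j E) (h0 : (0, 0, 0) ∈ E)
    (hb : j % 2 = 1 → ∀ s ∈ E, (s.1 : ℤ) * ((j : ℤ) - 3) - s.2.1 ≤ 5 * ((j : ℤ) - 3))
    (c1 : ∀ a ∈ Finset.Icc 2 ((j + 1) / 2), (j + 1 - 3) ^ 2 + cT + 1 < stC 3 (j + 1) a)
    (c2 : ∀ a ∈ Finset.Icc 2 (j - 1), (j + 1 - 3) ^ 2 + cT + 1 < reC 3 (j + 1) a)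
    (c3 : j % 2 = 1 → (j + 1 - 3) ^ 2 + cT < flC 3 j)
    (c4 : j % 2 = 0 → (j + 1 - 3) ^ 2 + cT < foC 3 j + foE 3 j)
    (c5 : j % 2 = 0 → (Even (foN 3 j) ∧ (foC 3 j : ℤ) - ((j + 1 - 3 : ℕ) : ℤ) ^ 2 ∈ LE) ∨
      (Odd (foN 3 j) ∧ (foC 3 j : ℤ) - ((j + 1 - 3 : ℕ) : ℤ) ^ 2 ∈ LO))
    (c6 : 2 * ((j + 1 - 3) ^ 2 + cT) < 3 * (j + 1 - 3) ^ 2 + 3 * (j + 1 - 3))
    (c7 : cT < 7 * (j + 1 - 3) + 10)
    (hl0 : lb ≤ 0) (hlE : ∀ x ∈ LE, lb ≤ x) (hlO : ∀ x ∈ LO, lb ≤ x)
    (hJ : ∃ z : P, Hul.Jn z) :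
    ∃ v : ℕ, Mn j 3 N θ3 v ∧
      Wk r j 3 ((j + 1 - 3) ^ 2 + cT) N (fun t => hi t 3 - lo t 3 + 1) θ3 ∧
      WinB P j 3 cT (fun V => LO.elem V) (fun V => nz ((j + 1 - 3 : ℕ) : ℤ) V || LE.elem V)
        lb ((v : ℤ) - ((j + 1 - 3 : ℕ) : ℤ) ^ 2) := by
  have H := K.gt.H
  have h16 := K.h16
  have W : Wk r j 3 ((j + 1 - 3) ^ 2 + cT) N (fun t => hi t 3 - lo t 3 + 1) θ3 :=
    { gt := K.gt, hj := by omega, hw1 := by omega, hw := by omega, typ := S.typ3, top := S.top3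
      sum_b := S.sum3
      hK := c6
      rdeep := fun C _ hx _ h1 h2 h3 h4 => rdeep_of (by omega) (by omega) c2 C hx h1 h2 h3 h4
      sdeep := fun _ _ _ _ C _ hx _ h1 h3 h4 => sdeep_of (by omega) (by omega) c1 C hx h1 h3 h4 }
  have L : Lk P j 3 ((j + 1 - 3) ^ 2 + cT) N (fun t => hi t 3 - lo t 3 + 1) θ3
      (XL (j + 1 - 3) LE) (XL (j + 1 - 3) LO) :=
    { unq := S.unq3
      nsk := fun z x x' h hl hn hns => (nsk23 h12 (Or.inr rfl) hn hns).elim
      dj := fun v z x hz hc hl hzx hD =>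
        W.deep_j (by omega) (by omega) c3 c4 c5 hz hc hl hzx hD }
  have hlow : ∀ z x x' : P, Cg z x x' → Sok j x → Sok j x' → j + 1 ≤ lev z →
      ∀ k, k < 3 → nab k z = 2 := by
    intro z x x' h hs hs' hl k hk
    obtain ⟨l1, l2⟩ := h.lev_eq H
    have hend : lev x = j → (Win.uc x).card = 1 := fun hh => (K.ends h (by omega)).1
    have hend' : lev x' = j → (Win.uc x').card = 1 := fun hh => (K.ends h (by omega)).2
    rw [h.sum H (by omega), K.low_one h12 h.only (by omega) hend hs (by omega),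
      K.low_one h12 h.only' (by omega) hend' hs' (by omega)]
  have hpen : OnePen P j (fun t => 2 ≤ hi t 3 - lo t 3 + 1) ∨ ∃ z : P, Hul.Jn z ∧
      ful 3 z ≤ (j + 1 - 3) ^ 2 + 5 * (j - 3) := by
    rcases K.pen_or with h | ⟨hodd, z, x, x', h1, h2, h3, h4⟩
    · left
      intro e e' p p' hB
      refine h e e' p p' ?_
      rcases shape_cases (K.comp (topOf e)) (by omega) (K.shape (topOf e)) with h | h | ⟨a, h, h3⟩
      · have := h 3 (by omega)
        omega
      · exact h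
      · have h4 := h.four (by omega)
        have e1 := h.low 3 (by omega)
        omega
    · right
      have hs : Sok j x := ⟨fun hf => by
        have := hf.1
        have := (h1.lev_eq H).1
        omega, fun _ hf => by
        have := hf.2.1
        omega⟩
      have hs' : Sok j x' := ⟨fun hf => by
        have := hf.1
        have := (h1.lev_eq H).2
        omega, fun _ hf => by
        have := hf.2.1
        omega⟩
      exact ⟨z, h1.jn, K.cheap (w := 3) (by omega) hodd hE h0 (hb hodd) h1 h2 h3 h4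
        (hlow z x x' h1 hs hs' h2.ge)⟩
  obtain ⟨v, M, hex⟩ := exists_minK W (bdR_nonempty W hJ)
  exact ⟨v, M, W, winB_of W L h16 (cT := (cT : ℤ)) (lb := lb) (by push_cast; ring)
    (by exact_mod_cast c7) hl0 hlE hlO hlow hpen M hex⟩

/-- the system for the own noise at window `4` -/
theorem y4_of {K3 K V3 v : ℕ} {N : Tops P → Finset P} {θ3 θ4 : Tops P → P → ℕ}
    (S : Sy P j lo hi N θ3 θ4) (W : Wk r j 3 K3 N (fun t => hi t 3 - lo t 3 + 1) θ3)
    (M : Mn j 3 N θ3 v) (hv : V3 ≤ v) (n : Nm j K V3) :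
    Y4 r j K3 K V3 N (fun t => hi t 3 - lo t 3 + 1) θ3 θ4 where
  W := W
  typ := S.typ
  m3 := fun z hz => hv.trans (M.bd z hz)
  m3' := fun x hx => hv.trans (M.tw x hx)
  n := n

end Context

end Pool.Agent.GaussPoset.W4

end

/-! From `Pool.Agent.W_448s7_h27.EwB` -/

section

/-!
Bounds for the number of defect tops which are hit (MP_448cb3_co).
-/

namespace Pool.Agent.GaussPoset.Ew

set_option linter.unusedSectionVars false

open Polynomial Finset

universe u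

variable {P : Type u} [Fintype P] [PartialOrder P] [DecidableEq P]
variable {i : ℕ} {N : Tops P → Finset P} {θ : Tops P → P → ℕ} {E : Finset (Tops P)}

/-- a raised element below `x` is expensive in every up-closed set which contains `x` -/
lemma cst_le_sum {e : P → ℕ} {F : Finset P} (hV : Vd i e F) {z x : P} (hzx : z ≤ x)
    (hz : i < lev z) {h : ℕ} (hh : z ∈ F ∨ h ≤ e z) {A : Finset P} (hxA : x ∈ A)
    (hA : ∀ x ∈ A, ∀ y, x ≤ y → y ∈ A) : cst i (fun _ => h) x ≤ ∑ y ∈ A, e y := by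
  classical
  have h1 : ∀ y, ez i (fun _ => h) x y ≤ if y ∈ A then e y else 0 := by
    intro y
    unfold ez
    split_ifs with h1 h2 h2
    · have h3 := ez_le (h := fun _ => h) hV hz hh y
      unfold ez at h3
      rw [if_pos (hzx.trans h1)] at h3
      exact h3
    · exact absurd (hA x hxA y h1) h2
    · exact Nat.zero_le _
    · exact le_rfl
  unfold cst
  refine (Finset.sum_le_sum fun y _ => h1 y).trans ?_
  rw [Finset.sum_ite_mem, univ_inter]

lemma disj_tops (HN : NatSys N) {t t' : Tops P} (hne : t ≠ t') : Disjoint (N t) (N t') := by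
  rw [Finset.disjoint_left]
  intro x h1 h2
  exact hne ((HN.topOf_eq h1).symm.trans (HN.topOf_eq h2))

lemma sum_tops (HN : NatSys N) {t t' : Tops P} (hne : t ≠ t') {A : Finset P}
    (hA : ∀ z ∈ A, ∀ s, z ∉ N s) (e : P → ℕ) :
    ∑ y ∈ N t, e y + ∑ y ∈ N t', e y + ∑ y ∈ A, e y ≤ ∑ y, e y := by
  classical
  rw [← Finset.sum_union (disj_tops HN hne), ← Finset.sum_union]
  · exact Finset.sum_le_sum_of_subset (Finset.subset_univ _)
  · rw [Finset.disjoint_left]
    intro x h1 h2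
    rcases mem_union.mp h1 with h | h
    · exact hA x h2 t h
    · exact hA x h2 t' h

/-- at most `d` tops are hit -/
theorem card_KE_le (HN : NatSys N) {n d m : ℕ} {e : P → ℕ} (hs : ∑ x, e x = n)
    (hm : ∀ t ∈ KE E N θ e, m ≤ ∑ y ∈ N t, e y) (hn : n < (d + 1) * m) :
    (KE E N θ e).card ≤ d := by
  classical
  by_contra hcon
  push Not at hcon
  have h1 : (KE E N θ e).card * m ≤ ∑ t ∈ KE E N θ e, ∑ y ∈ N t, e y := by
    rw [← smul_eq_mul, ← Finset.sum_const]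
    exact Finset.sum_le_sum hm
  have h2 : ∑ t ∈ KE E N θ e, ∑ y ∈ N t, e y ≤ n := by
    rw [← hs, ← Finset.sum_biUnion (fun t _ t' _ hne => disj_tops HN hne)]
    exact Finset.sum_le_sum_of_subset (Finset.subset_univ _)
  have h3 : (d + 1) * m ≤ (KE E N θ e).card * m := Nat.mul_le_mul_right _ hcon
  omega

section Word

open Cl Wd

/-- the number of elements of level `k` above the element `s` of level `j` -/
def nbW (a : ℕ) (w : List Ltr) (j s k : ℕ) : ℕ :=
  ((Icc (losW a w k) (hisW a w k)).filter (fun s' => s' ≤ s ∧ s ≤ s' + (j - k))).card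

/-- the cost of the element `s` of level `j` -/
def cstW (a : ℕ) (w : List Ltr) (j s i h : ℕ) : ℕ :=
  ∑ k ∈ range (j + 1), min h (k - i) * nbW a w j s k

variable {j r a h s : ℕ} {w : List Ltr} {t : Tops P} {lo hi : ℕ → ℕ} {e : ℕ → ℕ → P}

theorem nab_word (D : WordD j a w lo hi) (C : Cp.Comp j (t : P) lo hi e) (H : Gr P r)
    (hg : ∀ l, l < j → Win.Good P l) (h1 : lo j ≤ s) (h2 : s ≤ hi j)
    (hx : e j s ∈ onlyB t) {k : ℕ} (hk : k ≤ j) : nab k (e j s) = nbW a w j s k := by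
  classical
  have hl := C.lev_e j s le_rfl h1 h2
  rw [Sm.nab_pos H hg C hx hl.ge hk]
  obtain ⟨r1, r2⟩ := D.rows C
  unfold nbW
  rw [r1 k hk, r2 k hk]
  congr 1
  refine Finset.filter_congr fun s' _ => ?_
  constructor
  · rintro ⟨s1, g1, g2⟩
    obtain ⟨⟨g3, g4⟩, g5⟩ := Sm.mem_posA.mp g1
    have g6 : e j s = e j s1 := by
      by_contra hne
      have := lev_strictAnti (lt_of_le_of_ne g5 hne)
      rw [hl, C.lev_e j s1 le_rfl g3 g4] at this
      omega
    have g7 := C.inj j s s1 le_rfl h1 h2 g3 g4 g6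
    rw [g7]
    exact g2
  · intro g
    exact ⟨s, Sm.mem_posA.mpr ⟨⟨h1, h2⟩, le_rfl⟩, g⟩

theorem cst_word (D : WordD j a w lo hi) (C : Cp.Comp j (t : P) lo hi e) (H : Gr P r)
    (hg : ∀ l, l < j → Win.Good P l) (h1 : lo j ≤ s) (h2 : s ≤ hi j)
    (hx : e j s ∈ onlyB t) (i h : ℕ) : cst i (fun _ => h) (e j s) = cstW a w j s i h := by
  have hl := C.lev_e j s le_rfl h1 h2
  rw [cst_eq, hl]
  unfold cstW
  refine Finset.sum_congr rfl fun k hk => ?_
  rw [mem_range] at hk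
  rw [nab_word D C H hg h1 h2 hx (by omega)]

end Word

end Pool.Agent.GaussPoset.Ew

end

/-! From `Pool.Agent.W_448w4_h70.WI` -/

section

/-!
# Stair tops as defect tops at window `4`: the least energy (MP_448cb3_co, S7, `j = 12, 14, 15`)
-/

namespace Pool.Agent.GaussPoset.W4

set_option linter.unusedSectionVars false

open Polynomial Finset Sm

universe u

variable {P : Type u} [Fintype P] [PartialOrder P] [DecidableEq P] {r j K3 K V3 m : ℕ}
  {N : Tops P → Finset P} {b : Tops P → ℕ} {θ3 θ4 : Tops P → P → ℕ}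

/-- cost of the cell `(a, j - a)` of a stair at window `4` with the label of the threshold
`thS 4` -/
def deC (j a : ℕ) : ℕ :=
  ∑ n ∈ range (j - 4 + 1), min ((a - 4) + (j - a - 4) + 1) n *
    (min ((4 + n) / 2) a + 1 - ((4 + n) - (j - a)))

/-- **The energy of a defect of a stair top.** -/
theorem Y4.stair_defect (Y : Y4 r j K3 K V3 N b θ3 θ4) {t : Tops P} {Nc : Finset P}
    {co : P → ℕ × ℕ} (h0 : StairNat j 4 t Nc co) (h1 : N t = natS Nc co)
    (h2' : θ4 t = thSg 2 4 Nc co) (hm : ∀ a ∈ Finset.Icc 1 (j / 2), m ≤ deC j a)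
    {e : P → ℕ} {F : Finset P} (hV : Vd 4 e F) {z x : P} (hzx : z ⋖ x)
    (hx : x ∈ natS Nc co) (hz : z ∉ natS Nc co) (he : thS 4 Nc co x < e z)
    (hr : z ∈ rA N → e z ≤ thSg 2 4 Nc co x) : m ≤ ∑ y ∈ natS Nc co, e y := by
  classical
  have W := Y.W
  have H := W.gt.H
  have HN := W.natSys
  have hj := Y.n.hj
  have e1 := (H.covBy_iff.mp hzx).2
  obtain ⟨hxu, hxt⟩ := HN.mem_iff.mp (show x ∈ N t by rw [h1]; exact hx)
  have hzu : z ∈ unnat N := by
    by_contra hcon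
    apply hz
    rw [← h1]
    refine HN.mem_iff.mpr ⟨hcon, ?_⟩
    rw [← hxt]
    exact (W.up hcon hzx.1.le).2.symm
  have hlz := W.lt_lev hzu
  -- a cell of level `j`
  have key : ∀ x1 ∈ Nc, 1 ≤ (co x1).1 → j ≤ lev x1 → z ≤ x1 → thS 4 Nc co x1 < e z →
      m ≤ ∑ y ∈ natS Nc co, e y := by
    intro x1 hx1 ha hl1 hzx1 he1
    have hl := h0.chart.lev x1 hx1
    have hmm : (co x1).1 ≤ (co x1).2 := h0.chart.mem x1 hx1
    obtain ⟨y, hy, hcy⟩ := h0.chart.low x1 hx1 (j - min (co x1).2 (j - 1), min (co x1).2 (j - 1))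
      ⟨by simp only; omega, by simp only; omega⟩
      (show j - min (co x1).2 (j - 1) ≤ min (co x1).2 (j - 1) by omega)
    have hy1 : (co y).1 = j - min (co x1).2 (j - 1) := by rw [hcy]
    have hy2 : (co y).2 = min (co x1).2 (j - 1) := by rw [hcy]
    have hly := h0.chart.lev y hy
    have hxy : x1 ≤ y := by
      rw [h0.chart.le_iff x1 hx1 y hy, hcy]
      exact ⟨by simp only; omega, by simp only; omega⟩
    have hJ1 : x1 ∉ junk (fun c => c.1 ≤ c.2) Nc co := not_junk_above h0.chart hx1 ha le_rfl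
    have hJy : y ∉ junk (fun c => c.1 ≤ c.2) Nc co := not_junk_above h0.chart hx1 ha hxy
    have hth : thS 4 Nc co y ≤ thS 4 Nc co x1 := by
      unfold thS
      rw [if_neg hJ1, if_neg hJy]
      omega
    have hthy : thS 4 Nc co y + 1 = ((co y).1 - 4) + (j - (co y).1 - 4) + 1 := by
      unfold thS
      rw [if_neg hJy, show (co y).2 = j - (co y).1 by omega]
    have h3 := cst_stair (w := 4) (L := j) (h := thS 4 Nc co y + 1) h0.chart hy (by omega)
      (by omega)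
    have h4 := hm (co y).1 (by rw [Finset.mem_Icc]; omega)
    have h5 : deC j (co y).1 = cst 4 (fun _ => thS 4 Nc co y + 1) y := by
      rw [h3, hthy]
      rfl
    rw [h5] at h4
    refine h4.trans ?_
    have h6 : cst 4 (fun _ => thS 4 Nc co y + 1) y =
        ∑ v ∈ natS Nc co, ez 4 (fun _ => thS 4 Nc co y + 1) y v := by
      unfold cst
      symm
      refine Finset.sum_subset (Finset.subset_univ _) fun v _ hv => ?_
      unfold ez
      rw [if_neg]
      intro hyv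
      exact hv (mem_natS.mpr (Or.inl (h0.chart.up y hy v hyv)))
    rw [h6]
    refine Finset.sum_le_sum fun v _ => ?_
    refine le_trans ?_ (ez_le (i := 4) (h := fun _ => e z) hV (z := z) (by omega)
      (Or.inr le_rfl) v)
    unfold ez
    split_ifs with g1 g2
    · refine min_le_min ?_ le_rfl
      show thS 4 Nc co y + 1 ≤ e z
      omega
    · exact absurd (hzx1.trans (hxy.trans g1)) g2
    · exact Nat.zero_le _
    · exact Nat.zero_le _
  by_cases hzR : z ∈ rA N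
  · have h3 := hr hzR
    have hJ : x ∉ junk (fun c => c.1 ≤ c.2) Nc co := by
      intro hJ
      unfold thS at he
      unfold thSg at h3
      rw [if_pos hJ] at he h3
      omega
    have hxN : x ∈ Nc := by
      rw [mem_natS] at hx
      exact hx.resolve_right hJ
    refine key x hxN ?_ (by omega) hzx.1.le he
    unfold thS at he
    unfold thSg at h3
    rw [if_neg hJ] at he h3
    omega
  · have hzT : z ∈ twA N := by
      by_contra hcon
      exact hzR (mem_rA.mpr ⟨hzu, hcon⟩)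
    have h3 := twT_spec (mem_twA.mp hzT).2
    obtain ⟨hl0, hk⟩ := Y.tw_cases hzT
    have hlev := W.twSys.lev hzT
    generalize twT N z = y0 at h3 hl0 hk hlev
    have hyx : y0 ⋖ x := (cov_of_up h3.2).mpr hzx
    have hty : topOf y0 = t := by
      rw [← hxt]
      exact (W.up h3.1 hyx.1.le).2.symm
    have hyN : y0 ∈ natS Nc co := by
      rw [← h1]
      exact HN.mem_iff.mpr ⟨h3.1, hty⟩
    have hth : θ4 t y0 + 1 ≤ lev y0 - 4 := by
      rcases hk with h | h
      · have := h.2.th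
        rw [hty] at this
        omega
      · have := h.th
        rw [hty] at this
        omega
    rw [h2'] at hth
    have hJ : y0 ∉ junk (fun c => c.1 ≤ c.2) Nc co := by
      intro hJ
      unfold thSg at hth
      rw [if_pos hJ] at hth
      omega
    have hy0 : y0 ∈ Nc := by
      rw [mem_natS] at hyN
      exact hyN.resolve_right hJ
    have h4 := stair_th4 h0 hy0 hJ (by omega)
    have hl := h0.chart.lev y0 hy0
    have hmm : (co y0).1 ≤ (co y0).2 := h0.chart.mem y0 hy0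
    have hxN := h0.chart.up y0 hy0 x hyx.1.le
    have hmx : (co x).1 ≤ (co x).2 := h0.chart.mem x hxN
    have hcx := (chart_cov h0.chart H hy0 hxN).mp hyx
    unfold Prd at hcx
    rcases Nat.lt_or_ge (co y0).1 (co y0).2 with hlt | hge
    · obtain ⟨x1, hx1, hcx1⟩ := h0.chart.low y0 hy0 ((co y0).1, (co y0).2 - 1)
        ⟨le_rfl, Nat.sub_le _ _⟩ (show (co y0).1 ≤ (co y0).2 - 1 by omega)
      have hl1 := h0.chart.lev x1 hx1
      have a1 : (co x1).1 = (co y0).1 := by rw [hcx1]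
      have a2 : (co x1).2 = (co y0).2 - 1 := by rw [hcx1]
      have hyx1 : y0 < x1 := by
        refine lt_of_le_of_ne ((h0.chart.le_iff y0 hy0 x1 hx1).mpr ⟨by omega, by omega⟩) ?_
        rintro rfl
        omega
      refine key x1 hx1 (by omega) (by omega) ((h3.2 x1).mp hyx1).le ?_
      refine lt_of_le_of_lt ?_ he
      have hJ1 : x1 ∉ junk (fun c => c.1 ≤ c.2) Nc co :=
        not_junk_above h0.chart hy0 (by omega) hyx1.le
      have hJx : x ∉ junk (fun c => c.1 ≤ c.2) Nc co :=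
        not_junk_above h0.chart hy0 (by omega) hyx.1.le
      unfold thS
      rw [if_neg hJ1, if_neg hJx]
      omega
    · have hxl := h0.chart.lev x hxN
      exact key x hxN (by omega) (by omega) hzx.1.le he

/-- the energies for `j = 12, 14, 15` -/
theorem de_14 : ∀ a ∈ Finset.Icc 1 (14 / 2), 100 ≤ deC 14 a := by decide +kernel

theorem de_15 : ∀ a ∈ Finset.Icc 1 (15 / 2), 121 ≤ deC 15 a := by decide +kernel

theorem de_12 : ∀ a ∈ Finset.Icc 1 (12 / 2), 62 ≤ deC 12 a := by decide +kernel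

end Pool.Agent.GaussPoset.W4

end

/-! From `Pool.Agent.W_448s7_h27.EwE` -/

section

/-!
The contexts of the inclusion-exclusion at window `4` (MP_448cb3_co, S7).
-/

namespace Pool.Agent.GaussPoset.Ec

set_option linter.unusedSectionVars false

open Polynomial Finset Sm Wd Cp W4 Cl

universe u

variable {P : Type u} [Fintype P] [PartialOrder P] [DecidableEq P] {r j : ℕ}
  {lo hi : Tops P → ℕ → ℕ} {e : Tops P → ℕ → ℕ → P} {N : Tops P → Finset P}
  {θ3 θ4 : Tops P → P → ℕ} {Nf : Tops P → Finset P} {θf : Tops P → (ℕ → ℕ → ℕ) → P → ℕ}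
  {D : Tops P → Prop}

/-- the systems at window `4` -/
structure Fs (P : Type u) [Fintype P] [PartialOrder P] [DecidableEq P] (j : ℕ)
    (lo hi : Tops P → ℕ → ℕ) (e : Tops P → ℕ → ℕ → P) (N : Tops P → Finset P)
    (θ4 : Tops P → P → ℕ) (Nf : Tops P → Finset P) (θf : Tops P → (ℕ → ℕ → ℕ) → P → ℕ)
    (D : Tops P → Prop) : Prop where
  typ : ∀ t, FineY j t (lo t) (hi t) (e t) (N t) (θ4 t) (hi t 4 - lo t 4 + 1) (Nf t) (θf t) (D t)
  sum : ∑ t, (hi t 4 - lo t 4 + 1) = (lv P 4).card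

/-- existence of all systems -/
theorem exists_fs (K : Ctx P r j lo hi e) (h12 : 12 ≤ j) :
    ∃ N θ3 θ4 Nf θf D, Sy P j lo hi N θ3 θ4 ∧ Fs P j lo hi e N θ4 Nf θf D := by
  have H := K.gt.H
  choose N θ3 θ4 Nf θf D h1 h2 h3 h4 using fun t =>
    exists_fineY K.gt h12 (K.comp t) (K.shape t)
  refine ⟨N, θ3, θ4, Nf, θf, D, ⟨h1, h2, h3,
    (card_level H K.gt.good K.comp (by omega)).symm, ?_⟩,
    ⟨h4, (card_level H K.gt.good K.comp (by omega)).symm⟩⟩
  intro t ht x y hx hy hlx hly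
  have e1 := (K.comp t).lo_le 3 (by omega)
  obtain ⟨s, a1, a2, a3⟩ := (K.comp t).surj x hx (by omega)
  obtain ⟨s', b1, b2, b3⟩ := (K.comp t).surj y hy (by omega)
  rw [hlx] at a1 a2 a3
  rw [hly] at b1 b2 b3
  simp only at ht
  rw [← a3, ← b3, show s = s' by omega]

open Classical in
/-- the defect tops -/
noncomputable def ED (D : Tops P → Prop) : Finset (Tops P) := univ.filter D

lemma mem_ED {t : Tops P} : t ∈ ED D ↔ D t := by
  classical
  unfold ED
  rw [mem_filter]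
  exact ⟨fun h => h.2, fun h => ⟨mem_univ _, h⟩⟩

lemma tbOK_E7t4 : TbOK E7t4 := by
  intro k s
  unfold E7t4
  simp only [tab]
  split_ifs <;> omega

lemma FineY.twin {t : Tops P} {lo hi : ℕ → ℕ} {e : ℕ → ℕ → P} {N : Finset P} {θ4 : P → ℕ}
    {b : ℕ} {Nf : Finset P} {θf : (ℕ → ℕ → ℕ) → P → ℕ} {d : Prop}
    (F : FineY j t lo hi e N θ4 b Nf θf d) {x : P} (hx : x ∈ N) (hne : θ4 x + 1 ≤ lev x - 4) :
    x ∈ Nf := by
  rcases F with ⟨h1, h2, h3, h4, h5, h6, h7⟩ | ⟨c, Nc, co, h0, h1, h2, h3, h4, h5, h6⟩ |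
    ⟨h0, h1, h2, h3, h4, h5, h6, h7, h8⟩ | ⟨Nc, co, h0, h1, h2, h3, h4, h5, h6⟩
  · rw [h4]; exact hx
  · rw [h4]; exact hx
  · rw [h2] at hne
    have h9 : lev x - 4 + 1 ≤ lev x - 4 := hne
    omega
  · rw [h4]; exact hx

lemma Fs.NS_eq (F : Fs P j lo hi e N θ4 Nf θf D) : Ew.NS Nf N (ED D) = N := by
  funext t
  by_cases h : t ∈ ED D
  · rw [Ew.NS_of h]
  · rw [Ew.NS_not h]
    exact ((F.typ t).eq (fun h' => h (mem_ED.mpr h'))).1

lemma Fs.tS_eq (F : Fs P j lo hi e N θ4 Nf θf D) (tb : ℕ → ℕ → ℕ) :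
    Ew.tS (fun t => θf t tb) θ4 (ED D) = θ4 := by
  funext t
  by_cases h : t ∈ ED D
  · rw [Ew.tS_of h]
  · rw [Ew.tS_not h]
    exact ((F.typ t).eq (fun h' => h (mem_ED.mpr h'))).2 tb

variable {K3 K' V3 : ℕ} {b : Tops P → ℕ}

lemma tw_lt (Y : Y4 r j K3 K' V3 N b θ3 θ4) {x : P} (hx : x ∈ twA N) :
    θ4 (topOf (twT N x)) (twT N x) + 1 ≤ lev (twT N x) - 4 := by
  obtain ⟨-, h | h⟩ := Y.tw_cases hx
  · have := h.2.th
    omega
  · have := h.th
    omega

/-- the context with the natural fine thresholds -/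
theorem Fs.ew (F : Fs P j lo hi e N θ4 Nf θf D) (K : Ctx P r j lo hi e) (h12 : 12 ≤ j)
    (Y : Y4 r j K3 K' V3 N b θ3 θ4) :
    Ew.EW 4 (ED D) Nf N (fun t => hi t 4 - lo t 4 + 1) (fun t => θf t E7t4) θ4 (twA N)
      (twT N) := by
  have H := K.gt.H
  have T := Y.W.twSys
  exact
  { gr := H.gradedBelow
    nat := fun t => (F.typ t).nat (K.comp t) H K.gt.good (by omega)
    nat1 := fun t ht => (F.typ t).nat1 (K.comp t) H (by omega) (mem_ED.mp ht)
    one := fun t ht => (F.typ t).one (mem_ED.mp ht)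
    sub := fun t _ => (F.typ t).sub
    le1 := fun t _ x _ => (F.typ t).le1 tbOK_E7t4 x
    le2 := fun t _ x hx hx' y _ hxy => (F.typ t).le2 tbOK_E7t4 hx hx' hxy
    tw := by
      rw [F.NS_eq]
      exact T
    twE := by
      intro x hx hE
      have h1 := T.nat x hx
      have h2 := T.cp x hx
      have h3 : twT N x ∈ N (topOf x) := Y.W.natSys.mem_iff.mpr ⟨h1, h2⟩
      have h4 := tw_lt Y hx
      rw [h2] at h4
      refine ⟨(F.typ _).twin h3 h4, fun y hy => ?_⟩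
      exact (F.typ _).up (mem_ED.mp hE) h3 h4 ((T.up x hx y).mpr hy.1)
    twn := by
      intro x hx
      rw [F.tS_eq]
      exact Y.twn hx }

/-- the context with other thresholds for `E7` -/
theorem Fs.el (F : Fs P j lo hi e N θ4 Nf θf D) (K : Ctx P r j lo hi e) (h12 : 12 ≤ j)
    (Y : Y4 r j K3 K' V3 N b θ3 θ4) {tb : ℕ → ℕ → ℕ} (htb : TbOK tb) :
    El.EL 4 (ED D) Nf N (fun t => θf t tb) θ4 (twA N) (twT N) := by
  have W := F.ew K h12 Y
  have T := Y.W.twSys
  have H := K.gt.H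
  have cap0 : ∀ S, S ⊆ ED D → ∀ x, x ∉ unnat (Ew.NS Nf N S) →
      Ew.tS (fun t => θf t E7t4) θ4 S (topOf x) x ≤ lev x - 4 := by
    intro S hS y hy
    choose B hB using W.natS hS
    have hsys := natSys_of_tops hB
    have h1 : y ∈ Ew.NS Nf N S (topOf y) := hsys.mem_iff.mpr ⟨hy, rfl⟩
    exact ((hB (topOf y)).data _ hsys rfl (Ew.tS (fun t => θf t E7t4) θ4 S (topOf y))
      (B (topOf y)) (fun _ _ => rfl) (fun _ _ => Iff.rfl)).le y hy rfl
  have cap4 : ∀ S, S ⊆ ED D → ∀ x, x ∉ unnat (Ew.NS Nf N S) → θ4 (topOf x) x ≤ lev x - 4 := by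
    intro S hS x hx
    have h1 : x ∉ unnat (Ew.NS Nf N (ED D)) := by
      intro h
      refine hx (mem_unnat.mpr fun t ht => mem_unnat.mp h t ?_)
      exact W.NS_mono hS t ht
    have h2 := cap0 _ (Finset.Subset.refl _) x h1
    rwa [F.tS_eq] at h2
  exact
  { gr := H.gradedBelow
    sys := fun S hS => W.natSysS hS
    low := by
      intro S hS x hx
      by_contra hcon
      choose B hB using W.natS hS
      exact low_natural hB (not_lt.mp hcon) hx
    cap := by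
      intro S hS x hx
      have h4 := cap4 S hS x hx
      by_cases h : topOf x ∈ S
      · rw [Ew.tS_of h]
        exact h4
      · rw [Ew.tS_not h]
        exact ((F.typ _).le1 htb x).trans h4
    sub := fun t _ => (F.typ t).sub
    le1 := fun t _ x _ => (F.typ t).le1 htb x
    le2 := fun t _ x hx hx' y _ hxy => (F.typ t).le2 htb hx hx' hxy
    tw := by
      rw [F.NS_eq]
      exact T
    twE := by
      intro x hx hE
      have h1 := T.nat x hx
      have h2 := T.cp x hx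
      have h3 : twT N x ∈ N (topOf x) := Y.W.natSys.mem_iff.mpr ⟨h1, h2⟩
      have h4 := tw_lt Y hx
      rw [h2] at h4
      refine ⟨(F.typ _).twin h3 h4, fun y hy => ?_⟩
      exact (F.typ _).up (mem_ED.mp hE) h3 h4 ((T.up x hx y).mpr hy.1) }

end Pool.Agent.GaussPoset.Ec

end

/-! From `Pool.Agent.W_448s7_h27.EwF` -/

section

/-!
Window `4`: the joins of the least cost with a given number of elements of level `4` above them
(MP_448cb3_co, S7).
-/

namespace Pool.Agent.GaussPoset.Ec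

set_option linter.unusedSectionVars false

open Polynomial Finset Sm Wd Cp W4 Cl

universe u

variable {P : Type u} [Fintype P] [PartialOrder P] [DecidableEq P] {r j : ℕ}
  {lo hi : Tops P → ℕ → ℕ} {e : Tops P → ℕ → ℕ → P} {N : Tops P → Finset P}
  {θ3 θ4 : Tops P → P → ℕ} {Nf : Tops P → Finset P} {θf : Tops P → (ℕ → ℕ → ℕ) → P → ℕ}
  {D : Tops P → Prop}

lemma Fs.RS_eq (F : Fs P j lo hi e N θ4 Nf θf D) :
    Ew.RS (ED D) Nf N (twA N) (ED D) = rA N := by
  unfold Ew.RS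
  rw [F.NS_eq, Ew.YS_self]

lemma Fs.thS_eq (F : Fs P j lo hi e N θ4 Nf θf D) (tb : ℕ → ℕ → ℕ) :
    Ew.thS (ED D) (fun t => θf t tb) θ4 (twA N) (twT N) (ED D) = thA N θ4 := by
  unfold Ew.thS
  rw [F.tS_eq tb, Ew.YS_self]

lemma Fs.hS_eq (F : Fs P j lo hi e N θ4 Nf θf D) (tb : ℕ → ℕ → ℕ) :
    Ew.hS (ED D) Nf N (fun t => θf t tb) θ4 (twA N) (twT N) (ED D) = hA N θ4 := by
  unfold Ew.hS
  rw [F.RS_eq, F.thS_eq]

/-- the full cost grows strictly -/
lemma ful_lt {w : ℕ} {z x : P} (hzx : z < x) (hz : w < lev z) : ful w x < ful w z := by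
  have h1 := lev_strictAnti hzx
  unfold ful
  rw [Finset.sum_range_succ _ (lev z), nab_self, mul_one]
  have h2 : ∑ k ∈ range (lev x + 1), (k - w) * nab k x ≤ ∑ k ∈ range (lev z), (k - w) * nab k z :=
    calc ∑ k ∈ range (lev x + 1), (k - w) * nab k x
        ≤ ∑ k ∈ range (lev x + 1), (k - w) * nab k z :=
          Finset.sum_le_sum fun k _ => Nat.mul_le_mul_left _ (nab_mono hzx.le)
      _ ≤ ∑ k ∈ range (lev z), (k - w) * nab k z :=
          Finset.sum_le_sum_of_subset (by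
            intro k hk
            rw [mem_range] at hk ⊢
            omega)
  omega

lemma nst_congr {i : ℕ} {h h' : P → ℕ} {z : P} (hh : h z = h' z) : nst i h z = nst i h' z := by
  unfold nst
  rw [hh]

lemma nab_le_card (k : ℕ) (z : P) : nab k z ≤ (lv P k).card := by
  classical
  unfold nab
  exact Finset.card_filter_le _ _

variable {K3 K' V3 : ℕ} {b : Tops P → ℕ}

end Pool.Agent.GaussPoset.Ec

end

/-! From `Pool.Agent.W_448s7_h27.EwG` -/

section

/-!
Window `4`: the energies of the defect tops (MP_448cb3_co, S7).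
-/

namespace Pool.Agent.GaussPoset.Ec

set_option linter.unusedSectionVars false

open Polynomial Finset Sm Wd Cp W4 Cl

universe u

variable {P : Type u} [Fintype P] [PartialOrder P] [DecidableEq P] {r j : ℕ}
  {lo hi : Tops P → ℕ → ℕ} {e : Tops P → ℕ → ℕ → P} {N : Tops P → Finset P}
  {θ3 θ4 : Tops P → P → ℕ} {Nf : Tops P → Finset P} {θf : Tops P → (ℕ → ℕ → ℕ) → P → ℕ}
  {D : Tops P → Prop} {K3 K' V3 : ℕ} {b : Tops P → ℕ}

/-- `z` hits the `E7` top `t` at the position `s` -/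
structure HitE (j : ℕ) (lo hi : Tops P → ℕ → ℕ) (e : Tops P → ℕ → ℕ → P)
    (N Nf : Tops P → Finset P) (D : Tops P → Prop) (t : Tops P) (z : P) (s : ℕ) : Prop where
  dt : D t
  word : WordD j 4 w7 (lo t) (hi t)
  nat : N t = onlyB t
  fine : Nf t = lowPart j (t : P)
  lev : lev z = j + 1
  lo : lo t j ≤ s
  hi : s ≤ hi t j
  cov : z ⋖ e t j s

/-- the data of an `E7` top -/
lemma Fs.of_word (F : Fs P j lo hi e N θ4 Nf θf D) {t : Tops P}
    (h : WordD j 4 w7 (lo t) (hi t)) : D t ∧ N t = onlyB t ∧ Nf t = lowPart j (t : P) := by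
  have h3 := h.trunk 3 (by omega)
  have h4 := h.row
  rcases F.typ t with ⟨k1, k2, k3, k4, k5, k6, k7⟩ | ⟨c, Nc, co, k0, k1, k2, k3, k4, k5, k6, k7⟩ |
    ⟨k0, k1, k2, k3, k4, k5, k6, k7, k8⟩ | ⟨Nc, co, k0, k1, k2, k3, k4, k5, k6⟩
  · omega
  · omega
  · exact ⟨k6, k1, k4⟩
  · omega

/-- the energy of a hit top -/
theorem Fs.hit_cases (F : Fs P j lo hi e N θ4 Nf θf D) (K : Ctx P r j lo hi e) (h12 : 12 ≤ j)
    (Y : Y4 r j K3 K' V3 N b θ3 θ4) {cS : ℕ} (hS : ∀ a ∈ Finset.Icc 1 (j / 2), cS ≤ deC j a)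
    {e' : P → ℕ} {F' : Finset P} (hV : Vd 4 e' F') (hok : Ew.Ok (rA N) (thA N θ4) e')
    {tb : ℕ → ℕ → ℕ} {t : Tops P} (ht : D t) {z x : P} (hzx : z ⋖ x) (hx : x ∈ Nf t)
    (hz : z ∉ Nf t) (hlt : θf t tb x < e' z) :
    (∃ s, HitE j lo hi e N Nf D t z s ∧ x = e t j s ∧ tb j s < e' z ∧
      ∀ h, h ≤ e' z → Ew.cstW 4 w7 j s 4 h ≤ ∑ y ∈ Nf t, e' y) ∨
    (cS ≤ ∑ y ∈ Nf t, e' y ∧ hi t 4 - lo t 4 + 1 = 3) := by
  classical
  have H := K.gt.H
  have hg := K.gt.good
  have e1 := (H.covBy_iff.mp hzx).2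
  rcases F.typ t with ⟨h1, h2, h3, h4, h5, h6, h7⟩ | ⟨c, Nc, co, h0, h1, h2, h3, h4, h5, h6⟩ |
    ⟨h0, h1, h2, h3, h4, h5, h6, h7, h8⟩ | ⟨Nc, co, h0, h1, h2, h3, h4, h5, h6⟩
  · exact absurd ht h6
  · exact absurd ht h6
  · left
    rw [h4] at hx hz
    obtain ⟨hxt, hxl⟩ := mem_lowPart.mp hx
    have hzl : j < lev z := by
      by_contra hcon
      exact hz (mem_lowPart.mpr ⟨hzx.1.le.trans hxt, by omega⟩)
    have hlx : lev x = j := by omega
    obtain ⟨s, a1, a2, a3⟩ := (K.comp t).surj x hxt (by omega)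
    rw [hlx] at a1 a2 a3
    have hlz : lev z = j + 1 := by omega
    have hxB : x ∈ onlyB t := h7 x hxt hxl
    refine ⟨s, ⟨ht, h0, h1, h4, hlz, a1, a2, by rw [a3]; exact hzx⟩, a3.symm, ?_, fun h hh => ?_⟩
    · rw [h5] at hlt
      rw [← a3] at hlt
      have h9 := thC_e (K.comp t) tb le_rfl a1 a2
      simp only at hlt
      rwa [h9] at hlt
    · have hlow : ∀ x ∈ Nf t, ∀ y, x ≤ y → y ∈ Nf t := by
        rw [h4]
        intro x hx y hxy
        obtain ⟨g1, g2⟩ := mem_lowPart.mp hx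
        have g3 := lev_anti hxy
        exact mem_lowPart.mpr ⟨onlyB_le (onlyB_up (h7 x g1 g2) hxy), by omega⟩
      have h9 := Ew.cst_le_sum hV hzx.1.le (by omega) (h := h) (Or.inr hh) (A := Nf t)
        (by rw [h4]; exact hx) hlow
      rw [← a3] at h9
      rwa [Ew.cst_word h0 (K.comp t) H hg a1 a2 (by rw [a3]; exact hxB)] at h9
  · right
    refine ⟨?_, h3⟩
    rw [h4, h1] at hx hz ⊢
    rw [h5] at hlt
    have hxN : x ∈ N t := by rw [h1]; exact hx
    obtain ⟨hxu, hxt⟩ := Y.W.natSys.mem_iff.mp hxN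
    refine Y.stair_defect h0 h1 h2 hS hV hzx hx hz hlt fun hzR => ?_
    have hxR : x ∉ rA N := fun h => hxu (mem_rA.mp h).1
    have h9 := hok z hzR x hxR hzx
    rw [Y.thA_nat hxu, hxt, h2] at h9
    exact h9

/-- every hit of an `E7` top beyond the table `tb` costs at least `c` -/
def MinT (tb : ℕ → ℕ → ℕ) (j c : ℕ) : Prop :=
  ∀ s ∈ Icc (losW 4 w7 j) (hisW 4 w7 j), c ≤ Ew.cstW 4 w7 j s 4 (tb j s + 1)

instance (tb : ℕ → ℕ → ℕ) (j c : ℕ) : Decidable (MinT tb j c) := by unfold MinT; infer_instance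

theorem de_16 : ∀ a ∈ Finset.Icc 1 (16 / 2), 144 ≤ deC 16 a := by decide +kernel

end Pool.Agent.GaussPoset.Ec

end

/-! From `Pool.Agent.W_448s7_h27.EwI` -/

section

/-!
Window `4`: bad tops and pairs of bad tops, `j = 14, 15, 16` (MP_448cb3_co, S7).
-/

namespace Pool.Agent.GaussPoset.Ec

set_option linter.unusedSectionVars false

open Polynomial Finset Sm Wd Cp W4 Cl

universe u

variable {P : Type u} [Fintype P] [PartialOrder P] [DecidableEq P] {r j : ℕ}
  {lo hi : Tops P → ℕ → ℕ} {e : Tops P → ℕ → ℕ → P} {N : Tops P → Finset P}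
  {θ3 θ4 : Tops P → P → ℕ} {Nf : Tops P → Finset P} {θf : Tops P → (ℕ → ℕ → ℕ) → P → ℕ}
  {D : Tops P → Prop} {K3 K' V3 : ℕ} {b : Tops P → ℕ}

/-- good labels: at most the table, or the label `p1` below the last element of `E7` with an
energy less than `M` -/
def Gd (j p1 M : ℕ) (lo hi : Tops P → ℕ → ℕ) (e : Tops P → ℕ → ℕ → P)
    (Nf : Tops P → Finset P) (θf : Tops P → (ℕ → ℕ → ℕ) → P → ℕ) (tb : ℕ → ℕ → ℕ)
    (t : Tops P) (β : P → ℕ) (m : ℕ) : Prop :=
  (∀ x ∈ Nf t, β x ≤ θf t E7t4 x) ∨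
    (WordD j 4 w7 (lo t) (hi t) ∧ (∀ x ∈ Nf t, β x ≤ θf t tb x) ∧
      (∀ x ∈ Nf t, x = e t j 5 → β x = p1) ∧ m < M)

lemma bl_pos {A : Finset P} {e : P → ℕ} {x : P} (h : 0 < El.bl A e x) :
    ∃ z ∈ A, z ⋖ x ∧ e z = El.bl A e x := by
  classical
  unfold El.bl at h ⊢
  have h1 : (A.filter (fun z => z ⋖ x)).Nonempty := by
    rw [Finset.nonempty_iff_ne_empty]
    intro h1
    rw [h1, Finset.sup_empty] at h
    exact absurd h (lt_irrefl _)
  obtain ⟨z, hz, h2⟩ := Finset.exists_mem_eq_sup _ h1 e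
  rw [mem_filter] at hz
  exact ⟨z, hz.1, hz.2, h2.symm⟩

/-- a bad `E7` top -/
structure BadE (j p1 M : ℕ) (lo hi : Tops P → ℕ → ℕ) (e : Tops P → ℕ → ℕ → P)
    (N Nf : Tops P → Finset P) (D : Tops P → Prop) (e' : P → ℕ) (t : Tops P) (z : P) :
    Prop where
  hit : HitE j lo hi e N Nf D t z 5
  le : p1 ≤ e' z
  big : e' z = p1 → M ≤ ∑ y ∈ Nf t, e' y
  cst : ∀ h, h ≤ e' z → Ew.cstW 4 w7 j 5 4 h ≤ ∑ y ∈ Nf t, e' y

/-- the row `j` of `E7` is one element -/
def Row5 (j : ℕ) : Prop := losW 4 w7 j = 5 ∧ hisW 4 w7 j = 5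

lemma row5_14 : Row5 14 := by unfold Row5; decide
lemma row5_15 : Row5 15 := by unfold Row5; decide
lemma row5_16 : Row5 16 := by unfold Row5; decide

/-- **Bad tops.** -/
theorem Fs.bad_cases (F : Fs P j lo hi e N θ4 Nf θf D) (K : Ctx P r j lo hi e) (h12 : 12 ≤ j)
    (Y : Y4 r j K3 K' V3 N b θ3 θ4) (hrow : Row5 j) {cS p1 M : ℕ}
    (hS : ∀ a ∈ Finset.Icc 1 (j / 2), cS ≤ deC j a) {tb : ℕ → ℕ → ℕ}
    (hp : E7t4 j 5 + 1 = p1) (htb : tb j 5 = p1 ∨ M = 0)
    {e' : P → ℕ} {F' : Finset P} (hV : Vd 4 e' F') (hok : Ew.Ok (rA N) (thA N θ4) e')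
    {t : Tops P} (ht : t ∈ El.KG (ED D) Nf (Gd j p1 M lo hi e Nf θf tb) e') :
    (∃ z, BadE j p1 M lo hi e N Nf D e' t z) ∨ cS ≤ ∑ y ∈ Nf t, e' y := by
  classical
  have H := K.gt.H
  obtain ⟨htE, hbad⟩ := El.mem_KG.mp ht
  unfold El.GoodE Gd at hbad
  rw [not_or] at hbad
  obtain ⟨hb1, hb2⟩ := hbad
  push Not at hb1
  obtain ⟨x, hx, hlt⟩ := hb1
  obtain ⟨z, hz, hzx, hez⟩ := bl_pos (lt_of_le_of_lt (Nat.zero_le _) hlt)
  have hzN : z ∉ Nf t := (mem_sdiff.mp hz).2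
  have hlt' : θf t E7t4 x < e' z := by rw [hez]; exact hlt
  rcases F.hit_cases K h12 Y hS hV hok (mem_ED.mp htE) hzx hx hzN hlt' with
    ⟨s, h1, h2, h3, h4⟩ | ⟨h1, -⟩
  · left
    obtain ⟨r1, r2⟩ := h1.word.rows (K.comp t)
    have q1 := r1 j le_rfl
    have q2 := r2 j le_rfl
    have hs1 := h1.lo
    have hs2 := h1.hi
    have hs : s = 5 := by
      have e1 := hrow.1
      have e2 := hrow.2
      omega
    subst hs
    refine ⟨z, h1, by omega, fun hzp => ?_, h4⟩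
    rcases htb with htb | hM
    · by_contra hcon
      push Not at hcon
      refine hb2 ⟨h1.word, fun y hy => ?_, fun y hy hy5 => ?_, hcon⟩
      · by_cases hly : lev y = j
        · have hyl := mem_lowPart.mp (h1.fine ▸ hy)
          obtain ⟨s', a1, a2, a3⟩ := (K.comp t).surj y hyl.1 (by omega)
          rw [hly] at a1 a2 a3
          have hs' : s' = 5 := by
            have e1 := hrow.1
            have e2 := hrow.2
            omega
          subst hs'
          rw [← a3, ← h2, ← hez, hzp, h2]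
          rcases F.typ t with ⟨k1, k2, k3, k4, k5, k6, k7⟩ | ⟨c, Nc, co, k0, k1, k2, k3, k4, k5, k6⟩ |
            ⟨k0, k1, k2, k3, k4, k5, k6, k7, k8⟩ | ⟨Nc, co, k0, k1, k2, k3, k4, k5, k6⟩
          · exact absurd (mem_ED.mp htE) k6
          · exact absurd (mem_ED.mp htE) k6
          · rw [k5]
            simp only
            rw [thC_e (K.comp t) tb le_rfl a1 a2, htb]
          · have := h1.word.row
            rw [this.1, this.2] at k3
            omega
        · have hbl : El.bl (univ \ Nf t) e' y ≤ 0 := by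
            refine El.bl_le fun z' hz' hz'y => ?_
            exfalso
            have hyl := mem_lowPart.mp (h1.fine ▸ hy)
            refine (mem_sdiff.mp hz').2 ?_
            rw [h1.fine]
            have e3 := (H.covBy_iff.mp hz'y).2
            exact mem_lowPart.mpr ⟨hz'y.1.le.trans hyl.1, by omega⟩
          omega
      · rw [hy5, ← h2, ← hez, hzp]
    · rw [hM]
      exact Nat.zero_le _
  · exact Or.inr h1

lemma HitE.not_mem (HN : NatSys Nf) {t : Tops P} {z : P} {s : ℕ}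
    (h : HitE j lo hi e N Nf D t z s) (C : Comp j (t : P) (lo t) (hi t) (e t)) (u : Tops P) :
    z ∉ Nf u := by
  intro hu
  have h1 := HN.up u z hu _ h.cov.1.le
  have h2 : e t j s ∈ Nf t := by
    rw [h.fine]
    exact mem_lowPart.mpr ⟨C.le_t j s le_rfl h.lo h.hi, (C.lev_e j s le_rfl h.lo h.hi).le⟩
  have h3 : u = t := (HN.topOf_eq h1).symm.trans (HN.topOf_eq h2)
  rw [h3, h.fine, mem_lowPart] at hu
  have h4 := h.lev
  omega

/-- a lower bound for the energies of the bad `E7` tops -/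
def MinB (j p1 M mE : ℕ) : Prop :=
  mE ≤ Ew.cstW 4 w7 j 5 4 (p1 + 1) ∧ (mE ≤ M ∨ mE ≤ Ew.cstW 4 w7 j 5 4 p1)

lemma BadE.min {e' : P → ℕ} {t : Tops P} {z : P} {p1 M mE : ℕ}
    (h : BadE j p1 M lo hi e N Nf D e' t z) (hm : MinB j p1 M mE) : mE ≤ ∑ y ∈ Nf t, e' y := by
  rcases Nat.lt_or_ge p1 (e' z) with h1 | h1
  · exact hm.1.trans (h.cst _ h1)
  · have h2 : e' z = p1 := le_antisymm h1 h.le
    rcases hm.2 with h3 | h3
    · exact h3.trans (h.big h2)
    · exact h3.trans (h.cst _ h.le)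

/-- **Two bad tops.** -/
theorem Fs.two_bad (F : Fs P j lo hi e N θ4 Nf θf D) (K : Ctx P r j lo hi e) (h12 : 12 ≤ j)
    (Y : Y4 r j K3 K' V3 N b θ3 θ4) (hrow : Row5 j) {cS p1 M mE n : ℕ}
    (hS : ∀ a ∈ Finset.Icc 1 (j / 2), cS ≤ deC j a) {tb : ℕ → ℕ → ℕ}
    (hp : E7t4 j 5 + 1 = p1) (htb : tb j 5 = p1 ∨ M = 0) (hm : MinB j p1 M mE)
    (hc1 : n < 2 * cS) (hc2 : n < cS + mE)
    {e' : P → ℕ} {F' : Finset P} (hV : Vd 4 e' F') (hs : ∑ x, e' x = n)
    (hok : Ew.Ok (rA N) (thA N θ4) e')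
    (hcard : 1 < (El.KG (ED D) Nf (Gd j p1 M lo hi e Nf θf tb) e').card) :
    ∃ t t' z z', t ≠ t' ∧ BadE j p1 M lo hi e N Nf D e' t z ∧
      BadE j p1 M lo hi e N Nf D e' t' z' ∧ (z ≠ z' →
      ∑ y ∈ Nf t, e' y + ∑ y ∈ Nf t', e' y + e' z + e' z' ≤ n) ∧
      (z = z' → ∑ y ∈ Nf t, e' y + ∑ y ∈ Nf t', e' y + e' z ≤ n) := by
  classical
  have HN := (F.ew K h12 Y).natSys
  obtain ⟨t, ht, t', ht', hne⟩ := Finset.one_lt_card.mp hcard
  have h0 : ∑ y ∈ Nf t, e' y + ∑ y ∈ Nf t', e' y ≤ n := by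
    rw [← hs, ← Finset.sum_union (Ew.disj_tops HN hne)]
    exact Finset.sum_le_sum_of_subset (Finset.subset_univ _)
  rcases F.bad_cases K h12 Y hrow hS hp htb hV hok ht with ⟨z, hz⟩ | h1
  · rcases F.bad_cases K h12 Y hrow hS hp htb hV hok ht' with ⟨z', hz'⟩ | h1'
    · refine ⟨t, t', z, z', hne, hz, hz', fun hzz => ?_, fun hzz => ?_⟩
      · have h4 := Ew.sum_tops HN hne (A := {z, z'}) (fun y hy s => by
          rw [mem_insert, mem_singleton] at hy
          rcases hy with hy | hy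
          · rw [hy]; exact hz.hit.not_mem HN (K.comp t) s
          · rw [hy]; exact hz'.hit.not_mem HN (K.comp t') s) e'
        rw [Finset.sum_pair hzz, hs] at h4
        omega
      · have h4 := Ew.sum_tops HN hne (A := {z}) (fun y hy s => by
          rw [mem_singleton] at hy
          rw [hy]; exact hz.hit.not_mem HN (K.comp t) s) e'
        rw [Finset.sum_singleton, hs] at h4
        omega
    · exfalso
      have := hz.min hm
      omega
  · rcases F.bad_cases K h12 Y hrow hS hp htb hV hok ht' with ⟨z', hz'⟩ | h1'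
    · exfalso
      have := hz'.min hm
      omega
    · exfalso
      omega

/-- two `E7` tops with a common lower element of level `j + 1` -/
def E2 (j : ℕ) (lo hi : Tops P → ℕ → ℕ) (e : Tops P → ℕ → ℕ → P)
    (N Nf : Tops P → Finset P) (D : Tops P → Prop) (z : P) : Prop :=
  ∃ t t', t ≠ t' ∧ HitE j lo hi e N Nf D t z 5 ∧ HitE j lo hi e N Nf D t' z 5

/-- at most one bad top -/
theorem Fs.card_le_one (F : Fs P j lo hi e N θ4 Nf θf D) (K : Ctx P r j lo hi e) (h12 : 12 ≤ j)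
    (Y : Y4 r j K3 K' V3 N b θ3 θ4) (hrow : Row5 j) {cS p1 M mE n : ℕ}
    (hS : ∀ a ∈ Finset.Icc 1 (j / 2), cS ≤ deC j a) {tb : ℕ → ℕ → ℕ}
    (hp : E7t4 j 5 + 1 = p1) (htb : tb j 5 = p1 ∨ M = 0) (hm : MinB j p1 M mE)
    (hc1 : n < 2 * cS) (hc2 : n < cS + mE) (hd : n < 2 * mE + 2 * p1)
    (hE : (¬ ∃ z, E2 j lo hi e N Nf D z) ∨ (n < 2 * Ew.cstW 4 w7 j 5 4 (p1 + 1) + p1 + 1 ∧
      (n < 2 * M + p1 ∨ n < 2 * Ew.cstW 4 w7 j 5 4 p1 + p1)))
    {e' : P → ℕ} {F' : Finset P} (hV : Vd 4 e' F') (hs : ∑ x, e' x = n)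
    (hok : Ew.Ok (rA N) (thA N θ4) e') :
    (El.KG (ED D) Nf (Gd j p1 M lo hi e Nf θf tb) e').card ≤ 1 := by
  by_contra hcon
  obtain ⟨t, t', z, z', hne, h1, h2, h3, h4⟩ := F.two_bad K h12 Y hrow hS hp htb hm hc1 hc2 hV hs
    hok (not_le.mp hcon)
  have g1 := h1.min hm
  have g2 := h2.min hm
  by_cases hzz : z = z'
  · subst hzz
    rcases hE with hE | ⟨hE1, hE2⟩
    · exact hE ⟨z, t, t', hne, h1.hit, h2.hit⟩
    · have h5 := h4 rfl
      rcases Nat.lt_or_ge p1 (e' z) with h6 | h6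
      · have a1 := h1.cst _ h6
        have a2 := h2.cst _ h6
        simp only [Nat.succ_eq_add_one] at a1 a2
        omega
      · have h7 : e' z = p1 := le_antisymm h6 h1.le
        have a1 := h1.cst _ h1.le
        have a2 := h2.cst _ h2.le
        have b1 := h1.big h7
        have b2 := h2.big h7
        omega
  · have h5 := h3 hzz
    have := h1.le
    have := h2.le
    omega

end Pool.Agent.GaussPoset.Ec

end
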