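import Mathlib
import Pool.Agent.W_448zz_h61.Ns
import Pool.Agent.W_448zz_h61.M081
import Pool.Agent.W_448zz_h61.M103
import Pool.Agent.W_448zz_h61.M104

/-! From `Pool.Agent.W_448s7s_h5.SrD` -/

section

/-!
# Fast checks of the tables (MP_448cb3_co, S7, `j ≤ 16`)
-/

namespace Pool.Agent.GaussPoset.Sm

/-- all pairs of a list, up to the order -/
def symAll {α : Type} (p : α → α → Bool) : List α → Bool
  | [] => true
  | s :: l => p s s && (l.all (p s) && symAll p l)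

lemma symAll_spec {α : Type} {p : α → α → Bool} (hp : ∀ a b, p a b = p b a) :
    ∀ l : List α, symAll p l = true → ∀ a ∈ l, ∀ b ∈ l, p a b = true := by
  intro l
  induction l with
  | nil => intro _ a ha; exact absurd ha List.not_mem_nil
  | cons s l ih =>
    intro h a ha b hb
    unfold symAll at h
    rw [Bool.and_eq_true, Bool.and_eq_true, List.all_eq_true] at h
    obtain ⟨h1, h2, h3⟩ := h
    rw [List.mem_cons] at ha hb
    rcases ha with rfl | ha
    · rcases hb with rfl | hb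
      · exact h1
      · exact h2 b hb
    · rcases hb with rfl | hb
      · rw [hp]; exact h2 a ha
      · exact ih h3 a ha b hb

/-- dead lines, natural numbers: the line `K (j - w) + a - C` -/
def deadN (L : List (ℕ × ℕ)) (K C a : ℕ) : Bool :=
  L.all fun p => Nat.blt (p.2 + C) (K * p.1 + a)

/-- dead or in the table -/
def okN (L : List (ℕ × ℕ)) (tb : List (List ℕ)) (K C a : ℕ) : Bool :=
  deadN L K C a || (Nat.ble C (a + 300) && (tb.getD K []).any fun g => Nat.beq g (a + 300 - C))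

/-- the table with integers -/
def tabI (tb : List (List ℕ)) : List (List ℤ) :=
  tb.map fun l : List ℕ => l.map fun g : ℕ => (g : ℤ) - 300

/-- the caps as a list -/
def CapL (j W : ℕ) (cap : ℕ → ℤ) (L : List (ℕ × ℕ)) : Prop :=
  L.length = W + 1 ∧ ∀ w ∈ List.range (W + 1), (L.getD w (0, 0)).1 + w = j ∧
    ((L.getD w (0, 0)).2 : ℤ) = cap w

instance (j W : ℕ) (cap : ℕ → ℤ) (L : List (ℕ × ℕ)) : Decidable (CapL j W cap L) := by
  unfold CapL; infer_instance

lemma dead_of {j W : ℕ} {cap : ℕ → ℤ} {L : List (ℕ × ℕ)} (hL : CapL j W cap L) {K C a : ℕ}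
    (h : deadN L K C a = true) : dead j W cap (K : ℤ) ((a : ℤ) - C) = true := by
  unfold dead
  unfold deadN at h
  rw [List.all_eq_true] at h ⊢
  intro w hw
  obtain ⟨h1, h2⟩ := hL.2 w hw
  rw [List.mem_range] at hw
  have h3 : L.getD w (0, 0) ∈ L := by
    rw [List.getD_eq_getElem _ _ (by rw [hL.1]; exact hw)]
    exact List.getElem_mem _
  have h4 := h _ h3
  rw [Nat.blt_eq] at h4
  rw [decide_eq_true_eq, ← h2]
  have h5 : ((j : ℤ) - w) = ((L.getD w (0, 0)).1 : ℤ) := by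
    have : (((L.getD w (0, 0)).1 + w : ℕ) : ℤ) = j := by exact_mod_cast h1
    push_cast at this
    linarith
  rw [h5]
  have h6 : (((L.getD w (0, 0)).2 + C : ℕ) : ℤ) < ((K * (L.getD w (0, 0)).1 + a : ℕ) : ℤ) := by
    exact_mod_cast h4
  push_cast at h6
  linarith

lemma dead_mono {j : ℤ} {W : ℕ} {cap : ℕ → ℤ} {κ g κ' g' : ℤ} (hj : (W : ℤ) < j)
    (h1 : κ ≤ κ') (h2 : g ≤ g') (h : dead j W cap κ g = true) : dead j W cap κ' g' = true := by
  unfold dead at h ⊢
  rw [List.all_eq_true] at h ⊢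
  intro w hw
  have h3 := h w hw
  rw [List.mem_range] at hw
  rw [decide_eq_true_eq] at h3 ⊢
  have h4 : (w : ℤ) ≤ W := by exact_mod_cast Nat.lt_succ_iff.mp hw
  have h5 : κ * (j - w) ≤ κ' * (j - w) := mul_le_mul_of_nonneg_right h1 (by linarith)
  linarith

lemma okL_of {j W : ℕ} {cap : ℕ → ℤ} {L : List (ℕ × ℕ)} (hL : CapL j W cap L)
    {tb : List (List ℕ)} {K C a : ℕ} (h : okN L tb K C a = true) {κ g : ℤ} (e1 : κ = K)
    (e2 : g = (a : ℤ) - C) : okL j W cap (tabI tb) κ g = true := by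
  subst e1 e2
  unfold okN at h
  unfold okL
  rw [Bool.or_eq_true] at h ⊢
  rcases h with h | h
  · exact Or.inl (dead_of hL h)
  · right
    rw [Bool.and_eq_true, List.any_eq_true, Nat.ble_eq] at h
    obtain ⟨h1, g, h2, h3⟩ := h
    rw [Nat.beq_eq] at h3
    unfold aT tabI
    rw [Bool.and_eq_true, decide_eq_true_eq]
    refine ⟨Int.natCast_nonneg _, ?_⟩
    have h4 : (tb.map fun l : List ℕ => l.map fun g : ℕ => (g : ℤ) - 300).getD K [] =
        (tb.getD K []).map fun g : ℕ => (g : ℤ) - 300 := by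
      have := List.getD_map (l := tb) (d := []) (n := K)
        (f := fun l : List ℕ => l.map fun g : ℕ => (g : ℤ) - 300)
      simpa using this
    rw [List.elem_iff, Int.toNat_natCast, h4, List.mem_map]
    refine ⟨g, h2, ?_⟩
    rw [h3]
    omega

/-- sides of level `j + 1` -/
def fst1 (L : List (ℕ × ℕ)) (tb : List (List ℕ)) (S : List (ℕ × ℕ × ℕ)) : Bool :=
  symAll (fun s s' => okN L tb (2 + (s.1 + s'.1) + (s.2.2 + s'.2.2)) (s.2.1 + s'.2.1) 3) S

lemma chk1_of {j W : ℕ} {cap : ℕ → ℤ} {L : List (ℕ × ℕ)} (hL : CapL j W cap L)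
    {tb : List (List ℕ)} {S : List (ℕ × ℕ × ℕ)} (h : fst1 L tb S = true) :
    chk1 j W cap (tabI tb) S = true := by
  unfold chk1
  unfold fst1 at h
  have h1 := symAll_spec (by intro a b; simp only [Nat.add_comm]) S h
  rw [List.all_eq_true]
  intro s hs
  rw [List.all_eq_true]
  intro s' hs'
  refine okL_of hL (h1 s hs s' hs') ?_ ?_
  · push_cast; ring
  · push_cast; ring

/-- the deeper lines -/
def dl : List (ℕ × ℕ) :=
  [(4, 8), (5, 9), (6, 10), (7, 11), (8, 12), (6, 15), (7, 16), (7, 17), (8, 17), (8, 18),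
    (8, 19), (8, 24)]

/-- sides of the levels `> j + 1` -/
def fst2 (L : List (ℕ × ℕ)) (tb : List (List ℕ)) (S : List (ℕ × ℕ × ℕ)) : Bool :=
  symAll (fun s s' => deadN L (4 + (s.1 + s'.1 + (s.2.2 + s'.2.2))) (s.2.1 + s'.2.1) 8 ||
    dl.all fun p => okN L tb (p.1 + (s.1 + s'.1 + (s.2.2 + s'.2.2))) (s.2.1 + s'.2.1) p.2) S

lemma dl_mem : ∀ q ∈ Finset.Icc 2 4, ∀ n ∈ Finset.range (9 - 2 * q), ∀ d ∈
    Finset.range ((q - 1) * n + 1), n ≤ d → (2 * q + n, q * q + 2 * q + d) ∈ dl := by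
  decide +kernel

lemma chk2_of {j W : ℕ} (hW : W < j) {cap : ℕ → ℤ} {L : List (ℕ × ℕ)} (hL : CapL j W cap L)
    {tb : List (List ℕ)} {S : List (ℕ × ℕ × ℕ)} (h : fst2 L tb S = true) :
    chk2 j W cap (tabI tb) S = true := by
  unfold chk2
  unfold fst2 at h
  have h1 := symAll_spec (by intro a b; simp only [Nat.add_comm]) S h
  rw [List.all_eq_true]
  intro s hs
  rw [List.all_eq_true]
  intro s' hs'
  have h2 := h1 s hs s' hs'
  rw [List.all_eq_true]
  intro q hq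
  rw [List.mem_range] at hq
  rw [Bool.or_eq_true, decide_eq_true_eq]
  rcases Nat.lt_or_ge q 2 with hq2 | hq2
  · exact Or.inl hq2
  right
  rw [List.all_eq_true]
  intro n hn
  rw [List.mem_range] at hn
  rw [List.all_eq_true]
  intro d hd
  rw [List.mem_range] at hd
  rw [Bool.or_eq_true, decide_eq_true_eq]
  rcases Nat.lt_or_ge d n with hdn | hdn
  · exact Or.inl hdn
  right
  rw [Bool.or_eq_true] at h2
  have hq3 : q * q = q * q := rfl
  rcases h2 with h2 | h2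
  · unfold okL
    rw [Bool.or_eq_true]
    left
    have h3 := dead_of hL h2
    refine dead_mono (by exact_mod_cast hW) ?_ ?_ h3
    · push_cast
      have : (2 : ℤ) ≤ q := by exact_mod_cast hq2
      have : (0 : ℤ) ≤ n := Int.natCast_nonneg n
      linarith
    · push_cast
      have h4 : (2 : ℤ) ≤ q := by exact_mod_cast hq2
      have : (0 : ℤ) ≤ d := Int.natCast_nonneg d
      nlinarith
  · rw [List.all_eq_true] at h2
    have h3 := h2 _ (dl_mem q (Finset.mem_Icc.mpr ⟨hq2, by omega⟩) n (Finset.mem_range.mpr hn) d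
      (Finset.mem_range.mpr hd) hdn)
    refine okL_of hL h3 ?_ ?_
    · push_cast; ring
    · push_cast; ring

end Pool.Agent.GaussPoset.Sm

end

/-! From `Pool.Agent.W_448s7_h27.EwS` -/

section

/-!
The ends with the data of `E7` (MP_448cb3_co, S7).
-/

namespace Pool.Agent.GaussPoset.Sm

set_option linter.unusedSectionVars false

open Finset Wd Cl

universe u

variable {P : Type u} [Fintype P] [PartialOrder P] [DecidableEq P] {r j : ℕ}
  {lo hi : Tops P → ℕ → ℕ} {e : Tops P → ℕ → ℕ → P}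

/-- the data `(m, c)` belong to the word `w7` only -/
def ChkW (j m c : ℕ) : Prop :=
  ∀ a ∈ range (j + 1), 2 ≤ a → ∀ w ∈ wds j a, w.length = j - a →
    ∀ A ∈ (Icc (Lw w (w.length + 3)) (Hw w (w.length + 3))).powerset, A.Nonempty →
      condA 0 w A → mA w A = m → dA w A = c → a = 4 ∧ w = w7.take (j - 4)

instance (j m c : ℕ) : Decidable (ChkW j m c) := by unfold ChkW; infer_instance

lemma chkW15 : ChkW 15 10 70 := by decide +kernel
lemma chkW16 : ChkW 16 10 80 := by decide +kernel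

/-- the word of an end with the data of `E7` -/
theorem Ctx.word_of_data (K : Ctx P r j lo hi e) {m c : ℕ} (hC : ChkW j m c) (hm0 : m ≠ 0)
    (hf : fm j ≠ m) {x : P} (hx : x ∈ onlyB (topOf x)) (hl : lev x = j)
    (hend : (Win.uc x).card = 1) (hm : mX j x = m) (hc : cX j x = c) :
    WordD j 4 w7 (lo (topOf x)) (hi (topOf x)) := by
  have h5 := K.h5
  rcases K.cases hx hl.ge (fun _ => hend) (fun h => by have := h.1; omega) with h | h | ⟨a, h, -⟩
  · exfalso
    have h1 := h.mX.1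
    rw [hm] at h1
    exact hf (by exact_mod_cast h1.symm)
  · exfalso
    have h1 := h.mX.1
    rw [hm] at h1
    exact hm0 (by exact_mod_cast h1)
  · obtain ⟨A, g1, g2, g3, g4, g5, -, -⟩ := late_side K.gt (by omega) (K.comp _) h.two h.le h.low
      h.at_a hx hl.ge (fun _ => hend) rfl
    obtain ⟨q1, q2⟩ := hC a (mem_range.mpr (by have := h.le; omega)) h.two _ h.word (by simp) A g1
      g2 (g3 0 hl) (by rw [hm] at g4; exact_mod_cast g4.symm) (by rw [hc] at g5; exact_mod_cast g5.symm)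
    subst q1
    exact ⟨h.low, h.at_a, q2⟩

end Pool.Agent.GaussPoset.Sm

end

/-! From `Pool.Agent.W_448s7_h27.PhD` -/

section

/-!
Elimination with the windows `0, …, 4` (MP_448cb3_co, S7): the state.
-/

namespace Pool.Agent.GaussPoset.Sm

set_option linter.unusedSectionVars false

open Finset Wd

universe u

/-- sides of level `j + 1` -/
def fst1F (L : List (ℕ × ℕ)) (nA nB : List (List ℕ)) (S : List (ℕ × ℕ × ℕ × ℕ)) : Bool :=
  symAll (fun s s' => okN L (bif Nat.beq (s.2.2.2 + s'.2.2.2) 0 then nA else nB)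
    (2 + (s.1 + s'.1) + (s.2.2.1 + s'.2.2.1)) (s.2.1 + s'.2.1) 3) S

/-- sides of the levels `> j + 1` -/
def fst2F (L : List (ℕ × ℕ)) (nA nB : List (List ℕ)) (S : List (ℕ × ℕ × ℕ × ℕ)) : Bool :=
  symAll (fun s s' => deadN L (4 + (s.1 + s'.1 + (s.2.2.1 + s'.2.2.1))) (s.2.1 + s'.2.1) 8 ||
    dl.all fun p => okN L (bif Nat.beq (s.2.2.2 + s'.2.2.2) 0 then nA else nB)
      (p.1 + (s.1 + s'.1 + (s.2.2.1 + s'.2.2.1))) (s.2.1 + s'.2.1) p.2) S

lemma okF_of {j W : ℕ} {cap : ℕ → ℤ} {L : List (ℕ × ℕ)} (hL : CapL j W cap L)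
    {nA nB : List (List ℕ)} {f K C a : ℕ}
    (h : okN L (bif Nat.beq f 0 then nA else nB) K C a = true) {κ g : ℤ} (e1 : κ = K)
    (e2 : g = (a : ℤ) - C) : okF j W cap (tabI nA) (tabI nB) f κ g = true := by
  unfold okF aF
  rcases Nat.eq_zero_or_pos f with hf | hf
  · subst hf
    exact okL_of hL h e1 e2
  · have h1 : Nat.beq f 0 = false := by
      rw [Bool.eq_false_iff]
      intro h2
      have := Nat.eq_of_beq_eq_true h2
      omega
    rw [h1, cond_false] at h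
    rw [if_neg (by omega)]
    exact okL_of hL h e1 e2

lemma chk1F_of {j W : ℕ} {cap : ℕ → ℤ} {L : List (ℕ × ℕ)} (hL : CapL j W cap L)
    {nA nB : List (List ℕ)} {S : List (ℕ × ℕ × ℕ × ℕ)} (h : fst1F L nA nB S = true) :
    chk1F j W cap (tabI nA) (tabI nB) S = true := by
  unfold chk1F
  unfold fst1F at h
  have h1 := symAll_spec (by intro a b; simp only [Nat.add_comm]) S h
  rw [List.all_eq_true]
  intro s hs
  rw [List.all_eq_true]
  intro s' hs'
  refine okF_of hL (h1 s hs s' hs') ?_ ?_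
  · push_cast; ring
  · push_cast; ring

lemma chk2F_of {j W : ℕ} (hW : W < j) {cap : ℕ → ℤ} {L : List (ℕ × ℕ)} (hL : CapL j W cap L)
    {nA nB : List (List ℕ)} {S : List (ℕ × ℕ × ℕ × ℕ)} (h : fst2F L nA nB S = true) :
    chk2F j W cap (tabI nA) (tabI nB) S = true := by
  unfold chk2F
  unfold fst2F at h
  have h1 := symAll_spec (by intro a b; simp only [Nat.add_comm]) S h
  rw [List.all_eq_true]
  intro s hs
  rw [List.all_eq_true]
  intro s' hs'
  have h2 := h1 s hs s' hs'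
  rw [List.all_eq_true]
  intro q hq
  rw [List.mem_range] at hq
  rw [Bool.or_eq_true, decide_eq_true_eq]
  rcases Nat.lt_or_ge q 2 with hq2 | hq2
  · exact Or.inl hq2
  right
  rw [List.all_eq_true]
  intro n hn
  rw [List.mem_range] at hn
  rw [List.all_eq_true]
  intro d hd
  rw [List.mem_range] at hd
  rw [Bool.or_eq_true, decide_eq_true_eq]
  rcases Nat.lt_or_ge d n with hdn | hdn
  · exact Or.inl hdn
  right
  rw [Bool.or_eq_true] at h2
  have hq3 : q * q = q * q := rfl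
  rcases h2 with h2 | h2
  · unfold okF
    rw [Bool.or_eq_true]
    left
    have h3 := dead_of hL h2
    refine dead_mono (by exact_mod_cast hW) ?_ ?_ h3
    · push_cast
      have : (2 : ℤ) ≤ q := by exact_mod_cast hq2
      have : (0 : ℤ) ≤ n := Int.natCast_nonneg n
      linarith
    · push_cast
      have h4 : (2 : ℤ) ≤ q := by exact_mod_cast hq2
      have : (0 : ℤ) ≤ d := Int.natCast_nonneg d
      nlinarith
  · rw [List.all_eq_true] at h2
    have h3 := h2 _ (dl_mem q (Finset.mem_Icc.mpr ⟨hq2, by omega⟩) n (Finset.mem_range.mpr hn) d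
      (Finset.mem_range.mpr hd) hdn)
    refine okF_of hL h3 ?_ ?_
    · push_cast; ring
    · push_cast; ring

/-- the allowed lines; `XL` = the values at the window `4` which are excluded for `tB` -/
def aX (tA tB : List (List ℤ)) (XL : List ℤ) (j κ g : ℤ) : Bool :=
  aT tA κ g || (aT tB κ g && !(XL.elem (κ * (j - 4) + g)))

/-- all lines of a table -/
def allT (tab : List (List ℤ)) (p : ℤ → ℤ → Bool) : Bool :=
  (List.range tab.length).all fun k => (tab.getD k []).all fun g => p k g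

lemma allT_spec {tab : List (List ℤ)} {p : ℤ → ℤ → Bool} (h : allT tab p = true) {κ g : ℤ}
    (ha : aT tab κ g = true) : p κ g = true := by
  unfold aT at ha
  rw [Bool.and_eq_true, decide_eq_true_eq] at ha
  obtain ⟨h0, h1⟩ := ha
  have h2 : κ.toNat < tab.length := by
    by_contra hcon
    rw [List.getD_eq_default _ _ (by omega)] at h1
    simp at h1
  unfold allT at h
  rw [List.all_eq_true] at h
  have h3 := h _ (List.mem_range.mpr h2)
  rw [List.all_eq_true] at h3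
  have h4 := h3 g (List.elem_iff.mp h1)
  rwa [Int.toNat_of_nonneg h0] at h4

variable {P : Type u} [Fintype P] [PartialOrder P] [DecidableEq P] {r j w : ℕ}
  {lo hi : Tops P → ℕ → ℕ} {e : Tops P → ℕ → ℕ → P}

/-- the state of the elimination -/
structure StF (P : Type u) [Fintype P] [PartialOrder P] [DecidableEq P] (j : ℕ) (V : ℕ → ℤ)
    (u XL : List ℤ) : Prop where
  bel : Chk.Below 3 V u
  kill : ∀ z x x' : P, Cg z x x' → Sok j x → Sok j x' → kapZ j z * (j - 4) + gZ j z ∈ XL →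
    nab 4 z ≤ 2

/-- the balances at the windows `0, …, 3` -/
def Bals (P : Type u) [Fintype P] [PartialOrder P] [DecidableEq P] (j : ℕ) (cap : ℕ → ℤ)
    (nO nE : ℕ → ℤ → Bool) (lb V : ℕ → ℤ) : Prop :=
  ∀ w ≤ 3, WinB P j w (cap w) (nO w) (nE w) (lb w) (V w)

section

variable {X : ℕ × ℕ × ℕ → ℕ × ℕ × ℕ → Bool} {cap : ℕ → ℤ} {tA tB : List (List ℤ)}
  {E S1 S2 : List (ℕ × ℕ × ℕ × ℕ)} {nO nE : ℕ → ℤ → Bool} {lb V : ℕ → ℤ} {u XL : List ℤ}

/-- a join is above the bounds -/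
lemma StF.above (hS : StF P j V u XL) (hB : Bals P j cap nO nE lb V) {z x x' : P}
    (h : Cg z x x') (hs : Sok j x) (hs' : Sok j x') :
    Chk.above (kapZ j z) (gZ j z) u j = true := by
  refine Chk.above_of (W := 3) (v := V) _ j fun w hw => ?_
  have hw' : w ≤ 3 := by
    have := hS.bel.1
    omega
  exact (hS.bel.2 w hw').trans ((hB w hw').mn z x x' h hs hs')

lemma StF.start (hB : Bals P j cap nO nE lb V) :
    StF P j V ((List.range 4).map fun w => min (lb w) (cap w + 1)) [] := by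
  refine ⟨⟨by simp, fun w hw => ?_⟩, fun z x x' _ _ _ h => absurd h List.not_mem_nil⟩
  rw [List.getD_eq_getElem?_getD, List.getElem?_map, List.getElem?_range (by omega)]
  simp only [Option.map_some, Option.getD_some]
  rcases le_or_gt (V w) (cap w) with h1 | h1
  · exact (min_le_left _ _).trans ((hB w hw).lo h1)
  · exact (min_le_right _ _).trans (by omega)

/-- allowed lines -/
lemma Ctx.mem_aX (K : Ctx P r j lo hi e) (hN : NoP P j X) (T : TabF j 4 cap tA tB E S1 S2 X)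
    (hS : StF P j V u XL) {z x x' : P} (h : Cg z x x') (hs : Sok j x) (hs' : Sok j x') (hw : w ≤ 4)
    (hc : kapZ j z * (j - w) + gZ j z ≤ cap w) :
    (nab 4 z = 2 ∧ aT tA (kapZ j z) (gZ j z) = true) ∨
      (3 ≤ nab 4 z ∧ aT tB (kapZ j z) (gZ j z) = true ∧
        kapZ j z * (j - 4) + gZ j z ∉ XL) := by
  obtain ⟨f, h1, h2⟩ := K.mem_tabF hN T h hs hs' hw hc
  unfold aF at h2
  split_ifs at h2 with hf
  · left
    exact ⟨by omega, h2⟩
  · right
    refine ⟨by omega, h2, fun hm => ?_⟩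
    have := hS.kill z x x' h hs hs' hm
    omega

lemma aX_of {κ g : ℤ} (h : aT tA κ g = true ∨ (aT tB κ g = true ∧ κ * ((j : ℤ) - 4) + g ∉ XL)) :
    aX tA tB XL j κ g = true := by
  unfold aX
  rw [Bool.or_eq_true, Bool.and_eq_true]
  refine h.imp id fun h => ⟨h.1, ?_⟩
  rw [Bool.not_eq_true', Bool.eq_false_iff]
  intro h2
  exact h.2 (List.elem_iff.mp h2)

theorem Ctx.sysF (K : Ctx P r j lo hi e) (hN : NoP P j X) (T : TabF j 4 cap tA tB E S1 S2 X)
    (hB : Bals P j cap nO nE lb V) (hS : StF P j V u XL) :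
    Sys (j : ℤ) 3 cap (aX tA tB XL j) nO nE (odds tA.length) (evens tA.length) V
      (fun κ g => ∃ z x x' : P, Cg z x x' ∧ Sok j x ∧ Sok j x' ∧ κ = kapZ j z ∧ g = gZ j z) := by
  refine ⟨?_, ?_, ?_, ?_⟩
  · rintro κ g ⟨z, x, x', h, hs, hs', rfl, rfl⟩ w hw he hc
    rcases K.mem_aX hN T hS h hs hs' (w := w) (by omega) (by rw [he]; exact hc) with
      ⟨-, h1⟩ | ⟨-, h1, h2⟩
    · exact ⟨aX_of (Or.inl h1), aT_mem h1⟩
    · exact ⟨aX_of (Or.inr ⟨h1, h2⟩), by rw [← T.len]; exact aT_mem h1⟩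
  · rintro κ g ⟨z, x, x', h, hs, hs', rfl, rfl⟩ w hw
    exact (hB w hw).mn z x x' h hs hs'
  · intro w hw hc
    rcases (hB w hw).od hc with ⟨z, x, x', h1, h2, h3, h4, h5⟩ | h1
    · exact Or.inl ⟨_, _, ⟨z, x, x', h1, h2, h3, rfl, rfl⟩, h4, h5⟩
    · exact Or.inr h1
  · intro w hw hc
    rcases (hB w hw).ev hc with ⟨z, x, x', h1, h2, h3, h4, h5⟩ | h1
    · exact Or.inl ⟨_, _, ⟨z, x, x', h1, h2, h3, rfl, rfl⟩, h4, h5⟩
    · exact Or.inr h1

/-- **the windows `0, …, 3`** -/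
theorem Ctx.sweepF (K : Ctx P r j lo hi e) (hN : NoP P j X) (T : TabF j 4 cap tA tB E S1 S2 X)
    (hB : Bals P j cap nO nE lb V) (hS : StF P j V u XL) (N R : ℕ) :
    StF P j V (rnds (aX tA tB XL j) nO nE cap (odds tA.length) (evens tA.length) j N 4 R u) XL :=
  ⟨(K.sysF hN T hB hS).rnds N R u hS.bel, hS.kill⟩

/-- all allowed lines above `u` have at least the value `T` at the window `4` -/
def lowC (tA tB : List (List ℤ)) (XL : List ℤ) (j : ℤ) (u : List ℤ) (T : ℤ) : Bool :=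
  allT tA (fun κ g => !(Chk.above κ g u j) || decide (T ≤ κ * (j - 4) + g)) &&
    allT tB (fun κ g => !(Chk.above κ g u j) ||
      (XL.elem (κ * (j - 4) + g) || decide (T ≤ κ * (j - 4) + g)))

/-- the lines of `tB` above `u` with the value `T` have the parity `p` -/
def parC (tB : List (List ℤ)) (j : ℤ) (u : List ℤ) (T p : ℤ) : Bool :=
  allT tB (fun κ g => !(Chk.above κ g u j) ||
    (decide (κ * (j - 4) + g ≠ T) || decide (κ % 2 = p)))

/-- **the least value at the window `4`** -/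
theorem Ctx.lowV (K : Ctx P r j lo hi e) (hN : NoP P j X) (T : TabF j 4 cap tA tB E S1 S2 X)
    (hB : Bals P j cap nO nE lb V) (hS : StF P j V u XL) {T0 : ℤ} (hT : T0 ≤ cap 4 + 1)
    (hC : lowC tA tB XL j u T0 = true) {z x x' : P} (h : Cg z x x') (hs : Sok j x)
    (hs' : Sok j x') : T0 ≤ kapZ j z * (j - 4) + gZ j z := by
  by_contra hcon
  push Not at hcon
  have h1 := hS.above hB h hs hs'
  unfold lowC at hC
  rw [Bool.and_eq_true] at hC
  rcases K.mem_aX hN T hS h hs hs' (w := 4) le_rfl (by push_cast; linarith) with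
    ⟨-, h2⟩ | ⟨-, h2, h3⟩
  · have h4 := allT_spec hC.1 h2
    simp only [h1, Bool.not_true, Bool.false_or, decide_eq_true_eq] at h4
    exact absurd h4 (not_le.mpr hcon)
  · have h4 := allT_spec hC.2 h2
    simp only [h1, Bool.not_true, Bool.false_or, Bool.or_eq_true, decide_eq_true_eq] at h4
    rcases h4 with h4 | h4
    · exact h3 (List.elem_iff.mp h4)
    · exact absurd h4 (not_le.mpr hcon)

/-- the parity of the class -/
theorem Ctx.parV (K : Ctx P r j lo hi e) (hN : NoP P j X) (T : TabF j 4 cap tA tB E S1 S2 X)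
    (hB : Bals P j cap nO nE lb V) (hS : StF P j V u XL) {T0 p : ℤ} (hT : T0 ≤ cap 4)
    (hC : parC tB j u T0 p = true) {z x x' : P} (h : Cg z x x') (hs : Sok j x)
    (hs' : Sok j x') (hv : kapZ j z * (j - 4) + gZ j z = T0) (h3 : 3 ≤ nab 4 z) :
    kapZ j z % 2 = p := by
  have h1 := hS.above hB h hs hs'
  rcases K.mem_aX hN T hS h hs hs' (w := 4) le_rfl (by push_cast; linarith) with
    ⟨h2, -⟩ | ⟨-, h2, -⟩
  · omega
  · have h4 := allT_spec hC h2
    simp only [h1, Bool.not_true, Bool.false_or, Bool.or_eq_true, decide_eq_true_eq] at h4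
    rcases h4 with h4 | h4
    · exact absurd hv h4
    · exact h4

end

end Pool.Agent.GaussPoset.Sm

end

/-! From `Pool.Agent.W_448s7_h27.PhE` -/

section

/-!
The costs of the joins at the window `4` (MP_448cb3_co, S7).
-/

namespace Pool.Agent.GaussPoset.Sm

set_option linter.unusedSectionVars false

open Finset Wd

universe u

variable {P : Type u} [Fintype P] [PartialOrder P] [DecidableEq P] {r j w : ℕ}
  {lo hi : Tops P → ℕ → ℕ} {e : Tops P → ℕ → ℕ → P}

/-- the levels below `4` of an allowed side -/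
theorem Ctx.low4 (K : Ctx P r j lo hi e) (h12 : 12 ≤ j) {z x x' : P} (h : Cg z x x')
    (hs : Sok j x) {k : ℕ} (hk : k < 4) : nab k x = 1 := by
  have hl := K.lev_ge h
  obtain ⟨l1, l2⟩ := h.lev_eq K.gt.H
  have hend : lev x = j → (Win.uc x).card = 1 := fun hh => (K.ends h (by omega)).1
  rcases K.cases h.only (by omega) hend hs.1 with g | g | ⟨a, g, g3⟩
  · exact absurd g (hs.2 h12)
  · exact g k (by omega)
  · have h4 := g.four (by omega)
    obtain ⟨e1, e2⟩ := g.low k (by omega)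
    exact nab_one_of_eq (K.comp (topOf x)) h.only (by omega) (by omega) (by rw [e1, e2])

theorem Ctx.two4 (K : Ctx P r j lo hi e) (h12 : 12 ≤ j) {z x x' : P} (h : Cg z x x')
    (hs : Sok j x) (hs' : Sok j x') {k : ℕ} (hk : k < 4) : nab k z = 2 := by
  have hl := K.lev_ge h
  rw [h.sum K.gt.H (by omega), K.low4 h12 h hs hk, K.low4 h12 h.symm hs' hk]

theorem Ctx.line4 (K : Ctx P r j lo hi e) (h12 : 12 ≤ j) {z x x' : P} (h : Cg z x x')
    (hs : Sok j x) (hs' : Sok j x') :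
    (ful 4 z : ℤ) = (((j - 3) ^ 2 : ℕ) : ℤ) + (kapZ j z * ((j : ℤ) - 4) + gZ j z) := by
  have hl := K.lev_ge h
  have h1 := ful_line (j := j) (w := 4) (z := z) (by omega) (by omega)
    (fun k hk => K.two4 h12 h hs hs' hk)
  rw [h1]
  push_cast [Nat.cast_sub (show 3 ≤ j by omega)]
  ring

theorem Ctx.par4 (K : Ctx P r j lo hi e) (h12 : 12 ≤ j) {z x x' : P} (h : Cg z x x')
    (hs : Sok j x) (hs' : Sok j x') :
    ((nst 4 (fun z => lev z - 4) z % 2 : ℕ) : ℤ) = kapZ j z % 2 := by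
  have hl := K.lev_ge h
  have h1 : anc z = 2 * 4 + nst 4 (fun z => lev z - 4) z := by
    unfold anc
    obtain ⟨c, hc⟩ : ∃ c, lev z = 4 + c := ⟨lev z - 4, by omega⟩
    rw [nst_eq, hc, Finset.sum_range_add, Nat.add_sub_cancel_left,
      Finset.sum_congr rfl (g := fun _ => 2) (fun k hk => K.two4 h12 h hs hs' (by
        rwa [mem_range] at hk)), Finset.sum_const, card_range, smul_eq_mul, Nat.mul_comm]
  have hk := kap_parity (j := j) (z := z)
  rcases Nat.even_or_odd (anc z) with h2 | h2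
  · have h3 := hk.2 h2
    rw [Int.even_iff] at h3
    rw [h3]
    have : nst 4 (fun z => lev z - 4) z % 2 = 0 := by
      rw [Nat.even_iff] at h2
      omega
    rw [this]
    rfl
  · have h3 := hk.1 h2
    rw [Int.odd_iff] at h3
    rw [h3]
    have : nst 4 (fun z => lev z - 4) z % 2 = 1 := by
      rw [Nat.odd_iff] at h2
      omega
    rw [this]
    rfl

/-- the joins of level `j + 1` at a fold end cost at least `n` at the window `4` -/
def FoB (P : Type u) [Fintype P] [PartialOrder P] [DecidableEq P] (j n : ℕ) : Prop :=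
  ∀ z x x' : P, Cg z x x' → lev z = j + 1 → Fold j x → n ≤ ful 4 z

lemma NF.foB (h : NF P j) (n : ℕ) : FoB P j n := fun z x x' hz hl hf => absurd hf (h z x x' hz hl)

lemma FoB.mono {n m : ℕ} (h : FoB P j n) (hm : m ≤ n) : FoB P j m :=
  fun z x x' hz hl hf => hm.trans (h z x x' hz hl hf)

/-- extra elements of fat sides -/
def gS (j n : ℕ) : ℕ := if n + 5 ≤ j then 1 else 0

/-- extra elements of the fold profile -/
def gFo (j n : ℕ) : ℕ := if n + 4 ≤ j then (n + 4) / 2 - (n + 4 - j / 2) else 0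

def fatS (j : ℕ) : ℕ := (j - 2) ^ 2 + ∑ n ∈ range (j - 2), n * gS j n

def fatFo (j : ℕ) : ℕ := (j - 2) ^ 2 + ∑ n ∈ range (j - 2), n * gFo j n

/-- joins with a side which is not allowed -/
theorem Ctx.fat4 (K : Ctx P r j lo hi e) (h12 : 12 ≤ j) {n : ℕ} (hFo : FoB P j n)
    {z x x' : P} (h : Cg z x x') (hs : ¬ Sok j x) :
    fatS j ≤ ful 4 z ∨ (j % 2 = 0 ∧ fatFo j ≤ ful 4 z) ∨ n ≤ ful 4 z := by
  have H := K.gt.H
  have hl := K.lev_ge h
  obtain ⟨l1, l2⟩ := h.lev_eq H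
  by_cases hfo : Fold j x
  · exact Or.inr (Or.inr (hFo z x x' h (by have := hfo.1; omega) hfo))
  rw [← or_assoc]
  left
  have hf : Fatt j x := by
    by_contra hcon
    exact hs ⟨hcon, fun _ => hfo⟩
  have hz2 : j + 2 ≤ lev z := by
    have := hf.1
    omega
  obtain ⟨c, hc⟩ : ∃ c, lev z = 4 + c := ⟨lev z - 4, by omega⟩
  have key : ∀ g : ℕ → ℕ, (∀ n, 1 ≤ n → n < c → 1 + g n ≤ nab (4 + n) x) →
      (j - 2) ^ 2 + ∑ n ∈ range (j - 2), n * g n ≤ ful 4 z := by
    intro g hg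
    have h1 := ful_ge (w := 4) (z := z) (c := c) g hc (fun n hn1 hn2 => by
      have h2 := hg n hn1 hn2
      have h3 := one_le_nab (l := 4 + n) (z := x') (by omega)
      rw [h.sum H (by omega)]
      omega)
    refine le_trans ?_ h1
    refine Nat.add_le_add (Nat.pow_le_pow_left (by omega) 2) ?_
    exact Finset.sum_le_sum_of_subset (Finset.range_mono (by omega))
  rcases K.cases_fat h.only (by omega) with g | ⟨a, g, g3⟩ | g
  · exfalso
    have h1 := g 2 (by omega)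
    have h2 := hf.2 2 le_rfl (by omega)
    omega
  · exfalso
    have h4 := g.four (by omega)
    obtain ⟨e1, e2⟩ := g.low 2 (by omega)
    have h1 := nab_one_of_eq (K.comp (topOf x)) h.only (k := 2) (by omega) (by omega)
      (by rw [e1, e2])
    have h2 := hf.2 2 le_rfl (by omega)
    omega
  · rcases g with g | ⟨g0, g⟩
    · left
      refine key _ fun n hn1 hn2 => ?_
      unfold gS
      split_ifs with h5
      · exact g (4 + n) (by omega) (by omega)
      · exact one_le_nab (l := 4 + n) (z := x) (by omega)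
    · right
      refine ⟨g0, key _ fun n hn1 hn2 => ?_⟩
      unfold gFo
      have h6 := one_le_nab (l := 4 + n) (z := x) (by omega)
      split_ifs with h5
      · have h7 := g (4 + n) (by omega)
        rw [Nat.add_comm n 4]
        omega
      · exact h6

/-- the cost of the joins from the values of their lines -/
theorem Ctx.lowN (K : Ctx P r j lo hi e) (h12 : 12 ≤ j) {T : ℕ}
    (hFo : FoB P j ((j - 3) ^ 2 + T))
    (h1 : ∀ z x x' : P, Cg z x x' → Sok j x → Sok j x' →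
      (T : ℤ) ≤ kapZ j z * (j - 4) + gZ j z)
    (c1 : (j - 3) ^ 2 + T ≤ fatS j) (c2 : j % 2 = 0 → (j - 3) ^ 2 + T ≤ fatFo j) :
    ∀ z x x' : P, Cg z x x' → (j - 3) ^ 2 + T ≤ ful 4 z := by
  intro z x x' h
  by_cases hs : Sok j x
  · by_cases hs' : Sok j x'
    · have h2 := h1 z x x' h hs hs'
      have h3 := K.line4 h12 h hs hs'
      have h4 : (((j - 3) ^ 2 + T : ℕ) : ℤ) ≤ ful 4 z := by
        rw [h3]
        push_cast
        linarith
      exact_mod_cast h4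
    · rcases K.fat4 h12 hFo h.symm hs' with h2 | ⟨h2, h3⟩ | h2
      · omega
      · have := c2 h2
        omega
      · exact h2
  · rcases K.fat4 h12 hFo h hs with h2 | ⟨h2, h3⟩ | h2
    · omega
    · have := c2 h2
      omega
    · exact h2

/-- the joins of a given cost are allowed -/
theorem Ctx.sokN (K : Ctx P r j lo hi e) (h12 : 12 ≤ j) {T : ℕ}
    (hFo : FoB P j ((j - 3) ^ 2 + T + 1))
    (c1 : (j - 3) ^ 2 + T < fatS j) (c2 : j % 2 = 0 → (j - 3) ^ 2 + T < fatFo j)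
    {z x x' : P} (h : Cg z x x') (hf : ful 4 z = (j - 3) ^ 2 + T) :
    Sok j x ∧ Sok j x' ∧ kapZ j z * (j - 4) + gZ j z = T := by
  have key : ∀ y y' : P, Cg z y y' → Sok j y := by
    intro y y' hy
    by_contra hs
    rcases K.fat4 h12 hFo hy hs with h2 | ⟨h2, h3⟩ | h2
    · omega
    · have := c2 h2
      omega
    · omega
  have hs := key x x' h
  have hs' := key x' x h.symm
  refine ⟨hs, hs', ?_⟩
  have h3 := K.line4 h12 h hs hs'
  rw [hf] at h3
  push_cast at h3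
  linarith

end Pool.Agent.GaussPoset.Sm

end

/-! From `Pool.Agent.W_448s7_h27.PhF` -/

section

/-!
Elimination with the windows `0, …, 4` (MP_448cb3_co, S7): the steps.
-/

namespace Pool.Agent.GaussPoset.Sm

set_option linter.unusedSectionVars false

open Finset Wd Ec W4 Cl

universe u

variable {P : Type u} [Fintype P] [PartialOrder P] [DecidableEq P] {r j w : ℕ}
  {lo hi : Tops P → ℕ → ℕ} {e : Tops P → ℕ → ℕ → P}

section

variable {X : ℕ × ℕ × ℕ → ℕ × ℕ × ℕ → Bool} {cap : ℕ → ℤ} {tA tB : List (List ℤ)}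
  {E S1 S2 : List (ℕ × ℕ × ℕ × ℕ)} {nO nE : ℕ → ℤ → Bool} {lb V : ℕ → ℤ} {u XL : List ℤ}

/-- the lower bound of the costs of the joins at the window `4` -/
theorem Ctx.costF (K : Ctx P r j lo hi e) (hN : NoP P j X)
    (T : TabF j 4 cap tA tB E S1 S2 X) (hB : Bals P j cap nO nE lb V) (hS : StF P j V u XL)
    {T0 : ℕ} (hFo : FoB P j ((j - 3) ^ 2 + T0))
    (hT : (T0 : ℤ) ≤ cap 4 + 1) (c1 : lowC tA tB XL j u T0 = true)
    (c3 : (j - 3) ^ 2 + T0 ≤ fatS j) (c4 : j % 2 = 0 → (j - 3) ^ 2 + T0 ≤ fatFo j) :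
    ∀ z x x' : P, Cg z x x' → (j - 3) ^ 2 + T0 ≤ ful 4 z :=
  K.lowN T.h12 hFo (fun _ _ _ h hs hs' => K.lowV hN T hB hS hT c1 h hs hs') c3 c4

/-- **the step at the window `4`** -/
theorem Ctx.stepF (K : Ctx P r j lo hi e) (hN : NoP P j X)
    (T : TabF j 4 cap tA tB E S1 S2 X) (hB : Bals P j cap nO nE lb V) (hS : StF P j V u XL)
    {T0 p : ℕ} (hFo : FoB P j ((j - 3) ^ 2 + T0 + 1)) (hT : (T0 : ℤ) ≤ cap 4) (c1 : lowC tA tB XL j u T0 = true)
    (c2 : parC tB j u T0 p = true)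
    (c3 : (j - 3) ^ 2 + T0 < fatS j) (c4 : j % 2 = 0 → (j - 3) ^ 2 + T0 < fatFo j)
    (hk : (∀ z x x' : P, Cg z x x' → (j - 3) ^ 2 + T0 ≤ ful 4 z) →
      (∀ z x x' : P, Cg z x x' → ful 4 z = (j - 3) ^ 2 + T0 → 3 ≤ nab 4 z →
        nst 4 (fun z => lev z - 4) z % 2 = p) →
      ∀ z x x' : P, Cg z x x' → ful 4 z = (j - 3) ^ 2 + T0 → nab 4 z ≤ 2) :
    StF P j V u ((T0 : ℤ) :: XL) := by
  have h12 := T.h12
  refine ⟨hS.bel, fun z x x' h hs hs' hm => ?_⟩
  rcases List.mem_cons.mp hm with h1 | h1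
  · refine hk (K.costF hN T hB hS (hFo.mono (Nat.le_succ _)) (by linarith) c1 c3.le
      fun h => (c4 h).le) ?_ z x x' h ?_
    · intro y v v' hy hfy h3
      obtain ⟨g1, g2, g3⟩ := K.sokN h12 hFo c3 c4 hy hfy
      have h4 := K.par4 h12 hy g1 g2
      have h5 := K.parV hN T hB hS hT c2 hy g1 g2 g3 h3
      rw [h5] at h4
      exact_mod_cast h4
    · have h2 := K.line4 h12 h hs hs'
      rw [h1] at h2
      exact_mod_cast h2
  · exact hS.kill z x x' h hs hs' h1

/-- the least cost at the window `3` -/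
lemma StF.v3 (hS : StF P j V u XL) {v : ℕ} (hV : V 3 = (v : ℤ) - ((j + 1 - 3 : ℕ) : ℤ) ^ 2)
    {V3 : ℕ} (h : (V3 : ℤ) ≤ u.getD 3 0 + ((j + 1 - 3 : ℕ) : ℤ) ^ 2) : V3 ≤ v := by
  have h1 := hS.bel.2 3 le_rfl
  rw [hV] at h1
  have : (V3 : ℤ) ≤ v := by linarith
  exact_mod_cast this

/-- the pairs of ends which are left -/
def restF (j : ℕ) (E : List (ℕ × ℕ × ℕ × ℕ)) (X : ℕ × ℕ × ℕ → ℕ × ℕ × ℕ → Bool)
    (u XL : List ℤ) : List ((ℕ × ℕ × ℕ) × (ℕ × ℕ × ℕ)) :=
  E.flatMap fun s => (E.filter fun s' => !X (tr3 s) (tr3 s') &&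
    (Chk.above ((s.1 : ℤ) + s'.1) (-((s.2.1 : ℤ) + s'.2.1)) u j &&
      !(decide (1 ≤ s.2.2.2 + s'.2.2.2) &&
        XL.elem (((s.1 : ℤ) + s'.1) * (j - 4) + -((s.2.1 : ℤ) + s'.2.1))))).map
      fun s' => (tr3 s, tr3 s')

/-- **the pairs of ends which are left** -/
theorem Ctx.leftS (K : Ctx P r j lo hi e) (hN : NoP P j X)
    (T : TabF j 4 cap tA tB E S1 S2 X) (hB : Bals P j cap nO nE lb V) (hS : StF P j V u XL)
    {z x x' : P} (h : Cg z x x') (hl : lev z = j + 1) (hs : Sok j x) (hs' : Sok j x') :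
    ∃ s s', (s, s') ∈ restF j E X u XL ∧ Dt j x s ∧ Dt j x' s' := by
  obtain ⟨s, s', g1, g1', d1, d1', e1, e2, e3⟩ := K.pairF T.h12 T.e T.e0 h hl hs hs'
  refine ⟨_, _, ?_, d1, d1'⟩
  have h1 := hS.above hB h hs hs'
  rw [e1, e2] at h1
  unfold restF
  rw [List.mem_flatMap]
  refine ⟨s, g1, ?_⟩
  rw [List.mem_map]
  refine ⟨s', ?_, rfl⟩
  rw [List.mem_filter]
  refine ⟨g1', ?_⟩
  rw [hN z x x' h hl _ _ d1 d1', Bool.not_false, Bool.true_and, h1, Bool.true_and,
    Bool.not_eq_true', Bool.and_eq_false_iff, decide_eq_false_iff_not]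
  by_cases hf : 1 ≤ s.2.2.2 + s'.2.2.2
  · right
    rw [Bool.eq_false_iff]
    intro hm
    have h2 := hS.kill z x x' h hs hs' (by
      rw [e1, e2]
      exact List.elem_iff.mp hm)
    omega
  · exact Or.inl hf

end

/-- a join with two ends with the data of `E7` -/
theorem Ctx.e2_of (K : Ctx P r j lo hi e) {N : Tops P → Finset P} {θ4 : Tops P → P → ℕ}
    {Nf : Tops P → Finset P} {θf : Tops P → (ℕ → ℕ → ℕ) → P → ℕ} {D : Tops P → Prop}
    (F : Fs P j lo hi e N θ4 Nf θf D) (hrow : Row5 j) {m c b b' : ℕ} (hC : ChkW j m c)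
    (hm0 : m ≠ 0) (hf : fm j ≠ m) {z x x' : P} (h : Cg z x x') (hl : lev z = j + 1)
    (d : Dt j x (m, c, b)) (d' : Dt j x' (m, c, b')) : E2 j lo hi e N Nf D z := by
  have h5 := K.h5
  have key : ∀ y y' : P, ∀ b : ℕ, Cg z y y' → Dt j y (m, c, b) →
      HitE j lo hi e N Nf D (topOf y) z 5 := by
    intro y y' b hy dy
    have hly : lev y = j := by
      have := (hy.lev_eq K.gt.H).1
      omega
    have hw := K.word_of_data hC hm0 hf hy.only hly (K.ends hy hl).1 dy.1 dy.2.1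
    obtain ⟨g1, g2, g3⟩ := F.of_word hw
    obtain ⟨s, a1, a2, a3⟩ := (K.comp (topOf y)).surj y (onlyB_le hy.only) hly.le
    rw [hly] at a1 a2 a3
    obtain ⟨r1, r2⟩ := hw.rows (K.comp (topOf y))
    have q1 := r1 j le_rfl
    have q2 := r2 j le_rfl
    have e1 := hrow.1
    have e2 := hrow.2
    have hs : s = 5 := by omega
    subst hs
    exact ⟨g1, hw, g2, g3, hl, a1, a2, by rw [a3]; exact hy.cov⟩
  exact ⟨topOf x, topOf x', h.ne, key x x' b h d, key x' x b' h.symm d'⟩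

end Pool.Agent.GaussPoset.Sm

end

/-! From `Pool.Agent.W_448s7_h27.PhL` -/

section

/-!
The machine of the windows `0, …, 4` with other lists of sides (MP_448cb3_co, S7).
-/

namespace Pool.Agent.GaussPoset.Sm

set_option linter.unusedSectionVars false

open Finset Wd Cl

universe u

open Ec W4

variable {P : Type u} [Fintype P] [PartialOrder P] [DecidableEq P] {r j w : ℕ}
  {lo hi : Tops P → ℕ → ℕ} {e : Tops P → ℕ → ℕ → P}

section

variable {X : ℕ × ℕ × ℕ → ℕ × ℕ × ℕ → Bool} {cap : ℕ → ℤ} {tA tB : List (List ℤ)}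
  {E S1 S2 : List (ℕ × ℕ × ℕ × ℕ)} {nO nE : ℕ → ℤ → Bool} {lb V : ℕ → ℤ} {u XL : List ℤ} {W : ℕ}

end

/-- the balance at the window `3` for all systems, with raised costs: `V` is the least raised cost,
`v` the least cost; they agree from `M0 + 4` on -/
def W3R (P : Type u) [Fintype P] [PartialOrder P] [DecidableEq P] (r j : ℕ)
    (lo hi : Tops P → ℕ → ℕ) (c3 : ℤ) (nO nE : ℤ → Bool) (lb : ℤ) (M0 : ℕ) : Prop :=
  ∀ (N : Tops P → Finset P) (θ3 θ4 : Tops P → P → ℕ), Sy P j lo hi N θ3 θ4 →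
    (∃ z : P, Hul.Jn z) → ∃ K3 v V : ℕ, Mn j 3 N θ3 v ∧ min V M0 ≤ v ∧ (M0 + 4 ≤ V → V ≤ v) ∧
      Wk r j 3 K3 N (fun t => hi t 3 - lo t 3 + 1) θ3 ∧
      WinB P j 3 c3 nO nE lb ((V : ℤ) - ((j + 1 - 3 : ℕ) : ℤ) ^ 2)

/-- the same with a further property `Q` of the system and of the least raised cost -/
def W3Q (P : Type u) [Fintype P] [PartialOrder P] [DecidableEq P] (r j : ℕ)
    (lo hi : Tops P → ℕ → ℕ) (c3 : ℤ) (nO nE : ℤ → Bool) (lb : ℤ) (M0 : ℕ)
    (Q : (Tops P → Finset P) → (Tops P → P → ℕ) → (Tops P → P → ℕ) → ℕ → Prop) : Prop :=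
  ∀ (N : Tops P → Finset P) (θ3 θ4 : Tops P → P → ℕ), Sy P j lo hi N θ3 θ4 →
    (∃ z : P, Hul.Jn z) → ∃ K3 v V : ℕ, Mn j 3 N θ3 v ∧ min V M0 ≤ v ∧ (M0 + 4 ≤ V → V ≤ v) ∧
      Wk r j 3 K3 N (fun t => hi t 3 - lo t 3 + 1) θ3 ∧
      WinB P j 3 c3 nO nE lb ((V : ℤ) - ((j + 1 - 3 : ℕ) : ℤ) ^ 2) ∧ Q N θ3 θ4 V

lemma W3R.toQ {c3 : ℤ} {nO nE : ℤ → Bool} {lb : ℤ} {M0 : ℕ}
    (h : W3R P r j lo hi c3 nO nE lb M0) :
    W3Q P r j lo hi c3 nO nE lb M0 (fun _ _ _ _ => True) := by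
  intro N θ3 θ4 S hJ
  obtain ⟨K3, v, V, h1, h2, h3, h4, h5⟩ := h N θ3 θ4 S hJ
  exact ⟨K3, v, V, h1, h2, h3, h4, h5, trivial⟩

/-- the balances of the windows `0, …, 3` -/
theorem W3Q.bals {cap : ℕ → ℤ} {nO nE : ℕ → ℤ → Bool} {lb : ℕ → ℤ} {M0 : ℕ}
    {Q : (Tops P → Finset P) → (Tops P → P → ℕ) → (Tops P → P → ℕ) → ℕ → Prop}
    (hW : W3Q P r j lo hi (cap 3) (nO 3) (nE 3) (lb 3) M0 Q) {N : Tops P → Finset P}
    {θ3 θ4 : Tops P → P → ℕ} (S : Sy P j lo hi N θ3 θ4) (hJ : ∃ z : P, Hul.Jn z)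
    (hb : ∀ w < 3, ∃ V, WinB P j w (cap w) (nO w) (nE w) (lb w) V) :
    ∃ (K3 v v' : ℕ) (V : ℕ → ℤ), Mn j 3 N θ3 v ∧ min v' M0 ≤ v ∧ (M0 + 4 ≤ v' → v' ≤ v) ∧
      Wk r j 3 K3 N (fun t => hi t 3 - lo t 3 + 1) θ3 ∧ Bals P j cap nO nE lb V ∧
      V 3 = (v' : ℤ) - ((j + 1 - 3 : ℕ) : ℤ) ^ 2 ∧ Q N θ3 θ4 v' := by
  obtain ⟨K3, v, v', M, q1, q2, W, B3, q3⟩ := hW N θ3 θ4 S hJ
  obtain ⟨V0, h0⟩ := hb 0 (by norm_num)
  obtain ⟨V1, h1⟩ := hb 1 (by norm_num)
  obtain ⟨V2, h2⟩ := hb 2 (by norm_num)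
  refine ⟨K3, v, v', fun w => if w = 0 then V0 else if w = 1 then V1 else if w = 2 then V2 else
      (v' : ℤ) - ((j + 1 - 3 : ℕ) : ℤ) ^ 2, M, q1, q2, W, ?_, rfl, q3⟩
  intro w hw
  have : w = 0 ∨ w = 1 ∨ w = 2 ∨ w = 3 := by omega
  rcases this with rfl | rfl | rfl | rfl
  · exact h0
  · exact h1
  · exact h2
  · exact B3

theorem W3R.bals {cap : ℕ → ℤ} {nO nE : ℕ → ℤ → Bool} {lb : ℕ → ℤ} {M0 : ℕ}
    (hW : W3R P r j lo hi (cap 3) (nO 3) (nE 3) (lb 3) M0) {N : Tops P → Finset P}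
    {θ3 θ4 : Tops P → P → ℕ} (S : Sy P j lo hi N θ3 θ4) (hJ : ∃ z : P, Hul.Jn z)
    (hb : ∀ w < 3, ∃ V, WinB P j w (cap w) (nO w) (nE w) (lb w) V) :
    ∃ (K3 v v' : ℕ) (V : ℕ → ℤ), Mn j 3 N θ3 v ∧ min v' M0 ≤ v ∧ (M0 + 4 ≤ v' → v' ≤ v) ∧
      Wk r j 3 K3 N (fun t => hi t 3 - lo t 3 + 1) θ3 ∧ Bals P j cap nO nE lb V ∧
      V 3 = (v' : ℤ) - ((j + 1 - 3 : ℕ) : ℤ) ^ 2 := by
  obtain ⟨K3, v, v', V, h1, h2, h3, h4, h5, h6, -⟩ := hW.toQ.bals S hJ hb
  exact ⟨K3, v, v', V, h1, h2, h3, h4, h5, h6⟩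

/-- the least raised cost at the window `3` -/
lemma StF.v3V {V : ℕ → ℤ} {u XL : List ℤ} (hS : StF P j V u XL) {v' : ℕ}
    (hV : V 3 = (v' : ℤ) - ((j + 1 - 3 : ℕ) : ℤ) ^ 2) {V3 : ℕ}
    (h : (V3 : ℤ) ≤ u.getD 3 0 + ((j + 1 - 3 : ℕ) : ℤ) ^ 2) : V3 ≤ v' := hS.v3 hV h

/-- the least cost at the window `3` -/
lemma StF.v3R {V : ℕ → ℤ} {u XL : List ℤ} (hS : StF P j V u XL) {v v' M0 : ℕ}
    (hV : V 3 = (v' : ℤ) - ((j + 1 - 3 : ℕ) : ℤ) ^ 2) (q1 : min v' M0 ≤ v)
    (q2 : M0 + 4 ≤ v' → v' ≤ v) {V3 : ℕ}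
    (h : (V3 : ℤ) ≤ u.getD 3 0 + ((j + 1 - 3 : ℕ) : ℤ) ^ 2 ∨ (M0 : ℤ) ≤ u.getD 3 0 +
      ((j + 1 - 3 : ℕ) : ℤ) ^ 2) (hn : V3 ≤ M0 ∨ ((M0 : ℤ) + 4 ≤ u.getD 3 0 +
      ((j + 1 - 3 : ℕ) : ℤ) ^ 2 ∧ (V3 : ℤ) ≤ u.getD 3 0 + ((j + 1 - 3 : ℕ) : ℤ) ^ 2)) : V3 ≤ v := by
  have h1 := hS.bel.2 3 le_rfl
  rw [hV] at h1
  generalize hg : u.getD 3 0 = g at *
  generalize hy : ((j + 1 - 3 : ℕ) : ℤ) ^ 2 = y at *
  omega

end Pool.Agent.GaussPoset.Sm

end

/-! From `Pool.Agent.W_448s7_h27.PoD` -/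

section

/-!
# The windows `0, …, 3` in several phases, with excluded sides (MP_448cb3_co, S7)
-/

namespace Pool.Agent.GaussPoset.Sm

set_option linter.unusedSectionVars false

open Finset Wd Ec

universe u

variable {P : Type u} [Fintype P] [PartialOrder P] [DecidableEq P] {r j w : ℕ}
  {lo hi : Tops P → ℕ → ℕ} {e : Tops P → ℕ → ℕ → P}

/-- no join of level `j + 2` has the side `s` -/
def NoSd (P : Type u) [Fintype P] [PartialOrder P] [DecidableEq P] (j : ℕ) (s : ℕ × ℕ × ℕ) : Prop :=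
  ∀ z x x' : P, Cg z x x' → lev z = j + 2 → mX j x = s.1 → cX j x = s.2.1 →
    (nab j x : ℤ) - 1 = s.2.2 → False

/-- the tables; `X` = the excluded pairs of ends, `XS` = the excluded sides of level `j + 1` -/
structure TabS (j W : ℕ) (cap : ℕ → ℤ) (tab : List (List ℤ)) (E S1 S2 XS : List (ℕ × ℕ × ℕ))
    (X : ℕ × ℕ × ℕ → ℕ × ℕ × ℕ → Bool) : Prop where
  wj : W < j
  e : ChkE j E
  s1 : ChkT j (S1 ++ XS)
  s2 : ChkS j 2 S2
  e0 : (0, 0, 0) ∈ E
  s10 : (0, 0, 0) ∈ S1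
  s20 : (0, 0, 0) ∈ S2
  c0 : chk0 j W cap tab E X = true
  c1 : chk1 j W cap tab S1 = true
  c2 : chk2 j W cap tab S2 = true
  cb : chkB j W cap S2 = true

/-- **the cheap lines are in the table** -/
theorem Ctx.mem_tabS (K : Ctx P r j lo hi e) {X : ℕ × ℕ × ℕ → ℕ × ℕ × ℕ → Bool} (hN : NoP P j X)
    (hF : NoFo P j)
    {W : ℕ} {cap : ℕ → ℤ} {tab : List (List ℤ)} {E S1 S2 XS : List (ℕ × ℕ × ℕ)}
    (hX : ∀ s ∈ XS, NoSd P j s) (T : TabS j W cap tab E S1 S2 XS X)
    {z x x' : P} (h : Cg z x x') (hs : Sok j x) (hs' : Sok j x') (hw : w ≤ W)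
    (hc : kapZ j z * (j - w) + gZ j z ≤ cap w) : aT tab (kapZ j z) (gZ j z) = true := by
  have H := K.gt.H
  have hl := K.lev_ge h
  obtain ⟨l1, l2⟩ := h.lev_eq H
  obtain ⟨k1, k2, k3, k4, k5, k6⟩ := h.line H hl
  obtain ⟨q, hq⟩ : ∃ q, lev z = j + 1 + q := ⟨lev z - (j + 1), by omega⟩
  have hqz : (lev z : ℤ) - (j + 1) = q := by rw [hq]; push_cast; ring
  rw [hqz] at k1 k2 k5
  rcases Nat.lt_or_ge q 1 with h0 | h0
  · -- level `j + 1`
    have hlz : lev z = j + 1 := by omega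
    obtain ⟨s, s', g1, g1', d1, d1', e1, e2⟩ := K.pair' T.e T.e0 hF h hlz hs hs'
    have h1 := T.c0
    unfold chk0 at h1
    rw [List.all_eq_true] at h1
    have h2 := h1 _ g1
    rw [List.all_eq_true] at h2
    have h3 := h2 _ g1'
    rw [hN z x x' h hlz s s' d1 d1', Bool.false_or] at h3
    rw [e1, e2] at hc ⊢
    exact okL_at h3 hw hc
  · rcases Nat.lt_or_ge q 2 with h1q | h1q
    · obtain rfl : q = 1 := by omega
      obtain ⟨m, c, b, g1, g2, g3, g4⟩ := K.side1 h.only (by omega) hs.1 T.s1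
        (List.mem_append_left _ T.s10)
      obtain ⟨m', c', b', g1', g2', g3', g4'⟩ := K.side1 h.only' (by omega) hs'.1 T.s1
        (List.mem_append_left _ T.s10)
      replace g1 := (List.mem_append.mp g1).resolve_right fun hm =>
        hX _ hm z x x' h (by omega) g2 g3 g4
      replace g1' := (List.mem_append.mp g1').resolve_right fun hm =>
        hX _ hm z x' x h.symm (by omega) g2' g3' g4'
      obtain ⟨n0, d0⟩ := k6 (by omega)
      have e1 : kapZ j z = 2 + ((m : ℤ) + m') + ((b : ℤ) + b') := by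
        rw [k1, n0, g4, g4', g2, g2']
        push_cast; ring
      have e2 : gZ j z = 3 - ((c : ℤ) + c') := by
        rw [k2, d0, g3, g3']
        push_cast; ring
      have h1 := T.c1
      unfold chk1 at h1
      rw [List.all_eq_true] at h1
      have h2 := h1 _ g1
      rw [List.all_eq_true] at h2
      have h3 := h2 _ g1'
      rw [e1, e2] at hc ⊢
      exact okL_at h3 hw hc
    · have hp : ∀ y : P, lev y = j + q → 2 = min q 2 := fun _ _ => by omega
      obtain ⟨m, c, b, g1, g2, g3, g4⟩ := K.side h.only (by omega) hs.1 (q := q) (by omega)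
        (p := 2) (by omega) T.s2 T.s20
      obtain ⟨m', c', b', g1', g2', g3', g4'⟩ := K.side h.only' (by omega) hs'.1 (q := q) (by omega)
        (p := 2) (by omega) T.s2 T.s20
      obtain ⟨n, hn⟩ : ∃ n : ℕ, nJ j z = n := ⟨(nJ j z).toNat, (Int.toNat_of_nonneg k3).symm⟩
      obtain ⟨d, hd⟩ : ∃ d : ℕ, dJ j z = d :=
        ⟨(dJ j z).toNat, (Int.toNat_of_nonneg (k3.trans k4)).symm⟩
      rw [hn, hd] at k4 k5
      have e1 : kapZ j z = 2 * (q : ℤ) + ((m : ℤ) + m') + ((b : ℤ) + b') + n := by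
        rw [k1, hn, g4, g4', g2, g2']
      have e2 : gZ j z = (q : ℤ) * q + 2 * q - ((c : ℤ) + c') + d := by
        rw [k2, hd, g3, g3']
      have hB := T.cb
      unfold chkB at hB
      rw [List.all_eq_true] at hB
      have hB1 := hB w (List.mem_range.mpr (by omega))
      rw [Bool.and_eq_true, decide_eq_true_eq, List.all_eq_true] at hB1
      have b1 := hB1.2 _ g1
      have b2 := hB1.2 _ g1'
      rw [decide_eq_true_eq] at b1 b2
      simp only at b1 b2
      have hjw : (0 : ℤ) < (j : ℤ) - w := by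
        have := T.wj
        omega
      have e5 : kapZ j z * ((j : ℤ) - w) + gZ j z =
          (2 * (q : ℤ) + ((b : ℤ) + b') + n) * ((j : ℤ) - w) +
            (m * ((j : ℤ) - w) - c) + (m' * ((j : ℤ) - w) - c') + (q : ℤ) * q + 2 * q + d := by
        rw [e1, e2]; ring
      have hqn : 2 * q + n ≤ 8 := by
        by_contra hcon
        push Not at hcon
        have e6 : (9 : ℤ) ≤ 2 * (q : ℤ) + ((b : ℤ) + b') + n := by
          have : (9 : ℤ) ≤ 2 * (q : ℤ) + n := by exact_mod_cast hcon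
          have := Int.natCast_nonneg b
          have := Int.natCast_nonneg b'
          linarith
        have e7 : 9 * ((j : ℤ) - w) ≤ (2 * (q : ℤ) + ((b : ℤ) + b') + n) * ((j : ℤ) - w) :=
          mul_le_mul_of_nonneg_right e6 hjw.le
        have e8 : (0 : ℤ) ≤ (q : ℤ) * q + 2 * q + d := by positivity
        linarith [hB1.1]
      have h1 := T.c2
      unfold chk2 at h1
      rw [List.all_eq_true] at h1
      have h2 := h1 _ g1
      rw [List.all_eq_true] at h2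
      have h3 := h2 _ g1'
      rw [List.all_eq_true] at h3
      have h4 := h3 q (List.mem_range.mpr (by omega))
      rw [Bool.or_eq_true, decide_eq_true_eq] at h4
      have h5 := h4.resolve_left (by omega)
      rw [List.all_eq_true] at h5
      have h6 := h5 n (List.mem_range.mpr (by omega))
      rw [List.all_eq_true] at h6
      have k5' : d ≤ (q - 1) * n := by
        have : (d : ℤ) ≤ ((q - 1 : ℕ) : ℤ) * n := by
          rw [Nat.cast_sub (by omega)]
          exact_mod_cast k5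
        exact_mod_cast this
      have h7 := h6 d (List.mem_range.mpr (by omega))
      rw [Bool.or_eq_true, decide_eq_true_eq] at h7
      have h8 := h7.resolve_left (by
        have : (n : ℤ) ≤ d := k4
        have : n ≤ d := by exact_mod_cast this
        omega)
      rw [e1, e2] at hc ⊢
      exact okL_at h8 hw hc

section

variable {X : ℕ × ℕ × ℕ → ℕ × ℕ × ℕ → Bool} {cap : ℕ → ℤ} {tab : List (List ℤ)}
  {E S1 S2 XS : List (ℕ × ℕ × ℕ)} {nO nE : ℕ → ℤ → Bool} {lb V : ℕ → ℤ} {u : List ℤ}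

theorem Ctx.sysS (K : Ctx P r j lo hi e) (hN : NoP P j X) (hF : NoFo P j)
    (hX : ∀ s ∈ XS, NoSd P j s) (T : TabS j 3 cap tab E S1 S2 XS X)
    (hB : Bals P j cap nO nE lb V) :
    Sys (j : ℤ) 3 cap (aT tab) nO nE (odds tab.length) (evens tab.length) V
      (fun κ g => ∃ z x x' : P, Cg z x x' ∧ Sok j x ∧ Sok j x' ∧ κ = kapZ j z ∧ g = gZ j z) := by
  refine ⟨?_, ?_, ?_, ?_⟩
  · rintro κ g ⟨z, x, x', h, hs, hs', rfl, rfl⟩ w hw he hc
    have h1 := K.mem_tabS hN hF hX T h hs hs' hw (by rw [he]; exact hc)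
    exact ⟨h1, aT_mem h1⟩
  · rintro κ g ⟨z, x, x', h, hs, hs', rfl, rfl⟩ w hw
    exact (hB w hw).mn z x x' h hs hs'
  · intro w hw hc
    rcases (hB w hw).od hc with ⟨z, x, x', h1, h2, h3, h4, h5⟩ | h1
    · exact Or.inl ⟨_, _, ⟨z, x, x', h1, h2, h3, rfl, rfl⟩, h4, h5⟩
    · exact Or.inr h1
  · intro w hw hc
    rcases (hB w hw).ev hc with ⟨z, x, x', h1, h2, h3, h4, h5⟩ | h1
    · exact Or.inl ⟨_, _, ⟨z, x, x', h1, h2, h3, rfl, rfl⟩, h4, h5⟩
    · exact Or.inr h1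

/-- **a phase of sweeps** -/
theorem Ctx.sweepS (K : Ctx P r j lo hi e) (hN : NoP P j X) (hF : NoFo P j)
    (hX : ∀ s ∈ XS, NoSd P j s) (T : TabS j 3 cap tab E S1 S2 XS X)
    (hB : Bals P j cap nO nE lb V) (hu : Chk.Below 3 V u) (N R : ℕ) :
    Chk.Below 3 V (rnds (aT tab) nO nE cap (odds tab.length) (evens tab.length) j N 4 R u) :=
  (K.sysS hN hF hX T hB).rnds N R u hu

/-- **the pairs of ends which are left** -/
theorem Ctx.leftS3 (K : Ctx P r j lo hi e) (hF : NoFo P j) (hE : ChkE j E) (h0 : (0, 0, 0) ∈ E)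
    (hN : NoP P j X) (hB : Bals P j cap nO nE lb V) (hu : Chk.Below 3 V u)
    {z x x' : P} (h : Cg z x x') (hl : lev z = j + 1) (hs : Sok j x) (hs' : Sok j x') :
    ∃ s s', (s, s') ∈ rest j E X u ∧ Dt j x s ∧ Dt j x' s' := by
  obtain ⟨s, s', g1, g1', d1, d1', e1, e2⟩ := K.pair' hE h0 hF h hl hs hs'
  refine ⟨s, s', ?_, d1, d1'⟩
  have h1 : Chk.above (kapZ j z) (gZ j z) u j = true := by
    refine Chk.above_of (W := 3) (v := V) _ j fun w hw => ?_
    have hw' : w ≤ 3 := by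
      have := hu.1
      omega
    exact (hu.2 w hw').trans ((hB w hw').mn z x x' h hs hs')
  rw [e1, e2] at h1
  unfold rest
  rw [List.mem_flatMap]
  refine ⟨s, g1, ?_⟩
  rw [List.mem_map]
  refine ⟨s', ?_, rfl⟩
  rw [List.mem_filter]
  refine ⟨g1', ?_⟩
  rw [Bool.and_eq_true]
  refine ⟨?_, h1⟩
  rw [Bool.not_eq_true']
  exact hN z x x' h hl s s' d1 d1'

end

end Pool.Agent.GaussPoset.Sm

end

/-! From `Pool.Agent.W_448s7_h27.PoJ11` -/

section

/-!
S7 for `j = 11` (MP_448cb3_co): the windows `0, …, 3` with a larger cap at the window `3`, without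
the pendants of level `12` below the ends `(5, 25)`; no pair of ends is left.
-/

namespace Pool.Agent.GaussPoset.Sm

set_option linter.unusedSectionVars false

open Finset Wd

universe u

variable {P : Type u} [Fintype P] [PartialOrder P] [DecidableEq P] {r : ℕ}

/-- sides, one level deeper, without `(5, 25, 0)` -/
def So11 : List (ℕ × ℕ × ℕ) :=
    [(0, 0, 0), (0, 0, 1), (1, 1, 0), (1, 1, 1), (1, 2, 0), (1, 3, 0), (1, 4, 0), (1, 5, 0),
     (2, 3, 1), (3, 6, 0), (3, 6, 1), (3, 9, 0), (4, 7, 1), (4, 10, 1), (5, 12, 1), (5, 15, 0),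
     (5, 15, 1), (5, 20, 0), (6, 13, 1), (6, 16, 1), (7, 23, 1), (8, 24, 1), (8, 31, 0),
     (8, 31, 1)]

/-- the excluded side -/
def Xo11 : List (ℕ × ℕ × ℕ) := [(5, 25, 0)]

lemma chkSo11 : ChkT 11 (So11 ++ Xo11) := by decide +kernel

/-- caps -/
def co11 (w : ℕ) : ℤ := if w = 3 then 40 else cr11 w

/-- even noise -/
def neo11 (w : ℕ) (V : ℤ) : Bool :=
  if w = 3 then (nz ((11 + 1 - 3 : ℕ) : ℤ) V || ([17, 34, 35] : List ℤ).elem V)
  else ner11 w V

/-- odd noise -/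
def noo11 (w : ℕ) (V : ℤ) : Bool :=
  if w = 3 then ([24, 36, 37] : List ℤ).elem V else nor11 w V

/-- lower bounds -/
def lwo11 (_ : ℕ) : ℤ := 0

/-- caps as a list -/
def col11 : List (ℕ × ℕ) := [(11, 68), (10, 54), (9, 21), (8, 40)]

lemma capo11 : CapL 11 3 co11 col11 := by decide +kernel

/-- lines with `g + 300`, by `κ` -/
def to11 : List (List ℕ) :=
  [[300], [295, 296, 297, 298], [290, 291, 292, 293, 294, 295, 296, 303], [291, 298, 299, 300,
   301, 302, 303], [286, 287, 288, 289, 293, 294, 295, 296, 297, 298, 299, 300, 301, 302, 303,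
   308], [275, 280, 294, 297, 298, 299, 300, 301, 302, 303, 304, 305, 306, 307, 308, 309], [270,
   271, 272, 273, 275, 276, 277, 278, 282, 289, 290, 291, 292, 293, 294, 295, 296, 297, 298,
   299, 300, 301, 302], [283, 288], [266, 271, 278, 279, 280], [], [250, 255, 260]]

/-- lines with `g`, by `κ` -/
def Lo11 : List (List ℤ) :=
  [[0], [-5, -4, -3, -2], [-10, -9, -8, -7, -6, -5, -4, 3], [-9, -2, -1, 0, 1, 2, 3], [-14, -13,
   -12, -11, -7, -6, -5, -4, -3, -2, -1, 0, 1, 2, 3, 8], [-25, -20, -6, -3, -2, -1, 0, 1, 2, 3,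
   4, 5, 6, 7, 8, 9], [-30, -29, -28, -27, -25, -24, -23, -22, -18, -11, -10, -9, -8, -7, -6,
   -5, -4, -3, -2, -1, 0, 1, 2], [-17, -12], [-34, -29, -22, -21, -20], [], [-50, -45, -40]]

lemma Lo11_eq : Lo11 = tabI to11 := by decide +kernel

lemma fo11a : fst1 col11 to11 So11 = true := by decide +kernel

lemma fo11b : fst2 col11 to11 Sr11b = true := by decide +kernel

theorem tabo11 : TabS 11 3 co11 Lo11 Er11 So11 Sr11b Xo11 X0 := by
  refine ⟨by norm_num, chkEr11, chkSo11, chkSr11b, ?_, ?_, ?_, ?_, ?_, ?_, ?_⟩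
  · decide +kernel
  · decide +kernel
  · decide +kernel
  · decide +kernel
  · rw [Lo11_eq]
    exact chk1_of capo11 fo11a
  · rw [Lo11_eq]
    exact chk2_of (by norm_num) capo11 fo11b
  · decide +kernel

/-- the bounds -/
def uo11 : List ℤ :=
  rnds (aT Lo11) noo11 neo11 co11 (odds Lo11.length) (evens Lo11.length) ((11 : ℕ) : ℤ) 250 4 11 [0, 0, 0, 0]

lemma resto11 : rest 11 Er11 X0 uo11 = [] := by decide +kernel

/-- **S7 for `j = 11`**, from the window `3` and without pendants of level `12` below the ends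
`(5, 25)` -/
theorem no_cg11 {lo hi : Tops P → ℕ → ℕ} {e : Tops P → ℕ → ℕ → P} (K : Ctx P r 11 lo hi e)
    (hX : NoSd P 11 (5, 25, 0))
    (h3 : (∃ z : P, Hul.Jn z) → ∃ V, WinB P 11 3 40 (fun V => ([24, 36, 37] : List ℤ).elem V)
      (fun V => nz ((11 + 1 - 3 : ℕ) : ℤ) V || ([17, 34, 35] : List ℤ).elem V) 0 V)
    {z x x' : P} (h : Cg z x x') (hl : lev z = 12) : False := by
  have H := K.gt.H
  have hF : NF P 11 := nf_odd (by norm_num)
  have hN : NoP P 11 X0 := noP_zero 11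
  have hB : ∀ w ≤ 3, ∃ V, WinB P 11 w (co11 w) (noo11 w) (neo11 w) (lwo11 w) V := by
    intro w hw
    have : w = 0 ∨ w = 1 ∨ w = 2 ∨ w = 3 := by omega
    rcases this with rfl | rfl | rfl | rfl
    · exact balr11 K hF.noFo ⟨z, h.jn⟩ 0 (by norm_num)
    · exact balr11 K hF.noFo ⟨z, h.jn⟩ 1 (by norm_num)
    · exact balr11 K hF.noFo ⟨z, h.jn⟩ 2 (by norm_num)
    · exact h3 ⟨z, h.jn⟩
  choose! V hV using hB
  have hVB : Bals P 11 co11 noo11 neo11 lwo11 V := hV
  have hX' : ∀ s ∈ Xo11, NoSd P 11 s := by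
    intro s hs
    unfold Xo11 at hs
    rw [List.mem_singleton] at hs
    rw [hs]
    exact hX
  have h0 : Chk.Below 3 V [0, 0, 0, 0] := by
    have h5 := (StF.start hVB).bel
    rwa [show ((List.range 4).map fun w => min (lwo11 w) (co11 w + 1)) = [0, 0, 0, 0] by
      decide +kernel] at h5
  have h1 := K.sweepS hN hF.noFo hX' tabo11 hVB h0 250 11
  obtain ⟨l1, l2⟩ := h.lev_eq H
  obtain ⟨s, s', h4, -, -⟩ := K.leftS3 hF.noFo chkEr11 (by decide +kernel) hN hVB h1 h hl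
    (hF.sok H h hl) (hF.sok H h.symm hl)
  rw [show rnds (aT Lo11) noo11 neo11 co11 (odds Lo11.length) (evens Lo11.length)
    ((11 : ℕ) : ℤ) 250 4 11 [0, 0, 0, 0] = uo11 from rfl, resto11] at h4
  exact absurd h4 (by simp)

end Pool.Agent.GaussPoset.Sm

end
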