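import Mathlib
import Pool.Agent.W_448zz_h61.Ns
import Pool.Agent.W_448zz_h61.M077
import Pool.Agent.W_448zz_h61.M102

/-! From `Pool.Agent.W_448s8f_h76.FkD` -/

section

/-!
# The profiles of the ends for `j = 12` (MP_448cb3_co, S8)
-/

namespace Pool.Agent.GaussPoset.Sm

set_option linter.unusedSectionVars false

open Finset Wd W4

universe u

variable {P : Type u} [Fintype P] [PartialOrder P] [DecidableEq P] {r j w : ℕ}

/-- extra elements on the level `k` -/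
def xL (w : List Ltr) (A : Finset ℕ) (a k : ℕ) : ℕ := if a ≤ k then xA w A (k - a) else 0

/-- extra elements on the levels `7, …, 11` -/
def sL (w : List Ltr) (A : Finset ℕ) (a : ℕ) : ℕ :=
  xL w A a 7 + xL w A a 8 + xL w A a 9 + xL w A a 10 + xL w A a 11

/-- the profiles of the ends of level `12` -/
def ChkP12 (S : List (ℕ × ℕ × ℕ × ℕ × ℕ × ℕ)) : Prop :=
  ∀ a ∈ range 13, 4 ≤ a → ∀ w ∈ wds 12 a, w.length = 12 - a →
    ∀ A ∈ (Icc (Lw w (w.length + 3)) (Hw w (w.length + 3))).powerset, A.Nonempty →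
      condA 0 w A → (mA w A, dA w A, rhA w A, xL w A a 6, xL w A a 7, sL w A a) ∈ S

instance (S : List (ℕ × ℕ × ℕ × ℕ × ℕ × ℕ)) : Decidable (ChkP12 S) := by
  unfold ChkP12; infer_instance

/-- the profiles -/
def P12 : List (ℕ × ℕ × ℕ × ℕ × ℕ × ℕ) :=
  [(0, 0, 0, 0, 0, 0), (1, 2, 1, 0, 0, 1), (1, 3, 0, 0, 0, 1), (1, 4, 0, 0, 0, 1),
   (1, 5, 0, 0, 1, 1), (1, 6, 0, 1, 0, 0), (3, 9, 1, 0, 0, 3), (5, 20, 1, 1, 1, 4),
   (5, 25, 0, 1, 1, 3), (8, 39, 1, 1, 1, 5)]

lemma chkP12 : ChkP12 P12 := by decide +kernel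

section

variable {t : Tops P} {lo hi : ℕ → ℕ} {e : ℕ → ℕ → P} {a : ℕ}

/-- the side of a late component, with all levels -/
theorem late_prof (G : Win.GoodTo P r j) (hj : 5 ≤ j) (C : Cp.Comp j (t : P) lo hi e)
    (h0 : 2 ≤ a) (h1 : a ≤ j) (h2 : ∀ k, k < a → lo k = 0 ∧ hi k = 0) (h3 : lo a = 0 ∧ hi a = 1)
    {x : P} (hx : x ∈ onlyB t) (hl : j ≤ lev x) (hend : lev x = j → (Win.uc x).card = 1)
    {W : List Ltr} (hW : word lo hi a (j - a) = W) :
    ∃ A ∈ (Icc (Lw W (W.length + 3)) (Hw W (W.length + 3))).powerset, A.Nonempty ∧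
      (∀ q, lev x = j + q → condA q W A) ∧ (lev x = j + 1 → condB W A) ∧
      mX j x = mA W A ∧ cX j x = dA W A ∧
      (nab j x : ℤ) - 1 = ((A.card - 1 : ℕ) : ℤ) ∧ nab (j - 2) x = rhA W A + 1 ∧
      (∀ k, k < j → nab k x = xL W A a k + 1) := by
  classical
  have H := G.H
  have hg := G.good
  obtain ⟨d, rfl⟩ : ∃ d, j = a + d := ⟨j - a, by omega⟩
  rw [Nat.add_sub_cancel_left] at hW
  have hlen : W.length = d := by rw [← hW, word_length]
  have hL : ∀ n, n ≤ d → Lw W (n + 3) = lo (a + n) := by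
    rw [← hW]
    exact lo_word (a := a) (d := d) C.lo_step h3.1 (hi := hi) le_rfl
  have hH : ∀ n, n ≤ d → Hw W (n + 3) = hi (a + n) := by
    rw [← hW]
    exact hi_word (a := a) (d := d) C.hi_step h3.2 (lo := lo) le_rfl
  have hL' : ∀ n, n ≤ d + 3 → Lw W n = lo (a + n - 3) := by
    intro n hn
    rcases Nat.lt_or_ge n 3 with h | h
    · rw [(h2 (a + n - 3) (by omega)).1]
      unfold Lw
      rw [show n - 3 = 0 by omega]
      simp
    · obtain ⟨n', rfl⟩ : ∃ n', n = n' + 3 := ⟨n - 3, by omega⟩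
      rw [hL n' (by omega)]
      rfl
  have hH' : ∀ n, n ≤ d + 3 → Hw W n = hi (a + n - 3) := by
    intro n hn
    rcases Nat.lt_or_ge n 3 with h | h
    · rw [(h2 (a + n - 3) (by omega)).2]
      unfold Hw
      rw [if_pos h]
    · obtain ⟨n', rfl⟩ : ∃ n', n = n' + 3 := ⟨n - 3, by omega⟩
      rw [hH n' (by omega)]
      rfl
  have hpl : Lw W (W.length + 2) = lo (a + d - 1) := by
    rw [hlen, hL' _ (by omega)]
    rfl
  have hph : Hw W (W.length + 2) = hi (a + d - 1) := by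
    rw [hlen, hH' _ (by omega)]
    rfl
  have hone : ∀ k, k < a → (nab k x : ℤ) - 1 = 0 := by
    intro k hk
    rw [nab_one_of_eq C hx (by omega) (by omega) (by rw [(h2 k hk).1, (h2 k hk).2])]
    norm_num
  set A := posA (a + d) lo hi e x with hA
  have hxA : ∀ n, n < d → (nab (a + n) x : ℤ) - 1 = xA W A n := by
    intro n hn
    have h4 := nab_pos H hg C hx hl (k := a + n) (by omega)
    have h5 := one_le_nab (l := a + n) (z := x) (by omega)
    unfold xA
    rw [hL n hn.le, hH n hn.le, hlen, h4, ← hA, show a + d - (a + n) = d - n by omega]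
    rw [h4, ← hA, show a + d - (a + n) = d - n by omega] at h5
    omega
  have hcard := card_posA C hx
  have hnj := one_le_nab (l := a + d) (z := x) hl
  rw [hcard, ← hA] at hnj
  obtain ⟨c1, c2⟩ := pos_cond G (by omega) C hx hl hend
  rw [← hA] at c1 c2
  refine ⟨A, ?_, Finset.card_pos.mp hnj, ?_, ?_, ?_, ?_, ?_, ?_, ?_⟩
  · rw [Finset.mem_powerset, hlen, hL d le_rfl, hH d le_rfl]
    intro s hs
    rw [hA, mem_posA] at hs
    exact mem_Icc.mpr hs.1
  · intro q hq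
    refine ⟨fun hq0 => ?_, fun hq1 => ?_⟩
    · obtain ⟨g1, g2⟩ := c1 (by omega)
      refine ⟨g1, fun s hs => ?_⟩
      unfold EndP
      rw [hpl, hph]
      exact g2 s hs
    · obtain ⟨g1, g2⟩ := c2 (by omega)
      refine ⟨g1, g2.imp id fun g s hs => ?_⟩
      unfold EndP
      rw [hpl, hph]
      exact g s hs
  · intro hlx hc s hs
    have g := pos_pen G (by omega) C hx hlx hc s hs
    unfold PenP EndP LCw RCw
    rw [hlen, hL' _ (by omega), hL' _ (by omega), hL' _ (by omega), hH' _ (by omega),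
      hH' _ (by omega), hH' _ (by omega)]
    rcases g with g | ⟨⟨g1, g2, g3, g4⟩, g5⟩ | ⟨⟨g1, g2, g3, g4⟩, g5⟩
    · exact Or.inl g
    · right; left
      rw [show a + (d + 1) - 3 = a + d - 1 - 1 by omega, show a + d - 3 = a + d - 1 - 2 by omega,
        show a + (d + 2) - 3 = a + d - 1 by omega]
      exact ⟨⟨g2, g3⟩, g5⟩
    · right; right
      rw [show a + (d + 1) - 3 = a + d - 1 - 1 by omega, show a + d - 3 = a + d - 1 - 2 by omega,
        show a + (d + 2) - 3 = a + d - 1 by omega]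
      exact ⟨⟨g2, g3⟩, g5⟩
  · unfold mX mA
    rw [Finset.sum_range_add, Finset.sum_eq_zero fun k hk => hone k (mem_range.mp hk), zero_add,
      hlen, Nat.cast_sum]
    exact Finset.sum_congr rfl fun n hn => hxA n (mem_range.mp hn)
  · unfold cX dA
    rw [Finset.sum_range_add, Finset.sum_eq_zero fun k hk => by
      rw [hone k (mem_range.mp hk), zero_mul], zero_add, hlen, Nat.cast_sum]
    refine Finset.sum_congr rfl fun n hn => ?_
    rw [hxA n (mem_range.mp hn), Nat.cast_mul]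
    rw [mem_range] at hn
    congr 1
    omega
  · rw [hcard, ← hA]
    omega
  · unfold rhA
    rw [hlen]
    split_ifs with hd
    · have h4 := hxA (d - 2) (by omega)
      rw [show a + (d - 2) = a + d - 2 by omega] at h4
      omega
    · have h4 := hone (a + d - 2) (by omega)
      omega
  · intro k hk
    unfold xL
    split_ifs with hd
    · have h4 := hxA (k - a) (by omega)
      rw [show a + (k - a) = k by omega] at h4
      omega
    · have h4 := hone k (by omega)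
      omega

end

end Pool.Agent.GaussPoset.Sm

end

/-! From `Pool.Agent.W_448s7s_h5.SmJ10` -/

section

/-!
# S7 for `j = 10`: windows `0`, `1` (MP_448cb3_co)
-/

namespace Pool.Agent.GaussPoset.Sm

set_option linter.unusedSectionVars false

open Finset Wd

universe u

variable {P : Type u} [Fintype P] [PartialOrder P] [DecidableEq P] {r : ℕ}

/-- ends -/
def E10 : List (ℕ × ℕ × ℕ) :=
    [(0, 0, 0), (1, 2, 1), (1, 3, 0), (1, 4, 0), (1, 5, 0), (3, 9, 1), (5, 20, 1), (5, 25, 0),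
    (10, 50, 1)]

/-- sides, one level deeper -/
def S10a : List (ℕ × ℕ × ℕ) :=
    [(0, 0, 0), (0, 0, 1), (1, 1, 0), (1, 1, 1), (1, 2, 0), (1, 3, 0), (1, 4, 0), (1, 5, 0),
    (2, 3, 0), (2, 3, 1), (3, 6, 0), (3, 6, 1), (3, 9, 0), (4, 7, 1), (4, 10, 0), (4, 10, 1),
    (5, 12, 0), (5, 12, 1), (5, 15, 0), (5, 15, 1), (5, 20, 0), (5, 25, 0), (6, 13, 1),
    (6, 16, 1), (7, 23, 0), (7, 23, 1)]

/-- sides, two or more levels deeper -/
def S10b : List (ℕ × ℕ × ℕ) :=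
    [(0, 0, 0), (0, 0, 1), (1, 1, 0), (1, 1, 1), (1, 1, 2), (1, 2, 0), (1, 3, 0), (1, 4, 0),
    (1, 5, 0), (2, 3, 0), (2, 3, 1), (2, 3, 2), (3, 6, 0), (3, 6, 1), (3, 9, 0), (4, 7, 1),
    (4, 7, 2), (4, 7, 3), (4, 10, 0), (4, 10, 1), (4, 10, 2), (5, 12, 0), (5, 12, 1),
    (5, 15, 0), (5, 15, 1), (5, 20, 0), (5, 25, 0), (6, 13, 1), (6, 13, 2), (6, 13, 3),
    (6, 16, 1), (6, 16, 2), (7, 23, 0), (7, 23, 1)]

lemma chkE10 : ChkE 10 E10 := by decide +kernel

/-- caps -/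
def cp10 (w : ℕ) : ℤ := if w = 0 then cap0 10 else ((10 * (10 - 1) / 2 : ℕ) : ℤ) - 1

/-- even noise -/
def ne10 (w : ℕ) (V : ℤ) : Bool := if w = 0 then false else nz 10 V

lemma bal10 {lo hi : Tops P → ℕ → ℕ} {e : Tops P → ℕ → ℕ → P} (K : Ctx P r 10 lo hi e)
    (hJ : ∃ z : P, Hul.Jn z) : ∀ w ≤ 1, ∃ V, WinB P 10 w (cp10 w) ((fun _ _ => false) w) (ne10 w)
      ((fun _ => 0) w) V := by
  intro w hw
  have : w = 0 ∨ w = 1 := by omega
  rcases this with rfl | rfl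
  · exact K.win0 hJ
  · exact K.win1 (by norm_num) chkE10 (by decide +kernel) (by decide +kernel) hJ

/-- lines with `g`, by `κ` -/
def L10 : List (List ℤ) :=
  [[0], [-5, -4, -3, -2], [-10, -9, -8, -7, -6, -5, -4, 3], [-9, -2, -1, 0, 1, 2, 3], [-14,
    -13, -12, -11, -7, -6, -5, -4, -3, -2, -1, 0, 1, 2, 3, 8], [-25, -20, -6, -5, -4, -3, -2,
    -1, 0, 1, 2, 3, 4, 5, 6, 7], [-30, -29, -28, -27, -25, -24, -23, -22, -18, -11, -10, -9,
    -8, -7, -6, -5, -4, -3], [-22, -17], [-34, -29, -27, -26, -25, -24, -23], [], [-50, -45],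
    [-55, -54, -53]]

set_option maxRecDepth 100000 in
theorem tab10 : Tab 10 1 cp10 L10 E10 S10a S10b X0 := by
  refine ⟨by norm_num, chkE10, ?_, ?_, ?_, ?_, ?_, ?_, ?_, ?_, ?_, ?_⟩
  · decide +kernel
  · decide +kernel
  · decide +kernel
  · decide +kernel
  · decide +kernel
  · intro _ h
    decide +kernel
  · decide +kernel
  · decide +kernel
  · decide +kernel
  · decide +kernel

/-- the pairs of ends which are left -/
def R10 : List ((ℕ × ℕ × ℕ) × (ℕ × ℕ × ℕ)) :=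
    [((0, 0, 0), (5, 20, 1)), ((0, 0, 0), (10, 50, 1)), ((1, 2, 1), (3, 9, 1)),
    ((1, 2, 1), (5, 20, 1)), ((1, 2, 1), (5, 25, 0)), ((1, 2, 1), (10, 50, 1)),
    ((1, 3, 0), (5, 20, 1)), ((1, 3, 0), (5, 25, 0)), ((1, 3, 0), (10, 50, 1)),
    ((1, 4, 0), (5, 20, 1)), ((1, 4, 0), (5, 25, 0)), ((1, 4, 0), (10, 50, 1)),
    ((1, 5, 0), (5, 20, 1)), ((1, 5, 0), (10, 50, 1)), ((3, 9, 1), (1, 2, 1)),
    ((3, 9, 1), (3, 9, 1)), ((3, 9, 1), (5, 20, 1)), ((3, 9, 1), (5, 25, 0)),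
    ((3, 9, 1), (10, 50, 1)), ((5, 20, 1), (0, 0, 0)), ((5, 20, 1), (1, 2, 1)),
    ((5, 20, 1), (1, 3, 0)), ((5, 20, 1), (1, 4, 0)), ((5, 20, 1), (1, 5, 0)),
    ((5, 20, 1), (3, 9, 1)), ((5, 20, 1), (5, 20, 1)), ((5, 20, 1), (5, 25, 0)),
    ((5, 20, 1), (10, 50, 1)), ((5, 25, 0), (1, 2, 1)), ((5, 25, 0), (1, 3, 0)),
    ((5, 25, 0), (1, 4, 0)), ((5, 25, 0), (3, 9, 1)), ((5, 25, 0), (5, 20, 1)),
    ((5, 25, 0), (5, 25, 0)), ((5, 25, 0), (10, 50, 1)), ((10, 50, 1), (0, 0, 0)),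
    ((10, 50, 1), (1, 2, 1)), ((10, 50, 1), (1, 3, 0)), ((10, 50, 1), (1, 4, 0)),
    ((10, 50, 1), (1, 5, 0)), ((10, 50, 1), (3, 9, 1)), ((10, 50, 1), (5, 20, 1)),
    ((10, 50, 1), (5, 25, 0)), ((10, 50, 1), (10, 50, 1))]

lemma rest10 : rest 10 E10 X0 (ubd 10 1 cp10 (fun _ => 0) L10 (fun _ _ => false) ne10 200 3) =
    R10 := by
  decide +kernel

/-- **S7 for `j = 10`**, exclusion `X0`. -/
theorem left10 {lo hi : Tops P → ℕ → ℕ} {e : Tops P → ℕ → ℕ → P} (K : Ctx P r 10 lo hi e)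
    {z x x' : P} (h : Cg z x x') (hl : lev z = 11) :
    ∃ s s', (s, s') ∈ R10 ∧ Dt 10 x s ∧ Dt 10 x' s' := by
  have hs : ∀ y : P, lev y = 10 → Sok 10 y := fun y hy => ⟨fun hf => by have := hf.1; omega,
    fun h12 => by omega⟩
  obtain ⟨l1, l2⟩ := h.lev_eq K.gt.H
  obtain ⟨s, s', h1, h2, h3⟩ := K.left (noP_zero 10) tab10 (bal10 K ⟨z, h.jn⟩) 200 3 h hl
    (hs x (by omega)) (hs x' (by omega))
  rw [rest10] at h1
  exact ⟨s, s', h1, h2, h3⟩

end Pool.Agent.GaussPoset.Sm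

end

/-! From `Pool.Agent.W_448jx_h67.WeO` -/

section

/-!
The tables with the refined sides and with the fold end, and the bounds for the minimal values
(MP_448cb3_co, HJoin10).
-/

namespace Pool.Agent.GaussPoset.Sm

set_option linter.unusedSectionVars false

open Finset Wd Chk

universe u

variable {P : Type u} [Fintype P] [PartialOrder P] [DecidableEq P] {r j w : ℕ}

variable {lo hi : Tops P → ℕ → ℕ} {e : Tops P → ℕ → ℕ → P}

/-- the tables; `X` = the excluded pairs of ends -/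
structure Tab2 (j W : ℕ) (cap : ℕ → ℤ) (tab : List (List ℤ)) (E S1 S2 : List (ℕ × ℕ × ℕ))
    (X : ℕ × ℕ × ℕ → ℕ × ℕ × ℕ → Bool) : Prop where
  wj : W < j
  e : ChkE j E
  s1 : ChkT j S1
  s2 : ChkS j 2 S2
  e0 : (0, 0, 0) ∈ E
  s10 : (0, 0, 0) ∈ S1
  s20 : (0, 0, 0) ∈ S2
  ef : j < 12 → j % 2 = 0 → (fm j, fc j, 1) ∈ E
  c0 : chk0 j W cap tab E X = true
  c1 : chk1 j W cap tab S1 = true
  c2 : chk2 j W cap tab S2 = true
  cb : chkB j W cap S2 = true

/-- **the cheap lines are in the table** -/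
theorem Ctx.mem_tab2 (K : Ctx P r j lo hi e) {X : ℕ × ℕ × ℕ → ℕ × ℕ × ℕ → Bool} (hN : NoP P j X)
    {W : ℕ} {cap : ℕ → ℤ} {tab : List (List ℤ)} {E S1 S2 : List (ℕ × ℕ × ℕ)}
    (T : Tab2 j W cap tab E S1 S2 X)
    {z x x' : P} (h : Cg z x x') (hs : Sok j x) (hs' : Sok j x') (hw : w ≤ W)
    (hc : kapZ j z * (j - w) + gZ j z ≤ cap w) : aT tab (kapZ j z) (gZ j z) = true := by
  have H := K.gt.H
  have hl := K.lev_ge h
  obtain ⟨l1, l2⟩ := h.lev_eq H
  obtain ⟨k1, k2, k3, k4, k5, k6⟩ := h.line H hl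
  obtain ⟨q, hq⟩ : ∃ q, lev z = j + 1 + q := ⟨lev z - (j + 1), by omega⟩
  have hqz : (lev z : ℤ) - (j + 1) = q := by rw [hq]; push_cast; ring
  rw [hqz] at k1 k2 k5
  rcases Nat.lt_or_ge q 1 with h0 | h0
  · -- level `j + 1`
    have hlz : lev z = j + 1 := by omega
    obtain ⟨s, s', g1, g1', d1, d1', e1, e2⟩ := K.pair T.e T.e0 T.ef h hlz hs hs'
    have h1 := T.c0
    unfold chk0 at h1
    rw [List.all_eq_true] at h1
    have h2 := h1 _ g1
    rw [List.all_eq_true] at h2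
    have h3 := h2 _ g1'
    rw [hN z x x' h hlz s s' d1 d1', Bool.false_or] at h3
    rw [e1, e2] at hc ⊢
    exact okL_at h3 hw hc
  · rcases Nat.lt_or_ge q 2 with h1q | h1q
    · obtain rfl : q = 1 := by omega
      obtain ⟨m, c, b, g1, g2, g3, g4⟩ := K.side1 h.only (by omega) hs.1 T.s1 T.s10
      obtain ⟨m', c', b', g1', g2', g3', g4'⟩ := K.side1 h.only' (by omega) hs'.1 T.s1 T.s10
      obtain ⟨n0, d0⟩ := k6 (by omega)
      have e1 : kapZ j z = 2 + ((m : ℤ) + m') + ((b : ℤ) + b') := by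
        rw [k1, n0, g4, g4', g2, g2']
        push_cast; ring
      have e2 : gZ j z = 3 - ((c : ℤ) + c') := by
        rw [k2, d0, g3, g3']
        push_cast; ring
      have h1 := T.c1
      unfold chk1 at h1
      rw [List.all_eq_true] at h1
      have h2 := h1 _ g1
      rw [List.all_eq_true] at h2
      have h3 := h2 _ g1'
      rw [e1, e2] at hc ⊢
      exact okL_at h3 hw hc
    · have hp : ∀ y : P, lev y = j + q → 2 = min q 2 := fun _ _ => by omega
      obtain ⟨m, c, b, g1, g2, g3, g4⟩ := K.side h.only (by omega) hs.1 (q := q) (by omega)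
        (p := 2) (by omega) T.s2 T.s20
      obtain ⟨m', c', b', g1', g2', g3', g4'⟩ := K.side h.only' (by omega) hs'.1 (q := q) (by omega)
        (p := 2) (by omega) T.s2 T.s20
      obtain ⟨n, hn⟩ : ∃ n : ℕ, nJ j z = n := ⟨(nJ j z).toNat, (Int.toNat_of_nonneg k3).symm⟩
      obtain ⟨d, hd⟩ : ∃ d : ℕ, dJ j z = d :=
        ⟨(dJ j z).toNat, (Int.toNat_of_nonneg (k3.trans k4)).symm⟩
      rw [hn, hd] at k4 k5
      have e1 : kapZ j z = 2 * (q : ℤ) + ((m : ℤ) + m') + ((b : ℤ) + b') + n := by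
        rw [k1, hn, g4, g4', g2, g2']
      have e2 : gZ j z = (q : ℤ) * q + 2 * q - ((c : ℤ) + c') + d := by
        rw [k2, hd, g3, g3']
      have hB := T.cb
      unfold chkB at hB
      rw [List.all_eq_true] at hB
      have hB1 := hB w (List.mem_range.mpr (by omega))
      rw [Bool.and_eq_true, decide_eq_true_eq, List.all_eq_true] at hB1
      have b1 := hB1.2 _ g1
      have b2 := hB1.2 _ g1'
      rw [decide_eq_true_eq] at b1 b2
      simp only at b1 b2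
      have hjw : (0 : ℤ) < (j : ℤ) - w := by
        have := T.wj
        omega
      have e5 : kapZ j z * ((j : ℤ) - w) + gZ j z =
          (2 * (q : ℤ) + ((b : ℤ) + b') + n) * ((j : ℤ) - w) +
            (m * ((j : ℤ) - w) - c) + (m' * ((j : ℤ) - w) - c') + (q : ℤ) * q + 2 * q + d := by
        rw [e1, e2]; ring
      have hqn : 2 * q + n ≤ 8 := by
        by_contra hcon
        push Not at hcon
        have e6 : (9 : ℤ) ≤ 2 * (q : ℤ) + ((b : ℤ) + b') + n := by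
          have : (9 : ℤ) ≤ 2 * (q : ℤ) + n := by exact_mod_cast hcon
          have := Int.natCast_nonneg b
          have := Int.natCast_nonneg b'
          linarith
        have e7 : 9 * ((j : ℤ) - w) ≤ (2 * (q : ℤ) + ((b : ℤ) + b') + n) * ((j : ℤ) - w) :=
          mul_le_mul_of_nonneg_right e6 hjw.le
        have e8 : (0 : ℤ) ≤ (q : ℤ) * q + 2 * q + d := by positivity
        linarith [hB1.1]
      have h1 := T.c2
      unfold chk2 at h1
      rw [List.all_eq_true] at h1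
      have h2 := h1 _ g1
      rw [List.all_eq_true] at h2
      have h3 := h2 _ g1'
      rw [List.all_eq_true] at h3
      have h4 := h3 q (List.mem_range.mpr (by omega))
      rw [Bool.or_eq_true, decide_eq_true_eq] at h4
      have h5 := h4.resolve_left (by omega)
      rw [List.all_eq_true] at h5
      have h6 := h5 n (List.mem_range.mpr (by omega))
      rw [List.all_eq_true] at h6
      have k5' : d ≤ (q - 1) * n := by
        have : (d : ℤ) ≤ ((q - 1 : ℕ) : ℤ) * n := by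
          rw [Nat.cast_sub (by omega)]
          exact_mod_cast k5
        exact_mod_cast this
      have h7 := h6 d (List.mem_range.mpr (by omega))
      rw [Bool.or_eq_true, decide_eq_true_eq] at h7
      have h8 := h7.resolve_left (by
        have : (n : ℤ) ≤ d := k4
        have : n ≤ d := by exact_mod_cast this
        omega)
      rw [e1, e2] at hc ⊢
      exact okL_at h8 hw hc

/-- **The bounds of the checker hold for the minimal values.** -/
theorem Ctx.boundsV (K : Ctx P r j lo hi e) {X : ℕ × ℕ × ℕ → ℕ × ℕ × ℕ → Bool} (hN : NoP P j X)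
    {W : ℕ} {cap : ℕ → ℤ} {tab : List (List ℤ)} {E S1 S2 : List (ℕ × ℕ × ℕ)}
    (T : Tab2 j W cap tab E S1 S2 X) {nO nE : ℕ → ℤ → Bool} {lb : ℕ → ℤ} {V : ℕ → ℤ}
    (hV : ∀ w ≤ W, WinB P j w (cap w) (nO w) (nE w) (lb w) (V w)) (N R : ℕ) :
    Below W V (rnds (aT tab) nO nE cap (odds tab.length) (evens tab.length) j N
      (W + 1) R ((List.range (W + 1)).map fun w => min (lb w) (cap w + 1))) := by
  classical
  have hS : Sys (j : ℤ) W cap (aT tab) nO nE (odds tab.length) (evens tab.length) V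
      (fun κ g => ∃ z x x' : P, Cg z x x' ∧ Sok j x ∧ Sok j x' ∧ κ = kapZ j z ∧ g = gZ j z) := by
    refine ⟨?_, ?_, ?_, ?_⟩
    · rintro κ g ⟨z, x, x', h, hs, hs', rfl, rfl⟩ w hw he hc
      have h1 := K.mem_tab2 hN T h hs hs' hw (by rw [he]; exact hc)
      exact ⟨h1, aT_mem h1⟩
    · rintro κ g ⟨z, x, x', h, hs, hs', rfl, rfl⟩ w hw
      exact (hV w hw).mn z x x' h hs hs'
    · intro w hw hc
      rcases (hV w hw).od hc with ⟨z, x, x', h1, h2, h3, h4, h5⟩ | h1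
      · exact Or.inl ⟨_, _, ⟨z, x, x', h1, h2, h3, rfl, rfl⟩, h4, h5⟩
      · exact Or.inr h1
    · intro w hw hc
      rcases (hV w hw).ev hc with ⟨z, x, x', h1, h2, h3, h4, h5⟩ | h1
      · exact Or.inl ⟨_, _, ⟨z, x, x', h1, h2, h3, rfl, rfl⟩, h4, h5⟩
      · exact Or.inr h1
  refine hS.rnds N R _ ?_
  refine ⟨by simp, fun w hw => ?_⟩
  rw [List.getD_eq_getElem?_getD, List.getElem?_map, List.getElem?_range (by omega)]
  simp only [Option.map_some, Option.getD_some]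
  rcases le_or_gt (V w) (cap w) with h1 | h1
  · exact (min_le_left _ _).trans ((hV w hw).lo h1)
  · exact (min_le_right _ _).trans (by omega)

/-- **The bounds of the checker hold for the lines of the joins of level `j + 1`.** -/
theorem Ctx.bounds2 (K : Ctx P r j lo hi e) {X : ℕ × ℕ × ℕ → ℕ × ℕ × ℕ → Bool} (hN : NoP P j X)
    {W : ℕ} {cap : ℕ → ℤ} {tab : List (List ℤ)} {E S1 S2 : List (ℕ × ℕ × ℕ)}
    (T : Tab2 j W cap tab E S1 S2 X) {nO nE : ℕ → ℤ → Bool} {lb : ℕ → ℤ} {V : ℕ → ℤ}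
    (hV : ∀ w ≤ W, WinB P j w (cap w) (nO w) (nE w) (lb w) (V w)) (N R : ℕ)
    {z x x' : P} (h : Cg z x x') (hs : Sok j x) (hs' : Sok j x') :
    Chk.above (kapZ j z) (gZ j z) (rnds (aT tab) nO nE cap (odds tab.length) (evens tab.length) j N
      (W + 1) R ((List.range (W + 1)).map fun w => min (lb w) (cap w + 1))) j = true := by
  have h1 := K.boundsV hN T hV N R
  refine above_of (W := W) (v := V) _ j fun w hw => ?_
  have hw' : w ≤ W := by
    have := h1.1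
    omega
  exact (h1.2 w hw').trans ((hV w hw').mn z x x' h hs hs')

/-- **the pairs of ends which are left** -/
theorem Ctx.left2 (K : Ctx P r j lo hi e) {X : ℕ × ℕ × ℕ → ℕ × ℕ × ℕ → Bool} (hN : NoP P j X)
    {W : ℕ} {cap : ℕ → ℤ} {tab : List (List ℤ)} {E S1 S2 : List (ℕ × ℕ × ℕ)}
    (T : Tab2 j W cap tab E S1 S2 X)
    {nO nE : ℕ → ℤ → Bool} {lb : ℕ → ℤ} {V : ℕ → ℤ}
    (hB : ∀ w ≤ W, WinB P j w (cap w) (nO w) (nE w) (lb w) (V w)) (N R : ℕ)
    {z x x' : P} (h : Cg z x x') (hl : lev z = j + 1) (hs : Sok j x) (hs' : Sok j x') :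
    ∃ s s', (s, s') ∈ rest j E X (ubd j W cap lb tab nO nE N R) ∧ Dt j x s ∧ Dt j x' s' := by
  obtain ⟨s, s', g1, g1', d1, d1', e1, e2⟩ := K.pair T.e T.e0 T.ef h hl hs hs'
  refine ⟨s, s', ?_, d1, d1'⟩
  have h1 := K.bounds2 hN T hB N R h hs hs'
  rw [e1, e2] at h1
  unfold rest
  rw [List.mem_flatMap]
  refine ⟨s, g1, ?_⟩
  rw [List.mem_map]
  refine ⟨s', ?_, rfl⟩
  rw [List.mem_filter]
  refine ⟨g1', ?_⟩
  rw [hN z x x' h hl s s' d1 d1', Bool.not_false, Bool.true_and]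
  exact h1

end Pool.Agent.GaussPoset.Sm

end

/-! From `Pool.Agent.W_448jx_h67.WtA` -/

section

/-!
The lists of pairs of ends and the refined sides (MP_448cb3_co, HJoin10)
-/

namespace Pool.Agent.GaussPoset.Sm

set_option linter.unusedSectionVars false

open Finset Wd

/-- the excluded pairs -/
def XR (R : List ((ℕ × ℕ × ℕ) × (ℕ × ℕ × ℕ))) (s s' : ℕ × ℕ × ℕ) : Bool := !R.elem (s, s')

/-- the pairs of ends which are left after the window `3`, cap `5` -/
def RA : List ((ℕ × ℕ × ℕ) × (ℕ × ℕ × ℕ)) :=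
  R10.filter fun p => !(p == ((1, 3, 0), (5, 25, 0)) || p == ((5, 25, 0), (1, 3, 0)) ||
    p == ((1, 4, 0), (5, 25, 0)) || p == ((5, 25, 0), (1, 4, 0)))

/-- the pairs of ends which are left after the window `2`, cap `20` -/
def RB : List ((ℕ × ℕ × ℕ) × (ℕ × ℕ × ℕ)) :=
    [((1, 2, 1), (10, 50, 1)), ((1, 3, 0), (10, 50, 1)), ((1, 4, 0), (10, 50, 1)),
    ((1, 5, 0), (10, 50, 1)), ((3, 9, 1), (5, 20, 1)), ((3, 9, 1), (10, 50, 1)),
    ((5, 20, 1), (3, 9, 1)), ((5, 20, 1), (5, 20, 1)), ((5, 20, 1), (5, 25, 0)),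
    ((5, 20, 1), (10, 50, 1)), ((5, 25, 0), (5, 20, 1)), ((5, 25, 0), (10, 50, 1)),
    ((10, 50, 1), (1, 2, 1)), ((10, 50, 1), (1, 3, 0)), ((10, 50, 1), (1, 4, 0)),
    ((10, 50, 1), (1, 5, 0)), ((10, 50, 1), (3, 9, 1)), ((10, 50, 1), (5, 20, 1)),
    ((10, 50, 1), (5, 25, 0)), ((10, 50, 1), (10, 50, 1))]

/-- the pairs of ends which are left without `15|F` -/
def RC : List ((ℕ × ℕ × ℕ) × (ℕ × ℕ × ℕ)) :=
  [((1, 2, 1), (10, 50, 1)), ((1, 3, 0), (10, 50, 1)), ((1, 4, 0), (10, 50, 1)),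
  ((3, 9, 1), (5, 20, 1)), ((3, 9, 1), (10, 50, 1)), ((5, 20, 1), (3, 9, 1)),
  ((5, 20, 1), (5, 20, 1)), ((5, 20, 1), (5, 25, 0)), ((5, 20, 1), (10, 50, 1)),
  ((5, 25, 0), (5, 20, 1)), ((5, 25, 0), (10, 50, 1)), ((10, 50, 1), (1, 2, 1)),
  ((10, 50, 1), (1, 3, 0)), ((10, 50, 1), (1, 4, 0)), ((10, 50, 1), (3, 9, 1)),
  ((10, 50, 1), (5, 20, 1)), ((10, 50, 1), (5, 25, 0)), ((10, 50, 1), (10, 50, 1))]

/-- the pairs of ends which are left after the window `2`, cap `32` -/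
def RD : List ((ℕ × ℕ × ℕ) × (ℕ × ℕ × ℕ)) :=
  [((3, 9, 1), (5, 20, 1)), ((3, 9, 1), (10, 50, 1)), ((5, 20, 1), (3, 9, 1)),
  ((5, 20, 1), (5, 20, 1)), ((5, 20, 1), (5, 25, 0)), ((5, 20, 1), (10, 50, 1)),
  ((5, 25, 0), (5, 20, 1)), ((5, 25, 0), (10, 50, 1)), ((10, 50, 1), (3, 9, 1)),
  ((10, 50, 1), (5, 20, 1)), ((10, 50, 1), (5, 25, 0)), ((10, 50, 1), (10, 50, 1))]

/-- the pairs of ends which are left after the window `2`, cap `35` -/
def RDD : List ((ℕ × ℕ × ℕ) × (ℕ × ℕ × ℕ)) :=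
  [((3, 9, 1), (10, 50, 1)), ((5, 20, 1), (5, 20, 1)), ((5, 20, 1), (10, 50, 1)),
  ((5, 25, 0), (10, 50, 1)), ((10, 50, 1), (3, 9, 1)), ((10, 50, 1), (5, 20, 1)),
  ((10, 50, 1), (5, 25, 0)), ((10, 50, 1), (10, 50, 1))]

/-- the pairs of ends which are left without `E6|F` -/
def RE : List ((ℕ × ℕ × ℕ) × (ℕ × ℕ × ℕ)) :=
  [((3, 9, 1), (10, 50, 1)), ((5, 20, 1), (5, 20, 1)), ((5, 20, 1), (10, 50, 1)),
  ((10, 50, 1), (3, 9, 1)), ((10, 50, 1), (5, 20, 1)), ((10, 50, 1), (10, 50, 1))]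

/-- the pairs of ends which are left after the window `3`, cap `30` -/
def REE : List ((ℕ × ℕ × ℕ) × (ℕ × ℕ × ℕ)) :=
  [((3, 9, 1), (10, 50, 1)), ((5, 20, 1), (10, 50, 1)), ((10, 50, 1), (3, 9, 1)),
  ((10, 50, 1), (5, 20, 1)), ((10, 50, 1), (10, 50, 1))]

/-- values at four windows -/
def pk {α : Type} (a b c d : α) (w : ℕ) : α :=
  if w = 0 then a else if w = 1 then b else if w = 2 then c else d

/-- no noise -/
def nf (_ : ℤ) : Bool := false

/-- the refined sides, one level deeper -/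
def S10r : List (ℕ × ℕ × ℕ) :=
    [(0, 0, 0), (0, 0, 1), (1, 1, 0), (1, 1, 1), (1, 2, 0), (1, 3, 0), (1, 4, 0), (1, 5, 0),
    (2, 3, 1), (3, 6, 0), (3, 6, 1), (3, 9, 0), (4, 7, 1), (4, 10, 1),
    (5, 12, 1), (5, 15, 0), (5, 15, 1), (5, 20, 0), (5, 25, 0), (6, 13, 1),
    (6, 16, 1), (7, 23, 1)]

set_option maxRecDepth 100000 in
lemma chkT10 : ChkT 10 S10r := by decide +kernel

end Pool.Agent.GaussPoset.Sm

end

/-! From `Pool.Agent.W_448jx_h67.WtB` -/

section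

/-!
The tables of the window `3`, cap `5` (MP_448cb3_co, HJoin10)
-/

namespace Pool.Agent.GaussPoset.Sm

set_option linter.unusedSectionVars false

open Finset Wd

/-- lines with `g`, by `κ`, window `3`, cap `5` -/
def LA : List (List ℤ) :=
  [[], [], [3], [-2, -1, 0, 1, 2, 3], [-11, -7, -6, -5, -4, -3, -2, -1, 0, 1, 2, 3, 8], [-20, -6,
  -3, -2, -1, 0, 1, 2, 3, 4, 5, 6, 7], [-29, -28, -27, -25, -24, -23, -22, -18, -11, -10, -9, -8,
  -7, -6, -5, -4, -3], [-22, -17], [-34, -29, -27, -26, -25, -24, -23], [], [-50, -45], [-55, -54,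
  -53]]

/-- caps, window `3`, cap `5` -/
def cpA : ℕ → ℤ := pk 57 44 (-1000) 5

/-- odd noise, window `3`, cap `5` -/
def nOA : ℕ → ℤ → Bool :=
  pk nf nf nf (fun V => ([-10] : List ℤ).elem V)

/-- even noise, window `3`, cap `5` -/
def nEA : ℕ → ℤ → Bool :=
  pk nf (nz 10) nf
    (fun V => nz 8 V || ([-24, 4, 5] : List ℤ).elem V)

/-- lower bounds, window `3`, cap `5` -/
def lbA : ℕ → ℤ := pk 0 0 (-999) (-64)

set_option maxRecDepth 100000 in
theorem tabA : Tab2 10 3 cpA LA E10 S10r S10b (XR R10) := by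
  refine ⟨by norm_num, chkE10, chkT10, ?_, ?_, ?_, ?_, ?_, ?_, ?_, ?_, ?_⟩
  · decide +kernel
  · decide +kernel
  · decide +kernel
  · decide +kernel
  · intro _ h
    decide +kernel
  · decide +kernel
  · decide +kernel
  · decide +kernel
  · decide +kernel

lemma uA : ubd 10 3 cpA lbA LA nOA nEA 200 2 = [29, 25, -999, 6] := by
  decide +kernel

end Pool.Agent.GaussPoset.Sm

end

/-! From `Pool.Agent.W_448jx_h67.WtD` -/

section

/-!
The tables of the window `2`, cap `32` (MP_448cb3_co, HJoin10)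
-/

namespace Pool.Agent.GaussPoset.Sm

set_option linter.unusedSectionVars false

open Finset Wd

/-- lines with `g`, by `κ`, window `2`, cap `32` -/
def LC : List (List ℤ) :=
  [[], [], [3], [-2, -1, 0, 1, 2, 3], [-7, -6, -5, -4, -3, -2, -1, 0, 1, 2, 3, 8], [-6, -3, -2,
  -1, 0, 1, 2, 3, 4, 5, 6, 7], [-11, -10, -9, -8, -7, -6, -5, -4, -3], [-22, -17], [-29, -27, -26,
  -25, -24, -23], [], [-45], [-54, -53]]

/-- caps, window `2`, cap `32` -/
def cpC : ℕ → ℤ := pk 57 44 32 0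

/-- odd noise, window `2`, cap `32` -/
def nOC : ℕ → ℤ → Bool :=
  pk nf nf (fun V => ([-9, 30, 31, 32] : List ℤ).elem V) nf

/-- even noise, window `2`, cap `32` -/
def nEC : ℕ → ℤ → Bool :=
  pk nf (nz 10) (fun V => nz 9 V || ([24] : List ℤ).elem V)
    nf

/-- lower bounds, window `2`, cap `32` -/
def lbC : ℕ → ℤ := pk 0 0 (-81) 0

set_option maxRecDepth 100000 in
theorem tabC : Tab2 10 2 cpC LC E10 S10r S10b (XR RC) := by
  refine ⟨by norm_num, chkE10, chkT10, ?_, ?_, ?_, ?_, ?_, ?_, ?_, ?_, ?_⟩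
  · decide +kernel
  · decide +kernel
  · decide +kernel
  · decide +kernel
  · intro _ h
    decide +kernel
  · decide +kernel
  · decide +kernel
  · decide +kernel
  · decide +kernel

lemma uC : ubd 10 2 cpC lbC LC nOC nEC 200 3 = [48, 43, 33] := by
  decide +kernel

end Pool.Agent.GaussPoset.Sm

end

/-! From `Pool.Agent.W_448jx_h67.WtE` -/

section

/-!
The tables of the window `2`, cap `35` (MP_448cb3_co, HJoin10)
-/

namespace Pool.Agent.GaussPoset.Sm

set_option linter.unusedSectionVars false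

open Finset Wd

/-- lines with `g`, by `κ`, window `2`, cap `35` -/
def LD : List (List ℤ) :=
  [[], [], [3], [-2, -1, 0, 1, 2, 3], [-7, -6, -5, -4, -3, -2, -1, 0, 1, 2, 3, 8], [-6, -3, -2,
  -1, 0, 1, 2, 3, 4, 5, 6, 7], [-11, -10, -9, -8, -7, -6, -5, -4, -3], [-22, -17], [-29, -27, -26,
  -25, -24, -23], [], [-45]]

/-- caps, window `2`, cap `35` -/
def cpD : ℕ → ℤ := pk 57 44 35 0

/-- odd noise, window `2`, cap `35` -/
def nOD : ℕ → ℤ → Bool :=
  pk nf nf (fun V => ([-9] : List ℤ).elem V) nf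

/-- even noise, window `2`, cap `35` -/
def nED : ℕ → ℤ → Bool :=
  pk nf (nz 10) (fun V => nz 9 V || ([24, 34, 35] : List ℤ).elem V)
    nf

/-- lower bounds, window `2`, cap `35` -/
def lbD : ℕ → ℤ := pk 0 0 (-81) 0

set_option maxRecDepth 100000 in
theorem tabD : Tab2 10 2 cpD LD E10 S10r S10b (XR RD) := by
  refine ⟨by norm_num, chkE10, chkT10, ?_, ?_, ?_, ?_, ?_, ?_, ?_, ?_, ?_⟩
  · decide +kernel
  · decide +kernel
  · decide +kernel
  · decide +kernel
  · intro _ h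
    decide +kernel
  · decide +kernel
  · decide +kernel
  · decide +kernel
  · decide +kernel

lemma uD : ubd 10 2 cpD lbD LD nOD nED 200 3 = [48, 43, 36] := by
  decide +kernel

lemma restD : ∀ p ∈ rest 10 E10 (XR RD) [48, 43, 36], p ∈ RDD := by
  decide +kernel

end Pool.Agent.GaussPoset.Sm

end

/-! From `Pool.Agent.W_448jx_h67.WtC` -/

section

/-!
The tables of the window `2`, cap `20` (MP_448cb3_co, HJoin10)
-/

namespace Pool.Agent.GaussPoset.Sm

set_option linter.unusedSectionVars false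

open Finset Wd

/-- lines with `g`, by `κ`, window `2`, cap `20` -/
def LB : List (List ℤ) :=
  [[], [], [3], [-2, -1, 0, 1, 2, 3], [-11, -7, -6, -5, -4, -3, -2, -1, 0, 1, 2, 3, 8], [-20, -6,
  -3, -2, -1, 0, 1, 2, 3, 4, 5, 6, 7], [-27, -25, -24, -23, -22, -18, -11, -10, -9, -8, -7, -6,
  -5, -4, -3], [-22, -17], [-34, -29, -27, -26, -25, -24, -23], [], [-50, -45], [-55, -54, -53]]

/-- caps, window `2`, cap `20` -/
def cpB : ℕ → ℤ := pk 57 44 20 0

/-- odd noise, window `2`, cap `20` -/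
def nOB : ℕ → ℤ → Bool :=
  pk nf nf (fun V => ([-9] : List ℤ).elem V) nf

/-- even noise, window `2`, cap `20` -/
def nEB : ℕ → ℤ → Bool :=
  pk nf (nz 10) (fun V => nz 9 V || ([] : List ℤ).elem V)
    nf

/-- lower bounds, window `2`, cap `20` -/
def lbB : ℕ → ℤ := pk 0 0 (-81) 0

set_option maxRecDepth 100000 in
theorem tabB : Tab2 10 2 cpB LB E10 S10r S10b (XR RA) := by
  refine ⟨by norm_num, chkE10, chkT10, ?_, ?_, ?_, ?_, ?_, ?_, ?_, ?_, ?_⟩
  · decide +kernel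
  · decide +kernel
  · decide +kernel
  · decide +kernel
  · intro _ h
    decide +kernel
  · decide +kernel
  · decide +kernel
  · decide +kernel
  · decide +kernel

lemma uB : ubd 10 2 cpB lbB LB nOB nEB 200 5 = [48, 43, 21] := by
  decide +kernel

lemma restB : ∀ p ∈ rest 10 E10 (XR RA) [48, 43, 21], p ∈ RB := by
  decide +kernel

end Pool.Agent.GaussPoset.Sm

end

/-! From `Pool.Agent.W_448jx_h67.WtF` -/

section

/-!
The tables of the window `3`, cap `30` (MP_448cb3_co, HJoin10)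
-/

namespace Pool.Agent.GaussPoset.Sm

set_option linter.unusedSectionVars false

open Finset Wd

/-- lines with `g`, by `κ`, window `3`, cap `30` -/
def LG : List (List ℤ) :=
  [[], [], [3], [-2, -1, 0, 1, 2, 3], [-7, -6, -5, -4, -3, -2, -1, 0, 1, 2, 3, 8], [-6, -3, -2,
  -1, 0, 1, 2, 3, 4, 5, 6, 7], [-11, -10, -9, -8, -7, -6, -5, -4, -3], [-22, -17], [-27, -26, -25,
  -24, -23], [], [-40]]

/-- caps, window `3`, cap `30` -/
def cpG : ℕ → ℤ := pk 57 44 35 30

/-- odd noise, window `3`, cap `30` -/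
def nOG : ℕ → ℤ → Bool :=
  pk nf nf (fun V => ([-9] : List ℤ).elem V) (fun V => ([-10] : List ℤ).elem V)

/-- even noise, window `3`, cap `30` -/
def nEG : ℕ → ℤ → Bool :=
  pk nf (nz 10) (fun V => nz 9 V || ([24, 34, 35] : List ℤ).elem V)
    (fun V => nz 8 V || ([-24, 29] : List ℤ).elem V)

/-- lower bounds, window `3`, cap `30` -/
def lbG : ℕ → ℤ := pk 0 0 (-81) (-64)

set_option maxRecDepth 100000 in
theorem tabG : Tab2 10 3 cpG LG E10 S10r S10b (XR RE) := by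
  refine ⟨by norm_num, chkE10, chkT10, ?_, ?_, ?_, ?_, ?_, ?_, ?_, ?_, ?_⟩
  · decide +kernel
  · decide +kernel
  · decide +kernel
  · decide +kernel
  · intro _ h
    decide +kernel
  · decide +kernel
  · decide +kernel
  · decide +kernel
  · decide +kernel

lemma uG : ubd 10 3 cpG lbG LG nOG nEG 200 3 = [48, 43, 36, 31] := by
  decide +kernel

lemma restG : ∀ p ∈ rest 10 E10 (XR RE) [48, 43, 36, 31], p ∈ REE := by
  decide +kernel

end Pool.Agent.GaussPoset.Sm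

end
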