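import Mathlib
import Pool.Agent.W_448zz_h61.Ns
import Pool.Agent.W_448zz_h61.M046
import Pool.Agent.W_448zz_h61.M085
import Pool.Agent.W_448zz_h61.M090
import Pool.Agent.W_448zz_h61.M098

/-! From `Pool.Agent.W_448so_h64.SoM` -/

section

/-!
SECOND ORDER THEOREM (MP_448cb3_co, proofs row 476): cones of charged elements.
-/

namespace Pool.Agent.GaussPoset.Win.SO

set_option linter.unusedSectionVars false

open Finset
open Pool.Agent.GaussPoset.Win.I2 (lS uS mem_lS mem_uS)
open Pool.Agent.GaussPoset.Win.So (TogL TogU RefL RefU RefD)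

universe u

variable {P : Type u} [Fintype P] [PartialOrder P] [DecidableEq P] {r i : ℕ} {psi : P → P}
  {e : P → ℕ} {C : Finset P}

open Classical in
/-- the elements between `z` and the window (`z` included) -/
noncomputable def con (i : ℕ) (z : P) : Finset P :=
  univ.filter (fun y => (i < lev y ∧ z ≤ y) ∨ (lev y < i ∧ y ≤ z))

lemma mem_con {z y : P} : y ∈ con i z ↔ (i < lev y ∧ z ≤ y) ∨ (lev y < i ∧ y ≤ z) := by
  classical
  unfold con
  simp only [mem_filter, mem_univ, true_and]

lemma self_con {z : P} (h : lev z ≠ i) : z ∈ con i z := by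
  rw [mem_con]
  rcases Nat.lt_or_gt_of_ne h with h | h
  · exact Or.inr ⟨h, le_rfl⟩
  · exact Or.inl ⟨h, le_rfl⟩

/-- elements of a cone are on the side of `z` -/
lemma con_low (H : Gr P r) {z y : P} (hz : i < lev z) (h : y ∈ con i z) : i < lev y ∧ z ≤ y := by
  rw [mem_con] at h
  rcases h with h | h
  · exact h
  · have := lev_anti h.2
    omega

lemma con_upp (H : Gr P r) {z y : P} (hz : lev z < i) (h : y ∈ con i z) : lev y < i ∧ y ≤ z := by
  rw [mem_con] at h
  rcases h with h | h
  · have := lev_anti h.2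
    omega
  · exact h

/-- a cone is closed towards the window -/
lemma con_cls (H : Gr P r) {z : P} (hz : lev z ≠ i) : Cls i (con i z) where
  ns := by
    intro x hx
    rw [mem_con] at hx
    omega
  lo := by
    intro x hx hl y hy
    have h1 := lev_uc H (mem_uc.2 hy)
    rw [mem_con] at hx ⊢
    left
    rcases hx with hx | hx
    · exact ⟨by omega, hx.2.trans hy.le⟩
    · omega
  up := by
    intro x hx hl y hy
    have h1 := lev_dc H (mem_dc.2 hy)
    rw [mem_con] at hx ⊢
    right
    rcases hx with hx | hx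
    · omega
    · exact ⟨by omega, hy.le.trans hx.2⟩

/-- a part is closed towards the window -/
lemma con_sub (H : Gr P r) (hC : Part (i + 1) C) {z : P} (hz : z ∈ C) (hl : lev z ≠ i) :
    con i z ⊆ C := by
  intro y hy
  rcases Nat.lt_or_gt_of_ne hl with h | h
  · have h1 := con_upp H h hy
    -- downwards closure on the levels `< i + 1`
    have key : ∀ n, ∀ y, y ≤ z → lev y = lev z + n → lev y < i → y ∈ C := by
      intro n
      induction n with
      | zero =>
        intro y hy hl' hy'
        have : y = z := by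
          by_contra hne
          have := lev_strict H (lt_of_le_of_ne hy hne)
          omega
        rw [this]; exact hz
      | succ n ih =>
        intro y hy hl' hy'
        have hlt : y < z := lt_of_le_of_ne hy (by rintro rfl; omega)
        obtain ⟨w, hw1, hw2⟩ := exists_covBy_le_of_lt hlt
        have h3 := lev_cov H hw1
        exact hC.dn (ih w hw2 (by omega) (by omega)) (by omega) hw1
    have h2 := lev_anti h1.2
    exact key (lev y - lev z) y h1.2 (by omega) h1.1
  · have h1 := con_low H h hy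
    exact part_up hC hz h1.2

/-- the sites of an element of a cone -/
lemma sit_sub (H : Gr P r) {z y : P} (hz : lev z ≠ i) (h : y ∈ con i z) :
    sit i y ⊆ sit i z := by
  rcases Nat.lt_or_gt_of_ne hz with h1 | h1
  · obtain ⟨h2, h3⟩ := con_upp H h1 h
    rw [sit_upp H h1.le, sit_upp H h2.le]
    intro v hv
    rw [mem_stD] at hv ⊢
    exact ⟨hv.1, lt_of_lt_of_le hv.2 h3⟩
  · obtain ⟨h2, h3⟩ := con_low H h1 h
    rw [sit_low H h1.le, sit_low H h2.le]
    intro v hv
    rw [mem_sts] at hv ⊢
    exact ⟨hv.1, lt_of_le_of_lt h3 hv.2⟩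

/-- every element which is no site has a site -/
lemma sit_ne (H : Gr P r) (hir : i ≤ r) {y : P} (hy : lev y ≠ i) : (sit i y).Nonempty := by
  rcases Nat.lt_or_gt_of_ne hy with h1 | h1
  · rw [sit_upp H h1.le]
    obtain ⟨v, hv, hv2⟩ := H.exists_below (x := y) (j := i) h1.le hir
    refine ⟨v, mem_stD.2 ⟨hv2, lt_of_le_of_ne hv ?_⟩⟩
    rintro rfl
    omega
  · rw [sit_low H h1.le]
    obtain ⟨v, hv, hv2⟩ := exists_above' (x := y) (j := i) h1.le
    refine ⟨v, mem_sts.2 ⟨hv2, lt_of_le_of_ne hv ?_⟩⟩
    rintro rfl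
    omega

/-- cones over disjoint sites are disjoint -/
lemma con_disj (H : Gr P r) (hir : i ≤ r) {z z' : P} (hz : lev z ≠ i) (hz' : lev z' ≠ i)
    (hd : Disjoint (sit i z) (sit i z')) : Disjoint (con i z) (con i z') := by
  rw [disjoint_left]
  intro y hy hy'
  have hl : lev y ≠ i := (con_cls H hz).ns y hy
  obtain ⟨v, hv⟩ := sit_ne H hir hl
  exact disjoint_left.1 hd (sit_sub H hz hy hv) (sit_sub H hz' hy' hv)

open Classical in
/-- the elements of `s` without neighbour away from the window in `s` -/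
noncomputable def Mn (i : ℕ) (s : Finset P) : Finset P :=
  s.filter (fun y => ∀ x ∈ s, ¬ ((i < lev y ∧ x ⋖ y) ∨ (lev y < i ∧ y ⋖ x)))

lemma mem_Mn {s : Finset P} {y : P} :
    y ∈ Mn i s ↔ y ∈ s ∧ ∀ x ∈ s, ¬ ((i < lev y ∧ x ⋖ y) ∨ (lev y < i ∧ y ⋖ x)) := by
  classical
  unfold Mn
  simp only [mem_filter]

/-- an element of a cone, not the apex, has a neighbour away from the window in the cone -/
lemma con_step (H : Gr P r) {z y : P} (hz : lev z ≠ i) (hy : y ∈ con i z) (hne : y ≠ z) :
    ∃ x ∈ con i z, (i < lev y ∧ x ⋖ y) ∨ (lev y < i ∧ y ⋖ x) := by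
  rcases Nat.lt_or_gt_of_ne hz with h1 | h1
  · obtain ⟨h2, h3⟩ := con_upp H h1 hy
    obtain ⟨w, hw1, hw2⟩ := exists_covBy_le_of_lt (lt_of_le_of_ne h3 hne)
    have h4 := lev_cov H hw1
    exact ⟨w, mem_con.2 (Or.inr ⟨by omega, hw2⟩), Or.inr ⟨h2, hw1⟩⟩
  · obtain ⟨h2, h3⟩ := con_low H h1 hy
    obtain ⟨w, hw1, hw2⟩ := exists_le_covBy_of_lt (lt_of_le_of_ne h3 (Ne.symm hne))
    have h4 := lev_cov H hw2
    exact ⟨w, mem_con.2 (Or.inl ⟨by omega, hw1⟩), Or.inl ⟨h2, hw2⟩⟩

/-- the apex of a cone is minimal in it -/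
lemma con_apex (H : Gr P r) {z x : P} (hz : lev z ≠ i) (hx : x ∈ con i z)
    (h : (i < lev z ∧ x ⋖ z) ∨ (lev z < i ∧ z ⋖ x)) : False := by
  rcases h with ⟨h1, h2⟩ | ⟨h1, h2⟩
  · have h3 := con_low H h1 hx
    exact absurd (lt_of_le_of_lt h3.2 h2.lt) (lt_irrefl z)
  · have h3 := con_upp H h1 hx
    exact absurd (lt_of_lt_of_le h2.lt h3.2) (lt_irrefl z)

/-- THE MINIMAL ELEMENTS of a union of cones over pairwise disjoint sites are the apices -/
theorem Mn_biUnion (H : Gr P r) (hir : i ≤ r) {T : Finset P} (hT : ∀ z ∈ T, lev z ≠ i)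
    (hd : ∀ z ∈ T, ∀ z' ∈ T, z ≠ z' → Disjoint (sit i z) (sit i z')) :
    Mn i (T.biUnion (con i)) = T := by
  ext y
  rw [mem_Mn]
  constructor
  · rintro ⟨h1, h2⟩
    rw [mem_biUnion] at h1
    obtain ⟨z, hz, hy⟩ := h1
    by_cases hne : y = z
    · rw [hne]; exact hz
    · exfalso
      obtain ⟨x, hx, hx2⟩ := con_step H (hT z hz) hy hne
      exact h2 x (mem_biUnion.2 ⟨z, hz, hx⟩) hx2
  · intro hy
    refine ⟨mem_biUnion.2 ⟨y, hy, self_con (hT y hy)⟩, ?_⟩
    intro x hx hx2
    rw [mem_biUnion] at hx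
    obtain ⟨z, hz, hxz⟩ := hx
    by_cases hne : y = z
    · subst hne
      exact con_apex H (hT y hy) hxz hx2
    · -- `y` is in the cone of `z`
      have hyz : y ∈ con i z := by
        rw [mem_con] at hxz ⊢
        rcases hx2 with ⟨g1, g2⟩ | ⟨g1, g2⟩
        · have h4 := lev_cov H g2
          rcases hxz with hxz | hxz
          · exact Or.inl ⟨g1, hxz.2.trans g2.le⟩
          · omega
        · have h4 := lev_cov H g2
          rcases hxz with hxz | hxz
          · omega
          · exact Or.inr ⟨g1, g2.le.trans hxz.2⟩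
      exact disjoint_left.1 (con_disj H hir (hT y hy) (hT z hz) (hd y hy z hz hne))
        (self_con (hT y hy)) hyz

end Pool.Agent.GaussPoset.Win.SO

end

/-! From `Pool.Agent.W_448so_h64.SoN` -/

section

/-!
SECOND ORDER THEOREM (MP_448cb3_co, proofs row 476): numbers of the cones of charged elements.
-/

namespace Pool.Agent.GaussPoset.Win.SO

set_option linter.unusedSectionVars false

open Finset
open Pool.Agent.GaussPoset.Win.I2 (lS uS mem_lS mem_uS)

universe u

variable {P : Type u} [Fintype P] [PartialOrder P] [DecidableEq P] {r i : ℕ} {psi : P → P}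
  {e : P → ℕ} {C : Finset P}

lemma mem_BL {s : Finset P} {v : P} : v ∈ BL i s ↔ lev v = i ∧ ∃ x ∈ s, x ⋖ v := by
  classical
  unfold BL
  simp only [mem_filter, mem_lv]

lemma mem_BU {s : Finset P} {v : P} : v ∈ BU i s ↔ lev v = i ∧ ∃ x ∈ s, v ⋖ x := by
  classical
  unfold BU
  simp only [mem_filter, mem_lv]

lemma mem_nL {s : Finset P} {x : P} : x ∈ nL i s ↔ x ∈ s ∧ lev x = i + 1 := by
  unfold nL; rw [mem_filter]

lemma mem_nU {s : Finset P} {x : P} : x ∈ nU i s ↔ x ∈ s ∧ lev x + 1 = i := by
  unfold nU; rw [mem_filter]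

lemma BL_union (s s' : Finset P) : BL i (s ∪ s') = BL i s ∪ BL i s' := by
  ext v
  rw [mem_union, mem_BL, mem_BL, mem_BL]
  constructor
  · rintro ⟨h, x, hx, hv⟩
    rcases mem_union.1 hx with hx | hx
    · exact Or.inl ⟨h, x, hx, hv⟩
    · exact Or.inr ⟨h, x, hx, hv⟩
  · rintro (⟨h, x, hx, hv⟩ | ⟨h, x, hx, hv⟩)
    · exact ⟨h, x, mem_union_left _ hx, hv⟩
    · exact ⟨h, x, mem_union_right _ hx, hv⟩

lemma BU_union (s s' : Finset P) : BU i (s ∪ s') = BU i s ∪ BU i s' := by
  ext v
  rw [mem_union, mem_BU, mem_BU, mem_BU]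
  constructor
  · rintro ⟨h, x, hx, hv⟩
    rcases mem_union.1 hx with hx | hx
    · exact Or.inl ⟨h, x, hx, hv⟩
    · exact Or.inr ⟨h, x, hx, hv⟩
  · rintro (⟨h, x, hx, hv⟩ | ⟨h, x, hx, hv⟩)
    · exact ⟨h, x, mem_union_left _ hx, hv⟩
    · exact ⟨h, x, mem_union_right _ hx, hv⟩

lemma nL_union (s s' : Finset P) : nL i (s ∪ s') = nL i s ∪ nL i s' := by
  unfold nL; rw [filter_union]

lemma nU_union (s s' : Finset P) : nU i (s ∪ s') = nU i s ∪ nU i s' := by
  unfold nU; rw [filter_union]

lemma BL_con_low (H : Gr P r) {z : P} (hz : i < lev z) : BL i (con i z) = sts i z := by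
  ext v
  rw [mem_BL, mem_sts]
  constructor
  · rintro ⟨h, x, hx, hv⟩
    exact ⟨h, lt_of_le_of_lt (con_low H hz hx).2 hv.lt⟩
  · rintro ⟨h, hv⟩
    obtain ⟨x, hx1, hx2⟩ := exists_le_covBy_of_lt hv
    have := lev_cov H hx2
    exact ⟨h, x, mem_con.2 (Or.inl ⟨by omega, hx1⟩), hx2⟩

lemma BU_con_low (H : Gr P r) {z : P} (hz : i < lev z) : BU i (con i z) = ∅ := by
  rw [eq_empty_iff_forall_notMem]
  intro v hv
  rw [mem_BU] at hv
  obtain ⟨h, x, hx, hv⟩ := hv
  have := con_low H hz hx
  have := lev_cov H hv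
  omega

lemma nU_con_low (H : Gr P r) {z : P} (hz : i < lev z) : nU i (con i z) = ∅ := by
  rw [eq_empty_iff_forall_notMem]
  intro v hv
  rw [mem_nU] at hv
  have := con_low H hz hv.1
  omega

lemma BU_con_upp (H : Gr P r) {z : P} (hz : lev z < i) : BU i (con i z) = stD i z := by
  ext v
  rw [mem_BU, mem_stD]
  constructor
  · rintro ⟨h, x, hx, hv⟩
    exact ⟨h, lt_of_lt_of_le hv.lt (con_upp H hz hx).2⟩
  · rintro ⟨h, hv⟩
    obtain ⟨x, hx1, hx2⟩ := exists_covBy_le_of_lt hv
    have := lev_cov H hx1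
    exact ⟨h, x, mem_con.2 (Or.inr ⟨by omega, hx2⟩), hx1⟩

lemma BL_con_upp (H : Gr P r) {z : P} (hz : lev z < i) : BL i (con i z) = ∅ := by
  rw [eq_empty_iff_forall_notMem]
  intro v hv
  rw [mem_BL] at hv
  obtain ⟨h, x, hx, hv⟩ := hv
  have := con_upp H hz hx
  have := lev_cov H hv
  omega

lemma nL_con_upp (H : Gr P r) {z : P} (hz : lev z < i) : nL i (con i z) = ∅ := by
  rw [eq_empty_iff_forall_notMem]
  intro v hv
  rw [mem_nL] at hv
  have := con_upp H hz hv.1
  omega

/-- the sites of a cone -/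
lemma sit_con (H : Gr P r) {z : P} (hz : lev z ≠ i) :
    BL i (con i z) ∪ BU i (con i z) = sit i z := by
  rcases Nat.lt_or_gt_of_ne hz with h | h
  · rw [BL_con_upp H h, BU_con_upp H h, sit_upp H h.le, empty_union]
  · rw [BL_con_low H h, BU_con_low H h, sit_low H h.le, union_empty]

lemma con_site (H : Gr P r) {z : P} (hz : lev z = i) : con i z = ∅ := by
  rw [eq_empty_iff_forall_notMem]
  intro y hy
  rw [mem_con] at hy
  rcases hy with ⟨h1, h2⟩ | ⟨h1, h2⟩
  · have := lev_anti h2
    omega
  · have := lev_anti h2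
    omega

/-- recursion for cones below the window -/
lemma con_rec_low (H : Gr P r) {z : P} (hz : i < lev z) :
    con i z = insert z ((uc z).biUnion (con i)) := by
  ext y
  rw [mem_insert, mem_biUnion]
  constructor
  · intro hy
    obtain ⟨h1, h2⟩ := con_low H hz hy
    by_cases h : y = z
    · exact Or.inl h
    · obtain ⟨w, hw1, hw2⟩ := exists_covBy_le_of_lt (lt_of_le_of_ne h2 (Ne.symm h))
      exact Or.inr ⟨w, mem_uc.2 hw1, mem_con.2 (Or.inl ⟨h1, hw2⟩)⟩
  · rintro (rfl | ⟨w, hw, hy⟩)
    · exact self_con (by omega)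
    · have h1 := lev_uc H hw
      rw [mem_uc] at hw
      by_cases h2 : lev w = i
      · rw [con_site H h2] at hy
        exact absurd hy (notMem_empty _)
      · obtain ⟨h3, h4⟩ := con_low H (by omega) hy
        exact mem_con.2 (Or.inl ⟨h3, hw.le.trans h4⟩)

/-- recursion for cones above the window -/
lemma con_rec_upp (H : Gr P r) {z : P} (hz : lev z < i) :
    con i z = insert z ((dc z).biUnion (con i)) := by
  ext y
  rw [mem_insert, mem_biUnion]
  constructor
  · intro hy
    obtain ⟨h1, h2⟩ := con_upp H hz hy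
    by_cases h : y = z
    · exact Or.inl h
    · obtain ⟨w, hw1, hw2⟩ := exists_le_covBy_of_lt (lt_of_le_of_ne h2 h)
      exact Or.inr ⟨w, mem_dc.2 hw2, mem_con.2 (Or.inr ⟨h1, hw1⟩)⟩
  · rintro (rfl | ⟨w, hw, hy⟩)
    · exact self_con (by omega)
    · have h1 := lev_dc H hw
      rw [mem_dc] at hw
      by_cases h2 : lev w = i
      · rw [con_site H h2] at hy
        exact absurd hy (notMem_empty _)
      · obtain ⟨h3, h4⟩ := con_upp H (by omega) hy
        exact mem_con.2 (Or.inr ⟨h3, h4.trans hw.le⟩)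

lemma con_one_low (H : Gr P r) {z : P} (hz : lev z = i + 1) : con i z = {z} := by
  rw [con_rec_low H (by omega)]
  have : (uc z).biUnion (con i) = ∅ := by
    rw [eq_empty_iff_forall_notMem]
    intro y hy
    rw [mem_biUnion] at hy
    obtain ⟨w, hw, hy⟩ := hy
    have := lev_uc H hw
    rw [con_site H (by omega)] at hy
    exact absurd hy (notMem_empty _)
  rw [this]
  rfl

lemma con_one_upp (H : Gr P r) {z : P} (hz : lev z + 1 = i) : con i z = {z} := by
  rw [con_rec_upp H (by omega)]
  have : (dc z).biUnion (con i) = ∅ := by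
    rw [eq_empty_iff_forall_notMem]
    intro y hy
    rw [mem_biUnion] at hy
    obtain ⟨w, hw, hy⟩ := hy
    have := lev_dc H hw
    rw [con_site H (by omega)] at hy
    exact absurd hy (notMem_empty _)
  rw [this]
  rfl

lemma con_two_low (H : Gr P r) {z : P} (hz : lev z = i + 2) : con i z = insert z (uc z) := by
  rw [con_rec_low H (by omega)]
  congr 1
  ext y
  rw [mem_biUnion]
  constructor
  · rintro ⟨w, hw, hy⟩
    have := lev_uc H hw
    rw [con_one_low H (by omega), mem_singleton] at hy
    rw [hy]; exact hw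
  · intro hy
    have := lev_uc H hy
    exact ⟨y, hy, by rw [con_one_low H (by omega)]; simp⟩

lemma con_two_upp (H : Gr P r) {z : P} (hz : lev z + 2 = i) : con i z = insert z (dc z) := by
  rw [con_rec_upp H (by omega)]
  congr 1
  ext y
  rw [mem_biUnion]
  constructor
  · rintro ⟨w, hw, hy⟩
    have := lev_dc H hw
    rw [con_one_upp H (by omega), mem_singleton] at hy
    rw [hy]; exact hw
  · intro hy
    have := lev_dc H hy
    exact ⟨y, hy, by rw [con_one_upp H (by omega)]; simp⟩

/-- the numbers of a charged element -/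
structure Num (i : ℕ) (C : Finset P) (z : P) : Prop where
  ns : lev z ≠ i
  mC : z ∈ C
  num : (BL i (con i z)).card + (BU i (con i z)).card =
    (nL i (con i z)).card + (nU i (con i z)).card + 1
  sgn : chg i C z = (-1) ^ ((BL i (con i z)).card + (nU i (con i z)).card)
  three : (con i z).card = 3

/-- levels of the four types -/
lemma Chs_cases (H : Gr P r) {z : P} (hz : z ∈ Chs i C) :
    (z ∈ ZL i C ∧ lev z = i + 2) ∨ (z ∈ ZU i C ∧ lev z + 2 = i) ∨
      (z ∈ FL i C ∧ lev z = i + 3) ∨ (z ∈ FU' i C ∧ lev z + 3 = i) := by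
  unfold Chs at hz
  rw [mem_union, mem_union, mem_union] at hz
  rcases hz with ((h | h) | h) | h
  · exact Or.inl ⟨h, (mem_ZL.1 h).2.1⟩
  · exact Or.inr (Or.inl ⟨h, (mem_ZU.1 h).2.1⟩)
  · exact Or.inr (Or.inr (Or.inl ⟨h, lev_FL H h⟩))
  · exact Or.inr (Or.inr (Or.inr ⟨h, lev_FU H h⟩))

lemma chg_ZL (H : Gr P r) {z : P} (hz : z ∈ ZL i C) : chg i C z = -1 := by
  unfold chg
  rw [if_neg]
  have h1 := (mem_ZL.1 hz).2.1
  rw [mem_union]
  rintro (h | h)
  · have := (mem_ZU.1 h).2.1
    omega
  · have := lev_FL H h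
    omega

lemma chg_FU (H : Gr P r) {z : P} (hz : z ∈ FU' i C) : chg i C z = -1 := by
  unfold chg
  rw [if_neg]
  have h1 := lev_FU H hz
  rw [mem_union]
  rintro (h | h)
  · have := (mem_ZU.1 h).2.1
    omega
  · have := lev_FL H h
    omega

lemma chg_ZU {z : P} (hz : z ∈ ZU i C) : chg i C z = 1 := by
  unfold chg
  rw [if_pos (mem_union_left _ hz)]

lemma chg_FL {z : P} (hz : z ∈ FL i C) : chg i C z = 1 := by
  unfold chg
  rw [if_pos (mem_union_right _ hz)]

lemma num_ZL (H : Gr P r) {z : P} (hz : z ∈ ZL i C) : Num i C z := by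
  obtain ⟨h1, h2, h3⟩ := mem_ZL.1 hz
  have hu := card_uc_of_up H h2 h3
  have e1 : (BL i (con i z)).card = 3 := by rw [BL_con_low H (by omega), card_sts, h3]
  have e2 : nL i (con i z) = uc z := by
    rw [con_two_low H h2]
    ext y
    rw [mem_nL, mem_insert]
    constructor
    · rintro ⟨h | h, hl⟩
      · subst h; omega
      · exact h
    · intro h
      have := lev_uc H h
      exact ⟨Or.inr h, by omega⟩
  refine ⟨by omega, h1, ?_, ?_, ?_⟩
  · rw [e1, BU_con_low H (by omega), e2, nU_con_low H (by omega), hu]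
    simp
  · rw [chg_ZL H hz, e1, nU_con_low H (by omega)]
    norm_num
  · rw [con_two_low H h2, card_insert_of_notMem, hu]
    intro h
    have := lev_uc H h
    omega

lemma num_ZU (H : Gr P r) {z : P} (hz : z ∈ ZU i C) : Num i C z := by
  obtain ⟨h1, h2, h3⟩ := mem_ZU.1 hz
  have hu := card_dc_of_dn H h2 h3
  have e1 : (BU i (con i z)).card = 3 := by rw [BU_con_upp H (by omega), card_stD, h3]
  have e2 : nU i (con i z) = dc z := by
    rw [con_two_upp H h2]
    ext y
    rw [mem_nU, mem_insert]
    constructor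
    · rintro ⟨h | h, hl⟩
      · subst h; omega
      · exact h
    · intro h
      have := lev_dc H h
      exact ⟨Or.inr h, by omega⟩
  refine ⟨by omega, h1, ?_, ?_, ?_⟩
  · rw [e1, BL_con_upp H (by omega), e2, nL_con_upp H (by omega), hu]
  · rw [chg_ZU hz, BL_con_upp H (by omega), e2, hu]
    norm_num
  · rw [con_two_upp H h2, card_insert_of_notMem, hu]
    intro h
    have := lev_dc H h
    omega

/-- the cone of a lower chain -/
lemma con_FL (H : Gr P r) {z p y : P} (hz : lev z = i + 3) (hp : uc z = {p}) (hy : uc p = {y}) :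
    con i z = {z, p, y} := by
  have h1 := lev_uc H (x := z) (v := p) (by rw [hp]; simp)
  rw [con_rec_low H (by omega), hp, singleton_biUnion, con_two_low H (by omega), hy]

lemma con_FU (H : Gr P r) {z p y : P} (hz : lev z + 3 = i) (hp : dc z = {p}) (hy : dc p = {y}) :
    con i z = {z, p, y} := by
  have h1 := lev_dc H (x := z) (v := p) (by rw [hp]; simp)
  rw [con_rec_upp H (by omega), hp, singleton_biUnion, con_two_upp H (by omega), hy]

/-- the pendant of a chain -/
lemma FL_data (H : Gr P r) {z : P} (hz : z ∈ FL i C) :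
    ∃ p y, uc z = {p} ∧ uc p = {y} ∧ p ∈ PD P i ∧ lev p = i + 2 ∧ lev y = i + 1 ∧
      (uc y).card = 2 := by
  obtain ⟨h1, p, hp, hu⟩ := mem_FL.1 hz
  obtain ⟨g1, g2, y, hy, hc⟩ := mem_PD.1 hp
  have g3 := lev_uc H (mem_uc.2 hy)
  refine ⟨p, y, hu, ?_, hp, g1, by omega, hc⟩
  obtain ⟨q, hq⟩ := card_eq_one.1 g2
  have : y ∈ uc p := mem_uc.2 hy
  rw [hq, mem_singleton] at this
  rw [hq, this]

lemma FU_data (H : Gr P r) {z : P} (hz : z ∈ FU' i C) :
    ∃ p y, dc z = {p} ∧ dc p = {y} ∧ p ∈ PU P i ∧ lev p + 2 = i ∧ lev y + 1 = i ∧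
      (dc y).card = 2 := by
  obtain ⟨h1, p, hp, hu⟩ := mem_FU'.1 hz
  obtain ⟨g1, g2, y, hy, hc⟩ := mem_PU.1 hp
  have g3 := lev_dc H (mem_dc.2 hy)
  refine ⟨p, y, hu, ?_, hp, g1, by omega, hc⟩
  obtain ⟨q, hq⟩ := card_eq_one.1 g2
  have : y ∈ dc p := mem_dc.2 hy
  rw [hq, mem_singleton] at this
  rw [hq, this]

lemma num_FL (H : Gr P r) {z : P} (hz : z ∈ FL i C) : Num i C z := by
  have h1 := (mem_FL.1 hz).1
  have h2 := lev_FL H hz
  obtain ⟨p, y, g1, g2, g3, g4, g5, g6⟩ := FL_data H hz
  have hcon := con_FL H h2 g1 g2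
  have e1 : BL i (con i z) = uc y := by
    rw [hcon]
    ext v
    rw [mem_BL]
    constructor
    · rintro ⟨h, x, hx, hv⟩
      have hv' := lev_uc H (mem_uc.2 hv)
      rw [mem_insert, mem_insert, mem_singleton] at hx
      rcases hx with rfl | rfl | rfl
      · omega
      · omega
      · exact mem_uc.2 hv
    · intro hv
      have hv' := lev_uc H hv
      exact ⟨by omega, y, by simp, mem_uc.1 hv⟩
  have e2 : nL i (con i z) = {y} := by
    rw [hcon]
    ext v
    rw [mem_nL, mem_insert, mem_insert, mem_singleton]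
    constructor
    · rintro ⟨rfl | rfl | rfl, hl⟩
      · omega
      · omega
      · rfl
    · rintro rfl
      exact ⟨Or.inr (Or.inr rfl), g5⟩
  refine ⟨by omega, h1, ?_, ?_, ?_⟩
  · rw [e1, BU_con_low H (by omega), e2, nU_con_low H (by omega), g6]
    simp
  · rw [chg_FL hz, e1, nU_con_low H (by omega), g6]
    norm_num
  · rw [hcon, card_insert_of_notMem, card_insert_of_notMem, card_singleton]
    · rw [mem_singleton]
      rintro rfl
      omega
    · rw [mem_insert, mem_singleton]
      rintro (rfl | rfl) <;> omega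

lemma num_FU (H : Gr P r) {z : P} (hz : z ∈ FU' i C) : Num i C z := by
  have h1 := (mem_FU'.1 hz).1
  have h2 := lev_FU H hz
  obtain ⟨p, y, g1, g2, g3, g4, g5, g6⟩ := FU_data H hz
  have hcon := con_FU H h2 g1 g2
  have e1 : BU i (con i z) = dc y := by
    rw [hcon]
    ext v
    rw [mem_BU]
    constructor
    · rintro ⟨h, x, hx, hv⟩
      have hv' := lev_dc H (mem_dc.2 hv)
      rw [mem_insert, mem_insert, mem_singleton] at hx
      rcases hx with rfl | rfl | rfl
      · omega
      · omega
      · exact mem_dc.2 hv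
    · intro hv
      have hv' := lev_dc H hv
      exact ⟨by omega, y, by simp, mem_dc.1 hv⟩
  have e2 : nU i (con i z) = {y} := by
    rw [hcon]
    ext v
    rw [mem_nU, mem_insert, mem_insert, mem_singleton]
    constructor
    · rintro ⟨rfl | rfl | rfl, hl⟩
      · omega
      · omega
      · rfl
    · rintro rfl
      exact ⟨Or.inr (Or.inr rfl), g5⟩
  refine ⟨by omega, h1, ?_, ?_, ?_⟩
  · rw [e1, BL_con_upp H (by omega), e2, nL_con_upp H (by omega), g6]
    simp
  · rw [chg_FU H hz, BL_con_upp H (by omega), e2]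
    norm_num
  · rw [hcon, card_insert_of_notMem, card_insert_of_notMem, card_singleton]
    · rw [mem_singleton]
      rintro rfl
      omega
    · rw [mem_insert, mem_singleton]
      rintro (rfl | rfl) <;> omega

/-- all charged elements -/
theorem num_Chs (H : Gr P r) {z : P} (hz : z ∈ Chs i C) : Num i C z := by
  rcases Chs_cases H hz with h | h | h | h
  · exact num_ZL H h.1
  · exact num_ZU H h.1
  · exact num_FL H h.1
  · exact num_FU H h.1

end Pool.Agent.GaussPoset.Win.SO

end

/-! From `Pool.Agent.W_448so_h64.SoO` -/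

section

/-!
SECOND ORDER THEOREM (MP_448cb3_co, proofs row 476): the leftover configurations of energy six, index set.
-/

namespace Pool.Agent.GaussPoset.Win.SO

set_option linter.unusedSectionVars false

open Finset
open Pool.Agent.GaussPoset.Win.I2 (lS uS mem_lS mem_uS)
open Pool.Agent.GaussPoset.Win.So (TogL TogU RefL RefU RefD)

universe u

variable {P : Type u} [Fintype P] [PartialOrder P] [DecidableEq P] {r i : ℕ} {psi : P → P}
  {e : P → ℕ} {C : Finset P}

/-- covers towards the window -/
noncomputable def nb (i : ℕ) (z : P) : Finset P := if i < lev z then uc z else dc z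

open Classical in
/-- elements over a T-element only -/
noncomputable def N1f (i : ℕ) (C : Finset P) : Finset P :=
  C.filter (fun z => (i < lev z ∧ ∃ w ∈ ZL i C, uc z = {w}) ∨
    (lev z < i ∧ ∃ w ∈ ZU i C, dc z = {w}))

open Classical in
/-- elements over a pendant and a T-element with disjoint sites -/
noncomputable def N5f (i : ℕ) (C : Finset P) : Finset P :=
  C.filter (fun z => (i < lev z ∧ ∃ p w, p ∈ PD P i ∧ w ∈ ZL i C ∧ uc z = {p, w} ∧
      Disjoint (sts i p) (sts i w)) ∨
    (lev z < i ∧ ∃ p w, p ∈ PU P i ∧ w ∈ ZU i C ∧ dc z = {p, w} ∧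
      Disjoint (stD i p) (stD i w)))

lemma mem_N1f {z : P} : z ∈ N1f i C ↔ z ∈ C ∧ ((i < lev z ∧ ∃ w ∈ ZL i C, uc z = {w}) ∨
    (lev z < i ∧ ∃ w ∈ ZU i C, dc z = {w})) := by
  classical
  unfold N1f
  simp only [mem_filter]

lemma mem_N5f {z : P} : z ∈ N5f i C ↔ z ∈ C ∧ ((i < lev z ∧ ∃ p w, p ∈ PD P i ∧ w ∈ ZL i C ∧
      uc z = {p, w} ∧ Disjoint (sts i p) (sts i w)) ∨
    (lev z < i ∧ ∃ p w, p ∈ PU P i ∧ w ∈ ZU i C ∧ dc z = {p, w} ∧
      Disjoint (stD i p) (stD i w))) := by
  classical
  unfold N5f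
  simp only [mem_filter]

lemma nb_low {z : P} (h : i < lev z) : nb i z = uc z := by unfold nb; rw [if_pos h]

lemma nb_upp {z : P} (h : lev z < i) : nb i z = dc z := by unfold nb; rw [if_neg (by omega)]

/-- levels -/
lemma N1f_lev (H : Gr P r) {z : P} (hz : z ∈ N1f i C) :
    (lev z = i + 3 ∧ ∃ w ∈ ZL i C, uc z = {w}) ∨ (lev z + 3 = i ∧ ∃ w ∈ ZU i C, dc z = {w}) := by
  rcases (mem_N1f.1 hz).2 with ⟨h1, w, h2, h3⟩ | ⟨h1, w, h2, h3⟩
  · left
    have g1 := lev_uc H (x := z) (v := w) (by rw [h3]; simp)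
    have g2 := (mem_ZL.1 h2).2.1
    exact ⟨by omega, w, h2, h3⟩
  · right
    have g1 := lev_dc H (x := z) (v := w) (by rw [h3]; simp)
    have g2 := (mem_ZU.1 h2).2.1
    exact ⟨by omega, w, h2, h3⟩

lemma N5f_lev (H : Gr P r) {z : P} (hz : z ∈ N5f i C) :
    (lev z = i + 3 ∧ ∃ p w, p ∈ PD P i ∧ w ∈ ZL i C ∧ uc z = {p, w} ∧
      Disjoint (sts i p) (sts i w)) ∨
    (lev z + 3 = i ∧ ∃ p w, p ∈ PU P i ∧ w ∈ ZU i C ∧ dc z = {p, w} ∧
      Disjoint (stD i p) (stD i w)) := by
  rcases (mem_N5f.1 hz).2 with ⟨h1, p, w, h0, h2, h3, h4⟩ | ⟨h1, p, w, h0, h2, h3, h4⟩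
  · left
    have g1 := lev_uc H (x := z) (v := w) (by rw [h3]; simp)
    have g2 := (mem_ZL.1 h2).2.1
    exact ⟨by omega, p, w, h0, h2, h3, h4⟩
  · right
    have g1 := lev_dc H (x := z) (v := w) (by rw [h3]; simp)
    have g2 := (mem_ZU.1 h2).2.1
    exact ⟨by omega, p, w, h0, h2, h3, h4⟩

/-- elements whose label is two -/
noncomputable def dbl (i : ℕ) (C T : Finset P) : Finset P :=
  (T ∩ N1f i C).biUnion (fun z => insert z (nb i z))

/-- the configuration of an index set -/
noncomputable def Psi (i : ℕ) (C T : Finset P) : P → ℕ :=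
  fun y => on (T.biUnion (con i)) y + on (dbl i C T) y

open Classical in
/-- pairs of charged elements with disjoint sites -/
noncomputable def PR (i : ℕ) (C : Finset P) : Finset (Finset P) :=
  ((Chs i C).powersetCard 2).filter
    (fun T => ∀ z ∈ T, ∀ z' ∈ T, z ≠ z' → Disjoint (sit i z) (sit i z'))

lemma mem_PR {T : Finset P} : T ∈ PR i C ↔ T ⊆ Chs i C ∧ T.card = 2 ∧
    ∀ z ∈ T, ∀ z' ∈ T, z ≠ z' → Disjoint (sit i z) (sit i z') := by
  classical
  unfold PR
  simp only [mem_filter, mem_powersetCard, and_assoc]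

/-- the index set of the leftover configurations -/
noncomputable def Ix (i : ℕ) (C : Finset P) : Finset (Finset P) :=
  PR i C ∪ (N1f i C ∪ N5f i C).image (fun z => {z})

lemma mem_Ix {T : Finset P} : T ∈ Ix i C ↔ T ∈ PR i C ∨ ∃ z, (z ∈ N1f i C ∨ z ∈ N5f i C) ∧
    T = {z} := by
  unfold Ix
  rw [mem_union, mem_image]
  constructor
  · rintro (h | ⟨z, hz, rfl⟩)
    · exact Or.inl h
    · exact Or.inr ⟨z, mem_union.1 hz, rfl⟩
  · rintro (h | ⟨z, hz, rfl⟩)
    · exact Or.inl h
    · exact Or.inr ⟨z, mem_union.2 hz, rfl⟩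

/-- the elements of an index set are far, in the part, and have pairwise disjoint sites -/
lemma Ix_data (H : Gr P r) {T : Finset P} (hT : T ∈ Ix i C) :
    (∀ z ∈ T, (i + 2 ≤ lev z ∨ lev z + 2 ≤ i) ∧ z ∈ C) ∧
      ∀ z ∈ T, ∀ z' ∈ T, z ≠ z' → Disjoint (sit i z) (sit i z') := by
  rcases mem_Ix.1 hT with h | ⟨z, hz, rfl⟩
  · obtain ⟨h1, h2, h3⟩ := mem_PR.1 h
    refine ⟨fun z hz => ⟨?_, (num_Chs H (h1 hz)).mC⟩, h3⟩
    rcases Chs_cases H (h1 hz) with g | g | g | g <;> omega
  · refine ⟨fun z' hz' => ?_, fun a ha b hb hab => ?_⟩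
    · rw [mem_singleton] at hz'
      subst hz'
      rcases hz with hz | hz
      · refine ⟨?_, (mem_N1f.1 hz).1⟩
        rcases N1f_lev H hz with g | g <;> omega
      · refine ⟨?_, (mem_N5f.1 hz).1⟩
        rcases N5f_lev H hz with g | g <;> omega
    · rw [mem_singleton] at ha hb
      exact absurd (ha.trans hb.symm) hab

lemma nb_con (H : Gr P r) {z : P} (hz : i + 2 ≤ lev z ∨ lev z + 2 ≤ i) : nb i z ⊆ con i z := by
  intro y hy
  rcases hz with h | h
  · rw [nb_low (by omega)] at hy
    have h1 := lev_uc H hy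
    rw [mem_uc] at hy
    exact mem_con.2 (Or.inl ⟨by omega, hy.le⟩)
  · rw [nb_upp (by omega)] at hy
    have h1 := lev_dc H hy
    rw [mem_dc] at hy
    exact mem_con.2 (Or.inr ⟨by omega, hy.le⟩)

/-- the doubled elements are in the cones -/
lemma dbl_sub (H : Gr P r) {T : Finset P} (hT : T ∈ Ix i C) :
    dbl i C T ⊆ T.biUnion (con i) := by
  intro y hy
  unfold dbl at hy
  rw [mem_biUnion] at hy ⊢
  obtain ⟨z, hz, hy⟩ := hy
  have hz' := (mem_inter.1 hz).1
  have hl := ((Ix_data H hT).1 z hz').1
  refine ⟨z, hz', ?_⟩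
  rw [mem_insert] at hy
  rcases hy with rfl | hy
  · exact self_con (by omega)
  · exact nb_con H hl hy

/-- the support of the configuration -/
lemma Psi_pos (H : Gr P r) {T : Finset P} (hT : T ∈ Ix i C) {y : P} :
    0 < Psi i C T y ↔ y ∈ T.biUnion (con i) := by
  unfold Psi on
  constructor
  · intro h
    by_contra hn
    rw [if_neg hn, if_neg (fun h' => hn (dbl_sub H hT h'))] at h
    omega
  · intro h
    rw [if_pos h]
    omega

lemma Psi_zero (H : Gr P r) {T : Finset P} (hT : T ∈ Ix i C) {y : P}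
    (hy : y ∉ T.biUnion (con i)) : Psi i C T y = 0 := by
  have := (Psi_pos H hT (y := y)).not.2 hy
  omega

/-- the elements of the support are on the sides -/
lemma supp_ns (H : Gr P r) {T : Finset P} (hT : T ∈ Ix i C) {y : P}
    (hy : y ∈ T.biUnion (con i)) : lev y ≠ i ∧ y ∈ T.biUnion (con i) := by
  refine ⟨?_, hy⟩
  rw [mem_biUnion] at hy
  obtain ⟨z, hz, hy⟩ := hy
  have hl := ((Ix_data H hT).1 z hz).1
  exact (con_cls H (z := z) (by omega)).ns y hy

/-- injectivity -/
theorem Psi_inj (H : Gr P r) (hir : i ≤ r) {T T' : Finset P} (hT : T ∈ Ix i C)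
    (hT' : T' ∈ Ix i C) (h : Psi i C T = Psi i C T') : T = T' := by
  have h1 : T.biUnion (con i) = T'.biUnion (con i) := by
    ext y
    rw [← Psi_pos H hT, ← Psi_pos H hT', h]
  have g := Ix_data H hT
  have g' := Ix_data H hT'
  rw [← Mn_biUnion H hir (fun z hz => by have := (g.1 z hz).1; omega) g.2, h1,
    Mn_biUnion H hir (fun z hz => by have := (g'.1 z hz).1; omega) g'.2]

/-- the support is in the part -/
lemma Psi_spt (H : Gr P r) (hC : Part (i + 1) C) {T : Finset P} (hT : T ∈ Ix i C) :
    Spt C (Psi i C T) := by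
  intro y hy
  apply Psi_zero H hT
  rw [mem_biUnion]
  rintro ⟨z, hz, hyz⟩
  have g := (Ix_data H hT).1 z hz
  exact hy (con_sub H hC g.2 (by omega) hyz)

/-- the configurations are cores -/
theorem Psi_core (H : Gr P r) {T : Finset P} (hT : T ∈ Ix i C) :
    IsCore i ∅ psi (Psi i C T) := by
  classical
  intro x hx
  by_contra hne
  have hpos : 0 < Psi i C T x := Nat.pos_of_ne_zero hne
  have h1 := (Psi_pos H hT).1 hpos
  rw [mem_Rst] at hx
  rw [mem_biUnion] at h1
  obtain ⟨z, hz, hxz⟩ := h1
  have g := ((Ix_data H hT).1 z hz).1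
  have hn := hx.1
  unfold near at hn
  rw [mem_filter] at hn
  obtain ⟨q, hq, hq2⟩ := con_step H (z := z) (by omega) hxz (by rintro rfl; omega)
  apply hx.2.2.1
  unfold Tch
  rw [mem_filter]
  refine ⟨mem_univ _, ?_⟩
  have hqp : 0 < Psi i C T q := (Psi_pos H hT).2 (mem_biUnion.2 ⟨z, hz, hq⟩)
  rcases hq2 with ⟨k1, k2⟩ | ⟨k1, k2⟩
  · exact Or.inl ⟨by omega, q, k2, hqp⟩
  · exact Or.inr ⟨by omega, q, k2, hqp⟩

/-- an excited element of the configuration without excited neighbour away from the window is an index -/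
lemma Psi_min (H : Gr P r) (hir : i ≤ r) {T : Finset P} (hT : T ∈ Ix i C) {p : P}
    (hp : 0 < Psi i C T p)
    (h : ∀ x, (i < lev p ∧ x ⋖ p) ∨ (lev p < i ∧ p ⋖ x) → Psi i C T x = 0) : p ∈ T := by
  have g := Ix_data H hT
  rw [← Mn_biUnion H hir (fun z hz => by have := (g.1 z hz).1; omega) g.2, mem_Mn]
  refine ⟨(Psi_pos H hT).1 hp, fun x hx hx2 => ?_⟩
  have h1 := (Psi_pos H hT).2 hx
  rw [h x hx2] at h1
  omega

/-- elements of an index set are no pendants -/
lemma Ix_noPD (H : Gr P r) {T : Finset P} (hT : T ∈ Ix i C) {p : P} (hp : p ∈ T) :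
    p ∉ PD P i ∧ p ∉ PU P i := by
  rcases mem_Ix.1 hT with h | ⟨z, hz, rfl⟩
  · obtain ⟨h1, -, -⟩ := mem_PR.1 h
    constructor
    · intro hq
      obtain ⟨k1, k2⟩ := lev_PD hq
      rcases Chs_cases H (h1 hp) with g | g | g | g
      · have := card_uc_of_up H g.2 (mem_ZL.1 g.1).2.2
        omega
      · omega
      · omega
      · omega
    · intro hq
      obtain ⟨k1, k2⟩ := lev_PU hq
      rcases Chs_cases H (h1 hp) with g | g | g | g
      · omega
      · have := card_dc_of_dn H g.2 (mem_ZU.1 g.1).2.2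
        omega
      · omega
      · omega
  · rw [mem_singleton] at hp
    subst hp
    constructor
    · intro hq
      obtain ⟨k1, k2⟩ := lev_PD hq
      rcases hz with hz | hz
      · rcases N1f_lev H hz with g | g <;> omega
      · rcases N5f_lev H hz with g | g <;> omega
    · intro hq
      obtain ⟨k1, k2⟩ := lev_PU hq
      rcases hz with hz | hz
      · rcases N1f_lev H hz with g | g <;> omega
      · rcases N5f_lev H hz with g | g <;> omega

/-- no reflections -/
theorem Psi_noRef (H : Gr P r) (hir : i ≤ r) {T : Finset P} (hT : T ∈ Ix i C) {y p u p' : P}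
    (D : RefD r i y p u p') : ¬ RefL (Psi i C T) y p u p' ∧ ¬ RefU (Psi i C T) y p u p' := by
  have l1 := D.lp H
  have l2 := D.lp' H
  constructor
  · intro R
    have h1 := R.hp
    have h2 := Psi_min H hir hT (p := p) (by omega) (by
      rintro x (⟨k1, k2⟩ | ⟨k1, k2⟩)
      · exact R.chp x k2
      · omega)
    exact (Ix_noPD H hT h2).1 (refD_PD H D)
  · intro R
    have h1 := R.hp
    have h2 := Psi_min H hir hT (p := p') (by omega) (by
      rintro x (⟨k1, k2⟩ | ⟨k1, k2⟩)
      · omega
      · exact R.abp x k2)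
    exact (Ix_noPD H hT h2).2 (refD_PU H D)

/-- the label of a site is zero -/
lemma Psi_site (H : Gr P r) {T : Finset P} (hT : T ∈ Ix i C) {s : P} (hs : lev s = i) :
    Psi i C T s = 0 := by
  apply Psi_zero H hT
  intro h
  exact (supp_ns H hT h).1 hs

/-- a label two at distance two has a label two behind it -/
lemma Psi_two (H : Gr P r) {T : Finset P} (hT : T ∈ Ix i C) {w : P} (h : 2 ≤ Psi i C T w) :
    (lev w = i + 2 → ∃ z, z ⋖ w ∧ Psi i C T z = 2) ∧
      (lev w + 2 = i → ∃ z, w ⋖ z ∧ Psi i C T z = 2) := by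
  have h1 : w ∈ dbl i C T := by
    by_contra hn
    unfold Psi on at h
    rw [if_neg hn] at h
    split_ifs at h <;> omega
  unfold dbl at h1
  rw [mem_biUnion] at h1
  obtain ⟨z, hz, hw⟩ := h1
  obtain ⟨hz1, hz2⟩ := mem_inter.1 hz
  have hlz := N1f_lev H hz2
  have h2 : Psi i C T z = 2 := by
    unfold Psi on
    rw [if_pos (mem_biUnion.2 ⟨z, hz1, self_con (by omega)⟩), if_pos]
    unfold dbl
    exact mem_biUnion.2 ⟨z, hz, mem_insert_self _ _⟩
  rw [mem_insert] at hw
  constructor
  · intro hl
    rcases hw with rfl | hw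
    · omega
    · rcases Nat.lt_or_ge i (lev z) with k | k
      · rw [nb_low k] at hw
        exact ⟨z, mem_uc.1 hw, h2⟩
      · rw [nb_upp (by omega)] at hw
        have := lev_dc H hw
        omega
  · intro hl
    rcases hw with rfl | hw
    · omega
    · rcases Nat.lt_or_ge i (lev z) with k | k
      · rw [nb_low k] at hw
        have := lev_uc H hw
        omega
      · rw [nb_upp (by omega)] at hw
        exact ⟨z, mem_dc.1 hw, h2⟩

/-- no toggles -/
theorem Psi_noTogL (H : Gr P r) {T : Finset P} (hT : T ∈ Ix i C) {w x x' a s b : P} :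
    ¬ TogL i (Psi i C T) w x x' a s b := by
  intro G
  have h1 := TogL.four G
  have h2 := Psi_site H hT (G.ls H)
  obtain ⟨z, hz, hz2⟩ := (Psi_two H hT (w := w) (by omega)).1 G.lw
  have := G.cw z hz
  omega

theorem Psi_noTogU (H : Gr P r) {T : Finset P} (hT : T ∈ Ix i C) {w x x' a s b : P} :
    ¬ TogU i (Psi i C T) w x x' a s b := by
  intro G
  have h1 := TogU.four G
  have h2 := Psi_site H hT (G.ls H)
  obtain ⟨z, hz, hz2⟩ := (Psi_two H hT (w := w) (by omega)).2 G.lw
  have := G.cw z hz
  omega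

end Pool.Agent.GaussPoset.Win.SO

end

/-! From `Pool.Agent.W_448so_h64.SoP` -/

section

/-!
SECOND ORDER THEOREM (MP_448cb3_co, proofs row 476): the leftover configurations of energy six are exactly the
configurations of the index set; their values.
-/

namespace Pool.Agent.GaussPoset.Win.SO

set_option linter.unusedSectionVars false

open Finset
open Pool.Agent.GaussPoset.Win.I2 (lS uS mem_lS mem_uS)
open Pool.Agent.GaussPoset.Win.So (TogL TogU RefL RefU RefD)

universe u

variable {P : Type u} [Fintype P] [PartialOrder P] [DecidableEq P] {r i : ℕ} {psi : P → P}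
  {e : P → ℕ} {C : Finset P}

lemma on_eq {s : Finset P} (h : On e s) : e = on s := by
  funext y
  rw [h y]
  rfl

/-- charged elements are not in `N1f` -/
lemma Chs_N1f (H : Gr P r) {z : P} (hz : z ∈ Chs i C) : z ∉ N1f i C := by
  intro h
  rcases Chs_cases H hz with g | g | g | g
  · rcases N1f_lev H h with k | k <;> omega
  · rcases N1f_lev H h with k | k <;> omega
  · rcases N1f_lev H h with ⟨k, w, hw, hw2⟩ | k
    · obtain ⟨p, y, g1, g2, g3, g4, g5, g6⟩ := FL_data H g.1
      have h1 : p = w := by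
        rw [hw2, singleton_inj] at g1
        exact g1.symm
      have h2 := card_uc_of_up H (mem_ZL.1 hw).2.1 (mem_ZL.1 hw).2.2
      rw [← h1, g2] at h2
      simp at h2
    · omega
  · rcases N1f_lev H h with k | ⟨k, w, hw, hw2⟩
    · omega
    · obtain ⟨p, y, g1, g2, g3, g4, g5, g6⟩ := FU_data H g.1
      have h1 : p = w := by
        rw [hw2, singleton_inj] at g1
        exact g1.symm
      have h2 := card_dc_of_dn H (mem_ZU.1 hw).2.1 (mem_ZU.1 hw).2.2
      rw [← h1, g2] at h2
      simp at h2

lemma N5f_N1f (H : Gr P r) {z : P} (hz : z ∈ N5f i C) : z ∉ N1f i C := by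
  intro h
  rcases N5f_lev H hz with ⟨k, p, w, h0, h2, h3, h4⟩ | ⟨k, p, w, h0, h2, h3, h4⟩
  · rcases N1f_lev H h with ⟨k', w', hw, hw2⟩ | k'
    · have h5 : p = w := by
        have g1 : p ∈ uc z := by rw [h3]; simp
        have g2 : w ∈ uc z := by rw [h3]; simp
        rw [hw2, mem_singleton] at g1 g2
        rw [g1, g2]
      have h6 := card_uc_of_up H (mem_ZL.1 h2).2.1 (mem_ZL.1 h2).2.2
      have h7 := (lev_PD h0).2
      rw [h5] at h7
      omega
    · omega
  · rcases N1f_lev H h with k' | ⟨k', w', hw, hw2⟩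
    · omega
    · have h5 : p = w := by
        have g1 : p ∈ dc z := by rw [h3]; simp
        have g2 : w ∈ dc z := by rw [h3]; simp
        rw [hw2, mem_singleton] at g1 g2
        rw [g1, g2]
      have h6 := card_dc_of_dn H (mem_ZU.1 h2).2.1 (mem_ZU.1 h2).2.2
      have h7 := (lev_PU h0).2
      rw [h5] at h7
      omega

/-- without `N1f` the configuration is an indicator -/
lemma Psi_on {T : Finset P} (h : ∀ z ∈ T, z ∉ N1f i C) : Psi i C T = on (T.biUnion (con i)) := by
  have h1 : dbl i C T = ∅ := by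
    unfold dbl
    have : T ∩ N1f i C = ∅ := by
      rw [eq_empty_iff_forall_notMem]
      intro z hz
      rw [mem_inter] at hz
      exact h z hz.1 hz.2
    rw [this]
    rfl
  funext y
  unfold Psi
  rw [h1]
  unfold on
  simp

lemma on_sum (s : Finset P) : ∑ x, on s x = s.card := by
  unfold on
  rw [Finset.sum_boole]
  simp

/-- a pair of charged elements with disjoint sites -/
lemma pr_of (H : Gr P r) (hir : i ≤ r) {z z' : P} (hz : z ∈ Chs i C) (hz' : z' ∈ Chs i C)
    (hd : Disjoint (sit i z) (sit i z')) :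
    ({z, z'} : Finset P) ∈ PR i C ∧ Psi i C {z, z'} = on (con i z ∪ con i z') := by
  have hne : z ≠ z' := by
    rintro rfl
    obtain ⟨v, hv⟩ := sit_ne H hir (num_Chs H hz).ns
    exact disjoint_left.1 hd hv hv
  constructor
  · rw [mem_PR]
    refine ⟨?_, card_pair hne, ?_⟩
    · intro y hy
      rw [mem_insert, mem_singleton] at hy
      rcases hy with rfl | rfl
      · exact hz
      · exact hz'
    · intro a ha b hb hab
      rw [mem_insert, mem_singleton] at ha hb
      rcases ha with rfl | rfl <;> rcases hb with rfl | rfl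
      · exact absurd rfl hab
      · exact hd
      · exact hd.symm
      · exact absurd rfl hab
  · rw [Psi_on, biUnion_insert, singleton_biUnion]
    intro a ha
    rw [mem_insert, mem_singleton] at ha
    rcases ha with rfl | rfl
    · exact Chs_N1f H hz
    · exact Chs_N1f H hz'

/-- disjoint sites: the numbers of the union -/
theorem pair_value (H : Gr P r) (hi : 1 ≤ i) (hi2 : i + 1 ≤ r) (hC : Part (i + 1) C)
    {z z' : P} (hz : z ∈ Chs i C) (hz' : z' ∈ Chs i C)
    (hd : Disjoint (sit i z) (sit i z')) :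
    ∑ x, on (con i z ∪ con i z') x = 6 ∧
    PowerSeries.coeff (st i C).card (dd ^ 2 * tC i C (on (con i z ∪ con i z')) : A) =
      chg i C z * chg i C z' := by
  have hir : i ≤ r := by omega
  have N := num_Chs H hz
  have N' := num_Chs H hz'
  have hcd := con_disj H hir N.ns N'.ns hd
  constructor
  · rw [on_sum, card_union_of_disjoint hcd, N.three, N'.three]
  have hs : Cls i (con i z ∪ con i z') := by
    have c1 := con_cls H N.ns
    have c2 := con_cls H N'.ns
    constructor
    · intro x hx
      rcases mem_union.1 hx with hx | hx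
      · exact c1.ns x hx
      · exact c2.ns x hx
    · intro x hx hl y hy
      rcases mem_union.1 hx with hx | hx
      · exact mem_union_left _ (c1.lo x hx hl y hy)
      · exact mem_union_right _ (c2.lo x hx hl y hy)
    · intro x hx hl y hy
      rcases mem_union.1 hx with hx | hx
      · exact mem_union_left _ (c1.up x hx hl y hy)
      · exact mem_union_right _ (c2.up x hx hl y hy)
  have hsC : con i z ∪ con i z' ⊆ C :=
    union_subset (con_sub H hC N.mC N.ns) (con_sub H hC N'.mC N'.ns)
  have s1 := sit_con H N.ns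
  have s1' := sit_con H N'.ns
  have a1 : BL i (con i z) ⊆ sit i z := by rw [← s1]; exact subset_union_left
  have a2 : BU i (con i z) ⊆ sit i z := by rw [← s1]; exact subset_union_right
  have a1' : BL i (con i z') ⊆ sit i z' := by rw [← s1']; exact subset_union_left
  have a2' : BU i (con i z') ⊆ sit i z' := by rw [← s1']; exact subset_union_right
  have own : ∀ {y : P}, lev y ≠ i → Disjoint (BL i (con i y)) (BU i (con i y)) := by
    intro y hy
    rcases Nat.lt_or_gt_of_ne hy with h | h
    · rw [BL_con_upp H h]; exact disjoint_empty_left _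
    · rw [BU_con_low H h]; exact disjoint_empty_right _
  have d1 : Disjoint (BL i (con i z)) (BL i (con i z')) := disjoint_of_subset_left a1
    (disjoint_of_subset_right a1' hd)
  have d2 : Disjoint (BU i (con i z)) (BU i (con i z')) := disjoint_of_subset_left a2
    (disjoint_of_subset_right a2' hd)
  have d3 : Disjoint (nL i (con i z)) (nL i (con i z')) := disjoint_of_subset_left
    (filter_subset _ _) (disjoint_of_subset_right (filter_subset _ _) hcd)
  have d4 : Disjoint (nU i (con i z)) (nU i (con i z')) := disjoint_of_subset_left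
    (filter_subset _ _) (disjoint_of_subset_right (filter_subset _ _) hcd)
  have hdis : Disjoint (BL i (con i z ∪ con i z')) (BU i (con i z ∪ con i z')) := by
    rw [BL_union, BU_union, disjoint_union_left, disjoint_union_right, disjoint_union_right]
    exact ⟨⟨own N.ns, disjoint_of_subset_left a1 (disjoint_of_subset_right a2' hd)⟩,
      disjoint_of_subset_left a1' (disjoint_of_subset_right a2 hd.symm), own N'.ns⟩
  have c1 : (BL i (con i z ∪ con i z')).card = (BL i (con i z)).card + (BL i (con i z')).card := by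
    rw [BL_union, card_union_of_disjoint d1]
  have c2 : (BU i (con i z ∪ con i z')).card = (BU i (con i z)).card + (BU i (con i z')).card := by
    rw [BU_union, card_union_of_disjoint d2]
  have c3 : (nL i (con i z ∪ con i z')).card = (nL i (con i z)).card + (nL i (con i z')).card := by
    rw [nL_union, card_union_of_disjoint d3]
  have c4 : (nU i (con i z ∪ con i z')).card = (nU i (con i z)).card + (nU i (con i z')).card := by
    rw [nU_union, card_union_of_disjoint d4]
  have n1 := N.num
  have n2 := N'.num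
  rw [on_coeff H hi hi2 hC hs hsC hdis (by omega), N.sgn, N'.sgn, c1, c4, ← pow_add]
  congr 1
  ring

/-- the value of a pair -/
theorem PR_value (H : Gr P r) (hi : 1 ≤ i) (hi2 : i + 1 ≤ r) (hC : Part (i + 1) C)
    {T : Finset P} (hT : T ∈ PR i C) :
    ∑ x, Psi i C T x = 6 ∧
    PowerSeries.coeff (st i C).card (dd ^ 2 * tC i C (Psi i C T) : A) = ∏ z ∈ T, chg i C z := by
  have hir : i ≤ r := by omega
  obtain ⟨h1, h2, h3⟩ := mem_PR.1 hT
  obtain ⟨z, z', hne, rfl⟩ := card_eq_two.1 h2
  have hz := h1 (show z ∈ ({z, z'} : Finset P) by simp)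
  have hz' := h1 (show z' ∈ ({z, z'} : Finset P) by simp)
  have hd := h3 z (by simp) z' (by simp) hne
  have h4 := (pr_of H hir hz hz' hd).2
  have h5 := pair_value H hi hi2 hC hz hz' hd
  rw [h4, prod_pair hne]
  exact h5

/-- cone and numbers of `N5f` -/
theorem N5_value (H : Gr P r) (hi : 1 ≤ i) (hi2 : i + 1 ≤ r) (hC : Part (i + 1) C)
    {z : P} (hz : z ∈ N5f i C) :
    ∑ x, Psi i C {z} x = 6 ∧
    PowerSeries.coeff (st i C).card (dd ^ 2 * tC i C (Psi i C {z}) : A) = -1 := by
  have hps : Psi i C {z} = on (con i z) := by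
    rw [Psi_on, singleton_biUnion]
    intro a ha
    rw [mem_singleton] at ha
    subst ha
    exact N5f_N1f H hz
  have hzC := (mem_N5f.1 hz).1
  rw [hps, on_sum]
  rcases N5f_lev H hz with ⟨k, p, w, h0, h2, h3, h4⟩ | ⟨k, p, w, h0, h2, h3, h4⟩
  · obtain ⟨p1, p2, y, hy, hyc⟩ := mem_PD.1 h0
    have hpy : uc p = {y} := by
      obtain ⟨q, hq⟩ := card_eq_one.1 p2
      have : y ∈ uc p := mem_uc.2 hy
      rw [hq, mem_singleton] at this
      rw [hq, this]
    have hly := lev_uc H (mem_uc.2 hy)
    obtain ⟨w0, w1, w2⟩ := mem_ZL.1 h2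
    have hwc := card_uc_of_up H w1 w2
    have hpw : p ≠ w := by rintro rfl; omega
    have hcon : con i z = {z, p, y} ∪ (insert w (uc w)) := by
      rw [con_rec_low H (by omega), h3, biUnion_insert, singleton_biUnion, con_two_low H p1,
        con_two_low H w1, hpy]
      ext v
      simp only [mem_insert, mem_union, mem_singleton]
      tauto
    have hyw : y ∉ uc w := by
      intro h
      obtain ⟨v, hv⟩ := uc_nonempty H (x := y) (by omega)
      exact disjoint_left.1 h4 ((mem_sts_iff H p1).2 ⟨y, by rw [hpy]; simp, hv⟩)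
        ((mem_sts_iff H w1).2 ⟨y, h, hv⟩)
    have hlw : ∀ v ∈ uc w, lev v = i + 1 := fun v hv => by have := lev_uc H hv; omega
    have hcard : (con i z).card = 6 := by
      rw [hcon, card_union_of_disjoint, card_insert_of_notMem, card_insert_of_notMem,
        card_singleton, card_insert_of_notMem, hwc]
      · intro h; have := hlw w h; omega
      · rw [mem_singleton]; rintro rfl; omega
      · rw [mem_insert, mem_singleton]; rintro (rfl | rfl) <;> omega
      · rw [disjoint_left]
        intro v hv hv'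
        rw [mem_insert, mem_insert, mem_singleton] at hv
        rw [mem_insert] at hv'
        rcases hv with rfl | rfl | rfl
        · rcases hv' with rfl | hv'
          · omega
          · have := hlw v hv'; omega
        · rcases hv' with rfl | hv'
          · exact hpw rfl
          · have := hlw v hv'; omega
        · rcases hv' with rfl | hv'
          · omega
          · exact hyw hv'
    have hnL : (nL i (con i z)).card = 3 := by
      have : nL i (con i z) = insert y (uc w) := by
        rw [hcon]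
        ext v
        rw [mem_nL]
        simp only [mem_insert, mem_union, mem_singleton]
        constructor
        · rintro ⟨(rfl | rfl | rfl) | (rfl | h), hl⟩
          · omega
          · omega
          · exact Or.inl rfl
          · omega
          · exact Or.inr h
        · rintro (rfl | h)
          · exact ⟨Or.inl (Or.inr (Or.inr rfl)), by omega⟩
          · exact ⟨Or.inr (Or.inr h), hlw v h⟩
      rw [this, card_insert_of_notMem hyw, hwc]
    have hBL : (BL i (con i z)).card = 5 := by
      have e1 : BL i (con i z) = uc y ∪ sts i w := by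
        rw [hcon]
        ext v
        rw [mem_BL, mem_union, mem_sts_iff H w1]
        constructor
        · rintro ⟨hv, x, hx, hxv⟩
          have := lev_uc H (mem_uc.2 hxv)
          simp only [mem_insert, mem_union, mem_singleton] at hx
          rcases hx with (rfl | rfl | rfl) | (rfl | h)
          · omega
          · omega
          · exact Or.inl (mem_uc.2 hxv)
          · omega
          · exact Or.inr ⟨x, h, mem_uc.2 hxv⟩
        · rintro (h | ⟨x, hx, hxv⟩)
          · have := lev_uc H h
            exact ⟨by omega, y, by simp, mem_uc.1 h⟩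
          · have h5 := lev_uc H hxv
            have h6 := hlw x hx
            exact ⟨by omega, x, by simp [hx], mem_uc.1 hxv⟩
      have e2 : Disjoint (uc y) (sts i w) := by
        refine disjoint_of_subset_left ?_ h4
        intro v hv
        exact (mem_sts_iff H p1).2 ⟨y, by rw [hpy]; simp, hv⟩
      rw [e1, card_union_of_disjoint e2, hyc, card_sts, w2]
    refine ⟨hcard, ?_⟩
    have hBU := BU_con_low H (i := i) (z := z) (by omega)
    have hnU := nU_con_low H (i := i) (z := z) (by omega)
    rw [on_coeff H hi hi2 hC (con_cls H (by omega)) (con_sub H hC hzC (by omega)), hBL, hnU]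
    · norm_num
    · rw [hBU]; exact disjoint_empty_right _
    · rw [hBL, hBU, hnL, hnU, card_empty]
  · obtain ⟨p1, p2, y, hy, hyc⟩ := mem_PU.1 h0
    have hpy : dc p = {y} := by
      obtain ⟨q, hq⟩ := card_eq_one.1 p2
      have : y ∈ dc p := mem_dc.2 hy
      rw [hq, mem_singleton] at this
      rw [hq, this]
    have hly := lev_dc H (mem_dc.2 hy)
    obtain ⟨w0, w1, w2⟩ := mem_ZU.1 h2
    have hwc := card_dc_of_dn H w1 w2
    have hpw : p ≠ w := by rintro rfl; omega
    have hcon : con i z = {z, p, y} ∪ (insert w (dc w)) := by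
      rw [con_rec_upp H (by omega), h3, biUnion_insert, singleton_biUnion, con_two_upp H p1,
        con_two_upp H w1, hpy]
      ext v
      simp only [mem_insert, mem_union, mem_singleton]
      tauto
    have hyw : y ∉ dc w := by
      intro h
      obtain ⟨v, hv⟩ := dc_nonempty H (x := y) (by omega)
      exact disjoint_left.1 h4 ((mem_stD_iff H p1).2 ⟨y, by rw [hpy]; simp, hv⟩)
        ((mem_stD_iff H w1).2 ⟨y, h, hv⟩)
    have hlw : ∀ v ∈ dc w, lev v + 1 = i := fun v hv => by have := lev_dc H hv; omega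
    have hcard : (con i z).card = 6 := by
      rw [hcon, card_union_of_disjoint, card_insert_of_notMem, card_insert_of_notMem,
        card_singleton, card_insert_of_notMem, hwc]
      · intro h; have := hlw w h; omega
      · rw [mem_singleton]; rintro rfl; omega
      · rw [mem_insert, mem_singleton]; rintro (rfl | rfl) <;> omega
      · rw [disjoint_left]
        intro v hv hv'
        rw [mem_insert, mem_insert, mem_singleton] at hv
        rw [mem_insert] at hv'
        rcases hv with rfl | rfl | rfl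
        · rcases hv' with rfl | hv'
          · omega
          · have := hlw v hv'; omega
        · rcases hv' with rfl | hv'
          · exact hpw rfl
          · have := hlw v hv'; omega
        · rcases hv' with rfl | hv'
          · omega
          · exact hyw hv'
    have hnU : (nU i (con i z)).card = 3 := by
      have : nU i (con i z) = insert y (dc w) := by
        rw [hcon]
        ext v
        rw [mem_nU]
        simp only [mem_insert, mem_union, mem_singleton]
        constructor
        · rintro ⟨(rfl | rfl | rfl) | (rfl | h), hl⟩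
          · omega
          · omega
          · exact Or.inl rfl
          · omega
          · exact Or.inr h
        · rintro (rfl | h)
          · exact ⟨Or.inl (Or.inr (Or.inr rfl)), by omega⟩
          · exact ⟨Or.inr (Or.inr h), hlw v h⟩
      rw [this, card_insert_of_notMem hyw, hwc]
    have hBU : (BU i (con i z)).card = 5 := by
      have e1 : BU i (con i z) = dc y ∪ stD i w := by
        rw [hcon]
        ext v
        rw [mem_BU, mem_union, mem_stD_iff H w1]
        constructor
        · rintro ⟨hv, x, hx, hxv⟩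
          have := lev_dc H (mem_dc.2 hxv)
          simp only [mem_insert, mem_union, mem_singleton] at hx
          rcases hx with (rfl | rfl | rfl) | (rfl | h)
          · omega
          · omega
          · exact Or.inl (mem_dc.2 hxv)
          · omega
          · exact Or.inr ⟨x, h, mem_dc.2 hxv⟩
        · rintro (h | ⟨x, hx, hxv⟩)
          · have := lev_dc H h
            exact ⟨by omega, y, by simp, mem_dc.1 h⟩
          · have h5 := lev_dc H hxv
            have h6 := hlw x hx
            exact ⟨by omega, x, by simp [hx], mem_dc.1 hxv⟩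
      have e2 : Disjoint (dc y) (stD i w) := by
        refine disjoint_of_subset_left ?_ h4
        intro v hv
        exact (mem_stD_iff H p1).2 ⟨y, by rw [hpy]; simp, hv⟩
      rw [e1, card_union_of_disjoint e2, hyc, card_stD, w2]
    refine ⟨hcard, ?_⟩
    have hBL := BL_con_upp H (i := i) (z := z) (by omega)
    have hnL := nL_con_upp H (i := i) (z := z) (by omega)
    rw [on_coeff H hi hi2 hC (con_cls H (by omega)) (con_sub H hC hzC (by omega)), hnU, hBL]
    · norm_num
    · rw [hBL]; exact disjoint_empty_left _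
    · rw [hBL, hBU, hnL, hnU, card_empty]

end Pool.Agent.GaussPoset.Win.SO

end
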