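import Mathlib
import Pool.Agent.W_448zz_h61.Ns
import Pool.Agent.W_448zz_h61.M091
import Pool.Agent.W_448zz_h61.M096
import Pool.Agent.W_448zz_h61.M107

/-! From `Pool.Agent.W_448so_h64.SoL` -/

section

/-!
SECOND ORDER THEOREM (MP_448cb3_co, proofs row 476): energy at most five, arbitrary parts.
-/

namespace Pool.Agent.GaussPoset.Win.SO

set_option linter.unusedSectionVars false

open Finset
open Pool.Agent.GaussPoset.Win.I2 (lS uS mem_lS mem_uS)
open Pool.Agent.GaussPoset.Win.So (TogL TogU RefL RefU RefD red up2 up2_y up2_p up2_ne)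

universe u

variable {P : Type u} [Fintype P] [PartialOrder P] [DecidableEq P] {r i : ℕ} {psi : P → P}
  {e : P → ℕ} {C : Finset P}

/-- general parts: closed pairs below the window and flips are allowed -/
structure PS5 (r i : ℕ) (psi : P → P) (C : Finset P) : Prop extends PSO r i psi C where
  ncu : ∀ w ∈ C, ∀ w' ∈ C, ∀ x x' : P, lev w + 2 = i → x ≠ x' → dc w = {x, x'} →
    dc w' = {x, x'} → (dc x).card = 2 → (dc x').card = 2 → w = w'
  fl : ∀ p ∈ C, ∀ p' ∈ C, ∀ y u, p ∈ PD P i → p' ∈ PU P i → uc p = {y} → dc p' = {u} →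
    u = psi y ∨ ∃ s, uc y ∩ dc u = {s}

/-- the special classes at energy five: closed pairs and flips -/
def K1 (i : ℕ) (e : P → ℕ) : Prop :=
  Clo uc (tL (P := P) i) (lS P i) e ∨
  ∃ p y p' u s, Pen uc (tL (P := P) i) (lS P i) p y ∧ Pen dc (tU (P := P) i) (uS P i) p' u ∧
    0 < e p ∧ 0 < e p' ∧ uc y ∩ dc u = {s}

/-- the explicit closed pair configurations -/
def Clx (i : ℕ) (e : P → ℕ) : Prop :=
  ∃ w w' x x' s, TD uc (tL (P := P) i) (lS P i) w x x' s ∧
    TD uc (tL (P := P) i) (lS P i) w' x x' s ∧ w ≠ w' ∧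
    ((∀ y, e y = if y = w then 2 else if y = w' ∨ y = x ∨ y = x' then 1 else 0) ∨
      On e {w, w', x, x', s})

/-- the explicit flip configuration -/
def Flx (i : ℕ) (e : P → ℕ) : Prop :=
  ∃ p y p' u s, Pen uc (tL (P := P) i) (lS P i) p y ∧ Pen dc (tU (P := P) i) (uS P i) p' u ∧
    uc y ∩ dc u = {s} ∧ On e {p, y, s, u, p'}

lemma PS5.noCloU (Q : PS5 r i psi C) (hs : Spt C e) : ¬ Clo dc (tU (P := P) i) (uS P i) e := by
  rintro ⟨w, w', x, x', h1, h2, h3, h4, h5, h6, h7, h8, h9, h10, h11, h12⟩
  rw [mem_uS] at h1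
  unfold tU at h3
  exact h5 (Q.ncu w (mem_of_spt hs h11) w' (mem_of_spt hs h12) x x' (by omega) h6 h7 h8 h9 h10)

end Pool.Agent.GaussPoset.Win.SO

end

/-! From `Pool.Agent.W_448so_h61.CC` -/

section

/-!
SECOND ORDER THEOREM (MP_448cb3_co, proofs row 476): the base formula for a part.
-/

namespace Pool.Agent.GaussPoset.Win

set_option linter.unusedSectionVars false

open Finset OrderDual

universe u

variable {P : Type u} [Fintype P] [PartialOrder P] [DecidableEq P] {r i : ℕ} {psi : P → P}
  {C : Finset P}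

/-- at most three sites above an element of level `i + 2` -/
lemma so_up3 (H : Gr P r) (hN : SO.NLL P i) {z : P} (hz : lev z = i + 2) : up i z ≤ 3 := by
  classical
  rw [← card_sts]
  have h1 : sts i z = (uc z).biUnion uc := by
    ext v
    rw [mem_sts_iff H hz, mem_biUnion]
  rw [h1]
  have h2 := uc_card_le H z
  rcases Nat.lt_or_ge (uc z).card 2 with h3 | h3
  · have h4 : ((uc z).biUnion uc).card ≤ ∑ w ∈ uc z, (uc w).card := Finset.card_biUnion_le
    have h5 : ∑ w ∈ uc z, (uc w).card ≤ ∑ _w ∈ uc z, 2 :=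
      Finset.sum_le_sum (fun w _ => uc_card_le H w)
    rw [Finset.sum_const, smul_eq_mul] at h5
    omega
  · obtain ⟨y, y', hne, huc⟩ := Finset.card_eq_two.1 (show (uc z).card = 2 by omega)
    have hy : y ∈ uc z := by rw [huc]; simp
    have hy' : y' ∈ uc z := by rw [huc]; simp
    have h4 := hN z (by rw [I2.mem_lS]; omega) (by unfold SO.tL; omega) y hy y' hy' hne
    rw [huc, Finset.biUnion_insert, Finset.singleton_biUnion]
    have h6 := Finset.card_union_add_card_inter (uc y) (uc y')
    have h8 := uc_card_le H y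
    have h9 := uc_card_le H y'
    omega

/-- at most three sites below an element of level `i - 2` -/
lemma so_dn3 (H : Gr P r) (hN : SO.NLU P i) {x : P} (hx : lev x + 2 = i) : dn i x ≤ 3 := by
  classical
  rw [← card_stD]
  have h1 : stD i x = (dc x).biUnion dc := by
    ext v
    rw [mem_stD_iff H hx, mem_biUnion]
  rw [h1]
  have h2 := dc_card_le H x
  rcases Nat.lt_or_ge (dc x).card 2 with h3 | h3
  · have h4 : ((dc x).biUnion dc).card ≤ ∑ w ∈ dc x, (dc w).card := Finset.card_biUnion_le
    have h5 : ∑ w ∈ dc x, (dc w).card ≤ ∑ _w ∈ dc x, 2 :=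
      Finset.sum_le_sum (fun w _ => dc_card_le H w)
    rw [Finset.sum_const, smul_eq_mul] at h5
    omega
  · obtain ⟨y, y', hne, hdc⟩ := Finset.card_eq_two.1 (show (dc x).card = 2 by omega)
    have hy : y ∈ dc x := by rw [hdc]; simp
    have hy' : y' ∈ dc x := by rw [hdc]; simp
    have h4 := hN x (by rw [I2.mem_uS]; omega) (by unfold SO.tU; omega) y hy y' hy' hne
    rw [hdc, Finset.biUnion_insert, Finset.singleton_biUnion]
    have h6 := Finset.card_union_add_card_inter (dc y) (dc y')
    have h8 := dc_card_le H y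
    have h9 := dc_card_le H y'
    omega

/-- the base formula (copy of `base3`, from the matching and the numbers of sites) -/
theorem so_base3 (H : Gr P r) (hi : 1 ≤ i) (hi2 : i + 1 ≤ r) (hM : Mat P i ∅ psi)
    (h3 : ∀ z : P, lev z = i + 2 → up i z ≤ 3) (h3' : ∀ x : P, lev x + 2 = i → dn i x ≤ 3)
    (hC : Part (i + 1) C) :
    dd ^ (st i C).card ∣ ∑ e ∈ (Dm i C).piAntidiag 3, tC i C e -
      (((ZL i C).card : A) * (xx ^ 3 * dd ^ ((st i C).card - 1)) +
        ((ZU i C).card : A) * (xi ^ 2 * dd ^ ((st i C).card - 1))) := by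
  classical
  have hC' : Part i C := ⟨fun h1 h2 => hC.up h1 h2, fun h1 h2 h3 => hC.dn h1 (by omega) h3⟩
  have hDC : Dm i C ⊆ C := fun x hx => (mem_Dm.1 hx).1
  have hD : ∀ x ∈ C, x ∈ near P i → x ∈ Dm i C := by
    intro x hx hn
    rw [mem_near] at hn
    refine mem_Dm.2 ⟨hx, fun h => ?_, fun h => ?_⟩
    · have := (lev_PD h).1
      omega
    · have := (lev_PU h).1
      omega
  have hcls : ∀ e : P → ℕ, IsCore i ∅ psi e → Spt (Dm i C) e → ∑ x, e x ≤ 3 →
      Rk (st i C) 0 (Fe i e) ∨ (∃ z, lev z = i + 2 ∧ up i z = 3 ∧ e = cl z) ∨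
      (∃ x, lev x + 2 = i ∧ dn i x = 3 ∧ e = cu x) := by
    intro e he hs hn
    rcases cl3 H hi hi2 hM h3 h3' (e := e) (fun z hz => hs z fun h => (mem_Dm.1 h).2.1 hz)
      (fun z hz => hs z fun h => (mem_Dm.1 h).2.2 hz) he hn with h | h
    · exact Or.inl (Rk_sub (st_sub i C) h)
    · exact Or.inr h
  have h1 := core_part H hi hi2 hC hDC hD hM 3 (by
    intro e he hs hn
    rcases hcls e he hs (by omega) with h | ⟨z, hz, hz2, rfl⟩ | ⟨z, hz, hz2, rfl⟩
    · exact h
    · rw [clb_sum_cl, card_uc_of_up H hz hz2] at hn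
      omega
    · rw [sum_cu H, card_dc_of_dn H hz hz2] at hn
      omega)
  set F := (Dm i C).piAntidiag 3 |>.filter
    (fun e => IsCore i ∅ psi e ∧ ¬ Rk (st i C) 0 (Fe i e)) with hF
  set T := (ZL i C).image cl ∪ (ZU i C).image cu with hT
  have hFT : F ⊆ T := by
    intro e he
    rw [hF, mem_filter, mem_piA] at he
    obtain ⟨⟨h4, h5⟩, h6, h7⟩ := he
    rw [hT, mem_union, mem_image, mem_image]
    rcases hcls e h6 h5 (by omega) with h | ⟨z, hz, hz2, rfl⟩ | ⟨z, hz, hz2, rfl⟩
    · exact absurd h h7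
    · left
      refine ⟨z, mem_ZL.2 ⟨?_, hz, hz2⟩, rfl⟩
      by_contra hzC
      have := h5 z fun h => hzC (hDC h)
      rw [ExpC_cl_z] at this
      omega
    · right
      refine ⟨z, mem_ZU.2 ⟨?_, hz, hz2⟩, rfl⟩
      by_contra hzC
      have := h5 z fun h => hzC (hDC h)
      rw [ExpD_cu_x] at this
      omega
  have hTF : ∀ e ∈ T \ F, dd ^ (st i C).card ∣ tC i C e := by
    intro e he
    rw [mem_sdiff, hT, mem_union, mem_image, mem_image, hF, mem_filter, mem_piA] at he
    obtain ⟨h4, h5⟩ := he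
    have key : ∑ x, e x = 3 ∧ Spt (Dm i C) e ∧ IsCore i ∅ psi e ∧ Spt C e := by
      rcases h4 with ⟨z, hz, rfl⟩ | ⟨z, hz, rfl⟩
      · rw [mem_ZL] at hz
        refine ⟨by rw [clb_sum_cl, card_uc_of_up H hz.2.1 hz.2.2], ?_,
          core_cl H hz.2.1, spt_cl hC' hz.1⟩
        intro x hx
        by_contra h
        apply hx
        have hxC : x ∈ C := by
          by_contra h6
          exact h (spt_cl hC' hz.1 x h6)
        refine mem_Dm.2 ⟨hxC, fun h6 => ?_, fun h6 => ?_⟩
        · have h7 := lev_PD h6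
          rcases ExpC_cl_pos (z := z) (x := x) (Nat.pos_of_ne_zero h) with h8 | h8
          · rw [h8] at h7
            have := card_uc_of_up H hz.2.1 hz.2.2
            omega
          · have := lev_uc H h8
            omega
        · have h7 := lev_PU h6
          exact h (cl_up_zero H hz.2.1 x (by omega))
      · rw [mem_ZU] at hz
        refine ⟨by rw [sum_cu H, card_dc_of_dn H hz.2.1 hz.2.2], ?_,
          core_cu H hz.2.1, spt_cu hC' hz.1 (by omega)⟩
        intro x hx
        by_contra h
        apply hx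
        have hxC : x ∈ C := by
          by_contra h6
          exact h (spt_cu hC' hz.1 (by omega) x h6)
        refine mem_Dm.2 ⟨hxC, fun h6 => ?_, fun h6 => ?_⟩
        · have h7 := lev_PD h6
          exact h (cu_low_zero H hz.2.1 x (by omega))
        · have h7 := lev_PU h6
          rcases cu_pos (x := z) (y := x) (Nat.pos_of_ne_zero h) with h8 | h8
          · rw [h8] at h7
            have := card_dc_of_dn H hz.2.1 hz.2.2
            omega
          · have := lev_dc H h8
            omega
    have h6 : Rk (st i C) 0 (Fe i e) := by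
      by_contra h7
      exact h5 ⟨⟨key.1, key.2.1⟩, key.2.2.1, h7⟩
    rw [tC_IV H hC' key.2.2.2]
    have := Rk_IV h6
    simpa using this
  have hsum : ∑ e ∈ T, tC i C e = ∑ z ∈ ZL i C, tC i C (cl z) + ∑ z ∈ ZU i C, tC i C (cu z) := by
    rw [hT, Finset.sum_union, Finset.sum_image, Finset.sum_image]
    · intro z hz z' hz' h
      rw [mem_coe, mem_ZU] at hz hz'
      have h4 : cu z z' = 1 := by rw [h, ExpD_cu_x]
      rcases cu_pos (x := z) (y := z') (by omega) with h5 | h5
      · exact h5.symm
      · have := lev_dc H h5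
        omega
    · intro z hz z' hz' h
      rw [mem_coe, mem_ZL] at hz hz'
      have h4 : cl z z' = 1 := by rw [h, ExpC_cl_z]
      rcases ExpC_cl_pos (z := z) (x := z') (by omega) with h5 | h5
      · exact h5.symm
      · have := lev_uc H h5
        omega
    · rw [Finset.disjoint_left]
      intro e he he'
      rw [mem_image] at he he'
      obtain ⟨z, hz, rfl⟩ := he
      obtain ⟨z', hz', h⟩ := he'
      rw [mem_ZL] at hz
      rw [mem_ZU] at hz'
      have h4 : cl z z' = 1 := by rw [← h, ExpD_cu_x]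
      have h5 := cl_up_zero H hz.2.1 z' (by omega)
      omega
  have hL : ∀ z ∈ ZL i C, tC i C (cl z) = xx ^ 3 * dd ^ ((st i C).card - 1) := by
    intro z hz
    rw [mem_ZL] at hz
    have h4 : (sts i z).card = 3 := by rw [card_sts]; exact hz.2.2
    have h5 : (sts i z).card ≤ (st i C).card := by
      apply card_le_card
      intro v hv
      rw [mem_sts] at hv
      exact mem_st.2 ⟨part_up hC' hz.1 hv.2.le, hv.1⟩
    rw [(cl_dat H hz.2.1).tC H (by omega) (cl_up_zero H hz.2.1), h4,
      card_uc_of_up H hz.2.1 hz.2.2, zero_add]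
    congr 2
    omega
  have hU : ∀ z ∈ ZU i C, tC i C (cu z) = xi ^ 2 * dd ^ ((st i C).card - 1) := by
    intro z hz
    rw [mem_ZU] at hz
    have h4 : (stD i z).card = 3 := by rw [card_stD]; exact hz.2.2
    have h5 : (stD i z).card ≤ (st i C).card := by
      apply card_le_card
      intro v hv
      rw [mem_stD_iff H hz.2.1] at hv
      obtain ⟨u, hu, hv⟩ := hv
      have l1 := lev_dc H hu
      have l2 := lev_dc H hv
      exact mem_st.2 ⟨hC'.dn (hC'.dn hz.1 (by omega) (mem_dc.1 hu)) (by omega) (mem_dc.1 hv),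
        by omega⟩
    rw [(cu_dat H (by omega) hz.2.1).tC H (cu_low_zero H hz.2.1), h4,
      card_dc_of_dn H hz.2.1 hz.2.2, zero_add]
    congr 2
    omega
  have h8 : ∑ e ∈ T, tC i C e = ∑ e ∈ F, tC i C e + ∑ e ∈ T \ F, tC i C e := by
    rw [add_comm, Finset.sum_sdiff hFT]
  rw [hsum, Finset.sum_congr rfl hL, Finset.sum_congr rfl hU, Finset.sum_const, Finset.sum_const,
    nsmul_eq_mul, nsmul_eq_mul] at h8
  rw [h8]
  have h9 := Finset.dvd_sum hTF
  have h10 := dvd_sub h1 h9
  convert h10 using 1
  ring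

end Pool.Agent.GaussPoset.Win

end

/-! From `Pool.Agent.W_448so_h61.CE` -/

section

/-!
SECOND ORDER THEOREM (MP_448cb3_co, proofs row 476): the value of (3,1) of a part.
-/

namespace Pool.Agent.GaussPoset.Win

set_option linter.unusedSectionVars false

open Finset OrderDual

universe u

variable {P : Type u} [Fintype P] [PartialOrder P] [DecidableEq P] {r i : ℕ} {psi : P → P}

/-- `PD` and `PU` of the part are matched by `psi`: both empty or one element each -/
structure MtcP (i : ℕ) (C : Finset P) (psi : P → P) : Prop where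
  out : (∀ z ∈ C, z ∉ PD P i ∧ z ∉ PU P i) ∨
    ∃ z x y u, z ∈ C ∧ x ∈ C ∧ z ∈ PD P i ∧ x ∈ PU P i ∧ uc z = {y} ∧ dc x = {u} ∧
      dc u = uc y ∧ (uc y).card = 2 ∧ (∀ z' ∈ C, z' ∈ PD P i → z' = z) ∧
      (∀ x' ∈ C, x' ∈ PU P i → x' = x) ∧ psi y = u

/-- THE VALUE OF (3,1), divisibility form -/
theorem so_val3 (H : Gr P r) (hi : 1 ≤ i) (hi2 : i + 1 ≤ r) (hMa : Mat P i ∅ psi)
    (hu3 : ∀ z : P, lev z = i + 2 → up i z ≤ 3) (hd3 : ∀ x : P, lev x + 2 = i → dn i x ≤ 3)
    {C : Finset P} (hC : Part (i + 1) C)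
    (hb : 1 ≤ (st i C).card) (hM : MtcP i C psi) :
    dd ^ (st i C).card ∣ ZC i C 3 -
      (((ZL i C).card : A) * xx ^ 3 + ((ZU i C).card : A) * xi ^ 2 +
        ((FL i C).card : A) * xx ^ 2 + ((FU' i C).card : A) * xi) * dd ^ ((st i C).card - 1) := by
  classical
  have hC' : Part i C := ⟨fun h1 h2 => hC.up h1 h2, fun h1 h2 h3 => hC.dn h1 (by omega) h3⟩
  have hbase := so_base3 H hi hi2 hMa hu3 hd3 hC
  rcases hM.out with hN | ⟨z, x, y, u, hzC, hxC, hzP, hxP, hz, hx, hyu, h2, hz1, hx1, hone⟩
  · have e1 : Dm i C = C := by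
      ext w
      rw [mem_Dm]
      exact ⟨fun h => h.1, fun h => ⟨h, hN w h⟩⟩
    have e2 : FL i C = ∅ := by
      rw [Finset.eq_empty_iff_forall_notMem]
      intro w hw
      obtain ⟨h3, z, hz, hz2⟩ := mem_FL.1 hw
      have h4 : z ∈ C := by
        refine hC.up h3 ?_
        rw [← mem_uc, hz2]
        exact mem_singleton_self z
      exact (hN z h4).1 hz
    have e3 : FU' i C = ∅ := by
      rw [Finset.eq_empty_iff_forall_notMem]
      intro w hw
      obtain ⟨h3, z, hz, hz2⟩ := mem_FU'.1 hw
      have hzw : z ⋖ w := by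
        rw [← mem_dc, hz2]
        exact mem_singleton_self z
      have l1 := lev_uc H (mem_uc.2 hzw)
      have l2 := (lev_PU hz).1
      have h4 : z ∈ C := hC.dn h3 (by omega) hzw
      exact (hN z h4).2 hz
    rw [e1] at hbase
    rw [e2, e3]
    unfold ZC
    convert hbase using 1
    simp only [Finset.card_empty, Nat.cast_zero, zero_mul, add_zero]
    ring
  · have lz := (lev_PD hzP).1
    have lx := (lev_PU hxP).1
    have hzy : z ⋖ y := by rw [← mem_uc, hz]; exact mem_singleton_self y
    have hux : u ⋖ x := by rw [← mem_dc, hx]; exact mem_singleton_self u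
    have ly : lev y = i + 1 := by
      have := lev_uc H (mem_uc.2 hzy)
      omega
    have lu : lev u + 1 = i := by
      have := lev_uc H (mem_uc.2 hux)
      omega
    have hyC : y ∈ C := hC.up hzC hzy
    have huC : u ∈ C := hC.dn hxC (by omega) hux
    -- decomposition of the sum
    have hdec : ZC i C 3 = ∑ e ∈ (Dm i C).piAntidiag 3, tC i C e +
        ∑ e ∈ (C.piAntidiag 3).filter (fun e => e z ≠ 0), tC i C e +
        ∑ e ∈ (C.piAntidiag 3).filter (fun e => e x ≠ 0), tC i C e := by
      unfold ZC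
      rw [← Finset.sum_filter_add_sum_filter_not (C.piAntidiag 3) (fun e => e z ≠ 0)]
      rw [← Finset.sum_filter_add_sum_filter_not ((C.piAntidiag 3).filter (fun e => ¬ e z ≠ 0))
        (fun e => e x ≠ 0), Finset.filter_filter, Finset.filter_filter]
      have e1 : ∑ e ∈ (C.piAntidiag 3).filter (fun e => ¬ e z ≠ 0 ∧ e x ≠ 0), tC i C e =
          ∑ e ∈ (C.piAntidiag 3).filter (fun e => e x ≠ 0), tC i C e := by
        refine Finset.sum_subset ?_ ?_
        · intro e he
          rw [mem_filter] at he ⊢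
          exact ⟨he.1, he.2.2⟩
        · intro e he hne
          rw [mem_filter, mem_piA] at he
          have hez : e z ≠ 0 := by
            by_contra h
            apply hne
            rw [mem_filter, mem_piA]
            exact ⟨he.1, fun h' => h' h, he.2⟩
          by_cases hA : AdmL i e
          · by_cases hB : AdmU i e
            · exfalso
              have h4 := pos_up H hA (z := z) (y := y) (by omega) (by omega) hzy
              have h5 := pos_dn H (by omega) hB (x := x) (y := u) (by omega) (by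
                have := he.2
                omega) hux
              have h6 : ({z, y, x, u} : Finset P).card = 4 := by
                rw [Finset.card_insert_of_notMem, Finset.card_insert_of_notMem,
                  Finset.card_insert_of_notMem, card_singleton]
                · rw [mem_singleton]
                  rintro rfl
                  omega
                · rw [mem_insert, mem_singleton, not_or]
                  refine ⟨?_, ?_⟩
                  · rintro rfl
                    omega
                  · rintro rfl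
                    omega
                · rw [mem_insert, mem_insert, mem_singleton, not_or, not_or]
                  refine ⟨?_, ?_, ?_⟩
                  · rintro rfl
                    omega
                  · rintro rfl
                    omega
                  · rintro rfl
                    omega
              have h7 : ∑ w ∈ ({z, y, x, u} : Finset P), e w ≤ ∑ w, e w :=
                Finset.sum_le_sum_of_subset (subset_univ _)
              have h8 : ({z, y, x, u} : Finset P).card ≤ ∑ w ∈ ({z, y, x, u} : Finset P), e w := by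
                rw [Finset.card_eq_sum_ones]
                refine Finset.sum_le_sum fun w hw => ?_
                rw [mem_insert, mem_insert, mem_insert, mem_singleton] at hw
                have := he.2
                rcases hw with rfl | rfl | rfl | rfl <;> omega
              have := he.1.1
              omega
            · exact tC_not_admU hB
          · exact tC_not_admL hA
      have e2 : (C.piAntidiag 3).filter (fun e => ¬ e z ≠ 0 ∧ ¬ e x ≠ 0) =
          (Dm i C).piAntidiag 3 := by
        ext e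
        rw [mem_filter, mem_piA, mem_piA]
        constructor
        · rintro ⟨⟨h3, h4⟩, h5, h6⟩
          refine ⟨h3, fun w hw => ?_⟩
          by_contra hne
          have hwC : w ∈ C := by
            by_contra h
            exact hne (h4 w h)
          apply hw
          refine mem_Dm.2 ⟨hwC, fun h7 => ?_, fun h7 => ?_⟩
          · rw [hz1 w hwC h7] at hne
            exact h5 hne
          · rw [hx1 w hwC h7] at hne
            exact h6 hne
        · rintro ⟨h3, h4⟩
          refine ⟨⟨h3, fun w hw => h4 w fun h => hw (mem_Dm.1 h).1⟩, ?_, ?_⟩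
          · rw [not_not]
            exact h4 z fun h => (mem_Dm.1 h).2.1 hzP
          · rw [not_not]
            exact h4 x fun h => (mem_Dm.1 h).2.2 hxP
      rw [e1, e2]
      ring
    have hspt1 : ∀ v ∈ C, Spt C (cl z + sg v) := by
      intro v hv
      rw [spt_add_iff]
      exact ⟨spt_cl hC' hzC, fun w hw => ExpC_sg_ne (by rintro rfl; exact hw hv)⟩
    have hspt2 : ∀ v ∈ C, Spt C (cu x + sg v) := by
      intro v hv
      rw [spt_add_iff]
      exact ⟨spt_cu hC' hxC (by omega), fun w hw => ExpC_sg_ne (by rintro rfl; exact hw hv)⟩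
    rw [split_cl H lz hz, split_cu H (by omega) lx hx, Finset.filter_true_of_mem hspt1,
      Finset.filter_true_of_mem hspt2,
      low_class H (by omega) hC ly hz h2 lu hyu hzC (by
        intro z' hz' huc
        apply hz1 z' hz'
        unfold PD
        rw [mem_filter]
        refine ⟨mem_univ _, ?_, by rw [huc, card_singleton], y, ?_, h2⟩
        · have := lev_uc H (x := z') (v := y) (by rw [huc]; exact mem_singleton_self y)
          omega
        · rw [← mem_uc, huc]
          exact mem_singleton_self y),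
      upp_class H hi2 hC lu hx (by rw [hyu]; exact h2) ly hyu hxC (by
        intro x' hx' hdc
        apply hx1 x' hx'
        unfold PU
        rw [mem_filter]
        refine ⟨mem_univ _, ?_, by rw [hdc, card_singleton], u, ?_, by rw [hyu]; exact h2⟩
        · have := lev_dc H (x := x') (v := u) (by rw [hdc]; exact mem_singleton_self u)
          omega
        · rw [← mem_dc, hdc]
          exact mem_singleton_self u)] at hdec
    have hnear := so_near_class H hi hi2 hMa hC ly hz h2 lu hx hyu hzC hxC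
      hone
    have e4 : FL i C = FLo C z := by
      ext w
      rw [mem_FL, mem_FLo]
      constructor
      · rintro ⟨h3, z', h4, h5⟩
        refine ⟨h3, ?_⟩
        rw [← hz1 z' ?_ h4]
        · exact h5
        · refine hC.up h3 ?_
          rw [← mem_uc, h5]
          exact mem_singleton_self z'
      · rintro ⟨h3, h4⟩
        exact ⟨h3, z, hzP, h4⟩
    have e5 : FU' i C = FUp C x := by
      ext w
      rw [mem_FU', mem_FUp]
      constructor
      · rintro ⟨h3, z', h4, h5⟩
        refine ⟨h3, ?_⟩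
        have hzw : z' ⋖ w := by
          rw [← mem_dc, h5]
          exact mem_singleton_self z'
        have l1 := lev_uc H (mem_uc.2 hzw)
        have l2 := (lev_PU h4).1
        rw [← hx1 z' (hC.dn h3 (by omega) hzw) h4]
        exact h5
      · rintro ⟨h3, h4⟩
        exact ⟨h3, x, hxP, h4⟩
    rw [e4, e5, hdec]
    -- constants
    have hb2 : 2 ≤ (st i C).card := by
      rw [← h2]
      apply card_le_card
      intro v hv
      have := lev_uc H hv
      exact mem_st.2 ⟨hC.up hyC (mem_uc.1 hv), by omega⟩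
    have hcast : (((st i C).card - 2 : ℕ) : A) = ((st i C).card : A) - 2 := by
      rw [Nat.cast_sub hb2]
      norm_num
    have hpow : dd ^ (st i C).card = dd * dd ^ ((st i C).card - 1) := by
      rw [← pow_succ']
      congr 1
      omega
    have hk : dd ^ (st i C).card ∣ ((xx ^ 3 + xi ^ 2) + (((st i C).card : A) - 1) * (xx ^ 2 + xi) +
        2 * (1 + xx)) * dd ^ ((st i C).card - 1) := by
      rw [hpow]
      refine mul_dvd_mul (dvd_add (dvd_add dd_dvd_3 ?_) ?_) dvd_rfl
      · exact Dvd.dvd.mul_left dd_dvd_2 _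
      · exact Dvd.dvd.mul_left dd_dvd_1 _
    have htot := dvd_add (dvd_add hbase hnear) hk
    rw [hcast]
    convert htot using 1
    ring

/-- THE VALUE OF (3,1) -/
theorem so_al3_val (H : Gr P r) (hi : 1 ≤ i) (hi2 : i + 1 ≤ r) (hMa : Mat P i ∅ psi)
    (hu3 : ∀ z : P, lev z = i + 2 → up i z ≤ 3) (hd3 : ∀ x : P, lev x + 2 = i → dn i x ≤ 3)
    {C : Finset P} (hC : Part (i + 1) C)
    (hb : 1 ≤ (st i C).card) (hM : MtcP i C psi) :
    I2.al 3 (st i C).card (ZS i C) =
      (ZU i C).card - (ZL i C).card + (FL i C).card - (FU' i C).card := by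
  have h1 := so_val3 H hi hi2 hMa hu3 hd3 hC hb hM
  obtain ⟨q, hq⟩ := h1
  set κ : A := ((ZL i C).card : A) * xx ^ 3 + ((ZU i C).card : A) * xi ^ 2 +
        ((FL i C).card : A) * xx ^ 2 + ((FU' i C).card : A) * xi with hκ
  have h2 : dd * ZC i C 3 = dd ^ (st i C).card * (κ + dd * q) := by
    have h3 : ZC i C 3 = κ * dd ^ ((st i C).card - 1) + dd ^ (st i C).card * q := by
      rw [← hq]
      ring
    have hpow : dd ^ (st i C).card = dd * dd ^ ((st i C).card - 1) := by
      rw [← pow_succ']
      congr 1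
      omega
    rw [h3]
    calc dd * (κ * dd ^ ((st i C).card - 1) + dd ^ (st i C).card * q)
        = κ * (dd * dd ^ ((st i C).card - 1)) + dd ^ (st i C).card * (dd * q) := by ring
      _ = _ := by rw [← hpow]; ring
  unfold I2.al
  rw [coeff_ZS, h2]
  unfold dd
  have h4 := PowerSeries.coeff_X_pow_mul (κ + PowerSeries.X * q) (st i C).card 0
  rw [zero_add] at h4
  rw [h4, PowerSeries.coeff_zero_eq_constantCoeff, map_add, map_mul, PowerSeries.constantCoeff_X,
    zero_mul, add_zero, hκ]
  simp only [map_add, map_mul, map_pow, cc_xx, cc_xi, map_natCast]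
  norm_num
  ring

end Pool.Agent.GaussPoset.Win

end

/-! From `Pool.Agent.W_448so_h61.CF` -/

section

/-!
SECOND ORDER THEOREM (MP_448cb3_co, proofs row 476): energies one and two of a part, and the value
of `(3,1)`.
-/

namespace Pool.Agent.GaussPoset.Win

set_option linter.unusedSectionVars false

open Finset OrderDual

universe u

variable {P : Type u} [Fintype P] [PartialOrder P] [DecidableEq P] {r i n : ℕ} {psi : P → P}
  {C : Finset P}

/-- the matching of the pendants of a part -/
theorem PS6_mtcP (Q : SO.PS6 r i psi C) : MtcP i C psi := by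
  classical
  constructor
  by_cases h : ∃ p ∈ C, p ∈ PD P i
  · right
    obtain ⟨p, hp, hpd⟩ := h
    obtain ⟨y, hy, p', hp', hpu, hd⟩ := Q.mtL p hp hpd
    obtain ⟨hl, -, y2, hy2, hc⟩ := mem_PD.1 hpd
    have e2 : y2 = y := by
      have := mem_uc.2 hy2
      rw [hy, mem_singleton] at this
      exact this
    subst e2
    have hly := lev_uc Q.H (mem_uc.2 hy2)
    have hdb : y2 ∈ dbL P i := mem_dbL.2 ⟨by omega, hc⟩
    obtain ⟨g1, g2⟩ := Q.hM.low y2 hdb (by simp)
    exact ⟨p, p', y2, psi y2, hp, hp', hpd, hpu, hy, hd, g2, hc,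
      fun z' h1 h2 => Q.pd z' h1 p hp h2 hpd, fun x' h1 h2 => Q.pu x' h1 p' hp' h2 hpu, rfl⟩
  · left
    intro z hz
    refine ⟨fun h1 => h ⟨z, hz, h1⟩, fun h1 => ?_⟩
    obtain ⟨u, -, p, hp, hpd, -⟩ := Q.mtU z hz h1
    exact h ⟨p, hp, hpd⟩

/-- without sites there are no charges -/
lemma no_sites (H : Gr P r) (hi2 : i + 1 ≤ r) (hC : Part (i + 1) C) (h0 : st i C = ∅) :
    ZL i C = ∅ ∧ ZU i C = ∅ ∧ FL i C = ∅ ∧ FU' i C = ∅ := by
  classical
  have hno : ∀ v ∈ C, lev v = i → False := by
    intro v hv hl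
    have h1 : v ∈ st i C := mem_st.2 ⟨hv, hl⟩
    rw [h0] at h1
    exact absurd h1 (Finset.notMem_empty _)
  have hC' : Part i C := ⟨fun h1 h2 => hC.up h1 h2, fun h1 h2 h3 => hC.dn h1 (by omega) h3⟩
  have hlow : ∀ z ∈ C, i ≤ lev z → False := by
    intro z hz hl
    obtain ⟨v, hv, hvl⟩ := exists_above' (x := z) (j := i) hl
    exact hno v (part_up hC' hz hv) hvl
  have hupp : ∀ z ∈ C, lev z + 2 = i → False := by
    intro z hz hl
    obtain ⟨u, hu⟩ := dc_nonempty H (x := z) (by omega)
    have l1 := lev_dc H hu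
    obtain ⟨v, hv⟩ := dc_nonempty H (x := u) (by omega)
    have l2 := lev_dc H hv
    exact hno v (hC.dn (hC.dn hz (by omega) (mem_dc.1 hu)) (by omega) (mem_dc.1 hv)) (by omega)
  refine ⟨?_, ?_, ?_, ?_⟩ <;> rw [Finset.eq_empty_iff_forall_notMem]
  · intro z hz
    rw [mem_ZL] at hz
    exact hlow z hz.1 (by omega)
  · intro z hz
    rw [mem_ZU] at hz
    exact hupp z hz.1 hz.2.1
  · intro w hw
    obtain ⟨h3, z, hz, hz2⟩ := mem_FL.1 hw
    have hzw : z ∈ uc w := by rw [hz2]; exact mem_singleton_self z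
    have l1 := lev_uc H hzw
    have l2 := (lev_PD hz).1
    exact hlow w h3 (by omega)
  · intro w hw
    obtain ⟨h3, z, hz, hz2⟩ := mem_FU'.1 hw
    have hzw : z ∈ dc w := by rw [hz2]; exact mem_singleton_self z
    have l1 := lev_dc H hzw
    have l2 := (lev_PU hz).1
    exact hupp z (hC.dn h3 (by omega) (mem_dc.1 hzw)) l2

/-- THE VALUE OF (3,1) for a part without closed pairs and flips -/
theorem so_al3 (Q : SO.PS6 r i psi C) : I2.al 3 (st i C).card (ZS i C) =
    (ZU i C).card + (FL i C).card - (ZL i C).card - (FU' i C).card := by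
  rcases Nat.eq_zero_or_pos (st i C).card with h0 | h0
  · obtain ⟨h1, h2, h3, h4⟩ := no_sites Q.H Q.hi2 Q.hC (Finset.card_eq_zero.1 h0)
    rw [h1, h2, h3, h4, h0]
    unfold I2.al dd
    simp
  · have h := so_al3_val Q.H Q.hi Q.hi2 Q.hM (fun z hz => so_up3 Q.H Q.nlL hz)
      (fun x hx => so_dn3 Q.H Q.nlU hx) Q.hC h0 (PS6_mtcP Q)
    rw [h]
    ring

/-! ## energies one and two -/

lemma sts_PD (H : Gr P r) {p y : P} (hl : lev p = i + 2) (hy : uc p = {y})
    (hc : (uc y).card = 2) : (sts i p).card = 2 := by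
  rw [← hc]
  congr 1
  ext v
  rw [mem_sts_iff H hl, hy]
  simp

lemma stD_PU (H : Gr P r) {p u : P} (hl : lev p + 2 = i) (hu : dc p = {u})
    (hc : (dc u).card = 2) : (stD i p).card = 2 := by
  rw [← hc]
  congr 1
  ext v
  rw [mem_stD_iff H hl, hu]
  simp

lemma eq_of_le_sum {f g : P → ℕ} (h : ∀ x, f x ≤ g x) (hs : ∑ x, g x ≤ ∑ x, f x) : g = f := by
  funext x
  by_contra hne
  have h1 : f x < g x := lt_of_le_of_ne (h x) (Ne.symm hne)
  have h2 : ∑ x, f x < ∑ x, g x :=
    Finset.sum_lt_sum (fun y _ => h y) ⟨x, mem_univ x, h1⟩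
  omega

/-- the cores of energy at most two -/
theorem so_cl2 (Q : SO.PSO r i psi C) {e : P → ℕ} (hc : IsCore i ∅ psi e)
    (hn : ∑ x, e x ≤ 2) :
    Rk (lv P i) 0 (Fe i e) ∨ (∃ z ∈ PD P i, e = cl z) ∨ ∃ x ∈ PU P i, e = cu x := by
  classical
  have H := Q.H
  have hi2 := Q.hi2
  by_cases hadm : AdmL i e ∧ AdmU i e
  swap
  · exact Or.inl (Rk_of_not_adm hadm 0)
  obtain ⟨hA, hB⟩ := hadm
  by_cases h1 : ∃ z ∈ PD P i, e z ≠ 0
  · obtain ⟨z, hz, hez⟩ := h1
    right; left
    refine ⟨z, hz, ?_⟩
    obtain ⟨hl, h1c, y, hzy, hyc⟩ := mem_PD.1 hz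
    have huc : uc z = {y} := by
      obtain ⟨y', hy'⟩ := Finset.card_eq_one.1 h1c
      have := mem_uc.2 hzy
      rw [hy', mem_singleton] at this
      rw [this]
      exact hy'
    have hey := pos_up H hA (z := z) (y := y) (by omega) (by omega) hzy
    refine eq_of_le_sum (fun x => ?_) (by rw [clb_sum_cl, h1c]; exact hn)
    have := ExpC_cl_le z x
    by_cases h : cl z x = 0
    · omega
    · rcases ExpC_cl_pos (z := z) (x := x) (by omega) with h5 | h5
      · rw [h5]
        have := ExpC_cl_z z
        omega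
      · rw [huc, mem_singleton] at h5
        rw [h5] at this ⊢
        omega
  by_cases h2 : ∃ x ∈ PU P i, e x ≠ 0
  · obtain ⟨z, hz, hez⟩ := h2
    right; right
    refine ⟨z, hz, ?_⟩
    obtain ⟨hl, h1c, y, hzy, hyc⟩ := mem_PU.1 hz
    have hdc : dc z = {y} := by
      obtain ⟨y', hy'⟩ := Finset.card_eq_one.1 h1c
      have := mem_dc.2 hzy
      rw [hy', mem_singleton] at this
      rw [this]
      exact hy'
    have hey := pos_dn H (by omega) hB (x := z) (y := y) (by omega) (by omega) hzy
    refine eq_of_le_sum (fun x => ?_) (by rw [sum_cu H, h1c]; exact hn)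
    have hle : cu z x ≤ 1 := by unfold cu; split_ifs <;> omega
    by_cases h : cu z x = 0
    · omega
    · rcases cu_pos (x := z) (y := x) (by omega) with h5 | h5
      · rw [h5]
        have := ExpD_cu_x z
        omega
      · rw [hdc, mem_singleton] at h5
        rw [h5] at hle ⊢
        omega
  push Not at h1 h2
  rcases cl3 H Q.hi hi2 Q.hM (fun z hz => so_up3 H Q.nlL hz) (fun x hx => so_dn3 H Q.nlU hx)
    h1 h2 hc (by omega) with h | ⟨z, hz, hz2, rfl⟩ | ⟨z, hz, hz2, rfl⟩
  · exact Or.inl h
  · rw [clb_sum_cl, card_uc_of_up H hz hz2] at hn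
    omega
  · rw [sum_cu H, card_dc_of_dn H hz hz2] at hn
    omega

/-- ENERGIES ONE AND TWO -/
theorem so_lo (Q : SO.PSO r i psi C) (hc : (C.filter (· ∈ PD P i)).card =
    (C.filter (· ∈ PU P i)).card) (h1 : 1 ≤ n) (h2 : n ≤ 2) : dd ^ (st i C).card ∣ ZC i C n := by
  classical
  have H := Q.H
  have hi2 := Q.hi2
  have hC := Q.hC
  have hC' : Part i C := ⟨fun h1 h2 => hC.up h1 h2, fun h1 h2 h3 => hC.dn h1 (by omega) h3⟩
  have hcls : ∀ e : P → ℕ, IsCore i ∅ psi e → Spt C e → ∑ x, e x ≤ 2 →
      Rk (st i C) 0 (Fe i e) ∨ (∃ z ∈ PD P i, e = cl z) ∨ ∃ x ∈ PU P i, e = cu x := by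
    intro e he hs hn
    rcases so_cl2 Q he hn with h | h
    · exact Or.inl (Rk_sub (st_sub i C) h)
    · exact Or.inr h
  have hsumL : ∀ z ∈ PD P i, ∑ x, cl z x = 2 := by
    intro z hz
    rw [clb_sum_cl, (lev_PD hz).2]
  have hsumU : ∀ z ∈ PU P i, ∑ x, cu z x = 2 := by
    intro z hz
    rw [sum_cu H, (lev_PU hz).2]
  have h3 := core_part H Q.hi hi2 hC (subset_refl C) (fun x hx _ => hx) Q.hM n (by
    intro e he hs hn
    rcases hcls e he hs (by omega) with h | ⟨z, hz, rfl⟩ | ⟨z, hz, rfl⟩
    · exact h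
    · rw [hsumL z hz] at hn
      omega
    · rw [hsumU z hz] at hn
      omega)
  set F := (C.piAntidiag n).filter
    (fun e => IsCore i ∅ psi e ∧ ¬ Rk (st i C) 0 (Fe i e)) with hF
  have hZ : ZC i C n = ∑ e ∈ C.piAntidiag n, tC i C e := rfl
  rw [hZ]
  suffices hs : dd ^ (st i C).card ∣ ∑ e ∈ F, tC i C e by
    have := dvd_add h3 hs
    rwa [sub_add_cancel] at this
  rcases Nat.lt_or_ge n 2 with hn | hn
  · have hFe : F = ∅ := by
      rw [Finset.eq_empty_iff_forall_notMem]
      intro e he
      rw [hF, mem_filter, mem_piA] at he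
      obtain ⟨⟨h4, h5⟩, h6, h7⟩ := he
      rcases hcls e h6 h5 (by omega) with h | ⟨z, hz, rfl⟩ | ⟨z, hz, rfl⟩
      · exact h7 h
      · rw [hsumL z hz] at h4
        omega
      · rw [hsumU z hz] at h4
        omega
    rw [hFe, Finset.sum_empty]
    exact dvd_zero _
  have hn2 : n = 2 := by omega
  subst hn2
  set T := (C.filter (· ∈ PD P i)).image cl ∪ (C.filter (· ∈ PU P i)).image cu with hT
  have hFT : F ⊆ T := by
    intro e he
    rw [hF, mem_filter, mem_piA] at he
    obtain ⟨⟨h4, h5⟩, h6, h7⟩ := he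
    rw [hT, mem_union, mem_image, mem_image]
    rcases hcls e h6 h5 (by omega) with h | ⟨z, hz, rfl⟩ | ⟨z, hz, rfl⟩
    · exact absurd h h7
    · left
      refine ⟨z, mem_filter.2 ⟨?_, hz⟩, rfl⟩
      by_contra hzC
      have := h5 z hzC
      rw [ExpC_cl_z] at this
      omega
    · right
      refine ⟨z, mem_filter.2 ⟨?_, hz⟩, rfl⟩
      by_contra hzC
      have := h5 z hzC
      rw [ExpD_cu_x] at this
      omega
  have hTF : ∀ e ∈ T \ F, dd ^ (st i C).card ∣ tC i C e := by
    intro e he
    rw [mem_sdiff, hT, mem_union, mem_image, mem_image, hF, mem_filter, mem_piA] at he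
    obtain ⟨h4, h5⟩ := he
    have key : ∑ x, e x = 2 ∧ Spt C e ∧ IsCore i ∅ psi e := by
      rcases h4 with ⟨z, hz, rfl⟩ | ⟨z, hz, rfl⟩
      · rw [mem_filter] at hz
        exact ⟨hsumL z hz.2, spt_cl hC' hz.1, core_cl H (lev_PD hz.2).1⟩
      · rw [mem_filter] at hz
        have := (lev_PU hz.2).1
        exact ⟨hsumU z hz.2, spt_cu hC' hz.1 (by omega), core_cu H (lev_PU hz.2).1⟩
    have h6 : Rk (st i C) 0 (Fe i e) := by
      by_contra h7
      exact h5 ⟨⟨key.1, key.2.1⟩, key.2.2, h7⟩
    rw [tC_IV H hC' key.2.1]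
    have := Rk_IV h6
    simpa using this
  have hsum : ∑ e ∈ T, tC i C e = ∑ z ∈ C.filter (· ∈ PD P i), tC i C (cl z) +
      ∑ z ∈ C.filter (· ∈ PU P i), tC i C (cu z) := by
    rw [hT, Finset.sum_union, Finset.sum_image, Finset.sum_image]
    · intro z hz z' hz' h
      rw [mem_coe, mem_filter] at hz hz'
      have l1 := (lev_PU hz.2).1
      have l2 := (lev_PU hz'.2).1
      have h4 : cu z z' = 1 := by rw [h, ExpD_cu_x]
      rcases cu_pos (x := z) (y := z') (by omega) with h5 | h5
      · exact h5.symm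
      · have := lev_dc H h5
        omega
    · intro z hz z' hz' h
      rw [mem_coe, mem_filter] at hz hz'
      have l1 := (lev_PD hz.2).1
      have l2 := (lev_PD hz'.2).1
      have h4 : cl z z' = 1 := by rw [h, ExpC_cl_z]
      rcases ExpC_cl_pos (z := z) (x := z') (by omega) with h5 | h5
      · exact h5.symm
      · have := lev_uc H h5
        omega
    · rw [Finset.disjoint_left]
      intro e he he'
      rw [mem_image] at he he'
      obtain ⟨z, hz, rfl⟩ := he
      obtain ⟨z', hz', h⟩ := he'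
      rw [mem_filter] at hz hz'
      have l1 := (lev_PD hz.2).1
      have l2 := (lev_PU hz'.2).1
      have h4 : cl z z' = 1 := by rw [← h, ExpD_cu_x]
      have h5 := cl_up_zero H l1 z' (by omega)
      omega
  have hL : ∀ z ∈ C.filter (· ∈ PD P i), tC i C (cl z) = xx ^ 2 * dd ^ ((st i C).card - 1) := by
    intro z hz
    rw [mem_filter] at hz
    obtain ⟨hl, h1c, y, hzy, hyc⟩ := mem_PD.1 hz.2
    have huc : uc z = {y} := by
      obtain ⟨y', hy'⟩ := Finset.card_eq_one.1 h1c
      have := mem_uc.2 hzy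
      rw [hy', mem_singleton] at this
      rw [this]
      exact hy'
    have h4 := sts_PD H hl huc hyc
    have h5 : (sts i z).card ≤ (st i C).card := by
      apply card_le_card
      intro v hv
      rw [mem_sts] at hv
      exact mem_st.2 ⟨part_up hC' hz.1 hv.2.le, hv.1⟩
    rw [(cl_dat H hl).tC H (by omega) (cl_up_zero H hl), h4, h1c, zero_add]
    congr 2
    omega
  have hU : ∀ z ∈ C.filter (· ∈ PU P i), tC i C (cu z) = xi * dd ^ ((st i C).card - 1) := by
    intro z hz
    rw [mem_filter] at hz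
    obtain ⟨hl, h1c, y, hzy, hyc⟩ := mem_PU.1 hz.2
    have hdc : dc z = {y} := by
      obtain ⟨y', hy'⟩ := Finset.card_eq_one.1 h1c
      have := mem_dc.2 hzy
      rw [hy', mem_singleton] at this
      rw [this]
      exact hy'
    have h4 := stD_PU H hl hdc hyc
    have h5 : (stD i z).card ≤ (st i C).card := by
      apply card_le_card
      intro v hv
      rw [mem_stD_iff H hl] at hv
      obtain ⟨u, hu, hv⟩ := hv
      have l1 := lev_dc H hu
      have l2 := lev_dc H hv
      exact mem_st.2 ⟨hC'.dn (hC'.dn hz.1 (by omega) (mem_dc.1 hu)) (by omega) (mem_dc.1 hv),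
        by omega⟩
    rw [(cu_dat H (by omega) hl).tC H (cu_low_zero H hl), h4, h1c, zero_add, pow_one]
    congr 2
    omega
  have h8 : ∑ e ∈ T, tC i C e = ∑ e ∈ F, tC i C e + ∑ e ∈ T \ F, tC i C e := by
    rw [add_comm, Finset.sum_sdiff hFT]
  rw [hsum, Finset.sum_congr rfl hL, Finset.sum_congr rfl hU, Finset.sum_const, Finset.sum_const,
    nsmul_eq_mul, nsmul_eq_mul, hc] at h8
  have h9 := Finset.dvd_sum hTF
  have h10 : dd ^ (st i C).card ∣ ((C.filter (· ∈ PU P i)).card : A) *
      (xx ^ 2 * dd ^ ((st i C).card - 1)) +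
      ((C.filter (· ∈ PU P i)).card : A) * (xi * dd ^ ((st i C).card - 1)) := by
    rcases Finset.eq_empty_or_nonempty (C.filter (· ∈ PU P i)) with h0 | ⟨z, hz⟩
    · rw [h0]
      simp
    · rw [mem_filter] at hz
      obtain ⟨hl, h1c, y, hzy, hyc⟩ := mem_PU.1 hz.2
      have h5 : 1 ≤ (st i C).card := by
        rw [Nat.one_le_iff_ne_zero, Ne, Finset.card_eq_zero]
        intro h0
        obtain ⟨v, hv⟩ : (dc y).Nonempty := by
          rw [← Finset.card_pos]
          omega
        have l1 := lev_dc H (mem_dc.2 hzy)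
        have l2 := lev_dc H hv
        have h6 : v ∈ st i C := mem_st.2
          ⟨hC'.dn (hC'.dn hz.1 (by omega) hzy) (by omega) (mem_dc.1 hv), by omega⟩
        rw [h0] at h6
        exact absurd h6 (Finset.notMem_empty _)
      obtain ⟨b, hb⟩ : ∃ b, (st i C).card = b + 1 := ⟨(st i C).card - 1, by omega⟩
      rw [hb, Nat.add_sub_cancel, pow_succ]
      obtain ⟨q, hq⟩ := dd_dvd_2
      refine ⟨((C.filter (· ∈ PU P i)).card : A) * q, ?_⟩
      have : ((C.filter (· ∈ PU P i)).card : A) * (xx ^ 2 * dd ^ b) +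
          ((C.filter (· ∈ PU P i)).card : A) * (xi * dd ^ b) =
          ((C.filter (· ∈ PU P i)).card : A) * dd ^ b * (xx ^ 2 + xi) := by ring
      rw [this, hq]
      ring
  rw [h8] at h10
  have h11 := dvd_sub h10 h9
  rwa [add_sub_cancel_right] at h11

end Pool.Agent.GaussPoset.Win

end

/-! From `Pool.Agent.W_448so_h64.SoS` -/

section

/-!
SECOND ORDER THEOREM (MP_448cb3_co, proofs row 476): the data of a part which is a strip at the window.
-/

namespace Pool.Agent.GaussPoset.Win.SO

set_option linter.unusedSectionVars false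

open Finset

universe u

variable {P : Type u} [Fintype P] [PartialOrder P] [DecidableEq P] {r i : ℕ} {psi : P → P}
  {C : Finset P}

/-- the data for the evaluation of (5,2): pendants occur on both sides or on no side, and they are over the
same double, or the window is small -/
structure PT (r i : ℕ) (psi : P → P) (C : Finset P) : Prop extends PS5 r i psi C where
  both : (∃ p ∈ C, p ∈ PD P i) ↔ ∃ p' ∈ C, p' ∈ PU P i
  sm : ∀ p ∈ C, ∀ p' ∈ C, ∀ y u, p ∈ PD P i → p' ∈ PU P i → uc p = {y} → dc p' = {u} →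
    u = psi y ∨ (st i C).card ≤ 3

end Pool.Agent.GaussPoset.Win.SO

end

/-! From `Pool.Agent.W_448so_h64.SoT` -/

section

/-!
SECOND ORDER THEOREM (MP_448cb3_co, proofs row 476): values of pairs, general form; pendants.
-/

namespace Pool.Agent.GaussPoset.Win.SO

set_option linter.unusedSectionVars false

open Finset
open Pool.Agent.GaussPoset.Win.I2 (lS uS mem_lS mem_uS)

universe u

variable {P : Type u} [Fintype P] [PartialOrder P] [DecidableEq P] {r i : ℕ} {psi : P → P}
  {e : P → ℕ} {C : Finset P}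

/-- the numbers of an element with one deficit -/
structure NumG (i : ℕ) (C : Finset P) (z : P) (v : ℤ) (k : ℕ) : Prop where
  ns : lev z ≠ i
  mC : z ∈ C
  num : (BL i (con i z)).card + (BU i (con i z)).card =
    (nL i (con i z)).card + (nU i (con i z)).card + 1
  sgn : v = (-1) ^ ((BL i (con i z)).card + (nU i (con i z)).card)
  cd : (con i z).card = k

lemma Num.g {z : P} (N : Num i C z) : NumG i C z (chg i C z) 3 :=
  ⟨N.ns, N.mC, N.num, N.sgn, N.three⟩

/-- disjoint sites: the value is the product -/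
theorem pair_gen (H : Gr P r) (hi : 1 ≤ i) (hi2 : i + 1 ≤ r) (hC : Part (i + 1) C)
    {z z' : P} {v v' : ℤ} {k k' : ℕ} (N : NumG i C z v k) (N' : NumG i C z' v' k')
    (hd : Disjoint (sit i z) (sit i z')) :
    ∑ x, on (con i z ∪ con i z') x = k + k' ∧
    PowerSeries.coeff (st i C).card (dd ^ 2 * tC i C (on (con i z ∪ con i z')) : A) =
      v * v' := by
  have hir : i ≤ r := by omega
  have hcd := con_disj H hir N.ns N'.ns hd
  constructor
  · rw [on_sum, card_union_of_disjoint hcd, N.cd, N'.cd]
  have hs : Cls i (con i z ∪ con i z') := by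
    have c1 := con_cls H N.ns
    have c2 := con_cls H N'.ns
    constructor
    · intro x hx
      rcases mem_union.1 hx with hx | hx
      · exact c1.ns x hx
      · exact c2.ns x hx
    · intro x hx hl y hy
      rcases mem_union.1 hx with hx | hx
      · exact mem_union_left _ (c1.lo x hx hl y hy)
      · exact mem_union_right _ (c2.lo x hx hl y hy)
    · intro x hx hl y hy
      rcases mem_union.1 hx with hx | hx
      · exact mem_union_left _ (c1.up x hx hl y hy)
      · exact mem_union_right _ (c2.up x hx hl y hy)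
  have hsC : con i z ∪ con i z' ⊆ C :=
    union_subset (con_sub H hC N.mC N.ns) (con_sub H hC N'.mC N'.ns)
  have s1 := sit_con H N.ns
  have s1' := sit_con H N'.ns
  have a1 : BL i (con i z) ⊆ sit i z := by rw [← s1]; exact subset_union_left
  have a2 : BU i (con i z) ⊆ sit i z := by rw [← s1]; exact subset_union_right
  have a1' : BL i (con i z') ⊆ sit i z' := by rw [← s1']; exact subset_union_left
  have a2' : BU i (con i z') ⊆ sit i z' := by rw [← s1']; exact subset_union_right
  have own : ∀ {y : P}, lev y ≠ i → Disjoint (BL i (con i y)) (BU i (con i y)) := by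
    intro y hy
    rcases Nat.lt_or_gt_of_ne hy with h | h
    · rw [BL_con_upp H h]; exact disjoint_empty_left _
    · rw [BU_con_low H h]; exact disjoint_empty_right _
  have d1 : Disjoint (BL i (con i z)) (BL i (con i z')) := disjoint_of_subset_left a1
    (disjoint_of_subset_right a1' hd)
  have d2 : Disjoint (BU i (con i z)) (BU i (con i z')) := disjoint_of_subset_left a2
    (disjoint_of_subset_right a2' hd)
  have d3 : Disjoint (nL i (con i z)) (nL i (con i z')) := disjoint_of_subset_left
    (filter_subset _ _) (disjoint_of_subset_right (filter_subset _ _) hcd)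
  have d4 : Disjoint (nU i (con i z)) (nU i (con i z')) := disjoint_of_subset_left
    (filter_subset _ _) (disjoint_of_subset_right (filter_subset _ _) hcd)
  have hdis : Disjoint (BL i (con i z ∪ con i z')) (BU i (con i z ∪ con i z')) := by
    rw [BL_union, BU_union, disjoint_union_left, disjoint_union_right, disjoint_union_right]
    exact ⟨⟨own N.ns, disjoint_of_subset_left a1 (disjoint_of_subset_right a2' hd)⟩,
      disjoint_of_subset_left a1' (disjoint_of_subset_right a2 hd.symm), own N'.ns⟩
  have c1 : (BL i (con i z ∪ con i z')).card = (BL i (con i z)).card + (BL i (con i z')).card := by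
    rw [BL_union, card_union_of_disjoint d1]
  have c2 : (BU i (con i z ∪ con i z')).card = (BU i (con i z)).card + (BU i (con i z')).card := by
    rw [BU_union, card_union_of_disjoint d2]
  have c3 : (nL i (con i z ∪ con i z')).card = (nL i (con i z)).card + (nL i (con i z')).card := by
    rw [nL_union, card_union_of_disjoint d3]
  have c4 : (nU i (con i z ∪ con i z')).card = (nU i (con i z)).card + (nU i (con i z')).card := by
    rw [nU_union, card_union_of_disjoint d4]
  have n1 := N.num
  have n2 := N'.num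
  rw [on_coeff H hi hi2 hC hs hsC hdis (by omega), N.sgn, N'.sgn, c1, c4, ← pow_add]
  congr 1
  ring

/-- the double of a pendant -/
lemma PD_data (H : Gr P r) {p : P} (hp : p ∈ PD P i) :
    ∃ y, uc p = {y} ∧ lev p = i + 2 ∧ lev y = i + 1 ∧ (uc y).card = 2 ∧
      Pen uc (tL (P := P) i) (lS P i) p y := by
  obtain ⟨g1, g2, y, hy, hc⟩ := mem_PD.1 hp
  have g3 := lev_uc H (mem_uc.2 hy)
  obtain ⟨q, hq⟩ := card_eq_one.1 g2
  have hqy : y ∈ uc p := mem_uc.2 hy
  rw [hq, mem_singleton] at hqy
  subst hqy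
  exact ⟨y, hq, g1, by omega, hc, ⟨mem_lS.2 (by omega), by unfold tL; omega, hq, hc⟩⟩

lemma PU_data (H : Gr P r) {p : P} (hp : p ∈ PU P i) :
    ∃ y, dc p = {y} ∧ lev p + 2 = i ∧ lev y + 1 = i ∧ (dc y).card = 2 ∧
      Pen dc (tU (P := P) i) (uS P i) p y := by
  obtain ⟨g1, g2, y, hy, hc⟩ := mem_PU.1 hp
  have g3 := lev_dc H (mem_dc.2 hy)
  obtain ⟨q, hq⟩ := card_eq_one.1 g2
  have hqy : y ∈ dc p := mem_dc.2 hy
  rw [hq, mem_singleton] at hqy
  subst hqy
  exact ⟨y, hq, g1, by omega, hc, ⟨mem_uS.2 (by omega), by unfold tU; omega, hq, hc⟩⟩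

lemma con_PD (H : Gr P r) {p y : P} (h1 : lev p = i + 2) (h2 : uc p = {y}) :
    con i p = {p, y} := by
  rw [con_two_low H h1, h2]

lemma con_PU (H : Gr P r) {p y : P} (h1 : lev p + 2 = i) (h2 : dc p = {y}) :
    con i p = {p, y} := by
  rw [con_two_upp H h1, h2]

lemma sit_PD (H : Gr P r) {p y : P} (h1 : lev p = i + 2) (h2 : uc p = {y}) :
    sit i p = uc y := by
  rw [sit_low H (by omega)]
  ext v
  rw [mem_sts_iff H h1, h2]
  simp

lemma sit_PU (H : Gr P r) {p y : P} (h1 : lev p + 2 = i) (h2 : dc p = {y}) :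
    sit i p = dc y := by
  rw [sit_upp H (by omega)]
  ext v
  rw [mem_stD_iff H h1, h2]
  simp

/-- a pendant below the window: value `1` -/
lemma num_PD (H : Gr P r) {p : P} (hp : p ∈ PD P i) (hpC : p ∈ C) : NumG i C p 1 2 := by
  obtain ⟨y, g1, g2, g3, g4, -⟩ := PD_data H hp
  have hcon := con_PD H g2 g1
  have e1 : BL i (con i p) = uc y := by
    rw [BL_con_low H (by omega), ← sit_low H (show i ≤ lev p by omega), sit_PD H g2 g1]
  have e2 : nL i (con i p) = {y} := by
    rw [hcon]
    ext v
    rw [mem_nL, mem_insert, mem_singleton]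
    constructor
    · rintro ⟨rfl | rfl, hl⟩
      · omega
      · rfl
    · rintro rfl
      exact ⟨Or.inr rfl, g3⟩
  refine ⟨by omega, hpC, ?_, ?_, ?_⟩
  · rw [e1, BU_con_low H (by omega), e2, nU_con_low H (by omega), g4]
    simp
  · rw [e1, nU_con_low H (by omega), g4]
    norm_num
  · rw [hcon, card_pair]
    rintro rfl
    omega

/-- a pendant above the window: value `-1` -/
lemma num_PU (H : Gr P r) {p : P} (hp : p ∈ PU P i) (hpC : p ∈ C) : NumG i C p (-1) 2 := by
  obtain ⟨y, g1, g2, g3, g4, -⟩ := PU_data H hp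
  have hcon := con_PU H g2 g1
  have e1 : BU i (con i p) = dc y := by
    rw [BU_con_upp H (by omega), ← sit_upp H (show lev p ≤ i by omega), sit_PU H g2 g1]
  have e2 : nU i (con i p) = {y} := by
    rw [hcon]
    ext v
    rw [mem_nU, mem_insert, mem_singleton]
    constructor
    · rintro ⟨rfl | rfl, hl⟩
      · omega
      · rfl
    · rintro rfl
      exact ⟨Or.inr rfl, g3⟩
  refine ⟨by omega, hpC, ?_, ?_, ?_⟩
  · rw [e1, BL_con_upp H (by omega), e2, nL_con_upp H (by omega), g4]
    simp
  · rw [BL_con_upp H (by omega), e2]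
    norm_num
  · rw [hcon, card_pair]
    rintro rfl
    omega

end Pool.Agent.GaussPoset.Win.SO

end
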