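import Mathlib
import Pool.Agent.W_448zz_h61.Ns
import Pool.Agent.W_448zz_h61.M091
import Pool.Agent.W_448zz_h61.M107

/-! From `Pool.Agent.W_448so_h64.SoQ` -/

/-!
SECOND ORDER THEOREM (MP_448cb3_co, proofs row 476): every leftover configuration comes from the index set.
-/

namespace Pool.Agent.GaussPoset.Win.SO

set_option linter.unusedSectionVars false

open Finset
open Pool.Agent.GaussPoset.Win.I2 (lS uS mem_lS mem_uS)
open Pool.Agent.GaussPoset.Win.So (TogL TogU RefL RefU RefD)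

universe u

variable {P : Type u} [Fintype P] [PartialOrder P] [DecidableEq P] {r i : ℕ} {psi : P → P}
  {e : P → ℕ} {C : Finset P}

/-- T-elements below the window: sites -/
lemma sit_td_low (H : Gr P r) {w x x' s : P} (T : TD uc (tL (P := P) i) (lS P i) w x x' s) :
    sit i w = uc x ∪ uc x' := by
  obtain ⟨l1, l2, l3, l4, -⟩ := td_low H T
  rw [sit_low H (by omega)]
  ext v
  rw [mem_sts_iff H l1, mem_union, T.cw]
  simp

lemma sit_td_upp (H : Gr P r) {w x x' s : P} (T : TD dc (tU (P := P) i) (uS P i) w x x' s) :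
    sit i w = dc x ∪ dc x' := by
  obtain ⟨l1, l2, l3, l4, -⟩ := td_up H T
  rw [sit_upp H (by omega)]
  ext v
  rw [mem_stD_iff H l1, mem_union, T.cw]
  simp

/-- a T-element of the part is charged -/
lemma td_ZL (H : Gr P r) {w x x' s : P} (T : TD uc (tL (P := P) i) (lS P i) w x x' s)
    (hw : w ∈ C) : w ∈ ZL i C ∧ con i w = {w, x, x'} := by
  obtain ⟨l1, l2, l3, l4, a, b, ha, hb, h1, h2, h3⟩ := td_low H T
  constructor
  · rw [mem_ZL]
    refine ⟨hw, l1, ?_⟩
    rw [← card_sts, ← sit_low H (show i ≤ lev w by omega), sit_td_low H T, ha, hb]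
    rw [show ({a, s} ∪ {s, b} : Finset P) = {a, s, b} by
      ext v; simp only [mem_union, mem_insert, mem_singleton]; tauto]
    rw [card_insert_of_notMem, card_pair h2]
    rw [mem_insert, mem_singleton]
    rintro (h | h)
    · exact h1 h
    · exact h3 h
  · rw [con_two_low H l1, T.cw]

lemma td_ZU (H : Gr P r) {w x x' s : P} (T : TD dc (tU (P := P) i) (uS P i) w x x' s)
    (hw : w ∈ C) : w ∈ ZU i C ∧ con i w = {w, x, x'} := by
  obtain ⟨l1, l2, l3, l4, a, b, ha, hb, h1, h2, h3⟩ := td_up H T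
  constructor
  · rw [mem_ZU]
    refine ⟨hw, l1, ?_⟩
    rw [← card_stD, ← sit_upp H (show lev w ≤ i by omega), sit_td_upp H T, ha, hb]
    rw [show ({a, s} ∪ {s, b} : Finset P) = {a, s, b} by
      ext v; simp only [mem_union, mem_insert, mem_singleton]; tauto]
    rw [card_insert_of_notMem, card_pair h2]
    rw [mem_insert, mem_singleton]
    rintro (h | h)
    · exact h1 h
    · exact h3 h
  · rw [con_two_upp H l1, T.cw]

/-- chains of the part are charged -/
lemma cha_FL (H : Gr P r) {z p y : P} (Z : Cha uc (tL (P := P) i) (lS P i) z p y)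
    (hz : z ∈ C) : z ∈ FL i C ∧ con i z = {z, p, y} ∧ sit i z = uc y := by
  obtain ⟨g1, g2, g3, g4, g5⟩ := pen_low H Z.pen
  have hl := lev_uc H (x := z) (v := p) (by rw [Z.cz]; simp)
  have hF : z ∈ FL i C := mem_FL.2 ⟨hz, p, g1, Z.cz⟩
  refine ⟨hF, con_FL H (by omega) Z.cz g4, ?_⟩
  rw [sit_FL H g1 Z.cz]
  ext v
  rw [mem_sts_iff H g2, g4]
  simp

lemma cha_FU (H : Gr P r) {z p y : P} (Z : Cha dc (tU (P := P) i) (uS P i) z p y)
    (hz : z ∈ C) : z ∈ FU' i C ∧ con i z = {z, p, y} ∧ sit i z = dc y := by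
  obtain ⟨g1, g2, g3, g4, g5⟩ := pen_up H Z.pen
  have hl := lev_dc H (x := z) (v := p) (by rw [Z.cz]; simp)
  have hF : z ∈ FU' i C := mem_FU'.2 ⟨hz, p, g1, Z.cz⟩
  refine ⟨hF, con_FU H (by omega) Z.cz g4, ?_⟩
  rw [sit_FU H g1 Z.cz]
  ext v
  rw [mem_stD_iff H g2, g4]
  simp

/-- the T data of a charged element -/
lemma td_of_ZL (Q : PSO r i psi C) {w : P} (hw : w ∈ ZL i C) :
    ∃ x x' s, TD uc (tL (P := P) i) (lS P i) w x x' s := by
  have H := Q.H
  obtain ⟨h1, h2, h3⟩ := mem_ZL.1 hw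
  obtain ⟨x, x', hne, hc⟩ := card_eq_two.1 (card_uc_of_up H h2 h3)
  have hwS : w ∈ lS P i := mem_lS.2 (by omega)
  have hu : (uc x ∪ uc x').card = 3 := by
    rw [← card_sts] at h3
    rw [← h3]
    congr 1
    ext v
    rw [mem_sts_iff H h2, mem_union, hc]
    simp
  have hi1 := card_union_add_card_inter (uc x) (uc x')
  have c1 := uc_card_le H x
  have c2 := uc_card_le H x'
  have hnl := Q.nlL w hwS (by unfold tL; omega) x (by rw [hc]; simp) x' (by rw [hc]; simp) hne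
  have hI : (uc x ∩ uc x').card = 1 := by
    rcases hnl with h | ⟨g1, g2⟩
    · exact h
    · omega
  obtain ⟨s, hs⟩ := card_eq_one.1 hI
  have hs' : s ∈ uc x ∩ uc x' := by rw [hs]; simp
  rw [mem_inter] at hs'
  refine ⟨x, x', s, ⟨hwS, by unfold tL; omega, hc, hne, by omega, by omega, hs'.1, hs'.2, ?_⟩⟩
  intro v hv hv'
  have : v ∈ uc x ∩ uc x' := mem_inter.2 ⟨hv, hv'⟩
  rw [hs, mem_singleton] at this
  exact this

lemma td_of_ZU (Q : PSO r i psi C) {w : P} (hw : w ∈ ZU i C) :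
    ∃ x x' s, TD dc (tU (P := P) i) (uS P i) w x x' s := by
  have H := Q.H
  obtain ⟨h1, h2, h3⟩ := mem_ZU.1 hw
  obtain ⟨x, x', hne, hc⟩ := card_eq_two.1 (card_dc_of_dn H h2 h3)
  have hwS : w ∈ uS P i := mem_uS.2 (by omega)
  have hu : (dc x ∪ dc x').card = 3 := by
    rw [← card_stD] at h3
    rw [← h3]
    congr 1
    ext v
    rw [mem_stD_iff H h2, mem_union, hc]
    simp
  have hi1 := card_union_add_card_inter (dc x) (dc x')
  have c1 := dc_card_le H x
  have c2 := dc_card_le H x'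
  have hnl := Q.nlU w hwS (by unfold tU; omega) x (by rw [hc]; simp) x' (by rw [hc]; simp) hne
  have hI : (dc x ∩ dc x').card = 1 := by
    rcases hnl with h | ⟨g1, g2⟩
    · exact h
    · omega
  obtain ⟨s, hs⟩ := card_eq_one.1 hI
  have hs' : s ∈ dc x ∩ dc x' := by rw [hs]; simp
  rw [mem_inter] at hs'
  refine ⟨x, x', s, ⟨hwS, by unfold tU; omega, hc, hne, by omega, by omega, hs'.1, hs'.2, ?_⟩⟩
  intro v hv hv'
  have : v ∈ dc x ∩ dc x' := mem_inter.2 ⟨hv, hv'⟩
  rw [hs, mem_singleton] at this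
  exact this

/-- the configuration N1 below the window -/
lemma psi_N1 (H : Gr P r) (hC : Part (i + 1) C) {z w x x' s : P}
    (T : TD uc (tL (P := P) i) (lS P i) w x x' s) (hz : uc z = {w}) (hzC : z ∈ C) :
    z ∈ N1f i C ∧
      ∀ y, Psi i C {z} y = if y = z ∨ y = w then 2 else if y = x ∨ y = x' then 1 else 0 := by
  obtain ⟨l1, l2, l3, l4, -⟩ := td_low H T
  have hzw : z ⋖ w := by rw [← mem_uc, hz]; simp
  have hl := lev_uc H (x := z) (v := w) (by rw [hz]; simp)
  have hwC : w ∈ C := part_up hC hzC hzw.le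
  have hZ := (td_ZL H T hwC)
  have hN : z ∈ N1f i C := mem_N1f.2 ⟨hzC, Or.inl ⟨by omega, w, hZ.1, hz⟩⟩
  refine ⟨hN, fun y => ?_⟩
  have hcon : con i z = {z, w, x, x'} := by
    rw [con_rec_low H (by omega), hz, singleton_biUnion, hZ.2]
  have hdbl : dbl i C {z} = {z, w} := by
    unfold dbl
    have : ({z} : Finset P) ∩ N1f i C = {z} := by
      rw [inter_eq_left]
      intro a ha
      rw [mem_singleton] at ha
      rw [ha]; exact hN
    rw [this, singleton_biUnion, nb_low (by omega), hz]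
  unfold Psi on
  rw [singleton_biUnion, hcon, hdbl]
  simp only [mem_insert, mem_singleton]
  by_cases h1 : y = z ∨ y = w
  · rw [if_pos h1, if_pos h1, if_pos (by tauto)]
  · rw [if_neg h1, if_neg h1]
    rw [not_or] at h1
    by_cases h2 : y = x ∨ y = x'
    · rw [if_pos h2, if_pos (by tauto)]
    · rw [if_neg h2, if_neg (by tauto)]

/-- the configuration N1 above the window -/
lemma psi_N1U (H : Gr P r) (hC : Part (i + 1) C) {z w x x' s : P}
    (T : TD dc (tU (P := P) i) (uS P i) w x x' s) (hz : dc z = {w}) (hzC : z ∈ C) :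
    z ∈ N1f i C ∧
      ∀ y, Psi i C {z} y = if y = z ∨ y = w then 2 else if y = x ∨ y = x' then 1 else 0 := by
  obtain ⟨l1, l2, l3, l4, -⟩ := td_up H T
  have hzw : w ⋖ z := by rw [← mem_dc, hz]; simp
  have hl := lev_dc H (x := z) (v := w) (by rw [hz]; simp)
  have hwC : w ∈ C := hC.dn hzC (by omega) hzw
  have hZ := (td_ZU H T hwC)
  have hN : z ∈ N1f i C := mem_N1f.2 ⟨hzC, Or.inr ⟨by omega, w, hZ.1, hz⟩⟩
  refine ⟨hN, fun y => ?_⟩
  have hcon : con i z = {z, w, x, x'} := by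
    rw [con_rec_upp H (by omega), hz, singleton_biUnion, hZ.2]
  have hdbl : dbl i C {z} = {z, w} := by
    unfold dbl
    have : ({z} : Finset P) ∩ N1f i C = {z} := by
      rw [inter_eq_left]
      intro a ha
      rw [mem_singleton] at ha
      rw [ha]; exact hN
    rw [this, singleton_biUnion, nb_upp (by omega), hz]
  unfold Psi on
  rw [singleton_biUnion, hcon, hdbl]
  simp only [mem_insert, mem_singleton]
  by_cases h1 : y = z ∨ y = w
  · rw [if_pos h1, if_pos h1, if_pos (by tauto)]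
  · rw [if_neg h1, if_neg h1]
    rw [not_or] at h1
    by_cases h2 : y = x ∨ y = x'
    · rw [if_pos h2, if_pos (by tauto)]
    · rw [if_neg h2, if_neg (by tauto)]

/-- the value of N1 -/
theorem N1_value (Q : PSO r i psi C) {z : P} (hz : z ∈ N1f i C) :
    ∑ x, Psi i C {z} x = 6 ∧
    PowerSeries.coeff (st i C).card (dd ^ 2 * tC i C (Psi i C {z}) : A) = -1 := by
  have hI : ({z} : Finset P) ∈ Ix i C := mem_Ix.2 (Or.inr ⟨z, Or.inl hz, rfl⟩)
  have hs := Psi_spt Q.H Q.hC hI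
  have hzC := (mem_N1f.1 hz).1
  rcases N1f_lev Q.H hz with ⟨k, w, hw, hw2⟩ | ⟨k, w, hw, hw2⟩
  · obtain ⟨x, x', s, T⟩ := td_of_ZL Q hw
    obtain ⟨-, g2⟩ := psi_N1 Q.H Q.hC T hw2 hzC
    have h := n1_coeff Q.H Q.hi Q.hi2 Q.hC hs
      ⟨z, w, x, x', s, T, mem_lS.2 (by omega), hw2, g2⟩
    exact ⟨h.2.2.2.1, h.2.2.2.2.2⟩
  · obtain ⟨x, x', s, T⟩ := td_of_ZU Q hw
    obtain ⟨-, g2⟩ := psi_N1U Q.H Q.hC T hw2 hzC
    have h := n1U_coeff Q.H Q.hi Q.hi2 Q.hC hs
      ⟨z, w, x, x', s, T, mem_uS.2 (by omega), hw2, g2⟩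
    exact ⟨h.2.2.2.1, h.2.2.2.2.2⟩

/-- a pair from explicit data -/
lemma pair_of (Q : PSO r i psi C) {z z' : P} (hz : z ∈ Chs i C) (hz' : z' ∈ Chs i C)
    (hd : Disjoint (sit i z) (sit i z')) {s : Finset P} (he : On e s)
    (hs : s = con i z ∪ con i z') : ∃ T ∈ Ix i C, Psi i C T = e := by
  have hir : i ≤ r := by have := Q.hi2; omega
  obtain ⟨h1, h2⟩ := pr_of Q.H hir hz hz' hd
  refine ⟨{z, z'}, mem_Ix.2 (Or.inl h1), ?_⟩
  rw [h2, ← hs, on_eq he]

/-- SURJECTIVITY -/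
theorem LO6_index (Q : PSO r i psi C) (hs : Spt C e)
    (h : LO6 uc dc (tL (P := P) i) (tU i) (lS P i) (uS P i) e) :
    ∃ T ∈ Ix i C, Psi i C T = e := by
  have H := Q.H
  have hmem : ∀ {s : Finset P}, On e s → ∀ x ∈ s, x ∈ C := by
    intro s ho x hx
    apply mem_of_spt hs
    rw [ho x, if_pos hx]
    exact Nat.one_pos
  have inZL : ∀ {w}, w ∈ ZL i C → w ∈ Chs i C := fun h => by
    unfold Chs; simp only [mem_union]; exact Or.inl (Or.inl (Or.inl h))
  have inZU : ∀ {w}, w ∈ ZU i C → w ∈ Chs i C := fun h => by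
    unfold Chs; simp only [mem_union]; exact Or.inl (Or.inl (Or.inr h))
  have inFL : ∀ {w}, w ∈ FL i C → w ∈ Chs i C := fun h => by
    unfold Chs; simp only [mem_union]; exact Or.inl (Or.inr h)
  have inFU : ∀ {w}, w ∈ FU' i C → w ∈ Chs i C := fun h => by
    unfold Chs; simp only [mem_union]; exact Or.inr h
  rcases h with h | h | h | h | h | h | h | h | h | h | h
  · obtain ⟨w, x, x', s, w', y, y', s', T, T', hd, ho⟩ := h
    obtain ⟨a1, a2⟩ := td_ZL H T (hmem ho w (by simp))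
    obtain ⟨b1, b2⟩ := td_ZL H T' (hmem ho w' (by simp))
    refine pair_of Q (inZL a1) (inZL b1) ?_ ho ?_
    · rw [sit_td_low H T, sit_td_low H T']; exact hd
    · rw [a2, b2]; ext v; simp only [mem_union, mem_insert, mem_singleton]; tauto
  · obtain ⟨w, x, x', s, w', y, y', s', T, T', hd, ho⟩ := h
    obtain ⟨a1, a2⟩ := td_ZU H T (hmem ho w (by simp))
    obtain ⟨b1, b2⟩ := td_ZU H T' (hmem ho w' (by simp))
    refine pair_of Q (inZU a1) (inZU b1) ?_ ho ?_
    · rw [sit_td_upp H T, sit_td_upp H T']; exact hd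
    · rw [a2, b2]; ext v; simp only [mem_union, mem_insert, mem_singleton]; tauto
  · obtain ⟨w, x, x', s, z, p, y, T, Z, hd, ho⟩ := h
    obtain ⟨a1, a2⟩ := td_ZL H T (hmem ho w (by simp))
    obtain ⟨b1, b2, b3⟩ := cha_FL H Z (hmem ho z (by simp))
    refine pair_of Q (inZL a1) (inFL b1) ?_ ho ?_
    · rw [sit_td_low H T, b3]; exact hd
    · rw [a2, b2]; ext v; simp only [mem_union, mem_insert, mem_singleton]; tauto
  · obtain ⟨w, x, x', s, z, p, y, T, Z, hd, ho⟩ := h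
    obtain ⟨a1, a2⟩ := td_ZU H T (hmem ho w (by simp))
    obtain ⟨b1, b2, b3⟩ := cha_FU H Z (hmem ho z (by simp))
    refine pair_of Q (inZU a1) (inFU b1) ?_ ho ?_
    · rw [sit_td_upp H T, b3]; exact hd
    · rw [a2, b2]; ext v; simp only [mem_union, mem_insert, mem_singleton]; tauto
  · obtain ⟨w, x, x', s, w', y, y', s', T, T', hd, ho⟩ := h
    obtain ⟨a1, a2⟩ := td_ZL H T (hmem ho w (by simp))
    obtain ⟨b1, b2⟩ := td_ZU H T' (hmem ho w' (by simp))
    refine pair_of Q (inZL a1) (inZU b1) ?_ ho ?_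
    · rw [sit_td_low H T, sit_td_upp H T']; exact hd
    · rw [a2, b2]; ext v; simp only [mem_union, mem_insert, mem_singleton]; tauto
  · obtain ⟨w, x, x', s, z, p, y, T, Z, hd, ho⟩ := h
    obtain ⟨a1, a2⟩ := td_ZL H T (hmem ho w (by simp))
    obtain ⟨b1, b2, b3⟩ := cha_FU H Z (hmem ho z (by simp))
    refine pair_of Q (inZL a1) (inFU b1) ?_ ho ?_
    · rw [sit_td_low H T, b3]; exact hd
    · rw [a2, b2]; ext v; simp only [mem_union, mem_insert, mem_singleton]; tauto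
  · obtain ⟨w, x, x', s, z, p, y, T, Z, hd, ho⟩ := h
    obtain ⟨a1, a2⟩ := td_ZU H T (hmem ho w (by simp))
    obtain ⟨b1, b2, b3⟩ := cha_FL H Z (hmem ho z (by simp))
    refine pair_of Q (inZU a1) (inFL b1) ?_ ho ?_
    · rw [sit_td_upp H T, b3]; exact hd
    · rw [a2, b2]; ext v; simp only [mem_union, mem_insert, mem_singleton]; tauto
  · obtain ⟨z, w, x, x', s, T, hz, hc, he⟩ := h
    have hzC : z ∈ C := mem_of_spt hs (by rw [he z, if_pos (Or.inl rfl)]; omega)
    obtain ⟨g1, g2⟩ := psi_N1 H Q.hC T hc hzC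
    refine ⟨{z}, mem_Ix.2 (Or.inr ⟨z, Or.inl g1, rfl⟩), ?_⟩
    funext y
    rw [g2 y, he y]
  · obtain ⟨z, w, x, x', s, T, hz, hc, he⟩ := h
    have hzC : z ∈ C := mem_of_spt hs (by rw [he z, if_pos (Or.inl rfl)]; omega)
    obtain ⟨g1, g2⟩ := psi_N1U H Q.hC T hc hzC
    refine ⟨{z}, mem_Ix.2 (Or.inr ⟨z, Or.inl g1, rfl⟩), ?_⟩
    funext y
    rw [g2 y, he y]
  · obtain ⟨z, p, y, w, x, x', s, hp, T, hz, g1, g2, g3, hc, hd, ho⟩ := h
    obtain ⟨q1, q2, q3, q4, q5⟩ := pen_low H hp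
    obtain ⟨a1, a2⟩ := td_ZL H T (hmem ho w (by simp))
    have hl := lev_uc H (x := z) (v := p) (by rw [hc]; simp)
    have hN : z ∈ N5f i C := by
      rw [mem_N5f]
      refine ⟨hmem ho z (by simp), Or.inl ⟨by omega, p, w, q1, a1, hc, ?_⟩⟩
      rw [← sit_low H (show i ≤ lev w by have := (td_low H T).1; omega), sit_td_low H T]
      refine disjoint_of_subset_left ?_ hd
      intro v hv
      rw [mem_sts_iff H q2, q4] at hv
      simpa using hv
    refine ⟨{z}, mem_Ix.2 (Or.inr ⟨z, Or.inr hN, rfl⟩), ?_⟩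
    rw [Psi_on, singleton_biUnion, on_eq ho]
    · congr 1
      rw [con_rec_low H (by omega), hc, biUnion_insert, singleton_biUnion, con_two_low H q2, q4,
        a2]
      ext v
      simp only [mem_union, mem_insert, mem_singleton]
      tauto
    · intro a ha
      rw [mem_singleton] at ha
      rw [ha]
      exact N5f_N1f H hN
  · obtain ⟨z, p, y, w, x, x', s, hp, T, hz, g1, g2, g3, hc, hd, ho⟩ := h
    obtain ⟨q1, q2, q3, q4, q5⟩ := pen_up H hp
    obtain ⟨a1, a2⟩ := td_ZU H T (hmem ho w (by simp))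
    have hl := lev_dc H (x := z) (v := p) (by rw [hc]; simp)
    have hN : z ∈ N5f i C := by
      rw [mem_N5f]
      refine ⟨hmem ho z (by simp), Or.inr ⟨by omega, p, w, q1, a1, hc, ?_⟩⟩
      rw [← sit_upp H (show lev w ≤ i by have := (td_up H T).1; omega), sit_td_upp H T]
      refine disjoint_of_subset_left ?_ hd
      intro v hv
      rw [mem_stD_iff H q2, q4] at hv
      simpa using hv
    refine ⟨{z}, mem_Ix.2 (Or.inr ⟨z, Or.inr hN, rfl⟩), ?_⟩
    rw [Psi_on, singleton_biUnion, on_eq ho]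
    · congr 1
      rw [con_rec_upp H (by omega), hc, biUnion_insert, singleton_biUnion, con_two_upp H q2, q4,
        a2]
      ext v
      simp only [mem_union, mem_insert, mem_singleton]
      tauto
    · intro a ha
      rw [mem_singleton] at ha
      rw [ha]
      exact N5f_N1f H hN

end Pool.Agent.GaussPoset.Win.SO
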