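import Mathlib
import Pool.Agent.W_448zz_h61.Ns
import Pool.Agent.W_448zz_h61.M087
import Pool.Agent.W_448zz_h61.M091

/-! From `Pool.Agent.W_448so_h17.AsC` -/

section

/-!
S9, row 476, ASSEMBLY: the window sum of a part from the sums over cores.
-/

namespace Pool.Agent.GaussPoset.Win.So

set_option linter.unusedSectionVars false

open Finset

universe u

variable {P : Type u} [Fintype P] [PartialOrder P] [DecidableEq P] {r i : ℕ}

variable {e f : P → ℕ} {psi : P → P} {C : Finset P} {w s y p u p' : P}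

open Classical in
/-- the window sum from the cores of fixed energy -/
theorem ZC_sub (H : Gr P r) (hir : i ≤ r) (hC : Part i C) {n k : ℕ} (L : (P → ℕ) → Prop)
    (hLn : ∀ q < n, ∀ e ∈ C.piAntidiag q, ¬ L e)
    (h : ∀ q ≤ n, dd ^ k ∣
      ∑ e ∈ (C.piAntidiag q).filter (IsCore i ∅ psi), J i psi C (n - q) e -
        ∑ e ∈ (C.piAntidiag q).filter L, J i psi C (n - q) e) :
    dd ^ k ∣ ZC i C n - ∑ e ∈ (C.piAntidiag n).filter L, tC i C e := by
  have e1 : ∑ e ∈ (C.piAntidiag n).filter L, tC i C e =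
      ∑ q ∈ range (n + 1), ∑ e ∈ (C.piAntidiag q).filter L, J i psi C (n - q) e := by
    rw [Finset.sum_range_succ]
    have e2 : ∑ q ∈ range n, ∑ e ∈ (C.piAntidiag q).filter L, J i psi C (n - q) e = 0 := by
      refine Finset.sum_eq_zero fun q hq => ?_
      rw [Finset.filter_eq_empty_iff.2 (fun e he => hLn q (mem_range.1 hq) e he),
        Finset.sum_empty]
    rw [e2, zero_add]
    refine Finset.sum_congr rfl fun e he => ?_
    rw [Nat.sub_self, J_zero H hir hC (spt_pa (mem_filter.1 he).1)]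
  rw [ZC_cores H hir psi hC n, e1, ← Finset.sum_sub_distrib]
  refine Finset.dvd_sum fun q hq => ?_
  exact h q (by rw [mem_range] at hq; omega)

open Classical in
/-- only configurations of `L` count: value of `be` -/
theorem be_sum {n : ℕ} (L : (P → ℕ) → Prop) (hb : 1 ≤ (st i C).card)
    (h : dd ^ ((st i C).card - 1) ∣ ZC i C n - ∑ e ∈ (C.piAntidiag n).filter L, tC i C e) :
    I2.be n (st i C).card (ZS i C) =
      ∑ e ∈ (C.piAntidiag n).filter L, PowerSeries.coeff (st i C).card (dd ^ 2 * tC i C e : A) := by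
  unfold I2.be
  rw [coeff_ZS, ← map_sum, ← Finset.mul_sum, ← sub_eq_zero, ← map_sub, ← mul_sub]
  apply I2.coeff_eq_zero_of_dvd
  have h1 := mul_dvd_mul_left (dd ^ 2) h
  rw [← pow_add] at h1
  exact (pow_dvd_pow dd (by omega)).trans h1

open Classical in
theorem ZC_dvd2 {n : ℕ} (L : (P → ℕ) → Prop)
    (h : dd ^ ((st i C).card - 1) ∣ ZC i C n - ∑ e ∈ (C.piAntidiag n).filter L, tC i C e)
    (h2 : ∀ e ∈ C.piAntidiag n, L e → dd ^ ((st i C).card - 2) ∣ tC i C e) :
    dd ^ ((st i C).card - 2) ∣ ZC i C n := by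
  have h3 : dd ^ ((st i C).card - 2) ∣ ∑ e ∈ (C.piAntidiag n).filter L, tC i C e :=
    Finset.dvd_sum fun e he => h2 e (mem_filter.1 he).1 (mem_filter.1 he).2
  have h4 := dvd_add ((pow_dvd_pow dd (Nat.sub_le_sub_left (by omega : 1 ≤ 2) _)).trans h) h3
  rw [sub_add_cancel] at h4
  exact h4

/-- the labels of `e` on the sites and the reflection data: invariance under toggles -/
lemma refL_tg (H : Gr P r) (D : RefD r i y p u p') (T : TgP i e w s) :
    RefL (tg w s e) y p u p' ↔ RefL e y p u p' := by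
  have ls := T.ls H
  have ly := D.ly
  have lp := D.lp H
  have lu := D.lu
  have lp' := D.lp' H
  have k : ∀ z, lev z ≠ i → (tg w s e z = 0 ↔ e z = 0) := fun z hz =>
    T.zero (by rintro rfl; exact hz ls)
  have k1 : ∀ z, lev z ≠ i → (1 ≤ tg w s e z ↔ 1 ≤ e z) := fun z hz => by
    have := k z hz
    omega
  constructor
  · intro R
    refine ⟨(k1 y (by omega)).1 R.hy, (k1 p (by omega)).1 R.hp, (k u (by omega)).1 R.eu, ?_, ?_,
      ?_, ?_⟩
    · intro z hz hzp
      have l1 := lev_uc H (mem_uc.2 hz)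
      exact (k z (by omega)).1 (R.ch z hz hzp)
    · intro z hz
      have l1 := lev_uc H (mem_uc.2 hz)
      exact (k z (by omega)).1 (R.chp z hz)
    · intro z hz
      have l1 := lev_uc H (mem_uc.2 hz)
      exact (k z (by omega)).1 (R.ab z hz)
    · intro z hz
      have l1 := lev_uc H (mem_uc.2 hz)
      exact (k z (by omega)).1 (R.abp z hz)
  · intro R
    refine ⟨(k1 y (by omega)).2 R.hy, (k1 p (by omega)).2 R.hp, (k u (by omega)).2 R.eu, ?_, ?_,
      ?_, ?_⟩
    · intro z hz hzp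
      have l1 := lev_uc H (mem_uc.2 hz)
      exact (k z (by omega)).2 (R.ch z hz hzp)
    · intro z hz
      have l1 := lev_uc H (mem_uc.2 hz)
      exact (k z (by omega)).2 (R.chp z hz)
    · intro z hz
      have l1 := lev_uc H (mem_uc.2 hz)
      exact (k z (by omega)).2 (R.ab z hz)
    · intro z hz
      have l1 := lev_uc H (mem_uc.2 hz)
      exact (k z (by omega)).2 (R.abp z hz)

lemma refU_tg (H : Gr P r) (D : RefD r i y p u p') (T : TgP i e w s) :
    RefU (tg w s e) y p u p' ↔ RefU e y p u p' := by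
  have ls := T.ls H
  have ly := D.ly
  have lp := D.lp H
  have lu := D.lu
  have lp' := D.lp' H
  have k : ∀ z, lev z ≠ i → (tg w s e z = 0 ↔ e z = 0) := fun z hz =>
    T.zero (by rintro rfl; exact hz ls)
  have k1 : ∀ z, lev z ≠ i → (1 ≤ tg w s e z ↔ 1 ≤ e z) := fun z hz => by
    have := k z hz
    omega
  constructor
  · intro R
    refine ⟨(k1 u (by omega)).1 R.hu, (k1 p' (by omega)).1 R.hp, (k y (by omega)).1 R.ey, ?_, ?_,
      ?_, ?_⟩
    · intro z hz hzp
      have l1 := lev_uc H (mem_uc.2 hz)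
      exact (k z (by omega)).1 (R.ab z hz hzp)
    · intro z hz
      have l1 := lev_uc H (mem_uc.2 hz)
      exact (k z (by omega)).1 (R.abp z hz)
    · intro z hz
      have l1 := lev_uc H (mem_uc.2 hz)
      exact (k z (by omega)).1 (R.ch z hz)
    · intro z hz
      have l1 := lev_uc H (mem_uc.2 hz)
      exact (k z (by omega)).1 (R.chp z hz)
  · intro R
    refine ⟨(k1 u (by omega)).2 R.hu, (k1 p' (by omega)).2 R.hp, (k y (by omega)).2 R.ey, ?_, ?_,
      ?_, ?_⟩
    · intro z hz hzp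
      have l1 := lev_uc H (mem_uc.2 hz)
      exact (k z (by omega)).2 (R.ab z hz hzp)
    · intro z hz
      have l1 := lev_uc H (mem_uc.2 hz)
      exact (k z (by omega)).2 (R.abp z hz)
    · intro z hz
      have l1 := lev_uc H (mem_uc.2 hz)
      exact (k z (by omega)).2 (R.ch z hz)
    · intro z hz
      have l1 := lev_uc H (mem_uc.2 hz)
      exact (k z (by omega)).2 (R.chp z hz)

/-- the number of cores with and without reflection -/
lemma core_split {q : ℕ} (N : (P → ℕ) → Prop) [DecidablePred N]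
    [DecidablePred (IsCore i ∅ psi)] (F : (P → ℕ) → A) :
    ∑ e ∈ (C.piAntidiag q).filter (IsCore i ∅ psi), F e =
      ∑ e ∈ (C.piAntidiag q).filter (fun e => IsCore i ∅ psi e ∧ ¬ N e), F e +
        ∑ e ∈ (C.piAntidiag q).filter (fun e => IsCore i ∅ psi e ∧ N e), F e := by
  rw [← Finset.sum_filter_add_sum_filter_not _ N, add_comm, Finset.filter_filter,
    Finset.filter_filter]

end Pool.Agent.GaussPoset.Win.So

end

/-! From `Pool.Agent.W_448so_h17.AsD` -/

section

/-!
S9, row 476, ASSEMBLY: facts about the explicit configurations of the lists `LO5`, `LO6`.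
-/

namespace Pool.Agent.GaussPoset.Win.SO

set_option linter.unusedSectionVars false

open Finset

universe u

variable {P : Type u} [Fintype P] [DecidableEq P]
variable {c c' : P → Finset P} {t t' : P → ℕ} {V Sd Sd' : Finset P} {psi : P → P} {e : P → ℕ}
variable {w x x' s w' y y' s' z p : P}

lemma TD.facts (S : Sde c c' t V Sd) (T : TD c t Sd w x x' s) :
    x ∈ Sd ∧ t x = 1 ∧ x' ∈ Sd ∧ t x' = 1 ∧ w ∈ c' x ∧ w ∈ c' x' ∧ s ∈ V := by
  have hx : x ∈ c w := by rw [T.cw]; exact mem_insert_self _ _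
  have hx' : x' ∈ c w := by rw [T.cw]; exact mem_insert_of_mem (mem_singleton_self _)
  have tw := T.tw
  obtain ⟨a1, a2⟩ := S.cin w T.m x hx
  obtain ⟨b1, b2⟩ := S.cin w T.m x' hx'
  have m1 : x ∈ Sd := by
    rcases a1 with h | h
    · exact h
    · have := S.tV x h
      omega
  have m2 : x' ∈ Sd := by
    rcases b1 with h | h
    · exact h
    · have := S.tV x' h
      omega
  obtain ⟨c1, c2⟩ := S.cin x m1 s T.sx
  refine ⟨m1, by omega, m2, by omega, (S.dual w x).1 hx, (S.dual w x').1 hx', ?_⟩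
  rcases c1 with h | h
  · have := S.tS s h
    omega
  · exact h

lemma Pen.facts (S : Sde c c' t V Sd) (T : Pen c t Sd p y) :
    y ∈ Sd ∧ t y = 1 ∧ p ∈ c' y := by
  have hy : y ∈ c p := by rw [T.cp]; exact mem_singleton_self _
  have tp := T.tp
  obtain ⟨a1, a2⟩ := S.cin p T.m y hy
  refine ⟨?_, by omega, (S.dual p y).1 hy⟩
  rcases a1 with h | h
  · exact h
  · have := S.tV y h
    omega

lemma above_facts (S : Sde c c' t V Sd) (hz : z ∈ Sd) (h : w ∈ c z) (tw : t w = 2) :
    t z = 3 ∧ z ∈ c' w := by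
  obtain ⟨a1, a2⟩ := S.cin z hz w h
  exact ⟨by omega, (S.dual z w).1 h⟩

/-- near elements are touched, labels at distance two are small -/
structure Fin1 (c c' : P → Finset P) (t : P → ℕ) (Sd : Finset P) (e : P → ℕ) : Prop where
  f1 : ∀ x ∈ Sd, t x = 1 → 0 < e x → ∃ z ∈ c' x, 0 < e z
  f2 : ∀ w ∈ Sd, t w = 2 → 2 ≤ e w → ∃ z ∈ c' w, 2 ≤ e z

/-- excited pendants are not extremal -/
def Fin2 (c c' : P → Finset P) (t : P → ℕ) (Sd : Finset P) (e : P → ℕ) : Prop :=
  ∀ p ∈ Sd, t p = 2 → (c p).card = 1 → 0 < e p → ∃ z ∈ c' p, 0 < e z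

lemma On.pos {S : Finset P} (h : On e S) {x : P} (hx : x ∈ S) : 0 < e x := by
  rw [h x, if_pos hx]
  omega

lemma On.mem {S : Finset P} (h : On e S) {x : P} (hx : 0 < e x) : x ∈ S := by
  by_contra h'
  rw [h x, if_neg h'] at hx
  omega

lemma On.le {S : Finset P} (h : On e S) (x : P) : e x ≤ 1 := by
  rw [h x]
  split_ifs <;> omega

/-- zero configuration on a side -/
lemma Fin1.zero (h : ∀ x ∈ Sd, e x = 0) : Fin1 c c' t Sd e ∧ Fin2 c c' t Sd e := by
  refine ⟨⟨?_, ?_⟩, ?_⟩
  · intro x hx _ h1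
    have := h x hx
    omega
  · intro x hx _ h1
    have := h x hx
    omega
  · intro x hx _ _ h1
    have := h x hx
    omega

/-- all labels at most one -/
lemma Fin1.on (h1 : ∀ x, e x ≤ 1) (h : ∀ x ∈ Sd, t x = 1 → 0 < e x → ∃ z ∈ c' x, 0 < e z) :
    Fin1 c c' t Sd e :=
  ⟨h, fun w _ _ h2 => absurd (h1 w) (by omega)⟩

section sums

lemma sum_ge_of {S : Finset P} (h : ∀ x ∈ S, 1 ≤ e x) : S.card ≤ ∑ x, e x := by
  have h1 : S.card ≤ ∑ x ∈ S, e x := by
    rw [Finset.card_eq_sum_ones]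
    exact Finset.sum_le_sum h
  exact h1.trans (Finset.sum_le_sum_of_subset (subset_univ _))

lemma card_three {a b d : P} (h1 : a ≠ b) (h2 : a ≠ d) (h3 : b ≠ d) :
    ({a, b, d} : Finset P).card = 3 := by
  rw [card_insert_of_notMem, card_pair h3]
  simp only [mem_insert, mem_singleton, not_or]
  exact ⟨h1, h2⟩

lemma six_of {a b d f g h : P} (S1 : Disjoint ({a, b, d} : Finset P) {f, g, h})
    (h1 : a ≠ b) (h2 : a ≠ d) (h3 : b ≠ d) (h4 : f ≠ g) (h5 : f ≠ h) (h6 : g ≠ h)
    (k : 1 ≤ e a ∧ 1 ≤ e b ∧ 1 ≤ e d ∧ 1 ≤ e f ∧ 1 ≤ e g ∧ 1 ≤ e h) : 6 ≤ ∑ x, e x := by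
  have h7 : (({a, b, d} : Finset P) ∪ {f, g, h}).card = 6 := by
    rw [card_union_of_disjoint S1, card_three h1 h2 h3, card_three h4 h5 h6]
  rw [← h7]
  apply sum_ge_of
  intro x hx
  simp only [mem_union, mem_insert, mem_singleton] at hx
  obtain ⟨k1, k2, k3, k4, k5, k6⟩ := k
  rcases hx with (rfl | rfl | rfl) | (rfl | rfl | rfl) <;> assumption

lemma five_of {a b d f g : P} (S1 : Disjoint ({a, b, d} : Finset P) {f, g})
    (h1 : a ≠ b) (h2 : a ≠ d) (h3 : b ≠ d) (h4 : f ≠ g)
    (k : 1 ≤ e a ∧ 1 ≤ e b ∧ 1 ≤ e d ∧ 1 ≤ e f ∧ 1 ≤ e g) : 5 ≤ ∑ x, e x := by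
  have h7 : (({a, b, d} : Finset P) ∪ {f, g}).card = 5 := by
    rw [card_union_of_disjoint S1, card_three h1 h2 h3, card_pair h4]
  rw [← h7]
  apply sum_ge_of
  intro x hx
  simp only [mem_union, mem_insert, mem_singleton] at hx
  obtain ⟨k1, k2, k3, k4, k5⟩ := k
  rcases hx with (rfl | rfl | rfl) | (rfl | rfl) <;> assumption

lemma four_le {a b d f : P} (h1 : a ≠ b) (h2 : a ≠ d) (h3 : a ≠ f) (h4 : b ≠ d) (h5 : b ≠ f)
    (h6 : d ≠ f) : e a + (e b + (e d + e f)) ≤ ∑ x, e x := by
  have h7 : ∑ x ∈ ({a, b, d, f} : Finset P), e x = e a + (e b + (e d + e f)) := by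
    rw [sum_insert, sum_insert, sum_pair h6]
    · simp only [mem_insert, mem_singleton, not_or]
      exact ⟨h4, h5⟩
    · simp only [mem_insert, mem_singleton, not_or]
      exact ⟨h1, h2, h3⟩
  rw [← h7]
  exact Finset.sum_le_sum_of_subset (subset_univ _)

end sums

/-- the properties of an explicit configuration of the list of energy six -/
structure Ex6 (c c' : P → Finset P) (t t' : P → ℕ) (V Sd Sd' : Finset P) (e : P → ℕ) : Prop where
  E : 6 ≤ ∑ x, e x
  v0 : ∀ v ∈ V, e v = 0
  a1 : Fin1 c c' t Sd e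
  a2 : Fin2 c c' t Sd e
  b1 : Fin1 c' c t' Sd' e
  b2 : Fin2 c' c t' Sd' e

lemma Ex6.symm (h : Ex6 c c' t t' V Sd Sd' e) : Ex6 c' c t' t V Sd' Sd e :=
  ⟨h.E, h.v0, h.b1, h.b2, h.a1, h.a2⟩

/-- a configuration supported on one side -/
lemma Ex6.one_side (W : Two c c' t t' V Sd Sd' psi) (hE : 6 ≤ ∑ x, e x)
    (hS : ∀ x, 0 < e x → x ∈ Sd) (a1 : Fin1 c c' t Sd e) (a2 : Fin2 c c' t Sd e) :
    Ex6 c c' t t' V Sd Sd' e := by
  have h0 : ∀ x ∈ Sd', e x = 0 := by
    intro x hx
    by_contra h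
    exact (disjoint_left.1 W.d3 (hS x (by omega))) hx
  refine ⟨hE, ?_, a1, a2, (Fin1.zero h0).1, (Fin1.zero h0).2⟩
  intro v hv
  by_contra h
  exact (disjoint_left.1 W.d1 (hS v (by omega))) hv

lemma ne_disj {S : Finset P} (hd : Disjoint (c x ∪ c x') S) (hs : s ∈ c x) (hs' : s ∈ c x')
    (hy : c y ⊆ S) : x ≠ y ∧ x' ≠ y := by
  constructor
  · rintro rfl
    exact (disjoint_left.1 hd (mem_union_left _ hs)) (hy hs)
  · rintro rfl
    exact (disjoint_left.1 hd (mem_union_right _ hs')) (hy hs')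

theorem TTp.ex (W : Two c c' t t' V Sd Sd' psi) (h : TTp c t Sd e) :
    Ex6 c c' t t' V Sd Sd' e := by
  obtain ⟨w, x, x', s, w', y, y', s', T, T', hd, on⟩ := h
  obtain ⟨m1, t1, m2, t2, d1, d2, -⟩ := T.facts W.s1
  obtain ⟨n1, u1, n2, u2, f1, f2, -⟩ := T'.facts W.s1
  have tw := T.tw
  have tw' := T'.tw
  have k := ne_disj (y := y) hd T.sx T.sx' subset_union_left
  have k' := ne_disj (y := y') hd T.sx T.sx' subset_union_right
  have hne : ∀ a b : P, t a ≠ t b → a ≠ b := fun a b h h' => h (congrArg t h')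
  have hww : w ≠ w' := by
    rintro rfl
    have h1 : x ∈ c w := by rw [T.cw]; exact mem_insert_self _ _
    rw [T'.cw, mem_insert, mem_singleton] at h1
    rcases h1 with h1 | h1
    · exact k.1 h1
    · exact k'.1 h1
  refine Ex6.one_side W ?_ ?_ (Fin1.on on.le ?_) ?_
  · refine six_of (a := w) (b := x) (d := x') (f := w') (g := y) (h := y') ?_
      (hne _ _ (by omega)) (hne _ _ (by omega)) T.ne (hne _ _ (by omega)) (hne _ _ (by omega))
      T'.ne ?_
    · rw [disjoint_left]
      intro a ha hb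
      simp only [mem_insert, mem_singleton] at ha hb
      rcases ha with rfl | rfl | rfl <;> rcases hb with hb | hb | hb
      · exact hww hb
      · exact hne _ _ (by omega) hb
      · exact hne _ _ (by omega) hb
      · exact hne _ _ (by omega) hb
      · exact k.1 hb
      · exact k'.1 hb
      · exact hne _ _ (by omega) hb
      · exact k.2 hb
      · exact k'.2 hb
    · refine ⟨?_, ?_, ?_, ?_, ?_, ?_⟩ <;> exact on.pos (by simp)
  · intro a ha
    have := on.mem ha
    simp only [mem_insert, mem_singleton] at this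
    rcases this with rfl | rfl | rfl | rfl | rfl | rfl
    exacts [T.m, m1, m2, T'.m, n1, n2]
  · intro a _ ta ha
    have := on.mem ha
    simp only [mem_insert, mem_singleton] at this
    rcases this with rfl | rfl | rfl | rfl | rfl | rfl
    · omega
    · exact ⟨w, d1, on.pos (by simp)⟩
    · exact ⟨w, d2, on.pos (by simp)⟩
    · omega
    · exact ⟨w', f1, on.pos (by simp)⟩
    · exact ⟨w', f2, on.pos (by simp)⟩
  · intro a _ ta hc ha
    have := on.mem ha
    simp only [mem_insert, mem_singleton] at this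
    rcases this with rfl | rfl | rfl | rfl | rfl | rfl
    · rw [T.cw, card_pair T.ne] at hc; omega
    · omega
    · omega
    · rw [T'.cw, card_pair T'.ne] at hc; omega
    · omega
    · omega

theorem TCp.ex (W : Two c c' t t' V Sd Sd' psi) (h : TCp c t Sd e) :
    Ex6 c c' t t' V Sd Sd' e := by
  obtain ⟨w, x, x', s, z, p, y, T, T', hd, on⟩ := h
  obtain ⟨m1, t1, m2, t2, d1, d2, -⟩ := T.facts W.s1
  obtain ⟨n1, u1, f1⟩ := T'.pen.facts W.s1
  have tw := T.tw
  have tp := T'.pen.tp
  have hpz : p ∈ c z := by rw [T'.cz]; exact mem_singleton_self _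
  obtain ⟨tz, f2⟩ := above_facts W.s1 T'.m hpz tp
  have k := ne_disj (y := y) hd T.sx T.sx' (Subset.refl _)
  have hne : ∀ a b : P, t a ≠ t b → a ≠ b := fun a b h h' => h (congrArg t h')
  have hwp : w ≠ p := by
    rintro rfl
    have h1 : x ∈ c w := by rw [T.cw]; exact mem_insert_self _ _
    rw [T'.pen.cp, mem_singleton] at h1
    exact k.1 h1
  refine Ex6.one_side W ?_ ?_ (Fin1.on on.le ?_) ?_
  · refine six_of (a := w) (b := x) (d := x') (f := z) (g := p) (h := y) ?_
      (hne _ _ (by omega)) (hne _ _ (by omega)) T.ne (hne _ _ (by omega)) (hne _ _ (by omega))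
      (hne _ _ (by omega)) ?_
    · rw [disjoint_left]
      intro a ha hb
      simp only [mem_insert, mem_singleton] at ha hb
      rcases ha with rfl | rfl | rfl <;> rcases hb with hb | hb | hb
      · exact hne _ _ (by omega) hb
      · exact hwp hb
      · exact hne _ _ (by omega) hb
      · exact hne _ _ (by omega) hb
      · exact hne _ _ (by omega) hb
      · exact k.1 hb
      · exact hne _ _ (by omega) hb
      · exact hne _ _ (by omega) hb
      · exact k.2 hb
    · refine ⟨?_, ?_, ?_, ?_, ?_, ?_⟩ <;> exact on.pos (by simp)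
  · intro a ha
    have := on.mem ha
    simp only [mem_insert, mem_singleton] at this
    rcases this with rfl | rfl | rfl | rfl | rfl | rfl
    exacts [T.m, m1, m2, T'.m, T'.pen.m, n1]
  · intro a _ ta ha
    have := on.mem ha
    simp only [mem_insert, mem_singleton] at this
    rcases this with rfl | rfl | rfl | rfl | rfl | rfl
    · omega
    · exact ⟨w, d1, on.pos (by simp)⟩
    · exact ⟨w, d2, on.pos (by simp)⟩
    · omega
    · omega
    · exact ⟨p, f1, on.pos (by simp)⟩
  · intro a _ ta hc ha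
    have := on.mem ha
    simp only [mem_insert, mem_singleton] at this
    rcases this with rfl | rfl | rfl | rfl | rfl | rfl
    · rw [T.cw, card_pair T.ne] at hc; omega
    · omega
    · omega
    · omega
    · exact ⟨z, f2, on.pos (by simp)⟩
    · omega

theorem N5.ex (W : Two c c' t t' V Sd Sd' psi) (h : N5 c t Sd e) :
    Ex6 c c' t t' V Sd Sd' e := by
  obtain ⟨z, p, y, w, x, x', s, T', T, hz, hzp, hzw, hpw, cz, hd, on⟩ := h
  obtain ⟨m1, t1, m2, t2, d1, d2, -⟩ := T.facts W.s1
  obtain ⟨n1, u1, f1⟩ := T'.facts W.s1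
  have tw := T.tw
  have tp := T'.tp
  have hpz : p ∈ c z := by rw [cz]; exact mem_insert_self _ _
  have hwz : w ∈ c z := by rw [cz]; exact mem_insert_of_mem (mem_singleton_self _)
  obtain ⟨tz, f2⟩ := above_facts W.s1 hz hpz tp
  have k := ne_disj (y := y) hd.symm T.sx T.sx' (Subset.refl _)
  have hne : ∀ a b : P, t a ≠ t b → a ≠ b := fun a b h h' => h (congrArg t h')
  refine Ex6.one_side W ?_ ?_ (Fin1.on on.le ?_) ?_
  · refine six_of (a := w) (b := x) (d := x') (f := z) (g := p) (h := y) ?_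
      (hne _ _ (by omega)) (hne _ _ (by omega)) T.ne (hne _ _ (by omega)) (hne _ _ (by omega))
      (hne _ _ (by omega)) ?_
    · rw [disjoint_left]
      intro a ha hb
      simp only [mem_insert, mem_singleton] at ha hb
      rcases ha with rfl | rfl | rfl <;> rcases hb with hb | hb | hb
      · exact hne _ _ (by omega) hb
      · exact hpw hb.symm
      · exact hne _ _ (by omega) hb
      · exact hne _ _ (by omega) hb
      · exact hne _ _ (by omega) hb
      · exact k.1 hb
      · exact hne _ _ (by omega) hb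
      · exact hne _ _ (by omega) hb
      · exact k.2 hb
    · refine ⟨?_, ?_, ?_, ?_, ?_, ?_⟩ <;> exact on.pos (by simp)
  · intro a ha
    have := on.mem ha
    simp only [mem_insert, mem_singleton] at this
    rcases this with rfl | rfl | rfl | rfl | rfl | rfl
    exacts [hz, T'.m, T.m, n1, m1, m2]
  · intro a _ ta ha
    have := on.mem ha
    simp only [mem_insert, mem_singleton] at this
    rcases this with rfl | rfl | rfl | rfl | rfl | rfl
    · omega
    · omega
    · omega
    · exact ⟨p, f1, on.pos (by simp)⟩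
    · exact ⟨w, d1, on.pos (by simp)⟩
    · exact ⟨w, d2, on.pos (by simp)⟩
  · intro a _ ta hc ha
    have := on.mem ha
    simp only [mem_insert, mem_singleton] at this
    rcases this with rfl | rfl | rfl | rfl | rfl | rfl
    · omega
    · exact ⟨z, f2, on.pos (by simp)⟩
    · rw [T.cw, card_pair T.ne] at hc; omega
    · omega
    · omega
    · omega

theorem N1.ex (W : Two c c' t t' V Sd Sd' psi) (h : N1 c t Sd e) :
    Ex6 c c' t t' V Sd Sd' e := by
  obtain ⟨z, w, x, x', s, T, hz, cz, he⟩ := h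
  obtain ⟨m1, t1, m2, t2, d1, d2, -⟩ := T.facts W.s1
  have tw := T.tw
  have hwz : w ∈ c z := by rw [cz]; exact mem_singleton_self _
  obtain ⟨tz, f2⟩ := above_facts W.s1 hz hwz tw
  have hne : ∀ a b : P, t a ≠ t b → a ≠ b := fun a b h h' => h (congrArg t h')
  have ez : e z = 2 := by rw [he z, if_pos (Or.inl rfl)]
  have ew : e w = 2 := by rw [he w, if_pos (Or.inr rfl)]
  have ex : e x = 1 := by
    rw [he x, if_neg, if_pos (Or.inl rfl)]
    rintro (h | h)
    · exact hne _ _ (by omega) h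
    · exact hne _ _ (by omega) h
  have ex' : e x' = 1 := by
    rw [he x', if_neg, if_pos (Or.inr rfl)]
    rintro (h | h)
    · exact hne _ _ (by omega) h
    · exact hne _ _ (by omega) h
  have hpos : ∀ a, 0 < e a → a = z ∨ a = w ∨ a = x ∨ a = x' := by
    intro a ha
    rw [he a] at ha
    split_ifs at ha with h1 h2
    · tauto
    · tauto
    · omega
  refine Ex6.one_side W ?_ ?_ ⟨?_, ?_⟩ ?_
  · have h1 := four_le (e := e) (hne z w (by omega)) (hne z x (by omega)) (hne z x' (by omega))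
      (hne w x (by omega)) (hne w x' (by omega)) T.ne
    omega
  · intro a ha
    rcases hpos a ha with rfl | rfl | rfl | rfl
    exacts [hz, T.m, m1, m2]
  · intro a _ ta ha
    rcases hpos a ha with rfl | rfl | rfl | rfl
    · omega
    · omega
    · exact ⟨w, d1, by omega⟩
    · exact ⟨w, d2, by omega⟩
  · intro a _ ta ha
    rcases hpos a (by omega) with rfl | rfl | rfl | rfl
    · omega
    · exact ⟨z, f2, by omega⟩
    · omega
    · omega
  · intro a _ ta hc ha
    rcases hpos a ha with rfl | rfl | rfl | rfl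
    · omega
    · exact ⟨z, f2, by omega⟩
    · omega
    · omega

theorem TUp.ex (W : Two c c' t t' V Sd Sd' psi) (h : TUp c c' t t' Sd Sd' e) :
    Ex6 c c' t t' V Sd Sd' e := by
  obtain ⟨w, x, x', s, w', y, y', s', T, T', hd, on⟩ := h
  obtain ⟨m1, t1, m2, t2, d1, d2, -⟩ := T.facts W.s1
  obtain ⟨n1, u1, n2, u2, f1, f2, -⟩ := T'.facts W.s2
  have tw := T.tw
  have tw' := T'.tw
  have hne : ∀ a b : P, t a ≠ t b → a ≠ b := fun a b h h' => h (congrArg t h')
  have hne' : ∀ a b : P, t' a ≠ t' b → a ≠ b := fun a b h h' => h (congrArg t' h')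
  have hside : ∀ a ∈ Sd, 0 < e a → a = w ∨ a = x ∨ a = x' := by
    intro a ha h
    have := on.mem h
    simp only [mem_insert, mem_singleton] at this
    rcases this with h | h | h | rfl | rfl | rfl
    · exact Or.inl h
    · exact Or.inr (Or.inl h)
    · exact Or.inr (Or.inr h)
    · exact absurd T'.m (disjoint_left.1 W.d3 ha)
    · exact absurd n1 (disjoint_left.1 W.d3 ha)
    · exact absurd n2 (disjoint_left.1 W.d3 ha)
  have hside' : ∀ a ∈ Sd', 0 < e a → a = w' ∨ a = y ∨ a = y' := by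
    intro a ha h
    have := on.mem h
    simp only [mem_insert, mem_singleton] at this
    rcases this with rfl | rfl | rfl | h | h | h
    · exact absurd ha (disjoint_left.1 W.d3 T.m)
    · exact absurd ha (disjoint_left.1 W.d3 m1)
    · exact absurd ha (disjoint_left.1 W.d3 m2)
    · exact Or.inl h
    · exact Or.inr (Or.inl h)
    · exact Or.inr (Or.inr h)
  refine ⟨?_, ?_, Fin1.on on.le ?_, ?_, Fin1.on on.le ?_, ?_⟩
  · refine six_of (a := w) (b := x) (d := x') (f := w') (g := y) (h := y') ?_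
      (hne _ _ (by omega)) (hne _ _ (by omega)) T.ne (hne' _ _ (by omega)) (hne' _ _ (by omega))
      T'.ne ?_
    · refine Disjoint.mono ?_ ?_ W.d3
      · intro a ha
        simp only [mem_insert, mem_singleton] at ha
        rcases ha with rfl | rfl | rfl
        exacts [T.m, m1, m2]
      · intro a ha
        simp only [mem_insert, mem_singleton] at ha
        rcases ha with rfl | rfl | rfl
        exacts [T'.m, n1, n2]
    · refine ⟨?_, ?_, ?_, ?_, ?_, ?_⟩ <;> exact on.pos (by simp)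
  · intro v hv
    by_contra h
    have := on.mem (show 0 < e v by omega)
    simp only [mem_insert, mem_singleton] at this
    rcases this with rfl | rfl | rfl | rfl | rfl | rfl
    · exact (disjoint_left.1 W.d1 T.m) hv
    · exact (disjoint_left.1 W.d1 m1) hv
    · exact (disjoint_left.1 W.d1 m2) hv
    · exact (disjoint_left.1 W.d2 T'.m) hv
    · exact (disjoint_left.1 W.d2 n1) hv
    · exact (disjoint_left.1 W.d2 n2) hv
  · intro a ha ta h
    rcases hside a ha h with rfl | rfl | rfl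
    · omega
    · exact ⟨w, d1, on.pos (by simp)⟩
    · exact ⟨w, d2, on.pos (by simp)⟩
  · intro a ha ta hc h
    rcases hside a ha h with rfl | rfl | rfl
    · rw [T.cw, card_pair T.ne] at hc; omega
    · omega
    · omega
  · intro a ha ta h
    rcases hside' a ha h with rfl | rfl | rfl
    · omega
    · exact ⟨w', f1, on.pos (by simp)⟩
    · exact ⟨w', f2, on.pos (by simp)⟩
  · intro a ha ta hc h
    rcases hside' a ha h with rfl | rfl | rfl
    · rw [T'.cw, card_pair T'.ne] at hc; omega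
    · omega
    · omega

theorem TVp.ex (W : Two c c' t t' V Sd Sd' psi) (h : TVp c c' t t' Sd Sd' e) :
    Ex6 c c' t t' V Sd Sd' e := by
  obtain ⟨w, x, x', s, z, p, y, T, T', hd, on⟩ := h
  obtain ⟨m1, t1, m2, t2, d1, d2, -⟩ := T.facts W.s1
  obtain ⟨n1, u1, f1⟩ := T'.pen.facts W.s2
  have tw := T.tw
  have tp := T'.pen.tp
  have hpz : p ∈ c' z := by rw [T'.cz]; exact mem_singleton_self _
  obtain ⟨tz, f2⟩ := above_facts W.s2 T'.m hpz tp
  have hne : ∀ a b : P, t a ≠ t b → a ≠ b := fun a b h h' => h (congrArg t h')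
  have hne' : ∀ a b : P, t' a ≠ t' b → a ≠ b := fun a b h h' => h (congrArg t' h')
  have hside : ∀ a ∈ Sd, 0 < e a → a = w ∨ a = x ∨ a = x' := by
    intro a ha h
    have := on.mem h
    simp only [mem_insert, mem_singleton] at this
    rcases this with h | h | h | rfl | rfl | rfl
    · exact Or.inl h
    · exact Or.inr (Or.inl h)
    · exact Or.inr (Or.inr h)
    · exact absurd T'.m (disjoint_left.1 W.d3 ha)
    · exact absurd T'.pen.m (disjoint_left.1 W.d3 ha)
    · exact absurd n1 (disjoint_left.1 W.d3 ha)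
  have hside' : ∀ a ∈ Sd', 0 < e a → a = z ∨ a = p ∨ a = y := by
    intro a ha h
    have := on.mem h
    simp only [mem_insert, mem_singleton] at this
    rcases this with rfl | rfl | rfl | h | h | h
    · exact absurd ha (disjoint_left.1 W.d3 T.m)
    · exact absurd ha (disjoint_left.1 W.d3 m1)
    · exact absurd ha (disjoint_left.1 W.d3 m2)
    · exact Or.inl h
    · exact Or.inr (Or.inl h)
    · exact Or.inr (Or.inr h)
  refine ⟨?_, ?_, Fin1.on on.le ?_, ?_, Fin1.on on.le ?_, ?_⟩
  · refine six_of (a := w) (b := x) (d := x') (f := z) (g := p) (h := y) ?_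
      (hne _ _ (by omega)) (hne _ _ (by omega)) T.ne (hne' _ _ (by omega)) (hne' _ _ (by omega))
      (hne' _ _ (by omega)) ?_
    · refine Disjoint.mono ?_ ?_ W.d3
      · intro a ha
        simp only [mem_insert, mem_singleton] at ha
        rcases ha with rfl | rfl | rfl
        exacts [T.m, m1, m2]
      · intro a ha
        simp only [mem_insert, mem_singleton] at ha
        rcases ha with rfl | rfl | rfl
        exacts [T'.m, T'.pen.m, n1]
    · refine ⟨?_, ?_, ?_, ?_, ?_, ?_⟩ <;> exact on.pos (by simp)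
  · intro v hv
    by_contra h
    have := on.mem (show 0 < e v by omega)
    simp only [mem_insert, mem_singleton] at this
    rcases this with rfl | rfl | rfl | rfl | rfl | rfl
    · exact (disjoint_left.1 W.d1 T.m) hv
    · exact (disjoint_left.1 W.d1 m1) hv
    · exact (disjoint_left.1 W.d1 m2) hv
    · exact (disjoint_left.1 W.d2 T'.m) hv
    · exact (disjoint_left.1 W.d2 T'.pen.m) hv
    · exact (disjoint_left.1 W.d2 n1) hv
  · intro a ha ta h
    rcases hside a ha h with rfl | rfl | rfl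
    · omega
    · exact ⟨w, d1, on.pos (by simp)⟩
    · exact ⟨w, d2, on.pos (by simp)⟩
  · intro a ha ta hc h
    rcases hside a ha h with rfl | rfl | rfl
    · rw [T.cw, card_pair T.ne] at hc; omega
    · omega
    · omega
  · intro a ha ta h
    rcases hside' a ha h with rfl | rfl | rfl
    · omega
    · omega
    · exact ⟨p, f1, on.pos (by simp)⟩
  · intro a ha ta hc h
    rcases hside' a ha h with rfl | rfl | rfl
    · omega
    · exact ⟨z, f2, on.pos (by simp)⟩
    · omega

/-- all explicit configurations of energy six -/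
theorem LO6.ex (W : Two c c' t t' V Sd Sd' psi) (h : LO6 c c' t t' Sd Sd' e) :
    Ex6 c c' t t' V Sd Sd' e := by
  rcases h with h | h | h | h | h | h | h | h | h | h | h
  · exact h.ex W
  · exact (TTp.ex W.symm h).symm
  · exact h.ex W
  · exact (TCp.ex W.symm h).symm
  · exact h.ex W
  · exact h.ex W
  · exact (TVp.ex W.symm h).symm
  · exact h.ex W
  · exact (N1.ex W.symm h).symm
  · exact h.ex W
  · exact (N5.ex W.symm h).symm

end Pool.Agent.GaussPoset.Win.SO

end

/-! From `Pool.Agent.W_448so_h17.AsE` -/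

section

/-!
S9, row 476, ASSEMBLY at energy six (`PS6`): the window sums of a part without closed pair and
without flip.
-/

namespace Pool.Agent.GaussPoset.Win.SO

set_option linter.unusedSectionVars false

open Finset
open Pool.Agent.GaussPoset.Win.I2 (lS uS mem_lS mem_uS)
open Pool.Agent.GaussPoset.Win.So

universe u

variable {P : Type u} [Fintype P] [PartialOrder P] [DecidableEq P] {r i : ℕ} {psi : P → P}
  {e : P → ℕ} {C : Finset P} {w s w1 s1 y p u p' : P}

lemma lS_one {x : P} (h : lev x = i + 1) : x ∈ lS P i ∧ tL i x = 1 := by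
  refine ⟨mem_lS.2 (by omega), ?_⟩
  unfold tL
  omega

lemma lS_two {x : P} (h : lev x = i + 2) : x ∈ lS P i ∧ tL i x = 2 := by
  refine ⟨mem_lS.2 (by omega), ?_⟩
  unfold tL
  omega

lemma uS_one {x : P} (h : lev x + 1 = i) : x ∈ uS P i ∧ tU i x = 1 := by
  refine ⟨mem_uS.2 (by omega), ?_⟩
  unfold tU
  omega

lemma uS_two {x : P} (h : lev x + 2 = i) : x ∈ uS P i ∧ tU i x = 2 := by
  refine ⟨mem_uS.2 (by omega), ?_⟩
  unfold tU
  omega

/-- configurations with touched near elements are cores -/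
lemma core_of_f1 (H : Gr P r)
    (h1 : ∀ x ∈ lS P i, tL i x = 1 → 0 < e x → ∃ z ∈ dc x, 0 < e z)
    (h2 : ∀ x ∈ uS P i, tU i x = 1 → 0 < e x → ∃ z ∈ uc x, 0 < e z) :
    IsCore i ∅ psi e := by
  intro x hx
  obtain ⟨a1, -, a3, -⟩ := mem_Rst.1 hx
  by_contra h
  apply a3
  rw [mem_Tch]
  rcases mem_near.1 a1 with h3 | h3
  · obtain ⟨z, hz, hz'⟩ := h1 x (lS_one h3).1 (lS_one h3).2 (by omega)
    exact Or.inl ⟨h3, z, mem_dc.1 hz, hz'⟩
  · obtain ⟨z, hz, hz'⟩ := h2 x (uS_one h3).1 (uS_one h3).2 (by omega)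
    exact Or.inr ⟨h3, z, mem_uc.1 hz, hz'⟩

/-- no toggle if the sites have label zero and the labels at distance two are small -/
lemma no_tgp (H : Gr P r) (v0 : ∀ v ∈ lv P i, e v = 0)
    (h1 : Fin1 uc dc (tL (P := P) i) (lS P i) e) (h2 : Fin1 dc uc (tU (P := P) i) (uS P i) e) :
    ¬ TgP i e w s := by
  rintro (⟨x, x', a, c, T, -⟩ | ⟨x, x', a, c, T, -⟩)
  · have h3 := v0 s (mem_lv.2 (T.ls H))
    have h4 := T.st
    have h5 := T.hx
    have h6 := T.hx'
    obtain ⟨z, hz, hz'⟩ := h1.f2 w (lS_two T.lw).1 (lS_two T.lw).2 (by omega)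
    have h7 := T.cw z (mem_dc.1 hz)
    omega
  · have h3 := v0 s (mem_lv.2 (T.ls H))
    have h4 := T.st
    have h5 := T.hx
    have h6 := T.hx'
    obtain ⟨z, hz, hz'⟩ := h2.f2 w (uS_two T.lw).1 (uS_two T.lw).2 (by omega)
    have h7 := T.cw z (mem_uc.1 hz)
    omega

lemma no_refL (H : Gr P r) (D : RefD r i y p u p')
    (h1 : Fin2 uc dc (tL (P := P) i) (lS P i) e) : ¬ RefL e y p u p' := by
  intro R
  have lp := D.lp H
  obtain ⟨z, hz, hz'⟩ := h1 p (lS_two lp).1 (lS_two lp).2
    (by rw [D.cp]; exact card_singleton _) R.hp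
  have := R.chp z (mem_dc.1 hz)
  omega

lemma no_refU (H : Gr P r) (D : RefD r i y p u p')
    (h1 : Fin2 dc uc (tU (P := P) i) (uS P i) e) : ¬ RefU e y p u p' := by
  intro R
  have lp := D.lp' H
  obtain ⟨z, hz, hz'⟩ := h1 p' (uS_two lp).1 (uS_two lp).2
    (by rw [D.dp]; exact card_singleton _) R.hp
  have := R.abp z (mem_uc.1 hz)
  omega

/-! ### uniqueness of the toggles -/

lemma togL_site {x x' a c x1 x1' a1 c1 : P} (T : TogL i e w x x' a s c) (h : a ≠ c)
    (T1 : TogL i e w1 x1 x1' a1 s1 c1) (hx : ({x, x'} : Finset P) = {x1, x1'}) : s1 = s := by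
  have h1 : s1 ∈ uc x1 := by rw [T1.ux]; exact mem_insert_of_mem (mem_singleton_self _)
  have h2 : s1 ∈ uc x1' := by rw [T1.ux']; exact mem_insert_self _ _
  have h3 : s1 ∈ uc x ∧ s1 ∈ uc x' := by
    have e1 : x1 ∈ ({x, x'} : Finset P) := by rw [hx]; exact mem_insert_self _ _
    have e2 : x1' ∈ ({x, x'} : Finset P) := by
      rw [hx]; exact mem_insert_of_mem (mem_singleton_self _)
    rw [mem_insert, mem_singleton] at e1 e2
    have e3 := T1.xx'
    rcases e1 with rfl | rfl <;> rcases e2 with rfl | rfl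
    · exact absurd rfl e3
    · exact ⟨h1, h2⟩
    · exact ⟨h2, h1⟩
    · exact absurd rfl e3
  rw [T.ux, T.ux', mem_insert, mem_singleton, mem_insert, mem_singleton] at h3
  obtain ⟨h4 | h4, h5 | h5⟩ := h3
  · exact h5
  · exact absurd (h4.symm.trans h5) h
  · exact h4
  · exact h4

lemma togU_site {x x' a c x1 x1' a1 c1 : P} (T : TogU i e w x x' a s c) (h : a ≠ c)
    (T1 : TogU i e w1 x1 x1' a1 s1 c1) (hx : ({x, x'} : Finset P) = {x1, x1'}) : s1 = s := by
  have h1 : s1 ∈ dc x1 := by rw [T1.ux]; exact mem_insert_of_mem (mem_singleton_self _)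
  have h2 : s1 ∈ dc x1' := by rw [T1.ux']; exact mem_insert_self _ _
  have h3 : s1 ∈ dc x ∧ s1 ∈ dc x' := by
    have e1 : x1 ∈ ({x, x'} : Finset P) := by rw [hx]; exact mem_insert_self _ _
    have e2 : x1' ∈ ({x, x'} : Finset P) := by
      rw [hx]; exact mem_insert_of_mem (mem_singleton_self _)
    rw [mem_insert, mem_singleton] at e1 e2
    have e3 := T1.xx'
    rcases e1 with rfl | rfl <;> rcases e2 with rfl | rfl
    · exact absurd rfl e3
    · exact ⟨h1, h2⟩
    · exact ⟨h2, h1⟩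
    · exact absurd rfl e3
  rw [T.ux, T.ux', mem_insert, mem_singleton, mem_insert, mem_singleton] at h3
  obtain ⟨h4 | h4, h5 | h5⟩ := h3
  · exact h5
  · exact absurd (h4.symm.trans h5) h
  · exact h4
  · exact h4

/-- two toggles at energy at most six: the same, or a closed pair -/
theorem tgp_unique (H : Gr P r) (hE : ∑ x, e x ≤ 6)
    (h1 : ∀ w w' x x', lev w = i + 2 → x ≠ x' → uc w = {x, x'} → uc w' = {x, x'} →
      (uc x).card = 2 → (uc x').card = 2 → 0 < e w → 0 < e w' → w = w')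
    (h2 : ∀ w w' x x', lev w + 2 = i → x ≠ x' → dc w = {x, x'} → dc w' = {x, x'} →
      (dc x).card = 2 → (dc x').card = 2 → 0 < e w → 0 < e w' → w = w')
    (T : TgP i e w s) (T1 : TgP i e w1 s1) : w1 = w ∧ s1 = s := by
  rcases T with ⟨x, x', a, c, T, hac⟩ | ⟨x, x', a, c, T, hac⟩ <;>
    rcases T1 with ⟨x1, x1', a1, c1, T1, hac1⟩ | ⟨x1, x1', a1, c1, T1, hac1⟩
  · have hw : w = w1 := by
      rcases togL_unique H hE T T1 with h | h
      · exact h
      · refine h1 w w1 x x' T.lw T.xx' T.uw (by rw [T1.uw, h]) ?_ ?_ T.hw T1.hw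
        · rw [T.ux, card_pair T.as]
        · rw [T.ux', card_pair T.sc]
    subst hw
    refine ⟨rfl, togL_site T hac T1 ?_⟩
    rw [← T.uw, ← T1.uw]
  · exact (togLU H hE T T1).elim
  · exact (togLU H hE T1 T).elim
  · have hw : w = w1 := by
      rcases togU_unique H hE T T1 with h | h
      · exact h
      · refine h2 w w1 x x' T.lw T.xx' T.uw (by rw [T1.uw, h]) ?_ ?_ T.hw T1.hw
        · rw [T.ux, card_pair T.as]
        · rw [T.ux', card_pair T.sc]
    subst hw
    refine ⟨rfl, togU_site T hac T1 ?_⟩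
    rw [← T.uw, ← T1.uw]

theorem PS6.unique (Q : PS6 r i psi C) (hs : Spt C e) (hE : ∑ x, e x ≤ 6)
    (T : TgP i e w s) (T1 : TgP i e w1 s1) : w1 = w ∧ s1 = s := by
  refine tgp_unique Q.H hE ?_ ?_ T T1
  · intro w w' x x' a1 a2 a3 a4 a5 a6 a7 a8
    exact Q.ncl w (mem_of_spt hs a7) w' (mem_of_spt hs a8) x x' a1 a2 a3 a4 a5 a6
  · intro w w' x x' a1 a2 a3 a4 a5 a6 a7 a8
    exact Q.ncu w (mem_of_spt hs a7) w' (mem_of_spt hs a8) x x' a1 a2 a3 a4 a5 a6

/-! ### the reduced configuration -/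

lemma RefD.pd (H : Gr P r) (D : RefD r i y p u p') : p ∈ PD P i :=
  mem_PD.2 ⟨D.lp H, by rw [D.cp]; exact card_singleton _, y, D.py, D.two⟩

lemma RefD.pu (H : Gr P r) (D : RefD r i y p u p') : p' ∈ PU P i :=
  mem_PU.2 ⟨D.lp' H, by rw [D.dp]; exact card_singleton _, u, D.up, by rw [D.yu]; exact D.two⟩

/-- the reflection data of a part are unique -/
lemma PS6.ref_unique (Q : PS6 r i psi C) (D : RefD r i y p u p') (hpC : p ∈ C) (hpC' : p' ∈ C)
    {y1 p1 u1 p1' : P} (D1 : RefD r i y1 p1 u1 p1') (h1 : p1 ∈ C) (h1' : p1' ∈ C) :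
    y1 = y ∧ p1 = p ∧ u1 = u ∧ p1' = p' := by
  have e1 : p1 = p := Q.pd p1 h1 p hpC (RefD.pd Q.H D1) (RefD.pd Q.H D)
  have e2 : p1' = p' := Q.pu p1' h1' p' hpC' (RefD.pu Q.H D1) (RefD.pu Q.H D)
  subst e1
  subst e2
  refine ⟨?_, rfl, ?_, rfl⟩
  · have := D1.cp
    rw [D.cp, singleton_inj] at this
    exact this.symm
  · have := D1.dp
    rw [D.dp, singleton_inj] at this
    exact this.symm

theorem PS6.c4 (Q : PS6 r i psi C) (D : RefD r i y p u p') (hp : psi y = u)
    (hpC : p ∈ C) (hpC' : p' ∈ C) (R : RefL e y p u p') (hs : Spt C e)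
    (hc : IsCore i ∅ psi e) (hE : ∑ x, e x ≤ 6) :
    Cheap 1 i (red y p e) ∨ (Cheap 2 i (red y p e) ∧ ∃ w s, TgP i (red y p e) w s) := by
  have hpy : y ≠ p := D.py.lt.ne'
  have r1 : red y p e y = 0 := by
    unfold red
    exact up2_y _ _ _ _ _
  have r2 : red y p e p = 0 := by
    unfold red
    exact up2_p D.py.lt.ne _ _ _
  have hlt : ∑ x, red y p e x < ∑ x, e x := by
    apply Finset.sum_lt_sum
    · exact fun x _ => red_le y p e x
    · refine ⟨p, mem_univ _, ?_⟩
      rw [r2]
      exact R.hp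
  rcases Q.cls (spt_red hs y p) (R.red_core Q.H D Q.hM hp hc) (by omega) with
    h | h | h | h
  · exact Or.inl h
  · refine Or.inr ⟨h.1, ?_⟩
    rcases h.2 with ⟨w, x, x', a, s, b, T, hab⟩ | ⟨w, x, x', a, s, b, T, hab⟩
    · exact ⟨w, s, Or.inl ⟨x, x', a, b, T, hab⟩⟩
    · exact ⟨w, s, Or.inr ⟨x, x', a, b, T, hab⟩⟩
  · exfalso
    obtain ⟨y1, p1, u1, p1', h1, h1', -, D1, h3⟩ := h
    obtain ⟨rfl, rfl, rfl, rfl⟩ := Q.ref_unique D hpC hpC' D1 h1 h1'
    rcases h3 with h3 | h3
    · have := h3.hy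
      omega
    · have h4 := h3.hu
      have h5 := red_le y1 p1 e u1
      have h6 := R.eu
      omega
  · exfalso
    have := (LO6.ex Q.two h.2.2.2).E
    omega

/-! ### the sum over the cores -/

open Classical in
theorem PS6.level (Q : PS6 r i psi C) {q : ℕ} (hq : q ≤ 6) (m : ℕ) :
    dd ^ ((st i C).card - 1) ∣
      ∑ e ∈ (C.piAntidiag q).filter (IsCore i ∅ psi), J i psi C m e -
        ∑ e ∈ (C.piAntidiag q).filter
          (LO6 uc dc (tL (P := P) i) (tU i) (lS P i) (uS P i)), J i psi C m e := by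
  have hsum : ∀ e ∈ C.piAntidiag q, ∑ x, e x = q := fun e he => by
    rw [I2.mem_pa] at he
    exact he.1
  by_cases hD : ∃ y p u p', p ∈ C ∧ p' ∈ C ∧ psi y = u ∧ RefD r i y p u p'
  · obtain ⟨y, p, u, p', hpC, hpC', hp, D⟩ := hD
    rw [core_split (fun e => RefL e y p u p' ∨ RefU e y p u p')]
    have h1 := asm_N Q.H Q.hi Q.hi2 Q.hM Q.hC (q := q) m
      (fun e => ¬ (RefL e y p u p' ∨ RefU e y p u p')) (fun _ => True)
      (LO6 uc dc (tL (P := P) i) (tU i) (lS P i) (uS P i))
      (fun e w s T h => by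
        rw [refL_tg Q.H D T, refU_tg Q.H D T]
        exact h)
      (fun _ _ _ _ _ => trivial)
      (fun e he _ _ _ w s w1 s1 T T1 =>
        Q.unique (spt_pa he) (by rw [hsum e he]; exact hq) T T1)
      (fun e he hc hn _ w s T => by
        rcases Q.cls (spt_pa he) hc (by rw [hsum e he]; exact hq) with h | h | h | h
        · exact Cheap.mono (by omega) h
        · exact h.1
        · exfalso
          obtain ⟨y1, p1, u1, p1', h1, h1', -, D1, h3⟩ := h
          obtain ⟨rfl, rfl, rfl, rfl⟩ := Q.ref_unique D hpC hpC' D1 h1 h1'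
          exact hn h3
        · have h5 := LO6.ex Q.two h.2.2.2
          exact absurd T (no_tgp Q.H h5.v0 h5.a1 h5.b1))
      (fun e he hc hn ht hL => by
        rcases Q.cls (spt_pa he) hc (by rw [hsum e he]; exact hq) with h | h | h | h
        · exact h
        · exfalso
          rcases h.2 with ⟨w, x, x', a, s, b, T, hab⟩ | ⟨w, x, x', a, s, b, T, hab⟩
          · exact ht trivial w s (Or.inl ⟨x, x', a, b, T, hab⟩)
          · exact ht trivial w s (Or.inr ⟨x, x', a, b, T, hab⟩)
        · exfalso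
          obtain ⟨y1, p1, u1, p1', h1, h1', -, D1, h3⟩ := h
          obtain ⟨rfl, rfl, rfl, rfl⟩ := Q.ref_unique D hpC hpC' D1 h1 h1'
          exact hn h3
        · exact absurd h.2.2.2 hL)
      (fun e he hL => by
        have h5 := LO6.ex Q.two hL
        refine ⟨core_of_f1 Q.H h5.a1.f1 h5.b1.f1, ?_, fun _ w s => no_tgp Q.H h5.v0 h5.a1 h5.b1⟩
        rintro (h | h)
        · exact no_refL Q.H D h5.a2 h
        · exact no_refU Q.H D h5.b2 h)
    have h2 := asm_R Q.H Q.hi Q.hi2 Q.hM Q.hC D hp hpC hpC' (q := q) m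
      (fun e he hc R => Q.c4 D hp hpC hpC' R (spt_pa he) hc (by rw [hsum e he]; exact hq))
      (fun e he hc R w s w1 s1 T T1 => by
        refine Q.unique (spt_red (spt_pa he) y p) ?_ T T1
        have h3 : ∑ x, red y p e x ≤ ∑ x, e x :=
          Finset.sum_le_sum fun x _ => red_le y p e x
        rw [hsum e he] at h3
        omega)
    have h3 := dvd_add h1 h2
    convert h3 using 1
    rw [add_sub_right_comm]
    congr!
  · have h1 := asm_N Q.H Q.hi Q.hi2 Q.hM Q.hC (q := q) m
      (fun _ => True) (fun _ => True)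
      (LO6 uc dc (tL (P := P) i) (tU i) (lS P i) (uS P i))
      (fun _ _ _ _ _ => trivial)
      (fun _ _ _ _ _ => trivial)
      (fun e he _ _ _ w s w1 s1 T T1 =>
        Q.unique (spt_pa he) (by rw [hsum e he]; exact hq) T T1)
      (fun e he hc hn _ w s T => by
        rcases Q.cls (spt_pa he) hc (by rw [hsum e he]; exact hq) with h | h | h | h
        · exact Cheap.mono (by omega) h
        · exact h.1
        · exfalso
          obtain ⟨y1, p1, u1, p1', h1, h1', h2, D1, h3⟩ := h
          exact hD ⟨y1, p1, u1, p1', h1, h1', h2, D1⟩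
        · have h5 := LO6.ex Q.two h.2.2.2
          exact absurd T (no_tgp Q.H h5.v0 h5.a1 h5.b1))
      (fun e he hc hn ht hL => by
        rcases Q.cls (spt_pa he) hc (by rw [hsum e he]; exact hq) with h | h | h | h
        · exact h
        · exfalso
          rcases h.2 with ⟨w, x, x', a, s, b, T, hab⟩ | ⟨w, x, x', a, s, b, T, hab⟩
          · exact ht trivial w s (Or.inl ⟨x, x', a, b, T, hab⟩)
          · exact ht trivial w s (Or.inr ⟨x, x', a, b, T, hab⟩)
        · exfalso
          obtain ⟨y1, p1, u1, p1', h1, h1', h2, D1, h3⟩ := h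
          exact hD ⟨y1, p1, u1, p1', h1, h1', h2, D1⟩
        · exact absurd h.2.2.2 hL)
      (fun e he hL => by
        have h5 := LO6.ex Q.two hL
        exact ⟨core_of_f1 Q.H h5.a1.f1 h5.b1.f1, trivial,
          fun _ w s => no_tgp Q.H h5.v0 h5.a1 h5.b1⟩)
    simp only [and_true] at h1
    exact h1

open Classical in
/-- ASSEMBLY (A6) -/
theorem PS6.main (Q : PS6 r i psi C) {n : ℕ} (hn : n ≤ 6) :
    dd ^ ((st i C).card - 1) ∣ ZC i C n -
      ∑ e ∈ (C.piAntidiag n).filter (LO6 uc dc (tL (P := P) i) (tU i) (lS P i) (uS P i)),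
        tC i C e := by
  have hi2 := Q.hi2
  refine ZC_sub (psi := psi) Q.H (by omega) Q.hC.pred _ ?_ ?_
  · intro q hq e he hL
    rw [I2.mem_pa] at he
    have := (LO6.ex Q.two hL).E
    omega
  · intro q hq
    exact Q.level (by omega) _

/-- energies up to five -/
theorem PS6.le_five (Q : PS6 r i psi C) {n : ℕ} (hn : n ≤ 5) :
    dd ^ ((st i C).card - 1) ∣ ZC i C n := by
  classical
  have h := Q.main (n := n) (by omega)
  rw [Finset.filter_eq_empty_iff.2, Finset.sum_empty, sub_zero] at h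
  · exact h
  · intro e he hL
    rw [I2.mem_pa] at he
    have := (LO6.ex Q.two hL).E
    omega

open Classical in
theorem PS6.be_six (Q : PS6 r i psi C) (hb : 1 ≤ (st i C).card) :
    I2.be 6 (st i C).card (ZS i C) =
      ∑ e ∈ (C.piAntidiag 6).filter (LO6 uc dc (tL (P := P) i) (tU i) (lS P i) (uS P i)),
        PowerSeries.coeff (st i C).card (dd ^ 2 * tC i C e : A) :=
  be_sum _ hb (Q.main le_rfl)

theorem PS6.dvd_six (Q : PS6 r i psi C)
    (h2 : ∀ e ∈ C.piAntidiag 6, LO6 uc dc (tL (P := P) i) (tU i) (lS P i) (uS P i) e →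
      dd ^ ((st i C).card - 2) ∣ tC i C e) :
    dd ^ ((st i C).card - 2) ∣ ZC i C 6 := by
  classical
  exact ZC_dvd2 _ (Q.main le_rfl) h2

end Pool.Agent.GaussPoset.Win.SO

end

/-! From `Pool.Agent.W_448cl_h64.ClC` -/

section

/-!
CLOSED PAIRS AT ENERGY SIX (MP_448cb3_co, G2): the explicit list of energy six has no closed pair.
-/

set_option autoImplicit false

namespace Pool.Agent.GaussPoset.Win.SO

set_option linter.unusedSectionVars false

open Finset

universe u

section abstract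

variable {P : Type u} [Fintype P] [DecidableEq P]
variable {c c' : P → Finset P} {t t' : P → ℕ} {V Sd Sd' : Finset P} {psi : P → P} {e : P → ℕ}
variable {w x x' s w' y y' s' z p : P}

/-- at most one excited element at distance two with two covers -/
lemma noClo_one (h : ∀ q ∈ Sd, t q = 2 → 0 < e q → (c q).card = 2 → q = w) : ¬ Clo c t Sd e := by
  rintro ⟨w1, w2, a, b, m1, m2, t1, t2, hne, hab, c1, c2, -, -, e1, e2⟩
  apply hne
  rw [h w1 m1 t1 e1 (by rw [c1, card_pair hab]), h w2 m2 t2 e2 (by rw [c2, card_pair hab])]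

/-- nothing excited on this side -/
lemma noClo_zero (h : ∀ q ∈ Sd, e q = 0) : ¬ Clo c t Sd e := by
  rintro ⟨w1, w2, a, b, m1, m2, t1, t2, hne, hab, c1, c2, -, -, e1, e2⟩
  have := h w1 m1
  omega

lemma TTp.noClo (W : Two c c' t t' V Sd Sd' psi) (h : TTp c t Sd e) : ¬ Clo c t Sd e := by
  obtain ⟨w, x, x', s, w', y, y', s', T, T', hd, on⟩ := h
  obtain ⟨m1, t1, m2, t2, d1, d2, -⟩ := T.facts W.s1
  obtain ⟨n1, u1, n2, u2, f1, f2, -⟩ := T'.facts W.s1
  rintro ⟨w1, w2, a, b, k1, k2, v1, v2, hne, hab, c1, c2, -, -, e1, e2⟩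
  have key : ∀ q, t q = 2 → 0 < e q → q = w ∨ q = w' := by
    intro q tq eq
    have := on.mem eq
    simp only [mem_insert, mem_singleton] at this
    rcases this with rfl | rfl | rfl | rfl | rfl | rfl
    · exact Or.inl rfl
    · omega
    · omega
    · exact Or.inr rfl
    · omega
    · omega
  have hcc : c w = c w' := by
    rcases key w1 v1 e1 with rfl | rfl <;> rcases key w2 v2 e2 with rfl | rfl
    · exact absurd rfl hne
    · rw [c1, c2]
    · rw [c1, c2]
    · exact absurd rfl hne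
  have hx : x ∈ c w' := by
    rw [← hcc, T.cw]
    exact mem_insert_self _ _
  rw [T'.cw, mem_insert, mem_singleton] at hx
  have hs : s ∈ c x := T.sx
  refine disjoint_left.1 hd (mem_union_left _ hs) ?_
  rcases hx with rfl | rfl
  · exact mem_union_left _ hs
  · exact mem_union_right _ hs

lemma TCp.noClo (W : Two c c' t t' V Sd Sd' psi) (h : TCp c t Sd e) : ¬ Clo c t Sd e := by
  obtain ⟨w, x, x', s, z, p, y, T, T', hd, on⟩ := h
  obtain ⟨m1, t1, m2, t2, d1, d2, -⟩ := T.facts W.s1
  obtain ⟨n1, u1, f1⟩ := T'.pen.facts W.s1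
  have hpz : p ∈ c z := by rw [T'.cz]; exact mem_singleton_self _
  obtain ⟨tz, f2⟩ := above_facts W.s1 T'.m hpz T'.pen.tp
  apply noClo_one (w := w)
  intro q mq tq eq hc
  have := on.mem eq
  simp only [mem_insert, mem_singleton] at this
  rcases this with rfl | rfl | rfl | rfl | rfl | rfl
  · rfl
  · omega
  · omega
  · omega
  · rw [T'.pen.cp, card_singleton] at hc
    omega
  · omega

lemma N5.noClo (W : Two c c' t t' V Sd Sd' psi) (h : N5 c t Sd e) : ¬ Clo c t Sd e := by
  obtain ⟨z, p, y, w, x, x', s, T', T, hz, hzp, hzw, hpw, cz, hd, on⟩ := h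
  obtain ⟨m1, t1, m2, t2, d1, d2, -⟩ := T.facts W.s1
  obtain ⟨n1, u1, f1⟩ := T'.facts W.s1
  have hpz : p ∈ c z := by rw [cz]; exact mem_insert_self _ _
  obtain ⟨tz, f2⟩ := above_facts W.s1 hz hpz T'.tp
  apply noClo_one (w := w)
  intro q mq tq eq hc
  have := on.mem eq
  simp only [mem_insert, mem_singleton] at this
  rcases this with rfl | rfl | rfl | rfl | rfl | rfl
  · omega
  · rw [T'.cp, card_singleton] at hc
    omega
  · rfl
  · omega
  · omega
  · omega

lemma N1.noClo (W : Two c c' t t' V Sd Sd' psi) (h : N1 c t Sd e) : ¬ Clo c t Sd e := by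
  obtain ⟨z, w, x, x', s, T, hz, cz, he⟩ := h
  obtain ⟨m1, t1, m2, t2, d1, d2, -⟩ := T.facts W.s1
  have hwz : w ∈ c z := by rw [cz]; exact mem_singleton_self _
  obtain ⟨tz, f2⟩ := above_facts W.s1 hz hwz T.tw
  apply noClo_one (w := w)
  intro q mq tq eq hc
  have h1 := he q
  split_ifs at h1 with h2 h3
  · rcases h2 with rfl | rfl
    · omega
    · rfl
  · rcases h3 with rfl | rfl <;> omega
  · omega

lemma TUp.noClo (W : Two c c' t t' V Sd Sd' psi) (h : TUp c c' t t' Sd Sd' e) :
    ¬ Clo c t Sd e := by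
  obtain ⟨w, x, x', s, w', y, y', s', T, T', hd, on⟩ := h
  obtain ⟨m1, t1, m2, t2, d1, d2, -⟩ := T.facts W.s1
  obtain ⟨n1, u1, n2, u2, f1, f2, -⟩ := T'.facts W.s2
  apply noClo_one (w := w)
  intro q mq tq eq hc
  have := on.mem eq
  simp only [mem_insert, mem_singleton] at this
  rcases this with rfl | rfl | rfl | rfl | rfl | rfl
  · rfl
  · omega
  · omega
  · exact absurd T'.m (disjoint_left.1 W.d3 mq)
  · exact absurd n1 (disjoint_left.1 W.d3 mq)
  · exact absurd n2 (disjoint_left.1 W.d3 mq)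

lemma TVp.noClo (W : Two c c' t t' V Sd Sd' psi) (h : TVp c c' t t' Sd Sd' e) :
    ¬ Clo c t Sd e := by
  obtain ⟨w, x, x', s, z, p, y, T, T', hd, on⟩ := h
  obtain ⟨m1, t1, m2, t2, d1, d2, -⟩ := T.facts W.s1
  obtain ⟨n1, u1, f1⟩ := T'.pen.facts W.s2
  apply noClo_one (w := w)
  intro q mq tq eq hc
  have := on.mem eq
  simp only [mem_insert, mem_singleton] at this
  rcases this with rfl | rfl | rfl | rfl | rfl | rfl
  · rfl
  · omega
  · omega
  · exact absurd T'.m (disjoint_left.1 W.d3 mq)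
  · exact absurd T'.pen.m (disjoint_left.1 W.d3 mq)
  · exact absurd n1 (disjoint_left.1 W.d3 mq)

lemma TVp.noClo' (W : Two c c' t t' V Sd Sd' psi) (h : TVp c' c t' t Sd' Sd e) :
    ¬ Clo c t Sd e := by
  obtain ⟨w, x, x', s, z, p, y, T, T', hd, on⟩ := h
  obtain ⟨m1, t1, m2, t2, d1, d2, -⟩ := T.facts W.s2
  obtain ⟨n1, u1, f1⟩ := T'.pen.facts W.s1
  have hpz : p ∈ c z := by rw [T'.cz]; exact mem_singleton_self _
  obtain ⟨tz, f2⟩ := above_facts W.s1 T'.m hpz T'.pen.tp
  apply noClo_one (w := w)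
  intro q mq tq eq hc
  have := on.mem eq
  simp only [mem_insert, mem_singleton] at this
  rcases this with rfl | rfl | rfl | rfl | rfl | rfl
  · rfl
  · exact absurd m1 (disjoint_left.1 W.d3 mq)
  · exact absurd m2 (disjoint_left.1 W.d3 mq)
  · omega
  · rw [T'.pen.cp, card_singleton] at hc
    omega
  · omega

/-- configurations on the other side only -/
lemma noClo_side (W : Two c c' t t' V Sd Sd' psi) (h : ∀ x, 0 < e x → x ∈ Sd') :
    ¬ Clo c t Sd e := by
  apply noClo_zero
  intro q mq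
  by_contra h1
  exact disjoint_left.1 W.d3 mq (h q (by omega))

/-- THE LIST OF ENERGY SIX HAS NO CLOSED PAIR -/
theorem LO6.noClo (W : Two c c' t t' V Sd Sd' psi) (h : LO6 c c' t t' Sd Sd' e) :
    ¬ Clo c t Sd e := by
  rcases h with h | h | h | h | h | h | h | h | h | h | h
  · exact h.noClo W
  · obtain ⟨w, x, x', s, w', y, y', s', T, T', hd, on⟩ := h
    obtain ⟨m1, t1, m2, t2, d1, d2, -⟩ := T.facts W.s2
    obtain ⟨n1, u1, n2, u2, f1, f2, -⟩ := T'.facts W.s2
    apply noClo_side W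
    intro q eq
    have := on.mem eq
    simp only [mem_insert, mem_singleton] at this
    rcases this with rfl | rfl | rfl | rfl | rfl | rfl
    exacts [T.m, m1, m2, T'.m, n1, n2]
  · exact h.noClo W
  · obtain ⟨w, x, x', s, z, p, y, T, T', hd, on⟩ := h
    obtain ⟨m1, t1, m2, t2, d1, d2, -⟩ := T.facts W.s2
    obtain ⟨n1, u1, f1⟩ := T'.pen.facts W.s2
    apply noClo_side W
    intro q eq
    have := on.mem eq
    simp only [mem_insert, mem_singleton] at this
    rcases this with rfl | rfl | rfl | rfl | rfl | rfl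
    exacts [T.m, m1, m2, T'.m, T'.pen.m, n1]
  · exact h.noClo W
  · exact h.noClo W
  · exact h.noClo' W
  · exact h.noClo W
  · obtain ⟨z, w, x, x', s, T, hz, cz, he⟩ := h
    obtain ⟨m1, t1, m2, t2, d1, d2, -⟩ := T.facts W.s2
    apply noClo_side W
    intro q eq
    have h1 := he q
    split_ifs at h1 with h2 h3
    · rcases h2 with rfl | rfl
      · exact hz
      · exact T.m
    · rcases h3 with rfl | rfl
      · exact m1
      · exact m2
    · omega
  · exact h.noClo W
  · obtain ⟨z, p, y, w, x, x', s, T', T, hz, hzp, hzw, hpw, cz, hd, on⟩ := h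
    obtain ⟨m1, t1, m2, t2, d1, d2, -⟩ := T.facts W.s2
    obtain ⟨n1, u1, f1⟩ := T'.facts W.s2
    apply noClo_side W
    intro q eq
    have := on.mem eq
    simp only [mem_insert, mem_singleton] at this
    rcases this with rfl | rfl | rfl | rfl | rfl | rfl
    exacts [hz, T'.m, T.m, n1, m1, m2]

end abstract

end Pool.Agent.GaussPoset.Win.SO

end
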