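import Mathlib
import Pool.Agent.W_448zz_h61.Ns
import Pool.Agent.W_448zz_h61.M074
import Pool.Agent.W_448zz_h61.M088
import Pool.Agent.W_448zz_h61.M097
import Pool.Agent.W_448zz_h61.M110

/-! From `Pool.Agent.W_448so_h64.SoJ` -/

section

/-!
SECOND ORDER THEOREM (MP_448cb3_co, proofs row 476): the reduced configuration of a reflection (C4).
-/

namespace Pool.Agent.GaussPoset.Win.SO

set_option linter.unusedSectionVars false

open Finset
open Pool.Agent.GaussPoset.Win.I2 (lS uS mem_lS mem_uS)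
open Pool.Agent.GaussPoset.Win.So (TogL TogU RefL RefU RefD red up2 up2_y up2_p up2_ne)

universe u

variable {P : Type u} [Fintype P] [PartialOrder P] [DecidableEq P] {r i : ℕ} {psi : P → P}
  {e : P → ℕ} {C : Finset P}

lemma red_le (y p : P) (e : P → ℕ) (x : P) : red y p e x ≤ e x := by
  unfold red up2
  split_ifs <;> omega

end Pool.Agent.GaussPoset.Win.SO

end

/-! From `Pool.Agent.W_448cl_h64.ClB` -/

section

/-!
CLOSED PAIRS AT ENERGY SIX (MP_448cb3_co, G2): the classification for the cores of a part.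
-/

set_option autoImplicit false

namespace Pool.Agent.GaussPoset.Win.SO

set_option linter.unusedSectionVars false

open Finset
open Pool.Agent.GaussPoset.Win.I2 (lS uS mem_lS mem_uS side0_low)
open Pool.Agent.GaussPoset.Win.So (TogL TogU RefL RefU RefD TgP)
open Pool.Agent.GaussPoset.Win.Xg (CanD Can Tee Exo SdO Act laL laU rk rk_inj)

universe u

variable {P : Type u} [Fintype P] [PartialOrder P] [DecidableEq P] {r i : ℕ} {psi : P → P}
  {e : P → ℕ} {C : Finset P}

/-- closed pairs below the window are allowed, no flip: the case of energy six -/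
structure PS7 (r i : ℕ) (psi : P → P) (C : Finset P) : Prop extends PSO r i psi C where
  ncu : ∀ w ∈ C, ∀ w' ∈ C, ∀ x x' : P, lev w + 2 = i → x ≠ x' → dc w = {x, x'} →
    dc w' = {x, x'} → (dc x).card = 2 → (dc x').card = 2 → w = w'
  mtL : ∀ p ∈ C, p ∈ PD P i → ∃ y, uc p = {y} ∧ ∃ p' ∈ C, p' ∈ PU P i ∧ dc p' = {psi y}
  mtU : ∀ p' ∈ C, p' ∈ PU P i → ∃ u, dc p' = {u} ∧ ∃ p ∈ C, p ∈ PD P i ∧ uc p = {psi u}

lemma PS7.noCloU (Q : PS7 r i psi C) (hs : Spt C e) : ¬ Clo dc (tU (P := P) i) (uS P i) e := by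
  rintro ⟨w, w', x, x', h1, h2, h3, h4, h5, h6, h7, h8, h9, h10, h11, h12⟩
  rw [mem_uS] at h1
  unfold tU at h3
  exact h5 (Q.ncu w (mem_of_spt hs h11) w' (mem_of_spt hs h12) x x' (by omega) h6 h7 h8 h9 h10)

lemma PS7.noFlip (Q : PS7 r i psi C) (hs : Spt C e) {p y p' u : P}
    (h : Pen uc (tL (P := P) i) (lS P i) p y) (h' : Pen dc (tU (P := P) i) (uS P i) p' u)
    (h1 : 0 < e p) (h1' : 0 < e p') : u = psi y := by
  obtain ⟨g1, g2, g3, g4, g5⟩ := pen_low Q.H h
  obtain ⟨k1, k2, k3, k4, k5⟩ := pen_up Q.H h'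
  obtain ⟨y1, hy1, p1, hp1, hp1', hd⟩ := Q.mtL p (mem_of_spt hs h1) g1
  have e1 : y1 = y := by
    rw [g4, singleton_inj] at hy1
    exact hy1.symm
  subst e1
  have e2 := Q.pu p1 hp1 p' (mem_of_spt hs h1') hp1' k1
  subst e2
  rw [k4, singleton_inj] at hd
  exact hd

theorem PS7.refD (Q : PS7 r i psi C) {p y : P} (hp : p ∈ C) (hpd : p ∈ PD P i)
    (hy : uc p = {y}) : ∃ p' ∈ C, RefD r i y p (psi y) p' := by
  classical
  obtain ⟨y1, hy1, p', hp', hpu, hd⟩ := Q.mtL p hp hpd
  have e1 : y1 = y := by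
    rw [hy, singleton_inj] at hy1
    exact hy1.symm
  subst e1
  obtain ⟨hl, -, y2, hy2, hc⟩ := mem_PD.1 hpd
  have e2 : y2 = y1 := by
    have := mem_uc.2 hy2
    rw [hy, mem_singleton] at this
    exact this
  subst e2
  have hly := lev_uc Q.H (mem_uc.2 hy2)
  have hdb : y2 ∈ dbL P i := by unfold dbL; rw [mem_filter]; exact ⟨mem_univ _, by omega, hc⟩
  obtain ⟨g1, g2⟩ := Q.hM.low y2 hdb (by simp)
  unfold dbU at g1
  rw [mem_filter] at g1
  have := Q.hi2
  exact ⟨p', hp', ⟨by omega, g1.2.1, by omega, hy, hd, g2, hc⟩⟩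

theorem PS7.refD' (Q : PS7 r i psi C) {p' u : P} (hp : p' ∈ C) (hpd : p' ∈ PU P i)
    (hu : dc p' = {u}) : ∃ p ∈ C, RefD r i (psi u) p u p' := by
  classical
  obtain ⟨y1, hy1, p, hp1, hpu, hd⟩ := Q.mtU p' hp hpd
  have e1 : y1 = u := by
    rw [hu, singleton_inj] at hy1
    exact hy1.symm
  subst e1
  obtain ⟨hl, -, y2, hy2, hc⟩ := mem_PU.1 hpd
  have e2 : y2 = y1 := by
    have := mem_dc.2 hy2
    rw [hu, mem_singleton] at this
    exact this
  subst e2
  have hly := lev_dc Q.H (mem_dc.2 hy2)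
  have hdb : y2 ∈ dbU P i := by unfold dbU; rw [mem_filter]; exact ⟨mem_univ _, by omega, hc⟩
  obtain ⟨g1, g2⟩ := Q.hM.upp y2 hdb (by simp)
  unfold dbL at g1
  rw [mem_filter] at g1
  have := Q.hi2
  exact ⟨p, hp1, ⟨g1.2.1, by omega, by omega, hd, hu, g2.symm, g1.2.2⟩⟩

/-- a toggle at the first of the elements over the two doubles is an exchange -/
theorem canD_of_togL {w x x' a s b : P} (T : TogL i e w x x' a s b) (hab : a ≠ b)
    (hr : ∀ d', uc d' = {x, x'} → rk d' < rk w → e d' = 0) : CanD i e w s := by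
  left
  refine ⟨x, x', a, b, ⟨?_, T.uw, T.ux, T.ux', T.ds, T.xx', T.as, T.sc, hab⟩, ?_, hr⟩
  · have := T.lw
    unfold laL
    omega
  · refine ⟨T.hw, ?_, ?_, ?_, ?_, ?_⟩
    · intro t ht
      exact T.cw t (mem_dc.1 ht)
    · intro u hu
      have h1 := T.us u (mem_uc.1 hu)
      have h2 := T.hw
      omega
    · by_cases h : e x < e w ∨ e x < e s + 1
      · exact Or.inr ⟨fun d' hd' hne => T.dx d' (mem_dc.1 hd') hne, T.ca h⟩
      · exact Or.inl (by omega)
    · by_cases h : e x' < e w ∨ e x' < e s + 1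
      · exact Or.inr ⟨fun d' hd' hne => T.dx' d' (mem_dc.1 hd') hne, T.cc h⟩
      · exact Or.inl (by omega)
    · have h1 := T.st
      unfold Act
      omega

/-- the type of the labellings over a closed pair which are not exchanged: the first element of the
pair has label one, the second at least two -/
def LA (i : ℕ) (e : P → ℕ) : Prop :=
  ∃ w w' x x' s, TD uc (tL (P := P) i) (lS P i) w x x' s ∧
    TD uc (tL (P := P) i) (lS P i) w' x x' s ∧ rk w < rk w' ∧
    1 ≤ e w ∧ 2 ≤ e w' ∧ 1 ≤ e x ∧ 1 ≤ e x'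

/-- the reflection class of a part -/
def RfC (r i : ℕ) (psi : P → P) (C : Finset P) (e : P → ℕ) : Prop :=
  ∃ y p u p', p ∈ C ∧ p' ∈ C ∧ psi y = u ∧ RefD r i y p u p' ∧
    (RefL e y p u p' ∨ RefU e y p u p')

/-- the data of a closed pair -/
lemma clo_td (Q : PSO r i psi C) (hA : AdmL i e)
    (h : Clo uc (tL (P := P) i) (lS P i) e) : ∃ w w' x x' s,
    TD uc (tL (P := P) i) (lS P i) w x x' s ∧ TD uc (tL (P := P) i) (lS P i) w' x x' s ∧
      rk w < rk w' ∧ 1 ≤ e w ∧ 1 ≤ e w' := by
  obtain ⟨w, w', x, x', mw, mw', tw, tw', hww, xx', cw, cw', c2, c2', ew, ew'⟩ := h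
  have hx : x ∈ uc w := by rw [cw]; exact mem_insert_self _ _
  have hx' : x' ∈ uc w := by rw [cw]; exact mem_insert_of_mem (mem_singleton_self _)
  obtain ⟨s, hs⟩ : ∃ s, uc x ∩ uc x' = {s} := by
    rcases Q.nlL w mw tw x hx x' hx' xx' with h1 | h1
    · exact card_eq_one.1 h1
    · omega
  have hs1 : s ∈ uc x ∩ uc x' := by rw [hs]; exact mem_singleton_self _
  rw [mem_inter] at hs1
  have only : ∀ v, v ∈ uc x → v ∈ uc x' → v = s := by
    intro v h1 h2
    have : v ∈ uc x ∩ uc x' := mem_inter.2 ⟨h1, h2⟩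
    rwa [hs, mem_singleton] at this
  have T : TD uc (tL (P := P) i) (lS P i) w x x' s :=
    ⟨mw, tw, cw, xx', c2, c2', hs1.1, hs1.2, only⟩
  have T' : TD uc (tL (P := P) i) (lS P i) w' x x' s :=
    ⟨mw', tw', cw', xx', c2, c2', hs1.1, hs1.2, only⟩
  rcases Nat.lt_trichotomy (rk w) (rk w') with h1 | h1 | h1
  · exact ⟨w, w', x, x', s, T, T', h1, ew, ew'⟩
  · exact absurd (rk_inj h1) hww
  · exact ⟨w', w, x, x', s, T', T, h1, ew', ew⟩

/-- the lower covers of the doubles of a closed pair -/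
lemma pair_dc (H : Gr P r) {w w' x x' s : P} (T : TD uc (tL (P := P) i) (lS P i) w x x' s)
    (T' : TD uc (tL (P := P) i) (lS P i) w' x x' s) (hne : w ≠ w') :
    dc x = {w, w'} ∧ dc x' = {w, w'} :=
  So.pair_down (side0_low H i) T T' hne

lemma rk_ne {w w' : P} (h : rk w < rk w') : w ≠ w' := by
  rintro rfl
  omega

lemma pair_first (H : Gr P r) {w w' x x' s : P} (T : TD uc (tL (P := P) i) (lS P i) w x x' s)
    (T' : TD uc (tL (P := P) i) (lS P i) w' x x' s) (hr : rk w < rk w') {d : P}
    (hd : uc d = {x, x'}) : d = w ∨ d = w' := by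
  have h1 : d ∈ dc x := by
    rw [mem_dc, ← mem_uc, hd]
    exact mem_insert_self _ _
  rw [(pair_dc H T T' (rk_ne hr)).1, mem_insert, mem_singleton] at h1
  exact h1

/-- reflections of the abstract setting -/
lemma PS7.ref_of (Q : PS7 r i psi C) (hs : Spt C e) (hA : AdmL i e) (hB : AdmU i e)
    (h : (∃ p y, Ref uc dc (tL (P := P) i) (lS P i) psi e p y) ∨
      ∃ p y, Ref dc uc (tU (P := P) i) (uS P i) psi e p y) : RfC r i psi C e := by
  classical
  have hi2 := Q.hi2
  rcases h with ⟨p, y, R⟩ | ⟨p', u, R⟩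
  · obtain ⟨g1, g2, g3, g4, g5⟩ := pen_low Q.H R.pen
    have hpC := mem_of_spt hs (show 0 < e p by have := R.p1; omega)
    obtain ⟨p', hp', D⟩ := Q.refD hpC g1 g4
    refine ⟨y, p, psi y, p', hpC, hp', rfl, D, Or.inl ?_⟩
    exact RefL.mk' Q.H D (by omega) hA hB R.p1 R.u0 (fun z hz hzp => R.dy z (mem_dc.2 hz) hzp)
      (fun z hz => R.dp z (mem_dc.2 hz))
  · obtain ⟨g1, g2, g3, g4, g5⟩ := pen_up Q.H R.pen
    have hpC := mem_of_spt hs (show 0 < e p' by have := R.p1; omega)
    obtain ⟨p, hp, D⟩ := Q.refD' hpC g1 g4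
    have hdb : u ∈ dbU P i := by unfold dbU; rw [mem_filter]; exact ⟨mem_univ _, g3, g5⟩
    refine ⟨psi u, p, u, p', hp, hpC, (Q.hM.invol u (mem_union_right _ hdb) (by simp)).1, D,
      Or.inr ?_⟩
    exact RefU.mk' Q.H D (by omega) hA hB R.p1 R.u0 (fun z hz hzp => R.dy z (mem_uc.2 hz) hzp)
      (fun z hz => R.dp z (mem_uc.2 hz))

/-- four elements -/
lemma four_sum {a b c d : P} (h : [a, b, c, d].Nodup) : e a + e b + e c + e d ≤ ∑ x, e x := by
  have hT := So.tot (e := e) h
  simp only [List.map_cons, List.sum_cons, List.map_nil, List.sum_nil] at hT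
  omega

lemma pair_nodup (H : Gr P r) {w w' x x' s : P} (T : TD uc (tL (P := P) i) (lS P i) w x x' s)
    (T' : TD uc (tL (P := P) i) (lS P i) w' x x' s) (hne : w ≠ w') :
    [w, w', x, x'].Nodup ∧ [s, w, w', x, x'].Nodup := by
  have lw := T.lw
  have lw' := T'.lw
  obtain ⟨lx, lx'⟩ := T.lx H
  have ls := T.site H (mem_union_left _ T.sx)
  have xx' := T.ne
  have n0 : [w, w', x, x'].Nodup := by
    simp only [List.nodup_cons, List.mem_cons, List.not_mem_nil, or_false, not_or, List.nodup_nil,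
      and_true, not_false_eq_true]
    and_intros
    all_goals first
      | assumption
      | (apply Ne.symm; assumption)
      | (intro hnd; subst hnd; omega)
  refine ⟨n0, ?_⟩
  rw [List.nodup_cons]
  refine ⟨?_, n0⟩
  simp only [List.mem_cons, List.not_mem_nil, or_false, not_or]
  refine ⟨?_, ?_, ?_, ?_⟩ <;> rintro rfl <;> omega

/-- CLASSIFICATION for the cores of a part with closed pairs, energy at most six -/
theorem PS7.cls (Q : PS7 r i psi C) (hs : Spt C e) (hc : IsCore i ∅ psi e) (hE : ∑ x, e x ≤ 6) :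
    Cheap 1 i e ∨
    (¬ Clo uc (tL (P := P) i) (lS P i) e ∧ Cheap 2 i e ∧ ∃ w s, TgP i e w s) ∨
    RfC r i psi C e ∨
    (¬ Clo uc (tL (P := P) i) (lS P i) e ∧ AdmL i e ∧ AdmU i e ∧ Disjoint (AL i e) (AU i e) ∧
      LO6 uc dc (tL (P := P) i) (tU i) (lS P i) (uS P i) e) ∨
    (Clo uc (tL (P := P) i) (lS P i) e ∧ AdmL i e ∧ AdmU i e ∧ Cheap 2 i e ∧ 5 ≤ ∑ x, e x ∧
      ((∃ d x, CanD i e d x) ∨ LA i e)) := by
  classical
  by_cases hA : AdmL i e
  swap
  · exact Or.inl (Or.inl hA)
  by_cases hB : AdmU i e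
  swap
  · exact Or.inl (Or.inr (Or.inl hB))
  by_cases hd : Disjoint (AL i e) (AU i e)
  swap
  · exact Or.inl (Or.inr (Or.inr (Or.inl hd)))
  have hir := Q.hi2
  have hcf := cfg_of Q.H Q.hi2 Q.hM hc hA hB hd
  by_cases hK : Clo uc (tL (P := P) i) (lS P i) e
  · obtain ⟨w, w', x, x', s, T, T', hr, ew, ew'⟩ := clo_td Q.toPSO hA hK
    rcases So.clo6 Q.two hcf hE T T' (rk_ne hr) ew ew' with h | h | h | ⟨h, h'⟩
    · exact Or.inl (cheap_of h)
    · exact Or.inr (Or.inr (Or.inl (Q.ref_of hs hA hB (Or.inl h))))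
    · exact Or.inr (Or.inr (Or.inl (Q.ref_of hs hA hB (Or.inr h))))
    · right; right; right; right
      refine ⟨hK, hA, hB, cheap_of h, ?_⟩
      obtain ⟨n0, n1⟩ := pair_nodup Q.H T T' (rk_ne hr)
      have hT := four_sum (e := e) n0
      rcases h' with h' | ⟨g1, g2, g3, g4⟩
      · have hT5 := So.tot (e := e) n1
        simp only [List.map_cons, List.sum_cons, List.map_nil, List.sum_nil] at hT5
        have hst := h'.st
        have hx1 := h'.x1
        have hx1' := h'.x1'
        refine ⟨by omega, Or.inl ?_⟩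
        obtain ⟨a, b, h1, h2⟩ := togL_of Q.H Q.hM h'
        refine ⟨w, s, canD_of_togL h1 h2 ?_⟩
        intro d hd hlt
        rcases pair_first Q.H T T' hr hd with rfl | rfl <;> omega
      · exact ⟨by omega, Or.inr ⟨w, w', x, x', s, T, T', hr, ew, g2, g3, g4⟩⟩
  · rcases classify Q.two hcf (Q.pdx hs) (Q.pux hs) hE with
      h | h | h | h | h | h | h
    · exact Or.inl (cheap_of h)
    · exact absurd h hK
    · exact absurd h (Q.noCloU hs)
    · obtain ⟨p, y, p', u, h1, h2, h3, h4, h5⟩ := h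
      exact absurd (Q.noFlip hs h1 h2 h3 h4) h5
    · right; left
      refine ⟨hK, cheap_of h.1, ?_⟩
      rcases h.2 with ⟨w, x, x', s, T⟩ | ⟨w, x, x', s, T⟩
      · obtain ⟨a, b, h1, h2⟩ := togL_of Q.H Q.hM T
        exact ⟨w, s, Or.inl ⟨x, x', a, b, h1, h2⟩⟩
      · obtain ⟨a, b, h1, h2⟩ := togU_of Q.H Q.hM T
        exact ⟨w, s, Or.inr ⟨x, x', a, b, h1, h2⟩⟩
    · exact Or.inr (Or.inr (Or.inl (Q.ref_of hs hA hB h.1)))
    · right; right; right; left
      exact ⟨hK, hA, hB, hd, h⟩

end Pool.Agent.GaussPoset.Win.SO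

end

/-! From `Pool.Agent.W_448cl_h64.ClD` -/

section

/-!
CLOSED PAIRS AT ENERGY SIX (MP_448cb3_co, G2): the sums over the cores with a closed pair.
-/

set_option autoImplicit false

namespace Pool.Agent.GaussPoset.Win.SO

set_option linter.unusedSectionVars false

open Finset
open Pool.Agent.GaussPoset.Win.I2 (lS uS mem_lS mem_uS side0_low)
open Pool.Agent.GaussPoset.Win.So (TogL TogU RefL RefU RefD TgP spt_pa J)
open Pool.Agent.GaussPoset.Win.Xg (CanD Can Tee Exo SdO Act laL laU rk rk_inj CC_xc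
  sideL sideU exchange_JK core_xc)
open Pool.Agent.GaussPoset.Win.Kd (xc xc_d xc_x xc_of)

universe u

variable {P : Type u} [Fintype P] [PartialOrder P] [DecidableEq P] {r i : ℕ} {psi : P → P}
  {e : P → ℕ} {C : Finset P} {d x y p u p' : P}

/-- an exchange does not change which elements outside the window are excited -/
lemma xc_zero (H : Gr P r) (h : CanD i e d x) {z : P} (hz : lev z ≠ i) :
    xc d x e z = 0 ↔ e z = 0 := by
  have hv := h.lvl H
  by_cases hd : z = d
  · subst hd
    rw [xc_d]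
    omega
  · rw [xc_of hd (by rintro rfl; omega)]

lemma refL_xc (H : Gr P r) (D : RefD r i y p u p') (h : CanD i e d x) :
    RefL (xc d x e) y p u p' ↔ RefL e y p u p' := by
  have ly := D.ly
  have lp := D.lp H
  have lu := D.lu
  have lp' := D.lp' H
  have k : ∀ z, lev z ≠ i → (xc d x e z = 0 ↔ e z = 0) := fun z hz => xc_zero H h hz
  have k1 : ∀ z, lev z ≠ i → (1 ≤ xc d x e z ↔ 1 ≤ e z) := fun z hz => by
    have := k z hz
    omega
  constructor
  · intro R
    refine ⟨(k1 y (by omega)).1 R.hy, (k1 p (by omega)).1 R.hp, (k u (by omega)).1 R.eu, ?_, ?_,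
      ?_, ?_⟩
    · intro z hz hzp
      have l1 := lev_uc H (mem_uc.2 hz)
      exact (k z (by omega)).1 (R.ch z hz hzp)
    · intro z hz
      have l1 := lev_uc H (mem_uc.2 hz)
      exact (k z (by omega)).1 (R.chp z hz)
    · intro z hz
      have l1 := lev_uc H (mem_uc.2 hz)
      exact (k z (by omega)).1 (R.ab z hz)
    · intro z hz
      have l1 := lev_uc H (mem_uc.2 hz)
      exact (k z (by omega)).1 (R.abp z hz)
  · intro R
    refine ⟨(k1 y (by omega)).2 R.hy, (k1 p (by omega)).2 R.hp, (k u (by omega)).2 R.eu, ?_, ?_,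
      ?_, ?_⟩
    · intro z hz hzp
      have l1 := lev_uc H (mem_uc.2 hz)
      exact (k z (by omega)).2 (R.ch z hz hzp)
    · intro z hz
      have l1 := lev_uc H (mem_uc.2 hz)
      exact (k z (by omega)).2 (R.chp z hz)
    · intro z hz
      have l1 := lev_uc H (mem_uc.2 hz)
      exact (k z (by omega)).2 (R.ab z hz)
    · intro z hz
      have l1 := lev_uc H (mem_uc.2 hz)
      exact (k z (by omega)).2 (R.abp z hz)

lemma refU_xc (H : Gr P r) (D : RefD r i y p u p') (h : CanD i e d x) :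
    RefU (xc d x e) y p u p' ↔ RefU e y p u p' := by
  have ly := D.ly
  have lp := D.lp H
  have lu := D.lu
  have lp' := D.lp' H
  have k : ∀ z, lev z ≠ i → (xc d x e z = 0 ↔ e z = 0) := fun z hz => xc_zero H h hz
  have k1 : ∀ z, lev z ≠ i → (1 ≤ xc d x e z ↔ 1 ≤ e z) := fun z hz => by
    have := k z hz
    omega
  constructor
  · intro R
    refine ⟨(k1 u (by omega)).1 R.hu, (k1 p' (by omega)).1 R.hp, (k y (by omega)).1 R.ey, ?_, ?_,
      ?_, ?_⟩
    · intro z hz hzp
      have l1 := lev_uc H (mem_uc.2 hz)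
      exact (k z (by omega)).1 (R.ab z hz hzp)
    · intro z hz
      have l1 := lev_uc H (mem_uc.2 hz)
      exact (k z (by omega)).1 (R.abp z hz)
    · intro z hz
      have l1 := lev_uc H (mem_uc.2 hz)
      exact (k z (by omega)).1 (R.ch z hz)
    · intro z hz
      have l1 := lev_uc H (mem_uc.2 hz)
      exact (k z (by omega)).1 (R.chp z hz)
  · intro R
    refine ⟨(k1 u (by omega)).2 R.hu, (k1 p' (by omega)).2 R.hp, (k y (by omega)).2 R.ey, ?_, ?_,
      ?_, ?_⟩
    · intro z hz hzp
      have l1 := lev_uc H (mem_uc.2 hz)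
      exact (k z (by omega)).2 (R.ab z hz hzp)
    · intro z hz
      have l1 := lev_uc H (mem_uc.2 hz)
      exact (k z (by omega)).2 (R.abp z hz)
    · intro z hz
      have l1 := lev_uc H (mem_uc.2 hz)
      exact (k z (by omega)).2 (R.ch z hz)
    · intro z hz
      have l1 := lev_uc H (mem_uc.2 hz)
      exact (k z (by omega)).2 (R.chp z hz)

lemma rfC_xc (H : Gr P r) (h : CanD i e d x) :
    RfC r i psi C (xc d x e) ↔ RfC r i psi C e := by
  unfold RfC
  refine exists_congr fun y => exists_congr fun p => exists_congr fun u => exists_congr fun p' =>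
    and_congr_right fun _ => and_congr_right fun _ => and_congr_right fun _ =>
      and_congr_right fun D => ?_
  rw [refL_xc H D h, refU_xc H D h]

lemma clo_congr {f : P → ℕ} (k : ∀ z : P, lev z ≠ i → (f z = 0 ↔ e z = 0))
    (h : Clo uc (tL (P := P) i) (lS P i) f) : Clo uc (tL (P := P) i) (lS P i) e := by
  obtain ⟨a, a', x, x', h1, h2, h3, h4, h5, h6, h7, h8, h9, h10, h11, h12⟩ := h
  have l1 := mem_lS.1 h1
  have l2 := mem_lS.1 h2
  have k1 := k a (by omega)
  have k2 := k a' (by omega)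
  exact ⟨a, a', x, x', h1, h2, h3, h4, h5, h6, h7, h8, h9, h10, by omega, by omega⟩

lemma clo_xc (H : Gr P r) (h : CanD i e d x) :
    Clo uc (tL (P := P) i) (lS P i) (xc d x e) ↔ Clo uc (tL (P := P) i) (lS P i) e :=
  ⟨clo_congr fun z hz => xc_zero H h hz, clo_congr fun z hz => (xc_zero H h hz).symm⟩

lemma clo_tg (H : Gr P r) {w s : P} (T : TgP i e w s) :
    Clo uc (tL (P := P) i) (lS P i) (So.tg w s e) ↔ Clo uc (tL (P := P) i) (lS P i) e := by
  have ls := T.ls H
  have k : ∀ z, lev z ≠ i → (So.tg w s e z = 0 ↔ e z = 0) := fun z hz =>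
    T.zero (by rintro rfl; exact hz ls)
  exact ⟨clo_congr k, clo_congr fun z hz => (k z hz).symm⟩

/-- THE EXCHANGED CORES WITH A CLOSED PAIR cancel -/
theorem PS7.clo_S (Q : PS7 r i psi C) {q : ℕ} (hq : q ≤ 6) (m : ℕ)
    [DecidablePred (fun e : P → ℕ => IsCore i ∅ psi e ∧ Clo uc (tL (P := P) i) (lS P i) e ∧
      ¬ RfC r i psi C e ∧ AdmL i e ∧ AdmU i e ∧ ∃ d x, CanD i e d x)] :
    dd ^ ((st i C).card - 1) ∣ ∑ e ∈ (C.piAntidiag q).filter (fun e : P → ℕ =>
      IsCore i ∅ psi e ∧ Clo uc (tL (P := P) i) (lS P i) e ∧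
      ¬ RfC r i psi C e ∧ AdmL i e ∧ AdmU i e ∧ ∃ d x, CanD i e d x), J i psi C m e := by
  classical
  have hi2 := Q.hi2
  have hC0 : Part i C := Q.hC.pred
  rcases Nat.lt_or_ge (st i C).card 2 with hb | hb
  · rw [show (st i C).card - 1 = 0 by omega, pow_zero]
    exact one_dvd _
  rw [show (st i C).card - 1 = (st i C).card - 2 + 1 by omega]
  have hJ : ∀ e : P → ℕ, J i psi C m e = W4.JK i ∅ psi C m e := fun e => rfl
  rw [sum_congr rfl fun e _ => hJ e]
  have hmem : ∀ e, e ∈ (C.piAntidiag q).filter (fun e : P → ℕ =>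
      IsCore i ∅ psi e ∧ Clo uc (tL (P := P) i) (lS P i) e ∧
      ¬ RfC r i psi C e ∧ AdmL i e ∧ AdmU i e ∧ ∃ d x, CanD i e d x) ↔
      (∑ x, e x = q ∧ Spt C e) ∧ IsCore i ∅ psi e ∧ Clo uc (tL (P := P) i) (lS P i) e ∧
      ¬ RfC r i psi C e ∧ AdmL i e ∧ AdmU i e ∧ ∃ d x, CanD i e d x := by
    intro e
    rw [mem_filter, mem_piA]
  refine exchange_JK Q.H (by omega) hC0 ?_ ?_ ?_
  · intro e he
    rw [hmem] at he
    obtain ⟨⟨a1, a2⟩, a3, a4, a5, a6, a7, d, x, a8⟩ := he
    refine ⟨a2, a3, a6, a7, ?_, ?_⟩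
    · have : (d, x) ∈ Xg.CC i e := (Xg.mem_CC Q.H).2 a8
      exact card_pos.2 ⟨_, this⟩
    · intro t ht
      have h := (Xg.mem_CC Q.H).1 ht
      exact h.clr Q.H Q.hM (uc_card_le Q.H _) (dc_card_le Q.H _) (fun y _ => notMem_empty y)
  · intro e he d' x' h
    rw [hmem] at he ⊢
    obtain ⟨⟨a1, a2⟩, a3, a4, a5, a6, a7, d, x, a8⟩ := he
    obtain ⟨s1, s2, s3⟩ := h.spt Q.H hC0 a2
    refine ⟨⟨?_, s3⟩, (core_xc Q.H h).2 a3, (clo_xc Q.H h).2 a4,
      fun g => a5 ((rfC_xc Q.H h).1 g), (h.adm Q.H).1.2 a6, (h.adm Q.H).2.1.2 a7, d, x, ?_⟩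
    · have k1 : ∑ y, xc d' x' e y = C.sum (xc d' x' e) := by
        symm
        refine Finset.sum_subset (subset_univ _) fun y _ hy => s3 y hy
      have k2 : ∑ y, e y = C.sum e := by
        symm
        refine Finset.sum_subset (subset_univ _) fun y _ hy => a2 y hy
      rw [k1, h.sum Q.H hC0 a2, ← k2, a1]
    · have := CC_xc Q.H a6 a7 h
      rw [← Xg.mem_CC Q.H (t := (d, x)), this, Xg.mem_CC Q.H]
      exact a8
  · intro e he
    rw [hmem] at he
    obtain ⟨⟨a1, a2⟩, a3, a4, a5, a6, a7, d, x, a8⟩ := he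
    have h2 : Cheap 2 i e := by
      rcases Q.cls a2 a3 (by omega) with h | h | h | h | h
      · exact Cheap.mono (by omega) h
      · exact absurd a4 h.1
      · exact absurd h a5
      · exact absurd a4 h.1
      · exact h.2.2.2.1
    exact W4.JK_dvd Q.H Q.hi Q.hi2 Q.hM Q.hC (Rk_of_cheap h2) m

/-! ### the labellings of type A -/

section LA

/-- the energy and the pendants -/
lemma LA.rf (H : Gr P r) (hE : ∑ x, e x ≤ 6) (h : LA i e) : ¬ RfC r i psi C e := by
  obtain ⟨w, w', x, x', s, T, T', hr, ew, ew', ex, ex'⟩ := h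
  have hne := rk_ne hr
  obtain ⟨n0, n1⟩ := pair_nodup H T T' hne
  obtain ⟨dx, dx'⟩ := pair_dc H T T' hne
  have lw := T.lw
  have lw' := T'.lw
  obtain ⟨lx, lx'⟩ := T.lx H
  rintro ⟨y, p, u, p', -, -, -, D, R | R⟩
  · have ly := D.ly
    have lp := D.lp H
    have hpn : p ≠ w ∧ p ≠ w' := by
      constructor
      · rintro rfl
        have h1 := D.cp
        rw [T.cw] at h1
        have h2 := card_pair T.ne
        rw [h1, card_singleton] at h2
        omega
      · rintro rfl
        have h1 := D.cp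
        rw [T'.cw] at h1
        have h2 := card_pair T.ne
        rw [h1, card_singleton] at h2
        omega
    have hpy : p ∈ dc y := by
      rw [mem_dc, ← mem_uc, D.cp]
      exact mem_singleton_self _
    have hyn : y ≠ x ∧ y ≠ x' := by
      constructor
      · rintro rfl
        rw [dx, mem_insert, mem_singleton] at hpy
        tauto
      · rintro rfl
        rw [dx', mem_insert, mem_singleton] at hpy
        tauto
    have n2 : [y, p, w, w', x, x'].Nodup := by
      rw [List.nodup_cons, List.nodup_cons]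
      refine ⟨?_, ?_, n0⟩
      · simp only [List.mem_cons, List.not_mem_nil, or_false, not_or]
        refine ⟨?_, ?_, ?_, hyn.1, hyn.2⟩ <;> rintro rfl <;> omega
      · simp only [List.mem_cons, List.not_mem_nil, or_false, not_or]
        refine ⟨hpn.1, hpn.2, ?_, ?_⟩ <;> rintro rfl <;> omega
    have hT := So.tot (e := e) n2
    simp only [List.map_cons, List.sum_cons, List.map_nil, List.sum_nil] at hT
    have h1 := R.hy
    have h2 := R.hp
    omega
  · have lu := D.lu
    have lp := D.lp' H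
    have n2 : [u, p', w, w', x, x'].Nodup := by
      rw [List.nodup_cons, List.nodup_cons]
      refine ⟨?_, ?_, n0⟩
      · simp only [List.mem_cons, List.not_mem_nil, or_false, not_or]
        refine ⟨?_, ?_, ?_, ?_, ?_⟩ <;> rintro rfl <;> omega
      · simp only [List.mem_cons, List.not_mem_nil, or_false, not_or]
        refine ⟨?_, ?_, ?_, ?_⟩ <;> rintro rfl <;> omega
    have hT := So.tot (e := e) n2
    simp only [List.map_cons, List.sum_cons, List.map_nil, List.sum_nil] at hT
    have h1 := R.hu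
    have h2 := R.hp
    omega

lemma LA.clo (h : LA i e) : Clo uc (tL (P := P) i) (lS P i) e := by
  obtain ⟨w, w', x, x', s, T, T', hr, ew, ew', ex, ex'⟩ := h
  exact ⟨w, w', x, x', T.m, T'.m, T.tw, T'.tw, rk_ne hr, T.ne, T.cw, T'.cw, T.cx, T.cx', ew,
    by omega⟩

lemma LA.five (H : Gr P r) (h : LA i e) : 5 ≤ ∑ x, e x := by
  obtain ⟨w, w', x, x', s, T, T', hr, ew, ew', ex, ex'⟩ := h
  have := four_sum (e := e) (pair_nodup H T T' (rk_ne hr)).1
  omega

/-- labellings of type A are not exchanged -/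
lemma LA.can (H : Gr P r) (hE : ∑ x, e x ≤ 6) (hir : i ≤ r) (hA : AdmL i e) (hB : AdmU i e)
    (h : LA i e) : ¬ ∃ d x, CanD i e d x := by
  obtain ⟨w, w', x, x', s, T, T', hr, ew, ew', ex, ex'⟩ := h
  have hne := rk_ne hr
  obtain ⟨n0, n1⟩ := pair_nodup H T T' hne
  obtain ⟨dx, dx'⟩ := pair_dc H T T' hne
  have lw := T.lw
  have lw' := T'.lw
  obtain ⟨lx, lx'⟩ := T.lx H
  have S := side0_low H i (P := P)
  have aL := I2.adm_low hA
  -- two further excited elements are impossible
  have two : ∀ q q', q ≠ w → q ≠ w' → q ≠ x → q ≠ x' → q' ≠ w → q' ≠ w' → q' ≠ x → q' ≠ x' →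
      q ≠ q' → 1 ≤ e q → 1 ≤ e q' → False := by
    intro q q' q1 q2 q3 q4 r1 r2 r3 r4 hqq q5 r5
    have n2 : [q, q', w, w', x, x'].Nodup := by
      rw [List.nodup_cons, List.nodup_cons]
      refine ⟨?_, ?_, n0⟩
      · simp only [List.mem_cons, List.not_mem_nil, or_false, not_or]
        exact ⟨hqq, q1, q2, q3, q4⟩
      · simp only [List.mem_cons, List.not_mem_nil, or_false, not_or]
        exact ⟨r1, r2, r3, r4⟩
    have hT := So.tot (e := e) n2
    simp only [List.map_cons, List.sum_cons, List.map_nil, List.sum_nil] at hT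
    omega
  have hw'x : w' ⋖ x := by rw [← mem_dc, dx]; simp
  have hw'x' : w' ⋖ x' := by rw [← mem_dc, dx']; simp
  rintro ⟨d, x0, h | h⟩
  · obtain ⟨w1, w2, p0, q0, Te, E, hrk⟩ := h
    have l1 := Te.ld
    have l2 := Te.lv (sideL H i)
    unfold laL at l1 l2
    have ed := E.pos
    have md : d ∈ lS P i := mem_lS.2 (by omega)
    have cov : ∀ b ∈ uc d, b ∈ lS P i ∧ 1 ≤ e b := by
      intro b hb
      obtain ⟨k1, k2, k3⟩ := So.z_cov S aL md (by
        have := S.cin d md b hb
        have h3 := S.tS d md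
        show 2 ≤ lev d - i
        omega) ed hb
      exact ⟨k1, k3⟩
    have h1m : w1 ∈ uc d := by rw [Te.ud]; exact mem_insert_self _ _
    have h2m : w2 ∈ uc d := by rw [Te.ud]; exact mem_insert_of_mem (mem_singleton_self _)
    by_cases hdp : d = w ∨ d = w'
    · -- the exchange at the pair
      have hud : uc d = {x, x'} := by rcases hdp with rfl | rfl <;> [exact T.cw; exact T'.cw]
      have hdw : d = w := by
        rcases hdp with h1 | h1
        · exact h1
        · exfalso
          subst h1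
          have := hrk w (by rw [← Te.ud, hud, T.cw]) hr
          omega
      subst hdw
      have hs5 := So.tot (e := e) n1
      simp only [List.map_cons, List.sum_cons, List.map_nil, List.sum_nil] at hs5
      -- the site of the exchange is `s`
      have hset : ({w1, w2} : Finset P) = {x, x'} := by rw [← Te.ud, hud]
      have hx1 : w1 = x ∨ w1 = x' := by
        have : w1 ∈ ({x, x'} : Finset P) := by rw [← hset]; exact mem_insert_self _ _
        simpa only [mem_insert, mem_singleton] using this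
      have hx2 : w2 = x ∨ w2 = x' := by
        have : w2 ∈ ({x, x'} : Finset P) := by
          rw [← hset]; exact mem_insert_of_mem (mem_singleton_self _)
        simpa only [mem_insert, mem_singleton] using this
      have c1 : x0 ∈ uc w1 := by rw [Te.uw]; exact mem_insert_of_mem (mem_singleton_self _)
      have c2 : x0 ∈ uc w2 := by rw [Te.uw2]; exact mem_insert_self _ _
      have hs : x0 = s := by
        apply T.only
        · rcases hx1 with g | g
          · rw [← g]; exact c1
          · rcases hx2 with g' | g'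
            · rw [← g']; exact c2
            · exact absurd (g.trans g'.symm) Te.ne
        · rcases hx1 with g | g
          · rcases hx2 with g' | g'
            · exact absurd (g.trans g'.symm) Te.ne
            · rw [← g']; exact c2
          · rw [← g]; exact c1
      subst hs
      -- admissibility: the site is not excited
      have hs0 : ¬ (1 ≤ e x0) := by
        intro hs1
        have g1 : e x = 1 ∧ e w' = 2 ∧ e x0 = 1 := by omega
        exact hA x (by omega) ⟨⟨w', hw'x, by omega⟩, x0, mem_uc.1 T.sx, by omega⟩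
      have ew1 : 1 ≤ e w1 ∧ 1 ≤ e w2 := by
        rcases hx1 with rfl | rfl <;> rcases hx2 with rfl | rfl <;> exact ⟨by assumption, by assumption⟩
      have hact : 2 ≤ e d := by
        have := E.act
        unfold Act at this
        omega
      have g1 : e d = 2 ∧ e w' = 2 ∧ e x = 1 ∧ e x' = 1 := by omega
      have h3 := E.s1
      unfold SdO at h3
      have hw1 : e w1 = 1 := by rcases hx1 with rfl | rfl <;> omega
      rcases h3 with h3 | h3
      · omega
      · have h4 := h3.1 w' (by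
          rcases hx1 with rfl | rfl
          · exact mem_dc.2 hw'x
          · exact mem_dc.2 hw'x') hne.symm
        omega
    · push Not at hdp
      obtain ⟨b1, b2⟩ := cov w1 h1m
      obtain ⟨b3, b4⟩ := cov w2 h2m
      have nx : ∀ b ∈ uc d, b ≠ x ∧ b ≠ x' := by
        intro b hb
        constructor
        · rintro rfl
          have : d ∈ dc b := mem_dc.2 (mem_uc.1 hb)
          rw [dx, mem_insert, mem_singleton] at this
          tauto
        · rintro rfl
          have : d ∈ dc b := mem_dc.2 (mem_uc.1 hb)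
          rw [dx', mem_insert, mem_singleton] at this
          tauto
      refine two d w1 hdp.1 hdp.2 ?_ ?_ ?_ ?_ (nx w1 h1m).1 (nx w1 h1m).2 ?_ ed b2
      all_goals (rintro rfl; omega)
  · obtain ⟨w1, w2, p0, q0, Te, E, hrk⟩ := h
    have l1 := Te.ld
    have l2 := Te.lv (sideU H i)
    unfold laU at l1 l2
    have ed := E.pos
    have S' := I2.side0_up H hir (P := P)
    have aU := I2.adm_up hB
    have md : d ∈ uS P i := mem_uS.2 (by omega)
    have h1m : w1 ∈ dc d := by rw [Te.ud]; exact mem_insert_self _ _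
    obtain ⟨k1, k2, k3⟩ := So.z_cov S' aU md (by
      show 2 ≤ i - lev d
      omega) ed h1m
    refine two d w1 ?_ ?_ ?_ ?_ ?_ ?_ ?_ ?_ ?_ ed k3
    all_goals (rintro rfl; omega)

end LA

end Pool.Agent.GaussPoset.Win.SO

end

/-! From `Pool.Agent.W_448cl_h64.ClE` -/

section

/-!
CLOSED PAIRS AT ENERGY SIX (MP_448cb3_co, G2): assembly.
-/

set_option autoImplicit false

namespace Pool.Agent.GaussPoset.Win.SO

set_option linter.unusedSectionVars false

open Finset
open Pool.Agent.GaussPoset.Win.I2 (lS uS mem_lS mem_uS side0_low)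
open Pool.Agent.GaussPoset.Win.So
open Pool.Agent.GaussPoset.Win.Xg (CanD rk)

universe u

variable {P : Type u} [Fintype P] [PartialOrder P] [DecidableEq P] {r i : ℕ} {psi : P → P}
  {e : P → ℕ} {C : Finset P} {w s w1 s1 y p u p' : P}

/-- the reflection data of a part are unique -/
lemma PSO.ref_unique (Q : PSO r i psi C) (D : RefD r i y p u p') (hpC : p ∈ C) (hpC' : p' ∈ C)
    {y1 p1 u1 p1' : P} (D1 : RefD r i y1 p1 u1 p1') (h1 : p1 ∈ C) (h1' : p1' ∈ C) :
    y1 = y ∧ p1 = p ∧ u1 = u ∧ p1' = p' := by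
  have e1 : p1 = p := Q.pd p1 h1 p hpC (SO.RefD.pd Q.H D1) (SO.RefD.pd Q.H D)
  have e2 : p1' = p' := Q.pu p1' h1' p' hpC' (SO.RefD.pu Q.H D1) (SO.RefD.pu Q.H D)
  subst e1
  subst e2
  refine ⟨?_, rfl, ?_, rfl⟩
  · have := D1.cp
    rw [D.cp, singleton_inj] at this
    exact this.symm
  · have := D1.dp
    rw [D.dp, singleton_inj] at this
    exact this.symm

/-- uniqueness of the toggles without closed pair -/
lemma PS7.unique (Q : PS7 r i psi C) (hs : Spt C e)
    (h : ¬ Clo uc (tL (P := P) i) (lS P i) e) (hE : ∑ x, e x ≤ 6)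
    (T : TgP i e w s) (T1 : TgP i e w1 s1) : w1 = w ∧ s1 = s := by
  refine tgp_unique Q.H hE ?_ ?_ T T1
  · intro w w' x x' a1 a2 a3 a4 a5 a6 a7 a8
    by_contra hne
    have l1 := lev_uc Q.H (x := w) (v := x) (by rw [a3]; exact mem_insert_self _ _)
    have l2 := lev_uc Q.H (x := w') (v := x) (by rw [a4]; exact mem_insert_self _ _)
    exact h ⟨w, w', x, x', (lS_two a1).1, (lS_two (by omega)).1, (lS_two a1).2,
      (lS_two (by omega)).2, hne, a2, a3, a4, a5, a6, a7, a8⟩
  · intro w w' x x' a1 a2 a3 a4 a5 a6 a7 a8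
    exact Q.ncu w (mem_of_spt hs a7) w' (mem_of_spt hs a8) x x' a1 a2 a3 a4 a5 a6

/-- no toggle at a closed pair of energy four -/
lemma no_tg_four (H : Gr P r) (h : Clo uc (tL (P := P) i) (lS P i) e) (hE : ∑ x, e x ≤ 4) :
    ¬ TgP i e w s := by
  obtain ⟨a, a', x, x', h1, h2, h3, h4, h5, h6, h7, h8, h9, h10, h11, h12⟩ := h
  have l1 := mem_lS.1 h1
  have l2 := mem_lS.1 h2
  unfold tL at h3 h4
  rintro (⟨x1, x1', b, c, T, -⟩ | ⟨x1, x1', b, c, T, -⟩)
  · have lw := T.lw
    have lx := lev_uc H (x := w) (v := x1) (by rw [T.uw]; exact mem_insert_self _ _)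
    have lx' := lev_uc H (x := w) (v := x1') (by
      rw [T.uw]; exact mem_insert_of_mem (mem_singleton_self _))
    have ls := T.ls H
    have xx := T.xx'
    have n0 : [s, a, a', x1, x1'].Nodup := by
      simp only [List.nodup_cons, List.mem_cons, List.not_mem_nil, or_false, not_or,
        List.nodup_nil, and_true, not_false_eq_true]
      and_intros
      all_goals first
        | assumption
        | (intro hnd; subst hnd; omega)
    have hT := So.tot (e := e) n0
    simp only [List.map_cons, List.sum_cons, List.map_nil, List.sum_nil] at hT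
    have e1 := T.hw
    have e2 := T.hx
    have e3 := T.hx'
    have st := T.st
    by_cases hw : w = a ∨ w = a'
    · rcases hw with rfl | rfl <;> omega
    · push Not at hw
      have n1 : [w, a, a', x1, x1'].Nodup := by
        simp only [List.nodup_cons, List.mem_cons, List.not_mem_nil, or_false, not_or,
          List.nodup_nil, and_true, not_false_eq_true]
        and_intros
        all_goals first
          | assumption
          | exact hw.1
          | exact hw.2
          | (intro hnd; subst hnd; omega)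
      have hT := So.tot (e := e) n1
      simp only [List.map_cons, List.sum_cons, List.map_nil, List.sum_nil] at hT
      omega
  · have lw := T.lw
    have lx := lev_dc H (x := w) (v := x1) (by rw [T.uw]; exact mem_insert_self _ _)
    have lx' := lev_dc H (x := w) (v := x1') (by
      rw [T.uw]; exact mem_insert_of_mem (mem_singleton_self _))
    have xx := T.xx'
    have n0 : [w, a, a', x1, x1'].Nodup := by
      simp only [List.nodup_cons, List.mem_cons, List.not_mem_nil, or_false, not_or,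
        List.nodup_nil, and_true, not_false_eq_true]
      and_intros
      all_goals first
        | assumption
        | (intro hnd; subst hnd; omega)
    have hT := So.tot (e := e) n0
    simp only [List.map_cons, List.sum_cons, List.map_nil, List.sum_nil] at hT
    have e1 := T.hw
    have e2 := T.hx
    have e3 := T.hx'
    omega

/-- the energy of the reduced configuration -/
lemma red_energy (hyp : y ≠ p) : ∑ x, red y p e x + e y + e p ≤ ∑ x, e x := by
  have h1 : ∑ x, (red y p e x + (if x = y then e y else 0) + (if x = p then e p else 0)) ≤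
      ∑ x, e x := by
    refine Finset.sum_le_sum fun x _ => ?_
    unfold red up2
    by_cases h1 : x = y
    · subst h1
      rw [if_pos rfl, if_pos rfl, if_neg hyp]
      omega
    · by_cases h2 : x = p
      · subst h2
        rw [if_neg h1, if_pos rfl, if_neg h1, if_pos rfl]
        omega
      · rw [if_neg h1, if_neg h2, if_neg h1, if_neg h2]
        omega
  rw [sum_add_distrib, sum_add_distrib, sum_ite_eq' univ y, sum_ite_eq' univ p,
    if_pos (mem_univ _), if_pos (mem_univ _)] at h1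
  exact h1

theorem PS7.c4 (Q : PS7 r i psi C) (D : RefD r i y p u p') (hp : psi y = u)
    (hpC : p ∈ C) (hpC' : p' ∈ C) (R : RefL e y p u p') (hs : Spt C e)
    (hc : IsCore i ∅ psi e) (hE : ∑ x, e x ≤ 6) :
    Cheap 1 i (red y p e) ∨ (Cheap 2 i (red y p e) ∧ ∃ w s, TgP i (red y p e) w s) := by
  have hpy : y ≠ p := D.py.lt.ne'
  have r1 : red y p e y = 0 := by
    unfold red
    exact up2_y _ _ _ _ _
  have r2 : red y p e p = 0 := by
    unfold red
    exact up2_p D.py.lt.ne _ _ _
  have hsum := red_energy (e := e) hpy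
  have h1 := R.hy
  have h2 := R.hp
  rcases Q.cls (spt_red hs y p) (R.red_core Q.H D Q.hM hp hc) (by omega) with
    h | h | h | h | h
  · exact Or.inl h
  · exact Or.inr h.2
  · exfalso
    obtain ⟨y1, p1, u1, p1', h1, h1', -, D1, h3⟩ := h
    obtain ⟨rfl, rfl, rfl, rfl⟩ := Q.ref_unique D hpC hpC' D1 h1 h1'
    rcases h3 with h3 | h3
    · have := h3.hy
      omega
    · have h4 := h3.hu
      have h5 := red_le y1 p1 e u1
      have h6 := R.eu
      omega
  · exfalso
    have := (LO6.ex Q.two h.2.2.2.2).E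
    omega
  · exfalso
    have := h.2.2.2.2.1
    omega

/-- the cores with a closed pair -/
theorem PS7.rest (Q : PS7 r i psi C) (hs : Spt C e) (hc : IsCore i ∅ psi e) (hE : ∑ x, e x ≤ 6)
    (h1 : Clo uc (tL (P := P) i) (lS P i) e) (h2 : ¬ RfC r i psi C e)
    (h3 : ¬ (AdmL i e ∧ AdmU i e ∧ ∃ d x, CanD i e d x)) (h4 : ¬ LA i e) : Cheap 1 i e := by
  rcases Q.cls hs hc hE with h | h | h | h | h
  · exact h
  · exact absurd h1 h.1
  · exact absurd h h2
  · exact absurd h1 h.1
  · obtain ⟨-, a1, a2, -, -, h5 | h5⟩ := h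
    · exact absurd ⟨a1, a2, h5⟩ h3
    · exact absurd h5 h4

open Classical in
theorem PS7.clo_level (Q : PS7 r i psi C) {q : ℕ} (hq : q ≤ 6) (m : ℕ) :
    dd ^ ((st i C).card - 1) ∣
      ∑ e ∈ (C.piAntidiag q).filter (fun e => IsCore i ∅ psi e ∧
        Clo uc (tL (P := P) i) (lS P i) e ∧ ¬ RfC r i psi C e), J i psi C m e -
      ∑ e ∈ (C.piAntidiag q).filter (fun e => IsCore i ∅ psi e ∧ LA i e), J i psi C m e := by
  have hir := Q.hi2
  have hsum : ∀ e ∈ C.piAntidiag q, ∑ x, e x ≤ 6 := fun e he => by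
    rw [I2.mem_pa] at he
    omega
  set X := (C.piAntidiag q).filter (fun e => IsCore i ∅ psi e ∧
        Clo uc (tL (P := P) i) (lS P i) e ∧ ¬ RfC r i psi C e) with hX
  set A0 : (P → ℕ) → Prop := fun e => AdmL i e ∧ AdmU i e ∧ ∃ d x, CanD i e d x with hA0
  have e1 : ∑ e ∈ X, J i psi C m e = ∑ e ∈ X.filter A0, J i psi C m e +
      ∑ e ∈ X.filter (fun e => ¬ A0 e), J i psi C m e :=
    (Finset.sum_filter_add_sum_filter_not _ _ _).symm
  have e2 : ∑ e ∈ X.filter (fun e => ¬ A0 e), J i psi C m e =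
      ∑ e ∈ (X.filter (fun e => ¬ A0 e)).filter (LA i), J i psi C m e +
      ∑ e ∈ (X.filter (fun e => ¬ A0 e)).filter (fun e => ¬ LA i e), J i psi C m e :=
    (Finset.sum_filter_add_sum_filter_not _ _ _).symm
  have e3 : (X.filter (fun e => ¬ A0 e)).filter (LA i) =
      (C.piAntidiag q).filter (fun e => IsCore i ∅ psi e ∧ LA i e) := by
    ext e
    simp only [hX, mem_filter]
    constructor
    · rintro ⟨⟨⟨a1, a2, a3, a4⟩, a5⟩, a6⟩
      exact ⟨a1, a2, a6⟩
    · rintro ⟨a1, a2, a3⟩
      refine ⟨⟨⟨a1, a2, a3.clo, a3.rf Q.H (hsum e a1)⟩, ?_⟩, a3⟩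
      rintro ⟨b1, b2, b3⟩
      exact a3.can Q.H (hsum e a1) (by omega) b1 b2 b3
  have e4 : X.filter A0 = (C.piAntidiag q).filter (fun e : P → ℕ =>
      IsCore i ∅ psi e ∧ Clo uc (tL (P := P) i) (lS P i) e ∧
      ¬ RfC r i psi C e ∧ AdmL i e ∧ AdmU i e ∧ ∃ d x, CanD i e d x) := by
    ext e
    simp only [hX, hA0, mem_filter]
    tauto
  rw [e1, e2, e3, e4, show ∀ a b c : A, a + (b + c) - b = a + c from fun a b c => by ring]
  refine dvd_add (Q.clo_S hq m) ?_
  refine Finset.dvd_sum fun e he => ?_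
  simp only [hX, mem_filter] at he
  obtain ⟨⟨⟨a1, a2, a3, a4⟩, a5⟩, a6⟩ := he
  exact J_dvd Q.H Q.hi Q.hi2 Q.hM Q.hC
    (Rk_of_cheap (Q.rest (spt_pa a1) a2 (hsum e a1) a3 a4 a5 a6)) m

lemma rfC_tg (H : Gr P r) (T : TgP i e w s) :
    RfC r i psi C (tg w s e) ↔ RfC r i psi C e := by
  unfold RfC
  refine exists_congr fun y => exists_congr fun p => exists_congr fun u => exists_congr fun p' =>
    and_congr_right fun _ => and_congr_right fun _ => and_congr_right fun _ =>
      and_congr_right fun D => ?_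
  rw [refL_tg H D T, refU_tg H D T]

open Classical in
theorem PS7.nclo_level (Q : PS7 r i psi C) {q : ℕ} (hq : q ≤ 6) (m : ℕ) :
    dd ^ ((st i C).card - 1) ∣
      ∑ e ∈ (C.piAntidiag q).filter (fun e => IsCore i ∅ psi e ∧
        (¬ Clo uc (tL (P := P) i) (lS P i) e ∧ ¬ RfC r i psi C e)), J i psi C m e -
      ∑ e ∈ (C.piAntidiag q).filter
          (LO6 uc dc (tL (P := P) i) (tU i) (lS P i) (uS P i)), J i psi C m e := by
  have hsum : ∀ e ∈ C.piAntidiag q, ∑ x, e x ≤ 6 := fun e he => by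
    rw [I2.mem_pa] at he
    omega
  have hN : ∀ e w s, TgP i e w s →
      (¬ Clo uc (tL (P := P) i) (lS P i) e ∧ ¬ RfC r i psi C e) →
      (¬ Clo uc (tL (P := P) i) (lS P i) (tg w s e) ∧ ¬ RfC r i psi C (tg w s e)) := by
    intro e w s T h
    rw [clo_tg Q.H T, rfC_tg Q.H T]
    exact h
  have key := asm_N Q.H Q.hi Q.hi2 Q.hM Q.hC (q := q) m
    (fun e => ¬ Clo uc (tL (P := P) i) (lS P i) e ∧ ¬ RfC r i psi C e) (fun _ => True)
    (LO6 uc dc (tL (P := P) i) (tU i) (lS P i) (uS P i)) hN (fun _ _ _ _ _ => trivial)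
    (fun e he hc hn _ w s w1 s1 T T1 => Q.unique (spt_pa he) hn.1 (hsum e he) T T1)
    (fun e he hc hn _ w s T => by
      rcases Q.cls (spt_pa he) hc (hsum e he) with h | h | h | h | h
      · exact Cheap.mono (by omega) h
      · exact h.2.1
      · exact absurd h hn.2
      · have h5 := LO6.ex Q.two h.2.2.2.2
        exact absurd T (no_tgp Q.H h5.v0 h5.a1 h5.b1)
      · exact absurd h.1 hn.1)
    (fun e he hc hn ht hL => by
      rcases Q.cls (spt_pa he) hc (hsum e he) with h | h | h | h | h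
      · exact h
      · obtain ⟨-, -, w, s, T⟩ := h
        exact absurd T (ht trivial w s)
      · exact absurd h hn.2
      · exact absurd h.2.2.2.2 hL
      · exact absurd h.1 hn.1)
    (fun e he hL => by
      have h5 := LO6.ex Q.two hL
      refine ⟨core_of_f1 Q.H h5.a1.f1 h5.b1.f1, ⟨hL.noClo Q.two, ?_⟩,
        fun _ w s => no_tgp Q.H h5.v0 h5.a1 h5.b1⟩
      rintro ⟨y, p, u, p', -, -, -, D, R | R⟩
      · exact no_refL Q.H D h5.a2 R
      · exact no_refU Q.H D h5.b2 R)
  convert key using 1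
  congr!

open Classical in
theorem PS7.ref_level (Q : PS7 r i psi C) {q : ℕ} (hq : q ≤ 6) (m : ℕ) :
    dd ^ ((st i C).card - 1) ∣
      ∑ e ∈ (C.piAntidiag q).filter (fun e => IsCore i ∅ psi e ∧ RfC r i psi C e),
        J i psi C m e := by
  have hsum : ∀ e ∈ C.piAntidiag q, ∑ x, e x ≤ 6 := fun e he => by
    rw [I2.mem_pa] at he
    omega
  by_cases hD : ∃ y p u p', p ∈ C ∧ p' ∈ C ∧ psi y = u ∧ RefD r i y p u p'
  · obtain ⟨y, p, u, p', hpC, hpC', hp, D⟩ := hD
    have h1 : (C.piAntidiag q).filter (fun e => IsCore i ∅ psi e ∧ RfC r i psi C e) =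
        (C.piAntidiag q).filter (fun e => IsCore i ∅ psi e ∧
          (RefL e y p u p' ∨ RefU e y p u p')) := by
      refine filter_congr fun e _ => and_congr_right fun _ => ?_
      constructor
      · rintro ⟨y1, p1, u1, p1', h1, h1', -, D1, h3⟩
        obtain ⟨rfl, rfl, rfl, rfl⟩ := Q.ref_unique D hpC hpC' D1 h1 h1'
        exact h3
      · intro h
        exact ⟨y, p, u, p', hpC, hpC', hp, D, h⟩
    rw [h1]
    have hpy : y ≠ p := D.py.lt.ne'
    refine asm_R Q.H Q.hi Q.hi2 Q.hM Q.hC D hp hpC hpC' (q := q) m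
      (fun e he hc R => Q.c4 D hp hpC hpC' R (spt_pa he) hc (hsum e he))
      (fun e he hc R w s w1 s1 T T1 => ?_)
    have h4 := red_energy (e := e) hpy
    have h5 := R.hy
    have h6 := R.hp
    have h7 := hsum e he
    by_cases hn : Clo uc (tL (P := P) i) (lS P i) (red y p e)
    · exact absurd T (no_tg_four Q.H hn (by omega))
    · exact Q.unique (spt_red (spt_pa he) y p) hn (by omega) T T1
  · rw [Finset.filter_eq_empty_iff.2, Finset.sum_empty]
    · exact dvd_zero _
    · rintro e he ⟨-, y, p, u, p', h1, h2, h3, D, -⟩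
      exact hD ⟨y, p, u, p', h1, h2, h3, D⟩

open Classical in
/-- the cores of fixed energy -/
theorem PS7.level (Q : PS7 r i psi C) {q : ℕ} (hq : q ≤ 6) (m : ℕ) :
    dd ^ ((st i C).card - 1) ∣
      ∑ e ∈ (C.piAntidiag q).filter (IsCore i ∅ psi), J i psi C m e -
        (∑ e ∈ (C.piAntidiag q).filter
          (LO6 uc dc (tL (P := P) i) (tU i) (lS P i) (uS P i)), J i psi C m e +
        ∑ e ∈ (C.piAntidiag q).filter (fun e => IsCore i ∅ psi e ∧ LA i e), J i psi C m e) := by
  rw [core_split (RfC r i psi C)]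
  have h1 : ∑ e ∈ (C.piAntidiag q).filter (fun e => IsCore i ∅ psi e ∧ ¬ RfC r i psi C e),
      J i psi C m e =
      ∑ e ∈ (C.piAntidiag q).filter (fun e => IsCore i ∅ psi e ∧
        Clo uc (tL (P := P) i) (lS P i) e ∧ ¬ RfC r i psi C e), J i psi C m e +
      ∑ e ∈ (C.piAntidiag q).filter (fun e => IsCore i ∅ psi e ∧
        (¬ Clo uc (tL (P := P) i) (lS P i) e ∧ ¬ RfC r i psi C e)), J i psi C m e := by
    rw [← Finset.sum_filter_add_sum_filter_not _ (Clo uc (tL (P := P) i) (lS P i)),
      Finset.filter_filter, Finset.filter_filter]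
    congr 1
    · refine Finset.sum_congr ?_ fun _ _ => rfl
      refine filter_congr fun e _ => ?_
      tauto
    · refine Finset.sum_congr ?_ fun _ _ => rfl
      refine filter_congr fun e _ => ?_
      tauto
  rw [h1]
  have h2 := dvd_add (dvd_add (Q.clo_level hq m) (Q.nclo_level hq m)) (Q.ref_level hq m)
  convert h2 using 1
  ring

end Pool.Agent.GaussPoset.Win.SO

end

/-! From `Pool.Agent.W_448cl_h64.ClF` -/

section

/-!
CLOSED PAIRS AT ENERGY SIX (MP_448cb3_co, G2): the window sums at the energies five and six.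
-/

set_option autoImplicit false

namespace Pool.Agent.GaussPoset.Win.SO

set_option linter.unusedSectionVars false

open Finset
open Pool.Agent.GaussPoset.Win.I2 (lS uS mem_lS mem_uS side0_low)
open Pool.Agent.GaussPoset.Win.So
open Pool.Agent.GaussPoset.Win.Xg (CanD rk rk_inj)

universe u

variable {P : Type u} [Fintype P] [PartialOrder P] [DecidableEq P] {r i : ℕ} {psi : P → P}
  {e : P → ℕ} {C : Finset P} {w w' x x' s : P}

/-- the data of a closed pair, the first element first -/
structure CP (i : ℕ) (w w' x x' s : P) : Prop where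
  T : TD uc (tL (P := P) i) (lS P i) w x x' s
  T' : TD uc (tL (P := P) i) (lS P i) w' x x' s
  hr : rk w < rk w'

open Classical in
/-- the first elements of the closed pairs -/
noncomputable def CQ (i : ℕ) (C : Finset P) : Finset P :=
  C.filter (fun w => ∃ w' x x' s, w' ∈ C ∧ CP i w w' x x' s)

lemma mem_CQ : w ∈ CQ i C ↔ w ∈ C ∧ ∃ w' x x' s, w' ∈ C ∧ CP i w w' x x' s := by
  classical
  unfold CQ
  rw [mem_filter]

/-- the labelling of type A over a closed pair -/
noncomputable def Aw (w : P) : P → ℕ := fun y =>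
  if y = w then 1 else if uc y = uc w then 2 else if y ∈ uc w then 1 else 0

namespace CP

variable (H : Gr P r) (D : CP i w w' x x' s)
include D

lemma ne : w ≠ w' := rk_ne D.hr

lemma ucs : uc w' = uc w := by rw [D.T.cw, D.T'.cw]

include H

lemma lv : lev w = i + 2 ∧ lev w' = i + 2 ∧ lev x = i + 1 ∧ lev x' = i + 1 ∧ lev s = i := by
  have h := D.T.lx H
  exact ⟨D.T.lw, D.T'.lw, h.1, h.2, D.T.site H (mem_union_left _ D.T.sx)⟩

lemma dcs : dc x = {w, w'} ∧ dc x' = {w, w'} := pair_dc H D.T D.T' D.ne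

lemma uc_eq {y : P} (h : uc y = uc w) : y = w ∨ y = w' :=
  pair_first H D.T D.T' D.hr (by rw [h, D.T.cw])

/-- the values of the labelling of type A -/
lemma aw (y : P) : Aw w y = if y = w then 1 else if y = w' then 2 else
    if y = x ∨ y = x' then 1 else 0 := by
  unfold Aw
  by_cases h1 : y = w
  · rw [if_pos h1, if_pos h1]
  rw [if_neg h1, if_neg h1]
  by_cases h2 : y = w'
  · rw [if_pos h2, if_pos (by rw [h2]; exact D.ucs)]
  · rw [if_neg h2, if_neg (fun h => by rcases D.uc_eq H h with g | g <;> [exact h1 g; exact h2 g])]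
    rw [D.T.cw]
    simp only [mem_insert, mem_singleton]

lemma aw_w : Aw w w = 1 := by rw [D.aw H, if_pos rfl]

lemma aw_w' : Aw w w' = 2 := by rw [D.aw H, if_neg D.ne.symm, if_pos rfl]

lemma nx : x ≠ w ∧ x ≠ w' ∧ x' ≠ w ∧ x' ≠ w' := by
  have h := D.lv H
  refine ⟨?_, ?_, ?_, ?_⟩ <;> rintro rfl <;> omega

lemma aw_x : Aw w x = 1 := by
  have h := D.nx H
  rw [D.aw H, if_neg h.1, if_neg h.2.1, if_pos (Or.inl rfl)]

lemma aw_x' : Aw w x' = 1 := by
  have h := D.nx H
  rw [D.aw H, if_neg h.2.2.1, if_neg h.2.2.2, if_pos (Or.inr rfl)]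

lemma aw_zero {y : P} (h1 : y ≠ w) (h2 : y ≠ w') (h3 : y ≠ x) (h4 : y ≠ x') : Aw w y = 0 := by
  rw [D.aw H, if_neg h1, if_neg h2, if_neg (by tauto)]

lemma aw_pos {y : P} (h : 0 < Aw w y) : y = w ∨ y = w' ∨ y = x ∨ y = x' := by
  by_contra hc
  push Not at hc
  rw [D.aw_zero H hc.1 hc.2.1 hc.2.2.1 hc.2.2.2] at h
  exact lt_irrefl _ h

lemma aw_sum : ∑ y, Aw w y = 5 := by
  have h := D.nx H
  have hn := D.ne
  have hx := D.T.ne
  have h1 : ∑ y, Aw w y = ∑ y ∈ ({w, w', x, x'} : Finset P), Aw w y := by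
    symm
    refine Finset.sum_subset (subset_univ _) fun y _ hy => ?_
    simp only [mem_insert, mem_singleton, not_or] at hy
    exact D.aw_zero H hy.1 hy.2.1 hy.2.2.1 hy.2.2.2
  have n1 : w ∉ ({w', x, x'} : Finset P) := by
    simp only [mem_insert, mem_singleton, not_or]
    exact ⟨hn, h.1.symm, h.2.2.1.symm⟩
  have n2 : w' ∉ ({x, x'} : Finset P) := by
    simp only [mem_insert, mem_singleton, not_or]
    exact ⟨h.2.1.symm, h.2.2.2.symm⟩
  rw [h1, sum_insert n1, sum_insert n2, sum_pair hx, D.aw_w H, D.aw_w' H, D.aw_x H, D.aw_x' H]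
  norm_num

lemma mem (hC : Part (i + 1) C) (hw : w ∈ C) : x ∈ C ∧ x' ∈ C := by
  have hd := D.dcs H
  have hx : w ⋖ x := by rw [← mem_dc, hd.1]; simp
  have hx' : w ⋖ x' := by rw [← mem_dc, hd.2]; simp
  exact ⟨hC.up hw hx, hC.up hw hx'⟩

lemma aw_spt (hC : Part (i + 1) C) (hw : w ∈ C) (h1 : w' ∈ C) : Spt C (Aw w) := by
  intro y hy
  by_contra h
  obtain ⟨h2, h3⟩ := D.mem H hC hw
  rcases D.aw_pos H (show 0 < Aw w y by omega) with rfl | rfl | rfl | rfl
  · exact hy hw
  · exact hy h1
  · exact hy h2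
  · exact hy h3

/-- the labelling of type A is a core -/
lemma aw_core : IsCore i ∅ psi (Aw w) := by
  have h := D.lv H
  have hd := D.dcs H
  intro y hy
  obtain ⟨h1, -, h3, -⟩ := mem_Rst.1 hy
  by_contra hc
  rcases D.aw_pos H (show 0 < Aw w y by omega) with rfl | rfl | rfl | rfl
  · rcases mem_near.1 h1 with g | g <;> omega
  · rcases mem_near.1 h1 with g | g <;> omega
  · apply h3
    rw [mem_Tch]
    exact Or.inl ⟨by omega, w, by rw [← mem_dc, hd.1]; simp, by rw [D.aw_w H]; omega⟩
  · apply h3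
    rw [mem_Tch]
    exact Or.inl ⟨by omega, w, by rw [← mem_dc, hd.2]; simp, by rw [D.aw_w H]; omega⟩

lemma la_of (h : ∀ y, Aw w y ≤ e y) : LA i e := by
  refine ⟨w, w', x, x', s, D.T, D.T', D.hr, ?_, ?_, ?_, ?_⟩
  · have := h w; rw [D.aw_w H] at this; exact this
  · have := h w'; rw [D.aw_w' H] at this; exact this
  · have := h x; rw [D.aw_x H] at this; exact this
  · have := h x'; rw [D.aw_x' H] at this; exact this

end CP

/-- labellings of type A are above one of the labellings `Aw w` -/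
lemma LA.aw (H : Gr P r) (hs : Spt C e) (h : LA i e) : ∃ w ∈ CQ i C, ∀ y, Aw w y ≤ e y := by
  obtain ⟨w, w', x, x', s, T, T', hr, ew, ew', ex, ex'⟩ := h
  have D : CP i w w' x x' s := ⟨T, T', hr⟩
  refine ⟨w, mem_CQ.2 ⟨mem_of_spt hs (by omega), w', x, x', s, mem_of_spt hs (by omega), D⟩,
    fun y => ?_⟩
  by_cases h0 : Aw w y = 0
  · omega
  rcases D.aw_pos H (show 0 < Aw w y by omega) with rfl | rfl | rfl | rfl
  · rw [D.aw_w H]; exact ew
  · rw [D.aw_w' H]; exact ew'
  · rw [D.aw_x H]; exact ex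
  · rw [D.aw_x' H]; exact ex'

/-- uniqueness of the closed pair -/
lemma aw_unique (H : Gr P r) {w1 : P} (hw : w ∈ CQ i C) (hw1 : w1 ∈ CQ i C)
    (h : ∀ y, Aw w y ≤ e y) (h1 : ∀ y, Aw w1 y ≤ e y) (hE : ∑ x, e x ≤ 6) : w = w1 := by
  obtain ⟨-, w', x, x', s, hwC', D⟩ := mem_CQ.1 hw
  obtain ⟨-, w1', x1, x1', s1, -, D1⟩ := mem_CQ.1 hw1
  by_contra hne
  have l := D.lv H
  have l1 := D1.lv H
  have e1 : 1 ≤ e w := by have := h w; rw [D.aw_w H] at this; exact this
  have e2 : 2 ≤ e w' := by have := h w'; rw [D.aw_w' H] at this; exact this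
  have e3 : 1 ≤ e x := by have := h x; rw [D.aw_x H] at this; exact this
  have e3' : 1 ≤ e x' := by have := h x'; rw [D.aw_x' H] at this; exact this
  have e4 : 1 ≤ e w1 := by have := h1 w1; rw [D1.aw_w H] at this; exact this
  have e5 : 2 ≤ e w1' := by have := h1 w1'; rw [D1.aw_w' H] at this; exact this
  by_cases hu : uc w1 = uc w
  · have hu' : uc w1' = uc w := by rw [D1.ucs, hu]
    rcases D.uc_eq H hu with g | g
    · exact hne g.symm
    · rcases D.uc_eq H hu' with g' | g'
      · have h2 := D.hr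
        have h3 := D1.hr
        rw [g, g'] at h3
        omega
      · exact D1.ne (g.trans g'.symm)
  · have hu' : uc w1' ≠ uc w := by rw [D1.ucs]; exact hu
    have n1 : [w, w', w1, w1', x].Nodup := by
      have d1 := D.ne
      have d2 := D1.ne
      have d3 : w ≠ w1' := by rintro rfl; exact hu' rfl
      have d4 : w' ≠ w1 := by rintro rfl; exact hu D.ucs
      have d5 : w' ≠ w1' := by rintro rfl; exact hu' D.ucs
      simp only [List.nodup_cons, List.mem_cons, List.not_mem_nil, or_false, not_or,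
        List.nodup_nil, and_true, not_false_eq_true]
      and_intros
      all_goals first
        | assumption
        | (intro hnd; subst hnd; omega)
    have hT := So.tot (e := e) n1
    simp only [List.map_cons, List.sum_cons, List.map_nil, List.sum_nil] at hT
    omega

/-- a unit on a near element is free or the labelling is a core -/
lemma core_single (H : Gr P r) (hc : IsCore i ∅ psi e) (z : P) :
    IsCore i ∅ psi (e + Pi.single z 1) ↔ z ∉ Rst i ∅ psi e := by
  constructor
  · intro h hz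
    obtain ⟨h1, h2, h3, h4⟩ := mem_Rst.1 hz
    have hl : ∀ x, x ∉ near P i → (Pi.single z 1 : P → ℕ) x = 0 := by
      intro x hx
      rw [Pi.single_apply, if_neg (by rintro rfl; exact hx h1)]
    have hR : z ∈ Rst i ∅ psi (e + Pi.single z 1) := by
      rw [mem_Rst, CoreA_Tch H hl, CoreA_Tch H hl]
      exact ⟨h1, h2, h3, h4⟩
    have := h z hR
    rw [Pi.add_apply, Pi.single_apply, if_pos rfl] at this
    omega
  · intro hz x hx
    obtain ⟨h1, h2, h3, h4⟩ := mem_Rst.1 hx
    have mono : ∀ y, y ∈ Tch i e → y ∈ Tch i (e + Pi.single z 1) := by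
      intro y hy
      rw [mem_Tch] at hy ⊢
      rcases hy with ⟨g1, q, g2, g3⟩ | ⟨g1, q, g2, g3⟩
      · exact Or.inl ⟨g1, q, g2, by rw [Pi.add_apply]; omega⟩
      · exact Or.inr ⟨g1, q, g2, by rw [Pi.add_apply]; omega⟩
    have hR : x ∈ Rst i ∅ psi e := by
      rw [mem_Rst]
      exact ⟨h1, h2, fun h => h3 (mono x h), fun h => h4 ⟨h.1, mono _ h.2⟩⟩
    have hxz : x ≠ z := by rintro rfl; exact hz hR
    rw [Pi.add_apply, Pi.single_apply, if_neg hxz, hc x hR, add_zero]

open Classical in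
/-- the cores of type A at the energy five -/
theorem la_five (Q : PS7 r i psi C) {M : Type*} [AddCommMonoid M] (f : (P → ℕ) → M) :
    ∑ e ∈ (C.piAntidiag 5).filter (fun e => IsCore i ∅ psi e ∧ LA i e), f e =
      ∑ w ∈ CQ i C, f (Aw w) := by
  have H := Q.H
  have h1 : (C.piAntidiag 5).filter (fun e => IsCore i ∅ psi e ∧ LA i e) =
      (CQ i C).image Aw := by
    ext e
    rw [mem_filter, mem_image, mem_piA]
    constructor
    · rintro ⟨⟨a1, a2⟩, a3, a4⟩
      obtain ⟨w, hw, h⟩ := a4.aw H a2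
      obtain ⟨-, w', x, x', s, hwC', D⟩ := mem_CQ.1 hw
      refine ⟨w, hw, ?_⟩
      exact (eq_of_sum h (by rw [a1, D.aw_sum H])).symm
    · rintro ⟨w, hw, rfl⟩
      obtain ⟨hwC, w', x, x', s, hwC', D⟩ := mem_CQ.1 hw
      exact ⟨⟨D.aw_sum H, D.aw_spt H Q.hC hwC hwC'⟩, D.aw_core H, D.la_of H fun _ => le_rfl⟩
  rw [h1, sum_image]
  intro a ha b hb h
  obtain ⟨-, w', x, x', s, hwC', D⟩ := mem_CQ.1 ha
  exact aw_unique H ha hb (fun _ => le_rfl) (fun y => by rw [h]) (by rw [D.aw_sum H]; omega)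

open Classical in
/-- the cores of type A at the energy six -/
theorem la_six (Q : PS7 r i psi C) {M : Type*} [AddCommMonoid M] (f : (P → ℕ) → M) :
    ∑ e ∈ (C.piAntidiag 6).filter (fun e => IsCore i ∅ psi e ∧ LA i e), f e =
      ∑ w ∈ CQ i C, ∑ z ∈ C.filter (fun z => z ∉ Rst i ∅ psi (Aw w)),
        f (Aw w + Pi.single z 1) := by
  have H := Q.H
  rw [Finset.sum_sigma']
  symm
  refine Finset.sum_bij (fun p _ => Aw p.1 + Pi.single p.2 1) ?_ ?_ ?_ (fun _ _ => rfl)
  · rintro ⟨w, z⟩ hp
    rw [mem_sigma, mem_filter] at hp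
    obtain ⟨hw, hz, hR⟩ := hp
    simp only at hw hz hR ⊢
    obtain ⟨hwC, w', x, x', s, hwC', D⟩ := mem_CQ.1 hw
    rw [mem_filter, mem_piA]
    refine ⟨⟨?_, ?_⟩, (core_single H (D.aw_core H) z).2 hR, D.la_of H fun y => by
      rw [Pi.add_apply]; omega⟩
    · simp only [Pi.add_apply]
      rw [sum_add_distrib, D.aw_sum H, sum_single_one]
    · intro y hy
      rw [Pi.add_apply, D.aw_spt H Q.hC hwC hwC' y hy, Pi.single_apply,
        if_neg (by rintro rfl; exact hy hz), add_zero]
  · rintro ⟨w, z⟩ hp ⟨w1, z1⟩ hp1 h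
    rw [mem_sigma, mem_filter] at hp hp1
    simp only at hp hp1 h
    obtain ⟨hwC, w', x, x', s, hwC', D⟩ := mem_CQ.1 hp.1
    have h2 : w = w1 := by
      refine aw_unique H (e := Aw w + Pi.single z 1) hp.1 hp1.1 (fun y => ?_) (fun y => ?_) ?_
      · rw [Pi.add_apply]; omega
      · rw [h, Pi.add_apply]; omega
      · simp only [Pi.add_apply]
        rw [sum_add_distrib, D.aw_sum H, sum_single_one]
    subst h2
    have h3 := add_left_cancel h
    have h4 : z = z1 := by
      by_contra hne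
      have := congrFun h3 z
      rw [Pi.single_apply, Pi.single_apply, if_pos rfl, if_neg hne] at this
      exact one_ne_zero this
    subst h4
    rfl
  · intro e he
    rw [mem_filter, mem_piA] at he
    obtain ⟨⟨a1, a2⟩, a3, a4⟩ := he
    obtain ⟨w, hw, h⟩ := a4.aw H a2
    obtain ⟨hwC, w', x, x', s, hwC', D⟩ := mem_CQ.1 hw
    obtain ⟨z, hz⟩ := eq_add_single h (by rw [a1, D.aw_sum H])
    refine ⟨⟨w, z⟩, ?_, hz.symm⟩
    rw [mem_sigma, mem_filter]
    refine ⟨hw, ?_, ?_⟩
    · by_contra hzC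
      have := a2 z hzC
      rw [hz, Pi.add_apply, Pi.single_apply, if_pos rfl] at this
      omega
    · rw [hz] at a3
      exact (core_single H (D.aw_core H) z).1 a3

open Classical in
/-- THE WINDOW SUM AT THE ENERGY SIX -/
theorem PS7.main6 (Q : PS7 r i psi C) :
    dd ^ ((st i C).card - 1) ∣ ZC i C 6 -
      (∑ e ∈ (C.piAntidiag 6).filter
        (LO6 uc dc (tL (P := P) i) (tU i) (lS P i) (uS P i)), tC i C e +
      ∑ w ∈ CQ i C, ∑ z ∈ C, tC i C (Aw w + Pi.single z 1)) := by
  have H := Q.H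
  have hir : i ≤ r := by have := Q.hi2; omega
  have hC0 : Part i C := Q.hC.pred
  set L : (P → ℕ) → Prop := LO6 uc dc (tL (P := P) i) (tU i) (lS P i) (uS P i) with hL
  set F : ℕ → A := fun q => ∑ e ∈ (C.piAntidiag q).filter L, J i psi C (6 - q) e +
    ∑ e ∈ (C.piAntidiag q).filter (fun e => IsCore i ∅ psi e ∧ LA i e), J i psi C (6 - q) e
    with hF
  have h1 : dd ^ ((st i C).card - 1) ∣ ZC i C 6 - ∑ q ∈ range (6 + 1), F q := by
    rw [ZC_cores H hir psi hC0 6, ← Finset.sum_sub_distrib]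
    refine Finset.dvd_sum fun q hq => ?_
    rw [mem_range] at hq
    exact Q.level (by omega) _
  have hz : ∀ q ∈ range 5, F q = 0 := by
    intro q hq
    rw [mem_range] at hq
    simp only [hF]
    rw [Finset.filter_eq_empty_iff.2, Finset.filter_eq_empty_iff.2, Finset.sum_empty,
      add_zero]
    · rintro e he ⟨-, h⟩
      have := h.five H
      rw [I2.mem_pa] at he
      omega
    · intro e he h
      have := (LO6.ex Q.two h).E
      rw [I2.mem_pa] at he
      omega
  have h5 : F 5 = ∑ w ∈ CQ i C, ∑ z ∈ C.filter (fun z => z ∈ Rst i ∅ psi (Aw w)),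
      tC i C (Aw w + Pi.single z 1) := by
    simp only [hF]
    rw [Finset.filter_eq_empty_iff.2, Finset.sum_empty, zero_add, la_five Q]
    · refine sum_congr rfl fun w hw => ?_
      obtain ⟨hwC, w', x, x', s, hwC', D⟩ := mem_CQ.1 hw
      have hJ : J i psi C (6 - 5) (Aw w) = W4.JK i ∅ psi C 1 (Aw w) := rfl
      rw [hJ, Xg.JK_sum H hir hC0 (D.aw_spt H Q.hC hwC hwC') (D.aw_core H), sum_pa_one]
      refine sum_congr ?_ fun _ _ => rfl
      ext z
      rw [W4.mem_RK, mem_filter]
      tauto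
    · intro e he h
      have := (LO6.ex Q.two h).E
      rw [I2.mem_pa] at he
      omega
  have h6 : F 6 = ∑ e ∈ (C.piAntidiag 6).filter L, tC i C e +
      ∑ w ∈ CQ i C, ∑ z ∈ C.filter (fun z => z ∉ Rst i ∅ psi (Aw w)),
        tC i C (Aw w + Pi.single z 1) := by
    simp only [hF]
    congr 1
    · refine sum_congr rfl fun e he => ?_
      rw [Nat.sub_self, J_zero H hir hC0 (spt_pa (mem_filter.1 he).1)]
    · rw [← la_six Q (tC i C)]
      refine sum_congr rfl fun e he => ?_
      rw [Nat.sub_self, J_zero H hir hC0 (spt_pa (mem_filter.1 he).1)]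
  have h7 : ∑ q ∈ range (6 + 1), F q = ∑ e ∈ (C.piAntidiag 6).filter L, tC i C e +
      ∑ w ∈ CQ i C, ∑ z ∈ C, tC i C (Aw w + Pi.single z 1) := by
    rw [Finset.sum_range_succ, Finset.sum_range_succ, Finset.sum_eq_zero hz, zero_add, h5, h6,
      add_left_comm, ← sum_add_distrib]
    congr 1
    refine sum_congr rfl fun w _ => ?_
    exact Finset.sum_filter_add_sum_filter_not _ _ _
  rw [h7] at h1
  exact h1

open Classical in
/-- THE WINDOW SUMS up to the energy five -/
theorem PS7.main5 (Q : PS7 r i psi C) {n : ℕ} (hn : n ≤ 5) :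
    dd ^ ((st i C).card - 1) ∣ ZC i C n -
      ∑ e ∈ (C.piAntidiag n).filter (fun e => IsCore i ∅ psi e ∧ LA i e), tC i C e := by
  have hi2 := Q.hi2
  have key := ZC_sub (psi := psi) (n := n) (k := (st i C).card - 1) Q.H (by omega) Q.hC.pred
    (fun e => IsCore i ∅ psi e ∧ LA i e) ?_ ?_
  · convert key using 1
    congr!
  · rintro q hq e he ⟨-, h⟩
    have h1 := h.five Q.H
    rw [I2.mem_pa] at he
    omega
  · intro q hq
    have h1 := Q.level (q := q) (by omega) (n - q)
    have h2 : (C.piAntidiag q).filter (LO6 uc dc (tL (P := P) i) (tU i) (lS P i) (uS P i)) = ∅ := by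
      rw [Finset.filter_eq_empty_iff]
      intro e he h
      have := (LO6.ex Q.two h).E
      rw [I2.mem_pa] at he
      omega
    rw [h2, Finset.sum_empty, zero_add] at h1
    convert h1 using 1
    congr!

end Pool.Agent.GaussPoset.Win.SO

end

/-! From `Pool.Agent.W_448cl_h64.ClG` -/

section

/-!
CLOSED PAIRS AT ENERGY SIX (MP_448cb3_co, G2): the labelling of type A plus one unit.
-/

set_option autoImplicit false

namespace Pool.Agent.GaussPoset.Win.SO

set_option linter.unusedSectionVars false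

open Finset
open Pool.Agent.GaussPoset.Win.I2 (lS uS mem_lS mem_uS side0_low)
open Pool.Agent.GaussPoset.Win.So (coeff_dd c0_units c1_xx xx_c xi_n)
open Pool.Agent.GaussPoset.Win.Xg (rk)

universe u

variable {P : Type u} [Fintype P] [PartialOrder P] [DecidableEq P] {r i : ℕ} {psi : P → P}
  {e f : P → ℕ} {C : Finset P} {w w' x x' s z : P} {K F B K' F' B' : Finset P}

/-- the coefficient of a labelling of a part -/
theorem coeff_tC (H : Gr P r) (hC : Part (i + 1) C) (hs : Spt C e)
    (D : LowD i e K F B) (D' : UppD i e K' F' B') (hd : Disjoint B B') (t : ℕ) :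
    PowerSeries.coeff (st i C).card (dd ^ t * tC i C e : A) =
      if F.card + F'.card + t ≤ B.card + B'.card then
        PowerSeries.coeff (B.card + B'.card - (F.card + F'.card + t))
          (xx ^ (K.card + B.card) * xi ^ (K'.card + F'.card) : A) else 0 := by
  classical
  have hCi : Part i C := hC.pred
  have hdis : Disjoint (AL i e) (AU i e) := by rw [D.AL_eq, D'.AU_eq]; exact hd
  have s1 : B ∪ B' ⊆ st i C := by
    rw [← D.AL_eq, ← D'.AU_eq]
    exact union_subset (AL_sub hCi hs) (AU_sub H hCi hs)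
  have s2 := card_le_card s1
  rw [card_union_of_disjoint hd] at s2
  have ht : tC i C e = dd ^ (F.card + F'.card + ((st i C).card - B.card - B'.card)) *
      (xx ^ (K.card + B.card) * xi ^ (K'.card + F'.card)) := by
    unfold tC cw
    rw [if_pos hdis, if_pos ⟨D.adm, D'.adm⟩, D.aL_eq, D.pL_eq, D.AL_eq, D'.aU_eq, D'.pU_eq,
      D'.AU_eq, pow_add (dd : A) (F.card + F'.card), pow_add (xx : A)]
    ring
  rw [ht, ← mul_assoc, ← pow_add, coeff_dd]
  by_cases h : F.card + F'.card + t ≤ B.card + B'.card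
  · rw [if_pos h, if_pos (by omega)]
    congr 1
    congr 1
    omega
  · rw [if_neg h, if_neg (by omega)]

lemma tC_zero_adm (h : ¬ (AdmL i e ∧ AdmU i e)) : tC i C e = 0 := by
  unfold tC cw
  split_ifs
  · rw [zero_mul]
  · rfl

lemma tC_zero_dis (D : LowD i e K F B) (D' : UppD i e K' F' B') (hd : ¬ Disjoint B B') :
    tC i C e = 0 := by
  unfold tC
  rw [if_neg]
  rw [D.AL_eq, D'.AU_eq]
  exact hd

/-- one near upper element with label one -/
lemma upp_one (H : Gr P r) (hir : i ≤ r) (hl : lev z + 1 = i) (h1 : e z = 1)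
    (h0 : ∀ y, lev y ≤ i → y ≠ z → e y = 0) : UppD i e ∅ {z} (dc z) := by
  refine ⟨?_, ?_, ?_, ?_, ?_, ?_⟩
  · intro v hv
    refine ⟨?_, fun h => absurd h (notMem_empty v)⟩
    rintro ⟨y, hy, hlt⟩
    exfalso
    have ly := lev_cov H hy
    rw [h0 y (by omega) (by rintro rfl; omega)] at hlt
    omega
  · intro v hv
    rw [mem_dc]
    constructor
    · rintro ⟨y, hy, hlt⟩
      have ly := lev_cov H hy
      by_contra h
      have hyx : y ≠ z := by rintro rfl; exact h hy
      rw [h0 y (by omega) hyx] at hlt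
      omega
    · intro h
      exact ⟨z, h, by rw [h1, h0 v hv.le (by rintro rfl; omega)]; exact Nat.zero_lt_one⟩
  · intro v hv
    rw [mem_singleton]
    constructor
    · rintro ⟨y, hy, hle⟩
      refine ⟨notMem_empty v, ?_⟩
      rintro rfl
      have ly := lev_cov H hy
      rw [h1, h0 y (by omega) (by rintro rfl; omega)] at hle
      omega
    · rintro ⟨-, h⟩
      obtain ⟨y, hy⟩ := dc_nonempty H (x := v) (by omega)
      refine ⟨y, mem_dc.1 hy, ?_⟩
      rw [h0 v (by omega) h]
      exact Nat.zero_le _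
  · exact fun v hv => absurd hv (notMem_empty v)
  · intro v hv
    rw [mem_singleton] at hv
    subst hv
    exact ⟨by omega, notMem_empty v⟩
  · intro v hv
    have := lev_dc H hv
    omega

/-- a far upper element with label one, nothing else above the window: not admissible -/
lemma upp_bad (H : Gr P r) (hir : i ≤ r) (hl : lev z + 1 < i) (h1 : 1 ≤ e z)
    (h0 : ∀ y, lev y ≤ i → y ≠ z → e y = 0) : ¬ AdmU i e := by
  intro hA
  obtain ⟨y, hy⟩ := dc_nonempty H (x := z) (by omega)
  have ly := lev_cov H (mem_dc.1 hy)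
  have hyz : y ≠ z := by rintro rfl; omega
  apply hA y (by omega)
  constructor
  · exact ⟨z, mem_dc.1 hy, by rw [h0 y (by omega) hyz]; omega⟩
  · obtain ⟨v, hv⟩ := dc_nonempty H (x := y) (by omega)
    exact ⟨v, mem_dc.1 hv, by rw [h0 y (by omega) hyz]; exact Nat.zero_le _⟩

namespace CP

variable (H : Gr P r) (D : CP i w w' x x' s)
include D H

open Classical in
/-- labels of type A with further labels one on `X` -/
theorem low {X : Finset P} (hw : f w = 1) (hw' : 2 ≤ f w') (hx : f x = 1) (hx' : f x' = 1)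
    (h0 : ∀ y, i < lev y → y ≠ w → y ≠ w' → y ≠ x → y ≠ x' → y ∉ X → f y = 0)
    (hX : ∀ y ∈ X, f y = 1 ∧ i < lev y ∧ y ≠ w ∧ y ≠ w' ∧ y ≠ x ∧ y ≠ x')
    (hXc : ∀ y ∈ X, i + 1 < lev y → ∀ v, y ⋖ v → 1 ≤ f v)
    (hsT : ∀ v ∈ uc x ∪ uc x', f v = 0)
    (hsX : ∀ y ∈ X, lev y = i + 1 → ∀ v ∈ uc y, f v = 0) :
    LowD i f {x, x'} (insert w' (X.filter (fun y => lev y = i + 1)))
      ((uc x ∪ uc x') ∪ (X.filter (fun y => lev y = i + 1)).biUnion uc) := by
  obtain ⟨lw, lw', lx, lx', ls⟩ := D.lv H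
  obtain ⟨dx, dx'⟩ := D.dcs H
  have hwx : w ⋖ x := by rw [← mem_dc, dx]; simp
  have hw'x : w' ⋖ x := by rw [← mem_dc, dx]; simp
  have hw'x' : w' ⋖ x' := by rw [← mem_dc, dx']; simp
  have hpos : ∀ y, i < lev y → 0 < f y → y = w ∨ y = w' ∨ y = x ∨ y = x' ∨ y ∈ X := by
    intro y hy h
    by_contra hc
    push Not at hc
    rw [h0 y hy hc.1 hc.2.1 hc.2.2.1 hc.2.2.2.1 hc.2.2.2.2] at h
    exact lt_irrefl _ h
  refine ⟨?_, ?_, ?_, ?_, ?_, ?_⟩
  · intro v hv
    rw [mem_insert, mem_singleton]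
    constructor
    · rintro ⟨y, hy, hlt⟩
      have hl := lev_cov H hy
      rcases hpos y (by omega) (by omega) with rfl | rfl | rfl | rfl | h
      · rw [← mem_uc, D.T.cw, mem_insert, mem_singleton] at hy
        exact hy
      · rw [← mem_uc, D.T'.cw, mem_insert, mem_singleton] at hy
        exact hy
      · omega
      · omega
      · exfalso
        have h1 := hXc y h (by omega) v hy
        have h2 := (hX y h).1
        omega
    · rintro (rfl | rfl)
      · exact ⟨w', hw'x, by omega⟩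
      · exact ⟨w', hw'x', by omega⟩
  · intro v hv
    rw [mem_union, mem_union, mem_biUnion]
    constructor
    · rintro ⟨y, hy, hlt⟩
      have hl := lev_cov H hy
      rcases hpos y (by omega) (by omega) with rfl | rfl | rfl | rfl | h
      · omega
      · omega
      · exact Or.inl (Or.inl (mem_uc.2 hy))
      · exact Or.inl (Or.inr (mem_uc.2 hy))
      · exact Or.inr ⟨y, mem_filter.2 ⟨h, by omega⟩, mem_uc.2 hy⟩
    · rintro ((h | h) | ⟨y, hy, h⟩)
      · exact ⟨x, mem_uc.1 h, by rw [hsT v (mem_union_left _ h)]; omega⟩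
      · exact ⟨x', mem_uc.1 h, by rw [hsT v (mem_union_right _ h)]; omega⟩
      · rw [mem_filter] at hy
        exact ⟨y, mem_uc.1 h, by rw [hsX y hy.1 hy.2 v h, (hX y hy.1).1]; omega⟩
  · intro v hv
    rw [mem_insert, mem_singleton, mem_insert, mem_filter]
    constructor
    · rintro ⟨y, hy, hle⟩
      have hl := lev_cov H hy
      refine ⟨?_, ?_⟩
      · rintro (rfl | rfl)
        · rw [hsT y (mem_union_left _ (mem_uc.2 hy))] at hle; omega
        · rw [hsT y (mem_union_right _ (mem_uc.2 hy))] at hle; omega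
      · rintro (rfl | ⟨h1, h2⟩)
        · rw [← mem_uc, D.T'.cw, mem_insert, mem_singleton] at hy
          rcases hy with rfl | rfl <;> omega
        · rw [(hX v h1).1, hsX v h1 h2 y (mem_uc.2 hy)] at hle
          omega
    · rintro ⟨h1, h2⟩
      push Not at h1 h2
      by_cases h3 : v = w
      · subst h3
        exact ⟨x, hwx, by omega⟩
      · obtain ⟨y, hy⟩ := uc_nonempty H (x := v) (by omega)
        refine ⟨y, mem_uc.1 hy, ?_⟩
        by_cases h4 : v ∈ X
        · have h5 := h2.2 h4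
          rw [(hX v h4).1]
          exact hXc v h4 (by omega) y (mem_uc.1 hy)
        · rw [h0 v hv h3 h2.1 h1.1 h1.2 h4]
          exact Nat.zero_le _
  · intro v hv
    rw [mem_insert, mem_singleton] at hv
    rcases hv with rfl | rfl <;> omega
  · intro v hv
    rw [mem_insert, mem_filter] at hv
    rw [mem_insert, mem_singleton]
    rcases hv with rfl | ⟨h1, h2⟩
    · refine ⟨by omega, ?_⟩
      rintro (rfl | rfl) <;> omega
    · obtain ⟨-, a1, a2, a3, a4, a5⟩ := hX v h1
      exact ⟨a1, by tauto⟩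
  · intro v hv
    rw [mem_union, mem_biUnion] at hv
    rcases hv with h | ⟨y, hy, h⟩
    · exact D.T.site H h
    · rw [mem_filter] at hy
      have := lev_uc H h
      omega

/-- both elements of the pair are free -/
theorem low_ww (hw : 2 ≤ f w) (hw' : 2 ≤ f w') (hx : f x = 1) (hx' : f x' = 1)
    (h0 : ∀ y, y ≠ w → y ≠ w' → y ≠ x → y ≠ x' → f y = 0) :
    LowD i f {x, x'} {w, w'} (uc x ∪ uc x') := by
  obtain ⟨lw, lw', lx, lx', ls⟩ := D.lv H
  obtain ⟨dx, dx'⟩ := D.dcs H
  have hw'x : w' ⋖ x := by rw [← mem_dc, dx]; simp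
  have hw'x' : w' ⋖ x' := by rw [← mem_dc, dx']; simp
  have hpos : ∀ y, 0 < f y → y = w ∨ y = w' ∨ y = x ∨ y = x' := by
    intro y h
    by_contra hc
    push Not at hc
    rw [h0 y hc.1 hc.2.1 hc.2.2.1 hc.2.2.2] at h
    exact lt_irrefl _ h
  have hsite : ∀ v, lev v = i → f v = 0 := by
    intro v hv
    refine h0 v ?_ ?_ ?_ ?_ <;> rintro rfl <;> omega
  refine ⟨?_, ?_, ?_, ?_, ?_, ?_⟩
  · intro v hv
    rw [mem_insert, mem_singleton]
    constructor
    · rintro ⟨y, hy, hlt⟩
      have hl := lev_cov H hy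
      rcases hpos y (by omega) with rfl | rfl | rfl | rfl
      · rw [← mem_uc, D.T.cw, mem_insert, mem_singleton] at hy
        exact hy
      · rw [← mem_uc, D.T'.cw, mem_insert, mem_singleton] at hy
        exact hy
      · omega
      · omega
    · rintro (rfl | rfl)
      · exact ⟨w', hw'x, by omega⟩
      · exact ⟨w', hw'x', by omega⟩
  · intro v hv
    rw [mem_union]
    constructor
    · rintro ⟨y, hy, hlt⟩
      have hl := lev_cov H hy
      rcases hpos y (by omega) with rfl | rfl | rfl | rfl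
      · omega
      · omega
      · exact Or.inl (mem_uc.2 hy)
      · exact Or.inr (mem_uc.2 hy)
    · rintro (h | h)
      · exact ⟨x, mem_uc.1 h, by rw [hsite v hv]; omega⟩
      · exact ⟨x', mem_uc.1 h, by rw [hsite v hv]; omega⟩
  · intro v hv
    simp only [mem_insert, mem_singleton]
    constructor
    · rintro ⟨y, hy, hle⟩
      have hl := lev_cov H hy
      refine ⟨?_, ?_⟩
      · rintro (rfl | rfl)
        · rw [hsite y (by omega)] at hle; omega
        · rw [hsite y (by omega)] at hle; omega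
      · rintro (rfl | rfl)
        · rw [← mem_uc, D.T.cw, mem_insert, mem_singleton] at hy
          rcases hy with rfl | rfl <;> omega
        · rw [← mem_uc, D.T'.cw, mem_insert, mem_singleton] at hy
          rcases hy with rfl | rfl <;> omega
    · rintro ⟨h1, h2⟩
      push Not at h1 h2
      obtain ⟨y, hy⟩ := uc_nonempty H (x := v) (by omega)
      refine ⟨y, mem_uc.1 hy, ?_⟩
      rw [h0 v h2.1 h2.2 h1.1 h1.2]
      exact Nat.zero_le _
  · intro v hv
    rw [mem_insert, mem_singleton] at hv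
    rcases hv with rfl | rfl <;> omega
  · intro v hv
    rw [mem_insert, mem_singleton] at hv
    rw [mem_insert, mem_singleton]
    rcases hv with rfl | rfl
    · refine ⟨by omega, ?_⟩
      rintro (rfl | rfl) <;> omega
    · refine ⟨by omega, ?_⟩
      rintro (rfl | rfl) <;> omega
  · intro v hv
    exact D.T.site H hv

/-- the label of `x` is two -/
theorem low_x (hw : f w = 1) (hw' : f w' = 2) (hx : f x = 2) (hx' : f x' = 1)
    (h0 : ∀ y, y ≠ w → y ≠ w' → y ≠ x → y ≠ x' → f y = 0) :
    LowD i f {x'} {x} (uc x ∪ uc x') := by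
  obtain ⟨lw, lw', lx, lx', ls⟩ := D.lv H
  obtain ⟨dx, dx'⟩ := D.dcs H
  have hwx : w ⋖ x := by rw [← mem_dc, dx]; simp
  have hw'x : w' ⋖ x := by rw [← mem_dc, dx]; simp
  have hw'x' : w' ⋖ x' := by rw [← mem_dc, dx']; simp
  have hpos : ∀ y, 0 < f y → y = w ∨ y = w' ∨ y = x ∨ y = x' := by
    intro y h
    by_contra hc
    push Not at hc
    rw [h0 y hc.1 hc.2.1 hc.2.2.1 hc.2.2.2] at h
    exact lt_irrefl _ h
  have hsite : ∀ v, lev v = i → f v = 0 := by
    intro v hv
    refine h0 v ?_ ?_ ?_ ?_ <;> rintro rfl <;> omega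
  refine ⟨?_, ?_, ?_, ?_, ?_, ?_⟩
  · intro v hv
    rw [mem_singleton]
    constructor
    · rintro ⟨y, hy, hlt⟩
      have hl := lev_cov H hy
      rcases hpos y (by omega) with rfl | rfl | rfl | rfl
      · rw [← mem_uc, D.T.cw, mem_insert, mem_singleton] at hy
        rcases hy with rfl | rfl
        · omega
        · rfl
      · rw [← mem_uc, D.T'.cw, mem_insert, mem_singleton] at hy
        rcases hy with rfl | rfl
        · omega
        · rfl
      · omega
      · omega
    · rintro rfl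
      exact ⟨w', hw'x', by omega⟩
  · intro v hv
    rw [mem_union]
    constructor
    · rintro ⟨y, hy, hlt⟩
      have hl := lev_cov H hy
      rcases hpos y (by omega) with rfl | rfl | rfl | rfl
      · omega
      · omega
      · exact Or.inl (mem_uc.2 hy)
      · exact Or.inr (mem_uc.2 hy)
    · rintro (h | h)
      · exact ⟨x, mem_uc.1 h, by rw [hsite v hv]; omega⟩
      · exact ⟨x', mem_uc.1 h, by rw [hsite v hv]; omega⟩
  · intro v hv
    simp only [mem_singleton]
    constructor
    · rintro ⟨y, hy, hle⟩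
      have hl := lev_cov H hy
      refine ⟨?_, ?_⟩
      · rintro rfl
        rw [hsite y (by omega)] at hle; omega
      · rintro rfl
        rw [hsite y (by omega)] at hle; omega
    · rintro ⟨h1, h2⟩
      by_cases h3 : v = w
      · subst h3
        exact ⟨x, hwx, by omega⟩
      by_cases h4 : v = w'
      · subst h4
        exact ⟨x, hw'x, by omega⟩
      obtain ⟨y, hy⟩ := uc_nonempty H (x := v) (by omega)
      refine ⟨y, mem_uc.1 hy, ?_⟩
      rw [h0 v h3 h4 h2 h1]
      exact Nat.zero_le _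
  · intro v hv
    rw [mem_singleton] at hv
    rw [hv]
    omega
  · intro v hv
    rw [mem_singleton] at hv
    rw [mem_singleton, hv]
    exact ⟨by omega, D.T.ne⟩
  · intro v hv
    exact D.T.site H hv

end CP

/-- the data with the doubles exchanged -/
lemma CP.symm (D : CP i w w' x x' s) : CP i w w' x' x s := by
  refine ⟨⟨D.T.m, D.T.tw, by rw [D.T.cw, pair_comm], D.T.ne.symm, D.T.cx', D.T.cx, D.T.sx',
    D.T.sx, fun v h1 h2 => D.T.only v h2 h1⟩, ⟨D.T'.m, D.T'.tw, by rw [D.T'.cw, pair_comm],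
    D.T'.ne.symm, D.T'.cx', D.T'.cx, D.T'.sx', D.T'.sx, fun v h1 h2 => D.T'.only v h2 h1⟩, D.hr⟩

lemma ad_self : (Aw w + Pi.single z 1 : P → ℕ) z = Aw w z + 1 := by
  rw [Pi.add_apply, Pi.single_apply, if_pos rfl]

lemma ad_ne {y : P} (h : y ≠ z) : (Aw w + Pi.single z 1 : P → ℕ) y = Aw w y := by
  rw [Pi.add_apply, Pi.single_apply, if_neg h, add_zero]

end Pool.Agent.GaussPoset.Win.SO

end

/-! From `Pool.Agent.W_448cl_h64.ClH` -/

section

/-!
CLOSED PAIRS AT ENERGY SIX (MP_448cb3_co, G2): the sum over one more unit.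
-/

set_option autoImplicit false

namespace Pool.Agent.GaussPoset.Win.SO

set_option linter.unusedSectionVars false

open Finset
open Pool.Agent.GaussPoset.Win.I2 (lS uS mem_lS mem_uS side0_low)
open Pool.Agent.GaussPoset.Win.So (coeff_dd c0_units c1_xx xx_c xi_n en en_site en_low en_upp
  en_none en_bad en_badU con_empty)
open Pool.Agent.GaussPoset.Win.Xg (rk)

universe u

variable {P : Type u} [Fintype P] [PartialOrder P] [DecidableEq P] {r i : ℕ} {psi : P → P}
  {e f : P → ℕ} {C : Finset P} {w w' x x' s z : P} {K F B K' F' B' : Finset P}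

theorem coeff_tC2 (H : Gr P r) (hC : Part (i + 1) C) (hs : Spt C e)
    (D : LowD i e K F B) (D' : UppD i e K' F' B') (hd : Disjoint B B') {t : ℕ}
    (h : B.card + B'.card = F.card + F'.card + t) :
    PowerSeries.coeff (st i C).card (dd ^ t * tC i C e : A) =
      (-1) ^ (K.card + B.card + (K'.card + F'.card)) := by
  rw [coeff_tC H hC hs D D' hd, if_pos (by omega),
    show B.card + B'.card - (F.card + F'.card + t) = 0 by omega, c0_units]

theorem coeff_tC1 (H : Gr P r) (hC : Part (i + 1) C) (hs : Spt C e)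
    (D : LowD i e K F B) (D' : UppD i e K' F' B') (hd : Disjoint B B') {t : ℕ}
    (h : B.card + B'.card = F.card + F'.card + t + 1) :
    PowerSeries.coeff (st i C).card (dd ^ t * tC i C e : A) =
      PowerSeries.coeff 1 (xx ^ (K.card + B.card) * xi ^ (K'.card + F'.card) : A) := by
  rw [coeff_tC H hC hs D D' hd, if_pos (by omega),
    show B.card + B'.card - (F.card + F'.card + t) = 1 by omega]

theorem coeff_tC0 (H : Gr P r) (hC : Part (i + 1) C) (hs : Spt C e)
    (D : LowD i e K F B) (D' : UppD i e K' F' B') (hd : Disjoint B B') {t : ℕ}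
    (h : B.card + B'.card < F.card + F'.card + t) :
    PowerSeries.coeff (st i C).card (dd ^ t * tC i C e : A) = 0 := by
  rw [coeff_tC H hC hs D D' hd, if_neg (by omega)]

/-- the value of one unit at `z` -/
noncomputable def unv (i : ℕ) (C : Finset P) (z : P) : ℤ :=
  PowerSeries.coeff (st i C).card (tC i C (Pi.single z 1) : A)

/-- the value of one unit at `z` over the labelling of type A -/
noncomputable def phv (i : ℕ) (C : Finset P) (w z : P) : ℤ :=
  PowerSeries.coeff (st i C).card (dd ^ 2 * tC i C (Aw w + Pi.single z 1) : A)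

lemma single_en (z : P) : (Pi.single z 1 : P → ℕ) = en ∅ z := by
  funext y
  unfold en
  rw [Pi.single_apply, if_neg (notMem_empty y), zero_add]

lemma spt_en (hz : z ∈ C) : Spt C (en ∅ z) := by
  intro y hy
  unfold en
  rw [if_neg (notMem_empty y), if_neg (by rintro rfl; exact hy hz)]

section unit

variable (H : Gr P r) (hir : i ≤ r) (hC : Part (i + 1) C) (hz : z ∈ C)
include H hir hC hz

lemma unv_site (hl : lev z = i) : unv i C z = 1 := by
  have h := coeff_tC2 (t := 0) H hC (spt_en hz) (en_site H con_empty hl (notMem_empty z))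
    (en_none H hir con_empty hl.ge) (disjoint_empty_left _) (by simp)
  rw [pow_zero, one_mul] at h
  unfold unv
  rw [single_en, h]
  simp

lemma unv_near (hl : lev z = i + 1) : unv i C z = - ((uc z).card : ℤ) := by
  have D : LowD i (en ∅ z) ∅ {z} (uc z) := by
    refine en_low H con_empty (by omega) (notMem_empty z) (by omega) ?_ ?_
    · intro y
      rw [mem_singleton]
      constructor
      · intro h
        exact Or.inr ⟨h, hl⟩
      · rintro (h | ⟨h, -⟩)
        · exact absurd h (notMem_empty y)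
        · exact h
    · intro y
      rw [mem_uc]
      constructor
      · intro h
        exact Or.inr ⟨h, hl⟩
      · rintro (h | ⟨h, -⟩)
        · exact absurd h (notMem_empty y)
        · exact h
  have D' := en_none (U := ∅) (x := z) H hir con_empty (by omega)
  unfold unv
  rw [single_en]
  rcases uc_card_cases H (x := z) (by omega) with h1 | h1
  · have h := coeff_tC2 (t := 0) H hC (spt_en hz) D D' (disjoint_empty_right _) (by
      rw [h1]; simp)
    rw [pow_zero, one_mul] at h
    rw [h, h1]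
    simp
  · have h := coeff_tC1 (t := 0) H hC (spt_en hz) D D' (disjoint_empty_right _) (by
      rw [h1]; simp)
    rw [pow_zero, one_mul] at h
    rw [h, h1]
    simp only [card_empty, zero_add, pow_zero, mul_one]
    have := c1_xx 1
    norm_num at this ⊢
    exact this

lemma unv_upp (hl : lev z + 1 = i) : unv i C z = -1 := by
  obtain ⟨D, D'⟩ := en_upp (U := ∅) (x := z) H hir con_empty hl
  unfold unv
  rw [single_en]
  have h1 : 1 ≤ (dc z).card := card_pos.2 (dc_nonempty H (by omega))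
  have h2 := dc_card_le H z
  rcases Nat.lt_or_ge (dc z).card 2 with h3 | h3
  · have h4 : (dc z).card = 1 := by omega
    have h := coeff_tC2 (t := 0) H hC (spt_en hz) D D' (disjoint_empty_left _) (by
      rw [h4]; simp)
    rw [pow_zero, one_mul] at h
    rw [h]
    simp
  · have h4 : (dc z).card = 2 := by omega
    have h := coeff_tC1 (t := 0) H hC (spt_en hz) D D' (disjoint_empty_left _) (by
      rw [h4]; simp)
    rw [pow_zero, one_mul] at h
    rw [h]
    simp only [card_empty, card_singleton, add_zero, zero_add, pow_zero, pow_one, one_mul]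
    exact xi_n 1

omit hir hC hz in
lemma unv_far (hl : i + 1 < lev z) : unv i C z = 0 := by
  unfold unv
  rw [single_en, tC_zero_adm, map_zero]
  obtain ⟨y, hy⟩ := uc_nonempty H (x := z) (by omega)
  rintro ⟨h, -⟩
  exact en_bad con_empty hl H (notMem_empty z) (mem_uc.1 hy) (notMem_empty y) h

omit hC hz in
lemma unv_farU (hl : lev z + 1 < i) : unv i C z = 0 := by
  unfold unv
  rw [single_en, tC_zero_adm, map_zero]
  rintro ⟨-, h⟩
  exact en_badU H hir con_empty hl h

end unit

namespace CP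

variable (H : Gr P r) (hir : i ≤ r) (hC : Part (i + 1) C) (D : CP i w w' x x' s) (hw : w ∈ C)
  (hw' : w' ∈ C) (hz : z ∈ C)
include H D

lemma aw_low {y : P} (h : lev y ≤ i) : Aw w y = 0 := by
  have l := D.lv H
  refine D.aw_zero H ?_ ?_ ?_ ?_ <;> rintro rfl <;> omega

lemma site_zero {y : P} (h : lev y ≤ i) (hyz : y ≠ z) :
    (Aw w + Pi.single z 1 : P → ℕ) y = 0 := by
  rw [ad_ne hyz, D.aw_low H h]

include hir in
/-- upper side without deficits -/
lemma upp0 (hl : i ≤ lev z) : UppD i (Aw w + Pi.single z 1) ∅ ∅ ∅ :=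
  upp_none H hir fun y hy => D.site_zero H hy.le (by rintro rfl; omega)

/-- the lower side for a unit outside the cone, at distance not one -/
lemma low0 (h1 : z ≠ w) (h2 : z ≠ x) (h3 : z ≠ x') (h4 : z ∉ uc x ∪ uc x')
    (h5 : z = w' ∨ lev z ≤ i) :
    LowD i (Aw w + Pi.single z 1) {x, x'} {w'} (uc x ∪ uc x') := by
  classical
  have l := D.lv H
  have nx := D.nx H
  have key := D.low H (f := Aw w + Pi.single z 1) (X := ∅) ?_ ?_ ?_ ?_ ?_ ?_ ?_ ?_ ?_
  · simpa using key
  · rw [ad_ne h1.symm, D.aw_w H]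
  · by_cases h : w' = z
    · subst h
      rw [ad_self, D.aw_w' H]
      omega
    · rw [ad_ne h, D.aw_w' H]
  · rw [ad_ne h2.symm, D.aw_x H]
  · rw [ad_ne h3.symm, D.aw_x' H]
  · intro y hy a1 a2 a3 a4 _
    rw [ad_ne, D.aw_zero H a1 a2 a3 a4]
    rintro rfl
    rcases h5 with h5 | h5
    · exact a2 h5
    · omega
  · exact fun y hy => absurd hy (notMem_empty y)
  · exact fun y hy => absurd hy (notMem_empty y)
  · intro v hv
    exact D.site_zero H (D.T.site H hv).le (by rintro rfl; exact h4 hv)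
  · exact fun y hy => absurd hy (notMem_empty y)

omit H in
lemma three : (uc x ∪ uc x').card = 3 := D.T.three

include hw hw' hz hC in
lemma ad_spt : Spt C (Aw w + Pi.single z 1) := by
  intro y hy
  rw [Pi.add_apply, D.aw_spt H hC hw hw' y hy, Pi.single_apply,
    if_neg (by rintro rfl; exact hy hz), add_zero]

include hir in
lemma ph_farU (hl : lev z + 1 < i) : phv i C w z = 0 := by
  unfold phv
  rw [tC_zero_adm, mul_zero, map_zero]
  rintro ⟨-, h⟩
  refine upp_bad H hir hl ?_ ?_ h
  · rw [ad_self]; omega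
  · exact fun y hy hyz => D.site_zero H hy hyz

include hir hC hw hw' hz

lemma ph_upp (hl : lev z + 1 = i) : phv i C w z =
    if Disjoint (uc x ∪ uc x') (dc z) then (if (dc z).card = 1 then 1 else -4) else 0 := by
  have l := D.lv H
  have D1 : LowD i (Aw w + Pi.single z 1) {x, x'} {w'} (uc x ∪ uc x') := by
    refine D.low0 H ?_ ?_ ?_ ?_ (Or.inr (by omega))
    · rintro rfl; omega
    · rintro rfl; omega
    · rintro rfl; omega
    · intro h
      have := D.T.site H h
      omega
  have D2 : UppD i (Aw w + Pi.single z 1) ∅ {z} (dc z) := by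
    refine upp_one H hir hl ?_ (fun y hy hyz => D.site_zero H hy hyz)
    rw [ad_self, D.aw_low H (by omega)]
  have h3 := D.three
  have hn := D.T.ne
  unfold phv
  split_ifs with hd h1
  · rw [coeff_tC2 H hC (D.ad_spt H hC hw hw' hz) D1 D2 hd (by
      rw [h3, h1]; simp), h3, card_pair hn]
    simp
  · have c1 : 1 ≤ (dc z).card := card_pos.2 (dc_nonempty H (by omega))
    have c2 := dc_card_le H z
    have h4 : (dc z).card = 2 := by omega
    rw [coeff_tC1 H hC (D.ad_spt H hC hw hw' hz) D1 D2 hd (by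
      rw [h3, h4]; simp), h3, card_pair hn]
    simp only [card_empty, card_singleton, zero_add, pow_one]
    rw [PowerSeries.coeff_one_mul, c1_xx 4, xi_n, map_pow, xx_c]
    have h' : PowerSeries.constantCoeff (xi : A) = -1 := by
      have := xi_n 0
      rwa [PowerSeries.coeff_zero_eq_constantCoeff_apply] at this
    rw [h']
    norm_num
  · rw [tC_zero_dis D1 D2 hd, mul_zero, map_zero]

lemma ph_out (hl : lev z = i) (h : z ∉ uc x ∪ uc x') : phv i C w z = -1 := by
  have l := D.lv H
  have D1 : LowD i (Aw w + Pi.single z 1) {x, x'} {w'} (uc x ∪ uc x') := by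
    refine D.low0 H ?_ ?_ ?_ h (Or.inr (by omega))
    · rintro rfl; omega
    · rintro rfl; omega
    · rintro rfl; omega
  unfold phv
  rw [coeff_tC2 H hC (D.ad_spt H hC hw hw' hz) D1 (D.upp0 H hir hl.ge)
    (disjoint_empty_right _) (by rw [D.three]; simp), D.three, card_pair D.T.ne]
  norm_num

omit hir hC hw hw' hz in
lemma ph_in (h : z ∈ uc x ∪ uc x') : phv i C w z = 0 := by
  have l := D.lv H
  have hl := D.T.site H h
  obtain ⟨dx, dx'⟩ := D.dcs H
  have nx := D.nx H
  unfold phv
  rw [tC_zero_adm, mul_zero, map_zero]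
  rintro ⟨hA, -⟩
  have hw'z : w' ≠ z := by rintro rfl; omega
  rcases mem_union.1 h with h | h
  · apply hA x (by omega)
    have hxz : x ≠ z := by rintro rfl; omega
    refine ⟨⟨w', by rw [← mem_dc, dx]; simp, ?_⟩, ⟨z, mem_uc.1 h, ?_⟩⟩
    · rw [ad_ne hxz, ad_ne hw'z, D.aw_x H, D.aw_w' H]
      omega
    · rw [ad_ne hxz, ad_self, D.aw_x H]
      omega
  · apply hA x' (by omega)
    have hxz : x' ≠ z := by rintro rfl; omega
    refine ⟨⟨w', by rw [← mem_dc, dx']; simp, ?_⟩, ⟨z, mem_uc.1 h, ?_⟩⟩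
    · rw [ad_ne hxz, ad_ne hw'z, D.aw_x' H, D.aw_w' H]
      omega
    · rw [ad_ne hxz, ad_self, D.aw_x' H]
      omega

omit hz in
lemma ph_w : phv i C w w = 0 := by
  have l := D.lv H
  have nx := D.nx H
  have hn := D.ne
  have D1 : LowD i (Aw w + Pi.single w 1) {x, x'} {w, w'} (uc x ∪ uc x') := by
    refine D.low_ww H ?_ ?_ ?_ ?_ ?_
    · rw [ad_self, D.aw_w H]
    · rw [ad_ne hn.symm, D.aw_w' H]
    · rw [ad_ne nx.1, D.aw_x H]
    · rw [ad_ne nx.2.2.1, D.aw_x' H]
    · intro y a1 a2 a3 a4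
      rw [ad_ne a1, D.aw_zero H a1 a2 a3 a4]
  unfold phv
  exact coeff_tC0 H hC (D.ad_spt H hC hw hw' hw) D1 (D.upp0 H hir (by omega))
    (disjoint_empty_right _) (by rw [D.three, card_pair hn]; simp)

omit hz in
lemma ph_w' : phv i C w w' = -1 := by
  have l := D.lv H
  have nx := D.nx H
  have D1 : LowD i (Aw w + Pi.single w' 1) {x, x'} {w'} (uc x ∪ uc x') := by
    refine D.low0 H D.ne.symm nx.2.1.symm nx.2.2.2.symm ?_ (Or.inl rfl)
    intro h
    have := D.T.site H h
    omega
  unfold phv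
  rw [coeff_tC2 H hC (D.ad_spt H hC hw hw' hw') D1 (D.upp0 H hir (by omega))
    (disjoint_empty_right _) (by rw [D.three]; simp), D.three, card_pair D.T.ne]
  norm_num

omit hz in
lemma ph_x : phv i C w x = 1 := by
  have l := D.lv H
  have nx := D.nx H
  have hn := D.T.ne
  have D1 : LowD i (Aw w + Pi.single x 1) {x'} {x} (uc x ∪ uc x') := by
    refine D.low_x H ?_ ?_ ?_ ?_ ?_
    · rw [ad_ne nx.1.symm, D.aw_w H]
    · rw [ad_ne nx.2.1.symm, D.aw_w' H]
    · rw [ad_self, D.aw_x H]
    · rw [ad_ne hn.symm, D.aw_x' H]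
    · intro y a1 a2 a3 a4
      rw [ad_ne a3, D.aw_zero H a1 a2 a3 a4]
  unfold phv
  rw [coeff_tC2 H hC (D.ad_spt H hC hw hw' (D.mem H hC hw).1) D1 (D.upp0 H hir (by omega))
    (disjoint_empty_right _) (by rw [D.three]; simp), D.three, card_singleton]
  norm_num

omit hz in
lemma ph_x' : phv i C w x' = 1 := D.symm.ph_x H hir hC hw hw'

lemma ph_near (hl : lev z = i + 1) (h1 : z ≠ x) (h2 : z ≠ x') : phv i C w z =
    if (uc z \ (uc x ∪ uc x')).card = 0 then 0 else
      if (uc z \ (uc x ∪ uc x')).card = 1 then 1 else 7 := by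
  classical
  have l := D.lv H
  have nx := D.nx H
  have hzw : z ≠ w := by rintro rfl; omega
  have hzw' : z ≠ w' := by rintro rfl; omega
  have hf : ({z} : Finset P).filter (fun y => lev y = i + 1) = {z} := by
    rw [filter_singleton, if_pos hl]
  have D1 : LowD i (Aw w + Pi.single z 1) {x, x'} {w', z} (uc x ∪ uc x' ∪ uc z) := by
    have key := D.low H (f := Aw w + Pi.single z 1) (X := {z}) ?_ ?_ ?_ ?_ ?_ ?_ ?_ ?_ ?_
    · rw [hf, singleton_biUnion] at key
      exact key
    · rw [ad_ne hzw.symm, D.aw_w H]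
    · rw [ad_ne hzw'.symm, D.aw_w' H]
    · rw [ad_ne h1.symm, D.aw_x H]
    · rw [ad_ne h2.symm, D.aw_x' H]
    · intro y hy a1 a2 a3 a4 a5
      rw [ad_ne (fun h => a5 (mem_singleton.2 h)), D.aw_zero H a1 a2 a3 a4]
    · intro y hy
      rw [mem_singleton] at hy
      subst hy
      exact ⟨by rw [ad_self, D.aw_zero H hzw hzw' h1 h2], by omega, hzw, hzw', h1, h2⟩
    · intro y hy hl'
      rw [mem_singleton] at hy
      subst hy
      omega
    · intro v hv
      have := D.T.site H hv
      exact D.site_zero H this.le (by rintro rfl; omega)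
    · intro y hy _ v hv
      rw [mem_singleton] at hy
      subst hy
      have := lev_uc H hv
      exact D.site_zero H (by omega) (by rintro rfl; omega)
  have h3 : (uc x ∪ uc x' ∪ uc z).card = 3 + (uc z \ (uc x ∪ uc x')).card := by
    rw [← union_sdiff_self_eq_union, card_union_of_disjoint disjoint_sdiff, D.three]
  have h4 : (uc z \ (uc x ∪ uc x')).card ≤ 2 :=
    (card_le_card sdiff_subset).trans (uc_card_le H z)
  have hp : ({w', z} : Finset P).card = 2 := card_pair hzw'.symm
  have hs := D.ad_spt H hC hw hw' hz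
  have D2 := D.upp0 H hir (z := z) (by omega)
  unfold phv
  split_ifs with g1 g2
  · exact coeff_tC0 H hC hs D1 D2 (disjoint_empty_right _) (by rw [h3, g1, hp]; simp)
  · rw [coeff_tC2 H hC hs D1 D2 (disjoint_empty_right _) (by rw [h3, g2, hp]; simp), h3, g2,
      card_pair D.T.ne]
    norm_num
  · have g3 : (uc z \ (uc x ∪ uc x')).card = 2 := by omega
    rw [coeff_tC1 H hC hs D1 D2 (disjoint_empty_right _) (by rw [h3, g3, hp]; simp), h3, g3,
      card_pair D.T.ne]
    simp only [card_empty, zero_add, pow_zero, mul_one]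
    have := c1_xx 6
    norm_num at this ⊢
    exact this

lemma ph_far (hl : i + 1 < lev z) (h1 : z ≠ w) (h2 : z ≠ w') : phv i C w z =
    if (i + 2 < lev z ∧ ∀ y ∈ uc z, uc y = uc w) then -1 else 0 := by
  classical
  have l := D.lv H
  have nx := D.nx H
  obtain ⟨dx, dx'⟩ := D.dcs H
  have hzx : z ≠ x := by rintro rfl; omega
  have hzx' : z ≠ x' := by rintro rfl; omega
  split_ifs with hch
  · have hf : ({z} : Finset P).filter (fun y => lev y = i + 1) = ∅ := by
      rw [filter_singleton, if_neg (by omega)]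
    have D1 : LowD i (Aw w + Pi.single z 1) {x, x'} {w'} (uc x ∪ uc x') := by
      have key := D.low H (f := Aw w + Pi.single z 1) (X := {z}) ?_ ?_ ?_ ?_ ?_ ?_ ?_ ?_ ?_
      · rw [hf, biUnion_empty, union_empty] at key
        exact key
      · rw [ad_ne h1.symm, D.aw_w H]
      · rw [ad_ne h2.symm, D.aw_w' H]
      · rw [ad_ne hzx.symm, D.aw_x H]
      · rw [ad_ne hzx'.symm, D.aw_x' H]
      · intro y hy a1 a2 a3 a4 a5
        rw [ad_ne (fun h => a5 (mem_singleton.2 h)), D.aw_zero H a1 a2 a3 a4]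
      · intro y hy
        rw [mem_singleton] at hy
        subst hy
        exact ⟨by rw [ad_self, D.aw_zero H h1 h2 hzx hzx'], by omega, h1, h2, hzx, hzx'⟩
      · intro y hy hl' v hv
        rw [mem_singleton] at hy
        subst hy
        have hvz : v ≠ y := by
          rintro rfl
          exact lt_irrefl _ hv.lt
        rw [ad_ne hvz]
        rcases D.uc_eq H (hch.2 v (mem_uc.2 hv)) with rfl | rfl
        · rw [D.aw_w H]
        · rw [D.aw_w' H]; omega
      · intro v hv
        have := D.T.site H hv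
        exact D.site_zero H this.le (by rintro rfl; omega)
      · intro y hy hl'
        rw [mem_singleton] at hy
        subst hy
        omega
    unfold phv
    rw [coeff_tC2 H hC (D.ad_spt H hC hw hw' hz) D1 (D.upp0 H hir (by omega))
      (disjoint_empty_right _) (by rw [D.three]; simp), D.three, card_pair D.T.ne]
    norm_num
  · -- a cover with label zero
    have hy : ∃ y, z ⋖ y ∧ Aw w y = 0 := by
      by_contra hcon
      push Not at hcon
      apply hch
      have hall : ∀ y ∈ uc z, y = w ∨ y = w' := by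
        intro y hy
        have ly := lev_cov H (mem_uc.1 hy)
        have h0 := hcon y (mem_uc.1 hy)
        rcases D.aw_pos H (show 0 < Aw w y by omega) with h | h | h | h
        · exact Or.inl h
        · exact Or.inr h
        · exfalso
          have h3 : z ∈ dc x := by rw [mem_dc, ← h]; exact mem_uc.1 hy
          rw [dx, mem_insert, mem_singleton] at h3
          rcases h3 with h3 | h3
          · exact h1 h3
          · exact h2 h3
        · exfalso
          have h3 : z ∈ dc x' := by rw [mem_dc, ← h]; exact mem_uc.1 hy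
          rw [dx', mem_insert, mem_singleton] at h3
          rcases h3 with h3 | h3
          · exact h1 h3
          · exact h2 h3
      constructor
      · obtain ⟨y, hy⟩ := uc_nonempty H (x := z) (by omega)
        have ly := lev_uc H hy
        rcases hall y hy with rfl | rfl <;> omega
      · intro y hy
        rcases hall y hy with rfl | rfl
        · rfl
        · exact D.ucs
    obtain ⟨y, hzy, h0⟩ := hy
    unfold phv
    rw [tC_zero_adm, mul_zero, map_zero]
    rintro ⟨hA, -⟩
    have ly := lev_cov H hzy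
    have hyz : y ≠ z := by rintro rfl; exact lt_irrefl _ hzy.lt
    apply hA y (by omega)
    constructor
    · exact ⟨z, hzy, by rw [ad_ne hyz, h0, ad_self]; omega⟩
    · obtain ⟨v, hv⟩ := uc_nonempty H (x := y) (by omega)
      exact ⟨v, mem_uc.1 hv, by rw [ad_ne hyz, h0]; exact Nat.zero_le _⟩

end CP

end Pool.Agent.GaussPoset.Win.SO

end
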