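import Mathlib
import Pool.Agent.W_448zz_h61.Ns
import Pool.Agent.W_448zz_h61.M108
import Pool.Agent.W_448zz_h61.M109
import Pool.Agent.W_448zz_h61.M110

/-! From `Pool.Agent.W_448so_h64.SoR` -/

section

/-!
SECOND ORDER THEOREM (MP_448cb3_co, proofs row 476): the value of (6,2).
-/

namespace Pool.Agent.GaussPoset.Win.SO

set_option linter.unusedSectionVars false

open Finset
open Pool.Agent.GaussPoset.Win.I2 (lS uS mem_lS mem_uS)
open Pool.Agent.GaussPoset.Win.So (TogL TogU RefL RefU RefD)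

universe u

variable {P : Type u} [Fintype P] [PartialOrder P] [DecidableEq P] {r i : ℕ} {psi : P → P}
  {e : P → ℕ} {C : Finset P}

lemma part_pred (hC : Part (i + 1) C) : Part i C :=
  ⟨hC.up, fun hy hl hxy => hC.dn hy (by omega) hxy⟩

/-- few deficits: divisibility of the term -/
lemma cheap_dvd (H : Gr P r) (hC : Part (i + 1) C) (hs : Spt C e) {k : ℕ} (h : Cheap k i e) :
    dd ^ ((st i C).card - k) ∣ tC i C e := by
  rw [tC_IV H (part_pred hC) hs]
  exact Rk_IV (Rk_sub (st_sub i C) (Rk_of_cheap h))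

/-- at most one deficit: no second order coefficient -/
lemma cheap_coeff (H : Gr P r) (hC : Part (i + 1) C) (hs : Spt C e) (h : Cheap 1 i e)
    (hb : 1 ≤ (st i C).card) :
    PowerSeries.coeff (st i C).card (dd ^ 2 * tC i C e : A) = 0 := by
  obtain ⟨q, hq⟩ := cheap_dvd H hC hs h
  have h1 : dd ^ ((st i C).card + 1) ∣ (dd ^ 2 * tC i C e : A) := by
    rw [hq, ← mul_assoc, ← pow_add]
    exact dvd_mul_of_dvd_left (pow_dvd_pow _ (by omega)) _
  exact I2.coeff_eq_zero_of_dvd h1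

/-- the value of a configuration of the index set -/
noncomputable def val (i : ℕ) (C T : Finset P) : ℤ :=
  PowerSeries.coeff (st i C).card (dd ^ 2 * tC i C (Psi i C T) : A)

lemma val_ne (Q : PSO r i psi C) {T : Finset P} (hT : T ∈ Ix i C) :
    ∑ x, Psi i C T x = 6 ∧ val i C T ≠ 0 := by
  rcases mem_Ix.1 hT with h | ⟨z, h | h, rfl⟩
  · obtain ⟨h1, h2⟩ := PR_value Q.H Q.hi Q.hi2 Q.hC h
    refine ⟨h1, ?_⟩
    unfold val
    rw [h2, prod_ne_zero_iff]
    intro z _
    unfold chg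
    split_ifs <;> norm_num
  · obtain ⟨h1, h2⟩ := N1_value Q h
    refine ⟨h1, ?_⟩
    unfold val
    rw [h2]
    norm_num
  · obtain ⟨h1, h2⟩ := N5_value Q.H Q.hi Q.hi2 Q.hC h
    refine ⟨h1, ?_⟩
    unfold val
    rw [h2]
    norm_num

/-- the configurations of the index set are leftover configurations -/
theorem Psi_LO6 (Q : PS6 r i psi C) (hb : 1 ≤ (st i C).card) {T : Finset P} (hT : T ∈ Ix i C) :
    LO6 uc dc (tL (P := P) i) (tU i) (lS P i) (uS P i) (Psi i C T) := by
  have hir : i ≤ r := by have := Q.hi2; omega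
  obtain ⟨h1, h2⟩ := val_ne Q.toPSO hT
  have hs := Psi_spt Q.H Q.hC hT
  rcases Q.cls hs (Psi_core Q.H hT) h1.le with h | ⟨h, ⟨w, x, x', a, s, b, G, -⟩ |
    ⟨w, x, x', a, s, b, G, -⟩⟩ | ⟨y, p, u, p', g1, g2, g3, D, R⟩ | h
  · exact absurd (cheap_coeff Q.H Q.hC hs h hb) h2
  · exact absurd G (Psi_noTogL Q.H hT)
  · exact absurd G (Psi_noTogU Q.H hT)
  · obtain ⟨k1, k2⟩ := Psi_noRef Q.H hir hT D
    rcases R with R | R
    · exact absurd R k1
    · exact absurd R k2
  · exact h.2.2.2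

/-- sums over the leftover configurations of energy six -/
theorem sum_LO6 (Q : PS6 r i psi C) (hb : 1 ≤ (st i C).card) {M : Type*} [AddCommMonoid M]
    (f : (P → ℕ) → M) [DecidablePred (LO6 uc dc (tL (P := P) i) (tU i) (lS P i) (uS P i))] :
    ∑ e ∈ (C.piAntidiag 6).filter (LO6 uc dc (tL (P := P) i) (tU i) (lS P i) (uS P i)), f e =
      ∑ T ∈ Ix i C, f (Psi i C T) := by
  classical
  have hir : i ≤ r := by have := Q.hi2; omega
  have h1 : (C.piAntidiag 6).filter (LO6 uc dc (tL (P := P) i) (tU i) (lS P i) (uS P i)) =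
      (Ix i C).image (Psi i C) := by
    ext e
    rw [mem_filter, mem_image, mem_piA]
    constructor
    · rintro ⟨⟨g1, g2⟩, g3⟩
      exact LO6_index Q.toPSO g2 g3
    · rintro ⟨T, hT, rfl⟩
      exact ⟨⟨(val_ne Q.toPSO hT).1, Psi_spt Q.H Q.hC hT⟩, Psi_LO6 Q hb hT⟩
  rw [h1, sum_image]
  intro T hT T' hT' h
  exact Psi_inj Q.H hir hT hT' h

/-- sums over the index set -/
theorem sum_Ix (H : Gr P r) {M : Type*} [AddCommMonoid M] (f : Finset P → M) :
    ∑ T ∈ Ix i C, f T =
      ∑ T ∈ PR i C, f T + (∑ z ∈ N1f i C, f {z} + ∑ z ∈ N5f i C, f {z}) := by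
  classical
  unfold Ix
  have hd : Disjoint (PR i C) ((N1f i C ∪ N5f i C).image (fun z => {z})) := by
    rw [disjoint_left]
    intro T hT hT'
    rw [mem_image] at hT'
    obtain ⟨z, -, rfl⟩ := hT'
    have := (mem_PR.1 hT).2.1
    rw [card_singleton] at this
    omega
  have hd2 : Disjoint (N1f i C) (N5f i C) := by
    rw [disjoint_left]
    intro z hz hz'
    exact N5f_N1f H hz' hz
  rw [sum_union hd, sum_image, sum_union hd2]
  intro a _ b _ h
  exact singleton_injective h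

/-- THE VALUE OF (6,2) -/
theorem PS6.be6 (Q : PS6 r i psi C) (hb : 1 ≤ (st i C).card) :
    I2.be 6 (st i C).card (ZS i C) =
      ∑ T ∈ PR i C, ∏ z ∈ T, chg i C z - (N1f i C).card - (N5f i C).card := by
  classical
  rw [Q.be_six hb, sum_LO6 Q hb, sum_Ix Q.H]
  have h1 : ∑ T ∈ PR i C, PowerSeries.coeff (st i C).card (dd ^ 2 * tC i C (Psi i C T) : A) =
      ∑ T ∈ PR i C, ∏ z ∈ T, chg i C z :=
    sum_congr rfl fun T hT => (PR_value Q.H Q.hi Q.hi2 Q.hC hT).2
  have h2 : ∑ z ∈ N1f i C, PowerSeries.coeff (st i C).card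
      (dd ^ 2 * tC i C (Psi i C {z}) : A) = ∑ z ∈ N1f i C, (-1 : ℤ) :=
    sum_congr rfl fun z hz => (N1_value Q.toPSO hz).2
  have h3 : ∑ z ∈ N5f i C, PowerSeries.coeff (st i C).card
      (dd ^ 2 * tC i C (Psi i C {z}) : A) = ∑ z ∈ N5f i C, (-1 : ℤ) :=
    sum_congr rfl fun z hz => (N5_value Q.H Q.hi Q.hi2 Q.hC hz).2
  rw [h1, h2, h3, sum_const, sum_const]
  simp only [smul_eq_mul, nsmul_eq_mul]
  ring

/-- twice the sum over the pairs with disjoint sites is the sum over the ordered pairs -/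
theorem two_PR (H : Gr P r) (hir : i ≤ r) (g : P → ℤ) :
    2 * ∑ T ∈ PR i C, ∏ z ∈ T, g z = ∑ z ∈ Chs i C, ∑ z' ∈ Chs i C,
      if Disjoint (sit i z) (sit i z') then g z * g z' else 0 := by
  classical
  have hne : ∀ z ∈ Chs i C, ¬ Disjoint (sit i z) (sit i z) := by
    intro z hz hd
    obtain ⟨v, hv⟩ := sit_ne H hir (num_Chs H hz).ns
    exact disjoint_left.1 hd hv hv
  rw [← Finset.sum_product']
  rw [← Finset.sum_filter (fun q : P × P => Disjoint (sit i q.1) (sit i q.2))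
    (fun q => g q.1 * g q.2)]
  rw [← Finset.sum_fiberwise_of_maps_to (t := PR i C)
    (g := fun q : P × P => ({q.1, q.2} : Finset P))]
  · rw [Finset.mul_sum]
    refine sum_congr rfl fun T hT => ?_
    obtain ⟨h1, h2, h3⟩ := mem_PR.1 hT
    obtain ⟨z, z', hzz, rfl⟩ := card_eq_two.1 h2
    have hz := h1 (show z ∈ ({z, z'} : Finset P) by simp)
    have hz' := h1 (show z' ∈ ({z, z'} : Finset P) by simp)
    have hd := h3 z (by simp) z' (by simp) hzz
    have h4 : (((Chs i C ×ˢ Chs i C).filter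
        (fun q : P × P => Disjoint (sit i q.1) (sit i q.2))).filter
          (fun q : P × P => ({q.1, q.2} : Finset P) = {z, z'})) = {(z, z'), (z', z)} := by
      ext ⟨a, b⟩
      simp only [mem_filter, mem_product, mem_insert, mem_singleton, Prod.mk.injEq]
      constructor
      · rintro ⟨⟨⟨g1, g2⟩, g3⟩, g4⟩
        have ha : a ∈ ({z, z'} : Finset P) := by rw [← g4]; simp
        have hb : b ∈ ({z, z'} : Finset P) := by rw [← g4]; simp
        rw [mem_insert, mem_singleton] at ha hb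
        rcases ha with rfl | rfl <;> rcases hb with rfl | rfl
        · exact absurd g3 (hne _ g1)
        · exact Or.inl ⟨rfl, rfl⟩
        · exact Or.inr ⟨rfl, rfl⟩
        · exact absurd g3 (hne _ g1)
      · rintro (⟨rfl, rfl⟩ | ⟨rfl, rfl⟩)
        · exact ⟨⟨⟨hz, hz'⟩, hd⟩, rfl⟩
        · exact ⟨⟨⟨hz', hz⟩, hd.symm⟩, pair_comm _ _⟩
    rw [h4, sum_pair, prod_pair hzz]
    · ring
    · intro h
      rw [Prod.mk.injEq] at h
      exact hzz h.1
  · rintro ⟨a, b⟩ hq
    rw [mem_filter, mem_product] at hq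
    exact (pr_of H hir hq.1.1 hq.1.2 hq.2).1

/-- the square of the total charge -/
theorem sq_QQ (H : Gr P r) (hir : i ≤ r) :
    (∑ z ∈ Chs i C, chg i C z) ^ 2 - 2 * ∑ T ∈ PR i C, ∏ z ∈ T, chg i C z = QQ i C := by
  classical
  rw [two_PR H hir, sq, sum_mul_sum]
  unfold QQ
  rw [← sum_sub_distrib]
  refine sum_congr rfl fun z _ => ?_
  rw [← sum_sub_distrib]
  refine sum_congr rfl fun z' _ => ?_
  split_ifs <;> ring

/-- THE SECOND ORDER IDENTITY of a part: with `al 3` = total charge,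
`al 3 ^ 2 - 2 be 6 = QQ + 2 (N1 + N5)`. -/
theorem PS6.six (Q : PS6 r i psi C) (hb : 1 ≤ (st i C).card)
    (h3 : I2.al 3 (st i C).card (ZS i C) = ∑ z ∈ Chs i C, chg i C z) :
    (I2.al 3 (st i C).card (ZS i C)) ^ 2 - 2 * I2.be 6 (st i C).card (ZS i C) =
      QQ i C + 2 * (N1f i C).card + 2 * (N5f i C).card := by
  have hir : i ≤ r := by have := Q.hi2; omega
  rw [Q.be6 hb, ← sq_QQ Q.H hir, h3]
  ring

end Pool.Agent.GaussPoset.Win.SO

end

/-! From `Pool.Agent.W_448so_h17.AsF` -/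

section

/-!
S9, row 476, ASSEMBLY at energy five (`PS5`): the window sums of a part with closed pairs or flip.
-/

namespace Pool.Agent.GaussPoset.Win.SO

set_option linter.unusedSectionVars false

open Finset

universe u

section abstract

variable {P : Type u} [Fintype P] [DecidableEq P]
variable {c c' : P → Finset P} {t t' : P → ℕ} {V Sd Sd' : Finset P} {psi : P → P} {e : P → ℕ}
variable {w x x' s w' y y' s' z p : P}

/-- closed pair, the explicit labels -/
def CloF (c : P → Finset P) (t : P → ℕ) (Sd : Finset P) (e : P → ℕ) : Prop :=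
  ∃ w w' x x' s, TD c t Sd w x x' s ∧ TD c t Sd w' x x' s ∧ w ≠ w' ∧
    ((∀ y, e y = if y = w then 2 else if y = w' ∨ y = x ∨ y = x' then 1 else 0) ∨
      On e {w, w', x, x', s})

/-- flip, the explicit labels -/
def FlpF (c c' : P → Finset P) (t t' : P → ℕ) (Sd Sd' : Finset P) (e : P → ℕ) : Prop :=
  ∃ p y p' u s, Pen c t Sd p y ∧ Pen c' t' Sd' p' u ∧ c y ∩ c' u = {s} ∧ On e {p, y, s, u, p'}

/-- properties of the explicit configurations of energy five -/
structure Ex5 (c c' : P → Finset P) (t t' : P → ℕ) (Sd Sd' : Finset P) (e : P → ℕ) : Prop where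
  E : 5 ≤ ∑ x, e x
  f : ∀ x ∈ Sd, t x = 1 → 0 < e x → ∃ z ∈ c' x, 0 < e z
  g : ∀ x ∈ Sd', t' x = 1 → 0 < e x → ∃ z ∈ c x, 0 < e z

lemma Ex5.symm (h : Ex5 c c' t t' Sd Sd' e) : Ex5 c' c t' t Sd' Sd e := ⟨h.E, h.g, h.f⟩

theorem TPp.ex (W : Two c c' t t' V Sd Sd' psi) (h : TPp c t Sd e) :
    Ex5 c c' t t' Sd Sd' e ∧ (∀ v ∈ V, e v = 0) ∧ ∀ x, e x ≤ 1 := by
  obtain ⟨w, x, x', s, p, y, T, T', hd, on⟩ := h
  obtain ⟨m1, t1, m2, t2, d1, d2, -⟩ := T.facts W.s1
  obtain ⟨n1, u1, f1⟩ := T'.facts W.s1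
  have tw := T.tw
  have tp := T'.tp
  have k := ne_disj (y := y) hd T.sx T.sx' (Subset.refl _)
  have hne : ∀ a b : P, t a ≠ t b → a ≠ b := fun a b h h' => h (congrArg t h')
  have hwp : w ≠ p := by
    rintro rfl
    have h1 : x ∈ c w := by rw [T.cw]; exact mem_insert_self _ _
    rw [T'.cp, mem_singleton] at h1
    exact k.1 h1
  have hS : ∀ a, 0 < e a → a ∈ Sd := by
    intro a ha
    have := on.mem ha
    simp only [mem_insert, mem_singleton] at this
    rcases this with rfl | rfl | rfl | rfl | rfl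
    exacts [T.m, m1, m2, T'.m, n1]
  refine ⟨⟨?_, ?_, ?_⟩, ?_, on.le⟩
  · refine five_of (a := w) (b := x) (d := x') (f := p) (g := y) ?_
      (hne _ _ (by omega)) (hne _ _ (by omega)) T.ne (hne _ _ (by omega)) ?_
    · rw [disjoint_left]
      intro a ha hb
      simp only [mem_insert, mem_singleton] at ha hb
      rcases ha with rfl | rfl | rfl <;> rcases hb with hb | hb
      · exact hwp hb
      · exact hne _ _ (by omega) hb
      · exact hne _ _ (by omega) hb
      · exact k.1 hb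
      · exact hne _ _ (by omega) hb
      · exact k.2 hb
    · refine ⟨?_, ?_, ?_, ?_, ?_⟩ <;> exact on.pos (by simp)
  · intro a _ ta ha
    have := on.mem ha
    simp only [mem_insert, mem_singleton] at this
    rcases this with rfl | rfl | rfl | rfl | rfl
    · omega
    · exact ⟨w, d1, on.pos (by simp)⟩
    · exact ⟨w, d2, on.pos (by simp)⟩
    · omega
    · exact ⟨p, f1, on.pos (by simp)⟩
  · intro a ha _ h
    exact absurd ha (disjoint_left.1 W.d3 (hS a h))
  · intro v hv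
    by_contra h
    exact (disjoint_left.1 W.d1 (hS v (by omega))) hv

theorem TQp.ex (W : Two c c' t t' V Sd Sd' psi) (h : TQp c c' t t' Sd Sd' e) :
    Ex5 c c' t t' Sd Sd' e ∧ (∀ v ∈ V, e v = 0) ∧ ∀ x, e x ≤ 1 := by
  obtain ⟨w, x, x', s, p, y, T, T', hd, on⟩ := h
  obtain ⟨m1, t1, m2, t2, d1, d2, -⟩ := T.facts W.s1
  obtain ⟨n1, u1, f1⟩ := T'.facts W.s2
  have tw := T.tw
  have tp := T'.tp
  have hne : ∀ a b : P, t a ≠ t b → a ≠ b := fun a b h h' => h (congrArg t h')
  have hne' : ∀ a b : P, t' a ≠ t' b → a ≠ b := fun a b h h' => h (congrArg t' h')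
  have hside : ∀ a ∈ Sd, 0 < e a → a = w ∨ a = x ∨ a = x' := by
    intro a ha h
    have := on.mem h
    simp only [mem_insert, mem_singleton] at this
    rcases this with h | h | h | rfl | rfl
    · exact Or.inl h
    · exact Or.inr (Or.inl h)
    · exact Or.inr (Or.inr h)
    · exact absurd T'.m (disjoint_left.1 W.d3 ha)
    · exact absurd n1 (disjoint_left.1 W.d3 ha)
  have hside' : ∀ a ∈ Sd', 0 < e a → a = p ∨ a = y := by
    intro a ha h
    have := on.mem h
    simp only [mem_insert, mem_singleton] at this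
    rcases this with rfl | rfl | rfl | h | h
    · exact absurd ha (disjoint_left.1 W.d3 T.m)
    · exact absurd ha (disjoint_left.1 W.d3 m1)
    · exact absurd ha (disjoint_left.1 W.d3 m2)
    · exact Or.inl h
    · exact Or.inr h
  refine ⟨⟨?_, ?_, ?_⟩, ?_, on.le⟩
  · refine five_of (a := w) (b := x) (d := x') (f := p) (g := y) ?_
      (hne _ _ (by omega)) (hne _ _ (by omega)) T.ne (hne' _ _ (by omega)) ?_
    · refine Disjoint.mono ?_ ?_ W.d3
      · intro a ha
        simp only [mem_insert, mem_singleton] at ha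
        rcases ha with rfl | rfl | rfl
        exacts [T.m, m1, m2]
      · intro a ha
        simp only [mem_insert, mem_singleton] at ha
        rcases ha with rfl | rfl
        exacts [T'.m, n1]
    · refine ⟨?_, ?_, ?_, ?_, ?_⟩ <;> exact on.pos (by simp)
  · intro a ha ta h
    rcases hside a ha h with rfl | rfl | rfl
    · omega
    · exact ⟨w, d1, on.pos (by simp)⟩
    · exact ⟨w, d2, on.pos (by simp)⟩
  · intro a ha ta h
    rcases hside' a ha h with rfl | rfl
    · omega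
    · exact ⟨p, f1, on.pos (by simp)⟩
  · intro v hv
    by_contra h
    have := on.mem (show 0 < e v by omega)
    simp only [mem_insert, mem_singleton] at this
    rcases this with rfl | rfl | rfl | rfl | rfl
    · exact (disjoint_left.1 W.d1 T.m) hv
    · exact (disjoint_left.1 W.d1 m1) hv
    · exact (disjoint_left.1 W.d1 m2) hv
    · exact (disjoint_left.1 W.d2 T'.m) hv
    · exact (disjoint_left.1 W.d2 n1) hv

theorem LO5.ex (W : Two c c' t t' V Sd Sd' psi) (h : LO5 c c' t t' Sd Sd' e) :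
    Ex5 c c' t t' Sd Sd' e ∧ (∀ v ∈ V, e v = 0) ∧ ∀ x, e x ≤ 1 := by
  rcases h with h | h | h | h
  · exact h.ex W
  · obtain ⟨h1, h2, h3⟩ := TPp.ex W.symm h
    exact ⟨h1.symm, h2, h3⟩
  · exact h.ex W
  · obtain ⟨h1, h2, h3⟩ := TQp.ex W.symm h
    exact ⟨h1.symm, h2, h3⟩

theorem CloF.ex (W : Two c c' t t' V Sd Sd' psi) (h : CloF c t Sd e) :
    Ex5 c c' t t' Sd Sd' e ∧ Clo c t Sd e := by
  obtain ⟨w, w', x, x', s, T, T', hww, he⟩ := h
  obtain ⟨m1, t1, m2, t2, d1, d2, sV⟩ := T.facts W.s1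
  obtain ⟨-, -, -, -, d1', d2', -⟩ := T'.facts W.s1
  have tw := T.tw
  have tw' := T'.tw
  have ts := W.s1.tV s sV
  have hne : ∀ a b : P, t a ≠ t b → a ≠ b := fun a b h h' => h (congrArg t h')
  have n1 : x ≠ w := hne _ _ (by omega)
  have n2 : x' ≠ w := hne _ _ (by omega)
  have n3 : w' ≠ x := hne _ _ (by omega)
  have n4 : w' ≠ x' := hne _ _ (by omega)
  have n5 : w ≠ s := hne _ _ (by omega)
  have n6 : w' ≠ s := hne _ _ (by omega)
  have n7 : x ≠ s := hne _ _ (by omega)
  have n8 : x' ≠ s := hne _ _ (by omega)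
  have key : 1 ≤ e w ∧ 1 ≤ e w' ∧ 5 ≤ ∑ x, e x ∧
      ∀ a, 0 < e a → a = w ∨ a = w' ∨ a = x ∨ a = x' ∨ a = s := by
    rcases he with he | on
    · have e1 : e w = 2 := by rw [he w, if_pos rfl]
      have e2 : e w' = 1 := by rw [he w', if_neg hww.symm, if_pos (Or.inl rfl)]
      have e3 : e x = 1 := by rw [he x, if_neg n1, if_pos (Or.inr (Or.inl rfl))]
      have e4 : e x' = 1 := by rw [he x', if_neg n2, if_pos (Or.inr (Or.inr rfl))]
      have e5 := four_le (e := e) hww n1.symm n2.symm n3 n4 T.ne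
      refine ⟨by omega, by omega, by omega, ?_⟩
      intro a ha
      rw [he a] at ha
      split_ifs at ha with h1 h2
      · tauto
      · tauto
      · omega
    · refine ⟨on.pos (by simp), on.pos (by simp), ?_, ?_⟩
      · refine five_of (a := w) (b := x) (d := x') (f := w') (g := s) ?_ n1.symm n2.symm T.ne
          n6 ?_
        · rw [disjoint_left]
          intro a ha hb
          simp only [mem_insert, mem_singleton] at ha hb
          rcases ha with rfl | rfl | rfl <;> rcases hb with hb | hb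
          · exact hww hb
          · exact n5 hb
          · exact n3 hb.symm
          · exact n7 hb
          · exact n4 hb.symm
          · exact n8 hb
        · refine ⟨?_, ?_, ?_, ?_, ?_⟩ <;> exact on.pos (by simp)
      · intro a ha
        have := on.mem ha
        simp only [mem_insert, mem_singleton] at this
        exact this
  obtain ⟨k1, k2, k3, k4⟩ := key
  refine ⟨⟨k3, ?_, ?_⟩, w, w', x, x', T.m, T'.m, tw, tw', hww, T.ne, T.cw, T'.cw, T.cx, T.cx',
    k1, k2⟩
  · intro a _ ta ha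
    rcases k4 a ha with rfl | rfl | rfl | rfl | rfl
    · omega
    · omega
    · exact ⟨w, d1, k1⟩
    · exact ⟨w, d2, k1⟩
    · omega
  · intro a ha ta h
    exfalso
    rcases k4 a h with rfl | rfl | rfl | rfl | rfl
    · exact absurd ha (disjoint_left.1 W.d3 T.m)
    · exact absurd ha (disjoint_left.1 W.d3 T'.m)
    · exact absurd ha (disjoint_left.1 W.d3 m1)
    · exact absurd ha (disjoint_left.1 W.d3 m2)
    · exact absurd sV (disjoint_left.1 W.d2 ha)

theorem FlpF.ex (W : Two c c' t t' V Sd Sd' psi) (h : FlpF c c' t t' Sd Sd' e) :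
    Ex5 c c' t t' Sd Sd' e ∧
      (∀ x ∈ Sd, ∀ x' ∈ Sd, t x = 1 → t x' = 1 → 0 < e x → 0 < e x' → x = x') ∧
      (∀ x ∈ Sd', ∀ x' ∈ Sd', t' x = 1 → t' x' = 1 → 0 < e x → 0 < e x' → x = x') := by
  obtain ⟨p, y, p', u, s, T, T', hs, on⟩ := h
  obtain ⟨n1, u1, f1⟩ := T.facts W.s1
  obtain ⟨n1', u1', f1'⟩ := T'.facts W.s2
  have tp := T.tp
  have tp' := T'.tp
  have hsy : s ∈ c y ∩ c' u := by rw [hs]; exact mem_singleton_self _
  rw [mem_inter] at hsy
  have sV : s ∈ V := by
    obtain ⟨a1, a2⟩ := W.s1.cin y n1 s hsy.1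
    rcases a1 with h | h
    · have := W.s1.tS s h
      omega
    · exact h
  have ts := W.s1.tV s sV
  have ts' := W.s2.tV s sV
  have hne : ∀ a b : P, t a ≠ t b → a ≠ b := fun a b h h' => h (congrArg t h')
  have hne' : ∀ a b : P, t' a ≠ t' b → a ≠ b := fun a b h h' => h (congrArg t' h')
  have hside : ∀ a ∈ Sd, 0 < e a → a = p ∨ a = y := by
    intro a ha h
    have := on.mem h
    simp only [mem_insert, mem_singleton] at this
    rcases this with h | h | rfl | rfl | rfl
    · exact Or.inl h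
    · exact Or.inr h
    · exact absurd sV (disjoint_left.1 W.d1 ha)
    · exact absurd n1' (disjoint_left.1 W.d3 ha)
    · exact absurd T'.m (disjoint_left.1 W.d3 ha)
  have hside' : ∀ a ∈ Sd', 0 < e a → a = p' ∨ a = u := by
    intro a ha h
    have := on.mem h
    simp only [mem_insert, mem_singleton] at this
    rcases this with rfl | rfl | rfl | h | h
    · exact absurd ha (disjoint_left.1 W.d3 T.m)
    · exact absurd ha (disjoint_left.1 W.d3 n1)
    · exact absurd sV (disjoint_left.1 W.d2 ha)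
    · exact Or.inr h
    · exact Or.inl h
  refine ⟨⟨?_, ?_, ?_⟩, ?_, ?_⟩
  · refine five_of (a := p) (b := y) (d := s) (f := u) (g := p') ?_
      (hne _ _ (by omega)) (hne _ _ (by omega)) (hne _ _ (by omega)) (hne' _ _ (by omega)) ?_
    · rw [disjoint_left]
      intro a ha hb
      simp only [mem_insert, mem_singleton] at ha hb
      have h1 : a ∈ Sd' := by
        rcases hb with rfl | rfl
        · exact n1'
        · exact T'.m
      rcases ha with rfl | rfl | rfl
      · exact (disjoint_left.1 W.d3 T.m) h1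
      · exact (disjoint_left.1 W.d3 n1) h1
      · exact (disjoint_left.1 W.d2 h1) sV
    · refine ⟨?_, ?_, ?_, ?_, ?_⟩ <;> exact on.pos (by simp)
  · intro a ha ta h
    rcases hside a ha h with rfl | rfl
    · omega
    · exact ⟨p, f1, on.pos (by simp)⟩
  · intro a ha ta h
    rcases hside' a ha h with rfl | rfl
    · omega
    · exact ⟨p', f1', on.pos (by simp)⟩
  · intro a ha b hb ta tb h h'
    rcases hside a ha h with rfl | rfl <;> rcases hside b hb h' with rfl | rfl
    · rfl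
    · omega
    · omega
    · rfl
  · intro a ha b hb ta tb h h'
    rcases hside' a ha h with rfl | rfl <;> rcases hside' b hb h' with rfl | rfl
    · rfl
    · omega
    · omega
    · rfl

end abstract

section concrete

open Pool.Agent.GaussPoset.Win.I2 (lS uS mem_lS mem_uS)
open Pool.Agent.GaussPoset.Win.So (TogL TogU RefL RefU RefD TgP spt_pa asm_N asm_R J ZC_sub be_sum
  ZC_dvd2)

variable {P : Type u} [Fintype P] [PartialOrder P] [DecidableEq P] {r i : ℕ} {psi : P → P}
  {e : P → ℕ} {C : Finset P} {w s w1 s1 y p u p' : P}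

/-- the special classes are invariant under toggles -/
lemma K1.tg (H : Gr P r) (T : TgP i e w s) (h : K1 i (So.tg w s e)) : K1 i e := by
  have ls := T.ls H
  have k1 : ∀ z, lev z ≠ i → (1 ≤ So.tg w s e z ↔ 1 ≤ e z) := fun z hz => by
    have := T.pos (z := z) (by rintro rfl; exact hz ls)
    omega
  rcases h with ⟨a, a', x, x', h1, h2, h3, h4, h5, h6, h7, h8, h9, h10, h11, h12⟩ |
    ⟨p, y, p', u, s', h1, h2, h3, h4, h5⟩
  · have l1 := mem_lS.1 h1
    have l2 := mem_lS.1 h2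
    exact Or.inl ⟨a, a', x, x', h1, h2, h3, h4, h5, h6, h7, h8, h9, h10,
      (k1 a (by omega)).1 h11, (k1 a' (by omega)).1 h12⟩
  · have l1 := mem_lS.1 h1.m
    have l2 := mem_uS.1 h2.m
    exact Or.inr ⟨p, y, p', u, s', h1, h2, (k1 p (by omega)).1 h3, (k1 p' (by omega)).1 h4, h5⟩

lemma PS5.unique (Q : PS5 r i psi C) (hs : Spt C e) (h : ¬ K1 i e) (hE : ∑ x, e x ≤ 6)
    (T : TgP i e w s) (T1 : TgP i e w1 s1) : w1 = w ∧ s1 = s := by
  refine tgp_unique Q.H hE ?_ ?_ T T1
  · intro w w' x x' a1 a2 a3 a4 a5 a6 a7 a8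
    by_contra hne
    have l1 := lev_uc Q.H (x := w) (v := x) (by rw [a3]; exact mem_insert_self _ _)
    have l2 := lev_uc Q.H (x := w') (v := x) (by rw [a4]; exact mem_insert_self _ _)
    exact h (Or.inl ⟨w, w', x, x', (lS_two a1).1, (lS_two (by omega)).1, (lS_two a1).2,
      (lS_two (by omega)).2, hne, a2, a3, a4, a5, a6, a7, a8⟩)
  · intro w w' x x' a1 a2 a3 a4 a5 a6 a7 a8
    exact Q.ncu w (mem_of_spt hs a7) w' (mem_of_spt hs a8) x x' a1 a2 a3 a4 a5 a6

/-- CLASSIFICATION for the cores of a general part, energy at most five -/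
theorem PS5.cls' (Q : PS5 r i psi C) (hs : Spt C e) (hc : IsCore i ∅ psi e)
    (hE : ∑ x, e x ≤ 5) :
    Cheap 1 i e ∨ (K1 i e ∧ (Clx i e ∨ Flx i e)) ∨
      (¬ K1 i e ∧ Cheap 2 i e ∧ ∃ w s, TgP i e w s) ∨
      (AdmL i e ∧ AdmU i e ∧ Disjoint (AL i e) (AU i e) ∧ ¬ K1 i e ∧
        LO5 uc dc (tL (P := P) i) (tU i) (lS P i) (uS P i) e) := by
  classical
  by_cases hA : AdmL i e
  swap
  · exact Or.inl (Or.inl hA)
  by_cases hB : AdmU i e
  swap
  · exact Or.inl (Or.inr (Or.inl hB))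
  by_cases hd : Disjoint (AL i e) (AU i e)
  swap
  · exact Or.inl (Or.inr (Or.inr (Or.inl hd)))
  have hir := Q.hi2
  have hcf := cfg_of Q.H Q.hi2 Q.hM hc hA hB hd
  by_cases hK : K1 i e
  · rcases hK with hK | ⟨p, y, p', u, s, g1, g2, g3, g4, g5⟩
    · rcases clo5 Q.two hcf hE hK with h | h
      · exact Or.inl (cheap_of h)
      · exact Or.inr (Or.inl ⟨Or.inl hK, Or.inl h⟩)
    · have h := flip5 Q.two hcf hE g1 g2 g3 g4 g5
      exact Or.inr (Or.inl ⟨Or.inr ⟨p, y, p', u, s, g1, g2, g3, g4, g5⟩,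
        Or.inr ⟨p, y, p', u, s, g1, g2, g5, h⟩⟩)
  rcases classify Q.two hcf (Q.pdx hs) (Q.pux hs) (by omega) with
    h | h | h | h | h | h | h
  · exact Or.inl (cheap_of h)
  · exact absurd (Or.inl h) hK
  · exact absurd h (Q.noCloU hs)
  · obtain ⟨p, y, p', u, h1, h2, h3, h4, h5⟩ := h
    obtain ⟨g1, g2, g3, g4, g5⟩ := pen_low Q.H h1
    obtain ⟨k1, k2, k3, k4, k5⟩ := pen_up Q.H h2
    rcases Q.fl p (mem_of_spt hs h3) p' (mem_of_spt hs h4) y u g1 k1 g4 k4 with h6 | ⟨s, h6⟩
    · exact absurd h6 h5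
    · exact absurd (Or.inr ⟨p, y, p', u, s, h1, h2, h3, h4, h6⟩) hK
  · right; right; left
    refine ⟨hK, cheap_of h.1, ?_⟩
    rcases h.2 with ⟨w, x, x', s, T⟩ | ⟨w, x, x', s, T⟩
    · obtain ⟨a, b, h1, h2⟩ := togL_of Q.H Q.hM T
      exact ⟨w, s, Or.inl ⟨x, x', a, b, h1, h2⟩⟩
    · obtain ⟨a, b, h1, h2⟩ := togU_of Q.H Q.hM T
      exact ⟨w, s, Or.inr ⟨x, x', a, b, h1, h2⟩⟩
  · right; right; right
    exact ⟨hA, hB, hd, hK, h.2 hE⟩
  · exfalso
    have := (LO6.ex Q.two h).E
    omega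

/-- the remaining class at energy five -/
def D5 (i : ℕ) (psi : P → P) (e : P → ℕ) : Prop :=
  IsCore i ∅ psi e ∧ ¬ Cheap 1 i e ∧ (¬ K1 i e → ∀ w s, ¬ TgP i e w s)

/-- the remaining class at energy five, explicitly -/
theorem D5.cases (Q : PS5 r i psi C) (hs : Spt C e) (hE : ∑ x, e x ≤ 5) (h : D5 i psi e) :
    (K1 i e ∧ (Clx i e ∨ Flx i e)) ∨
      (AdmL i e ∧ AdmU i e ∧ Disjoint (AL i e) (AU i e) ∧ ¬ K1 i e ∧
        LO5 uc dc (tL (P := P) i) (tU i) (lS P i) (uS P i) e) := by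
  obtain ⟨h1, h2, h3⟩ := h
  rcases Q.cls' hs h1 hE with h | h | h | h
  · exact absurd h h2
  · exact Or.inl h
  · obtain ⟨a1, -, w, s, T⟩ := h
    exact absurd T (h3 a1 w s)
  · exact Or.inr h

/-- the explicit configurations have energy five -/
lemma D5.five (Q : PS5 r i psi C) (hs : Spt C e) (h : D5 i psi e) : 5 ≤ ∑ x, e x := by
  by_contra hlt
  rcases h.cases Q hs (by omega) with ⟨-, h | h⟩ | h
  · have := (CloF.ex Q.two (show CloF uc (tL (P := P) i) (lS P i) e from h)).1.E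
    omega
  · have := (FlpF.ex Q.two
      (show FlpF uc dc (tL (P := P) i) (tU i) (lS P i) (uS P i) e from h)).1.E
    omega
  · have := (LO5.ex Q.two h.2.2.2.2).1.E
    omega

open Classical in
theorem PS5.level (Q : PS5 r i psi C) {q : ℕ} (hq : q ≤ 5) (m : ℕ) :
    dd ^ ((st i C).card - 1) ∣
      ∑ e ∈ (C.piAntidiag q).filter (IsCore i ∅ psi), J i psi C m e -
        ∑ e ∈ (C.piAntidiag q).filter (D5 i psi), J i psi C m e := by
  have hsum : ∀ e ∈ C.piAntidiag q, ∑ x, e x = q := fun e he => by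
    rw [I2.mem_pa] at he
    exact he.1
  have h1 := asm_N Q.H Q.hi Q.hi2 Q.hM Q.hC (q := q) m
    (fun _ => True) (fun e => ¬ K1 i e) (D5 i psi)
    (fun _ _ _ _ _ => trivial)
    (fun _ _ _ T h h' => h (K1.tg Q.H T h'))
    (fun e he _ _ hn w s w1 s1 T T1 =>
      Q.unique (spt_pa he) hn (by rw [hsum e he]; omega) T T1)
    (fun e he hc _ hn w s T => by
      rcases Q.cls' (spt_pa he) hc (by rw [hsum e he]; exact hq) with h | h | h | h
      · exact Cheap.mono (by omega) h
      · exact absurd h.1 hn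
      · exact h.2.1
      · obtain ⟨h1, h2, h3⟩ := LO5.ex Q.two h.2.2.2.2
        exact absurd T (no_tgp Q.H h2 (Fin1.on h3 h1.f) (Fin1.on h3 h1.g)))
    (fun e he hc _ ht hL => by
      by_contra hch
      exact hL ⟨hc, hch, ht⟩)
    (fun e he hL => ⟨hL.1, trivial, hL.2.2⟩)
  simp only [and_true] at h1
  exact h1

open Classical in
/-- ASSEMBLY (A5) -/
theorem PS5.main (Q : PS5 r i psi C) {n : ℕ} (hn : n ≤ 5) :
    dd ^ ((st i C).card - 1) ∣ ZC i C n -
      ∑ e ∈ (C.piAntidiag n).filter (D5 i psi), tC i C e := by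
  have hi2 := Q.hi2
  refine ZC_sub (psi := psi) Q.H (by omega) Q.hC.pred _ ?_ ?_
  · intro q hq e he hL
    have h1 := hL.five Q (spt_pa he)
    rw [I2.mem_pa] at he
    omega
  · intro q hq
    exact Q.level (by omega) _

/-- energies up to four -/
theorem PS5.le_four (Q : PS5 r i psi C) {n : ℕ} (hn : n ≤ 4) :
    dd ^ ((st i C).card - 1) ∣ ZC i C n := by
  classical
  have h := Q.main (n := n) (by omega)
  rw [Finset.filter_eq_empty_iff.2, Finset.sum_empty, sub_zero] at h
  · exact h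
  · intro e he hL
    have h1 := hL.five Q (spt_pa he)
    rw [I2.mem_pa] at he
    omega

open Classical in
theorem PS5.be_five (Q : PS5 r i psi C) (hb : 1 ≤ (st i C).card) :
    I2.be 5 (st i C).card (ZS i C) =
      ∑ e ∈ (C.piAntidiag 5).filter (D5 i psi),
        PowerSeries.coeff (st i C).card (dd ^ 2 * tC i C e : A) :=
  be_sum _ hb (Q.main le_rfl)

theorem PS5.dvd_five (Q : PS5 r i psi C)
    (h2 : ∀ e ∈ C.piAntidiag 5, D5 i psi e → dd ^ ((st i C).card - 2) ∣ tC i C e) :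
    dd ^ ((st i C).card - 2) ∣ ZC i C 5 := by
  classical
  exact ZC_dvd2 _ (Q.main le_rfl) h2

/-! ### the negative form at energy six -/

end concrete

end Pool.Agent.GaussPoset.Win.SO

end
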