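import Mathlib
import Pool.Agent.W_448zz_h61.Ns
import Pool.Agent.W_448zz_h61.M112
import Pool.Agent.W_448zz_h61.M113

/-! From `Pool.Agent.W_448so_h64.SoV` -/

/-!
SECOND ORDER THEOREM (MP_448cb3_co, proofs row 476): the value of (5,2).
-/

namespace Pool.Agent.GaussPoset.Win.SO

set_option linter.unusedSectionVars false

open Finset
open Pool.Agent.GaussPoset.Win.I2 (lS uS mem_lS mem_uS)

universe u

variable {P : Type u} [Fintype P] [PartialOrder P] [DecidableEq P] {r i : ℕ} {psi : P → P}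
  {e : P → ℕ} {C : Finset P}

/-- elements of a cone below the window at distance two -/
lemma con_lev (H : Gr P r) {z y : P} (hz : lev z ≠ i) (hy : y ∈ con i z)
    (hl : lev y = lev z) : y = z := by
  rcases Nat.lt_or_gt_of_ne hz with h | h
  · obtain ⟨h1, h2⟩ := con_upp H h hy
    by_contra hne
    have := lev_strict H (lt_of_le_of_ne h2 hne)
    omega
  · obtain ⟨h1, h2⟩ := con_low H h hy
    by_contra hne
    have := lev_strict H (lt_of_le_of_ne h2 (Ne.symm hne))
    omega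

/-- values of closed pairs -/
theorem cA_value (Q : PSO r i psi C) {q : P × P} (hq : q ∈ O5 i C) :
    ∑ x, cA i q x = 5 ∧
    PowerSeries.coeff (st i C).card (dd ^ 2 * tC i C (cA i q) : A) = -1 := by
  obtain ⟨x, x', s, T, T', hne, h1, h2, h3, -⟩ := O5_data Q hq
  obtain ⟨-, -, -, g1, -, g2⟩ := clo_coeff Q.H Q.hi Q.hi2 Q.hC (cA_spt Q hq) T T' hne
    (fun y => cA_lab Q T h2 h3 y)
  exact ⟨g1, g2⟩

theorem cB_value (Q : PSO r i psi C) {q : P × P} (hq : q ∈ O5 i C) :
    ∑ x, cB i q x = 5 ∧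
    PowerSeries.coeff (st i C).card (dd ^ 2 * tC i C (cB i q) : A) = 1 := by
  obtain ⟨x, x', s, T, T', hne, h1, h2, h3, -⟩ := O5_data Q hq
  obtain ⟨-, -, -, g1, -, g2⟩ := clo_coeff' Q.H Q.hi Q.hi2 Q.hC (cB_spt Q hq) T T' hne
    (cB_lab h2 h3 h1)
  exact ⟨g1, g2⟩

theorem cF_value (Q : PSO r i psi C) {q : P × P} (hq : q ∈ F5 i C) :
    ∑ x, cF i q x = 5 ∧
    PowerSeries.coeff (st i C).card (dd ^ 2 * tC i C (cF i q) : A) = -1 := by
  obtain ⟨y, u, s, T, T', h1, h2, h3, h4, -⟩ := F5_data Q.H hq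
  obtain ⟨-, -, -, g1, -, g2⟩ := flp_coeff Q.H Q.hi Q.hi2 Q.hC (cF_spt Q hq) T T' h1
    (cF_lab h3 h4 h2)
  exact ⟨g1, g2⟩

lemma not_cheap (Q : PSO r i psi C) (hb : 1 ≤ (st i C).card) (hs : Spt C e)
    (h : PowerSeries.coeff (st i C).card (dd ^ 2 * tC i C e : A) ≠ 0) : ¬ Cheap 1 i e :=
  fun h1 => h (cheap_coeff Q.H Q.hC hs h1 hb)

/-- membership in the remaining class -/
theorem c5_D5 (Q : PS5 r i psi C) (hb : 1 ≤ (st i C).card) {q : P × P} (hq : q ∈ I5 i C) :
    D5 i psi (c5 i q) := by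
  obtain ⟨h1, h2, h3⟩ := LO5.ex Q.two (c5_LO5 Q.toPSO hq)
  refine ⟨core_of_f1 Q.H h1.f h1.g,
    not_cheap Q.toPSO hb (c5_spt Q.H Q.hC hq) ?_, fun _ w s =>
      no_tgp Q.H h2 (Fin1.on h3 h1.f) (Fin1.on h3 h1.g)⟩
  rw [(I5_value Q.H Q.hi Q.hi2 Q.hC hq).2]
  have h4 : chg i C q.1 ≠ 0 := by unfold chg; split_ifs <;> norm_num
  have h5 : vp i q.2 ≠ 0 := by unfold vp; split_ifs <;> norm_num
  exact mul_ne_zero h4 h5

theorem cA_D5 (Q : PS5 r i psi C) (hb : 1 ≤ (st i C).card) {q : P × P} (hq : q ∈ O5 i C) :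
    D5 i psi (cA i q) := by
  obtain ⟨x, x', s, T, T', hne, h1, h2, h3, -⟩ := O5_data Q.toPSO hq
  obtain ⟨h4, h5⟩ := CloF.ex Q.two (e := cA i q)
    ⟨q.1, q.2, x, x', s, T, T', hne, Or.inl (fun y => cA_lab Q.toPSO T h2 h3 y)⟩
  refine ⟨core_of_f1 Q.H h4.f h4.g, not_cheap Q.toPSO hb (cA_spt Q.toPSO hq) ?_,
    fun h => absurd (Or.inl h5) h⟩
  rw [(cA_value Q.toPSO hq).2]
  norm_num

theorem cB_D5 (Q : PS5 r i psi C) (hb : 1 ≤ (st i C).card) {q : P × P} (hq : q ∈ O5 i C) :
    D5 i psi (cB i q) := by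
  obtain ⟨x, x', s, T, T', hne, h1, h2, h3, -⟩ := O5_data Q.toPSO hq
  obtain ⟨h4, h5⟩ := CloF.ex Q.two (e := cB i q)
    ⟨q.1, q.2, x, x', s, T, T', hne, Or.inr (cB_lab h2 h3 h1)⟩
  refine ⟨core_of_f1 Q.H h4.f h4.g, not_cheap Q.toPSO hb (cB_spt Q.toPSO hq) ?_,
    fun h => absurd (Or.inl h5) h⟩
  rw [(cB_value Q.toPSO hq).2]
  norm_num

theorem cF_D5 (Q : PS5 r i psi C) (hb : 1 ≤ (st i C).card) {q : P × P} (hq : q ∈ F5 i C) :
    D5 i psi (cF i q) := by
  obtain ⟨y, u, s, T, T', h1, h2, h3, h4, -⟩ := F5_data Q.H hq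
  have ho := cF_lab h3 h4 h2
  obtain ⟨h5, -, -⟩ := FlpF.ex Q.two (e := cF i q) ⟨q.1, y, q.2, u, s, T, T', h1, ho⟩
  refine ⟨core_of_f1 Q.H h5.f h5.g, not_cheap Q.toPSO hb (cF_spt Q.toPSO hq) ?_,
    fun h => absurd (Or.inr ⟨q.1, y, q.2, u, s, T, T', ho.pos (by simp), ho.pos (by simp), h1⟩) h⟩
  rw [(cF_value Q.toPSO hq).2]
  norm_num

/-- THE REMAINING CLASS as a union of images -/
theorem D5_eq (Q : PS5 r i psi C) (hb : 1 ≤ (st i C).card) [DecidablePred (D5 i psi)] :
    (C.piAntidiag 5).filter (D5 i psi) =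
      (I5 i C).image (c5 i) ∪ ((O5 i C).image (cA i) ∪
        ((O5 i C).image (cB i) ∪ (F5 i C).image (cF i))) := by
  classical
  ext e
  simp only [mem_filter, mem_union, mem_image, mem_piA]
  constructor
  · rintro ⟨⟨g1, g2⟩, g3⟩
    rcases g3.cases Q g2 g1.le with ⟨-, h | h⟩ | h
    · rcases Clx_index Q.toPSO g2 h with h | h
      · exact Or.inr (Or.inl h)
      · exact Or.inr (Or.inr (Or.inl h))
    · exact Or.inr (Or.inr (Or.inr (Flx_index Q.toPSO g2 h)))
    · exact Or.inl (LO5_index Q.toPSO g2 h.2.2.2.2)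
  · rintro (⟨q, hq, rfl⟩ | ⟨q, hq, rfl⟩ | ⟨q, hq, rfl⟩ | ⟨q, hq, rfl⟩)
    · exact ⟨⟨(I5_value Q.H Q.hi Q.hi2 Q.hC hq).1, c5_spt Q.H Q.hC hq⟩, c5_D5 Q hb hq⟩
    · exact ⟨⟨(cA_value Q.toPSO hq).1, cA_spt Q.toPSO hq⟩, cA_D5 Q hb hq⟩
    · exact ⟨⟨(cB_value Q.toPSO hq).1, cB_spt Q.toPSO hq⟩, cB_D5 Q hb hq⟩
    · exact ⟨⟨(cF_value Q.toPSO hq).1, cF_spt Q.toPSO hq⟩, cF_D5 Q hb hq⟩

/-! ### injectivity -/

lemma on_inj {s t : Finset P} (h : on s = on t) : s = t := by
  ext y
  have := congrFun h y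
  unfold on at this
  by_cases h1 : y ∈ s
  · rw [if_pos h1] at this
    by_cases h2 : y ∈ t
    · simp only [h1, h2]
    · rw [if_neg h2] at this; omega
  · rw [if_neg h1] at this
    by_cases h2 : y ∈ t
    · rw [if_pos h2] at this; omega
    · simp only [h1, h2]

lemma c5_inj (H : Gr P r) (hir : i ≤ r) {q q' : P × P} (hq : q ∈ I5 i C) (hq' : q' ∈ I5 i C)
    (h : c5 i q = c5 i q') : q = q' := by
  have key : ∀ {q : P × P}, q ∈ I5 i C → Mn i (con i q.1 ∪ con i q.2) = {q.1, q.2} := by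
    intro q hq
    obtain ⟨h1, h2, h3⟩ := mem_I5.1 hq
    have N := num_Chs H (Z_Chs h1)
    have N' := num_PN H h2
    have := Mn_biUnion H hir (T := {q.1, q.2}) (by
      intro z hz
      rw [mem_insert, mem_singleton] at hz
      rcases hz with rfl | rfl
      · exact N.ns
      · exact N'.ns) (by
      intro z hz z' hz' hne
      rw [mem_insert, mem_singleton] at hz hz'
      rcases hz with rfl | rfl <;> rcases hz' with rfl | rfl
      · exact absurd rfl hne
      · exact h3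
      · exact h3.symm
      · exact absurd rfl hne)
    rwa [biUnion_insert, singleton_biUnion] at this
  have h1 : ({q.1, q.2} : Finset P) = {q'.1, q'.2} := by
    rw [← key hq, ← key hq']
    congr 1
    exact on_inj h
  have nb3 : ∀ {w : P}, w ∈ ZL i C ∨ w ∈ ZU i C → w ∉ PN i C := by
    rintro w hw hp
    rcases (mem_PN.1 hp).2 with hp | hp
    · have k := lev_PD hp
      rcases hw with hw | hw
      · have := card_uc_of_up H (mem_ZL.1 hw).2.1 (mem_ZL.1 hw).2.2
        omega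
      · have := (mem_ZU.1 hw).2.1
        omega
    · have k := lev_PU hp
      rcases hw with hw | hw
      · have := (mem_ZL.1 hw).2.1
        omega
      · have := card_dc_of_dn H (mem_ZU.1 hw).2.1 (mem_ZU.1 hw).2.2
        omega
  obtain ⟨a1, a2, -⟩ := mem_I5.1 hq
  obtain ⟨b1, b2, -⟩ := mem_I5.1 hq'
  have g1 : q.1 = q'.1 := by
    have : q.1 ∈ ({q'.1, q'.2} : Finset P) := by rw [← h1]; simp
    rw [mem_insert, mem_singleton] at this
    rcases this with h | h
    · exact h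
    · rw [h] at a1
      exact absurd b2 (nb3 a1)
  have g2 : q.2 = q'.2 := by
    have : q.2 ∈ ({q'.1, q'.2} : Finset P) := by rw [← h1]; simp
    rw [mem_insert, mem_singleton] at this
    rcases this with h | h
    · rw [h] at a2
      exact absurd a2 (nb3 b1)
    · exact h
  exact Prod.ext g1 g2

/-- the elements of a closed pair are the elements at distance two of the configuration -/
lemma O5_two (Q : PSO r i psi C) {q : P × P} (hq : q ∈ O5 i C) {y : P} (hl : lev y = i + 2) :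
    y ∈ con i q.1 ∪ con i q.2 ↔ y = q.1 ∨ y = q.2 := by
  have l1 := (mem_ZL.1 (mem_O5.1 hq).1).2.1
  have l2 := (mem_ZL.1 (mem_O5.1 hq).2.1).2.1
  constructor
  · intro h
    rcases mem_union.1 h with h | h
    · exact Or.inl (con_lev Q.H (by omega) h (by omega))
    · exact Or.inr (con_lev Q.H (by omega) h (by omega))
  · rintro (rfl | rfl)
    · exact mem_union_left _ (self_con (by omega))
    · exact mem_union_right _ (self_con (by omega))

lemma cA_two {q : P × P} {y : P} (hy : q.1 ∈ con i q.1) : cA i q y = 2 ↔ y = q.1 := by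
  unfold cA on
  constructor
  · intro h
    by_contra hne
    rw [if_neg (show y ∉ ({q.1} : Finset P) by rw [mem_singleton]; exact hne)] at h
    split_ifs at h <;> omega
  · rintro rfl
    rw [if_pos (mem_union_left _ hy), if_pos (mem_singleton_self _)]

lemma cA_inj (Q : PSO r i psi C) {q q' : P × P} (hq : q ∈ O5 i C) (hq' : q' ∈ O5 i C)
    (h : cA i q = cA i q') : q = q' := by
  obtain ⟨a1, a2, a3, a4⟩ := mem_O5.1 hq
  obtain ⟨b1, b2, b3, b4⟩ := mem_O5.1 hq'
  have l1 := (mem_ZL.1 a1).2.1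
  have l2 := (mem_ZL.1 a2).2.1
  have l1' := (mem_ZL.1 b1).2.1
  have l2' := (mem_ZL.1 b2).2.1
  have s1 : q.1 ∈ con i q.1 := self_con (by omega)
  have s1' : q'.1 ∈ con i q'.1 := self_con (by omega)
  have g1 : q.1 = q'.1 := by
    rw [← cA_two s1', ← h, cA_two s1]
  have g2 : q.2 = q'.2 := by
    have k : 0 < cA i q' q.2 := by
      rw [← h]
      unfold cA on
      rw [if_pos ((O5_two Q hq l2).2 (Or.inr rfl))]
      omega
    have k2 : q.2 ∈ con i q'.1 ∪ con i q'.2 := by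
      by_contra hn
      unfold cA on at k
      rw [if_neg hn, if_neg] at k
      · omega
      · rw [mem_singleton]
        rintro h'
        rw [h'] at hn
        exact hn (mem_union_left _ s1')
    rcases (O5_two Q hq' l2).1 k2 with h' | h'
    · exact absurd (g1.trans h'.symm) a3
    · exact h'
  exact Prod.ext g1 g2

/-- labels of sites and of elements at distance two of the configurations B -/
lemma cB_lev (Q : PSO r i psi C) {q : P × P} (hq : q ∈ O5 i C) {y : P} (hl : lev y = i + 2) :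
    cB i q y = 1 ↔ y = q.1 ∨ y = q.2 := by
  rw [← O5_two Q hq hl]
  unfold cB on
  constructor
  · intro h
    split_ifs at h with h'
    rcases mem_union.1 h' with h' | h'
    · exact h'
    · have := (mem_cs.1 h').1
      omega
  · intro h
    rw [if_pos (mem_union_left _ h)]

lemma swap_O5 {q : P × P} (hq : q ∈ O5 i C) : q.swap ∈ O5 i C := by
  obtain ⟨a1, a2, a3, a4⟩ := mem_O5.1 hq
  exact mem_O5.2 ⟨a2, a1, Ne.symm a3, a4.symm⟩

lemma cB_swap {q : P × P} (hq : q ∈ O5 i C) : cB i q.swap = cB i q := by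
  obtain ⟨a1, a2, a3, a4⟩ := mem_O5.1 hq
  unfold cB
  have : cs i q.swap.1 = cs i q.1 := by
    ext v
    rw [mem_cs, mem_cs]
    show _ ∧ (∀ x ∈ uc q.2, _) ↔ _
    rw [a4]
  rw [this]
  show on (con i q.2 ∪ con i q.1 ∪ _) = _
  rw [union_comm (con i q.2)]

/-- two ordered pairs for every configuration B -/
theorem card_B (Q : PSO r i psi C) : 2 * ((O5 i C).image (cB i)).card = (O5 i C).card := by
  classical
  rw [card_eq_sum_card_image (cB i) (O5 i C)]
  rw [sum_congr rfl (g := fun _ => 2), sum_const, smul_eq_mul, mul_comm]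
  intro e he
  rw [mem_image] at he
  obtain ⟨q, hq, rfl⟩ := he
  have h1 : (O5 i C).filter (fun a => cB i a = cB i q) = {q, q.swap} := by
    ext q'
    rw [mem_filter, mem_insert, mem_singleton]
    constructor
    · rintro ⟨hq', h⟩
      have l1 := (mem_ZL.1 (mem_O5.1 hq').1).2.1
      have l2 := (mem_ZL.1 (mem_O5.1 hq').2.1).2.1
      have hne := (mem_O5.1 hq').2.2.1
      have k1 := (cB_lev Q hq l1).1 (by rw [← h]; exact (cB_lev Q hq' l1).2 (Or.inl rfl))
      have k2 := (cB_lev Q hq l2).1 (by rw [← h]; exact (cB_lev Q hq' l2).2 (Or.inr rfl))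
      rcases k1 with k1 | k1 <;> rcases k2 with k2 | k2
      · exact absurd (k1.trans k2.symm) hne
      · exact Or.inl (Prod.ext k1 k2)
      · exact Or.inr (Prod.ext k1 k2)
      · exact absurd (k1.trans k2.symm) hne
    · rintro (rfl | rfl)
      · exact ⟨hq, rfl⟩
      · exact ⟨swap_O5 hq, cB_swap hq⟩
  rw [h1, card_pair]
  intro h
  have := (mem_O5.1 hq).2.2.1
  apply this
  have := congrArg Prod.fst h
  exact this

lemma cF_lev (H : Gr P r) {q : P × P} (hq : q ∈ F5 i C) {y : P} :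
    (lev y = i + 2 → (cF i q y = 1 ↔ y = q.1)) ∧ (lev y + 2 = i → (cF i q y = 1 ↔ y = q.2)) := by
  obtain ⟨a, u, s, T, T', h1, h2, h3, h4, h5, h6, h7, h8, h9⟩ := F5_data H hq
  have ho := cF_lab h3 h4 h2
  rw [ho y]
  simp only [mem_insert, mem_singleton]
  constructor
  · intro hl
    constructor
    · intro h
      split_ifs at h with h'
      rcases h' with rfl | rfl | rfl | rfl | rfl
      · rfl
      all_goals omega
    · rintro rfl
      simp
  · intro hl
    constructor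
    · intro h
      split_ifs at h with h'
      rcases h' with rfl | rfl | rfl | rfl | rfl
      · omega
      · omega
      · omega
      · omega
      · rfl
    · rintro rfl
      simp

lemma cF_inj (H : Gr P r) {q q' : P × P} (hq : q ∈ F5 i C) (hq' : q' ∈ F5 i C)
    (h : cF i q = cF i q') : q = q' := by
  have l1 := (lev_PD (mem_F5.1 hq).2.1).1
  have l2 := (lev_PU (mem_F5.1 hq).2.2.2.1).1
  have g1 := ((cF_lev H hq' (y := q.1)).1 l1).1 (by rw [← h]; exact ((cF_lev H hq).1 l1).2 rfl)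
  have g2 := ((cF_lev H hq' (y := q.2)).2 l2).1 (by rw [← h]; exact ((cF_lev H hq).2 l2).2 rfl)
  exact Prod.ext g1 g2

/-! ### disjointness -/

lemma c5_site (H : Gr P r) {q : P × P} (hq : q ∈ I5 i C) {v : P} (hv : lev v = i) :
    c5 i q v = 0 := by
  obtain ⟨h1, h2, h3⟩ := mem_I5.1 hq
  have N := num_Chs H (Z_Chs h1)
  have N' := num_PN H h2
  unfold c5 on
  rw [if_neg]
  intro h
  rcases mem_union.1 h with h | h
  · exact (con_cls H N.ns).ns v h hv
  · exact (con_cls H N'.ns).ns v h hv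

lemma on_le (s : Finset P) (y : P) : on s y ≤ 1 := by
  unfold on
  split_ifs <;> omega

lemma dis_1 : Disjoint ((I5 i C).image (c5 i)) ((O5 i C).image (cA i)) := by
  rw [disjoint_left]
  intro e he he'
  rw [mem_image] at he he'
  obtain ⟨q, hq, rfl⟩ := he
  obtain ⟨q', hq', h⟩ := he'
  have l1 := (mem_ZL.1 (mem_O5.1 hq').1).2.1
  have h1 := (cA_two (i := i) (q := q') (y := q'.1) (self_con (by omega))).2 rfl
  rw [h] at h1
  have h2 := on_le (con i q.1 ∪ con i q.2) q'.1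
  unfold c5 at h1
  omega

lemma cB_s (Q : PSO r i psi C) {q : P × P} (hq : q ∈ O5 i C) : ∃ v, lev v = i ∧ cB i q v = 1 := by
  obtain ⟨x, x', s, T, T', hne, h1, h2, h3, h4, h5, h6, h7, h8⟩ := O5_data Q hq
  refine ⟨s, h8, ?_⟩
  unfold cB on
  rw [if_pos]
  rw [h1]
  simp

lemma cF_s (H : Gr P r) {q : P × P} (hq : q ∈ F5 i C) : ∃ v, lev v = i ∧ cF i q v = 1 := by
  obtain ⟨a, u, s, T, T', h1, h2, h3, h4, h5, h6, h7, h8, h9⟩ := F5_data H hq
  refine ⟨s, h9, ?_⟩
  unfold cF on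
  rw [if_pos]
  rw [h2]
  simp

lemma dis_2 (Q : PSO r i psi C) : Disjoint ((I5 i C).image (c5 i)) ((O5 i C).image (cB i)) := by
  rw [disjoint_left]
  intro e he he'
  rw [mem_image] at he he'
  obtain ⟨q, hq, rfl⟩ := he
  obtain ⟨q', hq', h⟩ := he'
  obtain ⟨v, hv, hv2⟩ := cB_s Q hq'
  rw [h, c5_site Q.H hq hv] at hv2
  omega

lemma dis_3 (H : Gr P r) : Disjoint ((I5 i C).image (c5 i)) ((F5 i C).image (cF i)) := by
  rw [disjoint_left]
  intro e he he'
  rw [mem_image] at he he'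
  obtain ⟨q, hq, rfl⟩ := he
  obtain ⟨q', hq', h⟩ := he'
  obtain ⟨v, hv, hv2⟩ := cF_s H hq'
  rw [h, c5_site H hq hv] at hv2
  omega

lemma dis_4 : Disjoint ((O5 i C).image (cA i)) ((O5 i C).image (cB i)) := by
  rw [disjoint_left]
  intro e he he'
  rw [mem_image] at he he'
  obtain ⟨q, hq, rfl⟩ := he
  obtain ⟨q', hq', h⟩ := he'
  have l1 := (mem_ZL.1 (mem_O5.1 hq).1).2.1
  have h1 := (cA_two (i := i) (q := q) (y := q.1) (self_con (by omega))).2 rfl
  rw [← h] at h1
  have h2 := on_le (con i q'.1 ∪ con i q'.2 ∪ cs i q'.1) q.1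
  unfold cB at h1
  omega

lemma dis_5 : Disjoint ((O5 i C).image (cA i)) ((F5 i C).image (cF i)) := by
  rw [disjoint_left]
  intro e he he'
  rw [mem_image] at he he'
  obtain ⟨q, hq, rfl⟩ := he
  obtain ⟨q', hq', h⟩ := he'
  have l1 := (mem_ZL.1 (mem_O5.1 hq).1).2.1
  have h1 := (cA_two (i := i) (q := q) (y := q.1) (self_con (by omega))).2 rfl
  rw [← h] at h1
  have h2 := on_le (con i q'.1 ∪ con i q'.2 ∪ (sit i q'.1 ∩ sit i q'.2)) q.1
  unfold cF at h1
  omega

lemma dis_6 (Q : PSO r i psi C) : Disjoint ((O5 i C).image (cB i)) ((F5 i C).image (cF i)) := by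
  rw [disjoint_left]
  intro e he he'
  rw [mem_image] at he he'
  obtain ⟨q, hq, rfl⟩ := he
  obtain ⟨q', hq', h⟩ := he'
  obtain ⟨x, x', s, T, T', hne, h1, h2, h3, h4, h5, h6, h7, h8⟩ := O5_data Q hq
  have l2 := (lev_PU (mem_F5.1 hq').2.2.2.1).1
  have h1' := ((cF_lev Q.H hq' (y := q'.2)).2 l2).2 rfl
  rw [h, cB_lab (i := i) h2 h3 h1 q'.2] at h1'
  split_ifs at h1' with h'
  simp only [mem_insert, mem_singleton] at h'
  rcases h' with h' | h' | h' | h' | h' <;> rw [h'] at l2 <;> omega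

/-- the pairs cancel -/
theorem sum_I5 (Q : PT r i psi C) : ∑ q ∈ I5 i C, chg i C q.1 * vp i q.2 = 0 := by
  classical
  have H := Q.H
  by_cases hp : ∃ p ∈ C, p ∈ PD P i
  swap
  · have hI : I5 i C = ∅ := by
      rw [eq_empty_iff_forall_notMem]
      intro q hq
      obtain ⟨h1, h2⟩ := mem_PN.1 (mem_I5.1 hq).2.1
      rcases h2 with h2 | h2
      · exact hp ⟨_, h1, h2⟩
      · exact hp (Q.both.2 ⟨_, h1, h2⟩)
    rw [hI, sum_empty]
  obtain ⟨p', hp'C, hp'⟩ := Q.both.1 hp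
  obtain ⟨p, hpC, hp⟩ := hp
  obtain ⟨y, a1, a2, a3, a4, -⟩ := PD_data H hp
  obtain ⟨u, b1, b2, b3, b4, -⟩ := PU_data H hp'
  have hPN : PN i C = {p, p'} := by
    ext z
    rw [mem_PN, mem_insert, mem_singleton]
    constructor
    · rintro ⟨h1, h2 | h2⟩
      · exact Or.inl (Q.pd z h1 p hpC h2 hp)
      · exact Or.inr (Q.pu z h1 p' hp'C h2 hp')
    · rintro (rfl | rfl)
      · exact ⟨hpC, Or.inl hp⟩
      · exact ⟨hp'C, Or.inr hp'⟩
  have hne : p ≠ p' := by rintro rfl; omega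
  rcases Q.sm p hpC p' hp'C y u hp hp' a1 b1 with h | h
  · -- the same sites
    have hs : sit i p = sit i p' := by
      rw [sit_PD H a2 a1, sit_PU H b2 b1, h]
      have hdb : y ∈ dbL P i := by
        unfold dbL
        rw [mem_filter]
        exact ⟨mem_univ _, a3, a4⟩
      exact (Q.hM.low y hdb (by simp)).2.symm
    unfold I5
    rw [sum_filter, sum_product]
    apply sum_eq_zero
    intro w _
    rw [hPN, sum_pair hne]
    show (if Disjoint (sit i w) (sit i p) then chg i C w * vp i p else 0) +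
      (if Disjoint (sit i w) (sit i p') then chg i C w * vp i p' else 0) = 0
    rw [hs, vp_PD hp, vp_PU hp']
    split_ifs <;> ring
  · -- no room
    have hI : I5 i C = ∅ := by
      rw [eq_empty_iff_forall_notMem]
      intro q hq
      obtain ⟨h1, h2, h3⟩ := mem_I5.1 hq
      have hqC := (num_Chs H (Z_Chs h1)).mC
      have c1 : (sit i q.1).card = 3 := by
        rcases h1 with h1 | h1
        · have := (mem_ZL.1 h1)
          rw [sit_low H (by omega), card_sts, this.2.2]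
        · have := (mem_ZU.1 h1)
          rw [sit_upp H (by omega), card_stD, this.2.2]
      have hpC2 := (mem_PN.1 h2).1
      have h5 : (sit i q.1 ∪ sit i q.2).card ≤ 3 :=
        (card_le_card (union_subset (sit_part H Q.hC hqC) (sit_part H Q.hC hpC2))).trans h
      rw [card_union_of_disjoint h3, c1] at h5
      have h6 : (sit i q.2).Nonempty := sit_ne H (by have := Q.hi2; omega) (num_PN H h2).ns
      have := card_pos.2 h6
      omega
    rw [hI, sum_empty]

/-- THE VALUE OF (5,2): closed pairs and flips -/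
theorem PT.five (Q : PT r i psi C) (hb : 1 ≤ (st i C).card) :
    2 * I2.be 5 (st i C).card (ZS i C) = - ((O5 i C).card : ℤ) - 2 * (F5 i C).card := by
  classical
  have H := Q.H
  have hir : i ≤ r := by have := Q.hi2; omega
  rw [Q.be_five hb, D5_eq Q.toPS5 hb, sum_union, sum_union, sum_union]
  rotate_left
  · exact dis_6 Q.toPSO
  · rw [disjoint_union_right]
    exact ⟨dis_4, dis_5⟩
  · rw [disjoint_union_right, disjoint_union_right]
    exact ⟨dis_1, dis_2 Q.toPSO, dis_3 H⟩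
  have e1 : ∑ e ∈ (I5 i C).image (c5 i),
      PowerSeries.coeff (st i C).card (dd ^ 2 * tC i C e : A) = 0 := by
    rw [sum_image (fun a ha b hb h => c5_inj H hir ha hb h), ← sum_I5 Q]
    exact sum_congr rfl fun q hq => (I5_value H Q.hi Q.hi2 Q.hC hq).2
  have e2 : ∑ e ∈ (O5 i C).image (cA i),
      PowerSeries.coeff (st i C).card (dd ^ 2 * tC i C e : A) = - ((O5 i C).card : ℤ) := by
    rw [sum_image (fun a ha b hb h => cA_inj Q.toPSO ha hb h),
      sum_congr rfl (g := fun _ => (-1 : ℤ)) fun q hq => (cA_value Q.toPSO hq).2, sum_const]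
    simp
  have e3 : ∑ e ∈ (O5 i C).image (cB i),
      PowerSeries.coeff (st i C).card (dd ^ 2 * tC i C e : A) =
        (((O5 i C).image (cB i)).card : ℤ) := by
    rw [sum_congr rfl (g := fun _ => (1 : ℤ)), sum_const]
    · simp
    · intro e he
      rw [mem_image] at he
      obtain ⟨q, hq, rfl⟩ := he
      exact (cB_value Q.toPSO hq).2
  have e4 : ∑ e ∈ (F5 i C).image (cF i),
      PowerSeries.coeff (st i C).card (dd ^ 2 * tC i C e : A) = - ((F5 i C).card : ℤ) := by
    rw [sum_image (fun a ha b hb h => cF_inj H ha hb h),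
      sum_congr rfl (g := fun _ => (-1 : ℤ)) fun q hq => (cF_value Q.toPSO hq).2, sum_const]
    simp
  rw [e1, e2, e3, e4]
  have h2 := card_B (i := i) Q.toPSO
  have h3 : (2 : ℤ) * (((O5 i C).image (cB i)).card : ℤ) = ((O5 i C).card : ℤ) := by
    exact_mod_cast h2
  linarith

end Pool.Agent.GaussPoset.Win.SO
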