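import Mathlib
import Pool.Agent.W_448zz_h61.Ns
import Pool.Agent.W_448zz_h61.M068
import Pool.Agent.W_448zz_h61.M088

/-! From `Pool.Agent.W_448wd_h84.WdR` -/

section

/-!
# MP_448cb3_co, (E,1)(a) for the quadric rows: the value
-/

namespace Pool.Agent.GaussPoset.Wd

set_option linter.unusedSectionVars false

open Finset Win Win.Ev

universe u

variable {P : Type u} [Fintype P] [PartialOrder P] [DecidableEq P] {r a E : ℕ}
variable {C : Finset P} {y : ℕ → P} {s1 s2 : P} {e : P → ℕ}

/-- indicator -/
def indS (S : Finset P) : P → ℕ := fun x => if x ∈ S then 1 else 0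

lemma indS_mem {S : Finset P} {x : P} (h : x ∈ S) : indS S x = 1 := if_pos h

lemma indS_not {S : Finset P} {x : P} (h : x ∉ S) : indS S x = 0 := if_neg h

lemma sum_indS {S C : Finset P} (h : S ⊆ C) : ∑ x ∈ C, indS S x = S.card := by
  unfold indS
  rw [← Finset.sum_filter, Finset.sum_const, smul_eq_mul, mul_one]
  congr 1
  ext x
  rw [mem_filter]
  exact ⟨fun h => h.2, fun h' => ⟨h h', h'⟩⟩

lemma card_le_sum {S C : Finset P} (hS : S ⊆ C) (h1 : ∀ x ∈ S, 0 < e x) :
    S.card ≤ ∑ x ∈ C, e x := by
  calc S.card = ∑ _x ∈ S, 1 := by simp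
    _ ≤ ∑ x ∈ S, e x := Finset.sum_le_sum h1
    _ ≤ ∑ x ∈ C, e x := Finset.sum_le_sum_of_subset hS

lemma eq_indS {S C : Finset P} (hS : S ⊆ C) (he : Spt C e) (h1 : ∀ x ∈ S, 0 < e x)
    (hc : ∑ x ∈ C, e x = S.card) : e = indS S := by
  classical
  funext x
  by_cases hx : x ∈ S
  · rw [indS_mem hx]
    by_contra hne
    have h2 : 2 ≤ e x := by
      have := h1 x hx
      omega
    have h3 := Finset.add_sum_erase S e hx
    have h4 := card_le_sum (e := e) (S := S.erase x) (C := S.erase x) (Subset.refl _)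
      (fun z hz => h1 z (mem_of_mem_erase hz))
    rw [card_erase_of_mem hx] at h4
    have h5 : ∑ x ∈ S, e x ≤ ∑ x ∈ C, e x := Finset.sum_le_sum_of_subset hS
    have h6 : 0 < S.card := card_pos.2 ⟨x, hx⟩
    omega
  · rw [indS_not hx]
    by_contra hne
    have h2 : x ∈ C := by
      by_contra h
      exact hne (he x h)
    have h3 := card_le_sum (e := e) (S := insert x S) (C := C)
      (insert_subset h2 hS) (fun z hz => by
        rcases mem_insert.1 hz with rfl | hz
        · omega
        · exact h1 z hz)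
    rw [card_insert_of_notMem hx] at h3
    omega

lemma up_closed (hC : Part a C) {x z : P} (hx : x ∈ C) (hxz : x ≤ z) : z ∈ C := by
  revert hx
  exact normb_induct (y := z) (C := fun x => x ∈ C → z ∈ C) (fun h => h)
    (fun x w hxw _ ih hx => ih (hC.up hx hxw)) x hxz

/-- the lower chain -/
noncomputable def chL' (a E : ℕ) (y : ℕ → P) : Finset P := (Finset.Ioo a (a + E)).image y

/-- the upper chain -/
noncomputable def chU' (a E : ℕ) (y : ℕ → P) : Finset P := (Finset.Ico (a - E) a).image y

namespace Qd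

variable (Q : Qd r a E C y s1 s2)
include Q

lemma card_img {s : Finset ℕ} (h : ∀ k ∈ s, k < a + E ∧ k ≠ a) : (s.image y).card = s.card := by
  apply card_image_of_injOn
  intro k hk l hl hkl
  have h1 := h k hk
  have h2 := h l hl
  have h3 := Q.yl k h1.1 h1.2
  have h4 := Q.yl l h2.1 h2.2
  rw [← h3, hkl, h4]

lemma mem_chL {x : P} : x ∈ chL' a E y ↔ x ∈ C ∧ a < lev x ∧ lev x < a + E := by
  unfold chL'
  rw [mem_image]
  constructor
  · rintro ⟨k, hk, rfl⟩
    rw [Finset.mem_Ioo] at hk
    rw [Q.yl k hk.2 (by omega)]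
    exact ⟨Q.ym k hk.2 (by omega), hk.1, hk.2⟩
  · rintro ⟨h1, h2, h3⟩
    exact ⟨lev x, Finset.mem_Ioo.2 ⟨h2, h3⟩, Q.uniq x h1 h3 (by omega)⟩

lemma mem_chU (hE : E ≤ a) {x : P} : x ∈ chU' a E y ↔ x ∈ C ∧ a ≤ lev x + E ∧ lev x < a := by
  unfold chU'
  rw [mem_image]
  constructor
  · rintro ⟨k, hk, rfl⟩
    rw [Finset.mem_Ico] at hk
    rw [Q.yl k (by omega) (by omega)]
    exact ⟨Q.ym k (by omega) (by omega), by omega, hk.2⟩
  · rintro ⟨h1, h2, h3⟩
    exact ⟨lev x, Finset.mem_Ico.2 ⟨by omega, h3⟩, Q.uniq x h1 (by omega) (by omega)⟩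

lemma card_chL {z : P} (hl : lev z = a + E) : (insert z (chL' a E y)).card = E := by
  have hE := Q.hE
  rw [card_insert_of_notMem]
  · unfold chL'
    rw [Q.card_img (fun k hk => by rw [Finset.mem_Ioo] at hk; omega), Nat.card_Ioo]
    omega
  · rw [Q.mem_chL]
    rintro ⟨-, -, h⟩
    omega

lemma card_chU (hE : E ≤ a) : (chU' a E y).card = E := by
  unfold chU'
  rw [Q.card_img (fun k hk => by rw [Finset.mem_Ico] at hk; omega), Nat.card_Ico]
  omega

lemma sub_L {z : P} (hz : z ∈ C) : insert z (chL' a E y) ⊆ C := by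
  apply insert_subset hz
  intro x hx
  exact (Q.mem_chL.1 hx).1

lemma sub_U (hE : E ≤ a) : chU' a E y ⊆ C := fun _ hx => ((Q.mem_chU hE).1 hx).1

/-- the configurations outside `S0` -/
theorem far_cases (hA : AdmL a e) (hB : AdmU a e) (he : Spt C e) (hn : ∑ x ∈ C, e x = E) {z : P}
    (hz : z ∈ C) (hz0 : z ∉ S0 a E C) (hez : 0 < e z) :
    (lev z = a + E ∧ e = indS (insert z (chL' a E y))) ∨ (E ≤ a ∧ e = indS (chU' a E y)) := by
  classical
  have hr := Q.hr
  have hE := Q.hE
  have hEa := Q.hEa
  rcases Nat.lt_or_ge (lev z) (a + E) with h1 | h1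
  · right
    have h2 : lev z + E ≤ a := by
      by_contra h
      exact hz0 (mem_S0.2 ⟨hz, by omega, h1⟩)
    have h3 : ∀ d, lev z + d < a → 0 < e (y (lev z + d)) := by
      intro d
      induction d with
      | zero =>
        intro _
        rw [add_zero, Q.uniq z hz h1 (by omega)]
        exact hez
      | succ d ih =>
        intro hd
        have h4 := Q.cov_y (k := lev z + d) (by omega) (by omega) (by omega)
        refine pos_dn Q.H (by omega) hB ?_ (ih (by omega)) h4
        rw [Q.yl _ (by omega) (by omega)]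
        omega
    have h4 : ((Finset.Ico (lev z) a).image y).card = a - lev z := by
      rw [Q.card_img (fun k hk => by rw [Finset.mem_Ico] at hk; omega), Nat.card_Ico]
    have h5 : (Finset.Ico (lev z) a).image y ⊆ C := by
      intro x hx
      rw [mem_image] at hx
      obtain ⟨k, hk, rfl⟩ := hx
      rw [Finset.mem_Ico] at hk
      exact Q.ym k (by omega) (by omega)
    have h6 : ∀ x ∈ (Finset.Ico (lev z) a).image y, 0 < e x := by
      intro x hx
      rw [mem_image] at hx
      obtain ⟨k, hk, rfl⟩ := hx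
      rw [Finset.mem_Ico] at hk
      have := h3 (k - lev z) (by omega)
      rwa [show lev z + (k - lev z) = k by omega] at this
    have h7 := card_le_sum h5 h6
    rw [h4, hn] at h7
    have h8 : lev z = a - E := by omega
    refine ⟨by omega, ?_⟩
    unfold chU'
    rw [← h8]
    exact eq_indS h5 he h6 (by rw [hn, h4]; omega)
  · left
    have h3 : ∀ x ∈ insert z (chL' a E y), 0 < e x := by
      intro x hx
      rw [mem_insert] at hx
      rcases hx with rfl | hx
      · exact hez
      · rw [Q.mem_chL] at hx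
        obtain ⟨g1, g2, g3⟩ := hx
        obtain ⟨w, hw, hwl⟩ := exists_above' (x := z) (j := lev x) (by omega)
        have g4 := Q.uniq w (up_closed Q.part hz hw) (by omega) (by omega)
        have g5 := Q.uniq x g1 g3 (by omega)
        rw [hwl, g5] at g4
        rw [g4]
        exact pos_above Q.H hA (by omega) z hw hez
    have h4 : lev z = a + E := by
      by_contra hne
      obtain ⟨w, hw, hwl⟩ := exists_above' (x := z) (j := a + E) h1
      have g1 : 0 < e w := pos_above Q.H hA (by omega) z hw hez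
      have g2 : w ∈ C := up_closed Q.part hz hw
      have g3 : z ∉ insert w (chL' a E y) := by
        rw [mem_insert, Q.mem_chL]
        rintro (rfl | ⟨-, -, h⟩)
        · omega
        · omega
      have g4 := card_le_sum (e := e) (S := insert z (insert w (chL' a E y))) (C := C)
        (insert_subset hz (Q.sub_L g2)) (fun x hx => by
          rcases mem_insert.1 hx with rfl | hx
          · exact hez
          · rcases mem_insert.1 hx with rfl | hx
            · exact g1
            · exact h3 x (mem_insert_of_mem hx))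
      rw [card_insert_of_notMem g3, Q.card_chL hwl, hn] at g4
      omega
    refine ⟨h4, eq_indS (Q.sub_L hz) he h3 ?_⟩
    rw [hn, Q.card_chL h4]

lemma spt_L {z : P} (hz : z ∈ C) : Spt C (indS (insert z (chL' a E y))) :=
  fun _ hx => indS_not (fun h => hx (Q.sub_L hz h))

lemma spt_U (hE : E ≤ a) : Spt C (indS (chU' a E y)) :=
  fun _ hx => indS_not (fun h => hx (Q.sub_U hE h))

/-- value of the lower configurations -/
theorem val_L (hspt : Spt C e) (e1 : ∀ x, x ∈ C → a < lev x → lev x < a + E → e x = 1)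
    (hlow : ∀ x, e x ≠ 0 → a < lev x ∧ lev x ≤ a + E) (ele : ∀ x, e x ≤ 1) :
    PowerSeries.coeff 1 (tC a C e) = 1 := by
  classical
  have hr := Q.hr
  have hE := Q.hE
  have hEa := Q.hEa
  rw [tC_prod Q.H (by omega) Q.part hspt]
  have hy1 := Q.ym (a + 1) (by omega) (by omega)
  have hy2 := Q.yl (a + 1) (by omega) (by omega)
  have hsub : ({s1, s2, y (a + 1)} : Finset P) ⊆ C := by
    intro x hx
    rw [mem_insert, mem_insert, mem_singleton] at hx
    rcases hx with rfl | rfl | rfl
    · exact Q.m1
    · exact Q.m2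
    · exact hy1
  rw [← Finset.prod_subset hsub]
  · have n1 : s1 ≠ y (a + 1) := fun h => by
      have := Q.l1
      rw [h, hy2] at this
      omega
    have n2 : s2 ≠ y (a + 1) := fun h => by
      have := Q.l2
      rw [h, hy2] at this
      omega
    rw [Finset.prod_insert (by
      rw [mem_insert, mem_singleton, not_or]
      exact ⟨Q.ne, n1⟩), Finset.prod_insert (by rw [mem_singleton]; exact n2), Finset.prod_singleton]
    have ws : ∀ s, s ∈ C → lev s = a → wP a e s = xx := by
      intro s hs hsl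
      have h0 : e s = 0 := by
        by_contra h
        have := hlow s h
        omega
      rw [wP_site hsl, if_pos, if_neg]
      · rintro ⟨v, hv, hlt⟩
        have g1 := (Q.H.covBy_iff.1 hv).2
        have := hlow v (by omega)
        omega
      · exact ⟨_, Q.cov_s hs hsl, by rw [h0, e1 _ hy1 (by omega) (by omega)]; exact Nat.one_pos⟩
    have wy : wP a e (y (a + 1)) = dd := by
      rw [wP_low (by omega), if_neg, if_neg]
      · rintro ⟨v, hv, hle⟩
        have g1 := (Q.H.covBy_iff.1 hv).2
        rw [e1 _ hy1 (by omega) (by omega)] at hle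
        have := hlow v (by omega)
        omega
      · rintro ⟨v, hv, hlt⟩
        rw [e1 _ hy1 (by omega) (by omega)] at hlt
        have := ele v
        omega
    rw [ws s1 Q.m1 Q.l1, ws s2 Q.m2 Q.l2, wy, c1_mul, c1_mul, c0_mul, c0_xx, c1_xx, c0_dd, c1_dd]
    norm_num
  · intro x hx hx2
    rw [mem_insert, mem_insert, mem_singleton, not_or, not_or] at hx2
    rcases Nat.lt_trichotomy (lev x) a with h1 | h1 | h1
    · have h0 : e x = 0 := by
        by_contra h
        have := hlow x h
        omega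
      rw [wP_upp h1, if_neg, if_pos]
      · obtain ⟨v, hv⟩ := dc_nonempty Q.H (x := x) (by omega)
        exact ⟨v, mem_dc.1 hv, by rw [h0]; exact Nat.zero_le _⟩
      · rintro ⟨v, hv, hlt⟩
        have g1 := (Q.H.covBy_iff.1 hv).2
        have := hlow v (by omega)
        omega
    · rcases Q.st1 x hx h1 with h | h
      · exact absurd h hx2.1
      · exact absurd h hx2.2.1
    · rw [wP_low h1, if_neg, if_pos]
      · obtain ⟨v, hv⟩ := uc_nonempty Q.H (x := x) (by omega)
        have g0 := mem_uc.1 hv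
        have g1 := (Q.H.covBy_iff.1 g0).2
        refine ⟨v, g0, ?_⟩
        by_cases h2 : e x = 0
        · rw [h2]
          exact Nat.zero_le _
        · have g2 := hlow x h2
          have g3 : lev x ≠ a + 1 := by
            intro h
            have := Q.uniq x hx (by omega) (by omega)
            rw [h] at this
            exact hx2.2.2 this.symm
          rw [e1 v (Q.part.up hx g0) (by omega) (by omega)]
          exact ele x
      · rintro ⟨v, hv, hlt⟩
        have g1 := (Q.H.covBy_iff.1 hv).2
        have g2 := hlow v (by omega)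
        have g3 := e1 x hx h1 (by omega)
        have := ele v
        omega

theorem tC_L {z : P} (hz : z ∈ C) (hl : lev z = a + E) :
    PowerSeries.coeff 1 (tC a C (indS (insert z (chL' a E y)))) = 1 := by
  classical
  have hE := Q.hE
  refine Q.val_L (Q.spt_L hz) ?_ ?_ ?_
  · exact fun x h1 h2 h3 => indS_mem (mem_insert_of_mem (Q.mem_chL.2 ⟨h1, h2, h3⟩))
  · intro x hx
    have h : x ∈ insert z (chL' a E y) := by
      by_contra h
      exact hx (indS_not h)
    rcases mem_insert.1 h with rfl | h'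
    · omega
    · have := Q.mem_chL.1 h'
      omega
  · intro x
    unfold indS
    split_ifs <;> omega

/-- value of the upper configuration -/
theorem val_U (hspt : Spt C e) (hEa' : E ≤ a)
    (e1 : ∀ x, x ∈ C → a ≤ lev x + E → lev x < a → e x = 1)
    (e0 : ∀ x, e x ≠ 0 → a ≤ lev x + E ∧ lev x < a) (ele : ∀ x, e x ≤ 1) :
    PowerSeries.coeff 1 (tC a C e) = -1 := by
  classical
  have hr := Q.hr
  have hE := Q.hE
  rw [tC_prod Q.H (by omega) Q.part hspt]
  have hy1 := Q.ym (a - 1) (by omega) (by omega)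
  have hy2 := Q.yl (a - 1) (by omega) (by omega)
  have hsub : ({y (a - 1)} : Finset P) ⊆ C := by
    intro x hx
    rw [mem_singleton] at hx
    rw [hx]
    exact hy1
  rw [← Finset.prod_subset hsub]
  · rw [Finset.prod_singleton, wP_upp (by omega), if_neg, if_neg]
    · rw [c1_mul, c0_xi, c1_dd, c0_dd]
      norm_num
    · rw [Q.GD_upp1, e1 _ hy1 (by omega) (by omega)]
      rintro (h | h)
      · have := e0 s1 (by omega)
        have := Q.l1
        omega
      · have := e0 s2 (by omega)
        have := Q.l2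
        omega
    · rintro ⟨v, hv, hlt⟩
      rw [e1 _ hy1 (by omega) (by omega)] at hlt
      have := ele v
      omega
  · intro x hx hx2
    rw [mem_singleton] at hx2
    rcases Nat.lt_trichotomy (lev x) a with h1 | h1 | h1
    · rw [wP_upp h1, if_neg, if_pos]
      · obtain ⟨v, hv⟩ := dc_nonempty Q.H (x := x) (by omega)
        have g0 := mem_dc.1 hv
        have g1 := (Q.H.covBy_iff.1 g0).2
        refine ⟨v, g0, ?_⟩
        by_cases h2 : e x = 0
        · rw [h2]
          exact Nat.zero_le _
        · have g2 := e0 x h2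
          have g3 : lev x ≠ a - 1 := by
            intro h
            have := Q.uniq x hx (by omega) (by omega)
            rw [h] at this
            exact hx2 this.symm
          rw [e1 v (Q.part.dn hx h1 g0) (by omega) (by omega)]
          exact ele x
      · rintro ⟨v, hv, hlt⟩
        have g1 := (Q.H.covBy_iff.1 hv).2
        have g2 := e0 v (by omega)
        have g3 := e1 x hx (by omega) h1
        have := ele v
        omega
    · have h0 : e x = 0 := by
        by_contra h
        have := e0 x h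
        omega
      rw [wP_site h1, if_neg, if_pos]
      · rw [Q.FU_s hx h1, h0, e1 _ hy1 (by omega) (by omega)]
        exact Nat.one_pos
      · rintro ⟨v, hv, hlt⟩
        have g1 := (Q.H.covBy_iff.1 hv).2
        have := e0 v (by omega)
        omega
    · have h0 : e x = 0 := by
        by_contra h
        have := e0 x h
        omega
      rw [wP_low h1, if_neg, if_pos]
      · obtain ⟨v, hv⟩ := uc_nonempty Q.H (x := x) (by omega)
        exact ⟨v, mem_uc.1 hv, by rw [h0]; exact Nat.zero_le _⟩
      · rintro ⟨v, hv, hlt⟩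
        have g1 := (Q.H.covBy_iff.1 hv).2
        have := e0 v (by omega)
        omega

theorem tC_U (hEa' : E ≤ a) :
    PowerSeries.coeff 1 (tC a C (indS (chU' a E y))) = -1 := by
  classical
  refine Q.val_U (Q.spt_U hEa') hEa' ?_ ?_ ?_
  · exact fun x h1 h2 h3 => indS_mem ((Q.mem_chU hEa').2 ⟨h1, h2, h3⟩)
  · intro x hx
    have h : x ∈ chU' a E y := by
      by_contra h
      exact hx (indS_not h)
    exact ((Q.mem_chU hEa').1 h).2
  · intro x
    unfold indS
    split_ifs <;> omega

/-- THE VALUE -/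
theorem c1_ZC : PowerSeries.coeff 1 (ZC a C E : A) =
    ((C.filter (fun z => lev z = a + E)).card : ℤ) - (if E ≤ a then 1 else 0) := by
  classical
  have hr := Q.hr
  have hE := Q.hE
  set W := C.filter (fun z => lev z = a + E) with hW
  set f : (P → ℕ) → ℤ := fun e => PowerSeries.coeff 1 (tC a C e) with hf
  unfold ZC
  rw [map_sum]
  change ∑ e ∈ C.piAntidiag E, f e = _
  rw [← Finset.sum_filter_add_sum_filter_not (C.piAntidiag E) (fun e => Spt (S0 a E C) e)]
  have hS : (C.piAntidiag E).filter (fun e => Spt (S0 a E C) e) = (S0 a E C).piAntidiag E := by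
    have hsub : S0 a E C ⊆ C := fun z hz => (mem_S0.1 hz).1
    ext e
    rw [mem_filter, mem_piAntidiag, mem_piAntidiag]
    constructor
    · rintro ⟨⟨h1, h2⟩, h3⟩
      refine ⟨?_, fun x hx => by_contra fun h => hx (h3 x h)⟩
      exact (Finset.sum_subset hsub (fun x _ hx => h3 x hx)).trans h1
    · rintro ⟨h1, h2⟩
      refine ⟨⟨?_, fun x hx => hsub (h2 x hx)⟩, fun x hx => by_contra fun h => hx (h2 x h)⟩
      exact (Finset.sum_subset hsub (fun x _ hx => by_contra fun h => hx (h2 x h))).symm.trans h1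
  rw [hS, Q.sum_S0, zero_add]
  set T1 : Finset (P → ℕ) := W.image (fun z => indS (insert z (chL' a E y))) with hT1
  set T2 : Finset (P → ℕ) := if E ≤ a then {indS (chU' a E y)} else ∅ with hT2
  have hd : Disjoint T1 T2 := by
    rw [Finset.disjoint_left]
    intro e h1 h2
    rw [hT1, mem_image] at h1
    obtain ⟨z, hz, rfl⟩ := h1
    rw [hT2] at h2
    split_ifs at h2 with h3
    · rw [mem_singleton] at h2
      have h4 := congrFun h2 z
      rw [indS_mem (mem_insert_self _ _)] at h4
      have h5 : z ∈ chU' a E y := by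
        by_contra h
        rw [indS_not h] at h4
        omega
      have h6 := (Q.mem_chU h3).1 h5
      rw [hW, mem_filter] at hz
      omega
    · exact absurd h2 (notMem_empty _)
  have hsub : T1 ∪ T2 ⊆ (C.piAntidiag E).filter (fun e => ¬ Spt (S0 a E C) e) := by
    intro e he
    rw [mem_union] at he
    rw [mem_filter, mem_piAntidiag]
    rcases he with he | he
    · rw [hT1, mem_image] at he
      obtain ⟨z, hz, rfl⟩ := he
      rw [hW, mem_filter] at hz
      refine ⟨⟨?_, fun x hx => by_contra fun h => hx (Q.spt_L hz.1 x h)⟩, fun h => ?_⟩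
      · rw [sum_indS (Q.sub_L hz.1), Q.card_chL hz.2]
      · have h1 := h z (fun h => by rw [mem_S0] at h; omega)
        rw [indS_mem (mem_insert_self _ _)] at h1
        omega
    · rw [hT2] at he
      split_ifs at he with h3
      · rw [mem_singleton] at he
        subst he
        refine ⟨⟨?_, fun x hx => by_contra fun h => hx (Q.spt_U h3 x h)⟩, fun h => ?_⟩
        · rw [sum_indS (Q.sub_U h3), Q.card_chU h3]
        · have h0 := Q.yl (a - E) (by omega) (by omega)
          have h1 := h (y (a - E)) (fun h => by rw [mem_S0] at h; omega)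
          rw [indS_mem ((Q.mem_chU h3).2 ⟨Q.ym (a - E) (by omega) (by omega), by omega, by omega⟩)]
            at h1
          omega
      · exact absurd he (notMem_empty _)
  rw [← Finset.sum_subset hsub, Finset.sum_union hd]
  · have g1 : ∑ e ∈ T1, f e = (W.card : ℤ) := by
      rw [hT1, Finset.sum_image]
      · rw [Finset.sum_congr rfl (fun z hz => ?_)]
        · rw [Finset.sum_const, nsmul_eq_mul, mul_one]
        · rw [hW, mem_filter] at hz
          exact Q.tC_L hz.1 hz.2
      · intro z hz z' hz' h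
        have hz := mem_filter.1 hz
        have hz' := mem_filter.1 hz'
        simp only at h
        have h4 := congrFun h z
        rw [indS_mem (mem_insert_self _ _)] at h4
        have h5 : z ∈ insert z' (chL' a E y) := by
          by_contra h
          rw [indS_not h] at h4
          omega
        rcases mem_insert.1 h5 with h6 | h6
        · exact h6
        · have := Q.mem_chL.1 h6
          omega
    have g2 : ∑ e ∈ T2, f e = - (if E ≤ a then 1 else 0) := by
      rw [hT2]
      split_ifs with h3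
      · rw [Finset.sum_singleton]
        exact Q.tC_U h3
      · rw [Finset.sum_empty, neg_zero]
    rw [g1, g2]
    ring
  · intro e he he2
    rw [mem_filter, mem_piAntidiag] at he
    obtain ⟨⟨h1, h2⟩, h3⟩ := he
    by_contra h4
    have h5 : tC a C e ≠ 0 := by
      intro h
      apply h4
      rw [hf]
      simp only
      rw [h, map_zero]
    obtain ⟨hA, hB⟩ := adm_of_tC h5
    have hs : Spt C e := fun x hx => by_contra fun h => hx (h2 x h)
    have h6 : ∃ z, z ∉ S0 a E C ∧ e z ≠ 0 := by
      by_contra h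
      push Not at h
      exact h3 h
    obtain ⟨z, hz, hez⟩ := h6
    apply he2
    rw [mem_union]
    rcases Q.far_cases hA hB hs h1 (h2 z hez) hz (Nat.pos_of_ne_zero hez) with ⟨g1, g2⟩ | ⟨g1, g2⟩
    · left
      rw [hT1, mem_image]
      exact ⟨z, mem_filter.2 ⟨h2 z hez, g1⟩, g2.symm⟩
    · right
      rw [hT2, if_pos g1, mem_singleton]
      exact g2

end Qd

end Pool.Agent.GaussPoset.Wd

end

/-! From `Pool.Agent.W_448ev_h24.JkC` -/

section

/-! Junk lemma and evaluator together: window sums of a component from finitely many rows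
(MP_448cb3_co, G2). -/

set_option autoImplicit false

namespace Pool.Agent.GaussPoset.Win.Ev

set_option linter.unusedSectionVars false

open Finset

universe u

variable {P : Type u} [Fintype P] [PartialOrder P] [DecidableEq P] {r i j : ℕ}
variable {C : Finset P} {t : P} {lo hi : ℕ → ℕ} {x : ℕ → ℕ → P} {base c0 R s : ℕ} {los his : List ℕ}

/-- EVALUATION OF THE WHOLE COMPONENT from the rows `base .. base + R - 1`: the rows reach `ρ` levels
below the window, `n ≤ 2 ρ`, and the sums with positive labels on a set of the last row vanish. -/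
theorem Loc.eval_all (Lc : Loc P r j t lo hi x C i base c0 R s los his) {p : Prog}
    (hok : okP los his R s p = true) (h0 : lb0 p = true) {m n : ℕ} (hm : m ≤ 2) (hn : n < 32)
    (hsR : s + 1 < R) (hnR : n ≤ 2 * (R - 1 - s)) (htop : base = 0 ∨ n ≤ s)
    (hX : okXs los his R s m n = true) :
    PowerSeries.coeff m (ZC i C n : A) = ev m p 0 n 0 0 0 := by
  classical
  have hi' := Lc.hi'
  have hJ : base + R = i + (R - 1 - s) + 1 := by omega
  rw [← Lc.eval_cut hok h0 hm hn htop hJ]
  refine Jk.junk_low Lc.h.H Lc.part (by omega) hnR (fun z hz => (mem_DR.1 hz).1)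
    (fun z hz => (mem_DR.1 hz).2) (fun e _ _ z hz hl _ => mem_DR.2 ⟨hz, hl⟩) ?_
  intro X hXC hXl hXn n' hn'
  have h1 := Lc.zeroX (X := X) hm (by omega) (by omega) hJ hsR hX
    (fun z hz => ⟨hXC hz, hXl z hz⟩) hXn hn'
  rw [← h1]

lemma be_eq {n b : ℕ} (hb : 2 ≤ b) (C : Finset P) :
    I2.be n b (ZS i C) = PowerSeries.coeff (b - 2) (ZC i C n : A) := by
  obtain ⟨b, rfl⟩ := Nat.exists_eq_add_of_le hb
  unfold I2.be
  rw [coeff_ZS]
  unfold dd
  rw [add_comm 2 b, PowerSeries.coeff_X_pow_mul, Nat.add_sub_cancel]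

lemma al_eq {n b : ℕ} (hb : 1 ≤ b) (C : Finset P) :
    I2.al n b (ZS i C) = PowerSeries.coeff (b - 1) (ZC i C n : A) := by
  obtain ⟨b, rfl⟩ := Nat.exists_eq_add_of_le hb
  unfold I2.al
  rw [coeff_ZS]
  unfold dd
  rw [add_comm 1 b, PowerSeries.coeff_succ_X_mul, Nat.add_sub_cancel]

/-- the second order coefficient of a component -/
theorem Loc.be_all (Lc : Loc P r j t lo hi x C i base c0 R s los his) {p : Prog}
    (hok : okP los his R s p = true) (h0 : lb0 p = true) {b n : ℕ} (hb : 2 ≤ b) (hb' : b ≤ 4)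
    (hn : n < 32) (hsR : s + 1 < R) (hnR : n ≤ 2 * (R - 1 - s)) (htop : base = 0 ∨ n ≤ s)
    (hX : okXs los his R s (b - 2) n = true) :
    I2.be n b (ZS i C) = ev (b - 2) p 0 n 0 0 0 := by
  rw [be_eq hb]
  exact Lc.eval_all hok h0 (by omega) hn hsR hnR htop hX

end Pool.Agent.GaussPoset.Win.Ev

end

/-! From `Pool.Agent.W_448ev_h61.EvI` -/

section

/-! Local data of a window with three sites, three rows below: decidable check. -/

namespace Pool.Agent.GaussPoset.Win.Ev

/-- all the checks for a window (row `s`) with three rows below: program well formed, last row not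
seen up to energy `5`, values at energies `5` and `6` -/
noncomputable def good3 (los his : List ℕ) (s : ℕ) (v5 v6 : ℤ) : Bool :=
  okP los his (s + 4) s (mk los his (s + 4) s) && lb0 (mk los his (s + 4) s) &&
  decide (ev 1 (mk los his (s + 4) s) 0 5 0 0 0 = v5) &&
  decide (ev 1 (mk los his (s + 4) s) 0 6 0 0 0 = v6) &&
  okXs los his (s + 4) s 1 6

end Pool.Agent.GaussPoset.Win.Ev

end

/-! From `Pool.Agent.W_448ev_h61.EvI3` -/

section

/-! Values of local words (kernel evaluation), part 3. -/

namespace Pool.Agent.GaussPoset.Win.Ev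

set_option maxRecDepth 100000

theorem g_l_OC_CO_CO_OO_CC_OC_OC : good3 [0, 0, 0, 0, 1, 2, 2, 3, 3, 3] [0, 0, 1, 1, 2, 3, 4, 4, 4, 4] 6 0 0 = true := by decide +kernel

end Pool.Agent.GaussPoset.Win.Ev

end

/-! From `Pool.Agent.W_448e7_h24.EsB` -/

section

/-!
# MP_448cb3_co, G2: second order coefficients from the evaluator (helper24)
-/

set_option autoImplicit false

namespace Pool.Agent.GaussPoset.Win.Ev

set_option linter.unusedSectionVars false

open Finset

lemma okX_mono {lo hi : List ℕ} {R s m N N' : ℕ} {X : List ℕ} (h : okX lo hi R s m N X = true)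
    (hN : N' ≤ N) : okX lo hi R s m N' X = true := by
  unfold okX at h ⊢
  simp only [Bool.and_eq_true] at h ⊢
  refine ⟨h.1, ?_⟩
  rw [List.all_eq_true]
  intro n hn
  rw [List.mem_range] at hn
  exact List.all_eq_true.1 h.2 n (List.mem_range.2 (by omega))

lemma okXs_mono {lo hi : List ℕ} {R s m N N' : ℕ} (h : okXs lo hi R s m N = true)
    (hN : N' ≤ N) : okXs lo hi R s m N' = true := by
  unfold okXs at h ⊢
  rw [List.all_eq_true] at h ⊢
  intro X hX
  have h1 := h X hX
  rw [Bool.or_eq_true] at h1 ⊢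
  rcases h1 with h1 | h1
  · exact Or.inl h1
  · exact Or.inr (okX_mono h1 hN)

universe u

variable {P : Type u} [Fintype P] [PartialOrder P] [DecidableEq P] {r i j : ℕ}
variable {C : Finset P} {t : P} {lo hi : ℕ → ℕ} {x : ℕ → ℕ → P} {base c0 R s : ℕ} {los his : List ℕ}

/-- second order coefficients of a component with three sites, three rows below the window -/
theorem Loc.be_good3 (Lc : Loc P r j t lo hi x C i base c0 (s + 4) s los his) {v5 v6 : ℤ}
    (hg : good3 los his s v5 v6 = true) (htop : base = 0 ∨ 6 ≤ s) :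
    I2.be 5 3 (ZS i C) = v5 ∧ I2.be 6 3 (ZS i C) = v6 := by
  unfold good3 at hg
  simp only [Bool.and_eq_true] at hg
  obtain ⟨⟨⟨⟨h1, h2⟩, h3⟩, h4⟩, h5⟩ := hg
  constructor
  · rw [Lc.be_all h1 h2 (by omega) (by omega) (by omega) (by omega) (by omega)
      (by rcases htop with h | h; exact Or.inl h; exact Or.inr (by omega)) (okXs_mono h5 (by omega))]
    exact of_decide_eq_true h3
  · rw [Lc.be_all h1 h2 (by omega) (by omega) (by omega) (by omega) (by omega) htop h5]
    exact of_decide_eq_true h4

/-- second order coefficients of a component with three sites, energies `N - 1`, `N` -/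
theorem Loc.be_goodB (Lc : Loc P r j t lo hi x C i base c0 R s los his) {N : ℕ}
    (hg : goodB los his R s N = true) (hsR : s + 1 < R) (hN : N ≤ 2 * (R - 1 - s)) (hN' : N < 32)
    (htop : base = 0 ∨ N ≤ s) :
    I2.be (N - 1) 3 (ZS i C) = 0 ∧ I2.be N 3 (ZS i C) = 0 := by
  unfold goodB at hg
  simp only [Bool.and_eq_true] at hg
  obtain ⟨⟨⟨⟨h1, h2⟩, h3⟩, h4⟩, h5⟩ := hg
  constructor
  · rw [Lc.be_all h1 h2 (by omega) (by omega) (by omega) hsR (by omega)
      (by rcases htop with h | h; exact Or.inl h; exact Or.inr (by omega)) (okXs_mono h5 (by omega))]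
    exact of_decide_eq_true h3
  · rw [Lc.be_all h1 h2 (by omega) (by omega) hN' hsR hN htop h5]
    exact of_decide_eq_true h4

end Pool.Agent.GaussPoset.Win.Ev

end

/-! From `Pool.Agent.W_448nl_h15.NlE` -/

section

/-!
# MP_448cb3_co: the evaluator of helper61 / helper24 for one component

The statements of `EvG`, `EvH`, `JkC`, `EsB` with `GoodTo P r j` replaced by what they use of it: `Gr P r`,
`j ≤ r`, and every upper cover of an element of level `≤ j` of the component is in the component.
-/

namespace Pool.Agent.GaussPoset.Win.Ev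

set_option linter.unusedSectionVars false

open Finset

universe u

variable {P : Type u} [Fintype P] [PartialOrder P] [DecidableEq P] {r i j : ℕ}
variable {C : Finset P} {t : P} {lo hi : ℕ → ℕ} {x : ℕ → ℕ → P}

/-- everything the evaluator needs to know about the component -/
structure LocN (P : Type u) [Fintype P] [PartialOrder P] [DecidableEq P] (r j : ℕ) (t : P)
    (lo hi : ℕ → ℕ) (x : ℕ → ℕ → P) (C : Finset P) (i base c0 R s : ℕ) (los his : List ℕ) : Prop where
  H : Gr P r
  hr : j ≤ r
  hcl : ∀ z y : P, lev z ≤ j → z ≤ t → z ⋖ y → y ≤ t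
  hc : Comp P t j lo hi x
  part : Part i C
  mem : ∀ z, lev z < base + R → (z ∈ C ↔ z ≤ t)
  rows : Rows lo hi base c0 R los his
  hi' : i = base + s
  hs : s < R
  hj : base + R ≤ j + 1

section loc

variable {base c0 R s : ℕ} {los his : List ℕ}

theorem LocN.hir (Lc : LocN P r j t lo hi x C i base c0 R s los his) : i ≤ r := by
  have := Lc.hr
  have := Lc.hi'
  have := Lc.hs
  have := Lc.hj
  omega

lemma LocN.pt_spec (Lc : LocN P r j t lo hi x C i base c0 R s los his) {c : ℕ}
    (h : inR los his R (c / 32) (c % 32) = true) :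
    lev (ptc x base c0 c) = base + c / 32 ∧ ptc x base c0 c ≤ t ∧
      lo (base + c / 32) ≤ c0 + c % 32 ∧ c0 + c % 32 ≤ hi (base + c / 32) ∧ c / 32 < R := by
  rw [inR_iff] at h
  obtain ⟨h1, h2, h3⟩ := h
  have e1 := Lc.rows.lo_eq _ h1
  have e2 := Lc.rows.hi_eq _ h1
  have hj := Lc.hj
  have h4 : lo (base + c / 32) ≤ c0 + c % 32 := by omega
  have h5 : c0 + c % 32 ≤ hi (base + c / 32) := by omega
  exact ⟨Lc.hc.lev_x _ (by omega) _ h4 h5, Lc.hc.le_t _ (by omega) _ h4 h5, h4, h5, h1⟩

/-- the chart of a component -/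
theorem LocN.chart (Lc : LocN P r j t lo hi x C i base c0 R s los his) {p : Prog}
    (hok : okP los his R s p = true) :
    Chart i C (SR t base R) (ptc x base c0) (asgs p).toFinset := by
  classical
  unfold okP at hok
  simp only [Bool.and_eq_true] at hok
  obtain ⟨⟨⟨⟨⟨⟨⟨o1, o2⟩, o3⟩, o4⟩, o5⟩, o6⟩, o7⟩, o8⟩ := hok
  have hin : ∀ c ∈ (asgs p).toFinset, inR los his R (c / 32) (c % 32) = true := by
    intro c hc
    exact List.all_eq_true.1 o5 c (List.mem_toFinset.1 hc)
  have hj := Lc.hj
  have hi' := Lc.hi'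
  have hs := Lc.hs
  refine ⟨?_, ?_, ?_, ?_, ?_, ?_, ?_⟩
  · intro z hz
    rw [mem_SR] at hz
    exact (Lc.mem z hz.2.2).2 hz.1
  · intro z hz
    rw [mem_st] at hz
    rw [mem_SR]
    exact ⟨(Lc.mem z (by omega)).1 hz.1, by omega, by omega⟩
  · intro z hz hiz y hy
    rw [mem_SR] at hz ⊢
    have hl := (Lc.H.covBy_iff.1 hy).2
    refine ⟨Lc.hcl _ _ (by omega) hz.1 hy, by omega, by omega⟩
  · intro z hz hiz y hy
    rw [mem_SR] at hz ⊢
    have hl := (Lc.H.covBy_iff.1 hy).2
    exact ⟨hy.le.trans hz.1, by omega, by omega⟩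
  · intro c hc
    obtain ⟨h1, h2, h3, h4, h5⟩ := Lc.pt_spec (hin c hc)
    rw [mem_SR]
    exact ⟨h2, by omega, by omega⟩
  · intro c hc d hd hcd
    obtain ⟨h1, h2, h3, h4, h5⟩ := Lc.pt_spec (hin c hc)
    obtain ⟨g1, g2, g3, g4, g5⟩ := Lc.pt_spec (hin d hd)
    have e1 : c / 32 = d / 32 := by
      rw [hcd] at h1
      omega
    unfold ptc at hcd
    rw [← e1] at g3 g4 hcd
    have := Lc.hc.inj' (by omega) h3 h4 g3 g4 hcd
    omega
  · intro z hz
    rw [mem_SR] at hz
    obtain ⟨a, h1, h2, h3⟩ := Lc.hc.surj (lev z) (by omega) z rfl hz.1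
    have hk : lev z - base < R := by omega
    have e1 := Lc.rows.lo_eq _ hk
    have e2 := Lc.rows.hi_eq _ hk
    have e3 : base + (lev z - base) = lev z := by omega
    rw [e3] at e1 e2
    have h4 : his.getD (lev z - base) 0 ≤ 30 := by
      have := List.all_eq_true.1 o7 _ (List.mem_range.2 hk)
      rwa [Nat.ble_eq] at this
    have h5 : a - c0 < 32 := by omega
    refine ⟨cd (lev z - base) (a - c0), ?_, ?_⟩
    · rw [List.mem_toFinset]
      have h6 := List.all_eq_true.1 o6 _ (List.mem_range.2 hk)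
      exact List.contains_iff_mem.1 (List.all_eq_true.1 h6 _ (mem_rowN.2 ⟨by omega, by omega⟩))
    · unfold ptc
      rw [cd_div h5, cd_mod h5, e3]
      have e4 : c0 + (a - c0) = a := by omega
      rw [e4]
      exact h3

lemma LocN.nbD_dnN (Lc : LocN P r j t lo hi x C i base c0 R s los his) {p : Prog}
    (hok : okP los his R s p = true) {c : ℕ} (hc : inR los his R (c / 32) (c % 32) = true) :
    nbD (SR t base R) (ptc x base c0) (asgs p).toFinset c (dnN los his R (c / 32) (c % 32)) := by
  classical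
  unfold okP at hok
  simp only [Bool.and_eq_true] at hok
  obtain ⟨⟨⟨⟨⟨⟨⟨o1, o2⟩, o3⟩, o4⟩, o5⟩, o6⟩, o7⟩, o8⟩ := hok
  obtain ⟨h1, h2, h3, h4, h5⟩ := Lc.pt_spec hc
  have hj := Lc.hj
  constructor
  · intro y hy
    obtain ⟨a', rfl, ha', hin⟩ := mem_dnN.1 hy
    rw [inR_iff] at hin
    have h6 : his.getD (c / 32 + 1) 0 ≤ 30 := by
      have := List.all_eq_true.1 o7 _ (List.mem_range.2 hin.1)
      rwa [Nat.ble_eq] at this
    have h7 : a' < 32 := by omega
    have e1 := Lc.rows.lo_eq _ hin.1
    have e2 := Lc.rows.hi_eq _ hin.1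
    constructor
    · rw [List.mem_toFinset]
      have h6 := List.all_eq_true.1 o6 _ (List.mem_range.2 hin.1)
      exact List.contains_iff_mem.1 (List.all_eq_true.1 h6 _ (mem_rowN.2 ⟨by omega, by omega⟩))
    · unfold ptc
      rw [cd_div h7, cd_mod h7, ← Nat.add_assoc]
      refine (Lc.hc.cov _ (by omega) _ _ ?_ ?_ h3 h4).2 ?_
      · rw [← Nat.add_assoc] at e1; omega
      · rw [← Nat.add_assoc] at e2; omega
      · omega
  · intro z hz hzc
    rw [mem_SR] at hz
    have hl := (Lc.H.covBy_iff.1 hzc).2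
    rw [h1] at hl
    have hk : c / 32 + 1 < R := by omega
    obtain ⟨a, g1, g2, g3⟩ := Lc.hc.surj (lev z) (by omega) z rfl hz.1
    have e0 : lev z = base + c / 32 + 1 := hl
    rw [e0] at g1 g2 g3
    have e1 := Lc.rows.lo_eq _ hk
    have e2 := Lc.rows.hi_eq _ hk
    rw [← Nat.add_assoc] at e1 e2
    rw [← g3] at hzc
    unfold ptc at hzc
    have g4 := (Lc.hc.cov _ (by omega) _ _ g1 g2 h3 h4).1 hzc
    have h6 : his.getD (c / 32 + 1) 0 ≤ 30 := by
      have := List.all_eq_true.1 o7 _ (List.mem_range.2 hk)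
      rwa [Nat.ble_eq] at this
    have h7 : a - c0 < 32 := by omega
    refine ⟨cd (c / 32 + 1) (a - c0), mem_dnN.2 ⟨a - c0, rfl, by omega, inR_iff.2 ⟨hk, by omega, by omega⟩⟩, ?_⟩
    unfold ptc
    rw [cd_div h7, cd_mod h7, ← Nat.add_assoc]
    have e4 : c0 + (a - c0) = a := by omega
    rw [e4]
    exact g3

lemma LocN.nbU_upN (Lc : LocN P r j t lo hi x C i base c0 R s los his) {p : Prog}
    (hok : okP los his R s p = true) {c : ℕ} (hc : inR los his R (c / 32) (c % 32) = true) :
    nbU (SR t base R) (ptc x base c0) (asgs p).toFinset c (upN los his (c / 32) (c % 32)) := by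
  classical
  unfold okP at hok
  simp only [Bool.and_eq_true] at hok
  obtain ⟨⟨⟨⟨⟨⟨⟨o1, o2⟩, o3⟩, o4⟩, o5⟩, o6⟩, o7⟩, o8⟩ := hok
  obtain ⟨h1, h2, h3, h4, h5⟩ := Lc.pt_spec hc
  have hj := Lc.hj
  constructor
  · intro y hy
    obtain ⟨r', a', hr', rfl, ha', hlo, hhi⟩ := mem_upN.1 hy
    have hk : r' < R := by omega
    have h6 : his.getD r' 0 ≤ 30 := by
      have := List.all_eq_true.1 o7 _ (List.mem_range.2 hk)
      rwa [Nat.ble_eq] at this
    have h7 : a' < 32 := by omega
    have e1 := Lc.rows.lo_eq _ hk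
    have e2 := Lc.rows.hi_eq _ hk
    constructor
    · rw [List.mem_toFinset]
      have h6 := List.all_eq_true.1 o6 _ (List.mem_range.2 hk)
      exact List.contains_iff_mem.1 (List.all_eq_true.1 h6 _ (mem_rowN.2 ⟨by omega, by omega⟩))
    · unfold ptc
      rw [cd_div h7, cd_mod h7]
      rw [hr', ← Nat.add_assoc] at h3 h4 ⊢
      refine (Lc.hc.cov _ (by omega) _ _ h3 h4 ?_ ?_).2 ?_
      · omega
      · omega
      · omega
  · intro z hz hzc
    rw [mem_SR] at hz
    have hl := (Lc.H.covBy_iff.1 hzc).2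
    rw [h1] at hl
    obtain ⟨r', hr'⟩ : ∃ r', c / 32 = r' + 1 := ⟨c / 32 - 1, by omega⟩
    have hk : r' < R := by omega
    have e0 : lev z = base + r' := by omega
    obtain ⟨a, g1, g2, g3⟩ := Lc.hc.surj (lev z) (by omega) z rfl hz.1
    rw [e0] at g1 g2 g3
    have e1 := Lc.rows.lo_eq _ hk
    have e2 := Lc.rows.hi_eq _ hk
    rw [← g3] at hzc
    unfold ptc at hzc
    rw [hr', ← Nat.add_assoc] at h3 h4 hzc
    have g4 := (Lc.hc.cov _ (by omega) _ _ h3 h4 g1 g2).1 hzc
    have h6 : his.getD r' 0 ≤ 30 := by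
      have := List.all_eq_true.1 o7 _ (List.mem_range.2 hk)
      rwa [Nat.ble_eq] at this
    have h7 : a - c0 < 32 := by omega
    refine ⟨cd r' (a - c0), mem_upN.2 ⟨r', a - c0, hr', rfl, by omega, by omega, by omega⟩, ?_⟩
    unfold ptc
    rw [cd_div h7, cd_mod h7]
    have e4 : c0 + (a - c0) = a := by omega
    rw [e4]
    exact g3

/-- the program fits -/
theorem LocN.fits (Lc : LocN P r j t lo hi x C i base c0 R s los his) {p0 : Prog}
    (hok : okP los his R s p0 = true) : ∀ p : Prog, okS los his R s p = true →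
    (∀ c ∈ chks p, c ∈ asgs p0) → fits i (SR t base R) (ptc x base c0) (asgs p0).toFinset p := by
  classical
  have hi' := Lc.hi'
  intro p
  induction p with
  | nil => intro _ _; trivial
  | asg x' lb caps p ih => intro h1 h2; exact ih h1 h2
  | skp xs k q p _ ih => intro h1 h2; exact ih h1 h2
  | site c dl ul p ih =>
    intro h1 h2
    simp only [okS, Bool.and_eq_true] at h1
    obtain ⟨⟨⟨⟨g1, g2⟩, g3⟩, g4⟩, g5⟩ := h1
    have h3 := Lc.pt_spec g2
    have h4 := Nat.eq_of_beq_eq_true g1
    refine ⟨⟨List.mem_toFinset.2 (h2 c (by rw [chks]; simp)), by omega, ?_, ?_⟩,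
      ih g5 fun d hd => h2 d (by rw [chks]; exact List.mem_cons_of_mem _ hd)⟩
    · rw [of_decide_eq_true g3]; exact Lc.nbD_dnN hok g2
    · rw [of_decide_eq_true g4]; exact Lc.nbU_upN hok g2
  | low c dl ul p ih =>
    intro h1 h2
    simp only [okS, Bool.and_eq_true] at h1
    obtain ⟨⟨⟨⟨g1, g2⟩, g3⟩, g4⟩, g5⟩ := h1
    have h3 := Lc.pt_spec g2
    have h4 := Nat.le_of_ble_eq_true g1
    refine ⟨⟨List.mem_toFinset.2 (h2 c (by rw [chks]; simp)), by omega, ?_, ?_⟩,
      ih g5 fun d hd => h2 d (by rw [chks]; exact List.mem_cons_of_mem _ hd)⟩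
    · rw [of_decide_eq_true g3]; exact Lc.nbD_dnN hok g2
    · rw [of_decide_eq_true g4]; exact Lc.nbU_upN hok g2
  | upp c dl ul p ih =>
    intro h1 h2
    simp only [okS, Bool.and_eq_true] at h1
    obtain ⟨⟨⟨⟨g1, g2⟩, g3⟩, g4⟩, g5⟩ := h1
    have h3 := Lc.pt_spec g2
    have h4 := Nat.le_of_ble_eq_true g1
    refine ⟨⟨List.mem_toFinset.2 (h2 c (by rw [chks]; simp)), by omega, ?_, ?_⟩,
      ih g5 fun d hd => h2 d (by rw [chks]; exact List.mem_cons_of_mem _ hd)⟩
    · rw [of_decide_eq_true g3]; exact Lc.nbU_upN hok g2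
    · rw [of_decide_eq_true g4]; exact Lc.nbD_dnN hok g2

/-- EVALUATION OF A COMPONENT, with lower bounds. -/
theorem LocN.eval_lb (Lc : LocN P r j t lo hi x C i base c0 R s los his) {p : Prog}
    (hok : okP los his R s p = true) {m n : ℕ} (hm : m ≤ 2) (hn : n < 32) :
    ev m p 0 n 0 0 0 = PowerSeries.coeff m (∑ e ∈ (SR t base R).piAntidiag n,
      (by classical exact if lbs p (jM (ptc x base c0) (asgs p).toFinset e) then tC i C e else 0) : A) := by
  classical
  have hch := Lc.chart hok
  have hok0 := hok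
  unfold okP at hok
  simp only [Bool.and_eq_true] at hok
  obtain ⟨⟨⟨⟨⟨⟨⟨o1, o2⟩, o3⟩, o4⟩, o5⟩, o6⟩, o7⟩, o8⟩ := hok
  have hperm : (chks p).Perm (asgs p) := of_decide_eq_true o4
  exact ev_chart Lc.H Lc.hir Lc.part hch hm o1 o2 hn
    (Lc.fits hok0 p o3 fun c hc => hperm.subset hc) rfl hperm (of_decide_eq_true o8)

/-- restriction of a sum to the rows -/
theorem LocN.sum_rows (Lc : LocN P r j t lo hi x C i base c0 R s los his) {n : ℕ} {D : Finset P}
    (hDC : D ⊆ C) (hSD : SR t base R ⊆ D) (htop : base = 0 ∨ n ≤ s)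
    (hbot : s + n < R ∨ ∀ z ∈ D, lev z < base + R) (Q : (P → ℕ) → Prop) :
    (∑ e ∈ D.piAntidiag n, (by classical exact if Q e then tC i C e else 0) : A) =
      ∑ e ∈ (SR t base R).piAntidiag n, (by classical exact if Q e then tC i C e else 0) := by
  classical
  have hsub : (SR t base R).piAntidiag n ⊆ D.piAntidiag n := by
    intro e he
    rw [mem_piAntidiag] at he ⊢
    refine ⟨?_, fun z hz => hSD (he.2 z hz)⟩
    rw [← he.1]
    symm
    refine sum_subset hSD fun z _ hz => ?_
    by_contra h
    exact hz (he.2 z h)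
  symm
  refine sum_subset hsub ?_
  intro e he hes
  split_ifs with hQ
  · by_contra hne
    apply hes
    rw [mem_piAntidiag] at he ⊢
    have hsum : ∑ y, e y = n := by
      rw [← he.1]
      symm
      refine sum_subset (subset_univ _) fun z _ hz => ?_
      by_contra h
      exact hz (he.2 z h)
    have hin : ∀ z, e z ≠ 0 → z ∈ SR t base R := by
      intro z hz
      have hzD := he.2 z hz
      have hi' := Lc.hi'
      have h1 : base ≤ lev z := by
        by_contra h
        rcases htop with h2 | h2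
        · omega
        · exact hz (far_zero Lc.H Lc.hir hne hsum.le (Or.inr (by omega)))
      have h2 : lev z < base + R := by
        rcases hbot with h3 | h3
        · by_contra h
          exact hz (far_zero Lc.H Lc.hir hne hsum.le (Or.inl (by omega)))
        · exact h3 z hzD
      rw [mem_SR]
      exact ⟨(Lc.mem z h2).1 (hDC hzD), h1, h2⟩
    refine ⟨?_, hin⟩
    rw [← he.1]
    refine sum_subset hSD fun z _ hz => ?_
    by_contra h
    exact hz (hin z h)
  · rfl

lemma LocN.SR_sub_DR (Lc : LocN P r j t lo hi x C i base c0 R s los his) {J : ℕ}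
    (hJ : base + R ≤ J + 1) : SR t base R ⊆ DR C J := by
  intro z hz
  rw [mem_SR] at hz
  rw [mem_DR]
  exact ⟨(Lc.mem z hz.2.2).2 hz.1, by omega⟩

/-- EVALUATION OF THE CUT COMPONENT. -/
theorem LocN.eval_cut (Lc : LocN P r j t lo hi x C i base c0 R s los his) {p : Prog}
    (hok : okP los his R s p = true) (h0 : lb0 p = true) {m n J : ℕ} (hm : m ≤ 2) (hn : n < 32)
    (htop : base = 0 ∨ n ≤ s) (hJ : base + R = J + 1) :
    PowerSeries.coeff m (∑ e ∈ (DR C J).piAntidiag n, tC i C e : A) = ev m p 0 n 0 0 0 := by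
  classical
  rw [Lc.eval_lb hok hm hn]
  congr 1
  have h1 := Lc.sum_rows (D := DR C J) (n := n) (fun z hz => (mem_DR.1 hz).1)
    (Lc.SR_sub_DR hJ.le) htop (Or.inr (fun z hz => by have := (mem_DR.1 hz).2; omega)) (fun _ => True)
  simp only [if_true] at h1
  rw [h1]
  refine Finset.sum_congr rfl fun e _ => ?_
  rw [if_pos (lbs_of_lb0 p h0)]

/-- elements of the cone are above an element of the list, and below the sites -/
lemma LocN.cone_spec (Lc : LocN P r j t lo hi x C i base c0 R s los his) {p : Prog}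
    (hok : okP los his R s p = true) : ∀ (n : ℕ) (l : List ℕ),
    (∀ c ∈ l, inR los his R (c / 32) (c % 32) = true ∧ s < c / 32) →
    ∀ c ∈ coneN los his s n l, inR los his R (c / 32) (c % 32) = true ∧ s < c / 32 ∧
      ∃ d ∈ l, ptc x base c0 d ≤ ptc x base c0 c := by
  classical
  intro n
  induction n with
  | zero => intro l _ c hc; exact absurd hc (by simp [coneN])
  | succ n ih =>
    intro l hl c hc
    rw [coneN, List.mem_append] at hc
    rcases hc with hc | hc
    · exact ⟨(hl c hc).1, (hl c hc).2, c, hc, le_rfl⟩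
    · have hl' : ∀ c ∈ (l.flatMap (fun y => upN los his (y / 32) (y % 32))).filter
          (fun y => Nat.ble (s + 1) (y / 32)),
          inR los his R (c / 32) (c % 32) = true ∧ s < c / 32 ∧
            ∃ d ∈ l, ptc x base c0 d ≤ ptc x base c0 c := by
        intro y hy
        rw [List.mem_filter, List.mem_flatMap] at hy
        obtain ⟨⟨d, hd, hy1⟩, hy2⟩ := hy
        have h1 := (Lc.nbU_upN hok (hl d hd).1).1 y hy1
        have h2 : inR los his R (y / 32) (y % 32) = true := by
          have h3 := h1.1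
          rw [List.mem_toFinset] at h3
          unfold okP at hok
          simp only [Bool.and_eq_true] at hok
          obtain ⟨⟨⟨⟨⟨⟨⟨o1, o2⟩, o3⟩, o4⟩, o5⟩, o6⟩, o7⟩, o8⟩ := hok
          exact List.all_eq_true.1 o5 y h3
        rw [Nat.ble_eq] at hy2
        exact ⟨h2, by omega, d, hd, h1.2.le⟩
      obtain ⟨h1, h2, d, hd, h3⟩ := ih _ (fun y hy => ⟨(hl' y hy).1, (hl' y hy).2.1⟩) c hc
      obtain ⟨_, _, d', hd', h4⟩ := hl' d hd
      exact ⟨h1, h2, d', hd', h4.trans h3⟩

/-- ZERO SUMS: the sum over all configurations with labels `≥ 1` on a nonempty set `X` of the last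
row has no coefficient of `dd ^ m`. -/
theorem LocN.zeroX (Lc : LocN P r j t lo hi x C i base c0 R s los his) {m N J : ℕ} (hm : m ≤ 2)
    (hN : N ≤ 32) (htop : base = 0 ∨ N ≤ s + 1) (hJ : base + R = J + 1) (hsR : s + 1 < R)
    (hok : okXs los his R s m N = true) {X : Finset P} (hX : ∀ z ∈ X, z ∈ C ∧ lev z = J)
    (hne : X.Nonempty) {n : ℕ} (hn : n < N) :
    PowerSeries.coeff m (∑ e ∈ (DR C J).piAntidiag n,
      (by classical exact if ∀ z ∈ X, 1 ≤ e z then tC i C e else 0) : A) = 0 := by
  classical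
  set row : List ℕ := (rowN los his (R - 1)).map (cd (R - 1)) with hrow
  set l : List ℕ := row.filter (fun c => decide (ptc x base c0 c ∈ X)) with hl
  have hlX : okX los his R s m N l = true := by
    unfold okXs at hok
    have h1 := List.all_eq_true.1 hok l (List.mem_sublists.2 List.filter_sublist)
    rw [Bool.or_eq_true] at h1
    rcases h1 with h1 | h1
    · exfalso
      obtain ⟨z, hz⟩ := hne
      obtain ⟨hzC, hzJ⟩ := hX z hz
      have hzt : z ≤ t := (Lc.mem z (by omega)).1 hzC
      obtain ⟨a, g1, g2, g3⟩ := Lc.hc.surj (lev z) (by have := Lc.hj; omega) z rfl hzt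
      have e0 : lev z = base + (R - 1) := by omega
      rw [e0] at g1 g2 g3
      have e1 := Lc.rows.lo_eq (R - 1) (by omega)
      have e2 := Lc.rows.hi_eq (R - 1) (by omega)
      -- bound on the columns: from any valid program; use the whole row
      have hb : his.getD (R - 1) 0 ≤ 30 := by
        have h2 := List.all_eq_true.1 hok row (List.mem_sublists.2 (List.Sublist.refl _))
        rw [Bool.or_eq_true] at h2
        rcases h2 with h2 | h2
        · rw [List.isEmpty_iff] at h2
          exfalso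
          have : a - c0 ∈ rowN los his (R - 1) := mem_rowN.2 ⟨by omega, by omega⟩
          have h3 : cd (R - 1) (a - c0) ∈ row := List.mem_map.2 ⟨_, this, rfl⟩
          rw [h2] at h3
          exact absurd h3 (by simp)
        · unfold okX okP at h2
          simp only [Bool.and_eq_true] at h2
          have h3 := h2.1.1.1.1.1.2
          have := List.all_eq_true.1 h3 _ (List.mem_range.2 (show R - 1 < R by omega))
          rwa [Nat.ble_eq] at this
      have h7 : a - c0 < 32 := by omega
      have hmem : cd (R - 1) (a - c0) ∈ l := by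
        rw [hl, List.mem_filter]
        refine ⟨List.mem_map.2 ⟨_, mem_rowN.2 ⟨by omega, by omega⟩, rfl⟩, ?_⟩
        rw [decide_eq_true_eq]
        unfold ptc
        rw [cd_div h7, cd_mod h7]
        have e4 : c0 + (a - c0) = a := by omega
        rw [e4, g3]
        exact hz
      rw [List.isEmpty_iff] at h1
      rw [h1] at hmem
      exact absurd hmem (by simp)
    · exact h1
  unfold okX at hlX
  simp only [Bool.and_eq_true] at hlX
  obtain ⟨⟨⟨⟨k1, k2⟩, k3⟩, k4⟩, k5⟩ := hlX
  have hev := of_decide_eq_true (List.all_eq_true.1 k5 n (List.mem_range.2 hn))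
  have hmain := Lc.eval_lb k1 hm (n := n) (by omega)
  rw [hev] at hmain
  have hsum := Lc.sum_rows (D := DR C J) (n := n) (fun z hz => (mem_DR.1 hz).1)
    (Lc.SR_sub_DR hJ.le) (by rcases htop with h | h; exact Or.inl h; exact Or.inr (by omega))
    (Or.inr (fun z hz => by have := (mem_DR.1 hz).2; omega)) (fun e => ∀ z ∈ X, 1 ≤ e z)
  have hsum' : (∑ e ∈ (DR C J).piAntidiag n, (if ∀ z ∈ X, 1 ≤ e z then tC i C e else 0) : A) =
      ∑ e ∈ (SR t base R).piAntidiag n, (if ∀ z ∈ X, 1 ≤ e z then tC i C e else 0) := by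
    convert hsum
  rw [hsum', hmain]
  congr 1
  refine Finset.sum_congr rfl fun e he => ?_
  -- facts about the codes of `l`
  have k1' := k1
  unfold okP at k1'
  simp only [Bool.and_eq_true] at k1'
  obtain ⟨⟨⟨⟨⟨⟨⟨o1, o2⟩, o3⟩, o4⟩, o5⟩, o6⟩, o7⟩, o8⟩ := k1'
  have hcol : his.getD (R - 1) 0 ≤ 30 := by
    have := List.all_eq_true.1 o7 _ (List.mem_range.2 (show R - 1 < R by omega))
    rwa [Nat.ble_eq] at this
  have hlin : ∀ c ∈ l, inR los his R (c / 32) (c % 32) = true ∧ s < c / 32 ∧ c / 32 = R - 1 := by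
    intro c hc
    rw [hl, List.mem_filter] at hc
    obtain ⟨a, ha, rfl⟩ := List.mem_map.1 hc.1
    rw [mem_rowN] at ha
    rw [cd_div (by omega), cd_mod (by omega)]
    exact ⟨inR_iff.2 ⟨by omega, ha.1, ha.2⟩, by omega, rfl⟩
  have hcone := Lc.cone_spec k1 (R - 1 - s) l (fun c hc => ⟨(hlin c hc).1, (hlin c hc).2.1⟩)
  have hXl : ∀ z ∈ X, ∃ c ∈ l, ptc x base c0 c = z := by
    intro z hz
    obtain ⟨hzC, hzJ⟩ := hX z hz
    have hzt : z ≤ t := (Lc.mem z (by omega)).1 hzC
    obtain ⟨a, g1, g2, g3⟩ := Lc.hc.surj (lev z) (by have := Lc.hj; omega) z rfl hzt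
    have e0 : lev z = base + (R - 1) := by omega
    rw [e0] at g1 g2 g3
    have e1 := Lc.rows.lo_eq (R - 1) (by omega)
    have e2 := Lc.rows.hi_eq (R - 1) (by omega)
    have h7 : a - c0 < 32 := by omega
    have hpt : ptc x base c0 (cd (R - 1) (a - c0)) = z := by
      unfold ptc
      rw [cd_div h7, cd_mod h7]
      have e4 : c0 + (a - c0) = a := by omega
      rw [e4, g3]
    refine ⟨cd (R - 1) (a - c0), ?_, hpt⟩
    rw [hl, List.mem_filter]
    refine ⟨List.mem_map.2 ⟨_, mem_rowN.2 ⟨by omega, by omega⟩, rfl⟩, ?_⟩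
    rw [decide_eq_true_eq, hpt]
    exact hz
  have hlsub : ∀ c ∈ lbL (mkX los his R s l), c ∈ (asgs (mkX los his R s l)).toFinset ∧
      c ∈ coneN los his s (R - 1 - s) l := by
    intro c hc
    have h1 : c ∈ coneN los his s (R - 1 - s) l := List.contains_iff_mem.1 (List.all_eq_true.1 k3 c hc)
    refine ⟨?_, h1⟩
    have : ∀ p : Prog, ∀ c ∈ lbL p, c ∈ asgs p := by
      intro p
      induction p with
      | nil => intro c hc; exact absurd hc (by simp [lbL])
      | asg x' lb caps p ih =>
        intro c hc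
        rw [lbL] at hc
        rw [asgs]
        cases hb : Nat.beq lb 0 with
        | true => rw [hb, cond_true] at hc; exact List.mem_cons_of_mem _ (ih c hc)
        | false =>
          rw [hb, cond_false] at hc
          rcases List.mem_cons.1 hc with h | h
          · rw [h]; simp
          · exact List.mem_cons_of_mem _ (ih c h)
      | site _ _ _ p ih => intro c hc; exact ih c hc
      | low _ _ _ p ih => intro c hc; exact ih c hc
      | upp _ _ _ p ih => intro c hc; exact ih c hc
      | skp _ _ _ p _ ih => intro c hc; exact ih c hc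
    exact List.mem_toFinset.2 (this _ c hc)
  by_cases hT : tC i C e = 0
  · rw [hT, ite_self, ite_self]
  · have hA := (adm_of_tC hT).1
    have hiff : (∀ z ∈ X, 1 ≤ e z) ↔
        lbs (mkX los his R s l) (jM (ptc x base c0) (asgs (mkX los his R s l)).toFinset e) := by
      rw [lbs_iff _ k2]
      constructor
      · intro h c hc
        obtain ⟨h1, h2⟩ := hlsub c hc
        rw [jM_of_mem h1]
        obtain ⟨h3, h4, d, hd, h5⟩ := hcone c h2
        have hdX : ptc x base c0 d ∈ X := by
          rw [hl, List.mem_filter] at hd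
          exact of_decide_eq_true hd.2
        have h6 := (Lc.pt_spec h3).1
        have hi' := Lc.hi'
        exact pos_above Lc.H hA (by omega) _ h5 (h _ hdX)
      · intro h z hz
        obtain ⟨c, hc, rfl⟩ := hXl z hz
        have h1 : c ∈ lbL (mkX los his R s l) :=
          List.contains_iff_mem.1 (List.all_eq_true.1 k4 c hc)
        have h2 := h c h1
        rw [jM_of_mem (hlsub c h1).1] at h2
        exact h2
    by_cases h : ∀ z ∈ X, 1 ≤ e z
    · rw [if_pos h, if_pos (hiff.1 h)]
    · rw [if_neg h, if_neg (fun h' => h (hiff.2 h'))]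

/-- EVALUATION OF THE WHOLE COMPONENT from the rows `base .. base + R - 1`: the rows reach `ρ` levels
below the window, `n ≤ 2 ρ`, and the sums with positive labels on a set of the last row vanish. -/
theorem LocN.eval_all (Lc : LocN P r j t lo hi x C i base c0 R s los his) {p : Prog}
    (hok : okP los his R s p = true) (h0 : lb0 p = true) {m n : ℕ} (hm : m ≤ 2) (hn : n < 32)
    (hsR : s + 1 < R) (hnR : n ≤ 2 * (R - 1 - s)) (htop : base = 0 ∨ n ≤ s)
    (hX : okXs los his R s m n = true) :
    PowerSeries.coeff m (ZC i C n : A) = ev m p 0 n 0 0 0 := by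
  classical
  have hi' := Lc.hi'
  have hJ : base + R = i + (R - 1 - s) + 1 := by omega
  rw [← Lc.eval_cut hok h0 hm hn htop hJ]
  refine Jk.junk_low Lc.H Lc.part (by omega) hnR (fun z hz => (mem_DR.1 hz).1)
    (fun z hz => (mem_DR.1 hz).2) (fun e _ _ z hz hl _ => mem_DR.2 ⟨hz, hl⟩) ?_
  intro X hXC hXl hXn n' hn'
  have h1 := Lc.zeroX (X := X) hm (by omega) (by omega) hJ hsR hX
    (fun z hz => ⟨hXC hz, hXl z hz⟩) hXn hn'
  rw [← h1]

/-- the second order coefficient of a component -/
theorem LocN.be_all (Lc : LocN P r j t lo hi x C i base c0 R s los his) {p : Prog}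
    (hok : okP los his R s p = true) (h0 : lb0 p = true) {b n : ℕ} (hb : 2 ≤ b) (hb' : b ≤ 4)
    (hn : n < 32) (hsR : s + 1 < R) (hnR : n ≤ 2 * (R - 1 - s)) (htop : base = 0 ∨ n ≤ s)
    (hX : okXs los his R s (b - 2) n = true) :
    I2.be n b (ZS i C) = ev (b - 2) p 0 n 0 0 0 := by
  rw [be_eq hb]
  exact Lc.eval_all hok h0 (by omega) hn hsR hnR htop hX

end loc

end Pool.Agent.GaussPoset.Win.Ev

end
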