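import Mathlib
import Pool.Agent.W_448zz_h61.Ns
import Pool.Agent.W_448zz_h61.M064

/-! From `Pool.Agent.W_448ec_h63.EL` -/

section

/-!
One step: raising the label of one element by one.
-/

namespace Pool.Agent.GaussPoset

set_option linter.unusedSectionVars false

open Finset

universe u

variable {Q : Type u} [Fintype Q] [PartialOrder Q] [DecidableEq Q] {i : ℕ} {e : Q → ℕ} {v : Q}

/-- the label of `v` raised by one -/
def up1 (e : Q → ℕ) (v : Q) : Q → ℕ := fun x => e x + if x = v then 1 else 0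

lemma rho_up1_self : rho i (up1 e v) v = rho i e v + 1 := by
  unfold rho up1
  rw [if_pos rfl]
  push_cast
  ring

lemma rho_up1 {x : Q} (h : x ≠ v) : rho i (up1 e v) x = rho i e x := by
  unfold rho up1
  rw [if_neg h, Nat.add_zero]

lemma rho_le_up1 (x : Q) : rho i e x ≤ rho i (up1 e v) x := by
  by_cases h : x = v
  · subst h
    rw [rho_up1_self]
    omega
  · rw [rho_up1 h]

lemma mem_Pk' {x : Q} : x ∈ Pk i e ↔ ¬ FI i e x ∧ ¬ FA i e x := by
  classical
  unfold Pk
  simp

lemma pk_nonneg {x : Q} (h : x ∈ Pk i e) : 0 ≤ rho i e x := by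
  rw [mem_Pk'] at h
  by_contra hcon
  exact h.1 (Or.inl (by omega))

lemma pk_below {x w : Q} (h : x ∈ Pk i e) (hw : w < x) : rho i e w ≤ rho i e x := by
  rw [mem_Pk'] at h
  by_contra hcon
  exact h.1 (Or.inr ⟨w, hw, by omega⟩)

lemma pk_above {x y : Q} (h : x ∈ Pk i e) (hy : x < y) : rho i e y < rho i e x := by
  rw [mem_Pk'] at h
  by_contra hcon
  exact h.2 ⟨y, hy, by omega⟩

lemma FI_up1 {x : Q} (h : FI i e x) (hx : x ≠ v) : FI i (up1 e v) x := by
  rcases h with h | ⟨w, hw, h⟩
  · left
    rw [rho_up1 hx]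
    exact h
  · refine Or.inr ⟨w, hw, ?_⟩
    rw [rho_up1 hx]
    exact h.trans_le (rho_le_up1 w)

lemma FA_up1 {x : Q} (h : FA i e x) (hx : x ≠ v) : FA i (up1 e v) x := by
  obtain ⟨y, hy, h⟩ := h
  refine ⟨y, hy, ?_⟩
  rw [rho_up1 hx]
  exact h.trans (rho_le_up1 y)

lemma pk_of_up1 {x : Q} (h : x ∈ Pk i (up1 e v)) (hx : x ≠ v) : x ∈ Pk i e := by
  rw [mem_Pk'] at h ⊢
  exact ⟨fun h' => h.1 (FI_up1 h' hx), fun h' => h.2 (FA_up1 h' hx)⟩

lemma pk_self (h : v ∈ Pk i e) : v ∈ Pk i (up1 e v) := by
  rw [mem_Pk']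
  constructor
  · rintro (h1 | ⟨w, hw, h1⟩)
    · rw [rho_up1_self] at h1
      have := pk_nonneg h
      omega
    · rw [rho_up1_self, rho_up1 hw.ne] at h1
      have := pk_below h hw
      omega
  · rintro ⟨y, hy, h1⟩
    rw [rho_up1_self, rho_up1 hy.ne'] at h1
    have := pk_above h hy
    omega

/-- a lost peak -/
lemma lost_cases {x : Q} (h : x ∈ Pk i e) (hx : x ∉ Pk i (up1 e v)) :
    (v < x ∧ rho i e x = rho i e v) ∨ (x < v ∧ rho i e x = rho i e v + 1) := by
  have hne : x ≠ v := by
    rintro rfl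
    exact hx (pk_self h)
  rw [mem_Pk', not_and_or, not_not, not_not] at hx
  rcases hx with (h1 | ⟨w, hw, h1⟩) | ⟨y, hy, h1⟩
  · rw [rho_up1 hne] at h1
    have := pk_nonneg h
    omega
  · rw [rho_up1 hne] at h1
    by_cases hwv : w = v
    · subst hwv
      rw [rho_up1_self] at h1
      have := pk_below h hw
      exact Or.inl ⟨hw, by omega⟩
    · rw [rho_up1 hwv] at h1
      have := pk_below h hw
      omega
  · rw [rho_up1 hne] at h1
    by_cases hyv : y = v
    · subst hyv
      rw [rho_up1_self] at h1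
      have := pk_above h hy
      exact Or.inr ⟨hy, by omega⟩
    · rw [rho_up1 hyv] at h1
      have := pk_above h hy
      omega

lemma lost_up {x : Q} (hA : Adm i (up1 e v)) (h : x ∈ Pk i e) (hvx : v < x)
    (hr : rho i e x = rho i e v) : v ⋖ x := by
  refine ⟨hvx, fun y hy1 hy2 => hA y ⟨?_, ?_⟩⟩
  · refine Or.inr ⟨v, hy1, ?_⟩
    rw [rho_up1_self, rho_up1 hy1.ne']
    have := pk_below h hy2
    omega
  · refine ⟨x, hy2, ?_⟩
    rw [rho_up1 hy1.ne', rho_up1 hvx.ne']
    exact pk_below h hy2

lemma lost_dn {x : Q} (hA : Adm i (up1 e v)) (h : x ∈ Pk i e) (hxv : x < v)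
    (hr : rho i e x = rho i e v + 1) : x ⋖ v := by
  refine ⟨hxv, fun y hy1 hy2 => hA y ⟨?_, ?_⟩⟩
  · refine Or.inr ⟨x, hy1, ?_⟩
    rw [rho_up1 hy2.ne, rho_up1 hxv.ne]
    exact pk_above h hy1
  · refine ⟨v, hy2, ?_⟩
    rw [rho_up1_self, rho_up1 hy2.ne]
    have := pk_above h hy1
    omega

lemma gain_up (hU : ∀ y, v ⋖ y → y ∈ Pk i e ∧ rho i e y = rho i e v) (hex : ∃ y, v ⋖ y) :
    v ∈ Pk i (up1 e v) := by
  rw [mem_Pk']
  obtain ⟨y0, hy0⟩ := hex
  obtain ⟨h0, h0'⟩ := hU y0 hy0
  constructor
  · rintro (h1 | ⟨w, hw, h1⟩)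
    · rw [rho_up1_self] at h1
      have := pk_nonneg h0
      omega
    · rw [rho_up1_self, rho_up1 hw.ne] at h1
      have := pk_below h0 (hw.trans hy0.lt)
      omega
  · rintro ⟨u, hu, h1⟩
    rw [rho_up1_self, rho_up1 hu.ne'] at h1
    obtain ⟨y, hy, hyu⟩ := exists_covBy_le hu
    obtain ⟨h2, h3⟩ := hU y hy
    rcases eq_or_lt_of_le hyu with h4 | h4
    · rw [← h4] at h1
      omega
    · have := pk_above h2 h4
      omega

/-- covers from below -/
lemma exists_le_covBy {z y : Q} (h : z < y) : ∃ w, z ≤ w ∧ w ⋖ y := by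
  classical
  let T : Finset Q := univ.filter (fun w => z ≤ w ∧ w < y)
  obtain ⟨w, hw⟩ := T.exists_maximal ⟨z, by simp [T, h]⟩
  have hw1 : z ≤ w ∧ w < y := by simpa [T] using hw.1
  refine ⟨w, hw1.1, hw1.2, fun u hu1 hu2 => ?_⟩
  have hu : u ∈ T := by simp [T, hu2, hw1.1.trans hu1.le]
  exact absurd (hw.2 hu hu1.le) (not_le_of_gt hu1)

lemma gain_dn (hD : ∀ y, y ⋖ v → y ∈ Pk i e ∧ rho i e y = rho i e v + 1) (hex : ∃ y, y ⋖ v) :
    v ∈ Pk i (up1 e v) := by
  rw [mem_Pk']
  obtain ⟨y0, hy0⟩ := hex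
  obtain ⟨h0, h0'⟩ := hD y0 hy0
  constructor
  · rintro (h1 | ⟨w, hw, h1⟩)
    · rw [rho_up1_self] at h1
      have := pk_nonneg h0
      omega
    · rw [rho_up1_self, rho_up1 hw.ne] at h1
      obtain ⟨y, hy1, hy2⟩ := exists_le_covBy hw
      obtain ⟨h2, h3⟩ := hD y hy2
      rcases eq_or_lt_of_le hy1 with h4 | h4
      · rw [h4] at h1
        omega
      · have := pk_below h2 h4
        omega
  · rintro ⟨u, hu, h1⟩
    rw [rho_up1_self, rho_up1 hu.ne'] at h1
    have := pk_above h0 (hy0.lt.trans hu)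
    omega

/-- at most two upper and lower covers -/
structure Two (Q : Type u) [PartialOrder Q] : Prop where
  up : ∀ v a b c : Q, v ⋖ a → v ⋖ b → v ⋖ c → a ≠ b → c = a ∨ c = b
  dn : ∀ v a b c : Q, a ⋖ v → b ⋖ v → c ⋖ v → a ≠ b → c = a ∨ c = b

/-- two peaks cover `v` -/
def Low2 (i : ℕ) (e : Q → ℕ) (v : Q) : Prop := ∃ x x', x ≠ x' ∧ v ⋖ x ∧ v ⋖ x' ∧ x ∈ Pk i e ∧
  x' ∈ Pk i e ∧ rho i e x = rho i e v ∧ rho i e x' = rho i e v

/-- `v` covers two peaks -/
def Up2 (i : ℕ) (e : Q → ℕ) (v : Q) : Prop := ∃ x x', x ≠ x' ∧ x ⋖ v ∧ x' ⋖ v ∧ x ∈ Pk i e ∧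
  x' ∈ Pk i e ∧ rho i e x = rho i e v + 1 ∧ rho i e x' = rho i e v + 1

/-- one lost peak above, and `v` is not a new peak -/
def Mix1 (i : ℕ) (e : Q → ℕ) (v : Q) : Prop := ∃ x, v ⋖ x ∧ x ∈ Pk i e ∧
  rho i e x = rho i e v ∧ ∃ u, v < u ∧ rho i e v + 1 ≤ rho i e u

/-- one lost peak below, and `v` is not a new peak -/
def Mix2 (i : ℕ) (e : Q → ℕ) (v : Q) : Prop := ∃ x, x ⋖ v ∧ x ∈ Pk i e ∧
  rho i e x = rho i e v + 1 ∧ ∃ w, w < v ∧ rho i e v + 1 < rho i e w

/-- ONE STEP -/
theorem step_cases (hT : Two Q) (hA : Adm i (up1 e v)) :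
    (Pk i e).card ≤ (Pk i (up1 e v)).card ∨ ((Pk i e).card = (Pk i (up1 e v)).card + 1 ∧
      (Low2 i e v ∨ Up2 i e v ∨ Mix1 i e v ∨ Mix2 i e v)) := by
  classical
  set B := Pk i e \ Pk i (up1 e v) with hB
  have hcard : (Pk i e).card = B.card + (Pk i e ∩ Pk i (up1 e v)).card := by
    rw [hB, add_comm, ← card_inter_add_card_sdiff (Pk i e) (Pk i (up1 e v))]
  have hmemB : ∀ x ∈ B, x ∈ Pk i e ∧ x ∉ Pk i (up1 e v) := fun x hx => mem_sdiff.1 hx
  have hgain : v ∉ Pk i e → v ∈ Pk i (up1 e v) →
      (Pk i e ∩ Pk i (up1 e v)).card + 1 ≤ (Pk i (up1 e v)).card := by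
    intro h1 h2
    have h3 : insert v (Pk i e ∩ Pk i (up1 e v)) ⊆ Pk i (up1 e v) := by
      intro x hx
      rw [mem_insert, mem_inter] at hx
      rcases hx with rfl | hx
      · exact h2
      · exact hx.2
    have h4 := card_le_card h3
    rwa [card_insert_of_notMem (by
      rw [mem_inter]
      exact fun h => h1 h.1)] at h4
  have hle : (Pk i e ∩ Pk i (up1 e v)).card ≤ (Pk i (up1 e v)).card :=
    card_le_card inter_subset_right
  rcases B.eq_empty_or_nonempty with hB0 | ⟨x, hx⟩
  · left
    rw [hcard, hB0, card_empty, zero_add]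
    exact hle
  obtain ⟨hx1, hx2⟩ := hmemB x hx
  rcases lost_cases hx1 hx2 with ⟨h1, h2⟩ | ⟨h1, h2⟩
  · -- upper
    have hcx := lost_up hA hx1 h1 h2
    have hall : ∀ y ∈ B, v ⋖ y ∧ y ∈ Pk i e ∧ rho i e y = rho i e v := by
      intro y hy
      obtain ⟨hy1, hy2⟩ := hmemB y hy
      rcases lost_cases hy1 hy2 with ⟨h3, h4⟩ | ⟨h3, h4⟩
      · exact ⟨lost_up hA hy1 h3 h4, hy1, h4⟩
      · have := pk_below hx1 (h3.trans h1)
        omega
    have hvn : v ∉ Pk i e := fun h => by
      have := pk_above h h1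
      omega
    by_cases h3 : ∃ x' ∈ B, x' ≠ x
    · obtain ⟨x', hx', hne⟩ := h3
      obtain ⟨h4, h5, h6⟩ := hall x' hx'
      have hB2 : B = {x, x'} := by
        ext y
        rw [mem_insert, mem_singleton]
        constructor
        · intro hy
          exact hT.up v x x' y hcx h4 (hall y hy).1 hne.symm
        · rintro (rfl | rfl)
          · exact hx
          · exact hx'
      have hBc : B.card = 2 := by rw [hB2, card_pair hne.symm]
      have hg := hgain hvn (gain_up (fun y hy => by
        rcases hT.up v x x' y hcx h4 hy hne.symm with rfl | rfl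
        · exact ⟨hx1, h2⟩
        · exact ⟨h5, h6⟩) ⟨x, hcx⟩)
      have hlow : Low2 i e v := ⟨x, x', hne.symm, hcx, h4, hx1, h5, h2, h6⟩
      by_cases h7 : (Pk i e).card ≤ (Pk i (up1 e v)).card
      · exact Or.inl h7
      · exact Or.inr ⟨by omega, Or.inl hlow⟩
    · push Not at h3
      have hBc : B.card = 1 := by
        rw [card_eq_one]
        refine ⟨x, ?_⟩
        ext y
        rw [mem_singleton]
        exact ⟨fun hy => h3 y hy, fun h => h ▸ hx⟩
      by_cases h7 : (Pk i e).card ≤ (Pk i (up1 e v)).card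
      · exact Or.inl h7
      · refine Or.inr ⟨by omega, Or.inr (Or.inr (Or.inl ⟨x, hcx, hx1, h2, ?_⟩))⟩
        have h8 : v ∉ Pk i (up1 e v) := fun h => by
          have := hgain hvn h
          omega
        rw [mem_Pk', not_and_or, not_not, not_not] at h8
        rcases h8 with (h9 | ⟨w, hw, h9⟩) | ⟨y, hy, h9⟩
        · rw [rho_up1_self] at h9
          have := pk_nonneg hx1
          omega
        · rw [rho_up1_self, rho_up1 hw.ne] at h9
          have := pk_below hx1 (hw.trans h1)
          omega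
        · rw [rho_up1_self, rho_up1 hy.ne'] at h9
          exact ⟨y, hy, h9⟩
  · have hcx := lost_dn hA hx1 h1 h2
    have hall : ∀ y ∈ B, y ⋖ v ∧ y ∈ Pk i e ∧ rho i e y = rho i e v + 1 := by
      intro y hy
      obtain ⟨hy1, hy2⟩ := hmemB y hy
      rcases lost_cases hy1 hy2 with ⟨h3, h4⟩ | ⟨h3, h4⟩
      · have := pk_below hy1 (h1.trans h3)
        omega
      · exact ⟨lost_dn hA hy1 h3 h4, hy1, h4⟩
    have hvn : v ∉ Pk i e := fun h => by
      have := pk_below h h1
      omega
    by_cases h3 : ∃ x' ∈ B, x' ≠ x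
    · obtain ⟨x', hx', hne⟩ := h3
      obtain ⟨h4, h5, h6⟩ := hall x' hx'
      have hB2 : B = {x, x'} := by
        ext y
        rw [mem_insert, mem_singleton]
        constructor
        · intro hy
          exact hT.dn v x x' y hcx h4 (hall y hy).1 hne.symm
        · rintro (rfl | rfl)
          · exact hx
          · exact hx'
      have hBc : B.card = 2 := by rw [hB2, card_pair hne.symm]
      have hg := hgain hvn (gain_dn (fun y hy => by
        rcases hT.dn v x x' y hcx h4 hy hne.symm with rfl | rfl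
        · exact ⟨hx1, h2⟩
        · exact ⟨h5, h6⟩) ⟨x, hcx⟩)
      have hup : Up2 i e v := ⟨x, x', hne.symm, hcx, h4, hx1, h5, h2, h6⟩
      by_cases h7 : (Pk i e).card ≤ (Pk i (up1 e v)).card
      · exact Or.inl h7
      · exact Or.inr ⟨by omega, Or.inr (Or.inl hup)⟩
    · push Not at h3
      have hBc : B.card = 1 := by
        rw [card_eq_one]
        refine ⟨x, ?_⟩
        ext y
        rw [mem_singleton]
        exact ⟨fun hy => h3 y hy, fun h => h ▸ hx⟩
      by_cases h7 : (Pk i e).card ≤ (Pk i (up1 e v)).card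
      · exact Or.inl h7
      · refine Or.inr ⟨by omega, Or.inr (Or.inr (Or.inr ⟨x, hcx, hx1, h2, ?_⟩))⟩
        have h8 : v ∉ Pk i (up1 e v) := fun h => by
          have := hgain hvn h
          omega
        rw [mem_Pk', not_and_or, not_not, not_not] at h8
        rcases h8 with (h9 | ⟨w, hw, h9⟩) | ⟨y, hy, h9⟩
        · rw [rho_up1_self] at h9
          have := pk_nonneg hx1
          omega
        · rw [rho_up1_self, rho_up1 hw.ne] at h9
          exact ⟨w, hw, h9⟩
        · rw [rho_up1_self, rho_up1 hy.ne'] at h9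
          have := pk_above hx1 (h1.trans hy)
          omega

/-- a lower double -/
theorem low2_exact (hT : Two Q) (hA : Adm i e) (h : Low2 i e v) :
    Adm i (up1 e v) ∧ (Pk i e).card = (Pk i (up1 e v)).card + 1 ∧
      nf i (up1 e v) = nf i e + 2 := by
  classical
  obtain ⟨x, x', hne, hcx, hcx', hx, hx', hr, hr'⟩ := h
  have hU : ∀ y, v ⋖ y → y ∈ Pk i e ∧ rho i e y = rho i e v := by
    intro y hy
    rcases hT.up v x x' y hcx hcx' hy hne with rfl | rfl
    · exact ⟨hx, hr⟩
    · exact ⟨hx', hr'⟩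
  have hg := gain_up hU ⟨x, hcx⟩
  have hvn : v ∉ Pk i e := fun h => by
    have := pk_above h hcx.lt
    omega
  have hab : ∀ y, v < y → rho i e y = rho i e v → y = x ∨ y = x' := by
    intro y hy h1
    obtain ⟨u, hu, huy⟩ := exists_covBy_le hy
    obtain ⟨h2, h3⟩ := hU u hu
    rcases eq_or_lt_of_le huy with h4 | h4
    · rw [← h4]
      exact hT.up v x x' u hcx hcx' hu hne
    · have := pk_above h2 h4
      omega
  -- changes of forced elements
  have hFI : ∀ y, y ≠ v → (FI i (up1 e v) y ↔ FI i e y ∨ y = x ∨ y = x') := by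
    intro y hy
    constructor
    · rintro (h1 | ⟨w, hw, h1⟩)
      · rw [rho_up1 hy] at h1
        exact Or.inl (Or.inl h1)
      · rw [rho_up1 hy] at h1
        by_cases hwv : w = v
        · subst hwv
          rw [rho_up1_self] at h1
          by_cases h2 : rho i e y < rho i e w
          · exact Or.inl (Or.inr ⟨w, hw, h2⟩)
          · exact Or.inr (hab y hw (by omega))
        · rw [rho_up1 hwv] at h1
          exact Or.inl (Or.inr ⟨w, hw, h1⟩)
    · rintro (h1 | h1 | h1)
      · exact FI_up1 h1 hy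
      · subst h1
        refine Or.inr ⟨v, hcx.lt, ?_⟩
        rw [rho_up1_self, rho_up1 hy]
        omega
      · subst h1
        refine Or.inr ⟨v, hcx'.lt, ?_⟩
        rw [rho_up1_self, rho_up1 hy]
        omega
  have hFIv : ¬ FI i (up1 e v) v := (mem_Pk'.1 hg).1
  have hFIv' : ¬ FI i e v := by
    rintro (h1 | ⟨w, hw, h1⟩)
    · have := pk_nonneg hx
      omega
    · have := pk_below hx (hw.trans hcx.lt)
      omega
  refine ⟨?_, ?_, ?_⟩
  · rintro y ⟨h1, h2⟩
    by_cases hyv : y = v
    · subst hyv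
      exact hFIv h1
    · rcases (hFI y hyv).1 h1 with h3 | h3
      · obtain ⟨u, hu, h4⟩ := h2
        rw [rho_up1 hyv] at h4
        by_cases huv : u = v
        · subst huv
          rw [rho_up1_self] at h4
          by_cases h5 : rho i e y ≤ rho i e u
          · exact hA y ⟨h3, u, hu, h5⟩
          · have := pk_below hx (hu.trans hcx.lt)
            omega
        · rw [rho_up1 huv] at h4
          exact hA y ⟨h3, u, hu, h4⟩
      · have hvy : v < y := by
          rcases h3 with rfl | rfl
          · exact hcx.lt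
          · exact hcx'.lt
        have hyP : y ∈ Pk i e := by
          rcases h3 with rfl | rfl
          · exact hx
          · exact hx'
        obtain ⟨u, hu, h4⟩ := h2
        rw [rho_up1 hyv, rho_up1 (hvy.trans hu).ne'] at h4
        have := pk_above hyP hu
        omega
  · have h1 : Pk i (up1 e v) = insert v ((Pk i e).erase x |>.erase x') := by
      ext y
      rw [mem_insert, mem_erase, mem_erase]
      constructor
      · intro h2
        by_cases hyv : y = v
        · exact Or.inl hyv
        · have h3 := (mem_Pk'.1 h2).1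
          rw [hFI y hyv] at h3
          push Not at h3
          exact Or.inr ⟨h3.2.2, h3.2.1, pk_of_up1 h2 hyv⟩
      · rintro (rfl | ⟨h2, h3, h4⟩)
        · exact hg
        · have hyv : y ≠ v := fun h => hvn (h ▸ h4)
          by_contra hcon
          rcases lost_cases h4 hcon with ⟨h5, h6⟩ | ⟨h5, h6⟩
          · rcases hab y h5 h6 with h7 | h7
            · exact h3 h7
            · exact h2 h7
          · have := pk_below hx (h5.trans hcx.lt)
            omega
    have h2 : v ∉ ((Pk i e).erase x |>.erase x') := fun h => hvn (mem_of_mem_erase (mem_of_mem_erase h))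
    have h3 : x' ∈ (Pk i e).erase x := mem_erase.2 ⟨hne.symm, hx'⟩
    rw [h1, card_insert_of_notMem h2, card_erase_of_mem h3, card_erase_of_mem hx]
    have h4 : 2 ≤ (Pk i e).card := by
      have h5 : ({x, x'} : Finset Q) ⊆ Pk i e := by
        intro y hy
        rw [mem_insert, mem_singleton] at hy
        rcases hy with rfl | rfl
        · exact hx
        · exact hx'
      have h6 := card_le_card h5
      rwa [card_pair hne] at h6
    omega
  · have h1 : (univ.filter (fun y => FI i (up1 e v) y)) =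
        insert x (insert x' (univ.filter (fun y => FI i e y))) := by
      ext y
      rw [mem_insert, mem_insert, mem_filter, mem_filter]
      by_cases hyv : y = v
      · subst hyv
        constructor
        · rintro ⟨-, h⟩
          exact absurd h hFIv
        · rintro (h | h | h)
          · exact absurd h hcx.lt.ne
          · exact absurd h hcx'.lt.ne
          · exact absurd h.2 hFIv'
      · rw [hFI y hyv]
        simp only [mem_univ, true_and]
        tauto
    unfold nf
    rw [h1, card_insert_of_notMem, card_insert_of_notMem]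
    · rw [mem_filter]
      exact fun h => (mem_Pk'.1 hx').1 h.2
    · rw [mem_insert, mem_filter]
      rintro (h | h)
      · exact hne h
      · exact (mem_Pk'.1 hx).1 h.2

/-- an upper double -/
theorem up2_exact (hT : Two Q) (hA : Adm i e) (h : Up2 i e v) :
    Adm i (up1 e v) ∧ (Pk i e).card = (Pk i (up1 e v)).card + 1 ∧
      nf i e = nf i (up1 e v) + 1 := by
  classical
  obtain ⟨x, x', hne, hcx, hcx', hx, hx', hr, hr'⟩ := h
  have hD : ∀ y, y ⋖ v → y ∈ Pk i e ∧ rho i e y = rho i e v + 1 := by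
    intro y hy
    rcases hT.dn v x x' y hcx hcx' hy hne with rfl | rfl
    · exact ⟨hx, hr⟩
    · exact ⟨hx', hr'⟩
  have hg := gain_dn hD ⟨x, hcx⟩
  have hvn : v ∉ Pk i e := fun h => by
    have := pk_below h hcx.lt
    omega
  -- the elements above `v` with the same height are forced in
  have hab : ∀ y, v < y → rho i e y ≤ rho i e v → FI i e y := by
    intro y hy h1
    exact Or.inr ⟨x, hcx.lt.trans hy, by omega⟩
  have hFI : ∀ y, y ≠ v → (FI i (up1 e v) y ↔ FI i e y) := by
    intro y hy
    constructor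
    · rintro (h1 | ⟨w, hw, h1⟩)
      · rw [rho_up1 hy] at h1
        exact Or.inl h1
      · rw [rho_up1 hy] at h1
        by_cases hwv : w = v
        · subst hwv
          rw [rho_up1_self] at h1
          exact hab y hw (by omega)
        · rw [rho_up1 hwv] at h1
          exact Or.inr ⟨w, hw, h1⟩
    · intro h1
      exact FI_up1 h1 hy
  have hFIv : ¬ FI i (up1 e v) v := (mem_Pk'.1 hg).1
  have hFIv' : FI i e v := Or.inr ⟨x, hcx.lt, by omega⟩
  refine ⟨?_, ?_, ?_⟩
  · rintro y ⟨h1, h2⟩
    by_cases hyv : y = v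
    · subst hyv
      exact hFIv h1
    · have h3 := (hFI y hyv).1 h1
      obtain ⟨u, hu, h4⟩ := h2
      rw [rho_up1 hyv] at h4
      by_cases huv : u = v
      · subst huv
        rw [rho_up1_self] at h4
        obtain ⟨y', hy1, hy2⟩ := exists_le_covBy hu
        obtain ⟨h5, h6⟩ := hD y' hy2
        rcases eq_or_lt_of_le hy1 with h7 | h7
        · rw [h7] at h3
          exact (mem_Pk'.1 h5).1 h3
        · exact hA y ⟨h3, y', h7, by omega⟩
      · rw [rho_up1 huv] at h4
        exact hA y ⟨h3, u, hu, h4⟩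
  · have h1 : Pk i (up1 e v) = insert v ((Pk i e).erase x |>.erase x') := by
      ext y
      rw [mem_insert, mem_erase, mem_erase]
      constructor
      · intro h2
        by_cases hyv : y = v
        · exact Or.inl hyv
        · refine Or.inr ⟨?_, ?_, pk_of_up1 h2 hyv⟩
          · rintro rfl
            refine (mem_Pk'.1 h2).2 ⟨v, hcx'.lt, ?_⟩
            rw [rho_up1_self, rho_up1 hyv]
            omega
          · rintro rfl
            refine (mem_Pk'.1 h2).2 ⟨v, hcx.lt, ?_⟩
            rw [rho_up1_self, rho_up1 hyv]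
            omega
      · rintro (rfl | ⟨h2, h3, h4⟩)
        · exact hg
        · by_contra hcon
          rcases lost_cases h4 hcon with ⟨h5, h6⟩ | ⟨h5, h6⟩
          · have := pk_below h4 (hcx.lt.trans h5)
            omega
          · obtain ⟨y', hy1, hy2⟩ := exists_le_covBy h5
            rcases eq_or_lt_of_le hy1 with h7 | h7
            · rcases hT.dn v x x' y' hcx hcx' hy2 hne with h8 | h8
              · exact h3 (h7.trans h8)
              · exact h2 (h7.trans h8)
            · have h9 := pk_above h4 h7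
              have h10 := (hD y' hy2).2
              omega
    have h2 : v ∉ ((Pk i e).erase x |>.erase x') := fun h => hvn (mem_of_mem_erase (mem_of_mem_erase h))
    have h3 : x' ∈ (Pk i e).erase x := mem_erase.2 ⟨hne.symm, hx'⟩
    rw [h1, card_insert_of_notMem h2, card_erase_of_mem h3, card_erase_of_mem hx]
    have h4 : 2 ≤ (Pk i e).card := by
      have h5 : ({x, x'} : Finset Q) ⊆ Pk i e := by
        intro y hy
        rw [mem_insert, mem_singleton] at hy
        rcases hy with rfl | rfl
        · exact hx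
        · exact hx'
      have h6 := card_le_card h5
      rwa [card_pair hne] at h6
    omega
  · have h1 : (univ.filter (fun y => FI i e y)) =
        insert v (univ.filter (fun y => FI i (up1 e v) y)) := by
      ext y
      rw [mem_insert, mem_filter, mem_filter]
      by_cases hyv : y = v
      · subst hyv
        simp only [mem_univ, true_and, true_or, iff_true]
        exact hFIv'
      · rw [hFI y hyv]
        simp only [mem_univ, true_and, hyv, false_or]
    unfold nf
    rw [h1, card_insert_of_notMem]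
    rw [mem_filter]
    exact fun h => hFIv h.2

end Pool.Agent.GaussPoset

end

/-! From `Pool.Agent.W_448ec_h63.EM` -/

section

/-!
The energy after the leading one: dangerous configurations are the cheapest one plus one unit.
-/

namespace Pool.Agent.GaussPoset

set_option linter.unusedSectionVars false

open Finset Polynomial

universe u

variable {Q : Type u} [Fintype Q] [PartialOrder Q] [DecidableEq Q] {i n : ℕ} {R : Finset Q}
variable {h : Q → ℕ}

open Classical in
/-- the term of a configuration -/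
noncomputable def tmZ (i : ℕ) (e : Q → ℕ) : ℤ[X] :=
  if Adm i e then (X : ℤ[X]) ^ (nf i e) * (1 + X) ^ (Pk i e).card else 0

open Classical in
lemma tmZ_eq (e : Q → ℕ) :
    tmZ i e = ∑ F : Finset Q, if Vd i e F then (X : ℤ[X]) ^ F.card else 0 := by
  unfold tmZ
  have := sum_vd i e
  convert this.symm using 1

lemma tmZ_zero {e : Q → ℕ} (h : ¬ Adm i e) : tmZ i e = 0 := by
  unfold tmZ
  rw [if_neg h]

lemma tmZ_adm {e : Q → ℕ} (h : Adm i e) :
    tmZ i e = (X : ℤ[X]) ^ (nf i e) * (1 + X) ^ (Pk i e).card := by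
  unfold tmZ
  rw [if_pos h]

lemma dvd_tmZ {e : Q → ℕ} {k : ℕ} (h : Adm i e → k ≤ (Pk i e).card) :
    (1 + X : ℤ[X]) ^ k ∣ tmZ i e := by
  by_cases hA : Adm i e
  · rw [tmZ_adm hA]
    exact Dvd.dvd.mul_left (pow_dvd_pow _ (h hA)) _
  · rw [tmZ_zero hA]
    exact dvd_zero _

open Classical in
/-- the dangerous part -/
theorem DG_tm (hlev : ∀ x ∈ R, i < lev x) (Pd : Finset Q)
    (hPd : ∀ z ∈ Pd, z ∈ bdR R ∧ h z = 1) (hout : ∀ z ∈ bdR R, z ∉ Pd → n < cst i h z) :
    DG i R h n = ∑ e ∈ ((univ : Finset Q).piAntidiag n).filter (fun e => ∃ z ∈ Pd, 1 ≤ e z),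
      tmZ i e := by
  have h1 : ∀ e : Q → ℕ, tmZ i e =
      ∑ F : Finset Q, if Vd i e F then (X : ℤ[X]) ^ F.card else 0 := tmZ_eq
  rw [Finset.sum_congr rfl fun e _ => h1 e, Finset.sum_comm]
  unfold DG
  refine Finset.sum_congr rfl fun F _ => ?_
  rw [← Finset.sum_filter, Finset.filter_filter]
  refine Finset.sum_congr (Finset.filter_congr fun e he => ?_) fun _ _ => rfl
  rw [mem_piAntidiag] at he
  constructor
  · rintro ⟨hV, z, hz, hd⟩
    have hzR := hlev z (mem_filter.1 hz).1
    have h2 : ∀ x, ez i h z x ≤ e x := ez_le hV hzR hd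
    have h3 : cst i h z ≤ n := by
      rw [← he.1]
      exact Finset.sum_le_sum fun x _ => h2 x
    have hzP : z ∈ Pd := by
      by_contra hcon
      have := hout z hz hcon
      omega
    refine ⟨⟨z, hzP, ?_⟩, hV⟩
    rcases hd with hd | hd
    · have := sub_le_of_mem hV hd
      omega
    · rw [(hPd z hzP).2] at hd
      exact hd
  · rintro ⟨⟨z, hz, hz1⟩, hV⟩
    refine ⟨hV, z, (hPd z hz).1, Or.inr ?_⟩
    rw [(hPd z hz).2]
    exact hz1

open Classical in
/-- inclusion and exclusion over the dangerous elements -/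
theorem dvd_dangerous {D : ℤ[X]} (Pd : Finset Q)
    (h1 : ∀ z ∈ Pd, D ∣ ∑ e ∈ ((univ : Finset Q).piAntidiag n).filter (fun e => 1 ≤ e z), tmZ i e)
    (h2 : ∀ z ∈ Pd, ∀ z' ∈ Pd, z ≠ z' → ∀ e ∈ (univ : Finset Q).piAntidiag n, 1 ≤ e z →
      1 ≤ e z' → D ∣ tmZ i e) :
    D ∣ ∑ e ∈ ((univ : Finset Q).piAntidiag n).filter (fun e => ∃ z ∈ Pd, 1 ≤ e z), tmZ i e := by
  induction Pd using Finset.induction_on with
  | empty =>
    have : ((univ : Finset Q).piAntidiag n).filter (fun e => ∃ z ∈ (∅ : Finset Q), 1 ≤ e z) = ∅ := by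
      refine Finset.filter_eq_empty_iff.mpr fun e _ => ?_
      simp
    rw [this, Finset.sum_empty]
    exact dvd_zero _
  | insert z A hzA ih =>
    have ih' := ih (fun w hw => h1 w (mem_insert_of_mem hw))
      (fun w hw w' hw' => h2 w (mem_insert_of_mem hw) w' (mem_insert_of_mem hw'))
    set T := (univ : Finset Q).piAntidiag n with hT
    have e1 : T.filter (fun e => ∃ w ∈ insert z A, 1 ≤ e w) =
        T.filter (fun e => ∃ w ∈ A, 1 ≤ e w) ∪
          ((T.filter (fun e => 1 ≤ e z)).filter (fun e => ¬ ∃ w ∈ A, 1 ≤ e w)) := by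
      ext e
      simp only [mem_filter, mem_union, mem_insert]
      constructor
      · rintro ⟨he, w, hw, hw1⟩
        by_cases hc : ∃ w ∈ A, 1 ≤ e w
        · exact Or.inl ⟨he, hc⟩
        · rcases hw with rfl | hw
          · exact Or.inr ⟨⟨he, hw1⟩, hc⟩
          · exact absurd ⟨w, hw, hw1⟩ hc
      · rintro (⟨he, w, hw, hw1⟩ | ⟨⟨he, hz1⟩, -⟩)
        · exact ⟨he, w, Or.inr hw, hw1⟩
        · exact ⟨he, z, Or.inl rfl, hz1⟩
    rw [e1, Finset.sum_union]
    · refine dvd_add ih' ?_
      have e2 := Finset.sum_filter_add_sum_filter_not (T.filter (fun e => 1 ≤ e z))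
        (fun e => ∃ w ∈ A, 1 ≤ e w) (fun e => tmZ i e)
      have e3 : ∑ e ∈ (T.filter (fun e => 1 ≤ e z)).filter (fun e => ¬ ∃ w ∈ A, 1 ≤ e w),
          tmZ i e = ∑ e ∈ T.filter (fun e => 1 ≤ e z), tmZ i e -
          ∑ e ∈ (T.filter (fun e => 1 ≤ e z)).filter (fun e => ∃ w ∈ A, 1 ≤ e w), tmZ i e := by
        rw [← e2]
        ring
      rw [e3]
      refine dvd_sub (h1 z (mem_insert_self _ _)) (dvd_sum fun e he => ?_)
      simp only [mem_filter] at he
      obtain ⟨⟨he, hz1⟩, w, hw, hw1⟩ := he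
      exact h2 z (mem_insert_self _ _) w (mem_insert_of_mem hw)
        (fun hzw => hzA (hzw ▸ hw)) e he hz1 hw1
    · rw [disjoint_left]
      intro e he he'
      simp only [mem_filter] at he he'
      exact he'.2 he.2

lemma up1_inj {e : Q → ℕ} {v v' : Q} (h : up1 e v = up1 e v') : v = v' := by
  by_contra hne
  have h1 := congrFun h v
  unfold up1 at h1
  rw [if_pos rfl, if_neg hne] at h1
  omega

lemma sum_up1 {e : Q → ℕ} {v : Q} : ∑ x, up1 e v x = ∑ x, e x + 1 := by
  unfold up1
  rw [Finset.sum_add_distrib]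
  simp

/-- one unit more -/
lemma exists_up1 {e g : Q → ℕ} (hle : ∀ x, g x ≤ e x) (hs : ∑ x, e x = ∑ x, g x + 1) :
    ∃ v, e = up1 g v := by
  classical
  have h1 : ∃ v, g v < e v := by
    by_contra hcon
    push Not at hcon
    have : ∑ x, e x ≤ ∑ x, g x := Finset.sum_le_sum fun x _ => hcon x
    omega
  obtain ⟨v, hv⟩ := h1
  refine ⟨v, ?_⟩
  have h2 : ∀ x, up1 g v x ≤ e x := by
    intro x
    unfold up1
    by_cases hx : x = v
    · subst hx
      rw [if_pos rfl]
      omega
    · rw [if_neg hx]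
      exact hle x
  have h3 : ∑ x, up1 g v x = ∑ x, e x := by rw [sum_up1, hs]
  funext x
  exact ((Finset.sum_eq_sum_iff_of_le (fun x _ => h2 x)).mp h3 x (mem_univ x)).symm

/-- an admissible configuration has a valid filter -/
lemma adm_vd {e : Q → ℕ} (hA : Adm i e) : ∃ F, Vd i e F := by
  classical
  refine ⟨univ.filter (fun x => FI i e x), ?_⟩
  rw [vd_iff]
  constructor
  · intro x hx
    rw [mem_filter]
    exact ⟨mem_univ _, hx⟩
  · intro x hx hx2
    rw [mem_filter] at hx2
    exact hA x ⟨hx2.2, hx⟩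

/-- a configuration which excites `z` -/
lemma ge_ez {e : Q → ℕ} (hA : Adm i e) {z : Q} (hz : i < lev z) (h1 : h z = 1)
    (he : 1 ≤ e z) (x : Q) : ez i h z x ≤ e x := by
  obtain ⟨F, hF⟩ := adm_vd hA
  exact ez_le hF hz (Or.inr (by rw [h1]; exact he)) x

open Classical in
/-- the configurations which excite `z`, one unit above the cost of `z` -/
theorem sum_excite {z : Q} (hz : i < lev z) (h1 : h z = 1) (hn : n = cst i h z + 1) :
    ∑ e ∈ ((univ : Finset Q).piAntidiag n).filter (fun e => 1 ≤ e z), tmZ i e =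
      ∑ v : Q, tmZ i (up1 (ez i h z) v) := by
  have hinj : ∀ v ∈ (univ : Finset Q), ∀ v' ∈ (univ : Finset Q),
      up1 (ez i h z) v = up1 (ez i h z) v' → v = v' := fun v _ v' _ h => up1_inj h
  rw [← Finset.sum_image (g := fun v => up1 (ez i h z) v) (f := fun e => tmZ i e) hinj]
  symm
  refine Finset.sum_subset ?_ ?_
  · intro e he
    rw [mem_image] at he
    obtain ⟨v, -, rfl⟩ := he
    rw [mem_filter, mem_piAntidiag]
    refine ⟨⟨?_, fun _ _ => mem_univ _⟩, ?_⟩
    · rw [sum_up1, hn]
      rfl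
    · have h2 : ez i h z z = 1 := by
        rw [ez_self (by omega), h1]
      unfold up1
      omega
  · intro e he hne
    rw [mem_filter, mem_piAntidiag] at he
    by_contra hcon
    have hA : Adm i e := by
      by_contra hA
      exact hcon (tmZ_zero hA)
    obtain ⟨v, hv⟩ := exists_up1 (g := ez i h z) (e := e) (ge_ez hA hz h1 he.2) (by
      rw [he.1.1, hn]
      rfl)
    exact hne (mem_image.2 ⟨v, mem_univ _, hv.symm⟩)

end Pool.Agent.GaussPoset

end

/-! From `Pool.Agent.W_448ec_h63.EN` -/

section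

/-!
The first excitations of a cheapest configuration cancel.
-/

namespace Pool.Agent.GaussPoset

set_option linter.unusedSectionVars false

open Finset Polynomial

universe u

variable {Q : Type u} [Fintype Q] [PartialOrder Q] [DecidableEq Q] {i n : ℕ}

open Classical in
/-- the lower doubles -/
noncomputable def LowS (i : ℕ) (e : Q → ℕ) : Finset Q := univ.filter (fun v => Low2 i e v)

open Classical in
/-- the upper doubles -/
noncomputable def EcUpS (i : ℕ) (e : Q → ℕ) : Finset Q := univ.filter (fun v => Up2 i e v)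

lemma mem_LowS {e : Q → ℕ} {v : Q} : v ∈ LowS i e ↔ Low2 i e v := by
  unfold LowS
  simp

lemma mem_UpS {e : Q → ℕ} {v : Q} : v ∈ EcUpS i e ↔ Up2 i e v := by
  unfold EcUpS
  simp

/-- first excitations -/
theorem dvd_sum_up1 {e : Q → ℕ} (hT : Two Q) (hA : Adm i e)
    (hmix : ∀ v, Adm i (up1 e v) → ¬ Mix1 i e v ∧ ¬ Mix2 i e v)
    (hLU : (LowS i e).card = (EcUpS i e).card) :
    (1 + X : ℤ[X]) ^ (Pk i e).card ∣ ∑ v : Q, tmZ i (up1 e v) := by
  classical
  have hdisj : Disjoint (LowS i e) (EcUpS i e) := by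
    rw [disjoint_left]
    intro v hv hv'
    rw [mem_LowS] at hv
    rw [mem_UpS] at hv'
    have h1 := (low2_exact hT hA hv).2.2
    have h2 := (up2_exact hT hA hv').2.2
    omega
  have hsplit : ∑ v : Q, tmZ i (up1 e v) = ∑ v ∈ LowS i e ∪ EcUpS i e, tmZ i (up1 e v) +
      ∑ v ∈ (LowS i e ∪ EcUpS i e)ᶜ, tmZ i (up1 e v) := (Finset.sum_add_sum_compl _ _).symm
  rw [hsplit, Finset.sum_union hdisj]
  refine dvd_add ?_ ?_
  · have hL : ∑ v ∈ LowS i e, tmZ i (up1 e v) =
        (LowS i e).card • ((X : ℤ[X]) ^ (nf i e + 2) * (1 + X) ^ ((Pk i e).card - 1)) := by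
      rw [← Finset.sum_const]
      refine Finset.sum_congr rfl fun v hv => ?_
      obtain ⟨h1, h2, h3⟩ := low2_exact hT hA (mem_LowS.1 hv)
      rw [tmZ_adm h1, h3, h2, Nat.add_sub_cancel]
    have hU : ∑ v ∈ EcUpS i e, tmZ i (up1 e v) =
        (EcUpS i e).card • ((X : ℤ[X]) ^ (nf i e - 1) * (1 + X) ^ ((Pk i e).card - 1)) := by
      rw [← Finset.sum_const]
      refine Finset.sum_congr rfl fun v hv => ?_
      obtain ⟨h1, h2, h3⟩ := up2_exact hT hA (mem_UpS.1 hv)
      rw [tmZ_adm h1, h2, Nat.add_sub_cancel, h3, Nat.add_sub_cancel]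
    rw [hL, hU, hLU, ← smul_add]
    rcases Finset.eq_empty_or_nonempty (EcUpS i e) with h0 | ⟨v, hv⟩
    · rw [h0, card_empty, zero_smul]
      exact dvd_zero _
    · obtain ⟨-, h2, h3⟩ := up2_exact hT hA (mem_UpS.1 hv)
      refine Dvd.dvd.mul_left ?_ _ |>.trans (by rw [nsmul_eq_mul])
      obtain ⟨N, hN⟩ : ∃ N, nf i e = N + 1 := ⟨nf i (up1 e v), h3⟩
      obtain ⟨K, hK⟩ : ∃ K, (Pk i e).card = K + 1 := ⟨(Pk i (up1 e v)).card, h2⟩
      rw [hN, hK, Nat.add_sub_cancel, Nat.add_sub_cancel]
      refine ⟨X ^ N * (1 - X + X ^ 2), ?_⟩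
      ring
  · refine dvd_sum fun v hv => dvd_tmZ fun hAv => ?_
    rw [mem_compl, mem_union, not_or, mem_LowS, mem_UpS] at hv
    rcases step_cases hT hAv with h1 | ⟨-, h1 | h1 | h1 | h1⟩
    · exact h1
    · exact absurd h1 hv.1
    · exact absurd h1 hv.2
    · exact absurd h1 (hmix v hAv).1
    · exact absurd h1 (hmix v hAv).2

section ez

variable {h : Q → ℕ} {z : Q}

/-- heights of the cheapest configuration -/
lemma rho_ez1 (h1 : h z = 1) (x : Q) : (z ≤ x → i < lev x → rho i (ez i h z) x = 1) ∧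
    (¬ (z ≤ x ∧ i < lev x) → rho i (ez i h z) x = -((i - lev x : ℕ) : ℤ)) := by
  constructor
  · intro hzx hx
    rw [rho_ez_of_ge hzx (by omega), h1]
    rfl
  · intro hx
    by_cases hzx : z ≤ x
    · have hx2 : ¬ i < lev x := fun h' => hx ⟨hzx, h'⟩
      rw [rho_ez_of_le hzx (by omega)]
      omega
    · exact rho_ez_of_not hzx

/-- the peaks of the cheapest configuration -/
lemma mem_pk_ez (hgr : GradedBelow Q) (hz : i < lev z) (h1 : h z = 1) {x : Q} :
    x ∈ Pk i (ez i h z) ↔ (¬ z ≤ x ∧ lev x = i) ∨ (z ≤ x ∧ lev x = i + 1) := by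
  rw [mem_Pk', FI_ez hgr (by omega) (by omega), FA_ez, h1]
  by_cases hzx : z ≤ x
  · simp only [hzx, true_and, not_true_eq_false, and_false, false_or, false_and]
    omega
  · simp only [hzx, false_and, not_false_eq_true, and_true, or_false, true_and]
    omega

/-- no mixed excitations -/
lemma no_mix (hgr : GradedBelow Q) (hz : i < lev z) (h1 : h z = 1) (v : Q)
    (hA : Adm i (up1 (ez i h z) v)) :
    ¬ Mix1 i (ez i h z) v ∧ ¬ Mix2 i (ez i h z) v := by
  have hle1 : ∀ x, rho i (ez i h z) x ≤ 1 := by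
    intro x
    by_cases hx : z ≤ x ∧ i < lev x
    · rw [(rho_ez1 h1 x).1 hx.1 hx.2]
    · rw [(rho_ez1 h1 x).2 hx]
      omega
  constructor
  · rintro ⟨x, hvx, hx, hr, u, hu, hru⟩
    have h2 := hle1 u
    have h3 := hgr.lev_covBy hvx
    rcases (mem_pk_ez hgr hz h1).1 hx with ⟨h4, h5⟩ | ⟨h4, h5⟩
    · have h6 := lev_strictAnti hu
      have h7 := (rho_ez1 (i := i) h1 u).2 (by omega)
      have h8 := (rho_ez1 (i := i) h1 x).2 (by omega)
      omega
    · have h8 := (rho_ez1 (i := i) h1 x).1 h4 (by omega)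
      omega
  · rintro ⟨x, hxv, hx, hr, w, hw, hrw⟩
    have h2 := hle1 w
    have h3 := hgr.lev_covBy hxv
    rcases (mem_pk_ez hgr hz h1).1 hx with ⟨h4, h5⟩ | ⟨h4, h5⟩
    · have h8 := (rho_ez1 (i := i) h1 x).2 (by omega)
      -- a site between
      have h9 : i < lev w := by
        by_contra hcon
        have := (rho_ez1 (i := i) h1 w).2 (by omega)
        omega
      obtain ⟨s, hs1, hs2, hs3⟩ := exists_between hgr hw.le (l := i) (by omega) h9.le
      have hsv : s ≠ v := by
        rintro rfl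
        omega
      have hws : w < s := lt_of_le_of_ne hs1 (by rintro rfl; omega)
      have h10 := (rho_ez1 (i := i) h1 s).2 (by omega)
      refine hA s ⟨Or.inr ⟨w, hws, ?_⟩, v, lt_of_le_of_ne hs2 hsv, ?_⟩
      · rw [rho_up1 hsv, rho_up1 hw.ne]
        omega
      · rw [rho_up1 hsv, rho_up1_self]
        omega
    · have h8 := (rho_ez1 (i := i) h1 x).1 h4 (by omega)
      omega

end ez

end Pool.Agent.GaussPoset

end

/-! From `Pool.Agent.W_448ec_h63.EO` -/

section

/-!
Staircases with a pendant below the fold: order one less at the next energy.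
-/

namespace Pool.Agent.GaussPoset

set_option linter.unusedSectionVars false

open Finset Polynomial

universe u

variable {Q : Type u} [Fintype Q] [PartialOrder Q] [DecidableEq Q] {i n : ℕ}
variable {t : Q} {T : ℕ × ℕ → Prop} {co : Q → ℕ × ℕ} {J p q : ℕ}

lemma prd_of_cov (H : Tru t T co i J p q) {v x : Q} (hv : lev v ≤ J) (h : v ⋖ x) :
    Prd (co v) (co x) := by
  have h1 := H.graded.lev_covBy h
  have h2 := (H.chart.le_iff v (mem_loN.2 hv) x (mem_loN.2 (by omega))).1 h.le
  have h3 := H.chart.lev v (mem_loN.2 hv)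
  have h4 := H.chart.lev x (mem_loN.2 (by omega))
  have h5 : (co x).1 ≤ (co v).1 := h2.1
  have h6 : (co x).2 ≤ (co v).2 := h2.2
  unfold Prd
  omega

lemma cov_of_prd (H : Tru t T co i J p q) {v x : Q} (hv : lev v ≤ J) (hx : lev x ≤ J)
    (h : Prd (co v) (co x)) : v ⋖ x := by
  have h1 : v ≤ x := (H.chart.le_iff v (mem_loN.2 hv) x (mem_loN.2 hx)).2 h.le
  have h3 := H.chart.lev v (mem_loN.2 hv)
  have h4 := H.chart.lev x (mem_loN.2 hx)
  have h5 : lev v = lev x + 1 := by
    rcases h with h | h <;> omega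
  refine ⟨lt_of_le_of_ne h1 (by rintro rfl; omega), fun y hy1 hy2 => ?_⟩
  have := lev_strictAnti hy1
  have := lev_strictAnti hy2
  omega

/-- two covers -/
lemma prd_two {c d d' : ℕ × ℕ} (h : Prd c d) (h' : Prd c d') (hne : d ≠ d') :
    1 ≤ c.1 ∧ 1 ≤ c.2 ∧ ((d = (c.1 - 1, c.2) ∧ d' = (c.1, c.2 - 1)) ∨
      (d' = (c.1 - 1, c.2) ∧ d = (c.1, c.2 - 1))) := by
  obtain ⟨a, b⟩ := c
  obtain ⟨a1, b1⟩ := d
  obtain ⟨a2, b2⟩ := d'
  unfold Prd at h h'
  simp only [ne_eq, Prod.mk.injEq] at h h' hne ⊢
  omega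

/-- two lower covers -/
lemma prd_two' {c d d' : ℕ × ℕ} (h : Prd d c) (h' : Prd d' c) (hne : d ≠ d') :
    (d = (c.1 + 1, c.2) ∧ d' = (c.1, c.2 + 1)) ∨ (d' = (c.1 + 1, c.2) ∧ d = (c.1, c.2 + 1)) := by
  obtain ⟨a, b⟩ := c
  obtain ⟨a1, b1⟩ := d
  obtain ⟨a2, b2⟩ := d'
  unfold Prd at h h'
  simp only [ne_eq, Prod.mk.injEq] at h h' hne ⊢
  omega

/-- the doubles of the two kinds correspond to each other -/
theorem card_low_up (H : Tru t (fun c => c.1 ≤ c.2) co i J (i + 1) q) {h : Q → ℕ} {z xF : Q}
    (hz : J < lev z) (h1 : h z = 1) (hzx : z ⋖ xF) (hxl : lev xF = J)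
    (hf : (co xF).1 = (co xF).2) (hnab : nab J z = 1) :
    (LowS i (ez i h z)).card = (EcUpS i (ez i h z)).card := by
  classical
  have hiJ := H.hiJ
  have hzi : i < lev z := by omega
  have hpk := fun x : Q => mem_pk_ez (x := x) H.graded hzi h1
  -- everything above `z` is above `xF`
  have habove : ∀ x, z ≤ x → lev x ≤ J → xF ≤ x := by
    intro x hx hxJ
    obtain ⟨w, hw1, hw2, hw3⟩ := exists_between H.graded hx (l := J) hxJ hz.le
    have hwx : w = xF := by
      by_contra hne
      have := two_le_nab hw1 hzx.le hw3 hxl hne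
      omega
    rw [← hwx]
    exact hw2
  have hlow : ∀ v ∈ LowS i (ez i h z), lev v ≤ i + 2 := by
    intro v hv
    obtain ⟨x, x', -, hvx, -, hx, -⟩ := mem_LowS.1 hv
    have h2 := H.graded.lev_covBy hvx
    rcases (hpk x).1 hx with h3 | h3 <;> omega
  have hup : ∀ v ∈ EcUpS i (ez i h z), lev v ≤ i := by
    intro v hv
    obtain ⟨x, x', -, hvx, -, hx, -⟩ := mem_UpS.1 hv
    have h2 := H.graded.lev_covBy hvx
    rcases (hpk x).1 hx with h3 | h3 <;> omega
  have key : (LowS i (ez i h z)).image co =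
      (EcUpS i (ez i h z)).image (fun v => ((co v).1 + 1, (co v).2 + 1)) := by
    ext c
    rw [mem_image, mem_image]
    constructor
    · rintro ⟨v, hv, rfl⟩
      have hvl := hlow v hv
      obtain ⟨x, x', hne, hvx, hvx', hx, hx', hr, hr'⟩ := mem_LowS.1 hv
      have g1 := H.graded.lev_covBy hvx
      have g2 := H.graded.lev_covBy hvx'
      have g3 := prd_of_cov H (by omega) hvx
      have g4 := prd_of_cov H (by omega) hvx'
      have g5 : co x ≠ co x' := fun h' =>
        hne (H.chart.inj x (mem_loN.2 (by omega)) x' (mem_loN.2 (by omega)) h')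
      obtain ⟨g6, g7, g8⟩ := prd_two g3 g4 g5
      have m1 : (co x).1 ≤ (co x).2 := H.chart.mem x (mem_loN.2 (by omega))
      have m2 : (co x').1 ≤ (co x').2 := H.chart.mem x' (mem_loN.2 (by omega))
      have lv := H.chart.lev v (mem_loN.2 (by omega))
      obtain ⟨v', hv', hcv'⟩ := H.chart.low v (mem_loN.2 (by omega))
        ((co v).1 - 1, (co v).2 - 1) ⟨Nat.sub_le _ _, Nat.sub_le _ _⟩ (by
          simp only
          rcases g8 with ⟨e1, e2⟩ | ⟨e1, e2⟩
          · rw [e2] at m2
            simp only at m2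
            omega
          · rw [e2] at m1
            simp only at m1
            omega)
      have lv' := H.chart.lev v' hv'
      rw [hcv'] at lv'
      simp only at lv'
      refine ⟨v', ?_, ?_⟩
      · rw [mem_UpS]
        have c1 : x ⋖ v' := by
          refine cov_of_prd H (by omega) (by omega) ?_
          rw [hcv']
          rcases g8 with ⟨e1, e2⟩ | ⟨e1, e2⟩
          · rw [e1]
            exact Or.inr ⟨rfl, by simp only; omega⟩
          · rw [e2]
            exact Or.inl ⟨by simp only; omega, rfl⟩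
        have c2 : x' ⋖ v' := by
          refine cov_of_prd H (by omega) (by omega) ?_
          rw [hcv']
          rcases g8 with ⟨e1, e2⟩ | ⟨e1, e2⟩
          · rw [e2]
            exact Or.inl ⟨by simp only; omega, rfl⟩
          · rw [e1]
            exact Or.inr ⟨rfl, by simp only; omega⟩
        have hrho : ∀ y, y ∈ Pk i (ez i h z) → lev y = lev v' + 1 →
            rho i (ez i h z) y = rho i (ez i h z) v' + 1 := by
          intro y hy hyl
          have r1 := (rho_ez1 (i := i) h1 v').2 (by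
            rcases (hpk y).1 hy with h3 | h3 <;> omega)
          rcases (hpk y).1 hy with ⟨h3, h4⟩ | ⟨h3, h4⟩
          · have r2 := (rho_ez1 (i := i) h1 y).2 (by omega)
            omega
          · have r2 := (rho_ez1 (i := i) h1 y).1 h3 (by omega)
            omega
        exact ⟨x, x', hne, c1, c2, hx, hx', hrho x hx (by omega), hrho x' hx' (by omega)⟩
      · rw [hcv']
        exact Prod.ext (by simp only; omega) (by simp only; omega)
    · rintro ⟨v', hv', rfl⟩
      have hvl := hup v' hv'
      obtain ⟨x, x', hne, hvx, hvx', hx, hx', hr, hr'⟩ := mem_UpS.1 hv'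
      have g1 := H.graded.lev_covBy hvx
      have g2 := H.graded.lev_covBy hvx'
      have g3 := prd_of_cov H (by omega) hvx
      have g4 := prd_of_cov H (by omega) hvx'
      have g5 : co x ≠ co x' := fun h' =>
        hne (H.chart.inj x (mem_loN.2 (by omega)) x' (mem_loN.2 (by omega)) h')
      have g8 := prd_two' g3 g4 g5
      have m1 : (co v').1 ≤ (co v').2 := H.chart.mem v' (mem_loN.2 (by omega))
      have lv' := H.chart.lev v' (mem_loN.2 (by omega))
      -- the cell exists
      have hex : ∃ v, lev v ≤ J ∧ co v = ((co v').1 + 1, (co v').2 + 1) ∧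
          (lev x = i + 1 → z ≤ v) := by
        rcases (hpk x).1 hx with ⟨h3, h4⟩ | ⟨h3, h4⟩
        · obtain ⟨v, hv1, hv2⟩ := H.base ((co v').1 + 1) ((co v').2 + 1) (by simp only; omega)
            (by omega) (by
              rcases H.qcl with hq | hq
              · omega
              · rcases g8 with ⟨e1, e2⟩ | ⟨e1, e2⟩
                · have := hq x' (by omega)
                  rw [e2] at this
                  exact this
                · have := hq x (by omega)
                  rw [e2] at this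
                  exact this) (by omega)
          exact ⟨v, hv1, hv2, fun h' => by omega⟩
        · have h5 : z ≤ x' := by
            rcases (hpk x').1 hx' with ⟨h6, h7⟩ | ⟨h6, h7⟩
            · omega
            · exact h6
          have f1 := (H.chart.le_iff xF (mem_loN.2 (by omega)) x (mem_loN.2 (by omega))).1
            (habove x h3 (by omega))
          have f2 := (H.chart.le_iff xF (mem_loN.2 (by omega)) x' (mem_loN.2 (by omega))).1
            (habove x' h5 (by omega))
          have f3 : (co x).1 ≤ (co xF).1 := f1.1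
          have f4 : (co x).2 ≤ (co xF).2 := f1.2
          have f5 : (co x').1 ≤ (co xF).1 := f2.1
          have f6 : (co x').2 ≤ (co xF).2 := f2.2
          obtain ⟨v, hv1, hv2⟩ := H.chart.low xF (mem_loN.2 (by omega))
            ((co v').1 + 1, (co v').2 + 1) (by
              rcases g8 with ⟨e1, e2⟩ | ⟨e1, e2⟩
              · rw [e1] at f3
                rw [e2] at f6
                exact ⟨f3, f6⟩
              · rw [e1] at f5
                rw [e2] at f4
                exact ⟨f5, f4⟩) (by simp only; omega)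
          refine ⟨v, mem_loN.1 hv1, hv2, fun _ => hzx.le.trans ?_⟩
          rw [H.chart.le_iff xF (mem_loN.2 (by omega)) v hv1, hv2]
          rcases g8 with ⟨e1, e2⟩ | ⟨e1, e2⟩
          · rw [e1] at f3
            rw [e2] at f6
            exact ⟨f3, f6⟩
          · rw [e1] at f5
            rw [e2] at f4
            exact ⟨f5, f4⟩
      obtain ⟨v, hvJ, hcv, hzv⟩ := hex
      have lv := H.chart.lev v (mem_loN.2 hvJ)
      rw [hcv] at lv
      simp only at lv
      refine ⟨v, ?_, hcv⟩
      rw [mem_LowS]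
      have c1 : v ⋖ x := by
        refine cov_of_prd H hvJ (by omega) ?_
        rw [hcv]
        rcases g8 with ⟨e1, e2⟩ | ⟨e1, e2⟩
        · rw [e1]
          exact Or.inr ⟨rfl, rfl⟩
        · rw [e2]
          exact Or.inl ⟨rfl, rfl⟩
      have c2 : v ⋖ x' := by
        refine cov_of_prd H hvJ (by omega) ?_
        rw [hcv]
        rcases g8 with ⟨e1, e2⟩ | ⟨e1, e2⟩
        · rw [e2]
          exact Or.inl ⟨rfl, rfl⟩
        · rw [e1]
          exact Or.inr ⟨rfl, rfl⟩
      have hrho : ∀ y, y ∈ Pk i (ez i h z) → v ⋖ y → lev y = lev x →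
          rho i (ez i h z) y = rho i (ez i h z) v := by
        intro y hy hvy hyl
        have g9 := H.graded.lev_covBy hvy
        rcases (hpk y).1 hy with ⟨h3, h4⟩ | ⟨h3, h4⟩
        · have r2 := (rho_ez1 (i := i) h1 y).2 (by omega)
          have r1 := (rho_ez1 (i := i) h1 v).2 (fun h' => h3 (h'.1.trans hvy.le))
          omega
        · have r2 := (rho_ez1 (i := i) h1 y).1 h3 (by omega)
          have r1 := (rho_ez1 (i := i) h1 v).1 (hzv (by omega)) (by omega)
          omega
      exact ⟨x, x', hne, c1, c2, hx, hx', hrho x hx c1 rfl, hrho x' hx' c2 (by omega)⟩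
  have i1 : ((LowS i (ez i h z)).image co).card = (LowS i (ez i h z)).card := by
    refine card_image_of_injOn ?_
    intro a ha b hb hab
    have e1 := hlow a ha
    have e2 := hlow b hb
    exact H.chart.inj a (mem_loN.2 (by omega)) b (mem_loN.2 (by omega)) hab
  have i2 : ((EcUpS i (ez i h z)).image (fun v => ((co v).1 + 1, (co v).2 + 1))).card =
      (EcUpS i (ez i h z)).card := by
    refine card_image_of_injOn ?_
    intro a ha b hb hab
    have e1 := hup a ha
    have e2 := hup b hb
    simp only [Prod.mk.injEq] at hab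
    exact H.chart.inj a (mem_loN.2 (by omega)) b (mem_loN.2 (by omega))
      (Prod.ext (by omega) (by omega))
  rw [← i1, ← i2, key]

end Pool.Agent.GaussPoset

end

/-! From `Pool.Agent.W_448ec_h63.EP` -/

section

/-!
Staircases: order one less at all energies up to twice the distance.
-/

namespace Pool.Agent.GaussPoset

set_option linter.unusedSectionVars false

open Finset Polynomial

universe u

variable {Q : Type u} [Fintype Q] [PartialOrder Q] [DecidableEq Q] {i n : ℕ}
variable {t : Q} {co : Q → ℕ × ℕ} {J q : ℕ}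

/-- label one, exact cost -/
lemma cost_one_eq {h : Q → ℕ} {z : Q} (hz : lev z = J + 1) (hiJ : i ≤ J) (h1 : h z = 1) :
    cst i h z = 1 + ∑ m ∈ range (J - i), nab (J - m) z := by
  classical
  have e1 : cst i h z = nab (J + 1) z + ∑ k ∈ range (J + 1), min (h z) (k - i) * nab k z := by
    rw [cst_eq, hz, Finset.sum_range_succ, h1, add_comm]
    congr 1
    rw [Nat.min_eq_left (by omega), one_mul]
  have e2 : ∑ m ∈ range (J - i), nab (J - m) z =
      ∑ k ∈ range (J + 1), min (h z) (k - i) * nab k z := by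
    have h3 : (range (J - i)).image (fun m => J - m) ⊆ range (J + 1) := by
      intro k hk
      rw [mem_image] at hk
      obtain ⟨m, -, rfl⟩ := hk
      rw [mem_range]
      omega
    rw [← Finset.sum_subset h3]
    · rw [Finset.sum_image]
      · refine Finset.sum_congr rfl fun m hm => ?_
        rw [mem_range] at hm
        rw [h1, Nat.min_eq_left (by omega), one_mul]
      · intro a ha b hb hab
        rw [mem_coe, mem_range] at ha hb
        have hab' : J - a = J - b := hab
        omega
    · intro k hk hk2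
      rw [mem_range] at hk
      have h4 : k - i = 0 := by
        by_contra hcon
        refine hk2 (mem_image.2 ⟨J - k, ?_, ?_⟩)
        · rw [mem_range]
          omega
        · change J - (J - k) = k
          omega
      rw [h4, Nat.min_zero, zero_mul]
  have e3 : nab (J + 1) z = 1 := by
    rw [← hz]
    exact nab_self
  rw [e1, e2, e3]

/-- the elements of level `J + 1` below the fold with another cover are expensive -/
lemma fold_two (H : Tru t (fun c => c.1 ≤ c.2) co i J (i + 1) q) {z x x' : Q} (hzx : z ≤ x)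
    (hzx' : z ≤ x') (hx : lev x = J) (hx' : lev x' = J) (hne : x ≠ x')
    (hf : (co x).1 = (co x).2) : 2 ≤ nab (J - 1) z := by
  have hiJ := H.hiJ
  have l1 := H.chart.lev x (mem_loN.2 (by omega))
  have l2 := H.chart.lev x' (mem_loN.2 (by omega))
  have m2 : (co x').1 ≤ (co x').2 := H.chart.mem x' (mem_loN.2 (by omega))
  have hc : (co x').1 < (co x).1 := by
    by_contra hcon
    exact hne (H.chart.inj x (mem_loN.2 (by omega)) x' (mem_loN.2 (by omega))
      (Prod.ext (by omega) (by omega)))
  obtain ⟨y, hy, hcy⟩ := H.chart.low x (mem_loN.2 (by omega)) ((co x).1 - 1, (co x).2)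
    ⟨Nat.sub_le _ _, le_rfl⟩ (by simp only; omega)
  have ly := H.chart.lev y hy
  rw [hcy] at ly
  simp only at ly
  have hxy : x ≤ y := by
    rw [H.chart.le_iff x (mem_loN.2 (by omega)) y hy, hcy]
    exact ⟨Nat.sub_le _ _, le_rfl⟩
  have hex : ∃ y', x' ≤ y' ∧ lev y' = J - 1 ∧ co y' ≠ co y := by
    rcases Nat.eq_zero_or_pos (co x').1 with h0 | h0
    · obtain ⟨y', hy', hcy'⟩ := H.chart.low x' (mem_loN.2 (by omega)) ((co x').1, (co x').2 - 1)
        ⟨le_rfl, Nat.sub_le _ _⟩ (by simp only; omega)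
      have ly' := H.chart.lev y' hy'
      rw [hcy'] at ly'
      simp only at ly'
      refine ⟨y', ?_, by omega, ?_⟩
      · rw [H.chart.le_iff x' (mem_loN.2 (by omega)) y' hy', hcy']
        exact ⟨le_rfl, Nat.sub_le _ _⟩
      · rw [hcy, hcy']
        intro h
        simp only [Prod.mk.injEq] at h
        omega
    · obtain ⟨y', hy', hcy'⟩ := H.chart.low x' (mem_loN.2 (by omega)) ((co x').1 - 1, (co x').2)
        ⟨Nat.sub_le _ _, le_rfl⟩ (by simp only; omega)
      have ly' := H.chart.lev y' hy'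
      rw [hcy'] at ly'
      simp only at ly'
      refine ⟨y', ?_, by omega, ?_⟩
      · rw [H.chart.le_iff x' (mem_loN.2 (by omega)) y' hy', hcy']
        exact ⟨Nat.sub_le _ _, le_rfl⟩
      · rw [hcy, hcy']
        intro h
        simp only [Prod.mk.injEq] at h
        omega
  obtain ⟨y', h3, h4, h5⟩ := hex
  exact two_le_nab (hzx.trans hxy) (hzx'.trans h3) (by omega) h4 (fun h' => h5 (h' ▸ rfl))

/-- the dangerous elements at the two exceptional energies -/
theorem fold_pd (H : Tru t (fun c => c.1 ≤ c.2) co i J (i + 1) q) {z : Q}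
    (hz : z ∈ bdR (hiN Q J)) (hJ : 2 * (J / 2) = J)
    (hn : (J = i + 3 ∧ n = 6) ∨ (J = i + 4 ∧ n = 8)) (hc : cst i (hS co i J q) z ≤ n) :
    hS co i J q z = 1 ∧ n = cst i (hS co i J q) z + 1 ∧ nab i z ≤ nab (i + 1) z + 1 ∧
      ∃ x, z ⋖ x ∧ lev x = J ∧ (co x).1 = (co x).2 ∧ nab J z = 1 := by
  classical
  have hiJ := H.hiJ
  have hq := H.hq
  have hl := bd_lev' H hz
  have h1 : hS co i J q z = 1 := by
    by_contra hne
    obtain ⟨x, -, -, hx⟩ := hcan_spec (θ := thJ J (i + 1) q co) hz
    change ¬ hcan (hiN Q J) (thJ J (i + 1) q co) z = 1 at hne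
    have h2 := cost_two (h := hS co i J q) (i := i) hl (by omega)
      (show 2 ≤ hcan (hiN Q J) (thJ J (i + 1) q co) z by omega)
    omega
  refine ⟨h1, ?_⟩
  obtain ⟨x, hzx, hxl, hsc, hcq, h | h | h⟩ := stair_cost_one H hz h1
  · exfalso
    obtain ⟨L, hL⟩ : ∃ L, J - i = L + 2 := ⟨J - i - 2, by omega⟩
    rw [hL, sum_gR] at h
    omega
  · exfalso
    omega
  obtain ⟨hf, hcost, -⟩ := h
  have hcx := cost_one_eq (i := i) (h := hS co i J q) hl (by omega) h1
  -- only one cover
  have hnab : nab J z = 1 := by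
    by_contra hne
    have h2 : 1 ≤ nab J z := one_le_nab (by omega)
    have h3 : ∃ x', z ≤ x' ∧ lev x' = J ∧ x' ≠ x := by
      by_contra hcon
      push Not at hcon
      apply hne
      have h4 : (lv Q J).filter (fun y => z ≤ y) = {x} := by
        ext y
        rw [mem_filter, mem_lv, mem_singleton]
        exact ⟨fun h => hcon y h.2 h.1, fun h => by rw [h]; exact ⟨hxl, hzx.le⟩⟩
      unfold nab
      rw [card_eq_one]
      refine ⟨x, ?_⟩
      rw [← h4]
    obtain ⟨x', hx1, hx2, hx3⟩ := h3
    have h4 := fold_two H hzx.le hx1 hxl hx2 hx3.symm (by omega)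
    have h5 : 2 ≤ nab J z := two_le_nab hzx.le hx1 hxl hx2 hx3.symm
    have h6 : 2 ≤ nab (J - 2) z := by
      refine le_trans ?_ (nab_mono hzx.le)
      exact nab_two H (by omega) (a := (co x).1 - 2) (b := (co x).2) (a' := (co x).1 - 1)
        (b' := (co x).2 - 1) (by omega) (by omega) (by omega) (by omega) (by omega) (by omega)
        (by omega) (by simp only; omega) (by simp only; omega)
    have h7 : 2 ≤ nab (J - 3) z ∨ J = i + 3 := by
      rcases hn with h | h
      · exact Or.inr h.1
      · left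
        refine le_trans ?_ (nab_mono hzx.le)
        exact nab_two H (by omega) (a := (co x).1 - 3) (b := (co x).2) (a' := (co x).1 - 2)
          (b' := (co x).2 - 1) (by omega) (by omega) (by omega) (by omega) (by omega) (by omega)
          (by omega) (by simp only; omega) (by simp only; omega)
    rcases hn with h | h
    · rw [show J - i = 3 by omega, Finset.sum_range_succ, Finset.sum_range_succ,
        Finset.sum_range_succ, Finset.sum_range_zero] at hcx
      simp only [Nat.sub_zero] at hcx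
      omega
    · rw [show J - i = 4 by omega, Finset.sum_range_succ, Finset.sum_range_succ,
        Finset.sum_range_succ, Finset.sum_range_succ, Finset.sum_range_zero] at hcx
      simp only [Nat.sub_zero] at hcx
      omega
  have hnab' : nab (lev x) z = 1 := by
    rw [hxl]
    exact hnab
  have hn1 := nab_of_single H.graded hzx.le hnab' (l := J - 1) (by omega)
  have hn2 := nab_of_single H.graded hzx.le hnab' (l := J - 2) (by omega)
  have hn3 := nab_of_single H.graded hzx.le hnab' (l := J - 3) (by omega)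
  have hn4 := nab_of_single H.graded hzx.le hnab' (l := J - 4) (by omega)
  have up : ∀ k, nab (J - k) x ≤ ((J - k) / 2 + 1) - ((co x).1 - k) := by
    intro k
    exact nab_upper H hxl.le (l := J - k) (lo := (co x).1 - k) (hi := (J - k) / 2 + 1) (by
      intro a ha1 ha2 ha3 ha4
      simp only at ha4
      omega)
  have u1 := up 1
  have u2 := up 2
  have u3 := up 3
  have u4 := up 4
  have lo1 : 1 ≤ nab (J - 1) x := one_le_nab (by omega)
  have lo2 : 2 ≤ nab (J - 2) x := nab_two H (by omega) (a := (co x).1 - 2) (b := (co x).2)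
    (a' := (co x).1 - 1) (b' := (co x).2 - 1) (by omega) (by omega) (by omega) (by omega)
    (by omega) (by omega) (by omega) (by simp only; omega) (by simp only; omega)
  rcases hn with h | h
  · rw [show J - i = 3 by omega, Finset.sum_range_succ, Finset.sum_range_succ,
      Finset.sum_range_succ, Finset.sum_range_zero] at hcx
    simp only [Nat.sub_zero] at hcx
    rw [show J - 2 = i + 1 by omega] at *
    rw [show J - 3 = i by omega] at *
    refine ⟨by omega, by omega, x, hzx, hxl, by omega, hnab⟩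
  · have lo3 : 2 ≤ nab (J - 3) x := nab_two H (by omega) (a := (co x).1 - 3) (b := (co x).2)
      (a' := (co x).1 - 2) (b' := (co x).2 - 1) (by omega) (by omega) (by omega) (by omega)
      (by omega) (by omega) (by omega) (by simp only; omega) (by simp only; omega)
    rw [show J - i = 4 by omega, Finset.sum_range_succ, Finset.sum_range_succ,
      Finset.sum_range_succ, Finset.sum_range_succ, Finset.sum_range_zero] at hcx
    simp only [Nat.sub_zero] at hcx
    rw [show J - 3 = i + 1 by omega] at *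
    rw [show J - 4 = i by omega] at *
    refine ⟨by omega, by omega, x, hzx, hxl, by omega, hnab⟩

/-- STAIRCASES: order one less, all energies -/
theorem Tru.stair_all (H : Tru t (fun c => c.1 ≤ c.2) co i J (i + 1) q) (hT : Two Q)
    (hr : i + 2 ≤ 2 * q) {n : ℕ} (hn : n ≤ 2 * (J - i)) :
    (1 + X : ℤ[X]) ^ (i / 2 + q - i - 1) ∣ Z Q i n := by
  classical
  have hiJ := H.hiJ
  have hlv := H.lv_stair
  by_cases hexc : 2 * (J / 2) = J ∧ ((J = i + 3 ∧ n = 6) ∨ (J = i + 4 ∧ n = 8))
  swap
  · exact H.stair_less hr hn (fun h1 h2 => by omega) (fun h1 h2 => by omega)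
  obtain ⟨hJ, hexc⟩ := hexc
  have hF := H.farT (H.cln_stair hr (n0 := n + 1) (by omega) (fun _ _ => hJ))
  rw [Z_split i (hiN Q J) (hS co i J q) n]
  refine dvd_add ((pow_dvd_pow _ (Nat.sub_le _ _)).trans
    (dvd_ND hF.hlev _ n fun g h1 h2 => hF.clean g h1 h2 n (by omega))) ?_
  set Pd := (bdR (hiN Q J)).filter (fun z => cst i (hS co i J q) z ≤ n) with hPd
  have hP : ∀ z ∈ Pd, _ := fun z hz => fold_pd H (mem_filter.1 hz).1 hJ hexc (mem_filter.1 hz).2
  rw [DG_tm hF.hlev Pd (fun z hz => ⟨(mem_filter.1 hz).1, (hP z hz).1⟩) (fun z hz hz2 => by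
    by_contra hcon
    exact hz2 (mem_filter.2 ⟨hz, by omega⟩))]
  have hlevz : ∀ z ∈ Pd, lev z = J + 1 := fun z hz => bd_lev' H (mem_filter.1 hz).1
  have hK : ∀ z ∈ Pd, i / 2 + q - i - 1 ≤ (Pk i (ez i (hS co i J q) z)).card := by
    intro z hz
    obtain ⟨h1, -, h3, -⟩ := hP z hz
    have h4 := pk_ez (i := i) (h := hS co i J q) (z := z) H.graded
      (by have := hlevz z hz; omega) (by omega)
    rw [h1] at h4
    omega
  have hAdm : ∀ z ∈ Pd, Adm i (ez i (hS co i J q) z) := by
    intro z hz
    have h1 := (hP z hz).1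
    exact adm_ez H.graded (by have := hlevz z hz; omega) (by omega)
  refine dvd_dangerous Pd ?_ ?_
  · intro z hz
    obtain ⟨h1, h2, h3, x, hzx, hxl, hf, hnab⟩ := hP z hz
    have hzl := hlevz z hz
    rw [sum_excite (by omega) h1 h2]
    refine (pow_dvd_pow _ (hK z hz)).trans ?_
    exact dvd_sum_up1 hT (hAdm z hz) (no_mix H.graded (by omega) h1)
      (card_low_up H (by omega) h1 hzx hxl hf hnab)
  · intro z hz z' hz' hne e he h1 h2
    refine dvd_tmZ fun hA => ?_
    obtain ⟨g1, g2, -, -⟩ := hP z hz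
    have hzl := hlevz z hz
    have hzl' := hlevz z' hz'
    rw [mem_piAntidiag] at he
    obtain ⟨v, hv⟩ := exists_up1 (g := ez i (hS co i J q) z) (e := e)
      (ge_ez hA (by omega) g1 h1) (by
        rw [he.1, g2]
        rfl)
    have hvz : v = z' := by
      by_contra hcon
      have h3 : ez i (hS co i J q) z z' = 0 := by
        unfold ez
        rw [if_neg]
        intro h4
        have := lev_strictAnti (lt_of_le_of_ne h4 hne)
        omega
      rw [hv] at h2
      unfold up1 at h2
      rw [h3, if_neg (fun h => hcon h.symm)] at h2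
      omega
    subst hvz
    have hpk := fun x : Q => mem_pk_ez (x := x) H.graded (show i < lev z by omega) g1
    have hno : ∀ x, x ∈ Pk i (ez i (hS co i J q) z) → lev x = J ∨ lev x = J + 2 → False := by
      intro x hx hxl
      rcases (hpk x).1 hx with h3 | h3 <;> omega
    rw [hv] at hA ⊢
    rcases step_cases hT hA with h3 | ⟨-, h3 | h3 | h3 | h3⟩
    · exact (hK z hz).trans h3
    · exfalso
      obtain ⟨x, x', -, h4, -, h5, -⟩ := h3
      have := H.graded.lev_covBy h4
      exact hno x h5 (by omega)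
    · exfalso
      obtain ⟨x, x', -, h4, -, h5, -⟩ := h3
      have := H.graded.lev_covBy h4
      exact hno x h5 (by omega)
    · exact absurd h3 (no_mix H.graded (show i < lev z by omega) g1 v hA).1
    · exact absurd h3 (no_mix H.graded (show i < lev z by omega) g1 v hA).2

end Pool.Agent.GaussPoset

end

/-! From `Pool.Agent.W_448nl_h15.NlJ` -/

section

/-!
# MP_448cb3_co: staircases of odd level with one pendant below the element next to the fold
-/

namespace Pool.Agent.GaussPoset.Nl

set_option linter.unusedSectionVars false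

open Polynomial Finset OrderDual

universe u

variable {Q : Type u} [Fintype Q] [PartialOrder Q] [DecidableEq Q]
variable {t : Q} {T : ℕ × ℕ → Prop} {co : Q → ℕ × ℕ} {i J p q n : ℕ} {z0 xm : Q}

/-- the doubles of the two kinds correspond to each other -/
theorem card_low_up2 (H : Tru t (fun c => c.1 ≤ c.2) co i J (i + 1) q) {h : Q → ℕ} {z xF : Q}
    (hz : J < lev z) (h1 : h z = 1) (hzx : z ≤ xF) (hxl : lev xF = J)
    (hnab : nab J z = 1) :
    (LowS i (ez i h z)).card = (EcUpS i (ez i h z)).card := by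
  classical
  have hiJ := H.hiJ
  have hzi : i < lev z := by omega
  have hpk := fun x : Q => mem_pk_ez (x := x) H.graded hzi h1
  -- everything above `z` is above `xF`
  have habove : ∀ x, z ≤ x → lev x ≤ J → xF ≤ x := by
    intro x hx hxJ
    obtain ⟨w, hw1, hw2, hw3⟩ := exists_between H.graded hx (l := J) hxJ hz.le
    have hwx : w = xF := by
      by_contra hne
      have := two_le_nab hw1 hzx hw3 hxl hne
      omega
    rw [← hwx]
    exact hw2
  have hlow : ∀ v ∈ LowS i (ez i h z), lev v ≤ i + 2 := by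
    intro v hv
    obtain ⟨x, x', -, hvx, -, hx, -⟩ := mem_LowS.1 hv
    have h2 := H.graded.lev_covBy hvx
    rcases (hpk x).1 hx with h3 | h3 <;> omega
  have hup : ∀ v ∈ EcUpS i (ez i h z), lev v ≤ i := by
    intro v hv
    obtain ⟨x, x', -, hvx, -, hx, -⟩ := mem_UpS.1 hv
    have h2 := H.graded.lev_covBy hvx
    rcases (hpk x).1 hx with h3 | h3 <;> omega
  have key : (LowS i (ez i h z)).image co =
      (EcUpS i (ez i h z)).image (fun v => ((co v).1 + 1, (co v).2 + 1)) := by
    ext c
    rw [mem_image, mem_image]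
    constructor
    · rintro ⟨v, hv, rfl⟩
      have hvl := hlow v hv
      obtain ⟨x, x', hne, hvx, hvx', hx, hx', hr, hr'⟩ := mem_LowS.1 hv
      have g1 := H.graded.lev_covBy hvx
      have g2 := H.graded.lev_covBy hvx'
      have g3 := prd_of_cov H (by omega) hvx
      have g4 := prd_of_cov H (by omega) hvx'
      have g5 : co x ≠ co x' := fun h' =>
        hne (H.chart.inj x (mem_loN.2 (by omega)) x' (mem_loN.2 (by omega)) h')
      obtain ⟨g6, g7, g8⟩ := prd_two g3 g4 g5
      have m1 : (co x).1 ≤ (co x).2 := H.chart.mem x (mem_loN.2 (by omega))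
      have m2 : (co x').1 ≤ (co x').2 := H.chart.mem x' (mem_loN.2 (by omega))
      have lv := H.chart.lev v (mem_loN.2 (by omega))
      obtain ⟨v', hv', hcv'⟩ := H.chart.low v (mem_loN.2 (by omega))
        ((co v).1 - 1, (co v).2 - 1) ⟨Nat.sub_le _ _, Nat.sub_le _ _⟩ (by
          simp only
          rcases g8 with ⟨e1, e2⟩ | ⟨e1, e2⟩
          · rw [e2] at m2
            simp only at m2
            omega
          · rw [e2] at m1
            simp only at m1
            omega)
      have lv' := H.chart.lev v' hv'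
      rw [hcv'] at lv'
      simp only at lv'
      refine ⟨v', ?_, ?_⟩
      · rw [mem_UpS]
        have c1 : x ⋖ v' := by
          refine cov_of_prd H (by omega) (by omega) ?_
          rw [hcv']
          rcases g8 with ⟨e1, e2⟩ | ⟨e1, e2⟩
          · rw [e1]
            exact Or.inr ⟨rfl, by simp only; omega⟩
          · rw [e2]
            exact Or.inl ⟨by simp only; omega, rfl⟩
        have c2 : x' ⋖ v' := by
          refine cov_of_prd H (by omega) (by omega) ?_
          rw [hcv']
          rcases g8 with ⟨e1, e2⟩ | ⟨e1, e2⟩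
          · rw [e2]
            exact Or.inl ⟨by simp only; omega, rfl⟩
          · rw [e1]
            exact Or.inr ⟨rfl, by simp only; omega⟩
        have hrho : ∀ y, y ∈ Pk i (ez i h z) → lev y = lev v' + 1 →
            rho i (ez i h z) y = rho i (ez i h z) v' + 1 := by
          intro y hy hyl
          have r1 := (rho_ez1 (i := i) h1 v').2 (by
            rcases (hpk y).1 hy with h3 | h3 <;> omega)
          rcases (hpk y).1 hy with ⟨h3, h4⟩ | ⟨h3, h4⟩
          · have r2 := (rho_ez1 (i := i) h1 y).2 (by omega)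
            omega
          · have r2 := (rho_ez1 (i := i) h1 y).1 h3 (by omega)
            omega
        exact ⟨x, x', hne, c1, c2, hx, hx', hrho x hx (by omega), hrho x' hx' (by omega)⟩
      · rw [hcv']
        exact Prod.ext (by simp only; omega) (by simp only; omega)
    · rintro ⟨v', hv', rfl⟩
      have hvl := hup v' hv'
      obtain ⟨x, x', hne, hvx, hvx', hx, hx', hr, hr'⟩ := mem_UpS.1 hv'
      have g1 := H.graded.lev_covBy hvx
      have g2 := H.graded.lev_covBy hvx'
      have g3 := prd_of_cov H (by omega) hvx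
      have g4 := prd_of_cov H (by omega) hvx'
      have g5 : co x ≠ co x' := fun h' =>
        hne (H.chart.inj x (mem_loN.2 (by omega)) x' (mem_loN.2 (by omega)) h')
      have g8 := prd_two' g3 g4 g5
      have m1 : (co v').1 ≤ (co v').2 := H.chart.mem v' (mem_loN.2 (by omega))
      have lv' := H.chart.lev v' (mem_loN.2 (by omega))
      -- the cell exists
      have hex : ∃ v, lev v ≤ J ∧ co v = ((co v').1 + 1, (co v').2 + 1) ∧
          (lev x = i + 1 → z ≤ v) := by
        rcases (hpk x).1 hx with ⟨h3, h4⟩ | ⟨h3, h4⟩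
        · obtain ⟨v, hv1, hv2⟩ := H.base ((co v').1 + 1) ((co v').2 + 1) (by simp only; omega)
            (by omega) (by
              rcases H.qcl with hq | hq
              · omega
              · rcases g8 with ⟨e1, e2⟩ | ⟨e1, e2⟩
                · have := hq x' (by omega)
                  rw [e2] at this
                  exact this
                · have := hq x (by omega)
                  rw [e2] at this
                  exact this) (by omega)
          exact ⟨v, hv1, hv2, fun h' => by omega⟩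
        · have h5 : z ≤ x' := by
            rcases (hpk x').1 hx' with ⟨h6, h7⟩ | ⟨h6, h7⟩
            · omega
            · exact h6
          have f1 := (H.chart.le_iff xF (mem_loN.2 (by omega)) x (mem_loN.2 (by omega))).1
            (habove x h3 (by omega))
          have f2 := (H.chart.le_iff xF (mem_loN.2 (by omega)) x' (mem_loN.2 (by omega))).1
            (habove x' h5 (by omega))
          have f3 : (co x).1 ≤ (co xF).1 := f1.1
          have f4 : (co x).2 ≤ (co xF).2 := f1.2
          have f5 : (co x').1 ≤ (co xF).1 := f2.1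
          have f6 : (co x').2 ≤ (co xF).2 := f2.2
          obtain ⟨v, hv1, hv2⟩ := H.chart.low xF (mem_loN.2 (by omega))
            ((co v').1 + 1, (co v').2 + 1) (by
              rcases g8 with ⟨e1, e2⟩ | ⟨e1, e2⟩
              · rw [e1] at f3
                rw [e2] at f6
                exact ⟨f3, f6⟩
              · rw [e1] at f5
                rw [e2] at f4
                exact ⟨f5, f4⟩) (by simp only; omega)
          refine ⟨v, mem_loN.1 hv1, hv2, fun _ => hzx.trans ?_⟩
          rw [H.chart.le_iff xF (mem_loN.2 (by omega)) v hv1, hv2]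
          rcases g8 with ⟨e1, e2⟩ | ⟨e1, e2⟩
          · rw [e1] at f3
            rw [e2] at f6
            exact ⟨f3, f6⟩
          · rw [e1] at f5
            rw [e2] at f4
            exact ⟨f5, f4⟩
      obtain ⟨v, hvJ, hcv, hzv⟩ := hex
      have lv := H.chart.lev v (mem_loN.2 hvJ)
      rw [hcv] at lv
      simp only at lv
      refine ⟨v, ?_, hcv⟩
      rw [mem_LowS]
      have c1 : v ⋖ x := by
        refine cov_of_prd H hvJ (by omega) ?_
        rw [hcv]
        rcases g8 with ⟨e1, e2⟩ | ⟨e1, e2⟩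
        · rw [e1]
          exact Or.inr ⟨rfl, rfl⟩
        · rw [e2]
          exact Or.inl ⟨rfl, rfl⟩
      have c2 : v ⋖ x' := by
        refine cov_of_prd H hvJ (by omega) ?_
        rw [hcv]
        rcases g8 with ⟨e1, e2⟩ | ⟨e1, e2⟩
        · rw [e2]
          exact Or.inl ⟨rfl, rfl⟩
        · rw [e1]
          exact Or.inr ⟨rfl, rfl⟩
      have hrho : ∀ y, y ∈ Pk i (ez i h z) → v ⋖ y → lev y = lev x →
          rho i (ez i h z) y = rho i (ez i h z) v := by
        intro y hy hvy hyl
        have g9 := H.graded.lev_covBy hvy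
        rcases (hpk y).1 hy with ⟨h3, h4⟩ | ⟨h3, h4⟩
        · have r2 := (rho_ez1 (i := i) h1 y).2 (by omega)
          have r1 := (rho_ez1 (i := i) h1 v).2 (fun h' => h3 (h'.1.trans hvy.le))
          omega
        · have r2 := (rho_ez1 (i := i) h1 y).1 h3 (by omega)
          have r1 := (rho_ez1 (i := i) h1 v).1 (hzv (by omega)) (by omega)
          omega
      exact ⟨x, x', hne, c1, c2, hx, hx', hrho x hx c1 rfl, hrho x' hx' c2 (by omega)⟩
  have i1 : ((LowS i (ez i h z)).image co).card = (LowS i (ez i h z)).card := by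
    refine card_image_of_injOn ?_
    intro a ha b hb hab
    have e1 := hlow a ha
    have e2 := hlow b hb
    exact H.chart.inj a (mem_loN.2 (by omega)) b (mem_loN.2 (by omega)) hab
  have i2 : ((EcUpS i (ez i h z)).image (fun v => ((co v).1 + 1, (co v).2 + 1))).card =
      (EcUpS i (ez i h z)).card := by
    refine card_image_of_injOn ?_
    intro a ha b hb hab
    have e1 := hup a ha
    have e2 := hup b hb
    simp only [Prod.mk.injEq] at hab
    exact H.chart.inj a (mem_loN.2 (by omega)) b (mem_loN.2 (by omega))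
      (Prod.ext (by omega) (by omega))
  rw [← i1, ← i2, key]

/-- a staircase of odd level `J`, with one pendant `z0` below the element `xm` next to the fold,
no other pendants below free elements -/
structure Odd0 (t : Q) (co : Q → ℕ × ℕ) (i J q : ℕ) (z0 xm : Q) : Prop where
  H : Tru t (fun c => c.1 ≤ c.2) co i J (i + 1) q
  odd : 2 * (J / 2) + 1 = J
  hq2 : J / 2 + 2 ≤ q
  lx : lev xm = J
  cx : co xm = (J / 2, J / 2 + 1)
  zc : z0 ⋖ xm
  one : ∀ x, z0 ⋖ x → x = xm
  np : ∀ z x : Q, lev z = J + 1 → z ⋖ x → (co x).2 < q → (co x).1 + (co x).2 = J → z ≠ z0 →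
    ∃ x', z ⋖ x' ∧ x' ≠ x
  cz : co z0 = (J / 2 + 1, J / 2 + 1)

/-- the levels below `J` without `z0` -/
noncomputable def RZ (J : ℕ) (z0 : Q) : Finset Q := (hiN Q J).erase z0

lemma mem_RZ {x : Q} : x ∈ RZ J z0 ↔ x ≠ z0 ∧ J < lev x := by
  unfold RZ
  rw [mem_erase, mem_hiN]

lemma not_RZ {x : Q} : x ∉ RZ J z0 ↔ x = z0 ∨ lev x ≤ J := by
  rw [mem_RZ]
  constructor
  · intro h
    by_cases h1 : x = z0
    · exact Or.inl h1
    · right
      by_contra h2
      exact h ⟨h1, by omega⟩
  · rintro (h | h) ⟨h1, h2⟩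
    · exact h1 h
    · omega

open Classical in
/-- the thresholds -/
noncomputable def thZ (i J q : ℕ) (co : Q → ℕ × ℕ) (z0 : Q) (x : Q) : ℕ :=
  if x ∈ RZ J z0 then 0 else thE (i + 1) q co x

lemma thZ_out {x : Q} (h : x ∉ RZ J z0) : thZ i J q co z0 x = thE (i + 1) q co x := by
  unfold thZ
  rw [if_neg h]

lemma thZ_pos {x : Q} (h : 1 ≤ thZ i J q co z0 x) : x ∉ RZ J z0 := by
  intro h1
  unfold thZ at h
  rw [if_pos h1] at h
  omega

namespace Odd0

variable (O : Odd0 t co i J q z0 xm)
include O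

lemma lz : lev z0 = J + 1 := by
  have h1 := O.H.graded.lev_covBy O.zc
  have h2 := O.lx
  omega

lemma lowR {x y : Q} (hxy : x ≤ y) (hy : y ∈ RZ J z0) : x ∈ RZ J z0 := by
  have hz := O.lz
  rw [mem_RZ] at hy ⊢
  have h1 := lev_le_of_le hxy
  refine ⟨?_, by omega⟩
  rintro rfl
  rcases eq_or_lt_of_le hxy with h2 | h2
  · exact hy.1 h2.symm
  · have := lev_strictAnti h2
    omega

lemma upR {x y : Q} (hxy : x ≤ y) (hx : x ∉ RZ J z0) : y ∉ RZ J z0 := fun h => hx (O.lowR hxy h)

/-- everything above `z0` is above `xm` -/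
lemma above {y : Q} (h : z0 ≤ y) : y = z0 ∨ xm ≤ y := by
  rcases eq_or_lt_of_le h with h1 | h1
  · exact Or.inl h1.symm
  · obtain ⟨w, hw, hwy⟩ := exists_covBy_le h1
    rw [← O.one w hw]
    exact Or.inr hwy

/-- the chart off `R` -/
lemma chart : Chart t (fun c => c.1 ≤ c.2) (RZ J z0)ᶜ co := by
  have hz := O.lz
  have hcz := O.cz
  have hcx := O.cx
  have hodd := O.odd
  have CH := O.H.chart
  have cases : ∀ x, x ∈ (RZ J z0)ᶜ → x = z0 ∨ lev x ≤ J := by
    intro x hx
    rw [mem_compl, not_RZ] at hx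
    exact hx
  have sm : ∀ x, lev x ≤ J → (co x).1 + (co x).2 ≤ J := by
    intro x hx
    have := CH.lev x (mem_loN.2 hx)
    omega
  have ml : xm ∈ loN Q J := mem_loN.2 O.lx.le
  refine ⟨?_, ?_, ?_, ?_, ?_, ?_, ?_⟩
  · intro x hx y hxy
    rw [mem_compl] at hx ⊢
    exact O.upR hxy hx
  · intro x hx
    rcases cases x hx with rfl | h
    · exact O.zc.le.trans (CH.le_t xm ml)
    · exact CH.le_t x (mem_loN.2 h)
  · intro x hx y hy hxy
    rcases cases x hx with rfl | h
    · rcases cases y hy with rfl | h'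
      · rfl
      · exfalso
        have := sm y h'
        rw [← hxy, hcz] at this
        simp only at this
        omega
    · rcases cases y hy with rfl | h'
      · exfalso
        have := sm x h
        rw [hxy, hcz] at this
        simp only at this
        omega
      · exact CH.inj x (mem_loN.2 h) y (mem_loN.2 h') hxy
  · intro x hx y hy
    rcases cases x hx with rfl | h
    · rcases cases y hy with rfl | h'
      · exact ⟨fun _ => le_rfl, fun _ => le_rfl⟩
      · have k1 := CH.le_iff xm ml y (mem_loN.2 h')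
        have k2 := sm y h'
        have k3 : (co y).1 ≤ (co y).2 := CH.mem y (mem_loN.2 h')
        constructor
        · intro h1
          rcases O.above h1 with rfl | h2
          · omega
          · have k4 := k1.1 h2
            rw [hcx] at k4
            rw [hcz]
            have k5 : (co y).1 ≤ J / 2 := k4.1
            have k6 : (co y).2 ≤ J / 2 + 1 := k4.2
            exact ⟨by simp only; omega, by simp only; omega⟩
        · intro h1
          rw [hcz] at h1
          have k5 : (co y).1 ≤ J / 2 + 1 := h1.1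
          have k6 : (co y).2 ≤ J / 2 + 1 := h1.2
          refine O.zc.le.trans (k1.2 ?_)
          rw [hcx]
          exact ⟨by simp only; omega, by simp only; omega⟩
    · rcases cases y hy with rfl | h'
      · constructor
        · intro h1
          have := lev_le_of_le h1
          omega
        · intro h1
          exfalso
          have k2 := sm x h
          have k5 : (co y).1 ≤ (co x).1 := h1.1
          have k6 : (co y).2 ≤ (co x).2 := h1.2
          rw [hcz] at k5 k6
          simp only at k5 k6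
          omega
      · exact CH.le_iff x (mem_loN.2 h) y (mem_loN.2 h')
  · intro x hx
    rcases cases x hx with rfl | h
    · rw [hcz]
    · exact CH.mem x (mem_loN.2 h)
  · intro x hx c hc hT
    rcases cases x hx with rfl | h
    · by_cases h1 : c = (J / 2 + 1, J / 2 + 1)
      · exact ⟨x, hx, by rw [hcz, h1]⟩
      · rw [hcz] at hc
        have k5 : c.1 ≤ J / 2 + 1 := hc.1
        have k6 : c.2 ≤ J / 2 + 1 := hc.2
        have k7 : c.1 ≤ J / 2 := by
          by_contra hcon
          exact h1 (Prod.ext (by simp only; omega) (by simp only; omega))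
        obtain ⟨y, hy, hcy⟩ := CH.low xm ml c (by
          rw [hcx]
          exact ⟨k7, k6⟩) hT
        refine ⟨y, ?_, hcy⟩
        rw [mem_compl, not_RZ]
        exact Or.inr (mem_loN.1 hy)
    · obtain ⟨y, hy, hcy⟩ := CH.low x (mem_loN.2 h) c hc hT
      refine ⟨y, ?_, hcy⟩
      rw [mem_compl, not_RZ]
      exact Or.inr (mem_loN.1 hy)
  · intro x hx
    rcases cases x hx with rfl | h
    · rw [hcz, hz]
      simp only
      omega
    · exact CH.lev x (mem_loN.2 h)

lemma qcl : q = i + 1 ∨ ∀ x, x ∉ RZ J z0 → (co x).2 < q := by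
  have h2 := O.hq2
  rcases O.H.qcl with h | h
  · exact Or.inl h
  · right
    intro x hx
    rcases not_RZ.1 hx with rfl | h1
    · rw [O.cz]
      simp only
      omega
    · exact h x h1

lemma mono {x y : Q} (hxy : x ≤ y) (hx : x ∉ RZ J z0) :
    thE (i + 1) q co y ≤ thE (i + 1) q co x := by
  have hy := O.upR hxy hx
  have h1 := (O.chart.le_iff x (mem_compl.2 hx) y (mem_compl.2 hy)).1 hxy
  have h2 : (co y).1 ≤ (co x).1 := h1.1
  have h3 : (co y).2 ≤ (co x).2 := h1.2
  unfold thE
  omega

lemma lev_pos {x : Q} (hx : x ∉ RZ J z0) (h : 1 ≤ thE (i + 1) q co x) : i < lev x := by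
  have h1 := O.chart.lev x (mem_compl.2 hx)
  unfold thE at h
  rcases O.qcl with h3 | h3
  · omega
  · have := h3 x hx
    omega

lemma le_sub {x : Q} (hx : x ∉ RZ J z0) : thE (i + 1) q co x ≤ lev x - i := by
  have h1 := O.chart.lev x (mem_compl.2 hx)
  unfold thE
  rcases O.qcl with h3 | h3
  · omega
  · have := h3 x hx
    omega

/-- cleanness off the lower sets -/
def ClnZ (Q : Type u) [Fintype Q] [PartialOrder Q] [DecidableEq Q] (co : Q → ℕ × ℕ)
    (i J q : ℕ) (z0 : Q) (b n0 : ℕ) : Prop :=
  ∀ D : Finset Q, (∀ x y, x ≤ y → y ∈ D → x ∈ D) → RZ J z0 ⊆ D → (∀ x ∈ D, i < lev x) →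
    (∀ x ∈ D, x ∉ RZ J z0 → 1 ≤ thE (i + 1) q co x) → ∀ n < n0,
      (1 + X : ℤ[X]) ^ b ∣ Z {x : Q // x ∉ D} i n

theorem farT {b n0 : ℕ} (hc : ClnZ Q co i J q z0 b n0) :
    FarT Q i (RZ J z0) b (hcan (RZ J z0) (thZ i J q co z0)) n0 := by
  classical
  have hiJ := O.H.hiJ
  have hR : ∀ x y : Q, x ≤ y → y ∈ RZ J z0 → x ∈ RZ J z0 := fun x y h1 h2 => O.lowR h1 h2
  have hRl : ∀ x ∈ RZ J z0, i < lev x := by
    intro x hx
    rw [mem_RZ] at hx
    omega
  let DD : Set (Finset Q) := {D | (∀ x y, x ≤ y → y ∈ D → x ∈ D) ∧ RZ J z0 ⊆ D ∧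
    (∀ x ∈ D, i < lev x) ∧ ∀ x ∈ D, x ∉ RZ J z0 → 1 ≤ thE (i + 1) q co x}
  have hRD : RZ J z0 ∈ DD := ⟨hR, Subset.refl _, hRl, fun x hx hx2 => absurd hx hx2⟩
  have hbound := dvd_ZB_bounds_lt i ((1 + X : ℤ[X]) ^ b) n0 DD (thZ i J q co z0)
    (fun D hD => hD.1) (fun D hD => hD.2.2.1) (fun x hx => by
      have h1 := thZ_pos hx
      rw [thZ_out h1] at hx
      exact O.lev_pos h1 hx) (fun D hD n hn => by
      rw [ZB_off hD.1 hD.2.2.1]
      exact hc D hD.1 hD.2.1 hD.2.2.1 hD.2.2.2 n hn) (by
      intro D hD x hx hθ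
      have h1 := thZ_pos hθ
      rw [thZ_out h1] at hθ
      have h2 := O.lev_pos h1 hθ
      refine ⟨?_, hD.2.1.trans subset_union_left, ?_, ?_⟩
      · intro a c hac hc
        rw [mem_union, mem_dnf] at hc ⊢
        rcases hc with hc | hc
        · exact Or.inl (hD.1 a c hac hc)
        · exact Or.inr (hac.trans hc)
      · intro a ha
        rw [mem_union, mem_dnf] at ha
        rcases ha with ha | ha
        · exact hD.2.2.1 a ha
        · exact h2.trans_le (lev_le_of_le ha)
      · intro a ha haJ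
        rw [mem_union, mem_dnf] at ha
        rcases ha with ha | ha
        · exact hD.2.2.2 a ha haJ
        · exact hθ.trans (O.mono ha haJ)) (by
      intro D hD x hx hθ y hyx hyD x' hyx' hx'x
      have h1 := thZ_pos hθ
      have hyJ : y ∉ RZ J z0 := fun h => hyD (hD.2.1 h)
      have hx'J : x' ∉ RZ J z0 := O.upR hyx'.le hyJ
      rw [thZ_out h1, thZ_out hx'J]
      have e1 := (O.chart.le_iff y (mem_compl.2 hyJ) x (mem_compl.2 h1)).1 hyx
      have e2 := (O.chart.le_iff y (mem_compl.2 hyJ) x' (mem_compl.2 hx'J)).1 hyx'.le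
      have e3 : ¬ co x ≤ co x' := fun h =>
        hx'x ((O.chart.le_iff x' (mem_compl.2 hx'J) x (mem_compl.2 h1)).2 h)
      have e4 := O.chart.lev y (mem_compl.2 hyJ)
      have e5 := O.chart.lev x' (mem_compl.2 hx'J)
      have e6 := O.H.graded.lev_covBy hyx'
      have e7 : (co x).1 ≤ (co y).1 := e1.1
      have e8 : (co x).2 ≤ (co y).2 := e1.2
      have e9 : (co x').1 ≤ (co y).1 := e2.1
      have e10 : (co x').2 ≤ (co y).2 := e2.2
      have e11 : ¬ ((co x).1 ≤ (co x').1 ∧ (co x).2 ≤ (co x').2) := e3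
      unfold thE
      omega)
  refine ⟨O.H.graded, hRl, ?_, ?_, ?_⟩
  · intro g hg0 hg n hn
    refine dvd_ZB_labels_lt i _ n0 DD (thZ i J q co z0) (fun D hD => hD.1)
      (fun D hD => hD.2.2.1) hbound hRD g hg0 ?_ n hn
    intro y hy x hx hyx
    have h1 : y ∈ bdR (RZ J z0) := mem_filter.mpr ⟨hy, x, hx, hyx⟩
    have h2 := hg y h1
    have h3 := hcan_le (θ := thZ i J q co z0) hx hyx
    omega
  · intro z hz
    obtain ⟨x, -, -, hx⟩ := hcan_spec (θ := thZ i J q co z0) hz
    omega
  · intro z hz
    obtain ⟨x, hxR, hzx, hx⟩ := hcan_spec (θ := thZ i J q co z0) hz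
    have h1 := O.H.graded.lev_covBy hzx
    have h2 := O.le_sub hxR
    rw [thZ_out hxR] at hx
    have h3 := hRl z (mem_filter.mp hz).1
    omega

/-- the shapes are clean -/
theorem cln (hr : i + 2 ≤ 2 * q) {n0 : ℕ} (hn0 : n0 ≤ 2 * (J - i) + 3) :
    ClnZ Q co i J q z0 (i / 2 + q - i) n0 := by
  classical
  intro D hD hRD hDi hDθ n hn
  have hiJ := O.H.hiJ
  have hq := O.H.hq
  have hq2 := O.hq2
  have hodd := O.odd
  have CH := O.chart
  have h1 : ∀ x : {x : Q // x ∉ D}, (x : Q) ∉ RZ J z0 := fun x h => x.2 (hRD h)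
  have hz0 : z0 ∉ D := by
    intro h
    have h2 := hDθ z0 h (not_RZ.2 (Or.inl rfl))
    unfold thE at h2
    rw [O.cz] at h2
    simp only at h2
    omega
  refine stair_trunc2 (fun x : {x : Q // x ∉ D} => co (x : Q)) ?_
    (fun x => CH.mem x (mem_compl.2 (h1 x))) ?_ ?_ hq hr hiJ ?_ ?_ (by omega) ?_
  · intro x y h
    exact Subtype.ext (CH.inj x (mem_compl.2 (h1 x)) y (mem_compl.2 (h1 y)) h)
  · intro x y
    rw [← CH.le_iff x (mem_compl.2 (h1 x)) y (mem_compl.2 (h1 y))]
    exact Iff.rfl
  · intro x c hc hT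
    obtain ⟨y, hy, hcy⟩ := CH.low x (mem_compl.2 (h1 x)) c hc hT
    have h2 : (x : Q) ≤ y := by
      rw [CH.le_iff x (mem_compl.2 (h1 x)) y hy, hcy]
      exact hc
    exact ⟨⟨y, fun h => x.2 (hD _ _ h2 h)⟩, hcy⟩
  · rcases O.qcl with h | h
    · exact Or.inl h
    · exact Or.inr fun x => h x (h1 x)
  · intro s c hsc hc hJ
    obtain ⟨x, hx, hcx⟩ := O.H.base s c hsc (by omega) hc hJ
    refine ⟨⟨x, fun h => ?_⟩, hcx⟩
    have h2 := hDθ x h (not_RZ.2 (Or.inr hx))
    unfold thE at h2
    rw [hcx] at h2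
    simp only at h2
    omega
  · intro s c hsc hc hno hE
    unfold Exc at hE
    rcases hE with ⟨e1, e2, e3⟩ | ⟨e1, e2, e3⟩
    · refine hno ⟨z0, hz0⟩ ?_
      rw [O.cz]
      exact Prod.ext (by simp only; omega) (by simp only; omega)
    · omega

end Odd0

end Pool.Agent.GaussPoset.Nl

end
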