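import Mathlib
import Pool.Agent.W_448zz_h61.Ns
import Pool.Agent.W_448zz_h61.M046
import Pool.Agent.W_448zz_h61.M117

/-! From `Pool.Agent.W_MP_448cb3_h96.MainB` -/

section

namespace Pool.Agent.GaussPoset

set_option linter.unusedSectionVars false

open Polynomial Finset

universe u

variable {P : Type u} [Fintype P] [PartialOrder P] [DecidableEq P] {r j : ℕ}

open Classical in
/-- common neighbours of two sites -/
noncomputable def nbs (a b : P) : Finset P := univ.filter (fun g => adjS g a ∧ adjS g b)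

/-- signed number of common neighbours -/
noncomputable def Sg (j : ℕ) (a b : P) : ℤ := ∑ g ∈ nbs a b, sg j g

lemma mem_nbs {a b g : P} : g ∈ nbs a b ↔ adjS g a ∧ adjS g b := by
  classical
  unfold nbs; simp

/-- derivative at `-1` -/
noncomputable def dev (f : ℤ[X]) : ℤ := (derivative f).eval (-1)

lemma dev_add (f g : ℤ[X]) : dev (f + g) = dev f + dev g := by
  unfold dev; simp

lemma dev_zero : dev (0 : ℤ[X]) = 0 := by
  unfold dev; simp

lemma dev_sum {ι : Type*} (s : Finset ι) (f : ι → ℤ[X]) :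
    dev (∑ i ∈ s, f i) = ∑ i ∈ s, dev (f i) := by
  classical
  induction s using Finset.induction_on with
  | empty => simp [dev_zero]
  | insert a s ha ih => rw [Finset.sum_insert ha, Finset.sum_insert ha, dev_add, ih]

lemma dev_term (n k : ℕ) (hk : k ≠ 0) :
    dev ((X : ℤ[X]) ^ n * (1 + X) ^ k) = if k = 1 then (-1) ^ n else 0 := by
  unfold dev
  obtain ⟨k, rfl⟩ := Nat.exists_eq_succ_of_ne_zero hk
  rw [derivative_mul, eval_add, eval_mul, eval_mul, derivative_pow (1 + X : ℤ[X])]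
  simp only [eval_pow, eval_add, eval_one, eval_X, eval_mul, derivative_add, derivative_one,
    derivative_X, zero_add, Nat.succ_eq_add_one, Nat.add_sub_cancel, mul_one, map_natCast]
  rcases k with _ | k
  · simp
  · simp

lemma dev_dvd {k : ℕ} (hk : 2 ≤ k) {f : ℤ[X]} (h : (1 + X : ℤ[X]) ^ k ∣ f) : dev f = 0 := by
  obtain ⟨g, rfl⟩ := h
  unfold dev
  obtain ⟨k, rfl⟩ := Nat.exists_eq_add_of_le hk
  rw [derivative_mul, eval_add, eval_mul, eval_mul, derivative_pow (1 + X : ℤ[X])]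
  simp [show 2 + k - 1 = k + 1 by omega]

open Classical in
/-- the energy three configurations with one peak -/
noncomputable def EE (P : Type u) [Fintype P] [PartialOrder P] [DecidableEq P] (j : ℕ) :
    Finset (P → ℕ) :=
  ((univ : Finset P).piAntidiag 3).filter (fun e => Adm j e ∧ (Pk j e).card = 1)

lemma sum_EE (H : Gr P r) (h3 : (lv P j).card = 3) : ∑ e ∈ EE P j, (-1 : ℤ) ^ (nf j e) = 0 := by
  classical
  have h1 : dev (Z P j 3) = 0 := by
    apply dev_dvd (k := 3) (by norm_num)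
    have h := dvd_Z H.gauss j 3
    rw [h3] at h
    exact h
  unfold Z at h1
  rw [dev_sum] at h1
  unfold EE
  rw [Finset.sum_filter]
  refine Eq.trans (Finset.sum_congr rfl fun e he => ?_) h1
  rw [mem_piAntidiag] at he
  by_cases hA : Adm j e
  · rw [if_pos hA]
    have hpk : (Pk j e).card ≠ 0 := by
      intro h0
      obtain ⟨v0, v1, v2, g, g', l0, l1, l2, n01, n02, n12, a1, a2, a3, a4, he2⟩ :=
        classify H hA he.1 h3 (by omega)
      obtain ⟨a, b, c, hab, hac, hbc, habc⟩ := Finset.card_eq_three.mp h3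
      have S : Star j v0 v1 v2 g g' := ⟨l0, l1, l2, n01, n02, n12, by
        intro s hs
        have h4 : ({v0, v1, v2} : Finset P) = lv P j := by
          apply Finset.eq_of_subset_of_card_le
          · intro x hx
            simp only [mem_insert, mem_singleton] at hx
            rw [mem_lv]
            rcases hx with rfl | rfl | rfl <;> assumption
          · rw [h3, Finset.card_eq_three.mpr ⟨v0, v1, v2, n01, n02, n12, rfl⟩]
        rw [← mem_lv, ← h4] at hs
        simpa using hs, a1, a2, a3, a4⟩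
      have := S.pk H
      rw [← he2] at this
      rw [this, Finset.card_singleton] at h0
      omega
    rw [dev_term _ _ hpk]
    by_cases h2 : (Pk j e).card = 1
    · rw [if_pos h2, if_pos ⟨hA, h2⟩]
    · rw [if_neg h2, if_neg (fun h => h2 h.2)]
  · rw [if_neg hA, if_neg (fun h => hA h.1), dev_zero]

lemma sum_e3 (H : Gr P r) {a b c g g' : P} (S : Star j a b c g g') :
    ∑ x, e3 a g g' x = 3 := by
  classical
  unfold e3
  rw [Finset.sum_boole]
  have h1 : (univ.filter (fun x => x = a ∨ x = g ∨ x = g')) = {a, g, g'} := by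
    ext x; simp
  have h2 : a ≠ g' := by
    rintro rfl
    exact adj_ne H S.g3 S.la S.la
  rw [h1, Finset.card_eq_three.mpr ⟨a, g, g', S.off H, h2, S.ne H, rfl⟩]
  rfl

/-- the hypotheses on three sites -/
structure Tri (j : ℕ) (a b c : P) : Prop where
  la : lev a = j
  lb : lev b = j
  lc : lev c = j
  hab : a ≠ b
  hac : a ≠ c
  hbc : b ≠ c
  hall : ∀ s : P, lev s = j → s = a ∨ s = b ∨ s = c

lemma Tri.star {a b c g g' : P} (T : Tri j a b c) (h1 : g ∈ nbs a b) (h2 : g' ∈ nbs a c) :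
    Star j a b c g g' := by
  rw [mem_nbs] at h1 h2
  exact ⟨T.la, T.lb, T.lc, T.hab, T.hac, T.hbc, T.hall, h1.1, h1.2, h2.1, h2.2⟩

lemma Tri.card {a b c : P} (T : Tri j a b c) : (lv P j).card = 3 := by
  classical
  rw [Finset.card_eq_three]
  refine ⟨a, b, c, T.hab, T.hac, T.hbc, ?_⟩
  ext x
  rw [mem_lv, mem_insert, mem_insert, mem_singleton]
  constructor
  · exact T.hall x
  · rintro (rfl | rfl | rfl)
    · exact T.la
    · exact T.lb
    · exact T.lc

lemma sum_center (H : Gr P r) {a b c : P} (T : Tri j a b c) :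
    ∑ e ∈ (EE P j).filter (fun e => e a = 1), (-1 : ℤ) ^ (nf j e) =
      (-1) ^ (below P j) * (Sg j a b * Sg j a c) := by
  classical
  symm
  unfold Sg
  rw [Finset.sum_mul_sum, ← Finset.sum_product', Finset.mul_sum]
  refine Finset.sum_bij (fun p _ => e3 a p.1 p.2) ?_ ?_ ?_ ?_
  · rintro ⟨g, g'⟩ hp
    rw [mem_product] at hp
    have S := T.star hp.1 hp.2
    rw [mem_filter]
    unfold EE
    rw [mem_filter, mem_piAntidiag]
    refine ⟨⟨⟨sum_e3 H S, fun _ _ => mem_univ _⟩, S.adm H, ?_⟩, e3_eq_one (Or.inl rfl)⟩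
    rw [S.pk H, Finset.card_singleton]
  · rintro ⟨g, g'⟩ hp ⟨h, h'⟩ hq heq
    rw [mem_product] at hp hq
    have S := T.star hp.1 hp.2
    have S' := T.star hq.1 hq.2
    have heq' : e3 a g g' = e3 a h h' := heq
    have h1 : g = a ∨ g = h ∨ g = h' := by
      apply e3_pos (a := a) (g := h) (g' := h')
      rw [← heq', e3_eq_one (Or.inr (Or.inl rfl))]
    have h2 : g' = a ∨ g' = h ∨ g' = h' := by
      apply e3_pos (a := a) (g := h) (g' := h')
      rw [← heq', e3_eq_one (Or.inr (Or.inr rfl))]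
    have h3 : g = h := by
      rcases h1 with h1 | h1 | h1
      · exact absurd h1.symm (S.off H)
      · exact h1
      · exfalso
        have S'' := T.star hp.1 hq.2
        exact S''.ne H h1
    have h4 : g' = h' := by
      rcases h2 with h2 | h2 | h2
      · exfalso
        subst h2
        exact adj_ne H S.g3 S.la S.la
      · exfalso
        have S'' := T.star hq.1 hp.2
        exact S''.ne H h2.symm
      · exact h2
    rw [h3, h4]
  · intro e he
    rw [mem_filter] at he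
    obtain ⟨he1, he2⟩ := he
    unfold EE at he1
    rw [mem_filter, mem_piAntidiag] at he1
    obtain ⟨⟨hs, -⟩, hA, hpk⟩ := he1
    obtain ⟨v0, v1, v2, g, g', l0, l1, l2, n01, n02, n12, a1, a2, a3, a4, hee⟩ :=
      classify H hA hs T.card (by omega)
    have hv0 : a = v0 := by
      have h1 : a = v0 ∨ a = g ∨ a = g' := by
        apply e3_pos (a := v0) (g := g) (g' := g')
        rw [← hee, he2]
      rcases h1 with h1 | h1 | h1
      · exact h1
      · subst h1; exact absurd T.la (adj_ne H a1 l0)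
      · subst h1; exact absurd T.la (adj_ne H a3 l0)
    subst hv0
    rcases T.hall v1 l1 with h1 | h1 | h1
    · exact absurd h1.symm n01
    · rcases T.hall v2 l2 with h2 | h2 | h2
      · exact absurd h2.symm n02
      · exact absurd (h1.trans h2.symm) n12
      · subst h1; subst h2
        exact ⟨(g, g'), mem_product.mpr ⟨mem_nbs.mpr ⟨a1, a2⟩, mem_nbs.mpr ⟨a3, a4⟩⟩, hee.symm⟩
    · rcases T.hall v2 l2 with h2 | h2 | h2
      · exact absurd h2.symm n02
      · subst h1; subst h2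
        refine ⟨(g', g), mem_product.mpr ⟨mem_nbs.mpr ⟨a3, a4⟩, mem_nbs.mpr ⟨a1, a2⟩⟩, ?_⟩
        change e3 a g' g = e
        rw [e3_swap, hee]
      · exact absurd (h1.trans h2.symm) n12
  · rintro ⟨g, g'⟩ hp
    rw [mem_product] at hp
    have S := T.star hp.1 hp.2
    exact (S.nf_sign H).symm

lemma Tri.perm1 {a b c : P} (T : Tri j a b c) : Tri j b a c :=
  ⟨T.lb, T.la, T.lc, T.hab.symm, T.hbc, T.hac, fun s hs => by
    rcases T.hall s hs with h | h | h
    · exact Or.inr (Or.inl h)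
    · exact Or.inl h
    · exact Or.inr (Or.inr h)⟩

lemma Tri.perm2 {a b c : P} (T : Tri j a b c) : Tri j c a b :=
  ⟨T.lc, T.la, T.lb, T.hac.symm, T.hbc.symm, T.hab, fun s hs => by
    rcases T.hall s hs with h | h | h
    · exact Or.inr (Or.inl h)
    · exact Or.inr (Or.inr h)
    · exact Or.inl h⟩

lemma Sg_comm (a b : P) : Sg j a b = Sg j b a := by
  classical
  unfold Sg
  have : nbs a b = nbs b a := by
    ext g
    rw [mem_nbs, mem_nbs]
    tauto
  rw [this]

lemma quad (H : Gr P r) {a b c : P} (T : Tri j a b c) :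
    Sg j a b * Sg j a c + Sg j a b * Sg j b c + Sg j a c * Sg j b c = 0 := by
  classical
  have h0 := sum_EE H T.card
  have h1 := sum_center H T
  have h2 := sum_center H T.perm1
  have h3 := sum_center H T.perm2
  have hsplit : ∑ e ∈ EE P j, (-1 : ℤ) ^ (nf j e) =
      ∑ e ∈ (EE P j).filter (fun e => e a = 1), (-1 : ℤ) ^ (nf j e) +
      ∑ e ∈ (EE P j).filter (fun e => e b = 1), (-1 : ℤ) ^ (nf j e) +
      ∑ e ∈ (EE P j).filter (fun e => e c = 1), (-1 : ℤ) ^ (nf j e) := by
    rw [Finset.sum_filter, Finset.sum_filter, Finset.sum_filter, ← Finset.sum_add_distrib,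
      ← Finset.sum_add_distrib]
    refine Finset.sum_congr rfl fun e he => ?_
    unfold EE at he
    rw [mem_filter, mem_piAntidiag] at he
    obtain ⟨⟨hs, -⟩, hA, hpk⟩ := he
    obtain ⟨v0, v1, v2, g, g', l0, l1, l2, n01, n02, n12, a1, a2, a3, a4, hee⟩ :=
      classify H hA hs T.card (by omega)
    have key : ∀ s : P, lev s = j → (e s = 1 ↔ s = v0) := by
      intro s hls
      constructor
      · intro h
        have h1 : s = v0 ∨ s = g ∨ s = g' := by
          apply e3_pos (a := v0) (g := g) (g' := g')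
          rw [← hee, h]
        rcases h1 with h1 | h1 | h1
        · exact h1
        · subst h1; exact absurd hls (adj_ne H a1 l0)
        · subst h1; exact absurd hls (adj_ne H a3 l0)
      · rintro rfl
        rw [hee]; exact e3_eq_one (Or.inl rfl)
    rw [if_congr (key a T.la) rfl rfl, if_congr (key b T.lb) rfl rfl,
      if_congr (key c T.lc) rfl rfl]
    rcases T.hall v0 l0 with h | h | h
    · subst h
      rw [if_pos rfl, if_neg T.hab.symm, if_neg T.hac.symm]; ring
    · subst h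
      rw [if_neg T.hab, if_pos rfl, if_neg T.hbc.symm]; ring
    · subst h
      rw [if_neg T.hac, if_neg T.hbc, if_pos rfl]; ring
  rw [hsplit, h1, h2, h3, Sg_comm b a, Sg_comm c a, Sg_comm c b, ← mul_add, ← mul_add] at h0
  have hne : ((-1 : ℤ) ^ (below P j)) ≠ 0 := pow_ne_zero _ (by norm_num)
  exact (mul_eq_zero.mp h0).resolve_left hne

lemma ucv_zero_of_lev (H : Gr P r) {v v' : P} (h : lev v ≠ lev v') : ucv v v' = dcv v v' := by
  classical
  unfold ucv dcv
  have e1 : univ.filter (fun y : P => v ⋖ y ∧ v' ⋖ y) = ∅ := by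
    rw [Finset.filter_eq_empty_iff]
    rintro y _ ⟨h1, h2⟩
    have := (H.covBy_iff.mp h1).2
    have := (H.covBy_iff.mp h2).2
    omega
  have e2 : univ.filter (fun y : P => y ⋖ v ∧ y ⋖ v') = ∅ := by
    rw [Finset.filter_eq_empty_iff]
    rintro y _ ⟨h1, h2⟩
    have := (H.covBy_iff.mp h1).2
    have := (H.covBy_iff.mp h2).2
    omega
  rw [e1, e2]

end Pool.Agent.GaussPoset

end

/-! From `Pool.Agent.W_448p6_h15.PA` -/

section

/-!
(6,4) at the window `j` (MP_448cb3_co, case B): algebra of the profiles with the number of deficits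
`0, 0, 1, 2, 2, 3, 4` at the energies `0, ..., 6`.
-/

set_option autoImplicit false

namespace Pool.Agent.GaussPoset.Win.I2

set_option linter.unusedSectionVars false

open Finset

/-- number of deficits allowed at the energy `n`: `0, 0, 1, 2, 2, 3, 4` -/
def gd (n : ℕ) : ℕ :=
  if n < 2 then 0 else if n < 3 then 1 else if n < 5 then 2 else if n < 6 then 3 else 4

/-- profile of a window series with the deficits `0, 0, 1, 2, 2, 3, 4` -/
def PG (b : ℕ) (V : PowerSeries A) : Prop :=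
  ∀ n, n ≤ 6 → dd ^ b ∣ dd ^ gd n * PowerSeries.coeff n V

/-- the leading coefficient at the energy three -/
noncomputable def w3 (b : ℕ) (V : PowerSeries A) : ℤ :=
  PowerSeries.coeff b (dd ^ 2 * PowerSeries.coeff 3 V : A)

/-- the leading coefficient at the energy six -/
noncomputable def w6 (b : ℕ) (V : PowerSeries A) : ℤ :=
  PowerSeries.coeff b (dd ^ 4 * PowerSeries.coeff 6 V : A)

/-- the leading coefficient at the energy `n` -/
noncomputable def cg (n b : ℕ) (V : PowerSeries A) : ℤ :=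
  PowerSeries.coeff b (dd ^ gd n * PowerSeries.coeff n V : A)

lemma cg_zero (b : ℕ) (V : PowerSeries A) : cg 0 b V = eps b V := by
  unfold cg eps gd
  simp

lemma cg_three (b : ℕ) (V : PowerSeries A) : cg 3 b V = w3 b V := by
  unfold cg w3 gd
  simp

lemma cg_six (b : ℕ) (V : PowerSeries A) : cg 6 b V = w6 b V := by
  unfold cg w6 gd
  simp

lemma gd_add {i j : ℕ} (h : i + j ≤ 6) : gd i + gd j ≤ gd (i + j) := by
  unfold gd
  split_ifs <;> omega

lemma PG_one : PG 0 (1 : PowerSeries A) := by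
  intro n _
  rw [pow_zero]
  exact one_dvd _

/-- the profile is multiplicative -/
theorem PG.mul {b b' : ℕ} {V V' : PowerSeries A} (h : PG b V) (h' : PG b' V') :
    PG (b + b') (V * V') := by
  intro n hn
  rw [PowerSeries.coeff_mul, Finset.mul_sum]
  refine Finset.dvd_sum ?_
  rintro ⟨i, j⟩ hij
  rw [Finset.HasAntidiagonal.mem_antidiagonal] at hij
  simp only at hij ⊢
  subst hij
  have h1 := gd_add hn
  have h2 : dd ^ gd (i + j) * (PowerSeries.coeff i V * PowerSeries.coeff j V') =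
      dd ^ (gd (i + j) - (gd i + gd j)) *
        ((dd ^ gd i * PowerSeries.coeff i V) * (dd ^ gd j * PowerSeries.coeff j V')) := by
    have h3 : (dd : A) ^ gd (i + j) = dd ^ (gd (i + j) - (gd i + gd j)) * (dd ^ gd i * dd ^ gd j) := by
      rw [← pow_add, ← pow_add]
      congr 1
      omega
    rw [h3]
    ring
  rw [h2, pow_add]
  exact dvd_mul_of_dvd_right (mul_dvd_mul (h i (by omega)) (h' j (by omega))) _

theorem cg_mul {b b' : ℕ} {V V' : PowerSeries A} (h : PG b V) (h' : PG b' V') {n : ℕ}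
    (hn : n ≤ 6) : cg n (b + b') (V * V') =
      ∑ p ∈ Finset.HasAntidiagonal.antidiagonal n,
        if gd p.1 + gd p.2 = gd n then cg p.1 b V * cg p.2 b' V' else 0 := by
  unfold cg
  rw [PowerSeries.coeff_mul n V V', Finset.mul_sum, map_sum]
  refine Finset.sum_congr rfl ?_
  rintro ⟨i, j⟩ hij
  rw [Finset.HasAntidiagonal.mem_antidiagonal] at hij
  simp only at hij ⊢
  subst hij
  have h1 := gd_add hn
  have h2 : dd ^ gd (i + j) * (PowerSeries.coeff i V * PowerSeries.coeff j V') =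
      dd ^ (gd (i + j) - (gd i + gd j)) *
        ((dd ^ gd i * PowerSeries.coeff i V) * (dd ^ gd j * PowerSeries.coeff j V')) := by
    have h3 : (dd : A) ^ gd (i + j) = dd ^ (gd (i + j) - (gd i + gd j)) * (dd ^ gd i * dd ^ gd j) := by
      rw [← pow_add, ← pow_add]
      congr 1
      omega
    rw [h3]
    ring
  have h4 := h i (by omega)
  have h5 := h' j (by omega)
  rw [h2]
  by_cases h6 : gd i + gd j = gd (i + j)
  · rw [if_pos h6, h6, Nat.sub_self, pow_zero, one_mul]
    exact coeff_mul_of_dvd h4 h5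
  · rw [if_neg h6]
    apply coeff_eq_zero_of_dvd
    rw [pow_succ', pow_add]
    refine mul_dvd_mul ?_ (mul_dvd_mul h4 h5)
    exact dvd_pow_self _ (by omega)

lemma anti_cg (f : ℕ × ℕ → ℤ) :
    (∑ p ∈ Finset.HasAntidiagonal.antidiagonal 6, f p =
      f (0, 6) + f (1, 5) + f (2, 4) + f (3, 3) + f (4, 2) + f (5, 1) + f (6, 0)) ∧
    (∑ p ∈ Finset.HasAntidiagonal.antidiagonal 3, f p =
      f (0, 3) + f (1, 2) + f (2, 1) + f (3, 0)) ∧
    (∑ p ∈ Finset.HasAntidiagonal.antidiagonal 0, f p = f (0, 0)) := by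
  simp only [Finset.Nat.sum_antidiagonal_eq_sum_range_succ_mk, Finset.sum_range_succ,
    Finset.sum_range_zero]
  norm_num

section mul

variable {b b' : ℕ} {V V' : PowerSeries A} (h : PG b V) (h' : PG b' V')
include h h'

lemma eps_mul_PG : eps (b + b') (V * V') = eps b V * eps b' V' := by
  rw [← cg_zero, ← cg_zero, ← cg_zero, cg_mul h h' (by omega), (anti_cg _).2.2]
  simp [gd]

lemma w3_mul_PG : w3 (b + b') (V * V') = eps b V * w3 b' V' + w3 b V * eps b' V' := by
  rw [← cg_zero, ← cg_zero, ← cg_three, ← cg_three, ← cg_three, cg_mul h h' (by omega),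
    (anti_cg _).2.1]
  simp [gd]

lemma w6_mul_PG : w6 (b + b') (V * V') =
    eps b V * w6 b' V' + w3 b V * w3 b' V' + w6 b V * eps b' V' := by
  rw [← cg_zero, ← cg_zero, ← cg_three, ← cg_three, ← cg_six, ← cg_six, ← cg_six,
    cg_mul h h' (by omega), (anti_cg _).1]
  simp [gd]

end mul

/-- the additive quantity at the energy six -/
noncomputable def QG (b : ℕ) (V : PowerSeries A) : ℤ := w3 b V ^ 2 - 2 * w6 b V

/-- the product over the components -/
theorem prod_PG {ι : Type*} (s : Finset ι) (b : ι → ℕ) (V : ι → PowerSeries A)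
    (h : ∀ c ∈ s, PG (b c) (V c)) (h1 : ∀ c ∈ s, eps (b c) (V c) = 1) :
    PG (∑ c ∈ s, b c) (∏ c ∈ s, V c) ∧ eps (∑ c ∈ s, b c) (∏ c ∈ s, V c) = 1 ∧
    w3 (∑ c ∈ s, b c) (∏ c ∈ s, V c) = ∑ c ∈ s, w3 (b c) (V c) ∧
    QG (∑ c ∈ s, b c) (∏ c ∈ s, V c) = ∑ c ∈ s, QG (b c) (V c) := by
  classical
  induction s using Finset.induction_on with
  | empty =>
    simp only [Finset.sum_empty, Finset.prod_empty]
    refine ⟨PG_one, ?_, ?_, ?_⟩
    · simp [eps]
    · simp [w3, PowerSeries.coeff_one]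
    · simp [QG, w3, w6, PowerSeries.coeff_one]
  | insert a s ha ih =>
    obtain ⟨i1, i2, i3, i4⟩ := ih (fun c hc => h c (Finset.mem_insert_of_mem hc))
      (fun c hc => h1 c (Finset.mem_insert_of_mem hc))
    have ha1 := h a (Finset.mem_insert_self a s)
    have ha2 := h1 a (Finset.mem_insert_self a s)
    simp only [Finset.sum_insert ha, Finset.prod_insert ha]
    rw [← i3, ← i4]
    refine ⟨ha1.mul i1, ?_, ?_, ?_⟩
    · rw [eps_mul_PG ha1 i1, ha2, i2, one_mul]
    · rw [w3_mul_PG ha1 i1, ha2, i2]; ring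
    · unfold QG
      rw [w3_mul_PG ha1 i1, w6_mul_PG ha1 i1, ha2, i2]
      ring

/-- the wanted form: `∑ (w3 ^ 2 - 2 w6) = w3 (∏) ^ 2 - 2 w6 (∏)` -/
theorem sum_sq_PG {ι : Type*} (s : Finset ι) (b : ι → ℕ) (V : ι → PowerSeries A)
    (h : ∀ c ∈ s, PG (b c) (V c)) (h1 : ∀ c ∈ s, eps (b c) (V c) = 1) :
    ∑ c ∈ s, (w3 (b c) (V c) ^ 2 - 2 * w6 (b c) (V c)) =
      w3 (∑ c ∈ s, b c) (∏ c ∈ s, V c) ^ 2 - 2 * w6 (∑ c ∈ s, b c) (∏ c ∈ s, V c) :=
  ((prod_PG s b V h h1).2.2.2).symm

end Pool.Agent.GaussPoset.Win.I2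

end

/-! From `Pool.Agent.W_448h2_h63.HA` -/

section

/-!
# The cross terms of energy at most twelve (MP_448cb3_co, case B, Route T, block H): definitions

`NoT P m`: two covers of an element of level `m`, one of them double, have a common cover.
`EE i e`: the energy minus twice the order. `KsC`, `KsA`, `KsB`: the swap of the two unmatched
elements `y` (lower) and `u` (upper) of a part. `KP1`, `KP2`: the parts with unmatched elements.
-/

namespace Pool.Agent.GaussPoset.Win.H2

set_option linter.unusedSectionVars false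

open Finset I2 K2 Ut

universe u

variable {P : Type u} [Fintype P] [PartialOrder P] [DecidableEq P] {r i : ℕ} {e : P → ℕ}

variable {ι : Type*} [DecidableEq ι] {κ : P → ι} {K : Finset P} {psi : P → P}

/-- two covers of an element of level `m`, one of them double, have a common cover -/
def NoT (P : Type u) [Fintype P] [PartialOrder P] [DecidableEq P] (m : ℕ) : Prop :=
  ∀ z : P, lev z = m → ∀ y ∈ uc z, ∀ y' ∈ uc z, y ≠ y' → (uc y).card = 2 →
    ∃ x, x ∈ uc y ∧ x ∈ uc y'

lemma NoT.noQ {m : ℕ} (h : NoT P m) : NoQ P m :=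
  fun z hz y hy y' hy' hne h1 _ => h z hz y hy y' hy' hne h1

/-- the energy minus twice the order -/
noncomputable def EE (i : ℕ) (e : P → ℕ) : ℤ :=
  ∑ x, (e x : ℤ) - 2 * (((AL i e).card : ℤ) + (AU i e).card) + 2 * ((pL i e : ℤ) + pU i e)

end Pool.Agent.GaussPoset.Win.H2

end

/-! From `Pool.Agent.W_448h2_h63.HB` -/

section

/-!
# The inequality on one side with all slacks (MP_448cb3_co, case B, Route T, block H)
-/

namespace Pool.Agent.GaussPoset.Win.H2

set_option linter.unusedSectionVars false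

open Finset I2 K2

universe u

variable {P : Type u} [DecidableEq P]

variable {c c' : P → Finset P} {e : P → ℕ} {t : P → ℕ} {V Sd : Finset P}

/-- two covers at distance two, one of them double, have a common cover -/
def SdT (c : P → Finset P) (t : P → ℕ) (Sd : Finset P) : Prop :=
  ∀ z ∈ Sd, t z = 2 → ∀ y ∈ c z, ∀ y' ∈ c z, y ≠ y' → (c y).card = 2 → ∃ x, x ∈ c y ∧ x ∈ c y'

/-- an excited element away from a bad element has a surplus -/
lemma far_T (S : SideQ c c' t V Sd) (hT : SdT c t Sd)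
    (adm : ∀ z ∈ Sd, ¬ (kd c' e z ∧ gu c e z)) {y z : P}
    (hy : y ∈ bd c c' e t Sd) (hz : z ∈ c' y) (he : 1 ≤ e z) : 1 ≤ sur c c' e z := by
  rcases far_cases S adm hy hz he with h | ⟨h1, h2, h3, w, w1, w2, w3, w4⟩
  · exact h
  · exfalso
    have hy' := hy
    rw [mem_bd] at hy
    obtain ⟨hyS, ty, ey, ky, cy⟩ := hy
    have hzS : z ∈ Sd := S.cout y (Or.inl hyS) z hz
    have hyz : y ∈ c z := (S.dual z y).2 hz
    have tz : t z = 2 := by
      have := (S.cin z hzS y hyz).2
      omega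
    obtain ⟨x, hx, hx'⟩ := hT z hzS tz y hyz w w1 (fun h => w2 h.symm) (cc_eq_two S cy).1
    have hky : kd c' e y := ⟨z, hz, by omega⟩
    have ex : e x < e y := not_gu_of_kd adm hyS hky x hx
    have h4 := (cc_eq_two S cy).2 x hx ex
    have h5 : y ∈ kr c' e x := mem_kr.2 ⟨(S.dual y x).1 hx, ex⟩
    have h6 : w ∈ kr c' e x := mem_kr.2 ⟨(S.dual w x).1 hx', by omega⟩
    rw [Finset.card_eq_one] at h4
    obtain ⟨q, hq⟩ := h4
    rw [hq, mem_singleton] at h5 h6
    exact w2 (h6.trans h5.symm)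

/-- payment for the bad elements with an excited child -/
theorem pay_T (S : SideQ c c' t V Sd) (hT : SdT c t Sd)
    (adm : ∀ z ∈ Sd, ¬ (kd c' e z ∧ gu c e z)) {B : Finset P}
    (hB : B ⊆ bd c c' e t Sd) (hex : ∀ y ∈ B, ∃ z ∈ c' y, 1 ≤ e z) :
    ∃ Z X : Finset P, ∃ f : P → P,
      (∀ y ∈ B, f y ∈ Z ∧ f y ∈ c' y) ∧
      (∀ z ∈ Z, z ∈ Sd ∧ t z = 2 ∧ 1 ≤ e z ∧ 1 ≤ sur c c' e z ∧ ∃ y ∈ B, f y = z) ∧
      (∀ x ∈ X, x ∈ V ∧ 1 ≤ e x ∧ (∃ y, y ∈ c' x) ∧ (∀ y ∈ c' x, y ∈ B) ∧
        ∃ z ∈ Z, ∀ y ∈ c' x, f y = z) ∧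
      B.card ≤ Z.card + X.card := by
  classical
  choose! f hf using hex
  have hfs : ∀ y ∈ B, 1 ≤ sur c c' e (f y) := fun y hy => far_T S hT adm (hB hy) (hf y hy).1 (hf y hy).2
  set Z := B.image f with hZ
  set Z2 := Z.filter (fun z => 2 ≤ (B.filter (fun y => f y = z)).card) with hZ2
  have hzZ : ∀ z ∈ Z, ∃ y ∈ B, f y = z := fun z hz => by simpa [hZ] using hz
  have hpair : ∀ z ∈ Z2, ∃ y ∈ B, ∃ y' ∈ B, y ≠ y' ∧ f y = z ∧ f y' = z := by
    intro z hz
    rw [hZ2, mem_filter] at hz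
    have h1 : 1 < (B.filter (fun y => f y = z)).card := by omega
    rw [Finset.one_lt_card] at h1
    obtain ⟨y, hy, y', hy', hne⟩ := h1
    rw [mem_filter] at hy hy'
    exact ⟨y, hy.1, y', hy'.1, hne, hy.2, hy'.2⟩
  choose! g hg g' hg' hne hfg hfg' using hpair
  have hmid : ∀ z ∈ Z2, ∃ x ∈ V, x ∈ c (g z) ∧ x ∈ c (g' z) ∧ 1 ≤ e x := by
    intro z hz
    have h1 := (hf (g z) (hg z hz)).1
    have h2 := (hf (g' z) (hg' z hz)).1
    rw [hfg z hz] at h1
    rw [hfg' z hz] at h2
    exact mid_of_bd S adm (hB (hg z hz)) (hB (hg' z hz)) (hne z hz) h1 h2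
  choose! m hmV hm hm' hme using hmid
  have hlow : ∀ z ∈ Z2, c' (m z) = {g z, g' z} := by
    intro z hz
    symm
    apply Finset.eq_of_subset_of_card_le
    · intro y hy
      rw [mem_insert, mem_singleton] at hy
      rcases hy with rfl | rfl
      · exact (S.dual _ _).1 (hm z hz)
      · exact (S.dual _ _).1 (hm' z hz)
    · rw [Finset.card_pair (hne z hz)]
      exact S.c2' _
  have hinj : Set.InjOn m Z2 := by
    intro z hz z' hz' h
    have h1 := hlow z hz
    rw [h, hlow z' hz'] at h1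
    have h2 : g z ∈ ({g z', g' z'} : Finset P) := by
      rw [h1]
      exact mem_insert_self _ _
    rw [mem_insert, mem_singleton] at h2
    rw [← hfg z hz]
    rcases h2 with h2 | h2
    · rw [h2]
      exact hfg z' hz'
    · rw [h2]
      exact hfg' z' hz'
  refine ⟨Z, Z2.image m, f, ?_, ?_, ?_, ?_⟩
  · intro y hy
    exact ⟨mem_image_of_mem f hy, (hf y hy).1⟩
  · intro z hz
    obtain ⟨y, hy, rfl⟩ := hzZ z hz
    have h1 := hB hy
    have h2 := (mem_bd.1 h1)
    have h3 : f y ∈ Sd := S.cout y (Or.inl h2.1) _ (hf y hy).1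
    refine ⟨h3, ?_, (hf y hy).2, hfs y hy, y, hy, rfl⟩
    have h4 := (S.cin (f y) h3 y ((S.dual _ _).2 (hf y hy).1)).2
    omega
  · intro x hx
    rw [mem_image] at hx
    obtain ⟨z, hz, rfl⟩ := hx
    have h1 := hlow z hz
    refine ⟨hmV z hz, hme z hz, ⟨g z, ?_⟩, ?_, z, (mem_filter.1 hz).1, ?_⟩
    · rw [h1]
      exact mem_insert_self _ _
    · intro y hy
      rw [h1, mem_insert, mem_singleton] at hy
      rcases hy with rfl | rfl
      · exact hg z hz
      · exact hg' z hz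
    · intro y hy
      rw [h1, mem_insert, mem_singleton] at hy
      rcases hy with rfl | rfl
      · exact hfg z hz
      · exact hfg' z hz
  · rw [Finset.card_image_of_injOn hinj]
    have h1 : B.card = ∑ z ∈ Z, (B.filter (fun y => f y = z)).card :=
      Finset.card_eq_sum_card_image f B
    have h2 : ∀ z ∈ Z, (B.filter (fun y => f y = z)).card ≤
        1 + (if 2 ≤ (B.filter (fun y => f y = z)).card then 1 else 0) := by
      intro z hz
      have h3 : B.filter (fun y => f y = z) ⊆ c z := by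
        intro y hy
        rw [mem_filter] at hy
        have := (hf y hy.1).1
        rw [hy.2] at this
        exact (S.dual _ _).2 this
      have h4 := card_le_card h3
      have := S.c2 z
      split_ifs <;> omega
    rw [h1]
    refine (Finset.sum_le_sum h2).trans (le_of_eq ?_)
    rw [Finset.sum_add_distrib, Finset.sum_const, smul_eq_mul, mul_one, ← Finset.card_filter]

open Classical in
/-- the slack of an element -/
noncomputable def sl (c c' : P → Finset P) (e : P → ℕ) (t : P → ℕ) (Sd Z : Finset P) (z : P) : ℤ :=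
  sur c c' e z - (if z ∈ Z then 1 else 0) + (if z ∈ bd c c' e t Sd then 1 else 0)

lemma sl_nonneg (S : SideQ c c' t V Sd) (adm : ∀ z ∈ Sd, ¬ (kd c' e z ∧ gu c e z)) {Z : Finset P}
    (hZ : ∀ z ∈ Z, z ∈ Sd ∧ t z = 2 ∧ 1 ≤ sur c c' e z) {z : P} (hz : z ∈ Sd) :
    0 ≤ sl c c' e t Sd Z z := by
  classical
  unfold sl
  by_cases h1 : z ∈ Z
  · have h2 := hZ z h1
    have h3 : z ∉ bd c c' e t Sd := by
      intro h
      rw [mem_bd] at h
      omega
    rw [if_pos h1, if_neg h3]
    omega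
  · rw [if_neg h1]
    by_cases h2 : z ∈ bd c c' e t Sd
    · rw [if_pos h2]
      have := sur_ge S adm hz
      omega
    · rw [if_neg h2]
      have := sur_nonneg S adm hz h2
      omega

open Classical in
/-- THE INEQUALITY ON ONE SIDE with all slacks -/
theorem side_full (S : SideQ c c' t V Sd) (hT : SdT c t Sd)
    (adm : ∀ z ∈ Sd, ¬ (kd c' e z ∧ gu c e z)) {B : Finset P}
    (hB : B ⊆ bd c c' e t Sd) (hex : ∀ y ∈ B, ∃ z ∈ c' y, 1 ≤ e z) :
    ∃ Z X : Finset P, ∃ f : P → P,
      (∀ y ∈ B, f y ∈ Z ∧ f y ∈ c' y) ∧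
      (∀ z ∈ Z, z ∈ Sd ∧ t z = 2 ∧ 1 ≤ e z ∧ 1 ≤ sur c c' e z ∧ ∃ y ∈ B, f y = z) ∧
      (∀ x ∈ X, x ∈ V ∧ 1 ≤ e x ∧ (∃ y, y ∈ c' x) ∧ (∀ y ∈ c' x, y ∈ B) ∧
        ∃ z ∈ Z, ∀ y ∈ c' x, f y = z) ∧
      ∑ z ∈ Sd, sl c c' e t Sd Z z + 2 * ((KD c' e V).card : ℤ) ≤
        ∑ z ∈ Sd, (e z : ℤ) + 2 * ((fr c c' e Sd).card : ℤ) +
          ((bd c c' e t Sd) \ B).card + X.card := by
  classical
  obtain ⟨Z, X, f, hf, hZ, hX, hc⟩ := pay_T S hT adm hB hex
  refine ⟨Z, X, f, hf, hZ, hX, ?_⟩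
  have h1 := sum_cc S adm
  have h2 : ∑ z ∈ Sd, sur c c' e z = ∑ z ∈ Sd, (e z : ℤ) - ∑ z ∈ KK c e Sd, cc c c' e z := by
    unfold sur KK
    rw [Finset.sum_sub_distrib, Finset.sum_filter]
  have h3 : ∑ z ∈ Sd, sl c c' e t Sd Z z = ∑ z ∈ Sd, sur c c' e z - Z.card +
      (bd c c' e t Sd).card := by
    unfold sl
    rw [Finset.sum_add_distrib, Finset.sum_sub_distrib, ← Finset.sum_filter, ← Finset.sum_filter,
      Finset.sum_const, Finset.sum_const]
    have h9 : Sd.filter (fun z => z ∈ Z) = Z := by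
      ext z
      rw [mem_filter]
      exact ⟨fun h => h.2, fun h => ⟨(hZ z h).1, h⟩⟩
    have h10 : Sd.filter (fun z => z ∈ bd c c' e t Sd) = bd c c' e t Sd := by
      ext z
      rw [mem_filter]
      exact ⟨fun h => h.2, fun h => ⟨(mem_bd.1 h).1, h⟩⟩
    rw [h9, h10]
    simp only [nsmul_eq_mul, mul_one]
  have h11 : ((bd c c' e t Sd) \ B).card + B.card = (bd c c' e t Sd).card :=
    Finset.card_sdiff_add_card_eq_card hB
  have h12 : (((bd c c' e t Sd) \ B).card : ℤ) + B.card = (bd c c' e t Sd).card := by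
    exact_mod_cast h11
  have h13 : (B.card : ℤ) ≤ Z.card + X.card := by exact_mod_cast hc
  rw [h3, h2, h1]
  linarith

end Pool.Agent.GaussPoset.Win.H2

end

/-! From `Pool.Agent.W_448h2_h63.HC` -/

section

/-!
# The inequality of a configuration with all slacks (MP_448cb3_co, case B, Route T, block H)
-/

namespace Pool.Agent.GaussPoset.Win.H2

set_option linter.unusedSectionVars false

open Finset I2 K2

universe u

variable {P : Type u} [Fintype P] [PartialOrder P] [DecidableEq P] {r i : ℕ} {e : P → ℕ}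

variable {ι : Type*} [DecidableEq ι] {κ : P → ι} {K : Finset P} {psi : P → P}

/-- a bad lower element with an excited child -/
def BLx (i : ℕ) (e : P → ℕ) (y : P) : Prop := y ∈ bL i e ∧ ∃ z ∈ dc y, 1 ≤ e z

/-- a bad upper element with an excited child -/
def BUx (i : ℕ) (e : P → ℕ) (y : P) : Prop := y ∈ bU i e ∧ ∃ z ∈ uc y, 1 ≤ e z

/-- the data of the payment on the lower side -/
structure LowD (i : ℕ) (e : P → ℕ) (Z X : Finset P) (f : P → P) : Prop where
  fy : ∀ y, BLx i e y → f y ∈ Z ∧ f y ∈ dc y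
  zz : ∀ z ∈ Z, lev z = i + 2 ∧ 1 ≤ e z ∧ 1 ≤ sur uc dc e z ∧ ∃ y, BLx i e y ∧ f y = z
  xx : ∀ x ∈ X, lev x = i ∧ 1 ≤ e x ∧ (∃ y, y ∈ dc x) ∧ (∀ y ∈ dc x, BLx i e y) ∧
    ∃ z ∈ Z, ∀ y ∈ dc x, f y = z

/-- the data of the payment on the upper side -/
structure UpD (i : ℕ) (e : P → ℕ) (Z X : Finset P) (f : P → P) : Prop where
  fy : ∀ y, BUx i e y → f y ∈ Z ∧ f y ∈ uc y
  zz : ∀ z ∈ Z, lev z + 2 = i ∧ 1 ≤ e z ∧ 1 ≤ sur dc uc e z ∧ ∃ y, BUx i e y ∧ f y = z
  xx : ∀ x ∈ X, lev x = i ∧ 1 ≤ e x ∧ (∃ y, y ∈ uc x) ∧ (∀ y ∈ uc x, BUx i e y) ∧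
    ∃ z ∈ Z, ∀ y ∈ uc x, f y = z

/-- the slack of a lower element -/
noncomputable def slL (i : ℕ) (e : P → ℕ) (Z : Finset P) (z : P) : ℤ :=
  sl uc dc e (fun x : P => lev x - i) (lS P i) Z z

/-- the slack of an upper element -/
noncomputable def slU (i : ℕ) (e : P → ℕ) (Z : Finset P) (z : P) : ℤ :=
  sl dc uc e (fun x : P => i - lev x) (uS P i) Z z

lemma low_T (hT : NoT P (i + 2)) : SdT uc (fun x : P => lev x - i) (lS P i) := by
  intro z hz ht y hy y' hy' hne h1
  rw [mem_lS] at hz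
  simp only at ht
  exact hT z (by omega) y hy y' hy' hne h1

lemma up_T (H : Gr P r) (hir : i ≤ r) (hg : ∀ m, m + 1 = i → Good P m) :
    SdT dc (fun x : P => i - lev x) (uS P i) := by
  intro z hz ht y hy y' hy' hne _
  exact (I2.side_up H hir hg).good z hz ht y hy y' hy' hne

lemma slL_nonneg (H : Gr P r) (hT : NoT P (i + 2)) (hL : AdmL i e) {Z X : Finset P} {f : P → P}
    (D : LowD i e Z X f) {z : P} (hz : i < lev z) : 0 ≤ slL i e Z z := by
  refine sl_nonneg (K2.side_low (i := i) H hT.noQ) (adm_low hL) ?_ (mem_lS.2 hz)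
  intro z hz
  obtain ⟨h1, h2, h3, -⟩ := D.zz z hz
  exact ⟨mem_lS.2 (by omega), by omega, h3⟩

lemma slU_nonneg (H : Gr P r) (hir : i ≤ r) (hg : ∀ m, m + 1 = i → Good P m) (hU : AdmU i e)
    {Z X : Finset P} {f : P → P} (D : UpD i e Z X f) {z : P} (hz : lev z < i) :
    0 ≤ slU i e Z z := by
  refine sl_nonneg (K2.side_up (i := i) H hir hg) (adm_up hU) ?_ (mem_uS.2 hz)
  intro z hz
  obtain ⟨h1, h2, h3, -⟩ := D.zz z hz
  exact ⟨mem_uS.2 (by omega), by omega, h3⟩

lemma sum_all (e : P → ℕ) : ∑ x, (e x : ℤ) =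
    ∑ x ∈ lS P i, (e x : ℤ) + ∑ x ∈ uS P i, (e x : ℤ) + ∑ x ∈ lv P i, (e x : ℤ) := by
  classical
  have h6 : (univ : Finset P) = (lS P i ∪ uS P i) ∪ lv P i := by
    ext x
    simp only [mem_univ, mem_union, mem_lS, mem_uS, mem_lv, true_iff]
    omega
  rw [h6, Finset.sum_union, Finset.sum_union]
  · rw [disjoint_left]
    intro x hx hx'
    rw [mem_lS] at hx
    rw [mem_uS] at hx'
    omega
  · rw [disjoint_left]
    intro x hx hx'
    rw [mem_union, mem_lS, mem_uS] at hx
    rw [mem_lv] at hx'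
    omega

/-- the full inequality -/
structure Full (i : ℕ) (K : Finset P) (psi : P → P) (e : P → ℕ) (ZL XL ZU XU : Finset P)
    (fL fU : P → P) : Prop where
  low : LowD i e ZL XL fL
  upp : UpD i e ZU XU fU
  ineq : ∑ z ∈ lS P i, slL i e ZL z + ∑ z ∈ uS P i, slU i e ZU z +
    (∑ x ∈ lv P i, (e x : ℤ) - (KB i K e).card - XL.card - XU.card) ≤
      EE i e + (SK i K psi e).card

/-- THE FULL INEQUALITY of a configuration -/
theorem full_T (H : Gr P r) (hir : i ≤ r) (hT : NoT P (i + 2))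
    (hg : ∀ m, m + 1 = i → Good P m) (hM : Mat P i K psi)
    (hL : AdmL i e) (hU : AdmU i e) (hd : Disjoint (AL i e) (AU i e)) :
    ∃ ZL XL ZU XU : Finset P, ∃ fL fU : P → P, Full i K psi e ZL XL ZU XU fL fU := by
  classical
  have hq := hT.noQ
  have SL := K2.side_low (i := i) H hq
  have SU := K2.side_up (i := i) H hir hg
  obtain ⟨BL, hBL⟩ : ∃ BL : Finset P, ∀ y, y ∈ BL ↔ y ∈ bL i e ∧ ∃ z ∈ dc y, 1 ≤ e z :=
    ⟨(bL i e).filter (fun y => ∃ z ∈ dc y, 1 ≤ e z), fun y => mem_filter⟩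
  obtain ⟨BU, hBU⟩ : ∃ BU : Finset P, ∀ y, y ∈ BU ↔ y ∈ bU i e ∧ ∃ z ∈ uc y, 1 ≤ e z :=
    ⟨(bU i e).filter (fun y => ∃ z ∈ uc y, 1 ≤ e z), fun y => mem_filter⟩
  obtain ⟨ZL, XL, fL, hfL, hZL, hXL, iL⟩ := side_full SL (low_T hT) (adm_low hL) (B := BL)
    (fun y hy => ((hBL y).1 hy).1) (fun y hy => ((hBL y).1 hy).2)
  obtain ⟨ZU, XU, fU, hfU, hZU, hXU, iU⟩ := side_full SU (up_T H hir hg) (adm_up hU) (B := BU)
    (fun y hy => ((hBU y).1 hy).1) (fun y hy => ((hBU y).1 hy).2)
  rw [KD_low, fr_low] at iL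
  rw [KD_up, fr_up] at iU
  change ∑ z ∈ lS P i, slL i e ZL z + _ ≤ _ + ((bL i e \ BL).card : ℤ) + _ at iL
  change ∑ z ∈ uS P i, slU i e ZU z + _ ≤ _ + ((bU i e \ BU).card : ℤ) + _ at iU
  -- the unexcited bad elements
  have h1 : (bL i e \ BL).card ≤ ((SK i K psi e).filter (fun y => e y = 1)).card +
      ((KB i K e).filter (fun y => i < lev y)).card := by
    refine le_trans (card_le_card (t := ((SK i K psi e).filter (fun y => e y = 1)) ∪
      ((KB i K e).filter (fun y => i < lev y))) ?_) (card_union_le _ _)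
    intro y hy
    rw [mem_sdiff, hBL] at hy
    have h0 : ∀ z ∈ dc y, e z = 0 := by
      intro z hz
      by_contra hne
      exact hy.2 ⟨hy.1, z, hz, by omega⟩
    rw [mem_union, mem_filter, mem_filter]
    by_cases hK : y ∈ K
    · right
      have := (mem_dbL'.1 (mem_bL hM H hq hy.1).1).1
      exact ⟨mem_KB.2 ⟨hK, Or.inl ⟨hy.1, h0⟩⟩, by omega⟩
    · left
      exact low_simple hM H hq hU hd hy.1 hK h0
  have h2 : (bU i e \ BU).card ≤ ((SK i K psi e).filter (fun y => ¬ e y = 1)).card +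
      ((KB i K e).filter (fun y => ¬ i < lev y)).card := by
    have hs : (bU i e \ BU).card = ((bU i e \ BU).filter (fun y => y ∉ K)).card +
        ((bU i e \ BU).filter (fun y => ¬ y ∉ K)).card :=
      (Finset.card_filter_add_card_filter_not _).symm
    have ha : ((bU i e \ BU).filter (fun y => y ∉ K)).card ≤
        ((SK i K psi e).filter (fun y => ¬ e y = 1)).card := by
      have h0 : ∀ w ∈ (bU i e \ BU).filter (fun y => y ∉ K),
          w ∈ dbU P i ∧ w ∉ K ∧ psi w ∈ SK i K psi e ∧ e (psi w) = 0 := by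
        intro w hw
        rw [mem_filter, mem_sdiff, hBU] at hw
        have h0 : ∀ z ∈ uc w, e z = 0 := by
          intro z hz
          by_contra hne
          exact hw.1.2 ⟨hw.1.1, z, hz, by omega⟩
        obtain ⟨k1, k2, k3⟩ := up_simple hM H hir hg hL hd hw.1.1 hw.2 h0
        exact ⟨k1, hw.2, k2, k3⟩
      refine card_le_card_of_injOn psi ?_ ?_
      · intro w hw
        have := h0 w hw
        rw [mem_coe, mem_filter]
        exact ⟨this.2.2.1, by omega⟩
      · intro w hw w' hw' heq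
        have k := h0 w hw
        have k' := h0 w' hw'
        have h3 := (psi_up hM k.1 k.2.1).2.2.1
        have h4 := (psi_up hM k'.1 k'.2.1).2.2.1
        rw [← h3, ← h4, heq]
    have hb : ((bU i e \ BU).filter (fun y => ¬ y ∉ K)).card ≤
        ((KB i K e).filter (fun y => ¬ i < lev y)).card := by
      refine card_le_card ?_
      intro y hy
      rw [mem_filter, mem_sdiff, hBU, not_not] at hy
      have h0 : ∀ z ∈ uc y, e z = 0 := by
        intro z hz
        by_contra hne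
        exact hy.1.2 ⟨hy.1.1, z, hz, by omega⟩
      rw [mem_filter]
      have := (mem_dbU'.1 (mem_bU hM H hir hg hy.1.1).1).1
      exact ⟨mem_KB.2 ⟨hy.2, Or.inr ⟨hy.1.1, h0⟩⟩, by omega⟩
    omega
  have h3 : ((SK i K psi e).filter (fun y => e y = 1)).card +
      ((SK i K psi e).filter (fun y => ¬ e y = 1)).card = (SK i K psi e).card :=
    Finset.card_filter_add_card_filter_not _
  have h3' : ((KB i K e).filter (fun y => i < lev y)).card +
      ((KB i K e).filter (fun y => ¬ i < lev y)).card = (KB i K e).card :=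
    Finset.card_filter_add_card_filter_not _
  refine ⟨ZL, XL, ZU, XU, fL, fU, ⟨?_, ?_, ?_⟩, ⟨?_, ?_, ?_⟩, ?_⟩
  · intro y hy
    exact hfL y ((hBL y).2 hy)
  · intro z hz
    obtain ⟨h4, h5, h6, h7, y, hy, hfy⟩ := hZL z hz
    rw [mem_lS] at h4
    exact ⟨by omega, h6, h7, y, (hBL y).1 hy, hfy⟩
  · intro x hx
    obtain ⟨h4, h5, h6, h7, h8⟩ := hXL x hx
    exact ⟨mem_lv.1 h4, h5, h6, fun y hy => (hBL y).1 (h7 y hy), h8⟩
  · intro y hy
    exact hfU y ((hBU y).2 hy)
  · intro z hz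
    obtain ⟨h4, h5, h6, h7, y, hy, hfy⟩ := hZU z hz
    rw [mem_uS] at h4
    exact ⟨by omega, h6, h7, y, (hBU y).1 hy, hfy⟩
  · intro x hx
    obtain ⟨h4, h5, h6, h7, h8⟩ := hXU x hx
    exact ⟨mem_lv.1 h4, h5, h6, fun y hy => (hBU y).1 (h7 y hy), h8⟩
  · unfold EE
    rw [sum_all (i := i) e]
    have g1 : ((bL i e \ BL).card : ℤ) + (bU i e \ BU).card ≤ (SK i K psi e).card +
        (KB i K e).card := by
      have : (bL i e \ BL).card + (bU i e \ BU).card ≤ (SK i K psi e).card +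
        (KB i K e).card := by omega
      exact_mod_cast this
    linarith

end Pool.Agent.GaussPoset.Win.H2

end

/-! From `Pool.Agent.W_448rd_h10.RdB` -/

section

/-!
MP_448cb3_co, G2, window `j - 1`: the inequality for reduced cores, joins of two double
elements.  helper10.
-/

namespace Pool.Agent.GaussPoset.Win.Rd

set_option linter.unusedSectionVars false

open Finset I2 K2
open Pool.Agent.GaussPoset.Win.H2 (SdT)

universe u

variable {P : Type u} [DecidableEq P]
variable {c c' : P → Finset P} {e : P → ℕ} {t : P → ℕ} {V Sd BG EX : Finset P}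

/-- a join `z` of two double elements `w = {p, x}`, `w2 = {x, q}` -/
structure TS (c c' : P → Finset P) (t : P → ℕ) (Sd : Finset P) (z w w2 p x q : P) : Prop where
  zS : z ∈ Sd
  tz : t z = 2
  cz : c z = {w, w2}
  cw : c w = {p, x}
  cw2 : c w2 = {x, q}
  dx : c' x = {w, w2}
  ne : w ≠ w2
  px : p ≠ x
  xq : x ≠ q
  pq : p ≠ q

/-- the side condition for an exchange of `z` and `x` at the cover `y = {o, x}` -/
def So (c' : P → Finset P) (z x y o : P) (e : P → ℕ) : Prop :=
  (e z ≤ e y ∧ e x < e y) ∨ ((∀ d' ∈ c' y, d' ≠ z → e d' ≤ e y) ∧ e o < e y)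

/-- hypotheses on one side; the joins outside `EX` are not exchangeable -/
structure Hyp (c c' : P → Finset P) (e t : P → ℕ) (V Sd BG EX : Finset P) : Prop where
  S : SideQ c c' t V Sd
  adm : ∀ z ∈ Sd, ¬ (kd c' e z ∧ gu c e z)
  hT : SdT c t Sd
  bgt : ∀ y ∈ BG, y ∈ Sd ∧ t y = 1 ∧ (c y).card = 2
  bg : ∀ y ∈ BG, ∀ x ∈ c y, 1 ≤ e x
  touch : ∀ y ∈ Sd, t y = 1 → (c y).card = 2 → y ∉ BG → 1 ≤ e y → ∃ z ∈ c' y, 1 ≤ e z
  share : ∀ y ∈ Sd, ∀ y' ∈ Sd, t y = 1 → y ≠ y' → ∀ x ∈ c y, ∀ x' ∈ c y, x ∈ c y' →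
    x' ∈ c y' → x = x'
  far : ∀ u ∈ Sd, t u = 3 → 2 ≤ e u → ∀ z ∈ c u, ∀ z2 ∈ c u, z ≠ z2 → (c z).card = 2 →
    kl c e z → z ∉ EX → (∃ w, w ∈ c z ∧ w ∈ c z2) ∨ ((c z2).card = 1 ∧ ¬ kl c e u)
  red : ∀ z w w2 p x q, TS c c' t Sd z w w2 p x q → z ∉ EX → 1 ≤ e z → w ∉ BG → w2 ∉ BG →
    (∀ z', c z' = {w, w2} → z' ≠ z → e z' = 0) → (∀ u ∈ c' z, e u ≤ e z ∧ e u ≤ e x + 1) →
    So c' z x w p e → So c' z x w2 q e → ¬ ((e w < e z ∨ e w ≤ e x) ∨ (e w2 < e z ∨ e w2 ≤ e x))

/-- a positive pendant below `w` -/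
def PenP (c c' : P → Finset P) (e : P → ℕ) (w : P) : Prop := ∃ z ∈ c' w, 1 ≤ e z ∧ (c z).card = 1

/-- the claim for a value -/
def clm (v : ℤ) : ℤ := if v < 0 then (if v = -1 then 1 else 2) else 0

open Classical in
/-- the claim of a double element against its joins -/
noncomputable def cl (c c' : P → Finset P) (e : P → ℕ) (BG : Finset P) (w : P) : ℤ :=
  if w ∈ BG ∨ PenP c c' e w then 0 else clm (sv c c' e w)

lemma clm_nonneg (v : ℤ) : 0 ≤ clm v := by unfold clm; split_ifs <;> omega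

lemma clm_le_two (v : ℤ) : clm v ≤ 2 := by unfold clm; split_ifs <;> omega

lemma cl_nonneg (w : P) : 0 ≤ cl c c' e BG w := by
  unfold cl
  split_ifs
  · exact le_rfl
  · exact clm_nonneg _

lemma cl_le_two (w : P) : cl c c' e BG w ≤ 2 := by
  unfold cl
  split_ifs
  · omega
  · exact clm_le_two _

lemma cl_zero {w : P} (h : 0 ≤ sv c c' e w) : cl c c' e BG w = 0 := by
  unfold cl clm
  split_ifs <;> omega

lemma cl_le_one {w : P} (h : -1 ≤ sv c c' e w) : cl c c' e BG w ≤ 1 := by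
  unfold cl clm
  split_ifs <;> omega

lemma cl_bg {w : P} (h : w ∈ BG) : cl c c' e BG w = 0 := by
  unfold cl
  rw [if_pos (Or.inl h)]

lemma cl_pen {w : P} (h : PenP c c' e w) : cl c c' e BG w = 0 := by
  unfold cl
  rw [if_pos (Or.inr h)]

section basic

variable (H : Hyp c c' e t V Sd BG EX)
include H

/-- elements above a positive element are positive -/
lemma Hyp.pos {y z : P} (hy : y ∈ Sd) (hz : z ∈ c' y) (h : 1 ≤ e z) : 1 ≤ e y := by
  by_contra h0
  obtain ⟨a, ha⟩ := H.S.ne y hy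
  exact H.adm y hy ⟨⟨z, hz, by omega⟩, a, ha, by omega⟩

lemma Hyp.kill {y z : P} (hy : y ∈ Sd) (hz : z ∈ c' y) (h : e y < e z) : ∀ a ∈ c y, e a < e y :=
  not_gu_of_kd H.adm hy ⟨z, hz, h⟩

/-- a guarded element is not killed -/
lemma Hyp.le_of_gu {y z a : P} (hy : y ∈ Sd) (hz : z ∈ c' y) (ha : a ∈ c y) (h : e y ≤ e a) :
    e z ≤ e y := by
  by_contra h0
  have := H.kill hy hz (by omega) a ha
  omega

lemma Hyp.cov {z w : P} (hz : z ∈ Sd) (h2 : 2 ≤ t z) (hw : w ∈ c z) : w ∈ Sd ∧ t z = t w + 1 := by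
  obtain ⟨h1, h⟩ := H.S.cin z hz w hw
  refine ⟨?_, h⟩
  rcases h1 with h1 | h1
  · exact h1
  · have := H.S.tV w h1
    omega

lemma Hyp.ch {z w : P} (hw : w ∈ Sd) (hz : z ∈ c' w) : z ∈ Sd ∧ t z = t w + 1 ∧ w ∈ c z := by
  have h1 := H.S.cout w (Or.inl hw) z hz
  have h2 : w ∈ c z := (H.S.dual _ _).2 hz
  exact ⟨h1, (H.S.cin z h1 w h2).2, h2⟩

end basic

namespace TS

variable {z w w2 p x q : P}

lemma symm (T : TS c c' t Sd z w w2 p x q) : TS c c' t Sd z w2 w q x p where
  zS := T.zS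
  tz := T.tz
  cz := by rw [T.cz, pair_comm]
  cw := by rw [T.cw2, pair_comm]
  cw2 := by rw [T.cw, pair_comm]
  dx := by rw [T.dx, pair_comm]
  ne := T.ne.symm
  px := T.xq.symm
  xq := T.px.symm
  pq := T.pq.symm

variable (H : Hyp c c' e t V Sd BG EX) (T : TS c c' t Sd z w w2 p x q)
include H T

lemma w_mem : w ∈ c z := by rw [T.cz]; simp

lemma wS : w ∈ Sd := (H.cov T.zS (by rw [T.tz]) (T.w_mem H)).1

lemma tw : t w = 1 := by
  have := (H.cov T.zS (by rw [T.tz]) (T.w_mem H)).2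
  rw [T.tz] at this
  omega

lemma z_mem : z ∈ c' w := (H.S.dual _ _).1 (T.w_mem H)

lemma x_mem : x ∈ c w := by rw [T.cw]; simp

lemma p_mem : p ∈ c w := by rw [T.cw]; simp

/-- the value of a cover when both covers kill the common site -/
lemma sv_co (h : e x < e w) (hb : e x < e w2) :
    2 * (e w : ℤ) - 3 ≤ sv c c' e w ∧
      (e p < e w → sv c c' e w = 2 * (e w : ℤ) - 3 * nk c' e w p) := by
  have hx : nk c' e w x = 0 := nk_zero ⟨w2, by rw [T.dx]; simp, T.ne.symm, hb⟩
  by_cases hp : e p < e w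
  · have h1 := sv_both H.S T.cw T.px hp h
    rw [hx] at h1
    rcases nk_cases (c' := c') (e := e) w p with ⟨-, h2⟩ | ⟨-, h2⟩ <;> rw [h2] at h1 ⊢ <;>
      exact ⟨by omega, fun _ => by omega⟩
  · have h1 := sv_one' H.S T.cw T.px (by omega) h
    rw [hx] at h1
    exact ⟨by omega, fun h => absurd h hp⟩

/-- the claim of a killed cover -/
lemma ckill (htw : ∀ z', c z' = {w, w2} → z' ≠ z → e z' = 0) (hz1 : e w < e z)
    (hb : e x < e w2) : cl c c' e BG w ≤ nk c' e z w ∧ (2 ≤ e w → cl c c' e BG w = 0) := by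
  have hk := H.kill (T.wS H) (T.z_mem H) hz1
  have hx := hk x (T.x_mem H)
  have hp := hk p (T.p_mem H)
  obtain ⟨h1, h2⟩ := T.sv_co H hx hb
  have h2 := h2 hp
  have hbig : 2 ≤ e w → cl c c' e BG w = 0 := fun h => cl_zero (by omega)
  refine ⟨?_, hbig⟩
  rcases nk_cases (c' := c') (e := e) z w with ⟨⟨d, d1, d2, d3⟩, h3⟩ | ⟨-, h3⟩
  · rw [h3]
    obtain ⟨dS, td, wd⟩ := H.ch (T.wS H) d1
    have hcd : (c d).card ≤ 2 := H.S.c2 d
    have hcd1 : 1 ≤ (c d).card := card_pos.2 ⟨w, wd⟩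
    by_cases hc : (c d).card = 1
    · rw [cl_pen ⟨d, d1, by omega, hc⟩]
    by_cases hw : 2 ≤ e w
    · rw [hbig hw]
    obtain ⟨w3, w3a, w3b⟩ : ∃ w3 ∈ c d, w3 ≠ w := by
      by_contra hno
      push Not at hno
      have : c d ⊆ {w} := fun a ha => mem_singleton.2 (hno a ha)
      have := card_le_card this
      rw [card_singleton] at this
      omega
    have tw := T.tw H
    obtain ⟨x', x1, x2⟩ := H.hT d dS (by omega) w wd w3 w3a w3b.symm (by rw [T.cw, card_pair T.px])
    have w3S := (H.cov dS (by omega) w3a).1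
    have hdw3 : d ∈ c' w3 := (H.S.dual _ _).1 w3a
    rw [T.cw, mem_insert, mem_singleton] at x1
    rcases x1 with rfl | rfl
    · have hpos := H.pos w3S hdw3 (by omega)
      have hok : nk c' e w x' = 0 := nk_zero ⟨w3, (H.S.dual _ _).1 x2, w3b, by omega⟩
      rw [hok] at h2
      rw [cl_zero (by omega)]
    · exfalso
      have h4 : w3 ∈ c' x' := (H.S.dual _ _).1 x2
      rw [T.dx, mem_insert, mem_singleton] at h4
      rcases h4 with h4 | h4
      · exact w3b h4
      · have h5 : c d = {w, w2} := by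
          symm
          apply eq_of_subset_of_card_le
          · intro a ha
            rw [mem_insert, mem_singleton] at ha
            rcases ha with rfl | rfl
            · exact wd
            · exact h4 ▸ w3a
          · rw [card_pair T.ne]
            exact hcd
        have := htw d h5 d2
        omega
  · rw [h3]
    exact cl_le_one (by omega)

/-- a cover without side condition has no claim -/
lemma not_so (h : e z ≤ e w) (hn : ¬ So c' z x w p e) : cl c c' e BG w = 0 := by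
  unfold So at hn
  push Not at hn
  obtain ⟨h1, h2⟩ := hn
  have hx : e w ≤ e x := h1 h
  have hp : e w ≤ e p := by
    by_contra hp
    have h3 : ¬ ∀ d' ∈ c' w, d' ≠ z → e d' ≤ e w := fun h3 => by
      have := h2 h3
      omega
    push Not at h3
    obtain ⟨d, d1, d2, d3⟩ := h3
    have := H.kill (T.wS H) d1 d3 x (T.x_mem H)
    omega
  apply cl_zero
  rw [sv_none H.S T.cw T.px hp hx]
  omega

/-- the join kills no cover -/
lemma rule_none (hEX : z ∉ EX) (hz : 1 ≤ e z) (htw : ∀ z', c z' = {w, w2} → z' ≠ z → e z' = 0)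
    (h1 : e z ≤ e w) (h2 : e z ≤ e w2) :
    cl c c' e BG w + cl c c' e BG w2 ≤ sv c c' e z := by
  have hs := sv_none (c' := c') H.S T.cz T.ne h1 h2
  have a1 := cl_le_two (c := c) (c' := c') (e := e) (BG := BG) w
  have a2 := cl_le_two (c := c) (c' := c') (e := e) (BG := BG) w2
  by_cases h : 2 ≤ e z
  · omega
  have hez : e z = 1 := by omega
  by_cases b1 : w ∈ BG
  · have := cl_bg (c := c) (c' := c') (e := e) b1
    omega
  by_cases b2 : w2 ∈ BG
  · have := cl_bg (c := c) (c' := c') (e := e) b2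
    omega
  have hch : ∀ u ∈ c' z, e u ≤ e z ∧ e u ≤ e x + 1 := by
    intro u hu
    have := H.le_of_gu T.zS hu (T.w_mem H) h1
    omega
  by_cases s1 : So c' z x w p e
  · by_cases s2 : So c' z x w2 q e
    · have hr := H.red z w w2 p x q T hEX hz b1 b2 htw hch s1 s2
      push Not at hr
      have c1 := (T.sv_co H hr.1.2 hr.2.2).1
      have c2 := (T.symm.sv_co H hr.2.2 hr.1.2).1
      have d1 : cl c c' e BG w ≤ 1 := cl_le_one (by omega)
      have d2 : cl c c' e BG w2 ≤ 1 := cl_le_one (by omega)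
      omega
    · have := T.symm.not_so H h2 s2
      omega
  · have := T.not_so H h1 s1
    omega

/-- the join kills one cover -/
lemma rule_one (hEX : z ∉ EX) (htw : ∀ z', c z' = {w, w2} → z' ≠ z → e z' = 0)
    (h1 : e z ≤ e w) (h2 : e w2 < e z) {r R : ℤ} (hr : 0 ≤ r) (hr1 : e z = 2 → 1 ≤ r)
    (hR : 0 ≤ R) (hR1 : ∀ u ∈ c' z, 2 ≤ e u → (c u).card = 1 → 4 ≤ R)
    (hR2 : ∀ u ∈ c' z, 2 ≤ e u → ¬ kl c e u → 2 ≤ R) :
    cl c c' e BG w + cl c c' e BG w2 ≤ sv c c' e z + r + R := by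
  have hk := H.kill (T.symm.wS H) (T.symm.z_mem H) h2
  have hx := hk x (T.symm.x_mem H)
  have hq := hk q (T.symm.p_mem H)
  have hxw : e x < e w := by omega
  have e1 := (T.sv_co H hxw hx).1
  have e2 : cl c c' e BG w = 0 := cl_zero (by omega)
  have htw' : ∀ z', c z' = {w2, w} → z' ≠ z → e z' = 0 := by
    intro z' h
    exact htw z' (by rw [h, pair_comm])
  obtain ⟨e3, e4⟩ := T.symm.ckill H htw' h2 hxw
  have e5 := sv_one' (c' := c') H.S T.cz T.ne h1 h2
  rcases nk_cases (c' := c') (e := e) z w2 with ⟨-, h3⟩ | ⟨hno, h3⟩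
  · rw [h3] at e3 e5
    omega
  rw [h3] at e3 e5
  by_cases h4 : 4 ≤ e z
  · omega
  by_cases h5 : 2 ≤ e w2
  · have := e4 h5
    omega
  have ex : e x = 0 := by omega
  have b1 : w ∉ BG := fun h => by
    have := H.bg w h x (T.x_mem H)
    omega
  have b2 : w2 ∉ BG := fun h => by
    have := H.bg w2 h x (T.symm.x_mem H)
    omega
  have hbl : ¬ ∀ u ∈ c' z, e u ≤ e z ∧ e u ≤ e x + 1 := by
    intro hch
    refine H.red z w w2 p x q T hEX (by omega) b1 b2 htw hch (Or.inl ⟨h1, hxw⟩) (Or.inr ⟨?_, hq⟩)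
      (Or.inr (Or.inl h2))
    intro d' hd hne
    by_contra hlt
    exact hno ⟨d', hd, hne, by omega⟩
  push Not at hbl
  obtain ⟨u, hu, hu2⟩ := hbl
  have huz := H.le_of_gu T.zS hu (T.w_mem H) h1
  have hu3 := hu2 huz
  have hu4 : 2 ≤ e u := by omega
  by_cases hc : (c u).card = 1
  · have := hR1 u hu hu4 hc
    omega
  by_cases hkl : kl c e u
  · exfalso
    obtain ⟨uS, tu, zu⟩ := H.ch T.zS hu
    have tz := T.tz
    have h6 := K2.t_le_of_kl H.S H.adm _ u uS hkl rfl
    have h7 : e u = 3 ∧ e z = 3 := by omega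
    obtain ⟨z2, z2a, z2b⟩ : ∃ z2 ∈ c u, e z2 < e u := id hkl
    have hne : z2 ≠ z := by
      rintro rfl
      omega
    have hf := H.far u uS (by omega) hu4 z zu z2 z2a hne.symm
      (by rw [T.cz, card_pair T.ne]) ⟨w2, T.symm.w_mem H, h2⟩ hEX
    obtain ⟨w', v1, v2⟩ : ∃ w, w ∈ c z ∧ w ∈ c z2 := by
      rcases hf with hf | hf
      · exact hf
      · exact absurd hkl hf.2
    have z2S := (H.cov uS (by omega) z2a).1
    have hk2 := H.kill z2S ((H.S.dual _ _).1 z2a) z2b w' v2
    rw [T.cz, mem_insert, mem_singleton] at v1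
    rcases v1 with rfl | rfl
    · omega
    · exact hno ⟨z2, (H.S.dual _ _).1 v2, hne, hk2⟩
  · have := hR2 u hu hu4 hkl
    by_cases h8 : e z = 2
    · have := hr1 h8
      omega
    · omega

/-- the join kills both covers -/
lemma rule_two (hEX : z ∉ EX) (htw : ∀ z', c z' = {w, w2} → z' ≠ z → e z' = 0)
    (h1 : e w < e z) (h2 : e w2 < e z) {R : ℤ}
    (hR : 0 ≤ R) (hR1 : ∀ u ∈ c' z, 2 ≤ e u → (c u).card = 1 → 4 ≤ R)
    (hR2 : ∀ u ∈ c' z, 2 ≤ e u → ¬ kl c e u → 2 ≤ R)
    (hR3 : ∀ u ∈ c' z, 2 ≤ e u → ¬ kl c e u → (∃ z2 ∈ c u, z2 ≠ z ∧ (c z2).card = 1) → 4 ≤ R) :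
    cl c c' e BG w + cl c c' e BG w2 ≤ sv c c' e z + R := by
  have hk2 := H.kill (T.symm.wS H) (T.symm.z_mem H) h2
  have hx2 := hk2 x (T.symm.x_mem H)
  have hq := hk2 q (T.symm.p_mem H)
  have hk1 := H.kill (T.wS H) (T.z_mem H) h1
  have hx1 := hk1 x (T.x_mem H)
  have hp := hk1 p (T.p_mem H)
  have htw' : ∀ z', c z' = {w2, w} → z' ≠ z → e z' = 0 := by
    intro z' h
    exact htw z' (by rw [h, pair_comm])
  obtain ⟨e1, e2⟩ := T.ckill H htw h1 hx2
  obtain ⟨e3, e4⟩ := T.symm.ckill H htw' h2 hx1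
  have e5 := sv_both (c' := c') H.S T.cz T.ne h1 h2
  rcases nk_cases (c' := c') (e := e) z w with ⟨-, h3⟩ | ⟨hno, h3⟩
  · rw [h3] at e1 e5
    rcases nk_cases (c' := c') (e := e) z w2 with ⟨-, h4⟩ | ⟨-, h4⟩ <;> rw [h4] at e3 e5 <;> omega
  rcases nk_cases (c' := c') (e := e) z w2 with ⟨-, h4⟩ | ⟨hno2, h4⟩
  · rw [h3] at e1 e5
    rw [h4] at e3 e5
    omega
  rw [h3] at e1 e5
  rw [h4] at e3 e5
  by_cases h5 : 4 ≤ e z
  · omega
  by_cases h6 : 1 ≤ e x
  · have := e2 (by omega)
    have := e4 (by omega)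
    omega
  have b1 : w ∉ BG := fun h => by
    have := H.bg w h x (T.x_mem H)
    omega
  have b2 : w2 ∉ BG := fun h => by
    have := H.bg w2 h x (T.symm.x_mem H)
    omega
  have n1 : ∀ d' ∈ c' w, d' ≠ z → e d' ≤ e w := by
    intro d' hd hne
    by_contra hlt
    exact hno ⟨d', hd, hne, by omega⟩
  have n2 : ∀ d' ∈ c' w2, d' ≠ z → e d' ≤ e w2 := by
    intro d' hd hne
    by_contra hlt
    exact hno2 ⟨d', hd, hne, by omega⟩
  have hbl : ¬ ∀ u ∈ c' z, e u ≤ e z ∧ e u ≤ e x + 1 := by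
    intro hch
    exact H.red z w w2 p x q T hEX (by omega) b1 b2 htw hch (Or.inr ⟨n1, hp⟩) (Or.inr ⟨n2, hq⟩)
      (Or.inr (Or.inl h2))
  have hu0 : ∃ u ∈ c' z, 2 ≤ e u := by
    by_contra hno3
    push Not at hno3
    apply hbl
    intro u hu
    have := hno3 u hu
    omega
  obtain ⟨u, hu, hu4⟩ := hu0
  by_cases hc : (c u).card = 1
  · have := hR1 u hu hu4 hc
    omega
  obtain ⟨uS, tu, zu⟩ := H.ch T.zS hu
  have tz := T.tz
  obtain ⟨z2, z2a, hne⟩ : ∃ z2 ∈ c u, z2 ≠ z := by
    by_contra hno3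
    push Not at hno3
    have h7 : c u = {z} := by
      ext a
      rw [mem_singleton]
      exact ⟨hno3 a, fun h => h ▸ zu⟩
    exact hc (by rw [h7, card_singleton])
  have hf := H.far u uS (by omega) hu4 z zu z2 z2a hne.symm
    (by rw [T.cz, card_pair T.ne]) ⟨w2, T.symm.w_mem H, h2⟩ hEX
  rcases hf with hf | hf
  swap
  · have := hR3 u hu hu4 hf.2 ⟨z2, z2a, hne, hf.1⟩
    omega
  obtain ⟨w', v1, v2⟩ := hf
  have z2S := (H.cov uS (by omega) z2a).1
  have hz2 : z2 ∈ c' w' := (H.S.dual _ _).1 v2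
  have h8 : e z2 ≤ e w' ∧ e w' < e z := by
    rw [T.cz, mem_insert, mem_singleton] at v1
    rcases v1 with rfl | rfl
    · exact ⟨n1 z2 hz2 hne, h1⟩
    · exact ⟨n2 z2 hz2 hne, h2⟩
  have h9 := H.le_of_gu z2S ((H.S.dual _ _).1 z2a) v2 h8.1
  have hkl : ¬ kl c e u := by
    intro hkl
    have := K2.t_le_of_kl H.S H.adm _ u uS hkl rfl
    omega
  have := hR2 u hu hu4 hkl
  omega

/-- the rule for a join without twins -/
theorem rule (hEX : z ∉ EX) (hz : 1 ≤ e z) (htw : ∀ z', c z' = {w, w2} → z' ≠ z → e z' = 0)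
    {r R : ℤ} (hr : 0 ≤ r) (hr1 : e z = 2 → kl c e z → gu c e z → 1 ≤ r)
    (hR : 0 ≤ R) (hR1 : ∀ u ∈ c' z, 2 ≤ e u → (c u).card = 1 → 4 ≤ R)
    (hR2 : ∀ u ∈ c' z, 2 ≤ e u → ¬ kl c e u → 2 ≤ R)
    (hR3 : ∀ u ∈ c' z, 2 ≤ e u → ¬ kl c e u → (∃ z2 ∈ c u, z2 ≠ z ∧ (c z2).card = 1) → 4 ≤ R) :
    cl c c' e BG w + cl c c' e BG w2 ≤ sv c c' e z + r + R := by
  have htw' : ∀ z', c z' = {w2, w} → z' ≠ z → e z' = 0 := by
    intro z' h
    exact htw z' (by rw [h, pair_comm])
  by_cases h1 : e w < e z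
  · by_cases h2 : e w2 < e z
    · have := T.rule_two H hEX htw h1 h2 hR hR1 hR2 hR3
      omega
    · have := T.symm.rule_one H hEX htw' (by omega) h1 hr (fun h => hr1 h ⟨w, T.w_mem H, h1⟩
        ⟨w2, T.symm.w_mem H, by omega⟩) hR hR1 hR2
      omega
  · by_cases h2 : e w2 < e z
    · exact T.rule_one H hEX htw (by omega) h2 hr (fun h => hr1 h ⟨w2, T.symm.w_mem H, h2⟩
        ⟨w, T.w_mem H, by omega⟩) hR hR1 hR2
    · have := T.rule_none H hEX hz htw (by omega) (by omega)
      omega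

/-- the rule for an exchangeable join -/
theorem rule_ex (hz : 1 ≤ e z) (htw : ∀ z', c z' = {w, w2} → z' ≠ z → e z' = 0) :
    cl c c' e BG w + cl c c' e BG w2 ≤ sv c c' e z + 4 := by
  have htw' : ∀ z', c z' = {w2, w} → z' ≠ z → e z' = 0 := by
    intro z' h
    exact htw z' (by rw [h, pair_comm])
  have nle : ∀ y v : P, nk c' e y v ≤ 1 := by
    intro y v
    rcases nk_cases (c' := c') (e := e) y v with ⟨-, h⟩ | ⟨-, h⟩ <;> omega
  have a1 := cl_le_two (c := c) (c' := c') (e := e) (BG := BG) w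
  have a2 := cl_le_two (c := c) (c' := c') (e := e) (BG := BG) w2
  have s1 := sv_ge (e := e) H.S z
  by_cases h1 : e w < e z
  · have hk1 := H.kill (T.wS H) (T.z_mem H) h1
    have hx1 := hk1 x (T.x_mem H)
    by_cases h2 : e w2 < e z
    · have hk2 := H.kill (T.symm.wS H) (T.symm.z_mem H) h2
      have hx2 := hk2 x (T.symm.x_mem H)
      have e1 := (T.ckill H htw h1 hx2).1
      have e2 := (T.symm.ckill H htw' h2 hx1).1
      have := nle z w
      have := nle z w2
      omega
    · have e1 := (T.ckill H htw h1 (by omega)).1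
      have e2 := (T.symm.sv_co H (by omega) hx1).1
      have e3 : cl c c' e BG w2 = 0 := cl_zero (by omega)
      have := nle z w
      omega
  · by_cases h2 : e w2 < e z
    · have hk2 := H.kill (T.symm.wS H) (T.symm.z_mem H) h2
      have hx2 := hk2 x (T.symm.x_mem H)
      have e1 := (T.symm.ckill H htw' h2 (by omega)).1
      have e2 := (T.sv_co H (by omega) hx2).1
      have e3 : cl c c' e BG w = 0 := cl_zero (by omega)
      have := nle z w2
      omega
    · have := sv_none (c' := c') H.S T.cz T.ne (by omega : e z ≤ e w) (by omega : e z ≤ e w2)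
      omega

end TS

end Pool.Agent.GaussPoset.Win.Rd

end

/-! From `Pool.Agent.W_448rd_h10.RdC` -/

section

/-!
MP_448cb3_co, G2, window `j - 1`: the inequality for reduced cores, twins, joins with single
elements, existence of the shape.  helper10.
-/

namespace Pool.Agent.GaussPoset.Win.Rd

set_option linter.unusedSectionVars false

open Finset I2 K2
open Pool.Agent.GaussPoset.Win.H2 (SdT)

universe u

variable {P : Type u} [DecidableEq P]
variable {c c' : P → Finset P} {e : P → ℕ} {t : P → ℕ} {V Sd BG EX : Finset P}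

/-- a two element set with a given member -/
lemma pair_of {s : Finset P} {a : P} (h : s.card = 2) (ha : a ∈ s) : ∃ b, b ≠ a ∧ s = {b, a} := by
  obtain ⟨u, v, huv, rfl⟩ := card_eq_two.1 h
  rw [mem_insert, mem_singleton] at ha
  rcases ha with rfl | rfl
  · exact ⟨v, huv.symm, pair_comm _ _⟩
  · exact ⟨u, huv, rfl⟩

/-- a set with at most two elements contains no third one -/
lemma third {s : Finset P} {a b d : P} (h : s.card ≤ 2) (ha : a ∈ s) (hb : b ∈ s) (hd : d ∈ s)
    (hab : a ≠ b) (hdb : d ≠ b) : d = a := by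
  by_contra hda
  have h1 : ({a, b, d} : Finset P) ⊆ s := by
    intro y hy
    simp only [mem_insert, mem_singleton] at hy
    rcases hy with rfl | rfl | rfl <;> assumption
  have h2 := card_le_card h1
  rw [card_insert_of_notMem (by simp [hab, Ne.symm hda]), card_pair hdb.symm] at h2
  omega

lemma pair_eq_of {s : Finset P} {a b : P} (h : s.card ≤ 2) (ha : a ∈ s) (hb : b ∈ s)
    (hab : a ≠ b) : s = {a, b} := by
  symm
  apply eq_of_subset_of_card_le
  · intro y hy
    rw [mem_insert, mem_singleton] at hy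
    rcases hy with rfl | rfl <;> assumption
  · rw [card_pair hab]
    exact h

/-- near single elements -/
def SN (c c' : P → Finset P) (t : P → ℕ) (Sd : Finset P) (s : P) : Prop :=
  s ∈ Sd ∧ t s = 1 ∧ (c s).card = 1

/-- a single element which kills its site with another element -/
def Non (c c' : P → Finset P) (e : P → ℕ) (s : P) : Prop := ∃ x ∈ c s, e x < e s ∧ ok c' e s x

/-- `s` is single and kills a site together with `w` -/
def SKr (c c' : P → Finset P) (e : P → ℕ) (s w : P) : Prop :=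
  (c s).card = 1 ∧ s ≠ w ∧ ∃ x ∈ c s, x ∈ c w ∧ e x < e s ∧ e x < e w

open Classical in
/-- payment of a near single element to its children -/
noncomputable def ns (c c' : P → Finset P) (e : P → ℕ) (t : P → ℕ) (Sd : Finset P) (s : P) : ℤ :=
  if SN c c' t Sd s ∧ 1 ≤ e s then (if Non c c' e s then 2 else 1) else 0

open Classical in
/-- payment of an element `u` at distance three to its cover `z` -/
noncomputable def r3 (c c' : P → Finset P) (e : P → ℕ) (t : P → ℕ) (z u : P) : ℤ :=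
  if 2 ≤ e u ∧ t u = 3 ∧ (c z).card = 2 then (if (c u).card = 1 then 4 else if kl c e u then 0 else
    if ∃ z2 ∈ c u, z2 ≠ z ∧ (c z2).card = 1 then 4 else 2) else 0

lemma ns_nonneg (s : P) : 0 ≤ ns c c' e t Sd s := by unfold ns; split_ifs <;> omega

lemma r3_nonneg (z u : P) : 0 ≤ r3 c c' e t z u := by unfold r3; split_ifs <;> omega

lemma ns_ge {s : P} (h : SN c c' t Sd s) (h1 : 1 ≤ e s) : 1 ≤ ns c c' e t Sd s := by
  unfold ns
  rw [if_pos ⟨h, h1⟩]
  split_ifs <;> omega

lemma ns_non {s : P} (h : SN c c' t Sd s) (h1 : 1 ≤ e s) (h2 : Non c c' e s) :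
    ns c c' e t Sd s = 2 := by
  unfold ns
  rw [if_pos ⟨h, h1⟩, if_pos h2]

/-- double joins -/
def DJ (c : P → Finset P) (t : P → ℕ) (Sd : Finset P) (z : P) : Prop :=
  z ∈ Sd ∧ t z = 2 ∧ (c z).card = 2 ∧ ∀ w ∈ c z, (c w).card = 2

section basic

variable (H : Hyp c c' e t V Sd BG EX)
include H

/-- the shape at a double join -/
lemma Hyp.ts {z w : P} (hz : DJ c t Sd z) (hw : w ∈ c z) :
    ∃ w2 p x q, TS c c' t Sd z w w2 p x q := by
  obtain ⟨hzS, tz, h2, hd⟩ := hz
  obtain ⟨w2, hne, hcz⟩ := pair_of h2 hw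
  have hw2 : w2 ∈ c z := by rw [hcz]; simp
  obtain ⟨x, x1, x2⟩ := H.hT z hzS tz w hw w2 hw2 hne.symm (hd w hw)
  obtain ⟨p, p1, p2⟩ := pair_of (hd w hw) x1
  obtain ⟨q, q1, q2⟩ := pair_of (hd w2 hw2) x2
  have wS := (H.cov hzS (by omega) hw)
  have w2S := (H.cov hzS (by omega) hw2)
  refine ⟨w2, p, x, q, ⟨hzS, tz, by rw [hcz, pair_comm], p2, by rw [q2, pair_comm], ?_, hne.symm, p1,
    q1.symm, ?_⟩⟩
  · exact pair_eq_of (H.S.c2' x) ((H.S.dual _ _).1 x1) ((H.S.dual _ _).1 x2) hne.symm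
  · rintro rfl
    have := H.share w wS.1 w2 w2S.1 (by omega) hne.symm x x1 p (by rw [p2]; simp) x2
      (by rw [q2]; simp)
    exact p1 this.symm

/-- values at distance two -/
lemma Hyp.sv_two {z : P} (hz : z ∈ Sd) (tz : t z = 2) : -2 ≤ sv c c' e z := by
  by_cases h : kl c e z
  · have h1 := K2.t_le_of_kl H.S H.adm _ z hz h rfl
    have h2 := sv_ge (e := e) H.S z
    omega
  · rw [sv_not_kl h]
    omega

/-- the join of a double and a single element -/
lemma Hyp.semi {z w s : P} (hz : z ∈ Sd) (tz : t z = 2) (cz : c z = {w, s}) (hne : w ≠ s)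
    (cw : (c w).card = 2) (cs : (c s).card = 1) (h1 : 1 ≤ e z) {k : ℤ} (hk : k ≤ 2)
    (hk2 : SKr c c' e s w → k ≤ 0) : k ≤ sv c c' e z + ns c c' e t Sd s := by
  have hw : w ∈ c z := by rw [cz]; simp
  have hs : s ∈ c z := by rw [cz]; simp
  obtain ⟨wS, tw⟩ := H.cov hz (by omega) hw
  obtain ⟨sS, ts⟩ := H.cov hz (by omega) hs
  obtain ⟨x, x1, x2⟩ := H.hT z hz tz w hw s hs hne cw
  have zw : z ∈ c' w := (H.S.dual _ _).1 hw
  have zs : z ∈ c' s := (H.S.dual _ _).1 hs
  have ew := H.pos wS zw h1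
  have es := H.pos sS zs h1
  have hSN : SN c c' t Sd s := ⟨sS, by omega, cs⟩
  have hns := ns_ge hSN es
  by_cases hc : e x < e s ∧ e x < e w
  · have hN : Non c c' e s := ⟨x, x2, hc.1, w, (H.S.dual _ _).1 x1, hne, hc.2⟩
    have := ns_non hSN es hN
    have := hk2 ⟨cs, hne.symm, x, x2, x1, hc.1, hc.2⟩
    have := H.sv_two hz tz
    omega
  · have hkl : ¬ kl c e z := by
      rw [kl_two H.S cz hne]
      rintro (h2 | h2)
      · have h3 := H.kill wS zw h2 x x1
        have h4 := H.le_of_gu sS zs x2 (by omega)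
        omega
      · have h3 := H.kill sS zs h2 x x2
        have h4 := H.le_of_gu wS zw x1 (by omega)
        omega
    rw [sv_not_kl hkl]
    omega

/-- the join of two single elements -/
lemma Hyp.singles {z w s : P} (hz : z ∈ Sd) (tz : t z = 2) (cz : c z = {w, s})
    (cw : (c w).card = 1) (cs : (c s).card = 1) (h1 : 1 ≤ e z) :
    0 ≤ sv c c' e z + ns c c' e t Sd w + ns c c' e t Sd s := by
  have hw : w ∈ c z := by rw [cz]; simp
  have hs : s ∈ c z := by rw [cz]; simp
  obtain ⟨wS, tw⟩ := H.cov hz (by omega) hw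
  obtain ⟨sS, ts⟩ := H.cov hz (by omega) hs
  have ew := H.pos wS ((H.S.dual _ _).1 hw) h1
  have es := H.pos sS ((H.S.dual _ _).1 hs) h1
  have hs1 : SN c c' t Sd s := ⟨sS, by omega, cs⟩
  have hw1 : SN c c' t Sd w := ⟨wS, by omega, cw⟩
  have a1 := ns_ge (e := e) hs1 es
  have a2 := ns_ge (e := e) hw1 ew
  have := H.sv_two hz tz
  omega

/-- a near single element can pay -/
lemma Hyp.single {s : P} (hs : SN c c' t Sd s) {k m : ℕ} (hk : k ≤ 2) (hm : m ≤ 1)
    (hm2 : 0 < m → Non c c' e s) : ns c c' e t Sd s * k + m ≤ sv c c' e s := by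
  obtain ⟨sS, ts, cs⟩ := hs
  obtain ⟨x, hx⟩ := card_eq_one.1 cs
  by_cases hN : Non c c' e s
  · obtain ⟨x', x1, x2, x3⟩ := hN
    have hx' : x' = x := by rw [hx, mem_singleton] at x1; exact x1
    subst hx'
    rw [ns_non ⟨sS, ts, cs⟩ (by omega) ⟨x', x1, x2, x3⟩, sv_single H.S hx x2, nk_zero x3]
    omega
  · have h0 : m = 0 := by
      by_contra h0
      exact hN (hm2 (by omega))
    have h1 := sv_single_ge (c' := c') (e := e) H.S hx
    unfold ns
    by_cases h2 : SN c c' t Sd s ∧ 1 ≤ e s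
    · rw [if_pos h2, if_neg hN, h0]
      have := h2.2
      push_cast
      omega
    · rw [if_neg h2, h0]
      push_cast
      omega

/-- an element at distance three can pay -/
lemma Hyp.three {u : P} (hu : u ∈ Sd) (tu : t u = 3) :
    ∑ z ∈ c u, r3 c c' e t z u ≤ sv c c' e u := by
  have hc := H.S.c2 u
  have hc1 : 1 ≤ (c u).card := card_pos.2 (H.S.ne u hu)
  have hf := sv_far H.S H.adm hu (by omega)
  by_cases h2 : 2 ≤ e u
  · by_cases h3 : (c u).card = 1
    · obtain ⟨x, hx⟩ := card_eq_one.1 h3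
      have h1 := sv_single_ge (c' := c') (e := e) H.S hx
      rw [hx, sum_singleton]
      unfold r3
      split_ifs <;> omega
    · by_cases h4 : kl c e u
      · rw [sum_eq_zero]
        · exact hf
        · intro z hz
          unfold r3
          rw [if_neg h3, if_pos h4]
          split_ifs <;> rfl
      · rw [sv_not_kl h4]
        obtain ⟨z, z', hne, hcu⟩ := card_eq_two.1 (by omega : (c u).card = 2)
        rw [hcu, Finset.sum_pair hne]
        have k1 : r3 c c' e t z u ≤ 4 ∧ ((c z').card ≠ 1 → r3 c c' e t z u ≤ 2) ∧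
            ((c z).card ≠ 2 → r3 c c' e t z u = 0) := by
          unfold r3
          rw [if_neg h3, if_neg h4]
          refine ⟨by split_ifs <;> omega, ?_, ?_⟩
          · intro h5
            rw [if_neg (c := ∃ z2 ∈ c u, z2 ≠ z ∧ (c z2).card = 1)]
            · split_ifs <;> omega
            · rintro ⟨z2, h6, h7, h8⟩
              rw [hcu, mem_insert, mem_singleton] at h6
              rcases h6 with rfl | rfl
              · exact h7 rfl
              · exact h5 h8
          · intro h5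
            rw [if_neg (fun h => h5 h.2.2)]
        have k2 : r3 c c' e t z' u ≤ 4 ∧ ((c z).card ≠ 1 → r3 c c' e t z' u ≤ 2) ∧
            ((c z').card ≠ 2 → r3 c c' e t z' u = 0) := by
          unfold r3
          rw [if_neg h3, if_neg h4]
          refine ⟨by split_ifs <;> omega, ?_, ?_⟩
          · intro h5
            rw [if_neg (c := ∃ z2 ∈ c u, z2 ≠ z' ∧ (c z2).card = 1)]
            · split_ifs <;> omega
            · rintro ⟨z2, h6, h7, h8⟩
              rw [hcu, mem_insert, mem_singleton] at h6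
              rcases h6 with rfl | rfl
              · exact h5 h8
              · exact h7 rfl
          · intro h5
            rw [if_neg (fun h => h5 h.2.2)]
        by_cases c1 : (c z).card = 2
        · by_cases c2 : (c z').card = 2
          · have := k1.2.1 (by omega)
            have := k2.2.1 (by omega)
            omega
          · have := k2.2.2 c2
            omega
        · have := k1.2.2 c1
          omega
  · rw [sum_eq_zero]
    · exact hf
    · intro z hz
      unfold r3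
      rw [if_neg (fun h => h2 h.1)]

/-- a join of two positive twins -/
lemma Hyp.twins {z z' w w2 p x q : P} (T : TS c c' t Sd z w w2 p x q) (h' : c z' = {w, w2})
    (hne : z' ≠ z) (h1 : 1 ≤ e z') (hle : e z' ≤ e z) {k : ℤ} (hk : 0 ≤ k)
    (hk2 : kl c e z → ¬ kl c e z' → 1 ≤ k)
    (hk3 : e z = 2 → e z' = 1 → e w = 1 → e w2 = 1 → nk c' e w p = 1 → nk c' e w2 q = 1 → 2 ≤ k) :
    cl c c' e BG w + cl c c' e BG w2 ≤ sv c c' e z + sv c c' e z' + k := by
  have zw := T.z_mem H
  have zw2 := T.symm.z_mem H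
  have z'w : z' ∈ c' w := (H.S.dual _ _).1 (by rw [h']; simp)
  have z'w2 : z' ∈ c' w2 := (H.S.dual _ _).1 (by rw [h']; simp)
  have wS := T.wS H
  have w2S := T.symm.wS H
  have ew := H.pos wS z'w h1
  have ew2 := H.pos w2S z'w2 h1
  have a1 := cl_le_two (c := c) (c' := c') (e := e) (BG := BG) w
  have a2 := cl_le_two (c := c) (c' := c') (e := e) (BG := BG) w2
  have nle : ∀ y v : P, nk c' e y v ≤ 1 := by
    intro y v
    rcases nk_cases (c' := c') (e := e) y v with ⟨-, h⟩ | ⟨-, h⟩ <;> omega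
  by_cases f1 : e w < e z'
  · have k1 := H.kill wS z'w f1 x (T.x_mem H)
    have n1 : nk c' e z w = 0 := nk_zero ⟨z', z'w, hne, f1⟩
    have n1' : nk c' e z' w = 0 := nk_zero ⟨z, zw, hne.symm, by omega⟩
    by_cases f2 : e w2 < e z'
    · have n2 : nk c' e z w2 = 0 := nk_zero ⟨z', z'w2, hne, f2⟩
      have n2' : nk c' e z' w2 = 0 := nk_zero ⟨z, zw2, hne.symm, by omega⟩
      have s1 := sv_both (c' := c') H.S T.cz T.ne (by omega : e w < e z) (by omega : e w2 < e z)
      have s2 := sv_both (c' := c') H.S h' T.ne f1 f2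
      rw [n1, n2] at s1
      rw [n1', n2'] at s2
      omega
    · have s2 := sv_one (c' := c') H.S h' T.ne f1 (by omega : e z' ≤ e w2)
      rw [n1'] at s2
      have b1 := (T.symm.sv_co H (by omega) k1).1
      have b2 := (T.sv_co H k1 (by omega)).1
      have c1 : cl c c' e BG w2 = 0 := cl_zero (by omega)
      have c2 : cl c c' e BG w ≤ 1 := cl_le_one (by omega)
      by_cases f3 : e w2 < e z
      · have s1 := sv_both (c' := c') H.S T.cz T.ne (by omega : e w < e z) f3
        rw [n1] at s1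
        have := nle z w2
        omega
      · have s1 := sv_one (c' := c') H.S T.cz T.ne (by omega : e w < e z) (by omega : e z ≤ e w2)
        rw [n1] at s1
        omega
  · by_cases f2 : e w2 < e z'
    · have k1 := H.kill w2S z'w2 f2 x (T.symm.x_mem H)
      have n2 : nk c' e z w2 = 0 := nk_zero ⟨z', z'w2, hne, f2⟩
      have n2' : nk c' e z' w2 = 0 := nk_zero ⟨z, zw2, hne.symm, by omega⟩
      have s2 := sv_one' (c' := c') H.S h' T.ne (by omega : e z' ≤ e w) f2
      rw [n2'] at s2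
      have b1 := (T.sv_co H (by omega) k1).1
      have b2 := (T.symm.sv_co H k1 (by omega)).1
      have c1 : cl c c' e BG w = 0 := cl_zero (by omega)
      have c2 : cl c c' e BG w2 ≤ 1 := cl_le_one (by omega)
      by_cases f3 : e w < e z
      · have s1 := sv_both (c' := c') H.S T.cz T.ne f3 (by omega : e w2 < e z)
        rw [n2] at s1
        have := nle z w
        omega
      · have s1 := sv_one' (c' := c') H.S T.cz T.ne (by omega : e z ≤ e w) (by omega : e w2 < e z)
        rw [n2] at s1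
        omega
    · have hn : ¬ kl c e z' := by
        rw [kl_two H.S h' T.ne]
        omega
      have s2 := sv_none (c' := c') H.S h' T.ne (by omega : e z' ≤ e w) (by omega : e z' ≤ e w2)
      by_cases f3 : e w < e z
      · have hkz : 1 ≤ k := hk2 ⟨w, T.w_mem H, f3⟩ hn
        have k1 := H.kill wS zw f3 x (T.x_mem H)
        have s1 := sv_ge (e := e) H.S z
        by_cases f4 : e w2 < e z
        · have k2 := H.kill w2S zw2 f4 x (T.symm.x_mem H)
          have k3 := H.kill wS zw f3 p (T.p_mem H)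
          have k4 := H.kill w2S zw2 f4 q (T.symm.p_mem H)
          obtain ⟨b1, b3⟩ := T.sv_co H k1 k2
          obtain ⟨b2, b4⟩ := T.symm.sv_co H k2 k1
          have b3 := b3 k3
          have b4 := b4 k4
          have c1 : cl c c' e BG w ≤ 1 := cl_le_one (by omega)
          have c2 : cl c c' e BG w2 ≤ 1 := cl_le_one (by omega)
          by_cases f5 : 4 ≤ e z + e z'
          · omega
          · rcases nk_cases (c' := c') (e := e) w p with ⟨-, n1⟩ | ⟨-, n1⟩
            · rw [n1] at b3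
              have c3 : cl c c' e BG w = 0 := cl_zero (by omega)
              omega
            · rcases nk_cases (c' := c') (e := e) w2 q with ⟨-, n2⟩ | ⟨-, n2⟩
              · rw [n2] at b4
                have c3 : cl c c' e BG w2 = 0 := cl_zero (by omega)
                omega
              · have := hk3 (by omega) (by omega) (by omega) (by omega) n1 n2
                omega
        · have b1 := (T.sv_co H k1 (by omega)).1
          have b2 := (T.symm.sv_co H (by omega) k1).1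
          have c1 : cl c c' e BG w ≤ 1 := cl_le_one (by omega)
          have c2 : cl c c' e BG w2 = 0 := cl_zero (by omega)
          omega
      · by_cases f4 : e w2 < e z
        · have hkz : 1 ≤ k := hk2 ⟨w2, T.symm.w_mem H, f4⟩ hn
          have k1 := H.kill w2S zw2 f4 x (T.symm.x_mem H)
          have s1 := sv_ge (e := e) H.S z
          have b1 := (T.symm.sv_co H k1 (by omega)).1
          have b2 := (T.sv_co H (by omega) k1).1
          have c1 : cl c c' e BG w2 ≤ 1 := cl_le_one (by omega)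
          have c2 : cl c c' e BG w = 0 := cl_zero (by omega)
          omega
        · have s1 := sv_none (c' := c') H.S T.cz T.ne (by omega : e z ≤ e w)
            (by omega : e z ≤ e w2)
          omega

end basic

end Pool.Agent.GaussPoset.Win.Rd

end
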