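import Mathlib
import Pool.Agent.W_448zz_h61.Ns
import Pool.Agent.W_448zz_h61.M039
import Pool.Agent.W_448zz_h61.M040
import Pool.Agent.W_448zz_h61.M043
import Pool.Agent.W_448zz_h61.M045
import Pool.Agent.W_448zz_h61.M118

/-! From `Pool.Agent.W_448s8_h76.SaD` -/

section

/-!
The natural system at window `m`, level `2 m` (MP_448cb3_co, S8).
-/

namespace Pool.Agent.GaussPoset

set_option linter.unusedSectionVars false

open Polynomial Finset

universe u

variable {P : Type u} [Fintype P] [PartialOrder P] [DecidableEq P] {r m : ℕ}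
  {N : Tops P → Finset P} {b : Tops P → ℕ} {θ : Tops P → P → ℕ}

open Classical in
/-- number of elements of level `l` below `t` -/
noncomputable def cn (l : ℕ) (t : P) : ℕ := ((lv P l).filter (fun x => x ≤ t)).card

/-- a quadric strip: two elements on level `a` only -/
structure QInf (m a : ℕ) (t : Tops P) : Prop where
  cn : ∀ l, l ≤ 2 * m → cn l (t : P) = if l = a then 2 else 1
  bot : ∀ v ≤ (t : P), lev v = 2 * m → ∀ x ≤ (t : P), lev x ≤ 2 * m → v ≤ x
  iso : Nonempty ({x : P // x ∈ lowPart (2 * m) (t : P)} ≃o Qd a (2 * m - a))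

/-- what is used about the light components -/
inductive LInf (m : ℕ) (t : Tops P) : Prop
  | late (h1 : ∀ l, l ≤ m + 2 → cn l (t : P) = 1)
      (h2 : ∀ v ≤ (t : P), lev v = 2 * m → (Win.uc v).card = 1 →
        ∑ l ∈ range (2 * m), (nab l v - 1) ≤ 5)
  | quad (a : ℕ) (h1 : a = m + 1 ∨ a = m + 2) (h2 : QInf m a t)

/-- no pendants below the doubles of level `2 m` -/
def NopT (m : ℕ) (t : Tops P) : Prop := ∀ x z : P, x ≤ (t : P) → lev x = 2 * m →
  (Win.uc x).card = 2 → z ⋖ x → ¬ ∀ y, z ⋖ y → y = x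

/-- the types at window `m` -/
inductive TyM (m : ℕ) (t : Tops P) (b : ℕ) (N : Finset P) (θ : P → ℕ) : Prop
  | light (h1 : N = onlyB t) (h2 : θ = fun x => lev x - m) (h3 : b = 1)
      (h5 : ∀ x, x ≤ (t : P) → lev x ≤ 2 * m → x ∈ onlyB t) (h6 : ∃ x ≤ (t : P), lev x = m)
      (h7 : LInf m t)
  | rect (Nc : Finset P) (co : P → ℕ × ℕ) (h0 : RectNat (2 * m) m t b Nc co)
      (h1 : N = natR Nc co) (h2 : θ = thR m b Nc co) (h3 : NopT m t)
  | stair (Nc : Finset P) (co : P → ℕ × ℕ) (h0 : StairNat (2 * m) m t Nc co)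
      (h1 : N = natS Nc co) (h2 : θ = thS m Nc co) (h3 : b = m / 2 + 1) (h4 : NopT m t)
  | quad (h1 : N = lowPart (2 * m) (t : P)) (h2 : θ = fun _ => 0) (h3 : b = 2)
      (h4 : QInf m m t)

/-- the complete quadric as a natural set of order 2 -/
theorem natTop_quad {t : Tops P} (hm : 1 ≤ m)
    (hQ : (1 + X : Polynomial (PowerSeries ℤ)) ^ 2 ∣ W (Qd m m) m) (h : QInf m m t)
    (hup : ∀ x ∈ lowPart (2 * m) (t : P), ∀ y, x ≤ y → y ∈ lowPart (2 * m) (t : P)) :
    NatTop m t 2 (lowPart (2 * m) (t : P)) (fun _ => 0)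
      (fun x => x ∈ lowPart (2 * m) (t : P)) := by
  refine LocData.natTop ⟨?_, ?_, ?_, ?_, ?_⟩ hup (fun x hx => (mem_lowPart.mp hx).1)
    (fun x hx hxi => mem_lowPart.mpr ⟨hx, by omega⟩)
  · intro U hUN _ _ hB
    obtain ⟨e⟩ := h.iso
    have hU : U = lowPart (2 * m) (t : P) := Finset.Subset.antisymm hUN fun x hx => hB x hx hx
    subst hU
    rw [show 2 * m - m = m by omega] at e
    rw [W_iso e]
    exact hQ
  · intro x _ h; exact absurd h (by norm_num)
  · intro x _ h; exact absurd h (by norm_num)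
  · intro x _ h; exact absurd h (by norm_num)
  · intro x _; exact Nat.zero_le _

/-- the context -/
structure WM (r m : ℕ) (N : Tops P → Finset P) (b : Tops P → ℕ) (θ : Tops P → P → ℕ) : Prop where
  gt : Win.GoodTo P r (2 * m)
  hr : 2 * m + 1 ≤ r
  ten : 10 ≤ m
  hQ : (1 + X : Polynomial (PowerSeries ℤ)) ^ 2 ∣ W (Qd m m) m
  typ : ∀ t, TyM m t (b t) (N t) (θ t)
  sum_b : ∑ t, b t = (lv P m).card

lemma WM.lowUp (W : WM r m N b θ) (t : Tops P) :
    ∀ x ∈ lowPart (2 * m) (t : P), ∀ y, x ≤ y → y ∈ lowPart (2 * m) (t : P) := by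
  intro x hx y hxy
  rw [mem_lowPart] at hx ⊢
  refine ⟨Cp.up_le W.gt.H W.gt.good t.2 hx.1 hx.2 hxy, ?_⟩
  rcases eq_or_lt_of_le hxy with h | h
  · rw [← h]; exact hx.2
  · have := lev_strictAnti h; omega

theorem WM.natTop (W : WM r m N b θ) (t : Tops P) : ∃ B, NatTop m t (b t) (N t) (θ t) B := by
  have hm := W.ten
  have hgr := W.gt.H.gradedBelow
  rcases W.typ t with ⟨h1, h2, h3, h5, h6, h7⟩ | ⟨Nc, co, h0, h1, h2, h3⟩ |
    ⟨Nc, co, h0, h1, h2, h3, h4⟩ | ⟨h1, h2, h3, h4⟩
  · rw [h1, h2, h3]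
    exact ⟨_, natTop_light hgr (fun x hx hxi => h5 x hx (by omega)) h6⟩
  · rw [h1, h2]
    exact ⟨_, h0.natTop hgr (by omega)⟩
  · rw [h1, h2, h3]
    exact ⟨_, h0.natTop hgr (by omega) (by omega)⟩
  · rw [h1, h2, h3]
    exact ⟨_, natTop_quad (by omega) W.hQ h4 (W.lowUp t)⟩

lemma WM.natSys (W : WM r m N b θ) : NatSys N := by
  choose B hB using W.natTop
  exact natSys_of_tops hB

lemma WM.low (W : WM r m N b θ) {x : P} (hx : lev x ≤ 2 * m) : x ∉ unnat N := by
  intro h
  refine mem_unnat.mp h (topOf x) ?_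
  rcases W.typ (topOf x) with ⟨h1, h2, h3, h5, h6, h7⟩ | ⟨Nc, co, h0, h1, h2, h3⟩ |
    ⟨Nc, co, h0, h1, h2, h3, h4⟩ | ⟨h1, h2, h3, h4⟩
  · rw [h1]; exact h5 x (le_topOf x) hx
  · rw [h1]; exact mem_natR.mpr (Or.inl (h0.strip (mem_lowPart.mpr ⟨le_topOf x, hx⟩)))
  · rw [h1]; exact mem_natS.mpr (Or.inl (h0.strip (mem_lowPart.mpr ⟨le_topOf x, hx⟩)))
  · rw [h1]; exact mem_lowPart.mpr ⟨le_topOf x, hx⟩

lemma WM.lt_lev (W : WM r m N b θ) {x : P} (hx : x ∈ unnat N) : 2 * m < lev x := by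
  by_contra hcon
  exact W.low (not_lt.mp hcon) hx

/-- natural elements with full threshold -/
structure FullM (m : ℕ) (N : Tops P → Finset P) (θ : Tops P → P → ℕ) (x : P) : Prop where
  th : θ (topOf x) x = lev x - m
  two : ∀ z ∈ unnat N, z ≤ x → ∀ k, 2 ≤ k → k ≤ lev x → 2 ≤ nab k z
  tw : ∀ z ∈ unnat N, ¬ ∀ w, x < w ↔ z < w

/-- inner cells of rectangle-like components -/
structure InRM (m : ℕ) (N : Tops P → Finset P) (b : Tops P → ℕ) (θ : Tops P → P → ℕ) (x : P)
    (Nc : Finset P) (co : P → ℕ × ℕ) : Prop where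
  rect : RectNat (2 * m) m (topOf x) (b (topOf x)) Nc co
  nat : N (topOf x) = natR Nc co
  mem : x ∈ Nc
  fst : 1 ≤ (co x).1
  snd : 1 ≤ (co x).2
  th : θ (topOf x) x = ((co x).1 - m) + ((co x).2 - m)
  nop : NopT m (topOf x)

/-- inner cells of stair-like components -/
structure InSM (m : ℕ) (N : Tops P → Finset P) (b : Tops P → ℕ) (θ : Tops P → P → ℕ) (x : P)
    (Nc : Finset P) (co : P → ℕ × ℕ) : Prop where
  stair : StairNat (2 * m) m (topOf x) Nc co
  nat : N (topOf x) = natS Nc co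
  mem : x ∈ Nc
  fst : 1 ≤ (co x).1
  th : θ (topOf x) x = ((co x).1 - 2 * (m / 2)) + ((co x).2 - m)
  nop : NopT m (topOf x)

/-- elements of complete quadrics -/
structure QdM (m : ℕ) (N : Tops P → Finset P) (θ : Tops P → P → ℕ) (x : P) : Prop where
  nat : N (topOf x) = lowPart (2 * m) (topOf x : P)
  th : θ (topOf x) x = 0
  lev : Pool.Agent.GaussPoset.lev x ≤ 2 * m
  inf : QInf m m (topOf x)

/-- straight cells of stairs have no unnatural twins -/
lemma straight_twinS (H : Gr P r) {t : Tops P} {i j : ℕ} {Nc : Finset P} {co : P → ℕ × ℕ}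
    (R : StairNat j i t Nc co) (hj : 1 ≤ j) (hNt : N t = natS Nc co) {x u z : P} (hx : x ∈ Nc)
    (hu : u ∈ Nc) (hxu : Prd (co x) (co u)) (hun : ∀ y ∈ Nc, Prd (co x) (co y) → co y = co u)
    (h0 : (co u).1 = 0) (hz : z ∈ unnat N) (h : ∀ w, x < w ↔ z < w) : False := by
  have h1 : x ⋖ u := (chart_cov R.chart H hx hu).mpr hxu
  have h2 : z ⋖ u := (cov_of_up h).mp h1
  have h3 := stair_pendant H R hj hNt hz (x := u) (by rw [hNt]; exact mem_natS.mpr (Or.inl hu)) h2
    (by
    intro y hy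
    have hy1 : x ⋖ y := (cov_of_up h).mpr hy
    have hyN := R.chart.up x hx y hy1.le
    exact R.chart.inj y hyN u hu (hun y hyN ((chart_cov R.chart H hx hyN).mp hy1)))
  have := h3.2.2
  omega

/-- the kinds of natural elements -/
theorem WM.cases (W : WM r m N b θ) {x : P} (hx : x ∉ unnat N) : FullM m N θ x ∨
    (∃ Nc co, InRM m N b θ x Nc co) ∨ (∃ Nc co, InSM m N b θ x Nc co) ∨ QdM m N θ x := by
  have H := W.gt.H
  have HN := W.natSys
  have hxt : x ∈ N (topOf x) := HN.mem_iff.mpr ⟨hx, rfl⟩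
  have hm := W.ten
  have hT := W.typ (topOf x)
  generalize ht : topOf x = t at hxt hT
  rcases hT with ⟨h1, h2, h3, h5, h6, h7⟩ | ⟨Nc, co, h0, h1, h2, h3⟩ |
    ⟨Nc, co, h0, h1, h2, h3, h4⟩ | ⟨h1, h2, h3, h4⟩
  · left
    have hs : ∀ z ∈ unnat N, ∃ s : P, lev s = 0 ∧ z ≤ s ∧ s ≠ t := by
      intro z hz
      have h7 : z ∉ onlyB t := by
        rw [← h1]
        exact mem_unnat.mp hz t
      rw [mem_onlyB] at h7
      push Not at h7
      exact h7
    refine ⟨by rw [ht, h2], ?_, ?_⟩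
    · intro z hz hzx k _ hk
      obtain ⟨s, hs1, hs2, hs3⟩ := hs z hz
      exact two_le_nab_join HN H.gradedBelow hxt hzx hs1 hs3 hs2 hk
    · intro z hz h
      obtain ⟨s, hs1, hs2, hs3⟩ := hs z hz
      have h7 := W.lt_lev hz
      have h8 : z < s := lt_of_le_of_ne hs2 (by rintro rfl; omega)
      exact hs3 (HN.top_eq hxt hs1 ((h s).mpr h8).le)
  · -- rectangles
    by_cases hJ : x ∈ junk (fun _ => True) Nc co ∨ x ∈ junk (fun _ => True) Nc (swp co)
    · left
      refine ⟨?_, ?_, ?_⟩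
      · rw [ht, h2]
        unfold thR
        rw [if_pos hJ]
      · intro z hz hzx k hk hkx
        refine rect_two_le_nab H h0 h1 hz hzx ?_ (by omega) hkx
        rcases hJ with h | h
        · exact Or.inl h
        · exact Or.inr (Or.inl h)
      · intro z hz h
        refine mem_unnat.mp hz t ?_
        rw [h1, mem_natR]
        rcases hJ with h' | h'
        · exact Or.inr (Or.inl (junk_twin h' h))
        · exact Or.inr (Or.inr (junk_twin h' h))
    · have hxN : x ∈ Nc := by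
        rw [h1, mem_natR] at hxt
        rcases hxt with h | h | h
        · exact h
        · exact absurd (Or.inl h) hJ
        · exact absurd (Or.inr h) hJ
      have hl := h0.chart.lev x hxN
      have hb1 := h0.b_two
      have hb2 := h0.b_le
      have hrow : b t = m + 1 ∨ (co x).1 ≤ b t - 1 := by
        rcases h0.rows with h | h
        · exact Or.inl h
        · exact Or.inr (h x hxN)
      by_cases h7 : (co x).1 = 0 ∨ (co x).2 = 0
      · left
        refine ⟨?_, ?_, ?_⟩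
        · rw [ht, h2]
          unfold thR
          rw [if_neg hJ]
          omega
        · intro z hz hzx k hk hkx
          exact rect_two_le_nab H h0 h1 hz hzx (Or.inr (Or.inr ⟨hxN, h7⟩)) (by omega) hkx
        · intro z hz h
          have h8 := W.lt_lev hz
          rw [← lev_eq_of_up h] at h8
          rcases h7 with h7 | h7
          · obtain ⟨u, hu, hcu⟩ := h0.chart.low x hxN (0, (co x).2 - 1)
              ⟨Nat.zero_le _, Nat.sub_le _ _⟩ trivial
            refine straight_twin H h0 h1 hxN hu ?_ ?_ ?_ hz h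
            · rw [hcu]
              exact Or.inr ⟨by simp only; omega, by simp only; omega⟩
            · intro y hy hp
              rw [hcu]
              rcases hp with hp | hp
              · omega
              · exact Prod.ext (by simp only; omega) (by simp only; omega)
            · rw [hcu]
              exact Or.inl rfl
          · obtain ⟨u, hu, hcu⟩ := h0.chart.low x hxN ((co x).1 - 1, 0)
              ⟨Nat.sub_le _ _, Nat.zero_le _⟩ trivial
            refine straight_twin H h0 h1 hxN hu ?_ ?_ ?_ hz h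
            · rw [hcu]
              exact Or.inl ⟨by simp only; omega, by simp only; omega⟩
            · intro y hy hp
              rw [hcu]
              rcases hp with hp | hp
              · exact Prod.ext (by simp only; omega) (by simp only; omega)
              · omega
            · rw [hcu]
              exact Or.inr rfl
      · right; left
        refine ⟨Nc, co, ?_, ?_, hxN, by omega, by omega, ?_, ?_⟩
        · rw [ht]; exact h0
        · rw [ht]; exact h1
        · rw [ht, h2]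
          unfold thR
          rw [if_neg hJ]
          omega
        · rw [ht]; exact h3
  · -- stairs
    by_cases hJ : x ∈ junk (fun c => c.1 ≤ c.2) Nc co
    · left
      refine ⟨?_, ?_, ?_⟩
      · rw [ht, h2]
        unfold thS
        rw [if_pos hJ]
      · intro z hz hzx k hk hkx
        exact stair_two_le_nab H h0 h1 hz hzx (Or.inl hJ) hk hkx
      · intro z hz h
        refine mem_unnat.mp hz t ?_
        rw [h1, mem_natS]
        exact Or.inr (junk_twin hJ h)
    · have hxN : x ∈ Nc := by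
        rw [h1, mem_natS] at hxt
        rcases hxt with h | h
        · exact h
        · exact absurd h hJ
      have hl := h0.chart.lev x hxN
      by_cases h7 : (co x).1 = 0
      · left
        refine ⟨?_, ?_, ?_⟩
        · rw [ht, h2]
          unfold thS
          rw [if_neg hJ]
          omega
        · intro z hz hzx k hk hkx
          exact stair_two_le_nab H h0 h1 hz hzx (Or.inr ⟨hxN, h7⟩) hk hkx
        · intro z hz h
          have h8 := W.lt_lev hz
          rw [← lev_eq_of_up h] at h8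
          obtain ⟨u, hu, hcu⟩ := h0.chart.low x hxN (0, (co x).2 - 1)
            ⟨Nat.zero_le _, Nat.sub_le _ _⟩ (Nat.zero_le _)
          refine straight_twinS H h0 (by omega) h1 hxN hu ?_ ?_ ?_ hz h
          · rw [hcu]
            exact Or.inr ⟨by simp only; omega, by simp only; omega⟩
          · intro y hy hp
            rw [hcu]
            rcases hp with hp | hp
            · omega
            · exact Prod.ext (by simp only; omega) (by simp only; omega)
          · rw [hcu]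
      · right; right; left
        refine ⟨Nc, co, ?_, ?_, hxN, by omega, ?_, ?_⟩
        · rw [ht]; exact h0
        · rw [ht]; exact h1
        · rw [ht, h2]
          unfold thS
          rw [if_neg hJ]
        · rw [ht]; exact h4
  · right; right; right
    rw [h1, mem_lowPart] at hxt
    refine ⟨by rw [ht]; exact h1, by rw [ht, h2], hxt.2, by rw [ht]; exact h4⟩

end Pool.Agent.GaussPoset

end

/-! From `Pool.Agent.W_448s8_h76.SaE` -/

section

/-!
Twins, the bound `Kb`, the boundary elements of level at least `2 m + 2` (MP_448cb3_co, S8).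
-/

namespace Pool.Agent.GaussPoset

set_option linter.unusedSectionVars false

open Polynomial Finset

universe u

variable {P : Type u} [Fintype P] [PartialOrder P] [DecidableEq P] {r m : ℕ}
  {N : Tops P → Finset P} {b : Tops P → ℕ} {θ : Tops P → P → ℕ}

/-- the system of twins -/
theorem WM.twSys (W : WM r m N b θ) : TwSys (unnat N) (twY (2 * m) N) topOf (twT N) where
  sub := fun x hx => (mem_twY.mp hx).1
  nat := fun x hx => (twT_spec (mem_twY.mp hx).2.2).1
  up := fun x hx => (twT_spec (mem_twY.mp hx).2.2).2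
  inj := by
    intro x hx x' hx' h
    have h1 := mem_twY.mp hx
    have h2 := mem_twY.mp hx'
    have h3 := twT_spec h1.2.2
    have h4 := twT_spec h2.2.2
    by_contra hne
    have h5 : x < (topOf x : P) := lt_of_le_of_ne (le_topOf x) (by
      intro h
      have := (topOf x).2
      rw [← h] at this
      omega)
    obtain ⟨u, hu, -⟩ := Hul.exists_cov h5
    have hu' : twT N x ⋖ u := (cov_of_up h3.2).mpr hu
    have hu'' : x' ⋖ u := by
      rw [h] at hu'
      exact (cov_of_up h4.2).mp hu'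
    refine Win.dc_three W.gt.H hu hu'' hu' hne ?_ ?_
    · intro h6
      exact h3.1 (h6 ▸ h1.1)
    · intro h6
      rw [h] at h6
      exact h4.1 (h6 ▸ h2.1)
  anti := by
    intro x hx y hy h
    have h1 := mem_twY.mp hx
    have h2 := mem_twY.mp hy
    have := lev_strictAnti h
    omega
  cp := by
    intro x hx
    have h1 := mem_twY.mp hx
    have h3 := twT_spec h1.2.2
    have h5 : x < (topOf x : P) := lt_of_le_of_ne (le_topOf x) (by
      intro h
      have := (topOf x).2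
      rw [← h] at this
      omega)
    have h6 : twT N x ∈ N (topOf (twT N x)) := W.natSys.mem_iff.mpr ⟨h3.1, rfl⟩
    exact (Subtype.ext (W.natSys.top_eq h6 (topOf x).2 ((h3.2 _).mpr h5).le)).symm

section Kap

variable {t : P} {Nc : Finset P} {co : P → ℕ × ℕ} {i k k' : ℕ} {x y z : P}

lemma ct_chart {S : ℕ × ℕ → Prop} {shift : Bool} (C : Chart t S Nc co)
    (hS : ∀ c, S c ↔ (shift = true → c.1 ≤ c.2)) (hx : x ∈ Nc) (i k : ℕ) :
    ct i k x = ∑ a ∈ range ((co x).1 + 1),
      rowW shift (fun l => min k (l - i)) (co x).2 (lev x) a := by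
  unfold ct
  rw [cst_eq]
  exact sum_nab_rows C hS hx _

lemma ct_eq_sum (i k : ℕ) (x : P) : ct i k x =
    ∑ y, (by classical exact if x ≤ y then min k (lev y - i) else 0) := by
  classical
  unfold ct cst ez
  rfl

lemma ct_mono (h : x ≤ y) (hk : k ≤ k') : ct i k y ≤ ct i k' x := by
  classical
  rw [ct_eq_sum, ct_eq_sum]
  refine Finset.sum_le_sum fun w _ => ?_
  by_cases hw : y ≤ w
  · rw [if_pos hw, if_pos (h.trans hw)]
    exact min_le_min hk le_rfl
  · rw [if_neg hw]
    exact Nat.zero_le _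

/-- one element and everything strictly above -/
lemma ct_succ (i k : ℕ) (x : P) : ct i k x = min k (lev x - i) +
    ∑ y, (by classical exact if x < y then min k (lev y - i) else 0) := by
  classical
  rw [ct_eq_sum, ← Finset.add_sum_erase univ _ (mem_univ x), if_pos le_rfl,
    ← Finset.add_sum_erase univ (fun y => if x < y then min k (lev y - i) else 0) (mem_univ x),
    if_neg (lt_irrefl x), zero_add]
  congr 1
  refine Finset.sum_congr rfl fun y hy => ?_
  have hne := (mem_erase.mp hy).1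
  by_cases h4 : x < y
  · rw [if_pos h4, if_pos h4.le]
  · rw [if_neg h4, if_neg]
    intro h5
    exact h4 (lt_of_le_of_ne h5 (Ne.symm hne))

/-- an element below: its own label is added -/
lemma ct_cov (h : z < y) : min k (lev z - i) + ct i k y ≤ ct i k z := by
  classical
  rw [ct_succ i k z, ct_eq_sum]
  refine Nat.add_le_add_left (Finset.sum_le_sum fun w _ => ?_) _
  by_cases hw : y ≤ w
  · rw [if_pos hw, if_pos (h.trans_le hw)]
  · rw [if_neg hw]
    exact Nat.zero_le _

/-- the same strict up-set -/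
lemma ct_congr_up (h : ∀ w, x < w ↔ y < w) : ct i k x = ct i k y := by
  classical
  rw [ct_succ i k x, ct_succ i k y, lev_eq_of_up h]
  congr 1
  refine Finset.sum_congr rfl fun w _ => ?_
  by_cases hw : x < w
  · rw [if_pos hw, if_pos ((h w).mp hw)]
  · rw [if_neg hw, if_neg (fun h' => hw ((h w).mpr h'))]

lemma kap_chart_aux (hm : 1 ≤ m) (C : Chart t (fun _ => True) Nc co) (hx : x ∈ Nc)
    (h1 : 1 ≤ (co x).1) (h3 : (co x).1 ≤ (co x).2) (hl : 2 * m + 1 ≤ lev x)
    (hk : ((co x).1 - m) + ((co x).2 - m) + 1 ≤ k) : (m + 1) * (m + 1) + 2 ≤ ct m k x + k := by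
  have hlx := C.lev x hx
  obtain ⟨s, c, hs, hsm, hsc, hs1, hc1⟩ : ∃ s c, 1 ≤ s ∧ s ≤ m ∧ s + c = 2 * m + 1 ∧
      s ≤ (co x).1 ∧ c ≤ (co x).2 := by
    by_cases h4 : (co x).1 ≤ m
    · exact ⟨(co x).1, 2 * m + 1 - (co x).1, h1, h4, by omega, le_rfl, by omega⟩
    · exact ⟨m, m + 1, hm, le_rfl, by omega, by omega, by omega⟩
  obtain ⟨u, hu, hcu⟩ := C.low x hx (s, c) ⟨hs1, hc1⟩ trivial
  have hxu : x ≤ u := by
    rw [C.le_iff x hx u hu, hcu]
    exact ⟨hs1, hc1⟩
  have hlu : lev u = 2 * m + 1 := by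
    rw [C.lev u hu, hcu]
    exact hsc
  have h5 := kap_rect hs hsm hsc
  have h6 := ct_chart C (shift := false) (by simp) hu m (c - m + 1)
  rw [hcu, hlu] at h6
  simp only at h6
  rw [← h6] at h5
  have h7 := ct_mono (i := m) hxu (show c - m + 1 ≤ k by omega)
  omega

lemma kap_chart (hm : 1 ≤ m) (C : Chart t (fun _ => True) Nc co) (hx : x ∈ Nc)
    (h1 : 1 ≤ (co x).1) (h2 : 1 ≤ (co x).2) (hl : 2 * m + 1 ≤ lev x)
    (hk : ((co x).1 - m) + ((co x).2 - m) + 1 ≤ k) : (m + 1) * (m + 1) + 2 ≤ ct m k x + k := by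
  rcases le_total (co x).1 (co x).2 with h3 | h3
  · exact kap_chart_aux hm C hx h1 h3 hl hk
  · refine kap_chart_aux hm C.swap hx ?_ ?_ hl ?_
    · simpa using h2
    · simpa using h3
    · simp only [swp_fst, swp_snd]
      omega

lemma kap_chartS (hm : 6 ≤ m) (C : Chart t (fun c => c.1 ≤ c.2) Nc co) (hx : x ∈ Nc)
    (h1 : 1 ≤ (co x).1) (hl : 2 * m + 1 ≤ lev x)
    (hk : ((co x).1 - 2 * (m / 2)) + ((co x).2 - m) + 1 ≤ k) : Kb m ≤ ct m k x + k := by
  have hlx := C.lev x hx
  have h3 : (co x).1 ≤ (co x).2 := C.mem x hx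
  obtain ⟨s, c, hs, hsm, hsc, hs1, hc1⟩ : ∃ s c, 1 ≤ s ∧ s ≤ m ∧ s + c = 2 * m + 1 ∧
      s ≤ (co x).1 ∧ c ≤ (co x).2 := by
    by_cases h4 : (co x).1 ≤ m
    · exact ⟨(co x).1, 2 * m + 1 - (co x).1, h1, h4, by omega, le_rfl, by omega⟩
    · exact ⟨m, m + 1, by omega, le_rfl, by omega, by omega, by omega⟩
  obtain ⟨u, hu, hcu⟩ := C.low x hx (s, c) ⟨hs1, hc1⟩ (show s ≤ c by omega)
  have hxu : x ≤ u := by
    rw [C.le_iff x hx u hu, hcu]
    exact ⟨hs1, hc1⟩
  have hlu : lev u = 2 * m + 1 := by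
    rw [C.lev u hu, hcu]
    exact hsc
  have h5 := kap_stair hm hs hsm hsc rfl
  have h6 := ct_chart C (shift := true) (by simp) hu m ((s - 2 * (m / 2)) + (c - m) + 1)
  rw [hcu, hlu] at h6
  simp only at h6
  rw [← h6] at h5
  have h7 := ct_mono (i := m) hxu (show (s - 2 * (m / 2)) + (c - m) + 1 ≤ k by omega)
  omega

end Kap

lemma Kb_le_sq (m : ℕ) (hm : 5 ≤ m) : Kb m ≤ (m + 1) * (m + 1) + 2 := by
  obtain ⟨q, hq | hq⟩ := Nat.even_or_odd' m
  · subst hq
    rw [Kb_even]
    nlinarith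
  · subst hq
    rw [Kb_odd]
    nlinarith

/-- natural elements of level at least `2 m + 1` -/
theorem WM.kap (W : WM r m N b θ) {x : P} (hx : x ∉ unnat N) (hl : 2 * m + 1 ≤ lev x) :
    FullM m N θ x ∨ Kb m ≤ ct m (θ (topOf x) x + 1) x + (θ (topOf x) x + 1) := by
  have hm := W.ten
  rcases W.cases hx with h | ⟨Nc, co, h⟩ | ⟨Nc, co, h⟩ | h
  · exact Or.inl h
  · right
    refine (Kb_le_sq m (by omega)).trans (kap_chart (by omega) h.rect.chart h.mem h.fst h.snd hl ?_)
    rw [h.th]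
  · right
    refine kap_chartS (by omega) h.stair.chart h.mem h.fst hl ?_
    rw [h.th]
  · have := h.lev
    omega

lemma WM.tw_inner (W : WM r m N b θ) {x : P} (hx : x ∈ twY (2 * m) N) :
    (∃ Nc co, InRM m N b θ (twT N x) Nc co) ∨ ∃ Nc co, InSM m N b θ (twT N x) Nc co := by
  have h1 := mem_twY.mp hx
  have h3 := twT_spec h1.2.2
  rcases W.cases h3.1 with h | h | h | h
  · exact absurd h3.2 (h.tw x h1.1)
  · exact Or.inl h
  · exact Or.inr h
  · have h4 := h.lev
    have h5 := W.twSys.lev hx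
    omega

lemma WM.tw_kap (W : WM r m N b θ) {x : P} (hx : x ∈ twY (2 * m) N) :
    Kb m ≤ ct m (θ (topOf (twT N x)) (twT N x) + 1) (twT N x) +
      (θ (topOf (twT N x)) (twT N x) + 1) := by
  have h1 := mem_twY.mp hx
  have h3 := twT_spec h1.2.2
  have h5 := W.twSys.lev hx
  rcases W.kap h3.1 (by omega) with h | h
  · exact absurd h3.2 (h.tw x h1.1)
  · exact h

lemma WM.tw_th (W : WM r m N b θ) {x : P} (hx : x ∈ twY (2 * m) N) :
    1 ≤ θ (topOf (twT N x)) (twT N x) ∧ θ (topOf (twT N x)) (twT N x) ≤ m := by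
  have h1 := mem_twY.mp hx
  have h5 := W.twSys.lev hx
  have hm := W.ten
  rcases W.tw_inner hx with ⟨Nc, co, h⟩ | ⟨Nc, co, h⟩
  · have h6 := h.rect.chart.lev _ h.mem
    have h7 := h.fst
    have h8 := h.snd
    have h9 := h.th
    omega
  · have h6 := h.stair.chart.lev _ h.mem
    have h7 := h.fst
    have h8 : (co (twT N x)).1 ≤ (co (twT N x)).2 := h.stair.chart.mem _ h.mem
    have h9 := h.th
    omega

/-- the twins are harmless below energy `Kb m - 1` -/
theorem WM.twinPair (W : WM r m N b θ) {x : P} (hx : x ∈ twY (2 * m) N) :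
    TwinPair m (thX (twY (2 * m) N) (twT N) (fun x => θ (topOf x) x)) (Kb m - 1) (twT N x) x := by
  classical
  have T := W.twSys
  have h1 := mem_twY.mp hx
  have hlev : lev (twT N x) = 2 * m + 1 := by rw [T.lev hx]; exact h1.2.1
  have hnY : twT N x ∉ twY (2 * m) N := fun h => T.nat x hx (mem_twY.mp h).1
  obtain ⟨h3, h4⟩ := W.tw_th hx
  have h5 := W.tw_kap hx
  have hth : thX (twY (2 * m) N) (twT N) (fun x => θ (topOf x) x) (twT N x) =
      θ (topOf (twT N x)) (twT N x) := thX_not hnY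
  have hth' : thX (twY (2 * m) N) (twT N) (fun x => θ (topOf x) x) x =
      θ (topOf (twT N x)) (twT N x) := thX_of hx
  refine ⟨?_, T.up x hx, ?_, ?_, ?_, ?_, ?_⟩
  · intro h
    exact T.nat x hx (h.symm ▸ h1.1)
  · rw [hth]; exact h3
  · rw [hth, hth']
  · rw [hth, hlev]; omega
  · rw [hth]
    have h6 : ct m (θ (topOf (twT N x)) (twT N x) + 1) (twT N x) ≤
        ∑ y, (if twT N x ≤ y then lev y - m else 0) := by
      rw [ct_eq_sum]
      refine Finset.sum_le_sum fun y _ => ?_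
      split_ifs
      · exact Nat.min_le_right _ _
      · exact le_rfl
    omega
  · rw [hth]
    have h6 := ct_succ m (θ (topOf (twT N x)) (twT N x) + 1) (twT N x)
    rw [hlev, Nat.min_eq_left (by omega)] at h6
    omega

/-- truncated data at window `m` -/
theorem WM.farT (W : WM r m N b θ) : FarT P m (r2 (2 * m) N) (lv P m).card
    (h2 (2 * m) N θ) (Kb m - 1) := by
  choose B hB using W.natTop
  have h := farT_of_tops W.gt.H.gradedBelow hB W.twSys (Kb m - 1) (fun x hx => W.twinPair hx)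
  rw [W.sum_b] at h
  exact h

lemma sq_ge_Kb {m l : ℕ} (hm : 5 ≤ m) (hl : m + 2 ≤ l) : Kb m ≤ l ^ 2 := by
  have h1 : (m + 2) * (m + 2) ≤ l ^ 2 := by
    rw [pow_two]
    exact Nat.mul_le_mul hl hl
  have h2 := Kb_le_sq m hm
  nlinarith

/-- the boundary: level `2 m + 1` or large cost -/
theorem WM.bd (W : WM r m N b θ) {z : P} (hz : z ∈ bdR (r2 (2 * m) N)) :
    lev z = 2 * m + 1 ∨ Kb m ≤ cst m (h2 (2 * m) N θ) z := by
  classical
  have H := W.gt.H
  have hm := W.ten
  have T := W.twSys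
  have hzR : z ∈ unnat N := (mem_sdiff.mp (mem_filter.mp hz).1).1
  have hlz := W.lt_lev hzR
  by_cases hl : lev z = 2 * m + 1
  · exact Or.inl hl
  right
  obtain ⟨u, hu, hzu, hh⟩ := hcan_spec
    (θ := thX (twY (2 * m) N) (twT N) (fun x => θ (topOf x) x)) hz
  have hlu := (H.covBy_iff.mp hzu).2
  have hc : ∀ k, h2 (2 * m) N θ z = k → cst m (h2 (2 * m) N θ) z = ct m k z := by
    intro k hk
    unfold ct cst ez
    rw [hk]
  have key : ∀ (u' : P) (k : ℕ), ct m k u = ct m k u' → Kb m ≤ ct m k u' + k → k ≤ lev z - m →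
      h2 (2 * m) N θ z = k → Kb m ≤ cst m (h2 (2 * m) N θ) z := by
    intro u' k h3 h4 h5 h6
    have h7 := ct_cov (i := m) (k := k) hzu.1
    rw [Nat.min_eq_left h5] at h7
    rw [hc k h6]
    omega
  by_cases huY : u ∈ twY (2 * m) N
  · rw [thX_of huY] at hh
    have h3 := W.tw_th huY
    exact key (twT N u) _ (ct_congr_up fun w => (T.up u huY w).symm) (W.tw_kap huY) (by omega) hh
  · have huR : u ∉ unnat N := fun h => hu (mem_sdiff.mpr ⟨h, huY⟩)
    rw [thX_not huY] at hh
    rcases W.kap huR (by omega) with hF | hI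
    · rw [hF.th] at hh
      have h3 := sq_le_cst (i := m) (h := h2 (2 * m) N θ) (z := z) (by omega)
        (by show h2 (2 * m) N θ z = _; rw [show h2 (2 * m) N θ z = _ from hh]; omega) (by
          intro k hk hk2
          exact hF.two z hzR hzu.le k (by omega) (by omega))
      exact (sq_ge_Kb (by omega) (by omega)).trans h3
    · have h5 := W.farT.le_lev z hz
      exact key u _ rfl hI (by rw [show h2 (2 * m) N θ z = _ from hh] at h5; exact h5) hh

end Pool.Agent.GaussPoset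

end

/-! From `Pool.Agent.W_448s8_h76.SaF` -/

section

/-!
The unnatural elements of level `2 m + 1`: classification (MP_448cb3_co, S8).
-/

namespace Pool.Agent.GaussPoset

set_option linter.unusedSectionVars false

open Polynomial Finset

universe u

variable {P : Type u} [Fintype P] [PartialOrder P] [DecidableEq P] {r m : ℕ}
  {N : Tops P → Finset P} {b : Tops P → ℕ} {θ : Tops P → P → ℕ}

/-- the fold ends -/
def FoldM (m : ℕ) (N : Tops P → Finset P) (b : Tops P → ℕ) (θ : Tops P → P → ℕ) (x : P) : Prop :=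
  ∃ Nc co, InSM m N b θ x Nc co ∧ co x = (m, m)

/-- an inner cell of a stair has two covers -/
lemma chartS_inner_uc {t : P} {Nc : Finset P} {co : P → ℕ × ℕ}
    (C : Chart t (fun c => c.1 ≤ c.2) Nc co) (H : Gr P r) {x : P} (hx : x ∈ Nc)
    (h1 : 1 ≤ (co x).1) (h2 : (co x).1 < (co x).2) : (Win.uc x).card = 2 := by
  classical
  obtain ⟨y1, hy1, hc1⟩ := C.low x hx ((co x).1 - 1, (co x).2)
    ⟨Nat.sub_le _ _, le_rfl⟩ (by simp only; omega)
  obtain ⟨y2, hy2, hc2⟩ := C.low x hx ((co x).1, (co x).2 - 1)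
    ⟨le_rfl, Nat.sub_le _ _⟩ (by simp only; omega)
  have e1 : x ⋖ y1 := by
    rw [chart_cov C H hx hy1, hc1]
    exact Or.inl ⟨by simp only; omega, rfl⟩
  have e2 : x ⋖ y2 := by
    rw [chart_cov C H hx hy2, hc2]
    exact Or.inr ⟨rfl, by simp only; omega⟩
  have hne : y1 ≠ y2 := by
    rintro rfl
    rw [hc1] at hc2
    simp only [Prod.mk.injEq] at hc2
    omega
  have h3 : ({y1, y2} : Finset P) ⊆ Win.uc x := by
    intro y hy
    rw [mem_insert, mem_singleton] at hy
    rcases hy with rfl | rfl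
    · exact Win.mem_uc.mpr e1
    · exact Win.mem_uc.mpr e2
  have h4 := Finset.card_le_card h3
  rw [Finset.card_pair hne] at h4
  have := Win.uc_card_le H x
  omega

/-- the kinds of elements of level `2 m` -/
theorem WM.kind (W : WM r m N b θ) {x : P} (hl : lev x = 2 * m) :
    FullM m N θ x ∨ FoldM m N b θ x ∨ QdM m N θ x ∨
      ((Win.uc x).card = 2 ∧ NopT m (topOf x)) := by
  have H := W.gt.H
  have hm := W.ten
  rcases W.cases (W.low hl.le) with h | ⟨Nc, co, h⟩ | ⟨Nc, co, h⟩ | h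
  · exact Or.inl h
  · exact Or.inr (Or.inr (Or.inr ⟨chart_inner_uc h.rect.chart H h.mem h.fst h.snd, h.nop⟩))
  · have h1 := h.stair.chart.lev x h.mem
    have h2 : (co x).1 ≤ (co x).2 := h.stair.chart.mem x h.mem
    by_cases h3 : (co x).1 = m
    · exact Or.inr (Or.inl ⟨Nc, co, h, Prod.ext h3 (by simp only; omega)⟩)
    · exact Or.inr (Or.inr (Or.inr ⟨chartS_inner_uc h.stair.chart H h.mem h.fst (by omega),
        h.nop⟩))
  · exact Or.inr (Or.inr (Or.inl h))

/-- two elements of level `2 m` below a quadric top are equal -/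
lemma QInf.unique {a : ℕ} {t : Tops P} (h : QInf m a t) {x x' : P} (hx : x ≤ (t : P))
    (hx' : x' ≤ (t : P)) (hl : lev x = 2 * m) (hl' : lev x' = 2 * m) : x = x' :=
  le_antisymm (h.bot x hx hl x' hx' hl'.le) (h.bot x' hx' hl' x hx hl.le)

/-- the seventh step: no join without a fold end -/
def S7M (m : ℕ) (N : Tops P → Finset P) (b : Tops P → ℕ) (θ : Tops P → P → ℕ) : Prop :=
  ∀ z x x' : P, lev z = 2 * m + 1 → z ⋖ x → z ⋖ x' → topOf x ≠ topOf x' →
    FoldM m N b θ x ∨ FoldM m N b θ x'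

/-- pendants -/
def Pend (z x : P) : Prop := z ⋖ x ∧ ∀ y, z ⋖ y → y = x

/-- the unnatural elements of level `2 m + 1` which are no twins -/
inductive KM (m : ℕ) (N : Tops P → Finset P) (b : Tops P → ℕ) (θ : Tops P → P → ℕ) (z : P) : Prop
  | penF (x : P) (hx : FoldM m N b θ x) (hzx : Pend z x)
  | penQ (x : P) (hx : QdM m N θ x) (hzx : Pend z x)
  | fq (x x' : P) (hx : FoldM m N b θ x) (hx' : QdM m N θ x') (ht : topOf x ≠ topOf x')
      (hzx : z ⋖ x) (hzx' : z ⋖ x')
  | ff (x x' : P) (hx : FoldM m N b θ x) (hx' : FoldM m N b θ x') (ht : topOf x ≠ topOf x')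
      (hzx : z ⋖ x) (hzx' : z ⋖ x')
  | fv (x x' : P) (hx : FoldM m N b θ x) (hx' : FullM m N θ x') (h1 : (Win.uc x').card = 1)
      (ht : topOf x ≠ topOf x') (hzx : z ⋖ x) (hzx' : z ⋖ x')
  | cc (x x' : P) (Nc : Finset P) (co : P → ℕ × ℕ) (hx : InSM m N b θ x Nc co)
      (hcx : co x = (m, m)) (hx' : x' ∈ Nc) (hcx' : co x' = (0, 2 * m)) (hzx : z ⋖ x)
      (hzx' : z ⋖ x')
  | full (h : ∀ x, z ⋖ x → FullM m N θ x)

lemma uc_pair {x x' z y : P} (H : Gr P r) (hzx : z ⋖ x) (hzx' : z ⋖ x') (hne : x ≠ x')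
    (h : z ⋖ y) : y = x ∨ y = x' := by
  by_contra hcon
  push Not at hcon
  exact Win.uc_three H h hzx hzx' hcon.1 hcon.2 hne

/-- elements with the same two covers -/
lemma up_of_pair {x x' z y : P} (H : Gr P r) (hzx : z ⋖ x) (hzx' : z ⋖ x') (hyx : y ⋖ x)
    (hyx' : y ⋖ x') (hne : x ≠ x') : ∀ w, y < w ↔ z < w := by
  refine up_of_cov fun w => ⟨fun h => ?_, fun h => ?_⟩
  · rcases uc_pair H hyx hyx' hne h with h1 | h1
    · rw [h1]; exact hzx
    · rw [h1]; exact hzx'
  · rcases uc_pair H hzx hzx' hne h with h1 | h1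
    · rw [h1]; exact hyx
    · rw [h1]; exact hyx'

/-- two neighbours of the level `2 m`: the element is natural or a twin -/
lemma WM.near (W : WM r m N b θ) {z x x' : P} (hz : z ∈ r2 (2 * m) N) (hl : lev z = 2 * m + 1)
    (hzx : z ⋖ x) (hzx' : z ⋖ x') (hne : x ≠ x') (h1 : ucv x x' = 1) : False := by
  classical
  have H := W.gt.H
  have HN := W.natSys
  have hm := W.ten
  have hlx : lev x = 2 * m := by
    have := (H.covBy_iff.mp hzx).2
    omega
  have hlx' : lev x' = 2 * m := by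
    have := (H.covBy_iff.mp hzx').2
    omega
  rw [mem_sdiff] at hz
  have hzU := hz.1
  obtain ⟨p, hp⟩ := Finset.card_eq_one.mp h1
  have hp2 : x ⋖ p ∧ x' ⋖ p := by
    have : p ∈ (univ.filter (fun y : P => x ⋖ y ∧ x' ⋖ y)) := by rw [hp]; simp
    simpa using this
  have hxt : topOf x = topOf p := HN.cp x p hp2.1.le (W.low hlx.le)
  have hxt' : topOf x' = topOf p := HN.cp x' p hp2.2.le (W.low hlx'.le)
  have hxle : x ≤ (topOf p : P) := by rw [← hxt]; exact le_topOf x
  have hxle' : x' ≤ (topOf p : P) := by rw [← hxt']; exact le_topOf x'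
  have hxN : x ∈ N (topOf p) := HN.mem_iff.mpr ⟨W.low hlx.le, hxt⟩
  have hxN' : x' ∈ N (topOf p) := HN.mem_iff.mpr ⟨W.low hlx'.le, hxt'⟩
  have twin : ∀ y : P, y ∉ unnat N → y ⋖ x → y ⋖ x' → False := fun y hy hyx hyx' =>
    hz.2 (mem_twY.mpr ⟨hzU, hl, y, hy, up_of_pair H hzx hzx' hyx hyx' hne⟩)
  rcases W.typ (topOf p) with ⟨g1, g2, g3, g5, g6, g7⟩ | ⟨Nc, co, g0, g1, g2, g3⟩ |
    ⟨Nc, co, g0, g1, g2, g3, g4⟩ | ⟨g1, g2, g3, g4⟩
  · refine mem_unnat.mp hzU (topOf p) ?_
    rw [g1, mem_onlyB]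
    intro s hs hzs
    have hne2 : z ≠ s := by rintro rfl; omega
    obtain ⟨v, hv, hvs⟩ := Hul.exists_cov (lt_of_le_of_ne hzs hne2)
    rcases uc_pair H hzx hzx' hne hv with h | h
    · rw [h] at hvs
      exact HN.top_eq hxN hs hvs
    · rw [h] at hvs
      exact HN.top_eq hxN' hs hvs
  · have hx : x ∈ Nc := g0.strip (mem_lowPart.mpr ⟨hxle, hlx.le⟩)
    have hx' : x' ∈ Nc := g0.strip (mem_lowPart.mpr ⟨hxle', hlx'.le⟩)
    have hpN := g0.chart.up x hx p hp2.1.le
    have e1 := (chart_cov g0.chart H hx hpN).mp hp2.1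
    have e2 := (chart_cov g0.chart H hx' hpN).mp hp2.2
    have hcne : co x ≠ co x' := fun h => hne (g0.chart.inj x hx x' hx' h)
    have hzN : z ∉ Nc := fun h => mem_unnat.mp hzU (topOf p) (by
      rw [g1]
      exact mem_natR.mpr (Or.inl h))
    have key : ∀ x x' : P, x ∈ Nc → x' ∈ Nc → z ⋖ x → z ⋖ x' →
        co x = ((co p).1 + 1, (co p).2) → co x' = ((co p).1, (co p).2 + 1) →
        ∃ y, y ∉ unnat N ∧ y ⋖ x ∧ y ⋖ x' := by
      intro x x' hx hx' hzx hzx' hcx hcx'
      obtain ⟨y, hy, -, hyx, hyx', hyz⟩ := max_pair g0.chart g0.max H hzN hx hx' hzx hzx' hcx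
        hcx' trivial
      refine ⟨y, (HN.mem_iff (t := topOf p).mp ?_).1, hyx, hyx'⟩
      rw [g1]
      exact mem_natR.mpr (Or.inl hy)
    rcases e1 with e1 | e1
    · rcases e2 with e2 | e2
      · exact hcne (Prod.ext (by omega) (by omega))
      · obtain ⟨y, h3, h4, h5⟩ := key x x' hx hx' hzx hzx' (Prod.ext e1.1 e1.2)
          (Prod.ext e2.1 e2.2)
        exact twin y h3 h4 h5
    · rcases e2 with e2 | e2
      · obtain ⟨y, h3, h4, h5⟩ := key x' x hx' hx hzx' hzx (Prod.ext e2.1 e2.2)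
          (Prod.ext e1.1 e1.2)
        exact twin y h3 h5 h4
      · exact hcne (Prod.ext (by omega) (by omega))
  · have hx : x ∈ Nc := g0.strip (mem_lowPart.mpr ⟨hxle, hlx.le⟩)
    have hx' : x' ∈ Nc := g0.strip (mem_lowPart.mpr ⟨hxle', hlx'.le⟩)
    have hpN := g0.chart.up x hx p hp2.1.le
    have e1 := (chart_cov g0.chart H hx hpN).mp hp2.1
    have e2 := (chart_cov g0.chart H hx' hpN).mp hp2.2
    have hcne : co x ≠ co x' := fun h => hne (g0.chart.inj x hx x' hx' h)
    have hzN : z ∉ Nc := fun h => mem_unnat.mp hzU (topOf p) (by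
      rw [g1]
      exact mem_natS.mpr (Or.inl h))
    have hSx : (co x).1 ≤ (co x).2 := g0.chart.mem x hx
    have hSx' : (co x').1 ≤ (co x').2 := g0.chart.mem x' hx'
    have key : ∀ x x' : P, x ∈ Nc → x' ∈ Nc → z ⋖ x → z ⋖ x' → (co x).1 ≤ (co x).2 →
        co x = ((co p).1 + 1, (co p).2) → co x' = ((co p).1, (co p).2 + 1) →
        ∃ y, y ∉ unnat N ∧ y ⋖ x ∧ y ⋖ x' := by
      intro x x' hx hx' hzx hzx' hS hcx hcx'
      obtain ⟨y, hy, -, hyx, hyx', hyz⟩ := max_pair g0.chart g0.max H hzN hx hx' hzx hzx' hcx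
        hcx' (by
          rw [hcx] at hS
          simp only at hS ⊢
          omega)
      refine ⟨y, (HN.mem_iff (t := topOf p).mp ?_).1, hyx, hyx'⟩
      rw [g1]
      exact mem_natS.mpr (Or.inl hy)
    rcases e1 with e1 | e1
    · rcases e2 with e2 | e2
      · exact hcne (Prod.ext (by omega) (by omega))
      · obtain ⟨y, h3, h4, h5⟩ := key x x' hx hx' hzx hzx' hSx (Prod.ext e1.1 e1.2)
          (Prod.ext e2.1 e2.2)
        exact twin y h3 h4 h5
    · rcases e2 with e2 | e2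
      · obtain ⟨y, h3, h4, h5⟩ := key x' x hx' hx hzx' hzx hSx' (Prod.ext e2.1 e2.2)
          (Prod.ext e1.1 e1.2)
        exact twin y h3 h5 h4
      · exact hcne (Prod.ext (by omega) (by omega))
  · exact hne (g4.unique hxle hxle' hlx hlx')

/-- a single-up element of level `2 m` of the stair of a fold end -/
lemma WM.stair_single (W : WM r m N b θ) {x x' : P} {Nc : Finset P} {co : P → ℕ × ℕ}
    (h : InSM m N b θ x Nc co) (hcx : co x = (m, m)) (hlx' : lev x' = 2 * m)
    (hxt : topOf x' = topOf x) (hne : x ≠ x') (h1 : (Win.uc x').card = 1) :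
    x' ∈ Nc ∧ co x' = (0, 2 * m) := by
  have hx' : x' ∈ Nc := h.stair.strip (mem_lowPart.mpr ⟨by rw [← hxt]; exact le_topOf x',
    hlx'.le⟩)
  refine ⟨hx', ?_⟩
  have h2 := h.stair.chart.lev x' hx'
  have h3 : (co x').1 ≤ (co x').2 := h.stair.chart.mem x' hx'
  by_cases h4 : (co x').1 = 0
  · exact Prod.ext h4 (by simp only; omega)
  · exfalso
    by_cases h5 : (co x').1 = (co x').2
    · exact hne (h.stair.chart.inj x h.mem x' hx' (by
        rw [hcx]
        exact Prod.ext (by simp only; omega) (by simp only; omega)))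
    · have := chartS_inner_uc h.stair.chart W.gt.H hx' (by omega) (by omega)
      omega

/-- the classification -/
theorem WM.class (W : WM r m N b θ) (S7 : S7M m N b θ) {z : P} (hz : z ∈ r2 (2 * m) N)
    (hl : lev z = 2 * m + 1) : KM m N b θ z := by
  classical
  have H := W.gt.H
  have HN := W.natSys
  have hm := W.ten
  have hzt : z < (topOf z : P) := lt_of_le_of_ne (le_topOf z) (by
    intro h
    have := (topOf z).2
    rw [← h] at this
    omega)
  obtain ⟨x, hzx, hxt⟩ := Hul.exists_cov hzt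
  have hlev : ∀ y, z ⋖ y → lev y = 2 * m := by
    intro y hy
    have := (H.covBy_iff.mp hy).2
    omega
  have hlx := hlev x hzx
  by_cases honly : ∀ y, z ⋖ y → y = x
  · rcases W.kind hlx with h | h | h | h
    · refine KM.full fun y hy => ?_
      rw [honly y hy]
      exact h
    · exact KM.penF x h ⟨hzx, honly⟩
    · exact KM.penQ x h ⟨hzx, honly⟩
    · exact absurd honly (h.2 x z (le_topOf x) hlx h.1 hzx)
  · push Not at honly
    obtain ⟨x', hzx', hne'⟩ := honly
    have hne : x ≠ x' := Ne.symm hne'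
    have hlx' := hlev x' hzx'
    obtain ⟨i, hi⟩ : ∃ i, 2 * m = i + 1 := ⟨2 * m - 1, by omega⟩
    have hgt := W.gt
    rw [hi] at hgt
    rcases (Win.near_level' hgt (by omega)).1 z x x' (by omega) hzx hzx' hne with
      h7 | ⟨h7, h8, -⟩
    · exact (W.near hz hl hzx hzx' hne h7).elim
    · by_cases ht : topOf x = topOf x'
      · -- the same top
        have hQ : ∀ y, z ⋖ y → ¬ QdM m N θ y := by
          intro y hy hQ
          have hty : topOf y = topOf x := by
            rcases uc_pair H hzx hzx' hne hy with h | h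
            · rw [h]
            · rw [h, ht]
          have hy1 : x ≤ (topOf y : P) := by rw [hty]; exact le_topOf x
          have hy2 : x' ≤ (topOf y : P) := by rw [hty, ht]; exact le_topOf x'
          exact hne (hQ.inf.unique hy1 hy2 hlx hlx')
        rcases W.kind hlx with h | ⟨Nc, co, h, hcx⟩ | h | h
        · rcases W.kind hlx' with h' | ⟨Nc, co, h', hcx⟩ | h' | h'
          · refine KM.full fun y hy => ?_
            rcases uc_pair H hzx hzx' hne hy with e | e
            · rw [e]; exact h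
            · rw [e]; exact h'
          · obtain ⟨h9, h10⟩ := W.stair_single h' hcx hlx ht hne' h7
            exact KM.cc x' x Nc co h' hcx h9 h10 hzx' hzx
          · exact (hQ x' hzx' h').elim
          · omega
        · obtain ⟨h9, h10⟩ := W.stair_single h hcx hlx' ht.symm hne h8
          exact KM.cc x x' Nc co h hcx h9 h10 hzx hzx'
        · exact (hQ x hzx h).elim
        · omega
      · -- different tops
        rcases W.kind hlx with h | h | h | h
        · rcases W.kind hlx' with h' | h' | h' | h'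
          · refine KM.full fun y hy => ?_
            rcases uc_pair H hzx hzx' hne hy with e | e
            · rw [e]; exact h
            · rw [e]; exact h'
          · exact KM.fv x' x h' h h7 (Ne.symm ht) hzx' hzx
          · rcases S7 z x x' hl hzx hzx' ht with h9 | h9
            · exact KM.fq x x' h9 h' ht hzx hzx'
            · exact KM.fv x' x h9 h h7 (Ne.symm ht) hzx' hzx
          · omega
        · rcases W.kind hlx' with h' | h' | h' | h'
          · exact KM.fv x x' h h' h8 ht hzx hzx'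
          · exact KM.ff x x' h h' ht hzx hzx'
          · exact KM.fq x x' h h' ht hzx hzx'
          · omega
        · rcases W.kind hlx' with h' | h' | h' | h'
          · rcases S7 z x x' hl hzx hzx' ht with h9 | h9
            · exact KM.fv x x' h9 h' h8 ht hzx hzx'
            · exact KM.fq x' x h9 h (Ne.symm ht) hzx' hzx
          · exact KM.fq x' x h' h (Ne.symm ht) hzx' hzx
          · rcases S7 z x x' hl hzx hzx' ht with h9 | h9
            · exact KM.fq x x' h9 h' ht hzx hzx'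
            · exact KM.fq x' x h9 h (Ne.symm ht) hzx' hzx
          · omega
        · omega

end Pool.Agent.GaussPoset

end

/-! From `Pool.Agent.W_448s8_h76.SaG` -/

section

/-!
Numbers of elements above, labels, costs (MP_448cb3_co, S8).
-/

namespace Pool.Agent.GaussPoset

set_option linter.unusedSectionVars false

open Polynomial Finset

universe u

variable {P : Type u} [Fintype P] [PartialOrder P] [DecidableEq P] {r m : ℕ}
  {N : Tops P → Finset P} {b : Tops P → ℕ} {θ : Tops P → P → ℕ}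

section Nab

lemma nab_pend {z x : P} (h : Pend z x) {l : ℕ} (hl : l < lev z) : nab l z = nab l x := by
  classical
  unfold nab
  congr 1
  ext y
  rw [mem_filter, mem_filter, mem_lv]
  refine and_congr_right fun h1 => ⟨fun h2 => ?_, fun h2 => h.1.le.trans h2⟩
  have hne : z ≠ y := by rintro rfl; omega
  obtain ⟨v, hv, hvy⟩ := Hul.exists_cov (lt_of_le_of_ne h2 hne)
  rw [h.2 v hv] at hvy
  exact hvy

lemma FoldM.lev {x : P} (h : FoldM m N b θ x) : Pool.Agent.GaussPoset.lev x = 2 * m := by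
  obtain ⟨Nc, co, h1, h2⟩ := h
  rw [h1.stair.chart.lev x h1.mem, h2]
  simp only
  omega

lemma FoldM.th {x : P} (h : FoldM m N b θ x) : θ (topOf x) x = m % 2 := by
  obtain ⟨Nc, co, h1, h2⟩ := h
  rw [h1.th, h2]
  simp only
  omega

lemma FoldM.nab {x : P} (h : FoldM m N b θ x) {u : ℕ} (hu : u ≤ m) :
    Pool.Agent.GaussPoset.nab (m + u) x = nF m u := by
  obtain ⟨Nc, co, h1, h2⟩ := h
  rw [nab_chart h1.stair.chart h1.mem, h2]
  have := card_cellsAt_shift (l := m + u) (p := (m, m)) le_rfl (by simp only; omega)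
  simp only at this
  unfold nF
  omega

/-- the elements above the bottom of a quadric strip -/
lemma WM.nab_quad (W : WM r m N b θ) {a : ℕ} {v : P} (h : QInf m a (topOf v))
    (hl : lev v = 2 * m) {l : ℕ} (hl2 : l ≤ 2 * m) : nab l v = if l = a then 2 else 1 := by
  classical
  rw [← h.cn l hl2]
  unfold nab cn
  congr 1
  ext x
  rw [mem_filter, mem_filter, mem_lv]
  refine and_congr_right fun h1 => ⟨fun h2 => ?_, fun h2 => ?_⟩
  · rw [W.natSys.cp v x h2 (W.low hl.le)]
    exact le_topOf x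
  · exact h.bot v (le_topOf v) hl x h2 (by omega)

lemma WM.nab_le_cn (W : WM r m N b θ) {v : P} (hl : lev v ≤ 2 * m) (l : ℕ) :
    nab l v ≤ cn l (topOf v : P) := by
  classical
  unfold nab cn
  refine Finset.card_le_card fun x hx => ?_
  rw [mem_filter] at hx ⊢
  refine ⟨hx.1, ?_⟩
  rw [W.natSys.cp v x hx.2 (W.low hl)]
  exact le_topOf x

end Nab

/-- the single-up elements of level `2 m` with full threshold -/
inductive VInf (m : ℕ) (v : P) : Prop
  | late (h1 : ∀ l, l ≤ m + 2 → nab l v = 1) (h2 : ∑ l ∈ range (2 * m), (nab l v - 1) ≤ 5)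
  | quad (a : ℕ) (h1 : a = m + 1 ∨ a = m + 2) (h2 : QInf m a (topOf v))

lemma VInf.straight {v : P} (hm : 2 ≤ m) (h : ∀ l, l ≤ 2 * m → nab l v = 1) : VInf m v := by
  refine VInf.late (fun l hl => h l (by omega)) ?_
  rw [Finset.sum_eq_zero]
  · exact Nat.zero_le _
  · intro l hl
    rw [mem_range] at hl
    rw [h l hl.le, Nat.sub_self]

theorem WM.vinf (W : WM r m N b θ) {v : P} (hl : lev v = 2 * m) (hF : FullM m N θ v)
    (h1 : (Win.uc v).card = 1) : VInf m v := by
  have H := W.gt.H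
  have hm := W.ten
  have hth := hF.th
  rcases W.typ (topOf v) with ⟨g1, g2, g3, g5, g6, g7⟩ | ⟨Nc, co, g0, g1, g2, g3⟩ |
    ⟨Nc, co, g0, g1, g2, g3, g4⟩ | ⟨g1, g2, g3, g4⟩
  · rcases g7 with ⟨e1, e2⟩ | ⟨a, e1, e2⟩
    · refine VInf.late (fun l hl2 => ?_) (e2 v (le_topOf v) hl h1)
      have h3 := W.nab_le_cn hl.le l
      rw [e1 l hl2] at h3
      have h4 := one_le_nab (z := v) (l := l) (by omega)
      omega
    · exact VInf.quad a e1 e2
  · have hv : v ∈ Nc := g0.strip (mem_lowPart.mpr ⟨le_topOf v, hl.le⟩)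
    have hcl := g0.chart.lev v hv
    refine VInf.straight (by omega) fun l hl2 => ?_
    have h3 : (co v).1 = 0 ∨ (co v).2 = 0 := by
      by_contra hcon
      have := chart_inner_uc g0.chart H hv (by omega) (by omega)
      omega
    rw [nab_chart g0.chart hv]
    have := card_cellsAt_true (l := l) (p := co v) (by omega)
    omega
  · have hv : v ∈ Nc := g0.strip (mem_lowPart.mpr ⟨le_topOf v, hl.le⟩)
    have hcl := g0.chart.lev v hv
    have hS : (co v).1 ≤ (co v).2 := g0.chart.mem v hv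
    by_cases h3 : (co v).1 = 0
    · refine VInf.straight (by omega) fun l hl2 => ?_
      rw [nab_chart g0.chart hv]
      have := card_cellsAt_shift (l := l) (p := co v) hS (by omega)
      omega
    · exfalso
      by_cases h4 : (co v).1 = (co v).2
      · have hJ : v ∉ junk (fun c => c.1 ≤ c.2) Nc co := by
          intro hJ
          obtain ⟨x1, H1, hz1⟩ := mem_junk.mp hJ
          exact h3 (H1.tail g0.chart hv (mem_jset.mp hz1).1).1
        rw [g2, hl] at hth
        unfold thS at hth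
        rw [if_neg hJ] at hth
        omega
      · have := chartS_inner_uc g0.chart H hv (by omega) (by omega)
        omega
  · rw [g2, hl] at hth
    have h3 : (0 : ℕ) = 2 * m - m := hth
    omega

/-- the sum of the labels `k` above an element of level `2 m` (levels at least `m`) -/
noncomputable def vs (m k : ℕ) (v : P) : ℕ := ∑ u ∈ range (m + 1), min k u * nab (m + u) v

lemma ct_top {z : P} {k : ℕ} (hl : lev z = 2 * m + 1) (hk : k ≤ m + 1) :
    ct m k z = vs m k z + k := by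
  unfold ct vs
  rw [cst_eq, hl, Finset.sum_range_succ, ← hl, nab_self, hl,
    show 2 * m + 1 = m + (m + 1) by ring, Finset.sum_range_add, Finset.sum_eq_zero, zero_add]
  · congr 1
    · refine Finset.sum_congr rfl fun u _ => ?_
      rw [Nat.add_sub_cancel_left]
    · rw [Nat.add_sub_cancel_left, Nat.min_eq_left hk, Nat.mul_one]
  · intro l hl
    rw [mem_range] at hl
    rw [show l - m = 0 by omega, Nat.min_zero, Nat.zero_mul]

lemma vs_congr {k : ℕ} {v w : P} (h : ∀ u, u ≤ m → nab (m + u) v = nab (m + u) w) :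
    vs m k v = vs m k w := by
  unfold vs
  refine Finset.sum_congr rfl fun u hu => ?_
  rw [mem_range] at hu
  rw [h u (by omega)]

lemma vs_add {k : ℕ} {z v w : P} (h : ∀ u, u ≤ m → nab (m + u) z = nab (m + u) v + nab (m + u) w) :
    vs m k z = vs m k v + vs m k w := by
  unfold vs
  rw [← Finset.sum_add_distrib]
  refine Finset.sum_congr rfl fun u hu => ?_
  rw [mem_range] at hu
  rw [h u (by omega)]
  ring

lemma FoldM.vs {x : P} (h : FoldM m N b θ x) (k : ℕ) : vs m k x = NF m k := by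
  unfold Pool.Agent.GaussPoset.vs NF
  refine Finset.sum_congr rfl fun u hu => ?_
  rw [mem_range] at hu
  rw [h.nab (by omega)]

/-- number of extras between the levels `m` and `2 m` -/
noncomputable def exs (m : ℕ) (v : P) : ℕ := ∑ u ∈ range m, (nab (m + u) v - 1)

lemma vs_late {k : ℕ} (hk : k ≤ 2) {v : P} (hl : lev v = 2 * m)
    (h1 : ∀ l, l ≤ m + 2 → nab l v = 1) : vs m k v = NL m k + k * exs m v := by
  have h2 : exs m v = ∑ u ∈ range (m + 1), (nab (m + u) v - 1) := by
    unfold exs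
    rw [Finset.sum_range_succ, show m + m = lev v by omega, nab_self, Nat.sub_self, Nat.add_zero]
  rw [h2, vs, NL, Finset.mul_sum, ← Finset.sum_add_distrib]
  refine Finset.sum_congr rfl fun u hu => ?_
  rw [mem_range] at hu
  have h3 := one_le_nab (z := v) (l := m + u) (by omega)
  obtain ⟨n, hn⟩ : ∃ n, nab (m + u) v = n + 1 := ⟨nab (m + u) v - 1, by omega⟩
  rcases Nat.lt_or_ge u 3 with h4 | h4
  · rw [h1 (m + u) (by omega)]
    simp
  · rw [hn, Nat.min_eq_left (by omega), Nat.add_sub_cancel]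
    ring

lemma vs_quad {k a : ℕ} {v : P} (ha : m ≤ a) (ha2 : a ≤ 2 * m)
    (h : ∀ u, u ≤ m → nab (m + u) v = if m + u = a then 2 else 1) :
    vs m k v = NL m k + min k (a - m) := by
  have h1 : ∑ u ∈ range (m + 1), (if u = a - m then min k u else 0) = min k (a - m) := by
    rw [Finset.sum_ite_eq' (range (m + 1)) (a - m), if_pos (mem_range.mpr (by omega))]
  rw [← h1, vs, NL, ← Finset.sum_add_distrib]
  refine Finset.sum_congr rfl fun u hu => ?_
  rw [mem_range] at hu
  rw [h u (by omega)]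
  by_cases h2 : m + u = a
  · rw [if_pos h2, if_pos (by omega)]
    ring
  · rw [if_neg h2, if_neg (by omega)]
    ring

lemma exs_le {v : P} (h : ∑ l ∈ range (2 * m), (nab l v - 1) ≤ 5) : exs m v ≤ 5 := by
  rw [show 2 * m = m + m by ring, Finset.sum_range_add] at h
  unfold exs
  omega

section Labels

/-- the label of a boundary element of level `2 m + 1` -/
lemma WM.h2_eq (W : WM r m N b θ) {z x : P} (hz : z ∈ r2 (2 * m) N) (hl : lev z = 2 * m + 1)
    (hzx : z ⋖ x) (hmin : ∀ y, z ⋖ y → θ (topOf x) x ≤ θ (topOf y) y) :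
    h2 (2 * m) N θ z = θ (topOf x) x + 1 := by
  classical
  have H := W.gt.H
  have hlev : ∀ y, z ⋖ y → lev y = 2 * m := by
    intro y hy
    have := (H.covBy_iff.mp hy).2
    omega
  have hnY : ∀ y, z ⋖ y → y ∉ twY (2 * m) N := by
    intro y hy h
    have h1 := hlev y hy
    have h2 := (mem_twY.mp h).2.1
    omega
  have hnR : ∀ y, z ⋖ y → y ∉ r2 (2 * m) N := fun y hy h =>
    W.low (hlev y hy).le (mem_sdiff.mp h).1
  have hbd : z ∈ bdR (r2 (2 * m) N) := mem_filter.mpr ⟨hz, x, hnR x hzx, hzx⟩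
  refine le_antisymm ?_ ?_
  · refine (hcan_le (θ := thX (twY (2 * m) N) (twT N) (fun x => θ (topOf x) x)) (hnR x hzx)
      hzx).trans ?_
    rw [thX_not (hnY x hzx)]
  · obtain ⟨y, hy, hzy, hh⟩ := hcan_spec
      (θ := thX (twY (2 * m) N) (twT N) (fun x => θ (topOf x) x)) hbd
    rw [thX_not (hnY y hzy)] at hh
    have h3 := hmin y hzy
    show _ ≤ hcan _ _ z
    omega

lemma WM.mem_bd (W : WM r m N b θ) {z : P} (hz : z ∈ r2 (2 * m) N) (hl : lev z = 2 * m + 1) :
    z ∈ bdR (r2 (2 * m) N) := by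
  classical
  have hzt : z < (topOf z : P) := lt_of_le_of_ne (le_topOf z) (by
    intro h
    have := (topOf z).2
    rw [← h] at this
    omega)
  obtain ⟨x, hzx, -⟩ := Hul.exists_cov hzt
  refine mem_filter.mpr ⟨hz, x, fun h => ?_, hzx⟩
  have h1 := (W.gt.H.covBy_iff.mp hzx).2
  exact W.low (by omega) (mem_sdiff.mp h).1

lemma cst_ct {i k : ℕ} {h : P → ℕ} {z : P} (hk : h z = k) : cst i h z = ct i k z := by
  unfold ct cst ez
  rw [hk]

lemma nst_one {h : P → ℕ} {z : P} (hk : h z = 1) : nst m h z = nab m z := by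
  rw [nst_eq, hk, Finset.sum_range_one, Nat.add_zero]

lemma nst_two {h : P → ℕ} {z : P} (hk : h z = 2) : nst m h z = nab m z + nab (m + 1) z := by
  rw [nst_eq, hk, Finset.sum_range_succ, Finset.sum_range_one, Nat.add_zero]

/-- joins of natural elements of level `2 m` of different tops -/
lemma WM.nab_join (W : WM r m N b θ) {z x x' : P} (hl : lev z = 2 * m + 1) (hzx : z ⋖ x)
    (hzx' : z ⋖ x') (ht : topOf x ≠ topOf x') {l : ℕ} (hl2 : l ≤ 2 * m) :
    nab l z = nab l x + nab l x' := by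
  have H := W.gt.H
  have HN := W.natSys
  have h1 := (H.covBy_iff.mp hzx).2
  have h2 := (H.covBy_iff.mp hzx').2
  exact nab_join_eq HN H (HN.mem_iff.mpr ⟨W.low (by omega), rfl⟩)
    (HN.mem_iff.mpr ⟨W.low (by omega), rfl⟩) ht hzx hzx' (by omega)

lemma hh_eq (m : ℕ) : hh m = m % 2 + 1 := by
  unfold hh
  omega

/-- `nF m 0 = nF m h + 1` -/
lemma nF_drop (hm : 1 ≤ m) : nF m 0 = nF m (hh m) + 1 := by
  unfold nF hh
  omega

end Labels

end Pool.Agent.GaussPoset

end

/-! From `Pool.Agent.W_448s8_h76.SaH` -/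

section

/-!
The table of costs, drops and signs (MP_448cb3_co, S8).
-/

namespace Pool.Agent.GaussPoset

set_option linter.unusedSectionVars false

open Polynomial Finset

universe u

variable {P : Type u} [Fintype P] [PartialOrder P] [DecidableEq P] {r m : ℕ}
  {N : Tops P → Finset P} {b : Tops P → ℕ} {θ : Tops P → P → ℕ}

/-- label, cost, drop and sign exponent of a boundary element -/
structure Num (m : ℕ) (N : Tops P → Finset P) (θ : Tops P → P → ℕ) (z : P) (k c d s : ℕ) :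
    Prop where
  lab : h2 (2 * m) N θ z = k
  cst : Pool.Agent.GaussPoset.cst m (h2 (2 * m) N θ) z = c
  drop : nab m z = nab (m + k) z + d
  nst : Pool.Agent.GaussPoset.nst m (h2 (2 * m) N θ) z = s

/-- sign exponent of a fold end -/
def sgF (m : ℕ) : ℕ := ∑ k ∈ range (hh m), nF m k

lemma Num.mk' {z : P} {k c d s : ℕ} (hl : lev z = 2 * m + 1) (hk : k ≤ m + 1)
    (h1 : h2 (2 * m) N θ z = k) (h3 : vs m k z + k = c) (h4 : nab m z = nab (m + k) z + d)
    (h5 : ∑ u ∈ range k, nab (m + u) z = s) : Num m N θ z k c d s where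
  lab := h1
  cst := by rw [cst_ct h1, ct_top hl hk, h3]
  drop := h4
  nst := by rw [nst_eq, h1, h5]

section Rows

variable {z x x' : P}

lemma WM.num_penQ (W : WM r m N b θ) (hz : z ∈ r2 (2 * m) N) (hl : lev z = 2 * m + 1)
    (hx : QdM m N θ x) (hp : Pend z x) : Num m N θ z 1 (m + 1) 1 2 := by
  have hm := W.ten
  have hlx : lev x = 2 * m := by
    have := (W.gt.H.covBy_iff.mp hp.1).2
    omega
  have hn : ∀ u, u ≤ m → nab (m + u) z = if m + u = m then 2 else 1 := by
    intro u hu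
    rw [nab_pend hp (by omega)]
    exact W.nab_quad hx.inf hlx (by omega)
  refine Num.mk' hl (by omega) ?_ ?_ ?_ ?_
  · rw [W.h2_eq hz hl hp.1 (fun y hy => by rw [hp.2 y hy]), hx.th]
  · rw [vs_quad (a := m) le_rfl (by omega) hn, NL_one, Nat.sub_self, Nat.min_zero]
  · have h1 := hn 0 (by omega)
    have h2 := hn 1 (by omega)
    rw [if_pos (by omega)] at h1
    rw [if_neg (by omega)] at h2
    rw [Nat.add_zero] at h1
    omega
  · have h1 := hn 0 (by omega)
    rw [if_pos (by omega)] at h1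
    rw [Finset.sum_range_one, h1]

lemma WM.num_penF (W : WM r m N b θ) (hz : z ∈ r2 (2 * m) N) (hl : lev z = 2 * m + 1)
    (hx : FoldM m N b θ x) (hp : Pend z x) :
    Num m N θ z (hh m) (NF m (hh m) + hh m) 1 (sgF m) := by
  have hm := W.ten
  have hh2 := hh_le m
  have hn : ∀ u, u ≤ m → nab (m + u) z = nab (m + u) x := by
    intro u hu
    exact nab_pend hp (by omega)
  refine Num.mk' hl (by omega) ?_ ?_ ?_ ?_
  · rw [W.h2_eq hz hl hp.1 (fun y hy => by rw [hp.2 y hy]), hx.th, hh_eq]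
  · rw [vs_congr hn, hx.vs]
  · have h1 := hn 0 (by omega)
    rw [Nat.add_zero] at h1
    have h3 := hx.nab (u := 0) (by omega)
    rw [Nat.add_zero] at h3
    rw [h1, h3, hn (hh m) (by omega), hx.nab (by omega), nF_drop (by omega)]
  · unfold sgF
    refine Finset.sum_congr rfl fun u hu => ?_
    rw [mem_range] at hu
    rw [hn u (by omega), hx.nab (by omega)]

lemma WM.num_ff (W : WM r m N b θ) (hz : z ∈ r2 (2 * m) N) (hl : lev z = 2 * m + 1)
    (hx : FoldM m N b θ x) (hx' : FoldM m N b θ x') (ht : topOf x ≠ topOf x') (hzx : z ⋖ x)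
    (hzx' : z ⋖ x') : Num m N θ z (hh m) (2 * NF m (hh m) + hh m) 2 (2 * sgF m) := by
  have hm := W.ten
  have hh2 := hh_le m
  have hn : ∀ u, u ≤ m → nab (m + u) z = nab (m + u) x + nab (m + u) x' := by
    intro u hu
    exact W.nab_join hl hzx hzx' ht (by omega)
  have hne : x ≠ x' := fun h => ht (by rw [h])
  refine Num.mk' hl (by omega) ?_ ?_ ?_ ?_
  · rw [W.h2_eq hz hl hzx (fun y hy => ?_), hx.th, hh_eq]
    rcases uc_pair W.gt.H hzx hzx' hne hy with h | h
    · rw [h]
    · rw [h, hx.th, hx'.th]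
  · rw [vs_add hn, hx.vs, hx'.vs]
    ring
  · have h1 := hn 0 (by omega)
    rw [Nat.add_zero] at h1
    have h3 := hx.nab (u := 0) (by omega)
    have h4 := hx'.nab (u := 0) (by omega)
    rw [Nat.add_zero] at h3 h4
    rw [h1, h3, h4, hn (hh m) (by omega), hx.nab (by omega), hx'.nab (by omega),
      nF_drop (by omega)]
    ring
  · unfold sgF
    rw [Finset.mul_sum]
    refine Finset.sum_congr rfl fun u hu => ?_
    rw [mem_range] at hu
    rw [hn u (by omega), hx.nab (by omega), hx'.nab (by omega)]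
    ring

lemma WM.num_fq (W : WM r m N b θ) (hz : z ∈ r2 (2 * m) N) (hl : lev z = 2 * m + 1)
    (hx : FoldM m N b θ x) (hx' : QdM m N θ x') (ht : topOf x ≠ topOf x') (hzx : z ⋖ x)
    (hzx' : z ⋖ x') : Num m N θ z 1 (NF m 1 + m + 1) (2 - m % 2) (nF m 0 + 2) := by
  have hm := W.ten
  have hlx' : lev x' = 2 * m := by
    have := (W.gt.H.covBy_iff.mp hzx').2
    omega
  have hn : ∀ u, u ≤ m → nab (m + u) z = nab (m + u) x + nab (m + u) x' := by
    intro u hu
    exact W.nab_join hl hzx hzx' ht (by omega)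
  have hq : ∀ u, u ≤ m → nab (m + u) x' = if m + u = m then 2 else 1 := by
    intro u hu
    exact W.nab_quad hx'.inf hlx' (by omega)
  have hne : x ≠ x' := fun h => ht (by rw [h])
  refine Num.mk' hl (by omega) ?_ ?_ ?_ ?_
  · rw [W.h2_eq hz hl hzx' (fun y hy => by rw [hx'.th]; exact Nat.zero_le _), hx'.th]
  · rw [vs_add hn, hx.vs, vs_quad (a := m) le_rfl (by omega) hq, NL_one, Nat.sub_self,
      Nat.min_zero]
    ring
  · have h1 := hn 0 (by omega)
    have h5 := hn 1 (by omega)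
    have h3 := hx.nab (u := 0) (by omega)
    have h4 := hq 0 (by omega)
    rw [if_pos (by omega)] at h4
    have h6 := hx.nab (u := 1) (by omega)
    have h7 := hq 1 (by omega)
    rw [if_neg (by omega)] at h7
    rw [Nat.add_zero] at h1 h3 h4
    rw [h1, h3, h4, h5, h6, h7]
    unfold nF
    omega
  · have h1 := hn 0 (by omega)
    have h3 := hx.nab (u := 0) (by omega)
    have h4 := hq 0 (by omega)
    rw [if_pos (by omega)] at h4
    rw [Finset.sum_range_one, h1, h3, h4]

/-- the straight end of the stair of a fold end -/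
lemma WM.cc_full (W : WM r m N b θ) {Nc : Finset P} {co : P → ℕ × ℕ} (hx : InSM m N b θ x Nc co)
    (hcx : co x = (m, m)) (hx' : x' ∈ Nc) (hcx' : co x' = (0, 2 * m)) :
    FullM m N θ x' ∧ topOf x' = topOf x := by
  classical
  have H := W.gt.H
  have hm := W.ten
  have C := hx.stair.chart
  have hlx : lev x = 2 * m := by
    rw [C.lev x hx.mem, hcx]
    simp only
    omega
  have hlx' : lev x' = 2 * m := by
    rw [C.lev x' hx', hcx']
    simp only
    omega
  have hxN : x ∈ N (topOf x) := W.natSys.mem_iff.mpr ⟨W.low hlx.le, rfl⟩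
  have htop : topOf x' = topOf x := by
    have h1 : x' ∈ N (topOf x) := by
      rw [hx.nat]
      exact mem_natS.mpr (Or.inl hx')
    exact W.natSys.topOf_eq h1
  refine ⟨?_, htop⟩
  rcases W.kind hlx' with h | h | h | h
  · exact h
  · exfalso
    have h1 := h.nab (u := 0) (by omega)
    rw [Nat.add_zero, nab_chart C hx', hcx'] at h1
    have := card_cellsAt_shift (l := m) (p := (0, 2 * m)) (Nat.zero_le _) (by simp only; omega)
    simp only at this
    unfold nF at h1
    omega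
  · exfalso
    have h1 := h.inf.unique (x := x) (x' := x') (by rw [htop]; exact le_topOf x) (le_topOf x')
      hlx hlx'
    rw [h1, hcx'] at hcx
    simp only [Prod.mk.injEq] at hcx
    omega
  · exfalso
    obtain ⟨y1, y2, hne, hyy⟩ := Finset.card_eq_two.mp h.1
    have e1 : x' ⋖ y1 := Win.mem_uc.mp (by rw [hyy]; simp)
    have e2 : x' ⋖ y2 := Win.mem_uc.mp (by rw [hyy]; simp)
    have hy1 := C.up x' hx' y1 e1.le
    have hy2 := C.up x' hx' y2 e2.le
    have f1 := (chart_cov C H hx' hy1).mp e1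
    have f2 := (chart_cov C H hx' hy2).mp e2
    rw [hcx'] at f1 f2
    unfold Prd at f1 f2
    simp only at f1 f2
    exact hne (C.inj y1 hy1 y2 hy2 (Prod.ext (by omega) (by omega)))

/-- elements above a join of the fold end and the straight end of the same stair -/
lemma WM.nab_cc (W : WM r m N b θ) {Nc : Finset P} {co : P → ℕ × ℕ} (hl : lev z = 2 * m + 1)
    (hx : InSM m N b θ x Nc co) (hcx : co x = (m, m)) (hx' : x' ∈ Nc) (hcx' : co x' = (0, 2 * m))
    (hzx : z ⋖ x) (hzx' : z ⋖ x') :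
    nab m z = nF m 0 ∧ ∀ u, 1 ≤ u → u ≤ m → nab (m + u) z = nF m u + 1 := by
  classical
  have H := W.gt.H
  have hm := W.ten
  have C := hx.stair.chart
  have hF : FoldM m N b θ x := ⟨Nc, co, hx, hcx⟩
  have hne : x ≠ x' := by
    rintro rfl
    rw [hcx] at hcx'
    simp only [Prod.mk.injEq] at hcx'
    omega
  have hup : ∀ l, l ≤ 2 * m → ∀ y, lev y = l → z ≤ y → x ≤ y ∨ x' ≤ y := by
    intro l hl2 y hy hzy
    have hne2 : z ≠ y := by rintro rfl; omega
    obtain ⟨v, hv, hvy⟩ := Hul.exists_cov (lt_of_le_of_ne hzy hne2)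
    rcases uc_pair H hzx hzx' hne hv with h | h
    · rw [h] at hvy; exact Or.inl hvy
    · rw [h] at hvy; exact Or.inr hvy
  have hS : ∀ y, x' ≤ y → y ∈ Nc ∧ co y = (0, lev y) := by
    intro y hy
    have hyN := C.up x' hx' y hy
    have h1 := (C.le_iff x' hx' y hyN).mp hy
    have h2 : (co y).1 ≤ (co x').1 := h1.1
    rw [hcx'] at h2
    simp only at h2
    have h3 := C.lev y hyN
    exact ⟨hyN, Prod.ext (by simp only; omega) (by simp only; omega)⟩
  constructor
  · have h1 := hF.nab (u := 0) (by omega)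
    rw [Nat.add_zero] at h1
    rw [← h1]
    unfold nab
    congr 1
    ext y
    rw [mem_filter, mem_filter, mem_lv]
    refine and_congr_right fun h2 => ⟨fun h3 => ?_, fun h3 => hzx.le.trans h3⟩
    rcases hup m (by omega) y h2 h3 with h | h
    · exact h
    · obtain ⟨hy, hcy⟩ := hS y h
      rw [C.le_iff x hx.mem y hy, hcy, hcx, h2]
      exact ⟨Nat.zero_le _, le_rfl⟩
  · intro u hu hum
    have h1 := hF.nab (u := u) hum
    have h2 : nab (m + u) x' = 1 := by
      rw [nab_chart C hx', hcx']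
      have := card_cellsAt_shift (l := m + u) (p := (0, 2 * m)) (Nat.zero_le _)
        (by simp only; omega)
      simp only at this
      omega
    rw [← h1, ← h2]
    unfold nab
    rw [← Finset.card_union_of_disjoint]
    · congr 1
      ext y
      rw [mem_union, mem_filter, mem_filter, mem_filter, mem_lv]
      constructor
      · rintro ⟨h3, h4⟩
        rcases hup (m + u) (by omega) y h3 h4 with h | h
        · exact Or.inl ⟨h3, h⟩
        · exact Or.inr ⟨h3, h⟩
      · rintro (⟨h3, h4⟩ | ⟨h3, h4⟩)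
        · exact ⟨h3, hzx.le.trans h4⟩
        · exact ⟨h3, hzx'.le.trans h4⟩
    · rw [Finset.disjoint_left]
      intro y hy hy'
      rw [mem_filter, mem_lv] at hy hy'
      obtain ⟨hyN, hcy⟩ := hS y hy'.2
      have h3 := (C.le_iff x hx.mem y hyN).mp hy.2
      have h4 : (co y).2 ≤ (co x).2 := h3.2
      rw [hcy, hcx, hy.1] at h4
      simp only at h4
      omega

lemma WM.num_cc (W : WM r m N b θ) {Nc : Finset P} {co : P → ℕ × ℕ} (hz : z ∈ r2 (2 * m) N)
    (hl : lev z = 2 * m + 1) (hx : InSM m N b θ x Nc co) (hcx : co x = (m, m)) (hx' : x' ∈ Nc)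
    (hcx' : co x' = (0, 2 * m)) (hzx : z ⋖ x) (hzx' : z ⋖ x') :
    ∃ s, Num m N θ z (hh m) (E0 m) 0 s := by
  have hm := W.ten
  have hh2 := hh_le m
  have hh1 := hh_pos m
  have hF : FoldM m N b θ x := ⟨Nc, co, hx, hcx⟩
  obtain ⟨hfull, htop⟩ := W.cc_full hx hcx hx' hcx'
  obtain ⟨h1, h2⟩ := W.nab_cc hl hx hcx hx' hcx' hzx hzx'
  have hlx' : lev x' = 2 * m := by
    have := (W.gt.H.covBy_iff.mp hzx').2
    omega
  have hne : x ≠ x' := by
    rintro rfl
    rw [hcx] at hcx'
    simp only [Prod.mk.injEq] at hcx'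
    omega
  refine ⟨_, Num.mk' hl (by omega) ?_ ?_ ?_ rfl⟩
  · rw [W.h2_eq hz hl hzx (fun y hy => ?_), hF.th, hh_eq]
    rcases uc_pair W.gt.H hzx hzx' hne hy with h | h
    · rw [h]
    · rw [h, hF.th, hfull.th, hlx']
      omega
  · unfold E0 vs NF NL
    rw [← Finset.sum_add_distrib]
    congr 1
    refine Finset.sum_congr rfl fun u hu => ?_
    rw [mem_range] at hu
    rcases Nat.eq_zero_or_pos u with h0 | h0
    · subst h0
      simp
    · rw [h2 u h0 (by omega)]
      ring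
  · rw [h1, h2 (hh m) hh1 (by omega), nF_drop (by omega)]

/-- all covers have full thresholds: large cost -/
lemma WM.cst_full (W : WM r m N b θ) (hz : z ∈ r2 (2 * m) N) (hl : lev z = 2 * m + 1)
    (h : ∀ x, z ⋖ x → FullM m N θ x) : (m + 1) ^ 2 ≤ cst m (h2 (2 * m) N θ) z := by
  have hm := W.ten
  have hzt : z < (topOf z : P) := lt_of_le_of_ne (le_topOf z) (by
    intro h
    have := (topOf z).2
    rw [← h] at this
    omega)
  obtain ⟨x, hzx, -⟩ := Hul.exists_cov hzt
  have hlev : ∀ y, z ⋖ y → lev y = 2 * m := by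
    intro y hy
    have := (W.gt.H.covBy_iff.mp hy).2
    omega
  have h3 := W.h2_eq hz hl hzx (fun y hy => by
    rw [(h x hzx).th, (h y hy).th, hlev x hzx, hlev y hy])
  rw [(h x hzx).th, hlev x hzx] at h3
  have h4 := sq_le_cst (i := m) (h := h2 (2 * m) N θ) (z := z) (by omega)
    (by rw [h3]; omega) (by
      intro k hk hk2
      exact (h x hzx).two z (mem_sdiff.mp hz).1 hzx.le k (by omega) (by rw [hlev x hzx]; omega))
  rwa [hl, show 2 * m + 1 - m = m + 1 by omega] at h4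

end Rows

end Pool.Agent.GaussPoset

end

/-! From `Pool.Agent.W_448s8_h76.SaI` -/

section

/-!
Joins of fold ends with full ends; the master table; the step (MP_448cb3_co, S8).
-/

namespace Pool.Agent.GaussPoset

set_option linter.unusedSectionVars false

open Polynomial Finset

universe u

variable {P : Type u} [Fintype P] [PartialOrder P] [DecidableEq P] {r m : ℕ}
  {N : Tops P → Finset P} {b : Tops P → ℕ} {θ : Tops P → P → ℕ}

/-- the sign of a join with excess `d` -/
def sgT (m d : ℕ) : ℤ := (-1) ^ (sgF m + hh m) * if m % 2 = 1 ∧ d = 1 then -1 else 1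

section Rows

variable {z x x' : P}

lemma WM.num_fv (W : WM r m N b θ) (hz : z ∈ r2 (2 * m) N) (hl : lev z = 2 * m + 1)
    (hx : FoldM m N b θ x) (hx' : FullM m N θ x') (ht : topOf x ≠ topOf x') (hzx : z ⋖ x)
    (hzx' : z ⋖ x') {n d : ℕ} (h1 : vs m (hh m) x' = NL m (hh m) + n)
    (h2 : nab m x' = 1) (h3 : nab (m + hh m) x' + d = 2) :
    Num m N θ z (hh m) (E0 m + n) d (sgF m + ∑ u ∈ range (hh m), nab (m + u) x') := by
  have hm := W.ten
  have hh2 := hh_le m
  have hlx' : lev x' = 2 * m := by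
    have := (W.gt.H.covBy_iff.mp hzx').2
    omega
  have hn : ∀ u, u ≤ m → nab (m + u) z = nab (m + u) x + nab (m + u) x' := by
    intro u hu
    exact W.nab_join hl hzx hzx' ht (by omega)
  have hne : x ≠ x' := fun h => ht (by rw [h])
  refine Num.mk' hl (by omega) ?_ ?_ ?_ ?_
  · rw [W.h2_eq hz hl hzx (fun y hy => ?_), hx.th, hh_eq]
    rcases uc_pair W.gt.H hzx hzx' hne hy with h | h
    · rw [h]
    · rw [h, hx.th, hx'.th, hlx']
      omega
  · rw [vs_add hn, hx.vs, h1]
    unfold E0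
    ring
  · have e1 := hn 0 (by omega)
    have e3 := hx.nab (u := 0) (by omega)
    rw [Nat.add_zero] at e1 e3
    rw [e1, e3, h2, hn (hh m) (by omega), hx.nab (by omega), nF_drop (by omega)]
    omega
  · unfold sgF
    rw [← Finset.sum_add_distrib]
    refine Finset.sum_congr rfl fun u hu => ?_
    rw [mem_range] at hu
    rw [hn u (by omega), hx.nab (by omega)]

/-- a fold end and a full end: normal or star -/
lemma WM.num_T (W : WM r m N b θ) (hz : z ∈ r2 (2 * m) N) (hl : lev z = 2 * m + 1)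
    (hx : FoldM m N b θ x) (hx' : FullM m N θ x') (h1 : (Win.uc x').card = 1)
    (ht : topOf x ≠ topOf x') (hzx : z ⋖ x) (hzx' : z ⋖ x') :
    (∃ d s, d ≤ 10 ∧ Num m N θ z (hh m) (E0 m + d) 1 s ∧ (-1 : ℤ) ^ s = sgT m d) ∨
      (QInf m (m + hh m) (topOf x') ∧ ∃ s, Num m N θ z (hh m) (E0 m + hh m) 0 s) := by
  have hm := W.ten
  have hh2 := hh_le m
  have hh1 := hh_pos m
  have hlx' : lev x' = 2 * m := by
    have := (W.gt.H.covBy_iff.mp hzx').2
    omega
  rcases W.vinf hlx' hx' h1 with ⟨e1, e2⟩ | ⟨a, ha, e2⟩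
  · left
    have h3 := vs_late hh2 hlx' e1
    have h4 := exs_le e2
    refine ⟨hh m * exs m x', _, ?_, W.num_fv hz hl hx hx' ht hzx hzx' h3 (e1 m (by omega))
      (by rw [e1 (m + hh m) (by omega)]), ?_⟩
    · calc hh m * exs m x' ≤ 2 * 5 := Nat.mul_le_mul hh2 h4
        _ = 10 := rfl
    · have h5 : ∑ u ∈ range (hh m), nab (m + u) x' = hh m := by
        rw [Finset.sum_congr rfl (g := fun _ => 1)]
        · simp
        · intro u hu
          rw [mem_range] at hu
          exact e1 (m + u) (by omega)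
      rw [h5]
      unfold sgT
      rw [if_neg, mul_one]
      rintro ⟨h6, h7⟩
      have h8 : hh m = 2 := by
        unfold hh
        omega
      rw [h8] at h7
      omega
  · have hq : ∀ u, u ≤ m → nab (m + u) x' = if m + u = a then 2 else 1 := by
      intro u hu
      exact W.nab_quad e2 hlx' (by omega)
    have h3 := vs_quad (k := hh m) (a := a) (by omega) (by omega) hq
    have h4 : nab m x' = 1 := by
      have := hq 0 (by omega)
      rw [if_neg (by omega)] at this
      simpa using this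
    by_cases hstar : a = m + hh m
    · right
      subst hstar
      have h5 : nab (m + hh m) x' + 0 = 2 := by
        rw [hq (hh m) (by omega), if_pos rfl]
      have h6 := W.num_fv hz hl hx hx' ht hzx hzx' h3 h4 h5
      rw [show min (hh m) (m + hh m - m) = hh m by omega] at h6
      exact ⟨e2, _, h6⟩
    · left
      have h5 : nab (m + hh m) x' + 1 = 2 := by
        rw [hq (hh m) (by omega), if_neg (by omega)]
      refine ⟨_, _, ?_, W.num_fv hz hl hx hx' ht hzx hzx' h3 h4 h5, ?_⟩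
      · omega
      · rcases Nat.mod_two_eq_zero_or_one m with hp | hp
        · have h8 : hh m = 1 := by
            unfold hh
            omega
          rw [h8, Finset.sum_range_one, Nat.add_zero, h4]
          unfold sgT
          rw [if_neg (by omega), mul_one, h8]
        · have h8 : hh m = 2 := by
            unfold hh
            omega
          have h9 : a = m + 1 := by omega
          subst h9
          have h10 := hq 1 (by omega)
          rw [if_pos rfl] at h10
          rw [h8, Finset.sum_range_succ, Finset.sum_range_one, Nat.add_zero, h4, h10]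
          unfold sgT
          rw [if_pos ⟨hp, by omega⟩, h8, show sgF m + (1 + 2) = (sgF m + 2) + 1 by ring, pow_succ]

end Rows

/-- the master table -/
inductive RowM (m : ℕ) (N : Tops P → Finset P) (b : Tops P → ℕ) (θ : Tops P → P → ℕ) (z : P) :
    Prop
  | high (h : Kb m - 1 ≤ cst m (h2 (2 * m) N θ) z)
  | penQ (x : P) (hx : QdM m N θ x) (hp : Pend z x) (hn : Num m N θ z 1 (m + 1) 1 2)
  | penF (x : P) (hx : FoldM m N b θ x) (hp : Pend z x)
      (hn : Num m N θ z (hh m) (NF m (hh m) + hh m) 1 (sgF m))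
  | fq (x x' : P) (hx : FoldM m N b θ x) (hx' : QdM m N θ x') (ht : topOf x ≠ topOf x')
      (hzx : z ⋖ x) (hzx' : z ⋖ x') (hn : Num m N θ z 1 (NF m 1 + m + 1) (2 - m % 2) (nF m 0 + 2))
  | ff (x x' : P) (hx : FoldM m N b θ x) (hx' : FoldM m N b θ x') (ht : topOf x ≠ topOf x')
      (hzx : z ⋖ x) (hzx' : z ⋖ x')
      (hn : Num m N θ z (hh m) (2 * NF m (hh m) + hh m) 2 (2 * sgF m))
  | cc (x x' : P) (Nc : Finset P) (co : P → ℕ × ℕ) (hx : InSM m N b θ x Nc co)
      (hcx : co x = (m, m)) (hx' : x' ∈ Nc) (hcx' : co x' = (0, 2 * m)) (hzx : z ⋖ x)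
      (hzx' : z ⋖ x') (s : ℕ) (hn : Num m N θ z (hh m) (E0 m) 0 s)
  | norm (x x' : P) (hx : FoldM m N b θ x) (hx' : FullM m N θ x') (h1 : (Win.uc x').card = 1)
      (ht : topOf x ≠ topOf x') (hzx : z ⋖ x) (hzx' : z ⋖ x') (d s : ℕ) (hd : d ≤ 10)
      (hn : Num m N θ z (hh m) (E0 m + d) 1 s) (hs : (-1 : ℤ) ^ s = sgT m d)
  | star (x x' : P) (hx : FoldM m N b θ x) (hx' : FullM m N θ x') (h1 : (Win.uc x').card = 1)
      (ht : topOf x ≠ topOf x') (hzx : z ⋖ x) (hzx' : z ⋖ x') (hq : QInf m (m + hh m) (topOf x'))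
      (s : ℕ) (hn : Num m N θ z (hh m) (E0 m + hh m) 0 s)

lemma bd_mem {R : Finset P} {z : P} (hz : z ∈ bdR R) : z ∈ R := by
  classical
  exact (mem_filter.mp hz).1

theorem WM.rows (W : WM r m N b θ) (S7 : S7M m N b θ) {z : P} (hz : z ∈ bdR (r2 (2 * m) N)) :
    Kb m ≤ cst m (h2 (2 * m) N θ) z ∨ (lev z = 2 * m + 1 ∧ RowM m N b θ z) := by
  have hm := W.ten
  rcases W.bd hz with hl | h
  · right
    have hzR := bd_mem hz
    refine ⟨hl, ?_⟩
    rcases W.class S7 hzR hl with ⟨x, hx, hp⟩ | ⟨x, hx, hp⟩ | ⟨x, x', hx, hx', ht, hzx, hzx'⟩ |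
      ⟨x, x', hx, hx', ht, hzx, hzx'⟩ | ⟨x, x', hx, hx', h1, ht, hzx, hzx'⟩ |
      ⟨x, x', Nc, co, hx, hcx, hx', hcx', hzx, hzx'⟩ | h
    · exact RowM.penF x hx hp (W.num_penF hzR hl hx hp)
    · exact RowM.penQ x hx hp (W.num_penQ hzR hl hx hp)
    · exact RowM.fq x x' hx hx' ht hzx hzx' (W.num_fq hzR hl hx hx' ht hzx hzx')
    · exact RowM.ff x x' hx hx' ht hzx hzx' (W.num_ff hzR hl hx hx' ht hzx hzx')
    · rcases W.num_T hzR hl hx hx' h1 ht hzx hzx' with ⟨d, s, hd, hn, hs⟩ | ⟨hq, s, hn⟩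
      · exact RowM.norm x x' hx hx' h1 ht hzx hzx' d s hd hn hs
      · exact RowM.star x x' hx hx' h1 ht hzx hzx' hq s hn
    · obtain ⟨s, hn⟩ := W.num_cc hzR hl hx hcx hx' hcx' hzx hzx'
      exact RowM.cc x x' Nc co hx hcx hx' hcx' hzx hzx' s hn
    · refine RowM.high ?_
      have h2 := W.cst_full hzR hl h
      have h3 := Kb_le_sq m (by omega)
      have h4 : (m + 1) ^ 2 = (m + 1) * (m + 1) := pow_two _
      refine le_trans ?_ h2
      rw [h4]
      have h5 : Kb m - 1 ≤ (m + 1) * (m + 1) := by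
        obtain ⟨q, hq | hq⟩ := Nat.even_or_odd' m
        · rw [hq, Kb_even]
          have : 2 * q * q + 2 * q + 3 - 1 = 2 * q * q + 2 * q + 2 := by omega
          rw [this]
          nlinarith
        · rw [hq, Kb_odd]
          have : 2 * q * q + 9 * q + 8 - 1 = 2 * q * q + 9 * q + 7 := by omega
          rw [this]
          nlinarith
      exact h5
  · exact Or.inl h

/-- the step: all terms of maximal drop have the same sign, so there are none -/
theorem WM.kill (W : WM r m N b θ) {n : ℕ} (hn : n < Kb m - 1)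
    (hcost : ∀ z ∈ bdR (r2 (2 * m) N), n ≤ cst m (h2 (2 * m) N θ) z) (σ : ℤ) (hσ : σ ≠ 0) (δ : ℕ)
    (hδ : 1 ≤ δ)
    (h1 : ∀ z ∈ bdR (r2 (2 * m) N), cst m (h2 (2 * m) N θ) z = n →
      nab m z ≤ nab (m + h2 (2 * m) N θ z) z + δ)
    (h3 : ∀ z ∈ bdR (r2 (2 * m) N), cst m (h2 (2 * m) N θ) z = n →
      nab m z = nab (m + h2 (2 * m) N θ z) z + δ → (-1 : ℤ) ^ nst m (h2 (2 * m) N θ) z = σ) :
    ∀ z ∈ bdR (r2 (2 * m) N), cst m (h2 (2 * m) N θ) z = n →
      nab m z ≠ nab (m + h2 (2 * m) N θ z) z + δ := by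
  classical
  intro z0 hz0 hc0 hd0
  have F := W.farT
  have hd := F.dvd_lead hn hcost
  have hZ := dvd_Z W.gt.H.gauss m n
  set T := (bdR (r2 (2 * m) N)).filter (fun z => cst m (h2 (2 * m) N θ) z = n) with hT
  have hb : δ ≤ (lv P m).card := by
    have h5 : nab m z0 ≤ (lv P m).card := by
      unfold nab
      exact Finset.card_filter_le _ _
    omega
  have hs := sign_sum_of_dvd T hZ hd (c0 := (lv P m).card - δ) (by omega) (by
    intro y hy
    rw [hT, mem_filter] at hy
    have h4 := h1 y hy.1 hy.2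
    omega)
  set T' := T.filter (fun y => (lv P m).card - δ + nab m y =
    (lv P m).card + nab (m + h2 (2 * m) N θ y) y) with hT'
  have hz0T : z0 ∈ T' := by
    rw [hT', mem_filter, hT, mem_filter]
    exact ⟨⟨hz0, hc0⟩, by omega⟩
  rw [Finset.sum_congr rfl (g := fun _ => σ)] at hs
  · rw [Finset.sum_const, nsmul_eq_mul] at hs
    rcases mul_eq_zero.mp hs with h4 | h4
    · have h5 : T'.card = 0 := by exact_mod_cast h4
      rw [Finset.card_eq_zero] at h5
      rw [h5] at hz0T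
      exact absurd hz0T (Finset.notMem_empty _)
    · exact hσ h4
  · intro y hy
    rw [hT', mem_filter, hT, mem_filter] at hy
    exact h3 y hy.1.1 hy.1.2 (by omega)

end Pool.Agent.GaussPoset

end

/-! From `Pool.Agent.W_448s8_h76.SaJ` -/

section

/-!
The first steps: pendants, quadric ends, joins without excess (MP_448cb3_co, S8).
-/

namespace Pool.Agent.GaussPoset

set_option linter.unusedSectionVars false

open Polynomial Finset

universe u

variable {P : Type u} [Fintype P] [PartialOrder P] [DecidableEq P] {r m : ℕ}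
  {N : Tops P → Finset P} {b : Tops P → ℕ} {θ : Tops P → P → ℕ}

/-- the order of the energies -/
structure NumI (m : ℕ) : Prop where
  i1 : m + 1 < NF m (hh m) + hh m
  i2 : 1 ≤ NF m 1
  i3 : NF m (hh m) + hh m < E0 m
  i4 : E0 m + m + 1 < Kb m - 1
  i5 : E0 m + m + 1 < 2 * NF m (hh m) + hh m
  i6 : m % 2 = 0 → NF m 1 + m + 1 = E0 m
  i7 : m % 2 = 1 → NF m 1 + m + 1 < NF m (hh m) + hh m
  i8 : m % 2 = 0 → 2 * NF m (hh m) + hh m < Kb m - 1

lemma numI {m : ℕ} (hm : 10 ≤ m) : NumI m := by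
  have h4 := E0_lt m (by omega)
  obtain ⟨q, hq | hq⟩ := Nat.even_or_odd' m
  · have hq5 : 5 ≤ q := by omega
    subst hq
    refine ⟨?_, ?_, ?_, h4, ?_, ?_, ?_, ?_⟩
    · rw [hh_even, NF_even]; nlinarith
    · rw [NF_even]; nlinarith
    · rw [hh_even, NF_even, E0_even]; nlinarith
    · rw [hh_even, NF_even, E0_even]; nlinarith
    · intro _
      rw [NF_even, E0_even]; ring
    · intro h; omega
    · intro _
      rw [hh_even]
      exact EFF_even q
  · have hq5 : 5 ≤ q := by omega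
    subst hq
    refine ⟨?_, ?_, ?_, h4, ?_, ?_, ?_, ?_⟩
    · rw [hh_odd, NF_odd]; nlinarith
    · rw [NF_odd1]; nlinarith
    · rw [hh_odd, NF_odd, E0_odd]; nlinarith
    · rw [hh_odd, NF_odd, E0_odd]; nlinarith
    · intro h; omega
    · intro _
      rw [hh_odd, NF_odd, NF_odd1]; nlinarith
    · intro h; omega

/-- the table after the first steps -/
inductive Row2 (m : ℕ) (N : Tops P → Finset P) (b : Tops P → ℕ) (θ : Tops P → P → ℕ) (z : P) :
    Prop
  | high (h : Kb m - 1 ≤ cst m (h2 (2 * m) N θ) z)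
  | ff (x x' : P) (hl : lev z = 2 * m + 1) (hx : FoldM m N b θ x) (hx' : FoldM m N b θ x')
      (ht : topOf x ≠ topOf x') (hzx : z ⋖ x) (hzx' : z ⋖ x')
      (hn : Num m N θ z (hh m) (2 * NF m (hh m) + hh m) 2 (2 * sgF m))
  | cc (x x' : P) (Nc : Finset P) (co : P → ℕ × ℕ) (hl : lev z = 2 * m + 1)
      (hx : InSM m N b θ x Nc co) (hcx : co x = (m, m)) (hx' : x' ∈ Nc) (hcx' : co x' = (0, 2 * m))
      (hzx : z ⋖ x) (hzx' : z ⋖ x') (s : ℕ) (hn : Num m N θ z (hh m) (E0 m) 0 s)
  | norm (x x' : P) (hl : lev z = 2 * m + 1) (hx : FoldM m N b θ x) (hx' : FullM m N θ x')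
      (h1 : (Win.uc x').card = 1) (ht : topOf x ≠ topOf x') (hzx : z ⋖ x) (hzx' : z ⋖ x')
      (d s : ℕ) (hd0 : 1 ≤ d) (hd : d ≤ 10) (hn : Num m N θ z (hh m) (E0 m + d) 1 s)
      (hs : (-1 : ℤ) ^ s = sgT m d)
  | star (x x' : P) (hl : lev z = 2 * m + 1) (hx : FoldM m N b θ x) (hx' : FullM m N θ x')
      (h1 : (Win.uc x').card = 1) (ht : topOf x ≠ topOf x') (hzx : z ⋖ x) (hzx' : z ⋖ x')
      (hq : QInf m (m + hh m) (topOf x')) (s : ℕ) (hn : Num m N θ z (hh m) (E0 m + hh m) 0 s)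

lemma sgT_ne (m d : ℕ) : sgT m d ≠ 0 := by
  unfold sgT
  refine mul_ne_zero (pow_ne_zero _ (by norm_num)) ?_
  split_ifs <;> norm_num

section Steps

/-- no pendants below the end of a complete quadric -/
theorem WM.no_penQ (W : WM r m N b θ) (S7 : S7M m N b θ) {z : P} (hz : z ∈ bdR (r2 (2 * m) N))
    {x : P} (hl : lev z = 2 * m + 1) (hx : QdM m N θ x) (hp : Pend z x) : False := by
  have I := numI W.ten
  have i1 := I.i1
  have i2 := I.i2
  have i3 := I.i3
  have i4 := I.i4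
  have key := W.kill (n := m + 1) (by omega) (fun y hy => ?_) 1 one_ne_zero 1 le_rfl
    (fun y hy hc => ?_) (fun y hy hc hd => ?_) z hz
  · have hn := W.num_penQ (bd_mem hz) hl hx hp
    refine key hn.cst ?_
    rw [hn.lab]
    exact hn.drop
  · rcases W.rows S7 hy with h | ⟨-, h⟩
    · omega
    · rcases h with h | ⟨x, hx, hp, hn⟩ | ⟨x, hx, hp, hn⟩ | ⟨x, x', hx, hx', ht, hzx, hzx', hn⟩ |
        ⟨x, x', hx, hx', ht, hzx, hzx', hn⟩ | ⟨x, x', Nc, co, hx, hcx, hx', hcx', hzx, hzx', s, hn⟩ |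
        ⟨x, x', hx, hx', h1, ht, hzx, hzx', d, s, hd, hn, hs⟩ |
        ⟨x, x', hx, hx', h1, ht, hzx, hzx', hq, s, hn⟩
      · omega
      all_goals
        have := hn.cst
        omega
  · rcases W.rows S7 hy with h | ⟨-, h⟩
    · omega
    · rcases h with h | ⟨x, hx, hp, hn⟩ | ⟨x, hx, hp, hn⟩ | ⟨x, x', hx, hx', ht, hzx, hzx', hn⟩ |
        ⟨x, x', hx, hx', ht, hzx, hzx', hn⟩ | ⟨x, x', Nc, co, hx, hcx, hx', hcx', hzx, hzx', s, hn⟩ |
        ⟨x, x', hx, hx', h1, ht, hzx, hzx', d, s, hd, hn, hs⟩ |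
        ⟨x, x', hx, hx', h1, ht, hzx, hzx', hq, s, hn⟩
      · omega
      · rw [hn.lab]
        exact hn.drop.le
      all_goals
        have := hn.cst
        omega
  · rcases W.rows S7 hy with h | ⟨-, h⟩
    · omega
    · rcases h with h | ⟨x, hx, hp, hn⟩ | ⟨x, hx, hp, hn⟩ | ⟨x, x', hx, hx', ht, hzx, hzx', hn⟩ |
        ⟨x, x', hx, hx', ht, hzx, hzx', hn⟩ | ⟨x, x', Nc, co, hx, hcx, hx', hcx', hzx, hzx', s, hn⟩ |
        ⟨x, x', hx, hx', h1, ht, hzx, hzx', d, s, hd, hn, hs⟩ |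
        ⟨x, x', hx, hx', h1, ht, hzx, hzx', hq, s, hn⟩
      · omega
      · rw [hn.nst]
        norm_num
      all_goals
        have := hn.cst
        omega

/-- `m` odd: no joins of a fold end with the end of a complete quadric -/
theorem WM.no_fq_odd (W : WM r m N b θ) (S7 : S7M m N b θ) (hodd : m % 2 = 1) {z : P}
    (hz : z ∈ bdR (r2 (2 * m) N)) {x x' : P} (hl : lev z = 2 * m + 1) (hx : FoldM m N b θ x)
    (hx' : QdM m N θ x') (ht : topOf x ≠ topOf x') (hzx : z ⋖ x) (hzx' : z ⋖ x') : False := by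
  have I := numI W.ten
  have i1 := I.i1
  have i2 := I.i2
  have i3 := I.i3
  have i4 := I.i4
  have i5 := I.i5
  have i7 := I.i7 hodd
  have key := W.kill (n := NF m 1 + m + 1) (by omega) (fun y hy => ?_) ((-1) ^ (nF m 0 + 2))
    (pow_ne_zero _ (by norm_num)) 1 le_rfl (fun y hy hc => ?_) (fun y hy hc hd => ?_) z hz
  · have hn := W.num_fq (bd_mem hz) hl hx hx' ht hzx hzx'
    refine key hn.cst ?_
    have h1 := hn.drop
    rw [hodd] at h1
    rw [hn.lab]
    exact h1
  · rcases W.rows S7 hy with h | ⟨hl, h⟩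
    · omega
    · rcases h with h | ⟨x, hx, hp, hn⟩ | ⟨x, hx, hp, hn⟩ | ⟨x, x', hx, hx', ht, hzx, hzx', hn⟩ |
        ⟨x, x', hx, hx', ht, hzx, hzx', hn⟩ | ⟨x, x', Nc, co, hx, hcx, hx', hcx', hzx, hzx', s, hn⟩ |
        ⟨x, x', hx, hx', h1, ht, hzx, hzx', d, s, hd, hn, hs⟩ |
        ⟨x, x', hx, hx', h1, ht, hzx, hzx', hq, s, hn⟩
      · omega
      · exact (W.no_penQ S7 hy hl hx hp).elim
      all_goals
        have := hn.cst
        omega
  · rcases W.rows S7 hy with h | ⟨hl, h⟩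
    · omega
    · rcases h with h | ⟨x, hx, hp, hn⟩ | ⟨x, hx, hp, hn⟩ | ⟨x, x', hx, hx', ht, hzx, hzx', hn⟩ |
        ⟨x, x', hx, hx', ht, hzx, hzx', hn⟩ | ⟨x, x', Nc, co, hx, hcx, hx', hcx', hzx, hzx', s, hn⟩ |
        ⟨x, x', hx, hx', h1, ht, hzx, hzx', d, s, hd, hn, hs⟩ |
        ⟨x, x', hx, hx', h1, ht, hzx, hzx', hq, s, hn⟩
      · omega
      · exact (W.no_penQ S7 hy hl hx hp).elim
      · have := hn.cst
        omega
      · have h1 := hn.drop
        rw [hodd] at h1
        rw [hn.lab]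
        exact h1.le
      all_goals
        have := hn.cst
        omega
  · rcases W.rows S7 hy with h | ⟨hl, h⟩
    · omega
    · rcases h with h | ⟨x, hx, hp, hn⟩ | ⟨x, hx, hp, hn⟩ | ⟨x, x', hx, hx', ht, hzx, hzx', hn⟩ |
        ⟨x, x', hx, hx', ht, hzx, hzx', hn⟩ | ⟨x, x', Nc, co, hx, hcx, hx', hcx', hzx, hzx', s, hn⟩ |
        ⟨x, x', hx, hx', h1, ht, hzx, hzx', d, s, hd, hn, hs⟩ |
        ⟨x, x', hx, hx', h1, ht, hzx, hzx', hq, s, hn⟩
      · omega
      · exact (W.no_penQ S7 hy hl hx hp).elim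
      · have := hn.cst
        omega
      · rw [hn.nst]
      all_goals
        have := hn.cst
        omega

/-- no pendants below a fold end -/
theorem WM.no_penF (W : WM r m N b θ) (S7 : S7M m N b θ) {z : P} (hz : z ∈ bdR (r2 (2 * m) N))
    {x : P} (hl : lev z = 2 * m + 1) (hx : FoldM m N b θ x) (hp : Pend z x) : False := by
  have I := numI W.ten
  have i1 := I.i1
  have i2 := I.i2
  have i3 := I.i3
  have i4 := I.i4
  have i5 := I.i5
  have hfq : ∀ y ∈ bdR (r2 (2 * m) N), lev y = 2 * m + 1 → ∀ x x', FoldM m N b θ x →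
      QdM m N θ x' → topOf x ≠ topOf x' → y ⋖ x → y ⋖ x' →
      cst m (h2 (2 * m) N θ) y = NF m 1 + m + 1 → NF m (hh m) + hh m < NF m 1 + m + 1 := by
    intro y hy hl x x' hx hx' ht hzx hzx' _
    rcases Nat.mod_two_eq_zero_or_one m with h | h
    · rw [I.i6 h]
      exact i3
    · exact (W.no_fq_odd S7 h hy hl hx hx' ht hzx hzx').elim
  have key := W.kill (n := NF m (hh m) + hh m) (by omega) (fun y hy => ?_) ((-1) ^ (sgF m))
    (pow_ne_zero _ (by norm_num)) 1 le_rfl (fun y hy hc => ?_) (fun y hy hc hd => ?_) z hz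
  · have hn := W.num_penF (bd_mem hz) hl hx hp
    refine key hn.cst ?_
    rw [hn.lab]
    exact hn.drop
  · rcases W.rows S7 hy with h | ⟨hl, h⟩
    · omega
    · rcases h with h | ⟨x, hx, hp, hn⟩ | ⟨x, hx, hp, hn⟩ | ⟨x, x', hx, hx', ht, hzx, hzx', hn⟩ |
        ⟨x, x', hx, hx', ht, hzx, hzx', hn⟩ | ⟨x, x', Nc, co, hx, hcx, hx', hcx', hzx, hzx', s, hn⟩ |
        ⟨x, x', hx, hx', h1, ht, hzx, hzx', d, s, hd, hn, hs⟩ |
        ⟨x, x', hx, hx', h1, ht, hzx, hzx', hq, s, hn⟩
      · omega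
      · exact (W.no_penQ S7 hy hl hx hp).elim
      · exact hn.cst.ge
      · have h2 := hfq y hy hl x x' hx hx' ht hzx hzx' hn.cst
        rw [hn.cst]
        omega
      all_goals
        have := hn.cst
        omega
  · rcases W.rows S7 hy with h | ⟨hl, h⟩
    · omega
    · rcases h with h | ⟨x, hx, hp, hn⟩ | ⟨x, hx, hp, hn⟩ | ⟨x, x', hx, hx', ht, hzx, hzx', hn⟩ |
        ⟨x, x', hx, hx', ht, hzx, hzx', hn⟩ | ⟨x, x', Nc, co, hx, hcx, hx', hcx', hzx, hzx', s, hn⟩ |
        ⟨x, x', hx, hx', h1, ht, hzx, hzx', d, s, hd, hn, hs⟩ |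
        ⟨x, x', hx, hx', h1, ht, hzx, hzx', hq, s, hn⟩
      · omega
      · exact (W.no_penQ S7 hy hl hx hp).elim
      · rw [hn.lab]
        exact hn.drop.le
      · have h2 := hfq y hy hl x x' hx hx' ht hzx hzx' hn.cst
        have h3 := hn.cst
        omega
      all_goals
        have := hn.cst
        omega
  · rcases W.rows S7 hy with h | ⟨hl, h⟩
    · omega
    · rcases h with h | ⟨x, hx, hp, hn⟩ | ⟨x, hx, hp, hn⟩ | ⟨x, x', hx, hx', ht, hzx, hzx', hn⟩ |
        ⟨x, x', hx, hx', ht, hzx, hzx', hn⟩ | ⟨x, x', Nc, co, hx, hcx, hx', hcx', hzx, hzx', s, hn⟩ |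
        ⟨x, x', hx, hx', h1, ht, hzx, hzx', d, s, hd, hn, hs⟩ |
        ⟨x, x', hx, hx', h1, ht, hzx, hzx', hq, s, hn⟩
      · omega
      · exact (W.no_penQ S7 hy hl hx hp).elim
      · rw [hn.nst]
      · have h2 := hfq y hy hl x x' hx hx' ht hzx hzx' hn.cst
        have h3 := hn.cst
        omega
      all_goals
        have := hn.cst
        omega

/-- no joins of a fold end with the end of a complete quadric -/
theorem WM.no_fq (W : WM r m N b θ) (S7 : S7M m N b θ) {z : P}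
    (hz : z ∈ bdR (r2 (2 * m) N)) {x x' : P} (hl : lev z = 2 * m + 1) (hx : FoldM m N b θ x)
    (hx' : QdM m N θ x') (ht : topOf x ≠ topOf x') (hzx : z ⋖ x) (hzx' : z ⋖ x') : False := by
  rcases Nat.mod_two_eq_zero_or_one m with hev | hodd
  swap
  · exact W.no_fq_odd S7 hodd hz hl hx hx' ht hzx hzx'
  have I := numI W.ten
  have i1 := I.i1
  have i2 := I.i2
  have i3 := I.i3
  have i4 := I.i4
  have i5 := I.i5
  have i6 := I.i6 hev
  have key := W.kill (n := NF m 1 + m + 1) (by omega) (fun y hy => ?_) ((-1) ^ (nF m 0 + 2))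
    (pow_ne_zero _ (by norm_num)) 2 (by norm_num) (fun y hy hc => ?_) (fun y hy hc hd => ?_) z hz
  · have hn := W.num_fq (bd_mem hz) hl hx hx' ht hzx hzx'
    refine key hn.cst ?_
    have h1 := hn.drop
    rw [hev] at h1
    rw [hn.lab]
    exact h1
  · rcases W.rows S7 hy with h | ⟨hl, h⟩
    · omega
    · rcases h with h | ⟨x, hx, hp, hn⟩ | ⟨x, hx, hp, hn⟩ | ⟨x, x', hx, hx', ht, hzx, hzx', hn⟩ |
        ⟨x, x', hx, hx', ht, hzx, hzx', hn⟩ | ⟨x, x', Nc, co, hx, hcx, hx', hcx', hzx, hzx', s, hn⟩ |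
        ⟨x, x', hx, hx', h1, ht, hzx, hzx', d, s, hd, hn, hs⟩ |
        ⟨x, x', hx, hx', h1, ht, hzx, hzx', hq, s, hn⟩
      · omega
      · exact (W.no_penQ S7 hy hl hx hp).elim
      · exact (W.no_penF S7 hy hl hx hp).elim
      all_goals
        have := hn.cst
        omega
  · rcases W.rows S7 hy with h | ⟨hl, h⟩
    · omega
    · rcases h with h | ⟨x, hx, hp, hn⟩ | ⟨x, hx, hp, hn⟩ | ⟨x, x', hx, hx', ht, hzx, hzx', hn⟩ |
        ⟨x, x', hx, hx', ht, hzx, hzx', hn⟩ | ⟨x, x', Nc, co, hx, hcx, hx', hcx', hzx, hzx', s, hn⟩ |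
        ⟨x, x', hx, hx', h1, ht, hzx, hzx', d, s, hd, hn, hs⟩ |
        ⟨x, x', hx, hx', h1, ht, hzx, hzx', hq, s, hn⟩
      · omega
      · exact (W.no_penQ S7 hy hl hx hp).elim
      · exact (W.no_penF S7 hy hl hx hp).elim
      all_goals
        have h1 := hn.drop
        rw [hn.lab]
        omega
  · rcases W.rows S7 hy with h | ⟨hl, h⟩
    · omega
    · rcases h with h | ⟨x, hx, hp, hn⟩ | ⟨x, hx, hp, hn⟩ | ⟨x, x', hx, hx', ht, hzx, hzx', hn⟩ |
        ⟨x, x', hx, hx', ht, hzx, hzx', hn⟩ | ⟨x, x', Nc, co, hx, hcx, hx', hcx', hzx, hzx', s, hn⟩ |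
        ⟨x, x', hx, hx', h1, ht, hzx, hzx', d, s, hd', hn, hs⟩ |
        ⟨x, x', hx, hx', h1, ht, hzx, hzx', hq, s, hn⟩
      · omega
      · exact (W.no_penQ S7 hy hl hx hp).elim
      · exact (W.no_penF S7 hy hl hx hp).elim
      · rw [hn.nst]
      · have := hn.cst
        omega
      all_goals
        have h1 := hn.drop
        rw [hn.lab] at hd
        omega

/-- no joins without excess -/
theorem WM.no_T0 (W : WM r m N b θ) (S7 : S7M m N b θ) {z : P}
    (hz : z ∈ bdR (r2 (2 * m) N)) {s : ℕ} (hn : Num m N θ z (hh m) (E0 m) 1 s) : False := by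
  have I := numI W.ten
  have i1 := I.i1
  have i2 := I.i2
  have i3 := I.i3
  have i4 := I.i4
  have i5 := I.i5
  have hh1 := hh_pos m
  have key := W.kill (n := E0 m) (by omega) (fun y hy => ?_) (sgT m 0)
    (sgT_ne m 0) 1 le_rfl (fun y hy hc => ?_) (fun y hy hc hd => ?_) z hz
  · refine key hn.cst ?_
    rw [hn.lab]
    exact hn.drop
  · rcases W.rows S7 hy with h | ⟨hl, h⟩
    · omega
    · rcases h with h | ⟨x, hx, hp, hn⟩ | ⟨x, hx, hp, hn⟩ | ⟨x, x', hx, hx', ht, hzx, hzx', hn⟩ |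
        ⟨x, x', hx, hx', ht, hzx, hzx', hn⟩ | ⟨x, x', Nc, co, hx, hcx, hx', hcx', hzx, hzx', s, hn⟩ |
        ⟨x, x', hx, hx', h1, ht, hzx, hzx', d, s, hd, hn, hs⟩ |
        ⟨x, x', hx, hx', h1, ht, hzx, hzx', hq, s, hn⟩
      · omega
      · exact (W.no_penQ S7 hy hl hx hp).elim
      · exact (W.no_penF S7 hy hl hx hp).elim
      · exact (W.no_fq S7 hy hl hx hx' ht hzx hzx').elim
      all_goals
        have := hn.cst
        omega
  · rcases W.rows S7 hy with h | ⟨hl, h⟩
    · omega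
    · rcases h with h | ⟨x, hx, hp, hn⟩ | ⟨x, hx, hp, hn⟩ | ⟨x, x', hx, hx', ht, hzx, hzx', hn⟩ |
        ⟨x, x', hx, hx', ht, hzx, hzx', hn⟩ | ⟨x, x', Nc, co, hx, hcx, hx', hcx', hzx, hzx', s, hn⟩ |
        ⟨x, x', hx, hx', h1, ht, hzx, hzx', d, s, hd, hn, hs⟩ |
        ⟨x, x', hx, hx', h1, ht, hzx, hzx', hq, s, hn⟩
      · omega
      · exact (W.no_penQ S7 hy hl hx hp).elim
      · exact (W.no_penF S7 hy hl hx hp).elim
      · exact (W.no_fq S7 hy hl hx hx' ht hzx hzx').elim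
      · have := hn.cst
        omega
      all_goals
        have h1 := hn.drop
        rw [hn.lab]
        omega
  · rcases W.rows S7 hy with h | ⟨hl, h⟩
    · omega
    · rcases h with h | ⟨x, hx, hp, hn⟩ | ⟨x, hx, hp, hn⟩ | ⟨x, x', hx, hx', ht, hzx, hzx', hn⟩ |
        ⟨x, x', hx, hx', ht, hzx, hzx', hn⟩ | ⟨x, x', Nc, co, hx, hcx, hx', hcx', hzx, hzx', s, hn⟩ |
        ⟨x, x', hx, hx', h1, ht, hzx, hzx', d, s, hd', hn, hs⟩ |
        ⟨x, x', hx, hx', h1, ht, hzx, hzx', hq, s, hn⟩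
      · omega
      · exact (W.no_penQ S7 hy hl hx hp).elim
      · exact (W.no_penF S7 hy hl hx hp).elim
      · exact (W.no_fq S7 hy hl hx hx' ht hzx hzx').elim
      · have := hn.cst
        omega
      · have h1 := hn.drop
        rw [hn.lab] at hd
        omega
      · have h1 := hn.cst
        have h2 : d = 0 := by omega
        rw [hn.nst, hs, h2]
      · have := hn.cst
        omega

/-- the table after the first steps -/
theorem WM.rows2 (W : WM r m N b θ) (S7 : S7M m N b θ) {z : P} (hz : z ∈ bdR (r2 (2 * m) N)) :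
    Row2 m N b θ z := by
  rcases W.rows S7 hz with h | ⟨hl, h⟩
  · exact Row2.high (by omega)
  · rcases h with h | ⟨x, hx, hp, hn⟩ | ⟨x, hx, hp, hn⟩ | ⟨x, x', hx, hx', ht, hzx, hzx', hn⟩ |
      ⟨x, x', hx, hx', ht, hzx, hzx', hn⟩ | ⟨x, x', Nc, co, hx, hcx, hx', hcx', hzx, hzx', s, hn⟩ |
      ⟨x, x', hx, hx', h1, ht, hzx, hzx', d, s, hd, hn, hs⟩ |
      ⟨x, x', hx, hx', h1, ht, hzx, hzx', hq, s, hn⟩
    · exact Row2.high h
    · exact (W.no_penQ S7 hz hl hx hp).elim
    · exact (W.no_penF S7 hz hl hx hp).elim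
    · exact (W.no_fq S7 hz hl hx hx' ht hzx hzx').elim
    · exact Row2.ff x x' hl hx hx' ht hzx hzx' hn
    · exact Row2.cc x x' Nc co hl hx hcx hx' hcx' hzx hzx' s hn
    · rcases Nat.eq_zero_or_pos d with h0 | h0
      · subst h0
        exact (W.no_T0 S7 hz hn).elim
      · exact Row2.norm x x' hl hx hx' h1 ht hzx hzx' d s h0 hd hn hs
    · exact Row2.star x x' hl hx hx' h1 ht hzx hzx' hq s hn

end Steps

end Pool.Agent.GaussPoset

end

/-! From `Pool.Agent.W_448s8_h76.SaL` -/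

section

/-!
Families of elements with the same covers; union costs (MP_448cb3_co, S8).
-/

namespace Pool.Agent.GaussPoset

set_option linter.unusedSectionVars false

open Polynomial Finset

universe u

variable {P : Type u} [Fintype P] [PartialOrder P] [DecidableEq P] {r m : ℕ}
  {N : Tops P → Finset P} {b : Tops P → ℕ} {θ : Tops P → P → ℕ}

/-- the joins of the fold end with the straight end of the same stair -/
def CcM (m : ℕ) (N : Tops P → Finset P) (b : Tops P → ℕ) (θ : Tops P → P → ℕ) (z : P) : Prop :=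
  lev z = 2 * m + 1 ∧ ∃ x x' Nc co, InSM m N b θ x Nc co ∧ co x = (m, m) ∧ x' ∈ Nc ∧
    co x' = (0, 2 * m) ∧ z ⋖ x ∧ z ⋖ x'

/-- the star joins -/
def StM (m : ℕ) (N : Tops P → Finset P) (b : Tops P → ℕ) (θ : Tops P → P → ℕ) (z : P) : Prop :=
  lev z = 2 * m + 1 ∧ ∃ x x', FoldM m N b θ x ∧ FullM m N θ x' ∧ (Win.uc x').card = 1 ∧
    topOf x ≠ topOf x' ∧ z ⋖ x ∧ z ⋖ x' ∧ QInf m (m + hh m) (topOf x')

open Classical in
/-- the boundary elements with the same strict up-set -/
noncomputable def fam (m : ℕ) (N : Tops P → Finset P) (z : P) : Finset P :=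
  (bdR (r2 (2 * m) N)).filter (fun y => ∀ w, z < w ↔ y < w)

lemma mem_fam {z y : P} : y ∈ fam m N z ↔ y ∈ bdR (r2 (2 * m) N) ∧ ∀ w, z < w ↔ y < w := by
  classical
  unfold fam
  rw [mem_filter]

lemma self_mem_fam {z : P} (hz : z ∈ bdR (r2 (2 * m) N)) : z ∈ fam m N z :=
  mem_fam.mpr ⟨hz, fun _ => Iff.rfl⟩

lemma fam_eq {z y : P} (h : y ∈ fam m N z) : fam m N y = fam m N z := by
  have h1 := (mem_fam.mp h).2
  ext w
  rw [mem_fam, mem_fam]
  exact and_congr_right fun _ => ⟨fun h2 v => (h1 v).trans (h2 v), fun h2 v => (h1 v).symm.trans (h2 v)⟩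

lemma CcM.same {z y : P} (h : CcM m N b θ z) (hy : ∀ w, z < w ↔ y < w) : CcM m N b θ y := by
  obtain ⟨hl, x, x', Nc, co, h1, h2, h3, h4, h5, h6⟩ := h
  exact ⟨by rw [← lev_eq_of_up hy]; exact hl, x, x', Nc, co, h1, h2, h3, h4,
    (cov_of_up hy).mp h5, (cov_of_up hy).mp h6⟩

lemma StM.same {z y : P} (h : StM m N b θ z) (hy : ∀ w, z < w ↔ y < w) : StM m N b θ y := by
  obtain ⟨hl, x, x', h1, h2, h3, h4, h5, h6, h7⟩ := h
  exact ⟨by rw [← lev_eq_of_up hy]; exact hl, x, x', h1, h2, h3, h4,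
    (cov_of_up hy).mp h5, (cov_of_up hy).mp h6, h7⟩

/-- the union of the cheapest excess functions -/
noncomputable def Uu (i : ℕ) (h : P → ℕ) (z z' : P) : ℕ := ∑ x, max (ez i h z x) (ez i h z' x)

lemma Uu_right (i : ℕ) (h : P → ℕ) (z z' : P) : cst i h z' ≤ Uu i h z z' :=
  Finset.sum_le_sum fun _ _ => le_max_right _ _

/-- lower bound of the union by disjoint up-sets -/
lemma Uu_ge {i k : ℕ} {h : P → ℕ} {z z' : P} (hz : h z = k) (hz' : h z' = k) (hne : z ≠ z')
    (hlz : k ≤ lev z - i) (hlz' : k ≤ lev z' - i) (S : Finset P)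
    (hS : ∀ a ∈ S, z < a ∨ z' < a) (hS2 : ∀ a ∈ S, ¬ a ≤ z ∧ ¬ a ≤ z')
    (hdis : ∀ a ∈ S, ∀ a' ∈ S, a ≠ a' → ∀ x, i < lev x → a ≤ x → a' ≤ x → False) :
    ∑ a ∈ S, ct i k a + 2 * k ≤ Uu i h z z' := by
  classical
  have h1 : ∑ a ∈ S, ct i k a + 2 * k = ∑ x : P, (∑ a ∈ S, (if a ≤ x then min k (lev x - i) else 0) +
      ((if x = z then k else 0) + (if x = z' then k else 0))) := by
    rw [Finset.sum_add_distrib, Finset.sum_add_distrib, Finset.sum_ite_eq' univ z,
      Finset.sum_ite_eq' univ z', if_pos (mem_univ z), if_pos (mem_univ z'), Finset.sum_comm,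
      Finset.sum_congr rfl (fun a _ => ct_eq_sum i k a)]
    ring
  rw [h1]
  unfold Uu
  refine Finset.sum_le_sum fun x _ => ?_
  by_cases hxz : x = z
  · subst hxz
    rw [Finset.sum_eq_zero (fun a ha => if_neg (hS2 a ha).1), if_pos rfl, if_neg hne]
    refine le_trans ?_ (le_max_left _ _)
    unfold ez
    rw [if_pos le_rfl, hz]
    omega
  · by_cases hxz' : x = z'
    · subst hxz'
      rw [Finset.sum_eq_zero (fun a ha => if_neg (hS2 a ha).2), if_neg (Ne.symm hne), if_pos rfl]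
      refine le_trans ?_ (le_max_right _ _)
      unfold ez
      rw [if_pos le_rfl, hz']
      omega
    · rw [if_neg hxz, if_neg hxz']
      simp only [Nat.add_zero]
      by_cases hl : i < lev x
      · by_cases hex : ∃ a ∈ S, a ≤ x
        · obtain ⟨a, ha, hax⟩ := hex
          rw [Finset.sum_eq_single_of_mem a ha (fun a' ha' hne' => by
            rw [if_neg]
            intro h'
            exact hdis a ha a' ha' (Ne.symm hne') x hl hax h'), if_pos hax]
          rcases hS a ha with h2 | h2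
          · refine le_trans ?_ (le_max_left _ _)
            unfold ez
            rw [if_pos (h2.le.trans hax), hz]
          · refine le_trans ?_ (le_max_right _ _)
            unfold ez
            rw [if_pos (h2.le.trans hax), hz']
        · push Not at hex
          rw [Finset.sum_eq_zero (fun a ha => if_neg (hex a ha))]
          exact Nat.zero_le _
      · rw [Finset.sum_eq_zero]
        · exact Nat.zero_le _
        · intro a _
          rw [show lev x - i = 0 by omega, Nat.min_zero]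
          exact ite_self 0

/-- elements of level `2 m` -/
lemma ct_mid {x : P} {k : ℕ} (hl : lev x = 2 * m) : ct m k x = vs m k x := by
  unfold ct vs
  rw [cst_eq, hl, show 2 * m + 1 = m + (m + 1) by ring, Finset.sum_range_add,
    Finset.sum_eq_zero, zero_add]
  · refine Finset.sum_congr rfl fun u _ => ?_
    rw [Nat.add_sub_cancel_left]
  · intro l hl
    rw [mem_range] at hl
    rw [show l - m = 0 by omega, Nat.min_zero, Nat.zero_mul]

lemma vs_ge {x : P} {k : ℕ} (hl : lev x = 2 * m) : NL m k ≤ vs m k x := by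
  unfold vs NL
  refine Finset.sum_le_sum fun u hu => ?_
  rw [mem_range] at hu
  exact Nat.le_mul_of_pos_right _ (one_le_nab (by omega))

lemma NL_ge {k : ℕ} (hk : 1 ≤ k) : m ≤ NL m k := by
  have h1 : NL m 1 ≤ NL m k := by
    unfold NL
    exact Finset.sum_le_sum fun u _ => min_le_min hk le_rfl
  rwa [NL_one] at h1

/-- natural elements of different tops have no common upper bound -/
lemma WM.disjL (W : WM r m N b θ) {x x' y : P} (hx : lev x ≤ 2 * m) (hx' : lev x' ≤ 2 * m)
    (ht : topOf x ≠ topOf x') (h1 : x ≤ y) (h2 : x' ≤ y) : False :=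
  ht ((W.natSys.cp x y h1 (W.low hx)).trans (W.natSys.cp x' y h2 (W.low hx')).symm)

/-- one fold end per top -/
lemma WM.fold_unique (W : WM r m N b θ) {x x' : P} (hx : FoldM m N b θ x)
    (hx' : FoldM m N b θ x') (ht : topOf x = topOf x') : x = x' := by
  have hm := W.ten
  by_contra hne
  obtain ⟨Nc, co, h, hcx⟩ := hx
  have hl' := hx'.lev
  have h2 : x' ∈ Nc := h.stair.strip (mem_lowPart.mpr ⟨by rw [ht]; exact le_topOf x', hl'.le⟩)
  have h3 := h.stair.chart.lev x' h2
  have h4 : (co x').1 ≤ (co x').2 := h.stair.chart.mem x' h2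
  have h5 : co x' ≠ (m, m) := fun h' => hne (h.stair.chart.inj x h.mem x' h2 (by rw [hcx, h']))
  have h6 : (co x').1 ≠ m := fun h' => h5 (Prod.ext h' (by simp only; omega))
  -- count on the level `2 m - 1` or `m`
  have h7 := hx'.nab (u := m - 1) (by omega)
  have h8 := hx'.nab (u := 0) (by omega)
  rw [nab_chart h.stair.chart h2] at h7 h8
  have h9 := card_cellsAt_shift (l := m + (m - 1)) (p := co x') h4 (by omega)
  have h10 := card_cellsAt_shift (l := m + 0) (p := co x') h4 (by omega)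
  unfold nF at h7 h8
  omega

/-- the straight end of a stair is unique -/
lemma WM.cc_unique (W : WM r m N b θ) {x x' y y' : P} {Nc Nc' : Finset P}
    {co co' : P → ℕ × ℕ} (hx : InSM m N b θ x Nc co) (hcx : co x = (m, m)) (hx' : x' ∈ Nc)
    (hcx' : co x' = (0, 2 * m)) (hy : InSM m N b θ y Nc' co')
    (hcy : co' y = (m, m)) (hy' : y' ∈ Nc') (hcy' : co' y' = (0, 2 * m)) (hxy : x = y) :
    x' = y' := by
  have hm := W.ten
  obtain ⟨h1, h2⟩ := W.cc_full hx hcx hx' hcx'
  obtain ⟨h3, h4⟩ := W.cc_full hy hcy hy' hcy'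
  by_contra hne
  have hly' : lev y' = 2 * m := by
    rw [hy.stair.chart.lev y' hy', hcy']
    simp only
    omega
  have h5 : y' ∈ Nc := hx.stair.strip (mem_lowPart.mpr ⟨by
    rw [hxy, ← h4]
    exact le_topOf y', hly'.le⟩)
  have h6 := hx.stair.chart.lev y' h5
  have h7 : (co y').1 ≤ (co y').2 := hx.stair.chart.mem y' h5
  have h8 : nab m y' = 1 := by
    rw [nab_chart hy.stair.chart hy', hcy']
    have := card_cellsAt_shift (l := m) (p := (0, 2 * m)) (Nat.zero_le _) (by simp only; omega)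
    simp only at this
    omega
  have h9 := card_cellsAt_shift (l := m) (p := co y') h7 (by omega)
  rw [← nab_chart hx.stair.chart h5, h8] at h9
  exact hne (hx.stair.chart.inj x' hx' y' h5 (by
    rw [hcx']
    exact Prod.ext (by simp only; omega) (by simp only; omega)))

/-- data of a join of a fold end -/
structure Jd (m : ℕ) (N : Tops P → Finset P) (b : Tops P → ℕ) (θ : Tops P → P → ℕ)
    (z x x' : P) : Prop where
  lev : Pool.Agent.GaussPoset.lev z = 2 * m + 1
  fold : FoldM m N b θ x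
  zx : z ⋖ x
  zx' : z ⋖ x'
  ne : x ≠ x'
  lab : h2 (2 * m) N θ z = hh m
  dis : ∀ y, m < Pool.Agent.GaussPoset.lev y → x ≤ y → x' ≤ y → False

lemma Jd.mid (W : WM r m N b θ) {z x x' : P} (h : Jd m N b θ z x x') :
    Pool.Agent.GaussPoset.lev x' = 2 * m := by
  have h1 := h.lev
  have h2 := (W.gt.H.covBy_iff.mp h.zx').2
  omega

lemma WM.jd_cc (W : WM r m N b θ) {z x x' : P} {Nc : Finset P} {co : P → ℕ × ℕ}
    (hz : z ∈ r2 (2 * m) N) (hl : lev z = 2 * m + 1) (hx : InSM m N b θ x Nc co)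
    (hcx : co x = (m, m)) (hx' : x' ∈ Nc) (hcx' : co x' = (0, 2 * m)) (hzx : z ⋖ x)
    (hzx' : z ⋖ x') : Jd m N b θ z x x' := by
  have hm := W.ten
  obtain ⟨s, hn⟩ := W.num_cc hz hl hx hcx hx' hcx' hzx hzx'
  refine ⟨hl, ⟨Nc, co, hx, hcx⟩, hzx, hzx', ?_, hn.lab, ?_⟩
  · rintro rfl
    rw [hcx] at hcx'
    simp only [Prod.mk.injEq] at hcx'
    omega
  · intro y hy h1 h2
    have C := hx.stair.chart
    have hyN := C.up x' hx' y h2
    have h3 := (C.le_iff x' hx' y hyN).mp h2
    have h4 := (C.le_iff x hx.mem y hyN).mp h1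
    have h5 := C.lev y hyN
    have h6 : (co y).1 ≤ (co x').1 := h3.1
    have h7 : (co y).2 ≤ (co x).2 := h4.2
    rw [hcx'] at h6
    rw [hcx] at h7
    simp only at h6 h7
    omega

lemma WM.jd_top (W : WM r m N b θ) {z x x' : P} (hl : lev z = 2 * m + 1)
    (hx : FoldM m N b θ x) (ht : topOf x ≠ topOf x') (hzx : z ⋖ x) (hzx' : z ⋖ x')
    (hlab : h2 (2 * m) N θ z = hh m) : Jd m N b θ z x x' := by
  have hlx' : lev x' = 2 * m := by
    have := (W.gt.H.covBy_iff.mp hzx').2
    omega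
  exact ⟨hl, hx, hzx, hzx', fun h => ht (by rw [h]), hlab,
    fun y _ h1 h2 => W.disjL hx.lev.le hlx'.le ht h1 h2⟩

/-- two joins below different fold ends -/
lemma WM.U_two (W : WM r m N b θ) {z z' x x' y y' : P} (h : Jd m N b θ z x x')
    (h' : Jd m N b θ z' y y') (hzz : z ≠ z') (hne : x ≠ y) :
    2 * NF m (hh m) + 2 * hh m ≤ Uu m (h2 (2 * m) N θ) z z' := by
  classical
  have hm := W.ten
  have hh2 := hh_le m
  have hlx := h.fold.lev
  have hly := h'.fold.lev
  have ht : topOf x ≠ topOf y := fun ht => hne (W.fold_unique h.fold h'.fold ht)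
  have hlz := h.lev
  have hlz' := h'.lev
  have h1 := Uu_ge (i := m) (k := hh m) h.lab h'.lab hzz (by omega) (by omega) {x, y} (by
    intro a ha
    rw [mem_insert, mem_singleton] at ha
    rcases ha with rfl | rfl
    · exact Or.inl h.zx.1
    · exact Or.inr h'.zx.1) (by
    intro a ha
    rw [mem_insert, mem_singleton] at ha
    have key : ∀ w : P, lev w = 2 * m + 1 → ¬ a ≤ w := by
      intro w hw haw
      have h2 : lev a = 2 * m := by
        rcases ha with rfl | rfl
        · exact hlx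
        · exact hly
      rcases eq_or_lt_of_le haw with h3 | h3
      · rw [h3] at h2
        omega
      · have := lev_strictAnti h3
        omega
    exact ⟨key z hlz, key z' hlz'⟩) (by
    intro a ha a' ha' hne' w hw h2 h3
    rw [mem_insert, mem_singleton] at ha ha'
    rcases ha with rfl | rfl
    · rcases ha' with rfl | rfl
      · exact hne' rfl
      · exact W.disjL hlx.le hly.le ht h2 h3
    · rcases ha' with rfl | rfl
      · exact W.disjL hlx.le hly.le ht h3 h2
      · exact hne' rfl)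
  rw [Finset.sum_pair hne, ct_mid hlx, ct_mid hly, h.fold.vs, h'.fold.vs] at h1
  omega

/-- two joins below the same fold end -/
lemma WM.U_one (W : WM r m N b θ) {z z' x x' y' : P} (h : Jd m N b θ z x x')
    (h' : Jd m N b θ z' x y') (hzz : z ≠ z') (hne : x' ≠ y')
    (hd : ∀ w, m < lev w → x' ≤ w → y' ≤ w → False) :
    NF m (hh m) + vs m (hh m) x' + vs m (hh m) y' + 2 * hh m ≤ Uu m (h2 (2 * m) N θ) z z' := by
  classical
  have hm := W.ten
  have hh2 := hh_le m
  have hlx := h.fold.lev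
  have hlx' := h.mid W
  have hly' := h'.mid W
  have hlz := h.lev
  have hlz' := h'.lev
  have h1 := Uu_ge (i := m) (k := hh m) h.lab h'.lab hzz (by omega) (by omega) {x, x', y'} (by
    intro a ha
    rw [mem_insert, mem_insert, mem_singleton] at ha
    rcases ha with rfl | rfl | rfl
    · exact Or.inl h.zx.1
    · exact Or.inl h.zx'.1
    · exact Or.inr h'.zx'.1) (by
    intro a ha
    rw [mem_insert, mem_insert, mem_singleton] at ha
    have key : ∀ w : P, lev w = 2 * m + 1 → ¬ a ≤ w := by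
      intro w hw haw
      have h2 : lev a = 2 * m := by
        rcases ha with rfl | rfl | rfl
        · exact hlx
        · exact hlx'
        · exact hly'
      rcases eq_or_lt_of_le haw with h3 | h3
      · rw [h3] at h2
        omega
      · have := lev_strictAnti h3
        omega
    exact ⟨key z hlz, key z' hlz'⟩) (by
    intro a ha a' ha' hne' w hw h2 h3
    rw [mem_insert, mem_insert, mem_singleton] at ha ha'
    rcases ha with rfl | rfl | rfl
    · rcases ha' with rfl | rfl | rfl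
      · exact hne' rfl
      · exact h.dis w hw h2 h3
      · exact h'.dis w hw h2 h3
    · rcases ha' with rfl | rfl | rfl
      · exact h.dis w hw h3 h2
      · exact hne' rfl
      · exact hd w hw h2 h3
    · rcases ha' with rfl | rfl | rfl
      · exact h'.dis w hw h3 h2
      · exact hd w hw h3 h2
      · exact hne' rfl)
  have hx1 : x ∉ ({x', y'} : Finset P) := by
    rw [mem_insert, mem_singleton, not_or]
    exact ⟨h.ne, h'.ne⟩
  rw [Finset.sum_insert hx1, Finset.sum_pair hne, ct_mid hlx, ct_mid hlx', ct_mid hly',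
    h.fold.vs] at h1
  omega

/-- star joins: the numbers -/
lemma WM.num_star (W : WM r m N b θ) {z x x' : P} (hz : z ∈ r2 (2 * m) N)
    (hl : lev z = 2 * m + 1) (hx : FoldM m N b θ x) (hx' : FullM m N θ x')
    (ht : topOf x ≠ topOf x') (hzx : z ⋖ x) (hzx' : z ⋖ x')
    (hq : QInf m (m + hh m) (topOf x')) :
    vs m (hh m) x' = NL m (hh m) + hh m ∧ ∃ s, Num m N θ z (hh m) (E0 m + hh m) 0 s := by
  have hm := W.ten
  have hh2 := hh_le m
  have hh1 := hh_pos m
  have hlx' : lev x' = 2 * m := by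
    have := (W.gt.H.covBy_iff.mp hzx').2
    omega
  have hn : ∀ u, u ≤ m → nab (m + u) x' = if m + u = m + hh m then 2 else 1 := by
    intro u hu
    exact W.nab_quad hq hlx' (by omega)
  have h3 := vs_quad (k := hh m) (a := m + hh m) (by omega) (by omega) hn
  have h4 : nab m x' = 1 := by
    have := hn 0 (by omega)
    rw [if_neg (by omega)] at this
    simpa using this
  have h5 : nab (m + hh m) x' + 0 = 2 := by
    rw [hn (hh m) (by omega), if_pos rfl]
  rw [show min (hh m) (m + hh m - m) = hh m by omega] at h3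
  exact ⟨h3, _, W.num_fv hz hl hx hx' ht hzx hzx' h3 h4 h5⟩

/-- the union cost of a (C) join and another boundary element -/
theorem WM.U_cc (W : WM r m N b θ) (S7 : S7M m N b θ) {z z' : P}
    (hz : z ∈ bdR (r2 (2 * m) N)) (hz' : z' ∈ bdR (r2 (2 * m) N)) (hc : CcM m N b θ z)
    (hn : z' ∉ fam m N z) : E0 m + m + 1 ≤ Uu m (h2 (2 * m) N θ) z z' := by
  have I := numI W.ten
  have i4 := I.i4
  have i5 := I.i5
  have hh1 := hh_pos m
  have hR := Uu_right m (h2 (2 * m) N θ) z z'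
  have hzz : z ≠ z' := by
    rintro rfl
    exact hn (self_mem_fam hz)
  obtain ⟨hl, x, x', Nc, co, hx, hcx, hx', hcx', hzx, hzx'⟩ := hc
  have hJ := W.jd_cc (bd_mem hz) hl hx hcx hx' hcx' hzx hzx'
  have hvx := vs_ge (k := hh m) (hJ.mid W)
  have hNL := NL_ge (m := m) hh1
  have hsame : ∀ y', z' ⋖ x → z' ⋖ y' → x ≠ y' → y' ≠ x' := by
    rintro y' h1 h2 h3 rfl
    exact hn (mem_fam.mpr ⟨hz', up_of_pair W.gt.H h1 h2 hzx hzx' h3⟩)
  rcases W.rows2 S7 hz' with h | ⟨y, y', hl', hy, hy', ht, hzy, hzy', hn'⟩ |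
    ⟨y, y', Nc', co', hl', hy, hcy, hy', hcy', hzy, hzy', s, hn'⟩ |
    ⟨y, y', hl', hy, hy', h1, ht, hzy, hzy', d, s, hd0, hd, hn', hs⟩ |
    ⟨y, y', hl', hy, hy', h1, ht, hzy, hzy', hq, s, hn'⟩
  · omega
  · have := hn'.cst
    omega
  · have hJ' := W.jd_cc (bd_mem hz') hl' hy hcy hy' hcy' hzy hzy'
    by_cases hxy : x = y
    · exfalso
      have h3 := W.cc_unique hx hcx hx' hcx' hy hcy hy' hcy' hxy
      subst hxy
      exact hsame y' hzy hzy' hJ'.ne h3.symm
    · have := W.U_two hJ hJ' hzz hxy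
      omega
  · have hJ' := W.jd_top hl' hy ht hzy hzy' hn'.lab
    by_cases hxy : x = y
    · subst hxy
      have h3 := hsame y' hzy hzy' hJ'.ne
      have h4 := (W.cc_full hx hcx hx' hcx').2
      have h5 := W.U_one hJ hJ' hzz (Ne.symm h3) (fun w _ h6 h7 =>
        W.disjL (hJ.mid W).le (hJ'.mid W).le (by rw [h4]; exact ht) h6 h7)
      have h6 := vs_ge (k := hh m) (hJ'.mid W)
      unfold E0
      omega
    · have := W.U_two hJ hJ' hzz hxy
      omega
  · have hJ' := W.jd_top hl' hy ht hzy hzy' hn'.lab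
    by_cases hxy : x = y
    · subst hxy
      have h3 := hsame y' hzy hzy' hJ'.ne
      have h4 := (W.cc_full hx hcx hx' hcx').2
      have h5 := W.U_one hJ hJ' hzz (Ne.symm h3) (fun w _ h6 h7 =>
        W.disjL (hJ.mid W).le (hJ'.mid W).le (by rw [h4]; exact ht) h6 h7)
      have h6 := vs_ge (k := hh m) (hJ'.mid W)
      unfold E0
      omega
    · have := W.U_two hJ hJ' hzz hxy
      omega

/-- the union cost of a star join and another boundary element -/
theorem WM.U_st (W : WM r m N b θ) (S7 : S7M m N b θ) {z z' : P}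
    (hz : z ∈ bdR (r2 (2 * m) N)) (hz' : z' ∈ bdR (r2 (2 * m) N)) (hc : StM m N b θ z)
    (hn : z' ∉ fam m N z) : E0 m + m + 2 ≤ Uu m (h2 (2 * m) N θ) z z' := by
  have I := numI W.ten
  have i4 := I.i4
  have i5 := I.i5
  have hh1 := hh_pos m
  have hR := Uu_right m (h2 (2 * m) N θ) z z'
  have hzz : z ≠ z' := by
    rintro rfl
    exact hn (self_mem_fam hz)
  obtain ⟨hl, x, x', hx, hx', hc1, hxt, hzx, hzx', hxq⟩ := hc
  obtain ⟨hvx, s0, hn0⟩ := W.num_star (bd_mem hz) hl hx hx' hxt hzx hzx' hxq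
  have hJ := W.jd_top hl hx hxt hzx hzx' hn0.lab
  have hNL := NL_ge (m := m) hh1
  have hsame : ∀ y', z' ⋖ x → z' ⋖ y' → x ≠ y' → y' ≠ x' := by
    rintro y' h1 h2 h3 rfl
    exact hn (mem_fam.mpr ⟨hz', up_of_pair W.gt.H h1 h2 hzx hzx' h3⟩)
  -- the other cover of the second element is in another component
  have htop : ∀ y', lev y' = 2 * m → y' ≠ x' → topOf x' ≠ topOf y' := by
    intro y' hl2 hne ht
    exact hne (hxq.unique (by rw [ht]; exact le_topOf y') (le_topOf x') hl2 (hJ.mid W))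
  rcases W.rows2 S7 hz' with h | ⟨y, y', hl', hy, hy', ht, hzy, hzy', hn'⟩ |
    ⟨y, y', Nc', co', hl', hy, hcy, hy', hcy', hzy, hzy', s, hn'⟩ |
    ⟨y, y', hl', hy, hy', h1, ht, hzy, hzy', d, s, hd0, hd, hn', hs⟩ |
    ⟨y, y', hl', hy, hy', h1, ht, hzy, hzy', hq, s, hn'⟩
  · omega
  · have := hn'.cst
    omega
  · have hJ' := W.jd_cc (bd_mem hz') hl' hy hcy hy' hcy' hzy hzy'
    by_cases hxy : x = y
    · subst hxy
      have h3 := hsame y' hzy hzy' hJ'.ne
      have h5 := W.U_one hJ hJ' hzz (Ne.symm h3) (fun w _ h6 h7 =>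
        W.disjL (hJ.mid W).le (hJ'.mid W).le (htop y' (hJ'.mid W) h3) h6 h7)
      have h6 := vs_ge (k := hh m) (hJ'.mid W)
      unfold E0
      omega
    · have := W.U_two hJ hJ' hzz hxy
      omega
  · have hJ' := W.jd_top hl' hy ht hzy hzy' hn'.lab
    by_cases hxy : x = y
    · subst hxy
      have h3 := hsame y' hzy hzy' hJ'.ne
      have h5 := W.U_one hJ hJ' hzz (Ne.symm h3) (fun w _ h6 h7 =>
        W.disjL (hJ.mid W).le (hJ'.mid W).le (htop y' (hJ'.mid W) h3) h6 h7)
      have h6 := vs_ge (k := hh m) (hJ'.mid W)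
      unfold E0
      omega
    · have := W.U_two hJ hJ' hzz hxy
      omega
  · have hJ' := W.jd_top hl' hy ht hzy hzy' hn'.lab
    by_cases hxy : x = y
    · subst hxy
      have h3 := hsame y' hzy hzy' hJ'.ne
      have h5 := W.U_one hJ hJ' hzz (Ne.symm h3) (fun w _ h6 h7 =>
        W.disjL (hJ.mid W).le (hJ'.mid W).le (htop y' (hJ'.mid W) h3) h6 h7)
      have h6 := vs_ge (k := hh m) (hJ'.mid W)
      unfold E0
      omega
    · have := W.U_two hJ hJ' hzz hxy
      omega

end Pool.Agent.GaussPoset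

end

/-! From `Pool.Agent.W_448s8_h76.SaM` -/

section

/-!
The ladder: joins with excess, (C) joins, star joins (MP_448cb3_co, S8).
-/

namespace Pool.Agent.GaussPoset

set_option linter.unusedSectionVars false

open Polynomial Finset

universe u

variable {P : Type u} [Fintype P] [PartialOrder P] [DecidableEq P] {r m : ℕ}
  {N : Tops P → Finset P} {b : Tops P → ℕ} {θ : Tops P → P → ℕ}

/-- first pole of a family of blockers -/
structure Fz (m : ℕ) (N : Tops P → Finset P) (θ : Tops P → P → ℕ) (z : P) (E : ℕ) (σ : ℤ) :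
    Prop where
  clean : ∀ n < E, (1 + X : ℤ[X]) ^ (lv P m).card ∣ ZF m (h2 (2 * m) N θ) (fam m N z) n
  lead : ∃ k : P → ℕ, (1 + X : ℤ[X]) ^ (lv P m).card ∣ ZF m (h2 (2 * m) N θ) (fam m N z) E -
    ∑ y ∈ fam m N z, (X : ℤ[X]) ^ (k y) * (1 + X) ^ ((lv P m).card - 1) ∧
    ∀ y ∈ fam m N z, (-1 : ℤ) ^ (k y) = σ

/-- terms of the same sign -/
lemma sum_empty {α : Type*} {B : ℕ} (hB : 1 ≤ B) (S : Finset α) (k : α → ℕ) {σ : ℤ} (hσ : σ ≠ 0)
    (hs : ∀ y ∈ S, (-1 : ℤ) ^ (k y) = σ)
    (hd : (1 + X : ℤ[X]) ^ B ∣ ∑ y ∈ S, (X : ℤ[X]) ^ (k y) * (1 + X) ^ (B - 1)) : S = ∅ := by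
  classical
  have h1 := sum_sign_eq_zero S k (fun _ => B - 1) B (B - 1) (by omega) (fun _ _ => le_rfl) hd
  rw [Finset.filter_true_of_mem (fun _ _ => rfl), Finset.sum_congr rfl hs, Finset.sum_const,
    nsmul_eq_mul] at h1
  rcases mul_eq_zero.mp h1 with h2 | h2
  · have h3 : S.card = 0 := by exact_mod_cast h2
    exact Finset.card_eq_zero.mp h3
  · exact absurd h2 hσ

/-- the sum over the families -/
lemma fam_sum {p : ℤ[X]} {Bs : Finset P} (hB : ∀ z ∈ Bs, z ∈ bdR (r2 (2 * m) N))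
    (hcl : ∀ z ∈ Bs, ∀ y ∈ fam m N z, y ∈ Bs) (Z : Finset P → ℤ[X]) (C : P → Prop)
    [DecidablePred C] (hC : ∀ z ∈ Bs, ∀ y ∈ fam m N z, C z → C y) {c : ℕ} {σ : ℤ}
    (h0 : ∀ z ∈ Bs, ¬ C z → p ∣ Z (fam m N z))
    (h1 : ∀ z ∈ Bs, C z → ∃ k : P → ℕ, p ∣ Z (fam m N z) -
      ∑ y ∈ fam m N z, (X : ℤ[X]) ^ (k y) * (1 + X) ^ c ∧ ∀ y ∈ fam m N z, (-1 : ℤ) ^ (k y) = σ) :
    ∃ kk : P → ℕ, p ∣ ∑ A ∈ Bs.image (fam m N), Z A -
      ∑ y ∈ Bs.filter C, (X : ℤ[X]) ^ (kk y) * (1 + X) ^ c ∧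
      ∀ y ∈ Bs.filter C, (-1 : ℤ) ^ (kk y) = σ := by
  classical
  let Q : Finset P → (P → ℕ) → Prop := fun A k => p ∣ Z A -
      ∑ y ∈ A, (X : ℤ[X]) ^ (k y) * (1 + X) ^ c ∧ ∀ y ∈ A, (-1 : ℤ) ^ (k y) = σ
  let kf : Finset P → P → ℕ := fun A => if h : ∃ k, Q A k then h.choose else 0
  have hkf : ∀ A, (∃ k, Q A k) → Q A (kf A) := by
    intro A h
    show Q A (if h : ∃ k, Q A k then h.choose else 0)
    rw [dif_pos h]
    exact h.choose_spec
  refine ⟨fun y => kf (fam m N y) y, ?_, ?_⟩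
  · have h2 : ∑ y ∈ Bs.filter C, (X : ℤ[X]) ^ (kf (fam m N y) y) * (1 + X) ^ c =
        ∑ A ∈ Bs.image (fam m N), ∑ y ∈ (Bs.filter C).filter (fun y => fam m N y = A),
          (X : ℤ[X]) ^ (kf (fam m N y) y) * (1 + X) ^ c := by
      refine (Finset.sum_fiberwise_of_maps_to ?_ _).symm
      intro y hy
      exact mem_image_of_mem _ (mem_filter.mp hy).1
    rw [h2, ← Finset.sum_sub_distrib]
    refine Finset.dvd_sum fun A hA => ?_
    obtain ⟨z, hz, rfl⟩ := mem_image.mp hA
    by_cases hCz : C z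
    · have h3 : (Bs.filter C).filter (fun y => fam m N y = fam m N z) = fam m N z := by
        ext y
        rw [mem_filter, mem_filter]
        constructor
        · rintro ⟨⟨h4, h5⟩, h6⟩
          rw [← h6]
          exact self_mem_fam (hB y h4)
        · intro h4
          exact ⟨⟨hcl z hz y h4, hC z hz y h4 hCz⟩, fam_eq h4⟩
      rw [h3]
      have h4 := (hkf (fam m N z) (h1 z hz hCz)).1
      have h5 : ∑ y ∈ fam m N z, (X : ℤ[X]) ^ (kf (fam m N y) y) * (1 + X) ^ c =
          ∑ y ∈ fam m N z, (X : ℤ[X]) ^ (kf (fam m N z) y) * (1 + X) ^ c :=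
        Finset.sum_congr rfl fun y hy => by rw [fam_eq hy]
      rw [h5]
      exact h4
    · have h3 : (Bs.filter C).filter (fun y => fam m N y = fam m N z) = ∅ := by
        rw [Finset.filter_eq_empty_iff]
        intro y hy h4
        rw [mem_filter] at hy
        have h5 : z ∈ fam m N y := by
          rw [h4]
          exact self_mem_fam (hB z hz)
        exact hCz (hC y hy.1 z h5 hy.2)
      rw [h3, Finset.sum_empty, sub_zero]
      exact h0 z hz hCz
  · intro y hy
    rw [mem_filter] at hy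
    exact (hkf (fam m N y) (h1 y hy.1 hy.2)).2 y (self_mem_fam (hB y hy.1))

/-- the step with families of blockers -/
theorem WM.stepF (W : WM r m N b θ) {n : ℕ} (hn : n < Kb m - 1) (Bk C : P → Prop)
    (hBk : ∀ z y, Bk z → (∀ w, z < w ↔ y < w) → Bk y)
    (hC : ∀ z y, C z → (∀ w, z < w ↔ y < w) → C y)
    (hcost : ∀ z ∈ bdR (r2 (2 * m) N), ¬ Bk z → n ≤ cst m (h2 (2 * m) N θ) z)
    (hU : ∀ z ∈ bdR (r2 (2 * m) N), Bk z → ∀ z' ∈ bdR (r2 (2 * m) N), z' ∉ fam m N z →
      n < Uu m (h2 (2 * m) N θ) z z') {σ : ℤ} (hσ : σ ≠ 0)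
    (h0 : ∀ z ∈ bdR (r2 (2 * m) N), Bk z → ¬ C z →
      (1 + X : ℤ[X]) ^ (lv P m).card ∣ ZF m (h2 (2 * m) N θ) (fam m N z) n)
    (h1 : ∀ z ∈ bdR (r2 (2 * m) N), Bk z → C z → ∃ k : P → ℕ,
      (1 + X : ℤ[X]) ^ (lv P m).card ∣ ZF m (h2 (2 * m) N θ) (fam m N z) n -
      ∑ y ∈ fam m N z, (X : ℤ[X]) ^ (k y) * (1 + X) ^ ((lv P m).card - 1) ∧
      ∀ y ∈ fam m N z, (-1 : ℤ) ^ (k y) = σ)
    (hT : ∀ z ∈ bdR (r2 (2 * m) N), ¬ Bk z → cst m (h2 (2 * m) N θ) z = n →
      nab m z = nab (m + h2 (2 * m) N θ z) z + 1 ∧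
      (-1 : ℤ) ^ (below P m + nst m (h2 (2 * m) N θ) z) = σ) :
    (∀ z ∈ bdR (r2 (2 * m) N), Bk z → ¬ C z) ∧
      ∀ z ∈ bdR (r2 (2 * m) N), ¬ Bk z → cst m (h2 (2 * m) N θ) z ≠ n := by
  classical
  set Bs := (bdR (r2 (2 * m) N)).filter Bk with hBs
  have hBs1 : ∀ z ∈ Bs, z ∈ bdR (r2 (2 * m) N) ∧ Bk z := fun z hz => mem_filter.mp hz
  have hcl : ∀ z ∈ Bs, ∀ y ∈ fam m N z, y ∈ Bs := by
    intro z hz y hy
    have h2 := mem_fam.mp hy
    exact mem_filter.mpr ⟨h2.1, hBk z y (hBs1 z hz).2 h2.2⟩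
  have F := W.farT
  have hP := F.plusF hn (Bs.image (fam m N)) (by
    intro A hA z hz
    obtain ⟨y, hy, rfl⟩ := mem_image.mp hA
    exact (mem_fam.mp hz).1) (by
    intro z hz hzA
    refine hcost z hz fun hb => hzA (fam m N z) ?_ (self_mem_fam hz)
    exact mem_image_of_mem _ (mem_filter.mpr ⟨hz, hb⟩)) (by
    intro A hA z hz z' hz' hne
    obtain ⟨y, hy, rfl⟩ := mem_image.mp hA
    have h2 := fam_eq hz
    rw [← h2] at hne
    have h3 := hcl y hy z hz
    exact hU z (hBs1 z h3).1 (hBs1 z h3).2 z' hz' hne) (by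
    intro A hA A' hA' hne z hz hz'
    obtain ⟨y, hy, rfl⟩ := mem_image.mp hA
    obtain ⟨y', hy', rfl⟩ := mem_image.mp hA'
    exact hne ((fam_eq hz).symm.trans (fam_eq hz')))
  have hZ := dvd_Z W.gt.H.gauss m n
  obtain ⟨kk, hk1, hk2⟩ := fam_sum (p := (1 + X : ℤ[X]) ^ (lv P m).card) (Bs := Bs)
    (fun z hz => (hBs1 z hz).1) hcl (fun A => ZF m (h2 (2 * m) N θ) A n) C
    (fun z hz y hy h => hC z y h (mem_fam.mp hy).2)
    (fun z hz h => h0 z (hBs1 z hz).1 (hBs1 z hz).2 h)
    (fun z hz h => h1 z (hBs1 z hz).1 (hBs1 z hz).2 h)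
  set T := (bdR (r2 (2 * m) N)).filter (fun z => (∀ A ∈ Bs.image (fam m N), z ∉ A) ∧
    cst m (h2 (2 * m) N θ) z = n) with hTdef
  have hTm : ∀ z, z ∈ T ↔ z ∈ bdR (r2 (2 * m) N) ∧ ¬ Bk z ∧ cst m (h2 (2 * m) N θ) z = n := by
    intro z
    rw [hTdef, mem_filter]
    constructor
    · rintro ⟨h2, h3, h4⟩
      refine ⟨h2, fun hb => h3 (fam m N z) ?_ (self_mem_fam h2), h4⟩
      exact mem_image_of_mem _ (mem_filter.mpr ⟨h2, hb⟩)
    · rintro ⟨h2, h3, h4⟩
      refine ⟨h2, fun A hA hz => ?_, h4⟩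
      obtain ⟨y, hy, rfl⟩ := mem_image.mp hA
      exact h3 (hBs1 z (hcl y hy z hz)).2
  have hB1 : ∀ z : P, m ≤ lev z → 1 ≤ (lv P m).card := by
    intro z hz
    have h2 := one_le_nab (z := z) (l := m) hz
    unfold nab at h2
    exact h2.trans (Finset.card_filter_le _ _)
  have hlevz : ∀ z ∈ bdR (r2 (2 * m) N), m ≤ lev z := by
    intro z hz
    have := W.lt_lev (mem_sdiff.mp (bd_mem hz)).1
    omega
  -- the combined sum
  set kx : P → ℕ := fun y => if Bk y then kk y else below P m + nst m (h2 (2 * m) N θ) y with hkx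
  have hdis : Disjoint (Bs.filter C) T := by
    rw [Finset.disjoint_left]
    intro y hy hy'
    exact ((hTm y).mp hy').2.1 (hBs1 y (mem_filter.mp hy).1).2
  have hsum : ∑ y ∈ Bs.filter C ∪ T, (X : ℤ[X]) ^ (kx y) * (1 + X) ^ ((lv P m).card - 1) =
      ∑ y ∈ Bs.filter C, (X : ℤ[X]) ^ (kk y) * (1 + X) ^ ((lv P m).card - 1) +
      ∑ z ∈ T, Lt m (h2 (2 * m) N θ) z := by
    rw [Finset.sum_union hdis]
    congr 1
    · refine Finset.sum_congr rfl fun y hy => ?_
      rw [hkx]
      simp only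
      rw [if_pos (hBs1 y (mem_filter.mp hy).1).2]
    · refine Finset.sum_congr rfl fun y hy => ?_
      obtain ⟨g2, h3, h4⟩ := (hTm y).mp hy
      have h5 := (hT y g2 h3 h4).1
      rw [hkx]
      simp only
      rw [if_neg h3]
      unfold Lt
      have h6 := nab_le y m
      rw [show (lv P m).card + nab (m + h2 (2 * m) N θ y) y - nab m y = (lv P m).card - 1 by omega]
  have hmain : (1 + X : ℤ[X]) ^ (lv P m).card ∣
      ∑ y ∈ Bs.filter C ∪ T, (X : ℤ[X]) ^ (kx y) * (1 + X) ^ ((lv P m).card - 1) := by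
    rw [hsum]
    have g2 := dvd_sub hZ hP
    rw [sub_sub_cancel] at g2
    have h3 := dvd_sub g2 hk1
    have h4 : ∑ A ∈ Bs.image (fam m N), ZF m (h2 (2 * m) N θ) A n +
        ∑ z ∈ T, Lt m (h2 (2 * m) N θ) z - (∑ A ∈ Bs.image (fam m N), ZF m (h2 (2 * m) N θ) A n -
        ∑ y ∈ Bs.filter C, (X : ℤ[X]) ^ (kk y) * (1 + X) ^ ((lv P m).card - 1)) =
        ∑ y ∈ Bs.filter C, (X : ℤ[X]) ^ (kk y) * (1 + X) ^ ((lv P m).card - 1) +
        ∑ z ∈ T, Lt m (h2 (2 * m) N θ) z := by ring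
    rw [h4] at h3
    exact h3
  have hsig : ∀ y ∈ Bs.filter C ∪ T, (-1 : ℤ) ^ (kx y) = σ := by
    intro y hy
    rw [mem_union] at hy
    rcases hy with hy | hy
    · rw [hkx]
      simp only
      rw [if_pos (hBs1 y (mem_filter.mp hy).1).2]
      exact hk2 y hy
    · obtain ⟨g2, h3, h4⟩ := (hTm y).mp hy
      rw [hkx]
      simp only
      rw [if_neg h3]
      exact (hT y g2 h3 h4).2
  have hempty : ∀ y ∈ Bs.filter C ∪ T, False := by
    intro y hy
    have hyb : y ∈ bdR (r2 (2 * m) N) := by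
      rw [mem_union] at hy
      rcases hy with hy | hy
      · exact (hBs1 y (mem_filter.mp hy).1).1
      · exact ((hTm y).mp hy).1
    have h2 := sum_empty (hB1 y (hlevz y hyb)) _ kx hσ hsig hmain
    rw [h2] at hy
    exact absurd hy (Finset.notMem_empty y)
  constructor
  · intro z hz hb hc
    exact hempty z (mem_union_left _ (mem_filter.mpr ⟨mem_filter.mpr ⟨hz, hb⟩, hc⟩))
  · intro z hz hb hc
    exact hempty z (mem_union_right _ ((hTm z).mpr ⟨hz, hb, hc⟩))

/-- the common sign of the (C) joins and the joins with excess -/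
noncomputable def sg1 (P : Type u) [Fintype P] [PartialOrder P] [DecidableEq P] (m : ℕ) : ℤ :=
  (-1) ^ (below P m + sgF m + hh m)

lemma sgT_hh (m : ℕ) : (-1 : ℤ) ^ (below P m) * sgT m (hh m ^ 2) = sg1 P m := by
  unfold sgT sg1
  rw [if_neg, mul_one, ← pow_add, Nat.add_assoc]
  rintro ⟨h1, h2⟩
  have : hh m = 2 := by
    unfold hh
    omega
  rw [this] at h2
  norm_num at h2

theorem WM.ladder (W : WM r m N b θ) (S7 : S7M m N b θ) {σ : ℤ}
    (hcc : ∀ z ∈ bdR (r2 (2 * m) N), CcM m N b θ z → Fz m N θ z (E0 m + hh m ^ 2) (sg1 P m))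
    (hst : ∀ z ∈ bdR (r2 (2 * m) N), StM m N b θ z → Fz m N θ z (E0 m + m + 1) σ) :
    ∀ d, d ≤ 10 → (∀ z ∈ bdR (r2 (2 * m) N), ∀ s, ¬ Num m N θ z (hh m) (E0 m + d) 1 s) ∧
      (hh m ^ 2 ≤ d → ∀ z ∈ bdR (r2 (2 * m) N), ¬ CcM m N b θ z) := by
  have I := numI W.ten
  have i4 := I.i4
  have i5 := I.i5
  have hm := W.ten
  have hh1 := hh_pos m
  have hsq : 1 ≤ hh m ^ 2 := Nat.one_le_pow _ _ hh1
  intro d
  induction d using Nat.strong_induction_on with
  | _ d ih =>
  intro hd
  rcases Nat.eq_zero_or_pos d with h0 | h0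
  · subst h0
    exact ⟨fun z hz s hn => W.no_T0 S7 hz hn, fun h => by omega⟩
  have hdead : hh m ^ 2 < d → ∀ z ∈ bdR (r2 (2 * m) N), ¬ CcM m N b θ z := fun h =>
    (ih (d - 1) (by omega) (by omega)).2 (by omega)
  have hrow : ∀ z ∈ bdR (r2 (2 * m) N), ¬ (CcM m N b θ z ∨ StM m N b θ z) →
      (E0 m + d < cst m (h2 (2 * m) N θ) z) ∨ ∃ d' s, d ≤ d' ∧ Num m N θ z (hh m) (E0 m + d') 1 s ∧
        (-1 : ℤ) ^ s = sgT m d' := by
    intro z hz hb
    rcases W.rows2 S7 hz with h | ⟨y, y', hl', hy, hy', ht, hzy, hzy', hn'⟩ |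
      ⟨y, y', Nc', co', hl', hy, hcy, hy', hcy', hzy, hzy', s, hn'⟩ |
      ⟨y, y', hl', hy, hy', h1, ht, hzy, hzy', d', s, hd0, hd', hn', hs⟩ |
      ⟨y, y', hl', hy, hy', h1, ht, hzy, hzy', hq, s, hn'⟩
    · left
      omega
    · left
      have := hn'.cst
      omega
    · exact absurd (Or.inl ⟨hl', y, y', Nc', co', hy, hcy, hy', hcy', hzy, hzy'⟩) hb
    · right
      refine ⟨d', s, ?_, hn', hs⟩
      by_contra hlt
      exact (ih d' (by omega) (by omega)).1 z hz s hn'
    · exact absurd (Or.inr ⟨hl', y, y', hy, hy', h1, ht, hzy, hzy', hq⟩) hb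
  have key := W.stepF (n := E0 m + d) (by omega) (fun z => CcM m N b θ z ∨ StM m N b θ z)
    (fun z => CcM m N b θ z ∧ d = hh m ^ 2)
    (fun z y h hy => h.imp (fun h => h.same hy) (fun h => h.same hy))
    (fun z y h hy => ⟨h.1.same hy, h.2⟩) (fun z hz hb => ?_) (fun z hz hb z' hz' hn => ?_)
    (σ := (-1) ^ (below P m) * sgT m d)
    (mul_ne_zero (pow_ne_zero _ (by norm_num)) (sgT_ne m d)) (fun z hz hb hc => ?_)
    (fun z hz hb hc => ?_) (fun z hz hb hc => ?_)
  · obtain ⟨k1, k2⟩ := key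
    constructor
    · intro z hz s hn
      refine k2 z hz ?_ hn.cst
      rintro (⟨hl, x, x', Nc, co, e1, e2, e3, e4, e5, e6⟩ | ⟨hl, x, x', e1, e2, e3, e4, e5, e6, e7⟩)
      · obtain ⟨s', hn'⟩ := W.num_cc (bd_mem hz) hl e1 e2 e3 e4 e5 e6
        have f1 := hn.drop
        have f2 := hn'.drop
        omega
      · obtain ⟨-, s', hn'⟩ := W.num_star (bd_mem hz) hl e1 e2 e4 e5 e6 e7
        have f1 := hn.drop
        have f2 := hn'.drop
        omega
    · intro hle z hz hc
      rcases eq_or_lt_of_le hle with h | h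
      · exact k1 z hz (Or.inl hc) ⟨hc, h.symm⟩
      · exact hdead h z hz hc
  · rcases hrow z hz hb with h | ⟨d', s, h, hn, -⟩
    · omega
    · rw [hn.cst]
      omega
  · rcases hb with hb | hb
    · have := W.U_cc S7 hz hz' hb hn
      omega
    · have := W.U_st S7 hz hz' hb hn
      omega
  · by_cases hcz : CcM m N b θ z
    · have hne : d ≠ hh m ^ 2 := fun h => hc ⟨hcz, h⟩
      rcases Nat.lt_or_ge d (hh m ^ 2) with h | h
      · exact (hcc z hz hcz).clean _ (by omega)
      · exact (hdead (by omega) z hz hcz).elim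
    · exact (hst z hz (hb.resolve_left hcz)).clean _ (by omega)
  · have h1 := (hcc z hz hc.1).lead
    rw [← hc.2] at h1
    have h2 : (-1 : ℤ) ^ (below P m) * sgT m d = sg1 P m := by
      rw [hc.2]
      exact sgT_hh m
    rw [h2]
    exact h1
  · rcases hrow z hz hb with h | ⟨d', s, h, hn, hs⟩
    · omega
    · have h3 := hn.cst
      have h4 : d' = d := by omega
      subst h4
      refine ⟨?_, ?_⟩
      · rw [hn.lab]
        exact hn.drop
      · rw [hn.nst, pow_add, hs]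

/-- after the ladder: large cost or two fold ends -/
theorem WM.rows3 (W : WM r m N b θ) (S7 : S7M m N b θ) {σ : ℤ} (hσ : σ ≠ 0)
    (hcc : ∀ z ∈ bdR (r2 (2 * m) N), CcM m N b θ z → Fz m N θ z (E0 m + hh m ^ 2) (sg1 P m))
    (hst : ∀ z ∈ bdR (r2 (2 * m) N), StM m N b θ z → Fz m N θ z (E0 m + m + 1) σ) {z : P}
    (hz : z ∈ bdR (r2 (2 * m) N)) : Kb m - 1 ≤ cst m (h2 (2 * m) N θ) z ∨
      (lev z = 2 * m + 1 ∧ ∃ x x', FoldM m N b θ x ∧ FoldM m N b θ x' ∧ topOf x ≠ topOf x' ∧
        z ⋖ x ∧ z ⋖ x') := by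
  have I := numI W.ten
  have i4 := I.i4
  have i5 := I.i5
  have hm := W.ten
  have hh1 := hh_pos m
  have hh2 := hh_le m
  have L := W.ladder S7 hcc hst
  have hsq : hh m ^ 2 ≤ 10 := by
    calc hh m ^ 2 ≤ 2 ^ 2 := Nat.pow_le_pow_left hh2 2
      _ ≤ 10 := by norm_num
  have hnc := (L 10 le_rfl).2 hsq
  have hrow : ∀ z ∈ bdR (r2 (2 * m) N), ¬ StM m N b θ z →
      E0 m + m + 1 < cst m (h2 (2 * m) N θ) z := by
    intro z hz hb
    rcases W.rows2 S7 hz with h | ⟨y, y', hl', hy, hy', ht, hzy, hzy', hn'⟩ |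
      ⟨y, y', Nc', co', hl', hy, hcy, hy', hcy', hzy, hzy', s, hn'⟩ |
      ⟨y, y', hl', hy, hy', h1, ht, hzy, hzy', d', s, hd0, hd', hn', hs⟩ |
      ⟨y, y', hl', hy, hy', h1, ht, hzy, hzy', hq, s, hn'⟩
    · omega
    · have := hn'.cst
      omega
    · exact absurd ⟨hl', y, y', Nc', co', hy, hcy, hy', hcy', hzy, hzy'⟩ (hnc z hz)
    · exact ((L d' hd').1 z hz s hn').elim
    · exact absurd ⟨hl', y, y', hy, hy', h1, ht, hzy, hzy', hq⟩ hb
  have key := W.stepF (n := E0 m + m + 1) (by omega) (fun z => StM m N b θ z)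
    (fun z => StM m N b θ z) (fun z y h hy => h.same hy) (fun z y h hy => h.same hy)
    (fun z hz hb => (hrow z hz hb).le) (fun z hz hb z' hz' hn => by
      have := W.U_st S7 hz hz' hb hn
      omega) hσ (fun z hz hb hc => absurd hb hc) (fun z hz hb _ => (hst z hz hb).lead)
    (fun z hz hb hc => by
      have := hrow z hz hb
      omega)
  rcases W.rows2 S7 hz with h | ⟨y, y', hl', hy, hy', ht, hzy, hzy', hn'⟩ |
    ⟨y, y', Nc', co', hl', hy, hcy, hy', hcy', hzy, hzy', s, hn'⟩ |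
    ⟨y, y', hl', hy, hy', h1, ht, hzy, hzy', d', s, hd0, hd', hn', hs⟩ |
    ⟨y, y', hl', hy, hy', h1, ht, hzy, hzy', hq, s, hn'⟩
  · exact Or.inl h
  · exact Or.inr ⟨hl', y, y', hy, hy', ht, hzy, hzy'⟩
  · exact absurd ⟨hl', y, y', Nc', co', hy, hcy, hy', hcy', hzy, hzy'⟩ (hnc z hz)
  · exact ((L d' hd').1 z hz s hn').elim
  · have h2 : StM m N b θ z := ⟨hl', y, y', hy, hy', h1, ht, hzy, hzy', hq⟩
    exact absurd h2 (key.1 z hz h2)

end Pool.Agent.GaussPoset

end

/-! From `Pool.Agent.W_448s8f_h15.StA` -/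

section

/-!
The bounded sum of a component with an anchor `v`: decomposition by the set of the labels at
least `k` (MP_448cb3_co, S8, small `m`).
-/

namespace Pool.Agent.GaussPoset.Fi

set_option linter.unusedSectionVars false

open Polynomial Finset

universe u

section TPart

variable {Q : Type u} [Fintype Q] [PartialOrder Q] [DecidableEq Q]

/-- the low part with bounds -/
def StLwB (i k : ℕ) (β : Q → ℕ) (L : Finset Q) (e : {x : Q // x ∉ L} → ℕ)
    (F : Finset {x : Q // x ∉ L}) : Prop :=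
  Lw i k L e F ∧ ∀ x : {x : Q // x ∉ L}, (β x : ℤ) ≤ (e x : ℤ) - ((i - lev (x : Q) : ℕ) : ℤ)

lemma StA_split {i k : ℕ} {β : Q → ℕ} (hβ : ∀ x, β x ≤ k) {L : Finset Q}
    (hL : ∀ x y, x ≤ y → x ∈ L → y ∈ L) (e : Q → ℕ) (F : Finset Q) :
    (Cst i ∅ 0 β e F ∧ upL i k e F = L) ↔
      Cst i ∅ 0 (fun _ => k) (fun x : {x : Q // x ∈ L} => e x) (F.subtype (fun x => x ∈ L)) ∧
      StLwB i k β L (fun x => e x) (F.subtype (fun x => x ∉ L)) := by
  have key := upL_split (i := i) (k := k) hL e F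
  rw [cst_empty_iff]
  constructor
  · rintro ⟨⟨hV, hb⟩, hu⟩
    obtain ⟨h1, h2⟩ := key.mp ⟨hV, hu⟩
    refine ⟨h1, h2, fun x => ?_⟩
    have hxF : (x : Q) ∉ F := by
      intro h
      have h9 : (x : Q) ∈ upL i k e F := mem_upL.mpr (Or.inl h)
      rw [hu] at h9
      exact x.2 h9
    have := hb x hxF
    unfold rho at this
    exact this
  · rintro ⟨h1, h2, h3⟩
    obtain ⟨hV, hu⟩ := key.mpr ⟨h1, h2⟩
    refine ⟨⟨hV, fun x hx => ?_⟩, hu⟩
    by_cases hxL : x ∈ L
    · rw [← hu, mem_upL] at hxL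
      have h4 := hxL.resolve_left hx
      have h5 := hβ x
      have h6 : (β x : ℤ) ≤ k := by exact_mod_cast h5
      exact h6.trans h4
    · have := h3 ⟨x, hxL⟩
      unfold rho
      exact this

/-- decomposition of a bounded sum -/
theorem StA_ZB_upL {i k : ℕ} {β : Q → ℕ} (hβ : ∀ x, β x ≤ k) (S0 : Finset Q → Prop)
    (hS0 : ∀ e F, Cst i ∅ 0 β e F → S0 (upL i k e F)) (n : ℕ) :
    ZB i ∅ 0 β n = ∑ L ∈ upsF S0, ∑ ab ∈ antidiagonal n,
      ZB (P := {x // x ∈ L}) i ∅ 0 (fun _ => k) ab.1 * SC (StLwB i k β L) ab.2 := by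
  rw [ZB_eq_SC, SC_fiber _ (upL i k) (upsF S0) (fun e F h => mem_upsF.mpr
    ⟨fun a b hab ha => upL_up (cst_empty_iff.mp h).1 hab ha, hS0 e F h⟩) n]
  refine Finset.sum_congr rfl fun L hL => ?_
  have h2 := SC_prod (fun x => x ∈ L) (fun (e : Q → ℕ) F => Cst i ∅ 0 β e F ∧ upL i k e F = L)
    (Cst i ∅ 0 (fun _ => k)) (StLwB i k β L)
    (fun e F => StA_split hβ (mem_upsF.mp hL).1 e F) n
  rw [h2]
  refine Finset.sum_congr rfl fun ab _ => ?_
  have h4 : ZB (P := {x // x ∈ L}) i ∅ 0 (fun _ => k) ab.1 =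
      @SC {x // x ∈ L} (Subtype.fintype fun x => x ∈ L) _ (Cst i ∅ 0 fun _ => k) ab.1 :=
    SC_inst _ _ _ _
  rw [h4]

lemma StA_ct_filter (i k : ℕ) {v : Q} {U : Finset Q} (hU : ∀ x, x ∈ U ↔ v ≤ x) :
    ct i k v = ∑ x ∈ U, min k (lev x - i) := by
  classical
  have h1 : U = univ.filter (fun x => v ≤ x) := by
    ext x
    rw [hU, mem_filter]
    simp
  rw [ct_eq_sum, h1, Finset.sum_filter]

lemma StA_ct_le_cw {i k : ℕ} {v : Q} {L : Finset Q} (hL : ∀ x y, x ≤ y → x ∈ L → y ∈ L)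
    (hv : v ∈ L) : ct i k v ≤ cw {x // x ∈ L} i k := by
  classical
  rw [cw_subtype hL, StA_ct_filter i k (U := univ.filter (fun x => v ≤ x)) (fun x => by simp)]
  refine Finset.sum_le_sum_of_subset fun x hx => ?_
  exact hL v x (mem_filter.mp hx).2 hv

lemma StA_anchor {i k : ℕ} {β : Q → ℕ} {v : Q} (hv : β v = k) {e : Q → ℕ} {F : Finset Q}
    (h : Cst i ∅ 0 β e F) : v ∈ upL i k e F := by
  rw [cst_empty_iff] at h
  rw [mem_upL]
  by_cases hvF : v ∈ F
  · exact Or.inl hvF
  · right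
    have := h.2 v hvF
    rwa [hv] at this

/-- the order of the bounded sum below the first pole -/
theorem StA_dvd {i k p : ℕ} {v : Q} {β : Q → ℕ} (hβ : ∀ x, β x ≤ k) (hv : β v = k)
    (hcl : ∀ L : Finset Q, (∀ x y, x ≤ y → x ∈ L → y ∈ L) → v ∈ L → ∀ n < p,
      (1 + X : ℤ[X]) ^ 2 ∣ Z {x // x ∈ L} (i + k) n) {n : ℕ} (hn : n < ct i k v + p) :
    (1 + X : ℤ[X]) ^ 2 ∣ ZB i ∅ 0 β n := by
  classical
  rw [StA_ZB_upL hβ (fun L => v ∈ L) (fun e F h => StA_anchor hv h)]
  refine Finset.dvd_sum fun L hL => Finset.dvd_sum fun ab hab => ?_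
  rw [mem_upsF] at hL
  rw [HasAntidiagonal.mem_antidiagonal] at hab
  refine dvd_mul_of_dvd_left ?_ _
  have h1 := StA_ct_le_cw (i := i) (k := k) hL.1 hL.2
  rcases Nat.lt_or_ge ab.1 (cw {x // x ∈ L} i k) with h2 | h2
  · rw [ZB_const_zero h2]
    exact dvd_zero _
  · obtain ⟨c, hc⟩ := Nat.exists_eq_add_of_le' h2
    rw [hc, ZB_const]
    exact hcl L hL.1 hL.2 c (by omega)

/-- the first pole -/
theorem StA_lead {i k p s : ℕ} {v : Q} (hk : 1 ≤ k) (hiv : i < lev v)
    (hout : ∀ x, ¬ v ≤ x → i + k ≤ lev x)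
    (hcl : ∀ L : Finset Q, (∀ x y, x ≤ y → x ∈ L → y ∈ L) → v ∈ L → ∀ n < p,
      (1 + X : ℤ[X]) ^ 2 ∣ Z {x // x ∈ L} (i + k) n)
    (hld : ∀ L : Finset Q, (∀ x, x ∈ L ↔ v ≤ x) →
      (1 + X : ℤ[X]) ^ 2 ∣ Z {x // x ∈ L} (i + k) p + X ^ s * (1 + X)) :
    (1 + X : ℤ[X]) ^ 2 ∣ ZB i ∅ 0 (sgz v k) (ct i k v + p) + X ^ s * (1 + X) := by
  classical
  set U : Finset Q := univ.filter (fun x => v ≤ x) with hU
  have hmU : ∀ x, x ∈ U ↔ v ≤ x := fun x => by rw [hU, mem_filter]; simp
  have hUup : ∀ x y, x ≤ y → x ∈ U → y ∈ U := fun x y hxy hx =>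
    (hmU y).mpr (((hmU x).mp hx).trans hxy)
  obtain ⟨-, -, h3⟩ := SC_core (i := i) (k := k) (B := p) (b := 2) (U := U) hk hUup
    (fun L => v ∈ L) (fun L hL hv x hx => hL v x ((hmU x).mp hx) hv)
    (fun x hx => hout x (fun h => hx ((hmU x).mpr h)))
    (fun hv n hn => hcl U hUup hv n hn)
    (fun L hL hUL hne n hn => by
      refine hcl L hL (hUL ((hmU v).mpr le_rfl)) n ?_
      have h4 : (L \ U).Nonempty := by
        rw [Finset.sdiff_nonempty]
        intro h5
        exact hne (Finset.Subset.antisymm h5 hUL)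
      have h5 := Finset.card_pos.mpr h4
      have h6 : 1 * 1 ≤ k * (L \ U).card := Nat.mul_le_mul hk h5
      omega)
  have h4 := h3 ((hmU v).mpr le_rfl)
  have h5 : ZB i ∅ 0 (sgz v k) (ct i k v + p) =
      SC (fun (e : Q → ℕ) F => Vd i e F ∧ v ∈ upL i k e F)
        (p + ∑ x ∈ U, min k (lev x - i)) := by
    rw [ZB_eq_SC, StA_ct_filter i k hmU, Nat.add_comm]
    refine SC_congr (fun e F => ?_) _
    rw [cst_single_iff hiv, mem_upL, rho_of_lt hiv]
    constructor
    · rintro ⟨h6, h7⟩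
      refine ⟨h6, h7.imp id fun h => ?_⟩
      exact_mod_cast h
    · rintro ⟨h6, h7⟩
      refine ⟨h6, h7.imp id fun h => ?_⟩
      exact_mod_cast h
  rw [h5]
  have h6 := dvd_add h4 (hld U hmU)
  rwa [show ∀ a b c : ℤ[X], a - b + (b + c) = a + c from fun a b c => by ring] at h6

end TPart

section Map

variable {P : Type u} [Fintype P] [PartialOrder P] [DecidableEq P]
variable {Q : Type u} [Fintype Q] [PartialOrder Q] [DecidableEq Q]

/-- the sum of a set of `Q` is the sum of its image -/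
lemma StA_Z_image {φ : Q → P} (hφ : ∀ x y, φ x ≤ φ y ↔ x ≤ y) {L : Finset Q} {L' : Finset P}
    (hL' : ∀ y, y ∈ L' ↔ ∃ x ∈ L, φ x = y) (i n : ℕ) :
    Z {x // x ∈ L} i n = Z {x // x ∈ L'} i n := by
  classical
  have hinj : Function.Injective φ := fun x y h =>
    le_antisymm ((hφ x y).mp h.le) ((hφ y x).mp h.ge)
  have e : {x // x ∈ L} ≃o {x // x ∈ L'} :=
    { Equiv.ofBijective (fun x : {x // x ∈ L} => (⟨φ x, (hL' _).mpr ⟨x, x.2, rfl⟩⟩ :
        {x // x ∈ L'})) ⟨fun x y h => Subtype.ext (hinj (congrArg Subtype.val h)), fun y => by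
          obtain ⟨x, hx, h⟩ := (hL' y).mp y.2
          exact ⟨⟨x, hx⟩, Subtype.ext h⟩⟩ with
      map_rel_iff' := fun {x y} => hφ x y }
  exact Z_iso e i n

end Map

end Pool.Agent.GaussPoset.Fi

end
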