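import Mathlib
import Pool.Agent.W_448zz_h61.Ns
import Pool.Agent.W_448zz_h61.M044
import Pool.Agent.W_448zz_h61.M055
import Pool.Agent.W_448zz_h61.M119

/-! From `Pool.Agent.W_448s8_h76.SaN` -/

section

/-!
Tools for the star joins: bounded sums from component data with twins, leading term of a
dangerous sum (MP_448cb3_co, S8).
-/

namespace Pool.Agent.GaussPoset

set_option linter.unusedSectionVars false

open Polynomial Finset

universe u

variable {P : Type u} [Fintype P] [PartialOrder P] [DecidableEq P]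
variable {ι : Type*}

/-- bounded cleanness off `R` from component data with twins -/
theorem bounds_of_compT [Fintype ι] [DecidableEq ι] {i : ℕ} {R : Finset P}
    (hR : ∀ x y, x ≤ y → y ∈ R → x ∈ R) (hRlev : ∀ x ∈ R, i < lev x)
    (cp : P → ι) (hcp : ∀ x y, x ≤ y → x ∉ R → cp x = cp y) (b : ι → ℕ) (θ : P → ℕ)
    (B : P → Prop) (hBR : ∀ x ∈ R, ¬ B x) (Tw : Finset (P × P)) (n0 : ℕ)
    (H : ∀ k, CompDataT R cp k i (b k) θ B Tw)
    (htw : ∀ t ∈ Tw, TwinPair i θ n0 t.1 t.2) (hmin : ∀ t ∈ Tw, ∀ y < t.2, y ∈ R)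
    (htR : ∀ t ∈ Tw, t.1 ∉ R ∧ t.2 ∉ R)
    (β : P → ℕ) (hβ : ∀ x, x ∉ R → β x ≤ θ x) (n : ℕ) (hn : n < n0) :
    (1 + X : ℤ[X]) ^ (∑ k, b k) ∣ ZB i R 0 β n := by
  classical
  let θ' : P → ℕ := fun x => if x ∈ R then 0 else θ x
  have hθ' : ∀ x, x ∉ R → θ' x = θ x := fun x hx => if_neg hx
  have hθ0 : ∀ x, 1 ≤ θ' x → x ∉ R := by
    intro x hx hxR
    have : θ' x = 0 := if_pos hxR
    omega
  have hlow : ∀ D ∈ {D | Good i R B D}, ∀ x y, x ≤ y → y ∈ D → x ∈ D := fun D hD => hD.1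
  have hlev : ∀ D ∈ {D | Good i R B D}, ∀ x ∈ D, i < lev x := fun D hD => hD.2.2.1
  have hRR : R ∈ {D | Good i R B D} := ⟨hR, Subset.refl R, hRlev, hBR⟩
  refine dvd_ZB_bounds_twins i _ n0 {D | Good i R B D} θ' Tw hlow hlev ?_ ?_ ?_ ?_ ?_ ?_ R hRR β
    (fun x hx => by rw [hθ' x hx]; exact hβ x hx) n hn
  · intro x hx
    have hxR := hθ0 x hx
    rw [hθ' x hxR] at hx
    exact (H (cp x)).lev x hxR rfl hx
  · intro D hD hbr n _
    rw [ZB_off hD.1 hD.2.2.1]
    refine dvd_Z_of_dvd_W ?_ n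
    refine dvd_W_prod (fun x : {x : P // x ∉ D} => cp (x : P)) ?_ i b fun k => ?_
    · intro x y hxy
      exact hcp x y hxy fun h => x.2 (hD.2.1 h)
    · exact (H k).clean D hD hbr inferInstance
  · intro D hD x hx hθx
    have hxR := hθ0 x hθx
    rw [hθ' x hxR] at hθx
    have hlx := (H (cp x)).lev x hxR rfl hθx
    refine ⟨?_, hD.2.1.trans subset_union_left, ?_, ?_⟩
    · intro a c hac hc
      rw [mem_union, mem_dnf] at hc ⊢
      rcases hc with hc | hc
      · exact Or.inl (hD.1 a c hac hc)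
      · exact Or.inr (hac.trans hc)
    · intro a ha
      rw [mem_union, mem_dnf] at ha
      rcases ha with ha | ha
      · exact hD.2.2.1 a ha
      · rcases eq_or_lt_of_le ha with h | h
        · rw [h]; exact hlx
        · have := lev_strictAnti h; omega
    · intro a ha
      rw [mem_union, mem_dnf] at ha
      rcases ha with ha | ha
      · exact hD.2.2.2 a ha
      · by_cases haR : a ∈ R
        · exact hBR a haR
        · exact (H (cp x)).base x hxR rfl hθx a ha haR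
  · intro D hD x hx hθx y hyx hyD x' hyx' hx'x
    have hxR := hθ0 x hθx
    have hyR : y ∉ R := fun h => hyD (hD.2.1 h)
    have hx'R : x' ∉ R := fun h => hyR (hR y x' hyx'.1.le h)
    rw [hθ' x hxR] at hθx ⊢
    rw [hθ' x' hx'R]
    exact (H (cp x)).step x hxR rfl hθx y hyx hyR x' hx'R hyx' hx'x
  · intro t ht
    have h1 := htR t ht
    have h2 := htw t ht
    refine ⟨h2.ne, h2.up, ?_, ?_, ?_, ?_, ?_⟩
    · rw [hθ' _ h1.1]; exact h2.one_le
    · rw [hθ' _ h1.1, hθ' _ h1.2]; exact h2.eq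
    · rw [hθ' _ h1.1]; exact h2.le
    · rw [hθ' _ h1.1]; exact h2.costF
    · rw [hθ' _ h1.1]; exact h2.costT
  · intro t ht D hD y hy
    exact hD.2.1 (hmin t ht y hy)

section Assembly

variable {i : ℕ} {N : Tops P → Finset P} {b : Tops P → ℕ} {θ : Tops P → P → ℕ}
  {B : Tops P → P → Prop} {Y : Finset P} {τ : P → P}

/-- assembly, bounded sums -/
theorem bounds_of_tops (H : ∀ t, NatTop i t (b t) (N t) (θ t) (B t))
    (T : TwSys (unnat N) Y topOf τ) (n0 : ℕ)
    (htw : ∀ x ∈ Y, TwinPair i (thX Y τ (fun x => θ (topOf x) x)) n0 (τ x) x)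
    (β : P → ℕ) (hβ : ∀ x, x ∉ unnat N \ Y → β x ≤ thX Y τ (fun x => θ (topOf x) x) x) (n : ℕ)
    (hn : n < n0) : (1 + X : ℤ[X]) ^ (∑ t, b t) ∣ ZB i (unnat N \ Y) 0 β n := by
  have HN := natSys_of_tops H
  have hRlev : ∀ x ∈ unnat N, i < lev x := by
    intro x hx
    by_contra hcon
    exact low_natural H (not_lt.mp hcon) hx
  refine bounds_of_compT (T.lower HN.lower) (fun x hx => hRlev x (mem_sdiff.mp hx).1) topOf
    (T.cp' HN.cp) b _ (fun x => x ∉ unnat N ∧ B (topOf x) x)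
    (fun x hx h => h.1 (mem_sdiff.mp hx).1) (pairsX Y τ) n0 ?_ ?_ ?_ ?_ β hβ n hn
  · intro t
    refine CompData.toTwins ((H t).data N HN rfl _ _ ?_ ?_) T HN.lower hRlev (fun x hx h => h.1 hx)
    · intro x hx
      simp only [HN.topOf_eq hx]
    · intro x hx
      simp only [HN.topOf_eq hx, (HN.mem_iff.mp hx).1, not_false_eq_true, true_and]
  · intro t ht
    rw [mem_pairsX] at ht
    have h1 := htw t.2 ht.1
    rw [← ht.2] at h1
    exact h1
  · intro t ht y hy
    rw [mem_pairsX] at ht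
    rw [mem_sdiff]
    exact ⟨HN.lower y _ hy.le (T.sub ht.1), fun h => T.anti _ ht.1 y h hy⟩
  · intro t ht
    rw [mem_pairsX] at ht
    rw [mem_sdiff, mem_sdiff, ht.2]
    exact ⟨fun h => T.nat _ ht.1 h.1, fun h => h.2 ht.1⟩

end Assembly

/-- larger thresholds keep twins -/
lemma TwinPair.mono {i n0 : ℕ} {θ θ' : P → ℕ} {x x' : P} (H : TwinPair i θ n0 x x')
    (h1 : θ x ≤ θ' x) (h2 : θ' x' = θ' x) (h3 : θ' x ≤ lev x - i) : TwinPair i θ' n0 x x' where
  ne := H.ne
  up := H.up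
  one_le := H.one_le.trans h1
  eq := h2
  le := h3
  costF := by
    have := H.costF
    omega
  costT := by
    classical
    have h4 := H.costT
    have h5 : ∑ y, (if x < y then min (θ x + 1) (lev y - i) else 0) ≤
        ∑ y, (if x < y then min (θ' x + 1) (lev y - i) else 0) := by
      refine Finset.sum_le_sum fun y _ => ?_
      split_ifs
      · exact min_le_min (by omega) le_rfl
      · exact le_rfl
    omega

section Lead

variable {i k n : ℕ} {z : P}

/-- dangerous sum below the cost -/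
lemma ZD_zero (hz : i < lev z) (hn : n < ct i k z) : ZD i z k n = 0 := by
  classical
  rw [ZD_eq hz]
  refine Finset.sum_eq_zero fun F _ => ?_
  rw [Finset.filter_eq_empty_iff.mpr, Finset.sum_empty]
  rintro e he ⟨hV, hd⟩
  rw [mem_piAntidiag] at he
  have hs : ∑ x, e x = n := he.1
  have h1 := Finset.sum_le_sum fun x (_ : x ∈ (univ : Finset P)) =>
    ez_le (h := fun _ => k) hV hz hd x
  unfold ct cst at hn
  omega

/-- dangerous sum at the cost -/
lemma ZD_lead (hgr : GradedBelow P) (hk : 1 ≤ k) (hz : k ≤ lev z - i) :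
    ZD i z k (ct i k z) = Lt i (fun _ => k) z := by
  classical
  have hlz : i < lev z := by omega
  rw [← lead_eq (i := i) (h := fun _ => k) (z := z) hgr hk hz, ZD_eq hlz, ← sum_vd]
  refine Finset.sum_congr rfl fun F _ => ?_
  by_cases hV : Vd i (ez i (fun _ => k) z) F
  · rw [if_pos hV, Finset.sum_eq_single (ez i (fun _ => k) z)]
    · intro e he hne
      exfalso
      rw [mem_filter, mem_piAntidiag] at he
      obtain ⟨⟨hs, -⟩, hV', hd⟩ := he
      refine hne ?_
      have h4 := ez_le (h := fun _ => k) hV' hlz hd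
      funext x
      have h9 : ∑ x, ez i (fun _ => k) z x = ∑ x, e x := hs.symm
      exact ((Finset.sum_eq_sum_iff_of_le (fun x _ => h4 x)).mp h9 x (mem_univ x)).symm
    · intro h
      exfalso
      refine h (mem_filter.mpr ⟨mem_piAntidiag.mpr ⟨rfl, fun _ _ => mem_univ _⟩, hV, Or.inr ?_⟩)
      rw [ez_self (h := fun _ => k) hz]
  · rw [if_neg hV]
    refine Finset.sum_eq_zero fun e he => ?_
    exfalso
    rw [mem_filter, mem_piAntidiag] at he
    obtain ⟨⟨hs, -⟩, hV', hd⟩ := he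
    refine hV ?_
    have h4 := ez_le (h := fun _ => k) hV' hlz hd
    have h5 : ez i (fun _ => k) z = e := by
      funext x
      have h9 : ∑ x, ez i (fun _ => k) z x = ∑ x, e x := hs.symm
      exact (Finset.sum_eq_sum_iff_of_le (fun x _ => h4 x)).mp h9 x (mem_univ x)
    rw [h5]
    exact hV'

end Lead

/-- no energy below the bound at an element -/
lemma ZB_bound_zero {i n : ℕ} {β : P → ℕ} {z : P} (hz : i < lev z) (hn : n < ct i (β z) z) :
    ZB i ∅ 0 β n = 0 := by
  classical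
  unfold ZB
  refine Finset.sum_eq_zero fun F _ => ?_
  rw [Finset.filter_eq_empty_iff.mpr, Finset.sum_empty]
  intro e he hC
  rw [cst_empty_iff] at hC
  rw [mem_piAntidiag] at he
  have hs : ∑ x, e x = n := he.1
  have hd : Dgz (fun _ => β z) e F z := by
    by_cases hzF : z ∈ F
    · exact Or.inl hzF
    · right
      have h1 := hC.2 z hzF
      rw [rho_of_lt hz] at h1
      exact_mod_cast h1
  have h1 := Finset.sum_le_sum fun x (_ : x ∈ (univ : Finset P)) =>
    ez_le (h := fun _ => β z) hC.1 hz hd x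
  unfold ct cst at hn
  omega

/-- graded subposets -/
lemma gbel_sub {p : P → Prop} [DecidablePred p] (hp : ∀ x y, x ≤ y → p x → p y)
    (hgr : GradedBelow P) : GradedBelow {x : P // p x} := by
  intro z x hzx
  obtain ⟨w, h1, h2, h3⟩ := hgr (z : P) (x : P) hzx
  have hw : p w := hp _ _ h1 z.2
  refine ⟨⟨w, hw⟩, h1, h2, ?_⟩
  rw [lev_subtype hp, lev_subtype hp]
  exact h3

end Pool.Agent.GaussPoset

end

/-! From `Pool.Agent.W_448dd_h67.DdI` -/

section

/-!
There is no component with the word `OC CO CO OO CC CO` at level 10: the argument.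
-/

namespace Pool.Agent.GaussPoset.Dd

set_option linter.unusedSectionVars false

open Polynomial Finset Cl Wd

universe u

section General

variable {P : Type u} [Fintype P] [PartialOrder P] [DecidableEq P]
variable {ι : Type*} [Fintype ι] [DecidableEq ι]

lemma one_add_X_pow_ne (c : ℕ) : ((1 : ℤ[X]) + X) ^ c ≠ 0 := by
  intro h6
  have := congrArg (fun f : ℤ[X] => f.eval 1) h6
  simp only [eval_pow, eval_add, eval_one, eval_X, eval_zero] at this
  norm_num at this

lemma le_of_pow_dvd {a m c : ℕ} (h : (1 + X : ℤ[X]) ^ a ∣ X ^ m * (1 + X) ^ c) : a ≤ c := by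
  by_contra hcon
  obtain ⟨d, rfl⟩ : ∃ d, a = c + (d + 1) := ⟨a - c - 1, by omega⟩
  rw [pow_add, mul_comm (X ^ m)] at h
  obtain ⟨w, hw⟩ := (mul_dvd_mul_iff_left (one_add_X_pow_ne c)).mp h
  have h3 := congrArg (fun f : ℤ[X] => f.eval (-1)) hw
  simp only [eval_pow, eval_mul, eval_add, eval_one, eval_X] at h3
  rw [add_neg_cancel, zero_pow (by omega), zero_mul] at h3
  exact pow_ne_zero m (by norm_num) h3

/-- components of a disjoint union: the numbers of elements of level `i` -/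
lemma card_lv_prod {Q : Type u} [Fintype Q] [PartialOrder Q] [DecidableEq Q] (c : Q → ι)
    (hc : ∀ x y, x ≤ y → c x = c y) (i : ℕ) :
    (lv Q i).card = ∑ k, (lv {x : Q // c x = k} i).card := by
  classical
  unfold lv
  rw [Finset.card_filter, ← Finset.sum_fiberwise (s := univ) (g := c)]
  refine Finset.sum_congr rfl fun k _ => ?_
  rw [Finset.card_filter, Finset.sum_subtype (univ.filter (fun x => c x = k))
    (p := fun x => c x = k) (by simp)]
  refine Finset.sum_congr rfl fun x _ => ?_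
  rw [lev_subtype (p := fun x => c x = k) (fun x y hxy hx => (hc x y hxy).symm.trans hx)]

/-- **No first pole.** -/
theorem no_first_pole {i n0 : ℕ} (h0 : 1 ≤ n0) (hG : IsGaussian P) {R : Finset P}
    (hR : ∀ x y, x ≤ y → y ∈ R → x ∈ R) (hRlev : ∀ x ∈ R, i < lev x)
    (cp : P → ι) (hcp : ∀ x y, x ≤ y → x ∉ R → cp x = cp y) (b : ι → ℕ) (θ : P → ℕ)
    (B : P → Prop) (hBR : ∀ x ∈ R, ¬ B x)
    (H : ∀ k, CompDataL R cp k i (b k) n0 θ B) (hb : ∀ k, 1 ≤ b k)
    (hsum : ∑ k, b k = (lv P i).card)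
    (hcost : ∀ z ∈ bdR R, n0 < cst i (hcan R θ) z) (ρ : ι → ℤ)
    (hpl : ∀ k, (ρ k = 0 ∧ ∀ n, (1 + X : ℤ[X]) ^ b k ∣
        Z {x : {x : P // x ∉ R} // cp (x : P) = k} i n) ∨
      ∀ f, (∀ n, exq n f = Z {x : {x : P // x ∉ R} // cp (x : P) = k} i n) →
        Pl n0 (b k) (ρ k) f)
    (hρ : ∀ k, ρ k ≤ 0) {k0 : ι} (hk0 : ρ k0 < 0) : False := by
  classical
  have h1 := sub_natural hR hRlev cp hcp b θ B hBR H hcost
  rw [hsum] at h1
  have h2 := dvd_Z hG i n0
  have h3 : (1 + X : ℤ[X]) ^ (lv P i).card ∣ Z {x : P // x ∉ R} i n0 := by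
    have := dvd_sub h2 h1
    rwa [sub_sub_cancel] at this
  have hc : ∀ x y : {x : P // x ∉ R}, x ≤ y → cp (x : P) = cp (y : P) := fun x y hxy =>
    hcp x y hxy x.2
  choose f hf hf' using fun k => exists_norm {x : {x : P // x ∉ R} // cp (x : P) = k} i
  have hprod := Z_prod (fun x : {x : P // x ∉ R} => cp (x : P)) hc i f hf
  -- the numbers of elements of level `i`
  have hR' : ∀ x : {x : P // x ∉ R}, lev x = lev (x : P) :=
    lev_subtype (p := fun x => x ∉ R) (fun x y hxy hx => fun h => hx (hR x y hxy h))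
  have hlv : (lv P i).card = (lv {x : P // x ∉ R} i).card := by
    refine (Finset.card_bij (fun (x : {x : P // x ∉ R}) _ => (x : P)) ?_ ?_ ?_).symm
    · intro x hx
      rw [mem_lv] at hx ⊢
      rw [← hR', hx]
    · intro x _ y _ h
      exact Subtype.ext h
    · intro x hx
      rw [mem_lv] at hx
      have hxR : x ∉ R := fun h => by have := hRlev x h; omega
      exact ⟨⟨x, hxR⟩, by rw [mem_lv, hR']; exact hx, rfl⟩
  have hlv2 := card_lv_prod (fun x : {x : P // x ∉ R} => cp (x : P)) hc i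
  have hz0 : ∀ k, exq 0 (f k) =
      X ^ (below {x : {x : P // x ∉ R} // cp (x : P) = k} i) *
        (1 + X) ^ (lv {x : {x : P // x ∉ R} // cp (x : P) = k} i).card := fun k => by
    rw [hf', Z_zero]
  have hgood : Good i R B R := ⟨hR, Subset.refl R, hRlev, hBR⟩
  have hle : ∀ k ∈ (univ : Finset ι), b k ≤
      (lv {x : {x : P // x ∉ R} // cp (x : P) = k} i).card := by
    intro k _
    have h4 := (H k).clean R hgood inferInstance 0 (by omega)
    rw [Z_zero] at h4
    exact le_of_pow_dvd h4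
  have heq := (Finset.sum_eq_sum_iff_of_le hle).mp (by rw [hsum, hlv, hlv2])
  have hP : Pl n0 (∑ k, b k) (∑ k, ρ k) (∏ k, f k) := by
    refine Pl.prod h0 univ ⟨k0, mem_univ _⟩ fun k hk => ?_
    rcases hpl k with ⟨h4, h5⟩ | h4
    · rw [h4]
      refine Pl.of_dvd (hb k) (fun n => by rw [hf']; exact h5 n) (m := below
        {x : {x : P // x ∉ R} // cp (x : P) = k} i) ?_
      rw [hz0, heq k hk]
    · exact h4 (f k) (hf' k)
  refine hP.not_dvd ?_ ?_
  · have h4 : ∑ k, ρ k < 0 := by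
      have h5 := Finset.sum_lt_sum (s := univ) (f := ρ) (g := fun _ => 0) (fun k _ => hρ k)
        ⟨k0, mem_univ _, hk0⟩
      rwa [Finset.sum_const_zero] at h5
    exact h4.ne
  · rw [hsum, ← hprod]
    exact h3

end General

/-! ### the components at the window 5, level 10 -/

variable {P : Type u} [Fintype P] [PartialOrder P] [DecidableEq P] {r : ℕ}

/-- the condition on the costs -/
def CostOK (t : P) (θ : P → ℕ) : Prop := ∀ x ≤ t, lev x = 10 → θ x = 0 →
  10 ≤ ct 5 1 x ∨ ((∀ k, 6 ≤ k → k ≤ 10 → nab k x = 1) ∧ nab 5 x = 2 ∧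
    ∀ y ≤ t, lev y = 10 → y ≠ x → ∀ k, 6 ≤ k → k ≤ 9 → 2 ≤ nab k y)

/-- the types at the window 5, level 10 -/
inductive T5 (t : Tops P) (b : ℕ) (N : Finset P) (θ : P → ℕ) (B : P → Prop) : Prop
  | nat (h1 : NatTop 5 t b N θ B) (h2 : lowPart 10 (t : P) ⊆ N) (h3 : ∀ x ∈ N, B x → lev x ≤ 10)
      (h4 : CostOK (t : P) θ) (h5 : 1 ≤ b)
  | dead (lo hi : ℕ → ℕ) (e : ℕ → ℕ → P) (C : Cp.Comp 10 (t : P) lo hi e)
      (D : WordD 10 4 w4d lo hi) (h1 : b = 2) (h2 : N = lowPart 10 (t : P))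
      (h3 : θ = fun x => lev x - 9) (h4 : B = fun x => x = e 9 4)

/-- the elements of level above 10 -/
noncomputable def R10 (P : Type u) [Fintype P] [PartialOrder P] : Finset P := by
  classical exact univ.filter (fun x => 10 < lev x)

end Pool.Agent.GaussPoset.Dd

end

/-! From `Pool.Agent.W_448w7_h94.WiL` -/

section

/-!
The energy of the first pole, with families of blockers (MP_448cb3_co, S7, `j = 14`, window 7,
energy 31).
-/

namespace Pool.Agent.GaussPoset.W7

set_option linter.unusedSectionVars false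

open Polynomial Finset Fi Cl Dd Wd

universe u

variable {P : Type u} [Fintype P] [PartialOrder P] [DecidableEq P]

/-- the dangerous configurations are the ones of the families -/
theorem DG_fam {i n : ℕ} {R : Finset P} {h : P → ℕ} (hlev : ∀ x ∈ R, i < lev x)
    (Fam : Finset (Finset P)) (hFam : ∀ A ∈ Fam, ∀ z ∈ A, z ∈ bdR R)
    (hn : ∀ z ∈ bdR R, (∀ A ∈ Fam, z ∉ A) → n < cst i h z)
    (hpair : ∀ A ∈ Fam, ∀ z ∈ A, ∀ z' ∈ bdR R, z' ∉ A → n < Uu i h z z')
    (hdis : ∀ A ∈ Fam, ∀ A' ∈ Fam, A ≠ A' → ∀ z ∈ A, z ∉ A') :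
    DG i R h n = ∑ A ∈ Fam, ZF i h A n := by
  classical
  have hle : ∀ (e : P → ℕ) (F : Finset P) (z : P), Vd i e F → z ∈ bdR R → Dgz h e F z →
      ∀ x, ez i h z x ≤ e x := fun e F z hV hz hd =>
    ez_le hV (hlev z (mem_filter.mp hz).1) hd
  unfold DG ZF
  rw [Finset.sum_comm (s := Fam)]
  refine Finset.sum_congr rfl fun F _ => ?_
  rw [← Finset.sum_biUnion]
  · refine Finset.sum_congr ?_ (fun _ _ => rfl)
    ext e
    simp only [mem_biUnion, mem_filter]
    constructor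
    · rintro ⟨h5, h6, z, hz, h7⟩
      have hs : ∑ x, e x = n := (mem_piAntidiag.mp h5).1
      by_contra hcon
      have h8 : ∀ A ∈ Fam, z ∉ A := by
        intro A hA hzA
        exact hcon ⟨A, hA, h5, h6, z, hzA, h7⟩
      have h9 := hn z hz h8
      have h10 : cst i h z ≤ ∑ x, e x := Finset.sum_le_sum fun x _ => hle e F z h6 hz h7 x
      omega
    · rintro ⟨A, hA, h5, h6, z, hz, h7⟩
      exact ⟨h5, h6, z, hFam A hA z hz, h7⟩
  · intro A hA A' hA' hne
    simp only [Function.onFun]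
    rw [Finset.disjoint_left]
    intro e he he'
    rw [mem_filter] at he he'
    obtain ⟨hs, hV, z, hz, hd⟩ := he
    obtain ⟨-, -, z', hz', hd'⟩ := he'
    have hs' : ∑ x, e x = n := (mem_piAntidiag.mp hs).1
    have h8 := hpair A hA z hz z' (hFam A' hA' z' hz') (hdis A' hA' A hA (Ne.symm hne) z' hz')
    have h9 : Uu i h z z' ≤ ∑ x, e x := Finset.sum_le_sum fun x _ =>
      max_le (hle e F z hV (hFam A hA z hz) hd x) (hle e F z' hV (hFam A' hA' z' hz') hd' x)
    omega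

/-- **The energy of the first pole**, with families. -/
theorem sub_fam {ι : Type*} [Fintype ι] [DecidableEq ι] {i n0 : ℕ} {R : Finset P}
    (hR : ∀ x y, x ≤ y → y ∈ R → x ∈ R) (hRlev : ∀ x ∈ R, i < lev x)
    (cp : P → ι) (hcp : ∀ x y, x ≤ y → x ∉ R → cp x = cp y) (b : ι → ℕ) (θ : P → ℕ)
    (B : P → Prop) (hBR : ∀ x ∈ R, ¬ B x)
    (H : ∀ k, CompDataL R cp k i (b k) n0 θ B)
    (Fam : Finset (Finset P)) (hFam : ∀ A ∈ Fam, ∀ z ∈ A, z ∈ bdR R)
    (hn : ∀ z ∈ bdR R, (∀ A ∈ Fam, z ∉ A) → n0 < cst i (hcan R θ) z)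
    (hpair : ∀ A ∈ Fam, ∀ z ∈ A, ∀ z' ∈ bdR R, z' ∉ A → n0 < Uu i (hcan R θ) z z')
    (hdis : ∀ A ∈ Fam, ∀ A' ∈ Fam, A ≠ A' → ∀ z ∈ A, z ∉ A')
    (hF : ∀ A ∈ Fam, (1 + X : ℤ[X]) ^ (∑ k, b k) ∣ ZF i (hcan R θ) A n0) :
    (1 + X : ℤ[X]) ^ (∑ k, b k) ∣ Z P i n0 - Z {x : P // x ∉ R} i n0 := by
  classical
  rw [Z_split i R (hcan R θ) n0, DG_fam hRlev Fam hFam hn hpair hdis, ← ZB_off hR hRlev,
    add_sub_right_comm]
  refine dvd_add (ND_sub hRlev ?_ _ n0 ?_) (Finset.dvd_sum fun A hA => hF A hA)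
  · intro z hz
    obtain ⟨x, -, -, hx⟩ := hcan_spec (θ := θ) hz
    omega
  · intro g hg0 hg hs
    refine labelsL hR hRlev cp hcp b θ B hBR H g hg0 ?_ n0 (by omega)
    intro y hy x hx hyx
    have h1 : y ∈ bdR R := mem_filter.mpr ⟨hy, x, hx, hyx⟩
    have h2 := hg y h1
    have h3 := hcan_le (θ := θ) hx hyx
    omega

/-- exact order up to the energy `n0`: no pole -/
lemma pl_of_dvd {n0 b : ℕ} {f : Polynomial (PowerSeries ℤ)} (hb : 1 ≤ b) {m : ℕ}
    (h : ∀ n, n ≤ n0 → (1 + X : ℤ[X]) ^ b ∣ exq n f) (h0 : exq 0 f = X ^ m * (1 + X) ^ b) :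
    Pl n0 b 0 f := by
  refine ⟨fun n hn => h n hn.le, hb, X ^ m, 0, by rw [h0, mul_comm], ?_, ?_, ?_⟩
  · rw [eval_pow, eval_X]
    exact pow_ne_zero _ (by norm_num)
  · rw [mul_zero, sub_zero]
    exact h n0 le_rfl
  · rw [eval_zero, zero_mul]

/-- **No first pole**, the sum of the values is not zero, with families. -/
theorem no_first_pole_fam {ι : Type*} [Fintype ι] [DecidableEq ι] {i n0 : ℕ} (h0 : 1 ≤ n0)
    (hG : IsGaussian P) {R : Finset P}
    (hR : ∀ x y, x ≤ y → y ∈ R → x ∈ R) (hRlev : ∀ x ∈ R, i < lev x)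
    (cp : P → ι) (hcp : ∀ x y, x ≤ y → x ∉ R → cp x = cp y) (b : ι → ℕ) (θ : P → ℕ)
    (B : P → Prop) (hBR : ∀ x ∈ R, ¬ B x)
    (H : ∀ k, CompDataL R cp k i (b k) n0 θ B) (hb : ∀ k, 1 ≤ b k)
    (hsum : ∑ k, b k = (lv P i).card)
    (Fam : Finset (Finset P)) (hFam : ∀ A ∈ Fam, ∀ z ∈ A, z ∈ bdR R)
    (hn : ∀ z ∈ bdR R, (∀ A ∈ Fam, z ∉ A) → n0 < cst i (hcan R θ) z)
    (hpair : ∀ A ∈ Fam, ∀ z ∈ A, ∀ z' ∈ bdR R, z' ∉ A → n0 < Uu i (hcan R θ) z z')
    (hdis : ∀ A ∈ Fam, ∀ A' ∈ Fam, A ≠ A' → ∀ z ∈ A, z ∉ A')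
    (hF : ∀ A ∈ Fam, (1 + X : ℤ[X]) ^ (∑ k, b k) ∣ ZF i (hcan R θ) A n0) (ρ : ι → ℤ)
    (hpl : ∀ k, (ρ k = 0 ∧ ∀ n, n ≤ n0 → (1 + X : ℤ[X]) ^ b k ∣
        Z {x : {x : P // x ∉ R} // cp (x : P) = k} i n) ∨
      ∀ f, (∀ n, exq n f = Z {x : {x : P // x ∉ R} // cp (x : P) = k} i n) →
        Pl n0 (b k) (ρ k) f)
    (hρ : ∑ k, ρ k ≠ 0) : False := by
  classical
  have hne : (univ : Finset ι).Nonempty := by
    by_contra hcon
    rw [Finset.not_nonempty_iff_eq_empty] at hcon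
    rw [hcon, Finset.sum_empty] at hρ
    exact hρ rfl
  have h1 := sub_fam hR hRlev cp hcp b θ B hBR H Fam hFam hn hpair hdis hF
  rw [hsum] at h1
  have h2 := dvd_Z hG i n0
  have h3 : (1 + X : ℤ[X]) ^ (lv P i).card ∣ Z {x : P // x ∉ R} i n0 := by
    have := dvd_sub h2 h1
    rwa [sub_sub_cancel] at this
  have hc : ∀ x y : {x : P // x ∉ R}, x ≤ y → cp (x : P) = cp (y : P) := fun x y hxy =>
    hcp x y hxy x.2
  choose f hf hf' using fun k => exists_norm {x : {x : P // x ∉ R} // cp (x : P) = k} i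
  have hprod := Z_prod (fun x : {x : P // x ∉ R} => cp (x : P)) hc i f hf
  have hR' : ∀ x : {x : P // x ∉ R}, lev x = lev (x : P) :=
    lev_subtype (p := fun x => x ∉ R) (fun x y hxy hx => fun h => hx (hR x y hxy h))
  have hlv : (lv P i).card = (lv {x : P // x ∉ R} i).card := by
    refine (Finset.card_bij (fun (x : {x : P // x ∉ R}) _ => (x : P)) ?_ ?_ ?_).symm
    · intro x hx
      rw [mem_lv] at hx ⊢
      rw [← hR', hx]
    · intro x _ y _ h
      exact Subtype.ext h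
    · intro x hx
      rw [mem_lv] at hx
      have hxR : x ∉ R := fun h => by have := hRlev x h; omega
      exact ⟨⟨x, hxR⟩, by rw [mem_lv, hR']; exact hx, rfl⟩
  have hlv2 := card_lv_prod (fun x : {x : P // x ∉ R} => cp (x : P)) hc i
  have hz0 : ∀ k, exq 0 (f k) =
      X ^ (below {x : {x : P // x ∉ R} // cp (x : P) = k} i) *
        (1 + X) ^ (lv {x : {x : P // x ∉ R} // cp (x : P) = k} i).card := fun k => by
    rw [hf', Z_zero]
  have hgood : GaussPoset.Good i R B R := ⟨hR, Subset.refl R, hRlev, hBR⟩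
  have hle : ∀ k ∈ (univ : Finset ι), b k ≤
      (lv {x : {x : P // x ∉ R} // cp (x : P) = k} i).card := by
    intro k _
    have h4 := (H k).clean R hgood inferInstance 0 (by omega)
    rw [Z_zero] at h4
    exact le_of_pow_dvd h4
  have heq := (Finset.sum_eq_sum_iff_of_le hle).mp (by rw [hsum, hlv, hlv2])
  have hP : Pl n0 (∑ k, b k) (∑ k, ρ k) (∏ k, f k) := by
    refine Pl.prod h0 univ hne fun k hk => ?_
    rcases hpl k with ⟨h4, h5⟩ | h4
    · rw [h4]
      exact pl_of_dvd (hb k) (fun n hn => by rw [hf']; exact h5 n hn) (m := below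
        {x : {x : P // x ∉ R} // cp (x : P) = k} i) (by rw [hz0, heq k hk])
    · exact h4 (f k) (hf' k)
  refine hP.not_dvd hρ ?_
  rw [hsum, ← hprod]
  exact h3

end Pool.Agent.GaussPoset.W7

end

/-! From `Pool.Agent.W_448s8f_h61.TB` -/

section

/-!
Coded strips below a longer trunk (MP_448cb3_co, S8, finite part).
-/

namespace Pool.Agent.GaussPoset

set_option linter.unusedSectionVars false

open Polynomial Finset Wd Cl

universe u

variable {P : Type u} [Fintype P] [PartialOrder P] [DecidableEq P]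

/-- nested subtypes -/
def subIso {p : P → Prop} {q : {x : P // p x} → Prop} {w : P → Prop}
    (h : ∀ x, w x ↔ ∃ hx : p x, q ⟨x, hx⟩) : {x : {x : P // p x} // q x} ≃o {x : P // w x} where
  toFun x := ⟨x.1.1, (h _).2 ⟨x.1.2, x.2⟩⟩
  invFun x := ⟨⟨x.1, ((h _).1 x.2).choose⟩, ((h _).1 x.2).choose_spec⟩
  left_inv _ := rfl
  right_inv _ := rfl
  map_rel_iff' := Iff.rfl

section Conv

variable {p : P → Prop} [DecidablePred p] {s : ℕ}

/-- levels in a convex part -/
lemma lev_conv (hp1 : ∀ x y, x ≤ y → p x → s ≤ lev y → p y) (hp2 : ∀ x, p x → s ≤ lev x)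
    (x : {x : P // p x}) : lev x = lev (x : P) - s := by
  have h1 : lev x ≤ lev (x : P) - s :=
    lev_le (f := fun y : {x : P // p x} => lev (y : P) - s) (fun a b hab => by
      have h2 := lev_strictAnti (show (a : P) < (b : P) from hab)
      have h3 := hp2 _ b.2
      have h4 := hp2 _ a.2
      show lev (b : P) - s < lev (a : P) - s
      omega) x
  have key : ∀ k, ∀ x : {x : P // p x}, lev (x : P) = s + k → k ≤ lev x := by
    intro k
    induction k with
    | zero => intro x _; exact Nat.zero_le _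
    | succ k ih =>
      intro x hx
      obtain ⟨y, hxy, hy⟩ := exists_lev_succ (x := (x : P)) (k := s + k) (by omega)
      have hpy := hp1 _ _ hxy.le x.2 (by omega)
      have h2 := ih ⟨y, hpy⟩ hy
      have h3 := lev_strictAnti (show x < (⟨y, hpy⟩ : {x : P // p x}) from hxy)
      omega
  have h2 := key (lev (x : P) - s) x (by have := hp2 _ x.2; omega)
  omega

/-- covers in a convex part -/
lemma cov_conv (hp1 : ∀ x y, x ≤ y → p x → s ≤ lev y → p y) (hp2 : ∀ x, p x → s ≤ lev x)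
    {x y : {x : P // p x}} : x ⋖ y ↔ (x : P) ⋖ (y : P) := by
  constructor
  · intro h
    refine ⟨h.1, fun z h1 h2 => ?_⟩
    have h3 := hp2 _ y.2
    have h4 := lev_strictAnti h2
    exact h.2 (c := ⟨z, hp1 _ _ h1.le x.2 (by omega)⟩) h1 h2
  · intro h
    exact ⟨h.1, fun z h1 h2 => h.2 (c := (z : P)) h1 h2⟩

end Conv

section Shift

variable {r s N J : ℕ} {t : P} {lo hi : ℕ → ℕ} {e : ℕ → ℕ → P}
variable {los his ll sl cv nn : ℕ → ℕ}

/-- the part of the component on the levels `≥ s` -/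
abbrev Lp (s j : ℕ) (t : P) : Type u := {x : P // x ∈ lowPart j t ∧ s ≤ lev x}

open Classical in
/-- the cells of the part -/
noncomputable def cLp (s j : ℕ) (t : P) (e : ℕ → ℕ → P) (ll sl : ℕ → ℕ) (d : Lp s j t)
    (a : ℕ) : Lp s j t :=
  if h : e (ll a + s) (sl a) ∈ lowPart j t ∧ s ≤ lev (e (ll a + s) (sl a)) then ⟨_, h⟩ else d

lemma lowPart_up (H : Gr P r) {j : ℕ} (hg : ∀ l, l < j → Win.Good P l) (ht : lev t = 0) {x y : P}
    (hxy : x ≤ y) (hx : x ∈ lowPart j t) : y ∈ lowPart j t := by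
  rw [mem_lowPart] at hx ⊢
  refine ⟨Cp.up_le H hg ht hx.1 hx.2 hxy, ?_⟩
  rcases eq_or_lt_of_le hxy with h | h
  · rw [← h]; exact hx.2
  · have := lev_strictAnti h
    omega

variable (S : StripOK N J los his ll sl cv nn) (C : Cp.Comp (J + s) t lo hi e)
  (hlo : ∀ k, k ≤ J → lo (k + s) = los k) (hhi : ∀ k, k ≤ J → hi (k + s) = his k)

include S C hlo hhi

lemma scell_mem {a : ℕ} (ha : a < nn J) : ll a ≤ J ∧ lo (ll a + s) ≤ sl a ∧ sl a ≤ hi (ll a + s) ∧
    e (ll a + s) (sl a) ∈ lowPart (J + s) t ∧ lev (e (ll a + s) (sl a)) = ll a + s := by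
  have hN := S.nle J (by omega)
  have h1 : ll a ≤ J := (S.num J (by omega) a (by omega)).mp ha
  have h2 := S.row a (by omega)
  rw [← hlo _ h1, ← hhi _ h1] at h2
  have h3 := C.lev_e (ll a + s) (sl a) (by omega) h2.1 h2.2
  exact ⟨h1, h2.1, h2.2, mem_lowPart.mpr ⟨C.le_t _ _ (by omega) h2.1 h2.2, by omega⟩, h3⟩

lemma cLp_val (d : Lp s (J + s) t) {a : ℕ} (ha : a < nn J) :
    (cLp s (J + s) t e ll sl d a : P) = e (ll a + s) (sl a) := by
  obtain ⟨-, -, -, h1, h2⟩ := scell_mem S C hlo hhi ha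
  unfold cLp
  rw [dif_pos ⟨h1, by omega⟩]

/-- every element of the part is a cell -/
lemma cLp_surj (d x : Lp s (J + s) t) : ∃ a < nn J, cLp s (J + s) t e ll sl d a = x := by
  have hx := mem_lowPart.mp x.2.1
  have hs := x.2.2
  obtain ⟨σ, h1, h2, h3⟩ := C.surj x hx.1 hx.2
  obtain ⟨k, hk⟩ : ∃ k, lev (x : P) = k + s := ⟨lev (x : P) - s, by omega⟩
  rw [hk] at h1 h2 h3
  have h4 := hlo k (by omega)
  have h5 := hhi k (by omega)
  obtain ⟨a, ha, h6, h7⟩ := S.surj k (by omega) σ (by omega) (by omega)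
  have ha' : a < nn J := by
    rw [S.num J (by omega) a ha]
    omega
  refine ⟨a, ha', Subtype.ext ?_⟩
  rw [cLp_val S C hlo hhi d ha', h6, h7, h3]

/-- **the part is coded** -/
theorem cod_shift (H : Gr P r) (hg : ∀ l, l < J + s → Win.Good P l) (ht : lev t = 0)
    (d : Lp s (J + s) t) : Cod (nn J) cv ll (cLp s (J + s) t e ll sl d) := by
  have hp1 : ∀ x y : P, x ≤ y → (x ∈ lowPart (J + s) t ∧ s ≤ lev x) → s ≤ lev y →
      (y ∈ lowPart (J + s) t ∧ s ≤ lev y) := fun x y hxy hx hy => ⟨lowPart_up H hg ht hxy hx.1, hy⟩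
  have hp2 : ∀ x : P, (x ∈ lowPart (J + s) t ∧ s ≤ lev x) → s ≤ lev x := fun x hx => hx.2
  have hN := S.nle J (by omega)
  have hval := fun {a : ℕ} (ha : a < nn J) => cLp_val S C hlo hhi d ha
  refine ⟨?_, ?_, ?_⟩
  · intro a ha b hb h
    have h1 : (cLp s (J + s) t e ll sl d a : P) = cLp s (J + s) t e ll sl d b := by rw [h]
    rw [hval ha, hval hb] at h1
    obtain ⟨p1, p2, p3, p4, p5⟩ := scell_mem S C hlo hhi ha
    obtain ⟨q1, q2, q3, q4, q5⟩ := scell_mem S C hlo hhi hb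
    have h2 : ll a = ll b := by
      have := congrArg lev h1
      omega
    refine S.inj a (by omega) b (by omega) h2 ?_
    rw [h2] at h1 p2 p3
    exact C.inj (ll b + s) _ _ (by omega) p2 p3 q2 q3 h1
  · intro a ha y
    obtain ⟨p1, p2, p3, p4, p5⟩ := scell_mem S C hlo hhi ha
    rw [cov_conv hp1 hp2, hval ha]
    constructor
    · intro h
      have hys := y.2.2
      have h0 : 1 ≤ ll a := by
        have := lev_strictAnti h.1
        omega
      obtain ⟨k, hk⟩ : ∃ k, ll a = k + 1 := ⟨ll a - 1, by omega⟩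
      have hk' : ll a + s = (k + s) + 1 := by omega
      rw [hk'] at h p2 p3
      obtain ⟨s', h4, h5, h6, h7⟩ := C.cov_up H hg ht (by omega) p2 p3 h
      obtain ⟨b, hb, h8, h9⟩ := S.surj k (by omega) s' (by
        have := hhi k (by omega); omega) (by have := hlo k (by omega); omega)
      have hb' : b < nn J := by
        rw [S.num J (by omega) b hb]
        omega
      refine ⟨b, hb', ?_, Subtype.ext ?_⟩
      · rw [S.cov a (by omega) b hb]
        omega
      · rw [hval hb', h8, h9, h6]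
    · rintro ⟨b, hb, h4, rfl⟩
      rw [hval hb]
      obtain ⟨q1, q2, q3, q4, q5⟩ := scell_mem S C hlo hhi hb
      rw [S.cov a (by omega) b (by omega)] at h4
      have hk' : ll a + s = (ll b + s) + 1 := by omega
      rw [hk'] at p2 p3 ⊢
      exact (C.cov (ll b + s) (sl a) (sl b) (by omega) p2 p3 q2 q3).mpr h4.2
  · intro a ha
    obtain ⟨p1, p2, p3, p4, p5⟩ := scell_mem S C hlo hhi ha
    rw [lev_conv hp1 hp2, hval ha, p5]
    omega

end Shift

/-- the check that the cell `a0` generates the code `bm` -/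
def genChk (N a0 bm : ℕ) (cv : ℕ → ℕ) : Bool :=
  (List.range N).all fun a => !(bm.testBit a) || Nat.beq a a0 ||
    (List.range N).any fun b => Nat.blt a b && bm.testBit b && (cv b).testBit a

lemma gen_mem {n a0 bm : ℕ} {cv lv : ℕ → ℕ} {c : ℕ → P} (hC : Cod n cv lv c)
    (hb : genChk n a0 bm cv = true) {U : Finset P} (hup : ∀ x y, x ≤ y → x ∈ U → y ∈ U)
    (h0 : c a0 ∈ U) : ∀ a < n, bm.testBit a = true → c a ∈ U := by
  unfold genChk at hb
  simp only [Bool.and_eq_true, List.all_eq_true, List.mem_range, Bool.or_eq_true, Cl.beq_iff,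
    Nat.blt_eq, List.any_eq_true] at hb
  have key : ∀ d a, a < n → n - a = d → bm.testBit a = true → c a ∈ U := by
    intro d
    induction d using Nat.strong_induction_on with
    | _ d ih =>
      intro a ha hd hba
      rcases hb a ha with (h | h) | ⟨b, hbN, ⟨h7, h8⟩, h9⟩
      · rw [hba] at h; exact absurd h (by simp)
      · rw [h]; exact h0
      · have h10 := ih (n - b) (by omega) b hbN rfl h8
        exact hup _ _ ((hC.cov b hbN _).mpr ⟨a, ha, h9, rfl⟩).le h10
  exact fun a ha hba => key _ a ha rfl hba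

/-- the cell `(14, 7)` generates its code -/
theorem La7_gen : genChk 30 29 554849791 (fun a => La7cv.getD a 0) = true := by decide +kernel

section Word

variable {lo hi : ℕ → ℕ} {a a' : ℕ} {w : List Ltr}

lemma losW_shift (h : a' ≤ a) (k : ℕ) : losW a w (k + (a - a')) = losW a' w k := by
  unfold losW
  rw [show k + (a - a') - a = k - a' by omega]
  by_cases hk : k < a'
  · rw [if_pos hk, if_pos (by omega)]
  · rw [if_neg hk, if_neg (by omega)]

lemma hisW_shift (h : a' ≤ a) (k : ℕ) : hisW a w (k + (a - a')) = hisW a' w k := by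
  unfold hisW
  rw [show k + (a - a') - a = k - a' by omega]
  by_cases hk : k < a'
  · rw [if_pos hk, if_pos (by omega)]
  · rw [if_neg hk, if_neg (by omega)]

end Word

section Seven

variable {r a : ℕ} {t : P} {lo hi : ℕ → ℕ} {e : ℕ → ℕ → P}

/-- order two at the window 7 of the part with the trunk cut to length 7 -/
theorem La7_part (C : Cp.Comp (a + 7) t lo hi e) (D : WordD (a + 7) a wa7 lo hi) (H : Gr P r)
    (hg : ∀ l, l < a + 7 → Win.Good P l) (ht : lev t = 0) (ha : 7 ≤ a) {L : Finset P}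
    (hL : L ⊆ lowPart (a + 7) t) (hup : ∀ x y, x ≤ y → x ∈ L → y ∈ L) (h7 : e (a + 7) 7 ∈ L)
    (n : ℕ) : (1 + X : ℤ[X]) ^ 2 ∣ Z {x : {x : P // x ∈ L} // a - 7 ≤ lev x} 7 n := by
  classical
  obtain ⟨s, hs⟩ : ∃ s, a - 7 = s := ⟨_, rfl⟩
  have h14 : a + 7 = 14 + s := by omega
  obtain ⟨hr1, hr2⟩ := D.rows C
  have hlo : ∀ k, k ≤ 14 → lo (k + s) = losW 7 wa7 k := by
    intro k hk
    rw [hr1 _ (by omega), ← hs, losW_shift ha]
  have hhi : ∀ k, k ≤ 14 → hi (k + s) = hisW 7 wa7 k := by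
    intro k hk
    rw [hr2 _ (by omega), ← hs, hisW_shift ha]
  rw [hs]
  have h7s : s ≤ lev (e (a + 7) 7) := by
    have h1 := mem_lowPart.mp (hL h7)
    have h2 : lev (e (a + 7) 7) = a + 7 := by
      refine C.lev_e _ _ le_rfl ?_ ?_
      · rw [h14, hlo 14 le_rfl]; decide
      · rw [h14, hhi 14 le_rfl]; decide
    omega
  rw [h14] at C hg hL h7 h7s
  have S := La7_strip
  let d : Lp s (14 + s) t := ⟨e (14 + s) 7, hL h7, h7s⟩
  have hC := cod_shift S C hlo hhi H hg ht d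
  let I : Finset (Lp s (14 + s) t) := univ.filter (fun x => (x : P) ∈ L)
  have hI : ∀ x : Lp s (14 + s) t, x ∈ I ↔ (x : P) ∈ L := fun x => by simp [I]
  have hIup : ∀ x y : Lp s (14 + s) t, x ≤ y → x ∈ I → y ∈ I := by
    intro x y hxy hx
    rw [hI] at hx ⊢
    exact hup _ _ hxy hx
  have h0 : cLp s (14 + s) t e (fun a => La7lv.getD a 0) (fun a => La7sl.getD a 0) d 29 ∈ I := by
    rw [hI, cLp_val S C hlo hhi d (by decide)]
    exact h7
  have h1 := hC.clean_of La7_us le_rfl La7_win7 (I := I)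
    (fun x _ => cLp_surj S C hlo hhi d x) (fun x hx y hxy => hIup x y hxy hx) (by decide)
    (gen_mem hC La7_gen hIup h0)
  have φ : {x : {x : P // x ∈ L} // s ≤ lev x} ≃o {x : Lp s (14 + s) t // x ∈ I} :=
    (subIso (w := fun x : P => x ∈ L ∧ s ≤ lev x) (fun x => by
      constructor
      · rintro ⟨h2, h3⟩
        refine ⟨h2, ?_⟩
        rw [lev_subtype (p := fun x => x ∈ L) (fun x y hxy hx => hup x y hxy hx)]
        exact h3
      · rintro ⟨h2, h3⟩
        rw [lev_subtype (p := fun x => x ∈ L) (fun x y hxy hx => hup x y hxy hx)] at h3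
        exact ⟨h2, h3⟩)).trans
    (subIso (w := fun x : P => x ∈ L ∧ s ≤ lev x) (fun x => by
      constructor
      · rintro ⟨h2, h3⟩
        exact ⟨⟨hL h2, h3⟩, (hI _).mpr h2⟩
      · rintro ⟨h2, h3⟩
        exact ⟨(hI _).mp h3, h2.2⟩)).symm
  rw [Z_iso φ]
  exact dvd_Z_of_dvd_W h1 n

end Seven

end Pool.Agent.GaussPoset

end

/-! From `Pool.Agent.W_448s8f_h61.TC` -/

section

/-!
The path of the seven-cell word below a longer trunk: elements above the path
(MP_448cb3_co, S8, finite part).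
-/

namespace Pool.Agent.GaussPoset

set_option linter.unusedSectionVars false

open Polynomial Finset Wd Cl

universe u

variable {P : Type u} [Fintype P] [PartialOrder P] [DecidableEq P]

/-- splitting off the configurations in which `z` is dangerous -/
theorem Z_split_one {i : ℕ} {z : P} (hz : i < lev z) (n : ℕ) :
    Z P i n = Z {x : P // x ∉ dnf z} i n + ZD i z 1 n := by
  classical
  have hD : ∀ x y : P, x ≤ y → y ∈ dnf z → x ∈ dnf z := by
    intro x y hxy hy
    rw [mem_dnf] at hy ⊢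
    exact hxy.trans hy
  have hlev : ∀ x ∈ dnf z, i < lev x := by
    intro x hx
    rw [mem_dnf] at hx
    rcases eq_or_lt_of_le hx with h | h
    · rw [h]; exact hz
    · have := lev_strictAnti h
      omega
  rw [← ZB_off hD hlev, Z_eq_ZB, ZD_eq hz]
  unfold ZB
  rw [← Finset.sum_add_distrib]
  refine Finset.sum_congr rfl fun F _ => ?_
  rw [← Finset.sum_filter_add_sum_filter_not (((univ : Finset P).piAntidiag n).filter
    (fun e => Cst i ∅ 0 0 e F)) (fun e => z ∈ F ∨ 1 ≤ e z), add_comm]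
  rw [Finset.filter_filter, Finset.filter_filter]
  congr 1
  · refine Finset.sum_congr (Finset.filter_congr fun e _ => ?_) (fun _ _ => rfl)
    constructor
    · rintro ⟨h1, h2⟩
      rw [not_or, not_le, Nat.lt_one_iff] at h2
      refine ⟨h1.1, fun x hx => ?_, fun x _ hxF => by simpa using h1.1.2.1 x hxF⟩
      rw [mem_dnf] at hx
      have hxF : x ∉ F := fun h => h2.1 (h1.1.1 x z hx h)
      refine ⟨hxF, ?_⟩
      have h3 := h1.1.2.2.1 x z hx hxF h2.1
      rw [rho_of_lt hz, rho_of_lt (hlev x (mem_dnf.mpr hx)), h2.2] at h3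
      show e x = 0
      omega
    · rintro ⟨h1, h2, h3⟩
      have h4 := h2 z (mem_dnf.mpr le_rfl)
      have h5 : e z = 0 := h4.2
      refine ⟨⟨h1, fun x hx => absurd hx (Finset.notMem_empty x),
        fun x _ hxF => by simpa using h1.2.1 x hxF⟩, ?_⟩
      rintro (h | h)
      · exact h4.1 h
      · omega
  · refine Finset.sum_congr (Finset.filter_congr fun e _ => ?_) (fun _ _ => rfl)
    constructor
    · rintro ⟨h1, h2⟩
      exact ⟨h1.1, h2⟩
    · rintro ⟨h1, h2⟩
      exact ⟨⟨h1, fun x hx => absurd hx (Finset.notMem_empty x),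
        fun x _ hxF => by simpa using h1.2.1 x hxF⟩, h2⟩

section Path

variable {r a : ℕ} {t : P} {lo hi : ℕ → ℕ} {e : ℕ → ℕ → P}

/-- data of a component with the seven-cell word -/
structure S7 (r a : ℕ) (t : P) (lo hi : ℕ → ℕ) (e : ℕ → ℕ → P) : Prop where
  C : Cp.Comp (a + 7) t lo hi e
  D : WordD (a + 7) a wa7 lo hi
  H : Gr P r
  hg : ∀ l, l < a + 7 → Win.Good P l
  ht : lev t = 0

variable (A : S7 r a t lo hi e)

include A

lemma S7.lo7 {u : ℕ} (hu : u ≤ 7) : lo (a + u) = (wa7.take u).countP (fun l => l.1) := by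
  rw [(A.D.rows A.C).1 _ (by omega)]
  unfold losW
  rw [if_neg (by omega), Nat.add_sub_cancel_left]

lemma S7.hi7 {u : ℕ} (hu : u ≤ 7) : hi (a + u) = 1 + (wa7.take u).countP (fun l => l.2) := by
  rw [(A.D.rows A.C).2 _ (by omega)]
  unfold hisW
  rw [if_neg (by omega), Nat.add_sub_cancel_left]

lemma S7.trunk {k : ℕ} (hk : k < a) : lo k = 0 ∧ hi k = 0 := A.D.trunk k hk

/-- the path cells are in their rows -/
lemma S7.row {u : ℕ} (hu : u ≤ 7) : lo (a + u) ≤ u ∧ u ≤ hi (a + u) := by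
  rw [A.lo7 hu, A.hi7 hu]
  interval_cases u <;> decide

lemma S7.lev_p {u : ℕ} (hu : u ≤ 7) : lev (e (a + u) u) = a + u :=
  A.C.lev_e _ _ (by omega) (A.row hu).1 (A.row hu).2

lemma S7.p_mem {u : ℕ} (hu : u ≤ 7) : e (a + u) u ∈ lowPart (a + 7) t :=
  mem_lowPart.mpr ⟨A.C.le_t _ _ (by omega) (A.row hu).1 (A.row hu).2, by
    rw [A.lev_p hu]; omega⟩

lemma S7.up {x y : P} (hxy : x ≤ y) (hx : x ∈ lowPart (a + 7) t) : y ∈ lowPart (a + 7) t :=
  lowPart_up A.H A.hg A.ht hxy hx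

lemma S7.p_cov {u : ℕ} (hu : u + 1 ≤ 7) : e (a + (u + 1)) (u + 1) ⋖ e (a + u) u := by
  have h1 := A.row (u := u + 1) hu
  have h2 := A.row (u := u) (by omega)
  exact (A.C.cov (a + u) (u + 1) u (by omega) h1.1 h1.2 h2.1 h2.2).mpr (Or.inr rfl)

/-- the path is a chain -/
lemma S7.p_le {u v : ℕ} (huv : u ≤ v) (hv : v ≤ 7) : e (a + v) v ≤ e (a + u) u := by
  induction v with
  | zero =>
    rw [show u = 0 by omega]
  | succ v ih =>
    rcases Nat.lt_or_ge v u with h | h
    · rw [show u = v + 1 by omega]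
    · exact (A.p_cov hv).le.trans (ih h (by omega))

lemma S7.row_a : lo a = 0 ∧ hi a = 1 := A.D.row

lemma S7.p_le1 {u : ℕ} (h1 : 1 ≤ u) (hu : u ≤ 7) : e (a + u) u ≤ e a 1 := by
  refine (A.p_le h1 hu).trans ?_
  have h2 := A.row (u := 1) (by omega)
  have h3 := A.row_a
  exact ((A.C.cov a 1 1 (by omega) h2.1 h2.2 (by omega) (by omega)).mpr (Or.inl rfl)).le

lemma S7.p_le0 {u : ℕ} (hu : u ≤ 7) : e (a + u) u ≤ e a 0 := A.p_le (Nat.zero_le u) hu

/-- the elements above a path cell -/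
lemma S7.above {u : ℕ} (hu : u ≤ 7) {x : P} (hx : e (a + u) u ≤ x) (hax : a < lev x) :
    ∃ v, 1 ≤ v ∧ v ≤ u ∧ x = e (a + v) v := by
  induction u with
  | zero =>
    exfalso
    rcases eq_or_lt_of_le hx with h | h
    · rw [← h, A.lev_p hu] at hax; omega
    · have := lev_strictAnti h
      rw [A.lev_p hu] at this
      omega
  | succ u ih =>
    rcases eq_or_lt_of_le hx with h | h
    · exact ⟨u + 1, by omega, le_rfl, h.symm⟩
    · obtain ⟨y, hy, hyx⟩ := Hul.exists_cov h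
      have h1 := A.row (u := u + 1) hu
      obtain ⟨s', h3, h4, h5, h6⟩ := A.C.cov_up A.H A.hg A.ht (k := a + u) (by omega) h1.1 h1.2 hy
      rcases Nat.eq_zero_or_pos u with rfl | hu0
      · exfalso
        have h7 : lev y ≤ a := by
          rw [h5, A.C.lev_e _ _ (by omega) h3 h4]
          omega
        rcases eq_or_lt_of_le hyx with h8 | h8
        · rw [← h8] at hax; omega
        · have := lev_strictAnti h8
          omega
      · have h7 : hi (a + u) = u := by
          rw [A.hi7 (by omega)]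
          have h8 : u ≤ 6 := by omega
          interval_cases u <;> decide
        have h8 : s' = u := by omega
        subst h8
        obtain ⟨v, hv1, hv2, hv3⟩ := ih (by omega) (by rw [← h5]; exact hyx)
        exact ⟨v, hv1, by omega, hv3⟩

/-- elements of the trunk -/
lemma S7.trunk_eq {x : P} (hx : x ∈ lowPart (a + 7) t) (hl : lev x < a) : x = e (lev x) 0 := by
  have h := mem_lowPart.mp hx
  obtain ⟨s, h1, h2, h3⟩ := A.C.surj x h.1 h.2
  have h4 := A.trunk hl
  have hs : s = 0 := by omega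
  rw [hs] at h3
  exact h3.symm

lemma S7.row_eq {x : P} (hx : x ∈ lowPart (a + 7) t) (hl : lev x = a) : x = e a 0 ∨ x = e a 1 := by
  have h := mem_lowPart.mp hx
  obtain ⟨s, h1, h2, h3⟩ := A.C.surj x h.1 h.2
  have h4 := A.row_a
  rw [hl] at h1 h2 h3
  rcases Nat.eq_zero_or_pos s with h | h
  · left; rw [← h3, h]
  · right; rw [← h3, show s = 1 by omega]

/-- the trunk is above everything below it -/
lemma S7.le_trunk {x y : P} (hx : x ∈ lowPart (a + 7) t) (hy : y ∈ lowPart (a + 7) t)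
    (hyl : lev y < a) (hxy : lev y ≤ lev x) : x ≤ y := by
  obtain ⟨w, hw1, hw2⟩ := exists_above' (x := x) (j := lev y) hxy
  have hw := A.up hw1 hx
  have h1 := A.trunk_eq hw (by omega)
  have h2 := A.trunk_eq hy hyl
  rw [hw2] at h1
  rw [h2, ← h1]
  exact hw1

lemma S7.nab_p {u v : ℕ} (hu : u ≤ 7) (h1 : 1 ≤ v) (hv : v ≤ u) :
    nab (a + v) (e (a + u) u) = 1 := by
  classical
  unfold nab
  rw [Finset.card_eq_one]
  refine ⟨e (a + v) v, ?_⟩
  ext x
  rw [mem_filter, mem_lv, mem_singleton]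
  constructor
  · rintro ⟨h2, h3⟩
    obtain ⟨w, hw1, hw2, hw3⟩ := A.above hu h3 (by omega)
    have h4 : lev x = a + w := by rw [hw3]; exact A.lev_p (by omega)
    rw [hw3, show w = v by omega]
  · rintro rfl
    exact ⟨A.lev_p (by omega), A.p_le hv hu⟩

lemma S7.e_ne : e a 0 ≠ e a 1 := by
  intro h
  have h1 := A.row_a
  have := A.C.inj a 0 1 (by omega) (by omega) (by omega) (by omega) (by omega) h
  omega

lemma S7.lev_e0 : lev (e a 0) = a := A.C.lev_e _ _ (by omega) (by have := A.row_a; omega)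
  (by have := A.row_a; omega)

lemma S7.lev_e1 : lev (e a 1) = a := A.C.lev_e _ _ (by omega) (by have := A.row_a; omega)
  (by have := A.row_a; omega)

lemma S7.nab_a {u : ℕ} (hu : u ≤ 7) (h1 : 1 ≤ u) : nab a (e (a + u) u) = 2 := by
  classical
  unfold nab
  rw [Finset.card_eq_two]
  refine ⟨e a 0, e a 1, A.e_ne, ?_⟩
  ext x
  rw [mem_filter, mem_lv, mem_insert, mem_singleton]
  constructor
  · rintro ⟨h2, h3⟩
    exact A.row_eq (A.up h3 (A.p_mem hu)) h2
  · rintro (rfl | rfl)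
    · exact ⟨A.lev_e0, A.p_le0 hu⟩
    · exact ⟨A.lev_e1, A.p_le1 h1 hu⟩

/-- the cost of a path cell -/
lemma S7.ct_p {u : ℕ} (hu : u ≤ 7) : ct a 1 (e (a + u) u) = u := by
  classical
  unfold ct
  rw [cst_eq, A.lev_p hu, show a + u + 1 = (a + 1) + u by omega, Finset.sum_range_add]
  rw [Finset.sum_eq_zero (s := range (a + 1)), zero_add]
  · rw [Finset.sum_congr rfl (g := fun _ => 1), Finset.sum_const, card_range, smul_eq_mul, mul_one]
    intro x hx
    rw [mem_range] at hx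
    have h1 : a + 1 + x = a + (x + 1) := by omega
    rw [h1, A.nab_p hu (by omega) (by omega)]
    omega
  · intro x hx
    rw [mem_range] at hx
    rw [show x - a = 0 by omega]
    simp

end Path

end Pool.Agent.GaussPoset

end

/-! From `Pool.Agent.W_448j8_h67.JaE` -/

section

/-!
Window sums at the energy of the first pole: ladder data, lead values (MP_448cb3_co).
-/

namespace Pool.Agent.GaussPoset.J8

set_option linter.unusedSectionVars false

open Polynomial Finset Dd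

universe u

/-! ### lead values -/

/-- `p` is `(1 + X) ^ (B - 1) * s` up to multiples of `(1 + X) ^ B`, with `s (-1) = c` -/
def Lv (B : ℕ) (p : ℤ[X]) (c : ℤ) : Prop :=
  ∃ s : ℤ[X], (1 + X : ℤ[X]) ^ B ∣ p - (1 + X) ^ (B - 1) * s ∧ s.eval (-1) = c

lemma Lv.add {B : ℕ} {p q : ℤ[X]} {c d : ℤ} (hp : Lv B p c) (hq : Lv B q d) :
    Lv B (p + q) (c + d) := by
  obtain ⟨s, h1, h2⟩ := hp
  obtain ⟨s', h1', h2'⟩ := hq
  refine ⟨s + s', ?_, by rw [eval_add, h2, h2']⟩
  have := dvd_add h1 h1'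
  refine this.trans (dvd_of_eq ?_)
  ring

lemma Lv.zero {B : ℕ} {p : ℤ[X]} (h : (1 + X : ℤ[X]) ^ B ∣ p) : Lv B p 0 :=
  ⟨0, by rw [mul_zero, sub_zero]; exact h, by simp⟩

lemma Lv.sum {ι : Type*} {B : ℕ} (S : Finset ι) {p : ι → ℤ[X]} {c : ι → ℤ}
    (h : ∀ k ∈ S, Lv B (p k) (c k)) : Lv B (∑ k ∈ S, p k) (∑ k ∈ S, c k) := by
  classical
  induction S using Finset.induction_on with
  | empty => exact Lv.zero (by simp)
  | insert a S ha ih =>
    rw [Finset.sum_insert ha, Finset.sum_insert ha]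
    exact (h a (mem_insert_self a S)).add (ih fun k hk => h k (mem_insert_of_mem hk))

lemma Lv.congr {B : ℕ} {p q : ℤ[X]} {c : ℤ} (h : (1 + X : ℤ[X]) ^ B ∣ p - q) (hq : Lv B q c) :
    Lv B p c := by
  have := hq.add (Lv.zero h)
  rwa [add_sub_cancel, add_zero] at this

lemma Lv.mono (B a : ℕ) : Lv B (X ^ a * (1 + X) ^ (B - 1)) ((-1) ^ a) :=
  ⟨X ^ a, by rw [mul_comm, sub_self]; exact dvd_zero _, by simp⟩

lemma Lv.eq_zero {B : ℕ} (hB : 1 ≤ B) {p : ℤ[X]} {c : ℤ} (h : Lv B p c)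
    (hd : (1 + X : ℤ[X]) ^ B ∣ p) : c = 0 := by
  obtain ⟨s, h1, h2⟩ := h
  have h3 : (1 + X : ℤ[X]) ^ B ∣ (1 + X) ^ (B - 1) * s := by
    have := dvd_sub hd h1
    rwa [sub_sub_cancel] at this
  obtain ⟨c', rfl⟩ : ∃ c', B = c' + 1 := ⟨B - 1, by omega⟩
  rw [Nat.add_sub_cancel, pow_succ] at h3
  obtain ⟨w, hw⟩ := (mul_dvd_mul_iff_left (one_add_X_pow_ne c')).mp h3
  rw [← h2, hw, eval_mul, eval_add, eval_one, eval_X, add_neg_cancel, zero_mul]

/-- a first pole from the orders up to the energy `n0` -/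
lemma Pl.of_low {n0 b : ℕ} {f : Polynomial (PowerSeries ℤ)} (hb : 1 ≤ b) {m : ℕ}
    (h : ∀ n ≤ n0, (1 + X : ℤ[X]) ^ b ∣ exq n f) (h0 : exq 0 f = X ^ m * (1 + X) ^ b) :
    Pl n0 b 0 f := by
  refine ⟨fun n hn => h n hn.le, hb, X ^ m, 0, by rw [h0, mul_comm], ?_, ?_, ?_⟩
  · rw [eval_pow, eval_X]
    exact pow_ne_zero _ (by norm_num)
  · rw [mul_zero, sub_zero]
    exact h n0 le_rfl
  · rw [eval_zero, zero_mul]

/-! ### the dangerous part -/

variable {P : Type u} [Fintype P] [PartialOrder P] [DecidableEq P]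

lemma DG_eq_RB {i : ℕ} {R : Finset P} {h : P → ℕ} (hlev : ∀ x ∈ R, i < lev x) (n : ℕ) :
    DG i R h n = RB i R (fun g => ∃ z ∈ bdR R, h z ≤ g z) n := by
  classical
  unfold DG RB
  refine Finset.sum_congr rfl fun F _ => Finset.sum_congr ?_ (fun _ _ => rfl)
  ext e
  simp only [mem_filter]
  refine and_congr_right fun _ => ?_
  refine and_congr_right fun hV => ?_
  constructor
  · rintro ⟨z, hz, hd | hd⟩
    · exact Or.inl ⟨z, (mem_filter.mp hz).1, hd⟩
    · refine Or.inr ⟨z, hz, ?_⟩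
      rw [lbl_of (mem_filter.mp hz).1]
      exact hd
  · intro hb
    by_contra hcon
    push Not at hcon
    have h2 := not_mem_of_not_dg hlev hV hcon
    rcases hb with ⟨x, hx, hxF⟩ | ⟨z, hz, hz2⟩
    · exact h2 x hx hxF
    · refine hcon z hz (Or.inr ?_)
      rwa [lbl_of (mem_filter.mp hz).1] at hz2

/-- the dangerous part: families and leading terms -/
theorem DG_eval {i : ℕ} {R : Finset P} {h : P → ℕ} {n : ℕ} (Fam : Finset (Finset P))
    (hgr : GradedBelow P) (hlev : ∀ x ∈ R, i < lev x)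
    (hFam : ∀ A ∈ Fam, ∀ z ∈ A, z ∈ bdR R)
    (h1 : ∀ z ∈ bdR R, (∀ A ∈ Fam, z ∉ A) → 1 ≤ h z ∧ h z ≤ lev z - i)
    (hn : ∀ z ∈ bdR R, (∀ A ∈ Fam, z ∉ A) → n ≤ cst i h z)
    (hpair : ∀ A ∈ Fam, ∀ z ∈ A, ∀ z' ∈ bdR R, z' ∉ A →
      n < ∑ x, max (ez i h z x) (ez i h z' x))
    (hdis : ∀ A ∈ Fam, ∀ A' ∈ Fam, A ≠ A' → ∀ z ∈ A, z ∉ A') :
    DG i R h n = ∑ A ∈ Fam, ZF i h A n +
      ∑ z ∈ (bdR R).filter (fun z => (∀ A ∈ Fam, z ∉ A) ∧ cst i h z = n), Lt i h z := by
  classical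
  have hpair' : ∀ A ∈ Fam, ∀ z ∈ A, ∀ z' ∈ bdR R, z' ∉ A → ∀ e F, Vd i e F → ∑ x, e x = n →
      Dgz h e F z → Dgz h e F z' → False := by
    intro A hA z hz z' hz' hne e F hV hs hd hd'
    have h2 := ez_le hV (hlev z (mem_filter.mp (hFam A hA z hz)).1) hd
    have h3 := ez_le hV (hlev z' (mem_filter.mp hz').1) hd'
    have h4 : ∑ x, max (ez i h z x) (ez i h z' x) ≤ ∑ x, e x :=
      Finset.sum_le_sum fun x _ => max_le (h2 x) (h3 x)
    have := hpair A hA z hz z' hz' hne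
    omega
  set T2 : Finset P := (bdR R).filter (fun z => ∀ A ∈ Fam, z ∉ A) with hT2
  rw [DG_eq_RB hlev]
  have hev := RB_evalF (i := i) (R := R) (bad := fun g => ∃ z ∈ bdR R, h z ≤ g z) (n := n) h Fam
    T2 ?_ ?_ ?_ ?_ ?_ ?_
  · rw [hev]
    have h6 : ∑ z ∈ (bdR R).filter (fun z => (∀ A ∈ Fam, z ∉ A) ∧ cst i h z = n), Lt i h z =
        ∑ z ∈ T2.filter (fun z => cst i h z = n),
        (if Adm i (ez i h z) then
        (X : ℤ[X]) ^ (nf i (ez i h z)) * (1 + X) ^ (Pk i (ez i h z)).card else 0) := by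
      rw [hT2, Finset.filter_filter]
      refine Finset.sum_congr rfl fun z hz => ?_
      rw [mem_filter] at hz
      have h7 := h1 z hz.1 hz.2.1
      exact (lead_eq hgr h7.1 h7.2).symm
    rw [h6]
  · intro z hz
    rw [hT2, mem_filter] at hz
    exact h1 z hz.1 hz.2
  · intro A hA z hz e F _ _ hd
    have hzR := (mem_filter.mp (hFam A hA z hz)).1
    rcases hd with hd | hd
    · exact Or.inl ⟨z, hzR, hd⟩
    · refine Or.inr ⟨z, hFam A hA z hz, ?_⟩
      rw [lbl_of hzR]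
      exact hd
  · intro z hz _
    rw [hT2, mem_filter] at hz
    refine ⟨z, hz.1, ?_⟩
    rw [lbl_of (mem_filter.mp hz.1).1, ez_self (h1 z hz.1 hz.2).2]
  · intro e F hV hs hb
    have hd : ∃ z ∈ bdR R, Dgz h e F z := by
      by_contra hcon
      push Not at hcon
      have h2 := not_mem_of_not_dg hlev hV hcon
      rcases hb with ⟨x, hx, hxF⟩ | ⟨z, hz, hz2⟩
      · exact h2 x hx hxF
      · refine hcon z hz (Or.inr ?_)
        rwa [lbl_of (mem_filter.mp hz).1] at hz2
    obtain ⟨z, hz, hd⟩ := hd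
    by_cases hz1 : ∃ A ∈ Fam, z ∈ A
    · obtain ⟨A, hA, hzA⟩ := hz1
      exact Or.inl ⟨A, hA, z, hzA, hd⟩
    · right
      push Not at hz1
      refine ⟨z, by rw [hT2, mem_filter]; exact ⟨hz, hz1⟩, ?_⟩
      have h4 : ∀ x, ez i h z x ≤ e x := ez_le hV (hlev z (mem_filter.mp hz).1) hd
      have h6 : cst i h z ≤ n := by
        rw [← hs]; exact Finset.sum_le_sum fun x _ => h4 x
      have h7 : cst i h z = n := le_antisymm h6 (hn z hz hz1)
      funext x
      have h9 : ∑ x, ez i h z x = ∑ x, e x := by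
        rw [hs]; exact h7
      exact ((Finset.sum_eq_sum_iff_of_le (fun x _ => h4 x)).mp h9 x (mem_univ x)).symm
  · intro A hA A' hA' hne z hz z' hz' e F hV hs hd hd'
    exact hpair' A hA z hz z' (hFam A' hA' z' hz') (hdis A' hA' A hA (Ne.symm hne) z' hz') e F hV
      hs hd hd'
  · intro A hA z hz z' hz' hc F hV hd
    rw [hT2, mem_filter] at hz'
    refine hpair' A hA z hz z' hz'.1 (hz'.2 A hA) _ F hV hc hd (Or.inr ?_)
    rw [ez_self (h1 z' hz'.1 hz'.2).2]

/-! ### ladder data -/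

/-- natural sets, orders below the energy `n0` -/
structure Lad (i n0 : ℕ) (R : Finset P) (b : Tops P → ℕ) (θ : P → ℕ) (B : P → Prop) : Prop where
  gr : GradedBelow P
  low : ∀ x y, x ≤ y → y ∈ R → x ∈ R
  lev : ∀ x ∈ R, i < Pool.Agent.GaussPoset.lev x
  cp : ∀ x y, x ≤ y → x ∉ R → topOf x = topOf y
  base : ∀ x ∈ R, ¬ B x
  data : ∀ t, CompDataL R topOf t i (b t) n0 θ B

section Lad

variable {i n0 : ℕ} {R : Finset P} {b : Tops P → ℕ} {θ : P → ℕ} {B : P → Prop}

theorem Lad.farT (L : Lad i n0 R b θ B) : FarT P i R (∑ t, b t) (hcan R θ) n0 :=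
  farT_L L.low L.lev topOf L.cp b θ B L.base L.data L.gr

lemma Lad.one_le (_L : Lad i n0 R b θ B) {z : P} (hz : z ∈ bdR R) : 1 ≤ hcan R θ z := by
  obtain ⟨x, -, -, hx⟩ := hcan_spec (θ := θ) hz
  omega

lemma Lad.le_lev (L : Lad i n0 R b θ B) {z : P} (hz : z ∈ bdR R) :
    hcan R θ z ≤ Pool.Agent.GaussPoset.lev z - i := L.farT.le_lev z hz

/-- **The window sum at the energy `n ≤ n0`.** -/
theorem Lad.plus0 (L : Lad i n0 R b θ B) {n : ℕ} (hn0 : n ≤ n0) (Fam : Finset (Finset P))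
    (hFam : ∀ A ∈ Fam, ∀ z ∈ A, z ∈ bdR R)
    (hn : ∀ z ∈ bdR R, (∀ A ∈ Fam, z ∉ A) → n ≤ cst i (hcan R θ) z)
    (hpair : ∀ A ∈ Fam, ∀ z ∈ A, ∀ z' ∈ bdR R, z' ∉ A →
      n < ∑ x, max (ez i (hcan R θ) z x) (ez i (hcan R θ) z' x))
    (hdis : ∀ A ∈ Fam, ∀ A' ∈ Fam, A ≠ A' → ∀ z ∈ A, z ∉ A') :
    (1 + X : ℤ[X]) ^ (∑ t, b t) ∣ Z P i n - (Z {x : P // x ∉ R} i n +
      (∑ A ∈ Fam, ZF i (hcan R θ) A n +
      ∑ z ∈ (bdR R).filter (fun z => (∀ A ∈ Fam, z ∉ A) ∧ cst i (hcan R θ) z = n),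
        Lt i (hcan R θ) z)) := by
  classical
  rw [Z_split i R (hcan R θ) n, DG_eval Fam L.gr L.lev hFam
    (fun z hz _ => ⟨L.one_le hz, L.le_lev hz⟩) hn hpair hdis, ← ZB_off L.low L.lev,
    add_sub_add_right_eq_sub]
  refine ND_sub L.lev (fun z hz => L.one_le hz) _ n ?_
  intro g hg0 hg hs
  refine labelsL L.low L.lev topOf L.cp b θ B L.base L.data g hg0 ?_ n (by omega)
  intro y hy x hx hyx
  have h1 : y ∈ bdR R := mem_filter.mpr ⟨hy, x, hx, hyx⟩
  have h2 := hg y h1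
  have h3 := hcan_le (θ := θ) hx hyx
  omega

/-- the natural part below `n0` -/
theorem Lad.nat_low (L : Lad i n0 R b θ B) {n : ℕ} (hn : n < n0) :
    (1 + X : ℤ[X]) ^ (∑ t, b t) ∣ Z {x : P // x ∉ R} i n := by
  classical
  have hgood : Good i R B R := ⟨L.low, Subset.refl R, L.lev, L.base⟩
  have h1 := clean_good topOf L.cp b θ B L.data hgood n hn
  rwa [ZB_off L.low L.lev] at h1

/-- the natural part at `n0` -/
theorem Lad.nat_lv (L : Lad i n0 R b θ B) (h0 : 1 ≤ n0) (hb : ∀ t, 1 ≤ b t)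
    (hne : Nonempty (Tops P)) (hsum : ∑ t, b t = (lv P i).card) (ρ : Tops P → ℤ)
    (hpl : ∀ t, (ρ t = 0 ∧ (1 + X : ℤ[X]) ^ b t ∣
        Z {x : {x : P // x ∉ R} // topOf (x : P) = t} i n0) ∨
      ∀ f, (∀ n, exq n f = Z {x : {x : P // x ∉ R} // topOf (x : P) = t} i n) →
        Pl n0 (b t) (ρ t) f) :
    Lv (lv P i).card (Z {x : P // x ∉ R} i n0) ((∑ t, ρ t) * (-1) ^ below P i) := by
  classical
  have hc : ∀ x y : {x : P // x ∉ R}, x ≤ y → topOf (x : P) = topOf (y : P) := fun x y hxy =>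
    L.cp x y hxy x.2
  choose f hf hf' using fun k => exists_norm {x : {x : P // x ∉ R} // topOf (x : P) = k} i
  have hprod := Z_prod (fun x : {x : P // x ∉ R} => topOf (x : P)) hc i f hf
  have hR' : ∀ x : {x : P // x ∉ R}, Pool.Agent.GaussPoset.lev x =
      Pool.Agent.GaussPoset.lev (x : P) :=
    lev_subtype (p := fun x => x ∉ R) (fun x y hxy hx => fun h => hx (L.low x y hxy h))
  have hcount : ∀ g : ℕ → Prop, ∀ _ : DecidablePred g, (∀ l, g l → l ≤ i) →
      (univ.filter (fun x : P => g (Pool.Agent.GaussPoset.lev x))).card =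
      (univ.filter (fun x : {x : P // x ∉ R} => g (Pool.Agent.GaussPoset.lev x))).card := by
    intro g _ hg
    refine (Finset.card_bij (fun (x : {x : P // x ∉ R}) _ => (x : P)) ?_ ?_ ?_).symm
    · intro x hx
      rw [mem_filter] at hx ⊢
      rw [← hR']
      exact ⟨mem_univ _, hx.2⟩
    · intro x _ y _ h
      exact Subtype.ext h
    · intro x hx
      rw [mem_filter] at hx
      have hxR : x ∉ R := fun h => by
        have := L.lev x h
        have := hg _ hx.2
        omega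
      exact ⟨⟨x, hxR⟩, by rw [mem_filter, hR']; exact ⟨mem_univ _, hx.2⟩, rfl⟩
  have hlv : (lv P i).card = (lv {x : P // x ∉ R} i).card :=
    hcount (fun l => l = i) inferInstance (fun l hl => hl.le)
  have hbel : below P i = below {x : P // x ∉ R} i :=
    hcount (fun l => l < i) inferInstance (fun l hl => le_of_lt hl)
  have hlv2 := card_lv_prod (fun x : {x : P // x ∉ R} => topOf (x : P)) hc i
  have hz0 : ∀ k, exq 0 (f k) =
      X ^ (below {x : {x : P // x ∉ R} // topOf (x : P) = k} i) *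
        (1 + X) ^ (lv {x : {x : P // x ∉ R} // topOf (x : P) = k} i).card := fun k => by
    rw [hf', Z_zero]
  have hgood : Good i R B R := ⟨L.low, Subset.refl R, L.lev, L.base⟩
  have hle : ∀ k ∈ (univ : Finset (Tops P)), b k ≤
      (lv {x : {x : P // x ∉ R} // topOf (x : P) = k} i).card := by
    intro k _
    have h4 := (L.data k).clean R hgood inferInstance 0 (by omega)
    rw [Z_zero] at h4
    exact le_of_pow_dvd h4
  have heq := (Finset.sum_eq_sum_iff_of_le hle).mp (by rw [hsum, hlv, hlv2])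
  obtain ⟨t0⟩ := hne
  have hP : Pl n0 (∑ k, b k) (∑ k, ρ k) (∏ k, f k) := by
    refine Pl.prod h0 univ ⟨t0, mem_univ _⟩ fun k hk => ?_
    rcases hpl k with ⟨h4, h5⟩ | h4
    · rw [h4]
      refine Pl.of_low (hb k) (fun n hn => ?_) (m := below
        {x : {x : P // x ∉ R} // topOf (x : P) = k} i) ?_
      · rw [hf']
        rcases Nat.lt_or_ge n n0 with h6 | h6
        · exact (L.data k).clean R hgood inferInstance n h6
        · obtain rfl : n = n0 := by omega
          exact h5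
      · rw [hz0, heq k hk]
    · exact h4 (f k) (hf' k)
  obtain ⟨v, s, hv, -, hs, hs1⟩ := hP.ex
  rw [← hprod, hsum] at hs
  rw [← hprod, Z_zero, ← hbel, ← hlv, hsum, mul_comm] at hv
  have hvv : v = X ^ below P i := (mul_left_cancel₀ (one_add_X_pow_ne _) hv).symm
  refine ⟨s, hs, ?_⟩
  rw [hs1, hvv, eval_pow, eval_X]

end Lad

end Pool.Agent.GaussPoset.J8

end

/-! From `Pool.Agent.W_448j10_h67.JbC` -/

section

/-!
Coded components with missing cells: order, thresholds, local data, poles (MP_448cb3_co).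
-/

namespace Pool.Agent.GaussPoset.J10

set_option linter.unusedSectionVars false

open Polynomial Finset Cl Dd Sg

universe u

/-- an entry: energy, sign, then `(J, ℓ, M, exponent, coefficient)` -/
abbrev Ent := ℕ × (Bool × (ℕ × ℕ × ℕ × ℕ × ℕ))

/-- order two below this energy -/
def rch (y : Ent) : ℕ := if y.2.2.2.2.2.2 = 0 then y.1 + 1 else y.1

/-- the check of the list: the energies, all up-sets above the mask `bm` occur -/
def mstC (N K i : ℕ) (lv : ℕ → ℕ) (Us : List ℕ) (bm : ℕ) (L : List Ent) : Bool :=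
  (L.all fun y => numC N K i y.1 lv y.2.2) &&
  (Us.all fun J => !(Nat.beq (Nat.land bm J) bm) || L.any fun y => Nat.beq y.2.2.1 J)

/-- all listed up-sets in `J0` have order two below `w` -/
def mskC (L : List Ent) (J0 w : ℕ) : Bool :=
  L.all fun y => !(Nat.beq (Nat.land y.2.2.1 J0) y.2.2.1) || Nat.ble w (rch y)

variable {P : Type u} [Fintype P] [PartialOrder P] [DecidableEq P]
variable {N J0 : ℕ} {cv lv um th : ℕ → ℕ} {c : ℕ → P} {Us : List ℕ}

/-- order two of all up-sets above the base -/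
theorem CodM.clean (C : CodM N J0 cv lv c) (hU : UsOK N cv Us) {B i K bm w : ℕ} {L : List Ent}
    (h : polD N B K Us i (L.map Prod.snd) = true) (hm : mstC N K i lv Us bm L = true)
    (hw : mskC L J0 w = true) (hbm : Sm bm J0) {I : Finset P}
    (hI : ∀ x ∈ I, ∃ a, J0.testBit a = true ∧ c a = x) (hup : Up I)
    (hb : ∀ a, bm.testBit a = true → c a ∈ I) :
    ∀ n < w, (1 + X : ℤ[X]) ^ 2 ∣ Z {x : P // x ∈ I} i n := by
  unfold mstC at hm
  unfold mskC at hw
  rw [Bool.and_eq_true] at hm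
  obtain ⟨h3, h4⟩ := hm
  rw [List.all_eq_true] at h3 h4 hw
  obtain ⟨J, hJ, hJ0, rfl⟩ := C.exists_code hU hI hup
  have h6 : Nat.land bm J = bm := by
    rw [sm_iff]
    intro a ha
    exact (C.mem_iff hJ0 (hbm a ha)).mp (hb a ha)
  have h5 := h4 J hJ
  rw [h6, Nat.beq_refl] at h5
  have h7 : (L.any fun x => Nat.beq x.2.2.1 J) = true := by simpa using h5
  rw [List.any_eq_true] at h7
  obtain ⟨y, hy, hyJ⟩ := h7
  have h8 : y.2.2.1 = J := Nat.eq_of_beq_eq_true hyJ
  have h9 := h3 _ hy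
  have h10 := hw _ hy
  have h11 : Nat.land y.2.2.1 J0 = y.2.2.1 := by rw [h8, sm_iff]; exact hJ0
  rw [h11, Nat.beq_refl] at h10
  have h12 : w ≤ rch y := Nat.le_of_ble_eq_true (by simpa using h10)
  have hy2 : y.2 ∈ L.map Prod.snd := List.mem_map_of_mem hy
  intro n hn
  rw [← h8] at hJ hJ0 ⊢
  unfold rch at h12
  split_ifs at h12 with hc
  · exact C.low hU h hy2 hJ hJ0 h9 hc n (by omega)
  · exact (C.val hU h hy2 hJ hJ0 h9).1 n (by omega)

lemma CodM.cv_lt (C : CodM N J0 cv lv c) (hU : ∀ a < N, cv a < 2 ^ a) {a k : ℕ}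
    (ha : J0.testBit a = true) (hk : (cv a).testBit k = true) : k < a ∧ J0.testBit k = true :=
  ⟨bit_lt (hU a (bit_lt C.lt ha)) hk, sm_iff.mp (C.clo a ha) k hk⟩

/-- the order of the cells from the masks -/
lemma CodM.le_iff (C : CodM N J0 cv lv c) (hcv : ∀ a < N, cv a < 2 ^ a)
    (hum : ∀ a < N, um a = Nat.lor (2 ^ a) (orM um N (cv a))) {a b : ℕ}
    (ha : J0.testBit a = true) (hb : J0.testBit b = true) :
    c a ≤ c b ↔ (um a).testBit b = true := by
  have key : ∀ a, J0.testBit a = true → ∀ b, J0.testBit b = true →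
      (c a ≤ c b ↔ (um a).testBit b = true) := by
    intro a
    induction a using Nat.strong_induction_on with
    | _ a ih =>
      intro ha b hb
      have haN := bit_lt C.lt ha
      have h1 : (um a).testBit b = ((2 ^ a).testBit b || (orM um N (cv a)).testBit b) := by
        conv_lhs => rw [hum a haN]
        exact Nat.testBit_or _ _ _
      rw [h1, Bool.or_eq_true, orM_testBit]
      constructor
      · intro h
        rcases eq_or_lt_of_le h with h2 | h2
        · left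
          rw [← C.inj a ha b hb h2]
          exact Nat.testBit_two_pow_self
        · right
          obtain ⟨v, hv, hvb⟩ := Hul.exists_cov h2
          obtain ⟨k, hk, h3, rfl⟩ := (C.cov a ha v).mp hv
          exact ⟨k, bit_lt C.lt hk, h3, (ih k (C.cv_lt hcv ha h3).1 hk b hb).mp hvb⟩
      · rintro (h | ⟨k, hk, h3, h4⟩)
        · have h5 : a = b := by
            by_contra hne
            rw [Nat.testBit_two_pow_of_ne hne] at h
            exact absurd h (by simp)
          rw [h5]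
        · obtain ⟨hka, hk0⟩ := C.cv_lt hcv ha h3
          exact ((C.cov a ha (c k)).mpr ⟨k, hk0, h3, rfl⟩).le.trans ((ih k hka hk0 b hb).mpr h4)
  exact key a ha b hb

/-- the elements above a cell are cells -/
lemma CodM.above (C : CodM N J0 cv lv c) {a : ℕ} (ha : J0.testBit a = true) {y : P}
    (hy : c a ≤ y) : ∃ b, J0.testBit b = true ∧ c b = y := by
  classical
  have hup : Up ((univ : Finset P).filter (fun x => ∃ a, J0.testBit a = true ∧ c a = x)) := by
    refine Cl.up_of_cov fun x hx y hxy => ?_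
    rw [mem_filter] at hx ⊢
    obtain ⟨-, b, hb, rfl⟩ := hx
    obtain ⟨d, hd, -, rfl⟩ := (C.cov b hb y).mp hxy
    exact ⟨mem_univ _, d, hd, rfl⟩
  have h1 := hup (c a) (mem_filter.mpr ⟨mem_univ _, a, ha, rfl⟩) y hy
  exact (mem_filter.mp h1).2

/-- the cost of an element whose covers are coded -/
lemma CodM.ct_of (C : CodM N J0 cv lv c) (hcv : ∀ a < N, cv a < 2 ^ a)
    (hum : ∀ a < N, um a = Nat.lor (2 ^ a) (orM um N (cv a))) {z : P} {m : ℕ}
    (hm : Sm m J0) (hz : ∀ y, z ⋖ y ↔ ∃ b, m.testBit b = true ∧ c b = y) (i k : ℕ) :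
    ct i k z = min k (GaussPoset.lev z - i) + ∑ b ∈ (range N).filter
      (fun b => (orM um N m).testBit b = true ∧ J0.testBit b = true), min k (lv b - i) := by
  classical
  rw [ct_succ]
  congr 1
  have hlt : ∀ y, z < y ↔ ∃ b, ((orM um N m).testBit b = true ∧ J0.testBit b = true) ∧
      c b = y := by
    intro y
    constructor
    · intro h
      obtain ⟨v, hv, hvy⟩ := Hul.exists_cov h
      obtain ⟨a, hab, rfl⟩ := (hz v).mp hv
      obtain ⟨b, hb, rfl⟩ := C.above (hm a hab) hvy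
      exact ⟨b, ⟨(orM_testBit _ _ _ _).mpr ⟨a, bit_lt C.lt (hm a hab), hab,
        (C.le_iff hcv hum (hm a hab) hb).mp hvy⟩, hb⟩, rfl⟩
    · rintro ⟨b, ⟨hbit, hb⟩, rfl⟩
      obtain ⟨a, ha, hab, h1⟩ := (orM_testBit _ _ _ _).mp hbit
      exact ((hz (c a)).mpr ⟨a, hab, rfl⟩).lt.trans_le ((C.le_iff hcv hum (hm a hab) hb).mpr h1)
  rw [← Finset.sum_filter]
  symm
  refine Finset.sum_bij (fun b _ => c b) ?_ ?_ ?_ ?_
  · intro b hb
    rw [mem_filter, mem_range] at hb
    rw [mem_filter]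
    exact ⟨mem_univ _, (hlt _).mpr ⟨b, hb.2, rfl⟩⟩
  · intro b hb b' hb' h
    rw [mem_filter, mem_range] at hb hb'
    exact C.inj b hb.2.2 b' hb'.2.2 h
  · intro y hy
    rw [mem_filter] at hy
    obtain ⟨b, hb, rfl⟩ := (hlt y).mp hy.2
    exact ⟨b, mem_filter.mpr ⟨mem_range.mpr (bit_lt C.lt hb.2), hb⟩, rfl⟩
  · intro b hb
    rw [mem_filter, mem_range] at hb
    rw [C.lev b hb.2.2]

/-- the thresholds of a coded set -/
noncomputable def thM (N J0 : ℕ) (c : ℕ → P) (th : ℕ → ℕ) (x : P) : ℕ :=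
  ∑ a ∈ (range N).filter (fun a => J0.testBit a = true), if c a = x then th a else 0

lemma thM_c (C : CodM N J0 cv lv c) (th : ℕ → ℕ) {a : ℕ} (ha : J0.testBit a = true) :
    thM N J0 c th (c a) = th a := by
  unfold thM
  rw [Finset.sum_eq_single a]
  · rw [if_pos rfl]
  · intro b hb hne
    rw [mem_filter] at hb
    rw [if_neg fun h => hne (C.inj b hb.2 a ha h)]
  · intro h
    exact absurd (mem_filter.mpr ⟨mem_range.mpr (bit_lt C.lt ha), ha⟩) h

/-- local data of a coded set -/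
theorem CodM.locL (C : CodM N J0 cv lv c) (hU : UsOK N cv Us) {B i K bm w a0 : ℕ}
    {L : List Ent} (hth : thChk N i a0 lv cv um th = true) (ha0 : J0.testBit a0 = true)
    {S : Finset P} (hS : ∀ x, x ∈ S ↔ ∃ a, J0.testBit a = true ∧ c a = x)
    (h : polD N B K Us i (L.map Prod.snd) = true) (hm : mstC N K i lv Us bm L = true)
    (hw : mskC L J0 w = true) (hbn : Sm bm J0) (hbm : bmC N i a0 bm lv um = true) :
    LocL i 2 w S (thM N J0 c th) (fun x => x = c a0) := by
  have hth' := hth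
  unfold thChk at hth
  simp only [Bool.and_eq_true, List.all_eq_true, List.mem_range, Bool.or_eq_true, ble_iff,
    beq_iff, Nat.blt_eq, Bool.not_eq_true'] at hth
  obtain ⟨⟨h1, h2⟩, h3⟩ := hth
  have hle : ∀ {a b : ℕ}, J0.testBit a = true → J0.testBit b = true →
      (c a ≤ c b ↔ (um a).testBit b = true) := fun ha hb => C.le_iff hU.cv h1 ha hb
  have hpos : ∀ x ∈ S, 1 ≤ thM N J0 c th x → ∃ a, J0.testBit a = true ∧ c a = x ∧
      i < lv a ∧ (um a0).testBit a = false ∧ th a ≤ lv a - i ∧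
      ∀ y < N, (um y).testBit a = false ∨ ∀ x' < N, ((cv y).testBit x' = false ∨
        (um x').testBit a = true) ∨ th a ≤ th x' + 1 := by
    intro x hx h4
    obtain ⟨a, ha, rfl⟩ := (hS x).mp hx
    rw [thM_c C th ha] at h4
    rcases h2 a (bit_lt C.lt ha) with h5 | ⟨⟨⟨h5, h6⟩, h7⟩, h8⟩
    · omega
    · exact ⟨a, ha, rfl, h5, h6, h7, h8⟩
  constructor
  · intro U hUS hup hlow hB
    refine C.clean hU h hm hw hbn (fun x hx => (hS x).mp (hUS hx)) hup ?_
    intro a hab
    have ha := hbn a hab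
    unfold bmC at hbm
    simp only [List.all_eq_true, List.mem_range, Bool.or_eq_true, ble_iff,
      Bool.not_eq_true'] at hbm
    rcases hbm a (bit_lt C.lt ha) with (h5 | h5) | h5
    · rw [hab] at h5
      exact absurd h5 (by simp)
    · refine hlow _ ((hS _).mpr ⟨a, ha, rfl⟩) ?_
      rw [C.lev a ha]
      exact h5
    · exact hup _ (hB _ ((hS _).mpr ⟨a0, ha0, rfl⟩) rfl) _ ((hle ha0 ha).mpr h5)
  · intro x hx h4
    obtain ⟨a, ha, rfl, h5, -⟩ := hpos x hx h4
    rw [C.lev a ha]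
    exact h5
  · rintro x hx h4 y hy hyx rfl
    obtain ⟨a, ha, rfl, -, h6, -⟩ := hpos x hx h4
    rw [hle ha0 ha, h6] at hyx
    exact absurd hyx (by simp)
  · intro x hx h4 y hy hyx x' hx' hyx' hn'
    obtain ⟨a, ha, rfl, -, -, -, h8⟩ := hpos x hx h4
    obtain ⟨y, hy', rfl⟩ := (hS y).mp hy
    obtain ⟨x', hxn', hcx, rfl⟩ := (C.cov y hy' x').mp hyx'
    rw [thM_c C th ha, thM_c C th hxn']
    rcases h8 y (bit_lt C.lt hy') with h9 | h9
    · rw [hle hy' ha, h9] at hyx
      exact absurd hyx (by simp)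
    · rcases h9 x' (bit_lt C.lt hxn') with (h10 | h10) | h10
      · rw [hcx] at h10
        exact absurd h10 (by simp)
      · exact absurd ((hle hxn' ha).mpr h10) hn'
      · exact h10
  · intro x hx
    rcases Nat.eq_zero_or_pos (thM N J0 c th x) with h4 | h4
    · rw [h4]; exact Nat.zero_le _
    · obtain ⟨a, ha, rfl, -, -, h7, -⟩ := hpos x hx h4
      rw [thM_c C th ha, C.lev a ha]
      exact h7

/-- counting the elements of a coded set by the level -/
lemma CodM.count (C : CodM N J0 cv lv c) {S : Finset P}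
    (hS : ∀ y, y ∈ S ↔ ∃ a, J0.testBit a = true ∧ c a = y) (g : ℕ → Prop) [DecidablePred g] :
    (univ.filter (fun y : {y : P // y ∈ S} => g (GaussPoset.lev y))).card =
      ((range N).filter (fun a => J0.testBit a = true ∧ g (lv a))).card := by
  classical
  have hup : Up S := by
    intro x hx y hxy
    rw [hS] at hx ⊢
    obtain ⟨a, ha, rfl⟩ := hx
    exact C.above ha hxy
  have hlv : ∀ y : {y : P // y ∈ S}, GaussPoset.lev y = GaussPoset.lev (y : P) :=
    lev_subtype (p := fun y => y ∈ S) (fun x y hxy hx => hup x hx y hxy)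
  have h1 : S = toS N c J0 := by
    ext x
    rw [hS, mem_toS]
    exact ⟨fun ⟨a, h2, h3⟩ => ⟨a, bit_lt C.lt h2, h2, h3⟩, fun ⟨a, _, h2, h3⟩ => ⟨a, h2, h3⟩⟩
  have h2 : ∑ y : {y : P // y ∈ S}, (if g (GaussPoset.lev (y : P)) then 1 else 0)
      = ∑ y ∈ S, (if g (GaussPoset.lev y) then 1 else 0) :=
    Finset.sum_coe_sort S (fun y => if g (GaussPoset.lev y) then 1 else 0)
  have h3 : ∑ y : {y : P // y ∈ S}, (if g (GaussPoset.lev y) then 1 else 0) =
      ∑ y : {y : P // y ∈ S}, (if g (GaussPoset.lev (y : P)) then 1 else 0) :=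
    Finset.sum_congr rfl fun y _ => by rw [hlv]
  rw [Finset.card_filter, h3, h2, h1, C.sum_lev (fun _ h => h) (fun l => if g l then 1 else 0),
    Finset.card_filter, Finset.sum_filter]
  refine Finset.sum_congr rfl fun a _ => ?_
  by_cases h4 : J0.testBit a = true <;> simp [h4]

/-- the value of a complete coded set -/
theorem CodM.pole (C : CodM N J0 cv lv c) (hU : UsOK N cv Us) {B i K : ℕ}
    {L : List Ent} (h : polD N B K Us i (L.map Prod.snd) = true) {bm : ℕ}
    (hm : mstC N K i lv Us bm L = true) {y : Ent} (hy : y ∈ L) (hJ : y.2.2.1 ∈ Us)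
    (hJ0 : y.2.2.1 = J0) {S : Finset P} (hS : ∀ y, y ∈ S ↔ ∃ a, J0.testBit a = true ∧ c a = y)
    {β : ℕ} (h7 : ((range N).filter (fun a => J0.testBit a = true ∧ lv a < i)).card = β)
    (h8 : ((range N).filter (fun a => J0.testBit a = true ∧ lv a = i)).card = 2) {ρ : ℤ}
    (hρ : sgn y.2.2.2.1 y.2.2.2.2.1 i * sc y.2.1 y.2.2.2.2.2.2 = ρ * (-1) ^ β)
    {f : Polynomial (PowerSeries ℤ)} (hf : ∀ n, exq n f = Z {y : P // y ∈ S} i n) :
    Pl y.1 2 ρ f := by
  classical
  unfold mstC at hm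
  rw [Bool.and_eq_true, List.all_eq_true] at hm
  have hSe : toS N c y.2.2.1 = S := by
    ext x
    rw [mem_toS, hS, hJ0]
    exact ⟨fun ⟨a, _, h2, h3⟩ => ⟨a, h2, h3⟩, fun ⟨a, h2, h3⟩ => ⟨a, bit_lt C.lt h2, h2, h3⟩⟩
  have h10 := C.val hU h (List.mem_map_of_mem hy) hJ (fun a ha => by rw [← hJ0]; exact ha)
    (hm.1 _ hy)
  rw [hSe] at h10
  obtain ⟨h11, s, h12, h13⟩ := h10
  rw [hρ] at h13
  have hbelow : below {y : P // y ∈ S} i = β := by
    unfold below
    rw [C.count hS (fun l => l < i)]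
    exact h7
  have hlv7 : (GaussPoset.lv {y : P // y ∈ S} i).card = 2 := by
    unfold GaussPoset.lv
    rw [C.count hS (fun l => l = i)]
    exact h8
  have h0 : exq 0 f = X ^ β * (1 + X) ^ 2 := by
    rw [hf, Z_zero, hbelow, hlv7]
  refine ⟨fun m hm => ?_, by norm_num, X ^ β, s, by rw [h0, mul_comm], ?_, ?_, ?_⟩
  · rw [hf]
    exact h11 m hm
  · rw [eval_pow, eval_X]
    exact pow_ne_zero _ (by norm_num)
  · rw [hf, h12]
    simp
  · rw [h13, eval_pow, eval_X]

end Pool.Agent.GaussPoset.J10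

end

/-! From `Pool.Agent.W_448j10_h67.JbG` -/

section

/-!
The strip `E7` at level 10 with elements of level 11: certificate for the window 5,
energies up to 32.
-/

namespace Pool.Agent.GaussPoset.J10

open Cl Dd Sg

/-- the up-sets -/
def Mcus : List ℕ := [8388607, 7864319, 7340031, 6815743, 6291455, 5767167, 5242879, 4718591, 4194303, 3670015, 3145727, 2621439, 2097151, 1835007, 1769471, 1753087, 1572863, 1310719, 1245183, 1228799, 1048575, 786431, 720895, 704511, 524287, 393215, 262143, 196607, 180223, 131071, 98303, 94207, 65535, 49151, 32767, 28671, 24575, 20479, 19455, 19199, 19135, 16383, 12287, 8191, 6143, 4095, 3071, 2815, 2751, 2047, 1023, 767, 703, 511, 255, 191, 127, 95, 63, 47, 31, 15, 7, 3, 1, 0]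

/-- the covers -/
def Mccv : List ℕ := [0, 1, 2, 4, 8, 8, 16, 48, 192, 128, 768, 512, 1024, 3072, 2048, 12288, 24576, 32768, 98304, 131072, 131072, 393216, 393216]

/-- the levels -/
def Mclv : List ℕ := [0, 1, 2, 3, 4, 4, 5, 5, 6, 6, 7, 7, 8, 8, 8, 9, 9, 10, 10, 11, 11, 11, 11]

/-- the cells above -/
def Mcum : List ℕ := [1, 3, 7, 15, 31, 47, 95, 191, 511, 703, 2047, 2751, 6143, 12287, 19135, 49151, 94207, 180223, 393215, 704511, 1228799, 2621439, 4718591]

/-- the thresholds -/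
def Mcth : List ℕ := [0, 0, 0, 0, 0, 0, 0, 0, 0, 0, 0, 0, 1, 0, 0, 1, 0, 2, 1, 3, 3, 2, 2]

/-- the up-sets above the base: energy, code, `ℓ`, `M`, exponent, coefficient -/
def McL : List Ent := [(27, true, 8388607, 12, 11, 147, 1), (32, false, 7864319, 12, 10, 136, 0), (32, false, 7340031, 12, 10, 136, 0), (32, false, 6815743, 12, 9, 121, 0), (27, true, 6291455, 12, 10, 131, 1), (32, false, 5767167, 12, 9, 121, 0), (32, false, 5242879, 12, 9, 121, 0), (32, false, 4718591, 12, 8, 107, 0), (27, true, 4194303, 12, 10, 131, 1), (32, false, 3670015, 12, 9, 121, 0), (32, false, 3145727, 12, 9, 121, 0), (32, false, 2621439, 12, 8, 107, 0), (27, true, 2097151, 12, 9, 116, 1), (27, true, 1835007, 12, 8, 102, 1), (32, false, 1572863, 12, 8, 107, 0), (32, false, 1310719, 12, 7, 94, 0), (32, false, 1048575, 12, 8, 107, 0), (32, false, 786431, 12, 7, 94, 0), (32, false, 524287, 11, 8, 107, 0), (32, false, 393215, 11, 7, 94, 0), (32, false, 262143, 11,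 7, 94, 0), (32, false, 131071, 10, 7, 94, 0), (32, false, 98303, 10, 6, 82, 0), (32, false, 94207, 10, 5, 71, 0)]

theorem Mc_us : UsOK 23 (fun a => Mccv.getD a 0) Mcus :=
  usOK_of_chk (by decide +kernel)

theorem Mc_pol1 : polG1 23 (2 ^ 120) 11 Mcus 5 (McL.map Prod.snd) = true := by
  decide +kernel

theorem Mc_pol2 : polG2 23 (2 ^ 120) 11 Mcus (McL.map Prod.snd) = true := by
  decide +kernel

theorem Mc_pol : polD 23 (2 ^ 120) 11 Mcus 5 (McL.map Prod.snd) = true :=
  polD_of_fast Mc_pol1 Mc_pol2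

theorem Mc_mst : mstC 23 11 5 (fun a => Mclv.getD a 0) Mcus 94207 McL = true := by
  decide +kernel

theorem Mc_th : thChk 23 5 16 (fun a => Mclv.getD a 0) (fun a => Mccv.getD a 0)
    (fun a => Mcum.getD a 0) (fun a => Mcth.getD a 0) = true := by decide +kernel

theorem Mc_bm : bmC 23 5 16 94207 (fun a => Mclv.getD a 0)
    (fun a => Mcum.getD a 0) = true := by decide +kernel

end Pool.Agent.GaussPoset.J10

end
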