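import Mathlib
import Pool.Agent.W_448zz_h61.Ns
import Pool.Agent.W_448zz_h61.M119

/-! From `Pool.Agent.W_448fc_h67.FcC` -/

section

/-!
The closed stair with a chain: the elements above a common child of the fold end and the
straight end of a stair.  Its dual at window `2 g - 1`.
-/

namespace Pool.Agent.GaussPoset

set_option linter.unusedSectionVars false

open Polynomial Finset

universe u

section General

variable {P : Type u} [Fintype P] [PartialOrder P] [DecidableEq P]

/-- lower sets which contain the unnatural elements -/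
theorem dvd_Z_off_of_tops {i : ℕ} {N : Tops P → Finset P} {b : Tops P → ℕ}
    {θ : Tops P → P → ℕ} {B : Tops P → P → Prop}
    (H : ∀ t, NatTop i t (b t) (N t) (θ t) (B t)) {D : Finset P}
    (hD : Good i (unnat N) (fun x => x ∉ unnat N ∧ B (topOf x) x) D) (n : ℕ) :
    (1 + X : ℤ[X]) ^ (∑ t, b t) ∣ Z {x : P // x ∉ D} i n := by
  classical
  have HN := natSys_of_tops H
  refine dvd_Z_of_dvd_W ?_ n
  refine dvd_W_prod (fun x : {x : P // x ∉ D} => topOf (x : P)) ?_ i b fun k => ?_
  · intro x y hxy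
    exact HN.cp x y hxy fun h => x.2 (hD.2.1 h)
  · have h1 : CompData (unnat N) topOf k i (b k) (fun x => θ (topOf x) x)
        (fun x => x ∉ unnat N ∧ B (topOf x) x) := by
      refine (H k).data N HN rfl _ _ ?_ ?_
      · intro x hx
        simp only [HN.topOf_eq hx]
      · intro x hx
        simp only [HN.topOf_eq hx, (HN.mem_iff.mp hx).1, not_false_eq_true, true_and]
    exact h1.clean D hD inferInstance

lemma Pure.gradedBelow_dual {r : ℕ} (H : Pure P r) : GradedBelow Pᵒᵈ := by
  intro a b hab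
  obtain ⟨v, hv1, hv2⟩ := exists_covBy_le (show (OrderDual.ofDual b : P) < OrderDual.ofDual a
    from hab)
  refine ⟨OrderDual.toDual v, hv2, hv1.1, ?_⟩
  have h1 := H.gr _ _ hv1
  have h2 := H.co v
  have h3 := H.co (OrderDual.ofDual b)
  have e1 : OrderDual.toDual (OrderDual.ofDual b) = b := rfl
  rw [e1] at h3
  omega

end General

/-- the cells `s ≤ c ≤ m` and `(0, c)`, `c ≤ 2 m` -/
structure TriS (T : Type u) [Fintype T] [PartialOrder T] (m : ℕ) (co : T → ℕ × ℕ) : Prop where
  inj : ∀ x y, co x = co y → x = y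
  le_iff : ∀ x y, x ≤ y ↔ co y ≤ co x
  fst_le : ∀ x, (co x).1 ≤ (co x).2
  snd_le : ∀ x, (co x).2 ≤ m ∨ ((co x).1 = 0 ∧ (co x).2 ≤ 2 * m)
  ex : ∀ s c, s ≤ c → (c ≤ m ∨ (s = 0 ∧ c ≤ 2 * m)) → ∃ x, co x = (s, c)

namespace TriS

variable {T : Type u} [Fintype T] [PartialOrder T] [DecidableEq T] {m : ℕ} {co : T → ℕ × ℕ}

lemma lt_sum (H : TriS T m co) {x y : T} (h : x < y) :
    (co y).1 + (co y).2 < (co x).1 + (co x).2 := by
  have h1 := (H.le_iff x y).mp h.le
  have h2 : co y ≠ co x := fun h' => h.ne' (H.inj _ _ h')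
  have h3 := h1.1
  have h4 := h1.2
  by_contra hcon
  exact h2 (Prod.ext (by omega) (by omega))

lemma le_of (H : TriS T m co) {x y : T} {s c : ℕ} (hy : co y = (s, c)) (h1 : s ≤ (co x).1)
    (h2 : c ≤ (co x).2) : x ≤ y := by
  rw [H.le_iff, hy]
  exact ⟨h1, h2⟩

lemma lev_eq (H : TriS T m co) (x : T) : lev x = (co x).1 + (co x).2 := by
  refine lev_eq_of (f := fun x => (co x).1 + (co x).2) (fun a b hab => H.lt_sum hab) ?_ x
  intro x hx
  have h1 := H.fst_le x
  have h2 := H.snd_le x
  rcases Nat.eq_zero_or_pos (co x).1 with h3 | h3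
  · simp only [h3] at hx
    obtain ⟨y, hy⟩ := H.ex 0 ((co x).2 - 1) (Nat.zero_le _) (by omega)
    have hle : x ≤ y := H.le_of hy (Nat.zero_le _) (Nat.sub_le _ _)
    refine ⟨y, lt_of_le_of_ne hle ?_, ?_⟩
    · rintro rfl
      rw [hy] at hx
      simp only at hx
      have := congrArg Prod.snd hy
      simp only at this
      omega
    · simp only [hy, h3]
      omega
  · obtain ⟨y, hy⟩ := H.ex ((co x).1 - 1) (co x).2 (by omega) (by omega)
    have hle : x ≤ y := H.le_of hy (Nat.sub_le _ _) le_rfl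
    refine ⟨y, lt_of_le_of_ne hle ?_, ?_⟩
    · rintro rfl
      have := congrArg Prod.fst hy
      simp only at this
      omega
    · simp only [hy]
      omega

lemma sum_le (H : TriS T m co) (x : T) : (co x).1 + (co x).2 ≤ 2 * m := by
  have h1 := H.fst_le x
  have h2 := H.snd_le x
  omega

lemma colev_eq (H : TriS T m co) (hm : 1 ≤ m) (x : T) :
    lev (OrderDual.toDual x) = 2 * m - ((co x).1 + (co x).2) := by
  have key := lev_eq_of (Q := Tᵒᵈ)
    (f := fun a => 2 * m - ((co (OrderDual.ofDual a)).1 + (co (OrderDual.ofDual a)).2)) ?_ ?_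
    (OrderDual.toDual x)
  · rw [key]
    rfl
  · intro a b hab
    have h1 := H.lt_sum (show (OrderDual.ofDual b : T) < OrderDual.ofDual a from hab)
    have h2 := H.sum_le (OrderDual.ofDual b)
    simp only
    omega
  · intro a ha
    set x := OrderDual.ofDual a with hx
    have h1 := H.fst_le x
    have h2 := H.snd_le x
    have h3 := H.sum_le x
    by_cases h4 : (co x).2 = m
    · obtain ⟨y, hy⟩ := H.ex ((co x).1 + 1) (co x).2 (by omega) (Or.inl (by omega))
      have hle : y ≤ x := by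
        rw [H.le_iff, hy]
        exact ⟨Nat.le_succ _, le_rfl⟩
      refine ⟨OrderDual.toDual y, lt_of_le_of_ne hle ?_, ?_⟩
      · intro h
        have e1 : x = y := by rw [hx, h]; rfl
        rw [← e1] at hy
        have := congrArg Prod.fst hy
        simp only at this
        omega
      · have e1 : OrderDual.ofDual (OrderDual.toDual y) = y := rfl
        simp only [e1, hy]
        omega
    · obtain ⟨y, hy⟩ := H.ex (co x).1 ((co x).2 + 1) (by omega) (by omega)
      have hle : y ≤ x := by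
        rw [H.le_iff, hy]
        exact ⟨le_rfl, Nat.le_succ _⟩
      refine ⟨OrderDual.toDual y, lt_of_le_of_ne hle ?_, ?_⟩
      · intro h
        have e1 : x = y := by rw [hx, h]; rfl
        rw [← e1] at hy
        have := congrArg Prod.snd hy
        simp only at this
        omega
      · have e1 : OrderDual.ofDual (OrderDual.toDual y) = y := rfl
        simp only [e1, hy]
        omega

lemma graded (H : TriS T m co) : GradedBelow T := by
  intro z x hzx
  have h1 := (H.le_iff z x).mp hzx.le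
  have h3 := h1.1
  have h4 := h1.2
  have h5 := H.fst_le x
  have h6 := H.fst_le z
  have h7 := H.snd_le z
  have h8 := H.lt_sum hzx
  by_cases hc : (co x).2 < (co z).2
  · obtain ⟨w, hw⟩ := H.ex (co x).1 ((co x).2 + 1) (by omega) (by omega)
    have hzw : z ≤ w := H.le_of hw h3 (by omega)
    have hwx : w ≤ x := by
      rw [H.le_iff, hw]
      exact ⟨le_rfl, Nat.le_succ _⟩
    refine ⟨w, hzw, lt_of_le_of_ne hwx ?_, ?_⟩
    · rintro rfl
      have := congrArg Prod.snd hw
      simp only at this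
      omega
    · rw [H.lev_eq, H.lev_eq, hw]
      simp only
      omega
  · obtain ⟨w, hw⟩ := H.ex ((co x).1 + 1) (co x).2 (by omega) (by omega)
    have hzw : z ≤ w := H.le_of hw (by omega) (by omega)
    have hwx : w ≤ x := by
      rw [H.le_iff, hw]
      exact ⟨Nat.le_succ _, le_rfl⟩
    refine ⟨w, hzw, lt_of_le_of_ne hwx ?_, ?_⟩
    · rintro rfl
      have := congrArg Prod.fst hw
      simp only at this
      omega
    · rw [H.lev_eq, H.lev_eq, hw]
      simp only
      omega

lemma pure (H : TriS T m co) (hm : 1 ≤ m) : Pure T (2 * m) where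
  gr := fun x y hxy => H.graded.lev_covBy hxy
  co := by
    intro x
    have h1 := H.sum_le x
    rw [H.colev_eq hm, H.lev_eq]
    omega

/-- coordinates in the dual -/
def dco (m : ℕ) (co : T → ℕ × ℕ) (a : Tᵒᵈ) : ℕ × ℕ :=
  (m - (co (OrderDual.ofDual a)).2, m - (co (OrderDual.ofDual a)).1)

open Classical in
/-- the cells of the rows `≥ 1` -/
noncomputable def dN (co : T → ℕ × ℕ) : Finset Tᵒᵈ :=
  univ.filter (fun a => 1 ≤ (co (OrderDual.ofDual a)).1)

lemma mem_dN {a : Tᵒᵈ} : a ∈ dN co ↔ 1 ≤ (co (OrderDual.ofDual a)).1 := by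
  classical
  unfold dN
  simp

/-- the chart of the dual -/
lemma dchart (H : TriS T m co) (hm : 1 ≤ m) {tF : Tᵒᵈ} (hF : co (OrderDual.ofDual tF) = (m, m)) :
    Chart tF (fun c => c.1 ≤ c.2) (dN co) (dco m co) := by
  have hle : ∀ a : Tᵒᵈ, a ∈ dN co → 1 ≤ (co (OrderDual.ofDual a)).1 ∧
      (co (OrderDual.ofDual a)).1 ≤ (co (OrderDual.ofDual a)).2 ∧
      (co (OrderDual.ofDual a)).2 ≤ m := by
    intro a ha
    rw [mem_dN] at ha
    have h1 := H.fst_le (OrderDual.ofDual a)
    have h2 := H.snd_le (OrderDual.ofDual a)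
    omega
  have hord : ∀ a b : Tᵒᵈ, a ≤ b ↔ co (OrderDual.ofDual a) ≤ co (OrderDual.ofDual b) := by
    intro a b
    exact H.le_iff (OrderDual.ofDual b) (OrderDual.ofDual a)
  constructor
  · intro x hx y hxy
    rw [hord] at hxy
    rw [mem_dN] at hx ⊢
    exact hx.trans hxy.1
  · intro x hx
    have h1 := hle x hx
    rw [hord, hF]
    exact ⟨by simp only; omega, by simp only; omega⟩
  · intro x hx y hy h
    have h1 := hle x hx
    have h2 := hle y hy
    unfold dco at h
    rw [Prod.mk.injEq] at h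
    have : OrderDual.ofDual x = OrderDual.ofDual y :=
      H.inj _ _ (Prod.ext (by omega) (by omega))
    exact this
  · intro x hx y hy
    have h1 := hle x hx
    have h2 := hle y hy
    rw [hord]
    unfold dco
    rw [Prod.le_def, Prod.le_def]
    simp only
    omega
  · intro x hx
    have h1 := hle x hx
    show m - (co (OrderDual.ofDual x)).2 ≤ m - (co (OrderDual.ofDual x)).1
    omega
  · intro x hx c hc hS
    have h1 := hle x hx
    have h2 : c.1 ≤ m - (co (OrderDual.ofDual x)).2 := hc.1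
    have h3 : c.2 ≤ m - (co (OrderDual.ofDual x)).1 := hc.2
    have h4 : c.1 ≤ c.2 := hS
    obtain ⟨y, hy⟩ := H.ex (m - c.2) (m - c.1) (by omega) (Or.inl (Nat.sub_le _ _))
    refine ⟨OrderDual.toDual y, ?_, ?_⟩
    · rw [mem_dN]
      have e1 : OrderDual.ofDual (OrderDual.toDual y) = y := rfl
      rw [e1, hy]
      simp only
      omega
    · unfold dco
      have e1 : OrderDual.ofDual (OrderDual.toDual y) = y := rfl
      rw [e1, hy]
      exact Prod.ext (by simp only; omega) (by simp only; omega)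
  · intro x hx
    have h1 := hle x hx
    have h2 := H.colev_eq hm (OrderDual.ofDual x)
    have e1 : OrderDual.toDual (OrderDual.ofDual x) = x := rfl
    rw [e1] at h2
    rw [h2]
    unfold dco
    simp only
    omega

end TriS

end Pool.Agent.GaussPoset

end

/-! From `Pool.Agent.W_448fc_h67.FcD` -/

section

/-!
The dual of the closed stair with a chain: natural sets of the two tops, far window theorem.
-/

namespace Pool.Agent.GaussPoset

set_option linter.unusedSectionVars false

open Polynomial Finset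

universe u

namespace TriS

variable {T : Type u} [Fintype T] [PartialOrder T] [DecidableEq T] {m g u : ℕ} {co : T → ℕ × ℕ}

/-- data of the top of the dual which is the fold end -/
structure FoldTop (co : T → ℕ × ℕ) (m g u : ℕ) (tF : Tops Tᵒᵈ) (N : Finset Tᵒᵈ) (θ : Tᵒᵈ → ℕ)
    (B : Tᵒᵈ → Prop) : Prop where
  nat : NatTop (2 * g - 1) tF g N θ B
  mem : ∀ a : Tᵒᵈ, 1 ≤ (co (OrderDual.ofDual a)).1 → a ∈ N
  th : ∀ a : Tᵒᵈ, co (OrderDual.ofDual a) = (1, m) → θ a = u
  th' : ∀ a : Tᵒᵈ, (co (OrderDual.ofDual a)).1 = 1 → u ≤ θ a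
  base : ∀ a, B a → u + 1 ≤ (co (OrderDual.ofDual a)).1

lemma exists_fold (H : TriS T m co) (hm : m = 2 * g + u) (hu : u ≤ 1) (hg : 1 ≤ g)
    (hgu : g = 1 → u = 0) {tF : Tops Tᵒᵈ} (hF : co (OrderDual.ofDual (tF : Tᵒᵈ)) = (m, m)) :
    ∃ N θ B, FoldTop co m g u tF N θ B := by
  have hm1 : 1 ≤ m := by omega
  have hP := H.pure hm1
  have hgr := hP.gradedBelow_dual
  have hlev : ∀ a : Tᵒᵈ, lev a = 2 * m - ((co (OrderDual.ofDual a)).1 +
      (co (OrderDual.ofDual a)).2) := fun a => H.colev_eq hm1 (OrderDual.ofDual a)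
  have hord : ∀ a b : Tᵒᵈ, a ≤ b ↔ co (OrderDual.ofDual a) ≤ co (OrderDual.ofDual b) := by
    intro a b
    exact H.le_iff (OrderDual.ofDual b) (OrderDual.ofDual a)
  have hlow : ∀ x, x ≤ (tF : Tᵒᵈ) → lev x ≤ 2 * g - 1 → 1 ≤ (co (OrderDual.ofDual x)).1 := by
    intro x hx hl
    rw [hord, hF] at hx
    have h1 : (co (OrderDual.ofDual x)).2 ≤ m := hx.2
    have h2 := H.sum_le (OrderDual.ofDual x)
    rw [hlev] at hl
    omega
  by_cases hg1 : g = 1
  · have hu0 := hgu hg1
    subst hg1 hu0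
    have honly : ∀ a : Tᵒᵈ, 1 ≤ (co (OrderDual.ofDual a)).1 → a ∈ onlyB tF := by
      intro a ha
      rw [mem_onlyB]
      intro s hs has
      rw [hord] at has
      rw [hlev] at hs
      have h1 := H.sum_le (OrderDual.ofDual s)
      have h2 := H.snd_le (OrderDual.ofDual s)
      have h3 := H.fst_le (OrderDual.ofDual s)
      have h4 := has.1
      have h5 : OrderDual.ofDual s = OrderDual.ofDual (tF : Tᵒᵈ) := by
        apply H.inj
        rw [hF]
        exact Prod.ext (by simp only; omega) (by simp only; omega)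
      exact h5
    refine ⟨onlyB tF, fun x => lev x - (2 * 1 - 1), fun _ => False, ?_, honly, ?_, ?_, ?_⟩
    · refine natTop_light hgr (fun x hx hl => honly x (hlow x hx hl)) ?_
      obtain ⟨y, hy⟩ := H.ex 1 2 (by norm_num) (Or.inl (by omega))
      refine ⟨OrderDual.toDual y, ?_, ?_⟩
      · rw [hord, hF]
        have e1 : OrderDual.ofDual (OrderDual.toDual y) = y := rfl
        rw [e1, hy]
        exact ⟨by simp only; omega, by simp only; omega⟩
      · rw [hlev]
        have e1 : OrderDual.ofDual (OrderDual.toDual y) = y := rfl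
        rw [e1, hy]
        simp only
        omega
    · intro a ha
      simp only [hlev, ha]
      omega
    · intro a _
      exact Nat.zero_le _
    · intro a h
      exact h.elim
  · have C := H.dchart hm1 hF
    have hi2 : (2 * g - 1) / 2 = g - 1 := by omega
    refine ⟨natS (dN co) (dco m co), thS (2 * g - 1) (dN co) (dco m co),
      fun x => x ∈ dN co ∧ dco m co x = (2 * ((2 * g - 1) / 2), 2 * g - 1), ?_, ?_, ?_, ?_, ?_⟩
    · have hb : g = (2 * g - 1) / 2 + 1 := by omega
      have key := natTop_stair (i := 2 * g - 1) hgr C (by omega) ?_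
        (fun x hx hl => mem_dN.mpr (hlow x hx hl))
      · rw [← hb] at key
        exact key
      · obtain ⟨y, hy⟩ := H.ex (u + 1) (u + 2) (by omega) (Or.inl (by omega))
        refine ⟨OrderDual.toDual y, ?_, ?_⟩
        · rw [mem_dN]
          have e1 : OrderDual.ofDual (OrderDual.toDual y) = y := rfl
          rw [e1, hy]
          simp only
          omega
        · unfold dco
          have e1 : OrderDual.ofDual (OrderDual.toDual y) = y := rfl
          rw [e1, hy]
          exact Prod.ext (by simp only; omega) (by simp only; omega)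
    · intro a ha
      exact mem_natS.mpr (Or.inl (mem_dN.mpr ha))
    · intro a ha
      unfold thS dco
      rw [hlev, ha]
      split_ifs <;> (try simp only) <;> omega
    · intro a ha
      have h1 := H.fst_le (OrderDual.ofDual a)
      have h2 := H.snd_le (OrderDual.ofDual a)
      unfold thS dco
      rw [hlev, ha]
      split_ifs <;> (try simp only) <;> omega
    · rintro a ⟨h1, h2⟩
      have h3 := congrArg Prod.fst h2
      have h4 := congrArg Prod.snd h2
      unfold dco at h3 h4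
      simp only at h3 h4
      have h5 := H.fst_le (OrderDual.ofDual a)
      have h6 := mem_dN.mp h1
      have h7 := H.snd_le (OrderDual.ofDual a)
      omega

end TriS

end Pool.Agent.GaussPoset

end

/-! From `Pool.Agent.W_448fc_h67.FcE` -/

section

/-!
The system of the dual and the exact first pole.
-/

namespace Pool.Agent.GaussPoset

set_option linter.unusedSectionVars false

open Polynomial Finset

universe u

lemma covBy_of_lev {Q : Type u} [Fintype Q] [PartialOrder Q] {x y : Q} (h : x < y)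
    (hl : lev x = lev y + 1) : x ⋖ y := by
  refine ⟨h, fun w h1 h2 => ?_⟩
  have h3 := lev_strictAnti h1
  have h4 := lev_strictAnti h2
  omega

/-- freezing the elements below a set of points at label zero -/
lemma cst_zero_iff {Q : Type u} [Fintype Q] [PartialOrder Q] [DecidableEq Q] {i : ℕ}
    {D : Finset Q} {V : Q → Prop} (hD : ∀ x, x ∈ D ↔ ∃ v, V v ∧ x ≤ v)
    (hV : ∀ v, V v → i < lev v) (e : Q → ℕ) (F : Finset Q) :
    Cst i D 0 0 e F ↔ Vd i e F ∧ ∀ v, V v → e v = 0 := by
  constructor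
  · rintro ⟨h1, h2, -⟩
    exact ⟨h1, fun v hv => (h2 v ((hD v).mpr ⟨v, hv, le_rfl⟩)).2⟩
  · rintro ⟨h1, h2⟩
    refine ⟨h1, ?_, fun x _ hx => by simpa using h1.2.1 x hx⟩
    intro x hx
    obtain ⟨v, hv, hxv⟩ := (hD x).mp hx
    have hvF : v ∉ F := by
      intro h
      have h3 := sub_le_of_mem h1 h
      rw [h2 v hv] at h3
      have := hV v hv
      omega
    have hxF : x ∉ F := fun h => hvF (h1.1 x v hxv h)
    have hlx : i < lev x := by
      rcases eq_or_lt_of_le hxv with h | h
      · rw [h]; exact hV v hv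
      · exact (hV v hv).trans (lev_strictAnti h)
    refine ⟨hxF, ?_⟩
    have h3 := h1.2.2.1 x v hxv hxF hvF
    rw [rho_of_lt hlx, rho_of_lt (hV v hv), h2 v hv] at h3
    have h4 : e x = 0 := by omega
    exact h4

namespace TriS

variable {T : Type u} [Fintype T] [PartialOrder T] [DecidableEq T] {m g u : ℕ} {co : T → ℕ × ℕ}

lemma dlev (H : TriS T m co) (hm1 : 1 ≤ m) (a : Tᵒᵈ) : lev a =
    2 * m - ((co (OrderDual.ofDual a)).1 + (co (OrderDual.ofDual a)).2) :=
  H.colev_eq hm1 (OrderDual.ofDual a)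

lemma dle (H : TriS T m co) (a b : Tᵒᵈ) :
    a ≤ b ↔ co (OrderDual.ofDual a) ≤ co (OrderDual.ofDual b) :=
  H.le_iff (OrderDual.ofDual b) (OrderDual.ofDual a)

lemma dinj (H : TriS T m co) {a b : Tᵒᵈ} (h : co (OrderDual.ofDual a) = co (OrderDual.ofDual b)) :
    a = b := H.inj _ _ h

lemma dex (H : TriS T m co) (s c : ℕ) (h1 : s ≤ c) (h2 : c ≤ m ∨ (s = 0 ∧ c ≤ 2 * m)) :
    ∃ a : Tᵒᵈ, co (OrderDual.ofDual a) = (s, c) := by
  obtain ⟨x, hx⟩ := H.ex s c h1 h2
  exact ⟨OrderDual.toDual x, hx⟩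

/-- the system of the dual -/
structure Sys (co : T → ℕ × ℕ) (m g u : ℕ) (N : Tops Tᵒᵈ → Finset Tᵒᵈ) (b : Tops Tᵒᵈ → ℕ)
    (θ : Tops Tᵒᵈ → Tᵒᵈ → ℕ) (B : Tops Tᵒᵈ → Tᵒᵈ → Prop) : Prop where
  nat : ∀ t, NatTop (2 * g - 1) t (b t) (N t) (θ t) (B t)
  sum_b : ∑ t, b t = g + 1
  un : ∀ a, a ∈ unnat N ↔ (co (OrderDual.ofDual a)).1 = 0 ∧ (co (OrderDual.ofDual a)).2 ≤ m
  th1 : ∀ a, co (OrderDual.ofDual a) = (1, m) → θ (topOf a) a = u
  th1' : ∀ a, (co (OrderDual.ofDual a)).1 = 1 → u ≤ θ (topOf a) a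
  th0 : ∀ a, co (OrderDual.ofDual a) = (0, m + 1) → θ (topOf a) a = u
  base : ∀ a, a ∉ unnat N → B (topOf a) a → u + 1 ≤ (co (OrderDual.ofDual a)).1

theorem exists_sys (H : TriS T m co) (hm : m = 2 * g + u) (hu : u ≤ 1) (hg : 1 ≤ g)
    (hgu : g = 1 → u = 0) : ∃ N b θ B, Sys co m g u N b θ B := by
  classical
  have hm1 : 1 ≤ m := by omega
  have hP := H.pure hm1
  have hgr := hP.gradedBelow_dual
  obtain ⟨xF, hxF⟩ := H.dex m m le_rfl (Or.inl le_rfl)
  obtain ⟨xS, hxS⟩ := H.dex 0 (2 * m) (Nat.zero_le _) (Or.inr ⟨rfl, le_rfl⟩)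
  have hF0 : lev xF = 0 := by rw [H.dlev hm1, hxF]; simp only; omega
  have hS0 : lev xS = 0 := by rw [H.dlev hm1, hxS]; simp only; omega
  let tF : Tops Tᵒᵈ := ⟨xF, hF0⟩
  let tS : Tops Tᵒᵈ := ⟨xS, hS0⟩
  have hFS : tF ≠ tS := by
    intro h
    have h1 : xF = xS := congrArg Subtype.val h
    rw [h1, hxS, Prod.mk.injEq] at hxF
    omega
  have htop : ∀ t : Tops Tᵒᵈ, t = tF ∨ t = tS := by
    intro t
    have h0 := t.2
    rw [H.dlev hm1] at h0
    have h1 := H.sum_le (OrderDual.ofDual (t : Tᵒᵈ))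
    have h2 := H.snd_le (OrderDual.ofDual (t : Tᵒᵈ))
    have h3 := H.fst_le (OrderDual.ofDual (t : Tᵒᵈ))
    rcases Nat.lt_or_ge m (co (OrderDual.ofDual (t : Tᵒᵈ))).2 with h4 | h4
    · right
      apply Subtype.ext
      apply H.dinj
      show co (OrderDual.ofDual (t : Tᵒᵈ)) = co (OrderDual.ofDual xS)
      rw [hxS]
      exact Prod.ext (by simp only; omega) (by simp only; omega)
    · left
      apply Subtype.ext
      apply H.dinj
      show co (OrderDual.ofDual (t : Tᵒᵈ)) = co (OrderDual.ofDual xF)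
      rw [hxF]
      exact Prod.ext (by simp only; omega) (by simp only; omega)
  obtain ⟨NF, θF, BF, HF⟩ := H.exists_fold hm hu hg hgu (tF := tF) hxF
  -- the straight end
  have honlyS : ∀ a : Tᵒᵈ, m < (co (OrderDual.ofDual a)).2 → a ∈ onlyB tS := by
    intro a ha
    rw [mem_onlyB]
    intro s hs has
    rcases htop ⟨s, hs⟩ with h | h
    · exfalso
      have h1 : s = xF := congrArg Subtype.val h
      rw [h1, H.dle, hxF] at has
      have := has.2
      simp only at this
      omega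
    · exact congrArg Subtype.val h
  have HS : NatTop (2 * g - 1) tS 1 (onlyB tS) (fun x => lev x - (2 * g - 1)) (fun _ => False) := by
    refine natTop_light hgr ?_ ?_
    · intro x hx hl
      apply honlyS
      have h1 := (H.dle x xS).mp hx
      rw [hxS] at h1
      have h2 := h1.1
      simp only at h2
      rw [H.dlev hm1] at hl
      omega
    · obtain ⟨y, hy⟩ := H.dex 0 (m + u + 1) (Nat.zero_le _) (Or.inr ⟨rfl, by omega⟩)
      refine ⟨y, ?_, ?_⟩
      · show y ≤ xS
        rw [H.dle, hy, hxS]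
        exact ⟨le_rfl, by simp only; omega⟩
      · rw [H.dlev hm1, hy]
        simp only
        omega
  let N : Tops Tᵒᵈ → Finset Tᵒᵈ := fun t => if t = tF then NF else onlyB tS
  let b : Tops Tᵒᵈ → ℕ := fun t => if t = tF then g else 1
  let θ : Tops Tᵒᵈ → Tᵒᵈ → ℕ := fun t => if t = tF then θF else fun x => lev x - (2 * g - 1)
  let B : Tops Tᵒᵈ → Tᵒᵈ → Prop := fun t => if t = tF then BF else fun _ => False
  have hNF : N tF = NF := if_pos rfl
  have hNS : N tS = onlyB tS := if_neg hFS.symm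
  have hnat : ∀ t, NatTop (2 * g - 1) t (b t) (N t) (θ t) (B t) := by
    intro t
    rcases htop t with h | h
    · subst h
      show NatTop (2 * g - 1) tF (if tF = tF then g else 1) (if tF = tF then NF else onlyB tS)
        (if tF = tF then θF else fun x => lev x - (2 * g - 1))
        (if tF = tF then BF else fun _ => False)
      rw [if_pos rfl, if_pos rfl, if_pos rfl, if_pos rfl]
      exact HF.nat
    · subst h
      show NatTop (2 * g - 1) tS (if tS = tF then g else 1) (if tS = tF then NF else onlyB tS)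
        (if tS = tF then θF else fun x => lev x - (2 * g - 1))
        (if tS = tF then BF else fun _ => False)
      rw [if_neg hFS.symm, if_neg hFS.symm, if_neg hFS.symm, if_neg hFS.symm]
      exact HS
  have HN := natSys_of_tops hnat
  have hun : ∀ a, a ∈ unnat N ↔
      (co (OrderDual.ofDual a)).1 = 0 ∧ (co (OrderDual.ofDual a)).2 ≤ m := by
    intro a
    rw [mem_unnat]
    constructor
    · intro h
      have h1 := h tF
      have h2 := h tS
      rw [hNF] at h1
      rw [hNS] at h2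
      constructor
      · by_contra hcon
        exact h1 (HF.mem a (Nat.one_le_iff_ne_zero.mpr hcon))
      · by_contra hcon
        exact h2 (honlyS a (not_le.mp hcon))
    · rintro ⟨h1, h2⟩ t ht
      have haF : a ≤ xF := by
        rw [H.dle, hxF]
        exact ⟨by simp only; omega, h2⟩
      have haS : a ≤ xS := by
        rw [H.dle, hxS]
        exact ⟨by simp only; omega, by simp only; omega⟩
      have e1 := HN.top_eq ht hF0 haF
      have e2 := HN.top_eq ht hS0 haS
      exact hFS (Subtype.ext (e1.trans e2.symm))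
  have htopF : ∀ a, 1 ≤ (co (OrderDual.ofDual a)).1 → topOf a = tF := by
    intro a ha
    have h1 : a ∈ N tF := by rw [hNF]; exact HF.mem a ha
    exact HN.topOf_eq h1
  refine ⟨N, b, θ, B, hnat, ?_, hun, ?_, ?_, ?_, ?_⟩
  · have h1 : (univ : Finset (Tops Tᵒᵈ)) = {tF, tS} := by
      ext t
      simp only [mem_univ, mem_insert, mem_singleton, true_iff]
      exact htop t
    rw [h1, Finset.sum_pair hFS]
    show (if tF = tF then g else 1) + (if tS = tF then g else 1) = g + 1
    rw [if_pos rfl, if_neg hFS.symm]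
  · intro a ha
    rw [htopF a (by rw [ha])]
    show (if tF = tF then θF else fun x => lev x - (2 * g - 1)) a = u
    rw [if_pos rfl]
    exact HF.th a ha
  · intro a ha
    rw [htopF a (by rw [ha])]
    show u ≤ (if tF = tF then θF else fun x => lev x - (2 * g - 1)) a
    rw [if_pos rfl]
    exact HF.th' a ha
  · intro a ha
    have h1 : topOf a = tS := by
      have h2 : a ∈ N tS := by
        rw [hNS]
        exact honlyS a (by rw [ha]; exact Nat.lt_succ_self m)
      exact HN.topOf_eq h2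
    rw [h1]
    show (if tS = tF then θF else fun x => lev x - (2 * g - 1)) a = u
    rw [if_neg hFS.symm]
    show lev a - (2 * g - 1) = u
    rw [H.dlev hm1, ha]
    simp only
    omega
  · intro a ha hB
    rcases htop (topOf a) with h | h
    · rw [h] at hB
      have : (if tF = tF then BF else fun _ => False) a := hB
      rw [if_pos rfl] at this
      exact HF.base a this
    · rw [h] at hB
      have : (if tS = tF then BF else fun _ => False) a := hB
      rw [if_neg hFS.symm] at this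
      exact this.elim

end TriS

end Pool.Agent.GaussPoset

end

/-! From `Pool.Agent.W_448fc_h67.FcF` -/

section

/-!
Costs in the dual; the first pole of the closed stair with a chain.
-/

namespace Pool.Agent.GaussPoset

set_option linter.unusedSectionVars false

open Polynomial Finset

universe u

namespace TriS

variable {T : Type u} [Fintype T] [PartialOrder T] [DecidableEq T] {m g u : ℕ} {co : T → ℕ × ℕ}
  {N : Tops Tᵒᵈ → Finset Tᵒᵈ} {b : Tops Tᵒᵈ → ℕ} {θ : Tops Tᵒᵈ → Tᵒᵈ → ℕ}
  {B : Tops Tᵒᵈ → Tᵒᵈ → Prop}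

/-- numbers of elements above the element `(0, m)` of the dual -/
lemma nab_corner (H : TriS T m co) (hm1 : 1 ≤ m) {a : Tᵒᵈ}
    (ha : co (OrderDual.ofDual a) = (0, m)) {k : ℕ} (hk : k < m) : nab k a = 2 := by
  classical
  obtain ⟨x, hx⟩ := H.dex 0 (2 * m - k) (Nat.zero_le _) (Or.inr ⟨rfl, Nat.sub_le _ _⟩)
  obtain ⟨y, hy⟩ := H.dex (m - k) m (Nat.sub_le _ _) (Or.inl le_rfl)
  have hne : x ≠ y := by
    rintro rfl
    rw [hx, Prod.mk.injEq] at hy
    omega
  unfold nab
  have h1 : (lv Tᵒᵈ k).filter (fun w => a ≤ w) = {x, y} := by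
    ext w
    rw [mem_filter, mem_lv, mem_insert, mem_singleton, H.dlev hm1, H.dle, ha]
    constructor
    · rintro ⟨h1, h2⟩
      have h3 := h2.2
      simp only at h3
      have h4 := H.snd_le (OrderDual.ofDual w)
      have h5 := H.sum_le (OrderDual.ofDual w)
      have h6 := H.fst_le (OrderDual.ofDual w)
      rcases Nat.eq_zero_or_pos (co (OrderDual.ofDual w)).1 with h7 | h7
      · left
        apply H.dinj
        rw [hx]
        exact Prod.ext h7 (by simp only; omega)
      · right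
        apply H.dinj
        rw [hy]
        exact Prod.ext (by simp only; omega) (by simp only; omega)
    · rintro (rfl | rfl)
      · rw [hx]
        exact ⟨by simp only; omega, ⟨le_rfl, by simp only; omega⟩⟩
      · rw [hy]
        exact ⟨by simp only; omega, ⟨Nat.zero_le _, le_rfl⟩⟩
  rw [h1, Finset.card_pair hne]

/-- the number of sites -/
lemma card_sites (H : TriS T m co) (hm : m = 2 * g + u) (hu : u ≤ 1) (hg : 1 ≤ g) :
    (lv Tᵒᵈ (2 * g - 1)).card = g + 1 := by
  classical
  have hm1 : 1 ≤ m := by omega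
  have hinj : Set.InjOn (fun a : Tᵒᵈ => (co (OrderDual.ofDual a)).2) (lv Tᵒᵈ (2 * g - 1)) := by
    intro a ha a' ha' h
    rw [Finset.mem_coe, mem_lv, H.dlev hm1] at ha ha'
    simp only at h
    have h1 := H.sum_le (OrderDual.ofDual a)
    have h2 := H.sum_le (OrderDual.ofDual a')
    apply H.dinj
    exact Prod.ext (by omega) h
  rw [← Finset.card_image_of_injOn hinj]
  have h1 : (lv Tᵒᵈ (2 * g - 1)).image (fun a : Tᵒᵈ => (co (OrderDual.ofDual a)).2) =
      insert (m + u + 1) (Icc (g + u + 1) m) := by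
    ext c
    rw [mem_image, mem_insert, mem_Icc]
    constructor
    · rintro ⟨a, ha, rfl⟩
      rw [mem_lv, H.dlev hm1] at ha
      have h1 := H.sum_le (OrderDual.ofDual a)
      have h2 := H.snd_le (OrderDual.ofDual a)
      have h3 := H.fst_le (OrderDual.ofDual a)
      omega
    · intro hc
      by_cases hcm : c ≤ m
      · obtain ⟨a, ha⟩ := H.dex (m + u + 1 - c) c (by omega) (Or.inl hcm)
        refine ⟨a, ?_, by rw [ha]⟩
        rw [mem_lv, H.dlev hm1, ha]
        simp only
        omega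
      · obtain ⟨a, ha⟩ := H.dex 0 c (Nat.zero_le _) (Or.inr ⟨rfl, by omega⟩)
        refine ⟨a, ?_, by rw [ha]⟩
        rw [mem_lv, H.dlev hm1, ha]
        simp only
        omega
  rw [h1, Finset.card_insert_of_notMem (by rw [mem_Icc]; omega), Nat.card_Icc]
  omega

section Costs

variable (H : TriS T m co) (hm : m = 2 * g + u) (hu : u ≤ 1) (hg : 1 ≤ g)
  (S : Sys co m g u N b θ B)

include H hm hg S in
lemma th_ge {a x : Tᵒᵈ} (ha : a ∈ unnat N) (hx : x ∉ unnat N) (hax : a ⋖ x) :
    u ≤ θ (topOf x) x := by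
  have hm1 : 1 ≤ m := by omega
  have hgr := (H.pure hm1).gradedBelow_dual
  have h1 := hgr.lev_covBy hax
  rw [H.dlev hm1, H.dlev hm1] at h1
  have h2 := (H.dle a x).mp hax.1.le
  rw [S.un] at ha hx
  have h3 := H.sum_le (OrderDual.ofDual a)
  have h4 := H.sum_le (OrderDual.ofDual x)
  have h5 := h2.1
  have h6 := h2.2
  have h7 := H.snd_le (OrderDual.ofDual x)
  rcases Nat.eq_zero_or_pos (co (OrderDual.ofDual x)).1 with h8 | h8
  · have h9 : co (OrderDual.ofDual x) = (0, m + 1) := Prod.ext h8 (by simp only; omega)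
    rw [S.th0 x h9]
  · exact S.th1' x (by omega)

include H hm hg S in
lemma hcan_ge {a : Tᵒᵈ} (ha : a ∈ bdR (unnat N)) :
    u + 1 ≤ hcan (unnat N) (fun x => θ (topOf x) x) a := by
  classical
  obtain ⟨x, hx, hax, h1⟩ := hcan_spec (θ := fun x => θ (topOf x) x) ha
  rw [h1]
  have := th_ge H hm hg S (mem_filter.mp ha).1 hx hax
  omega

include H hm hg S in
lemma corner_bd {a : Tᵒᵈ} (ha : co (OrderDual.ofDual a) = (0, m)) :
    a ∈ bdR (unnat N) ∧ hcan (unnat N) (fun x => θ (topOf x) x) a = u + 1 := by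
  classical
  have hm1 : 1 ≤ m := by omega
  obtain ⟨x, hx⟩ := H.dex 1 m hm1 (Or.inl le_rfl)
  have hxN : x ∉ unnat N := by
    rw [S.un, hx]
    simp only
    omega
  have hlt : a < x := by
    refine lt_of_le_of_ne ?_ ?_
    · rw [H.dle, ha, hx]
      exact ⟨Nat.zero_le _, le_rfl⟩
    · rintro rfl
      rw [ha, Prod.mk.injEq] at hx
      omega
  have hcov : a ⋖ x := by
    refine covBy_of_lev hlt ?_
    rw [H.dlev hm1, H.dlev hm1, ha, hx]
    simp only
    omega
  have hbd : a ∈ bdR (unnat N) := by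
    refine mem_filter.mpr ⟨?_, x, hxN, hcov⟩
    rw [S.un, ha]
    exact ⟨rfl, le_rfl⟩
  refine ⟨hbd, le_antisymm ?_ (hcan_ge H hm hg S hbd)⟩
  have h1 := hcan_le (θ := fun x => θ (topOf x) x) hxN hcov
  rw [S.th1 x hx] at h1
  exact h1

include H hm hu hg in
lemma cst_corner {a : Tᵒᵈ} (ha : co (OrderDual.ofDual a) = (0, m)) {h : Tᵒᵈ → ℕ}
    (hh : h a = u + 1) : cst (2 * g - 1) h a = (u + 1) ^ 2 := by
  have hm1 : 1 ≤ m := by omega
  have hl : lev a = m := by rw [H.dlev hm1, ha]; simp only; omega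
  have hn : nab m a = 1 := by rw [← hl]; exact nab_self
  rw [cst_eq, hh, hl]
  rcases Nat.eq_zero_or_pos u with h0 | h0
  · subst h0
    rw [Finset.sum_range_succ, hn, Finset.sum_eq_zero]
    · have e1 : m - (2 * g - 1) = 1 := by omega
      rw [e1]
      rfl
    · intro k hk
      rw [mem_range] at hk
      have e1 : k - (2 * g - 1) = 0 := by omega
      rw [e1, Nat.min_zero, Nat.zero_mul]
  · have hu1 : u = 1 := by omega
    subst hu1
    obtain ⟨M, rfl⟩ : ∃ M, m = M + 1 := ⟨m - 1, by omega⟩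
    rw [Finset.sum_range_succ, Finset.sum_range_succ, hn,
      H.nab_corner hm1 ha (k := M) (Nat.lt_succ_self M), Finset.sum_eq_zero]
    · have e1 : M - (2 * g - 1) = 1 := by omega
      have e2 : M + 1 - (2 * g - 1) = 2 := by omega
      rw [e1, e2]
      rfl
    · intro k hk
      rw [mem_range] at hk
      have e1 : k - (2 * g - 1) = 0 := by omega
      rw [e1, Nat.min_zero, Nat.zero_mul]

include H hm hu hg in
lemma nst_corner {a : Tᵒᵈ} (ha : co (OrderDual.ofDual a) = (0, m)) {h : Tᵒᵈ → ℕ}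
    (hh : h a = u + 1) : nst (2 * g - 1) h a = 2 * (u + 1) := by
  have hm1 : 1 ≤ m := by omega
  rw [nst_eq, hh, Finset.sum_congr rfl (g := fun _ => 2), sum_const, smul_eq_mul, card_range,
    mul_comm]
  intro k hk
  rw [mem_range] at hk
  exact H.nab_corner hm1 ha (by omega)

include H hm hu hg S in
/-- the corner is the cheapest boundary element -/
lemma cst_lt {a a0 : Tᵒᵈ} (ha0 : co (OrderDual.ofDual a0) = (0, m)) (ha : a ∈ bdR (unnat N))
    (hne : a ≠ a0) : (u + 1) ^ 2 < cst (2 * g - 1) (hcan (unnat N) (fun x => θ (topOf x) x)) a := by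
  classical
  have hm1 : 1 ≤ m := by omega
  obtain ⟨-, h0⟩ := corner_bd H hm hg S ha0
  have h1 := hcan_ge H hm hg S ha
  rw [← cst_corner H hm hu hg ha0 h0]
  have haR := (S.un a).mp (mem_filter.mp ha).1
  have hle : a ≤ a0 := by
    rw [H.dle, ha0]
    exact ⟨by simp only; omega, haR.2⟩
  have hna : ¬ a0 ≤ a := fun h => hne (le_antisymm hle h)
  unfold cst
  refine Finset.sum_lt_sum (fun x _ => ?_) ⟨a, mem_univ _, ?_⟩
  · unfold ez
    split_ifs with h2 h3 h3
    · rw [h0]
      exact min_le_min h1 le_rfl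
    · exact absurd (hle.trans h2) h3
    · exact Nat.zero_le _
    · exact le_rfl
  · unfold ez
    rw [if_neg hna, if_pos le_rfl]
    have h2 : 1 ≤ lev a - (2 * g - 1) := by
      rw [H.dlev hm1]
      have := haR.1
      have := haR.2
      omega
    omega

end Costs

/-- **No pole in the dual below the energy `(u + 1)²`.** -/
theorem dual_lt (H : TriS T m co) (hm : m = 2 * g + u) (hu : u ≤ 1) (hg : 1 ≤ g)
    (hgu : g = 1 → u = 0) {n : ℕ} (hn : n < (u + 1) ^ 2) :
    (1 + X : ℤ[X]) ^ (g + 1) ∣ Z Tᵒᵈ (2 * g - 1) n := by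
  have hm1 : 1 ≤ m := by omega
  obtain ⟨N, b, θ, B, S⟩ := H.exists_sys hm hu hg hgu
  have hF := farData_of_tops (H.pure hm1).gradedBelow_dual S.nat
  rw [S.sum_b] at hF
  obtain ⟨a0, ha0⟩ := H.dex 0 m (Nat.zero_le _) (Or.inl le_rfl)
  refine hF.dvd_of_lt fun z hz => ?_
  by_cases hza : z = a0
  · obtain ⟨-, h0⟩ := corner_bd H hm hg S ha0
    rw [hza, cst_corner H hm hu hg ha0 h0]
    exact hn
  · exact hn.trans (cst_lt H hm hu hg S ha0 hz hza)

/-- **The first pole in the dual.** -/
theorem dual_eq (H : TriS T m co) (hm : m = 2 * g + u) (hu : u ≤ 1) (hg : 1 ≤ g)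
    (hgu : g = 1 → u = 0) :
    (1 + X : ℤ[X]) ^ (g + 1) ∣ Z Tᵒᵈ (2 * g - 1) ((u + 1) ^ 2) -
      X ^ (below Tᵒᵈ (2 * g - 1) + 2 * (u + 1)) * (1 + X) ^ g := by
  classical
  have hm1 : 1 ≤ m := by omega
  obtain ⟨N, b, θ, B, S⟩ := H.exists_sys hm hu hg hgu
  have hF := farData_of_tops (H.pure hm1).gradedBelow_dual S.nat
  rw [S.sum_b] at hF
  obtain ⟨a0, ha0⟩ := H.dex 0 m (Nat.zero_le _) (Or.inl le_rfl)
  obtain ⟨hbd, h0⟩ := corner_bd H hm hg S ha0
  have hc := cst_corner H hm hu hg ha0 h0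
  have h1 := hF.dvd_lead (n := (u + 1) ^ 2) (fun z hz => by
    by_cases hza : z = a0
    · rw [hza, hc]
    · exact (cst_lt H hm hu hg S ha0 hz hza).le)
  have h2 : (bdR (unnat N)).filter (fun z => cst (2 * g - 1)
      (hcan (unnat N) (fun x => θ (topOf x) x)) z = (u + 1) ^ 2) = {a0} := by
    ext z
    rw [mem_filter, mem_singleton]
    constructor
    · rintro ⟨h3, h4⟩
      by_contra hne
      have := cst_lt H hm hu hg S ha0 h3 hne
      omega
    · rintro rfl
      exact ⟨hbd, hc⟩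
  rw [h2, sum_singleton, nst_corner H hm hu hg ha0 h0, h0, H.card_sites hm hu hg,
    H.nab_corner hm1 ha0 (k := 2 * g - 1) (by omega)] at h1
  have hl : lev a0 = m := by rw [H.dlev hm1, ha0]; simp only; omega
  have h3 : nab (2 * g - 1 + (u + 1)) a0 = 1 := by
    have : 2 * g - 1 + (u + 1) = lev a0 := by omega
    rw [this]
    exact nab_self
  rw [h3] at h1
  have h4 : g + 1 + 1 - 2 = g := by omega
  rw [h4] at h1
  exact h1

/-- no pole in the closed stair with a chain at window `m + u + 1` -/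
theorem core_lt (H : TriS T m co) (hm : m = 2 * g + u) (hu : u ≤ 1) (hg : 1 ≤ g)
    (hgu : g = 1 → u = 0) {n : ℕ} (hn : n < (u + 1) ^ 2) :
    (1 + X : ℤ[X]) ^ (g + 1) ∣ Z T (m + u + 1) n := by
  refine dvd_Z_flip (H.pure (by omega)) (i := m + u + 1) (by omega) ?_
  have : 2 * m - (m + u + 1) = 2 * g - 1 := by omega
  rw [this]
  exact H.dual_lt hm hu hg hgu hn

/-- counting the elements -/
lemma card_eq (H : TriS T m co) (hm : m = 2 * g + u) (hu : u ≤ 1) (hg : 1 ≤ g) :
    Fintype.card T = below Tᵒᵈ (2 * g - 1) + (g + 1) + below T (m + u + 1) := by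
  classical
  have hm1 : 1 ≤ m := by omega
  have h0 : Fintype.card T = (univ : Finset Tᵒᵈ).card := by
    rw [Finset.card_univ]
    rfl
  rw [h0, ← H.card_sites hm hu hg]
  have h1 : (univ : Finset Tᵒᵈ) = (univ.filter (fun a : Tᵒᵈ => lev a < 2 * g - 1) ∪
      lv Tᵒᵈ (2 * g - 1)) ∪ univ.filter (fun a : Tᵒᵈ => 2 * g - 1 < lev a) := by
    ext a
    simp only [mem_univ, mem_union, mem_filter, true_and, mem_lv, true_iff]
    omega
  conv_lhs => rw [h1]
  rw [card_union_of_disjoint, card_union_of_disjoint]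
  · congr 1
    unfold below
    refine Finset.card_bij (fun a _ => OrderDual.ofDual a) ?_ ?_ ?_
    · intro a ha
      rw [mem_filter] at ha ⊢
      refine ⟨mem_univ _, ?_⟩
      have h2 := ha.2
      rw [H.dlev hm1] at h2
      rw [H.lev_eq]
      omega
    · intro a _ a' _ h
      exact h
    · intro x hx
      rw [mem_filter] at hx
      refine ⟨OrderDual.toDual x, ?_, rfl⟩
      rw [mem_filter]
      refine ⟨mem_univ _, ?_⟩
      have h2 := hx.2
      rw [H.lev_eq] at h2
      rw [H.dlev hm1]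
      have e1 : OrderDual.ofDual (OrderDual.toDual x) = x := rfl
      rw [e1]
      omega
  · rw [Finset.disjoint_left]
    intro a h2 h3
    rw [mem_filter] at h2
    rw [mem_lv] at h3
    omega
  · rw [Finset.disjoint_left]
    intro a h2 h3
    rw [mem_union, mem_filter, mem_lv] at h2
    rw [mem_filter] at h3
    omega

/-- **The first pole** of the closed stair with a chain at window `m + u + 1` -/
theorem core_eq (H : TriS T m co) (hm : m = 2 * g + u) (hu : u ≤ 1) (hg : 1 ≤ g)
    (hgu : g = 1 → u = 0) : ∃ a, a + 2 * u + 1 = below T (m + u + 1) ∧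
    (1 + X : ℤ[X]) ^ (g + 1) ∣ Z T (m + u + 1) ((u + 1) ^ 2) - X ^ a * (1 + X) ^ g := by
  classical
  have hm1 : 1 ≤ m := by omega
  have hcard := H.card_eq hm hu hg
  have hb : 2 * u + 1 ≤ below T (m + u + 1) := by
    -- the elements `(0, c)`, `c ≤ m`
    have h1 : (range (m + 1)).card ≤ below T (m + u + 1) := by
      unfold below
      refine Finset.card_le_card_of_injOn
        (fun c => if h : c ≤ m then (H.ex 0 c (Nat.zero_le _) (Or.inl h)).choose else
          (H.ex 0 0 le_rfl (Or.inl (Nat.zero_le _))).choose) ?_ ?_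
      · intro c hc
        rw [Finset.mem_coe, mem_range] at hc
        rw [Finset.mem_coe, mem_filter]
        refine ⟨mem_univ _, ?_⟩
        have h2 : c ≤ m := by omega
        simp only [dif_pos h2]
        rw [H.lev_eq, (H.ex 0 c (Nat.zero_le _) (Or.inl h2)).choose_spec]
        simp only
        omega
      · intro c hc c' hc' h
        rw [Finset.mem_coe, mem_range] at hc hc'
        have h2 : c ≤ m := by omega
        have h3 : c' ≤ m := by omega
        simp only [dif_pos h2, dif_pos h3] at h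
        have e1 := (H.ex 0 c (Nat.zero_le _) (Or.inl h2)).choose_spec
        have e2 := (H.ex 0 c' (Nat.zero_le _) (Or.inl h3)).choose_spec
        rw [h, e2, Prod.mk.injEq] at e1
        exact e1.2.symm
    rw [card_range] at h1
    omega
  have had : below Tᵒᵈ (2 * g - 1) + 2 * (u + 1) + g ≤ Fintype.card T := by omega
  have h1 := H.dual_eq hm hu hg hgu
  have h2 : 2 * m - (m + u + 1) = 2 * g - 1 := by omega
  rw [← h2] at h1
  have h3 := dvd_Z_flip_lead (H.pure hm1) (i := m + u + 1) (by omega) (by rw [h2]; exact had) h1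
  rw [h2] at h3
  refine ⟨_, ?_, h3⟩
  omega

/-- frozen corner at window `m + 2`: all energies (`u = 1`) -/
theorem core_frozen (H : TriS T m co) (hm : m = 2 * g + 1) (hg : 2 ≤ g) {v0 v1 : T}
    (h0 : co v0 = (0, m + 1)) (h1 : co v1 = (1, m)) (n : ℕ) :
    (1 + X : ℤ[X]) ^ (g + 1) ∣ SC (fun (e : T → ℕ) F => Vd (m + 2) e F ∧
      (e v0 = 0 ∧ e v1 = 0)) n := by
  classical
  have hm1 : 1 ≤ m := by omega
  refine dvd_SC_flip (H.pure hm1) (i := m + 2) (by omega) _ ?_
  obtain ⟨N, b, θ, B, S⟩ := H.exists_sys hm le_rfl (by omega) (by omega)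
  let D : Finset Tᵒᵈ := univ.filter (fun a => a ≤ OrderDual.toDual v0 ∨ a ≤ OrderDual.toDual v1)
  have hD : ∀ a, a ∈ D ↔ a ≤ OrderDual.toDual v0 ∨ a ≤ OrderDual.toDual v1 := by
    intro a
    simp [D]
  have hDc : ∀ a, a ∈ D → (co (OrderDual.ofDual a)).1 ≤ 1 ∧
      (co (OrderDual.ofDual a)).1 + (co (OrderDual.ofDual a)).2 ≤ m + 1 := by
    intro a ha
    rw [hD, H.dle, H.dle] at ha
    have e0 : OrderDual.ofDual (OrderDual.toDual v0) = v0 := rfl
    have e1 : OrderDual.ofDual (OrderDual.toDual v1) = v1 := rfl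
    rw [e0, e1, h0, h1] at ha
    rcases ha with h | h
    · have a1 := h.1
      have a2 := h.2
      simp only at a1 a2
      omega
    · have a1 := h.1
      have a2 := h.2
      simp only at a1 a2
      omega
  have hlevD : ∀ x ∈ D, 2 * g - 1 < lev x := by
    intro x hx
    have := hDc x hx
    rw [H.dlev hm1]
    omega
  have hlow : ∀ x y, x ≤ y → y ∈ D → x ∈ D := by
    intro x y hxy hy
    rw [hD] at hy ⊢
    rcases hy with h | h
    · exact Or.inl (hxy.trans h)
    · exact Or.inr (hxy.trans h)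
  have hgood : Good (2 * g - 1) (unnat N) (fun x => x ∉ unnat N ∧ B (topOf x) x) D := by
    refine ⟨hlow, ?_, hlevD, ?_⟩
    · intro a ha
      rw [S.un] at ha
      rw [hD]
      left
      rw [H.dle]
      have e0 : OrderDual.ofDual (OrderDual.toDual v0) = v0 := rfl
      rw [e0, h0]
      exact ⟨by simp only; omega, by simp only; omega⟩
    · rintro a ha ⟨h2, h3⟩
      have h4 := S.base a h2 h3
      have h5 := hDc a ha
      omega
  have key := dvd_Z_off_of_tops S.nat hgood n
  rw [S.sum_b, ← ZB_off hlow hlevD] at key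
  have e2 : 2 * m - (m + 2) = 2 * g - 1 := by omega
  rw [e2]
  have hcst : ∀ (e : Tᵒᵈ → ℕ) (F : Finset Tᵒᵈ), Cst (2 * g - 1) D 0 0 e F ↔ Vd (2 * g - 1) e F ∧
      (e (OrderDual.toDual v0) = 0 ∧ e (OrderDual.toDual v1) = 0) := by
    intro e F
    have h6 := cst_zero_iff (i := 2 * g - 1) (D := D)
      (V := fun v => v = OrderDual.toDual v0 ∨ v = OrderDual.toDual v1) (fun x => by
        rw [hD]
        constructor
        · rintro (h | h)
          · exact ⟨_, Or.inl rfl, h⟩
          · exact ⟨_, Or.inr rfl, h⟩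
        · rintro ⟨v, rfl | rfl, h⟩
          · exact Or.inl h
          · exact Or.inr h) (fun v hv => hlevD v (by
        rw [hD]
        rcases hv with rfl | rfl
        · exact Or.inl le_rfl
        · exact Or.inr le_rfl)) e F
    rw [h6]
    refine and_congr_right fun _ => ?_
    constructor
    · intro h
      exact ⟨h _ (Or.inl rfl), h _ (Or.inr rfl)⟩
    · rintro ⟨a1, a2⟩ v (rfl | rfl)
      · exact a1
      · exact a2
  rw [ZB_eq_SC, SC_congr hcst n] at key
  exact key

end TriS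

end Pool.Agent.GaussPoset

end

/-! From `Pool.Agent.W_448fc_h67.FcH` -/

section

/-!
A poset with an additional minimal element on the level of the window.
-/

namespace Pool.Agent.GaussPoset

set_option linter.unusedSectionVars false

open Polynomial Finset

universe u

variable {Q : Type u} [Fintype Q] [PartialOrder Q] [DecidableEq Q]

lemma SC_split (T R : (Q → ℕ) → Finset Q → Prop) (n : ℕ) :
    SC T n = SC (fun e F => T e F ∧ R e F) n + SC (fun e F => T e F ∧ ¬ R e F) n := by
  classical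
  rw [SC_eq_cfg, SC_eq_cfg, SC_eq_cfg, ← Finset.sum_filter_add_sum_filter_not (cfg T n)
    (fun x => R x.2 x.1)]
  congr 1
  · refine Finset.sum_congr ?_ (fun _ _ => rfl)
    ext x
    rw [mem_filter, mem_cfg, mem_cfg, and_assoc]
  · refine Finset.sum_congr ?_ (fun _ _ => rfl)
    ext x
    rw [mem_filter, mem_cfg, mem_cfg, and_assoc]

/-- divisibility of the product formula -/
lemma dvd_SC_prod {c n : ℕ} (p : Q → Prop) [DecidablePred p] (T : (Q → ℕ) → Finset Q → Prop)
    (T1 : ({x // p x} → ℕ) → Finset {x // p x} → Prop)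
    (T2 : ({x // ¬ p x} → ℕ) → Finset {x // ¬ p x} → Prop)
    (hT : ∀ e F, T e F ↔ T1 (fun x => e x) (F.subtype p) ∧
      T2 (fun x => e x) (F.subtype (fun x => ¬ p x)))
    (h : ∀ b ≤ n, (1 + X : ℤ[X]) ^ c ∣ SC T2 b) : (1 + X : ℤ[X]) ^ c ∣ SC T n := by
  rw [SC_prod p T T1 T2 hT n]
  refine Finset.dvd_sum fun ab hab => ?_
  rw [HasAntidiagonal.mem_antidiagonal] at hab
  exact dvd_mul_of_dvd_right (h ab.2 (by omega)) _

section Special

variable {w : ℕ} {y : Q}

lemma vd_restrict {e : Q → ℕ} {F : Finset Q} {p : Q → Prop} [DecidablePred p]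
    (hp : ∀ x y, x ≤ y → p x → p y) (hV : Vd w e F) :
    Vd w (fun x : {x // p x} => e x) (F.subtype p) := by
  have hr : ∀ x : {x // p x}, rho w (fun y : {x // p x} => e y) x = rho w e (x : Q) := by
    intro x
    unfold rho
    rw [lev_subtype hp]
  have hm : ∀ x : {x // p x}, x ∈ F.subtype p ↔ (x : Q) ∈ F := fun x => mem_subtype
  obtain ⟨h1, h2, h3, h4⟩ := hV
  refine ⟨?_, ?_, ?_, ?_⟩
  · intro x y hxy hx
    rw [hm] at hx ⊢
    exact h1 x y hxy hx
  · intro x hx
    rw [hm] at hx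
    rw [hr]
    exact h2 x hx
  · intro x y hxy hx hy
    rw [hm] at hx hy
    rw [hr, hr]
    exact h3 x y hxy hx hy
  · intro x y hxy hx hy
    rw [hm] at hx hy
    rw [hr, hr]
    exact h4 x y hxy hx hy

lemma special_A (hy : ∀ x, x ≤ y → x = y) (hly : lev y = w) (e : Q → ℕ) (F : Finset Q) :
    (Vd w e F ∧ (e y = 0 ∧ y ∉ F)) ↔
      ((∀ x : {x // x = y}, e x = 0) ∧ F.subtype (fun x => x = y) = ∅) ∧
      Vd w (fun x : {x // ¬ x = y} => e x) (F.subtype (fun x => ¬ x = y)) := by
  have hp : ∀ x x' : Q, x ≤ x' → ¬ x = y → ¬ x' = y := by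
    intro x x' hxx hx h
    exact hx (hy x (h ▸ hxx))
  have hr : ∀ x : {x // ¬ x = y}, rho w (fun z : {x // ¬ x = y} => e z) x = rho w e (x : Q) := by
    intro x
    unfold rho
    rw [lev_subtype hp]
  have hm : ∀ x : {x // ¬ x = y}, x ∈ F.subtype (fun x => ¬ x = y) ↔ (x : Q) ∈ F :=
    fun x => mem_subtype
  constructor
  · rintro ⟨hV, h0, hyF⟩
    refine ⟨⟨fun x => by rw [x.2]; exact h0, ?_⟩, vd_restrict hp hV⟩
    rw [Finset.eq_empty_iff_forall_notMem]
    intro x hx
    rw [mem_subtype, x.2] at hx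
    exact hyF hx
  · rintro ⟨⟨h0, hF⟩, h1, h2, h3, h4⟩
    have h0' : e y = 0 := h0 ⟨y, rfl⟩
    have hyF : y ∉ F := by
      intro h
      have : (⟨y, rfl⟩ : {x // x = y}) ∈ F.subtype (fun x => x = y) := mem_subtype.mpr h
      rw [hF] at this
      exact absurd this (Finset.notMem_empty _)
    have hne : ∀ x ∈ F, ¬ x = y := fun x hx h => hyF (h ▸ hx)
    have hry : rho w e y = 0 := by
      unfold rho
      rw [h0', hly, Nat.sub_self]
      rfl
    have h2' : ∀ x, x ∉ F → 0 ≤ rho w e x := by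
      intro x hx
      by_cases hxy : x = y
      · rw [hxy, hry]
      · rw [← hr ⟨x, hxy⟩]
        exact h2 _ (fun h => hx ((hm _).mp h))
    refine ⟨⟨?_, h2', ?_, ?_⟩, h0', hyF⟩
    · intro x x' hxx hx
      exact (hm ⟨x', hp x x' hxx (hne x hx)⟩).mp (h1 ⟨x, hne x hx⟩ _ hxx ((hm _).mpr hx))
    · intro x x' hxx hx hx'
      by_cases hxy : x = y
      · rw [hxy, hry]
        exact h2' x' hx'
      · rw [← hr ⟨x, hxy⟩, ← hr ⟨x', hp x x' hxx hxy⟩]
        exact h3 _ _ hxx (fun h => hx ((hm _).mp h)) (fun h => hx' ((hm _).mp h))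
    · intro x x' hxx hx hx'
      rw [← hr ⟨x, hne x hx⟩, ← hr ⟨x', hne x' hx'⟩]
      exact h4 _ _ hxx ((hm _).mpr hx) ((hm _).mpr hx')

lemma special_B (hy : ∀ x, x ≤ y → x = y) (hly : lev y = w) {v0 v1 : Q} (hv0 : y < v0)
    (hv1 : y < v1) (hl0 : lev v0 + 1 = w) (hl1 : lev v1 + 1 = w)
    (hab : ∀ x, y < x → v0 ≤ x ∨ v1 ≤ x) (e : Q → ℕ) (F : Finset Q) :
    (Vd w e F ∧ (e y = 0 ∧ y ∈ F)) ↔
      ((∀ x : {x // x = y}, e x = 0) ∧ F.subtype (fun x => x = y) = univ) ∧
      (Vd w (fun x : {x // ¬ x = y} => e x) (F.subtype (fun x => ¬ x = y)) ∧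
        ((fun x : {x // ¬ x = y} => e x) ⟨v0, hv0.ne'⟩ = 0 ∧
          (fun x : {x // ¬ x = y} => e x) ⟨v1, hv1.ne'⟩ = 0)) := by
  have hp : ∀ x x' : Q, x ≤ x' → ¬ x = y → ¬ x' = y := by
    intro x x' hxx hx h
    exact hx (hy x (h ▸ hxx))
  have hr : ∀ x : {x // ¬ x = y}, rho w (fun z : {x // ¬ x = y} => e z) x = rho w e (x : Q) := by
    intro x
    unfold rho
    rw [lev_subtype hp]
  have hm : ∀ x : {x // ¬ x = y}, x ∈ F.subtype (fun x => ¬ x = y) ↔ (x : Q) ∈ F :=
    fun x => mem_subtype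
  have hry : e y = 0 → rho w e y = 0 := by
    intro h0
    unfold rho
    rw [h0, hly, Nat.sub_self]
    rfl
  constructor
  · rintro ⟨hV, h0, hyF⟩
    have hz : ∀ v, y < v → lev v + 1 = w → e v = 0 := by
      intro v hv hl
      have h5 := hV.2.2.2 y v hv hyF (hV.1 y v hv.le hyF)
      rw [hry h0] at h5
      unfold rho at h5
      omega
    refine ⟨⟨fun x => by rw [x.2]; exact h0, ?_⟩, vd_restrict hp hV, hz v0 hv0 hl0, hz v1 hv1 hl1⟩
    rw [Finset.eq_univ_iff_forall]
    intro x
    rw [mem_subtype, x.2]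
    exact hyF
  · rintro ⟨⟨h0, hF⟩, ⟨h1, h2, h3, h4⟩, g0, g1⟩
    have h0' : e y = 0 := h0 ⟨y, rfl⟩
    have hyF : y ∈ F := by
      have : (⟨y, rfl⟩ : {x // x = y}) ∈ F.subtype (fun x => x = y) := by
        rw [hF]
        exact mem_univ _
      exact mem_subtype.mp this
    have hrv : ∀ v, (v = v0 ∨ v = v1) → rho w e v = -1 := by
      intro v hv
      unfold rho
      rcases hv with rfl | rfl
      · have : e v = 0 := g0
        rw [this]
        omega
      · have : e v = 0 := g1
        rw [this]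
        omega
    have hvF : ∀ v, (v = v0 ∨ v = v1) → v ∈ F := by
      intro v hv
      have hvy : ¬ v = y := by
        rcases hv with rfl | rfl
        · exact hv0.ne'
        · exact hv1.ne'
      by_contra hcon
      have h5 := h2 ⟨v, hvy⟩ (fun h => hcon ((hm _).mp h))
      rw [hr, hrv v hv] at h5
      omega
    have hup : ∀ x, y < x → ∃ v, (v = v0 ∨ v = v1) ∧ v ≤ x := by
      intro x hx
      rcases hab x hx with h | h
      · exact ⟨v0, Or.inl rfl, h⟩
      · exact ⟨v1, Or.inr rfl, h⟩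
    have hT1 : ∀ x x', x ≤ x' → ¬ x = y → x ∈ F → x' ∈ F := by
      intro x x' hxx hxy hx
      exact (hm ⟨x', hp x x' hxx hxy⟩).mp (h1 ⟨x, hxy⟩ _ hxx ((hm _).mpr hx))
    have hvy : ∀ v, (v = v0 ∨ v = v1) → ¬ v = y := by
      intro v hv
      rcases hv with rfl | rfl
      · exact hv0.ne'
      · exact hv1.ne'
    have habv : ∀ x, y < x → x ∈ F ∧ rho w e x < 0 := by
      intro x hx
      obtain ⟨v, hv, hvx⟩ := hup x hx
      have hxF := hT1 v x hvx (hvy v hv) (hvF v hv)
      refine ⟨hxF, ?_⟩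
      rcases eq_or_lt_of_le hvx with h | h
      · rw [← h, hrv v hv]
        norm_num
      · have h5 := h4 ⟨v, hvy v hv⟩ ⟨x, hx.ne'⟩ h ((hm _).mpr (hvF v hv)) ((hm _).mpr hxF)
        rw [hr, hr, hrv v hv] at h5
        have h6 : rho w e x < -1 := h5
        omega
    refine ⟨⟨?_, ?_, ?_, ?_⟩, h0', hyF⟩
    · intro x x' hxx hx
      by_cases hxy : x = y
      · subst hxy
        rcases eq_or_lt_of_le hxx with h | h
        · rw [← h]; exact hx
        · exact (habv x' h).1
      · exact hT1 x x' hxx hxy hx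
    · intro x hx
      have hxy : ¬ x = y := fun h => hx (h ▸ hyF)
      rw [← hr ⟨x, hxy⟩]
      exact h2 _ (fun h => hx ((hm _).mp h))
    · intro x x' hxx hx hx'
      have hxy : ¬ x = y := fun h => hx (h ▸ hyF)
      rw [← hr ⟨x, hxy⟩, ← hr ⟨x', hp x x' hxx hxy⟩]
      exact h3 _ _ hxx (fun h => hx ((hm _).mp h)) (fun h => hx' ((hm _).mp h))
    · intro x x' hxx hx hx'
      by_cases hxy : x = y
      · subst hxy
        rw [hry h0']
        exact (habv x' hxx).2
      · rw [← hr ⟨x, hxy⟩, ← hr ⟨x', hp x x' hxx.le hxy⟩]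
        exact h4 _ _ hxx ((hm _).mpr hx) ((hm _).mpr hx')

open Classical in
/-- **A minimal element on the level of the window**, energies at most two. -/
theorem dvd_special (hgr : GradedBelow Q) (hy : ∀ x, x ≤ y → x = y) (hly : lev y = w) {v0 v1 : Q}
    (hv0 : y < v0) (hv1 : y < v1) (hl0 : lev v0 + 1 = w) (hl1 : lev v1 + 1 = w)
    (hab : ∀ x, y < x → v0 ≤ x ∨ v1 ≤ x)
    (h2 : ∀ p : Q, lev p = w + 1 → ((lv Q w).filter (fun x => p < x)).card ≤ 2)
    (h2' : ∀ p : Q, lev p + 1 = w → ((lv Q w).filter (fun x => x < p)).card ≤ 2)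
    (hlow : ∀ p : Q, lev p + 1 < w → ∃ p', p' < p ∧ lev p' = lev p + 1) {n c : ℕ} (hn : n ≤ 2)
    (hc : c + 1 ≤ (lv Q w).card)
    (hA : ∀ b ≤ n, (1 + X : ℤ[X]) ^ c ∣ Z {x // ¬ x = y} w b)
    (hB : ∀ b ≤ n, (1 + X : ℤ[X]) ^ c ∣ SC (fun (e : {x // ¬ x = y} → ℕ) F => Vd w e F ∧
      (e ⟨v0, hv0.ne'⟩ = 0 ∧ e ⟨v1, hv1.ne'⟩ = 0)) b) :
    (1 + X : ℤ[X]) ^ c ∣ Z Q w n := by
  rw [Z_eq_SC, SC_split (fun (e : Q → ℕ) F => Vd w e F) (fun e _ => 1 ≤ e y) n]
  refine dvd_add (dvd_site hgr hy hly h2 h2' hlow hn hc) ?_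
  rw [SC_split _ (fun _ F => y ∈ F) n]
  refine dvd_add ?_ ?_
  · have h5 : ∀ (e : Q → ℕ) (F : Finset Q), ((Vd w e F ∧ ¬ 1 ≤ e y) ∧ y ∈ F) ↔
        (Vd w e F ∧ (e y = 0 ∧ y ∈ F)) := by
      intro e F
      constructor
      · rintro ⟨⟨a, b⟩, c⟩
        exact ⟨a, by omega, c⟩
      · rintro ⟨a, b, c⟩
        exact ⟨⟨a, by omega⟩, c⟩
    rw [SC_congr h5]
    refine dvd_SC_prod (fun x => x = y) _ (fun e F => (∀ x, e x = 0) ∧ F = univ)
      (fun e F => Vd w e F ∧ (e ⟨v0, hv0.ne'⟩ = 0 ∧ e ⟨v1, hv1.ne'⟩ = 0)) ?_ hB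
    intro e F
    exact special_B hy hly hv0 hv1 hl0 hl1 hab e F
  · have h5 : ∀ (e : Q → ℕ) (F : Finset Q), ((Vd w e F ∧ ¬ 1 ≤ e y) ∧ y ∉ F) ↔
        (Vd w e F ∧ (e y = 0 ∧ y ∉ F)) := by
      intro e F
      constructor
      · rintro ⟨⟨a, b⟩, c⟩
        exact ⟨a, by omega, c⟩
      · rintro ⟨a, b, c⟩
        exact ⟨⟨a, by omega⟩, c⟩
    rw [SC_congr h5]
    refine dvd_SC_prod (fun x => x = y) _ (fun e F => (∀ x, e x = 0) ∧ F = ∅)
      (fun e F => Vd w e F) ?_ (fun b hb => by rw [← Z_eq_SC]; exact hA b hb)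
    intro e F
    exact special_A hy hly e F

end Special

end Pool.Agent.GaussPoset

end

/-! From `Pool.Agent.W_448fc_h67.FcI` -/

section

/-!
A common child of the fold end and the straight end of a stair: the component.
-/

namespace Pool.Agent.GaussPoset

set_option linter.unusedSectionVars false

open Polynomial Finset

universe u

lemma TriS.card_lv {T : Type u} [Fintype T] [PartialOrder T] [DecidableEq T] {m g u : ℕ}
    {co : T → ℕ × ℕ} (H : TriS T m co) (hm : m = 2 * g + u) (hu : u ≤ 1) (hg : 1 ≤ g) :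
    (lv T (m + u + 1)).card = g + 1 := by
  classical
  have hm1 : 1 ≤ m := by omega
  rw [← H.card_sites hm hu hg]
  refine Finset.card_bij (fun x _ => OrderDual.toDual x) ?_ ?_ ?_
  · intro x hx
    rw [mem_lv] at hx ⊢
    rw [H.lev_eq] at hx
    rw [H.dlev hm1]
    have e1 : OrderDual.ofDual (OrderDual.toDual x) = x := rfl
    rw [e1]
    omega
  · intro x _ y _ h
    exact h
  · intro a ha
    refine ⟨OrderDual.ofDual a, ?_, rfl⟩
    rw [mem_lv] at ha ⊢
    rw [H.dlev hm1] at ha
    rw [H.lev_eq]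
    have := H.sum_le (OrderDual.ofDual a)
    omega

variable {P : Type u} [Fintype P] [PartialOrder P] [DecidableEq P] {r m g u : ℕ}

/-- `z` covers exactly the fold end `F = (m, m)` and the straight end `S = (0, 2 m)` of a stair -/
structure CEl (t0 : Tops P) (Nc : Finset P) (co : P → ℕ × ℕ) (m : ℕ) (z F S : P) : Prop where
  chart : Chart (t0 : P) (fun c => c.1 ≤ c.2) Nc co
  strip : lowPart (2 * m) (t0 : P) ⊆ Nc
  F_mem : F ∈ Nc
  S_mem : S ∈ Nc
  co_F : co F = (m, m)
  co_S : co S = (0, 2 * m)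
  zF : z ⋖ F
  zS : z ⋖ S
  only : ∀ y, z ⋖ y → y = F ∨ y = S

namespace CEl

variable {t0 : Tops P} {Nc : Finset P} {co : P → ℕ × ℕ} {z F S : P}

lemma lt_iff (C : CEl t0 Nc co m z F S) {x : P} : z < x ↔ F ≤ x ∨ S ≤ x := by
  constructor
  · intro h
    obtain ⟨w, hw, hwx⟩ := exists_covBy_le h
    rcases C.only w hw with rfl | rfl
    · exact Or.inl hwx
    · exact Or.inr hwx
  · rintro (h | h)
    · exact C.zF.1.trans_le h
    · exact C.zS.1.trans_le h

lemma mem_of_lt (C : CEl t0 Nc co m z F S) {x : P} (h : z < x) : x ∈ Nc := by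
  rcases C.lt_iff.mp h with h | h
  · exact C.chart.up F C.F_mem x h
  · exact C.chart.up S C.S_mem x h

lemma lev_z (C : CEl t0 Nc co m z F S) (hgr : GradedBelow P) : lev z = 2 * m + 1 := by
  rw [hgr.lev_covBy C.zF, C.chart.lev F C.F_mem, C.co_F]
  simp only
  omega

lemma lt_cell (C : CEl t0 Nc co m z F S) {x : P} (h : z < x) :
    (co x).1 ≤ (co x).2 ∧ ((co x).2 ≤ m ∨ ((co x).1 = 0 ∧ (co x).2 ≤ 2 * m)) := by
  have hx := C.mem_of_lt h
  refine ⟨C.chart.mem x hx, ?_⟩
  rcases C.lt_iff.mp h with h' | h'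
  · left
    have := (C.chart.le_iff F C.F_mem x hx).mp h'
    rw [C.co_F] at this
    exact this.2
  · right
    have := (C.chart.le_iff S C.S_mem x hx).mp h'
    rw [C.co_S] at this
    exact ⟨Nat.le_zero.mp this.1, this.2⟩

lemma lt_of_cell (C : CEl t0 Nc co m z F S) {x : P} (hx : x ∈ Nc)
    (h : (co x).2 ≤ m ∨ ((co x).1 = 0 ∧ (co x).2 ≤ 2 * m)) : z < x := by
  rw [C.lt_iff]
  have h1 : (co x).1 ≤ (co x).2 := C.chart.mem x hx
  rcases h with h | h
  · left
    rw [C.chart.le_iff F C.F_mem x hx, C.co_F]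
    exact ⟨by simp only; omega, h⟩
  · right
    rw [C.chart.le_iff S C.S_mem x hx, C.co_S]
    exact ⟨by simp only; omega, h.2⟩

lemma ex_cell (C : CEl t0 Nc co m z F S) {s c : ℕ} (hsc : s ≤ c)
    (h : c ≤ m ∨ (s = 0 ∧ c ≤ 2 * m)) : ∃ x ∈ Nc, co x = (s, c) ∧ z < x := by
  rcases h with h | h
  · obtain ⟨y, hy, hcy⟩ := C.chart.low F C.F_mem (s, c) (by
      rw [C.co_F]
      exact ⟨by simp only; omega, h⟩) hsc
    exact ⟨y, hy, hcy, C.lt_of_cell hy (by rw [hcy]; exact Or.inl h)⟩
  · obtain ⟨y, hy, hcy⟩ := C.chart.low S C.S_mem (s, c) (by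
      rw [C.co_S]
      exact ⟨by simp only; omega, h.2⟩) hsc
    exact ⟨y, hy, hcy, C.lt_of_cell hy (by rw [hcy]; exact Or.inr h)⟩

/-- the elements above `z` -/
lemma triS (C : CEl t0 Nc co m z F S) {T : Type u} [Fintype T] [PartialOrder T] (f : T → P)
    (hf : ∀ x y, x ≤ y ↔ f x ≤ f y) (him : ∀ t, z < f t) (hsur : ∀ x, z < x → ∃ t, f t = x) :
    TriS T m (fun t => co (f t)) where
  inj := by
    intro x y h
    have h1 := C.chart.inj _ (C.mem_of_lt (him x)) _ (C.mem_of_lt (him y)) h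
    exact le_antisymm ((hf x y).mpr h1.le) ((hf y x).mpr h1.ge)
  le_iff := by
    intro x y
    rw [hf, C.chart.le_iff _ (C.mem_of_lt (him x)) _ (C.mem_of_lt (him y))]
  fst_le := fun x => (C.lt_cell (him x)).1
  snd_le := fun x => (C.lt_cell (him x)).2
  ex := by
    intro s c hsc h
    obtain ⟨x, -, hcx, hzx⟩ := C.ex_cell hsc h
    obtain ⟨t, rfl⟩ := hsur x hzx
    exact ⟨t, hcx⟩

/-- elements of the component which are not above `z` -/
lemma out (C : CEl t0 Nc co m z F S) (hm : 1 ≤ m) {x : P} (hx : x ≤ (t0 : P)) (hzx : ¬ z ≤ x) :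
    m + 2 ≤ lev x := by
  by_contra hcon
  have hxN : x ∈ Nc := C.strip (mem_lowPart.mpr ⟨hx, by omega⟩)
  have hl := C.chart.lev x hxN
  have h1 : (co x).1 ≤ (co x).2 := C.chart.mem x hxN
  exact hzx (C.lt_of_cell hxN (by omega)).le

/-- the maximal elements of the component which are not above `z` -/
lemma out_max (C : CEl t0 Nc co m z F S) (hm : 4 ≤ m) {y : P} (hy : y ≤ (t0 : P)) (hzy : ¬ z ≤ y)
    (habv : ∀ x, y < x → z ≤ x) : m + 5 ≤ lev y ∨ (y ∈ Nc ∧ co y = (1, m + 1)) := by
  rcases Nat.lt_or_ge (2 * m) (lev y) with h | h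
  · left; omega
  right
  have hyN : y ∈ Nc := C.strip (mem_lowPart.mpr ⟨hy, h⟩)
  refine ⟨hyN, ?_⟩
  have hl := C.chart.lev y hyN
  have h1 : (co y).1 ≤ (co y).2 := C.chart.mem y hyN
  have h2 : ¬ ((co y).2 ≤ m ∨ ((co y).1 = 0 ∧ (co y).2 ≤ 2 * m)) :=
    fun h => hzy (C.lt_of_cell hyN h).le
  have h3 : m < (co y).2 := by omega
  have h4 : 1 ≤ (co y).1 := by omega
  -- the element above in the same column
  have key : ∀ c : ℕ × ℕ, c ≤ co y → c ≠ co y → c.1 ≤ c.2 → c.2 ≤ m ∨ (c.1 = 0 ∧ c.2 ≤ 2 * m) := by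
    intro c hc hne hS
    obtain ⟨x, hx, hcx⟩ := C.chart.low y hyN c hc hS
    have hyx : y ≤ x := by rw [C.chart.le_iff y hyN x hx, hcx]; exact hc
    have hlt : y < x := lt_of_le_of_ne hyx (by
      rintro rfl
      exact hne hcx.symm)
    have hzx := habv x hlt
    have hlt' : z < x := lt_of_le_of_ne hzx (by
      rintro rfl
      exact absurd hlt.le (fun h' => by
        have := lev_strictAnti hlt
        have h5 := C.chart.lev z hx
        have h6 := lev_strictAnti C.zF.1
        have h7 := C.chart.lev F C.F_mem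
        rw [C.co_F] at h7
        simp only at h7
        omega))
    have := (C.lt_cell hlt').2
    rw [hcx] at this
    exact this
  have h5 := key ((co y).1 - 1, (co y).2) ⟨Nat.sub_le _ _, le_rfl⟩ (by
    intro h
    have := congrArg Prod.fst h
    simp only at this
    omega) (by simp only; omega)
  have h6 := key ((co y).1, (co y).2 - 1) ⟨le_rfl, Nat.sub_le _ _⟩ (by
    intro h
    have := congrArg Prod.snd h
    simp only at this
    omega) (by simp only; omega)
  simp only at h5 h6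
  exact Prod.ext (by simp only; omega) (by simp only; omega)

end CEl

section Nup

variable {Q : Type u} [Fintype Q] [PartialOrder Q] [DecidableEq Q]

lemma sub_le_nup {i : ℕ} {x : Q} : lev x - i ≤ nup i x := by
  classical
  have h1 : ∀ k ∈ range (lev x - i), ∃ y, x ≤ y ∧ lev y = i + 1 + k := by
    intro k hk
    rw [mem_range] at hk
    exact exists_above' (by omega)
  haveI : Nonempty Q := ⟨x⟩
  choose! f hf using h1
  unfold nup
  calc lev x - i = (range (lev x - i)).card := (card_range _).symm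
    _ ≤ _ := by
      refine Finset.card_le_card_of_injOn f ?_ ?_
      · intro k hk
        have := hf k (Finset.mem_coe.mp hk)
        rw [Finset.mem_coe, mem_filter]
        exact ⟨mem_univ _, this.1, by omega⟩
      · intro k hk k' hk' h
        have e1 := hf k (Finset.mem_coe.mp hk)
        have e2 := hf k' (Finset.mem_coe.mp hk')
        rw [h] at e1
        omega

/-- two elements on one level give one more -/
lemma sub_lt_nup {i : ℕ} {x a b : Q} (ha : x ≤ a) (hb : x ≤ b) (hab : a ≠ b)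
    (hl : lev a = lev b) (hi : i < lev a) : lev x - i + 1 ≤ nup i x := by
  classical
  have h1 : ∀ k ∈ range (lev x - i), ∃ y, x ≤ y ∧ lev y = i + 1 + k := by
    intro k hk
    rw [mem_range] at hk
    exact exists_above' (by omega)
  haveI : Nonempty Q := ⟨x⟩
  choose! f hf using h1
  have hinj : Set.InjOn f (range (lev x - i)) := by
    intro k hk k' hk' h
    have e1 := hf k (Finset.mem_coe.mp hk)
    have e2 := hf k' (Finset.mem_coe.mp hk')
    rw [h] at e1
    omega
  -- one of `a`, `b` is not in the image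
  have h3 : ∃ c, x ≤ c ∧ lev c = lev a ∧ c ∉ (range (lev x - i)).image f := by
    by_cases hc : a ∈ (range (lev x - i)).image f
    · refine ⟨b, hb, hl.symm, fun hb' => ?_⟩
      rw [mem_image] at hc hb'
      obtain ⟨k, hk, rfl⟩ := hc
      obtain ⟨k', hk', rfl⟩ := hb'
      have e1 := (hf k hk).2
      have e2 := (hf k' hk').2
      apply hab
      have : k = k' := by omega
      rw [this]
    · exact ⟨a, ha, rfl, hc⟩
  obtain ⟨c, hc1, hc2, hc3⟩ := h3
  unfold nup
  have h4 : (insert c ((range (lev x - i)).image f)).card = lev x - i + 1 := by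
    rw [card_insert_of_notMem hc3, card_image_of_injOn hinj, card_range]
  rw [← h4]
  refine Finset.card_le_card fun y hy => ?_
  rw [mem_insert, mem_image] at hy
  rw [mem_filter]
  rcases hy with rfl | ⟨k, hk, rfl⟩
  · exact ⟨mem_univ _, hc1, by omega⟩
  · have := hf k hk
    exact ⟨mem_univ _, this.1, by omega⟩

end Nup

end Pool.Agent.GaussPoset

end

/-! From `Pool.Agent.W_448fc_h67.FcJ` -/

section

/-!
The dangerous part of a common child of the fold end and the straight end, one component.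
-/

namespace Pool.Agent.GaussPoset

set_option linter.unusedSectionVars false

open Polynomial Finset

universe u

section General

variable {Q : Type u} [Fintype Q] [PartialOrder Q] [DecidableEq Q]

lemma gradedBelow_sub {L : Finset Q} (hgr : GradedBelow Q)
    (hL : ∀ x y, x ≤ y → x ∈ L → y ∈ L) : GradedBelow {x // x ∈ L} := by
  have hl : ∀ x : {x // x ∈ L}, lev x = lev (x : Q) := lev_subtype (p := fun x => x ∈ L) hL
  intro z x hzx
  obtain ⟨w, h1, h2, h3⟩ := hgr z x hzx
  refine ⟨⟨w, hL z w h1 z.2⟩, h1, h2, ?_⟩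
  rw [hl, hl]
  exact h3

/-- the number of sites of a larger set -/
lemma card_lv_le {T : Type u} [Fintype T] [PartialOrder T] [DecidableEq T] {w : ℕ} (f : T → Q)
    (hinj : Function.Injective f) (hlev : ∀ t, lev (f t) = lev t) :
    (lv T w).card ≤ (lv Q w).card := by
  refine Finset.card_le_card_of_injOn f ?_ hinj.injOn
  intro t ht
  rw [Finset.mem_coe, mem_lv] at ht ⊢
  rw [hlev]
  exact ht

end General

variable {P : Type u} [Fintype P] [PartialOrder P] [DecidableEq P] {r m g u : ℕ}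

namespace CEl

variable {t0 : Tops P} {Nc : Finset P} {co : P → ℕ × ℕ} {z F S : P}

section Comp

variable {Q : Type u} [Fintype Q] [PartialOrder Q] [DecidableEq Q]

/-- an up-closed part of `P` below the top `t0` -/
structure Emb (t0 : Tops P) (z : P) (f : Q → P) : Prop where
  le_iff : ∀ x y, x ≤ y ↔ f x ≤ f y
  up : ∀ x y, f x ≤ y → ∃ y', f y' = y
  le_t : ∀ x, f x ≤ (t0 : P)
  z : ∃ x, f x = z

variable {f : Q → P}

lemma Emb.inj (E : Emb t0 z f) : Function.Injective f := by
  intro x y h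
  exact le_antisymm ((E.le_iff x y).mpr h.le) ((E.le_iff y x).mpr h.ge)

lemma Emb.lt_iff (E : Emb t0 z f) (x y : Q) : x < y ↔ f x < f y := by
  rw [lt_iff_le_not_ge, lt_iff_le_not_ge, ← E.le_iff, ← E.le_iff]

lemma Emb.lev (E : Emb t0 z f) (x : Q) : Pool.Agent.GaussPoset.lev x =
    Pool.Agent.GaussPoset.lev (f x) := by
  refine lev_eq_of (f := fun x => Pool.Agent.GaussPoset.lev (f x)) ?_ ?_ x
  · intro a b hab
    exact lev_strictAnti ((E.lt_iff a b).mp hab)
  · intro x hx
    obtain ⟨k, hk⟩ := Nat.exists_eq_succ_of_ne_zero hx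
    obtain ⟨y, hy, hy2⟩ := exists_lev_succ hk
    obtain ⟨y', rfl⟩ := E.up x y hy.le
    exact ⟨y', (E.lt_iff x y').mpr hy, by simp only [hk, hy2]⟩

lemma Emb.graded (E : Emb t0 z f) (hgr : GradedBelow P) : GradedBelow Q := by
  intro a b hab
  obtain ⟨w, h1, h2, h3⟩ := hgr _ _ ((E.lt_iff a b).mp hab)
  obtain ⟨w', rfl⟩ := E.up a w h1
  refine ⟨w', (E.le_iff _ _).mpr h1, (E.lt_iff _ _).mpr h2, ?_⟩
  rw [E.lev, E.lev]
  exact h3

open Classical in
/-- the elements above `z` in `Q` -/
noncomputable def upz (z : P) (f : Q → P) : Finset Q := univ.filter (fun x => z ≤ f x)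

open Classical in
/-- the elements strictly above `z` in `Q` -/
noncomputable def tz (z : P) (f : Q → P) : Finset Q := univ.filter (fun x => z < f x)

lemma mem_upz {x : Q} : x ∈ upz z f ↔ z ≤ f x := by
  classical
  unfold upz
  simp

lemma mem_tz {x : Q} : x ∈ tz z f ↔ z < f x := by
  classical
  unfold tz
  simp

lemma Emb.upz_up (E : Emb t0 z f) : ∀ x y, x ≤ y → x ∈ upz z f → y ∈ upz z f := by
  intro x y hxy hx
  rw [mem_upz] at hx ⊢
  exact hx.trans ((E.le_iff x y).mp hxy)

lemma Emb.tz_up (E : Emb t0 z f) : ∀ x y, x ≤ y → x ∈ tz z f → y ∈ tz z f := by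
  intro x y hxy hx
  rw [mem_tz] at hx ⊢
  exact hx.trans_le ((E.le_iff x y).mp hxy)

/-- the strict part is a closed stair with a chain -/
lemma triS_tz (C : CEl t0 Nc co m z F S) (E : Emb t0 z f) :
    TriS {x // x ∈ tz z f} m (fun t => co (f t)) := by
  obtain ⟨z', hz'⟩ := E.z
  refine C.triS (fun t : {x // x ∈ tz z f} => f t) (fun x y => E.le_iff _ _)
    (fun t => mem_tz.mp t.2) ?_
  intro x hx
  obtain ⟨y', hy'⟩ := E.up z' x (by rw [hz']; exact hx.le)
  exact ⟨⟨y', mem_tz.mpr (by rw [hy']; exact hx)⟩, hy'⟩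

/-- many elements above `z` -/
lemma nup_z (C : CEl t0 Nc co m z F S) (hgr : GradedBelow P) (E : Emb t0 z f)
    (hmu : m + u + 1 < 2 * m) {x : Q} (hx : f x = z) : m - u + 1 ≤ nup (m + u + 1) x := by
  obtain ⟨a, ha⟩ := E.up x F (by rw [hx]; exact C.zF.1.le)
  obtain ⟨b, hb⟩ := E.up x S (by rw [hx]; exact C.zS.1.le)
  have hlF := C.chart.lev F C.F_mem
  have hlS := C.chart.lev S C.S_mem
  rw [C.co_F] at hlF
  rw [C.co_S] at hlS
  simp only at hlF hlS
  have hz := C.lev_z hgr
  have h1 := sub_lt_nup (i := m + u + 1) (x := x) (a := a) (b := b)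
    ((E.le_iff _ _).mpr (by rw [hx, ha]; exact C.zF.1.le))
    ((E.le_iff _ _).mpr (by rw [hx, hb]; exact C.zS.1.le)) ?_ ?_ ?_
  · rw [E.lev, hx, hz] at h1
    omega
  · rintro rfl
    have : F = S := ha.symm.trans hb
    have h2 := C.co_F
    rw [this, C.co_S, Prod.mk.injEq] at h2
    omega
  · rw [E.lev, E.lev, ha, hb, hlF, hlS]
    omega
  · rw [E.lev, ha, hlF]
    omega

lemma tz_sub : tz z f ⊆ upz z f := by
  intro x hx
  rw [mem_tz] at hx
  rw [mem_upz]
  exact hx.le

/-- `z` itself is costly -/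
lemma Z_upz (C : CEl t0 Nc co m z F S) (hgr : GradedBelow P) (E : Emb t0 z f)
    (hmu : m + u + 1 < 2 * m) {n : ℕ} (hn : n < m - u + 1) :
    Z {x // x ∈ upz z f} (m + u + 1) n = Z {x // x ∈ tz z f} (m + u + 1) n := by
  refine Z_sub E.tz_up E.upz_up tz_sub ?_ ?_
  · intro x hx hx'
    rw [mem_upz] at hx
    rw [mem_tz] at hx'
    have h1 : f x = z := by
      by_contra hne
      exact hx' (lt_of_le_of_ne hx (Ne.symm hne))
    rw [E.lev, h1, C.lev_z hgr]
    omega
  · intro x hx hx'
    rw [mem_upz] at hx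
    rw [mem_tz] at hx'
    have h1 : f x = z := by
      by_contra hne
      exact hx' (lt_of_le_of_ne hx (Ne.symm hne))
    exact hn.trans_le (C.nup_z hgr E hmu h1)

/-- the special element `(1, m + 1)` -/
lemma special (C : CEl t0 Nc co m z F S) (H : Gr P r) (E : Emb t0 z f) (hm : m = 2 * g + 1)
    (hg : 2 ≤ g) {y : Q} (hyN : f y ∈ Nc) (hcy : co (f y) = (1, m + 1)) {L : Finset Q}
    (hL : ∀ x y, x ≤ y → x ∈ L → y ∈ L) (hLy : ∀ x, x ∈ L ↔ x = y ∨ x ∈ upz z f) {n : ℕ}
    (hn : n ≤ 2) : (1 + X : ℤ[X]) ^ (g + 1) ∣ Z {x // x ∈ L} (m + 2) n := by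
  classical
  have hgr := H.gradedBelow
  have hgQ := E.graded hgr
  have hly : lev y = m + 2 := by
    rw [E.lev, C.chart.lev _ hyN, hcy]
    simp only
    omega
  have hyz : ¬ z < f y := by
    intro h
    have := C.lt_cell h
    rw [hcy] at this
    simp only at this
    omega
  -- the set without `z`
  let K : Finset Q := insert y (tz z f)
  have hK : ∀ x, x ∈ K ↔ x = y ∨ x ∈ tz z f := fun x => mem_insert
  have habove : ∀ x, y < x → x ∈ tz z f := by
    intro x hx
    have h1 : x ∈ L := hL y x hx.le ((hLy y).mpr (Or.inl rfl))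
    rcases (hLy x).mp h1 with h | h
    · exact absurd h hx.ne'
    · rw [mem_upz] at h
      rw [mem_tz]
      refine lt_of_le_of_ne h ?_
      intro h2
      have h3 := lev_strictAnti hx
      rw [E.lev x, ← h2, C.lev_z hgr, hly] at h3
      omega
  have hKup : ∀ x x', x ≤ x' → x ∈ K → x' ∈ K := by
    intro x x' hxx hx
    rw [hK] at hx ⊢
    rcases hx with rfl | hx
    · rcases eq_or_lt_of_le hxx with h | h
      · exact Or.inl h.symm
      · exact Or.inr (habove x' h)
    · exact Or.inr (E.tz_up x x' hxx hx)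
  have hKL : K ⊆ L := by
    intro x hx
    rw [hK] at hx
    rw [hLy]
    rcases hx with h | h
    · exact Or.inl h
    · exact Or.inr (tz_sub h)
  have hout : ∀ x ∈ L, x ∉ K → f x = z := by
    intro x hx hxK
    rw [hK] at hxK
    push Not at hxK
    rcases (hLy x).mp hx with h | h
    · exact absurd h hxK.1
    · rw [mem_upz] at h
      by_contra hne
      exact hxK.2 (mem_tz.mpr (lt_of_le_of_ne h (Ne.symm hne)))
  rw [Z_sub hKup hL hKL (fun x hx hxK => by
      rw [E.lev, hout x hx hxK, C.lev_z hgr]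
      omega) (fun x hx hxK => by
      have : m - 1 + 1 ≤ nup (m + 2) x := C.nup_z (u := 1) hgr E (by omega) (hout x hx hxK)
      omega)]
  -- the poset `K`
  have hl : ∀ x : {x // x ∈ K}, lev x = lev (x : Q) := lev_subtype (p := fun x => x ∈ K) hKup
  let y' : {x // x ∈ K} := ⟨y, (hK y).mpr (Or.inl rfl)⟩
  obtain ⟨V0, hV0, hcV0, hzV0⟩ := C.ex_cell (s := 0) (c := m + 1) (Nat.zero_le _)
    (Or.inr ⟨rfl, by omega⟩)
  obtain ⟨V1, hV1, hcV1, hzV1⟩ := C.ex_cell (s := 1) (c := m) (by omega) (Or.inl le_rfl)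
  have hyV0 : f y ≤ V0 := by
    rw [C.chart.le_iff _ hyN _ hV0, hcy, hcV0]
    exact ⟨by simp only; omega, by simp only; omega⟩
  have hyV1 : f y ≤ V1 := by
    rw [C.chart.le_iff _ hyN _ hV1, hcy, hcV1]
    exact ⟨by simp only; omega, by simp only; omega⟩
  obtain ⟨w0, hw0⟩ := E.up y V0 hyV0
  obtain ⟨w1, hw1⟩ := E.up y V1 hyV1
  let v0 : {x // x ∈ K} := ⟨w0, (hK w0).mpr (Or.inr (mem_tz.mpr (by rw [hw0]; exact hzV0)))⟩
  let v1 : {x // x ∈ K} := ⟨w1, (hK w1).mpr (Or.inr (mem_tz.mpr (by rw [hw1]; exact hzV1)))⟩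
  have hlv0 : lev v0 + 1 = m + 2 := by
    rw [hl, E.lev]
    show lev (f w0) + 1 = m + 2
    rw [hw0, C.chart.lev _ hV0, hcV0]
    simp only
    omega
  have hlv1 : lev v1 + 1 = m + 2 := by
    rw [hl, E.lev]
    show lev (f w1) + 1 = m + 2
    rw [hw1, C.chart.lev _ hV1, hcV1]
    simp only
    omega
  have hly' : lev y' = m + 2 := by
    rw [hl]
    exact hly
  have hyv0 : y' < v0 := by
    refine lt_of_le_of_ne ((E.le_iff y w0).mpr (by rw [hw0]; exact hyV0)) ?_
    intro h
    rw [← h] at hlv0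
    omega
  have hyv1 : y' < v1 := by
    refine lt_of_le_of_ne ((E.le_iff y w1).mpr (by rw [hw1]; exact hyV1)) ?_
    intro h
    rw [← h] at hlv1
    omega
  have hmin : ∀ x, x ≤ y' → x = y' := by
    intro x hx
    rcases (hK x).mp x.2 with h | h
    · exact Subtype.ext h
    · exfalso
      rw [mem_tz] at h
      exact hyz (h.trans_le ((E.le_iff _ _).mp hx))
  have hrest : ∀ x : {x // x ∈ K}, ¬ x = y' → z < f x := by
    intro x hx
    rcases (hK x).mp x.2 with h | h
    · exact absurd (Subtype.ext h) hx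
    · exact mem_tz.mp h
  -- the stair
  have hT : TriS {x : {x // x ∈ K} // ¬ x = y'} m (fun t => co (f t.1.1)) := by
    refine C.triS (fun t : {x : {x // x ∈ K} // ¬ x = y'} => f t.1.1)
      (fun x y => E.le_iff _ _) (fun t => hrest t.1 t.2) ?_
    intro x hx
    obtain ⟨z', hz'⟩ := E.z
    obtain ⟨x', hx'⟩ := E.up z' x (by rw [hz']; exact hx.le)
    have h1 : x' ∈ tz z f := mem_tz.mpr (by rw [hx']; exact hx)
    refine ⟨⟨⟨x', (hK x').mpr (Or.inr h1)⟩, ?_⟩, hx'⟩
    intro h
    have h2 : x' = y := congrArg Subtype.val h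
    rw [h2, mem_tz] at h1
    exact hyz h1
  have hle2 : ∀ (s : Finset {x // x ∈ K}) (U : Finset P), U.card ≤ 2 →
      (∀ x ∈ s, f x.1 ∈ U) → s.card ≤ 2 := by
    intro s U hU hs
    refine le_trans ?_ hU
    refine Finset.card_le_card_of_injOn (fun x => f x.1) (fun x hx => hs x hx) ?_
    intro x _ x' _ h
    exact Subtype.ext (E.inj h)
  refine dvd_special (w := m + 2) (gradedBelow_sub hgQ hKup) hmin hly' hyv0 hyv1 hlv0 hlv1 ?_ ?_ ?_ ?_
    hn ?_ ?_ ?_
  · -- elements above `y`
    intro x hx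
    have h1 : f y < f x.1 := (E.lt_iff _ _).mp hx
    have hxN := C.mem_of_lt (hrest x hx.ne')
    have h2 := (C.chart.le_iff _ hyN _ hxN).mp h1.le
    rw [hcy] at h2
    have h3 := h2.1
    have h4 := h2.2
    simp only at h3 h4
    have h5 := C.chart.lev _ hxN
    have h6 := lev_strictAnti h1
    rw [C.chart.lev _ hyN, hcy, h5] at h6
    simp only at h6
    rcases Nat.eq_zero_or_pos (co (f x.1)).1 with h7 | h7
    · left
      refine (E.le_iff _ _).mpr ?_
      show f w0 ≤ f x.1
      rw [hw0, C.chart.le_iff _ hV0 _ hxN, hcV0]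
      exact ⟨h7.le, h4⟩
    · right
      refine (E.le_iff _ _).mpr ?_
      show f w1 ≤ f x.1
      rw [hw1, C.chart.le_iff _ hV1 _ hxN, hcV1]
      exact ⟨h3, by simp only; omega⟩
  · -- above the elements below the window
    intro p hp
    refine hle2 _ (Win.uc (f p.1)) (Win.uc_card_le H _) ?_
    intro x hx
    rw [mem_filter, mem_lv] at hx
    rw [Win.mem_uc]
    refine covBy_of_lev ((E.lt_iff _ _).mp hx.2) ?_
    rw [← E.lev, ← E.lev, ← hl, ← hl, hx.1, hp]
  · -- below the elements above the window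
    intro p hp
    refine hle2 _ (Win.dc (f p.1)) (Win.dc_card_le H _) ?_
    intro x hx
    rw [mem_filter, mem_lv] at hx
    rw [Win.mem_dc]
    refine covBy_of_lev ((E.lt_iff _ _).mp hx.2) ?_
    rw [← E.lev, ← E.lev, ← hl, ← hl, hx.1, hp]
  · -- lower covers
    intro p hp
    have hpy : ¬ p = y' := by
      rintro rfl
      omega
    have hzp := hrest p hpy
    have hpN := C.mem_of_lt hzp
    have h1 := C.chart.lev _ hpN
    rw [hl, E.lev, h1] at hp
    have h2 := C.lt_cell hzp
    obtain ⟨x, hx, hcx, hzx⟩ := C.ex_cell (s := (co (f p.1)).1) (c := (co (f p.1)).2 + 1)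
      (by omega) (by omega)
    have hxp : x ≤ f p.1 := by
      rw [C.chart.le_iff _ hx _ hpN, hcx]
      exact ⟨le_rfl, Nat.le_succ _⟩
    obtain ⟨z', hz'⟩ := E.z
    obtain ⟨x', hx'⟩ := E.up z' x (by rw [hz']; exact hzx.le)
    refine ⟨⟨x', (hK x').mpr (Or.inr (mem_tz.mpr (by rw [hx']; exact hzx)))⟩, ?_, ?_⟩
    · refine lt_of_le_of_ne ((E.le_iff _ _).mpr (by
        show f x' ≤ f p.1
        rw [hx']; exact hxp)) ?_
      intro h
      have h3 : f x' = f p.1 := congrArg (fun t : {x // x ∈ K} => f t.1) h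
      rw [hx'] at h3
      rw [h3] at hcx
      have := congrArg Prod.snd hcx
      simp only at this
      omega
    · rw [hl, hl, E.lev, E.lev, h1]
      show lev (f x') = _
      rw [hx', C.chart.lev _ hx, hcx]
      simp only
      omega
  · -- number of sites
    have h1 := hT.card_lv hm le_rfl (by omega)
    have h2 : (insert y' ((lv {x : {x // x ∈ K} // ¬ x = y'} (m + 1 + 1)).map
        (Function.Embedding.subtype _))).card = g + 1 + 1 := by
      rw [card_insert_of_notMem, card_map, h1]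
      intro h
      rw [mem_map] at h
      obtain ⟨a, -, ha⟩ := h
      exact a.2 ha
    rw [← h2]
    refine Finset.card_le_card ?_
    intro x hx
    rw [mem_insert, mem_map] at hx
    rw [mem_lv]
    rcases hx with rfl | ⟨a, ha, rfl⟩
    · exact hly'
    · rw [mem_lv] at ha
      have h3 := lev_subtype (P := {x // x ∈ K}) (p := fun x => ¬ x = y') (fun x x' hxx hx h =>
        hx (hmin x (h ▸ hxx))) a
      show lev (a : {x // x ∈ K}) = m + 2
      omega
  · intro b hb
    exact hT.core_lt hm le_rfl (by omega) (by omega) (by omega)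
  · intro b hb
    refine hT.core_frozen hm hg ?_ ?_ b
    · show co (f w0) = (0, m + 1)
      rw [hw0, hcV0]
    · show co (f w1) = (1, m)
      rw [hw1, hcV1]

end Comp

end CEl

end Pool.Agent.GaussPoset

end

/-! From `Pool.Agent.W_448fc_h67.FcK` -/

section

/-!
The dangerous part of a common child of the fold end and the straight end: one component.
-/

namespace Pool.Agent.GaussPoset

set_option linter.unusedSectionVars false

open Polynomial Finset

universe u

variable {P : Type u} [Fintype P] [PartialOrder P] [DecidableEq P] {r m g u : ℕ}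

namespace CEl

variable {t0 : Tops P} {Nc : Finset P} {co : P → ℕ × ℕ} {z F S : P}

section Comp

variable {Q : Type u} [Fintype Q] [PartialOrder Q] [DecidableEq Q] {f : Q → P}

/-- the core below the energy of the pole -/
lemma core_lt (C : CEl t0 Nc co m z F S) (hgr : GradedBelow P) (E : Emb t0 z f)
    (hm : m = 2 * g + u) (hu : u ≤ 1) (hg : 1 ≤ g) (hgu : g = 1 → u = 0) {n : ℕ}
    (hn : n < (u + 1) ^ 2) : (1 + X : ℤ[X]) ^ (g + 1) ∣ Z {x // x ∈ upz z f} (m + u + 1) n := by
  have hn' : n < m - u + 1 := by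
    rcases Nat.le_one_iff_eq_zero_or_eq_one.mp hu with h | h
    · subst h; simp at hn; omega
    · subst h
      have : g ≠ 1 := fun h => by have := hgu h; omega
      have : n < 4 := hn
      omega
  rw [C.Z_upz hgr E (by
    have : g = 1 → u = 0 := hgu
    omega) hn']
  exact (C.triS_tz E).core_lt hm hu hg hgu hn

/-- the value at the energy of the pole -/
lemma core_eq (C : CEl t0 Nc co m z F S) (hgr : GradedBelow P) (E : Emb t0 z f)
    (hm : m = 2 * g + u) (hu : u ≤ 1) (hg : 1 ≤ g) (hgu : g = 1 → u = 0) :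
    ∃ a, a + 2 * u + 1 = below {x // x ∈ tz z f} (m + u + 1) ∧
      (1 + X : ℤ[X]) ^ (g + 1) ∣ Z {x // x ∈ upz z f} (m + u + 1) ((u + 1) ^ 2) -
        X ^ a * (1 + X) ^ g := by
  have hn' : (u + 1) ^ 2 < m - u + 1 := by
    rcases Nat.le_one_iff_eq_zero_or_eq_one.mp hu with h | h
    · subst h; simp; omega
    · subst h
      have : g ≠ 1 := fun h => by have := hgu h; omega
      have : (1 + 1) ^ 2 = 4 := by norm_num
      omega
  rw [C.Z_upz hgr E (by
    have : g = 1 → u = 0 := hgu
    omega) hn']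
  exact (C.triS_tz E).core_eq hm hu hg hgu

/-- the classes of larger up-sets -/
lemma cls (C : CEl t0 Nc co m z F S) (H : Gr P r) (E : Emb t0 z f)
    (hm : m = 2 * g + u) (hu : u ≤ 1) (hg : 1 ≤ g) (hgu : g = 1 → u = 0) {L : Finset Q}
    (hL : ∀ x y, x ≤ y → x ∈ L → y ∈ L) (hUL : upz z f ⊆ L) (hne : L ≠ upz z f) {n : ℕ}
    (hn : n + (u + 1) * (L \ upz z f).card ≤ (u + 1) ^ 2) :
    (1 + X : ℤ[X]) ^ (g + 1) ∣ Z {x // x ∈ L} (m + u + 1) n := by
  classical
  have hgr := H.gradedBelow
  have hgQ := E.graded hgr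
  have hpos : 1 ≤ (L \ upz z f).card := by
    rw [Nat.one_le_iff_ne_zero]
    intro h
    rw [card_eq_zero, sdiff_eq_empty_iff_subset] at h
    exact hne (Finset.Subset.antisymm h hUL)
  rcases Nat.eq_zero_or_pos n with h0 | h0
  · subst h0
    rw [Z_zero]
    refine dvd_mul_of_dvd_right (pow_dvd_pow _ ?_) _
    rw [← (C.triS_tz E).card_lv hm hu hg]
    refine card_lv_le (fun t : {x // x ∈ tz z f} => (⟨(t : Q), hUL (tz_sub t.2)⟩ : {x // x ∈ L}))
      ?_ ?_
    · intro a b h
      exact Subtype.ext (congrArg (fun t : {x // x ∈ L} => (t : Q)) h)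
    · intro t
      have h1 : ∀ x : {x // x ∈ L}, lev x = lev (x : Q) := lev_subtype (p := fun x => x ∈ L) hL
      have h2 : ∀ x : {x // x ∈ tz z f}, lev x = lev (x : Q) :=
        lev_subtype (p := fun x => x ∈ tz z f) E.tz_up
      rw [h1, h2]
  · -- one more element, `u = 1`
    rcases Nat.le_one_iff_eq_zero_or_eq_one.mp hu with hu0 | hu1
    · subst hu0
      simp at hn
      omega
    · subst hu1
      have hg2 : 2 ≤ g := by
        have : g ≠ 1 := fun h => by have := hgu h; omega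
        omega
      have h4 : (1 + 1) ^ 2 = 4 := by norm_num
      rw [h4] at hn
      have hc : (L \ upz z f).card = 1 := by omega
      have hn2 : n ≤ 2 := by omega
      obtain ⟨y, hy⟩ := card_eq_one.mp hc
      have hyL : y ∈ L ∧ y ∉ upz z f := by
        have : y ∈ L \ upz z f := by rw [hy]; exact mem_singleton_self y
        exact mem_sdiff.mp this
      have hLy : ∀ x, x ∈ L ↔ x = y ∨ x ∈ upz z f := by
        intro x
        constructor
        · intro hx
          by_cases h : x ∈ upz z f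
          · exact Or.inr h
          · left
            have : x ∈ L \ upz z f := mem_sdiff.mpr ⟨hx, h⟩
            rw [hy] at this
            exact mem_singleton.mp this
        · rintro (h | h)
          · rw [h]; exact hyL.1
          · exact hUL h
      have habv : ∀ x, f y < x → z ≤ x := by
        intro x hx
        obtain ⟨x', rfl⟩ := E.up y x hx.le
        have h5 : y < x' := (E.lt_iff _ _).mpr hx
        rcases (hLy x').mp (hL y x' h5.le hyL.1) with h | h
        · exact absurd h h5.ne'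
        · exact mem_upz.mp h
      have hzy : ¬ z ≤ f y := fun h => hyL.2 (mem_upz.mpr h)
      rcases C.out_max (by omega) (E.le_t y) hzy habv with hfar | ⟨hyN, hcy⟩
      · rw [Z_sub E.upz_up hL hUL]
        · exact C.core_lt hgr E hm le_rfl hg hgu (by omega)
        · intro x hx hx'
          rcases (hLy x).mp hx with h | h
          · rw [h, E.lev]; omega
          · exact absurd h hx'
        · intro x hx hx'
          rcases (hLy x).mp hx with h | h
          · have h6 : lev x - (m + 1 + 1) ≤ nup (m + 1 + 1) x := sub_le_nup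
            rw [h, E.lev] at h6
            rw [h]
            omega
          · exact absurd h hx'
      · exact C.special H E hm hg2 hyN hcy hL hLy hn2

/-- the sum over configurations with dangerous labels on a set, one component -/
theorem comp (C : CEl t0 Nc co m z F S) (H : Gr P r) (E : Emb t0 z f)
    (hm : m = 2 * g + u) (hu : u ≤ 1) (hg : 1 ≤ g) (hgu : g = 1 → u = 0) (Sd : Finset Q)
    {z' : Q} (hz' : f z' = z) (hzS : z' ∈ Sd) :
    (∀ n < (u + 1) ^ 2 + ∑ x ∈ upz z f, min (u + 1) (lev x - m), (1 + X : ℤ[X]) ^ (g + 1) ∣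
      SC (fun (e : Q → ℕ) F => Vd m e F ∧ Sd ⊆ upL m (u + 1) e F) n) ∧
    ((∃ x ∈ Sd, ¬ z' ≤ x) → (1 + X : ℤ[X]) ^ (g + 1) ∣
      SC (fun (e : Q → ℕ) F => Vd m e F ∧ Sd ⊆ upL m (u + 1) e F)
      ((u + 1) ^ 2 + ∑ x ∈ upz z f, min (u + 1) (lev x - m))) ∧
    ((∀ x ∈ Sd, z' ≤ x) → (1 + X : ℤ[X]) ^ (g + 1) ∣
      SC (fun (e : Q → ℕ) F => Vd m e F ∧ Sd ⊆ upL m (u + 1) e F)
      ((u + 1) ^ 2 + ∑ x ∈ upz z f, min (u + 1) (lev x - m)) -
      Z {x // x ∈ upz z f} (m + u + 1) ((u + 1) ^ 2)) := by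
  classical
  have hgr := H.gradedBelow
  have hmem : ∀ x : Q, x ∈ upz z f ↔ z' ≤ x := by
    intro x
    rw [mem_upz, ← hz', ← E.le_iff]
  have key := SC_core (Q := Q) (i := m) (k := u + 1) (B := (u + 1) ^ 2) (b := g + 1)
    (U := upz z f) (by omega) E.upz_up (fun L => Sd ⊆ L) ?_ ?_ ?_ ?_
  · refine ⟨key.1, ?_, ?_⟩
    · rintro ⟨x, hx, hzx⟩
      exact key.2.1 fun h => hzx ((hmem x).mp (h hx))
    · intro h
      exact key.2.2 fun x hx => (hmem x).mpr (h x hx)
  · intro L hL hS x hx
    exact hL z' x ((hmem x).mp hx) (hS hzS)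
  · intro x hx
    have h1 := C.out (by omega) (E.le_t x) (fun h => hx (mem_upz.mpr h))
    rw [E.lev]
    omega
  · intro _ n hn
    exact C.core_lt hgr E hm hu hg hgu hn
  · intro L hL hUL hne n hn
    exact C.cls H E hm hu hg hgu hL hUL hne hn

end Comp

end CEl

end Pool.Agent.GaussPoset

end

/-! From `Pool.Agent.W_448fc_h67.FcM` -/

section

/-!
The pole of a common child of the fold end and the straight end of a stair at window `m`.
-/

namespace Pool.Agent.GaussPoset

set_option linter.unusedSectionVars false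

open Polynomial Finset

universe u

/-- number of elements of the low levels -/
lemma TriS.card_lv_low {T : Type u} [Fintype T] [PartialOrder T] [DecidableEq T] {m l : ℕ}
    {co : T → ℕ × ℕ} (H : TriS T m co) (hm : 1 ≤ m) (hl : l ≤ m + 1) :
    (lv T l).card = l / 2 + 1 := by
  classical
  rw [← card_range (l / 2 + 1)]
  refine Finset.card_bij (fun x _ => (co x).1) ?_ ?_ ?_
  · intro x hx
    rw [mem_lv, H.lev_eq] at hx
    have := H.fst_le x
    rw [mem_range]
    omega
  · intro x hx y hy h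
    rw [mem_lv, H.lev_eq] at hx hy
    exact H.inj x y (Prod.ext h (by omega))
  · intro s hs
    rw [mem_range] at hs
    obtain ⟨x, hx⟩ := H.ex s (l - s) (by omega) (by omega)
    refine ⟨x, ?_, by rw [hx]⟩
    rw [mem_lv, H.lev_eq, hx]
    simp only
    omega

lemma below_succ (T : Type u) [Fintype T] [PartialOrder T] [DecidableEq T] (l : ℕ) :
    below T (l + 1) = below T l + (lv T l).card := by
  classical
  unfold below
  have h1 : (univ.filter (fun x : T => lev x < l + 1)) =
      (univ.filter (fun x : T => lev x < l)) ∪ lv T l := by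
    ext x
    rw [mem_union, mem_filter, mem_filter, mem_lv]
    simp only [mem_univ, true_and]
    omega
  rw [h1, card_union_of_disjoint]
  rw [Finset.disjoint_left]
  intro x hx hx'
  rw [mem_filter] at hx
  rw [mem_lv] at hx'
  omega

lemma TriS.below_eq {T : Type u} [Fintype T] [PartialOrder T] [DecidableEq T] {m g u : ℕ}
    {co : T → ℕ × ℕ} (H : TriS T m co) (hm : m = 2 * g + u) (hu : u ≤ 1) (hg : 1 ≤ g) :
    below T (m + u + 1) = below T m + (u + 1) * g + 2 * u + 1 := by
  rcases Nat.le_one_iff_eq_zero_or_eq_one.mp hu with h | h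
  · subst h
    rw [show m + 0 + 1 = m + 1 by omega, below_succ, H.card_lv_low (by omega) (by omega)]
    omega
  · subst h
    rw [show m + 1 + 1 = (m + 1) + 1 by omega, below_succ, below_succ,
      H.card_lv_low (by omega) (by omega), H.card_lv_low (by omega) (by omega)]
    omega

variable {P : Type u} [Fintype P] [PartialOrder P] [DecidableEq P] {r m g u : ℕ}

namespace CEl

variable {t0 : Tops P} {Nc : Finset P} {co : P → ℕ × ℕ} {z F S : P}
  {N : Tops P → Finset P}

lemma z_only (C : CEl t0 Nc co m z F S) (hgr : GradedBelow P) (HN : NatSys N)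
    (hlow : ∀ x ∈ unnat N, 2 * m < lev x) : z ∈ onlyB t0 := by
  have key : ∀ x : P, x ∈ Nc → lev x = 2 * m → x ∈ onlyB t0 := by
    intro x hx hl
    have h1 : x ∉ unnat N := fun h => by have := hlow x h; omega
    have h2 : x ∈ N (topOf x) := HN.mem_iff.mpr ⟨h1, rfl⟩
    have h3 := HN.top_eq h2 t0.2 (C.chart.le_t x hx)
    rw [mem_onlyB]
    intro s hs hxs
    rw [HN.top_eq h2 hs hxs, h3]
  have hF := key F C.F_mem (by rw [C.chart.lev F C.F_mem, C.co_F]; simp only; omega)
  have hS := key S C.S_mem (by rw [C.chart.lev S C.S_mem, C.co_S]; simp only; omega)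
  rw [mem_onlyB]
  intro s hs hzs
  have h1 : z < s := lt_of_le_of_ne hzs (by
    rintro rfl
    have := C.lev_z hgr
    omega)
  rcases C.lt_iff.mp h1 with h | h
  · exact mem_onlyB.mp hF s hs h
  · exact mem_onlyB.mp hS s hs h

/-- dangerous `z` together with an unnatural element of another component -/
lemma cost (C : CEl t0 Nc co m z F S) (hgr : GradedBelow P) (HN : NatSys N)
    (hlow : ∀ x ∈ unnat N, 2 * m < lev x) {h : ℕ} {e : P → ℕ} {F' : Finset P}
    (hV : Vd m e F') (hzd : z ∈ F' ∨ h ≤ e z) {x0 : P} (hx0 : x0 ∈ offN N t0)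
    (hd : x0 ∈ F' ∨ 1 ≤ e x0) : cst m (fun _ => h) z + (m + 1) ≤ ∑ x, e x := by
  classical
  have hzo := C.z_only hgr HN hlow
  have hl0 := hlow x0 (offN_sub HN hx0)
  rw [mem_offN] at hx0
  obtain ⟨t, ht, hxt, -⟩ := hx0
  have hzl := C.lev_z hgr
  have h1 : ∀ k ∈ range (m + 1), ∃ w, x0 ≤ w ∧ w ≤ (t : P) ∧ lev w = m + 1 + k := by
    intro k hk
    rw [mem_range] at hk
    exact exists_between hgr hxt (by rw [t.2]; omega) (by omega)
  haveI : Nonempty P := ⟨x0⟩
  choose! f hf using h1
  have hinj : Set.InjOn f (range (m + 1)) := by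
    intro k hk k' hk' h
    have e1 := hf k (Finset.mem_coe.mp hk)
    have e2 := hf k' (Finset.mem_coe.mp hk')
    rw [h] at e1
    omega
  have hcard : ((range (m + 1)).image f).card = m + 1 := by
    rw [card_image_of_injOn hinj, card_range]
  have h2 : ∑ x : P, (if x ∈ (range (m + 1)).image f then 1 else 0) = m + 1 := by
    rw [← card_filter]
    rw [filter_mem_eq_inter, univ_inter, hcard]
  unfold cst
  rw [← h2, ← Finset.sum_add_distrib]
  refine Finset.sum_le_sum fun y _ => ?_
  have h3 := ez_le (h := fun _ => h) hV (by omega) hzd y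
  have h4 := ez_le (h := fun _ => 1) hV (by omega) hd y
  by_cases hy : y ∈ (range (m + 1)).image f
  · rw [if_pos hy]
    rw [mem_image] at hy
    obtain ⟨k, hk, rfl⟩ := hy
    obtain ⟨h5, h6, h7⟩ := hf k hk
    have h8 : ¬ z ≤ f k := by
      intro h9
      exact ht (Subtype.ext (mem_onlyB.mp hzo t t.2 (h9.trans h6)))
    unfold ez at h4 ⊢
    rw [if_neg h8]
    rw [if_pos h5, h7] at h4
    have h9 : min 1 (m + 1 + k - m) ≤ e (f k) := h4
    omega
  · rw [if_neg hy, add_zero]
    exact h3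

/-- the component of `t0` -/
lemma emb (C : CEl t0 Nc co m z F S) (hgr : GradedBelow P) (HN : NatSys N)
    (hlow : ∀ x ∈ unnat N, 2 * m < lev x) :
    Emb t0 z (fun x : {x : {x : P // x ∉ offN N t0} // (x : P) ∈ onlyB t0} => (x : P)) where
  le_iff := fun x y => Iff.rfl
  up := fun x y hxy => ⟨⟨⟨y, fun h => x.1.2 (offN_down HN _ _ hxy h)⟩, onlyB_up x.2 hxy⟩, rfl⟩
  le_t := fun x => by
    have h4 := mem_onlyB.mp x.2 (topOf (x : P)) (topOf (x : P)).2 (le_topOf _)
    rw [← h4]
    exact le_topOf _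
  z := by
    have hzo := C.z_only hgr HN hlow
    exact ⟨⟨⟨z, not_offN_of_onlyB hzo⟩, hzo⟩, rfl⟩

lemma sum_upz {Q : Type u} [Fintype Q] [PartialOrder Q] [DecidableEq Q] {f : Q → P}
    (E : Emb t0 z f) (k : ℕ) : ∑ x ∈ upz z f, min k (lev x - m) = cst m (fun _ => k) z := by
  classical
  unfold cst ez
  rw [← Finset.sum_filter]
  refine Finset.sum_bij (fun x _ => f x) ?_ ?_ ?_ ?_
  · intro x hx
    rw [mem_filter]
    exact ⟨mem_univ _, mem_upz.mp hx⟩
  · intro x _ y _ h
    exact E.inj h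
  · intro y hy
    rw [mem_filter] at hy
    obtain ⟨z', hz'⟩ := E.z
    obtain ⟨y', rfl⟩ := E.up z' y (by rw [hz']; exact hy.2)
    exact ⟨y', mem_upz.mpr hy.2, rfl⟩
  · intro x _
    rw [E.lev]

lemma lev_rest (HN : NatSys N) (x : {x : {x : P // x ∉ offN N t0} // ¬ (x : P) ∈ onlyB t0}) :
    lev x = lev (x : P) := by
  have h1 := lev_subtype (P := {x : P // x ∉ offN N t0})
    (p := fun x : {x : P // x ∉ offN N t0} => ¬ (x : P) ∈ onlyB t0) (by
    intro x y hxy hx hy
    refine hx (onlyB_of_not_offN HN x.2 (le_trans hxy ?_))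
    have h4 := mem_onlyB.mp hy (topOf (y : P)) (topOf (y : P)).2 (le_topOf _)
    rw [← h4]
    exact le_topOf _) x
  have h2 := lev_subtype (P := P) (p := fun x : P => x ∉ offN N t0) (by
    intro x y hxy hx hy
    exact hx (offN_down HN x y hxy hy)) x.1
  rw [h1, h2]

/-- counting low elements -/
lemma card_split (C : CEl t0 Nc co m z F S) (hgr : GradedBelow P) (HN : NatSys N)
    (hm : 1 ≤ m) (hlow : ∀ x ∈ unnat N, 2 * m < lev x) (p : ℕ → Prop) [DecidablePred p]
    (hp : ∀ l, p l → l ≤ m + 1) :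
    (univ.filter (fun x : P => p (lev x))).card =
      (univ.filter (fun x : {x // x ∈ tz z (fun x : {x : {x : P // x ∉ offN N t0} //
        (x : P) ∈ onlyB t0} => (x : P))} => p (lev x))).card +
      (univ.filter (fun x : {x : {x : P // x ∉ offN N t0} // ¬ (x : P) ∈ onlyB t0} =>
        p (lev x))).card := by
  classical
  have E := C.emb hgr HN hlow
  have hzo := C.z_only hgr HN hlow
  have hzl := C.lev_z hgr
  rw [← Finset.card_filter_add_card_filter_not (s := univ.filter (fun x : P => p (lev x)))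
    (fun x => x ∈ onlyB t0)]
  have hlT : ∀ x : {x // x ∈ tz z (fun x : {x : {x : P // x ∉ offN N t0} //
        (x : P) ∈ onlyB t0} => (x : P))}, lev x = lev ((x : {x : {x : P // x ∉ offN N t0} //
        (x : P) ∈ onlyB t0}) : P) := by
    intro x
    rw [lev_subtype (p := fun x => x ∈ tz z (fun x : {x : {x : P // x ∉ offN N t0} //
        (x : P) ∈ onlyB t0} => (x : P))) E.tz_up x, E.lev]
  congr 1
  · symm
    refine Finset.card_bij (fun x _ => ((x : {x : {x : P // x ∉ offN N t0} //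
        (x : P) ∈ onlyB t0}) : P)) ?_ ?_ ?_
    · intro x hx
      rw [mem_filter, hlT] at hx
      rw [mem_filter, mem_filter]
      exact ⟨⟨mem_univ _, hx.2⟩, x.1.2⟩
    · intro x _ y _ h
      exact Subtype.ext (E.inj h)
    · intro y hy
      rw [mem_filter, mem_filter] at hy
      have hpl := hp _ hy.1.2
      have hyoff : y ∉ offN N t0 := not_offN_of_onlyB hy.2
      have hyt : y ≤ (t0 : P) := E.le_t ⟨⟨y, hyoff⟩, hy.2⟩
      have hzy : z ≤ y := by
        by_contra hcon
        have := C.out hm hyt hcon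
        omega
      have hzy' : z < y := lt_of_le_of_ne hzy (by rintro rfl; omega)
      refine ⟨⟨⟨⟨y, hyoff⟩, hy.2⟩, mem_tz.mpr hzy'⟩, ?_, rfl⟩
      rw [mem_filter, hlT]
      exact ⟨mem_univ _, hy.1.2⟩
  · symm
    refine Finset.card_bij (fun x _ => ((x : {x : P // x ∉ offN N t0}) : P)) ?_ ?_ ?_
    · intro x hx
      rw [mem_filter, lev_rest HN] at hx
      rw [mem_filter, mem_filter]
      exact ⟨⟨mem_univ _, hx.2⟩, x.2⟩
    · intro x _ y _ h
      exact Subtype.ext (Subtype.ext h)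
    · intro y hy
      rw [mem_filter, mem_filter] at hy
      have hpl := hp _ hy.1.2
      have hyoff : y ∉ offN N t0 := fun h => by
        have := hlow y (offN_sub HN h)
        omega
      refine ⟨⟨⟨y, hyoff⟩, hy.2⟩, ?_, rfl⟩
      rw [mem_filter, lev_rest HN]
      exact ⟨mem_univ _, hy.1.2⟩

end CEl

end Pool.Agent.GaussPoset

end

/-! From `Pool.Agent.W_448fc_h67.FcN` -/

section

/-!
The pole of a common child of the fold end and the straight end of a stair at window `m`:
the theorem.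
-/

namespace Pool.Agent.GaussPoset

set_option linter.unusedSectionVars false

open Polynomial Finset

universe u

variable {P : Type u} [Fintype P] [PartialOrder P] [DecidableEq P] {r m g u : ℕ}

namespace CEl

variable {t0 : Tops P} {Nc : Finset P} {co : P → ℕ × ℕ} {z F S : P}
  {N : Tops P → Finset P}

/-- **The pole.**  `z` covers exactly the fold end and the straight end of a stair; all
elements of levels `≤ 2 m` are natural; `Sd` is a set of dangerous elements below `t0` which
contains `z`. -/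
theorem pole (C : CEl t0 Nc co m z F S) (H : Gr P r) {b : Tops P → ℕ}
    {θ : Tops P → P → ℕ} {B : Tops P → P → Prop}
    (HT : ∀ t, NatTop m t (b t) (N t) (θ t) (B t)) (hlow : ∀ x ∈ unnat N, 2 * m < lev x)
    (hm : m = 2 * g + u) (hu : u ≤ 1) (hg : 1 ≤ g) (hgu : g = 1 → u = 0) {Sd : Finset P}
    (hzS : z ∈ Sd) (hSd : ∀ x ∈ Sd, x ∈ onlyB t0) :
    (∀ n < (u + 1) ^ 2 + cst m (fun _ => u + 1) z,
      (1 + X : ℤ[X]) ^ (g + 1 + ∑ t ∈ univ.erase t0, b t) ∣ ZB m ∅ 0 (sgs Sd (u + 1)) n) ∧
    ((∃ x ∈ Sd, ¬ z ≤ x) → (1 + X : ℤ[X]) ^ (g + 1 + ∑ t ∈ univ.erase t0, b t) ∣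
      ZB m ∅ 0 (sgs Sd (u + 1)) ((u + 1) ^ 2 + cst m (fun _ => u + 1) z)) ∧
    ((∀ x ∈ Sd, z ≤ x) → (1 + X : ℤ[X]) ^ (g + 1 + ∑ t ∈ univ.erase t0, b t) ∣
      ZB m ∅ 0 (sgs Sd (u + 1)) ((u + 1) ^ 2 + cst m (fun _ => u + 1) z) -
      X ^ (below P m + (u + 1) * g) * (1 + X) ^ ((lv P m).card - 1)) := by
  classical
  have hgr := H.gradedBelow
  have HN := natSys_of_tops HT
  have E := C.emb hgr HN hlow
  have hzo := C.z_only hgr HN hlow
  have hzl := C.lev_z hgr
  set E0 := cst m (fun _ => u + 1) z with hE0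
  have hsq : (u + 1) ^ 2 < m + 1 := by
    rcases Nat.le_one_iff_eq_zero_or_eq_one.mp hu with h | h
    · subst h; simp; omega
    · subst h
      have : g ≠ 1 := fun h => by have := hgu h; omega
      have : (1 + 1) ^ 2 = 4 := by norm_num
      omega
  have hred : ∀ n ≤ (u + 1) ^ 2 + E0, ZB m ∅ 0 (sgs Sd (u + 1)) n = ∑ ab ∈ antidiagonal n,
      SC (fun (e : {x : {x : P // x ∉ offN N t0} // (x : P) ∈ onlyB t0} → ℕ) F => Vd m e F ∧
        (univ.filter (fun x : {x : {x : P // x ∉ offN N t0} // (x : P) ∈ onlyB t0} =>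
          (x : P) ∈ Sd)) ⊆ upL m (u + 1) e F) ab.1 *
      Z {x : {x : P // x ∉ offN N t0} // ¬ (x : P) ∈ onlyB t0} m ab.2 := by
    intro n hn
    refine ZB_reduce HN (fun x hx => by have := hlow x hx; omega) hSd ?_
    intro e F' hV hS hs x hx
    have hz1 : z ∈ F' ∨ u + 1 ≤ e z := by
      rcases mem_upL.mp (hS hzS) with h | h
      · exact Or.inl h
      · right
        rw [rho_of_lt (by omega)] at h
        exact_mod_cast h
    by_contra hcon
    have hd : x ∈ F' ∨ 1 ≤ e x := by
      by_contra h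
      push Not at h
      exact hcon ⟨h.1, by omega⟩
    have := C.cost hgr HN hlow hV hz1 hx hd
    omega
  set Sd0 := univ.filter (fun x : {x : {x : P // x ∉ offN N t0} // (x : P) ∈ onlyB t0} =>
          (x : P) ∈ Sd) with hSd0
  have hmS : ∀ x, x ∈ Sd0 ↔ (x : P) ∈ Sd := by
    intro x
    rw [hSd0, mem_filter]
    simp only [mem_univ, true_and]
  have key := C.comp H E hm hu hg hgu Sd0 (z' := ⟨⟨z, not_offN_of_onlyB hzo⟩, hzo⟩) rfl
    ((hmS _).mpr hzS)
  rw [sum_upz E, ← hE0] at key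
  obtain ⟨k1, k2, k3⟩ := key
  have hrest := fun n => dvd_rest (t0 := t0) HT n
  have hp1 : ∀ n < (u + 1) ^ 2 + E0, (1 + X : ℤ[X]) ^ (g + 1 + ∑ t ∈ univ.erase t0, b t) ∣
      ZB m ∅ 0 (sgs Sd (u + 1)) n := by
    intro n hn
    rw [hred n hn.le]
    refine Finset.dvd_sum fun ab hab => ?_
    rw [HasAntidiagonal.mem_antidiagonal] at hab
    rw [pow_add _ (g + 1)]
    exact mul_dvd_mul (k1 ab.1 (by omega)) (hrest _)
  refine ⟨hp1, ?_, ?_⟩
  · rintro ⟨x, hx, hzx⟩
    rw [hred _ le_rfl]
    refine Finset.dvd_sum fun ab hab => ?_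
    rw [HasAntidiagonal.mem_antidiagonal] at hab
    rw [pow_add _ (g + 1)]
    refine mul_dvd_mul ?_ (hrest _)
    rcases Nat.lt_or_ge ab.1 ((u + 1) ^ 2 + E0) with h | h
    · exact k1 ab.1 h
    · have h1 : ab.1 = (u + 1) ^ 2 + E0 := by omega
      rw [h1]
      refine k2 ⟨⟨⟨x, not_offN_of_onlyB (hSd x hx)⟩, hSd x hx⟩, (hmS _).mpr hx, hzx⟩
  · intro hall
    have k3' := k3 (fun x hx => hall _ ((hmS x).mp hx))
    rw [hred _ le_rfl]
    have hmem : (((u + 1) ^ 2 + E0, 0) : ℕ × ℕ) ∈ antidiagonal ((u + 1) ^ 2 + E0) := by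
      rw [HasAntidiagonal.mem_antidiagonal]
      exact Nat.add_zero _
    rw [← Finset.add_sum_erase _ _ hmem]
    obtain ⟨a, ha, hcore⟩ := C.core_eq hgr E hm hu hg hgu
    have hT := C.triS_tz E
    have e1 := hT.below_eq hm hu hg
    have e2 := hT.card_lv_low (l := m) (by omega) (by omega)
    have e3 : below P m = below {x // x ∈ tz z (fun x : {x : {x : P // x ∉ offN N t0} //
        (x : P) ∈ onlyB t0} => (x : P))} m +
        below {x : {x : P // x ∉ offN N t0} // ¬ (x : P) ∈ onlyB t0} m :=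
      C.card_split hgr HN (by omega) hlow (fun l => l < m) (by omega)
    have e4 : (lv P m).card = (lv {x // x ∈ tz z (fun x : {x : {x : P // x ∉ offN N t0} //
        (x : P) ∈ onlyB t0} => (x : P))} m).card +
        (lv {x : {x : P // x ∉ offN N t0} // ¬ (x : P) ∈ onlyB t0} m).card :=
      C.card_split hgr HN (by omega) hlow (fun l => l = m) (by omega)
    have h0 := hrest 0
    rw [Z_zero] at h0
    simp only
    rw [Z_zero]
    have e5 : below P m + (u + 1) * g = a +
        below {x : {x : P // x ∉ offN N t0} // ¬ (x : P) ∈ onlyB t0} m := by omega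
    have e6 : (lv P m).card - 1 = g +
        (lv {x : {x : P // x ∉ offN N t0} // ¬ (x : P) ∈ onlyB t0} m).card := by omega
    rw [e5, e6]
    have h1 := dvd_add k3' hcore
    have h2 := mul_dvd_mul h1 h0
    rw [← pow_add] at h2
    have h3 : (1 + X : ℤ[X]) ^ (g + 1 + ∑ t ∈ univ.erase t0, b t) ∣
        ∑ ab ∈ (antidiagonal ((u + 1) ^ 2 + E0)).erase ((u + 1) ^ 2 + E0, 0),
        SC (fun (e : {x : {x : P // x ∉ offN N t0} // (x : P) ∈ onlyB t0} → ℕ) F => Vd m e F ∧
          Sd0 ⊆ upL m (u + 1) e F) ab.1 *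
        Z {x : {x : P // x ∉ offN N t0} // ¬ (x : P) ∈ onlyB t0} m ab.2 := by
      refine Finset.dvd_sum fun ab hab => ?_
      rw [mem_erase, HasAntidiagonal.mem_antidiagonal] at hab
      rw [pow_add _ (g + 1)]
      refine mul_dvd_mul (k1 ab.1 ?_) (hrest _)
      by_contra hcon
      apply hab.1
      exact Prod.ext (by simp only; omega) (by simp only; omega)
    have h4 := dvd_add h2 h3
    refine h4.trans (dvd_of_eq ?_)
    rw [pow_add X a, pow_add (1 + X) g]
    ring

/-- the same for the single element `z` -/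
theorem pole_single (C : CEl t0 Nc co m z F S) (H : Gr P r) {b : Tops P → ℕ}
    {θ : Tops P → P → ℕ} {B : Tops P → P → Prop}
    (HT : ∀ t, NatTop m t (b t) (N t) (θ t) (B t)) (hlow : ∀ x ∈ unnat N, 2 * m < lev x)
    (hm : m = 2 * g + u) (hu : u ≤ 1) (hg : 1 ≤ g) (hgu : g = 1 → u = 0) (hb : b t0 = g + 1) :
    (∀ n < (u + 1) ^ 2 + cst m (fun _ => u + 1) z,
      (1 + X : ℤ[X]) ^ (∑ t, b t) ∣ ZD m z (u + 1) n) ∧
    (1 + X : ℤ[X]) ^ (∑ t, b t) ∣ ZD m z (u + 1) ((u + 1) ^ 2 + cst m (fun _ => u + 1) z) -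
      X ^ (below P m + (u + 1) * g) * (1 + X) ^ ((lv P m).card - 1) := by
  have hs : ∑ t, b t = g + 1 + ∑ t ∈ univ.erase t0, b t := by
    rw [← hb]
    exact (Finset.add_sum_erase univ b (mem_univ t0)).symm
  have key := C.pole H HT hlow hm hu hg hgu (Sd := {z}) (mem_singleton_self z) (by
    intro x hx
    rw [mem_singleton.mp hx]
    exact C.z_only H.gradedBelow (natSys_of_tops HT) hlow)
  rw [sgs_single, ← hs] at key
  exact ⟨key.1, key.2.2 fun x hx => by rw [mem_singleton.mp hx]⟩

/-- two such elements are dangerous -/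
theorem pole_pair (C : CEl t0 Nc co m z F S) (H : Gr P r) {b : Tops P → ℕ}
    {θ : Tops P → P → ℕ} {B : Tops P → P → Prop}
    (HT : ∀ t, NatTop m t (b t) (N t) (θ t) (B t)) (hlow : ∀ x ∈ unnat N, 2 * m < lev x)
    (hm : m = 2 * g + u) (hu : u ≤ 1) (hg : 1 ≤ g) (hgu : g = 1 → u = 0) (hb : b t0 = g + 1)
    {z' : P} (hz' : ¬ z ≤ z') (hz'o : z' ∈ onlyB t0) {n : ℕ}
    (hn : n ≤ (u + 1) ^ 2 + cst m (fun _ => u + 1) z) :
    (1 + X : ℤ[X]) ^ (∑ t, b t) ∣ ZB m ∅ 0 (sgs {z, z'} (u + 1)) n := by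
  have hs : ∑ t, b t = g + 1 + ∑ t ∈ univ.erase t0, b t := by
    rw [← hb]
    exact (Finset.add_sum_erase univ b (mem_univ t0)).symm
  have key := C.pole H HT hlow hm hu hg hgu (Sd := {z, z'}) (by simp) (by
    intro x hx
    rw [mem_insert, mem_singleton] at hx
    rcases hx with rfl | rfl
    · exact C.z_only H.gradedBelow (natSys_of_tops HT) hlow
    · exact hz'o)
  rw [← hs] at key
  rcases Nat.lt_or_ge n ((u + 1) ^ 2 + cst m (fun _ => u + 1) z) with h | h
  · exact key.1 n h
  · rw [show n = (u + 1) ^ 2 + cst m (fun _ => u + 1) z by omega]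
    exact key.2.1 ⟨z', by simp, hz'⟩

end CEl

end Pool.Agent.GaussPoset

end

/-! From `Pool.Agent.W_448fc_h67.FcO` -/

section

/-!
The families of joins of the fold end with the straight end, in the context of S8.
-/

namespace Pool.Agent.GaussPoset

set_option linter.unusedSectionVars false

open Polynomial Finset

universe u

variable {P : Type u} [Fintype P] [PartialOrder P] [DecidableEq P] {r m : ℕ}
  {N : Tops P → Finset P} {b : Tops P → ℕ} {θ : Tops P → P → ℕ}

/-- both elements dangerous, as a bounded sum -/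
lemma ZP_eq_sgs {i k : ℕ} {h : P → ℕ} {z z' : P} (hz : i < lev z) (hz' : i < lev z')
    (hk : h z = k) (hk' : h z' = k) (n : ℕ) :
    ZP i h z z' n = ZB i ∅ 0 (sgs {z, z'} k) n := by
  classical
  unfold ZP ZB
  refine Finset.sum_congr rfl fun F _ => Finset.sum_congr ?_ (fun _ _ => rfl)
  refine Finset.filter_congr fun e _ => ?_
  rw [cst_sgs_iff]
  refine and_congr_right fun _ => ?_
  rw [Finset.insert_subset_iff, Finset.singleton_subset_iff, mem_upL, mem_upL, rho_of_lt hz,
    rho_of_lt hz']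
  unfold Dgz
  rw [hk, hk']
  norm_cast

/-- the order of a stair component -/
lemma WM.b_stair (W : WM r m N b θ) {x : P} {Nc : Finset P} {co : P → ℕ × ℕ}
    (hx : InSM m N b θ x Nc co) (hcx : co x = (m, m)) : b (topOf x) = m / 2 + 1 := by
  have hm := W.ten
  have hF : FoldM m N b θ x := ⟨Nc, co, hx, hcx⟩
  have hl := hF.lev
  have h1 := hF.nab (u := 0) (by omega)
  have h2 := W.nab_le_cn (v := x) (by omega) m
  rw [Nat.add_zero] at h1
  have h3 : nF m 0 = m / 2 + 1 := by unfold nF; omega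
  rcases W.typ (topOf x) with ⟨-, -, -, -, -, h7⟩ | ⟨Nc', co', h0, -, -, -⟩ |
    ⟨Nc', co', h0, -, -, hb, -⟩ | ⟨-, -, -, h4⟩
  · rcases h7 with ⟨h5, -⟩ | ⟨a, h5, h6⟩
    · have := h5 m (by omega)
      omega
    · have := h6.cn m (by omega)
      rw [if_neg (by omega)] at this
      omega
  · exfalso
    obtain ⟨y, hy, hcy⟩ := h0.cell
    have hb2 := h0.b_two
    obtain ⟨y1, hy1, hc1⟩ := h0.chart.low y hy (1, 0) (by
      rw [hcy]
      exact ⟨by simp only; omega, Nat.zero_le _⟩) trivial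
    obtain ⟨y2, hy2, hc2⟩ := h0.chart.low y hy (0, 1) (by
      rw [hcy]
      exact ⟨Nat.zero_le _, by simp only; omega⟩) trivial
    have l1 := h0.chart.lev y1 hy1
    have l2 := h0.chart.lev y2 hy2
    rw [hc1] at l1
    rw [hc2] at l2
    simp only at l1 l2
    have g1 := hx.stair.strip (mem_lowPart.mpr ⟨h0.chart.le_t y1 hy1, by omega⟩)
    have g2 := hx.stair.strip (mem_lowPart.mpr ⟨h0.chart.le_t y2 hy2, by omega⟩)
    have k1 : (co y1).1 ≤ (co y1).2 := hx.stair.chart.mem y1 g1
    have k2 : (co y2).1 ≤ (co y2).2 := hx.stair.chart.mem y2 g2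
    have q1 := hx.stair.chart.lev y1 g1
    have q2 := hx.stair.chart.lev y2 g2
    have he := hx.stair.chart.inj y1 g1 y2 g2 (Prod.ext (by omega) (by omega))
    rw [he, hc2, Prod.mk.injEq] at hc1
    omega
  · exact hb
  · exfalso
    have := h4.cn m (by omega)
    rw [if_pos rfl] at this
    omega

/-- the data of a (C) join -/
lemma WM.cel (W : WM r m N b θ) {z F S : P} {Nc : Finset P} {co : P → ℕ × ℕ}
    (hF : InSM m N b θ F Nc co) (hcF : co F = (m, m)) (hS : S ∈ Nc) (hcS : co S = (0, 2 * m))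
    (hzF : z ⋖ F) (hzS : z ⋖ S) : CEl (topOf F) Nc co m z F S where
  chart := hF.stair.chart
  strip := hF.stair.strip
  F_mem := hF.mem
  S_mem := hS
  co_F := hcF
  co_S := hcS
  zF := hzF
  zS := hzS
  only := by
    have hm := W.ten
    have hne : F ≠ S := by
      rintro rfl
      rw [hcF, Prod.mk.injEq] at hcS
      omega
    exact fun y hy => uc_pair W.gt.H hzF hzS hne hy

/-- **The (C) joins: first pole of the family.** -/
theorem WM.fz_cc (W : WM r m N b θ) {z : P} (hz : z ∈ bdR (r2 (2 * m) N))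
    (hc : CcM m N b θ z) : Fz m N θ z (E0 m + hh m ^ 2) (sg1 P m) := by
  classical
  have hm := W.ten
  have H := W.gt.H
  obtain ⟨hl, F, S, Nc, co, hF, hcF, hS, hcS, hzF, hzS⟩ := hc
  choose B hB using W.natTop
  have hlow : ∀ x ∈ unnat N, 2 * m < lev x := fun x hx => W.lt_lev hx
  obtain ⟨g, u, hu, hmu, hg⟩ : ∃ g u, u ≤ 1 ∧ m = 2 * g + u ∧ 5 ≤ g :=
    ⟨m / 2, m % 2, by omega, by omega, by omega⟩
  have hhu : hh m = u + 1 := by unfold hh; omega
  have hb : b (topOf F) = g + 1 := by rw [W.b_stair hF hcF]; omega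
  -- the elements of the family
  have hfam : ∀ y ∈ fam m N z, CEl (topOf F) Nc co m y F S ∧ lev y = 2 * m + 1 ∧
      h2 (2 * m) N θ y = u + 1 ∧ cst m (fun _ => u + 1) y = E0 m := by
    intro y hy
    rw [mem_fam] at hy
    have hyF := (cov_of_up hy.2).mp hzF
    have hyS := (cov_of_up hy.2).mp hzS
    have hly : lev y = 2 * m + 1 := by
      rw [← lev_eq_of_up hy.2]
      exact hl
    obtain ⟨s, hn⟩ := W.num_cc (bd_mem hy.1) hly hF hcF hS hcS hyF hyS
    have hlab := hn.lab
    rw [hhu] at hlab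
    have hcst := hn.cst
    rw [cst_ct hlab] at hcst
    exact ⟨W.cel hF hcF hS hcS hyF hyS, hly, hlab, hcst⟩
  have hsingle := fun y (hy : y ∈ fam m N z) =>
    (hfam y hy).1.pole_single H hB hlow hmu hu (by omega) (by omega) hb
  have hB' : ∑ t, b t = (lv P m).card := W.sum_b
  have hE : (u + 1) ^ 2 + E0 m = E0 m + hh m ^ 2 := by rw [hhu]; omega
  have hsign : (-1 : ℤ) ^ (below P m + (u + 1) * g) = sg1 P m := by
    unfold sg1 sgF
    rw [hhu]
    rcases Nat.le_one_iff_eq_zero_or_eq_one.mp hu with h | h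
    · subst h
      rw [Finset.sum_range_one, show below P m + nF m 0 + (0 + 1) =
        below P m + (0 + 1) * g + 2 by unfold nF; omega, pow_add _ _ 2]
      norm_num
    · subst h
      rw [Finset.sum_range_succ, Finset.sum_range_one, show below P m + (nF m 0 + nF m 1) + (1 + 1) =
        below P m + (1 + 1) * g + 2 * 2 by unfold nF; omega, pow_add _ _ (2 * 2)]
      norm_num
  have hself := self_mem_fam hz
  by_cases hone : fam m N z = {z}
  · -- one element
    have h1 := hfam z hself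
    have f2 := hsingle z hself
    rw [h1.2.2.2, hB', hE] at f2
    constructor
    · intro n hn
      rw [hone, ZF_singleton (by omega), h1.2.2.1]
      exact f2.1 n hn
    · refine ⟨fun _ => below P m + (u + 1) * g, ?_, fun _ _ => hsign⟩
      rw [hone, ZF_singleton (by omega), h1.2.2.1, Finset.sum_singleton]
      exact f2.2
  · -- two elements
    obtain ⟨y, hy, hyz⟩ : ∃ y ∈ fam m N z, y ≠ z := by
      by_contra hcon
      push Not at hcon
      apply hone
      ext x
      rw [mem_singleton]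
      exact ⟨fun h => hcon x h, fun h => h ▸ hself⟩
    have htwo : fam m N z = {z, y} := by
      ext x
      rw [mem_insert, mem_singleton]
      constructor
      · intro hx
        by_contra hcon
        push Not at hcon
        exact Win.dc_three H (hfam x hx).1.zF hzF (hfam y hy).1.zF hcon.1 hcon.2 hyz.symm
      · rintro (h | h)
        · rw [h]; exact hself
        · rw [h]; exact hy
    have h1 := hfam z hself
    have f2 := hsingle z hself
    have g1 := hfam y hy
    have g2 := hsingle y hy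
    have hzy : ¬ z ≤ y := by
      intro h
      have := lev_strictAnti (lt_of_le_of_ne h hyz.symm)
      omega
    have hP := fun n (hn : n ≤ (u + 1) ^ 2 + cst m (fun _ => u + 1) z) =>
      h1.1.pole_pair H hB hlow hmu hu (by omega) (by omega) hb hzy
        (g1.1.z_only H.gradedBelow (natSys_of_tops hB) hlow) hn
    rw [h1.2.2.2, hB', hE] at f2
    rw [g1.2.2.2, hB', hE] at g2
    rw [h1.2.2.2, hB', hE] at hP
    have key : ∀ n, ZF m (h2 (2 * m) N θ) {z, y} n = ZD m z (u + 1) n + ZD m y (u + 1) n -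
        ZB m ∅ 0 (sgs {z, y} (u + 1)) n := by
      intro n
      have h3 := ZF_pair (i := m) (h := Pool.Agent.GaussPoset.h2 (2 * m) N θ) (z := z) (z' := y)
        (by omega) (by omega) n
      rw [ZP_eq_sgs (by omega) (by omega) h1.2.2.1 g1.2.2.1, h1.2.2.1, g1.2.2.1] at h3
      rw [← h3]
      ring
    constructor
    · intro n hn
      rw [htwo, key]
      exact dvd_sub (dvd_add (f2.1 n hn) (g2.1 n hn)) (hP n hn.le)
    · refine ⟨fun _ => below P m + (u + 1) * g, ?_, fun _ _ => hsign⟩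
      rw [htwo, key, Finset.sum_pair hyz.symm]
      have h5 := dvd_sub (dvd_add f2.2 g2.2) (hP _ le_rfl)
      refine h5.trans (dvd_of_eq ?_)
      ring

end Pool.Agent.GaussPoset

end

/-! From `Pool.Agent.W_448fc_h67.FcP` -/

section

/-!
(C) elements: cost, families, and the standalone kill.
-/

namespace Pool.Agent.GaussPoset

set_option linter.unusedSectionVars false

open Polynomial Finset

universe u

variable {P : Type u} [Fintype P] [PartialOrder P] [DecidableEq P] {r m g u : ℕ}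
  {N : Tops P → Finset P}

namespace CEl

variable {t0 : Tops P} {Nc : Finset P} {co : P → ℕ × ℕ} {z F S : P}

lemma lev_F (C : CEl t0 Nc co m z F S) : lev F = 2 * m := by
  rw [C.chart.lev F C.F_mem, C.co_F]
  simp only
  omega

lemma lev_S (C : CEl t0 Nc co m z F S) : lev S = 2 * m := by
  rw [C.chart.lev S C.S_mem, C.co_S]
  simp only
  omega

lemma nab_F (C : CEl t0 Nc co m z F S) {u : ℕ} (hu : u ≤ m) : nab (m + u) F = nF m u := by
  rw [nab_chart C.chart C.F_mem, C.co_F]
  have := card_cellsAt_shift (l := m + u) (p := (m, m)) le_rfl (by simp only; omega)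
  simp only at this
  unfold nF
  omega

lemma nab_S (C : CEl t0 Nc co m z F S) {l : ℕ} (hl : l ≤ 2 * m) : nab l S = 1 := by
  rw [nab_chart C.chart C.S_mem, C.co_S]
  have := card_cellsAt_shift (l := l) (p := (0, 2 * m)) (Nat.zero_le _) (by simp only; omega)
  simp only at this
  omega

/-- elements of the middle levels above `z` -/
lemma nab_z (C : CEl t0 Nc co m z F S) :
    nab m z = nF m 0 ∧ ∀ u, 1 ≤ u → u ≤ m → nab (m + u) z = nF m u + 1 := by
  classical
  have hS : ∀ y, S ≤ y → y ∈ Nc ∧ co y = (0, lev y) := by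
    intro y hy
    have hyN := C.chart.up S C.S_mem y hy
    have h1 := (C.chart.le_iff S C.S_mem y hyN).mp hy
    have h2 : (co y).1 ≤ (co S).1 := h1.1
    rw [C.co_S] at h2
    simp only at h2
    have h3 := C.chart.lev y hyN
    exact ⟨hyN, Prod.ext (by simp only; omega) (by simp only; omega)⟩
  have hzF := C.zF.1
  have hzS := C.zS.1
  have hup : ∀ y, lev y ≤ 2 * m → z ≤ y → F ≤ y ∨ S ≤ y := by
    intro y hy hzy
    have hlt : z < y := lt_of_le_of_ne hzy (by
      rintro rfl
      have := lev_strictAnti hzF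
      have := C.lev_F
      omega)
    exact C.lt_iff.mp hlt
  constructor
  · have h1 := C.nab_F (u := 0) (Nat.zero_le _)
    rw [Nat.add_zero] at h1
    rw [← h1]
    unfold nab
    congr 1
    ext y
    rw [mem_filter, mem_filter, mem_lv]
    refine and_congr_right fun h2 => ⟨fun h3 => ?_, fun h3 => hzF.le.trans h3⟩
    rcases hup y (by omega) h3 with h | h
    · exact h
    · obtain ⟨hy, hcy⟩ := hS y h
      rw [C.chart.le_iff F C.F_mem y hy, hcy, C.co_F, h2]
      exact ⟨Nat.zero_le _, le_rfl⟩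
  · intro u hu hum
    rw [← C.nab_F hum, ← C.nab_S (l := m + u) (by omega)]
    unfold nab
    rw [← Finset.card_union_of_disjoint]
    · congr 1
      ext y
      rw [mem_union, mem_filter, mem_filter, mem_filter, mem_lv]
      constructor
      · rintro ⟨h3, h4⟩
        rcases hup y (by omega) h4 with h | h
        · exact Or.inl ⟨h3, h⟩
        · exact Or.inr ⟨h3, h⟩
      · rintro (⟨h3, h4⟩ | ⟨h3, h4⟩)
        · exact ⟨h3, hzF.le.trans h4⟩
        · exact ⟨h3, hzS.le.trans h4⟩
    · rw [Finset.disjoint_left]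
      intro y hy hy'
      rw [mem_filter, mem_lv] at hy hy'
      obtain ⟨hyN, hcy⟩ := hS y hy'.2
      have h3 := (C.chart.le_iff F C.F_mem y hyN).mp hy.2
      have h4 : (co y).2 ≤ (co F).2 := h3.2
      rw [hcy, C.co_F, hy.1] at h4
      simp only at h4
      omega

/-- the energy of the first visible configuration -/
lemma cst_eq (C : CEl t0 Nc co m z F S) (hgr : GradedBelow P) (hm : 1 ≤ m) :
    cst m (fun _ => hh m) z = E0 m := by
  have hz := C.lev_z hgr
  obtain ⟨h1, h2⟩ := C.nab_z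
  have hh2 := hh_le m
  have h3 : cst m (fun _ => hh m) z = ct m (hh m) z := rfl
  rw [h3, ct_top hz (by omega)]
  unfold E0 vs NF NL
  rw [← Finset.sum_add_distrib]
  congr 1
  refine Finset.sum_congr rfl fun u hu => ?_
  rw [mem_range] at hu
  rcases Nat.eq_zero_or_pos u with h0 | h0
  · subst h0
    simp
  · rw [h2 u h0 (by omega)]
    ring

/-- two (C) elements below one top have the same covers -/
lemma same (H : Gr P r) (hm : 2 ≤ m) {z' F' S' : P} {Nc' : Finset P} {co' : P → ℕ × ℕ}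
    (C : CEl t0 Nc co m z F S) (C' : CEl t0 Nc' co' m z' F' S') : F' = F ∧ S' = S := by
  have hF1 : nab m F = m / 2 + 1 := by
    have := C.nab_F (u := 0) (Nat.zero_le _)
    rw [Nat.add_zero] at this
    rw [this]; unfold nF; omega
  have hF2 : nab m F' = m / 2 + 1 := by
    have := C'.nab_F (u := 0) (Nat.zero_le _)
    rw [Nat.add_zero] at this
    rw [this]; unfold nF; omega
  have hS1 := C.nab_S (l := m) (by omega)
  have hS2 := C'.nab_S (l := m) (by omega)
  -- elements with one cover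
  have hone : ∀ {Nc' : Finset P} {co' : P → ℕ × ℕ} {z' F' S' : P},
      CEl t0 Nc' co' m z' F' S' → ∀ x, x = F' ∨ x = S' → (Win.uc x).card ≤ 1 := by
    intro Nc' co' z' F' S' C' x hx
    rw [Finset.card_le_one]
    intro a ha b hb
    rw [Win.mem_uc] at ha hb
    have hxN : x ∈ Nc' := by
      rcases hx with h | h
      · rw [h]; exact C'.F_mem
      · rw [h]; exact C'.S_mem
    have haN := C'.chart.up x hxN a ha.le
    have hbN := C'.chart.up x hxN b hb.le
    have h1 := (chart_cov C'.chart H hxN haN).mp ha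
    have h2 := (chart_cov C'.chart H hxN hbN).mp hb
    have h3 : (co' a).1 ≤ (co' a).2 := C'.chart.mem a haN
    have h4 : (co' b).1 ≤ (co' b).2 := C'.chart.mem b hbN
    apply C'.chart.inj a haN b hbN
    unfold Prd at h1 h2
    rcases hx with h | h
    · rw [h, C'.co_F] at h1 h2
      simp only at h1 h2
      exact Prod.ext (by omega) (by omega)
    · rw [h, C'.co_S] at h1 h2
      simp only at h1 h2
      exact Prod.ext (by omega) (by omega)
  have key : ∀ x, x ≤ (t0 : P) → lev x = 2 * m → (Win.uc x).card ≤ 1 → x = F ∨ x = S := by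
    intro x hxt hl hc
    have hxN : x ∈ Nc := C.strip (mem_lowPart.mpr ⟨hxt, hl.le⟩)
    have h1 := C.chart.lev x hxN
    have h2 : (co x).1 ≤ (co x).2 := C.chart.mem x hxN
    rcases Nat.eq_zero_or_pos (co x).1 with h3 | h3
    · right
      exact C.chart.inj x hxN S C.S_mem (by rw [C.co_S]; exact Prod.ext h3 (by simp only; omega))
    · rcases Nat.lt_or_ge (co x).1 (co x).2 with h4 | h4
      · have := chartS_inner_uc C.chart H hxN h3 h4
        omega
      · left
        exact C.chart.inj x hxN F C.F_mem (by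
          rw [C.co_F]; exact Prod.ext (by simp only; omega) (by simp only; omega))
  constructor
  · rcases key F' (C'.chart.le_t F' C'.F_mem) C'.lev_F (hone C' F' (Or.inl rfl)) with h | h
    · exact h
    · rw [h] at hF2; omega
  · rcases key S' (C'.chart.le_t S' C'.S_mem) C'.lev_S (hone C' S' (Or.inr rfl)) with h | h
    · rw [h] at hS2; omega
    · exact h

/-- the first pole of a family of (C) elements with the same covers -/
theorem fam_pole (C : CEl t0 Nc co m z F S) (H : Gr P r) {b : Tops P → ℕ}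
    {θ : Tops P → P → ℕ} {B : Tops P → P → Prop}
    (HT : ∀ t, NatTop m t (b t) (N t) (θ t) (B t)) (hlow : ∀ x ∈ unnat N, 2 * m < lev x)
    (hm : m = 2 * g + u) (hu : u ≤ 1) (hg : 1 ≤ g) (hgu : g = 1 → u = 0) (hb : b t0 = g + 1)
    {h : P → ℕ} {A : Finset P} (hzA : z ∈ A) (hA : ∀ y ∈ A, ∀ w, z < w ↔ y < w)
    (hh' : ∀ y ∈ A, h y = u + 1) :
    (∀ n < E0 m + hh m ^ 2, (1 + X : ℤ[X]) ^ (∑ t, b t) ∣ ZF m h A n) ∧
    (1 + X : ℤ[X]) ^ (∑ t, b t) ∣ ZF m h A (E0 m + hh m ^ 2) -
      ∑ _y ∈ A, X ^ (below P m + (u + 1) * g) * (1 + X) ^ ((lv P m).card - 1) := by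
  classical
  have hgr := H.gradedBelow
  have hhu : hh m = u + 1 := by unfold hh; omega
  have hE : (u + 1) ^ 2 + E0 m = E0 m + hh m ^ 2 := by rw [hhu]; omega
  have hfam : ∀ y ∈ A, CEl t0 Nc co m y F S ∧ lev y = 2 * m + 1 ∧
      cst m (fun _ => u + 1) y = E0 m := by
    intro y hy
    have hyF := (cov_of_up (hA y hy)).mp C.zF
    have hyS := (cov_of_up (hA y hy)).mp C.zS
    have C' : CEl t0 Nc co m y F S := ⟨C.chart, C.strip, C.F_mem, C.S_mem, C.co_F, C.co_S, hyF,
      hyS, fun w hw => C.only w ((cov_of_up (hA y hy)).mpr hw)⟩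
    refine ⟨C', C'.lev_z hgr, ?_⟩
    rw [← hhu]
    exact C'.cst_eq hgr (by omega)
  have hsingle := fun y (hy : y ∈ A) => (hfam y hy).1.pole_single H HT hlow hm hu hg hgu hb
  have hlz := (hfam z hzA).2.1
  by_cases hone : A = {z}
  · have h1 := hfam z hzA
    have f2 := hsingle z hzA
    rw [h1.2.2, hE] at f2
    constructor
    · intro n hn
      rw [hone, ZF_singleton (by omega), hh' z hzA]
      exact f2.1 n hn
    · rw [hone, ZF_singleton (by omega), hh' z hzA, Finset.sum_singleton]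
      exact f2.2
  · obtain ⟨y, hy, hyz⟩ : ∃ y ∈ A, y ≠ z := by
      by_contra hcon
      push Not at hcon
      apply hone
      ext x
      rw [mem_singleton]
      exact ⟨fun h => hcon x h, fun h => h ▸ hzA⟩
    have htwo : A = {z, y} := by
      ext x
      rw [mem_insert, mem_singleton]
      constructor
      · intro hx
        by_contra hcon
        push Not at hcon
        exact Win.dc_three H (hfam x hx).1.zF C.zF (hfam y hy).1.zF hcon.1 hcon.2 hyz.symm
      · rintro (h | h)
        · rw [h]; exact hzA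
        · rw [h]; exact hy
    have h1 := hfam z hzA
    have f2 := hsingle z hzA
    have g1 := hfam y hy
    have g2 := hsingle y hy
    have hzy : ¬ z ≤ y := by
      intro h
      have := lev_strictAnti (lt_of_le_of_ne h hyz.symm)
      omega
    have hP := fun n (hn : n ≤ (u + 1) ^ 2 + cst m (fun _ => u + 1) z) =>
      h1.1.pole_pair H HT hlow hm hu hg hgu hb hzy
        (g1.1.z_only hgr (natSys_of_tops HT) hlow) hn
    rw [h1.2.2, hE] at f2
    rw [g1.2.2, hE] at g2
    rw [h1.2.2, hE] at hP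
    have key : ∀ n, ZF m h {z, y} n = ZD m z (u + 1) n + ZD m y (u + 1) n -
        ZB m ∅ 0 (sgs {z, y} (u + 1)) n := by
      intro n
      have h3 := ZF_pair (i := m) (h := h) (z := z) (z' := y) (by omega) (by omega) n
      rw [ZP_eq_sgs (by omega) (by omega) (hh' z hzA) (hh' y hy), hh' z hzA, hh' y hy] at h3
      rw [← h3]
      ring
    constructor
    · intro n hn
      rw [htwo, key]
      exact dvd_sub (dvd_add (f2.1 n hn) (g2.1 n hn)) (hP n hn.le)
    · rw [htwo, key, Finset.sum_pair hyz.symm]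
      have h5 := dvd_sub (dvd_add f2.2 g2.2) (hP _ le_rfl)
      refine h5.trans (dvd_of_eq ?_)
      ring

end CEl

end Pool.Agent.GaussPoset

end

/-! From `Pool.Agent.W_448fc_h67.FcQ` -/

section

/-!
(C) elements do not exist if everything else is expensive.
-/

namespace Pool.Agent.GaussPoset

set_option linter.unusedSectionVars false

open Polynomial Finset

universe u

variable {P : Type u} [Fintype P] [PartialOrder P] [DecidableEq P] {r m g u : ℕ}
  {N : Tops P → Finset P}

/-- `z` covers exactly the fold end and the straight end of a stair of full order -/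
def IsC (b : Tops P → ℕ) (m : ℕ) (z : P) : Prop :=
  ∃ t Nc co F S, CEl (P := P) t Nc co m z F S ∧ b t = m / 2 + 1

lemma E0_gt (hm : m = 2 * g + u) (hu : u ≤ 1) (hg : 1 ≤ g) (hgu : g = 1 → u = 0) :
    hh m ^ 2 < E0 m := by
  rcases Nat.le_one_iff_eq_zero_or_eq_one.mp hu with h | h
  · subst h
    rw [hm, Nat.add_zero, hh_even, E0_even]
    nlinarith
  · subst h
    have hg2 : 2 ≤ g := by
      have : g ≠ 1 := fun h => by have := hgu h; omega
      omega
    rw [hm, hh_odd, E0_odd]
    nlinarith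

/-- **Standalone kill of the (C) elements.**  `N` is a system of natural sets at window `m` which
contains all elements of level `≤ 2 m`; every boundary element is expensive or a (C) element.
Then there is no (C) element. -/
theorem cc_dead (H : Gr P r) {b : Tops P → ℕ} {θ : Tops P → P → ℕ} {B : Tops P → P → Prop}
    (HT : ∀ t, NatTop m t (b t) (N t) (θ t) (B t)) (hlow : ∀ x ∈ unnat N, 2 * m < lev x)
    (hm : m = 2 * g + u) (hu : u ≤ 1) (hg : 1 ≤ g) (hgu : g = 1 → u = 0)
    (hsum : ∑ t, b t = (lv P m).card) {R : Finset P} {h : P → ℕ} {n0 : ℕ}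
    (FT : FarT P m R (lv P m).card h n0) (hn0 : E0 m + hh m ^ 2 < n0)
    (hbd : ∀ z ∈ bdR R, E0 m + hh m ^ 2 < cst m h z ∨ (h z = hh m ∧ IsC b m z)) :
    ∀ z ∈ bdR R, E0 m + hh m ^ 2 < cst m h z := by
  classical
  have hgr := H.gradedBelow
  have hhu : hh m = u + 1 := by unfold hh; omega
  have HN := natSys_of_tops HT
  have hm2 : 2 ≤ m := by omega
  set E := E0 m + hh m ^ 2 with hE
  have hEE := E0_gt hm hu hg hgu
  intro z0 hz0
  by_contra hcon
  set Cs := (bdR R).filter (fun z => h z = hh m ∧ IsC b m z) with hCs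
  have hCm : ∀ z, z ∈ Cs ↔ z ∈ bdR R ∧ h z = hh m ∧ IsC b m z := by
    intro z
    rw [hCs, mem_filter]
  have hz0C : z0 ∈ Cs := (hCm z0).mpr ⟨hz0, (hbd z0 hz0).resolve_left hcon⟩
  let fm : P → Finset P := fun z => Cs.filter (fun y => ∀ w, z < w ↔ y < w)
  have hfm : ∀ z y, y ∈ fm z ↔ y ∈ Cs ∧ ∀ w, z < w ↔ y < w := by
    intro z y
    simp only [fm, mem_filter]
  have hself : ∀ z ∈ Cs, z ∈ fm z := fun z hz => (hfm z z).mpr ⟨hz, fun _ => Iff.rfl⟩
  have hfeq : ∀ z y, y ∈ fm z → fm y = fm z := by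
    intro z y hy
    have h1 := ((hfm z y).mp hy).2
    ext w
    rw [hfm, hfm]
    exact and_congr_right fun _ => ⟨fun h2 v => (h1 v).trans (h2 v),
      fun h2 v => (h1 v).symm.trans (h2 v)⟩
  set Fam := Cs.image fm with hFam
  -- costs
  have hcst : ∀ z ∈ Cs, cst m h z = E0 m := by
    intro z hz
    obtain ⟨-, h1, t, Nc, co, F, S, C, -⟩ := (hCm z).mp hz
    rw [cst_ct h1]
    exact C.cst_eq hgr (by omega)
  have hunion : ∀ z ∈ Cs, ∀ z' ∈ bdR R, z' ∉ fm z →
      E < ∑ x, max (ez m h z x) (ez m h z' x) := by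
    intro z hz z' hz' hne
    by_cases hC' : z' ∈ Cs
    · -- different stairs
      obtain ⟨-, h1, t, Nc, co, F, S, C, -⟩ := (hCm z).mp hz
      obtain ⟨-, h1', t', Nc', co', F', S', C', -⟩ := (hCm z').mp hC'
      have htt : t ≠ t' := by
        rintro rfl
        obtain ⟨e1, e2⟩ := C.same H hm2 C'
        refine hne ((hfm z z').mpr ⟨hC', fun w => ?_⟩)
        rw [C.lt_iff, C'.lt_iff, e1, e2]
      have ho := C.z_only hgr HN hlow
      have ho' := C'.z_only hgr HN hlow
      have h2 : ∀ x, max (ez m h z x) (ez m h z' x) = ez m h z x + ez m h z' x := by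
        intro x
        by_cases hx : z ≤ x
        · have hx' : ¬ z' ≤ x := by
            intro hx'
            have e1 := mem_onlyB.mp (onlyB_up ho hx) (topOf x) (topOf x).2 (le_topOf x)
            have e2 := mem_onlyB.mp (onlyB_up ho' hx') (topOf x) (topOf x).2 (le_topOf x)
            exact htt (Subtype.ext (e1.symm.trans e2))
          have : ez m h z' x = 0 := by unfold ez; rw [if_neg hx']
          rw [this]
          simp
        · have : ez m h z x = 0 := by unfold ez; rw [if_neg hx]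
          rw [this]
          simp
      rw [Finset.sum_congr rfl fun x _ => h2 x, Finset.sum_add_distrib]
      have e1 : ∑ x, ez m h z x = E0 m := hcst z hz
      have e2 : ∑ x, ez m h z' x = E0 m := hcst z' hC'
      rw [e1, e2]
      omega
    · have h3 : E < cst m h z' := by
        rcases hbd z' hz' with h4 | h4
        · exact h4
        · exact absurd ((hCm z').mpr ⟨hz', h4⟩) hC'
      refine h3.trans_le ?_
      unfold cst
      exact Finset.sum_le_sum fun x _ => le_max_right _ _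
  have key := FT.plusF (n := E) hn0 Fam ?_ ?_ ?_ ?_
  · have hempty : (bdR R).filter (fun z => (∀ A ∈ Fam, z ∉ A) ∧ cst m h z = E) = ∅ := by
      rw [Finset.filter_eq_empty_iff]
      rintro z hz ⟨h1, h2⟩
      rcases hbd z hz with h3 | h3
      · omega
      · have hzC := (hCm z).mpr ⟨hz, h3⟩
        exact h1 (fm z) (mem_image_of_mem _ hzC) (hself z hzC)
    rw [hempty, Finset.sum_empty, add_zero] at key
    have hZ := dvd_Z H.gauss m E
    have h1 : (1 + X : ℤ[X]) ^ (lv P m).card ∣ ∑ A ∈ Fam, ZF m h A E := by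
      have := dvd_sub hZ key
      rwa [sub_sub_cancel] at this
    have h2 : (1 + X : ℤ[X]) ^ (lv P m).card ∣ ∑ A ∈ Fam, (ZF m h A E -
        ∑ _y ∈ A, X ^ (below P m + (u + 1) * g) * (1 + X) ^ ((lv P m).card - 1)) := by
      refine Finset.dvd_sum fun A hA => ?_
      obtain ⟨z, hz, rfl⟩ := mem_image.mp hA
      obtain ⟨-, h3, t, Nc, co, F, S, C, hb⟩ := (hCm z).mp hz
      have h4 := C.fam_pole H HT hlow hm hu hg hgu (by rw [hb]; omega) (h := h) (hself z hz)
        (fun y hy => ((hfm z y).mp hy).2) (fun y hy => by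
          rw [← hhu]
          exact ((hCm y).mp ((hfm z y).mp hy).1).2.1)
      rw [hsum] at h4
      exact h4.2
    rw [Finset.sum_sub_distrib] at h2
    have h3 := dvd_sub h1 h2
    rw [sub_sub_cancel, Finset.sum_sigma'] at h3
    have hB : 1 ≤ (lv P m).card := by
      obtain ⟨-, -, t, Nc, co, F, S, C, hb⟩ := (hCm z0).mp hz0C
      rw [← hsum]
      have := Finset.single_le_sum (f := b) (fun _ _ => Nat.zero_le _) (mem_univ t)
      omega
    have h4 := sum_empty hB _ (fun _ => below P m + (u + 1) * g)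
      (σ := (-1) ^ (below P m + (u + 1) * g)) (pow_ne_zero _ (by norm_num)) (fun _ _ => rfl) h3
    have h5 : (⟨fm z0, z0⟩ : (_ : Finset P) × P) ∈ Fam.sigma (fun A => A) := by
      rw [mem_sigma]
      exact ⟨mem_image_of_mem _ hz0C, hself z0 hz0C⟩
    rw [h4] at h5
    exact absurd h5 (Finset.notMem_empty _)
  · intro A hA z hz
    obtain ⟨y, hy, rfl⟩ := mem_image.mp hA
    exact ((hCm z).mp ((hfm y z).mp hz).1).1
  · intro z hz h1
    rcases hbd z hz with h3 | h3
    · exact h3.le
    · have hzC := (hCm z).mpr ⟨hz, h3⟩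
      exact absurd (hself z hzC) (h1 (fm z) (mem_image_of_mem _ hzC))
  · intro A hA z hz z' hz' hne
    obtain ⟨y, hy, rfl⟩ := mem_image.mp hA
    refine hunion z ((hfm y z).mp hz).1 z' hz' ?_
    rw [hfeq y z hz]
    exact hne
  · intro A hA A' hA' hne z hz hz'
    obtain ⟨y, hy, rfl⟩ := mem_image.mp hA
    obtain ⟨y', hy', rfl⟩ := mem_image.mp hA'
    exact hne ((hfeq y z hz).symm.trans (hfeq y' z hz'))

end Pool.Agent.GaussPoset

end

/-! From `Pool.Agent.W_448fc_h67.FcR` -/

section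

/-!
(C) elements are unnatural; case B (no joins) in the context of S8.
-/

namespace Pool.Agent.GaussPoset

set_option linter.unusedSectionVars false

open Polynomial Finset

universe u

variable {P : Type u} [Fintype P] [PartialOrder P] [DecidableEq P] {r m g u : ℕ}
  {N : Tops P → Finset P} {b : Tops P → ℕ} {θ : Tops P → P → ℕ}

/-- elements of level `2 m + 1` below the fold end and the straight end are unnatural -/
lemma CEl.not_nat {t0 : Tops P} {Nc : Finset P} {co : P → ℕ × ℕ} {z F S : P}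
    (C : CEl t0 Nc co m z F S) (HN : NatSys N) (hN : N t0 = natS Nc co) (hm : 2 ≤ m) {y : P}
    (hyF : y < F) (hyS : y < S) (hl : lev y = 2 * m + 1) : y ∈ unnat N := by
  rw [mem_unnat]
  intro s hs
  have h1 := HN.top_eq hs t0.2 (hyF.le.trans (C.chart.le_t F C.F_mem))
  have h2 : s = t0 := Subtype.ext h1.symm
  rw [h2, hN, mem_natS] at hs
  rcases hs with h | h
  · have e1 := (C.chart.le_iff y h F C.F_mem).mp hyF.le
    have e2 := (C.chart.le_iff y h S C.S_mem).mp hyS.le
    have e3 := C.chart.lev y h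
    rw [C.co_F] at e1
    rw [C.co_S] at e2
    have e4 := e1.1
    have e5 := e2.2
    simp only at e4 e5
    omega
  · obtain ⟨x1, hE, hj⟩ := mem_junk.mp h
    have hj2 := (mem_jset.mp hj).2
    have h0 := hE.fst
    have hx1 := hE.mem
    rcases hj2 F hyF.le with h3 | h3
    · have e1 := (C.chart.le_iff F C.F_mem x1 hx1).mp h3
      rw [C.co_F] at e1
      have e2 := e1.2
      simp only at e2
      have e3 := hE.lt F C.F_mem (by rw [C.co_F]; simp only; omega)
      rw [C.co_F] at e3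
      simp only at e3
      omega
    · have e1 := (C.chart.le_iff x1 hx1 F C.F_mem).mp h3
      rw [C.co_F] at e1
      have e2 := e1.1
      simp only at e2
      omega

end Pool.Agent.GaussPoset

end

/-! From `Pool.Agent.W_448cc6_h94.CyA` -/

section

/-!
The elements (C) at a lower window: the component (MP_448cb3_co, input HCC at `m = 7`;
after `FcK` .. `FcN` of helper67, which treat the window `m`).
-/

namespace Pool.Agent.GaussPoset

set_option linter.unusedSectionVars false

open Polynomial Finset Dd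

universe u

variable {P : Type u} [Fintype P] [PartialOrder P] [DecidableEq P] {r m g u : ℕ}

namespace CEl

variable {t0 : Tops P} {Nc : Finset P} {co : P → ℕ × ℕ} {z F S : P}

section Comp

variable {Q : Type u} [Fintype Q] [PartialOrder Q] [DecidableEq Q] {f : Q → P}

/-- the sum over configurations with dangerous labels on a set, one component, window `i`,
label `k` with `i + k = m + u + 1` -/
theorem compI (C : CEl t0 Nc co m z F S) (H : Gr P r) (E : Emb t0 z f)
    (hm : m = 2 * g + u) (hu : u ≤ 1) (hg : 1 ≤ g) (hgu : g = 1 → u = 0) {i k : ℕ}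
    (hik : i + k = m + u + 1) (hk : u + 1 ≤ k) (Sd : Finset Q)
    {z' : Q} (hz' : f z' = z) (hzS : z' ∈ Sd) :
    (∀ n < (u + 1) ^ 2 + ∑ x ∈ upz z f, min k (lev x - i), (1 + X : ℤ[X]) ^ (g + 1) ∣
      SC (fun (e : Q → ℕ) F => Vd i e F ∧ Sd ⊆ upL i k e F) n) ∧
    ((∃ x ∈ Sd, ¬ z' ≤ x) → (1 + X : ℤ[X]) ^ (g + 1) ∣
      SC (fun (e : Q → ℕ) F => Vd i e F ∧ Sd ⊆ upL i k e F)
      ((u + 1) ^ 2 + ∑ x ∈ upz z f, min k (lev x - i))) ∧
    ((∀ x ∈ Sd, z' ≤ x) → (1 + X : ℤ[X]) ^ (g + 1) ∣
      SC (fun (e : Q → ℕ) F => Vd i e F ∧ Sd ⊆ upL i k e F)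
      ((u + 1) ^ 2 + ∑ x ∈ upz z f, min k (lev x - i)) -
      Z {x // x ∈ upz z f} (m + u + 1) ((u + 1) ^ 2)) := by
  classical
  have hgr := H.gradedBelow
  have hmem : ∀ x : Q, x ∈ upz z f ↔ z' ≤ x := by
    intro x
    rw [mem_upz, ← hz', ← E.le_iff]
  have key := SC_core (Q := Q) (i := i) (k := k) (B := (u + 1) ^ 2) (b := g + 1)
    (U := upz z f) (by omega) E.upz_up (fun L => Sd ⊆ L) ?_ ?_ ?_ ?_
  · rw [hik] at key
    refine ⟨key.1, ?_, ?_⟩
    · rintro ⟨x, hx, hzx⟩
      exact key.2.1 fun h => hzx ((hmem x).mp (h hx))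
    · intro h
      exact key.2.2 fun x hx => (hmem x).mpr (h x hx)
  · intro L hL hS x hx
    exact hL z' x ((hmem x).mp hx) (hS hzS)
  · intro x hx
    have h1 := C.out (by omega) (E.le_t x) (fun h => hx (mem_upz.mpr h))
    rw [E.lev]
    omega
  · intro _ n hn
    rw [hik]
    exact C.core_lt hgr E hm hu hg hgu hn
  · intro L hL hUL hne n hn
    rw [hik]
    refine C.cls H E hm hu hg hgu hL hUL hne (le_trans (Nat.add_le_add_left ?_ n) hn)
    exact Nat.mul_le_mul_right _ hk

lemma sum_upzI (E : Emb t0 z f) (i k : ℕ) : ∑ x ∈ upz z f, min k (lev x - i) =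
    cst i (fun _ => k) z := by
  classical
  unfold cst ez
  rw [← Finset.sum_filter]
  refine Finset.sum_bij (fun x _ => f x) ?_ ?_ ?_ ?_
  · intro x hx
    rw [mem_filter]
    exact ⟨mem_univ _, mem_upz.mp hx⟩
  · intro x _ y _ h
    exact E.inj h
  · intro y hy
    rw [mem_filter] at hy
    obtain ⟨z', hz'⟩ := E.z
    obtain ⟨y', rfl⟩ := E.up z' y (by rw [hz']; exact hy.2)
    exact ⟨y', mem_upz.mpr hy.2, rfl⟩
  · intro x _
    rw [E.lev]

end Comp

variable {N : Tops P → Finset P}

/-- dangerous `z` together with an unnatural element of another component, window `i` -/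
lemma costI (C : CEl t0 Nc co m z F S) (hgr : GradedBelow P) (HN : NatSys N)
    (hlow : ∀ x ∈ unnat N, 2 * m < lev x) {i h : ℕ} (him : i ≤ m) {e : P → ℕ} {F' : Finset P}
    (hV : Vd i e F') (hzd : z ∈ F' ∨ h ≤ e z) {x0 : P} (hx0 : x0 ∈ offN N t0)
    (hd : x0 ∈ F' ∨ 1 ≤ e x0) : cst i (fun _ => h) z + (m + 1) ≤ ∑ x, e x := by
  classical
  have hzo := C.z_only hgr HN hlow
  have hl0 := hlow x0 (offN_sub HN hx0)
  rw [mem_offN] at hx0
  obtain ⟨t, ht, hxt, -⟩ := hx0
  have hzl := C.lev_z hgr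
  have h1 : ∀ k ∈ range (m + 1), ∃ w, x0 ≤ w ∧ w ≤ (t : P) ∧ lev w = m + 1 + k := by
    intro k hk
    rw [mem_range] at hk
    exact exists_between hgr hxt (by rw [t.2]; omega) (by omega)
  haveI : Nonempty P := ⟨x0⟩
  choose! f hf using h1
  have hinj : Set.InjOn f (range (m + 1)) := by
    intro k hk k' hk' h
    have e1 := hf k (Finset.mem_coe.mp hk)
    have e2 := hf k' (Finset.mem_coe.mp hk')
    rw [h] at e1
    omega
  have hcard : ((range (m + 1)).image f).card = m + 1 := by
    rw [card_image_of_injOn hinj, card_range]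
  have h2 : ∑ x : P, (if x ∈ (range (m + 1)).image f then 1 else 0) = m + 1 := by
    rw [← card_filter]
    rw [filter_mem_eq_inter, univ_inter, hcard]
  unfold cst
  rw [← h2, ← Finset.sum_add_distrib]
  refine Finset.sum_le_sum fun y _ => ?_
  have h3 := ez_le (h := fun _ => h) hV (by omega) hzd y
  have h4 := ez_le (h := fun _ => 1) hV (by omega) hd y
  by_cases hy : y ∈ (range (m + 1)).image f
  · rw [if_pos hy]
    rw [mem_image] at hy
    obtain ⟨k, hk, rfl⟩ := hy
    obtain ⟨h5, h6, h7⟩ := hf k hk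
    have h8 : ¬ z ≤ f k := by
      intro h9
      exact ht (Subtype.ext (mem_onlyB.mp hzo t t.2 (h9.trans h6)))
    unfold ez at h4 ⊢
    rw [if_neg h8]
    rw [if_pos h5, h7] at h4
    have h9 : min 1 (m + 1 + k - i) ≤ e (f k) := h4
    omega
  · rw [if_neg hy, add_zero]
    exact h3

end CEl

/-- the other components, truncated orders -/
theorem dvd_restT {i n0 : ℕ} {N : Tops P → Finset P} {t0 : Tops P} (HN : NatSys N)
    {b : Tops P → ℕ} (HZ : ∀ t, ∀ n < n0, (1 + X : ℤ[X]) ^ b t ∣ Z {x : P // x ∈ N t} i n)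
    {n : ℕ} (hn : n < n0) : (1 + X : ℤ[X]) ^ (∑ t ∈ univ.erase t0, b t) ∣
      Z {x : {x : P // x ∉ offN N t0} // ¬ (x : P) ∈ onlyB t0} i n := by
  classical
  have hmemN : ∀ x : {x : {x : P // x ∉ offN N t0} // ¬ (x : P) ∈ onlyB t0},
      (x : P) ∈ N (topOf (x : P)) := by
    intro x
    refine mem_of_not_offN x.1.2 ?_ (le_topOf _)
    intro h
    refine x.2 (onlyB_of_not_offN HN x.1.2 ?_)
    have h1 := le_topOf (x : P)
    rw [h] at h1
    exact h1
  have hs : ∑ t ∈ univ.erase t0, b t = ∑ t, (if t = t0 then 0 else b t) := by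
    rw [← Finset.add_sum_erase univ _ (mem_univ t0), if_pos rfl, zero_add]
    exact Finset.sum_congr rfl fun t ht => by rw [if_neg (ne_of_mem_erase ht)]
  rw [hs]
  have hc : ∀ x y : {x : {x : P // x ∉ offN N t0} // ¬ (x : P) ∈ onlyB t0}, x ≤ y →
      topOf (x : P) = topOf (y : P) := fun x y hxy =>
    HN.cp x y hxy fun h => mem_unnat.mp h _ (hmemN x)
  choose f hf hf' using fun k => exists_norm
    {x : {x : {x : P // x ∉ offN N t0} // ¬ (x : P) ∈ onlyB t0} // topOf (x : P) = k} i
  rw [Z_prod (fun x : {x : {x : P // x ∉ offN N t0} // ¬ (x : P) ∈ onlyB t0} =>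
    topOf (x : P)) hc i f hf n]
  refine Lo.prod (n0 := n0) univ (fun k _ n' hn' => ?_) n hn
  rw [hf']
  by_cases hk : k = t0
  · rw [if_pos hk, pow_zero]
    exact one_dvd _
  · rw [if_neg hk]
    have e : {x : {x : {x : P // x ∉ offN N t0} // ¬ (x : P) ∈ onlyB t0} // topOf (x : P) = k} ≃o
        {x : P // x ∈ N k} :=
      { toFun := fun x => ⟨x.1.1.1, by
          have := hmemN x.1
          rw [x.2] at this
          exact this⟩
        invFun := fun x => ⟨⟨⟨x.1, fun h => by
            have h2 := offN_sub HN h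
            exact mem_unnat.mp h2 k x.2⟩, fun h => by
            exact hk (Subtype.ext (mem_onlyB.mp h k k.2 (HN.le_t k _ x.2)))⟩, HN.topOf_eq x.2⟩
        left_inv := fun x => rfl
        right_inv := fun x => rfl
        map_rel_iff' := Iff.rfl }
    rw [Z_iso e]
    exact HZ k n' hn'

end Pool.Agent.GaussPoset

end

/-! From `Pool.Agent.W_448cc6_h94.CyB` -/

section

/-!
The elements (C) at `m = 7`, window 6, label 3: the first pole at the energy 75
(MP_448cb3_co, input HCC at `m = 7`; after `FcN`, `FcP` of helper67).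
-/

namespace Pool.Agent.GaussPoset.Cy

set_option linter.unusedSectionVars false

open Polynomial Finset

universe u

variable {P : Type u} [Fintype P] [PartialOrder P] [DecidableEq P] {r : ℕ}
variable {t0 : Tops P} {Nc : Finset P} {co : P → ℕ × ℕ} {z F S : P}
  {N : Tops P → Finset P}

/-- **The pole**, a set of dangerous elements. -/
theorem pole (C : CEl t0 Nc co 7 z F S) (H : Gr P r) (HN : NatSys N) {b : Tops P → ℕ} {n0 : ℕ}
    (HZ : ∀ t, ∀ n < n0, (1 + X : ℤ[X]) ^ b t ∣ Z {x : P // x ∈ N t} 6 n)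
    (hlow : ∀ x ∈ unnat N, 2 * 7 < lev x) {Sd : Finset P} (hzS : z ∈ Sd)
    (hSd : ∀ x ∈ Sd, x ∈ onlyB t0) (hn0 : 4 + cst 6 (fun _ => 3) z < n0) :
    (∀ n < 4 + cst 6 (fun _ => 3) z,
      (1 + X : ℤ[X]) ^ (4 + ∑ t ∈ univ.erase t0, b t) ∣ ZB 6 ∅ 0 (sgs Sd 3) n) ∧
    ((∃ x ∈ Sd, ¬ z ≤ x) → (1 + X : ℤ[X]) ^ (4 + ∑ t ∈ univ.erase t0, b t) ∣
      ZB 6 ∅ 0 (sgs Sd 3) (4 + cst 6 (fun _ => 3) z)) ∧
    ((∀ x ∈ Sd, z ≤ x) → (1 + X : ℤ[X]) ^ (4 + ∑ t ∈ univ.erase t0, b t) ∣
      ZB 6 ∅ 0 (sgs Sd 3) (4 + cst 6 (fun _ => 3) z) -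
      X ^ (below P 6 + 10) * (1 + X) ^ ((lv P 6).card - 1)) := by
  classical
  have hgr := H.gradedBelow
  have E := C.emb hgr HN hlow
  have hzo := C.z_only hgr HN hlow
  have hzl := C.lev_z hgr
  set E0 := cst 6 (fun _ => 3) z with hE0
  have hred : ∀ n ≤ 4 + E0, ZB 6 ∅ 0 (sgs Sd 3) n = ∑ ab ∈ antidiagonal n,
      SC (fun (e : {x : {x : P // x ∉ offN N t0} // (x : P) ∈ onlyB t0} → ℕ) F => Vd 6 e F ∧
        (univ.filter (fun x : {x : {x : P // x ∉ offN N t0} // (x : P) ∈ onlyB t0} =>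
          (x : P) ∈ Sd)) ⊆ upL 6 3 e F) ab.1 *
      Z {x : {x : P // x ∉ offN N t0} // ¬ (x : P) ∈ onlyB t0} 6 ab.2 := by
    intro n hn
    refine ZB_reduce HN (fun x hx => by have := hlow x hx; omega) hSd ?_
    intro e F' hV hS hs x hx
    have hz1 : z ∈ F' ∨ 3 ≤ e z := by
      rcases mem_upL.mp (hS hzS) with h | h
      · exact Or.inl h
      · right
        rw [rho_of_lt (by omega)] at h
        exact_mod_cast h
    by_contra hcon
    have hd : x ∈ F' ∨ 1 ≤ e x := by
      by_contra h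
      push Not at h
      exact hcon ⟨h.1, by omega⟩
    have := C.costI hgr HN hlow (i := 6) (by norm_num) hV hz1 hx hd
    omega
  set Sd0 := univ.filter (fun x : {x : {x : P // x ∉ offN N t0} // (x : P) ∈ onlyB t0} =>
          (x : P) ∈ Sd) with hSd0
  have hmS : ∀ x, x ∈ Sd0 ↔ (x : P) ∈ Sd := by
    intro x
    rw [hSd0, mem_filter]
    simp only [mem_univ, true_and]
  have key := C.compI H E (g := 3) (u := 1) (i := 6) (k := 3) (by norm_num) le_rfl (by norm_num)
    (by norm_num) (by norm_num) (by norm_num) Sd0 (z' := ⟨⟨z, not_offN_of_onlyB hzo⟩, hzo⟩) rfl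
    ((hmS _).mpr hzS)
  rw [CEl.sum_upzI E, ← hE0] at key
  norm_num at key
  obtain ⟨k1, k2, k3⟩ := key
  have hrest := fun (n : ℕ) (hn : n < n0) => dvd_restT (t0 := t0) HN HZ hn
  have hp1 : ∀ n < 4 + E0, (1 + X : ℤ[X]) ^ (4 + ∑ t ∈ univ.erase t0, b t) ∣
      ZB 6 ∅ 0 (sgs Sd 3) n := by
    intro n hn
    rw [hred n hn.le]
    refine Finset.dvd_sum fun ab hab => ?_
    rw [HasAntidiagonal.mem_antidiagonal] at hab
    rw [pow_add _ 4]
    exact mul_dvd_mul (k1 ab.1 (by omega)) (hrest _ (by omega))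
  refine ⟨hp1, ?_, ?_⟩
  · rintro ⟨x, hx, hzx⟩
    rw [hred _ le_rfl]
    refine Finset.dvd_sum fun ab hab => ?_
    rw [HasAntidiagonal.mem_antidiagonal] at hab
    rw [pow_add _ 4]
    refine mul_dvd_mul ?_ (hrest _ (by omega))
    rcases Nat.lt_or_ge ab.1 (4 + E0) with h | h
    · exact k1 ab.1 h
    · have h1 : ab.1 = 4 + E0 := by omega
      rw [h1]
      exact k2 x (fun h => not_offN_of_onlyB (hSd x hx) h) (hSd x hx) ((hmS _).mpr hx) hzx
  · intro hall
    have k3' := k3 (fun x hx hx' hxS => hall _ ((hmS _).mp hxS))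
    rw [hred _ le_rfl]
    have hmem : ((4 + E0, 0) : ℕ × ℕ) ∈ antidiagonal (4 + E0) := by
      rw [HasAntidiagonal.mem_antidiagonal]
      exact Nat.add_zero _
    rw [← Finset.add_sum_erase _ _ hmem]
    obtain ⟨a, ha, hcore⟩ := C.core_eq hgr E (g := 3) (u := 1) (by norm_num) le_rfl (by norm_num)
      (by norm_num)
    have hT := C.triS_tz E
    have e1 : below {x // x ∈ CEl.tz z (fun x : {x : {x : P // x ∉ offN N t0} //
        (x : P) ∈ onlyB t0} => (x : P))} 9 = below {x // x ∈ CEl.tz z (fun x :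
        {x : {x : P // x ∉ offN N t0} // (x : P) ∈ onlyB t0} => (x : P))} 6 + 13 := by
      rw [show (9 : ℕ) = 8 + 1 by norm_num, below_succ, show (8 : ℕ) = 7 + 1 by norm_num,
        below_succ, show (7 : ℕ) = 6 + 1 by norm_num, below_succ,
        hT.card_lv_low (by norm_num) (by norm_num), hT.card_lv_low (by norm_num) (by norm_num),
        hT.card_lv_low (by norm_num) (by norm_num)]
    have e2 := hT.card_lv_low (l := 6) (by omega) (by omega)
    have e3 : below P 6 = below {x // x ∈ CEl.tz z (fun x : {x : {x : P // x ∉ offN N t0} //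
        (x : P) ∈ onlyB t0} => (x : P))} 6 +
        below {x : {x : P // x ∉ offN N t0} // ¬ (x : P) ∈ onlyB t0} 6 :=
      C.card_split hgr HN (by omega) hlow (fun l => l < 6) (by omega)
    have e4 : (lv P 6).card = (lv {x // x ∈ CEl.tz z (fun x : {x : {x : P // x ∉ offN N t0} //
        (x : P) ∈ onlyB t0} => (x : P))} 6).card +
        (lv {x : {x : P // x ∉ offN N t0} // ¬ (x : P) ∈ onlyB t0} 6).card :=
      C.card_split hgr HN (by omega) hlow (fun l => l = 6) (by omega)
    have h0 := hrest 0 (by omega)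
    rw [Z_zero] at h0
    simp only
    rw [Z_zero]
    norm_num at ha hcore
    have e5 : below P 6 + 10 = a +
        below {x : {x : P // x ∉ offN N t0} // ¬ (x : P) ∈ onlyB t0} 6 := by omega
    have e6 : (lv P 6).card - 1 = 3 +
        (lv {x : {x : P // x ∉ offN N t0} // ¬ (x : P) ∈ onlyB t0} 6).card := by omega
    rw [e5, e6]
    have h1 := dvd_add k3' hcore
    have h2 := mul_dvd_mul h1 h0
    rw [← pow_add] at h2
    have h3 : (1 + X : ℤ[X]) ^ (4 + ∑ t ∈ univ.erase t0, b t) ∣
        ∑ ab ∈ (antidiagonal (4 + E0)).erase (4 + E0, 0),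
        SC (fun (e : {x : {x : P // x ∉ offN N t0} // (x : P) ∈ onlyB t0} → ℕ) F => Vd 6 e F ∧
          Sd0 ⊆ upL 6 3 e F) ab.1 *
        Z {x : {x : P // x ∉ offN N t0} // ¬ (x : P) ∈ onlyB t0} 6 ab.2 := by
      refine Finset.dvd_sum fun ab hab => ?_
      rw [mem_erase, HasAntidiagonal.mem_antidiagonal] at hab
      rw [pow_add _ 4]
      refine mul_dvd_mul (k1 ab.1 ?_) (hrest _ (by omega))
      by_contra hcon
      apply hab.1
      exact Prod.ext (by simp only; omega) (by simp only; omega)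
    have h4 := dvd_add h2 h3
    refine h4.trans (dvd_of_eq ?_)
    rw [pow_add X a, pow_add (1 + X) 3]
    ring

end Pool.Agent.GaussPoset.Cy

end
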