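import Mathlib
import Pool.Agent.W_448zz_h61.Ns
import Pool.Agent.W_448zz_h61.M056
import Pool.Agent.W_448zz_h61.M119

/-! From `Pool.Agent.W_448s8_h94.DaB` -/

section

/-!
Block D1 (MP_448cb3_co, S8): second thresholds, the truncated data.
-/

namespace Pool.Agent.GaussPoset

set_option linter.unusedSectionVars false

open Polynomial Finset

universe u

variable {P : Type u} [Fintype P] [PartialOrder P] [DecidableEq P] {r m : ℕ}
  {N : Tops P → Finset P} {b : Tops P → ℕ} {θ : Tops P → P → ℕ}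

/-- chart of a stair-like top -/
structure StC (m : ℕ) (N : Tops P → Finset P) (b : Tops P → ℕ) (θ : Tops P → P → ℕ) (t : Tops P)
    (c : Finset P × (P → ℕ × ℕ)) : Prop where
  st : StairNat (2 * m) m t c.1 c.2
  nat : N t = natS c.1 c.2
  th : θ t = thS m c.1 c.2
  b : b t = m / 2 + 1
  nop : NopT m t

/-- stair-like tops -/
def StT (m : ℕ) (N : Tops P → Finset P) (b : Tops P → ℕ) (θ : Tops P → P → ℕ) (t : Tops P) :
    Prop := ∃ c : Finset P × (P → ℕ × ℕ), StC m N b θ t c

open Classical in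
/-- the second thresholds -/
noncomputable def thP (m : ℕ) (N : Tops P → Finset P) (b : Tops P → ℕ) (θ : Tops P → P → ℕ)
    (t : Tops P) : P → ℕ :=
  if h : StT m N b θ t then thSg (2 * (m / 2) - 2) m h.choose.1 h.choose.2 else θ t

lemma thP_st {t : Tops P} (h : StT m N b θ t) : ∃ c : Finset P × (P → ℕ × ℕ), StC m N b θ t c ∧
    thP m N b θ t = thSg (2 * (m / 2) - 2) m c.1 c.2 :=
  ⟨h.choose, h.choose_spec, dif_pos h⟩

lemma thP_not {t : Tops P} (h : ¬ StT m N b θ t) : thP m N b θ t = θ t := dif_neg h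

/-- inner cells of a stair-like component, with both thresholds -/
structure InS2 (m : ℕ) (N : Tops P → Finset P) (b : Tops P → ℕ) (θ : Tops P → P → ℕ) (x : P)
    (Nc : Finset P) (co : P → ℕ × ℕ) : Prop where
  ins : InSM m N b θ x Nc co
  thP : thP m N b θ (topOf x) x = ((co x).1 - (2 * (m / 2) - 2)) + ((co x).2 - m)
  sc : StC m N b θ (topOf x) (Nc, co)
  eq : Pool.Agent.GaussPoset.thP m N b θ (topOf x) = thSg (2 * (m / 2) - 2) m Nc co

/-- the kinds of natural elements, with the second thresholds -/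
inductive K2 (m : ℕ) (N : Tops P → Finset P) (b : Tops P → ℕ) (θ : Tops P → P → ℕ) (x : P) : Prop
  | full (h : FullM m N θ x) (h2 : Pool.Agent.GaussPoset.thP m N b θ (topOf x) x = lev x - m)
  | stair (Nc : Finset P) (co : P → ℕ × ℕ) (hs : StT m N b θ (topOf x))
      (h : InS2 m N b θ x Nc co)
  | rect (Nc : Finset P) (co : P → ℕ × ℕ) (hs : ¬ StT m N b θ (topOf x))
      (h : InRM m N b θ x Nc co)
  | quad (h : QdM m N θ x)

/-- two elements of level 2 below a stair-like top -/
lemma stair_cn {t : Tops P} {Nc : Finset P} {co : P → ℕ × ℕ} (h : StairNat (2 * m) m t Nc co)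
    (hm : 2 ≤ m) : 2 ≤ cn 2 (t : P) := by
  classical
  obtain ⟨x0, hx0, hc0⟩ := h.cell
  obtain ⟨y1, hy1, hc1⟩ := h.chart.low x0 hx0 (0, 2) (by
    rw [hc0]; exact ⟨Nat.zero_le _, hm⟩) (Nat.zero_le _)
  obtain ⟨y2, hy2, hc2⟩ := h.chart.low x0 hx0 (1, 1) (by
    rw [hc0]; exact ⟨by simp only; omega, by simp only; omega⟩) le_rfl
  have hne : y1 ≠ y2 := by
    rintro rfl
    rw [hc1] at hc2
    simp at hc2
  have h3 : ({y1, y2} : Finset P) ⊆ (lv P 2).filter (fun x => x ≤ (t : P)) := by
    intro y hy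
    rw [mem_insert, mem_singleton] at hy
    rw [mem_filter, mem_lv]
    rcases hy with rfl | rfl
    · exact ⟨by rw [h.chart.lev _ hy1, hc1]; rfl, h.chart.le_t _ hy1⟩
    · exact ⟨by rw [h.chart.lev _ hy2, hc2]; rfl, h.chart.le_t _ hy2⟩
  have h4 := Finset.card_le_card h3
  rwa [Finset.card_pair hne] at h4

/-- a component is not rectangle-like and stair-like -/
lemma rect_ne_stair {t : Tops P} {Nc Nc' : Finset P} {co co' : P → ℕ × ℕ} {b : ℕ}
    (h : StairNat (2 * m) m t Nc co) (h' : RectNat (2 * m) m t b Nc' co') (hm : 1 ≤ m) :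
    False := by
  classical
  obtain ⟨x0, hx0, hc0⟩ := h'.cell
  have hb := h'.b_two
  obtain ⟨y1, hy1, hc1⟩ := h'.chart.low x0 hx0 (0, 1) (by
    rw [hc0]; exact ⟨Nat.zero_le _, hm⟩) trivial
  obtain ⟨y2, hy2, hc2⟩ := h'.chart.low x0 hx0 (1, 0) (by
    rw [hc0]; exact ⟨by simp only; omega, Nat.zero_le _⟩) trivial
  have hne : y1 ≠ y2 := by
    rintro rfl
    rw [hc1] at hc2
    simp at hc2
  have l1 := h'.chart.lev _ hy1
  have l2 := h'.chart.lev _ hy2
  rw [hc1] at l1
  rw [hc2] at l2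
  simp only at l1 l2
  have m1 : y1 ∈ Nc := h.strip (mem_lowPart.mpr ⟨h'.chart.le_t _ hy1, by omega⟩)
  have m2 : y2 ∈ Nc := h.strip (mem_lowPart.mpr ⟨h'.chart.le_t _ hy2, by omega⟩)
  have e1 := h.chart.lev _ m1
  have e2 := h.chart.lev _ m2
  have f1 : (co y1).1 ≤ (co y1).2 := h.chart.mem _ m1
  have f2 : (co y2).1 ≤ (co y2).2 := h.chart.mem _ m2
  exact hne (h.chart.inj _ m1 _ m2 (Prod.ext (by omega) (by omega)))

theorem WM.k2 (W : WM r m N b θ) {x : P} (hx : x ∉ unnat N) : K2 m N b θ x := by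
  have H := W.gt.H
  have HN := W.natSys
  have hxt : x ∈ N (topOf x) := HN.mem_iff.mpr ⟨hx, rfl⟩
  have hm := W.ten
  by_cases hs : StT m N b θ (topOf x)
  · obtain ⟨⟨Nc, co⟩, ⟨h0, h1, h2, h3, h4⟩, h5⟩ := thP_st hs
    simp only at h0 h1 h2 h5
    rw [h1] at hxt
    by_cases hJ : x ∈ junk (fun c => c.1 ≤ c.2) Nc co
    · refine K2.full ⟨?_, ?_, ?_⟩ ?_
      · rw [h2]
        unfold thS
        rw [if_pos hJ]
      · intro z hz hzx k hk hkx
        exact stair_two_le_nab H h0 h1 hz hzx (Or.inl hJ) hk hkx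
      · intro z hz h
        refine mem_unnat.mp hz (topOf x) ?_
        rw [h1, mem_natS]
        exact Or.inr (junk_twin hJ h)
      · rw [h5]
        unfold thSg
        rw [if_pos hJ]
    · have hxN : x ∈ Nc := by
        rw [mem_natS] at hxt
        rcases hxt with h | h
        · exact h
        · exact absurd h hJ
      have hl := h0.chart.lev x hxN
      by_cases h7 : (co x).1 = 0
      · refine K2.full ⟨?_, ?_, ?_⟩ ?_
        · rw [h2]
          unfold thS
          rw [if_neg hJ]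
          omega
        · intro z hz hzx k hk hkx
          exact stair_two_le_nab H h0 h1 hz hzx (Or.inr ⟨hxN, h7⟩) hk hkx
        · intro z hz h
          have h8 := W.lt_lev hz
          rw [← lev_eq_of_up h] at h8
          obtain ⟨u, hu, hcu⟩ := h0.chart.low x hxN (0, (co x).2 - 1)
            ⟨Nat.zero_le _, Nat.sub_le _ _⟩ (Nat.zero_le _)
          refine straight_twinS H h0 (by omega) h1 hxN hu ?_ ?_ ?_ hz h
          · rw [hcu]
            exact Or.inr ⟨by simp only; omega, by simp only; omega⟩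
          · intro y hy hp
            rw [hcu]
            rcases hp with hp | hp
            · omega
            · exact Prod.ext (by simp only; omega) (by simp only; omega)
          · rw [hcu]
        · rw [h5]
          unfold thSg
          rw [if_neg hJ]
          omega
      · refine K2.stair Nc co hs ⟨⟨h0, h1, hxN, by omega, ?_, h4⟩, ?_, ⟨h0, h1, h2, h3, h4⟩, h5⟩
        · rw [h2]
          unfold thS
          rw [if_neg hJ]
        · rw [h5]
          unfold thSg
          rw [if_neg hJ]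
  · have h8 := thP_not hs
    have hT := W.typ (topOf x)
    rcases W.cases hx with h | ⟨Nc, co, h⟩ | ⟨Nc, co, h⟩ | h
    · exact K2.full h (by rw [h8]; exact h.th)
    · exact K2.rect Nc co hs h
    · exfalso
      -- the type is not stair, so the element is not inner of a stair
      rcases hT with ⟨g1, g2, g3, g5, g6, g7⟩ | ⟨Nc', co', g0, g1, g2, g3⟩ |
        ⟨Nc', co', g0, g1, g2, g3, g4⟩ | ⟨g1, g2, g3, g4⟩
      · have h9 := stair_cn h.stair (by omega)
        rcases g7 with ⟨e1, -⟩ | ⟨a, e1, e2⟩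
        · rw [e1 2 (by omega)] at h9
          omega
        · rw [e2.cn 2 (by omega), if_neg (by omega)] at h9
          omega
      · exact rect_ne_stair h.stair g0 (by omega)
      · exact hs ⟨(Nc', co'), g0, g1, g2, g3, g4⟩
      · have h9 := stair_cn h.stair (by omega)
        rw [g4.cn 2 (by omega), if_neg (by omega)] at h9
        omega
    · exact K2.quad h

/-- twins of cells of rectangle-like components -/
noncomputable def twR (m : ℕ) (N : Tops P → Finset P) (b : Tops P → ℕ) (θ : Tops P → P → ℕ) :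
    Finset P := by
  classical
  exact (twY (2 * m) N).filter (fun z => ¬ StT m N b θ (topOf z))

lemma mem_twR {z : P} : z ∈ twR m N b θ ↔ z ∈ twY (2 * m) N ∧ ¬ StT m N b θ (topOf z) := by
  classical
  unfold twR
  rw [mem_filter]

/-- the unnatural elements without the twins of rectangle cells -/
noncomputable abbrev R3 (m : ℕ) (N : Tops P → Finset P) (b : Tops P → ℕ) (θ : Tops P → P → ℕ) :
    Finset P := unnat N \ twR m N b θ

theorem WM.twR_sys (W : WM r m N b θ) : TwSys (unnat N) (twR m N b θ) topOf (twT N) where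
  sub := fun _ hx => W.twSys.sub (mem_twR.mp hx).1
  nat := fun x hx => W.twSys.nat x (mem_twR.mp hx).1
  up := fun x hx => W.twSys.up x (mem_twR.mp hx).1
  inj := fun x hx x' hx' => W.twSys.inj x (mem_twR.mp hx).1 x' (mem_twR.mp hx').1
  anti := fun x hx y hy => W.twSys.anti x (mem_twR.mp hx).1 y (mem_twR.mp hy).1
  cp := fun x hx => W.twSys.cp x (mem_twR.mp hx).1

/-- the natural element of a twin of a rectangle cell -/
lemma WM.twR_rect (W : WM r m N b θ) {x : P} (hx : x ∈ twR m N b θ) :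
    ∃ Nc co, InRM m N b θ (twT N x) Nc co := by
  have h0 := mem_twR.mp hx
  have h1 := mem_twY.mp h0.1
  have h3 := twT_spec h1.2.2
  have h6 : topOf (twT N x) = topOf x := W.twSys.cp x h0.1
  rcases W.k2 h3.1 with ⟨h, -⟩ | ⟨Nc, co, hs, h⟩ | ⟨Nc, co, hs, h⟩ | h
  · exact absurd h3.2 (h.tw x h1.1)
  · rw [h6] at hs
    exact absurd hs h0.2
  · exact ⟨Nc, co, h⟩
  · have h4 := h.lev
    have h5 := W.twSys.lev h0.1
    omega

/-- the natural element of a twin of a stair cell -/
lemma WM.twS_stair (W : WM r m N b θ) {x : P} (hx : x ∈ twY (2 * m) N)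
    (hs : StT m N b θ (topOf x)) : ∃ Nc co, InS2 m N b θ (twT N x) Nc co := by
  have h1 := mem_twY.mp hx
  have h3 := twT_spec h1.2.2
  have h6 : topOf (twT N x) = topOf x := W.twSys.cp x hx
  rcases W.k2 h3.1 with ⟨h, -⟩ | ⟨Nc, co, hs', h⟩ | ⟨Nc, co, hs', h⟩ | h
  · exact absurd h3.2 (h.tw x h1.1)
  · exact ⟨Nc, co, h⟩
  · rw [h6] at hs'
    exact absurd hs hs'
  · have h4 := h.lev
    have h5 := W.twSys.lev hx
    omega

lemma WM.twR_kap (W : WM r m N b θ) {x : P} (hx : x ∈ twR m N b θ) :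
    (m + 1) * (m + 1) + 2 ≤ ct m (θ (topOf (twT N x)) (twT N x) + 1) (twT N x) +
      (θ (topOf (twT N x)) (twT N x) + 1) := by
  have h0 := mem_twR.mp hx
  have h1 := mem_twY.mp h0.1
  have h5 := W.twSys.lev h0.1
  have hm := W.ten
  obtain ⟨Nc, co, h⟩ := W.twR_rect hx
  refine kap_chart (by omega) h.rect.chart h.mem h.fst h.snd (by omega) ?_
  rw [h.th]

/-- the thresholds for the component `k0` -/
noncomputable def thK (m : ℕ) (N : Tops P → Finset P) (b : Tops P → ℕ) (θ : Tops P → P → ℕ)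
    (k0 t : Tops P) : P → ℕ := by
  classical
  exact if t = k0 then thP m N b θ t else θ t

/-- the orders for the component `k0` -/
noncomputable def bK (m : ℕ) (N : Tops P → Finset P) (b : Tops P → ℕ) (θ : Tops P → P → ℕ)
    (k0 t : Tops P) : ℕ := by
  classical
  exact if t = k0 ∧ StT m N b θ t then m / 2 else b t

theorem WM.natTopK (W : WM r m N b θ) (k0 t : Tops P) :
    ∃ B, NatTop m t (bK m N b θ k0 t) (N t) (thK m N b θ k0 t) B := by
  classical
  have hm := W.ten
  by_cases h : t = k0 ∧ StT m N b θ t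
  · obtain ⟨⟨Nc, co⟩, h1, h2⟩ := thP_st h.2
    simp only at h2
    have e1 : bK m N b θ k0 t = m / 2 := if_pos h
    have e2 : thK m N b θ k0 t = thSg (2 * (m / 2) - 2) m Nc co := by
      unfold thK
      rw [if_pos h.1, h2]
    rw [e1, e2, h1.nat]
    exact ⟨_, h1.st.natTop_less W.gt.H.gradedBelow (by omega) (by omega)⟩
  · have e1 : bK m N b θ k0 t = b t := if_neg h
    have e2 : thK m N b θ k0 t = θ t := by
      unfold thK
      by_cases h3 : t = k0
      · rw [if_pos h3, thP_not fun h4 => h ⟨h3, h4⟩]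
      · rw [if_neg h3]
    rw [e1, e2]
    exact W.natTop t

/-- the first thresholds -/
noncomputable abbrev tA (m : ℕ) (N : Tops P → Finset P) (b : Tops P → ℕ) (θ : Tops P → P → ℕ) :
    P → ℕ := thX (twR m N b θ) (twT N) (fun x => θ (topOf x) x)

/-- the second thresholds -/
noncomputable abbrev tB (m : ℕ) (N : Tops P → Finset P) (b : Tops P → ℕ) (θ : Tops P → P → ℕ) :
    P → ℕ := thX (twR m N b θ) (twT N) (fun x => thP m N b θ (topOf x) x)

/-- the thresholds for the component `k0` -/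
noncomputable abbrev tK (m : ℕ) (N : Tops P → Finset P) (b : Tops P → ℕ) (θ : Tops P → P → ℕ)
    (k0 : Tops P) : P → ℕ := thX (twR m N b θ) (twT N) (fun x => thK m N b θ k0 (topOf x) x)

lemma WM.tK_eq (W : WM r m N b θ) (k0 : Tops P) (x : P) : tK m N b θ k0 x =
    (by classical exact if topOf x = k0 then tB m N b θ x else tA m N b θ x) := by
  classical
  by_cases hx : x ∈ twR m N b θ
  · have h1 := W.twR_sys.cp x hx
    unfold tK tA tB
    rw [thX_of hx, thX_of hx, thX_of hx]
    unfold thK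
    rw [h1]
    split_ifs <;> rfl
  · unfold tK tA tB
    rw [thX_not hx, thX_not hx, thX_not hx]
    unfold thK
    split_ifs <;> rfl

lemma WM.tB_twR (W : WM r m N b θ) {x : P} (hx : x ∈ twR m N b θ) :
    tB m N b θ x = θ (topOf (twT N x)) (twT N x) := by
  unfold tB
  rw [thX_of hx, thP_not]
  rw [W.twR_sys.cp x hx]
  exact (mem_twR.mp hx).2

lemma tA_twR {x : P} (hx : x ∈ twR m N b θ) :
    tA m N b θ x = θ (topOf (twT N x)) (twT N x) := thX_of hx

lemma WM.twinPairK (W : WM r m N b θ) (k0 : Tops P) {x : P} (hx : x ∈ twR m N b θ) :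
    TwinPair m (tK m N b θ k0) ((m + 1) * (m + 1) + 1) (twT N x) x := by
  classical
  have T := W.twR_sys
  have h0 := mem_twR.mp hx
  have h1 := mem_twY.mp h0.1
  have hlev : lev (twT N x) = 2 * m + 1 := by rw [T.lev hx]; exact h1.2.1
  have hnY : twT N x ∉ twR m N b θ := fun h => T.nat x hx (T.sub h)
  obtain ⟨h3, h4⟩ := W.tw_th h0.1
  have h5 := W.twR_kap hx
  have hc := T.cp x hx
  have hth' : tK m N b θ k0 x = θ (topOf (twT N x)) (twT N x) := by
    rw [W.tK_eq]
    split_ifs
    · exact W.tB_twR hx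
    · exact tA_twR hx
  have hth : tK m N b θ k0 (twT N x) = θ (topOf (twT N x)) (twT N x) := by
    rw [← hth']
    unfold tK
    rw [thX_not hnY, thX_of hx]
  refine ⟨?_, T.up x hx, ?_, ?_, ?_, ?_, ?_⟩
  · intro h
    exact T.nat x hx (h.symm ▸ h1.1)
  · rw [hth]; exact h3
  · rw [hth, hth']
  · rw [hth, hlev]; omega
  · rw [hth]
    have h6 : ct m (θ (topOf (twT N x)) (twT N x) + 1) (twT N x) ≤
        ∑ y, (if twT N x ≤ y then lev y - m else 0) := by
      rw [ct_eq_sum]
      refine Finset.sum_le_sum fun y _ => ?_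
      split_ifs
      · exact Nat.min_le_right _ _
      · exact le_rfl
    omega
  · rw [hth]
    have h6 := ct_succ m (θ (topOf (twT N x)) (twT N x) + 1) (twT N x)
    rw [hlev, Nat.min_eq_left (by omega)] at h6
    omega

theorem WM.farK (W : WM r m N b θ) (k0 : Tops P) :
    FarT P m (R3 m N b θ) (∑ t, bK m N b θ k0 t) (hcan (R3 m N b θ) (tK m N b θ k0))
      ((m + 1) * (m + 1) + 1) := by
  choose B hB using W.natTopK k0
  exact farT_of_tops W.gt.H.gradedBelow hB W.twR_sys _ (fun x hx => W.twinPairK k0 hx)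

lemma WM.sum_bK (W : WM r m N b θ) (k0 : Tops P) :
    (lv P m).card ≤ (∑ t, bK m N b θ k0 t) + 1 := by
  classical
  rw [← W.sum_b]
  have h1 : ∀ t ∈ (univ : Finset (Tops P)), b t ≤ bK m N b θ k0 t + if t = k0 then 1 else 0 := by
    intro t _
    unfold bK
    by_cases h : t = k0 ∧ StT m N b θ t
    · obtain ⟨c, hc⟩ := h.2
      rw [if_pos h, if_pos h.1, hc.b]
    · rw [if_neg h]
      exact Nat.le_add_right _ _
  have h2 := Finset.sum_le_sum h1
  rw [Finset.sum_add_distrib, Finset.sum_ite_eq' univ k0, if_pos (mem_univ _)] at h2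
  exact h2

/-- configurations with at most one defect -/
theorem WM.clean2 (W : WM r m N b θ) {n : ℕ} (hn : n < (m + 1) * (m + 1) + 1) (k0 : Tops P)
    (g : P → ℕ) (hg0 : ∀ x, x ∉ R3 m N b θ → g x = 0)
    (h1 : ∀ y ∈ R3 m N b θ, ∀ x, x ∉ R3 m N b θ → y ⋖ x → topOf x = k0 → g y ≤ tB m N b θ x)
    (h2 : ∀ y ∈ R3 m N b θ, ∀ x, x ∉ R3 m N b θ → y ⋖ x → topOf x ≠ k0 → g y ≤ tA m N b θ x) :
    (1 + X : ℤ[X]) ^ ((lv P m).card - 1) ∣ ZB m (R3 m N b θ) g 0 n := by
  classical
  have h3 := (W.farK k0).clean g hg0 (fun z hz => ?_) n hn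
  · refine dvd_trans (pow_dvd_pow _ ?_) h3
    have := W.sum_bK k0
    omega
  · obtain ⟨x, hx, hzx, hh⟩ := hcan_spec (θ := tK m N b θ k0) hz
    rw [hh, W.tK_eq]
    have hzR := bd_mem hz
    split_ifs with h4
    · have := h1 z hzR x hx hzx h4
      omega
    · have := h2 z hzR x hx hzx h4
      omega

end Pool.Agent.GaussPoset

end

/-! From `Pool.Agent.W_448s8_h94.DaC` -/

section

/-!
Block D1 (MP_448cb3_co, S8): sums over disjoint up-sets, the elements of level `2 m + 1`.
-/

namespace Pool.Agent.GaussPoset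

set_option linter.unusedSectionVars false

open Polynomial Finset

universe u

variable {P : Type u} [Fintype P] [PartialOrder P] [DecidableEq P] {r m : ℕ}
  {N : Tops P → Finset P} {b : Tops P → ℕ} {θ : Tops P → P → ℕ}

section General

variable {i k k' : ℕ} {x x' z z' : P}

lemma ez_eq (i k : ℕ) (z y : P) : ez i (fun _ => k) z y =
    (by classical exact if z ≤ y then min k (lev y - i) else 0) := by
  unfold ez
  classical
  by_cases h : z ≤ y
  · rw [if_pos h]
  · rw [if_neg h]

/-- an element below two disjoint up-sets -/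
lemma ct_two (hz : z < x) (hz' : z < x') (hd : ∀ w, x ≤ w → ¬ x' ≤ w) :
    min k (lev z - i) + ct i k x + ct i k x' ≤ ct i k z := by
  classical
  rw [ct_succ i k z, ct_eq_sum, ct_eq_sum, add_assoc, ← Finset.sum_add_distrib]
  refine Nat.add_le_add_left (Finset.sum_le_sum fun y _ => ?_) _
  by_cases h1 : x ≤ y
  · rw [if_pos h1, if_neg (hd y h1), if_pos (hz.trans_le h1), add_zero]
  · rw [if_neg h1, zero_add]
    by_cases h2 : x' ≤ y
    · rw [if_pos h2, if_pos (hz'.trans_le h2)]
    · rw [if_neg h2]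
      exact Nat.zero_le _

/-- two elements below disjoint up-sets -/
lemma sum_max_ge (hz : z < x) (hz' : z' < x') (hne : z ≠ z') (hd : ∀ w, x ≤ w → ¬ x' ≤ w)
    (h1 : ¬ x' ≤ z) (h2 : ¬ x ≤ z') :
    (min k (lev z - i) + ct i k x) + (min k' (lev z' - i) + ct i k' x') ≤
      ∑ y, max (ez i (fun _ => k) z y) (ez i (fun _ => k') z' y) := by
  classical
  rw [ct_eq_sum, ct_eq_sum]
  have e1 : ∑ y : P, (if y = z then min k (lev z - i) else 0) = min k (lev z - i) := by
    rw [Finset.sum_ite_eq' univ z, if_pos (mem_univ _)]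
  have e2 : ∑ y : P, (if y = z' then min k' (lev z' - i) else 0) = min k' (lev z' - i) := by
    rw [Finset.sum_ite_eq' univ z', if_pos (mem_univ _)]
  rw [← e1, ← e2, ← Finset.sum_add_distrib, ← Finset.sum_add_distrib, ← Finset.sum_add_distrib]
  refine Finset.sum_le_sum fun y _ => ?_
  rw [ez_eq, ez_eq]
  by_cases hy : y = z
  · subst hy
    rw [if_pos rfl, if_neg (fun h => absurd (h.trans_lt hz) (lt_irrefl _)), if_neg hne,
      if_neg h1, if_pos le_rfl]
    simp only [add_zero]
    exact le_max_left _ _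
  · rw [if_neg hy]
    by_cases hy' : y = z'
    · subst hy'
      rw [if_neg h2, if_pos rfl, if_neg (fun h => absurd (h.trans_lt hz') (lt_irrefl _)),
        if_pos le_rfl]
      simp only [add_zero, zero_add]
      exact le_max_right _ _
    · rw [if_neg hy']
      by_cases h3 : x ≤ y
      · rw [if_pos h3, if_neg (hd y h3), if_pos (hz.le.trans h3)]
        simp only [add_zero, zero_add]
        exact le_max_left _ _
      · rw [if_neg h3]
        by_cases h4 : x' ≤ y
        · rw [if_pos h4, if_pos (hz'.le.trans h4)]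
          simp only [zero_add]
          exact le_max_right _ _
        · rw [if_neg h4]
          exact Nat.zero_le _

/-- one element on every level -/
lemma ct_one {j : ℕ} (hk : j ≤ k) (hl : i + j ≤ lev x) : j * (j + 1) ≤ 2 * ct i k x := by
  have h1 := cst_ge (h := fun _ => k) (z := x) (i := i) (fun _ => 1)
    (fun l _ hl2 => one_le_nab hl2)
  have h2 : ∑ l ∈ range (i + j + 1), (l - i) ≤
      ∑ l ∈ range (lev x + 1), min k (l - i) * 1 := by
    refine le_trans (Finset.sum_le_sum (g := fun l => min k (l - i) * 1) fun l hl => ?_)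
      (Finset.sum_le_sum_of_subset fun l hl => ?_)
    · rw [mem_range] at hl
      rw [Nat.min_eq_right (by omega), Nat.mul_one]
    · rw [mem_range] at hl ⊢
      omega
  have h3 := sum_two i j
  rw [← Finset.sum_mul, Nat.mul_comm] at h3
  have h4 := h2.trans h1
  show j * (j + 1) ≤ 2 * cst i (fun _ => k) x
  omega

/-- two elements on the levels up to `2 m` -/
lemma ct_sq (hk : m + 1 ≤ k) (hl : 2 * m + 1 ≤ lev z)
    (h2 : ∀ l, m < l → l ≤ 2 * m → 2 ≤ nab l z) : (m + 1) * (m + 1) ≤ ct m k z := by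
  have h1 := cst_ge (h := fun _ => k) (z := z) (i := m) (fun l => if l ≤ 2 * m then 2 else 1)
    (by
      intro l hl1 hl2
      split_ifs with hc
      · exact h2 l hl1 hc
      · exact one_le_nab hl2)
  refine le_trans ?_ h1
  have h3 : ∑ l ∈ range (m + m + 1 + 1), min k (l - m) * (if l ≤ 2 * m then 2 else 1) ≤
      ∑ l ∈ range (lev z + 1), min k (l - m) * (if l ≤ 2 * m then 2 else 1) :=
    Finset.sum_le_sum_of_subset fun l hl => by
      rw [mem_range] at hl ⊢
      omega
  refine le_trans (le_of_eq ?_) h3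
  rw [Finset.sum_range_succ, if_neg (by omega), Nat.mul_one,
    show m + m + 1 - m = m + 1 by omega, Nat.min_eq_right hk]
  have h4 : ∑ l ∈ range (m + m + 1), min k (l - m) * (if l ≤ 2 * m then 2 else 1) =
      ∑ l ∈ range (m + m + 1), (l - m) * 2 := by
    refine Finset.sum_congr rfl fun l hl => ?_
    rw [mem_range] at hl
    rw [if_pos (by omega), Nat.min_eq_right (by omega)]
  rw [h4, sum_two]
  ring

lemma ct_level (hl : lev x = 2 * m) (k : ℕ) : ct m k x = vs m k x := by
  unfold ct vs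
  rw [cst_eq, hl, show 2 * m + 1 = m + (m + 1) by ring, Finset.sum_range_add,
    Finset.sum_eq_zero, zero_add]
  · refine Finset.sum_congr rfl fun u _ => ?_
    rw [Nat.add_sub_cancel_left]
  · intro l hl
    rw [mem_range] at hl
    rw [show l - m = 0 by omega, Nat.min_zero, Nat.zero_mul]

lemma ct_full_le (i k : ℕ) (z : P) : ct i k z ≤
    ∑ x, (by classical exact if z ≤ x then lev x - i else 0) := by
  classical
  rw [ct_eq_sum]
  refine Finset.sum_le_sum fun y _ => ?_
  split_ifs
  · exact Nat.min_le_right _ _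
  · exact le_rfl

end General

/-- two elements above an inner cell of a stair, level `2 m + 1` -/
lemma stair_two {t x : P} {Nc : Finset P} {co : P → ℕ × ℕ}
    (C : Chart t (fun c => c.1 ≤ c.2) Nc co) (hx : x ∈ Nc) (h1 : 1 ≤ (co x).1)
    (hl : lev x = 2 * m + 1) {k : ℕ} (hk : m < k) (hk2 : k ≤ 2 * m) : 2 ≤ nab k x := by
  have h2 := C.lev x hx
  have h3 : (co x).1 ≤ (co x).2 := C.mem x hx
  rw [nab_chart C hx]
  have h4 := card_cellsAt_shift (l := k) (p := co x) h3 (by omega)
  omega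

/-- two elements above an inner cell of a rectangle -/
lemma rect_two {t x : P} {Nc : Finset P} {co : P → ℕ × ℕ}
    (C : Chart t (fun _ => True) Nc co) (hx : x ∈ Nc) (h1 : 1 ≤ (co x).1) (h2 : 1 ≤ (co x).2)
    {k : ℕ} (hk : 1 ≤ k) (hk2 : k + 1 ≤ lev x) : 2 ≤ nab k x := by
  have h3 := C.lev x hx
  rw [nab_chart C hx]
  have h4 := card_cellsAt_true (l := k) (p := co x) (by omega)
  omega

/-- the hypotheses -/
structure D1H (m : ℕ) (N : Tops P → Finset P) (b : Tops P → ℕ) (θ : Tops P → P → ℕ) : Prop where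
  odd : m % 2 = 1
  hF : ∀ z x, lev z = 2 * m + 1 → z ∈ r2 (2 * m) N → FoldM m N b θ x → z ⋖ x →
    ∃ x', FoldM m N b θ x' ∧ topOf x ≠ topOf x' ∧ z ⋖ x'
  hQ : ∀ z x, lev z = 2 * m + 1 → QdM m N θ x → ¬ z ⋖ x
  S7 : S7M m N b θ

section Level

variable {z x x' : P}

/-- the elements of level `2 m + 1` of `R3` -/
inductive L1 (m : ℕ) (N : Tops P → Finset P) (b : Tops P → ℕ) (θ : Tops P → P → ℕ) (z : P) : Prop
  | tw (h : z ∈ twY (2 * m) N) (hs : StT m N b θ (topOf z))
  | ff (x x' : P) (hx : FoldM m N b θ x) (hx' : FoldM m N b θ x') (ht : topOf x ≠ topOf x')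
      (hzx : z ⋖ x) (hzx' : z ⋖ x')
  | full (h : ∀ x, z ⋖ x → FullM m N θ x)

lemma D1H.l1 (D : D1H m N b θ) (W : WM r m N b θ) (hz : z ∈ R3 m N b θ) (hl : lev z = 2 * m + 1) :
    L1 m N b θ z := by
  have H := W.gt.H
  have hm := W.ten
  rw [mem_sdiff] at hz
  by_cases hY : z ∈ twY (2 * m) N
  · refine L1.tw hY ?_
    by_contra hs
    exact hz.2 (mem_twR.mpr ⟨hY, hs⟩)
  · have hz2 : z ∈ r2 (2 * m) N := mem_sdiff.mpr ⟨hz.1, hY⟩
    rcases W.class D.S7 hz2 hl with ⟨x, hx, hp⟩ | ⟨x, hx, hp⟩ | ⟨x, x', hx, hx', ht, hzx, hzx'⟩ |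
      ⟨x, x', hx, hx', ht, hzx, hzx'⟩ | ⟨x, x', hx, hx', h1, ht, hzx, hzx'⟩ |
      ⟨x, x', Nc, co, hx, hcx, hx', hcx', hzx, hzx'⟩ | h
    · exfalso
      obtain ⟨x', -, ht, hzx'⟩ := D.hF z x hl hz2 hx hp.1
      rw [hp.2 x' hzx'] at ht
      exact ht rfl
    · exact (D.hQ z x hl hx hp.1).elim
    · exact (D.hQ z x' hl hx' hzx').elim
    · exact L1.ff x x' hx hx' ht hzx hzx'
    · exfalso
      obtain ⟨y, hy, hty, hzy⟩ := D.hF z x hl hz2 hx hzx
      have hne : x ≠ x' := fun h => ht (by rw [h])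
      rcases uc_pair H hzx hzx' hne hzy with h | h
      · rw [h] at hty
        exact hty rfl
      · rw [h] at hy
        have e1 := hy.th
        have e2 := hx'.th
        have e3 := hy.lev
        omega
    · exfalso
      have hFx : FoldM m N b θ x := ⟨Nc, co, hx, hcx⟩
      obtain ⟨y, hy, hty, hzy⟩ := D.hF z x hl hz2 hFx hzx
      have hne : x ≠ x' := by
        rintro rfl
        rw [hcx] at hcx'
        simp only [Prod.mk.injEq] at hcx'
        omega
      have htt := (W.cc_full hx hcx hx' hcx').2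
      rcases uc_pair H hzx hzx' hne hzy with h | h
      · rw [h] at hty
        exact hty rfl
      · rw [h, htt] at hty
        exact hty rfl
    · exact L1.full h

/-- the fold ends in the chosen chart -/
lemma D1H.fold (D : D1H m N b θ) (W : WM r m N b θ) (hx : FoldM m N b θ x) :
    ∃ Nc co, InS2 m N b θ x Nc co ∧ co x = (m, m) := by
  have hm := W.ten
  have hodd := D.odd
  have hl := hx.lev
  have hth := hx.th
  have h5 := hx.nab (u := m - 1) (by omega)
  rw [show m + (m - 1) = 2 * m - 1 by omega] at h5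
  have h6 : nF m (m - 1) = 1 := by
    unfold nF
    omega
  rw [h6] at h5
  rcases W.k2 (W.low hl.le) with ⟨h, -⟩ | ⟨Nc, co, hs, h⟩ | ⟨Nc, co, hs, h⟩ | h
  · have := h.th
    omega
  · refine ⟨Nc, co, h, ?_⟩
    have h2 := h.ins.stair.chart.lev x h.ins.mem
    have h3 : (co x).1 ≤ (co x).2 := h.ins.stair.chart.mem x h.ins.mem
    have h7 := h.ins.fst
    rw [nab_chart h.ins.stair.chart h.ins.mem] at h5
    have h4 := card_cellsAt_shift (l := 2 * m - 1) (p := co x) h3 (by omega)
    exact Prod.ext (by simp only; omega) (by simp only; omega)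
  · exfalso
    have := rect_two h.rect.chart h.mem h.fst h.snd (k := 2 * m - 1) (by omega) (by omega)
    omega
  · have := h.th
    omega

/-- the covers of level `2 m` -/
lemma D1H.cov (D : D1H m N b θ) (W : WM r m N b θ) (hz : z ∈ R3 m N b θ)
    (hl : lev z = 2 * m + 1) (hzx : z ⋖ x) : (FullM m N θ x ∧
      thP m N b θ (topOf x) x = lev x - m) ∨ ∃ Nc co, InS2 m N b θ x Nc co := by
  have H := W.gt.H
  have HN := W.natSys
  have hm := W.ten
  have hlx : lev x = 2 * m := by
    have := (H.covBy_iff.mp hzx).2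
    omega
  rcases W.k2 (W.low hlx.le) with ⟨h, h'⟩ | ⟨Nc, co, hs, h⟩ | ⟨Nc, co, hs, h⟩ | h
  · exact Or.inl ⟨h, h'⟩
  · exact Or.inr ⟨Nc, co, h⟩
  · exfalso
    rcases D.l1 W hz hl with ⟨hY, hs'⟩ | ⟨x1, x2, hx1, hx2, ht, hzx1, hzx2⟩ | h1
    · have h1 := twT_spec (mem_twY.mp hY).2.2
      have h2 : twT N z ⋖ x := (cov_of_up h1.2).mpr hzx
      have h3 := HN.cp _ _ h2.le h1.1
      have h4 := W.twSys.cp z hY
      rw [← h3, h4] at hs
      exact hs hs'
    · have hne : x1 ≠ x2 := fun h => ht (by rw [h])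
      have hfold : FoldM m N b θ x := by
        rcases uc_pair H hzx1 hzx2 hne hzx with h | h
        · rw [h]; exact hx1
        · rw [h]; exact hx2
      obtain ⟨Nc', co', h', -⟩ := D.fold W hfold
      exact hs ⟨_, h'.sc⟩
    · have h2 := (h1 x hzx).th
      have h3 := h.th
      have h4 := h.fst
      have h5 := h.snd
      have h6 := h.rect.chart.lev x h.mem
      omega
  · exact (D.hQ z x hl h hzx).elim

/-- two elements above on the levels `m + 1, ..., 2 m` -/
lemma D1H.two (D : D1H m N b θ) (W : WM r m N b θ) (hz : z ∈ R3 m N b θ) {k : ℕ} (hk : m < k)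
    (hk2 : k ≤ 2 * m) : 2 ≤ nab k z := by
  have H := W.gt.H
  have HN := W.natSys
  have hm := W.ten
  have hzU := (mem_sdiff.mp hz).1
  have hlz := W.lt_lev hzU
  obtain ⟨w, hzw, hlw⟩ := exists_above' (x := z) (j := 2 * m + 1) (by omega)
  have hmono := nab_mono (l := k) hzw
  have htw : ∀ {y : P}, y ∈ twY (2 * m) N → y = w → 2 ≤ nab k (twT N y) → 2 ≤ nab k z := by
    intro y hy hyw h
    subst hyw
    have h1 := twT_spec (mem_twY.mp hy).2.2
    have h2 := W.twSys.lev hy
    have h3 := nab_le_of_up h1.2 (k := k) (by omega)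
    omega
  by_cases hwR : w ∈ R3 m N b θ
  · rcases D.l1 W hwR hlw with ⟨hY, hs⟩ | ⟨x1, x2, hx1, hx2, ht, hzx1, hzx2⟩ | h1
    · obtain ⟨Nc, co, h⟩ := W.twS_stair hY hs
      refine htw hY rfl ?_
      have h2 := W.twSys.lev hY
      exact stair_two h.ins.stair.chart h.ins.mem h.ins.fst (by omega) hk hk2
    · have h2 := W.nab_join hlw hzx1 hzx2 ht hk2
      have h3 := hx1.lev
      have h4 := hx2.lev
      have h5 := one_le_nab (z := x1) (l := k) (by omega)
      have h6 := one_le_nab (z := x2) (l := k) (by omega)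
      omega
    · have hne : w < (topOf w : P) := lt_of_le_of_ne (le_topOf w) (by
        intro h
        have := (topOf w).2
        rw [← h] at this
        omega)
      obtain ⟨x, hwx, -⟩ := Hul.exists_cov hne
      have h2 := (H.covBy_iff.mp hwx).2
      have h3 := (h1 x hwx).two w (mem_sdiff.mp hwR).1 hwx.le k (by omega) (by omega)
      omega
  · by_cases hwU : w ∈ unnat N
    · have hY : w ∈ twR m N b θ := by
        by_contra hcon
        exact hwR (mem_sdiff.mpr ⟨hwU, hcon⟩)
      obtain ⟨Nc, co, h⟩ := W.twR_rect hY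
      have h2 := W.twSys.lev (mem_twR.mp hY).1
      refine htw (mem_twR.mp hY).1 rfl ?_
      exact rect_two h.rect.chart h.mem h.fst h.snd (by omega) (by omega)
    · rcases W.k2 hwU with ⟨h, -⟩ | ⟨Nc, co, hs, h⟩ | ⟨Nc, co, hs, h⟩ | h
      · exact h.two z hzU hzw k (by omega) (by omega)
      · have := stair_two h.ins.stair.chart h.ins.mem h.ins.fst hlw hk hk2
        omega
      · have := rect_two h.rect.chart h.mem h.fst h.snd (k := k) (by omega) (by omega)
        omega
      · have := h.lev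
        omega

end Level

end Pool.Agent.GaussPoset

end

/-! From `Pool.Agent.W_448s8_h94.DaD` -/

section

/-!
Block D1 (MP_448cb3_co, S8): the bounds, no join of two fold ends (`m` odd).
-/

namespace Pool.Agent.GaussPoset

set_option linter.unusedSectionVars false

open Polynomial Finset

universe u

variable {P : Type u} [Fintype P] [PartialOrder P] [DecidableEq P] {r m : ℕ}
  {N : Tops P → Finset P} {b : Tops P → ℕ} {θ : Tops P → P → ℕ}

section Kap

variable {t : P} {Nc : Finset P} {co : P → ℕ × ℕ} {k : ℕ} {x : P}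

lemma kap_chart_aux' (hm : 1 ≤ m) (C : Chart t (fun _ => True) Nc co) (hx : x ∈ Nc)
    (h1 : 1 ≤ (co x).1) (h3 : (co x).1 ≤ (co x).2) (hl : 2 * m + 1 ≤ lev x)
    (hk : ((co x).1 - m) + ((co x).2 - m) + 1 ≤ k) :
    (m + 1) * (m + 1) + 2 ≤ ct m k x + (m + 1) := by
  have hlx := C.lev x hx
  obtain ⟨s, c, hs, hsm, hsc, hs1, hc1⟩ : ∃ s c, 1 ≤ s ∧ s ≤ m ∧ s + c = 2 * m + 1 ∧
      s ≤ (co x).1 ∧ c ≤ (co x).2 := by
    by_cases h4 : (co x).1 ≤ m
    · exact ⟨(co x).1, 2 * m + 1 - (co x).1, h1, h4, by omega, le_rfl, by omega⟩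
    · exact ⟨m, m + 1, hm, le_rfl, by omega, by omega, by omega⟩
  obtain ⟨u, hu, hcu⟩ := C.low x hx (s, c) ⟨hs1, hc1⟩ trivial
  have hxu : x ≤ u := by
    rw [C.le_iff x hx u hu, hcu]
    exact ⟨hs1, hc1⟩
  have hlu : lev u = 2 * m + 1 := by
    rw [C.lev u hu, hcu]
    exact hsc
  have h5 := kap_rect hs hsm hsc
  have h6 := ct_chart C (shift := false) (by simp) hu m (c - m + 1)
  rw [hcu, hlu] at h6
  simp only at h6
  rw [← h6] at h5
  have h7 := ct_mono (i := m) hxu (show c - m + 1 ≤ k by omega)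
  omega

lemma kap_chart' (hm : 1 ≤ m) (C : Chart t (fun _ => True) Nc co) (hx : x ∈ Nc)
    (h1 : 1 ≤ (co x).1) (h2 : 1 ≤ (co x).2) (hl : 2 * m + 1 ≤ lev x)
    (hk : ((co x).1 - m) + ((co x).2 - m) + 1 ≤ k) :
    (m + 1) * (m + 1) + 2 ≤ ct m k x + (m + 1) := by
  rcases le_total (co x).1 (co x).2 with h3 | h3
  · exact kap_chart_aux' hm C hx h1 h3 hl hk
  · refine kap_chart_aux' hm C.swap hx ?_ ?_ hl ?_
    · simpa using h2
    · simpa using h3
    · simp only [swp_fst, swp_snd]
      omega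

lemma kap_chartS' (hm : 6 ≤ m) (C : Chart t (fun c => c.1 ≤ c.2) Nc co) (hx : x ∈ Nc)
    (h1 : 1 ≤ (co x).1) (hl : 2 * m + 1 ≤ lev x)
    (hk : ((co x).1 - 2 * (m / 2)) + ((co x).2 - m) + 1 ≤ k) :
    Kb m ≤ ct m k x + (m + 1) := by
  have hlx := C.lev x hx
  have h3 : (co x).1 ≤ (co x).2 := C.mem x hx
  obtain ⟨s, c, hs, hsm, hsc, hs1, hc1⟩ : ∃ s c, 1 ≤ s ∧ s ≤ m ∧ s + c = 2 * m + 1 ∧
      s ≤ (co x).1 ∧ c ≤ (co x).2 := by
    by_cases h4 : (co x).1 ≤ m
    · exact ⟨(co x).1, 2 * m + 1 - (co x).1, h1, h4, by omega, le_rfl, by omega⟩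
    · exact ⟨m, m + 1, by omega, le_rfl, by omega, by omega, by omega⟩
  obtain ⟨u, hu, hcu⟩ := C.low x hx (s, c) ⟨hs1, hc1⟩ (show s ≤ c by omega)
  have hxu : x ≤ u := by
    rw [C.le_iff x hx u hu, hcu]
    exact ⟨hs1, hc1⟩
  have hlu : lev u = 2 * m + 1 := by
    rw [C.lev u hu, hcu]
    exact hsc
  have h5 := kap_stair hm hs hsm hsc rfl
  have h6 := ct_chart C (shift := true) (by simp) hu m ((s - 2 * (m / 2)) + (c - m) + 1)
  rw [hcu, hlu] at h6
  simp only at h6
  rw [← h6] at h5
  have h7 := ct_mono (i := m) hxu (show (s - 2 * (m / 2)) + (c - m) + 1 ≤ k by omega)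
  omega

/-- the second threshold -/
lemma kap1_chartS {q : ℕ} (hq : 5 ≤ q) (C : Chart t (fun c => c.1 ≤ c.2) Nc co) (hx : x ∈ Nc)
    (h1 : 1 ≤ (co x).1) (hl : 2 * (2 * q + 1) + 1 ≤ lev x)
    (hk : ((co x).1 - (2 * q - 2)) + ((co x).2 - (2 * q + 1)) ≤ k) :
    4 * q * q + 6 * q + 5 ≤ ct (2 * q + 1) k x := by
  have hlx := C.lev x hx
  have h3 : (co x).1 ≤ (co x).2 := C.mem x hx
  obtain ⟨s, c, hs, hsm, hsc, hs1, hc1⟩ : ∃ s c, 1 ≤ s ∧ s ≤ 2 * q + 1 ∧
      s + c = 2 * (2 * q + 1) + 1 ∧ s ≤ (co x).1 ∧ c ≤ (co x).2 := by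
    by_cases h4 : (co x).1 ≤ 2 * q + 1
    · exact ⟨(co x).1, 2 * (2 * q + 1) + 1 - (co x).1, h1, h4, by omega, le_rfl, by omega⟩
    · exact ⟨2 * q + 1, 2 * q + 1 + 1, by omega, le_rfl, by omega, by omega, by omega⟩
  obtain ⟨u, hu, hcu⟩ := C.low x hx (s, c) ⟨hs1, hc1⟩ (show s ≤ c by omega)
  have hxu : x ≤ u := by
    rw [C.le_iff x hx u hu, hcu]
    exact ⟨hs1, hc1⟩
  have hlu : lev u = 2 * (2 * q + 1) + 1 := by
    rw [C.lev u hu, hcu]
    exact hsc
  have h5 := stair1 hq hs hsm hsc rfl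
  have h6 := ct_chart C (shift := true) (by simp) hu (2 * q + 1)
    ((s - (2 * q - 2)) + (c - (2 * q + 1)))
  rw [hcu, hlu] at h6
  simp only at h6
  rw [← h6] at h5
  exact h5.trans (ct_mono (i := 2 * q + 1) hxu (by omega))

end Kap

lemma NF_mono (m : ℕ) {k k' : ℕ} (h : k ≤ k') : NF m k ≤ NF m k' := by
  unfold NF
  refine Finset.sum_le_sum fun u _ => Nat.mul_le_mul_right _ (min_le_min h le_rfl)

section Main

variable {z z' x x' : P}

lemma tA_not (hx : x ∉ unnat N) : tA m N b θ x = θ (topOf x) x := by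
  unfold tA
  rw [thX_not fun h => hx ((mem_twY.mp (mem_twR.mp h).1).1)]

lemma tB_not (hx : x ∉ unnat N) : tB m N b θ x = thP m N b θ (topOf x) x := by
  unfold tB
  rw [thX_not fun h => hx ((mem_twY.mp (mem_twR.mp h).1).1)]

/-- elements of level at least `2 m + 1` outside of `R3` -/
lemma D1H.high (D : D1H m N b θ) (W : WM r m N b θ) (hx : x ∉ R3 m N b θ)
    (hl : 2 * m + 1 ≤ lev x) :
    (FullM m N θ x ∧ tA m N b θ x = lev x - m ∧ tB m N b θ x = lev x - m) ∨
    (Kb m ≤ ct m (tA m N b θ x + 1) x + (m + 1) ∧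
      Kb m ≤ ct m (tA m N b θ x + 1) x + (tA m N b θ x + 1) ∧
      2 * NF m 2 + 2 < ct m (tB m N b θ x + 1) x + (tB m N b θ x + 1) ∧
      tA m N b θ x ≤ lev x - m ∧ tB m N b θ x ≤ lev x - m) := by
  have hm := W.ten
  have hodd := D.odd
  have hKb := Kb_le_sq m (by omega)
  have hNF : 2 * NF m 2 + 2 < (m + 1) * (m + 1) + 2 := by
    obtain ⟨q, hq⟩ : ∃ q, m = 2 * q + 1 := ⟨m / 2, by omega⟩
    rw [hq, NF_odd]
    nlinarith
  by_cases hU : x ∈ unnat N
  · right
    have hY : x ∈ twR m N b θ := by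
      by_contra hcon
      exact hx (mem_sdiff.mpr ⟨hU, hcon⟩)
    obtain ⟨Nc, co, h⟩ := W.twR_rect hY
    have h0 := (mem_twR.mp hY).1
    have h1 := W.twSys.lev h0
    obtain ⟨h3, h4⟩ := W.tw_th h0
    have h5 := W.twR_kap hY
    have h6 := kap_chart' (m := m) (k := θ (topOf (twT N x)) (twT N x) + 1) (by omega)
      h.rect.chart h.mem h.fst h.snd (by omega) (by rw [h.th])
    have h7 := ct_congr_up (i := m) (k := θ (topOf (twT N x)) (twT N x) + 1)
      (fun w => W.twSys.up x h0 w)
    rw [h7] at h5 h6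
    rw [W.tB_twR hY, tA_twR hY]
    exact ⟨by omega, by omega, by omega, by omega, by omega⟩
  · rw [tA_not hU, tB_not hU]
    rcases W.k2 hU with ⟨h, h'⟩ | ⟨Nc, co, hs, h⟩ | ⟨Nc, co, hs, h⟩ | h
    · exact Or.inl ⟨h, h.th, h'⟩
    · right
      have e1 := h.ins.stair.chart.lev x h.ins.mem
      have e2 : (co x).1 ≤ (co x).2 := h.ins.stair.chart.mem x h.ins.mem
      have e3 := h.ins.th
      have e4 := h.thP
      refine ⟨?_, ?_, ?_, ?_, ?_⟩
      · exact kap_chartS' (by omega) h.ins.stair.chart h.ins.mem h.ins.fst hl (by rw [e3])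
      · exact kap_chartS (by omega) h.ins.stair.chart h.ins.mem h.ins.fst hl (by rw [e3])
      · have h5 : 2 * NF m 2 + 2 < ct m (thP m N b θ (topOf x) x + 1) x := by
          obtain ⟨q, hq⟩ : ∃ q, m = 2 * q + 1 := ⟨m / 2, by omega⟩
          subst hq
          have h6 := kap1_chartS (k := thP (2 * q + 1) N b θ (topOf x) x + 1) (q := q) (by omega)
            h.ins.stair.chart h.ins.mem h.ins.fst hl (by omega)
          rw [NF_odd]
          nlinarith
        omega
      · omega
      · omega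
    · right
      have e1 := h.rect.chart.lev x h.mem
      have e3 := h.th
      rw [thP_not hs]
      have h5 := kap_chart (m := m) (k := θ (topOf x) x + 1) (by omega) h.rect.chart h.mem h.fst
        h.snd hl (by rw [e3])
      have h6 := kap_chart' (m := m) (k := θ (topOf x) x + 1) (by omega) h.rect.chart h.mem h.fst
        h.snd hl (by rw [e3])
      exact ⟨by omega, by omega, by omega, by omega, by omega⟩
    · have := h.lev
      omega

/-- the label at an element of level `2 m + 1`, second threshold -/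
lemma D1H.second (D : D1H m N b θ) (W : WM r m N b θ) (hz : z ∈ R3 m N b θ)
    (hl : lev z = 2 * m + 1) (hzx : z ⋖ x) : 2 * NF m 2 + 2 < ct m (tB m N b θ x + 1) z := by
  have H := W.gt.H
  have HN := W.natSys
  have hm := W.ten
  have hodd := D.odd
  have hlx : lev x = 2 * m := by
    have := (H.covBy_iff.mp hzx).2
    omega
  have hU := W.low hlx.le
  rw [tB_not hU]
  rcases D.l1 W hz hl with ⟨hY, hs⟩ | ⟨x1, x2, hx1, hx2, ht, hzx1, hzx2⟩ | h1
  · obtain ⟨Nc, co, h⟩ := W.twS_stair hY hs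
    have h1 := twT_spec (mem_twY.mp hY).2.2
    have h2 : twT N z ⋖ x := (cov_of_up h1.2).mpr hzx
    have h3 : topOf (twT N z) = topOf x := HN.cp _ _ h2.le h1.1
    have C := h.ins.stair.chart
    have hxN : x ∈ Nc := C.up _ h.ins.mem x h2.le
    have h4 := (chart_cov C H h.ins.mem hxN).mp h2
    have h5 := h.eq
    rw [h3] at h5
    have e1 := C.lev x hxN
    have e2 := C.lev _ h.ins.mem
    have e3 : (co x).1 ≤ (co x).2 := C.mem x hxN
    have e4 : (co (twT N z)).1 ≤ (co (twT N z)).2 := C.mem _ h.ins.mem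
    have e5 := h.ins.fst
    have e6 := W.twSys.lev hY
    have h6 : ((co (twT N z)).1 - (2 * (m / 2) - 2)) + ((co (twT N z)).2 - m) ≤
        thP m N b θ (topOf x) x + 1 := by
      rw [h5]
      unfold thSg
      split_ifs with hJ
      · omega
      · rcases h4 with h4 | h4
        · omega
        · omega
    have h7 := ct_congr_up (i := m) (k := thP m N b θ (topOf x) x + 1) h1.2
    rw [← h7]
    obtain ⟨q, hq⟩ : ∃ q, m = 2 * q + 1 := ⟨m / 2, by omega⟩
    subst hq
    have h8 := kap1_chartS (k := thP (2 * q + 1) N b θ (topOf x) x + 1) (q := q) (by omega)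
      C h.ins.mem h.ins.fst (by omega) (by omega)
    rw [NF_odd]
    nlinarith
  · have hne : x1 ≠ x2 := fun h => ht (by rw [h])
    have hfold : FoldM m N b θ x := by
      rcases uc_pair H hzx1 hzx2 hne hzx with h | h
      · rw [h]; exact hx1
      · rw [h]; exact hx2
    obtain ⟨Nc, co, h, hc⟩ := D.fold W hfold
    have h2 : thP m N b θ (topOf x) x = 3 := by
      rw [h.thP, hc]
      simp only
      omega
    rw [h2, ct_top hl (by omega), vs_add (v := x1) (w := x2)
      (fun u hu => W.nab_join hl hzx1 hzx2 ht (by omega)), hx1.vs, hx2.vs]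
    have := NF_mono m (show 2 ≤ 3 + 1 by omega)
    omega
  · have h2 := h1 x hzx
    have h3 : thP m N b θ (topOf x) x = m := by
      rcases D.cov W hz hl hzx with ⟨-, h⟩ | ⟨Nc, co, h⟩
      · rw [h, hlx]
        omega
      · exfalso
        have e1 := h.ins.stair.chart.lev x h.ins.mem
        have e2 : (co x).1 ≤ (co x).2 := h.ins.stair.chart.mem x h.ins.mem
        have e3 := h.ins.th
        have e4 := h2.th
        have e5 := h.ins.fst
        omega
    rw [h3]
    have h4 := ct_sq (k := m + 1) le_rfl hl.ge (fun l h1 h2 => D.two W hz h1 h2)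
    obtain ⟨q, hq⟩ : ∃ q, m = 2 * q + 1 := ⟨m / 2, by omega⟩
    subst hq
    rw [NF_odd]
    nlinarith

/-- the cost on one side -/
lemma D1H.kapA (D : D1H m N b θ) (W : WM r m N b θ) (hz : z ∈ R3 m N b θ) (hx : x ∉ R3 m N b θ)
    (hzx : z ⋖ x) : tA m N b θ x + 1 ≤ lev z - m ∧
      NF m 2 + 2 ≤ (tA m N b θ x + 1) + ct m (tA m N b θ x + 1) x := by
  have H := W.gt.H
  have hm := W.ten
  have hodd := D.odd
  have hlz := W.lt_lev (mem_sdiff.mp hz).1
  have hlx := (H.covBy_iff.mp hzx).2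
  obtain ⟨q, hq⟩ : ∃ q, m = 2 * q + 1 := ⟨m / 2, by omega⟩
  by_cases hl : lev z = 2 * m + 1
  · have hlx' : lev x = 2 * m := by omega
    have hU := W.low hlx'.le
    rw [tA_not hU]
    rcases D.cov W hz hl hzx with ⟨h, -⟩ | ⟨Nc, co, h⟩
    · rw [h.th, hlx']
      refine ⟨by omega, ?_⟩
      have h2 := ct_one (i := m) (j := m) (k := 2 * m - m + 1) (x := x) (by omega) (by omega)
      rw [show 2 * m - m = m by omega] at h2 ⊢
      subst hq
      rw [NF_odd]
      nlinarith
    · have e1 := h.ins.stair.chart.lev x h.ins.mem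
      have e2 : (co x).1 ≤ (co x).2 := h.ins.stair.chart.mem x h.ins.mem
      have e3 := h.ins.th
      have e5 := h.ins.fst
      by_cases hf : (co x).1 = m
      · have hfold : FoldM m N b θ x := ⟨Nc, co, h.ins, Prod.ext hf (by simp only; omega)⟩
        rw [hfold.th, hodd, ct_level hlx', hfold.vs, show (1 + 1 : ℕ) = 2 from rfl]
        omega
      · refine ⟨by omega, ?_⟩
        subst hq
        have h2 := stair3 (q := q) (s := (co x).1) (c := (co x).2) (by omega) e5 (by omega)
          (by omega) rfl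
        have h3 := ct_chart h.ins.stair.chart (shift := true) (by simp) h.ins.mem (2 * q + 1)
          ((co x).2 - (2 * q + 1) + 1)
        rw [hlx'] at h3
        rw [← h3] at h2
        have h4 : θ (topOf x) x = (co x).2 - (2 * q + 1) := by omega
        rw [h4, NF_odd]
        exact h2
  · rcases D.high W hx (by omega) with ⟨h1, h2, h3⟩ | ⟨h1, h2, h3, h4, h5⟩
    · rw [h2]
      refine ⟨by omega, ?_⟩
      have h6 := ct_one (i := m) (j := m + 1) (k := lev x - m + 1) (x := x) (by omega) (by omega)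
      subst hq
      rw [NF_odd]
      nlinarith
    · refine ⟨by omega, ?_⟩
      have h6 : NF m 2 + 2 ≤ Kb m := by
        subst hq
        rw [NF_odd, Kb_odd]
        nlinarith
      omega

/-- disjointness -/
lemma WM.disj (W : WM r m N b θ) (hx : x ∉ R3 m N b θ) (hx' : x' ∉ R3 m N b θ)
    (ht : topOf x ≠ topOf x') : ∀ w, x ≤ w → ¬ x' ≤ w := by
  intro w h1 h2
  have h3 := W.twR_sys.cp' W.natSys.cp x w h1 hx
  have h4 := W.twR_sys.cp' W.natSys.cp x' w h2 hx'
  exact ht (h3.trans h4.symm)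

open Classical in
/-- the joins of two fold ends -/
noncomputable def TF (m : ℕ) (N : Tops P → Finset P) (b : Tops P → ℕ) (θ : Tops P → P → ℕ) :
    Finset P := (R3 m N b θ).filter (fun z => lev z = 2 * m + 1 ∧ ∃ x x', FoldM m N b θ x ∧
      FoldM m N b θ x' ∧ topOf x ≠ topOf x' ∧ z ⋖ x ∧ z ⋖ x')

lemma mem_TF : z ∈ TF m N b θ ↔ z ∈ R3 m N b θ ∧ lev z = 2 * m + 1 ∧ ∃ x x', FoldM m N b θ x ∧
    FoldM m N b θ x' ∧ topOf x ≠ topOf x' ∧ z ⋖ x ∧ z ⋖ x' := by
  classical
  unfold TF
  rw [mem_filter]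

lemma WM.tf_ct (W : WM r m N b θ) (hz : z ∈ TF m N b θ) :
    ct m 2 z = 2 * NF m 2 + 2 := by
  have hm := W.ten
  obtain ⟨-, hl, x, x', hx, hx', ht, hzx, hzx'⟩ := mem_TF.mp hz
  rw [ct_top hl (by omega), vs_add (v := x) (w := x')
    (fun u hu => W.nab_join hl hzx hzx' ht (by omega)), hx.vs, hx'.vs]
  ring

/-- the main estimate -/
theorem D1H.lead (D : D1H m N b θ) (W : WM r m N b θ) :
    (1 + X : ℤ[X]) ^ ((lv P m).card - 1) ∣ Z P m (2 * NF m 2 + 2) -
      ∑ z ∈ (TF m N b θ).filter (fun z => cst m (fun _ => 2) z = 2 * NF m 2 + 2),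
        Lt m (fun _ => 2) z := by
  classical
  have H := W.gt.H
  have HN := W.natSys
  have hm := W.ten
  have hodd := D.odd
  have hlow := W.twR_sys.lower HN.lower
  have hNF : 2 * NF m 2 + 2 < (m + 1) * (m + 1) := by
    obtain ⟨q, hq⟩ : ∃ q, m = 2 * q + 1 := ⟨m / 2, by omega⟩
    rw [hq, NF_odd]
    nlinarith
  have hlevR : ∀ z ∈ R3 m N b θ, 2 * m < lev z := fun z hz => W.lt_lev (mem_sdiff.mp hz).1
  have hcov : ∀ {z x : P}, z ⋖ x → lev z = lev x + 1 := fun h => (H.covBy_iff.mp h).2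
  by_cases hne : Nonempty (Tops P)
  · refine far_two (R := R3 m N b θ) (cp := topOf) (θ := tA m N b θ) (θ' := tB m N b θ)
      (fun _ => 2) (TF m N b θ) H.gradedBelow ?_ ?_ ?_ ?_ ?_ ?_ ?_
    · intro x hx
      have := hlevR x hx
      omega
    · exact fun g hg0 hg => clean_of_not_bad2
        (fun k0 g hg0 h1 h2 => W.clean2 (by omega) k0 g hg0 h1 h2) g hg0 hg
    · intro z hz
      have h1 := ct_sq (k := m + 1) le_rfl (hlevR z hz) (fun l h1 h2 => D.two W hz h1 h2)
      have h2 := ct_full_le m (m + 1) z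
      omega
    · intro z hz x hx hzx
      by_cases hl : lev z = 2 * m + 1
      · exact D.second W hz hl hzx
      · have h0 := hlevR z hz
        have h00 := hcov hzx
        rcases D.high W hx (by omega) with ⟨h1, h2, h3⟩ | ⟨h1, h2, h3, h4, h5⟩
        · have h6 := ct_sq (k := tB m N b θ x + 1) (by omega) (hlevR z hz)
            (fun l h1 h2 => D.two W hz h1 h2)
          omega
        · have h6 := ct_cov (i := m) (k := tB m N b θ x + 1) hzx.1
          rw [Nat.min_eq_left (by omega)] at h6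
          omega
    · intro z hz z' hz' hne x hx hzx x' hx' hzx' ht
      obtain ⟨h1, h2⟩ := D.kapA W hz hx hzx
      obtain ⟨h3, h4⟩ := D.kapA W hz' hx' hzx'
      have h5 := sum_max_ge (i := m) (k := tA m N b θ x + 1) (k' := tA m N b θ x' + 1) hzx.1
        hzx'.1 hne (W.disj hx hx' ht) (fun h => hx' (hlow _ _ h hz)) (fun h => hx (hlow _ _ h hz'))
      rw [Nat.min_eq_left h1, Nat.min_eq_left h3] at h5
      omega
    · intro z hz x hx hzx x' hx' hzx' ht
      have h0 := hlevR z hz
      have h00 := hcov hzx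
      have h01 := hcov hzx'
      by_cases hl : lev z = 2 * m + 1
      · have hU := W.low (x := x) (by omega)
        have hU' := W.low (x := x') (by omega)
        have hnn : x ≠ x' := fun h => ht (by rw [h])
        rcases D.l1 W hz hl with ⟨hY, hs⟩ | ⟨x1, x2, hx1, hx2, ht', hzx1, hzx2⟩ | h1
        · exfalso
          have h1 := twT_spec (mem_twY.mp hY).2.2
          have h2 : twT N z ⋖ x := (cov_of_up h1.2).mpr hzx
          have h3 : twT N z ⋖ x' := (cov_of_up h1.2).mpr hzx'
          have h4 := HN.cp _ _ h2.le h1.1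
          have h5 := HN.cp _ _ h3.le h1.1
          exact ht (h4.symm.trans h5)
        · left
          have hTF : z ∈ TF m N b θ := mem_TF.mpr ⟨hz, hl, x1, x2, hx1, hx2, ht', hzx1, hzx2⟩
          have hne' : x1 ≠ x2 := fun h => ht' (by rw [h])
          have hf : ∀ {y : P}, z ⋖ y → FoldM m N b θ y := by
            intro y hy
            rcases uc_pair H hzx1 hzx2 hne' hy with h | h
            · rw [h]; exact hx1
            · rw [h]; exact hx2
          refine ⟨hTF, ?_, ?_⟩
          · rw [tA_not hU, tA_not hU', (hf hzx).th, (hf hzx').th, hodd]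
            rfl
          · have := W.tf_ct hTF
            exact this.ge
        · right
          rw [tA_not hU, tA_not hU', (h1 x hzx).th, (h1 x' hzx').th]
          have h6 := ct_sq (k := max (lev x - m) (lev x' - m) + 1) (by omega) (hlevR z hz)
            (fun l h1 h2 => D.two W hz h1 h2)
          omega
      · right
        have hK : 2 * NF m 2 + 2 + 2 * (m + 1) < 2 * Kb m := by
          obtain ⟨q, hq⟩ : ∃ q, m = 2 * q + 1 := ⟨m / 2, by omega⟩
          rw [hq, NF_odd, Kb_odd]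
          nlinarith
        have hK2 : 2 * (2 * NF m 2 + 2) + 2 * (m + 1) <
            2 * Kb m + (m + 1) * (m + 1 + 1) + 2 * (m + 2) := by
          obtain ⟨q, hq⟩ : ∃ q, m = 2 * q + 1 := ⟨m / 2, by omega⟩
          rw [hq, NF_odd, Kb_odd]
          nlinarith
        have hd := W.disj hx hx' ht
        have hsum := ct_two (i := m) (k := max (tA m N b θ x) (tA m N b θ x') + 1) hzx.1 hzx'.1 hd
        have hm1 := ct_mono (i := m) (le_refl x)
          (show tA m N b θ x + 1 ≤ max (tA m N b θ x) (tA m N b θ x') + 1 by omega)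
        have hm2 := ct_mono (i := m) (le_refl x')
          (show tA m N b θ x' + 1 ≤ max (tA m N b θ x) (tA m N b θ x') + 1 by omega)
        rcases D.high W hx (by omega) with ⟨h1, h2, h3⟩ | ⟨h1, h2, h3, h4, h5⟩
        · have h7 := ct_one (i := m) (j := m + 1) (k := max (tA m N b θ x) (tA m N b θ x') + 1)
            (x := x) (by omega) (by omega)
          rcases D.high W hx' (by omega) with ⟨g1, g2, g3⟩ | ⟨g1, g2, g3, g4, g5⟩
          · have h6 := ct_sq (k := max (tA m N b θ x) (tA m N b θ x') + 1) (by omega)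
              (hlevR z hz) (fun l h1 h2 => D.two W hz h1 h2)
            omega
          · have h8 : m + 2 ≤ min (max (tA m N b θ x) (tA m N b θ x') + 1) (lev z - m) := by
              rw [Nat.le_min]
              omega
            omega
        · rcases D.high W hx' (by omega) with ⟨g1, g2, g3⟩ | ⟨g1, g2, g3, g4, g5⟩
          · have h7 := ct_one (i := m) (j := m + 1)
              (k := max (tA m N b θ x) (tA m N b θ x') + 1) (x := x') (by omega) (by omega)
            have h8 : m + 2 ≤ min (max (tA m N b θ x) (tA m N b θ x') + 1) (lev z - m) := by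
              rw [Nat.le_min]
              omega
            omega
          · omega
    · intro z hz
      obtain ⟨h1, hl, x, x', hx, hx', ht, hzx, hzx'⟩ := mem_TF.mp hz
      have hU := W.low (x := x) hx.lev.le
      have hU' := W.low (x := x') hx'.lev.le
      refine ⟨h1, by omega, x, fun h => hU (mem_sdiff.mp h).1, hzx, x',
        fun h => hU' (mem_sdiff.mp h).1, hzx', ht, ?_⟩
      rw [tA_not hU, tA_not hU', hx.th, hx'.th, hodd]
      rfl
  · -- no tops: `P` is empty
    have hE : ∀ x : P, False := fun x => hne ⟨topOf x⟩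
    have h1 : (lv P m).card = 0 := by
      rw [Finset.card_eq_zero]
      exact Finset.eq_empty_of_forall_notMem fun x _ => hE x
    rw [h1]
    exact one_dvd _

end Main

/-- `m` odd: no join of two fold ends -/
theorem WM.no_ff_odd (W : WM r m N b θ) (hodd : m % 2 = 1)
    (hF : ∀ z x, lev z = 2 * m + 1 → z ∈ r2 (2 * m) N → FoldM m N b θ x → z ⋖ x →
      ∃ x', FoldM m N b θ x' ∧ topOf x ≠ topOf x' ∧ z ⋖ x')
    (hQ : ∀ z x, lev z = 2 * m + 1 → QdM m N θ x → ¬ z ⋖ x) (S7 : S7M m N b θ) :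
    ∀ z x x', lev z = 2 * m + 1 → FoldM m N b θ x → FoldM m N b θ x' → topOf x ≠ topOf x' →
      z ⋖ x → z ⋖ x' → False := by
  classical
  intro z x x' hl hx hx' ht hzx hzx'
  have H := W.gt.H
  have HN := W.natSys
  have hm := W.ten
  have D : D1H m N b θ := ⟨hodd, hF, hQ, S7⟩
  have hzU : z ∈ unnat N := by
    by_contra h
    have h1 := HN.cp _ _ hzx.le h
    have h2 := HN.cp _ _ hzx'.le h
    exact ht (h1.symm.trans h2)
  have hzY : z ∉ twR m N b θ := by
    intro h
    have h1 := twT_spec (mem_twY.mp (mem_twR.mp h).1).2.2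
    have h2 : twT N z ⋖ x := (cov_of_up h1.2).mpr hzx
    have h3 : twT N z ⋖ x' := (cov_of_up h1.2).mpr hzx'
    have h4 := HN.cp _ _ h2.le h1.1
    have h5 := HN.cp _ _ h3.le h1.1
    exact ht (h4.symm.trans h5)
  have hzT : z ∈ TF m N b θ := mem_TF.mpr ⟨mem_sdiff.mpr ⟨hzU, hzY⟩, hl, x, x', hx, hx', ht, hzx,
    hzx'⟩
  have hdrop : ∀ y ∈ TF m N b θ, nab m y = nab (m + 2) y + 2 ∧
      nst m (fun _ => 2) y = 2 * (nF m 0 + nF m 1) := by
    intro y hy
    obtain ⟨-, hl, x, x', hx, hx', ht, hzx, hzx'⟩ := mem_TF.mp hy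
    have hn : ∀ u, u ≤ m → nab (m + u) y = nab (m + u) x + nab (m + u) x' := by
      intro u hu
      exact W.nab_join hl hzx hzx' ht (by omega)
    have e0 := hn 0 (by omega)
    have e1 := hn 1 (by omega)
    have e2 := hn 2 (by omega)
    have f0 := hx.nab (u := 0) (by omega)
    have f0' := hx'.nab (u := 0) (by omega)
    rw [Nat.add_zero] at e0 f0 f0'
    have hd : nF m 0 = nF m 2 + 1 := by
      have := nF_drop (m := m) (by omega)
      rwa [hh_eq, hodd] at this
    rw [f0, f0'] at e0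
    rw [hx.nab (by omega), hx'.nab (by omega)] at e1 e2
    refine ⟨by omega, ?_⟩
    rw [nst_two (h := fun _ => 2) rfl, e0, e1]
    ring
  have hcard : nab m z ≤ (lv P m).card := by
    unfold nab
    exact Finset.card_filter_le _ _
  have hd0 := (hdrop z hzT).1
  have hlead := D.lead W
  have hZ := dvd_Z W.gt.H.gauss m (2 * NF m 2 + 2)
  have hZ' : (1 + X : ℤ[X]) ^ ((lv P m).card - 1) ∣ Z P m (2 * NF m 2 + 2) :=
    dvd_trans (pow_dvd_pow _ (Nat.sub_le _ _)) hZ
  have hs := sign_sum_of_dvd (h := fun _ => 2) _ hZ' hlead (c0 := (lv P m).card - 2) (by omega) (by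
    intro y hy
    have h1 := (hdrop y (mem_filter.mp hy).1).1
    omega)
  rw [Finset.sum_congr rfl (g := fun _ => (1 : ℤ))] at hs
  · rw [Finset.sum_const, nsmul_eq_mul, mul_one] at hs
    have h5 : ((TF m N b θ).filter (fun z => cst m (fun _ => 2) z = 2 * NF m 2 + 2)).filter
        (fun y => (lv P m).card - 2 + nab m y = (lv P m).card + nab (m + 2) y) = ∅ := by
      rw [← Finset.card_eq_zero]
      exact_mod_cast hs
    have h6 : z ∈ ((TF m N b θ).filter (fun z => cst m (fun _ => 2) z = 2 * NF m 2 + 2)).filter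
        (fun y => (lv P m).card - 2 + nab m y = (lv P m).card + nab (m + 2) y) := by
      rw [mem_filter, mem_filter]
      exact ⟨⟨hzT, W.tf_ct hzT⟩, by omega⟩
    rw [h5] at h6
    exact Finset.notMem_empty _ h6
  · intro y hy
    have h1 := (hdrop y (mem_filter.mp (mem_filter.mp hy).1).1).2
    rw [h1, pow_mul]
    norm_num

end Pool.Agent.GaussPoset

end
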