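import Mathlib
import Pool.Agent.W_448zz_h61.Ns
import Pool.Agent.W_448zz_h61.M037
import Pool.Agent.W_448zz_h61.M044
import Pool.Agent.W_448zz_h61.M074
import Pool.Agent.W_448zz_h61.M119

/-! From `Pool.Agent.W_448s8_h61.DA` -/

section

/-!
The window polynomial of the complete quadric (MP_448cb3_co, S8, block D2).
-/

namespace Pool.Agent.GaussPoset

set_option linter.unusedSectionVars false

open Polynomial Finset

universe u

variable {P : Type u} [Fintype P] [PartialOrder P] [DecidableEq P]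

/-- the window polynomial of a Gaussian poset is divisible by `(1 + X) ^ b` -/
theorem DA_dvd_W_gauss (hG : IsGaussian P) (j : ℕ) :
    (1 + X : Polynomial (PowerSeries ℤ)) ^ (lv P j).card ∣ W P j := by
  classical
  obtain ⟨h, hpos, hU⟩ := hG
  obtain ⟨R, hW, -⟩ := window_fact j hpos hU
  have h1 := (window_main j hpos hU).2.1
  rw [hW, h1]
  refine Dvd.dvd.mul_left (Dvd.dvd.mul_right ?_ _) _
  rw [Polynomial.map_pow, Polynomial.map_add, Polynomial.map_one, Polynomial.map_X]

/-- the complete quadric -/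
theorem dvd_W_Qd (m : ℕ) : (1 + X : Polynomial (PowerSeries ℤ)) ^ 2 ∣ W (Qd m m) m := by
  have h := DA_dvd_W_gauss (isGaussian_Qd m) m
  rwa [Qd.card_lv] at h

end Pool.Agent.GaussPoset

end

/-! From `Pool.Agent.W_448s8_h61.DB` -/

section

/-!
Quadric strips (MP_448cb3_co, S8, block D2).
-/

namespace Pool.Agent.GaussPoset

set_option linter.unusedSectionVars false

open Polynomial Finset

universe u

variable {P : Type u} [Fintype P] [PartialOrder P] [DecidableEq P] {r m : ℕ}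

open Cp

section Quadric

variable {j a : ℕ} {t : Tops P} {lo hi : ℕ → ℕ} {e : ℕ → ℕ → P}

lemma cn_comp (C : Comp j (t : P) lo hi e) {l : ℕ} (hl : l ≤ j) :
    cn l (t : P) = hi l + 1 - lo l := by
  classical
  unfold cn
  exact C.card_row hl

/-- the rows of a quadric -/
structure QRows (j a : ℕ) (lo hi : ℕ → ℕ) : Prop where
  bel : ∀ k, k < a → lo k = 0 ∧ hi k = 0
  at' : lo a = 0 ∧ hi a = 1
  aft : ∀ k, a < k → k ≤ j → lo k = 1 ∧ hi k = 1

/-- consecutive rows are completely joined -/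
lemma QRows.cov (Q : QRows j a lo hi) (C : Comp j (t : P) lo hi e) {l s s' : ℕ} (hl : l < j)
    (h1 : lo (l + 1) ≤ s) (h2 : s ≤ hi (l + 1)) (h3 : lo l ≤ s') (h4 : s' ≤ hi l) :
    e (l + 1) s ⋖ e l s' := by
  rw [C.cov l s s' hl h1 h2 h3 h4]
  rcases Nat.lt_trichotomy l a with h | h | h
  · have e1 := Q.bel l h
    rcases Nat.lt_or_ge (l + 1) a with h' | h'
    · have e2 := Q.bel (l + 1) h'
      omega
    · have e2 := Q.at'
      rw [show a = l + 1 by omega] at e2
      omega
  · have e1 := Q.at'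
    have e2 := Q.aft (l + 1) (by omega) (by omega)
    rw [← h] at e1
    omega
  · have e1 := Q.aft l h hl.le
    have e2 := Q.aft (l + 1) (by omega) (by omega)
    omega

lemma QRows.le (Q : QRows j a lo hi) (C : Comp j (t : P) lo hi e) {l s' : ℕ}
    (h3 : lo l ≤ s') (h4 : s' ≤ hi l) : ∀ d s, l + (d + 1) ≤ j → lo (l + (d + 1)) ≤ s →
    s ≤ hi (l + (d + 1)) → e (l + (d + 1)) s ≤ e l s' := by
  intro d
  induction d with
  | zero =>
    intro s hd h1 h2
    exact (Q.cov C (by omega) h1 h2 h3 h4).le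
  | succ d ih =>
    intro s hd h1 h2
    have h5 := C.lo_le (l + (d + 1)) (by omega)
    have h6 := ih (lo (l + (d + 1))) (by omega) le_rfl h5
    exact (Q.cov C (l := l + (d + 1)) (by omega) h1 h2 le_rfl h5).le.trans h6

/-- elements on different levels of a quadric are comparable -/
lemma QRows.lt_le (Q : QRows j a lo hi) (C : Comp j (t : P) lo hi e) {x y : P}
    (hx : x ≤ (t : P)) (hy : y ≤ (t : P)) (hxj : lev x ≤ j) (hxy : lev y < lev x) : x ≤ y := by
  obtain ⟨s, h1, h2, h3⟩ := C.surj x hx hxj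
  obtain ⟨s', h1', h2', h3'⟩ := C.surj y hy (by omega)
  obtain ⟨d, hd⟩ : ∃ d, lev x = lev y + (d + 1) := ⟨lev x - lev y - 1, by omega⟩
  rw [hd] at h1 h2 h3
  have h4 := Q.le C h1' h2' d s (by omega) h1 h2
  rwa [h3, h3'] at h4

lemma QRows.cn (Q : QRows j a lo hi) (C : Comp j (t : P) lo hi e) {l : ℕ} (hl : l ≤ j) :
    cn l (t : P) = if l = a then 2 else 1 := by
  rw [cn_comp C hl]
  split_ifs with h
  · subst h
    have := Q.at'
    omega
  · rcases Nat.lt_or_ge l a with h' | h'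
    · have := Q.bel l h'
      omega
    · have := Q.aft l (by omega) hl
      omega

lemma QRows.bot (Q : QRows j a lo hi) (C : Comp j (t : P) lo hi e) (haj : a < j) {v x : P}
    (hv : v ≤ (t : P)) (hvj : lev v = j) (hx : x ≤ (t : P)) (hxj : lev x ≤ j) : v ≤ x := by
  rcases Nat.lt_or_ge (lev x) (lev v) with h | h
  · exact Q.lt_le C hv hx hvj.le h
  · have h1 : lev x = j := by omega
    obtain ⟨s, h1', h2, h3⟩ := C.surj v hv hvj.le
    obtain ⟨s', h4, h5, h6⟩ := C.surj x hx hxj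
    have h7 := Q.aft j haj le_rfl
    rw [hvj] at h1' h2 h3
    rw [h1] at h4 h5 h6
    rw [← h3, ← h6, show s = s' by omega]

/-- the number of an element of a quadric -/
lemma QRows.num (Q : QRows j a lo hi) (C : Comp j (t : P) lo hi e) {x : P} (hx : x ≤ (t : P))
    (hxj : lev x ≤ j) : (scoord lo hi e x = 0 ∧ lev x ≤ a) ∨ (scoord lo hi e x = 1 ∧ a ≤ lev x) := by
  obtain ⟨h1, h2, -⟩ := scoord_spec C hx hxj
  rcases Nat.lt_trichotomy (lev x) a with h | h | h
  · have := Q.bel _ h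
    omega
  · have := Q.at'
    rw [← h] at this
    omega
  · have := Q.aft _ h hxj
    omega

/-- a quadric strip is a quadric poset -/
theorem QRows.iso (Q : QRows j a lo hi) (C : Comp j (t : P) lo hi e) (haj : a < j) :
    Nonempty ({x : P // x ∈ lowPart j (t : P)} ≃o Qd a (j - a)) := by
  classical
  have hnum : ∀ x : {x : P // x ∈ lowPart j (t : P)},
      (scoord lo hi e (x : P) = 0 ∧ lev (x : P) ≤ a) ∨
      (scoord lo hi e (x : P) = 1 ∧ a ≤ lev (x : P)) := fun x =>
    Q.num C (mem_lowPart.mp x.2).1 (mem_lowPart.mp x.2).2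
  let f : {x : P // x ∈ lowPart j (t : P)} → Qd a (j - a) := fun x =>
    Qd.mk (lev (x : P) + scoord lo hi e (x : P)) (by
      have := hnum x
      have := (mem_lowPart.mp x.2).2
      omega)
  have hf : ∀ x, (f x).val = lev (x : P) + scoord lo hi e (x : P) := fun x => rfl
  have hle : ∀ x y, f x ≤ f y ↔ x ≤ y := by
    intro x y
    rw [Qd.le_iff, hf, hf]
    have h1 := hnum x
    have h2 := hnum y
    have hx := mem_lowPart.mp x.2
    have hy := mem_lowPart.mp y.2
    constructor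
    · intro h
      rcases Nat.lt_or_ge (lev (y : P)) (lev (x : P)) with h3 | h3
      · exact Q.lt_le C hx.1 hy.1 hx.2 h3
      · have h4 : lev (x : P) = lev (y : P) := by omega
        have h5 : scoord lo hi e (x : P) = scoord lo hi e (y : P) := by omega
        obtain ⟨-, -, e1⟩ := scoord_spec C hx.1 hx.2
        obtain ⟨-, -, e2⟩ := scoord_spec C hy.1 hy.2
        rw [h4, h5, e2] at e1
        exact le_of_eq (Subtype.ext e1.symm)
    · intro h
      by_cases h3 : x = y
      · rw [h3]; exact Or.inl rfl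
      · have h4 : (x : P) < (y : P) := lt_of_le_of_ne h (fun h' => h3 (Subtype.ext h'))
        have h5 := lev_strictAnti h4
        omega
  have hinj : Function.Injective f := by
    intro x y h
    exact le_antisymm ((hle x y).mp h.le) ((hle y x).mp h.ge)
  have hsurj : Function.Surjective f := by
    intro y
    have hy := y.lt
    rcases Nat.lt_or_ge a y.val with h | h
    · obtain ⟨k, hk⟩ : ∃ k, y.val = k + 1 := ⟨y.val - 1, by omega⟩
      have hkj : k ≤ j := by omega
      have hrow : lo k ≤ 1 ∧ 1 ≤ hi k := by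
        rcases Nat.lt_or_ge a k with h' | h'
        · have := Q.aft k h' hkj
          omega
        · have := Q.at'
          rw [show a = k by omega] at this
          omega
      refine ⟨⟨e k 1, mem_lowPart.mpr ⟨C.le_t k 1 hkj hrow.1 hrow.2, by
        rw [C.lev_e k 1 hkj hrow.1 hrow.2]; exact hkj⟩⟩, ?_⟩
      apply Qd.ext
      rw [hf, scoord_e C hkj hrow.1 hrow.2, C.lev_e k 1 hkj hrow.1 hrow.2, hk]
    · have hkj : y.val ≤ j := by omega
      have hrow : lo y.val ≤ 0 ∧ 0 ≤ hi y.val := by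
        rcases Nat.lt_or_ge y.val a with h' | h'
        · have := Q.bel _ h'
          omega
        · have := Q.at'
          rw [show a = y.val by omega] at this
          omega
      refine ⟨⟨e y.val 0, mem_lowPart.mpr ⟨C.le_t _ 0 hkj hrow.1 hrow.2, by
        rw [C.lev_e _ 0 hkj hrow.1 hrow.2]; exact hkj⟩⟩, ?_⟩
      apply Qd.ext
      rw [hf, scoord_e C hkj hrow.1 hrow.2, C.lev_e _ 0 hkj hrow.1 hrow.2, Nat.add_zero]
  exact ⟨{ toEquiv := Equiv.ofBijective f ⟨hinj, hsurj⟩, map_rel_iff' := fun {x y} => hle x y }⟩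

/-- the quadric strips -/
theorem QRows.inf (Q : QRows (2 * m) a lo hi) (C : Comp (2 * m) (t : P) lo hi e)
    (haj : a < 2 * m) : QInf m a t :=
  ⟨fun _ hl => Q.cn C hl, fun _ hv hvl _ hx hxl => Q.bot C haj hv hvl hx hxl, Q.iso C haj⟩

end Quadric

end Pool.Agent.GaussPoset

end

/-! From `Pool.Agent.W_448s8_h61.DC` -/

section

/-!
The type of a strip at window `m`, level `2 m` (MP_448cb3_co, S8, block D2).
-/

namespace Pool.Agent.GaussPoset

set_option linter.unusedSectionVars false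

open Polynomial Finset

universe u

variable {P : Type u} [Fintype P] [PartialOrder P] [DecidableEq P] {r m : ℕ}

open Cp

section One

variable {j a : ℕ} {t : Tops P} {lo hi : ℕ → ℕ} {e : ℕ → ℕ → P}

lemma nab_le_cn' (h : Win.GoodTo P r j) {v : P} (hv : v ≤ (t : P)) (hl : lev v ≤ j) (l : ℕ) :
    nab l v ≤ cn l (t : P) := by
  classical
  unfold nab cn
  refine Finset.card_le_card fun x hx => ?_
  rw [mem_filter] at hx ⊢
  exact ⟨hx.1, Cp.up_le h.H h.good t.2 hv hl hx.2⟩

lemma only_low (h : Win.GoodTo P r j) : ∀ x, x ≤ (t : P) → lev x ≤ j → x ∈ onlyB t := by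
  intro x hx hxi
  rw [mem_onlyB]
  intro s hs hxs
  exact top_eq h.H h.good hxi hs t.2 hxs hx

lemma cell_lev (C : Comp j (t : P) lo hi e) {x : P} (hx : x ≤ (t : P)) (hxj : lev x ≤ j) :
    (ccoord lo hi e x).1 + (ccoord lo hi e x).2 = lev x := by
  obtain ⟨h1, h2, -⟩ := scoord_spec C hx hxj
  have h3 := C.hi_le hxj
  unfold ccoord
  simp only
  omega

/-- the ends below a straight part -/
lemma lInf_late (h : Win.GoodTo P r (2 * m)) (hm : 10 ≤ m) (C : Comp (2 * m) (t : P) lo hi e)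
    (D : Wd.LateD (2 * m) a lo hi) (ha : m + 3 ≤ a) : LInf m t := by
  refine LInf.late ?_ ?_
  · intro l hl
    rw [cn_comp C (by omega)]
    have := D.h2 l (by omega)
    omega
  · intro v hv hvl hv1
    have h1 := D.ends C h.H h.good t.2 (by omega) hv hvl hv1
    have h2 : ∑ k ∈ range (2 * m), ((nab k v : ℤ) - 1) ≤ 5 := by
      unfold Bal.NEnd2 at h1
      rcases h1 with h1 | h1 | h1 | h1 | h1 <;> omega
    have h3 : ((∑ l ∈ range (2 * m), (nab l v - 1) : ℕ) : ℤ) =
        ∑ k ∈ range (2 * m), ((nab k v : ℤ) - 1) := by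
      rw [Nat.cast_sum]
      refine Finset.sum_congr rfl fun k hk => ?_
      rw [mem_range] at hk
      have := one_le_nab (z := v) (l := k) (by omega)
      rw [Nat.cast_sub this, Nat.cast_one]
    omega

lemma lInf_light (h : Win.GoodTo P r (2 * m)) (hm : 10 ≤ m) (C : Comp (2 * m) (t : P) lo hi e)
    (hL : ∀ k, k ≤ 2 * m → lo k = 0 ∧ hi k = 0) : LInf m t := by
  have h0 : ∀ l, l ≤ 2 * m → cn l (t : P) = 1 := by
    intro l hl
    rw [cn_comp C (by omega)]
    have := hL l hl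
    omega
  refine LInf.late (fun l hl => h0 l (by omega)) ?_
  intro v hv hvl _
  rw [Finset.sum_eq_zero]
  · exact Nat.zero_le _
  · intro l hl
    rw [mem_range] at hl
    have h1 := nab_le_cn' (t := t) h hv hvl.le l
    rw [h0 l hl.le] at h1
    omega

/-- what is said about the stairs -/
def StairInfo (m : ℕ) (t : Tops P) (lo hi : ℕ → ℕ) (e : ℕ → ℕ → P) (N : Finset P)
    (θ : P → ℕ) : Prop :=
  ∃ Nc co, StairNat (2 * m) m t Nc co ∧ N = natS Nc co ∧ θ = thS m Nc co ∧ NopT m t ∧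
    ∀ x ∈ lowPart (2 * m) (t : P), co x = ccoord lo hi e x

lemma stair_lo (C : Comp (2 * m) (t : P) lo hi e) (S : StairShape (2 * m) lo hi) : lo m = 0 := by
  by_contra hcon
  have e1 := shape_lo C S.lo (l := m) (by omega) m (by omega)
  have e2 := S.hi (m + m) (by omega)
  have e3 := C.lo_le (m + m) (by omega)
  omega

/-- the type of a stair-like strip -/
theorem tyM_stair (h : Win.GoodTo P r (2 * m)) (hm : 10 ≤ m) (C : Comp (2 * m) (t : P) lo hi e)
    (S : StairShape (2 * m) lo hi) : ∃ N θ, TyM m t (hi m - lo m + 1) N θ ∧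
      StairInfo m t lo hi e N θ := by
  have H := h.H
  have hg := h.good
  obtain ⟨Nc, co, h1, h1'⟩ := exists_stair C H hg H.gradedBelow S (i := m) le_rfl
  have hnop : NopT m t := by
    intro x z hxt hxl hx2 hzx honly
    obtain ⟨j, hj⟩ : ∃ j, 2 * m = j + 1 := ⟨2 * m - 1, by omega⟩
    have h2 := stairShape_pendant (i := j) (hj ▸ h) (by omega) t.2 (hj ▸ C) (hj ▸ S)
      (hxl.trans hj) hxt hx2 hzx honly
    have h3 := cell_lev C (x := x) hxt (by omega)
    omega
  refine ⟨_, _, TyM.stair Nc co h1 rfl rfl ?_ hnop, Nc, co, h1, rfl, rfl, hnop, h1'⟩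
  have e1 := S.hi m (by omega)
  have e2 := stair_lo C S
  omega

/-- the type of a rectangle-like strip -/
theorem tyM_rect (h : Win.GoodTo P r (2 * m)) (hm : 10 ≤ m) (C : Comp (2 * m) (t : P) lo hi e)
    (h1 : lo 1 = 0 ∧ hi 1 = 1) (S : RectShape (2 * m) lo hi) :
    ∃ N θ, TyM m t (hi m - lo m + 1) N θ := by
  have H := h.H
  have hg := h.good
  have hlt : lo m < hi m := by
    have g1 := C.lo_mono (l := 1) (d := m - 1) (by omega)
    have g2 := C.hi_mono (l := 1) (d := m - 1) (by omega)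
    rw [show 1 + (m - 1) = m by omega] at g1 g2
    by_contra hcon
    have g3 := C.lo_le m (by omega)
    have g4 := shape_lo C S.lo (l := m) (by omega) m (by omega)
    have g5 := shape_hi C S.hi (l := m) (by omega) m (by omega)
    have g6 := C.lo_le (m + m) (by omega)
    omega
  obtain ⟨Nc, co, h2, -⟩ := exists_rect C H hg H.gradedBelow S (i := m) le_rfl hlt
  refine ⟨_, _, TyM.rect Nc co h2 rfl rfl ?_⟩
  intro x z hxt hxl hx2 hzx honly
  obtain ⟨j, hj⟩ : ∃ j, 2 * m = j + 1 := ⟨2 * m - 1, by omega⟩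
  exact rectShape_no_pendant (i := j) (hj ▸ h) (by omega) t.2 (hj ▸ C) (hj ▸ S)
    (hxl.trans hj) hxt hx2 hzx honly

/-- the type of a late strip -/
theorem tyM_late (h : Win.GoodTo P r (2 * m)) (hm : 10 ≤ m) (C : Comp (2 * m) (t : P) lo hi e)
    (D : Wd.LateD (2 * m) a lo hi) : ∃ N θ, TyM m t (hi m - lo m + 1) N θ := by
  have hlight : m < a → LInf m t → ∃ N θ, TyM m t (hi m - lo m + 1) N θ := by
    intro hma hL
    have e1 := D.h2 m hma
    exact ⟨_, _, TyM.light rfl rfl (by omega) (only_low h)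
      ⟨e m (lo m), C.le_t m (lo m) (by omega) le_rfl (C.lo_le m (by omega)),
        C.lev_e m (lo m) (by omega) le_rfl (C.lo_le m (by omega))⟩ hL⟩
  by_cases ha : m + 3 ≤ a
  · exact hlight (by omega) (lInf_late h hm C D ha)
  · rcases D.h4 with ⟨h1, h2⟩ | h2
    · have hq := D.quad C h2
      have Q : QRows (2 * m) a lo hi := ⟨D.h2, D.h3, by
        intro k hk hk2
        have := hq (k - a) (by omega) (by omega)
        rwa [show a + (k - a) = k by omega] at this⟩
      have hQ : QInf m a t := Q.inf C (by omega)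
      obtain rfl | h3 : a = m ∨ a = m + 1 ∨ a = m + 2 := by omega
      · have e1 := D.h3
        exact ⟨_, _, TyM.quad rfl rfl (by omega) hQ⟩
      · exact hlight (by omega) (LInf.quad a h3 hQ)
    · exfalso
      have h3 := Wd.late_len_all h2
      rw [Wd.word_length] at h3
      have := D.h1
      have := D.h0
      omega

end One

end Pool.Agent.GaussPoset

end

/-! From `Pool.Agent.W_448s8_h61.DD` -/

section

/-!
From the strips to the context `WM` (MP_448cb3_co, S8, block D2).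
-/

namespace Pool.Agent.GaussPoset

set_option linter.unusedSectionVars false

open Polynomial Finset

universe u

variable {P : Type u} [Fintype P] [PartialOrder P] [DecidableEq P] {r m : ℕ}

open Cp

section One

variable {t : Tops P} {lo hi : ℕ → ℕ} {e : ℕ → ℕ → P}

/-- the type of a strip -/
theorem tyM_shape (h : Win.GoodTo P r (2 * m)) (hm : 10 ≤ m) (C : Comp (2 * m) (t : P) lo hi e)
    (hS : Wd.Shape (2 * m) lo hi) : ∃ N θ, TyM m t (hi m - lo m + 1) N θ ∧
      (StairShape (2 * m) lo hi → StairInfo m t lo hi e N θ) := by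
  by_cases S : StairShape (2 * m) lo hi
  · obtain ⟨N, θ, h1, h2⟩ := tyM_stair h hm C S
    exact ⟨N, θ, h1, fun _ => h2⟩
  · suffices hs : ∃ N θ, TyM m t (hi m - lo m + 1) N θ by
      obtain ⟨N, θ, h1⟩ := hs
      exact ⟨N, θ, h1, fun h2 => absurd h2 S⟩
    rcases hS with h1 | ⟨h1, h2⟩ | ⟨h1, h2⟩ | ⟨h1, h2, h3⟩ | ⟨h1, h2⟩ | ⟨a, h0, h1, h2, h3, hN, h4⟩
    · have e1 := h1 m (by omega)
      exact ⟨_, _, TyM.light rfl rfl (by omega) (only_low h)
        ⟨e m (lo m), C.le_t m (lo m) (by omega) le_rfl (C.lo_le m (by omega)),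
          C.lev_e m (lo m) (by omega) le_rfl (C.lo_le m (by omega))⟩ (lInf_light h hm C h1)⟩
    · exact tyM_rect h hm C h1 h2
    · exact absurd h2 S
    · omega
    · omega
    · exact tyM_late h hm C ⟨h0, h1, h2, h3, h4⟩

/-- the fold end is not junk -/
lemma fold_not_junk {Nc : Finset P} {co : P → ℕ × ℕ}
    (C : Chart (t : P) (fun c => c.1 ≤ c.2) Nc co) {x : P} (hx : x ∈ Nc) (h1 : 1 ≤ (co x).1) :
    x ∉ junk (fun c => c.1 ≤ c.2) Nc co := by
  intro hJ
  obtain ⟨x1, E, hz⟩ := mem_junk.mp hJ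
  have h2 := E.lt x hx h1
  have h3 : co x1 ≤ co x := (C.le_iff x hx x1 E.mem).mp (mem_jset.mp hz).1.le
  have h4 : (co x1).2 ≤ (co x).2 := h3.2
  omega

/-- the position of the fold end -/
theorem fold_pos (h : Win.GoodTo P r (2 * m)) (hm : 10 ≤ m) (C : Comp (2 * m) (t : P) lo hi e)
    (hS : Wd.Shape (2 * m) lo hi) {Nc : Finset P} {co : P → ℕ × ℕ}
    (R : StairNat (2 * m) m t Nc co) {x : P} (hx : x ∈ Nc) (hcx : co x = (m, m)) :
    StairShape (2 * m) lo hi ∧ x = e (2 * m) m := by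
  classical
  have H := h.H
  have hg := h.good
  have hxt : x ≤ (t : P) := R.chart.le_t x hx
  have hxl : lev x = 2 * m := by
    have := R.chart.lev x hx
    rw [hcx] at this
    simp only at this
    omega
  have n2 : nab 2 x = 2 := by
    rw [nab_chart R.chart hx, hcx]
    have : cellsAt (fun c => c.1 ≤ c.2) 2 (m, m) = {0, 1} := by
      ext a
      rw [mem_cellsAt, mem_insert, mem_singleton]
      simp only
      omega
    rw [this]
    rfl
  have n1 : nab (2 * m - 1) x = 1 := by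
    rw [nab_chart R.chart hx, hcx]
    have : cellsAt (fun c => c.1 ≤ c.2) (2 * m - 1) (m, m) = {m - 1} := by
      ext a
      rw [mem_cellsAt, mem_singleton]
      simp only
      omega
    rw [this, card_singleton]
  have c2 := nab_le_cn' (t := t) h hxt hxl.le 2
  rw [n2, cn_comp C (by omega)] at c2
  have c1 : cn 1 (t : P) ≤ 1 := by
    unfold cn
    rw [Finset.card_le_one]
    intro y hy z hz
    rw [mem_filter, mem_lv] at hy hz
    have hyN := R.strip (mem_lowPart.mpr ⟨hy.2, by omega⟩)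
    have hzN := R.strip (mem_lowPart.mpr ⟨hz.2, by omega⟩)
    have g1 := R.chart.lev y hyN
    have g2 := R.chart.lev z hzN
    have g3 : (co y).1 ≤ (co y).2 := R.chart.mem y hyN
    have g4 : (co z).1 ≤ (co z).2 := R.chart.mem z hzN
    exact R.chart.inj y hyN z hzN (Prod.ext (by omega) (by omega))
  rw [cn_comp C (by omega)] at c1
  have S : StairShape (2 * m) lo hi := by
    rcases hS with h1 | ⟨h1, h2⟩ | ⟨h1, h2⟩ | ⟨h1, h2, h3⟩ | ⟨h1, h2⟩ | ⟨a, h0, h1, h2, h3, hN, h4⟩
    · have := h1 2 (by omega)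
      omega
    · omega
    · exact h2
    · omega
    · omega
    · have := h2 2 (by omega)
      omega
  refine ⟨S, ?_⟩
  have hCh := chart_stair C H hg S
  have hxL : x ∈ lowPart (2 * m) (t : P) := mem_lowPart.mpr ⟨hxt, hxl.le⟩
  have hl := hCh.lev x hxL
  have hle : (ccoord lo hi e x).1 ≤ (ccoord lo hi e x).2 := hCh.mem x hxL
  rw [nab_chart hCh hxL] at n1 n2
  have ha1 : 1 ≤ (ccoord lo hi e x).1 := by
    by_contra hcon
    have h1 : cellsAt (fun c => c.1 ≤ c.2) 2 (ccoord lo hi e x) ⊆ {0} := by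
      intro a ha
      rw [mem_cellsAt] at ha
      rw [mem_singleton]
      omega
    have h2 := Finset.card_le_card h1
    rw [n2, card_singleton] at h2
    omega
  have hab : (ccoord lo hi e x).1 = m := by
    by_contra hcon
    have h1 : {(ccoord lo hi e x).1 - 1, (ccoord lo hi e x).1} ⊆
        cellsAt (fun c => c.1 ≤ c.2) (2 * m - 1) (ccoord lo hi e x) := by
      intro a ha
      rw [mem_insert, mem_singleton] at ha
      rw [mem_cellsAt]
      simp only
      omega
    have h2 := Finset.card_le_card h1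
    rw [n1, Finset.card_pair (by omega)] at h2
    omega
  obtain ⟨g1, g2, g3⟩ := scoord_spec C hxt hxl.le
  have g4 : scoord lo hi e x = m := hab
  rw [hxl, g4] at g3
  exact g3.symm

end One

/-- BLOCK D2: the context at window `m` and its fold ends -/
theorem exists_WM (hm : 10 ≤ m) (h : Win.GoodTo P r (2 * m)) (hr : 2 * m + 1 ≤ r)
    {lo hi : Tops P → ℕ → ℕ} {e : Tops P → ℕ → ℕ → P}
    (C : ∀ t : Tops P, Comp (2 * m) (t : P) (lo t) (hi t) (e t))
    (hS : ∀ t, Wd.Shape (2 * m) (lo t) (hi t)) :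
    ∃ N θ, WM r m N (fun t => hi t m - lo t m + 1) θ ∧
      ∀ t x, topOf x = t → (FoldM m N (fun t => hi t m - lo t m + 1) θ x ↔
        StairShape (2 * m) (lo t) (hi t) ∧ x = e t (2 * m) m) := by
  classical
  choose N θ hT hI using fun t => tyM_shape h hm (C t) (hS t)
  refine ⟨N, θ, ⟨h, hr, hm, dvd_W_Qd m, hT, ?_⟩, ?_⟩
  · rw [card_level h.H h.good C (i := m) (by omega)]
  · rintro t x rfl
    constructor
    · rintro ⟨Nc, co, F, hcx⟩
      exact fold_pos h hm (C _) (hS _) F.stair F.mem hcx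
    · rintro ⟨S, hx⟩
      obtain ⟨Nc, co, R, h1, h2, h3, h4⟩ := hI _ S
      have e1 := S.hi (2 * m) le_rfl
      have e2 := stair_lo (C _) S
      have e3 := (C (topOf x)).lo_mono (l := m) (d := m) (by omega)
      rw [show m + m = 2 * m by omega, e2] at e3
      have e4 : hi (topOf x) (2 * m) = m := by omega
      have e5 : ccoord (lo (topOf x)) (hi (topOf x)) (e (topOf x)) x = (m, m) := by
        have g1 := scoord_e (C (topOf x)) (k := 2 * m) (s := m) le_rfl (by omega) (by omega)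
        have g2 := (C (topOf x)).lev_e (2 * m) m le_rfl (by omega) (by omega)
        rw [← hx] at g1 g2
        unfold ccoord
        rw [g1, g2]
        exact Prod.ext rfl (by simp only; omega)
      have e6 : lev x = 2 * m := by
        have g2 := (C (topOf x)).lev_e (2 * m) m le_rfl (by omega) (by omega)
        rwa [← hx] at g2
      have e7 : x ∈ lowPart (2 * m) (topOf x : P) := mem_lowPart.mpr ⟨le_topOf x, e6.le⟩
      have e8 : co x = (m, m) := by rw [h4 x e7, e5]
      have e9 := R.strip e7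
      refine ⟨Nc, co, ⟨R, h1, e9, by rw [e8]; show 1 ≤ m; omega, ?_, h3⟩, e8⟩
      rw [h2]
      unfold thS
      rw [if_neg (fold_not_junk R.chart e9 (by rw [e8]; show 1 ≤ m; omega))]

end Pool.Agent.GaussPoset

end

/-! From `Pool.Agent.W_448s8f_h76.FiA` -/

section

/-!
The natural system at window `i`, level `2 m`, `i ≤ m` (MP_448cb3_co, S8, small `m`): types,
context, kinds of natural elements.
-/

namespace Pool.Agent.GaussPoset.Fi

set_option linter.unusedSectionVars false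

open Polynomial Finset

universe u

variable {P : Type u} [Fintype P] [PartialOrder P] [DecidableEq P] {r i m K : ℕ}
  {N : Tops P → Finset P} {b : Tops P → ℕ} {θ : Tops P → P → ℕ}

/-- the bound below the inner cells of a rectangle -/
def KapR (i m K : ℕ) : Prop := ∀ s ∈ Icc 1 m,
  K ≤ ((s - i) + (2 * m + 1 - s - i) + 1) + ∑ a ∈ range (s + 1),
    rowW false (fun k => min ((s - i) + (2 * m + 1 - s - i) + 1) (k - i)) (2 * m + 1 - s)
      (2 * m + 1) a

/-- the bound below the inner cells of a stair -/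
def KapS (i m K : ℕ) : Prop := ∀ s ∈ Icc 1 m,
  K ≤ ((s - 2 * (i / 2)) + (2 * m + 1 - s - i) + 1) + ∑ a ∈ range (s + 1),
    rowW true (fun k => min ((s - 2 * (i / 2)) + (2 * m + 1 - s - i) + 1) (k - i)) (2 * m + 1 - s)
      (2 * m + 1) a

/-- the types at window `i` -/
inductive Ty (i m : ℕ) (t : Tops P) (b : ℕ) (N : Finset P) (θ : P → ℕ) : Prop
  | light (h1 : N = onlyB t) (h2 : θ = fun x => lev x - i) (h3 : b = 1)
      (h5 : ∀ x, x ≤ (t : P) → lev x ≤ 2 * m → x ∈ onlyB t) (h6 : ∃ x ≤ (t : P), lev x = i)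
  | rect (Nc : Finset P) (co : P → ℕ × ℕ) (h0 : RectNat (2 * m) i t b Nc co)
      (h1 : N = natR Nc co) (h2 : θ = thR i b Nc co) (h3 : NopT m t)
  | stair (Nc : Finset P) (co : P → ℕ × ℕ) (h0 : StairNat (2 * m) i t Nc co)
      (h1 : N = natS Nc co) (h2 : θ = thS i Nc co) (h3 : b = i / 2 + 1) (h4 : NopT m t)
  | heavy (h1 : N = lowPart (2 * m) (t : P)) (h2 : ∃ B, NatTop i t b N θ B) (h3 : NopT m t)

/-- the context -/
structure WI (r i m K : ℕ) (N : Tops P → Finset P) (b : Tops P → ℕ) (θ : Tops P → P → ℕ) :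
    Prop where
  gt : Win.GoodTo P r (2 * m)
  hr : 2 * m + 1 ≤ r
  hi : 4 ≤ i
  him : i ≤ m
  hmi : m ≤ i + 1
  typ : ∀ t, Ty i m t (b t) (N t) (θ t)
  sum_b : ∑ t, b t = (lv P i).card
  kapR : KapR i m K
  kapS : KapS i m K
  K_le : K ≤ (2 * m + 1 - i) ^ 2 + 1

lemma WI.lowUp (W : WI r i m K N b θ) (t : Tops P) :
    ∀ x ∈ lowPart (2 * m) (t : P), ∀ y, x ≤ y → y ∈ lowPart (2 * m) (t : P) := by
  intro x hx y hxy
  rw [mem_lowPart] at hx ⊢
  refine ⟨Cp.up_le W.gt.H W.gt.good t.2 hx.1 hx.2 hxy, ?_⟩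
  rcases eq_or_lt_of_le hxy with h | h
  · rw [← h]; exact hx.2
  · have := lev_strictAnti h; omega

theorem WI.natTop (W : WI r i m K N b θ) (t : Tops P) :
    ∃ B, NatTop i t (b t) (N t) (θ t) B := by
  have h4 := W.hi
  have him := W.him
  have hgr := W.gt.H.gradedBelow
  rcases W.typ t with ⟨h1, h2, h3, h5, h6⟩ | ⟨Nc, co, h0, h1, h2, h3⟩ |
    ⟨Nc, co, h0, h1, h2, h3, h4⟩ | ⟨h1, h2, h3⟩
  · rw [h1, h2, h3]
    exact ⟨_, natTop_light hgr (fun x hx hxi => h5 x hx (by omega)) h6⟩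
  · rw [h1, h2]
    exact ⟨_, h0.natTop hgr (by omega)⟩
  · rw [h1, h2, h3]
    exact ⟨_, h0.natTop hgr (by omega) (by omega)⟩
  · exact h2

lemma WI.natSys (W : WI r i m K N b θ) : NatSys N := by
  choose B hB using W.natTop
  exact natSys_of_tops hB

lemma WI.low (W : WI r i m K N b θ) {x : P} (hx : lev x ≤ 2 * m) : x ∉ unnat N := by
  intro h
  refine mem_unnat.mp h (topOf x) ?_
  rcases W.typ (topOf x) with ⟨h1, h2, h3, h5, h6⟩ | ⟨Nc, co, h0, h1, h2, h3⟩ |
    ⟨Nc, co, h0, h1, h2, h3, h4⟩ | ⟨h1, h2, h3⟩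
  · rw [h1]; exact h5 x (le_topOf x) hx
  · rw [h1]; exact mem_natR.mpr (Or.inl (h0.strip (mem_lowPart.mpr ⟨le_topOf x, hx⟩)))
  · rw [h1]; exact mem_natS.mpr (Or.inl (h0.strip (mem_lowPart.mpr ⟨le_topOf x, hx⟩)))
  · rw [h1]; exact mem_lowPart.mpr ⟨le_topOf x, hx⟩

lemma WI.lt_lev (W : WI r i m K N b θ) {x : P} (hx : x ∈ unnat N) : 2 * m < lev x := by
  by_contra hcon
  exact W.low (not_lt.mp hcon) hx

/-- natural elements with full threshold -/
structure Full (i m : ℕ) (N : Tops P → Finset P) (θ : Tops P → P → ℕ) (x : P) : Prop where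
  th : θ (topOf x) x = lev x - i
  two : ∀ z ∈ unnat N, z ≤ x → ∀ k, 2 ≤ k → k ≤ lev x → 2 ≤ nab k z
  tw : ∀ z ∈ unnat N, ¬ ∀ w, x < w ↔ z < w

/-- inner cells of rectangle-like components -/
structure InR (i m : ℕ) (N : Tops P → Finset P) (b : Tops P → ℕ) (θ : Tops P → P → ℕ) (x : P)
    (Nc : Finset P) (co : P → ℕ × ℕ) : Prop where
  rect : RectNat (2 * m) i (topOf x) (b (topOf x)) Nc co
  nat : N (topOf x) = natR Nc co
  mem : x ∈ Nc
  fst : 1 ≤ (co x).1
  snd : 1 ≤ (co x).2
  th : θ (topOf x) x = ((co x).1 - i) + ((co x).2 - i)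
  nop : NopT m (topOf x)

/-- inner cells of stair-like components -/
structure InS (i m : ℕ) (N : Tops P → Finset P) (b : Tops P → ℕ) (θ : Tops P → P → ℕ) (x : P)
    (Nc : Finset P) (co : P → ℕ × ℕ) : Prop where
  stair : StairNat (2 * m) i (topOf x) Nc co
  nat : N (topOf x) = natS Nc co
  thf : θ (topOf x) = thS i Nc co
  bb : b (topOf x) = i / 2 + 1
  mem : x ∈ Nc
  fst : 1 ≤ (co x).1
  th : θ (topOf x) x = ((co x).1 - 2 * (i / 2)) + ((co x).2 - i)
  nop : NopT m (topOf x)

/-- elements of heavy components -/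
structure Hv (m : ℕ) (N : Tops P → Finset P) (x : P) : Prop where
  nat : N (topOf x) = lowPart (2 * m) (topOf x : P)
  lev : Pool.Agent.GaussPoset.lev x ≤ 2 * m
  nop : NopT m (topOf x)

/-- the kinds of natural elements -/
theorem WI.cases (W : WI r i m K N b θ) {x : P} (hx : x ∉ unnat N) : Full i m N θ x ∨
    (∃ Nc co, InR i m N b θ x Nc co) ∨ (∃ Nc co, InS i m N b θ x Nc co) ∨ Hv m N x := by
  have H := W.gt.H
  have HN := W.natSys
  have hxt : x ∈ N (topOf x) := HN.mem_iff.mpr ⟨hx, rfl⟩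
  have h4 := W.hi
  have him := W.him
  have hT := W.typ (topOf x)
  generalize ht : topOf x = t at hxt hT
  rcases hT with ⟨h1, h2, h3, h5, h6⟩ | ⟨Nc, co, h0, h1, h2, h3⟩ |
    ⟨Nc, co, h0, h1, h2, h3, h4⟩ | ⟨h1, h2, h3⟩
  · left
    have hs : ∀ z ∈ unnat N, ∃ s : P, lev s = 0 ∧ z ≤ s ∧ s ≠ t := by
      intro z hz
      have h7 : z ∉ onlyB t := by
        rw [← h1]
        exact mem_unnat.mp hz t
      rw [mem_onlyB] at h7
      push Not at h7
      exact h7
    refine ⟨by rw [ht, h2], ?_, ?_⟩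
    · intro z hz hzx k _ hk
      obtain ⟨s, hs1, hs2, hs3⟩ := hs z hz
      exact two_le_nab_join HN H.gradedBelow hxt hzx hs1 hs3 hs2 hk
    · intro z hz h
      obtain ⟨s, hs1, hs2, hs3⟩ := hs z hz
      have h7 := W.lt_lev hz
      have h8 : z < s := lt_of_le_of_ne hs2 (by rintro rfl; omega)
      exact hs3 (HN.top_eq hxt hs1 ((h s).mpr h8).le)
  · -- rectangles
    by_cases hJ : x ∈ junk (fun _ => True) Nc co ∨ x ∈ junk (fun _ => True) Nc (swp co)
    · left
      refine ⟨?_, ?_, ?_⟩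
      · rw [ht, h2]
        unfold thR
        rw [if_pos hJ]
      · intro z hz hzx k hk hkx
        refine rect_two_le_nab H h0 h1 hz hzx ?_ (by omega) hkx
        rcases hJ with h | h
        · exact Or.inl h
        · exact Or.inr (Or.inl h)
      · intro z hz h
        refine mem_unnat.mp hz t ?_
        rw [h1, mem_natR]
        rcases hJ with h' | h'
        · exact Or.inr (Or.inl (junk_twin h' h))
        · exact Or.inr (Or.inr (junk_twin h' h))
    · have hxN : x ∈ Nc := by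
        rw [h1, mem_natR] at hxt
        rcases hxt with h | h | h
        · exact h
        · exact absurd (Or.inl h) hJ
        · exact absurd (Or.inr h) hJ
      have hl := h0.chart.lev x hxN
      have hb1 := h0.b_two
      have hb2 := h0.b_le
      have hrow : b t = i + 1 ∨ (co x).1 ≤ b t - 1 := by
        rcases h0.rows with h | h
        · exact Or.inl h
        · exact Or.inr (h x hxN)
      by_cases h7 : (co x).1 = 0 ∨ (co x).2 = 0
      · left
        refine ⟨?_, ?_, ?_⟩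
        · rw [ht, h2]
          unfold thR
          rw [if_neg hJ]
          omega
        · intro z hz hzx k hk hkx
          exact rect_two_le_nab H h0 h1 hz hzx (Or.inr (Or.inr ⟨hxN, h7⟩)) (by omega) hkx
        · intro z hz h
          have h8 := W.lt_lev hz
          rw [← lev_eq_of_up h] at h8
          rcases h7 with h7 | h7
          · obtain ⟨u, hu, hcu⟩ := h0.chart.low x hxN (0, (co x).2 - 1)
              ⟨Nat.zero_le _, Nat.sub_le _ _⟩ trivial
            refine straight_twin H h0 h1 hxN hu ?_ ?_ ?_ hz h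
            · rw [hcu]
              exact Or.inr ⟨by simp only; omega, by simp only; omega⟩
            · intro y hy hp
              rw [hcu]
              rcases hp with hp | hp
              · omega
              · exact Prod.ext (by simp only; omega) (by simp only; omega)
            · rw [hcu]
              exact Or.inl rfl
          · obtain ⟨u, hu, hcu⟩ := h0.chart.low x hxN ((co x).1 - 1, 0)
              ⟨Nat.sub_le _ _, Nat.zero_le _⟩ trivial
            refine straight_twin H h0 h1 hxN hu ?_ ?_ ?_ hz h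
            · rw [hcu]
              exact Or.inl ⟨by simp only; omega, by simp only; omega⟩
            · intro y hy hp
              rw [hcu]
              rcases hp with hp | hp
              · exact Prod.ext (by simp only; omega) (by simp only; omega)
              · omega
            · rw [hcu]
              exact Or.inr rfl
      · right; left
        refine ⟨Nc, co, ?_, ?_, hxN, by omega, by omega, ?_, ?_⟩
        · rw [ht]; exact h0
        · rw [ht]; exact h1
        · rw [ht, h2]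
          unfold thR
          rw [if_neg hJ]
          omega
        · rw [ht]; exact h3
  · -- stairs
    by_cases hJ : x ∈ junk (fun c => c.1 ≤ c.2) Nc co
    · left
      refine ⟨?_, ?_, ?_⟩
      · rw [ht, h2]
        unfold thS
        rw [if_pos hJ]
      · intro z hz hzx k hk hkx
        exact stair_two_le_nab H h0 h1 hz hzx (Or.inl hJ) hk hkx
      · intro z hz h
        refine mem_unnat.mp hz t ?_
        rw [h1, mem_natS]
        exact Or.inr (junk_twin hJ h)
    · have hxN : x ∈ Nc := by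
        rw [h1, mem_natS] at hxt
        rcases hxt with h | h
        · exact h
        · exact absurd h hJ
      have hl := h0.chart.lev x hxN
      by_cases h7 : (co x).1 = 0
      · left
        refine ⟨?_, ?_, ?_⟩
        · rw [ht, h2]
          unfold thS
          rw [if_neg hJ]
          omega
        · intro z hz hzx k hk hkx
          exact stair_two_le_nab H h0 h1 hz hzx (Or.inr ⟨hxN, h7⟩) hk hkx
        · intro z hz h
          have h8 := W.lt_lev hz
          rw [← lev_eq_of_up h] at h8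
          obtain ⟨u, hu, hcu⟩ := h0.chart.low x hxN (0, (co x).2 - 1)
            ⟨Nat.zero_le _, Nat.sub_le _ _⟩ (Nat.zero_le _)
          refine straight_twinS H h0 (by omega) h1 hxN hu ?_ ?_ ?_ hz h
          · rw [hcu]
            exact Or.inr ⟨by simp only; omega, by simp only; omega⟩
          · intro y hy hp
            rw [hcu]
            rcases hp with hp | hp
            · omega
            · exact Prod.ext (by simp only; omega) (by simp only; omega)
          · rw [hcu]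
      · right; right; left
        refine ⟨Nc, co, ?_, ?_, ?_, ?_, hxN, by omega, ?_, ?_⟩
        · rw [ht]; exact h0
        · rw [ht]; exact h1
        · rw [ht]; exact h2
        · rw [ht]; exact h3
        · rw [ht, h2]
          unfold thS
          rw [if_neg hJ]
        · rw [ht]; exact h4
  · right; right; right
    rw [h1, mem_lowPart] at hxt
    exact ⟨by rw [ht]; exact h1, hxt.2, by rw [ht]; exact h3⟩

end Pool.Agent.GaussPoset.Fi

end

/-! From `Pool.Agent.W_448s8f_h76.FiB` -/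

section

/-!
Twins, the bound `K`, the boundary elements of level at least `2 m + 2` (MP_448cb3_co, S8,
small `m`).
-/

namespace Pool.Agent.GaussPoset.Fi

set_option linter.unusedSectionVars false

open Polynomial Finset

universe u

variable {P : Type u} [Fintype P] [PartialOrder P] [DecidableEq P] {r i m K : ℕ}
  {N : Tops P → Finset P} {b : Tops P → ℕ} {θ : Tops P → P → ℕ}

/-- the system of twins -/
theorem WI.twSys (W : WI r i m K N b θ) : TwSys (unnat N) (twY (2 * m) N) topOf (twT N) where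
  sub := fun x hx => (mem_twY.mp hx).1
  nat := fun x hx => (twT_spec (mem_twY.mp hx).2.2).1
  up := fun x hx => (twT_spec (mem_twY.mp hx).2.2).2
  inj := by
    intro x hx x' hx' h
    have h1 := mem_twY.mp hx
    have h2 := mem_twY.mp hx'
    have h3 := twT_spec h1.2.2
    have h4 := twT_spec h2.2.2
    by_contra hne
    have h5 : x < (topOf x : P) := lt_of_le_of_ne (le_topOf x) (by
      intro h
      have := (topOf x).2
      rw [← h] at this
      omega)
    obtain ⟨u, hu, -⟩ := Hul.exists_cov h5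
    have hu' : twT N x ⋖ u := (cov_of_up h3.2).mpr hu
    have hu'' : x' ⋖ u := by
      rw [h] at hu'
      exact (cov_of_up h4.2).mp hu'
    refine Win.dc_three W.gt.H hu hu'' hu' hne ?_ ?_
    · intro h6
      exact h3.1 (h6 ▸ h1.1)
    · intro h6
      rw [h] at h6
      exact h4.1 (h6 ▸ h2.1)
  anti := by
    intro x hx y hy h
    have h1 := mem_twY.mp hx
    have h2 := mem_twY.mp hy
    have := lev_strictAnti h
    omega
  cp := by
    intro x hx
    have h1 := mem_twY.mp hx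
    have h3 := twT_spec h1.2.2
    have h5 : x < (topOf x : P) := lt_of_le_of_ne (le_topOf x) (by
      intro h
      have := (topOf x).2
      rw [← h] at this
      omega)
    have h6 : twT N x ∈ N (topOf (twT N x)) := W.natSys.mem_iff.mpr ⟨h3.1, rfl⟩
    exact (Subtype.ext (W.natSys.top_eq h6 (topOf x).2 ((h3.2 _).mpr h5).le)).symm

section Kap

variable {t : P} {Nc : Finset P} {co : P → ℕ × ℕ} {k k' : ℕ} {x y z : P}

lemma kap_chart_aux (hK : KapR i m K) (hm : 1 ≤ m) (C : Chart t (fun _ => True) Nc co)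
    (hx : x ∈ Nc) (h1 : 1 ≤ (co x).1) (h3 : (co x).1 ≤ (co x).2) (hl : 2 * m + 1 ≤ lev x)
    (hk : ((co x).1 - i) + ((co x).2 - i) + 1 ≤ k) : K ≤ ct i k x + k := by
  have hlx := C.lev x hx
  obtain ⟨s, hs, hsm, hs1, hc1⟩ : ∃ s, 1 ≤ s ∧ s ≤ m ∧
      s ≤ (co x).1 ∧ 2 * m + 1 - s ≤ (co x).2 := by
    by_cases h4 : (co x).1 ≤ m
    · exact ⟨(co x).1, h1, h4, le_rfl, by omega⟩
    · exact ⟨m, hm, le_rfl, by omega, by omega⟩
  obtain ⟨u, hu, hcu⟩ := C.low x hx (s, 2 * m + 1 - s) ⟨hs1, hc1⟩ trivial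
  have hxu : x ≤ u := by
    rw [C.le_iff x hx u hu, hcu]
    exact ⟨hs1, hc1⟩
  have hlu : lev u = 2 * m + 1 := by
    rw [C.lev u hu, hcu]
    simp only
    omega
  have h5 := hK s (mem_Icc.mpr ⟨hs, hsm⟩)
  have h6 := ct_chart C (shift := false) (by simp) hu i ((s - i) + (2 * m + 1 - s - i) + 1)
  rw [hcu, hlu] at h6
  simp only at h6
  rw [← h6] at h5
  have h7 := ct_mono (i := i) hxu (show (s - i) + (2 * m + 1 - s - i) + 1 ≤ k by omega)
  omega

lemma kap_chart (hK : KapR i m K) (hm : 1 ≤ m) (C : Chart t (fun _ => True) Nc co) (hx : x ∈ Nc)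
    (h1 : 1 ≤ (co x).1) (h2 : 1 ≤ (co x).2) (hl : 2 * m + 1 ≤ lev x)
    (hk : ((co x).1 - i) + ((co x).2 - i) + 1 ≤ k) : K ≤ ct i k x + k := by
  rcases le_total (co x).1 (co x).2 with h3 | h3
  · exact kap_chart_aux hK hm C hx h1 h3 hl hk
  · refine kap_chart_aux hK hm C.swap hx ?_ ?_ hl ?_
    · simpa using h2
    · simpa using h3
    · simp only [swp_fst, swp_snd]
      omega

lemma kap_chartS (hK : KapS i m K) (hm : 1 ≤ m) (C : Chart t (fun c => c.1 ≤ c.2) Nc co)
    (hx : x ∈ Nc) (h1 : 1 ≤ (co x).1) (hl : 2 * m + 1 ≤ lev x)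
    (hk : ((co x).1 - 2 * (i / 2)) + ((co x).2 - i) + 1 ≤ k) : K ≤ ct i k x + k := by
  have hlx := C.lev x hx
  have h3 : (co x).1 ≤ (co x).2 := C.mem x hx
  obtain ⟨s, hs, hsm, hs1, hc1⟩ : ∃ s, 1 ≤ s ∧ s ≤ m ∧
      s ≤ (co x).1 ∧ 2 * m + 1 - s ≤ (co x).2 := by
    by_cases h4 : (co x).1 ≤ m
    · exact ⟨(co x).1, h1, h4, le_rfl, by omega⟩
    · exact ⟨m, by omega, le_rfl, by omega, by omega⟩
  obtain ⟨u, hu, hcu⟩ := C.low x hx (s, 2 * m + 1 - s) ⟨hs1, hc1⟩
    (show s ≤ 2 * m + 1 - s by omega)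
  have hxu : x ≤ u := by
    rw [C.le_iff x hx u hu, hcu]
    exact ⟨hs1, hc1⟩
  have hlu : lev u = 2 * m + 1 := by
    rw [C.lev u hu, hcu]
    simp only
    omega
  have h5 := hK s (mem_Icc.mpr ⟨hs, hsm⟩)
  have h6 := ct_chart C (shift := true) (by simp) hu i
    ((s - 2 * (i / 2)) + (2 * m + 1 - s - i) + 1)
  rw [hcu, hlu] at h6
  simp only at h6
  rw [← h6] at h5
  have h7 := ct_mono (i := i) hxu (show (s - 2 * (i / 2)) + (2 * m + 1 - s - i) + 1 ≤ k by omega)
  omega

end Kap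

/-- natural elements of level at least `2 m + 1` -/
theorem WI.kap (W : WI r i m K N b θ) {x : P} (hx : x ∉ unnat N) (hl : 2 * m + 1 ≤ lev x) :
    Full i m N θ x ∨ K ≤ ct i (θ (topOf x) x + 1) x + (θ (topOf x) x + 1) := by
  have h4 := W.hi
  have him := W.him
  rcases W.cases hx with h | ⟨Nc, co, h⟩ | ⟨Nc, co, h⟩ | h
  · exact Or.inl h
  · right
    refine kap_chart W.kapR (by omega) h.rect.chart h.mem h.fst h.snd hl ?_
    rw [h.th]
  · right
    refine kap_chartS W.kapS (by omega) h.stair.chart h.mem h.fst hl ?_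
    rw [h.th]
  · have := h.lev
    omega

lemma WI.tw_inner (W : WI r i m K N b θ) {x : P} (hx : x ∈ twY (2 * m) N) :
    (∃ Nc co, InR i m N b θ (twT N x) Nc co) ∨ ∃ Nc co, InS i m N b θ (twT N x) Nc co := by
  have h1 := mem_twY.mp hx
  have h3 := twT_spec h1.2.2
  rcases W.cases h3.1 with h | h | h | h
  · exact absurd h3.2 (h.tw x h1.1)
  · exact Or.inl h
  · exact Or.inr h
  · have h4 := h.lev
    have h5 := W.twSys.lev hx
    omega

lemma WI.tw_kap (W : WI r i m K N b θ) {x : P} (hx : x ∈ twY (2 * m) N) :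
    K ≤ ct i (θ (topOf (twT N x)) (twT N x) + 1) (twT N x) +
      (θ (topOf (twT N x)) (twT N x) + 1) := by
  have h1 := mem_twY.mp hx
  have h3 := twT_spec h1.2.2
  have h5 := W.twSys.lev hx
  rcases W.kap h3.1 (by omega) with h | h
  · exact absurd h3.2 (h.tw x h1.1)
  · exact h

lemma WI.tw_th (W : WI r i m K N b θ) {x : P} (hx : x ∈ twY (2 * m) N) :
    1 ≤ θ (topOf (twT N x)) (twT N x) ∧ θ (topOf (twT N x)) (twT N x) ≤ 2 * m - i := by
  have h1 := mem_twY.mp hx
  have h5 := W.twSys.lev hx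
  have h4 := W.hi
  have him := W.him
  rcases W.tw_inner hx with ⟨Nc, co, h⟩ | ⟨Nc, co, h⟩
  · have h6 := h.rect.chart.lev _ h.mem
    have h7 := h.fst
    have h8 := h.snd
    have h9 := h.th
    omega
  · have h6 := h.stair.chart.lev _ h.mem
    have h7 := h.fst
    have h8 : (co (twT N x)).1 ≤ (co (twT N x)).2 := h.stair.chart.mem _ h.mem
    have h9 := h.th
    omega

/-- the twins are harmless below energy `K - 1` -/
theorem WI.twinPair (W : WI r i m K N b θ) {x : P} (hx : x ∈ twY (2 * m) N) :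
    TwinPair i (thX (twY (2 * m) N) (twT N) (fun x => θ (topOf x) x)) (K - 1) (twT N x) x := by
  classical
  have T := W.twSys
  have h1 := mem_twY.mp hx
  have him := W.him
  have hlev : lev (twT N x) = 2 * m + 1 := by rw [T.lev hx]; exact h1.2.1
  have hnY : twT N x ∉ twY (2 * m) N := fun h => T.nat x hx (mem_twY.mp h).1
  obtain ⟨h3, h4⟩ := W.tw_th hx
  have h5 := W.tw_kap hx
  have hth : thX (twY (2 * m) N) (twT N) (fun x => θ (topOf x) x) (twT N x) =
      θ (topOf (twT N x)) (twT N x) := thX_not hnY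
  have hth' : thX (twY (2 * m) N) (twT N) (fun x => θ (topOf x) x) x =
      θ (topOf (twT N x)) (twT N x) := thX_of hx
  refine ⟨?_, T.up x hx, ?_, ?_, ?_, ?_, ?_⟩
  · intro h
    exact T.nat x hx (h.symm ▸ h1.1)
  · rw [hth]; exact h3
  · rw [hth, hth']
  · rw [hth, hlev]; omega
  · rw [hth]
    have h6 : ct i (θ (topOf (twT N x)) (twT N x) + 1) (twT N x) ≤
        ∑ y, (if twT N x ≤ y then lev y - i else 0) := by
      rw [ct_eq_sum]
      refine Finset.sum_le_sum fun y _ => ?_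
      split_ifs
      · exact Nat.min_le_right _ _
      · exact le_rfl
    omega
  · rw [hth]
    have h6 := ct_succ i (θ (topOf (twT N x)) (twT N x) + 1) (twT N x)
    rw [hlev, Nat.min_eq_left (by omega)] at h6
    omega

/-- truncated data at window `i` -/
theorem WI.farT (W : WI r i m K N b θ) : FarT P i (r2 (2 * m) N) (lv P i).card
    (h2 (2 * m) N θ) (K - 1) := by
  choose B hB using W.natTop
  have h := farT_of_tops W.gt.H.gradedBelow hB W.twSys (K - 1) (fun x hx => W.twinPair hx)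
  rw [W.sum_b] at h
  exact h

lemma WI.sq_ge (W : WI r i m K N b θ) {l : ℕ} (hl : 2 * m + 2 - i ≤ l) : K ≤ l ^ 2 := by
  have h0 := W.K_le
  have him := W.him
  obtain ⟨a, ha⟩ : ∃ a, 2 * m + 1 - i = a := ⟨_, rfl⟩
  rw [ha] at h0
  have h1 : (a + 1) ^ 2 ≤ l ^ 2 := Nat.pow_le_pow_left (by omega) 2
  nlinarith

/-- the boundary: level `2 m + 1` or large cost -/
theorem WI.bd (W : WI r i m K N b θ) {z : P} (hz : z ∈ bdR (r2 (2 * m) N)) :
    lev z = 2 * m + 1 ∨ K ≤ cst i (h2 (2 * m) N θ) z := by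
  classical
  have H := W.gt.H
  have h4 := W.hi
  have him := W.him
  have T := W.twSys
  have hzR : z ∈ unnat N := (mem_sdiff.mp (mem_filter.mp hz).1).1
  have hlz := W.lt_lev hzR
  by_cases hl : lev z = 2 * m + 1
  · exact Or.inl hl
  right
  obtain ⟨u, hu, hzu, hh⟩ := hcan_spec
    (θ := thX (twY (2 * m) N) (twT N) (fun x => θ (topOf x) x)) hz
  have hlu := (H.covBy_iff.mp hzu).2
  have hc : ∀ k, h2 (2 * m) N θ z = k → cst i (h2 (2 * m) N θ) z = ct i k z := by
    intro k hk
    unfold ct cst ez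
    rw [hk]
  have key : ∀ (u' : P) (k : ℕ), ct i k u = ct i k u' → K ≤ ct i k u' + k → k ≤ lev z - i →
      h2 (2 * m) N θ z = k → K ≤ cst i (h2 (2 * m) N θ) z := by
    intro u' k h3 h4 h5 h6
    have h7 := ct_cov (i := i) (k := k) hzu.1
    rw [Nat.min_eq_left h5] at h7
    rw [hc k h6]
    omega
  by_cases huY : u ∈ twY (2 * m) N
  · rw [thX_of huY] at hh
    have h3 := W.tw_th huY
    exact key (twT N u) _ (ct_congr_up fun w => (T.up u huY w).symm) (W.tw_kap huY) (by omega) hh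
  · have huR : u ∉ unnat N := fun h => hu (mem_sdiff.mpr ⟨h, huY⟩)
    rw [thX_not huY] at hh
    rcases W.kap huR (by omega) with hF | hI
    · rw [hF.th] at hh
      have h3 := sq_le_cst (i := i) (h := h2 (2 * m) N θ) (z := z) (by omega)
        (by show h2 (2 * m) N θ z = _; rw [show h2 (2 * m) N θ z = _ from hh]; omega) (by
          intro k hk hk2
          exact hF.two z hzR hzu.le k (by omega) (by omega))
      exact (W.sq_ge (by omega)).trans h3
    · have h5 := W.farT.le_lev z hz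
      exact key u _ rfl hI (by rw [show h2 (2 * m) N θ z = _ from hh] at h5; exact h5) hh

end Pool.Agent.GaussPoset.Fi

end

/-! From `Pool.Agent.W_448s8f_h76.FiC` -/

section

/-!
The context with profiles; fold ends; the elements of level `2 m + 1` below a fold end
(MP_448cb3_co, S8, small `m`).
-/

namespace Pool.Agent.GaussPoset.Fi

set_option linter.unusedSectionVars false

open Polynomial Finset

universe u

variable {P : Type u} [Fintype P] [PartialOrder P] [DecidableEq P] {r i m K : ℕ}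
  {N : Tops P → Finset P} {b : Tops P → ℕ} {θ : Tops P → P → ℕ}

/-- the profile of an element of level `2 m`: extras by depth -/
def Prof (m : ℕ) (v : P) (p : ℕ → ℕ) : Prop := ∀ d, d ≤ 2 * m → nab (2 * m - d) v = 1 + p d

/-- profiles given by lists -/
def gD (p : List ℕ) (d : ℕ) : ℕ := p.getD d 0

/-- the profile of a fold end -/
def pF (m d : ℕ) : ℕ := (2 * m - d) / 2 - (m - d)

/-- one extra at the depth 7 -/
def q7 : List ℕ := [0, 0, 0, 0, 0, 0, 0, 1]

/-- the end `(5;25)` -/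
def p5 : List ℕ := [0, 0, 0, 1, 1, 1, 1, 1]

/-- the profiles of the ends with full thresholds at window `i` -/
def PL (i m : ℕ) : List (List ℕ) := [[], [0, 0, 1, 1, 1], [0, 0, 1, 1, 1, 1, 1], p5] ++
  (List.range' 1 (2 * m - i - 1)).map (fun d => List.replicate d 0 ++ [1])

/-- the profiles of the heavy ends (window `m` only) -/
def HL (i m : ℕ) : List (List ℕ) := if i = m then (List.replicate m 0 ++ [1]) ::
  (if m = 8 then [[0, 0, 0, 0, 1, 1, 1, 1, 2, 1, 1, 1, 1]] else []) else []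

/-- the data of a star end: first pole `p` at the window `2 m - 7` -/
structure TD (m : ℕ) (t : Tops P) (v : P) (p : ℕ) : Prop where
  le : v ≤ (t : P)
  lev : Pool.Agent.GaussPoset.lev v = 2 * m
  pos : 1 ≤ p
  p_le : p ≤ 8
  cn : ∀ l, l < 2 * m - 7 → cn l (t : P) = 1
  cl : ∀ L : Finset P, L ⊆ lowPart (2 * m) (t : P) → (∀ x ∈ L, ∀ y, x ≤ y → y ∈ L) → v ∈ L →
    ∀ n < p, (1 + X : ℤ[X]) ^ 2 ∣ Z {x // x ∈ L} (2 * m - 7) n
  ld : ∀ L : Finset P, (∀ x, x ∈ L ↔ v ≤ x) →
    (1 + X : ℤ[X]) ^ 2 ∣ Z {x // x ∈ L} (2 * m - 7) p + X ^ (2 * m - 7 + 2) * (1 + X)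
  ot : ∀ x ≤ (t : P), Pool.Agent.GaussPoset.lev x = 2 * m → x ≠ v →
    ∀ S : Finset P, (∀ w, w ∈ S ↔ x ≤ w ∧ ¬ v ≤ w) → p ≤ 1 + S.card ∧
      ((Win.uc x).card = 1 → p < 1 + S.card)
  out : ∀ x ≤ (t : P), Pool.Agent.GaussPoset.lev x ≤ 2 * m → ¬ v ≤ x →
    2 * m - 7 < Pool.Agent.GaussPoset.lev x

/-- the types of the components at window `i` -/
inductive Tc (i m : ℕ) (t : Tops P) (b : ℕ) (N : Finset P) (θ : P → ℕ) : Prop
  | light (h1 : N = onlyB t) (h2 : θ = fun x => lev x - i) (h3 : b = 1)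
      (h5 : ∀ x, x ≤ (t : P) → lev x ≤ 2 * m → x ∈ onlyB t) (h6 : ∃ x ≤ (t : P), lev x = i)
      (h7 : ∀ v, v ≤ (t : P) → lev v = 2 * m → (Win.uc v).card = 1 → ∃ p ∈ PL i m,
        Prof m v (gD p) ∧ (gD p 7 = 1 → (p = q7 ∧ TD m t v 8) ∨ (p = p5 ∧ TD m t v 4)))
      (h8 : cn 2 (t : P) ≤ 1)
  | rect (Nc : Finset P) (co : P → ℕ × ℕ) (h0 : RectNat (2 * m) i t b Nc co)
      (h1 : N = natR Nc co) (h2 : θ = thR i b Nc co) (h3 : NopT m t)
  | stair (Nc : Finset P) (co : P → ℕ × ℕ) (h0 : StairNat (2 * m) i t Nc co)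
      (h1 : N = natS Nc co) (h2 : θ = thS i Nc co) (h3 : b = i / 2 + 1) (h4 : NopT m t)
  | heavy (h1 : N = lowPart (2 * m) (t : P)) (h2 : ∀ x, lev x ≤ 2 * m → θ x = 0)
      (h3 : ∃ B, NatTop i t b N θ B)
      (h4 : ∀ v w, v ≤ (t : P) → w ≤ (t : P) → lev v = 2 * m → lev w = 2 * m → v = w)
      (h5 : ∀ v, v ≤ (t : P) → lev v = 2 * m → (Win.uc v).card = 1 ∧ ∃ p ∈ HL i m,
        Prof m v (gD p))
      (h8 : cn 2 (t : P) ≤ 1)

lemma Tc.ty {t : Tops P} {b : ℕ} {N : Finset P} {θ : P → ℕ} (h : Tc i m t b N θ) :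
    Ty i m t b N θ := by
  rcases h with ⟨h1, h2, h3, h5, h6, h7, h8⟩ | ⟨Nc, co, h0, h1, h2, h3⟩ |
    ⟨Nc, co, h0, h1, h2, h3, h4⟩ | ⟨h1, h2, h3, h4, h5, h8⟩
  · exact Ty.light h1 h2 h3 h5 h6
  · exact Ty.rect Nc co h0 h1 h2 h3
  · exact Ty.stair Nc co h0 h1 h2 h3 h4
  · refine Ty.heavy h1 h3 fun x z hx hl h2 => ?_
    have := (h5 x hx hl).1
    omega

/-- the context with profiles -/
structure WC (r i m K : ℕ) (N : Tops P → Finset P) (b : Tops P → ℕ) (θ : Tops P → P → ℕ) :
    Prop where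
  gt : Win.GoodTo P r (2 * m)
  hr : 2 * m + 1 ≤ r
  hi : 4 ≤ i
  him : i ≤ m
  hmi : m ≤ i + 1
  tc : ∀ t, Tc i m t (b t) (N t) (θ t)
  sum_b : ∑ t, b t = (lv P i).card
  kapR : KapR i m K
  kapS : KapS i m K
  K_le : K ≤ (2 * m + 1 - i) ^ 2 + 1

theorem WC.wi (W : WC r i m K N b θ) : WI r i m K N b θ :=
  ⟨W.gt, W.hr, W.hi, W.him, W.hmi, fun t => (W.tc t).ty, W.sum_b, W.kapR, W.kapS, W.K_le⟩

/-- fold ends -/
def Fd (m : ℕ) (x : P) : Prop := lev x = 2 * m ∧ (Win.uc x).card = 1 ∧ nab 2 x = 2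

/-- the type of the component of a fold end -/
structure FI (i m : ℕ) (N : Tops P → Finset P) (b : Tops P → ℕ) (θ : Tops P → P → ℕ) (x : P)
    (Nc : Finset P) (co : P → ℕ × ℕ) : Prop where
  stair : StairNat (2 * m) i (topOf x) Nc co
  nat : N (topOf x) = natS Nc co
  th : θ (topOf x) = thS i Nc co
  b : b (topOf x) = i / 2 + 1
  mem : x ∈ Nc
  cell : co x = (m, m)
  nop : NopT m (topOf x)

lemma WI.nab_le_cn (W : WI r i m K N b θ) {v : P} (hl : lev v ≤ 2 * m) (l : ℕ) :
    nab l v ≤ cn l (topOf v : P) := by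
  classical
  unfold nab cn
  refine Finset.card_le_card fun x hx => ?_
  rw [mem_filter] at hx ⊢
  refine ⟨hx.1, ?_⟩
  rw [W.natSys.cp v x hx.2 (W.low hl)]
  exact le_topOf x

theorem WC.fold_typ (W : WC r i m K N b θ) {x : P} (hx : Fd m x) :
    ∃ Nc co, FI i m N b θ x Nc co := by
  have H := W.gt.H
  have h4 := W.hi
  have him := W.him
  obtain ⟨hl, hu, h2⟩ := hx
  have hc := W.wi.nab_le_cn hl.le 2
  have hxl : x ∈ lowPart (2 * m) (topOf x : P) := mem_lowPart.mpr ⟨le_topOf x, hl.le⟩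
  rcases W.tc (topOf x) with ⟨g1, g2, g3, g5, g6, g7, g8⟩ | ⟨Nc, co, g0, g1, g2, g3⟩ |
    ⟨Nc, co, g0, g1, g2, g3, g4⟩ | ⟨g1, g2, g3, g4, g5, g8⟩
  · omega
  · exfalso
    have hxN := g0.strip hxl
    have hcl := g0.chart.lev x hxN
    have h0 : (co x).1 = 0 ∨ (co x).2 = 0 := by
      by_contra hcon
      have := chart_inner_uc g0.chart H hxN (by omega) (by omega)
      omega
    rw [nab_chart g0.chart hxN] at h2
    have := card_cellsAt_true (l := 2) (p := co x) (by omega)
    omega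
  · have hxN := g0.strip hxl
    have hcl := g0.chart.lev x hxN
    have hS : (co x).1 ≤ (co x).2 := g0.chart.mem x hxN
    have h5 : (co x).1 ≠ 0 := by
      intro h5
      rw [nab_chart g0.chart hxN] at h2
      have := card_cellsAt_shift (l := 2) (p := co x) hS (by omega)
      omega
    have h6 : (co x).1 = (co x).2 := by
      by_contra hcon
      have := chartS_inner_uc g0.chart H hxN (by omega) (by omega)
      omega
    exact ⟨Nc, co, g0, g1, g2, g3, hxN, Prod.ext (by simp only; omega) (by simp only; omega), g4⟩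
  · omega

lemma WC.fold_th (W : WC r i m K N b θ) {x : P} (hx : Fd m x) :
    θ (topOf x) x = (m - 2 * (i / 2)) + (m - i) := by
  obtain ⟨Nc, co, h⟩ := W.fold_typ hx
  have him := W.him
  have h4 := W.hi
  rw [h.th]
  unfold thS
  rw [if_neg (fold_not_junk h.stair.chart h.mem (by rw [h.cell]; show 1 ≤ m; omega)), h.cell]

lemma WC.fold_prof (W : WC r i m K N b θ) {x : P} (hx : Fd m x) : Prof m x (pF m) := by
  obtain ⟨Nc, co, h⟩ := W.fold_typ hx
  intro d hd
  rw [nab_chart h.stair.chart h.mem, h.cell]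
  have := card_cellsAt_shift (l := 2 * m - d) (p := (m, m)) le_rfl (by simp only; omega)
  simp only at this
  unfold pF
  omega

/-- one fold end per top -/
lemma WC.fold_unique (W : WC r i m K N b θ) {x x' : P} (hx : Fd m x) (hx' : Fd m x')
    (ht : topOf x = topOf x') : x = x' := by
  have him := W.him
  have h4 := W.hi
  have H := W.gt.H
  obtain ⟨Nc, co, h⟩ := W.fold_typ hx
  have h2 : x' ∈ Nc := h.stair.strip (mem_lowPart.mpr ⟨by rw [ht]; exact le_topOf x', hx'.1.le⟩)
  have h3 := h.stair.chart.lev x' h2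
  have hS : (co x').1 ≤ (co x').2 := h.stair.chart.mem x' h2
  have h5 : (co x').1 ≠ 0 := by
    intro h5
    have h6 := hx'.2.2
    rw [nab_chart h.stair.chart h2] at h6
    have := card_cellsAt_shift (l := 2) (p := co x') hS (by have := hx'.1; omega)
    omega
  have h6 : (co x').1 = (co x').2 := by
    by_contra hcon
    have := chartS_inner_uc h.stair.chart H h2 (by omega) (by omega)
    have := hx'.2.1
    omega
  have h7 := hx'.1
  refine h.stair.chart.inj x h.mem x' h2 ?_
  rw [h.cell]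
  exact Prod.ext (by simp only; omega) (by simp only; omega)

/-- natural elements below a fold end -/
lemma WC.nat_child (W : WC r i m K N b θ) {f : P} {Nc : Finset P} {co : P → ℕ × ℕ}
    (T : FI i m N b θ f Nc co) {y : P} (hy : y ∉ unnat N) (hyf : y ⋖ f) :
    ∃ x' ∈ Nc, co x' = (m - 1, m + 1) ∧ y ⋖ x' := by
  have H := W.gt.H
  have HN := W.wi.natSys
  have him := W.him
  have h4 := W.hi
  have h1 : y ∈ N (topOf y) := HN.mem_iff.mpr ⟨hy, rfl⟩
  rw [HN.cp y f hyf.1.le hy, T.nat, mem_natS] at h1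
  have hyN : y ∈ Nc := by
    rcases h1 with h | h
    · exact h
    · exfalso
      obtain ⟨x1, hE, hj⟩ := mem_junk.mp h
      have hj2 := (mem_jset.mp hj).2
      have e3 := hE.lt f T.mem (by rw [T.cell]; show 1 ≤ m; omega)
      rw [T.cell] at e3
      simp only at e3
      rcases hj2 f hyf.1.le with h3 | h3
      · have e1 := (T.stair.chart.le_iff f T.mem x1 hE.mem).mp h3
        rw [T.cell] at e1
        have e2 := e1.2
        simp only at e2
        omega
      · have e1 := (T.stair.chart.le_iff x1 hE.mem f T.mem).mp h3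
        rw [T.cell] at e1
        have e2 := e1.1
        have h0 := hE.fst
        simp only at e2
        omega
  have hS : (co y).1 ≤ (co y).2 := T.stair.chart.mem y hyN
  have hp := (chart_cov T.stair.chart H hyN T.mem).mp hyf
  rw [T.cell] at hp
  have hcy : co y = (m, m + 1) := by
    rcases hp with ⟨p1, p2⟩ | ⟨p1, p2⟩
    · simp only at p1 p2
      omega
    · simp only at p1 p2
      exact Prod.ext (by simp only; omega) (by simp only; omega)
  obtain ⟨x', hx', hcx'⟩ := T.stair.chart.low y hyN (m - 1, m + 1) (by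
    rw [hcy]
    exact ⟨Nat.sub_le _ _, le_rfl⟩) (show m - 1 ≤ m + 1 by omega)
  refine ⟨x', hx', hcx', ?_⟩
  rw [chart_cov T.stair.chart H hyN hx', hcx', hcy]
  exact Or.inl ⟨by simp only; omega, rfl⟩

/-- natural elements and twins below a fold end -/
theorem WC.fold_child (W : WC r i m K N b θ) {z f : P} (hf : Fd m f) (hzf : z ⋖ f)
    (hz : z ∉ r2 (2 * m) N) : ∃ Nc co x', FI i m N b θ f Nc co ∧ x' ∈ Nc ∧
      co x' = (m - 1, m + 1) ∧ z ⋖ x' := by
  obtain ⟨Nc, co, T⟩ := W.fold_typ hf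
  have W' := W.wi
  by_cases hY : z ∈ twY (2 * m) N
  · obtain ⟨x', h2, h3, h4⟩ := W.nat_child T (W'.twSys.nat z hY) ((W'.twSys.cov hY).mpr hzf)
    exact ⟨Nc, co, x', T, h2, h3, (W'.twSys.cov hY).mp h4⟩
  · obtain ⟨x', h2, h3, h4⟩ := W.nat_child T (fun h => hz (mem_sdiff.mpr ⟨h, hY⟩)) hzf
    exact ⟨Nc, co, x', T, h2, h3, h4⟩

/-- pendants below a fold end are in `r2` -/
theorem WC.pend_r2 (W : WC r i m K N b θ) {z f : P} (hf : Fd m f) (hp : Pend z f) :
    z ∈ r2 (2 * m) N := by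
  have him := W.him
  have h4 := W.hi
  by_contra hz
  obtain ⟨Nc, co, x', T, h1, h2, h3⟩ := W.fold_child hf hp.1 hz
  have h5 := hp.2 x' h3
  rw [h5, T.cell] at h2
  simp only [Prod.mk.injEq] at h2
  omega

/-- joins below different tops are in `r2` -/
theorem WC.join_r2 (W : WC r i m K N b θ) {z x x' : P} (ht : topOf x ≠ topOf x') (hzx : z ⋖ x)
    (hzx' : z ⋖ x') : z ∈ r2 (2 * m) N := by
  have HN := W.wi.natSys
  have W' := W.wi
  refine mem_sdiff.mpr ⟨?_, fun hY => ?_⟩
  · by_contra h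
    exact ht ((HN.cp z x hzx.1.le h).symm.trans (HN.cp z x' hzx'.1.le h))
  · have h := W'.twSys.nat z hY
    exact ht ((HN.cp _ x ((W'.twSys.cov hY).mpr hzx).1.le h).symm.trans
      (HN.cp _ x' ((W'.twSys.cov hY).mpr hzx').1.le h))

/-- joins of a fold end with a single-up end of the same component are in `r2` -/
theorem WC.cc_r2 (W : WC r i m K N b θ) {z f x' : P} (hf : Fd m f) (hu : (Win.uc x').card = 1)
    (hne : f ≠ x') (hzx : z ⋖ f) (hzx' : z ⋖ x') : z ∈ r2 (2 * m) N := by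
  have H := W.gt.H
  have him := W.him
  have h4 := W.hi
  by_contra hz
  obtain ⟨Nc, co, y, T, h1, h2, h3⟩ := W.fold_child hf hzx hz
  have hyf : y ≠ f := by
    rintro rfl
    rw [T.cell] at h2
    simp only [Prod.mk.injEq] at h2
    omega
  have hyx : y = x' := (uc_pair H hzx hzx' hne h3).resolve_left hyf
  subst hyx
  have := chartS_inner_uc T.stair.chart H h1 (by rw [h2]; show 1 ≤ m - 1; omega)
    (by rw [h2]; show m - 1 < m + 1; omega)
  omega

end Pool.Agent.GaussPoset.Fi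

end

/-! From `Pool.Agent.W_448s8f_h76.FiE` -/

section

/-!
The ladder with abstract blockers (MP_448cb3_co, S8, small `m`).
-/

namespace Pool.Agent.GaussPoset.Fi

set_option linter.unusedSectionVars false

open Polynomial Finset

universe u

variable {P : Type u} [Fintype P] [PartialOrder P] [DecidableEq P] {r i m K N0 : ℕ}
  {N : Tops P → Finset P} {b : Tops P → ℕ} {θ : Tops P → P → ℕ}

/-- first pole of a family of blockers, energies below `N1` -/
structure FzT (i m : ℕ) (N : Tops P → Finset P) (θ : Tops P → P → ℕ) (z : P) (E : ℕ) (σ : ℤ)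
    (N1 : ℕ) : Prop where
  clean : ∀ n, n < E → n < N1 →
    (1 + X : ℤ[X]) ^ (lv P i).card ∣ ZF i (h2 (2 * m) N θ) (fam m N z) n
  lead : E < N1 → ∃ k : P → ℕ,
    (1 + X : ℤ[X]) ^ (lv P i).card ∣ ZF i (h2 (2 * m) N θ) (fam m N z) E -
    ∑ y ∈ fam m N z, (X : ℤ[X]) ^ (k y) * (1 + X) ^ ((lv P i).card - 1) ∧
    ∀ y ∈ fam m N z, (-1 : ℤ) ^ (k y) = σ

/-- the data of a ladder -/
structure Lad (i m K : ℕ) (N : Tops P → Finset P) (θ : Tops P → P → ℕ) (N0 : ℕ) (Bk : P → Prop)
    (pl : P → ℕ) (s1 s2 : ℕ → ℤ) : Prop where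
  N0_le : N0 + 1 ≤ K
  same : ∀ z y, Bk z → (∀ w, z < w ↔ y < w) → Bk y ∧ pl y = pl z
  lev : ∀ z ∈ bdR (r2 (2 * m) N), Bk z → Pool.Agent.GaussPoset.lev z = 2 * m + 1
  ne1 : ∀ n, s1 n ≠ 0
  ne2 : ∀ n, s2 n ≠ 0
  fz : ∀ z ∈ bdR (r2 (2 * m) N), Bk z → FzT i m N θ z (pl z) (s1 (pl z)) N0
  U : ∀ z ∈ bdR (r2 (2 * m) N), Bk z → ∀ z' ∈ bdR (r2 (2 * m) N), Bk z' → z' ∉ fam m N z →
    ∀ n, n < N0 → n ≤ pl z → n ≤ pl z' → n < Uu i (h2 (2 * m) N θ) z z'
  row : ∀ z ∈ bdR (r2 (2 * m) N), ¬ Bk z → Pool.Agent.GaussPoset.lev z = 2 * m + 1 →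
    N0 ≤ cst i (h2 (2 * m) N θ) z ∨
    (nab i z = nab (i + h2 (2 * m) N θ z) z + 1 ∧
      (-1 : ℤ) ^ (below P i + nst i (h2 (2 * m) N θ) z) = s1 (cst i (h2 (2 * m) N θ) z)) ∨
    (nab i z = nab (i + h2 (2 * m) N θ z) z + 2 ∧
      (-1 : ℤ) ^ (below P i + nst i (h2 (2 * m) N θ) z) = s2 (cst i (h2 (2 * m) N θ) z))

lemma Uu_add {h : P → ℕ} {z z' : P} (hne : ¬ z' ≤ z) (h1 : h z ≤ lev z - i) :
    cst i h z' + h z ≤ Uu i h z z' := by
  classical
  have h2 : cst i h z' + h z = ∑ x : P, (ez i h z' x + if x = z then h z else 0) := by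
    rw [Finset.sum_add_distrib, Finset.sum_ite_eq' univ z, if_pos (mem_univ z)]
    rfl
  rw [h2]
  unfold Uu
  refine Finset.sum_le_sum fun x _ => ?_
  by_cases hx : x = z
  · subst hx
    rw [if_pos rfl]
    refine le_trans ?_ (le_max_left _ _)
    unfold ez
    rw [if_neg hne, if_pos le_rfl, Nat.zero_add]
    omega
  · rw [if_neg hx, Nat.add_zero]
    exact le_max_right _ _

variable {Bk : P → Prop} {pl : P → ℕ} {s1 s2 : ℕ → ℤ}

/-- the step at the energy `n` -/
theorem WI.stepG (W : WI r i m K N b θ) (L : Lad i m K N θ N0 Bk pl s1 s2) {n : ℕ} (hn : n < N0)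
    (hB : ∀ z ∈ bdR (r2 (2 * m) N), Bk z → n ≤ pl z)
    (hC : ∀ z ∈ bdR (r2 (2 * m) N), ¬ Bk z → n ≤ cst i (h2 (2 * m) N θ) z) :
    (∀ z ∈ bdR (r2 (2 * m) N), Bk z → pl z ≠ n) ∧
      ∀ z ∈ bdR (r2 (2 * m) N), ¬ Bk z → cst i (h2 (2 * m) N θ) z ≠ n := by
  classical
  have hK := L.N0_le
  have him := W.him
  have hi4 := W.hi
  set Bs := (bdR (r2 (2 * m) N)).filter Bk with hBs
  have hBs1 : ∀ z ∈ Bs, z ∈ bdR (r2 (2 * m) N) ∧ Bk z := fun z hz => mem_filter.mp hz
  have hcl : ∀ z ∈ Bs, ∀ y ∈ fam m N z, y ∈ Bs := by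
    intro z hz y hy
    have h2 := mem_fam.mp hy
    exact mem_filter.mpr ⟨h2.1, (L.same z y (hBs1 z hz).2 h2.2).1⟩
  have hplf : ∀ z ∈ Bs, ∀ y ∈ fam m N z, pl y = pl z := by
    intro z hz y hy
    exact (L.same z y (hBs1 z hz).2 (mem_fam.mp hy).2).2
  have F := W.farT
  have hP := F.plusF (n := n) (by omega) (Bs.image (fam m N)) (by
    intro A hA z hz
    obtain ⟨y, hy, rfl⟩ := mem_image.mp hA
    exact (mem_fam.mp hz).1) (by
    intro z hz hzA
    refine hC z hz fun hb => hzA (fam m N z) ?_ (self_mem_fam hz)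
    exact mem_image_of_mem _ (mem_filter.mpr ⟨hz, hb⟩)) (by
    intro A hA z hz z' hz' hne
    obtain ⟨y, hy, rfl⟩ := mem_image.mp hA
    have h2 := fam_eq hz
    rw [← h2] at hne
    have h3 := hBs1 z (hcl y hy z hz)
    have hlz := L.lev z h3.1 h3.2
    by_cases hb : Bk z'
    · exact L.U z h3.1 h3.2 z' hz' hb hne n hn (hB z h3.1 h3.2) (hB z' hz' hb)
    · have h4 := hC z' hz' hb
      have h5 := F.one_le z h3.1
      have h6 := F.le_lev z h3.1
      rcases W.bd hz' with h7 | h7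
      · have h8 : ¬ z' ≤ z := by
          intro h8
          rcases eq_or_lt_of_le h8 with h9 | h9
          · subst h9
            exact hb h3.2
          · have := lev_strictAnti h9
            omega
        have h9 := Uu_add (h := Pool.Agent.GaussPoset.h2 (2 * m) N θ) h8 h6
        unfold Uu at h9
        omega
      · have h9 := Uu_right i (Pool.Agent.GaussPoset.h2 (2 * m) N θ) z z'
        unfold Uu at h9
        omega) (by
    intro A hA A' hA' hne z hz hz'
    obtain ⟨y, hy, rfl⟩ := mem_image.mp hA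
    obtain ⟨y', hy', rfl⟩ := mem_image.mp hA'
    exact hne ((fam_eq hz).symm.trans (fam_eq hz')))
  have hZ := dvd_Z W.gt.H.gauss i n
  set T := (bdR (r2 (2 * m) N)).filter (fun z => (∀ A ∈ Bs.image (fam m N), z ∉ A) ∧
    cst i (h2 (2 * m) N θ) z = n) with hTdef
  have hTm : ∀ z, z ∈ T ↔ z ∈ bdR (r2 (2 * m) N) ∧ ¬ Bk z ∧ cst i (h2 (2 * m) N θ) z = n := by
    intro z
    rw [hTdef, mem_filter]
    constructor
    · rintro ⟨h2, h3, h4⟩
      refine ⟨h2, fun hb => h3 (fam m N z) ?_ (self_mem_fam h2), h4⟩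
      exact mem_image_of_mem _ (mem_filter.mpr ⟨h2, hb⟩)
    · rintro ⟨h2, h3, h4⟩
      refine ⟨h2, fun A hA hz => ?_, h4⟩
      obtain ⟨y, hy, rfl⟩ := mem_image.mp hA
      exact h3 (hBs1 z (hcl y hy z hz)).2
  have hmain0 : (1 + X : ℤ[X]) ^ (lv P i).card ∣
      ∑ A ∈ Bs.image (fam m N), ZF i (h2 (2 * m) N θ) A n +
        ∑ z ∈ T, Lt i (h2 (2 * m) N θ) z := by
    have g2 := dvd_sub hZ hP
    rwa [sub_sub_cancel] at g2
  have hTrow : ∀ z ∈ T, (nab i z = nab (i + h2 (2 * m) N θ z) z + 1 ∧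
      (-1 : ℤ) ^ (below P i + nst i (h2 (2 * m) N θ) z) = s1 n) ∨
      (nab i z = nab (i + h2 (2 * m) N θ z) z + 2 ∧
      (-1 : ℤ) ^ (below P i + nst i (h2 (2 * m) N θ) z) = s2 n) := by
    intro z hz
    obtain ⟨h3, h4, h5⟩ := (hTm z).mp hz
    have hlz : Pool.Agent.GaussPoset.lev z = 2 * m + 1 := by
      rcases W.bd h3 with h | h
      · exact h
      · omega
    rcases L.row z h3 h4 hlz with h | h | h
    · omega
    · rw [h5] at h
      exact Or.inl h
    · rw [h5] at h
      exact Or.inr h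
  have hB1 : ∀ z : P, i ≤ Pool.Agent.GaussPoset.lev z → 1 ≤ (lv P i).card := by
    intro z hz
    have h2 := one_le_nab (z := z) (l := i) hz
    unfold nab at h2
    exact h2.trans (Finset.card_filter_le _ _)
  have hlevz : ∀ z ∈ bdR (r2 (2 * m) N), i ≤ Pool.Agent.GaussPoset.lev z := by
    intro z hz
    have := W.lt_lev (mem_sdiff.mp (bd_mem hz)).1
    omega
  -- the elements with drop 2
  have hdvdF : ∀ A ∈ Bs.image (fam m N), (1 + X : ℤ[X]) ^ ((lv P i).card - 1) ∣
      ZF i (h2 (2 * m) N θ) A n := by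
    intro A hA
    obtain ⟨y, hy, rfl⟩ := mem_image.mp hA
    have h3 := hBs1 y hy
    have h4 := L.fz y h3.1 h3.2
    rcases Nat.lt_or_ge n (pl y) with h5 | h5
    · exact (pow_dvd_pow _ (Nat.sub_le _ _)).trans (h4.clean n h5 hn)
    · have h6 : pl y = n := le_antisymm h5 (hB y h3.1 h3.2)
      obtain ⟨k, h7, -⟩ := h4.lead (by omega)
      rw [h6] at h7
      have h8 : (1 + X : ℤ[X]) ^ ((lv P i).card - 1) ∣ ∑ y' ∈ fam m N y,
          (X : ℤ[X]) ^ (k y') * (1 + X) ^ ((lv P i).card - 1) :=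
        Finset.dvd_sum fun _ _ => Dvd.intro_left _ rfl
      have h9 := dvd_add ((pow_dvd_pow _ (Nat.sub_le _ _)).trans h7) h8
      rwa [sub_add_cancel] at h9
  have hT2 : ∀ z ∈ T, ¬ (nab i z = nab (i + h2 (2 * m) N θ z) z + 2 ∧
      (-1 : ℤ) ^ (below P i + nst i (h2 (2 * m) N θ) z) = s2 n) := by
    intro z0 hz0 hcon
    set D2 : P → Prop := fun z => nab i z = nab (i + h2 (2 * m) N θ z) z + 2 ∧
      (-1 : ℤ) ^ (below P i + nst i (h2 (2 * m) N θ) z) = s2 n with hD2
    have hB2 : 2 ≤ (lv P i).card := by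
      have h6 := nab_le z0 i
      have h7 := hcon.1
      omega
    have h3 : (1 + X : ℤ[X]) ^ ((lv P i).card - 1) ∣ ∑ z ∈ T.filter D2,
        (X : ℤ[X]) ^ (below P i + nst i (h2 (2 * m) N θ) z) *
          (1 + X) ^ (((lv P i).card - 1) - 1) := by
      have h4 : ∑ z ∈ T.filter D2, (X : ℤ[X]) ^ (below P i + nst i (h2 (2 * m) N θ) z) *
          (1 + X) ^ (((lv P i).card - 1) - 1) =
          ∑ z ∈ T.filter D2, Lt i (h2 (2 * m) N θ) z := by
        refine Finset.sum_congr rfl fun z hz => ?_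
        have h5 := (mem_filter.mp hz).2
        rw [hD2] at h5
        have h6 := nab_le z i
        unfold Lt
        rw [show (lv P i).card + nab (i + Pool.Agent.GaussPoset.h2 (2 * m) N θ z) z - nab i z =
          (lv P i).card - 1 - 1 by omega]
      rw [h4]
      have h5 : (1 + X : ℤ[X]) ^ ((lv P i).card - 1) ∣
          ∑ z ∈ T.filter (fun z => ¬ D2 z), Lt i (h2 (2 * m) N θ) z := by
        refine Finset.dvd_sum fun z hz => ?_
        rw [mem_filter] at hz
        have h6 := (hTrow z hz.1).resolve_right hz.2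
        have h7 := nab_le z i
        unfold Lt
        rw [show (lv P i).card + nab (i + Pool.Agent.GaussPoset.h2 (2 * m) N θ z) z - nab i z =
          (lv P i).card - 1 by omega]
        exact Dvd.intro_left _ rfl
      have h6 := (pow_dvd_pow (1 + X : ℤ[X]) (Nat.sub_le (lv P i).card 1)).trans hmain0
      have h7 := dvd_sub (dvd_sub h6 (Finset.dvd_sum hdvdF)) h5
      rw [← Finset.sum_filter_add_sum_filter_not T D2] at h7
      have h8 : ∀ a b c : ℤ[X], a + (b + c) - a - c = b := fun a b c => by ring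
      rwa [h8] at h7
    have h9 := sum_empty (by omega) _ _ (L.ne2 n) (fun y hy => (mem_filter.mp hy).2.2) h3
    have h10 : z0 ∈ T.filter D2 := mem_filter.mpr ⟨hz0, hcon⟩
    rw [h9] at h10
    exact absurd h10 (Finset.notMem_empty z0)
  have hT1 : ∀ z ∈ T, nab i z = nab (i + h2 (2 * m) N θ z) z + 1 ∧
      (-1 : ℤ) ^ (below P i + nst i (h2 (2 * m) N θ) z) = s1 n :=
    fun z hz => (hTrow z hz).resolve_right (hT2 z hz)
  -- the elements with drop 1
  obtain ⟨kk, hk1, hk2⟩ := fam_sum (p := (1 + X : ℤ[X]) ^ (lv P i).card) (Bs := Bs)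
    (fun z hz => (hBs1 z hz).1) hcl (fun A => ZF i (h2 (2 * m) N θ) A n) (fun z => pl z = n)
    (c := (lv P i).card - 1) (σ := s1 n)
    (fun z hz y hy h => (hplf z hz y hy).trans h)
    (fun z hz h => by
      have h3 := hBs1 z hz
      refine (L.fz z h3.1 h3.2).clean n ?_ hn
      exact lt_of_le_of_ne (hB z h3.1 h3.2) (Ne.symm h))
    (fun z hz h => by
      have h3 := hBs1 z hz
      have h4 := (L.fz z h3.1 h3.2).lead (by omega)
      rw [h] at h4
      exact h4)
  set kx : P → ℕ := fun y => if Bk y then kk y else below P i + nst i (h2 (2 * m) N θ) y with hkx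
  have hdis : Disjoint (Bs.filter (fun z => pl z = n)) T := by
    rw [Finset.disjoint_left]
    intro y hy hy'
    exact ((hTm y).mp hy').2.1 (hBs1 y (mem_filter.mp hy).1).2
  have hsum : ∑ y ∈ Bs.filter (fun z => pl z = n) ∪ T,
      (X : ℤ[X]) ^ (kx y) * (1 + X) ^ ((lv P i).card - 1) =
      ∑ y ∈ Bs.filter (fun z => pl z = n), (X : ℤ[X]) ^ (kk y) * (1 + X) ^ ((lv P i).card - 1) +
      ∑ z ∈ T, Lt i (h2 (2 * m) N θ) z := by
    rw [Finset.sum_union hdis]
    congr 1
    · refine Finset.sum_congr rfl fun y hy => ?_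
      rw [hkx]
      simp only
      rw [if_pos (hBs1 y (mem_filter.mp hy).1).2]
    · refine Finset.sum_congr rfl fun y hy => ?_
      obtain ⟨g2, h3, h4⟩ := (hTm y).mp hy
      have h5 := (hT1 y hy).1
      rw [hkx]
      simp only
      rw [if_neg h3]
      unfold Lt
      have h6 := nab_le y i
      rw [show (lv P i).card + nab (i + Pool.Agent.GaussPoset.h2 (2 * m) N θ y) y - nab i y =
        (lv P i).card - 1 by omega]
  have hmain : (1 + X : ℤ[X]) ^ (lv P i).card ∣
      ∑ y ∈ Bs.filter (fun z => pl z = n) ∪ T,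
        (X : ℤ[X]) ^ (kx y) * (1 + X) ^ ((lv P i).card - 1) := by
    rw [hsum]
    have h3 := dvd_sub hmain0 hk1
    have h4 : ∀ a b c : ℤ[X], a + b - (a - c) = c + b := fun a b c => by ring
    rwa [h4] at h3
  have hsig : ∀ y ∈ Bs.filter (fun z => pl z = n) ∪ T, (-1 : ℤ) ^ (kx y) = s1 n := by
    intro y hy
    rw [mem_union] at hy
    rcases hy with hy | hy
    · rw [hkx]
      simp only
      rw [if_pos (hBs1 y (mem_filter.mp hy).1).2]
      exact hk2 y hy
    · have h3 := (hTm y).mp hy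
      rw [hkx]
      simp only
      rw [if_neg h3.2.1]
      exact (hT1 y hy).2
  have hempty : ∀ y ∈ Bs.filter (fun z => pl z = n) ∪ T, False := by
    intro y hy
    have hyb : y ∈ bdR (r2 (2 * m) N) := by
      rw [mem_union] at hy
      rcases hy with hy | hy
      · exact (hBs1 y (mem_filter.mp hy).1).1
      · exact ((hTm y).mp hy).1
    have h2 := sum_empty (hB1 y (hlevz y hyb)) _ kx (L.ne1 n) hsig hmain
    rw [h2] at hy
    exact absurd hy (Finset.notMem_empty y)
  constructor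
  · intro z hz hb hc
    exact hempty z (mem_union_left _ (mem_filter.mpr ⟨mem_filter.mpr ⟨hz, hb⟩, hc⟩))
  · intro z hz hb hc
    exact hempty z (mem_union_right _ ((hTm z).mpr ⟨hz, hb, hc⟩))

/-- **The ladder.** -/
theorem WI.ladder (W : WI r i m K N b θ) (L : Lad i m K N θ N0 Bk pl s1 s2) :
    (∀ z ∈ bdR (r2 (2 * m) N), Bk z → N0 ≤ pl z) ∧
      ∀ z ∈ bdR (r2 (2 * m) N), ¬ Bk z → N0 ≤ cst i (h2 (2 * m) N θ) z := by
  have key : ∀ n, n < N0 → (∀ z ∈ bdR (r2 (2 * m) N), Bk z → pl z ≠ n) ∧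
      ∀ z ∈ bdR (r2 (2 * m) N), ¬ Bk z → cst i (h2 (2 * m) N θ) z ≠ n := by
    intro n
    induction n using Nat.strong_induction_on with
    | _ n ih =>
    intro hn
    refine W.stepG L hn (fun z hz hb => ?_) (fun z hz hb => ?_)
    · by_contra hcon
      exact (ih _ (not_le.mp hcon) (by omega)).1 z hz hb rfl
    · by_contra hcon
      exact (ih _ (not_le.mp hcon) (by omega)).2 z hz hb rfl
  constructor
  · intro z hz hb
    by_contra hcon
    exact (key _ (not_le.mp hcon)).1 z hz hb rfl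
  · intro z hz hb
    by_contra hcon
    exact (key _ (not_le.mp hcon)).2 z hz hb rfl

end Pool.Agent.GaussPoset.Fi

end

/-! From `Pool.Agent.W_448f6_h94.FxB` -/

section

/-!
The natural system at window `i`, level `2 m`, with truncated components (MP_448cb3_co, S8,
`j = 14`, window 6; after `FiA`, `FiD` of helper76).
-/

namespace Pool.Agent.GaussPoset.F6

set_option linter.unusedSectionVars false

open Polynomial Finset Fi

universe u

variable {P : Type u} [Fintype P] [PartialOrder P] [DecidableEq P] {r i m K : ℕ}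
  {N : Tops P → Finset P} {b : Tops P → ℕ} {θ : Tops P → P → ℕ}

/-- the profile of the end of E7 at the level 14 -/
def pE : List ℕ := [0, 0, 1, 1, 1, 1, 2, 1, 1, 1, 1]

/-- the types of the components at window `i` -/
inductive TyE (i m K : ℕ) (N : Tops P → Finset P) (t : Tops P) (b : ℕ) (θ : P → ℕ) : Prop
  | light (h1 : N t = onlyB t) (h2 : θ = fun x => lev x - i) (h3 : b = 1)
      (h5 : ∀ x, x ≤ (t : P) → lev x ≤ 2 * m → x ∈ onlyB t) (h6 : ∃ x ≤ (t : P), lev x = i)
      (h7 : ∀ v, v ≤ (t : P) → lev v = 2 * m → (Win.uc v).card = 1 → ∃ p ∈ PL i m,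
        Prof m v (gD p))
      (h8 : cn 2 (t : P) ≤ 1)
  | rect (Nc : Finset P) (co : P → ℕ × ℕ) (h0 : RectNat (2 * m) i t b Nc co)
      (h1 : N t = natR Nc co) (h2 : θ = thR i b Nc co) (h3 : NopT m t)
  | stair (Nc : Finset P) (co : P → ℕ × ℕ) (h0 : StairNat (2 * m) i t Nc co)
      (h1 : N t = natS Nc co) (h2 : θ = thS i Nc co) (h3 : b = i / 2 + 1) (h4 : NopT m t)
  | oth (h1 : ∃ B, Sg.LocL i b (K - 1) (N t) θ B) (h2 : lowPart (2 * m) (t : P) ⊆ N t)
      (h3 : ∀ x ∈ N t, x ≤ (t : P)) (h4 : ∀ x ∈ N t, ∀ y, x ≤ y → y ∈ N t)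
      (h5 : ∀ v w, v ≤ (t : P) → w ≤ (t : P) → lev v = 2 * m → lev w = 2 * m → v = w)
      (h6 : ∀ z v, lev z = 2 * m + 1 → v ≤ (t : P) → lev v = 2 * m → Pend z v → z ∈ N t)
      (h7 : ∀ v, v ≤ (t : P) → lev v = 2 * m → Prof m v (gD pE) ∧ θ v = 4 ∧
        (Win.uc v).card = 1)
      (h8 : cn 2 (t : P) ≤ 1)
      (h9 : ∀ z ∈ unnat N, ∀ x ∈ N t, 2 * m + 1 ≤ lev x → z ⋖ x → K ≤ ct i (θ x + 1) z)
      (h10 : ∀ z ∈ unnat N, ∀ x ∈ N t, lev x = 2 * m + 1 → ¬ ∀ w, x < w ↔ z < w)

/-- the context -/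
structure WE (r i m K : ℕ) (N : Tops P → Finset P) (b : Tops P → ℕ) (θ : Tops P → P → ℕ) :
    Prop where
  gt : Win.GoodTo P r (2 * m)
  hr : 2 * m + 1 ≤ r
  hi : 4 ≤ i
  him : i ≤ m
  hmi : m ≤ i + 1
  tc : ∀ t, TyE i m K N t (b t) (θ t)
  sum_b : ∑ t, b t = (lv P i).card
  kapR : KapR i m K
  kapS : KapS i m K
  K_le : K ≤ (2 * m + 1 - i) ^ 2 + 1

/-- natural sets of the first three types -/
lemma WE.natTop (W : WE r i m K N b θ) (t : Tops P) :
    (∃ B, NatTop i t (b t) (N t) (θ t) B) ∨ ((∃ B, Sg.LocL i (b t) (K - 1) (N t) (θ t) B) ∧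
      (∀ x ∈ N t, x ≤ (t : P)) ∧ ∀ x ∈ N t, ∀ y, x ≤ y → y ∈ N t) := by
  have h4 := W.hi
  have him := W.him
  have hgr := W.gt.H.gradedBelow
  rcases W.tc t with ⟨h1, h2, h3, h5, h6, h7, h8⟩ | ⟨Nc, co, h0, h1, h2, h3⟩ |
    ⟨Nc, co, h0, h1, h2, h3, h4⟩ | ⟨h1, h2, h3, h4, -, -, -, -, -, -⟩
  · left
    rw [h1, h2, h3]
    exact ⟨_, natTop_light hgr (fun x hx hxi => h5 x hx (by omega)) h6⟩
  · left
    rw [h1, h2]
    exact ⟨_, h0.natTop hgr (by omega)⟩
  · left
    rw [h1, h2, h3]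
    exact ⟨_, h0.natTop hgr (by omega) (by omega)⟩
  · exact Or.inr ⟨h1, h3, h4⟩

lemma WE.natSys (W : WE r i m K N b θ) : NatSys N where
  up := by
    intro t
    rcases W.natTop t with ⟨B, h⟩ | h
    · exact h.up
    · exact h.2.2
  le_t := by
    intro t
    rcases W.natTop t with ⟨B, h⟩ | h
    · exact h.le_t
    · exact h.2.1

lemma WE.low (W : WE r i m K N b θ) {x : P} (hx : lev x ≤ 2 * m) : x ∉ unnat N := by
  intro h
  refine mem_unnat.mp h (topOf x) ?_
  rcases W.tc (topOf x) with ⟨h1, h2, h3, h5, h6, h7, h8⟩ | ⟨Nc, co, h0, h1, h2, h3⟩ |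
    ⟨Nc, co, h0, h1, h2, h3, h4⟩ | ⟨h1, h2, h3, h4, -, -, -, -, -, -⟩
  · rw [h1]; exact h5 x (le_topOf x) hx
  · rw [h1]; exact mem_natR.mpr (Or.inl (h0.strip (mem_lowPart.mpr ⟨le_topOf x, hx⟩)))
  · rw [h1]; exact mem_natS.mpr (Or.inl (h0.strip (mem_lowPart.mpr ⟨le_topOf x, hx⟩)))
  · exact h2 (mem_lowPart.mpr ⟨le_topOf x, hx⟩)

lemma WE.lt_lev (W : WE r i m K N b θ) {x : P} (hx : x ∈ unnat N) : 2 * m < lev x := by
  by_contra hcon
  exact W.low (not_lt.mp hcon) hx

/-- the kinds of natural elements of light components -/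
theorem WE.light_case (W : WE r i m K N b θ) {x : P} (hx : x ∉ unnat N)
    (h1 : N (topOf x) = onlyB (topOf x)) (h2 : θ (topOf x) = fun x => lev x - i) :
    Fi.Full i m N θ x := by
  have H := W.gt.H
  have HN := W.natSys
  have hxt : x ∈ N (topOf x) := HN.mem_iff.mpr ⟨hx, rfl⟩
  have h4 := W.hi
  have him := W.him
  generalize ht : topOf x = t at hxt h1 h2
  have hs : ∀ z ∈ unnat N, ∃ s : P, lev s = 0 ∧ z ≤ s ∧ s ≠ t := by
    intro z hz
    have h7 : z ∉ onlyB t := by
      rw [← h1]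
      exact mem_unnat.mp hz t
    rw [mem_onlyB] at h7
    push Not at h7
    exact h7
  refine ⟨by rw [ht, h2], ?_, ?_⟩
  · intro z hz hzx k _ hk
    obtain ⟨s, hs1, hs2, hs3⟩ := hs z hz
    exact two_le_nab_join HN H.gradedBelow hxt hzx hs1 hs3 hs2 hk
  · intro z hz h
    obtain ⟨s, hs1, hs2, hs3⟩ := hs z hz
    have h7 := W.lt_lev hz
    have h8 : z < s := lt_of_le_of_ne hs2 (by rintro rfl; omega)
    exact hs3 (HN.top_eq hxt hs1 ((h s).mpr h8).le)

/-- the kinds of natural elements of rectangles -/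
theorem WE.rect_case (W : WE r i m K N b θ) {x : P} (hx : x ∉ unnat N) {Nc : Finset P}
    {co : P → ℕ × ℕ} (h0 : RectNat (2 * m) i (topOf x) (b (topOf x)) Nc co)
    (h1 : N (topOf x) = natR Nc co) (h2 : θ (topOf x) = thR i (b (topOf x)) Nc co)
    (h3 : NopT m (topOf x)) : Fi.Full i m N θ x ∨ ∃ Nc co, InR i m N b θ x Nc co := by
  have H := W.gt.H
  have HN := W.natSys
  have hxt : x ∈ N (topOf x) := HN.mem_iff.mpr ⟨hx, rfl⟩
  have h4 := W.hi
  have him := W.him
  generalize ht : topOf x = t at hxt h0 h1 h2 h3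
  -- rectangles
  by_cases hJ : x ∈ junk (fun _ => True) Nc co ∨ x ∈ junk (fun _ => True) Nc (swp co)
  · left
    refine ⟨?_, ?_, ?_⟩
    · rw [ht, h2]
      unfold thR
      rw [if_pos hJ]
    · intro z hz hzx k hk hkx
      refine rect_two_le_nab H h0 h1 hz hzx ?_ (by omega) hkx
      rcases hJ with h | h
      · exact Or.inl h
      · exact Or.inr (Or.inl h)
    · intro z hz h
      refine mem_unnat.mp hz t ?_
      rw [h1, mem_natR]
      rcases hJ with h' | h'
      · exact Or.inr (Or.inl (junk_twin h' h))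
      · exact Or.inr (Or.inr (junk_twin h' h))
  · have hxN : x ∈ Nc := by
      rw [h1, mem_natR] at hxt
      rcases hxt with h | h | h
      · exact h
      · exact absurd (Or.inl h) hJ
      · exact absurd (Or.inr h) hJ
    have hl := h0.chart.lev x hxN
    have hb1 := h0.b_two
    have hb2 := h0.b_le
    have hrow : b t = i + 1 ∨ (co x).1 ≤ b t - 1 := by
      rcases h0.rows with h | h
      · exact Or.inl h
      · exact Or.inr (h x hxN)
    by_cases h7 : (co x).1 = 0 ∨ (co x).2 = 0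
    · left
      refine ⟨?_, ?_, ?_⟩
      · rw [ht, h2]
        unfold thR
        rw [if_neg hJ]
        omega
      · intro z hz hzx k hk hkx
        exact rect_two_le_nab H h0 h1 hz hzx (Or.inr (Or.inr ⟨hxN, h7⟩)) (by omega) hkx
      · intro z hz h
        have h8 := W.lt_lev hz
        rw [← lev_eq_of_up h] at h8
        rcases h7 with h7 | h7
        · obtain ⟨u, hu, hcu⟩ := h0.chart.low x hxN (0, (co x).2 - 1)
            ⟨Nat.zero_le _, Nat.sub_le _ _⟩ trivial
          refine straight_twin H h0 h1 hxN hu ?_ ?_ ?_ hz h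
          · rw [hcu]
            exact Or.inr ⟨by simp only; omega, by simp only; omega⟩
          · intro y hy hp
            rw [hcu]
            rcases hp with hp | hp
            · omega
            · exact Prod.ext (by simp only; omega) (by simp only; omega)
          · rw [hcu]
            exact Or.inl rfl
        · obtain ⟨u, hu, hcu⟩ := h0.chart.low x hxN ((co x).1 - 1, 0)
            ⟨Nat.sub_le _ _, Nat.zero_le _⟩ trivial
          refine straight_twin H h0 h1 hxN hu ?_ ?_ ?_ hz h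
          · rw [hcu]
            exact Or.inl ⟨by simp only; omega, by simp only; omega⟩
          · intro y hy hp
            rw [hcu]
            rcases hp with hp | hp
            · exact Prod.ext (by simp only; omega) (by simp only; omega)
            · omega
          · rw [hcu]
            exact Or.inr rfl
    · right
      refine ⟨Nc, co, ?_, ?_, hxN, by omega, by omega, ?_, ?_⟩
      · rw [ht]; exact h0
      · rw [ht]; exact h1
      · rw [ht, h2]
        unfold thR
        rw [if_neg hJ]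
        omega
      · rw [ht]; exact h3

/-- the kinds of natural elements of stairs -/
theorem WE.stair_case (W : WE r i m K N b θ) {x : P} (hx : x ∉ unnat N) {Nc : Finset P}
    {co : P → ℕ × ℕ} (h0 : StairNat (2 * m) i (topOf x) Nc co)
    (h1 : N (topOf x) = natS Nc co) (h2 : θ (topOf x) = thS i Nc co)
    (h3 : b (topOf x) = i / 2 + 1) (h4 : NopT m (topOf x)) :
    Fi.Full i m N θ x ∨ ∃ Nc co, InS i m N b θ x Nc co := by
  have H := W.gt.H
  have HN := W.natSys
  have hxt : x ∈ N (topOf x) := HN.mem_iff.mpr ⟨hx, rfl⟩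
  have hi4 := W.hi
  have him := W.him
  generalize ht : topOf x = t at hxt h0 h1 h2 h3 h4
  -- stairs
  by_cases hJ : x ∈ junk (fun c => c.1 ≤ c.2) Nc co
  · left
    refine ⟨?_, ?_, ?_⟩
    · rw [ht, h2]
      unfold thS
      rw [if_pos hJ]
    · intro z hz hzx k hk hkx
      exact stair_two_le_nab H h0 h1 hz hzx (Or.inl hJ) hk hkx
    · intro z hz h
      refine mem_unnat.mp hz t ?_
      rw [h1, mem_natS]
      exact Or.inr (junk_twin hJ h)
  · have hxN : x ∈ Nc := by
      rw [h1, mem_natS] at hxt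
      rcases hxt with h | h
      · exact h
      · exact absurd h hJ
    have hl := h0.chart.lev x hxN
    by_cases h7 : (co x).1 = 0
    · left
      refine ⟨?_, ?_, ?_⟩
      · rw [ht, h2]
        unfold thS
        rw [if_neg hJ]
        omega
      · intro z hz hzx k hk hkx
        exact stair_two_le_nab H h0 h1 hz hzx (Or.inr ⟨hxN, h7⟩) hk hkx
      · intro z hz h
        have h8 := W.lt_lev hz
        rw [← lev_eq_of_up h] at h8
        obtain ⟨u, hu, hcu⟩ := h0.chart.low x hxN (0, (co x).2 - 1)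
          ⟨Nat.zero_le _, Nat.sub_le _ _⟩ (Nat.zero_le _)
        refine straight_twinS H h0 (by omega) h1 hxN hu ?_ ?_ ?_ hz h
        · rw [hcu]
          exact Or.inr ⟨by simp only; omega, by simp only; omega⟩
        · intro y hy hp
          rw [hcu]
          rcases hp with hp | hp
          · omega
          · exact Prod.ext (by simp only; omega) (by simp only; omega)
        · rw [hcu]
    · right
      refine ⟨Nc, co, ?_, ?_, ?_, ?_, hxN, by omega, ?_, ?_⟩
      · rw [ht]; exact h0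
      · rw [ht]; exact h1
      · rw [ht]; exact h2
      · rw [ht]; exact h3
      · rw [ht, h2]
        unfold thS
        rw [if_neg hJ]
      · rw [ht]; exact h4

/-- elements of truncated components -/
structure Ot (i m K : ℕ) (N : Tops P → Finset P) (θ : Tops P → P → ℕ) (x : P) : Prop where
  mem : x ∈ N (topOf x)
  single : ∀ v w, v ≤ (topOf x : P) → w ≤ (topOf x : P) → Pool.Agent.GaussPoset.lev v = 2 * m →
    Pool.Agent.GaussPoset.lev w = 2 * m → v = w
  pend : ∀ z v, Pool.Agent.GaussPoset.lev z = 2 * m + 1 → v ≤ (topOf x : P) →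
    Pool.Agent.GaussPoset.lev v = 2 * m → Pend z v → z ∈ N (topOf x)
  prof : ∀ v, v ≤ (topOf x : P) → Pool.Agent.GaussPoset.lev v = 2 * m →
    Prof m v (gD pE) ∧ θ (topOf x) v = 4 ∧ (Win.uc v).card = 1
  kap : ∀ z ∈ unnat N, ∀ y ∈ N (topOf x), 2 * m + 1 ≤ Pool.Agent.GaussPoset.lev y → z ⋖ y →
    K ≤ ct i (θ (topOf x) y + 1) z
  tw : ∀ z ∈ unnat N, ∀ y ∈ N (topOf x), Pool.Agent.GaussPoset.lev y = 2 * m + 1 →
    ¬ ∀ w, y < w ↔ z < w

/-- the kinds of natural elements -/
theorem WE.cases (W : WE r i m K N b θ) {x : P} (hx : x ∉ unnat N) : Fi.Full i m N θ x ∨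
    (∃ Nc co, InR i m N b θ x Nc co) ∨ (∃ Nc co, InS i m N b θ x Nc co) ∨ Ot i m K N θ x := by
  have hxt : x ∈ N (topOf x) := W.natSys.mem_iff.mpr ⟨hx, rfl⟩
  rcases W.tc (topOf x) with ⟨h1, h2, h3, h5, h6, h7, h8⟩ | ⟨Nc, co, h0, h1, h2, h3⟩ |
    ⟨Nc, co, h0, h1, h2, h3, h4⟩ | ⟨h1, h2, h3, h4, h5, h6, h7, h8, h9, h10⟩
  · exact Or.inl (W.light_case hx h1 h2)
  · rcases W.rect_case hx h0 h1 h2 h3 with h | h
    · exact Or.inl h
    · exact Or.inr (Or.inl h)
  · rcases W.stair_case hx h0 h1 h2 h3 h4 with h | h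
    · exact Or.inl h
    · exact Or.inr (Or.inr (Or.inl h))
  · exact Or.inr (Or.inr (Or.inr ⟨hxt, h5, h6, h7, h9, h10⟩))

end Pool.Agent.GaussPoset.F6

end
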