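import Mathlib
import Pool.Agent.W_448zz_h61.Ns
import Pool.Agent.W_448zz_h61.M051
import Pool.Agent.W_448zz_h61.M056
import Pool.Agent.W_448zz_h61.M120
import Pool.Agent.W_448zz_h61.M123

/-! From `Pool.Agent.W_448s8_h76.SaO` -/

section

/-!
The natural system used for the star joins (MP_448cb3_co, S8).
-/

namespace Pool.Agent.GaussPoset

set_option linter.unusedSectionVars false

open Polynomial Finset

universe u

variable {P : Type u} [Fintype P] [PartialOrder P] [DecidableEq P] {r m : ℕ}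
  {N : Tops P → Finset P} {b : Tops P → ℕ} {θ : Tops P → P → ℕ}

/-- two elements of level `m` in a chart -/
lemma two_le_cn {t : P} {S : ℕ × ℕ → Prop} {Nc : Finset P} {co : P → ℕ × ℕ}
    (C : Chart t S Nc co) (hm : 1 ≤ m) (h0 : S (0, m)) (h1 : S (1, m - 1)) {x : P} (hx : x ∈ Nc)
    (hs : 1 ≤ (co x).1) (hc : m ≤ (co x).2) : 2 ≤ cn m t := by
  classical
  obtain ⟨y1, hy1, hc1⟩ := C.low x hx (0, m) ⟨Nat.zero_le _, hc⟩ h0
  obtain ⟨y2, hy2, hc2⟩ := C.low x hx (1, m - 1) ⟨hs, show m - 1 ≤ (co x).2 by omega⟩ h1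
  have hne : y1 ≠ y2 := by
    rintro rfl
    rw [hc1] at hc2
    simp at hc2
  have l1 := C.lev y1 hy1
  have l2 := C.lev y2 hy2
  rw [hc1] at l1
  rw [hc2] at l2
  simp only at l1 l2
  have h3 : ({y1, y2} : Finset P) ⊆ (lv P m).filter (fun x => x ≤ t) := by
    intro y hy
    rw [mem_insert, mem_singleton] at hy
    rw [mem_filter, mem_lv]
    rcases hy with rfl | rfl
    · exact ⟨by omega, C.le_t _ hy1⟩
    · exact ⟨by omega, C.le_t _ hy2⟩
  have h4 := Finset.card_le_card h3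
  rw [Finset.card_pair hne] at h4
  exact h4

lemma rect_twoQ {j : ℕ} {t : Tops P} {k : ℕ} {Nc : Finset P} {co : P → ℕ × ℕ}
    (R : RectNat j m t k Nc co) (hm : 1 ≤ m) : 2 ≤ cn m (t : P) := by
  obtain ⟨x, hx, hc⟩ := R.cell
  have := R.b_two
  refine two_le_cn R.chart hm trivial trivial hx ?_ ?_
  · rw [hc]
    show 1 ≤ k - 1
    omega
  · rw [hc]

lemma stair_twoQ {j : ℕ} {t : Tops P} {Nc : Finset P} {co : P → ℕ × ℕ}
    (R : StairNat j m t Nc co) (hm : 2 ≤ m) : 2 ≤ cn m (t : P) := by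
  obtain ⟨x, hx, hc⟩ := R.cell
  refine two_le_cn R.chart (by omega) (Nat.zero_le _) (show 1 ≤ m - 1 by omega) hx ?_ ?_
  · rw [hc]
    show 1 ≤ 2 * (m / 2)
    omega
  · rw [hc]

/-- strips with one element of level `m` are light -/
lemma WM.typ_quad (W : WM r m N b θ) {a : ℕ} (ha : m < a) {t : Tops P} (h : QInf m a t) :
    N t = onlyB t ∧ (θ t = fun x => lev x - m) ∧ b t = 1 := by
  have hm := W.ten
  have h1 := h.cn m (by omega)
  rw [if_neg (by omega)] at h1
  rcases W.typ t with ⟨g1, g2, g3, g5, g6, g7⟩ | ⟨Nc, co, g0, g1, g2, g3⟩ |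
    ⟨Nc, co, g0, g1, g2, g3, g4⟩ | ⟨g1, g2, g3, g4⟩
  · exact ⟨g1, g2, g3⟩
  · have := rect_twoQ g0 (by omega)
    omega
  · have := stair_twoQ g0 (by omega)
    omega
  · have := g4.cn m (by omega)
    rw [if_pos rfl] at this
    omega

lemma QInf.ne_R {a : ℕ} (hm : 10 ≤ m) (ha : m < a) {t : Tops P} (h : QInf m a t) {x : P}
    {Nc : Finset P} {co : P → ℕ × ℕ} (hx : InRM m N b θ x Nc co) : topOf x ≠ t := by
  rintro rfl
  have h1 := h.cn m (by omega)
  rw [if_neg (by omega)] at h1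
  have := rect_twoQ hx.rect (by omega)
  omega

lemma QInf.ne_S {a : ℕ} (hm : 10 ≤ m) (ha : m < a) {t : Tops P} (h : QInf m a t) {x : P}
    {Nc : Finset P} {co : P → ℕ × ℕ} (hx : InSM m N b θ x Nc co) : topOf x ≠ t := by
  rintro rfl
  have h1 := h.cn m (by omega)
  rw [if_neg (by omega)] at h1
  have := stair_twoQ hx.stair (by omega)
  omega

/-- the type of the component of a fold end -/
structure FT (m : ℕ) (N : Tops P → Finset P) (b : Tops P → ℕ) (θ : Tops P → P → ℕ) (x : P)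
    (Nc : Finset P) (co : P → ℕ × ℕ) : Prop where
  stair : StairNat (2 * m) m (topOf x) Nc co
  nat : N (topOf x) = natS Nc co
  th : θ (topOf x) = thS m Nc co
  b : b (topOf x) = m / 2 + 1
  mem : x ∈ Nc
  cell : co x = (m, m)

lemma WM.fold_typ (W : WM r m N b θ) {x : P} (hx : FoldM m N b θ x) :
    ∃ Nc co, FT m N b θ x Nc co := by
  have hm := W.ten
  have hl := hx.lev
  have hth := hx.th
  have hn0 := hx.nab (u := 0) (by omega)
  have hn1 := hx.nab (u := m - 1) (by omega)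
  rw [show m + (m - 1) = 2 * m - 1 by omega] at hn1
  rw [Nat.add_zero] at hn0
  have e0 : nF m 0 = m / 2 + 1 := by
    unfold nF
    omega
  have e1 : nF m (m - 1) = 1 := by
    unfold nF
    omega
  rw [e0] at hn0
  rw [e1] at hn1
  have hxl : x ∈ lowPart (2 * m) (topOf x : P) := mem_lowPart.mpr ⟨le_topOf x, hl.le⟩
  rcases W.typ (topOf x) with ⟨g1, g2, g3, g5, g6, g7⟩ | ⟨Nc, co, g0, g1, g2, g3⟩ |
    ⟨Nc, co, g0, g1, g2, g3, g4⟩ | ⟨g1, g2, g3, g4⟩
  · exfalso
    rw [g2] at hth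
    simp only at hth
    omega
  · exfalso
    have hxN := g0.strip hxl
    have hcl := g0.chart.lev x hxN
    rw [nab_chart g0.chart hxN] at hn0 hn1
    have h1 := card_cellsAt_true (l := 2 * m - 1) (p := co x) (by omega)
    have h2 := card_cellsAt_true (l := m) (p := co x) (by omega)
    omega
  · have hxN := g0.strip hxl
    have hcl := g0.chart.lev x hxN
    have hS : (co x).1 ≤ (co x).2 := g0.chart.mem x hxN
    rw [nab_chart g0.chart hxN] at hn0 hn1
    have h1 := card_cellsAt_shift (l := 2 * m - 1) (p := co x) hS (by omega)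
    have h2 := card_cellsAt_shift (l := m) (p := co x) hS (by omega)
    refine ⟨Nc, co, g0, g1, g2, g3, hxN, ?_⟩
    exact Prod.ext (by simp only; omega) (by simp only; omega)
  · exfalso
    have h1 := W.nab_le_cn hl.le m
    rw [g4.cn m (by omega), if_pos rfl] at h1
    omega

/-- a fold end and the bottom of a quadric strip -/
structure StarF (m : ℕ) (N : Tops P → Finset P) (b : Tops P → ℕ) (θ : Tops P → P → ℕ)
    (f v : P) (Nc : Finset P) (co : P → ℕ × ℕ) : Prop where
  fold : FoldM m N b θ f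
  ft : FT m N b θ f Nc co
  q : QInf m (m + hh m) (topOf v)
  ne : topOf f ≠ topOf v
  hlv : lev v = 2 * m

/-- the natural sets -/
noncomputable def Nq (m : ℕ) (N : Tops P → Finset P) (v : P) : Tops P → Finset P :=
  Function.update N (topOf v) (lowPart (2 * m) (topOf v : P))

/-- the orders -/
noncomputable def bq (m : ℕ) (b : Tops P → ℕ) (f : P) : Tops P → ℕ :=
  Function.update b (topOf f) (m / 2)

/-- the thresholds -/
noncomputable def tq (m : ℕ) (θ : Tops P → P → ℕ) (f : P) (Nc : Finset P) (co : P → ℕ × ℕ) :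
    Tops P → P → ℕ :=
  Function.update θ (topOf f) (thSg (2 * (m / 2) - 2) m Nc co)

section

variable {f v : P} {Nc : Finset P} {co : P → ℕ × ℕ}

theorem StarF.natTop (W : WM r m N b θ) (S : StarF m N b θ f v Nc co) (s : Tops P) :
    ∃ B, NatTop m s (bq m b f s) (Nq m N v s) (tq m θ f Nc co s) B := by
  have hm := W.ten
  have hgr := W.gt.H.gradedBelow
  have hh1 := hh_pos m
  by_cases hs : s = topOf v
  · subst hs
    obtain ⟨q1, q2, q3⟩ := W.typ_quad (by omega) S.q
    have e1 : Nq m N v (topOf v) = lowPart (2 * m) (topOf v : P) := Function.update_self _ _ _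
    have e2 : bq m b f (topOf v) = 1 := by
      unfold bq
      rw [Function.update_of_ne (Ne.symm S.ne), q3]
    have e3 : tq m θ f Nc co (topOf v) = fun x => lev x - m := by
      unfold tq
      rw [Function.update_of_ne (Ne.symm S.ne), q2]
    rw [e1, e2, e3]
    obtain ⟨x, hx, hl⟩ : ∃ x ≤ (topOf v : P), lev x = m := by
      obtain ⟨x, hx, hl⟩ := exists_above' (x := v) (j := m) (by rw [S.hlv]; omega)
      refine ⟨x, ?_, hl⟩
      rw [W.natSys.cp v x hx (W.low S.hlv.le)]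
      exact le_topOf x
    exact ⟨_, (locData_light hgr ⟨x, mem_lowPart.mpr ⟨hx, by omega⟩, hl⟩).natTop (W.lowUp _)
      (fun x hx => (mem_lowPart.mp hx).1) (fun x hx hxi => mem_lowPart.mpr ⟨hx, by omega⟩)⟩
  · have e1 : Nq m N v s = N s := Function.update_of_ne hs _ _
    rw [e1]
    by_cases hs2 : s = topOf f
    · subst hs2
      have e2 : bq m b f (topOf f) = m / 2 := Function.update_self _ _ _
      have e3 : tq m θ f Nc co (topOf f) = thSg (2 * (m / 2) - 2) m Nc co :=
        Function.update_self _ _ _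
      rw [e2, e3, S.ft.nat]
      exact ⟨_, S.ft.stair.natTop_less hgr (by omega) (by omega)⟩
    · have e2 : bq m b f s = b s := Function.update_of_ne hs2 _ _
      have e3 : tq m θ f Nc co s = θ s := Function.update_of_ne hs2 _ _
      rw [e2, e3]
      exact W.natTop s

lemma StarF.natSys (W : WM r m N b θ) (S : StarF m N b θ f v Nc co) : NatSys (Nq m N v) := by
  choose B hB using S.natTop W
  exact natSys_of_tops hB

/-- the total order -/
lemma StarF.sum_b (W : WM r m N b θ) (S : StarF m N b θ f v Nc co) :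
    ∑ s, bq m b f s + 1 = (lv P m).card := by
  classical
  rw [← W.sum_b]
  unfold bq
  rw [Finset.sum_update_of_mem (mem_univ _), ← Finset.add_sum_erase univ b (mem_univ (topOf f)),
    S.ft.b, Finset.sdiff_singleton_eq_erase]
  omega

/-- the thresholds only increase -/
lemma StarF.th_le (S : StarF m N b θ f v Nc co) (s : Tops P) (x : P) :
    θ s x ≤ tq m θ f Nc co s x := by
  unfold tq
  by_cases hs : s = topOf f
  · subst hs
    rw [Function.update_self, S.ft.th]
    unfold thS thSg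
    split_ifs
    · exact le_rfl
    · omega
  · rw [Function.update_of_ne hs]

/-- the threshold of the fold end -/
lemma StarF.th_f (W : WM r m N b θ) (S : StarF m N b θ f v Nc co) :
    tq m θ f Nc co (topOf f) f = m % 2 + 2 := by
  have hm := W.ten
  have h1 := S.fold.th
  unfold tq
  rw [Function.update_self]
  rw [S.ft.th] at h1
  unfold thS at h1
  unfold thSg
  by_cases hJ : f ∈ junk (fun c => c.1 ≤ c.2) Nc co
  · rw [if_pos hJ] at h1
    have := S.fold.lev
    omega
  · rw [if_neg hJ, S.ft.cell]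
    simp only
    omega

/-- the new unnatural elements -/
lemma StarF.mem_unnat (W : WM r m N b θ) (S : StarF m N b θ f v Nc co) {x : P} :
    x ∈ unnat (Nq m N v) ↔ x ∈ unnat N ∨ (topOf x = topOf v ∧ 2 * m < lev x) := by
  have hlow := W.lowUp (topOf v)
  constructor
  · intro h
    by_contra hcon
    rw [not_or] at hcon
    have h1 : x ∈ N (topOf x) := W.natSys.mem_iff.mpr ⟨hcon.1, rfl⟩
    have h2 := Pool.Agent.GaussPoset.mem_unnat.mp h (topOf x)
    by_cases hs : topOf x = topOf v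
    · rw [hs] at h2
      unfold Nq at h2
      rw [Function.update_self] at h2
      refine h2 (mem_lowPart.mpr ⟨by rw [← hs]; exact le_topOf x, ?_⟩)
      by_contra h3
      exact hcon.2 ⟨hs, by omega⟩
    · unfold Nq at h2
      rw [Function.update_of_ne hs] at h2
      exact h2 h1
  · intro h
    rw [Pool.Agent.GaussPoset.mem_unnat]
    intro s hs
    have h3 := (S.natSys W).topOf_eq hs
    by_cases hsv : s = topOf v
    · subst hsv
      unfold Nq at hs
      rw [Function.update_self, mem_lowPart] at hs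
      rcases h with h | h
      · have := W.lt_lev h
        omega
      · omega
    · unfold Nq at hs
      rw [Function.update_of_ne hsv] at hs
      rcases h with h | h
      · exact Pool.Agent.GaussPoset.mem_unnat.mp h s hs
      · exact hsv (h3.symm.trans h.1)

lemma StarF.tw_ne (W : WM r m N b θ) (S : StarF m N b θ f v Nc co) {x : P}
    (hx : x ∈ twY (2 * m) N) : topOf x ≠ topOf v := by
  have hh1 := hh_pos m
  rw [← W.twSys.cp x hx]
  rcases W.tw_inner hx with ⟨Nc', co', h⟩ | ⟨Nc', co', h⟩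
  · exact S.q.ne_R W.ten (by omega) h
  · exact S.q.ne_S W.ten (by omega) h

theorem StarF.twSys (W : WM r m N b θ) (S : StarF m N b θ f v Nc co) :
    TwSys (unnat (Nq m N v)) (twY (2 * m) N) topOf (twT N) where
  sub := fun x hx => (S.mem_unnat W).mpr (Or.inl (W.twSys.sub hx))
  nat := by
    intro x hx h
    rcases (S.mem_unnat W).mp h with h | h
    · exact W.twSys.nat x hx h
    · exact S.tw_ne W hx ((W.twSys.cp x hx).symm.trans h.1)
  up := W.twSys.up
  inj := W.twSys.inj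
  anti := W.twSys.anti
  cp := W.twSys.cp

/-- the frozen set -/
noncomputable def Rq (m : ℕ) (N : Tops P → Finset P) (v : P) : Finset P :=
  unnat (Nq m N v) \ twY (2 * m) N

lemma StarF.mem_Rq (W : WM r m N b θ) (S : StarF m N b θ f v Nc co) {x : P} :
    x ∈ Rq m N v ↔ x ∈ r2 (2 * m) N ∨ (topOf x = topOf v ∧ 2 * m < lev x) := by
  unfold Rq
  rw [mem_sdiff, S.mem_unnat W, mem_sdiff]
  constructor
  · rintro ⟨h1 | h1, h2⟩
    · exact Or.inl ⟨h1, h2⟩
    · exact Or.inr h1
  · rintro (⟨h1, h2⟩ | h1)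
    · exact ⟨Or.inl h1, h2⟩
    · exact ⟨Or.inr h1, fun h => S.tw_ne W h h1.1⟩

lemma StarF.lower (W : WM r m N b θ) (S : StarF m N b θ f v Nc co) :
    ∀ x y, x ≤ y → y ∈ Rq m N v → x ∈ Rq m N v :=
  (S.twSys W).lower (S.natSys W).lower

lemma StarF.lev_Rq (W : WM r m N b θ) (S : StarF m N b θ f v Nc co) {x : P} (hx : x ∈ Rq m N v) :
    2 * m < lev x := by
  rcases (S.mem_Rq W).mp hx with h | h
  · exact W.lt_lev (mem_sdiff.mp h).1
  · exact h.2

lemma StarF.twinPair (W : WM r m N b θ) (S : StarF m N b θ f v Nc co) {x : P}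
    (hx : x ∈ twY (2 * m) N) : TwinPair m (thX (twY (2 * m) N) (twT N)
      (fun x => tq m θ f Nc co (topOf x) x)) (Kb m - 1) (twT N x) x := by
  have T := S.twSys W
  have h1 := mem_twY.mp hx
  have hnY : twT N x ∉ twY (2 * m) N := fun h => T.nat x hx (T.sub h)
  refine (W.twinPair hx).mono ?_ ?_ ?_
  · rw [thX_not hnY, thX_not hnY]
    exact S.th_le _ _
  · rw [thX_of hx, thX_not hnY]
  · rw [thX_not hnY]
    choose B hB using S.natTop W
    have hn : twT N x ∈ Nq m N v (topOf (twT N x)) := (S.natSys W).mem_iff.mpr ⟨T.nat x hx, rfl⟩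
    exact ((hB (topOf (twT N x))).data _ (S.natSys W) rfl _ _ (fun _ _ => rfl)
      (fun _ _ => Iff.rfl)).le (twT N x) (T.nat x hx) rfl

/-- bounded sums off the frozen set -/
theorem StarF.bounds (W : WM r m N b θ) (S : StarF m N b θ f v Nc co) (β : P → ℕ)
    (hβ : ∀ x, x ∉ Rq m N v → β x ≤ thX (twY (2 * m) N) (twT N)
      (fun x => tq m θ f Nc co (topOf x) x) x) (n : ℕ) (hn : n < Kb m - 1) :
    (1 + X : ℤ[X]) ^ ((lv P m).card - 1) ∣ ZB m (Rq m N v) 0 β n := by
  choose B hB using S.natTop W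
  have h := bounds_of_tops hB (S.twSys W) (Kb m - 1) (fun x hx => S.twinPair W hx) β hβ n hn
  have h2 := S.sum_b W
  rwa [show ∑ s, bq m b f s = (lv P m).card - 1 by omega] at h

end

end Pool.Agent.GaussPoset

end

/-! From `Pool.Agent.W_448s8_h76.SaP` -/

section

/-!
The two factors off the frozen set (MP_448cb3_co, S8).
-/

namespace Pool.Agent.GaussPoset

set_option linter.unusedSectionVars false

open Polynomial Finset

universe u

variable {P : Type u} [Fintype P] [PartialOrder P] [DecidableEq P]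

section Sub

variable {p : P → Prop} [DecidablePred p]

lemma card_sub' (q : P → Prop) [DecidablePred q] :
    (univ.filter (fun x : {x : P // p x} => q x)).card =
      (univ.filter (fun x : P => p x ∧ q x)).card := by
  classical
  rw [← Finset.card_map (Function.Embedding.subtype p)]
  congr 1
  ext x
  rw [mem_map, mem_filter]
  constructor
  · rintro ⟨y, hy, rfl⟩
    exact ⟨mem_univ _, y.2, (mem_filter.mp hy).2⟩
  · rintro ⟨-, h1, h2⟩
    exact ⟨⟨x, h1⟩, mem_filter.mpr ⟨mem_univ _, h2⟩, rfl⟩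

variable (hp : ∀ x y, x ≤ y → p x → p y)

include hp in
lemma nab_sub (z : {x : P // p x}) (l : ℕ) : nab l z = nab l (z : P) := by
  classical
  unfold nab lv
  rw [Finset.filter_filter, Finset.filter_filter]
  have h1 : (univ.filter (fun x : {x : P // p x} => lev x = l ∧ z ≤ x)) =
      (univ.filter (fun x : {x : P // p x} => lev (x : P) = l ∧ (z : P) ≤ x)) := by
    refine Finset.filter_congr fun x _ => ?_
    rw [lev_subtype hp]
    exact Iff.rfl
  rw [h1, card_sub' (p := p) (fun x : P => lev x = l ∧ (z : P) ≤ x)]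
  congr 1
  refine Finset.filter_congr fun x _ => ?_
  exact ⟨fun h => h.2, fun h => ⟨hp _ _ h.2 z.2, h⟩⟩

include hp in
lemma nst_sub (z : {x : P // p x}) (i k : ℕ) :
    nst i (fun _ => k) z = nst i (fun _ => k) (z : P) := by
  classical
  unfold nst
  have h1 : (univ.filter (fun x : {x : P // p x} => z ≤ x ∧ i ≤ lev x ∧ lev x < i + k)) =
      (univ.filter (fun x : {x : P // p x} => (z : P) ≤ x ∧ i ≤ lev (x : P) ∧
        lev (x : P) < i + k)) := by
    refine Finset.filter_congr fun x _ => ?_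
    rw [lev_subtype hp]
    exact Iff.rfl
  rw [h1, card_sub' (p := p) (fun x : P => (z : P) ≤ x ∧ i ≤ lev x ∧ lev x < i + k)]
  congr 1
  refine Finset.filter_congr fun x _ => ?_
  exact ⟨fun h => h.2, fun h => ⟨hp _ _ h.1 z.2, h⟩⟩

include hp in
lemma ct_sub (z : {x : P // p x}) (i k : ℕ) : ct i k z = ct i k (z : P) := by
  unfold ct
  rw [cst_eq, cst_eq, lev_subtype hp]
  exact Finset.sum_congr rfl fun l _ => by rw [nab_sub hp]

end Sub

lemma nst_congr {i : ℕ} {h h' : P → ℕ} {z : P} (e : h z = h' z) : nst i h z = nst i h' z := by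
  unfold nst
  rw [e]

variable {r m : ℕ} {N : Tops P → Finset P} {b : Tops P → ℕ} {θ : Tops P → P → ℕ}

lemma WM.top_iff (W : WM r m N b θ) {x : P} (hl : lev x ≤ 2 * m) (t : Tops P) :
    topOf x = t ↔ x ≤ (t : P) := by
  constructor
  · rintro rfl
    exact le_topOf x
  · intro h
    have hx : x ∈ N (topOf x) := W.natSys.mem_iff.mpr ⟨W.low hl, rfl⟩
    exact (Subtype.ext (W.natSys.top_eq hx t.2 h)).symm

section

variable {f v : P} {Nc : Finset P} {co : P → ℕ × ℕ}

/-- the elements off the frozen set -/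
abbrev QO (m : ℕ) (N : Tops P → Finset P) (v : P) : Type u := {x : P // x ∉ Rq m N v}

/-- the part below the top of `v` -/
abbrev QT (m : ℕ) (N : Tops P → Finset P) (v : P) : Type u :=
  {x : QO m N v // topOf (x : P) = topOf v}

/-- the rest -/
abbrev QR (m : ℕ) (N : Tops P → Finset P) (v : P) : Type u :=
  {x : QO m N v // ¬ topOf (x : P) = topOf v}

lemma StarF.cp (W : WM r m N b θ) (S : StarF m N b θ f v Nc co) {x y : P} (hxy : x ≤ y)
    (hx : x ∉ Rq m N v) : topOf x = topOf y :=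
  (S.twSys W).cp' (S.natSys W).cp x y hxy hx

lemma StarF.up (W : WM r m N b θ) (S : StarF m N b θ f v Nc co) :
    ∀ x y : P, x ≤ y → x ∉ Rq m N v → y ∉ Rq m N v :=
  fun x y hxy hx hy => hx (S.lower W x y hxy hy)

lemma StarF.upT (W : WM r m N b θ) (S : StarF m N b θ f v Nc co) :
    ∀ x y : QO m N v, x ≤ y → topOf (x : P) = topOf v → topOf (y : P) = topOf v :=
  fun x y hxy hx => (S.cp W hxy x.2).symm.trans hx

lemma StarF.upR (W : WM r m N b θ) (S : StarF m N b θ f v Nc co) :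
    ∀ x y : QO m N v, x ≤ y → ¬ topOf (x : P) = topOf v → ¬ topOf (y : P) = topOf v :=
  fun x y hxy hx hy => hx ((S.cp W hxy x.2).trans hy)

lemma StarF.levT (W : WM r m N b θ) (S : StarF m N b θ f v Nc co) (x : QT m N v) :
    lev x = lev (x.1.1 : P) := by
  rw [lev_subtype (S.upT W), lev_subtype (S.up W)]

lemma StarF.levR (W : WM r m N b θ) (S : StarF m N b θ f v Nc co) (x : QR m N v) :
    lev x = lev (x.1.1 : P) := by
  rw [lev_subtype (S.upR W), lev_subtype (S.up W)]

lemma StarF.nabR (W : WM r m N b θ) (S : StarF m N b θ f v Nc co) (x : QR m N v) (l : ℕ) :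
    nab l x = nab l (x.1.1 : P) := by
  rw [nab_sub (S.upR W), nab_sub (S.up W)]

lemma StarF.ctT (W : WM r m N b θ) (S : StarF m N b θ f v Nc co) (x : QT m N v) (i k : ℕ) :
    ct i k x = ct i k (x.1.1 : P) := by
  rw [ct_sub (S.upT W), ct_sub (S.up W)]

lemma StarF.ctR (W : WM r m N b θ) (S : StarF m N b θ f v Nc co) (x : QR m N v) (i k : ℕ) :
    ct i k x = ct i k (x.1.1 : P) := by
  rw [ct_sub (S.upR W), ct_sub (S.up W)]

lemma StarF.nstR (W : WM r m N b θ) (S : StarF m N b θ f v Nc co) (x : QR m N v) (i k : ℕ) :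
    nst i (fun _ => k) x = nst i (fun _ => k) (x.1.1 : P) := by
  rw [nst_sub (S.upR W), nst_sub (S.up W)]

lemma StarF.off (W : WM r m N b θ) (S : StarF m N b θ f v Nc co) {x : P} (hl : lev x ≤ 2 * m) :
    x ∉ Rq m N v := by
  intro h
  have := S.lev_Rq W h
  omega

lemma StarF.mem_T (W : WM r m N b θ) (S : StarF m N b θ f v Nc co) {x : P}
    (hx : x ∉ Rq m N v) (ht : topOf x = topOf v) : x ≤ (topOf v : P) ∧ lev x ≤ 2 * m := by
  refine ⟨by rw [← ht]; exact le_topOf x, ?_⟩
  by_contra hcon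
  exact hx ((S.mem_Rq W).mpr (Or.inr ⟨ht, by omega⟩))

/-- the bottom -/
noncomputable def StarF.vT (W : WM r m N b θ) (S : StarF m N b θ f v Nc co) : QT m N v :=
  ⟨⟨v, S.off W S.hlv.le⟩, rfl⟩

lemma StarF.vT_le (W : WM r m N b θ) (S : StarF m N b θ f v Nc co) (x : QT m N v) :
    S.vT W ≤ x := by
  have h1 := S.mem_T W x.1.2 x.2
  exact S.q.bot v (le_topOf v) S.hlv x.1.1 h1.1 h1.2

/-- the fold end -/
noncomputable def StarF.fR (W : WM r m N b θ) (S : StarF m N b θ f v Nc co) : QR m N v :=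
  ⟨⟨f, S.off W S.fold.lev.le⟩, S.ne⟩

/-- the component of `v` is a quadric strip -/
theorem StarF.isoT (W : WM r m N b θ) (S : StarF m N b θ f v Nc co) :
    Nonempty (QT m N v ≃o Qd (m + hh m) (m - hh m)) := by
  obtain ⟨e⟩ := S.q.iso
  have h1 : 2 * m - (m + hh m) = m - hh m := by omega
  rw [h1] at e
  let e2 : QT m N v ≃o {x : P // x ∈ lowPart (2 * m) (topOf v : P)} :=
    { toFun := fun x => ⟨x.1.1, mem_lowPart.mpr (S.mem_T W x.1.2 x.2)⟩
      invFun := fun x => ⟨⟨x.1, S.off W (mem_lowPart.mp x.2).2⟩,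
        (W.top_iff (mem_lowPart.mp x.2).2 _).mpr (mem_lowPart.mp x.2).1⟩
      left_inv := fun x => rfl
      right_inv := fun x => rfl
      map_rel_iff' := Iff.rfl }
  exact ⟨e2.trans e⟩

lemma StarF.card_top (W : WM r m N b θ) (S : StarF m N b θ f v Nc co) {l : ℕ} (hl : l < m + hh m) :
    (univ.filter (fun x : P => lev x = l ∧ topOf x = topOf v)).card = 1 := by
  classical
  have hm := W.ten
  have hh2 := hh_le m
  have h1 := S.q.cn l (by omega)
  rw [if_neg (by omega)] at h1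
  rw [← h1]
  unfold cn lv
  rw [Finset.filter_filter]
  congr 1
  refine Finset.filter_congr fun x _ => ?_
  refine and_congr_right fun h2 => ?_
  rw [W.top_iff (by omega)]

/-- the number of elements of level `m` in the rest -/
lemma StarF.lv_R (W : WM r m N b θ) (S : StarF m N b θ f v Nc co) :
    (lv (QR m N v) m).card + 1 = (lv P m).card := by
  classical
  have hm := W.ten
  have hh1 := hh_pos m
  have h1 := S.card_top W (l := m) (by omega)
  have h2 : (lv (QR m N v) m).card =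
      (univ.filter (fun x : P => lev x = m ∧ ¬ topOf x = topOf v)).card := by
    unfold lv
    have h3 : (univ.filter (fun x : QR m N v => lev x = m)) =
        (univ.filter (fun x : QR m N v => lev (x.1.1 : P) = m)) :=
      Finset.filter_congr fun x _ => by rw [S.levR W]
    rw [h3, card_sub' (p := fun x : QO m N v => ¬ topOf (x : P) = topOf v)
      (fun x : QO m N v => lev (x : P) = m),
      card_sub' (p := fun x : P => x ∉ Rq m N v)
        (fun x : P => ¬ topOf x = topOf v ∧ lev x = m)]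
    congr 1
    refine Finset.filter_congr fun x _ => ?_
    constructor
    · rintro ⟨-, h4, h5⟩
      exact ⟨h5, h4⟩
    · rintro ⟨h4, h5⟩
      exact ⟨S.off W (by omega), h5, h4⟩
  rw [h2, ← h1]
  have h3 := Finset.card_filter_add_card_filter_not (s := (univ : Finset P).filter
    (fun x => lev x = m)) (fun x => topOf x = topOf v)
  rw [Finset.filter_filter, Finset.filter_filter] at h3
  unfold lv
  omega

/-- the number of elements of level below `m` in the rest -/
lemma StarF.below_R (W : WM r m N b θ) (S : StarF m N b θ f v Nc co) :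
    below (QR m N v) m + m = below P m := by
  classical
  have hm := W.ten
  have hh1 := hh_pos m
  have h2 : below (QR m N v) m =
      (univ.filter (fun x : P => lev x < m ∧ ¬ topOf x = topOf v)).card := by
    unfold below
    have h3 : (univ.filter (fun x : QR m N v => lev x < m)) =
        (univ.filter (fun x : QR m N v => lev (x.1.1 : P) < m)) :=
      Finset.filter_congr fun x _ => by rw [S.levR W]
    rw [h3, card_sub' (p := fun x : QO m N v => ¬ topOf (x : P) = topOf v)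
      (fun x : QO m N v => lev (x : P) < m),
      card_sub' (p := fun x : P => x ∉ Rq m N v)
        (fun x : P => ¬ topOf x = topOf v ∧ lev x < m)]
    congr 1
    refine Finset.filter_congr fun x _ => ?_
    constructor
    · rintro ⟨-, h4, h5⟩
      exact ⟨h5, h4⟩
    · rintro ⟨h4, h5⟩
      exact ⟨S.off W (by omega), h5, h4⟩
  have h4 : (univ.filter (fun x : P => lev x < m ∧ topOf x = topOf v)).card = m := by
    have h5 := Finset.card_eq_sum_card_fiberwise (f := fun x : P => lev x)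
      (s := univ.filter (fun x : P => lev x < m ∧ topOf x = topOf v)) (t := range m)
      (fun x hx => by
        have := (mem_filter.mp hx).2.1
        exact mem_coe.mpr (mem_range.mpr this))
    rw [h5]
    have h6 : ∀ l ∈ range m, ((univ.filter (fun x : P => lev x < m ∧ topOf x = topOf v)).filter
        (fun x => lev x = l)).card = 1 := by
      intro l hl
      rw [mem_range] at hl
      rw [← S.card_top W (l := l) (by omega), Finset.filter_filter]
      congr 1
      refine Finset.filter_congr fun x _ => ?_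
      constructor
      · rintro ⟨⟨-, h7⟩, h8⟩
        exact ⟨h8, h7⟩
      · rintro ⟨h7, h8⟩
        exact ⟨⟨by omega, h8⟩, h7⟩
    rw [Finset.sum_congr rfl h6, Finset.sum_const, card_range, smul_eq_mul, mul_one]
  have h3 := Finset.card_filter_add_card_filter_not (s := (univ : Finset P).filter
    (fun x => lev x < m)) (fun x => topOf x = topOf v)
  rw [Finset.filter_filter, Finset.filter_filter] at h3
  rw [h2]
  unfold below
  omega

end

end Pool.Agent.GaussPoset

end

/-! From `Pool.Agent.W_448s14_h94.SgG` -/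

section

/-!
Elements of level 15 below the strip `La7`: codes, costs, types.
-/

namespace Pool.Agent.GaussPoset.Sg

set_option linter.unusedSectionVars false
set_option synthInstance.maxSize 1000

open Polynomial Finset Cl Dd Wd Win

universe u

variable {P : Type u} [Fintype P] [PartialOrder P] [DecidableEq P]

section Append

variable {n K : ℕ} {cv lv cx lx cv' lv' : ℕ → ℕ} {c z : ℕ → P}

lemma testBit_false {a n : ℕ} (h : a < 2 ^ n) {b : ℕ} (hb : n ≤ b) : a.testBit b = false :=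
  Nat.testBit_lt_two_pow (lt_of_lt_of_le h (Nat.pow_le_pow_right (by norm_num) hb))

/-- more cells -/
theorem cod_append (C : Cod n cv lv c) (hn : ∀ a < n, cv a < 2 ^ n) (hx : ∀ k < K, cx k < 2 ^ n)
    (h1 : ∀ a < n, cv' a = cv a) (h2 : ∀ a < n, lv' a = lv a)
    (h3 : ∀ k < K, cv' (n + k) = cx k) (h4 : ∀ k < K, lv' (n + k) = lx k)
    (hinj : ∀ a < K, ∀ b < K, z a = z b → a = b) (hne : ∀ a < n, ∀ b < K, c a ≠ z b)
    (hcov : ∀ k < K, ∀ y, z k ⋖ y ↔ ∃ b < n, (cx k).testBit b = true ∧ c b = y)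
    (hlev : ∀ k < K, GaussPoset.lev (z k) = lx k) :
    Cod (n + K) cv' lv' (fun a => if a < n then c a else z (a - n)) := by
  have hc1 : ∀ a, a < n → (if a < n then c a else z (a - n)) = c a := fun a ha => if_pos ha
  have hc2 : ∀ a, ¬ a < n → (if a < n then c a else z (a - n)) = z (a - n) := fun a ha => if_neg ha
  refine ⟨?_, ?_, ?_⟩
  · intro a ha b hb h
    by_cases han : a < n <;> by_cases hbn : b < n
    · rw [hc1 a han, hc1 b hbn] at h
      exact C.inj a han b hbn h
    · rw [hc1 a han, hc2 b hbn] at h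
      exact absurd h (hne a han _ (by omega))
    · rw [hc2 a han, hc1 b hbn] at h
      exact absurd h.symm (hne b hbn _ (by omega))
    · rw [hc2 a han, hc2 b hbn] at h
      have := hinj _ (by omega) _ (by omega) h
      omega
  · intro a ha y
    by_cases han : a < n
    · simp only [hc1 a han]
      rw [C.cov a han y, h1 a han]
      constructor
      · rintro ⟨b, hb, hbit, rfl⟩
        exact ⟨b, by omega, hbit, hc1 b hb⟩
      · rintro ⟨b, hb, hbit, rfl⟩
        have hbn : b < n := by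
          by_contra hcon
          rw [testBit_false (hn a han) (not_lt.mp hcon)] at hbit
          exact absurd hbit (by simp)
        exact ⟨b, hbn, hbit, (hc1 b hbn).symm⟩
    · simp only [hc2 a han]
      have e : cv' a = cx (a - n) := by
        have := h3 (a - n) (by omega)
        rwa [show n + (a - n) = a by omega] at this
      rw [hcov _ (by omega) y, e]
      constructor
      · rintro ⟨b, hb, hbit, rfl⟩
        exact ⟨b, by omega, hbit, hc1 b hb⟩
      · rintro ⟨b, hb, hbit, rfl⟩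
        have hbn : b < n := by
          by_contra hcon
          rw [testBit_false (hx _ (by omega)) (not_lt.mp hcon)] at hbit
          exact absurd hbit (by simp)
        exact ⟨b, hbn, hbit, (hc1 b hbn).symm⟩
  · intro a ha
    by_cases han : a < n
    · simp only [hc1 a han]
      rw [C.lev a han, h2 a han]
    · simp only [hc2 a han]
      have e := h4 (a - n) (by omega)
      rw [show n + (a - n) = a by omega] at e
      rw [hlev _ (by omega), e]

/-- the elements above a cell are cells -/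
lemma cod_above (C : Cod n cv lv c) {a : ℕ} (ha : a < n) {y : P} (hy : c a ≤ y) :
    ∃ b < n, c b = y := by
  classical
  have hup : Up ((range n).image c) := by
    refine Cl.up_of_cov fun x hx y hxy => ?_
    obtain ⟨b, hb, rfl⟩ := mem_image.mp hx
    obtain ⟨d, hd, -, rfl⟩ := (C.cov b (mem_range.mp hb) y).mp hxy
    exact mem_image_of_mem c (mem_range.mpr hd)
  obtain ⟨b, hb, h⟩ := mem_image.mp (hup _ (mem_image_of_mem c (mem_range.mpr ha)) y hy)
  exact ⟨b, mem_range.mp hb, h⟩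

/-- the cost of an element whose covers are coded -/
lemma cod_ct {um : ℕ → ℕ} (C : Cod n cv lv c) (hcv : ∀ a < n, cv a < 2 ^ a)
    (hum : ∀ a < n, um a = Nat.lor (2 ^ a) (orM um n (cv a))) {z : P} {m : ℕ}
    (hz : ∀ y, z ⋖ y ↔ ∃ b < n, m.testBit b = true ∧ c b = y) (i k : ℕ) :
    ct i k z = min k (GaussPoset.lev z - i) + ∑ b ∈ (range n).filter
      (fun b => (orM um n m).testBit b = true), min k (lv b - i) := by
  classical
  rw [ct_succ]
  congr 1
  have hlt : ∀ y, z < y ↔ ∃ b < n, (orM um n m).testBit b = true ∧ c b = y := by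
    intro y
    constructor
    · intro h
      obtain ⟨v, hv, hvy⟩ := Hul.exists_cov h
      obtain ⟨a, ha, hab, rfl⟩ := (hz v).mp hv
      obtain ⟨b, hb, rfl⟩ := cod_above C ha hvy
      exact ⟨b, hb, (orM_testBit _ _ _ _).mpr
        ⟨a, ha, hab, (C.le_iff le_rfl hcv hum ha hb).mp hvy⟩, rfl⟩
    · rintro ⟨b, hb, hbit, rfl⟩
      obtain ⟨a, ha, hab, h1⟩ := (orM_testBit _ _ _ _).mp hbit
      exact ((hz (c a)).mpr ⟨a, ha, hab, rfl⟩).lt.trans_le ((C.le_iff le_rfl hcv hum ha hb).mpr h1)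
  rw [← Finset.sum_filter]
  symm
  refine Finset.sum_bij (fun b _ => c b) ?_ ?_ ?_ ?_
  · intro b hb
    rw [mem_filter, mem_range] at hb
    rw [mem_filter]
    exact ⟨mem_univ _, (hlt _).mpr ⟨b, hb.1, hb.2, rfl⟩⟩
  · intro b hb b' hb' h
    rw [mem_filter, mem_range] at hb hb'
    exact C.inj b hb.1 b' hb'.1 h
  · intro y hy
    rw [mem_filter] at hy
    obtain ⟨b, hb, hbit, rfl⟩ := (hlt y).mp hy.2
    exact ⟨b, mem_filter.mpr ⟨mem_range.mpr hb, hbit⟩, rfl⟩
  · intro b hb
    rw [mem_filter, mem_range] at hb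
    rw [C.lev b hb.1]

end Append

/-! ### the strip `La7` -/

section La7

variable {r : ℕ} {t : P} {lo hi : ℕ → ℕ} {e : ℕ → ℕ → P}

/-- the cells of the strip -/
def ce (e : ℕ → ℕ → P) (a : ℕ) : P := e (La7lv.getD a 0) (La7sl.getD a 0)

lemma La7_cod (D : WordD 14 7 wa7 lo hi) (C : Cp.Comp 14 t lo hi e) (H : Gr P r)
    (hg : ∀ l, l < 14 → Win.Good P l) (ht : lev t = 0) :
    Cod 30 (fun a => La7cv.getD a 0) (fun a => La7lv.getD a 0) (ce e) := by
  obtain ⟨h1, h2⟩ := D.rows C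
  exact La7_strip.cod C H hg ht le_rfl h1 h2

lemma La7_surj (D : WordD 14 7 wa7 lo hi) (C : Cp.Comp 14 t lo hi e) {x : P}
    (hx : x ≤ t) (hl : lev x ≤ 14) : ∃ a < 30, ce e a = x := by
  obtain ⟨h1, h2⟩ := D.rows C
  exact La7_strip.surj' C le_rfl h1 h2 (mem_lowPart.mpr ⟨hx, hl⟩)

lemma La7_le (D : WordD 14 7 wa7 lo hi) (C : Cp.Comp 14 t lo hi e) {a : ℕ} (ha : a < 30) :
    ce e a ≤ t ∧ lev (ce e a) = La7lv.getD a 0 := by
  obtain ⟨h1, h2⟩ := D.rows C
  have h3 := La7_strip.row a ha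
  have h4 : La7lv.getD a 0 ≤ 14 := by
    have h : ∀ a < 30, La7lv.getD a 0 ≤ 14 := by decide +kernel
    exact h a ha
  rw [← h1 _ h4, ← h2 _ h4] at h3
  exact ⟨C.le_t _ _ h4 h3.1 h3.2, C.lev_e _ _ h4 h3.1 h3.2⟩

lemma La7_um : ∀ a < 30, La7um.getD a 0 = Nat.lor (2 ^ a)
    (orM (fun a => La7um.getD a 0) 30 (La7cv.getD a 0)) := by decide +kernel

/-- the masks of the elements of level 15 -/
def msk : List ℕ := [536870912, 268435456, 134217728, 67108864, 33554432, 805306368, 402653184,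
  201326592, 100663296, 570425344]

lemma msk_one : ∀ a < 30, 25 ≤ a → 2 ^ a ∈ msk := by decide +kernel

lemma msk_two : ∀ a < 30, ∀ b < 30, 25 ≤ a → 25 ≤ b → a ≠ b →
    (b = a + 1 ∨ a = b + 1 ∨ (a = 25 ∧ b = 29) ∨ (a = 29 ∧ b = 25)) →
    Nat.lor (2 ^ a) (2 ^ b) ∈ msk := by decide +kernel

lemma La7_lv14 : ∀ a < 30, La7lv.getD a 0 = 14 → 25 ≤ a := by decide +kernel

lemma La7_adj : ∀ a < 30, ∀ b < 30, 25 ≤ a → 25 ≤ b → a ≠ b →
    (∃ k < 30, (La7cv.getD a 0).testBit k = true ∧ (La7cv.getD b 0).testBit k = true) →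
    b = a + 1 ∨ a = b + 1 := by decide +kernel

lemma La7_two : ∀ a < 30, 25 ≤ a → a ≠ 25 → a ≠ 29 → ∃ k < 30, ∃ k' < 30, k ≠ k' ∧
    (La7cv.getD a 0).testBit k = true ∧ (La7cv.getD a 0).testBit k' = true := by decide +kernel

/-- **The elements of level 15 below the strip only.** -/
theorem La7_msk (D : WordD 14 7 wa7 lo hi) (C : Cp.Comp 14 t lo hi e) (hgt : GoodTo P r 14)
    (ht : lev t = 0) {z : P} (hz : lev z = 15) (hzt : ∀ y, z ⋖ y → y ≤ t) :
    ∃ m ∈ msk, ∀ y, z ⋖ y ↔ ∃ b < 30, m.testBit b = true ∧ ce e b = y := by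
  classical
  have hC := La7_cod D C hgt.H hgt.good ht
  have hlev : ∀ y, z ⋖ y → lev y = 14 := by
    intro y hy
    have := (hgt.H.covBy_iff.mp hy).2
    omega
  have hcell : ∀ y, z ⋖ y → ∃ a < 30, 25 ≤ a ∧ ce e a = y := by
    intro y hy
    obtain ⟨a, ha, rfl⟩ := La7_surj D C (hzt y hy) (hlev y hy).le
    refine ⟨a, ha, La7_lv14 a ha ?_, rfl⟩
    rw [← (La7_le D C ha).2]
    exact hlev _ hy
  rcases uc_card_cases hgt.H (x := z) (by omega) with h1 | h1
  · obtain ⟨y, hy⟩ := Finset.card_eq_one.mp h1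
    have hzy : ∀ y', z ⋖ y' ↔ y' = y := by
      intro y'
      rw [← mem_uc, hy, mem_singleton]
    obtain ⟨a, ha, ha25, rfl⟩ := hcell y ((hzy y).mpr rfl)
    refine ⟨2 ^ a, msk_one a ha ha25, fun y' => ?_⟩
    rw [hzy]
    constructor
    · rintro rfl
      exact ⟨a, ha, Nat.testBit_two_pow_self, rfl⟩
    · rintro ⟨b, hb, hbit, rfl⟩
      by_cases hab : a = b
      · rw [hab]
      · rw [Nat.testBit_two_pow_of_ne hab] at hbit
        exact absurd hbit (by simp)
  · obtain ⟨y, y', hne, hy⟩ := Finset.card_eq_two.mp h1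
    have hzy : ∀ w, z ⋖ w ↔ w = y ∨ w = y' := by
      intro w
      rw [← mem_uc, hy, mem_insert, mem_singleton]
    have c1 := (hzy y).mpr (Or.inl rfl)
    have c2 := (hzy y').mpr (Or.inr rfl)
    obtain ⟨a, ha, ha25, rfl⟩ := hcell y c1
    obtain ⟨b, hb, hb25, rfl⟩ := hcell y' c2
    have hab : a ≠ b := fun h => hne (by rw [h])
    have hadj : b = a + 1 ∨ a = b + 1 ∨ (a = 25 ∧ b = 29) ∨ (a = 29 ∧ b = 25) := by
      rcases (near_level' hgt (by norm_num)).1 z _ _ hz c1 c2 hne with h2 | ⟨h2, h3, -⟩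
      · have h4 : 0 < ucv (ce e a) (ce e b) := by omega
        unfold ucv at h4
        obtain ⟨u, hu⟩ := Finset.card_pos.mp h4
        rw [mem_filter] at hu
        obtain ⟨k, hk, hk1, hk2⟩ := (hC.cov a ha u).mp hu.2.1
        obtain ⟨k', hk', hk3, hk4⟩ := (hC.cov b hb u).mp hu.2.2
        have hkk : k' = k := hC.inj k' hk' k hk (hk4.trans hk2.symm)
        rw [hkk] at hk3
        rcases La7_adj a ha b hb ha25 hb25 hab ⟨k, hk, hk1, hk3⟩ with h5 | h5
        · exact Or.inl h5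
        · exact Or.inr (Or.inl h5)
      · have key : ∀ d < 30, 25 ≤ d → (Win.uc (ce e d)).card = 1 → d = 25 ∨ d = 29 := by
          intro d hd hd25 h4
          by_contra hcon
          push Not at hcon
          obtain ⟨k, hk, k', hk', hkk, b1, b2⟩ := La7_two d hd hd25 hcon.1 hcon.2
          obtain ⟨w, hw⟩ := Finset.card_eq_one.mp h4
          have e1 : ce e k ∈ Win.uc (ce e d) := mem_uc.mpr ((hC.cov d hd _).mpr ⟨k, hk, b1, rfl⟩)
          have e2 : ce e k' ∈ Win.uc (ce e d) := mem_uc.mpr ((hC.cov d hd _).mpr ⟨k', hk', b2, rfl⟩)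
          rw [hw, mem_singleton] at e1 e2
          exact hkk (hC.inj k hk k' hk' (e1.trans e2.symm))
        rcases key a ha ha25 h2 with h5 | h5 <;> rcases key b hb hb25 h3 with h6 | h6
        · omega
        · exact Or.inr (Or.inr (Or.inl ⟨h5, h6⟩))
        · exact Or.inr (Or.inr (Or.inr ⟨h5, h6⟩))
        · omega
    refine ⟨Nat.lor (2 ^ a) (2 ^ b), msk_two a ha b hb ha25 hb25 hab hadj, fun w => ?_⟩
    rw [hzy]
    have hbit : ∀ k, (Nat.lor (2 ^ a) (2 ^ b)).testBit k = true ↔ k = a ∨ k = b := by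
      intro k
      have h5 : (Nat.lor (2 ^ a) (2 ^ b)).testBit k = ((2 ^ a).testBit k || (2 ^ b).testBit k) :=
        Nat.testBit_or _ _ _
      rw [h5, Bool.or_eq_true]
      constructor
      · rintro (h | h)
        · left
          by_contra hne'
          rw [Nat.testBit_two_pow_of_ne (Ne.symm hne')] at h
          exact absurd h (by simp)
        · right
          by_contra hne'
          rw [Nat.testBit_two_pow_of_ne (Ne.symm hne')] at h
          exact absurd h (by simp)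
      · rintro (rfl | rfl)
        · exact Or.inl Nat.testBit_two_pow_self
        · exact Or.inr Nat.testBit_two_pow_self
    constructor
    · rintro (rfl | rfl)
      · exact ⟨a, ha, (hbit a).mpr (Or.inl rfl), rfl⟩
      · exact ⟨b, hb, (hbit b).mpr (Or.inr rfl), rfl⟩
    · rintro ⟨k, hk, hk2, rfl⟩
      rcases (hbit k).mp hk2 with rfl | rfl
      · exact Or.inl rfl
      · exact Or.inr rfl

/-- the cost of an element of level 15 -/
lemma La7_ct (D : WordD 14 7 wa7 lo hi) (C : Cp.Comp 14 t lo hi e) (hgt : GoodTo P r 14)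
    (ht : lev t = 0) {z : P} (hz : lev z = 15) {m : ℕ}
    (hm : ∀ y, z ⋖ y ↔ ∃ b < 30, m.testBit b = true ∧ ce e b = y) (k : ℕ) :
    ct 7 k z = min k 8 + ∑ b ∈ (range 30).filter
      (fun b => (orM (fun a => La7um.getD a 0) 30 m).testBit b = true),
        min k (La7lv.getD b 0 - 7) := by
  rw [cod_ct (La7_cod D C hgt.H hgt.good ht) La7_us.cv La7_um hm, hz]

/-- the costs of the labels two and three -/
lemma msk_cost : ∀ m ∈ msk, m.testBit 29 = false → (m = 33554432 ∨
    26 ≤ min 2 8 + ∑ b ∈ (range 30).filter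
      (fun b => (orM (fun a => La7um.getD a 0) 30 m).testBit b = true),
        min 2 (La7lv.getD b 0 - 7)) := by decide +kernel

/-- the pendant below the last cell -/
lemma msk_cost4 : 26 ≤ min 3 8 + ∑ b ∈ (range 30).filter
      (fun b => (orM (fun a => La7um.getD a 0) 30 33554432).testBit b = true),
        min 3 (La7lv.getD b 0 - 7) := by decide +kernel

end La7

end Pool.Agent.GaussPoset.Sg

end

/-! From `Pool.Agent.W_448s14_h94.SgH` -/

section

/-!
The strip `La7` with elements of level 15: local data and the value at the energy 25.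
-/

namespace Pool.Agent.GaussPoset.Sg

set_option linter.unusedSectionVars false
set_option synthInstance.maxSize 1000

open Polynomial Finset Cl Dd Wd Win

universe u

variable {P : Type u} [Fintype P] [PartialOrder P] [DecidableEq P]
variable {r : ℕ} {t : P} {lo hi : ℕ → ℕ} {e : ℕ → ℕ → P}

/-- the covers of `z` are the cells of the mask `m` -/
def Mk (e : ℕ → ℕ → P) (z : P) (m : ℕ) : Prop :=
  lev z = 15 ∧ ∀ y, z ⋖ y ↔ ∃ b < 30, m.testBit b = true ∧ ce e b = y

/-- the cells with more elements -/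
def cz (e : ℕ → ℕ → P) (z : ℕ → P) (a : ℕ) : P := if a < 30 then ce e a else z (a - 30)

lemma cz_29 (z : ℕ → P) : cz e z 29 = ce e 29 := if_pos (by norm_num)

lemma La7_cv30 : ∀ a < 30, La7cv.getD a 0 < 2 ^ 30 := by decide +kernel

/-- the code of the strip with more elements -/
theorem La7_ext (D : WordD 14 7 wa7 lo hi) (C : Cp.Comp 14 t lo hi e) (hgt : GoodTo P r 14)
    (ht : lev t = 0) {K : ℕ} {z : ℕ → P} {cx : ℕ → ℕ} {cvL lvL : List ℕ}
    (h1 : ∀ a < 30, cvL.getD a 0 = La7cv.getD a 0) (h2 : ∀ a < 30, lvL.getD a 0 = La7lv.getD a 0)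
    (h3 : ∀ k < K, cvL.getD (30 + k) 0 = cx k) (h4 : ∀ k < K, lvL.getD (30 + k) 0 = 15)
    (hx : ∀ k < K, cx k < 2 ^ 30) (hinj : ∀ a < K, ∀ b < K, z a = z b → a = b)
    (hz : ∀ k < K, Mk e (z k) (cx k)) :
    Cod (30 + K) (fun a => cvL.getD a 0) (fun a => lvL.getD a 0) (cz e z) := by
  have hC := La7_cod D C hgt.H hgt.good ht
  refine cod_append hC La7_cv30 hx h1 h2 h3 h4 hinj ?_ (fun k hk => (hz k hk).2)
    (fun k hk => (hz k hk).1)
  intro a ha b hb h
  have h5 := (La7_le D C ha).2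
  rw [h, (hz b hb).1] at h5
  have h6 : ∀ a < 30, La7lv.getD a 0 ≤ 14 := by decide +kernel
  have := h6 a ha
  omega

/-- the elements of the extended strip -/
lemma La7_mem (D : WordD 14 7 wa7 lo hi) (C : Cp.Comp 14 t lo hi e) {K : ℕ} {z : ℕ → P}
    {A : Finset P} (hA : ∀ x, x ∈ A ↔ ∃ k < K, z k = x) (x : P) :
    x ∈ lowPart 14 t ∪ A ↔ ∃ a < 30 + K, cz e z a = x := by
  classical
  rw [mem_union, hA]
  constructor
  · rintro (h | ⟨k, hk, rfl⟩)
    · rw [mem_lowPart] at h
      obtain ⟨a, ha, rfl⟩ := La7_surj D C h.1 h.2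
      exact ⟨a, by omega, if_pos ha⟩
    · refine ⟨30 + k, by omega, ?_⟩
      unfold cz
      rw [if_neg (by omega), Nat.add_sub_cancel_left]
  · rintro ⟨a, ha, rfl⟩
    by_cases h : a < 30
    · left
      have h1 := La7_le D C h
      have h6 : ∀ a < 30, La7lv.getD a 0 ≤ 14 := by decide +kernel
      have := h6 a h
      rw [mem_lowPart]
      unfold cz
      rw [if_pos h]
      exact ⟨h1.1, by omega⟩
    · right
      refine ⟨a - 30, by omega, ?_⟩
      unfold cz
      rw [if_neg h]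

/-- counting the elements of a coded set by the level -/
lemma cod_count {n : ℕ} {cv lv : ℕ → ℕ} {c : ℕ → P} (C : Cod n cv lv c) {S : Finset P}
    (hS : ∀ y, y ∈ S ↔ ∃ a < n, c a = y) (g : ℕ → Prop) [DecidablePred g] :
    (univ.filter (fun y : {y : P // y ∈ S} => g (GaussPoset.lev y))).card =
      ((range n).filter (fun a => g (lv a))).card := by
  classical
  have hup : Up S := by
    intro x hx y hxy
    rw [hS] at hx ⊢
    obtain ⟨a, ha, rfl⟩ := hx
    exact cod_above C ha hxy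
  have hlv : ∀ y : {y : P // y ∈ S}, GaussPoset.lev y = GaussPoset.lev (y : P) :=
    lev_subtype (p := fun y => y ∈ S) (fun x y hxy hx => hup x hx y hxy)
  rw [Finset.card_filter, Finset.card_filter]
  have h1 : S = (range n).image c := by
    ext x
    rw [hS, mem_image]
    simp only [mem_range]
  have h2 : ∑ y : {y : P // y ∈ S}, (if g (GaussPoset.lev (y : P)) then 1 else 0)
      = ∑ y ∈ S, (if g (GaussPoset.lev y) then 1 else 0) :=
    Finset.sum_coe_sort S (fun y => if g (GaussPoset.lev y) then 1 else 0)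
  have h3 : ∑ y : {y : P // y ∈ S}, (if g (GaussPoset.lev y) then 1 else 0) =
      ∑ y : {y : P // y ∈ S}, (if g (GaussPoset.lev (y : P)) then 1 else 0) :=
    Finset.sum_congr rfl fun y _ => by rw [hlv]
  rw [h3, h2, h1, Finset.sum_image]
  · refine Finset.sum_congr rfl fun a ha => ?_
    rw [C.lev a (mem_range.mp ha)]
  · intro a ha b hb h
    exact C.inj a (mem_range.mp (Finset.mem_coe.mp ha)) b
      (mem_range.mp (Finset.mem_coe.mp hb)) h

/-- the value of a complete coded set with the value `-c` -/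
theorem full_pl {n N : ℕ} {cv lv : ℕ → ℕ} {c : ℕ → P} (C : Cod n cv lv c) {Us : List ℕ}
    (hU : UsOK N cv Us) (hn : n ≤ N) {B K : ℕ} {PL : List (ℕ × ℕ × ℕ × ℕ × ℕ)}
    (h : polC N B K Us 7 PL = true) {x : ℕ × ℕ × ℕ × ℕ × ℕ} (hx : x ∈ PL) (hJ : x.1 ∈ Us)
    (hJn : x.1 = 2 ^ n - 1) (hnum : numC N K 7 25 lv x = true)
    (hs : sgn x.2.1 x.2.2.1 7 = -1) {S : Finset P} (hS : ∀ y, y ∈ S ↔ ∃ a < n, c a = y)
    (h7 : ((range n).filter (fun a => lv a < 7)).card = 7)
    (h8 : ((range n).filter (fun a => lv a = 7)).card = 2)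
    {f : Polynomial (PowerSeries ℤ)} (hf : ∀ n, exq n f = Z {y : P // y ∈ S} 7 n) :
    Pl 25 2 (x.2.2.2.2 : ℤ) f := by
  classical
  have hbits : ∀ a < n, x.1.testBit a = true := by
    intro a ha
    rw [hJn]
    rw [Nat.testBit_two_pow_sub_one]
    simpa using ha
  have hSe : toS n c x.1 = S := by
    ext y
    rw [mem_toS, hS]
    constructor
    · rintro ⟨a, ha, -, h1⟩
      exact ⟨a, ha, h1⟩
    · rintro ⟨a, ha, h1⟩
      exact ⟨a, ha, hbits a ha, h1⟩
  have hJ2 : x.1 < 2 ^ n := by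
    have : 0 < 2 ^ n := Nat.two_pow_pos n
    omega
  have h10 := cod_val C hU hn h hx hJ hJ2 hnum
  rw [hSe] at h10
  obtain ⟨h11, s, h12, h13⟩ := h10
  rw [hs] at h13
  have hbelow : below {y : P // y ∈ S} 7 = 7 := by
    unfold below
    rw [cod_count C hS (fun l => l < 7)]
    exact h7
  have hlv7 : (GaussPoset.lv {y : P // y ∈ S} 7).card = 2 := by
    unfold GaussPoset.lv
    rw [cod_count C hS (fun l => l = 7)]
    exact h8
  have h0 : exq 0 f = X ^ 7 * (1 + X) ^ 2 := by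
    rw [hf, Z_zero, hbelow, hlv7]
  refine ⟨fun m hm => ?_, by norm_num, X ^ 7, s, by rw [h0, mul_comm], ?_, ?_, ?_⟩
  · rw [hf]
    exact h11 m hm
  · rw [eval_pow, eval_X]
    norm_num
  · rw [hf, h12]
    simp
  · rw [h13, eval_pow, eval_X]
    norm_num

/-- order two also at the energy 25 -/
theorem zero_pl {b : ℕ} (hb : 1 ≤ b) {S : Finset P}
    (h : ∀ n < 26, (1 + X : ℤ[X]) ^ b ∣ Z {y : P // y ∈ S} 7 n) {v : ℤ[X]}
    (hv : Z {y : P // y ∈ S} 7 0 = (1 + X) ^ b * v) (hv1 : v.eval (-1) ≠ 0)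
    {f : Polynomial (PowerSeries ℤ)} (hf : ∀ n, exq n f = Z {y : P // y ∈ S} 7 n) :
    Pl 25 b 0 f := by
  refine ⟨fun m hm => ?_, hb, v, 0, by rw [hf, hv], hv1, ?_, ?_⟩
  · rw [hf]
    exact h m (by omega)
  · rw [mul_zero, sub_zero, hf]
    exact h 25 (by omega)
  · rw [eval_zero, zero_mul]

/-- what is used about an extended strip: local data, the value at the energy 25, the thresholds
of the cells and of the other elements -/
structure Ext (e : ℕ → ℕ → P) (S A : Finset P) (θ : P → ℕ) (ρ : ℤ) : Prop where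
  loc : LocL 7 2 25 S θ (fun x => x = ce e 29)
  pl : ∀ f : Polynomial (PowerSeries ℤ), (∀ n, exq n f = Z {y : P // y ∈ S} 7 n) → Pl 25 2 ρ f
  one : ∀ a, 26 ≤ a → a < 29 → 1 ≤ θ (ce e a)
  four : 1 ≤ θ (ce e 25)
  ex : ∀ x ∈ A, ∃ m ∈ [805306368, 570425344, 33554432], Mk e x m ∧ 1 ≤ θ x ∧
    (m = 33554432 → 2 ≤ θ x)

section Pats

variable (D : WordD 14 7 wa7 lo hi) (C : Cp.Comp 14 t lo hi e) (hgt : GoodTo P r 14)
  (ht : lev t = 0)

include D C hgt ht in
/-- elements below the first two cells only -/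
theorem pat_a {K : ℕ} (hK : K ≤ 2) {z : ℕ → P} (hinj : ∀ a < K, ∀ b < K, z a = z b → a = b)
    (hz : ∀ k < K, Mk e (z k) 805306368) {A : Finset P} (hA : ∀ x, x ∈ A ↔ ∃ k < K, z k = x) :
    ∃ θ : P → ℕ, Ext e (lowPart 14 t ∪ A) A θ 0 ∧ 2 ≤ θ (ce e 25) := by
  have g3 : ∀ k < 2, Pacv.getD (30 + k) 0 = 805306368 := by decide +kernel
  have g4 : ∀ k < 2, Palv.getD (30 + k) 0 = 15 := by decide +kernel
  have hcod := La7_ext D C hgt ht (K := K) (z := z) (cx := fun _ => 805306368) (cvL := Pacv)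
    (lvL := Palv) (by decide +kernel) (by decide +kernel) (fun k hk => g3 k (by omega))
    (fun k hk => g4 k (by omega)) (fun _ _ => by norm_num) hinj hz
  have hS := La7_mem D C (z := z) hA
  have hl : LocL 7 2 26 (lowPart 14 t ∪ A) (thI (30 + K) (cz e z) (fun a => Path.getD a 0))
      (fun x => x = cz e z 29) :=
    cod_locL' hcod Pa_us (by omega) Pa_th (by omega) hS Pa_pol Pa_low
      (fun x hx => List.mem_append_left _ hx) Pa_bm
      (lt_of_lt_of_le (by norm_num) (Nat.pow_le_pow_right (by norm_num) (show 30 ≤ 30 + K by omega)))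
  rw [cz_29] at hl
  have hth : ∀ a < 30, thI (30 + K) (cz e z) (fun a => Path.getD a 0) (ce e a) =
      Path.getD a 0 := by
    intro a ha
    have h1 := thI_c hcod (fun a => Path.getD a 0) (a := a) (by omega)
    rwa [show cz e z a = ce e a from if_pos ha] at h1
  have hth' : ∀ k < K, thI (30 + K) (cz e z) (fun a => Path.getD a 0) (z k) =
      Path.getD (30 + k) 0 := by
    intro k hk
    have h1 := thI_c hcod (fun a => Path.getD a 0) (a := 30 + k) (by omega)
    rwa [show cz e z (30 + k) = z k by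
      unfold cz; rw [if_neg (by omega), Nat.add_sub_cancel_left]] at h1
  refine ⟨_, ⟨⟨fun U h1 h2 h3 h4 n hn => hl.clean U h1 h2 h3 h4 n (by omega), hl.lev, hl.base,
    hl.step, hl.le⟩, ?_, ?_, ?_, ?_⟩, ?_⟩
  · intro f hf
    have hup : ∀ x ∈ lowPart 14 t ∪ A, ∀ y, x ≤ y → y ∈ lowPart 14 t ∪ A := by
      intro x hx y hxy
      rw [hS] at hx ⊢
      obtain ⟨a, ha, rfl⟩ := hx
      exact cod_above hcod ha hxy
    have h7 : ∀ K ≤ 2, ((range (30 + K)).filter (fun a => Palv.getD a 0 < 7)).card = 7 ∧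
        ((range (30 + K)).filter (fun a => Palv.getD a 0 = 7)).card = 2 := by decide +kernel
    refine zero_pl (by norm_num) (fun n hn => hl.clean _ (Finset.Subset.refl _) hup
      (fun x hx _ => hx) (fun x hx _ => hx) n hn) (v := X ^ 7) ?_ ?_ hf
    · rw [Z_zero, mul_comm]
      have hbelow : below {y : P // y ∈ lowPart 14 t ∪ A} 7 = 7 := by
        unfold below
        rw [cod_count hcod hS (fun l => l < 7)]
        exact (h7 K hK).1
      have hlv7 : (GaussPoset.lv {y : P // y ∈ lowPart 14 t ∪ A} 7).card = 2 := by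
        unfold GaussPoset.lv
        rw [cod_count hcod hS (fun l => l = 7)]
        exact (h7 K hK).2
      rw [hbelow, hlv7]
    · rw [eval_pow, eval_X]
      norm_num
  · intro a h1 h2
    rw [hth a (by omega)]
    have h3 : ∀ a < 29, 26 ≤ a → 1 ≤ Path.getD a 0 := by decide +kernel
    exact h3 a h2 h1
  · rw [hth 25 (by norm_num)]
    decide +kernel
  · intro x hx
    obtain ⟨k, hk, rfl⟩ := (hA x).mp hx
    refine ⟨805306368, by decide, hz k hk, ?_, fun h => absurd h (by norm_num)⟩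
    rw [hth' k hk]
    have h3 : ∀ k < 2, 1 ≤ Path.getD (30 + k) 0 := by decide +kernel
    exact h3 k (by omega)
  · rw [hth 25 (by norm_num)]
    decide +kernel

end Pats

end Pool.Agent.GaussPoset.Sg

end

/-! From `Pool.Agent.W_448w7_h94.WiA` -/

section

/-!
Level 14, window 7 (MP_448cb3_co, S7, S8, `j = 14`): the interfaces.

`Sp`: a component with an anchor `c` of level 15 and the label 2.
`Kd`: the kinds of the elements of level 16 below the anchor.
`JA`, `JB`: the elements of level 15 below a strip `La7`.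
-/

namespace Pool.Agent.GaussPoset.W7

set_option linter.unusedSectionVars false

open Polynomial Finset Cl Dd Wd Win

universe u

variable {P : Type u} [Fintype P] [PartialOrder P] [DecidableEq P]

/-- a component `t` with an anchor `c`; `D` are the elements whose joins with `c` are clean -/
structure Sp (i n1 : ℕ) (R : Finset P) (θ : P → ℕ) (t : Tops P) (c : P) (D : Finset P) :
    Prop where
  gr : GradedBelow P
  low : ∀ x y : P, x ≤ y → y ∈ R → x ∈ R
  lR : ∀ x ∈ R, i + 7 < lev x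
  hcp : ∀ x y : P, x ≤ y → x ∉ R → topOf x = topOf y
  bd : ∀ β : P → ℕ, (∀ x, x ∉ R → β x ≤ θ x) → ∀ n < n1,
    (1 + X : ℤ[X]) ^ (lv P i).card ∣ ZB i R 0 β n
  two : (univ.filter (fun x : P => lev x = i ∧ topOf x = t)).card = 2
  bel : (univ.filter (fun x : P => lev x < i ∧ topOf x = t)).card = i
  clT : ∀ L : Finset P, (∀ x, x ∈ L ↔ x ∉ R ∧ topOf x = t) → ∀ n < n1,
    (1 + X : ℤ[X]) ^ 2 ∣ Z {x // x ∈ L} i n
  cR : c ∉ R
  cpc : topOf c = t
  clev : lev c = i + 8
  cct : ct i 2 c = 28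
  thc : θ c = 1
  out : ∀ x, x ∉ R → topOf x = t → ¬ c ≤ x → i + 2 ≤ lev x
  cls : ∀ L : Finset P, (∀ x ∈ L, x ∉ R ∧ topOf x = t) → (∀ x ∈ L, ∀ y, x ≤ y → y ∈ L) → c ∈ L →
    ∀ n < 2, (1 + X : ℤ[X]) ^ 2 ∣ Z {x // x ∈ L} (i + 2) n
  cls2 : ∀ L : Finset P, (∀ x ∈ L, x ∉ R ∧ topOf x = t) → (∀ x ∈ L, ∀ y, x ≤ y → y ∈ L) → c ∈ L →
    (∃ d ∈ D, d ∈ L) → ∀ n < 12, (1 + X : ℤ[X]) ^ 2 ∣ Z {x // x ∈ L} (i + 2) n
  ld : ∀ L : Finset P, (∀ x, x ∈ L ↔ c ≤ x) →
    (1 + X : ℤ[X]) ^ 2 ∣ Z {x // x ∈ L} (i + 2) 2 + X ^ 13 * (1 + X)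

/-- the kinds of an element `z` below the anchor `c` at the energy `n`: `p` says that `z` has a
pole at the energy `n`, of the sign of `X ^ k` -/
inductive Kd (i : ℕ) (R : Finset P) (θ : P → ℕ) (t : Tops P) (c : P) (D : Finset P) (n : ℕ)
    (z : P) (p : Prop) (k : ℕ) : Prop
  | P (h1 : ∀ y, z ⋖ y → y = c) (h2 : n ≤ 32) (h3 : p ↔ n = 32)
      (h4 : p → k = below P i + i)
  | O (d : P) (h1 : d ∈ D) (h2 : z ⋖ d) (h3 : 40 ≤ ct i 2 z) (h4 : n < 52) (h5 : ¬ p)
      (h6 : ∀ y, z ⋖ y → y = c ∨ y = d)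
  | X (v : P) (h1 : z ⋖ v) (h2 : ∀ y, z ⋖ y → y = c ∨ y = v) (h3 : v ∉ R) (h4 : topOf v ≠ t)
      (h5 : 2 ≤ θ v) (h6 : n ≤ 32 + ct i 2 v) (h7 : p ↔ n = 32 + ct i 2 v)
      (h8 : p → nab (i + 2) v = nab i v ∧ k = below P i + i + nst i (fun _ => 2) v)
  | Y (h1 : ∀ g : P → ℕ, (∀ x, x ∉ R → g x = 0) → 2 ≤ g z →
        (∀ y ∈ R, ∀ x, x ∉ R → y ⋖ x → topOf x = t → g y ≤ 2) →
        (∀ y ∈ R, ∀ x, x ∉ R → y ⋖ x → topOf x ≠ t → g y ≤ θ x) →
        (1 + Polynomial.X : ℤ[X]) ^ (lv P i).card ∣ ZB i R g 0 n) (h2 : ¬ p)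

/-- the elements of level 15 below the strip `La7` (`y0, …, y4` are the cells `25, …, 29`): a
pendant of `y1`, elements below `y2, y3` and below `y3, y4`, perhaps an element below `y1, y2` -/
structure JA (e : ℕ → ℕ → P) (A : Finset P) (c : P) : Prop where
  cA : c ∈ A
  hc : Sg.Mk e c 805306368
  hp : ∃ x ∈ A, Sg.Mk e x 67108864
  h23 : ∃ x ∈ A, Sg.Mk e x 402653184
  all : ∀ x ∈ A, Sg.Mk e x 67108864 ∨ Sg.Mk e x 201326592 ∨ Sg.Mk e x 402653184 ∨
    Sg.Mk e x 805306368
  uniq : ∀ x ∈ A, ∀ y ∈ A, ∀ m, Sg.Mk e x m → Sg.Mk e y m → x = y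

/-- the other pattern: a pendant of `y1`, an element below `y1, y2`, two elements below
`y3, y4` -/
structure JB (e : ℕ → ℕ → P) (A : Finset P) (c c' : P) : Prop where
  cA : c ∈ A
  cA' : c' ∈ A
  ne : c ≠ c'
  hc : Sg.Mk e c 805306368
  hc' : Sg.Mk e c' 805306368
  hp : ∃ x ∈ A, Sg.Mk e x 67108864
  h12 : ∃ x ∈ A, Sg.Mk e x 201326592
  all : ∀ x ∈ A, Sg.Mk e x 67108864 ∨ Sg.Mk e x 201326592 ∨ x = c ∨ x = c'
  uniq : ∀ x ∈ A, ∀ y ∈ A, ∀ m, m = 67108864 ∨ m = 201326592 → Sg.Mk e x m → Sg.Mk e y m → x = y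

/-- the thresholds of the strip with the elements of level 15 -/
structure ThA (e : ℕ → ℕ → P) (A : Finset P) (θ : P → ℕ) : Prop where
  y0 : θ (Sg.ce e 25) = 4
  y1 : θ (Sg.ce e 26) = 3
  y2 : θ (Sg.ce e 27) = 2
  y3 : θ (Sg.ce e 28) = 1
  y4 : θ (Sg.ce e 29) = 0
  p1 : ∀ x ∈ A, Sg.Mk e x 67108864 → θ x = 4
  c12 : ∀ x ∈ A, Sg.Mk e x 201326592 → θ x = 3
  c23 : ∀ x ∈ A, Sg.Mk e x 402653184 → θ x = 2
  c34 : ∀ x ∈ A, Sg.Mk e x 805306368 → θ x = 1

/-- the component `E7` at the window 7, energies up to 50 -/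
structure Oth (N : Tops P → Finset P) (t : Tops P) (θ : P → ℕ) : Prop where
  h1 : ∃ B, Sg.LocL 7 2 51 (N t) θ B
  h2 : lowPart 14 (t : P) ⊆ N t
  h3 : ∀ x ∈ N t, x ≤ (t : P)
  h4 : ∀ x ∈ N t, ∀ y, x ≤ y → y ∈ N t
  h5 : ∀ v w, v ≤ (t : P) → w ≤ (t : P) → lev v = 14 → lev w = 14 → v = w
  h6 : ∀ z v, lev z = 15 → v ≤ (t : P) → lev v = 14 → Pend z v → z ∈ N t
  h7 : ∀ v, v ≤ (t : P) → lev v = 14 → Fi.Prof 7 v (Fi.gD F6.pE) ∧ θ v = 3 ∧ (Win.uc v).card = 1
  h8 : cn 2 (t : P) ≤ 1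
  h9 : ∀ z ∈ unnat N, ∀ x ∈ N t, 15 ≤ lev x → z ⋖ x → 51 ≤ ct 7 (θ x + 1) z
  h10 : ∀ z ∈ unnat N, ∀ x ∈ N t, lev x = 15 → ¬ ∀ w, x < w ↔ z < w

/-- the profile of an element of level 15: straight, or one extra element, or dear -/
def Ep (v : P) : Prop :=
  (∀ l, 7 ≤ l → l ≤ 14 → nab l v = 1) ∨
  (∃ l, 8 ≤ l ∧ l ≤ 14 ∧ nab l v = 2 ∧ ∀ l', 7 ≤ l' → l' ≤ 14 → l' ≠ l → nab l' v = 1) ∨
  (19 ≤ ct 7 2 v ∧ nab 7 v ≤ nab 9 v) ∨ 21 ≤ ct 7 2 v

end Pool.Agent.GaussPoset.W7

end

/-! From `Pool.Agent.W_448w7_h22.XfB` -/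

section

/-!
A frozen lower set with a component map: the two factors off the frozen set
(MP_448cb3_co, S8, `j = 14`, window 7).
-/

namespace Pool.Agent.GaussPoset.W7

set_option linter.unusedSectionVars false

open Polynomial Finset Fi

universe u

variable {P : Type u} [Fintype P] [PartialOrder P] [DecidableEq P]
variable {ι : Type*} [DecidableEq ι]

/-- the elements off the frozen set -/
abbrev FO (R : Finset P) : Type u := {x : P // x ∉ R}

/-- the component `t` -/
abbrev FT (R : Finset P) (cp : P → ι) (t : ι) : Type u := {x : FO R // cp (x : P) = t}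

/-- the rest -/
abbrev FR (R : Finset P) (cp : P → ι) (t : ι) : Type u := {x : FO R // ¬ cp (x : P) = t}

/-- a frozen lower set with a component map and bounded sums of full order -/
structure Frz (i K : ℕ) (R : Finset P) (cp : P → ι) (θ : P → ℕ) : Prop where
  gr : GradedBelow P
  low : ∀ x y : P, x ≤ y → y ∈ R → x ∈ R
  cp : ∀ x y : P, x ≤ y → x ∉ R → cp x = cp y
  bd : ∀ β : P → ℕ, (∀ x, x ∉ R → β x ≤ θ x) → ∀ n < K,
    (1 + X : ℤ[X]) ^ (lv P i).card ∣ ZB i R 0 β n

variable {i k p K B0 : ℕ} {R : Finset P} {cp : P → ι} {θ : P → ℕ} {t : ι} {c : P} {σ : ℤ}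

lemma Frz.up (F : Frz i K R cp θ) : ∀ x y : P, x ≤ y → x ∉ R → y ∉ R :=
  fun x y hxy hx hy => hx (F.low x y hxy hy)

lemma Frz.upT (F : Frz i K R cp θ) (t : ι) :
    ∀ x y : FO R, x ≤ y → cp (x : P) = t → cp (y : P) = t :=
  fun x y hxy hx => (F.cp _ _ hxy x.2).symm.trans hx

lemma Frz.upR (F : Frz i K R cp θ) (t : ι) :
    ∀ x y : FO R, x ≤ y → ¬ cp (x : P) = t → ¬ cp (y : P) = t :=
  fun x y hxy hx hy => hx ((F.cp _ _ hxy x.2).trans hy)

lemma Frz.levT (F : Frz i K R cp θ) (x : FT R cp t) : lev x = lev (x.1.1 : P) := by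
  rw [lev_subtype (F.upT t), lev_subtype F.up]

lemma Frz.levR (F : Frz i K R cp θ) (x : FR R cp t) : lev x = lev (x.1.1 : P) := by
  rw [lev_subtype (F.upR t), lev_subtype F.up]

lemma Frz.nabR (F : Frz i K R cp θ) (x : FR R cp t) (l : ℕ) :
    GaussPoset.nab l x = GaussPoset.nab l (x.1.1 : P) := by
  rw [nab_sub (F.upR t), nab_sub F.up]

lemma Frz.ctT (F : Frz i K R cp θ) (x : FT R cp t) (i' k' : ℕ) :
    GaussPoset.ct i' k' x = GaussPoset.ct i' k' (x.1.1 : P) := by
  rw [ct_sub (F.upT t), ct_sub F.up]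

lemma Frz.ctR (F : Frz i K R cp θ) (x : FR R cp t) (i' k' : ℕ) :
    GaussPoset.ct i' k' x = GaussPoset.ct i' k' (x.1.1 : P) := by
  rw [ct_sub (F.upR t), ct_sub F.up]

lemma Frz.nstR (F : Frz i K R cp θ) (x : FR R cp t) (i' k' : ℕ) :
    nst i' (fun _ => k') x = nst i' (fun _ => k') (x.1.1 : P) := by
  rw [nst_sub (F.upR t), nst_sub F.up]

/-- the product formula -/
lemma Frz.prod (F : Frz i K R cp θ) (hlev : ∀ x ∈ R, i < lev x) (t : ι) (β : P → ℕ) (n : ℕ) :
    ZB i R 0 β n = ∑ ab ∈ antidiagonal n,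
      ZB (P := FT R cp t) i ∅ 0 (fun x => β x.1.1) ab.1 *
      ZB (P := FR R cp t) i ∅ 0 (fun x => β x.1.1) ab.2 := by
  rw [ZB_off_bound F.low hlev]
  exact ZB_prod (fun x : FO R => cp (x : P) = t)
    (fun x y hxy => by rw [F.cp _ _ hxy x.2]) i (fun x : FO R => β x) n

/-- up-closed sets of the component -/
theorem Frz.Z_T (F : Frz i K R cp θ) {L : Finset (FT R cp t)}
    (hL : ∀ x y, x ≤ y → x ∈ L → y ∈ L) :
    ∃ L' : Finset P, (∀ x ∈ L', ∀ y, x ≤ y → y ∈ L') ∧
      (∀ x : FT R cp t, x ∈ L ↔ x.1.1 ∈ L') ∧ (∀ x ∈ L', x ∉ R ∧ cp x = t) ∧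
      ∀ i' n, Z {x // x ∈ L} i' n = Z {x // x ∈ L'} i' n := by
  classical
  let φ : FT R cp t → P := fun x => x.1.1
  have hφ : ∀ x y, φ x ≤ φ y ↔ x ≤ y := fun x y => Iff.rfl
  have hm : ∀ y, y ∈ L.image φ ↔ ∃ x ∈ L, φ x = y := fun y => mem_image
  refine ⟨L.image φ, ?_, ?_, ?_, fun i' n => StA_Z_image hφ hm i' n⟩
  · intro y hy z hyz
    obtain ⟨x, hx, rfl⟩ := (hm y).mp hy
    have h1 : z ∉ R := F.up _ _ hyz x.1.2
    have h2 : cp z = t := (F.cp _ _ hyz x.1.2).symm.trans x.2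
    exact (hm z).mpr ⟨⟨⟨z, h1⟩, h2⟩, hL x _ hyz hx, rfl⟩
  · intro x
    rw [hm]
    constructor
    · intro h
      exact ⟨x, h, rfl⟩
    · rintro ⟨y, hy, h⟩
      have : y = x := Subtype.ext (Subtype.ext h)
      rwa [← this]
  · intro y hy
    obtain ⟨x, hx, rfl⟩ := (hm y).mp hy
    exact ⟨x.1.2, x.2⟩

/-- a count over the two factors and the frozen set -/
lemma card_split (R : Finset P) (cp : P → ι) (t : ι) (q : P → Prop) [DecidablePred q]
    (hq : ∀ x ∈ R, ¬ q x) :
    (univ.filter (fun x : FR R cp t => q x.1.1)).card +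
      (univ.filter (fun x : P => q x ∧ x ∉ R ∧ cp x = t)).card =
      (univ.filter (fun x : P => q x)).card := by
  classical
  rw [card_sub' (p := fun x : FO R => ¬ cp (x : P) = t) (fun x : FO R => q x),
    card_sub' (p := fun x : P => x ∉ R) (fun x : P => ¬ cp x = t ∧ q x)]
  have h3 := Finset.card_filter_add_card_filter_not (s := (univ : Finset P).filter q)
    (fun x => cp x = t)
  rw [Finset.filter_filter, Finset.filter_filter] at h3
  rw [← h3, Nat.add_comm]
  congr 2
  · refine Finset.filter_congr fun x _ => ?_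
    constructor
    · rintro ⟨h4, -, h5⟩
      exact ⟨h4, h5⟩
    · rintro ⟨h4, h5⟩
      exact ⟨h4, fun h => hq x h h4, h5⟩
  · refine Finset.filter_congr fun x _ => ?_
    constructor
    · rintro ⟨-, h4, h5⟩
      exact ⟨h5, h4⟩
    · rintro ⟨h4, h5⟩
      exact ⟨fun h => hq x h h4, h5, h4⟩

end Pool.Agent.GaussPoset.W7

end

/-! From `Pool.Agent.W_448w6_h53.WbA` -/

section

/-!
Negative values at the first pole of a coded component (MP_448cb3_co, `j = 12`, window 6).
-/

namespace Pool.Agent.GaussPoset.W6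

set_option linter.unusedSectionVars false

open Polynomial Finset Cl Dd Sg

universe u

/-- the lowest coefficient of the sum is `-c` -/
theorem poly_lowN {B i0 n K J ℓ M n3 c : ℕ} {s : Bool} {Us : List ℕ} (hJ : J ∈ Us) (hM : M ≤ K)
    (hs : s = !decide (M % 2 = 0))
    (h1 : chkL B i0 ((List.range' 1 (K + 1)).map (stR n B Us)) s J ℓ M (n3 + pc n J) c = true)
    (h2 : chkS B c ((List.range' 1 (K + 1)).map (stR n 1 Us)) J M = true) :
    X ^ n3 ∣ (∑ m ∈ range (M + 1), (-1) ^ m * ((uR n (X : ℕ[X]) Us J m).map (Nat.castRingHom ℤ) *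
      Eo ℓ M i0 1 m)) ∧
    (∑ m ∈ range (M + 1), (-1) ^ m * ((uR n (X : ℕ[X]) Us J m).map (Nat.castRingHom ℤ) *
      Eo ℓ M i0 1 m)).coeff n3 = -c := by
  have h2' : (∑ m ∈ range (M + 1), uR n 1 Us J m) * 2 ^ (2 * M) + c < B := by
    unfold chkS at h2
    rw [take_range' _ _ _ _ (by omega), sumU_eq] at h2
    have h3 := Nat.blt_eq.mp h2
    refine lt_of_le_of_lt (le_of_eq ?_) h3
    show _ = (∑ k ∈ range (M + 1), _) * 2 ^ (2 * M) + c
    congr 2
    refine Finset.sum_congr rfl fun k _ => ?_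
    rw [Nat.add_comm 1 k, lk_stR _ _ hJ, one_pow, one_mul]
  have hB : 1 ≤ B := by omega
  have hdom : Dom (∑ m ∈ range (M + 1), (-1) ^ m *
      ((uR n (X : ℕ[X]) Us J m).map (Nat.castRingHom ℤ) * Eo ℓ M i0 1 m))
      (∑ m ∈ range (M + 1), (uR n (X : ℕ[X]) Us J m * eQ ℓ M i0 1 m)) := by
    refine Dom.sum _ fun m _ => ?_
    have h3 := Dom.mul (Dom.cast (uR n (X : ℕ[X]) Us J m)) (eo_dom ℓ M i0 1 m)
    rcases Nat.even_or_odd m with hm | hm
    · rw [hm.neg_one_pow, one_mul]; exact h3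
    · rw [hm.neg_one_pow, neg_one_mul]; exact h3.neg
  have hmain : X ^ n3 ∣ -(∑ m ∈ range (M + 1), (-1) ^ m *
      ((uR n (X : ℕ[X]) Us J m).map (Nat.castRingHom ℤ) * Eo ℓ M i0 1 m)) ∧
      (-(∑ m ∈ range (M + 1), (-1) ^ m *
      ((uR n (X : ℕ[X]) Us J m).map (Nat.castRingHom ℤ) * Eo ℓ M i0 1 m))).coeff n3 = c := by
    refine coeff_of_eval hdom.neg (B := B) ?_ ?_
    · rw [eval_finsetSum]
      refine lt_of_le_of_lt (le_of_eq ?_) h2'
      rw [Finset.sum_mul]
      congr 1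
      refine Finset.sum_congr rfl fun m hm => ?_
      rw [mem_range] at hm
      rw [eval_mul, eQ_eval (by omega)]
      congr 1
      have := uR_map (evalRingHom 1) n (X : ℕ[X]) Us J m
      rw [coe_evalRingHom, eval_X] at this
      exact this
    · have hBz : (B : ℤ) ^ pc n J ≠ 0 := pow_ne_zero _ (by positivity)
      -- the value
      have hval : (B : ℤ) ^ pc n J * (∑ m ∈ range (M + 1), (-1) ^ m *
          ((uR n (X : ℕ[X]) Us J m).map (Nat.castRingHom ℤ) * Eo ℓ M i0 1 m)).eval (B : ℤ) =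
          ∑ k ∈ range (M + 1), (-1) ^ k * ((lk J (stR n B Us (1 + k)) : ℤ) *
            eo B ℓ M i0 1 (0 + k)) := by
        rw [eval_finsetSum, Finset.mul_sum]
        refine Finset.sum_congr rfl fun m _ => ?_
        have h4 := uR_map (evalRingHom (B : ℕ)) n (X : ℕ[X]) Us J m
        rw [coe_evalRingHom, eval_X] at h4
        have h6 : ((uR n (X : ℕ[X]) Us J m).map (Nat.castRingHom ℤ)).eval (B : ℤ) =
            ((uR n B Us J m : ℕ) : ℤ) := by
          rw [← h4, eval_map]
          have h5 := Polynomial.eval₂_at_natCast (p := uR n (X : ℕ[X]) Us J m)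
            (Nat.castRingHom ℤ) B
          simpa using h5
        rw [eval_mul, eval_pow, eval_neg, eval_one, eval_mul, h6, eo_eval hB, Nat.add_comm 1 m,
          lk_stR _ _ hJ, Nat.zero_add]
        push_cast
        ring
      have hpair := altP_eq (eo B ℓ M i0 1) J (stR n B Us) (M + 1) 0 1 0 0
      rw [Nat.cast_zero, sub_zero, zero_add, ← hval] at hpair
      unfold chkL at h1
      rw [take_range' _ _ _ _ (by omega)] at h1
      set p := altP (eo B ℓ M i0 1) J 0 ((List.range' 1 (M + 1)).map (stR n B Us)) 0 0 with hp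
      have key : ∀ x y : ℕ, cmpP B (n3 + pc n J) c (x, y) = true →
          (B : ℤ) ^ (n3 + pc n J + 1) ∣ (x : ℤ) - y - c * (B : ℤ) ^ (n3 + pc n J) := by
        intro x y h
        have h3 : (y + c * B ^ (n3 + pc n J)) ≡ x [MOD B ^ (n3 + pc n J + 1)] :=
          Nat.eq_of_beq_eq_true h
        have h4 := (Nat.modEq_iff_dvd.mp h3)
        push_cast at h4
        convert h4 using 1
        ring
      have hfin : (B : ℤ) ^ (n3 + pc n J + 1) ∣ (B : ℤ) ^ pc n J *
          (-(∑ m ∈ range (M + 1), (-1) ^ m *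
          ((uR n (X : ℕ[X]) Us J m).map (Nat.castRingHom ℤ) * Eo ℓ M i0 1 m))).eval (B : ℤ) -
          c * (B : ℤ) ^ (n3 + pc n J) := by
        subst hs
        rw [eval_neg]
        rcases Nat.even_or_odd M with hM | hM
        · have h3 : M % 2 = 0 := Nat.even_iff.mp hM
          simp only [h3, decide_true, Bool.not_true] at h1
          have h4 := key p.1 p.2 h1
          rw [pow_succ, hM.neg_one_pow] at hpair
          convert h4 using 2
          linarith
        · have h3 : M % 2 = 1 := Nat.odd_iff.mp hM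
          simp only [h3, one_ne_zero, decide_false, Bool.not_false] at h1
          have h4 := key p.2 p.1 h1
          rw [pow_succ, hM.neg_one_pow] at hpair
          convert h4 using 2
          linarith
      have h5 : (B : ℤ) ^ (n3 + pc n J + 1) = (B : ℤ) ^ pc n J * (B : ℤ) ^ (n3 + 1) := by
        rw [← pow_add]
        congr 1
        omega
      have h6 : (c : ℤ) * (B : ℤ) ^ (n3 + pc n J) = (B : ℤ) ^ pc n J * (c * (B : ℤ) ^ n3) := by
        rw [pow_add]
        ring
      rw [h5, h6, ← mul_sub] at hfin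
      exact (mul_dvd_mul_iff_left hBz).mp hfin
  obtain ⟨g1, g2⟩ := hmain
  refine ⟨(dvd_neg).mp g1, ?_⟩
  rw [coeff_neg] at g2
  omega

/-- the check for negative values -/
def polN (N B K : ℕ) (Us : List ℕ) (i0 : ℕ) (PL : List (ℕ × ℕ × ℕ × ℕ × ℕ)) : Bool :=
  ((fun h => PL.all fun x => chkL B i0 h (!decide (x.2.2.1 % 2 = 0)) x.1 x.2.1 x.2.2.1
    (x.2.2.2.1 + pc N x.1) x.2.2.2.2) (hist (ws N B Us) K (stp (ws N B Us) (ini Us)))) &&
  ((fun h => PL.all fun x => chkS B x.2.2.2.2 h x.1 x.2.2.1)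
    (hist (ws N 1 Us) K (stp (ws N 1 Us) (ini Us))))

/-- `chkL`, the other orientation -/
noncomputable def chkFN (B i0 : ℕ) (h : List (List (ℕ × ℕ))) (J ℓ M N c : ℕ) : Bool :=
  (fun p : ℕ × ℕ => @Bool.rec (fun _ => Bool) (cmpP B N c p.swap) (cmpP B N c p)
    (Nat.beq (M % 2) 0)) (altF (eoF B ℓ M i0) J (M + 1) h 0 0 0)

lemma chkFN_eq (B i0 : ℕ) (h : List (List (ℕ × ℕ))) (J ℓ M N c : ℕ) :
    chkFN B i0 h J ℓ M N c = chkL B i0 h (!decide (M % 2 = 0)) J ℓ M N c := by
  have hee : eoF B ℓ M i0 = eo B ℓ M i0 1 := by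
    funext m
    exact eoF_eq B ℓ M i0 m
  unfold chkFN chkL
  rw [altF_eq, hee]
  by_cases hM : M % 2 = 0
  · have h1 : Nat.beq (M % 2) 0 = true := by rw [hM]; rfl
    rw [h1]
    simp only [hM, decide_true, Bool.not_true]
  · have h1 : Nat.beq (M % 2) 0 = false := by
      rw [show M % 2 = 1 by omega]
      rfl
    rw [h1]
    simp only [hM, decide_false, Bool.not_false]

/-- the fast check, first part -/
noncomputable def polG1 (N B K : ℕ) (Us : List ℕ) (i0 : ℕ)
    (PL : List (ℕ × ℕ × ℕ × ℕ × ℕ)) : Bool :=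
  (fun W => (fun h => allF (fun x => chkFN B i0 h x.1 x.2.1 x.2.2.1
    (x.2.2.2.1 + pc N x.1) x.2.2.2.2) PL) (histF W K (stpF W (ini Us)))) (ws N B Us)

theorem polN_of_fast {N B K : ℕ} {Us : List ℕ} {i0 : ℕ} {PL : List (ℕ × ℕ × ℕ × ℕ × ℕ)}
    (h1 : polG1 N B K Us i0 PL = true) (h2 : polF2 N B K Us PL = true) :
    polN N B K Us i0 PL = true := by
  unfold polN
  unfold polG1 at h1
  unfold polF2 at h2
  simp only [allF_eq, histF_eq, stpF_eq, chkFN_eq, sumF_eq] at h1 h2
  rw [Bool.and_eq_true]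
  exact ⟨h1, h2⟩

variable {P : Type u} [Fintype P] [PartialOrder P] [DecidableEq P]
variable {n N : ℕ} {cv lv : ℕ → ℕ} {c : ℕ → P} {Us : List ℕ}

/-- the value at the energy `n0` of a coded up-set, negative values -/
theorem cod_valN (C : Cod n cv lv c) (hU : UsOK N cv Us) (hn : n ≤ N) {B i0 K n0 : ℕ}
    {PL : List (ℕ × ℕ × ℕ × ℕ × ℕ)} (h : polN N B K Us i0 PL = true) {x : ℕ × ℕ × ℕ × ℕ × ℕ}
    (hx : x ∈ PL) (hJ : x.1 ∈ Us) (hJn : x.1 < 2 ^ n) (hnum : numC N K i0 n0 lv x = true) :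
    (∀ n' < n0, (1 + X : ℤ[X]) ^ 2 ∣ Z {y : P // y ∈ toS n c x.1} i0 n') ∧
      ∃ s : ℤ[X], Z {y : P // y ∈ toS n c x.1} i0 n0 = (1 + X) * s ∧
        s.eval (-1) = sgn x.2.1 x.2.2.1 i0 * (-x.2.2.2.2) := by
  obtain ⟨J, ℓ, M, n3, c0⟩ := x
  simp only at hx hJ hJn ⊢
  unfold numC at hnum
  simp only [Bool.and_eq_true] at hnum
  obtain ⟨⟨⟨⟨g1, g2⟩, g3⟩, g4⟩, g5⟩ := hnum
  have g1 := Nat.le_of_ble_eq_true g1
  have g2 := Nat.blt_eq.mp g2
  have g3 := Nat.le_of_ble_eq_true g3
  have g5 := of_decide_eq_true g5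
  rw [List.any_eq_true] at g4
  obtain ⟨a, ha, hab⟩ := g4
  rw [Bool.and_eq_true] at hab
  unfold polN at h
  rw [Bool.and_eq_true] at h
  obtain ⟨h1, h2⟩ := h
  rw [hist_one hU] at h1 h2
  simp only [List.all_eq_true] at h1 h2
  have k1 := h1 _ hx
  have k2 := h2 _ hx
  simp only at k1 k2 g1 g2 g3 g5 hab
  have hup := C.up hU hn hJ
  have h5 : ∀ m, U {x : P // x ∈ toS n c J} m =
      (uR N (X : ℕ[X]) Us J m).map (Nat.castRingHom ℤ) := fun m => by
    rw [U_eq_V hup, C.V_eq hU hn m J hJ hJn]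
  have hlow := poly_lowN (n := N) (ℓ := ℓ) hJ g1 rfl k1 k2
  simp only [← h5] at hlow
  have han : a < n := by
    by_contra hcon
    rw [Nat.testBit_lt_two_pow (lt_of_lt_of_le hJn (Nat.pow_le_pow_right (by norm_num)
      (by omega)))] at hab
    exact absurd hab.1 (by simp)
  have hlv : ∀ x : {x : P // x ∈ toS n c J}, GaussPoset.lev x = GaussPoset.lev (x : P) :=
    lev_subtype (p := fun x => x ∈ toS n c J) (fun x y hxy hx => hup x hx y hxy)
  have hxx : ∀ i < ℓ, ∃ x : {x : P // x ∈ toS n c J}, i ≤ GaussPoset.lev x := by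
    intro i hi
    refine ⟨⟨c a, (C.mem_iff han).mpr hab.1⟩, ?_⟩
    rw [hlv, C.lev a han]
    have := Nat.le_of_ble_eq_true hab.2
    omega
  have hcd : Fintype.card {x : P // x ∈ toS n c J} = pc N J := by
    rw [Fintype.card_coe, C.card, ← pc_stable hn hJn]
  obtain ⟨V, hV⟩ := dvd_W_one (Q := {x : P // x ∈ toS n c J}) (i := i0) (hxx i0 g2)
  have hM0 : M0 {x : P // x ∈ toS n c J} i0 =
      ∑ a ∈ (range N).filter (fun a => J.testBit a = true), min i0 (lv a) := by
    rw [filter_stable hn hJn, ← cod_sum_lev C (fun l => min i0 l)]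
    unfold M0
    rw [← Finset.sum_coe_sort (toS n c J)]
    exact Finset.sum_congr rfl fun x _ => by rw [hlv]
  have hL := lead_V hxx (by rw [hcd]; exact g3) g2 hV hlow.1 hlow.2
    (N := M0 {x : P // x ∈ toS n c J} i0 + n0) (by rw [hM0, hcd]; exact g5)
  exact Z_of_lead hV hL

/-- the value of a complete coded set at the window 6 -/
theorem pl_of_val {S : Finset P} {n0 : ℕ} {v : ℤ}
    (h : (∀ n' < n0, (1 + X : ℤ[X]) ^ 2 ∣ Z {y : P // y ∈ S} 6 n') ∧
      ∃ s : ℤ[X], Z {y : P // y ∈ S} 6 n0 = (1 + X) * s ∧ s.eval (-1) = v)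
    (hbelow : below {y : P // y ∈ S} 6 = 6) (hlv : (GaussPoset.lv {y : P // y ∈ S} 6).card = 2)
    {f : Polynomial (PowerSeries ℤ)} (hf : ∀ n, exq n f = Z {y : P // y ∈ S} 6 n) :
    Pl n0 2 v f := by
  obtain ⟨h11, s, h12, h13⟩ := h
  have h0 : exq 0 f = X ^ 6 * (1 + X) ^ 2 := by
    rw [hf, Z_zero, hbelow, hlv]
  refine ⟨fun m hm => ?_, by norm_num, X ^ 6, s, by rw [h0, mul_comm], ?_, ?_, ?_⟩
  · rw [hf]
    exact h11 m hm
  · rw [eval_pow, eval_X]
    norm_num
  · rw [hf, h12]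
    simp
  · rw [h13, eval_pow, eval_X]
    norm_num

/-- a complete coded set -/
lemma toS_full {n : ℕ} {c : ℕ → P} {J : ℕ} (hJ : J = 2 ^ n - 1) {S : Finset P}
    (hS : ∀ y, y ∈ S ↔ ∃ a < n, c a = y) : toS n c J = S ∧ J < 2 ^ n := by
  have hbits : ∀ a < n, J.testBit a = true := by
    intro a ha
    rw [hJ, Nat.testBit_two_pow_sub_one]
    simpa using ha
  constructor
  · ext y
    rw [mem_toS, hS]
    constructor
    · rintro ⟨a, ha, -, h1⟩
      exact ⟨a, ha, h1⟩
    · rintro ⟨a, ha, h1⟩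
      exact ⟨a, ha, hbits a ha, h1⟩
  · have : 0 < 2 ^ n := Nat.two_pow_pos n
    omega

/-- the numbers of the elements of the levels `≤ 6` -/
lemma cod_low6 {n : ℕ} {cv lv : ℕ → ℕ} {c : ℕ → P} (C : Cod n cv lv c) {S : Finset P}
    (hS : ∀ y, y ∈ S ↔ ∃ a < n, c a = y)
    (h7 : ((range n).filter (fun a => lv a < 6)).card = 6)
    (h8 : ((range n).filter (fun a => lv a = 6)).card = 2) :
    below {y : P // y ∈ S} 6 = 6 ∧ (GaussPoset.lv {y : P // y ∈ S} 6).card = 2 := by
  constructor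
  · unfold below
    rw [cod_count C hS (fun l => l < 6)]
    exact h7
  · unfold GaussPoset.lv
    rw [cod_count C hS (fun l => l = 6)]
    exact h8

end Pool.Agent.GaussPoset.W6

end

/-! From `Pool.Agent.W_448w6_h53.WcF` -/

section

/-!
The strip `La6`: twins below the first two cells, two pendants below the first.
-/

namespace Pool.Agent.GaussPoset.W6

open Cl Dd Sg

/-- the up-sets -/
def Qfus : List ℕ := [268435455, 267386879, 266338303, 265289727, 265158655, 265142271, 234881023, 233832447, 232783871, 231735295, 231604223, 231587839, 201326591, 200278015, 199229439, 198180863, 198049791, 198033407, 167772159, 166723583, 165675007, 164626431, 164495359, 164478975, 134217727, 133169151, 132120575, 131071999, 130940927, 130924543, 100663295, 99614719, 98566143, 97517567, 97386495, 97370111, 67108863, 66060287, 65011711, 63963135, 63832063, 63815679, 50331647, 49283071, 48234495, 47185919, 47054847, 47038463, 33554431, 32505855, 31457279, 30408703,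 30277631, 30261247, 16777215, 15728639, 14680063, 13631487, 13500415, 13484031, 12582911, 11534335, 10485759, 10223615, 9437183, 9306111, 9289727, 9175039, 9043967, 9027583, 9011199, 8994815, 8990719, 8989695, 8989439, 8388607, 7340031, 6291455, 5242879, 5111807, 5095423, 4194303, 3670015, 3145727, 2621439, 2097151, 1835007, 1572863, 1310719, 1245183, 1048575, 917503, 901119, 786431, 655359, 638975, 622591, 606207, 602111, 601087, 600831, 524287, 393215, 376831, 262143, 196607, 131071, 114687, 98303, 81919, 77823, 76799, 76543, 65535, 49151, 32767, 24575, 16383, 12287, 11263, 11007, 8191, 4095, 3071, 2815, 2047, 1023, 767, 511, 383, 255, 191, 127, 63, 31, 15, 7, 3, 1, 0]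

/-- the covers -/
def Qfcv : List ℕ := [0, 1, 2, 4, 8, 16, 32, 32, 64, 192, 768, 512, 3072, 2048, 4096, 12288, 8192, 49152, 98304, 65536, 131072, 393216, 786432, 524288, 12582912, 12582912, 16777216, 16777216]

/-- the levels -/
def Qflv : List ℕ := [0, 1, 2, 3, 4, 5, 6, 6, 7, 7, 8, 8, 9, 9, 10, 10, 10, 11, 11, 11, 12, 12, 12, 12, 13, 13, 14, 14]

/-- the cells above -/
def Qfum : List ℕ := [1, 3, 7, 15, 31, 63, 127, 191, 383, 767, 2047, 2815, 8191, 11007, 24575, 49151, 76543, 196607, 376831, 600831, 1245183, 2621439, 5095423, 8989439, 30261247, 47038463, 97370111, 164478975]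

/-- the thresholds -/
def Qfth : List ℕ := [0, 0, 0, 0, 0, 0, 0, 0, 1, 0, 1, 0, 1, 0, 2, 1, 0, 2, 1, 0, 3, 2, 1, 0, 1, 1, 2, 2]

/-- the up-sets above the base: code, `ℓ`, `M`, exponent, coefficient -/
def QfL : List (ℕ × ℕ × ℕ × ℕ × ℕ) := [(268435455, 15, 13, 195, 0), (267386879, 15, 12, 176, 0), (266338303, 15, 12, 176, 0), (265289727, 15, 11, 158, 0), (265158655, 15, 10, 141, 0), (265142271, 15, 9, 125, 0), (234881023, 15, 12, 176, 0), (233832447, 15, 11, 158, 0), (232783871, 15, 11, 158, 0), (231735295, 15, 10, 141, 0), (231604223, 15, 9, 125, 0), (231587839, 15, 8, 110, 0), (201326591, 15, 12, 176, 0), (200278015, 15, 11, 158, 0), (199229439, 15, 11, 158, 0), (198180863, 15, 10, 141, 0), (198049791, 15, 9, 125, 0), (198033407, 15, 8, 110, 0), (167772159, 15, 11, 158, 0), (166723583, 15, 10, 141, 0), (165675007, 15, 10, 141, 0), (164626431, 15, 9, 125, 0), (164495359, 15, 8, 110, 0), (164478975, 15, 7, 96, 0), (134217727, 15, 12, 176, 0), (133169151,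 15, 11, 158, 0), (132120575, 15, 11, 158, 0), (131071999, 15, 10, 141, 0), (130940927, 15, 9, 125, 0), (130924543, 15, 8, 110, 0), (100663295, 15, 11, 158, 0), (99614719, 15, 10, 141, 0), (98566143, 15, 10, 141, 0), (97517567, 15, 9, 125, 0), (97386495, 15, 8, 110, 0), (97370111, 15, 7, 96, 0), (67108863, 14, 12, 176, 0), (66060287, 14, 11, 158, 0), (65011711, 14, 11, 158, 0), (63963135, 14, 10, 141, 0), (63832063, 14, 9, 125, 0), (63815679, 14, 8, 110, 0), (50331647, 14, 11, 158, 0), (49283071, 14, 10, 141, 0), (48234495, 14, 10, 141, 0), (47185919, 14, 9, 125, 0), (47054847, 14, 8, 110, 0), (47038463, 14, 7, 96, 0), (33554431, 14, 11, 158, 0), (32505855, 14, 10, 141, 0), (31457279, 14, 10, 141, 0), (30408703, 14, 9, 125, 0), (30277631, 14, 8, 110, 0), (30261247, 14, 7, 96, 0), (16777215, 13, 11, 158, 0), (15728639, 13, 10, 141, 0), (14680063, 13, 10, 141, 0), (13631487, 13, 9, 125, 0), (13500415, 13, 8, 110, 0), (13484031, 13, 7, 96, 0), (12582911,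 13, 10, 141, 0), (11534335, 13, 9, 125, 0), (10485759, 13, 9, 125, 0), (10223615, 13, 8, 110, 0), (9437183, 13, 8, 110, 0), (9306111, 13, 7, 96, 0), (9289727, 13, 6, 83, 0), (9175039, 13, 7, 96, 0), (9043967, 13, 6, 83, 0), (9027583, 13, 5, 71, 0), (9011199, 13, 5, 71, 0), (8994815, 13, 4, 60, 0), (8990719, 13, 3, 50, 0), (8989695, 13, 2, 41, 0), (8989439, 13, 1, 33, 0)]

/-- the complete up-sets -/
def QfF : List (ℕ × ℕ × ℕ × ℕ × ℕ) := [(67108863, 14, 12, 177, 1), (134217727, 15, 12, 177, 1), (268435455, 15, 13, 196, 1)]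

theorem Qf_us : UsOK 28 (fun a => Qfcv.getD a 0) Qfus :=
  usOK_of_chk (by decide +kernel)

theorem Qf_pol1 : polF1 28 (2 ^ 100) 13 Qfus 6 (QfL) = true := by
  decide +kernel

theorem Qf_pol2 : polF2 28 (2 ^ 100) 13 Qfus (QfL) = true := by
  decide +kernel

theorem Qf_pol : polC 28 (2 ^ 100) 13 Qfus 6 (QfL) = true :=
  polC_of_fast Qf_pol1 Qf_pol2

theorem Qf_low : lowC 28 13 6 26 (fun a => Qflv.getD a 0) Qfus 8989439 QfL = true := by
  decide +kernel

theorem Qf_th : thChk 28 6 23 (fun a => Qflv.getD a 0) (fun a => Qfcv.getD a 0)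
    (fun a => Qfum.getD a 0) (fun a => Qfth.getD a 0) = true := by decide +kernel

theorem Qf_bm : bmC 28 6 23 8989439 (fun a => Qflv.getD a 0)
    (fun a => Qfum.getD a 0) = true := by decide +kernel

theorem Qf_neg1 : polG1 28 (2 ^ 100) 13 Qfus 6 QfF = true := by
  decide +kernel

theorem Qf_neg2 : polF2 28 (2 ^ 100) 13 Qfus QfF = true := by
  decide +kernel

theorem Qf_neg : polN 28 (2 ^ 100) 13 Qfus 6 QfF = true :=
  polN_of_fast Qf_neg1 Qf_neg2

theorem Qf_num : ∀ x ∈ QfF, numC 28 13 6 27 (fun a => Qflv.getD a 0) x = true := by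
  decide +kernel

theorem Qf_mem : ∀ x ∈ QfF, x.1 ∈ Qfus := by decide +kernel

end Pool.Agent.GaussPoset.W6

end
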