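import Mathlib
import Pool.Agent.W_448zz_h61.Ns
import Pool.Agent.W_448zz_h61.M047
import Pool.Agent.W_448zz_h61.M052
import Pool.Agent.W_448zz_h61.M122
import Pool.Agent.W_448zz_h61.M124

/-! From `Pool.Agent.W_448dd_h67.DdG` -/

section

/-!
The strip of the word `OC CO CO OO CC CO` at the window 5.
-/

namespace Pool.Agent.GaussPoset.Dd

set_option linter.unusedSectionVars false

open Polynomial Finset Cl Wd

universe u

variable {P : Type u} [Fintype P] [PartialOrder P] [DecidableEq P]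
variable {r : ℕ} {t : P} {lo hi : ℕ → ℕ} {e : ℕ → ℕ → P}

lemma dead_cod (D : WordD 10 4 w4d lo hi) (C : Cp.Comp 10 t lo hi e) (H : Gr P r)
    (hg : ∀ l, l < 10 → Win.Good P l) (ht : lev t = 0) :
    Cod 19 (fun a => L4dcv.getD a 0) (fun a => L4dlv.getD a 0)
      (fun a => e (L4dlv.getD a 0) (L4dsl.getD a 0)) := by
  obtain ⟨h1, h2⟩ := D.rows C
  exact L4d_strip.cod C H hg ht le_rfl h1 h2

/-- order two below the energy 10 -/
theorem dead_low (D : WordD 10 4 w4d lo hi) (C : Cp.Comp 10 t lo hi e) (H : Gr P r)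
    (hg : ∀ l, l < 10 → Win.Good P l) (ht : lev t = 0) {U : Finset P} (hUN : U ⊆ lowPart 10 t)
    (hup : ∀ x ∈ U, ∀ y, x ≤ y → y ∈ U) (hlow : ∀ x ∈ lowPart 10 t, lev x ≤ 5 → x ∈ U)
    (hbase : e 9 4 ∈ U) : ∀ n < 10, (1 + X : ℤ[X]) ^ 2 ∣ Z {x : P // x ∈ U} 5 n := by
  have hC := dead_cod D C H hg ht
  obtain ⟨h1, h2⟩ := D.rows C
  by_cases h18 : e 10 5 ∈ U
  · have hin : ∀ x ∈ U, ∃ a < 19, (fun a => e (L4dlv.getD a 0) (L4dsl.getD a 0)) a = x :=
      fun x hx => L4d_strip.surj' C le_rfl h1 h2 (hUN hx)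
    obtain ⟨J, hJ, hJn, hJU⟩ := hC.exists_code D_us le_rfl hin hup
    obtain ⟨h6, h7⟩ := L4d_strip.base_mem C H hg ht le_rfl h1 h2 L4d_b5 (by show 9 ≤ 10; omega)
      hup hlow hbase
    have h8 : Nat.land 94207 J = 94207 := by
      rw [land_iff (n := 19) (by norm_num)]
      intro a ha h9
      rw [← hC.mem_iff ha, hJU]
      exact h7 a ha h9
    have h9 : J.testBit 18 = true := by
      rw [← hC.mem_iff (by norm_num), hJU]
      exact h18
    obtain ⟨x, hx, rfl⟩ := D_all J hJ h8 h9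
    have h10 := cod_pole hC D_us le_rfl D_pol hx hJ hJn (D_num x hx)
    rw [hJU] at h10
    exact h10.1
  · have h3 := dead_clean D C H hg ht (i := 5) (by omega) (by omega) U
      (fun x hx => mem_erase.mpr ⟨fun h => h18 (h ▸ hx), hUN hx⟩) hup
      (fun x hx hl => hlow x (mem_of_mem_erase hx) hl) hbase
    exact fun n _ => dvd_Z_of_dvd_W h3 n

/-- the complete strip -/
theorem dead_full (D : WordD 10 4 w4d lo hi) (C : Cp.Comp 10 t lo hi e) (H : Gr P r)
    (hg : ∀ l, l < 10 → Win.Good P l) (ht : lev t = 0) {f : Polynomial (PowerSeries ℤ)}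
    (hf : ∀ n, exq n f = Z {x : P // x ∈ lowPart 10 t} 5 n) : Pl 10 2 (-1) f := by
  have hC := dead_cod D C H hg ht
  obtain ⟨h1, h2⟩ := D.rows C
  have hbits : ∀ a < 19, Nat.testBit 524287 a = true := by decide +kernel
  have hS : toS 19 (fun a => e (L4dlv.getD a 0) (L4dsl.getD a 0)) 524287 = lowPart 10 t := by
    ext x
    rw [mem_toS]
    constructor
    · rintro ⟨a, ha, -, rfl⟩
      have hr := L4d_strip.row a ha
      have hla : L4dlv.getD a 0 ≤ 10 := by
        have h : ∀ a < 19, L4dlv.getD a 0 ≤ 10 := by decide +kernel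
        exact h a ha
      rw [← h1 _ hla, ← h2 _ hla] at hr
      rw [mem_lowPart, C.lev_e _ _ hla hr.1 hr.2]
      exact ⟨C.le_t _ _ hla hr.1 hr.2, hla⟩
    · intro hx
      obtain ⟨a, ha, h3⟩ := L4d_strip.surj' C le_rfl h1 h2 hx
      exact ⟨a, ha, hbits a ha, h3⟩
  have hmem : ((524287, 11, 8, 85) : ℕ × ℕ × ℕ × ℕ) ∈ DPL := by decide +kernel
  have h10 := cod_pole hC D_us le_rfl D_pol hmem (by decide +kernel) (by norm_num) (D_num _ hmem)
  simp only at h10
  rw [hS] at h10
  obtain ⟨h11, s, h12, h13⟩ := h10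
  have hsg : sgn 11 8 5 = -1 := by decide +kernel
  rw [hsg] at h13
  have hup : ∀ x ∈ lowPart 10 t, ∀ y, x ≤ y → y ∈ lowPart 10 t := by
    intro x hx y hxy
    rw [mem_lowPart] at hx ⊢
    refine ⟨Cp.up_le H hg ht hx.1 hx.2 hxy, ?_⟩
    rcases eq_or_lt_of_le hxy with h | h
    · rw [← h]; exact hx.2
    · have := lev_strictAnti h; omega
  have hlv : ∀ x : {x : P // x ∈ lowPart 10 t}, GaussPoset.lev x = GaussPoset.lev (x : P) :=
    lev_subtype (p := fun x => x ∈ lowPart 10 t) (fun x y hxy hx => hup x hx y hxy)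
  have hcount : ∀ g : ℕ → Prop, ∀ _ : DecidablePred g,
      (univ.filter (fun x : {x : P // x ∈ lowPart 10 t} => g (GaussPoset.lev x))).card =
      ∑ a ∈ (range 19).filter (fun a => Nat.testBit 524287 a = true),
        (if g (L4dlv.getD a 0) then 1 else 0) := by
    intro g _
    rw [← cod_sum_lev hC (fun l => if g l then 1 else 0), hS, Finset.card_filter,
      ← Finset.sum_coe_sort (lowPart 10 t)]
    exact Finset.sum_congr rfl fun x _ => by rw [hlv]
  have hbelow : below {x : P // x ∈ lowPart 10 t} 5 = 6 := by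
    unfold below
    rw [hcount (fun l => l < 5) inferInstance]
    decide +kernel
  have hlv5 : (lv {x : P // x ∈ lowPart 10 t} 5).card = 2 := by
    unfold lv
    rw [hcount (fun l => l = 5) inferInstance]
    decide +kernel
  have h0 : exq 0 f = X ^ 6 * (1 + X) ^ 2 := by
    rw [hf, Z_zero, hbelow, hlv5]
  refine ⟨fun n hn => ?_, by norm_num, X ^ 6, s, by rw [h0, mul_comm], ?_, ?_, ?_⟩
  · rw [hf]
    exact h11 n hn
  · rw [eval_pow, eval_X]
    norm_num
  · rw [hf, h12]
    simp
  · rw [h13, eval_pow, eval_X]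
    norm_num

end Pool.Agent.GaussPoset.Dd

end

/-! From `Pool.Agent.W_448dd_h67.DdJ` -/

section

/-!
There is no component with the word `OC CO CO OO CC CO` at level 10: the context.
-/

namespace Pool.Agent.GaussPoset.Dd

set_option linter.unusedSectionVars false

open Polynomial Finset Cl Wd

universe u

variable {P : Type u} [Fintype P] [PartialOrder P] [DecidableEq P] {r : ℕ}
  {N : Tops P → Finset P} {b : Tops P → ℕ} {θ : Tops P → P → ℕ} {B : Tops P → P → Prop}

lemma mem_R10 {x : P} : x ∈ R10 P ↔ 10 < lev x := by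
  classical
  unfold R10
  simp

/-- the context -/
structure Ctx (r : ℕ) (N : Tops P → Finset P) (b : Tops P → ℕ) (θ : Tops P → P → ℕ)
    (B : Tops P → P → Prop) : Prop where
  gt : Win.GoodTo P r 10
  typ : ∀ t, T5 t (b t) (N t) (θ t) (B t)
  sum_b : ∑ t, b t = (lv P 5).card

lemma Ctx.lowUp (W : Ctx r N b θ B) (t : Tops P) :
    ∀ x ∈ lowPart 10 (t : P), ∀ y, x ≤ y → y ∈ lowPart 10 (t : P) := by
  intro x hx y hxy
  rw [mem_lowPart] at hx ⊢
  refine ⟨Cp.up_le W.gt.H W.gt.good t.2 hx.1 hx.2 hxy, ?_⟩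
  rcases eq_or_lt_of_le hxy with h | h
  · rw [← h]; exact hx.2
  · have := lev_strictAnti h; omega

lemma Ctx.natSys (W : Ctx r N b θ B) : NatSys N where
  up := by
    intro t
    rcases W.typ t with ⟨h1, h2, h3, h4, h5⟩ | ⟨lo, hi, e, C, D, h1, h2, h3, h4⟩
    · exact h1.up
    · rw [h2]
      exact W.lowUp t
  le_t := by
    intro t
    rcases W.typ t with ⟨h1, h2, h3, h4, h5⟩ | ⟨lo, hi, e, C, D, h1, h2, h3, h4⟩
    · exact h1.le_t
    · rw [h2]
      exact fun x hx => (mem_lowPart.mp hx).1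

lemma Ctx.strip (W : Ctx r N b θ B) (t : Tops P) : lowPart 10 (t : P) ⊆ N t := by
  rcases W.typ t with ⟨h1, h2, h3, h4, h5⟩ | ⟨lo, hi, e, C, D, h1, h2, h3, h4⟩
  · exact h2
  · rw [h2]

lemma Ctx.low (W : Ctx r N b θ B) {x : P} (hx : lev x ≤ 10) : x ∈ N (topOf x) :=
  W.strip _ (mem_lowPart.mpr ⟨le_topOf x, hx⟩)

lemma Ctx.unnat_sub (W : Ctx r N b θ B) : unnat N ⊆ R10 P := by
  intro x hx
  rw [mem_R10]
  by_contra hcon
  exact mem_unnat.mp hx (topOf x) (W.low (by omega))

lemma Ctx.not_unnat (W : Ctx r N b θ B) {x : P} (hx : x ∉ R10 P) : x ∉ unnat N :=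
  fun h => hx (W.unnat_sub h)

lemma Ctx.cp (W : Ctx r N b θ B) {x y : P} (hxy : x ≤ y) (hx : x ∉ R10 P) : topOf x = topOf y :=
  W.natSys.cp x y hxy (W.not_unnat hx)

/-- the thresholds and the base elements -/
noncomputable def thA (θ : Tops P → P → ℕ) (x : P) : ℕ := θ (topOf x) x

lemma R10_low : ∀ x y : P, x ≤ y → y ∈ R10 P → x ∈ R10 P := by
  intro x y hxy hy
  rw [mem_R10] at hy ⊢
  rcases eq_or_lt_of_le hxy with h | h
  · rw [h]; exact hy
  · have := lev_strictAnti h; omega

lemma R10_lev : ∀ x ∈ R10 P, 5 < lev x := by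
  intro x hx
  rw [mem_R10] at hx
  omega

/-- the base elements -/
def BA (N : Tops P → Finset P) (B : Tops P → P → Prop) (x : P) : Prop :=
  x ∉ unnat N ∧ B (topOf x) x

lemma Ctx.not_BA (W : Ctx r N b θ B) : ∀ x ∈ R10 P, ¬ BA N B x := by
  rintro x hx ⟨h1, h2⟩
  rw [mem_R10] at hx
  have hxN : x ∈ N (topOf x) := W.natSys.mem_iff.mpr ⟨h1, rfl⟩
  rcases W.typ (topOf x) with ⟨g1, g2, g3, g4, g5⟩ | ⟨lo, hi, e, C, D, g1, g2, g3, g4⟩
  · have := g3 x hxN h2
    omega
  · rw [g2, mem_lowPart] at hxN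
    omega

/-- the strip of a component as a part of the complement of a lower set -/
lemma Ctx.iso (W : Ctx r N b θ B) (t : Tops P) {D : Finset P} (hRD : R10 P ⊆ D)
    (U : Finset P) (hU : ∀ x, x ∈ U ↔ x ∈ lowPart 10 (t : P) ∧ x ∉ D) :
    Nonempty ({x : P // x ∈ U} ≃o {x : {x : P // x ∉ D} // topOf (x : P) = t}) := by
  have hlow : ∀ x, x ∉ D → lev x ≤ 10 := by
    intro x hx
    by_contra hcon
    exact hx (hRD (mem_R10.mpr (by omega)))
  refine ⟨{ toFun := fun x => ⟨⟨x, ((hU x).mp x.2).2⟩, ?_⟩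
            invFun := fun x => ⟨x.1.1, (hU _).mpr ⟨?_, x.1.2⟩⟩
            left_inv := fun x => rfl
            right_inv := fun x => rfl
            map_rel_iff' := Iff.rfl }⟩
  · exact W.natSys.topOf_eq (W.strip t ((hU x).mp x.2).1)
  · rw [mem_lowPart]
    refine ⟨?_, hlow _ x.1.2⟩
    have h1 := le_topOf (x.1.1 : P)
    rw [x.2] at h1
    exact h1

/-- the component data -/
theorem Ctx.compL (W : Ctx r N b θ B) (t : Tops P) :
    CompDataL (R10 P) topOf t 5 (b t) 10 (thA θ) (BA N B) := by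
  have HN := W.natSys
  rcases W.typ t with ⟨h1, h2, h3, h4, h5⟩ | ⟨lo, hi, e, C, D, h1, h2, h3, h4⟩
  · have h6 : CompData (unnat N) topOf t 5 (b t) (thA θ) (BA N B) := by
      refine h1.data N HN rfl _ _ ?_ ?_
      · intro x hx
        show θ (topOf x) x = _
        rw [HN.topOf_eq hx]
      · intro x hx
        unfold BA
        simp only [HN.topOf_eq hx, (HN.mem_iff.mp hx).1, not_false_eq_true, true_and]
    exact CompDataL.of (CompData.mono h6 W.unnat_sub) 10
  · have hg := W.gt.good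
    have hrow : losW 4 w4d 9 ≤ 4 ∧ 4 ≤ hisW 4 w4d 9 := by decide +kernel
    obtain ⟨r1, r2⟩ := D.rows C
    rw [← r1 9 (by omega), ← r2 9 (by omega)] at hrow
    have hl9 := C.lev_e 9 4 (by omega) hrow.1 hrow.2
    have ht9 := C.le_t 9 4 (by omega) hrow.1 hrow.2
    have hB9 : BA N B (e 9 4) := by
      have h6 : e 9 4 ∈ N t := by
        rw [h2, mem_lowPart]
        exact ⟨ht9, by omega⟩
      refine ⟨(HN.mem_iff.mp h6).1, ?_⟩
      rw [HN.topOf_eq h6, h4]
    have hlev : ∀ x, x ∉ R10 P → lev x ≤ 10 := by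
      intro x hx
      by_contra hcon
      exact hx (mem_R10.mpr (by omega))
    have hth : ∀ x, topOf x = t → thA θ x = lev x - 9 := by
      intro x hx
      unfold thA
      rw [hx, h3]
    constructor
    · intro E hE hdec n hn
      classical
      let U : Finset P := (lowPart 10 (t : P)).filter (fun x => x ∉ E)
      have hU : ∀ x, x ∈ U ↔ x ∈ lowPart 10 (t : P) ∧ x ∉ E := by
        intro x
        simp [U]
      obtain ⟨φ⟩ := W.iso t hE.2.1 U hU
      rw [h1]
      have h7 := dead_low D C W.gt.H hg t.2 (U := U) (Finset.filter_subset _ _)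
        (fun x hx y hxy => by
          rw [hU] at hx ⊢
          exact ⟨W.lowUp t x hx.1 y hxy, fun h => hx.2 (hE.1 x y hxy h)⟩)
        (fun x hx hxi => by
          rw [hU]
          exact ⟨hx, fun h => by have := hE.2.2.1 x h; omega⟩)
        (by
          rw [hU, mem_lowPart]
          exact ⟨⟨ht9, by omega⟩, fun h => hE.2.2.2 _ h hB9⟩) n hn
      rw [Z_iso φ] at h7
      convert h7
    · intro x hx hk h5
      rw [hth x hk] at h5
      omega
    · intro x hx hk h5 y hyx hy hBy
      rw [hth x hk] at h5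
      have h6 : topOf y = t := (W.cp hyx hy).trans hk
      have h7 : y = e 9 4 := by
        have := hBy.2
        rw [h6, h4] at this
        exact this
      have h8 : lev x ≤ lev y := by
        rcases eq_or_lt_of_le hyx with h | h
        · rw [h]
        · exact (lev_strictAnti h).le
      rw [h7, hl9] at h8
      omega
    · intro x hx hk h5 y hyx hy x' hx' hyx' hn
      have h6 : topOf y = t := (W.cp hyx hy).trans hk
      have h7 : topOf x' = t := (W.cp hyx'.1.le hy).symm.trans h6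
      rw [hth x hk, hth x' h7]
      have h8 : lev x ≤ lev y := by
        rcases eq_or_lt_of_le hyx with h | h
        · rw [h]
        · exact (lev_strictAnti h).le
      have h9 := W.gt.H.gradedBelow.lev_covBy hyx'
      omega
    · intro x hx hk
      rw [hth x hk]
      omega

/-- the labels -/
noncomputable def hA (θ : Tops P → P → ℕ) : P → ℕ := hcan (R10 P) (thA θ)

lemma Ctx.costOK (W : Ctx r N b θ B) (t : Tops P) : CostOK (t : P) (θ t) := by
  rcases W.typ t with ⟨h1, h2, h3, h4, h5⟩ | ⟨lo, hi, e, C, D, h1, h2, h3, h4⟩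
  · exact h4
  · intro x _ hl h0
    rw [h3] at h0
    have : lev x - 9 = 0 := h0
    omega

/-- the costs of the boundary elements -/
theorem Ctx.cost (W : Ctx r N b θ B) {z : P} (hz : z ∈ bdR (R10 P)) :
    11 ≤ cst 5 (hA θ) z ∨ (cst 5 (hA θ) z = 6 ∧ hA θ z = 1 ∧ nab 5 z = 2 ∧ nab 6 z = 1) := by
  classical
  have H := W.gt.H
  have HN := W.natSys
  obtain ⟨x, hx, hzx, hh⟩ := hcan_spec (θ := thA θ) hz
  have hh' : hA θ z = θ (topOf x) x + 1 := hh
  have hzR : 10 < lev z := mem_R10.mp (mem_filter.mp hz).1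
  have hlx : ¬ 10 < lev x := fun h => hx (mem_R10.mpr h)
  have hzl := (H.covBy_iff.mp hzx).2
  have hlx10 : lev x = 10 := by omega
  have hlz : lev z = 2 * 5 + 1 := by omega
  by_cases h0 : θ (topOf x) x = 0
  · have h1 : hA θ z = 1 := by rw [hh', h0]
    have hcst : cst 5 (hA θ) z = ct 5 1 z := cst_ct h1
    have htop := ct_top (m := 5) (k := 1) hlz (by omega)
    rcases W.costOK (topOf x) x (le_topOf x) hlx10 h0 with h2 | ⟨h2, h3, h4⟩
    · left
      have h5 := ct_cov (i := 5) (k := 1) hzx.1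
      rw [hzl, hlx10] at h5
      have h6 : min 1 (10 + 1 - 5) = 1 := by norm_num
      rw [h6] at h5
      omega
    · by_cases hp : ∀ y, z ⋖ y → y = x
      · right
        have hn : ∀ k, k ≤ 10 → nab k z = nab k x := fun k hk =>
          nab_pend (⟨hzx, hp⟩ : Pend z x) (by omega)
        have hvs : vs 5 1 z = 5 := by
          unfold vs
          simp only [Finset.sum_range_succ, Finset.sum_range_zero]
          rw [hn (5 + 1) (by omega), hn (5 + 2) (by omega), hn (5 + 3) (by omega),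
            hn (5 + 4) (by omega), hn (5 + 5) (by omega), h2 (5 + 1) (by omega) (by omega),
            h2 (5 + 2) (by omega) (by omega), h2 (5 + 3) (by omega) (by omega),
            h2 (5 + 4) (by omega) (by omega), h2 (5 + 5) (by omega) (by omega)]
          norm_num
        refine ⟨by rw [hcst, htop, hvs], h1, by rw [hn 5 (by omega), h3],
          by rw [hn 6 (by omega), h2 6 (by omega) (by omega)]⟩
      · left
        push Not at hp
        obtain ⟨y, hzy, hyx⟩ := hp
        have hly := (H.covBy_iff.mp hzy).2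
        have hly10 : lev y = 10 := by omega
        have hn : ∀ k, 6 ≤ k → k ≤ 10 → 2 ≤ nab k z := by
          intro k hk1 hk2
          by_cases ht : topOf y = topOf x
          · rcases Nat.lt_or_ge k 10 with h5 | h5
            · have h6 := h4 y (by rw [← ht]; exact le_topOf y) hly10 hyx k hk1 (by omega)
              exact h6.trans (nab_mono hzy.le)
            · obtain rfl : k = 10 := by omega
              exact two_le_nab hzx.le hzy.le hlx10 hly10 (Ne.symm hyx)
          · have h6 := nab_join_eq HN H (W.low hlx10.le) (W.low hly10.le) (Ne.symm ht) hzx hzy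
              (l := k) (by omega)
            have h7 := one_le_nab (z := x) (l := k) (by omega)
            have h8 := one_le_nab (z := y) (l := k) (by omega)
            omega
        have hvs : 10 ≤ vs 5 1 z := by
          unfold vs
          simp only [Finset.sum_range_succ, Finset.sum_range_zero]
          have g1 := hn (5 + 1) (by omega) (by omega)
          have g2 := hn (5 + 2) (by omega) (by omega)
          have g3 := hn (5 + 3) (by omega) (by omega)
          have g4 := hn (5 + 4) (by omega) (by omega)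
          have g5 := hn (5 + 5) (by omega) (by omega)
          norm_num at g1 g2 g3 g4 g5 ⊢
          omega
        rw [hcst, htop]
        omega
  · left
    have h1 := cst_ge (i := 5) (h := hA θ) (z := z) (fun _ => 1)
      (fun k _ hk => one_le_nab hk)
    rw [hlz] at h1
    have h2 : 2 ≤ hA θ z := by omega
    have h3 : ∑ k ∈ range (2 * 5 + 1 + 1), min 2 (k - 5) * 1 ≤
        ∑ k ∈ range (2 * 5 + 1 + 1), min (hA θ z) (k - 5) * 1 := by
      refine Finset.sum_le_sum fun k _ => ?_
      rw [Nat.mul_one, Nat.mul_one]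
      omega
    have h4 : ∑ k ∈ range (2 * 5 + 1 + 1), min 2 (k - 5) * 1 = 11 := by decide
    omega

/-- no thin boundary elements -/
theorem Ctx.cost' (W : Ctx r N b θ B) {z : P} (hz : z ∈ bdR (R10 P)) :
    11 ≤ cst 5 (hA θ) z := by
  classical
  by_contra hcon
  have HT : FarT P 5 (R10 P) (∑ t, b t) (hcan (R10 P) (thA θ)) 10 :=
    farT_L R10_low R10_lev topOf (fun x y hxy hx => W.cp hxy hx) b (thA θ) (BA N B)
      W.not_BA W.compL W.gt.H.gradedBelow
  have h6 := (W.cost hz).resolve_left hcon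
  have h1 := HT.dvd_lead (n := 6) (by omega) (by
    intro w hw
    have := W.cost hw
    show 6 ≤ cst 5 (hA θ) w
    omega)
  rw [W.sum_b] at h1
  have h2 := dvd_Z W.gt.H.gauss 5 6
  have h3 := dvd_sub h2 h1
  rw [sub_sub_cancel] at h3
  set S := (bdR (R10 P)).filter (fun z => cst 5 (hcan (R10 P) (thA θ)) z = 6) with hS
  have hzS : z ∈ S := mem_filter.mpr ⟨hz, h6.1⟩
  have hB : 2 ≤ (lv P 5).card := by
    have := nab_le z 5
    omega
  obtain ⟨c, hc⟩ : ∃ c, (lv P 5).card = c + 1 := ⟨(lv P 5).card - 1, by omega⟩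
  have hLt : ∀ w ∈ S, Lt 5 (hcan (R10 P) (thA θ)) w = X ^ (below P 5 + 2) * (1 + X) ^ c := by
    intro w hw
    obtain ⟨hw1, hw2⟩ := mem_filter.mp hw
    obtain ⟨-, g2, g3, g4⟩ := (W.cost hw1).resolve_left (by
      have : cst 5 (hA θ) w = 6 := hw2
      omega)
    have g2' : hcan (R10 P) (thA θ) w = 1 := g2
    unfold Lt
    rw [nst_one g2', g3, g2', g4, hc]
    congr 2
  rw [Finset.sum_congr rfl hLt, Finset.sum_const, hc, pow_succ, nsmul_eq_mul,
    ← mul_assoc, mul_comm _ ((1 + X : ℤ[X]) ^ c)] at h3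
  obtain ⟨w, hw⟩ := (mul_dvd_mul_iff_left (one_add_X_pow_ne c)).mp h3
  have h4 := congrArg (fun f : ℤ[X] => f.eval (-1)) hw
  simp only [eval_mul, eval_natCast, eval_pow, eval_X, eval_add, eval_one] at h4
  rw [add_neg_cancel, zero_mul] at h4
  have h5 : (S.card : ℤ) ≠ 0 := by
    have := Finset.card_pos.mpr ⟨z, hzS⟩
    omega
  exact mul_ne_zero h5 (pow_ne_zero _ (by norm_num)) h4

/-- the top is dead -/
def Dead (b : Tops P → ℕ) (t : Tops P) : Prop := ∃ (lo hi : ℕ → ℕ) (e : ℕ → ℕ → P),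
  Cp.Comp 10 (t : P) lo hi e ∧ WordD 10 4 w4d lo hi ∧ b t = 2

/-- **There is no dead top.** -/
theorem Ctx.no_dead (W : Ctx r N b θ B) (t0 : Tops P) : ¬ Dead b t0 := by
  classical
  intro h0
  have HN := W.natSys
  refine no_first_pole (n0 := 10) (i := 5) (by omega) W.gt.H.gauss R10_low R10_lev topOf
    (fun x y hxy hx => W.cp hxy hx) b (thA θ) (BA N B) W.not_BA W.compL ?_ W.sum_b
    (fun z hz => ?_) (fun t => if Dead b t then -1 else 0) ?_ ?_ (k0 := t0) ?_
  · intro t
    rcases W.typ t with ⟨h1, h2, h3, h4, h5⟩ | ⟨lo, hi, e, C, D, h1, h2, h3, h4⟩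
    · exact h5
    · omega
  · have := W.cost' hz
    show 10 < cst 5 (hA θ) z
    omega
  · intro t
    by_cases hd : Dead b t
    · right
      intro f hf
      obtain ⟨lo, hi, e, C, D, hb⟩ := hd
      obtain ⟨φ⟩ := W.iso t (Subset.refl (R10 P)) (lowPart 10 (t : P)) (by
        intro x
        refine ⟨fun h => ⟨h, fun h' => ?_⟩, fun h => h.1⟩
        have h1 := mem_R10.mp h'
        have h2 := (mem_lowPart.mp h).2
        omega)
      rw [if_pos ⟨lo, hi, e, C, D, hb⟩, hb]
      refine dead_full D C W.gt.H W.gt.good t.2 fun n => ?_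
      rw [hf, Z_iso φ]
    · left
      rw [if_neg hd]
      refine ⟨rfl, fun n => ?_⟩
      rcases W.typ t with ⟨h1, h2, h3, h4, h5⟩ | ⟨lo, hi, e, C, D, h1, h2, h3, h4⟩
      · have h6 : CompData (unnat N) topOf t 5 (b t) (thA θ) (BA N B) := by
          refine h1.data N HN rfl _ _ ?_ ?_
          · intro x hx
            show θ (topOf x) x = _
            rw [HN.topOf_eq hx]
          · intro x hx
            unfold BA
            simp only [HN.topOf_eq hx, (HN.mem_iff.mp hx).1, not_false_eq_true, true_and]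
        have h7 := (CompData.mono h6 W.unnat_sub).clean (R10 P)
          ⟨R10_low, Subset.refl _, R10_lev, W.not_BA⟩ inferInstance
        exact dvd_Z_of_dvd_W h7 n
      · exact absurd ⟨lo, hi, e, C, D, h1⟩ hd
  · intro t
    split_ifs <;> norm_num
  · rw [if_pos h0]
    norm_num

end Pool.Agent.GaussPoset.Dd

end

/-! From `Pool.Agent.W_448dd_h67.DdK` -/

section

/-!
The types of the components at the window 5, level 10; there is no component with the word
`OC CO CO OO CC CO` at level 10.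
-/

namespace Pool.Agent.GaussPoset.Dd

set_option linter.unusedSectionVars false

open Polynomial Finset Cl Wd Cp

universe u

variable {P : Type u} [Fintype P] [PartialOrder P] [DecidableEq P] {r : ℕ}

section Nab

variable {j N J : ℕ} {t : P} {lo hi : ℕ → ℕ} {e : ℕ → ℕ → P} {los his ll sl cv nn um : ℕ → ℕ}

/-- the numbers of elements above a cell -/
lemma strip_nab (S : StripOK N J los his ll sl cv nn) (C : Cp.Comp j t lo hi e)
    (H : Gr P r) (hg : ∀ l, l < j → Win.Good P l) (ht : lev t = 0) (hj : j ≤ J)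
    (hlo : ∀ k, k ≤ j → lo k = los k) (hhi : ∀ k, k ≤ j → hi k = his k)
    (hcv : ∀ a < N, cv a < 2 ^ a) (hum : ∀ a < N, um a = Nat.lor (2 ^ a) (orM um N (cv a)))
    {a : ℕ} (ha : a < nn j) (k : ℕ) : nab k (e (ll a) (sl a)) =
      ((range (nn j)).filter (fun b => (um a).testBit b = true ∧ ll b = k)).card := by
  classical
  have hC := S.cod C H hg ht hj hlo hhi
  have hN := S.nle j (by omega)
  have hrow : ∀ a < nn j, ll a ≤ j ∧ lo (ll a) ≤ sl a ∧ sl a ≤ hi (ll a) := fun a ha => by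
    have h4 : ll a ≤ j := (S.num j (by omega) a (by omega)).mp ha
    have h5 := S.row a (by omega)
    rw [← hlo _ h4, ← hhi _ h4] at h5
    exact ⟨h4, h5⟩
  have hmem : ∀ a < nn j, e (ll a) (sl a) ∈ lowPart j t := by
    intro a ha
    obtain ⟨h4, h5, h6⟩ := hrow a ha
    rw [mem_lowPart, C.lev_e _ _ h4 h5 h6]
    exact ⟨C.le_t _ _ h4 h5 h6, h4⟩
  unfold nab
  refine (Finset.card_bij (fun b _ => e (ll b) (sl b)) ?_ ?_ ?_).symm
  · intro b hb
    rw [mem_filter, mem_range] at hb
    rw [mem_filter, mem_lv]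
    exact ⟨by rw [hC.lev b hb.1, hb.2.2], (hC.le_iff hN hcv hum ha hb.1).mpr hb.2.1⟩
  · intro b hb b' hb' h
    rw [mem_filter, mem_range] at hb hb'
    exact hC.inj b hb.1 b' hb'.1 h
  · intro y hy
    rw [mem_filter, mem_lv] at hy
    have h1 := mem_lowPart.mp (hmem a ha)
    have hyt := Cp.up_le H hg ht h1.1 h1.2 hy.2
    have hyl : lev y ≤ lev (e (ll a) (sl a)) := by
      rcases eq_or_lt_of_le hy.2 with h | h
      · rw [h]
      · exact (lev_strictAnti h).le
    obtain ⟨b, hb, rfl⟩ := S.surj' C hj hlo hhi (mem_lowPart.mpr ⟨hyt, by omega⟩)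
    refine ⟨b, ?_, rfl⟩
    rw [mem_filter, mem_range]
    exact ⟨hb, (hC.le_iff hN hcv hum ha hb).mp hy.2, by rw [← hC.lev b hb]; exact hy.1⟩

end Nab

section Types

variable {t : Tops P} {lo hi : ℕ → ℕ} {e : ℕ → ℕ → P}

/-- light components -/
lemma t5_light (h : Win.GoodTo P r 10) (C : Comp 10 (t : P) lo hi e) (h1 : hi 5 = lo 5) :
    ∃ N θ B, T5 t (hi 5 - lo 5 + 1) N θ B := by
  refine ⟨_, _, _, T5.nat (N := onlyB t) (θ := fun x => lev x - 5) (B := fun _ => False) ?_ ?_ ?_
    ?_ (by omega)⟩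
  · rw [h1, Nat.sub_self, Nat.zero_add]
    exact natTop_light h.H.gradedBelow (fun x hx hxi => only_low h x hx (by omega))
      ⟨e 5 (lo 5), C.le_t 5 (lo 5) (by omega) le_rfl (C.lo_le 5 (by omega)),
        C.lev_e 5 (lo 5) (by omega) le_rfl (C.lo_le 5 (by omega))⟩
  · intro x hx
    rw [mem_lowPart] at hx
    exact only_low h x hx.1 hx.2
  · intro x _ hx
    exact absurd hx id
  · intro x _ hl h0
    have : lev x - 5 = 0 := h0
    omega

/-- rectangles -/
lemma t5_rect (h : Win.GoodTo P r 10) (C : Comp 10 (t : P) lo hi e) (S : RectShape 10 lo hi)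
    (hlt : lo 5 < hi 5) : ∃ N θ B, T5 t (hi 5 - lo 5 + 1) N θ B := by
  obtain ⟨Nc, co, h2, -⟩ := exists_rect C h.H h.good h.H.gradedBelow S (i := 5) le_rfl hlt
  have hb := h2.b_le
  refine ⟨_, _, _, T5.nat (h2.natTop h.H.gradedBelow (by omega)) ?_ ?_ ?_ (by omega)⟩
  · exact fun x hx => mem_natR.mpr (Or.inl (h2.strip hx))
  · rintro x - ⟨hx, hcx⟩
    have := h2.chart.lev x hx
    rw [hcx] at this
    simp only at this
    omega
  · intro x hxt hl h0
    have hx : x ∈ Nc := h2.strip (mem_lowPart.mpr ⟨hxt, hl.le⟩)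
    have hcl := h2.chart.lev x hx
    unfold thR at h0
    split_ifs at h0 with hJ
    · omega
    · left
      have hcx : co x = (5, 5) := by
        rcases h2.rows with h3 | h3
        · exact Prod.ext (by simp only; omega) (by simp only; omega)
        · have := h3 x hx
          exact Prod.ext (by simp only; omega) (by simp only; omega)
      have h6 := ct_chart h2.chart (shift := false) (by simp) hx 5 1
      rw [hcx, hl] at h6
      rw [h6]
      decide +kernel

/-- stairs -/
lemma t5_stair (h : Win.GoodTo P r 10) (C : Comp 10 (t : P) lo hi e) (S : StairShape 10 lo hi) :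
    ∃ N θ B, T5 t (hi 5 - lo 5 + 1) N θ B := by
  obtain ⟨Nc, co, h2, -⟩ := exists_stair C h.H h.good h.H.gradedBelow S (i := 5) le_rfl
  have e1 := S.hi 5 (by omega)
  have e2 := stair_lo (m := 5) C S
  have hb : hi 5 - lo 5 + 1 = 5 / 2 + 1 := by omega
  rw [hb]
  refine ⟨_, _, _, T5.nat (h2.natTop h.H.gradedBelow (by omega) (by omega)) ?_ ?_ ?_ (by omega)⟩
  · exact fun x hx => mem_natS.mpr (Or.inl (h2.strip hx))
  · rintro x - ⟨hx, hcx⟩
    have := h2.chart.lev x hx
    rw [hcx] at this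
    simp only at this
    omega
  · intro x hxt hl h0
    have hx : x ∈ Nc := h2.strip (mem_lowPart.mpr ⟨hxt, hl.le⟩)
    have hcl := h2.chart.lev x hx
    have hS : (co x).1 ≤ (co x).2 := h2.chart.mem x hx
    unfold thS at h0
    split_ifs at h0 with hJ
    · omega
    · omega

/-- quadrics -/
lemma t5_quad (h : Win.GoodTo P r 10) (C : Comp 10 (t : P) lo hi e) (Q : QRows 10 5 lo hi) :
    ∃ N θ B, T5 t (hi 5 - lo 5 + 1) N θ B := by
  classical
  have hQ : QInf 5 5 t := Q.inf (m := 5) C (by omega)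
  have e1 := Q.at'
  have hup : ∀ x ∈ lowPart (2 * 5) (t : P), ∀ y, x ≤ y → y ∈ lowPart (2 * 5) (t : P) := by
    intro x hx y hxy
    rw [mem_lowPart] at hx ⊢
    refine ⟨Cp.up_le h.H h.good t.2 hx.1 hx.2 hxy, ?_⟩
    rcases eq_or_lt_of_le hxy with h | h
    · rw [← h]; exact hx.2
    · have := lev_strictAnti h; omega
  have hb : hi 5 - lo 5 + 1 = 2 := by omega
  rw [hb]
  refine ⟨_, _, _, T5.nat (natTop_quad (m := 5) (by omega) (dvd_W_Qd 5) hQ hup) ?_ ?_ ?_
    (by omega)⟩
  · exact fun x hx => hx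
  · intro x hx _
    exact (mem_lowPart.mp hx).2
  · intro x hxt hl _
    right
    have hn : ∀ k, k ≤ 10 → nab k x = if k = 5 then 2 else 1 := by
      intro k hk
      rw [← hQ.cn k hk]
      unfold nab cn
      congr 1
      ext y
      rw [mem_filter, mem_filter, mem_lv]
      refine and_congr_right fun h1 => ⟨fun h2 => ?_, fun h2 => ?_⟩
      · exact Cp.up_le h.H h.good t.2 hxt hl.le h2
      · exact hQ.bot x hxt hl y h2 (by omega)
    refine ⟨fun k hk1 hk2 => ?_, ?_, ?_⟩
    · rw [hn k hk2, if_neg (by omega)]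
    · rw [hn 5 (by omega), if_pos rfl]
    · intro y hy hly hne
      exact absurd (hQ.unique hy hxt hly hl) hne

/-- `E6` -/
lemma t5_three (h : Win.GoodTo P r 10) (C : Comp 10 (t : P) lo hi e) (D : LateD 10 3 lo hi) :
    ∃ N θ B, T5 t (hi 5 - lo 5 + 1) N θ B := by
  have D' := (wordD_three D (by omega)).1
  obtain ⟨h1, h2⟩ := D'.rows C
  have hb : hi 5 - lo 5 + 1 = 2 := by
    rw [h1 5 (by omega), h2 5 (by omega)]
    decide +kernel
  rw [hb]
  have hN := natTop_E6 D' C h.H h.good h.H.gradedBelow (i := 5) (by omega) (by omega) le_rfl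
  have hr := row6 5 (by omega) (by omega)
  rw [← h1 (5 + 3) (by omega), ← h2 (5 + 3) (by omega)] at hr
  refine ⟨_, _, _, T5.nat hN (Subset.refl _) ?_ ?_ (by omega)⟩
  · intro x hx _
    exact (mem_lowPart.mp hx).2
  · intro x _ hl h0
    have : lev x - (5 + 3) = 0 := h0
    omega

/-- `E7` -/
lemma t5_seven (h : Win.GoodTo P r 10) (C : Comp 10 (t : P) lo hi e) (D : WordD 10 4 w7 lo hi) :
    ∃ N θ B, T5 t (hi 5 - lo 5 + 1) N θ B := by
  obtain ⟨h1, h2⟩ := D.rows C
  have hb : hi 5 - lo 5 + 1 = 2 := by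
    rw [h1 5 (by omega), h2 5 (by omega)]
    decide +kernel
  rw [hb]
  have hN := natTop_E7 D C h.H h.good h.H.gradedBelow (i := 5) (by omega) (by omega) (by omega)
    (by omega)
  refine ⟨_, _, _, T5.nat hN (Subset.refl _) ?_ ?_ (by omega)⟩
  · intro x hx _
    exact (mem_lowPart.mp hx).2
  · intro x _ hl h0
    have : lev x - (5 + 4) = 0 := h0
    omega

/-- the dead word -/
lemma t5_dead (C : Comp 10 (t : P) lo hi e) (D : WordD 10 4 w4d lo hi) :
    hi 5 - lo 5 + 1 = 2 ∧ ∃ N θ B, T5 t (hi 5 - lo 5 + 1) N θ B := by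
  obtain ⟨h1, h2⟩ := D.rows C
  have hb : hi 5 - lo 5 + 1 = 2 := by
    rw [h1 5 (by omega), h2 5 (by omega)]
    decide +kernel
  exact ⟨hb, _, _, _, T5.dead lo hi e C D hb rfl rfl rfl⟩

/-- the late component with `a = 5` -/
lemma t5_five (h : Win.GoodTo P r 10) (C : Comp 10 (t : P) lo hi e) (D : WordD 10 5 wa5 lo hi) :
    ∃ N θ B, T5 t (hi 5 - lo 5 + 1) N θ B := by
  obtain ⟨h1, h2⟩ := D.rows C
  have hb : hi 5 - lo 5 + 1 = 2 := by
    rw [h1 5 (by omega), h2 5 (by omega)]
    decide +kernel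
  rw [hb]
  have hN := natTopC_La5_5 D C h.H h.good le_rfl (by omega)
  refine ⟨_, _, _, T5.nat hN (Subset.refl _) ?_ ?_ (by omega)⟩
  · intro x hx _
    exact (mem_lowPart.mp hx).2
  · intro x hxt hl h0
    right
    have hrow : losW 5 wa5 10 = 3 ∧ hisW 5 wa5 10 = 5 := by decide +kernel
    rw [← h1 10 le_rfl, ← h2 10 le_rfl] at hrow
    have hcell : ∀ y ≤ (t : P), lev y = 10 → ∃ s, 3 ≤ s ∧ s ≤ 5 ∧ e 10 s = y ∧
        scoord lo hi e y = s := by
      intro y hy hly
      obtain ⟨g1, g2, g3⟩ := scoord_spec C hy hly.le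
      rw [hly] at g1 g2 g3
      exact ⟨_, by omega, by omega, g3, rfl⟩
    have hcv : ∀ a < 25, La5cv.getD a 0 < 2 ^ a := La5_us.cv
    have hum : ∀ a < 25, La5um.getD a 0 = Nat.lor (2 ^ a)
        (orM (fun a => La5um.getD a 0) 25 (La5cv.getD a 0)) := by decide +kernel
    have hnab := fun (a : ℕ) (ha : a < 19) (k : ℕ) =>
      strip_nab La5_strip C h.H h.good t.2 (by omega) h1 h2 hcv hum (a := a) ha k
    have c18 : ∀ k < 11, ((range 19).filter (fun b => (La5um.getD 18 0).testBit b = true ∧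
        La5lv.getD b 0 = k)).card = if k = 5 then 2 else 1 := by decide +kernel
    have c17 : ∀ k < 10, 6 ≤ k → 2 ≤ ((range 19).filter (fun b =>
        (La5um.getD 17 0).testBit b = true ∧ La5lv.getD b 0 = k)).card := by decide +kernel
    have c16 : ∀ k < 10, 6 ≤ k → 2 ≤ ((range 19).filter (fun b =>
        (La5um.getD 16 0).testBit b = true ∧ La5lv.getD b 0 = k)).card := by decide +kernel
    have n18 : ∀ k < 11, nab k (e 10 5) = if k = 5 then 2 else 1 := fun k hk =>
      (hnab 18 (by norm_num) k).trans (c18 k hk)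
    have n17 : ∀ k < 10, 6 ≤ k → 2 ≤ nab k (e 10 4) := fun k hk hk2 =>
      (c17 k hk hk2).trans (hnab 17 (by norm_num) k).ge
    have n16 : ∀ k < 10, 6 ≤ k → 2 ≤ nab k (e 10 3) := fun k hk hk2 =>
      (c16 k hk hk2).trans (hnab 16 (by norm_num) k).ge
    have hth : thC lo hi e La5t5 x = 0 := h0
    obtain ⟨s, s1, s2, s3, s4⟩ := hcell x hxt hl
    have hs : s = 5 := by
      unfold thC at hth
      rw [hl, s4] at hth
      obtain rfl | rfl | rfl : s = 3 ∨ s = 4 ∨ s = 5 := by omega
      · exact absurd hth (by decide +kernel)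
      · exact absurd hth (by decide +kernel)
      · rfl
    subst hs
    rw [← s3]
    refine ⟨fun k hk1 hk2 => ?_, ?_, ?_⟩
    · rw [n18 k (by omega), if_neg (by omega)]
    · rw [n18 5 (by omega), if_pos rfl]
    · intro y hy hly hne k hk1 hk2
      obtain ⟨s', g1, g2, g3, -⟩ := hcell y hy hly
      obtain rfl | rfl | rfl : s' = 3 ∨ s' = 4 ∨ s' = 5 := by omega
      · rw [← g3]; exact n16 k (by omega) hk1
      · rw [← g3]; exact n17 k (by omega) hk1
      · exact absurd g3.symm hne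

lemma late4_six : ∀ w ∈ lateW 4, w.length = 6 → w = w7.take 6 ∨ w = w4d := by decide +kernel

lemma late5_five : ∀ w ∈ lateW 5, w.length = 5 → w = wa5.take 5 := by decide +kernel

/-- the late components at `j = 10`, `a = 4` -/
lemma late_four (D : LateD 10 4 lo hi) : WordD 10 4 w7 lo hi ∨ WordD 10 4 w4d lo hi := by
  rcases D.h4 with h | h
  · omega
  · rcases late4_six _ h (by rw [word_length]) with h1 | h1
    · exact Or.inl ⟨D.h2, D.h3, h1⟩
    · exact Or.inr ⟨D.h2, D.h3, h1⟩

/-- the types of all components -/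
theorem t5_shape (h : Win.GoodTo P r 10) (C : Comp 10 (t : P) lo hi e) (hS : Shape 10 lo hi) :
    ∃ N θ B, T5 t (hi 5 - lo 5 + 1) N θ B := by
  rcases hS with h1 | ⟨h1, S'⟩ | ⟨h1, h2⟩ | ⟨h1, h2, h3⟩ | ⟨h1, h2⟩ | ⟨a, h0, h1, h2, h3, hN, h4⟩
  · have e1 := h1 5 (by omega)
    exact t5_light h C (by omega)
  · have hlt : lo 5 < hi 5 := by
      have g1 := C.lo_mono (l := 1) (d := 4) (by omega)
      have g2 := C.hi_mono (l := 1) (d := 4) (by omega)
      norm_num at g1 g2
      by_contra hcon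
      have g3 := C.lo_le 5 (by omega)
      have g4 := shape_lo C S'.lo (l := 5) (by omega) 5 (by omega)
      have g5 := shape_hi C S'.hi (l := 5) (by omega) 5 (by omega)
      have g6 := C.lo_le (5 + 5) (by omega)
      omega
    exact t5_rect h C S' hlt
  · exact t5_stair h C h2
  · omega
  · omega
  · have D : LateD 10 a lo hi := ⟨h0, h1, h2, h3, h4⟩
    rcases Nat.lt_or_ge 5 a with hma | hma
    · have e1 := D.h2 5 hma
      exact t5_light h C (by omega)
    · rcases h4 with ⟨⟨g1, g2⟩, g3⟩ | g3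
      · have hq := D.quad C g3
        obtain rfl : a = 5 := by omega
        exact t5_quad h C ⟨D.h2, D.h3, by
          intro k hk hk2
          have := hq (k - 5) (by omega) (by omega)
          rwa [show 5 + (k - 5) = k by omega] at this⟩
      · obtain rfl | rfl | rfl : a = 3 ∨ a = 4 ∨ a = 5 := by omega
        · exact t5_three h C D
        · rcases late_four D with D' | D'
          · exact t5_seven h C D'
          · exact (t5_dead C D').2
        · exact t5_five h C ⟨D.h2, D.h3, late5_five _ g3 (by rw [word_length])⟩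

end Types

/-- **There is no component with the word `OC CO CO OO CC CO` at level 10.** -/
theorem no_w4d {lo hi : Tops P → ℕ → ℕ} {e : Tops P → ℕ → ℕ → P} (h : Win.GoodTo P r 10)
    (C : ∀ t : Tops P, Comp 10 (t : P) (lo t) (hi t) (e t))
    (hS : ∀ t, Shape 10 (lo t) (hi t)) (t : Tops P) : ¬ WordD 10 4 w4d (lo t) (hi t) := by
  intro D
  choose N θ B hT using fun t => t5_shape h (C t) (hS t)
  have W : Ctx r N (fun t => hi t 5 - lo t 5 + 1) θ B :=
    ⟨h, hT, (card_level h.H h.good C (i := 5) (by omega)).symm⟩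
  exact W.no_dead t ⟨lo t, hi t, e t, C t, D, (t5_dead (C t) D).1⟩

end Pool.Agent.GaussPoset.Dd

end

/-! From `Pool.Agent.W_448s14_h94.SgK` -/

section

/-!
Level 14, window 7: there are no pendants below thin elements (energy 8).
-/

namespace Pool.Agent.GaussPoset.Sg

set_option linter.unusedSectionVars false

open Polynomial Finset Cl Dd Wd Win

universe u

variable {P : Type u} [Fintype P] [PartialOrder P] [DecidableEq P] {r : ℕ}

/-- a thin element of level 14: one element above of the levels 8 to 14, two of level 7 -/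
def Thin (x : P) : Prop := (∀ k, 8 ≤ k → k ≤ 14 → nab k x = 1) ∧ nab 7 x = 2

/-- the elements of level above 14 -/
noncomputable def R14 (P : Type u) [Fintype P] [PartialOrder P] : Finset P := by
  classical exact univ.filter (fun x => 14 < lev x)

lemma mem_R14 {x : P} : x ∈ R14 P ↔ 14 < lev x := by
  classical
  unfold R14
  simp

lemma R14_low : ∀ x y : P, x ≤ y → y ∈ R14 P → x ∈ R14 P := by
  intro x y hxy hy
  rw [mem_R14] at hy ⊢
  rcases eq_or_lt_of_le hxy with h | h
  · rw [h]; exact hy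
  · have := lev_strictAnti h; omega

lemma R14_lev : ∀ x ∈ R14 P, 7 < lev x := by
  intro x hx
  rw [mem_R14] at hx
  omega

/-- natural sets which contain the strip, costs of the elements of level 15 at least `c0` except
below thin elements -/
structure Nt (t : Tops P) (b : ℕ) (N : Finset P) (θ : P → ℕ) (B : P → Prop) (c0 : ℕ) : Prop where
  nt : NatTop 7 t b N θ B
  strip : lowPart 14 (t : P) ⊆ N
  base : ∀ x ∈ N, B x → lev x ≤ 14
  cost : ∀ x ≤ (t : P), lev x = 14 → c0 ≤ ct 7 (θ x + 1) x + min (θ x + 1) 8 ∨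
    (θ x = 0 ∧ Thin x)
  one : 1 ≤ b

/-- the context -/
structure C7 (r : ℕ) (N : Tops P → Finset P) (b : Tops P → ℕ) (θ : Tops P → P → ℕ)
    (B : Tops P → P → Prop) : Prop where
  gt : GoodTo P r 14
  typ : ∀ t, Nt t (b t) (N t) (θ t) (B t) 9
  sum_b : ∑ t, b t = (lv P 7).card

variable {N : Tops P → Finset P} {b : Tops P → ℕ} {θ : Tops P → P → ℕ} {B : Tops P → P → Prop}

lemma C7.natSys (W : C7 r N b θ B) : NatSys N := natSys_of_tops fun t => (W.typ t).nt

lemma C7.low (W : C7 r N b θ B) {x : P} (hx : lev x ≤ 14) : x ∈ N (topOf x) :=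
  (W.typ _).strip (mem_lowPart.mpr ⟨le_topOf x, hx⟩)

lemma C7.unnat_sub (W : C7 r N b θ B) : unnat N ⊆ R14 P := by
  intro x hx
  rw [mem_R14]
  by_contra hcon
  exact mem_unnat.mp hx (topOf x) (W.low (by omega))

lemma C7.cp (W : C7 r N b θ B) {x y : P} (hxy : x ≤ y) (hx : x ∉ R14 P) : topOf x = topOf y :=
  W.natSys.cp x y hxy fun h => hx (W.unnat_sub h)

lemma C7.not_BA (W : C7 r N b θ B) : ∀ x ∈ R14 P, ¬ Dd.BA N B x := by
  rintro x hx ⟨h1, h2⟩
  rw [mem_R14] at hx
  have hxN : x ∈ N (topOf x) := W.natSys.mem_iff.mpr ⟨h1, rfl⟩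
  have := (W.typ (topOf x)).base x hxN h2
  omega

theorem C7.compL (W : C7 r N b θ B) (t : Tops P) :
    CompDataL (R14 P) topOf t 7 (b t) 9 (Dd.thA θ) (Dd.BA N B) := by
  have HN := W.natSys
  have h6 : CompData (unnat N) topOf t 7 (b t) (Dd.thA θ) (Dd.BA N B) := by
    refine (W.typ t).nt.data N HN rfl _ _ ?_ ?_
    · intro x hx
      show θ (topOf x) x = _
      rw [HN.topOf_eq hx]
    · intro x hx
      unfold Dd.BA
      simp only [HN.topOf_eq hx, (HN.mem_iff.mp hx).1, not_false_eq_true, true_and]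
  exact CompDataL.of (CompData.mono h6 W.unnat_sub) 9

/-- the label one, level 15 -/
lemma ct_one {z : P} (hl : lev z = 15) : ct 7 1 z =
    nab 8 z + nab 9 z + nab 10 z + nab 11 z + nab 12 z + nab 13 z + nab 14 z + 1 := by
  unfold ct
  rw [cst_eq, hl]
  have h := nab_self (z := z)
  rw [hl] at h
  simp only [Finset.sum_range_succ, Finset.sum_range_zero, h]
  norm_num

/-- the costs of the boundary elements -/
theorem C7.cost (W : C7 r N b θ B) {z : P} (hz : z ∈ bdR (R14 P)) :
    9 ≤ cst 7 (hcan (R14 P) (Dd.thA θ)) z ∨ (cst 7 (hcan (R14 P) (Dd.thA θ)) z = 8 ∧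
      hcan (R14 P) (Dd.thA θ) z = 1 ∧ nab 7 z = 2 ∧ nab 8 z = 1) := by
  classical
  have H := W.gt.H
  obtain ⟨x, hx, hzx, hh⟩ := hcan_spec (θ := Dd.thA θ) hz
  have hh' : hcan (R14 P) (Dd.thA θ) z = θ (topOf x) x + 1 := hh
  have hzR : 14 < lev z := mem_R14.mp (mem_filter.mp hz).1
  have hlx : ¬ 14 < lev x := fun h => hx (mem_R14.mpr h)
  have hzl := (H.covBy_iff.mp hzx).2
  have hlx14 : lev x = 14 := by omega
  have hlz : lev z = 15 := by omega
  rw [cst_ct (i := 7) hh', hh']
  rcases (W.typ (topOf x)).cost x (le_topOf x) hlx14 with h1 | ⟨h1, h2, h3⟩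
  · left
    have h5 := ct_cov (i := 7) (k := θ (topOf x) x + 1) hzx.1
    rw [hlz] at h5
    omega
  · rw [h1, Nat.zero_add, ct_one hlz]
    have hge : ∀ k, 8 ≤ k → k ≤ 14 → 1 ≤ nab k z := fun k _ hk => one_le_nab (by omega)
    by_cases hp : ∀ y, z ⋖ y → y = x
    · right
      have hn : ∀ k, k ≤ 14 → nab k z = nab k x := fun k hk =>
        nab_pend (⟨hzx, hp⟩ : Pend z x) (by omega)
      rw [hn 7 (by omega), hn 8 (by omega), hn 9 (by omega), hn 10 (by omega), hn 11 (by omega),
        hn 12 (by omega), hn 13 (by omega), hn 14 (by omega), h3, h2 8 (by omega) (by omega),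
        h2 9 (by omega) (by omega), h2 10 (by omega) (by omega), h2 11 (by omega) (by omega),
        h2 12 (by omega) (by omega), h2 13 (by omega) (by omega), h2 14 (by omega) (by omega)]
      norm_num
    · left
      push Not at hp
      obtain ⟨y, hzy, hyx⟩ := hp
      have hly := (H.covBy_iff.mp hzy).2
      have h4 : 2 ≤ nab 14 z :=
        two_le_nab hzx.le hzy.le hlx14 (by omega) (Ne.symm hyx)
      have g1 := hge 8 (by omega) (by omega)
      have g2 := hge 9 (by omega) (by omega)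
      have g3 := hge 10 (by omega) (by omega)
      have g4 := hge 11 (by omega) (by omega)
      have g5 := hge 12 (by omega) (by omega)
      have g6 := hge 13 (by omega) (by omega)
      omega

/-- **No pendants below thin elements.** -/
theorem C7.no_thin (W : C7 r N b θ B) {z x : P} (hl : lev z = 15) (hp : Pend z x)
    (h0 : θ (topOf x) x = 0) (ht : Thin x) : False := by
  classical
  have H := W.gt.H
  have hzx := hp.1
  have hzl := (H.covBy_iff.mp hzx).2
  have hxR : x ∉ R14 P := fun h => by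
    have := mem_R14.mp h
    omega
  have hz : z ∈ bdR (R14 P) := mem_filter.mpr ⟨mem_R14.mpr (by omega), x, hxR, hzx⟩
  have HT : FarT P 7 (R14 P) (∑ t, b t) (hcan (R14 P) (Dd.thA θ)) 9 :=
    farT_L R14_low R14_lev topOf (fun x y hxy hx => W.cp hxy hx) b (Dd.thA θ) (Dd.BA N B)
      W.not_BA W.compL H.gradedBelow
  have hz8 : cst 7 (hcan (R14 P) (Dd.thA θ)) z = 8 := by
    have h1 : hcan (R14 P) (Dd.thA θ) z = 1 := by
      have h2 := hcan_le (θ := Dd.thA θ) hxR hzx
      have h3 : Dd.thA θ x = 0 := h0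
      have h4 := HT.one_le z hz
      omega
    rw [cst_ct (i := 7) h1, ct_one hl]
    have hn : ∀ k, k ≤ 14 → nab k z = nab k x := fun k hk => nab_pend hp (by omega)
    rw [hn 8 (by omega), hn 9 (by omega), hn 10 (by omega), hn 11 (by omega),
      hn 12 (by omega), hn 13 (by omega), hn 14 (by omega), ht.1 8 (by omega) (by omega),
      ht.1 9 (by omega) (by omega), ht.1 10 (by omega) (by omega), ht.1 11 (by omega) (by omega),
      ht.1 12 (by omega) (by omega), ht.1 13 (by omega) (by omega), ht.1 14 (by omega) (by omega)]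
  have h1 := HT.dvd_lead (n := 8) (by omega) (by
    intro w hw
    have := W.cost hw
    omega)
  rw [W.sum_b] at h1
  have h2 := dvd_Z H.gauss 7 8
  have h3 := dvd_sub h2 h1
  rw [sub_sub_cancel] at h3
  set S := (bdR (R14 P)).filter (fun z => cst 7 (hcan (R14 P) (Dd.thA θ)) z = 8) with hS
  have hzS : z ∈ S := mem_filter.mpr ⟨hz, hz8⟩
  have hB : 2 ≤ (lv P 7).card := by
    have h5 := nab_le z 7
    have h6 : nab 7 z = nab 7 x := nab_pend hp (by omega)
    have := ht.2
    omega
  obtain ⟨c, hc⟩ : ∃ c, (lv P 7).card = c + 1 := ⟨(lv P 7).card - 1, by omega⟩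
  have hLt : ∀ w ∈ S, Lt 7 (hcan (R14 P) (Dd.thA θ)) w = X ^ (below P 7 + 2) * (1 + X) ^ c := by
    intro w hw
    obtain ⟨hw1, hw2⟩ := mem_filter.mp hw
    obtain ⟨-, g2, g3, g4⟩ := (W.cost hw1).resolve_left (by omega)
    unfold Lt
    rw [nst_one g2, g3, g2, g4, hc]
    congr 2
  rw [Finset.sum_congr rfl hLt, Finset.sum_const, hc, pow_succ, nsmul_eq_mul,
    ← mul_assoc, mul_comm _ ((1 + X : ℤ[X]) ^ c)] at h3
  obtain ⟨w, hw⟩ := (mul_dvd_mul_iff_left (one_add_X_pow_ne c)).mp h3
  have h4 := congrArg (fun f : ℤ[X] => f.eval (-1)) hw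
  simp only [eval_mul, eval_natCast, eval_pow, eval_X, eval_add, eval_one] at h4
  rw [add_neg_cancel, zero_mul] at h4
  have h5 : (S.card : ℤ) ≠ 0 := by
    have := Finset.card_pos.mpr ⟨z, hzS⟩
    omega
  exact mul_ne_zero h5 (pow_ne_zero _ (by norm_num)) h4

end Pool.Agent.GaussPoset.Sg

end

/-! From `Pool.Agent.W_448s14_h94.SgM` -/

section

/-!
The types of the components at level 14, window 7; there is no element of level 15 below both ends
of a component `La7`.
-/

namespace Pool.Agent.GaussPoset.Sg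

set_option linter.unusedSectionVars false

open Polynomial Finset Cl Dd Wd Cp

universe u

variable {P : Type u} [Fintype P] [PartialOrder P] [DecidableEq P] {r : ℕ}

/-- the lower bound of the costs from one element above of every level -/
lemma ct_ge {x : P} (hl : lev x = 14) (k : ℕ) :
    ∑ l ∈ range 15, min k (l - 7) ≤ ct 7 k x := by
  unfold ct
  rw [cst_eq, hl]
  refine Finset.sum_le_sum fun l hl2 => ?_
  rw [mem_range] at hl2
  have := one_le_nab (z := x) (l := l) (by omega)
  calc min k (l - 7) = min k (l - 7) * 1 := (Nat.mul_one _).symm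
    _ ≤ _ := Nat.mul_le_mul_left _ this

lemma ct_k (k : ℕ) (h : 4 ≤ k) : 26 ≤ (∑ l ∈ range 15, min k (l - 7)) + min k 8 := by
  have h1 : ∑ l ∈ range 15, min 4 (l - 7) ≤ ∑ l ∈ range 15, min k (l - 7) :=
    Finset.sum_le_sum fun l _ => by omega
  have h2 : ∑ l ∈ range 15, min 4 (l - 7) = 22 := by decide
  omega

lemma rect_k : ∀ s < 15, 26 ≤ (∑ a ∈ range (s + 1),
    rowW false (fun k => min ((s - 7) + (14 - s - 7) + 1) (k - 7)) (14 - s) 14 a) +
      min ((s - 7) + (14 - s - 7) + 1) 8 := by decide +kernel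

lemma stair_k : ∀ s < 8, 26 ≤ (∑ a ∈ range (s + 1),
    rowW true (fun k => min ((s - 6) + (14 - s - 7) + 1) (k - 7)) (14 - s) 14 a) +
      min ((s - 6) + (14 - s - 7) + 1) 8 := by decide +kernel

/-- the data of one component -/
def Dat (t : Tops P) (b : ℕ) (lo hi : ℕ → ℕ) (e : ℕ → ℕ → P) (N : Finset P) (θ : P → ℕ)
    (B : P → Prop) : Prop :=
  Nt t b N θ B 9 ∧ ((Nt t b N θ B 26 ∧ ∀ x ≤ (t : P), lev x = 14 → θ x = 0 → Thin x →
    ∀ y ≤ (t : P), lev y = 14 → y = x) ∨
    (WordD 14 7 wa7 lo hi ∧ b = 2 ∧ θ (ce e 29) = 0 ∧ Thin (ce e 29)))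

lemma Nt.weak {t : Tops P} {b c c' : ℕ} {N : Finset P} {θ : P → ℕ} {B : P → Prop}
    (h : Nt t b N θ B c) (hc : c' ≤ c) : Nt t b N θ B c' :=
  ⟨h.nt, h.strip, h.base, fun x hx hl => (h.cost x hx hl).imp_left fun g => hc.trans g, h.one⟩

lemma dat_nat {t : Tops P} {b : ℕ} {lo hi : ℕ → ℕ} {e : ℕ → ℕ → P} {N : Finset P} {θ : P → ℕ}
    {B : P → Prop} (h1 : NatTop 7 t b N θ B) (h2 : lowPart 14 (t : P) ⊆ N)
    (h3 : ∀ x ∈ N, B x → lev x ≤ 14)
    (h4 : ∀ x ≤ (t : P), lev x = 14 → 26 ≤ ct 7 (θ x + 1) x + min (θ x + 1) 8)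
    (h5 : 1 ≤ b) : Dat t b lo hi e N θ B := by
  have h6 : Nt t b N θ B 26 := ⟨h1, h2, h3, fun x hx hl => Or.inl (h4 x hx hl), h5⟩
  refine ⟨h6.weak (by norm_num), Or.inl ⟨h6, ?_⟩⟩
  intro x hx hl h0 ht
  exfalso
  have h7 := h4 x hx hl
  rw [h0] at h7
  unfold ct at h7
  rw [cst_eq, hl] at h7
  simp only [Finset.sum_range_succ, Finset.sum_range_zero] at h7
  have g := ht.1
  rw [g 8 (by omega) (by omega), g 9 (by omega) (by omega), g 10 (by omega) (by omega),
    g 11 (by omega) (by omega), g 12 (by omega) (by omega), g 13 (by omega) (by omega),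
    g 14 (by omega) (by omega)] at h7
  norm_num at h7

section Types

variable {t : Tops P} {lo hi : ℕ → ℕ} {e : ℕ → ℕ → P}

/-- light components -/
lemma t7_light (h : Win.GoodTo P r 14) (C : Comp 14 (t : P) lo hi e) (h1 : hi 7 = lo 7) :
    ∃ N θ B, Dat t (hi 7 - lo 7 + 1) lo hi e N θ B := by
  refine ⟨_, _, _, dat_nat (N := onlyB t) (θ := fun x => lev x - 7) (B := fun _ => False) ?_ ?_ ?_
    ?_ (by omega)⟩
  · rw [h1, Nat.sub_self, Nat.zero_add]
    exact natTop_light h.H.gradedBelow (fun x hx hxi => only_low h x hx (by omega))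
      ⟨e 7 (lo 7), C.le_t 7 (lo 7) (by omega) le_rfl (C.lo_le 7 (by omega)),
        C.lev_e 7 (lo 7) (by omega) le_rfl (C.lo_le 7 (by omega))⟩
  · intro x hx
    rw [mem_lowPart] at hx
    exact only_low h x hx.1 hx.2
  · intro x _ hx
    exact absurd hx id
  · intro x _ hl
    have h2 := ct_ge hl (lev x - 7 + 1)
    have h3 := ct_k (lev x - 7 + 1) (by omega)
    show 26 ≤ ct 7 (lev x - 7 + 1) x + min (lev x - 7 + 1) 8
    omega

/-- rectangles -/
lemma t7_rect (h : Win.GoodTo P r 14) (C : Comp 14 (t : P) lo hi e) (S : RectShape 14 lo hi)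
    (hlt : lo 7 < hi 7) : ∃ N θ B, Dat t (hi 7 - lo 7 + 1) lo hi e N θ B := by
  obtain ⟨Nc, co, h2, -⟩ := exists_rect C h.H h.good h.H.gradedBelow S (i := 7) le_rfl hlt
  have hb := h2.b_le
  refine ⟨_, _, _, dat_nat (h2.natTop h.H.gradedBelow (by omega)) ?_ ?_ ?_ (by omega)⟩
  · exact fun x hx => mem_natR.mpr (Or.inl (h2.strip hx))
  · rintro x - ⟨hx, hcx⟩
    have := h2.chart.lev x hx
    rw [hcx] at this
    simp only at this
    omega
  · intro x hxt hl
    have hx : x ∈ Nc := h2.strip (mem_lowPart.mpr ⟨hxt, hl.le⟩)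
    have hcl := h2.chart.lev x hx
    have h2' := ct_ge hl (thR 7 (hi 7 - lo 7 + 1) Nc co x + 1)
    by_cases hJ : x ∈ junk (fun _ => True) Nc co ∨ x ∈ junk (fun _ => True) Nc (swp co)
    · have h4 : thR 7 (hi 7 - lo 7 + 1) Nc co x = 7 := by
        unfold thR
        rw [if_pos hJ]
        omega
      rw [h4] at h2' ⊢
      have h3 := ct_k (7 + 1) (by omega)
      omega
    · have h4 : thR 7 (hi 7 - lo 7 + 1) Nc co x = ((co x).1 - 7) + ((co x).2 - 7) := by
        unfold thR
        rw [if_neg hJ]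
        rcases h2.rows with h3 | h3
        · omega
        · have := h3 x hx
          omega
      have h5 := rect_k (co x).1 (by omega)
      have h6 := ct_chart h2.chart (shift := false) (by simp) hx 7
        (((co x).1 - 7) + ((co x).2 - 7) + 1)
      rw [hl, show (co x).2 = 14 - (co x).1 by omega] at h6
      rw [h4, show (co x).2 = 14 - (co x).1 by omega, h6]
      exact h5

/-- stairs -/
lemma t7_stair (h : Win.GoodTo P r 14) (C : Comp 14 (t : P) lo hi e) (S : StairShape 14 lo hi) :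
    ∃ N θ B, Dat t (hi 7 - lo 7 + 1) lo hi e N θ B := by
  obtain ⟨Nc, co, h2, -⟩ := exists_stair C h.H h.good h.H.gradedBelow S (i := 7) le_rfl
  have e1 := S.hi 7 (by omega)
  have e2 := stair_lo (m := 7) C S
  have hb : hi 7 - lo 7 + 1 = 7 / 2 + 1 := by omega
  rw [hb]
  refine ⟨_, _, _, dat_nat (h2.natTop h.H.gradedBelow (by omega) (by omega)) ?_ ?_ ?_ (by omega)⟩
  · exact fun x hx => mem_natS.mpr (Or.inl (h2.strip hx))
  · rintro x - ⟨hx, hcx⟩
    have := h2.chart.lev x hx
    rw [hcx] at this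
    simp only at this
    omega
  · intro x hxt hl
    have hx : x ∈ Nc := h2.strip (mem_lowPart.mpr ⟨hxt, hl.le⟩)
    have hcl := h2.chart.lev x hx
    have hS : (co x).1 ≤ (co x).2 := h2.chart.mem x hx
    have h2' := ct_ge hl (thS 7 Nc co x + 1)
    by_cases hJ : x ∈ junk (fun c => c.1 ≤ c.2) Nc co
    · have h4 : thS 7 Nc co x = 7 := by
        unfold thS
        rw [if_pos hJ]
        omega
      rw [h4] at h2' ⊢
      have h3 := ct_k (7 + 1) (by omega)
      omega
    · have h4 : thS 7 Nc co x = ((co x).1 - 6) + ((co x).2 - 7) := by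
        unfold thS
        rw [if_neg hJ]
      have h5 := stair_k (co x).1 (by omega)
      have h6 := ct_chart h2.chart (shift := true) (by simp) hx 7
        (((co x).1 - 6) + ((co x).2 - 7) + 1)
      rw [hl, show (co x).2 = 14 - (co x).1 by omega] at h6
      rw [h4, show (co x).2 = 14 - (co x).1 by omega, h6]
      exact h5

/-- quadrics -/
lemma t7_quad (h : Win.GoodTo P r 14) (C : Comp 14 (t : P) lo hi e) (Q : QRows 14 7 lo hi) :
    ∃ N θ B, Dat t (hi 7 - lo 7 + 1) lo hi e N θ B := by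
  classical
  have hQ : QInf 7 7 t := Q.inf (m := 7) C (by omega)
  have e1 := Q.at'
  have hup : ∀ x ∈ lowPart (2 * 7) (t : P), ∀ y, x ≤ y → y ∈ lowPart (2 * 7) (t : P) := by
    intro x hx y hxy
    rw [mem_lowPart] at hx ⊢
    refine ⟨Cp.up_le h.H h.good t.2 hx.1 hx.2 hxy, ?_⟩
    rcases eq_or_lt_of_le hxy with h | h
    · rw [← h]; exact hx.2
    · have := lev_strictAnti h; omega
  have hb : hi 7 - lo 7 + 1 = 2 := by omega
  rw [hb]
  have hN := natTop_quad (m := 7) (by omega) (dvd_W_Qd 7) hQ hup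
  have h6 : Nt t 2 (lowPart (2 * 7) (t : P)) (fun _ => 0)
      (fun x => x ∈ lowPart (2 * 7) (t : P)) 26 := by
    refine ⟨hN, fun x hx => hx, fun x hx _ => (mem_lowPart.mp hx).2, ?_, by norm_num⟩
    intro x hxt hl
    right
    have hn : ∀ k, k ≤ 14 → nab k x = if k = 7 then 2 else 1 := by
      intro k hk
      rw [← hQ.cn k hk]
      unfold nab cn
      congr 1
      ext y
      rw [mem_filter, mem_filter, mem_lv]
      refine and_congr_right fun h1 => ⟨fun h2 => ?_, fun h2 => ?_⟩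
      · exact Cp.up_le h.H h.good t.2 hxt hl.le h2
      · exact hQ.bot x hxt hl y h2 (by omega)
    refine ⟨rfl, fun k hk1 hk2 => ?_, ?_⟩
    · rw [hn k hk2, if_neg (by omega)]
    · rw [hn 7 (by omega), if_pos rfl]
  exact ⟨_, _, _, h6.weak (by norm_num), Or.inl ⟨h6, fun x hx hl _ _ y hy hly =>
    hQ.unique hy hx hly hl⟩⟩

/-- `E7` -/
lemma t7_seven (h : Win.GoodTo P r 14) (C : Comp 14 (t : P) lo hi e) (D : WordD 14 4 w7 lo hi) :
    ∃ N θ B, Dat t (hi 7 - lo 7 + 1) lo hi e N θ B := by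
  obtain ⟨h1, h2⟩ := D.rows C
  have hb : hi 7 - lo 7 + 1 = 2 := by
    rw [h1 7 (by omega), h2 7 (by omega)]
    decide +kernel
  rw [hb]
  have hN := natTop_E7 D C h.H h.good h.H.gradedBelow (i := 7) (by omega) (by omega) (by omega)
    (by omega)
  have hr := row7 7 (by omega) (by omega)
  rw [← h1 (7 + 4) (by omega), ← h2 (7 + 4) (by omega)] at hr
  refine ⟨_, _, _, dat_nat hN (Subset.refl _) ?_ ?_ (by omega)⟩
  · intro x hx _
    exact (mem_lowPart.mp hx).2
  · intro x _ hl
    have h2 := ct_ge hl (lev x - (7 + 4) + 1)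
    have h3 := ct_k (lev x - (7 + 4) + 1) (by omega)
    show 26 ≤ ct 7 (lev x - (7 + 4) + 1) x + min (lev x - (7 + 4) + 1) 8
    omega

/-- `La7` -/
lemma t7_la (h : Win.GoodTo P r 14) (C : Comp 14 (t : P) lo hi e) (D : WordD 14 7 wa7 lo hi) :
    ∃ N θ B, Dat t (hi 7 - lo 7 + 1) lo hi e N θ B ∧ θ (ce e 29) = 0 ∧ Thin (ce e 29) := by
  obtain ⟨h1, h2⟩ := D.rows C
  have hb : hi 7 - lo 7 + 1 = 2 := by
    rw [h1 7 (by omega), h2 7 (by omega)]
    decide +kernel
  rw [hb]
  have hN := natTopC_La7_7 D C h.H h.good le_rfl le_rfl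
  have hcv : ∀ a < 30, La7cv.getD a 0 < 2 ^ a := La7_us.cv
  have hnab : ∀ k, nab k (ce e 29) = ((range 30).filter (fun b =>
      (La7um.getD 29 0).testBit b = true ∧ La7lv.getD b 0 = k)).card := fun k =>
    strip_nab La7_strip C h.H h.good t.2 le_rfl h1 h2 hcv La7_um (a := 29) (by decide +kernel) k
  have hthin : Thin (ce e 29) := by
    have c1 : ∀ k < 15, 8 ≤ k → ((range 30).filter (fun b =>
        (La7um.getD 29 0).testBit b = true ∧ La7lv.getD b 0 = k)).card = 1 := by decide +kernel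
    have c2 : ((range 30).filter (fun b =>
        (La7um.getD 29 0).testBit b = true ∧ La7lv.getD b 0 = 7)).card = 2 := by decide +kernel
    exact ⟨fun k hk1 hk2 => (hnab k).trans (c1 k (by omega) hk1), (hnab 7).trans c2⟩
  have hth : ∀ a < 30, thC lo hi e La7t7 (ce e a) = La7t7 (La7lv.getD a 0) (La7sl.getD a 0) := by
    intro a ha
    have h3 := La7_strip.row a ha
    have h4 : La7lv.getD a 0 ≤ 14 := by
      have h : ∀ a < 30, La7lv.getD a 0 ≤ 14 := by decide +kernel
      exact h a ha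
    rw [← h1 _ h4, ← h2 _ h4] at h3
    exact thC_e C La7t7 h4 h3.1 h3.2
  have h0 : thC lo hi e La7t7 (ce e 29) = 0 := (hth 29 (by norm_num)).trans (by decide +kernel)
  refine ⟨_, _, _, ⟨⟨hN, Finset.Subset.refl _, fun x hx _ => (mem_lowPart.mp hx).2, ?_,
    by norm_num⟩, Or.inr ⟨D, rfl, h0, hthin⟩⟩, h0, hthin⟩
  intro x hx hl
  obtain ⟨a, ha, rfl⟩ := La7_surj D C hx hl.le
  have ha25 : 25 ≤ a := La7_lv14 a ha (by rw [← (La7_le D C ha).2]; exact hl)
  by_cases h29 : a = 29
  · right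
    rw [h29]
    exact ⟨h0, hthin⟩
  · left
    have h5 : ∀ a < 29, 25 ≤ a → 1 ≤ La7t7 (La7lv.getD a 0) (La7sl.getD a 0) := by decide +kernel
    have h6 := h5 a (by omega) ha25
    rw [← hth a ha] at h6
    have h7 := ct_ge hl (thC lo hi e La7t7 (ce e a) + 1)
    have h8 : ∑ l ∈ range 15, min 2 (l - 7) ≤
        ∑ l ∈ range 15, min (thC lo hi e La7t7 (ce e a) + 1) (l - 7) :=
      Finset.sum_le_sum fun l _ => by omega
    have h9 : ∑ l ∈ range 15, min 2 (l - 7) = 13 := by decide
    omega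

lemma late5_14 : ∀ w ∈ lateW 5, w.length ≠ 9 := by decide +kernel
lemma late6_14 : ∀ w ∈ lateW 6, w.length ≠ 8 := by decide +kernel
lemma late7_14 : ∀ w ∈ lateW 7, w.length = 7 → w = wa7.take 7 := by decide +kernel

/-- the types of all components -/
theorem t7_shape (h : Win.GoodTo P r 14) (C : Comp 14 (t : P) lo hi e) (hS : Shape 14 lo hi) :
    ∃ N θ B, Dat t (hi 7 - lo 7 + 1) lo hi e N θ B := by
  rcases hS with h1 | ⟨h1, S'⟩ | ⟨h1, h2⟩ | ⟨h1, h2, h3⟩ | ⟨h1, h2⟩ | ⟨a, h0, h1, h2, h3, hN, h4⟩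
  · have e1 := h1 7 (by omega)
    exact t7_light h C (by omega)
  · have hlt : lo 7 < hi 7 := by
      have g1 := C.lo_mono (l := 1) (d := 6) (by omega)
      have g2 := C.hi_mono (l := 1) (d := 6) (by omega)
      norm_num at g1 g2
      by_contra hcon
      have g3 := C.lo_le 7 (by omega)
      have g4 := shape_lo C S'.lo (l := 7) (by omega) 7 (by omega)
      have g5 := shape_hi C S'.hi (l := 7) (by omega) 7 (by omega)
      have g6 := C.lo_le (7 + 7) (by omega)
      omega
    exact t7_rect h C S' hlt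
  · exact t7_stair h C h2
  · omega
  · omega
  · have D : LateD 14 a lo hi := ⟨h0, h1, h2, h3, h4⟩
    rcases Nat.lt_or_ge 7 a with hma | hma
    · have e1 := D.h2 7 hma
      exact t7_light h C (by omega)
    · rcases h4 with ⟨⟨g1, g2⟩, g3⟩ | g3
      · have hq := D.quad C g3
        obtain rfl : a = 7 := by omega
        exact t7_quad h C ⟨D.h2, D.h3, by
          intro k hk hk2
          have := hq (k - 7) (by omega) (by omega)
          rwa [show 7 + (k - 7) = k by omega] at this⟩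
      · obtain rfl | rfl | rfl | rfl | rfl : a = 3 ∨ a = 4 ∨ a = 5 ∨ a = 6 ∨ a = 7 := by omega
        · have := (wordD_three D (by omega)).2
          omega
        · exact t7_seven h C (wordD_four D (by omega) (by omega)).1
        · exact absurd word_length (late5_14 _ g3)
        · exact absurd word_length (late6_14 _ g3)
        · obtain ⟨N, θ, B, h5, -⟩ := t7_la h C ⟨D.h2, D.h3, late7_14 _ g3 (by rw [word_length])⟩
          exact ⟨N, θ, B, h5⟩

end Types

end Pool.Agent.GaussPoset.Sg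

end

/-! From `Pool.Agent.W_448f6_h94.FxM` -/

section

/-!
The natural set of the component `E7` at level 14, window 6: the levels `≤ 14`, the pendants
below the last cell and the elements below them (MP_448cb3_co, S8, `j = 14`).
-/

namespace Pool.Agent.GaussPoset.F6

set_option linter.unusedSectionVars false

open Polynomial Finset Cl Wd Cp Sg Cs

universe u

variable {P : Type u} [Fintype P] [PartialOrder P] [DecidableEq P] {r : ℕ} {v : P}

open Classical in
/-- the pendants below `v` -/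
noncomputable def A15 (v : P) : Finset P := univ.filter (fun z => Pend z v)

open Classical in
/-- the elements whose covers are pendants below `v` -/
noncomputable def A16 (v : P) : Finset P :=
  univ.filter (fun w => (∃ y, w ⋖ y) ∧ ∀ y, w ⋖ y → Pend y v)

lemma mem_A15 {z : P} : z ∈ A15 v ↔ Pend z v := by
  unfold A15
  simp

lemma mem_A16 {w : P} : w ∈ A16 v ↔ (∃ y, w ⋖ y) ∧ ∀ y, w ⋖ y → Pend y v := by
  unfold A16
  simp

/-- the natural set -/
noncomputable def nE (t : Tops P) (v : P) : Finset P := lowPart 14 (t : P) ∪ A15 v ∪ A16 v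

lemma mem_nE {t : Tops P} {x : P} :
    x ∈ nE t v ↔ x ∈ lowPart 14 (t : P) ∨ Pend x v ∨ x ∈ A16 v := by
  unfold nE
  rw [mem_union, mem_union, mem_A15, or_assoc]

lemma getD_inj {α : Type*} {l : List α} (h : l.Nodup) {a b : ℕ} (ha : a < l.length)
    (hb : b < l.length) {d : α} (hab : l.getD a d = l.getD b d) : a = b := by
  rw [List.getD_eq_getElem _ _ ha, List.getD_eq_getElem _ _ hb] at hab
  exact (h.getElem_inj_iff).mp hab

lemma getD_mem {α : Type*} {l : List α} {a : ℕ} (ha : a < l.length) {d : α} :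
    l.getD a d ∈ l := by
  rw [List.getD_eq_getElem _ _ ha]
  exact List.getElem_mem _

lemma mem_getD {α : Type*} {l : List α} {x d : α} (h : x ∈ l) :
    ∃ a < l.length, l.getD a d = x := by
  obtain ⟨a, ha, h⟩ := List.mem_iff_getElem.mp h
  exact ⟨a, ha, by rw [List.getD_eq_getElem _ _ ha]; exact h⟩

/-- the data of the cells of the levels 15 and 16 -/
structure Dat (v : P) (zs : List P) (L : List (P × ℕ)) (ms : List ℕ) : Prop where
  znd : zs.Nodup
  zmem : ∀ x, x ∈ zs ↔ Pend x v
  lnd : (L.map Prod.fst).Nodup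
  lcov : ∀ p ∈ L, ∀ y, p.1 ⋖ y ↔ ∃ j < zs.length, p.2.testBit j = true ∧ zs.getD j v = y
  lall : ∀ x ∈ A16 v, ∃ p ∈ L, p.1 = x
  lmem : ∀ p ∈ L, p.1 ∈ A16 v
  lms : L.map Prod.snd = ms

/-- the code -/
def cE (c : ℕ → P) (v : P) (zs : List P) (L : List (P × ℕ)) (a : ℕ) : P :=
  if a < 25 + zs.length then (if a < 25 then c a else zs.getD (a - 25) v)
  else (L.map Prod.fst).getD (a - (25 + zs.length)) v

section Code

variable {c : ℕ → P} {zs : List P} {L : List (P × ℕ)} {ms : List ℕ} {cv lv : ℕ → ℕ}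

lemma Dat.len (D : Dat v zs L ms) : (L.map Prod.fst).length = ms.length := by
  rw [← D.lms, List.length_map, List.length_map]

/-- the entries -/
lemma Dat.get (D : Dat v zs L ms) {k : ℕ} (hk : k < ms.length) :
    ∃ p ∈ L, (L.map Prod.fst).getD k v = p.1 ∧ ms.getD k 0 = p.2 := by
  have h1 : k < L.length := by
    have := D.lms
    rw [← this, List.length_map] at hk
    exact hk
  refine ⟨L[k], List.getElem_mem _, ?_, ?_⟩
  · rw [List.getD_eq_getElem _ _ (by rw [List.length_map]; exact h1), List.getElem_map]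
  · have := D.lms
    subst this
    rw [List.getD_eq_getElem _ _ (by rw [List.length_map]; exact h1), List.getElem_map]

theorem Dat.cod (D : Dat v zs L ms) (C : Cod 25 (fun a => E7cv.getD a 0) (fun a => E7lv.getD a 0) c)
    (hv : c 24 = v) (hlz : ∀ z, Pend z v → GaussPoset.lev z = 15)
    (hlw : ∀ w ∈ A16 v, GaussPoset.lev w = 16)
    (h1 : ∀ a < 25, cv a = E7cv.getD a 0) (h2 : ∀ a < 25, lv a = E7lv.getD a 0)
    (h3 : ∀ k < zs.length, cv (25 + k) = 2 ^ 24 ∧ lv (25 + k) = 15)
    (h4 : ∀ k < ms.length, cv (25 + zs.length + k) = ms.getD k 0 * 2 ^ 25 ∧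
      lv (25 + zs.length + k) = 16) (h5 : ∀ k < ms.length, ms.getD k 0 < 2 ^ zs.length) :
    Cod (25 + zs.length + ms.length) cv lv (cE c v zs L) := by
  have hl14 : ∀ a < 25, E7lv.getD a 0 ≤ 14 := by decide +kernel
  have C1 := Sg.cod_append (n := 25) (K := zs.length) (cx := fun _ => 2 ^ 24) (lx := fun _ => 15)
    (z := fun k => zs.getD k v) (cv' := cv) (lv' := lv) C (by decide +kernel)
    (fun _ _ => by norm_num) h1 h2 (fun k hk => (h3 k hk).1) (fun k hk => (h3 k hk).2)
    (fun a ha b hb h => getD_inj D.znd ha hb h) (by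
      intro a ha b hb h
      have g1 := C.lev a ha
      have g2 := hlz _ ((D.zmem _).mp (getD_mem (d := v) hb))
      rw [← h, g1] at g2
      have := hl14 a ha
      omega) (by
      intro k hk y
      have g1 := (D.zmem _).mp (getD_mem (d := v) hk)
      constructor
      · intro h
        exact ⟨24, by norm_num, by decide +kernel, hv.trans (g1.2 y h).symm⟩
      · rintro ⟨b, hb, hbit, rfl⟩
        have h : ∀ b < 25, (2 ^ 24 : ℕ).testBit b = true → b = 24 := by decide +kernel
        rw [h b hb hbit, hv]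
        exact g1.1) (fun k hk => hlz _ ((D.zmem _).mp (getD_mem (d := v) hk)))
  have hz' : ∀ j < zs.length, (fun a => if a < 25 then c a else zs.getD (a - 25) v) (25 + j) =
      zs.getD j v := by
    intro j _
    simp only
    rw [if_neg (by omega), Nat.add_sub_cancel_left]
  have hc1 : ∀ a < 25 + zs.length, cv a < 2 ^ (25 + zs.length) := by
    intro a ha
    have hp : (2 : ℕ) ^ 25 ≤ 2 ^ (25 + zs.length) := Nat.pow_le_pow_right (by norm_num) (by omega)
    by_cases h : a < 25
    · rw [h1 a h]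
      have : ∀ a < 25, E7cv.getD a 0 < 2 ^ 25 := by decide +kernel
      exact (this a h).trans_le hp
    · have := (h3 (a - 25) (by omega)).1
      rw [show 25 + (a - 25) = a by omega] at this
      rw [this]
      exact lt_of_lt_of_le (by norm_num) hp
  have hlen := D.len
  exact Sg.cod_append (n := 25 + zs.length) (K := ms.length)
    (cx := fun k => ms.getD k 0 * 2 ^ 25) (lx := fun _ => 16)
    (z := fun k => (L.map Prod.fst).getD k v) (cv' := cv) (lv' := lv) C1 hc1
    (fun k hk => by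
      rw [pow_add, mul_comm]
      exact Nat.mul_lt_mul_of_pos_left (h5 k hk) (by norm_num)) (fun _ _ => rfl) (fun _ _ => rfl)
    (fun k hk => (h4 k hk).1) (fun k hk => (h4 k hk).2)
    (fun a ha b hb h => getD_inj D.lnd (by omega) (by omega) h) (by
      intro a ha b hb h
      obtain ⟨p, hp, hp1, -⟩ := D.get hb
      have g2 := hlw _ (D.lmem p hp)
      rw [← hp1, ← h, C1.lev a ha] at g2
      by_cases ha' : a < 25
      · rw [h2 a ha'] at g2
        have := hl14 a ha'
        omega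
      · have := (h3 (a - 25) (by omega)).2
        rw [show 25 + (a - 25) = a by omega] at this
        omega) (by
      intro k hk y
      obtain ⟨p, hp, hp1, hp2⟩ := D.get hk
      rw [hp1, hp2, D.lcov p hp y]
      constructor
      · rintro ⟨j, hj, hbit, rfl⟩
        refine ⟨25 + j, by omega, ?_, hz' j hj⟩
        rw [← Nat.shiftLeft_eq, Nat.testBit_shiftLeft]
        simp [hbit]
      · rintro ⟨b, hb, hbit, rfl⟩
        rw [← Nat.shiftLeft_eq, Nat.testBit_shiftLeft] at hbit
        simp only [ge_iff_le, Bool.and_eq_true, decide_eq_true_eq] at hbit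
        refine ⟨b - 25, by omega, hbit.2, ?_⟩
        have g := hz' (b - 25) (by omega)
        rw [show 25 + (b - 25) = b by omega] at g
        exact g.symm) (by
      intro k hk
      obtain ⟨p, hp, hp1, -⟩ := D.get hk
      rw [hp1]
      exact hlw _ (D.lmem p hp))

/-- the cells are the elements of the natural set -/
theorem Dat.surj (D : Dat v zs L ms) {t : Tops P} (hst : ∀ x, x ∈ lowPart 14 (t : P) ↔
    ∃ a < 25, c a = x) (x : P) :
    x ∈ nE t v ↔ ∃ a < 25 + zs.length + ms.length, cE c v zs L a = x := by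
  have hlen := D.len
  rw [mem_nE]
  constructor
  · rintro (h | h | h)
    · obtain ⟨a, ha, rfl⟩ := (hst x).mp h
      exact ⟨a, by omega, by unfold cE; rw [if_pos (by omega), if_pos ha]⟩
    · obtain ⟨a, ha, h1⟩ := mem_getD (d := v) ((D.zmem x).mpr h)
      refine ⟨25 + a, by omega, ?_⟩
      unfold cE
      rw [if_pos (by omega), if_neg (by omega), Nat.add_sub_cancel_left]
      exact h1
    · obtain ⟨p, hp, rfl⟩ := D.lall x h
      obtain ⟨a, ha, h1⟩ := mem_getD (d := v) (List.mem_map_of_mem (f := Prod.fst) hp)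
      refine ⟨25 + zs.length + a, by omega, ?_⟩
      unfold cE
      rw [if_neg (by omega), Nat.add_sub_cancel_left]
      exact h1
  · rintro ⟨a, ha, rfl⟩
    unfold cE
    by_cases h1 : a < 25 + zs.length
    · rw [if_pos h1]
      by_cases h2 : a < 25
      · rw [if_pos h2]
        exact Or.inl ((hst _).mpr ⟨a, h2, rfl⟩)
      · rw [if_neg h2]
        exact Or.inr (Or.inl ((D.zmem _).mp (getD_mem (by omega))))
    · rw [if_neg h1]
      obtain ⟨p, hp, hp1, -⟩ := D.get (k := a - (25 + zs.length)) (by omega)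
      rw [hp1]
      exact Or.inr (Or.inr (D.lmem p hp))

end Code

end Pool.Agent.GaussPoset.F6

end

/-! From `Pool.Agent.W_448s7s_h5.TvA` -/

section

/-!
The strip `E7` at level 14 with elements of the levels 15 and 16, window 7 (MP_448cb3_co, S7,
`j = 14`): the certificates.
-/

namespace Pool.Agent.GaussPoset.Tv

open Cl Dd Sg

/-! ### one element of level 15 and two elements of level 16 -/

/-- the thresholds at window 7, `Ea` -/
def Ea7th : List ℕ := [0, 0, 0, 0, 0, 0, 0, 0, 0, 0, 0, 0, 0, 0, 0, 0, 0, 0, 0, 1, 0, 1, 1, 2, 3, 4, 5, 5]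

/-- the up-sets above the base, window 7: code, `ℓ`, `M`, exponent, coefficient -/
def Ea7L : List (ℕ × ℕ × ℕ × ℕ × ℕ) := [(268435455, 17, 11, 195, 0), (201326591, 17, 10, 177, 0), (134217727, 17, 10, 177, 0), (67108863, 16, 10, 177, 0), (33554431, 15, 10, 177, 0), (16777215, 14, 10, 177, 0), (8388607, 13, 10, 177, 0), (6291455, 13, 9, 160, 0), (5767167, 13, 8, 144, 0), (4194303, 13, 9, 160, 0), (2097151, 12, 9, 160, 0), (1572863, 12, 8, 144, 0)]

theorem Ea7_pol : polC 28 (2 ^ 80) 11 F6.Eaus 7 Ea7L = true :=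
  polC_of_fast (by decide +kernel) (by decide +kernel)

theorem Ea7_low : lowC 28 11 7 58 (fun a => F6.Ealv.getD a 0) F6.Eaus 1572863 Ea7L = true := by
  decide +kernel

theorem Ea7_th : thChk 28 7 20 (fun a => F6.Ealv.getD a 0) (fun a => F6.Eacv.getD a 0)
    (fun a => F6.Eaum.getD a 0) (fun a => Ea7th.getD a 0) = true := by decide +kernel

theorem Ea7_bm : bmC 28 7 20 1572863 (fun a => F6.Ealv.getD a 0)
    (fun a => F6.Eaum.getD a 0) = true := by decide +kernel

/-! ### two elements of level 15 and four elements of level 16 -/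

/-- the thresholds at window 7, `Eb` -/
def Eb7th : List ℕ := [0, 0, 0, 0, 0, 0, 0, 0, 0, 0, 0, 0, 0, 0, 0, 0, 0, 0, 0, 1, 0, 1, 1, 2, 3, 4, 4, 5, 5, 5, 5]

/-- the up-sets above the base, window 7: code, `ℓ`, `M`, exponent, coefficient -/
def Eb7L : List (ℕ × ℕ × ℕ × ℕ × ℕ) := [(2147483647, 17, 14, 255, 0), (2013265919, 17, 13, 234, 0), (1879048191, 17, 13, 234, 0), (1744830463, 17, 12, 214, 0), (1711276031, 17, 11, 195, 0), (1610612735, 17, 13, 234, 0), (1476395007, 17, 12, 214, 0), (1342177279, 17, 12, 214, 0), (1207959551, 17, 11, 195, 0), (1174405119, 17, 10, 177, 0), (1073741823, 17, 13, 234, 0), (939524095, 17, 12, 214, 0), (805306367, 17, 12, 214, 0), (671088639, 17, 11, 195, 0), (637534207, 17, 10, 177, 0), (536870911, 17, 12, 214, 0), (469762047, 17, 11, 195, 0), (402653183, 17, 11, 195, 0), (335544319, 17, 10, 177, 0), (268435455, 17, 11, 195, 0), (201326591, 17, 10, 177, 0), (134217727, 16, 11, 195, 0), (100663295, 16, 10, 177, 0), (67108863, 16, 10, 177,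 0), (33554431, 15, 10, 177, 0), (16777215, 14, 10, 177, 0), (8388607, 13, 10, 177, 0), (6291455, 13, 9, 160, 0), (5767167, 13, 8, 144, 0), (4194303, 13, 9, 160, 0), (2097151, 12, 9, 160, 0), (1572863, 12, 8, 144, 0)]

theorem Eb7_pol : polC 31 (2 ^ 80) 14 F6.Ebus 7 Eb7L = true :=
  polC_of_fast (by decide +kernel) (by decide +kernel)

theorem Eb7_low : lowC 31 14 7 58 (fun a => F6.Eblv.getD a 0) F6.Ebus 1572863 Eb7L = true := by
  decide +kernel

theorem Eb7_th : thChk 31 7 20 (fun a => F6.Eblv.getD a 0) (fun a => F6.Ebcv.getD a 0)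
    (fun a => F6.Ebum.getD a 0) (fun a => Eb7th.getD a 0) = true := by decide +kernel

theorem Eb7_bm : bmC 31 7 20 1572863 (fun a => F6.Eblv.getD a 0)
    (fun a => F6.Ebum.getD a 0) = true := by decide +kernel

/-! ### two elements of level 15 and two elements of level 16 -/

/-- the thresholds at window 7, `Ec` -/
def Ec7th : List ℕ := [0, 0, 0, 0, 0, 0, 0, 0, 0, 0, 0, 0, 0, 0, 0, 0, 0, 0, 0, 1, 0, 1, 1, 2, 3, 4, 4, 5, 5]

/-- the up-sets above the base, window 7: code, `ℓ`, `M`, exponent, coefficient -/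
def Ec7L : List (ℕ × ℕ × ℕ × ℕ × ℕ) := [(536870911, 17, 12, 214, 0), (402653183, 17, 11, 195, 0), (369098751, 17, 10, 177, 0), (268435455, 17, 11, 195, 0), (201326591, 17, 10, 177, 0), (134217727, 16, 11, 195, 0), (100663295, 16, 10, 177, 0), (67108863, 16, 10, 177, 0), (33554431, 15, 10, 177, 0), (16777215, 14, 10, 177, 0), (8388607, 13, 10, 177, 0), (6291455, 13, 9, 160, 0), (5767167, 13, 8, 144, 0), (4194303, 13, 9, 160, 0), (2097151, 12, 9, 160, 0), (1572863, 12, 8, 144, 0)]

theorem Ec7_pol : polC 29 (2 ^ 80) 12 F6.Ecus 7 Ec7L = true :=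
  polC_of_fast (by decide +kernel) (by decide +kernel)

theorem Ec7_low : lowC 29 12 7 58 (fun a => F6.Eclv.getD a 0) F6.Ecus 1572863 Ec7L = true := by
  decide +kernel

theorem Ec7_th : thChk 29 7 20 (fun a => F6.Eclv.getD a 0) (fun a => F6.Eccv.getD a 0)
    (fun a => F6.Ecum.getD a 0) (fun a => Ec7th.getD a 0) = true := by decide +kernel

theorem Ec7_bm : bmC 29 7 20 1572863 (fun a => F6.Eclv.getD a 0)
    (fun a => F6.Ecum.getD a 0) = true := by decide +kernel

/-! ### two elements of level 15, a common one of level 16 and two more -/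

/-- the thresholds at window 7, `Ed` -/
def Ed7th : List ℕ := [0, 0, 0, 0, 0, 0, 0, 0, 0, 0, 0, 0, 0, 0, 0, 0, 0, 0, 0, 1, 0, 1, 1, 2, 3, 4, 4, 5, 5, 5]

/-- the up-sets above the base, window 7: code, `ℓ`, `M`, exponent, coefficient -/
def Ed7L : List (ℕ × ℕ × ℕ × ℕ × ℕ) := [(1073741823, 17, 13, 234, 0), (939524095, 17, 12, 214, 0), (805306367, 17, 12, 214, 0), (671088639, 17, 11, 195, 0), (637534207, 17, 10, 177, 0), (536870911, 17, 12, 214, 0), (402653183, 17, 11, 195, 0), (335544319, 17, 10, 177, 0), (268435455, 17, 11, 195, 0), (134217727, 16, 11, 195, 0), (100663295, 16, 10, 177, 0), (67108863, 16, 10, 177, 0), (33554431, 15, 10, 177, 0), (16777215, 14, 10, 177, 0), (8388607, 13, 10, 177, 0), (6291455, 13, 9, 160, 0), (5767167, 13, 8, 144, 0), (4194303, 13, 9, 160, 0), (2097151, 12, 9, 160, 0), (1572863, 12, 8, 144, 0)]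

theorem Ed7_pol : polC 30 (2 ^ 80) 13 F6.Edus 7 Ed7L = true :=
  polC_of_fast (by decide +kernel) (by decide +kernel)

theorem Ed7_low : lowC 30 13 7 58 (fun a => F6.Edlv.getD a 0) F6.Edus 1572863 Ed7L = true := by
  decide +kernel

theorem Ed7_th : thChk 30 7 20 (fun a => F6.Edlv.getD a 0) (fun a => F6.Edcv.getD a 0)
    (fun a => F6.Edum.getD a 0) (fun a => Ed7th.getD a 0) = true := by decide +kernel

theorem Ed7_bm : bmC 30 7 20 1572863 (fun a => F6.Edlv.getD a 0)
    (fun a => F6.Edum.getD a 0) = true := by decide +kernel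

/-! ### two elements of level 15, two common ones of level 16 -/

/-- the thresholds at window 7, `Ee` -/
def Ee7th : List ℕ := [0, 0, 0, 0, 0, 0, 0, 0, 0, 0, 0, 0, 0, 0, 0, 0, 0, 0, 0, 1, 0, 1, 1, 2, 3, 4, 4, 5, 5]

/-- the up-sets above the base, window 7: code, `ℓ`, `M`, exponent, coefficient -/
def Ee7L : List (ℕ × ℕ × ℕ × ℕ × ℕ) := [(536870911, 17, 12, 214, 0), (402653183, 17, 11, 195, 0), (268435455, 17, 11, 195, 0), (134217727, 16, 11, 195, 0), (100663295, 16, 10, 177, 0), (67108863, 16, 10, 177, 0), (33554431, 15, 10, 177, 0), (16777215, 14, 10, 177, 0), (8388607, 13, 10, 177, 0), (6291455, 13, 9, 160, 0), (5767167, 13, 8, 144, 0), (4194303, 13, 9, 160, 0), (2097151, 12, 9, 160, 0), (1572863, 12, 8, 144, 0)]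

theorem Ee7_pol : polC 29 (2 ^ 80) 12 F6.Eeus 7 Ee7L = true :=
  polC_of_fast (by decide +kernel) (by decide +kernel)

theorem Ee7_low : lowC 29 12 7 58 (fun a => F6.Eelv.getD a 0) F6.Eeus 1572863 Ee7L = true := by
  decide +kernel

theorem Ee7_th : thChk 29 7 20 (fun a => F6.Eelv.getD a 0) (fun a => F6.Eecv.getD a 0)
    (fun a => F6.Eeum.getD a 0) (fun a => Ee7th.getD a 0) = true := by decide +kernel

theorem Ee7_bm : bmC 29 7 20 1572863 (fun a => F6.Eelv.getD a 0)
    (fun a => F6.Eeum.getD a 0) = true := by decide +kernel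

end Pool.Agent.GaussPoset.Tv

end

/-! From `Pool.Agent.W_448s7s_h5.TvB` -/

section

/-!
The local data of the component `E7` at level 14, window 7 (MP_448cb3_co, S7, `j = 14`).
-/

namespace Pool.Agent.GaussPoset.Tv

set_option linter.unusedSectionVars false

open Polynomial Finset Cl Wd Cp Sg Cs F6

universe u

variable {P : Type u} [Fintype P] [PartialOrder P] [DecidableEq P] {r : ℕ} {v : P}

/-- the check of the cells -/
def chk7 (cv lv th : List ℕ) (N k15 : ℕ) (ms : List ℕ) : Bool :=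
  ((List.range 25).all fun a => Nat.beq (cv.getD a 0) (E7cv.getD a 0) &&
    Nat.beq (lv.getD a 0) (E7lv.getD a 0)) &&
  ((List.range k15).all fun k => Nat.beq (cv.getD (25 + k) 0) (2 ^ 24) &&
    Nat.beq (lv.getD (25 + k) 0) 15 && Nat.beq (th.getD (25 + k) 0) 4) &&
  ((List.range ms.length).all fun k =>
    Nat.beq (cv.getD (25 + k15 + k) 0) (ms.getD k 0 * 2 ^ 25) &&
    Nat.beq (lv.getD (25 + k15 + k) 0) 16 && Nat.beq (th.getD (25 + k15 + k) 0) 5 &&
    Nat.blt (ms.getD k 0) (2 ^ k15)) &&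
  Nat.beq (th.getD 24 0) 3 && Nat.ble (25 + k15 + ms.length) N

/-- the data of the component -/
structure E7L7 (t : Tops P) (v : P) (θ : P → ℕ) : Prop where
  loc : ∃ B, LocL 7 2 59 (nE t v) θ B
  th14 : θ v = 3
  th15 : ∀ x, Pend x v → θ x = 4
  th16 : ∀ x ∈ A16 v, θ x = 5

variable {t : Tops P} {c : ℕ → P} {zs : List P} {L : List (P × ℕ)} {ms : List ℕ}

theorem datLoc (D : Dat v zs L ms) (C : Cod 25 (fun a => E7cv.getD a 0) (fun a => E7lv.getD a 0) c)
    (hv : c 24 = v) (hst : ∀ x, x ∈ lowPart 14 (t : P) ↔ ∃ a < 25, c a = x)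
    (hlz : ∀ z, Pend z v → GaussPoset.lev z = 15)
    (hlw : ∀ w ∈ A16 v, GaussPoset.lev w = 16) {cv lv th um Us : List ℕ} {N B K k15 : ℕ}
    {LL : List (ℕ × ℕ × ℕ × ℕ × ℕ)} (hk : zs.length = k15)
    (hchk : chk7 cv lv th N k15 ms = true)
    (hU : UsOK N (fun a => cv.getD a 0) Us)
    (hpol : polC N B K Us 7 LL = true)
    (hlow : lowC N K 7 58 (fun a => lv.getD a 0) Us 1572863 LL = true)
    (hth : thChk N 7 20 (fun a => lv.getD a 0) (fun a => cv.getD a 0) (fun a => um.getD a 0)
      (fun a => th.getD a 0) = true)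
    (hbm : bmC N 7 20 1572863 (fun a => lv.getD a 0) (fun a => um.getD a 0) = true) :
    ∃ θ, E7L7 t v θ := by
  subst hk
  unfold chk7 at hchk
  simp only [Bool.and_eq_true, List.all_eq_true, List.mem_range, beq_iff, Nat.blt_eq,
    ble_iff] at hchk
  obtain ⟨⟨⟨⟨h1, h2⟩, h3⟩, h4⟩, h5⟩ := hchk
  have hc := D.cod (cv := fun a => cv.getD a 0) (lv := fun a => lv.getD a 0) C hv hlz hlw
    (fun a ha => (h1 a ha).1) (fun a ha => (h1 a ha).2)
    (fun k hk => ⟨(h2 k hk).1.1, (h2 k hk).1.2⟩)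
    (fun k hk => ⟨(h3 k hk).1.1.1, (h3 k hk).1.1.2⟩) (fun k hk => (h3 k hk).2)
  have hS := D.surj hst
  have hlen := D.len
  refine ⟨thI (25 + zs.length + ms.length) (cE c v zs L) (fun a => th.getD a 0), ?_, ?_, ?_, ?_⟩
  · refine ⟨_, cod_locL' hc hU h5 hth (by omega) hS hpol hlow (fun x hx => hx) hbm ?_⟩
    refine lt_of_lt_of_le (b := 2 ^ 25) (by norm_num) (Nat.pow_le_pow_right (by norm_num) ?_)
    omega
  · have e : v = cE c v zs L 24 := by
      unfold cE
      rw [if_pos (by omega), if_pos (by norm_num), hv]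
    have g := thI_c hc (fun a => th.getD a 0) (a := 24) (by omega)
    rw [← e] at g
    exact g.trans h4
  · intro x hx
    obtain ⟨k, hk, h6⟩ := mem_getD (d := v) ((D.zmem x).mpr hx)
    have e : x = cE c v zs L (25 + k) := by
      unfold cE
      rw [if_pos (by omega), if_neg (by omega), Nat.add_sub_cancel_left, h6]
    rw [e, thI_c hc _ (by omega)]
    exact (h2 k hk).2
  · intro x hx
    obtain ⟨p, hp, rfl⟩ := D.lall x hx
    obtain ⟨k, hk, h6⟩ := mem_getD (d := v) (List.mem_map_of_mem (f := Prod.fst) hp)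
    have e : p.1 = cE c v zs L (25 + zs.length + k) := by
      unfold cE
      rw [if_neg (by omega), Nat.add_sub_cancel_left, h6]
    rw [e, thI_c hc _ (by omega)]
    exact (h3 k (by omega)).1.2

section Cases

variable (C : Cod 25 (fun a => E7cv.getD a 0) (fun a => E7lv.getD a 0) c)
  (hv : c 24 = v) (hst : ∀ x, x ∈ lowPart 14 (t : P) ↔ ∃ a < 25, c a = x)
  (hlz : ∀ z, Pend z v → GaussPoset.lev z = 15)
  (hlw : ∀ w ∈ A16 v, GaussPoset.lev w = 16)

include C hv hst hlz hlw

/-- at most one pendant -/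
lemma case_one (D : Dat v zs L ms) {n1 n2 : ℕ} (h1 : zs.length = n1) (hn1 : n1 ≤ 1)
    (hms : ms = List.replicate n2 1) (hn2 : n2 ≤ 2) (h0 : n1 = 0 → n2 = 0) :
    ∃ θ, E7L7 t v θ := by
  subst hms
  refine datLoc D C hv hst hlz hlw h1 ?_ F6.Ea_us Ea7_pol Ea7_low Ea7_th Ea7_bm
  obtain rfl | rfl : n1 = 0 ∨ n1 = 1 := by omega
  · rw [h0 rfl]
    decide +kernel
  · obtain rfl | rfl | rfl : n2 = 0 ∨ n2 = 1 ∨ n2 = 2 := by omega
    · decide +kernel
    · decide +kernel
    · decide +kernel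

/-- two pendants without common children -/
lemma case_two (D : Dat v zs L ms) {a b : ℕ} (h1 : zs.length = 2) (ha : a ≤ 2) (hba : b ≤ a)
    (hms : ms = List.replicate a 1 ++ List.replicate b 2) : ∃ θ, E7L7 t v θ := by
  subst hms
  by_cases h : a = 1 ∧ b = 1
  · obtain ⟨rfl, rfl⟩ := h
    exact datLoc D C hv hst hlz hlw h1 (by decide +kernel) F6.Ec_us Ec7_pol Ec7_low Ec7_th Ec7_bm
  · refine datLoc D C hv hst hlz hlw h1 ?_ F6.Eb_us Eb7_pol Eb7_low Eb7_th Eb7_bm
    obtain rfl | rfl | rfl : a = 0 ∨ a = 1 ∨ a = 2 := by omega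
    · obtain rfl : b = 0 := by omega
      decide +kernel
    · obtain rfl : b = 0 := by omega
      decide +kernel
    · obtain rfl | rfl | rfl : b = 0 ∨ b = 1 ∨ b = 2 := by omega
      · decide +kernel
      · decide +kernel
      · decide +kernel

/-- two pendants with common children -/
lemma case_com (D : Dat v zs L ms) {a b d : ℕ} (h1 : zs.length = 2) (hd : 1 ≤ d)
    (had : a + d ≤ 2) (hba : b ≤ a)
    (hms : ms = List.replicate d 3 ++ (List.replicate a 1 ++ List.replicate b 2)) :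
    ∃ θ, E7L7 t v θ := by
  subst hms
  obtain rfl | rfl : d = 1 ∨ d = 2 := by omega
  · refine datLoc D C hv hst hlz hlw h1 ?_ F6.Ed_us Ed7_pol Ed7_low Ed7_th Ed7_bm
    obtain rfl | rfl : a = 0 ∨ a = 1 := by omega
    · obtain rfl : b = 0 := by omega
      decide +kernel
    · obtain rfl | rfl : b = 0 ∨ b = 1 := by omega
      · decide +kernel
      · decide +kernel
  · obtain rfl : a = 0 := by omega
    obtain rfl : b = 0 := by omega
    exact datLoc D C hv hst hlz hlw h1 (by decide +kernel) F6.Ee_us Ee7_pol Ee7_low Ee7_th Ee7_bm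

end Cases

end Pool.Agent.GaussPoset.Tv

end

/-! From `Pool.Agent.W_448w6_h53.WcG` -/

section

/-!
The strip `La6`: one element below the first two cells, pendants below it.
-/

namespace Pool.Agent.GaussPoset.W6

open Cl Dd Sg

/-- the up-sets -/
def Qgus : List ℕ := [134217727, 133169151, 132120575, 131071999, 130940927, 130924543, 100663295, 99614719, 98566143, 97517567, 97386495, 97370111, 67108863, 66060287, 65011711, 63963135, 63832063, 63815679, 33554431, 32505855, 31457279, 30408703, 30277631, 30261247, 16777215, 15728639, 14680063, 13631487, 13500415, 13484031, 12582911, 11534335, 10485759, 10223615, 9437183, 9306111, 9289727, 9175039, 9043967, 9027583, 9011199, 8994815, 8990719, 8989695, 8989439, 8388607, 7340031, 6291455, 5242879, 5111807, 5095423, 4194303, 3670015, 3145727, 2621439, 2097151, 1835007, 1572863, 1310719, 1245183, 1048575, 917503, 901119, 786431, 655359, 638975, 622591, 606207, 602111, 601087, 600831, 524287, 393215, 376831, 262143, 196607,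 131071, 114687, 98303, 81919, 77823, 76799, 76543, 65535, 49151, 32767, 24575, 16383, 12287, 11263, 11007, 8191, 4095, 3071, 2815, 2047, 1023, 767, 511, 383, 255, 191, 127, 63, 31, 15, 7, 3, 1, 0]

/-- the covers -/
def Qgcv : List ℕ := [0, 1, 2, 4, 8, 16, 32, 32, 64, 192, 768, 512, 3072, 2048, 4096, 12288, 8192, 49152, 98304, 65536, 131072, 393216, 786432, 524288, 12582912, 16777216, 16777216]

/-- the levels -/
def Qglv : List ℕ := [0, 1, 2, 3, 4, 5, 6, 6, 7, 7, 8, 8, 9, 9, 10, 10, 10, 11, 11, 11, 12, 12, 12, 12, 13, 14, 14]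

/-- the cells above -/
def Qgum : List ℕ := [1, 3, 7, 15, 31, 63, 127, 191, 383, 767, 2047, 2815, 8191, 11007, 24575, 49151, 76543, 196607, 376831, 600831, 1245183, 2621439, 5095423, 8989439, 30261247, 63815679, 97370111]

/-- the thresholds -/
def Qgth : List ℕ := [0, 0, 0, 0, 0, 0, 0, 0, 1, 0, 1, 0, 1, 0, 2, 1, 0, 2, 1, 0, 3, 2, 1, 0, 1, 2, 2]

/-- the up-sets above the base: code, `ℓ`, `M`, exponent, coefficient -/
def QgL : List (ℕ × ℕ × ℕ × ℕ × ℕ) := [(134217727, 15, 12, 177, 0), (133169151, 15, 11, 159, 0), (132120575, 15, 11, 159, 0), (131071999, 15, 10, 142, 0), (130940927, 15, 9, 126, 0), (130924543, 15, 8, 111, 0), (100663295, 15, 11, 159, 0), (99614719, 15, 10, 142, 0), (98566143, 15, 10, 142, 0), (97517567, 15, 9, 126, 0), (97386495, 15, 8, 111, 0), (97370111, 15, 7, 97, 0), (67108863, 15, 11, 159, 0), (66060287, 15, 10, 142, 0), (65011711, 15, 10, 142, 0), (63963135, 15, 9, 126, 0), (63832063, 15, 8, 111, 0), (63815679, 15, 7, 97, 0), (33554431, 14, 11,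 159, 0), (32505855, 14, 10, 142, 0), (31457279, 14, 10, 142, 0), (30408703, 14, 9, 126, 0), (30277631, 14, 8, 111, 0), (30261247, 14, 7, 97, 0), (16777215, 13, 11, 159, 0), (15728639, 13, 10, 142, 0), (14680063, 13, 10, 142, 0), (13631487, 13, 9, 126, 0), (13500415, 13, 8, 111, 0), (13484031, 13, 7, 97, 0), (12582911, 13, 10, 142, 0), (11534335, 13, 9, 126, 0), (10485759, 13, 9, 126, 0), (10223615, 13, 8, 111, 0), (9437183, 13, 8, 111, 0), (9306111, 13, 7, 97, 0), (9289727, 13, 6, 84, 0), (9175039, 13, 7, 97, 0), (9043967, 13, 6, 84, 0), (9027583, 13, 5, 72, 0), (9011199, 13, 5, 72, 0), (8994815, 13, 4, 61, 0), (8990719, 13, 3, 51, 0), (8989695, 13, 2, 42, 0), (8989439, 13, 1, 34, 0)]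

/-- the complete up-sets -/
def QgF : List (ℕ × ℕ × ℕ × ℕ × ℕ) := []

theorem Qg_us : UsOK 27 (fun a => Qgcv.getD a 0) Qgus :=
  usOK_of_chk (by decide +kernel)

theorem Qg_pol1 : polF1 27 (2 ^ 100) 12 Qgus 6 (QgL ++ QgF) = true := by
  decide +kernel

theorem Qg_pol2 : polF2 27 (2 ^ 100) 12 Qgus (QgL ++ QgF) = true := by
  decide +kernel

theorem Qg_pol : polC 27 (2 ^ 100) 12 Qgus 6 (QgL ++ QgF) = true :=
  polC_of_fast Qg_pol1 Qg_pol2

theorem Qg_low : lowC 27 12 6 27 (fun a => Qglv.getD a 0) Qgus 8989439 QgL = true := by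
  decide +kernel

theorem Qg_th : thChk 27 6 23 (fun a => Qglv.getD a 0) (fun a => Qgcv.getD a 0)
    (fun a => Qgum.getD a 0) (fun a => Qgth.getD a 0) = true := by decide +kernel

theorem Qg_bm : bmC 27 6 23 8989439 (fun a => Qglv.getD a 0)
    (fun a => Qgum.getD a 0) = true := by decide +kernel

end Pool.Agent.GaussPoset.W6

end
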