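import Mathlib
import Pool.Agent.W_448zz_h61.Ns
import Pool.Agent.W_448zz_h61.M052
import Pool.Agent.W_448zz_h61.M053
import Pool.Agent.W_448zz_h61.M054
import Pool.Agent.W_448zz_h61.M057
import Pool.Agent.W_448zz_h61.M124

/-! From `Pool.Agent.W_448s14_h94.SgI` -/

section

/-!
The strip `La7` with elements of level 15 below the ends: the value at the energy 25 is positive.
-/

namespace Pool.Agent.GaussPoset.Sg

set_option linter.unusedSectionVars false
set_option synthInstance.maxSize 1000

open Polynomial Finset Cl Dd Wd Win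

universe u

variable {P : Type u} [Fintype P] [PartialOrder P] [DecidableEq P]
variable {r : ℕ} {t : P} {lo hi : ℕ → ℕ} {e : ℕ → ℕ → P}

section Pats

variable (D : WordD 14 7 wa7 lo hi) (C : Cp.Comp 14 t lo hi e) (hgt : GoodTo P r 14)
  (ht : lev t = 0)

include D C hgt ht in
/-- a pattern from a certificate -/
theorem pat_g {N Kc : ℕ} {Us cvL lvL umL thL : List ℕ} {L F : List (ℕ × ℕ × ℕ × ℕ × ℕ)}
    (hus : UsOK N (fun a => cvL.getD a 0) Us) (hpol : polC N (2 ^ 100) Kc Us 7 (L ++ F) = true)
    (hlow : lowC N Kc 7 24 (fun a => lvL.getD a 0) Us 554849791 L = true)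
    (hth : thChk N 7 29 (fun a => lvL.getD a 0) (fun a => cvL.getD a 0)
      (fun a => umL.getD a 0) (fun a => thL.getD a 0) = true)
    (hbm : bmC N 7 29 554849791 (fun a => lvL.getD a 0) (fun a => umL.getD a 0) = true)
    (hnum : ∀ x ∈ F, numC N Kc 7 25 (fun a => lvL.getD a 0) x = true)
    (hmem : ∀ x ∈ F, x.1 ∈ Us)
    (h1 : ∀ a < 30, cvL.getD a 0 = La7cv.getD a 0) (h2 : ∀ a < 30, lvL.getD a 0 = La7lv.getD a 0)
    {K : ℕ} (hN : 30 + K ≤ N) {zf : ℕ → P} {cf : ℕ → ℕ}
    (h3 : ∀ k < K, cvL.getD (30 + k) 0 = cf k) (h4 : ∀ k < K, lvL.getD (30 + k) 0 = 15)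
    (hx : ∀ k < K, cf k ∈ [805306368, 570425344, 33554432])
    (hinj : ∀ a < K, ∀ b < K, zf a = zf b → a = b)
    (hz : ∀ k < K, Mk e (zf k) (cf k)) {A : Finset P} (hA : ∀ x, x ∈ A ↔ ∃ k < K, zf k = x)
    (hthr : (∀ a < 29, 25 ≤ a → 1 ≤ thL.getD a 0) ∧ ∀ k < K, 1 ≤ thL.getD (30 + k) 0 ∧
      (cf k = 33554432 → 2 ≤ thL.getD (30 + k) 0))
    {x : ℕ × ℕ × ℕ × ℕ × ℕ} (hxF : x ∈ F) (hxJ : x.1 = 2 ^ (30 + K) - 1)
    (hs : sgn x.2.1 x.2.2.1 7 = -1)
    (h7 : ((range (30 + K)).filter (fun a => lvL.getD a 0 < 7)).card = 7)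
    (h8 : ((range (30 + K)).filter (fun a => lvL.getD a 0 = 7)).card = 2) :
    ∃ θ : P → ℕ, Ext e (lowPart 14 t ∪ A) A θ (x.2.2.2.2 : ℤ) := by
  have hx' : ∀ k < K, cf k < 2 ^ 30 := by
    intro k hk
    have h : ∀ m ∈ [805306368, 570425344, 33554432], m < 2 ^ 30 := by decide
    exact h _ (hx k hk)
  have hcod := La7_ext D C hgt ht (K := K) (z := zf) (cx := cf) (cvL := cvL)
    (lvL := lvL) h1 h2 h3 h4 hx' hinj hz
  have hS := La7_mem D C (z := zf) hA
  have hl : LocL 7 2 25 (lowPart 14 t ∪ A) (thI (30 + K) (cz e zf) (fun a => thL.getD a 0))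
      (fun x => x = cz e zf 29) :=
    cod_locL' hcod hus hN hth (by omega) hS hpol hlow
      (fun x hx => List.mem_append_left _ hx) hbm
      (lt_of_lt_of_le (by norm_num) (Nat.pow_le_pow_right (by norm_num) (show 30 ≤ 30 + K by omega)))
  rw [cz_29] at hl
  have hth1 : ∀ a < 30, thI (30 + K) (cz e zf) (fun a => thL.getD a 0) (ce e a) =
      thL.getD a 0 := by
    intro a ha
    have h1 := thI_c hcod (fun a => thL.getD a 0) (a := a) (by omega)
    rwa [show cz e zf a = ce e a from if_pos ha] at h1
  have hth' : ∀ k < K, thI (30 + K) (cz e zf) (fun a => thL.getD a 0) (zf k) =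
      thL.getD (30 + k) 0 := by
    intro k hk
    have h1 := thI_c hcod (fun a => thL.getD a 0) (a := 30 + k) (by omega)
    rwa [show cz e zf (30 + k) = zf k by
      unfold cz; rw [if_neg (by omega), Nat.add_sub_cancel_left]] at h1
  refine ⟨_, ⟨hl, ?_, ?_, ?_, ?_⟩⟩
  · intro f hf
    exact full_pl hcod hus hN hpol (List.mem_append_right _ hxF) (hmem x hxF) hxJ (hnum x hxF) hs
      hS h7 h8 hf
  · intro a h1 h2
    rw [hth1 a (by omega)]
    exact hthr.1 a h2 (by omega)
  · rw [hth1 25 (by norm_num)]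
    exact hthr.1 25 (by norm_num) le_rfl
  · intro y hy
    obtain ⟨k, hk, rfl⟩ := (hA y).mp hy
    refine ⟨cf k, hx k hk, hz k hk, ?_, ?_⟩
    · rw [hth' k hk]
      exact (hthr.2 k hk).1
    · rw [hth' k hk]
      exact (hthr.2 k hk).2

include D C hgt ht in
/-- one element below the ends -/
theorem pat_b {z0 : P} (h0 : Mk e z0 570425344) {A : Finset P} (hA : ∀ x, x ∈ A ↔ x = z0) :
    ∃ θ : P → ℕ, Ext e (lowPart 14 t ∪ A) A θ 1 := by
  obtain ⟨θ, h⟩ := pat_g D C hgt ht Pb_us Pb_pol Pb_low Pb_th Pb_bm Pb_num Pb_mem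
    (by decide +kernel) (by decide +kernel) (K := 1) (by norm_num)
    (zf := fun _ => z0)
    (cf := fun _ => 570425344) (by decide +kernel) (by decide +kernel) (by decide +kernel)
    (fun a ha b hb _ => by omega) (fun _ _ => h0) (A := A)
    (fun x => by rw [hA]; exact ⟨fun h => ⟨0, by norm_num, h.symm⟩, fun ⟨_, _, h⟩ => h.symm⟩)
    (by decide +kernel) (x := (2147483647, 16, 15, 250, 1)) (by decide +kernel) (by norm_num)
    (by decide +kernel) (by decide +kernel) (by decide +kernel)
  exact ⟨θ, h⟩

/-- two elements in the order of the code -/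
def two (a b : P) (k : ℕ) : P := if k = 0 then a else b

lemma two_inj {a b : P} (h : a ≠ b) : ∀ i < 2, ∀ j < 2, two a b i = two a b j → i = j := by
  intro i hi j hj h1
  obtain rfl | rfl : i = 0 ∨ i = 1 := by omega
  · obtain rfl | rfl : j = 0 ∨ j = 1 := by omega
    · rfl
    · exact absurd h1 h
  · obtain rfl | rfl : j = 0 ∨ j = 1 := by omega
    · exact absurd h1.symm h
    · rfl

lemma two_mem {a b x : P} : (x = a ∨ x = b) ↔ ∃ k < 2, two a b k = x := by
  constructor
  · rintro (h | h)
    · exact ⟨0, by norm_num, h.symm⟩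
    · exact ⟨1, by norm_num, h.symm⟩
  · rintro ⟨k, hk, h⟩
    obtain rfl | rfl : k = 0 ∨ k = 1 := by omega
    · exact Or.inl h.symm
    · exact Or.inr h.symm

lemma two_all {p : P → ℕ → Prop} {a b : P} {m m' : ℕ} (h1 : p a m) (h2 : p b m') :
    ∀ k < 2, p (two a b k) (if k = 0 then m else m') := by
  intro k hk
  obtain rfl | rfl : k = 0 ∨ k = 1 := by omega
  · exact h1
  · exact h2

include D C hgt ht in
/-- one element below the ends, one below the first two cells -/
theorem pat_c {z0 z1 : P} (h0 : Mk e z0 570425344) (h1 : Mk e z1 805306368) (hne : z0 ≠ z1)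
    {A : Finset P} (hA : ∀ x, x ∈ A ↔ x = z0 ∨ x = z1) :
    ∃ θ : P → ℕ, Ext e (lowPart 14 t ∪ A) A θ 1 := by
  obtain ⟨θ, h⟩ := pat_g D C hgt ht Pb_us Pb_pol Pb_low Pb_th Pb_bm Pb_num Pb_mem
    (by decide +kernel) (by decide +kernel) (K := 2) (by norm_num)
    (zf := two z0 z1)
    (cf := fun k => if k = 0 then 570425344 else 805306368) (by decide +kernel)
    (by decide +kernel) (by decide +kernel)
    (two_inj hne) (two_all (p := fun x m => Mk e x m) h0 h1) (A := A)
    (fun x => by rw [hA]; exact two_mem)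
    (by decide +kernel) (x := (4294967295, 16, 16, 273, 1)) (by decide +kernel) (by norm_num)
    (by decide +kernel) (by decide +kernel) (by decide +kernel)
  exact ⟨θ, h⟩

include D C hgt ht in
/-- one element below the ends, one pendant -/
theorem pat_d {z0 z1 : P} (h0 : Mk e z0 570425344) (h1 : Mk e z1 33554432) (hne : z0 ≠ z1)
    {A : Finset P} (hA : ∀ x, x ∈ A ↔ x = z0 ∨ x = z1) :
    ∃ θ : P → ℕ, Ext e (lowPart 14 t ∪ A) A θ 1 := by
  obtain ⟨θ, h⟩ := pat_g D C hgt ht Pc_us Pc_pol Pc_low Pc_th Pc_bm Pc_num Pc_mem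
    (by decide +kernel) (by decide +kernel) (K := 2) (by norm_num)
    (zf := two z0 z1)
    (cf := fun k => if k = 0 then 570425344 else 33554432) (by decide +kernel)
    (by decide +kernel) (by decide +kernel)
    (two_inj hne) (two_all (p := fun x m => Mk e x m) h0 h1) (A := A)
    (fun x => by rw [hA]; exact two_mem)
    (by decide +kernel) (x := (4294967295, 16, 16, 273, 1)) (by decide +kernel) (by norm_num)
    (by decide +kernel) (by decide +kernel) (by decide +kernel)
  exact ⟨θ, h⟩

include D C hgt ht in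
/-- two elements below the ends -/
theorem pat_f {z0 z1 : P} (h0 : Mk e z0 570425344) (h1 : Mk e z1 570425344) (hne : z0 ≠ z1)
    {A : Finset P} (hA : ∀ x, x ∈ A ↔ x = z0 ∨ x = z1) :
    ∃ θ : P → ℕ, Ext e (lowPart 14 t ∪ A) A θ 2 := by
  obtain ⟨θ, h⟩ := pat_g D C hgt ht Pd_us Pd_pol Pd_low Pd_th Pd_bm Pd_num Pd_mem
    (by decide +kernel) (by decide +kernel) (K := 2) (by norm_num)
    (zf := two z0 z1)
    (cf := fun k => if k = 0 then 570425344 else 570425344) (by decide +kernel)
    (by decide +kernel) (by decide +kernel)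
    (two_inj hne) (two_all (p := fun x m => Mk e x m) h0 h1) (A := A)
    (fun x => by rw [hA]; exact two_mem)
    (by decide +kernel) (x := (4294967295, 16, 16, 273, 2)) (by decide +kernel) (by norm_num)
    (by decide +kernel) (by decide +kernel) (by decide +kernel)
  exact ⟨θ, h⟩

/-- three elements in the order of the code -/
def three (a b c : P) (k : ℕ) : P := if k = 0 then a else if k = 1 then b else c

include D C hgt ht in
/-- one element below the ends, one pendant, one below the first two cells -/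
theorem pat_h {z0 z1 z2 : P} (h0 : Mk e z0 570425344) (h1 : Mk e z1 33554432)
    (h2 : Mk e z2 805306368) (h01 : z0 ≠ z1) (h02 : z0 ≠ z2) (h12 : z1 ≠ z2)
    {A : Finset P} (hA : ∀ x, x ∈ A ↔ x = z0 ∨ x = z1 ∨ x = z2) :
    ∃ θ : P → ℕ, Ext e (lowPart 14 t ∪ A) A θ 1 := by
  obtain ⟨θ, h⟩ := pat_g D C hgt ht Pc_us Pc_pol Pc_low Pc_th Pc_bm Pc_num Pc_mem
    (by decide +kernel) (by decide +kernel) (K := 3) (by norm_num)
    (zf := three z0 z1 z2)
    (cf := fun k => if k = 0 then 570425344 else if k = 1 then 33554432 else 805306368)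
    (by decide +kernel) (by decide +kernel) (by decide +kernel)
    (by
      intro i hi j hj h1
      obtain rfl | rfl | rfl : i = 0 ∨ i = 1 ∨ i = 2 := by omega
      · obtain rfl | rfl | rfl : j = 0 ∨ j = 1 ∨ j = 2 := by omega
        · rfl
        · exact absurd h1 h01
        · exact absurd h1 h02
      · obtain rfl | rfl | rfl : j = 0 ∨ j = 1 ∨ j = 2 := by omega
        · exact absurd h1.symm h01
        · rfl
        · exact absurd h1 h12
      · obtain rfl | rfl | rfl : j = 0 ∨ j = 1 ∨ j = 2 := by omega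
        · exact absurd h1.symm h02
        · exact absurd h1.symm h12
        · rfl)
    (by
      intro k hk
      obtain rfl | rfl | rfl : k = 0 ∨ k = 1 ∨ k = 2 := by omega
      · exact h0
      · exact h1
      · exact h2) (A := A)
    (by
      intro x
      rw [hA]
      constructor
      · rintro (h | h | h)
        · exact ⟨0, by norm_num, h.symm⟩
        · exact ⟨1, by norm_num, h.symm⟩
        · exact ⟨2, by norm_num, h.symm⟩
      · rintro ⟨k, hk, h⟩
        obtain rfl | rfl | rfl : k = 0 ∨ k = 1 ∨ k = 2 := by omega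
        · exact Or.inl h.symm
        · exact Or.inr (Or.inl h.symm)
        · exact Or.inr (Or.inr h.symm))
    (by decide +kernel) (x := (8589934591, 16, 17, 297, 1)) (by decide +kernel) (by norm_num)
    (by decide +kernel) (by decide +kernel) (by decide +kernel)
  exact ⟨θ, h⟩

end Pats

end Pool.Agent.GaussPoset.Sg

end

/-! From `Pool.Agent.W_448s14_h94.SgJ` -/

section

/-!
The strip `La7` at level 14: the set of the elements of level 15 which belong to the component.
-/

namespace Pool.Agent.GaussPoset.Sg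

set_option linter.unusedSectionVars false
set_option synthInstance.maxSize 1000

open Polynomial Finset Cl Dd Wd Win

universe u

variable {P : Type u} [Fintype P] [PartialOrder P] [DecidableEq P]
variable {r : ℕ} {t : P} {lo hi : ℕ → ℕ} {e : ℕ → ℕ → P}

lemma Mk.cov {z : P} {m b : ℕ} (h : Mk e z m) (hb : b < 30) (hbit : m.testBit b = true) :
    z ⋖ ce e b := (h.2 _).mpr ⟨b, hb, hbit, rfl⟩

lemma Mk.ncov (D : WordD 14 7 wa7 lo hi) (C : Cp.Comp 14 t lo hi e) (hgt : GoodTo P r 14)
    (ht : lev t = 0) {z : P} {m b : ℕ} (h : Mk e z m) (hb : b < 30) (hbit : m.testBit b = false) :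
    ¬ z ⋖ ce e b := by
  intro hz
  obtain ⟨k, hk, h1, h2⟩ := (h.2 _).mp hz
  rw [(La7_cod D C hgt.H hgt.good ht).inj k hk b hb h2] at h1
  rw [h1] at hbit
  exact absurd hbit (by simp)

lemma Mk.ne (D : WordD 14 7 wa7 lo hi) (C : Cp.Comp 14 t lo hi e) (hgt : GoodTo P r 14)
    (ht : lev t = 0) {z z' : P} {m m' b : ℕ} (h : Mk e z m) (h' : Mk e z' m') (hb : b < 30)
    (h1 : m.testBit b = true) (h2 : m'.testBit b = false) : z ≠ z' := by
  rintro rfl
  exact h'.ncov D C hgt ht hb h2 (h.cov hb h1)

/-- what is used about a component `La7` -/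
structure LaData (e : ℕ → ℕ → P) (t : P) (A : Finset P) (θ : P → ℕ) (ρ : ℤ) : Prop where
  ext : Ext e (lowPart 14 t ∪ A) A θ ρ
  nonneg : 0 ≤ ρ
  pos : (∃ z, Mk e z 570425344) → 0 < ρ
  cost : ∀ z, lev z = 15 → (∀ y, z ⋖ y → y ≤ t) → z ∉ A → ∀ x, z ⋖ x → 26 ≤ ct 7 (θ x + 1) z
  costA : ∀ z, ∀ x ∈ A, z ⋖ x → 26 ≤ ct 7 (θ x + 1) z

/-- the costs of the elements of level 16 -/
lemma costA_chk : ∀ m ∈ [805306368, 570425344, 33554432], 26 ≤
    min (if m = 33554432 then 3 else 2) 9 + (min (if m = 33554432 then 3 else 2) 8 +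
      ∑ b ∈ (range 30).filter (fun b => (orM (fun a => La7um.getD a 0) 30 m).testBit b = true),
        min (if m = 33554432 then 3 else 2) (La7lv.getD b 0 - 7)) := by decide +kernel

section

variable (D : WordD 14 7 wa7 lo hi) (C : Cp.Comp 14 t lo hi e) (hgt : GoodTo P r 14)
  (ht : lev t = 0)

include D C hgt ht in
lemma ext_costA {S A : Finset P} {θ : P → ℕ} {ρ : ℤ} (E : Ext e S A θ ρ) :
    ∀ z, ∀ x ∈ A, z ⋖ x → 26 ≤ ct 7 (θ x + 1) z := by
  intro z x hx hzx
  obtain ⟨m, hm, hmk, h1, h2⟩ := E.ex x hx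
  have h3 := costA_chk m hm
  have h4 := La7_ct D C hgt ht hmk.1 hmk.2 (if m = 33554432 then 3 else 2)
  rw [← h4] at h3
  have hlz := (hgt.H.covBy_iff.mp hzx).2
  have h5 := ct_cov (i := 7) (k := if m = 33554432 then 3 else 2) hzx.1
  rw [hlz, hmk.1] at h5
  have h6 : ct 7 (if m = 33554432 then 3 else 2) z ≤ ct 7 (θ x + 1) z := by
    refine ct_mono le_rfl ?_
    split_ifs with h
    · have := h2 h
      omega
    · omega
  omega

include D C hgt ht in
/-- the cost of the other elements of level 15 -/
lemma ext_cost {S A : Finset P} {θ : P → ℕ} {ρ : ℤ} (E : Ext e S A θ ρ) {z : P} (hz : lev z = 15)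
    (hzt : ∀ y, z ⋖ y → y ≤ t) (h29 : ¬ z ⋖ ce e 29) (h4 : Mk e z 33554432 → 2 ≤ θ (ce e 25)) :
    ∀ x, z ⋖ x → 26 ≤ ct 7 (θ x + 1) z := by
  intro x hzx
  obtain ⟨m, hm, hmk⟩ := La7_msk D C hgt ht hz hzt
  have hmk' : Mk e z m := ⟨hz, hmk⟩
  have hb29 : m.testBit 29 = false := by
    by_contra hcon
    exact h29 (hmk'.cov (by norm_num) (by simpa using hcon))
  have hx : ∃ a, 25 ≤ a ∧ a < 29 ∧ ce e a = x := by
    obtain ⟨a, ha, hbit, rfl⟩ := (hmk x).mp hzx
    refine ⟨a, ?_, ?_, rfl⟩
    · refine La7_lv14 a ha ?_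
      rw [← (La7_le D C ha).2]
      have := (hgt.H.covBy_iff.mp hzx).2
      omega
    · have : a ≠ 29 := by
        rintro rfl
        rw [hb29] at hbit
        exact absurd hbit (by simp)
      omega
  obtain ⟨a, ha1, ha2, rfl⟩ := hx
  have hθ : 1 ≤ θ (ce e a) := by
    rcases Nat.lt_or_ge 25 a with h | h
    · exact E.one a h ha2
    · obtain rfl : a = 25 := by omega
      exact E.four
  rcases msk_cost m hm hb29 with h5 | h5
  · subst h5
    have h6 := h4 hmk'
    obtain rfl : a = 25 := by
      by_contra hne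
      refine hmk'.ncov D C hgt ht (b := a) (by omega) ?_ hzx
      rw [show (33554432 : ℕ) = 2 ^ 25 by norm_num]
      exact Nat.testBit_two_pow_of_ne (Ne.symm hne)
    have h7 := msk_cost4
    have h8 := La7_ct D C hgt ht hz hmk 3
    rw [← h8] at h7
    exact h7.trans (ct_mono le_rfl (by omega))
  · have h8 := La7_ct D C hgt ht hz hmk 2
    rw [← h8] at h5
    exact h5.trans (ct_mono le_rfl (by omega))

include D C hgt ht in
/-- the children of the first cell -/
lemma kid29 (hp0 : ∀ z, ¬ Mk e z 536870912) {z : P} (hz : lev z = 15)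
    (hzt : ∀ y, z ⋖ y → y ≤ t) (h : z ⋖ ce e 29) : Mk e z 805306368 ∨ Mk e z 570425344 := by
  obtain ⟨m, hm, hmk⟩ := La7_msk D C hgt ht hz hzt
  have hmk' : Mk e z m := ⟨hz, hmk⟩
  have h1 : ∀ m ∈ msk, m.testBit 29 = true → m = 536870912 ∨ m = 805306368 ∨ m = 570425344 := by
    decide +kernel
  rcases h1 m hm (by
    by_contra hcon
    exact hmk'.ncov D C hgt ht (by norm_num) (by simpa using hcon) h) with rfl | rfl | rfl
  · exact absurd hmk' (hp0 z)
  · exact Or.inl hmk'
  · exact Or.inr hmk'

include D C hgt ht in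
/-- **The data of a component `La7`.** -/
theorem la7_data (hp0 : ∀ z, ¬ Mk e z 536870912) : ∃ (A : Finset P) (θ : P → ℕ) (ρ : ℤ),
    LaData e t A θ ρ := by
  classical
  have H := hgt.H
  by_cases h04 : ∃ z0, Mk e z0 570425344
  · obtain ⟨z0, h0⟩ := h04
    have c0 := h0.cov (b := 29) (by norm_num) (by decide +kernel)
    have d0 := h0.cov (b := 25) (by norm_num) (by decide +kernel)
    -- from a pattern to the data
    have fin : ∀ (A : Finset P) (ρ : ℤ), 0 < ρ → (∀ z, z ∈ A ↔ Mk e z 570425344 ∨
        Mk e z 33554432 ∨ Mk e z 805306368) → (∃ θ : P → ℕ, Ext e (lowPart 14 t ∪ A) A θ ρ) →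
        ∃ (A : Finset P) (θ : P → ℕ) (ρ : ℤ), LaData e t A θ ρ := by
      rintro A ρ hρ hA ⟨θ, E⟩
      refine ⟨A, θ, ρ, E, hρ.le, fun _ => hρ, ?_, ext_costA D C hgt ht E⟩
      intro z hz hzt hzA
      rw [hA] at hzA
      push Not at hzA
      refine ext_cost D C hgt ht E hz hzt ?_ (fun h => absurd h hzA.2.1)
      intro h
      rcases kid29 D C hgt ht hp0 hz hzt h with h1 | h1
      · exact hzA.2.2 h1
      · exact hzA.1 h1
    by_cases h04' : ∃ z1, Mk e z1 570425344 ∧ z0 ≠ z1
    · obtain ⟨z1, h1, hne⟩ := h04'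
      have c1 := h1.cov (b := 29) (by norm_num) (by decide +kernel)
      have d1 := h1.cov (b := 25) (by norm_num) (by decide +kernel)
      refine fin {z0, z1} 2 (by norm_num) ?_ (pat_f D C hgt ht h0 h1 hne fun x => by simp)
      intro z
      rw [mem_insert, mem_singleton]
      constructor
      · rintro (rfl | rfl)
        · exact Or.inl h0
        · exact Or.inl h1
      · intro h
        by_contra hcon
        push Not at hcon
        rcases h with h | h | h
        · exact dc_three H c0 c1 (h.cov (b := 29) (by norm_num) (by decide +kernel)) hne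
            (Ne.symm hcon.1) (Ne.symm hcon.2)
        · exact dc_three H d0 d1 (h.cov (b := 25) (by norm_num) (by decide +kernel)) hne
            (Ne.symm hcon.1) (Ne.symm hcon.2)
        · exact dc_three H c0 c1 (h.cov (b := 29) (by norm_num) (by decide +kernel)) hne
            (Ne.symm hcon.1) (Ne.symm hcon.2)
    · have u0 : ∀ z, Mk e z 570425344 → z = z0 := by
        intro z h
        by_contra hne
        exact h04' ⟨z, h, Ne.symm hne⟩
      have hA4 : ∀ z z', Mk e z 33554432 → Mk e z' 33554432 → z = z' := by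
        intro z z' h h'
        by_contra hne
        exact dc_three H d0 (h.cov (b := 25) (by norm_num) (by decide +kernel))
          (h'.cov (b := 25) (by norm_num) (by decide +kernel))
          (h0.ne D C hgt ht h (b := 29) (by norm_num) (by decide +kernel) (by decide +kernel))
          (h0.ne D C hgt ht h' (b := 29) (by norm_num) (by decide +kernel) (by decide +kernel)) hne
      have hA1 : ∀ z z', Mk e z 805306368 → Mk e z' 805306368 → z = z' := by
        intro z z' h h'
        by_contra hne
        exact dc_three H c0 (h.cov (b := 29) (by norm_num) (by decide +kernel))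
          (h'.cov (b := 29) (by norm_num) (by decide +kernel))
          (h0.ne D C hgt ht h (b := 25) (by norm_num) (by decide +kernel) (by decide +kernel))
          (h0.ne D C hgt ht h' (b := 25) (by norm_num) (by decide +kernel) (by decide +kernel)) hne
      by_cases h4 : ∃ z1, Mk e z1 33554432
      · obtain ⟨z1, h4⟩ := h4
        have n01 : z0 ≠ z1 := h0.ne D C hgt ht h4 (b := 29) (by norm_num) (by decide +kernel)
          (by decide +kernel)
        by_cases h1 : ∃ z2, Mk e z2 805306368
        · obtain ⟨z2, h1⟩ := h1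
          have n02 : z0 ≠ z2 := h0.ne D C hgt ht h1 (b := 25) (by norm_num) (by decide +kernel)
            (by decide +kernel)
          have n12 : z1 ≠ z2 := h4.ne D C hgt ht h1 (b := 25) (by norm_num) (by decide +kernel)
            (by decide +kernel)
          refine fin {z0, z1, z2} 1 (by norm_num) ?_
            (pat_h D C hgt ht h0 h4 h1 n01 n02 n12 fun x => by simp)
          intro z
          rw [mem_insert, mem_insert, mem_singleton]
          constructor
          · rintro (rfl | rfl | rfl)
            · exact Or.inl h0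
            · exact Or.inr (Or.inl h4)
            · exact Or.inr (Or.inr h1)
          · rintro (h | h | h)
            · exact Or.inl (u0 z h)
            · exact Or.inr (Or.inl (hA4 z z1 h h4))
            · exact Or.inr (Or.inr (hA1 z z2 h h1))
        · refine fin {z0, z1} 1 (by norm_num) ?_ (pat_d D C hgt ht h0 h4 n01 fun x => by simp)
          intro z
          rw [mem_insert, mem_singleton]
          constructor
          · rintro (rfl | rfl)
            · exact Or.inl h0
            · exact Or.inr (Or.inl h4)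
          · rintro (h | h | h)
            · exact Or.inl (u0 z h)
            · exact Or.inr (hA4 z z1 h h4)
            · exact absurd ⟨z, h⟩ h1
      · by_cases h1 : ∃ z2, Mk e z2 805306368
        · obtain ⟨z2, h1⟩ := h1
          have n02 : z0 ≠ z2 := h0.ne D C hgt ht h1 (b := 25) (by norm_num) (by decide +kernel)
            (by decide +kernel)
          refine fin {z0, z2} 1 (by norm_num) ?_ (pat_c D C hgt ht h0 h1 n02 fun x => by simp)
          intro z
          rw [mem_insert, mem_singleton]
          constructor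
          · rintro (rfl | rfl)
            · exact Or.inl h0
            · exact Or.inr (Or.inr h1)
          · rintro (h | h | h)
            · exact Or.inl (u0 z h)
            · exact absurd ⟨z, h⟩ h4
            · exact Or.inr (hA1 z z2 h h1)
        · refine fin {z0} 1 (by norm_num) ?_ (pat_b D C hgt ht h0 fun x => by simp)
          intro z
          rw [mem_singleton]
          constructor
          · rintro rfl
            exact Or.inl h0
          · rintro (h | h | h)
            · exact u0 z h
            · exact absurd ⟨z, h⟩ h4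
            · exact absurd ⟨z, h⟩ h1
  · -- no element below the ends
    have fin : ∀ (A : Finset P), (∀ z, z ∈ A ↔ Mk e z 805306368) →
        (∃ θ : P → ℕ, Ext e (lowPart 14 t ∪ A) A θ 0 ∧ 2 ≤ θ (ce e 25)) →
        ∃ (A : Finset P) (θ : P → ℕ) (ρ : ℤ), LaData e t A θ ρ := by
      rintro A hA ⟨θ, E, h25⟩
      refine ⟨A, θ, 0, E, le_rfl, fun h => absurd h h04, ?_, ext_costA D C hgt ht E⟩
      intro z hz hzt hzA
      rw [hA] at hzA
      refine ext_cost D C hgt ht E hz hzt ?_ (fun _ => h25)
      intro h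
      rcases kid29 D C hgt ht hp0 hz hzt h with h1 | h1
      · exact hzA h1
      · exact h04 ⟨z, h1⟩
    by_cases h1 : ∃ z0, Mk e z0 805306368
    · obtain ⟨z0, h0⟩ := h1
      by_cases h2 : ∃ z1, Mk e z1 805306368 ∧ z0 ≠ z1
      · obtain ⟨z1, h1, hne⟩ := h2
        refine fin {z0, z1} ?_ (pat_a D C hgt ht (K := 2) (by norm_num) (z := two z0 z1)
          (two_inj hne) (fun k hk => by
            obtain rfl | rfl : k = 0 ∨ k = 1 := by omega
            · exact h0
            · exact h1) (fun x => by
              rw [mem_insert, mem_singleton]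
              exact two_mem))
        intro z
        rw [mem_insert, mem_singleton]
        constructor
        · rintro (rfl | rfl)
          · exact h0
          · exact h1
        · intro h
          by_contra hcon
          push Not at hcon
          exact dc_three H (h0.cov (b := 29) (by norm_num) (by decide +kernel))
            (h1.cov (b := 29) (by norm_num) (by decide +kernel))
            (h.cov (b := 29) (by norm_num) (by decide +kernel)) hne
            (Ne.symm hcon.1) (Ne.symm hcon.2)
      · refine fin {z0} ?_ (pat_a D C hgt ht (K := 1) (by norm_num) (z := fun _ => z0)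
          (fun a ha b hb _ => by omega) (fun _ _ => h0) (fun x => by
            rw [mem_singleton]
            exact ⟨fun h => ⟨0, by norm_num, h.symm⟩, fun ⟨_, _, h⟩ => h.symm⟩))
        intro z
        rw [mem_singleton]
        constructor
        · rintro rfl
          exact h0
        · intro h
          by_contra hne
          exact h2 ⟨z, h, Ne.symm hne⟩
    · refine fin ∅ ?_ (pat_a D C hgt ht (K := 0) (by norm_num) (z := fun _ => t)
          (fun a ha => absurd ha (by omega)) (fun k hk => absurd hk (by omega)) (fun x => by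
            simp))
      intro z
      constructor
      · intro h
        exact absurd h (Finset.notMem_empty z)
      · intro h
        exact absurd ⟨z, h⟩ h1

end

end Pool.Agent.GaussPoset.Sg

end

/-! From `Pool.Agent.W_448w7_h36.JaP` -/

section

/-!
The pattern J: window 7, order two up to the energy 50.
-/

namespace Pool.Agent.GaussPoset.W7

open Cl Dd Sg

/-- the up-sets: code, `ℓ`, `M`, exponent, coefficient -/
def JaL : List (ℕ × ℕ × ℕ × ℕ × ℕ) := [(17179869183, 16, 18, 347, 0), (17146314751, 16, 17, 322, 0), (16106127359, 16, 17, 322, 0), (16072572927, 16, 16, 298, 0), (15032385535, 16, 17, 322, 0), (14998831103, 16, 16, 298, 0), (13958643711, 16, 16, 298, 0), (13925089279, 16, 15, 275, 0), (12884901887, 16, 17, 322, 0), (12851347455, 16, 16, 298, 0), (11811160063, 16, 16, 298, 0), (11777605631, 16, 15, 275, 0), (10737418239, 16, 16, 298, 0), (10703863807, 16, 15, 275, 0), (10468982783, 16, 15, 275, 0), (10435428351, 16, 14, 253, 0), (9663676415, 16, 15, 275, 0), (9630121983, 16, 14, 253, 0),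 (9395240959, 16, 14, 253, 0), (9361686527, 16, 13, 232, 0), (8589934591, 16, 17, 322, 0), (8556380159, 16, 16, 298, 0), (7516192767, 16, 16, 298, 0), (7482638335, 16, 15, 275, 0), (7449083903, 16, 15, 275, 0), (7415529471, 16, 14, 253, 0), (7413432319, 16, 13, 232, 0), (6442450943, 16, 16, 298, 0), (6408896511, 16, 15, 275, 0), (6308233215, 16, 15, 275, 0), (6274678783, 16, 14, 253, 0), (5368709119, 16, 15, 275, 0), (5335154687, 16, 14, 253, 0), (5301600255, 16, 14, 253, 0), (5268045823, 16, 13, 232, 0), (5265948671, 16, 12, 212, 0), (5234491391, 16, 14, 253, 0), (5200936959, 16, 13, 232, 0), (5167382527, 16, 13, 232, 0), (5163188223, 16, 12, 212, 0), (5133828095, 16, 12, 212, 0), (5131730943, 16, 11, 193, 0), (5129633791, 16, 11, 193, 0), (5127536639, 16, 10, 175, 0), (5127274495, 16, 9, 158, 0), (5127241727, 16, 8, 142, 0), (4294967295, 16, 16, 298, 0), (4261412863, 16, 15, 275, 0), (3221225471, 16, 15, 275, 0), (3187671039, 16, 14, 253, 0), (3154116607, 16, 14, 253, 0), (3120562175, 16, 13, 232, 0), (3118465023,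 16, 12, 212, 0), (2147483647, 16, 15, 275, 0), (2113929215, 16, 14, 253, 0), (2013265919, 16, 14, 253, 0), (1979711487, 16, 13, 232, 0), (1879048191, 16, 14, 253, 0), (1845493759, 16, 13, 232, 0), (1744830463, 16, 13, 232, 0), (1736441855, 16, 12, 212, 0), (1711276031, 16, 12, 212, 0), (1702887423, 16, 11, 193, 0), (1073741823, 15, 15, 275, 0), (1040187391, 15, 14, 253, 0), (1006632959, 15, 14, 253, 0), (973078527, 15, 13, 232, 0), (970981375, 15, 12, 212, 0), (939524095, 15, 14, 253, 0), (905969663, 15, 13, 232, 0), (872415231, 15, 13, 232, 0), (868220927, 15, 12, 212, 0), (838860799, 15, 12, 212, 0), (836763647, 15, 11, 193, 0), (834666495, 15, 11, 193, 0), (832569343, 15, 10, 175, 0), (832307199, 15, 9, 158, 0), (832274431, 15, 8, 142, 0), (805306367, 15, 14, 253, 0), (771751935, 15, 13, 232, 0), (738197503, 15, 13, 232, 0), (704643071, 15, 12, 212, 0), (702545919, 15, 11, 193, 0), (671088639, 15, 13, 232, 0), (662700031, 15, 12, 212, 0), (637534207, 15, 12, 212, 0), (629145599, 15, 11, 193, 0), (603979775,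 15, 12, 212, 0), (599785471, 15, 11, 193, 0), (595591167, 15, 11, 193, 0), (591396863, 15, 10, 175, 0), (590872575, 15, 9, 158, 0), (570425343, 15, 11, 193, 0), (568328191, 15, 10, 175, 0), (566231039, 15, 10, 175, 0), (564133887, 15, 9, 158, 0), (563871743, 15, 8, 142, 0), (563838975, 15, 7, 127, 0), (562036735, 15, 10, 175, 0), (559939583, 15, 9, 158, 0), (557842431, 15, 9, 158, 0), (557318143, 15, 8, 142, 0), (555745279, 15, 8, 142, 0), (555483135, 15, 7, 127, 0), (555450367, 15, 6, 113, 0), (555220991, 15, 7, 127, 0), (554958847, 15, 6, 113, 0), (554926079, 15, 5, 100, 0), (554893311, 15, 5, 100, 0), (554860543, 15, 4, 88, 0), (554852351, 15, 3, 77, 0), (554850303, 15, 2, 67, 0), (554849791, 15, 1, 58, 0)]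

theorem JaL_pol1 : polF1 34 (2 ^ 104) 18 Jaus 7 JaL = true := by
  decide +kernel

theorem JaL_pol2 : polF2 34 (2 ^ 104) 18 Jaus JaL = true := by
  decide +kernel

theorem JaL_pol : polC 34 (2 ^ 104) 18 Jaus 7 JaL = true :=
  polC_of_fast JaL_pol1 JaL_pol2

theorem Ja_low : lowC 34 18 7 50 (fun a => Jalv.getD a 0) Jaus 554849791 JaL = true := by
  decide +kernel

end Pool.Agent.GaussPoset.W7

end
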