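import Mathlib
import Pool.Agent.W_448zz_h61.Ns
import Pool.Agent.W_448zz_h61.M121
import Pool.Agent.W_448zz_h61.M122
import Pool.Agent.W_448zz_h61.M123

/-! From `Pool.Agent.W_448s8f_h76.FiD` -/

section

/-!
The unnatural elements of level `2 m + 1`: classification (MP_448cb3_co, S8, small `m`).
-/

namespace Pool.Agent.GaussPoset.Fi

set_option linter.unusedSectionVars false

open Polynomial Finset

universe u

variable {P : Type u} [Fintype P] [PartialOrder P] [DecidableEq P] {r i m K : ℕ}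
  {N : Tops P → Finset P} {b : Tops P → ℕ} {θ : Tops P → P → ℕ}

/-- the kinds of natural elements of light components -/
theorem WI.light_case (W : WI r i m K N b θ) {x : P} (hx : x ∉ unnat N)
    (h1 : N (topOf x) = onlyB (topOf x)) (h2 : θ (topOf x) = fun x => lev x - i) :
    Full i m N θ x := by
  have H := W.gt.H
  have HN := W.natSys
  have hxt : x ∈ N (topOf x) := HN.mem_iff.mpr ⟨hx, rfl⟩
  have h4 := W.hi
  have him := W.him
  generalize ht : topOf x = t at hxt h1 h2
  have hs : ∀ z ∈ unnat N, ∃ s : P, lev s = 0 ∧ z ≤ s ∧ s ≠ t := by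
    intro z hz
    have h7 : z ∉ onlyB t := by
      rw [← h1]
      exact mem_unnat.mp hz t
    rw [mem_onlyB] at h7
    push Not at h7
    exact h7
  refine ⟨by rw [ht, h2], ?_, ?_⟩
  · intro z hz hzx k _ hk
    obtain ⟨s, hs1, hs2, hs3⟩ := hs z hz
    exact two_le_nab_join HN H.gradedBelow hxt hzx hs1 hs3 hs2 hk
  · intro z hz h
    obtain ⟨s, hs1, hs2, hs3⟩ := hs z hz
    have h7 := W.lt_lev hz
    have h8 : z < s := lt_of_le_of_ne hs2 (by rintro rfl; omega)
    exact hs3 (HN.top_eq hxt hs1 ((h s).mpr h8).le)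

/-- the kinds of natural elements of rectangles -/
theorem WI.rect_case (W : WI r i m K N b θ) {x : P} (hx : x ∉ unnat N) {Nc : Finset P}
    {co : P → ℕ × ℕ} (h0 : RectNat (2 * m) i (topOf x) (b (topOf x)) Nc co)
    (h1 : N (topOf x) = natR Nc co) (h2 : θ (topOf x) = thR i (b (topOf x)) Nc co)
    (h3 : NopT m (topOf x)) : Full i m N θ x ∨ ∃ Nc co, InR i m N b θ x Nc co := by
  have H := W.gt.H
  have HN := W.natSys
  have hxt : x ∈ N (topOf x) := HN.mem_iff.mpr ⟨hx, rfl⟩
  have h4 := W.hi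
  have him := W.him
  generalize ht : topOf x = t at hxt h0 h1 h2 h3
  -- rectangles
  by_cases hJ : x ∈ junk (fun _ => True) Nc co ∨ x ∈ junk (fun _ => True) Nc (swp co)
  · left
    refine ⟨?_, ?_, ?_⟩
    · rw [ht, h2]
      unfold thR
      rw [if_pos hJ]
    · intro z hz hzx k hk hkx
      refine rect_two_le_nab H h0 h1 hz hzx ?_ (by omega) hkx
      rcases hJ with h | h
      · exact Or.inl h
      · exact Or.inr (Or.inl h)
    · intro z hz h
      refine mem_unnat.mp hz t ?_
      rw [h1, mem_natR]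
      rcases hJ with h' | h'
      · exact Or.inr (Or.inl (junk_twin h' h))
      · exact Or.inr (Or.inr (junk_twin h' h))
  · have hxN : x ∈ Nc := by
      rw [h1, mem_natR] at hxt
      rcases hxt with h | h | h
      · exact h
      · exact absurd (Or.inl h) hJ
      · exact absurd (Or.inr h) hJ
    have hl := h0.chart.lev x hxN
    have hb1 := h0.b_two
    have hb2 := h0.b_le
    have hrow : b t = i + 1 ∨ (co x).1 ≤ b t - 1 := by
      rcases h0.rows with h | h
      · exact Or.inl h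
      · exact Or.inr (h x hxN)
    by_cases h7 : (co x).1 = 0 ∨ (co x).2 = 0
    · left
      refine ⟨?_, ?_, ?_⟩
      · rw [ht, h2]
        unfold thR
        rw [if_neg hJ]
        omega
      · intro z hz hzx k hk hkx
        exact rect_two_le_nab H h0 h1 hz hzx (Or.inr (Or.inr ⟨hxN, h7⟩)) (by omega) hkx
      · intro z hz h
        have h8 := W.lt_lev hz
        rw [← lev_eq_of_up h] at h8
        rcases h7 with h7 | h7
        · obtain ⟨u, hu, hcu⟩ := h0.chart.low x hxN (0, (co x).2 - 1)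
            ⟨Nat.zero_le _, Nat.sub_le _ _⟩ trivial
          refine straight_twin H h0 h1 hxN hu ?_ ?_ ?_ hz h
          · rw [hcu]
            exact Or.inr ⟨by simp only; omega, by simp only; omega⟩
          · intro y hy hp
            rw [hcu]
            rcases hp with hp | hp
            · omega
            · exact Prod.ext (by simp only; omega) (by simp only; omega)
          · rw [hcu]
            exact Or.inl rfl
        · obtain ⟨u, hu, hcu⟩ := h0.chart.low x hxN ((co x).1 - 1, 0)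
            ⟨Nat.sub_le _ _, Nat.zero_le _⟩ trivial
          refine straight_twin H h0 h1 hxN hu ?_ ?_ ?_ hz h
          · rw [hcu]
            exact Or.inl ⟨by simp only; omega, by simp only; omega⟩
          · intro y hy hp
            rw [hcu]
            rcases hp with hp | hp
            · exact Prod.ext (by simp only; omega) (by simp only; omega)
            · omega
          · rw [hcu]
            exact Or.inr rfl
    · right
      refine ⟨Nc, co, ?_, ?_, hxN, by omega, by omega, ?_, ?_⟩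
      · rw [ht]; exact h0
      · rw [ht]; exact h1
      · rw [ht, h2]
        unfold thR
        rw [if_neg hJ]
        omega
      · rw [ht]; exact h3

/-- the kinds of natural elements of stairs -/
theorem WI.stair_case (W : WI r i m K N b θ) {x : P} (hx : x ∉ unnat N) {Nc : Finset P}
    {co : P → ℕ × ℕ} (h0 : StairNat (2 * m) i (topOf x) Nc co)
    (h1 : N (topOf x) = natS Nc co) (h2 : θ (topOf x) = thS i Nc co)
    (h3 : b (topOf x) = i / 2 + 1) (h4 : NopT m (topOf x)) :
    Full i m N θ x ∨ ∃ Nc co, InS i m N b θ x Nc co := by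
  have H := W.gt.H
  have HN := W.natSys
  have hxt : x ∈ N (topOf x) := HN.mem_iff.mpr ⟨hx, rfl⟩
  have hi4 := W.hi
  have him := W.him
  generalize ht : topOf x = t at hxt h0 h1 h2 h3 h4
  -- stairs
  by_cases hJ : x ∈ junk (fun c => c.1 ≤ c.2) Nc co
  · left
    refine ⟨?_, ?_, ?_⟩
    · rw [ht, h2]
      unfold thS
      rw [if_pos hJ]
    · intro z hz hzx k hk hkx
      exact stair_two_le_nab H h0 h1 hz hzx (Or.inl hJ) hk hkx
    · intro z hz h
      refine mem_unnat.mp hz t ?_
      rw [h1, mem_natS]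
      exact Or.inr (junk_twin hJ h)
  · have hxN : x ∈ Nc := by
      rw [h1, mem_natS] at hxt
      rcases hxt with h | h
      · exact h
      · exact absurd h hJ
    have hl := h0.chart.lev x hxN
    by_cases h7 : (co x).1 = 0
    · left
      refine ⟨?_, ?_, ?_⟩
      · rw [ht, h2]
        unfold thS
        rw [if_neg hJ]
        omega
      · intro z hz hzx k hk hkx
        exact stair_two_le_nab H h0 h1 hz hzx (Or.inr ⟨hxN, h7⟩) hk hkx
      · intro z hz h
        have h8 := W.lt_lev hz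
        rw [← lev_eq_of_up h] at h8
        obtain ⟨u, hu, hcu⟩ := h0.chart.low x hxN (0, (co x).2 - 1)
          ⟨Nat.zero_le _, Nat.sub_le _ _⟩ (Nat.zero_le _)
        refine straight_twinS H h0 (by omega) h1 hxN hu ?_ ?_ ?_ hz h
        · rw [hcu]
          exact Or.inr ⟨by simp only; omega, by simp only; omega⟩
        · intro y hy hp
          rw [hcu]
          rcases hp with hp | hp
          · omega
          · exact Prod.ext (by simp only; omega) (by simp only; omega)
        · rw [hcu]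
    · right
      refine ⟨Nc, co, ?_, ?_, ?_, ?_, hxN, by omega, ?_, ?_⟩
      · rw [ht]; exact h0
      · rw [ht]; exact h1
      · rw [ht]; exact h2
      · rw [ht]; exact h3
      · rw [ht, h2]
        unfold thS
        rw [if_neg hJ]
      · rw [ht]; exact h4

/-- heavy ends -/
structure He (i m : ℕ) (N : Tops P → Finset P) (θ : Tops P → P → ℕ) (x : P) : Prop where
  lev : Pool.Agent.GaussPoset.lev x = 2 * m
  nat : N (topOf x) = lowPart (2 * m) (topOf x : P)
  th : θ (topOf x) x = 0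
  up1 : (Win.uc x).card = 1
  prof : ∃ p ∈ HL i m, Prof m x (gD p)
  uniq : ∀ w, w ≤ (topOf x : P) → Pool.Agent.GaussPoset.lev w = 2 * m → w = x

/-- the kinds of elements of level `2 m` -/
theorem WC.kind (W : WC r i m K N b θ) {x : P} (hl : lev x = 2 * m) :
    Full i m N θ x ∨ Fd m x ∨ He i m N θ x ∨ ((Win.uc x).card = 2 ∧ NopT m (topOf x)) := by
  have H := W.gt.H
  have him := W.him
  have h4 := W.hi
  have W' := W.wi
  have hlow := W'.low hl.le
  rcases W.tc (topOf x) with ⟨g1, g2, g3, g5, g6, g7, g8⟩ | ⟨Nc, co, g0, g1, g2, g3⟩ |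
    ⟨Nc, co, g0, g1, g2, g3, g4⟩ | ⟨g1, g2, g3, g4, g5, g8⟩
  · exact Or.inl (W'.light_case hlow g1 g2)
  · rcases W'.rect_case hlow g0 g1 g2 g3 with h | ⟨Nc', co', h⟩
    · exact Or.inl h
    · exact Or.inr (Or.inr (Or.inr ⟨chart_inner_uc h.rect.chart H h.mem h.fst h.snd, h.nop⟩))
  · rcases W'.stair_case hlow g0 g1 g2 g3 g4 with h | ⟨Nc', co', h⟩
    · exact Or.inl h
    · have h1 := h.stair.chart.lev x h.mem
      have h2 : (co' x).1 ≤ (co' x).2 := h.stair.chart.mem x h.mem
      have h0 := h.fst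
      by_cases h3 : (co' x).1 = (co' x).2
      · refine Or.inr (Or.inl ⟨hl, ?_, ?_⟩)
        · rw [Wd.uc_card_nab H (by omega), nab_chart h.stair.chart h.mem]
          have := card_cellsAt_shift (l := lev x - 1) (p := co' x) h2 (by omega)
          omega
        · rw [nab_chart h.stair.chart h.mem]
          have := card_cellsAt_shift (l := 2) (p := co' x) h2 (by omega)
          omega
      · exact Or.inr (Or.inr (Or.inr ⟨chartS_inner_uc h.stair.chart H h.mem h.fst (by omega),
          h.nop⟩))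
  · exact Or.inr (Or.inr (Or.inl ⟨hl, g1, g2 x hl.le, (g5 x (le_topOf x) hl).1,
      (g5 x (le_topOf x) hl).2, fun w hw hwl => g4 w x hw (le_topOf x) hwl hl⟩))

/-- two neighbours of the level `2 m`: the element is natural or a twin -/
theorem WC.near (W : WC r i m K N b θ) {z x x' : P} (hz : z ∈ r2 (2 * m) N)
    (hl : lev z = 2 * m + 1) (hzx : z ⋖ x) (hzx' : z ⋖ x') (hne : x ≠ x')
    (h1 : ucv x x' = 1) : False := by
  classical
  have H := W.gt.H
  have W' := W.wi
  have HN := W'.natSys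
  have h4 := W.hi
  have him := W.him
  have hlx : lev x = 2 * m := by
    have := (H.covBy_iff.mp hzx).2
    omega
  have hlx' : lev x' = 2 * m := by
    have := (H.covBy_iff.mp hzx').2
    omega
  rw [mem_sdiff] at hz
  have hzU := hz.1
  obtain ⟨p, hp⟩ := Finset.card_eq_one.mp h1
  have hp2 : x ⋖ p ∧ x' ⋖ p := by
    have : p ∈ (univ.filter (fun y : P => x ⋖ y ∧ x' ⋖ y)) := by rw [hp]; simp
    simpa using this
  have hxt : topOf x = topOf p := HN.cp x p hp2.1.le (W'.low hlx.le)
  have hxt' : topOf x' = topOf p := HN.cp x' p hp2.2.le (W'.low hlx'.le)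
  have hxle : x ≤ (topOf p : P) := by rw [← hxt]; exact le_topOf x
  have hxle' : x' ≤ (topOf p : P) := by rw [← hxt']; exact le_topOf x'
  have hxN : x ∈ N (topOf p) := HN.mem_iff.mpr ⟨W'.low hlx.le, hxt⟩
  have hxN' : x' ∈ N (topOf p) := HN.mem_iff.mpr ⟨W'.low hlx'.le, hxt'⟩
  have twin : ∀ y : P, y ∉ unnat N → y ⋖ x → y ⋖ x' → False := fun y hy hyx hyx' =>
    hz.2 (mem_twY.mpr ⟨hzU, hl, y, hy, up_of_pair H hzx hzx' hyx hyx' hne⟩)
  rcases W.tc (topOf p) with ⟨g1, g2, g3, g5, g6, g7, g8⟩ | ⟨Nc, co, g0, g1, g2, g3⟩ |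
    ⟨Nc, co, g0, g1, g2, g3, g4⟩ | ⟨g1, g2, g3, g4, g5, g8⟩
  · refine mem_unnat.mp hzU (topOf p) ?_
    rw [g1, mem_onlyB]
    intro s hs hzs
    have hne2 : z ≠ s := by rintro rfl; omega
    obtain ⟨v, hv, hvs⟩ := Hul.exists_cov (lt_of_le_of_ne hzs hne2)
    rcases uc_pair H hzx hzx' hne hv with h | h
    · rw [h] at hvs
      exact HN.top_eq hxN hs hvs
    · rw [h] at hvs
      exact HN.top_eq hxN' hs hvs
  · have hx : x ∈ Nc := g0.strip (mem_lowPart.mpr ⟨hxle, hlx.le⟩)
    have hx' : x' ∈ Nc := g0.strip (mem_lowPart.mpr ⟨hxle', hlx'.le⟩)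
    have hpN := g0.chart.up x hx p hp2.1.le
    have e1 := (chart_cov g0.chart H hx hpN).mp hp2.1
    have e2 := (chart_cov g0.chart H hx' hpN).mp hp2.2
    have hcne : co x ≠ co x' := fun h => hne (g0.chart.inj x hx x' hx' h)
    have hzN : z ∉ Nc := fun h => mem_unnat.mp hzU (topOf p) (by
      rw [g1]
      exact mem_natR.mpr (Or.inl h))
    have key : ∀ x x' : P, x ∈ Nc → x' ∈ Nc → z ⋖ x → z ⋖ x' →
        co x = ((co p).1 + 1, (co p).2) → co x' = ((co p).1, (co p).2 + 1) →
        ∃ y, y ∉ unnat N ∧ y ⋖ x ∧ y ⋖ x' := by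
      intro x x' hx hx' hzx hzx' hcx hcx'
      obtain ⟨y, hy, -, hyx, hyx', hyz⟩ := max_pair g0.chart g0.max H hzN hx hx' hzx hzx' hcx
        hcx' trivial
      refine ⟨y, (HN.mem_iff (t := topOf p).mp ?_).1, hyx, hyx'⟩
      rw [g1]
      exact mem_natR.mpr (Or.inl hy)
    rcases e1 with e1 | e1
    · rcases e2 with e2 | e2
      · exact hcne (Prod.ext (by omega) (by omega))
      · obtain ⟨y, h3, h4, h5⟩ := key x x' hx hx' hzx hzx' (Prod.ext e1.1 e1.2)
          (Prod.ext e2.1 e2.2)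
        exact twin y h3 h4 h5
    · rcases e2 with e2 | e2
      · obtain ⟨y, h3, h4, h5⟩ := key x' x hx' hx hzx' hzx (Prod.ext e2.1 e2.2)
          (Prod.ext e1.1 e1.2)
        exact twin y h3 h5 h4
      · exact hcne (Prod.ext (by omega) (by omega))
  · have hx : x ∈ Nc := g0.strip (mem_lowPart.mpr ⟨hxle, hlx.le⟩)
    have hx' : x' ∈ Nc := g0.strip (mem_lowPart.mpr ⟨hxle', hlx'.le⟩)
    have hpN := g0.chart.up x hx p hp2.1.le
    have e1 := (chart_cov g0.chart H hx hpN).mp hp2.1
    have e2 := (chart_cov g0.chart H hx' hpN).mp hp2.2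
    have hcne : co x ≠ co x' := fun h => hne (g0.chart.inj x hx x' hx' h)
    have hzN : z ∉ Nc := fun h => mem_unnat.mp hzU (topOf p) (by
      rw [g1]
      exact mem_natS.mpr (Or.inl h))
    have hSx : (co x).1 ≤ (co x).2 := g0.chart.mem x hx
    have hSx' : (co x').1 ≤ (co x').2 := g0.chart.mem x' hx'
    have key : ∀ x x' : P, x ∈ Nc → x' ∈ Nc → z ⋖ x → z ⋖ x' → (co x).1 ≤ (co x).2 →
        co x = ((co p).1 + 1, (co p).2) → co x' = ((co p).1, (co p).2 + 1) →
        ∃ y, y ∉ unnat N ∧ y ⋖ x ∧ y ⋖ x' := by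
      intro x x' hx hx' hzx hzx' hS hcx hcx'
      obtain ⟨y, hy, -, hyx, hyx', hyz⟩ := max_pair g0.chart g0.max H hzN hx hx' hzx hzx' hcx
        hcx' (by
          rw [hcx] at hS
          simp only at hS ⊢
          omega)
      refine ⟨y, (HN.mem_iff (t := topOf p).mp ?_).1, hyx, hyx'⟩
      rw [g1]
      exact mem_natS.mpr (Or.inl hy)
    rcases e1 with e1 | e1
    · rcases e2 with e2 | e2
      · exact hcne (Prod.ext (by omega) (by omega))
      · obtain ⟨y, h3, h4, h5⟩ := key x x' hx hx' hzx hzx' hSx (Prod.ext e1.1 e1.2)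
          (Prod.ext e2.1 e2.2)
        exact twin y h3 h4 h5
    · rcases e2 with e2 | e2
      · obtain ⟨y, h3, h4, h5⟩ := key x' x hx' hx hzx' hzx hSx' (Prod.ext e2.1 e2.2)
          (Prod.ext e1.1 e1.2)
        exact twin y h3 h5 h4
      · exact hcne (Prod.ext (by omega) (by omega))
  · exact hne (g4 x x' hxle hxle' hlx hlx')

/-- the second single-up end of the component of a fold end -/
theorem WC.stair_single (W : WC r i m K N b θ) {x x' : P} (hx : Fd m x) (hlx' : lev x' = 2 * m)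
    (hxt : topOf x' = topOf x) (hne : x ≠ x') (h1 : (Win.uc x').card = 1) :
    Prof m x' (gD []) ∧ ∃ Nc co, FI i m N b θ x Nc co ∧ x' ∈ Nc ∧ co x' = (0, 2 * m) := by
  have H := W.gt.H
  have h4 := W.hi
  have him := W.him
  obtain ⟨Nc, co, h⟩ := W.fold_typ hx
  have hx' : x' ∈ Nc := h.stair.strip (mem_lowPart.mpr ⟨by rw [← hxt]; exact le_topOf x',
    hlx'.le⟩)
  have h2 := h.stair.chart.lev x' hx'
  have h3 : (co x').1 ≤ (co x').2 := h.stair.chart.mem x' hx'
  have h5 : (co x').1 = 0 := by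
    by_contra h5
    by_cases h6 : (co x').1 = (co x').2
    · refine hne (h.stair.chart.inj x h.mem x' hx' ?_)
      rw [h.cell]
      exact Prod.ext (by simp only; omega) (by simp only; omega)
    · have := chartS_inner_uc h.stair.chart H hx' (by omega) (by omega)
      omega
  refine ⟨fun d hd => ?_, Nc, co, h, hx', Prod.ext h5 (by simp only; omega)⟩
  rw [nab_chart h.stair.chart hx']
  have := card_cellsAt_shift (l := 2 * m - d) (p := co x') h3 (by omega)
  have h7 : gD [] d = 0 := rfl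
  omega

/-- the seventh step: a fold end in every join -/
def S7F (P : Type u) [Fintype P] [PartialOrder P] [DecidableEq P] (m : ℕ) : Prop :=
  ∀ z x x' : P, lev z = 2 * m + 1 → z ⋖ x → z ⋖ x' → topOf x ≠ topOf x' → Fd m x ∨ Fd m x'

/-- the unnatural elements of level `2 m + 1` which are no twins -/
inductive Kd (i m : ℕ) (N : Tops P → Finset P) (θ : Tops P → P → ℕ) (z : P) : Prop
  | penF (x : P) (hx : Fd m x) (hzx : Pend z x)
  | penH (x : P) (hx : He i m N θ x) (hzx : Pend z x)
  | join (x x' : P) (hx : Fd m x) (h1 : (Win.uc x').card = 1) (ht : topOf x ≠ topOf x')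
      (hzx : z ⋖ x) (hzx' : z ⋖ x')
  | cc (x x' : P) (hx : Fd m x) (h1 : (Win.uc x').card = 1) (ht : topOf x' = topOf x)
      (hne : x ≠ x') (hzx : z ⋖ x) (hzx' : z ⋖ x')
  | full (h : ∀ x, z ⋖ x → Full i m N θ x)

/-- the classification -/
theorem WC.class (W : WC r i m K N b θ) (S7 : S7F P m) {z : P} (hz : z ∈ r2 (2 * m) N)
    (hl : lev z = 2 * m + 1) : Kd i m N θ z := by
  classical
  have H := W.gt.H
  have h4 := W.hi
  have him := W.him
  have hzt : z < (topOf z : P) := lt_of_le_of_ne (le_topOf z) (by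
    intro h
    have := (topOf z).2
    rw [← h] at this
    omega)
  obtain ⟨x, hzx, hxt⟩ := Hul.exists_cov hzt
  have hlev : ∀ y, z ⋖ y → lev y = 2 * m := by
    intro y hy
    have := (H.covBy_iff.mp hy).2
    omega
  have hlx := hlev x hzx
  by_cases honly : ∀ y, z ⋖ y → y = x
  · rcases W.kind hlx with h | h | h | h
    · refine Kd.full fun y hy => ?_
      rw [honly y hy]
      exact h
    · exact Kd.penF x h ⟨hzx, honly⟩
    · exact Kd.penH x h ⟨hzx, honly⟩
    · exact absurd honly (h.2 x z (le_topOf x) hlx h.1 hzx)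
  · push Not at honly
    obtain ⟨x', hzx', hne'⟩ := honly
    have hne : x ≠ x' := Ne.symm hne'
    have hlx' := hlev x' hzx'
    obtain ⟨j, hj⟩ : ∃ j, 2 * m = j + 1 := ⟨2 * m - 1, by omega⟩
    have hgt := W.gt
    rw [hj] at hgt
    rcases (Win.near_level' hgt (by omega)).1 z x x' (by omega) hzx hzx' hne with
      h7 | ⟨h7, h8, -⟩
    · exact (W.near hz hl hzx hzx' hne h7).elim
    · by_cases ht : topOf x = topOf x'
      · have hQ : ∀ y, z ⋖ y → ¬ He i m N θ y := by
          intro y hy hQ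
          rcases uc_pair H hzx hzx' hne hy with h | h
          · subst h
            exact hne (hQ.uniq x' (by rw [ht]; exact le_topOf x') hlx').symm
          · subst h
            exact hne (hQ.uniq x (by rw [← ht]; exact le_topOf x) hlx)
        rcases W.kind hlx with h | h | h | h
        · rcases W.kind hlx' with h' | h' | h' | h'
          · refine Kd.full fun y hy => ?_
            rcases uc_pair H hzx hzx' hne hy with e | e
            · rw [e]; exact h
            · rw [e]; exact h'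
          · exact Kd.cc x' x h' h7 ht hne' hzx' hzx
          · exact (hQ x' hzx' h').elim
          · omega
        · exact Kd.cc x x' h h8 ht.symm hne hzx hzx'
        · exact (hQ x hzx h).elim
        · omega
      · rcases S7 z x x' hl hzx hzx' ht with h9 | h9
        · exact Kd.join x x' h9 h8 ht hzx hzx'
        · exact Kd.join x' x h9 h7 (Ne.symm ht) hzx' hzx

/-- the profiles of the full single-up elements -/
theorem WC.full_prof (W : WC r i m K N b θ) {v : P} (hl : lev v = 2 * m)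
    (hF : Full i m N θ v) (h1 : (Win.uc v).card = 1) : ∃ p ∈ PL i m, Prof m v (gD p) ∧
      (gD p 7 = 1 → (p = q7 ∧ TD m (topOf v) v 8) ∨ (p = p5 ∧ TD m (topOf v) v 4)) := by
  have H := W.gt.H
  have h4 := W.hi
  have him := W.him
  have hnil : ([] : List ℕ) ∈ PL i m := by
    unfold PL
    simp
  have h7 : gD [] 7 = 1 → (([] : List ℕ) = q7 ∧ TD m (topOf v) v 8) ∨
      (([] : List ℕ) = p5 ∧ TD m (topOf v) v 4) := by
    intro h
    exact absurd h (by decide)
  rcases W.tc (topOf v) with ⟨g1, g2, g3, g5, g6, g7, g8⟩ | ⟨Nc, co, g0, g1, g2, g3⟩ |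
    ⟨Nc, co, g0, g1, g2, g3, g4⟩ | ⟨g1, g2, g3, g4, g5, g8⟩
  · exact g7 v (le_topOf v) hl h1
  · have hv : v ∈ Nc := g0.strip (mem_lowPart.mpr ⟨le_topOf v, hl.le⟩)
    have hcl := g0.chart.lev v hv
    refine ⟨[], hnil, fun d hd => ?_, h7⟩
    have h3 : (co v).1 = 0 ∨ (co v).2 = 0 := by
      by_contra hcon
      have := chart_inner_uc g0.chart H hv (by omega) (by omega)
      omega
    rw [nab_chart g0.chart hv]
    have := card_cellsAt_true (l := 2 * m - d) (p := co v) (by omega)
    have h8 : gD [] d = 0 := rfl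
    omega
  · have hv : v ∈ Nc := g0.strip (mem_lowPart.mpr ⟨le_topOf v, hl.le⟩)
    have hcl := g0.chart.lev v hv
    have hS : (co v).1 ≤ (co v).2 := g0.chart.mem v hv
    have h3 : (co v).1 = 0 := by
      by_contra h3
      by_cases h5 : (co v).1 = (co v).2
      · have hFd : Fd m v := by
          refine ⟨hl, h1, ?_⟩
          rw [nab_chart g0.chart hv]
          have := card_cellsAt_shift (l := 2) (p := co v) hS (by omega)
          omega
        have e1 := W.fold_th hFd
        have e2 := hF.th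
        omega
      · have := chartS_inner_uc g0.chart H hv (by omega) (by omega)
        omega
    refine ⟨[], hnil, fun d hd => ?_, h7⟩
    rw [nab_chart g0.chart hv]
    have := card_cellsAt_shift (l := 2 * m - d) (p := co v) hS (by omega)
    have h8 : gD [] d = 0 := rfl
    omega
  · have e2 := hF.th
    rw [g2 v hl.le] at e2
    omega

end Pool.Agent.GaussPoset.Fi

end

/-! From `Pool.Agent.W_448s8f_h76.FiF` -/

section

/-!
Labels, costs, drops and signs of the elements of level `2 m + 1` (MP_448cb3_co, S8, small `m`).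
-/

namespace Pool.Agent.GaussPoset.Fi

set_option linter.unusedSectionVars false

open Polynomial Finset

universe u

variable {P : Type u} [Fintype P] [PartialOrder P] [DecidableEq P] {r i m K N0 : ℕ}
  {N : Tops P → Finset P} {b : Tops P → ℕ} {θ : Tops P → P → ℕ}

/-- weighted number of elements above, from the numbers by depth -/
def vsQ (i m k : ℕ) (q : ℕ → ℕ) : ℕ :=
  ∑ u ∈ range (2 * m - i + 1), min k u * q (2 * m - (i + u))

/-- sign exponent from the numbers by depth -/
def nsQ (i m k : ℕ) (q : ℕ → ℕ) : ℕ := ∑ u ∈ range k, q (2 * m - (i + u))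

lemma ct_topI {z : P} {k : ℕ} {q : ℕ → ℕ} (hi : i ≤ 2 * m) (hl : lev z = 2 * m + 1)
    (hk : k ≤ 2 * m + 1 - i) (hq : ∀ d, d ≤ 2 * m - i → nab (2 * m - d) z = q d) :
    ct i k z = vsQ i m k q + k := by
  unfold ct vsQ
  rw [cst_eq, hl, Finset.sum_range_succ, ← hl, nab_self, hl,
    show 2 * m + 1 = i + (2 * m - i + 1) by omega, Finset.sum_range_add, Finset.sum_eq_zero,
    zero_add]
  · congr 1
    · refine Finset.sum_congr rfl fun u hu => ?_
      rw [mem_range] at hu
      rw [Nat.add_sub_cancel_left, ← hq (2 * m - (i + u)) (by omega),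
        show 2 * m - (2 * m - (i + u)) = i + u by omega]
    · rw [Nat.add_sub_cancel_left, Nat.min_eq_left (by omega), Nat.mul_one]
  · intro l hl
    rw [mem_range] at hl
    rw [show l - i = 0 by omega, Nat.min_zero, Nat.zero_mul]

/-- elements of level `2 m` -/
lemma ct_midI {x : P} {k : ℕ} {q : ℕ → ℕ} (hi : i ≤ 2 * m) (hl : lev x = 2 * m)
    (hq : ∀ d, d ≤ 2 * m - i → nab (2 * m - d) x = q d) : ct i k x = vsQ i m k q := by
  unfold ct vsQ
  rw [cst_eq, hl, show 2 * m + 1 = i + (2 * m - i + 1) by omega, Finset.sum_range_add,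
    Finset.sum_eq_zero, zero_add]
  · refine Finset.sum_congr rfl fun u hu => ?_
    rw [mem_range] at hu
    rw [Nat.add_sub_cancel_left, ← hq (2 * m - (i + u)) (by omega),
      show 2 * m - (2 * m - (i + u)) = i + u by omega]
  · intro l hl
    rw [mem_range] at hl
    rw [show l - i = 0 by omega, Nat.min_zero, Nat.zero_mul]

lemma vsQ_add (i m k : ℕ) (q q' : ℕ → ℕ) :
    vsQ i m k (fun d => q d + q' d) = vsQ i m k q + vsQ i m k q' := by
  unfold vsQ
  rw [← Finset.sum_add_distrib]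
  refine Finset.sum_congr rfl fun u _ => ?_
  ring

lemma vsQ_mono {i m k : ℕ} {q q' : ℕ → ℕ} (h : ∀ d, q d ≤ q' d) : vsQ i m k q ≤ vsQ i m k q' :=
  Finset.sum_le_sum fun _ _ => Nat.mul_le_mul_left _ (h _)

/-- the numerical data of a boundary element -/
structure NQ (i m : ℕ) (N : Tops P → Finset P) (θ : Tops P → P → ℕ) (z : P) (k : ℕ) (q : ℕ → ℕ) :
    Prop where
  lab : h2 (2 * m) N θ z = k
  cst : Pool.Agent.GaussPoset.cst i (h2 (2 * m) N θ) z = vsQ i m k q + k
  n0 : nab i z = q (2 * m - i)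
  n1 : nab (i + h2 (2 * m) N θ z) z = q (2 * m - (i + k))
  nst : Pool.Agent.GaussPoset.nst i (h2 (2 * m) N θ) z = nsQ i m k q

lemma NQ.mk' {z : P} {k : ℕ} {q : ℕ → ℕ} (hl : lev z = 2 * m + 1)
    (hk : i + k ≤ 2 * m) (h1 : h2 (2 * m) N θ z = k)
    (hq : ∀ d, d ≤ 2 * m - i → nab (2 * m - d) z = q d) : NQ i m N θ z k q where
  lab := h1
  cst := by rw [cst_ct h1, ct_topI (by omega) hl (by omega) hq]
  n0 := by rw [← hq _ le_rfl, show 2 * m - (2 * m - i) = i by omega]
  n1 := by rw [h1, ← hq _ (by omega), show 2 * m - (2 * m - (i + k)) = i + k by omega]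
  nst := by
    rw [nst_eq, h1]
    unfold nsQ
    refine Finset.sum_congr rfl fun u hu => ?_
    rw [mem_range] at hu
    rw [← hq _ (by omega), show 2 * m - (2 * m - (i + u)) = i + u by omega]

/-- the label of a fold end -/
def kF (i m : ℕ) : ℕ := (m - 2 * (i / 2)) + (m - i) + 1

/-- the label of a boundary element of level `2 m + 1` -/
lemma WI.h2_eqI (W : WI r i m K N b θ) {z x : P} (hz : z ∈ r2 (2 * m) N) (hl : lev z = 2 * m + 1)
    (hzx : z ⋖ x) (hmin : ∀ y, z ⋖ y → θ (topOf x) x ≤ θ (topOf y) y) :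
    h2 (2 * m) N θ z = θ (topOf x) x + 1 := by
  classical
  have H := W.gt.H
  have hlev : ∀ y, z ⋖ y → lev y = 2 * m := by
    intro y hy
    have := (H.covBy_iff.mp hy).2
    omega
  have hnY : ∀ y, z ⋖ y → y ∉ twY (2 * m) N := by
    intro y hy h
    have h1 := hlev y hy
    have h2 := (mem_twY.mp h).2.1
    omega
  have hnR : ∀ y, z ⋖ y → y ∉ r2 (2 * m) N := fun y hy h =>
    W.low (hlev y hy).le (mem_sdiff.mp h).1
  have hbd : z ∈ bdR (r2 (2 * m) N) := mem_filter.mpr ⟨hz, x, hnR x hzx, hzx⟩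
  refine le_antisymm ?_ ?_
  · refine (hcan_le (θ := thX (twY (2 * m) N) (twT N) (fun x => θ (topOf x) x)) (hnR x hzx)
      hzx).trans ?_
    rw [thX_not (hnY x hzx)]
  · obtain ⟨y, hy, hzy, hh⟩ := hcan_spec
      (θ := thX (twY (2 * m) N) (twT N) (fun x => θ (topOf x) x)) hbd
    rw [thX_not (hnY y hzy)] at hh
    have h3 := hmin y hzy
    show _ ≤ hcan _ _ z
    omega

lemma WI.mem_bd (W : WI r i m K N b θ) {z : P} (hz : z ∈ r2 (2 * m) N) (hl : lev z = 2 * m + 1) :
    z ∈ bdR (r2 (2 * m) N) := by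
  classical
  have hzt : z < (topOf z : P) := lt_of_le_of_ne (le_topOf z) (by
    intro h
    have := (topOf z).2
    rw [← h] at this
    omega)
  obtain ⟨x, hzx, -⟩ := Hul.exists_cov hzt
  refine mem_filter.mpr ⟨hz, x, fun h => ?_, hzx⟩
  have h1 := (W.gt.H.covBy_iff.mp hzx).2
  exact W.low (by omega) (mem_sdiff.mp h).1

/-- joins of natural elements of level `2 m` of different tops -/
lemma WI.nab_joinI (W : WI r i m K N b θ) {z x x' : P} (hl : lev z = 2 * m + 1) (hzx : z ⋖ x)
    (hzx' : z ⋖ x') (ht : topOf x ≠ topOf x') {l : ℕ} (hl2 : l ≤ 2 * m) :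
    nab l z = nab l x + nab l x' := by
  have H := W.gt.H
  have HN := W.natSys
  have h1 := (H.covBy_iff.mp hzx).2
  have h2 := (H.covBy_iff.mp hzx').2
  exact nab_join_eq HN H (HN.mem_iff.mpr ⟨W.low (by omega), rfl⟩)
    (HN.mem_iff.mpr ⟨W.low (by omega), rfl⟩) ht hzx hzx' (by omega)

/-- the table -/
inductive Rw (i m : ℕ) (N : Tops P → Finset P) (θ : Tops P → P → ℕ) (z : P) : Prop
  | penF (x : P) (hx : Fd m x) (hp : Pend z x) (hn : NQ i m N θ z (kF i m) (fun d => 1 + pF m d))
  | penH (x : P) (hx : He i m N θ x) (hp : Pend z x) (p : List ℕ) (hp' : p ∈ HL i m)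
      (hn : NQ i m N θ z 1 (fun d => 1 + gD p d))
  | fh (x x' : P) (hx : Fd m x) (hx' : He i m N θ x') (ht : topOf x ≠ topOf x') (hzx : z ⋖ x)
      (hzx' : z ⋖ x') (p : List ℕ) (hp : p ∈ HL i m) (hpr : Prof m x' (gD p))
      (hn : NQ i m N θ z 1 (fun d => (1 + pF m d) + (1 + gD p d)))
  | ff (x x' : P) (hx : Fd m x) (hx' : Fd m x') (ht : topOf x ≠ topOf x') (hzx : z ⋖ x)
      (hzx' : z ⋖ x') (hn : NQ i m N θ z (kF i m) (fun d => (1 + pF m d) + (1 + pF m d)))
  | fv (x x' : P) (hx : Fd m x) (hx' : Full i m N θ x') (h1 : (Win.uc x').card = 1)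
      (ht : topOf x ≠ topOf x') (hzx : z ⋖ x) (hzx' : z ⋖ x') (p : List ℕ) (hp : p ∈ PL i m)
      (hpr : Prof m x' (gD p))
      (htd : gD p 7 = 1 → (p = q7 ∧ TD m (topOf x') x' 8) ∨ (p = p5 ∧ TD m (topOf x') x' 4))
      (hn : NQ i m N θ z (kF i m) (fun d => (1 + pF m d) + (1 + gD p d)))
  | cc (x x' : P) (hx : Fd m x) (h1 : (Win.uc x').card = 1) (ht : topOf x' = topOf x)
      (hne : x ≠ x') (hzx : z ⋖ x) (hzx' : z ⋖ x')
  | full (hF : ∀ y, z ⋖ y → Full i m N θ y)
      (h : (2 * m + 1 - i) ^ 2 ≤ cst i (h2 (2 * m) N θ) z)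

/-- the table of the elements of level `2 m + 1` -/
theorem WC.rows (W : WC r i m K N b θ) (S7 : S7F P m) (hkF : i + kF i m ≤ 2 * m) {z : P}
    (hz : z ∈ r2 (2 * m) N) (hl : lev z = 2 * m + 1) : Rw i m N θ z := by
  have H := W.gt.H
  have h4 := W.hi
  have him := W.him
  have hmi := W.hmi
  have W' := W.wi
  have hlev : ∀ y, z ⋖ y → lev y = 2 * m := by
    intro y hy
    have := (H.covBy_iff.mp hy).2
    omega
  have hFle : (m - 2 * (i / 2)) + (m - i) ≤ 2 * m - i := by omega
  rcases W.class S7 hz hl with ⟨x, hx, hp⟩ | ⟨x, hx, hp⟩ | ⟨x, x', hx, h1, ht, hzx, hzx'⟩ |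
    ⟨x, x', hx, h1, ht, hne, hzx, hzx'⟩ | h
  · refine Rw.penF x hx hp (NQ.mk' hl hkF ?_ fun d hd => ?_)
    · rw [W'.h2_eqI hz hl hp.1 (fun y hy => by rw [hp.2 y hy]), W.fold_th hx]
      rfl
    · rw [nab_pend hp (by omega)]
      exact W.fold_prof hx d (by omega)
  · obtain ⟨p, hp', hpr⟩ := hx.prof
    refine Rw.penH x hx hp p hp' (NQ.mk' hl (by omega) ?_ fun d hd => ?_)
    · rw [W'.h2_eqI hz hl hp.1 (fun y hy => by rw [hp.2 y hy]), hx.th]
    · rw [nab_pend hp (by omega)]
      exact hpr d (by omega)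
  · have hne : x ≠ x' := fun h => ht (by rw [h])
    have hlx' := hlev x' hzx'
    rcases W.kind hlx' with h | h | h | h
    · obtain ⟨p, hp, hpr, htd⟩ := W.full_prof hlx' h h1
      refine Rw.fv x x' hx h h1 ht hzx hzx' p hp hpr htd (NQ.mk' hl hkF ?_ fun d hd => ?_)
      · rw [W'.h2_eqI hz hl hzx (fun y hy => ?_), W.fold_th hx]
        · rfl
        · rcases uc_pair H hzx hzx' hne hy with e | e
          · rw [e]
          · rw [e, W.fold_th hx, h.th, hlx']
            exact hFle
      · rw [W'.nab_joinI hl hzx hzx' ht (by omega), W.fold_prof hx d (by omega),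
          hpr d (by omega)]
    · refine Rw.ff x x' hx h ht hzx hzx' (NQ.mk' hl hkF ?_ fun d hd => ?_)
      · rw [W'.h2_eqI hz hl hzx (fun y hy => ?_), W.fold_th hx]
        · rfl
        · rcases uc_pair H hzx hzx' hne hy with e | e
          · rw [e]
          · rw [e, W.fold_th hx, W.fold_th h]
      · rw [W'.nab_joinI hl hzx hzx' ht (by omega), W.fold_prof hx d (by omega),
          W.fold_prof h d (by omega)]
    · obtain ⟨p, hp, hpr⟩ := h.prof
      refine Rw.fh x x' hx h ht hzx hzx' p hp hpr (NQ.mk' hl (by omega) ?_ fun d hd => ?_)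
      · rw [W'.h2_eqI hz hl hzx' (fun y hy => ?_), h.th]
        rw [h.th]
        exact Nat.zero_le _
      · rw [W'.nab_joinI hl hzx hzx' ht (by omega), W.fold_prof hx d (by omega),
          hpr d (by omega)]
    · omega
  · exact Rw.cc x x' hx h1 ht hne hzx hzx'
  · refine Rw.full h ?_
    have hzt : z < (topOf z : P) := lt_of_le_of_ne (le_topOf z) (by
      intro h
      have := (topOf z).2
      rw [← h] at this
      omega)
    obtain ⟨x, hzx, -⟩ := Hul.exists_cov hzt
    have h3 := W'.h2_eqI hz hl hzx (fun y hy => by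
      rw [(h x hzx).th, (h y hy).th, hlev x hzx, hlev y hy])
    rw [(h x hzx).th, hlev x hzx] at h3
    have h5 := sq_le_cst (i := i) (h := h2 (2 * m) N θ) (z := z) (by omega)
      (by rw [h3]; omega) (by
        intro k hk hk2
        exact (h x hzx).two z (mem_sdiff.mp hz).1 hzx.le k (by omega) (by rw [hlev x hzx]; omega))
    rwa [hl] at h5

end Pool.Agent.GaussPoset.Fi

end

/-! From `Pool.Agent.W_448s8f_h94.DgA` -/

section

/-!
No join of two fold ends, `m` odd, `m ≥ 9`, window `m` (MP_448cb3_co, S8, small `m`): second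
thresholds, the truncated data.
-/

namespace Pool.Agent.GaussPoset.Fi

set_option linter.unusedSectionVars false

open Polynomial Finset

universe u

variable {P : Type u} [Fintype P] [PartialOrder P] [DecidableEq P] {r m K : ℕ}
  {N : Tops P → Finset P} {b : Tops P → ℕ} {θ : Tops P → P → ℕ}

theorem stair1' {q s c L : ℕ} (hq : 4 ≤ q) (hs : 1 ≤ s) (hsm : s ≤ 2 * q + 1)
    (hc : s + c = 2 * (2 * q + 1) + 1)
    (hL : L = (s - (2 * q - 2)) + (c - (2 * q + 1))) :
    4 * q * q + 6 * q + 5 ≤ ∑ a ∈ range (s + 1),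
      rowW true (fun k => min L (k - (2 * q + 1))) c (2 * (2 * q + 1) + 1) a := by
  rcases Nat.lt_or_ge 4 q with h | h
  · exact stair1 (by omega) hs hsm hc hL
  · obtain rfl : q = 4 := le_antisymm h hq
    obtain rfl : c = 19 - s := by omega
    subst hL
    have h1 : ∀ s ∈ Icc 1 9, 4 * 4 * 4 + 6 * 4 + 5 ≤ ∑ a ∈ range (s + 1),
        rowW true (fun k => min ((s - (2 * 4 - 2)) + ((19 - s) - (2 * 4 + 1)))
          (k - (2 * 4 + 1))) (19 - s) (2 * (2 * 4 + 1) + 1) a := by decide +kernel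
    exact h1 s (mem_Icc.mpr ⟨hs, hsm⟩)

theorem stair3' {q s c L : ℕ} (hq : 4 ≤ q) (hs : 1 ≤ s) (hsm : s ≤ 2 * q)
    (hc : s + c = 2 * (2 * q + 1)) (hL : L = c - (2 * q + 1) + 1) :
    (q + 1) * (2 * q + 1) + 2 ≤ L + ∑ a ∈ range (s + 1),
      rowW true (fun k => min L (k - (2 * q + 1))) c (2 * (2 * q + 1)) a := by
  rcases Nat.lt_or_ge 4 q with h | h
  · exact stair3 (by omega) hs hsm hc hL
  · obtain rfl : q = 4 := le_antisymm h hq
    obtain rfl : c = 18 - s := by omega
    subst hL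
    have h1 : ∀ s ∈ Icc 1 8, (4 + 1) * (2 * 4 + 1) + 2 ≤ ((18 - s) - (2 * 4 + 1) + 1) +
        ∑ a ∈ range (s + 1),
        rowW true (fun k => min ((18 - s) - (2 * 4 + 1) + 1)
          (k - (2 * 4 + 1))) (18 - s) (2 * (2 * 4 + 1)) a := by decide +kernel
    exact h1 s (mem_Icc.mpr ⟨hs, hsm⟩)

/-- chart of a stair-like top -/
structure StC (m : ℕ) (N : Tops P → Finset P) (b : Tops P → ℕ) (θ : Tops P → P → ℕ) (t : Tops P)
    (c : Finset P × (P → ℕ × ℕ)) : Prop where
  st : StairNat (2 * m) m t c.1 c.2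
  nat : N t = natS c.1 c.2
  th : θ t = thS m c.1 c.2
  b : b t = m / 2 + 1
  nop : NopT m t

/-- stair-like tops -/
def StT (m : ℕ) (N : Tops P → Finset P) (b : Tops P → ℕ) (θ : Tops P → P → ℕ) (t : Tops P) :
    Prop := ∃ c : Finset P × (P → ℕ × ℕ), StC m N b θ t c

open Classical in
/-- the second thresholds -/
noncomputable def thP (m : ℕ) (N : Tops P → Finset P) (b : Tops P → ℕ) (θ : Tops P → P → ℕ)
    (t : Tops P) : P → ℕ :=
  if h : StT m N b θ t then thSg (2 * (m / 2) - 2) m h.choose.1 h.choose.2 else θ t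

lemma thP_st {t : Tops P} (h : StT m N b θ t) : ∃ c : Finset P × (P → ℕ × ℕ), StC m N b θ t c ∧
    thP m N b θ t = thSg (2 * (m / 2) - 2) m c.1 c.2 :=
  ⟨h.choose, h.choose_spec, dif_pos h⟩

lemma thP_not {t : Tops P} (h : ¬ StT m N b θ t) : thP m N b θ t = θ t := dif_neg h

/-- inner cells of a stair-like component, with both thresholds -/
structure InS2 (m : ℕ) (N : Tops P → Finset P) (b : Tops P → ℕ) (θ : Tops P → P → ℕ) (x : P)
    (Nc : Finset P) (co : P → ℕ × ℕ) : Prop where
  ins : InS m m N b θ x Nc co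
  thP : thP m N b θ (topOf x) x = ((co x).1 - (2 * (m / 2) - 2)) + ((co x).2 - m)
  sc : StC m N b θ (topOf x) (Nc, co)
  eq : Pool.Agent.GaussPoset.Fi.thP m N b θ (topOf x) = thSg (2 * (m / 2) - 2) m Nc co

/-- the kinds of natural elements, with the second thresholds -/
inductive K2 (m : ℕ) (N : Tops P → Finset P) (b : Tops P → ℕ) (θ : Tops P → P → ℕ) (x : P) : Prop
  | full (h : Full m m N θ x) (h2 : Pool.Agent.GaussPoset.Fi.thP m N b θ (topOf x) x = lev x - m)
  | stair (Nc : Finset P) (co : P → ℕ × ℕ) (hs : StT m N b θ (topOf x))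
      (h : InS2 m N b θ x Nc co)
  | rect (Nc : Finset P) (co : P → ℕ × ℕ) (hs : ¬ StT m N b θ (topOf x))
      (h : InR m m N b θ x Nc co)
  | quad (hl : lev x ≤ 2 * m) (h : lev x = 2 * m → He m m N θ x)

theorem WC.k2 (W : WC r m m K N b θ) {x : P} (hx : x ∉ unnat N) : K2 m N b θ x := by
  have H := W.gt.H
  have W' := W.wi
  have HN := W'.natSys
  have hxt : x ∈ N (topOf x) := HN.mem_iff.mpr ⟨hx, rfl⟩
  have hm := W.hi
  by_cases hs : StT m N b θ (topOf x)
  · obtain ⟨⟨Nc, co⟩, ⟨h0, h1, h2, h3, h4⟩, h5⟩ := thP_st hs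
    simp only at h0 h1 h2 h5
    rw [h1] at hxt
    by_cases hJ : x ∈ junk (fun c => c.1 ≤ c.2) Nc co
    · refine K2.full ⟨?_, ?_, ?_⟩ ?_
      · rw [h2]
        unfold thS
        rw [if_pos hJ]
      · intro z hz hzx k hk hkx
        exact stair_two_le_nab H h0 h1 hz hzx (Or.inl hJ) hk hkx
      · intro z hz h
        refine mem_unnat.mp hz (topOf x) ?_
        rw [h1, mem_natS]
        exact Or.inr (junk_twin hJ h)
      · rw [h5]
        unfold thSg
        rw [if_pos hJ]
    · have hxN : x ∈ Nc := by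
        rw [mem_natS] at hxt
        rcases hxt with h | h
        · exact h
        · exact absurd h hJ
      have hl := h0.chart.lev x hxN
      by_cases h7 : (co x).1 = 0
      · refine K2.full ⟨?_, ?_, ?_⟩ ?_
        · rw [h2]
          unfold thS
          rw [if_neg hJ]
          omega
        · intro z hz hzx k hk hkx
          exact stair_two_le_nab H h0 h1 hz hzx (Or.inr ⟨hxN, h7⟩) hk hkx
        · intro z hz h
          have h8 := W'.lt_lev hz
          rw [← lev_eq_of_up h] at h8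
          obtain ⟨u, hu, hcu⟩ := h0.chart.low x hxN (0, (co x).2 - 1)
            ⟨Nat.zero_le _, Nat.sub_le _ _⟩ (Nat.zero_le _)
          refine straight_twinS H h0 (by omega) h1 hxN hu ?_ ?_ ?_ hz h
          · rw [hcu]
            exact Or.inr ⟨by simp only; omega, by simp only; omega⟩
          · intro y hy hp
            rw [hcu]
            rcases hp with hp | hp
            · omega
            · exact Prod.ext (by simp only; omega) (by simp only; omega)
          · rw [hcu]
        · rw [h5]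
          unfold thSg
          rw [if_neg hJ]
          omega
      · refine K2.stair Nc co hs ⟨⟨h0, h1, h2, h3, hxN, by omega, ?_, h4⟩, ?_,
          ⟨h0, h1, h2, h3, h4⟩, h5⟩
        · rw [h2]
          unfold thS
          rw [if_neg hJ]
        · rw [h5]
          unfold thSg
          rw [if_neg hJ]
  · have h8 := thP_not hs
    rcases W.tc (topOf x) with ⟨g1, g2, g3, g5, g6, g7, g9⟩ | ⟨Nc, co, g0, g1, g2, g3⟩ |
      ⟨Nc, co, g0, g1, g2, g3, g4⟩ | ⟨g1, g2, g3, g4, g5, g9⟩
    · have h := W'.light_case hx g1 g2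
      exact K2.full h (by rw [h8]; exact h.th)
    · rcases W'.rect_case hx g0 g1 g2 g3 with h | ⟨Nc', co', h⟩
      · exact K2.full h (by rw [h8]; exact h.th)
      · exact K2.rect Nc' co' hs h
    · exact absurd ⟨(Nc, co), g0, g1, g2, g3, g4⟩ hs
    · have hl : lev x ≤ 2 * m := by
        rw [g1, mem_lowPart] at hxt
        exact hxt.2
      exact K2.quad hl fun hl' => ⟨hl', g1, g2 x hl, (g5 x (le_topOf x) hl').1,
        (g5 x (le_topOf x) hl').2, fun w hw hwl => g4 w x hw (le_topOf x) hwl hl'⟩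

/-- twins of cells of rectangle-like components -/
noncomputable def twR (m : ℕ) (N : Tops P → Finset P) (b : Tops P → ℕ) (θ : Tops P → P → ℕ) :
    Finset P := by
  classical
  exact (twY (2 * m) N).filter (fun z => ¬ StT m N b θ (topOf z))

lemma mem_twR {z : P} : z ∈ twR m N b θ ↔ z ∈ twY (2 * m) N ∧ ¬ StT m N b θ (topOf z) := by
  classical
  unfold twR
  rw [mem_filter]

/-- the unnatural elements without the twins of rectangle cells -/
noncomputable abbrev R3 (m : ℕ) (N : Tops P → Finset P) (b : Tops P → ℕ) (θ : Tops P → P → ℕ) :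
    Finset P := unnat N \ twR m N b θ

theorem WC.twR_sys (W : WC r m m K N b θ) : TwSys (unnat N) (twR m N b θ) topOf (twT N) where
  sub := fun _ hx => W.wi.twSys.sub (mem_twR.mp hx).1
  nat := fun x hx => W.wi.twSys.nat x (mem_twR.mp hx).1
  up := fun x hx => W.wi.twSys.up x (mem_twR.mp hx).1
  inj := fun x hx x' hx' => W.wi.twSys.inj x (mem_twR.mp hx).1 x' (mem_twR.mp hx').1
  anti := fun x hx y hy => W.wi.twSys.anti x (mem_twR.mp hx).1 y (mem_twR.mp hy).1
  cp := fun x hx => W.wi.twSys.cp x (mem_twR.mp hx).1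

/-- the natural element of a twin of a rectangle cell -/
lemma WC.twR_rect (W : WC r m m K N b θ) {x : P} (hx : x ∈ twR m N b θ) :
    ∃ Nc co, InR m m N b θ (twT N x) Nc co := by
  have h0 := mem_twR.mp hx
  have h1 := mem_twY.mp h0.1
  have h3 := twT_spec h1.2.2
  have h6 : topOf (twT N x) = topOf x := W.wi.twSys.cp x h0.1
  rcases W.k2 h3.1 with ⟨h, -⟩ | ⟨Nc, co, hs, h⟩ | ⟨Nc, co, hs, h⟩ | ⟨h4, -⟩
  · exact absurd h3.2 (h.tw x h1.1)
  · rw [h6] at hs
    exact absurd hs h0.2
  · exact ⟨Nc, co, h⟩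
  · have h5 := W.wi.twSys.lev h0.1
    omega

/-- the natural element of a twin of a stair cell -/
lemma WC.twS_stair (W : WC r m m K N b θ) {x : P} (hx : x ∈ twY (2 * m) N)
    (hs : StT m N b θ (topOf x)) : ∃ Nc co, InS2 m N b θ (twT N x) Nc co := by
  have h1 := mem_twY.mp hx
  have h3 := twT_spec h1.2.2
  have h6 : topOf (twT N x) = topOf x := W.wi.twSys.cp x hx
  rcases W.k2 h3.1 with ⟨h, -⟩ | ⟨Nc, co, hs', h⟩ | ⟨Nc, co, hs', h⟩ | ⟨h4, -⟩
  · exact absurd h3.2 (h.tw x h1.1)
  · exact ⟨Nc, co, h⟩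
  · rw [h6] at hs'
    exact absurd hs hs'
  · have h5 := W.wi.twSys.lev hx
    omega

lemma WC.twR_kap (W : WC r m m K N b θ) {x : P} (hx : x ∈ twR m N b θ) :
    (m + 1) * (m + 1) + 2 ≤ ct m (θ (topOf (twT N x)) (twT N x) + 1) (twT N x) +
      (θ (topOf (twT N x)) (twT N x) + 1) := by
  have h0 := mem_twR.mp hx
  have h1 := mem_twY.mp h0.1
  have h5 := W.wi.twSys.lev h0.1
  have hm := W.hi
  obtain ⟨Nc, co, h⟩ := W.twR_rect hx
  refine Pool.Agent.GaussPoset.kap_chart (by omega) h.rect.chart h.mem h.fst h.snd (by omega) ?_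
  rw [h.th]

/-- the thresholds for the component `k0` -/
noncomputable def thK (m : ℕ) (N : Tops P → Finset P) (b : Tops P → ℕ) (θ : Tops P → P → ℕ)
    (k0 t : Tops P) : P → ℕ := by
  classical
  exact if t = k0 then thP m N b θ t else θ t

/-- the orders for the component `k0` -/
noncomputable def bK (m : ℕ) (N : Tops P → Finset P) (b : Tops P → ℕ) (θ : Tops P → P → ℕ)
    (k0 t : Tops P) : ℕ := by
  classical
  exact if t = k0 ∧ StT m N b θ t then m / 2 else b t

theorem WC.natTopK (W : WC r m m K N b θ) (k0 t : Tops P) :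
    ∃ B, NatTop m t (bK m N b θ k0 t) (N t) (thK m N b θ k0 t) B := by
  classical
  have hm := W.hi
  by_cases h : t = k0 ∧ StT m N b θ t
  · obtain ⟨⟨Nc, co⟩, h1, h2⟩ := thP_st h.2
    simp only at h2
    have e1 : bK m N b θ k0 t = m / 2 := if_pos h
    have e2 : thK m N b θ k0 t = thSg (2 * (m / 2) - 2) m Nc co := by
      unfold thK
      rw [if_pos h.1, h2]
    rw [e1, e2, h1.nat]
    exact ⟨_, h1.st.natTop_less W.gt.H.gradedBelow (by omega) (by omega)⟩
  · have e1 : bK m N b θ k0 t = b t := if_neg h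
    have e2 : thK m N b θ k0 t = θ t := by
      unfold thK
      by_cases h3 : t = k0
      · rw [if_pos h3, thP_not fun h4 => h ⟨h3, h4⟩]
      · rw [if_neg h3]
    rw [e1, e2]
    exact W.wi.natTop t

/-- the first thresholds -/
noncomputable abbrev tA (m : ℕ) (N : Tops P → Finset P) (b : Tops P → ℕ) (θ : Tops P → P → ℕ) :
    P → ℕ := thX (twR m N b θ) (twT N) (fun x => θ (topOf x) x)

/-- the second thresholds -/
noncomputable abbrev tB (m : ℕ) (N : Tops P → Finset P) (b : Tops P → ℕ) (θ : Tops P → P → ℕ) :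
    P → ℕ := thX (twR m N b θ) (twT N) (fun x => thP m N b θ (topOf x) x)

/-- the thresholds for the component `k0` -/
noncomputable abbrev tK (m : ℕ) (N : Tops P → Finset P) (b : Tops P → ℕ) (θ : Tops P → P → ℕ)
    (k0 : Tops P) : P → ℕ := thX (twR m N b θ) (twT N) (fun x => thK m N b θ k0 (topOf x) x)

lemma WC.tK_eq (W : WC r m m K N b θ) (k0 : Tops P) (x : P) : tK m N b θ k0 x =
    (by classical exact if topOf x = k0 then tB m N b θ x else tA m N b θ x) := by
  classical
  by_cases hx : x ∈ twR m N b θ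
  · have h1 := W.twR_sys.cp x hx
    unfold tK tA tB
    rw [thX_of hx, thX_of hx, thX_of hx]
    unfold thK
    rw [h1]
    split_ifs <;> rfl
  · unfold tK tA tB
    rw [thX_not hx, thX_not hx, thX_not hx]
    unfold thK
    split_ifs <;> rfl

lemma WC.tB_twR (W : WC r m m K N b θ) {x : P} (hx : x ∈ twR m N b θ) :
    tB m N b θ x = θ (topOf (twT N x)) (twT N x) := by
  unfold tB
  rw [thX_of hx, thP_not]
  rw [W.twR_sys.cp x hx]
  exact (mem_twR.mp hx).2

lemma tA_twR {x : P} (hx : x ∈ twR m N b θ) :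
    tA m N b θ x = θ (topOf (twT N x)) (twT N x) := thX_of hx

lemma WC.twinPairK (W : WC r m m K N b θ) (k0 : Tops P) {x : P} (hx : x ∈ twR m N b θ) :
    TwinPair m (tK m N b θ k0) ((m + 1) * (m + 1) + 1) (twT N x) x := by
  classical
  have T := W.twR_sys
  have h0 := mem_twR.mp hx
  have h1 := mem_twY.mp h0.1
  have hlev : lev (twT N x) = 2 * m + 1 := by rw [T.lev hx]; exact h1.2.1
  have hnY : twT N x ∉ twR m N b θ := fun h => T.nat x hx (T.sub h)
  obtain ⟨h3, h4⟩ := W.wi.tw_th h0.1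
  have h5 := W.twR_kap hx
  have hc := T.cp x hx
  have hth' : tK m N b θ k0 x = θ (topOf (twT N x)) (twT N x) := by
    rw [W.tK_eq]
    split_ifs
    · exact W.tB_twR hx
    · exact tA_twR hx
  have hth : tK m N b θ k0 (twT N x) = θ (topOf (twT N x)) (twT N x) := by
    rw [← hth']
    unfold tK
    rw [thX_not hnY, thX_of hx]
  refine ⟨?_, T.up x hx, ?_, ?_, ?_, ?_, ?_⟩
  · intro h
    exact T.nat x hx (h.symm ▸ h1.1)
  · rw [hth]; exact h3
  · rw [hth, hth']
  · rw [hth, hlev]; omega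
  · rw [hth]
    have h6 : ct m (θ (topOf (twT N x)) (twT N x) + 1) (twT N x) ≤
        ∑ y, (if twT N x ≤ y then lev y - m else 0) := by
      rw [ct_eq_sum]
      refine Finset.sum_le_sum fun y _ => ?_
      split_ifs
      · exact Nat.min_le_right _ _
      · exact le_rfl
    omega
  · rw [hth]
    have h6 := ct_succ m (θ (topOf (twT N x)) (twT N x) + 1) (twT N x)
    rw [hlev, Nat.min_eq_left (by omega)] at h6
    omega

theorem WC.farK (W : WC r m m K N b θ) (k0 : Tops P) :
    FarT P m (R3 m N b θ) (∑ t, bK m N b θ k0 t) (hcan (R3 m N b θ) (tK m N b θ k0))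
      ((m + 1) * (m + 1) + 1) := by
  choose B hB using W.natTopK k0
  exact farT_of_tops W.gt.H.gradedBelow hB W.twR_sys _ (fun x hx => W.twinPairK k0 hx)

lemma WC.sum_bK (W : WC r m m K N b θ) (k0 : Tops P) :
    (lv P m).card ≤ (∑ t, bK m N b θ k0 t) + 1 := by
  classical
  rw [← W.sum_b]
  have h1 : ∀ t ∈ (univ : Finset (Tops P)), b t ≤ bK m N b θ k0 t + if t = k0 then 1 else 0 := by
    intro t _
    unfold bK
    by_cases h : t = k0 ∧ StT m N b θ t
    · obtain ⟨c, hc⟩ := h.2
      rw [if_pos h, if_pos h.1, hc.b]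
    · rw [if_neg h]
      exact Nat.le_add_right _ _
  have h2 := Finset.sum_le_sum h1
  rw [Finset.sum_add_distrib, Finset.sum_ite_eq' univ k0, if_pos (mem_univ _)] at h2
  exact h2

/-- configurations with at most one defect -/
theorem WC.clean2 (W : WC r m m K N b θ) {n : ℕ} (hn : n < (m + 1) * (m + 1) + 1) (k0 : Tops P)
    (g : P → ℕ) (hg0 : ∀ x, x ∉ R3 m N b θ → g x = 0)
    (h1 : ∀ y ∈ R3 m N b θ, ∀ x, x ∉ R3 m N b θ → y ⋖ x → topOf x = k0 → g y ≤ tB m N b θ x)
    (h2 : ∀ y ∈ R3 m N b θ, ∀ x, x ∉ R3 m N b θ → y ⋖ x → topOf x ≠ k0 → g y ≤ tA m N b θ x) :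
    (1 + X : ℤ[X]) ^ ((lv P m).card - 1) ∣ ZB m (R3 m N b θ) g 0 n := by
  classical
  have h3 := (W.farK k0).clean g hg0 (fun z hz => ?_) n hn
  · refine dvd_trans (pow_dvd_pow _ ?_) h3
    have := W.sum_bK k0
    omega
  · obtain ⟨x, hx, hzx, hh⟩ := hcan_spec (θ := tK m N b θ k0) hz
    rw [hh, W.tK_eq]
    have hzR := bd_mem hz
    split_ifs with h4
    · have := h1 z hzR x hx hzx h4
      omega
    · have := h2 z hzR x hx hzx h4
      omega

end Pool.Agent.GaussPoset.Fi

end

/-! From `Pool.Agent.W_448s8f_h94.DgB` -/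

section

/-!
No join of two fold ends, `m` odd, `m ≥ 9`, window `m` (MP_448cb3_co, S8, small `m`): the
elements of level `2 m + 1`.
-/

namespace Pool.Agent.GaussPoset.Fi

set_option linter.unusedSectionVars false

open Polynomial Finset

universe u

variable {P : Type u} [Fintype P] [PartialOrder P] [DecidableEq P] {r m K : ℕ}
  {N : Tops P → Finset P} {b : Tops P → ℕ} {θ : Tops P → P → ℕ}

/-- the cost of a fold end -/
lemma fold_vs (m : ℕ) : vsQ m m 2 (fun d => 1 + pF m d) = NF m 2 := by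
  unfold vsQ NF
  rw [show 2 * m - m + 1 = m + 1 by omega]
  refine Finset.sum_congr rfl fun u hu => ?_
  rw [mem_range] at hu
  congr 1
  unfold pF nF
  show 1 + ((2 * m - (2 * m - (m + u))) / 2 - (m - (2 * m - (m + u)))) = (m + u) / 2 + 1 - u
  omega

/-- the hypotheses -/
structure D1H (m : ℕ) (N : Tops P → Finset P) (θ : Tops P → P → ℕ) : Prop where
  odd : m % 2 = 1
  nine : 9 ≤ m
  hF : ∀ z x, lev z = 2 * m + 1 → z ∈ r2 (2 * m) N → Fd m x → z ⋖ x →
    ∃ x', Fd m x' ∧ topOf x ≠ topOf x' ∧ z ⋖ x'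
  hQ : ∀ z x, lev z = 2 * m + 1 → He m m N θ x → ¬ z ⋖ x
  S7 : S7F P m

variable {z x x' : P}

/-- the elements of level `2 m + 1` of `R3` -/
inductive L1 (m : ℕ) (N : Tops P → Finset P) (b : Tops P → ℕ) (θ : Tops P → P → ℕ) (z : P) : Prop
  | tw (h : z ∈ twY (2 * m) N) (hs : StT m N b θ (topOf z))
  | ff (x x' : P) (hx : Fd m x) (hx' : Fd m x') (ht : topOf x ≠ topOf x')
      (hzx : z ⋖ x) (hzx' : z ⋖ x')
  | full (h : ∀ x, z ⋖ x → Full m m N θ x)

lemma D1H.l1 (D : D1H m N θ) (W : WC r m m K N b θ) (hz : z ∈ R3 m N b θ)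
    (hl : lev z = 2 * m + 1) : L1 m N b θ z := by
  have H := W.gt.H
  have hm := D.nine
  rw [mem_sdiff] at hz
  by_cases hY : z ∈ twY (2 * m) N
  · refine L1.tw hY ?_
    by_contra hs
    exact hz.2 (mem_twR.mpr ⟨hY, hs⟩)
  · have hz2 : z ∈ r2 (2 * m) N := mem_sdiff.mpr ⟨hz.1, hY⟩
    rcases W.class D.S7 hz2 hl with ⟨x, hx, hp⟩ | ⟨x, hx, hp⟩ | ⟨x, x', hx, h1, ht, hzx, hzx'⟩ |
      ⟨x, x', hx, h1, ht, hne, hzx, hzx'⟩ | h
    · exfalso
      obtain ⟨x', -, ht, hzx'⟩ := D.hF z x hl hz2 hx hp.1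
      rw [hp.2 x' hzx'] at ht
      exact ht rfl
    · exact (D.hQ z x hl hx hp.1).elim
    · obtain ⟨y, hy, hty, hzy⟩ := D.hF z x hl hz2 hx hzx
      have hne : x ≠ x' := fun h => ht (by rw [h])
      rcases uc_pair H hzx hzx' hne hzy with h | h
      · rw [h] at hty
        exact absurd rfl hty
      · rw [h] at hy
        exact L1.ff x x' hx hy ht hzx hzx'
    · exfalso
      obtain ⟨y, hy, hty, hzy⟩ := D.hF z x hl hz2 hx hzx
      rcases uc_pair H hzx hzx' hne hzy with h | h
      · rw [h] at hty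
        exact hty rfl
      · rw [h, ht] at hty
        exact hty rfl
    · exact L1.full h

/-- the fold ends in the chosen chart -/
lemma D1H.fold (D : D1H m N θ) (W : WC r m m K N b θ) (hx : Fd m x) :
    ∃ Nc co, InS2 m N b θ x Nc co ∧ co x = (m, m) := by
  have hm := D.nine
  have hodd := D.odd
  have hl := hx.1
  have hth := W.fold_th hx
  have h5 := W.fold_prof hx 1 (by omega)
  have h6 : pF m 1 = 0 := by
    unfold pF
    omega
  rw [h6] at h5
  rcases W.k2 (W.wi.low hl.le) with ⟨h, -⟩ | ⟨Nc, co, hs, h⟩ | ⟨Nc, co, hs, h⟩ | ⟨-, h⟩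
  · have := h.th
    omega
  · refine ⟨Nc, co, h, ?_⟩
    have h2 := h.ins.stair.chart.lev x h.ins.mem
    have h3 : (co x).1 ≤ (co x).2 := h.ins.stair.chart.mem x h.ins.mem
    have h7 := h.ins.fst
    rw [nab_chart h.ins.stair.chart h.ins.mem] at h5
    have h4 := card_cellsAt_shift (l := 2 * m - 1) (p := co x) h3 (by omega)
    exact Prod.ext (by simp only; omega) (by simp only; omega)
  · exfalso
    have := rect_two h.rect.chart h.mem h.fst h.snd (k := 2 * m - 1) (by omega) (by omega)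
    omega
  · have := (h hl).th
    omega

lemma WC.fold_th1 (W : WC r m m K N b θ) (hodd : m % 2 = 1) (hx : Fd m x) :
    θ (topOf x) x = 1 := by
  have h1 := W.fold_th hx
  omega

lemma WC.fold_ct (W : WC r m m K N b θ) (hx : Fd m x) : ct m 2 x = NF m 2 := by
  rw [ct_midI (m := m) (q := fun d => 1 + pF m d) (by omega) hx.1
    (fun d hd => W.fold_prof hx d (by omega)), fold_vs]

/-- the covers of level `2 m` -/
lemma D1H.cov (D : D1H m N θ) (W : WC r m m K N b θ) (hz : z ∈ R3 m N b θ)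
    (hl : lev z = 2 * m + 1) (hzx : z ⋖ x) : (Full m m N θ x ∧
      thP m N b θ (topOf x) x = lev x - m) ∨ ∃ Nc co, InS2 m N b θ x Nc co := by
  have H := W.gt.H
  have W' := W.wi
  have HN := W'.natSys
  have hm := D.nine
  have hlx : lev x = 2 * m := by
    have := (H.covBy_iff.mp hzx).2
    omega
  rcases W.k2 (W'.low hlx.le) with ⟨h, h'⟩ | ⟨Nc, co, hs, h⟩ | ⟨Nc, co, hs, h⟩ | ⟨-, h⟩
  · exact Or.inl ⟨h, h'⟩
  · exact Or.inr ⟨Nc, co, h⟩
  · exfalso
    rcases D.l1 W hz hl with ⟨hY, hs'⟩ | ⟨x1, x2, hx1, hx2, ht, hzx1, hzx2⟩ | h1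
    · have h1 := twT_spec (mem_twY.mp hY).2.2
      have h2 : twT N z ⋖ x := (cov_of_up h1.2).mpr hzx
      have h3 := HN.cp _ _ h2.le h1.1
      have h4 := W'.twSys.cp z hY
      rw [← h3, h4] at hs
      exact hs hs'
    · have hne : x1 ≠ x2 := fun h => ht (by rw [h])
      have hfold : Fd m x := by
        rcases uc_pair H hzx1 hzx2 hne hzx with h | h
        · rw [h]; exact hx1
        · rw [h]; exact hx2
      obtain ⟨Nc', co', h', -⟩ := D.fold W hfold
      exact hs ⟨_, h'.sc⟩
    · have h2 := (h1 x hzx).th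
      have h3 := h.th
      have h4 := h.fst
      have h5 := h.snd
      have h6 := h.rect.chart.lev x h.mem
      omega
  · exact (D.hQ z x hl (h hlx) hzx).elim

/-- two elements above on the levels `m + 1, ..., 2 m` -/
lemma D1H.two (D : D1H m N θ) (W : WC r m m K N b θ) (hz : z ∈ R3 m N b θ) {k : ℕ} (hk : m < k)
    (hk2 : k ≤ 2 * m) : 2 ≤ nab k z := by
  have H := W.gt.H
  have W' := W.wi
  have HN := W'.natSys
  have hm := D.nine
  have hzU := (mem_sdiff.mp hz).1
  have hlz := W'.lt_lev hzU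
  obtain ⟨w, hzw, hlw⟩ := exists_above' (x := z) (j := 2 * m + 1) (by omega)
  have hmono := nab_mono (l := k) hzw
  have htw : ∀ {y : P}, y ∈ twY (2 * m) N → y = w → 2 ≤ nab k (twT N y) → 2 ≤ nab k z := by
    intro y hy hyw h
    subst hyw
    have h1 := twT_spec (mem_twY.mp hy).2.2
    have h2 := W'.twSys.lev hy
    have h3 := nab_le_of_up h1.2 (k := k) (by omega)
    omega
  by_cases hwR : w ∈ R3 m N b θ
  · rcases D.l1 W hwR hlw with ⟨hY, hs⟩ | ⟨x1, x2, hx1, hx2, ht, hzx1, hzx2⟩ | h1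
    · obtain ⟨Nc, co, h⟩ := W.twS_stair hY hs
      refine htw hY rfl ?_
      have h2 := W'.twSys.lev hY
      exact stair_two h.ins.stair.chart h.ins.mem h.ins.fst (by omega) hk hk2
    · have h2 := W'.nab_joinI hlw hzx1 hzx2 ht hk2
      have h3 := hx1.1
      have h4 := hx2.1
      have h5 := one_le_nab (z := x1) (l := k) (by omega)
      have h6 := one_le_nab (z := x2) (l := k) (by omega)
      omega
    · have hne : w < (topOf w : P) := lt_of_le_of_ne (le_topOf w) (by
        intro h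
        have := (topOf w).2
        rw [← h] at this
        omega)
      obtain ⟨x, hwx, -⟩ := Hul.exists_cov hne
      have h2 := (H.covBy_iff.mp hwx).2
      have h3 := (h1 x hwx).two w (mem_sdiff.mp hwR).1 hwx.le k (by omega) (by omega)
      omega
  · by_cases hwU : w ∈ unnat N
    · have hY : w ∈ twR m N b θ := by
        by_contra hcon
        exact hwR (mem_sdiff.mpr ⟨hwU, hcon⟩)
      obtain ⟨Nc, co, h⟩ := W.twR_rect hY
      have h2 := W'.twSys.lev (mem_twR.mp hY).1
      refine htw (mem_twR.mp hY).1 rfl ?_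
      exact rect_two h.rect.chart h.mem h.fst h.snd (by omega) (by omega)
    · rcases W.k2 hwU with ⟨h, -⟩ | ⟨Nc, co, hs, h⟩ | ⟨Nc, co, hs, h⟩ | ⟨h, -⟩
      · exact h.two z hzU hzw k (by omega) (by omega)
      · have := stair_two h.ins.stair.chart h.ins.mem h.ins.fst hlw hk hk2
        omega
      · have := rect_two h.rect.chart h.mem h.fst h.snd (k := k) (by omega) (by omega)
        omega
      · omega

end Pool.Agent.GaussPoset.Fi

end

/-! From `Pool.Agent.W_448s8f_h94.DgC` -/

section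

/-!
No join of two fold ends, `m` odd, `m ≥ 9`, window `m` (MP_448cb3_co, S8, small `m`): the bounds,
the theorem.
-/

namespace Pool.Agent.GaussPoset.Fi

set_option linter.unusedSectionVars false

open Polynomial Finset

universe u

variable {P : Type u} [Fintype P] [PartialOrder P] [DecidableEq P] {r m K : ℕ}
  {N : Tops P → Finset P} {b : Tops P → ℕ} {θ : Tops P → P → ℕ}

/-- the second threshold -/
lemma kap1_chartS' {t : P} {Nc : Finset P} {co : P → ℕ × ℕ} {k : ℕ} {x : P} {q : ℕ} (hq : 4 ≤ q)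
    (C : Chart t (fun c => c.1 ≤ c.2) Nc co) (hx : x ∈ Nc)
    (h1 : 1 ≤ (co x).1) (hl : 2 * (2 * q + 1) + 1 ≤ lev x)
    (hk : ((co x).1 - (2 * q - 2)) + ((co x).2 - (2 * q + 1)) ≤ k) :
    4 * q * q + 6 * q + 5 ≤ ct (2 * q + 1) k x := by
  have hlx := C.lev x hx
  have h3 : (co x).1 ≤ (co x).2 := C.mem x hx
  obtain ⟨s, c, hs, hsm, hsc, hs1, hc1⟩ : ∃ s c, 1 ≤ s ∧ s ≤ 2 * q + 1 ∧
      s + c = 2 * (2 * q + 1) + 1 ∧ s ≤ (co x).1 ∧ c ≤ (co x).2 := by
    by_cases h4 : (co x).1 ≤ 2 * q + 1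
    · exact ⟨(co x).1, 2 * (2 * q + 1) + 1 - (co x).1, h1, h4, by omega, le_rfl, by omega⟩
    · exact ⟨2 * q + 1, 2 * q + 1 + 1, by omega, le_rfl, by omega, by omega, by omega⟩
  obtain ⟨u, hu, hcu⟩ := C.low x hx (s, c) ⟨hs1, hc1⟩ (show s ≤ c by omega)
  have hxu : x ≤ u := by
    rw [C.le_iff x hx u hu, hcu]
    exact ⟨hs1, hc1⟩
  have hlu : lev u = 2 * (2 * q + 1) + 1 := by
    rw [C.lev u hu, hcu]
    exact hsc
  have h5 := stair1' hq hs hsm hsc rfl
  have h6 := ct_chart C (shift := true) (by simp) hu (2 * q + 1)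
    ((s - (2 * q - 2)) + (c - (2 * q + 1)))
  rw [hcu, hlu] at h6
  simp only at h6
  rw [← h6] at h5
  exact h5.trans (ct_mono (i := 2 * q + 1) hxu (by omega))

section Main

variable {z z' x x' : P}

lemma tA_not (hx : x ∉ unnat N) : tA m N b θ x = θ (topOf x) x := by
  unfold tA
  rw [thX_not fun h => hx ((mem_twY.mp (mem_twR.mp h).1).1)]

lemma tB_not (hx : x ∉ unnat N) : tB m N b θ x = thP m N b θ (topOf x) x := by
  unfold tB
  rw [thX_not fun h => hx ((mem_twY.mp (mem_twR.mp h).1).1)]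

/-- elements of level at least `2 m + 1` outside of `R3` -/
lemma D1H.high (D : D1H m N θ) (W : WC r m m K N b θ) (hx : x ∉ R3 m N b θ)
    (hl : 2 * m + 1 ≤ lev x) :
    (Full m m N θ x ∧ tA m N b θ x = lev x - m ∧ tB m N b θ x = lev x - m) ∨
    (Kb m ≤ ct m (tA m N b θ x + 1) x + (m + 1) ∧
      Kb m ≤ ct m (tA m N b θ x + 1) x + (tA m N b θ x + 1) ∧
      2 * NF m 2 + 2 < ct m (tB m N b θ x + 1) x + (tB m N b θ x + 1) ∧
      tA m N b θ x ≤ lev x - m ∧ tB m N b θ x ≤ lev x - m) := by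
  have hm := D.nine
  have W' := W.wi
  have hodd := D.odd
  have hKb := Kb_le_sq m (by omega)
  have hNF : 2 * NF m 2 + 2 < (m + 1) * (m + 1) + 2 := by
    obtain ⟨q, hq⟩ : ∃ q, m = 2 * q + 1 := ⟨m / 2, by omega⟩
    rw [hq, NF_odd]
    nlinarith
  by_cases hU : x ∈ unnat N
  · right
    have hY : x ∈ twR m N b θ := by
      by_contra hcon
      exact hx (mem_sdiff.mpr ⟨hU, hcon⟩)
    obtain ⟨Nc, co, h⟩ := W.twR_rect hY
    have h0 := (mem_twR.mp hY).1
    have h1 := W'.twSys.lev h0
    obtain ⟨h3, h4⟩ := W'.tw_th h0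
    have h5 := W.twR_kap hY
    have h6 := kap_chart' (m := m) (k := θ (topOf (twT N x)) (twT N x) + 1) (by omega)
      h.rect.chart h.mem h.fst h.snd (by omega) (by rw [h.th])
    have h7 := ct_congr_up (i := m) (k := θ (topOf (twT N x)) (twT N x) + 1)
      (fun w => W'.twSys.up x h0 w)
    rw [h7] at h5 h6
    rw [W.tB_twR hY, tA_twR hY]
    exact ⟨by omega, by omega, by omega, by omega, by omega⟩
  · rw [tA_not hU, tB_not hU]
    rcases W.k2 hU with ⟨h, h'⟩ | ⟨Nc, co, hs, h⟩ | ⟨Nc, co, hs, h⟩ | ⟨h, -⟩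
    · exact Or.inl ⟨h, h.th, h'⟩
    · right
      have e1 := h.ins.stair.chart.lev x h.ins.mem
      have e2 : (co x).1 ≤ (co x).2 := h.ins.stair.chart.mem x h.ins.mem
      have e3 := h.ins.th
      have e4 := h.thP
      refine ⟨?_, ?_, ?_, ?_, ?_⟩
      · exact kap_chartS' (by omega) h.ins.stair.chart h.ins.mem h.ins.fst hl (by rw [e3])
      · exact Pool.Agent.GaussPoset.kap_chartS (by omega) h.ins.stair.chart h.ins.mem h.ins.fst hl
          (by rw [e3])
      · have h5 : 2 * NF m 2 + 2 < ct m (thP m N b θ (topOf x) x + 1) x := by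
          obtain ⟨q, hq⟩ : ∃ q, m = 2 * q + 1 := ⟨m / 2, by omega⟩
          subst hq
          have h6 := kap1_chartS' (k := thP (2 * q + 1) N b θ (topOf x) x + 1) (q := q) (by omega)
            h.ins.stair.chart h.ins.mem h.ins.fst hl (by omega)
          rw [NF_odd]
          nlinarith
        omega
      · omega
      · omega
    · right
      have e1 := h.rect.chart.lev x h.mem
      have e3 := h.th
      rw [thP_not hs]
      have h5 := Pool.Agent.GaussPoset.kap_chart (m := m) (k := θ (topOf x) x + 1) (by omega)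
        h.rect.chart h.mem h.fst h.snd hl (by rw [e3])
      have h6 := kap_chart' (m := m) (k := θ (topOf x) x + 1) (by omega) h.rect.chart h.mem h.fst
        h.snd hl (by rw [e3])
      exact ⟨by omega, by omega, by omega, by omega, by omega⟩
    · omega

/-- the label at an element of level `2 m + 1`, second threshold -/
lemma D1H.second (D : D1H m N θ) (W : WC r m m K N b θ) (hz : z ∈ R3 m N b θ)
    (hl : lev z = 2 * m + 1) (hzx : z ⋖ x) : 2 * NF m 2 + 2 < ct m (tB m N b θ x + 1) z := by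
  have H := W.gt.H
  have W' := W.wi
  have HN := W'.natSys
  have hm := D.nine
  have hodd := D.odd
  have hlx : lev x = 2 * m := by
    have := (H.covBy_iff.mp hzx).2
    omega
  have hU := W'.low hlx.le
  rw [tB_not hU]
  rcases D.l1 W hz hl with ⟨hY, hs⟩ | ⟨x1, x2, hx1, hx2, ht, hzx1, hzx2⟩ | h1
  · obtain ⟨Nc, co, h⟩ := W.twS_stair hY hs
    have h1 := twT_spec (mem_twY.mp hY).2.2
    have h2 : twT N z ⋖ x := (cov_of_up h1.2).mpr hzx
    have h3 : topOf (twT N z) = topOf x := HN.cp _ _ h2.le h1.1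
    have C := h.ins.stair.chart
    have hxN : x ∈ Nc := C.up _ h.ins.mem x h2.le
    have h4 := (chart_cov C H h.ins.mem hxN).mp h2
    have h5 := h.eq
    rw [h3] at h5
    have e1 := C.lev x hxN
    have e2 := C.lev _ h.ins.mem
    have e3 : (co x).1 ≤ (co x).2 := C.mem x hxN
    have e4 : (co (twT N z)).1 ≤ (co (twT N z)).2 := C.mem _ h.ins.mem
    have e5 := h.ins.fst
    have e6 := W'.twSys.lev hY
    have h6 : ((co (twT N z)).1 - (2 * (m / 2) - 2)) + ((co (twT N z)).2 - m) ≤
        thP m N b θ (topOf x) x + 1 := by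
      rw [h5]
      unfold thSg
      split_ifs with hJ
      · omega
      · rcases h4 with h4 | h4
        · omega
        · omega
    have h7 := ct_congr_up (i := m) (k := thP m N b θ (topOf x) x + 1) h1.2
    rw [← h7]
    obtain ⟨q, hq⟩ : ∃ q, m = 2 * q + 1 := ⟨m / 2, by omega⟩
    subst hq
    have h8 := kap1_chartS' (k := thP (2 * q + 1) N b θ (topOf x) x + 1) (q := q) (by omega)
      C h.ins.mem h.ins.fst (by omega) (by omega)
    rw [NF_odd]
    nlinarith
  · have hne : x1 ≠ x2 := fun h => ht (by rw [h])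
    have hfold : Fd m x := by
      rcases uc_pair H hzx1 hzx2 hne hzx with h | h
      · rw [h]; exact hx1
      · rw [h]; exact hx2
    obtain ⟨Nc, co, h, hc⟩ := D.fold W hfold
    have h2 : thP m N b θ (topOf x) x = 3 := by
      rw [h.thP, hc]
      simp only
      omega
    have hd : ∀ w, x1 ≤ w → ¬ x2 ≤ w := by
      intro w e1 e2
      have f1 := HN.cp x1 w e1 (W'.low hx1.1.le)
      have f2 := HN.cp x2 w e2 (W'.low hx2.1.le)
      exact ht (f1.trans f2.symm)
    have h5 := ct_two (i := m) (k := 3 + 1) hzx1.1 hzx2.1 hd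
    rw [Nat.min_eq_left (by omega)] at h5
    have h6 := ct_mono (i := m) (le_refl x1) (show 2 ≤ 3 + 1 by omega)
    have h7 := ct_mono (i := m) (le_refl x2) (show 2 ≤ 3 + 1 by omega)
    rw [W.fold_ct hx1] at h6
    rw [W.fold_ct hx2] at h7
    rw [h2]
    omega
  · have h2 := h1 x hzx
    have h3 : thP m N b θ (topOf x) x = m := by
      rcases D.cov W hz hl hzx with ⟨-, h⟩ | ⟨Nc, co, h⟩
      · rw [h, hlx]
        omega
      · exfalso
        have e1 := h.ins.stair.chart.lev x h.ins.mem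
        have e2 : (co x).1 ≤ (co x).2 := h.ins.stair.chart.mem x h.ins.mem
        have e3 := h.ins.th
        have e4 := h2.th
        have e5 := h.ins.fst
        omega
    rw [h3]
    have h4 := ct_sq (k := m + 1) le_rfl hl.ge (fun l h1 h2 => D.two W hz h1 h2)
    obtain ⟨q, hq⟩ : ∃ q, m = 2 * q + 1 := ⟨m / 2, by omega⟩
    subst hq
    rw [NF_odd]
    nlinarith

/-- the cost on one side -/
lemma D1H.kapA (D : D1H m N θ) (W : WC r m m K N b θ) (hz : z ∈ R3 m N b θ)
    (hx : x ∉ R3 m N b θ) (hzx : z ⋖ x) : tA m N b θ x + 1 ≤ lev z - m ∧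
      NF m 2 + 2 ≤ (tA m N b θ x + 1) + ct m (tA m N b θ x + 1) x := by
  have H := W.gt.H
  have W' := W.wi
  have hm := D.nine
  have hodd := D.odd
  have hlz := W'.lt_lev (mem_sdiff.mp hz).1
  have hlx := (H.covBy_iff.mp hzx).2
  obtain ⟨q, hq⟩ : ∃ q, m = 2 * q + 1 := ⟨m / 2, by omega⟩
  by_cases hl : lev z = 2 * m + 1
  · have hlx' : lev x = 2 * m := by omega
    have hU := W'.low hlx'.le
    rw [tA_not hU]
    rcases D.cov W hz hl hzx with ⟨h, -⟩ | ⟨Nc, co, h⟩
    · rw [h.th, hlx']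
      refine ⟨by omega, ?_⟩
      have h2 := ct_one (i := m) (j := m) (k := 2 * m - m + 1) (x := x) (by omega) (by omega)
      rw [show 2 * m - m = m by omega] at h2 ⊢
      subst hq
      rw [NF_odd]
      nlinarith
    · have e1 := h.ins.stair.chart.lev x h.ins.mem
      have e2 : (co x).1 ≤ (co x).2 := h.ins.stair.chart.mem x h.ins.mem
      have e3 := h.ins.th
      have e5 := h.ins.fst
      by_cases hf : (co x).1 = m
      · have hfold : Fd m x := by
          refine ⟨hlx', ?_, ?_⟩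
          · rw [Wd.uc_card_nab H (by omega), nab_chart h.ins.stair.chart h.ins.mem]
            have := card_cellsAt_shift (l := lev x - 1) (p := co x) e2 (by omega)
            omega
          · rw [nab_chart h.ins.stair.chart h.ins.mem]
            have := card_cellsAt_shift (l := 2) (p := co x) e2 (by omega)
            omega
        rw [W.fold_th1 hodd hfold, W.fold_ct hfold]
        omega
      · refine ⟨by omega, ?_⟩
        subst hq
        have h2 := stair3' (q := q) (s := (co x).1) (c := (co x).2) (by omega) e5 (by omega)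
          (by omega) rfl
        have h3 := ct_chart h.ins.stair.chart (shift := true) (by simp) h.ins.mem (2 * q + 1)
          ((co x).2 - (2 * q + 1) + 1)
        rw [hlx'] at h3
        rw [← h3] at h2
        have h4 : θ (topOf x) x = (co x).2 - (2 * q + 1) := by omega
        rw [h4, NF_odd]
        exact h2
  · rcases D.high W hx (by omega) with ⟨h1, h2, h3⟩ | ⟨h1, h2, h3, h4, h5⟩
    · rw [h2]
      refine ⟨by omega, ?_⟩
      have h6 := ct_one (i := m) (j := m + 1) (k := lev x - m + 1) (x := x) (by omega) (by omega)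
      subst hq
      rw [NF_odd]
      nlinarith
    · refine ⟨by omega, ?_⟩
      have h6 : NF m 2 + 2 ≤ Kb m := by
        subst hq
        rw [NF_odd, Kb_odd]
        nlinarith
      omega

/-- disjointness -/
lemma WC.disj (W : WC r m m K N b θ) (hx : x ∉ R3 m N b θ) (hx' : x' ∉ R3 m N b θ)
    (ht : topOf x ≠ topOf x') : ∀ w, x ≤ w → ¬ x' ≤ w := by
  intro w h1 h2
  have h3 := W.twR_sys.cp' W.wi.natSys.cp x w h1 hx
  have h4 := W.twR_sys.cp' W.wi.natSys.cp x' w h2 hx'
  exact ht (h3.trans h4.symm)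

open Classical in
/-- the joins of two fold ends -/
noncomputable def TF (m : ℕ) (N : Tops P → Finset P) (b : Tops P → ℕ) (θ : Tops P → P → ℕ) :
    Finset P := (R3 m N b θ).filter (fun z => lev z = 2 * m + 1 ∧ ∃ x x', Fd m x ∧
      Fd m x' ∧ topOf x ≠ topOf x' ∧ z ⋖ x ∧ z ⋖ x')

lemma mem_TF : z ∈ TF m N b θ ↔ z ∈ R3 m N b θ ∧ lev z = 2 * m + 1 ∧ ∃ x x', Fd m x ∧
    Fd m x' ∧ topOf x ≠ topOf x' ∧ z ⋖ x ∧ z ⋖ x' := by
  classical
  unfold TF
  rw [mem_filter]

lemma WC.tf_nab (W : WC r m m K N b θ) (hz : z ∈ TF m N b θ) (d : ℕ) (hd : d ≤ 2 * m) :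
    nab (2 * m - d) z = (1 + pF m d) + (1 + pF m d) := by
  obtain ⟨-, hl, x, x', hx, hx', ht, hzx, hzx'⟩ := mem_TF.mp hz
  rw [W.wi.nab_joinI hl hzx hzx' ht (by omega), W.fold_prof hx d hd, W.fold_prof hx' d hd]

lemma WC.tf_ct (W : WC r m m K N b θ) (hm : 9 ≤ m) (hz : z ∈ TF m N b θ) :
    ct m 2 z = 2 * NF m 2 + 2 := by
  have hl := (mem_TF.mp hz).2.1
  rw [ct_topI (m := m) (q := fun d => (1 + pF m d) + (1 + pF m d)) (by omega) hl (by omega)
    (fun d hd => W.tf_nab hz d (by omega)),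
    vsQ_add m m 2 (fun d => 1 + pF m d) (fun d => 1 + pF m d), fold_vs]
  ring

/-- the main estimate -/
theorem D1H.lead (D : D1H m N θ) (W : WC r m m K N b θ) :
    (1 + X : ℤ[X]) ^ ((lv P m).card - 1) ∣ Z P m (2 * NF m 2 + 2) -
      ∑ z ∈ (TF m N b θ).filter (fun z => cst m (fun _ => 2) z = 2 * NF m 2 + 2),
        Lt m (fun _ => 2) z := by
  classical
  have H := W.gt.H
  have W' := W.wi
  have HN := W'.natSys
  have hm := D.nine
  have hodd := D.odd
  have hlow := W.twR_sys.lower HN.lower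
  have hNF : 2 * NF m 2 + 2 < (m + 1) * (m + 1) := by
    obtain ⟨q, hq⟩ : ∃ q, m = 2 * q + 1 := ⟨m / 2, by omega⟩
    rw [hq, NF_odd]
    nlinarith
  have hlevR : ∀ z ∈ R3 m N b θ, 2 * m < lev z := fun z hz => W'.lt_lev (mem_sdiff.mp hz).1
  have hcov : ∀ {z x : P}, z ⋖ x → lev z = lev x + 1 := fun h => (H.covBy_iff.mp h).2
  by_cases hne : Nonempty (Tops P)
  · refine far_two (R := R3 m N b θ) (cp := topOf) (θ := tA m N b θ) (θ' := tB m N b θ)
      (fun _ => 2) (TF m N b θ) H.gradedBelow ?_ ?_ ?_ ?_ ?_ ?_ ?_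
    · intro x hx
      have := hlevR x hx
      omega
    · exact fun g hg0 hg => clean_of_not_bad2
        (fun k0 g hg0 h1 h2 => W.clean2 (by omega) k0 g hg0 h1 h2) g hg0 hg
    · intro z hz
      have h1 := ct_sq (k := m + 1) le_rfl (hlevR z hz) (fun l h1 h2 => D.two W hz h1 h2)
      have h2 := ct_full_le m (m + 1) z
      omega
    · intro z hz x hx hzx
      by_cases hl : lev z = 2 * m + 1
      · exact D.second W hz hl hzx
      · have h0 := hlevR z hz
        have h00 := hcov hzx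
        rcases D.high W hx (by omega) with ⟨h1, h2, h3⟩ | ⟨h1, h2, h3, h4, h5⟩
        · have h6 := ct_sq (k := tB m N b θ x + 1) (by omega) (hlevR z hz)
            (fun l h1 h2 => D.two W hz h1 h2)
          omega
        · have h6 := ct_cov (i := m) (k := tB m N b θ x + 1) hzx.1
          rw [Nat.min_eq_left (by omega)] at h6
          omega
    · intro z hz z' hz' hne x hx hzx x' hx' hzx' ht
      obtain ⟨h1, h2⟩ := D.kapA W hz hx hzx
      obtain ⟨h3, h4⟩ := D.kapA W hz' hx' hzx'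
      have h5 := sum_max_ge (i := m) (k := tA m N b θ x + 1) (k' := tA m N b θ x' + 1) hzx.1
        hzx'.1 hne (W.disj hx hx' ht) (fun h => hx' (hlow _ _ h hz)) (fun h => hx (hlow _ _ h hz'))
      rw [Nat.min_eq_left h1, Nat.min_eq_left h3] at h5
      omega
    · intro z hz x hx hzx x' hx' hzx' ht
      have h0 := hlevR z hz
      have h00 := hcov hzx
      have h01 := hcov hzx'
      by_cases hl : lev z = 2 * m + 1
      · have hU := W'.low (x := x) (by omega)
        have hU' := W'.low (x := x') (by omega)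
        have hnn : x ≠ x' := fun h => ht (by rw [h])
        rcases D.l1 W hz hl with ⟨hY, hs⟩ | ⟨x1, x2, hx1, hx2, ht', hzx1, hzx2⟩ | h1
        · exfalso
          have h1 := twT_spec (mem_twY.mp hY).2.2
          have h2 : twT N z ⋖ x := (cov_of_up h1.2).mpr hzx
          have h3 : twT N z ⋖ x' := (cov_of_up h1.2).mpr hzx'
          have h4 := HN.cp _ _ h2.le h1.1
          have h5 := HN.cp _ _ h3.le h1.1
          exact ht (h4.symm.trans h5)
        · left
          have hTF : z ∈ TF m N b θ := mem_TF.mpr ⟨hz, hl, x1, x2, hx1, hx2, ht', hzx1, hzx2⟩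
          have hne' : x1 ≠ x2 := fun h => ht' (by rw [h])
          have hf : ∀ {y : P}, z ⋖ y → Fd m y := by
            intro y hy
            rcases uc_pair H hzx1 hzx2 hne' hy with h | h
            · rw [h]; exact hx1
            · rw [h]; exact hx2
          refine ⟨hTF, ?_, ?_⟩
          · rw [tA_not hU, tA_not hU', W.fold_th1 hodd (hf hzx), W.fold_th1 hodd (hf hzx')]
            rfl
          · have := W.tf_ct hm hTF
            exact this.ge
        · right
          rw [tA_not hU, tA_not hU', (h1 x hzx).th, (h1 x' hzx').th]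
          have h6 := ct_sq (k := max (lev x - m) (lev x' - m) + 1) (by omega) (hlevR z hz)
            (fun l h1 h2 => D.two W hz h1 h2)
          omega
      · right
        have hK : 2 * NF m 2 + 2 + 2 * (m + 1) < 2 * Kb m := by
          obtain ⟨q, hq⟩ : ∃ q, m = 2 * q + 1 := ⟨m / 2, by omega⟩
          rw [hq, NF_odd, Kb_odd]
          nlinarith
        have hK2 : 2 * (2 * NF m 2 + 2) + 2 * (m + 1) <
            2 * Kb m + (m + 1) * (m + 1 + 1) + 2 * (m + 2) := by
          obtain ⟨q, hq⟩ : ∃ q, m = 2 * q + 1 := ⟨m / 2, by omega⟩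
          rw [hq, NF_odd, Kb_odd]
          nlinarith
        have hd := W.disj hx hx' ht
        have hsum := ct_two (i := m) (k := max (tA m N b θ x) (tA m N b θ x') + 1) hzx.1 hzx'.1 hd
        have hm1 := ct_mono (i := m) (le_refl x)
          (show tA m N b θ x + 1 ≤ max (tA m N b θ x) (tA m N b θ x') + 1 by omega)
        have hm2 := ct_mono (i := m) (le_refl x')
          (show tA m N b θ x' + 1 ≤ max (tA m N b θ x) (tA m N b θ x') + 1 by omega)
        rcases D.high W hx (by omega) with ⟨h1, h2, h3⟩ | ⟨h1, h2, h3, h4, h5⟩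
        · have h7 := ct_one (i := m) (j := m + 1) (k := max (tA m N b θ x) (tA m N b θ x') + 1)
            (x := x) (by omega) (by omega)
          rcases D.high W hx' (by omega) with ⟨g1, g2, g3⟩ | ⟨g1, g2, g3, g4, g5⟩
          · have h6 := ct_sq (k := max (tA m N b θ x) (tA m N b θ x') + 1) (by omega)
              (hlevR z hz) (fun l h1 h2 => D.two W hz h1 h2)
            omega
          · have h8 : m + 2 ≤ min (max (tA m N b θ x) (tA m N b θ x') + 1) (lev z - m) := by
              rw [Nat.le_min]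
              omega
            omega
        · rcases D.high W hx' (by omega) with ⟨g1, g2, g3⟩ | ⟨g1, g2, g3, g4, g5⟩
          · have h7 := ct_one (i := m) (j := m + 1)
              (k := max (tA m N b θ x) (tA m N b θ x') + 1) (x := x') (by omega) (by omega)
            have h8 : m + 2 ≤ min (max (tA m N b θ x) (tA m N b θ x') + 1) (lev z - m) := by
              rw [Nat.le_min]
              omega
            omega
          · omega
    · intro z hz
      obtain ⟨h1, hl, x, x', hx, hx', ht, hzx, hzx'⟩ := mem_TF.mp hz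
      have hU := W'.low (x := x) hx.1.le
      have hU' := W'.low (x := x') hx'.1.le
      refine ⟨h1, by omega, x, fun h => hU (mem_sdiff.mp h).1, hzx, x',
        fun h => hU' (mem_sdiff.mp h).1, hzx', ht, ?_⟩
      rw [tA_not hU, tA_not hU', W.fold_th1 hodd hx, W.fold_th1 hodd hx']
      rfl
  · -- no tops: `P` is empty
    have hE : ∀ x : P, False := fun x => hne ⟨topOf x⟩
    have h1 : (lv P m).card = 0 := by
      rw [Finset.card_eq_zero]
      exact Finset.eq_empty_of_forall_notMem fun x _ => hE x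
    rw [h1]
    exact one_dvd _

end Main

/-- `m` odd, `m ≥ 9`: no join of two fold ends -/
theorem WC.no_ff_odd (W : WC r m m K N b θ) (hodd : m % 2 = 1) (h9 : 9 ≤ m)
    (hF : ∀ z x : P, lev z = 2 * m + 1 → z ∈ r2 (2 * m) N → Fd m x → z ⋖ x →
      ∃ x' : P, Fd m x' ∧ topOf x ≠ topOf x' ∧ z ⋖ x')
    (hQ : ∀ z x : P, lev z = 2 * m + 1 → He m m N θ x → ¬ z ⋖ x) (S7 : S7F P m) :
    ∀ z x x' : P, lev z = 2 * m + 1 → Fd m x → Fd m x' → topOf x ≠ topOf x' →
      z ⋖ x → z ⋖ x' → False := by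
  classical
  intro z x x' hl hx hx' ht hzx hzx'
  have H := W.gt.H
  have HN := W.wi.natSys
  have D : D1H m N θ := ⟨hodd, h9, hF, hQ, S7⟩
  have hzU : z ∈ unnat N := by
    by_contra h
    have h1 := HN.cp _ _ hzx.le h
    have h2 := HN.cp _ _ hzx'.le h
    exact ht (h1.symm.trans h2)
  have hzY : z ∉ twR m N b θ := by
    intro h
    have h1 := twT_spec (mem_twY.mp (mem_twR.mp h).1).2.2
    have h2 : twT N z ⋖ x := (cov_of_up h1.2).mpr hzx
    have h3 : twT N z ⋖ x' := (cov_of_up h1.2).mpr hzx'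
    have h4 := HN.cp _ _ h2.le h1.1
    have h5 := HN.cp _ _ h3.le h1.1
    exact ht (h4.symm.trans h5)
  have hzT : z ∈ TF m N b θ := mem_TF.mpr ⟨mem_sdiff.mpr ⟨hzU, hzY⟩, hl, x, x', hx, hx', ht, hzx,
    hzx'⟩
  have hdrop : ∀ y ∈ TF m N b θ, nab m y = nab (m + 2) y + 2 ∧
      ∃ c, nst m (fun _ => 2) y = 2 * c := by
    intro y hy
    have e0 := W.tf_nab hy m (by omega)
    have e1 := W.tf_nab hy (m - 1) (by omega)
    have e2 := W.tf_nab hy (m - 2) (by omega)
    rw [show 2 * m - m = m by omega] at e0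
    rw [show 2 * m - (m - 1) = m + 1 by omega] at e1
    rw [show 2 * m - (m - 2) = m + 2 by omega] at e2
    refine ⟨?_, (1 + pF m m) + (1 + pF m (m - 1)), ?_⟩
    · rw [e0, e2]
      unfold pF
      omega
    · rw [nst_two (h := fun _ => 2) rfl, e0, e1]
      ring
  have hcard : nab m z ≤ (lv P m).card := by
    unfold nab
    exact Finset.card_filter_le _ _
  have hd0 := (hdrop z hzT).1
  have hlead := D.lead W
  have hZ := dvd_Z W.gt.H.gauss m (2 * NF m 2 + 2)
  have hZ' : (1 + X : ℤ[X]) ^ ((lv P m).card - 1) ∣ Z P m (2 * NF m 2 + 2) :=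
    dvd_trans (pow_dvd_pow _ (Nat.sub_le _ _)) hZ
  have hs := sign_sum_of_dvd (h := fun _ => 2) _ hZ' hlead (c0 := (lv P m).card - 2) (by omega) (by
    intro y hy
    have h1 := (hdrop y (mem_filter.mp hy).1).1
    omega)
  rw [Finset.sum_congr rfl (g := fun _ => (1 : ℤ))] at hs
  · rw [Finset.sum_const, nsmul_eq_mul, mul_one] at hs
    have h5 : ((TF m N b θ).filter (fun z => cst m (fun _ => 2) z = 2 * NF m 2 + 2)).filter
        (fun y => (lv P m).card - 2 + nab m y = (lv P m).card + nab (m + 2) y) = ∅ := by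
      rw [← Finset.card_eq_zero]
      exact_mod_cast hs
    have h6 : z ∈ ((TF m N b θ).filter (fun z => cst m (fun _ => 2) z = 2 * NF m 2 + 2)).filter
        (fun y => (lv P m).card - 2 + nab m y = (lv P m).card + nab (m + 2) y) := by
      rw [mem_filter, mem_filter]
      exact ⟨⟨hzT, W.tf_ct h9 hzT⟩, by omega⟩
    rw [h5] at h6
    exact Finset.notMem_empty _ h6
  · intro y hy
    obtain ⟨c, h1⟩ := (hdrop y (mem_filter.mp (mem_filter.mp hy).1).1).2
    rw [h1, pow_mul]
    norm_num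

end Pool.Agent.GaussPoset.Fi

end

/-! From `Pool.Agent.W_448cc6_h94.CyC` -/

section

/-!
The elements (C) at `m = 7`, window 6, label 3: families and the standalone kill
(MP_448cb3_co, input HCC at `m = 7`; after `FcP`, `FcQ` of helper67).
-/

namespace Pool.Agent.GaussPoset.Cy

set_option linter.unusedSectionVars false

open Polynomial Finset

universe u

variable {P : Type u} [Fintype P] [PartialOrder P] [DecidableEq P] {r : ℕ}
variable {t0 : Tops P} {Nc : Finset P} {co : P → ℕ × ℕ} {z F S : P}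
  {N : Tops P → Finset P}

/-- the cost with the label 3 -/
lemma cst_eq (C : CEl t0 Nc co 7 z F S) (hgr : GradedBelow P) :
    cst 6 (fun _ => 3) z = 71 := by
  have hz := C.lev_z hgr
  obtain ⟨h1, h2⟩ := C.nab_z
  have h3 : cst 6 (fun _ => 3) z = ct 6 3 z := rfl
  rw [h3, Fi.ct_topI (m := 7) (q := fun d => nab (14 - d) z) (by norm_num) hz (by norm_num)
    (fun d _ => rfl)]
  have e1 := h2 1 (by norm_num) (by norm_num)
  have e2 := h2 2 (by norm_num) (by norm_num)
  have e3 := h2 3 (by norm_num) (by norm_num)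
  have e4 := h2 4 (by norm_num) (by norm_num)
  have e5 := h2 5 (by norm_num) (by norm_num)
  have e6 := h2 6 (by norm_num) (by norm_num)
  have e7 := h2 7 (by norm_num) (by norm_num)
  unfold nF at h1 e1 e2 e3 e4 e5 e6 e7
  norm_num at h1 e1 e2 e3 e4 e5 e6 e7
  unfold Fi.vsQ
  simp only [Finset.sum_range_succ, Finset.sum_range_zero]
  norm_num [h1, e1, e2, e3, e4, e5, e6, e7]

/-- the same for the single element `z` -/
theorem pole_single (C : CEl t0 Nc co 7 z F S) (H : Gr P r) (HN : NatSys N) {b : Tops P → ℕ}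
    {n0 : ℕ} (HZ : ∀ t, ∀ n < n0, (1 + X : ℤ[X]) ^ b t ∣ Z {x : P // x ∈ N t} 6 n)
    (hlow : ∀ x ∈ unnat N, 2 * 7 < lev x) (hb : b t0 = 4) (hn0 : 75 < n0) :
    (∀ n < 75, (1 + X : ℤ[X]) ^ (∑ t, b t) ∣ ZD 6 z 3 n) ∧
    (1 + X : ℤ[X]) ^ (∑ t, b t) ∣ ZD 6 z 3 75 -
      X ^ (below P 6 + 10) * (1 + X) ^ ((lv P 6).card - 1) := by
  have hs : ∑ t, b t = 4 + ∑ t ∈ univ.erase t0, b t := by
    rw [← hb]
    exact (Finset.add_sum_erase univ b (mem_univ t0)).symm
  have e := cst_eq C H.gradedBelow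
  have key := pole C H HN HZ hlow (Sd := {z}) (mem_singleton_self z) (by
    intro x hx
    rw [mem_singleton.mp hx]
    exact C.z_only H.gradedBelow HN hlow) (by rw [e]; exact hn0)
  rw [sgs_single, ← hs, e] at key
  exact ⟨key.1, key.2.2 fun x hx => by rw [mem_singleton.mp hx]⟩

/-- two such elements are dangerous -/
theorem pole_pair (C : CEl t0 Nc co 7 z F S) (H : Gr P r) (HN : NatSys N) {b : Tops P → ℕ}
    {n0 : ℕ} (HZ : ∀ t, ∀ n < n0, (1 + X : ℤ[X]) ^ b t ∣ Z {x : P // x ∈ N t} 6 n)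
    (hlow : ∀ x ∈ unnat N, 2 * 7 < lev x) (hb : b t0 = 4) (hn0 : 75 < n0)
    {z' : P} (hz' : ¬ z ≤ z') (hz'o : z' ∈ onlyB t0) {n : ℕ} (hn : n ≤ 75) :
    (1 + X : ℤ[X]) ^ (∑ t, b t) ∣ ZB 6 ∅ 0 (sgs {z, z'} 3) n := by
  have hs : ∑ t, b t = 4 + ∑ t ∈ univ.erase t0, b t := by
    rw [← hb]
    exact (Finset.add_sum_erase univ b (mem_univ t0)).symm
  have e := cst_eq C H.gradedBelow
  have key := pole C H HN HZ hlow (Sd := {z, z'}) (by simp) (by
    intro x hx
    rw [mem_insert, mem_singleton] at hx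
    rcases hx with rfl | rfl
    · exact C.z_only H.gradedBelow HN hlow
    · exact hz'o) (by rw [e]; exact hn0)
  rw [← hs, e] at key
  rcases Nat.lt_or_ge n 75 with h | h
  · exact key.1 n h
  · rw [show n = 4 + 71 by omega]
    exact key.2.1 ⟨z', by simp, hz'⟩

/-- the first pole of a family of (C) elements with the same covers -/
theorem fam_pole (C : CEl t0 Nc co 7 z F S) (H : Gr P r) (HN : NatSys N) {b : Tops P → ℕ}
    {n0 : ℕ} (HZ : ∀ t, ∀ n < n0, (1 + X : ℤ[X]) ^ b t ∣ Z {x : P // x ∈ N t} 6 n)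
    (hlow : ∀ x ∈ unnat N, 2 * 7 < lev x) (hb : b t0 = 4) (hn0 : 75 < n0)
    {h : P → ℕ} {A : Finset P} (hzA : z ∈ A) (hA : ∀ y ∈ A, ∀ w, z < w ↔ y < w)
    (hh' : ∀ y ∈ A, h y = 3) :
    (∀ n < 75, (1 + X : ℤ[X]) ^ (∑ t, b t) ∣ ZF 6 h A n) ∧
    (1 + X : ℤ[X]) ^ (∑ t, b t) ∣ ZF 6 h A 75 -
      ∑ _y ∈ A, X ^ (below P 6 + 10) * (1 + X) ^ ((lv P 6).card - 1) := by
  classical
  have hgr := H.gradedBelow
  have hfam : ∀ y ∈ A, CEl t0 Nc co 7 y F S ∧ lev y = 2 * 7 + 1 := by
    intro y hy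
    have hyF := (cov_of_up (hA y hy)).mp C.zF
    have hyS := (cov_of_up (hA y hy)).mp C.zS
    have C' : CEl t0 Nc co 7 y F S := ⟨C.chart, C.strip, C.F_mem, C.S_mem, C.co_F, C.co_S, hyF,
      hyS, fun w hw => C.only w ((cov_of_up (hA y hy)).mpr hw)⟩
    exact ⟨C', C'.lev_z hgr⟩
  have hsingle := fun y (hy : y ∈ A) => pole_single (hfam y hy).1 H HN HZ hlow hb hn0
  have hlz := (hfam z hzA).2
  by_cases hone : A = {z}
  · have f2 := hsingle z hzA
    constructor
    · intro n hn
      rw [hone, ZF_singleton (by omega), hh' z hzA]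
      exact f2.1 n hn
    · rw [hone, ZF_singleton (by omega), hh' z hzA, Finset.sum_singleton]
      exact f2.2
  · obtain ⟨y, hy, hyz⟩ : ∃ y ∈ A, y ≠ z := by
      by_contra hcon
      push Not at hcon
      apply hone
      ext x
      rw [mem_singleton]
      exact ⟨fun h => hcon x h, fun h => h ▸ hzA⟩
    have htwo : A = {z, y} := by
      ext x
      rw [mem_insert, mem_singleton]
      constructor
      · intro hx
        by_contra hcon
        push Not at hcon
        exact Win.dc_three H (hfam x hx).1.zF C.zF (hfam y hy).1.zF hcon.1 hcon.2 hyz.symm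
      · rintro (h | h)
        · rw [h]; exact hzA
        · rw [h]; exact hy
    have f2 := hsingle z hzA
    have g1 := hfam y hy
    have g2 := hsingle y hy
    have hzy : ¬ z ≤ y := by
      intro h
      have := lev_strictAnti (lt_of_le_of_ne h hyz.symm)
      omega
    have hP := fun n (hn : n ≤ 75) => pole_pair C H HN HZ hlow hb hn0 hzy
      (g1.1.z_only hgr HN hlow) hn
    have key : ∀ n, ZF 6 h {z, y} n = ZD 6 z 3 n + ZD 6 y 3 n - ZB 6 ∅ 0 (sgs {z, y} 3) n := by
      intro n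
      have h3 := ZF_pair (i := 6) (h := h) (z := z) (z' := y) (by omega) (by omega) n
      rw [ZP_eq_sgs (by omega) (by omega) (hh' z hzA) (hh' y hy), hh' z hzA, hh' y hy] at h3
      rw [← h3]
      ring
    constructor
    · intro n hn
      rw [htwo, key]
      exact dvd_sub (dvd_add (f2.1 n hn) (g2.1 n hn)) (hP n hn.le)
    · rw [htwo, key, Finset.sum_pair hyz.symm]
      have h5 := dvd_sub (dvd_add f2.2 g2.2) (hP _ le_rfl)
      refine h5.trans (dvd_of_eq ?_)
      ring

/-- `z` covers exactly the fold end and the straight end of a stair of full order -/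
def IsC (b : Tops P → ℕ) (z : P) : Prop :=
  ∃ t Nc co F S, CEl (P := P) t Nc co 7 z F S ∧ b t = 4

/-- **Standalone kill of the (C) elements.** -/
theorem cc_dead (H : Gr P r) (HN : NatSys N) {b : Tops P → ℕ}
    {n0 : ℕ} (HZ : ∀ t, ∀ n < n0, (1 + X : ℤ[X]) ^ b t ∣ Z {x : P // x ∈ N t} 6 n)
    (hlow : ∀ x ∈ unnat N, 2 * 7 < lev x)
    (hsum : ∑ t, b t = (lv P 6).card) {R : Finset P} {h : P → ℕ}
    (FT : FarT P 6 R (lv P 6).card h n0) (hn0 : 75 < n0)
    (hbd : ∀ z ∈ bdR R, 75 < cst 6 h z ∨ (h z = 3 ∧ IsC b z)) :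
    ∀ z ∈ bdR R, 75 < cst 6 h z := by
  classical
  have hgr := H.gradedBelow
  intro z0 hz0
  by_contra hcon
  set Cs := (bdR R).filter (fun z => h z = 3 ∧ IsC b z) with hCs
  have hCm : ∀ z, z ∈ Cs ↔ z ∈ bdR R ∧ h z = 3 ∧ IsC b z := by
    intro z
    rw [hCs, mem_filter]
  have hz0C : z0 ∈ Cs := (hCm z0).mpr ⟨hz0, (hbd z0 hz0).resolve_left hcon⟩
  let fm : P → Finset P := fun z => Cs.filter (fun y => ∀ w, z < w ↔ y < w)
  have hfm : ∀ z y, y ∈ fm z ↔ y ∈ Cs ∧ ∀ w, z < w ↔ y < w := by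
    intro z y
    simp only [fm, mem_filter]
  have hself : ∀ z ∈ Cs, z ∈ fm z := fun z hz => (hfm z z).mpr ⟨hz, fun _ => Iff.rfl⟩
  have hfeq : ∀ z y, y ∈ fm z → fm y = fm z := by
    intro z y hy
    have h1 := ((hfm z y).mp hy).2
    ext w
    rw [hfm, hfm]
    exact and_congr_right fun _ => ⟨fun h2 v => (h1 v).trans (h2 v),
      fun h2 v => (h1 v).symm.trans (h2 v)⟩
  set Fam := Cs.image fm with hFam
  have hcst : ∀ z ∈ Cs, cst 6 h z = 71 := by
    intro z hz
    obtain ⟨-, h1, t, Nc, co, F, S, C, -⟩ := (hCm z).mp hz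
    rw [cst_ct h1]
    exact cst_eq C hgr
  have hunion : ∀ z ∈ Cs, ∀ z' ∈ bdR R, z' ∉ fm z →
      75 < ∑ x, max (ez 6 h z x) (ez 6 h z' x) := by
    intro z hz z' hz' hne
    by_cases hC' : z' ∈ Cs
    · obtain ⟨-, h1, t, Nc, co, F, S, C, -⟩ := (hCm z).mp hz
      obtain ⟨-, h1', t', Nc', co', F', S', C', -⟩ := (hCm z').mp hC'
      have htt : t ≠ t' := by
        rintro rfl
        obtain ⟨e1, e2⟩ := C.same H (by norm_num) C'
        refine hne ((hfm z z').mpr ⟨hC', fun w => ?_⟩)
        rw [C.lt_iff, C'.lt_iff, e1, e2]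
      have ho := C.z_only hgr HN hlow
      have ho' := C'.z_only hgr HN hlow
      have h2 : ∀ x, max (ez 6 h z x) (ez 6 h z' x) = ez 6 h z x + ez 6 h z' x := by
        intro x
        by_cases hx : z ≤ x
        · have hx' : ¬ z' ≤ x := by
            intro hx'
            have e1 := mem_onlyB.mp (onlyB_up ho hx) (topOf x) (topOf x).2 (le_topOf x)
            have e2 := mem_onlyB.mp (onlyB_up ho' hx') (topOf x) (topOf x).2 (le_topOf x)
            exact htt (Subtype.ext (e1.symm.trans e2))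
          have : ez 6 h z' x = 0 := by unfold ez; rw [if_neg hx']
          rw [this]
          simp
        · have : ez 6 h z x = 0 := by unfold ez; rw [if_neg hx]
          rw [this]
          simp
      rw [Finset.sum_congr rfl fun x _ => h2 x, Finset.sum_add_distrib]
      have e1 : ∑ x, ez 6 h z x = 71 := hcst z hz
      have e2 : ∑ x, ez 6 h z' x = 71 := hcst z' hC'
      rw [e1, e2]
      omega
    · have h3 : 75 < cst 6 h z' := by
        rcases hbd z' hz' with h4 | h4
        · exact h4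
        · exact absurd ((hCm z').mpr ⟨hz', h4⟩) hC'
      refine h3.trans_le ?_
      unfold cst
      exact Finset.sum_le_sum fun x _ => le_max_right _ _
  have key := FT.plusF (n := 75) hn0 Fam ?_ ?_ ?_ ?_
  · have hempty : (bdR R).filter (fun z => (∀ A ∈ Fam, z ∉ A) ∧ cst 6 h z = 75) = ∅ := by
      rw [Finset.filter_eq_empty_iff]
      rintro z hz ⟨h1, h2⟩
      rcases hbd z hz with h3 | h3
      · omega
      · have hzC := (hCm z).mpr ⟨hz, h3⟩
        exact h1 (fm z) (mem_image_of_mem _ hzC) (hself z hzC)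
    rw [hempty, Finset.sum_empty, add_zero] at key
    have hZ := dvd_Z H.gauss 6 75
    have h1 : (1 + X : ℤ[X]) ^ (lv P 6).card ∣ ∑ A ∈ Fam, ZF 6 h A 75 := by
      have := dvd_sub hZ key
      rwa [sub_sub_cancel] at this
    have h2 : (1 + X : ℤ[X]) ^ (lv P 6).card ∣ ∑ A ∈ Fam, (ZF 6 h A 75 -
        ∑ _y ∈ A, X ^ (below P 6 + 10) * (1 + X) ^ ((lv P 6).card - 1)) := by
      refine Finset.dvd_sum fun A hA => ?_
      obtain ⟨z, hz, rfl⟩ := mem_image.mp hA
      obtain ⟨-, h3, t, Nc, co, F, S, C, hb⟩ := (hCm z).mp hz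
      have h4 := fam_pole C H HN HZ hlow hb hn0 (h := h) (hself z hz)
        (fun y hy => ((hfm z y).mp hy).2) (fun y hy =>
          ((hCm y).mp ((hfm z y).mp hy).1).2.1)
      rw [hsum] at h4
      exact h4.2
    rw [Finset.sum_sub_distrib] at h2
    have h3 := dvd_sub h1 h2
    rw [sub_sub_cancel, Finset.sum_sigma'] at h3
    have hB : 1 ≤ (lv P 6).card := by
      obtain ⟨-, -, t, Nc, co, F, S, C, hb⟩ := (hCm z0).mp hz0C
      rw [← hsum]
      have := Finset.single_le_sum (f := b) (fun _ _ => Nat.zero_le _) (mem_univ t)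
      omega
    have h4 := sum_empty hB _ (fun _ => below P 6 + 10)
      (σ := (-1) ^ (below P 6 + 10)) (pow_ne_zero _ (by norm_num)) (fun _ _ => rfl) h3
    have h5 : (⟨fm z0, z0⟩ : (_ : Finset P) × P) ∈ Fam.sigma (fun A => A) := by
      rw [mem_sigma]
      exact ⟨mem_image_of_mem _ hz0C, hself z0 hz0C⟩
    rw [h4] at h5
    exact absurd h5 (Finset.notMem_empty _)
  · intro A hA z hz
    obtain ⟨y, hy, rfl⟩ := mem_image.mp hA
    exact ((hCm z).mp ((hfm y z).mp hz).1).1
  · intro z hz h1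
    rcases hbd z hz with h3 | h3
    · exact h3.le
    · have hzC := (hCm z).mpr ⟨hz, h3⟩
      exact absurd (hself z hzC) (h1 (fm z) (mem_image_of_mem _ hzC))
  · intro A hA z hz z' hz' hne
    obtain ⟨y, hy, rfl⟩ := mem_image.mp hA
    refine hunion z ((hfm y z).mp hz).1 z' hz' ?_
    rw [hfeq y z hz]
    exact hne
  · intro A hA A' hA' hne z hz hz'
    obtain ⟨y, hy, rfl⟩ := mem_image.mp hA
    obtain ⟨y', hy', rfl⟩ := mem_image.mp hA'
    exact hne ((hfeq y z hz).symm.trans (hfeq y' z hz'))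

end Pool.Agent.GaussPoset.Cy

end
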