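import Mathlib
import Pool.Agent.W_448zz_h61.Ns
import Pool.Agent.W_448zz_h61.M121
import Pool.Agent.W_448zz_h61.M123

/-! From `Pool.Agent.W_448fc_h67.FcS` -/

section

/-!
Case B: the natural system at window `m`, level `2 m`, for general `m`.
-/

namespace Pool.Agent.GaussPoset

set_option linter.unusedSectionVars false

open Polynomial Finset

universe u

variable {P : Type u} [Fintype P] [PartialOrder P] [DecidableEq P] {r m K : ℕ}
  {N : Tops P → Finset P} {b : Tops P → ℕ} {θ : Tops P → P → ℕ}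

/-- the numerical bound below the inner cells of a stair -/
def KapS (m K : ℕ) : Prop := ∀ s c, 1 ≤ s → s ≤ m → s + c = 2 * m + 1 →
  K ≤ ((s - 2 * (m / 2)) + (c - m) + 1) + ∑ a ∈ range (s + 1),
    rowW true (fun k => min ((s - 2 * (m / 2)) + (c - m) + 1) (k - m)) c (2 * m + 1) a

lemma kapS_Kb (hm : 6 ≤ m) : KapS m (Kb m) := fun s c hs hsm hc => kap_stair hm hs hsm hc rfl

/-- the types at window `m` -/
inductive TyG (m K : ℕ) (N : Tops P → Finset P) (t : Tops P) (b : ℕ) (θ : P → ℕ) : Prop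
  | light (h1 : N t = onlyB t) (h2 : θ = fun x => lev x - m) (h3 : b = 1)
      (h6 : ∃ x ≤ (t : P), lev x = m)
  | rect (Nc : Finset P) (co : P → ℕ × ℕ) (h0 : RectNat (2 * m) m t b Nc co)
      (h1 : N t = natR Nc co) (h2 : θ = thR m b Nc co) (h3 : NopT m t)
  | stair (Nc : Finset P) (co : P → ℕ × ℕ) (h0 : StairNat (2 * m) m t Nc co)
      (h1 : N t = natS Nc co) (h2 : θ = thS m Nc co) (h3 : b = m / 2 + 1) (h4 : NopT m t)
  | quad (h1 : N t = lowPart (2 * m) (t : P)) (h2 : θ = fun _ => 0) (h3 : b = 2)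
      (h4 : QInf m m t) (h5 : 4 ≤ m)
  | oth (h1 : ∃ B, NatTop m t b (N t) θ B) (h2 : lowPart (2 * m) (t : P) ⊆ N t)
      (h3 : ∀ z ∈ unnat N, ∀ x ∈ N t, z ⋖ x → K ≤ ct m (θ x + 1) z)
      (h4 : ∀ z ∈ unnat N, ∀ x ∈ N t, lev z = 2 * m + 1 → ¬ ∀ w, x < w ↔ z < w)

/-- the context: no element of level `2 m + 1` is below two tops -/
structure WG (r m K : ℕ) (N : Tops P → Finset P) (b : Tops P → ℕ) (θ : Tops P → P → ℕ) :
    Prop where
  gt : Win.GoodTo P r (2 * m)
  two : 2 ≤ m
  typ : ∀ t, TyG m K N t (b t) (θ t)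
  sum_b : ∑ t, b t = (lv P m).card
  nj : ∀ z : P, lev z = 2 * m + 1 → ¬ Hul.Jn z
  kap0 : KapS m K
  K_le : K ≤ (m + 1) ^ 2

lemma WG.lowOnly (W : WG r m K N b θ) {t : Tops P} {x : P} (hx : x ≤ (t : P))
    (hl : lev x ≤ 2 * m + 1) : x ∈ onlyB t := by
  rw [mem_onlyB]
  intro s hs hxs
  by_contra hne
  rcases Nat.lt_or_ge (2 * m) (lev x) with h | h
  · exact W.nj x (by omega) ⟨s, t, hs, t.2, hne, hxs, hx⟩
  · exact hne (Cp.top_eq W.gt.H W.gt.good h hs t.2 hxs hx)

lemma WG.lowUp (W : WG r m K N b θ) (t : Tops P) :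
    ∀ x ∈ lowPart (2 * m) (t : P), ∀ y, x ≤ y → y ∈ lowPart (2 * m) (t : P) := by
  intro x hx y hxy
  rw [mem_lowPart] at hx ⊢
  refine ⟨Cp.up_le W.gt.H W.gt.good t.2 hx.1 hx.2 hxy, ?_⟩
  rcases eq_or_lt_of_le hxy with h | h
  · rw [← h]; exact hx.2
  · have := lev_strictAnti h; omega

theorem WG.natTop (W : WG r m K N b θ) (t : Tops P) : ∃ B, NatTop m t (b t) (N t) (θ t) B := by
  have hm := W.two
  have hgr := W.gt.H.gradedBelow
  rcases W.typ t with ⟨h1, h2, h3, h6⟩ | ⟨Nc, co, h0, h1, h2, h3⟩ |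
    ⟨Nc, co, h0, h1, h2, h3, h4⟩ | ⟨h1, h2, h3, h4, h5⟩ | ⟨h1, -, -, -⟩
  · rw [h1, h2, h3]
    exact ⟨_, natTop_light hgr (fun x hx hxi => W.lowOnly hx (by omega)) h6⟩
  · rw [h1, h2]
    exact ⟨_, h0.natTop hgr (by omega)⟩
  · rw [h1, h2, h3]
    exact ⟨_, h0.natTop hgr (by omega) (by omega)⟩
  · rw [h1, h2, h3]
    exact ⟨_, natTop_quad (by omega) (dvd_W_Qd m) h4 (W.lowUp t)⟩
  · exact h1

lemma WG.natSys (W : WG r m K N b θ) : NatSys N := by
  choose B hB using W.natTop
  exact natSys_of_tops hB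

lemma WG.low (W : WG r m K N b θ) {x : P} (hx : lev x ≤ 2 * m) : x ∉ unnat N := by
  intro h
  refine mem_unnat.mp h (topOf x) ?_
  rcases W.typ (topOf x) with ⟨h1, h2, h3, h6⟩ | ⟨Nc, co, h0, h1, h2, h3⟩ |
    ⟨Nc, co, h0, h1, h2, h3, h4⟩ | ⟨h1, -, -, -, -⟩ | ⟨-, h2, -, -⟩
  · rw [h1]; exact W.lowOnly (le_topOf x) (by omega)
  · rw [h1]; exact mem_natR.mpr (Or.inl (h0.strip (mem_lowPart.mpr ⟨le_topOf x, hx⟩)))
  · rw [h1]; exact mem_natS.mpr (Or.inl (h0.strip (mem_lowPart.mpr ⟨le_topOf x, hx⟩)))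
  · rw [h1]; exact mem_lowPart.mpr ⟨le_topOf x, hx⟩
  · exact h2 (mem_lowPart.mpr ⟨le_topOf x, hx⟩)

lemma WG.lt_lev (W : WG r m K N b θ) {x : P} (hx : x ∈ unnat N) : 2 * m < lev x := by
  by_contra hcon
  exact W.low (not_lt.mp hcon) hx

/-- elements of the other components -/
structure OthM (m K : ℕ) (N : Tops P → Finset P) (θ : Tops P → P → ℕ) (x : P) : Prop where
  mem : x ∈ N (topOf x)
  cost : ∀ z ∈ unnat N, ∀ y ∈ N (topOf x), z ⋖ y → K ≤ ct m (θ (topOf x) y + 1) z
  tw : ∀ z ∈ unnat N, ∀ y ∈ N (topOf x), lev z = 2 * m + 1 → ¬ ∀ w, y < w ↔ z < w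

/-- the kinds of natural elements -/
theorem WG.cases (W : WG r m K N b θ) {x : P} (hx : x ∉ unnat N) : FullM m N θ x ∨
    (∃ Nc co, InRM m N b θ x Nc co) ∨ (∃ Nc co, InSM m N b θ x Nc co) ∨
      (QdM m N θ x ∧ 4 ≤ m) ∨ OthM m K N θ x := by
  have H := W.gt.H
  have HN := W.natSys
  have hxt : x ∈ N (topOf x) := HN.mem_iff.mpr ⟨hx, rfl⟩
  have hm := W.two
  have hT := W.typ (topOf x)
  generalize ht : topOf x = t at hxt hT
  rcases hT with ⟨h1, h2, h3, h6⟩ | ⟨Nc, co, h0, h1, h2, h3⟩ |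
    ⟨Nc, co, h0, h1, h2, h3, h4⟩ | ⟨h1, h2, h3, h4, h5⟩ | ⟨h1, h2, h3, h4⟩
  · left
    have hs : ∀ z ∈ unnat N, ∃ s : P, lev s = 0 ∧ z ≤ s ∧ s ≠ t := by
      intro z hz
      have h7 : z ∉ onlyB t := by
        rw [← h1]
        exact mem_unnat.mp hz t
      rw [mem_onlyB] at h7
      push Not at h7
      exact h7
    refine ⟨by rw [ht, h2], ?_, ?_⟩
    · intro z hz hzx k _ hk
      obtain ⟨s, hs1, hs2, hs3⟩ := hs z hz
      exact two_le_nab_join HN H.gradedBelow hxt hzx hs1 hs3 hs2 hk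
    · intro z hz h
      obtain ⟨s, hs1, hs2, hs3⟩ := hs z hz
      have h7 := W.lt_lev hz
      have h8 : z < s := lt_of_le_of_ne hs2 (by rintro rfl; omega)
      exact hs3 (HN.top_eq hxt hs1 ((h s).mpr h8).le)
  · -- rectangles
    by_cases hJ : x ∈ junk (fun _ => True) Nc co ∨ x ∈ junk (fun _ => True) Nc (swp co)
    · left
      refine ⟨?_, ?_, ?_⟩
      · rw [ht, h2]
        unfold thR
        rw [if_pos hJ]
      · intro z hz hzx k hk hkx
        refine rect_two_le_nab H h0 h1 hz hzx ?_ (by omega) hkx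
        rcases hJ with h | h
        · exact Or.inl h
        · exact Or.inr (Or.inl h)
      · intro z hz h
        refine mem_unnat.mp hz t ?_
        rw [h1, mem_natR]
        rcases hJ with h' | h'
        · exact Or.inr (Or.inl (junk_twin h' h))
        · exact Or.inr (Or.inr (junk_twin h' h))
    · have hxN : x ∈ Nc := by
        rw [h1, mem_natR] at hxt
        rcases hxt with h | h | h
        · exact h
        · exact absurd (Or.inl h) hJ
        · exact absurd (Or.inr h) hJ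
      have hl := h0.chart.lev x hxN
      have hb1 := h0.b_two
      have hb2 := h0.b_le
      have hrow : b t = m + 1 ∨ (co x).1 ≤ b t - 1 := by
        rcases h0.rows with h | h
        · exact Or.inl h
        · exact Or.inr (h x hxN)
      by_cases h7 : (co x).1 = 0 ∨ (co x).2 = 0
      · left
        refine ⟨?_, ?_, ?_⟩
        · rw [ht, h2]
          unfold thR
          rw [if_neg hJ]
          omega
        · intro z hz hzx k hk hkx
          exact rect_two_le_nab H h0 h1 hz hzx (Or.inr (Or.inr ⟨hxN, h7⟩)) (by omega) hkx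
        · intro z hz h
          have h8 := W.lt_lev hz
          rw [← lev_eq_of_up h] at h8
          rcases h7 with h7 | h7
          · obtain ⟨u, hu, hcu⟩ := h0.chart.low x hxN (0, (co x).2 - 1)
              ⟨Nat.zero_le _, Nat.sub_le _ _⟩ trivial
            refine straight_twin H h0 h1 hxN hu ?_ ?_ ?_ hz h
            · rw [hcu]
              exact Or.inr ⟨by simp only; omega, by simp only; omega⟩
            · intro y hy hp
              rw [hcu]
              rcases hp with hp | hp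
              · omega
              · exact Prod.ext (by simp only; omega) (by simp only; omega)
            · rw [hcu]
              exact Or.inl rfl
          · obtain ⟨u, hu, hcu⟩ := h0.chart.low x hxN ((co x).1 - 1, 0)
              ⟨Nat.sub_le _ _, Nat.zero_le _⟩ trivial
            refine straight_twin H h0 h1 hxN hu ?_ ?_ ?_ hz h
            · rw [hcu]
              exact Or.inl ⟨by simp only; omega, by simp only; omega⟩
            · intro y hy hp
              rw [hcu]
              rcases hp with hp | hp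
              · exact Prod.ext (by simp only; omega) (by simp only; omega)
              · omega
            · rw [hcu]
              exact Or.inr rfl
      · right; left
        refine ⟨Nc, co, ?_, ?_, hxN, by omega, by omega, ?_, ?_⟩
        · rw [ht]; exact h0
        · rw [ht]; exact h1
        · rw [ht, h2]
          unfold thR
          rw [if_neg hJ]
          omega
        · rw [ht]; exact h3
  · -- stairs
    by_cases hJ : x ∈ junk (fun c => c.1 ≤ c.2) Nc co
    · left
      refine ⟨?_, ?_, ?_⟩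
      · rw [ht, h2]
        unfold thS
        rw [if_pos hJ]
      · intro z hz hzx k hk hkx
        exact stair_two_le_nab H h0 h1 hz hzx (Or.inl hJ) hk hkx
      · intro z hz h
        refine mem_unnat.mp hz t ?_
        rw [h1, mem_natS]
        exact Or.inr (junk_twin hJ h)
    · have hxN : x ∈ Nc := by
        rw [h1, mem_natS] at hxt
        rcases hxt with h | h
        · exact h
        · exact absurd h hJ
      have hl := h0.chart.lev x hxN
      by_cases h7 : (co x).1 = 0
      · left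
        refine ⟨?_, ?_, ?_⟩
        · rw [ht, h2]
          unfold thS
          rw [if_neg hJ]
          omega
        · intro z hz hzx k hk hkx
          exact stair_two_le_nab H h0 h1 hz hzx (Or.inr ⟨hxN, h7⟩) hk hkx
        · intro z hz h
          have h8 := W.lt_lev hz
          rw [← lev_eq_of_up h] at h8
          obtain ⟨u, hu, hcu⟩ := h0.chart.low x hxN (0, (co x).2 - 1)
            ⟨Nat.zero_le _, Nat.sub_le _ _⟩ (Nat.zero_le _)
          refine straight_twinS H h0 (by omega) h1 hxN hu ?_ ?_ ?_ hz h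
          · rw [hcu]
            exact Or.inr ⟨by simp only; omega, by simp only; omega⟩
          · intro y hy hp
            rw [hcu]
            rcases hp with hp | hp
            · omega
            · exact Prod.ext (by simp only; omega) (by simp only; omega)
          · rw [hcu]
      · right; right; left
        refine ⟨Nc, co, ?_, ?_, hxN, by omega, ?_, ?_⟩
        · rw [ht]; exact h0
        · rw [ht]; exact h1
        · rw [ht, h2]
          unfold thS
          rw [if_neg hJ]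
        · rw [ht]; exact h4
  · right; right; right; left
    rw [h1, mem_lowPart] at hxt
    exact ⟨⟨by rw [ht]; exact h1, by rw [ht, h2], hxt.2, by rw [ht]; exact h4⟩, h5⟩
  · right; right; right; right
    subst ht
    exact ⟨hxt, h3, h4⟩

end Pool.Agent.GaussPoset

end

/-! From `Pool.Agent.W_448fc_h67.FcT` -/

section

/-!
Case B at window `m`: twins, truncated data, the boundary.
-/

namespace Pool.Agent.GaussPoset

set_option linter.unusedSectionVars false

open Polynomial Finset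

universe u

variable {P : Type u} [Fintype P] [PartialOrder P] [DecidableEq P] {r m K : ℕ}
  {N : Tops P → Finset P} {b : Tops P → ℕ} {θ : Tops P → P → ℕ}

/-- the system of twins -/
theorem twSys_of (H : Gr P r) (HN : NatSys N) : TwSys (unnat N) (twY (2 * m) N) topOf (twT N) where
  sub := fun x hx => (mem_twY.mp hx).1
  nat := fun x hx => (twT_spec (mem_twY.mp hx).2.2).1
  up := fun x hx => (twT_spec (mem_twY.mp hx).2.2).2
  inj := by
    intro x hx x' hx' h
    have h1 := mem_twY.mp hx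
    have h2 := mem_twY.mp hx'
    have h3 := twT_spec h1.2.2
    have h4 := twT_spec h2.2.2
    by_contra hne
    have h5 : x < (topOf x : P) := lt_of_le_of_ne (le_topOf x) (by
      intro h
      have := (topOf x).2
      rw [← h] at this
      omega)
    obtain ⟨u, hu, -⟩ := Hul.exists_cov h5
    have hu' : twT N x ⋖ u := (cov_of_up h3.2).mpr hu
    have hu'' : x' ⋖ u := by
      rw [h] at hu'
      exact (cov_of_up h4.2).mp hu'
    refine Win.dc_three H hu hu'' hu' hne ?_ ?_
    · intro h6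
      exact h3.1 (h6 ▸ h1.1)
    · intro h6
      rw [h] at h6
      exact h4.1 (h6 ▸ h2.1)
  anti := by
    intro x hx y hy h
    have h1 := mem_twY.mp hx
    have h2 := mem_twY.mp hy
    have := lev_strictAnti h
    omega
  cp := by
    intro x hx
    have h1 := mem_twY.mp hx
    have h3 := twT_spec h1.2.2
    have h5 : x < (topOf x : P) := lt_of_le_of_ne (le_topOf x) (by
      intro h
      have := (topOf x).2
      rw [← h] at this
      omega)
    have h6 : twT N x ∈ N (topOf (twT N x)) := HN.mem_iff.mpr ⟨h3.1, rfl⟩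
    exact (Subtype.ext (HN.top_eq h6 (topOf x).2 ((h3.2 _).mpr h5).le)).symm

theorem WG.twSys (W : WG r m K N b θ) : TwSys (unnat N) (twY (2 * m) N) topOf (twT N) :=
  twSys_of W.gt.H W.natSys

lemma kap_chartG {t x : P} {Nc : Finset P} {co : P → ℕ × ℕ} {k : ℕ} (hK : KapS m K)
    (hm : 1 ≤ m) (C : Chart t (fun c => c.1 ≤ c.2) Nc co) (hx : x ∈ Nc)
    (h1 : 1 ≤ (co x).1) (hl : 2 * m + 1 ≤ lev x)
    (hk : ((co x).1 - 2 * (m / 2)) + ((co x).2 - m) + 1 ≤ k) : K ≤ ct m k x + k := by
  have hlx := C.lev x hx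
  have h3 : (co x).1 ≤ (co x).2 := C.mem x hx
  obtain ⟨s, c, hs, hsm, hsc, hs1, hc1⟩ : ∃ s c, 1 ≤ s ∧ s ≤ m ∧ s + c = 2 * m + 1 ∧
      s ≤ (co x).1 ∧ c ≤ (co x).2 := by
    by_cases h4 : (co x).1 ≤ m
    · exact ⟨(co x).1, 2 * m + 1 - (co x).1, h1, h4, by omega, le_rfl, by omega⟩
    · exact ⟨m, m + 1, by omega, le_rfl, by omega, by omega, by omega⟩
  obtain ⟨u, hu, hcu⟩ := C.low x hx (s, c) ⟨hs1, hc1⟩ (show s ≤ c by omega)
  have hxu : x ≤ u := by
    rw [C.le_iff x hx u hu, hcu]
    exact ⟨hs1, hc1⟩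
  have hlu : lev u = 2 * m + 1 := by
    rw [C.lev u hu, hcu]
    exact hsc
  have h5 := hK s c hs hsm hsc
  have h6 := ct_chart C (shift := true) (by simp) hu m ((s - 2 * (m / 2)) + (c - m) + 1)
  rw [hcu, hlu] at h6
  simp only at h6
  rw [← h6] at h5
  have h7 := ct_mono (i := m) hxu (show (s - 2 * (m / 2)) + (c - m) + 1 ≤ k by omega)
  omega

/-- natural elements of level at least `2 m + 1` -/
theorem WG.kap (W : WG r m K N b θ) {x : P} (hx : x ∉ unnat N) (hl : 2 * m + 1 ≤ lev x) :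
    FullM m N θ x ∨ OthM m K N θ x ∨ K ≤ ct m (θ (topOf x) x + 1) x + (θ (topOf x) x + 1) := by
  have hm := W.two
  rcases W.cases hx with h | ⟨Nc, co, h⟩ | ⟨Nc, co, h⟩ | h | h
  · exact Or.inl h
  · right; right
    have h1 := W.K_le
    rw [pow_two] at h1
    refine le_trans (by omega) (kap_chart (by omega) h.rect.chart h.mem h.fst h.snd hl ?_)
    rw [h.th]
  · right; right
    refine kap_chartG W.kap0 (by omega) h.stair.chart h.mem h.fst hl ?_
    rw [h.th]
  · have := h.1.lev
    omega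
  · exact Or.inr (Or.inl h)

lemma WG.tw_inner (W : WG r m K N b θ) {x : P} (hx : x ∈ twY (2 * m) N) :
    (∃ Nc co, InRM m N b θ (twT N x) Nc co) ∨ ∃ Nc co, InSM m N b θ (twT N x) Nc co := by
  have h1 := mem_twY.mp hx
  have h3 := twT_spec h1.2.2
  rcases W.cases h3.1 with h | h | h | h | h
  · exact absurd h3.2 (h.tw x h1.1)
  · exact Or.inl h
  · exact Or.inr h
  · have h4 := h.1.lev
    have h5 := W.twSys.lev hx
    omega
  · exact absurd h3.2 (h.tw x h1.1 _ h.mem h1.2.1)

lemma WG.tw_kap (W : WG r m K N b θ) {x : P} (hx : x ∈ twY (2 * m) N) :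
    K ≤ ct m (θ (topOf (twT N x)) (twT N x) + 1) (twT N x) +
      (θ (topOf (twT N x)) (twT N x) + 1) := by
  have h1 := mem_twY.mp hx
  have h3 := twT_spec h1.2.2
  have h5 := W.twSys.lev hx
  rcases W.kap h3.1 (by omega) with h | h | h
  · exact absurd h3.2 (h.tw x h1.1)
  · exact absurd h3.2 (h.tw x h1.1 _ h.mem h1.2.1)
  · exact h

lemma WG.tw_th (W : WG r m K N b θ) {x : P} (hx : x ∈ twY (2 * m) N) :
    1 ≤ θ (topOf (twT N x)) (twT N x) ∧ θ (topOf (twT N x)) (twT N x) ≤ m := by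
  have h1 := mem_twY.mp hx
  have h5 := W.twSys.lev hx
  have hm := W.two
  rcases W.tw_inner hx with ⟨Nc, co, h⟩ | ⟨Nc, co, h⟩
  · have h6 := h.rect.chart.lev _ h.mem
    have h7 := h.fst
    have h8 := h.snd
    have h9 := h.th
    omega
  · have h6 := h.stair.chart.lev _ h.mem
    have h7 := h.fst
    have h8 : (co (twT N x)).1 ≤ (co (twT N x)).2 := h.stair.chart.mem _ h.mem
    have h9 := h.th
    omega

/-- the twins are harmless below energy `K - 1` -/
theorem WG.twinPair (W : WG r m K N b θ) {x : P} (hx : x ∈ twY (2 * m) N) :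
    TwinPair m (thX (twY (2 * m) N) (twT N) (fun x => θ (topOf x) x)) (K - 1) (twT N x) x := by
  classical
  have T := W.twSys
  have h1 := mem_twY.mp hx
  have hlev : lev (twT N x) = 2 * m + 1 := by rw [T.lev hx]; exact h1.2.1
  have hnY : twT N x ∉ twY (2 * m) N := fun h => T.nat x hx (mem_twY.mp h).1
  obtain ⟨h3, h4⟩ := W.tw_th hx
  have h5 := W.tw_kap hx
  have hth : thX (twY (2 * m) N) (twT N) (fun x => θ (topOf x) x) (twT N x) =
      θ (topOf (twT N x)) (twT N x) := thX_not hnY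
  have hth' : thX (twY (2 * m) N) (twT N) (fun x => θ (topOf x) x) x =
      θ (topOf (twT N x)) (twT N x) := thX_of hx
  refine ⟨?_, T.up x hx, ?_, ?_, ?_, ?_, ?_⟩
  · intro h
    exact T.nat x hx (h.symm ▸ h1.1)
  · rw [hth]; exact h3
  · rw [hth, hth']
  · rw [hth, hlev]; omega
  · rw [hth]
    have h6 : ct m (θ (topOf (twT N x)) (twT N x) + 1) (twT N x) ≤
        ∑ y, (if twT N x ≤ y then lev y - m else 0) := by
      rw [ct_eq_sum]
      refine Finset.sum_le_sum fun y _ => ?_
      split_ifs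
      · exact Nat.min_le_right _ _
      · exact le_rfl
    omega
  · rw [hth]
    have h6 := ct_succ m (θ (topOf (twT N x)) (twT N x) + 1) (twT N x)
    rw [hlev, Nat.min_eq_left (by omega)] at h6
    omega

/-- truncated data at window `m` -/
theorem WG.farT (W : WG r m K N b θ) : FarT P m (r2 (2 * m) N) (lv P m).card
    (h2 (2 * m) N θ) (K - 1) := by
  choose B hB using W.natTop
  have h := farT_of_tops W.gt.H.gradedBelow hB W.twSys (K - 1) (fun x hx => W.twinPair hx)
  rw [W.sum_b] at h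
  exact h

/-- the boundary: level `2 m + 1` or large cost -/
theorem WG.bd (W : WG r m K N b θ) {z : P} (hz : z ∈ bdR (r2 (2 * m) N)) :
    lev z = 2 * m + 1 ∨ K ≤ cst m (h2 (2 * m) N θ) z := by
  classical
  have H := W.gt.H
  have hm := W.two
  have T := W.twSys
  have hzR : z ∈ unnat N := (mem_sdiff.mp (mem_filter.mp hz).1).1
  have hlz := W.lt_lev hzR
  by_cases hl : lev z = 2 * m + 1
  · exact Or.inl hl
  right
  obtain ⟨u, hu, hzu, hh⟩ := hcan_spec
    (θ := thX (twY (2 * m) N) (twT N) (fun x => θ (topOf x) x)) hz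
  have hlu := (H.covBy_iff.mp hzu).2
  have hc : ∀ k, h2 (2 * m) N θ z = k → cst m (h2 (2 * m) N θ) z = ct m k z := by
    intro k hk
    unfold ct cst ez
    rw [hk]
  have key : ∀ (u' : P) (k : ℕ), ct m k u = ct m k u' → K ≤ ct m k u' + k → k ≤ lev z - m →
      h2 (2 * m) N θ z = k → K ≤ cst m (h2 (2 * m) N θ) z := by
    intro u' k h3 h4 h5 h6
    have h7 := ct_cov (i := m) (k := k) hzu.1
    rw [Nat.min_eq_left h5] at h7
    rw [hc k h6]
    omega
  by_cases huY : u ∈ twY (2 * m) N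
  · rw [thX_of huY] at hh
    have h3 := W.tw_th huY
    exact key (twT N u) _ (ct_congr_up fun w => (T.up u huY w).symm) (W.tw_kap huY) (by omega) hh
  · have huR : u ∉ unnat N := fun h => hu (mem_sdiff.mpr ⟨h, huY⟩)
    rw [thX_not huY] at hh
    rcases W.kap huR (by omega) with hF | hO | hI
    · rw [hF.th] at hh
      have h3 := sq_le_cst (i := m) (h := h2 (2 * m) N θ) (z := z) (by omega)
        (by show h2 (2 * m) N θ z = _; rw [show h2 (2 * m) N θ z = _ from hh]; omega) (by
          intro k hk hk2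
          exact hF.two z hzR hzu.le k (by omega) (by omega))
      have h4 : (m + 1) ^ 2 ≤ (lev z - m) ^ 2 := Nat.pow_le_pow_left (by omega) 2
      exact (W.K_le.trans h4).trans h3
    · rw [hc _ hh]
      exact hO.cost z hzR u hO.mem hzu
    · have h5 := W.farT.le_lev z hz
      exact key u _ rfl hI (by rw [show h2 (2 * m) N θ z = _ from hh] at h5; exact h5) hh

end Pool.Agent.GaussPoset

end

/-! From `Pool.Agent.W_448fc_h67.FcU` -/

section

/-!
Case B at window `m`: the unnatural elements of level `2 m + 1`.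
-/

namespace Pool.Agent.GaussPoset

set_option linter.unusedSectionVars false

open Polynomial Finset

universe u

variable {P : Type u} [Fintype P] [PartialOrder P] [DecidableEq P] {r m K : ℕ}
  {N : Tops P → Finset P} {b : Tops P → ℕ} {θ : Tops P → P → ℕ}

/-- no joins: all elements above have the same top -/
lemma WG.top_cov (W : WG r m K N b θ) {z x : P} (hl : lev z = 2 * m + 1) (hzx : z ⋖ x) :
    topOf x = topOf z := by
  by_contra hne
  refine W.nj z hl ⟨topOf x, topOf z, (topOf x).2, (topOf z).2, fun h => hne (Subtype.ext h), ?_,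
    le_topOf z⟩
  exact hzx.le.trans (le_topOf x)

/-- the label of a boundary element of level `2 m + 1` -/
lemma WG.h2_eq (W : WG r m K N b θ) {z x : P} (hz : z ∈ r2 (2 * m) N) (hl : lev z = 2 * m + 1)
    (hzx : z ⋖ x) (hmin : ∀ y, z ⋖ y → θ (topOf x) x ≤ θ (topOf y) y) :
    h2 (2 * m) N θ z = θ (topOf x) x + 1 := by
  classical
  have H := W.gt.H
  have hlev : ∀ y, z ⋖ y → lev y = 2 * m := by
    intro y hy
    have := (H.covBy_iff.mp hy).2
    omega
  have hnY : ∀ y, z ⋖ y → y ∉ twY (2 * m) N := by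
    intro y hy h
    have h1 := hlev y hy
    have h2 := (mem_twY.mp h).2.1
    omega
  have hnR : ∀ y, z ⋖ y → y ∉ r2 (2 * m) N := fun y hy h =>
    W.low (hlev y hy).le (mem_sdiff.mp h).1
  have hbd : z ∈ bdR (r2 (2 * m) N) := mem_filter.mpr ⟨hz, x, hnR x hzx, hzx⟩
  refine le_antisymm ?_ ?_
  · refine (hcan_le (θ := thX (twY (2 * m) N) (twT N) (fun x => θ (topOf x) x)) (hnR x hzx)
      hzx).trans ?_
    rw [thX_not (hnY x hzx)]
  · obtain ⟨y, hy, hzy, hh⟩ := hcan_spec
      (θ := thX (twY (2 * m) N) (twT N) (fun x => θ (topOf x) x)) hbd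
    rw [thX_not (hnY y hzy)] at hh
    have h3 := hmin y hzy
    show _ ≤ hcan _ _ z
    omega

/-- a cover which gives the label -/
lemma WG.exists_lab (W : WG r m K N b θ) {z : P} (hz : z ∈ r2 (2 * m) N)
    (hl : lev z = 2 * m + 1) : ∃ x, z ⋖ x ∧ h2 (2 * m) N θ z = θ (topOf x) x + 1 := by
  classical
  have hzt : z < (topOf z : P) := lt_of_le_of_ne (le_topOf z) (by
    intro h
    have := (topOf z).2
    rw [← h] at this
    omega)
  obtain ⟨x0, hzx0, -⟩ := Hul.exists_cov hzt
  obtain ⟨x, hx, hmin⟩ := Finset.exists_min_image (univ.filter (fun y : P => z ⋖ y))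
    (fun y => θ (topOf y) y) ⟨x0, by simp [hzx0]⟩
  rw [mem_filter] at hx
  exact ⟨x, hx.2, W.h2_eq hz hl hx.2 fun y hy => hmin y (by simp [hy])⟩

lemma WG.mem_bd (W : WG r m K N b θ) {z : P} (hz : z ∈ r2 (2 * m) N) (hl : lev z = 2 * m + 1) :
    z ∈ bdR (r2 (2 * m) N) := by
  classical
  have hzt : z < (topOf z : P) := lt_of_le_of_ne (le_topOf z) (by
    intro h
    have := (topOf z).2
    rw [← h] at this
    omega)
  obtain ⟨x, hzx, -⟩ := Hul.exists_cov hzt
  refine mem_filter.mpr ⟨hz, x, fun h => ?_, hzx⟩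
  have h1 := (W.gt.H.covBy_iff.mp hzx).2
  exact W.low (by omega) (mem_sdiff.mp h).1

/-- all covers have full thresholds: large cost -/
lemma WG.cst_full (W : WG r m K N b θ) {z : P} (hz : z ∈ r2 (2 * m) N) (hl : lev z = 2 * m + 1)
    (h : ∀ x, z ⋖ x → FullM m N θ x) : (m + 1) ^ 2 ≤ cst m (h2 (2 * m) N θ) z := by
  have hm := W.two
  obtain ⟨x, hzx, h3⟩ := W.exists_lab hz hl
  have hlev : lev x = 2 * m := by
    have := (W.gt.H.covBy_iff.mp hzx).2
    omega
  rw [(h x hzx).th, hlev] at h3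
  have h4 := sq_le_cst (i := m) (h := h2 (2 * m) N θ) (z := z) (by omega)
    (by rw [h3]; omega) (by
      intro k hk hk2
      exact (h x hzx).two z (mem_sdiff.mp hz).1 hzx.le k (by omega) (by rw [hlev]; omega))
  rwa [hl, show 2 * m + 1 - m = m + 1 by omega] at h4

/-- two neighbours in a chart: the cell below them is occupied -/
lemma near_chart (H : Gr P r) {t z x x' p : P} {Nc : Finset P}
    {co : P → ℕ × ℕ} {S : ℕ × ℕ → Prop} (C : Chart t S Nc co)
    (hM : MaxChart S Nc co) (hS : ∀ s c : ℕ, S (s + 1, c) → S (s + 1, c + 1))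
    (hx : x ∈ Nc) (hx' : x' ∈ Nc) (hp : x ⋖ p) (hp' : x' ⋖ p) (hzx : z ⋖ x) (hzx' : z ⋖ x')
    (hne : x ≠ x') (hzN : z ∉ Nc) : ∃ y ∈ Nc, y ⋖ x ∧ y ⋖ x' := by
  have hpN := C.up x hx p hp.le
  have e1 := (chart_cov C H hx hpN).mp hp
  have e2 := (chart_cov C H hx' hpN).mp hp'
  have hcne : co x ≠ co x' := fun h => hne (C.inj x hx x' hx' h)
  have hSx : S (co x) := C.mem x hx
  have hSx' : S (co x') := C.mem x' hx'
  rcases e1 with e1 | e1
  · rcases e2 with e2 | e2
    · exact absurd (Prod.ext (by omega) (by omega)) hcne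
    · have hcx : co x = ((co p).1 + 1, (co p).2) := Prod.ext e1.1 e1.2
      obtain ⟨y, hy, -, hyx, hyx', -⟩ := max_pair C hM H hzN hx hx' hzx hzx' hcx
        (Prod.ext e2.1 e2.2) (by rw [hcx] at hSx; exact hS _ _ hSx)
      exact ⟨y, hy, hyx, hyx'⟩
  · rcases e2 with e2 | e2
    · have hcx' : co x' = ((co p).1 + 1, (co p).2) := Prod.ext e2.1 e2.2
      obtain ⟨y, hy, -, hyx, hyx', -⟩ := max_pair C hM H hzN hx' hx hzx' hzx hcx'
        (Prod.ext e1.1 e1.2) (by rw [hcx'] at hSx'; exact hS _ _ hSx')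
      exact ⟨y, hy, hyx', hyx⟩
    · exact absurd (Prod.ext (by omega) (by omega)) hcne

/-- the kinds of elements of level `2 m` -/
theorem WG.kind (W : WG r m K N b θ) {x : P} (hl : lev x = 2 * m) :
    FullM m N θ x ∨ FoldM m N b θ x ∨ (QdM m N θ x ∧ 4 ≤ m) ∨ OthM m K N θ x ∨
      ((Win.uc x).card = 2 ∧ NopT m (topOf x)) := by
  have H := W.gt.H
  have hm := W.two
  rcases W.cases (W.low hl.le) with h | ⟨Nc, co, h⟩ | ⟨Nc, co, h⟩ | h | h
  · exact Or.inl h
  · exact Or.inr (Or.inr (Or.inr (Or.inr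
      ⟨chart_inner_uc h.rect.chart H h.mem h.fst h.snd, h.nop⟩)))
  · have h1 := h.stair.chart.lev x h.mem
    have h2 : (co x).1 ≤ (co x).2 := h.stair.chart.mem x h.mem
    by_cases h3 : (co x).1 = m
    · exact Or.inr (Or.inl ⟨Nc, co, h, Prod.ext h3 (by simp only; omega)⟩)
    · exact Or.inr (Or.inr (Or.inr (Or.inr ⟨chartS_inner_uc h.stair.chart H h.mem h.fst
        (by omega), h.nop⟩)))
  · exact Or.inr (Or.inr (Or.inl h))
  · exact Or.inr (Or.inr (Or.inr (Or.inl h)))

/-- the unnatural elements of level `2 m + 1` which are no twins -/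
inductive KG (m K : ℕ) (N : Tops P → Finset P) (b : Tops P → ℕ) (θ : Tops P → P → ℕ) (z : P) :
    Prop
  | high (h : K ≤ cst m (h2 (2 * m) N θ) z)
  | penQ (x : P) (hx : QdM m N θ x) (hm : 4 ≤ m) (hp : Pend z x)
  | penF (x : P) (hx : FoldM m N b θ x) (hp : Pend z x)
  | cc (h : CcM m N b θ z) (h' : ∀ y, z ⋖ y → ¬ OthM m K N θ y)

lemma WG.oth_high (W : WG r m K N b θ) {z x : P} (hz : z ∈ r2 (2 * m) N)
    (hl : lev z = 2 * m + 1) (hzx : z ⋖ x) (hO : OthM m K N θ x) :
    K ≤ cst m (h2 (2 * m) N θ) z := by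
  obtain ⟨y, hzy, hh⟩ := W.exists_lab hz hl
  have h1 : topOf y = topOf x := (W.top_cov hl hzy).trans (W.top_cov hl hzx).symm
  have hly : lev y = 2 * m := by
    have := (W.gt.H.covBy_iff.mp hzy).2
    omega
  have hyN : y ∈ N (topOf x) := by
    rw [← h1]
    exact W.natSys.mem_iff.mpr ⟨W.low hly.le, rfl⟩
  rw [cst_ct hh, h1]
  exact hO.cost z (mem_sdiff.mp hz).1 y hyN hzy

/-- two neighbours of the level `2 m`: the element is natural or a twin -/
lemma WG.near (W : WG r m K N b θ) {z x x' : P} (hz : z ∈ r2 (2 * m) N) (hl : lev z = 2 * m + 1)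
    (hO : ∀ y, z ⋖ y → ¬ OthM m K N θ y)
    (hzx : z ⋖ x) (hzx' : z ⋖ x') (hne : x ≠ x') (h1 : ucv x x' = 1) : False := by
  classical
  have H := W.gt.H
  have HN := W.natSys
  have hm := W.two
  have hlx : lev x = 2 * m := by
    have := (H.covBy_iff.mp hzx).2
    omega
  have hlx' : lev x' = 2 * m := by
    have := (H.covBy_iff.mp hzx').2
    omega
  rw [mem_sdiff] at hz
  have hzU := hz.1
  obtain ⟨p, hp⟩ := Finset.card_eq_one.mp h1
  have hp2 : x ⋖ p ∧ x' ⋖ p := by
    have : p ∈ (univ.filter (fun y : P => x ⋖ y ∧ x' ⋖ y)) := by rw [hp]; simp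
    simpa using this
  have hxt : topOf x = topOf z := W.top_cov hl hzx
  have hxt' : topOf x' = topOf z := W.top_cov hl hzx'
  have hxle : x ≤ (topOf z : P) := by rw [← hxt]; exact le_topOf x
  have hxle' : x' ≤ (topOf z : P) := by rw [← hxt']; exact le_topOf x'
  have twin : ∀ y : P, y ∉ unnat N → y ⋖ x → y ⋖ x' → False := fun y hy hyx hyx' =>
    hz.2 (mem_twY.mpr ⟨hzU, hl, y, hy, up_of_pair H hzx hzx' hyx hyx' hne⟩)
  rcases W.typ (topOf z) with ⟨g1, g2, g3, g6⟩ | ⟨Nc, co, g0, g1, g2, g3⟩ |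
    ⟨Nc, co, g0, g1, g2, g3, g4⟩ | ⟨g1, g2, g3, g4, g5⟩ | ⟨g1, g2, g3, g4⟩
  · refine mem_unnat.mp hzU (topOf z) ?_
    rw [g1]
    exact W.lowOnly (le_topOf z) (by omega)
  · have hx : x ∈ Nc := g0.strip (mem_lowPart.mpr ⟨hxle, hlx.le⟩)
    have hx' : x' ∈ Nc := g0.strip (mem_lowPart.mpr ⟨hxle', hlx'.le⟩)
    have hzN : z ∉ Nc := fun h => mem_unnat.mp hzU (topOf z) (by
      rw [g1]
      exact mem_natR.mpr (Or.inl h))
    obtain ⟨y, hy, hyx, hyx'⟩ := near_chart H g0.chart g0.max (fun _ _ _ => trivial) hx hx' hp2.1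
      hp2.2 hzx hzx' hne hzN
    refine twin y (HN.mem_iff (t := topOf z).mp ?_).1 hyx hyx'
    rw [g1]
    exact mem_natR.mpr (Or.inl hy)
  · have hx : x ∈ Nc := g0.strip (mem_lowPart.mpr ⟨hxle, hlx.le⟩)
    have hx' : x' ∈ Nc := g0.strip (mem_lowPart.mpr ⟨hxle', hlx'.le⟩)
    have hzN : z ∉ Nc := fun h => mem_unnat.mp hzU (topOf z) (by
      rw [g1]
      exact mem_natS.mpr (Or.inl h))
    obtain ⟨y, hy, hyx, hyx'⟩ := near_chart H g0.chart g0.max
      (fun s c (h : s + 1 ≤ c) => show s + 1 ≤ c + 1 by omega) hx hx' hp2.1 hp2.2 hzx hzx' hne hzN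
    refine twin y (HN.mem_iff (t := topOf z).mp ?_).1 hyx hyx'
    rw [g1]
    exact mem_natS.mpr (Or.inl hy)
  · exact hne (g4.unique hxle hxle' hlx hlx')
  · refine hO x hzx ⟨HN.mem_iff.mpr ⟨W.low hlx.le, rfl⟩, ?_, ?_⟩
    · rw [hxt]; exact g3
    · rw [hxt]; exact g4

/-- a single-up element of level `2 m` of the stair of a fold end -/
lemma WG.stair_single (W : WG r m K N b θ) {x x' : P} {Nc : Finset P} {co : P → ℕ × ℕ}
    (h : InSM m N b θ x Nc co) (hcx : co x = (m, m)) (hlx' : lev x' = 2 * m)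
    (hxt : topOf x' = topOf x) (hne : x ≠ x') (h1 : (Win.uc x').card = 1) :
    x' ∈ Nc ∧ co x' = (0, 2 * m) := by
  have hx' : x' ∈ Nc := h.stair.strip (mem_lowPart.mpr ⟨by rw [← hxt]; exact le_topOf x',
    hlx'.le⟩)
  refine ⟨hx', ?_⟩
  have h2 := h.stair.chart.lev x' hx'
  have h3 : (co x').1 ≤ (co x').2 := h.stair.chart.mem x' hx'
  by_cases h4 : (co x').1 = 0
  · exact Prod.ext h4 (by simp only; omega)
  · exfalso
    by_cases h5 : (co x').1 = (co x').2
    · exact hne (h.stair.chart.inj x h.mem x' hx' (by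
        rw [hcx]
        exact Prod.ext (by simp only; omega) (by simp only; omega)))
    · have := chartS_inner_uc h.stair.chart W.gt.H hx' (by omega) (by omega)
      omega

/-- the classification -/
theorem WG.class (W : WG r m K N b θ) {z : P} (hz : z ∈ r2 (2 * m) N)
    (hl : lev z = 2 * m + 1) : KG m K N b θ z := by
  classical
  have H := W.gt.H
  have HN := W.natSys
  have hm := W.two
  by_cases hO : ∃ y, z ⋖ y ∧ OthM m K N θ y
  · obtain ⟨y, hzy, hy⟩ := hO
    exact KG.high (W.oth_high hz hl hzy hy)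
  have hO' : ∀ y, z ⋖ y → ¬ OthM m K N θ y := fun y hy h => hO ⟨y, hy, h⟩
  have hfull : (∀ x, z ⋖ x → FullM m N θ x) → KG m K N b θ z := fun h =>
    KG.high (W.K_le.trans (W.cst_full hz hl h))
  have hzt : z < (topOf z : P) := lt_of_le_of_ne (le_topOf z) (by
    intro h
    have := (topOf z).2
    rw [← h] at this
    omega)
  obtain ⟨x, hzx, hxt⟩ := Hul.exists_cov hzt
  have hlev : ∀ y, z ⋖ y → lev y = 2 * m := by
    intro y hy
    have := (H.covBy_iff.mp hy).2
    omega
  have hlx := hlev x hzx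
  by_cases honly : ∀ y, z ⋖ y → y = x
  · rcases W.kind hlx with h | h | h | h | h
    · refine hfull fun y hy => ?_
      rw [honly y hy]
      exact h
    · exact KG.penF x h ⟨hzx, honly⟩
    · exact KG.penQ x h.1 h.2 ⟨hzx, honly⟩
    · exact absurd h (hO' x hzx)
    · exact absurd honly (h.2 x z (le_topOf x) hlx h.1 hzx)
  · push Not at honly
    obtain ⟨x', hzx', hne'⟩ := honly
    have hne : x ≠ x' := Ne.symm hne'
    have hlx' := hlev x' hzx'
    obtain ⟨i, hi⟩ : ∃ i, 2 * m = i + 1 := ⟨2 * m - 1, by omega⟩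
    have hgt := W.gt
    rw [hi] at hgt
    have ht : topOf x = topOf x' := (W.top_cov hl hzx).trans (W.top_cov hl hzx').symm
    rcases (Win.near_level' hgt (by omega)).1 z x x' (by omega) hzx hzx' hne with
      h7 | ⟨h7, h8, -⟩
    · exact (W.near hz hl hO' hzx hzx' hne h7).elim
    · have hQ : ∀ y, z ⋖ y → ¬ QdM m N θ y := by
        intro y hy hQ
        have hty : topOf y = topOf x := by
          rcases uc_pair H hzx hzx' hne hy with h | h
          · rw [h]
          · rw [h, ht]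
        have hy1 : x ≤ (topOf y : P) := by rw [hty]; exact le_topOf x
        have hy2 : x' ≤ (topOf y : P) := by rw [hty, ht]; exact le_topOf x'
        exact hne (hQ.inf.unique hy1 hy2 hlx hlx')
      rcases W.kind hlx with h | ⟨Nc, co, h, hcx⟩ | h | h | h
      · rcases W.kind hlx' with h' | ⟨Nc, co, h', hcx⟩ | h' | h' | h'
        · refine hfull fun y hy => ?_
          rcases uc_pair H hzx hzx' hne hy with e | e
          · rw [e]; exact h
          · rw [e]; exact h'
        · obtain ⟨h9, h10⟩ := W.stair_single h' hcx hlx ht hne' h7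
          exact KG.cc ⟨hl, x', x, Nc, co, h', hcx, h9, h10, hzx', hzx⟩ hO'
        · exact absurd h'.1 (hQ x' hzx')
        · exact absurd h' (hO' x' hzx')
        · omega
      · obtain ⟨h9, h10⟩ := W.stair_single h hcx hlx' ht.symm hne h8
        exact KG.cc ⟨hl, x, x', Nc, co, h, hcx, h9, h10, hzx, hzx'⟩ hO'
      · exact absurd h.1 (hQ x hzx)
      · exact absurd h (hO' x hzx)
      · omega

end Pool.Agent.GaussPoset

end

/-! From `Pool.Agent.W_448fc_h67.FcV` -/

section

/-!
Case B at window `m`: there are no (C) elements.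
-/

namespace Pool.Agent.GaussPoset

set_option linter.unusedSectionVars false

open Polynomial Finset

universe u

variable {P : Type u} [Fintype P] [PartialOrder P] [DecidableEq P] {r m K : ℕ}
  {N : Tops P → Finset P} {b : Tops P → ℕ} {θ : Tops P → P → ℕ}

/-- the elements above the bottom of a quadric strip -/
lemma WG.nab_quad (W : WG r m K N b θ) {a : ℕ} {v : P} (h : QInf m a (topOf v))
    (hl : lev v = 2 * m) {l : ℕ} (hl2 : l ≤ 2 * m) : nab l v = if l = a then 2 else 1 := by
  classical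
  rw [← h.cn l hl2]
  unfold nab cn
  congr 1
  ext x
  rw [mem_filter, mem_filter, mem_lv]
  refine and_congr_right fun h1 => ⟨fun h2 => ?_, fun h2 => ?_⟩
  · rw [W.natSys.cp v x h2 (W.low hl.le)]
    exact le_topOf x
  · exact h.bot v (le_topOf v) hl x h2 (by omega)

lemma WG.num_penQ (W : WG r m K N b θ) {z x : P} (hz : z ∈ r2 (2 * m) N)
    (hl : lev z = 2 * m + 1) (hx : QdM m N θ x) (hp : Pend z x) :
    Num m N θ z 1 (m + 1) 1 2 := by
  have hm := W.two
  have hlx : lev x = 2 * m := by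
    have := (W.gt.H.covBy_iff.mp hp.1).2
    omega
  have hn : ∀ u, u ≤ m → nab (m + u) z = if m + u = m then 2 else 1 := by
    intro u hu
    rw [nab_pend hp (by omega)]
    exact W.nab_quad hx.inf hlx (by omega)
  refine Num.mk' hl (by omega) ?_ ?_ ?_ ?_
  · rw [W.h2_eq hz hl hp.1 (fun y hy => by rw [hp.2 y hy]), hx.th]
  · rw [vs_quad (a := m) le_rfl (by omega) hn, NL_one, Nat.sub_self, Nat.min_zero]
  · have h1 := hn 0 (by omega)
    have h2 := hn 1 (by omega)
    rw [if_pos (by omega)] at h1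
    rw [if_neg (by omega)] at h2
    rw [Nat.add_zero] at h1
    omega
  · have h1 := hn 0 (by omega)
    rw [if_pos (by omega)] at h1
    rw [Finset.sum_range_one, h1]

lemma WG.num_penF (W : WG r m K N b θ) {z x : P} (hz : z ∈ r2 (2 * m) N)
    (hl : lev z = 2 * m + 1) (hx : FoldM m N b θ x) (hp : Pend z x) :
    Num m N θ z (hh m) (NF m (hh m) + hh m) 1 (sgF m) := by
  have hm := W.two
  have hh2 := hh_le m
  have hn : ∀ u, u ≤ m → nab (m + u) z = nab (m + u) x := by
    intro u hu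
    exact nab_pend hp (by omega)
  refine Num.mk' hl (by omega) ?_ ?_ ?_ ?_
  · rw [W.h2_eq hz hl hp.1 (fun y hy => by rw [hp.2 y hy]), hx.th, hh_eq]
  · rw [vs_congr hn, hx.vs]
  · have h1 := hn 0 (by omega)
    rw [Nat.add_zero] at h1
    have h3 := hx.nab (u := 0) (by omega)
    rw [Nat.add_zero] at h3
    rw [h1, h3, hn (hh m) (by omega), hx.nab (by omega), nF_drop (by omega)]
  · unfold sgF
    refine Finset.sum_congr rfl fun u hu => ?_
    rw [mem_range] at hu
    rw [hn u (by omega), hx.nab (by omega)]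

/-- the step: all terms of maximal drop have the same sign, so there are none -/
theorem WG.kill (W : WG r m K N b θ) {n : ℕ} (hn : n < K - 1)
    (hcost : ∀ z ∈ bdR (r2 (2 * m) N), n ≤ cst m (h2 (2 * m) N θ) z) (σ : ℤ) (hσ : σ ≠ 0) (δ : ℕ)
    (hδ : 1 ≤ δ)
    (h1 : ∀ z ∈ bdR (r2 (2 * m) N), cst m (h2 (2 * m) N θ) z = n →
      nab m z ≤ nab (m + h2 (2 * m) N θ z) z + δ)
    (h3 : ∀ z ∈ bdR (r2 (2 * m) N), cst m (h2 (2 * m) N θ) z = n →
      nab m z = nab (m + h2 (2 * m) N θ z) z + δ → (-1 : ℤ) ^ nst m (h2 (2 * m) N θ) z = σ) :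
    ∀ z ∈ bdR (r2 (2 * m) N), cst m (h2 (2 * m) N θ) z = n →
      nab m z ≠ nab (m + h2 (2 * m) N θ z) z + δ := by
  classical
  intro z0 hz0 hc0 hd0
  have F := W.farT
  have hd := F.dvd_lead hn hcost
  have hZ := dvd_Z W.gt.H.gauss m n
  set T := (bdR (r2 (2 * m) N)).filter (fun z => cst m (h2 (2 * m) N θ) z = n) with hT
  have hb : δ ≤ (lv P m).card := by
    have h5 : nab m z0 ≤ (lv P m).card := by
      unfold nab
      exact Finset.card_filter_le _ _
    omega
  have hs := sign_sum_of_dvd T hZ hd (c0 := (lv P m).card - δ) (by omega) (by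
    intro y hy
    rw [hT, mem_filter] at hy
    have h4 := h1 y hy.1 hy.2
    omega)
  set T' := T.filter (fun y => (lv P m).card - δ + nab m y =
    (lv P m).card + nab (m + h2 (2 * m) N θ y) y) with hT'
  have hz0T : z0 ∈ T' := by
    rw [hT', mem_filter, hT, mem_filter]
    exact ⟨⟨hz0, hc0⟩, by omega⟩
  rw [Finset.sum_congr rfl (g := fun _ => σ)] at hs
  · rw [Finset.sum_const, nsmul_eq_mul] at hs
    rcases mul_eq_zero.mp hs with h4 | h4
    · have h5 : T'.card = 0 := by exact_mod_cast h4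
      rw [Finset.card_eq_zero] at h5
      rw [h5] at hz0T
      exact absurd hz0T (Finset.notMem_empty _)
    · exact hσ h4
  · intro y hy
    rw [hT', mem_filter, hT, mem_filter] at hy
    exact h3 y hy.1.1 hy.1.2 (by omega)

/-- the data of a (C) element -/
lemma WG.cel (W : WG r m K N b θ) {z F S : P} {Nc : Finset P} {co : P → ℕ × ℕ}
    (hF : InSM m N b θ F Nc co) (hcF : co F = (m, m)) (hS : S ∈ Nc) (hcS : co S = (0, 2 * m))
    (hzF : z ⋖ F) (hzS : z ⋖ S) : CEl (topOf F) Nc co m z F S where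
  chart := hF.stair.chart
  strip := hF.stair.strip
  F_mem := hF.mem
  S_mem := hS
  co_F := hcF
  co_S := hcS
  zF := hzF
  zS := hzS
  only := by
    have hm := W.two
    have hne : F ≠ S := by
      rintro rfl
      rw [hcF, Prod.mk.injEq] at hcS
      omega
    exact fun y hy => uc_pair W.gt.H hzF hzS hne hy

/-- the straight end of the stair of a fold end -/
lemma WG.cc_full (W : WG r m K N b θ) {x x' : P} {Nc : Finset P} {co : P → ℕ × ℕ}
    (hx : InSM m N b θ x Nc co)
    (hcx : co x = (m, m)) (hx' : x' ∈ Nc) (hcx' : co x' = (0, 2 * m))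
    (hO : ¬ OthM m K N θ x') :
    FullM m N θ x' ∧ topOf x' = topOf x := by
  classical
  have H := W.gt.H
  have hm := W.two
  have C := hx.stair.chart
  have hlx : lev x = 2 * m := by
    rw [C.lev x hx.mem, hcx]
    simp only
    omega
  have hlx' : lev x' = 2 * m := by
    rw [C.lev x' hx', hcx']
    simp only
    omega
  have hxN : x ∈ N (topOf x) := W.natSys.mem_iff.mpr ⟨W.low hlx.le, rfl⟩
  have htop : topOf x' = topOf x := by
    have h1 : x' ∈ N (topOf x) := by
      rw [hx.nat]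
      exact mem_natS.mpr (Or.inl hx')
    exact W.natSys.topOf_eq h1
  refine ⟨?_, htop⟩
  rcases W.kind hlx' with h | h | ⟨h, -⟩ | h | h
  · exact h
  · exfalso
    have h1 := h.nab (u := 0) (by omega)
    rw [Nat.add_zero, nab_chart C hx', hcx'] at h1
    have := card_cellsAt_shift (l := m) (p := (0, 2 * m)) (Nat.zero_le _) (by simp only; omega)
    simp only at this
    unfold nF at h1
    omega
  · exfalso
    have h1 := h.inf.unique (x := x) (x' := x') (by rw [htop]; exact le_topOf x) (le_topOf x')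
      hlx hlx'
    rw [h1, hcx'] at hcx
    simp only [Prod.mk.injEq] at hcx
    omega
  · exact absurd h hO
  · exfalso
    obtain ⟨y1, y2, hne, hyy⟩ := Finset.card_eq_two.mp h.1
    have e1 : x' ⋖ y1 := Win.mem_uc.mp (by rw [hyy]; simp)
    have e2 : x' ⋖ y2 := Win.mem_uc.mp (by rw [hyy]; simp)
    have hy1 := C.up x' hx' y1 e1.le
    have hy2 := C.up x' hx' y2 e2.le
    have f1 := (chart_cov C H hx' hy1).mp e1
    have f2 := (chart_cov C H hx' hy2).mp e2
    rw [hcx'] at f1 f2
    unfold Prd at f1 f2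
    simp only at f1 f2
    exact hne (C.inj y1 hy1 y2 hy2 (Prod.ext (by omega) (by omega)))

/-- the order of the component of a (C) element -/
lemma WG.b_cel (W : WG r m K N b θ) {z F S : P} {Nc : Finset P} {co : P → ℕ × ℕ}
    {t : Tops P} (hzU : z ∈ unnat N) (C : CEl t Nc co m z F S)
    (hO : ∀ y, z ⋖ y → ¬ OthM m K N θ y) : b t = m / 2 + 1 := by
  have hm := W.two
  have H := W.gt.H
  have hl := C.lev_z H.gradedBelow
  have hFt : F ≤ (t : P) := C.chart.le_t F C.F_mem
  have htF : topOf z = t := by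
    by_contra hne
    refine W.nj z hl ⟨topOf z, t, (topOf z).2, t.2, fun h => hne (Subtype.ext h), le_topOf z,
      C.zF.le.trans hFt⟩
  have hFF : topOf F = t := (W.top_cov hl C.zF).trans htF
  have hlF : lev F = 2 * m := by
    have := (H.covBy_iff.mp C.zF).2
    omega
  have hlS : lev S = 2 * m := by
    have := (H.covBy_iff.mp C.zS).2
    omega
  rcases W.typ t with ⟨g1, -, -, -⟩ | ⟨Nc', co', h0, -, -, -⟩ |
    ⟨Nc', co', h0, -, -, hb, -⟩ | ⟨-, -, -, g4, -⟩ | ⟨-, h2, h3, h4⟩
  · exfalso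
    refine mem_unnat.mp hzU t ?_
    rw [g1, ← htF]
    exact W.lowOnly (le_topOf z) (by omega)
  · exfalso
    obtain ⟨y, hy, hcy⟩ := h0.cell
    have hb2 := h0.b_two
    obtain ⟨y1, hy1, hc1⟩ := h0.chart.low y hy (1, 0) (by
      rw [hcy]
      exact ⟨by simp only; omega, Nat.zero_le _⟩) trivial
    obtain ⟨y2, hy2, hc2⟩ := h0.chart.low y hy (0, 1) (by
      rw [hcy]
      exact ⟨Nat.zero_le _, by simp only; omega⟩) trivial
    have l1 := h0.chart.lev y1 hy1
    have l2 := h0.chart.lev y2 hy2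
    rw [hc1] at l1
    rw [hc2] at l2
    simp only at l1 l2
    have g1 := C.strip (mem_lowPart.mpr ⟨h0.chart.le_t y1 hy1, by omega⟩)
    have g2 := C.strip (mem_lowPart.mpr ⟨h0.chart.le_t y2 hy2, by omega⟩)
    have k1 : (co y1).1 ≤ (co y1).2 := C.chart.mem y1 g1
    have k2 : (co y2).1 ≤ (co y2).2 := C.chart.mem y2 g2
    have q1 := C.chart.lev y1 g1
    have q2 := C.chart.lev y2 g2
    have he := C.chart.inj y1 g1 y2 g2 (Prod.ext (by omega) (by omega))
    rw [he, hc2, Prod.mk.injEq] at hc1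
    omega
  · exact hb
  · exfalso
    have h1 := g4.unique hFt (C.chart.le_t S C.S_mem) hlF hlS
    have h2 := C.co_F
    rw [h1, C.co_S, Prod.mk.injEq] at h2
    omega
  · exfalso
    refine hO F C.zF ⟨W.natSys.mem_iff.mpr ⟨W.low hlF.le, rfl⟩, ?_, ?_⟩
    · rw [hFF]; exact h3
    · rw [hFF]; exact h4

/-- **Case B.**  No element of level `2 m + 1` covers the fold end and the straight end. -/
theorem WG.no_cc (W : WG r m K N b θ) (h3m : m ≠ 3) (hK : E0 m + hh m ^ 2 + 2 ≤ K) {z : P}
    (hz : z ∈ r2 (2 * m) N) : E0 m < cst m (h2 (2 * m) N θ) z ∨ lev z ≠ 2 * m + 1 := by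
  classical
  have H := W.gt.H
  have hm := W.two
  have hh2 := hh_le m
  have hh1 := hh_pos m
  have hNL := NL_ge (m := m) hh1
  have hE0 : E0 m = NF m (hh m) + NL m (hh m) + hh m := rfl
  obtain ⟨g, u, hu, hmu, hg⟩ : ∃ g u, u ≤ 1 ∧ m = 2 * g + u ∧ 1 ≤ g :=
    ⟨m / 2, m % 2, by omega, by omega, by omega⟩
  -- the table
  have hrow : ∀ z ∈ bdR (r2 (2 * m) N), K ≤ cst m (h2 (2 * m) N θ) z ∨
      ((∃ x, QdM m N θ x ∧ 4 ≤ m ∧ Pend z x) ∧ Num m N θ z 1 (m + 1) 1 2) ∨
      (Num m N θ z (hh m) (NF m (hh m) + hh m) 1 (sgF m)) ∨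
      (h2 (2 * m) N θ z = hh m ∧ IsC b m z ∧ cst m (h2 (2 * m) N θ) z = E0 m) := by
    intro z hz
    have hzR := bd_mem hz
    rcases W.bd hz with hl | h
    · rcases W.class hzR hl with h | ⟨x, hx, h4, hp⟩ | ⟨x, hx, hp⟩ |
        ⟨⟨-, F, S, Nc, co, hF, hcF, hS, hcS, hzF, hzS⟩, hO⟩
      · exact Or.inl h
      · exact Or.inr (Or.inl ⟨⟨x, hx, h4, hp⟩, W.num_penQ hzR hl hx hp⟩)
      · exact Or.inr (Or.inr (Or.inl (W.num_penF hzR hl hx hp)))
      · refine Or.inr (Or.inr (Or.inr ?_))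
        have C := W.cel hF hcF hS hcS hzF hzS
        have hfold : FoldM m N b θ F := ⟨Nc, co, hF, hcF⟩
        obtain ⟨hfull, htop⟩ := W.cc_full hF hcF hS hcS (hO S hzS)
        have hlS : lev S = 2 * m := by
          have := (H.covBy_iff.mp hzS).2
          omega
        have hlab : h2 (2 * m) N θ z = hh m := by
          rw [W.h2_eq hzR hl hzF (fun y hy => ?_), hfold.th, hh_eq]
          rcases C.only y hy with h | h
          · rw [h]
          · rw [h, hfold.th, hfull.th, hlS]
            omega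
        refine ⟨hlab, ⟨topOf F, Nc, co, F, S, C, W.b_cel (mem_sdiff.mp hzR).1 C hO⟩, ?_⟩
        rw [cst_ct hlab]
        exact C.cst_eq H.gradedBelow (by omega)
    · exact Or.inl h
  -- no pendants below quadrics
  have hNF : 4 ≤ m → m + 1 < NF m (hh m) + hh m := by
    intro h4
    rcases Nat.le_one_iff_eq_zero_or_eq_one.mp hu with h | h
    · obtain rfl : m = 2 * g := by omega
      have hg2 : 2 ≤ g := by omega
      rw [hh_even, NF_even]
      nlinarith
    · obtain rfl : m = 2 * g + 1 := by omega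
      rw [hh_odd, NF_odd]
      nlinarith
  have hnoQ : ∀ z ∈ bdR (r2 (2 * m) N), ¬ ((∃ x, QdM m N θ x ∧ 4 ≤ m ∧ Pend z x) ∧
      Num m N θ z 1 (m + 1) 1 2) := by
    rintro z0 hz0 ⟨⟨x0, hx0, h4, hp0⟩, hn0⟩
    have h5 := hNF h4
    refine W.kill (n := m + 1) (by omega) ?_ 1 one_ne_zero 1 le_rfl ?_ ?_ z0 hz0 hn0.cst (by
      rw [hn0.lab]; exact hn0.drop)
    · intro z hz
      rcases hrow z hz with h | ⟨-, h⟩ | h | ⟨-, -, h⟩
      · omega
      · rw [h.cst]
      · rw [h.cst]; omega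
      · rw [h]; omega
    · intro z hz hc
      rcases hrow z hz with h | ⟨-, h⟩ | h | ⟨-, -, h⟩
      · omega
      · rw [h.lab]; exact h.drop.le
      · rw [h.cst] at hc; omega
      · rw [h] at hc; omega
    · intro z hz hc _
      rcases hrow z hz with h | ⟨-, h⟩ | h | ⟨-, -, h⟩
      · omega
      · rw [h.nst]; norm_num
      · rw [h.cst] at hc; omega
      · rw [h] at hc; omega
  -- no pendants below fold ends
  have hnoF : ∀ z ∈ bdR (r2 (2 * m) N), ¬ Num m N θ z (hh m) (NF m (hh m) + hh m) 1 (sgF m) := by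
    intro z0 hz0 hn0
    refine W.kill (n := NF m (hh m) + hh m) (by omega) ?_ ((-1) ^ sgF m)
      (pow_ne_zero _ (by norm_num)) 1 le_rfl ?_ ?_ z0 hz0 hn0.cst (by
      rw [hn0.lab]; exact hn0.drop)
    · intro z hz
      rcases hrow z hz with h | h | h | ⟨-, -, h⟩
      · omega
      · exact absurd h (hnoQ z hz)
      · rw [h.cst]
      · rw [h]; omega
    · intro z hz hc
      rcases hrow z hz with h | h | h | ⟨-, -, h⟩
      · omega
      · exact absurd h (hnoQ z hz)
      · rw [h.lab]; exact h.drop.le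
      · rw [h] at hc; omega
    · intro z hz hc _
      rcases hrow z hz with h | h | h | ⟨-, -, h⟩
      · omega
      · exact absurd h (hnoQ z hz)
      · rw [h.nst]
      · rw [h] at hc; omega
  choose B hB using W.natTop
  by_cases hl : lev z = 2 * m + 1
  · left
    refine (Nat.le_add_right _ _).trans_lt (cc_dead H hB (fun x hx => W.lt_lev hx) hmu hu hg
      (fun h => ?_) W.sum_b W.farT (by omega) (fun z hz => ?_) z (W.mem_bd hz hl))
    · omega
    · rcases hrow z hz with h | h | h | ⟨h1, h2, -⟩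
      · left; omega
      · exact absurd h (hnoQ z hz)
      · exact absurd h (hnoF z hz)
      · exact Or.inr ⟨h1, h2⟩
  · exact Or.inr hl

end Pool.Agent.GaussPoset

end

/-! From `Pool.Agent.W_448cc7_h94.CsA` -/

section

/-!
Case B: the natural system at window `m`, level `2 m`, the other components may have natural
elements of the level `2 m + 1` with twins (after `FcS` of helper67).
-/

namespace Pool.Agent.GaussPoset.Cs

set_option linter.unusedSectionVars false

open Polynomial Finset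

universe u

variable {P : Type u} [Fintype P] [PartialOrder P] [DecidableEq P] {r m K : ℕ}
  {N : Tops P → Finset P} {b : Tops P → ℕ} {θ : Tops P → P → ℕ}

/-- the types at window `m` -/
inductive TyG (m K : ℕ) (N : Tops P → Finset P) (t : Tops P) (b : ℕ) (θ : P → ℕ) : Prop
  | light (h1 : N t = onlyB t) (h2 : θ = fun x => lev x - m) (h3 : b = 1)
      (h6 : ∃ x ≤ (t : P), lev x = m)
  | rect (Nc : Finset P) (co : P → ℕ × ℕ) (h0 : RectNat (2 * m) m t b Nc co)
      (h1 : N t = natR Nc co) (h2 : θ = thR m b Nc co) (h3 : NopT m t)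
  | stair (Nc : Finset P) (co : P → ℕ × ℕ) (h0 : StairNat (2 * m) m t Nc co)
      (h1 : N t = natS Nc co) (h2 : θ = thS m Nc co) (h3 : b = m / 2 + 1) (h4 : NopT m t)
  | quad (h1 : N t = lowPart (2 * m) (t : P)) (h2 : θ = fun _ => 0) (h3 : b = 2)
      (h4 : QInf m m t) (h5 : 4 ≤ m)
  | oth (h1 : ∃ B, NatTop m t b (N t) θ B) (h2 : lowPart (2 * m) (t : P) ⊆ N t)
      (h3 : ∀ z ∈ r2 (2 * m) N, ∀ x ∈ N t, lev z = 2 * m + 1 → z ⋖ x → K ≤ ct m (θ x + 1) z)
      (h4 : ∀ x ∈ N t, 2 * m + 1 ≤ lev x → K ≤ ct m (θ x + 1) x + (θ x + 1))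
      (h5 : ∀ x ∈ N t, lev x = 2 * m + 1 → 1 ≤ θ x ∧ θ x ≤ m)

/-- the context: no element of level `2 m + 1` is below two tops -/
structure WG (r m K : ℕ) (N : Tops P → Finset P) (b : Tops P → ℕ) (θ : Tops P → P → ℕ) :
    Prop where
  gt : Win.GoodTo P r (2 * m)
  two : 2 ≤ m
  typ : ∀ t, TyG m K N t (b t) (θ t)
  sum_b : ∑ t, b t = (lv P m).card
  nj : ∀ z : P, lev z = 2 * m + 1 → ¬ Hul.Jn z
  kap0 : KapS m K
  K_le : K ≤ (m + 1) ^ 2

lemma WG.lowOnly (W : WG r m K N b θ) {t : Tops P} {x : P} (hx : x ≤ (t : P))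
    (hl : lev x ≤ 2 * m + 1) : x ∈ onlyB t := by
  rw [mem_onlyB]
  intro s hs hxs
  by_contra hne
  rcases Nat.lt_or_ge (2 * m) (lev x) with h | h
  · exact W.nj x (by omega) ⟨s, t, hs, t.2, hne, hxs, hx⟩
  · exact hne (Cp.top_eq W.gt.H W.gt.good h hs t.2 hxs hx)

lemma WG.lowUp (W : WG r m K N b θ) (t : Tops P) :
    ∀ x ∈ lowPart (2 * m) (t : P), ∀ y, x ≤ y → y ∈ lowPart (2 * m) (t : P) := by
  intro x hx y hxy
  rw [mem_lowPart] at hx ⊢
  refine ⟨Cp.up_le W.gt.H W.gt.good t.2 hx.1 hx.2 hxy, ?_⟩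
  rcases eq_or_lt_of_le hxy with h | h
  · rw [← h]; exact hx.2
  · have := lev_strictAnti h; omega

theorem WG.natTop (W : WG r m K N b θ) (t : Tops P) : ∃ B, NatTop m t (b t) (N t) (θ t) B := by
  have hm := W.two
  have hgr := W.gt.H.gradedBelow
  rcases W.typ t with ⟨h1, h2, h3, h6⟩ | ⟨Nc, co, h0, h1, h2, h3⟩ |
    ⟨Nc, co, h0, h1, h2, h3, h4⟩ | ⟨h1, h2, h3, h4, h5⟩ | ⟨h1, -, -, -, -⟩
  · rw [h1, h2, h3]
    exact ⟨_, natTop_light hgr (fun x hx hxi => W.lowOnly hx (by omega)) h6⟩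
  · rw [h1, h2]
    exact ⟨_, h0.natTop hgr (by omega)⟩
  · rw [h1, h2, h3]
    exact ⟨_, h0.natTop hgr (by omega) (by omega)⟩
  · rw [h1, h2, h3]
    exact ⟨_, natTop_quad (by omega) (dvd_W_Qd m) h4 (W.lowUp t)⟩
  · exact h1

lemma WG.natSys (W : WG r m K N b θ) : NatSys N := by
  choose B hB using W.natTop
  exact natSys_of_tops hB

lemma WG.low (W : WG r m K N b θ) {x : P} (hx : lev x ≤ 2 * m) : x ∉ unnat N := by
  intro h
  refine mem_unnat.mp h (topOf x) ?_
  rcases W.typ (topOf x) with ⟨h1, h2, h3, h6⟩ | ⟨Nc, co, h0, h1, h2, h3⟩ |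
    ⟨Nc, co, h0, h1, h2, h3, h4⟩ | ⟨h1, -, -, -, -⟩ | ⟨-, h2, -, -⟩
  · rw [h1]; exact W.lowOnly (le_topOf x) (by omega)
  · rw [h1]; exact mem_natR.mpr (Or.inl (h0.strip (mem_lowPart.mpr ⟨le_topOf x, hx⟩)))
  · rw [h1]; exact mem_natS.mpr (Or.inl (h0.strip (mem_lowPart.mpr ⟨le_topOf x, hx⟩)))
  · rw [h1]; exact mem_lowPart.mpr ⟨le_topOf x, hx⟩
  · exact h2 (mem_lowPart.mpr ⟨le_topOf x, hx⟩)

lemma WG.lt_lev (W : WG r m K N b θ) {x : P} (hx : x ∈ unnat N) : 2 * m < lev x := by
  by_contra hcon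
  exact W.low (not_lt.mp hcon) hx

/-- elements of the other components -/
structure OthM (m K : ℕ) (N : Tops P → Finset P) (θ : Tops P → P → ℕ) (x : P) : Prop where
  mem : x ∈ N (topOf x)
  cost : ∀ z ∈ r2 (2 * m) N, ∀ y ∈ N (topOf x), lev z = 2 * m + 1 → z ⋖ y →
    K ≤ ct m (θ (topOf x) y + 1) z
  kap : ∀ y ∈ N (topOf x), 2 * m + 1 ≤ lev y →
    K ≤ ct m (θ (topOf x) y + 1) y + (θ (topOf x) y + 1)
  th : ∀ y ∈ N (topOf x), lev y = 2 * m + 1 → 1 ≤ θ (topOf x) y ∧ θ (topOf x) y ≤ m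

/-- the kinds of natural elements -/
theorem WG.cases (W : WG r m K N b θ) {x : P} (hx : x ∉ unnat N) : FullM m N θ x ∨
    (∃ Nc co, InRM m N b θ x Nc co) ∨ (∃ Nc co, InSM m N b θ x Nc co) ∨
      (QdM m N θ x ∧ 4 ≤ m) ∨ OthM m K N θ x := by
  have H := W.gt.H
  have HN := W.natSys
  have hxt : x ∈ N (topOf x) := HN.mem_iff.mpr ⟨hx, rfl⟩
  have hm := W.two
  have hT := W.typ (topOf x)
  generalize ht : topOf x = t at hxt hT
  rcases hT with ⟨h1, h2, h3, h6⟩ | ⟨Nc, co, h0, h1, h2, h3⟩ |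
    ⟨Nc, co, h0, h1, h2, h3, h4⟩ | ⟨h1, h2, h3, h4, h5⟩ | ⟨h1, h2, h3, h4, h5⟩
  · left
    have hs : ∀ z ∈ unnat N, ∃ s : P, lev s = 0 ∧ z ≤ s ∧ s ≠ t := by
      intro z hz
      have h7 : z ∉ onlyB t := by
        rw [← h1]
        exact mem_unnat.mp hz t
      rw [mem_onlyB] at h7
      push Not at h7
      exact h7
    refine ⟨by rw [ht, h2], ?_, ?_⟩
    · intro z hz hzx k _ hk
      obtain ⟨s, hs1, hs2, hs3⟩ := hs z hz
      exact two_le_nab_join HN H.gradedBelow hxt hzx hs1 hs3 hs2 hk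
    · intro z hz h
      obtain ⟨s, hs1, hs2, hs3⟩ := hs z hz
      have h7 := W.lt_lev hz
      have h8 : z < s := lt_of_le_of_ne hs2 (by rintro rfl; omega)
      exact hs3 (HN.top_eq hxt hs1 ((h s).mpr h8).le)
  · -- rectangles
    by_cases hJ : x ∈ junk (fun _ => True) Nc co ∨ x ∈ junk (fun _ => True) Nc (swp co)
    · left
      refine ⟨?_, ?_, ?_⟩
      · rw [ht, h2]
        unfold thR
        rw [if_pos hJ]
      · intro z hz hzx k hk hkx
        refine rect_two_le_nab H h0 h1 hz hzx ?_ (by omega) hkx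
        rcases hJ with h | h
        · exact Or.inl h
        · exact Or.inr (Or.inl h)
      · intro z hz h
        refine mem_unnat.mp hz t ?_
        rw [h1, mem_natR]
        rcases hJ with h' | h'
        · exact Or.inr (Or.inl (junk_twin h' h))
        · exact Or.inr (Or.inr (junk_twin h' h))
    · have hxN : x ∈ Nc := by
        rw [h1, mem_natR] at hxt
        rcases hxt with h | h | h
        · exact h
        · exact absurd (Or.inl h) hJ
        · exact absurd (Or.inr h) hJ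
      have hl := h0.chart.lev x hxN
      have hb1 := h0.b_two
      have hb2 := h0.b_le
      have hrow : b t = m + 1 ∨ (co x).1 ≤ b t - 1 := by
        rcases h0.rows with h | h
        · exact Or.inl h
        · exact Or.inr (h x hxN)
      by_cases h7 : (co x).1 = 0 ∨ (co x).2 = 0
      · left
        refine ⟨?_, ?_, ?_⟩
        · rw [ht, h2]
          unfold thR
          rw [if_neg hJ]
          omega
        · intro z hz hzx k hk hkx
          exact rect_two_le_nab H h0 h1 hz hzx (Or.inr (Or.inr ⟨hxN, h7⟩)) (by omega) hkx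
        · intro z hz h
          have h8 := W.lt_lev hz
          rw [← lev_eq_of_up h] at h8
          rcases h7 with h7 | h7
          · obtain ⟨u, hu, hcu⟩ := h0.chart.low x hxN (0, (co x).2 - 1)
              ⟨Nat.zero_le _, Nat.sub_le _ _⟩ trivial
            refine straight_twin H h0 h1 hxN hu ?_ ?_ ?_ hz h
            · rw [hcu]
              exact Or.inr ⟨by simp only; omega, by simp only; omega⟩
            · intro y hy hp
              rw [hcu]
              rcases hp with hp | hp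
              · omega
              · exact Prod.ext (by simp only; omega) (by simp only; omega)
            · rw [hcu]
              exact Or.inl rfl
          · obtain ⟨u, hu, hcu⟩ := h0.chart.low x hxN ((co x).1 - 1, 0)
              ⟨Nat.sub_le _ _, Nat.zero_le _⟩ trivial
            refine straight_twin H h0 h1 hxN hu ?_ ?_ ?_ hz h
            · rw [hcu]
              exact Or.inl ⟨by simp only; omega, by simp only; omega⟩
            · intro y hy hp
              rw [hcu]
              rcases hp with hp | hp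
              · exact Prod.ext (by simp only; omega) (by simp only; omega)
              · omega
            · rw [hcu]
              exact Or.inr rfl
      · right; left
        refine ⟨Nc, co, ?_, ?_, hxN, by omega, by omega, ?_, ?_⟩
        · rw [ht]; exact h0
        · rw [ht]; exact h1
        · rw [ht, h2]
          unfold thR
          rw [if_neg hJ]
          omega
        · rw [ht]; exact h3
  · -- stairs
    by_cases hJ : x ∈ junk (fun c => c.1 ≤ c.2) Nc co
    · left
      refine ⟨?_, ?_, ?_⟩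
      · rw [ht, h2]
        unfold thS
        rw [if_pos hJ]
      · intro z hz hzx k hk hkx
        exact stair_two_le_nab H h0 h1 hz hzx (Or.inl hJ) hk hkx
      · intro z hz h
        refine mem_unnat.mp hz t ?_
        rw [h1, mem_natS]
        exact Or.inr (junk_twin hJ h)
    · have hxN : x ∈ Nc := by
        rw [h1, mem_natS] at hxt
        rcases hxt with h | h
        · exact h
        · exact absurd h hJ
      have hl := h0.chart.lev x hxN
      by_cases h7 : (co x).1 = 0
      · left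
        refine ⟨?_, ?_, ?_⟩
        · rw [ht, h2]
          unfold thS
          rw [if_neg hJ]
          omega
        · intro z hz hzx k hk hkx
          exact stair_two_le_nab H h0 h1 hz hzx (Or.inr ⟨hxN, h7⟩) hk hkx
        · intro z hz h
          have h8 := W.lt_lev hz
          rw [← lev_eq_of_up h] at h8
          obtain ⟨u, hu, hcu⟩ := h0.chart.low x hxN (0, (co x).2 - 1)
            ⟨Nat.zero_le _, Nat.sub_le _ _⟩ (Nat.zero_le _)
          refine straight_twinS H h0 (by omega) h1 hxN hu ?_ ?_ ?_ hz h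
          · rw [hcu]
            exact Or.inr ⟨by simp only; omega, by simp only; omega⟩
          · intro y hy hp
            rw [hcu]
            rcases hp with hp | hp
            · omega
            · exact Prod.ext (by simp only; omega) (by simp only; omega)
          · rw [hcu]
      · right; right; left
        refine ⟨Nc, co, ?_, ?_, hxN, by omega, ?_, ?_⟩
        · rw [ht]; exact h0
        · rw [ht]; exact h1
        · rw [ht, h2]
          unfold thS
          rw [if_neg hJ]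
        · rw [ht]; exact h4
  · right; right; right; left
    rw [h1, mem_lowPart] at hxt
    exact ⟨⟨by rw [ht]; exact h1, by rw [ht, h2], hxt.2, by rw [ht]; exact h4⟩, h5⟩
  · right; right; right; right
    subst ht
    exact ⟨hxt, h3, h4, h5⟩

end Pool.Agent.GaussPoset.Cs

end

/-! From `Pool.Agent.W_448cc7_h94.CsC` -/

section

/-!
Case B at window `m`: the unnatural elements of level `2 m + 1` (after `FcU` of helper67).
-/

namespace Pool.Agent.GaussPoset.Cs

set_option linter.unusedSectionVars false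

open Polynomial Finset

universe u

variable {P : Type u} [Fintype P] [PartialOrder P] [DecidableEq P] {r m K : ℕ}
  {N : Tops P → Finset P} {b : Tops P → ℕ} {θ : Tops P → P → ℕ}

/-- no joins: all elements above have the same top -/
lemma WG.top_cov (W : WG r m K N b θ) {z x : P} (hl : lev z = 2 * m + 1) (hzx : z ⋖ x) :
    topOf x = topOf z := by
  by_contra hne
  refine W.nj z hl ⟨topOf x, topOf z, (topOf x).2, (topOf z).2, fun h => hne (Subtype.ext h), ?_,
    le_topOf z⟩
  exact hzx.le.trans (le_topOf x)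

/-- the label of a boundary element of level `2 m + 1` -/
lemma WG.h2_eq (W : WG r m K N b θ) {z x : P} (hz : z ∈ r2 (2 * m) N) (hl : lev z = 2 * m + 1)
    (hzx : z ⋖ x) (hmin : ∀ y, z ⋖ y → θ (topOf x) x ≤ θ (topOf y) y) :
    h2 (2 * m) N θ z = θ (topOf x) x + 1 := by
  classical
  have H := W.gt.H
  have hlev : ∀ y, z ⋖ y → lev y = 2 * m := by
    intro y hy
    have := (H.covBy_iff.mp hy).2
    omega
  have hnY : ∀ y, z ⋖ y → y ∉ twY (2 * m) N := by
    intro y hy h
    have h1 := hlev y hy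
    have h2 := (mem_twY.mp h).2.1
    omega
  have hnR : ∀ y, z ⋖ y → y ∉ r2 (2 * m) N := fun y hy h =>
    W.low (hlev y hy).le (mem_sdiff.mp h).1
  have hbd : z ∈ bdR (r2 (2 * m) N) := mem_filter.mpr ⟨hz, x, hnR x hzx, hzx⟩
  refine le_antisymm ?_ ?_
  · refine (hcan_le (θ := thX (twY (2 * m) N) (twT N) (fun x => θ (topOf x) x)) (hnR x hzx)
      hzx).trans ?_
    rw [thX_not (hnY x hzx)]
  · obtain ⟨y, hy, hzy, hh⟩ := hcan_spec
      (θ := thX (twY (2 * m) N) (twT N) (fun x => θ (topOf x) x)) hbd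
    rw [thX_not (hnY y hzy)] at hh
    have h3 := hmin y hzy
    show _ ≤ hcan _ _ z
    omega

/-- a cover which gives the label -/
lemma WG.exists_lab (W : WG r m K N b θ) {z : P} (hz : z ∈ r2 (2 * m) N)
    (hl : lev z = 2 * m + 1) : ∃ x, z ⋖ x ∧ h2 (2 * m) N θ z = θ (topOf x) x + 1 := by
  classical
  have hzt : z < (topOf z : P) := lt_of_le_of_ne (le_topOf z) (by
    intro h
    have := (topOf z).2
    rw [← h] at this
    omega)
  obtain ⟨x0, hzx0, -⟩ := Hul.exists_cov hzt
  obtain ⟨x, hx, hmin⟩ := Finset.exists_min_image (univ.filter (fun y : P => z ⋖ y))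
    (fun y => θ (topOf y) y) ⟨x0, by simp [hzx0]⟩
  rw [mem_filter] at hx
  exact ⟨x, hx.2, W.h2_eq hz hl hx.2 fun y hy => hmin y (by simp [hy])⟩

lemma WG.mem_bd (W : WG r m K N b θ) {z : P} (hz : z ∈ r2 (2 * m) N) (hl : lev z = 2 * m + 1) :
    z ∈ bdR (r2 (2 * m) N) := by
  classical
  have hzt : z < (topOf z : P) := lt_of_le_of_ne (le_topOf z) (by
    intro h
    have := (topOf z).2
    rw [← h] at this
    omega)
  obtain ⟨x, hzx, -⟩ := Hul.exists_cov hzt
  refine mem_filter.mpr ⟨hz, x, fun h => ?_, hzx⟩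
  have h1 := (W.gt.H.covBy_iff.mp hzx).2
  exact W.low (by omega) (mem_sdiff.mp h).1

/-- all covers have full thresholds: large cost -/
lemma WG.cst_full (W : WG r m K N b θ) {z : P} (hz : z ∈ r2 (2 * m) N) (hl : lev z = 2 * m + 1)
    (h : ∀ x, z ⋖ x → FullM m N θ x) : (m + 1) ^ 2 ≤ cst m (h2 (2 * m) N θ) z := by
  have hm := W.two
  obtain ⟨x, hzx, h3⟩ := W.exists_lab hz hl
  have hlev : lev x = 2 * m := by
    have := (W.gt.H.covBy_iff.mp hzx).2
    omega
  rw [(h x hzx).th, hlev] at h3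
  have h4 := sq_le_cst (i := m) (h := h2 (2 * m) N θ) (z := z) (by omega)
    (by rw [h3]; omega) (by
      intro k hk hk2
      exact (h x hzx).two z (mem_sdiff.mp hz).1 hzx.le k (by omega) (by rw [hlev]; omega))
  rwa [hl, show 2 * m + 1 - m = m + 1 by omega] at h4

/-- the kinds of elements of level `2 m` -/
theorem WG.kind (W : WG r m K N b θ) {x : P} (hl : lev x = 2 * m) :
    FullM m N θ x ∨ FoldM m N b θ x ∨ (QdM m N θ x ∧ 4 ≤ m) ∨ OthM m K N θ x ∨
      ((Win.uc x).card = 2 ∧ NopT m (topOf x)) := by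
  have H := W.gt.H
  have hm := W.two
  rcases W.cases (W.low hl.le) with h | ⟨Nc, co, h⟩ | ⟨Nc, co, h⟩ | h | h
  · exact Or.inl h
  · exact Or.inr (Or.inr (Or.inr (Or.inr
      ⟨chart_inner_uc h.rect.chart H h.mem h.fst h.snd, h.nop⟩)))
  · have h1 := h.stair.chart.lev x h.mem
    have h2 : (co x).1 ≤ (co x).2 := h.stair.chart.mem x h.mem
    by_cases h3 : (co x).1 = m
    · exact Or.inr (Or.inl ⟨Nc, co, h, Prod.ext h3 (by simp only; omega)⟩)
    · exact Or.inr (Or.inr (Or.inr (Or.inr ⟨chartS_inner_uc h.stair.chart H h.mem h.fst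
        (by omega), h.nop⟩)))
  · exact Or.inr (Or.inr (Or.inl h))
  · exact Or.inr (Or.inr (Or.inr (Or.inl h)))

/-- the unnatural elements of level `2 m + 1` which are no twins -/
inductive KG (m K : ℕ) (N : Tops P → Finset P) (b : Tops P → ℕ) (θ : Tops P → P → ℕ) (z : P) :
    Prop
  | high (h : K ≤ cst m (h2 (2 * m) N θ) z)
  | penQ (x : P) (hx : QdM m N θ x) (hm : 4 ≤ m) (hp : Pend z x)
  | penF (x : P) (hx : FoldM m N b θ x) (hp : Pend z x)
  | cc (h : CcM m N b θ z) (h' : ∀ y, z ⋖ y → ¬ OthM m K N θ y)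

lemma WG.oth_high (W : WG r m K N b θ) {z x : P} (hz : z ∈ r2 (2 * m) N)
    (hl : lev z = 2 * m + 1) (hzx : z ⋖ x) (hO : OthM m K N θ x) :
    K ≤ cst m (h2 (2 * m) N θ) z := by
  obtain ⟨y, hzy, hh⟩ := W.exists_lab hz hl
  have h1 : topOf y = topOf x := (W.top_cov hl hzy).trans (W.top_cov hl hzx).symm
  have hly : lev y = 2 * m := by
    have := (W.gt.H.covBy_iff.mp hzy).2
    omega
  have hyN : y ∈ N (topOf x) := by
    rw [← h1]
    exact W.natSys.mem_iff.mpr ⟨W.low hly.le, rfl⟩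
  rw [cst_ct hh, h1]
  exact hO.cost z hz y hyN hl hzy

/-- two neighbours of the level `2 m`: the element is natural or a twin -/
lemma WG.near (W : WG r m K N b θ) {z x x' : P} (hz : z ∈ r2 (2 * m) N) (hl : lev z = 2 * m + 1)
    (hO : ∀ y, z ⋖ y → ¬ OthM m K N θ y)
    (hzx : z ⋖ x) (hzx' : z ⋖ x') (hne : x ≠ x') (h1 : ucv x x' = 1) : False := by
  classical
  have H := W.gt.H
  have HN := W.natSys
  have hm := W.two
  have hlx : lev x = 2 * m := by
    have := (H.covBy_iff.mp hzx).2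
    omega
  have hlx' : lev x' = 2 * m := by
    have := (H.covBy_iff.mp hzx').2
    omega
  rw [r2, mem_sdiff] at hz
  have hzU := hz.1
  obtain ⟨p, hp⟩ := Finset.card_eq_one.mp h1
  have hp2 : x ⋖ p ∧ x' ⋖ p := by
    have : p ∈ (univ.filter (fun y : P => x ⋖ y ∧ x' ⋖ y)) := by rw [hp]; simp
    simpa using this
  have hxt : topOf x = topOf z := W.top_cov hl hzx
  have hxt' : topOf x' = topOf z := W.top_cov hl hzx'
  have hxle : x ≤ (topOf z : P) := by rw [← hxt]; exact le_topOf x
  have hxle' : x' ≤ (topOf z : P) := by rw [← hxt']; exact le_topOf x'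
  have twin : ∀ y : P, y ∉ unnat N → y ⋖ x → y ⋖ x' → False := fun y hy hyx hyx' =>
    hz.2 (mem_twY.mpr ⟨hzU, hl, y, hy, up_of_pair H hzx hzx' hyx hyx' hne⟩)
  rcases W.typ (topOf z) with ⟨g1, g2, g3, g6⟩ | ⟨Nc, co, g0, g1, g2, g3⟩ |
    ⟨Nc, co, g0, g1, g2, g3, g4⟩ | ⟨g1, g2, g3, g4, g5⟩ | ⟨g1, g2, g3, g4, g5⟩
  · refine mem_unnat.mp hzU (topOf z) ?_
    rw [g1]
    exact W.lowOnly (le_topOf z) (by omega)
  · have hx : x ∈ Nc := g0.strip (mem_lowPart.mpr ⟨hxle, hlx.le⟩)
    have hx' : x' ∈ Nc := g0.strip (mem_lowPart.mpr ⟨hxle', hlx'.le⟩)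
    have hzN : z ∉ Nc := fun h => mem_unnat.mp hzU (topOf z) (by
      rw [g1]
      exact mem_natR.mpr (Or.inl h))
    obtain ⟨y, hy, hyx, hyx'⟩ := near_chart H g0.chart g0.max (fun _ _ _ => trivial) hx hx' hp2.1
      hp2.2 hzx hzx' hne hzN
    refine twin y (HN.mem_iff (t := topOf z).mp ?_).1 hyx hyx'
    rw [g1]
    exact mem_natR.mpr (Or.inl hy)
  · have hx : x ∈ Nc := g0.strip (mem_lowPart.mpr ⟨hxle, hlx.le⟩)
    have hx' : x' ∈ Nc := g0.strip (mem_lowPart.mpr ⟨hxle', hlx'.le⟩)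
    have hzN : z ∉ Nc := fun h => mem_unnat.mp hzU (topOf z) (by
      rw [g1]
      exact mem_natS.mpr (Or.inl h))
    obtain ⟨y, hy, hyx, hyx'⟩ := near_chart H g0.chart g0.max
      (fun s c (h : s + 1 ≤ c) => show s + 1 ≤ c + 1 by omega) hx hx' hp2.1 hp2.2 hzx hzx' hne hzN
    refine twin y (HN.mem_iff (t := topOf z).mp ?_).1 hyx hyx'
    rw [g1]
    exact mem_natS.mpr (Or.inl hy)
  · exact hne (g4.unique hxle hxle' hlx hlx')
  · refine hO x hzx ⟨HN.mem_iff.mpr ⟨W.low hlx.le, rfl⟩, ?_, ?_, ?_⟩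
    · rw [hxt]; exact g3
    · rw [hxt]; exact g4
    · rw [hxt]; exact g5

/-- a single-up element of level `2 m` of the stair of a fold end -/
lemma WG.stair_single (W : WG r m K N b θ) {x x' : P} {Nc : Finset P} {co : P → ℕ × ℕ}
    (h : InSM m N b θ x Nc co) (hcx : co x = (m, m)) (hlx' : lev x' = 2 * m)
    (hxt : topOf x' = topOf x) (hne : x ≠ x') (h1 : (Win.uc x').card = 1) :
    x' ∈ Nc ∧ co x' = (0, 2 * m) := by
  have hx' : x' ∈ Nc := h.stair.strip (mem_lowPart.mpr ⟨by rw [← hxt]; exact le_topOf x',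
    hlx'.le⟩)
  refine ⟨hx', ?_⟩
  have h2 := h.stair.chart.lev x' hx'
  have h3 : (co x').1 ≤ (co x').2 := h.stair.chart.mem x' hx'
  by_cases h4 : (co x').1 = 0
  · exact Prod.ext h4 (by simp only; omega)
  · exfalso
    by_cases h5 : (co x').1 = (co x').2
    · exact hne (h.stair.chart.inj x h.mem x' hx' (by
        rw [hcx]
        exact Prod.ext (by simp only; omega) (by simp only; omega)))
    · have := chartS_inner_uc h.stair.chart W.gt.H hx' (by omega) (by omega)
      omega

/-- the classification -/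
theorem WG.class (W : WG r m K N b θ) {z : P} (hz : z ∈ r2 (2 * m) N)
    (hl : lev z = 2 * m + 1) : KG m K N b θ z := by
  classical
  have H := W.gt.H
  have HN := W.natSys
  have hm := W.two
  by_cases hO : ∃ y, z ⋖ y ∧ OthM m K N θ y
  · obtain ⟨y, hzy, hy⟩ := hO
    exact KG.high (W.oth_high hz hl hzy hy)
  have hO' : ∀ y, z ⋖ y → ¬ OthM m K N θ y := fun y hy h => hO ⟨y, hy, h⟩
  have hfull : (∀ x, z ⋖ x → FullM m N θ x) → KG m K N b θ z := fun h =>
    KG.high (W.K_le.trans (W.cst_full hz hl h))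
  have hzt : z < (topOf z : P) := lt_of_le_of_ne (le_topOf z) (by
    intro h
    have := (topOf z).2
    rw [← h] at this
    omega)
  obtain ⟨x, hzx, hxt⟩ := Hul.exists_cov hzt
  have hlev : ∀ y, z ⋖ y → lev y = 2 * m := by
    intro y hy
    have := (H.covBy_iff.mp hy).2
    omega
  have hlx := hlev x hzx
  by_cases honly : ∀ y, z ⋖ y → y = x
  · rcases W.kind hlx with h | h | h | h | h
    · refine hfull fun y hy => ?_
      rw [honly y hy]
      exact h
    · exact KG.penF x h ⟨hzx, honly⟩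
    · exact KG.penQ x h.1 h.2 ⟨hzx, honly⟩
    · exact absurd h (hO' x hzx)
    · exact absurd honly (h.2 x z (le_topOf x) hlx h.1 hzx)
  · push Not at honly
    obtain ⟨x', hzx', hne'⟩ := honly
    have hne : x ≠ x' := Ne.symm hne'
    have hlx' := hlev x' hzx'
    obtain ⟨i, hi⟩ : ∃ i, 2 * m = i + 1 := ⟨2 * m - 1, by omega⟩
    have hgt := W.gt
    rw [hi] at hgt
    have ht : topOf x = topOf x' := (W.top_cov hl hzx).trans (W.top_cov hl hzx').symm
    rcases (Win.near_level' hgt (by omega)).1 z x x' (by omega) hzx hzx' hne with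
      h7 | ⟨h7, h8, -⟩
    · exact (W.near hz hl hO' hzx hzx' hne h7).elim
    · have hQ : ∀ y, z ⋖ y → ¬ QdM m N θ y := by
        intro y hy hQ
        have hty : topOf y = topOf x := by
          rcases uc_pair H hzx hzx' hne hy with h | h
          · rw [h]
          · rw [h, ht]
        have hy1 : x ≤ (topOf y : P) := by rw [hty]; exact le_topOf x
        have hy2 : x' ≤ (topOf y : P) := by rw [hty, ht]; exact le_topOf x'
        exact hne (hQ.inf.unique hy1 hy2 hlx hlx')
      rcases W.kind hlx with h | ⟨Nc, co, h, hcx⟩ | h | h | h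
      · rcases W.kind hlx' with h' | ⟨Nc, co, h', hcx⟩ | h' | h' | h'
        · refine hfull fun y hy => ?_
          rcases uc_pair H hzx hzx' hne hy with e | e
          · rw [e]; exact h
          · rw [e]; exact h'
        · obtain ⟨h9, h10⟩ := W.stair_single h' hcx hlx ht hne' h7
          exact KG.cc ⟨hl, x', x, Nc, co, h', hcx, h9, h10, hzx', hzx⟩ hO'
        · exact absurd h'.1 (hQ x' hzx')
        · exact absurd h' (hO' x' hzx')
        · omega
      · obtain ⟨h9, h10⟩ := W.stair_single h hcx hlx' ht.symm hne h8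
        exact KG.cc ⟨hl, x, x', Nc, co, h, hcx, h9, h10, hzx, hzx'⟩ hO'
      · exact absurd h.1 (hQ x hzx)
      · exact absurd h (hO' x hzx)
      · omega

end Pool.Agent.GaussPoset.Cs

end

/-! From `Pool.Agent.W_448hcc_h53.HcB` -/

section

/-!
Case B: the natural system at window `m`, level `2 m`, strips with a pendant below the straight
end (MP_448cb3_co).
-/

namespace Pool.Agent.GaussPoset.Hc

set_option linter.unusedSectionVars false

open Polynomial Finset

universe u

variable {P : Type u} [Fintype P] [PartialOrder P] [DecidableEq P] {r m K : ℕ}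
  {N : Tops P → Finset P} {b : Tops P → ℕ} {θ : Tops P → P → ℕ}

/-- a pendant below an end with one element on every level above `m` -/
def QPn (m : ℕ) (θ : P → ℕ) (z x : P) : Prop :=
  lev x = 2 * m ∧ θ x = 0 ∧ Pend z x ∧ 4 ≤ m ∧
    ∀ u, u ≤ m → nab (m + u) x = if m + u = m then 2 else 1

/-- the types at window `m` -/
inductive TyH (m K : ℕ) (N : Tops P → Finset P) (t : Tops P) (b : ℕ) (θ : P → ℕ) : Prop
  | light (h1 : N t = onlyB t) (h2 : θ = fun x => lev x - m) (h3 : b = 1)
      (h6 : ∃ x ≤ (t : P), lev x = m)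
  | rect (Nc : Finset P) (co : P → ℕ × ℕ) (h0 : RectNat (2 * m) m t b Nc co)
      (h1 : N t = natR Nc co) (h2 : θ = thR m b Nc co) (h3 : NopT m t)
  | stair (Nc : Finset P) (co : P → ℕ × ℕ) (h0 : StairNat (2 * m) m t Nc co)
      (h1 : N t = natS Nc co) (h2 : θ = thS m Nc co) (h3 : b = m / 2 + 1) (h4 : NopT m t)
  | quad (h1 : N t = lowPart (2 * m) (t : P)) (h2 : θ = fun _ => 0) (h3 : b = 2)
      (h4 : QInf m m t) (h5 : 4 ≤ m)
  | oth (h1 : ∃ B, NatTop m t b (N t) θ B) (h2 : lowPart (2 * m) (t : P) ⊆ N t)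
      (h3 : ∀ z ∈ unnat N, ∀ x ∈ N t, z ⋖ x → K ≤ ct m (θ x + 1) z ∨ QPn m θ z x)
      (h4 : ∀ z ∈ unnat N, ∀ x ∈ N t, lev z = 2 * m + 1 → ¬ ∀ w, x < w ↔ z < w)

/-- the context: no element of level `2 m + 1` is below two tops -/
structure WH (r m K : ℕ) (N : Tops P → Finset P) (b : Tops P → ℕ) (θ : Tops P → P → ℕ) :
    Prop where
  gt : Win.GoodTo P r (2 * m)
  two : 2 ≤ m
  typ : ∀ t, TyH m K N t (b t) (θ t)
  sum_b : ∑ t, b t = (lv P m).card
  nj : ∀ z : P, lev z = 2 * m + 1 → ¬ Hul.Jn z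
  kap0 : KapS m K
  K_le : K ≤ (m + 1) ^ 2

lemma WH.lowOnly (W : WH r m K N b θ) {t : Tops P} {x : P} (hx : x ≤ (t : P))
    (hl : lev x ≤ 2 * m + 1) : x ∈ onlyB t := by
  rw [mem_onlyB]
  intro s hs hxs
  by_contra hne
  rcases Nat.lt_or_ge (2 * m) (lev x) with h | h
  · exact W.nj x (by omega) ⟨s, t, hs, t.2, hne, hxs, hx⟩
  · exact hne (Cp.top_eq W.gt.H W.gt.good h hs t.2 hxs hx)

lemma WH.lowUp (W : WH r m K N b θ) (t : Tops P) :
    ∀ x ∈ lowPart (2 * m) (t : P), ∀ y, x ≤ y → y ∈ lowPart (2 * m) (t : P) := by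
  intro x hx y hxy
  rw [mem_lowPart] at hx ⊢
  refine ⟨Cp.up_le W.gt.H W.gt.good t.2 hx.1 hx.2 hxy, ?_⟩
  rcases eq_or_lt_of_le hxy with h | h
  · rw [← h]; exact hx.2
  · have := lev_strictAnti h; omega

theorem WH.natTop (W : WH r m K N b θ) (t : Tops P) : ∃ B, NatTop m t (b t) (N t) (θ t) B := by
  have hm := W.two
  have hgr := W.gt.H.gradedBelow
  rcases W.typ t with ⟨h1, h2, h3, h6⟩ | ⟨Nc, co, h0, h1, h2, h3⟩ |
    ⟨Nc, co, h0, h1, h2, h3, h4⟩ | ⟨h1, h2, h3, h4, h5⟩ | ⟨h1, -, -, -⟩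
  · rw [h1, h2, h3]
    exact ⟨_, natTop_light hgr (fun x hx hxi => W.lowOnly hx (by omega)) h6⟩
  · rw [h1, h2]
    exact ⟨_, h0.natTop hgr (by omega)⟩
  · rw [h1, h2, h3]
    exact ⟨_, h0.natTop hgr (by omega) (by omega)⟩
  · rw [h1, h2, h3]
    exact ⟨_, natTop_quad (by omega) (dvd_W_Qd m) h4 (W.lowUp t)⟩
  · exact h1

lemma WH.natSys (W : WH r m K N b θ) : NatSys N := by
  choose B hB using W.natTop
  exact natSys_of_tops hB

lemma WH.low (W : WH r m K N b θ) {x : P} (hx : lev x ≤ 2 * m) : x ∉ unnat N := by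
  intro h
  refine mem_unnat.mp h (topOf x) ?_
  rcases W.typ (topOf x) with ⟨h1, h2, h3, h6⟩ | ⟨Nc, co, h0, h1, h2, h3⟩ |
    ⟨Nc, co, h0, h1, h2, h3, h4⟩ | ⟨h1, -, -, -, -⟩ | ⟨-, h2, -, -⟩
  · rw [h1]; exact W.lowOnly (le_topOf x) (by omega)
  · rw [h1]; exact mem_natR.mpr (Or.inl (h0.strip (mem_lowPart.mpr ⟨le_topOf x, hx⟩)))
  · rw [h1]; exact mem_natS.mpr (Or.inl (h0.strip (mem_lowPart.mpr ⟨le_topOf x, hx⟩)))
  · rw [h1]; exact mem_lowPart.mpr ⟨le_topOf x, hx⟩
  · exact h2 (mem_lowPart.mpr ⟨le_topOf x, hx⟩)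

lemma WH.lt_lev (W : WH r m K N b θ) {x : P} (hx : x ∈ unnat N) : 2 * m < lev x := by
  by_contra hcon
  exact W.low (not_lt.mp hcon) hx

/-- elements of the other components -/
structure OthH (m K : ℕ) (N : Tops P → Finset P) (θ : Tops P → P → ℕ) (x : P) : Prop where
  mem : x ∈ N (topOf x)
  cost : ∀ z ∈ unnat N, ∀ y ∈ N (topOf x), z ⋖ y →
    K ≤ ct m (θ (topOf x) y + 1) z ∨ QPn m (θ (topOf x)) z y
  tw : ∀ z ∈ unnat N, ∀ y ∈ N (topOf x), lev z = 2 * m + 1 → ¬ ∀ w, y < w ↔ z < w

/-- the kinds of natural elements -/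
theorem WH.cases (W : WH r m K N b θ) {x : P} (hx : x ∉ unnat N) : FullM m N θ x ∨
    (∃ Nc co, InRM m N b θ x Nc co) ∨ (∃ Nc co, InSM m N b θ x Nc co) ∨
      (QdM m N θ x ∧ 4 ≤ m) ∨ OthH m K N θ x := by
  have H := W.gt.H
  have HN := W.natSys
  have hxt : x ∈ N (topOf x) := HN.mem_iff.mpr ⟨hx, rfl⟩
  have hm := W.two
  have hT := W.typ (topOf x)
  generalize ht : topOf x = t at hxt hT
  rcases hT with ⟨h1, h2, h3, h6⟩ | ⟨Nc, co, h0, h1, h2, h3⟩ |
    ⟨Nc, co, h0, h1, h2, h3, h4⟩ | ⟨h1, h2, h3, h4, h5⟩ | ⟨h1, h2, h3, h4⟩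
  · left
    have hs : ∀ z ∈ unnat N, ∃ s : P, lev s = 0 ∧ z ≤ s ∧ s ≠ t := by
      intro z hz
      have h7 : z ∉ onlyB t := by
        rw [← h1]
        exact mem_unnat.mp hz t
      rw [mem_onlyB] at h7
      push Not at h7
      exact h7
    refine ⟨by rw [ht, h2], ?_, ?_⟩
    · intro z hz hzx k _ hk
      obtain ⟨s, hs1, hs2, hs3⟩ := hs z hz
      exact two_le_nab_join HN H.gradedBelow hxt hzx hs1 hs3 hs2 hk
    · intro z hz h
      obtain ⟨s, hs1, hs2, hs3⟩ := hs z hz
      have h7 := W.lt_lev hz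
      have h8 : z < s := lt_of_le_of_ne hs2 (by rintro rfl; omega)
      exact hs3 (HN.top_eq hxt hs1 ((h s).mpr h8).le)
  · -- rectangles
    by_cases hJ : x ∈ junk (fun _ => True) Nc co ∨ x ∈ junk (fun _ => True) Nc (swp co)
    · left
      refine ⟨?_, ?_, ?_⟩
      · rw [ht, h2]
        unfold thR
        rw [if_pos hJ]
      · intro z hz hzx k hk hkx
        refine rect_two_le_nab H h0 h1 hz hzx ?_ (by omega) hkx
        rcases hJ with h | h
        · exact Or.inl h
        · exact Or.inr (Or.inl h)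
      · intro z hz h
        refine mem_unnat.mp hz t ?_
        rw [h1, mem_natR]
        rcases hJ with h' | h'
        · exact Or.inr (Or.inl (junk_twin h' h))
        · exact Or.inr (Or.inr (junk_twin h' h))
    · have hxN : x ∈ Nc := by
        rw [h1, mem_natR] at hxt
        rcases hxt with h | h | h
        · exact h
        · exact absurd (Or.inl h) hJ
        · exact absurd (Or.inr h) hJ
      have hl := h0.chart.lev x hxN
      have hb1 := h0.b_two
      have hb2 := h0.b_le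
      have hrow : b t = m + 1 ∨ (co x).1 ≤ b t - 1 := by
        rcases h0.rows with h | h
        · exact Or.inl h
        · exact Or.inr (h x hxN)
      by_cases h7 : (co x).1 = 0 ∨ (co x).2 = 0
      · left
        refine ⟨?_, ?_, ?_⟩
        · rw [ht, h2]
          unfold thR
          rw [if_neg hJ]
          omega
        · intro z hz hzx k hk hkx
          exact rect_two_le_nab H h0 h1 hz hzx (Or.inr (Or.inr ⟨hxN, h7⟩)) (by omega) hkx
        · intro z hz h
          have h8 := W.lt_lev hz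
          rw [← lev_eq_of_up h] at h8
          rcases h7 with h7 | h7
          · obtain ⟨u, hu, hcu⟩ := h0.chart.low x hxN (0, (co x).2 - 1)
              ⟨Nat.zero_le _, Nat.sub_le _ _⟩ trivial
            refine straight_twin H h0 h1 hxN hu ?_ ?_ ?_ hz h
            · rw [hcu]
              exact Or.inr ⟨by simp only; omega, by simp only; omega⟩
            · intro y hy hp
              rw [hcu]
              rcases hp with hp | hp
              · omega
              · exact Prod.ext (by simp only; omega) (by simp only; omega)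
            · rw [hcu]
              exact Or.inl rfl
          · obtain ⟨u, hu, hcu⟩ := h0.chart.low x hxN ((co x).1 - 1, 0)
              ⟨Nat.sub_le _ _, Nat.zero_le _⟩ trivial
            refine straight_twin H h0 h1 hxN hu ?_ ?_ ?_ hz h
            · rw [hcu]
              exact Or.inl ⟨by simp only; omega, by simp only; omega⟩
            · intro y hy hp
              rw [hcu]
              rcases hp with hp | hp
              · exact Prod.ext (by simp only; omega) (by simp only; omega)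
              · omega
            · rw [hcu]
              exact Or.inr rfl
      · right; left
        refine ⟨Nc, co, ?_, ?_, hxN, by omega, by omega, ?_, ?_⟩
        · rw [ht]; exact h0
        · rw [ht]; exact h1
        · rw [ht, h2]
          unfold thR
          rw [if_neg hJ]
          omega
        · rw [ht]; exact h3
  · -- stairs
    by_cases hJ : x ∈ junk (fun c => c.1 ≤ c.2) Nc co
    · left
      refine ⟨?_, ?_, ?_⟩
      · rw [ht, h2]
        unfold thS
        rw [if_pos hJ]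
      · intro z hz hzx k hk hkx
        exact stair_two_le_nab H h0 h1 hz hzx (Or.inl hJ) hk hkx
      · intro z hz h
        refine mem_unnat.mp hz t ?_
        rw [h1, mem_natS]
        exact Or.inr (junk_twin hJ h)
    · have hxN : x ∈ Nc := by
        rw [h1, mem_natS] at hxt
        rcases hxt with h | h
        · exact h
        · exact absurd h hJ
      have hl := h0.chart.lev x hxN
      by_cases h7 : (co x).1 = 0
      · left
        refine ⟨?_, ?_, ?_⟩
        · rw [ht, h2]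
          unfold thS
          rw [if_neg hJ]
          omega
        · intro z hz hzx k hk hkx
          exact stair_two_le_nab H h0 h1 hz hzx (Or.inr ⟨hxN, h7⟩) hk hkx
        · intro z hz h
          have h8 := W.lt_lev hz
          rw [← lev_eq_of_up h] at h8
          obtain ⟨u, hu, hcu⟩ := h0.chart.low x hxN (0, (co x).2 - 1)
            ⟨Nat.zero_le _, Nat.sub_le _ _⟩ (Nat.zero_le _)
          refine straight_twinS H h0 (by omega) h1 hxN hu ?_ ?_ ?_ hz h
          · rw [hcu]
            exact Or.inr ⟨by simp only; omega, by simp only; omega⟩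
          · intro y hy hp
            rw [hcu]
            rcases hp with hp | hp
            · omega
            · exact Prod.ext (by simp only; omega) (by simp only; omega)
          · rw [hcu]
      · right; right; left
        refine ⟨Nc, co, ?_, ?_, hxN, by omega, ?_, ?_⟩
        · rw [ht]; exact h0
        · rw [ht]; exact h1
        · rw [ht, h2]
          unfold thS
          rw [if_neg hJ]
        · rw [ht]; exact h4
  · right; right; right; left
    rw [h1, mem_lowPart] at hxt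
    exact ⟨⟨by rw [ht]; exact h1, by rw [ht, h2], hxt.2, by rw [ht]; exact h4⟩, h5⟩
  · right; right; right; right
    subst ht
    exact ⟨hxt, h3, h4⟩

end Pool.Agent.GaussPoset.Hc

end

/-! From `Pool.Agent.W_448hcc_h53.HcD` -/

section

/-!
Case B at window `m`: the unnatural elements of level `2 m + 1`.
-/

namespace Pool.Agent.GaussPoset.Hc

set_option linter.unusedSectionVars false

open Polynomial Finset

universe u

variable {P : Type u} [Fintype P] [PartialOrder P] [DecidableEq P] {r m K : ℕ}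
  {N : Tops P → Finset P} {b : Tops P → ℕ} {θ : Tops P → P → ℕ}

/-- no joins: all elements above have the same top -/
lemma WH.top_cov (W : WH r m K N b θ) {z x : P} (hl : lev z = 2 * m + 1) (hzx : z ⋖ x) :
    topOf x = topOf z := by
  by_contra hne
  refine W.nj z hl ⟨topOf x, topOf z, (topOf x).2, (topOf z).2, fun h => hne (Subtype.ext h), ?_,
    le_topOf z⟩
  exact hzx.le.trans (le_topOf x)

/-- the label of a boundary element of level `2 m + 1` -/
lemma WH.h2_eq (W : WH r m K N b θ) {z x : P} (hz : z ∈ r2 (2 * m) N) (hl : lev z = 2 * m + 1)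
    (hzx : z ⋖ x) (hmin : ∀ y, z ⋖ y → θ (topOf x) x ≤ θ (topOf y) y) :
    h2 (2 * m) N θ z = θ (topOf x) x + 1 := by
  classical
  have H := W.gt.H
  have hlev : ∀ y, z ⋖ y → lev y = 2 * m := by
    intro y hy
    have := (H.covBy_iff.mp hy).2
    omega
  have hnY : ∀ y, z ⋖ y → y ∉ twY (2 * m) N := by
    intro y hy h
    have h1 := hlev y hy
    have h2 := (mem_twY.mp h).2.1
    omega
  have hnR : ∀ y, z ⋖ y → y ∉ r2 (2 * m) N := fun y hy h =>
    W.low (hlev y hy).le (mem_sdiff.mp h).1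
  have hbd : z ∈ bdR (r2 (2 * m) N) := mem_filter.mpr ⟨hz, x, hnR x hzx, hzx⟩
  refine le_antisymm ?_ ?_
  · refine (hcan_le (θ := thX (twY (2 * m) N) (twT N) (fun x => θ (topOf x) x)) (hnR x hzx)
      hzx).trans ?_
    rw [thX_not (hnY x hzx)]
  · obtain ⟨y, hy, hzy, hh⟩ := hcan_spec
      (θ := thX (twY (2 * m) N) (twT N) (fun x => θ (topOf x) x)) hbd
    rw [thX_not (hnY y hzy)] at hh
    have h3 := hmin y hzy
    show _ ≤ hcan _ _ z
    omega

/-- a cover which gives the label -/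
lemma WH.exists_lab (W : WH r m K N b θ) {z : P} (hz : z ∈ r2 (2 * m) N)
    (hl : lev z = 2 * m + 1) : ∃ x, z ⋖ x ∧ h2 (2 * m) N θ z = θ (topOf x) x + 1 := by
  classical
  have hzt : z < (topOf z : P) := lt_of_le_of_ne (le_topOf z) (by
    intro h
    have := (topOf z).2
    rw [← h] at this
    omega)
  obtain ⟨x0, hzx0, -⟩ := Hul.exists_cov hzt
  obtain ⟨x, hx, hmin⟩ := Finset.exists_min_image (univ.filter (fun y : P => z ⋖ y))
    (fun y => θ (topOf y) y) ⟨x0, by simp [hzx0]⟩
  rw [mem_filter] at hx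
  exact ⟨x, hx.2, W.h2_eq hz hl hx.2 fun y hy => hmin y (by simp [hy])⟩

lemma WH.mem_bd (W : WH r m K N b θ) {z : P} (hz : z ∈ r2 (2 * m) N) (hl : lev z = 2 * m + 1) :
    z ∈ bdR (r2 (2 * m) N) := by
  classical
  have hzt : z < (topOf z : P) := lt_of_le_of_ne (le_topOf z) (by
    intro h
    have := (topOf z).2
    rw [← h] at this
    omega)
  obtain ⟨x, hzx, -⟩ := Hul.exists_cov hzt
  refine mem_filter.mpr ⟨hz, x, fun h => ?_, hzx⟩
  have h1 := (W.gt.H.covBy_iff.mp hzx).2
  exact W.low (by omega) (mem_sdiff.mp h).1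

/-- all covers have full thresholds: large cost -/
lemma WH.cst_full (W : WH r m K N b θ) {z : P} (hz : z ∈ r2 (2 * m) N) (hl : lev z = 2 * m + 1)
    (h : ∀ x, z ⋖ x → FullM m N θ x) : (m + 1) ^ 2 ≤ cst m (h2 (2 * m) N θ) z := by
  have hm := W.two
  obtain ⟨x, hzx, h3⟩ := W.exists_lab hz hl
  have hlev : lev x = 2 * m := by
    have := (W.gt.H.covBy_iff.mp hzx).2
    omega
  rw [(h x hzx).th, hlev] at h3
  have h4 := sq_le_cst (i := m) (h := h2 (2 * m) N θ) (z := z) (by omega)
    (by rw [h3]; omega) (by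
      intro k hk hk2
      exact (h x hzx).two z (mem_sdiff.mp hz).1 hzx.le k (by omega) (by rw [hlev]; omega))
  rwa [hl, show 2 * m + 1 - m = m + 1 by omega] at h4

/-- the elements above the bottom of a quadric strip -/
lemma WH.nab_quad (W : WH r m K N b θ) {a : ℕ} {v : P} (h : QInf m a (topOf v))
    (hl : lev v = 2 * m) {l : ℕ} (hl2 : l ≤ 2 * m) : nab l v = if l = a then 2 else 1 := by
  classical
  rw [← h.cn l hl2]
  unfold nab cn
  congr 1
  ext x
  rw [mem_filter, mem_filter, mem_lv]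
  refine and_congr_right fun h1 => ⟨fun h2 => ?_, fun h2 => ?_⟩
  · rw [W.natSys.cp v x h2 (W.low hl.le)]
    exact le_topOf x
  · exact h.bot v (le_topOf v) hl x h2 (by omega)

/-- the kinds of elements of level `2 m` -/
theorem WH.kind (W : WH r m K N b θ) {x : P} (hl : lev x = 2 * m) :
    FullM m N θ x ∨ FoldM m N b θ x ∨ (QdM m N θ x ∧ 4 ≤ m) ∨ OthH m K N θ x ∨
      ((Win.uc x).card = 2 ∧ NopT m (topOf x)) := by
  have H := W.gt.H
  have hm := W.two
  rcases W.cases (W.low hl.le) with h | ⟨Nc, co, h⟩ | ⟨Nc, co, h⟩ | h | h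
  · exact Or.inl h
  · exact Or.inr (Or.inr (Or.inr (Or.inr
      ⟨chart_inner_uc h.rect.chart H h.mem h.fst h.snd, h.nop⟩)))
  · have h1 := h.stair.chart.lev x h.mem
    have h2 : (co x).1 ≤ (co x).2 := h.stair.chart.mem x h.mem
    by_cases h3 : (co x).1 = m
    · exact Or.inr (Or.inl ⟨Nc, co, h, Prod.ext h3 (by simp only; omega)⟩)
    · exact Or.inr (Or.inr (Or.inr (Or.inr ⟨chartS_inner_uc h.stair.chart H h.mem h.fst
        (by omega), h.nop⟩)))
  · exact Or.inr (Or.inr (Or.inl h))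
  · exact Or.inr (Or.inr (Or.inr (Or.inl h)))

/-- the unnatural elements of level `2 m + 1` which are no twins -/
inductive KH (m K : ℕ) (N : Tops P → Finset P) (b : Tops P → ℕ) (θ : Tops P → P → ℕ) (z : P) :
    Prop
  | high (h : K ≤ cst m (h2 (2 * m) N θ) z)
  | penQ (x : P) (hx : QPn m (θ (topOf x)) z x)
  | penF (x : P) (hx : FoldM m N b θ x) (hp : Pend z x)
  | cc (h : CcM m N b θ z) (h' : ∀ y, z ⋖ y → ¬ OthH m K N θ y)

lemma WH.oth_high (W : WH r m K N b θ) {z x : P} (hz : z ∈ r2 (2 * m) N)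
    (hl : lev z = 2 * m + 1) (hzx : z ⋖ x) (hO : OthH m K N θ x) :
    K ≤ cst m (h2 (2 * m) N θ) z ∨ ∃ y, QPn m (θ (topOf y)) z y := by
  obtain ⟨y, hzy, hh⟩ := W.exists_lab hz hl
  have h1 : topOf y = topOf x := (W.top_cov hl hzy).trans (W.top_cov hl hzx).symm
  have hly : lev y = 2 * m := by
    have := (W.gt.H.covBy_iff.mp hzy).2
    omega
  have hyN : y ∈ N (topOf x) := by
    rw [← h1]
    exact W.natSys.mem_iff.mpr ⟨W.low hly.le, rfl⟩
  rcases hO.cost z (mem_sdiff.mp hz).1 y hyN hzy with h2 | h2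
  · left
    rw [cst_ct hh, h1]
    exact h2
  · right
    refine ⟨y, ?_⟩
    rw [h1]
    exact h2

/-- two neighbours of the level `2 m`: the element is natural or a twin -/
lemma WH.near (W : WH r m K N b θ) {z x x' : P} (hz : z ∈ r2 (2 * m) N) (hl : lev z = 2 * m + 1)
    (hO : ∀ y, z ⋖ y → ¬ OthH m K N θ y)
    (hzx : z ⋖ x) (hzx' : z ⋖ x') (hne : x ≠ x') (h1 : ucv x x' = 1) : False := by
  classical
  have H := W.gt.H
  have HN := W.natSys
  have hm := W.two
  have hlx : lev x = 2 * m := by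
    have := (H.covBy_iff.mp hzx).2
    omega
  have hlx' : lev x' = 2 * m := by
    have := (H.covBy_iff.mp hzx').2
    omega
  rw [mem_sdiff] at hz
  have hzU := hz.1
  obtain ⟨p, hp⟩ := Finset.card_eq_one.mp h1
  have hp2 : x ⋖ p ∧ x' ⋖ p := by
    have : p ∈ (univ.filter (fun y : P => x ⋖ y ∧ x' ⋖ y)) := by rw [hp]; simp
    simpa using this
  have hxt : topOf x = topOf z := W.top_cov hl hzx
  have hxt' : topOf x' = topOf z := W.top_cov hl hzx'
  have hxle : x ≤ (topOf z : P) := by rw [← hxt]; exact le_topOf x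
  have hxle' : x' ≤ (topOf z : P) := by rw [← hxt']; exact le_topOf x'
  have twin : ∀ y : P, y ∉ unnat N → y ⋖ x → y ⋖ x' → False := fun y hy hyx hyx' =>
    hz.2 (mem_twY.mpr ⟨hzU, hl, y, hy, up_of_pair H hzx hzx' hyx hyx' hne⟩)
  rcases W.typ (topOf z) with ⟨g1, g2, g3, g6⟩ | ⟨Nc, co, g0, g1, g2, g3⟩ |
    ⟨Nc, co, g0, g1, g2, g3, g4⟩ | ⟨g1, g2, g3, g4, g5⟩ | ⟨g1, g2, g3, g4⟩
  · refine mem_unnat.mp hzU (topOf z) ?_
    rw [g1]
    exact W.lowOnly (le_topOf z) (by omega)
  · have hx : x ∈ Nc := g0.strip (mem_lowPart.mpr ⟨hxle, hlx.le⟩)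
    have hx' : x' ∈ Nc := g0.strip (mem_lowPart.mpr ⟨hxle', hlx'.le⟩)
    have hzN : z ∉ Nc := fun h => mem_unnat.mp hzU (topOf z) (by
      rw [g1]
      exact mem_natR.mpr (Or.inl h))
    obtain ⟨y, hy, hyx, hyx'⟩ := near_chart H g0.chart g0.max (fun _ _ _ => trivial) hx hx' hp2.1
      hp2.2 hzx hzx' hne hzN
    refine twin y (HN.mem_iff (t := topOf z).mp ?_).1 hyx hyx'
    rw [g1]
    exact mem_natR.mpr (Or.inl hy)
  · have hx : x ∈ Nc := g0.strip (mem_lowPart.mpr ⟨hxle, hlx.le⟩)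
    have hx' : x' ∈ Nc := g0.strip (mem_lowPart.mpr ⟨hxle', hlx'.le⟩)
    have hzN : z ∉ Nc := fun h => mem_unnat.mp hzU (topOf z) (by
      rw [g1]
      exact mem_natS.mpr (Or.inl h))
    obtain ⟨y, hy, hyx, hyx'⟩ := near_chart H g0.chart g0.max
      (fun s c (h : s + 1 ≤ c) => show s + 1 ≤ c + 1 by omega) hx hx' hp2.1 hp2.2 hzx hzx' hne hzN
    refine twin y (HN.mem_iff (t := topOf z).mp ?_).1 hyx hyx'
    rw [g1]
    exact mem_natS.mpr (Or.inl hy)
  · exact hne (g4.unique hxle hxle' hlx hlx')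
  · refine hO x hzx ⟨HN.mem_iff.mpr ⟨W.low hlx.le, rfl⟩, ?_, ?_⟩
    · rw [hxt]; exact g3
    · rw [hxt]; exact g4

/-- a single-up element of level `2 m` of the stair of a fold end -/
lemma WH.stair_single (W : WH r m K N b θ) {x x' : P} {Nc : Finset P} {co : P → ℕ × ℕ}
    (h : InSM m N b θ x Nc co) (hcx : co x = (m, m)) (hlx' : lev x' = 2 * m)
    (hxt : topOf x' = topOf x) (hne : x ≠ x') (h1 : (Win.uc x').card = 1) :
    x' ∈ Nc ∧ co x' = (0, 2 * m) := by
  have hx' : x' ∈ Nc := h.stair.strip (mem_lowPart.mpr ⟨by rw [← hxt]; exact le_topOf x',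
    hlx'.le⟩)
  refine ⟨hx', ?_⟩
  have h2 := h.stair.chart.lev x' hx'
  have h3 : (co x').1 ≤ (co x').2 := h.stair.chart.mem x' hx'
  by_cases h4 : (co x').1 = 0
  · exact Prod.ext h4 (by simp only; omega)
  · exfalso
    by_cases h5 : (co x').1 = (co x').2
    · exact hne (h.stair.chart.inj x h.mem x' hx' (by
        rw [hcx]
        exact Prod.ext (by simp only; omega) (by simp only; omega)))
    · have := chartS_inner_uc h.stair.chart W.gt.H hx' (by omega) (by omega)
      omega

/-- the classification -/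
theorem WH.class (W : WH r m K N b θ) {z : P} (hz : z ∈ r2 (2 * m) N)
    (hl : lev z = 2 * m + 1) : KH m K N b θ z := by
  classical
  have H := W.gt.H
  have HN := W.natSys
  have hm := W.two
  by_cases hO : ∃ y, z ⋖ y ∧ OthH m K N θ y
  · obtain ⟨y, hzy, hy⟩ := hO
    rcases W.oth_high hz hl hzy hy with h | ⟨y', h⟩
    · exact KH.high h
    · exact KH.penQ y' h
  have hO' : ∀ y, z ⋖ y → ¬ OthH m K N θ y := fun y hy h => hO ⟨y, hy, h⟩
  have hfull : (∀ x, z ⋖ x → FullM m N θ x) → KH m K N b θ z := fun h =>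
    KH.high (W.K_le.trans (W.cst_full hz hl h))
  have hzt : z < (topOf z : P) := lt_of_le_of_ne (le_topOf z) (by
    intro h
    have := (topOf z).2
    rw [← h] at this
    omega)
  obtain ⟨x, hzx, hxt⟩ := Hul.exists_cov hzt
  have hlev : ∀ y, z ⋖ y → lev y = 2 * m := by
    intro y hy
    have := (H.covBy_iff.mp hy).2
    omega
  have hlx := hlev x hzx
  by_cases honly : ∀ y, z ⋖ y → y = x
  · rcases W.kind hlx with h | h | h | h | h
    · refine hfull fun y hy => ?_
      rw [honly y hy]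
      exact h
    · exact KH.penF x h ⟨hzx, honly⟩
    · exact KH.penQ x ⟨hlx, h.1.th, ⟨hzx, honly⟩, h.2, fun u hu =>
        W.nab_quad h.1.inf hlx (by omega)⟩
    · exact absurd h (hO' x hzx)
    · exact absurd honly (h.2 x z (le_topOf x) hlx h.1 hzx)
  · push Not at honly
    obtain ⟨x', hzx', hne'⟩ := honly
    have hne : x ≠ x' := Ne.symm hne'
    have hlx' := hlev x' hzx'
    obtain ⟨i, hi⟩ : ∃ i, 2 * m = i + 1 := ⟨2 * m - 1, by omega⟩
    have hgt := W.gt
    rw [hi] at hgt
    have ht : topOf x = topOf x' := (W.top_cov hl hzx).trans (W.top_cov hl hzx').symm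
    rcases (Win.near_level' hgt (by omega)).1 z x x' (by omega) hzx hzx' hne with
      h7 | ⟨h7, h8, -⟩
    · exact (W.near hz hl hO' hzx hzx' hne h7).elim
    · have hQ : ∀ y, z ⋖ y → ¬ QdM m N θ y := by
        intro y hy hQ
        have hty : topOf y = topOf x := by
          rcases uc_pair H hzx hzx' hne hy with h | h
          · rw [h]
          · rw [h, ht]
        have hy1 : x ≤ (topOf y : P) := by rw [hty]; exact le_topOf x
        have hy2 : x' ≤ (topOf y : P) := by rw [hty, ht]; exact le_topOf x'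
        exact hne (hQ.inf.unique hy1 hy2 hlx hlx')
      rcases W.kind hlx with h | ⟨Nc, co, h, hcx⟩ | h | h | h
      · rcases W.kind hlx' with h' | ⟨Nc, co, h', hcx⟩ | h' | h' | h'
        · refine hfull fun y hy => ?_
          rcases uc_pair H hzx hzx' hne hy with e | e
          · rw [e]; exact h
          · rw [e]; exact h'
        · obtain ⟨h9, h10⟩ := W.stair_single h' hcx hlx ht hne' h7
          exact KH.cc ⟨hl, x', x, Nc, co, h', hcx, h9, h10, hzx', hzx⟩ hO'
        · exact absurd h'.1 (hQ x' hzx')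
        · exact absurd h' (hO' x' hzx')
        · omega
      · obtain ⟨h9, h10⟩ := W.stair_single h hcx hlx' ht.symm hne h8
        exact KH.cc ⟨hl, x, x', Nc, co, h, hcx, h9, h10, hzx, hzx'⟩ hO'
      · exact absurd h.1 (hQ x hzx)
      · exact absurd h (hO' x hzx)
      · omega

end Pool.Agent.GaussPoset.Hc

end
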