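import Mathlib
import Pool.Agent.W_448zz_h61.Ns
import Pool.Agent.W_448zz_h61.M062
import Pool.Agent.W_448zz_h61.M125
import Pool.Agent.W_448zz_h61.M126
import Pool.Agent.W_448zz_h61.M127
import Pool.Agent.W_448zz_h61.M128

/-! From `Pool.Agent.W_448w7_h94.WiB` -/

section

/-!
The natural system at window 7, level 14, with the elements of level 15 below the strips `La7`
(MP_448cb3_co, S7, `j = 14`; after `FxB`).
-/

namespace Pool.Agent.GaussPoset.W7

set_option linter.unusedSectionVars false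

open Polynomial Finset Fi Cp Cl

universe u

variable {P : Type u} [Fintype P] [PartialOrder P] [DecidableEq P] {r n0 : ℕ}
  {N : Tops P → Finset P} {b : Tops P → ℕ} {θ : Tops P → P → ℕ}

/-- the elements of level 15 of a strip `La7` -/
structure LaT (n0 : ℕ) (e : ℕ → ℕ → P) (t : P) (A : Finset P) (θ : P → ℕ) : Prop where
  loc : Sg.LocL 7 2 n0 (lowPart (2 * 7) t ∪ A) θ (fun x => x = Sg.ce e 29)
  th : ThA e A θ
  typ : ∀ x ∈ A, Sg.Mk e x 67108864 ∨ Sg.Mk e x 201326592 ∨ Sg.Mk e x 402653184 ∨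
    Sg.Mk e x 805306368
  full : ∀ z, lev z = 15 → (∀ y, z ⋖ y → y ≤ t) → z ∈ A ∨ Sg.Mk e z 33554432
  pat : (∃ c, JA e A c) ∨ (n0 ≤ 31 ∧ ∃ c c', JB e A c c')

/-- a component `La7` -/
structure LaD (n0 : ℕ) (N : Tops P → Finset P) (θ : P → ℕ) (t : Tops P) (lo hi : ℕ → ℕ)
    (e : ℕ → ℕ → P) (A : Finset P) : Prop where
  comp : Comp (2 * 7) (t : P) lo hi e
  word : WordD (2 * 7) 7 wa7 lo hi
  nat : N t = lowPart (2 * 7) (t : P) ∪ A
  dat : LaT n0 e (t : P) A θ

/-- the types of the components -/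
inductive TyL (n0 : ℕ) (N : Tops P → Finset P) (t : Tops P) (b : ℕ) (θ : P → ℕ) : Prop
  | light (h1 : N t = onlyB t) (h2 : θ = fun x => lev x - 7) (h3 : b = 1)
      (h5 : ∀ x, x ≤ (t : P) → lev x ≤ 2 * 7 → x ∈ onlyB t) (h6 : ∃ x ≤ (t : P), lev x = 7)
      (h8 : cn 2 (t : P) ≤ 1) (h9 : cn 7 (t : P) = 1)
  | rect (Nc : Finset P) (co : P → ℕ × ℕ) (h0 : RectNat (2 * 7) 7 t b Nc co)
      (h1 : N t = natR Nc co) (h2 : θ = thR 7 b Nc co) (h3 : NopT 7 t)
  | stair (Nc : Finset P) (co : P → ℕ × ℕ) (h0 : StairNat (2 * 7) 7 t Nc co)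
      (h1 : N t = natS Nc co) (h2 : θ = thS 7 Nc co) (h3 : b = 7 / 2 + 1) (h4 : NopT 7 t)
  | oth (h : Oth N t θ) (hb : b = 2)
  | la (lo hi : ℕ → ℕ) (e : ℕ → ℕ → P) (A : Finset P) (h : LaD n0 N θ t lo hi e A) (hb : b = 2)
  | bare (h1 : N t = lowPart (2 * 7) (t : P)) (h2 : ∃ B, NatTop 7 t b (N t) θ B)
      (h3 : ∀ z, lev z = 15 → ¬ z ≤ (t : P)) (h4 : cn 2 (t : P) ≤ 1)

/-- the context: the joins of level 15 are joins of a fold end and the first end of a strip
`La7` -/
structure WL (r n0 : ℕ) (N : Tops P → Finset P) (b : Tops P → ℕ) (θ : Tops P → P → ℕ) :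
    Prop where
  gt : Win.GoodTo P r (2 * 7)
  hr : 2 * 7 + 1 ≤ r
  hn0 : n0 ≤ 51
  tc : ∀ t, TyL n0 N t (b t) (θ t)
  sum_b : ∑ t, b t = (lv P 7).card

lemma WL.lowUp (W : WL r n0 N b θ) (t : Tops P) :
    ∀ x ∈ lowPart (2 * 7) (t : P), ∀ y, x ≤ y → y ∈ lowPart (2 * 7) (t : P) := by
  intro x hx y hxy
  rw [mem_lowPart] at hx ⊢
  refine ⟨Cp.up_le W.gt.H W.gt.good t.2 hx.1 hx.2 hxy, ?_⟩
  rcases eq_or_lt_of_le hxy with h | h
  · rw [← h]; exact hx.2
  · have := lev_strictAnti h; omega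

/-- the covers of the elements of level 15 are cells -/
lemma LaD.cov {t : Tops P} {lo hi : ℕ → ℕ} {e : ℕ → ℕ → P} {A : Finset P} {θ : P → ℕ}
    (L : LaD n0 N θ t lo hi e A) {x : P} (hx : x ∈ A) :
    lev x = 15 ∧ ∀ y, x ⋖ y → y ∈ lowPart (2 * 7) (t : P) ∧ lev y = 14 := by
  obtain ⟨m, hm, hmk⟩ : ∃ m, (m = 67108864 ∨ m = 201326592 ∨ m = 402653184 ∨ m = 805306368) ∧
      Sg.Mk e x m := by
    rcases L.dat.typ x hx with h | h | h | h
    · exact ⟨_, Or.inl rfl, h⟩
    · exact ⟨_, Or.inr (Or.inl rfl), h⟩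
    · exact ⟨_, Or.inr (Or.inr (Or.inl rfl)), h⟩
    · exact ⟨_, Or.inr (Or.inr (Or.inr rfl)), h⟩
  refine ⟨hmk.1, fun y hy => ?_⟩
  obtain ⟨a, ha, hbit, rfl⟩ := (hmk.2 y).mp hy
  have key : ∀ m ∈ [67108864, 201326592, 402653184, 805306368], ∀ a < 30,
      Nat.testBit m a = true → La7lv.getD a 0 = 14 := by decide +kernel
  have h1 := key m (by simpa using hm) a ha hbit
  have h2 := Sg.La7_le L.word L.comp ha
  exact ⟨mem_lowPart.mpr ⟨h2.1, by rw [h2.2, h1]⟩, by rw [h2.2, h1]⟩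

lemma LaD.up (W : WL r n0 N b θ) {t : Tops P} {lo hi : ℕ → ℕ} {e : ℕ → ℕ → P} {A : Finset P}
    {θ : P → ℕ} (L : LaD n0 N θ t lo hi e A) : ∀ x ∈ N t, ∀ y, x ≤ y → y ∈ N t := by
  intro x hx y hxy
  rw [L.nat, mem_union] at hx ⊢
  rcases hx with hx | hx
  · exact Or.inl (W.lowUp t x hx y hxy)
  · rcases eq_or_lt_of_le hxy with h | h
    · rw [← h]; exact Or.inr hx
    · obtain ⟨v, hv, hvy⟩ := Hul.exists_cov h
      exact Or.inl (W.lowUp t v ((L.cov hx).2 v hv).1 y hvy)

lemma LaD.le_t {t : Tops P} {lo hi : ℕ → ℕ} {e : ℕ → ℕ → P} {A : Finset P} {θ : P → ℕ}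
    (L : LaD n0 N θ t lo hi e A) : ∀ x ∈ N t, x ≤ (t : P) := by
  intro x hx
  rw [L.nat, mem_union] at hx
  rcases hx with hx | hx
  · exact (mem_lowPart.mp hx).1
  · have h1 := (L.cov hx).1
    have h2 : x < (topOf x : P) := lt_of_le_of_ne (le_topOf x) (by
      intro h
      have := (topOf x).2
      rw [← h] at this
      omega)
    obtain ⟨v, hv, -⟩ := Hul.exists_cov h2
    exact hv.1.le.trans (mem_lowPart.mp ((L.cov hx).2 v hv).1).1

/-- natural sets -/
lemma WL.natTop (W : WL r n0 N b θ) (t : Tops P) :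
    (∃ B, NatTop 7 t (b t) (N t) (θ t) B) ∨ ((∃ B, Sg.LocL 7 (b t) n0 (N t) (θ t) B) ∧
      (∀ x ∈ N t, x ≤ (t : P)) ∧ ∀ x ∈ N t, ∀ y, x ≤ y → y ∈ N t) := by
  have hgr := W.gt.H.gradedBelow
  rcases W.tc t with ⟨h1, h2, h3, h5, h6, h8, h9⟩ | ⟨Nc, co, h0, h1, h2, h3⟩ |
    ⟨Nc, co, h0, h1, h2, h3, h4⟩ | ⟨h, hb⟩ | ⟨lo, hi, e, A, h, hb⟩ | ⟨h1, h2, h3, h4⟩
  · left
    rw [h1, h2, h3]
    exact ⟨_, natTop_light hgr (fun x hx hxi => h5 x hx (by omega)) h6⟩
  · left
    rw [h1, h2]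
    exact ⟨_, h0.natTop hgr (by omega)⟩
  · left
    rw [h1, h2, h3]
    exact ⟨_, h0.natTop hgr (by omega) (by omega)⟩
  · right
    rw [hb]
    obtain ⟨B, hB⟩ := h.h1
    exact ⟨⟨B, ⟨fun U h1 h2 h3 h4 n hn => hB.clean U h1 h2 h3 h4 n (by have := W.hn0; omega),
      hB.lev, hB.base, hB.step, hB.le⟩⟩, h.h3, h.h4⟩
  · right
    rw [hb]
    refine ⟨⟨fun x => x = Sg.ce e 29, ?_⟩, h.le_t, h.up W⟩
    rw [h.nat]
    exact h.dat.loc
  · exact Or.inl h2

lemma WL.natSys (W : WL r n0 N b θ) : NatSys N where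
  up := by
    intro t
    rcases W.natTop t with ⟨B, h⟩ | h
    · exact h.up
    · exact h.2.2
  le_t := by
    intro t
    rcases W.natTop t with ⟨B, h⟩ | h
    · exact h.le_t
    · exact h.2.1

lemma WL.low (W : WL r n0 N b θ) {x : P} (hx : lev x ≤ 2 * 7) : x ∉ unnat N := by
  intro h
  refine mem_unnat.mp h (topOf x) ?_
  rcases W.tc (topOf x) with ⟨h1, h2, h3, h5, h6, h8, h9⟩ | ⟨Nc, co, h0, h1, h2, h3⟩ |
    ⟨Nc, co, h0, h1, h2, h3, h4⟩ | ⟨h, hb⟩ | ⟨lo, hi, e, A, h, hb⟩ | ⟨h1, h2, h3, h4⟩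
  · rw [h1]; exact h5 x (le_topOf x) hx
  · rw [h1]; exact mem_natR.mpr (Or.inl (h0.strip (mem_lowPart.mpr ⟨le_topOf x, hx⟩)))
  · rw [h1]; exact mem_natS.mpr (Or.inl (h0.strip (mem_lowPart.mpr ⟨le_topOf x, hx⟩)))
  · exact h.h2 (mem_lowPart.mpr ⟨le_topOf x, hx⟩)
  · rw [h.nat]; exact mem_union_left _ (mem_lowPart.mpr ⟨le_topOf x, hx⟩)
  · rw [h1]; exact mem_lowPart.mpr ⟨le_topOf x, hx⟩

lemma WL.lt_lev (W : WL r n0 N b θ) {x : P} (hx : x ∈ unnat N) : 2 * 7 < lev x := by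
  by_contra hcon
  exact W.low (not_lt.mp hcon) hx

/-- the kinds of natural elements of light components -/
theorem WL.light_case (W : WL r n0 N b θ) {x : P} (hx : x ∉ unnat N)
    (h1 : N (topOf x) = onlyB (topOf x)) (h2 : θ (topOf x) = fun x => lev x - 7) :
    Fi.Full 7 7 N θ x := by
  have H := W.gt.H
  have HN := W.natSys
  have hxt : x ∈ N (topOf x) := HN.mem_iff.mpr ⟨hx, rfl⟩
  generalize ht : topOf x = t at hxt h1 h2
  have hs : ∀ z ∈ unnat N, ∃ s : P, lev s = 0 ∧ z ≤ s ∧ s ≠ t := by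
    intro z hz
    have h7 : z ∉ onlyB t := by
      rw [← h1]
      exact mem_unnat.mp hz t
    rw [mem_onlyB] at h7
    push Not at h7
    exact h7
  refine ⟨by rw [ht, h2], ?_, ?_⟩
  · intro z hz hzx k _ hk
    obtain ⟨s, hs1, hs2, hs3⟩ := hs z hz
    exact two_le_nab_join HN H.gradedBelow hxt hzx hs1 hs3 hs2 hk
  · intro z hz h
    obtain ⟨s, hs1, hs2, hs3⟩ := hs z hz
    have h7 := W.lt_lev hz
    have h8 : z < s := lt_of_le_of_ne hs2 (by rintro rfl; omega)
    exact hs3 (HN.top_eq hxt hs1 ((h s).mpr h8).le)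

/-- the kinds of natural elements of rectangles -/
theorem WL.rect_case (W : WL r n0 N b θ) {x : P} (hx : x ∉ unnat N) {Nc : Finset P}
    {co : P → ℕ × ℕ} (h0 : RectNat (2 * 7) 7 (topOf x) (b (topOf x)) Nc co)
    (h1 : N (topOf x) = natR Nc co) (h2 : θ (topOf x) = thR 7 (b (topOf x)) Nc co)
    (h3 : NopT 7 (topOf x)) : Fi.Full 7 7 N θ x ∨ ∃ Nc co, InR 7 7 N b θ x Nc co := by
  have H := W.gt.H
  have HN := W.natSys
  have hxt : x ∈ N (topOf x) := HN.mem_iff.mpr ⟨hx, rfl⟩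
  generalize ht : topOf x = t at hxt h0 h1 h2 h3
  -- rectangles
  by_cases hJ : x ∈ junk (fun _ => True) Nc co ∨ x ∈ junk (fun _ => True) Nc (swp co)
  · left
    refine ⟨?_, ?_, ?_⟩
    · rw [ht, h2]
      unfold thR
      rw [if_pos hJ]
    · intro z hz hzx k hk hkx
      refine rect_two_le_nab H h0 h1 hz hzx ?_ (by omega) hkx
      rcases hJ with h | h
      · exact Or.inl h
      · exact Or.inr (Or.inl h)
    · intro z hz h
      refine mem_unnat.mp hz t ?_
      rw [h1, mem_natR]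
      rcases hJ with h' | h'
      · exact Or.inr (Or.inl (junk_twin h' h))
      · exact Or.inr (Or.inr (junk_twin h' h))
  · have hxN : x ∈ Nc := by
      rw [h1, mem_natR] at hxt
      rcases hxt with h | h | h
      · exact h
      · exact absurd (Or.inl h) hJ
      · exact absurd (Or.inr h) hJ
    have hl := h0.chart.lev x hxN
    have hb1 := h0.b_two
    have hb2 := h0.b_le
    have hrow : b t = 7 + 1 ∨ (co x).1 ≤ b t - 1 := by
      rcases h0.rows with h | h
      · exact Or.inl h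
      · exact Or.inr (h x hxN)
    by_cases h7 : (co x).1 = 0 ∨ (co x).2 = 0
    · left
      refine ⟨?_, ?_, ?_⟩
      · rw [ht, h2]
        unfold thR
        rw [if_neg hJ]
        omega
      · intro z hz hzx k hk hkx
        exact rect_two_le_nab H h0 h1 hz hzx (Or.inr (Or.inr ⟨hxN, h7⟩)) (by omega) hkx
      · intro z hz h
        have h8 := W.lt_lev hz
        rw [← lev_eq_of_up h] at h8
        rcases h7 with h7 | h7
        · obtain ⟨u, hu, hcu⟩ := h0.chart.low x hxN (0, (co x).2 - 1)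
            ⟨Nat.zero_le _, Nat.sub_le _ _⟩ trivial
          refine straight_twin H h0 h1 hxN hu ?_ ?_ ?_ hz h
          · rw [hcu]
            exact Or.inr ⟨by simp only; omega, by simp only; omega⟩
          · intro y hy hp
            rw [hcu]
            rcases hp with hp | hp
            · omega
            · exact Prod.ext (by simp only; omega) (by simp only; omega)
          · rw [hcu]
            exact Or.inl rfl
        · obtain ⟨u, hu, hcu⟩ := h0.chart.low x hxN ((co x).1 - 1, 0)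
            ⟨Nat.sub_le _ _, Nat.zero_le _⟩ trivial
          refine straight_twin H h0 h1 hxN hu ?_ ?_ ?_ hz h
          · rw [hcu]
            exact Or.inl ⟨by simp only; omega, by simp only; omega⟩
          · intro y hy hp
            rw [hcu]
            rcases hp with hp | hp
            · exact Prod.ext (by simp only; omega) (by simp only; omega)
            · omega
          · rw [hcu]
            exact Or.inr rfl
    · right
      refine ⟨Nc, co, ?_, ?_, hxN, by omega, by omega, ?_, ?_⟩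
      · rw [ht]; exact h0
      · rw [ht]; exact h1
      · rw [ht, h2]
        unfold thR
        rw [if_neg hJ]
        omega
      · rw [ht]; exact h3

/-- the kinds of natural elements of stairs -/
theorem WL.stair_case (W : WL r n0 N b θ) {x : P} (hx : x ∉ unnat N) {Nc : Finset P}
    {co : P → ℕ × ℕ} (h0 : StairNat (2 * 7) 7 (topOf x) Nc co)
    (h1 : N (topOf x) = natS Nc co) (h2 : θ (topOf x) = thS 7 Nc co)
    (h3 : b (topOf x) = 7 / 2 + 1) (h4 : NopT 7 (topOf x)) :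
    Fi.Full 7 7 N θ x ∨ ∃ Nc co, InS 7 7 N b θ x Nc co := by
  have H := W.gt.H
  have HN := W.natSys
  have hxt : x ∈ N (topOf x) := HN.mem_iff.mpr ⟨hx, rfl⟩
  generalize ht : topOf x = t at hxt h0 h1 h2 h3 h4
  -- stairs
  by_cases hJ : x ∈ junk (fun c => c.1 ≤ c.2) Nc co
  · left
    refine ⟨?_, ?_, ?_⟩
    · rw [ht, h2]
      unfold thS
      rw [if_pos hJ]
    · intro z hz hzx k hk hkx
      exact stair_two_le_nab H h0 h1 hz hzx (Or.inl hJ) hk hkx
    · intro z hz h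
      refine mem_unnat.mp hz t ?_
      rw [h1, mem_natS]
      exact Or.inr (junk_twin hJ h)
  · have hxN : x ∈ Nc := by
      rw [h1, mem_natS] at hxt
      rcases hxt with h | h
      · exact h
      · exact absurd h hJ
    have hl := h0.chart.lev x hxN
    by_cases h7 : (co x).1 = 0
    · left
      refine ⟨?_, ?_, ?_⟩
      · rw [ht, h2]
        unfold thS
        rw [if_neg hJ]
        omega
      · intro z hz hzx k hk hkx
        exact stair_two_le_nab H h0 h1 hz hzx (Or.inr ⟨hxN, h7⟩) hk hkx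
      · intro z hz h
        have h8 := W.lt_lev hz
        rw [← lev_eq_of_up h] at h8
        obtain ⟨u, hu, hcu⟩ := h0.chart.low x hxN (0, (co x).2 - 1)
          ⟨Nat.zero_le _, Nat.sub_le _ _⟩ (Nat.zero_le _)
        refine straight_twinS H h0 (by omega) h1 hxN hu ?_ ?_ ?_ hz h
        · rw [hcu]
          exact Or.inr ⟨by simp only; omega, by simp only; omega⟩
        · intro y hy hp
          rw [hcu]
          rcases hp with hp | hp
          · omega
          · exact Prod.ext (by simp only; omega) (by simp only; omega)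
        · rw [hcu]
    · right
      refine ⟨Nc, co, ?_, ?_, ?_, ?_, hxN, by omega, ?_, ?_⟩
      · rw [ht]; exact h0
      · rw [ht]; exact h1
      · rw [ht]; exact h2
      · rw [ht]; exact h3
      · rw [ht, h2]
        unfold thS
        rw [if_neg hJ]
      · rw [ht]; exact h4

/-- elements of E7 -/
structure Ot (N : Tops P → Finset P) (θ : Tops P → P → ℕ) (x : P) : Prop where
  mem : x ∈ N (topOf x)
  oth : Oth N (topOf x) (θ (topOf x))

/-- elements of a strip `La7` -/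
structure Lx (n0 : ℕ) (N : Tops P → Finset P) (θ : Tops P → P → ℕ) (x : P) : Prop where
  mem : x ∈ N (topOf x)
  ex : ∃ lo hi e A, LaD n0 N (θ (topOf x)) (topOf x) lo hi e A

/-- elements of a component without elements of level 15 -/
structure Bx (x : P) : Prop where
  lev : lev x ≤ 2 * 7
  no : ∀ z, Pool.Agent.GaussPoset.lev z = 15 → ¬ z ≤ (topOf x : P)
  cn2 : cn 2 (topOf x : P) ≤ 1

/-- the kinds of natural elements -/
theorem WL.cases (W : WL r n0 N b θ) {x : P} (hx : x ∉ unnat N) : Fi.Full 7 7 N θ x ∨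
    (∃ Nc co, InR 7 7 N b θ x Nc co) ∨ (∃ Nc co, InS 7 7 N b θ x Nc co) ∨ Ot N θ x ∨
      Lx n0 N θ x ∨ Bx x := by
  have hxt : x ∈ N (topOf x) := W.natSys.mem_iff.mpr ⟨hx, rfl⟩
  rcases W.tc (topOf x) with ⟨h1, h2, h3, h5, h6, h8, h9⟩ | ⟨Nc, co, h0, h1, h2, h3⟩ |
    ⟨Nc, co, h0, h1, h2, h3, h4⟩ | ⟨h, hb⟩ | ⟨lo, hi, e, A, h, hb⟩ | ⟨h1, h2, h3, h4⟩
  · exact Or.inl (W.light_case hx h1 h2)
  · rcases W.rect_case hx h0 h1 h2 h3 with h | h
    · exact Or.inl h
    · exact Or.inr (Or.inl h)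
  · rcases W.stair_case hx h0 h1 h2 h3 h4 with h | h
    · exact Or.inl h
    · exact Or.inr (Or.inr (Or.inl h))
  · exact Or.inr (Or.inr (Or.inr (Or.inl ⟨hxt, h⟩)))
  · exact Or.inr (Or.inr (Or.inr (Or.inr (Or.inl ⟨hxt, lo, hi, e, A, h⟩))))
  · refine Or.inr (Or.inr (Or.inr (Or.inr (Or.inr ⟨?_, h3, h4⟩))))
    rw [h1] at hxt
    exact (mem_lowPart.mp hxt).2

end Pool.Agent.GaussPoset.W7

end

/-! From `Pool.Agent.W_448w7_h94.WiC` -/

section

/-!
Twins, the truncated data, the boundary elements of level at least 16 (MP_448cb3_co, S7,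
`j = 14`, window 7; after `FxC`).
-/

namespace Pool.Agent.GaussPoset.W7

set_option linter.unusedSectionVars false

open Polynomial Finset Fi Cl

universe u

variable {P : Type u} [Fintype P] [PartialOrder P] [DecidableEq P] {r n0 : ℕ}
  {N : Tops P → Finset P} {b : Tops P → ℕ} {θ : Tops P → P → ℕ}

lemma kapR_77 : Fi.KapR 7 7 52 := by
  unfold Fi.KapR
  decide +kernel

lemma kapS_77 : Fi.KapS 7 7 52 := by
  unfold Fi.KapS
  decide +kernel

/-- natural elements of level at least 15 -/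
theorem WL.kap (W : WL r n0 N b θ) {x : P} (hx : x ∉ unnat N) (hl : 2 * 7 + 1 ≤ lev x) :
    Fi.Full 7 7 N θ x ∨ 52 ≤ ct 7 (θ (topOf x) x + 1) x + (θ (topOf x) x + 1) ∨
      Ot N θ x ∨ Lx n0 N θ x := by
  rcases W.cases hx with h | ⟨Nc, co, h⟩ | ⟨Nc, co, h⟩ | h | h | h
  · exact Or.inl h
  · right; left
    refine Fi.kap_chart kapR_77 (by omega) h.rect.chart h.mem h.fst h.snd hl ?_
    rw [h.th]
  · right; left
    refine Fi.kap_chartS kapS_77 (by omega) h.stair.chart h.mem h.fst hl ?_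
    rw [h.th]
  · exact Or.inr (Or.inr (Or.inl h))
  · exact Or.inr (Or.inr (Or.inr h))
  · have := h.lev
    omega

/-- the four masks -/
def ms4 : List ℕ := [67108864, 201326592, 402653184, 805306368]

lemma LaT.msk {e : ℕ → ℕ → P} {t : P} {A : Finset P} {θ : P → ℕ} (L : LaT n0 e t A θ) {x : P}
    (hx : x ∈ A) : ∃ m ∈ ms4, Sg.Mk e x m := by
  rcases L.typ x hx with h | h | h | h
  · exact ⟨_, by decide, h⟩
  · exact ⟨_, by decide, h⟩
  · exact ⟨_, by decide, h⟩
  · exact ⟨_, by decide, h⟩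

/-- no twins of the elements of level 15 of the strips `La7` -/
lemma Lx.tw (W : WL r n0 N b θ) {x z : P} (h : Lx n0 N θ x) (hl : lev x = 15)
    (hz : z ∈ unnat N) : ¬ ∀ w, x < w ↔ z < w := by
  intro hup
  obtain ⟨lo, hi, e, A, L⟩ := h.ex
  have hx := h.mem
  rw [L.nat, mem_union, mem_lowPart] at hx
  have hxA : x ∈ A := by
    rcases hx with hx | hx
    · omega
    · exact hx
  have hlz : lev z = 15 := by rw [← lev_eq_of_up hup]; exact hl
  have hcov : ∀ y, x ⋖ y ↔ z ⋖ y := fun y => cov_of_up hup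
  obtain ⟨m, hm, hmk⟩ := L.dat.msk hxA
  rcases L.dat.full z hlz (fun y hy => by
    have := ((L.cov hxA).2 y ((hcov y).mpr hy)).1
    exact (mem_lowPart.mp this).1) with h1 | h1
  · refine mem_unnat.mp hz (topOf x) ?_
    rw [L.nat]
    exact mem_union_right _ h1
  · have hcod := Sg.La7_cod L.word L.comp W.gt.H W.gt.good (topOf x).2
    have e1 : z ⋖ Sg.ce e 25 := (h1.2 _).mpr ⟨25, by norm_num, by decide +kernel, rfl⟩
    have e2 := (hcov _).mpr e1
    obtain ⟨b, hb, hbit, hbe⟩ := (hmk.2 _).mp e2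
    have e3 : b = 25 := hcod.inj b hb 25 (by norm_num) hbe
    have key : ∀ m ∈ ms4, Nat.testBit m 25 = false := by decide +kernel
    rw [e3, key m hm] at hbit
    exact absurd hbit (by simp)

theorem WL.twSys (W : WL r n0 N b θ) : TwSys (unnat N) (twY (2 * 7) N) topOf (twT N) :=
  twSys_of W.gt.H W.natSys

lemma WL.tw_inner (W : WL r n0 N b θ) {x : P} (hx : x ∈ twY (2 * 7) N) :
    (∃ Nc co, InR 7 7 N b θ (twT N x) Nc co) ∨ ∃ Nc co, InS 7 7 N b θ (twT N x) Nc co := by
  have h1 := mem_twY.mp hx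
  have h3 := twT_spec h1.2.2
  have h5 := W.twSys.lev hx
  have hl : lev (twT N x) = 15 := by rw [h5]; exact h1.2.1
  rcases W.cases h3.1 with h | h | h | h | h | h
  · exact absurd h3.2 (h.tw x h1.1)
  · exact Or.inl h
  · exact Or.inr h
  · exact absurd h3.2 (h.oth.h10 x h1.1 _ h.mem hl)
  · exact absurd h3.2 (h.tw W hl h1.1)
  · have := h.lev
    omega

lemma WL.tw_kap (W : WL r n0 N b θ) {x : P} (hx : x ∈ twY (2 * 7) N) :
    52 ≤ ct 7 (θ (topOf (twT N x)) (twT N x) + 1) (twT N x) +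
      (θ (topOf (twT N x)) (twT N x) + 1) := by
  have h1 := mem_twY.mp hx
  have h3 := twT_spec h1.2.2
  have h5 := W.twSys.lev hx
  have hl : lev (twT N x) = 15 := by rw [h5]; exact h1.2.1
  rcases W.kap h3.1 (by omega) with h | h | h | h
  · exact absurd h3.2 (h.tw x h1.1)
  · exact h
  · exact absurd h3.2 (h.oth.h10 x h1.1 _ h.mem hl)
  · exact absurd h3.2 (h.tw W hl h1.1)

lemma WL.tw_th (W : WL r n0 N b θ) {x : P} (hx : x ∈ twY (2 * 7) N) :
    1 ≤ θ (topOf (twT N x)) (twT N x) ∧ θ (topOf (twT N x)) (twT N x) ≤ 2 * 7 - 7 := by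
  have h1 := mem_twY.mp hx
  have h5 := W.twSys.lev hx
  rcases W.tw_inner hx with ⟨Nc, co, h⟩ | ⟨Nc, co, h⟩
  · have h6 := h.rect.chart.lev _ h.mem
    have h7 := h.fst
    have h8 := h.snd
    have h9 := h.th
    omega
  · have h6 := h.stair.chart.lev _ h.mem
    have h7 := h.fst
    have h8 : (co (twT N x)).1 ≤ (co (twT N x)).2 := h.stair.chart.mem _ h.mem
    have h9 := h.th
    omega

/-- the twins are harmless below the energy 51 -/
theorem WL.twinPair51 (W : WL r n0 N b θ) {x : P} (hx : x ∈ twY (2 * 7) N) :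
    TwinPair 7 (thX (twY (2 * 7) N) (twT N) (fun x => θ (topOf x) x)) 51 (twT N x) x := by
  classical
  have T := W.twSys
  have h1 := mem_twY.mp hx
  have hlev : lev (twT N x) = 2 * 7 + 1 := by rw [T.lev hx]; exact h1.2.1
  have hnY : twT N x ∉ twY (2 * 7) N := fun h => T.nat x hx (mem_twY.mp h).1
  obtain ⟨h3, h4⟩ := W.tw_th hx
  have h5 := W.tw_kap hx
  have hth : thX (twY (2 * 7) N) (twT N) (fun x => θ (topOf x) x) (twT N x) =
      θ (topOf (twT N x)) (twT N x) := thX_not hnY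
  have hth' : thX (twY (2 * 7) N) (twT N) (fun x => θ (topOf x) x) x =
      θ (topOf (twT N x)) (twT N x) := thX_of hx
  refine ⟨?_, T.up x hx, ?_, ?_, ?_, ?_, ?_⟩
  · intro h
    exact T.nat x hx (h.symm ▸ h1.1)
  · rw [hth]; exact h3
  · rw [hth, hth']
  · rw [hth, hlev]; omega
  · rw [hth]
    have h6 : ct 7 (θ (topOf (twT N x)) (twT N x) + 1) (twT N x) ≤
        ∑ y, (if twT N x ≤ y then lev y - 7 else 0) := by
      rw [ct_eq_sum]
      refine Finset.sum_le_sum fun y _ => ?_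
      split_ifs
      · exact Nat.min_le_right _ _
      · exact le_rfl
    omega
  · rw [hth]
    have h6 := ct_succ 7 (θ (topOf (twT N x)) (twT N x) + 1) (twT N x)
    rw [hlev, Nat.min_eq_left (by omega)] at h6
    omega

theorem WL.twinPair (W : WL r n0 N b θ) {x : P} (hx : x ∈ twY (2 * 7) N) :
    TwinPair 7 (thX (twY (2 * 7) N) (twT N) (fun x => θ (topOf x) x)) n0 (twT N x) x :=
  ⟨(W.twinPair51 hx).ne, (W.twinPair51 hx).up, (W.twinPair51 hx).one_le, (W.twinPair51 hx).eq,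
    (W.twinPair51 hx).le, W.hn0.trans (W.twinPair51 hx).costF, W.hn0.trans (W.twinPair51 hx).costT⟩

/-- the data of all tops -/
lemma WL.compL (W : WL r n0 N b θ) : ∃ B : Tops P → P → Prop, ∀ t,
    Dd.CompDataL (unnat N) topOf t 7 (b t) n0 (fun x => θ (topOf x) x)
      (fun x => x ∉ unnat N ∧ B (topOf x) x) := by
  have h : ∀ t, ∃ Bt : P → Prop, NatTop 7 t (b t) (N t) (θ t) Bt ∨
      Sg.LocL 7 (b t) n0 (N t) (θ t) Bt := by
    intro t
    rcases W.natTop t with ⟨B, h⟩ | ⟨⟨B, h⟩, -⟩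
    · exact ⟨B, Or.inl h⟩
    · exact ⟨B, Or.inr h⟩
  choose B hB using h
  refine ⟨B, fun t => ?_⟩
  rcases hB t with h | h
  · exact F6.compL_of_natTop h W.natSys _ fun _ _ => Iff.rfl
  · exact F6.compL_of_locL h W.natSys fun _ _ => Iff.rfl

/-- truncated data at window 7 -/
theorem WL.farT (W : WL r n0 N b θ) : FarT P 7 (r2 (2 * 7) N) (lv P 7).card
    (h2 (2 * 7) N θ) n0 := by
  obtain ⟨B, hB⟩ := W.compL
  have h := F6.farT_of_topsL W.gt.H.gradedBelow W.natSys (fun x hx => by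
    have := W.lt_lev hx
    omega) hB W.twSys (fun x hx => W.twinPair hx)
  rw [W.sum_b] at h
  exact h

/-- the anchors: the elements of level 15 below `y3, y4` -/
def Ank (n0 : ℕ) (N : Tops P → Finset P) (θ : Tops P → P → ℕ) (c : P) : Prop :=
  ∃ lo hi e A, LaD n0 N (θ (topOf c)) (topOf c) lo hi e A ∧ c ∈ A ∧ Sg.Mk e c 805306368

end Pool.Agent.GaussPoset.W7

end

/-! From `Pool.Agent.W_448w7_h94.WiD` -/

section

/-!
The elements of level at least 16 at the boundary; fold ends (MP_448cb3_co, S7, `j = 14`,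
window 7; after `FxC`, `FxD`).
-/

namespace Pool.Agent.GaussPoset.W7

set_option linter.unusedSectionVars false

open Polynomial Finset Fi Cl

universe u

variable {P : Type u} [Fintype P] [PartialOrder P] [DecidableEq P] {r n0 : ℕ}
  {N : Tops P → Finset P} {b : Tops P → ℕ} {θ : Tops P → P → ℕ}

/-- the costs below the elements of level 15 -/
lemma cost_chk : ∀ p ∈ [(67108864, 5), (201326592, 4), (402653184, 3)], 51 ≤
    min p.2 9 + (min p.2 8 +
      ∑ b ∈ (range 30).filter (fun b => (orM (fun a => La7um.getD a 0) 30 p.1).testBit b = true),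
        min p.2 (La7lv.getD b 0 - 7)) := by decide +kernel

/-- the elements below the other elements of level 15 cost at least 51 -/
lemma LaD.cost (W : WL r n0 N b θ) {t : Tops P} {lo hi : ℕ → ℕ} {e : ℕ → ℕ → P} {A : Finset P}
    (L : LaD n0 N (θ t) t lo hi e A) {x z : P} (hx : x ∈ A) (hzx : z ⋖ x) :
    51 ≤ ct 7 (θ t x + 1) z ∨ Sg.Mk e x 805306368 := by
  have key : ∀ p ∈ [((67108864 : ℕ), (5 : ℕ)), (201326592, 4), (402653184, 3)], Sg.Mk e x p.1 →
      51 ≤ ct 7 p.2 z := by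
    intro p hp hmk
    have h3 := cost_chk p hp
    have h4 := Sg.La7_ct L.word L.comp W.gt t.2 hmk.1 hmk.2 p.2
    rw [← h4] at h3
    have hlz := (W.gt.H.covBy_iff.mp hzx).2
    have h5 := ct_cov (i := 7) (k := p.2) hzx.1
    rw [hlz, hmk.1] at h5
    exact h3.trans (le_trans (by norm_num) h5)
  rcases L.dat.typ x hx with h | h | h | h
  · left
    rw [L.dat.th.p1 x hx h]
    exact key (67108864, 5) (by simp) h
  · left
    rw [L.dat.th.c12 x hx h]
    exact key (201326592, 4) (by simp) h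
  · left
    rw [L.dat.th.c23 x hx h]
    exact key (402653184, 3) (by simp) h
  · exact Or.inr h

lemma LaD.mem15 {t : Tops P} {lo hi : ℕ → ℕ} {e : ℕ → ℕ → P} {A : Finset P} {θ : P → ℕ}
    (L : LaD n0 N θ t lo hi e A) {x : P} (hx : x ∈ N t) (hl : 15 ≤ lev x) : x ∈ A ∧ lev x = 15 := by
  rw [L.nat, mem_union, mem_lowPart] at hx
  rcases hx with hx | hx
  · omega
  · exact ⟨hx, (L.cov hx).1⟩

/-- the boundary: level 15, large cost, or an element below an anchor -/
theorem WL.bd (W : WL r n0 N b θ) {z : P} (hz : z ∈ bdR (r2 (2 * 7) N)) :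
    lev z = 2 * 7 + 1 ∨ 51 ≤ cst 7 (h2 (2 * 7) N θ) z ∨
      (lev z = 16 ∧ h2 (2 * 7) N θ z = 2 ∧ ∃ c, Ank n0 N θ c ∧ z ⋖ c) := by
  classical
  have H := W.gt.H
  have T := W.twSys
  have hzR : z ∈ unnat N := (mem_sdiff.mp (mem_filter.mp hz).1).1
  have hlz := W.lt_lev hzR
  by_cases hl : lev z = 2 * 7 + 1
  · exact Or.inl hl
  right
  obtain ⟨u, hu, hzu, hh⟩ := hcan_spec
    (θ := thX (twY (2 * 7) N) (twT N) (fun x => θ (topOf x) x)) hz
  have hlu := (H.covBy_iff.mp hzu).2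
  have hc : ∀ k, h2 (2 * 7) N θ z = k → cst 7 (h2 (2 * 7) N θ) z = ct 7 k z := by
    intro k hk
    unfold ct cst ez
    rw [hk]
  have key : ∀ (u' : P) (k : ℕ), ct 7 k u = ct 7 k u' → 52 ≤ ct 7 k u' + k → k ≤ lev z - 7 →
      h2 (2 * 7) N θ z = k → 51 ≤ cst 7 (h2 (2 * 7) N θ) z := by
    intro u' k h3 h4 h5 h6
    have h7 := ct_cov (i := 7) (k := k) hzu.1
    rw [Nat.min_eq_left h5] at h7
    rw [hc k h6]
    omega
  by_cases huY : u ∈ twY (2 * 7) N
  · left
    rw [thX_of huY] at hh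
    have h3 := W.tw_th huY
    exact key (twT N u) _ (ct_congr_up fun w => (T.up u huY w).symm) (W.tw_kap huY) (by omega) hh
  · have huR : u ∉ unnat N := fun h => hu (mem_sdiff.mpr ⟨h, huY⟩)
    rw [thX_not huY] at hh
    rcases W.kap huR (by omega) with hF | hI | hO | hO
    · left
      rw [hF.th] at hh
      have h3 := sq_le_cst (i := 7) (h := h2 (2 * 7) N θ) (z := z) (by omega)
        (by show h2 (2 * 7) N θ z = _; rw [show h2 (2 * 7) N θ z = _ from hh]; omega) (by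
          intro k hk hk2
          exact hF.two z hzR hzu.le k (by omega) (by omega))
      have h4 : 9 ^ 2 ≤ (lev z - 7) ^ 2 := Nat.pow_le_pow_left (by omega) 2
      omega
    · left
      have h5 := W.farT.le_lev z hz
      exact key u _ rfl hI (by rw [show h2 (2 * 7) N θ z = _ from hh] at h5; exact h5) hh
    · left
      rw [hc _ hh]
      exact hO.oth.h9 z hzR u hO.mem (by omega) hzu
    · obtain ⟨lo, hi, e, A, L⟩ := hO.ex
      obtain ⟨huA, hu15⟩ := L.mem15 hO.mem (by omega)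
      rcases L.cost W huA hzu with h3 | h3
      · left
        rw [hc _ hh]
        exact h3
      · right
        have h4 := L.dat.th.c34 u huA h3
        refine ⟨by omega, ?_, u, ⟨lo, hi, e, A, L, huA, h3⟩, hzu⟩
        show hcan _ _ z = 2
        rw [hh, h4]

/-- the number of the elements of level 2 above a strip `La7` -/
lemma LaD.cn2 {t : Tops P} {lo hi : ℕ → ℕ} {e : ℕ → ℕ → P} {A : Finset P} {θ : P → ℕ}
    (L : LaD n0 N θ t lo hi e A) : cn 2 (t : P) ≤ 1 := by
  have h0 : cn 2 (t : P) = hi 2 + 1 - lo 2 := by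
    classical
    unfold cn
    exact L.comp.card_row (by omega)
  rw [h0]
  have := L.word.trunk 2 (by omega)
  omega

lemma WL.nab_le_cn (W : WL r n0 N b θ) {v : P} (hl : lev v ≤ 2 * 7) (l : ℕ) :
    nab l v ≤ cn l (topOf v : P) := by
  classical
  unfold nab cn
  refine Finset.card_le_card fun x hx => ?_
  rw [mem_filter] at hx ⊢
  refine ⟨hx.1, ?_⟩
  rw [W.natSys.cp v x hx.2 (W.low hl)]
  exact le_topOf x

theorem WL.fold_typ (W : WL r n0 N b θ) {x : P} (hx : Fd 7 x) :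
    ∃ Nc co, Fi.FI 7 7 N b θ x Nc co := by
  have H := W.gt.H
  obtain ⟨hl, hu, h2⟩ := hx
  have hc := W.nab_le_cn hl.le 2
  have hxl : x ∈ lowPart (2 * 7) (topOf x : P) := mem_lowPart.mpr ⟨le_topOf x, hl.le⟩
  rcases W.tc (topOf x) with ⟨g1, g2, g3, g5, g6, g8, g9⟩ | ⟨Nc, co, g0, g1, g2, g3⟩ |
    ⟨Nc, co, g0, g1, g2, g3, g4⟩ | ⟨g, hb⟩ | ⟨lo, hi, e, A, g, hb⟩ | ⟨g1, g2, g3, g4⟩
  · omega
  · exfalso
    have hxN := g0.strip hxl
    have hcl := g0.chart.lev x hxN
    have h0 : (co x).1 = 0 ∨ (co x).2 = 0 := by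
      by_contra hcon
      have := chart_inner_uc g0.chart H hxN (by omega) (by omega)
      omega
    rw [nab_chart g0.chart hxN] at h2
    have := card_cellsAt_true (l := 2) (p := co x) (by omega)
    omega
  · have hxN := g0.strip hxl
    have hcl := g0.chart.lev x hxN
    have hS : (co x).1 ≤ (co x).2 := g0.chart.mem x hxN
    have h5 : (co x).1 ≠ 0 := by
      intro h5
      rw [nab_chart g0.chart hxN] at h2
      have := card_cellsAt_shift (l := 2) (p := co x) hS (by omega)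
      omega
    have h6 : (co x).1 = (co x).2 := by
      by_contra hcon
      have := chartS_inner_uc g0.chart H hxN (by omega) (by omega)
      omega
    exact ⟨Nc, co, g0, g1, g2, g3, hxN, Prod.ext (by simp only; omega) (by simp only; omega), g4⟩
  · have := g.h8
    omega
  · have := g.cn2
    omega
  · omega

lemma WL.fold_th (W : WL r n0 N b θ) {x : P} (hx : Fd 7 x) :
    θ (topOf x) x = 1 := by
  obtain ⟨Nc, co, h⟩ := W.fold_typ hx
  rw [h.th]
  unfold thS
  rw [if_neg (fold_not_junk h.stair.chart h.mem (by rw [h.cell]; show 1 ≤ 7; omega)), h.cell]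
  norm_num

lemma WL.fold_prof (W : WL r n0 N b θ) {x : P} (hx : Fd 7 x) : Prof 7 x (pF 7) := by
  obtain ⟨Nc, co, h⟩ := W.fold_typ hx
  intro d hd
  rw [nab_chart h.stair.chart h.mem, h.cell]
  have := card_cellsAt_shift (l := 2 * 7 - d) (p := (7, 7)) le_rfl (by simp only; omega)
  simp only at this
  unfold pF
  omega

/-- joins below different tops are in `r2` -/
theorem WL.join_r2 (W : WL r n0 N b θ) {z x x' : P} (ht : topOf x ≠ topOf x') (hzx : z ⋖ x)
    (hzx' : z ⋖ x') : z ∈ r2 (2 * 7) N := by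
  have HN := W.natSys
  refine mem_sdiff.mpr ⟨?_, fun hY => ?_⟩
  · by_contra h
    exact ht ((HN.cp z x hzx.1.le h).symm.trans (HN.cp z x' hzx'.1.le h))
  · have h := W.twSys.nat z hY
    exact ht ((HN.cp _ x ((W.twSys.cov hY).mpr hzx).1.le h).symm.trans
      (HN.cp _ x' ((W.twSys.cov hY).mpr hzx').1.le h))

end Pool.Agent.GaussPoset.W7

end

/-! From `Pool.Agent.W_448w7_h94.WiE` -/

section

/-!
The elements of level 14, two neighbours, labels (MP_448cb3_co, S7, `j = 14`, window 7; after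
`FxE`).
-/

namespace Pool.Agent.GaussPoset.W7

set_option linter.unusedSectionVars false

open Polynomial Finset Fi Cl

universe u

variable {P : Type u} [Fintype P] [PartialOrder P] [DecidableEq P] {r n0 : ℕ}
  {N : Tops P → Finset P} {b : Tops P → ℕ} {θ : Tops P → P → ℕ}

/-- the kinds of elements of level `2 m` -/
theorem WL.kind (W : WL r n0 N b θ) {x : P} (hl : lev x = 2 * 7) :
    Fi.Full 7 7 N θ x ∨ Fd 7 x ∨ Ot N θ x ∨ ((Win.uc x).card = 2 ∧ NopT 7 (topOf x)) ∨
      Lx n0 N θ x ∨ Bx x := by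
  have H := W.gt.H
  have hlow := W.low hl.le
  have hxt : x ∈ N (topOf x) := W.natSys.mem_iff.mpr ⟨hlow, rfl⟩
  rcases W.tc (topOf x) with ⟨g1, g2, g3, g5, g6, g8, g9⟩ | ⟨Nc, co, g0, g1, g2, g3⟩ |
    ⟨Nc, co, g0, g1, g2, g3, g4⟩ | ⟨g, hb⟩ | ⟨lo, hi, e, A, g, hb⟩ | ⟨g1, g2, g3, g4⟩
  · exact Or.inl (W.light_case hlow g1 g2)
  · rcases W.rect_case hlow g0 g1 g2 g3 with h | ⟨Nc', co', h⟩
    · exact Or.inl h
    · exact Or.inr (Or.inr (Or.inr (Or.inl ⟨chart_inner_uc h.rect.chart H h.mem h.fst h.snd,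
        h.nop⟩)))
  · rcases W.stair_case hlow g0 g1 g2 g3 g4 with h | ⟨Nc', co', h⟩
    · exact Or.inl h
    · have h1 := h.stair.chart.lev x h.mem
      have h2 : (co' x).1 ≤ (co' x).2 := h.stair.chart.mem x h.mem
      have h0 := h.fst
      by_cases h3 : (co' x).1 = (co' x).2
      · refine Or.inr (Or.inl ⟨hl, ?_, ?_⟩)
        · rw [Wd.uc_card_nab H (by omega), nab_chart h.stair.chart h.mem]
          have := card_cellsAt_shift (l := lev x - 1) (p := co' x) h2 (by omega)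
          omega
        · rw [nab_chart h.stair.chart h.mem]
          have := card_cellsAt_shift (l := 2) (p := co' x) h2 (by omega)
          omega
      · exact Or.inr (Or.inr (Or.inr (Or.inl ⟨chartS_inner_uc h.stair.chart H h.mem h.fst
          (by omega), h.nop⟩)))
  · exact Or.inr (Or.inr (Or.inl ⟨hxt, g⟩))
  · exact Or.inr (Or.inr (Or.inr (Or.inr (Or.inl ⟨hxt, lo, hi, e, A, g⟩))))
  · exact Or.inr (Or.inr (Or.inr (Or.inr (Or.inr ⟨hl.le, g3, g4⟩))))

/-- two neighbours of the level `2 m`: the element is natural or a twin -/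
theorem WL.near (W : WL r n0 N b θ) {z x x' : P} (hz : z ∈ r2 (2 * 7) N)
    (hl : lev z = 2 * 7 + 1) (hzx : z ⋖ x) (hzx' : z ⋖ x') (hne : x ≠ x')
    (h1 : ucv x x' = 1) : False := by
  classical
  have H := W.gt.H
  have HN := W.natSys
  have hlx : lev x = 2 * 7 := by
    have := (H.covBy_iff.mp hzx).2
    omega
  have hlx' : lev x' = 2 * 7 := by
    have := (H.covBy_iff.mp hzx').2
    omega
  rw [mem_sdiff] at hz
  have hzU := hz.1
  obtain ⟨p, hp⟩ := Finset.card_eq_one.mp h1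
  have hp2 : x ⋖ p ∧ x' ⋖ p := by
    have : p ∈ (univ.filter (fun y : P => x ⋖ y ∧ x' ⋖ y)) := by rw [hp]; simp
    simpa using this
  have hxt : topOf x = topOf p := HN.cp x p hp2.1.le (W.low hlx.le)
  have hxt' : topOf x' = topOf p := HN.cp x' p hp2.2.le (W.low hlx'.le)
  have hxle : x ≤ (topOf p : P) := by rw [← hxt]; exact le_topOf x
  have hxle' : x' ≤ (topOf p : P) := by rw [← hxt']; exact le_topOf x'
  have hxN : x ∈ N (topOf p) := HN.mem_iff.mpr ⟨W.low hlx.le, hxt⟩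
  have hxN' : x' ∈ N (topOf p) := HN.mem_iff.mpr ⟨W.low hlx'.le, hxt'⟩
  have twin : ∀ y : P, y ∉ unnat N → y ⋖ x → y ⋖ x' → False := fun y hy hyx hyx' =>
    hz.2 (mem_twY.mpr ⟨hzU, hl, y, hy, up_of_pair H hzx hzx' hyx hyx' hne⟩)
  rcases W.tc (topOf p) with ⟨g1, g2, g3, g5, g6, g8, g9⟩ | ⟨Nc, co, g0, g1, g2, g3⟩ |
    ⟨Nc, co, g0, g1, g2, g3, g4⟩ | ⟨g, hb⟩ | ⟨lo, hi, e, A, g, hb⟩ | ⟨g1, g2, g3, g4⟩
  · refine mem_unnat.mp hzU (topOf p) ?_
    rw [g1, mem_onlyB]
    intro s hs hzs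
    have hne2 : z ≠ s := by rintro rfl; omega
    obtain ⟨v, hv, hvs⟩ := Hul.exists_cov (lt_of_le_of_ne hzs hne2)
    rcases uc_pair H hzx hzx' hne hv with h | h
    · rw [h] at hvs
      exact HN.top_eq hxN hs hvs
    · rw [h] at hvs
      exact HN.top_eq hxN' hs hvs
  · have hx : x ∈ Nc := g0.strip (mem_lowPart.mpr ⟨hxle, hlx.le⟩)
    have hx' : x' ∈ Nc := g0.strip (mem_lowPart.mpr ⟨hxle', hlx'.le⟩)
    have hpN := g0.chart.up x hx p hp2.1.le
    have e1 := (chart_cov g0.chart H hx hpN).mp hp2.1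
    have e2 := (chart_cov g0.chart H hx' hpN).mp hp2.2
    have hcne : co x ≠ co x' := fun h => hne (g0.chart.inj x hx x' hx' h)
    have hzN : z ∉ Nc := fun h => mem_unnat.mp hzU (topOf p) (by
      rw [g1]
      exact mem_natR.mpr (Or.inl h))
    have key : ∀ x x' : P, x ∈ Nc → x' ∈ Nc → z ⋖ x → z ⋖ x' →
        co x = ((co p).1 + 1, (co p).2) → co x' = ((co p).1, (co p).2 + 1) →
        ∃ y, y ∉ unnat N ∧ y ⋖ x ∧ y ⋖ x' := by
      intro x x' hx hx' hzx hzx' hcx hcx'
      obtain ⟨y, hy, -, hyx, hyx', hyz⟩ := max_pair g0.chart g0.max H hzN hx hx' hzx hzx' hcx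
        hcx' trivial
      refine ⟨y, (HN.mem_iff (t := topOf p).mp ?_).1, hyx, hyx'⟩
      rw [g1]
      exact mem_natR.mpr (Or.inl hy)
    rcases e1 with e1 | e1
    · rcases e2 with e2 | e2
      · exact hcne (Prod.ext (by omega) (by omega))
      · obtain ⟨y, h3, h4, h5⟩ := key x x' hx hx' hzx hzx' (Prod.ext e1.1 e1.2)
          (Prod.ext e2.1 e2.2)
        exact twin y h3 h4 h5
    · rcases e2 with e2 | e2
      · obtain ⟨y, h3, h4, h5⟩ := key x' x hx' hx hzx' hzx (Prod.ext e2.1 e2.2)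
          (Prod.ext e1.1 e1.2)
        exact twin y h3 h5 h4
      · exact hcne (Prod.ext (by omega) (by omega))
  · have hx : x ∈ Nc := g0.strip (mem_lowPart.mpr ⟨hxle, hlx.le⟩)
    have hx' : x' ∈ Nc := g0.strip (mem_lowPart.mpr ⟨hxle', hlx'.le⟩)
    have hpN := g0.chart.up x hx p hp2.1.le
    have e1 := (chart_cov g0.chart H hx hpN).mp hp2.1
    have e2 := (chart_cov g0.chart H hx' hpN).mp hp2.2
    have hcne : co x ≠ co x' := fun h => hne (g0.chart.inj x hx x' hx' h)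
    have hzN : z ∉ Nc := fun h => mem_unnat.mp hzU (topOf p) (by
      rw [g1]
      exact mem_natS.mpr (Or.inl h))
    have hSx : (co x).1 ≤ (co x).2 := g0.chart.mem x hx
    have hSx' : (co x').1 ≤ (co x').2 := g0.chart.mem x' hx'
    have key : ∀ x x' : P, x ∈ Nc → x' ∈ Nc → z ⋖ x → z ⋖ x' → (co x).1 ≤ (co x).2 →
        co x = ((co p).1 + 1, (co p).2) → co x' = ((co p).1, (co p).2 + 1) →
        ∃ y, y ∉ unnat N ∧ y ⋖ x ∧ y ⋖ x' := by
      intro x x' hx hx' hzx hzx' hS hcx hcx'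
      obtain ⟨y, hy, -, hyx, hyx', hyz⟩ := max_pair g0.chart g0.max H hzN hx hx' hzx hzx' hcx
        hcx' (by
          rw [hcx] at hS
          simp only at hS ⊢
          omega)
      refine ⟨y, (HN.mem_iff (t := topOf p).mp ?_).1, hyx, hyx'⟩
      rw [g1]
      exact mem_natS.mpr (Or.inl hy)
    rcases e1 with e1 | e1
    · rcases e2 with e2 | e2
      · exact hcne (Prod.ext (by omega) (by omega))
      · obtain ⟨y, h3, h4, h5⟩ := key x x' hx hx' hzx hzx' hSx (Prod.ext e1.1 e1.2)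
          (Prod.ext e2.1 e2.2)
        exact twin y h3 h4 h5
    · rcases e2 with e2 | e2
      · obtain ⟨y, h3, h4, h5⟩ := key x' x hx' hx hzx' hzx hSx' (Prod.ext e2.1 e2.2)
          (Prod.ext e1.1 e1.2)
        exact twin y h3 h5 h4
      · exact hcne (Prod.ext (by omega) (by omega))
  · exact hne (g.h5 x x' hxle hxle' hlx hlx')
  · have hc : ∀ y, z ⋖ y → y ≤ (topOf p : P) := by
      intro y hy
      rcases uc_pair H hzx hzx' hne hy with e | e
      · rw [e]; exact hxle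
      · rw [e]; exact hxle'
    rcases g.dat.full z hl hc with h | h
    · refine mem_unnat.mp hzU (topOf p) ?_
      rw [g.nat]
      exact mem_union_right _ h
    · obtain ⟨b1, hb1, hbit1, e1⟩ := (h.2 x).mp hzx
      obtain ⟨b2, hb2, hbit2, e2⟩ := (h.2 x').mp hzx'
      have key : ∀ b < 30, Nat.testBit 33554432 b = true → b = 25 := by decide +kernel
      rw [key b1 hb1 hbit1] at e1
      rw [key b2 hb2 hbit2] at e2
      exact hne (e1.symm.trans e2)
  · exact g3 z hl (hzx.1.le.trans hxle)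

/-- the label of a boundary element of level `2 m + 1` -/
lemma WL.h2_eqI (W : WL r n0 N b θ) {z x : P} (hz : z ∈ r2 (2 * 7) N) (hl : lev z = 2 * 7 + 1)
    (hzx : z ⋖ x) (hmin : ∀ y, z ⋖ y → θ (topOf x) x ≤ θ (topOf y) y) :
    h2 (2 * 7) N θ z = θ (topOf x) x + 1 := by
  classical
  have H := W.gt.H
  have hlev : ∀ y, z ⋖ y → lev y = 2 * 7 := by
    intro y hy
    have := (H.covBy_iff.mp hy).2
    omega
  have hnY : ∀ y, z ⋖ y → y ∉ twY (2 * 7) N := by
    intro y hy h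
    have h1 := hlev y hy
    have h2 := (mem_twY.mp h).2.1
    omega
  have hnR : ∀ y, z ⋖ y → y ∉ r2 (2 * 7) N := fun y hy h =>
    W.low (hlev y hy).le (mem_sdiff.mp h).1
  have hbd : z ∈ bdR (r2 (2 * 7) N) := mem_filter.mpr ⟨hz, x, hnR x hzx, hzx⟩
  refine le_antisymm ?_ ?_
  · refine (hcan_le (θ := thX (twY (2 * 7) N) (twT N) (fun x => θ (topOf x) x)) (hnR x hzx)
      hzx).trans ?_
    rw [thX_not (hnY x hzx)]
  · obtain ⟨y, hy, hzy, hh⟩ := hcan_spec
      (θ := thX (twY (2 * 7) N) (twT N) (fun x => θ (topOf x) x)) hbd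
    rw [thX_not (hnY y hzy)] at hh
    have h3 := hmin y hzy
    show _ ≤ hcan _ _ z
    omega

lemma WL.mem_bd (W : WL r n0 N b θ) {z : P} (hz : z ∈ r2 (2 * 7) N) (hl : lev z = 2 * 7 + 1) :
    z ∈ bdR (r2 (2 * 7) N) := by
  classical
  have hzt : z < (topOf z : P) := lt_of_le_of_ne (le_topOf z) (by
    intro h
    have := (topOf z).2
    rw [← h] at this
    omega)
  obtain ⟨x, hzx, -⟩ := Hul.exists_cov hzt
  refine mem_filter.mpr ⟨hz, x, fun h => ?_, hzx⟩
  have h1 := (W.gt.H.covBy_iff.mp hzx).2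
  exact W.low (by omega) (mem_sdiff.mp h).1

/-- joins of natural elements of level `2 m` of different tops -/
lemma WL.nab_joinI (W : WL r n0 N b θ) {z x x' : P} (hl : lev z = 2 * 7 + 1) (hzx : z ⋖ x)
    (hzx' : z ⋖ x') (ht : topOf x ≠ topOf x') {l : ℕ} (hl2 : l ≤ 2 * 7) :
    nab l z = nab l x + nab l x' := by
  have H := W.gt.H
  have HN := W.natSys
  have h1 := (H.covBy_iff.mp hzx).2
  have h2 := (H.covBy_iff.mp hzx').2
  exact nab_join_eq HN H (HN.mem_iff.mpr ⟨W.low (by omega), rfl⟩)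
    (HN.mem_iff.mpr ⟨W.low (by omega), rfl⟩) ht hzx hzx' (by omega)

end Pool.Agent.GaussPoset.W7

end

/-! From `Pool.Agent.W_448w7_h94.WiF` -/

section

/-!
The table of the elements of level 15 (MP_448cb3_co, S7, `j = 14`, window 7; after `FxF`).
-/

namespace Pool.Agent.GaussPoset.W7

set_option linter.unusedSectionVars false

open Polynomial Finset Fi Cl Dd Wd

universe u

variable {P : Type u} [Fintype P] [PartialOrder P] [DecidableEq P] {r n0 : ℕ}
  {N : Tops P → Finset P} {b : Tops P → ℕ} {θ : Tops P → P → ℕ}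

/-- what is known about the elements of level 15: no pendants below fold ends, nothing below both
ends of a stair, the joins are joins of a fold end and an end `(5;25)` -/
structure JH (P : Type u) [Fintype P] [PartialOrder P] [DecidableEq P] : Prop where
  hP : ∀ z x : P, Fd 7 x → ¬ Pend z x
  hC : ∀ z x x' : P, Fd 7 x → (Win.uc x').card = 1 → topOf x' = topOf x → x ≠ x' →
    z ⋖ x → z ⋖ x' → False
  hJ : ∀ z x x' : P, lev z = 15 → z ⋖ x → z ⋖ x' → topOf x ≠ topOf x' →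
    (Fd 7 x ∧ Prof 7 x' (gD p5)) ∨ (Fd 7 x' ∧ Prof 7 x (gD p5))

/-- the table -/
inductive Rw (n0 : ℕ) (N : Tops P → Finset P) (θ : Tops P → P → ℕ) (z : P) : Prop
  | p0 (t : Tops P) (lo hi : ℕ → ℕ) (e : ℕ → ℕ → P) (A : Finset P)
      (L : LaD n0 N (θ t) t lo hi e A) (hm : Sg.Mk e z 33554432)
  | fb (x x' : P) (hx : Fd 7 x) (hx' : Prof 7 x' (gD p5)) (ht : topOf x ≠ topOf x')
      (hzx : z ⋖ x) (hzx' : z ⋖ x')
  | big (h : 51 ≤ cst 7 (h2 (2 * 7) N θ) z) (h' : ∀ k, 2 ≤ k → k ≤ 2 * 7 → 2 ≤ nab k z)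

/-- the table of the elements of level 15 -/
theorem WL.rows (W : WL r n0 N b θ) (J : JH P) {z : P} (hz : z ∈ r2 (2 * 7) N)
    (hl : lev z = 2 * 7 + 1) : Rw n0 N θ z := by
  classical
  have H := W.gt.H
  have hzU : z ∈ unnat N := (mem_sdiff.mp hz).1
  have hlev : ∀ y, z ⋖ y → lev y = 2 * 7 := by
    intro y hy
    have := (H.covBy_iff.mp hy).2
    omega
  have hzt : z < (topOf z : P) := lt_of_le_of_ne (le_topOf z) (by
    intro h
    have := (topOf z).2
    rw [← h] at this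
    omega)
  obtain ⟨x, hzx, hxt⟩ := Hul.exists_cov hzt
  have hlx := hlev x hzx
  have full : (∀ y, z ⋖ y → Fi.Full 7 7 N θ y) → Rw n0 N θ z := by
    intro h
    refine Rw.big ?_ (fun k hk hk2 => (h x hzx).two z hzU hzx.le k hk (by
      rw [hlev x hzx]; exact hk2))
    have h3 := W.h2_eqI hz hl hzx (fun y hy => by
      rw [(h x hzx).th, (h y hy).th, hlev x hzx, hlev y hy])
    rw [(h x hzx).th, hlev x hzx] at h3
    have h5 := sq_le_cst (i := 7) (h := h2 (2 * 7) N θ) (z := z) (by omega)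
      (by rw [h3]; omega) (by
        intro k hk hk2
        exact (h x hzx).two z hzU hzx.le k (by omega) (by rw [hlev x hzx]; omega))
    rw [hl] at h5
    omega
  have ot : ∀ x, Ot N θ x → z ⋖ x → ¬ Pend z x := by
    intro x h hzx hp
    exact mem_unnat.mp hzU (topOf x) (h.oth.h6 z x hl (le_topOf x) (hlev x hzx) hp)
  have la : ∀ x, Lx n0 N θ x → (∀ y, z ⋖ y → y ≤ (topOf x : P)) → Rw n0 N θ z := by
    intro x h hy
    obtain ⟨lo, hi, e, A, L⟩ := h.ex
    rcases L.dat.full z hl hy with h1 | h1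
    · exfalso
      refine mem_unnat.mp hzU (topOf x) ?_
      rw [L.nat]
      exact mem_union_right _ h1
    · exact Rw.p0 _ lo hi e A L h1
  have bare : ∀ x, Bx x → ¬ z ⋖ x := fun x h hzx => h.no z hl (hzx.1.le.trans (le_topOf x))
  by_cases honly : ∀ y, z ⋖ y → y = x
  · rcases W.kind hlx with h | h | h | h | h | h
    · refine full fun y hy => ?_
      rw [honly y hy]
      exact h
    · exact absurd ⟨hzx, honly⟩ (J.hP z x h)
    · exact absurd ⟨hzx, honly⟩ (ot x h hzx)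
    · exact absurd honly (h.2 x z (le_topOf x) hlx h.1 hzx)
    · exact la x h fun y hy => by rw [honly y hy]; exact le_topOf x
    · exact absurd hzx (bare x h)
  · push Not at honly
    obtain ⟨x', hzx', hne'⟩ := honly
    have hne : x ≠ x' := Ne.symm hne'
    have hlx' := hlev x' hzx'
    by_cases ht : topOf x = topOf x'
    · have hgt : Win.GoodTo P r (13 + 1) := W.gt
      rcases (Win.near_level' hgt (by omega)).1 z x x' (by omega) hzx hzx' hne with
        h7 | ⟨h7, h8, -⟩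
      · exact (W.near hz hl hzx hzx' hne h7).elim
      · have hQ : ∀ y, z ⋖ y → ¬ Ot N θ y := by
          intro y hy hQ
          rcases uc_pair H hzx hzx' hne hy with h | h
          · subst h
            exact hne (hQ.oth.h5 y x' (le_topOf y) (by rw [ht]; exact le_topOf x') hlx hlx')
          · subst h
            exact hne (hQ.oth.h5 x y (by rw [← ht]; exact le_topOf x) (le_topOf y) hlx hlx')
        have hle : ∀ y, z ⋖ y → y ≤ (topOf x : P) := by
          intro y hy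
          rcases uc_pair H hzx hzx' hne hy with e | e
          · rw [e]; exact le_topOf x
          · rw [e, ht]; exact le_topOf x'
        rcases W.kind hlx with h | h | h | h | h | h
        · rcases W.kind hlx' with h' | h' | h' | h' | h' | h'
          · refine full fun y hy => ?_
            rcases uc_pair H hzx hzx' hne hy with e | e
            · rw [e]; exact h
            · rw [e]; exact h'
          · exact (J.hC z x' x h' h7 ht hne' hzx' hzx).elim
          · exact (hQ x' hzx' h').elim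
          · omega
          · exact la x' h' fun y hy => by rw [← ht]; exact hle y hy
          · exact absurd hzx' (bare x' h')
        · exact (J.hC z x x' h h8 ht.symm hne hzx hzx').elim
        · exact (hQ x hzx h).elim
        · omega
        · exact la x h hle
        · exact absurd hzx (bare x h)
    · rcases J.hJ z x x' hl hzx hzx' ht with ⟨h1, h2⟩ | ⟨h1, h2⟩
      · exact Rw.fb x x' h1 h2 ht hzx hzx'
      · exact Rw.fb x' x h1 h2 (Ne.symm ht) hzx' hzx

/-- the end `(5;25)` has a positive threshold -/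
lemma WL.th_p5 (W : WL r n0 N b θ) {x z : P} (hl : lev x = 2 * 7) (h : Prof 7 x (gD p5))
    (hzx : z ⋖ x) : 1 ≤ θ (topOf x) x := by
  rcases W.kind hl with h1 | h1 | h1 | h1 | h1 | h1
  · rw [h1.th, hl]
    norm_num
  · rw [W.fold_th h1]
  · rw [(h1.oth.h7 x (le_topOf x) hl).2.1]
    norm_num
  · exfalso
    have h2 := h 1 (by norm_num)
    have h3 : gD p5 1 = 0 := by decide
    have h4 := Wd.uc_card_nab W.gt.H (x := x) (by omega)
    rw [hl] at h4
    rw [h3] at h2
    have h5 := h1.1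
    rw [h4] at h5
    omega
  · obtain ⟨lo, hi, e, A, L⟩ := h1.ex
    obtain ⟨a, ha, hax⟩ := Sg.La7_surj L.word L.comp (le_topOf x) hl.le
    have h25 : 25 ≤ a := Sg.La7_lv14 a ha (by
      rw [← (Sg.La7_le L.word L.comp ha).2, hax]
      exact hl)
    have hT := L.dat.th
    have hx0 : θ (topOf x) x = θ (topOf x) (Sg.ce e a) := by rw [hax]
    rw [hx0]
    obtain rfl | rfl | rfl | rfl | rfl : a = 25 ∨ a = 26 ∨ a = 27 ∨ a = 28 ∨ a = 29 := by omega
    · rw [hT.y0]; norm_num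
    · rw [hT.y1]; norm_num
    · rw [hT.y2]; norm_num
    · rw [hT.y3]
    · exfalso
      obtain ⟨g1, g2⟩ := L.word.rows L.comp
      have hcv : ∀ a < 30, La7cv.getD a 0 < 2 ^ a := La7_us.cv
      have hn := strip_nab La7_strip L.comp W.gt.H W.gt.good (topOf x).2 le_rfl g1 g2 hcv
        Sg.La7_um (a := 29) (by decide +kernel) 8
      have c1 : ((range 30).filter (fun b =>
        (La7um.getD 29 0).testBit b = true ∧ La7lv.getD b 0 = 8)).card = 1 := by decide +kernel
      have h2 := h 6 (by norm_num)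
      have h3 : gD p5 6 = 1 := by decide
      rw [h3] at h2
      have h4 : nab 8 x = 1 := by
        rw [← hax]
        exact hn.trans c1
      norm_num at h2
      omega
  · exfalso
    have h2 := (W.gt.H.covBy_iff.mp hzx).2
    exact h1.no z (by omega) (hzx.1.le.trans (le_topOf x))

end Pool.Agent.GaussPoset.W7

end

/-! From `Pool.Agent.W_448w7_h22.SpA` -/

section

/-!
A component with an anchor of level 15 and the label 2: the two factors off the frozen set
(MP_448cb3_co, S8, `j = 14`, window 7).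
-/

namespace Pool.Agent.GaussPoset.W7

set_option linter.unusedSectionVars false

open Polynomial Finset Fi

universe u

variable {P : Type u} [Fintype P] [PartialOrder P] [DecidableEq P]
variable {i n1 : ℕ} {R : Finset P} {θ : P → ℕ} {t : Tops P} {c : P} {D : Finset P}

theorem Sp.frz (S : Sp i n1 R θ t c D) : Frz i n1 R topOf θ := ⟨S.gr, S.low, S.hcp, S.bd⟩

lemma Sp.lev_R (S : Sp i n1 R θ t c D) : ∀ x ∈ R, i < lev x := fun x hx => by
  have := S.lR x hx
  omega

/-- the number of elements of the level `i` of the component -/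
lemma Sp.lv_T (S : Sp i n1 R θ t c D) : (lv (FT R topOf t) i).card = 2 := by
  classical
  have F := S.frz
  rw [← S.two]
  unfold lv
  have h3 : (univ.filter (fun x : FT R topOf t => lev x = i)) =
      (univ.filter (fun x : FT R topOf t => lev (x.1.1 : P) = i)) :=
    Finset.filter_congr fun x _ => by rw [F.levT]
  rw [h3, card_sub' (p := fun x : FO R => topOf (x : P) = t) (fun x : FO R => lev (x : P) = i),
    card_sub' (p := fun x : P => x ∉ R) (fun x : P => topOf x = t ∧ lev x = i)]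
  congr 1
  refine Finset.filter_congr fun x _ => ?_
  constructor
  · rintro ⟨-, h4, h5⟩
    exact ⟨h5, h4⟩
  · rintro ⟨h4, h5⟩
    exact ⟨fun h => by have := S.lev_R x h; omega, h5, h4⟩

/-- the number of elements of level `i` in the rest -/
lemma Sp.lv_R (S : Sp i n1 R θ t c D) : (lv (FR R topOf t) i).card + 2 = (lv P i).card := by
  classical
  have F := S.frz
  have h1 := card_split R topOf t (fun x => lev x = i) (fun x hx h => by
    have := S.lev_R x hx
    omega)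
  have h2 := S.two
  have h4 : (univ.filter (fun x : P => lev x = i ∧ topOf x = t)) =
      (univ.filter (fun x : P => lev x = i ∧ x ∉ R ∧ topOf x = t)) := by
    refine Finset.filter_congr fun x _ => ?_
    constructor
    · rintro ⟨h4, h5⟩
      exact ⟨h4, fun h => by have := S.lev_R x h; omega, h5⟩
    · rintro ⟨h4, -, h5⟩
      exact ⟨h4, h5⟩
  rw [h4] at h2
  have h3 : (univ.filter (fun x : FR R topOf t => lev x = i)) =
      (univ.filter (fun x : FR R topOf t => lev (x.1.1 : P) = i)) :=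
    Finset.filter_congr fun x _ => by rw [F.levR]
  unfold lv
  rw [h3]
  omega

/-- the number of elements of level below `i` in the rest -/
lemma Sp.below_R (S : Sp i n1 R θ t c D) : below (FR R topOf t) i + i = below P i := by
  classical
  have F := S.frz
  have h1 := card_split R topOf t (fun x => lev x < i) (fun x hx h => by
    have := S.lev_R x hx
    omega)
  have h2 := S.bel
  have h4 : (univ.filter (fun x : P => lev x < i ∧ topOf x = t)) =
      (univ.filter (fun x : P => lev x < i ∧ x ∉ R ∧ topOf x = t)) := by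
    refine Finset.filter_congr fun x _ => ?_
    constructor
    · rintro ⟨h4, h5⟩
      exact ⟨h4, fun h => by have := S.lev_R x h; omega, h5⟩
    · rintro ⟨h4, -, h5⟩
      exact ⟨h4, h5⟩
  rw [h4] at h2
  have h3 : (univ.filter (fun x : FR R topOf t => lev x < i)) =
      (univ.filter (fun x : FR R topOf t => lev (x.1.1 : P) < i)) :=
    Finset.filter_congr fun x _ => by rw [F.levR]
  unfold below
  rw [h3]
  omega

/-- the order of the component -/
lemma Sp.ordT (S : Sp i n1 R θ t c D) {n : ℕ} (hn : n < n1) :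
    (1 + X : ℤ[X]) ^ 2 ∣ Z (FT R topOf t) i n := by
  classical
  obtain ⟨L', h1, h2, h3, h4⟩ := S.frz.Z_T (cp := topOf) (t := t)
    (L := (univ : Finset (FT R topOf t))) (fun x y _ _ => mem_univ y)
  have h5 : ∀ x, x ∈ L' ↔ x ∉ R ∧ topOf x = t := by
    intro x
    constructor
    · exact h3 x
    · rintro ⟨h5, h6⟩
      exact (h2 ⟨⟨x, h5⟩, h6⟩).mp (mem_univ _)
  have h6 := S.clT L' h5 n hn
  rw [← h4] at h6
  have e : {x : FT R topOf t // x ∈ (univ : Finset (FT R topOf t))} ≃o FT R topOf t :=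
    { Equiv.subtypeUnivEquiv (fun x => mem_univ x) with
      map_rel_iff' := Iff.rfl }
  rwa [Z_iso e i n] at h6

/-- the anchor -/
def Sp.cT (S : Sp i n1 R θ t c D) : FT R topOf t := ⟨⟨c, S.cR⟩, S.cpc⟩

lemma Sp.lev_cT (S : Sp i n1 R θ t c D) : lev S.cT = i + 8 := by
  rw [S.frz.levT]
  exact S.clev

lemma Sp.ct_cT (S : Sp i n1 R θ t c D) : ct i 2 S.cT = 28 := by
  rw [S.frz.ctT]
  exact S.cct

lemma Sp.clsT (S : Sp i n1 R θ t c D) (L : Finset (FT R topOf t))
    (hL : ∀ x y, x ≤ y → x ∈ L → y ∈ L) (hc : S.cT ∈ L) :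
    ∃ L' : Finset P, (∀ x ∈ L', x ∉ R ∧ topOf x = t) ∧ (∀ x ∈ L', ∀ y, x ≤ y → y ∈ L') ∧
      c ∈ L' ∧ (∀ x : FT R topOf t, x ∈ L ↔ x.1.1 ∈ L') ∧
      ∀ i' n, Z {x // x ∈ L} i' n = Z {x // x ∈ L'} i' n := by
  obtain ⟨L', h1, h2, h3, h4⟩ := S.frz.Z_T hL
  exact ⟨L', h3, h1, (h2 _).mp hc, h2, h4⟩

lemma Sp.outT (S : Sp i n1 R θ t c D) (x : FT R topOf t) (hx : ¬ S.cT ≤ x) : i + 2 ≤ lev x := by
  rw [S.frz.levT]
  exact S.out x.1.1 x.1.2 x.2 (fun h => hx h)

/-- the component below the first pole -/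
theorem Sp.T_dvd (S : Sp i n1 R θ t c D) {β : P → ℕ} (hc : β c = 2)
    (hβ : ∀ x, x ∉ R → topOf x = t → β x ≤ 2) {a : ℕ} (ha : a < 30) :
    (1 + X : ℤ[X]) ^ 2 ∣ ZB (P := FT R topOf t) i ∅ 0 (fun x => β x.1.1) a := by
  refine StA_dvd (v := S.cT) (k := 2) (p := 2) (fun x => hβ _ x.1.2 x.2) hc ?_ ?_
  · intro L hL hv n hn
    obtain ⟨L', h1, h2, h3, -, h4⟩ := S.clsT L hL hv
    rw [h4]
    exact S.cls L' h1 h2 h3 n hn
  · rw [S.ct_cT]
    exact ha

/-- the component at the first pole -/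
theorem Sp.T_lead (S : Sp i n1 R θ t c D) {β : P → ℕ} (hc : β c = 2)
    (hβ : ∀ x, x ∉ R → topOf x = t → x ≠ c → β x = 0) :
    (1 + X : ℤ[X]) ^ 2 ∣ ZB (P := FT R topOf t) i ∅ 0 (fun x => β x.1.1) 30 +
      X ^ 13 * (1 + X) := by
  classical
  have e1 : (fun x : FT R topOf t => β x.1.1) = sgz S.cT 2 := by
    funext x
    by_cases hx : x = S.cT
    · rw [hx, sgz_self]
      exact hc
    · rw [sgz_ne _ hx]
      refine hβ _ x.1.2 x.2 fun h => hx ?_
      exact Subtype.ext (Subtype.ext h)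
  have h2 := StA_lead (i := i) (k := 2) (p := 2) (s := 13) (v := S.cT) (by norm_num)
    (by rw [S.lev_cT]; omega) (fun x hx => S.outT x hx) (fun L hL hv n hn => by
      obtain ⟨L', h1, h2, h3, -, h4⟩ := S.clsT L hL hv
      rw [h4]
      exact S.cls L' h1 h2 h3 n hn) (fun L hL => by
      obtain ⟨L', h1, h2, h3, h5, h4⟩ := S.clsT L (fun x y hxy hx =>
        (hL y).mpr (((hL x).mp hx).trans hxy)) ((hL _).mpr le_rfl)
      rw [h4]
      refine S.ld L' fun x => ?_
      constructor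
      · intro hx
        obtain ⟨h6, h7⟩ := h1 x hx
        exact (hL _).mp ((h5 ⟨⟨x, h6⟩, h7⟩).mpr hx)
      · intro hx
        exact h2 c h3 x hx)
  rw [e1]
  rw [S.ct_cT] at h2
  exact h2

/-- the component with a second bound at an element of `D` -/
theorem Sp.T_dvd2 (S : Sp i n1 R θ t c D) {β : P → ℕ} (hc : β c = 2)
    (hβ : ∀ x, x ∉ R → topOf x = t → β x ≤ 2) {d z : P} (hd : d ∈ D) (hdR : d ∉ R)
    (hdt : topOf d = t) (hβd : β d = 2) (hlz : lev z = i + 9)
    (hcov : ∀ y, z ⋖ y → y = c ∨ y = d) (hz : 40 ≤ ct i 2 z) {a : ℕ} (ha : a < 50) :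
    (1 + X : ℤ[X]) ^ 2 ∣ ZB (P := FT R topOf t) i ∅ 0 (fun x => β x.1.1) a := by
  classical
  have hβ' : ∀ x : FT R topOf t, β x.1.1 ≤ 2 := fun x => hβ _ x.1.2 x.2
  rw [StA_ZB_upL hβ' (fun L => S.cT ∈ L ∧ (⟨⟨d, hdR⟩, hdt⟩ : FT R topOf t) ∈ L)
    (fun e F h => ⟨StA_anchor (v := S.cT) hc h,
      StA_anchor (v := (⟨⟨d, hdR⟩, hdt⟩ : FT R topOf t)) hβd h⟩)]
  refine Finset.dvd_sum fun L hL => Finset.dvd_sum fun ab hab => ?_
  rw [mem_upsF] at hL
  rw [HasAntidiagonal.mem_antidiagonal] at hab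
  refine dvd_mul_of_dvd_left ?_ _
  obtain ⟨hL1, hL2, hL3⟩ := hL
  -- the cost
  have h1 : 38 ≤ cw {x // x ∈ L} i 2 := by
    rw [cw_subtype hL1]
    have h2 : ct i 2 z ≤ 2 + ∑ x ∈ L, min 2 (lev x - i) := by
      rw [ct_eq_sum, ← Finset.sum_filter]
      have h3 : (univ.filter (fun x : P => z ≤ x)) ⊆ insert z (L.image (fun x => x.1.1)) := by
        intro x hx
        rw [mem_insert]
        by_cases hxz : x = z
        · exact Or.inl hxz
        · right
          have h4 : z < x := lt_of_le_of_ne (mem_filter.mp hx).2 (Ne.symm hxz)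
          obtain ⟨w, hw, hwx⟩ := Hul.exists_cov h4
          rw [mem_image]
          rcases hcov w hw with rfl | rfl
          · have h5 : x ∉ R := S.frz.up _ _ hwx S.cR
            have h6 : topOf x = t := (S.hcp _ _ hwx S.cR).symm.trans S.cpc
            exact ⟨⟨⟨x, h5⟩, h6⟩, hL1 _ _ hwx hL2, rfl⟩
          · have h5 : x ∉ R := S.frz.up _ _ hwx hdR
            have h6 : topOf x = t := (S.hcp _ _ hwx hdR).symm.trans hdt
            exact ⟨⟨⟨x, h5⟩, h6⟩, hL1 _ _ hwx hL3, rfl⟩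
      refine (Finset.sum_le_sum_of_subset h3).trans ?_
      have h7 : ∑ x ∈ L.image (fun x : FT R topOf t => x.1.1), min 2 (lev x - i) =
          ∑ x ∈ L, min 2 (lev x - i) := by
        rw [Finset.sum_image (fun x _ y _ h => Subtype.ext (Subtype.ext h))]
        exact Finset.sum_congr rfl fun x _ => by rw [S.frz.levT]
      rw [← h7]
      by_cases h8 : z ∈ L.image (fun x : FT R topOf t => x.1.1)
      · rw [Finset.insert_eq_of_mem h8]
        omega
      · rw [Finset.sum_insert h8]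
        exact Nat.add_le_add_right (min_le_left _ _) _
    omega
  rcases Nat.lt_or_ge ab.1 (cw {x // x ∈ L} i 2) with h2 | h2
  · rw [ZB_const_zero h2]
    exact dvd_zero _
  · obtain ⟨c', hc'⟩ := Nat.exists_eq_add_of_le' h2
    rw [hc', ZB_const]
    obtain ⟨L', g1, g2, g3, g5, g4⟩ := S.clsT L hL1 hL2
    rw [g4]
    exact S.cls2 L' g1 g2 g3 ⟨d, hd, (g5 _).mp hL3⟩ c' (by omega)

end Pool.Agent.GaussPoset.W7

end

/-! From `Pool.Agent.W_448w7_h22.SpB` -/

section

/-!
A component with an anchor of level 15 and the label 2: the rest, the products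
(MP_448cb3_co, S8, `j = 14`, window 7).
-/

namespace Pool.Agent.GaussPoset.W7

set_option linter.unusedSectionVars false

open Polynomial Finset Fi

universe u

variable {P : Type u} [Fintype P] [PartialOrder P] [DecidableEq P]
variable {i n1 : ℕ} {R : Finset P} {θ : P → ℕ} {t : Tops P} {c : P} {D : Finset P}

/-- the order of the rest -/
theorem Sp.dvd_R (S : Sp i n1 R θ t c D) (β : P → ℕ)
    (hβ : ∀ x, x ∉ R → topOf x ≠ t → β x ≤ θ x) {n : ℕ} (hn : n < n1) :
    (1 + X : ℤ[X]) ^ ((lv P i).card - 2) ∣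
      ZB (P := FR R topOf t) i ∅ 0 (fun x => β x.1.1) n := by
  classical
  have h2 := S.lv_R
  let β' : P → ℕ := fun x => if topOf x = t then 0 else β x
  have e1 : (fun x : FT R topOf t => β' x.1.1) = 0 := by
    funext x
    exact if_pos x.2
  have e2 : (fun x : FR R topOf t => β' x.1.1) = (fun x : FR R topOf t => β x.1.1) := by
    funext x
    exact if_neg x.2
  refine dvd_of_prod (A := fun a => if a < n1 then Z (FT R topOf t) i a else 0)
    (B := fun a => ZB (P := FR R topOf t) i ∅ 0 (fun x => β x.1.1) a) (α := 2)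
    (β := (lv P i).card - 2) (N := n1) (u := below (FT R topOf t) i) ?_ ?_ ?_ n hn
  · rw [if_pos (by omega), Z_zero, S.lv_T]
  · intro a
    split_ifs with h
    · exact S.ordT h
    · exact dvd_zero _
  · intro n hn
    have h3 := S.bd β' (fun x hx => by
      show (if topOf x = t then 0 else β x) ≤ _
      split_ifs with h
      · exact Nat.zero_le _
      · exact hβ x hx h) n hn
    rw [S.frz.prod S.lev_R t, e1, e2,
      show (lv P i).card = 2 + ((lv P i).card - 2) by omega] at h3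
    convert h3 using 2
    · rename_i ab hab
      rw [HasAntidiagonal.mem_antidiagonal] at hab
      rw [if_pos (by omega), Z_eq_ZB]

/-- no energy of the rest below the cost of a bound -/
theorem Sp.R_zero (S : Sp i n1 R θ t c D) {β : P → ℕ} {v : P} (hvR : v ∉ R)
    (hvt : topOf v ≠ t) (hlv : i < lev v) (hv : 2 ≤ β v) {b : ℕ} (hb : b < ct i 2 v) :
    ZB (P := FR R topOf t) i ∅ 0 (fun x => β x.1.1) b = 0 := by
  have e0 : GaussPoset.lev (⟨⟨v, hvR⟩, hvt⟩ : FR R topOf t) = GaussPoset.lev v :=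
    S.frz.levR _
  refine ZB_bound_zero (z := (⟨⟨v, hvR⟩, hvt⟩ : FR R topOf t)) (by rw [e0]; exact hlv) ?_
  refine lt_of_lt_of_le hb ?_
  refine le_trans (ct_mono (i := i) (le_refl v) hv) ?_
  exact (S.frz.ctR (⟨⟨v, hvR⟩, hvt⟩ : FR R topOf t) i (β v)).ge

/-- the rest at the energy 0 -/
theorem Sp.R_lead0 (S : Sp i n1 R θ t c D) {β : P → ℕ}
    (hβ : ∀ x, x ∉ R → topOf x ≠ t → β x = 0) :
    ZB (P := FR R topOf t) i ∅ 0 (fun x => β x.1.1) 0 =
      X ^ (below (FR R topOf t) i) * (1 + X) ^ ((lv P i).card - 2) := by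
  have e1 : (fun x : FR R topOf t => β x.1.1) = 0 := by
    funext x
    exact hβ _ x.1.2 x.2
  have h3 := S.lv_R
  rw [e1, ← Z_eq_ZB, Z_zero, show (lv P i).card - 2 = (lv (FR R topOf t) i).card by omega]

/-- the rest at the cost of a bound -/
theorem Sp.R_lead (S : Sp i n1 R θ t c D) {β : P → ℕ} {v : P} (hvR : v ∉ R)
    (hvt : topOf v ≠ t) (hlv : i + 2 ≤ lev v) (hv : β v = 2)
    (hβ : ∀ x, x ∉ R → topOf x ≠ t → x ≠ v → β x = 0) :
    ZB (P := FR R topOf t) i ∅ 0 (fun x => β x.1.1) (ct i 2 v) =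
      X ^ (below (FR R topOf t) i + nst i (fun _ => 2) v) *
        (1 + X) ^ ((lv P i).card - 2 + nab (i + 2) v - nab i v) := by
  classical
  have F := S.frz
  have e0 : GaussPoset.lev (⟨⟨v, hvR⟩, hvt⟩ : FR R topOf t) = GaussPoset.lev v := F.levR _
  have e1 : (fun x : FR R topOf t => β x.1.1) = sgz (⟨⟨v, hvR⟩, hvt⟩ : FR R topOf t) 2 := by
    funext x
    by_cases hx : x = (⟨⟨v, hvR⟩, hvt⟩ : FR R topOf t)
    · rw [hx, sgz_self]
      exact hv
    · rw [sgz_ne _ hx]
      refine hβ _ x.1.2 x.2 fun h => hx ?_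
      exact Subtype.ext (Subtype.ext h)
  have hgr : GradedBelow (FR R topOf t) := gbel_sub (F.upR t) (gbel_sub F.up F.gr)
  have h3 := ZD_lead (i := i) (k := 2) (z := (⟨⟨v, hvR⟩, hvt⟩ : FR R topOf t)) hgr
    (by norm_num) (by rw [e0]; omega)
  have h4 : ct i 2 (⟨⟨v, hvR⟩, hvt⟩ : FR R topOf t) = ct i 2 v := F.ctR _ i 2
  rw [h4] at h3
  rw [e1]
  refine Eq.trans h3 ?_
  unfold Lt
  have n0 : nab i (⟨⟨v, hvR⟩, hvt⟩ : FR R topOf t) = nab i v := F.nabR _ i
  have n1 : nab (i + 2) (⟨⟨v, hvR⟩, hvt⟩ : FR R topOf t) = nab (i + 2) v := F.nabR _ _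
  have n2 : nst i (fun _ => 2) (⟨⟨v, hvR⟩, hvt⟩ : FR R topOf t) = nst i (fun _ => 2) v :=
    F.nstR _ i 2
  have h5 := S.lv_R
  simp only
  rw [n0, n1, n2, show (lv P i).card - 2 = (lv (FR R topOf t) i).card by omega]

/-- the energies below the first pole -/
theorem Sp.main_lt (S : Sp i n1 R θ t c D) {β : P → ℕ} {E1 E2 : ℕ}
    (hT : ∀ a < E1, (1 + X : ℤ[X]) ^ 2 ∣
      ZB (P := FT R topOf t) i ∅ 0 (fun x => β x.1.1) a)
    (hZ : ∀ b < E2, ZB (P := FR R topOf t) i ∅ 0 (fun x => β x.1.1) b = 0)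
    (hβR : ∀ x, x ∉ R → topOf x ≠ t → β x ≤ θ x) {n : ℕ}
    (hn : n < E1 + E2) (hnK : n < n1) :
    (1 + X : ℤ[X]) ^ (lv P i).card ∣ ZB i R 0 β n := by
  have h2 := S.lv_R
  rw [S.frz.prod S.lev_R t]
  refine Finset.dvd_sum fun ab hab => ?_
  rw [HasAntidiagonal.mem_antidiagonal] at hab
  rcases Nat.lt_or_ge ab.2 E2 with h | h
  · rw [hZ _ h, mul_zero]
    exact dvd_zero _
  · rw [show (lv P i).card = 2 + ((lv P i).card - 2) by omega, pow_add]
    exact mul_dvd_mul (hT _ (by omega)) (S.dvd_R β hβR (by omega))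

/-- the first pole -/
theorem Sp.main_eq (S : Sp i n1 R θ t c D) {β : P → ℕ} {E2 s k : ℕ} (hc : β c = 2)
    (hβT : ∀ x, x ∉ R → topOf x = t → x ≠ c → β x = 0)
    (hZ : ∀ b < E2, ZB (P := FR R topOf t) i ∅ 0 (fun x => β x.1.1) b = 0)
    (hL : ZB (P := FR R topOf t) i ∅ 0 (fun x => β x.1.1) E2 =
      X ^ s * (1 + X) ^ ((lv P i).card - 2))
    (hβR : ∀ x, x ∉ R → topOf x ≠ t → β x ≤ θ x) (hnK : 30 + E2 < n1)
    (hk : k = s + 2 * i) :
    (1 + X : ℤ[X]) ^ (lv P i).card ∣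
      ZB i R 0 β (30 + E2) - X ^ k * (1 + X) ^ ((lv P i).card - 1) := by
  classical
  have h2 := S.lv_R
  have hTk : ∀ x, x ∉ R → topOf x = t → β x ≤ 2 := by
    intro x hx ht
    by_cases h : x = c
    · rw [h, hc]
    · rw [hβT x hx ht h]
      exact Nat.zero_le _
  have hmem : ((30, E2) : ℕ × ℕ) ∈ antidiagonal (30 + E2) := by
    rw [HasAntidiagonal.mem_antidiagonal]
  rw [S.frz.prod S.lev_R t, ← Finset.add_sum_erase _ _ hmem]
  simp only
  rw [hL]
  have h3 : (1 + X : ℤ[X]) ^ (lv P i).card ∣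
      ∑ ab ∈ (antidiagonal (30 + E2)).erase (30, E2),
      ZB (P := FT R topOf t) i ∅ 0 (fun x => β x.1.1) ab.1 *
        ZB (P := FR R topOf t) i ∅ 0 (fun x => β x.1.1) ab.2 := by
    refine Finset.dvd_sum fun ab hab => ?_
    rw [mem_erase, HasAntidiagonal.mem_antidiagonal] at hab
    obtain ⟨hne, hab⟩ := hab
    rcases Nat.lt_or_ge ab.2 E2 with h | h
    · rw [hZ _ h, mul_zero]
      exact dvd_zero _
    · rcases Nat.lt_or_ge ab.1 30 with h4 | h4
      · rw [show (lv P i).card = 2 + ((lv P i).card - 2) by omega, pow_add]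
        exact mul_dvd_mul (S.T_dvd hc hTk h4) (S.dvd_R β hβR (by omega))
      · exfalso
        exact hne (Prod.ext (by simp only; omega) (by simp only; omega))
  obtain ⟨q1, hq1⟩ := S.T_lead hc hβT
  obtain ⟨q2, hq2⟩ := h3
  rw [hq2]
  have e1 : ZB (P := FT R topOf t) i ∅ 0 (fun x => β x.1.1) 30 =
      (1 + X) ^ 2 * q1 - X ^ 13 * (1 + X) := by
    rw [← hq1]
    ring
  rw [e1]
  obtain ⟨m, hm⟩ : ∃ m, (lv P i).card = m + 2 := ⟨(lv P i).card - 2, by omega⟩
  -- the signs agree modulo `1 + X`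
  have h5 : (1 + X : ℤ[X]) ∣ X ^ (13 + s) + X ^ k := by
    rw [add_comm, ← map_one (C : ℤ →+* ℤ[X]), ← sub_neg_eq_add X (C (1 : ℤ)), ← map_neg,
      Polynomial.dvd_iff_isRoot, IsRoot.def]
    simp only [eval_add, eval_pow, eval_X]
    rw [hk, pow_add, pow_add, pow_mul]
    norm_num
  obtain ⟨q3, hq3⟩ := h5
  have h6 : (X : ℤ[X]) ^ k = (1 + X) * q3 - X ^ (13 + s) := by
    rw [← hq3]
    ring
  rw [hm, show m + 2 - 2 = m by omega, show m + 2 - 1 = m + 1 by omega, h6, pow_add X 13 s]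
  refine ⟨q1 * X ^ s + q2 - q3, ?_⟩
  ring

end Pool.Agent.GaussPoset.W7

end

/-! From `Pool.Agent.W_448w7_h22.SpC` -/

section

/-!
A component with an anchor of level 15 and the label 2: the labels of the configurations
(MP_448cb3_co, S8, `j = 14`, window 7).
-/

namespace Pool.Agent.GaussPoset.W7

set_option linter.unusedSectionVars false

open Polynomial Finset Fi

universe u

variable {P : Type u} [Fintype P] [PartialOrder P] [DecidableEq P]
variable {i n1 : ℕ} {R : Finset P} {θ : P → ℕ} {t : Tops P} {c : P} {D : Finset P}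

/-- the hypotheses on a set `A` of elements below the anchor at the energy `n` -/
structure FamS (i : ℕ) (R : Finset P) (θ : P → ℕ) (t : Tops P) (c : P) (A : Finset P) (n : ℕ) :
    Prop where
  hA : ∀ z ∈ A, z ∈ bdR R ∧ z ⋖ c ∧ lev z = i + 9
  hcov : ∀ z ∈ A, ∀ x, z ⋖ x → x ∉ R ∧ 1 ≤ θ x ∧ (topOf x ≠ t → 2 ≤ θ x)
  h3 : ∀ z ∈ A, ∀ y ∈ R, ∀ x, x ∉ R → topOf x = t → y ⋖ x →
    n < ∑ w, max (ez i (hcan R θ) z w) (ez i (fun _ => 3) y w)
  hU : ∀ z ∈ A, ∀ y ∈ bdR R, y ∉ A → n < Uu i (hcan R θ) z y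

variable {A : Finset P} {n : ℕ}

lemma FamS.mem (M : FamS i R θ t c A n) {z : P} (hz : z ∈ A) : z ∈ R := by
  classical
  exact (mem_filter.mp (M.hA z hz).1).1

/-- the label -/
lemma FamS.lab (M : FamS i R θ t c A n) (S : Sp i n1 R θ t c D) {z : P} (hz : z ∈ A) :
    hcan R θ z = 2 := by
  obtain ⟨h1, h2, -⟩ := M.hA z hz
  refine le_antisymm ?_ ?_
  · have := hcan_le (θ := θ) S.cR h2
    rw [S.thc] at this
    exact this
  · obtain ⟨x, hx, hzx, h4⟩ := hcan_spec (θ := θ) h1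
    have := (M.hcov z hz x hzx).2.1
    omega

/-- no element of the frozen set in the filter -/
lemma FamS.no_filter (M : FamS i R θ t c A n) (S : Sp i n1 R θ t c D) {e : P → ℕ}
    {F : Finset P} (hV : Vd i e F) (hs : ∑ x, e x = n) {z : P} (hz : z ∈ A)
    (hd : Dgz (hcan R θ) e F z) {x : P} (hx : x ∈ R) : x ∉ F := by
  classical
  intro hxF
  obtain ⟨w, hw⟩ : ∃ w : P, w ∉ R ∧ x ≤ w := by
    obtain ⟨w, hw, hwl⟩ := exists_above' (x := x) (j := 0) (Nat.zero_le _)
    refine ⟨w, fun h => ?_, hw⟩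
    have := S.lR w h
    omega
  obtain ⟨y, x', hxy, hyR, hyx', hx'R, -⟩ := exists_exit (D := R) hx hw.1 hw.2
  have hyF : y ∈ F := hV.1 x y hxy hxF
  have hyb : y ∈ bdR R := mem_filter.mpr ⟨hyR, x', hx'R, hyx'⟩
  have hly := S.lR y hyR
  have hlz := (M.hA z hz).2.2
  have h6 := ez_le (h := hcan R θ) (z := z) hV (by omega) hd
  by_cases hyA : y ∈ A
  · have h1 := M.h3 z hz y hyR c S.cR S.cpc (M.hA y hyA).2.1
    have h5 := ez_le (h := fun _ => 3) (z := y) hV (by omega) (Or.inl hyF)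
    have h7 : ∑ w, max (ez i (hcan R θ) z w) (ez i (fun _ => 3) y w) ≤ ∑ x, e x :=
      Finset.sum_le_sum fun w _ => max_le (h6 w) (h5 w)
    omega
  · have h1 := M.hU z hz y hyb hyA
    have h5 := ez_le (h := hcan R θ) (z := y) hV (by omega) (Or.inl hyF)
    have h7 : Uu i (hcan R θ) z y ≤ ∑ x, e x :=
      Finset.sum_le_sum fun w _ => max_le (h6 w) (h5 w)
    omega

/-- the labels of configurations -/
theorem FamS.good (M : FamS i R θ t c A n) (S : Sp i n1 R θ t c D) {g e : P → ℕ}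
    {F : Finset P} (hC : Cst i R g 0 e F) (hs : ∑ x, e x = n) {z : P} (hz : z ∈ A)
    (hg : 2 ≤ g z) :
    (∀ y ∈ R, ∀ x, x ∉ R → y ⋖ x → topOf x = t → g y ≤ 2) ∧
    ∀ y ∈ R, ∀ x, x ∉ R → y ⋖ x → topOf x ≠ t → g y ≤ θ x := by
  classical
  obtain ⟨hV, hR, -⟩ := hC
  have hzR := M.mem hz
  have hlz := (M.hA z hz).2.2
  have hd : Dgz (hcan R θ) e F z := Or.inr (by
    rw [M.lab S hz, (hR z hzR).2]
    exact hg)
  have h6 := ez_le (h := hcan R θ) (z := z) hV (by omega) hd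
  have G1 : ∀ y ∈ R, ∀ x, x ∉ R → y ⋖ x → topOf x = t → g y ≤ 2 := by
    intro y hy x hx hyx hxt
    by_contra hcon
    have hly := S.lR y hy
    have h1 := M.h3 z hz y hy x hx hxt hyx
    have h5 := ez_le (h := fun _ => 3) (z := y) hV (by omega) (Or.inr (by
      show 3 ≤ e y
      rw [(hR y hy).2]
      omega))
    have h7 : ∑ w, max (ez i (hcan R θ) z w) (ez i (fun _ => 3) y w) ≤ ∑ x, e x :=
      Finset.sum_le_sum fun w _ => max_le (h6 w) (h5 w)
    omega
  refine ⟨G1, ?_⟩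
  intro y hy x hx hyx hxt
  have hyb : y ∈ bdR R := mem_filter.mpr ⟨hy, x, hx, hyx⟩
  have hly := S.lR y hy
  by_cases hyA : y ∈ A
  · have h1 := G1 y hy c S.cR (M.hA y hyA).2.1 S.cpc
    have h2 := (M.hcov y hyA x hyx).2.2 hxt
    omega
  · have h1 := M.hU z hz y hyb hyA
    have h3 : g y < hcan R θ y := by
      by_contra hcon
      have h5 := ez_le (h := hcan R θ) (z := y) hV (by omega) (Or.inr (by
        rw [(hR y hy).2]
        exact not_lt.mp hcon))
      have h7 : Uu i (hcan R θ) z y ≤ ∑ x, e x :=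
        Finset.sum_le_sum fun w _ => max_le (h6 w) (h5 w)
      omega
    have h4 : hcan R θ y ≤ θ x + 1 := hcan_le hx hyx
    omega

lemma FamS.hmin (M : FamS i R θ t c A n) (S : Sp i n1 R θ t c D) {z : P} (hz : z ∈ A) :
    ∀ x ∈ R, z ≤ x → x = z := by
  intro x hx hzx
  by_contra hne
  have h1 : z < x := lt_of_le_of_ne hzx (Ne.symm hne)
  obtain ⟨w, hw, hwx⟩ := Hul.exists_cov h1
  exact S.frz.up w x hwx (M.hcov z hz w hw).1 hx

/-- the values of the bounds made by the label function of one element -/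
lemma bg_single {z : P} (hzR : z ∈ R) (x : P) :
    (z ⋖ x → bg R (sgz z 2) 0 x = 2) ∧ (¬ z ⋖ x → bg R (sgz z 2) 0 x = 0) := by
  classical
  have hle : ∀ y, sgz z 2 y ≤ 2 := by
    intro y
    unfold sgz
    split_ifs
    · exact le_rfl
    · exact Nat.zero_le _
  constructor
  · intro hx
    refine le_antisymm (bg_le (Nat.zero_le _) fun y _ _ => hle y) ?_
    have := le_bg' (g := sgz z 2) 0 hzR hx
    rwa [sgz_self] at this
  · intro hx
    refine Nat.le_zero.mp (bg_le (Nat.zero_le _) fun y hy hyx => ?_)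
    by_cases h1 : y = z
    · subst h1
      exact absurd hyx hx
    · rw [sgz_ne _ h1]

end Pool.Agent.GaussPoset.W7

end

/-! From `Pool.Agent.W_448w7_h22.SpD` -/

section

/-!
A component with an anchor of level 15 and the label 2: **the family theorem**
(MP_448cb3_co, S8, `j = 14`, window 7).
-/

namespace Pool.Agent.GaussPoset.W7

set_option linter.unusedSectionVars false

open Polynomial Finset Fi

universe u

variable {P : Type u} [Fintype P] [PartialOrder P] [DecidableEq P]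
variable {i n1 : ℕ} {R : Finset P} {θ : P → ℕ} {t : Tops P} {c : P} {D : Finset P}
variable {A : Finset P} {n : ℕ}

lemma eq_sgz {g : P → ℕ} {z : P} (hz : 2 ≤ g z) (hs : ∑ x, g x = 2) : g = sgz z 2 := by
  have h1 : g z ≤ ∑ x, g x := Finset.single_le_sum (fun _ _ => Nat.zero_le _) (mem_univ z)
  funext x
  by_cases hx : x = z
  · rw [hx, sgz_self]
    omega
  · rw [sgz_ne _ hx]
    have h7 : g z + g x ≤ ∑ x, g x := by
      rw [← Finset.add_sum_erase univ g (mem_univ z)]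
      exact Nat.add_le_add_left (Finset.single_le_sum (f := g) (fun _ _ => Nat.zero_le _)
        (mem_erase.mpr ⟨hx, mem_univ x⟩)) _
    omega

/-- the contribution of a label function -/
theorem FamS.term_dvd (M : FamS i R θ t c A n) (S : Sp i n1 R θ t c D)
    (hD : ∀ d ∈ D, topOf d = t) (hn : n ≤ n1) {g : P → ℕ} (hg0 : ∀ x, x ∉ R → g x = 0) {z : P}
    (hz : z ∈ A) (hg : 2 ≤ g z) {p : Prop} {k : ℕ} (hk : Kd i R θ t c D n z p k)
    (hne : ¬ (p ∧ g = sgz z 2)) : (1 + X : ℤ[X]) ^ (lv P i).card ∣ ZB i R g 0 n := by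
  classical
  have hzR := M.mem hz
  obtain ⟨hzb, hzc, hlz⟩ := M.hA z hz
  by_cases hex : ∃ e F, Cst i R g 0 e F ∧ ∑ x, e x = n
  · obtain ⟨e, F', hC, hs⟩ := hex
    obtain ⟨G1, G2⟩ := M.good S hC hs hz hg
    by_cases hc : ∀ x ∈ R, ∀ y ∈ R, x ≤ y → g x ≤ g y
    · have hsum : g z ≤ ∑ x, g x := Finset.single_le_sum (fun _ _ => Nat.zero_le _) (mem_univ z)
      have hle : ∑ x, g x ≤ n := by
        rw [← hs]
        refine Finset.sum_le_sum fun x _ => ?_
        by_cases hx : x ∈ R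
        · exact (hC.2.1 x hx).2.ge
        · rw [hg0 x hx]
          exact Nat.zero_le _
      obtain ⟨n', hn'⟩ : ∃ n', n = n' + ∑ x, g x := ⟨n - ∑ x, g x, by omega⟩
      have hβc : bg R g 0 c = 2 := le_antisymm
        (bg_le (Nat.zero_le _) fun y hy hyc => G1 y hy c S.cR hyc S.cpc)
        (hg.trans (le_bg' 0 hzR hzc))
      have hβT : ∀ x, x ∉ R → topOf x = t → bg R g 0 x ≤ 2 := fun x hx ht =>
        bg_le (Nat.zero_le _) fun y hy hyx => G1 y hy x hx hyx ht
      have hβR : ∀ x, x ∉ R → topOf x ≠ t → bg R g 0 x ≤ θ x := fun x hx ht =>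
        bg_le (Nat.zero_le _) fun y hy hyx => G2 y hy x hx hyx ht
      have hshift := ZB_shift 0 S.low S.lev_R hg0 hc n'
      cases hk with
      | P h1 h2 h3 h4 =>
        rw [hn', hshift]
        refine S.main_lt (E1 := 30) (E2 := 0) (fun a ha => S.T_dvd hβc hβT ha)
          (fun b hb => absurd hb (Nat.not_lt_zero b)) hβR ?_ (by omega)
        by_contra hcon
        exact hne ⟨h3.mpr (by omega), eq_sgz hg (by omega)⟩
      | O d h1 h2 h3 h4 h5 h6 =>
        have hdR : d ∉ R := (M.hcov z hz d h2).1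
        have hdt := hD d h1
        have hβd : bg R g 0 d = 2 := le_antisymm
          (bg_le (Nat.zero_le _) fun y hy hyd => G1 y hy d hdR hyd hdt)
          (hg.trans (le_bg' 0 hzR h2))
        rw [hn', hshift]
        exact S.main_lt (E1 := 50) (E2 := 0)
          (fun a ha => S.T_dvd2 hβc hβT h1 hdR hdt hβd hlz h6 h3 ha)
          (fun b hb => absurd hb (Nat.not_lt_zero b)) hβR (by omega) (by omega)
      | X v h1 h2 h3 h4 h5 h6 h7 h8 =>
        have hlv : lev v = i + 8 := by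
          have := S.gr.lev_covBy h1
          omega
        rw [hn', hshift]
        refine S.main_lt (E1 := 30) (E2 := ct i 2 v) (fun a ha => S.T_dvd hβc hβT ha)
          (fun b hb => S.R_zero h3 h4 (by omega) (hg.trans (le_bg' 0 hzR h1)) hb) hβR ?_
          (by omega)
        by_contra hcon
        exact hne ⟨h7.mpr (by omega), eq_sgz hg (by omega)⟩
      | Y h1 h2 => exact h1 g hg0 hg G1 G2
    · rw [ZB_zero_of_not_compat 0 S.lev_R hc]
      exact dvd_zero _
  · have : ZB i R g 0 n = 0 := by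
      unfold ZB
      refine Finset.sum_eq_zero fun F _ => ?_
      rw [Finset.filter_eq_empty_iff.mpr, Finset.sum_empty]
      intro e he hC
      rw [mem_piAntidiag] at he
      exact hex ⟨e, F, hC, he.1⟩
    rw [this]
    exact dvd_zero _

/-- the contribution of the label function of one element at its pole -/
theorem FamS.term_lead (M : FamS i R θ t c A n) (S : Sp i n1 R θ t c D) (hn : n ≤ n1) {z : P}
    (hz : z ∈ A) {p : Prop} {k : ℕ} (hk : Kd i R θ t c D n z p k) (hp : p) :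
    (1 + X : ℤ[X]) ^ (lv P i).card ∣
      ZB i R (sgz z 2) 0 n - X ^ k * (1 + X) ^ ((lv P i).card - 1) := by
  classical
  have hzR := M.mem hz
  obtain ⟨hzb, hzc, hlz⟩ := M.hA z hz
  have hsum : ∑ x, sgz z 2 x = 2 := by
    unfold sgz
    rw [Finset.sum_ite_eq' univ z, if_pos (mem_univ z)]
  have hg0 : ∀ x, x ∉ R → sgz z 2 x = 0 := fun x hx => sgz_ne _ (fun h => hx (h ▸ hzR))
  have hc : ∀ x ∈ R, ∀ y ∈ R, x ≤ y → sgz z 2 x ≤ sgz z 2 y := by
    intro x hx y hy hxy
    by_cases h1 : x = z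
    · subst h1
      rw [M.hmin S hz y hy hxy]
    · rw [sgz_ne _ h1]
      exact Nat.zero_le _
  have hval := fun x => bg_single (R := R) hzR x
  have hbel := S.below_R
  have hT : ∀ x, x ∉ R → topOf x = t → x ≠ c → (∀ y, z ⋖ y → topOf y = t → y = c) →
      bg R (sgz z 2) 0 x = 0 := fun x _ ht hxc hcov =>
    (hval x).2 fun hzx => hxc (hcov x hzx ht)
  cases hk with
  | P h1 h2 h3 h4 =>
    have hn32 := h3.mp hp
    have hshift := ZB_shift 0 S.low S.lev_R hg0 hc 30
    rw [hsum] at hshift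
    subst hn32
    rw [show (32 : ℕ) = 30 + 2 by norm_num, hshift]
    have hR0 : ∀ x, x ∉ R → topOf x ≠ t → bg R (sgz z 2) 0 x = 0 := fun x _ ht =>
      (hval x).2 fun hzx => ht (by rw [h1 x hzx]; exact S.cpc)
    exact S.main_eq (E2 := 0) (s := below (FR R topOf t) i) (k := k) ((hval c).1 hzc)
      (fun x hx ht hxc => hT x hx ht hxc fun y hy _ => h1 y hy)
      (fun b hb => absurd hb (Nat.not_lt_zero b)) (S.R_lead0 hR0)
      (fun x hx ht => by rw [hR0 x hx ht]; exact Nat.zero_le _) (by omega)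
      (by have := h4 hp; omega)
  | O d h1 h2 h3 h4 h5 h6 => exact absurd hp h5
  | X v h1 h2 h3 h4 h5 h6 h7 h8 =>
    have hlv : lev v = i + 8 := by
      have := S.gr.lev_covBy h1
      omega
    have hnv := h7.mp hp
    obtain ⟨h9, h10⟩ := h8 hp
    have hshift := ZB_shift 0 S.low S.lev_R hg0 hc (30 + ct i 2 v)
    rw [hsum] at hshift
    rw [hnv, show 32 + ct i 2 v = 30 + ct i 2 v + 2 by ring, hshift]
    have hR0 : ∀ x, x ∉ R → topOf x ≠ t → x ≠ v → bg R (sgz z 2) 0 x = 0 :=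
      fun x _ ht hxv => (hval x).2 fun hzx => by
        rcases h2 x hzx with h | h
        · exact ht (by rw [h]; exact S.cpc)
        · exact hxv h
    have hlead := S.R_lead h3 h4 (by omega) ((hval v).1 h1) hR0
    rw [show (lv P i).card - 2 + nab (i + 2) v - nab i v = (lv P i).card - 2 by omega] at hlead
    exact S.main_eq (E2 := ct i 2 v) (s := below (FR R topOf t) i + nst i (fun _ => 2) v)
      (k := k) ((hval c).1 hzc)
      (fun x hx ht hxc => hT x hx ht hxc fun y hy hyt => by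
        rcases h2 y hy with h | h
        · exact h
        · exact absurd (by rw [← h]; exact hyt) h4)
      (fun b hb => S.R_zero h3 h4 (by omega) ((hval v).1 h1).ge hb) hlead
      (fun x hx ht => by
        by_cases hxv : x = v
        · rw [hxv, (hval v).1 h1]
          exact h5
        · rw [hR0 x hx ht hxv]
          exact Nat.zero_le _) (by omega) (by omega)
  | Y h1 h2 => exact absurd hp h2

/-- **The family theorem.** -/
theorem Sp.fam (S : Sp i n1 R θ t c D) (hD : ∀ d ∈ D, topOf d = t) {A : Finset P} {n : ℕ}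
    (hn : n ≤ n1)
    (hA : ∀ z ∈ A, z ∈ bdR R ∧ z ⋖ c ∧ lev z = i + 9)
    (hcov : ∀ z ∈ A, ∀ x, z ⋖ x → x ∉ R ∧ 1 ≤ θ x ∧ (topOf x ≠ t → 2 ≤ θ x))
    (h3 : ∀ z ∈ A, ∀ y ∈ R, ∀ x, x ∉ R → topOf x = t → y ⋖ x →
      n < ∑ w, max (ez i (hcan R θ) z w) (ez i (fun _ => 3) y w))
    (hU : ∀ z ∈ A, ∀ y ∈ bdR R, y ∉ A → n < Uu i (hcan R θ) z y)
    {p : P → Prop} [DecidablePred p] {k : P → ℕ}
    (hk : ∀ z ∈ A, Kd i R θ t c D n z (p z) (k z)) :
    (1 + X : ℤ[X]) ^ (lv P i).card ∣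
      ZF i (hcan R θ) A n - ∑ z ∈ A.filter p, X ^ (k z) * (1 + X) ^ ((lv P i).card - 1) := by
  classical
  have M : FamS i R θ t c A n := ⟨hA, hcov, h3, hU⟩
  have hAR : A ⊆ R := fun z hz => M.mem hz
  have hlab : ZF i (hcan R θ) A n =
      ∑ g ∈ Fintype.piFinset (fun _ : P => range (n + 1)),
        if (∀ x, x ∉ R → g x = 0) ∧ (∃ z ∈ A, hcan R θ z ≤ g z) then ZB i R g 0 n else 0 := by
    refine ZF_labels hAR ?_
    rintro e F hV hs ⟨z, hz, hd⟩ x hx
    exact M.no_filter S hV hs hz hd hx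
  have hn2 : ∀ z ∈ A, p z → 2 ≤ n := by
    intro z hz hp
    cases hk z hz with
    | P h1 h2 h3 h4 => have := h3.mp hp; omega
    | O d h1 h2 h3 h4 h5 h6 => exact absurd hp h5
    | X v h1 h2 h3 h4 h5 h6 h7 h8 => have := h7.mp hp; omega
    | Y h1 h2 => exact absurd hp h2
  set I := (A.filter p).image (fun z => sgz z 2) with hI
  have hsub : I ⊆ Fintype.piFinset (fun _ : P => range (n + 1)) := by
    intro g hg
    obtain ⟨z, hz, rfl⟩ := mem_image.mp hg
    rw [mem_filter] at hz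
    have := hn2 z hz.1 hz.2
    rw [Fintype.mem_piFinset]
    intro x
    rw [mem_range]
    unfold sgz
    split_ifs <;> omega
  have hinj : ∀ z ∈ A.filter p, ∀ z' ∈ A.filter p, sgz z 2 = sgz z' 2 → z = z' := by
    intro z _ z' _ h
    by_contra hzz
    have h1 := congrFun h z
    rw [sgz_self, sgz_ne _ hzz] at h1
    omega
  rw [hlab, ← Finset.sum_sdiff hsub, hI, Finset.sum_image hinj, ← hI, add_sub_assoc,
    ← Finset.sum_sub_distrib]
  refine dvd_add (Finset.dvd_sum fun g hg => ?_) (Finset.dvd_sum fun z hz => ?_)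
  · split_ifs with hh
    · obtain ⟨h1, z, hz, h4⟩ := hh
      rw [M.lab S hz] at h4
      refine M.term_dvd S hD hn h1 hz h4 (hk z hz) fun h5 => ?_
      refine (mem_sdiff.mp hg).2 ?_
      rw [hI, h5.2]
      exact mem_image_of_mem _ (mem_filter.mpr ⟨hz, h5.1⟩)
    · exact dvd_zero _
  · rw [mem_filter] at hz
    rw [if_pos]
    · exact M.term_lead S hn hz.1 (hk z hz.1) hz.2
    · refine ⟨fun x hx => sgz_ne _ (fun h => hx (h ▸ hAR hz.1)), z, hz.1, ?_⟩
      rw [sgz_self, M.lab S hz.1]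

end Pool.Agent.GaussPoset.W7

end

/-! From `Pool.Agent.W_448w7_h94.WiG` -/

section

/-!
The kinds of the elements of level 16 below an anchor; union costs (MP_448cb3_co, S7, `j = 14`,
window 7).
-/

namespace Pool.Agent.GaussPoset.W7

set_option linter.unusedSectionVars false

open Polynomial Finset Fi Cl Dd Wd

universe u

variable {P : Type u} [Fintype P] [PartialOrder P] [DecidableEq P] {r n0 : ℕ}
  {N : Tops P → Finset P} {b : Tops P → ℕ} {θ : Tops P → P → ℕ}

/-- the thresholds of the system with the twins -/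
noncomputable def th2 (N : Tops P → Finset P) (θ : Tops P → P → ℕ) : P → ℕ :=
  thX (twY (2 * 7) N) (twT N) (fun x => θ (topOf x) x)

/-- the profiles of the elements of level 15 with all covers in one component -/
inductive E15 (v : P) : Prop
  | str (h : ∀ l, 7 ≤ l → l ≤ 14 → nab l v = 1)
  | one (l : ℕ) (h1 : 8 ≤ l) (h2 : l ≤ 14) (h3 : nab l v = 2)
      (h4 : ∀ l', l' ≤ 14 → l' ≠ l → nab l' v = 1) (h5 : cn 7 (topOf v : P) = 1)
      (h6 : l = 9 → ∀ x, x ≤ (topOf v : P) → lev x ≤ 14 → ¬ v ≤ x → 9 ≤ lev x)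
  | mid (h1 : 19 ≤ ct 7 2 v) (h2 : nab 7 v ≤ nab 9 v)
  | big (h : 21 ≤ ct 7 2 v)

/-- the other elements of level 15 of the component of the anchor `c` -/
noncomputable def Dn (n0 : ℕ) (N : Tops P → Finset P) (c : P) : Finset P :=
  if 31 < n0 then (N (topOf c)).filter (fun d => lev d = 15 ∧ d ≠ c) else ∅

/-- the pendant of the first cell of a strip `La7` -/
def IsP0 (n0 : ℕ) (N : Tops P → Finset P) (θ : Tops P → P → ℕ) (p : P) : Prop :=
  ∃ t lo hi e A, LaD n0 N (θ t) t lo hi e A ∧ Sg.Mk e p 33554432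

/-- the kinds of the elements of level 16 below the anchor `c` -/
inductive C16 (n0 : ℕ) (N : Tops P → Finset P) (θ : Tops P → P → ℕ) (c z : P) : Prop
  | P (h1 : ∀ y, z ⋖ y → y = c) (h2 : ct 7 2 z = 30) (h3 : ct 7 3 z = 42)
  | O (d : P) (h1 : d ∈ N (topOf c)) (h2 : lev d = 15) (h3 : d ≠ c) (h4 : z ⋖ d)
      (h5 : ∀ y, z ⋖ y → y = c ∨ y = d) (h6 : 40 ≤ ct 7 2 z) (h7 : 51 ≤ ct 7 3 z)
      (h8 : 2 ≤ θ (topOf c) d)
  | C (h0 : n0 ≤ 31) (d : P) (h1 : Ank n0 N θ d) (h2 : topOf d = topOf c) (h3 : d ≠ c)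
      (h4 : z ⋖ d) (h5 : ∀ y, z ⋖ y → y = c ∨ y = d) (h6 : ct 7 2 z = 32)
  | Q (p : P) (h1 : IsP0 n0 N θ p) (h2 : p ∈ bdR (r2 (2 * 7) N)) (h3 : lev p = 15) (h4 : z ⋖ p)
      (h5 : 40 ≤ ct 7 2 z)
  | X (v : P) (h1 : z ⋖ v) (h2 : ∀ y, z ⋖ y → y = c ∨ y = v) (h3 : v ∉ r2 (2 * 7) N)
      (h4 : topOf v ≠ topOf c) (h5 : 2 ≤ th2 N θ v) (h6 : ct 7 2 z = 30 + ct 7 2 v)
      (h7 : 51 ≤ ct 7 3 z) (h8 : E15 v)
  | big (h : 51 ≤ ct 7 2 z)

/-- the cost of a union, with the labels 2 and 3 -/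
lemma uni_cost {i : ℕ} {h : P → ℕ} {z y x : P} (hz : h z = 2) (hyx : y < x) (hzy : ¬ z ≤ y) :
    ct i 2 z + min 3 (lev y - i) + ct i 3 x ≤
      ∑ w, max (ez i h z w) (ez i (fun _ => 3) y w) + ct i 2 x := by
  classical
  have h1 : ct i 3 y = min 3 (lev y - i) + ∑ w, (if y < w then min 3 (lev w - i) else 0) := by
    rw [ct_succ]
  have h0 : min 3 (lev y - i) = ∑ w, (if w = y then min 3 (lev y - i) else 0) := by
    rw [Finset.sum_ite_eq' univ y, if_pos (mem_univ y)]
  rw [h0, ct_eq_sum, ct_eq_sum, ct_eq_sum, ← Finset.sum_add_distrib, ← Finset.sum_add_distrib,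
    ← Finset.sum_add_distrib]
  refine Finset.sum_le_sum fun w _ => ?_
  have e1 : ez i h z w = if z ≤ w then min 2 (lev w - i) else 0 := by
    unfold ez
    rw [hz]
  have e2 : ez i (fun _ => 3) y w = if y ≤ w then min 3 (lev w - i) else 0 := by
    unfold ez
    rfl
  rw [e1, e2]
  by_cases hw : w = y
  · subst hw
    rw [if_neg hzy, if_pos rfl, if_neg (not_le_of_gt hyx), if_neg (not_le_of_gt hyx),
      if_pos le_rfl]
    omega
  · rw [if_neg hw]
    by_cases hx : x ≤ w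
    · rw [if_pos hx, if_pos hx, if_pos (hyx.le.trans hx)]
      by_cases hz' : z ≤ w
      · rw [if_pos hz']; omega
      · rw [if_neg hz']; omega
    · rw [if_neg hx, if_neg hx]
      omega

/-- the cost with the label 3 -/
lemma uni_self {i : ℕ} {h : P → ℕ} {z : P} (hz : h z = 2) :
    ct i 3 z = ∑ w, max (ez i h z w) (ez i (fun _ => 3) z w) := by
  classical
  rw [ct_eq_sum]
  refine Finset.sum_congr rfl fun w _ => ?_
  unfold ez
  rw [hz]
  by_cases hw : z ≤ w
  · rw [if_pos hw, if_pos hw]; omega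
  · rw [if_neg hw, if_neg hw]; rfl

/-- the cost of the union with another element which is not above -/
lemma Uu_lt {i : ℕ} {h : P → ℕ} {z z' : P} (hzz : ¬ z' ≤ z) (hl : 2 ≤ lev z - i) (hz : 2 ≤ h z) :
    cst i h z' + 2 ≤ Uu i h z z' := by
  classical
  have h0 : (2 : ℕ) = ∑ w, (if w = z then 2 else 0) := by
    rw [Finset.sum_ite_eq' univ z, if_pos (mem_univ z)]
  rw [h0]
  unfold cst Uu
  rw [← Finset.sum_add_distrib]
  refine Finset.sum_le_sum fun w _ => ?_
  by_cases hw : w = z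
  · subst hw
    rw [if_pos rfl]
    unfold ez
    rw [if_neg hzz, if_pos le_rfl]
    omega
  · rw [if_neg hw]
    exact le_max_right _ _

end Pool.Agent.GaussPoset.W7

end

/-! From `Pool.Agent.W_448w7_h94.WiH` -/

section

/-!
The ladder at window 7: inputs, the families of the elements of level 16 below the anchors
(MP_448cb3_co, S7, `j = 14`).
-/

namespace Pool.Agent.GaussPoset.W7

set_option linter.unusedSectionVars false

open Polynomial Finset Fi Cl Dd Wd

universe u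

variable {P : Type u} [Fintype P] [PartialOrder P] [DecidableEq P] {r n0 : ℕ}
  {N : Tops P → Finset P} {b : Tops P → ℕ} {θ : Tops P → P → ℕ}

/-- the anchors are natural, of level 15 and threshold 1 -/
lemma Ank.dat (W : WL r n0 N b θ) {c : P} (hc : Ank n0 N θ c) : lev c = 15 ∧
    c ∈ N (topOf c) ∧ c ∉ unnat N ∧ c ∉ r2 (2 * 7) N ∧ θ (topOf c) c = 1 ∧ th2 N θ c = 1 := by
  obtain ⟨lo, hi, e, A, L, hA, hm⟩ := hc
  have h1 : c ∈ N (topOf c) := by
    rw [L.nat]
    exact mem_union_right _ hA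
  have h2 : c ∉ unnat N := (W.natSys.mem_iff.mp h1).1
  have h3 : c ∉ r2 (2 * 7) N := fun h => h2 (mem_sdiff.mp h).1
  have h4 : c ∉ twY (2 * 7) N := fun h => h2 (mem_twY.mp h).1
  have h5 := L.dat.th.c34 c hA hm
  refine ⟨hm.1, h1, h2, h3, h5, ?_⟩
  unfold th2
  rw [thX_not h4]
  exact h5

/-- one anchor per component -/
lemma Ank.uniq (W : WL r n0 N b θ) (hn : 31 < n0) {c c' : P} (hc : Ank n0 N θ c)
    (hc' : Ank n0 N θ c') (ht : topOf c' = topOf c) : c' = c := by
  obtain ⟨hl', hN', -, -, hth', -⟩ := hc'.dat W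
  obtain ⟨lo, hi, e, A, L, hA, hm⟩ := hc
  rw [ht] at hN' hth'
  have hA' : c' ∈ A := (L.mem15 hN' hl'.ge).1
  rcases L.dat.pat with ⟨a, J⟩ | ⟨h, -⟩
  · have hT := L.dat.th
    rcases J.all c' hA' with h | h | h | h
    · have := hT.p1 c' hA' h; omega
    · have := hT.c12 c' hA' h; omega
    · have := hT.c23 c' hA' h; omega
    · exact J.uniq c' hA' c hA _ h hm
  · omega

/-- the inputs of the ladder -/
structure Lad (N : Tops P → Finset P) (θ : Tops P → P → ℕ) : Prop where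
  sp : ∀ c : P, Ank 51 N θ c → Sp 7 51 (r2 (2 * 7) N) (th2 N θ) (topOf c) c (Dn 51 N c)
  c16 : ∀ c z : P, Ank 51 N θ c → z ∈ bdR (r2 (2 * 7) N) → z ⋖ c →
    C16 51 N θ c z ∧ (ct 7 2 z ≤ 50 → nab 7 z ≤ nab 9 z)
  h3 : ∀ c z x y : P, Ank 51 N θ c → h2 (2 * 7) N θ z = 2 → z ⋖ c → lev z = 16 →
    (∀ u, z ⋖ u → u ∉ r2 (2 * 7) N) → y ∈ r2 (2 * 7) N → x ∉ r2 (2 * 7) N → topOf x = topOf c → y ⋖ x → y ≠ z →
    ct 7 2 z + 11 ≤ ∑ w, max (ez 7 (h2 (2 * 7) N θ) z w) (ez 7 (fun _ => 3) y w)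
  nine : ∀ c z v : P, Ank 51 N θ c → z ∈ bdR (r2 (2 * 7) N) → lev z = 16 → z ⋖ c → z ⋖ v →
    v ∉ r2 (2 * 7) N → topOf v ≠ topOf c → nab 9 v = 2 →
    (∀ l, l ≤ 14 → l ≠ 9 → nab l v = 1) → cn 7 (topOf v : P) = 1 →
    (∀ x, x ≤ (topOf v : P) → lev x ≤ 14 → ¬ v ≤ x → 9 ≤ lev x) →
    ∀ n, n ≤ 50 → ∀ g : P → ℕ, (∀ x, x ∉ r2 (2 * 7) N → g x = 0) → 2 ≤ g z →
      (∀ y ∈ r2 (2 * 7) N, ∀ x, x ∉ r2 (2 * 7) N → y ⋖ x → topOf x = topOf c → g y ≤ 2) →
      (∀ y ∈ r2 (2 * 7) N, ∀ x, x ∉ r2 (2 * 7) N → y ⋖ x → topOf x ≠ topOf c →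
        g y ≤ th2 N θ x) →
      (1 + X : ℤ[X]) ^ (lv P 7).card ∣ ZB 7 (r2 (2 * 7) N) g 0 n
  p0 : ∀ z ∈ bdR (r2 (2 * 7) N), lev z = 15 → IsP0 51 N θ z →
    cst 7 (h2 (2 * 7) N θ) z = 40 ∧ nab 7 z = nab (7 + h2 (2 * 7) N θ z) z + 1 ∧
      (-1 : ℤ) ^ (nst 7 (h2 (2 * 7) N θ) z) = 1
  fb : ∀ z ∈ bdR (r2 (2 * 7) N), ∀ x x' : P, lev z = 15 → Fd 7 x → Prof 7 x' (gD p5) →
    topOf x ≠ topOf x' → z ⋖ x → z ⋖ x' →
    cst 7 (h2 (2 * 7) N θ) z = 50 ∧ nab 7 z = nab (7 + h2 (2 * 7) N θ z) z + 1 ∧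
      (-1 : ℤ) ^ (nst 7 (h2 (2 * 7) N θ) z) = 1

open Classical in
/-- the family of the anchor `c` at the energy `n` -/
noncomputable def Am (n : ℕ) (N : Tops P → Finset P) (θ : Tops P → P → ℕ) (c : P) : Finset P :=
  (bdR (r2 (2 * 7) N)).filter (fun z => z ⋖ c ∧ lev z = 16 ∧ cst 7 (h2 (2 * 7) N θ) z < n)

lemma mem_Am {n : ℕ} {c z : P} : z ∈ Am n N θ c ↔ z ∈ bdR (r2 (2 * 7) N) ∧ z ⋖ c ∧
    lev z = 16 ∧ cst 7 (h2 (2 * 7) N θ) z < n := by
  classical
  unfold Am
  rw [mem_filter]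

/-- kind `P` -/
def KP (c z : P) : Prop := (∀ y, z ⋖ y → y = c) ∧ ct 7 2 z = 30 ∧ ct 7 3 z = 42

/-- kind `O` -/
def KO (N : Tops P → Finset P) (θ : Tops P → P → ℕ) (c z : P) : Prop :=
  ∃ d, d ∈ Dn 51 N c ∧ d ∈ N (topOf c) ∧ d ≠ c ∧ z ⋖ d ∧ (∀ y, z ⋖ y → y = c ∨ y = d) ∧
    40 ≤ ct 7 2 z ∧ 51 ≤ ct 7 3 z ∧ 2 ≤ θ (topOf c) d

/-- kind `X` -/
def KX (N : Tops P → Finset P) (θ : Tops P → P → ℕ) (c z v : P) : Prop :=
  z ⋖ v ∧ (∀ y, z ⋖ y → y = c ∨ y = v) ∧ v ∉ r2 (2 * 7) N ∧ topOf v ≠ topOf c ∧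
    2 ≤ th2 N θ v ∧ ct 7 2 z = 30 + ct 7 2 v ∧ 51 ≤ ct 7 3 z ∧ E15 v

/-- the label of the elements of a family -/
lemma Am.lab (W : WL r n0 N b θ) {n : ℕ} (hn : n ≤ 51) {c z : P} (hz : z ∈ Am n N θ c) :
    h2 (2 * 7) N θ z = 2 ∧ ct 7 2 z < n := by
  obtain ⟨h1, h2, h3, h4⟩ := mem_Am.mp hz
  rcases W.bd h1 with h | h | ⟨-, h, -⟩
  · omega
  · omega
  · refine ⟨h, ?_⟩
    rwa [cst_ct h] at h4

/-- the kinds of the elements of a family -/
lemma Am.kind (W : WL r 51 N b θ) (L : Lad N θ) {n : ℕ} (hn : n ≤ 50)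
    (hp0 : 40 < n → ∀ p ∈ bdR (r2 (2 * 7) N), ¬ IsP0 51 N θ p) {c z : P} (hc : Ank 51 N θ c)
    (hz : z ∈ Am n N θ c) : KP c z ∨ KO N θ c z ∨ ∃ v, KX N θ c z v := by
  obtain ⟨h1, h2, h3, h4⟩ := mem_Am.mp hz
  obtain ⟨-, h5⟩ := Am.lab W (by omega) hz
  rcases (L.c16 c z hc h1 h2).1 with ⟨g1, g2, g3⟩ | ⟨d, g1, g2, g3, g4, g5, g6, g7, g8⟩ |
    ⟨g0, d, g1, g2, g3, g4, g5, g6⟩ | ⟨p, g1, g2, g3, g4, g5⟩ |
    ⟨v, g1, g2, g3, g4, g5, g6, g7, g8⟩ | g
  · exact Or.inl ⟨g1, g2, g3⟩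
  · refine Or.inr (Or.inl ⟨d, ?_, g1, g3, g4, g5, g6, g7, g8⟩)
    unfold Dn
    rw [if_pos (by norm_num), mem_filter]
    exact ⟨g1, g2, g3⟩
  · omega
  · by_cases h40 : 40 < n
    · exact absurd g1 (hp0 h40 p g2)
    · omega
  · exact Or.inr (Or.inr ⟨v, g1, g2, g3, g4, g5, g6, g7, g8⟩)
  · omega

/-- one anchor above an element of a family -/
lemma Am.ank (W : WL r 51 N b θ) (L : Lad N θ) {n : ℕ} (hn : n ≤ 50)
    (hp0 : 40 < n → ∀ p ∈ bdR (r2 (2 * 7) N), ¬ IsP0 51 N θ p) {c z c' : P}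
    (hc : Ank 51 N θ c) (hz : z ∈ Am n N θ c) (hc' : Ank 51 N θ c') (hzc' : z ⋖ c') :
    c' = c := by
  obtain ⟨-, -, -, -, h5, h6⟩ := hc'.dat W
  rcases Am.kind W L hn hp0 hc hz with ⟨h, -, -⟩ | ⟨d, h1, h2, h3, h4, h, h7, h8, h9⟩ |
    ⟨v, h1, h, h2, h3, h4, -, -, -⟩
  · exact h c' hzc'
  · rcases h c' hzc' with e | e
    · exact e
    · exfalso
      rw [e, (W.natSys.mem_iff.mp h2).2] at h5
      omega
  · rcases h c' hzc' with e | e
    · exact e
    · exfalso
      rw [e] at h6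
      omega

/-- the cost of the boundary elements outside of the families -/
lemma out_cost (W : WL r 51 N b θ) (J : JH P) (L : Lad N θ) {n : ℕ} (hn : n ≤ 50)
    (hp0 : 40 < n → ∀ p ∈ bdR (r2 (2 * 7) N), ¬ IsP0 51 N θ p) {z : P}
    (hz : z ∈ bdR (r2 (2 * 7) N)) (h : ∀ c, Ank 51 N θ c → z ∉ Am n N θ c) :
    n ≤ cst 7 (h2 (2 * 7) N θ) z := by
  classical
  rcases W.bd hz with hl | h1 | ⟨hl, -, c, hc, hzc⟩
  · rcases W.rows J (mem_filter.mp hz).1 hl with ⟨t, lo, hi, e, A, L', hm⟩ |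
      ⟨x, x', g1, g2, g3, g4, g5⟩ | ⟨g, -⟩
    · have hp : IsP0 51 N θ z := ⟨t, lo, hi, e, A, L', hm⟩
      have := (L.p0 z hz hl hp).1
      by_cases h40 : 40 < n
      · exact absurd hp (hp0 h40 z hz)
      · omega
    · have := (L.fb z hz x x' hl g1 g2 g3 g4 g5).1
      omega
    · omega
  · omega
  · by_contra hcon
    exact h c hc (mem_Am.mpr ⟨hz, hzc, hl, by omega⟩)

end Pool.Agent.GaussPoset.W7

end

/-! From `Pool.Agent.W_448w7_h94.WiI` -/

section

/-!
The ladder at window 7: union costs of the families (MP_448cb3_co, S7, `j = 14`).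
-/

namespace Pool.Agent.GaussPoset.W7

set_option linter.unusedSectionVars false

open Polynomial Finset Fi Cl Dd Wd

universe u

variable {P : Type u} [Fintype P] [PartialOrder P] [DecidableEq P] {r n0 : ℕ}
  {N : Tops P → Finset P} {b : Tops P → ℕ} {θ : Tops P → P → ℕ}

/-- the cost of the union of two elements below anchors of different components -/
lemma Uu_anc (W : WL r 51 N b θ) {c c' z z' : P} (hc : c ∉ unnat N) (hc' : c' ∉ unnat N)
    (ht : topOf c' ≠ topOf c) (hzc : z ⋖ c) (hzc' : z' ⋖ c') (hz : h2 (2 * 7) N θ z = 2)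
    (hz' : h2 (2 * 7) N θ z' = 2) :
    ct 7 2 c + ct 7 2 c' ≤ Uu 7 (h2 (2 * 7) N θ) z z' := by
  classical
  have HN := W.natSys
  have hd : ∀ w, c ≤ w → ¬ c' ≤ w := by
    intro w h1 h2
    have e1 := HN.cp c w h1 hc
    have e2 := HN.cp c' w h2 hc'
    exact ht (e2.trans e1.symm)
  rw [ct_eq_sum, ct_eq_sum, ← Finset.sum_add_distrib]
  unfold Uu
  refine Finset.sum_le_sum fun w _ => ?_
  unfold ez
  rw [hz, hz']
  by_cases h1 : c ≤ w
  · rw [if_pos h1, if_neg (hd w h1), if_pos (hzc.1.le.trans h1)]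
    omega
  · rw [if_neg h1]
    by_cases h2 : c' ≤ w
    · rw [if_pos h2, if_pos (hzc'.1.le.trans h2)]
      omega
    · rw [if_neg h2]
      omega

/-- **the union costs** -/
theorem Am.pair (W : WL r 51 N b θ) (J : JH P) (L : Lad N θ) {n : ℕ} (hn : n ≤ 50)
    (hp0 : 40 < n → ∀ p ∈ bdR (r2 (2 * 7) N), ¬ IsP0 51 N θ p) {c z z' : P}
    (hc : Ank 51 N θ c) (hz : z ∈ Am n N θ c) (hz' : z' ∈ bdR (r2 (2 * 7) N))
    (hne : z' ∉ Am n N θ c) : n < Uu 7 (h2 (2 * 7) N θ) z z' := by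
  classical
  obtain ⟨h1, h2, h3, h4⟩ := mem_Am.mp hz
  obtain ⟨hl2, -⟩ := Am.lab W (by omega) hz
  have hzz : z' ≠ z := by
    rintro rfl
    exact hne hz
  have hnle : lev z' ≤ 16 → ¬ z' ≤ z := by
    intro hl h
    have := lev_strictAnti (lt_of_le_of_ne h hzz)
    omega
  by_cases hex : ∃ c', Ank 51 N θ c' ∧ z' ∈ Am n N θ c'
  · obtain ⟨c', hc', hzA⟩ := hex
    obtain ⟨h1', h2', h3', h4'⟩ := mem_Am.mp hzA
    obtain ⟨hl2', -⟩ := Am.lab W (by omega) hzA
    have ht : topOf c' ≠ topOf c := by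
      intro ht
      have := Ank.uniq W (by norm_num) hc hc' ht
      rw [this] at hzA
      exact hne hzA
    have h5 := Uu_anc W (hc.dat W).2.2.1 (hc'.dat W).2.2.1 ht h2 h2' hl2 hl2'
    have h6 := (L.sp c hc).cct
    have h7 := (L.sp c' hc').cct
    omega
  · push Not at hex
    have h5 := out_cost W J L hn hp0 hz' hex
    by_cases h51 : 51 ≤ cst 7 (Pool.Agent.GaussPoset.h2 (2 * 7) N θ) z'
    · have := Uu_right 7 (Pool.Agent.GaussPoset.h2 (2 * 7) N θ) z z'
      omega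
    · have hl' : lev z' ≤ 16 := by
        rcases W.bd hz' with h | h | h
        · omega
        · omega
        · omega
      have := Uu_lt (i := 7) (h := Pool.Agent.GaussPoset.h2 (2 * 7) N θ) (hnle hl')
        (by omega) hl2.ge
      omega

/-- an element of level 15 costs at least 15 -/
lemma ct15 {v : P} (hl : lev v = 15) : 15 ≤ ct 7 2 v := by
  rw [ct_topI (m := 7) (i := 7) (k := 2) (q := fun d => nab (2 * 7 - d) v) (by norm_num) hl
    (by norm_num) (fun _ _ => rfl)]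
  unfold vsQ
  simp only [Finset.sum_range_succ, Finset.sum_range_zero]
  have h : ∀ l, l ≤ 14 → 1 ≤ nab l v := fun l hl2 => one_le_nab (by omega)
  have g8 := h 8 (by norm_num)
  have g9 := h 9 (by norm_num)
  have g10 := h 10 (by norm_num)
  have g11 := h 11 (by norm_num)
  have g12 := h 12 (by norm_num)
  have g13 := h 13 (by norm_num)
  have g14 := h 14 (by norm_num)
  norm_num
  omega

/-- the poles of the straight elements and the elements with one extra element -/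
lemma E15.val {v : P} (hl : lev v = 15) (h : E15 v) :
    (ct 7 2 v = 15 ∧ nab 9 v = nab 7 v ∧ nst 7 (fun _ => 2) v = 2) ∨
    (ct 7 2 v = 16 ∧ nab 9 v = nab 7 v ∧ nst 7 (fun _ => 2) v = 3) ∨
    (ct 7 2 v = 17 ∧ nab 9 v = nab 7 v ∧ nst 7 (fun _ => 2) v = 2) ∨
    (ct 7 2 v = 17 ∧ nab 9 v = 2 ∧ (∀ l, l ≤ 14 → l ≠ 9 → nab l v = 1) ∧
      cn 7 (topOf v : P) = 1 ∧ ∀ x, x ≤ (topOf v : P) → lev x ≤ 14 → ¬ v ≤ x → 9 ≤ lev x) ∨
    19 ≤ ct 7 2 v := by
  have hct : ct 7 2 v = nab 8 v + 2 * (nab 9 v + nab 10 v + nab 11 v + nab 12 v + nab 13 v +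
      nab 14 v) + 2 := by
    rw [ct_topI (m := 7) (i := 7) (k := 2) (q := fun d => nab (2 * 7 - d) v) (by norm_num) hl
      (by norm_num) (fun _ _ => rfl)]
    unfold vsQ
    simp only [Finset.sum_range_succ, Finset.sum_range_zero]
    norm_num
    omega
  have hns : nst 7 (fun _ => 2) v = nab 7 v + nab 8 v := by
    rw [nst_eq]
    simp only [Finset.sum_range_succ, Finset.sum_range_zero]
    norm_num
  rcases h with h | ⟨l, h1, h2, h3, h4, h5, h6⟩ | ⟨h1, -⟩ | h
  · left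
    rw [hct, hns, h 7 (by norm_num) (by norm_num), h 8 (by norm_num) (by norm_num),
      h 9 (by norm_num) (by norm_num), h 10 (by norm_num) (by norm_num),
      h 11 (by norm_num) (by norm_num), h 12 (by norm_num) (by norm_num),
      h 13 (by norm_num) (by norm_num), h 14 (by norm_num) (by norm_num)]
    norm_num
  · have g : ∀ l', 7 ≤ l' → l' ≤ 14 → nab l' v = if l' = l then 2 else 1 := by
      intro l' _ hl2
      by_cases e : l' = l
      · rw [if_pos e, e, h3]
      · rw [if_neg e, h4 l' hl2 e]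
    by_cases e9 : l = 9
    · right; right; right; left
      subst e9
      refine ⟨?_, h3, h4, h5, h6 rfl⟩
      rw [hct, g 8 (by norm_num) (by norm_num), g 9 (by norm_num) (by norm_num),
        g 10 (by norm_num) (by norm_num), g 11 (by norm_num) (by norm_num),
        g 12 (by norm_num) (by norm_num), g 13 (by norm_num) (by norm_num),
        g 14 (by norm_num) (by norm_num)]
      norm_num
    · rw [hct, hns, g 7 (by norm_num) (by norm_num), g 8 (by norm_num) (by norm_num),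
        g 9 (by norm_num) (by norm_num), g 10 (by norm_num) (by norm_num),
        g 11 (by norm_num) (by norm_num), g 12 (by norm_num) (by norm_num),
        g 13 (by norm_num) (by norm_num), g 14 (by norm_num) (by norm_num)]
      obtain rfl | rfl | rfl | rfl | rfl | rfl : l = 8 ∨ l = 10 ∨ l = 11 ∨ l = 12 ∨ l = 13 ∨
        l = 14 := by omega
      all_goals norm_num
  · exact Or.inr (Or.inr (Or.inr (Or.inr h1)))
  · exact Or.inr (Or.inr (Or.inr (Or.inr (by omega))))

end Pool.Agent.GaussPoset.W7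

end

/-! From `Pool.Agent.W_448w7_h94.WiJ` -/

section

/-!
The ladder at window 7: the kinds of the elements of the families, the family theorem for one
anchor (MP_448cb3_co, S7, `j = 14`).
-/

namespace Pool.Agent.GaussPoset.W7

set_option linter.unusedSectionVars false

open Polynomial Finset Fi Cl Dd Wd

universe u

variable {P : Type u} [Fintype P] [PartialOrder P] [DecidableEq P] {r n0 : ℕ}
  {N : Tops P → Finset P} {b : Tops P → ℕ} {θ : Tops P → P → ℕ}

/-- the elements with a pole at the energy `n` -/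
def Pol (n : ℕ) (N : Tops P → Finset P) (θ : Tops P → P → ℕ) (z : P) : Prop :=
  ∃ c, Ank 51 N θ c ∧ z ⋖ c ∧ ((n = 32 ∧ KP c z) ∨
    ∃ v, KX N θ c z v ∧ n = 32 + ct 7 2 v ∧ nab 9 v = nab 7 v)

/-- the sign of the poles of the families at the energy `n` -/
noncomputable def sgP (P : Type u) [Fintype P] [PartialOrder P] [DecidableEq P] (n : ℕ) : ℤ :=
  if n = 48 then (-1 : ℤ) ^ (below P 7 + 8) else (-1 : ℤ) ^ (below P 7 + 7)

lemma sgP_ne (n : ℕ) : sgP P n ≠ 0 := by
  unfold sgP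
  split_ifs
  · exact pow_ne_zero _ (by norm_num)
  · exact pow_ne_zero _ (by norm_num)

lemma KX.ne {c z v : P} (h : KX N θ c z v) : v ≠ c := by
  rintro rfl
  exact h.2.2.2.1 rfl

lemma KX.uniq {c z v v' : P} (h : KX N θ c z v) (h' : KX N θ c z v') : v' = v :=
  (h.2.1 v' h'.1).resolve_left h'.ne

/-- what is known at the energy `n` -/
structure St (n : ℕ) (N : Tops P → Finset P) (θ : Tops P → P → ℕ) : Prop where
  le : n ≤ 50
  p0 : 40 < n → ∀ p ∈ bdR (r2 (2 * 7) N), ¬ IsP0 51 N θ p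
  kp : 32 < n → ∀ c z : P, Ank 51 N θ c → z ∈ bdR (r2 (2 * 7) N) → z ⋖ c → ¬ KP c z
  kx : ∀ c z v : P, Ank 51 N θ c → z ∈ bdR (r2 (2 * 7) N) → z ⋖ c → lev z = 16 →
    KX N θ c z v → n ≤ 32 + ct 7 2 v ∨ nab 9 v ≠ nab 7 v

/-- **the kinds with the poles** -/
theorem Am.kd (W : WL r 51 N b θ) (L : Lad N θ) {n : ℕ} (S : St n N θ) (z : P) :
    ∃ k : ℕ, ∀ c, Ank 51 N θ c → z ∈ Am n N θ c →
      Kd 7 (r2 (2 * 7) N) (th2 N θ) (topOf c) c (Dn 51 N c) n z (Pol n N θ z) k ∧
        (Pol n N θ z → (-1 : ℤ) ^ k = sgP P n) := by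
  classical
  by_cases hex : ∃ c, Ank 51 N θ c ∧ z ∈ Am n N θ c
  swap
  · exact ⟨0, fun c hc hz => absurd ⟨c, hc, hz⟩ hex⟩
  obtain ⟨c, hc, hz⟩ := hex
  obtain ⟨hzb, hzc, hlz, -⟩ := mem_Am.mp hz
  have hu : ∀ c', Ank 51 N θ c' → z ⋖ c' → c' = c := fun c' h1 h2 =>
    Am.ank W L S.le S.p0 hc hz h1 h2
  have key : ∀ k, (Kd 7 (r2 (2 * 7) N) (th2 N θ) (topOf c) c (Dn 51 N c) n z (Pol n N θ z) k ∧
      (Pol n N θ z → (-1 : ℤ) ^ k = sgP P n)) → ∃ k : ℕ, ∀ c, Ank 51 N θ c → z ∈ Am n N θ c →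
      Kd 7 (r2 (2 * 7) N) (th2 N θ) (topOf c) c (Dn 51 N c) n z (Pol n N θ z) k ∧
        (Pol n N θ z → (-1 : ℤ) ^ k = sgP P n) := by
    intro k h
    refine ⟨k, fun c' hc' hz' => ?_⟩
    rw [hu c' hc' (mem_Am.mp hz').2.1]
    exact h
  rcases Am.kind W L S.le S.p0 hc hz with hK | ⟨d, h1, h2, h3, h4, h5, h6, h7, h8⟩ | ⟨v, hK⟩
  · -- kind P
    have h32 : n ≤ 32 := by
      by_contra hcon
      exact S.kp (by omega) c z hc hzb hzc hK
    have hp : Pol n N θ z ↔ n = 32 := by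
      constructor
      · rintro ⟨c', hc', hzc', h | ⟨v, hv, -, -⟩⟩
        · exact h.1
        · rw [hu c' hc' hzc'] at hv
          exact absurd (hK.1 v hv.1) hv.ne
      · intro h
        exact ⟨c, hc, hzc, Or.inl ⟨h, hK⟩⟩
    refine key (below P 7 + 7) ⟨Kd.P hK.1 h32 hp (fun _ => rfl), fun h => ?_⟩
    unfold sgP
    rw [if_neg (by have := hp.mp h; omega)]
  · -- kind O
    have hd : topOf d = topOf c := (W.natSys.mem_iff.mp h2).2
    have hp : ¬ Pol n N θ z := by
      rintro ⟨c', hc', hzc', h | ⟨v, hv, -, -⟩⟩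
      · rw [hu c' hc' hzc'] at h
        exact h3 (h.2.1 d h4)
      · rw [hu c' hc' hzc'] at hv
        rcases h5 v hv.1 with e | e
        · exact hv.ne e
        · exact hv.2.2.2.1 (by rw [e, hd])
    exact key 0 ⟨Kd.O d h1 h4 h6 (by have := S.le; omega) hp h5, fun h => absurd h hp⟩
  · -- kind X
    have hK' := hK
    obtain ⟨g1, g2, g3, g4, g5, g6, g7, g8⟩ := hK'
    have hlv : lev v = 15 := by
      have := (W.gt.H.covBy_iff.mp g1).2
      omega
    have hp : Pol n N θ z ↔ n = 32 + ct 7 2 v ∧ nab 9 v = nab 7 v := by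
      constructor
      · rintro ⟨c', hc', hzc', h | ⟨v', hv, h1, h2⟩⟩
        · rw [hu c' hc' hzc'] at h
          exact absurd (h.2.1 v g1) hK.ne
        · rw [hu c' hc' hzc'] at hv
          rw [hK.uniq hv] at h1 h2
          exact ⟨h1, h2⟩
      · intro h
        exact ⟨c, hc, hzc, Or.inr ⟨v, hK, h⟩⟩
    have hle := S.le
    have hx : n ≤ 32 + ct 7 2 v → (n = 32 + ct 7 2 v → nab 9 v = nab 7 v) →
        (n = 32 + ct 7 2 v → (-1 : ℤ) ^ (below P 7 + 7 + nst 7 (fun _ => 2) v) = sgP P n) →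
        ∃ k : ℕ, ∀ c, Ank 51 N θ c → z ∈ Am n N θ c →
          Kd 7 (r2 (2 * 7) N) (th2 N θ) (topOf c) c (Dn 51 N c) n z (Pol n N θ z) k ∧
            (Pol n N θ z → (-1 : ℤ) ^ k = sgP P n) := by
      intro e1 e2 e3
      refine key (below P 7 + 7 + nst 7 (fun _ => 2) v) ⟨Kd.X v g1 g2 g3 g4 g5 e1 ?_ ?_, ?_⟩
      · rw [hp]
        exact ⟨fun h => h.1, fun h => ⟨h, e2 h⟩⟩
      · intro h
        exact ⟨(hp.mp h).2, rfl⟩
      · intro h
        exact e3 (hp.mp h).1
    have hkx := S.kx c z v hc hzb hzc hlz hK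
    rcases g8.val hlv with ⟨e1, e2, e3⟩ | ⟨e1, e2, e3⟩ | ⟨e1, e2, e3⟩ | ⟨e1, e2, e3, e4, e5⟩ | e
    · refine hx (hkx.resolve_right (fun h => h e2)) (fun _ => e2) (fun h => ?_)
      unfold sgP
      rw [if_neg (by omega), e3]
      ring
    · refine hx (hkx.resolve_right (fun h => h e2)) (fun _ => e2) (fun h => ?_)
      unfold sgP
      rw [if_pos (by omega), e3]
      ring
    · refine hx (hkx.resolve_right (fun h => h e2)) (fun _ => e2) (fun h => ?_)
      unfold sgP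
      rw [if_neg (by omega), e3]
      ring
    · have hnp : ¬ Pol n N θ z := by
        rw [hp]
        rintro ⟨-, h⟩
        rw [e2, e3 7 (by norm_num) (by norm_num)] at h
        omega
      refine key 0 ⟨Kd.Y ?_ hnp, fun h => absurd h hnp⟩
      intro g h1 h2 h3 h4
      exact L.nine c z v hc hzb hlz hzc g1 g3 g4 e2 e3 e4 e5 n hle g h1 h2 h3 h4
    · exact hx (by omega) (fun h => by omega) (fun h => by omega)

/-- **the family theorem for an anchor** -/
theorem Am.zf (W : WL r 51 N b θ) (J : JH P) (L : Lad N θ) {n : ℕ} (S : St n N θ) {k : P → ℕ}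
    (hk : ∀ z c, Ank 51 N θ c → z ∈ Am n N θ c →
      Kd 7 (r2 (2 * 7) N) (th2 N θ) (topOf c) c (Dn 51 N c) n z (Pol n N θ z) (k z) ∧
        (Pol n N θ z → (-1 : ℤ) ^ (k z) = sgP P n)) [DecidablePred (Pol n N θ)] {c : P}
    (hc : Ank 51 N θ c) : (1 + X : ℤ[X]) ^ (lv P 7).card ∣
      ZF 7 (h2 (2 * 7) N θ) (Am n N θ c) n - ∑ z ∈ (Am n N θ c).filter (Pol n N θ),
        X ^ (k z) * (1 + X) ^ ((lv P 7).card - 1) := by
  have hle := S.le
  have hnat : ∀ d, d ∈ N (topOf c) → d ∉ unnat N ∧ topOf d = topOf c := fun d hd =>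
    W.natSys.mem_iff.mp hd
  obtain ⟨hc1, hc2, hc3, hc4, hc5, hc6⟩ := hc.dat W
  have hcov : ∀ z ∈ Am n N θ c, ∀ x, z ⋖ x → x ∉ r2 (2 * 7) N ∧ 1 ≤ th2 N θ x ∧
      (topOf x ≠ topOf c → 2 ≤ th2 N θ x) := by
    intro z hz x hzx
    rcases Am.kind W L S.le S.p0 hc hz with ⟨h, -, -⟩ | ⟨d, h1, h2, h3, h4, h, h7, h8, h9⟩ |
      ⟨v, h1, h, h3, h4, h5, -⟩
    · rw [h x hzx]
      exact ⟨hc4, by omega, fun h => absurd rfl h⟩
    · rcases h x hzx with e | e
      · rw [e]
        exact ⟨hc4, by omega, fun h => absurd rfl h⟩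
      · rw [e]
        obtain ⟨g1, g2⟩ := hnat d h2
        have g3 : d ∉ twY (2 * 7) N := fun h => g1 (mem_twY.mp h).1
        have g4 : th2 N θ d = θ (topOf c) d := by
          unfold th2
          rw [thX_not g3, g2]
        exact ⟨fun h => g1 (mem_sdiff.mp h).1, by omega, fun h => absurd g2 h⟩
    · rcases h x hzx with e | e
      · rw [e]
        exact ⟨hc4, by omega, fun h => absurd rfl h⟩
      · rw [e]
        exact ⟨h3, by omega, fun _ => h5⟩
  refine (L.sp c hc).fam (A := Am n N θ c) (n := n) ?_ (by omega) ?_ hcov ?_ ?_ ?_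
  · intro d hd
    unfold Dn at hd
    rw [if_pos (by norm_num), mem_filter] at hd
    exact (hnat d hd.1).2
  · intro z hz
    obtain ⟨h1, h2, h3, h4⟩ := mem_Am.mp hz
    exact ⟨h1, h2, h3⟩
  · intro z hz y hy x hx hxt hyx
    obtain ⟨h1, h2, h3, h4⟩ := mem_Am.mp hz
    obtain ⟨hl2, -⟩ := Am.lab W (by omega) hz
    have hK := Am.kind W L S.le S.p0 hc hz
    have hlab : Pool.Agent.GaussPoset.h2 (2 * 7) N θ = hcan (r2 (2 * 7) N) (th2 N θ) := rfl
    rw [← hlab]
    by_cases hyz : y = z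
    · subst hyz
      rw [← uni_self hl2]
      rcases hK with h | ⟨d, -, -, -, -, -, -, h, -⟩ | ⟨v, -, -, -, -, -, -, h, -⟩
      · have h32 : n ≤ 32 := by
          by_contra hcon
          exact S.kp (by omega) c y hc h1 h2 h
        have := h.2.2
        omega
      · omega
      · omega
    · have h5 := L.h3 c z x y hc hl2 h2 h3 (fun u hu => (hcov z hz u hu).1) hy hx hxt hyx hyz
      rcases hK with h | ⟨d, -, -, -, -, -, h, -, -⟩ | ⟨v, g, -, -, -, -, h, -, -⟩
      · have h32 : n ≤ 32 := by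
          by_contra hcon
          exact S.kp (by omega) c z hc h1 h2 h
        have := h.2.1
        omega
      · omega
      · have hlv : lev v = 15 := by
          have := (W.gt.H.covBy_iff.mp g).2
          omega
        have := ct15 hlv
        omega
  · intro z hz y hy hyA
    exact Am.pair W J L S.le S.p0 hc hz hy hyA
  · intro z hz
    exact (hk z c hc hz).1

end Pool.Agent.GaussPoset.W7

end

/-! From `Pool.Agent.W_448w7_h94.WiK` -/

section

/-!
The ladder at window 7: **no join of a fold end and an end `(5;25)`** (MP_448cb3_co, S7,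
`j = 14`).
-/

namespace Pool.Agent.GaussPoset.W7

set_option linter.unusedSectionVars false

open Polynomial Finset Fi Cl Dd Wd

universe u

variable {P : Type u} [Fintype P] [PartialOrder P] [DecidableEq P] {r n0 : ℕ}
  {N : Tops P → Finset P} {b : Tops P → ℕ} {θ : Tops P → P → ℕ}

open Classical in
/-- the families at the energy `n` -/
noncomputable def FamN (n : ℕ) (N : Tops P → Finset P) (θ : Tops P → P → ℕ) :
    Finset (Finset P) :=
  (univ.filter (fun c : P => Ank 51 N θ c)).image (Am n N θ)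

lemma mem_FamN {n : ℕ} {A : Finset P} :
    A ∈ FamN n N θ ↔ ∃ c, Ank 51 N θ c ∧ Am n N θ c = A := by
  classical
  unfold FamN
  rw [mem_image]
  constructor
  · rintro ⟨c, h1, h2⟩
    exact ⟨c, (mem_filter.mp h1).2, h2⟩
  · rintro ⟨c, h1, h2⟩
    exact ⟨c, mem_filter.mpr ⟨mem_univ _, h1⟩, h2⟩

open Classical in
/-- **one step of the ladder** -/
theorem Lad.step (W : WL r 51 N b θ) (J : JH P) (L : Lad N θ) {n : ℕ} (S : St n N θ) :
    ∃ k : P → ℕ, (∀ z c, Ank 51 N θ c → z ∈ Am n N θ c → Pol n N θ z →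
      (-1 : ℤ) ^ (k z) = sgP P n) ∧ (1 + X : ℤ[X]) ^ (lv P 7).card ∣
        ∑ A ∈ FamN n N θ, ∑ z ∈ A.filter (Pol n N θ),
          X ^ (k z) * (1 + X) ^ ((lv P 7).card - 1) +
        ∑ z ∈ (bdR (r2 (2 * 7) N)).filter (fun z => (∀ A ∈ FamN n N θ, z ∉ A) ∧
          cst 7 (h2 (2 * 7) N θ) z = n), Lt 7 (h2 (2 * 7) N θ) z := by
  choose k hk using Am.kd W L S
  have hle := S.le
  refine ⟨k, fun z c hc hz => (hk z c hc hz).2, ?_⟩
  have key := W.farT.plusF (n := n) (by omega) (FamN n N θ) ?_ ?_ ?_ ?_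
  · have hZ := dvd_Z W.gt.H.gauss 7 n
    have h1 := dvd_sub hZ key
    rw [sub_sub_cancel] at h1
    have h2 : (1 + X : ℤ[X]) ^ (lv P 7).card ∣ ∑ A ∈ FamN n N θ, (ZF 7 (h2 (2 * 7) N θ) A n -
        ∑ z ∈ A.filter (Pol n N θ), X ^ (k z) * (1 + X) ^ ((lv P 7).card - 1)) := by
      refine Finset.dvd_sum fun A hA => ?_
      obtain ⟨c, hc, rfl⟩ := mem_FamN.mp hA
      exact Am.zf W J L S hk hc
    rw [Finset.sum_sub_distrib] at h2
    have h3 := dvd_sub h1 h2
    rwa [show ∀ a b c : ℤ[X], a + b - (a - c) = c + b by intros; ring] at h3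
  · intro A hA z hz
    obtain ⟨c, hc, rfl⟩ := mem_FamN.mp hA
    exact (mem_Am.mp hz).1
  · intro z hz h
    exact out_cost W J L S.le S.p0 hz fun c hc => h _ (mem_FamN.mpr ⟨c, hc, rfl⟩)
  · intro A hA z hz z' hz' hne
    obtain ⟨c, hc, rfl⟩ := mem_FamN.mp hA
    exact Am.pair W J L S.le S.p0 hc hz hz' hne
  · intro A hA A' hA' hne z hz hz'
    obtain ⟨c, hc, rfl⟩ := mem_FamN.mp hA
    obtain ⟨c', hc', rfl⟩ := mem_FamN.mp hA'
    rw [Am.ank W L S.le S.p0 hc hz hc' (mem_Am.mp hz').2.1] at hne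
    exact hne rfl

/-- the single elements -/
lemma single_cases (W : WL r 51 N b θ) (J : JH P) (L : Lad N θ) {n : ℕ} (hn : n ≤ 50) {z : P}
    (hz : z ∈ bdR (r2 (2 * 7) N)) (hc : cst 7 (h2 (2 * 7) N θ) z = n) :
    (n = 40 ∧ lev z = 15 ∧ IsP0 51 N θ z) ∨ (n = 50 ∧ ∃ x x', lev z = 15 ∧ Fd 7 x ∧
      Prof 7 x' (gD p5) ∧ topOf x ≠ topOf x' ∧ z ⋖ x ∧ z ⋖ x') ∨
      nab 7 z ≤ nab (7 + h2 (2 * 7) N θ z) z := by
  classical
  rcases W.bd hz with hl | h1 | ⟨hl, h2, c, hcA, hzc⟩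
  · rcases W.rows J (mem_filter.mp hz).1 hl with ⟨t, lo, hi, e, A, L', hm⟩ |
      ⟨x, x', g1, g2, g3, g4, g5⟩ | ⟨g, -⟩
    · have hp : IsP0 51 N θ z := ⟨t, lo, hi, e, A, L', hm⟩
      have := (L.p0 z hz hl hp).1
      exact Or.inl ⟨by omega, hl, hp⟩
    · have := (L.fb z hz x x' hl g1 g2 g3 g4 g5).1
      exact Or.inr (Or.inl ⟨by omega, x, x', hl, g1, g2, g3, g4, g5⟩)
    · omega
  · omega
  · right; right
    rw [h2]
    rw [cst_ct h2] at hc
    exact (L.c16 c z hcA hz hzc).2 (by omega)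

/-- **no poles of the families**, energies without single poles -/
theorem no_pol (W : WL r 51 N b θ) (J : JH P) (L : Lad N θ) {n : ℕ} (S : St n N θ)
    (h40 : n ≠ 40) (h50 : n ≠ 50) {c z : P} (hc : Ank 51 N θ c) (hz : z ∈ Am n N θ c) :
    ¬ Pol n N θ z := by
  classical
  intro hp
  obtain ⟨k, hk, hd⟩ := L.step W J S
  have hle := S.le
  have h1 : (1 + X : ℤ[X]) ^ (lv P 7).card ∣ ∑ z ∈ (bdR (r2 (2 * 7) N)).filter
      (fun z => (∀ A ∈ FamN n N θ, z ∉ A) ∧ cst 7 (h2 (2 * 7) N θ) z = n),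
        Lt 7 (h2 (2 * 7) N θ) z := by
    refine Finset.dvd_sum fun y hy => ?_
    rw [mem_filter] at hy
    rcases single_cases W J L hle hy.1 hy.2.2 with h | h | h
    · omega
    · omega
    · unfold Lt
      exact dvd_mul_of_dvd_right (pow_dvd_pow _ (by omega)) _
  have h2 := dvd_sub hd h1
  rw [add_sub_cancel_right, Finset.sum_sigma'] at h2
  have hB : 1 ≤ (lv P 7).card := by
    have h7 : 1 ≤ nab 7 z := one_le_nab (by
      have := (mem_Am.mp hz).2.2.1
      omega)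
    have := nab_le z 7
    omega
  have h4 := sum_empty hB _ (fun y : (_ : Finset P) × P => k y.2) (sgP_ne (P := P) n) (by
    rintro ⟨A, y⟩ hy
    rw [mem_sigma, mem_filter] at hy
    obtain ⟨c', hc', hA⟩ := mem_FamN.mp hy.1
    exact hk y c' hc' (by rw [hA]; exact hy.2.1) hy.2.2) h2
  have h5 : (⟨Am n N θ c, z⟩ : (_ : Finset P) × P) ∈
      (FamN n N θ).sigma (fun A => A.filter (Pol n N θ)) := by
    rw [mem_sigma, mem_filter]
    exact ⟨mem_FamN.mpr ⟨c, hc, rfl⟩, hz, hp⟩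
  rw [h4] at h5
  exact absurd h5 (Finset.notMem_empty _)

/-- **no single poles**, energies without poles of the families -/
theorem no_single (W : WL r 51 N b θ) (J : JH P) (L : Lad N θ) {n : ℕ} (S : St n N θ)
    (hpol : ∀ c z, Ank 51 N θ c → z ∈ Am n N θ c → ¬ Pol n N θ z) {z : P}
    (hz : z ∈ bdR (r2 (2 * 7) N)) (hl : lev z = 15) (hc : cst 7 (h2 (2 * 7) N θ) z = n)
    (hd : nab 7 z = nab (7 + h2 (2 * 7) N θ z) z + 1) : False := by
  classical
  obtain ⟨k, -, hdv⟩ := L.step W J S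
  have hle := S.le
  rw [Finset.sum_eq_zero, zero_add] at hdv
  swap
  · intro A hA
    obtain ⟨c, hc, rfl⟩ := mem_FamN.mp hA
    rw [Finset.filter_eq_empty_iff.mpr (fun y hy => hpol c y hc hy), Finset.sum_empty]
  have hZ := dvd_Z W.gt.H.gauss 7 n
  set T := (bdR (r2 (2 * 7) N)).filter (fun z => (∀ A ∈ FamN n N θ, z ∉ A) ∧
    cst 7 (h2 (2 * 7) N θ) z = n) with hT
  have h7 : 1 ≤ nab 7 z := one_le_nab (by omega)
  have h7' := nab_le z 7
  have hs := sign_sum_of_dvd T hZ (dvd_sub hZ hdv) (c0 := (lv P 7).card - 1) (by omega) (by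
    intro y hy
    rw [hT, mem_filter] at hy
    rcases single_cases W J L hle hy.1 hy.2.2 with h | ⟨-, x, x', h, h2, h3, h4, h5, h6⟩ | h
    · have := (L.p0 y hy.1 h.2.1 h.2.2).2.1
      omega
    · have := (L.fb y hy.1 x x' h h2 h3 h4 h5 h6).2.1
      omega
    · omega)
  set T' := T.filter (fun y => (lv P 7).card - 1 + nab 7 y =
    (lv P 7).card + nab (7 + h2 (2 * 7) N θ y) y) with hT'
  have hzT : z ∈ T' := by
    rw [hT', mem_filter, hT, mem_filter]
    refine ⟨⟨hz, fun A hA hzA => ?_, hc⟩, by omega⟩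
    obtain ⟨c, -, rfl⟩ := mem_FamN.mp hA
    have := (mem_Am.mp hzA).2.2.1
    omega
  rw [Finset.sum_congr rfl (g := fun _ => (1 : ℤ))] at hs
  · rw [Finset.sum_const, nsmul_eq_mul, mul_one] at hs
    have h5 : T'.card = 0 := by exact_mod_cast hs
    rw [Finset.card_eq_zero] at h5
    rw [h5] at hzT
    exact absurd hzT (Finset.notMem_empty _)
  · intro y hy
    rw [hT', mem_filter, hT, mem_filter] at hy
    rcases single_cases W J L hle hy.1.1 hy.1.2.2 with h | ⟨-, x, x', h, h2, h3, h4, h5, h6⟩ | h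
    · exact (L.p0 y hy.1.1 h.2.1 h.2.2).2.2
    · exact (L.fb y hy.1.1 x x' h h2 h3 h4 h5 h6).2.2
    · exfalso
      have := hy.2
      omega

/-- members of the families -/
lemma Am.of (W : WL r 51 N b θ) {n : ℕ} (hn : n ≤ 51) {c z : P} (hc : Ank 51 N θ c)
    (hz : z ∈ bdR (r2 (2 * 7) N)) (hzc : z ⋖ c) (h : ct 7 2 z < n) : z ∈ Am n N θ c := by
  classical
  obtain ⟨h1, -, -, h4, -, h6⟩ := hc.dat W
  have hlz : lev z = 16 := by
    have := (W.gt.H.covBy_iff.mp hzc).2
    omega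
  have hle : h2 (2 * 7) N θ z ≤ 2 := by
    have := hcan_le (θ := th2 N θ) h4 hzc
    rw [h6] at this
    exact this
  have hcst : cst 7 (h2 (2 * 7) N θ) z ≤ ct 7 2 z := by
    unfold ct cst
    refine Finset.sum_le_sum fun w _ => ?_
    unfold ez
    split_ifs
    · exact min_le_min_right _ hle
    · exact le_rfl
  exact mem_Am.mpr ⟨hz, hzc, hlz, by omega⟩

/-- **No join of a fold end and an end `(5;25)`.** -/
theorem Lad.no_fb (W : WL r 51 N b θ) (J : JH P) (L : Lad N θ) {z x x' : P} (hl : lev z = 15)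
    (hx : Fd 7 x) (hx' : Prof 7 x' (gD p5)) (ht : topOf x ≠ topOf x') (hzx : z ⋖ x)
    (hzx' : z ⋖ x') : False := by
  classical
  have hlv : ∀ c z v : P, Ank 51 N θ c → z ⋖ c → KX N θ c z v → lev v = 15 := by
    intro c z v hc hzc hK
    have h1 := (W.gt.H.covBy_iff.mp hzc).2
    have h2 := (W.gt.H.covBy_iff.mp hK.1).2
    have h3 := (hc.dat W).1
    omega
  -- energy 32
  have S32 : St 32 N θ := ⟨by norm_num, fun h => absurd h (by norm_num),
    fun h => absurd h (by norm_num), fun c z v hc _ hzc _ hK => Or.inl (by omega)⟩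
  have hkp : ∀ c z : P, Ank 51 N θ c → z ∈ bdR (r2 (2 * 7) N) → z ⋖ c → ¬ KP c z := by
    intro c z hc hz hzc hK
    exact no_pol W J L S32 (by norm_num) (by norm_num) hc
      (Am.of W (by norm_num) hc hz hzc (by rw [hK.2.1]; norm_num))
      ⟨c, hc, hzc, Or.inl ⟨rfl, hK⟩⟩
  -- energy 40
  have S40 : St 40 N θ := ⟨by norm_num, fun h => absurd h (by norm_num), fun _ => hkp,
    fun c z v hc _ hzc _ hK => Or.inl (by
      have := ct15 (hlv c z v hc hzc hK)
      omega)⟩
  have hp0 : ∀ p ∈ bdR (r2 (2 * 7) N), ¬ IsP0 51 N θ p := by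
    intro p hp hP
    have hlp : lev p = 15 := by
      obtain ⟨t, lo, hi, e, A, L', hm⟩ := hP
      exact hm.1
    obtain ⟨h1, h2, h3⟩ := L.p0 p hp hlp hP
    refine no_single W J L S40 ?_ hp hlp h1 h2
    rintro c z hc hz ⟨c', hc', hzc', h | ⟨v, hv, h, -⟩⟩
    · omega
    · have := ct15 (hlv c' z v hc' hzc' hv)
      omega
  have kill : ∀ n, n ≤ 49 → n ≠ 40 → St n N θ → ∀ c z v : P, Ank 51 N θ c →
      z ∈ bdR (r2 (2 * 7) N) → z ⋖ c → KX N θ c z v → n = 32 + ct 7 2 v → nab 9 v = nab 7 v →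
      False := by
    intro n hn h40 S c z v hc hz hzc hK h1 h2
    refine no_pol W J L S h40 (by omega) hc (Am.of W (by omega) hc hz hzc ?_)
      ⟨c, hc, hzc, Or.inr ⟨v, hK, h1, h2⟩⟩
    have := hK.2.2.2.2.2.1
    omega
  -- energy 47
  have S47 : St 47 N θ := ⟨by norm_num, fun _ => hp0, fun _ => hkp,
    fun c z v hc _ hzc _ hK => Or.inl (by
      have := ct15 (hlv c z v hc hzc hK)
      omega)⟩
  have k47 := kill 47 (by norm_num) (by norm_num) S47
  -- energy 48
  have hval : ∀ c z v : P, Ank 51 N θ c → z ∈ bdR (r2 (2 * 7) N) → z ⋖ c → KX N θ c z v →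
      16 ≤ ct 7 2 v := by
    intro c z v hc hz hzc hK
    rcases hK.2.2.2.2.2.2.2.val (hlv c z v hc hzc hK) with h | h | h | h | h
    · exact (k47 c z v hc hz hzc hK (by omega) h.2.1).elim
    · omega
    · omega
    · omega
    · omega
  have S48 : St 48 N θ := ⟨by norm_num, fun _ => hp0, fun _ => hkp,
    fun c z v hc hz hzc _ hK => Or.inl (by
      have := hval c z v hc hz hzc hK
      omega)⟩
  have k48 := kill 48 (by norm_num) (by norm_num) S48
  -- energy 49
  have hval : ∀ c z v : P, Ank 51 N θ c → z ∈ bdR (r2 (2 * 7) N) → z ⋖ c → KX N θ c z v →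
      17 ≤ ct 7 2 v := by
    intro c z v hc hz hzc hK
    rcases hK.2.2.2.2.2.2.2.val (hlv c z v hc hzc hK) with h | h | h | h | h
    · exact (k47 c z v hc hz hzc hK (by omega) h.2.1).elim
    · exact (k48 c z v hc hz hzc hK (by omega) h.2.1).elim
    · omega
    · omega
    · omega
  have S49 : St 49 N θ := ⟨by norm_num, fun _ => hp0, fun _ => hkp,
    fun c z v hc hz hzc _ hK => Or.inl (by
      have := hval c z v hc hz hzc hK
      omega)⟩
  have k49 := kill 49 (by norm_num) (by norm_num) S49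
  -- energy 50
  have S50 : St 50 N θ := by
    refine ⟨le_rfl, fun _ => hp0, fun _ => hkp, fun c z v hc hz hzc _ hK => ?_⟩
    rcases hK.2.2.2.2.2.2.2.val (hlv c z v hc hzc hK) with h | h | h | h | h
    · exact (k47 c z v hc hz hzc hK (by omega) h.2.1).elim
    · exact (k48 c z v hc hz hzc hK (by omega) h.2.1).elim
    · exact (k49 c z v hc hz hzc hK (by omega) h.2.1).elim
    · right
      rw [h.2.1, h.2.2.1 7 (by norm_num) (by norm_num)]
      norm_num
    · left
      omega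
  have hz2 := W.join_r2 ht hzx hzx'
  have hz := W.mem_bd hz2 hl
  obtain ⟨h1, h2, h3⟩ := L.fb z hz x x' hl hx hx' ht hzx hzx'
  refine no_single W J L S50 ?_ hz hl h1 h2
  rintro c y hc hy ⟨c', hc', hyc', h | ⟨v, hv, h, h'⟩⟩
  · omega
  · rcases hv.2.2.2.2.2.2.2.val (hlv c' y v hc' hyc' hv) with g | g | g | g | g
    · omega
    · omega
    · omega
    · omega
    · omega

end Pool.Agent.GaussPoset.W7

end

/-! From `Pool.Agent.W_448w7_h94.WiM` -/

section

/-!
Energy 31: the boundary of the system without the twins costs at least 32, except the pendants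
of the anchors (MP_448cb3_co, S7, `j = 14`, window 7).
-/

namespace Pool.Agent.GaussPoset.W7

set_option linter.unusedSectionVars false

open Polynomial Finset Fi Cl Dd Wd

universe u

variable {P : Type u} [Fintype P] [PartialOrder P] [DecidableEq P] {r n0 : ℕ}
  {N : Tops P → Finset P} {b : Tops P → ℕ} {θ : Tops P → P → ℕ}

/-- cells of level 15 of rectangles, labels from the cells of level 14 -/
lemma rect15 : ∀ s ≤ 15, (1 ≤ s → 32 ≤ ∑ a ∈ range (s + 1),
      rowW false (fun l => min ((s - 1 - 7) + (15 - s - 7) + 1) (l - 7)) (15 - s) 15 a) ∧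
    (s ≤ 14 → 32 ≤ ∑ a ∈ range (s + 1),
      rowW false (fun l => min ((s - 7) + (14 - s - 7) + 1) (l - 7)) (15 - s) 15 a) := by
  decide +kernel

/-- cells of level 15 of stairs, labels from the cells of level 14 -/
lemma stair15 : ∀ s ≤ 7, (1 ≤ s → 32 ≤ ∑ a ∈ range (s + 1),
      rowW true (fun l => min ((s - 1 - 6) + (15 - s - 7) + 1) (l - 7)) (15 - s) 15 a) ∧
    32 ≤ ∑ a ∈ range (s + 1),
      rowW true (fun l => min ((s - 6) + (14 - s - 7) + 1) (l - 7)) (15 - s) 15 a := by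
  decide +kernel

/-- **the cost of a twin** -/
theorem WL.tw32 (W : WL r n0 N b θ) {z x : P} (hz : z ∈ twY (2 * 7) N) (hzx : z ⋖ x) :
    32 ≤ ct 7 (θ (topOf x) x + 1) z := by
  classical
  have H := W.gt.H
  have h1 := mem_twY.mp hz
  have h3 := twT_spec h1.2.2
  have hcov := W.twSys.cov (y := x) hz
  obtain ⟨y, hy⟩ : ∃ y, twT N z = y := ⟨_, rfl⟩
  rw [hy] at h3 hcov
  have hyx := hcov.mpr hzx
  have hlz : lev z = 15 := h1.2.1
  have hly : lev y = 15 := by rw [lev_eq_of_up h3.2]; exact hlz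
  have hlx : lev x = 14 := by
    have := (H.covBy_iff.mp hzx).2
    omega
  have htx : topOf y = topOf x := W.natSys.cp y x hyx.1.le h3.1
  have hyN : y ∈ N (topOf x) := W.natSys.mem_iff.mpr ⟨h3.1, htx⟩
  have hct : ∀ k, ct 7 k z = ct 7 k y := fun k => (ct_congr_up fun w => h3.2 w).symm
  have hfull : Fi.Full 7 7 N θ y → False := fun h => h.tw z h1.1 h3.2
  have hxl : x ∈ lowPart (2 * 7) (topOf x : P) := mem_lowPart.mpr ⟨le_topOf x, hlx.le⟩
  rcases W.tc (topOf x) with ⟨g1, g2, g3, g5, g6, g8, g9⟩ | ⟨Nc, co, g0, g1, g2, g3⟩ |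
    ⟨Nc, co, g0, g1, g2, g3, g4⟩ | ⟨g, hb⟩ | ⟨lo, hi, e, A, g, hb⟩ | ⟨g1, g2, g3, g4⟩
  · rw [← htx] at g1 g2
    exact (hfull (W.light_case h3.1 g1 g2)).elim
  · have hxN := g0.strip hxl
    have hyc : y ∈ Nc := by
      rw [g1, mem_natR] at hyN
      rcases hyN with h | h | h
      · exact h
      · exfalso
        refine mem_unnat.mp h1.1 (topOf x) ?_
        rw [g1, mem_natR]
        exact Or.inr (Or.inl (junk_twin h h3.2))
      · exfalso
        refine mem_unnat.mp h1.1 (topOf x) ?_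
        rw [g1, mem_natR]
        exact Or.inr (Or.inr (junk_twin h h3.2))
    have hcl := g0.chart.lev y hyc
    have hxc := g0.chart.lev x hxN
    have hb := g0.b_le
    have hth : ((co x).1 - 7) + ((co x).2 - 7) ≤ θ (topOf x) x := by
      rw [g2]
      unfold thR
      split_ifs
      · omega
      · omega
    have hc := (chart_cov g0.chart H hyc hxN).mp hyx
    have h6 := fun k => ct_chart g0.chart (shift := false) (by simp) hyc 7 k
    have h7 := rect15 (co y).1 (by omega)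
    rw [hct]
    rcases hc with ⟨e1, e2⟩ | ⟨e1, e2⟩
    · refine le_trans ?_ (ct_mono (i := 7) le_rfl (show ((co y).1 - 1 - 7) +
        (15 - (co y).1 - 7) + 1 ≤ θ (topOf x) x + 1 by omega))
      rw [h6, hly, show (co y).2 = 15 - (co y).1 by omega]
      exact h7.1 (by omega)
    · refine le_trans ?_ (ct_mono (i := 7) le_rfl (show ((co y).1 - 7) +
        (14 - (co y).1 - 7) + 1 ≤ θ (topOf x) x + 1 by omega))
      rw [h6, hly, show (co y).2 = 15 - (co y).1 by omega]
      exact h7.2 (by omega)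
  · have hxN := g0.strip hxl
    have hyc : y ∈ Nc := by
      rw [g1, mem_natS] at hyN
      rcases hyN with h | h
      · exact h
      · exfalso
        refine mem_unnat.mp h1.1 (topOf x) ?_
        rw [g1, mem_natS]
        exact Or.inr (junk_twin h h3.2)
    have hcl := g0.chart.lev y hyc
    have hxc := g0.chart.lev x hxN
    have hS : (co y).1 ≤ (co y).2 := g0.chart.mem y hyc
    have hSx : (co x).1 ≤ (co x).2 := g0.chart.mem x hxN
    have hth : ((co x).1 - 6) + ((co x).2 - 7) ≤ θ (topOf x) x := by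
      rw [g2]
      unfold thS
      split_ifs
      · omega
      · omega
    have hc := (chart_cov g0.chart H hyc hxN).mp hyx
    have h6 := fun k => ct_chart g0.chart (shift := true) (by simp) hyc 7 k
    have h7 := stair15 (co y).1 (by omega)
    rw [hct]
    rcases hc with ⟨e1, e2⟩ | ⟨e1, e2⟩
    · refine le_trans ?_ (ct_mono (i := 7) le_rfl (show ((co y).1 - 1 - 6) +
        (15 - (co y).1 - 7) + 1 ≤ θ (topOf x) x + 1 by omega))
      rw [h6, hly, show (co y).2 = 15 - (co y).1 by omega]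
      exact h7.1 (by omega)
    · refine le_trans ?_ (ct_mono (i := 7) le_rfl (show ((co y).1 - 6) +
        (14 - (co y).1 - 7) + 1 ≤ θ (topOf x) x + 1 by omega))
      rw [h6, hly, show (co y).2 = 15 - (co y).1 by omega]
      exact h7.2
  · exact absurd h3.2 (g.h10 z h1.1 y hyN hly)
  · have hL : Lx n0 N θ y := by
      refine ⟨by rw [htx]; exact hyN, lo, hi, e, A, ?_⟩
      rw [htx]
      exact g
    exact absurd h3.2 (hL.tw W hly h1.1)
  · rw [g1] at hyN
    have := (mem_lowPart.mp hyN).2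
    omega

/-- the natural thresholds -/
noncomputable def th1 (θ : Tops P → P → ℕ) : P → ℕ := fun x => θ (topOf x) x

lemma th2_le {x : P} (h : x ∉ unnat N) : th2 N θ x = th1 θ x := by
  unfold th2 th1
  rw [thX_not (fun h' => h (mem_twY.mp h').1)]

/-- more twins, smaller labels -/
lemma h2_le {z : P} (hz : z ∈ bdR (unnat N)) :
    h2 (2 * 7) N θ z ≤ hcan (unnat N) (th1 θ) z := by
  classical
  obtain ⟨x, hx, hzx, hh⟩ := hcan_spec (θ := th1 θ) hz
  have hx2 : x ∉ r2 (2 * 7) N := fun h => hx (mem_sdiff.mp h).1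
  have h3 := hcan_le (θ := th2 N θ) hx2 hzx
  rw [th2_le hx] at h3
  rw [hh]
  exact h3

lemma cst_mono {i : ℕ} {h h' : P → ℕ} {z : P} (hh : h z ≤ h' z) : cst i h z ≤ cst i h' z := by
  unfold cst
  refine Finset.sum_le_sum fun w _ => ?_
  unfold ez
  split_ifs
  · exact min_le_min_right _ hh
  · exact le_rfl

/-- **the boundary of the system without the twins** -/
theorem WL.bd31 (W : WL r n0 N b θ) (J : JH P)
    (hp0 : ∀ z ∈ r2 (2 * 7) N, IsP0 n0 N θ z → cst 7 (h2 (2 * 7) N θ) z = 40)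
    (hfb : ∀ z x x' : P, Fd 7 x → Prof 7 x' (gD p5) → topOf x ≠ topOf x' → z ⋖ x → z ⋖ x' →
      cst 7 (h2 (2 * 7) N θ) z = 50) {z : P} (hz : z ∈ bdR (unnat N)) :
    32 ≤ cst 7 (hcan (unnat N) (th1 θ)) z ∨
      (lev z = 16 ∧ z ∈ bdR (r2 (2 * 7) N) ∧ h2 (2 * 7) N θ z = 2 ∧
        hcan (unnat N) (th1 θ) z = 2 ∧ ∃ c, Ank n0 N θ c ∧ z ⋖ c) := by
  classical
  have hz' := hz
  obtain ⟨hzR, x, hxR, hzx⟩ := mem_filter.mp hz'
  have hmono := cst_mono (i := 7) (h2_le (θ := θ) hz)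
  by_cases hY : z ∈ twY (2 * 7) N
  · left
    obtain ⟨y, hy, hzy, hh⟩ := hcan_spec (θ := th1 θ) hz
    rw [cst_ct (k := θ (topOf y) y + 1) hh]
    exact W.tw32 hY hzy
  · have hz2 : z ∈ r2 (2 * 7) N := mem_sdiff.mpr ⟨hzR, hY⟩
    have hzb : z ∈ bdR (r2 (2 * 7) N) :=
      mem_filter.mpr ⟨hz2, x, fun h => hxR (mem_sdiff.mp h).1, hzx⟩
    rcases W.bd hzb with hl | h1 | ⟨hl, h2, c, hc, hzc⟩
    · left
      rcases W.rows J hz2 hl with ⟨t, lo, hi, e, A, L', hm⟩ | ⟨x, x', g1, g2, g3, g4, g5⟩ |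
        ⟨g, -⟩
      · have := hp0 z hz2 ⟨t, lo, hi, e, A, L', hm⟩
        omega
      · have := hfb z x x' g1 g2 g3 g4 g5
        omega
      · omega
    · left
      omega
    · right
      refine ⟨hl, hzb, h2, ?_, c, hc, hzc⟩
      have e1 := h2_le (θ := θ) hz
      obtain ⟨-, -, h3, -, h5, -⟩ := hc.dat W
      have e2 := hcan_le (θ := th1 θ) h3 hzc
      have e3 : th1 θ c = 1 := h5
      omega

end Pool.Agent.GaussPoset.W7

end

/-! From `Pool.Agent.W_448s7s_h5.TvH` -/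

section

/-!
Level 14, window 7: the costs below a strip `La7` (MP_448cb3_co, S7, S8, `j = 14`).
-/

namespace Pool.Agent.GaussPoset.Tv

set_option linter.unusedSectionVars false

open Polynomial Finset Cl Dd Wd Win Sg

universe u

variable {P : Type u} [Fintype P] [PartialOrder P] [DecidableEq P]

/-- the elements above an element whose covers are coded -/
lemma cod_nab {n : ℕ} {cv lv um : ℕ → ℕ} {c : ℕ → P} (C : Cod n cv lv c)
    (hcv : ∀ a < n, cv a < 2 ^ a) (hum : ∀ a < n, um a = Nat.lor (2 ^ a) (orM um n (cv a)))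
    {z : P} {m : ℕ} (hz : ∀ y, z ⋖ y ↔ ∃ b < n, m.testBit b = true ∧ c b = y) {l : ℕ}
    (hl : l ≠ GaussPoset.lev z) : nab l z =
      ((range n).filter (fun b => (orM um n m).testBit b = true ∧ lv b = l)).card := by
  classical
  unfold nab
  symm
  refine Finset.card_bij (fun a _ => c a) ?_ ?_ ?_
  · intro a ha
    rw [mem_filter, mem_range] at ha
    rw [mem_filter, mem_lv]
    refine ⟨(C.lev a ha.1).trans ha.2.2, ?_⟩
    obtain ⟨b, hb, hbb, h1⟩ := (orM_testBit _ _ _ _).mp ha.2.1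
    exact ((hz (c b)).mpr ⟨b, hb, hbb, rfl⟩).le.trans ((C.le_iff le_rfl hcv hum hb ha.1).mpr h1)
  · intro a ha b hb h
    rw [mem_filter, mem_range] at ha hb
    exact C.inj a ha.1 b hb.1 h
  · intro y hy
    rw [mem_filter, mem_lv] at hy
    have hne : z ≠ y := by
      rintro rfl
      exact hl hy.1.symm
    obtain ⟨v, hv, hvy⟩ := Hul.exists_cov (lt_of_le_of_ne hy.2 hne)
    obtain ⟨a, ha, hab, rfl⟩ := (hz v).mp hv
    obtain ⟨b, hb, rfl⟩ := cod_above C ha hvy
    refine ⟨b, mem_filter.mpr ⟨mem_range.mpr hb, ?_, (C.lev b hb).symm.trans hy.1⟩, rfl⟩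
    exact (orM_testBit _ _ _ _).mpr ⟨a, ha, hab, (C.le_iff le_rfl hcv hum ha hb).mp hvy⟩

variable {r : ℕ} {t : P} {lo hi : ℕ → ℕ} {e : ℕ → ℕ → P} {z c d p : P} {m : ℕ}

/-- the cost of a pendant -/
lemma ct_of_pend {i k : ℕ} (h : Pend z c) : ct i k z = min k (lev z - i) + ct i k c := by
  classical
  rw [ct_succ, ct_eq_sum]
  congr 1
  refine Finset.sum_congr rfl fun y _ => ?_
  have h1 : z < y ↔ c ≤ y := by
    constructor
    · intro hy
      obtain ⟨v, hv, hvy⟩ := Hul.exists_cov hy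
      rwa [h.2 v hv] at hvy
    · intro hy
      exact h.1.lt.trans_le hy
  by_cases h2 : c ≤ y
  · rw [if_pos h2, if_pos (h1.mpr h2)]
  · rw [if_neg h2, if_neg fun h3 => h2 (h1.mp h3)]

/-- the code of the strip with two elements of level 15, the covers -/
def cvJ (m : ℕ) : List ℕ := La7cv ++ [805306368, m]

/-- the levels -/
def lvJ : List ℕ := La7lv ++ [15, 15]

/-- the cells above -/
def umJ (m : ℕ) : List ℕ := La7um ++ [Nat.lor (2 ^ 30) (orM (fun a => La7um.getD a 0) 30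
  805306368), Nat.lor (2 ^ 31) (orM (fun a => La7um.getD a 0) 30 m)]

section La7

variable (D : WordD 14 7 wa7 lo hi) (C : Cp.Comp 14 t lo hi e) (hgt : GoodTo P r 14)
  (ht : lev t = 0)

include D C hgt ht

/-- the elements above an element of level 15 below the strip -/
lemma La7_nab (hz : Mk e z m) {l : ℕ} (hl : l ≤ 14) : nab l z =
    ((range 30).filter (fun b => (orM (fun a => La7um.getD a 0) 30 m).testBit b = true ∧
      La7lv.getD b 0 = l)).card :=
  cod_nab (La7_cod D C hgt.H hgt.good ht) La7_us.cv La7_um hz.2 (by rw [hz.1]; omega)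

/-- the element below the last two cells -/
theorem c34_facts (hc : Mk e c 805306368) : ct 7 2 c = 28 ∧ ct 7 3 c = 39 ∧ nab 7 c = 2 ∧
    nab 8 c = 2 ∧ nab 9 c = 2 := by
  rw [La7_ct D C hgt ht hc.1 hc.2, La7_ct D C hgt ht hc.1 hc.2, La7_nab D C hgt ht hc (by omega),
    La7_nab D C hgt ht hc (by omega), La7_nab D C hgt ht hc (by omega)]
  decide +kernel

/-- the pendant of the first cell -/
theorem p0_facts (hp : Mk e p 33554432) : ct 7 5 p = 40 ∧ nab 7 p = 2 ∧ nab 12 p = 1 ∧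
    nst 7 (fun _ => 5) p = 10 := by
  rw [La7_ct D C hgt ht hp.1 hp.2, nst_eq]
  simp only [Finset.sum_range_succ, Finset.sum_range_zero]
  rw [La7_nab D C hgt ht hp (by omega), La7_nab D C hgt ht hp (by omega),
    La7_nab D C hgt ht hp (by omega), La7_nab D C hgt ht hp (by omega),
    La7_nab D C hgt ht hp (by omega), La7_nab D C hgt ht hp (by omega)]
  decide +kernel

/-- all costs with the label 2 -/
theorem ct2_facts (hz : Mk e z m) (hm : m ∈ [33554432, 67108864, 100663296, 201326592, 402653184,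
    805306368]) : 21 ≤ ct 7 2 z := by
  rw [La7_ct D C hgt ht hz.1 hz.2]
  revert hm m
  intro m _ hm
  have h : ∀ m ∈ [33554432, 67108864, 100663296, 201326592, 402653184, 805306368],
      21 ≤ min 2 8 + ∑ b ∈ (range 30).filter
        (fun b => (orM (fun a => La7um.getD a 0) 30 m).testBit b = true),
          min 2 (La7lv.getD b 0 - 7) := by decide +kernel
  exact h m hm

/-- the pendants of level 16 below the element under the last two cells -/
theorem pend_c34 (hc : Mk e c 805306368) (hz : Pend z c) : ct 7 2 z = 30 := by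
  have h1 := (c34_facts D C hgt ht hc).1
  have h3 := (hgt.H.covBy_iff.mp hz.1).2
  rw [ct_of_pend hz, h1, h3, hc.1]
  norm_num

/-- the elements of level 16 below the element `c` under the last two cells and another element -/
theorem join_facts (hc : Mk e c 805306368) (hd : Mk e d m)
    (hm : m = 67108864 ∨ m = 201326592 ∨ m = 402653184)
    (hz : ∀ y, z ⋖ y ↔ y = c ∨ y = d) : 40 ≤ ct 7 2 z ∧ 57 ≤ ct 7 3 z ∧ nab 7 z = 2 ∧
      nab 8 z = 2 ∧ nab 9 z = 2 := by
  have hb : m.testBit 29 = false := by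
    rcases hm with rfl | rfl | rfl <;> decide
  have hne : c ≠ d := hc.ne D C hgt ht hd (b := 29) (by norm_num) (by decide) hb
  have hl : GaussPoset.lev z = 16 := by
    have := (hgt.H.covBy_iff.mp ((hz c).mpr (Or.inl rfl))).2
    rw [hc.1] at this
    exact this
  have hzm : ∀ y, z ⋖ y ↔ ∃ b < 30 + 2, (3221225472 : ℕ).testBit b = true ∧
      cz e (two c d) b = y := by
    intro y
    have h0 : ∀ b < 32, (3221225472 : ℕ).testBit b = true → b = 30 ∨ b = 31 := by decide +kernel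
    have e0 : cz e (two c d) 30 = c := rfl
    have e1 : cz e (two c d) 31 = d := rfl
    rw [hz]
    constructor
    · rintro (rfl | rfl)
      · exact ⟨30, by norm_num, by decide, e0⟩
      · exact ⟨31, by norm_num, by decide, e1⟩
    · rintro ⟨b, hb, hbit, rfl⟩
      rcases h0 b hb hbit with rfl | rfl
      · exact Or.inl e0
      · exact Or.inr e1
  have key : ∀ (m : ℕ), Mk e d m → (∀ a < 32, (cvJ m).getD a 0 < 2 ^ a) →
      (∀ a < 32, (umJ m).getD a 0 = Nat.lor (2 ^ a)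
        (orM (fun a => (umJ m).getD a 0) 32 ((cvJ m).getD a 0))) → m < 2 ^ 30 →
      (∀ a < 30, (cvJ m).getD a 0 = La7cv.getD a 0) →
      (cvJ m).getD 30 0 = 805306368 → (cvJ m).getD 31 0 = m →
      (∀ k, ct 7 k z = min k 9 + ∑ b ∈ (range 32).filter
        (fun b => (orM (fun a => (umJ m).getD a 0) 32 3221225472).testBit b = true),
          min k (lvJ.getD b 0 - 7)) ∧ ∀ l, l ≤ 14 → nab l z = ((range 32).filter
            (fun b => (orM (fun a => (umJ m).getD a 0) 32 3221225472).testBit b = true ∧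
              lvJ.getD b 0 = l)).card := by
    intro m hd h1 h2 h3 h4 h5 h6
    have hC : Cod (30 + 2) (fun a => (cvJ m).getD a 0) (fun a => lvJ.getD a 0)
        (cz e (two c d)) := by
      refine La7_ext D C hgt ht (cx := fun k => if k = 0 then 805306368 else m) h4
        (by decide +kernel) ?_ ?_ ?_ (two_inj hne) (two_all hc hd)
      · intro k hk
        obtain rfl | rfl : k = 0 ∨ k = 1 := by omega
        · exact h5
        · exact h6
      · intro k hk
        obtain rfl | rfl : k = 0 ∨ k = 1 := by omega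
        · decide
        · decide
      · intro k hk
        obtain rfl | rfl : k = 0 ∨ k = 1 := by omega
        · norm_num
        · exact h3
    refine ⟨fun k => ?_, fun l hl2 => ?_⟩
    · rw [cod_ct hC h1 h2 hzm, hl]
    · rw [cod_nab hC h1 h2 hzm (by rw [hl]; omega)]
  rcases hm with rfl | rfl | rfl
  · obtain ⟨g1, g2⟩ := key _ hd (by decide +kernel) (by decide +kernel) (by norm_num)
      (by decide +kernel) (by decide) (by decide)
    rw [g1, g1, g2 7 (by norm_num), g2 8 (by norm_num), g2 9 (by norm_num)]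
    decide +kernel
  · obtain ⟨g1, g2⟩ := key _ hd (by decide +kernel) (by decide +kernel) (by norm_num)
      (by decide +kernel) (by decide) (by decide)
    rw [g1, g1, g2 7 (by norm_num), g2 8 (by norm_num), g2 9 (by norm_num)]
    decide +kernel
  · obtain ⟨g1, g2⟩ := key _ hd (by decide +kernel) (by decide +kernel) (by norm_num)
      (by decide +kernel) (by decide) (by decide)
    rw [g1, g1, g2 7 (by norm_num), g2 8 (by norm_num), g2 9 (by norm_num)]
    decide +kernel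

end La7

end Pool.Agent.GaussPoset.Tv

end

/-! From `Pool.Agent.W_448w7_h36.LaA` -/

section

/-!
The strip `La7` with elements of level 15, pattern J: local data at window 7 up to the energy 50
and the window 9 (MP_448cb3_co, S7, `j = 14`).
-/

namespace Pool.Agent.GaussPoset.W7

set_option linter.unusedSectionVars false
set_option synthInstance.maxSize 1000

open Polynomial Finset Cl Dd Wd Win Sg

universe u

variable {P : Type u} [Fintype P] [PartialOrder P] [DecidableEq P]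
variable {r : ℕ} {t : P} {lo hi : ℕ → ℕ} {e : ℕ → ℕ → P}

/-- four elements -/
def four (a b c d : P) (k : ℕ) : P := if k = 0 then a else if k = 1 then b else
  if k = 2 then c else d

lemma four_inj {a b c d : P} {K : ℕ} (hK : K ≤ 4) (h1 : a ≠ b) (h2 : a ≠ c) (h3 : b ≠ c)
    (h4 : K = 4 → a ≠ d ∧ b ≠ d ∧ c ≠ d) :
    ∀ i < K, ∀ j < K, four a b c d i = four a b c d j → i = j := by
  intro i hi j hj h
  have hi' : i = 0 ∨ i = 1 ∨ i = 2 ∨ (i = 3 ∧ K = 4) := by omega
  have hj' : j = 0 ∨ j = 1 ∨ j = 2 ∨ (j = 3 ∧ K = 4) := by omega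
  rcases hi' with rfl | rfl | rfl | ⟨rfl, hk⟩ <;> rcases hj' with rfl | rfl | rfl | ⟨rfl, hk'⟩ <;>
    simp only [four, one_ne_zero, if_true, if_false, OfNat.ofNat_ne_zero, OfNat.ofNat_ne_one,
      show (3 : ℕ) ≠ 2 by norm_num] at h
  · rfl
  · exact absurd h h1
  · exact absurd h h2
  · exact absurd h (h4 hk').1
  · exact absurd h.symm h1
  · rfl
  · exact absurd h h3
  · exact absurd h (h4 hk').2.1
  · exact absurd h.symm h2
  · exact absurd h.symm h3
  · rfl
  · exact absurd h (h4 hk').2.2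
  · exact absurd h.symm (h4 hk).1
  · exact absurd h.symm (h4 hk).2.1
  · exact absurd h.symm (h4 hk).2.2
  · rfl

section

variable (D : WordD 14 7 wa7 lo hi) (C : Cp.Comp 14 t lo hi e) (hgt : GoodTo P r 14)
  (ht : lev t = 0)

include D C hgt ht in
/-- the mask is determined by the element -/
lemma Mk_mask {z : P} {m m' : ℕ} (h : Mk e z m) (h' : Mk e z m') (hm : m < 2 ^ 30)
    (hm' : m' < 2 ^ 30) : m = m' := by
  refine Nat.eq_of_testBit_eq fun b => ?_
  by_cases hb : b < 30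
  · cases h1 : m.testBit b <;> cases h2 : m'.testBit b
    · rfl
    · exact absurd rfl (Mk.ne D C hgt ht h' h hb h2 h1)
    · exact absurd rfl (Mk.ne D C hgt ht h h' hb h1 h2)
    · rfl
  · rw [testBit_false hm (not_lt.mp hb), testBit_false hm' (not_lt.mp hb)]

/-- the enumeration of the elements of level 15, pattern J -/
structure Enum (e : ℕ → ℕ → P) (A : Finset P) (cvL : List ℕ) (K : ℕ) (z : ℕ → P) : Prop where
  le : K ≤ 4
  ge : 3 ≤ K
  inj : ∀ a < K, ∀ b < K, z a = z b → a = b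
  msk : ∀ k < K, Mk e (z k) (cvL.getD (30 + k) 0)
  mem : ∀ x, x ∈ A ↔ ∃ k < K, z k = x

include D C hgt ht in
/-- the code -/
lemma Enum.cod {A : Finset P} {cvL lvL : List ℕ} {K : ℕ} {z : ℕ → P} (E : Enum e A cvL K z)
    (h1 : ∀ a < 30, cvL.getD a 0 = La7cv.getD a 0) (h2 : ∀ a < 30, lvL.getD a 0 = La7lv.getD a 0)
    (h4 : ∀ k < 4, lvL.getD (30 + k) 0 = 15) (hx : ∀ k < 4, cvL.getD (30 + k) 0 < 2 ^ 30) :
    Cod (30 + K) (fun a => cvL.getD a 0) (fun a => lvL.getD a 0) (cz e z) :=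
  La7_ext D C hgt ht (cx := fun k => cvL.getD (30 + k) 0) h1 h2 (fun _ _ => rfl)
    (fun k hk => h4 k (lt_of_lt_of_le hk E.le)) (fun k hk => hx k (lt_of_lt_of_le hk E.le))
    E.inj E.msk

lemma cz_lt (z : ℕ → P) {a : ℕ} (ha : a < 30) : cz e z a = ce e a := if_pos ha

lemma cz_add (z : ℕ → P) (k : ℕ) : cz e z (30 + k) = z k := by
  unfold cz
  rw [if_neg (by omega), Nat.add_sub_cancel_left]

include D C hgt ht in
/-- the thresholds -/
lemma Enum.tha {A : Finset P} {cvL lvL thL : List ℕ} {K : ℕ} {z : ℕ → P} (E : Enum e A cvL K z)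
    (hcod : Cod (30 + K) (fun a => cvL.getD a 0) (fun a => lvL.getD a 0) (cz e z))
    (hx : ∀ k < 4, cvL.getD (30 + k) 0 < 2 ^ 30)
    (hy : thL.getD 25 0 = 4 ∧ thL.getD 26 0 = 3 ∧ thL.getD 27 0 = 2 ∧ thL.getD 28 0 = 1 ∧
      thL.getD 29 0 = 0)
    (hk : ∀ k < 4, (cvL.getD (30 + k) 0 = 67108864 → thL.getD (30 + k) 0 = 4) ∧
      (cvL.getD (30 + k) 0 = 201326592 → thL.getD (30 + k) 0 = 3) ∧
      (cvL.getD (30 + k) 0 = 402653184 → thL.getD (30 + k) 0 = 2) ∧
      (cvL.getD (30 + k) 0 = 805306368 → thL.getD (30 + k) 0 = 1)) :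
    ThA e A (thI (30 + K) (cz e z) (fun a => thL.getD a 0)) := by
  have hth : ∀ a < 30, thI (30 + K) (cz e z) (fun a => thL.getD a 0) (ce e a) =
      thL.getD a 0 := by
    intro a ha
    have h1 := thI_c hcod (fun a => thL.getD a 0) (a := a) (by omega)
    rwa [cz_lt z ha] at h1
  have hth' : ∀ k < K, thI (30 + K) (cz e z) (fun a => thL.getD a 0) (z k) =
      thL.getD (30 + k) 0 := by
    intro k hk
    have h1 := thI_c hcod (fun a => thL.getD a 0) (a := 30 + k) (by omega)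
    rwa [cz_add] at h1
  have key : ∀ x ∈ A, ∀ m, m < 2 ^ 30 → Mk e x m → ∃ k < 4, cvL.getD (30 + k) 0 = m ∧
      thI (30 + K) (cz e z) (fun a => thL.getD a 0) x = thL.getD (30 + k) 0 := by
    intro x hxA m hm hmk
    obtain ⟨k, hk, rfl⟩ := (E.mem x).mp hxA
    have hk4 : k < 4 := lt_of_lt_of_le hk E.le
    exact ⟨k, hk4, Mk_mask D C hgt ht (E.msk k hk) hmk (hx k hk4) hm, hth' k hk⟩
  refine ⟨?_, ?_, ?_, ?_, ?_, ?_, ?_, ?_, ?_⟩
  · rw [hth 25 (by norm_num)]; exact hy.1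
  · rw [hth 26 (by norm_num)]; exact hy.2.1
  · rw [hth 27 (by norm_num)]; exact hy.2.2.1
  · rw [hth 28 (by norm_num)]; exact hy.2.2.2.1
  · rw [hth 29 (by norm_num)]; exact hy.2.2.2.2
  · intro x hxA hmk
    obtain ⟨k, hk4, h1, h2⟩ := key x hxA _ (by norm_num) hmk
    rw [h2, (hk k hk4).1 h1]
  · intro x hxA hmk
    obtain ⟨k, hk4, h1, h2⟩ := key x hxA _ (by norm_num) hmk
    rw [h2, (hk k hk4).2.1 h1]
  · intro x hxA hmk
    obtain ⟨k, hk4, h1, h2⟩ := key x hxA _ (by norm_num) hmk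
    rw [h2, (hk k hk4).2.2.1 h1]
  · intro x hxA hmk
    obtain ⟨k, hk4, h1, h2⟩ := key x hxA _ (by norm_num) hmk
    rw [h2, (hk k hk4).2.2.2 h1]

include D C hgt ht in
/-- the enumeration for the pattern J; the anchor has the number 2 -/
lemma JA.enum {A : Finset P} {c : P} (J : JA e A c) :
    ∃ K z, Enum e A Jacv K z ∧ z 2 = c := by
  obtain ⟨p, hpA, hp⟩ := J.hp
  obtain ⟨q, hqA, hq⟩ := J.h23
  have hpq : p ≠ q := Mk.ne D C hgt ht hp hq (b := 26) (by norm_num) (by decide) (by decide)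
  have hpc : p ≠ c := Mk.ne D C hgt ht hp J.hc (b := 26) (by norm_num) (by decide) (by decide)
  have hqc : q ≠ c := Mk.ne D C hgt ht hq J.hc (b := 27) (by norm_num) (by decide) (by decide)
  by_cases hd : ∃ d ∈ A, Mk e d 201326592
  · obtain ⟨d, hdA, hd⟩ := hd
    have hdp : d ≠ p := Mk.ne D C hgt ht hd hp (b := 27) (by norm_num) (by decide) (by decide)
    have hdq : d ≠ q := Mk.ne D C hgt ht hd hq (b := 26) (by norm_num) (by decide) (by decide)
    have hdc : d ≠ c := Mk.ne D C hgt ht hd J.hc (b := 26) (by norm_num) (by decide) (by decide)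
    refine ⟨4, four p q c d, ⟨le_rfl, by norm_num,
      four_inj le_rfl hpq hpc hqc fun _ => ⟨hdp.symm, hdq.symm, hdc.symm⟩, ?_, ?_⟩, rfl⟩
    · intro k hk
      have hk' : k = 0 ∨ k = 1 ∨ k = 2 ∨ k = 3 := by omega
      rcases hk' with rfl | rfl | rfl | rfl
      · exact hp
      · exact hq
      · exact J.hc
      · exact hd
    · intro x
      constructor
      · intro hx
        rcases J.all x hx with h | h | h | h
        · exact ⟨0, by norm_num, J.uniq p hpA x hx _ hp h⟩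
        · exact ⟨3, by norm_num, J.uniq d hdA x hx _ hd h⟩
        · exact ⟨1, by norm_num, J.uniq q hqA x hx _ hq h⟩
        · exact ⟨2, by norm_num, J.uniq c J.cA x hx _ J.hc h⟩
      · rintro ⟨k, hk, rfl⟩
        have hk' : k = 0 ∨ k = 1 ∨ k = 2 ∨ k = 3 := by omega
        rcases hk' with rfl | rfl | rfl | rfl
        · exact hpA
        · exact hqA
        · exact J.cA
        · exact hdA
  · refine ⟨3, four p q c c, ⟨by norm_num, le_rfl,
      four_inj (by norm_num) hpq hpc hqc fun h => absurd h (by norm_num), ?_, ?_⟩, rfl⟩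
    · intro k hk
      have hk' : k = 0 ∨ k = 1 ∨ k = 2 := by omega
      rcases hk' with rfl | rfl | rfl
      · exact hp
      · exact hq
      · exact J.hc
    · intro x
      constructor
      · intro hx
        rcases J.all x hx with h | h | h | h
        · exact ⟨0, by norm_num, J.uniq p hpA x hx _ hp h⟩
        · exact absurd ⟨x, hx, h⟩ hd
        · exact ⟨1, by norm_num, J.uniq q hqA x hx _ hq h⟩
        · exact ⟨2, by norm_num, J.uniq c J.cA x hx _ J.hc h⟩
      · rintro ⟨k, hk, rfl⟩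
        have hk' : k = 0 ∨ k = 1 ∨ k = 2 := by omega
        rcases hk' with rfl | rfl | rfl
        · exact hpA
        · exact hqA
        · exact J.cA

include D C hgt ht in
/-- **(F1)** local data at the window 7 up to the energy 50, pattern J -/
theorem JA.loc {A : Finset P} {c : P} (J : JA e A c) :
    ∃ θ : P → ℕ, LocL 7 2 51 (lowPart 14 t ∪ A) θ (fun x => x = ce e 29) ∧ ThA e A θ := by
  obtain ⟨K, z, E, -⟩ := J.enum D C hgt ht
  have hK := E.le
  have hcod := E.cod D C hgt ht (lvL := Jalv) (by decide +kernel) (by decide +kernel)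
    (by decide +kernel) (by decide +kernel)
  have hS := La7_mem D C (z := z) E.mem
  have hl : LocL 7 2 51 (lowPart 14 t ∪ A) (thI (30 + K) (cz e z) (fun a => Jath.getD a 0))
      (fun x => x = cz e z 29) :=
    cod_locL' hcod Ja_us (by omega) Ja_th (by omega) hS JaL_pol Ja_low
      (fun x hx => hx) Ja_bm
      (lt_of_lt_of_le (by norm_num) (Nat.pow_le_pow_right (by norm_num)
        (show 30 ≤ 30 + K by omega)))
  rw [cz_29] at hl
  exact ⟨_, hl, E.tha D C hgt ht hcod (by decide +kernel) (by decide +kernel)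
    (by decide +kernel)⟩

end

end Pool.Agent.GaussPoset.W7

end

/-! From `Pool.Agent.W_448s7_h27.EwU` -/

section

/-!
The factor of a part at the cost of its cheapest twins (MP_448cb3_co, S7, window `4`).
-/

namespace Pool.Agent.GaussPoset

set_option linter.unusedSectionVars false

open Polynomial Finset

universe u

variable {P : Type u} [Fintype P] [PartialOrder P] [DecidableEq P]
variable {ι : Type*} [Fintype ι] [DecidableEq ι]

section Part

variable {R : Finset P} {cp : P → ι} {k : ι}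

/-- twins in a part -/
lemma twn_part (hR : ∀ x y, x ≤ y → y ∈ R → x ∈ R)
    (hcp : ∀ x y, x ≤ y → x ∉ R → cp x = cp y) {i : ℕ} {θ : P → ℕ}
    {x x' : {x : P // x ∉ R ∧ cp x = k}} (h : Twn i θ ((x : P), (x' : P))) :
    Twn (P := {x : P // x ∉ R ∧ cp x = k}) i (fun y => θ y) (x, x') := by
  have hup := pg_part_up (k := k) hR hcp
  have hl : ∀ y : {x : P // x ∉ R ∧ cp x = k}, lev y = lev (y : P) :=
    lev_subtype (p := fun x => x ∉ R ∧ cp x = k) hup
  refine ⟨fun h1 => h.ne (congrArg Subtype.val h1), fun y => h.up y, h.one_le, h.eq, ?_, ?_⟩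
  · rw [hl]; exact h.lt
  · intro y hy
    exact h.mono y hy

/-- the cost of twins in a part -/
lemma tcst_part (hR : ∀ x y, x ≤ y → y ∈ R → x ∈ R)
    (hcp : ∀ x y, x ≤ y → x ∉ R → cp x = cp y) {i : ℕ} {θ : P → ℕ}
    {x x' : {x : P // x ∉ R ∧ cp x = k}} :
    tcst (P := {x : P // x ∉ R ∧ cp x = k}) i (fun y => θ y) (x, x') =
      tcst i θ ((x : P), (x' : P)) := by
  classical
  have hup := pg_part_up (k := k) hR hcp
  have hl : ∀ y : {x : P // x ∉ R ∧ cp x = k}, lev y = lev (y : P) :=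
    lev_subtype (p := fun x => x ∉ R ∧ cp x = k) hup
  unfold tcst
  rw [← sum_part_eq (R := R) (cp := cp) (k := k) (fun y => tez i θ ((x : P), (x' : P)) y)]
  · refine Finset.sum_congr rfl fun y _ => ?_
    unfold tez
    simp only [hl, Subtype.ext_iff, Subtype.coe_lt_coe]
  · intro y hy
    by_contra hcon
    apply hy
    refine tez_off ?_ ?_ ?_
    · rintro rfl
      exact hcon x.2
    · rintro rfl
      exact hcon x'.2
    · intro h
      exact hcon (hup x y h.le x.2)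

end Part

/-- **The factor of a part, up to the cost of the cheapest twins.** -/
theorem factor_tw {i : ℕ} {R : Finset P} (hgr : GradedBelow P)
    (hR : ∀ x y, x ≤ y → y ∈ R → x ∈ R) (hRlev : ∀ x ∈ R, i < lev x)
    (cp : P → ι) (hcp : ∀ x y, x ≤ y → x ∉ R → cp x = cp y) (k : ι) (b b' : ℕ) (θ : P → ℕ)
    (B : P → Prop) (hBR : ∀ x ∈ R, ¬ B x) (Tw : Finset (P × P)) (n : ℕ)
    (H : CompDataT R cp k i b θ B Tw) (hb : b' ≤ b)
    (hb1 : b' + 1 ≤ (lv {x : P // x ∉ R ∧ cp x = k} i).card)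
    (htw : ∀ t ∈ Tw, Twn i θ t) (hcost : ∀ t ∈ Tw, n ≤ tcst i θ t)
    (hdr : ∀ t ∈ Tw, cp t.1 = k → tcst i θ t = n → nab i t.2 ≤ nab (i + (θ t.1 + 1)) t.2 + 1)
    (hmin : ∀ t ∈ Tw, ∀ y < t.2, y ∈ R)
    (htR : ∀ t ∈ Tw, t.1 ∉ R ∧ t.2 ∉ R) (htB : ∀ t ∈ Tw, ¬ B t.2)
    (B' : P → ℕ) (hB' : ∀ x, x ∉ R → cp x = k → B' x ≤ θ x) (m : ℕ) (hm : m ≤ n) :
    (1 + X : ℤ[X]) ^ b' ∣ ZB (P := {x : P // x ∉ R ∧ cp x = k}) i ∅ 0 (fun x => B' x) m := by
  classical
  have hup := pg_part_up (k := k) hR hcp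
  have hl : ∀ y : {x : P // x ∉ R ∧ cp x = k}, lev y = lev (y : P) :=
    lev_subtype (p := fun x => x ∉ R ∧ cp x = k) hup
  have hgr' : GradedBelow {x : P // x ∉ R ∧ cp x = k} := gbel_sub hup hgr
  let DD : Set (Finset {x : P // x ∉ R ∧ cp x = k}) :=
    {D | (∀ x y, x ≤ y → y ∈ D → x ∈ D) ∧ ∀ x ∈ D, i < lev (x : P) ∧ ¬ B x}
  let TwQ : Finset ({x : P // x ∉ R ∧ cp x = k} × {x : P // x ∉ R ∧ cp x = k}) :=
    univ.filter (fun t => ((t.1 : P), (t.2 : P)) ∈ Tw)
  have hlt2 : ∀ t ∈ Tw, i < lev t.2 ∧ cp t.1 = cp t.2 := by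
    intro t ht
    have h1 := (htw t ht).lt
    have h2 := (htw t ht).one_le
    have h3 : i < lev t.1 := by omega
    refine ⟨by rw [← lev_eq_of_up (htw t ht).up]; exact h3, ?_⟩
    obtain ⟨y, hy, -⟩ := exists_lev_succ (x := t.1) (k := lev t.1 - 1) (by omega)
    have hy' := ((htw t ht).up y).mp hy
    rw [hcp _ y hy.le (htR t ht).1, hcp _ y hy'.le (htR t ht).2]
  have key := dvd_ZB_bounds_twinsH (P := {x : P // x ∉ R ∧ cp x = k}) i
    ((1 + X : ℤ[X]) ^ b') (n + 1)
    DD (fun x => θ x) TwQ (fun D hD => hD.1)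
    (fun D hD x hx => by rw [hl]; exact (hD.2 x hx).1)
    (fun x hx => by rw [hl]; exact H.lev x x.2.1 x.2.2 hx) ?_ ?_ ?_ ?_ ?_ ?_
    ∅ ⟨fun x y _ h => absurd h (Finset.notMem_empty y), fun x h => absurd h (Finset.notMem_empty x)⟩
    (fun x => B' x) (fun x _ => hB' x x.2.1 x.2.2) m (by omega)
  · exact key
  · intro D hD hbr n _
    refine (pow_dvd_pow _ hb).trans ?_
    rw [ZB_off hD.1 (fun x hx => by rw [hl]; exact (hD.2 x hx).1)]
    refine dvd_Z_of_dvd_W ?_ n
    let E : Finset P := R ∪ D.image Subtype.val ∪ (Tw.image Prod.snd).filter (fun x => cp x ≠ k)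
    have hE : ∀ x, x ∈ E ↔ (x ∈ R ∨ ∃ h : x ∉ R ∧ cp x = k,
        (⟨x, h⟩ : {x : P // x ∉ R ∧ cp x = k}) ∈ D) ∨ ((∃ t ∈ Tw, t.2 = x) ∧ cp x ≠ k) := by
      intro x
      simp only [E, mem_union, mem_image, mem_filter]
      refine or_congr (or_congr Iff.rfl ?_) Iff.rfl
      constructor
      · rintro ⟨y, hy, rfl⟩
        exact ⟨y.2, hy⟩
      · rintro ⟨h, hx⟩
        exact ⟨⟨x, h⟩, hx, rfl⟩
    have hgood : Good i R B E := by
      refine ⟨?_, ?_, ?_, ?_⟩
      · intro x y hxy hy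
        rw [hE] at hy ⊢
        rcases hy with (hy | ⟨h, hy⟩) | ⟨⟨t, ht, rfl⟩, hy⟩
        · exact Or.inl (Or.inl (hR x y hxy hy))
        · by_cases hx : x ∈ R
          · exact Or.inl (Or.inl hx)
          · have hxk : cp x = k := (hcp x y hxy hx).trans h.2
            exact Or.inl (Or.inr ⟨⟨hx, hxk⟩, hD.1 ⟨x, hx, hxk⟩ ⟨y, h⟩ hxy hy⟩)
        · rcases eq_or_lt_of_le hxy with h1 | h1
          · rw [h1]
            exact Or.inr ⟨⟨t, ht, rfl⟩, hy⟩
          · exact Or.inl (Or.inl (hmin t ht x h1))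
      · intro x hx
        rw [hE]
        exact Or.inl (Or.inl hx)
      · intro x hx
        rw [hE] at hx
        rcases hx with (hx | ⟨h, hx⟩) | ⟨⟨t, ht, rfl⟩, hx⟩
        · exact hRlev x hx
        · exact (hD.2 _ hx).1
        · exact (hlt2 t ht).1
      · intro x hx
        rw [hE] at hx
        rcases hx with (hx | ⟨h, hx⟩) | ⟨⟨t, ht, rfl⟩, hx⟩
        · exact hBR x hx
        · exact (hD.2 _ hx).2
        · exact htB t ht
    have hbrE : Broken Tw E := by
      intro t ht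
      by_cases hk : cp t.2 = k
      · have hk1 : cp t.1 = k := (hlt2 t ht).2.trans hk
        have h1 := hbr (⟨t.1, (htR t ht).1, hk1⟩, ⟨t.2, (htR t ht).2, hk⟩)
          (mem_filter.mpr ⟨mem_univ _, ht⟩)
        rcases h1 with h1 | h1
        · exact Or.inl ((hE _).mpr (Or.inl (Or.inr ⟨_, h1⟩)))
        · exact Or.inr ((hE _).mpr (Or.inl (Or.inr ⟨_, h1⟩)))
      · exact Or.inr ((hE _).mpr (Or.inr ⟨⟨t, ht, rfl⟩, hk⟩))
    have h1 := H.clean E hgood hbrE inferInstance
    have hEk : ∀ x : P, cp x = k → (x ∉ E ↔ ∃ h : x ∉ R ∧ cp x = k,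
        (⟨x, h⟩ : {x : P // x ∉ R ∧ cp x = k}) ∉ D) := by
      intro x hxk
      rw [hE]
      constructor
      · intro h
        have hxR : x ∉ R := fun h2 => h (Or.inl (Or.inl h2))
        exact ⟨⟨hxR, hxk⟩, fun h2 => h (Or.inl (Or.inr ⟨_, h2⟩))⟩
      · rintro ⟨h, h2⟩ ((h3 | ⟨h3, h4⟩) | ⟨-, h3⟩)
        · exact h.1 h3
        · exact h2 h4
        · exact h3 hxk
    rw [W_iso (partIso hEk) i] at h1
    exact h1
  · intro D hD x hx hθx
    refine ⟨?_, ?_⟩
    · intro a c hac hc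
      rw [mem_union, mem_dnf] at hc ⊢
      rcases hc with hc | hc
      · exact Or.inl (hD.1 a c hac hc)
      · exact Or.inr (hac.trans hc)
    · intro a ha
      rw [mem_union, mem_dnf] at ha
      rcases ha with ha | ha
      · exact hD.2 a ha
      · have h1 := H.lev x x.2.1 x.2.2 hθx
        refine ⟨?_, H.base x x.2.1 x.2.2 hθx a ha a.2.1⟩
        rcases eq_or_lt_of_le ha with h | h
        · rw [h]; exact h1
        · have h3 : (a : P) < x := h
          have := lev_strictAnti h3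
          omega
  · intro D hD x hx hθx y hyx hyD x' hyx' hx'x
    refine H.step x x.2.1 x.2.2 hθx y hyx y.2.1 x' x'.2.1 ?_ (fun h => hx'x h)
    refine ⟨hyx'.1, fun z hz hzx' => ?_⟩
    exact hyx'.2 (c := ⟨z, hup y z hz.le y.2⟩) hz hzx'
  · intro t ht
    exact (twn_part hR hcp (x := t.1) (x' := t.2) (htw _ (mem_filter.mp ht).2)).toP
  · intro t ht D hD hx hx' m hm
    have hT := htw _ (mem_filter.mp ht).2
    have hTq := twn_part hR hcp (x := t.1) (x' := t.2) hT
    have htc := tcst_part (k := k) hR hcp (i := i) (θ := θ) (x := t.1) (x' := t.2)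
    have hc := hcost _ (mem_filter.mp ht).2
    have hlx : i < lev t.1 := by
      rw [hl]
      have h1 := hT.lt
      simp only at h1
      omega
    have h1 := ZB_st2_exact (P := {x : P // x ∉ R ∧ cp x = k}) (D := D) (n0 := m) hTq hlx
      (fun d hd => by rw [hl]; exact (hD.2 d hd).1) hx hx'
      (fun y hy hyD => hx (hD.1 _ _ hy.le hyD)) (by rw [htc]; omega)
    rw [h1]
    split_ifs with h2
    · rw [Tm_gen hgr' hTq]
      unfold Lt
      refine dvd_mul_of_dvd_right (pow_dvd_pow _ ?_) _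
      have h3 : tcst i θ ((t.1 : P), (t.2 : P)) = n := by rw [htc] at h2; omega
      have h4 := hdr _ (mem_filter.mp ht).2 t.1.2.2 h3
      simp only at h4 ⊢
      rw [nab_sub hup, nab_sub hup]
      omega
    · exact dvd_zero _
  · intro t ht D _ y hy
    exact absurd (hmin _ (mem_filter.mp ht).2 y hy) y.2.1

end Pool.Agent.GaussPoset

end

/-! From `Pool.Agent.W_448s7_h27.EwW` -/

section

/-!
The factors of the components, up to the cost of the cheapest twins (MP_448cb3_co, S7).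
-/

namespace Pool.Agent.GaussPoset.Ew

set_option linter.unusedSectionVars false

open Polynomial Finset

universe u

variable {P : Type u} [Fintype P] [PartialOrder P] [DecidableEq P]
variable {i : ℕ} {N N1 : Tops P → Finset P} {b : Tops P → ℕ} {θ θ1 : Tops P → P → ℕ}
  {E S : Finset (Tops P)} {Y : Finset P} {τ : P → P}

/-- the factor of the component `t` in the system `S`, up to the cost of the twins -/
theorem EW.factor_top (W : EW i E N N1 b θ θ1 Y τ) (hS : S ⊆ E) (n : ℕ)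
    (hcost : ∀ x ∈ Y, n ≤ tcst i (thS E θ θ1 Y τ E) (τ x, x))
    (hdr : ∀ x ∈ Y, tcst i (thS E θ θ1 Y τ E) (τ x, x) = n →
      nab i x ≤ nab (i + (thS E θ θ1 Y τ E (τ x) + 1)) x + 1) (t : Tops P)
    (hb1 : b t - 1 + 1 ≤ (lv {x : P // x ∉ RS E N N1 Y S ∧ topOf x = t} i).card)
    (β : P → ℕ)
    (hβ : ∀ x, x ∉ RS E N N1 Y S → topOf x = t → β x ≤ thS E θ θ1 Y τ S x) (m : ℕ)
    (hm : m ≤ n) :
    (1 + X : ℤ[X]) ^ (b t - 1) ∣
      ZB (P := {x : P // x ∉ RS E N N1 Y S ∧ topOf x = t}) i ∅ 0 (fun x => β x) m := by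
  classical
  choose B hB using W.natS hS
  have HN := natSys_of_tops hB
  have T := W.twS hS
  have htw := W.twnS hS
  have hRlev : ∀ x ∈ unnat (NS N N1 S), i < lev x := by
    intro x hx
    by_contra hcon
    exact low_natural hB (not_lt.mp hcon) hx
  have hbS : b t - 1 ≤ bS b S t := by
    unfold bS
    split_ifs
    · exact le_rfl
    · exact Nat.sub_le _ _
  refine GaussPoset.factor_tw (ι := Tops P) W.gr (T.lower HN.lower)
    (fun x hx => hRlev x (mem_sdiff.mp hx).1) topOf (T.cp' HN.cp) t (bS b S t) (b t - 1)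
    (thS E θ θ1 Y τ S) (fun x => x ∉ unnat (NS N N1 S) ∧ B (topOf x) x)
    (fun x hx h => h.1 (mem_sdiff.mp hx).1) (pairsX (YS E Y S) τ) n ?_ hbS hb1 ?_ ?_ ?_ ?_ ?_ ?_
    β hβ m hm
  · refine CompData.toTwins ((hB t).data _ HN rfl _ _ ?_ ?_) T HN.lower hRlev
      (fun x hx h => h.1 hx)
    · intro x hx
      simp only [HN.topOf_eq hx]
    · intro x hx
      simp only [HN.topOf_eq hx, (HN.mem_iff.mp hx).1, not_false_eq_true, true_and]
  · intro t ht
    rw [mem_pairsX] at ht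
    have h1 := htw t.2 ht.1
    rwa [← ht.2] at h1
  · intro t ht
    rw [mem_pairsX] at ht
    have h2 := hcost t.2 (mem_YS.mp ht.1).1
    rw [← W.tcst_eq hS ht.1, ← ht.2] at h2
    exact h2
  · intro t ht _ hc
    rw [mem_pairsX] at ht
    obtain ⟨hy, hyt⟩ := mem_YS.mp ht.1
    have hτ : topOf (τ t.2) ∉ E ∨ topOf (τ t.2) ∈ S := by rw [W.tw.cp t.2 hy]; exact hyt
    have e1 : thS E θ θ1 Y τ S (τ t.2) = thS E θ θ1 Y τ E (τ t.2) := W.thS_eq hS hτ
    have h1 := hdr t.2 hy (by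
      rw [← W.tcst_eq hS ht.1, ← ht.2]
      exact hc)
    rw [ht.2, e1]
    exact h1
  · intro t ht y hy
    rw [mem_pairsX] at ht
    exact mem_sdiff.mpr ⟨HN.lower y _ hy.le (T.sub ht.1), fun h => T.anti _ ht.1 y h hy⟩
  · intro t ht
    rw [mem_pairsX] at ht
    rw [mem_sdiff, mem_sdiff, ht.2]
    exact ⟨fun h => T.nat _ ht.1 h.1, fun h => h.2 ht.1⟩
  · intro t ht h
    rw [mem_pairsX] at ht
    exact h.1 (T.sub ht.1)

end Pool.Agent.GaussPoset.Ew

end

/-! From `Pool.Agent.W_448w8_h94.GxB` -/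

section

/-!
The unnatural elements of level `2 m + 1` without the seventh step (MP_448cb3_co, S7, window `m`).
-/

namespace Pool.Agent.GaussPoset.Fi

set_option linter.unusedSectionVars false

open Polynomial Finset

universe u

variable {P : Type u} [Fintype P] [PartialOrder P] [DecidableEq P] {r i m K : ℕ}
  {N : Tops P → Finset P} {b : Tops P → ℕ} {θ : Tops P → P → ℕ}

/-- the unnatural elements of level `2 m + 1` which are no twins -/
inductive Kd0 (i m : ℕ) (N : Tops P → Finset P) (θ : Tops P → P → ℕ) (z : P) : Prop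
  | penF (x : P) (hx : Fd m x) (hzx : Pend z x)
  | penH (x : P) (hx : He i m N θ x) (hzx : Pend z x)
  | join (x x' : P) (h1 : (Win.uc x).card = 1) (h2 : (Win.uc x').card = 1)
      (ht : topOf x ≠ topOf x') (hzx : z ⋖ x) (hzx' : z ⋖ x')
  | cc (x x' : P) (hx : Fd m x) (h1 : (Win.uc x').card = 1) (ht : topOf x' = topOf x)
      (hne : x ≠ x') (hzx : z ⋖ x) (hzx' : z ⋖ x')
  | full (h : ∀ x, z ⋖ x → Full i m N θ x)

/-- the classification -/
theorem WC.class0 (W : WC r i m K N b θ) {z : P} (hz : z ∈ r2 (2 * m) N)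
    (hl : lev z = 2 * m + 1) : Kd0 i m N θ z := by
  classical
  have H := W.gt.H
  have h4 := W.hi
  have him := W.him
  have hzt : z < (topOf z : P) := lt_of_le_of_ne (le_topOf z) (by
    intro h
    have := (topOf z).2
    rw [← h] at this
    omega)
  obtain ⟨x, hzx, hxt⟩ := Hul.exists_cov hzt
  have hlev : ∀ y, z ⋖ y → lev y = 2 * m := by
    intro y hy
    have := (H.covBy_iff.mp hy).2
    omega
  have hlx := hlev x hzx
  by_cases honly : ∀ y, z ⋖ y → y = x
  · rcases W.kind hlx with h | h | h | h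
    · refine Kd0.full fun y hy => ?_
      rw [honly y hy]
      exact h
    · exact Kd0.penF x h ⟨hzx, honly⟩
    · exact Kd0.penH x h ⟨hzx, honly⟩
    · exact absurd honly (h.2 x z (le_topOf x) hlx h.1 hzx)
  · push Not at honly
    obtain ⟨x', hzx', hne'⟩ := honly
    have hne : x ≠ x' := Ne.symm hne'
    have hlx' := hlev x' hzx'
    obtain ⟨j, hj⟩ : ∃ j, 2 * m = j + 1 := ⟨2 * m - 1, by omega⟩
    have hgt := W.gt
    rw [hj] at hgt
    rcases (Win.near_level' hgt (by omega)).1 z x x' (by omega) hzx hzx' hne with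
      h7 | ⟨h7, h8, -⟩
    · exact (W.near hz hl hzx hzx' hne h7).elim
    · by_cases ht : topOf x = topOf x'
      · have hQ : ∀ y, z ⋖ y → ¬ He i m N θ y := by
          intro y hy hQ
          rcases uc_pair H hzx hzx' hne hy with h | h
          · subst h
            exact hne (hQ.uniq x' (by rw [ht]; exact le_topOf x') hlx').symm
          · subst h
            exact hne (hQ.uniq x (by rw [← ht]; exact le_topOf x) hlx)
        rcases W.kind hlx with h | h | h | h
        · rcases W.kind hlx' with h' | h' | h' | h'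
          · refine Kd0.full fun y hy => ?_
            rcases uc_pair H hzx hzx' hne hy with e | e
            · rw [e]; exact h
            · rw [e]; exact h'
          · exact Kd0.cc x' x h' h7 ht hne' hzx' hzx
          · exact (hQ x' hzx' h').elim
          · omega
        · exact Kd0.cc x x' h h8 ht.symm hne hzx hzx'
        · exact (hQ x hzx h).elim
        · omega
      · exact Kd0.join x x' h7 h8 ht hzx hzx'

/-- the table -/
inductive Rw0 (i m : ℕ) (N : Tops P → Finset P) (θ : Tops P → P → ℕ) (z : P) : Prop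
  | penF (x : P) (hx : Fd m x) (hp : Pend z x) (hn : NQ i m N θ z (kF i m) (fun d => 1 + pF m d))
  | penH (x : P) (hx : He i m N θ x) (hp : Pend z x) (p : List ℕ) (hp' : p ∈ HL i m)
      (hn : NQ i m N θ z 1 (fun d => 1 + gD p d))
  | fh (x x' : P) (hx : Fd m x) (hx' : He i m N θ x') (ht : topOf x ≠ topOf x') (hzx : z ⋖ x)
      (hzx' : z ⋖ x') (p : List ℕ) (hp : p ∈ HL i m) (hpr : Prof m x' (gD p))
      (hn : NQ i m N θ z 1 (fun d => (1 + pF m d) + (1 + gD p d)))
  | ff (x x' : P) (hx : Fd m x) (hx' : Fd m x') (ht : topOf x ≠ topOf x') (hzx : z ⋖ x)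
      (hzx' : z ⋖ x') (hn : NQ i m N θ z (kF i m) (fun d => (1 + pF m d) + (1 + pF m d)))
  | fv (x x' : P) (hx : Fd m x) (hx' : Full i m N θ x') (h1 : (Win.uc x').card = 1)
      (ht : topOf x ≠ topOf x') (hzx : z ⋖ x) (hzx' : z ⋖ x') (p : List ℕ) (hp : p ∈ PL i m)
      (hpr : Prof m x' (gD p))
      (hn : NQ i m N θ z (kF i m) (fun d => (1 + pF m d) + (1 + gD p d)))
  | hv (x x' : P) (hx : He i m N θ x) (h1 : (Win.uc x').card = 1)
      (ht : topOf x ≠ topOf x') (hzx : z ⋖ x) (hzx' : z ⋖ x') (p p' : List ℕ) (hp : p ∈ HL i m)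
      (hp' : p' ∈ PL i m ++ HL i m) (hpr : Prof m x (gD p)) (hpr' : Prof m x' (gD p'))
      (hnf : ¬ Fd m x') (hn : NQ i m N θ z 1 (fun d => (1 + gD p d) + (1 + gD p' d)))
  | cc (x x' : P) (hx : Fd m x) (h1 : (Win.uc x').card = 1) (ht : topOf x' = topOf x)
      (hne : x ≠ x') (hzx : z ⋖ x) (hzx' : z ⋖ x')
  | full (hF : ∀ y, z ⋖ y → Full i m N θ y)
      (h : (2 * m + 1 - i) ^ 2 ≤ cst i (h2 (2 * m) N θ) z)

/-- the table of the elements of level `2 m + 1` -/
theorem WC.rows0 (W : WC r i m K N b θ) (hkF : i + kF i m ≤ 2 * m) {z : P}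
    (hz : z ∈ r2 (2 * m) N) (hl : lev z = 2 * m + 1) : Rw0 i m N θ z := by
  have H := W.gt.H
  have h4 := W.hi
  have him := W.him
  have hmi := W.hmi
  have W' := W.wi
  have hlev : ∀ y, z ⋖ y → lev y = 2 * m := by
    intro y hy
    have := (H.covBy_iff.mp hy).2
    omega
  have hFle : (m - 2 * (i / 2)) + (m - i) ≤ 2 * m - i := by omega
  have hfull : (∀ x, z ⋖ x → Full i m N θ x) → Rw0 i m N θ z := by
    intro h
    refine Rw0.full h ?_
    have hzt : z < (topOf z : P) := lt_of_le_of_ne (le_topOf z) (by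
      intro h
      have := (topOf z).2
      rw [← h] at this
      omega)
    obtain ⟨x, hzx, -⟩ := Hul.exists_cov hzt
    have h3 := W'.h2_eqI hz hl hzx (fun y hy => by
      rw [(h x hzx).th, (h y hy).th, hlev x hzx, hlev y hy])
    rw [(h x hzx).th, hlev x hzx] at h3
    have h5 := sq_le_cst (i := i) (h := h2 (2 * m) N θ) (z := z) (by omega)
      (by rw [h3]; omega) (by
        intro k hk hk2
        exact (h x hzx).two z (mem_sdiff.mp hz).1 hzx.le k (by omega) (by rw [hlev x hzx]; omega))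
    rwa [hl] at h5
  have hfhv : ∀ x x' : P, Fd m x → (Win.uc x').card = 1 → topOf x ≠ topOf x' → z ⋖ x →
      z ⋖ x' → Rw0 i m N θ z := by
    intro x x' hx h1 ht hzx hzx'
    have hne : x ≠ x' := fun h => ht (by rw [h])
    have hlx' := hlev x' hzx'
    rcases W.kind hlx' with h | h | h | h
    · obtain ⟨p, hp, hpr, -⟩ := W.full_prof hlx' h h1
      refine Rw0.fv x x' hx h h1 ht hzx hzx' p hp hpr (NQ.mk' hl hkF ?_ fun d hd => ?_)
      · rw [W'.h2_eqI hz hl hzx (fun y hy => ?_), W.fold_th hx]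
        · rfl
        · rcases uc_pair H hzx hzx' hne hy with e | e
          · rw [e]
          · rw [e, W.fold_th hx, h.th, hlx']
            exact hFle
      · rw [W'.nab_joinI hl hzx hzx' ht (by omega), W.fold_prof hx d (by omega),
          hpr d (by omega)]
    · refine Rw0.ff x x' hx h ht hzx hzx' (NQ.mk' hl hkF ?_ fun d hd => ?_)
      · rw [W'.h2_eqI hz hl hzx (fun y hy => ?_), W.fold_th hx]
        · rfl
        · rcases uc_pair H hzx hzx' hne hy with e | e
          · rw [e]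
          · rw [e, W.fold_th hx, W.fold_th h]
      · rw [W'.nab_joinI hl hzx hzx' ht (by omega), W.fold_prof hx d (by omega),
          W.fold_prof h d (by omega)]
    · obtain ⟨p, hp, hpr⟩ := h.prof
      refine Rw0.fh x x' hx h ht hzx hzx' p hp hpr (NQ.mk' hl (by omega) ?_ fun d hd => ?_)
      · rw [W'.h2_eqI hz hl hzx' (fun y hy => ?_), h.th]
        rw [h.th]
        exact Nat.zero_le _
      · rw [W'.nab_joinI hl hzx hzx' ht (by omega), W.fold_prof hx d (by omega),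
          hpr d (by omega)]
    · omega
  have hhv : ∀ x x' : P, He i m N θ x → (Win.uc x').card = 1 → topOf x ≠ topOf x' → z ⋖ x →
      z ⋖ x' → ¬ Fd m x' → Rw0 i m N θ z := by
    intro x x' hx h1 ht hzx hzx' hnf
    have hlx' := hlev x' hzx'
    obtain ⟨p, hp, hpr⟩ := hx.prof
    have hp' : ∃ p' ∈ PL i m ++ HL i m, Prof m x' (gD p') := by
      rcases W.kind hlx' with h | h | h | h
      · obtain ⟨p', hp', hpr', -⟩ := W.full_prof hlx' h h1
        exact ⟨p', List.mem_append_left _ hp', hpr'⟩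
      · exact absurd h hnf
      · obtain ⟨p', hp', hpr'⟩ := h.prof
        exact ⟨p', List.mem_append_right _ hp', hpr'⟩
      · omega
    obtain ⟨p', hp', hpr'⟩ := hp'
    refine Rw0.hv x x' hx h1 ht hzx hzx' p p' hp hp' hpr hpr' hnf
      (NQ.mk' hl (by omega) ?_ fun d hd => ?_)
    · rw [W'.h2_eqI hz hl hzx (fun y hy => ?_), hx.th]
      rw [hx.th]
      exact Nat.zero_le _
    · rw [W'.nab_joinI hl hzx hzx' ht (by omega), hpr d (by omega), hpr' d (by omega)]
  rcases W.class0 hz hl with ⟨x, hx, hp⟩ | ⟨x, hx, hp⟩ | ⟨x, x', h1, h2, ht, hzx, hzx'⟩ |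
    ⟨x, x', hx, h1, ht, hne, hzx, hzx'⟩ | h
  · refine Rw0.penF x hx hp (NQ.mk' hl hkF ?_ fun d hd => ?_)
    · rw [W'.h2_eqI hz hl hp.1 (fun y hy => by rw [hp.2 y hy]), W.fold_th hx]
      rfl
    · rw [nab_pend hp (by omega)]
      exact W.fold_prof hx d (by omega)
  · obtain ⟨p, hp', hpr⟩ := hx.prof
    refine Rw0.penH x hx hp p hp' (NQ.mk' hl (by omega) ?_ fun d hd => ?_)
    · rw [W'.h2_eqI hz hl hp.1 (fun y hy => by rw [hp.2 y hy]), hx.th]
    · rw [nab_pend hp (by omega)]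
      exact hpr d (by omega)
  · by_cases hf : Fd m x
    · exact hfhv x x' hf h2 ht hzx hzx'
    · by_cases hf' : Fd m x'
      · exact hfhv x' x hf' h1 (Ne.symm ht) hzx' hzx
      · rcases W.kind (hlev x hzx) with h | h | h | h
        · rcases W.kind (hlev x' hzx') with h' | h' | h' | h'
          · refine hfull fun y hy => ?_
            rcases uc_pair H hzx hzx' (fun h => ht (by rw [h])) hy with e | e
            · rw [e]; exact h
            · rw [e]; exact h'
          · exact absurd h' hf'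
          · exact hhv x' x h' h1 (Ne.symm ht) hzx' hzx hf
          · omega
        · exact absurd h hf
        · exact hhv x x' h h2 ht hzx hzx' hf'
        · omega
  · exact Rw0.cc x x' hx h1 ht hne hzx hzx'
  · exact hfull h

end Pool.Agent.GaussPoset.Fi

end
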