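import Mathlib
import Pool.Agent.W_448zz_h61.Ns
import Pool.Agent.W_448zz_h61.M037
import Pool.Agent.W_448zz_h61.M061
import Pool.Agent.W_448zz_h61.M062
import Pool.Agent.W_448zz_h61.M063
import Pool.Agent.W_448zz_h61.M068
import Pool.Agent.W_448zz_h61.M088
import Pool.Agent.W_448zz_h61.M120

/-! From `Pool.Agent.W_448bf_h61.BB` -/

section

/-! Values for block BF (MP_448cb3_co, S7, window 4): kernel evaluation. -/

namespace Pool.Agent.GaussPoset.Win.Ev

set_option maxRecDepth 100000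

/-- orders two up to the energy `N` -/
noncomputable def zer (los his : List ℕ) (R s N : ℕ) : Bool :=
  okP los his R s (mk los his R s) && lb0 (mk los his R s) &&
  (List.range (N + 1)).all (fun n => decide (ev 0 (mk los his R s) 0 n 0 0 0 = 0) &&
    decide (ev 1 (mk los his R s) 0 n 0 0 0 = 0))

theorem z14 : zer [0, 0, 0, 1, 2, 2, 3, 3, 3, 4, 5, 5] [0, 1, 1, 2, 3, 4, 4, 4, 4, 5, 5, 5] 12 8 8 = true := by
  decide +kernel

theorem z15 : zer [3, 3, 3, 4, 5, 5, 5] [4, 4, 4, 5, 5, 5, 5] 7 3 3 = true := by decide +kernel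

theorem zL1 : zer [2, 2, 3, 3, 3, 5] [3, 4, 4, 4, 4, 5] 6 2 2 = true := by decide +kernel

theorem zL0 : zer [0, 0, 0, 0, 1, 2, 2, 3, 3, 4, 5] [0, 0, 1, 1, 2, 3, 4, 4, 4, 4, 5] 11 7 7 = true := by
  decide +kernel

theorem zL0' : zer [2, 3, 3, 4, 5] [4, 4, 4, 4, 5] 5 2 2 = true := by decide +kernel

end Pool.Agent.GaussPoset.Win.Ev

end

/-! From `Pool.Agent.W_448bf_h61.BC` -/

section

/-!
From the evaluator to the window sums `Z`, and the decomposition of `ZB` with several bounds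
(MP_448cb3_co, S7, window 4, block BF).
-/

namespace Pool.Agent.GaussPoset

set_option linter.unusedSectionVars false

open Polynomial Finset

/-- divisibility of an integer polynomial from its image -/
theorem dvd_of_ev {p : ℤ[X]} {b : ℕ} (h : Win.dd ^ b ∣ Win.ev p) : (1 + X : ℤ[X]) ^ b ∣ p := by
  have h1 : ∀ q : ℤ[X], Win.ev q = ((q.comp (X - 1) : ℤ[X]) : PowerSeries ℤ) := by
    intro q
    have h2 : Win.ev = (Polynomial.coeToPowerSeries.ringHom (R := ℤ)).comp
        (Polynomial.compRingHom (X - 1 : ℤ[X])) := by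
      apply Polynomial.ringHom_ext
      · intro a
        unfold Win.ev
        simp
      · rw [Win.ev_X]
        simp only [RingHom.comp_apply, Polynomial.coe_compRingHom_apply, Polynomial.X_comp]
        unfold Win.xx Win.dd
        simp
    rw [h2]
    rfl
  rw [h1] at h
  unfold Win.dd at h
  rw [PowerSeries.X_pow_dvd_iff] at h
  have h3 : (X : ℤ[X]) ^ b ∣ p.comp (X - 1) := by
    rw [Polynomial.X_pow_dvd_iff]
    intro d hd
    have := h d hd
    rwa [Polynomial.coeff_coe] at this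
  obtain ⟨w, hw⟩ := h3
  refine ⟨w.comp (X + 1), ?_⟩
  have h4 : (p.comp (X - 1)).comp (X + 1) = p := by
    rw [Polynomial.comp_assoc, Polynomial.sub_comp, Polynomial.X_comp, Polynomial.one_comp,
      add_sub_cancel_right, Polynomial.comp_X]
  rw [← h4, hw, Polynomial.mul_comp, Polynomial.pow_comp, Polynomial.X_comp, add_comm (1 : ℤ[X])]

universe u

variable {P : Type u} [Fintype P] [PartialOrder P] [DecidableEq P] {r i : ℕ}

/-- from the parts to the window sums of the subposets -/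
theorem dvd_Z_of_ZC (H : Gr P r) (hi : i ≤ r) {C : Finset P} (hC : Win.Part i C) {n b : ℕ}
    (h : Win.dd ^ b ∣ Win.ZC i C n) : (1 + X : ℤ[X]) ^ b ∣ Z {x // x ∈ C} i n := by
  apply dvd_of_ev
  have h1 := ZC_PQ H hi hC n
  have h2 : ∀ a : ℕ, Win.xx ^ a * Win.xi ^ a = 1 := by
    intro a
    rw [← mul_pow, Win.xx_mul_xi, one_pow]
  generalize Win.ZC i C n = z at h h1
  generalize nOut i C = a1 at h1
  generalize below P i = a2 at h1
  have h3 : Win.ev (Z {x // x ∈ C} i n) = Win.xi ^ a1 * Win.xx ^ a2 * z := by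
    rw [h1]
    have e1 := h2 a1
    have e2 := h2 a2
    calc Win.ev (Z {x // x ∈ C} i n) =
        (Win.xx ^ a1 * Win.xi ^ a1) * (Win.xx ^ a2 * Win.xi ^ a2) *
          Win.ev (Z {x // x ∈ C} i n) := by rw [e1, e2, one_mul, one_mul]
      _ = _ := by ring
  rw [h3]
  exact Dvd.dvd.mul_left h _

section Dec

variable {Q : Type u} [Fintype Q] [PartialOrder Q] [DecidableEq Q]

/-- one piece of a constrained sum -/
lemma SC_pieceB (i k : ℕ) {B : Q → ℕ} (hB : ∀ x, B x ≤ k) {L : Finset Q}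
    (hL : ∀ x y, x ≤ y → x ∈ L → y ∈ L) (n : ℕ) :
    SC (fun (e : Q → ℕ) F => Cst i ∅ 0 B e F ∧ upL i k e F = L) n = ∑ ab ∈ antidiagonal n,
      ZB (P := {x // x ∈ L}) i ∅ 0 (fun _ => k) ab.1 * SC (fun e F => Lw i k L e F ∧
        ∀ x : {x : Q // x ∉ L}, (B x : ℤ) ≤ (e x : ℤ) - ((i - lev (x : Q) : ℕ) : ℤ)) ab.2 := by
  have h2 := SC_prod (fun x => x ∈ L) (fun (e : Q → ℕ) F => Cst i ∅ 0 B e F ∧ upL i k e F = L)
    (Cst i ∅ 0 (fun _ => k)) (fun e F => Lw i k L e F ∧
        ∀ x : {x : Q // x ∉ L}, (B x : ℤ) ≤ (e x : ℤ) - ((i - lev (x : Q) : ℕ) : ℤ))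
    (fun e F => ?_) n
  · rw [h2]
    refine Finset.sum_congr rfl fun ab _ => ?_
    have h4 : ZB (P := {x // x ∈ L}) i ∅ 0 (fun _ => k) ab.1 =
        @SC {x // x ∈ L} (Subtype.fintype fun x => x ∈ L) _ (Cst i ∅ 0 fun _ => k) ab.1 :=
      SC_inst _ _ _ _
    rw [h4]
  · rw [← and_assoc, ← upL_split hL e F, cst_empty_iff]
    constructor
    · rintro ⟨⟨h1, h2⟩, h3⟩
      refine ⟨⟨h1, h3⟩, fun x => ?_⟩
      have h4 : ∀ y ∈ F, y ∈ L := by
        intro y hy
        rw [← h3, mem_upL]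
        exact Or.inl hy
      exact h2 x fun h => x.2 (h4 _ h)
    · rintro ⟨⟨h1, h3⟩, h2⟩
      refine ⟨⟨h1, fun x hx => ?_⟩, h3⟩
      by_cases hxL : x ∈ L
      · rw [← h3, mem_upL] at hxL
        have h4 := hxL.resolve_left hx
        have h5 : (B x : ℤ) ≤ k := by exact_mod_cast hB x
        exact h5.trans h4
      · exact h2 ⟨x, hxL⟩

/-- DECOMPOSITION: divisibility of a constrained sum with bounds at most `k` -/
theorem ZB_dvd_upL {k b m : ℕ} {B : Q → ℕ} (hB : ∀ x, B x ≤ k)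
    (h : ∀ L : Finset Q, (∀ x y, x ≤ y → x ∈ L → y ∈ L) → (∀ x, B x = k → x ∈ L) →
      ∀ c, c + ∑ x ∈ L, min k (lev x - i) ≤ m → (1 + X : ℤ[X]) ^ b ∣ Z {x // x ∈ L} (i + k) c)
    {n : ℕ} (hn : n ≤ m) : (1 + X : ℤ[X]) ^ b ∣ ZB i ∅ 0 B n := by
  classical
  rw [ZB_eq_SC]
  rw [SC_fiber _ (upL i k) (upsF fun L => ∀ x, B x = k → x ∈ L) (fun e F hV => ?_) n]
  · refine Finset.dvd_sum fun L hL => ?_
    rw [mem_upsF] at hL
    rw [SC_pieceB i k hB hL.1]
    refine Finset.dvd_sum fun ab hab => ?_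
    rw [HasAntidiagonal.mem_antidiagonal] at hab
    refine dvd_mul_of_dvd_left ?_ _
    rcases Nat.lt_or_ge ab.1 (cw {x // x ∈ L} i k) with h2 | h2
    · rw [ZB_const_zero h2]
      exact dvd_zero _
    · obtain ⟨c, hc⟩ := Nat.exists_eq_add_of_le' h2
      rw [hc, ZB_const]
      rw [cw_subtype hL.1] at hc
      exact h L hL.1 hL.2 c (by omega)
  · rw [cst_empty_iff] at hV
    rw [mem_upsF]
    refine ⟨fun x y hxy hx => upL_up hV.1 hxy hx, fun x hx => ?_⟩
    rw [mem_upL]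
    by_cases hxF : x ∈ F
    · exact Or.inl hxF
    · right
      have := hV.2 x hxF
      rwa [hx] at this

end Dec

end Pool.Agent.GaussPoset

end

/-! From `Pool.Agent.W_448bf_h61.BD` -/

section

/-!
Order two of parts of strips from the evaluator (MP_448cb3_co, S7, window 4, block BF).
-/

namespace Pool.Agent.GaussPoset

set_option linter.unusedSectionVars false

open Polynomial Finset Wd

universe u

variable {P : Type u} [Fintype P] [PartialOrder P] [DecidableEq P] {r i j : ℕ}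
variable {t : P} {lo hi : ℕ → ℕ} {e : ℕ → ℕ → P}

lemma getD_drop (l : List ℕ) (b k : ℕ) : (l.drop b).getD k 0 = l.getD (b + k) 0 := by
  rw [List.getD_eq_getElem?_getD, List.getD_eq_getElem?_getD, List.getElem?_drop]

/-- a part of the strip given by rows -/
structure StS (j : ℕ) (t : P) (lo hi : ℕ → ℕ) (e : ℕ → ℕ → P) (C : Finset P)
    (LL HH : List ℕ) : Prop where
  sub : ∀ z ∈ C, z ≤ t ∧ lev z ≤ j
  up : ∀ x y, x ≤ y → x ∈ C → y ∈ C
  mem : ∀ l a, l ≤ j → lo l ≤ a → a ≤ hi l → (e l a ∈ C ↔ LL.getD l 0 ≤ a ∧ a ≤ HH.getD l 0)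
  row : ∀ l, l ≤ j → lo l ≤ LL.getD l 0 ∧ HH.getD l 0 ≤ hi l

/-- ORDER TWO from the evaluator -/
theorem StS.dvd {C : Finset P} {LL HH : List ℕ} (S : StS j t lo hi e C LL HH) (H : Gr P r)
    (hc : Cp.Comp j t lo hi e) {base R s N : ℕ} (hR : base + R = j + 1) (hs : s < R)
    (hN : N ≤ s) (hN32 : N < 32)
    (hfull : ∀ l a, l ≤ base + s → lo l ≤ a → a ≤ hi l → e l a ∈ C)
    (hz : Win.Ev.zer (LL.drop base) (HH.drop base) R s N = true) {c : ℕ} (hcN : c ≤ N) :
    (1 + X : ℤ[X]) ^ 2 ∣ Z {x // x ∈ C} (base + s) c := by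
  have hpart : Win.Part (base + s) C := by
    refine ⟨fun h1 h2 => S.up _ _ h2.le h1, fun {x y} h1 h2 h3 => ?_⟩
    have hl := (H.covBy_iff.1 h3).2
    have hyt := (S.sub y h1).1
    obtain ⟨a, g1, g2, g3⟩ := hc.surj x (h3.le.trans hyt) (by omega)
    rw [← g3]
    exact hfull _ _ (by omega) g1 g2
  have Lc : Win.Ev.LocS P r j t lo hi e C (base + s) base R s (LL.drop base) (HH.drop base) := by
    refine ⟨H, hc, hpart, fun z hz => ?_, fun k hk => ?_, fun k a hk h1 h2 => ?_, rfl, hs,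
      by omega⟩
    · have := S.sub z hz
      exact ⟨this.1, by omega⟩
    · rw [getD_drop, getD_drop]
      exact S.row _ (by omega)
    · rw [getD_drop, getD_drop]
      exact S.mem _ _ (by omega) h1 h2
  unfold Win.Ev.zer at hz
  simp only [Bool.and_eq_true] at hz
  obtain ⟨⟨z1, z2⟩, z3⟩ := hz
  have z4 := List.all_eq_true.1 z3 c (List.mem_range.2 (by omega))
  simp only [Bool.and_eq_true, decide_eq_true_eq] at z4
  exact dvd_Z_of_ZC H Lc.hir hpart (Lc.dvd z1 z2 (by omega) (Or.inr (by omega)) z4.1 z4.2)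

/-- the cells of the rows -/
def cellsR (j : ℕ) (LL HH : List ℕ) : Finset (ℕ × ℕ) :=
  ((range (j + 1)) ×ˢ (range 6)).filter (fun p => LL.getD p.1 0 ≤ p.2 ∧ p.2 ≤ HH.getD p.1 0)

/-- the cost of a part -/
lemma StS.cost {C : Finset P} {LL HH : List ℕ} (S : StS j t lo hi e C LL HH)
    (hc : Cp.Comp j t lo hi e) (f : ℕ → ℕ) :
    ∑ p ∈ cellsR j LL HH, f p.1 ≤ ∑ x ∈ C, f (lev x) := by
  classical
  have hp : ∀ p ∈ cellsR j LL HH, p.1 ≤ j ∧ lo p.1 ≤ p.2 ∧ p.2 ≤ hi p.1 ∧
      LL.getD p.1 0 ≤ p.2 ∧ p.2 ≤ HH.getD p.1 0 := by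
    intro p hp
    unfold cellsR at hp
    rw [mem_filter, mem_product, mem_range, mem_range] at hp
    have := S.row p.1 (by omega)
    omega
  have h1 : ∑ p ∈ cellsR j LL HH, f p.1 =
      ∑ x ∈ (cellsR j LL HH).image (fun p => e p.1 p.2), f (lev x) := by
    rw [Finset.sum_image]
    · refine Finset.sum_congr rfl fun p hp' => ?_
      obtain ⟨g1, g2, g3, -, -⟩ := hp p hp'
      rw [hc.lev_e _ _ g1 g2 g3]
    · intro p hp1 q hq1 hpq
      obtain ⟨g1, g2, g3, -, -⟩ := hp p hp1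
      obtain ⟨k1, k2, k3, -, -⟩ := hp q hq1
      simp only at hpq
      have e1 := hc.lev_e _ _ g1 g2 g3
      have e2 := hc.lev_e _ _ k1 k2 k3
      rw [hpq, e2] at e1
      refine Prod.ext e1.symm ?_
      rw [e1] at hpq k2 k3
      exact hc.inj _ _ _ g1 g2 g3 k2 k3 hpq
  rw [h1]
  apply Finset.sum_le_sum_of_subset
  intro x hx
  rw [mem_image] at hx
  obtain ⟨p, hp', rfl⟩ := hx
  obtain ⟨g1, g2, g3, g4, g5⟩ := hp p hp'
  exact (S.mem _ _ g1 g2 g3).2 ⟨g4, g5⟩

end Pool.Agent.GaussPoset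

end

/-! From `Pool.Agent.W_448bf_h61.BE` -/

section

/-!
Block BF (MP_448cb3_co, S7, window 4): order two of `E7` with bounds at its last elements, for small
own energies, `j = 12, 14, 15`.
-/

namespace Pool.Agent.GaussPoset

set_option linter.unusedSectionVars false

open Polynomial Finset Wd Cl

universe u

variable {P : Type u} [Fintype P] [PartialOrder P] [DecidableEq P] {r i j : ℕ}
variable {t : P} {lo hi : ℕ → ℕ} {e : ℕ → ℕ → P}

/-- reduction of a constrained sum over an up-closed set -/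
theorem ZB_low {N : Finset P} (hN : ∀ x y, x ≤ y → x ∈ N → y ∈ N) {B : {x : P // x ∈ N} → ℕ}
    {k b m : ℕ} (hB : ∀ x, B x ≤ k)
    (h : ∀ C : Finset P, C ⊆ N → (∀ x y, x ≤ y → x ∈ C → y ∈ C) →
      (∀ x : {x : P // x ∈ N}, B x = k → (x : P) ∈ C) → ∀ c,
      c + ∑ x ∈ C, min k (lev x - i) ≤ m → (1 + X : ℤ[X]) ^ b ∣ Z {x // x ∈ C} (i + k) c)
    {n : ℕ} (hn : n ≤ m) : (1 + X : ℤ[X]) ^ b ∣ ZB i ∅ 0 B n := by
  classical
  refine ZB_dvd_upL hB (fun L hL hBL c hc => ?_) hn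
  have hmem : ∀ x : P, x ∈ L.map (Function.Embedding.subtype _) ↔ ∃ hx : x ∈ N, ⟨x, hx⟩ ∈ L := by
    intro x
    rw [mem_map]
    constructor
    · rintro ⟨y, hy, rfl⟩
      exact ⟨y.2, hy⟩
    · rintro ⟨hx, hxL⟩
      exact ⟨_, hxL, rfl⟩
  have h1 := h (L.map (Function.Embedding.subtype _)) ?_ ?_ ?_ c ?_
  · rw [Z_iso (subIso hmem)]
    exact h1
  · intro x hx
    obtain ⟨hx1, -⟩ := (hmem x).1 hx
    exact hx1
  · intro x y hxy hx
    obtain ⟨hx1, hx2⟩ := (hmem x).1 hx
    have hy1 := hN x y hxy hx1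
    exact (hmem y).2 ⟨hy1, hL ⟨x, hx1⟩ ⟨y, hy1⟩ hxy hx2⟩
  · intro x hx
    exact (hmem x).2 ⟨x.2, hBL x hx⟩
  · rw [Finset.sum_map]
    have : ∑ x ∈ L, min k (lev x - i) =
        ∑ x ∈ L, min k (lev ((Function.Embedding.subtype (fun x => x ∈ N)) x) - i) := by
      refine Finset.sum_congr rfl fun x _ => ?_
      rw [lev_subtype (p := fun x => x ∈ N) hN x]
      rfl
    rw [← this]
    exact hc

/-- the cells above the last one -/
lemma above_last (C : Cp.Comp j t lo hi e) (D : WordD j 4 w7 lo hi) (H : Gr P r)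
    (hg : ∀ l, l < j → Win.Good P l) (ht : lev t = 0) (h5 : losW 4 w7 j ≤ 5 ∧ 5 ≤ hisW 4 w7 j)
    {l a : ℕ} (hl : l ≤ j) (hla : (upI (losW 4 w7) (hisW 4 w7) j 5 (j - l)).1 ≤ a ∧
      a ≤ (upI (losW 4 w7) (hisW 4 w7) j 5 (j - l)).2) : e j 5 ≤ e l a := by
  obtain ⟨r1, r2⟩ := D.rows C
  have h1 := upI_congr (L := losW 4 w7) (H := hisW 4 w7) (lo := lo) (hi := hi) (B := 0)
    (N := j) (s := 5) (fun n hn => by rw [Nat.zero_add]; exact (r1 n hn).symm)
    (fun n hn => by rw [Nat.zero_add]; exact (r2 n hn).symm) (j - l) (by omega)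
  rw [Nat.zero_add] at h1
  rw [h1] at hla
  have g1 := r1 j le_rfl
  have g2 := r2 j le_rfl
  have h2 := upI_spec C H hg ht (s := 5) (by omega) (by omega) (j - l) (by omega)
  rw [show j - (j - l) = l by omega] at h2
  have h3 := C.lev_e l a hl (by omega) (by omega)
  exact (h2.2 _ h3).2 ⟨a, hla.1, hla.2, rfl⟩

section Twelve

/-- rows of the whole component -/
def bfLN : List ℕ := [0, 0, 0, 0, 0, 0, 1, 2, 2, 3, 3, 3, 4]
/-- rows of the whole component -/
def bfHN : List ℕ := [0, 0, 0, 0, 1, 1, 2, 3, 4, 4, 4, 4, 5]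
/-- rows of the elements above `(12, 5)` -/
def bfLU : List ℕ := [0, 0, 0, 0, 0, 0, 1, 2, 2, 3, 3, 4, 5]
/-- rows without `(12, 4)` -/
def bfL1 : List ℕ := [0, 0, 0, 0, 0, 0, 1, 2, 2, 3, 3, 3, 5]

lemma up12 : ∀ l < 13, ∀ a < 6, (losW 4 w7 l ≤ a ∧ a ≤ hisW 4 w7 l ∧ ¬ (l = 11 ∧ a = 3) ∧
    ¬ (l = 12 ∧ a = 4)) → (upI (losW 4 w7) (hisW 4 w7) 12 5 (12 - l)).1 ≤ a ∧
      a ≤ (upI (losW 4 w7) (hisW 4 w7) 12 5 (12 - l)).2 := by decide +kernel

lemma rows12 : ∀ l < 13, losW 4 w7 l = bfLN.getD l 0 ∧ hisW 4 w7 l = bfHN.getD l 0 ∧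
    bfHN.getD l 0 < 6 := by decide +kernel

lemma rowsU0 : ∀ l < 13, bfLN.getD l 0 ≤ bfLU.getD l 0 := by decide +kernel

/-- the two exceptional cells -/
def bfexQ (l a : ℕ) : Bool := (decide (l = 11) && decide (a = 3)) || (decide (l = 12) && decide (a = 4))

lemma exQ_iff {l a : ℕ} : bfexQ l a = false ↔ ¬ (l = 11 ∧ a = 3) ∧ ¬ (l = 12 ∧ a = 4) := by
  unfold bfexQ
  simp only [Bool.or_eq_false_iff, Bool.and_eq_false_iff, decide_eq_false_iff_not]
  omega

lemma rowsU2 : ∀ l < 13, ∀ a < 6, (bfLN.getD l 0 ≤ a ∧ a ≤ bfHN.getD l 0) →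
    (bfLU.getD l 0 ≤ a ↔ bfexQ l a = false) := by decide +kernel

lemma rowsU1 (l : ℕ) (hl : l < 13) (a : ℕ) (ha : a < 6)
    (h : bfLN.getD l 0 ≤ a ∧ a ≤ bfHN.getD l 0) :
    (bfLU.getD l 0 ≤ a ↔ (¬ (l = 11 ∧ a = 3) ∧ ¬ (l = 12 ∧ a = 4))) :=
  (rowsU2 l hl a ha h).trans exQ_iff

lemma rows10 : ∀ l < 13, bfLN.getD l 0 ≤ bfL1.getD l 0 := by decide +kernel

lemma rows11 : ∀ l < 13, ∀ a < 6, (bfLN.getD l 0 ≤ a ∧ a ≤ bfHN.getD l 0) →
    (bfL1.getD l 0 ≤ a ↔ ¬ (l = 12 ∧ a = 4)) := by decide +kernel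

lemma cost5 : ∑ p ∈ cellsR 12 bfLN bfHN, min 5 (p.1 - 4) = 64 ∧
    ∑ p ∈ cellsR 12 bfL1 bfHN, min 5 (p.1 - 4) = 59 ∧
    ∑ p ∈ cellsR 12 bfLU bfHN, min 5 (p.1 - 4) = 54 := by decide +kernel

lemma cost6 : ∑ p ∈ cellsR 12 bfLN bfHN, min 6 (p.1 - 4) = 70 ∧
    ∑ p ∈ cellsR 12 bfL1 bfHN, min 6 (p.1 - 4) = 64 ∧
    ∑ p ∈ cellsR 12 bfLU bfHN, min 6 (p.1 - 4) = 58 := by decide +kernel

/-- the three possible up-sets -/
theorem three12 (D : WordD 12 4 w7 lo hi) (C : Cp.Comp 12 t lo hi e) (H : Gr P r)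
    (hg : ∀ l, l < 12 → Win.Good P l) (ht : lev t = 0) {G : Finset P}
    (hsub : G ⊆ lowPart 12 t) (hup : ∀ x y, x ≤ y → x ∈ G → y ∈ G) (hG : e 12 5 ∈ G) :
    StS 12 t lo hi e G bfLN bfHN ∨ StS 12 t lo hi e G bfL1 bfHN ∨ StS 12 t lo hi e G bfLU bfHN := by
  obtain ⟨r1, r2⟩ := D.rows C
  have hrow : ∀ l, l ≤ 12 → lo l = bfLN.getD l 0 ∧ hi l = bfHN.getD l 0 ∧ bfHN.getD l 0 < 6 := by
    intro l hl
    have h1 := rows12 l (by omega)
    rw [r1 l hl, r2 l hl]
    exact h1
  have hin : ∀ l a, l ≤ 12 → lo l ≤ a → a ≤ hi l → ¬ (l = 11 ∧ a = 3) → ¬ (l = 12 ∧ a = 4) →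
      e l a ∈ G := by
    intro l a hl h1 h2 h3 h4
    have h0 := hrow l hl
    have h5 := up12 l (by omega) a (by omega) ⟨by rw [← r1 l hl]; exact h1,
      by rw [← r2 l hl]; exact h2, h3, h4⟩
    exact hup _ _ (above_last C D H hg ht (by decide +kernel) hl h5) hG
  have hs : ∀ z ∈ G, z ≤ t ∧ lev z ≤ 12 := fun z hz => mem_lowPart.mp (hsub hz)
  have c3 : e 12 4 ≤ e 11 3 := by
    have h1 := hrow 11 (by omega)
    have h2 := hrow 12 (by omega)
    have g1 : bfLN.getD 11 0 = 3 ∧ bfHN.getD 11 0 = 4 := by decide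
    have g2 : bfLN.getD 12 0 = 4 ∧ bfHN.getD 12 0 = 5 := by decide
    have k1 : lo (11 + 1) ≤ 4 ∧ 4 ≤ hi (11 + 1) := by
      show lo 12 ≤ 4 ∧ 4 ≤ hi 12
      omega
    exact ((C.cov 11 4 3 (by omega) k1.1 k1.2 (by omega) (by omega)).2
      (Or.inr rfl)).le
  by_cases h4 : e 12 4 ∈ G
  · left
    have h3 : e 11 3 ∈ G := hup _ _ c3 h4
    refine ⟨hs, hup, fun l a hl h1 h2 => ?_, fun l hl => ?_⟩
    · have h0 := hrow l hl
      constructor
      · intro _
        omega
      · intro _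
        by_cases k1 : l = 11 ∧ a = 3
        · rw [k1.1, k1.2]; exact h3
        · by_cases k2 : l = 12 ∧ a = 4
          · rw [k2.1, k2.2]; exact h4
          · exact hin l a hl h1 h2 k1 k2
    · have h0 := hrow l hl
      omega
  · by_cases h3 : e 11 3 ∈ G
    · right; left
      refine ⟨hs, hup, fun l a hl h1 h2 => ?_, fun l hl => ?_⟩
      · have h0 := hrow l hl
        have h5 := rows11 l (by omega) a (by omega) ⟨by omega, by omega⟩
        constructor
        · intro hm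
          refine ⟨h5.2 ?_, by omega⟩
          rintro ⟨rfl, rfl⟩
          exact h4 hm
        · rintro ⟨hm, -⟩
          have h6 := h5.1 hm
          by_cases k1 : l = 11 ∧ a = 3
          · rw [k1.1, k1.2]; exact h3
          · exact hin l a hl h1 h2 k1 h6
      · have h0 := hrow l hl
        have h5 := rows10 l (by omega)
        omega
    · right; right
      refine ⟨hs, hup, fun l a hl h1 h2 => ?_, fun l hl => ?_⟩
      · have h0 := hrow l hl
        have h5 := rowsU1 l (by omega) a (by omega) ⟨by omega, by omega⟩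
        constructor
        · intro hm
          refine ⟨h5.2 ⟨?_, ?_⟩, by omega⟩
          · rintro ⟨rfl, rfl⟩
            exact h3 hm
          · rintro ⟨rfl, rfl⟩
            exact h4 hm
        · rintro ⟨hm, -⟩
          have h6 := h5.1 hm
          exact hin l a hl h1 h2 h6.1 h6.2
      · have h0 := hrow l hl
        have h5 := rowsU0 l (by omega)
        omega

/-- membership below the last rows -/
lemma StS.full12 {G : Finset P} {LL : List ℕ} (S : StS 12 t lo hi e G LL bfHN)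
    (D : WordD 12 4 w7 lo hi) (C : Cp.Comp 12 t lo hi e)
    (hL : ∀ l < 11, LL.getD l 0 = bfLN.getD l 0) : ∀ l a, l ≤ 10 → lo l ≤ a → a ≤ hi l →
      e l a ∈ G := by
  obtain ⟨r1, r2⟩ := D.rows C
  intro l a hl h1 h2
  have h3 := rows12 l (by omega)
  have h4 := hL l (by omega)
  have h5 := r1 l (by omega)
  have h6 := r2 l (by omega)
  exact (S.mem l a (by omega) h1 h2).2 ⟨by omega, by omega⟩

/-- **BF, `j = 12`, bound 5 at `(12, 5)`**, any bounds `≤ 5` elsewhere -/
theorem bf12_5 (D : WordD 12 4 w7 lo hi) (C : Cp.Comp 12 t lo hi e) (H : Gr P r)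
    (hg : ∀ l, l < 12 → Win.Good P l) (ht : lev t = 0)
    {B : {x : P // x ∈ lowPart 12 t} → ℕ} (hB : ∀ x, B x ≤ 5)
    (h5 : ∀ x : {x : P // x ∈ lowPart 12 t}, (x : P) = e 12 5 → B x = 5) {n : ℕ} (hn : n ≤ 61) :
    (1 + X : ℤ[X]) ^ 2 ∣ ZB 4 ∅ 0 B n := by
  have hlow : ∀ x y : P, x ≤ y → x ∈ lowPart 12 t → y ∈ lowPart 12 t :=
    fun _ _ hxy hx => lowPart_up H hg ht hxy hx
  obtain ⟨r1, r2⟩ := D.rows C
  have hr12 := rows12 12 (by omega)
  have g2 : bfLN.getD 12 0 = 4 ∧ bfHN.getD 12 0 = 5 := by decide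
  have q1 := r1 12 le_rfl
  have q2 := r2 12 le_rfl
  have hmem : e 12 5 ∈ lowPart 12 t := mem_lowPart.mpr
    ⟨C.le_t 12 5 le_rfl (by omega) (by omega),
      (C.lev_e 12 5 le_rfl (by omega) (by omega)).le⟩
  refine ZB_low hlow hB (fun G hGs hGu hGB c hc => ?_) hn
  have hG : e 12 5 ∈ G := hGB ⟨_, hmem⟩ (h5 _ rfl)
  rcases three12 D C H hg ht hGs hGu hG with S | S | S
  · have := S.cost C (fun l => min 5 (l - 4))
    rw [cost5.1] at this
    omega
  · have h1 := S.cost C (fun l => min 5 (l - 4))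
    rw [cost5.2.1] at h1
    have hf := S.full12 D C (by decide)
    exact S.dvd H C (base := 7) (R := 6) (s := 2) (N := 2) rfl (by omega) le_rfl (by omega)
      (fun l a hl => hf l a (by omega)) Win.Ev.zL1 (c := c) (by omega)
  · have h1 := S.cost C (fun l => min 5 (l - 4))
    rw [cost5.2.2] at h1
    have hf := S.full12 D C (by decide)
    exact S.dvd H C (base := 2) (R := 11) (s := 7) (N := 7) rfl (by omega) le_rfl (by omega)
      (fun l a hl => hf l a (by omega)) Win.Ev.zL0 (c := c) (by omega)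

/-- **BF, `j = 12`, bound 6 at `(12, 5)`**, any bounds `≤ 6` elsewhere -/
theorem bf12_6 (D : WordD 12 4 w7 lo hi) (C : Cp.Comp 12 t lo hi e) (H : Gr P r)
    (hg : ∀ l, l < 12 → Win.Good P l) (ht : lev t = 0)
    {B : {x : P // x ∈ lowPart 12 t} → ℕ} (hB : ∀ x, B x ≤ 6)
    (h5 : ∀ x : {x : P // x ∈ lowPart 12 t}, (x : P) = e 12 5 → B x = 6) {n : ℕ} (hn : n ≤ 60) :
    (1 + X : ℤ[X]) ^ 2 ∣ ZB 4 ∅ 0 B n := by
  have hlow : ∀ x y : P, x ≤ y → x ∈ lowPart 12 t → y ∈ lowPart 12 t :=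
    fun _ _ hxy hx => lowPart_up H hg ht hxy hx
  obtain ⟨r1, r2⟩ := D.rows C
  have hr12 := rows12 12 (by omega)
  have g2 : bfLN.getD 12 0 = 4 ∧ bfHN.getD 12 0 = 5 := by decide
  have q1 := r1 12 le_rfl
  have q2 := r2 12 le_rfl
  have hmem : e 12 5 ∈ lowPart 12 t := mem_lowPart.mpr
    ⟨C.le_t 12 5 le_rfl (by omega) (by omega),
      (C.lev_e 12 5 le_rfl (by omega) (by omega)).le⟩
  refine ZB_low hlow hB (fun G hGs hGu hGB c hc => ?_) hn
  have hG : e 12 5 ∈ G := hGB ⟨_, hmem⟩ (h5 _ rfl)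
  rcases three12 D C H hg ht hGs hGu hG with S | S | S
  · have := S.cost C (fun l => min 6 (l - 4))
    rw [cost6.1] at this
    omega
  · have := S.cost C (fun l => min 6 (l - 4))
    rw [cost6.2.1] at this
    omega
  · have h1 := S.cost C (fun l => min 6 (l - 4))
    rw [cost6.2.2] at h1
    have hf := S.full12 D C (by decide)
    exact S.dvd H C (base := 8) (R := 5) (s := 2) (N := 2) rfl (by omega) le_rfl (by omega)
      (fun l a hl => hf l a (by omega)) Win.Ev.zL0' (c := c) (by omega)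

end Twelve

section Full

/-- rows for `j = 14` -/
def bfLG : List ℕ := [0, 0, 0, 0, 0, 0, 1, 2, 2, 3, 3, 3, 4, 5, 5]
/-- rows for `j = 14` -/
def bfHG : List ℕ := [0, 0, 0, 0, 1, 1, 2, 3, 4, 4, 4, 4, 5, 5, 5]
/-- rows for `j = 15` -/
def bfLF : List ℕ := [0, 0, 0, 0, 0, 0, 1, 2, 2, 3, 3, 3, 4, 5, 5, 5]
/-- rows for `j = 15` -/
def bfHF : List ℕ := [0, 0, 0, 0, 1, 1, 2, 3, 4, 4, 4, 4, 5, 5, 5, 5]

lemma rows14 : ∀ l < 15, losW 4 w7 l = bfLG.getD l 0 ∧ hisW 4 w7 l = bfHG.getD l 0 ∧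
    bfHG.getD l 0 < 6 := by decide +kernel

lemma rows15 : ∀ l < 16, losW 4 w7 l = bfLF.getD l 0 ∧ hisW 4 w7 l = bfHF.getD l 0 ∧
    bfHF.getD l 0 < 6 := by decide +kernel

lemma up14 : ∀ l < 15, ∀ a < 6, losW 4 w7 l ≤ a → a ≤ hisW 4 w7 l →
    (upI (losW 4 w7) (hisW 4 w7) 14 5 (14 - l)).1 ≤ a ∧
      a ≤ (upI (losW 4 w7) (hisW 4 w7) 14 5 (14 - l)).2 := by decide +kernel

lemma up15 : ∀ l < 16, ∀ a < 6, losW 4 w7 l ≤ a → a ≤ hisW 4 w7 l →
    (upI (losW 4 w7) (hisW 4 w7) 15 5 (15 - l)).1 ≤ a ∧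
      a ≤ (upI (losW 4 w7) (hisW 4 w7) 15 5 (15 - l)).2 := by decide +kernel

lemma costF : ∑ p ∈ cellsR 14 bfLG bfHG, min 7 (p.1 - 4) = 88 ∧
    ∑ p ∈ cellsR 15 bfLF bfHF, min 8 (p.1 - 4) = 100 := by decide +kernel

/-- everything is above the last cell -/
theorem stS_full (D : WordD j 4 w7 lo hi) (C : Cp.Comp j t lo hi e) {LL HH : List ℕ}
    (hrows : ∀ l < j + 1, losW 4 w7 l = LL.getD l 0 ∧ hisW 4 w7 l = HH.getD l 0 ∧
      HH.getD l 0 < 6) {G : Finset P} (hsub : G ⊆ lowPart j t) (hup : ∀ x y, x ≤ y → x ∈ G → y ∈ G)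
    (hall : ∀ l a, l ≤ j → lo l ≤ a → a ≤ hi l → e l a ∈ G) : StS j t lo hi e G LL HH := by
  obtain ⟨r1, r2⟩ := D.rows C
  have hrow : ∀ l, l ≤ j → lo l = LL.getD l 0 ∧ hi l = HH.getD l 0 := by
    intro l hl
    have h1 := hrows l (by omega)
    rw [r1 l hl, r2 l hl]
    exact ⟨h1.1, h1.2.1⟩
  refine ⟨fun z hz => mem_lowPart.mp (hsub hz), hup, fun l a hl h1 h2 => ?_, fun l hl => ?_⟩
  · have h0 := hrow l hl
    exact ⟨fun _ => by omega, fun _ => hall l a hl h1 h2⟩
  · have h0 := hrow l hl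
    omega

lemma all14 (D : WordD 14 4 w7 lo hi) (C : Cp.Comp 14 t lo hi e) (H : Gr P r)
    (hg : ∀ l, l < 14 → Win.Good P l) (ht : lev t = 0) {G : Finset P}
    (hup : ∀ x y, x ≤ y → x ∈ G → y ∈ G) (hG : e 14 5 ∈ G) :
    ∀ l a, l ≤ 14 → lo l ≤ a → a ≤ hi l → e l a ∈ G := by
  obtain ⟨r1, r2⟩ := D.rows C
  intro l a hl h1 h2
  have h3 := rows14 l (by omega)
  have g1 := r1 l hl
  have g2 := r2 l hl
  have h4 := up14 l (by omega) a (by omega) (by omega) (by omega)
  exact hup _ _ (above_last C D H hg ht (by decide +kernel) hl h4) hG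

lemma all15 (D : WordD 15 4 w7 lo hi) (C : Cp.Comp 15 t lo hi e) (H : Gr P r)
    (hg : ∀ l, l < 15 → Win.Good P l) (ht : lev t = 0) {G : Finset P}
    (hup : ∀ x y, x ≤ y → x ∈ G → y ∈ G) (hG : e 15 5 ∈ G) :
    ∀ l a, l ≤ 15 → lo l ≤ a → a ≤ hi l → e l a ∈ G := by
  obtain ⟨r1, r2⟩ := D.rows C
  intro l a hl h1 h2
  have h3 := rows15 l (by omega)
  have g1 := r1 l hl
  have g2 := r2 l hl
  have h4 := up15 l (by omega) a (by omega) (by omega) (by omega)
  exact hup _ _ (above_last C D H hg ht (by decide +kernel) hl h4) hG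

/-- **BF, `j = 14`**, bound 7 at `(14, 5)`, any bounds `≤ 7` elsewhere -/
theorem bf14 (D : WordD 14 4 w7 lo hi) (C : Cp.Comp 14 t lo hi e) (H : Gr P r)
    (hg : ∀ l, l < 14 → Win.Good P l) (ht : lev t = 0)
    {B : {x : P // x ∈ lowPart 14 t} → ℕ} (hB : ∀ x, B x ≤ 7)
    (h5 : ∀ x : {x : P // x ∈ lowPart 14 t}, (x : P) = e 14 5 → B x = 7) {n : ℕ} (hn : n ≤ 96) :
    (1 + X : ℤ[X]) ^ 2 ∣ ZB 4 ∅ 0 B n := by
  have hlow : ∀ x y : P, x ≤ y → x ∈ lowPart 14 t → y ∈ lowPart 14 t :=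
    fun _ _ hxy hx => lowPart_up H hg ht hxy hx
  obtain ⟨r1, r2⟩ := D.rows C
  have hr := rows14 14 (by omega)
  have g2 : bfLG.getD 14 0 = 5 ∧ bfHG.getD 14 0 = 5 := by decide
  have q1 := r1 14 le_rfl
  have q2 := r2 14 le_rfl
  have hmem : e 14 5 ∈ lowPart 14 t := mem_lowPart.mpr
    ⟨C.le_t 14 5 le_rfl (by omega) (by omega),
      (C.lev_e 14 5 le_rfl (by omega) (by omega)).le⟩
  refine ZB_low hlow hB (fun G hGs hGu hGB c hc => ?_) hn
  have hG : e 14 5 ∈ G := hGB ⟨_, hmem⟩ (h5 _ rfl)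
  have hall := all14 D C H hg ht hGu hG
  have S := stS_full D C rows14 hGs hGu hall
  have h1 := S.cost C (fun l => min 7 (l - 4))
  rw [costF.1] at h1
  exact S.dvd H C (base := 3) (R := 12) (s := 8) (N := 8) rfl (by omega) le_rfl (by omega)
    (fun l a hl => hall l a (by omega)) Win.Ev.z14 (c := c) (by omega)

/-- **BF, `j = 15`**, bound 8 at `(15, 5)`, any bounds `≤ 8` elsewhere -/
theorem bf15 (D : WordD 15 4 w7 lo hi) (C : Cp.Comp 15 t lo hi e) (H : Gr P r)
    (hg : ∀ l, l < 15 → Win.Good P l) (ht : lev t = 0)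
    {B : {x : P // x ∈ lowPart 15 t} → ℕ} (hB : ∀ x, B x ≤ 8)
    (h5 : ∀ x : {x : P // x ∈ lowPart 15 t}, (x : P) = e 15 5 → B x = 8) {n : ℕ} (hn : n ≤ 103) :
    (1 + X : ℤ[X]) ^ 2 ∣ ZB 4 ∅ 0 B n := by
  have hlow : ∀ x y : P, x ≤ y → x ∈ lowPart 15 t → y ∈ lowPart 15 t :=
    fun _ _ hxy hx => lowPart_up H hg ht hxy hx
  obtain ⟨r1, r2⟩ := D.rows C
  have hr := rows15 15 (by omega)
  have g2 : bfLF.getD 15 0 = 5 ∧ bfHF.getD 15 0 = 5 := by decide
  have q1 := r1 15 le_rfl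
  have q2 := r2 15 le_rfl
  have hmem : e 15 5 ∈ lowPart 15 t := mem_lowPart.mpr
    ⟨C.le_t 15 5 le_rfl (by omega) (by omega),
      (C.lev_e 15 5 le_rfl (by omega) (by omega)).le⟩
  refine ZB_low hlow hB (fun G hGs hGu hGB c hc => ?_) hn
  have hG : e 15 5 ∈ G := hGB ⟨_, hmem⟩ (h5 _ rfl)
  have hall := all15 D C H hg ht hGu hG
  have S := stS_full D C rows15 hGs hGu hall
  have h1 := S.cost C (fun l => min 8 (l - 4))
  rw [costF.2] at h1
  exact S.dvd H C (base := 9) (R := 7) (s := 3) (N := 3) rfl (by omega) le_rfl (by omega)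
    (fun l a hl => hall l a (by omega)) Win.Ev.z15 (c := c) (by omega)

end Full

end Pool.Agent.GaussPoset

end

/-! From `Pool.Agent.W_448f4_h70.GD` -/

section

/-!
Leading term and larger labels for `FarV`; raising the threshold of a twin pair
(MP_448cb3_co, S7, windows 2, 3).
-/

namespace Pool.Agent.GaussPoset

set_option linter.unusedSectionVars false

open Polynomial Finset

universe u

variable {P : Type u} [Fintype P] [PartialOrder P] [DecidableEq P]

section LeadV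

/-- the far window theorem with twins: exact leading term -/
theorem FarV.lead {i : ℕ} {R : Finset P} {b : ℕ} {h : P → ℕ} {S : ℤ[X]} {n0 : ℕ}
    (H : FarV P i R b h S n0) (hn : ∀ z ∈ bdR R, n0 ≤ cst i h z) :
    (1 + X : ℤ[X]) ^ b ∣ Z P i n0 -
      (∑ z ∈ (bdR R).filter (fun z => cst i h z = n0), Lt i h z + S) := by
  classical
  have hb : ¬ (fun g : P → ℕ => ∃ z ∈ bdR R, h z ≤ g z) 0 := by
    rintro ⟨z, hz, h1⟩
    have := H.one_le z hz
    have h2 : h z ≤ 0 := h1
    omega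
  have h1 := dvd_Z_sub_RB (i := i) (R := R)
    (fun g => (fun g : P → ℕ => ∃ z ∈ bdR R, h z ≤ g z) g ∨ g = 0) ((1 + X : ℤ[X]) ^ b) n0 (by
      intro g hg0 hg
      simp only [not_or] at hg
      refine H.clean g hg0 (fun z hz => ?_) hg.2
      by_contra hcon
      exact hg.1 ⟨z, hz, not_lt.mp hcon⟩)
  rw [RB_or_zero hb] at h1
  have hev := RB_eval (i := i) (R := R) (bad := fun g => ∃ z ∈ bdR R, h z ≤ g z) (n := n0) h ∅
    (bdR R) (fun z hz => absurd hz (Finset.notMem_empty z))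
    (fun z hz => ⟨H.one_le z hz, H.le_lev z hz⟩)
    (fun z hz => absurd hz (Finset.notMem_empty z))
    (fun z hz _ => ⟨z, hz, by rw [lbl_of (mem_filter.mp hz).1, ez_self (H.le_lev z hz)]⟩) (by
      intro e F hV hs hb
      have hd : ∃ z ∈ bdR R, Dgz h e F z := by
        by_contra hcon
        push Not at hcon
        have h2 := not_mem_of_not_dg H.hlev hV hcon
        rcases hb with ⟨x, hx, hxF⟩ | ⟨z, hz, hz2⟩
        · exact h2 x hx hxF
        · refine hcon z hz (Or.inr ?_)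
          rwa [lbl_of (mem_filter.mp hz).1] at hz2
      obtain ⟨z, hz, hd⟩ := hd
      right
      refine ⟨z, hz, ?_⟩
      have h4 : ∀ x, ez i h z x ≤ e x := ez_le hV (H.hlev z (mem_filter.mp hz).1) hd
      have h6 : cst i h z ≤ n0 := by
        rw [← hs]; exact Finset.sum_le_sum fun x _ => h4 x
      have h7 : cst i h z = n0 := le_antisymm h6 (hn z hz)
      funext x
      have h9 : ∑ x, ez i h z x = ∑ x, e x := by
        rw [hs]; exact h7
      exact ((Finset.sum_eq_sum_iff_of_le (fun x _ => h4 x)).mp h9 x (mem_univ x)).symm)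
    (fun z hz => absurd hz (Finset.notMem_empty z)) (fun z hz => absurd hz (Finset.notMem_empty z))
  have h6 : ∑ z ∈ (bdR R).filter (fun z => cst i h z = n0), Lt i h z =
      ∑ z ∈ (bdR R).filter (fun z => cst i h z = n0),
      (if Adm i (ez i h z) then
      (X : ℤ[X]) ^ (nf i (ez i h z)) * (1 + X) ^ (Pk i (ez i h z)).card else 0) := by
    refine Finset.sum_congr rfl fun z hz => ?_
    rw [mem_filter] at hz
    exact (lead_eq H.graded (H.one_le z hz.1) (H.le_lev z hz.1)).symm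
  rw [hev, Finset.sum_empty, zero_add] at h1
  rw [h6]
  have h7 := dvd_add h1 H.zero
  refine h7.trans (dvd_of_eq ?_)
  ring

/-- larger labels in the far window theorem -/
theorem FarV.raise {i : ℕ} {R : Finset P} {b : ℕ} {h h' : P → ℕ} {S : ℤ[X]} {n0 : ℕ}
    (H : FarV P i R b h S n0) (hle : ∀ z ∈ bdR R, h z ≤ h' z)
    (hlev : ∀ z ∈ bdR R, h' z ≤ lev z - i)
    (hnew : ∀ g : P → ℕ, (∀ x, x ∉ R → g x = 0) → (∀ z ∈ bdR R, g z < h' z) →
      (∃ z ∈ bdR R, h z ≤ g z) → (1 + X : ℤ[X]) ^ b ∣ ZB i R g 0 n0) :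
    FarV P i R b h' S n0 where
  graded := H.graded
  hlev := H.hlev
  clean := by
    intro g g0 hg hne
    by_cases h1 : ∀ z ∈ bdR R, g z < h z
    · exact H.clean g g0 h1 hne
    · push Not at h1
      exact hnew g g0 hg h1
  zero := H.zero
  one_le := fun z hz => (H.one_le z hz).trans (hle z hz)
  le_lev := hlev

end LeadV

section TStep

variable {i : ℕ} {p : ℤ[X]} {x x' : P} {D : Finset P}

/-- Lemma A at one energy -/
lemma dvd_ZB_shift_at {i : ℕ} {D : Finset P} {g : P → ℕ} (β : P → ℕ)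
    (hD : ∀ x y, x ≤ y → y ∈ D → x ∈ D) (hlev : ∀ x ∈ D, i < lev x)
    (hg : ∀ x, x ∉ D → g x = 0) (p : ℤ[X]) (n : ℕ)
    (h : ∀ m, m + ∑ x, g x = n → p ∣ ZB i D 0 (bg D g β) m) : p ∣ ZB i D g β n := by
  by_cases hc : ∀ x ∈ D, ∀ y ∈ D, x ≤ y → g x ≤ g y
  · by_cases hn : n < ∑ x ∈ D, g x
    · rw [ZB_zero_of_lt β n hn]; exact dvd_zero p
    · have hs : ∑ x ∈ D, g x = ∑ x, g x :=
        Finset.sum_subset (subset_univ D) fun x _ hx => hg x hx
      obtain ⟨m, rfl⟩ : ∃ m, n = m + ∑ x, g x := ⟨n - ∑ x, g x, by omega⟩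
      rw [ZB_shift β hD hlev hg hc]
      exact h m rfl
  · rw [ZB_zero_of_not_compat β hlev hc]; exact dvd_zero p

end TStep

end Pool.Agent.GaussPoset

end

/-! From `Pool.Agent.W_448f4_h70.GE` -/

section

/-!
The cone of the cell `(2, q)` of a stair at the window `q + 1`: order two at small energies
(MP_448cb3_co, S7, windows 2, 3).
-/

namespace Pool.Agent.GaussPoset

set_option linter.unusedSectionVars false

open Polynomial Finset OrderDual

universe u

section Cone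

variable {Q : Type u} [Fintype Q] [PartialOrder Q] [DecidableEq Q]

/-- the cone of the cell `(2, q)` of a stair -/
structure Cone2 (Q : Type u) [Fintype Q] [PartialOrder Q] (co : Q → ℕ × ℕ) (q : ℕ) : Prop where
  inj : Function.Injective co
  le_iff : ∀ x y : Q, x ≤ y ↔ co y ≤ co x
  mem : ∀ x, (co x).1 ≤ 2 ∧ (co x).1 ≤ (co x).2 ∧ (co x).2 ≤ q
  surj : ∀ a b, a ≤ 2 → a ≤ b → b ≤ q → ∃ x, co x = (a, b)

variable {co : Q → ℕ × ℕ} {q : ℕ}

lemma Cone2.lev (H : Cone2 Q co q) (x : Q) : lev x = (co x).1 + (co x).2 := by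
  refine lev_co co H.le_iff (fun x hx => ?_) x
  have hdx := H.mem x
  rcases Nat.eq_zero_or_pos (co x).1 with h | h
  · have h2 : 0 < (co x).2 := by
      rcases Nat.eq_zero_or_pos (co x).2 with h3 | h3
      · exact absurd (Prod.ext h h3) hx
      · exact h3
    obtain ⟨z, hz⟩ := H.surj (co x).1 ((co x).2 - 1) (by omega) (by omega) (by omega)
    refine ⟨z, by rw [hz]; exact ⟨le_rfl, Nat.sub_le _ _⟩, ?_⟩
    rw [hz]
    simp only
    omega
  · obtain ⟨z, hz⟩ := H.surj ((co x).1 - 1) (co x).2 (by omega) (by omega) (by omega)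
    refine ⟨z, by rw [hz]; exact ⟨Nat.sub_le _ _, le_rfl⟩, ?_⟩
    rw [hz]
    simp only
    omega

/-- the dual coordinates -/
def Cone2.dc (co : Q → ℕ × ℕ) (q : ℕ) (x : Qᵒᵈ) : ℕ × ℕ :=
  (2 - (co (ofDual x)).1, q - (co (ofDual x)).2)

lemma Cone2.dc_le (H : Cone2 Q co q) (x y : Qᵒᵈ) :
    x ≤ y ↔ Cone2.dc co q y ≤ Cone2.dc co q x := by
  have h1 : x ≤ y ↔ ofDual y ≤ ofDual x := Iff.rfl
  rw [h1, H.le_iff]
  have hx := H.mem (ofDual x)
  have hy := H.mem (ofDual y)
  unfold Cone2.dc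
  rw [Prod.le_def, Prod.le_def]
  simp only
  omega

lemma Cone2.dc_inj (H : Cone2 Q co q) : Function.Injective (Cone2.dc co q) := by
  intro x y h
  have h1 := (H.dc_le x y).2 h.symm.le
  have h2 := (H.dc_le y x).2 h.le
  exact le_antisymm h1 h2

lemma Cone2.dc_surj (H : Cone2 Q co q) {a b : ℕ} (ha : a ≤ 2) (hb : b ≤ q)
    (hab : 2 + b ≤ q + a) : ∃ x, Cone2.dc co q x = (a, b) := by
  obtain ⟨x, hx⟩ := H.surj (2 - a) (q - b) (by omega) (by omega) (by omega)
  refine ⟨toDual x, ?_⟩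
  unfold Cone2.dc
  rw [ofDual_toDual, hx]
  simp only
  exact Prod.ext (by simp only; omega) (by simp only; omega)

lemma Cone2.lev_dual (H : Cone2 Q co q) (hq : 2 ≤ q) (x : Qᵒᵈ) :
    Pool.Agent.GaussPoset.lev x = (Cone2.dc co q x).1 + (Cone2.dc co q x).2 := by
  refine lev_co (Cone2.dc co q) H.dc_le (fun x hx => ?_) x
  have hm := H.mem (ofDual x)
  have e1 : (Cone2.dc co q x).1 = 2 - (co (ofDual x)).1 := rfl
  have e2 : (Cone2.dc co q x).2 = q - (co (ofDual x)).2 := rfl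
  by_cases h : 0 < (Cone2.dc co q x).2
  · obtain ⟨z, hz⟩ := H.dc_surj (a := (Cone2.dc co q x).1) (b := (Cone2.dc co q x).2 - 1)
      (by omega) (by omega) (by omega)
    refine ⟨z, by rw [hz]; exact ⟨le_rfl, Nat.sub_le _ _⟩, ?_⟩
    rw [hz]
    simp only
    omega
  · have h2 : 0 < (Cone2.dc co q x).1 := by
      rcases Nat.eq_zero_or_pos (Cone2.dc co q x).1 with h3 | h3
      · exact absurd (Prod.ext h3 (by simp only; omega)) hx
      · exact h3
    obtain ⟨z, hz⟩ := H.dc_surj (a := (Cone2.dc co q x).1 - 1) (b := (Cone2.dc co q x).2)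
      (by omega) (by omega) (by omega)
    refine ⟨z, by rw [hz]; exact ⟨Nat.sub_le _ _, le_rfl⟩, ?_⟩
    rw [hz]
    simp only
    omega

lemma Cone2.pure (H : Cone2 Q co q) (hq : 2 ≤ q) : Pure' Q (q + 2) where
  cov := by
    intro x y hxy
    have h1 := (H.le_iff x y).1 hxy.1.le
    have hx := H.mem x
    have hy := H.mem y
    have h2 : ¬ co x ≤ co y := fun h => not_le_of_gt hxy.1 ((H.le_iff y x).2 h)
    rw [Prod.le_def] at h1 h2
    rw [H.lev, H.lev]
    have key : ∀ a b, a ≤ 2 → a ≤ b → b ≤ q → co y ≤ (a, b) → (a, b) ≤ co x →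
        a + b + 1 = (co x).1 + (co x).2 → (co x).1 + (co x).2 = (co y).1 + (co y).2 + 1 := by
      intro a b g1 g2 g3 g4 g5 g6
      obtain ⟨z, hz⟩ := H.surj a b g1 g2 g3
      have h3 : x ≤ z := (H.le_iff x z).2 (by rw [hz]; exact g5)
      have h4 : z ≤ y := (H.le_iff z y).2 (by rw [hz]; exact g4)
      have h5 : x < z := by
        refine lt_of_le_of_ne h3 ?_
        rintro rfl
        rw [hz] at g6
        simp only at g6
        omega
      have h6 : z = y := by
        by_contra h7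
        exact hxy.2 h5 (lt_of_le_of_ne h4 h7)
      rw [← h6, hz]
      simp only
      omega
    by_cases h3 : (co y).1 < (co x).1
    · exact key ((co x).1 - 1) (co x).2 (by omega) (by omega) (by omega)
        ⟨by simp only; omega, h1.2⟩ ⟨Nat.sub_le _ _, le_rfl⟩ (by omega)
    · exact key (co x).1 ((co x).2 - 1) (by omega) (by omega) (by omega)
        ⟨h1.1, by simp only; omega⟩ ⟨le_rfl, Nat.sub_le _ _⟩ (by omega)
  le := by
    intro x
    have := H.mem x
    rw [H.lev]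
    omega
  dual := by
    intro x
    have := H.mem x
    rw [H.lev_dual hq, H.lev]
    unfold Cone2.dc
    simp only [ofDual_toDual]
    omega

/-- **The cone of the cell `(2, q)` of a stair has order two at the window `q + 1`.** -/
theorem Cone2.dvd (H : Cone2 Q co q) {n : ℕ} (hn : n + 4 ≤ q) :
    (1 + X : ℤ[X]) ^ 2 ∣ Z Q (q + 1) n := by
  classical
  refine dvd_Z_dual (H.pure (by omega)) (by omega) ?_
  have e0 : q + 2 - (q + 1) = 1 := by omega
  rw [e0]
  set D : Finset Qᵒᵈ := univ.filter (fun x : Qᵒᵈ => (co (ofDual x)).2 ≤ 1) with hDdef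
  have hmD : ∀ x : Qᵒᵈ, x ∈ D ↔ (co (ofDual x)).2 ≤ 1 := by
    intro x
    rw [hDdef, mem_filter]
    exact ⟨fun h => h.2, fun h => ⟨mem_univ _, h⟩⟩
  have hDl : ∀ x y : Qᵒᵈ, x ≤ y → y ∈ D → x ∈ D := by
    intro x y hxy hy
    rw [hmD] at hy ⊢
    have h1 : ofDual y ≤ ofDual x := hxy
    rw [H.le_iff, Prod.le_def] at h1
    omega
  have hlev : ∀ x ∈ D, 1 < Pool.Agent.GaussPoset.lev x := by
    intro x hx
    rw [hmD] at hx
    rw [H.lev_dual (by omega)]
    unfold Cone2.dc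
    simp only
    omega
  rw [Z_cut hDl hlev ?_]
  · refine young_trunc (fun x : {x : Qᵒᵈ // x ∉ D} => Cone2.dc co q x) ?_ ?_ ?_ (i := 1) (k := 2)
      (J := n + 1) (by omega) (by omega) ?_ (by omega)
    · intro x y h
      exact Subtype.ext (H.dc_inj h)
    · intro x y
      exact H.dc_le x y
    · intro x c hc
      have h1 := x.2
      rw [hmD] at h1
      rw [Prod.le_def] at hc
      have e1 : (Cone2.dc co q (x : Qᵒᵈ)).1 = 2 - (co (ofDual (x : Qᵒᵈ))).1 := rfl
      have e2 : (Cone2.dc co q (x : Qᵒᵈ)).2 = q - (co (ofDual (x : Qᵒᵈ))).2 := rfl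
      obtain ⟨y, hy⟩ := H.dc_surj (a := c.1) (b := c.2) (by omega) (by omega) (by omega)
      have e3 : (Cone2.dc co q y).2 = q - (co (ofDual y)).2 := rfl
      refine ⟨⟨y, ?_⟩, by rw [hy]⟩
      rw [hmD]
      rw [hy] at e3
      omega
    · intro s c hs hc _
      obtain ⟨y, hy⟩ := H.dc_surj (a := s) (b := c) (by omega) (by omega) (by omega)
      have e3 : (Cone2.dc co q y).2 = q - (co (ofDual y)).2 := rfl
      refine ⟨⟨y, ?_⟩, by rw [hy]⟩
      rw [hmD]
      rw [hy] at e3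
      simp only at e3
      omega
  · intro z hz
    rw [hmD] at hz
    have hmz := H.mem (ofDual z)
    rw [ncone_eq]
    have h1 : ((Finset.range (n + 1)).image (fun t => (0, t + 2))) ⊆
        (univ.filter (fun x : Qᵒᵈ => z ≤ x ∧ 1 < Pool.Agent.GaussPoset.lev x)).image
          (Cone2.dc co q) := by
      intro c hc
      rw [mem_image] at hc
      obtain ⟨t, ht, rfl⟩ := hc
      rw [mem_range] at ht
      obtain ⟨y, hy⟩ := H.dc_surj (a := 0) (b := t + 2) (by omega) (by omega) (by omega)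
      rw [mem_image]
      refine ⟨y, ?_, hy⟩
      rw [mem_filter]
      refine ⟨mem_univ _, ?_, ?_⟩
      · rw [H.dc_le, hy, Prod.le_def]
        unfold Cone2.dc
        simp only
        omega
      · rw [H.lev_dual (by omega), hy]
        simp only
        omega
    have h2 := card_le_card h1
    rw [card_image_of_injOn, card_range] at h2
    · exact lt_of_lt_of_le (by omega) (h2.trans card_image_le)
    · intro a _ b _ hab
      simp only [Prod.mk.injEq, true_and] at hab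
      omega

end Cone

end Pool.Agent.GaussPoset

end

/-! From `Pool.Agent.W_448f4_h70.FC` -/

section

/-!
Two peaks; parts with a large bound at two elements; the product over the parts for frozen labels;
larger labels in the far window theorem (MP_448cb3_co, S7, windows 2, 3).
-/

namespace Pool.Agent.GaussPoset

set_option linter.unusedSectionVars false

open Polynomial Finset

universe u

namespace F4

section Two

variable {Q : Type u} [Fintype Q] [PartialOrder Q] [DecidableEq Q]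

/-- a peak above `u` -/
lemma exists_pk_above {i : ℕ} {u v : Q} (hu : i ≤ lev u) (hc : ∀ z, u ≤ z ∨ v ≤ z) (e : Q → ℕ)
    (hneg : ∀ z, u ≤ z → v ≤ z → rho i e z < 0) : ∃ w ∈ Pk i e, u ≤ w ∧ 0 ≤ rho i e w := by
  classical
  obtain ⟨a, ha1, ha⟩ := Finset.exists_max_image (univ.filter (fun y : Q => u ≤ y))
    (fun y => rho i e y) ⟨u, by simp⟩
  have hau : u ≤ a := by simpa using ha1
  have hmax : ∀ y, u ≤ y → rho i e y ≤ rho i e a := fun y hy => ha y (by simpa using hy)
  let S : Finset Q := univ.filter (fun y => u ≤ y ∧ rho i e y = rho i e a)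
  obtain ⟨w, hw⟩ := S.exists_maximal ⟨a, by simp [S, hau]⟩
  have hw1 : u ≤ w ∧ rho i e w = rho i e a := by simpa [S] using hw.1
  have h0 : 0 ≤ rho i e a := by
    have h1 := hmax u le_rfl
    have h2 : 0 ≤ rho i e u := by unfold rho; omega
    exact h2.trans h1
  refine ⟨w, ?_, hw1.1, by rw [hw1.2]; exact h0⟩
  simp only [Pk, mem_filter, mem_univ, true_and]
  constructor
  · rintro (h1 | ⟨z, hz, h1⟩)
    · rw [hw1.2] at h1; omega
    · rcases hc z with h2 | h2
      · rw [hw1.2] at h1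
        exact absurd (hmax z h2) (not_le.mpr h1)
      · have h3 := hneg w hw1.1 (h2.trans hz.le)
        rw [hw1.2] at h3
        omega
  · rintro ⟨y, hy, h1⟩
    have h2 : rho i e y = rho i e a :=
      le_antisymm (hmax y (hw1.1.trans hy.le)) (by rw [← hw1.2]; exact h1)
    have h3 : y ∈ S := by simp [S, h2, hw1.1.trans hy.le]
    exact absurd (hw.2 h3 hy.le) (not_le_of_gt hy)

/-- two elements far apart give two peaks -/
lemma two_le_pk {i c : ℕ} {x1 x2 : Q} (h1 : i ≤ lev x1) (h2 : i ≤ lev x2)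
    (hc : ∀ z, x1 ≤ z ∨ x2 ≤ z) (hb : ∀ z, x1 ≤ z → x2 ≤ z → lev z + c < i) (e : Q → ℕ)
    (he : ∑ x, e x ≤ c) : 2 ≤ (Pk i e).card := by
  classical
  have hneg : ∀ z, x1 ≤ z → x2 ≤ z → rho i e z < 0 := by
    intro z g1 g2
    have g3 := hb z g1 g2
    have g4 : e z ≤ ∑ x, e x := Finset.single_le_sum (fun _ _ => Nat.zero_le _) (mem_univ z)
    unfold rho
    omega
  obtain ⟨w1, a1, b1, c1⟩ := exists_pk_above h1 hc e hneg
  obtain ⟨w2, a2, b2, c2⟩ := exists_pk_above h2 (fun z => (hc z).symm) e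
    (fun z g1 g2 => hneg z g2 g1)
  have hne : w1 ≠ w2 := by
    rintro rfl
    have := hneg _ b1 b2
    omega
  have h3 : ({w1, w2} : Finset Q) ⊆ Pk i e := by
    intro x hx
    rw [mem_insert, mem_singleton] at hx
    rcases hx with rfl | rfl
    · exact a1
    · exact a2
  have h4 := Finset.card_le_card h3
  rwa [Finset.card_pair hne] at h4

/-- order two for small energies -/
theorem dvd_Z_two {i c : ℕ} {x1 x2 : Q} (h1 : i ≤ lev x1) (h2 : i ≤ lev x2)
    (hc : ∀ z, x1 ≤ z ∨ x2 ≤ z) (hb : ∀ z, x1 ≤ z → x2 ≤ z → lev z + c < i) :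
    (1 + X : ℤ[X]) ^ 2 ∣ Z Q i c := by
  classical
  unfold Z
  refine Finset.dvd_sum fun e he => ?_
  rw [mem_piAntidiag] at he
  split_ifs with h
  · exact dvd_mul_of_dvd_right (pow_dvd_pow _ (two_le_pk h1 h2 hc hb e he.1.le)) _
  · exact dvd_zero _

end Two

section Part

variable {P : Type u} [Fintype P] [PartialOrder P] [DecidableEq P]
variable {p : P → Prop} [DecidablePred p]

/-- the energy forced by the label `k` at `f` and `s` -/
noncomputable def Efs (i k : ℕ) (f s : P) : ℕ := by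
  classical exact ∑ y ∈ univ.filter (fun y => f ≤ y ∨ s ≤ y), min k (lev y - i)

/-- the energy of a configuration with large labels at `f` and `s` -/
lemma Efs_le (hp : ∀ x y, x ≤ y → p x → p y) {i k : ℕ} {f s : P} (hf : p f) (hs : p s)
    {B : {x // p x} → ℕ} (hBf : k ≤ B ⟨f, hf⟩) (hBs : k ≤ B ⟨s, hs⟩)
    {e : {x // p x} → ℕ} {F : Finset {x // p x}} (h : Cst i ∅ 0 B e F) :
    Efs i k f s ≤ ∑ x, e x := by
  classical
  rw [cst_empty_iff] at h
  obtain ⟨hV, hB⟩ := h
  have hl : ∀ x : {x // p x}, lev x = lev (x : P) := lev_subtype hp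
  have hmem : ∀ x : {x // p x}, k ≤ B x → x ∈ upL i k e F := by
    intro x hx
    rw [mem_upL]
    by_cases hxF : x ∈ F
    · exact Or.inl hxF
    · right
      have h1 : (k : ℤ) ≤ B x := by exact_mod_cast hx
      exact h1.trans (hB x hxF)
  have hup : ∀ x : {x // p x}, (f ≤ x ∨ s ≤ x) → x ∈ upL i k e F := by
    intro x hx
    rcases hx with hx | hx
    · exact upL_up hV (x := ⟨f, hf⟩) hx (hmem _ hBf)
    · exact upL_up hV (x := ⟨s, hs⟩) hx (hmem _ hBs)
  have hge : ∀ x ∈ upL i k e F, min k (lev (x : P) - i) ≤ e x := by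
    intro x hx
    rw [mem_upL] at hx
    rcases hx with hx | hx
    · have := sub_le_of_mem hV hx
      rw [hl] at this
      exact (Nat.min_le_right _ _).trans this
    · unfold rho at hx
      have : k ≤ e x := by omega
      exact (Nat.min_le_left _ _).trans this
  have h1 : Efs i k f s ≤ ∑ x ∈ upL i k e F, min k (lev (x : P) - i) := by
    have h2 : ∑ x ∈ upL i k e F, min k (lev (x : P) - i) =
        ∑ y ∈ (upL i k e F).map (Function.Embedding.subtype p), min k (lev y - i) := by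
      rw [Finset.sum_map]
      rfl
    rw [h2]
    unfold Efs
    refine Finset.sum_le_sum_of_subset ?_
    intro y hy
    rw [mem_filter] at hy
    rw [mem_map]
    have hpy : p y := by
      rcases hy.2 with h3 | h3
      · exact hp _ _ h3 hf
      · exact hp _ _ h3 hs
    exact ⟨⟨y, hpy⟩, hup _ hy.2, rfl⟩
  refine h1.trans ((Finset.sum_le_sum hge).trans ?_)
  exact Finset.sum_le_sum_of_subset (Finset.subset_univ _)

/-- no configuration of smaller energy -/
theorem part_zero (hp : ∀ x y, x ≤ y → p x → p y) {i k : ℕ} {f s : P} (hf : p f) (hs : p s)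
    {B : {x // p x} → ℕ} (hBf : k ≤ B ⟨f, hf⟩) (hBs : k ≤ B ⟨s, hs⟩) {n : ℕ}
    (hn : n < Efs i k f s) : ZB (P := {x // p x}) i ∅ 0 B n = 0 := by
  rw [ZB_eq_SC]
  refine SC_eq_zero fun e F h1 h2 => ?_
  have := Efs_le hp hf hs hBf hBs h1
  omega

/-- **order two of a part with large bounds at two far elements, for small own energies** -/
theorem part_two (hp : ∀ x y, x ≤ y → p x → p y) {i k M c0 : ℕ} {f s : P} (hf : p f) (hs : p s)
    (h1 : i + k ≤ lev f) (h2 : i + k ≤ lev s)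
    (hlow : ∀ y, p y → lev y ≤ M → f ≤ y ∨ s ≤ y) (hM : i + c0 ≤ M) (hk : c0 < k)
    (hb : ∀ y, f ≤ y → s ≤ y → lev y + c0 < i + k)
    {B : {x // p x} → ℕ} (hB : ∀ x, B x ≤ k) (hBf : B ⟨f, hf⟩ = k) (hBs : B ⟨s, hs⟩ = k) {n : ℕ}
    (hn : n ≤ Efs i k f s + c0) : (1 + X : ℤ[X]) ^ 2 ∣ ZB (P := {x // p x}) i ∅ 0 B n := by
  classical
  refine ZB_dvd_upL (m := Efs i k f s + c0) hB (fun L hL hBL c hc => ?_) hn
  have hl : ∀ x : {x // p x}, lev x = lev (x : P) := lev_subtype hp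
  have hfL : (⟨f, hf⟩ : {x // p x}) ∈ L := hBL _ hBf
  have hsL : (⟨s, hs⟩ : {x // p x}) ∈ L := hBL _ hBs
  have hsum : ∑ x ∈ L, min k (lev x - i) =
      ∑ y ∈ L.map (Function.Embedding.subtype p), min k (lev y - i) := by
    rw [Finset.sum_map]
    refine Finset.sum_congr rfl fun x _ => ?_
    rw [hl]
    rfl
  rw [hsum] at hc
  have hsub : univ.filter (fun y : P => f ≤ y ∨ s ≤ y) ⊆
      L.map (Function.Embedding.subtype p) := by
    intro y hy
    rw [mem_filter] at hy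
    rw [mem_map]
    rcases hy.2 with h3 | h3
    · exact ⟨⟨y, hp _ _ h3 hf⟩, hL ⟨f, hf⟩ _ h3 hfL, rfl⟩
    · exact ⟨⟨y, hp _ _ h3 hs⟩, hL ⟨s, hs⟩ _ h3 hsL, rfl⟩
  have hE : Efs i k f s ≤ ∑ y ∈ L.map (Function.Embedding.subtype p), min k (lev y - i) := by
    unfold Efs
    exact Finset.sum_le_sum_of_subset hsub
  have hall : ∀ x ∈ L, f ≤ (x : P) ∨ s ≤ (x : P) := by
    intro x hx
    by_contra hcon
    have h3 : M < lev (x : P) := by
      by_contra h4
      exact hcon (hlow x x.2 (not_lt.mp h4))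
    have h5 : insert (x : P) (univ.filter (fun y : P => f ≤ y ∨ s ≤ y)) ⊆
        L.map (Function.Embedding.subtype p) := by
      intro y hy
      rw [mem_insert] at hy
      rcases hy with rfl | hy
      · rw [mem_map]; exact ⟨x, hx, rfl⟩
      · exact hsub hy
    have h6 := Finset.sum_le_sum_of_subset (f := fun y : P => min k (lev y - i)) h5
    rw [Finset.sum_insert (by
      rw [mem_filter]
      exact fun h => hcon h.2)] at h6
    have h7 : Efs i k f s = ∑ y ∈ univ.filter (fun y : P => f ≤ y ∨ s ≤ y), min k (lev y - i) := by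
      unfold Efs
      rfl
    have h8 : c0 < min k (lev (x : P) - i) := by
      rw [lt_min_iff]
      omega
    omega
  have hlL : ∀ x : {x // x ∈ L}, lev x = lev ((x : {x // p x}) : P) := by
    intro x
    rw [lev_subtype (p := fun x => x ∈ L) hL x, hl]
  refine dvd_Z_two (x1 := ⟨⟨f, hf⟩, hfL⟩) (x2 := ⟨⟨s, hs⟩, hsL⟩) ?_ ?_ ?_ ?_
  · rw [hlL]; exact h1
  · rw [hlL]; exact h2
  · intro z
    exact hall z.1 z.2
  · intro z g1 g2
    rw [hlL]
    have := hb (z : {x // p x}) g1 g2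
    omega

end Part

section Fixed

variable {P : Type u} [Fintype P] [PartialOrder P] [DecidableEq P]
variable {ι : Type*} [Fintype ι] [DecidableEq ι]

open Classical in
/-- **The product over the parts for frozen labels.** -/
theorem zb_parts {i n : ℕ} {R : Finset P}
    (hR : ∀ x y, x ≤ y → y ∈ R → x ∈ R) (hRlev : ∀ x ∈ R, i < lev x) (cp : P → ι)
    (hcp : ∀ x y, x ≤ y → x ∉ R → cp x = cp y) (b : ι → ℕ) (g : P → ℕ)
    (hfac : ∀ k m, m + ∑ x ∈ R, g x ≤ n → (1 + X : ℤ[X]) ^ (b k) ∣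
      ZB (P := {x : P // x ∉ R ∧ cp x = k}) i ∅ 0
        (fun x => (R.filter (fun z => z ⋖ (x : P))).sup g) m) :
    (1 + X : ℤ[X]) ^ (∑ k, b k) ∣ ZB i R g 0 n := by
  set Q : (P → ℕ) → Finset P → Prop := fun e F => Vd i e F ∧ ∀ x ∈ R, x ∉ F ∧ e x = g x with hQ
  have h0 : ZB i R g 0 n = SC Q n := by
    rw [ZB_eq_SC]
    refine SC_congr (fun e F => ?_) n
    constructor
    · rintro ⟨h1, h2, -⟩
      exact ⟨h1, h2⟩
    · rintro ⟨h1, h2⟩
      exact ⟨h1, h2, fun x _ hx => by simpa using h1.2.1 x hx⟩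
  rw [h0, SC_eq_cfg]
  let φ : Finset P × (P → ℕ) → (ι → ℕ) := fun x k =>
    ∑ y ∈ univ.filter (fun y => y ∉ R ∧ cp y = k), x.2 y
  let s : Finset (ι → ℕ) := (cfg Q n).image φ
  have h1 : ∑ x ∈ cfg Q n, (X : ℤ[X]) ^ x.1.card =
      ∑ y ∈ s, ∑ x ∈ (cfg Q n).filter (fun x => φ x = y), (X : ℤ[X]) ^ x.1.card :=
    (Finset.sum_fiberwise_of_maps_to (fun x hx => mem_image_of_mem φ hx) _).symm
  rw [h1]
  refine Finset.dvd_sum fun M hM => ?_
  obtain ⟨⟨F0, e0⟩, hx0, hφ0⟩ := mem_image.mp hM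
  rw [mem_cfg] at hx0
  obtain ⟨hs0, hV0, hF0⟩ := hx0
  simp only at hs0 hV0 hF0
  have hM0 : ∀ k, ∑ y ∈ univ.filter (fun y => y ∉ R ∧ cp y = k), e0 y = M k :=
    fun k => congrFun hφ0 k
  have hmono : ∀ x ∈ R, ∀ y ∈ R, x ≤ y → g x ≤ g y := by
    intro x hx y hy hxy
    have h2 := hV0.2.2.1 x y hxy (hF0 x hx).1 (hF0 y hy).1
    rw [rho_of_lt (hRlev x hx), rho_of_lt (hRlev y hy), (hF0 x hx).2, (hF0 y hy).2] at h2
    exact_mod_cast h2
  have hn : n = ∑ x ∈ R, g x + ∑ k, M k := by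
    rw [← hs0, sum_parts R cp e0, Finset.sum_congr rfl (fun x hx => (hF0 x hx).2),
      Finset.sum_congr rfl (fun k _ => hM0 k)]
  have h2 : ∑ x ∈ (cfg Q n).filter (fun x => φ x = M), (X : ℤ[X]) ^ x.1.card =
      SC (fun e F => (Vd i e F ∧ ∀ x ∈ R, x ∉ F ∧ e x = g x) ∧
        ∀ k, ∑ x ∈ univ.filter (fun x => x ∉ R ∧ cp x = k), e x = M k) n := by
    rw [SC_eq_cfg]
    refine Finset.sum_congr ?_ (fun _ _ => rfl)
    ext ⟨F, e⟩
    rw [mem_filter, mem_cfg, mem_cfg]
    simp only [φ, hQ]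
    constructor
    · rintro ⟨⟨a1, a2, a3⟩, a5⟩
      exact ⟨a1, ⟨a2, a3⟩, fun k => congrFun a5 k⟩
    · rintro ⟨a1, ⟨a2, a3⟩, a4⟩
      exact ⟨⟨a1, a2, a3⟩, funext fun k => a4 k⟩
  rw [h2, SC_parts R cp g (fun e F => Vd i e F ∧ ∀ x ∈ R, x ∉ F ∧ e x = g x)
    (fun k => Cst (P := {x : P // InPart R cp k x}) i ∅ 0
        (fun x => (R.filter (fun z => z ⋖ (x : P))).sup g))
    (fun e F => vd_parts_iff hR hRlev cp hcp g hmono e F) M n hn]
  rw [← Finset.prod_pow_eq_pow_sum]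
  refine Finset.prod_dvd_prod_of_dvd _ _ fun k _ => ?_
  have hMn : M k + ∑ x ∈ R, g x ≤ n := by
    rw [hn, Nat.add_comm]
    exact Nat.add_le_add_left (Finset.single_le_sum (fun _ _ => Nat.zero_le _) (mem_univ k)) _
  have h3 := hfac k (M k) hMn
  have h4 : ZB (P := {x : P // x ∉ R ∧ cp x = k}) i ∅ 0
      (fun x => (R.filter (fun z => z ⋖ (x : P))).sup g) (M k) =
      SC (Cst (P := {x : P // InPart R cp k x}) i ∅ 0
        (fun x => (R.filter (fun z => z ⋖ (x : P))).sup g)) (M k) := by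
    rw [ZB_eq_SC]
    rfl
  rw [← h4]
  exact h3

end Fixed

end F4

section Raise

variable {P : Type u} [Fintype P] [PartialOrder P] [DecidableEq P]

end Raise

end Pool.Agent.GaussPoset

end

/-! From `Pool.Agent.W_448f4_h70.GF` -/

section

/-!
The part of a cone of a stair; the product over the parts with bounds; the sums with one full
bound (MP_448cb3_co, S7, windows 2, 3).
-/

namespace Pool.Agent.GaussPoset

set_option linter.unusedSectionVars false

open Polynomial Finset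

universe u

namespace F4

variable {P : Type u} [Fintype P] [PartialOrder P] [DecidableEq P]

section Cone

/-- the cone of `x` is the cone of the cell `(2, q)` of a stair -/
structure ConeAt (x : P) (co : P → ℕ × ℕ) (q : ℕ) : Prop where
  le_iff : ∀ y z, x ≤ y → x ≤ z → (y ≤ z ↔ co z ≤ co y)
  mem : ∀ y, x ≤ y → (co y).1 ≤ 2 ∧ (co y).1 ≤ (co y).2 ∧ (co y).2 ≤ q
  surj : ∀ a b, a ≤ 2 → a ≤ b → b ≤ q → ∃ y, x ≤ y ∧ co y = (a, b)

variable {p : P → Prop} [DecidablePred p]

/-- **order two of a part with the full bound at the cell `(2, q)`, for own energies at most 2** -/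
theorem part_cone (hp : ∀ x y, x ≤ y → p x → p y) {i h q : ℕ} {x : P} (hx : p x)
    {co : P → ℕ × ℕ} (C : ConeAt x co q) (hih : i + h = q + 1) (hq : 6 ≤ q) (hh : 3 ≤ h)
    (hlow : ∀ y, p y → lev y ≤ i + 2 → x ≤ y)
    {B : {x // p x} → ℕ} (hB : ∀ y, B y ≤ h) (hBx : B ⟨x, hx⟩ = h) {n : ℕ}
    (hn : n ≤ Efs i h x x + 2) : (1 + X : ℤ[X]) ^ 2 ∣ ZB (P := {x // p x}) i ∅ 0 B n := by
  classical
  refine ZB_dvd_upL (m := Efs i h x x + 2) hB (fun L hL hBL c hc => ?_) hn
  have hl : ∀ x : {x // p x}, lev x = lev (x : P) := lev_subtype hp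
  have hxL : (⟨x, hx⟩ : {x // p x}) ∈ L := hBL _ hBx
  have hsum : ∑ x ∈ L, min h (lev x - i) =
      ∑ y ∈ L.map (Function.Embedding.subtype p), min h (lev y - i) := by
    rw [Finset.sum_map]
    refine Finset.sum_congr rfl fun x _ => ?_
    rw [hl]
    rfl
  rw [hsum] at hc
  have hsub : univ.filter (fun y : P => x ≤ y ∨ x ≤ y) ⊆
      L.map (Function.Embedding.subtype p) := by
    intro y hy
    rw [mem_filter, or_self] at hy
    rw [mem_map]
    exact ⟨⟨y, hp _ _ hy.2 hx⟩, hL ⟨x, hx⟩ _ hy.2 hxL, rfl⟩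
  have hE : Efs i h x x ≤ ∑ y ∈ L.map (Function.Embedding.subtype p), min h (lev y - i) := by
    unfold Efs
    exact Finset.sum_le_sum_of_subset hsub
  have hall : ∀ y ∈ L, x ≤ (y : P) := by
    intro y hy
    by_contra hcon
    have h3 : i + 2 < lev (y : P) := by
      by_contra h4
      exact hcon (hlow y y.2 (not_lt.mp h4))
    have h5 : insert (y : P) (univ.filter (fun y : P => x ≤ y ∨ x ≤ y)) ⊆
        L.map (Function.Embedding.subtype p) := by
      intro z hz
      rw [mem_insert] at hz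
      rcases hz with rfl | hz
      · rw [mem_map]; exact ⟨y, hy, rfl⟩
      · exact hsub hz
    have h6 := Finset.sum_le_sum_of_subset (f := fun y : P => min h (lev y - i)) h5
    rw [Finset.sum_insert (by
      rw [mem_filter, or_self]
      exact fun h => hcon h.2)] at h6
    have h7 : Efs i h x x = ∑ y ∈ univ.filter (fun y : P => x ≤ y ∨ x ≤ y), min h (lev y - i) := by
      unfold Efs
      rfl
    have h8 : 2 < min h (lev (y : P) - i) := by
      rw [lt_min_iff]
      omega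
    omega
  have hc2 : c ≤ 2 := by omega
  have hmemL : ∀ y (hy : x ≤ y), (⟨y, hp _ _ hy hx⟩ : {x // p x}) ∈ L := fun y hy =>
    hL ⟨x, hx⟩ _ hy hxL
  have H : Cone2 {y // y ∈ L} (fun y => co (y : {x // p x})) q := by
    refine ⟨?_, ?_, ?_, ?_⟩
    · intro y z hyz
      simp only at hyz
      have h1 := (C.le_iff _ _ (hall _ y.2) (hall _ z.2)).2 hyz.ge
      have h2 := (C.le_iff _ _ (hall _ z.2) (hall _ y.2)).2 hyz.le
      exact Subtype.ext (Subtype.ext (le_antisymm h1 h2))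
    · intro y z
      exact C.le_iff _ _ (hall _ y.2) (hall _ z.2)
    · intro y
      exact C.mem _ (hall _ y.2)
    · intro a b h1 h2 h3
      obtain ⟨y, hy, hco⟩ := C.surj a b h1 h2 h3
      exact ⟨⟨⟨y, hp _ _ hy hx⟩, hmemL y hy⟩, hco⟩
  rw [hih]
  exact H.dvd (by omega)

end Cone

section Prod

variable {ι : Type*} [Fintype ι] [DecidableEq ι]

open Classical in
/-- **The product over the parts, with bounds.** -/
theorem zb_prod {i n : ℕ} {R : Finset P}
    (hR : ∀ x y, x ≤ y → y ∈ R → x ∈ R) (hRlev : ∀ x ∈ R, i < lev x) (cp : P → ι)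
    (hcp : ∀ x y, x ≤ y → x ∉ R → cp x = cp y) (b : ι → ℕ) (β : P → ℕ)
    (hfac : ∀ M : ι → ℕ, ∑ k, M k = n →
      (∃ k, ZB (P := {x : P // x ∉ R ∧ cp x = k}) i ∅ 0 (fun x => β x) (M k) = 0) ∨
      ∀ k, (1 + X : ℤ[X]) ^ (b k) ∣
        ZB (P := {x : P // x ∉ R ∧ cp x = k}) i ∅ 0 (fun x => β x) (M k)) :
    (1 + X : ℤ[X]) ^ (∑ k, b k) ∣ ZB i R 0 β n := by
  have hup : ∀ k, ∀ x y : P, x ≤ y → InPart R cp k x → InPart R cp k y := by
    rintro k x y hxy ⟨h1, h2⟩
    exact ⟨fun h => h1 (hR x y hxy h), (hcp x y hxy h1).symm.trans h2⟩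
  have hl : ∀ k, ∀ x : {x : P // InPart R cp k x}, lev x = lev (x : P) :=
    fun k => lev_subtype (p := InPart R cp k) (hup k)
  have hr : ∀ k, ∀ (e : P → ℕ) (x : {x : P // InPart R cp k x}),
      rho i (fun y : {x : P // InPart R cp k x} => e y) x = rho i e (x : P) := by
    intro k e x
    unfold rho
    rw [hl k]
  have hsup : ∀ x : P, (R.filter (fun z => z ⋖ x)).sup (0 : P → ℕ) = 0 := fun x =>
    le_antisymm (Finset.sup_le fun _ _ => le_rfl) (Nat.zero_le _)
  set Q : (P → ℕ) → Finset P → Prop := fun e F => Cst i R 0 β e F with hQ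
  have hT : ∀ e F, Q e F ↔ (∀ x ∈ R, x ∉ F ∧ e x = (0 : P → ℕ) x) ∧
      ∀ k, Cst (P := {x : P // InPart R cp k x}) i ∅ 0 (fun x => β x) (fun x => e x)
        (F.subtype (InPart R cp k)) := by
    intro e F
    have h0 := vd_parts_iff hR hRlev cp hcp (0 : P → ℕ) (fun _ _ _ _ _ => le_rfl) e F
    constructor
    · rintro ⟨h1, h2, h3⟩
      have h4 := h0.mp ⟨h1, h2⟩
      refine ⟨h2, fun k => ?_⟩
      have h5 := (cst_empty_iff.mp (h4.2 k)).1
      rw [cst_empty_iff]
      refine ⟨h5, fun x hx => ?_⟩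
      rw [mem_subtype] at hx
      rw [hr]
      exact h3 x x.2.1 hx
    · rintro ⟨h1, h2⟩
      have h4 := h0.mpr ⟨h1, fun k => by
        rw [cst_empty_iff]
        have h5 := cst_empty_iff.mp (h2 k)
        refine ⟨h5.1, fun x hx => ?_⟩
        rw [hsup]
        exact_mod_cast h5.1.2.1 x hx⟩
      refine ⟨h4.1, h1, fun x hxR hxF => ?_⟩
      have h5 := (cst_empty_iff.mp (h2 (cp x))).2 ⟨x, hxR, rfl⟩ (by
        rw [mem_subtype]; exact hxF)
      rw [hr] at h5
      exact h5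
  have h0 : ZB i R 0 β n = SC Q n := ZB_eq_SC _ _ _ _ _
  rw [h0, SC_eq_cfg]
  let φ : Finset P × (P → ℕ) → (ι → ℕ) := fun x k =>
    ∑ y ∈ univ.filter (fun y => y ∉ R ∧ cp y = k), x.2 y
  let s : Finset (ι → ℕ) := (cfg Q n).image φ
  have h1 : ∑ x ∈ cfg Q n, (X : ℤ[X]) ^ x.1.card =
      ∑ y ∈ s, ∑ x ∈ (cfg Q n).filter (fun x => φ x = y), (X : ℤ[X]) ^ x.1.card :=
    (Finset.sum_fiberwise_of_maps_to (fun x hx => mem_image_of_mem φ hx) _).symm
  rw [h1]
  refine Finset.dvd_sum fun M hM => ?_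
  obtain ⟨⟨F0, e0⟩, hx0, hφ0⟩ := mem_image.mp hM
  rw [mem_cfg] at hx0
  obtain ⟨hs0, hV0, hF0, -⟩ := hx0
  simp only at hs0 hV0 hF0
  have hM0 : ∀ k, ∑ y ∈ univ.filter (fun y => y ∉ R ∧ cp y = k), e0 y = M k :=
    fun k => congrFun hφ0 k
  have hn : n = ∑ x ∈ R, (0 : P → ℕ) x + ∑ k, M k := by
    rw [← hs0, sum_parts R cp e0, Finset.sum_congr rfl (fun x hx => (hF0 x hx).2),
      Finset.sum_congr rfl (fun k _ => hM0 k)]
  have h2 : ∑ x ∈ (cfg Q n).filter (fun x => φ x = M), (X : ℤ[X]) ^ x.1.card =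
      SC (fun e F => Q e F ∧
        ∀ k, ∑ x ∈ univ.filter (fun x => x ∉ R ∧ cp x = k), e x = M k) n := by
    rw [SC_eq_cfg]
    refine Finset.sum_congr ?_ (fun _ _ => rfl)
    ext ⟨F, e⟩
    rw [mem_filter, mem_cfg, mem_cfg]
    simp only [φ]
    constructor
    · rintro ⟨⟨a1, a2⟩, a5⟩
      exact ⟨a1, a2, fun k => congrFun a5 k⟩
    · rintro ⟨a1, a2, a4⟩
      exact ⟨⟨a1, a2⟩, funext fun k => a4 k⟩
  rw [h2, SC_parts R cp (0 : P → ℕ) Q
    (fun k => Cst (P := {x : P // InPart R cp k x}) i ∅ 0 (fun x => β x)) hT M n hn]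
  have hz : ∑ x ∈ R, (0 : P → ℕ) x = 0 := Finset.sum_eq_zero fun _ _ => rfl
  rw [hz, zero_add] at hn
  have hk : ∀ k, ZB (P := {x : P // x ∉ R ∧ cp x = k}) i ∅ 0 (fun x => β x) (M k) =
      SC (Cst (P := {x : P // InPart R cp k x}) i ∅ 0 (fun x => β x)) (M k) := by
    intro k
    rw [ZB_eq_SC]
    rfl
  rcases hfac M hn.symm with ⟨k, hk0⟩ | hall
  · have h5 : SC (Cst (P := {x : P // InPart R cp k x}) i ∅ 0 (fun x => β x)) (M k) = 0 := by
      rw [← hk k]
      exact hk0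
    have h6 := Finset.prod_eq_zero (f := fun k =>
      SC (Cst (P := {x : P // InPart R cp k x}) i ∅ 0 (fun x => β x)) (M k)) (mem_univ k) h5
    rw [h6]
    exact dvd_zero _
  · rw [← Finset.prod_pow_eq_pow_sum]
    refine Finset.prod_dvd_prod_of_dvd _ _ fun k _ => ?_
    have h3 := hall k
    rw [hk k] at h3
    exact h3

end Prod

end F4

end Pool.Agent.GaussPoset

end

/-! From `Pool.Agent.W_448f4_h70.GG` -/

section

/-!
The sums with one full bound at a special cell of a stair; twins of special cells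
(MP_448cb3_co, S7, windows 2, 3).
-/

namespace Pool.Agent.GaussPoset

set_option linter.unusedSectionVars false

open Polynomial Finset

universe u

namespace F4

variable {P : Type u} [Fintype P] [PartialOrder P] [DecidableEq P]
variable {ι : Type*}

/-- component data for a larger set -/
lemma compT_mono {R : Finset P} {cp : P → ι} {k : ι} {i b : ℕ} {θ : P → ℕ} {B : P → Prop}
    {Tw : Finset (P × P)} (H : CompDataT R cp k i b θ B Tw) {E : Finset P} (hE : Good i R B E)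
    {Tw' : Finset (P × P)} (hTw : ∀ t ∈ Tw, t ∈ Tw' ∨ t.1 ∈ E ∨ t.2 ∈ E) :
    CompDataT E cp k i b θ B Tw' where
  clean := by
    intro D hD hbr hde
    refine H.clean D ⟨hD.1, hE.2.1.trans hD.2.1, hD.2.2.1, hD.2.2.2⟩ (fun t ht => ?_) hde
    rcases hTw t ht with h | h | h
    · exact hbr t h
    · exact Or.inl (hD.2.1 h)
    · exact Or.inr (hD.2.1 h)
  lev := fun x hx hk h => H.lev x (fun h' => hx (hE.2.1 h')) hk h
  base := fun x hx hk h y hy hyE => H.base x (fun h' => hx (hE.2.1 h')) hk h y hy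
    (fun h' => hyE (hE.2.1 h'))
  step := fun x hx hk h y hy hyE x' hx' => H.step x (fun h' => hx (hE.2.1 h')) hk h y hy
    (fun h' => hyE (hE.2.1 h')) x' (fun h' => hx' (hE.2.1 h'))
  le := fun x hx hk => H.le x (fun h' => hx (hE.2.1 h')) hk

section TStepG

variable {i : ℕ} {p : ℤ[X]} {x x' : P} {D : Finset P}

/-- the two thresholds of a pair of twins (the second one minimal) can be raised by one, if the
sums with one bound are clean -/
theorem T_stepG (hne : x ≠ x') (hup : ∀ y, x < y ↔ x' < y) (hlx : i < lev x) (hx : x ∉ D)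
    (hx' : x' ∉ D) (hm' : ∀ y < x', y ∈ D)
    (hlow : ∀ E : Finset P, E = D ∪ dnf x ∨ E = D ∪ dnf x' → ∀ a c, a ≤ c → c ∈ E → a ∈ E)
    (hlev : ∀ E : Finset P, E = D ∪ dnf x ∨ E = D ∪ dnf x' → ∀ a ∈ E, i < lev a)
    (S : P → Prop) (hS : ∀ d, (d ≤ x ∨ d ≤ x') → d ∉ D → ∀ w, d ≤ w → S w)
    {k n : ℕ} (hk : 1 ≤ k)
    (hA : ∀ E : Finset P, E = D ∪ dnf x ∨ E = D ∪ dnf x' → ∀ y, y = x ∨ y = x' → y ∉ E →
      ∀ β : P → ℕ, β y = k + 1 → (∀ w, w ∉ E → β w ≤ k + 1) → (∀ w, w ∉ E → ¬ S w → β w = 0) →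
      ∀ m, m + k ≤ n → p ∣ ZB i E 0 β m) :
    p ∣ ZB i D 0 (st2 x x' k (k + 1)) n - ZB i D 0 (st2 x x' (k + 1) (k + 2)) n := by
  classical
  have hll : lev x = lev x' := lev_eq_of_up hup
  have hlx' : i < lev x' := by omega
  have hs1 : ∀ a b, st2 x x' a b x = a := fun a b => by unfold st2; rw [if_pos rfl]
  have hs2 : ∀ a b, st2 x x' a b x' = b := fun a b => by
    unfold st2; rw [if_neg hne.symm, if_pos rfl]
  have hs3 : ∀ a b y, y ≠ x → y ≠ x' → st2 x x' a b y = 0 := fun a b y h1 h2 => by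
    unfold st2; rw [if_neg h1, if_neg h2]
  have hnl : ∀ a b : P, lev a = lev b → a ≤ b → a = b := by
    intro a b hab h
    by_contra hcon
    have := lev_strictAnti (lt_of_le_of_ne h hcon)
    omega
  have hxx' : ¬ x ≤ x' := fun h => hne (hnl _ _ hll h)
  have hx'x : ¬ x' ≤ x := fun h => hne (hnl _ _ hll.symm h).symm
  have h1 := step_mod (i := i) (p := p) (n0 := n) (β := st2 x x' k (k + 1)) hx hlx (by
    intro g' hG _
    obtain ⟨g1, g2, g3, g4, g5⟩ := hG
    rw [hs1] at g2 g3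
    refine dvd_ZB_shift_at _ (hlow _ (Or.inl rfl)) (hlev _ (Or.inl rfl)) g5 p n
      (fun m hmn => ?_)
    refine hA _ (Or.inl rfl) x' (Or.inr rfl) ?_ _ ?_ ?_ ?_ m ?_
    · rw [mem_union, mem_dnf, not_or]
      exact ⟨hx', hx'x⟩
    · refine le_antisymm (bg_le (by rw [hs2]) fun d hd hdx => ?_) ?_
      · rw [g1 d (hm' d hdx.1)]
        exact Nat.zero_le _
      · refine le_trans ?_ (le_bg _ _ _ x')
        rw [hs2]
    · intro w hw
      rw [mem_union, mem_dnf, not_or] at hw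
      refine bg_le ?_ fun d hd hdw => ?_
      · by_cases hwx : w = x'
        · rw [hwx, hs2]
        · rw [hs3 _ _ w (fun h => hw.2 h.le) hwx]
          exact Nat.zero_le _
      · by_cases hdD : d ∈ D
        · rw [g1 d hdD]; exact Nat.zero_le _
        · have h3 := g3 d ((mem_union.mp hd).resolve_left hdD |> mem_dnf.mp)
          omega
    · intro w hw hSw
      rw [mem_union, mem_dnf, not_or] at hw
      refine Nat.le_zero.mp (bg_le ?_ fun d hd hdw => ?_)
      · have hwx : w ≠ x' := by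
          rintro rfl
          exact hSw (hS w (Or.inr le_rfl) hx' w le_rfl)
        rw [hs3 _ _ w (fun h => hw.2 h.le) hwx]
      · by_cases hdD : d ∈ D
        · rw [g1 d hdD]; exact Nat.zero_le _
        · exact absurd (hS d (Or.inl ((mem_union.mp hd).resolve_left hdD |> mem_dnf.mp)) hdD w
            hdw.1.le) hSw
    · have h2 : g' x ≤ ∑ y, g' y := Finset.single_le_sum (fun y _ => Nat.zero_le _) (mem_univ x)
      omega)
  rw [hs1, st2_update_left, if_neg (by omega), sub_zero] at h1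
  have h2 := step_mod (i := i) (p := p) (n0 := n) (β := st2 x x' (k + 1) (k + 1)) hx' hlx' (by
    intro g' hG _
    obtain ⟨g1, g2, g3, g4, g5⟩ := hG
    rw [hs2] at g2 g3
    refine dvd_ZB_shift_at _ (hlow _ (Or.inr rfl)) (hlev _ (Or.inr rfl)) g5 p n
      (fun m hmn => ?_)
    refine hA _ (Or.inr rfl) x (Or.inl rfl) ?_ _ ?_ ?_ ?_ m ?_
    · rw [mem_union, mem_dnf, not_or]
      exact ⟨hx, hxx'⟩
    · refine le_antisymm (bg_le (by rw [hs1]) fun d hd hdx => ?_) ?_
      · by_cases hdD : d ∈ D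
        · rw [g1 d hdD]; exact Nat.zero_le _
        · have h3 := g3 d ((mem_union.mp hd).resolve_left hdD |> mem_dnf.mp)
          omega
      · refine le_trans ?_ (le_bg _ _ _ x)
        rw [hs1]
    · intro w hw
      rw [mem_union, mem_dnf, not_or] at hw
      refine bg_le ?_ fun d hd hdw => ?_
      · by_cases hwx : w = x
        · rw [hwx, hs1]
        · rw [hs3 _ _ w hwx (fun h => hw.2 h.le)]
          exact Nat.zero_le _
      · by_cases hdD : d ∈ D
        · rw [g1 d hdD]; exact Nat.zero_le _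
        · have h3 := g3 d ((mem_union.mp hd).resolve_left hdD |> mem_dnf.mp)
          omega
    · intro w hw hSw
      rw [mem_union, mem_dnf, not_or] at hw
      refine Nat.le_zero.mp (bg_le ?_ fun d hd hdw => ?_)
      · have hwx : w ≠ x := by
          rintro rfl
          exact hSw (hS w (Or.inl le_rfl) hx w le_rfl)
        rw [hs3 _ _ w hwx (fun h => hw.2 h.le)]
      · by_cases hdD : d ∈ D
        · rw [g1 d hdD]; exact Nat.zero_le _
        · exact absurd (hS d (Or.inr ((mem_union.mp hd).resolve_left hdD |> mem_dnf.mp)) hdD w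
            hdw.1.le) hSw
    · have h2 : g' x' ≤ ∑ y, g' y :=
        Finset.single_le_sum (fun y _ => Nat.zero_le _) (mem_univ x')
      omega)
  rw [hs2, st2_update_right hne, if_neg (by omega), sub_zero] at h2
  have h3 := dvd_add h1 h2
  refine h3.trans (dvd_of_eq ?_)
  ring

end TStepG

section Spec

variable [Fintype ι] [DecidableEq ι] {i : ℕ} {R : Finset P} {cp : P → ι} {b : ι → ℕ}
  {θ : P → ℕ} {B : P → Prop} {Tw : Finset (P × P)}

open Classical in
/-- **One full bound at a special cell**: order `∑ b` for energies at most `2` above the least -/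
theorem spec_one
    (hcp : ∀ x y, x ≤ y → x ∉ R → cp x = cp y)
    (H : ∀ k, CompDataT R cp k i (b k) θ B Tw)
    (htw : ∀ t ∈ Tw, TwinPair i θ 3 t.1 t.2) (hmin : ∀ t ∈ Tw, ∀ y < t.2, y ∈ R)
    {E : Finset P} (hE : Good i R B E) {h q : ℕ} {y : P} (hy : y ∉ E)
    {co : P → ℕ × ℕ} (C : ConeAt y co q) (hih : i + h = q + 1) (hq : 6 ≤ q) (hh : 3 ≤ h)
    (hlow : ∀ z, z ∉ E → cp z = cp y → lev z ≤ i + 2 → y ≤ z) (hb : b (cp y) = 2)
    {β : P → ℕ} (hβy : β y = h) (hβ : ∀ w, w ∉ E → β w ≤ h)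
    (hβ0 : ∀ w, w ∉ E → cp w ≠ cp y → β w = 0)
    {m : ℕ} (hm : m ≤ Efs i h y y + 2) :
    (1 + X : ℤ[X]) ^ (∑ k, b k) ∣ ZB i E 0 β m := by
  have hElow := hE.1
  have hElev := hE.2.2.1
  have hcpE : ∀ x y, x ≤ y → x ∉ E → cp x = cp y := fun x y hxy hx =>
    hcp x y hxy (fun h' => hx (hE.2.1 h'))
  have hp : ∀ x' z : P, x' ≤ z → (x' ∉ E ∧ cp x' = cp y) → (z ∉ E ∧ cp z = cp y) :=
    pg_part_up hElow hcpE
  refine zb_prod hElow hElev cp hcpE b β fun M hM => ?_
  by_cases hMy : M (cp y) < Efs i h y y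
  · left
    refine ⟨cp y, ?_⟩
    exact part_zero hp (i := i) (k := h) (f := y) (s := y) ⟨hy, rfl⟩ ⟨hy, rfl⟩
      (by simp only [hβy]; exact le_rfl) (by simp only [hβy]; exact le_rfl) hMy
  · right
    intro k
    by_cases hk : k = cp y
    · subst hk
      rw [hb]
      have h1 : M (cp y) ≤ m := by
        rw [← hM]
        exact Finset.single_le_sum (fun _ _ => Nat.zero_le _) (mem_univ _)
      exact part_cone hp (x := y) ⟨hy, rfl⟩ C hih hq hh (fun z hz hlz => hlow z hz.1 hz.2 hlz)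
        (fun z => hβ z z.2.1) (by simp only [hβy]) (h1.trans hm)
    · have h1 : M (cp y) + M k ≤ m := by
        rw [← hM, ← Finset.sum_pair (f := M) (Ne.symm hk)]
        exact Finset.sum_le_sum_of_subset (Finset.subset_univ _)
      set Tw' := Tw.filter (fun t => t.1 ∉ E ∧ t.2 ∉ E) with hTw'
      have hsub : ∀ t ∈ Tw', t ∈ Tw := fun t ht => (mem_filter.mp ht).1
      refine factor hElow hElev cp hcpE b θ B (fun x hx => hE.2.2.2 x hx) Tw' 3
        (fun k => compT_mono (H k) hE (fun t ht => ?_)) (fun t ht => htw t (hsub t ht))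
        (fun t ht y hy => hE.2.1 (hmin t (hsub t ht) y hy))
        (fun t ht => (mem_filter.mp ht).2) k _ (fun x hx hxk => ?_) (M k) (by omega)
      · by_cases h2 : t.1 ∈ E
        · exact Or.inr (Or.inl h2)
        · by_cases h3 : t.2 ∈ E
          · exact Or.inr (Or.inr h3)
          · exact Or.inl (mem_filter.mpr ⟨ht, h2, h3⟩)
      · rw [hβ0 x hx (by rw [hxk]; exact hk)]
        exact Nat.zero_le _

open Classical in
/-- **The twins of a special cell**: the sums with the thresholds are the sums with the thresholds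
one larger, for energies at most the cost of the latter. -/
theorem spec_twin
    (hcp : ∀ x y, x ≤ y → x ∉ R → cp x = cp y)
    (H : ∀ k, CompDataT R cp k i (b k) θ B Tw)
    (htw : ∀ t ∈ Tw, TwinPair i θ 3 t.1 t.2) (hmin : ∀ t ∈ Tw, ∀ y < t.2, y ∈ R)
    {D : Finset P} (hD : Good i R B D) {x x' : P} (T : Twn i θ (x, x')) (hx : x ∉ D)
    (hx' : x' ∉ D) (hm' : ∀ y < x', y ∈ D) (hcx : cp x' = cp x)
    {h q : ℕ} (hθ : θ x + 1 = h) (hlx : lev x = i + h + 1) (hih : i + h = q + 1) (hq : 6 ≤ q)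
    (hh : 3 ≤ h)
    {co co' : P → ℕ × ℕ} (C : ConeAt x co q) (C' : ConeAt x' co' q)
    (hlow : ∀ z, z ∉ D → cp z = cp x → lev z ≤ i + 2 → x < z)
    (hb : b (cp x) = 2)
    {n : ℕ} (hn : n ≤ Efs i h x x + h + 1) :
    (1 + X : ℤ[X]) ^ (∑ k, b k) ∣
      ZB i D 0 (st2 x x' (θ x) (θ x + 1)) n - ZB i D 0 (st2 x x' h (h + 1)) n := by
  have hup : ∀ y, x < y ↔ x' < y := T.up
  have hll : lev x = lev x' := lev_eq_of_up hup
  have hne : x ≠ x' := T.ne
  have hθx : 1 ≤ θ x := T.one_le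
  have hθ' : θ x' = θ x := T.eq
  have hgood : ∀ E : Finset P, E = D ∪ dnf x ∨ E = D ∪ dnf x' → Good i R B E := by
    have key : ∀ y : P, y ∉ D → 1 ≤ θ y → Good i R B (D ∪ dnf y) := by
      intro y hyD hθy
      have hyR : y ∉ R := fun h => hyD (hD.2.1 h)
      have hly := (H (cp y)).lev y hyR rfl hθy
      refine ⟨?_, hD.2.1.trans subset_union_left, ?_, ?_⟩
      · intro a c hac hc
        rw [mem_union, mem_dnf] at hc ⊢
        rcases hc with hc | hc
        · exact Or.inl (hD.1 a c hac hc)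
        · exact Or.inr (hac.trans hc)
      · intro a ha
        rw [mem_union, mem_dnf] at ha
        rcases ha with ha | ha
        · exact hD.2.2.1 a ha
        · rcases eq_or_lt_of_le ha with h | h
          · rw [h]; exact hly
          · have := lev_strictAnti h; omega
      · intro a ha
        rw [mem_union, mem_dnf] at ha
        rcases ha with ha | ha
        · exact hD.2.2.2 a ha
        · by_cases haR : a ∈ R
          · exact hD.2.2.2 a (hD.2.1 haR)
          · exact (H (cp y)).base y hyR rfl hθy a ha haR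
    rintro E (rfl | rfl)
    · exact key x hx hθx
    · exact key x' hx' (by omega)
  have hEeq : Efs i h x x = Efs i h x' x' := by
    unfold Efs
    have e1 : univ.filter (fun y : P => x ≤ y ∨ x ≤ y) =
        insert x (univ.filter (fun y : P => x < y)) := by
      ext y
      rw [mem_filter, mem_insert, mem_filter, or_self]
      constructor
      · rintro ⟨-, h⟩
        rcases eq_or_lt_of_le h with h | h
        · exact Or.inl h.symm
        · exact Or.inr ⟨mem_univ _, h⟩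
      · rintro (h | ⟨-, h⟩)
        · exact ⟨mem_univ _, h.ge⟩
        · exact ⟨mem_univ _, h.le⟩
    have e2 : univ.filter (fun y : P => x' ≤ y ∨ x' ≤ y) =
        insert x' (univ.filter (fun y : P => x < y)) := by
      ext y
      rw [mem_filter, mem_insert, mem_filter, or_self, hup]
      constructor
      · rintro ⟨-, h⟩
        rcases eq_or_lt_of_le h with h | h
        · exact Or.inl h.symm
        · exact Or.inr ⟨mem_univ _, h⟩
      · rintro (h | ⟨-, h⟩)
        · exact ⟨mem_univ _, h.ge⟩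
        · exact ⟨mem_univ _, h.le⟩
    rw [e1, e2, Finset.sum_insert (by simp), Finset.sum_insert (by simp [hup]), hll]
  have key := T_stepG (p := (1 + X : ℤ[X]) ^ (∑ k, b k)) (i := i) (D := D) (n := n) (k := θ x)
    hne hup (by omega) hx hx' hm' (fun E hE => (hgood E hE).1)
    (fun E hE => (hgood E hE).2.2.1) (fun w => cp w = cp x) (fun d hd hdD w hdw => by
      have hdR : d ∉ R := fun h' => hdD (hD.2.1 h')
      have e1 : cp d = cp x := by
        rcases hd with hd | hd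
        · exact hcp d x hd hdR
        · exact (hcp d x' hd hdR).trans hcx
      exact (hcp d w hdw hdR).symm.trans e1) hθx ?_
  · rw [hθ] at key
    rw [show θ x + 2 = h + 1 by omega] at key
    rw [hθ]
    exact key
  · intro E hE y hy hyE β hβy hβ hβ0 m hmk
    rw [hθ] at hβy hβ
    have hDE : D ⊆ E := by
      rcases hE with rfl | rfl <;> exact subset_union_left
    have hEG := hgood E hE
    rcases hy with rfl | rfl
    · exact spec_one hcp H htw hmin hEG hyE C hih hq hh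
        (fun z hz hcz hlz => (hlow z (fun h' => hz (hDE h')) hcz hlz).le) hb hβy hβ hβ0 (by omega)
    · exact spec_one hcp H htw hmin hEG hyE C' hih hq hh
        (fun z hz hcz hlz => ((hup z).mp (hlow z (fun h' => hz (hDE h')) (hcz.trans hcx) hlz)).le)
        (by rw [hcx]; exact hb) hβy hβ
        (fun w hw hcw => hβ0 w hw (fun h' => hcw (h'.trans hcx.symm))) (by omega)

end Spec

/-- the cost of a twin pair with the constant threshold `lev - i - 1` -/
lemma tcst_const {i h : ℕ} {x x' : P} (T : Twn i (fun _ => h) (x, x'))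
    (hlx : lev x = i + h + 1) : tcst i (fun _ => h) (x, x') = Efs i h x x + h + 1 := by
  classical
  rw [tcst_eq T]
  have e1 : univ.filter (fun y : P => x ≤ y ∨ x ≤ y) =
      insert x (univ.filter (fun y : P => x < y)) := by
    ext y
    rw [mem_filter, mem_insert, mem_filter, or_self]
    constructor
    · rintro ⟨-, h⟩
      rcases eq_or_lt_of_le h with h | h
      · exact Or.inl h.symm
      · exact Or.inr ⟨mem_univ _, h⟩
    · rintro (h | ⟨-, h⟩)
      · exact ⟨mem_univ _, h.ge⟩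
      · exact ⟨mem_univ _, h.le⟩
  have e2 : Efs i h x x = h + ∑ y ∈ univ.filter (fun y : P => x < y), (lev y - i) := by
    unfold Efs
    rw [e1, Finset.sum_insert (by simp)]
    have h1 : min h (lev x - i) = h := by omega
    rw [h1]
    congr 1
    refine Finset.sum_congr rfl fun y hy => ?_
    have := lev_strictAnti (mem_filter.mp hy).2
    omega
  have e3 : ∑ y, (if x < y then min (h + 1) (lev y - i) else 0) =
      ∑ y ∈ univ.filter (fun y : P => x < y), (lev y - i) := by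
    rw [Finset.sum_filter]
    refine Finset.sum_congr rfl fun y _ => ?_
    split_ifs with hy
    · have := lev_strictAnti hy
      omega
    · rfl
  have e4 : ∑ y, (if (x, x').1 < y then min ((fun _ => h) (x, x').1 + 1) (lev y - i) else 0) =
      ∑ y, (if x < y then min (h + 1) (lev y - i) else 0) := rfl
  rw [e4, e3, e2]
  omega

end F4

end Pool.Agent.GaussPoset

end

/-! From `Pool.Agent.W_448f4_h70.GH` -/

section

/-!
Far data with special twins and larger labels at the windows `2`, `3` (MP_448cb3_co, S7).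
-/

namespace Pool.Agent.GaussPoset

set_option linter.unusedSectionVars false

open Polynomial Finset

universe u

section Big

variable {P : Type u} [Fintype P] [PartialOrder P] [DecidableEq P]

/-- larger labels, part by part, for `FarV`: the thresholds of the twins only have to cost more
than the remaining energy -/
theorem farV_big {i : ℕ} {N : Tops P → Finset P} {b : Tops P → ℕ} {θ : Tops P → P → ℕ}
    {B : Tops P → P → Prop} {Y : Finset P} {τ : P → P}
    (H : ∀ t, NatTop i t (b t) (N t) (θ t) (B t))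
    (T : TwSys (unnat N) Y topOf τ) (n0 k0 : ℕ) {S : ℤ[X]}
    (F : FarV P i (unnat N \ Y) (∑ t, b t)
      (hcan (unnat N \ Y) (thX Y τ (fun x => θ (topOf x) x))) S n0)
    (htw : ∀ x ∈ Y, Twn i (thX Y τ (fun x => θ (topOf x) x)) (τ x, x))
    (hcost : ∀ x ∈ Y, n0 < tcst i (thX Y τ (fun x => θ (topOf x) x)) (τ x, x) + k0)
    (h' : P → ℕ)
    (hle : ∀ z ∈ bdR (unnat N \ Y),
      hcan (unnat N \ Y) (thX Y τ (fun x => θ (topOf x) x)) z ≤ h' z)
    (hk0 : ∀ z ∈ bdR (unnat N \ Y),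
      hcan (unnat N \ Y) (thX Y τ (fun x => θ (topOf x) x)) z < h' z →
      k0 ≤ hcan (unnat N \ Y) (thX Y τ (fun x => θ (topOf x) x)) z)
    (hlev : ∀ z ∈ bdR (unnat N \ Y), h' z ≤ lev z - i)
    (hbig : ∀ g : P → ℕ, (∀ x, x ∉ unnat N \ Y → g x = 0) →
      (∀ z ∈ bdR (unnat N \ Y), g z < h' z) → ∀ (x z : P), x ∉ unnat N \ Y → z ∈ unnat N \ Y →
      z ⋖ x → thX Y τ (fun x => θ (topOf x) x) x < g z → ∀ m,
      m + ∑ x ∈ unnat N \ Y, g x ≤ n0 → (1 + X : ℤ[X]) ^ (b (topOf x)) ∣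
      ZB (P := {y : P // y ∉ unnat N \ Y ∧ topOf y = topOf x}) i ∅ 0
        (fun y => by classical exact ((unnat N \ Y).filter (fun z => z ⋖ (y : P))).sup g) m) :
    FarV P i (unnat N \ Y) (∑ t, b t) h' S n0 := by
  classical
  have HN := natSys_of_tops H
  have hRlev : ∀ x ∈ unnat N, i < lev x := by
    intro x hx
    by_contra hcon
    exact low_natural H (not_lt.mp hcon) hx
  refine F.raise hle hlev ?_
  rintro g g0 hg ⟨z0, hz0, hgz0⟩
  have hR := T.lower HN.lower
  have hk : k0 ≤ ∑ x ∈ unnat N \ Y, g x := by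
    have h1 := hk0 z0 hz0 (lt_of_le_of_lt hgz0 (hg z0 hz0))
    exact (h1.trans hgz0).trans
      (Finset.single_le_sum (f := g) (fun _ _ => Nat.zero_le _) (mem_filter.mp hz0).1)
  refine F4.zb_parts hR F.hlev topOf (T.cp' HN.cp) b g fun t m hm => ?_
  by_cases hall : ∀ x, x ∉ unnat N \ Y → topOf x = t →
      ((unnat N \ Y).filter (fun z => z ⋖ x)).sup g ≤ thX Y τ (fun x => θ (topOf x) x) x
  · refine factor hR F.hlev topOf (T.cp' HN.cp) b _ (fun x => x ∉ unnat N ∧ B (topOf x) x)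
      (fun x hx h => h.1 (mem_sdiff.mp hx).1) (pairsX Y τ) (m + 1) ?_ ?_ ?_ ?_ t _
      (fun x hx hxt => hall x hx hxt) m (by omega)
    · intro t
      refine CompData.toTwins ((H t).data N HN rfl _ _ ?_ ?_) T HN.lower hRlev
        (fun x hx h => h.1 hx)
      · intro x hx
        simp only [HN.topOf_eq hx]
      · intro x hx
        simp only [HN.topOf_eq hx, (HN.mem_iff.mp hx).1, not_false_eq_true, true_and]
    · intro t ht
      rw [mem_pairsX] at ht
      have h1 := htw t.2 ht.1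
      have h2 := hcost t.2 ht.1
      rw [← ht.2] at h1 h2
      exact h1.pair (by omega)
    · intro t ht y hy
      rw [mem_pairsX] at ht
      rw [mem_sdiff]
      exact ⟨HN.lower y _ hy.le (T.sub ht.1), fun h => T.anti _ ht.1 y h hy⟩
    · intro t ht
      rw [mem_pairsX] at ht
      rw [mem_sdiff, mem_sdiff, ht.2]
      exact ⟨fun h => T.nat _ ht.1 h.1, fun h => h.2 ht.1⟩
  · push Not at hall
    obtain ⟨x, hx, hxt, hlt⟩ := hall
    rw [Finset.lt_sup_iff] at hlt
    obtain ⟨z, hz, hlt⟩ := hlt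
    rw [mem_filter] at hz
    subst hxt
    exact hbig g g0 hg x z hx hz.1 hz.2 hlt m hm

end Big

end Pool.Agent.GaussPoset

namespace Pool.Agent.GaussPoset.Sm

set_option linter.unusedSectionVars false

open Polynomial Finset

universe u

variable {P : Type u} [Fintype P] [PartialOrder P] [DecidableEq P] {r j w K : ℕ}
  {N : Tops P → Finset P} {b : Tops P → ℕ} {θ : Tops P → P → ℕ}

/-- the cell `(2, j - 1)` of a stair -/
structure SpcC (j w : ℕ) (N : Tops P → Finset P) (b : Tops P → ℕ) (θ : Tops P → P → ℕ)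
    (x : P) (Nc : Finset P) (co : P → ℕ × ℕ) : Prop where
  nat : StairNat j w (topOf x) Nc co
  hN : N (topOf x) = natS Nc co
  hb : b (topOf x) = 2
  mem : x ∈ Nc
  co_eq : co x = (2, j - 1)
  th : θ (topOf x) x + 1 + w = j

/-- special cells -/
def Spc (j w : ℕ) (N : Tops P → Finset P) (b : Tops P → ℕ) (θ : Tops P → P → ℕ) (x : P) : Prop :=
  ∃ Nc co, SpcC j w N b θ x Nc co

lemma SpcC.lev {x : P} {Nc : Finset P} {co : P → ℕ × ℕ} (C : SpcC j w N b θ x Nc co)
    (hj : 1 ≤ j) : lev x = j + 1 := by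
  have := C.nat.chart.lev x C.mem
  rw [C.co_eq] at this
  simp only at this
  omega

/-- the cone of a special cell -/
lemma SpcC.cone {x : P} {Nc : Finset P} {co : P → ℕ × ℕ} (C : SpcC j w N b θ x Nc co) :
    F4.ConeAt x co (j - 1) := by
  have hC := C.nat.chart
  have hin : ∀ y, x ≤ y → y ∈ Nc := fun y hy => hC.up x C.mem y hy
  refine ⟨fun y z hy hz => hC.le_iff y (hin y hy) z (hin z hz), fun y hy => ?_,
    fun a b h1 h2 h3 => ?_⟩
  · have h1 := (hC.le_iff x C.mem y (hin y hy)).mp hy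
    rw [C.co_eq, Prod.le_def] at h1
    have h2 : (co y).1 ≤ (co y).2 := hC.mem y (hin y hy)
    exact ⟨h1.1, h2, h1.2⟩
  · obtain ⟨y, hy, hcy⟩ := hC.low x C.mem (a, b) (by
      rw [C.co_eq]
      exact ⟨h1, h3⟩) h2
    refine ⟨y, ?_, hcy⟩
    rw [hC.le_iff x C.mem y hy, hcy, C.co_eq]
    exact ⟨h1, h3⟩

/-- the cone of a twin -/
lemma _root_.Pool.Agent.GaussPoset.F4.ConeAt.twin {x x' : P} {co : P → ℕ × ℕ} {q : ℕ}
    (C : F4.ConeAt x co q) (hne : x ≠ x')
    (hup : ∀ y, x < y ↔ x' < y) : F4.ConeAt x' (fun y => if y = x' then co x else co y) q := by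
  have hnx : ∀ y, x < y → y ≠ x' := fun y hy h => by
    have h1 := (hup y).mp hy
    rw [h] at h1
    exact lt_irrefl _ h1
  have hgt : ∀ y, x' ≤ y → y ≠ x' → x < y := fun y hy h =>
    (hup y).mpr (lt_of_le_of_ne hy (Ne.symm h))
  refine ⟨fun y z hy hz => ?_, fun y hy => ?_, fun a b h1 h2 h3 => ?_⟩
  · by_cases h1 : y = x'
    · subst h1
      rw [if_pos rfl]
      by_cases h2 : z = y
      · subst h2
        rw [if_pos rfl]
        exact ⟨fun _ => le_rfl, fun _ => le_rfl⟩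
      · rw [if_neg h2]
        have h3 := hgt z hz h2
        exact ⟨fun _ => (C.le_iff x z le_rfl h3.le).mp h3.le, fun _ => hz⟩
    · have h2 := hgt y hy h1
      rw [if_neg h1]
      by_cases h3 : z = x'
      · subst h3
        rw [if_pos rfl]
        constructor
        · intro h4
          exact absurd (lt_of_le_of_lt h4 ((hup y).mp h2)) (lt_irrefl _)
        · intro h4
          exact absurd ((C.le_iff y x h2.le le_rfl).mpr h4) (not_le_of_gt h2)
      · rw [if_neg h3]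
        exact C.le_iff y z h2.le (hgt z hz h3).le
  · by_cases h1 : y = x'
    · rw [if_pos h1]
      exact C.mem x le_rfl
    · rw [if_neg h1]
      exact C.mem y (hgt y hy h1).le
  · obtain ⟨y, hy, hcy⟩ := C.surj a b h1 h2 h3
    rcases eq_or_lt_of_le hy with h4 | h4
    · refine ⟨x', le_rfl, ?_⟩
      simp only [if_true]
      rw [h4]
      exact hcy
    · refine ⟨y, ((hup y).mp h4).le, ?_⟩
      rw [if_neg (hnx y h4)]
      exact hcy

/-- the elements of small level in the part of a special cell are above it -/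
lemma SpcC.above {x : P} {Nc : Finset P} {co : P → ℕ × ℕ} (C : SpcC j w N b θ x Nc co)
    (hw : w ≤ 3) (hj : 6 ≤ j) {z : P} (hz : topOf z = topOf x)
    (hlz : Pool.Agent.GaussPoset.lev z ≤ w + 2) : x < z := by
  have hl := C.lev (by omega)
  have hzN : z ∈ Nc := by
    refine C.nat.strip (mem_lowPart.mpr ⟨?_, by omega⟩)
    rw [← hz]
    exact le_topOf z
  have h1 := C.nat.chart.lev z hzN
  have h2 : (co z).1 ≤ (co z).2 := C.nat.chart.mem z hzN
  refine lt_of_le_of_ne ?_ (by rintro rfl; omega)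
  rw [C.nat.chart.le_iff x C.mem z hzN, C.co_eq]
  exact ⟨by simp only; omega, by simp only; omega⟩

end Pool.Agent.GaussPoset.Sm

end

/-! From `Pool.Agent.W_448f4_h70.GI` -/

section

/-!
Far data with special twins at the windows `2`, `3` (MP_448cb3_co, S7).
-/

namespace Pool.Agent.GaussPoset.Sm

set_option linter.unusedSectionVars false

open Polynomial Finset

universe u

variable {P : Type u} [Fintype P] [PartialOrder P] [DecidableEq P] {r j w K : ℕ}
  {N : Tops P → Finset P} {b : Tops P → ℕ} {θ : Tops P → P → ℕ}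

open Classical in
/-- the cost of a twin -/
noncomputable def tcS (j w : ℕ) (N : Tops P → Finset P) (b : Tops P → ℕ) (θ : Tops P → P → ℕ)
    (x : P) : ℕ :=
  if Spc j w N b θ (twT N x) then tcst w (fun _ => j - w) (twT N x, x) else
    tcst w (thA N θ) (twT N x, x)

open Classical in
/-- the leading term of a twin -/
noncomputable def TmS (j w : ℕ) (N : Tops P → Finset P) (b : Tops P → ℕ) (θ : Tops P → P → ℕ)
    (x : P) : ℤ[X] :=
  if Spc j w N b θ (twT N x) then Tm w (fun _ => j - w) (twT N x, x) else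
    Tm w (thA N θ) (twT N x, x)

/-- a special pair with the larger thresholds -/
lemma Wk.twnS (W : Wk r j w K N b θ) {x : P} (hx : x ∈ twA N)
    (hs : Spc j w N b θ (twT N x)) : Twn w (fun _ => j - w) (twT N x, x) := by
  obtain ⟨Nc, co, C⟩ := hs
  have H := W.twn hx
  have hj := W.hj
  have hl := C.lev (by omega)
  refine ⟨H.ne, H.up, ?_, rfl, ?_, fun _ _ => Nat.le_succ _⟩
  · show 1 ≤ j - w
    omega
  · show j - w + 1 ≤ lev (twT N x) - w
    omega

/-- the cost of a special twin is larger by two -/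
lemma Wk.tcS_spc (W : Wk r j w K N b θ) {x : P} (hx : x ∈ twA N)
    (hs : Spc j w N b θ (twT N x)) :
    tcS j w N b θ x = tcst w (thA N θ) (twT N x, x) + 2 := by
  classical
  have T' := W.twnS hx hs
  have T := W.twn hx
  have hj := W.hj
  unfold tcS
  rw [if_pos hs, tcst_eq T', tcst_eq T]
  obtain ⟨Nc, co, C⟩ := hs
  have hl := C.lev (by omega)
  have hth := C.th
  have e1 : thA N θ (twT N x) = θ (topOf (twT N x)) (twT N x) :=
    W.thA_nat (W.twSys.nat x hx)
  have e2 : ∑ y, (if (twT N x, x).1 < y then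
      min ((fun _ => j - w) (twT N x, x).1 + 1) (lev y - w) else 0) =
      ∑ y, (if (twT N x, x).1 < y then min (thA N θ (twT N x, x).1 + 1) (lev y - w) else 0) := by
    refine Finset.sum_congr rfl fun y _ => ?_
    split_ifs with hy
    · have h1 := lev_strictAnti hy
      simp only at h1 ⊢
      rw [e1]
      omega
    · rfl
  rw [e2]
  simp only
  rw [e1]
  omega

/-- component data at a window -/
lemma Wk.compT (W : Wk r j w K N b θ) {B : Tops P → P → Prop}
    (hB : ∀ t, NatTop w t (b t) (N t) (θ t) (B t)) (t : Tops P) :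
    CompDataT (rA N) topOf t w (b t) (thA N θ) (fun x => x ∉ unnat N ∧ B (topOf x) x)
      (pairsX (twA N) (twT N)) := by
  have HN := W.natSys
  have hRlev : ∀ x ∈ unnat N, w < lev x := fun x hx => by
    have := W.lt_lev hx
    have := W.hj
    omega
  refine CompData.toTwins ((hB t).data N HN rfl _ _ ?_ ?_) W.twSys HN.lower hRlev
    (fun x hx h => h.1 hx)
  · intro x hx
    simp only [HN.topOf_eq hx]
  · intro x hx
    simp only [HN.topOf_eq hx, (HN.mem_iff.mp hx).1, not_false_eq_true, true_and]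

/-- **The far window theorem with special twins.** -/
theorem Wk.farS0 (W : Wk r j w K N b θ) (h7 : 7 ≤ j) (n0 : ℕ)
    (hcost : ∀ x ∈ twA N, n0 ≤ tcS j w N b θ x) :
    FarV P w (rA N) (lv P w).card (hA N θ)
      (∑ x ∈ (twA N).filter (fun x => tcS j w N b θ x = n0), TmS j w N b θ x) n0 := by
  classical
  have H := W.gt.H
  have HN := W.natSys
  have hj := W.hj
  have hw := W.hw
  have TS := W.twSys
  choose B hB using fun t => (W.top t).natTop H.gradedBelow
  have hRl : ∀ x ∈ rA N, w < lev x := fun x hx => by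
    have := W.lt_lev (mem_rA.mp hx).1
    omega
  have hcp := TS.cp' HN.cp
  have hmin : ∀ x ∈ twA N, ∀ y < x, y ∈ rA N := fun x hx y hy =>
    mem_rA.mpr ⟨HN.lower y _ hy.le (TS.sub hx), fun h => TS.anti _ hx y h hy⟩
  have hmin' : ∀ t ∈ pairsX (twA N) (twT N), ∀ y < t.2, y ∈ rA N := fun t ht y hy => by
    rw [mem_pairsX] at ht
    exact hmin _ ht.1 y hy
  have htw3 : ∀ t ∈ pairsX (twA N) (twT N), TwinPair w (thA N θ) 3 t.1 t.2 := by
    intro t ht
    rw [mem_pairsX] at ht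
    have h1 := W.twn ht.1
    rw [← ht.2] at h1
    refine h1.pair ?_
    rw [tcst_eq h1]
    have := h1.one_le
    omega
  -- the sums with two high labels
  have key : ∀ x ∈ twA N, ∀ D, Good w (unnat N \ twA N)
      (fun x => x ∉ unnat N ∧ B (topOf x) x) D → twT N x ∉ D → x ∉ D → ∀ n ≤ n0,
      (1 + X : ℤ[X]) ^ (∑ t, b t) ∣ ZB w D 0
        (st2 (twT N x) x (thA N θ (twT N x)) (thA N θ (twT N x) + 1)) n -
        (if tcS j w N b θ x = n then TmS j w N b θ x else 0) := by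
    intro x hx D hD h1 h2 n hn
    have T := W.twn hx
    have hl := (W.tw_cases hx).1
    have hxn := TS.nat x hx
    have hup : ∀ y, twT N x < y ↔ x < y := TS.up x hx
    have hDl : ∀ d ∈ D, w < lev d := hD.2.2.1
    have hupD : ∀ y, twT N x < y → y ∉ D := fun y hy hyD => h1 (hD.1 _ _ hy.le hyD)
    by_cases hs : Spc j w N b θ (twT N x)
    · have T' := W.twnS hx hs
      have hs' := hs
      obtain ⟨Nc, co, C⟩ := hs
      have hlC := C.lev (by omega)
      have e1 : thA N θ (twT N x) = θ (topOf (twT N x)) (twT N x) := W.thA_nat hxn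
      have hth := C.th
      have hC := hcost x hx
      have e3 : tcS j w N b θ x = tcst w (fun _ => j - w) (twT N x, x) := by
        unfold tcS
        rw [if_pos hs']
      have e4 : TmS j w N b θ x = Tm w (fun _ => j - w) (twT N x, x) := by
        unfold TmS
        rw [if_pos hs']
      have hlC2 : lev (twT N x) = w + (j - w) + 1 := by omega
      have e5 := F4.tcst_const T' hlC2
      have hne : twT N x ≠ x := T.ne
      have k1 := F4.spec_twin (R := rA N) (cp := topOf) (b := b) (θ := thA N θ)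
        (B := fun x => x ∉ unnat N ∧ B (topOf x) x) (Tw := pairsX (twA N) (twT N)) hcp
        (W.compT hB) htw3 hmin' hD T h1 h2 (fun y hy => hD.2.1 (hmin x hx y hy)) (TS.cp x hx).symm
        (h := j - w) (q := j - 1) (by rw [e1]; omega) hlC2 (by omega) (by omega) (by omega)
        C.cone (C.cone.twin hne hup)
        (fun z _ hcz hlz => C.above hw (by omega) hcz hlz) C.hb (n := n) (by omega)
      have k2 := ZB_st2_exact (D := D) T' (by omega) hDl h1 h2 hupD (n0 := n)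
        (by rw [← e3]; omega)
      rw [e3, e4, ← k2]
      exact k1
    · have e3 : tcS j w N b θ x = tcst w (thA N θ) (twT N x, x) := by
        unfold tcS
        rw [if_neg hs]
      have e4 : TmS j w N b θ x = Tm w (thA N θ) (twT N x, x) := by
        unfold TmS
        rw [if_neg hs]
      have hC := hcost x hx
      have k2 := ZB_st2_exact (D := D) T (by omega) hDl h1 h2 hupD (n0 := n)
        (by rw [← e3]; omega)
      rw [e3, e4, k2, sub_self]
      exact dvd_zero _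
  have F := farV_of_tops H.gradedBelow hB TS n0 (fun x hx => W.twn hx)
    (fun x => tcS j w N b θ x = n0) (fun x => TmS j w N b θ x)
    (fun x hx D hD h1 h2 n hn => by
      have k := key x hx D hD h1 h2 n hn.le
      have hC := hcost x hx
      rw [if_neg (by omega), sub_zero] at k
      exact k)
    (fun x hx D hD h1 h2 => by
      have k := key x hx D hD h1 h2 n0 le_rfl
      convert k)
  rw [W.sum_b] at F
  convert F

end Pool.Agent.GaussPoset.Sm

end

/-! From `Pool.Agent.W_448jx_h67.WeE` -/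

section

/-!
Two elements far apart give two peaks of an admissible configuration, refined
(MP_448cb3_co, HJoin10).
-/

namespace Pool.Agent.GaussPoset

set_option linter.unusedSectionVars false

open Polynomial Finset

universe u

namespace F4

section Two

variable {Q : Type u} [Fintype Q] [PartialOrder Q] [DecidableEq Q]

/-- a common peak costs a lot -/
lemma cost_above {i c : ℕ} {y w : Q} {e : Q → ℕ} (he : ∑ x, e x ≤ c) (hyw : y < w)
    (hy : lev y ≤ lev w + 1) (h1 : 0 ≤ rho i e y) (h0 : 0 ≤ rho i e w)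
    (hb : 2 * lev w + c + 1 < 2 * i) : False := by
  classical
  have h2 : e y + e w ≤ ∑ x, e x := by
    rw [← Finset.sum_pair (f := e) hyw.ne]
    exact Finset.sum_le_sum_of_subset (Finset.subset_univ _)
  unfold rho at h0 h1
  omega

/-- a peak above `u` -/
lemma exists_pk_above' {i c : ℕ} {u v : Q} (hu : i ≤ lev u) (hc : ∀ z, u ≤ z ∨ v ≤ z) {e : Q → ℕ}
    (he : ∑ x, e x ≤ c) (hA : Adm i e)
    (hb : ∀ z, u ≤ z → v ≤ z → 2 * lev z + c + 1 < 2 * i)
    (hst : ∀ z, u ≤ z → v ≤ z → ∃ y, u ≤ y ∧ y < z ∧ lev y ≤ lev z + 1) :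
    ∃ w ∈ Pk i e, u ≤ w ∧ ¬ v ≤ w := by
  classical
  obtain ⟨a, ha1, ha⟩ := Finset.exists_max_image (univ.filter (fun y : Q => u ≤ y))
    (fun y => rho i e y) ⟨u, by simp⟩
  have hau : u ≤ a := by simpa using ha1
  have hmax : ∀ y, u ≤ y → rho i e y ≤ rho i e a := fun y hy => ha y (by simpa using hy)
  let S : Finset Q := univ.filter (fun y => u ≤ y ∧ rho i e y = rho i e a)
  obtain ⟨w, hw⟩ := S.exists_maximal ⟨a, by simp [S, hau]⟩
  have hw1 : u ≤ w ∧ rho i e w = rho i e a := by simpa [S] using hw.1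
  have h0 : 0 ≤ rho i e a := by
    have h1 := hmax u le_rfl
    have h2 : 0 ≤ rho i e u := by unfold rho; omega
    exact h2.trans h1
  have hnv : ¬ v ≤ w := by
    intro hv
    obtain ⟨y, y1, y2, y3⟩ := hst w hw1.1 hv
    refine cost_above he y2 y3 ?_ (by rw [hw1.2]; exact h0) (hb w hw1.1 hv)
    by_contra hcon
    exact hA y ⟨Or.inl (not_le.mp hcon), ⟨w, y2, by rw [hw1.2]; exact hmax y y1⟩⟩
  refine ⟨w, ?_, hw1.1, hnv⟩
  simp only [Pk, mem_filter, mem_univ, true_and]
  constructor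
  · rintro (h1 | ⟨z, hz, h1⟩)
    · rw [hw1.2] at h1; omega
    · rcases hc z with h2 | h2
      · rw [hw1.2] at h1
        exact absurd (hmax z h2) (not_le.mpr h1)
      · exact hnv (h2.trans hz.le)
  · rintro ⟨y, hy, h1⟩
    have h2 : rho i e y = rho i e a :=
      le_antisymm (hmax y (hw1.1.trans hy.le)) (by rw [← hw1.2]; exact h1)
    have h3 : y ∈ S := by simp [S, h2, hw1.1.trans hy.le]
    exact absurd (hw.2 h3 hy.le) (not_le_of_gt hy)

/-- order two for small energies, refined -/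
theorem dvd_Z_two' {i c : ℕ} {x1 x2 : Q} (h1 : i ≤ lev x1) (h2 : i ≤ lev x2)
    (hc : ∀ z, x1 ≤ z ∨ x2 ≤ z) (hb : ∀ z, x1 ≤ z → x2 ≤ z → 2 * lev z + c + 1 < 2 * i)
    (s1 : ∀ z, x1 ≤ z → x2 ≤ z → ∃ y, x1 ≤ y ∧ y < z ∧ lev y ≤ lev z + 1)
    (s2 : ∀ z, x1 ≤ z → x2 ≤ z → ∃ y, x2 ≤ y ∧ y < z ∧ lev y ≤ lev z + 1) :
    (1 + X : ℤ[X]) ^ 2 ∣ Z Q i c := by
  classical
  unfold Z
  refine Finset.dvd_sum fun e he => ?_
  rw [mem_piAntidiag] at he
  split_ifs with h
  · refine dvd_mul_of_dvd_right (pow_dvd_pow _ ?_) _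
    obtain ⟨w1, a1, b1, c1⟩ := exists_pk_above' h1 hc he.1.le h hb s1
    obtain ⟨w2, a2, b2, c2⟩ := exists_pk_above' h2 (fun z => (hc z).symm) he.1.le h
      (fun z g1 g2 => hb z g2 g1) (fun z g1 g2 => s2 z g2 g1)
    have hne : w1 ≠ w2 := by
      rintro rfl
      exact c1 b2
    have h3 : ({w1, w2} : Finset Q) ⊆ Pk i e := by
      intro x hx
      rw [mem_insert, mem_singleton] at hx
      rcases hx with rfl | rfl
      · exact a1
      · exact a2
    have h4 := Finset.card_le_card h3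
    rwa [Finset.card_pair hne] at h4
  · exact dvd_zero _

end Two

section Part

variable {P : Type u} [Fintype P] [PartialOrder P] [DecidableEq P]
variable {p : P → Prop} [DecidablePred p]

/-- **order two of a part with large bounds at two far elements, for small own energies** -/
theorem part_two' (hgr : GradedBelow P) (hp : ∀ x y, x ≤ y → p x → p y) {i k M c0 : ℕ} {f s : P} (hf : p f) (hs : p s)
    (h1 : i + k ≤ lev f) (h2 : i + k ≤ lev s)
    (hlow : ∀ y, p y → lev y ≤ M → f ≤ y ∨ s ≤ y) (hM : i + c0 ≤ M) (hk : c0 < k)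
    (hb : ∀ y, f ≤ y → s ≤ y → 2 * lev y + c0 + 1 < 2 * (i + k))
    {B : {x // p x} → ℕ} (hB : ∀ x, B x ≤ k) (hBf : B ⟨f, hf⟩ = k) (hBs : B ⟨s, hs⟩ = k) {n : ℕ}
    (hn : n ≤ Efs i k f s + c0) : (1 + X : ℤ[X]) ^ 2 ∣ ZB (P := {x // p x}) i ∅ 0 B n := by
  classical
  refine ZB_dvd_upL (m := Efs i k f s + c0) hB (fun L hL hBL c hc => ?_) hn
  have hl : ∀ x : {x // p x}, lev x = lev (x : P) := lev_subtype hp
  have hfL : (⟨f, hf⟩ : {x // p x}) ∈ L := hBL _ hBf
  have hsL : (⟨s, hs⟩ : {x // p x}) ∈ L := hBL _ hBs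
  have hsum : ∑ x ∈ L, min k (lev x - i) =
      ∑ y ∈ L.map (Function.Embedding.subtype p), min k (lev y - i) := by
    rw [Finset.sum_map]
    refine Finset.sum_congr rfl fun x _ => ?_
    rw [hl]
    rfl
  rw [hsum] at hc
  have hsub : univ.filter (fun y : P => f ≤ y ∨ s ≤ y) ⊆
      L.map (Function.Embedding.subtype p) := by
    intro y hy
    rw [mem_filter] at hy
    rw [mem_map]
    rcases hy.2 with h3 | h3
    · exact ⟨⟨y, hp _ _ h3 hf⟩, hL ⟨f, hf⟩ _ h3 hfL, rfl⟩
    · exact ⟨⟨y, hp _ _ h3 hs⟩, hL ⟨s, hs⟩ _ h3 hsL, rfl⟩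
  have hE : Efs i k f s ≤ ∑ y ∈ L.map (Function.Embedding.subtype p), min k (lev y - i) := by
    unfold Efs
    exact Finset.sum_le_sum_of_subset hsub
  have hall : ∀ x ∈ L, f ≤ (x : P) ∨ s ≤ (x : P) := by
    intro x hx
    by_contra hcon
    have h3 : M < lev (x : P) := by
      by_contra h4
      exact hcon (hlow x x.2 (not_lt.mp h4))
    have h5 : insert (x : P) (univ.filter (fun y : P => f ≤ y ∨ s ≤ y)) ⊆
        L.map (Function.Embedding.subtype p) := by
      intro y hy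
      rw [mem_insert] at hy
      rcases hy with rfl | hy
      · rw [mem_map]; exact ⟨x, hx, rfl⟩
      · exact hsub hy
    have h6 := Finset.sum_le_sum_of_subset (f := fun y : P => min k (lev y - i)) h5
    rw [Finset.sum_insert (by
      rw [mem_filter]
      exact fun h => hcon h.2)] at h6
    have h7 : Efs i k f s = ∑ y ∈ univ.filter (fun y : P => f ≤ y ∨ s ≤ y), min k (lev y - i) := by
      unfold Efs
      rfl
    have h8 : c0 < min k (lev (x : P) - i) := by
      rw [lt_min_iff]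
      omega
    omega
  have hlL : ∀ x : {x // x ∈ L}, lev x = lev ((x : {x // p x}) : P) := by
    intro x
    rw [lev_subtype (p := fun x => x ∈ L) hL x, hl]
  refine dvd_Z_two' (x1 := ⟨⟨f, hf⟩, hfL⟩) (x2 := ⟨⟨s, hs⟩, hsL⟩) ?_ ?_ ?_ ?_ ?_ ?_
  · rw [hlL]; exact h1
  · rw [hlL]; exact h2
  · intro z
    exact hall z.1 z.2
  · intro z g1 g2
    rw [hlL]
    have := hb (z : {x // p x}) g1 g2
    omega
  · intro z g1 g2
    have hz := hb (z : {x // p x}) g1 g2
    have hlt : f < ((z : {x // p x}) : P) := lt_of_le_of_ne g1 (by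
      intro h
      rw [← h] at hz
      omega)
    obtain ⟨y, hy1, hy2, hy3⟩ := hgr _ _ hlt
    refine ⟨⟨⟨y, hp _ _ hy1 hf⟩, hL ⟨f, hf⟩ _ hy1 hfL⟩, hy1, hy2, ?_⟩
    rw [hlL, hlL]
    exact hy3.le
  · intro z g1 g2
    have hz := hb (z : {x // p x}) g1 g2
    have hlt : s < ((z : {x // p x}) : P) := lt_of_le_of_ne g2 (by
      intro h
      rw [← h] at hz
      omega)
    obtain ⟨y, hy1, hy2, hy3⟩ := hgr _ _ hlt
    refine ⟨⟨⟨y, hp _ _ hy1 hs⟩, hL ⟨s, hs⟩ _ hy1 hsL⟩, hy1, hy2, ?_⟩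
    rw [hlL, hlL]
    exact hy3.le

end Part

end F4

end Pool.Agent.GaussPoset

end

/-! From `Pool.Agent.W_448jx_h67.WeF` -/

section

/-!
The windows `2`, `3` at `j = 10` with the component of the end `(5, 25, 0)`: far data with special
twins (MP_448cb3_co, HJoin10)
-/

namespace Pool.Agent.GaussPoset.Sm

set_option linter.unusedSectionVars false

open Polynomial Finset

universe u

variable {P : Type u} [Fintype P] [PartialOrder P] [DecidableEq P] {r j w K : ℕ}
  {N : Tops P → Finset P} {b : Tops P → ℕ} {θ : Tops P → P → ℕ}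

/-- a special pair with the larger thresholds -/
lemma We.twnS (W : We r j w K N b θ) {x : P} (hx : x ∈ twA N)
    (hs : Spc j w N b θ (twT N x)) : Twn w (fun _ => j - w) (twT N x, x) := by
  obtain ⟨Nc, co, C⟩ := hs
  have H := W.twn hx
  have hj := W.hj
  have hl := C.lev (by omega)
  refine ⟨H.ne, H.up, ?_, rfl, ?_, fun _ _ => Nat.le_succ _⟩
  · show 1 ≤ j - w
    omega
  · show j - w + 1 ≤ lev (twT N x) - w
    omega

/-- the cost of a special twin is larger by two -/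
lemma We.tcS_spc (W : We r j w K N b θ) {x : P} (hx : x ∈ twA N)
    (hs : Spc j w N b θ (twT N x)) :
    tcS j w N b θ x = tcst w (thA N θ) (twT N x, x) + 2 := by
  classical
  have T' := W.twnS hx hs
  have T := W.twn hx
  have hj := W.hj
  unfold tcS
  rw [if_pos hs, tcst_eq T', tcst_eq T]
  obtain ⟨Nc, co, C⟩ := hs
  have hl := C.lev (by omega)
  have hth := C.th
  have e1 : thA N θ (twT N x) = θ (topOf (twT N x)) (twT N x) :=
    W.thA_nat (W.twSys.nat x hx)
  have e2 : ∑ y, (if (twT N x, x).1 < y then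
      min ((fun _ => j - w) (twT N x, x).1 + 1) (lev y - w) else 0) =
      ∑ y, (if (twT N x, x).1 < y then min (thA N θ (twT N x, x).1 + 1) (lev y - w) else 0) := by
    refine Finset.sum_congr rfl fun y _ => ?_
    split_ifs with hy
    · have h1 := lev_strictAnti hy
      simp only at h1 ⊢
      rw [e1]
      omega
    · rfl
  rw [e2]
  simp only
  rw [e1]
  omega

/-- component data at a window -/
lemma We.compT (W : We r j w K N b θ) {B : Tops P → P → Prop}
    (hB : ∀ t, NatTop w t (b t) (N t) (θ t) (B t)) (t : Tops P) :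
    CompDataT (rA N) topOf t w (b t) (thA N θ) (fun x => x ∉ unnat N ∧ B (topOf x) x)
      (pairsX (twA N) (twT N)) := by
  have HN := W.natSys
  have hRlev : ∀ x ∈ unnat N, w < lev x := fun x hx => by
    have := W.lt_lev hx
    have := W.hj
    omega
  refine CompData.toTwins ((hB t).data N HN rfl _ _ ?_ ?_) W.twSys HN.lower hRlev
    (fun x hx h => h.1 hx)
  · intro x hx
    simp only [HN.topOf_eq hx]
  · intro x hx
    simp only [HN.topOf_eq hx, (HN.mem_iff.mp hx).1, not_false_eq_true, true_and]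

/-- **The far window theorem with special twins.** -/
theorem We.farS0 (W : We r j w K N b θ) (h7 : 7 ≤ j) (n0 : ℕ)
    (hcost : ∀ x ∈ twA N, n0 ≤ tcS j w N b θ x) :
    FarV P w (rA N) (lv P w).card (hA N θ)
      (∑ x ∈ (twA N).filter (fun x => tcS j w N b θ x = n0), TmS j w N b θ x) n0 := by
  classical
  have H := W.gt.H
  have HN := W.natSys
  have hj := W.hj
  have hw := W.hw
  have TS := W.twSys
  choose B hB using W.nt
  have hRl : ∀ x ∈ rA N, w < lev x := fun x hx => by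
    have := W.lt_lev (mem_rA.mp hx).1
    omega
  have hcp := TS.cp' HN.cp
  have hmin : ∀ x ∈ twA N, ∀ y < x, y ∈ rA N := fun x hx y hy =>
    mem_rA.mpr ⟨HN.lower y _ hy.le (TS.sub hx), fun h => TS.anti _ hx y h hy⟩
  have hmin' : ∀ t ∈ pairsX (twA N) (twT N), ∀ y < t.2, y ∈ rA N := fun t ht y hy => by
    rw [mem_pairsX] at ht
    exact hmin _ ht.1 y hy
  have htw3 : ∀ t ∈ pairsX (twA N) (twT N), TwinPair w (thA N θ) 3 t.1 t.2 := by
    intro t ht
    rw [mem_pairsX] at ht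
    have h1 := W.twn ht.1
    rw [← ht.2] at h1
    refine h1.pair ?_
    rw [tcst_eq h1]
    have := h1.one_le
    omega
  -- the sums with two high labels
  have key : ∀ x ∈ twA N, ∀ D, Good w (unnat N \ twA N)
      (fun x => x ∉ unnat N ∧ B (topOf x) x) D → twT N x ∉ D → x ∉ D → ∀ n ≤ n0,
      (1 + X : ℤ[X]) ^ (∑ t, b t) ∣ ZB w D 0
        (st2 (twT N x) x (thA N θ (twT N x)) (thA N θ (twT N x) + 1)) n -
        (if tcS j w N b θ x = n then TmS j w N b θ x else 0) := by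
    intro x hx D hD h1 h2 n hn
    have T := W.twn hx
    have hl := (W.tw_cases hx).1
    have hxn := TS.nat x hx
    have hup : ∀ y, twT N x < y ↔ x < y := TS.up x hx
    have hDl : ∀ d ∈ D, w < lev d := hD.2.2.1
    have hupD : ∀ y, twT N x < y → y ∉ D := fun y hy hyD => h1 (hD.1 _ _ hy.le hyD)
    by_cases hs : Spc j w N b θ (twT N x)
    · have T' := W.twnS hx hs
      have hs' := hs
      obtain ⟨Nc, co, C⟩ := hs
      have hlC := C.lev (by omega)
      have e1 : thA N θ (twT N x) = θ (topOf (twT N x)) (twT N x) := W.thA_nat hxn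
      have hth := C.th
      have hC := hcost x hx
      have e3 : tcS j w N b θ x = tcst w (fun _ => j - w) (twT N x, x) := by
        unfold tcS
        rw [if_pos hs']
      have e4 : TmS j w N b θ x = Tm w (fun _ => j - w) (twT N x, x) := by
        unfold TmS
        rw [if_pos hs']
      have hlC2 : lev (twT N x) = w + (j - w) + 1 := by omega
      have e5 := F4.tcst_const T' hlC2
      have hne : twT N x ≠ x := T.ne
      have k1 := F4.spec_twin (R := rA N) (cp := topOf) (b := b) (θ := thA N θ)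
        (B := fun x => x ∉ unnat N ∧ B (topOf x) x) (Tw := pairsX (twA N) (twT N)) hcp
        (W.compT hB) htw3 hmin' hD T h1 h2 (fun y hy => hD.2.1 (hmin x hx y hy)) (TS.cp x hx).symm
        (h := j - w) (q := j - 1) (by rw [e1]; omega) hlC2 (by omega) (by omega) (by omega)
        C.cone (C.cone.twin hne hup)
        (fun z _ hcz hlz => C.above hw (by omega) hcz hlz) C.hb (n := n) (by omega)
      have k2 := ZB_st2_exact (D := D) T' (by omega) hDl h1 h2 hupD (n0 := n)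
        (by rw [← e3]; omega)
      rw [e3, e4, ← k2]
      exact k1
    · have e3 : tcS j w N b θ x = tcst w (thA N θ) (twT N x, x) := by
        unfold tcS
        rw [if_neg hs]
      have e4 : TmS j w N b θ x = Tm w (thA N θ) (twT N x, x) := by
        unfold TmS
        rw [if_neg hs]
      have hC := hcost x hx
      have k2 := ZB_st2_exact (D := D) T (by omega) hDl h1 h2 hupD (n0 := n)
        (by rw [← e3]; omega)
      rw [e3, e4, k2, sub_self]
      exact dvd_zero _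
  have F := farV_of_tops H.gradedBelow hB TS n0 (fun x hx => W.twn hx)
    (fun x => tcS j w N b θ x = n0) (fun x => TmS j w N b θ x)
    (fun x hx D hD h1 h2 n hn => by
      have k := key x hx D hD h1 h2 n hn.le
      have hC := hcost x hx
      rw [if_neg (by omega), sub_zero] at k
      exact k)
    (fun x hx D hD h1 h2 => by
      have k := key x hx D hD h1 h2 n0 le_rfl
      convert k)
  rw [W.sum_b] at F
  convert F

end Pool.Agent.GaussPoset.Sm

end

/-! From `Pool.Agent.W_448s7s_h5.TuH` -/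

section

/-!
The inclusion-exclusion with larger labels at some pendants below the defect tops
(MP_448cb3_co, S7, flips).
-/

namespace Pool.Agent.GaussPoset.Ew

set_option linter.unusedSectionVars false

open Polynomial Finset

universe u

variable {P : Type u} [Fintype P] [PartialOrder P] [DecidableEq P]
variable {i : ℕ} {N N1 : Tops P → Finset P} {b : Tops P → ℕ} {θ θ1 : Tops P → P → ℕ}
  {E S : Finset (Tops P)} {Y : Finset P} {τ : P → P} {Z : Finset P} {n : ℕ}

open Classical in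
/-- the larger labels: one more at the elements of `Z` below the tops in `S` -/
noncomputable def dl (Z : Finset P) (S : Finset (Tops P)) (z : P) : ℕ :=
  if z ∈ Z ∧ ∃ x, z ⋖ x ∧ topOf x ∈ S then 1 else 0

lemma dl_of {z x : P} (h : z ∈ Z) (hx : z ⋖ x) (ht : topOf x ∈ S) : dl Z S z = 1 :=
  if_pos ⟨h, x, hx, ht⟩

lemma dl_not {z : P} (h : ¬ (z ∈ Z ∧ ∃ x, z ⋖ x ∧ topOf x ∈ S)) : dl Z S z = 0 := if_neg h

lemma dl_mono (hS : S ⊆ E) (z : P) : dl Z S z ≤ dl Z E z := by
  by_cases h : z ∈ Z ∧ ∃ x, z ⋖ x ∧ topOf x ∈ S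
  · obtain ⟨h1, x, h2, h3⟩ := h
    rw [dl_of h1 h2 h3, dl_of h1 h2 (hS h3)]
  · rw [dl_not h]
    exact Nat.zero_le _

/-- pendants below the defect tops with larger labels, energies at most `n` -/
structure Fl (i : ℕ) (E : Finset (Tops P)) (N N1 : Tops P → Finset P) (b : Tops P → ℕ)
    (θ1 : Tops P → P → ℕ) (Y : Finset P) (Z : Finset P) (n : ℕ) : Prop where
  mem : ∀ z ∈ Z, z ∈ RS E N N1 Y E
  cov : ∀ z ∈ Z, ∃ x, z ⋖ x ∧ (∀ y, z ⋖ y → y = x) ∧ topOf x ∈ E ∧ x ∈ N (topOf x) ∧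
    θ1 (topOf x) x + 2 ≤ lev z - i
  big : ∀ S, S ⊆ E → ∀ z ∈ Z, ∀ x, z ⋖ x → topOf x ∈ S → ∀ g : P → ℕ,
    g z = θ1 (topOf x) x + 1 → ∀ m, m + ∑ x ∈ RS E N N1 Y S, g x ≤ n →
    (1 + X : ℤ[X]) ^ (b (topOf x) - 1) ∣
      ZB (P := {y : P // y ∉ RS E N N1 Y S ∧ topOf y = topOf x}) i ∅ 0
        (fun y => by classical exact ((RS E N N1 Y S).filter (fun z => z ⋖ (y : P))).sup g) m

/-- the larger labels of the system `S` -/
noncomputable def hR (Z : Finset P) (E : Finset (Tops P)) (N N1 : Tops P → Finset P)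
    (θ θ1 : Tops P → P → ℕ) (Y : Finset P) (τ : P → P) (S : Finset (Tops P)) (z : P) : ℕ :=
  Ew.hS E N N1 θ θ1 Y τ S z + dl Z S z

/-- all labels of the far set are at most the thresholds, one more at `Z` -/
def OkR (Z : Finset P) (S : Finset (Tops P)) (R : Finset P) (θ e : P → ℕ) : Prop :=
  ∀ z ∈ R, ∀ x, x ∉ R → z ⋖ x → e z ≤ θ x + dl Z S z

/-- the part without dangerous elements, with a prescribed sum -/
theorem FarV_dvd_ND {i : ℕ} {R : Finset P} {h : P → ℕ} {b : ℕ} {T : ℤ[X]} {n : ℕ}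
    (H : FarV P i R b h T n) (hT : T = 0) : (1 + X : ℤ[X]) ^ b ∣ ND i R h n := by
  refine GaussPoset.dvd_ND H.hlev _ n fun g h1 h2 => ?_
  by_cases hg : g = 0
  · have h3 := H.zero
    rw [hT, sub_zero] at h3
    rw [hg]
    exact h3
  · exact H.clean g h1 h2 hg

section

variable (W : EW i E N N1 b θ θ1 Y τ) (G : Fl i E N N1 b θ1 Y Z n)

include W G

/-- the cover of an element of `Z` -/
lemma EW.fl_cov (hS : S ⊆ E) {z : P} (hz : z ∈ Z) : ∃ x, z ⋖ x ∧ (∀ y, z ⋖ y → y = x) ∧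
    topOf x ∈ E ∧ z ∈ RS E N N1 Y S ∧ x ∉ RS E N N1 Y S ∧ θ1 (topOf x) x + 2 ≤ lev z - i ∧
    (topOf x ∈ S → thS E θ θ1 Y τ S x = θ1 (topOf x) x) := by
  obtain ⟨x, h1, h2, h3, h4, h5⟩ := G.cov z hz
  have HS := W.natSysS hS
  have hxS : x ∈ NS N N1 S (topOf x) := by
    by_cases h : topOf x ∈ S
    · rw [NS_of h]
      exact W.sub _ h3 h4
    · rw [NS_not h]
      exact h4
  have hxu : x ∉ unnat (NS N N1 S) := (HS.mem_iff.mp hxS).1
  refine ⟨x, h1, h2, h3, W.RS_sub hS (G.mem z hz), fun h => hxu (mem_sdiff.mp h).1, h5, ?_⟩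
  intro ht
  have hxY : x ∉ YS E Y S := fun h => hxu ((W.twS hS).sub h)
  unfold thS
  rw [thX_not hxY, tS_of ht]

lemma EW.hS_fl (hS : S ⊆ E) {z x : P} (hz : z ∈ Z) (hzx : z ⋖ x) (ht : topOf x ∈ S) :
    Ew.hS E N N1 θ θ1 Y τ S z = θ1 (topOf x) x + 1 := by
  classical
  obtain ⟨x0, h1, h2, -, h4, h5, -, h7⟩ := W.fl_cov G hS hz
  have hx0 : x = x0 := h2 x hzx
  subst hx0
  have hbd : z ∈ bdR (RS E N N1 Y S) := mem_filter.mpr ⟨h4, x, h5, hzx⟩
  obtain ⟨x', g1, g2, g3⟩ := hcan_spec (θ := thS E θ θ1 Y τ S) hbd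
  have hx' := h2 x' g2
  rw [hx', h7 ht] at g3
  exact g3

/-- the far window theorem for the system `S` with the larger labels -/
theorem EW.farR (hS : S ⊆ E)
    (hcost : ∀ x ∈ Y, n < tcst i (thS E θ θ1 Y τ E) (τ x, x)) :
    (1 + X : ℤ[X]) ^ (∑ t, bS b S t) ∣ ND i (RS E N N1 Y S) (hR Z E N N1 θ θ1 Y τ S) n := by
  classical
  have H := W.farX hS n (fun x hx => (hcost x hx).le)
  choose B hB using W.natS hS
  have hz0 : (∑ t ∈ (pairsX (YS E Y S) τ).filter
      (fun t => tcst i (thS E θ θ1 Y τ S) t = n), Tm i (thS E θ θ1 Y τ S) t) = 0 := by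
    have h4 : (pairsX (YS E Y S) τ).filter
        (fun t => tcst i (thS E θ θ1 Y τ S) t = n) = ∅ := by
      rw [Finset.filter_eq_empty_iff]
      intro t ht h5
      rw [mem_pairsX] at ht
      have h6 := hcost t.2 (mem_YS.mp ht.1).1
      rw [← W.tcst_eq hS ht.1] at h6
      have e3 : t = (τ t.2, t.2) := Prod.ext ht.2 rfl
      rw [e3] at h5
      omega
    rw [h4, Finset.sum_empty]
  have F : FarV P i (unnat (NS N N1 S) \ YS E Y S) (∑ t, bS b S t)
      (hcan (unnat (NS N N1 S) \ YS E Y S) (thX (YS E Y S) τ (fun x => tS θ θ1 S (topOf x) x)))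
      0 n := by
    refine ⟨H.graded, H.hlev, H.clean, ?_, H.one_le, H.le_lev⟩
    have h3 := H.zero
    rw [hz0] at h3
    exact h3
  refine FarV_dvd_ND (farV_big (B := B) hB (W.twS hS) n 0 F (W.twnS hS) ?_
    (hR Z E N N1 θ θ1 Y τ S) ?_ (fun _ _ _ => Nat.zero_le _) ?_ ?_) rfl
  · intro x hx
    have h6 := hcost x (mem_YS.mp hx).1
    rw [← W.tcst_eq hS hx] at h6
    exact h6
  · intro z _
    exact Nat.le_add_right _ _
  · intro z hz
    have h1 : Ew.hS E N N1 θ θ1 Y τ S z ≤ lev z - i := H.le_lev z hz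
    show Ew.hS E N N1 θ θ1 Y τ S z + dl Z S z ≤ lev z - i
    by_cases h : z ∈ Z ∧ ∃ x, z ⋖ x ∧ topOf x ∈ S
    · obtain ⟨h2, x, h3, h4⟩ := h
      rw [dl_of h2 h3 h4, W.hS_fl G hS h2 h3 h4]
      obtain ⟨x0, -, h5, -, -, -, h6, -⟩ := W.fl_cov G hS h2
      rw [h5 x h3]
      omega
    · rw [dl_not h]
      exact h1
  · intro g _ hg x z hx hz hzx hlt m hm
    have hzb : z ∈ bdR (RS E N N1 Y S) := mem_filter.mpr ⟨hz, x, hx, hzx⟩
    have h1 : g z < Ew.hS E N N1 θ θ1 Y τ S z + dl Z S z := hg z hzb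
    have h2 : Ew.hS E N N1 θ θ1 Y τ S z ≤ thS E θ θ1 Y τ S x + 1 := hcan_le hx hzx
    have h3 : thS E θ θ1 Y τ S x < g z := hlt
    have h4 : z ∈ Z ∧ ∃ x, z ⋖ x ∧ topOf x ∈ S := by
      by_contra hcon
      rw [dl_not hcon] at h1
      omega
    obtain ⟨h5, x1, h6, h7⟩ := h4
    obtain ⟨x0, -, h8, -, -, -, -, h9⟩ := W.fl_cov G hS h5
    have e1 : x1 = x := (h8 x1 h6).trans (h8 x hzx).symm
    have e2 : x = x0 := h8 x hzx
    subst e1
    subst e2
    have h10 := h9 h7
    rw [dl_of h5 h6 h7] at h1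
    have h11 : bS b S (topOf x1) = b (topOf x1) - 1 := if_pos h7
    rw [h11]
    exact G.big S hS z h5 x1 h6 h7 g (by omega) m hm

/-- no dangerous element iff all labels are small -/
theorem EW.okR_iff (hS : S ⊆ E) {e : P → ℕ} {F : Finset P} (hV : Vd i e F) :
    (∀ z ∈ bdR (RS E N N1 Y S), ¬ Dgz (hR Z E N N1 θ θ1 Y τ S) e F z) ↔
      OkR Z S (RS E N N1 Y S) (thS E θ θ1 Y τ S) e := by
  classical
  constructor
  · intro h z hz x hx hzx
    have h1 : z ∈ bdR (RS E N N1 Y S) := mem_filter.mpr ⟨hz, x, hx, hzx⟩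
    have h2 := h z h1
    have h3 : Ew.hS E N N1 θ θ1 Y τ S z ≤ thS E θ θ1 Y τ S x + 1 := hcan_le hx hzx
    unfold Dgz hR at h2
    push Not at h2
    omega
  · intro h z hz hd
    obtain ⟨x, hx, hzx, hx2⟩ := hcan_spec (θ := thS E θ θ1 Y τ S) hz
    have hzR := (mem_filter.mp hz).1
    have h1 := h z hzR x hx hzx
    have h2 := W.th_le hS hx
    have h3 := W.lev_RS hS z hzR
    have h4 := W.gr.lev_covBy hzx
    have hx3 : Ew.hS E N N1 θ θ1 Y τ S z = thS E θ θ1 Y τ S x + 1 := hx2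
    rcases hd with hd | hd
    · have h5 := sub_le_of_mem hV hd
      by_cases h6 : z ∈ Z ∧ ∃ x, z ⋖ x ∧ topOf x ∈ S
      · obtain ⟨g1, x1, g2, g3⟩ := h6
        obtain ⟨x0, -, g4, -, -, -, g5, g6⟩ := W.fl_cov G hS g1
        have e1 : x1 = x := (g4 x1 g2).trans (g4 x hzx).symm
        have e2 : x = x0 := g4 x hzx
        subst e1
        subst e2
        rw [dl_of g1 g2 g3] at h1
        have := g6 g3
        omega
      · rw [dl_not h6] at h1
        omega
    · unfold hR at hd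
      omega

end

end Pool.Agent.GaussPoset.Ew

end
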