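import Mathlib
import Pool.Agent.W_448zz_h61.Ns
import Pool.Agent.W_448zz_h61.M083
import Pool.Agent.W_448zz_h61.M104
import Pool.Agent.W_448zz_h61.M130

/-! From `Pool.Agent.W_448s7_h27.EwH` -/

section

/-!
Window `4`: the sign theorems with graded defects and with partial labels (MP_448cb3_co, S7).
-/

namespace Pool.Agent.GaussPoset.Ec

set_option linter.unusedSectionVars false

open Polynomial Finset Sm Wd Cp W4 Cl

universe u

variable {P : Type u} [Fintype P] [PartialOrder P] [DecidableEq P] {r j : ℕ}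
  {lo hi : Tops P → ℕ → ℕ} {e : Tops P → ℕ → ℕ → P} {N : Tops P → Finset P}
  {θ3 θ4 : Tops P → P → ℕ} {Nf : Tops P → Finset P} {θf : Tops P → (ℕ → ℕ → ℕ) → P → ℕ}
  {D : Tops P → Prop} {K3 K' V3 : ℕ} {b : Tops P → ℕ}

/-- divisibility of the sums with at most `d` soft defects -/
def HDv (P : Type u) [Fintype P] [PartialOrder P] [DecidableEq P] (n d : ℕ)
    (N : Tops P → Finset P) (θ4 : Tops P → P → ℕ) (Nf : Tops P → Finset P) (D : Tops P → Prop)
    (good : Tops P → (P → ℕ) → ℕ → Prop) : Prop :=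
  ∀ S : Finset (Tops P), S ⊆ ED D → S.card ≤ d →
    (1 + X : ℤ[X]) ^ ((lv P 4).card - d) ∣
      ZQ 4 n (fun e' _ => Ew.Ok (rA N) (thA N θ4) e' ∧ El.KG (ED D) Nf good e' ⊆ S)

lemma HDv.all {n d : ℕ} {good : Tops P → (P → ℕ) → ℕ → Prop} (h : HDv P n d N θ4 Nf D good)
    (S : Finset (Tops P)) (hS : S.card ≤ d) :
    (1 + X : ℤ[X]) ^ ((lv P 4).card - d) ∣
      ZQ 4 n (fun e' _ => Ew.Ok (rA N) (thA N θ4) e' ∧ El.KG (ED D) Nf good e' ⊆ S) := by
  classical
  have h1 := h (S ∩ ED D) inter_subset_right ((Finset.card_le_card inter_subset_left).trans hS)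
  have h2 : ZQ 4 n (fun e' (_ : Finset P) => Ew.Ok (rA N) (thA N θ4) e' ∧
      El.KG (ED D) Nf good e' ⊆ S) =
      ZQ 4 n (fun e' (_ : Finset P) => Ew.Ok (rA N) (thA N θ4) e' ∧
        El.KG (ED D) Nf good e' ⊆ S ∩ ED D) :=
    ZQ_congr fun e' F' _ _ => by
      rw [subset_inter_iff]
      exact ⟨fun h => ⟨h.1, h.2, fun t ht => (El.mem_KG.mp ht).1⟩, fun h => ⟨h.1, h.2.1⟩⟩
  rw [h2]
  exact h1

/-- a violated threshold is above a boundary element -/
theorem Fs.not_ok (F : Fs P j lo hi e N θ4 Nf θf D) (K : Ctx P r j lo hi e) (h12 : 12 ≤ j)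
    (Y : Y4 r j K3 K' V3 N b θ3 θ4) {e' : P → ℕ} {F' : Finset P} (hV : Vd 4 e' F')
    (hok : ¬ Ew.Ok (rA N) (thA N θ4) e') :
    ∃ z ∈ bdR (rA N), ∀ x, ez 4 (hA N θ4) z x ≤ e' x := by
  classical
  have W := F.ew K h12 Y
  have hEE := Finset.Subset.refl (ED D)
  have h1 := Ew.ok_iff (e := e') W.gr (W.lev_RS hEE) (fun x hx => W.th_le hEE hx) hV
  rw [F.RS_eq, F.thS_eq] at h1
  rw [← h1] at hok
  push Not at hok
  obtain ⟨z, hz, hd⟩ := hok
  have h2 := W.lev_RS hEE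
  rw [F.RS_eq] at h2
  exact ⟨z, hz, ez_le hV (h2 z (mem_filter.mp hz).1) hd⟩

/-- **The sign theorem at window `4`**, graded defects, any labels. -/
theorem Fs.gsum_gen (F : Fs P j lo hi e N θ4 Nf θf D) (K : Ctx P r j lo hi e) (h12 : 12 ≤ j)
    (Y : Y4 r j K3 K' V3 N b θ3 θ4) {n d : ℕ} {good : Tops P → (P → ℕ) → ℕ → Prop}
    (hdv : HDv P n d N θ4 Nf D good)
    (hcost : ∀ x ∈ twA N, n ≤ tcst 4 (thA N θ4) (twT N x, x))
    (hmin : ∀ z ∈ bdR (rA N), n ≤ cst 4 (hA N θ4) z)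
    (hK : ∀ e' F', Vd 4 e' F' → ∑ x, e' x = n → Ew.Ok (rA N) (thA N θ4) e' →
      (El.KG (ED D) Nf good e').card ≤ d)
    {c0 : ℕ} (hc : c0 + d < (lv P 4).card)
    (hle : ∀ z ∈ bdR (rA N), cst 4 (hA N θ4) z = n →
      c0 + nab 4 z ≤ (lv P 4).card + nab (4 + hA N θ4 z) z) :
    ∑ z ∈ (bdR (rA N)).filter (fun z => cst 4 (hA N θ4) z = n ∧
        c0 + nab 4 z = (lv P 4).card + nab (4 + hA N θ4 z) z),
      (-1 : ℤ) ^ (nst 4 (hA N θ4) z) = 0 := by
  classical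
  have W := F.ew K h12 Y
  have H := K.gt.H
  have HX := W.farX (Finset.Subset.refl (ED D)) n (by
    intro x hx
    rw [F.thS_eq]
    exact hcost x hx)
  rw [F.RS_eq, F.hS_eq, F.thS_eq] at HX
  have key := ie_sign (i := 4) (n := n) (d := d) (b := (lv P 4).card - d)
    (fun e' _ => Ew.Ok (rA N) (thA N θ4) e') (fun e' _ => El.KG (ED D) Nf good e')
    (fun S hS => hdv.all S hS)
    (dvd_trans (pow_dvd_pow _ (Nat.sub_le _ _)) (dvd_Z H.gauss 4 n)) W.gr (hA N θ4)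
    ((bdR (rA N)).filter (fun z => cst 4 (hA N θ4) z = n))
    (fun z hz => by
      obtain ⟨h1, h2⟩ := mem_filter.mp hz
      exact ⟨HX.one_le z h1, HX.le_lev z h1⟩)
    (fun z hz => (mem_filter.mp hz).2)
    (fun z hz F' hV h => by
      obtain ⟨h1, h2⟩ := mem_filter.mp hz
      obtain ⟨x, hx, hzx, hx2⟩ := hcan_spec (θ := thA N θ4) h1
      have h3 := h.1 z (mem_filter.mp h1).1 x hx hzx
      rw [ez_self (HX.le_lev z h1)] at h3
      have h5 : hA N θ4 z = thA N θ4 x + 1 := hx2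
      omega)
    (fun e' F' hV hs hbad => by
      have hq : ¬ Ew.Ok (rA N) (thA N θ4) e' := fun h =>
        hbad ⟨h, hK e' F' hV hs h⟩
      obtain ⟨z, hz, h4⟩ := F.not_ok K h12 Y hV hq
      have h6 : cst 4 (hA N θ4) z ≤ n := by
        rw [← hs]; exact Finset.sum_le_sum fun x _ => h4 x
      have h7 : cst 4 (hA N θ4) z = n := le_antisymm h6 (hmin z hz)
      refine ⟨z, mem_filter.mpr ⟨hz, h7⟩, ?_⟩
      funext x
      have h9 : ∑ x, ez 4 (hA N θ4) z x = ∑ x, e' x := by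
        rw [hs]; exact h7
      exact ((Finset.sum_eq_sum_iff_of_le (fun x _ => h4 x)).mp h9 x (mem_univ x)).symm)
    (c0 := c0) (by omega)
    (fun z hz => by
      obtain ⟨h1, h2⟩ := mem_filter.mp hz
      exact hle z h1 h2)
  rw [Finset.filter_filter] at key
  exact key

/-- **Partial labels at window `4`**: `T` is a set of elements with the label `h2`, whose
cheapest configurations are the configurations with more than `d` soft defects. -/
theorem Fs.part_zero (F : Fs P j lo hi e N θ4 Nf θf D) (K : Ctx P r j lo hi e) (h12 : 12 ≤ j)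
    (Y : Y4 r j K3 K' V3 N b θ3 θ4) {n d : ℕ} {good : Tops P → (P → ℕ) → ℕ → Prop}
    (hdv : HDv P n d N θ4 Nf D good)
    (hmin : ∀ z ∈ bdR (rA N), n < cst 4 (hA N θ4) z)
    (T : Finset P) {h2 : ℕ} (h1 : 1 ≤ h2) (hT1 : ∀ z ∈ T, h2 ≤ lev z - 4)
    (hT2 : ∀ z ∈ T, cst 4 (fun _ => h2) z = n)
    (hT3 : ∀ z ∈ T, d < (El.KG (ED D) Nf good (ez 4 (fun _ => h2) z)).card)
    (hK : ∀ e' F', Vd 4 e' F' → ∑ x, e' x = n → Ew.Ok (rA N) (thA N θ4) e' →
      d < (El.KG (ED D) Nf good e').card → ∃ z ∈ T, ∀ x, ez 4 (fun _ => h2) z x ≤ e' x)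
    {c0 : ℕ} (hc : c0 + d < (lv P 4).card)
    (hle : ∀ z ∈ T, c0 + nab 4 z ≤ (lv P 4).card + nab (4 + h2) z) :
    ∑ z ∈ T.filter (fun z => c0 + nab 4 z = (lv P 4).card + nab (4 + h2) z),
      (-1 : ℤ) ^ (nst 4 (fun _ => h2) z) = 0 := by
  classical
  have W := F.ew K h12 Y
  have H := K.gt.H
  exact ie_sign (i := 4) (n := n) (d := d) (b := (lv P 4).card - d)
    (fun e' _ => Ew.Ok (rA N) (thA N θ4) e') (fun e' _ => El.KG (ED D) Nf good e')
    (fun S hS => hdv.all S hS)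
    (dvd_trans (pow_dvd_pow _ (Nat.sub_le _ _)) (dvd_Z H.gauss 4 n)) W.gr (fun _ => h2) T
    (fun z hz => ⟨h1, hT1 z hz⟩) hT2
    (fun z hz F' hV h => by
      have := hT3 z hz
      omega)
    (fun e' F' hV hs hbad => by
      have hq : Ew.Ok (rA N) (thA N θ4) e' := by
        by_contra hq
        obtain ⟨z, hz, h4⟩ := F.not_ok K h12 Y hV hq
        have h6 : cst 4 (hA N θ4) z ≤ n := by
          rw [← hs]; exact Finset.sum_le_sum fun x _ => h4 x
        have := hmin z hz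
        omega
      have hd : d < (El.KG (ED D) Nf good e').card := by
        by_contra hcon
        exact hbad ⟨hq, not_lt.mp hcon⟩
      obtain ⟨z, hz, h4⟩ := hK e' F' hV hs hq hd
      refine ⟨z, hz, ?_⟩
      funext x
      have h9 : ∑ x, ez 4 (fun _ => h2) z x = ∑ x, e' x := by
        rw [hs]; exact hT2 z hz
      exact ((Finset.sum_eq_sum_iff_of_le (fun x _ => h4 x)).mp h9 x (mem_univ x)).symm)
    (c0 := c0) (by omega) hle

end Pool.Agent.GaussPoset.Ec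

end

/-! From `Pool.Agent.W_448s7_h27.EwJ` -/

section

/-!
Window `4`: joins of two `E7` tops with a partial label (MP_448cb3_co, S7).
-/

namespace Pool.Agent.GaussPoset.Ec

set_option linter.unusedSectionVars false

open Polynomial Finset Sm Wd Cp W4 Cl

universe u

variable {P : Type u} [Fintype P] [PartialOrder P] [DecidableEq P] {r j : ℕ}
  {lo hi : Tops P → ℕ → ℕ} {e : Tops P → ℕ → ℕ → P} {N : Tops P → Finset P}
  {θ3 θ4 : Tops P → P → ℕ} {Nf : Tops P → Finset P} {θf : Tops P → (ℕ → ℕ → ℕ) → P → ℕ}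
  {D : Tops P → Prop} {K3 K' V3 : ℕ} {b : Tops P → ℕ}

lemma HitE.only (K : Ctx P r j lo hi e) {t : Tops P} {z : P} {s : ℕ}
    (h : HitE j lo hi e N Nf D t z s) : e t j s ∈ onlyB t ∧ topOf (e t j s) = t := by
  have C := K.comp t
  have h1 : e t j s ∈ onlyB t := by
    rw [mem_onlyB]
    intro u hu hxu
    exact top_eq K.gt.H K.gt.good (C.lev_e j s le_rfl h.lo h.hi).le hu t.2 hxu
      (C.le_t j s le_rfl h.lo h.hi)
  refine ⟨h1, ?_⟩
  have h2 := le_topOf (e t j s)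
  have h3 := top_eq K.gt.H K.gt.good (C.lev_e j s le_rfl h.lo h.hi).le (topOf (e t j s)).2 t.2 h2
      (C.le_t j s le_rfl h.lo h.hi)
  exact Subtype.ext h3

lemma HitE.nab (K : Ctx P r j lo hi e) {t : Tops P} {z : P} {s : ℕ}
    (h : HitE j lo hi e N Nf D t z s) {k : ℕ} (hk : k ≤ j) :
    nab k (e t j s) = Ew.nbW 4 w7 j s k :=
  Ew.nab_word h.word (K.comp t) K.gt.H K.gt.good h.lo h.hi (h.only K).1 hk

lemma E2.cg (K : Ctx P r j lo hi e) {z : P} (h : E2 j lo hi e N Nf D z) :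
    ∃ t t', t ≠ t' ∧ HitE j lo hi e N Nf D t z 5 ∧ HitE j lo hi e N Nf D t' z 5 ∧
      Cg z (e t j 5) (e t' j 5) := by
  obtain ⟨t, t', hne, h1, h2⟩ := h
  obtain ⟨g1, g2⟩ := h1.only K
  obtain ⟨g1', g2'⟩ := h2.only K
  exact ⟨t, t', hne, h1, h2, Cg.mk' h1.cov h2.cov (by rw [g2]; exact g1)
    (by rw [g2']; exact g1') (by rw [g2, g2']; exact hne)⟩

lemma E2.nab (K : Ctx P r j lo hi e) {z : P} (h : E2 j lo hi e N Nf D z) {k : ℕ} (hk : k ≤ j) :
    nab k z = 2 * Ew.nbW 4 w7 j 5 k := by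
  obtain ⟨t, t', hne, h1, h2, hc⟩ := h.cg K
  have h3 := h1.lev
  rw [hc.sum K.gt.H (by omega), h1.nab K hk, h2.nab K hk]
  ring

lemma E2.lev {z : P} (h : E2 j lo hi e N Nf D z) : lev z = j + 1 := by
  obtain ⟨t, t', hne, h1, h2⟩ := h
  exact h1.lev

lemma E2.cst (K : Ctx P r j lo hi e) {z : P} (h : E2 j lo hi e N Nf D z) {k : ℕ}
    (hk : k + 4 ≤ j + 1) : cst 4 (fun _ => k) z = 2 * Ew.cstW 4 w7 j 5 4 k + k := by
  rw [cst_eq, Finset.sum_range_succ, nab_self, h.lev]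
  unfold Ew.cstW
  rw [Finset.mul_sum, Finset.sum_congr rfl (g := fun i => 2 * (min k (i - 4) *
    Ew.nbW 4 w7 j 5 i)) (fun i hi => by
      rw [mem_range] at hi
      rw [h.nab K (by omega)]
      ring)]
  rw [Nat.min_eq_left (by omega)]
  ring

lemma E2.nst (K : Ctx P r j lo hi e) {z : P} (h : E2 j lo hi e N Nf D z) {k : ℕ}
    (hk : k + 4 ≤ j + 1) : Even (nst 4 (fun _ => k) z) := by
  rw [nst_eq]
  refine Finset.even_sum _ fun i hi => ?_
  rw [mem_range] at hi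
  rw [h.nab K (by omega)]
  exact even_two_mul _

/-- the configuration of `z` makes the hit `E7` tops bad -/
lemma HitE.mem_KG (K : Ctx P r j lo hi e) (F : Fs P j lo hi e N θ4 Nf θf D) {t : Tops P} {z : P}
    (h : HitE j lo hi e N Nf D t z 5) {p1 M h2 : ℕ} (hp : E7t4 j 5 + 1 = p1)
    {tb : ℕ → ℕ → ℕ} (hh : p1 ≤ h2) (hh2 : h2 ≤ GaussPoset.lev z - 4) (hM : M = 0 ∨ p1 < h2) :
    t ∈ El.KG (ED D) Nf (Gd j p1 M lo hi e Nf θf tb) (ez 4 (fun _ => h2) z) := by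
  classical
  have C := K.comp t
  have hx : e t j 5 ∈ Nf t := by
    rw [h.fine]
    exact mem_lowPart.mpr ⟨C.le_t j 5 le_rfl h.lo h.hi, (C.lev_e j 5 le_rfl h.lo h.hi).le⟩
  have hz : z ∉ Nf t := by
    rw [h.fine]
    intro h1
    have h2 := (mem_lowPart.mp h1).2
    have h3 := h.lev
    omega
  have h3 : h2 ≤ El.bl (univ \ Nf t) (ez 4 (fun _ => h2) z) (e t j 5) := by
    have h4 := El.le_bl (A := univ \ Nf t) (e := ez 4 (fun _ => h2) z)
      (mem_sdiff.mpr ⟨mem_univ _, hz⟩) h.cov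
    rwa [ez_self (h := fun _ => h2) hh2] at h4
  rw [El.mem_KG]
  refine ⟨mem_ED.mpr h.dt, ?_⟩
  unfold El.GoodE Gd
  rw [not_or]
  refine ⟨fun hg => ?_, ?_⟩
  · have h5 := hg _ hx
    have h6 : θf t E7t4 (e t j 5) = E7t4 j 5 := by
      rcases F.typ t with ⟨k1, k2, k3, k4, k5, k6, k7⟩ | ⟨c, Nc, co, k0, k1, k2, k3, k4, k5, k6⟩ |
        ⟨k0, k1, k2, k3, k4, k5, k6, k7, k8⟩ | ⟨Nc, co, k0, k1, k2, k3, k4, k5, k6⟩
      · exact absurd h.dt k6
      · exact absurd h.dt k6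
      · rw [k5]
        exact thC_e C E7t4 le_rfl h.lo h.hi
      · have := h.word.row
        rw [this.1, this.2] at k3
        omega
    omega
  · rintro ⟨-, -, g3, g4⟩
    rcases hM with hM | hM
    · omega
    · have := g3 _ hx rfl
      omega

/-- **No join of two `E7` tops**, from the cheapest configuration with the label `h2`. -/
theorem Fs.no_E2 (F : Fs P j lo hi e N θ4 Nf θf D) (K : Ctx P r j lo hi e) (h12 : 12 ≤ j)
    (Y : Y4 r j K3 K' V3 N b θ3 θ4) (hrow : Row5 j) {cS p1 M mE n h2 : ℕ}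
    (hS : ∀ a ∈ Finset.Icc 1 (j / 2), cS ≤ deC j a) {tb : ℕ → ℕ → ℕ}
    (hp : E7t4 j 5 + 1 = p1) (htb : tb j 5 = p1 ∨ M = 0) (hm : MinB j p1 M mE)
    (hc1 : n < 2 * cS) (hc2 : n < cS + mE) (hd : n < 2 * mE + 2 * p1)
    (hdv : HDv P n 1 N θ4 Nf D (Gd j p1 M lo hi e Nf θf tb))
    (hmin : ∀ z ∈ bdR (rA N), n < cst 4 (hA N θ4) z)
    (hn : 2 * Ew.cstW 4 w7 j 5 4 h2 + h2 = n) (hh2 : h2 + 4 ≤ j + 1)
    (hh : (M = 0 ∧ h2 = p1) ∨ (h2 = p1 + 1 ∧ (n < 2 * M + p1 ∨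
      n < 2 * Ew.cstW 4 w7 j 5 4 p1 + p1)))
    (n4 : Ew.nbW 4 w7 j 5 4 = 2) (nh : Ew.nbW 4 w7 j 5 (4 + h2) = 1) (hj2 : 4 + h2 ≤ j) :
    ¬ ∃ z, E2 j lo hi e N Nf D z := by
  classical
  rintro ⟨z0, hz0⟩
  have hL : 4 ≤ (lv P 4).card := by
    have h1 := nab_le_card (P := P) 4 z0
    rw [hz0.nab K (by omega), n4] at h1
    exact h1
  obtain ⟨c0, hc0⟩ : ∃ c0, c0 + 2 = (lv P 4).card := ⟨(lv P 4).card - 2, by omega⟩
  have hp1 : 1 ≤ p1 := by omega
  have key := F.part_zero K h12 Y hdv hmin (univ.filter (E2 j lo hi e N Nf D)) (h2 := h2)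
    (by rcases hh with h | h <;> omega)
    (fun z hz => by
      have := (mem_filter.mp hz).2.lev
      omega)
    (fun z hz => by
      rw [(mem_filter.mp hz).2.cst K hh2]
      exact hn)
    (fun z hz => by
      obtain ⟨t, t', hne, g1, g2⟩ := (mem_filter.mp hz).2
      rw [Finset.one_lt_card]
      have gl := g1.lev
      refine ⟨t, g1.mem_KG K F hp (by rcases hh with h | h <;> omega) (by omega)
        (by rcases hh with h | h <;> omega), t', g2.mem_KG K F hp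
        (by rcases hh with h | h <;> omega) (by omega) (by rcases hh with h | h <;> omega), hne⟩)
    (fun e' F' hV hs hok hcard => by
      obtain ⟨t, t', z, z', hne, b1, b2, h3, h4⟩ := F.two_bad K h12 Y hrow hS hp htb hm hc1 hc2
        hV hs hok hcard
      have m1 := b1.min hm
      have m2 := b2.min hm
      have l1 := b1.le
      have l2 := b2.le
      by_cases hzz : z = z'
      · subst hzz
        refine ⟨z, mem_filter.mpr ⟨mem_univ _, t, t', hne, b1.hit, b2.hit⟩, ?_⟩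
        have hl := b1.hit.lev
        have hge : h2 ≤ e' z := by
          rcases hh with h | h
          · omega
          · by_contra hcon
            have h7 : e' z = p1 := by omega
            have a1 := b1.cst _ b1.le
            have a2 := b2.cst _ b2.le
            have c1 := b1.big h7
            have c2 := b2.big h7
            have := h4 rfl
            omega
        exact ez_le (h := fun _ => h2) hV (by omega) (Or.inr hge)
      · have := h3 hzz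
        omega)
    (c0 := c0) (by omega)
    (fun z hz => by
      have h := (mem_filter.mp hz).2
      rw [h.nab K (by omega), h.nab K hj2, n4, nh]
      omega)
  have h5 : (univ.filter (E2 j lo hi e N Nf D)).filter
      (fun z => c0 + nab 4 z = (lv P 4).card + nab (4 + h2) z) =
      univ.filter (E2 j lo hi e N Nf D) := by
    refine Finset.filter_true_of_mem fun z hz => ?_
    have h := (mem_filter.mp hz).2
    rw [h.nab K (by omega), h.nab K hj2, n4, nh]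
    omega
  rw [h5, Finset.sum_congr rfl (g := fun _ => (1 : ℤ)) (fun z hz =>
    Even.neg_one_pow ((mem_filter.mp hz).2.nst K hh2))] at key
  simp only [Finset.sum_const, smul_eq_mul, mul_one, nsmul_eq_mul, Nat.cast_eq_zero,
    Finset.card_eq_zero, Finset.filter_eq_empty_iff] at key
  exact key (mem_univ z0) hz0

end Pool.Agent.GaussPoset.Ec

end

/-! From `Pool.Agent.W_448pg_h74.Gh` -/

section

/-!
Window `4`: divisibility of the sums with graded defects (MP_448cb3_co, S7).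
-/

namespace Pool.Agent.GaussPoset.Ec

set_option linter.unusedSectionVars false

open Polynomial Finset Sm Wd Cp W4 Cl

universe u

variable {P : Type u} [Fintype P] [PartialOrder P] [DecidableEq P] {r j : ℕ}
  {lo hi : Tops P → ℕ → ℕ} {e : Tops P → ℕ → ℕ → P} {N : Tops P → Finset P}
  {θ3 θ4 : Tops P → P → ℕ} {Nf : Tops P → Finset P} {θf : Tops P → (ℕ → ℕ → ℕ) → P → ℕ}
  {D : Tops P → Prop} {K3 K' V3 : ℕ} {b : Tops P → ℕ}

/-- transport of the bounded window sums along an equality of predicates -/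
lemma gh_ZB_congr {p q : P → Prop} [hp : Fintype {x : P // p x}] [hq : Fintype {x : P // q x}]
    (h : ∀ x, p x ↔ q x) (w : ℕ) (β : P → ℕ) (m : ℕ) :
    ZB (P := {x : P // p x}) w ∅ 0 (fun x => β x) m =
      ZB (P := {x : P // q x}) w ∅ 0 (fun x => β x) m := by
  obtain rfl : p = q := funext fun x => propext (h x)
  obtain rfl : hp = hq := Subsingleton.elim _ _
  rfl

/-- **Divisibility with graded defects.** -/
theorem Fs.graded (K : Ctx P r j lo hi e) (h12 : 12 ≤ j) (Y : Y4 r j K3 K' V3 N b θ3 θ4)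
    (F : Fs P j lo hi e N θ4 Nf θf D) {tb : ℕ → ℕ → ℕ} (htb : TbOK tb) {n : ℕ}
    {good : Tops P → (P → ℕ) → ℕ → Prop}
    (hloc : ∀ t ∈ ED D, ∀ B B' : P → ℕ, (∀ x ∈ Nf t, B x = B' x) → ∀ m, good t B m → good t B' m)
    (hcap : ∀ t ∈ ED D, ∀ B m, good t B m → ∀ x ∈ Nf t, B x ≤ θf t tb x)
    (hgood : ∀ t ∈ ED D, ∀ B m, m ≤ n → good t B m → (∀ x ∈ Nf t, B x ≤ θf t E7t4 x) ∨
      (1 + X : ℤ[X]) ^ (hi t 4 - lo t 4 + 1) ∣
        ZB (P := {x : P // x ∈ Nf t}) 4 ∅ 0 (fun x => B x) m)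
    (htw : ∀ x ∈ twA N, n < tcst 4 (thA N θ4) (twT N x, x))
    {S : Finset (Tops P)} (hS : S ⊆ ED D) :
    (1 + X : ℤ[X]) ^ ((lv P 4).card - S.card) ∣
      ZQ 4 n (fun e' _ => Ew.Ok (rA N) (thA N θ4) e' ∧ El.KG (ED D) Nf good e' ⊆ S) := by
  classical
  have W := F.ew K h12 Y
  have WL := F.el K h12 Y htb
  -- the allowed configurations
  have h1 : ZQ 4 n (fun e' (_ : Finset P) => Ew.Ok (rA N) (thA N θ4) e' ∧
      El.KG (ED D) Nf good e' ⊆ S) =
      ZQ 4 n (fun e' F' => (∀ z ∈ Ew.RS (ED D) Nf N (twA N) S, z ∉ F') ∧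
        ∀ k, El.GS (ED D) Nf N (fun t => θf t tb) θ4 (twA N) (twT N) good S k
          (fun x => (by classical exact
            ((Ew.RS (ED D) Nf N (twA N) S).filter (fun z => z ⋖ x)).sup e'))
          (∑ x ∈ univ.filter (fun x => x ∉ Ew.RS (ED D) Nf N (twA N) S ∧ topOf x = k), e' x)) := by
    refine ZQ_congr fun e' F' hV _ => ?_
    have h2 := WL.allowed_iff hS hloc hcap hV
    rw [F.RS_eq, F.thS_eq] at h2
    rw [← h2]
    unfold El.Allowed
    refine and_congr Iff.rfl (forall_congr' fun k => ?_)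
    refine iff_of_eq ?_
    congr 1
  rw [h1]
  have hsum : (lv P 4).card - S.card =
      ∑ t, Ew.bS (fun t => hi t 4 - lo t 4 + 1) S t := by
    have h2 := W.sum_bS hS
    have h3 := F.sum
    omega
  rw [hsum]
  have hth : ∀ x : P, ¬ (topOf x ∈ ED D ∧ topOf x ∉ S) →
      Ew.thS (ED D) (fun t => θf t tb) θ4 (twA N) (twT N) S x =
      Ew.thS (ED D) (fun t => θf t E7t4) θ4 (twA N) (twT N) S x := by
    have key : ∀ y : P, ¬ (topOf y ∈ ED D ∧ topOf y ∉ S) →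
        Ew.tS (fun t => θf t tb) θ4 S (topOf y) y =
        Ew.tS (fun t => θf t E7t4) θ4 S (topOf y) y := by
      intro y hy
      by_cases hyS : topOf y ∈ S
      · rw [Ew.tS_of hyS, Ew.tS_of hyS]
      · rw [Ew.tS_not hyS, Ew.tS_not hyS]
        have hyD : topOf y ∉ ED D := fun h => hy ⟨h, hyS⟩
        have h5 := ((F.typ (topOf y)).eq (fun h' => hyD (mem_ED.mpr h'))).2
        show θf (topOf y) tb y = θf (topOf y) E7t4 y
        rw [h5 tb, h5 E7t4]
    intro x hx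
    unfold Ew.thS
    by_cases hxY : x ∈ Ew.YS (ED D) (twA N) S
    · rw [thX_of hxY, thX_of hxY]
      refine key _ ?_
      rw [(W.twS hS).cp x hxY]
      exact hx
    · rw [thX_not hxY, thX_not hxY]
      exact key _ hx
  have hcost : ∀ x ∈ twA N, n + 1 ≤ tcst 4
      (Ew.thS (ED D) (fun t => θf t E7t4) θ4 (twA N) (twT N) (ED D)) (twT N x, x) := by
    intro x hx
    rw [F.thS_eq]
    exact htw x hx
  refine pg (ι := Tops P) (W.lower_RS hS) (W.lev_RS hS) topOf ?_ _ _ ?_ ?_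
  · exact (W.twS hS).cp' (W.natSysS hS).cp
  · -- locality
    have hone : ∀ k, ∀ B B' : P → ℕ, (∀ x, x ∉ Ew.RS (ED D) Nf N (twA N) S → topOf x = k →
        B x = B' x) → ∀ m, El.GS (ED D) Nf N (fun t => θf t tb) θ4 (twA N) (twT N) good S k B m →
        El.GS (ED D) Nf N (fun t => θf t tb) θ4 (twA N) (twT N) good S k B' m := by
      intro k B B' hBB m hG
      refine ⟨fun hk => ?_, fun hk x hx hxk => ?_⟩
      · refine hloc k hk.1 B B' (fun x hx => ?_) m (hG.1 hk)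
        have h4 := (WL.part_iff hS hk.1 hk.2).mpr hx
        exact hBB x h4.1 h4.2
      · rw [← hBB x hx hxk]
        exact hG.2 hk x hx hxk
    intro k B B' hBB m
    exact ⟨hone k B B' hBB m, hone k B' B (fun x hx hk => (hBB x hx hk).symm) m⟩
  · -- the factors
    intro k B m hm hG
    by_cases hk : k ∈ ED D ∧ k ∉ S
    · rcases hgood k hk.1 B m hm (hG.1 hk) with h | h
      · refine W.factor hS (n + 1) hcost k B (fun x hx hxk => ?_) m (by omega)
        have hxN := (WL.part_iff hS hk.1 hk.2).mp ⟨hx, hxk⟩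
        have hxY : x ∉ Ew.YS (ED D) (twA N) S := by
          intro h'
          rcases (Ew.mem_YS.mp h').2 with h' | h'
          · exact h' (hxk ▸ hk.1)
          · exact hk.2 (hxk ▸ h')
        have h4 : Ew.thS (ED D) (fun t => θf t E7t4) θ4 (twA N) (twT N) S x = θf k E7t4 x := by
          unfold Ew.thS
          rw [thX_not hxY, hxk, Ew.tS_not hk.2]
        rw [h4]
        exact h x hxN
      · have hb : Ew.bS (fun t => hi t 4 - lo t 4 + 1) S k = hi k 4 - lo k 4 + 1 := if_neg hk.2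
        have h5 := gh_ZB_congr (P := P) (q := fun x => x ∈ Nf k)
          (fun x => WL.part_iff hS hk.1 hk.2) 4 B m
        rw [hb]
        exact h.trans (dvd_of_eq h5.symm)
    · refine W.factor hS (n + 1) hcost k B (fun x hx hxk => ?_) m (by omega)
      rw [← hth x (by rw [hxk]; exact hk)]
      exact hG.2 hk x hx hxk

end Pool.Agent.GaussPoset.Ec

end

/-! From `Pool.Agent.W_448s7_h27.EwN` -/

section

/-!
Window `4`, `j = 16`: own elements of `E7` of level `17`, pairs of bad tops (MP_448cb3_co).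
-/

namespace Pool.Agent.GaussPoset.Ec

set_option linter.unusedSectionVars false

open Polynomial Finset Sm Wd Cp W4 Cl

universe u

variable {P : Type u} [Fintype P] [PartialOrder P] [DecidableEq P] {r j : ℕ}
  {lo hi : Tops P → ℕ → ℕ} {e : Tops P → ℕ → ℕ → P} {N : Tops P → Finset P}
  {θ3 θ4 : Tops P → P → ℕ} {Nf : Tops P → Finset P} {θf : Tops P → (ℕ → ℕ → ℕ) → P → ℕ}
  {D : Tops P → Prop} {K3 K' V3 : ℕ} {b : Tops P → ℕ}

/-- another top above a hit element -/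
lemma HitE.other (K : Ctx P r j lo hi e) {t : Tops P} {z : P} {s : ℕ}
    (h : HitE j lo hi e N Nf D t z s) (hz : z ∉ onlyB t) : ∃ u : Tops P, u ≠ t ∧ z ≤ (u : P) := by
  rw [mem_onlyB] at hz
  push Not at hz
  obtain ⟨u, hu, hzu, hne⟩ := hz
  exact ⟨⟨u, hu⟩, fun h => hne (congrArg Subtype.val h), hzu⟩

/-- an element of level `j` between -/
lemma exists_row (K : Ctx P r j lo hi e) {z : P} (hl : lev z = j + 1) {u : Tops P}
    (hzu : z ≤ (u : P)) : ∃ y, z ⋖ y ∧ y ≤ (u : P) ∧ lev y = j := by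
  have hlt : z < (u : P) := by
    refine lt_of_le_of_ne hzu fun h => ?_
    have h2 : lev (u : P) = 0 := u.2
    rw [← h] at h2
    omega
  obtain ⟨y, hy, hyu⟩ := exists_covBy_le_of_lt hlt
  have h1 := (K.gt.H.covBy_iff.mp hy).2
  exact ⟨y, hy, hyu, by omega⟩

/-- the energy in the lower part of another top -/
lemma low_energy (K : Ctx P r j lo hi e) (hj : 4 ≤ j) {e' : P → ℕ} {F' : Finset P}
    (hV : Vd 4 e' F') {z : P} (hl : lev z = j + 1) {u : Tops P} (hzu : z ≤ (u : P)) {h : ℕ}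
    (hh : h ≤ e' z) :
    ∑ k ∈ range (j + 1), min h (k - 4) ≤ ∑ y ∈ lowPart j (u : P), e' y := by
  obtain ⟨y, hzy, hyu, hly⟩ := exists_row K hl hzu
  have H := K.gt.H
  have h1 := Ew.cst_le_sum hV hzy.1.le (by omega) (h := h) (Or.inr hh) (A := lowPart j (u : P))
    (mem_lowPart.mpr ⟨hyu, by omega⟩) (by
      intro x hx y hxy
      obtain ⟨g1, g2⟩ := mem_lowPart.mp hx
      have g3 := lev_anti hxy
      refine mem_lowPart.mpr ⟨?_, by omega⟩
      have g4 := top_eq H K.gt.good g2 (topOf y).2 u.2 (hxy.trans (le_topOf y)) g1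
      rw [← g4]
      exact le_topOf y)
  refine le_trans ?_ h1
  rw [cst_eq, hly]
  refine Finset.sum_le_sum fun k hk => ?_
  rw [mem_range] at hk
  have h2 := one_le_nab (l := k) (z := y) (by omega)
  calc min h (k - 4) = min h (k - 4) * 1 := (mul_one _).symm
    _ ≤ min h (k - 4) * nab k y := Nat.mul_le_mul_left _ h2

/-- lower parts of different tops are disjoint -/
lemma disj_low (K : Ctx P r j lo hi e) {u v : Tops P} (hne : u ≠ v) :
    Disjoint (lowPart j (u : P)) (lowPart j (v : P)) := by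
  rw [Finset.disjoint_left]
  intro x h1 h2
  obtain ⟨a1, a2⟩ := mem_lowPart.mp h1
  obtain ⟨b1, b2⟩ := mem_lowPart.mp h2
  exact hne (Subtype.ext (top_eq K.gt.H K.gt.good a2 u.2 v.2 a1 b1))

/-- own elements of `E7` of level `j + 1` -/
def Own (j : ℕ) (lo hi : Tops P → ℕ → ℕ) (e : Tops P → ℕ → ℕ → P)
    (N Nf : Tops P → Finset P) (D : Tops P → Prop) (z : P) : Prop :=
  ∃ t, HitE j lo hi e N Nf D t z 5 ∧ z ∈ onlyB t

lemma Own.nab (K : Ctx P r j lo hi e) (hrow : Row5 j) {z : P} (h : Own j lo hi e N Nf D z)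
    {k : ℕ} (hk : k ≤ j) : nab k z = Ew.nbW 4 w7 j 5 k := by
  obtain ⟨t, h1, h2⟩ := h
  have hl := h1.lev
  obtain ⟨r1, r2⟩ := h1.word.rows (K.comp t)
  have q1 := r1 j le_rfl
  have q2 := r2 j le_rfl
  have e1 := hrow.1
  have e2 := hrow.2
  have honly : ∀ y, z ⋖ y → y = e t j 5 := by
    intro y hy
    have h3 := (K.gt.H.covBy_iff.mp hy).2
    obtain ⟨s, a1, a2, a3⟩ := (K.comp t).surj y (onlyB_le (onlyB_up h2 hy.1.le)) (by omega)
    rw [show GaussPoset.lev y = j by omega] at a1 a2 a3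
    have hs : s = 5 := by omega
    rw [← a3, hs]
  rw [nab_only honly h1.cov (by omega), h1.nab K hk]

lemma Own.lev {z : P} (h : Own j lo hi e N Nf D z) : lev z = j + 1 := by
  obtain ⟨t, h1, -⟩ := h
  exact h1.lev

lemma Own.cst (K : Ctx P r j lo hi e) (hrow : Row5 j) {z : P} (h : Own j lo hi e N Nf D z) {k : ℕ}
    (hk : k + 4 ≤ j + 1) : cst 4 (fun _ => k) z = Ew.cstW 4 w7 j 5 4 k + k := by
  rw [cst_eq, Finset.sum_range_succ, nab_self, h.lev]
  unfold Ew.cstW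
  rw [Finset.sum_congr rfl (g := fun i => min k (i - 4) *
    Ew.nbW 4 w7 j 5 i) (fun i hi => by
      rw [mem_range] at hi
      rw [h.nab K hrow (by omega)])]
  rw [Nat.min_eq_left (by omega), mul_one]

lemma c16 : Ew.cstW 4 w7 16 5 4 9 = 112 ∧ Ew.nbW 4 w7 16 5 4 = 2 ∧ Ew.nbW 4 w7 16 5 13 = 1 ∧
    E7t4 16 5 + 1 = 9 ∧ ∑ k ∈ range (16 + 1), min 9 (k - 4) = 72 ∧ MinB 16 9 0 112 := by
  refine ⟨?_, ?_, ?_, ?_, ?_, ?_, ?_⟩ <;> decide +kernel

/-- **No own elements of `E7` of level `17`**, `j = 16`. -/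
theorem Fs.no_own (F : Fs P 16 lo hi e N θ4 Nf θf D) (K : Ctx P r 16 lo hi e)
    (Y : Y4 r 16 K3 K' V3 N b θ3 θ4) {tb : ℕ → ℕ → ℕ}
    (hdv : HDv P 121 0 N θ4 Nf D (Gd 16 9 0 lo hi e Nf θf tb))
    (hmin : ∀ z ∈ bdR (rA N), 121 < cst 4 (hA N θ4) z) :
    ¬ ∃ z, Own 16 lo hi e N Nf D z := by
  classical
  rintro ⟨z0, hz0⟩
  obtain ⟨k1, k2, k3, k4, k5, k6⟩ := c16
  have hL : 2 ≤ (lv P 4).card := by
    have h1 := nab_le_card (P := P) 4 z0
    rw [hz0.nab K row5_16 (by omega), k2] at h1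
    exact h1
  obtain ⟨c0, hc0⟩ : ∃ c0, c0 + 1 = (lv P 4).card := ⟨(lv P 4).card - 1, by omega⟩
  have key := F.part_zero K (by norm_num) Y hdv hmin (univ.filter (Own 16 lo hi e N Nf D))
    (h2 := 9) (by norm_num)
    (fun z hz => by
      have := (mem_filter.mp hz).2.lev
      omega)
    (fun z hz => by
      rw [(mem_filter.mp hz).2.cst K row5_16 (by norm_num), k1])
    (fun z hz => by
      obtain ⟨t, g1, g2⟩ := (mem_filter.mp hz).2
      have gl := g1.lev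
      exact Finset.card_pos.mpr ⟨t, g1.mem_KG K F k4 le_rfl (by omega) (Or.inl rfl)⟩)
    (fun e' F' hV hs hok hcard => by
      obtain ⟨t, ht⟩ := Finset.card_pos.mp hcard
      rcases F.bad_cases K (by norm_num) Y row5_16 (cS := 144) de_16 k4 (Or.inr rfl) hV hok ht
        with ⟨z, hz⟩ | h1
      · have hl := hz.hit.lev
        by_cases hzB : z ∈ onlyB t
        · refine ⟨z, mem_filter.mpr ⟨mem_univ _, t, hz.hit, hzB⟩, ?_⟩
          exact ez_le (h := fun _ => 9) hV (by omega) (Or.inr hz.le)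
        · exfalso
          obtain ⟨u, hu, hzu⟩ := hz.hit.other K hzB
          have g1 := low_energy K (by norm_num) hV hl hzu hz.le
          have g2 := hz.cst _ hz.le
          rw [k5] at g1
          rw [k1, hz.hit.fine] at g2
          have g3 : ∑ y ∈ lowPart 16 (u : P), e' y + ∑ y ∈ lowPart 16 (t : P), e' y ≤
              ∑ x, e' x := by
            rw [← Finset.sum_union (disj_low K hu)]
            exact Finset.sum_le_sum_of_subset (Finset.subset_univ _)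
          omega
      · exfalso
        have g3 : ∑ y ∈ Nf t, e' y ≤ ∑ x, e' x :=
          Finset.sum_le_sum_of_subset (Finset.subset_univ _)
        omega)
    (c0 := c0) (by omega)
    (fun z hz => by
      have h := (mem_filter.mp hz).2
      rw [h.nab K row5_16 (by omega), h.nab K row5_16 (by omega), k2, k3]
      omega)
  have h5 : (univ.filter (Own 16 lo hi e N Nf D)).filter
      (fun z => c0 + nab 4 z = (lv P 4).card + nab (4 + 9) z) =
      univ.filter (Own 16 lo hi e N Nf D) := by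
    refine Finset.filter_true_of_mem fun z hz => ?_
    have h := (mem_filter.mp hz).2
    rw [h.nab K row5_16 (by omega), h.nab K row5_16 (by omega), k2, k3]
    omega
  have h6 : ∀ z ∈ univ.filter (Own 16 lo hi e N Nf D), nst 4 (fun _ => 9) z =
      ∑ i ∈ range 9, Ew.nbW 4 w7 16 5 (4 + i) := by
    intro z hz
    rw [nst_eq]
    refine Finset.sum_congr rfl fun i hi => ?_
    rw [mem_range] at hi
    exact (mem_filter.mp hz).2.nab K row5_16 (by omega)
  rw [h5, Finset.sum_congr rfl (g := fun _ => (-1 : ℤ) ^ (∑ i ∈ range 9,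
    Ew.nbW 4 w7 16 5 (4 + i))) (fun z hz => by rw [h6 z hz]), Finset.sum_const] at key
  have h7 := Finset.card_pos.mpr ⟨z0, mem_filter.mpr ⟨mem_univ z0, hz0⟩⟩
  rw [smul_eq_zero] at key
  rcases key with key | key
  · omega
  · exact absurd key (pow_ne_zero _ (by norm_num))

/-- at most one bad top, `j = 16`, without own elements of level `17` and without joins of two
`E7` tops -/
theorem Fs.card_le_one16 (F : Fs P 16 lo hi e N θ4 Nf θf D) (K : Ctx P r 16 lo hi e)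
    (Y : Y4 r 16 K3 K' V3 N b θ3 θ4) {tb : ℕ → ℕ → ℕ} {n : ℕ} (hn : n < 256)
    (hO : ¬ ∃ z, Own 16 lo hi e N Nf D z) (hE : ¬ ∃ z, E2 16 lo hi e N Nf D z)
    {e' : P → ℕ} {F' : Finset P} (hV : Vd 4 e' F') (hs : ∑ x, e' x = n)
    (hok : Ew.Ok (rA N) (thA N θ4) e') :
    (El.KG (ED D) Nf (Gd 16 9 0 lo hi e Nf θf tb) e').card ≤ 1 := by
  classical
  by_contra hcon
  obtain ⟨k1, k2, k3, k4, k5, k6⟩ := c16
  obtain ⟨t, t', z, z', hne, h1, h2, h3, h4⟩ := F.two_bad K (by norm_num) Y row5_16 (cS := 144)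
    de_16 k4 (Or.inr rfl) k6 (by omega) (by omega) hV hs hok (not_le.mp hcon)
  have hl := h1.hit.lev
  have hzB : z ∉ onlyB t := fun h => hO ⟨z, t, h1.hit, h⟩
  obtain ⟨u, hu, hzu⟩ := h1.hit.other K hzB
  have hut : u ≠ t' := by
    rintro rfl
    obtain ⟨y, hzy, hyu, hly⟩ := exists_row K hl hzu
    obtain ⟨r1, r2⟩ := h2.hit.word.rows (K.comp u)
    have q1 := r1 16 le_rfl
    have q2 := r2 16 le_rfl
    have e1 := row5_16.1
    have e2 := row5_16.2
    obtain ⟨s, a1, a2, a3⟩ := (K.comp u).surj y hyu (by omega)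
    rw [hly] at a1 a2 a3
    have hs5 : s = 5 := by omega
    subst hs5
    exact hE ⟨z, t, u, hne, h1.hit, ⟨h2.hit.dt, h2.hit.word, h2.hit.nat, h2.hit.fine, hl, a1, a2,
      by rw [a3]; exact hzy⟩⟩
  have g1 := low_energy K (by norm_num) hV hl hzu h1.le
  have g2 := h1.cst _ h1.le
  have g2' := h2.cst _ h2.le
  rw [k5] at g1
  rw [k1, h1.hit.fine] at g2
  rw [k1, h2.hit.fine] at g2'
  have g3 : ∑ y ∈ lowPart 16 (u : P), e' y + (∑ y ∈ lowPart 16 (t : P), e' y +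
      ∑ y ∈ lowPart 16 (t' : P), e' y) ≤ ∑ x, e' x := by
    rw [← Finset.sum_union (disj_low K hne), ← Finset.sum_union]
    · exact Finset.sum_le_sum_of_subset (Finset.subset_univ _)
    · rw [Finset.disjoint_union_right]
      exact ⟨disj_low K hu, disj_low K hut⟩
  omega

end Pool.Agent.GaussPoset.Ec

end

/-! From `Pool.Agent.W_448s7_h27.EwM` -/

section

/-!
Window `4`, `j = 12`: bad tops, pairs of bad tops, joins of two `E7` tops (MP_448cb3_co).
-/

namespace Pool.Agent.GaussPoset.Ec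

set_option linter.unusedSectionVars false

open Polynomial Finset Sm Wd Cp W4 Cl

universe u

variable {P : Type u} [Fintype P] [PartialOrder P] [DecidableEq P] {r : ℕ}
  {lo hi : Tops P → ℕ → ℕ} {e : Tops P → ℕ → ℕ → P} {N : Tops P → Finset P}
  {θ3 θ4 : Tops P → P → ℕ} {Nf : Tops P → Finset P} {θf : Tops P → (ℕ → ℕ → ℕ) → P → ℕ}
  {D : Tops P → Prop} {K3 K' V3 : ℕ} {b : Tops P → ℕ}

/-- the tables for `j = 12` -/
def tb12 (p k s : ℕ) : ℕ := if k = 12 then p else E7t4 k s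

/-- good labels for `j = 12` -/
def Gd12 (lo hi : Tops P → ℕ → ℕ) (e : Tops P → ℕ → ℕ → P)
    (Nf : Tops P → Finset P) (θf : Tops P → (ℕ → ℕ → ℕ) → P → ℕ)
    (t : Tops P) (β : P → ℕ) (m : ℕ) : Prop :=
  (∀ x ∈ Nf t, β x ≤ θf t E7t4 x) ∨
    (WordD 12 4 w7 (lo t) (hi t) ∧ (∀ x ∈ Nf t, β x ≤ θf t (tb12 5) x) ∧
      (∀ x ∈ Nf t, x = e t 12 5 → β x = 5) ∧ m < 62) ∨
    (WordD 12 4 w7 (lo t) (hi t) ∧ (∀ x ∈ Nf t, β x ≤ θf t (tb12 6) x) ∧
      (∀ x ∈ Nf t, x = e t 12 5 → β x = 6) ∧ m < 61)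

/-- the label of a hit of a stair top is at least `j - 7` -/
theorem Fs.stair_label (F : Fs P 12 lo hi e N θ4 Nf θf D)
    (Y : Y4 r 12 K3 K' V3 N b θ3 θ4) {t : Tops P} (ht : D t) (h3 : hi t 4 - lo t 4 + 1 = 3)
    {tb : ℕ → ℕ → ℕ} {e' : P → ℕ} {z x : P} (hzx : z ⋖ x) (hx : x ∈ Nf t) (hz : z ∉ Nf t)
    (hlt : θf t tb x < e' z) : 5 ≤ e' z := by
  have H := Y.W.gt.H
  have HN := Y.W.natSys
  have e1 := (H.covBy_iff.mp hzx).2
  rcases F.typ t with ⟨k1, k2, k3, k4, k5, k6, k7⟩ | ⟨c, Nc, co, k0, k1, k2, k3, k4, k5, k6, k7⟩ |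
    ⟨k0, k1, k2, k3, k4, k5, k6, k7, k8⟩ | ⟨Nc, co, k0, k1, k2, k3, k4, k5, k6⟩
  · exact absurd ht k6
  · exact absurd ht k6
  · have := k0.row
    omega
  · rw [k4] at hx hz
    obtain ⟨hxu, hxt⟩ := HN.mem_iff.mp hx
    have hzu : z ∈ unnat N := by
      by_contra hcon
      apply hz
      refine HN.mem_iff.mpr ⟨hcon, ?_⟩
      rw [← hxt]
      exact (Y.W.up hcon hzx.1.le).2.symm
    have hlz := Y.W.lt_lev hzu
    rw [k5] at hlt
    rw [k1] at hx
    by_cases hJ : x ∈ junk (fun c => c.1 ≤ c.2) Nc co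
    · simp only at hlt
      unfold thS at hlt
      rw [if_pos hJ] at hlt
      omega
    · have hxN : x ∈ Nc := by
        rw [mem_natS] at hx
        exact hx.resolve_right hJ
      have hl := k0.chart.lev x hxN
      simp only at hlt
      unfold thS at hlt
      rw [if_neg hJ] at hlt
      omega

/-- a bad top for `j = 12` -/
def Bad12 (lo hi : Tops P → ℕ → ℕ) (e : Tops P → ℕ → ℕ → P)
    (N Nf : Tops P → Finset P) (D : Tops P → Prop) (e' : P → ℕ) (t : Tops P) (z : P) : Prop :=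
  (HitE 12 lo hi e N Nf D t z 4 ∧ 5 ≤ e' z ∧ 59 ≤ ∑ y ∈ Nf t, e' y) ∨
  (HitE 12 lo hi e N Nf D t z 5 ∧ ((e' z = 5 ∧ 62 ≤ ∑ y ∈ Nf t, e' y) ∨
    (e' z = 6 ∧ 61 ≤ ∑ y ∈ Nf t, e' y) ∨ (7 ≤ e' z ∧ 60 ≤ ∑ y ∈ Nf t, e' y))) ∨
  ((∃ x ∈ N t, z ⋖ x) ∧ z ∉ N t ∧ 5 ≤ e' z ∧ 62 ≤ ∑ y ∈ Nf t, e' y)

lemma cst12 : Ew.cstW 4 w7 12 4 4 5 = 59 ∧ Ew.cstW 4 w7 12 5 4 7 = 60 ∧
    losW 4 w7 12 = 4 ∧ hisW 4 w7 12 = 5 ∧ E7t4 12 4 = 4 ∧ E7t4 12 5 = 4 := by decide +kernel

theorem Fs.bad12 (F : Fs P 12 lo hi e N θ4 Nf θf D) (K : Ctx P r 12 lo hi e)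
    (Y : Y4 r 12 K3 K' V3 N b θ3 θ4)
    {e' : P → ℕ} {F' : Finset P} (hV : Vd 4 e' F') (hok : Ew.Ok (rA N) (thA N θ4) e')
    {t : Tops P} (ht : t ∈ El.KG (ED D) Nf (Gd12 lo hi e Nf θf) e') :
    ∃ z, Bad12 lo hi e N Nf D e' t z := by
  classical
  have H := K.gt.H
  obtain ⟨c1, c2, c3, c4, c5, c6⟩ := cst12
  obtain ⟨htE, hbad⟩ := El.mem_KG.mp ht
  unfold El.GoodE Gd12 at hbad
  rw [not_or, not_or] at hbad
  obtain ⟨hb1, hb2, hb3⟩ := hbad
  push Not at hb1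
  obtain ⟨x, hx, hlt⟩ := hb1
  obtain ⟨z, hz, hzx, hez⟩ := bl_pos (lt_of_le_of_lt (Nat.zero_le _) hlt)
  have hzN : z ∉ Nf t := (mem_sdiff.mp hz).2
  have hlt' : θf t E7t4 x < e' z := by rw [hez]; exact hlt
  rcases F.hit_cases K le_rfl Y (cS := 62) de_12 hV hok (mem_ED.mp htE) hzx hx hzN hlt' with
    ⟨s, h1, h2, h3, h4⟩ | ⟨h1, h1'⟩
  · obtain ⟨r1, r2⟩ := h1.word.rows (K.comp t)
    have q1 := r1 12 le_rfl
    have q2 := r2 12 le_rfl
    have hs1 := h1.lo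
    have hs2 := h1.hi
    have hs : s = 4 ∨ s = 5 := by omega
    -- the labels elsewhere
    have hlow : ∀ y ∈ Nf t, lev y ≠ 12 → El.bl (univ \ Nf t) e' y = 0 := by
      intro y hy hly
      refine Nat.le_zero.mp (El.bl_le fun z' hz' hz'y => ?_)
      exfalso
      have hyl := mem_lowPart.mp (h1.fine ▸ hy)
      refine (mem_sdiff.mp hz').2 ?_
      rw [h1.fine]
      have e3 := (H.covBy_iff.mp hz'y).2
      exact mem_lowPart.mpr ⟨hz'y.1.le.trans hyl.1, by omega⟩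
    have hθ : ∀ tb : ℕ → ℕ → ℕ, θf t tb = thC (lo t) (hi t) (e t) tb := by
      intro tb
      rcases F.typ t with ⟨k1, k2, k3, k4, k5, k6, k7⟩ |
        ⟨c, Nc, co, k0, k1, k2, k3, k4, k5, k6, k7⟩ |
        ⟨k0, k1, k2, k3, k4, k5, k6, k7, k8⟩ | ⟨Nc, co, k0, k1, k2, k3, k4, k5, k6⟩
      · exact absurd (mem_ED.mp htE) k6
      · exact absurd (mem_ED.mp htE) k6
      · rw [k5]
      · have := h1.word.row
        omega
    have hx5 : e t 12 5 ∈ Nf t := by
      rw [h1.fine]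
      exact mem_lowPart.mpr ⟨(K.comp t).le_t 12 5 le_rfl (by omega) (by omega),
        ((K.comp t).lev_e 12 5 le_rfl (by omega) (by omega)).le⟩
    have hx4 : e t 12 4 ∈ Nf t := by
      rw [h1.fine]
      exact mem_lowPart.mpr ⟨(K.comp t).le_t 12 4 le_rfl (by omega) (by omega),
        ((K.comp t).lev_e 12 4 le_rfl (by omega) (by omega)).le⟩
    set a4 := El.bl (univ \ Nf t) e' (e t 12 4) with ha4
    set a5 := El.bl (univ \ Nf t) e' (e t 12 5) with ha5
    -- positions of level 12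
    have hpos : ∀ y ∈ Nf t, lev y = 12 → y = e t 12 4 ∨ y = e t 12 5 := by
      intro y hy hly
      have hyl := mem_lowPart.mp (h1.fine ▸ hy)
      obtain ⟨s', b1, b2, b3⟩ := (K.comp t).surj y hyl.1 (by omega)
      rw [hly] at b1 b2 b3
      have hs' : s' = 4 ∨ s' = 5 := by omega
      rcases hs' with rfl | rfl
      · exact Or.inl b3.symm
      · exact Or.inr b3.symm
    have htab : ∀ p, a4 ≤ p → a5 ≤ p → ∀ y ∈ Nf t, El.bl (univ \ Nf t) e' y ≤ θf t (tb12 p) y := by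
      intro p g4 g5 y hy
      by_cases hly : lev y = 12
      · rcases hpos y hy hly with rfl | rfl
        · rw [hθ, thC_e (K.comp t) (tb12 p) le_rfl (by omega) (by omega)]
          exact g4
        · rw [hθ, thC_e (K.comp t) (tb12 p) le_rfl (by omega) (by omega)]
          exact g5
      · rw [hlow y hy hly]
        exact Nat.zero_le _
    -- a hit at a position with the label of the position
    have hmk : ∀ s', (s' = 4 ∨ s' = 5) → 4 < El.bl (univ \ Nf t) e' (e t 12 s') →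
        ∃ z, HitE 12 lo hi e N Nf D t z s' ∧ e' z = El.bl (univ \ Nf t) e' (e t 12 s') ∧
          ∀ h, h ≤ e' z → Ew.cstW 4 w7 12 s' 4 h ≤ ∑ y ∈ Nf t, e' y := by
      intro s' hs' hgt
      obtain ⟨z', hz', hzx', hez'⟩ := bl_pos (lt_of_le_of_lt (Nat.zero_le _) hgt)
      have hzN' : z' ∉ Nf t := (mem_sdiff.mp hz').2
      have hxs : e t 12 s' ∈ Nf t := by rcases hs' with rfl | rfl; exacts [hx4, hx5]
      have hlt'' : θf t E7t4 (e t 12 s') < e' z' := by
        rw [hθ, thC_e (K.comp t) E7t4 le_rfl (by omega) (by omega), hez']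
        rcases hs' with rfl | rfl <;> omega
      rcases F.hit_cases K le_rfl Y (cS := 62) de_12 hV hok (mem_ED.mp htE) hzx' hxs hzN' hlt''
        with ⟨s'', g1, g2, g3, g4⟩ | ⟨-, g1⟩
      · have g5 := (K.comp t).inj 12 s' s'' le_rfl (by omega) (by omega) g1.lo g1.hi g2
        subst g5
        exact ⟨z', g1, hez', g4⟩
      · have := h1.word.row
        omega
    by_cases g4 : 4 < a4
    · obtain ⟨z', f1, f2, f3⟩ := hmk 4 (Or.inl rfl) g4
      refine ⟨z', Or.inl ⟨f1, by omega, ?_⟩⟩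
      rw [← c1]
      exact f3 5 (by omega)
    · have g5 : 4 < a5 := by
        rcases hs with rfl | rfl
        · rw [h2] at hez
          omega
        · rw [h2] at hez
          omega
      obtain ⟨z', f1, f2, f3⟩ := hmk 5 (Or.inr rfl) g5
      refine ⟨z', Or.inr (Or.inl ⟨f1, ?_⟩)⟩
      rw [← ha5] at f2
      rcases Nat.lt_or_ge a5 7 with g7 | g7
      · have g6 : a5 = 5 ∨ a5 = 6 := by omega
        rcases g6 with g6 | g6
        · left
          refine ⟨by omega, ?_⟩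
          by_contra hcon
          exact hb2 ⟨h1.word, htab 5 (by omega) (by omega), fun y _ hy => by rw [hy]; exact g6,
            by omega⟩
        · right; left
          refine ⟨by omega, ?_⟩
          by_contra hcon
          exact hb3 ⟨h1.word, htab 6 (by omega) (by omega), fun y _ hy => by rw [hy]; exact g6,
            by omega⟩
      · right; right
        refine ⟨by omega, ?_⟩
        rw [← c2]
        exact f3 7 (by omega)
  · refine ⟨z, Or.inr (Or.inr ⟨⟨x, ?_, hzx⟩, ?_, F.stair_label Y (mem_ED.mp htE) h1' hzx hx hzN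
      hlt', h1⟩)⟩
    · exact (F.typ t).sub hx
    · rcases F.typ t with ⟨k1, k2, k3, k4, k5, k6, k7⟩ |
        ⟨c, Nc, co, k0, k1, k2, k3, k4, k5, k6, k7⟩ |
        ⟨k0, k1, k2, k3, k4, k5, k6, k7, k8⟩ | ⟨Nc, co, k0, k1, k2, k3, k4, k5, k6⟩
      · exact absurd (mem_ED.mp htE) k6
      · exact absurd (mem_ED.mp htE) k6
      · have := k0.row
        omega
      · rw [← k4]
        exact hzN

lemma Bad12.not_mem (F : Fs P 12 lo hi e N θ4 Nf θf D) (K : Ctx P r 12 lo hi e)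
    (Y : Y4 r 12 K3 K' V3 N b θ3 θ4) {e' : P → ℕ} {t : Tops P} {z : P}
    (h : Bad12 lo hi e N Nf D e' t z) (u : Tops P) : z ∉ Nf u := by
  have HN := (F.ew K le_rfl Y).natSys
  rcases h with ⟨h, -⟩ | ⟨h, -⟩ | ⟨⟨x, hx, hzx⟩, hz, -⟩
  · exact h.not_mem HN (K.comp t) u
  · exact h.not_mem HN (K.comp t) u
  · intro hu
    have h1 := (F.typ u).sub hu
    have H1 := Y.W.natSys
    have h2 := H1.up u z h1 x hzx.1.le
    have h3 : u = t := (H1.topOf_eq h2).symm.trans (H1.topOf_eq hx)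
    exact hz (h3 ▸ h1)

/-- the position `4` of `E7` is never below a join -/
lemma HitE.no_join4 (F : Fs P 12 lo hi e N θ4 Nf θf D) (K : Ctx P r 12 lo hi e)
    (Y : Y4 r 12 K3 K' V3 N b θ3 θ4) {t t' : Tops P} (hne : t ≠ t') {z x' : P}
    (h : HitE 12 lo hi e N Nf D t z 4) (hzx' : z ⋖ x') (hx' : x' ∈ N t') : False := by
  have H := K.gt.H
  obtain ⟨g1, g2⟩ := h.only K
  obtain ⟨u1, u2⟩ := Y.W.natSys.mem_iff.mp hx'
  have hc : Cg z (e t 12 4) x' := Cg.mk' h.cov hzx' (by rw [g2]; exact g1)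
    (mem_onlyB.mpr fun s hs hxs => Y.W.natSys.top_eq
      (Y.W.natSys.mem_iff.mpr ⟨u1, rfl⟩) hs hxs) (by rw [g2, u2]; exact hne)
  have h1 := (K.ends hc h.lev).1
  have h2 := h.nab K (k := 11) (by omega)
  have h3 : GaussPoset.lev (e t 12 4) = 11 + 1 := (K.comp t).lev_e 12 4 le_rfl h.lo h.hi
  rw [nab_uc H h3, h1] at h2
  exact absurd h2 (by decide)

/-- a hit cover -/
lemma Bad12.cover (K : Ctx P r 12 lo hi e) {e' : P → ℕ}
    {t : Tops P} {z : P} (h : Bad12 lo hi e N Nf D e' t z) : ∃ x ∈ N t, z ⋖ x := by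
  rcases h with ⟨h, -⟩ | ⟨h, -⟩ | ⟨h, -⟩
  · exact ⟨_, by rw [h.nat]; exact (h.only K).1, h.cov⟩
  · exact ⟨_, by rw [h.nat]; exact (h.only K).1, h.cov⟩
  · exact h

/-- **Two bad tops**, `j = 12`. -/
theorem Fs.two_bad12 (F : Fs P 12 lo hi e N θ4 Nf θf D) (K : Ctx P r 12 lo hi e)
    (Y : Y4 r 12 K3 K' V3 N b θ3 θ4) {n : ℕ} (hn : n ≤ 127)
    {e' : P → ℕ} {F' : Finset P} (hV : Vd 4 e' F') (hs : ∑ x, e' x = n)
    (hok : Ew.Ok (rA N) (thA N θ4) e')
    (hcard : 1 < (El.KG (ED D) Nf (Gd12 lo hi e Nf θf) e').card) :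
    n = 127 ∧ ∃ z, E2 12 lo hi e N Nf D z ∧ 7 ≤ e' z := by
  classical
  have HN := (F.ew K le_rfl Y).natSys
  obtain ⟨t, ht, t', ht', hne⟩ := Finset.one_lt_card.mp hcard
  obtain ⟨z, hz⟩ := F.bad12 K Y hV hok ht
  obtain ⟨z', hz'⟩ := F.bad12 K Y hV hok ht'
  have hzn := hz.not_mem F K Y
  have hzn' := hz'.not_mem F K Y
  have hm : 59 ≤ ∑ y ∈ Nf t, e' y ∧ 5 ≤ e' z := by
    rcases hz with h | h | h
    · omega
    · omega
    · omega
  have hm' : 59 ≤ ∑ y ∈ Nf t', e' y ∧ 5 ≤ e' z' := by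
    rcases hz' with h | h | h
    · omega
    · omega
    · omega
  by_cases hzz : z = z'
  · subst hzz
    have h4 := Ew.sum_tops HN hne (A := {z}) (fun y hy s => by
      rw [mem_singleton] at hy
      rw [hy]; exact hzn s) e'
    rw [Finset.sum_singleton, hs] at h4
    obtain ⟨x, hx, hzx⟩ := hz.cover K
    obtain ⟨x', hx', hzx'⟩ := hz'.cover K
    rcases hz with ⟨h, -⟩ | ⟨h, h1⟩ | h
    · exact (h.no_join4 F K Y hne hzx' hx').elim
    · rcases hz' with ⟨g, -⟩ | ⟨g, g1⟩ | g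
      · exact (g.no_join4 F K Y (Ne.symm hne) hzx hx).elim
      · refine ⟨by omega, z, ⟨t, t', hne, h, g⟩, by omega⟩
      · exfalso
        omega
    · exfalso
      rcases hz' with ⟨g, -⟩ | ⟨g, g1⟩ | g
      · exact (g.no_join4 F K Y (Ne.symm hne) hzx hx).elim
      · omega
      · omega
  · exfalso
    have h4 := Ew.sum_tops HN hne (A := {z, z'}) (fun y hy s => by
      rw [mem_insert, mem_singleton] at hy
      rcases hy with hy | hy
      · rw [hy]; exact hzn s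
      · rw [hy]; exact hzn' s) e'
    rw [Finset.sum_pair hzz, hs] at h4
    omega

/-- at most one bad top, `j = 12` -/
theorem Fs.card_le_one12 (F : Fs P 12 lo hi e N θ4 Nf θf D) (K : Ctx P r 12 lo hi e)
    (Y : Y4 r 12 K3 K' V3 N b θ3 θ4) {n : ℕ}
    (hn : n ≤ 126 ∨ (n ≤ 127 ∧ ¬ ∃ z, E2 12 lo hi e N Nf D z))
    {e' : P → ℕ} {F' : Finset P} (hV : Vd 4 e' F') (hs : ∑ x, e' x = n)
    (hok : Ew.Ok (rA N) (thA N θ4) e') :
    (El.KG (ED D) Nf (Gd12 lo hi e Nf θf) e').card ≤ 1 := by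
  by_contra hcon
  obtain ⟨h1, z, h2, -⟩ := F.two_bad12 K Y (by omega) hV hs hok (not_le.mp hcon)
  rcases hn with h | h
  · omega
  · exact h.2 ⟨z, h2⟩

end Pool.Agent.GaussPoset.Ec

end

/-! From `Pool.Agent.W_448s7_h27.EwQ` -/

section

/-!
Window `4`: divisibility of the sums with soft defects (MP_448cb3_co, S7).
-/

namespace Pool.Agent.GaussPoset.Ec

set_option linter.unusedSectionVars false

open Polynomial Finset Sm Wd Cp W4 Cl

universe u

variable {P : Type u} [Fintype P] [PartialOrder P] [DecidableEq P] {r j : ℕ}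
  {lo hi : Tops P → ℕ → ℕ} {e : Tops P → ℕ → ℕ → P} {N : Tops P → Finset P}
  {θ3 θ4 : Tops P → P → ℕ} {Nf : Tops P → Finset P} {θf : Tops P → (ℕ → ℕ → ℕ) → P → ℕ}
  {D : Tops P → Prop} {K3 K' V3 : ℕ} {b : Tops P → ℕ}

theorem Fs.hdv_of (F : Fs P j lo hi e N θ4 Nf θf D) (K : Ctx P r j lo hi e) (h12 : 12 ≤ j)
    (Y : Y4 r j K3 K' V3 N b θ3 θ4) {tb : ℕ → ℕ → ℕ} (htb : TbOK tb) {n d : ℕ}
    {good : Tops P → (P → ℕ) → ℕ → Prop}
    (hloc : ∀ t ∈ ED D, ∀ β β' : P → ℕ, (∀ x ∈ Nf t, β x = β' x) → ∀ m, good t β m → good t β' m)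
    (hcap : ∀ t ∈ ED D, ∀ β m, good t β m → ∀ x ∈ Nf t, β x ≤ θf t tb x)
    (hgood : ∀ t ∈ ED D, ∀ β m, m ≤ n → good t β m → (∀ x ∈ Nf t, β x ≤ θf t E7t4 x) ∨
      (1 + X : ℤ[X]) ^ (hi t 4 - lo t 4 + 1) ∣
        ZB (P := {x : P // x ∈ Nf t}) 4 ∅ 0 (fun x => β x) m)
    (htw : ∀ x ∈ twA N, n < tcst 4 (thA N θ4) (twT N x, x)) :
    HDv P n d N θ4 Nf D good := by
  intro S hS hd
  exact (pow_dvd_pow _ (by omega)).trans (F.graded K h12 Y htb hloc hcap hgood htw hS)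

/-- the part of an `E7` top -/
lemma Fs.word (F : Fs P j lo hi e N θ4 Nf θf D) (K : Ctx P r j lo hi e) {t : Tops P}
    (hD : D t) (hw : WordD j 4 w7 (lo t) (hi t)) :
    Nf t = lowPart j (t : P) ∧ θf t = (fun tb => thC (lo t) (hi t) (e t) tb) ∧
      hi t 4 - lo t 4 + 1 = 2 ∧ j ≤ 16 := by
  rcases F.typ t with ⟨k1, k2, k3, k4, k5, k6, k7⟩ | ⟨c, Nc, co, k0, k1, k2, k3, k4, k5, k6, k7⟩ |
    ⟨k0, k1, k2, k3, k4, k5, k6, k7, k8⟩ | ⟨Nc, co, k0, k1, k2, k3, k4, k5, k6⟩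
  · exact absurd hD k6
  · exact absurd hD k6
  · exact ⟨k4, k5, k3, k8⟩
  · have := hw.row
    omega

lemma thC_le {lo hi : ℕ → ℕ} {e : ℕ → ℕ → P} {tb : ℕ → ℕ → ℕ} {t : P} {c : ℕ}
    (h : ∀ k s, k ≤ j → tb k s ≤ c) {x : P} (hx : x ∈ lowPart j t) : thC lo hi e tb x ≤ c :=
  h _ _ (mem_lowPart.mp hx).2

lemma Gd.loc {p1 M : ℕ} {tb : ℕ → ℕ → ℕ} (t : Tops P) (β β' : P → ℕ)
    (h : ∀ x ∈ Nf t, β x = β' x) (m : ℕ) (hg : Gd j p1 M lo hi e Nf θf tb t β m) :
    Gd j p1 M lo hi e Nf θf tb t β' m := by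
  rcases hg with h1 | ⟨h1, h2, h3, h4⟩
  · exact Or.inl fun x hx => h x hx ▸ h1 x hx
  · exact Or.inr ⟨h1, fun x hx => h x hx ▸ h2 x hx, fun x hx hxe => h x hx ▸ h3 x hx hxe, h4⟩

lemma Gd12.loc (t : Tops P) (β β' : P → ℕ)
    (h : ∀ x ∈ Nf t, β x = β' x) (m : ℕ) (hg : Gd12 lo hi e Nf θf t β m) :
    Gd12 lo hi e Nf θf t β' m := by
  rcases hg with h1 | ⟨h1, h2, h3, h4⟩ | ⟨h1, h2, h3, h4⟩
  · exact Or.inl fun x hx => h x hx ▸ h1 x hx
  · exact Or.inr (Or.inl ⟨h1, fun x hx => h x hx ▸ h2 x hx, fun x hx hxe => h x hx ▸ h3 x hx hxe,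
      h4⟩)
  · exact Or.inr (Or.inr ⟨h1, fun x hx => h x hx ▸ h2 x hx, fun x hx hxe => h x hx ▸ h3 x hx hxe,
      h4⟩)

/-- plain labels are below every larger table -/
lemma Fs.cap (F : Fs P j lo hi e N θ4 Nf θf D) {t : Tops P} (hD : D t)
    {tb tb' : ℕ → ℕ → ℕ} (h : ∀ k s, k ≤ j → tb k s ≤ tb' k s) {β : P → ℕ}
    (hβ : ∀ x ∈ Nf t, β x ≤ θf t tb x) : ∀ x ∈ Nf t, β x ≤ θf t tb' x := by
  intro x hx
  refine (hβ x hx).trans ?_
  rcases F.typ t with ⟨k1, k2, k3, k4, k5, k6, k7⟩ | ⟨c, Nc, co, k0, k1, k2, k3, k4, k5, k6, k7⟩ |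
    ⟨k0, k1, k2, k3, k4, k5, k6, k7, k8⟩ | ⟨Nc, co, k0, k1, k2, k3, k4, k5, k6⟩
  · rw [k5]
  · rw [k5]
  · rw [k5]
    rw [k4] at hx
    exact h _ _ (mem_lowPart.mp hx).2
  · rw [k5]

/-- the bounds on the part of an `E7` top -/
def HBF (P : Type u) [Fintype P] [PartialOrder P] [DecidableEq P] (j : ℕ)
    (lo hi : Tops P → ℕ → ℕ) (e : Tops P → ℕ → ℕ → P) (c p1 M : ℕ) : Prop :=
  ∀ t : Tops P, WordD j 4 w7 (lo t) (hi t) → ∀ B : {x : P // x ∈ lowPart j (t : P)} → ℕ,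
    (∀ x, B x ≤ c) → (∀ x : {x : P // x ∈ lowPart j (t : P)}, (x : P) = e t j 5 → B x = p1) →
    ∀ m, m < M → (1 + X : ℤ[X]) ^ 2 ∣ ZB 4 ∅ 0 B m

lemma ZB_part {A A' : Finset P} (h : A = A') (β : P → ℕ) (m : ℕ) {b : ℕ}
    (h1 : (1 + X : ℤ[X]) ^ b ∣ ZB (P := {x : P // x ∈ A'}) 4 ∅ 0 (fun x => β x) m) :
    (1 + X : ℤ[X]) ^ b ∣ ZB (P := {x : P // x ∈ A}) 4 ∅ 0 (fun x => β x) m := by
  subst h
  exact h1

/-- **Divisibility with the graded labels `Gd`.** -/
theorem Fs.hdv_Gd (F : Fs P j lo hi e N θ4 Nf θf D) (K : Ctx P r j lo hi e) (h12 : 12 ≤ j)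
    (Y : Y4 r j K3 K' V3 N b θ3 θ4) {tb : ℕ → ℕ → ℕ} {n d p1 M : ℕ}
    (htb : TbOK tb) (hm : ∀ k s, k ≤ j → E7t4 k s ≤ tb k s)
    {c : ℕ} (hc : ∀ k s, k ≤ j → tb k s ≤ c) (hbf : HBF P j lo hi e c p1 M)
    (htw : ∀ x ∈ twA N, n < tcst 4 (thA N θ4) (twT N x, x)) :
    HDv P n d N θ4 Nf D (Gd j p1 M lo hi e Nf θf tb) := by
  refine F.hdv_of K h12 Y htb (fun t _ β β' h m hg => Gd.loc t β β' h m hg) ?_ ?_ htw
  · intro t ht β m hg
    rcases hg with h1 | ⟨h1, h2, h3, h4⟩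
    · exact F.cap (mem_ED.mp ht) hm h1
    · exact h2
  · intro t ht β m hmn hg
    rcases hg with h1 | ⟨h1, h2, h3, h4⟩
    · exact Or.inl h1
    · right
      obtain ⟨k1, k2, k3, k4⟩ := F.word K (mem_ED.mp ht) h1
      rw [k3]
      refine ZB_part k1 β m (hbf t h1 _ (fun x => ?_) (fun x hx => ?_) m h4)
      · have := h2 x (by rw [k1]; exact x.2)
        rw [k2] at this
        exact this.trans (thC_le hc x.2)
      · exact h3 x (by rw [k1]; exact x.2) hx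

/-- **Divisibility with the graded labels `Gd12`.** -/
theorem Fs.hdv_Gd12 (F : Fs P 12 lo hi e N θ4 Nf θf D) (K : Ctx P r 12 lo hi e)
    (Y : Y4 r 12 K3 K' V3 N b θ3 θ4) {n d : ℕ}
    (htw : ∀ x ∈ twA N, n < tcst 4 (thA N θ4) (twT N x, x)) :
    HDv P n d N θ4 Nf D (Gd12 lo hi e Nf θf) := by
  have H := K.gt.H
  have hg : ∀ l, l < 12 → Win.Good P l := fun l hl => K.gt.good l (by omega)
  have e1 : ∀ k s, k ≤ 12 → E7t4 k s ≤ tb12 6 k s := by
    intro k s hk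
    unfold tb12
    split_ifs with h
    · subst h
      unfold E7t4
      simp only [tab]
      split_ifs <;> omega
    · exact le_rfl
  have e2 : TbOK (tb12 6) := by
    intro k s
    have := tbOK_E7t4 k s
    unfold tb12
    split_ifs with h
    · omega
    · exact this
  have e3 : ∀ p k s, 5 ≤ p → k ≤ 12 → tb12 p k s ≤ p := by
    intro p k s hp hk
    unfold tb12
    split_ifs with h
    · exact le_rfl
    · unfold E7t4
      simp only [tab]
      split_ifs <;> omega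
  have e4 : ∀ k s, k ≤ 12 → tb12 5 k s ≤ tb12 6 k s := by
    intro k s hk
    unfold tb12
    split_ifs with h
    · omega
    · exact le_rfl
  refine F.hdv_of K le_rfl Y e2 (fun t _ β β' h m hg => Gd12.loc t β β' h m hg) ?_ ?_ htw
  · intro t ht β m hg
    rcases hg with h1 | ⟨h1, h2, h3, h4⟩ | ⟨h1, h2, h3, h4⟩
    · exact F.cap (mem_ED.mp ht) e1 h1
    · exact F.cap (mem_ED.mp ht) e4 h2
    · exact h2
  · intro t ht β m hmn hgd
    rcases hgd with h1 | ⟨h1, h2, h3, h4⟩ | ⟨h1, h2, h3, h4⟩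
    · exact Or.inl h1
    · right
      obtain ⟨k1, k2, k3, k4⟩ := F.word K (mem_ED.mp ht) h1
      rw [k3]
      refine ZB_part k1 β m (bf12_5 h1 (K.comp t) H hg t.2 (fun x => ?_) (fun x hx => ?_)
        (by omega))
      · have := h2 x (by rw [k1]; exact x.2)
        rw [k2] at this
        exact this.trans (thC_le (fun k s hk => e3 5 k s le_rfl hk) x.2)
      · exact h3 x (by rw [k1]; exact x.2) hx
    · right
      obtain ⟨k1, k2, k3, k4⟩ := F.word K (mem_ED.mp ht) h1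
      rw [k3]
      refine ZB_part k1 β m (bf12_6 h1 (K.comp t) H hg t.2 (fun x => ?_) (fun x hx => ?_)
        (by omega))
      · have := h2 x (by rw [k1]; exact x.2)
        rw [k2] at this
        exact this.trans (thC_le (fun k s hk => e3 6 k s (by omega) hk) x.2)
      · exact h3 x (by rw [k1]; exact x.2) hx

/-- the tables for `j = 14, 15, 16` -/
def tbj (j p k s : ℕ) : ℕ := if k = j then p else E7t4 k s

lemma tbj_ok {j : ℕ} (hj : 12 ≤ j) : TbOK (tbj j (j - 7)) ∧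
    (∀ k s, k ≤ j → E7t4 k s ≤ tbj j (j - 7) k s) ∧ (∀ k s, k ≤ j → tbj j (j - 7) k s ≤ j - 7) := by
  refine ⟨fun k s => ?_, fun k s hk => ?_, fun k s hk => ?_⟩
  · have := tbOK_E7t4 k s
    unfold tbj
    split_ifs with h
    · omega
    · exact this
  · unfold tbj
    split_ifs with h
    · subst h
      unfold E7t4
      simp only [tab]
      split_ifs <;> omega
    · exact le_rfl
  · unfold tbj
    split_ifs with h
    · exact le_rfl
    · unfold E7t4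
      simp only [tab]
      split_ifs <;> omega

theorem Fs.hdv14 (F : Fs P 14 lo hi e N θ4 Nf θf D) (K : Ctx P r 14 lo hi e)
    (Y : Y4 r 14 K3 K' V3 N b θ3 θ4) {n d : ℕ}
    (htw : ∀ x ∈ twA N, n < tcst 4 (thA N θ4) (twT N x, x)) :
    HDv P n d N θ4 Nf D (Gd 14 7 97 lo hi e Nf θf (tbj 14 7)) := by
  have H := K.gt.H
  have hg : ∀ l, l < 14 → Win.Good P l := fun l hl => K.gt.good l (by omega)
  obtain ⟨h1, h2, h3⟩ := tbj_ok (j := 14) (by omega)
  exact F.hdv_Gd K (by omega) Y h1 h2 h3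
    (fun t hw B hB h5 m hm => bf14 hw (K.comp t) H hg t.2 hB h5 (by omega)) htw

theorem Fs.hdv15 (F : Fs P 15 lo hi e N θ4 Nf θf D) (K : Ctx P r 15 lo hi e)
    (Y : Y4 r 15 K3 K' V3 N b θ3 θ4) {n d : ℕ}
    (htw : ∀ x ∈ twA N, n < tcst 4 (thA N θ4) (twT N x, x)) :
    HDv P n d N θ4 Nf D (Gd 15 8 104 lo hi e Nf θf (tbj 15 8)) := by
  have H := K.gt.H
  have hg : ∀ l, l < 15 → Win.Good P l := fun l hl => K.gt.good l (by omega)
  obtain ⟨h1, h2, h3⟩ := tbj_ok (j := 15) (by omega)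
  exact F.hdv_Gd K (by omega) Y h1 h2 h3
    (fun t hw B hB h5 m hm => bf15 hw (K.comp t) H hg t.2 hB h5 (by omega)) htw

/-- plain labels, every `j` -/
theorem Fs.hdv_plain (F : Fs P j lo hi e N θ4 Nf θf D) (K : Ctx P r j lo hi e) (h12 : 12 ≤ j)
    (Y : Y4 r j K3 K' V3 N b θ3 θ4) {n d : ℕ}
    (htw : ∀ x ∈ twA N, n < tcst 4 (thA N θ4) (twT N x, x)) :
    HDv P n d N θ4 Nf D (Gd j (j - 7) 0 lo hi e Nf θf (tbj j (j - 7))) := by
  obtain ⟨h1, h2, h3⟩ := tbj_ok (j := j) h12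
  exact F.hdv_Gd K h12 Y h1 h2 h3
    (fun t hw B hB h5 m hm => absurd hm (Nat.not_lt_zero m)) htw

end Pool.Agent.GaussPoset.Ec

end
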