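import Mathlib
import Pool.Agent.W_448zz_h61.Ns
import Pool.Agent.W_448zz_h61.M064
import Pool.Agent.W_448zz_h61.M077
import Pool.Agent.W_448zz_h61.M078
import Pool.Agent.W_448zz_h61.M130

/-! From `Pool.Agent.W_448f4_h70.FD` -/

section

/-!
# The element below both ends of a stair with a fold (MP_448cb3_co, S7, windows `2`, `3`)

The far window theorem with the full label at this element.
-/

namespace Pool.Agent.GaussPoset

set_option linter.unusedSectionVars false

open Polynomial Finset

universe u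

section Big

variable {P : Type u} [Fintype P] [PartialOrder P] [DecidableEq P]

end Big

end Pool.Agent.GaussPoset

namespace Pool.Agent.GaussPoset.Sm

set_option linter.unusedSectionVars false

open Polynomial Finset

universe u

variable {P : Type u} [Fintype P] [PartialOrder P] [DecidableEq P] {r j w K : ℕ}
  {N : Tops P → Finset P} {b : Tops P → ℕ} {θ : Tops P → P → ℕ} {XE XO : ℕ → Prop}

/-- the fold end of a stair -/
structure FoldC (j w : ℕ) (N : Tops P → Finset P) (b : Tops P → ℕ) (θ : Tops P → P → ℕ)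
    (f : P) (Nc : Finset P) (co : P → ℕ × ℕ) : Prop where
  nat : StairNat j w (topOf f) Nc co
  hN : N (topOf f) = natS Nc co
  hb : b (topOf f) = 2
  mem : f ∈ Nc
  co1 : (co f).1 = j / 2
  co2 : (co f).2 = j / 2
  ev : j % 2 = 0
  th : θ (topOf f) f + 2 + w = j

/-- a deep element of level `j` with a sibling is a fold end -/
theorem Wk.fold_cell (W : Wk r j w K N b θ) (hw2 : 2 ≤ w) {z f s : P}
    (hz : z ∈ rA N) (hlz : lev z = j + 1) (hzf : z ⋖ f) (hzs : z ⋖ s) (hne : f ≠ s)
    (hth : θ (topOf f) f + 1 + w ≤ lev f) : ∃ Nc co, FoldC j w N b θ f Nc co := by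
  have H := W.gt.H
  have HN := W.natSys
  have hj := W.hj
  have hw := W.hw
  have e1 := (H.covBy_iff.mp hzf).2
  have hlx : lev f = j := by omega
  have hx : f ∉ unnat N := W.low (by omega)
  have hn1 := (W.near hz hlz hzf hzs hne).1
  have hxt : f ∈ N (topOf f) := HN.mem_iff.mpr ⟨hx, rfl⟩
  generalize htt : topOf f = t at hxt hth
  have key : ∀ Nc co, StairNat j w t Nc co → N t = natS Nc co → θ t = thS w Nc co →
      b t = w / 2 + 1 → FoldC j w N b θ f Nc co := by
    intro Nc co h0 g1 g2 g3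
    rw [g1] at hxt
    rw [g2] at hth
    have hJ : f ∉ junk (fun c => c.1 ≤ c.2) Nc co := by
      intro h
      unfold thS at hth
      rw [if_pos h] at hth
      omega
    have hxN : f ∈ Nc := by
      rw [mem_natS] at hxt
      exact hxt.resolve_right hJ
    have hl := h0.chart.lev f hxN
    have hm : (co f).1 ≤ (co f).2 := h0.chart.mem f hxN
    have h2 := stair_th7 h0 hw hw2 hxN hJ (by omega)
    rcases Nat.lt_or_ge (co f).1 (co f).2 with hlt | hge
    · have h3 := stair_inner_uc h0.chart H hxN (by omega) hlt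
      omega
    · subst htt
      refine ⟨h0, g1, by rw [g3]; omega, hxN, by omega, by omega, by omega, ?_⟩
      rw [g2]
      omega
  rcases W.typ t with ⟨g1, g2, g3, g5⟩ | ⟨Nc, co, h0, g1, g2, g4⟩ |
    ⟨Nc, co, h0, g1, g2, g3, g4, g5'⟩
  · exfalso
    rw [g2] at hth
    simp only at hth
    omega
  · exfalso
    rw [g1] at hxt
    rw [g2] at hth
    have hJ : ¬ (f ∈ junk (fun _ => True) Nc co ∨ f ∈ junk (fun _ => True) Nc (swp co)) := by
      intro h
      unfold thR at hth
      rw [if_pos h] at hth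
      omega
    have hxN : f ∈ Nc := by
      rw [mem_natR] at hxt
      rcases hxt with h | h | h
      · exact h
      · exact absurd (Or.inl h) hJ
      · exact absurd (Or.inr h) hJ
    have h2 := rect_th7 h0 hw hxN hJ (by omega)
    have h3 := chart_inner_uc h0.chart H hxN (by omega) (by omega)
    omega
  · exact ⟨Nc, co, key Nc co h0 g1 g2 g3⟩

/-- the levels above the fold end -/
lemma FoldC.nab {f : P} {Nc : Finset P} {co : P → ℕ × ℕ} (C : FoldC j w N b θ f Nc co) {k : ℕ}
    (hk : k ≤ j) : nab k f + (k - j / 2) = min (k / 2) (j / 2) + 1 := by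
  have h1 := C.nat.chart.lev f C.mem
  have h2 := C.ev
  have := stair_nab C.nat.chart C.mem (k := k) (by rw [h1, C.co1, C.co2]; omega)
  rw [C.co1, C.co2] at this
  exact this

lemma FoldC.lev {f : P} {Nc : Finset P} {co : P → ℕ × ℕ} (C : FoldC j w N b θ f Nc co) :
    lev f = j := by
  have h1 := C.nat.chart.lev f C.mem
  have h2 := C.ev
  rw [h1, C.co1, C.co2]
  omega

/-- the second end of the stair -/
theorem Wk.fold_end (W : Wk r j w K N b θ) {z f s : P} {Nc : Finset P} {co : P → ℕ × ℕ}
    (C : FoldC j w N b θ f Nc co)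
    (hz : z ∈ rA N) (hlz : lev z = j + 1) (hzf : z ⋖ f) (hzs : z ⋖ s) (hne : f ≠ s)
    (htt : topOf f = topOf s) : s ∈ Nc ∧ (co s).1 = 0 ∧ (co s).2 = j := by
  have H := W.gt.H
  have hj := W.hj
  have e1 := (H.covBy_iff.mp hzs).2
  have hls : Pool.Agent.GaussPoset.lev s = j := by omega
  have hn1 := (W.near hz hlz hzf hzs hne).2
  have hsN : s ∈ Nc := by
    refine C.nat.strip (mem_lowPart.mpr ⟨?_, by omega⟩)
    rw [htt]
    exact le_topOf s
  have hl' := C.nat.chart.lev s hsN
  have hm' : (co s).1 ≤ (co s).2 := C.nat.chart.mem s hsN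
  have h10 : (co s).1 = 0 := by
    by_contra h11
    rcases Nat.lt_or_ge (co s).1 (co s).2 with h12 | h12
    · have := stair_inner_uc C.nat.chart H hsN (by omega) h12
      omega
    · refine hne (C.nat.chart.inj f C.mem s hsN (Prod.ext ?_ ?_))
      · rw [C.co1]; omega
      · rw [C.co2]; have := C.ev; omega
  exact ⟨hsN, h10, by omega⟩

/-- the covers of an element with two known covers -/
lemma cov_two (H : Gr P r) {z f s : P} (hzf : z ⋖ f) (hzs : z ⋖ s) (hne : f ≠ s) {y : P}
    (hy : z ⋖ y) : y = f ∨ y = s := by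
  classical
  by_contra hcon
  push Not at hcon
  have h1 := Win.uc_card_le H z
  have h2 : ({f, s, y} : Finset P) ⊆ Win.uc z := by
    intro x hx
    simp only [mem_insert, mem_singleton] at hx
    rw [Win.mem_uc]
    rcases hx with rfl | rfl | rfl
    · exact hzf
    · exact hzs
    · exact hy
  have h3 := Finset.card_le_card h2
  rw [Finset.card_eq_three.mpr ⟨f, s, y, hne, fun h => hcon.1 h.symm, fun h => hcon.2 h.symm,
    rfl⟩] at h3
  omega

/-- the elements below both ends of a stair with a fold -/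
def CEl (j w : ℕ) (N : Tops P → Finset P) (θ : Tops P → P → ℕ) (z : P) : Prop :=
  z ∈ rA N ∧ lev z = j + 1 ∧ ∃ f s, z ⋖ f ∧ z ⋖ s ∧ f ≠ s ∧ topOf f = topOf s ∧
    θ (topOf f) f + 1 + w ≤ lev f

open Classical in
/-- the labels, with the full label at the elements below both ends of a stair with a fold -/
noncomputable def hC (j w : ℕ) (N : Tops P → Finset P) (θ : Tops P → P → ℕ) (z : P) : ℕ :=
  if CEl j w N θ z then lev z - w else hA N θ z

lemma hC_of {z : P} (h : CEl j w N θ z) : hC j w N θ z = lev z - w := if_pos h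

lemma hC_not {z : P} (h : ¬ CEl j w N θ z) : hC j w N θ z = hA N θ z := if_neg h

/-- the canonical label below a fold end -/
theorem Wk.hA_fold (W : Wk r j w K N b θ) {z f s : P} {Nc : Finset P} {co : P → ℕ × ℕ}
    (C : FoldC j w N b θ f Nc co)
    (hz : z ∈ rA N) (hlz : lev z = j + 1) (hzf : z ⋖ f) (hzs : z ⋖ s) (hne : f ≠ s) :
    hA N θ z = j - w - 1 := by
  have H := W.gt.H
  have hj := W.hj
  have e1 := (H.covBy_iff.mp hzf).2
  have hf : f ∉ unnat N := W.low (by omega)
  have hbd : z ∈ bdR (rA N) := mem_bdR.mpr ⟨hz, f, not_mem_rA.mpr (Or.inl hf), hzf⟩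
  have hbs : ∀ y : P, y ∉ unnat N → GaussPoset.bs N y = y := by
    intro y hy
    unfold GaussPoset.bs
    rw [if_neg (W.not_tw hy)]
  have hle := W.hA_le (not_mem_rA.mpr (Or.inl hf)) hzf
  rw [hbs f hf] at hle
  have hth := C.th
  obtain ⟨x0, f1, f2, f3⟩ := W.hA_spec hbd
  rcases cov_two H hzf hzs hne f2 with rfl | rfl
  · rw [hbs _ hf] at f3
    omega
  · have f4 := W.near hz hlz hzf hzs hne
    have f5 := (H.covBy_iff.mp hzs).2
    have hx0 : x0 ∉ unnat N := W.low (by omega)
    rw [hbs _ hx0] at f3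
    have f6 := W.single_th hx0 (by omega) f4.2
    omega

/-- the cost with the full label -/
lemma cst_full_le (H : Gr P r) {z f s : P} (hzf : z ⋖ f) (hzs : z ⋖ s) (hne : f ≠ s)
    {k : ℕ} (hk : lev z ≤ w + k + 2) :
    cst w (fun _ => lev z - w) z ≤ F4.Efs w k f s + k + 4 := by
  classical
  have e1 := (H.covBy_iff.mp hzf).2
  have e2 := (H.covBy_iff.mp hzs).2
  have hA : univ.filter (fun y : P => z ≤ y) =
      insert z (univ.filter (fun y : P => f ≤ y ∨ s ≤ y)) := by
    ext y
    rw [mem_filter, mem_insert, mem_filter]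
    constructor
    · rintro ⟨-, h⟩
      rcases eq_or_lt_of_le h with h | h
      · exact Or.inl h.symm
      · right
        obtain ⟨x, hx, hxy⟩ := Hul.exists_cov h
        rcases cov_two H hzf hzs hne hx with rfl | rfl
        · exact ⟨mem_univ _, Or.inl hxy⟩
        · exact ⟨mem_univ _, Or.inr hxy⟩
    · rintro (h | ⟨-, h | h⟩)
      · exact ⟨mem_univ _, h.ge⟩
      · exact ⟨mem_univ _, hzf.1.le.trans h⟩
      · exact ⟨mem_univ _, hzs.1.le.trans h⟩
  have hc : cst w (fun _ => lev z - w) z = ∑ y ∈ univ.filter (fun y : P => z ≤ y),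
      min (lev z - w) (lev y - w) := by
    unfold cst ez
    rw [Finset.sum_filter]
  have hzn : z ∉ univ.filter (fun y : P => f ≤ y ∨ s ≤ y) := by
    rw [mem_filter]
    rintro ⟨-, h | h⟩
    · exact absurd hzf.1 (not_lt_of_ge h)
    · exact absurd hzs.1 (not_lt_of_ge h)
  rw [hc, hA, Finset.sum_insert hzn]
  have h1 : ∑ y ∈ univ.filter (fun y : P => f ≤ y ∨ s ≤ y), min (lev z - w) (lev y - w) ≤
      ∑ y ∈ univ.filter (fun y : P => f ≤ y ∨ s ≤ y), (min k (lev y - w) +
        (if y = f then 1 else 0) + if y = s then 1 else 0) := by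
    refine Finset.sum_le_sum fun y hy => ?_
    rw [mem_filter] at hy
    rcases hy.2 with h | h
    · rcases eq_or_lt_of_le h with h | h
      · rw [if_pos h.symm, ← h]
        omega
      · have := lev_strictAnti h
        omega
    · rcases eq_or_lt_of_le h with h | h
      · rw [if_pos h.symm, ← h]
        omega
      · have := lev_strictAnti h
        omega
  rw [Finset.sum_add_distrib, Finset.sum_add_distrib, Finset.sum_ite_eq', Finset.sum_ite_eq',
    if_pos (by rw [mem_filter]; exact ⟨mem_univ _, Or.inl le_rfl⟩),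
    if_pos (by rw [mem_filter]; exact ⟨mem_univ _, Or.inr le_rfl⟩)] at h1
  have h2 : F4.Efs w k f s = ∑ y ∈ univ.filter (fun y : P => f ≤ y ∨ s ≤ y),
      min k (lev y - w) := by
    unfold F4.Efs
    rfl
  rw [h2, Nat.min_self]
  omega

end Pool.Agent.GaussPoset.Sm

end

/-! From `Pool.Agent.W_448f4_h70.GJ` -/

section

/-!
The labels with the larger labels below special cells and the full labels below both ends of a
stair: the far window theorem (MP_448cb3_co, S7, windows 2, 3).
-/

namespace Pool.Agent.GaussPoset.Sm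

set_option linter.unusedSectionVars false

open Polynomial Finset

universe u

variable {P : Type u} [Fintype P] [PartialOrder P] [DecidableEq P] {r j w K : ℕ}
  {N : Tops P → Finset P} {b : Tops P → ℕ} {θ : Tops P → P → ℕ}

/-- the part of the element below both ends of a stair -/
theorem Wk.bigC (W : Wk r j w K N b θ) (h12 : 12 ≤ j) (hw2 : 2 ≤ w) {n0 : ℕ} {g : P → ℕ}
    {x z : P} (hz : z ∈ unnat N \ twA N) (hzx : z ⋖ x) (hzC : CEl j w N θ z)
    (hlt : hA N θ z ≤ g z) (hgz : g z < lev z - w)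
    (hCc : n0 ≤ cst w (fun _ => lev z - w) z) {m : ℕ}
    (hm : m + ∑ x ∈ unnat N \ twA N, g x ≤ n0) :
    (1 + X : ℤ[X]) ^ (b (topOf x)) ∣
      ZB (P := {y : P // y ∉ unnat N \ twA N ∧ topOf y = topOf x}) w ∅ 0
        (fun y => by classical exact ((unnat N \ twA N).filter (fun z => z ⋖ (y : P))).sup g) m := by
  classical
  have H := W.gt.H
  have HN := W.natSys
  have hj := W.hj
  have hw := W.hw
  have hz' := hzC
  obtain ⟨h1, h2, f, s, h3, h4, h5, h6, h7⟩ := hz'
  obtain ⟨Nc, co, C⟩ := W.fold_cell hw2 h1 h2 h3 h4 h5 h7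
  have e1 := W.hA_fold C h1 h2 h3 h4 h5
  obtain ⟨s1, s2, s3⟩ := W.fold_end C h1 h2 h3 h4 h5 h6
  have hlf := C.lev
  have hls : lev s = j := by
    have := C.nat.chart.lev s s1
    omega
  have htx : topOf x = topOf f := by
    rcases cov_two H h3 h4 h5 hzx with rfl | rfl
    · rfl
    · exact h6.symm
  have hbt : b (topOf x) = 2 := by rw [htx, C.hb]
  rw [hbt]
  set k := g z with hk
  have hk1 : j - w - 1 ≤ k := by omega
  have hk2 : k ≤ j - w := by omega
  have hn0 : n0 ≤ F4.Efs w k f s + k + 4 := hCc.trans (cst_full_le H h3 h4 h5 (by omega))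
  have hsz : k ≤ ∑ x ∈ unnat N \ twA N, g x :=
    Finset.single_le_sum (f := g) (fun _ _ => Nat.zero_le _) hz
  have hp : ∀ x' y : P, x' ≤ y → (x' ∉ unnat N \ twA N ∧ topOf x' = topOf x) →
      (y ∉ unnat N \ twA N ∧ topOf y = topOf x) :=
    pg_part_up (W.twSys.lower HN.lower) (W.twSys.cp' HN.cp)
  have hfR : f ∉ unnat N \ twA N := not_mem_rA.mpr (Or.inl (W.low (by omega)))
  have hsR : s ∉ unnat N \ twA N := not_mem_rA.mpr (Or.inl (W.low (by omega)))
  have hBf : k ≤ ((unnat N \ twA N).filter (fun z => z ⋖ f)).sup g :=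
    Finset.le_sup (f := g) (mem_filter.mpr ⟨hz, h3⟩)
  have hBs : k ≤ ((unnat N \ twA N).filter (fun z => z ⋖ s)).sup g :=
    Finset.le_sup (f := g) (mem_filter.mpr ⟨hz, h4⟩)
  by_cases hbigz : ∃ z' ∈ unnat N \ twA N, k < g z'
  · obtain ⟨z', hz', hk'⟩ := hbigz
    have hne' : z' ≠ z := by
      rintro rfl
      omega
    have h8 : g z + g z' ≤ ∑ x ∈ unnat N \ twA N, g x := by
      rw [← Finset.sum_pair (f := g) hne'.symm]
      refine Finset.sum_le_sum_of_subset ?_
      intro y hy
      rw [mem_insert, mem_singleton] at hy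
      rcases hy with rfl | rfl
      · exact hz
      · exact hz'
    rw [F4.part_zero hp (i := w) (k := k) (f := f) (s := s) ⟨hfR, htx.symm⟩
      ⟨hsR, h6.symm.trans htx.symm⟩ hBf hBs (by omega)]
    exact dvd_zero _
  · push Not at hbigz
    have hBle : ∀ y : P, ((unnat N \ twA N).filter (fun z => z ⋖ y)).sup g ≤ k := by
      intro y
      refine Finset.sup_le fun z' hz' => ?_
      exact hbigz z' (mem_filter.mp hz').1
    refine F4.part_two hp (i := w) (k := k) (M := j / 2 + 1) (c0 := 4) (f := f) (s := s)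
      ⟨hfR, htx.symm⟩ ⟨hsR, h6.symm.trans htx.symm⟩ (by omega) (by omega) ?_ (by omega)
      (by omega) ?_ (fun y => hBle y) (le_antisymm (hBle f) hBf) (le_antisymm (hBle s) hBs)
      (by omega)
    · rintro y ⟨-, hy2⟩ hy3
      have hyN : y ∈ Nc := by
        refine C.nat.strip (mem_lowPart.mpr ⟨?_, by omega⟩)
        rw [← htx, ← hy2]
        exact le_topOf y
      have hly := C.nat.chart.lev y hyN
      have hmy : (co y).1 ≤ (co y).2 := C.nat.chart.mem y hyN
      rcases Nat.lt_or_ge (j / 2) (co y).2 with h9 | h9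
      · right
        rw [C.nat.chart.le_iff s s1 y hyN, Prod.le_def, s2, s3]
        constructor
        · omega
        · omega
      · left
        rw [C.nat.chart.le_iff f C.mem y hyN, Prod.le_def, C.co1, C.co2]
        constructor
        · omega
        · exact h9
    · intro y hy1 hy2
      have hyN := C.nat.chart.up f C.mem y hy1
      have a1 := (C.nat.chart.le_iff f C.mem y hyN).mp hy1
      have a2 := (C.nat.chart.le_iff s s1 y hyN).mp hy2
      rw [Prod.le_def, C.co1, C.co2] at a1
      rw [Prod.le_def, s2, s3] at a2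
      have hly := C.nat.chart.lev y hyN
      have := C.ev
      omega

/-- the pendants below a special cell or its twin -/
def PenS (j w : ℕ) (N : Tops P → Finset P) (b : Tops P → ℕ) (θ : Tops P → P → ℕ) (z : P) : Prop :=
  z ∈ rA N ∧ ∃ x, x ∉ rA N ∧ z ⋖ x ∧ (∀ y, z ⋖ y → y = x) ∧
    Spc j w N b θ (GaussPoset.bs N x)

open Classical in
/-- the labels: one more below the special cells, full below both ends of a stair -/
noncomputable def hS (j w : ℕ) (N : Tops P → Finset P) (b : Tops P → ℕ) (θ : Tops P → P → ℕ)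
    (z : P) : ℕ :=
  if PenS j w N b θ z then hA N θ z + 1 else hC j w N θ z

lemma hS_of {z : P} (h : PenS j w N b θ z) : hS j w N b θ z = hA N θ z + 1 := if_pos h

lemma hS_not {z : P} (h : ¬ PenS j w N b θ z) : hS j w N b θ z = hC j w N θ z := if_neg h

/-- data of a pendant below a special cell -/
theorem Wk.penS (W : Wk r j w K N b θ) {z : P} (hz : PenS j w N b θ z) :
    hA N θ z = j - w ∧ lev z = j + 2 ∧ z ∈ bdR (rA N) := by
  obtain ⟨h1, x, h2, h3, h4, Nc, co, C⟩ := hz
  have H := W.gt.H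
  have hj := W.hj
  have g6 := W.bs h2
  have e1 := (H.covBy_iff.mp h3).2
  have e2 := g6.lev
  have e3 := C.lev (by omega)
  have hbd : z ∈ bdR (rA N) := mem_bdR.mpr ⟨h1, x, h2, h3⟩
  obtain ⟨x0, f1, f2, f3⟩ := W.hA_spec hbd
  have e4 := h4 x0 f2
  subst e4
  have := C.th
  exact ⟨by omega, by omega, hbd⟩

end Pool.Agent.GaussPoset.Sm

end

/-! From `Pool.Agent.W_448f4_h70.GK` -/

section

/-!
The far window theorem with the larger labels (MP_448cb3_co, S7, windows 2, 3).
-/

namespace Pool.Agent.GaussPoset.Sm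

set_option linter.unusedSectionVars false

open Polynomial Finset

universe u

variable {P : Type u} [Fintype P] [PartialOrder P] [DecidableEq P] {r j w K : ℕ}
  {N : Tops P → Finset P} {b : Tops P → ℕ} {θ : Tops P → P → ℕ}

/-- the cost of a pendant with the label `h + 1` -/
lemma cst_pen {x z : P} {h : ℕ} (hzx : z ⋖ x) (hpen : ∀ y, z ⋖ y → y = x)
    (hlx : lev x = w + h + 1) (hlz : w + h + 1 ≤ lev z) :
    cst w (fun _ => h + 1) z = F4.Efs w h x x + h + 2 := by
  classical
  have e1 : univ.filter (fun y : P => z ≤ y) = insert z (insert x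
      (univ.filter (fun y : P => x < y))) := by
    ext y
    rw [mem_filter, mem_insert, mem_insert, mem_filter]
    constructor
    · rintro ⟨-, h⟩
      rcases eq_or_lt_of_le h with h | h
      · exact Or.inl h.symm
      · obtain ⟨u, hu, huy⟩ := Hul.exists_cov h
        rw [hpen u hu] at huy
        rcases eq_or_lt_of_le huy with h | h
        · exact Or.inr (Or.inl h.symm)
        · exact Or.inr (Or.inr ⟨mem_univ _, h⟩)
    · rintro (h | h | ⟨-, h⟩)
      · exact ⟨mem_univ _, h.ge⟩
      · exact ⟨mem_univ _, hzx.1.le.trans h.ge⟩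
      · exact ⟨mem_univ _, (hzx.1.trans h).le⟩
  have e2 : univ.filter (fun y : P => x ≤ y ∨ x ≤ y) =
      insert x (univ.filter (fun y : P => x < y)) := by
    ext y
    rw [mem_filter, mem_insert, mem_filter, or_self]
    constructor
    · rintro ⟨-, h⟩
      rcases eq_or_lt_of_le h with h | h
      · exact Or.inl h.symm
      · exact Or.inr ⟨mem_univ _, h⟩
    · rintro (h | ⟨-, h⟩)
      · exact ⟨mem_univ _, h.ge⟩
      · exact ⟨mem_univ _, h.le⟩
  have hc : cst w (fun _ => h + 1) z = ∑ y ∈ univ.filter (fun y : P => z ≤ y),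
      min (h + 1) (lev y - w) := by
    unfold cst ez
    rw [Finset.sum_filter]
  have hz1 : z ∉ insert x (univ.filter (fun y : P => x < y)) := by
    rw [mem_insert, mem_filter]
    rintro (h | ⟨-, h⟩)
    · exact hzx.1.ne h
    · exact lt_irrefl _ (hzx.1.trans h)
  have hx1 : x ∉ univ.filter (fun y : P => x < y) := by simp
  rw [hc, e1, Finset.sum_insert hz1, Finset.sum_insert hx1]
  unfold F4.Efs
  rw [e2, Finset.sum_insert hx1]
  have h3 : ∑ y ∈ univ.filter (fun y : P => x < y), min (h + 1) (lev y - w) =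
      ∑ y ∈ univ.filter (fun y : P => x < y), min h (lev y - w) := by
    refine Finset.sum_congr rfl fun y hy => ?_
    have := lev_strictAnti (mem_filter.mp hy).2
    omega
  rw [h3]
  omega

/-- the special cell of a pendant -/
theorem Wk.penS_cone (W : Wk r j w K N b θ) {x : P}
    (hs : Spc j w N b θ (GaussPoset.bs N x)) :
    b (topOf x) = 2 ∧ lev x = j + 1 ∧ (∃ co, F4.ConeAt x co (j - 1)) ∧
      ∀ y : P, topOf y = topOf x → lev y ≤ w + 2 → x ≤ y := by
  classical
  obtain ⟨Nc, co, C⟩ := hs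
  have hj := W.hj
  have hw := W.hw
  have hw1 := W.hw1
  have hl := C.lev (by omega)
  by_cases ht : x ∈ twA N
  · have hbs : GaussPoset.bs N x = twT N x := by
      unfold GaussPoset.bs
      rw [if_pos ht]
    rw [hbs] at C hl
    have h1 := W.twSys.cp x ht
    have hup := W.twSys.up x ht
    have T := W.twn ht
    have hne : twT N x ≠ x := T.ne
    have hll : lev (twT N x) = lev x := lev_eq_of_up hup
    refine ⟨by rw [← h1]; exact C.hb, by omega, ⟨_, C.cone.twin hne hup⟩, fun y hy hly => ?_⟩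
    exact ((hup y).mp (C.above hw (by omega) (hy.trans h1.symm) hly)).le
  · have hbs : GaussPoset.bs N x = x := by
      unfold GaussPoset.bs
      rw [if_neg ht]
    rw [hbs] at C hl
    exact ⟨C.hb, hl, ⟨co, C.cone⟩, fun y hy hly => (C.above hw (by omega) hy hly).le⟩

/-- the part of a pendant below a special cell -/
theorem Wk.bigS (W : Wk r j w K N b θ) (h7 : 7 ≤ j) {n0 : ℕ} {g : P → ℕ}
    {x z : P} (hz : z ∈ unnat N \ twA N) (hzx : z ⋖ x) (hzS : PenS j w N b θ z)
    (hgz : g z = j - w)
    (hCc : n0 ≤ cst w (fun _ => j - w + 1) z) {m : ℕ}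
    (hm : m + ∑ x ∈ unnat N \ twA N, g x ≤ n0) :
    (1 + X : ℤ[X]) ^ (b (topOf x)) ∣
      ZB (P := {y : P // y ∉ unnat N \ twA N ∧ topOf y = topOf x}) w ∅ 0
        (fun y => by classical exact ((unnat N \ twA N).filter (fun z => z ⋖ (y : P))).sup g) m := by
  classical
  have H := W.gt.H
  have HN := W.natSys
  have hj := W.hj
  have hw := W.hw
  obtain ⟨-, x1, h1, h2, h4, hs⟩ := hzS
  have hxx := h4 x hzx
  subst hxx
  obtain ⟨q1, q2, ⟨co, q3⟩, q4⟩ := W.penS_cone hs
  have e1 := (H.covBy_iff.mp hzx).2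
  rw [q1]
  set k := j - w with hk
  have hn0 : n0 ≤ F4.Efs w k x x + k + 2 := by
    rw [← cst_pen hzx h4 (by omega) (by omega)]
    exact hCc
  have hsz : k ≤ ∑ x ∈ unnat N \ twA N, g x := by
    rw [← hgz]
    exact Finset.single_le_sum (f := g) (fun _ _ => Nat.zero_le _) hz
  have hp : ∀ x' y : P, x' ≤ y → (x' ∉ unnat N \ twA N ∧ topOf x' = topOf x) →
      (y ∉ unnat N \ twA N ∧ topOf y = topOf x) :=
    pg_part_up (W.twSys.lower HN.lower) (W.twSys.cp' HN.cp)
  have hBx : k ≤ ((unnat N \ twA N).filter (fun z => z ⋖ x)).sup g := by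
    rw [← hgz]
    exact Finset.le_sup (f := g) (mem_filter.mpr ⟨hz, hzx⟩)
  by_cases hbigz : ∃ z' ∈ unnat N \ twA N, k < g z'
  · obtain ⟨z', hz', hk'⟩ := hbigz
    have hne' : z' ≠ z := by
      rintro rfl
      omega
    have h8 : g z + g z' ≤ ∑ x ∈ unnat N \ twA N, g x := by
      rw [← Finset.sum_pair (f := g) hne'.symm]
      refine Finset.sum_le_sum_of_subset ?_
      intro y hy
      rw [mem_insert, mem_singleton] at hy
      rcases hy with rfl | rfl
      · exact hz
      · exact hz'
    rw [F4.part_zero hp (i := w) (k := k) (f := x) (s := x) ⟨h1, rfl⟩ ⟨h1, rfl⟩ hBx hBx (by omega)]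
    exact dvd_zero _
  · push Not at hbigz
    have hBle : ∀ y : P, ((unnat N \ twA N).filter (fun z => z ⋖ y)).sup g ≤ k := by
      intro y
      refine Finset.sup_le fun z' hz' => ?_
      exact hbigz z' (mem_filter.mp hz').1
    exact F4.part_cone hp (i := w) (h := k) (x := x) ⟨h1, rfl⟩ q3 (by omega) (by omega) (by omega)
      (fun y hy hly => q4 y hy.2 hly) (fun y => hBle y) (le_antisymm (hBle x) hBx) (by omega)

/-- **The far window theorem with the larger labels.** -/
theorem Wk.farS (W : Wk r j w K N b θ) (h7 : 7 ≤ j) (h12 : j % 2 = 0 → 12 ≤ j) (hw2 : 2 ≤ w) (n0 : ℕ)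
    (hcost : ∀ x ∈ twA N, n0 ≤ tcS j w N b θ x)
    (hbd : ∀ z ∈ bdR (rA N), n0 ≤ cst w (hS j w N b θ) z) :
    FarV P w (rA N) (lv P w).card (hS j w N b θ)
      (∑ x ∈ (twA N).filter (fun x => tcS j w N b θ x = n0), TmS j w N b θ x) n0 := by
  classical
  have H := W.gt.H
  have HN := W.natSys
  have hj := W.hj
  have hw := W.hw
  have F := W.farS0 h7 n0 hcost
  choose B hB using fun t => (W.top t).natTop H.gradedBelow
  have hCl : ∀ z, CEl j w N θ z → hA N θ z = j - w - 1 ∧ lev z = j + 1 ∧ j % 2 = 0 := by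
    intro z hz
    obtain ⟨h1, h2, f, s, h3, h4, h5, h6, h7⟩ := hz
    obtain ⟨Nc, co, C⟩ := W.fold_cell hw2 h1 h2 h3 h4 h5 h7
    exact ⟨W.hA_fold C h1 h2 h3 h4 h5, h2, C.ev⟩
  have hspec : ∀ z, (PenS j w N b θ z ∧ hA N θ z = j - w ∧ lev z = j + 2 ∧
      hS j w N b θ z = j - w + 1) ∨
      (¬ PenS j w N b θ z ∧ (CEl j w N θ z ∧ j % 2 = 0) ∧ hA N θ z = j - w - 1 ∧
        lev z = j + 1 ∧ hS j w N b θ z = lev z - w) ∨ hS j w N b θ z = hA N θ z := by
    intro z
    by_cases h1 : PenS j w N b θ z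
    · obtain ⟨a1, a2, a3⟩ := W.penS h1
      exact Or.inl ⟨h1, a1, a2, by rw [hS_of h1, a1]⟩
    · right
      by_cases h2 : CEl j w N θ z
      · obtain ⟨a1, a2, a3⟩ := hCl z h2
        exact Or.inl ⟨h1, ⟨h2, a3⟩, a1, a2, by rw [hS_not h1, hC_of h2]⟩
      · exact Or.inr (by rw [hS_not h1, hC_not h2])
  have F' : FarV P w (unnat N \ twA N) (∑ t, b t)
      (hcan (unnat N \ twA N) (thX (twA N) (twT N) (fun x => θ (topOf x) x)))
      (∑ x ∈ (twA N).filter (fun x => tcS j w N b θ x = n0), TmS j w N b θ x) n0 := by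
    rw [W.sum_b]
    exact F
  have key := farV_big (B := B) hB W.twSys n0 (j - w - 1) F' (fun x hx => W.twn hx) ?_
    (hS j w N b θ) ?_ ?_ ?_ ?_
  · rw [W.sum_b] at key
    exact key
  · intro x hx
    have h1 := hcost x hx
    show n0 < tcst w (thA N θ) (twT N x, x) + (j - w - 1)
    by_cases hs : Spc j w N b θ (twT N x)
    · rw [W.tcS_spc hx hs] at h1
      omega
    · unfold tcS at h1
      rw [if_neg hs] at h1
      omega
  · intro z _
    show hA N θ z ≤ hS j w N b θ z
    rcases hspec z with ⟨-, h1, -, h2⟩ | ⟨-, -, h1, h3, h2⟩ | h1 <;> omega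
  · intro z _ hlt
    have hlt' : hA N θ z < hS j w N b θ z := hlt
    show j - w - 1 ≤ hA N θ z
    rcases hspec z with ⟨-, h1, -, h2⟩ | ⟨-, -, h1, h3, h2⟩ | h1 <;> omega
  · intro z hz
    have h0 : hA N θ z ≤ lev z - w := F.le_lev z hz
    rcases hspec z with ⟨-, h1, h3, h2⟩ | ⟨-, -, h1, h3, h2⟩ | h1 <;> omega
  · intro g g0 hg x z hx hz hzx hlt m hm
    have hzb : z ∈ bdR (unnat N \ twA N) := mem_bdR.mpr ⟨hz, x, hx, hzx⟩
    have hlt' : thA N θ x < g z := hlt
    have hle : hA N θ z ≤ thA N θ x + 1 := hcan_le hx hzx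
    have hgz := hg z hzb
    have hcz := hbd z hzb
    rw [cst_const w (hS j w N b θ) z] at hcz
    rcases hspec z with ⟨h0, h1, h3, h2⟩ | ⟨-, h0, h1, h3, h2⟩ | h1
    · rw [h2] at hcz hgz
      exact W.bigS (by omega) hz hzx h0 (by omega) hcz hm
    · rw [h2] at hcz hgz
      exact W.bigC (h12 h0.2) hw2 hz hzx h0.1 (by omega) hgz hcz hm
    · omega

end Pool.Agent.GaussPoset.Sm

end

/-! From `Pool.Agent.W_448f4_h70.GL` -/

section

/-!
# Outcomes for a cap larger than that of the window data (MP_448cb3_co, S7)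

`K0` is the cap of the window data, `K` the larger cap. The proofs are those of
`Wk.row1_out`, `Wk.own_pair`, `Wk.own_out`, `Wk.cross_out`.
-/

namespace Pool.Agent.GaussPoset.Sm

set_option linter.unusedSectionVars false

open Polynomial Finset

universe u

variable {P : Type u} [Fintype P] [PartialOrder P] [DecidableEq P] {r j w K0 K : ℕ}
  {N : Tops P → Finset P} {b : Tops P → ℕ} {θ : Tops P → P → ℕ} {XE XO : ℕ → Prop}

/-- a flat cheapest element below a cell of row `1` -/
theorem Wk.row1_outS (W : Wk r j w K0 N b θ)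
    (hKK : 2 * K < 3 * (j + 1 - w) ^ 2 + 3 * (j + 1 - w)) {v : ℕ} {z : P} (hz : z ∈ bdR (rA N))
    (hc : cst w (hA N θ) z = v) (hF : Flat j w N θ z) (hge : lev z ≤ hA N θ z + 1 + w) {x : P}
    (hzx : z ⋖ x) (hR : Row1 j w N θ x) : OutK j w K XE XO (hA N θ) z v := by
  classical
  have H := W.gt.H
  have hj := W.hj
  have hw := W.hw
  have hzR := (mem_bdR.mp hz).1
  have hlz := W.bd_lev hz
  have e1 := (H.covBy_iff.mp hzx).2
  have hx := (hF x hzx).1
  have hbs : GaussPoset.bs N x = x := by
    unfold GaussPoset.bs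
    rw [if_neg (W.not_tw hx)]
  have hle := W.hA_le (not_mem_rA.mpr (Or.inl hx)) hzx
  rw [hbs] at hle
  have hRt := hR.th
  obtain ⟨a, ha⟩ : ∃ a, lev x = w + a := ⟨lev x - w, by omega⟩
  have hha : hA N θ z = a := by omega
  have h1w := hR.one_le
  by_cases honly : ∀ y, z ⋖ y → y = x
  · -- a pendant
    have hlx : lev x ≠ j := fun h => hR.nopen h z hzx honly
    right
    refine ⟨?_, Or.inl ⟨?_, Or.inl ⟨h1w, Or.inr (Or.inl ⟨a - (j + 1 - w), Or.inl ?_⟩)⟩⟩⟩
    · rw [hha, ← ha, nab_only honly hzx (by omega), hR.nab w le_rfl (by omega),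
        nab_only honly hzx (by omega), nab_self]
    · rw [nst_eq, hha, Finset.sum_congr rfl (g := fun _ => 2)]
      · rw [Finset.sum_const, card_range]
        exact ⟨a, by simp only [smul_eq_mul]; ring⟩
      · intro k hk
        rw [mem_range] at hk
        rw [nab_only honly hzx (by omega), hR.nab _ (by omega) (by omega)]
    · rw [← hc, cst_only H.gradedBelow hzx honly, hha, cst_eq_ful (by omega),
        ful_two ha (fun k hk1 hk2 => hR.nab k hk1.le hk2)]
      rw [show j + 1 - w + (a - (j + 1 - w)) = a by omega, Nat.min_eq_left (by omega)]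
      ring
  · -- a pair
    push Not at honly
    obtain ⟨x', hzx', hne'⟩ := honly
    have hne : x ≠ x' := Ne.symm hne'
    have e2 := (H.covBy_iff.mp hzx').2
    have hx' := (hF x' hzx').1
    have hlx : lev x ≠ j := by
      intro h
      have := (W.near hzR (by omega) hzx hzx' hne).1
      have := hR.dbl
      omega
    left
    have h3 : ∀ k, 2 ≤ k → w ≤ k → k < lev x → 3 ≤ nab k z := fun k hk1 hk2 hk3 =>
      W.row1_three hzR hx hx' hzx hzx' hne hR (hF x' hzx').2 hk1 hk2 hk3
    have h4 : 2 ≤ nab (lev x) z := two_le_nab hzx.1.le hzx'.1.le rfl (by omega) hne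
    have h5 : ∑ n ∈ range a, n * 3 + a * 2 + a ≤ v := by
      rw [← hc, cst_shift (a := a + 1) (by omega), Finset.sum_range_succ
        (fun n => min (hA N θ z) n * nab (w + n) z), Finset.sum_range_succ
        (fun n => min (hA N θ z) n * nab (w + n) z), hha]
      refine Nat.add_le_add (Nat.add_le_add ?_ ?_) ?_
      · refine Finset.sum_le_sum fun n hn => ?_
        rw [mem_range] at hn
        rw [Nat.min_eq_right hn.le]
        rcases Nat.eq_zero_or_pos n with h0 | h0
        · subst h0; simp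
        · exact Nat.mul_le_mul_left _ (h3 _ (by omega) (by omega) (by omega))
      · rw [Nat.min_self, ← ha]
        exact Nat.mul_le_mul_left _ h4
      · rw [show w + (a + 1) = lev z by omega, nab_self, mul_one]
        exact Nat.le_min.mpr ⟨le_rfl, by omega⟩
    have h6 := Finset.sum_range_id_mul_two a
    rw [← Finset.sum_mul] at h5
    have hK := hKK
    have h7 : (j + 1 - w) ^ 2 ≤ a ^ 2 := Nat.pow_le_pow_left (by omega) 2
    have h8 : a * (a - 1) + a = a ^ 2 := by
      obtain ⟨c, rfl⟩ : ∃ c, a = c + 1 := ⟨a - 1, by omega⟩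
      rw [Nat.add_sub_cancel]
      ring
    omega

/-- straight covers below two tops -/
theorem Wk.cross_outS (W : Wk r j w K0 N b θ) (L : Unq P w b)
    (F : ∀ z x x' : P, Cg z x x' → j + 1 ≤ lev z → nab w x = 1 → ¬ Sok j x → K < ful w z)
    {v : ℕ} {z : P}
    (hz : z ∈ bdR (rA N)) (hh : hA N θ z = lev z - w) (hc : cst w (hA N θ) z = v) {x x' : P}
    (hx : x ∉ unnat N) (hx' : x' ∉ unnat N) (hS : Str w N θ x) (hS' : Str w N θ x')
    (hzx : z ⋖ x) (hzx' : z ⋖ x') (htt : topOf x ≠ topOf x') :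
    OutK j w K XE XO (hA N θ) z v := by
  classical
  have H := W.gt.H
  have HN := W.natSys
  have hj := W.hj
  have hw := W.hw
  have hlz := W.bd_lev hz
  have e1 := (H.covBy_iff.mp hzx).2
  have e2 := (H.covBy_iff.mp hzx').2
  have hxt : x ∈ N (topOf x) := HN.mem_iff.mpr ⟨hx, rfl⟩
  have hxt' : x' ∈ N (topOf x') := HN.mem_iff.mpr ⟨hx', rfl⟩
  have n1 := W.str_nab L hx hS (by omega)
  have n2 := W.str_nab L hx' hS' (by omega)
  have hv : v = ful w z := by
    rw [← hc]
    exact cst_eq_ful (by omega)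
  have C : Cg z x x' := Cg.mk' hzx hzx' (mem_onlyB.mpr fun s hs hxs => HN.top_eq hxt hs hxs)
    (mem_onlyB.mpr fun s hs hxs => HN.top_eq hxt' hs hxs) htt
  by_cases s1 : Sok j x
  · by_cases s2 : Sok j x'
    · right
      refine ⟨?_, Or.inr (Or.inr ⟨⟨x, x', C, s1, s2⟩, hv, hh⟩)⟩
      rw [nab_join_eq HN H hxt hxt' htt hzx hzx' (by omega), n1, n2, hh,
        show w + (lev z - w) = lev z by omega, nab_self]
    · left
      rw [hv]
      exact F z x' x C.symm (by omega) n2 s2
  · left
    rw [hv]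
    exact F z x x' C (by omega) n1 s1

end Pool.Agent.GaussPoset.Sm

end

/-! From `Pool.Agent.W_448f4_h70.GM` -/

section

/-!
# Outcomes for a cap larger than that of the window data (MP_448cb3_co, S7)

`K0` is the cap of the window data, `K` the larger cap. The proofs are those of
`Wk.row1_out`, `Wk.own_pair`, `Wk.own_out`, `Wk.cross_out`.
-/

namespace Pool.Agent.GaussPoset.Sm

set_option linter.unusedSectionVars false

open Polynomial Finset

universe u

variable {P : Type u} [Fintype P] [PartialOrder P] [DecidableEq P] {r j w K0 K : ℕ}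
  {N : Tops P → Finset P} {b : Tops P → ℕ} {θ : Tops P → P → ℕ} {XE XO : ℕ → Prop}

/-- the own pair: two straight covers on the two sides of a rectangle-like component -/
theorem Wk.own_pairS (W : Wk r j w K0 N b θ) {v : ℕ}
    (hP : OnePen P j (fun t => 2 ≤ b t) ∨ v ≤ (j + 1 - w) ^ 2 + 5 * (j - w)) {z : P}
    (hz : z ∈ bdR (rA N)) (hh : hA N θ z = lev z - w) (hc : cst w (hA N θ) z = v) {t : Tops P}
    {c : ℕ} {Nc : Finset P} {co : P → ℕ × ℕ} (R : RectNat j w t c Nc co) {x x' : P}
    (hx : Side (fun _ => True) Nc co x) (hx' : Side (fun _ => True) Nc (swp co) x')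
    (hzx : z ⋖ x) (hzx' : z ⋖ x') (hxt : topOf x = topOf x') (hB : 2 ≤ b (topOf x)) :
    OutK j w K XE XO (hA N θ) z v := by
  classical
  have H := W.gt.H
  have hg := W.gt.good
  have hj := W.hj
  have hw := W.hw
  have hlz := W.bd_lev hz
  have hw1 : 1 ≤ w := by
    have := R.b_two
    have := R.b_le
    omega
  have e1 := (H.covBy_iff.mp hzx).2
  have e2 := (H.covBy_iff.mp hzx').2
  have hsum := fun {k : ℕ} (hk : 1 ≤ k) (hkz : k < lev z) =>
    nab_two_sides H R hx hx' hzx hzx' hk hkz
  have n1 : ∀ k, k ≤ j → nab k x = 1 := fun k hk =>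
    hx.nab_one rowT_true R.chart H hg R.strip R.one1 hk (by omega)
  have n2 : ∀ k, k ≤ j → nab k x' = 1 := fun k hk =>
    hx'.nab_one rowT_true R.chart.swap H hg R.strip R.one2 hk (by omega)
  -- the ancestors of level `j`
  have hpar : OnePen P j (fun t => 2 ≤ b t) → ∀ (a a' : P), 2 ≤ b (topOf a) →
      topOf a = topOf a' → j + 1 ≤ lev a → j + 1 ≤ lev a' →
      a ≤ (topOf a : P) → (∀ k, k ≤ j → nab k a = 1) → (∀ k, k ≤ j → nab k a' = 1) →
      (∀ e e', a ≤ e → lev e = j → a' ≤ e' → lev e' = j → e ≠ e') →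
      ∀ e p p' : P, a ≤ e → lev e = j → p ⋖ e → p' ⋖ e → (∀ y, p ⋖ y → y = e) →
      (∀ y, p' ⋖ y → y = e) → p = p' := by
    intro hP a a' hBa htt hla hla' _ h1 h2 hdis e p p' hae hle hp hp' ho ho'
    obtain ⟨e', f1, f2, f3⟩ := exists_between H.gradedBelow (z := a') (s := (topOf a' : P))
      (le_topOf a') (l := j) (by have := (topOf a').2; omega) (by omega)
    have g1 : ∀ k, k ≤ j → nab k e = 1 := fun k hk => by
      have := nab_mono (l := k) hae
      have := one_le_nab (l := k) (z := e) (by omega)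
      have := h1 k hk
      omega
    have g2 : ∀ k, k ≤ j → nab k e' = 1 := fun k hk => by
      have := nab_mono (l := k) f1
      have := one_le_nab (l := k) (z := e') (by omega)
      have := h2 k hk
      omega
    have t1 : topOf e = topOf a := by
      refine Subtype.ext (W.gt.top_eq (by omega) (topOf e).2 (topOf a).2 (le_topOf e) ?_)
      -- `e` is the only ancestor of level `j`
      obtain ⟨q, q1, q2, q3⟩ := exists_between H.gradedBelow (z := a) (s := (topOf a : P))
        (le_topOf a) (l := j) (by have := (topOf a).2; omega) (by omega)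
      by_cases hq : q = e
      · rw [← hq]; exact q2
      · have := two_le_nab (l := j) q1 hae q3 hle hq
        have := h1 j le_rfl
        omega
    have ht : topOf e = topOf e' := by
      have t2 : topOf e' = topOf a' :=
        Subtype.ext (W.gt.top_eq (by omega) (topOf e').2 (topOf a').2 (le_topOf e') f2)
      rw [t1, t2, htt]
    exact hP e e' p p' (by rw [t1]; exact hBa) hle f3 g1 g2 ht (hdis e e' hae hle f1 f3) hp hp' ho
      ho'
  have hdis : ∀ e e', x ≤ e → lev e = j → x' ≤ e' → lev e' = j → e ≠ e' := by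
    intro e e' he hle he' hle' hee
    have h3 := hsum (k := j) (by omega) (by omega)
    rw [n1 j le_rfl, n2 j le_rfl] at h3
    -- `nab j z = 2` but both ancestors are equal
    subst hee
    have h4 : 2 ≤ nab j z := by omega
    unfold nab at h4
    obtain ⟨q, hq, hqe⟩ := Finset.exists_mem_ne (by omega :
      1 < ((lv P j).filter (fun y => z ≤ y)).card) e
    rw [mem_filter, mem_lv] at hq
    have hlt : z < q := lt_of_le_of_ne hq.2 (by rintro rfl; omega)
    obtain ⟨u, hu, huq⟩ := Hul.exists_cov hlt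
    have hne : x ≠ x' := by
      rintro rfl
      have h5 := nab_only (z := z) (x := x) (k := j) ?_ hzx (by omega)
      · rw [h5, n1 j le_rfl] at h3
        omega
      · intro y hy
        by_contra hyx
        have h6 := two_le_nab (l := 1) (z := z) (x := x) (y := x)
        -- `x` is on both sides: impossible
        have h7 := hsum (k := lev x) (by omega) (by omega)
        rw [nab_self] at h7
        have h8 := hx.up R.chart (le_refl x)
        obtain ⟨q1, r1, r2, r3⟩ := exists_between H.gradedBelow (z := x) (s := (topOf x : P))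
          (le_topOf x) (l := 1) (by have := (topOf x).2; omega) (by omega)
        have s1 := hx.up R.chart r1
        have s2 := hx'.up R.chart.swap r1
        have hqN : q1 ∈ Nc := by
          rcases s1 with s | s
          · refine R.strip (mem_lowPart.mpr ⟨?_, by omega⟩)
            obtain ⟨x1, H1, hj1⟩ := mem_junk.mp s
            exact (mem_jset.mp hj1).1.le.trans (R.chart.le_t x1 H1.mem)
          · exact s.1
        have hlq := R.chart.lev q1 hqN
        have u1 : (co q1).1 = 0 := by
          rcases s1 with s | s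
          · exact (junk_fst R.chart R.one1 s hqN).2
          · exact s.2
        have u2 : (co q1).2 = 0 := by
          rcases s2 with s | s
          · exact (junk_swp_fst R.chart R.one2 s hqN).2
          · exact s.2
        omega
    rcases uc_two_of H hzx hzx' hne u hu with h | h
    · rw [h] at huq
      have := two_le_nab (l := j) huq he hq.1 hle hqe
      rw [n1 j le_rfl] at this
      omega
    · rw [h] at huq
      have := two_le_nab (l := j) huq he' hq.1 hle hqe
      rw [n2 j le_rfl] at this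
      omega
  -- numbers
  obtain ⟨c0, hc0⟩ : ∃ c0, lev z = w + c0 := ⟨lev z - w, by omega⟩
  obtain ⟨s, hs⟩ : ∃ s, c0 = j + 1 - w + s := ⟨c0 - (j + 1 - w), by omega⟩
  have hge2 : ∀ n, n < c0 → 2 ≤ nab (w + n) z := by
    intro n hn
    rw [hsum (k := w + n) (by omega) (by omega)]
    have := one_le_nab (l := w + n) (z := x) (by omega)
    have := one_le_nab (l := w + n) (z := x') (by omega)
    omega
  have heq1 : ∀ n, n < c0 → (n < j + 1 - w ∨ c0 ≤ n + 1) → nab (w + n) z = 2 := by
    intro n hn hor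
    rw [hsum (k := w + n) (by omega) (by omega)]
    rcases Nat.lt_or_ge (w + n) (j + 1) with h | h
    · rw [n1 _ (by omega), n2 _ (by omega)]
    · rw [show w + n = lev x by omega, nab_self, show lev x = lev x' by omega, nab_self]
  have heq2 : ∀ n, n < c0 → (n ≤ j + 1 - w ∨ c0 ≤ n + 1) → nab (w + n) z = 2 := by
    intro n hn hor
    by_cases hor' : n < j + 1 - w ∨ c0 ≤ n + 1
    · exact heq1 n hn hor'
    rcases hP with hP | hP
    · rw [hsum (k := w + n) (by omega) (by omega)]
      have hk : w + n = j + 1 := by omega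
      rw [hk]
      have a1 := hx.nab_succ rowT_true R.chart H hg R.strip R.one1 (by omega)
        (hpar hP x x' hB hxt (by omega) (by omega) (le_topOf x) n1 n2 hdis)
      have a2 := hx'.nab_succ rowT_true R.chart.swap H hg R.strip R.one2 (by omega)
        (hpar hP x' x (by rw [← hxt]; exact hB) hxt.symm (by omega) (by omega) (le_topOf x') n2 n1
          (fun e e' q1 q2 q3 q4 => (hdis e' e q3 q4 q1 q2).symm))
      rw [a1, a2]
    · have hv : v = ful w z := by
        rw [← hc]
        exact cst_eq_ful (by omega)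
      exact own_small (w := w) (j := j) (c := c0) (s := s) (fun n => nab (w + n) z) z (by omega) hc0
        hs (fun _ => rfl) hge2 heq1 (by rw [← hv]; exact hP) n hn
  obtain ⟨h5, E, h6, h7, h8, h9⟩ := own_arith (w := w) (j := j) (c := c0) (s := s)
    (fun n => nab (w + n) z) z (by omega) hw1 hc0 hs (fun _ => rfl) hge2 heq2 rfl
  have hnst : nst w (hA N θ) z = 2 * c0 + ∑ n ∈ range c0, (nab (w + n) z - 2) := by
    rw [nst_eq, hh, show lev z - w = c0 by omega]
    exact h5
  have hv : v = ful w z := by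
    rw [← hc]
    exact cst_eq_ful (by omega)
  set m := ∑ n ∈ range c0, (nab (w + n) z - 2) with hm
  right
  refine ⟨?_, ?_⟩
  · rw [hh, show w + (lev z - w) = lev z by omega, nab_self]
    exact heq2 0 (by omega) (by omega)
  · rcases Nat.eq_zero_or_pos m with h0 | h0
    · left
      rw [h0, add_zero] at hnst
      refine ⟨⟨c0, by rw [hnst]; ring⟩, Or.inl ⟨hw1, Or.inl ⟨s, ?_⟩⟩⟩
      have h10 : E = 0 := by
        rw [h0, mul_zero] at h8
        omega
      rw [hv, h6, h10, add_zero]
    · have h3s := h9 h0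
      rcases Nat.even_or_odd m with hme | hmo
      · left
        refine ⟨?_, Or.inl ⟨hw1, Or.inr (Or.inr ⟨s, m, E, h3s, h0, hme, by rw [hv, h6], h7, h8⟩)⟩⟩
        rw [hnst]
        exact (even_two_mul c0).add hme
      · right; left
        refine ⟨?_, Or.inl ⟨hw1, Or.inl ⟨s, m, E, h3s, h0, hmo, by rw [hv, h6], h7, h8⟩⟩⟩
        rw [hnst]
        exact (even_two_mul c0).add_odd hmo

/-- straight covers below one top -/
theorem Wk.own_outS (W : Wk r j w K0 N b θ) {v : ℕ}
    (hP : OnePen P j (fun t => 2 ≤ b t) ∨ v ≤ (j + 1 - w) ^ 2 + 5 * (j - w)) {z : P}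
    (hz : z ∈ bdR (rA N)) (hh : hA N θ z = lev z - w) (hc : cst w (hA N θ) z = v)
    (hF : ∀ x, z ⋖ x → x ∉ unnat N ∧ Str w N θ x) {t : Tops P}
    (ht : ∀ x, z ⋖ x → topOf x = t) : OutK j w K XE XO (hA N θ) z v := by
  classical
  have H := W.gt.H
  have HN := W.natSys
  have hj := W.hj
  have hw := W.hw
  have hlz := W.bd_lev hz
  have hzu := (mem_rA.mp (mem_bdR.mp hz).1).1
  obtain ⟨x, hzx, -⟩ := Hul.exists_cov (w := z) (v := (topOf z : P))
    (lt_of_le_of_ne (le_topOf z) (by
      intro h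
      have := (topOf z).2
      rw [← h] at this
      omega))
  have hzN := mem_unnat.mp hzu t
  have hin : ∀ x, z ⋖ x → x ∈ N t ∧ θ t x = lev x - w ∧ lev z = lev x + 1 := by
    intro x hx
    refine ⟨HN.mem_iff.mpr ⟨(hF x hx).1, ht x hx⟩, ?_, (H.covBy_iff.mp hx).2⟩
    rw [← ht x hx]
    exact (hF x hx).2.th
  have hxx := hin x hzx
  rcases W.typ t with ⟨g1, g2, g3, g5⟩ | ⟨Nc, co, h0, g1, g2, g4⟩ |
    ⟨Nc, co, h0, g1, g2, g3, g4, g5'⟩
  · exfalso
    apply hzN
    rw [g1, mem_onlyB]
    intro s hs hzs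
    have hzs' : z < s := lt_of_le_of_ne hzs (by rintro rfl; omega)
    obtain ⟨u, hu, hus⟩ := Hul.exists_cov hzs'
    have h1 := (hin u hu).1
    rw [g1, mem_onlyB] at h1
    exact h1 s hs hus
  · rw [g1] at hzN
    have hside : ∀ x, z ⋖ x → Side (fun _ => True) Nc co x ∨ Side (fun _ => True) Nc (swp co) x := by
      intro x hx
      obtain ⟨a1, a2, a3⟩ := hin x hx
      rw [g1] at a1
      rw [g2] at a2
      exact rect_str7 h0 hw a1 (by omega) a2
    by_cases honly : ∀ y, z ⋖ y → y = x
    · exfalso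
      obtain ⟨a1, a2, a3, a4, a5⟩ := rect_pendant H h0 g1 hzu hxx.1 hzx honly
      rcases hside x hzx with h | h
      · rcases h with h | h
        · exact a2 h
        · have := h.2
          omega
      · rcases h with h | h
        · exact a3 h
        · have := h.2
          rw [swp_fst] at this
          omega
    · push Not at honly
      obtain ⟨x', hzx', hne'⟩ := honly
      have hne : x ≠ x' := Ne.symm hne'
      have hxx' := hin x' hzx'
      have huni := uc_two_of H hzx hzx' hne
      have htt : topOf x = topOf x' := by rw [ht x hzx, ht x' hzx']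
      rcases hside x hzx with h | h
      · rcases hside x' hzx' with h' | h'
        · exact absurd (mem_natR.mpr (Or.inr (Or.inl
            (junk_of_sides rowT_true h0.chart h0.one1 h h' hne (by omega) huni hzx)))) hzN
        · exact W.own_pairS hP hz hh hc h0 h h' hzx hzx' htt (by rw [ht x hzx]; exact h0.b_two)
      · rcases hside x' hzx' with h' | h'
        · exact W.own_pairS hP hz hh hc h0 h' h hzx' hzx htt.symm
            (by rw [ht x' hzx']; exact h0.b_two)
        · exact absurd (mem_natR.mpr (Or.inr (Or.inr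
            (junk_of_sides rowT_true h0.chart.swap h0.one2 h h' hne (by omega) huni hzx)))) hzN
  · exfalso
    rw [g1] at hzN
    have hside : ∀ x, z ⋖ x → Side (fun c => c.1 ≤ c.2) Nc co x := by
      intro x hx
      obtain ⟨a1, a2, a3⟩ := hin x hx
      rw [g1] at a1
      rw [g2] at a2
      exact stair_str7 h0 hw g4 a1 (by omega) a2
    by_cases honly : ∀ y, z ⋖ y → y = x
    · obtain ⟨a1, a2, a3⟩ := stair_pendant H h0 (by omega) g1 hzu hxx.1 hzx honly
      rcases hside x hzx with h | h
      · exact a2 h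
      · have := h.2
        omega
    · push Not at honly
      obtain ⟨x', hzx', hne'⟩ := honly
      have hne : x ≠ x' := Ne.symm hne'
      have hxx' := hin x' hzx'
      have huni := uc_two_of H hzx hzx' hne
      exact hzN (mem_natS.mpr (Or.inr (junk_of_sides rowT_shift h0.chart (h0.one1 g4)
        (hside x hzx) (hside x' hzx') hne (by omega) huni hzx)))

end Pool.Agent.GaussPoset.Sm

end

/-! From `Pool.Agent.W_448f4_h70.GN` -/

section

/-!
# The windows `2`, `3` with the larger labels: outcomes of the cheapest class (MP_448cb3_co, S7)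
-/

namespace Pool.Agent.GaussPoset.Sm

set_option linter.unusedSectionVars false

open Polynomial Finset

universe u

variable {P : Type u} [Fintype P] [PartialOrder P] [DecidableEq P] {r j w K0 K : ℕ}
  {N : Tops P → Finset P} {b : Tops P → ℕ} {θ : Tops P → P → ℕ} {XE XO : ℕ → Prop}

/-- the minimality hypotheses for the larger labels -/
structure MnS (j w : ℕ) (N : Tops P → Finset P) (b : Tops P → ℕ) (θ : Tops P → P → ℕ) (v : ℕ) :
    Prop where
  bd : ∀ z ∈ bdR (rA N), v ≤ cst w (hS j w N b θ) z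
  tw : ∀ x ∈ twA N, v ≤ tcS j w N b θ x

/-- the outcomes of a twin -/
def OutT (j w K : ℕ) (XE XO : ℕ → Prop) (N : Tops P → Finset P) (b : Tops P → ℕ)
    (θ : Tops P → P → ℕ) (x : P) : Prop :=
  K < tcS j w N b θ x ∨ ∃ L, TmS j w N b θ x = Lt w (fun _ => L) x ∧
    nab w x = nab (w + L) x + 1 ∧
    ((Even (nst w (fun _ => L) x) ∧ (EvN j w (tcS j w N b θ x) ∨ XE (tcS j w N b θ x))) ∨
      (Odd (nst w (fun _ => L) x) ∧ (OdN j w (tcS j w N b θ x) ∨ XO (tcS j w N b θ x))))

/-- the remaining inputs at window `w`, larger labels -/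
structure LkS (P : Type u) [Fintype P] [PartialOrder P] [DecidableEq P] (j w K0 K : ℕ)
    (N : Tops P → Finset P) (b : Tops P → ℕ) (θ : Tops P → P → ℕ) (XE XO : ℕ → Prop) : Prop where
  hK : 2 * K < 3 * (j + 1 - w) ^ 2 + 3 * (j + 1 - w)
  unq : Unq P w b
  nsk : ∀ z x x' : P, Cg z x x' → j + 1 ≤ lev z → nab w x = 1 → ¬ Sok j x → K < ful w z
  dj : ∀ (v : ℕ) (z x : P), MnS j w N b θ v → z ∈ bdR (rA N) → cst w (hS j w N b θ) z = v →
    lev z = j + 1 → z ⋖ x → Dk j w K0 N θ x → OutK j w K XE XO (hS j w N b θ) z v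
  dp : ∀ (v : ℕ) (z x : P), MnS j w N b θ v → z ∈ bdR (rA N) → cst w (hS j w N b θ) z = v →
    x ∉ rA N → z ⋖ x → j + 1 ≤ lev x → Dk j w K0 N θ (GaussPoset.bs N x) →
    ¬ Row1 j w N θ (GaussPoset.bs N x) → OutK j w K XE XO (hS j w N b θ) z v
  dt : ∀ x ∈ twA N, Dk j w K0 N θ (twT N x) → ¬ Row1 j w N θ (twT N x) →
    OutT j w K XE XO N b θ x

lemma outK_congr {h h' : P → ℕ} {z : P} {v : ℕ} (e : h z = h' z)
    (H : OutK j w K XE XO h z v) : OutK j w K XE XO h' z v := by
  unfold OutK at H ⊢
  rw [nst_eq, e] at H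
  rw [nst_eq]
  exact H

/-- special cells are deep -/
lemma Wk.spc_deep (W : Wk r j w K0 N b θ) {x : P} (hx : x ∉ unnat N) (hs : Spc j w N b θ x) :
    Dk j w K0 N θ x := by
  obtain ⟨Nc, co, C⟩ := hs
  have hj := W.hj
  have hl := C.lev (by omega)
  have hth := C.th
  rcases W.cases hx (by omega) with h | h | h
  · have := h.th
    omega
  · have := h.th
    omega
  · exact h

/-- the labels are the canonical ones without deep covers -/
lemma Wk.hS_eq (W : Wk r j w K0 N b θ) (hw2 : 2 ≤ w) {z : P}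
    (hnd : ∀ x, x ∉ rA N → z ⋖ x → Dk j w K0 N θ (GaussPoset.bs N x) →
      Row1 j w N θ (GaussPoset.bs N x)) :
    hS j w N b θ z = hA N θ z := by
  have hp : ¬ PenS j w N b θ z := by
    rintro ⟨-, x, h1, h2, -, h4⟩
    have h5 := (hnd x h1 h2 (W.spc_deep (W.bs h1).nat h4)).th
    obtain ⟨Nc, co, C⟩ := h4
    have hj := W.hj
    have := C.th
    have := C.lev (by omega)
    omega
  rw [hS_not hp]
  refine hC_not ?_
  rintro ⟨h1, h2, f, s, h3, h4, h5, h6, h7⟩
  have e1 := (W.gt.H.covBy_iff.mp h3).2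
  have hj := W.hj
  have hf : f ∉ unnat N := W.low (by omega)
  have hbs : GaussPoset.bs N f = f := by
    unfold GaussPoset.bs
    rw [if_neg (W.not_tw hf)]
  obtain ⟨Nc, co, C⟩ := W.fold_cell hw2 h1 h2 h3 h4 h5 h7
  have hth := C.th
  suffices h : Dk j w K0 N θ f by
    have h8 := (hbs ▸ hnd f (not_mem_rA.mpr (Or.inl hf)) h3 (hbs.symm ▸ h)).th
    omega
  rcases W.cases hf (by omega) with h | h | h
  · have := h.th
    omega
  · have := h.th
    omega
  · exact h

/-- the labels are positive -/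
lemma hS_pos (W : Wk r j w K0 N b θ) {z : P} (hz : z ∈ bdR (rA N)) : 1 ≤ hS j w N b θ z := by
  obtain ⟨x0, g1, g2, g3⟩ := W.hA_spec hz
  by_cases hp : PenS j w N b θ z
  · rw [hS_of hp]; omega
  · rw [hS_not hp]
    by_cases hc : CEl j w N θ z
    · rw [hC_of hc]
      have h1 := W.bd_lev hz
      have := W.hj
      omega
    · rw [hC_not hc]; omega

/-- a cheapest boundary element without deep covers is flat -/
theorem Wk.flatS (W : Wk r j w K0 N b θ) (hw2 : 2 ≤ w) {v : ℕ} (M : MnS j w N b θ v) {z : P}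
    (hz : z ∈ bdR (rA N)) (hc : cst w (hS j w N b θ) z = v)
    (hnd : ∀ x, x ∉ rA N → z ⋖ x → Dk j w K0 N θ (GaussPoset.bs N x) →
      Row1 j w N θ (GaussPoset.bs N x)) :
    Flat j w N θ z ∧ lev z ≤ hA N θ z + 1 + w := by
  have H := W.gt.H.gradedBelow
  have hj := W.hj
  have hw := W.hw
  have hlz := W.bd_lev hz
  have hSA := W.hS_eq hw2 hnd
  have hc' : cst w (hA N θ) z = v := by
    rw [← hc, cst_const w (hA N θ) z, cst_const w (hS j w N b θ) z, hSA]
  have hkd : ∀ x, x ∉ rA N → z ⋖ x → Str w N θ (GaussPoset.bs N x) ∨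
      Row1 j w N θ (GaussPoset.bs N x) := by
    intro x hx hzx
    have g6 := W.bs hx
    have e1 := H.lev_covBy hzx
    have e3 := g6.lev
    rcases W.cases g6.nat (by omega) with h | h | h
    · exact Or.inl h
    · exact Or.inr h
    · exact Or.inr (hnd x hx hzx h)
  have hge : lev z ≤ hA N θ z + 1 + w := by
    obtain ⟨x0, g1, g2, g3⟩ := W.hA_spec hz
    have g7 := W.bs g1
    have e2 := H.lev_covBy g2
    have e4 := g7.lev
    rcases hkd x0 g1 g2 with h | h
    · have := h.th
      omega
    · have := h.th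
      omega
  refine ⟨?_, hge⟩
  intro x hzx
  have hxR : x ∉ rA N := by
    refine no_cover_of_min H (fun x hx => ?_) M.bd (fun z hz => hS_pos W hz) hz hc
      (by omega) hzx
    have := W.lt_lev (mem_rA.mp hx).1
    omega
  have hxt : x ∉ twA N := by
    intro hxt
    have e1 := H.lev_covBy hzx
    obtain ⟨g1, g2⟩ := W.tw_cases hxt
    have hbs : GaussPoset.bs N x = twT N x := by
      unfold GaussPoset.bs
      rw [if_pos hxt]
    have g6 := W.bs hxR
    rw [hbs] at g6
    have hR : Row1 j w N θ (twT N x) := by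
      rcases g2 with h | h
      · exact h
      · exact hbs ▸ hnd x hxR hzx (hbs.symm ▸ h)
    have hns : ¬ Spc j w N b θ (twT N x) := by
      rintro ⟨Nc, co, C⟩
      have := C.th
      have := C.lev (by omega)
      have := hR.th
      omega
    obtain ⟨a, ha⟩ : ∃ a, lev x = w + a := ⟨lev x - w, by have := g6.lev; omega⟩
    have g7 := W.tcst_row1 hxt hR ha
    have g8 := M.tw x hxt
    unfold tcS at g8
    rw [if_neg hns] at g8
    have g9 := cst_step (i := w) (h := hA N θ) H hzx (by omega)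
    have g10 : ful w x = a ^ 2 := ful_two ha (fun k hk1 hk2 => by
      have := hR.nab k hk1.le (by rw [g6.lev]; exact hk2)
      rcases g6.nab k with h | h
      · rw [← h]; exact this
      · omega)
    rw [g10, hc'] at g9
    have : a ≤ min (hA N θ z) (lev z - w) := by
      rw [Nat.le_min]
      omega
    omega
  rcases not_mem_rA.mp hxR with h | h
  · have hbs : GaussPoset.bs N x = x := by
      unfold GaussPoset.bs
      rw [if_neg hxt]
    have := hkd x hxR hzx
    rw [hbs] at this
    exact ⟨h, this⟩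
  · exact absurd h hxt

/-- the outcomes for a cheapest boundary element -/
theorem Wk.outS (W : Wk r j w K0 N b θ) (hw2 : 2 ≤ w) (L : LkS P j w K0 K N b θ XE XO) {v : ℕ}
    (hP : OnePen P j (fun t => 2 ≤ b t) ∨ v ≤ (j + 1 - w) ^ 2 + 5 * (j - w))
    (M : MnS j w N b θ v) {z : P} (hz : z ∈ bdR (rA N)) (hc : cst w (hS j w N b θ) z = v) :
    OutK j w K XE XO (hS j w N b θ) z v := by
  classical
  have H := W.gt.H
  have hj := W.hj
  have hw := W.hw
  have hlz := W.bd_lev hz
  by_cases hd : ∃ x, x ∉ rA N ∧ z ⋖ x ∧ Dk j w K0 N θ (GaussPoset.bs N x) ∧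
      ¬ Row1 j w N θ (GaussPoset.bs N x)
  · obtain ⟨x, hx, hzx, hD, hnR⟩ := hd
    have e1 := (H.covBy_iff.mp hzx).2
    by_cases hl : j + 1 ≤ lev x
    · exact L.dp v z x M hz hc hx hzx hl hD hnR
    · have hxu : x ∉ unnat N := W.low (by omega)
      have hbs : GaussPoset.bs N x = x := by
        unfold GaussPoset.bs
        rw [if_neg (W.not_tw hxu)]
      rw [hbs] at hD
      exact L.dj v z x M hz hc (by omega) hzx hD
  · push Not at hd
    have hSA := W.hS_eq hw2 hd
    obtain ⟨hF, hge⟩ := W.flatS hw2 M hz hc hd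
    have hc' : cst w (hA N θ) z = v := by
      rw [← hc, cst_const w (hA N θ) z, cst_const w (hS j w N b θ) z, hSA]
    refine outK_congr hSA.symm ?_
    by_cases hR : ∃ x, z ⋖ x ∧ Row1 j w N θ x
    · obtain ⟨x, hzx, hR⟩ := hR
      exact W.row1_outS L.hK hz hc' hF hge hzx hR
    · push Not at hR
      have hStr : ∀ x, z ⋖ x → x ∉ unnat N ∧ Str w N θ x := fun x hx =>
        ⟨(hF x hx).1, (hF x hx).2.resolve_right (hR x hx)⟩
      have hh : hA N θ z = lev z - w := by
        obtain ⟨x0, f1, f2, f3⟩ := W.hA_spec hz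
        obtain ⟨g1, g2⟩ := hStr x0 f2
        have hbs : GaussPoset.bs N x0 = x0 := by
          unfold GaussPoset.bs
          rw [if_neg (W.not_tw g1)]
        rw [hbs, g2.th] at f3
        have := (H.covBy_iff.mp f2).2
        omega
      by_cases hT : ∃ x x', z ⋖ x ∧ z ⋖ x' ∧ topOf x ≠ topOf x'
      · obtain ⟨x, x', h1, h2, h3⟩ := hT
        exact W.cross_outS L.unq L.nsk hz hh hc' (hStr x h1).1 (hStr x' h2).1 (hStr x h1).2
          (hStr x' h2).2 h1 h2 h3
      · push Not at hT
        obtain ⟨x, hzx, -⟩ := Hul.exists_cov (w := z) (v := (topOf z : P))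
          (lt_of_le_of_ne (le_topOf z) (by
            intro h
            have := (topOf z).2
            rw [← h] at this
            omega))
        exact W.own_outS hP hz hh hc' hStr (t := topOf x) fun x' hx' => hT x' x hx' hzx

/-- the outcome for the twins -/
theorem Wk.out_twS (W : Wk r j w K0 N b θ) (L : LkS P j w K0 K N b θ XE XO) {x : P}
    (hx : x ∈ twA N) : OutT j w K XE XO N b θ x := by
  classical
  have hj := W.hj
  have hw := W.hw
  obtain ⟨hl, hk⟩ := W.tw_cases hx
  have hl2 := W.twSys.lev hx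
  have hup := W.twSys.up x hx
  by_cases hnR : Row1 j w N θ (twT N x)
  swap
  · exact L.dt x hx (hk.resolve_left hnR) hnR
  · clear hk
    have hk := hnR
    right
    have hns : ¬ Spc j w N b θ (twT N x) := by
      rintro ⟨Nc, co, C⟩
      have := C.th
      have := C.lev (by omega)
      have := hk.th
      omega
    have e0 : tcS j w N b θ x = tcst w (thA N θ) (twT N x, x) := by
      unfold tcS; rw [if_neg hns]
    have e0' : TmS j w N b θ x = Tm w (thA N θ) (twT N x, x) := by
      unfold TmS; rw [if_neg hns]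
    obtain ⟨a, ha⟩ : ∃ a, lev x = w + a := ⟨lev x - w, by omega⟩
    have h1 := W.tcst_row1 hx hk ha
    have hn : ∀ k, w ≤ k → k < lev x → nab k x = 2 := fun k h1 h2 => by
      rw [← nab_congr_up hup h2]
      exact hk.nab k h1 (by omega)
    have e1 : thA N θ (twT N x) = θ (topOf (twT N x)) (twT N x) :=
      W.thA_nat (W.twSys.nat x hx)
    have hth := hk.th
    refine ⟨lev x - w, ?_, ?_, Or.inl ⟨?_, Or.inl ⟨hk.one_le, Or.inr (Or.inl
      ⟨a - (j + 1 - w), Or.inr ?_⟩)⟩⟩⟩
    · rw [e0', Tm_eq W.gt.H.gradedBelow (W.twn hx) (by simp only; omega)]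
    · rw [hn w le_rfl (by omega), show w + (lev x - w) = lev x by omega, nab_self]
    · rw [nst_eq, Finset.sum_congr rfl (g := fun _ => 2)]
      · rw [Finset.sum_const, card_range]
        exact ⟨lev x - w, by simp only [smul_eq_mul]; ring⟩
      · intro k hk'
        rw [mem_range] at hk'
        exact hn _ (by omega) (by omega)
    · rw [e0, h1, show j + 1 - w + (a - (j + 1 - w)) = a by omega]
      ring

end Pool.Agent.GaussPoset.Sm

end

/-! From `Pool.Agent.W_448f4_h70.GPa` -/

section

/-!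
# The windows `2`, `3` with the larger labels: outcomes with general noise (MP_448cb3_co, S7)
-/

namespace Pool.Agent.GaussPoset.Sm

set_option linter.unusedSectionVars false

open Polynomial Finset

universe u

variable {P : Type u} [Fintype P] [PartialOrder P] [DecidableEq P] {r j w K0 K : ℕ}
  {N : Tops P → Finset P} {b : Tops P → ℕ} {θ : Tops P → P → ℕ} {XE XO YE YO : ℕ → Prop}

/-- the outcomes for a cheapest element `z` with the label `h z` and the cost `v`, with general
noise -/
def OutG (j w K : ℕ) (YE YO : ℕ → Prop) (h : P → ℕ) (z : P) (v : ℕ) : Prop :=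
  K < v ∨ (nab w z = nab (w + h z) z + 1 ∧
    ((Even (nst w h z) ∧ YE v) ∨ (Odd (nst w h z) ∧ YO v) ∨
      (∃ x x', Cg z x x' ∧ Sok j x ∧ Sok j x') ∧ v = ful w z ∧ h z = lev z - w))

/-- the outcomes of a twin, with general noise -/
def OutTG (j w K : ℕ) (YE YO : ℕ → Prop) (N : Tops P → Finset P) (b : Tops P → ℕ)
    (θ : Tops P → P → ℕ) (x : P) : Prop :=
  K < tcS j w N b θ x ∨ ∃ L, TmS j w N b θ x = Lt w (fun _ => L) x ∧
    nab w x = nab (w + L) x + 1 ∧
    ((Even (nst w (fun _ => L) x) ∧ YE (tcS j w N b θ x)) ∨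
      (Odd (nst w (fun _ => L) x) ∧ YO (tcS j w N b θ x)))

lemma OutG.mono {h : P → ℕ} {z : P} {v : ℕ} (H : OutG j w K XE XO h z v) (h1 : XE v → YE v)
    (h2 : XO v → YO v) : OutG j w K YE YO h z v := by
  rcases H with H | ⟨h3, H | H | H⟩
  · exact Or.inl H
  · exact Or.inr ⟨h3, Or.inl ⟨H.1, h1 H.2⟩⟩
  · exact Or.inr ⟨h3, Or.inr (Or.inl ⟨H.1, h2 H.2⟩)⟩
  · exact Or.inr ⟨h3, Or.inr (Or.inr H)⟩

lemma OutG.toK {h : P → ℕ} {z : P} {v : ℕ} (H : OutG j w K XE XO h z v) :
    OutK j w K XE XO h z v :=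
  H.mono (YE := fun v => EvN j w v ∨ XE v) (YO := fun v => OdN j w v ∨ XO v) Or.inr Or.inr

lemma OutK.toG {h : P → ℕ} {z : P} {v : ℕ} (H : OutK j w K XE XO h z v) :
    OutG j w K (fun v => EvN j w v ∨ XE v) (fun v => OdN j w v ∨ XO v) h z v := H

lemma OutTG.toT {x : P} (H : OutTG j w K XE XO N b θ x) : OutT j w K XE XO N b θ x := by
  rcases H with H | ⟨L, h1, h2, H | H⟩
  · exact Or.inl H
  · exact Or.inr ⟨L, h1, h2, Or.inl ⟨H.1, Or.inr H.2⟩⟩
  · exact Or.inr ⟨L, h1, h2, Or.inr ⟨H.1, Or.inr H.2⟩⟩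

lemma OutTG.mono {x : P} (H : OutTG j w K XE XO N b θ x)
    (h1 : XE (tcS j w N b θ x) → YE (tcS j w N b θ x))
    (h2 : XO (tcS j w N b θ x) → YO (tcS j w N b θ x)) : OutTG j w K YE YO N b θ x := by
  rcases H with H | ⟨L, h3, h4, H | H⟩
  · exact Or.inl H
  · exact Or.inr ⟨L, h3, h4, Or.inl ⟨H.1, h1 H.2⟩⟩
  · exact Or.inr ⟨L, h3, h4, Or.inr ⟨H.1, h2 H.2⟩⟩

lemma outG_congr {h h' : P → ℕ} {z : P} {v : ℕ} (e : h z = h' z)
    (H : OutG j w K XE XO h z v) : OutG j w K XE XO h' z v := by
  unfold OutG at H ⊢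
  rw [nst_eq, e] at H
  rw [nst_eq]
  exact H

end Pool.Agent.GaussPoset.Sm

end

/-! From `Pool.Agent.W_448f4_h70.GQ` -/

section

/-!
# The windows `2`, `3` with the larger labels: cheap cells (MP_448cb3_co, S7)
-/

namespace Pool.Agent.GaussPoset.Sm

set_option linter.unusedSectionVars false

open Polynomial Finset

universe u

variable {P : Type u} [Fintype P] [PartialOrder P] [DecidableEq P] {r j w K0 K : ℕ}
  {N : Tops P → Finset P} {b : Tops P → ℕ} {θ : Tops P → P → ℕ} {XE XO : ℕ → Prop}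

/-- an admissible value `u` of parity `n` -/
def Okv (K : ℕ) (XE XO : ℕ → Prop) (n u : ℕ) : Prop :=
  K < u ∨ (Even n ∧ XE u) ∨ (Odd n ∧ XO u)

/-- the cost of a pendant below `x` -/
noncomputable def C1 (w : ℕ) (θ : Tops P → P → ℕ) (x : P) : ℕ :=
  cst w (fun _ => θ (topOf x) x + 1) x + (θ (topOf x) x + 1)

/-- cheap deep cells -/
structure Cheap (w K : ℕ) (XE XO : ℕ → Prop) (θ : Tops P → P → ℕ) (x : P) : Prop where
  th : θ (topOf x) x + 1 < lev x - w
  drop : nab w x = nab (w + (θ (topOf x) x + 1)) x + 1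
  pen : Okv K XE XO (nst w (fun _ => θ (topOf x) x + 1) x) (C1 w θ x)
  twn : Okv K XE XO (nst w (fun _ => θ (topOf x) x + 1) x) (C1 w θ x - 1)
  two : K < C1 w θ x + (θ (topOf x) x + 1)

/-- the numerical conditions at a special cell -/
structure SpOK (j w K : ℕ) (XE XO : ℕ → Prop) (θ : Tops P → P → ℕ) (x : P) : Prop where
  pen : Okv K XE XO (nst w (fun _ => j - w + 1) x) (cst w (fun _ => j - w + 1) x + (j - w + 1))
  twn : Okv K XE XO (nst w (fun _ => j - w + 1) x) (cst w (fun _ => j - w + 1) x + (j - w))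
  two : K < C1 w θ x + (j - w)

/-- ancestors of a special cell -/
lemma SpcC.nab {x : P} {Nc : Finset P} {co : P → ℕ × ℕ} (C : SpcC j w N b θ x Nc co)
    (hj : 1 ≤ j) {k : ℕ} (hk : k ≤ j + 1) :
    Pool.Agent.GaussPoset.nab k x + (k - (j - 1)) = min (k / 2) 2 + 1 := by
  have hl := C.lev hj
  have := stair_nab C.nat.chart C.mem (k := k) (by omega)
  rw [C.co_eq] at this
  exact this

/-- the cost of an element with two covers -/
lemma cst_two {h : ℕ} {z x y : P} (H : GradedBelow P) (hzx : z ⋖ x) (hzy : z ⋖ y) (hne : x ≠ y)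
    (hh : h ≤ lev x - w) (hw : w ≤ lev x) :
    cst w (fun _ => h) x + h + h ≤ cst w (fun _ => h) z := by
  classical
  have e1 := H.lev_covBy hzx
  have e2 := H.lev_covBy hzy
  obtain ⟨a, ha⟩ : ∃ a, lev x = w + a := ⟨lev x - w, by omega⟩
  rw [cst_shift (i := w) (h := fun _ => h) ha, cst_shift (i := w) (h := fun _ => h) (a := a + 1)
    (by omega), Finset.sum_range_succ, Finset.sum_range_succ _ (a + 1),
    Finset.sum_range_succ _ a]
  have h2 : 2 ≤ nab (w + a) z := by
    unfold nab
    have : ({x, y} : Finset P) ⊆ (lv P (w + a)).filter (fun u => z ≤ u) := by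
      intro u hu
      rw [mem_insert, mem_singleton] at hu
      rw [mem_filter, mem_lv]
      rcases hu with rfl | rfl
      · exact ⟨ha, hzx.1.le⟩
      · exact ⟨by omega, hzy.1.le⟩
    have h3 := Finset.card_le_card this
    rw [Finset.card_pair hne] at h3
    convert h3
  have h3 : nab (w + a) x = 1 := by
    rw [← ha]; exact nab_self
  have h4 : nab (w + (a + 1)) z = 1 := by
    rw [show w + (a + 1) = lev z by omega]; exact nab_self
  have h5 : ∑ n ∈ range a, min h n * nab (w + n) x ≤ ∑ n ∈ range a, min h n * nab (w + n) z :=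
    Finset.sum_le_sum fun n _ => Nat.mul_le_mul_left _ (nab_mono hzx.1.le)
  have h6 : h ≤ a := by omega
  rw [h3, h4, Nat.min_eq_left h6, Nat.min_eq_left (by omega : h ≤ a + 1)]
  have h7 : h * 2 ≤ h * nab (w + a) z := Nat.mul_le_mul_left _ h2
  omega

/-- values of `nst` below a natural element -/
lemma nst_bs {L : ℕ} {g : P → ℕ} {z x y : P} (hg : g z = L)
    (hn : ∀ k, nab k y = nab k x ∨ lev x ≤ k) (hL : w + L ≤ lev x)
    (hz : ∀ k, k < lev x → nab k z = nab k x) :
    nst w g z = nst w (fun _ => L) y := by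
  rw [nst_eq, nst_eq, hg]
  refine Finset.sum_congr rfl fun k hk => ?_
  rw [mem_range] at hk
  rw [hz _ (by omega)]
  rcases hn (w + k) with h1 | h1
  · exact h1.symm
  · omega

/-- the outcome of an admissible value -/
lemma Okv.out {n u : ℕ} (h : Okv K XE XO n u) {g : P → ℕ} {z : P}
    (hn : nst w g z = n) (hd : nab w z = nab (w + g z) z + 1) : OutG j w K XE XO g z u := by
  rcases h with h | h | h
  · exact Or.inl h
  · exact Or.inr ⟨hd, Or.inl ⟨by rw [hn]; exact h.1, h.2⟩⟩
  · exact Or.inr ⟨hd, Or.inr (Or.inl ⟨by rw [hn]; exact h.1, h.2⟩)⟩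

end Pool.Agent.GaussPoset.Sm

end

/-! From `Pool.Agent.W_448s8f_h76.FkB` -/

section

/-!
# The windows `2`, `3` with fold joins above the cap (MP_448cb3_co, S8, `j = 12, 14`)
-/

namespace Pool.Agent.GaussPoset.Sm

set_option linter.unusedSectionVars false

open Polynomial Finset W4

universe u

variable {P : Type u} [Fintype P] [PartialOrder P] [DecidableEq P] {r j w K : ℕ}
  {N : Tops P → Finset P} {b : Tops P → ℕ} {θ : Tops P → P → ℕ} {XE XO : ℕ → Prop}

/-- no element below both ends of a stair with a fold -/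
def NoCC (P : Type u) [Fintype P] [PartialOrder P] [DecidableEq P] (j : ℕ) : Prop :=
  ∀ z x x' : P, lev z = j + 1 → Fold j x → z ⋖ x → z ⋖ x' → x' ≠ x → (Win.uc x').card = 1 →
    topOf x ≠ topOf x'

lemma NoCC.not_cel (h : NoCC P j) (W : Wk r j w K N b θ) (hw2 : 2 ≤ w) {z : P} :
    ¬ CEl j w N θ z := by
  rintro ⟨h1, h2, f, s, h3, h4, h5, h6, h7⟩
  obtain ⟨Nc, co, C⟩ := W.fold_cell hw2 h1 h2 h3 h4 h5 h7
  refine h z f s h2 ⟨C.lev, C.ev, fun k hk => ?_⟩ h3 h4 h5.symm (W.near h1 h2 h3 h4 h5).2 h6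
  have := C.nab hk
  omega

end Pool.Agent.GaussPoset.Sm

end

/-! From `Pool.Agent.W_448f4_h70.GU` -/

section

/-!
# The windows `2`, `3` with the larger labels: cheap cells without twins (MP_448cb3_co, S7)
-/

namespace Pool.Agent.GaussPoset.Sm

set_option linter.unusedSectionVars false

open Polynomial Finset W4 Cp

universe u

section Cells

variable {P : Type u} [Fintype P] [PartialOrder P] [DecidableEq P] {r j w K0 K : ℕ}
  {N : Tops P → Finset P} {b : Tops P → ℕ} {θ : Tops P → P → ℕ} {XE XO : ℕ → Prop}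

/-- no other element has the same elements above it -/
def NTw (x : P) : Prop := ∀ x', x' ≠ x → ¬ ∀ u, x < u ↔ x' < u

/-- cheap deep cells -/
structure CheapN (w K : ℕ) (XE XO : ℕ → Prop) (θ : Tops P → P → ℕ) (x : P) : Prop where
  th : θ (topOf x) x + 1 < lev x - w
  drop : nab w x = nab (w + (θ (topOf x) x + 1)) x + 1
  pen : Okv K XE XO (nst w (fun _ => θ (topOf x) x + 1) x) (C1 w θ x)
  twn : Okv K XE XO (nst w (fun _ => θ (topOf x) x + 1) x) (C1 w θ x - 1) ∨ NTw x
  two : K < C1 w θ x + (θ (topOf x) x + 1) ∨ (NTw x ∧ ∀ z y : P, z ⋖ x → z ⋖ y → y ≠ x →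
    K < cst w (fun _ => θ (topOf x) x + 1) z)

/-- the numerical conditions at a special cell -/
structure SpOKN (j w K : ℕ) (XE XO : ℕ → Prop) (θ : Tops P → P → ℕ) (x : P) : Prop where
  pen : Okv K XE XO (nst w (fun _ => j - w + 1) x) (cst w (fun _ => j - w + 1) x + (j - w + 1))
  twn : Okv K XE XO (nst w (fun _ => j - w + 1) x) (cst w (fun _ => j - w + 1) x + (j - w)) ∨
    NTw x
  two : K < C1 w θ x + (j - w)

/-- deep cells without twins and pendants -/
structure NPen (w K : ℕ) (N : Tops P → Finset P) (θ : Tops P → P → ℕ) (x : P) : Prop where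
  th : θ (topOf x) x + 1 < lev x - w
  ntw : NTw x
  nop : ∀ z ∈ bdR (rA N), z ⋖ x → ∃ y, z ⋖ y ∧ y ≠ x
  two : K < C1 w θ x + (θ (topOf x) x + 1) ∨ ∀ z y : P, z ⋖ x → z ⋖ y → y ≠ x →
    K < cst w (fun _ => θ (topOf x) x + 1) z

/-- the classification of the deep cells -/
def CellsN (P : Type u) [Fintype P] [PartialOrder P] [DecidableEq P] (j w K0 K : ℕ)
    (N : Tops P → Finset P) (b : Tops P → ℕ) (θ : Tops P → P → ℕ) (XE XO : ℕ → Prop) : Prop :=
  ∀ x : P, x ∉ unnat N → j + 1 ≤ lev x → Dk j w K0 N θ x → ¬ Row1 j w N θ x →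
    K + 1 < C1 w θ x ∨ CheapN w K XE XO θ x ∨ (Spc j w N b θ x ∧ SpOKN j w K XE XO θ x) ∨
      NPen w K N θ x

lemma Cheap.toN {x : P} (h : Cheap w K XE XO θ x) : CheapN w K XE XO θ x :=
  ⟨h.th, h.drop, h.pen, Or.inl h.twn, Or.inl h.two⟩

lemma SpOK.toN {x : P} (h : SpOK j w K XE XO θ x) : SpOKN j w K XE XO θ x :=
  ⟨h.pen, Or.inl h.twn, h.two⟩

/-- cheap cells are not special -/
lemma CheapN.not_spc {x : P} (h : CheapN w K XE XO θ x) (hw1 : 2 ≤ w) (hw3 : w ≤ 3)
    (hj : 6 ≤ j) : ¬ Spc j w N b θ x := by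
  rintro ⟨Nc, co, C⟩
  have h1 := h.drop
  have h2 := C.th
  have h3 := C.nab (by omega) (k := w) (by omega)
  have h4 := C.nab (by omega) (k := w + (θ (topOf x) x + 1)) (by omega)
  have h5 : w + (θ (topOf x) x + 1) = j := by omega
  rw [h5] at h1 h4
  omega

/-- an element which is not a twin -/
lemma Wk.bs_self (W : Wk r j w K0 N b θ) {x : P} (h : NTw (GaussPoset.bs N x)) :
    GaussPoset.bs N x = x := by
  by_cases hx : x ∈ twA N
  · exfalso
    have hbs : GaussPoset.bs N x = twT N x := by
      unfold GaussPoset.bs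
      rw [if_pos hx]
    rw [hbs] at h
    exact h x (W.twn hx).ne.symm (W.twSys.up x hx)
  · unfold GaussPoset.bs
    rw [if_neg hx]

/-- an element below a deep cell has a deep cover which defines its label -/
lemma Wk.deep_minN (W : Wk r j w K0 N b θ) {z : P} (hz : z ∈ bdR (rA N)) {x : P}
    (hx : x ∉ rA N) (hzx : z ⋖ x) (hlx : j + 1 ≤ lev x)
    (hD : Dk j w K0 N θ (GaussPoset.bs N x)) (hR : ¬ Row1 j w N θ (GaussPoset.bs N x)) :
    ∃ x1, x1 ∉ rA N ∧ z ⋖ x1 ∧ Dk j w K0 N θ (GaussPoset.bs N x1) ∧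
      ¬ Row1 j w N θ (GaussPoset.bs N x1) ∧
      hA N θ z = θ (topOf (GaussPoset.bs N x1)) (GaussPoset.bs N x1) + 1 := by
  have H := W.gt.H.gradedBelow
  obtain ⟨x0, g1, g2, g3⟩ := W.hA_spec hz
  have g4 := W.hA_le hx hzx
  have g5 := hD.th
  have g6 := W.bs hx
  have g7 := W.bs g1
  have e1 := H.lev_covBy hzx
  have e2 := H.lev_covBy g2
  have e3 := g6.lev
  have e4 := g7.lev
  have hj := W.hj
  have hw := W.hw
  by_cases hS : lev (GaussPoset.bs N x0) ≤
      θ (topOf (GaussPoset.bs N x0)) (GaussPoset.bs N x0) + 1 + w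
  · refine ⟨x, hx, hzx, hD, hR, ?_⟩
    omega
  · refine ⟨x0, g1, g2, ?_, ?_, g3⟩
    · rcases W.cases g7.nat (by omega) with h | h | h
      · have := h.th
        omega
      · have := h.th
        omega
      · exact h
    · intro h
      have := h.th
      omega

/-- **elements below a deep cell of level at least `j + 1`** -/
theorem Wk.dp_cellsN (W : Wk r j w K0 N b θ) (hw2 : 2 ≤ w) (hj6 : 6 ≤ j)
    (hC : CellsN P j w K0 K N b θ XE XO) {v : ℕ} {z x : P} (hz : z ∈ bdR (rA N))
    (hc : cst w (hS j w N b θ) z = v) (hx : x ∉ rA N) (hzx : z ⋖ x) (hlx : j + 1 ≤ lev x)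
    (hD : Dk j w K0 N θ (GaussPoset.bs N x)) (hR : ¬ Row1 j w N θ (GaussPoset.bs N x)) :
    OutG j w K XE XO (hS j w N b θ) z v := by
  classical
  have H := W.gt.H.gradedBelow
  have hj := W.hj
  have hw := W.hw
  obtain ⟨x1, h1, h2, h3, hR1, h4⟩ := W.deep_minN hz hx hzx hlx hD hR
  have g7 := W.bs h1
  have e1 := H.lev_covBy hzx
  have e2 := H.lev_covBy h2
  have e4 := g7.lev
  have hth := h3.th
  have hcells := hC _ g7.nat (by omega) h3 hR1
  have hcg : ∀ L, cst w (fun _ => L) (GaussPoset.bs N x1) = cst w (fun _ => L) x1 := fun L =>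
    cst_const_congr g7.lev g7.nab
  by_cases hp : PenS j w N b θ z
  · -- below a special cell
    obtain ⟨p1, p2, p3⟩ := W.penS hp
    obtain ⟨-, x2, q1, q2, q3, q4⟩ := hp
    have hpS : PenS j w N b θ z := ⟨(mem_bdR.mp hz).1, x2, q1, q2, q3, q4⟩
    have hx12 := q3 x1 h2
    subst hx12
    have hS1 := hS_of hpS
    have hv : v = cst w (fun _ => j - w + 1) (GaussPoset.bs N x1) + (j - w + 1) := by
      rw [← hc, cst_const, hS1, p1, cst_only (h := fun _ => j - w + 1) H h2 q3, hcg,
        Nat.min_eq_left (by omega)]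
    rcases hcells with h | h | ⟨-, h⟩ | h
    · left
      rw [hv]
      unfold C1 at h
      have h5 : θ (topOf (GaussPoset.bs N x1)) (GaussPoset.bs N x1) + 1 = j - w := by omega
      rw [h5] at h
      have h6 : cst w (fun _ => j - w) (GaussPoset.bs N x1) ≤
          cst w (fun _ => j - w + 1) (GaussPoset.bs N x1) := by
        unfold cst ez
        refine Finset.sum_le_sum fun y _ => ?_
        split_ifs
        · simp only
          omega
        · exact le_rfl
      omega
    · exact absurd q4 (h.not_spc hw2 hw hj6)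
    · rw [hv]
      refine h.pen.out ?_ ?_
      · refine nst_bs (by rw [hS1, p1]) g7.nab (by omega) fun k hk => ?_
        exact nab_only q3 h2 (by omega)
      · obtain ⟨Nc, co, C⟩ := q4
        have a1 := C.nab (by omega) (k := w) (by omega)
        rw [hS1, p1, nab_only q3 h2 (by omega), nab_only q3 h2 (by omega),
          show w + (j - w + 1) = lev x1 by omega, nab_self]
        rcases g7.nab w with h6 | h6
        · omega
        · omega
    · exfalso
      have e9 := W.bs_self h.ntw
      obtain ⟨y, hy, hne⟩ := h.nop z hz (by rw [e9]; exact h2)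
      rw [e9] at hne
      exact hne (q3 y hy)
  · -- the canonical label
    have hnc : ¬ CEl j w N θ z := by
      rintro ⟨-, h, -⟩
      omega
    have hS1 : hS j w N b θ z = θ (topOf (GaussPoset.bs N x1)) (GaussPoset.bs N x1) + 1 := by
      rw [hS_not hp, hC_not hnc, h4]
    by_cases honly : ∀ y, z ⋖ y → y = x1
    · have hns : ¬ Spc j w N b θ (GaussPoset.bs N x1) := fun hs =>
        hp ⟨(mem_bdR.mp hz).1, x1, h1, h2, honly, hs⟩
      have hv : v = C1 w θ (GaussPoset.bs N x1) := by
        unfold C1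
        rw [← hc, cst_const, hS1, cst_only (h := fun _ =>
          θ (topOf (GaussPoset.bs N x1)) (GaussPoset.bs N x1) + 1) H h2 honly, hcg,
          Nat.min_eq_left (by omega)]
      rcases hcells with h | h | ⟨h, -⟩ | h
      · left
        omega
      · rw [hv]
        refine h.pen.out ?_ ?_
        · refine nst_bs hS1 g7.nab (by omega) fun k hk => ?_
          exact nab_only honly h2 (by omega)
        · have a1 := h.drop
          have a2 := h.th
          rw [hS1, nab_only honly h2 (by omega), nab_only honly h2 (by omega)]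
          rcases g7.nab w with h6 | h6
          · rcases g7.nab (w + (θ (topOf (GaussPoset.bs N x1)) (GaussPoset.bs N x1) + 1)) with
              h7 | h7
            · omega
            · omega
          · omega
      · exact absurd h hns
      · exfalso
        have e9 := W.bs_self h.ntw
        obtain ⟨y, hy, hne⟩ := h.nop z hz (by rw [e9]; exact h2)
        rw [e9] at hne
        exact hne (honly y hy)
    · push Not at honly
      obtain ⟨y, hy, hne⟩ := honly
      left
      have h5 := cst_two (w := w)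
        (h := θ (topOf (GaussPoset.bs N x1)) (GaussPoset.bs N x1) + 1) H h2 hy (Ne.symm hne)
        (by omega) (by omega)
      have h6 : C1 w θ (GaussPoset.bs N x1) +
          (θ (topOf (GaussPoset.bs N x1)) (GaussPoset.bs N x1) + 1) ≤ v := by
        rw [← hc, cst_const, hS1]
        unfold C1
        rw [hcg]
        exact h5
      rcases hcells with h | h | ⟨hs, h⟩ | h
      · omega
      · rcases h.two with h7 | ⟨h7, h8⟩
        · omega
        · have e9 := W.bs_self h7
          have h9 := h8 z y (by rw [e9]; exact h2) hy (by rw [e9]; exact hne)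
          rw [← hS1, ← cst_const, hc] at h9
          exact h9
      · have a1 := h.two
        obtain ⟨Nc, co, C⟩ := hs
        have a2 := C.th
        omega
      · rcases h.two with h7 | h8
        · omega
        · have e9 := W.bs_self h.ntw
          have h9 := h8 z y (by rw [e9]; exact h2) hy (by rw [e9]; exact hne)
          rw [← hS1, ← cst_const, hc] at h9
          exact h9

/-- **the twins of deep cells** -/
theorem Wk.dt_cellsN (W : Wk r j w K0 N b θ) (hw2 : 2 ≤ w) (hj6 : 6 ≤ j)
    (hC : CellsN P j w K0 K N b θ XE XO) {x : P} (hx : x ∈ twA N)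
    (hD : Dk j w K0 N θ (twT N x)) (hR : ¬ Row1 j w N θ (twT N x)) :
    OutTG j w K XE XO N b θ x := by
  classical
  have H := W.gt.H.gradedBelow
  have hj := W.hj
  have hw := W.hw
  have hl := (W.tw_cases hx).1
  have T := W.twn hx
  have hup := W.twSys.up x hx
  have hll : lev (twT N x) = lev x := lev_eq_of_up hup
  have hnb : ∀ k, k < lev x → nab k (twT N x) = nab k x := fun k hk => nab_congr_up hup hk
  have hth := hD.th
  have hnat := W.twSys.nat x hx
  have e1 : thA N θ (twT N x) = θ (topOf (twT N x)) (twT N x) := W.thA_nat hnat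
  have hlv : j + 1 ≤ lev (twT N x) := by
    have := W.lt_lev (mem_twA.mp hx).1
    omega
  have e2 : tcst w (thA N θ) (twT N x, x) = C1 w θ (twT N x) - 1 := by
    rw [tcst_cst T]
    unfold C1
    simp only
    rw [e1]
    omega
  by_cases hs : Spc j w N b θ (twT N x)
  · have h1 : tcS j w N b θ x = tcst w (thA N θ) (twT N x, x) + 2 := W.tcS_spc hx hs
    have T' := W.twnS hx hs
    rcases hC _ hnat hlv hD hR with h | h | ⟨-, h⟩ | h
    · left
      omega
    · exact absurd hs (h.not_spc hw2 hw hj6)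
    · have h2 : tcS j w N b θ x = cst w (fun _ => j - w + 1) (twT N x) + (j - w) := by
        unfold tcS
        rw [if_pos hs, tcst_cst T']
      have h3 : TmS j w N b θ x = Lt w (fun _ => j - w + 1) x := by
        unfold TmS
        rw [if_pos hs, Tm_gen H T']
      obtain ⟨Nc, co, C⟩ := hs
      have hlC := C.lev (by omega)
      have a1 := C.nab (by omega) (k := w) (by omega)
      have hn : nst w (fun _ => j - w + 1) x = nst w (fun _ => j - w + 1) (twT N x) := by
        rw [nst_eq, nst_eq]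
        refine Finset.sum_congr rfl fun k hk => ?_
        rw [mem_range] at hk
        exact (hnb _ (by omega)).symm
      rcases h.twn with (h4 | h4 | h4) | h4
      · left
        omega
      · right
        refine ⟨j - w + 1, h3, ?_, Or.inl ⟨by rw [hn]; exact h4.1, by rw [h2]; exact h4.2⟩⟩
        rw [← hnb w (by omega), show w + (j - w + 1) = lev x by omega, nab_self]
        omega
      · right
        refine ⟨j - w + 1, h3, ?_, Or.inr ⟨by rw [hn]; exact h4.1, by rw [h2]; exact h4.2⟩⟩
        rw [← hnb w (by omega), show w + (j - w + 1) = lev x by omega, nab_self]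
        omega
      · exact absurd hup (h4 x T.ne.symm)
    · exact absurd hup (h.ntw x T.ne.symm)
  · have h2 : tcS j w N b θ x = C1 w θ (twT N x) - 1 := by
      unfold tcS
      rw [if_neg hs, e2]
    rcases hC _ hnat hlv hD hR with h | h | ⟨h, -⟩ | h
    · left
      omega
    · have h3 : TmS j w N b θ x = Lt w (fun _ => θ (topOf (twT N x)) (twT N x) + 1) x := by
        unfold TmS
        rw [if_neg hs, Tm_gen H T]
        simp only
        rw [e1]
      have a1 := h.drop
      have a2 := h.th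
      have hn : nst w (fun _ => θ (topOf (twT N x)) (twT N x) + 1) x =
          nst w (fun _ => θ (topOf (twT N x)) (twT N x) + 1) (twT N x) := by
        rw [nst_eq, nst_eq]
        refine Finset.sum_congr rfl fun k hk => ?_
        rw [mem_range] at hk
        exact (hnb _ (by omega)).symm
      rcases h.twn with (h4 | h4 | h4) | h4
      · left
        omega
      · right
        refine ⟨_, h3, ?_, Or.inl ⟨by rw [hn]; exact h4.1, by rw [h2]; exact h4.2⟩⟩
        rw [← hnb w (by omega), ← hnb (w + (θ (topOf (twT N x)) (twT N x) + 1)) (by omega)]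
        exact a1
      · right
        refine ⟨_, h3, ?_, Or.inr ⟨by rw [hn]; exact h4.1, by rw [h2]; exact h4.2⟩⟩
        rw [← hnb w (by omega), ← hnb (w + (θ (topOf (twT N x)) (twT N x) + 1)) (by omega)]
        exact a1
      · exact absurd hup (h4 x T.ne.symm)
    · exact absurd h hs
    · exact absurd hup (h.ntw x T.ne.symm)

end Cells

end Pool.Agent.GaussPoset.Sm

end

/-! From `Pool.Agent.W_448pg_h74.WvA` -/

section

/-!
# The far window theorem at every window (MP_448cb3_co, S7)

The machine of the windows `2`, `3` (W_448f4_h70/FD, GJ, GK, GN, GO, GP) also at the window `1`.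
-/

namespace Pool.Agent.GaussPoset.Sm

set_option linter.unusedSectionVars false

open Polynomial Finset

universe u

variable {P : Type u} [Fintype P] [PartialOrder P] [DecidableEq P] {r j w K0 K : ℕ}
  {N : Tops P → Finset P} {b : Tops P → ℕ} {θ : Tops P → P → ℕ} {XE XO : ℕ → Prop}

/-- a deep element of level `j` with a sibling is a fold end -/
theorem Wk.fold_cell' (W : Wk r j w K N b θ) {z f s : P}
    (hz : z ∈ rA N) (hlz : lev z = j + 1) (hzf : z ⋖ f) (hzs : z ⋖ s) (hne : f ≠ s)
    (hth : θ (topOf f) f + 1 + w ≤ lev f) : ∃ Nc co, FoldC j w N b θ f Nc co := by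
  have H := W.gt.H
  have HN := W.natSys
  have hj := W.hj
  have hw := W.hw
  have e1 := (H.covBy_iff.mp hzf).2
  have hlx : lev f = j := by omega
  have hx : f ∉ unnat N := W.low (by omega)
  have hn1 := (W.near hz hlz hzf hzs hne).1
  have hxt : f ∈ N (topOf f) := HN.mem_iff.mpr ⟨hx, rfl⟩
  generalize htt : topOf f = t at hxt hth
  have key : ∀ Nc co, StairNat j w t Nc co → N t = natS Nc co → θ t = thS w Nc co →
      b t = w / 2 + 1 → 2 ≤ w → FoldC j w N b θ f Nc co := by
    intro Nc co h0 g1 g2 g3 hw2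
    rw [g1] at hxt
    rw [g2] at hth
    have hJ : f ∉ junk (fun c => c.1 ≤ c.2) Nc co := by
      intro h
      unfold thS at hth
      rw [if_pos h] at hth
      omega
    have hxN : f ∈ Nc := by
      rw [mem_natS] at hxt
      exact hxt.resolve_right hJ
    have hl := h0.chart.lev f hxN
    have hm : (co f).1 ≤ (co f).2 := h0.chart.mem f hxN
    have h2 := stair_th7 h0 hw hw2 hxN hJ (by omega)
    rcases Nat.lt_or_ge (co f).1 (co f).2 with hlt | hge
    · have h3 := stair_inner_uc h0.chart H hxN (by omega) hlt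
      omega
    · subst htt
      refine ⟨h0, g1, by rw [g3]; omega, hxN, by omega, by omega, by omega, ?_⟩
      rw [g2]
      omega
  rcases W.typ t with ⟨g1, g2, g3, g5⟩ | ⟨Nc, co, h0, g1, g2, g4⟩ |
    ⟨Nc, co, h0, g1, g2, g3, g4, g5'⟩
  · exfalso
    rw [g2] at hth
    simp only at hth
    omega
  · exfalso
    rw [g1] at hxt
    rw [g2] at hth
    have hJ : ¬ (f ∈ junk (fun _ => True) Nc co ∨ f ∈ junk (fun _ => True) Nc (swp co)) := by
      intro h
      unfold thR at hth
      rw [if_pos h] at hth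
      omega
    have hxN : f ∈ Nc := by
      rw [mem_natR] at hxt
      rcases hxt with h | h | h
      · exact h
      · exact absurd (Or.inl h) hJ
      · exact absurd (Or.inr h) hJ
    have h2 := rect_th7 h0 hw hxN hJ (by omega)
    have h3 := chart_inner_uc h0.chart H hxN (by omega) (by omega)
    omega
  · exact ⟨Nc, co, key Nc co h0 g1 g2 g3 g4⟩

/-- the part of the element below both ends of a stair -/
theorem Wk.bigC' (W : Wk r j w K N b θ) (h12 : 12 ≤ j) {n0 : ℕ} {g : P → ℕ}
    {x z : P} (hz : z ∈ unnat N \ twA N) (hzx : z ⋖ x) (hzC : CEl j w N θ z)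
    (hlt : hA N θ z ≤ g z) (hgz : g z < lev z - w)
    (hCc : n0 ≤ cst w (fun _ => lev z - w) z) {m : ℕ}
    (hm : m + ∑ x ∈ unnat N \ twA N, g x ≤ n0) :
    (1 + X : ℤ[X]) ^ (b (topOf x)) ∣
      ZB (P := {y : P // y ∉ unnat N \ twA N ∧ topOf y = topOf x}) w ∅ 0
        (fun y => by classical exact ((unnat N \ twA N).filter (fun z => z ⋖ (y : P))).sup g) m := by
  classical
  have H := W.gt.H
  have HN := W.natSys
  have hj := W.hj
  have hw := W.hw
  have hz' := hzC
  obtain ⟨h1, h2, f, s, h3, h4, h5, h6, h7⟩ := hz'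
  obtain ⟨Nc, co, C⟩ := W.fold_cell' h1 h2 h3 h4 h5 h7
  have e1 := W.hA_fold C h1 h2 h3 h4 h5
  obtain ⟨s1, s2, s3⟩ := W.fold_end C h1 h2 h3 h4 h5 h6
  have hlf := C.lev
  have hls : lev s = j := by
    have := C.nat.chart.lev s s1
    omega
  have htx : topOf x = topOf f := by
    rcases cov_two H h3 h4 h5 hzx with rfl | rfl
    · rfl
    · exact h6.symm
  have hbt : b (topOf x) = 2 := by rw [htx, C.hb]
  rw [hbt]
  set k := g z with hk
  have hk1 : j - w - 1 ≤ k := by omega
  have hk2 : k ≤ j - w := by omega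
  have hn0 : n0 ≤ F4.Efs w k f s + k + 4 := hCc.trans (cst_full_le H h3 h4 h5 (by omega))
  have hsz : k ≤ ∑ x ∈ unnat N \ twA N, g x :=
    Finset.single_le_sum (f := g) (fun _ _ => Nat.zero_le _) hz
  have hp : ∀ x' y : P, x' ≤ y → (x' ∉ unnat N \ twA N ∧ topOf x' = topOf x) →
      (y ∉ unnat N \ twA N ∧ topOf y = topOf x) :=
    pg_part_up (W.twSys.lower HN.lower) (W.twSys.cp' HN.cp)
  have hfR : f ∉ unnat N \ twA N := not_mem_rA.mpr (Or.inl (W.low (by omega)))
  have hsR : s ∉ unnat N \ twA N := not_mem_rA.mpr (Or.inl (W.low (by omega)))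
  have hBf : k ≤ ((unnat N \ twA N).filter (fun z => z ⋖ f)).sup g :=
    Finset.le_sup (f := g) (mem_filter.mpr ⟨hz, h3⟩)
  have hBs : k ≤ ((unnat N \ twA N).filter (fun z => z ⋖ s)).sup g :=
    Finset.le_sup (f := g) (mem_filter.mpr ⟨hz, h4⟩)
  by_cases hbigz : ∃ z' ∈ unnat N \ twA N, k < g z'
  · obtain ⟨z', hz', hk'⟩ := hbigz
    have hne' : z' ≠ z := by
      rintro rfl
      omega
    have h8 : g z + g z' ≤ ∑ x ∈ unnat N \ twA N, g x := by
      rw [← Finset.sum_pair (f := g) hne'.symm]
      refine Finset.sum_le_sum_of_subset ?_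
      intro y hy
      rw [mem_insert, mem_singleton] at hy
      rcases hy with rfl | rfl
      · exact hz
      · exact hz'
    rw [F4.part_zero hp (i := w) (k := k) (f := f) (s := s) ⟨hfR, htx.symm⟩
      ⟨hsR, h6.symm.trans htx.symm⟩ hBf hBs (by omega)]
    exact dvd_zero _
  · push Not at hbigz
    have hBle : ∀ y : P, ((unnat N \ twA N).filter (fun z => z ⋖ y)).sup g ≤ k := by
      intro y
      refine Finset.sup_le fun z' hz' => ?_
      exact hbigz z' (mem_filter.mp hz').1
    refine F4.part_two hp (i := w) (k := k) (M := j / 2 + 1) (c0 := 4) (f := f) (s := s)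
      ⟨hfR, htx.symm⟩ ⟨hsR, h6.symm.trans htx.symm⟩ (by omega) (by omega) ?_ (by omega)
      (by omega) ?_ (fun y => hBle y) (le_antisymm (hBle f) hBf) (le_antisymm (hBle s) hBs)
      (by omega)
    · rintro y ⟨-, hy2⟩ hy3
      have hyN : y ∈ Nc := by
        refine C.nat.strip (mem_lowPart.mpr ⟨?_, by omega⟩)
        rw [← htx, ← hy2]
        exact le_topOf y
      have hly := C.nat.chart.lev y hyN
      have hmy : (co y).1 ≤ (co y).2 := C.nat.chart.mem y hyN
      rcases Nat.lt_or_ge (j / 2) (co y).2 with h9 | h9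
      · right
        rw [C.nat.chart.le_iff s s1 y hyN, Prod.le_def, s2, s3]
        constructor
        · omega
        · omega
      · left
        rw [C.nat.chart.le_iff f C.mem y hyN, Prod.le_def, C.co1, C.co2]
        constructor
        · omega
        · exact h9
    · intro y hy1 hy2
      have hyN := C.nat.chart.up f C.mem y hy1
      have a1 := (C.nat.chart.le_iff f C.mem y hyN).mp hy1
      have a2 := (C.nat.chart.le_iff s s1 y hyN).mp hy2
      rw [Prod.le_def, C.co1, C.co2] at a1
      rw [Prod.le_def, s2, s3] at a2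
      have hly := C.nat.chart.lev y hyN
      have := C.ev
      omega

/-- **The far window theorem with the larger labels.** -/
theorem Wk.farS' (W : Wk r j w K N b θ) (h7 : 7 ≤ j) (h12 : j % 2 = 0 → 12 ≤ j) (n0 : ℕ)
    (hcost : ∀ x ∈ twA N, n0 ≤ tcS j w N b θ x)
    (hbd : ∀ z ∈ bdR (rA N), n0 ≤ cst w (hS j w N b θ) z) :
    FarV P w (rA N) (lv P w).card (hS j w N b θ)
      (∑ x ∈ (twA N).filter (fun x => tcS j w N b θ x = n0), TmS j w N b θ x) n0 := by
  classical
  have H := W.gt.H
  have HN := W.natSys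
  have hj := W.hj
  have hw := W.hw
  have F := W.farS0 h7 n0 hcost
  choose B hB using fun t => (W.top t).natTop H.gradedBelow
  have hCl : ∀ z, CEl j w N θ z → hA N θ z = j - w - 1 ∧ lev z = j + 1 ∧ j % 2 = 0 := by
    intro z hz
    obtain ⟨h1, h2, f, s, h3, h4, h5, h6, h7⟩ := hz
    obtain ⟨Nc, co, C⟩ := W.fold_cell' h1 h2 h3 h4 h5 h7
    exact ⟨W.hA_fold C h1 h2 h3 h4 h5, h2, C.ev⟩
  have hspec : ∀ z, (PenS j w N b θ z ∧ hA N θ z = j - w ∧ lev z = j + 2 ∧
      hS j w N b θ z = j - w + 1) ∨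
      (¬ PenS j w N b θ z ∧ (CEl j w N θ z ∧ j % 2 = 0) ∧ hA N θ z = j - w - 1 ∧
        lev z = j + 1 ∧ hS j w N b θ z = lev z - w) ∨ hS j w N b θ z = hA N θ z := by
    intro z
    by_cases h1 : PenS j w N b θ z
    · obtain ⟨a1, a2, a3⟩ := W.penS h1
      exact Or.inl ⟨h1, a1, a2, by rw [hS_of h1, a1]⟩
    · right
      by_cases h2 : CEl j w N θ z
      · obtain ⟨a1, a2, a3⟩ := hCl z h2
        exact Or.inl ⟨h1, ⟨h2, a3⟩, a1, a2, by rw [hS_not h1, hC_of h2]⟩
      · exact Or.inr (by rw [hS_not h1, hC_not h2])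
  have F' : FarV P w (unnat N \ twA N) (∑ t, b t)
      (hcan (unnat N \ twA N) (thX (twA N) (twT N) (fun x => θ (topOf x) x)))
      (∑ x ∈ (twA N).filter (fun x => tcS j w N b θ x = n0), TmS j w N b θ x) n0 := by
    rw [W.sum_b]
    exact F
  have key := farV_big (B := B) hB W.twSys n0 (j - w - 1) F' (fun x hx => W.twn hx) ?_
    (hS j w N b θ) ?_ ?_ ?_ ?_
  · rw [W.sum_b] at key
    exact key
  · intro x hx
    have h1 := hcost x hx
    show n0 < tcst w (thA N θ) (twT N x, x) + (j - w - 1)
    by_cases hs : Spc j w N b θ (twT N x)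
    · rw [W.tcS_spc hx hs] at h1
      omega
    · unfold tcS at h1
      rw [if_neg hs] at h1
      omega
  · intro z _
    show hA N θ z ≤ hS j w N b θ z
    rcases hspec z with ⟨-, h1, -, h2⟩ | ⟨-, -, h1, h3, h2⟩ | h1 <;> omega
  · intro z _ hlt
    have hlt' : hA N θ z < hS j w N b θ z := hlt
    show j - w - 1 ≤ hA N θ z
    rcases hspec z with ⟨-, h1, -, h2⟩ | ⟨-, -, h1, h3, h2⟩ | h1 <;> omega
  · intro z hz
    have h0 : hA N θ z ≤ lev z - w := F.le_lev z hz
    rcases hspec z with ⟨-, h1, h3, h2⟩ | ⟨-, -, h1, h3, h2⟩ | h1 <;> omega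
  · intro g g0 hg x z hx hz hzx hlt m hm
    have hzb : z ∈ bdR (unnat N \ twA N) := mem_bdR.mpr ⟨hz, x, hx, hzx⟩
    have hlt' : thA N θ x < g z := hlt
    have hle : hA N θ z ≤ thA N θ x + 1 := hcan_le hx hzx
    have hgz := hg z hzb
    have hcz := hbd z hzb
    rw [cst_const w (hS j w N b θ) z] at hcz
    rcases hspec z with ⟨h0, h1, h3, h2⟩ | ⟨-, h0, h1, h3, h2⟩ | h1
    · rw [h2] at hcz hgz
      exact W.bigS (by omega) hz hzx h0 (by omega) hcz hm
    · rw [h2] at hcz hgz
      exact W.bigC' (h12 h0.2) hz hzx h0.1 (by omega) hgz hcz hm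
    · omega

end Pool.Agent.GaussPoset.Sm

end
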