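import Mathlib
import Pool.Agent.W_448zz_h61.Ns
import Pool.Agent.W_448zz_h61.M082
import Pool.Agent.W_448zz_h61.M132

/-! From `Pool.Agent.W_448w4_h70.WE` -/

section

/-!
# The windows `3`, `4`: flat elements, row `1` (MP_448cb3_co, S7, `j = 12, 14, 15`)
-/

namespace Pool.Agent.GaussPoset.W4

set_option linter.unusedSectionVars false

open Polynomial Finset Sm

universe u

variable {P : Type u} [Fintype P] [PartialOrder P] [DecidableEq P] {r j K3 K V3 : ℕ}
  {N : Tops P → Finset P} {b : Tops P → ℕ} {θ3 θ4 : Tops P → P → ℕ}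

/-- flat elements, both windows -/
def FlatY (j : ℕ) (N : Tops P → Finset P) (θ3 θ4 : Tops P → P → ℕ) (z : P) : Prop :=
  ∀ x, z ⋖ x → x ∉ unnat N ∧ ((Str 3 N θ3 x ∧ Str 4 N θ4 x) ∨
    (Row1 j 3 N θ3 x ∧ Row1 j 4 N θ4 x))

/-- a cheapest boundary element without deep covers is flat -/
theorem Y4.flat (Y : Y4 r j K3 K V3 N b θ3 θ4) {v : ℕ} (M : Mn j 4 N θ4 v) {z : P}
    (hz : z ∈ bdR (rA N)) (hc : cst 4 (hA N θ4) z = v)
    (hnd : ∀ x, x ∉ rA N → z ⋖ x → ¬ Dy j K V3 N θ3 θ4 (GaussPoset.bs N x)) :
    FlatY j N θ3 θ4 z ∧ lev z ≤ hA N θ4 z + 1 + 4 := by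
  have H := Y.W.gt.H.gradedBelow
  have hj := Y.n.hj
  have hlz := Y.W.bd_lev hz
  have hkd : ∀ x, x ∉ rA N → z ⋖ x →
      (Str 3 N θ3 (GaussPoset.bs N x) ∧ Str 4 N θ4 (GaussPoset.bs N x)) ∨
      (Row1 j 3 N θ3 (GaussPoset.bs N x) ∧ Row1 j 4 N θ4 (GaussPoset.bs N x)) := by
    intro x hx hzx
    have g6 := Y.bs hx
    have e1 := H.lev_covBy hzx
    have e3 := g6.lev
    rcases Y.cases g6.nat (by omega) with h | h | h
    · exact Or.inl h
    · exact Or.inr h
    · exact absurd h (hnd x hx hzx)
  have hge : lev z ≤ hA N θ4 z + 1 + 4 := by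
    obtain ⟨x0, g1, g2, g3⟩ := Y.hA_spec hz
    have g7 := Y.bs g1
    have e2 := H.lev_covBy g2
    have e4 := g7.lev
    rcases hkd x0 g1 g2 with h | h
    · have := h.2.th
      omega
    · have := h.2.th
      omega
  refine ⟨?_, hge⟩
  intro x hzx
  have hxR : x ∉ rA N := by
    refine no_cover_of_min H (fun x hx => ?_) M.bd (fun z hz => ?_) hz hc (by omega) hzx
    · have := Y.W.lt_lev (mem_rA.mp hx).1
      omega
    · obtain ⟨x0, g1, g2, g3⟩ := Y.hA_spec hz
      omega
  have hxt : x ∉ twA N := by
    intro hxt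
    have e1 := H.lev_covBy hzx
    obtain ⟨g1, g2⟩ := Y.tw_cases hxt
    have hbs : GaussPoset.bs N x = twT N x := by
      unfold GaussPoset.bs
      rw [if_pos hxt]
    have g6 := Y.bs hxR
    rw [hbs] at g6
    have hR : Row1 j 4 N θ4 (twT N x) := by
      rcases g2 with h | h
      · exact h.2
      · exact absurd (hbs ▸ h) (hnd x hxR hzx)
    obtain ⟨a, ha⟩ : ∃ a, lev x = 4 + a := ⟨lev x - 4, by have := g6.lev; omega⟩
    have g7 := Y.tcst_row1 hxt hR ha
    have g8 := M.tw x hxt
    have g9 := cst_step (i := 4) (h := hA N θ4) H hzx (by omega)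
    have g10 : ful 4 x = a ^ 2 := ful_two ha (fun k hk1 hk2 => by
      have := hR.nab k hk1.le (by rw [g6.lev]; exact hk2)
      rcases g6.nab k with h | h
      · rw [← h]; exact this
      · omega)
    rw [g10, hc] at g9
    have : a ≤ min (hA N θ4 z) (lev z - 4) := by
      rw [Nat.le_min]
      omega
    omega
  rcases not_mem_rA.mp hxR with h | h
  · have hbs : GaussPoset.bs N x = x := by
      unfold GaussPoset.bs
      rw [if_neg hxt]
    have := hkd x hxR hzx
    rw [hbs] at this
    exact ⟨h, this⟩
  · exact absurd h hxt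

/-- a flat element below a cell of row `1` is expensive -/
theorem Y4.row1_out (Y : Y4 r j K3 K V3 N b θ3 θ4) {z : P} (hz : z ∈ bdR (rA N))
    (hF : FlatY j N θ3 θ4 z) (hge : lev z ≤ hA N θ4 z + 1 + 4) {x : P}
    (hzx : z ⋖ x) (hR3 : Row1 j 3 N θ3 x) (hR : Row1 j 4 N θ4 x) :
    K < cst 4 (hA N θ4) z := by
  classical
  have H := Y.W.gt.H
  have hj := Y.n.hj
  have hzR := (mem_bdR.mp hz).1
  have hlz := Y.W.bd_lev hz
  have e1 := (H.covBy_iff.mp hzx).2
  have hx := (hF x hzx).1
  have hbs : GaussPoset.bs N x = x := by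
    unfold GaussPoset.bs
    rw [if_neg (Y.W.not_tw hx)]
  have hle := Y.hA_le (not_mem_rA.mpr (Or.inl hx)) hzx
  rw [hbs] at hle
  have hRt := hR.th
  have hRt3 := hR3.th
  obtain ⟨a, ha⟩ : ∃ a, lev x = 4 + a := ⟨lev x - 4, by omega⟩
  have hha : hA N θ4 z = a := by omega
  by_cases honly : ∀ y, z ⋖ y → y = x
  · -- a pendant
    have hlx : lev x ≠ j := fun h => hR.nopen h z hzx honly
    have h3 : hA N θ3 z = a + 1 := by
      obtain ⟨x0, g1, g2, g3⟩ := Y.W.hA_spec hz
      rw [honly x0 g2, hbs] at g3
      omega
    have c4 : cst 4 (hA N θ4) z = a ^ 2 + a := by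
      rw [cst_only H.gradedBelow hzx honly, hha, cst_eq_ful (by omega),
        ful_two ha (fun k hk1 hk2 => hR.nab k hk1.le hk2), Nat.min_eq_left (by omega)]
    have c3 : cst 3 (hA N θ3) z = (a + 1) ^ 2 + (a + 1) := by
      rw [cst_only H.gradedBelow hzx honly, h3, cst_eq_ful (by omega),
        ful_two (a := a + 1) (by omega) (fun k hk1 hk2 => hR3.nab k hk1.le hk2),
        Nat.min_eq_left (by omega)]
    have h7 := Y.m3 z hz
    rw [c3] at h7
    rw [c4]
    by_contra hcon
    obtain ⟨t, ht⟩ : ∃ t, a = j - 3 + t := ⟨a - (j - 3), by omega⟩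
    have h8 : t < 3 := by
      by_contra h9
      have h10 : (j - 3 + 3) ^ 2 ≤ a ^ 2 := Nat.pow_le_pow_left (by omega) 2
      have := Y.n.kk
      omega
    have h9 := Y.n.row t (Finset.mem_range.mpr h8) (by rw [← ht]; omega)
    rw [← ht] at h9
    have := h9.2 (by omega)
    omega
  · -- a pair
    push Not at honly
    obtain ⟨x', hzx', hne'⟩ := honly
    have hne : x ≠ x' := Ne.symm hne'
    have e2 := (H.covBy_iff.mp hzx').2
    have hx' := (hF x' hzx').1
    have hlx : lev x ≠ j := by
      intro h
      have := (Y.W.near hzR (by omega) hzx hzx' hne).1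
      have := hR.dbl
      omega
    have hk' : Str 3 N θ3 x' ∨ Row1 j 3 N θ3 x' := (hF x' hzx').2.imp And.left And.left
    have h3 : ∀ k, 3 ≤ k → k < lev x → 3 ≤ nab k z := fun k hk1 hk3 =>
      Y.W.row1_three hzR hx hx' hzx hzx' hne hR3 hk' (by omega) hk1 hk3
    have h4 : 2 ≤ nab (lev x) z := two_le_nab hzx.1.le hzx'.1.le rfl (by omega) hne
    have h5 : ∑ n ∈ range a, n * 3 + a * 2 + a ≤ cst 4 (hA N θ4) z := by
      rw [cst_shift (a := a + 1) (by omega), Finset.sum_range_succ
        (fun n => min (hA N θ4 z) n * nab (4 + n) z), Finset.sum_range_succ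
        (fun n => min (hA N θ4 z) n * nab (4 + n) z), hha]
      refine Nat.add_le_add (Nat.add_le_add ?_ ?_) ?_
      · refine Finset.sum_le_sum fun n hn => ?_
        rw [mem_range] at hn
        rw [Nat.min_eq_right hn.le]
        exact Nat.mul_le_mul_left _ (h3 _ (by omega) (by omega))
      · rw [Nat.min_self, ← ha]
        exact Nat.mul_le_mul_left _ h4
      · rw [show 4 + (a + 1) = lev z by omega, nab_self, mul_one]
        exact Nat.le_min.mpr ⟨le_rfl, by omega⟩
    have h6 := Finset.sum_range_id_mul_two a
    rw [← Finset.sum_mul] at h5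
    have hK := Y.n.k3
    have h7 : (j - 3) ^ 2 ≤ a ^ 2 := Nat.pow_le_pow_left (by omega) 2
    have h8 : a * (a - 1) + a = a ^ 2 := by
      obtain ⟨c, rfl⟩ : ∃ c, a = c + 1 := ⟨a - 1, by omega⟩
      rw [Nat.add_sub_cancel]
      ring
    omega

end Pool.Agent.GaussPoset.W4

end

/-! From `Pool.Agent.W_448w4_h70.WG` -/

section

/-!
# The windows `3`, `4`: elements of level `j + 1` below deep cells of level `j`
(MP_448cb3_co, S7, `j = 12, 14, 15`)
-/

namespace Pool.Agent.GaussPoset.W4

set_option linter.unusedSectionVars false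

open Polynomial Finset Sm

universe u

variable {P : Type u} [Fintype P] [PartialOrder P] [DecidableEq P] {r j K3 K V3 : ℕ}
  {N : Tops P → Finset P} {b : Tops P → ℕ} {θ3 θ4 : Tops P → P → ℕ}

/-- thresholds of single-up elements of level `j` -/
lemma Y4.single_th (Y : Y4 r j K3 K V3 N b θ3 θ4) {x : P} (hx : x ∉ unnat N) (hl : lev x = j)
    (h1 : (Win.uc x).card = 1) : lev x ≤ θ4 (topOf x) x + 2 + 4 := by
  have H := Y.W.gt.H
  have HN := Y.W.natSys
  have hj := Y.n.hj
  have hxt : x ∈ N (topOf x) := HN.mem_iff.mpr ⟨hx, rfl⟩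
  generalize topOf x = t at hxt ⊢
  rcases Y.typ t with ⟨g1, g2, g2', g5⟩ | ⟨c, Nc, co, h0, h0', g1, g2, g2', g4⟩ |
    ⟨Nc, co, h0, h0', g1, g2, g2', g5'⟩
  · rw [g2']
    simp only
    omega
  · rw [g1] at hxt
    by_cases hJ : x ∈ junk (fun _ => True) Nc co ∨ x ∈ junk (fun _ => True) Nc (swp co)
    · rw [g2']
      unfold thR
      rw [if_pos hJ]
      omega
    · have hxN : x ∈ Nc := by
        rw [mem_natR] at hxt
        rcases hxt with h | h | h
        · exact h
        · exact absurd (Or.inl h) hJ
        · exact absurd (Or.inr h) hJ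
      have h2 := rect_th4 h0 hxN hJ (by omega)
      rw [g2']
      by_contra hcon
      have := chart_inner_uc h0.chart H hxN (by omega) (by omega)
      omega
  · rw [g1] at hxt
    by_cases hJ : x ∈ junk (fun c => c.1 ≤ c.2) Nc co
    · rw [g2']
      unfold thSg
      rw [if_pos hJ]
      omega
    · have hxN : x ∈ Nc := by
        rw [mem_natS] at hxt
        exact hxt.resolve_right hJ
      have h2 := stair_th4 h0 hxN hJ (by omega)
      rw [g2']
      omega

/-- elements of level `j + 1` below a deep cell -/
theorem Y4.deep_j (Y : Y4 r j K3 K V3 N b θ3 θ4)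
    (hno : j % 2 = 0 → K < foC 4 j + foE 4 j ∨
      ∀ z x x' : P, Cg z x x' → lev z = j + 1 → ¬ Fold j x)
    {z : P} (hz : z ∈ bdR (rA N)) (hlz : lev z = j + 1) {x : P} (hzx : z ⋖ x)
    (hD : Dy j K V3 N θ3 θ4 x) : K < cst 4 (hA N θ4) z := by
  classical
  have W := Y.W
  have H := W.gt.H
  have HN := W.natSys
  have hj := Y.n.hj
  have hzR := (mem_bdR.mp hz).1
  have hzu := (mem_rA.mp hzR).1
  have e1 := (H.covBy_iff.mp hzx).2
  have hlx : lev x = j := by omega
  have hx : x ∉ unnat N := W.low (by omega)
  have hbs : GaussPoset.bs N x = x := by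
    unfold GaussPoset.bs
    rw [if_neg (W.not_tw hx)]
  have hle := Y.hA_le (not_mem_rA.mpr (Or.inl hx)) hzx
  rw [hbs] at hle
  have hle3 := W.hA_le (not_mem_rA.mpr (Or.inl hx)) hzx
  rw [hbs] at hle3
  have hth := hD.th
  have hxt : x ∈ N (topOf x) := HN.mem_iff.mpr ⟨hx, rfl⟩
  have hxle : x ≤ (topOf x : P) := le_topOf x
  -- two covers have one cover each
  have hnear : (Win.uc x).card = 2 → ∀ y, z ⋖ y → y = x := by
    intro h2 y hy
    by_contra hne
    have := (W.near hzR hlz hzx hy (Ne.symm hne)).1
    omega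
  -- the label of an element with one cover
  have hlab : (∀ y, z ⋖ y → y = x) → hA N θ4 z = θ4 (topOf x) x + 1 := by
    intro ho
    obtain ⟨x0, g1, g2, g3⟩ := Y.hA_spec hz
    rw [ho x0 g2, hbs] at g3
    exact g3
  generalize htt : topOf x = t at hxt hxle hle hle3 hth hlab
  rcases Y.typ t with ⟨g1, g2, g2', g5⟩ | ⟨c, Nc, co, h0, h0', g1, g2, g2', g4⟩ |
    ⟨Nc, co, h0, h0', g1, g2, g2', g5'⟩
  · exfalso
    rw [g2'] at hth
    simp only at hth
    omega
  · exfalso
    rw [g1] at hxt
    rw [g2'] at hth
    have hJ : ¬ (x ∈ junk (fun _ => True) Nc co ∨ x ∈ junk (fun _ => True) Nc (swp co)) := by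
      intro h
      unfold thR at hth
      rw [if_pos h] at hth
      omega
    have hxN : x ∈ Nc := by
      rw [mem_natR] at hxt
      rcases hxt with h | h | h
      · exact h
      · exact absurd (Or.inl h) hJ
      · exact absurd (Or.inr h) hJ
    have h2 := rect_th4 h0 hxN hJ (by omega)
    have h3 := chart_inner_uc h0.chart H hxN (by omega) (by omega)
    exact g4 x z hxle hlx h3 hzx (hnear h3)
  · rw [g1] at hxt
    rw [g2'] at hth
    have hJ : x ∉ junk (fun c => c.1 ≤ c.2) Nc co := by
      intro h
      unfold thSg at hth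
      rw [if_pos h] at hth
      omega
    have hxN : x ∈ Nc := by
      rw [mem_natS] at hxt
      exact hxt.resolve_right hJ
    have hl := h0.chart.lev x hxN
    have hm : (co x).1 ≤ (co x).2 := h0.chart.mem x hxN
    have h2 := stair_th4 h0 hxN hJ (by omega)
    have h2' := stair_th7 h0' le_rfl (by norm_num) hxN hJ (by omega)
    have h6 := cst_ge_cover (i := 4) (h := hA N θ4) H.gradedBelow hzx
    rcases Nat.lt_or_ge (co x).1 (co x).2 with hlt | hge
    · -- a double
      have h3 := stair_inner_uc h0.chart H hxN (by omega) hlt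
      have ho := hnear h3
      have h4 := Y.stair_pend h0 g1 g5' hxN hlx (by omega) hlt hz hzx ho
      have h5 := hlab ho
      rw [g2'] at h5
      have hlb : hA N θ4 z = j - 4 - 1 := by omega
      have h7 := cst_stair (w := 4) (L := j) (h := hA N θ4 z) h0.chart hxN hlx (by omega)
      have h8 := Y.n.fl (by omega)
      rw [h7, Nat.min_eq_left (by omega), hlb] at h6
      unfold flC at h8
      rw [show (co x).1 = (j - 3) / 2 by omega, show j - (j - 3) / 2 = (j + 3) / 2 by omega]
        at h6
      omega
    · -- the fold end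
      by_cases ho : ∀ y, z ⋖ y → y = x
      · exact (Y.fold_pend h0' g1 g2 hxN hlx (by omega) hz hzx ho).elim
      -- a second cover
      push Not at ho
      obtain ⟨x', hzx', hne'⟩ := ho
      have hne : x ≠ x' := Ne.symm hne'
      have e2 := (H.covBy_iff.mp hzx').2
      have hx' : x' ∉ unnat N := W.low (by omega)
      have hnr := W.near hzR hlz hzx hzx' hne
      have hbs' : GaussPoset.bs N x' = x' := by
        unfold GaussPoset.bs
        rw [if_neg (W.not_tw hx')]
      have huni := uc_two_of H hzx hzx' hne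
      have hj2 : j % 2 = 0 := by omega
      have hA2 : (co x).1 = j / 2 := by omega
      have hnk : ∀ k, k ≤ j → nab k x + (k - j / 2) = min (k / 2) (j / 2) + 1 := by
        intro k hk
        have := stair_nab h0.chart hxN (k := k) (by omega)
        rw [hA2, show (co x).2 = j / 2 by omega] at this
        exact this
      -- the second cover in the same component
      have hcell : topOf x' = t → x' ∈ Nc ∧ (co x').1 = 0 := by
        intro hh
        have hx'N : x' ∈ Nc := by
          refine h0.strip (mem_lowPart.mpr ⟨?_, by omega⟩)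
          have h5 := le_topOf x'
          rw [hh] at h5
          exact h5
        have hl' := h0.chart.lev x' hx'N
        have hm' : (co x').1 ≤ (co x').2 := h0.chart.mem x' hx'N
        refine ⟨hx'N, ?_⟩
        by_contra h11
        rcases Nat.lt_or_ge (co x').1 (co x').2 with h12 | h12
        · have := stair_inner_uc h0.chart H hx'N (by omega) h12
          omega
        · exact hne (h0.chart.inj x hxN x' hx'N (Prod.ext (by omega) (by omega)))
      by_cases hfo : K < foC 4 j + foE 4 j
      · -- by the cost
        have hlb' : hA N θ4 z = j - 4 - 1 := by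
          obtain ⟨x0, f1, f2, f3⟩ := Y.hA_spec hz
          rw [g2'] at hle
          rcases huni x0 f2 with h | h
          · rw [h, hbs, htt, g2'] at f3
            omega
          · rw [h, hbs'] at f3
            have f6 := Y.single_th hx' (by omega) hnr.2
            omega
        have hextra : ∀ k, j / 2 < k → k ≤ j → nab k x + 1 ≤ nab k z := by
          intro k hk1 hk2
          obtain ⟨q, q1, q2, q3⟩ := exists_between H.gradedBelow (z := x') (s := (topOf x' : P))
            (le_topOf x') (l := k) (by have := (topOf x').2; omega) (by omega)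
          have hxq : ¬ x ≤ q := by
            intro hxq
            have hqt : topOf q = topOf x' := (W.up hx' q1).2
            have hqt' : topOf q = topOf x := (W.up hx hxq).2
            obtain ⟨hx'N, h10⟩ := hcell (by rw [← hqt, hqt', htt])
            have hl' := h0.chart.lev x' hx'N
            have hqN := h0.chart.up x' hx'N q q1
            have hq1 := (h0.chart.le_iff x' hx'N q hqN).mp q1
            have hq2 := (h0.chart.le_iff x hxN q hqN).mp hxq
            have hlq := h0.chart.lev q hqN
            have b1 : (co q).1 ≤ (co x').1 := hq1.1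
            have b2 : (co q).2 ≤ (co x).2 := hq2.2
            omega
          have h11 : insert q ((lv P k).filter (fun y => x ≤ y)) ⊆
              (lv P k).filter (fun y => z ≤ y) := by
            intro y hy
            rw [mem_insert, mem_filter, mem_lv] at hy
            rw [mem_filter, mem_lv]
            rcases hy with rfl | hy
            · exact ⟨q3, hzx'.1.le.trans q1⟩
            · exact ⟨hy.1, hzx.1.le.trans hy.2⟩
          have h12 := Finset.card_le_card h11
          rw [Finset.card_insert_of_notMem (by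
            rw [mem_filter]
            exact fun h => hxq h.2)] at h12
          exact h12
        have key : foC 4 j + foE 4 j ≤ cst 4 (hA N θ4) z := by
          rw [cst_shift (i := 4) (h := hA N θ4) (a := j - 4 + 1) (by omega),
            Finset.sum_range_succ, hlb']
          have s4 : min (j - 4 - 1) (j - 4 + 1) * nab (4 + (j - 4 + 1)) z = j - 4 - 1 := by
            rw [Nat.min_eq_left (by omega), show 4 + (j - 4 + 1) = lev z by omega, nab_self,
              mul_one]
          rw [s4]
          unfold foC foE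
          have s5 : ∑ n ∈ range (j - 4 + 1), min (j - 4 - 1) n *
              (min ((4 + n) / 2) (j / 2) + 1 - ((4 + n) - j / 2)) +
              ∑ n ∈ range (j - 4 + 1), min (j - 4 - 1) n * (if j / 2 < 4 + n then 1 else 0) ≤
              ∑ n ∈ range (j - 4 + 1), min (j - 4 - 1) n * nab (4 + n) z := by
            rw [← Finset.sum_add_distrib]
            refine Finset.sum_le_sum fun n hn => ?_
            rw [mem_range] at hn
            rw [← Nat.mul_add]
            refine Nat.mul_le_mul_left _ ?_
            have a1 := hnk (4 + n) (by omega)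
            split_ifs with h13
            · have := hextra (4 + n) h13 (by omega)
              omega
            · have := nab_mono (l := 4 + n) hzx.1.le
              omega
          omega
        omega
      · have hnf := (hno hj2).resolve_left hfo
        have hfo3 := (Y.n.fo2 hj2).resolve_left hfo
        exfalso
        by_cases hh : topOf x' = t
        · -- the own double: by the cost at window `3`
          obtain ⟨hx'N, h10⟩ := hcell hh
          have hl' := h0.chart.lev x' hx'N
          have hlb' : hA N θ3 z = j - 3 - 1 := by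
            obtain ⟨x0, f1, f2, f3⟩ := W.hA_spec hz
            rw [g2] at hle3
            rcases huni x0 f2 with h | h
            · rw [h, hbs, htt, g2] at f3
              omega
            · rw [h, hbs'] at f3
              have f6 := W.single_th hx' (by omega) hnr.2
              omega
          have hcov : ∀ y, z ≤ y → lev y ≤ j → x ≤ y ∨ x' ≤ y := by
            intro y hy hly
            have hlt : z < y := lt_of_le_of_ne hy (by rintro rfl; omega)
            obtain ⟨u, hu, huy⟩ := Hul.exists_cov hlt
            rcases huni u hu with h | h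
            · exact Or.inl (h ▸ huy)
            · exact Or.inr (h ▸ huy)
          have hpos : ∀ y, x' ≤ y → y ∈ Nc ∧ (co y).1 = 0 ∧ (co y).2 = lev y := by
            intro y hy
            have hyN := h0.chart.up x' hx'N y hy
            have h11 := (h0.chart.le_iff x' hx'N y hyN).mp hy
            have h12 : (co y).1 ≤ (co x').1 := h11.1
            have h13 := h0.chart.lev y hyN
            exact ⟨hyN, by omega, by omega⟩
          have hup : ∀ k, k ≤ j → nab k z ≤ nab k x + (if j / 2 < k then 1 else 0) := by
            intro k hk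
            unfold nab
            split_ifs with h13
            · obtain ⟨q, hq, hcq⟩ := h0.chart.low x' hx'N (0, k)
                ⟨Nat.zero_le _, by simp only; omega⟩ (Nat.zero_le _)
              have h11 : (lv P k).filter (fun y => z ≤ y) ⊆
                  insert q ((lv P k).filter (fun y => x ≤ y)) := by
                intro y hy
                rw [mem_filter, mem_lv] at hy
                rw [mem_insert, mem_filter, mem_lv]
                rcases hcov y hy.2 (by omega) with h | h
                · exact Or.inr ⟨hy.1, h⟩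
                · left
                  obtain ⟨p1, p2, p3⟩ := hpos y h
                  refine h0.chart.inj y p1 q hq ?_
                  rw [hcq]
                  exact Prod.ext (by simp only; omega) (by simp only; omega)
              exact (Finset.card_le_card h11).trans (Finset.card_insert_le _ _)
            · refine Finset.card_le_card fun y hy => ?_
              rw [mem_filter, mem_lv] at hy ⊢
              refine ⟨hy.1, ?_⟩
              rcases hcov y hy.2 (by omega) with h | h
              · exact h
              · obtain ⟨p1, p2, p3⟩ := hpos y h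
                rw [h0.chart.le_iff x hxN y p1]
                exact ⟨by omega, by omega⟩
          have key : cst 3 (hA N θ3) z ≤ foC 3 j + foE 3 j := by
            rw [cst_shift (i := 3) (h := hA N θ3) (a := j - 3 + 1) (by omega),
              Finset.sum_range_succ, hlb']
            have s4 : min (j - 3 - 1) (j - 3 + 1) * nab (3 + (j - 3 + 1)) z = j - 3 - 1 := by
              rw [Nat.min_eq_left (by omega), show 3 + (j - 3 + 1) = lev z by omega, nab_self,
                mul_one]
            rw [s4]
            unfold foC foE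
            have s5 : ∑ n ∈ range (j - 3 + 1), min (j - 3 - 1) n * nab (3 + n) z ≤
                ∑ n ∈ range (j - 3 + 1), min (j - 3 - 1) n *
                (min ((3 + n) / 2) (j / 2) + 1 - ((3 + n) - j / 2)) +
                ∑ n ∈ range (j - 3 + 1), min (j - 3 - 1) n * (if j / 2 < 3 + n then 1 else 0) := by
              rw [← Finset.sum_add_distrib]
              refine Finset.sum_le_sum fun n hn => ?_
              rw [mem_range] at hn
              rw [← Nat.mul_add]
              refine Nat.mul_le_mul_left _ ?_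
              have a1 := hnk (3 + n) (by omega)
              have a2 := hup (3 + n) (by omega)
              omega
            omega
          have := Y.m3 z hz
          omega
        · refine hnf z x x' (Cg.mk' hzx hzx' (mem_onlyB.mpr fun s hs hxs => ?_)
            (mem_onlyB.mpr fun s hs hxs => ?_) ?_) hlz ⟨hlx, hj2, fun k hk => ?_⟩
          · exact HN.top_eq (HN.mem_iff.mpr ⟨hx, rfl⟩) hs hxs
          · exact HN.top_eq (HN.mem_iff.mpr ⟨hx', rfl⟩) hs hxs
          · rw [htt]
            exact fun h => hh h.symm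
          · have := hnk k hk
            omega

/-- **Own noise at window `4`.**  The cheapest boundary elements, if their cost is at most `K`,
are joins with straight covers and the full label; the twins are more expensive. -/
theorem Y4.min_join (Y : Y4 r j K3 K V3 N b θ3 θ4)
    (hno : j % 2 = 0 → K < foC 4 j + foE 4 j ∨
      ∀ z x x' : P, Cg z x x' → lev z = j + 1 → ¬ Fold j x)
    {v : ℕ} (M : Mn j 4 N θ4 v) (hv : v ≤ K) {z : P} (hz : z ∈ bdR (rA N))
    (hc : cst 4 (hA N θ4) z = v) :
    (∀ x, z ⋖ x → x ∉ unnat N ∧ Str 3 N θ3 x ∧ Str 4 N θ4 x) ∧ hA N θ4 z = lev z - 4 ∧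
      v = ful 4 z ∧ ∃ x x', Cg z x x' := by
  classical
  have W := Y.W
  have H := W.gt.H
  have HN := W.natSys
  have hj := Y.n.hj
  have hlz := W.bd_lev hz
  by_cases hd : ∃ x, x ∉ rA N ∧ z ⋖ x ∧ Dy j K V3 N θ3 θ4 (GaussPoset.bs N x)
  · exfalso
    obtain ⟨x, hx, hzx, hD⟩ := hd
    have e1 := (H.covBy_iff.mp hzx).2
    by_cases hl : j + 1 ≤ lev x
    · have := Y.deep_cover hz hx hzx hl hD
      omega
    · have hxu : x ∉ unnat N := W.low (by omega)
      have hbs : GaussPoset.bs N x = x := by
        unfold GaussPoset.bs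
        rw [if_neg (W.not_tw hxu)]
      rw [hbs] at hD
      have := Y.deep_j hno hz (by omega) hzx hD
      omega
  · push Not at hd
    obtain ⟨hF, hge⟩ := Y.flat M hz hc hd
    by_cases hR : ∃ x, z ⋖ x ∧ Row1 j 3 N θ3 x ∧ Row1 j 4 N θ4 x
    · obtain ⟨x, hzx, hR3, hR4⟩ := hR
      have := Y.row1_out hz hF hge hzx hR3 hR4
      omega
    · push Not at hR
      have hS : ∀ x, z ⋖ x → x ∉ unnat N ∧ Str 3 N θ3 x ∧ Str 4 N θ4 x := fun x hx =>
        ⟨(hF x hx).1, (hF x hx).2.resolve_right (fun h => hR x hx h.1 h.2)⟩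
      have hh : hA N θ4 z = lev z - 4 := by
        obtain ⟨x0, f1, f2, f3⟩ := Y.hA_spec hz
        obtain ⟨g1, g2⟩ := hS x0 f2
        have hbs : GaussPoset.bs N x0 = x0 := by
          unfold GaussPoset.bs
          rw [if_neg (W.not_tw g1)]
        rw [hbs, g2.2.th] at f3
        have := (H.covBy_iff.mp f2).2
        omega
      have hh3 : hA N θ3 z = lev z - 3 := by
        obtain ⟨x0, f1, f2, f3⟩ := W.hA_spec hz
        obtain ⟨g1, g2⟩ := hS x0 f2
        have hbs : GaussPoset.bs N x0 = x0 := by
          unfold GaussPoset.bs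
          rw [if_neg (W.not_tw g1)]
        rw [hbs, g2.1.th] at f3
        have := (H.covBy_iff.mp f2).2
        omega
      by_cases hT : ∃ x x', z ⋖ x ∧ z ⋖ x' ∧ topOf x ≠ topOf x'
      · obtain ⟨x, x', h1, h2, h3⟩ := hT
        refine ⟨hS, hh, ?_, x, x', ?_⟩
        · rw [← hc]
          exact cst_eq_ful (by omega)
        · exact Cg.mk' h1 h2
            (mem_onlyB.mpr fun s hs hxs => HN.top_eq (HN.mem_iff.mpr ⟨(hS x h1).1, rfl⟩) hs hxs)
            (mem_onlyB.mpr fun s hs hxs => HN.top_eq (HN.mem_iff.mpr ⟨(hS x' h2).1, rfl⟩) hs hxs)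
            h3
      · exfalso
        push Not at hT
        obtain ⟨x, hzx, -⟩ := Hul.exists_cov (w := z) (v := (topOf z : P))
          (lt_of_le_of_ne (le_topOf z) (by
            intro h
            have := (topOf z).2
            rw [← h] at this
            omega))
        have := Y.own_out hz hh hh3 (fun x hx => ⟨(hS x hx).1, (hS x hx).2.1⟩)
          (t := topOf x) fun x' hx' => hT x' x hx' hzx
        omega

/-- the minimal value at window `4` -/
lemma exists_min4 (hne : (bdR (rA N)).Nonempty) :
    ∃ v, Mn j 4 N θ4 v ∧ ((∃ z ∈ bdR (rA N), cst 4 (hA N θ4) z = v) ∨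
      ∃ x ∈ twA N, tcst 4 (thA N θ4) (twT N x, x) = v) := by
  classical
  let A : Finset ℕ := (bdR (rA N)).image (cst 4 (hA N θ4)) ∪
    (twA N).image (fun x => tcst 4 (thA N θ4) (twT N x, x))
  have hA : A.Nonempty := by
    obtain ⟨z, hz⟩ := hne
    exact ⟨_, mem_union_left _ (mem_image_of_mem _ hz)⟩
  refine ⟨A.min' hA, ⟨fun z hz => A.min'_le _ (mem_union_left _ (mem_image_of_mem _ hz)),
    fun x hx => A.min'_le _ (mem_union_right _
      (mem_image_of_mem (fun x => tcst 4 (thA N θ4) (twT N x, x)) hx))⟩, ?_⟩
  have := A.min'_mem hA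
  rcases mem_union.mp this with h | h
  · obtain ⟨z, hz, h⟩ := mem_image.mp h
    exact Or.inl ⟨z, hz, h⟩
  · obtain ⟨x, hx, h⟩ := mem_image.mp h
    exact Or.inr ⟨x, hx, h⟩

/-- **Own noise at window `4`**, for a lower bound `n` of the costs of the joins: every element
of the boundary costs at least `n`, the twins cost more than `n`, and the boundary elements of
cost `n` are joins with straight covers and the full label. -/
theorem Y4.own_noise (Y : Y4 r j K3 K V3 N b θ3 θ4)
    (hno : j % 2 = 0 → K < foC 4 j + foE 4 j ∨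
      ∀ z x x' : P, Cg z x x' → lev z = j + 1 → ¬ Fold j x)
    {n : ℕ} (hn : n ≤ K) (hjn : ∀ z x x' : P, Cg z x x' → n ≤ ful 4 z) :
    (∀ z ∈ bdR (rA N), n ≤ cst 4 (hA N θ4) z) ∧
    (∀ x ∈ twA N, n < tcst 4 (thA N θ4) (twT N x, x)) ∧
    (∀ z ∈ bdR (rA N), cst 4 (hA N θ4) z = n →
      (∀ x, z ⋖ x → x ∉ unnat N ∧ Str 3 N θ3 x ∧ Str 4 N θ4 x) ∧ hA N θ4 z = lev z - 4 ∧
      n = ful 4 z ∧ ∃ x x', Cg z x x') := by
  have htw : ∀ x ∈ twA N, n < tcst 4 (thA N θ4) (twT N x, x) := fun x hx =>
    hn.trans_lt (Y.out_tw hx)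
  by_cases hne : (bdR (rA N)).Nonempty
  · obtain ⟨v, M, hex⟩ := exists_min4 (j := j) (θ4 := θ4) hne
    have hnv : n ≤ v := by
      by_contra hcon
      rcases hex with ⟨z, hz, h⟩ | ⟨x, hx, h⟩
      · obtain ⟨-, -, h3, x, x', h4⟩ := Y.min_join hno M (by omega) hz h
        have := hjn z x x' h4
        omega
      · have := htw x hx
        omega
    refine ⟨fun z hz => hnv.trans (M.bd z hz), htw, fun z hz hc => ?_⟩
    have hvn : v = n := le_antisymm (by rw [← hc]; exact M.bd z hz) hnv
    subst hvn
    exact Y.min_join hno M hn hz hc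
  · rw [Finset.not_nonempty_iff_eq_empty] at hne
    rw [hne]
    exact ⟨fun z hz => absurd hz (Finset.notMem_empty z), htw,
      fun z hz => absurd hz (Finset.notMem_empty z)⟩

end Pool.Agent.GaussPoset.W4

end

/-! From `Pool.Agent.W_448s8f_h76.FjA` -/

section

/-!
# Own noise at window `4` with fold joins (MP_448cb3_co, S8, `j = 12, 14`)

A fold join is a join of level `j + 1` below the end of a fold; its label at window `4` is
`j - 5` (the threshold of the fold end plus one).
-/

namespace Pool.Agent.GaussPoset.W4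

set_option linter.unusedSectionVars false

open Polynomial Finset Sm

universe u

variable {P : Type u} [Fintype P] [PartialOrder P] [DecidableEq P] {r j K3 K V3 : ℕ}
  {N : Tops P → Finset P} {b : Tops P → ℕ} {θ3 θ4 : Tops P → P → ℕ}

/-- fold joins -/
def FJn (j : ℕ) (z x x' : P) : Prop := Cg z x x' ∧ lev z = j + 1 ∧ Fold j x

/-- elements of level `j + 1` below a deep cell -/
theorem Y4.deep_jF (Y : Y4 r j K3 K V3 N b θ3 θ4)
    (hfo3 : j % 2 = 0 → foC 3 j + foE 3 j < V3)
    {z : P} (hz : z ∈ bdR (rA N)) (hlz : lev z = j + 1) {x : P} (hzx : z ⋖ x)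
    (hD : Dy j K V3 N θ3 θ4 x) : K < cst 4 (hA N θ4) z ∨
      ((∃ x', FJn j z x x') ∧ hA N θ4 z = j - 5) := by
  classical
  have W := Y.W
  have H := W.gt.H
  have HN := W.natSys
  have hj := Y.n.hj
  have hzR := (mem_bdR.mp hz).1
  have hzu := (mem_rA.mp hzR).1
  have e1 := (H.covBy_iff.mp hzx).2
  have hlx : lev x = j := by omega
  have hx : x ∉ unnat N := W.low (by omega)
  have hbs : GaussPoset.bs N x = x := by
    unfold GaussPoset.bs
    rw [if_neg (W.not_tw hx)]
  have hle := Y.hA_le (not_mem_rA.mpr (Or.inl hx)) hzx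
  rw [hbs] at hle
  have hle3 := W.hA_le (not_mem_rA.mpr (Or.inl hx)) hzx
  rw [hbs] at hle3
  have hth := hD.th
  have hxt : x ∈ N (topOf x) := HN.mem_iff.mpr ⟨hx, rfl⟩
  have hxle : x ≤ (topOf x : P) := le_topOf x
  -- two covers have one cover each
  have hnear : (Win.uc x).card = 2 → ∀ y, z ⋖ y → y = x := by
    intro h2 y hy
    by_contra hne
    have := (W.near hzR hlz hzx hy (Ne.symm hne)).1
    omega
  -- the label of an element with one cover
  have hlab : (∀ y, z ⋖ y → y = x) → hA N θ4 z = θ4 (topOf x) x + 1 := by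
    intro ho
    obtain ⟨x0, g1, g2, g3⟩ := Y.hA_spec hz
    rw [ho x0 g2, hbs] at g3
    exact g3
  generalize htt : topOf x = t at hxt hxle hle hle3 hth hlab
  rcases Y.typ t with ⟨g1, g2, g2', g5⟩ | ⟨c, Nc, co, h0, h0', g1, g2, g2', g4⟩ |
    ⟨Nc, co, h0, h0', g1, g2, g2', g5'⟩
  · exfalso
    rw [g2'] at hth
    simp only at hth
    omega
  · exfalso
    rw [g1] at hxt
    rw [g2'] at hth
    have hJ : ¬ (x ∈ junk (fun _ => True) Nc co ∨ x ∈ junk (fun _ => True) Nc (swp co)) := by
      intro h
      unfold thR at hth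
      rw [if_pos h] at hth
      omega
    have hxN : x ∈ Nc := by
      rw [mem_natR] at hxt
      rcases hxt with h | h | h
      · exact h
      · exact absurd (Or.inl h) hJ
      · exact absurd (Or.inr h) hJ
    have h2 := rect_th4 h0 hxN hJ (by omega)
    have h3 := chart_inner_uc h0.chart H hxN (by omega) (by omega)
    exact g4 x z hxle hlx h3 hzx (hnear h3)
  · rw [g1] at hxt
    rw [g2'] at hth
    have hJ : x ∉ junk (fun c => c.1 ≤ c.2) Nc co := by
      intro h
      unfold thSg at hth
      rw [if_pos h] at hth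
      omega
    have hxN : x ∈ Nc := by
      rw [mem_natS] at hxt
      exact hxt.resolve_right hJ
    have hl := h0.chart.lev x hxN
    have hm : (co x).1 ≤ (co x).2 := h0.chart.mem x hxN
    have h2 := stair_th4 h0 hxN hJ (by omega)
    have h2' := stair_th7 h0' le_rfl (by norm_num) hxN hJ (by omega)
    have h6 := cst_ge_cover (i := 4) (h := hA N θ4) H.gradedBelow hzx
    rcases Nat.lt_or_ge (co x).1 (co x).2 with hlt | hge
    · -- a double
      left
      have h3 := stair_inner_uc h0.chart H hxN (by omega) hlt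
      have ho := hnear h3
      have h4 := Y.stair_pend h0 g1 g5' hxN hlx (by omega) hlt hz hzx ho
      have h5 := hlab ho
      rw [g2'] at h5
      have hlb : hA N θ4 z = j - 4 - 1 := by omega
      have h7 := cst_stair (w := 4) (L := j) (h := hA N θ4 z) h0.chart hxN hlx (by omega)
      have h8 := Y.n.fl (by omega)
      rw [h7, Nat.min_eq_left (by omega), hlb] at h6
      unfold flC at h8
      rw [show (co x).1 = (j - 3) / 2 by omega, show j - (j - 3) / 2 = (j + 3) / 2 by omega]
        at h6
      omega
    · -- the fold end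
      by_cases ho : ∀ y, z ⋖ y → y = x
      · exact (Y.fold_pend h0' g1 g2 hxN hlx (by omega) hz hzx ho).elim
      -- a second cover
      push Not at ho
      obtain ⟨x', hzx', hne'⟩ := ho
      have hne : x ≠ x' := Ne.symm hne'
      have e2 := (H.covBy_iff.mp hzx').2
      have hx' : x' ∉ unnat N := W.low (by omega)
      have hnr := W.near hzR hlz hzx hzx' hne
      have hbs' : GaussPoset.bs N x' = x' := by
        unfold GaussPoset.bs
        rw [if_neg (W.not_tw hx')]
      have huni := uc_two_of H hzx hzx' hne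
      have hj2 : j % 2 = 0 := by omega
      have hA2 : (co x).1 = j / 2 := by omega
      have hnk : ∀ k, k ≤ j → nab k x + (k - j / 2) = min (k / 2) (j / 2) + 1 := by
        intro k hk
        have := stair_nab h0.chart hxN (k := k) (by omega)
        rw [hA2, show (co x).2 = j / 2 by omega] at this
        exact this
      -- the second cover in the same component
      have hcell : topOf x' = t → x' ∈ Nc ∧ (co x').1 = 0 := by
        intro hh
        have hx'N : x' ∈ Nc := by
          refine h0.strip (mem_lowPart.mpr ⟨?_, by omega⟩)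
          have h5 := le_topOf x'
          rw [hh] at h5
          exact h5
        have hl' := h0.chart.lev x' hx'N
        have hm' : (co x').1 ≤ (co x').2 := h0.chart.mem x' hx'N
        refine ⟨hx'N, ?_⟩
        by_contra h11
        rcases Nat.lt_or_ge (co x').1 (co x').2 with h12 | h12
        · have := stair_inner_uc h0.chart H hx'N (by omega) h12
          omega
        · exact hne (h0.chart.inj x hxN x' hx'N (Prod.ext (by omega) (by omega)))
      have hlb' : hA N θ4 z = j - 5 := by
        obtain ⟨x0, f1, f2, f3⟩ := Y.hA_spec hz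
        rw [g2'] at hle
        rcases huni x0 f2 with h | h
        · rw [h, hbs, htt, g2'] at f3
          omega
        · rw [h, hbs'] at f3
          have f6 := Y.single_th hx' (by omega) hnr.2
          omega
      have hfo3 := hfo3 hj2
      by_cases hh : topOf x' = t
      · exfalso
        -- the own double: by the cost at window `3`
        obtain ⟨hx'N, h10⟩ := hcell hh
        have hl' := h0.chart.lev x' hx'N
        have hlb' : hA N θ3 z = j - 3 - 1 := by
          obtain ⟨x0, f1, f2, f3⟩ := W.hA_spec hz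
          rw [g2] at hle3
          rcases huni x0 f2 with h | h
          · rw [h, hbs, htt, g2] at f3
            omega
          · rw [h, hbs'] at f3
            have f6 := W.single_th hx' (by omega) hnr.2
            omega
        have hcov : ∀ y, z ≤ y → lev y ≤ j → x ≤ y ∨ x' ≤ y := by
          intro y hy hly
          have hlt : z < y := lt_of_le_of_ne hy (by rintro rfl; omega)
          obtain ⟨u, hu, huy⟩ := Hul.exists_cov hlt
          rcases huni u hu with h | h
          · exact Or.inl (h ▸ huy)
          · exact Or.inr (h ▸ huy)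
        have hpos : ∀ y, x' ≤ y → y ∈ Nc ∧ (co y).1 = 0 ∧ (co y).2 = lev y := by
          intro y hy
          have hyN := h0.chart.up x' hx'N y hy
          have h11 := (h0.chart.le_iff x' hx'N y hyN).mp hy
          have h12 : (co y).1 ≤ (co x').1 := h11.1
          have h13 := h0.chart.lev y hyN
          exact ⟨hyN, by omega, by omega⟩
        have hup : ∀ k, k ≤ j → nab k z ≤ nab k x + (if j / 2 < k then 1 else 0) := by
          intro k hk
          unfold nab
          split_ifs with h13
          · obtain ⟨q, hq, hcq⟩ := h0.chart.low x' hx'N (0, k)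
              ⟨Nat.zero_le _, by simp only; omega⟩ (Nat.zero_le _)
            have h11 : (lv P k).filter (fun y => z ≤ y) ⊆
                insert q ((lv P k).filter (fun y => x ≤ y)) := by
              intro y hy
              rw [mem_filter, mem_lv] at hy
              rw [mem_insert, mem_filter, mem_lv]
              rcases hcov y hy.2 (by omega) with h | h
              · exact Or.inr ⟨hy.1, h⟩
              · left
                obtain ⟨p1, p2, p3⟩ := hpos y h
                refine h0.chart.inj y p1 q hq ?_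
                rw [hcq]
                exact Prod.ext (by simp only; omega) (by simp only; omega)
            exact (Finset.card_le_card h11).trans (Finset.card_insert_le _ _)
          · refine Finset.card_le_card fun y hy => ?_
            rw [mem_filter, mem_lv] at hy ⊢
            refine ⟨hy.1, ?_⟩
            rcases hcov y hy.2 (by omega) with h | h
            · exact h
            · obtain ⟨p1, p2, p3⟩ := hpos y h
              rw [h0.chart.le_iff x hxN y p1]
              exact ⟨by omega, by omega⟩
        have key : cst 3 (hA N θ3) z ≤ foC 3 j + foE 3 j := by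
          rw [cst_shift (i := 3) (h := hA N θ3) (a := j - 3 + 1) (by omega),
            Finset.sum_range_succ, hlb']
          have s4 : min (j - 3 - 1) (j - 3 + 1) * nab (3 + (j - 3 + 1)) z = j - 3 - 1 := by
            rw [Nat.min_eq_left (by omega), show 3 + (j - 3 + 1) = lev z by omega, nab_self,
              mul_one]
          rw [s4]
          unfold foC foE
          have s5 : ∑ n ∈ range (j - 3 + 1), min (j - 3 - 1) n * nab (3 + n) z ≤
              ∑ n ∈ range (j - 3 + 1), min (j - 3 - 1) n *
              (min ((3 + n) / 2) (j / 2) + 1 - ((3 + n) - j / 2)) +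
              ∑ n ∈ range (j - 3 + 1), min (j - 3 - 1) n * (if j / 2 < 3 + n then 1 else 0) := by
            rw [← Finset.sum_add_distrib]
            refine Finset.sum_le_sum fun n hn => ?_
            rw [mem_range] at hn
            rw [← Nat.mul_add]
            refine Nat.mul_le_mul_left _ ?_
            have a1 := hnk (3 + n) (by omega)
            have a2 := hup (3 + n) (by omega)
            omega
          omega
        have := Y.m3 z hz
        omega
      · right
        refine ⟨⟨x', Cg.mk' hzx hzx' (mem_onlyB.mpr fun s hs hxs => ?_)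
          (mem_onlyB.mpr fun s hs hxs => ?_) ?_, hlz, hlx, hj2, fun k hk => ?_⟩, hlb'⟩
        · exact HN.top_eq (HN.mem_iff.mpr ⟨hx, rfl⟩) hs hxs
        · exact HN.top_eq (HN.mem_iff.mpr ⟨hx', rfl⟩) hs hxs
        · rw [htt]
          exact fun h => hh h.symm
        · have := hnk k hk
          omega

/-- the straight joins: the joins with straight covers and the full label -/
def SJn (N : Tops P → Finset P) (θ3 θ4 : Tops P → P → ℕ) (z : P) : Prop :=
  (∀ x, z ⋖ x → x ∉ unnat N ∧ Str 3 N θ3 x ∧ Str 4 N θ4 x) ∧ hA N θ4 z = lev z - 4 ∧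
    cst 4 (hA N θ4) z = ful 4 z ∧ ∃ x x', Cg z x x'

/-- **Own noise at window `4` with fold joins.**  The cheapest boundary elements, if their cost
is at most `K`, are joins with straight covers and the full label or fold joins with the label
`j - 5`. -/
theorem Y4.min_joinF (Y : Y4 r j K3 K V3 N b θ3 θ4)
    (hfo3 : j % 2 = 0 → foC 3 j + foE 3 j < V3)
    {v : ℕ} (M : Mn j 4 N θ4 v) (hv : v ≤ K) {z : P} (hz : z ∈ bdR (rA N))
    (hc : cst 4 (hA N θ4) z = v) :
    SJn N θ3 θ4 z ∨ ((∃ x x', FJn j z x x') ∧ hA N θ4 z = j - 5) := by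
  classical
  have W := Y.W
  have H := W.gt.H
  have HN := W.natSys
  have hj := Y.n.hj
  have hlz := W.bd_lev hz
  by_cases hd : ∃ x, x ∉ rA N ∧ z ⋖ x ∧ Dy j K V3 N θ3 θ4 (GaussPoset.bs N x)
  · right
    obtain ⟨x, hx, hzx, hD⟩ := hd
    have e1 := (H.covBy_iff.mp hzx).2
    by_cases hl : j + 1 ≤ lev x
    · exfalso
      have := Y.deep_cover hz hx hzx hl hD
      omega
    · have hxu : x ∉ unnat N := W.low (by omega)
      have hbs : GaussPoset.bs N x = x := by
        unfold GaussPoset.bs
        rw [if_neg (W.not_tw hxu)]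
      rw [hbs] at hD
      rcases Y.deep_jF hfo3 hz (by omega) hzx hD with h | ⟨⟨x', h⟩, h'⟩
      · omega
      · exact ⟨⟨x, x', h⟩, h'⟩
  · left
    push Not at hd
    obtain ⟨hF, hge⟩ := Y.flat M hz hc hd
    by_cases hR : ∃ x, z ⋖ x ∧ Row1 j 3 N θ3 x ∧ Row1 j 4 N θ4 x
    · exfalso
      obtain ⟨x, hzx, hR3, hR4⟩ := hR
      have := Y.row1_out hz hF hge hzx hR3 hR4
      omega
    · push Not at hR
      have hS : ∀ x, z ⋖ x → x ∉ unnat N ∧ Str 3 N θ3 x ∧ Str 4 N θ4 x := fun x hx =>
        ⟨(hF x hx).1, (hF x hx).2.resolve_right (fun h => hR x hx h.1 h.2)⟩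
      have hh : hA N θ4 z = lev z - 4 := by
        obtain ⟨x0, f1, f2, f3⟩ := Y.hA_spec hz
        obtain ⟨g1, g2⟩ := hS x0 f2
        have hbs : GaussPoset.bs N x0 = x0 := by
          unfold GaussPoset.bs
          rw [if_neg (W.not_tw g1)]
        rw [hbs, g2.2.th] at f3
        have := (H.covBy_iff.mp f2).2
        omega
      have hh3 : hA N θ3 z = lev z - 3 := by
        obtain ⟨x0, f1, f2, f3⟩ := W.hA_spec hz
        obtain ⟨g1, g2⟩ := hS x0 f2
        have hbs : GaussPoset.bs N x0 = x0 := by
          unfold GaussPoset.bs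
          rw [if_neg (W.not_tw g1)]
        rw [hbs, g2.1.th] at f3
        have := (H.covBy_iff.mp f2).2
        omega
      by_cases hT : ∃ x x', z ⋖ x ∧ z ⋖ x' ∧ topOf x ≠ topOf x'
      · obtain ⟨x, x', h1, h2, h3⟩ := hT
        refine ⟨hS, hh, ?_, x, x', ?_⟩
        · exact cst_eq_ful (by omega)
        · exact Cg.mk' h1 h2
            (mem_onlyB.mpr fun s hs hxs => HN.top_eq (HN.mem_iff.mpr ⟨(hS x h1).1, rfl⟩) hs hxs)
            (mem_onlyB.mpr fun s hs hxs => HN.top_eq (HN.mem_iff.mpr ⟨(hS x' h2).1, rfl⟩) hs hxs)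
            h3
      · exfalso
        push Not at hT
        obtain ⟨x, hzx, -⟩ := Hul.exists_cov (w := z) (v := (topOf z : P))
          (lt_of_le_of_ne (le_topOf z) (by
            intro h
            have := (topOf z).2
            rw [← h] at this
            omega))
        have := Y.own_out hz hh hh3 (fun x hx => ⟨(hS x hx).1, (hS x hx).2.1⟩)
          (t := topOf x) fun x' hx' => hT x' x hx' hzx
        omega

/-- **Own noise at window `4` with fold joins**, for a lower bound `n` of the costs of the joins:
every element of the boundary costs at least `n`, the twins cost more than `n`, and the boundary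
elements of cost `n` are joins with straight covers and the full label or fold joins with the
label `j - 5`. -/
theorem Y4.own_noiseF (Y : Y4 r j K3 K V3 N b θ3 θ4)
    (hfo3 : j % 2 = 0 → foC 3 j + foE 3 j < V3)
    {n : ℕ} (hn : n ≤ K) (hjn : ∀ z x x' : P, Cg z x x' → n ≤ ful 4 z)
    (hjf : ∀ z x x' : P, FJn j z x x' → n ≤ cst 4 (fun _ => j - 5) z) :
    (∀ z ∈ bdR (rA N), n ≤ cst 4 (hA N θ4) z) ∧
    (∀ x ∈ twA N, n < tcst 4 (thA N θ4) (twT N x, x)) ∧
    (∀ z ∈ bdR (rA N), cst 4 (hA N θ4) z = n →
      SJn N θ3 θ4 z ∨ ((∃ x x', FJn j z x x') ∧ hA N θ4 z = j - 5)) := by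
  have htw : ∀ x ∈ twA N, n < tcst 4 (thA N θ4) (twT N x, x) := fun x hx =>
    hn.trans_lt (Y.out_tw hx)
  have key : ∀ z : P, SJn N θ3 θ4 z ∨ ((∃ x x', FJn j z x x') ∧ hA N θ4 z = j - 5) →
      n ≤ cst 4 (hA N θ4) z := by
    rintro z (h | ⟨⟨x, x', h1⟩, h2⟩)
    · obtain ⟨-, -, h3, x, x', h4⟩ := h
      rw [h3]
      exact hjn z x x' h4
    · have h3 := hjf z x x' h1
      have h4 : cst 4 (hA N θ4) z = cst 4 (fun _ => j - 5) z := by
        unfold cst ez
        rw [h2]
      rw [h4]
      exact h3
  by_cases hne : (bdR (rA N)).Nonempty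
  · obtain ⟨v, M, hex⟩ := exists_min4 (j := j) (θ4 := θ4) hne
    have hnv : n ≤ v := by
      by_contra hcon
      rcases hex with ⟨z, hz, h⟩ | ⟨x, hx, h⟩
      · have h3 := key z (Y.min_joinF hfo3 M (by omega) hz h)
        omega
      · have := htw x hx
        omega
    refine ⟨fun z hz => hnv.trans (M.bd z hz), htw, fun z hz hc => ?_⟩
    have hvn : v = n := le_antisymm (by rw [← hc]; exact M.bd z hz) hnv
    subst hvn
    exact Y.min_joinF hfo3 M hn hz hc
  · rw [Finset.not_nonempty_iff_eq_empty] at hne
    rw [hne]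
    exact ⟨fun z hz => absurd hz (Finset.notMem_empty z), htw,
      fun z hz => absurd hz (Finset.notMem_empty z)⟩

end Pool.Agent.GaussPoset.W4

end

/-! From `Pool.Agent.W_448s8f_h76.FjC` -/

section

/-!
# The numbers of the fold joins (MP_448cb3_co, S8, `j = 12, 14`)
-/

namespace Pool.Agent.GaussPoset.Sm

set_option linter.unusedSectionVars false

open Finset Wd W4

universe u

variable {P : Type u} [Fintype P] [PartialOrder P] [DecidableEq P] {r j w : ℕ}
  {lo hi : Tops P → ℕ → ℕ} {e : Tops P → ℕ → ℕ → P}

/-- the cost of a straight end with the label `j - w - 1` -/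
def stF (w j : ℕ) : ℕ := ∑ n ∈ range (j - w + 1), min (j - w - 1) n

lemma fjn_nab (H : Gr P r) {z x x' : P} (h : FJn j z x x') {k : ℕ} (hk : k ≤ j) :
    nab k z = nab k x + nab k x' := h.1.sum H (by have := h.2.1; omega)

lemma fold_nab_min {x : P} (h : Fold j x) {k : ℕ} (hk : k ≤ j) :
    nab k x = min (k / 2) (j / 2) + 1 - (k - j / 2) := by
  have h1 := h.2.2 k hk
  omega

/-- the cost of a fold join with the label `j - w - 1` -/
lemma fjn_cst (H : Gr P r) {z x x' : P} (h : FJn j z x x') (hw : w + 2 ≤ j) :
    cst w (fun _ => j - w - 1) z = foC w j +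
      ∑ n ∈ range (j - w + 1), min (j - w - 1) n * nab (w + n) x' := by
  have h2 := h.2.1
  rw [cst_shift (i := w) (a := j - w + 1) (by omega), Finset.sum_range_succ,
    show w + (j - w + 1) = lev z by omega, nab_self]
  unfold foC
  rw [Finset.sum_congr rfl (g := fun n => min (j - w - 1) n *
    (min ((w + n) / 2) (j / 2) + 1 - ((w + n) - j / 2)) + min (j - w - 1) n * nab (w + n) x')
    (fun n hn => by
      rw [mem_range] at hn
      rw [fjn_nab H h (by omega), fold_nab_min h.2.2 (by omega)]
      ring), Finset.sum_add_distrib]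
  have : min (j - w - 1) (j - w + 1) = j - w - 1 := by omega
  rw [this]
  ring

/-- the cost of a fold join of two fold ends -/
lemma fjn_FF (H : Gr P r) {z x x' : P} (h : FJn j z x x') (hf : Fold j x')
    (hw : w + 2 ≤ j) : GaussPoset.cst w (fun _ => j - w - 1) z + (j - w - 1) = 2 * foC w j := by
  rw [fjn_cst H h hw, Finset.sum_congr rfl (g := fun n => min (j - w - 1) n *
    (min ((w + n) / 2) (j / 2) + 1 - ((w + n) - j / 2))) (fun n hn => by
      rw [mem_range] at hn
      rw [fold_nab_min hf (by omega)])]
  unfold foC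
  ring

/-- the cost of a fold join of a partner with known extras -/
lemma fjn_cost (H : Gr P r) {z x x' : P} (h : FJn j z x x') (hw : w + 2 ≤ j)
    (hlow : ∀ k, k < w → GaussPoset.nab k x' = 1) :
    (GaussPoset.cst w (fun _ => j - w - 1) z : ℤ) = foC w j + stF w j +
      (((j : ℤ) - w) * mX j x' - cX j x') := by
  have hl' : lev x' = j := by
    have := (h.1.lev_eq H).2
    have := h.2.1
    omega
  have h1 : ((∑ n ∈ range (j - w + 1), min (j - w - 1) n * GaussPoset.nab (w + n) x' : ℕ) : ℤ) =
      stF w j + ∑ n ∈ range (j - w), (n : ℤ) * ((GaussPoset.nab (w + n) x' : ℤ) - 1) := by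
    unfold stF
    rw [Finset.sum_range_succ, Finset.sum_range_succ, show w + (j - w) = lev x' by omega, nab_self]
    push_cast
    have h2 : ∀ n ∈ range (j - w), ((min (j - w - 1) n : ℕ) : ℤ) *
        (GaussPoset.nab (w + n) x' : ℤ) = ((min (j - w - 1) n : ℕ) : ℤ) +
          (n : ℤ) * ((GaussPoset.nab (w + n) x' : ℤ) - 1) := by
      intro n hn
      rw [mem_range] at hn
      rw [Nat.min_eq_right (by omega)]
      ring
    have h3 := Finset.sum_congr (s₁ := range (j - w)) rfl h2
    push_cast at h3
    rw [h3, Finset.sum_add_distrib]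
    ring
  have h4 : ((j : ℤ) - w) * mX j x' - cX j x' =
      ∑ n ∈ range (j - w), (n : ℤ) * ((GaussPoset.nab (w + n) x' : ℤ) - 1) := by
    unfold GaussPoset.mX GaussPoset.cX
    rw [Finset.mul_sum, ← Finset.sum_sub_distrib, show j = w + (j - w) by omega,
      Finset.sum_range_add, Finset.sum_eq_zero, zero_add, Nat.add_sub_cancel_left]
    · refine Finset.sum_congr rfl fun n hn => ?_
      push_cast
      ring
    · intro k hk
      rw [mem_range] at hk
      rw [hlow k (by omega)]
      norm_num
  rw [h4, fjn_cst H h hw]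
  push_cast at h1 ⊢
  rw [h1]
  ring

/-- the parity of a fold join -/
lemma fjn_nst (H : Gr P r) {z x x' : P} (h : FJn j z x x') (hw : w + 2 ≤ j) :
    nst w (fun _ => j - w - 1) z = foN w j + ∑ n ∈ range (j - w - 1), GaussPoset.nab (w + n) x' := by
  have h2 := h.2.1
  rw [nst_eq]
  unfold foN
  rw [← Finset.sum_add_distrib]
  refine Finset.sum_congr rfl fun n hn => ?_
  rw [mem_range] at hn
  rw [fjn_nab H h (by omega), fold_nab_min h.2.2 (by omega)]

/-- the parity of a fold join of a partner with known extras -/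
lemma fjn_par (H : Gr P r) {z x x' : P} (h : FJn j z x x') (hw : w + 2 ≤ j)
    (hlow : ∀ k, k < w → GaussPoset.nab k x' = 1) (h1 : GaussPoset.nab (j - 1) x' = 1) :
    (GaussPoset.nst w (fun _ => j - w - 1) z : ℤ) = foN w j + (j - w - 1 : ℕ) + mX j x' := by
  rw [fjn_nst H h hw]
  have h4 : mX j x' = ∑ n ∈ range (j - w - 1), ((GaussPoset.nab (w + n) x' : ℤ) - 1) := by
    unfold GaussPoset.mX
    rw [show j = w + (j - w - 1 + 1) by omega, Finset.sum_range_add, Finset.sum_eq_zero, zero_add,
      show w + (j - w - 1 + 1) - w - 1 = j - w - 1 by omega, Finset.sum_range_succ,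
      show w + (j - w - 1) = j - 1 by omega, h1]
    · norm_num
    · intro k hk
      rw [mem_range] at hk
      rw [hlow k (by omega)]
      norm_num
  rw [h4, Finset.sum_sub_distrib]
  simp only [Finset.sum_const, card_range]
  push_cast
  ring

/-- ends have one element of level `j - 1` above -/
lemma nab_end (H : Gr P r) {x : P} (hj : 1 ≤ j) (hl : lev x = j) (h1 : (Win.uc x).card = 1) :
    nab (j - 1) x = 1 := by
  classical
  rw [← h1]
  unfold nab
  congr 1
  ext y
  rw [mem_filter, mem_lv, Win.mem_uc]
  constructor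
  · rintro ⟨g1, g2⟩
    refine H.covBy_iff.mpr ⟨lt_of_le_of_ne g2 (by rintro rfl; omega), by omega⟩
  · intro g
    have := (H.covBy_iff.mp g).2
    exact ⟨by omega, g.1.le⟩

end Pool.Agent.GaussPoset.Sm

end

/-! From `Pool.Agent.W_448f4_h70.GR` -/

section

/-!
# The windows `2`, `3` with the larger labels: elements of level `j + 1` below a deep cell
(MP_448cb3_co, S7)
-/

namespace Pool.Agent.GaussPoset.Sm

set_option linter.unusedSectionVars false

open Polynomial Finset W4

universe u

variable {P : Type u} [Fintype P] [PartialOrder P] [DecidableEq P] {r j w K0 K : ℕ}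
  {N : Tops P → Finset P} {b : Tops P → ℕ} {θ : Tops P → P → ℕ} {XE XO : ℕ → Prop}

/-- no pendant below the double next to the fold, `j` odd -/
def NoFlip (P : Type u) [Fintype P] [PartialOrder P] [DecidableEq P] (j : ℕ) : Prop :=
  ∀ z x : P, lev z = j + 1 → lev x = j → z ⋖ x → (∀ y, z ⋖ y → y = x) → (Win.uc x).card = 2 →
    (∀ k, k ≤ j → nab k x + (k - (j + 3) / 2) = min (k / 2) ((j - 3) / 2) + 1) → False

/-- elements of level `j + 1` below a deep cell, with fold joins; the cap of `W` is not used -/
theorem Wk.deep_jS (W : Wk r j w K0 N b θ) (hw2 : 2 ≤ w) (hj8 : 8 ≤ j)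
    (hfl : j % 2 = 1 → K < flC w j ∨ NoFlip P j) {z : P} (hz : z ∈ bdR (rA N)) (hlz : lev z = j + 1)
    {x : P} (hzx : z ⋖ x) (hD : Dk j w K0 N θ x) : K < cst w (hA N θ) z ∨
      (j % 2 = 0 ∧ cst w (hA N θ) z = foC w j ∧ nst w (hA N θ) z = foN w j ∧
        nab w z = nab (w + hA N θ z) z + 1 ∧ (∀ y, z ⋖ y → y = x) ∧ Fold j x) ∨
      ((∃ x', FJn j z x x') ∧ hA N θ z = j - w - 1) ∨ CEl j w N θ z := by
  classical
  have H := W.gt.H
  have HN := W.natSys
  have hj := W.hj
  have hw := W.hw
  have hzR := (mem_bdR.mp hz).1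
  have hzu := (mem_rA.mp hzR).1
  have e1 := (H.covBy_iff.mp hzx).2
  have hlx : lev x = j := by omega
  have hx : x ∉ unnat N := W.low (by omega)
  have hbs : GaussPoset.bs N x = x := by
    unfold GaussPoset.bs
    rw [if_neg (W.not_tw hx)]
  have hle := W.hA_le (not_mem_rA.mpr (Or.inl hx)) hzx
  rw [hbs] at hle
  have hth := hD.th
  have h1w := hD.one_le
  have hxt : x ∈ N (topOf x) := HN.mem_iff.mpr ⟨hx, rfl⟩
  have hxle : x ≤ (topOf x : P) := le_topOf x
  have hzN := mem_unnat.mp hzu (topOf x)
  have hnat : ∀ y ∈ N (topOf x), y ∉ unnat N := fun y hy => (HN.mem_iff.mp hy).1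
  have hzt : ∀ y, y ∉ unnat N → ¬ ∀ v, y < v ↔ z < v := fun y hy h =>
    (mem_rA.mp hzR).2 (mem_twA.mpr ⟨hzu, y, hy, h⟩)
  -- two covers have one cover each
  have hnear : (Win.uc x).card = 2 → ∀ y, z ⋖ y → y = x := by
    intro h2 y hy
    by_contra hne
    have := (W.near hzR hlz hzx hy (Ne.symm hne)).1
    omega
  -- the label of an element with one cover
  have hlab : (∀ y, z ⋖ y → y = x) → hA N θ z = θ (topOf x) x + 1 := by
    intro ho
    obtain ⟨x0, g1, g2, g3⟩ := W.hA_spec hz
    rw [ho x0 g2, hbs] at g3
    exact g3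
  have hthx : θ (topOf x) x = θ (topOf x) x := rfl
  have hth0 := hD.th
  generalize htt : topOf x = t at hxt hxle hzN hnat hle hth hlab
  rcases W.typ t with ⟨g1, g2, g3, g5⟩ | ⟨Nc, co, h0, g1, g2, g4⟩ |
    ⟨Nc, co, h0, g1, g2, g3, g4, g5'⟩
  · exfalso
    rw [g2] at hth
    simp only at hth
    omega
  · exfalso
    rw [g1] at hxt
    rw [g2] at hth
    have hJ : ¬ (x ∈ junk (fun _ => True) Nc co ∨ x ∈ junk (fun _ => True) Nc (swp co)) := by
      intro h
      unfold thR at hth
      rw [if_pos h] at hth
      omega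
    have hxN : x ∈ Nc := by
      rw [mem_natR] at hxt
      rcases hxt with h | h | h
      · exact h
      · exact absurd (Or.inl h) hJ
      · exact absurd (Or.inr h) hJ
    have h2 := rect_th7 h0 hw hxN hJ (by omega)
    have h3 := chart_inner_uc h0.chart H hxN (by omega) (by omega)
    exact g4 x z hxle hlx h3 hzx (hnear h3)
  · rw [g1] at hxt hzN
    rw [g2] at hth
    have hJ : x ∉ junk (fun c => c.1 ≤ c.2) Nc co := by
      intro h
      unfold thS at hth
      rw [if_pos h] at hth
      omega
    have hxN : x ∈ Nc := by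
      rw [mem_natS] at hxt
      exact hxt.resolve_right hJ
    have hl := h0.chart.lev x hxN
    have hm : (co x).1 ≤ (co x).2 := h0.chart.mem x hxN
    have h2 := stair_th7 h0 hw g4 hxN hJ (by omega)
    have hzN1 : z ∉ Nc := fun h => hzN (mem_natS.mpr (Or.inl h))
    have h6 := cst_ge_cover (i := w) (h := hA N θ) H.gradedBelow hzx
    rcases Nat.lt_or_ge (co x).1 (co x).2 with hlt | hge
    · -- a double
      have h3 := stair_inner_uc h0.chart H hxN (by omega) hlt
      have ho := hnear h3
      rcases g5' x z hxle hlx h3 hzx ho with h4 | h4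
      · exfalso
        obtain ⟨y, hy, h⟩ := diag_twin h0.chart h0.max H hzN1 hxN hzx ho h4
        exact hzt y (hnat y (by rw [g1]; exact mem_natS.mpr (Or.inl hy))) h
      · left
        have h5 := hlab ho
        rw [g2] at h5
        have hlb : hA N θ z = j - w - 1 := by omega
        have h7 := cst_stair (w := w) (L := j) (h := hA N θ z) h0.chart hxN hlx (by omega)
        rcases hfl (by omega) with h8 | h8
        swap
        · exfalso
          refine h8 z x hlz hlx hzx ho h3 fun k hk => ?_
          have := stair_nab h0.chart hxN (k := k) (by omega)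
          rw [show (co x).1 = (j - 3) / 2 by omega, show (co x).2 = (j + 3) / 2 by omega] at this
          exact this
        rw [h7, Nat.min_eq_left (by omega), hlb] at h6
        unfold flC at h8
        rw [show (co x).1 = (j - 3) / 2 by omega, show j - (j - 3) / 2 = (j + 3) / 2 by omega]
          at h6
        omega
    · -- the fold end
      have hcc : (co x).2 = (co x).1 := by omega
      -- the label
      have hlb : hA N θ z + 1 = lev x - w := by
        obtain ⟨x0, f1, f2, f3⟩ := W.hA_spec hz
        rw [g2] at hle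
        by_cases hne : x0 = x
        · rw [hne, hbs, htt, g2] at f3
          omega
        · have f4 := W.near hzR hlz hzx f2 (Ne.symm hne)
          have f5 := (H.covBy_iff.mp f2).2
          have hx0 : x0 ∉ unnat N := W.low (by omega)
          have hbs0 : GaussPoset.bs N x0 = x0 := by
            unfold GaussPoset.bs
            rw [if_neg (W.not_tw hx0)]
          rw [hbs0] at f3
          have f6 := W.single_th hx0 (by omega) f4.2
          omega
      have h8 : min (hA N θ z) (lev z - w) = hA N θ z := Nat.min_eq_left (by omega)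
      rw [h8] at h6
      have hj2 : j % 2 = 0 := by omega
      have hA2 : (co x).1 = j / 2 := by omega
      have hlb' : hA N θ z = j - w - 1 := by omega
      have h7 := cst_stair (w := w) (L := j) (h := j - w - 1) h0.chart hxN hlx (by omega)
      rw [hA2, show j - j / 2 = j / 2 by omega] at h7
      have hnk : ∀ k, k ≤ j → nab k x + (k - j / 2) = min (k / 2) (j / 2) + 1 := by
        intro k hk
        have := stair_nab h0.chart hxN (k := k) (by omega)
        rw [hA2, show (co x).2 = j / 2 by omega] at this
        exact this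
      have hFo : Fold j x := ⟨hlx, hj2, fun k hk => by
        have := hnk k hk
        omega⟩
      by_cases ho : ∀ y, z ⋖ y → y = x
      · -- a pendant
        right; left
        have h9 := cst_only (i := w) (h := hA N θ) H.gradedBelow hzx ho
        rw [h8, hlb', h7] at h9
        have hns : nst w (hA N θ) z = foN w j := by
          rw [nst_eq, hlb']
          unfold foN
          refine Finset.sum_congr rfl fun n hn => ?_
          rw [mem_range] at hn
          rw [nab_only ho hzx (by omega)]
          have := hnk (w + n) (by omega)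
          omega
        refine ⟨hj2, by unfold foC; exact h9, hns, ?_, ho, hFo⟩
        rw [hlb', nab_only ho hzx (by omega), nab_only ho hzx (by omega)]
        have a1 := hnk w (by omega)
        have a2 := hnk (w + (j - w - 1)) (by omega)
        omega
      · -- a second cover
        right; right
        push Not at ho
        obtain ⟨x', hzx', hne'⟩ := ho
        have hne : x ≠ x' := Ne.symm hne'
        have e2 := (H.covBy_iff.mp hzx').2
        have hx' : x' ∉ unnat N := W.low (by omega)
        by_cases hh : topOf x' = t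
        · right
          exact ⟨hzR, hlz, x, x', hzx, hzx', hne, by rw [htt, hh], by omega⟩
        · left
          refine ⟨⟨x', Cg.mk' hzx hzx' (mem_onlyB.mpr fun s hs hxs => ?_)
            (mem_onlyB.mpr fun s hs hxs => ?_) ?_, hlz, hFo⟩, hlb'⟩
          · exact HN.top_eq (HN.mem_iff.mpr ⟨hx, rfl⟩) hs hxs
          · exact HN.top_eq (HN.mem_iff.mpr ⟨hx', rfl⟩) hs hxs
          · rw [htt]
            exact fun h => hh h.symm

/-- the least cost of a join at a fold end -/
lemma fjn_cost_ge (H : Gr P r) {z x x' : P} (h : FJn j z x x') (hw : w + 1 ≤ j) :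
    foC w j + foE w j ≤ cst w (fun _ => j - w - 1) z := by
  obtain ⟨hc, hlz, hlx, hj2, hn⟩ := h
  have hl2 := (hc.lev_eq H).2
  rw [cst_shift (i := w) (h := fun _ => j - w - 1) (a := j - w + 1) (by omega),
    Finset.sum_range_succ]
  have s4 : min (j - w - 1) (j - w + 1) * nab (w + (j - w + 1)) z = j - w - 1 := by
    rw [Nat.min_eq_left (by omega), show w + (j - w + 1) = lev z by omega, nab_self, mul_one]
  rw [s4]
  unfold foC foE
  have s5 : ∑ n ∈ range (j - w + 1), min (j - w - 1) n *
      (min ((w + n) / 2) (j / 2) + 1 - ((w + n) - j / 2)) +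
      ∑ n ∈ range (j - w + 1), min (j - w - 1) n * (if j / 2 < w + n then 1 else 0) ≤
      ∑ n ∈ range (j - w + 1), min (j - w - 1) n * nab (w + n) z := by
    rw [← Finset.sum_add_distrib]
    refine Finset.sum_le_sum fun n hn' => ?_
    rw [mem_range] at hn'
    rw [← Nat.mul_add]
    refine Nat.mul_le_mul_left _ ?_
    have a1 := hn (w + n) (by omega)
    have a2 := hc.sum H (k := w + n) (by omega)
    have a3 : 1 ≤ nab (w + n) x' := one_le_nab (by omega)
    split_ifs <;> omega
  omega

/-- fold joins are expensive if the cap is small -/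
lemma fjn_lt_of (H : Gr P r) (hw : w + 1 ≤ j) (hK : K < foC w j + foE w j) :
    ∀ z x x' : P, FJn j z x x' → K < cst w (fun _ => j - w - 1) z := fun _ _ _ h =>
  lt_of_lt_of_le hK (fjn_cost_ge H h hw)

/-- number of elements above an element below both ends of a stair -/
def ccA (w j n : ℕ) : ℕ :=
  (min ((w + n) / 2) (j / 2) + 1 - ((w + n) - j / 2)) + (if j / 2 < w + n then 1 else 0)

/-- cost of an element below both ends of a stair -/
def ccC (w j : ℕ) : ℕ := ∑ n ∈ range (j - w + 1), n * ccA w j n + (j + 1 - w)

/-- parity of an element below both ends of a stair -/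
def ccN (w j : ℕ) : ℕ := ∑ n ∈ range (j - w + 1), ccA w j n

/-- the levels above an element below both ends of a stair -/
theorem Wk.cel_nab (W : Wk r j w K0 N b θ) (hw2 : 2 ≤ w) {z : P} (hz : CEl j w N θ z) :
    lev z = j + 1 ∧ j % 2 = 0 ∧ ∀ k, k ≤ j →
      nab k z = (min (k / 2) (j / 2) + 1 - (k - j / 2)) + (if j / 2 < k then 1 else 0) := by
  classical
  obtain ⟨h1, h2, f, s, h3, h4, h5, h6, h7⟩ := hz
  have H := W.gt.H
  obtain ⟨Nc, co, C⟩ := W.fold_cell hw2 h1 h2 h3 h4 h5 h7
  obtain ⟨s1, s2, s3⟩ := W.fold_end C h1 h2 h3 h4 h5 h6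
  have hev := C.ev
  have hlf := C.lev
  have hls : lev s = j := by
    have := C.nat.chart.lev s s1
    omega
  refine ⟨h2, hev, fun k hk => ?_⟩
  have hnf := C.nab hk
  have hns : nab k s + (k - (co s).2) = min (k / 2) (co s).1 + 1 :=
    stair_nab C.nat.chart s1 (k := k) (by omega)
  rw [s2, s3] at hns
  have hns1 : nab k s = 1 := by omega
  have hset : (lv P k).filter (fun y => z ≤ y) =
      (lv P k).filter (fun y => f ≤ y) ∪ (lv P k).filter (fun y => s ≤ y) := by
    ext y
    rw [mem_union, mem_filter, mem_filter, mem_filter, mem_lv]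
    constructor
    · rintro ⟨hy, hzy⟩
      have hlt : z < y := lt_of_le_of_ne hzy (by rintro rfl; omega)
      obtain ⟨x, hx, hxy⟩ := Hul.exists_cov hlt
      rcases cov_two H h3 h4 h5 hx with rfl | rfl
      · exact Or.inl ⟨hy, hxy⟩
      · exact Or.inr ⟨hy, hxy⟩
    · rintro (⟨hy, h⟩ | ⟨hy, h⟩)
      · exact ⟨hy, h3.1.le.trans h⟩
      · exact ⟨hy, h4.1.le.trans h⟩
  have hcard : nab k z = ((lv P k).filter (fun y => f ≤ y) ∪
      (lv P k).filter (fun y => s ≤ y)).card := by
    rw [← hset]
    unfold nab
    congr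
  -- the element above `s`
  have hmem : ∀ y, y ∈ (lv P k).filter (fun y => s ≤ y) → (f ≤ y ↔ k ≤ j / 2) := by
    intro y hy
    rw [mem_filter, mem_lv] at hy
    have hyN := C.nat.chart.up s s1 y hy.2
    have a1 := (C.nat.chart.le_iff s s1 y hyN).mp hy.2
    rw [Prod.le_def, s2, s3] at a1
    have a2 := C.nat.chart.lev y hyN
    rw [C.nat.chart.le_iff f C.mem y hyN, Prod.le_def, C.co1, C.co2]
    constructor
    · rintro ⟨-, h⟩
      omega
    · intro h
      constructor <;> omega
  have hcs : ((lv P k).filter (fun y => s ≤ y)).card = 1 := by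
    rw [← hns1]
    unfold nab
    congr
  have hcf : ((lv P k).filter (fun y => f ≤ y)).card = nab k f := by
    unfold nab
    congr
  obtain ⟨y0, hy0⟩ := Finset.card_eq_one.mp hcs
  have hy0m : y0 ∈ (lv P k).filter (fun y => s ≤ y) := by rw [hy0]; exact mem_singleton_self _
  have h8 := hmem y0 hy0m
  rw [hcard, hy0]
  by_cases hk2 : k ≤ j / 2
  · have h9 : (lv P k).filter (fun y => f ≤ y) ∪ {y0} = (lv P k).filter (fun y => f ≤ y) := by
      rw [union_eq_left, singleton_subset_iff, mem_filter]
      rw [mem_filter] at hy0m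
      exact ⟨hy0m.1, h8.mpr hk2⟩
    rw [h9, hcf, if_neg (by omega)]
    omega
  · have h9 : y0 ∉ (lv P k).filter (fun y => f ≤ y) := by
      rw [mem_filter]
      exact fun h => hk2 (h8.mp h.2)
    rw [Finset.card_union_of_disjoint (by rw [disjoint_singleton_right]; exact h9), hcf,
      card_singleton, if_pos (by omega)]
    omega

/-- the outcome of an element below both ends of a stair, with the full label -/
theorem Wk.cel_out (W : Wk r j w K0 N b θ) (hw2 : 2 ≤ w) (hj8 : 8 ≤ j) {z : P}
    (hz : CEl j w N θ z) {g : P → ℕ} (hg : g z = lev z - w)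
    (hO : Okv K XE XO (ccN w j) (ccC w j)) : OutG j w K XE XO g z (cst w g z) := by
  obtain ⟨h1, h2, h3⟩ := W.cel_nab hw2 hz
  have hw := W.hw
  have e0 : g z = j + 1 - w := by omega
  have e1 : cst w g z = ccC w j := by
    rw [cst_const, e0, cst_shift (i := w) (h := fun _ => j + 1 - w) (a := j + 1 - w) (by omega),
      Finset.sum_range_succ, show w + (j + 1 - w) = lev z by omega, nab_self, mul_one,
      Nat.min_self]
    unfold ccC
    rw [show j + 1 - w = j - w + 1 by omega]
    congr 1
    refine Finset.sum_congr rfl fun n hn => ?_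
    rw [mem_range] at hn
    rw [Nat.min_eq_right (by omega), h3 (w + n) (by omega)]
    rfl
  have e2 : nst w g z = ccN w j := by
    rw [nst_eq, e0, show j + 1 - w = j - w + 1 by omega]
    unfold ccN
    refine Finset.sum_congr rfl fun n hn => ?_
    rw [mem_range] at hn
    rw [h3 (w + n) (by omega)]
    rfl
  rw [e1]
  refine hO.out e2 ?_
  rw [e0, show w + (j + 1 - w) = lev z by omega, nab_self, h3 w (by omega), if_neg (by omega)]
  omega

/-- **elements of level `j + 1` below a deep cell** -/
theorem Wk.dj_S (W : Wk r j w K0 N b θ) (hw2 : 2 ≤ w) (hj8 : 8 ≤ j)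
    (hfl : j % 2 = 1 → K < flC w j ∨ NoFlip P j)
    (hcc : j % 2 = 0 → NoCC P j ∨ Okv K XE XO (ccN w j) (ccC w j))
    (hFo : j % 2 = 0 → ∀ z x x' : P, FJn j z x x' → K < cst w (fun _ => j - w - 1) z)
    (hfv : j % 2 = 0 → Okv K XE XO (foN w j) (foC w j))
    {v : ℕ} {z x : P} (hz : z ∈ bdR (rA N))
    (hc : cst w (hS j w N b θ) z = v) (hlz : lev z = j + 1) (hzx : z ⋖ x)
    (hD : Dk j w K0 N θ x) : OutG j w K XE XO (hS j w N b θ) z v := by
  have hj := W.hj
  have hp : ¬ PenS j w N b θ z := fun h => by
    have := (W.penS h).2.1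
    omega
  by_cases hC : CEl j w N θ z
  · have hev := (W.cel_nab hw2 hC).2.1
    rcases hcc hev with h | h
    · exact absurd hC (h.not_cel W hw2)
    · rw [← hc]
      exact W.cel_out hw2 hj8 hC (by rw [hS_not hp, hC_of hC]) h
  · have hS1 : hS j w N b θ z = hA N θ z := by rw [hS_not hp, hC_not hC]
    have hcA : cst w (hA N θ) z = v := by
      rw [← hc, cst_const w (hA N θ) z, cst_const w (hS j w N b θ) z, hS1]
    refine outG_congr (h := hA N θ) hS1.symm ?_
    rcases W.deep_jS hw2 hj8 hfl hz hlz hzx hD with h | ⟨h1, h2, h3, h4, -⟩ | ⟨⟨x', h1⟩, h2⟩ | h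
    · left
      omega
    · rw [← hcA, h2]
      exact (hfv h1).out h3 h4
    · left
      have h3 := hFo h1.2.2.2.1 z x x' h1
      have h4 : cst w (hA N θ) z = cst w (fun _ => j - w - 1) z := by
        rw [cst_const, h2]
      omega
    · exact absurd h hC

end Pool.Agent.GaussPoset.Sm

end
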