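import Mathlib
import Pool.Agent.W_448zz_h61.Ns
import Pool.Agent.W_448zz_h61.M105
import Pool.Agent.W_448zz_h61.M131
import Pool.Agent.W_448zz_h61.M133

/-! From `Pool.Agent.W_448s8f_h76.FjB` -/

section

/-!
# Window `4` with fold joins: the class of the largest drop (MP_448cb3_co, S8, `j = 12, 14`)
-/

namespace Pool.Agent.GaussPoset.Ec

set_option linter.unusedSectionVars false

open Polynomial Finset Sm Wd Cp W4 Cl

universe u

variable {P : Type u} [Fintype P] [PartialOrder P] [DecidableEq P] {r j : ℕ}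
  {lo hi : Tops P → ℕ → ℕ} {e : Tops P → ℕ → ℕ → P} {N : Tops P → Finset P}
  {θ3 θ4 : Tops P → P → ℕ} {Nf : Tops P → Finset P} {θf : Tops P → (ℕ → ℕ → ℕ) → P → ℕ}
  {D : Tops P → Prop} {K3 K' V3 : ℕ} {b : Tops P → ℕ}

/-- the number of elements of level `k` above an element of one component -/
lemma nab_le_comp {t : Tops P} {lo hi : ℕ → ℕ} {e : ℕ → ℕ → P} (C : Comp j (t : P) lo hi e)
    {x : P} (hx : x ∈ onlyB t) {k : ℕ} (hk : k ≤ j) : nab k x ≤ hi k - lo k + 1 := by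
  classical
  unfold nab
  have h1 : (lv P k).filter (fun y => x ≤ y) ⊆ (Icc (lo k) (hi k)).image (e k) := by
    intro y hy
    rw [mem_filter, mem_lv] at hy
    obtain ⟨s, a1, a2, a3⟩ := C.surj y (onlyB_le (onlyB_up hx hy.2)) (by omega)
    rw [hy.1] at a1 a2 a3
    exact mem_image.mpr ⟨s, Finset.mem_Icc.mpr ⟨a1, a2⟩, a3⟩
  refine (Finset.card_le_card h1).trans (Finset.card_image_le.trans ?_)
  rw [Nat.card_Icc]
  have := C.lo_le k hk
  omega

/-- the threshold of a fold end -/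
theorem Fs.fold_th (F : Fs P j lo hi e N θ4 Nf θf D) (K : Ctx P r j lo hi e) (h12 : 12 ≤ j)
    {x : P} (hf : Fold j x) (hx : x ∈ onlyB (topOf x)) (h1 : (Win.uc x).card = 1) :
    θ4 (topOf x) x = j - 6 := by
  have H := K.gt.H
  have hl := hf.1
  have n4 := hf.2.2 4 (by omega)
  have h2 := hf.2.1
  have hc := nab_le_comp (K.comp (topOf x)) hx (k := 4) (by omega)
  have hxl : x ∈ lowPart j (topOf x : P) := mem_lowPart.mpr ⟨le_topOf x, hl.le⟩
  rcases F.typ (topOf x) with ⟨k1, k2, k3, k4, k5, k6, k7⟩ | ⟨c, Nc, co, k0, k1, k2, k3, k4, k5, k6⟩ |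
    ⟨k0, k1, k2, k3, k4, k5, k6, k7, k8⟩ | ⟨Nc, co, k0, k1, k2, k3, k4, k5, k6⟩
  · omega
  · exfalso
    have hxN := k0.strip hxl
    have hcl := k0.chart.lev x hxN
    have h0 : (co x).1 = 0 ∨ (co x).2 = 0 := by
      by_contra hcon
      have := chart_inner_uc k0.chart H hxN (by omega) (by omega)
      omega
    have := rect_nab k0.chart hxN (k := 4) (by omega)
    omega
  · omega
  · have hxN := k0.strip hxl
    have hcl := k0.chart.lev x hxN
    have hm : (co x).1 ≤ (co x).2 := k0.chart.mem x hxN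
    have h3 := stair_nab k0.chart hxN (k := 4) (by omega)
    have h4 : (co x).1 = (co x).2 := by
      by_contra hcon
      have := stair_inner_uc k0.chart H hxN (by omega) (by omega)
      omega
    have hJ := not_junk_above k0.chart hxN (by omega) le_rfl
    have h5 := stair_th4 k0 hxN hJ (by omega)
    rw [k2]
    omega

/-- the label of a fold join is at most `j - 5` -/
theorem Fs.fold_lab (F : Fs P j lo hi e N θ4 Nf θf D) (K : Ctx P r j lo hi e) (h12 : 12 ≤ j)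
    (Y : Y4 r j K3 K' V3 N b θ3 θ4) {z x x' : P} (h : FJn j z x x') :
    z ∈ bdR (rA N) ∧ hA N θ4 z ≤ j - 5 := by
  obtain ⟨h1, h2, h3⟩ := h
  have H := K.gt.H
  have e1 := (H.covBy_iff.mp h1.cov).2
  have hx : x ∉ unnat N := Y.W.low (by omega)
  have hxR : x ∉ rA N := not_mem_rA.mpr (Or.inl hx)
  have hz := join_mem_rA Y.W h1.jn
  refine ⟨mem_bdR.mpr ⟨hz, x, hxR, h1.cov⟩, ?_⟩
  have h4 := Y.hA_le hxR h1.cov
  have hbs : GaussPoset.bs N x = x := by
    unfold GaussPoset.bs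
    rw [if_neg (Y.W.not_tw hx)]
  rw [hbs, F.fold_th K h12 h3 h1.only (K.ends h1 h2).1] at h4
  omega

lemma cst_mono_lab {z : P} {h h' : P → ℕ} (hh : h z ≤ h' z) : cst 4 h z ≤ cst 4 h' z := by
  rw [cst_eq, cst_eq]
  refine Finset.sum_le_sum fun l _ => Nat.mul_le_mul_right _ ?_
  omega

/-- a smaller label has a smaller cost -/
lemma cst_lt_ful {z : P} {k : ℕ} (hk : k < lev z - 4) : cst 4 (fun _ => k) z < ful 4 z := by
  rw [← cst_eq_ful (i := 4) (h := fun _ => lev z - 4) (z := z) (by omega), cst_eq, cst_eq,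
    Finset.sum_range_succ, Finset.sum_range_succ, nab_self]
  have h1 : ∑ l ∈ range (lev z), min k (l - 4) * nab l z ≤
      ∑ l ∈ range (lev z), min (lev z - 4) (l - 4) * nab l z :=
    Finset.sum_le_sum fun l _ => Nat.mul_le_mul_right _ (by omega)
  have h2 : min k (lev z - 4) < min (lev z - 4) (lev z - 4) := by omega
  omega

/-- the fold joins at the cost `n` -/
lemma fold_mem (F : Fs P j lo hi e N θ4 Nf θf D) (K : Ctx P r j lo hi e) (h12 : 12 ≤ j)
    (Y : Y4 r j K3 K' V3 N b θ3 θ4) {n : ℕ} (hmin : ∀ z ∈ bdR (rA N), n ≤ cst 4 (hA N θ4) z)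
    (hmem : ∀ z ∈ bdR (rA N), cst 4 (hA N θ4) z = n →
      SJn N θ3 θ4 z ∨ ((∃ x x', FJn j z x x') ∧ hA N θ4 z = j - 5))
    {z x x' : P} (h : FJn j z x x') (hn : cst 4 (fun _ => j - 5) z = n) :
    z ∈ bdR (rA N) ∧ cst 4 (hA N θ4) z = n ∧ hA N θ4 z = j - 5 := by
  obtain ⟨h1, h2⟩ := F.fold_lab K h12 Y h
  have h3 : cst 4 (hA N θ4) z ≤ n := by
    rw [← hn]
    exact cst_mono_lab h2
  have h4 := le_antisymm h3 (hmin z h1)
  refine ⟨h1, h4, ?_⟩
  rcases hmem z h1 h4 with h5 | h5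
  · exfalso
    have h6 := h5.2.2.1
    have h7 := cst_lt_ful (z := z) (k := j - 5) (by have := h.2.1; omega)
    omega
  · exact h5.2

/-- the straight joins at the cost `n` -/
lemma full_mem (Y : Y4 r j K3 K' V3 N b θ3 θ4) (h12 : 12 ≤ j) {n : ℕ}
    (hmin : ∀ z ∈ bdR (rA N), n ≤ cst 4 (hA N θ4) z)
    (hmem : ∀ z ∈ bdR (rA N), cst 4 (hA N θ4) z = n →
      SJn N θ3 θ4 z ∨ ((∃ x x', FJn j z x x') ∧ hA N θ4 z = j - 5))
    {z x x' : P} (h : Cg z x x') (hn : ful 4 z = n) :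
    z ∈ bdR (rA N) ∧ cst 4 (hA N θ4) z = n ∧ hA N θ4 z = lev z - 4 := by
  have hpos := rA_pos Y.W
  have hzR := join_mem_rA Y.W h.jn
  obtain ⟨z', hz', hle, -⟩ := exists_bd_above hpos hzR
  have hlz : j + 1 ≤ lev z := by
    by_contra hcon
    exact Y.W.gt.no_join z (by omega) h.jn
  have hzz : z = z' := by
    by_contra hne
    have e1 := ful_lt (w := 4) (lt_of_le_of_ne hle hne) (by omega)
    have e2 := hmin z' hz'
    have e3 := cst_le_ful 4 (hA N θ4) z'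
    omega
  subst hzz
  have hc : cst 4 (hA N θ4) z = n := le_antisymm (by rw [← hn]; exact cst_le_ful _ _ _)
    (hmin z hz')
  refine ⟨hz', hc, ?_⟩
  rcases hmem z hz' hc with h5 | ⟨⟨y, y', h5⟩, h6⟩
  · exact h5.2.1
  · exfalso
    have h7 : cst 4 (hA N θ4) z = cst 4 (fun _ => j - 5) z := by
      unfold cst ez
      rw [h6]
    have h8 := cst_lt_ful (z := z) (k := j - 5) (by omega)
    omega

/-- **The class of the largest drop at window `4`, with fold joins.**  If all joins of cost `n`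
(fold joins with the label `j - 5`) of drop greater than `d` have the same parity then there is
none. -/
theorem Fs.class_par (F : Fs P j lo hi e N θ4 Nf θf D) (K : Ctx P r j lo hi e) (h12 : 12 ≤ j)
    (Y : Y4 r j K3 K' V3 N b θ3 θ4) {n d p : ℕ}
    (hmin : ∀ z ∈ bdR (rA N), n ≤ cst 4 (hA N θ4) z)
    (hmem : ∀ z ∈ bdR (rA N), cst 4 (hA N θ4) z = n →
      SJn N θ3 θ4 z ∨ ((∃ x x', FJn j z x x') ∧ hA N θ4 z = j - 5))
    (hgen : ∀ c0 : ℕ, c0 + d < (lv P 4).card →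
      (∀ z ∈ bdR (rA N), cst 4 (hA N θ4) z = n →
        c0 + nab 4 z ≤ (lv P 4).card + nab (4 + hA N θ4 z) z) →
      ∑ z ∈ (bdR (rA N)).filter (fun z => cst 4 (hA N θ4) z = n ∧
        c0 + nab 4 z = (lv P 4).card + nab (4 + hA N θ4 z) z),
        (-1 : ℤ) ^ (nst 4 (hA N θ4) z) = 0)
    (hp1 : ∀ z x x' : P, Cg z x x' → ful 4 z = n → d + 2 ≤ nab 4 z →
      nst 4 (fun z => lev z - 4) z % 2 = p)
    (hp2 : ∀ z x x' : P, FJn j z x x' → cst 4 (fun _ => j - 5) z = n →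
      d + 1 + nab (j - 1) z ≤ nab 4 z → nst 4 (fun _ => j - 5) z % 2 = p) :
    (∀ z x x' : P, Cg z x x' → ful 4 z = n → nab 4 z ≤ d + 1) ∧
    (∀ z x x' : P, FJn j z x x' → cst 4 (fun _ => j - 5) z = n →
      nab 4 z ≤ d + nab (j - 1) z) := by
  classical
  -- the members of the classes of drop greater than `d`
  have key : ∀ z ∈ bdR (rA N), cst 4 (hA N θ4) z = n →
      nab 4 z ≤ d + nab (4 + hA N θ4 z) z := by
    by_contra hcon
    push Not at hcon
    obtain ⟨z0, g1, g2, g3⟩ := hcon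
    let M : Finset P := (bdR (rA N)).filter (fun z => cst 4 (hA N θ4) z = n)
    have hM : M.Nonempty := ⟨z0, mem_filter.mpr ⟨g1, g2⟩⟩
    obtain ⟨z1, hz1, hmax⟩ := M.exists_max_image (fun z => nab 4 z - nab (4 + hA N θ4 z) z) hM
    have hz1' := mem_filter.mp hz1
    have h2 := hmax z0 (mem_filter.mpr ⟨g1, g2⟩)
    have hL := nab_le_card (P := P) 4 z1
    obtain ⟨c0, hc0⟩ : ∃ c0, c0 + (nab 4 z1 - nab (4 + hA N θ4 z1) z1) = (lv P 4).card :=
      ⟨(lv P 4).card - (nab 4 z1 - nab (4 + hA N θ4 z1) z1), by omega⟩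
    have h3 := hgen c0 (by omega) (fun z hz hc => by
      have h4 := hmax z (mem_filter.mpr ⟨hz, hc⟩)
      omega)
    have hpar : ∀ z ∈ (bdR (rA N)).filter (fun z => cst 4 (hA N θ4) z = n ∧
        c0 + nab 4 z = (lv P 4).card + nab (4 + hA N θ4 z) z),
        (-1 : ℤ) ^ (nst 4 (hA N θ4) z) = (-1) ^ p := by
      intro z hz
      rw [mem_filter] at hz
      obtain ⟨a1, a2, a3⟩ := hz
      have a4 : nst 4 (hA N θ4) z % 2 = p := by
        rcases hmem z a1 a2 with a5 | ⟨⟨x, x', a5⟩, a6⟩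
        · obtain ⟨b1, b2, b3, x, x', b4⟩ := a5
          have h4 := Y.W.bd_lev a1
          rw [b2, show 4 + (lev z - 4) = lev z by omega, nab_self] at a3
          rw [nst_congr (h := hA N θ4) (h' := fun z => lev z - 4) b2]
          exact hp1 z x x' b4 (by rw [← b3]; exact a2) (by omega)
        · rw [a6, show 4 + (j - 5) = j - 1 by omega] at a3
          rw [nst_congr (h := hA N θ4) (h' := fun _ => j - 5) a6]
          refine hp2 z x x' a5 ?_ (by omega)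
          rw [← a2]
          unfold cst ez
          rw [a6]
      rw [← Nat.div_add_mod (nst 4 (hA N θ4) z) 2, a4, pow_add, pow_mul]
      norm_num
    rw [Finset.sum_congr rfl hpar, Finset.sum_const, nsmul_eq_mul] at h3
    have h5 : (0 : ℤ) < (((bdR (rA N)).filter (fun z => cst 4 (hA N θ4) z = n ∧
        c0 + nab 4 z = (lv P 4).card + nab (4 + hA N θ4 z) z)).card : ℤ) := by
      have h6 : 0 < ((bdR (rA N)).filter (fun z => cst 4 (hA N θ4) z = n ∧
          c0 + nab 4 z = (lv P 4).card + nab (4 + hA N θ4 z) z)).card :=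
        Finset.card_pos.mpr ⟨z1, mem_filter.mpr ⟨hz1'.1, hz1'.2, by omega⟩⟩
      exact_mod_cast h6
    rcases mul_eq_zero.mp h3 with h6 | h6
    · omega
    · exact absurd h6 (pow_ne_zero _ (by norm_num))
  refine ⟨fun z x x' h hn => ?_, fun z x x' h hn => ?_⟩
  · obtain ⟨a1, a2, a3⟩ := full_mem Y h12 hmin hmem h hn
    have h4 := Y.W.bd_lev a1
    have h5 := key z a1 a2
    rw [a3, show 4 + (lev z - 4) = lev z by omega, nab_self] at h5
    exact h5
  · obtain ⟨a1, a2, a3⟩ := fold_mem F K h12 Y hmin hmem h hn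
    have h5 := key z a1 a2
    rw [a3, show 4 + (j - 5) = j - 1 by omega] at h5
    exact h5

end Pool.Agent.GaussPoset.Ec

end

/-! From `Pool.Agent.W_448s7_h27.EwR` -/

section

/-!
Window `4`: elimination of the joins of large drop, no fold joins (MP_448cb3_co, S7).
-/

namespace Pool.Agent.GaussPoset.Ec

set_option linter.unusedSectionVars false

open Polynomial Finset Sm Wd Cp W4 Cl

universe u

variable {P : Type u} [Fintype P] [PartialOrder P] [DecidableEq P] {r j : ℕ}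
  {lo hi : Tops P → ℕ → ℕ} {e : Tops P → ℕ → ℕ → P} {N : Tops P → Finset P}
  {θ3 θ4 : Tops P → P → ℕ} {Nf : Tops P → Finset P} {θf : Tops P → (ℕ → ℕ → ℕ) → P → ℕ}
  {D : Tops P → Prop} {K3 K' V3 : ℕ} {b : Tops P → ℕ}

/-- **Elimination at window `4`, no fold joins**: `n` is a lower bound of the costs of the
joins; all joins of cost `n` with more than `d + 1` elements above on the level `4` have the same
parity; then there is none. -/
theorem Fs.kill (F : Fs P j lo hi e N θ4 Nf θf D) (K : Ctx P r j lo hi e) (h12 : 12 ≤ j)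
    (Y : Y4 r j K3 K' V3 N b θ3 θ4) (hNF : Sm.NF P j)
    {n d : ℕ} (hn : n ≤ K') (hjn : ∀ z x x' : P, Cg z x x' → n ≤ ful 4 z)
    {good : Tops P → (P → ℕ) → ℕ → Prop} (hdv : HDv P n d N θ4 Nf D good)
    (hK : ∀ e' F', Vd 4 e' F' → ∑ x, e' x = n → Ew.Ok (rA N) (thA N θ4) e' →
      (El.KG (ED D) Nf good e').card ≤ d) {p : ℕ}
    (hp : ∀ z x x' : P, Cg z x x' → ful 4 z = n → d + 2 ≤ nab 4 z →
      nst 4 (fun z => lev z - 4) z % 2 = p) :
    ∀ z x x' : P, Cg z x x' → ful 4 z = n → nab 4 z ≤ d + 1 := by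
  obtain ⟨h1, h2, h3⟩ := Y.own_noise (fun _ => Or.inr hNF) hn hjn
  exact (F.class_par K h12 Y (d := d) (p := p) h1
    (fun z hz hc => Or.inl ⟨(h3 z hz hc).1, (h3 z hz hc).2.1, by
      rw [hc]; exact (h3 z hz hc).2.2.1, (h3 z hz hc).2.2.2⟩)
    (fun c0 hc hle => F.gsum_gen K h12 Y hdv (fun x hx => (h2 x hx).le) h1 hK hc hle)
    hp (fun z x x' h _ _ => absurd h.2.2 (hNF z x x' h.1 h.2.1))).1

lemma cw14 : Ew.cstW 4 w7 14 5 4 (7 + 1) = 92 ∧ E7t4 14 5 + 1 = 7 ∧ MinB 14 7 97 92 := by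
  refine ⟨?_, ?_, ?_, ?_⟩ <;> decide +kernel

lemma cw15 : Ew.cstW 4 w7 15 5 4 (8 + 1) = 103 ∧ E7t4 15 5 + 1 = 8 ∧ MinB 15 8 104 103 := by
  refine ⟨?_, ?_, ?_, ?_⟩ <;> decide +kernel

/-- **Elimination at window `4`, `j = 15`**, costs at most `214`, and at most `221` without
joins of two `E7` tops. -/
theorem Fs.kill15 (F : Fs P 15 lo hi e N θ4 Nf θf D) (K : Ctx P r 15 lo hi e)
    (Y : Y4 r 15 K3 K' V3 N b θ3 θ4) (hNF : Sm.NF P 15)
    {n : ℕ} (hn : n ≤ K') (hE : n ≤ 214 ∨ (n ≤ 221 ∧ ¬ ∃ z, E2 15 lo hi e N Nf D z))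
    (hjn : ∀ z x x' : P, Cg z x x' → n ≤ ful 4 z) {p : ℕ}
    (hp : ∀ z x x' : P, Cg z x x' → ful 4 z = n → 3 ≤ nab 4 z →
      nst 4 (fun z => lev z - 4) z % 2 = p) :
    ∀ z x x' : P, Cg z x x' → ful 4 z = n → nab 4 z ≤ 2 := by
  obtain ⟨k1, k2, k3⟩ := cw15
  exact F.kill K (by norm_num) Y hNF hn hjn (d := 1)
    (F.hdv15 K Y (fun x hx => hn.trans_lt (Y.out_tw hx)))
    (fun e' F' hV hs hok => F.card_le_one K (by norm_num) Y row5_15 (cS := 121) de_15 k2
      (Or.inl rfl) k3 (by omega) (by omega) (by omega) (by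
        rcases hE with h | h
        · exact Or.inr ⟨by omega, Or.inl (by omega)⟩
        · exact Or.inl h.2)
      hV hs hok) hp

end Pool.Agent.GaussPoset.Ec

end

/-! From `Pool.Agent.W_448s7_h27.PhG` -/

section

/-!
Elimination with the windows `0, …, 4` (MP_448cb3_co, S7): joins of two `E7` tops.
-/

namespace Pool.Agent.GaussPoset.Ec

set_option linter.unusedSectionVars false

open Polynomial Finset Sm Wd Cp W4 Cl

universe u

variable {P : Type u} [Fintype P] [PartialOrder P] [DecidableEq P] {r j : ℕ}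
  {lo hi : Tops P → ℕ → ℕ} {e : Tops P → ℕ → ℕ → P} {N : Tops P → Finset P}
  {θ3 θ4 : Tops P → P → ℕ} {Nf : Tops P → Finset P} {θf : Tops P → (ℕ → ℕ → ℕ) → P → ℕ}
  {D : Tops P → Prop} {K3 K' V3 : ℕ} {b : Tops P → ℕ}

/-- the costs of the boundary elements are larger than `n`, if those of the joins are -/
lemma min_lt (Y : Y4 r j K3 K' V3 N b θ3 θ4) (hNF : Sm.NF P j) {n : ℕ} (hn : n ≤ K')
    (hjn : ∀ z x x' : P, Cg z x x' → n + 1 ≤ ful 4 z) :
    ∀ z ∈ bdR (rA N), n < cst 4 (hA N θ4) z := by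
  obtain ⟨h1, -, h3⟩ := Y.own_noise (fun _ => Or.inr hNF) hn
    (fun z x x' h => (Nat.le_succ n).trans (hjn z x x' h))
  intro z hz
  refine lt_of_le_of_ne (h1 z hz) fun h => ?_
  obtain ⟨-, -, h4, x, x', h5⟩ := h3 z hz h.symm
  have := hjn z x x' h5
  omega

/-- **No join of two `E7` tops**, `j = 15`. -/
theorem Fs.no_E2_15 (F : Fs P 15 lo hi e N θ4 Nf θf D) (K : Ctx P r 15 lo hi e)
    (Y : Y4 r 15 K3 K' V3 N b θ3 θ4) (hNF : Sm.NF P 15) (hn : 215 ≤ K')
    (hjn : ∀ z x x' : P, Cg z x x' → 216 ≤ ful 4 z) : ¬ ∃ z, E2 15 lo hi e N Nf D z := by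
  obtain ⟨k1, k2, k3⟩ := cw15
  exact F.no_E2 K (by norm_num) Y row5_15 (cS := 121) (h2 := 9) de_15 k2
    (Or.inl rfl) k3 (by norm_num) (by norm_num) (by norm_num)
    (F.hdv15 K Y (fun x hx => hn.trans_lt (Y.out_tw hx)))
    (min_lt Y hNF hn hjn) (by rw [k1]) (by norm_num)
    (Or.inr ⟨rfl, Or.inl (by norm_num)⟩) (by decide +kernel) (by decide +kernel) (by norm_num)

/-- the balance at the window `3` for all systems, with the least cost -/
def W3H (P : Type u) [Fintype P] [PartialOrder P] [DecidableEq P] (r j : ℕ)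
    (lo hi : Tops P → ℕ → ℕ) (c3 : ℤ) (nO nE : ℤ → Bool) (lb : ℤ) : Prop :=
  ∀ (N : Tops P → Finset P) (θ3 θ4 : Tops P → P → ℕ), Sy P j lo hi N θ3 θ4 →
    (∃ z : P, Hul.Jn z) → ∃ K3 v : ℕ, Mn j 3 N θ3 v ∧
      Wk r j 3 K3 N (fun t => hi t 3 - lo t 3 + 1) θ3 ∧
      WinB P j 3 c3 nO nE lb ((v : ℤ) - ((j + 1 - 3 : ℕ) : ℤ) ^ 2)

end Pool.Agent.GaussPoset.Ec

namespace Pool.Agent.GaussPoset.Sm

open Finset Wd Ec W4 Cl

universe u

variable {P : Type u} [Fintype P] [PartialOrder P] [DecidableEq P] {r j : ℕ}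

/-- no pair is excluded -/
def XN (_ _ : ℕ × ℕ × ℕ) : Bool := false

lemma noP_XN (j : ℕ) : NoP P j XN := fun _ _ _ _ _ _ _ _ _ => rfl

/-- the pair `s0`, `s0` -/
def XQ (s0 s s' : ℕ × ℕ × ℕ) : Bool := s == s0 && s' == s0

/-- the pair of two `E7` ends is excluded -/
theorem Ctx.noP_XQ {lo hi : Tops P → ℕ → ℕ} {e : Tops P → ℕ → ℕ → P} (K : Ctx P r j lo hi e)
    {N : Tops P → Finset P} {θ4 : Tops P → P → ℕ} {Nf : Tops P → Finset P}
    {θf : Tops P → (ℕ → ℕ → ℕ) → P → ℕ} {D : Tops P → Prop}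
    (F : Fs P j lo hi e N θ4 Nf θf D) (hrow : Row5 j) {m c b : ℕ} (hC : ChkW j m c)
    (hm0 : m ≠ 0) (hf : fm j ≠ m) (hE : ¬ ∃ z, E2 j lo hi e N Nf D z) :
    NoP P j (XQ (m, c, b)) := by
  intro z x x' h hl s s' d d'
  unfold XQ
  rw [Bool.and_eq_false_iff]
  by_contra hcon
  rw [not_or] at hcon
  obtain ⟨h1, h2⟩ := hcon
  rw [Bool.not_eq_false, beq_iff_eq] at h1 h2
  subst h1
  subst h2
  exact hE ⟨z, K.e2_of F hrow hC hm0 hf h hl d d'⟩

end Pool.Agent.GaussPoset.Sm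

end

/-! From `Pool.Agent.W_448s7_h27.EwT` -/

section

/-!
Window `4`: elimination of the joins of large drop, expensive fold joins (MP_448cb3_co, S7).
-/

namespace Pool.Agent.GaussPoset.Ec

set_option linter.unusedSectionVars false

open Polynomial Finset Sm Wd Cp W4 Cl

universe u

variable {P : Type u} [Fintype P] [PartialOrder P] [DecidableEq P] {r j : ℕ}
  {lo hi : Tops P → ℕ → ℕ} {e : Tops P → ℕ → ℕ → P} {N : Tops P → Finset P}
  {θ3 θ4 : Tops P → P → ℕ} {Nf : Tops P → Finset P} {θf : Tops P → (ℕ → ℕ → ℕ) → P → ℕ}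
  {D : Tops P → Prop} {K3 K' V3 : ℕ} {b : Tops P → ℕ}

/-- the own element (C) is expensive, or there are no fold joins -/
def HnO (P : Type u) [Fintype P] [PartialOrder P] [DecidableEq P] (j K' : ℕ) : Prop :=
  j % 2 = 0 → K' < foC 4 j + foE 4 j ∨ ∀ z x x' : P, Cg z x x' → lev z = j + 1 → ¬ Fold j x

/-- the fold joins with the label `j - 5` do not have the cost `n` -/
def HnF (P : Type u) [Fintype P] [PartialOrder P] [DecidableEq P] (j n : ℕ) : Prop :=
  ∀ z x x' : P, FJn j z x x' → cst 4 (fun _ => j - 5) z ≠ n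

lemma hnO_odd {j K' : ℕ} (hj : j % 2 = 1) : HnO P j K' := fun h => by omega

lemma hnF_nf {j n : ℕ} (h : Sm.NF P j) : HnF P j n := fun z x x' hz =>
  absurd hz.2.2 (h z x x' hz.1 hz.2.1)

/-- **Elimination at window `4`.** -/
theorem Fs.killG (F : Fs P j lo hi e N θ4 Nf θf D) (K : Ctx P r j lo hi e) (h12 : 12 ≤ j)
    (Y : Y4 r j K3 K' V3 N b θ3 θ4) (hno : HnO P j K')
    {n d : ℕ} (hn : n ≤ K') (hFo : HnF P j n)
    (hjn : ∀ z x x' : P, Cg z x x' → n ≤ ful 4 z)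
    {good : Tops P → (P → ℕ) → ℕ → Prop} (hdv : HDv P n d N θ4 Nf D good)
    (hK : ∀ e' F', Vd 4 e' F' → ∑ x, e' x = n → Ew.Ok (rA N) (thA N θ4) e' →
      (El.KG (ED D) Nf good e').card ≤ d) {p : ℕ}
    (hp : ∀ z x x' : P, Cg z x x' → ful 4 z = n → d + 2 ≤ nab 4 z →
      nst 4 (fun z => lev z - 4) z % 2 = p) :
    ∀ z x x' : P, Cg z x x' → ful 4 z = n → nab 4 z ≤ d + 1 := by
  obtain ⟨h1, h2, h3⟩ := Y.own_noise hno hn hjn
  exact (F.class_par K h12 Y (d := d) (p := p) h1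
    (fun z hz hc => Or.inl ⟨(h3 z hz hc).1, (h3 z hz hc).2.1, by
      rw [hc]; exact (h3 z hz hc).2.2.1, (h3 z hz hc).2.2.2⟩)
    (fun c0 hc hle => F.gsum_gen K h12 Y hdv (fun x hx => (h2 x hx).le) h1 hK hc hle)
    hp (fun z x x' h hc _ => absurd hc (hFo z x x' h))).1

/-- **Elimination at window `4`, `j = 14`**, costs at most `191`. -/
theorem Fs.killG14 (F : Fs P 14 lo hi e N θ4 Nf θf D) (K : Ctx P r 14 lo hi e)
    (Y : Y4 r 14 K3 K' V3 N b θ3 θ4) (hno : HnO P 14 K')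
    {n : ℕ} (hn : n ≤ K') (hFo : HnF P 14 n) (h191 : n ≤ 191)
    (hjn : ∀ z x x' : P, Cg z x x' → n ≤ ful 4 z) {p : ℕ}
    (hp : ∀ z x x' : P, Cg z x x' → ful 4 z = n → 3 ≤ nab 4 z →
      nst 4 (fun z => lev z - 4) z % 2 = p) :
    ∀ z x x' : P, Cg z x x' → ful 4 z = n → nab 4 z ≤ 2 := by
  obtain ⟨k1, k2, k3⟩ := cw14
  exact F.killG K (by norm_num) Y hno hn hFo hjn (d := 1)
    (F.hdv14 K Y (fun x hx => hn.trans_lt (Y.out_tw hx)))
    (fun e' F' hV hs hok => F.card_le_one K (by norm_num) Y row5_14 (cS := 100) de_14 k2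
      (Or.inl rfl) k3 (by omega) (by omega) (by omega) (Or.inr ⟨by omega, Or.inl (by omega)⟩)
      hV hs hok) hp

/-- **Elimination at window `4`, `j = 16`**. -/
theorem Fs.killG16 (F : Fs P 16 lo hi e N θ4 Nf θf D) (K : Ctx P r 16 lo hi e)
    (Y : Y4 r 16 K3 K' V3 N b θ3 θ4) (hno : HnO P 16 K')
    {n : ℕ} (hn : n ≤ K') (hFo : HnF P 16 n)
    (hE : n ≤ 232 ∨ (n ≤ 241 ∧ ¬ ∃ z, E2 16 lo hi e N Nf D z) ∨
      (n ≤ 255 ∧ (¬ ∃ z, E2 16 lo hi e N Nf D z) ∧ ¬ ∃ z, Own 16 lo hi e N Nf D z))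
    (hjn : ∀ z x x' : P, Cg z x x' → n ≤ ful 4 z) {p : ℕ}
    (hp : ∀ z x x' : P, Cg z x x' → ful 4 z = n → 3 ≤ nab 4 z →
      nst 4 (fun z => lev z - 4) z % 2 = p) :
    ∀ z x x' : P, Cg z x x' → ful 4 z = n → nab 4 z ≤ 2 := by
  obtain ⟨k1, k2, k3, k4, k5, k6⟩ := c16
  have k7 := k6.1
  refine F.killG K (by norm_num) Y hno hn hFo hjn (d := 1)
    (F.hdv_plain K (by norm_num) Y (fun x hx => hn.trans_lt (Y.out_tw hx)))
    (fun e' F' hV hs hok => ?_) hp
  rcases hE with h | h | h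
  · exact F.card_le_one K (by norm_num) Y row5_16 (cS := 144) de_16 k4 (Or.inr rfl) k6
      (by omega) (by omega) (by omega) (Or.inr ⟨by omega, Or.inr (by omega)⟩) hV hs hok
  · exact F.card_le_one K (by norm_num) Y row5_16 (cS := 144) de_16 k4 (Or.inr rfl) k6
      (by omega) (by omega) (by omega) (Or.inl h.2) hV hs hok
  · exact F.card_le_one16 K Y (by omega) h.2.2 h.2.1 hV hs hok

/-- the costs of the boundary elements are larger than `n`, if those of the joins are -/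
lemma min_ltG (Y : Y4 r j K3 K' V3 N b θ3 θ4) (hno : HnO P j K') {n : ℕ} (hn : n ≤ K')
    (hjn : ∀ z x x' : P, Cg z x x' → n + 1 ≤ ful 4 z) :
    ∀ z ∈ bdR (rA N), n < cst 4 (hA N θ4) z := by
  obtain ⟨h1, -, h3⟩ := Y.own_noise hno hn
    (fun z x x' h => (Nat.le_succ n).trans (hjn z x x' h))
  intro z hz
  refine lt_of_le_of_ne (h1 z hz) fun h => ?_
  obtain ⟨-, -, h4, x, x', h5⟩ := h3 z hz h.symm
  have := hjn z x x' h5
  omega

/-- **No join of two `E7` tops**, `j = 16`. -/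
theorem Fs.no_E2_16 (F : Fs P 16 lo hi e N θ4 Nf θf D) (K : Ctx P r 16 lo hi e)
    (Y : Y4 r 16 K3 K' V3 N b θ3 θ4) (hno : HnO P 16 K') (hn : 233 ≤ K')
    (hjn : ∀ z x x' : P, Cg z x x' → 234 ≤ ful 4 z) : ¬ ∃ z, E2 16 lo hi e N Nf D z := by
  obtain ⟨k1, k2, k3, k4, k5, k6⟩ := c16
  exact F.no_E2 K (by norm_num) Y row5_16 (cS := 144) (h2 := 9) de_16 k4
    (Or.inr rfl) k6 (by norm_num) (by norm_num) (by norm_num)
    (F.hdv_plain K (by norm_num) Y (fun x hx => hn.trans_lt (Y.out_tw hx)))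
    (min_ltG Y hno hn hjn) (by rw [k1]) (by norm_num)
    (Or.inl ⟨rfl, rfl⟩) k2 k3 (by norm_num)

/-- **No own elements of `E7` of level `17`**, `j = 16`. -/
theorem Fs.no_own_16 (F : Fs P 16 lo hi e N θ4 Nf θf D) (K : Ctx P r 16 lo hi e)
    (Y : Y4 r 16 K3 K' V3 N b θ3 θ4) (hno : HnO P 16 K') (hn : 121 ≤ K')
    (hjn : ∀ z x x' : P, Cg z x x' → 122 ≤ ful 4 z) : ¬ ∃ z, Own 16 lo hi e N Nf D z :=
  F.no_own K Y (F.hdv_plain K (by norm_num) Y (fun x hx => hn.trans_lt (Y.out_tw hx)))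
    (min_ltG Y hno hn hjn)

end Pool.Agent.GaussPoset.Ec

end

/-! From `Pool.Agent.W_448s8f_h76.FjD` -/

section

/-!
# Fold joins: the list of the partners; elimination at window `4` (MP_448cb3_co, S8,
`j = 12, 14`)
-/

namespace Pool.Agent.GaussPoset.Sm

set_option linter.unusedSectionVars false

open Finset Wd W4

universe u

variable {P : Type u} [Fintype P] [PartialOrder P] [DecidableEq P] {r j w : ℕ}
  {lo hi : Tops P → ℕ → ℕ} {e : Tops P → ℕ → ℕ → P}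

/-- the partners of the fold ends: fold ends or ends with the data in the list -/
def FoL (P : Type u) [Fintype P] [PartialOrder P] [DecidableEq P] (j : ℕ)
    (EF : List (ℕ × ℕ × ℕ)) : Prop :=
  ∀ z x x' : P, FJn j z x x' → Fold j x' ∨ ∃ s ∈ EF, Dt j x' s

/-- the cost of a fold join at window `w` with the label `j - w - 1` -/
def cF (w j : ℕ) (s : ℕ × ℕ × ℕ) : ℤ :=
  foC w j + stF w j + (((j : ℤ) - w) * s.1 - s.2.1)

/-- the cost of a join of two fold ends -/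
def cFF (w j : ℕ) : ℤ := 2 * foC w j - (j - w - 1 : ℕ)

/-- the parity of a fold join -/
def pFo (w j : ℕ) (s : ℕ × ℕ × ℕ) : ℕ := foN w j + (j - w - 1) + s.1

/-- the parity of a join of two fold ends -/
def pFF (w j : ℕ) : ℕ := 2 * foN w j

/-- the partner of a fold end -/
lemma Ctx.partner (K : Ctx P r j lo hi e) {z x x' : P} (h : FJn j z x x') :
    lev x' = j ∧ (Win.uc x').card = 1 ∧ (Fold j x' ∨ Sok j x') := by
  have H := K.gt.H
  have h1 := (h.1.lev_eq H).2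
  have h2 := h.2.1
  refine ⟨by omega, (K.ends h.1 h.2.1).2, ?_⟩
  by_cases hf : Fold j x'
  · exact Or.inl hf
  · exact Or.inr ⟨fun h3 => by have := h3.1; omega, fun _ => hf⟩

/-- the initial list: all ends -/
theorem Ctx.foL (K : Ctx P r j lo hi e) (h12 : 12 ≤ j) {E : List (ℕ × ℕ × ℕ)} (hE : ChkE j E)
    (h0 : (0, 0, 0) ∈ E) : FoL P j E := by
  intro z x x' h
  obtain ⟨h1, h2, h3⟩ := K.partner h
  rcases h3 with h3 | h3
  · exact Or.inl h3
  · exact Or.inr (K.endd h.1.only' h1 h2 hE h0 fun hf => absurd hf (h3.2 h12))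

/-- costs and parities of the fold joins -/
theorem Ctx.fo_num (K : Ctx P r j lo hi e) (h12 : 12 ≤ j) (hw : w ≤ 4) {z x x' : P}
    (h : FJn j z x x') :
    (Fold j x' → (cst w (fun _ => j - w - 1) z : ℤ) = cFF w j ∧
      nst w (fun _ => j - w - 1) z = pFF w j) ∧
    (∀ s, ¬ Fold j x' → Dt j x' s → (cst w (fun _ => j - w - 1) z : ℤ) = cF w j s ∧
      nst w (fun _ => j - w - 1) z = pFo w j s) := by
  have H := K.gt.H
  obtain ⟨h1, h2, h3⟩ := K.partner h
  refine ⟨fun hf => ⟨?_, ?_⟩, fun s hf hD => ?_⟩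
  · have h4 := fjn_FF H h hf (w := w) (by omega)
    unfold cFF
    have h5 : ((cst w (fun _ => j - w - 1) z + (j - w - 1) : ℕ) : ℤ) = ((2 * foC w j : ℕ) : ℤ) := by
      rw [h4]
    push_cast at h5 ⊢
    linarith
  · have h4 : ∑ n ∈ range (j - w - 1), nab (w + n) x' = foN w j := by
      unfold foN
      refine Finset.sum_congr rfl fun n hn => ?_
      rw [mem_range] at hn
      rw [fold_nab_min hf (by omega)]
    rw [fjn_nst H h (by omega), h4]
    unfold pFF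
    ring
  · have hs := h3.resolve_left hf
    have hlow : ∀ k, k < w → nab k x' = 1 := fun k hk =>
      K.low_one h12 h.1.only' h1.ge (fun _ => h2) hs (by omega)
    have h4 := fjn_cost H h (by omega) hlow
    have h5 := fjn_par H h (by omega) hlow (nab_end H (by omega) h1 h2)
    rw [hD.1] at h5
    refine ⟨?_, ?_⟩
    · rw [h4, hD.1, hD.2.1]
      rfl
    · unfold pFo
      exact_mod_cast h5

/-- a lower bound for the costs of the fold joins -/
theorem Ctx.fo_ge (K : Ctx P r j lo hi e) (h12 : 12 ≤ j) (hw : w ≤ 4) {EF : List (ℕ × ℕ × ℕ)}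
    (hL : FoL P j EF) {n : ℤ} (h1 : n ≤ cFF w j) (h2 : ∀ s ∈ EF, n ≤ cF w j s) {z x x' : P}
    (h : FJn j z x x') : n ≤ cst w (fun _ => j - w - 1) z := by
  obtain ⟨g1, g2⟩ := K.fo_num h12 hw h
  by_cases hf : Fold j x'
  · rw [(g1 hf).1]
    exact h1
  · rcases hL z x x' h with h3 | ⟨s, hs, h3⟩
    · exact absurd h3 hf
    · rw [(g2 s hf h3).1]
      exact h2 s hs

/-- the parity of the fold joins of cost `n` -/
theorem Ctx.fo_par (K : Ctx P r j lo hi e) (h12 : 12 ≤ j) (hw : w ≤ 4) {EF : List (ℕ × ℕ × ℕ)}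
    (hL : FoL P j EF) {n : ℤ} {p : ℕ} (h1 : cFF w j = n → pFF w j % 2 = p)
    (h2 : ∀ s ∈ EF, cF w j s = n → pFo w j s % 2 = p) {z x x' : P}
    (h : FJn j z x x') (hn : (cst w (fun _ => j - w - 1) z : ℤ) = n) :
    nst w (fun _ => j - w - 1) z % 2 = p := by
  obtain ⟨g1, g2⟩ := K.fo_num h12 hw h
  by_cases hf : Fold j x'
  · rw [(g1 hf).2]
    exact h1 (by rw [← (g1 hf).1]; exact hn)
  · rcases hL z x x' h with h3 | ⟨s, hs, h3⟩
    · exact absurd h3 hf
    · rw [(g2 s hf h3).2]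
      exact h2 s hs (by rw [← (g2 s hf h3).1]; exact hn)

/-- elimination of the partners of cost `n` -/
theorem Ctx.fo_elim (K : Ctx P r j lo hi e) (h12 : 12 ≤ j) (hw : w ≤ 4)
    {EF EF' : List (ℕ × ℕ × ℕ)} (hL : FoL P j EF) {n : ℤ}
    (hne : ∀ z x x' : P, FJn j z x x' → (cst w (fun _ => j - w - 1) z : ℤ) ≠ n)
    (hE : ∀ s ∈ EF, cF w j s ≠ n → s ∈ EF') : FoL P j EF' := by
  intro z x x' h
  obtain ⟨g1, g2⟩ := K.fo_num h12 hw h
  by_cases hf : Fold j x'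
  · exact Or.inl hf
  · rcases hL z x x' h with h3 | ⟨s, hs, h3⟩
    · exact Or.inl h3
    · refine Or.inr ⟨s, hE s hs ?_, h3⟩
      rw [← (g2 s hf h3).1]
      exact hne z x x' h

/-- the drop of the fold joins at window `4` is at least `2` -/
lemma Ctx.fo_drop (K : Ctx P r j lo hi e) (h12 : 12 ≤ j) {z x x' : P} (h : FJn j z x x') :
    4 ≤ nab 4 z ∧ nab (j - 1) z = 2 := by
  have H := K.gt.H
  obtain ⟨h1, h2, h3⟩ := K.partner h
  have h4 := h.2.2.2.2 4 (by omega)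
  have h5 := h.2.2.2.2 (j - 1) (by omega)
  have h6 := nab_end H (by omega) h1 h2
  have h7 := one_le_nab (l := 4) (z := x') (by omega)
  have h8 := fjn_nab H h (k := 4) (by omega)
  have h9 := fjn_nab H h (k := j - 1) (by omega)
  have h10 := h.2.2.2.1
  omega

end Pool.Agent.GaussPoset.Sm

end

/-! From `Pool.Agent.W_448s7_h27.PhH` -/

section

/-!
The fold joins are expensive for `j = 16` (MP_448cb3_co, S7).
-/

namespace Pool.Agent.GaussPoset.Ec

set_option linter.unusedSectionVars false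

open Polynomial Finset Sm Wd Cp W4 Cl

universe u

variable {P : Type u} [Fintype P] [PartialOrder P] [DecidableEq P] {r j : ℕ}
  {lo hi : Tops P → ℕ → ℕ} {e : Tops P → ℕ → ℕ → P}

/-- the costs of the fold joins -/
theorem fo_cost (K : Ctx P r j lo hi e) (h12 : 12 ≤ j) {E : List (ℕ × ℕ × ℕ)} (hE : ChkE j E)
    (h0 : (0, 0, 0) ∈ E) {n : ℕ} (h1 : (n : ℤ) ≤ cFF 4 j) (h2 : ∀ s ∈ E, (n : ℤ) ≤ cF 4 j s) :
    FoB P j n ∧ ∀ m, m < n → HnF P j m := by
  have hL := K.foL h12 hE h0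
  have key : ∀ z x x' : P, FJn j z x x' → n ≤ cst 4 (fun _ => j - 5) z := by
    intro z x x' h
    have h3 := K.fo_ge h12 le_rfl hL h1 h2 h
    rw [show j - 4 - 1 = j - 5 by omega] at h3
    exact_mod_cast h3
  refine ⟨fun z x x' hz hl hf => ?_, fun m hm z x x' h hc => ?_⟩
  · have h3 := key z x x' ⟨hz, hl, hf⟩
    have h4 := cst_lt_ful (z := z) (k := j - 5) (by omega)
    omega
  · have := key z x x' h
    omega

end Pool.Agent.GaussPoset.Ec

end

/-! From `Pool.Agent.W_448s8f_h76.FjE` -/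

section

/-!
# Window `4` with fold joins: elimination (MP_448cb3_co, S8, `j = 12, 14`)
-/

namespace Pool.Agent.GaussPoset.Ec

set_option linter.unusedSectionVars false

open Polynomial Finset Sm Wd Cp W4 Cl

universe u

variable {P : Type u} [Fintype P] [PartialOrder P] [DecidableEq P] {r j : ℕ}
  {lo hi : Tops P → ℕ → ℕ} {e : Tops P → ℕ → ℕ → P} {N : Tops P → Finset P}
  {θ3 θ4 : Tops P → P → ℕ} {Nf : Tops P → Finset P} {θf : Tops P → (ℕ → ℕ → ℕ) → P → ℕ}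
  {D : Tops P → Prop} {K3 K' V3 : ℕ} {b : Tops P → ℕ}

/-- **Elimination at window `4`, with fold joins**: `n` is a lower bound of the costs of the
joins (fold joins with the label `j - 5`); all joins of cost `n` of drop at least `2` have the
same parity; then there is none. -/
theorem Fs.killF (F : Fs P j lo hi e N θ4 Nf θf D) (K : Ctx P r j lo hi e) (h12 : 12 ≤ j)
    (Y : Y4 r j K3 K' V3 N b θ3 θ4) (hfo3 : j % 2 = 0 → foC 3 j + foE 3 j < V3)
    {n : ℕ} (hn : n ≤ K') (hjn : ∀ z x x' : P, Cg z x x' → n ≤ ful 4 z)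
    {EF : List (ℕ × ℕ × ℕ)} (hL : FoL P j EF) (hF1 : (n : ℤ) ≤ cFF 4 j)
    (hF2 : ∀ s ∈ EF, (n : ℤ) ≤ cF 4 j s) {p : ℕ} (hpF1 : cFF 4 j = n → pFF 4 j % 2 = p)
    (hpF2 : ∀ s ∈ EF, cF 4 j s = n → pFo 4 j s % 2 = p)
    {good : Tops P → (P → ℕ) → ℕ → Prop} (hdv : HDv P n 1 N θ4 Nf D good)
    (hK : ∀ e' F', Vd 4 e' F' → ∑ x, e' x = n → Ew.Ok (rA N) (thA N θ4) e' →
      (El.KG (ED D) Nf good e').card ≤ 1)
    (hp1 : ∀ z x x' : P, Cg z x x' → ful 4 z = n → 3 ≤ nab 4 z →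
      nst 4 (fun z => lev z - 4) z % 2 = p) :
    (∀ z x x' : P, Cg z x x' → ful 4 z = n → nab 4 z ≤ 2) ∧
    (∀ z x x' : P, FJn j z x x' → (cst 4 (fun _ => j - 4 - 1) z : ℤ) ≠ n) := by
  have e5 : j - 4 - 1 = j - 5 := by omega
  obtain ⟨h1, h2, h3⟩ := Y.own_noiseF hfo3 hn hjn (fun z x x' h => by
    have h4 := K.fo_ge h12 le_rfl hL hF1 hF2 h
    rw [e5] at h4
    exact_mod_cast h4)
  obtain ⟨g1, g2⟩ := F.class_par K h12 Y (d := 1) (p := p) h1 h3
    (fun c0 hc hle => F.gsum_gen K h12 Y hdv (fun x hx => (h2 x hx).le) h1 hK hc hle)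
    hp1
    (fun z x x' h hc _ => by
      have h4 := K.fo_par h12 le_rfl hL hpF1 hpF2 h (by rw [e5]; exact_mod_cast hc)
      rwa [e5] at h4)
  refine ⟨g1, fun z x x' h hc => ?_⟩
  rw [e5] at hc
  have h4 := g2 z x x' h (by exact_mod_cast hc)
  obtain ⟨h5, h6⟩ := K.fo_drop h12 h
  omega

/-- **Elimination at window `4`, `j = 12`, with fold joins.** -/
theorem Fs.killF12 (F : Fs P 12 lo hi e N θ4 Nf θf D) (K : Ctx P r 12 lo hi e)
    (Y : Y4 r 12 K3 K' V3 N b θ3 θ4) (hV : 10 ^ 2 + 40 ≤ V3)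
    {n : ℕ} (hn : n ≤ K') (h126 : n ≤ 126) (hjn : ∀ z x x' : P, Cg z x x' → n ≤ ful 4 z)
    {EF : List (ℕ × ℕ × ℕ)} (hL : FoL P 12 EF)
    (hF2 : ∀ s ∈ EF, (n : ℤ) ≤ cF 4 12 s) {p : ℕ}
    (hpF2 : ∀ s ∈ EF, cF 4 12 s = n → pFo 4 12 s % 2 = p)
    (hdv : HDv P n 1 N θ4 Nf D (Gd12 lo hi e Nf θf))
    (hp1 : ∀ z x x' : P, Cg z x x' → ful 4 z = n → 3 ≤ nab 4 z →
      nst 4 (fun z => lev z - 4) z % 2 = p) :
    (∀ z x x' : P, Cg z x x' → ful 4 z = n → nab 4 z ≤ 2) ∧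
      FoL P 12 (EF.filter fun s => decide (cF 4 12 s ≠ n)) := by
  have h143 : cFF 4 12 = 143 := by decide
  have hfo : foC 3 12 + foE 3 12 = 136 := by decide
  obtain ⟨g1, g2⟩ := F.killF K le_rfl Y (fun _ => by omega) hn hjn hL (by rw [h143]; omega) hF2
    (p := p) (fun h => by rw [h143] at h; omega) hpF2 hdv
    (fun e' F' hV hs hok => F.card_le_one12 K Y (Or.inl h126) hV hs hok) hp1
  exact ⟨g1, K.fo_elim le_rfl le_rfl hL g2 fun s hs hne => by
    rw [List.mem_filter]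
    exact ⟨hs, by simpa using hne⟩⟩

end Pool.Agent.GaussPoset.Ec

end
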