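import Mathlib
import Pool.Agent.W_448zz_h61.Ns
import Pool.Agent.W_448zz_h61.M103
import Pool.Agent.W_448zz_h61.M104
import Pool.Agent.W_448zz_h61.M133
import Pool.Agent.W_448zz_h61.M135

/-! From `Pool.Agent.W_448f4_h70.GP` -/

section

/-!
# The windows `2`, `3` with the larger labels: the balance (MP_448cb3_co, S7)
-/

namespace Pool.Agent.GaussPoset.Sm

set_option linter.unusedSectionVars false

open Polynomial Finset

universe u

variable {P : Type u} [Fintype P] [PartialOrder P] [DecidableEq P] {r j w K0 K : ℕ}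
  {N : Tops P → Finset P} {b : Tops P → ℕ} {θ : Tops P → P → ℕ} {XE XO : ℕ → Prop}

/-- **The balance at window `w`.** -/
theorem Wk.winBS (W : Wk r j w K0 N b θ) (h7 : 7 ≤ j) (h12 : j % 2 = 0 → 12 ≤ j)
    (hw2 : 2 ≤ w) {LE LO : List ℤ}
    (L : LkS P j w K0 K N b θ (XL (j + 1 - w) LE) (XL (j + 1 - w) LO)) (h16 : j ≤ 16) {cT lb : ℤ}
    (hK : (K : ℤ) = ((j + 1 - w : ℕ) : ℤ) ^ 2 + cT) (hT : cT < 7 * ((j + 1 - w : ℕ) : ℤ) + 10)
    (hl0 : lb ≤ 0) (hlE : ∀ x ∈ LE, lb ≤ x) (hlO : ∀ x ∈ LO, lb ≤ x)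
    (hlow : ∀ z x x' : P, Cg z x x' → Sok j x → Sok j x' → j + 1 ≤ lev z →
      ∀ k, k < w → nab k z = 2)
    (hPen : OnePen P j (fun t => 2 ≤ b t) ∨ ∃ z : P, Hul.Jn z ∧
      ful w z ≤ (j + 1 - w) ^ 2 + 5 * (j - w))
    (hJ : ∃ z : P, Hul.Jn z) :
    ∃ v, MnS j w N b θ v ∧
      WinB P j w cT (fun V => LO.elem V) (fun V => nz ((j + 1 - w : ℕ) : ℤ) V || LE.elem V)
      lb ((v : ℤ) - ((j + 1 - w : ℕ) : ℤ) ^ 2) := by
  classical
  have HN := W.natSys
  have hj := W.hj
  have hw := W.hw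
  have H := W.gt.H
  -- joins are in the far set
  have hjoin : ∀ z : P, Hul.Jn z → z ∈ rA N := by
    rintro z ⟨t1, t2, h1, h2, hne, hz1, hz2⟩
    have key : ∀ y, y ∉ unnat N → (y ≤ t1 → y ≤ t2 → False) := by
      intro y hy g1 g2
      have h3 : y ∈ N (topOf y) := HN.mem_iff.mpr ⟨hy, rfl⟩
      exact hne ((HN.top_eq h3 h1 g1).trans (HN.top_eq h3 h2 g2).symm)
    have hzu : z ∈ unnat N := by
      by_contra hcon
      exact key z hcon hz1 hz2
    refine mem_rA.mpr ⟨hzu, fun h => ?_⟩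
    obtain ⟨-, y, hy, hup⟩ := mem_twA.mp h
    have hl := W.lt_lev hzu
    refine key y hy ((hup t1).mpr ?_).le ((hup t2).mpr ?_).le
    · exact lt_of_le_of_ne hz1 (by rintro rfl; omega)
    · exact lt_of_le_of_ne hz2 (by rintro rfl; omega)
  have hpos : ∀ x ∈ rA N, 0 < lev x := fun x hx => by
    have := W.lt_lev (mem_rA.mp hx).1
    omega
  have hbd : (bdR (rA N)).Nonempty := by
    obtain ⟨z, hz⟩ := hJ
    obtain ⟨z', hz', -⟩ := exists_bd_above hpos (hjoin z hz)
    exact ⟨z', hz'⟩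
  obtain ⟨v, M, hex⟩ := exists_minS (j := j) (w := w) (b := b) (θ := θ) hbd
  have hmin : ∀ z, Hul.Jn z → v ≤ ful w z := fun z hz => min_le_ful hpos M.bd (hjoin z hz)
  have hPen' : OnePen P j (fun t => 2 ≤ b t) ∨ v ≤ (j + 1 - w) ^ 2 + 5 * (j - w) := by
    rcases hPen with h | ⟨z, hz, h⟩
    · exact Or.inl h
    · exact Or.inr ((hmin z hz).trans h)
  have hlev : ∀ z x x' : P, Cg z x x' → j + 1 ≤ lev z := by
    intro z x x' h
    by_contra hcon
    exact W.gt.no_join z (by omega) h.jn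
  have hyc : ((j + 1 - w : ℕ) : ℤ) = (j : ℤ) + 1 - w := by
    rw [Nat.cast_sub (by omega)]
    push_cast
    ring
  have hline : ∀ z x x' : P, Cg z x x' → Sok j x → Sok j x' →
      (ful w z : ℤ) = ((j + 1 - w : ℕ) : ℤ) ^ 2 + (kapZ j z * ((j : ℤ) - w) + gZ j z) := by
    intro z x x' h hs hs'
    have hl := hlev z x x' h
    rw [hyc]
    exact ful_line (by omega) (by omega) (hlow z x x' h hs hs' hl)
  have hpar : ∀ {z x x' : P}, Cg z x x' → Sok j x → Sok j x' →
      anc z = 2 * w + nst w (fun z => lev z - w) z := by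
    intro z x x' h hs hs'
    have hl := hlev z x x' h
    have h2 := hlow z x x' h hs hs' hl
    unfold anc
    obtain ⟨c, hc⟩ : ∃ c, lev z = w + c := ⟨lev z - w, by omega⟩
    rw [nst_eq, hc, Finset.sum_range_add, Nat.add_sub_cancel_left,
      Finset.sum_congr rfl (g := fun _ => 2) (fun k hk => h2 k (by
        rw [mem_range] at hk
        omega)), Finset.sum_const, card_range, smul_eq_mul, Nat.mul_comm]
  have hkp : ∀ {z : P}, (Odd (anc z) → Odd (kapZ j z)) ∧ (Even (anc z) → Even (kapZ j z)) :=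
    kap_parity
  refine ⟨v, M, ?_⟩
  have hmn : ∀ z x x' : P, Cg z x x' → Sok j x → Sok j x' →
      (v : ℤ) - ((j + 1 - w : ℕ) : ℤ) ^ 2 ≤ kapZ j z * (j - w) + gZ j z := by
    intro z x x' h hs hs'
    have h1 : (v : ℤ) ≤ ful w z := by exact_mod_cast hmin z h.jn
    rw [hline z x x' h hs hs'] at h1
    linarith
  by_cases hcap : K < v
  · have hcap' : (K : ℤ) < v := by exact_mod_cast hcap
    exact ⟨fun h => by linarith, hmn, fun h => by linarith, fun h => by linarith⟩
  have hcv : (v : ℤ) ≤ ((j + 1 - w : ℕ) : ℤ) ^ 2 + cT := by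
    rw [← hK]
    exact_mod_cast not_lt.mp hcap
  obtain ⟨ho, he⟩ := W.bothS h7 h12 hw2 L hPen' M hex (not_lt.mp hcap)
  have hsq : ∀ z x x' : P, Cg z x x' → ful w z = v → 0 ≤ (v : ℤ) - ((j + 1 - w : ℕ) : ℤ) ^ 2 := by
    intro z x x' h he
    have hl := hlev z x x' h
    obtain ⟨c, hc⟩ : ∃ c, lev z = w + c := ⟨lev z - w, by omega⟩
    have h4 := ful_ge (w := w) (z := z) (c := c) (fun _ => 0) hc
      (fun n hn1 hn2 => h.two_le H (k := w + n) (by omega))
    simp only [mul_zero, Finset.sum_const_zero, add_zero] at h4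
    have h5 : (j + 1 - w) ^ 2 ≤ c ^ 2 := Nat.pow_le_pow_left (by omega) 2
    have h6 : (j + 1 - w) ^ 2 ≤ v := by rw [← he]; exact h5.trans h4
    have h7 : (((j + 1 - w) ^ 2 : ℕ) : ℤ) ≤ v := by exact_mod_cast h6
    push_cast at h7
    linarith
  have hnzpos : ∀ {V : ℤ}, nz ((j + 1 - w : ℕ) : ℤ) V = true → 0 ≤ V := by
    intro V hV
    unfold nz at hV
    rw [List.any_eq_true] at hV
    obtain ⟨t, -, ht⟩ := hV
    rw [decide_eq_true_eq] at ht
    have h1 : (0 : ℤ) ≤ t := Int.natCast_nonneg t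
    have h2 : (1 : ℤ) ≤ ((j + 1 - w : ℕ) : ℤ) := by
      have : 1 ≤ j + 1 - w := by omega
      exact_mod_cast this
    rcases ht with ht | ht | ht <;> nlinarith
  refine ⟨fun _ => ?_, hmn, fun _ => ?_, fun _ => ?_⟩
  · rcases ho with ⟨z, x, x', h1, h2, h3, h4, h5⟩ | h | h
    · exact hl0.trans (hsq z x x' h1 h4)
    · exact (od_false h (by omega) h16 hcv hT).elim
    · exact hlO _ h
  · rcases ho with ⟨z, x, x', h1, h2, h3, h4, h5⟩ | h | h
    · left
      refine ⟨z, x, x', h1, h2, h3, hkp.1 (by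
        rw [hpar h1 h2 h3]
        exact (even_two_mul w).add_odd h5), ?_⟩
      have := hline z x x' h1 h2 h3
      rw [h4] at this
      linarith
    · exact (od_false h (by omega) h16 hcv hT).elim
    · right
      exact List.elem_iff.mpr h
  · rcases he with ⟨z, x, x', h1, h2, h3, h4, h5⟩ | h | h
    · left
      refine ⟨z, x, x', h1, h2, h3, hkp.2 (by
        rw [hpar h1 h2 h3]
        exact (even_two_mul w).add h5), ?_⟩
      have := hline z x x' h1 h2 h3
      rw [h4] at this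
      linarith
    · right
      rw [Bool.or_eq_true]
      exact Or.inl (ev_nz h (by omega) hcv hT)
    · right
      rw [Bool.or_eq_true]
      exact Or.inr (List.elem_iff.mpr h)

end Pool.Agent.GaussPoset.Sm

end

/-! From `Pool.Agent.W_448f4_h70.GS` -/

section

/-!
# The balances at the windows `2`, `3` with the larger labels (MP_448cb3_co, S7)
-/

namespace Pool.Agent.GaussPoset.Sm

set_option linter.unusedSectionVars false

open Polynomial Finset W4 Cp

universe u

variable {P : Type u} [Fintype P] [PartialOrder P] [DecidableEq P] {r j w : ℕ}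
  {lo hi : Tops P → ℕ → ℕ} {e : Tops P → ℕ → ℕ → P}

/-- the inputs of the windows `2`, `3` with larger labels, at level `j + 1` -/
structure InS (P : Type u) [Fintype P] [PartialOrder P] [DecidableEq P] (j w K : ℕ)
    (XE XO : ℕ → Prop) : Prop where
  hfl : j % 2 = 1 → K < flC w j ∨ NoFlip P j
  hcc : j % 2 = 0 → NoCC P j ∨ Okv K XE XO (ccN w j) (ccC w j)
  hFo : j % 2 = 0 → ∀ z x x' : P, FJn j z x x' → K < cst w (fun _ => j - w - 1) z
  hfv : j % 2 = 0 → Okv K XE XO (foN w j) (foC w j)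

/-- the inputs at window `w` for the larger labels -/
theorem Wk.lkN {K0 K : ℕ} {N : Tops P → Finset P} {b : Tops P → ℕ} {θ : Tops P → P → ℕ}
    {XE XO : ℕ → Prop} (W : Wk r j w K0 N b θ) (hw2 : 2 ≤ w) (h10 : 10 ≤ j)
    (hK : 2 * K < 3 * (j + 1 - w) ^ 2 + 3 * (j + 1 - w)) (hu : Unq P w b)
    (I : InS P j w K XE XO) (C : CellsN P j w K0 K N b θ XE XO) :
    LkS P j w K0 K N b θ XE XO where
  hK := hK
  unq := hu
  nsk := fun z x x' h hl hn hns => by
    have hw := W.hw
    exact (nsk23' h10 (by omega) hn hns).elim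
  dj := fun v z x _ hz hc hl hzx hD =>
    (W.dj_S hw2 (by omega) I.hfl I.hcc I.hFo I.hfv hz hc hl hzx hD).toK
  dp := fun v z x _ hz hc hx hzx hl hD hR => (W.dp_cellsN hw2 (by omega) C hz hc hx hzx hl hD hR).toK
  dt := fun x hx hD hR => (W.dt_cellsN hw2 (by omega) C hx hD hR).toT

/-- **the balance at the windows `2`, `3` with the larger labels** -/
theorem Ctx.winN (K : Ctx P r j lo hi e) (hF : NoFo P j) (h10 : 10 ≤ j)
    (h12 : j % 2 = 0 → 12 ≤ j)
    (hwj : w = 2 ∨ (w = 3 ∧ 11 ≤ j)) {c0 cT : ℕ}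
    {LE LO : List ℤ} {lb : ℤ} {E : List (ℕ × ℕ × ℕ)} (hE : ChkE j E) (h0 : (0, 0, 0) ∈ E)
    (hb : j % 2 = 1 → ∀ s ∈ E, (s.1 : ℤ) * ((j : ℤ) - w) - s.2.1 ≤ 5 * ((j : ℤ) - w))
    (c1 : ∀ a ∈ Finset.Icc 2 ((j + 1) / 2), (j + 1 - w) ^ 2 + c0 + 1 < stC w (j + 1) a)
    (c2 : ∀ a ∈ Finset.Icc 2 (j - 1), (j + 1 - w) ^ 2 + c0 + 1 < reC w (j + 1) a)
    (hc : c0 ≤ cT)
    (hcell : ∀ (N : Tops P → Finset P) (b : Tops P → ℕ) (θ : Tops P → P → ℕ),
      Wk r j w ((j + 1 - w) ^ 2 + c0) N b θ →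
      CellsN P j w ((j + 1 - w) ^ 2 + c0) ((j + 1 - w) ^ 2 + cT) N b θ
        (XL (j + 1 - w) LE) (XL (j + 1 - w) LO))
    (I : InS P j w ((j + 1 - w) ^ 2 + cT) (XL (j + 1 - w) LE) (XL (j + 1 - w) LO))
    (c6 : 2 * ((j + 1 - w) ^ 2 + cT) < 3 * (j + 1 - w) ^ 2 + 3 * (j + 1 - w))
    (c7 : cT < 7 * (j + 1 - w) + 10)
    (hl0 : lb ≤ 0) (hlE : ∀ x ∈ LE, lb ≤ x) (hlO : ∀ x ∈ LO, lb ≤ x)
    (hJ : ∃ z : P, Hul.Jn z) :
    ∃ V, WinB P j w cT (fun V => LO.elem V) (fun V => nz ((j + 1 - w : ℕ) : ℤ) V || LE.elem V)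
      lb V := by
  have H := K.gt.H
  have h16 := K.h16
  have hw : w = 2 ∨ w = 3 := by omega
  have hsh : ∀ t : Tops P, lo t w = hi t w ∨ RectShape j (lo t) (hi t) ∨
      StairShape j (lo t) (hi t) ∨ StairShape j (fun k => k - hi t k) (fun k => k - lo t k) := by
    intro t
    rcases shape_cases (K.comp t) (by omega) (K.shape t) with h | h | ⟨a, h, h3⟩
    · exact Or.inl (h w (by omega))
    · exact Or.inr (by tauto)
    · left
      have h4 := h.lt (h3 (by omega)) hwj
      rw [(h.low w (by omega)).1, (h.low w (by omega)).2]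
  obtain ⟨N, θ, t1, t2, hs, hu⟩ := K.types (w := w) (by omega) hsh
  have W : Wk r j w ((j + 1 - w) ^ 2 + c0) N (fun t => hi t w - lo t w + 1) θ :=
    { gt := K.gt, hj := by omega, hw1 := by omega, hw := by omega, typ := t1, top := t2
      sum_b := hs
      hK := by omega
      rdeep := fun C _ hx _ h1 h2 h3 h4 => rdeep_of (by omega) (by omega) c2 C hx h1 h2 h3 h4
      sdeep := fun _ _ _ _ C _ hx _ h1 h3 h4 => sdeep_of (by omega) (by omega) c1 C hx h1 h3 h4 }
  have L := W.lkN (by omega) h10 c6 hu I (hcell _ _ _ W)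
  have hlow : ∀ z x x' : P, Cg z x x' → Sok j x → Sok j x' → j + 1 ≤ lev z →
      ∀ k, k < w → nab k z = 2 := by
    intro z x x' h hs hs' hl k hk
    rw [h.sum H (by omega), K.low_one' hF h10 hwj h hs hk, K.low_one' hF h10 hwj h.symm hs' hk]
  have hpen : OnePen P j (fun t => 2 ≤ hi t w - lo t w + 1) ∨ ∃ z : P, Hul.Jn z ∧
      ful w z ≤ (j + 1 - w) ^ 2 + 5 * (j - w) := by
    rcases K.pen_or with h | ⟨hodd, z, x, x', h1, h2, h3, h4⟩
    · left
      intro e e' p p' hB
      refine h e e' p p' ?_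
      rcases shape_cases (K.comp (topOf e)) (by omega) (K.shape (topOf e)) with h | h | ⟨a, h, h3⟩
      · have := h w (by omega)
        omega
      · exact h
      · have h4 := h.lt (h3 (by omega)) hwj
        have e1 := h.low w (by omega)
        omega
    · right
      have hs : Sok j x := ⟨fun hf => by
        have := hf.1
        have := (h1.lev_eq H).1
        omega, fun _ hf => by
        have := hf.2.1
        omega⟩
      have hs' : Sok j x' := ⟨fun hf => by
        have := hf.1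
        have := (h1.lev_eq H).2
        omega, fun _ hf => by
        have := hf.2.1
        omega⟩
      exact ⟨z, h1.jn, K.cheap (by omega) hodd hE h0 (hb hodd) h1 h2 h3 h4
        (hlow z x x' h1 hs hs' h2.ge)⟩
  obtain ⟨v, -, h⟩ := W.winBS (by omega) h12 (by omega) L h16 (cT := (cT : ℤ)) (lb := lb)
    (by push_cast; ring) (by exact_mod_cast c7) hl0 hlE hlO hlow hpen hJ
  exact ⟨_, h⟩

end Pool.Agent.GaussPoset.Sm

end

/-! From `Pool.Agent.W_448f4_h70.GT` -/

section

/-!
# The least cost at window `3` with the larger labels (MP_448cb3_co, S7)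
-/

namespace Pool.Agent.GaussPoset.Sm

set_option linter.unusedSectionVars false

open Polynomial Finset W4 Cp

universe u

section Cost

variable {P : Type u} [Fintype P] [PartialOrder P] [DecidableEq P] {r j w K0 : ℕ}
  {N : Tops P → Finset P} {b : Tops P → ℕ} {θ : Tops P → P → ℕ}

/-- the cost of a pendant below a special cell with the small label -/
lemma SpcC.C1 {x : P} {Nc : Finset P} {co : P → ℕ × ℕ} (C : SpcC j w N b θ x Nc co)
    (hw : w + 1 ≤ j) : Sm.C1 w θ x = stC w (j + 1) 2 := by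
  have hl := C.lev (by omega)
  have hth := C.th
  unfold Sm.C1
  rw [show θ (topOf x) x + 1 = j - w by omega,
    cst_stair (w := w) (L := j + 1) (h := j - w) C.nat.chart C.mem hl (by omega), C.co_eq]
  unfold stC
  rw [show j + 1 - w - 1 = j - w by omega]

/-- the costs of a pendant below a special cell -/
lemma Wk.penS_cst (W : Wk r j w K0 N b θ) {z : P} (hz : PenS j w N b θ z) :
    cst w (hA N θ) z = stC w (j + 1) 2 ∧ cst w (hS j w N b θ) z = stC w (j + 1) 2 + 2 := by
  have hp := hz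
  obtain ⟨p1, p2, p3⟩ := W.penS hz
  obtain ⟨h1, x, h2, h3, h4, h5⟩ := hz
  have H := W.gt.H.gradedBelow
  have hj := W.hj
  have hw := W.hw
  have e1 := H.lev_covBy h3
  have g7 := W.bs h2
  have hS1 := hS_of hp
  have hcg : ∀ L, cst w (fun _ => L) (GaussPoset.bs N x) = cst w (fun _ => L) x := fun L =>
    cst_const_congr g7.lev g7.nab
  obtain ⟨Nc, co, C⟩ := h5
  have hC1 := C.C1 (by omega)
  unfold Sm.C1 at hC1
  have hth := C.th
  rw [show θ (topOf (GaussPoset.bs N x)) (GaussPoset.bs N x) + 1 = j - w by omega, hcg] at hC1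
  have hx : lev x = w + (j - w + 1) := by omega
  have hrise : cst w (fun _ => j - w + 1) x = cst w (fun _ => j - w) x + 1 := by
    rw [cst_shift (i := w) (h := fun _ => j - w + 1) hx,
      cst_shift (i := w) (h := fun _ => j - w) hx, Finset.sum_range_succ,
      Finset.sum_range_succ _ (j - w + 1), show w + (j - w + 1) = lev x by omega, nab_self,
      Finset.sum_congr rfl (g := fun n => min (j - w) n * nab (w + n) x) (fun n hn => by
        rw [mem_range] at hn
        rw [Nat.min_eq_right (by omega), Nat.min_eq_right (by omega)])]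
    rw [Nat.min_self, Nat.min_eq_left (by omega)]
    omega
  constructor
  · rw [cst_const, p1, cst_only (h := fun _ => j - w) H h3 h4, Nat.min_eq_left (by omega)]
    exact hC1
  · rw [cst_const, hS1, p1, cst_only (h := fun _ => j - w + 1) H h3 h4, hrise,
      Nat.min_eq_left (by omega)]
    omega

/-- the costs of a special twin -/
lemma Wk.twS_cst (W : Wk r j w K0 N b θ) {x : P} (hx : x ∈ twA N)
    (hs : Spc j w N b θ (twT N x)) : tcst w (thA N θ) (twT N x, x) + 1 = stC w (j + 1) 2 ∧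
      tcS j w N b θ x = stC w (j + 1) 2 + 1 := by
  have hj := W.hj
  have hw := W.hw
  have h1 := W.tcS_spc hx hs
  have T := W.twn hx
  have e1 : thA N θ (twT N x) = θ (topOf (twT N x)) (twT N x) :=
    W.thA_nat (W.twSys.nat x hx)
  obtain ⟨Nc, co, C⟩ := hs
  have hC1 := C.C1 (by omega)
  unfold Sm.C1 at hC1
  have h2 := tcst_cst T
  simp only at h2
  rw [e1] at h2
  omega

/-- **the least cost from the least raised cost** -/
theorem Wk.mn_of_mnS (W : Wk r j w K0 N b θ) (hcc : ∀ z, ¬ CEl j w N θ z) {v V : ℕ}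
    (MS : MnS j w N b θ V)
    (hex : (∃ z ∈ bdR (rA N), cst w (hA N θ) z = v) ∨
      ∃ x ∈ twA N, tcst w (thA N θ) (twT N x, x) = v) :
    min V (stC w (j + 1) 2 - 1) ≤ v ∧ (stC w (j + 1) 2 - 1 + 4 ≤ V → V ≤ v) := by
  rcases hex with ⟨z, hz, h⟩ | ⟨x, hx, h⟩
  · have h1 := MS.bd z hz
    by_cases hp : PenS j w N b θ z
    · obtain ⟨a1, a2⟩ := W.penS_cst hp
      omega
    · have hS1 : hS j w N b θ z = hA N θ z := by rw [hS_not hp, hC_not (hcc z)]
      rw [cst_const, hS1, ← cst_const, h] at h1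
      omega
  · have h1 := MS.tw x hx
    by_cases hs : Spc j w N b θ (twT N x)
    · obtain ⟨a1, a2⟩ := W.twS_cst hx hs
      omega
    · unfold tcS at h1
      rw [if_neg hs, h] at h1
      omega

/-- elements of the boundary cost more than a special twin -/
theorem Wk.bd_of_mnS (W : Wk r j w K0 N b θ) (hcc : ∀ z, ¬ CEl j w N θ z) {V : ℕ}
    (MS : MnS j w N b θ V) {z : P} (hz : z ∈ bdR (rA N)) :
    min V (stC w (j + 1) 2) ≤ cst w (hA N θ) z := by
  have h1 := MS.bd z hz
  by_cases hp : PenS j w N b θ z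
  · obtain ⟨a1, a2⟩ := W.penS_cst hp
    omega
  · have hS1 : hS j w N b θ z = hA N θ z := by rw [hS_not hp, hC_not (hcc z)]
    rw [cst_const, hS1, ← cst_const] at h1
    omega

end Cost

section

variable {P : Type u} [Fintype P] [PartialOrder P] [DecidableEq P] {r j : ℕ}
  {lo hi : Tops P → ℕ → ℕ} {e : Tops P → ℕ → ℕ → P}

/-- **the balance at the window `3` for the system, with the larger labels; the least raised cost
`V` and the least cost** -/
theorem Ctx.winSyN (K : Ctx P r j lo hi e) (h12 : 12 ≤ j) {N : Tops P → Finset P}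
    {θ3 θ4 : Tops P → P → ℕ} (S : Sy P j lo hi N θ3 θ4) {c0 cT : ℕ}
    {LE LO : List ℤ} {lb : ℤ} {E : List (ℕ × ℕ × ℕ)} (hE : ChkE j E) (h0 : (0, 0, 0) ∈ E)
    (hb : j % 2 = 1 → ∀ s ∈ E, (s.1 : ℤ) * ((j : ℤ) - 3) - s.2.1 ≤ 5 * ((j : ℤ) - 3))
    (c1 : ∀ a ∈ Finset.Icc 2 ((j + 1) / 2), (j + 1 - 3) ^ 2 + c0 + 1 < stC 3 (j + 1) a)
    (c2 : ∀ a ∈ Finset.Icc 2 (j - 1), (j + 1 - 3) ^ 2 + c0 + 1 < reC 3 (j + 1) a)
    (hc : c0 ≤ cT)
    (hcell : ∀ (N : Tops P → Finset P) (b : Tops P → ℕ) (θ : Tops P → P → ℕ),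
      Wk r j 3 ((j + 1 - 3) ^ 2 + c0) N b θ →
      CellsN P j 3 ((j + 1 - 3) ^ 2 + c0) ((j + 1 - 3) ^ 2 + cT) N b θ
        (XL (j + 1 - 3) LE) (XL (j + 1 - 3) LO))
    (I : InS P j 3 ((j + 1 - 3) ^ 2 + cT) (XL (j + 1 - 3) LE) (XL (j + 1 - 3) LO))
    (c6 : 2 * ((j + 1 - 3) ^ 2 + cT) < 3 * (j + 1 - 3) ^ 2 + 3 * (j + 1 - 3))
    (c7 : cT < 7 * (j + 1 - 3) + 10)
    (hl0 : lb ≤ 0) (hlE : ∀ x ∈ LE, lb ≤ x) (hlO : ∀ x ∈ LO, lb ≤ x)
    (hJ : ∃ z : P, Hul.Jn z) :
    ∃ V : ℕ, MnS j 3 N (fun t => hi t 3 - lo t 3 + 1) θ3 V ∧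
      Wk r j 3 ((j + 1 - 3) ^ 2 + c0) N (fun t => hi t 3 - lo t 3 + 1) θ3 ∧
      WinB P j 3 cT (fun V => LO.elem V) (fun V => nz ((j + 1 - 3 : ℕ) : ℤ) V || LE.elem V)
        lb ((V : ℤ) - ((j + 1 - 3 : ℕ) : ℤ) ^ 2) := by
  have H := K.gt.H
  have h16 := K.h16
  have W : Wk r j 3 ((j + 1 - 3) ^ 2 + c0) N (fun t => hi t 3 - lo t 3 + 1) θ3 :=
    { gt := K.gt, hj := by omega, hw1 := by omega, hw := by omega, typ := S.typ3, top := S.top3
      sum_b := S.sum3
      hK := by omega
      rdeep := fun C _ hx _ h1 h2 h3 h4 => rdeep_of (by omega) (by omega) c2 C hx h1 h2 h3 h4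
      sdeep := fun _ _ _ _ C _ hx _ h1 h3 h4 => sdeep_of (by omega) (by omega) c1 C hx h1 h3 h4 }
  have L := W.lkN (by omega) (by omega) c6 S.unq3 I (hcell _ _ _ W)
  have hlow : ∀ z x x' : P, Cg z x x' → Sok j x → Sok j x' → j + 1 ≤ lev z →
      ∀ k, k < 3 → nab k z = 2 := by
    intro z x x' h hs hs' hl k hk
    obtain ⟨l1, l2⟩ := h.lev_eq H
    have hend : lev x = j → (Win.uc x).card = 1 := fun hh => (K.ends h (by omega)).1
    have hend' : lev x' = j → (Win.uc x').card = 1 := fun hh => (K.ends h (by omega)).2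
    rw [h.sum H (by omega), K.low_one h12 h.only (by omega) hend hs (by omega),
      K.low_one h12 h.only' (by omega) hend' hs' (by omega)]
  have hpen : OnePen P j (fun t => 2 ≤ hi t 3 - lo t 3 + 1) ∨ ∃ z : P, Hul.Jn z ∧
      ful 3 z ≤ (j + 1 - 3) ^ 2 + 5 * (j - 3) := by
    rcases K.pen_or with h | ⟨hodd, z, x, x', h1, h2, h3, h4⟩
    · left
      intro e e' p p' hB
      refine h e e' p p' ?_
      rcases shape_cases (K.comp (topOf e)) (by omega) (K.shape (topOf e)) with h | h | ⟨a, h, h3⟩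
      · have := h 3 (by omega)
        omega
      · exact h
      · have h4 := h.four (by omega)
        have e1 := h.low 3 (by omega)
        omega
    · right
      have hs : Sok j x := ⟨fun hf => by
        have := hf.1
        have := (h1.lev_eq H).1
        omega, fun _ hf => by
        have := hf.2.1
        omega⟩
      have hs' : Sok j x' := ⟨fun hf => by
        have := hf.1
        have := (h1.lev_eq H).2
        omega, fun _ hf => by
        have := hf.2.1
        omega⟩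
      exact ⟨z, h1.jn, K.cheap (w := 3) (by omega) hodd hE h0 (hb hodd) h1 h2 h3 h4
        (hlow z x x' h1 hs hs' h2.ge)⟩
  obtain ⟨V, M, h⟩ := W.winBS (by omega) (fun _ => h12) (by omega) L h16 (cT := (cT : ℤ))
    (lb := lb) (by push_cast; ring) (by exact_mod_cast c7) hl0 hlE hlO hlow hpen hJ
  exact ⟨V, M, W, h⟩

end

end Pool.Agent.GaussPoset.Sm

end

/-! From `Pool.Agent.W_448f4_h70.GW` -/

section

/-!
# The windows `2`, `3` with the larger labels: the balance without excluded own elements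
(MP_448cb3_co, S7)
-/

namespace Pool.Agent.GaussPoset.Sm

set_option linter.unusedSectionVars false

open Polynomial Finset

universe u

variable {P : Type u} [Fintype P] [PartialOrder P] [DecidableEq P] {r j w K0 K : ℕ}
  {N : Tops P → Finset P} {b : Tops P → ℕ} {θ : Tops P → P → ℕ} {XE XO : ℕ → Prop}

/-- **The balance at window `w`.** -/
theorem Wk.winBH (W : Wk r j w K0 N b θ) (h7 : 7 ≤ j) (h12 : j % 2 = 0 → 12 ≤ j)
    (hw2 : 2 ≤ w) {LE LO BL : List ℤ}
    (L : LkH P j w K0 K N b θ (XL (j + 1 - w) LE) (XL (j + 1 - w) LO) (XL (j + 1 - w) BL)) (h16 : j ≤ 16) {cT lb : ℤ}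
    (hK : (K : ℤ) = ((j + 1 - w : ℕ) : ℤ) ^ 2 + cT) (hT : cT < 7 * ((j + 1 - w : ℕ) : ℤ) + 10)
    (hl0 : lb ≤ 0) (hlE : ∀ x ∈ LE, lb ≤ x) (hlO : ∀ x ∈ LO, lb ≤ x)
    (hlow : ∀ z x x' : P, Cg z x x' → Sok j x → Sok j x' → j + 1 ≤ lev z →
      ∀ k, k < w → nab k z = 2)
    (hPen : OnePen P j (fun t => 2 ≤ b t) ∨ ∃ z : P, Hul.Jn z ∧
      ful w z ≤ (j + 1 - w) ^ 2 + 5 * (j - w))
    (hJ : ∃ z : P, Hul.Jn z) :
    ∃ v, MnS j w N b θ v ∧
      WinB P j w cT (fun V => LO.elem V) 
        (fun V => (nz ((j + 1 - w : ℕ) : ℤ) V && !(BL.elem V)) || LE.elem V)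
      lb ((v : ℤ) - ((j + 1 - w : ℕ) : ℤ) ^ 2) := by
  classical
  have HN := W.natSys
  have hj := W.hj
  have hw := W.hw
  have H := W.gt.H
  -- joins are in the far set
  have hjoin : ∀ z : P, Hul.Jn z → z ∈ rA N := by
    rintro z ⟨t1, t2, h1, h2, hne, hz1, hz2⟩
    have key : ∀ y, y ∉ unnat N → (y ≤ t1 → y ≤ t2 → False) := by
      intro y hy g1 g2
      have h3 : y ∈ N (topOf y) := HN.mem_iff.mpr ⟨hy, rfl⟩
      exact hne ((HN.top_eq h3 h1 g1).trans (HN.top_eq h3 h2 g2).symm)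
    have hzu : z ∈ unnat N := by
      by_contra hcon
      exact key z hcon hz1 hz2
    refine mem_rA.mpr ⟨hzu, fun h => ?_⟩
    obtain ⟨-, y, hy, hup⟩ := mem_twA.mp h
    have hl := W.lt_lev hzu
    refine key y hy ((hup t1).mpr ?_).le ((hup t2).mpr ?_).le
    · exact lt_of_le_of_ne hz1 (by rintro rfl; omega)
    · exact lt_of_le_of_ne hz2 (by rintro rfl; omega)
  have hpos : ∀ x ∈ rA N, 0 < lev x := fun x hx => by
    have := W.lt_lev (mem_rA.mp hx).1
    omega
  have hbd : (bdR (rA N)).Nonempty := by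
    obtain ⟨z, hz⟩ := hJ
    obtain ⟨z', hz', -⟩ := exists_bd_above hpos (hjoin z hz)
    exact ⟨z', hz'⟩
  obtain ⟨v, M, hex⟩ := exists_minS (j := j) (w := w) (b := b) (θ := θ) hbd
  have hmin : ∀ z, Hul.Jn z → v ≤ ful w z := fun z hz => min_le_ful hpos M.bd (hjoin z hz)
  have hPen' : OnePen P j (fun t => 2 ≤ b t) ∨ v ≤ (j + 1 - w) ^ 2 + 5 * (j - w) := by
    rcases hPen with h | ⟨z, hz, h⟩
    · exact Or.inl h
    · exact Or.inr ((hmin z hz).trans h)
  have hlev : ∀ z x x' : P, Cg z x x' → j + 1 ≤ lev z := by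
    intro z x x' h
    by_contra hcon
    exact W.gt.no_join z (by omega) h.jn
  have hyc : ((j + 1 - w : ℕ) : ℤ) = (j : ℤ) + 1 - w := by
    rw [Nat.cast_sub (by omega)]
    push_cast
    ring
  have hline : ∀ z x x' : P, Cg z x x' → Sok j x → Sok j x' →
      (ful w z : ℤ) = ((j + 1 - w : ℕ) : ℤ) ^ 2 + (kapZ j z * ((j : ℤ) - w) + gZ j z) := by
    intro z x x' h hs hs'
    have hl := hlev z x x' h
    rw [hyc]
    exact ful_line (by omega) (by omega) (hlow z x x' h hs hs' hl)
  have hpar : ∀ {z x x' : P}, Cg z x x' → Sok j x → Sok j x' →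
      anc z = 2 * w + nst w (fun z => lev z - w) z := by
    intro z x x' h hs hs'
    have hl := hlev z x x' h
    have h2 := hlow z x x' h hs hs' hl
    unfold anc
    obtain ⟨c, hc⟩ : ∃ c, lev z = w + c := ⟨lev z - w, by omega⟩
    rw [nst_eq, hc, Finset.sum_range_add, Nat.add_sub_cancel_left,
      Finset.sum_congr rfl (g := fun _ => 2) (fun k hk => h2 k (by
        rw [mem_range] at hk
        omega)), Finset.sum_const, card_range, smul_eq_mul, Nat.mul_comm]
  have hkp : ∀ {z : P}, (Odd (anc z) → Odd (kapZ j z)) ∧ (Even (anc z) → Even (kapZ j z)) :=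
    kap_parity
  refine ⟨v, M, ?_⟩
  have hmn : ∀ z x x' : P, Cg z x x' → Sok j x → Sok j x' →
      (v : ℤ) - ((j + 1 - w : ℕ) : ℤ) ^ 2 ≤ kapZ j z * (j - w) + gZ j z := by
    intro z x x' h hs hs'
    have h1 : (v : ℤ) ≤ ful w z := by exact_mod_cast hmin z h.jn
    rw [hline z x x' h hs hs'] at h1
    linarith
  by_cases hcap : K < v
  · have hcap' : (K : ℤ) < v := by exact_mod_cast hcap
    exact ⟨fun h => by linarith, hmn, fun h => by linarith, fun h => by linarith⟩
  have hcv : (v : ℤ) ≤ ((j + 1 - w : ℕ) : ℤ) ^ 2 + cT := by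
    rw [← hK]
    exact_mod_cast not_lt.mp hcap
  obtain ⟨ho, he⟩ := W.bothH h7 h12 hw2 L hPen' M hex (not_lt.mp hcap)
  have hsq : ∀ z x x' : P, Cg z x x' → ful w z = v → 0 ≤ (v : ℤ) - ((j + 1 - w : ℕ) : ℤ) ^ 2 := by
    intro z x x' h he
    have hl := hlev z x x' h
    obtain ⟨c, hc⟩ : ∃ c, lev z = w + c := ⟨lev z - w, by omega⟩
    have h4 := ful_ge (w := w) (z := z) (c := c) (fun _ => 0) hc
      (fun n hn1 hn2 => h.two_le H (k := w + n) (by omega))
    simp only [mul_zero, Finset.sum_const_zero, add_zero] at h4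
    have h5 : (j + 1 - w) ^ 2 ≤ c ^ 2 := Nat.pow_le_pow_left (by omega) 2
    have h6 : (j + 1 - w) ^ 2 ≤ v := by rw [← he]; exact h5.trans h4
    have h7 : (((j + 1 - w) ^ 2 : ℕ) : ℤ) ≤ v := by exact_mod_cast h6
    push_cast at h7
    linarith
  have hnzpos : ∀ {V : ℤ}, nz ((j + 1 - w : ℕ) : ℤ) V = true → 0 ≤ V := by
    intro V hV
    unfold nz at hV
    rw [List.any_eq_true] at hV
    obtain ⟨t, -, ht⟩ := hV
    rw [decide_eq_true_eq] at ht
    have h1 : (0 : ℤ) ≤ t := Int.natCast_nonneg t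
    have h2 : (1 : ℤ) ≤ ((j + 1 - w : ℕ) : ℤ) := by
      have : 1 ≤ j + 1 - w := by omega
      exact_mod_cast this
    rcases ht with ht | ht | ht <;> nlinarith
  refine ⟨fun _ => ?_, hmn, fun _ => ?_, fun _ => ?_⟩
  · rcases ho with ⟨z, x, x', h1, h2, h3, h4, h5⟩ | h | h
    · exact hl0.trans (hsq z x x' h1 h4)
    · exact (od_false h (by omega) h16 hcv hT).elim
    · exact hlO _ h
  · rcases ho with ⟨z, x, x', h1, h2, h3, h4, h5⟩ | h | h
    · left
      refine ⟨z, x, x', h1, h2, h3, hkp.1 (by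
        rw [hpar h1 h2 h3]
        exact (even_two_mul w).add_odd h5), ?_⟩
      have := hline z x x' h1 h2 h3
      rw [h4] at this
      linarith
    · exact (od_false h (by omega) h16 hcv hT).elim
    · right
      exact List.elem_iff.mpr h
  · rcases he with ⟨z, x, x', h1, h2, h3, h4, h5⟩ | h | h
    · left
      refine ⟨z, x, x', h1, h2, h3, hkp.2 (by
        rw [hpar h1 h2 h3]
        exact (even_two_mul w).add h5), ?_⟩
      have := hline z x x' h1 h2 h3
      rw [h4] at this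
      linarith
    · right
      rw [Bool.or_eq_true, Bool.and_eq_true]
      refine Or.inl ⟨ev_nz h.1 (by omega) hcv hT, ?_⟩
      rw [Bool.not_eq_true', ← Bool.not_eq_true]
      exact fun hB => h.2 (List.elem_iff.mp hB)
    · right
      rw [Bool.or_eq_true]
      exact Or.inr (List.elem_iff.mpr h)

end Pool.Agent.GaussPoset.Sm

end

/-! From `Pool.Agent.W_448f4_h70.GX` -/

section

/-!
# The balances at the windows `2`, `3` with the larger labels and excluded own elements
(MP_448cb3_co, S7)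
-/

namespace Pool.Agent.GaussPoset.Sm

set_option linter.unusedSectionVars false

open Polynomial Finset W4 Cp

universe u

variable {P : Type u} [Fintype P] [PartialOrder P] [DecidableEq P] {r j w : ℕ}
  {lo hi : Tops P → ℕ → ℕ} {e : Tops P → ℕ → ℕ → P}

/-- the inputs at window `w` for the larger labels, with excluded own elements -/
theorem Wk.lkH {K0 K : ℕ} {N : Tops P → Finset P} {b : Tops P → ℕ} {θ : Tops P → P → ℕ}
    {XE XO BE : ℕ → Prop} (W : Wk r j w K0 N b θ) (hw2 : 2 ≤ w) (h10 : 10 ≤ j)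
    (hK : 2 * K < 3 * (j + 1 - w) ^ 2 + 3 * (j + 1 - w)) (hu : Unq P w b)
    (I : InS P j w K XE XO) (C : CellsN P j w K0 K N b θ XE XO) (hk : HkS P j w K N b θ BE) :
    LkH P j w K0 K N b θ XE XO BE where
  hK := hK
  unq := hu
  nsk := fun z x x' h hl hn hns => by
    have hw := W.hw
    exact (nsk23' h10 (by omega) hn hns).elim
  dj := fun v z x _ hz hc hl hzx hD =>
    W.dj_S hw2 (by omega) I.hfl I.hcc I.hFo I.hfv hz hc hl hzx hD
  dp := fun v z x _ hz hc hx hzx hl hD hR => W.dp_cellsN hw2 (by omega) C hz hc hx hzx hl hD hR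
  dt := fun x hx hD hR => W.dt_cellsN hw2 (by omega) C hx hD hR
  hk := hk

/-- **the balance at the window `3` for the system, with the larger labels; the least raised cost
`V` and the least cost** -/
theorem Ctx.winSyH (K : Ctx P r j lo hi e) (h12 : 12 ≤ j) {N : Tops P → Finset P}
    {θ3 θ4 : Tops P → P → ℕ} (S : Sy P j lo hi N θ3 θ4) {c0 cT : ℕ}
    {LE LO BL : List ℤ} {lb : ℤ} {E : List (ℕ × ℕ × ℕ)} (hE : ChkE j E) (h0 : (0, 0, 0) ∈ E)
    (hb : j % 2 = 1 → ∀ s ∈ E, (s.1 : ℤ) * ((j : ℤ) - 3) - s.2.1 ≤ 5 * ((j : ℤ) - 3))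
    (c1 : ∀ a ∈ Finset.Icc 2 ((j + 1) / 2), (j + 1 - 3) ^ 2 + c0 + 1 < stC 3 (j + 1) a)
    (c2 : ∀ a ∈ Finset.Icc 2 (j - 1), (j + 1 - 3) ^ 2 + c0 + 1 < reC 3 (j + 1) a)
    (hc : c0 ≤ cT)
    (hcell : ∀ (N : Tops P → Finset P) (b : Tops P → ℕ) (θ : Tops P → P → ℕ),
      Wk r j 3 ((j + 1 - 3) ^ 2 + c0) N b θ →
      CellsN P j 3 ((j + 1 - 3) ^ 2 + c0) ((j + 1 - 3) ^ 2 + cT) N b θ
        (XL (j + 1 - 3) LE) (XL (j + 1 - 3) LO))
    (hk : ∀ (N : Tops P → Finset P) (b : Tops P → ℕ) (θ : Tops P → P → ℕ),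
      Wk r j 3 ((j + 1 - 3) ^ 2 + c0) N b θ → Unq P 3 b →
      HkS P j 3 ((j + 1 - 3) ^ 2 + cT) N b θ (XL (j + 1 - 3) BL))
    (I : InS P j 3 ((j + 1 - 3) ^ 2 + cT) (XL (j + 1 - 3) LE) (XL (j + 1 - 3) LO))
    (c6 : 2 * ((j + 1 - 3) ^ 2 + cT) < 3 * (j + 1 - 3) ^ 2 + 3 * (j + 1 - 3))
    (c7 : cT < 7 * (j + 1 - 3) + 10)
    (hl0 : lb ≤ 0) (hlE : ∀ x ∈ LE, lb ≤ x) (hlO : ∀ x ∈ LO, lb ≤ x)
    (hJ : ∃ z : P, Hul.Jn z) :
    ∃ V : ℕ, MnS j 3 N (fun t => hi t 3 - lo t 3 + 1) θ3 V ∧
      Wk r j 3 ((j + 1 - 3) ^ 2 + c0) N (fun t => hi t 3 - lo t 3 + 1) θ3 ∧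
      WinB P j 3 cT (fun V => LO.elem V) 
      (fun V => (nz ((j + 1 - 3 : ℕ) : ℤ) V && !(BL.elem V)) || LE.elem V)
        lb ((V : ℤ) - ((j + 1 - 3 : ℕ) : ℤ) ^ 2) := by
  have H := K.gt.H
  have h16 := K.h16
  have W : Wk r j 3 ((j + 1 - 3) ^ 2 + c0) N (fun t => hi t 3 - lo t 3 + 1) θ3 :=
    { gt := K.gt, hj := by omega, hw1 := by omega, hw := by omega, typ := S.typ3, top := S.top3
      sum_b := S.sum3
      hK := by omega
      rdeep := fun C _ hx _ h1 h2 h3 h4 => rdeep_of (by omega) (by omega) c2 C hx h1 h2 h3 h4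
      sdeep := fun _ _ _ _ C _ hx _ h1 h3 h4 => sdeep_of (by omega) (by omega) c1 C hx h1 h3 h4 }
  have L := W.lkH (by omega) (by omega) c6 S.unq3 I (hcell _ _ _ W) (hk _ _ _ W S.unq3)
  have hlow : ∀ z x x' : P, Cg z x x' → Sok j x → Sok j x' → j + 1 ≤ lev z →
      ∀ k, k < 3 → nab k z = 2 := by
    intro z x x' h hs hs' hl k hk
    obtain ⟨l1, l2⟩ := h.lev_eq H
    have hend : lev x = j → (Win.uc x).card = 1 := fun hh => (K.ends h (by omega)).1
    have hend' : lev x' = j → (Win.uc x').card = 1 := fun hh => (K.ends h (by omega)).2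
    rw [h.sum H (by omega), K.low_one h12 h.only (by omega) hend hs (by omega),
      K.low_one h12 h.only' (by omega) hend' hs' (by omega)]
  have hpen : OnePen P j (fun t => 2 ≤ hi t 3 - lo t 3 + 1) ∨ ∃ z : P, Hul.Jn z ∧
      ful 3 z ≤ (j + 1 - 3) ^ 2 + 5 * (j - 3) := by
    rcases K.pen_or with h | ⟨hodd, z, x, x', h1, h2, h3, h4⟩
    · left
      intro e e' p p' hB
      refine h e e' p p' ?_
      rcases shape_cases (K.comp (topOf e)) (by omega) (K.shape (topOf e)) with h | h | ⟨a, h, h3⟩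
      · have := h 3 (by omega)
        omega
      · exact h
      · have h4 := h.four (by omega)
        have e1 := h.low 3 (by omega)
        omega
    · right
      have hs : Sok j x := ⟨fun hf => by
        have := hf.1
        have := (h1.lev_eq H).1
        omega, fun _ hf => by
        have := hf.2.1
        omega⟩
      have hs' : Sok j x' := ⟨fun hf => by
        have := hf.1
        have := (h1.lev_eq H).2
        omega, fun _ hf => by
        have := hf.2.1
        omega⟩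
      exact ⟨z, h1.jn, K.cheap (w := 3) (by omega) hodd hE h0 (hb hodd) h1 h2 h3 h4
        (hlow z x x' h1 hs hs' h2.ge)⟩
  obtain ⟨V, M, h⟩ := W.winBH (by omega) (fun _ => h12) (by omega) L h16 (cT := (cT : ℤ))
    (lb := lb) (by push_cast; ring) (by exact_mod_cast c7) hl0 hlE hlO hlow hpen hJ
  exact ⟨V, M, W, h⟩

end Pool.Agent.GaussPoset.Sm

end

/-! From `Pool.Agent.W_448s7_h27.PoB` -/

section

/-!
# Twins whose ancestor levels have at most two elements, bounded by one window (MP_448cb3_co, S7)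
-/

namespace Pool.Agent.GaussPoset.Sm

set_option linter.unusedSectionVars false

open Polynomial Finset W4 Cp

universe u

variable {P : Type u} [Fintype P] [PartialOrder P] [DecidableEq P] {r j w K0 : ℕ}
  {N : Tops P → Finset P} {b : Tops P → ℕ} {θ : Tops P → P → ℕ}

/-- an element with at most two ancestors on each level -/
lemma ful_le_sq {x : P} {a : ℕ} (hl : lev x = w + a)
    (hn : ∀ k, w ≤ k → k < lev x → nab k x ≤ 2) : ful w x ≤ a ^ 2 := by
  have h1 : ful w x = ∑ n ∈ range (a + 1), n * nab (w + n) x := by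
    unfold ful
    rw [hl, add_assoc, Finset.sum_range_add]
    have h2 : ∑ k ∈ range w, (k - w) * nab k x = 0 := by
      refine Finset.sum_eq_zero fun k hk => ?_
      rw [mem_range] at hk
      rw [Nat.sub_eq_zero_of_le hk.le, zero_mul]
    rw [h2, zero_add]
    refine Finset.sum_congr rfl fun n _ => ?_
    rw [Nat.add_sub_cancel_left]
  have h3 : nab (w + a) x = 1 := by rw [← hl]; exact nab_self
  rw [h1, Finset.sum_range_succ, h3]
  have h4 : ∑ n ∈ range a, n * nab (w + n) x ≤ ∑ n ∈ range a, n * 2 := by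
    refine Finset.sum_le_sum fun n hn' => ?_
    rw [mem_range] at hn'
    exact Nat.mul_le_mul_left _ (hn _ (by omega) (by omega))
  rw [← Finset.sum_mul, Finset.sum_range_id_mul_two] at h4
  rcases Nat.eq_zero_or_pos a with h0 | h0
  · subst h0
    simpa using h4
  · obtain ⟨d, rfl⟩ : ∃ d, a = d + 1 := ⟨a - 1, by omega⟩
    rw [Nat.add_sub_cancel] at h4
    have : (d + 1) ^ 2 = (d + 1) * d + (d + 1) := by ring
    omega

/-- cells of a chart with the same ancestors -/
lemma chart_up_eq {t : P} {S : ℕ × ℕ → Prop} (hS : ∀ a c, S (a + 1, c) → S (a, c)) {Nc : Finset P}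
    {co : P → ℕ × ℕ} (C : Chart t S Nc co) {x x' : P} (hx : x ∈ Nc) (hx' : x' ∈ Nc)
    (hup : ∀ u, x < u ↔ x' < u) (h1 : 1 ≤ (co x).1) (h1' : 1 ≤ (co x').1) : x = x' := by
  have key : ∀ x x' : P, x ∈ Nc → x' ∈ Nc → (∀ u, x < u ↔ x' < u) → 1 ≤ (co x).1 →
      ¬ (co x).1 < (co x').1 := by
    intro x x' hx hx' hup h1 hlt
    have e1 := C.lev x hx
    have e2 := C.lev x' hx'
    have e3 : lev x = lev x' := lev_eq_of_up hup
    have hm := C.mem x hx
    obtain ⟨a, ha⟩ : ∃ a, (co x).1 = a + 1 := ⟨(co x).1 - 1, by omega⟩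
    have hm' : S (a, (co x).2) := by
      apply hS
      rw [← ha]
      exact hm
    obtain ⟨u, hu, hcu⟩ := C.low x hx (a, (co x).2) ⟨by simp only; omega, le_rfl⟩ hm'
    have h2 : x ≤ u := (C.le_iff x hx u hu).mpr (by
      rw [hcu]
      exact ⟨by simp only; omega, le_rfl⟩)
    have h3 : x < u := lt_of_le_of_ne h2 (by
      rintro rfl
      rw [hcu] at ha
      simp only at ha
      omega)
    have h4 := (C.le_iff x' hx' u hu).mp ((hup u).mp h3).le
    rw [hcu] at h4
    have h5 : (co x).2 ≤ (co x').2 := h4.2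
    omega
  have e1 := C.lev x hx
  have e2 := C.lev x' hx'
  have e3 : lev x = lev x' := lev_eq_of_up hup
  have h2 := key x x' hx hx' hup h1
  have h3 := key x' x hx' hx (fun u => (hup u).symm) h1'
  exact C.inj x hx x' hx' (Prod.ext (by omega) (by omega))

/-- the natural elements which are not straight have different ancestors -/
theorem Wk.nat_up_inj (W : Wk r j w K0 N b θ) (L : Unq P w b) {x x' : P} (hx : x ∉ unnat N)
    (hx' : x' ∉ unnat N) (hup : ∀ u, x < u ↔ x' < u) (hl : j ≤ lev x) (h2 : nab w x ≠ 1) :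
    x = x' := by
  have HN := W.natSys
  have hj := W.hj
  have hw := W.hw
  have e0 : lev x = lev x' := lev_eq_of_up hup
  have hxt : x ∈ N (topOf x) := HN.mem_iff.mpr ⟨hx, rfl⟩
  have hxt' : x' ∈ N (topOf x') := HN.mem_iff.mpr ⟨hx', rfl⟩
  have hne : x ≠ (topOf x : P) := by
    intro h
    have h3 : lev (topOf x : P) = 0 := (topOf x).2
    rw [← h] at h3
    omega
  have htop : topOf x = topOf x' := by
    have h3 : x < (topOf x : P) := lt_of_le_of_ne (le_topOf x) hne
    have h4 : x' ≤ (topOf x : P) := ((hup _).mp h3).le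
    exact Subtype.ext (HN.top_eq hxt' (topOf x).2 h4)
  have h2' : nab w x' ≠ 1 := by
    rw [← nab_congr_up (x := x') (y := x) (fun v => hup v) (by omega)]
    exact h2
  have hth : ∀ y : P, y ∉ unnat N → j ≤ lev y → nab w y ≠ 1 →
      1 ≤ w ∧ θ (topOf y) y + 1 ≤ lev y - w := by
    intro y hy hly hny
    rcases W.cases hy hly with h | h | h
    · exact absurd (W.str_nab L hy h hly) hny
    · exact ⟨h.one_le, h.th.le⟩
    · exact ⟨h.one_le, h.th⟩
  obtain ⟨hw1, t1⟩ := hth x hx hl h2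
  obtain ⟨-, t2⟩ := hth x' hx' (by omega) h2'
  rw [← htop] at t2 hxt'
  generalize topOf x = t at hxt hxt' t1 t2
  rcases W.typ t with ⟨g1, g2, g3, g5⟩ | ⟨Nc, co, h0, g1, g2, g4⟩ |
    ⟨Nc, co, h0, g1, g2, g3, g4, g5'⟩
  · exfalso
    rw [g2] at t1
    simp only at t1
    omega
  · have key : ∀ y : P, y ∈ N t → w + 5 ≤ lev y → θ t y + 1 ≤ lev y - w →
        y ∈ Nc ∧ 1 ≤ (co y).1 := by
      intro y hy hly hty
      rw [g1] at hy
      rw [g2] at hty
      by_cases hJ : y ∈ junk (fun _ => True) Nc co ∨ y ∈ junk (fun _ => True) Nc (swp co)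
      · exfalso
        unfold thR at hty
        rw [if_pos hJ] at hty
        omega
      · have hyN : y ∈ Nc := by
          rw [mem_natR] at hy
          rcases hy with h | h | h
          · exact h
          · exact absurd (Or.inl h) hJ
          · exact absurd (Or.inr h) hJ
        have := rect_th7 h0 hw hyN hJ hly
        exact ⟨hyN, by omega⟩
    obtain ⟨a1, a2⟩ := key x hxt (by omega) t1
    obtain ⟨b1, b2⟩ := key x' hxt' (by omega) t2
    exact chart_up_eq (fun _ _ _ => trivial) h0.chart a1 b1 hup a2 b2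
  · have key : ∀ y : P, y ∈ N t → w + 5 ≤ lev y → θ t y + 1 ≤ lev y - w →
        y ∈ Nc ∧ 1 ≤ (co y).1 := by
      intro y hy hly hty
      rw [g1] at hy
      rw [g2] at hty
      by_cases hJ : y ∈ junk (fun c => c.1 ≤ c.2) Nc co
      · exfalso
        unfold thS at hty
        rw [if_pos hJ] at hty
        omega
      · have hyN : y ∈ Nc := by
          rw [mem_natS] at hy
          rcases hy with h | h
          · exact h
          · exact absurd h hJ
        have := stair_th7 h0 hw g4 hyN hJ hly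
        exact ⟨hyN, by omega⟩
    obtain ⟨a1, a2⟩ := key x hxt (by omega) t1
    obtain ⟨b1, b2⟩ := key x' hxt' (by omega) t2
    exact chart_up_eq (fun a c h => by simp only at h ⊢; omega) h0.chart a1 b1 hup a2 b2

/-- **a twin with at most two ancestors on each level bounds the least raised cost** -/
theorem Wk.twin_le (W : Wk r j w K0 N b θ) (L : Unq P w b) {v : ℕ} (M : MnS j w N b θ v)
    {x x' : P} {a : ℕ} (hne : x ≠ x') (hup : ∀ u, x < u ↔ x' < u) (hl : lev x = w + a)
    (hj : j < lev x) (hn : ∀ k, w ≤ k → k < lev x → nab k x ≤ 2) (h2 : nab w x ≠ 1) :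
    v + 1 ≤ a ^ 2 + a := by
  have hj6 := W.hj
  have hw := W.hw
  have key : ∀ y y' : P, (∀ u, y < u ↔ y' < u) → lev y = w + a → (∀ k, w ≤ k → k < lev y →
      nab k y ≤ 2) → y ∈ unnat N → v + 1 ≤ a ^ 2 + a := by
    intro y y' hy hly hny hyu
    by_cases hyt : y ∈ twA N
    · have T := W.twn hyt
      have e0 := W.twSys.up y hyt
      have el : lev (twT N y) = lev y := lev_eq_of_up e0
      have en : ∀ k, k < lev y → nab k (twT N y) = nab k y := fun k hk => nab_congr_up e0 hk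
      have hns : ¬ Spc j w N b θ (twT N y) := by
        rintro ⟨Nc, co, C⟩
        have h3 := C.nab (by omega) (k := 4) (by omega)
        have h4 := en 4 (by omega)
        have h5 := hny 4 (by omega) (by omega)
        omega
      have h3 := M.tw y hyt
      unfold tcS at h3
      rw [if_neg hns, tcst_cst T] at h3
      simp only at h3
      have h4 := cst_le_ful w (fun _ => thA N θ (twT N y) + 1) (twT N y)
      have h5 := ful_le_sq (w := w) (x := twT N y) (a := a) (by omega) (fun k hk hk2 => by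
        rw [en k (by omega)]
        exact hny k hk (by omega))
      have h6 := T.lt
      simp only at h6
      omega
    · have h3 : v ≤ ful w y := min_le_ful (rA_pos W) M.bd (mem_rA.mpr ⟨hyu, hyt⟩)
      have h5 := ful_le_sq (w := w) (x := y) (a := a) hly hny
      omega
  by_cases hx : x ∈ unnat N
  · exact key x x' hup hl hn hx
  · by_cases hx' : x' ∈ unnat N
    · have el : lev x = lev x' := lev_eq_of_up hup
      refine key x' x (fun u => (hup u).symm) (by omega) (fun k hk hk2 => ?_) hx'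
      rw [nab_congr_up (x := x) (y := x') (fun v => (hup v).symm) (by omega)]
      exact hn k hk (by omega)
    · exact absurd (W.nat_up_inj L hx hx' hup hj.le h2) hne

end Pool.Agent.GaussPoset.Sm

end

/-! From `Pool.Agent.W_448s8f_h76.FkG` -/

section

/-!
# The own pair of level `j + 3` at the windows `1` and `w` (MP_448cb3_co, S8, `j = 12`)
-/

namespace Pool.Agent.GaussPoset.Sm

set_option linter.unusedSectionVars false

open Polynomial Finset

universe u

variable {P : Type u} [Fintype P] [PartialOrder P] [DecidableEq P] {r j w K : ℕ}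
  {N : Tops P → Finset P} {b : Tops P → ℕ} {θ : Tops P → P → ℕ}

/-- two covers with one element of level `1` each, two elements above on all levels -/
structure OwP (z : P) : Prop where
  cov : ∃ x x', z ⋖ x ∧ z ⋖ x' ∧ x ≠ x' ∧ nab 1 x = 1 ∧ nab 1 x' = 1
  two : ∀ l, 1 ≤ l → l < lev z → nab l z = 2

/-- such elements are far at the window `1` -/
theorem Wk.owp_far (W : Wk r j 1 K N b θ) (L : Unq P 1 b) {z : P} (hl : j + 1 ≤ lev z)
    (h : OwP z) : z ∈ rA N := by
  classical
  have H := W.gt.H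
  have HN := W.natSys
  have hg := W.gt.good
  have hj := W.hj
  by_contra hcon
  rw [not_mem_rA] at hcon
  obtain ⟨y, hy, hup⟩ : ∃ y, y ∉ unnat N ∧ ∀ v, y < v ↔ z < v := by
    rcases hcon with h1 | h1
    · exact ⟨z, h1, fun v => Iff.rfl⟩
    · exact (mem_twA.mp h1).2
  obtain ⟨x, x', g1, g2, hne, g3, g4⟩ := h.cov
  have hly := lev_eq_of_up hup
  have hyx : y < x := (hup x).mpr g1.1
  have hyx' : y < x' := (hup x').mpr g2.1
  have lx := (H.covBy_iff.mp g1).2
  have lx' := (H.covBy_iff.mp g2).2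
  have hn1 : nab 1 y = 2 := by
    rw [nab_congr_up hup (by omega)]
    exact h.two 1 le_rfl (by omega)
  have hyN : y ∈ N (topOf y) := HN.mem_iff.mpr ⟨hy, rfl⟩
  have hxN : x ∈ N (topOf y) := HN.mem_iff.mpr (W.up hy hyx.le)
  have hxN' : x' ∈ N (topOf y) := HN.mem_iff.mpr (W.up hy hyx'.le)
  generalize topOf y = t at hyN hxN hxN'
  rcases W.typ t with ⟨k1, k2, k3, k5⟩ | ⟨Nc, co, h0, k1, k2, k4⟩ |
    ⟨Nc, co, h0, k1, k2, k3, k4, k5'⟩
  · rw [k1] at hyN
    have : nab 1 y ≤ 1 := by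
      unfold nab
      rw [Finset.card_le_one]
      intro a ha a' ha'
      rw [mem_filter, mem_lv] at ha ha'
      exact L t k3 a a' (onlyB_le (onlyB_up hyN ha.2)) (onlyB_le (onlyB_up hyN ha'.2)) ha.1 ha'.1
    omega
  · have hside1 : ∀ q, Side (fun _ => True) Nc co q → 1 ≤ lev q → nab 1 q = 1 := fun q hq hq1 =>
      hq.nab_one rowT_true h0.chart H hg h0.strip h0.one1 (by omega) hq1
    have hside2 : ∀ q, Side (fun _ => True) Nc (swp co) q → 1 ≤ lev q → nab 1 q = 1 :=
      fun q hq hq1 => hq.nab_one rowT_true h0.chart.swap H hg h0.strip h0.one2 (by omega) hq1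
    rw [k1, mem_natR] at hyN hxN hxN'
    have hyc : y ∈ Nc := by
      rcases hyN with q | q | q
      · exact q
      · have := hside1 y (Or.inl q) (by omega)
        omega
      · have := hside2 y (Or.inl q) (by omega)
        omega
    have hxc := h0.chart.up y hyc x hyx.le
    have hxc' := h0.chart.up y hyc x' hyx'.le
    have l0 := h0.chart.lev y hyc
    have l1 := h0.chart.lev x hxc
    have l2 := h0.chart.lev x' hxc'
    have c1 := (h0.chart.le_iff y hyc x hxc).mp hyx.le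
    have c2 := (h0.chart.le_iff y hyc x' hxc').mp hyx'.le
    have r1 := rect_nab h0.chart hxc (k := 1) (by omega)
    have r2 := rect_nab h0.chart hxc' (k := 1) (by omega)
    have r0 := rect_nab h0.chart hyc (k := 1) (by omega)
    rw [Prod.le_def] at c1 c2
    have hne' : co x ≠ co x' := fun hh => hne (h0.chart.inj x hxc x' hxc' hh)
    have hne2 : (co x).1 ≠ (co x').1 ∨ (co x).2 ≠ (co x').2 := by
      by_contra hh
      push Not at hh
      exact hne' (Prod.ext hh.1 hh.2)
    omega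
  · omega

/-- the least cost at the window `1` is at most the full cost of such an element -/
theorem Wk.owp_min (W : Wk r j 1 K N b θ) (L : Unq P 1 b) {v : ℕ} (M : Mn j 1 N θ v) {z : P}
    (hl : j + 1 ≤ lev z) (h : OwP z) : v ≤ (lev z - 1) ^ 2 := by
  have hpos : ∀ x ∈ rA N, 0 < lev x := fun x hx => by
    have := W.lt_lev (mem_rA.mp hx).1
    omega
  have h1 := min_le_ful (i := 1) hpos M.bd (W.owp_far L hl h)
  rwa [ful_two (a := lev z - 1) (by omega) (fun k hk1 hk2 => h.two k hk1.le hk2)] at h1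

/-- straight covers below one top: the own pair -/
theorem Wk.own_owp (W : Wk r j w K N b θ) {z : P} (hz : z ∈ bdR (rA N))
    (hF : ∀ x, z ⋖ x → x ∉ unnat N ∧ Str w N θ x) {t : Tops P}
    (ht : ∀ x, z ⋖ x → topOf x = t) :
    (∃ x x', z ⋖ x ∧ z ⋖ x' ∧ x ≠ x' ∧ nab 1 x = 1 ∧ nab 1 x' = 1) ∧
      (∀ k, 1 ≤ k → k ≤ j → nab k z = 2) ∧ nab (lev z - 1) z = 2 ∧
      ∀ k, 1 ≤ k → k < lev z → 2 ≤ nab k z := by
  classical
  have H := W.gt.H
  have HN := W.natSys
  have hg := W.gt.good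
  have hj := W.hj
  have hw := W.hw
  have hlz := W.bd_lev hz
  have hzu := (mem_rA.mp (mem_bdR.mp hz).1).1
  obtain ⟨x, hzx, -⟩ := Hul.exists_cov (w := z) (v := (topOf z : P))
    (lt_of_le_of_ne (le_topOf z) (by
      intro h
      have := (topOf z).2
      rw [← h] at this
      omega))
  have hzN := mem_unnat.mp hzu t
  have hin : ∀ x, z ⋖ x → x ∈ N t ∧ θ t x = lev x - w ∧ lev z = lev x + 1 := by
    intro x hx
    refine ⟨HN.mem_iff.mpr ⟨(hF x hx).1, ht x hx⟩, ?_, (H.covBy_iff.mp hx).2⟩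
    rw [← ht x hx]
    exact (hF x hx).2.th
  have hxx := hin x hzx
  rcases W.typ t with ⟨g1, g2, g3, g5⟩ | ⟨Nc, co, h0, g1, g2, g4⟩ |
    ⟨Nc, co, h0, g1, g2, g3, g4, g5'⟩
  · exfalso
    apply hzN
    rw [g1, mem_onlyB]
    intro s hs hzs
    have hzs' : z < s := lt_of_le_of_ne hzs (by rintro rfl; omega)
    obtain ⟨u, hu, hus⟩ := Hul.exists_cov hzs'
    have h1 := (hin u hu).1
    rw [g1, mem_onlyB] at h1
    exact h1 s hs hus
  · rw [g1] at hzN
    have hside : ∀ x, z ⋖ x → Side (fun _ => True) Nc co x ∨ Side (fun _ => True) Nc (swp co) x := by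
      intro x hx
      obtain ⟨a1, a2, a3⟩ := hin x hx
      rw [g1] at a1
      rw [g2] at a2
      exact rect_str7 h0 hw a1 (by omega) a2
    have key : ∀ y y' : P, z ⋖ y → z ⋖ y' → y ≠ y' → Side (fun _ => True) Nc co y →
        Side (fun _ => True) Nc (swp co) y' →
        (∃ x x', z ⋖ x ∧ z ⋖ x' ∧ x ≠ x' ∧ nab 1 x = 1 ∧ nab 1 x' = 1) ∧
        (∀ k, 1 ≤ k → k ≤ j → nab k z = 2) ∧ nab (lev z - 1) z = 2 ∧
        ∀ k, 1 ≤ k → k < lev z → 2 ≤ nab k z := by
      intro y y' hy hy' hne sy sy'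
      have ly := (H.covBy_iff.mp hy).2
      have ly' := (H.covBy_iff.mp hy').2
      have hsum := fun {k : ℕ} (hk : 1 ≤ k) (hkz : k < lev z) =>
        nab_two_sides H h0 sy sy' hy hy' hk hkz
      have n1 : ∀ k, k ≤ j → nab k y = 1 := fun k hk =>
        sy.nab_one rowT_true h0.chart H hg h0.strip h0.one1 hk (by omega)
      have n2 : ∀ k, k ≤ j → nab k y' = 1 := fun k hk =>
        sy'.nab_one rowT_true h0.chart.swap H hg h0.strip h0.one2 hk (by omega)
      refine ⟨⟨y, y', hy, hy', hne, n1 1 (by omega), n2 1 (by omega)⟩, fun k hk1 hk2 => ?_, ?_,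
        fun k hk1 hk2 => ?_⟩
      · rw [hsum hk1 (by omega), n1 k hk2, n2 k hk2]
      · rw [hsum (k := lev z - 1) (by omega) (by omega)]
        have e1 : nab (lev z - 1) y = 1 := by
          rw [show lev z - 1 = lev y by omega]
          exact nab_self
        have e2 : nab (lev z - 1) y' = 1 := by
          rw [show lev z - 1 = lev y' by omega]
          exact nab_self
        rw [e1, e2]
      · rw [hsum hk1 hk2]
        have := one_le_nab (l := k) (z := y) (by omega)
        have := one_le_nab (l := k) (z := y') (by omega)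
        omega
    by_cases honly : ∀ y, z ⋖ y → y = x
    · exfalso
      obtain ⟨a1, a2, a3, a4, a5⟩ := rect_pendant H h0 g1 hzu hxx.1 hzx honly
      rcases hside x hzx with h | h
      · rcases h with h | h
        · exact a2 h
        · have := h.2
          omega
      · rcases h with h | h
        · exact a3 h
        · have := h.2
          rw [swp_fst] at this
          omega
    · push Not at honly
      obtain ⟨x', hzx', hne'⟩ := honly
      have hne : x ≠ x' := Ne.symm hne'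
      have hxx' := hin x' hzx'
      have huni := uc_two_of H hzx hzx' hne
      rcases hside x hzx with h | h
      · rcases hside x' hzx' with h' | h'
        · exact absurd (mem_natR.mpr (Or.inr (Or.inl
            (junk_of_sides rowT_true h0.chart h0.one1 h h' hne (by omega) huni hzx)))) hzN
        · exact key x x' hzx hzx' hne h h'
      · rcases hside x' hzx' with h' | h'
        · exact key x' x hzx' hzx hne.symm h' h
        · exact absurd (mem_natR.mpr (Or.inr (Or.inr
            (junk_of_sides rowT_true h0.chart.swap h0.one2 h h' hne (by omega) huni hzx)))) hzN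
  · exfalso
    rw [g1] at hzN
    have hside : ∀ x, z ⋖ x → Side (fun c => c.1 ≤ c.2) Nc co x := by
      intro x hx
      obtain ⟨a1, a2, a3⟩ := hin x hx
      rw [g1] at a1
      rw [g2] at a2
      exact stair_str7 h0 hw g4 a1 (by omega) a2
    by_cases honly : ∀ y, z ⋖ y → y = x
    · obtain ⟨a1, a2, a3⟩ := stair_pendant H h0 (by omega) g1 hzu hxx.1 hzx honly
      rcases hside x hzx with h | h
      · exact a2 h
      · have := h.2
        omega
    · push Not at honly
      obtain ⟨x', hzx', hne'⟩ := honly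
      have hne : x ≠ x' := Ne.symm hne'
      have hxx' := hin x' hzx'
      have huni := uc_two_of H hzx hzx' hne
      exact hzN (mem_natS.mpr (Or.inr (junk_of_sides rowT_shift h0.chart (h0.one1 g4)
        (hside x hzx) (hside x' hzx') hne (by omega) huni hzx)))

/-- the own pair with the cost `(j + 3 - w) ^ 2` -/
theorem Wk.own_owp2 (W : Wk r j w K N b θ) {z : P} (hz : z ∈ bdR (rA N))
    (hh : hA N θ z = lev z - w) (hc : cst w (hA N θ) z = (j + 3 - w) ^ 2)
    (hF : ∀ x, z ⋖ x → x ∉ unnat N ∧ Str w N θ x) {t : Tops P}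
    (ht : ∀ x, z ⋖ x → topOf x = t) : OwP z ∧ lev z = j + 3 := by
  obtain ⟨h1, h2, h3, h4⟩ := W.own_owp hz hF ht
  have hj := W.hj
  have hw := W.hw
  have hw1 := W.hw1
  have hlz := W.bd_lev hz
  have hful : ful w z = (j + 3 - w) ^ 2 := by
    rw [← hc]
    exact (cst_eq_ful (by omega)).symm
  obtain ⟨c, hcz⟩ : ∃ c, lev z = w + c := ⟨lev z - w, by omega⟩
  have hlow : c ^ 2 ≤ ful w z := by
    have := ful_ge (w := w) (z := z) (c := c) (fun _ => 0) hcz (fun n hn1 hn2 => h4 _ (by omega)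
      (by omega))
    simpa using this
  have hlt : lev z ≤ j + 3 := by
    by_contra hcon
    have h5 : (j + 3 - w + 1) ^ 2 ≤ c ^ 2 := Nat.pow_le_pow_left (by omega) 2
    have h6 : (j + 3 - w + 1) ^ 2 = (j + 3 - w) ^ 2 + 2 * (j + 3 - w) + 1 := by ring
    omega
  have hl3 : lev z = j + 3 := by
    by_contra hcon
    have h5 : ful w z = c ^ 2 := ful_two hcz fun k hk1 hk2 => by
      rcases Nat.lt_or_ge k (j + 1) with h6 | h6
      · exact h2 k (by omega) (by omega)
      · rw [show k = lev z - 1 by omega]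
        exact h3
    have h6 : c ^ 2 < (j + 3 - w) ^ 2 := Nat.pow_lt_pow_left (by omega) (by norm_num)
    omega
  refine ⟨⟨h1, fun l hl1 hl2 => ?_⟩, hl3⟩
  rcases Nat.lt_or_ge l (j + 1) with h6 | h6
  · exact h2 l hl1 (by omega)
  · rcases Nat.lt_or_ge l (j + 2) with h7 | h7
    · have hl : l = j + 1 := by omega
      have h8 := ful_ge (w := w) (z := z) (c := c) (fun n => if n = j + 1 - w then
        nab (j + 1) z - 2 else 0) hcz (fun n hn1 hn2 => by
          split_ifs with h9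
          · rw [h9, show w + (j + 1 - w) = j + 1 by omega]
            have := h4 (j + 1) (by omega) (by omega)
            omega
          · exact h4 _ (by omega) (by omega))
      rw [Finset.sum_eq_single (j + 1 - w) (fun n _ hn => by rw [if_neg hn, mul_zero])
        (fun hn => absurd (mem_range.mpr (by omega)) hn), if_pos rfl, hful,
        show c = j + 3 - w by omega] at h8
      have h9 : (j + 1 - w) * (nab (j + 1) z - 2) = 0 := by omega
      rcases mul_eq_zero.mp h9 with h10 | h10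
      · omega
      · have := h4 (j + 1) (by omega) (by omega)
        rw [hl]
        omega
    · rw [show l = lev z - 1 by omega]
      exact h3

end Pool.Agent.GaussPoset.Sm

end
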