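import Mathlib
import Pool.Agent.W_448zz_h61.Ns
import Pool.Agent.W_448zz_h61.M102
import Pool.Agent.W_448zz_h61.M132

/-! From `Pool.Agent.W_448pg_h74.WsA` -/

section

/-!
# The windows `2`, `3`: the deep cells by a finite check (MP_448cb3_co, S7)
-/

namespace Pool.Agent.GaussPoset.Sm

set_option linter.unusedSectionVars false

open Finset Wd

universe u

variable {P : Type u} [Fintype P] [PartialOrder P] [DecidableEq P] {r j w K0 K y : ℕ}
  {N : Tops P → Finset P} {b : Tops P → ℕ} {θ : Tops P → P → ℕ} {LE LO : List ℤ}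

/-- ancestors of the cell `(a, L - a)` of a stair on the level `k` -/
def stAb (L a k : ℕ) : ℕ := min (k / 2) a + 1 - (k - (L - a))

/-- ancestors of the cell `(a, L - a)` of a rectangle on the level `k` -/
def reAb (L a k : ℕ) : ℕ := min k a + 1 - (k - (L - a))

/-- the label below the cell `(a, L - a)` of a rectangle -/
def reH (w L a : ℕ) : ℕ := L - w + 1 - min (min a (L - a)) w

/-- cost of a pendant with the label `h` from the numbers `f` of ancestors -/
def cC (w L h : ℕ) (f : ℕ → ℕ) : ℕ := ∑ n ∈ range (L - w + 1), min h n * f (w + n)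

/-- the parity of a pendant with the label `h` from the numbers `f` of ancestors -/
def nC (w h : ℕ) (f : ℕ → ℕ) : ℕ := ∑ n ∈ range h, f (w + n)

/-- an admissible value, by lists relative to `y ^ 2` -/
def OkN (y K : ℕ) (LE LO : List ℤ) (n u : ℕ) : Prop :=
  K < u ∨ (n % 2 = 0 ∧ ((u : ℤ) - (y : ℤ) ^ 2) ∈ LE) ∨ (n % 2 = 1 ∧ ((u : ℤ) - (y : ℤ) ^ 2) ∈ LO)

instance (y K : ℕ) (LE LO : List ℤ) (n u : ℕ) : Decidable (OkN y K LE LO n u) := by
  unfold OkN
  infer_instance

lemma OkN.okv {n u : ℕ} (h : OkN y K LE LO n u) : Okv K (XL y LE) (XL y LO) n u := by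
  rcases h with h | h | h
  · exact Or.inl h
  · exact Or.inr (Or.inl ⟨Nat.even_iff.mpr h.1, h.2⟩)
  · exact Or.inr (Or.inr ⟨Nat.odd_iff.mpr h.1, h.2⟩)

/-- the numbers of a cheap deep cell -/
def ChN (w L K y : ℕ) (LE LO : List ℤ) (h : ℕ) (f : ℕ → ℕ) : Prop :=
  h < L - w ∧ f w = f (w + h) + 1 ∧ OkN y K LE LO (nC w h f) (cC w L h f + h) ∧
    OkN y K LE LO (nC w h f) (cC w L h f + h - 1) ∧ K < cC w L h f + h + h

instance (w L K y : ℕ) (LE LO : List ℤ) (h : ℕ) (f : ℕ → ℕ) :
    Decidable (ChN w L K y LE LO h f) := by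
  unfold ChN
  infer_instance

/-- the numbers of a special cell -/
def SpN (j w K y : ℕ) (LE LO : List ℤ) : Prop :=
  OkN y K LE LO (nC w (j - w + 1) (stAb (j + 1) 2))
    (cC w (j + 1) (j - w + 1) (stAb (j + 1) 2) + (j - w + 1)) ∧
  OkN y K LE LO (nC w (j - w + 1) (stAb (j + 1) 2))
    (cC w (j + 1) (j - w + 1) (stAb (j + 1) 2) + (j - w)) ∧
  K < stC w (j + 1) 2 + (j - w)

instance (j w K y : ℕ) (LE LO : List ℤ) : Decidable (SpN j w K y LE LO) := by
  unfold SpN
  infer_instance

/-- **the finite check** for the deep cells of level at least `j + 1` -/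
structure NumS (j w K : ℕ) (LE LO : List ℤ) : Prop where
  s1 : ∀ a ∈ Finset.Icc 3 ((j + 1) / 2), K + 1 < stC w (j + 1) a ∨
    ChN w (j + 1) K (j + 1 - w) LE LO (j - w) (stAb (j + 1) a)
  r1 : ∀ a ∈ Finset.Icc 2 (j - 1), K + 1 < reC w (j + 1) a ∨
    ChN w (j + 1) K (j + 1 - w) LE LO (reH w (j + 1) a) (reAb (j + 1) a)
  sp : K + 1 < stC w (j + 1) 2 ∨ SpN j w K (j + 1 - w) LE LO
  s2 : ∀ a ∈ Finset.Icc 2 ((j + 1 + 1) / 2), K + 1 < stC w (j + 1 + 1) a
  r2 : ∀ a ∈ Finset.Icc 2 (j + 1 - 1), K + 1 < reC w (j + 1 + 1) a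

section Cell

variable {x : P}

/-- a cell with the ancestors `f` and cheap numbers is cheap -/
lemma ChN.cheap {L h : ℕ} {f : ℕ → ℕ} (hC : ChN w L K y LE LO h f) (hl : lev x = L)
    (hf : ∀ k ≤ L, nab k x = f k) (hth : θ (topOf x) x + 1 = h) :
    Cheap w K (XL y LE) (XL y LO) θ x := by
  obtain ⟨h1, h2, h3, h4, h5⟩ := hC
  have e1 : cst w (fun _ => h) x = cC w L h f := by
    rw [cst_shift (i := w) (a := L - w) (by omega)]
    unfold cC
    refine Finset.sum_congr rfl fun n hn => ?_
    rw [mem_range] at hn
    rw [hf _ (by omega)]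
  have e2 : nst w (fun _ => h) x = nC w h f := by
    rw [nst_eq]
    unfold nC
    refine Finset.sum_congr rfl fun n hn => ?_
    rw [mem_range] at hn
    rw [hf _ (by omega)]
  have e3 : C1 w θ x = cC w L h f + h := by
    unfold C1
    rw [hth, e1]
  refine ⟨by omega, ?_, ?_, ?_, ?_⟩
  · rw [hth, hf _ (by omega), hf _ (by omega)]
    exact h2
  · rw [hth, e2, e3]
    exact h3.okv
  · rw [hth, e2, e3]
    exact h4.okv
  · rw [e3, hth]
    exact h5

/-- the numbers of a special cell -/
lemma SpN.spOK (hS : SpN j w K y LE LO) (hw : w ≤ j) (hl : lev x = j + 1)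
    (hf : ∀ k ≤ j + 1, nab k x = stAb (j + 1) 2 k) (hth : θ (topOf x) x + 1 = j - w) :
    SpOK j w K (XL y LE) (XL y LO) θ x := by
  obtain ⟨h1, h2, h3⟩ := hS
  have e1 : ∀ h, cst w (fun _ => h) x = cC w (j + 1) h (stAb (j + 1) 2) := by
    intro h
    rw [cst_shift (i := w) (a := j + 1 - w) (by omega)]
    unfold cC
    refine Finset.sum_congr rfl fun n hn => ?_
    rw [mem_range] at hn
    rw [hf _ (by omega)]
  have e2 : nst w (fun _ => j - w + 1) x = nC w (j - w + 1) (stAb (j + 1) 2) := by
    rw [nst_eq]
    unfold nC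
    refine Finset.sum_congr rfl fun n hn => ?_
    rw [mem_range] at hn
    rw [hf _ (by omega)]
  refine ⟨?_, ?_, ?_⟩
  · rw [e2, e1]
    exact h1.okv
  · rw [e2, e1]
    exact h2.okv
  · unfold C1
    rw [hth, e1]
    unfold stC at h3
    unfold cC
    have e3 : j + 1 - w - 1 = j - w := by omega
    rw [e3] at h3
    exact h3

end Cell

end Pool.Agent.GaussPoset.Sm

end

/-! From `Pool.Agent.W_448pg_h74.WsB` -/

section

/-!
# The windows `2`, `3`: the classification of the deep cells (MP_448cb3_co, S7)
-/

namespace Pool.Agent.GaussPoset.Sm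

set_option linter.unusedSectionVars false

open Finset Wd

universe u

variable {P : Type u} [Fintype P] [PartialOrder P] [DecidableEq P] {r j w K0 K y : ℕ}
  {N : Tops P → Finset P} {b : Tops P → ℕ} {θ : Tops P → P → ℕ} {LE LO : List ℤ}

/-- **the deep cells**, the cells of row `1` apart -/
theorem Wk.cellsR (W : Wk r j w K0 N b θ) (hw2 : 2 ≤ w) (n : NumS j w K LE LO) {x : P}
    (hx : x ∉ unnat N) (hlx : j + 1 ≤ lev x) (hD : Dk j w K0 N θ x) :
    Row1 j w N θ x ∨ K + 1 < C1 w θ x ∨
      Cheap w K (XL (j + 1 - w) LE) (XL (j + 1 - w) LO) θ x ∨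
      (Spc j w N b θ x ∧ SpOK j w K (XL (j + 1 - w) LE) (XL (j + 1 - w) LO) θ x) := by
  have H := W.gt.H
  have HN := W.natSys
  have hxt : x ∈ N (topOf x) := HN.mem_iff.mpr ⟨hx, rfl⟩
  have hj := W.hj
  have hw := W.hw
  have hT := W.typ (topOf x)
  have hDt := hD.th
  generalize ht : topOf x = t at hxt hT hDt
  rcases hT with ⟨h1, h2, h3, h5⟩ | ⟨Nc, co, h0, h1, h2, h4⟩ |
    ⟨Nc, co, h0, h1, h2, h3, h4, h5'⟩
  · rw [h2] at hDt
    simp only at hDt
    omega
  · have e1 := h0.b_two
    have e2 := h0.b_le
    have hxN' : x ∈ natR Nc co := by rw [← h1]; exact hxt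
    by_cases hJ : x ∈ junk (fun _ => True) Nc co ∨ x ∈ junk (fun _ => True) Nc (swp co)
    · rw [h2] at hDt
      unfold thR at hDt
      rw [if_pos hJ] at hDt
      omega
    · have hxN : x ∈ Nc := by
        rw [mem_natR] at hxN'
        rcases hxN' with h | h | h
        · exact h
        · exact absurd (Or.inl h) hJ
        · exact absurd (Or.inr h) hJ
      have hl := h0.chart.lev x hxN
      have hth := rect_th7 h0 hw hxN hJ (by omega)
      by_cases h7 : (co x).1 = 0 ∨ (co x).2 = 0
      · rw [h2] at hDt
        omega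
      · by_cases h8 : (co x).1 = 1 ∨ (co x).2 = 1
        · left
          refine ⟨by omega, chart_inner_uc h0.chart H hxN (by omega) (by omega), ?_, ?_, ?_, ?_⟩
          · intro hlx'
            omega
          · rw [ht, h2]; omega
          · intro k hk hkx
            have := rect_nab h0.chart hxN (k := k) (by omega)
            omega
          · exact hD.mono
        · right
          have hth' : θ (topOf x) x + 1 = lev x - w + 1 - min (min (co x).1 (co x).2) w := by
            rw [ht, h2]; omega
          rcases Nat.lt_or_ge (j + 1) (lev x) with hgt | hle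
          · left
            unfold C1
            exact rdeep_of (j := j + 1) (by omega) (by omega) n.r2 h0.chart hxN (by omega)
              (by omega) (by omega) (by omega)
          · have hlx1 : lev x = j + 1 := by omega
            rcases n.r1 (co x).1 (by rw [Finset.mem_Icc]; omega) with h6 | h6
            · left
              have h7 := cst_rect (w := w) (h := θ (topOf x) x + 1) h0.chart hxN hlx1
                (by omega)
              unfold reC at h6
              unfold C1
              rw [h7, show θ (topOf x) x + 1 =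
                j + 1 - w + 1 - min (min (co x).1 (j + 1 - (co x).1)) w by omega]
              exact h6
            · right; left
              refine h6.cheap hlx1 ?_ ?_
              · intro k hk
                have := rect_nab h0.chart hxN (k := k) (by omega)
                unfold reAb
                omega
              · unfold reH
                omega
  · have hxN' : x ∈ natS Nc co := by rw [← h1]; exact hxt
    by_cases hJ : x ∈ junk (fun c => c.1 ≤ c.2) Nc co
    · rw [h2] at hDt
      unfold thS at hDt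
      rw [if_pos hJ] at hDt
      omega
    · have hxN : x ∈ Nc := by
        rw [mem_natS] at hxN'
        rcases hxN' with h | h
        · exact h
        · exact absurd h hJ
      have hl := h0.chart.lev x hxN
      have hm : (co x).1 ≤ (co x).2 := h0.chart.mem x hxN
      have hth := stair_th7 h0 hw h4 hxN hJ (by omega)
      rcases Nat.lt_or_ge (co x).1 1 with h7 | h7
      · rw [h2] at hDt
        omega
      · rcases Nat.lt_or_ge (co x).1 2 with h8 | h8
        · left
          have hd := stair_inner_uc h0.chart H hxN h7 (by omega)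
          refine ⟨by omega, hd, ?_, ?_, ?_, ?_⟩
          · intro hlx'
            omega
          · rw [ht, h2]; omega
          · intro k hk hkx
            have := stair_nab h0.chart hxN (k := k) (by omega)
            omega
          · exact hD.mono
        · right
          have hth' : θ (topOf x) x + 1 = lev x - w - 1 := by
            rw [ht, h2]; omega
          rcases Nat.lt_or_ge (j + 1) (lev x) with hgt | hle
          · left
            unfold C1
            exact sdeep_of (j := j + 1) (by omega) (by omega) n.s2 h0.chart hxN h8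
              (by omega) (by omega)
          · have hlx1 : lev x = j + 1 := by omega
            have hst : K + 1 < stC w (j + 1) (co x).1 → K + 1 < C1 w θ x := by
              intro h6
              have h7 := cst_stair (w := w) (h := θ (topOf x) x + 1) h0.chart hxN hlx1
                (by omega)
              unfold stC at h6
              unfold C1
              rw [h7, show θ (topOf x) x + 1 = j + 1 - w - 1 by omega]
              exact h6
            have hab : ∀ k ≤ j + 1, nab k x = stAb (j + 1) (co x).1 k := by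
              intro k hk
              have := stair_nab h0.chart hxN (k := k) (by omega)
              unfold stAb
              omega
            by_cases ha : 3 ≤ (co x).1
            · rcases n.s1 (co x).1 (by rw [Finset.mem_Icc]; omega) with h6 | h6
              · exact Or.inl (hst h6)
              · right; left
                exact h6.cheap hlx1 hab (by omega)
            · have ha2 : (co x).1 = 2 := by omega
              rw [ha2] at hst hab
              rcases n.sp with h6 | h6
              · exact Or.inl (hst h6)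
              · right; right
                refine ⟨⟨Nc, co, ?_, ?_, ?_, hxN, ?_, ?_⟩, ?_⟩
                · rw [ht]; exact h0
                · rw [ht]; exact h1
                · rw [ht, h3]; omega
                · exact Prod.ext ha2 (by simp only; omega)
                · omega
                · exact h6.spOK (by omega) hlx1 hab (by omega)

end Pool.Agent.GaussPoset.Sm

end

/-! From `Pool.Agent.W_448pg_h74.WsC` -/

section

/-!
# The windows `2`, `3`: the finite checks of the deep cells (MP_448cb3_co, S7)

Values relative to `(j + 1 - w) ^ 2`.  The lists are the values of the pendants and twins which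
are at most the cap: `LE` the even ones, `LO` the odd ones.

The caps are limited: at `j = 11`, `w = 3` an element below the cell `(6, 6)` and its twin has the
value `25` (`w = 2`: `32`) and the cell of row `1` of level `13` has the value `29` (`w = 2`: `32`);
at `j = 13`, `w = 3` an element below `(7, 7)` and its twin has the value `49`; at `j = 12`,
`w = 3` the cell `(6, 7)` has the value `48` without a drop; at `j = 14`, `w = 3` the cell of row
`1` of level `17` has the value `66` (there `Wk.cellsR` still applies).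
-/

namespace Pool.Agent.GaussPoset.Sm

variable {j w K0 K y : ℕ} {LE LO LE' LO' : List ℤ}

lemma OkN.mono {n u : ℕ} (h : OkN y K LE LO n u) (h1 : ∀ v ∈ LE, v ∈ LE')
    (h2 : ∀ v ∈ LO, v ∈ LO') : OkN y K LE' LO' n u := by
  rcases h with h | h | h
  · exact Or.inl h
  · exact Or.inr (Or.inl ⟨h.1, h1 _ h.2⟩)
  · exact Or.inr (Or.inr ⟨h.1, h2 _ h.2⟩)

lemma ChN.mono {L h : ℕ} {f : ℕ → ℕ} (hC : ChN w L K y LE LO h f) (h1 : ∀ v ∈ LE, v ∈ LE')
    (h2 : ∀ v ∈ LO, v ∈ LO') : ChN w L K y LE' LO' h f :=
  ⟨hC.1, hC.2.1, hC.2.2.1.mono h1 h2, hC.2.2.2.1.mono h1 h2, hC.2.2.2.2⟩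

/-! ### `j = 11` -/

/-! ### `j = 12` -/

/-! ### `j = 13` -/

/-! ### `j = 14` -/

/-! ### `j = 15` -/

theorem numS_15_3 : NumS 15 3 (13 ^ 2 + 84) [76, 77] [73, 74, 78, 79] := by
  constructor <;> decide +kernel

/-! ### `j = 16` -/

end Pool.Agent.GaussPoset.Sm

end

/-! From `Pool.Agent.W_448pg_h74.WtB` -/

section

/-!
# The windows `2`, `3`: the classification of the deep cells without twins (MP_448cb3_co, S7)
-/

namespace Pool.Agent.GaussPoset.Sm

set_option linter.unusedSectionVars false

open Finset Wd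

universe u

variable {P : Type u} [Fintype P] [PartialOrder P] [DecidableEq P] {r j w K0 K y : ℕ}
  {N : Tops P → Finset P} {b : Tops P → ℕ} {θ : Tops P → P → ℕ} {LE LO : List ℤ}

/-- the surplus of a second cover: for the fold cell -/
def feC (w j a : ℕ) : ℕ := if 2 * a = j + 1 then fdC w j (j - w) else 0

/-- the numbers of a cheap deep cell without a twin; `e` is the surplus of a second cover -/
def ChM (w L K y : ℕ) (LE LO : List ℤ) (h : ℕ) (f : ℕ → ℕ) (e : ℕ) : Prop :=
  h < L - w ∧ f w = f (w + h) + 1 ∧ OkN y K LE LO (nC w h f) (cC w L h f + h) ∧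
    K < cC w L h f + h + h + e

instance (w L K y : ℕ) (LE LO : List ℤ) (h : ℕ) (f : ℕ → ℕ) (e : ℕ) :
    Decidable (ChM w L K y LE LO h f e) := by
  unfold ChM
  infer_instance

/-- the numbers of a special cell without a twin -/
def SpM (j w K y : ℕ) (LE LO : List ℤ) : Prop :=
  OkN y K LE LO (nC w (j - w + 1) (stAb (j + 1) 2))
    (cC w (j + 1) (j - w + 1) (stAb (j + 1) 2) + (j - w + 1)) ∧
  K < stC w (j + 1) 2 + (j - w)

instance (j w K y : ℕ) (LE LO : List ℤ) : Decidable (SpM j w K y LE LO) := by
  unfold SpM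
  infer_instance

section Cell

variable {x : P}

/-- a cell with the ancestors `f` and cheap numbers is cheap -/
lemma ChM.cheap {L h e : ℕ} {f : ℕ → ℕ} (hC : ChM w L K y LE LO h f e) (hl : lev x = L)
    (hf : ∀ k ≤ L, nab k x = f k) (hth : θ (topOf x) x + 1 = h)
    (htwo : ∀ z y, z ⋖ x → z ⋖ y → y ≠ x → cst w (fun _ => h) x + h + h + e ≤
      cst w (fun _ => h) z) (hN : NTw x) :
    CheapN w K (XL y LE) (XL y LO) θ x := by
  obtain ⟨h1, h2, h3, h5⟩ := hC
  have e1 : cst w (fun _ => h) x = cC w L h f := by
    rw [cst_shift (i := w) (a := L - w) (by omega)]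
    unfold cC
    refine Finset.sum_congr rfl fun n hn => ?_
    rw [mem_range] at hn
    rw [hf _ (by omega)]
  have e2 : nst w (fun _ => h) x = nC w h f := by
    rw [nst_eq]
    unfold nC
    refine Finset.sum_congr rfl fun n hn => ?_
    rw [mem_range] at hn
    rw [hf _ (by omega)]
  have e3 : C1 w θ x = cC w L h f + h := by
    unfold C1
    rw [hth, e1]
  refine ⟨by omega, ?_, ?_, Or.inr hN, Or.inr ⟨hN, ?_⟩⟩
  · rw [hth, hf _ (by omega), hf _ (by omega)]
    exact h2
  · rw [hth, e2, e3]
    exact h3.okv
  · intro z y' hz hy hne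
    have := htwo z y' hz hy hne
    rw [hth]
    omega

/-- the numbers of a special cell -/
lemma SpM.spOK (hS : SpM j w K y LE LO) (hw : w ≤ j) (hl : lev x = j + 1)
    (hf : ∀ k ≤ j + 1, nab k x = stAb (j + 1) 2 k) (hth : θ (topOf x) x + 1 = j - w)
    (hN : NTw x) : SpOKN j w K (XL y LE) (XL y LO) θ x := by
  obtain ⟨h1, h3⟩ := hS
  have e1 : ∀ h, cst w (fun _ => h) x = cC w (j + 1) h (stAb (j + 1) 2) := by
    intro h
    rw [cst_shift (i := w) (a := j + 1 - w) (by omega)]
    unfold cC
    refine Finset.sum_congr rfl fun n hn => ?_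
    rw [mem_range] at hn
    rw [hf _ (by omega)]
  have e2 : nst w (fun _ => j - w + 1) x = nC w (j - w + 1) (stAb (j + 1) 2) := by
    rw [nst_eq]
    unfold nC
    refine Finset.sum_congr rfl fun n hn => ?_
    rw [mem_range] at hn
    rw [hf _ (by omega)]
  refine ⟨?_, Or.inr hN, ?_⟩
  · rw [e2, e1]
    exact h1.okv
  · unfold C1
    rw [hth, e1]
    unfold stC at h3
    unfold cC
    have e3 : j + 1 - w - 1 = j - w := by omega
    rw [e3] at h3
    exact h3

end Cell

/-- the deep cells with twins, the cells of row `1` excluded -/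
theorem Wk.cellsS (W : Wk r j w K0 N b θ) (hw2 : 2 ≤ w) (n : NumS j w K LE LO) :
    CellsN P j w K0 K N b θ (XL (j + 1 - w) LE) (XL (j + 1 - w) LO) := by
  intro x hx hlx hD hR
  rcases W.cellsR hw2 n hx hlx hD with h | h | h | h
  · exact absurd h hR
  · exact Or.inl h
  · exact Or.inr (Or.inl h.toN)
  · exact Or.inr (Or.inr (Or.inl ⟨h.1, h.2.toN⟩))

/-! ### Instances -/

end Pool.Agent.GaussPoset.Sm

end

/-! From `Pool.Agent.W_448pg_h74.WtC` -/

section

/-!
# The windows `2`, `3`: the deep cells, twins excluded at the fold cell only (MP_448cb3_co, S7)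
-/

namespace Pool.Agent.GaussPoset.Sm

set_option linter.unusedSectionVars false

open Finset Wd

universe u

variable {P : Type u} [Fintype P] [PartialOrder P] [DecidableEq P] {r j w K0 K y : ℕ}
  {N : Tops P → Finset P} {b : Tops P → ℕ} {θ : Tops P → P → ℕ} {LE LO : List ℤ}

/-- no twins of the elements of level `j + 1` with one upper cover which has two upper covers -/
def NoPT (P : Type u) [Fintype P] [PartialOrder P] [DecidableEq P] (j : ℕ) : Prop :=
  ∀ x x' : P, x ≠ x' → lev x = j + 1 → (∀ u, x < u ↔ x' < u) → nab j x = 1 →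
    2 ≤ nab (j - 1) x → False

/-- **the finite check** for the deep cells of level at least `j + 1`, with twins, but without
twins of the fold cell -/
structure NumF (j w K : ℕ) (LE LO : List ℤ) : Prop where
  s1 : ∀ a ∈ Finset.Icc 3 ((j + 1) / 2), K + 1 < stC w (j + 1) a ∨
    (2 * a = j + 1 ∧
      ChM w (j + 1) K (j + 1 - w) LE LO (j - w) (stAb (j + 1) a) (feC w j a)) ∨
    ChN w (j + 1) K (j + 1 - w) LE LO (j - w) (stAb (j + 1) a)
  r1 : ∀ a ∈ Finset.Icc 2 (j - 1), K + 1 < reC w (j + 1) a ∨
    ChN w (j + 1) K (j + 1 - w) LE LO (reH w (j + 1) a) (reAb (j + 1) a)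
  sp : K + 1 < stC w (j + 1) 2 ∨ SpN j w K (j + 1 - w) LE LO
  s2 : ∀ a ∈ Finset.Icc 2 ((j + 1 + 1) / 2), K + 1 < stC w (j + 1 + 1) a
  r2 : ∀ a ∈ Finset.Icc 2 (j + 1 - 1), K + 1 < reC w (j + 1 + 1) a

/-- the check is monotone in the lists -/
lemma NumF.mono {LE' LO' : List ℤ} (n : NumF j w K LE LO) (h1 : ∀ v ∈ LE, v ∈ LE')
    (h2 : ∀ v ∈ LO, v ∈ LO') : NumF j w K LE' LO' :=
  { s1 := fun a ha => (n.s1 a ha).imp id (Or.imp
      (fun h => ⟨h.1, h.2.1, h.2.2.1, h.2.2.2.1.mono h1 h2, h.2.2.2.2⟩) fun h => h.mono h1 h2)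
    r1 := fun a ha => (n.r1 a ha).imp id fun h => h.mono h1 h2
    sp := n.sp.imp id fun h => ⟨h.1.mono h1 h2, h.2.1.mono h1 h2, h.2.2⟩
    s2 := n.s2
    r2 := n.r2 }

/-- **the deep cells, without twins of the fold cell** -/
theorem Wk.cellsF (W : Wk r j w K0 N b θ) (hw2 : 2 ≤ w) (n : NumF j w K LE LO)
    (hT : NoPT P j) :
    CellsN P j w K0 K N b θ (XL (j + 1 - w) LE) (XL (j + 1 - w) LO) := by
  intro x hx hlx hD hR
  have H := W.gt.H
  have HN := W.natSys
  have hxt : x ∈ N (topOf x) := HN.mem_iff.mpr ⟨hx, rfl⟩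
  have hj := W.hj
  have hw := W.hw
  have hdx := (W.dk_row1 hw2 hx (by omega) hD).resolve_left hR
  have hT0 := W.typ (topOf x)
  have hdx' := hdx
  generalize ht : topOf x = t at hxt hT0 hdx'
  rcases hT0 with ⟨h1, h2, h3, h5⟩ | ⟨Nc, co, h0, h1, h2, h4⟩ |
    ⟨Nc, co, h0, h1, h2, h3, h4, h5'⟩
  · rw [h2] at hdx'
    simp only at hdx'
    omega
  · have e1 := h0.b_two
    have e2 := h0.b_le
    have hxN' : x ∈ natR Nc co := by rw [← h1]; exact hxt
    have hJ : ¬ (x ∈ junk (fun _ => True) Nc co ∨ x ∈ junk (fun _ => True) Nc (swp co)) := by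
      intro hJ
      rw [h2] at hdx'
      unfold thR at hdx'
      rw [if_pos hJ] at hdx'
      omega
    have hxN : x ∈ Nc := by
      rw [mem_natR] at hxN'
      rcases hxN' with h | h | h
      · exact h
      · exact absurd (Or.inl h) hJ
      · exact absurd (Or.inr h) hJ
    have hl := h0.chart.lev x hxN
    have hth := rect_th7 h0 hw hxN hJ (by omega)
    rw [h2] at hdx'
    have hth' : θ (topOf x) x + 1 = lev x - w + 1 - min (min (co x).1 (co x).2) w := by
      rw [ht, h2]; omega
    rcases Nat.lt_or_ge (j + 1) (lev x) with hgt | hle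
    · left
      unfold C1
      exact rdeep_of (j := j + 1) (by omega) (by omega) n.r2 h0.chart hxN (by omega)
        (by omega) (by omega) (by omega)
    · have hlx1 : lev x = j + 1 := by omega
      rcases n.r1 (co x).1 (by rw [Finset.mem_Icc]; omega) with h6 | h6
      · left
        have h7 := cst_rect (w := w) (h := θ (topOf x) x + 1) h0.chart hxN hlx1 (by omega)
        unfold reC at h6
        unfold C1
        rw [h7, show θ (topOf x) x + 1 =
          j + 1 - w + 1 - min (min (co x).1 (j + 1 - (co x).1)) w by omega]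
        exact h6
      · right; left
        refine (h6.cheap hlx1 ?_ ?_).toN
        · intro k hk
          have := rect_nab h0.chart hxN (k := k) (by omega)
          unfold reAb
          omega
        · unfold reH
          omega
  · have hxN' : x ∈ natS Nc co := by rw [← h1]; exact hxt
    have hJ : x ∉ junk (fun c => c.1 ≤ c.2) Nc co := by
      intro hJ
      rw [h2] at hdx'
      unfold thS at hdx'
      rw [if_pos hJ] at hdx'
      omega
    have hxN : x ∈ Nc := by
      rw [mem_natS] at hxN'
      rcases hxN' with h | h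
      · exact h
      · exact absurd h hJ
    have hl := h0.chart.lev x hxN
    have hm : (co x).1 ≤ (co x).2 := h0.chart.mem x hxN
    have hth := stair_th7 h0 hw h4 hxN hJ (by omega)
    rw [h2] at hdx'
    have hth' : θ (topOf x) x + 1 = lev x - w - 1 := by
      rw [ht, h2]; omega
    rcases Nat.lt_or_ge (j + 1) (lev x) with hgt | hle
    · left
      unfold C1
      exact sdeep_of (j := j + 1) (by omega) (by omega) n.s2 h0.chart hxN (by omega)
        (by omega) (by omega)
    · have hlx1 : lev x = j + 1 := by omega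
      have hst : K + 1 < stC w (j + 1) (co x).1 → K + 1 < C1 w θ x := by
        intro h6
        have h7 := cst_stair (w := w) (h := θ (topOf x) x + 1) h0.chart hxN hlx1 (by omega)
        unfold stC at h6
        unfold C1
        rw [h7, show θ (topOf x) x + 1 = j + 1 - w - 1 by omega]
        exact h6
      have hab : ∀ k ≤ j + 1, nab k x = stAb (j + 1) (co x).1 k := by
        intro k hk
        have := stair_nab h0.chart hxN (k := k) (by omega)
        unfold stAb
        omega
      by_cases ha : 3 ≤ (co x).1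
      · rcases n.s1 (co x).1 (by rw [Finset.mem_Icc]; omega) with h6 | ⟨hfo, h6⟩ | h6
        · exact Or.inl (hst h6)
        · right; left
          have hN : NTw x := by
            intro x' hne hup
            refine hT x x' hne.symm hlx1 hup ?_ ?_
            · have := hab j (by omega)
              unfold stAb at this
              omega
            · have := hab (j - 1) (by omega)
              unfold stAb at this
              omega
          have hh : j - w = θ (topOf x) x + 1 := by omega
          rw [hh] at h6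
          refine h6.cheap hlx1 hab rfl ?_ hN
          intro z y hz hy hne
          unfold feC
          rw [if_pos hfo, hh]
          exact W.fold_two hx (by rw [ht]; exact h0) (by rw [ht]; exact h1) hxN hlx1
            (by omega) hz hy hne (hN y hne) (by omega)
        · right; left
          exact (h6.cheap hlx1 hab (by omega)).toN
      · have ha2 : (co x).1 = 2 := by omega
        rw [ha2] at hst hab
        rcases n.sp with h6 | h6
        · exact Or.inl (hst h6)
        · right; right; left
          refine ⟨⟨Nc, co, ?_, ?_, ?_, hxN, ?_, ?_⟩, (h6.spOK (by omega) hlx1 hab (by omega)).toN⟩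
          · rw [ht]; exact h0
          · rw [ht]; exact h1
          · rw [ht, h3]; omega
          · exact Prod.ext ha2 (by simp only; omega)
          · omega

/-! ### Instances -/

theorem numF_11_3 : NumF 11 3 (9 ^ 2 + 40) [17, 34, 35] [36, 37] := by
  constructor <;> decide +kernel

theorem numF_13_3 : NumF 13 3 (11 ^ 2 + 60) [39, 53, 54] [55, 56] := by
  constructor <;> decide +kernel
theorem numF_13_2 : NumF 13 2 (12 ^ 2 + 70) [49] [64, 65, 66] := by
  constructor <;> decide +kernel

end Pool.Agent.GaussPoset.Sm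

end

/-! From `Pool.Agent.W_448pg_h74.WuA` -/

section

/-!
# The windows `2`, `3`: the cells `(2, j - 1)` without twins and pendants (MP_448cb3_co, S7)
-/

namespace Pool.Agent.GaussPoset.Sm

set_option linter.unusedSectionVars false

open Finset Wd

universe u

variable {P : Type u} [Fintype P] [PartialOrder P] [DecidableEq P] {r j w K0 K y : ℕ}
  {N : Tops P → Finset P} {b : Tops P → ℕ} {θ : Tops P → P → ℕ} {LE LO : List ℤ}

/-- no twins of the cells `(2, j - 1)` -/
def NoE2 (P : Type u) [Fintype P] [PartialOrder P] [DecidableEq P] (j : ℕ) : Prop :=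
  ∀ x x' : P, x ≠ x' → lev x = j + 1 → (∀ u, x < u ↔ x' < u) →
    (∀ k, 4 ≤ k → k + 1 ≤ j → nab k x = 3) → nab j x = 2 → False

/-- no pendants below the cells `(2, j - 1)` -/
def NoP2 (P : Type u) [Fintype P] [PartialOrder P] [DecidableEq P] (j : ℕ) : Prop :=
  ∀ z x : P, lev x = j + 1 → (∀ k, 4 ≤ k → k + 1 ≤ j → nab k x = 3) → nab j x = 2 → z ⋖ x →
    (∀ y, z ⋖ y → y = x) → False

/-- a second element of level `j + 1` has a cover which is not above the first one, unless there
is a pendant below an inner element of level `j` -/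
lemma exists_ext (H : Gr P r) {x z y : P} (hlx : lev x = j + 1) (h2 : (Win.uc x).card = 2)
    (hin : ∀ v, x ⋖ v → ∀ y, y ⋖ v → ¬ ∀ u, y ⋖ u → u = v)
    (hzx : z ⋖ x) (hzy : z ⋖ y) (hnt : ¬ ∀ u, x < u ↔ y < u) :
    ∃ q, z ≤ q ∧ lev q = j ∧ ¬ x ≤ q := by
  classical
  by_contra hcon
  push Not at hcon
  have hly : lev y = j + 1 := by
    have e1 := (H.covBy_iff.mp hzx).2
    have e2 := (H.covBy_iff.mp hzy).2
    omega
  have hsub : ∀ u, y ⋖ u → x ⋖ u := by
    intro u hu
    have e1 := (H.covBy_iff.mp hu).2
    have hxu := hcon u (hzy.1.le.trans hu.1.le) (by omega)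
    exact H.covBy_iff.mpr ⟨lt_of_le_of_ne hxu (by rintro rfl; omega), by omega⟩
  obtain ⟨t, ht, hyt⟩ := exists_above' (x := y) (j := j) (by omega)
  have hyt' : y < t := lt_of_le_of_ne ht (by rintro rfl; omega)
  obtain ⟨v, hv, -⟩ := Hul.exists_cov hyt'
  have hxv := hsub v hv
  have hex := hin v hxv y hv
  push Not at hex
  obtain ⟨u, hu, hne⟩ := hex
  have hxu := hsub u hu
  have huc : Win.uc x = {v, u} := by
    symm
    refine Finset.eq_of_subset_of_card_le ?_ ?_
    · intro s hs
      rw [mem_insert, mem_singleton] at hs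
      rcases hs with rfl | rfl
      · exact Win.mem_uc.mpr hxv
      · exact Win.mem_uc.mpr hxu
    · rw [h2, Finset.card_pair (Ne.symm hne)]
  apply hnt
  intro s
  constructor
  · intro hs
    obtain ⟨p, hp, hps⟩ := Hul.exists_cov hs
    have hpu : p ∈ Win.uc x := Win.mem_uc.mpr hp
    rw [huc, mem_insert, mem_singleton] at hpu
    rcases hpu with rfl | rfl
    · exact lt_of_lt_of_le hv.1 hps
    · exact lt_of_lt_of_le hu.1 hps
  · intro hs
    obtain ⟨p, hp, hps⟩ := Hul.exists_cov hs
    exact lt_of_lt_of_le (hsub p hp).1 hps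

/-- the cost below an element and a second one which has a cover not above the first -/
lemma cst_ext (H : Gr P r) {x z y q : P} (hlx : lev x = j + 1) (hw : w ≤ j)
    (hzx : z ⋖ x) (hzy : z ⋖ y) (hne : y ≠ x) (hzq : z ≤ q) (hlq : lev q = j) (hxq : ¬ x ≤ q)
    {h : ℕ} (hh : h ≤ j + 1 - w) :
    cst w (fun _ => h) x + h + h + min h (j - w) ≤ cst w (fun _ => h) z := by
  classical
  have e1 := (H.covBy_iff.mp hzx).2
  have e2 := (H.covBy_iff.mp hzy).2
  obtain ⟨a, ha⟩ : ∃ a, j = w + a := ⟨j - w, by omega⟩
  rw [cst_shift (i := w) (h := fun _ => h) (x := x) (a := a + 1) (by omega),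
    cst_shift (i := w) (h := fun _ => h) (x := z) (a := a + 1 + 1) (by omega),
    Finset.sum_range_succ, Finset.sum_range_succ, Finset.sum_range_succ _ (a + 1 + 1),
    Finset.sum_range_succ _ (a + 1), Finset.sum_range_succ _ a]
  have h2 : 2 ≤ nab (w + (a + 1)) z := by
    unfold nab
    have : ({x, y} : Finset P) ⊆ (lv P (w + (a + 1))).filter (fun u => z ≤ u) := by
      intro u hu
      rw [mem_insert, mem_singleton] at hu
      rw [mem_filter, mem_lv]
      rcases hu with rfl | rfl
      · exact ⟨by omega, hzx.1.le⟩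
      · exact ⟨by omega, hzy.1.le⟩
    have h3 := Finset.card_le_card this
    rw [Finset.card_pair hne.symm] at h3
    convert h3
  have h3 : nab (w + (a + 1)) x = 1 := by
    rw [show w + (a + 1) = lev x by omega]; exact nab_self
  have h4 : nab (w + (a + 1 + 1)) z = 1 := by
    rw [show w + (a + 1 + 1) = lev z by omega]; exact nab_self
  have h5 : ∑ n ∈ range a, min h n * nab (w + n) x ≤ ∑ n ∈ range a, min h n * nab (w + n) z :=
    Finset.sum_le_sum fun n _ => Nat.mul_le_mul_left _ (nab_mono hzx.1.le)
  have h6 : nab (w + a) x + 1 ≤ nab (w + a) z := by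
    unfold nab
    have : insert q ((lv P (w + a)).filter (fun u => x ≤ u)) ⊆
        (lv P (w + a)).filter (fun u => z ≤ u) := by
      intro u hu
      rw [mem_insert, mem_filter, mem_lv] at hu
      rw [mem_filter, mem_lv]
      rcases hu with rfl | hu
      · exact ⟨by omega, hzq⟩
      · exact ⟨hu.1, hzx.1.le.trans hu.2⟩
    have h6 := Finset.card_le_card this
    rw [Finset.card_insert_of_notMem (by rw [mem_filter]; exact fun h => hxq h.2)] at h6
    convert h6
  have h7 : min h a * nab (w + a) x + min h a ≤ min h a * nab (w + a) z := by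
    have := Nat.mul_le_mul_left (min h a) h6
    rw [Nat.mul_add, Nat.mul_one] at this
    exact this
  have h8 : h * 2 ≤ h * nab (w + (a + 1)) z := Nat.mul_le_mul_left _ h2
  rw [h3, h4, Nat.min_eq_left (by omega : h ≤ a + 1), Nat.min_eq_left (by omega : h ≤ a + 1 + 1),
    show j - w = a by omega]
  omega

/-- the numbers of a cheap cell without twins, a second cover costs more -/
def ChE (w j K y : ℕ) (LE LO : List ℤ) (h : ℕ) (f : ℕ → ℕ) : Prop :=
  h < j + 1 - w ∧ f w = f (w + h) + 1 ∧ OkN y K LE LO (nC w h f) (cC w (j + 1) h f + h) ∧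
    K < cC w (j + 1) h f + h + h + min h (j - w)

instance (w j K y : ℕ) (LE LO : List ℤ) (h : ℕ) (f : ℕ → ℕ) :
    Decidable (ChE w j K y LE LO h f) := by
  unfold ChE
  infer_instance

/-- the numbers of a cell without twins and pendants -/
def ChP (w j K h : ℕ) (f : ℕ → ℕ) : Prop :=
  h < j + 1 - w ∧ K < cC w (j + 1) h f + h + h + min h (j - w)

instance (w j K h : ℕ) (f : ℕ → ℕ) : Decidable (ChP w j K h f) := by
  unfold ChP
  infer_instance

/-- **the finite check**, the cells `(2, j - 1)` without twins; `p`: without pendants too -/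
structure NumE (p : Prop) [Decidable p] (j w K : ℕ) (LE LO : List ℤ) : Prop where
  s1 : ∀ a ∈ Finset.Icc 3 ((j + 1) / 2), K + 1 < stC w (j + 1) a ∨
    (2 * a = j + 1 ∧
      ChM w (j + 1) K (j + 1 - w) LE LO (j - w) (stAb (j + 1) a) (feC w j a)) ∨
    ChN w (j + 1) K (j + 1 - w) LE LO (j - w) (stAb (j + 1) a)
  r1 : ∀ a ∈ Finset.Icc 2 (j - 1), K + 1 < reC w (j + 1) a ∨
    ((a = 2 ∨ a = j - 1) ∧ ((p ∧ ChP w j K (reH w (j + 1) a) (reAb (j + 1) a)) ∨
      ChE w j K (j + 1 - w) LE LO (reH w (j + 1) a) (reAb (j + 1) a))) ∨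
    ChN w (j + 1) K (j + 1 - w) LE LO (reH w (j + 1) a) (reAb (j + 1) a)
  sp : K + 1 < stC w (j + 1) 2 ∨ (p ∧ ChP w j K (j - w) (stAb (j + 1) 2)) ∨
    SpM j w K (j + 1 - w) LE LO
  s2 : ∀ a ∈ Finset.Icc 2 ((j + 1 + 1) / 2), K + 1 < stC w (j + 1 + 1) a
  r2 : ∀ a ∈ Finset.Icc 2 (j + 1 - 1), K + 1 < reC w (j + 1 + 1) a

end Pool.Agent.GaussPoset.Sm

end

/-! From `Pool.Agent.W_448pg_h74.WuB` -/

section

/-!
# The windows `2`, `3`: the classification of the deep cells, the cells `(2, j - 1)` without twins
and pendants (MP_448cb3_co, S7)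
-/

namespace Pool.Agent.GaussPoset.Sm

set_option linter.unusedSectionVars false

open Finset Wd

universe u

variable {P : Type u} [Fintype P] [PartialOrder P] [DecidableEq P] {r j w K0 K y : ℕ}
  {N : Tops P → Finset P} {b : Tops P → ℕ} {θ : Tops P → P → ℕ} {LE LO : List ℤ}

section Cell

variable {x : P}

/-- the cost of a cell from the numbers of ancestors -/
lemma cst_cC {L h : ℕ} {f : ℕ → ℕ} (hl : lev x = L) (hf : ∀ k ≤ L, nab k x = f k)
    (hw : w ≤ L) : cst w (fun _ => h) x = cC w L h f := by
  rw [cst_shift (i := w) (a := L - w) (by omega)]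
  unfold cC
  refine Finset.sum_congr rfl fun n hn => ?_
  rw [mem_range] at hn
  rw [hf _ (by omega)]

/-- a cell without twins, a second cover costs more -/
lemma ChE.cheap {h : ℕ} {f : ℕ → ℕ} (hC : ChE w j K y LE LO h f) (hl : lev x = j + 1)
    (hw : w ≤ j) (hf : ∀ k ≤ j + 1, nab k x = f k) (hth : θ (topOf x) x + 1 = h)
    (htwo : ∀ z y, z ⋖ x → z ⋖ y → y ≠ x → cst w (fun _ => h) x + h + h + min h (j - w) ≤
      cst w (fun _ => h) z) (hN : NTw x) :
    CheapN w K (XL y LE) (XL y LO) θ x := by
  obtain ⟨h1, h2, h3, h5⟩ := hC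
  have e1 : cst w (fun _ => h) x = cC w (j + 1) h f := cst_cC hl hf (by omega)
  have e2 : nst w (fun _ => h) x = nC w h f := by
    rw [nst_eq]
    unfold nC
    refine Finset.sum_congr rfl fun n hn => ?_
    rw [mem_range] at hn
    rw [hf _ (by omega)]
  have e3 : C1 w θ x = cC w (j + 1) h f + h := by
    unfold C1
    rw [hth, e1]
  refine ⟨by omega, ?_, ?_, Or.inr hN, Or.inr ⟨hN, ?_⟩⟩
  · rw [hth, hf _ (by omega), hf _ (by omega)]
    exact h2
  · rw [hth, e2, e3]
    exact h3.okv
  · intro z y' hz hy hne
    have := htwo z y' hz hy hne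
    rw [hth]
    omega

/-- a cell without twins and pendants -/
lemma ChP.npen {h : ℕ} {f : ℕ → ℕ} (hC : ChP w j K h f) (hl : lev x = j + 1)
    (hw : w ≤ j) (hf : ∀ k ≤ j + 1, nab k x = f k) (hth : θ (topOf x) x + 1 = h)
    (htwo : ∀ z y, z ⋖ x → z ⋖ y → y ≠ x → cst w (fun _ => h) x + h + h + min h (j - w) ≤
      cst w (fun _ => h) z) (hN : NTw x) (hp : ∀ z, z ⋖ x → ¬ ∀ y, z ⋖ y → y = x) :
    NPen w K N θ x := by
  obtain ⟨h1, h5⟩ := hC
  have e1 : cst w (fun _ => h) x = cC w (j + 1) h f := cst_cC hl hf (by omega)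
  refine ⟨by omega, hN, fun z _ hz => ?_, Or.inr fun z y' hz hy hne => ?_⟩
  · have := hp z hz
    push Not at this
    exact this
  · have := htwo z y' hz hy hne
    rw [hth]
    omega

end Cell

/-- **the deep cells, without twins and pendants of the cells `(2, j - 1)`** -/
theorem Wk.cellsE {p : Prop} [Decidable p] (W : Wk r j w K0 N b θ) (hw2 : 2 ≤ w) (h10 : 10 ≤ j)
    (n : NumE p j w K LE LO) (hT : NoPT P j) (hE : NoE2 P j) (hP : p → NoP2 P j) :
    CellsN P j w K0 K N b θ (XL (j + 1 - w) LE) (XL (j + 1 - w) LO) := by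
  intro x hx hlx hD hR
  have H := W.gt.H
  have HN := W.natSys
  have hxt : x ∈ N (topOf x) := HN.mem_iff.mpr ⟨hx, rfl⟩
  have hj := W.hj
  have hw := W.hw
  have hdx := (W.dk_row1 hw2 hx (by omega) hD).resolve_left hR
  -- the cells `(2, j - 1)`
  have hNE : lev x = j + 1 → (∀ k, 4 ≤ k → k + 1 ≤ j → nab k x = 3) → nab j x = 2 → NTw x :=
    fun h1 h2 h3 x' hne hup => hE x x' hne.symm h1 hup h2 h3
  have hPE : p → lev x = j + 1 → (∀ k, 4 ≤ k → k + 1 ≤ j → nab k x = 3) → nab j x = 2 →
      ∀ z, z ⋖ x → ¬ ∀ y, z ⋖ y → y = x :=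
    fun hp h1 h2 h3 z hz ho => hP hp z x h1 h2 h3 hz ho
  have hT0 := W.typ (topOf x)
  have hdx' := hdx
  generalize ht : topOf x = t at hxt hT0 hdx'
  rcases hT0 with ⟨h1, h2, h3, h5⟩ | ⟨Nc, co, h0, h1, h2, h4⟩ |
    ⟨Nc, co, h0, h1, h2, h3, h4, h5'⟩
  · rw [h2] at hdx'
    simp only at hdx'
    omega
  · have e1 := h0.b_two
    have e2 := h0.b_le
    have hxN' : x ∈ natR Nc co := by rw [← h1]; exact hxt
    have hJ : ¬ (x ∈ junk (fun _ => True) Nc co ∨ x ∈ junk (fun _ => True) Nc (swp co)) := by
      intro hJ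
      rw [h2] at hdx'
      unfold thR at hdx'
      rw [if_pos hJ] at hdx'
      omega
    have hxN : x ∈ Nc := by
      rw [mem_natR] at hxN'
      rcases hxN' with h | h | h
      · exact h
      · exact absurd (Or.inl h) hJ
      · exact absurd (Or.inr h) hJ
    have hl := h0.chart.lev x hxN
    have hth := rect_th7 h0 hw hxN hJ (by omega)
    rw [h2] at hdx'
    have hth' : θ (topOf x) x + 1 = lev x - w + 1 - min (min (co x).1 (co x).2) w := by
      rw [ht, h2]; omega
    rcases Nat.lt_or_ge (j + 1) (lev x) with hgt | hle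
    · left
      unfold C1
      exact rdeep_of (j := j + 1) (by omega) (by omega) n.r2 h0.chart hxN (by omega)
        (by omega) (by omega) (by omega)
    · have hlx1 : lev x = j + 1 := by omega
      have hab : ∀ k ≤ j + 1, nab k x = reAb (j + 1) (co x).1 k := by
        intro k hk
        have := rect_nab h0.chart hxN (k := k) (by omega)
        unfold reAb
        omega
      have hin : ∀ v, x ⋖ v → ∀ y, y ⋖ v → ¬ ∀ u, y ⋖ u → u = v := by
        intro v hv y hy
        have hvN := h0.chart.up x hxN v hv.1.le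
        have hcv := (chart_cov h0.chart H hxN hvN).mp hv
        have hlv := (H.covBy_iff.mp hv).2
        have h7 : (Win.uc v).card = 2 := by
          unfold Prd at hcv
          exact chart_inner_uc h0.chart H hvN (by omega) (by omega)
        exact h4 v y (h0.chart.le_t v hvN) (by omega) h7 hy
      have htwo : (∀ k, 4 ≤ k → k + 1 ≤ j → nab k x = 3) → nab j x = 2 → ∀ z y, z ⋖ x → z ⋖ y →
          y ≠ x → cst w (fun _ => reH w (j + 1) (co x).1) x + reH w (j + 1) (co x).1 +
            reH w (j + 1) (co x).1 + min (reH w (j + 1) (co x).1) (j - w) ≤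
            cst w (fun _ => reH w (j + 1) (co x).1) z := by
        intro g1 g2 z y hz hy hne
        obtain ⟨q, q1, q2, q3⟩ := exists_ext H hlx1
          (chart_inner_uc h0.chart H hxN (by omega) (by omega)) hin hz hy
          (hNE hlx1 g1 g2 y hne)
        exact cst_ext H hlx1 (by omega) hz hy hne q1 q2 q3 (by unfold reH; omega)
      have hc2 : (co x).1 = 2 ∨ (co x).1 = j - 1 →
          (∀ k, 4 ≤ k → k + 1 ≤ j → nab k x = 3) ∧ nab j x = 2 := by
        intro hc
        refine ⟨fun k hk1 hk2 => ?_, ?_⟩
        · rw [hab k (by omega)]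
          unfold reAb
          omega
        · rw [hab j (by omega)]
          unfold reAb
          omega
      rcases n.r1 (co x).1 (by rw [Finset.mem_Icc]; omega) with h6 | ⟨hc, h6⟩ | h6
      · left
        have h7 := cst_rect (w := w) (h := θ (topOf x) x + 1) h0.chart hxN hlx1 (by omega)
        unfold reC at h6
        unfold C1
        rw [h7, show θ (topOf x) x + 1 =
          j + 1 - w + 1 - min (min (co x).1 (j + 1 - (co x).1)) w by omega]
        exact h6
      · obtain ⟨g1, g2⟩ := hc2 hc
        rcases h6 with ⟨hp, h6⟩ | h6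
        · right; right; right
          exact h6.npen hlx1 (by omega) hab (by unfold reH; omega) (htwo g1 g2)
            (hNE hlx1 g1 g2) (hPE hp hlx1 g1 g2)
        · right; left
          exact h6.cheap hlx1 (by omega) hab (by unfold reH; omega) (htwo g1 g2)
            (hNE hlx1 g1 g2)
      · right; left
        exact (h6.cheap hlx1 hab (by unfold reH; omega)).toN
  · have hxN' : x ∈ natS Nc co := by rw [← h1]; exact hxt
    have hJ : x ∉ junk (fun c => c.1 ≤ c.2) Nc co := by
      intro hJ
      rw [h2] at hdx'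
      unfold thS at hdx'
      rw [if_pos hJ] at hdx'
      omega
    have hxN : x ∈ Nc := by
      rw [mem_natS] at hxN'
      rcases hxN' with h | h
      · exact h
      · exact absurd h hJ
    have hl := h0.chart.lev x hxN
    have hm : (co x).1 ≤ (co x).2 := h0.chart.mem x hxN
    have hth := stair_th7 h0 hw h4 hxN hJ (by omega)
    rw [h2] at hdx'
    have hth' : θ (topOf x) x + 1 = lev x - w - 1 := by
      rw [ht, h2]; omega
    rcases Nat.lt_or_ge (j + 1) (lev x) with hgt | hle
    · left
      unfold C1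
      exact sdeep_of (j := j + 1) (by omega) (by omega) n.s2 h0.chart hxN (by omega)
        (by omega) (by omega)
    · have hlx1 : lev x = j + 1 := by omega
      have hst : K + 1 < stC w (j + 1) (co x).1 → K + 1 < C1 w θ x := by
        intro h6
        have h7 := cst_stair (w := w) (h := θ (topOf x) x + 1) h0.chart hxN hlx1 (by omega)
        unfold stC at h6
        unfold C1
        rw [h7, show θ (topOf x) x + 1 = j + 1 - w - 1 by omega]
        exact h6
      have hab : ∀ k ≤ j + 1, nab k x = stAb (j + 1) (co x).1 k := by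
        intro k hk
        have := stair_nab h0.chart hxN (k := k) (by omega)
        unfold stAb
        omega
      by_cases ha : 3 ≤ (co x).1
      · rcases n.s1 (co x).1 (by rw [Finset.mem_Icc]; omega) with h6 | ⟨hfo, h6⟩ | h6
        · exact Or.inl (hst h6)
        · right; left
          have hN : NTw x := by
            intro x' hne hup
            refine hT x x' hne.symm hlx1 hup ?_ ?_
            · have := hab j (by omega)
              unfold stAb at this
              omega
            · have := hab (j - 1) (by omega)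
              unfold stAb at this
              omega
          have hh : j - w = θ (topOf x) x + 1 := by omega
          rw [hh] at h6
          refine h6.cheap hlx1 hab rfl ?_ hN
          intro z y hz hy hne
          unfold feC
          rw [if_pos hfo, hh]
          exact W.fold_two hx (by rw [ht]; exact h0) (by rw [ht]; exact h1) hxN hlx1
            (by omega) hz hy hne (hN y hne) (by omega)
        · right; left
          exact (h6.cheap hlx1 hab (by omega)).toN
      · have ha2 : (co x).1 = 2 := by omega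
        rw [ha2] at hst hab
        have g1 : ∀ k, 4 ≤ k → k + 1 ≤ j → nab k x = 3 := by
          intro k hk1 hk2
          rw [hab k (by omega)]
          unfold stAb
          omega
        have g2 : nab j x = 2 := by
          rw [hab j (by omega)]
          unfold stAb
          omega
        have hin : ∀ v, x ⋖ v → ∀ y, y ⋖ v → ¬ ∀ u, y ⋖ u → u = v := by
          intro v hv y hy ho
          have hvN := h0.chart.up x hxN v hv.1.le
          have hcv := (chart_cov h0.chart H hxN hvN).mp hv
          have hlv := (H.covBy_iff.mp hv).2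
          unfold Prd at hcv
          have h7 : (Win.uc v).card = 2 :=
            stair_inner_uc h0.chart H hvN (by omega) (by omega)
          have := h5' v y (h0.chart.le_t v hvN) (by omega) h7 hy ho
          omega
        have htwo : ∀ z y, z ⋖ x → z ⋖ y → y ≠ x → cst w (fun _ => j - w) x + (j - w) +
            (j - w) + min (j - w) (j - w) ≤ cst w (fun _ => j - w) z := by
          intro z y hz hy hne
          obtain ⟨q, q1, q2, q3⟩ := exists_ext H hlx1
            (stair_inner_uc h0.chart H hxN (by omega) (by omega)) hin hz hy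
            (hNE hlx1 g1 g2 y hne)
          exact cst_ext H hlx1 (by omega) hz hy hne q1 q2 q3 (by omega)
        rcases n.sp with h6 | ⟨hp, h6⟩ | h6
        · exact Or.inl (hst h6)
        · right; right; right
          exact h6.npen hlx1 (by omega) hab (by omega) htwo (hNE hlx1 g1 g2)
            (hPE hp hlx1 g1 g2)
        · right; right; left
          refine ⟨⟨Nc, co, ?_, ?_, ?_, hxN, ?_, ?_⟩,
            h6.spOK (by omega) hlx1 hab (by omega) (hNE hlx1 g1 g2)⟩
          · rw [ht]; exact h0
          · rw [ht]; exact h1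
          · rw [ht, h3]; omega
          · exact Prod.ext ha2 (by simp only; omega)
          · omega

/-- the check is monotone in the lists -/
lemma NumE.mono {p : Prop} [Decidable p] {LE' LO' : List ℤ} (n : NumE p j w K LE LO)
    (h1 : ∀ v ∈ LE, v ∈ LE') (h2 : ∀ v ∈ LO, v ∈ LO') : NumE p j w K LE' LO' :=
  { s1 := fun a ha => (n.s1 a ha).imp id (Or.imp
      (fun h => ⟨h.1, h.2.1, h.2.2.1, h.2.2.2.1.mono h1 h2, h.2.2.2.2⟩) fun h => h.mono h1 h2)
    r1 := fun a ha => (n.r1 a ha).imp id (Or.imp
      (fun h => ⟨h.1, h.2.imp id fun g => ⟨g.1, g.2.1, g.2.2.1.mono h1 h2, g.2.2.2⟩⟩)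
      fun h => h.mono h1 h2)
    sp := n.sp.imp id (Or.imp id fun h => ⟨h.1.mono h1 h2, h.2⟩)
    s2 := n.s2
    r2 := n.r2 }

/-! ### Instances -/

theorem numE_13_3 : NumE False 13 3 (11 ^ 2 + 60) [39, 54] [56] := by
  constructor <;> decide +kernel
theorem numE_13_2 : NumE False 13 2 (12 ^ 2 + 64) [49] [] := by
  constructor <;> decide +kernel

theorem numE_14_3' : NumE True 14 3 (12 ^ 2 + 80) [] [] := by
  constructor <;> decide +kernel
theorem numE_14_2' : NumE True 14 2 (13 ^ 2 + 89) [] [] := by
  constructor <;> decide +kernel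

end Pool.Agent.GaussPoset.Sm

end
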