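import Mathlib
import Pool.Agent.W_448zz_h61.Ns
import Pool.Agent.W_448zz_h61.M134
import Pool.Agent.W_448zz_h61.M136
import Pool.Agent.W_448zz_h61.M137

/-! From `Pool.Agent.W_448s7_h27.PnA` -/

section

/-!
# The window `1`: the balance (MP_448cb3_co)
-/

namespace Pool.Agent.GaussPoset.Sm

set_option linter.unusedSectionVars false

open Finset Wd Cp

universe u

variable {P : Type u} [Fintype P] [PartialOrder P] [DecidableEq P] {r j w K : ℕ}
  {lo hi : Tops P → ℕ → ℕ} {e : Tops P → ℕ → ℕ → P}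

/-- **the balance at window `1`**; the bound on the ends is needed for odd `j` only -/
theorem Ctx.win1g (K : Ctx P r j lo hi e) (hj7 : 6 ≤ j) {E : List (ℕ × ℕ × ℕ)} (hE : ChkE j E)
    (h0 : (0, 0, 0) ∈ E)
    (hb : j % 2 = 1 → ∀ s ∈ E, (s.1 : ℤ) * ((j : ℤ) - 1) - s.2.1 ≤ 5 * ((j : ℤ) - 1))
    (hJ : ∃ z : P, Hul.Jn z) :
    ∃ V, WinB P j 1 (((j * (j - 1) / 2 : ℕ) : ℤ) - 1) (fun _ => false) (nz j) 0 V := by
  have H := K.gt.H
  have h16 := K.h16
  have hsh : ∀ t : Tops P, lo t 1 = hi t 1 ∨ RectShape j (lo t) (hi t) ∨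
      StairShape j (lo t) (hi t) ∨ StairShape j (fun k => k - hi t k) (fun k => k - lo t k) := by
    intro t
    rcases shape_cases (K.comp t) (by omega) (K.shape t) with h | h | ⟨a, h, h3⟩
    · exact Or.inl (h 1 (by omega))
    · exact Or.inr (by tauto)
    · left
      rw [(h.low 1 (by have := h.two; omega)).1, (h.low 1 (by have := h.two; omega)).2]
  obtain ⟨N, θ, t1, t2, hs, hu⟩ := K.types (w := 1) (by omega) hsh
  have hKc : 2 * K1 j < 3 * (j + 1 - 1) ^ 2 + 3 * (j + 1 - 1) := by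
    unfold K1
    obtain ⟨i, rfl⟩ : ∃ i, j = i + 1 := ⟨j - 1, by omega⟩
    rw [show i + 1 - 1 = i by omega, show i + 1 + 1 - 1 = i + 1 by omega]
    have e1 : (i + 1) ^ 2 = i * i + 2 * i + 1 := by ring
    have e2 : (i + 1) * i = i * i + i := by ring
    rw [e1, e2]
    omega
  have W : Wk r j 1 (K1 j) N (fun t => hi t 1 - lo t 1 + 1) θ :=
    { gt := K.gt, hj := hj7, hw1 := le_rfl, hw := by norm_num, typ := t1, top := t2, sum_b := hs
      hK := hKc
      rdeep := fun C _ hx _ h1 h2 h3 h4 => rect_deep1 C hj7 hx h1 h2 h3 h4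
      sdeep := fun h => absurd h (by norm_num) }
  have L : Lk P j 1 (K1 j) N (fun t => hi t 1 - lo t 1 + 1) θ (XL (j + 1 - 1) [])
      (XL (j + 1 - 1) []) :=
    { unq := hu
      nsk := fun z x x' h hl _ hn => nsk1 H hj7 h16 h hl hn
      dj := fun v z x hz _ hl hzx hD => (W.deep_j1 hz hl hzx hD).elim }
  have hy : ((j + 1 - 1 : ℕ) : ℤ) = j := by
    rw [Nat.add_sub_cancel]
  have hpen : OnePen P j (fun t => 2 ≤ hi t 1 - lo t 1 + 1) ∨ ∃ z : P, Hul.Jn z ∧
      ful 1 z ≤ (j + 1 - 1) ^ 2 + 5 * (j - 1) := by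
    rcases K.pen_or with h | ⟨hodd, z, x, x', h1, h2, h3, h4⟩
    · left
      intro e e' p p' hB
      refine h e e' p p' ?_
      rcases shape_cases (K.comp (topOf e)) (by omega) (K.shape (topOf e)) with h | h | ⟨a, h, h3⟩
      · have := h 1 (by omega)
        omega
      · exact h
      · have e1 := h.low 1 (by have := h.two; omega)
        omega
    · right
      refine ⟨z, h1.jn, K.cheap (by omega) hodd hE h0 (by exact_mod_cast hb hodd) h1 h2 h3 h4
        fun k hk => ?_⟩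
      obtain rfl : k = 0 := by omega
      rw [h1.sum H (by omega), nab_zero_only h1.only, nab_zero_only h1.only']
  obtain ⟨V, hV⟩ := W.winB L h16 (cT := ((j * (j - 1) / 2 : ℕ) : ℤ) - 1) (lb := 0)
    (by rw [hy]; exact K1_cast hj7)
    (by
      rw [hy]
      have h1 : j * (j - 1) / 2 < 7 * j + 11 := by
        have h2 : j * (j - 1) ≤ j * 15 := Nat.mul_le_mul_left _ (by omega)
        omega
      have : ((j * (j - 1) / 2 : ℕ) : ℤ) < 7 * j + 11 := by exact_mod_cast h1
      linarith)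
    le_rfl (fun x hx => absurd hx List.not_mem_nil) (fun x hx => absurd hx List.not_mem_nil)
    (fun z x x' h _ _ hl k hk => by
      obtain rfl : k = 0 := by omega
      rw [h.sum H (by omega), nab_zero_only h.only, nab_zero_only h.only'])
    hpen hJ
  refine ⟨V, hV.lo, hV.mn, fun h => ?_, fun h => ?_⟩
  · rcases hV.od h with h' | h'
    · exact Or.inl h'
    · simp at h'
  · rcases hV.ev h with h' | h'
    · exact Or.inl h'
    · right
      rw [hy] at h'
      simpa using h'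

end Pool.Agent.GaussPoset.Sm

end

/-! From `Pool.Agent.W_448s7_h27.PnJ14` -/

section

/-!
S7 for `j = 14`: the windows `0, …, 4` (MP_448cb3_co).
-/

namespace Pool.Agent.GaussPoset.Sm

set_option linter.unusedSectionVars false

open Finset Wd Ec W4

universe u

variable {P : Type u} [Fintype P] [PartialOrder P] [DecidableEq P] {r : ℕ}

/-- ends -/
def Er14 : List (ℕ × ℕ × ℕ) :=
    [(0, 0, 0), (1, 2, 1), (1, 3, 0), (1, 4, 0), (1, 5, 0), (1, 6, 0), (1, 7, 0), (3, 9, 1),
     (5, 20, 1), (5, 25, 0), (10, 60, 1)]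

lemma chkEr14 : ChkE 14 Er14 := by decide +kernel

/-- ends -/
def Ef14 : List (ℕ × ℕ × ℕ × ℕ) :=
    [(0, 0, 0, 0), (1, 2, 1, 0), (1, 3, 0, 0), (1, 4, 0, 0), (1, 5, 0, 0), (1, 6, 0, 0),
     (1, 7, 0, 0), (3, 9, 1, 0), (5, 20, 1, 0), (5, 25, 0, 0), (10, 60, 1, 1)]

/-- sides, one level deeper -/
def Sf14a : List (ℕ × ℕ × ℕ × ℕ) :=
    [(0, 0, 0, 0), (0, 0, 1, 0), (1, 1, 0, 0), (1, 1, 1, 0), (1, 2, 0, 0), (1, 3, 0, 0),
     (1, 4, 0, 0), (1, 5, 0, 0), (1, 6, 0, 0), (1, 7, 0, 0), (2, 3, 1, 0), (3, 6, 0, 0),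
     (3, 6, 1, 0), (3, 9, 0, 0), (4, 7, 1, 0), (4, 10, 1, 0), (5, 12, 1, 0), (5, 15, 0, 0),
     (5, 15, 1, 0), (5, 20, 0, 0), (5, 25, 0, 0), (6, 13, 1, 0), (6, 16, 1, 0), (6, 21, 1, 0),
     (7, 23, 1, 0), (7, 28, 1, 0), (8, 24, 1, 0), (8, 31, 0, 0), (8, 31, 1, 0), (9, 33, 0, 0),
     (10, 34, 1, 0), (10, 60, 0, 1)]

/-- sides, two or more levels deeper -/
def Sf14b : List (ℕ × ℕ × ℕ × ℕ) :=
    [(0, 0, 0, 0), (0, 0, 1, 0), (1, 1, 0, 0), (1, 1, 1, 0), (1, 1, 2, 0), (1, 2, 0, 0),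
     (1, 3, 0, 0), (1, 4, 0, 0), (1, 5, 0, 0), (1, 6, 0, 0), (1, 7, 0, 0), (2, 3, 0, 0),
     (2, 3, 1, 0), (2, 3, 2, 0), (3, 6, 0, 0), (3, 6, 1, 0), (3, 9, 0, 0), (4, 7, 1, 0),
     (4, 7, 2, 0), (4, 7, 3, 0), (4, 10, 0, 0), (4, 10, 1, 0), (4, 10, 2, 0), (5, 12, 0, 0),
     (5, 12, 1, 0), (5, 15, 0, 0), (5, 15, 1, 0), (5, 20, 0, 0), (5, 25, 0, 0), (6, 13, 1, 0),
     (6, 13, 2, 0), (6, 13, 3, 0), (6, 16, 1, 0), (6, 16, 2, 0), (6, 21, 0, 0), (6, 21, 1, 0),
     (7, 23, 0, 0), (7, 23, 1, 0), (7, 28, 0, 0), (7, 28, 1, 0), (8, 24, 1, 0), (8, 24, 2, 0),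
     (8, 24, 3, 0), (8, 31, 0, 0), (8, 31, 1, 0), (9, 33, 0, 0), (10, 34, 1, 0),
     (10, 34, 2, 0), (10, 60, 0, 1), (11, 35, 1, 0), (11, 35, 2, 0), (11, 35, 3, 0),
     (11, 35, 4, 0)]

lemma chkEf14 : ChkE4 14 Ef14 := by decide +kernel

lemma chkSf14a : ChkT4 14 Sf14a := by decide +kernel

lemma chkSf14b : ChkS4 14 Sf14b := by decide +kernel

/-- caps -/
def cf14 (w : ℕ) : ℤ :=
  if w = 0 then cap0 14 else if w = 1 then ((14 * (14 - 1) / 2 : ℕ) : ℤ) - 1
  else if w = 2 then 75 else if w = 3 then 63 else 43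

/-- even noise -/
def nef14 (w : ℕ) (V : ℤ) : Bool :=
  if w = 0 then false else if w = 1 then nz 14 V
  else if w = 2 then (nz ((14 + 1 - 2 : ℕ) : ℤ) V || ([24] : List ℤ).elem V)
  else (nz ((14 + 1 - 3 : ℕ) : ℤ) V || ([16] : List ℤ).elem V)

/-- odd noise -/
def nof14 (w : ℕ) (V : ℤ) : Bool :=
  if w = 0 then false else if w = 1 then false else ([] : List ℤ).elem V

/-- lower bounds -/
def lwf14 (_ : ℕ) : ℤ := 0

/-- caps as a list -/
def cfl14 : List (ℕ × ℕ) := [(14, 107), (13, 90), (12, 75), (11, 63), (10, 43)]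

lemma capf14 : CapL 14 4 cf14 cfl14 := by decide +kernel

/-- lines with `g + 300`, two elements above on the level `4` -/
def tAf14 : List (List ℕ) :=
  [[300], [293, 294, 295, 296, 297, 298], [286, 287, 288, 289, 290, 291, 292, 293, 294, 295,
   296, 303], [291, 296, 297, 298, 299, 300, 301, 302, 303], [284, 285, 286, 287, 288, 289, 290,
   291, 292, 293, 294, 295, 296, 297, 298, 299, 300, 301, 302, 303, 308], [275, 280, 294, 295,
   296, 297, 298, 299, 300, 301, 302, 303, 304, 305, 306, 307, 308, 309], [268, 269, 270, 271,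
   272, 273, 274, 275, 276, 277, 278, 282, 287, 288, 289, 290, 291, 292, 293, 294, 295, 296,
   297, 298, 299, 300, 301, 302, 303, 304, 305, 306, 307, 308, 309, 310, 315], [278, 283, 288,
   290, 291, 292, 293, 294, 295, 296, 297, 298, 299, 300, 301, 302, 303, 304, 305, 306, 307,
   308, 309], [266, 271, 272, 273, 274, 275, 276, 277, 278, 279, 280, 281, 282, 283, 284, 285,
   286, 287, 288, 289, 290, 291, 292, 293, 294, 295], [277, 281], [250, 255, 260], []]

/-- lines with `g + 300`, at least three elements above on the level `4` -/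
def tBf14 : List (List ℕ) :=
  [[], [], [], [], [], [], [], [], [], [], [240], [233, 234, 235, 236, 237, 238]]

/-- lines -/
def LA14 : List (List ℤ) :=
  [[0], [-7, -6, -5, -4, -3, -2], [-14, -13, -12, -11, -10, -9, -8, -7, -6, -5, -4, 3], [-9, -4,
   -3, -2, -1, 0, 1, 2, 3], [-16, -15, -14, -13, -12, -11, -10, -9, -8, -7, -6, -5, -4, -3, -2,
   -1, 0, 1, 2, 3, 8], [-25, -20, -6, -5, -4, -3, -2, -1, 0, 1, 2, 3, 4, 5, 6, 7, 8, 9], [-32,
   -31, -30, -29, -28, -27, -26, -25, -24, -23, -22, -18, -13, -12, -11, -10, -9, -8, -7, -6,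
   -5, -4, -3, -2, -1, 0, 1, 2, 3, 4, 5, 6, 7, 8, 9, 10, 15], [-22, -17, -12, -10, -9, -8, -7,
   -6, -5, -4, -3, -2, -1, 0, 1, 2, 3, 4, 5, 6, 7, 8, 9], [-34, -29, -28, -27, -26, -25, -24,
   -23, -22, -21, -20, -19, -18, -17, -16, -15, -14, -13, -12, -11, -10, -9, -8, -7, -6, -5],
   [-23, -19], [-50, -45, -40], []]

/-- lines -/
def LB14 : List (List ℤ) :=
  [[], [], [], [], [], [], [], [], [], [], [-60], [-67, -66, -65, -64, -63, -62]]

lemma LA14_eq : LA14 = tabI tAf14 := by decide +kernel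

lemma LB14_eq : LB14 = tabI tBf14 := by decide +kernel

lemma ff14a : fst1F cfl14 tAf14 tBf14 Sf14a = true := by decide +kernel

lemma ff14b : fst2F cfl14 tAf14 tBf14 Sf14b = true := by decide +kernel

theorem tabf14 : TabF 14 4 cf14 LA14 LB14 Ef14 Sf14a Sf14b XN := by
  refine ⟨by norm_num, by norm_num, chkEf14, chkSf14a, chkSf14b, ?_, ?_, ?_, ?_, ?_, ?_, ?_, ?_⟩
  · decide +kernel
  · decide +kernel
  · decide +kernel
  · decide +kernel
  · decide +kernel
  · rw [LA14_eq, LB14_eq]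
    exact chk1F_of capf14 ff14a
  · rw [LA14_eq, LB14_eq]
    exact chk2F_of (by norm_num) capf14 ff14b
  · decide +kernel

/-- rounds -/
def rd14 (XL : List ℤ) (u : List ℤ) : List ℤ :=
  rnds (aX LA14 LB14 XL ((14 : ℕ) : ℤ)) nof14 nef14 cf14 (odds LA14.length)
    (evens LA14.length) ((14 : ℕ) : ℤ) 300 4 12 u

/-- the windows `0, …, 3` -/
lemma sw14_1 : rd14 [] ((List.range 4).map fun w => min (lwf14 w) (cf14 w + 1)) = [75, 69, 62, 54] := by
  decide +kernel

lemma sw14_2 : rd14 [43] [75, 69, 62, 54] = [91, 84, 76, 64] := by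
  decide +kernel

lemma nm_14_43 : Nm 14 (11 ^ 2 + 43) (12 ^ 2 + 54) := by
  constructor <;> decide +kernel

section

variable {lo hi : Tops P → ℕ → ℕ} {e : Tops P → ℕ → ℕ → P}

/-- the window `3` -/
lemma w3h14 (K : Ctx P r 14 lo hi e) : W3H P r 14 lo hi 63 (nof14 3) (nef14 3) 0 := by
  intro N θ3 θ4 S hJ
  obtain ⟨v, M, W, B⟩ := win3_sy K (by norm_num) S (cT := 63) (LE := [16]) (LO := []) (lb := 0)
    chkEr14 (by decide +kernel) (fun h => absurd h (by norm_num))
    (by decide +kernel) (by decide +kernel) (fun h => absurd h (by norm_num))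
    (fun _ => by decide +kernel) (fun _ => Or.inl ⟨by decide +kernel, by decide +kernel⟩)
    (by norm_num) (by norm_num) (by norm_num) (by decide +kernel) (by decide +kernel) hJ
  exact ⟨_, v, M, W, B⟩

/-- the state after the window `4` at `43`, for a given balance at the window `2` -/
theorem ph14 (K : Ctx P r 14 lo hi e) (hJ : ∃ z : P, Hul.Jn z) {V2 : ℤ}
    (h2 : WinB P 14 2 (cf14 2) (nof14 2) (nef14 2) (lwf14 2) V2) :
    ∃ V : ℕ → ℤ, V 2 = V2 ∧ Bals P 14 cf14 nof14 nef14 lwf14 V ∧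
      StF P 14 V [91, 84, 76, 64] [43] := by
  classical
  have hN := noP_XN (P := P) 14
  have T := tabf14
  obtain ⟨N, θ3, θ4, Nf, θf, D, S, F⟩ := exists_fs K (by norm_num)
  obtain ⟨K3, v, M, W, B3⟩ := w3h14 K N θ3 θ4 S hJ
  obtain ⟨V0, h0⟩ : ∃ V, WinB P 14 0 (cf14 0) (nof14 0) (nef14 0) (lwf14 0) V := K.win0 hJ
  obtain ⟨V1, h1⟩ : ∃ V, WinB P 14 1 (cf14 1) (nof14 1) (nef14 1) (lwf14 1) V :=
    K.win1g (by norm_num) chkEr14 (by decide +kernel) (fun h => absurd h (by norm_num)) hJ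
  obtain ⟨V, hV0, hV1, hV2, hV3⟩ : ∃ V : ℕ → ℤ, V 0 = V0 ∧ V 1 = V1 ∧ V 2 = V2 ∧
      V 3 = (v : ℤ) - ((14 + 1 - 3 : ℕ) : ℤ) ^ 2 :=
    ⟨fun w => if w = 0 then V0 else if w = 1 then V1 else if w = 2 then V2 else
      (v : ℤ) - ((14 + 1 - 3 : ℕ) : ℤ) ^ 2, rfl, rfl, rfl, rfl⟩
  have hB : Bals P 14 cf14 nof14 nef14 lwf14 V := by
    intro w hw
    have : w = 0 ∨ w = 1 ∨ w = 2 ∨ w = 3 := by omega
    rcases this with rfl | rfl | rfl | rfl
    · rw [hV0]; exact h0
    · rw [hV1]; exact h1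
    · rw [hV2]; exact h2
    · rw [hV3]; exact B3
  obtain ⟨hF1, hF2⟩ := fo_cost K (by norm_num) chkEr14 (by decide +kernel) (n := 183)
    (by decide +kernel) (by decide +kernel)
  have s1 : StF P 14 V [75, 69, 62, 54] [] := sw14_1 ▸ K.sweepF hN T hB (StF.start hB) 300 12
  have Y : Y4 r 14 K3 (11 ^ 2 + 43) (12 ^ 2 + 54) N _ θ3 θ4 :=
    y4_of S W M (s1.v3 hV3 (by norm_num)) nm_14_43
  have hno : HnO P 14 (11 ^ 2 + 43) := fun _ => Or.inl (by decide +kernel)
  have s2 : StF P 14 V [75, 69, 62, 54] [43] :=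
    K.stepF hN T hB s1 (T0 := 43) (p := 1) (hF1.mono (by norm_num))
      (by decide +kernel) (by decide +kernel) (by decide +kernel) (by decide +kernel)
      (fun _ => by decide +kernel)
      (fun hj hp => F.killG14 K Y hno (by norm_num) (hF2 _ (by norm_num)) (by norm_num) hj hp)
  exact ⟨V, hV2, hB, sw14_2 ▸ K.sweepF hN T hB s2 300 12⟩

end

end Pool.Agent.GaussPoset.Sm

end

/-! From `Pool.Agent.W_448s7_h27.PoC` -/

section

/-!
# The windows `2`, `3` for `j = 14`, correlated (MP_448cb3_co, S7)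
-/

namespace Pool.Agent.GaussPoset.Sm

set_option linter.unusedSectionVars false

open Polynomial Finset W4 Cp

universe u

section

variable {P : Type u} [Fintype P] [PartialOrder P] [DecidableEq P] {r j w : ℕ}
  {lo hi : Tops P → ℕ → ℕ} {e : Tops P → ℕ → ℕ → P}

/-- **the balance at the windows `2`, `3` with the larger labels, with the system** -/
theorem Ctx.winNs (K : Ctx P r j lo hi e) (hF : NoFo P j) (h10 : 10 ≤ j)
    (h12 : j % 2 = 0 → 12 ≤ j)
    (hwj : w = 2 ∨ (w = 3 ∧ 11 ≤ j)) {c0 cT : ℕ}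
    {LE LO : List ℤ} {lb : ℤ} {E : List (ℕ × ℕ × ℕ)} (hE : ChkE j E) (h0 : (0, 0, 0) ∈ E)
    (hb : j % 2 = 1 → ∀ s ∈ E, (s.1 : ℤ) * ((j : ℤ) - w) - s.2.1 ≤ 5 * ((j : ℤ) - w))
    (c1 : ∀ a ∈ Finset.Icc 2 ((j + 1) / 2), (j + 1 - w) ^ 2 + c0 + 1 < stC w (j + 1) a)
    (c2 : ∀ a ∈ Finset.Icc 2 (j - 1), (j + 1 - w) ^ 2 + c0 + 1 < reC w (j + 1) a)
    (hc : c0 ≤ cT)
    (hcell : ∀ (N : Tops P → Finset P) (b : Tops P → ℕ) (θ : Tops P → P → ℕ),
      Wk r j w ((j + 1 - w) ^ 2 + c0) N b θ →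
      CellsN P j w ((j + 1 - w) ^ 2 + c0) ((j + 1 - w) ^ 2 + cT) N b θ
        (XL (j + 1 - w) LE) (XL (j + 1 - w) LO))
    (I : InS P j w ((j + 1 - w) ^ 2 + cT) (XL (j + 1 - w) LE) (XL (j + 1 - w) LO))
    (c6 : 2 * ((j + 1 - w) ^ 2 + cT) < 3 * (j + 1 - w) ^ 2 + 3 * (j + 1 - w))
    (c7 : cT < 7 * (j + 1 - w) + 10)
    (hl0 : lb ≤ 0) (hlE : ∀ x ∈ LE, lb ≤ x) (hlO : ∀ x ∈ LO, lb ≤ x)
    (hJ : ∃ z : P, Hul.Jn z) :
    ∃ (N : Tops P → Finset P) (b : Tops P → ℕ) (θ : Tops P → P → ℕ) (v : ℕ),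
      Wk r j w ((j + 1 - w) ^ 2 + c0) N b θ ∧ Unq P w b ∧ MnS j w N b θ v ∧
      WinB P j w cT (fun V => LO.elem V) (fun V => nz ((j + 1 - w : ℕ) : ℤ) V || LE.elem V)
      lb ((v : ℤ) - ((j + 1 - w : ℕ) : ℤ) ^ 2) := by
  have H := K.gt.H
  have h16 := K.h16
  have hw : w = 2 ∨ w = 3 := by omega
  have hsh : ∀ t : Tops P, lo t w = hi t w ∨ RectShape j (lo t) (hi t) ∨
      StairShape j (lo t) (hi t) ∨ StairShape j (fun k => k - hi t k) (fun k => k - lo t k) := by
    intro t
    rcases shape_cases (K.comp t) (by omega) (K.shape t) with h | h | ⟨a, h, h3⟩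
    · exact Or.inl (h w (by omega))
    · exact Or.inr (by tauto)
    · left
      have h4 := h.lt (h3 (by omega)) hwj
      rw [(h.low w (by omega)).1, (h.low w (by omega)).2]
  obtain ⟨N, θ, t1, t2, hs, hu⟩ := K.types (w := w) (by omega) hsh
  have W : Wk r j w ((j + 1 - w) ^ 2 + c0) N (fun t => hi t w - lo t w + 1) θ :=
    { gt := K.gt, hj := by omega, hw1 := by omega, hw := by omega, typ := t1, top := t2
      sum_b := hs
      hK := by omega
      rdeep := fun C _ hx _ h1 h2 h3 h4 => rdeep_of (by omega) (by omega) c2 C hx h1 h2 h3 h4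
      sdeep := fun _ _ _ _ C _ hx _ h1 h3 h4 => sdeep_of (by omega) (by omega) c1 C hx h1 h3 h4 }
  have L := W.lkN (by omega) h10 c6 hu I (hcell _ _ _ W)
  have hlow : ∀ z x x' : P, Cg z x x' → Sok j x → Sok j x' → j + 1 ≤ lev z →
      ∀ k, k < w → nab k z = 2 := by
    intro z x x' h hs hs' hl k hk
    rw [h.sum H (by omega), K.low_one' hF h10 hwj h hs hk, K.low_one' hF h10 hwj h.symm hs' hk]
  have hpen : OnePen P j (fun t => 2 ≤ hi t w - lo t w + 1) ∨ ∃ z : P, Hul.Jn z ∧
      ful w z ≤ (j + 1 - w) ^ 2 + 5 * (j - w) := by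
    rcases K.pen_or with h | ⟨hodd, z, x, x', h1, h2, h3, h4⟩
    · left
      intro e e' p p' hB
      refine h e e' p p' ?_
      rcases shape_cases (K.comp (topOf e)) (by omega) (K.shape (topOf e)) with h | h | ⟨a, h, h3⟩
      · have := h w (by omega)
        omega
      · exact h
      · have h4 := h.lt (h3 (by omega)) hwj
        have e1 := h.low w (by omega)
        omega
    · right
      have hs : Sok j x := ⟨fun hf => by
        have := hf.1
        have := (h1.lev_eq H).1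
        omega, fun _ hf => by
        have := hf.2.1
        omega⟩
      have hs' : Sok j x' := ⟨fun hf => by
        have := hf.1
        have := (h1.lev_eq H).2
        omega, fun _ hf => by
        have := hf.2.1
        omega⟩
      exact ⟨z, h1.jn, K.cheap (by omega) hodd hE h0 (hb hodd) h1 h2 h3 h4
        (hlow z x x' h1 hs hs' h2.ge)⟩
  obtain ⟨v, M, h⟩ := W.winBS (by omega) h12 (by omega) L h16 (cT := (cT : ℤ)) (lb := lb)
    (by push_cast; ring) (by exact_mod_cast c7) hl0 hlE hlO hlow hpen hJ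
  exact ⟨N, _, θ, v, W, hu, M, h⟩

end

section

variable {P : Type u} [Fintype P] [PartialOrder P] [DecidableEq P] {r j w K0 : ℕ}
  {N : Tops P → Finset P} {b : Tops P → ℕ} {θ : Tops P → P → ℕ}

/-- a natural cell of row `1` at the window `3` has two ancestors on the level `2` -/
lemma Wk.row1_two (W : Wk r j 3 K0 N b θ) {x : P} (hx : x ∉ unnat N) (hl : j ≤ lev x)
    (R : Row1 j 3 N θ x) : nab 2 x = 2 := by
  have HN := W.natSys
  have hj := W.hj
  have hxt : x ∈ N (topOf x) := HN.mem_iff.mpr ⟨hx, rfl⟩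
  have t1 := R.th
  generalize topOf x = t at hxt t1
  rcases W.typ t with ⟨g1, g2, g3, g5⟩ | ⟨Nc, co, h0, g1, g2, g4⟩ |
    ⟨Nc, co, h0, g1, g2, g3, g4, g5'⟩
  · exfalso
    rw [g2] at t1
    simp only at t1
    omega
  · rw [g1] at hxt
    rw [g2] at t1
    by_cases hJ : x ∈ junk (fun _ => True) Nc co ∨ x ∈ junk (fun _ => True) Nc (swp co)
    · exfalso
      unfold thR at t1
      rw [if_pos hJ] at t1
      omega
    · have hyN : x ∈ Nc := by
        rw [mem_natR] at hxt
        rcases hxt with h | h | h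
        · exact h
        · exact absurd (Or.inl h) hJ
        · exact absurd (Or.inr h) hJ
      have h1 := rect_th7 h0 (by norm_num) hyN hJ (by omega)
      have h2 := rect_nab h0.chart hyN (k := 2) (by omega)
      have h3 := h0.chart.lev x hyN
      omega
  · rw [g1] at hxt
    rw [g2] at t1
    by_cases hJ : x ∈ junk (fun c => c.1 ≤ c.2) Nc co
    · exfalso
      unfold thS at t1
      rw [if_pos hJ] at t1
      omega
    · have hyN : x ∈ Nc := by
        rw [mem_natS] at hxt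
        rcases hxt with h | h
        · exact h
        · exact absurd h hJ
      have h1 := stair_th7 h0 (by norm_num) g4 hyN hJ (by omega)
      have h2 := stair_nab h0.chart hyN (k := 2) (by omega)
      have h3 := h0.chart.lev x hyN
      have h4 : (co x).1 ≤ (co x).2 := h0.chart.mem x hyN
      omega

/-- the own pairs do not have the cost `12 ^ 2 + 65` -/
lemma Wk.own_ne14 (W : Wk r 14 3 K0 N b θ) {z : P} (hz : z ∈ bdR (rA N))
    (hF : ∀ x, z ⋖ x → x ∉ unnat N ∧ Str 3 N θ x)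
    (ht : ∀ x x', z ⋖ x → z ⋖ x' → topOf x = topOf x') (hh : hA N θ z = lev z - 3)
    (hc : cst 3 (hA N θ) z = 209) : False := by
  obtain ⟨x0, hx0, -⟩ := Hul.exists_cov (w := z) (v := (topOf z : P))
    (lt_of_le_of_ne (le_topOf z) (by
      intro h
      have h1 : lev (topOf z : P) = 0 := (topOf z).2
      have h2 := W.bd_lev hz
      rw [← h] at h1
      omega))
  obtain ⟨-, h2, h3, h4⟩ := W.own_owp hz hF (t := topOf x0) (fun x hx => ht x x0 hx hx0)
  have hlz := W.bd_lev hz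
  have hful : ful 3 z = 209 := by
    rw [← hc]
    exact (cst_eq_ful (by omega)).symm
  obtain ⟨c, hcz⟩ : ∃ c, lev z = 3 + c := ⟨lev z - 3, by omega⟩
  have hlow : c ^ 2 ≤ ful 3 z := by
    have := ful_ge (w := 3) (z := z) (c := c) (fun _ => 0) hcz (fun n hn1 hn2 => h4 _ (by omega)
      (by omega))
    simpa using this
  have hc14 : c ≤ 14 := by
    by_contra hcon
    have h5 : 15 ^ 2 ≤ c ^ 2 := Nat.pow_le_pow_left (by omega) 2
    omega
  by_cases h13 : c ≤ 13
  · have h5 : ful 3 z = c ^ 2 := ful_two hcz fun k hk1 hk2 => by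
      rcases Nat.lt_or_ge k 15 with h6 | h6
      · exact h2 k (by omega) (by omega)
      · rw [show k = lev z - 1 by omega]
        exact h3
    have h6 : c ^ 2 ≤ 13 ^ 2 := Nat.pow_le_pow_left h13 2
    omega
  · have hc : c = 14 := by omega
    subst hc
    have h5 : ful 3 z = ∑ k ∈ range (17 + 1), (k - 3) * nab k z := by
      unfold ful
      rw [hcz]
    have h6 : nab 17 z = 1 := by
      have := nab_self (z := z)
      rwa [hcz] at this
    have h7 : nab 16 z = 2 := by
      rw [hcz] at h3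
      exact h3
    rw [h5] at hful
    simp only [Finset.sum_range_succ, Finset.sum_range_zero, h6, h7, h2 4 (by norm_num) (by norm_num),
      h2 5 (by norm_num) (by norm_num), h2 6 (by norm_num) (by norm_num),
      h2 7 (by norm_num) (by norm_num), h2 8 (by norm_num) (by norm_num),
      h2 9 (by norm_num) (by norm_num), h2 10 (by norm_num) (by norm_num),
      h2 11 (by norm_num) (by norm_num), h2 12 (by norm_num) (by norm_num),
      h2 13 (by norm_num) (by norm_num), h2 14 (by norm_num) (by norm_num)] at hful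
    omega

/-- **no own elements of the cost `12 ^ 2 + 65` at the window `3`**, from the window `2` -/
theorem hk65 {K2 K3 : ℕ} {N2 : Tops P → Finset P} {b2 : Tops P → ℕ} {θ2 : Tops P → P → ℕ} {v2 : ℕ}
    (W2 : Wk r 14 2 K2 N2 b2 θ2) (L2 : Unq P 2 b2) (M2 : MnS 14 2 N2 b2 θ2 v2)
    (hv2 : 13 ^ 2 + 76 ≤ v2) (W : Wk r 14 3 K0 N b θ) :
    HkS P 14 3 K3 N b θ (XL (14 + 1 - 3) [65]) := by
  have hB : ∀ v, XL (14 + 1 - 3) [65] v → v = 209 := by
    intro v hv
    unfold XL at hv
    simp only [List.mem_singleton] at hv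
    norm_num at hv
    omega
  refine ⟨?_, ?_, ?_⟩
  · intro v a z x _ _ _ hv _ _ _ _ _ h
    have h1 := hB v hv
    have h2 := Nat.even_mul_succ_self a
    obtain ⟨c, hc⟩ := h2
    have h3 : a * (a + 1) = a ^ 2 + a := by ring
    omega
  · intro v z _ hz hc hv _ hF ht hh
    exact W.own_ne14 hz hF ht hh (hc.trans (hB v hv))
  · intro v a x _ hx _ hv _ R hl h
    have h1 := hB v hv
    have ha : a = 14 := by
      have h2 : a ≤ 14 := by
        by_contra hcon
        have : 15 ^ 2 ≤ a ^ 2 := Nat.pow_le_pow_left (by omega) 2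
        omega
      have h3 : 14 ≤ a := by
        by_contra hcon
        have : a ^ 2 ≤ 13 ^ 2 := Nat.pow_le_pow_left (by omega) 2
        omega
      omega
    subst ha
    have T := W.twn hx
    have hup := W.twSys.up x hx
    have hnat := W.twSys.nat x hx
    have hll : lev (twT N x) = lev x := lev_eq_of_up hup
    have h2 := W.row1_two hnat (by omega) R
    have h3 := W2.twin_le L2 M2 (x := twT N x) (x' := x) (a := 15) T.ne hup (by omega) (by omega)
      (fun k hk1 hk2 => by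
        rcases Nat.lt_or_ge k 3 with h4 | h4
        · rw [show k = 2 by omega, h2]
        · rw [R.nab k h4 hk2]) (by omega)
    omega

end

section

variable {P : Type u} [Fintype P] [PartialOrder P] [DecidableEq P] {r : ℕ}
  {lo hi : Tops P → ℕ → ℕ} {e : Tops P → ℕ → ℕ → P}

/-- the least cost of a join at a fold end -/
lemma fjn_cost_ge1 {w j : ℕ} (H : Gr P r) {z x x' : P} (h : FJn j z x x') (hw : w + 1 ≤ j) :
    foC w j + ∑ n ∈ range (j - w + 1), min (j - w - 1) n ≤ cst w (fun _ => j - w - 1) z := by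
  obtain ⟨hc, hlz, hlx, hj2, hn⟩ := h
  have hl2 := (hc.lev_eq H).2
  have s0 := cst_shift (i := w) (h := fun _ => j - w - 1) (a := j - w + 1) (x := z) (by omega)
  rw [Finset.sum_range_succ] at s0
  have s4 : min (j - w - 1) (j - w + 1) * nab (w + (j - w + 1)) z = j - w - 1 := by
    rw [Nat.min_eq_left (by omega), show w + (j - w + 1) = lev z by omega, nab_self, mul_one]
  rw [s4] at s0
  rw [s0]
  unfold foC
  have s5 : ∑ n ∈ range (j - w + 1), min (j - w - 1) n *
      (min ((w + n) / 2) (j / 2) + 1 - ((w + n) - j / 2)) +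
      ∑ n ∈ range (j - w + 1), min (j - w - 1) n ≤
      ∑ n ∈ range (j - w + 1), min (j - w - 1) n * nab (w + n) z := by
    rw [← Finset.sum_add_distrib]
    refine Finset.sum_le_sum fun n hn' => ?_
    rw [mem_range] at hn'
    have a1 := hn (w + n) (by omega)
    have a2 := hc.sum H (k := w + n) (by omega)
    have a3 : 1 ≤ nab (w + n) x' := one_le_nab (by omega)
    calc min (j - w - 1) n * (min ((w + n) / 2) (j / 2) + 1 - ((w + n) - j / 2)) +
          min (j - w - 1) n
        = min (j - w - 1) n * ((min ((w + n) / 2) (j / 2) + 1 - ((w + n) - j / 2)) + 1) := by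
          ring
      _ ≤ min (j - w - 1) n * nab (w + n) z := Nat.mul_le_mul_left _ (by omega)
  omega

theorem numS14_2 : NumS 14 2 (13 ^ 2 + 75) [24] [] := by constructor <;> decide +kernel

theorem numS14_3 : NumS 14 3 (12 ^ 2 + 74) [16, 66, 67] [64, 65] := by
  constructor <;> decide +kernel

/-- the window `2` for `j = 14`, with the system -/
theorem Ctx.sys2_14 (K : Ctx P r 14 lo hi e) (hJ : ∃ z : P, Hul.Jn z) :
    ∃ (N : Tops P → Finset P) (b : Tops P → ℕ) (θ : Tops P → P → ℕ) (v : ℕ),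
      Wk r 14 2 (13 ^ 2 + 74) N b θ ∧ Unq P 2 b ∧ MnS 14 2 N b θ v ∧
      WinB P 14 2 75 (fun V => ([] : List ℤ).elem V)
        (fun V => nz ((14 + 1 - 2 : ℕ) : ℤ) V || ([24] : List ℤ).elem V) 0
        ((v : ℤ) - ((14 + 1 - 2 : ℕ) : ℤ) ^ 2) :=
  K.winNs (fun h => absurd h (by norm_num)) (by norm_num) (by norm_num) (Or.inl rfl) (c0 := 74)
    (cT := 75) chkEr14 (by decide +kernel) (fun h => absurd h (by norm_num))
    (by decide +kernel) (by decide +kernel) (by norm_num)
    (fun N b θ W => W.cellsS le_rfl numS14_2)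
    { hfl := fun h => absurd h (by norm_num)
      hcc := fun _ => Or.inr (Or.inl (by decide +kernel))
      hFo := fun _ => fjn_lt_of K.gt.H (by norm_num) (by decide +kernel)
      hfv := fun _ => Or.inr (Or.inl ⟨by decide +kernel, by unfold XL; decide +kernel⟩) }
    (by norm_num) (by norm_num) le_rfl (by decide) (by decide) hJ

/-- the window `3` for `j = 14` up to `74` -/
theorem Ctx.sys3_14 (K : Ctx P r 14 lo hi e) {N : Tops P → Finset P} {θ3 θ4 : Tops P → P → ℕ}
    (S : Sy P 14 lo hi N θ3 θ4) {K2 : ℕ} {N2 : Tops P → Finset P} {b2 : Tops P → ℕ}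
    {θ2 : Tops P → P → ℕ} {v2 : ℕ} (W2 : Wk r 14 2 K2 N2 b2 θ2) (L2 : Unq P 2 b2)
    (M2 : MnS 14 2 N2 b2 θ2 v2) (hv2 : 13 ^ 2 + 76 ≤ v2) (hJ : ∃ z : P, Hul.Jn z) :
    ∃ V : ℕ, MnS 14 3 N (fun t => hi t 3 - lo t 3 + 1) θ3 V ∧
      Wk r 14 3 (12 ^ 2 + 63) N (fun t => hi t 3 - lo t 3 + 1) θ3 ∧
      WinB P 14 3 74 (fun V => ([64, 65] : List ℤ).elem V)
        (fun V => (nz ((14 + 1 - 3 : ℕ) : ℤ) V && !(([65] : List ℤ).elem V)) ||
          ([16, 66, 67] : List ℤ).elem V) 0 ((V : ℤ) - ((14 + 1 - 3 : ℕ) : ℤ) ^ 2) :=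
  K.winSyH (by norm_num) S (c0 := 63) (cT := 74) chkEr14 (by decide +kernel)
    (fun h => absurd h (by norm_num)) (by decide +kernel) (by decide +kernel) (by norm_num)
    (fun N b θ W => W.cellsS (by norm_num) numS14_3)
    (fun N b θ W _ => hk65 W2 L2 M2 hv2 W)
    { hfl := fun h => absurd h (by norm_num)
      hcc := fun _ => Or.inr (Or.inl (by decide +kernel))
      hFo := fun _ z x x' h => lt_of_lt_of_le (by decide +kernel)
        (fjn_cost_ge1 K.gt.H h (by norm_num))
      hfv := fun _ => Or.inr (Or.inl ⟨by decide +kernel, by unfold XL; decide +kernel⟩) }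
    (by norm_num) (by norm_num) le_rfl (by decide) (by decide) hJ

end

end Pool.Agent.GaussPoset.Sm

end

/-! From `Pool.Agent.W_448s7_h27.PoJ14` -/

section

/-!
S7 for `j = 14`: the window `3` up to `74` (MP_448cb3_co).
-/

namespace Pool.Agent.GaussPoset.Sm

set_option linter.unusedSectionVars false

open Finset Wd Ec W4

universe u

variable {P : Type u} [Fintype P] [PartialOrder P] [DecidableEq P] {r : ℕ}

/-- caps -/
def cg14 (w : ℕ) : ℤ :=
  if w = 0 then cap0 14 else if w = 1 then ((14 * (14 - 1) / 2 : ℕ) : ℤ) - 1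
  else if w = 2 then 75 else if w = 3 then 74 else 43

/-- even noise -/
def neg14 (w : ℕ) (V : ℤ) : Bool :=
  if w = 0 then false else if w = 1 then nz 14 V
  else if w = 2 then (nz ((14 + 1 - 2 : ℕ) : ℤ) V || ([24] : List ℤ).elem V)
  else ((nz ((14 + 1 - 3 : ℕ) : ℤ) V && !(([65] : List ℤ).elem V)) ||
    ([16, 66, 67] : List ℤ).elem V)

/-- odd noise -/
def nog14 (w : ℕ) (V : ℤ) : Bool :=
  if w = 0 then false else if w = 1 then false
  else if w = 2 then ([] : List ℤ).elem V else ([64, 65] : List ℤ).elem V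

/-- caps as a list -/
def cgl14 : List (ℕ × ℕ) := [(14, 107), (13, 90), (12, 75), (11, 74), (10, 43)]

lemma capg14 : CapL 14 4 cg14 cgl14 := by decide +kernel

/-- lines with `g + 300`, two elements above on the level `4` -/
def tAg14 : List (List ℕ) :=
  [[300], [293, 294, 295, 296, 297, 298], [286, 287, 288, 289, 290, 291, 292, 293, 294, 295,
   296, 303], [291, 296, 297, 298, 299, 300, 301, 302, 303], [284, 285, 286, 287, 288, 289, 290,
   291, 292, 293, 294, 295, 296, 297, 298, 299, 300, 301, 302, 303, 308], [275, 280, 294, 295,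
   296, 297, 298, 299, 300, 301, 302, 303, 304, 305, 306, 307, 308, 309], [268, 269, 270, 271,
   272, 273, 274, 275, 276, 277, 278, 282, 287, 288, 289, 290, 291, 292, 293, 294, 295, 296,
   297, 298, 299, 300, 301, 302, 303, 304, 305, 306, 307, 308, 309, 310, 315], [278, 283, 288,
   290, 291, 292, 293, 294, 295, 296, 297, 298, 299, 300, 301, 302, 303, 304, 305, 306, 307,
   308, 309], [266, 271, 272, 273, 274, 275, 276, 277, 278, 279, 280, 281, 282, 283, 284, 285,
   286, 287, 288, 289, 290, 291, 292, 293, 294, 295], [277, 281], [250, 255, 260], [], [], []]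

/-- lines with `g + 300`, at least three elements above on the level `4` -/
def tBg14 : List (List ℕ) :=
  [[], [], [], [], [], [], [], [], [], [], [240], [233, 234, 235, 236, 237, 238], [], [231]]

/-- lines -/
def LAg14 : List (List ℤ) :=
  [[0], [-7, -6, -5, -4, -3, -2], [-14, -13, -12, -11, -10, -9, -8, -7, -6, -5, -4, 3], [-9, -4,
   -3, -2, -1, 0, 1, 2, 3], [-16, -15, -14, -13, -12, -11, -10, -9, -8, -7, -6, -5, -4, -3, -2,
   -1, 0, 1, 2, 3, 8], [-25, -20, -6, -5, -4, -3, -2, -1, 0, 1, 2, 3, 4, 5, 6, 7, 8, 9], [-32,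
   -31, -30, -29, -28, -27, -26, -25, -24, -23, -22, -18, -13, -12, -11, -10, -9, -8, -7, -6,
   -5, -4, -3, -2, -1, 0, 1, 2, 3, 4, 5, 6, 7, 8, 9, 10, 15], [-22, -17, -12, -10, -9, -8, -7,
   -6, -5, -4, -3, -2, -1, 0, 1, 2, 3, 4, 5, 6, 7, 8, 9], [-34, -29, -28, -27, -26, -25, -24,
   -23, -22, -21, -20, -19, -18, -17, -16, -15, -14, -13, -12, -11, -10, -9, -8, -7, -6, -5],
   [-23, -19], [-50, -45, -40], [], [], []]

/-- lines -/
def LBg14 : List (List ℤ) :=
  [[], [], [], [], [], [], [], [], [], [], [-60], [-67, -66, -65, -64, -63, -62], [], [-69]]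

lemma LAg14_eq : LAg14 = tabI tAg14 := by decide +kernel

lemma LBg14_eq : LBg14 = tabI tBg14 := by decide +kernel

lemma fg14a : fst1F cgl14 tAg14 tBg14 Sf14a = true := by decide +kernel

lemma fg14b : fst2F cgl14 tAg14 tBg14 Sf14b = true := by decide +kernel

theorem tabg14 : TabF 14 4 cg14 LAg14 LBg14 Ef14 Sf14a Sf14b XN := by
  refine ⟨by norm_num, by norm_num, chkEf14, chkSf14a, chkSf14b, ?_, ?_, ?_, ?_, ?_, ?_, ?_, ?_⟩
  · decide +kernel
  · decide +kernel
  · decide +kernel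
  · decide +kernel
  · decide +kernel
  · rw [LAg14_eq, LBg14_eq]
    exact chk1F_of capg14 fg14a
  · rw [LAg14_eq, LBg14_eq]
    exact chk2F_of (by norm_num) capg14 fg14b
  · decide +kernel

/-- rounds -/
def rg14 (XL : List ℤ) (u : List ℤ) : List ℤ :=
  rnds (aX LAg14 LBg14 XL ((14 : ℕ) : ℤ)) nog14 neg14 cg14 (odds LAg14.length)
    (evens LAg14.length) ((14 : ℕ) : ℤ) 300 4 9 u

/-- the windows `0, …, 3` -/
lemma sg14_1 : rg14 [43] [91, 84, 76, 0] = [99, 91, 76, 75] := by
  decide +kernel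

section

variable {lo hi : Tops P → ℕ → ℕ} {e : Tops P → ℕ → ℕ → P}

/-- **the state for `j = 14`** from the windows `2` up to `75`, `3` up to `74` -/
theorem pg14 (K : Ctx P r 14 lo hi e) (hJ : ∃ z : P, Hul.Jn z) :
    ∃ V : ℕ → ℤ, Bals P 14 cg14 nog14 neg14 lwf14 V ∧ StF P 14 V [99, 91, 76, 75] [43] := by
  classical
  obtain ⟨N2, b2, θ2, v2, W2, L2, M2, B2⟩ := K.sys2_14 hJ
  obtain ⟨V, hV2, hB, s3⟩ := ph14 K hJ (V2 := (v2 : ℤ) - ((14 + 1 - 2 : ℕ) : ℤ) ^ 2) B2
  have hv2 : 13 ^ 2 + 76 ≤ v2 := by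
    have h1 := s3.bel.2 2 (by norm_num)
    rw [hV2] at h1
    simp only [List.getD_cons_succ, List.getD_cons_zero] at h1
    norm_num at h1
    omega
  obtain ⟨N, θ3, θ4, S⟩ := exists_sy K (by norm_num)
  obtain ⟨v, -, -, B3⟩ := K.sys3_14 S W2 L2 M2 hv2 hJ
  obtain ⟨V', hV'⟩ : ∃ V' : ℕ → ℤ, V' = fun w => if w = 3 then (v : ℤ) -
      ((14 + 1 - 3 : ℕ) : ℤ) ^ 2 else V w := ⟨_, rfl⟩
  have hB' : Bals P 14 cg14 nog14 neg14 lwf14 V' := by
    intro w hw
    have : w = 0 ∨ w = 1 ∨ w = 2 ∨ w = 3 := by omega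
    rcases this with rfl | rfl | rfl | rfl
    · rw [hV']; exact hB 0 (by norm_num)
    · rw [hV']; exact hB 1 (by norm_num)
    · rw [hV']; exact hB 2 (by norm_num)
    · rw [hV']; exact B3
  have s4 : StF P 14 V' [91, 84, 76, 0] [43] := by
    have h0 := (StF.start hB').bel.2 3 le_rfl
    have a0 := s3.bel.2 0 (by norm_num)
    have a1 := s3.bel.2 1 (by norm_num)
    have a2 := s3.bel.2 2 (by norm_num)
    refine ⟨⟨rfl, fun w hw => ?_⟩, s3.kill⟩
    have : w = 0 ∨ w = 1 ∨ w = 2 ∨ w = 3 := by omega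
    rcases this with rfl | rfl | rfl | rfl
    · rw [hV']; exact a0
    · rw [hV']; exact a1
    · rw [hV']; exact a2
    · exact h0
  exact ⟨V', hB', sg14_1 ▸ K.sweepF (noP_XN (P := P) 14) tabg14 hB' s4 300 9⟩

end

end Pool.Agent.GaussPoset.Sm

end

/-! From `Pool.Agent.W_448s7_h27.PoH` -/

section

/-!
# Twins and pendants bounded by their full costs (MP_448cb3_co, S7)
-/

namespace Pool.Agent.GaussPoset.Sm

set_option linter.unusedSectionVars false

open Polynomial Finset W4 Cp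

universe u

section

variable {P : Type u} [Fintype P] [PartialOrder P] [DecidableEq P] {r j w K0 : ℕ}
  {N : Tops P → Finset P} {b : Tops P → ℕ} {θ : Tops P → P → ℕ}

lemma ful_congr_up {x y : P} (hup : ∀ u, x < u ↔ y < u) : ful w x = ful w y := by
  have e : lev x = lev y := lev_eq_of_up hup
  unfold ful
  rw [Finset.sum_range_succ, Finset.sum_range_succ, e, nab_self, ← e, nab_self]
  congr 1
  refine Finset.sum_congr rfl fun k hk => ?_
  rw [mem_range] at hk
  rw [nab_congr_up (x := y) (y := x) (fun v => hup v) (by omega)]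

/-- **a twin bounds the least raised cost by its full cost** -/
theorem Wk.twin_ful (W : Wk r j w K0 N b θ) (L : Unq P w b) {v : ℕ} (M : MnS j w N b θ v)
    {x x' : P} (hne : x ≠ x') (hup : ∀ u, x < u ↔ x' < u)
    (hj : j < lev x) (h2 : nab w x ≠ 1) : v + 1 ≤ ful w x + (lev x - w) := by
  have hj6 := W.hj
  have hw := W.hw
  have key : ∀ y : P, lev y = lev x → ful w y = ful w x → y ∈ unnat N →
      v + 1 ≤ ful w x + (lev x - w) := by
    intro y hly hfy hyu
    by_cases hyt : y ∈ twA N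
    · have T := W.twn hyt
      have e0 := W.twSys.up y hyt
      have el : lev (twT N y) = lev y := lev_eq_of_up e0
      have ef : ful w (twT N y) = ful w y := ful_congr_up e0
      have h3 := M.tw y hyt
      unfold tcS at h3
      by_cases hs : Spc j w N b θ (twT N y)
      · obtain ⟨Nc, co, C⟩ := hs
        have hlC := C.lev (by omega)
        rw [if_pos ⟨Nc, co, C⟩, tcst_cst (W.twnS hyt ⟨Nc, co, C⟩)] at h3
        simp only at h3
        have h4 := cst_le_ful w (fun _ => j - w + 1) (twT N y)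
        omega
      · rw [if_neg hs, tcst_cst T] at h3
        simp only at h3
        have h4 := cst_le_ful w (fun _ => thA N θ (twT N y) + 1) (twT N y)
        have h6 := T.lt
        simp only at h6
        omega
    · have h3 : v ≤ ful w y := min_le_ful (rA_pos W) M.bd (mem_rA.mpr ⟨hyu, hyt⟩)
      omega
  by_cases hx : x ∈ unnat N
  · exact key x rfl rfl hx
  · by_cases hx' : x' ∈ unnat N
    · have el : lev x = lev x' := lev_eq_of_up hup
      exact key x' el.symm (ful_congr_up fun u => (hup u).symm) hx'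
    · exact absurd (W.nat_up_inj L hx hx' hup hj.le h2) hne

/-- a pendant with few ancestors on the level `6` is far -/
theorem Wk.pend_far6 (W : Wk r j w K0 N b θ) (L : Unq P w b) (hj10 : 11 ≤ j) {z x : P}
    (hzx : z ⋖ x) (honly : ∀ y, z ⋖ y → y = x) (hl : j < lev z)
    (hn : nab 6 z ≤ 3) (h2 : nab w z ≠ 1) : z ∈ rA N := by
  classical
  by_contra hz
  have H := W.gt.H
  have HN := W.natSys
  have hj := W.hj
  have hw := W.hw
  obtain ⟨y, hy, hup⟩ : ∃ y, y ∉ unnat N ∧ ∀ u, y < u ↔ z < u := by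
    by_cases h : z ∈ unnat N
    · by_cases ht : z ∈ twA N
      · exact ⟨twT N z, W.twSys.nat z ht, W.twSys.up z ht⟩
      · exact absurd (mem_rA.mpr ⟨h, ht⟩) hz
    · exact ⟨z, h, fun u => Iff.rfl⟩
  have el : lev y = lev z := lev_eq_of_up hup
  have en : ∀ k, k < lev z → nab k y = nab k z := fun k hk => nab_congr_up hup hk
  have huc : (Win.uc y).card ≤ 1 := by
    rw [Finset.card_le_one]
    intro a ha c hc
    rw [Win.mem_uc] at ha hc
    rw [honly a ((cov_of_up hup).mp ha), honly c ((cov_of_up hup).mp hc)]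
  have h2' : nab w y ≠ 1 := by
    rw [en w (by omega)]
    exact h2
  have hyt : y ∈ N (topOf y) := HN.mem_iff.mpr ⟨hy, rfl⟩
  have t1 : θ (topOf y) y + 1 ≤ lev y - w := by
    rcases W.cases hy (by omega) with h | h | h
    · exact absurd (W.str_nab L hy h (by omega)) h2'
    · exact h.th.le
    · exact h.th
  generalize topOf y = t at hyt t1
  rcases W.typ t with ⟨g1, g2, g3, g5⟩ | ⟨Nc, co, h0, g1, g2, g4⟩ |
    ⟨Nc, co, h0, g1, g2, g3, g4, g5'⟩
  · rw [g2] at t1
    simp only at t1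
    omega
  · rw [g1] at hyt
    rw [g2] at t1
    by_cases hJ : y ∈ junk (fun _ => True) Nc co ∨ y ∈ junk (fun _ => True) Nc (swp co)
    · unfold thR at t1
      rw [if_pos hJ] at t1
      omega
    · have hyN : y ∈ Nc := by
        rw [mem_natR] at hyt
        rcases hyt with h | h | h
        · exact h
        · exact absurd (Or.inl h) hJ
        · exact absurd (Or.inr h) hJ
      have h1 := rect_th7 h0 hw hyN hJ (by omega)
      have h3 := chart_inner_uc h0.chart H hyN (by omega) (by omega)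
      omega
  · rw [g1] at hyt
    rw [g2] at t1
    by_cases hJ : y ∈ junk (fun c => c.1 ≤ c.2) Nc co
    · unfold thS at t1
      rw [if_pos hJ] at t1
      omega
    · have hyN : y ∈ Nc := by
        rw [mem_natS] at hyt
        rcases hyt with h | h
        · exact h
        · exact absurd h hJ
      have h1 := stair_th7 h0 hw g4 hyN hJ (by omega)
      have h3 : (co y).1 ≤ (co y).2 := h0.chart.mem y hyN
      have h5 := h0.chart.lev y hyN
      rcases Nat.lt_or_ge (co y).1 (co y).2 with h4 | h4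
      · have h6 := stair_inner_uc h0.chart H hyN (by omega) h4
        omega
      · have h6 := stair_nab h0.chart hyN (k := 6) (by omega)
        rw [en 6 (by omega)] at h6
        omega

/-- **a pendant with few ancestors on the level `6` bounds the least raised cost** -/
theorem Wk.pend_ful (W : Wk r j w K0 N b θ) (L : Unq P w b) (hj10 : 11 ≤ j) {v : ℕ}
    (M : MnS j w N b θ v) {z x : P} (hzx : z ⋖ x) (honly : ∀ y, z ⋖ y → y = x)
    (hl : j < lev z) (hn : nab 6 x ≤ 3) (h2 : nab w x ≠ 1) :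
    v ≤ ful w x + (lev z - w) := by
  have H := W.gt.H
  have e1 := H.gradedBelow.lev_covBy hzx
  have hj := W.hj
  have hw := W.hw
  have hnz : ∀ k, k ≤ lev x → nab k z = nab k x := fun k hk => nab_only honly hzx (by omega)
  have h3 := W.pend_far6 L hj10 hzx honly hl (by rw [hnz 6 (by omega)]; exact hn)
    (by rw [hnz w (by omega)]; exact h2)
  have h4 : v ≤ ful w z := min_le_ful (rA_pos W) M.bd h3
  have h5 := ful_only (w := w) H.gradedBelow hzx honly
  omega

end

section

variable {P : Type u} [Fintype P] [PartialOrder P] [DecidableEq P] {r j : ℕ}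
  {lo hi : Tops P → ℕ → ℕ} {e : Tops P → ℕ → ℕ → P}

/-- below a single element of the level `k` there are at most two elements of the level `k + 1`
above `x` -/
theorem Ctx.nab_one_two (K : Ctx P r j lo hi e) {x : P} {k : ℕ} (hk : k + 1 ≤ j)
    (hl : k + 1 ≤ lev x) (h1 : nab k x = 1) : nab (k + 1) x ≤ 2 := by
  classical
  have H := K.gt.H
  unfold nab at h1
  rw [Finset.card_eq_one] at h1
  obtain ⟨u, hu⟩ := h1
  have hu' : u ∈ (lv P k).filter (fun y => x ≤ y) := by rw [hu]; exact mem_singleton_self _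
  rw [mem_filter, mem_lv] at hu'
  have C := K.comp (topOf u)
  have hut := le_topOf u
  obtain ⟨p, p1, p2, p3⟩ := C.surj u hut (by omega)
  rw [hu'.1] at p1 p2 p3
  have hsub : (lv P (k + 1)).filter (fun y => x ≤ y) ⊆
      {e (topOf u) (k + 1) p, e (topOf u) (k + 1) (p + 1)} := by
    intro y hy
    rw [mem_filter, mem_lv] at hy
    have hyne : y ≠ (topOf y : P) := by
      intro h
      have h3 : lev (topOf y : P) = 0 := (topOf y).2
      rw [← h] at h3
      omega
    obtain ⟨c, hc, -⟩ := Hul.exists_cov (w := y) (v := (topOf y : P))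
      (lt_of_le_of_ne (le_topOf y) hyne)
    have hlc := (H.covBy_iff.mp hc).2
    have hcu : c = u := by
      have : c ∈ (lv P k).filter (fun y => x ≤ y) := by
        rw [mem_filter, mem_lv]
        exact ⟨by omega, hy.2.trans hc.1.le⟩
      rw [hu, mem_singleton] at this
      exact this
    subst hcu
    obtain ⟨s, s1, s2, s3⟩ := C.surj y (hc.1.le.trans hut) (by omega)
    rw [hy.1] at s1 s2 s3
    have h4 := (C.cov k s p (by omega) s1 s2 p1 p2).mp (by rw [s3, p3]; exact hc)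
    rw [mem_insert, mem_singleton, ← s3]
    rcases h4 with h4 | h4
    · left; rw [h4]
    · right; rw [← h4]
  exact (Finset.card_le_card hsub).trans Finset.card_le_two

/-- the full cost at the window `3` -/
lemma ful_three {x : P} (hj : 14 = j) (hl : lev x = j + 1)
    (hn : ∀ k, 4 ≤ k → k < j → nab k x = 3) (h2 : nab j x = 2) : ful 3 x = 199 := by
  subst hj
  have h3 : nab 15 x = 1 := by
    have := nab_self (z := x)
    rwa [hl] at this
  unfold ful
  rw [hl]
  simp only [Finset.sum_range_succ, Finset.sum_range_zero, h3, h2, hn 4 (by norm_num) (by norm_num),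
    hn 5 (by norm_num) (by norm_num), hn 6 (by norm_num) (by norm_num),
    hn 7 (by norm_num) (by norm_num), hn 8 (by norm_num) (by norm_num),
    hn 9 (by norm_num) (by norm_num), hn 10 (by norm_num) (by norm_num),
    hn 11 (by norm_num) (by norm_num), hn 12 (by norm_num) (by norm_num),
    hn 13 (by norm_num) (by norm_num)]
  norm_num

end

end Pool.Agent.GaussPoset.Sm

end
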