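import Mathlib
import Pool.Agent.W_448zz_h61.Ns
import Pool.Agent.W_448zz_h61.M106
import Pool.Agent.W_448zz_h61.M134
import Pool.Agent.W_448zz_h61.M137

/-! From `Pool.Agent.W_448s8f_h76.FkA` -/

section

/-!
# S8 for `j = 12`, stage 1: the naive windows `0, …, 3`, no fold sides (MP_448cb3_co)
-/

namespace Pool.Agent.GaussPoset.Sm

set_option linter.unusedSectionVars false

open Finset Wd

universe u

variable {P : Type u} [Fintype P] [PartialOrder P] [DecidableEq P] {r : ℕ}

/-- ends -/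
def Ef12 : List (ℕ × ℕ × ℕ) :=
    [(0, 0, 0), (1, 2, 1), (1, 3, 0), (1, 4, 0), (1, 5, 0), (1, 6, 0), (3, 9, 1), (5, 20, 1),
    (5, 25, 0), (8, 39, 1)]

/-- sides, one level deeper -/
def Sf12a : List (ℕ × ℕ × ℕ) :=
    [(0, 0, 0), (0, 0, 1), (1, 1, 0), (1, 1, 1), (1, 2, 0), (1, 3, 0), (1, 4, 0), (1, 5, 0),
    (1, 6, 0), (2, 3, 1), (3, 6, 0), (3, 6, 1), (3, 9, 0), (4, 7, 1), (4, 10, 1), (5, 12, 1),
    (5, 15, 0), (5, 15, 1), (5, 20, 0), (5, 25, 0), (6, 13, 1), (6, 16, 1), (6, 21, 1),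
    (7, 23, 1), (8, 24, 1), (8, 31, 0), (8, 31, 1), (8, 39, 0), (9, 33, 0), (9, 40, 1),
    (10, 34, 1)]

/-- sides, two or more levels deeper -/
def Sf12b : List (ℕ × ℕ × ℕ) :=
    [(0, 0, 0), (0, 0, 1), (1, 1, 0), (1, 1, 1), (1, 1, 2), (1, 2, 0), (1, 3, 0), (1, 4, 0),
    (1, 5, 0), (1, 6, 0), (2, 3, 0), (2, 3, 1), (2, 3, 2), (3, 6, 0), (3, 6, 1), (3, 9, 0),
    (4, 7, 1), (4, 7, 2), (4, 7, 3), (4, 10, 0), (4, 10, 1), (4, 10, 2), (5, 12, 0),
    (5, 12, 1), (5, 15, 0), (5, 15, 1), (5, 20, 0), (5, 25, 0), (6, 13, 1), (6, 13, 2),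
    (6, 13, 3), (6, 16, 1), (6, 16, 2), (6, 21, 0), (6, 21, 1), (7, 23, 0), (7, 23, 1),
    (8, 24, 1), (8, 24, 2), (8, 24, 3), (8, 31, 0), (8, 31, 1), (8, 39, 0), (9, 33, 0),
    (9, 40, 0), (9, 40, 1), (10, 34, 1), (10, 34, 2)]

lemma chkEf12 : ChkE 12 Ef12 := by decide +kernel

lemma chkSf12a : ChkT 12 Sf12a := by decide +kernel

lemma chkSf12b : ChkS 12 2 Sf12b := by decide +kernel

/-- caps -/
def cf12 (w : ℕ) : ℤ :=
  if w = 0 then cap0 12 else if w = 1 then ((12 * (12 - 1) / 2 : ℕ) : ℤ) - 1 else if w = 2 then ((45 : ℕ) : ℤ) else ((35 : ℕ) : ℤ)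

/-- even noise -/
def nef12 (w : ℕ) (V : ℤ) : Bool :=
  if w = 0 then false else if w = 1 then nz 12 V else if w = 2 then (nz ((12 + 1 - 2 : ℕ) : ℤ) V || ([2] : List ℤ).elem V) else (nz ((12 + 1 - 3 : ℕ) : ℤ) V || ([-2] : List ℤ).elem V)

/-- odd noise -/
def nof12 (w : ℕ) (V : ℤ) : Bool :=
  if w = 0 then false else if w = 1 then false else if w = 2 then ([] : List ℤ).elem V else ([] : List ℤ).elem V

/-- lower bounds -/
def lwf12 (w : ℕ) : ℤ :=
  if w = 0 then 0 else if w = 1 then 0 else if w = 2 then (0) else (-2)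

lemma balf12 {lo hi : Tops P → ℕ → ℕ} {e : Tops P → ℕ → ℕ → P} (K : Ctx P r 12 lo hi e)
    (hF : NoFo P 12) (hJ : ∃ z : P, Hul.Jn z) :
    ∀ w ≤ 3, ∃ V, WinB P 12 w (cf12 w) (nof12 w) (nef12 w) (lwf12 w) V := by
  intro w hw
  have : w = 0 ∨ w = 1 ∨ w = 2 ∨ w = 3 := by omega
  rcases this with rfl | rfl | rfl | rfl
  · exact K.win0 hJ
  · exact K.win1 (by norm_num) chkEf12 (by decide +kernel) (by decide +kernel) hJ
  · exact K.win23' (w := 2) (cT := 45) (LE := [2]) (LO := []) (lb := 0) hF (by norm_num)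
      (by norm_num) chkEf12 (by decide +kernel)
      (fun h => absurd h (by norm_num))
      (by decide +kernel) (by decide +kernel)
      (fun h => absurd h (by norm_num))
      (fun _ => by decide +kernel)
      (fun _ => Or.inl ⟨by decide +kernel, by decide +kernel⟩)
      (by norm_num) (by norm_num) (by norm_num) (by decide +kernel) (by decide +kernel) hJ
  · exact K.win23' (w := 3) (cT := 35) (LE := [-2]) (LO := []) (lb := -2) hF (by norm_num)
      (by norm_num) chkEf12 (by decide +kernel)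
      (fun h => absurd h (by norm_num))
      (by decide +kernel) (by decide +kernel)
      (fun h => absurd h (by norm_num))
      (fun _ => by decide +kernel)
      (fun _ => Or.inl ⟨by decide +kernel, by decide +kernel⟩)
      (by norm_num) (by norm_num) (by norm_num) (by decide +kernel) (by decide +kernel) hJ

/-- caps as a list -/
def cfl12 : List (ℕ × ℕ) := [(12, 80), (11, 65), (10, 45), (9, 35)]

lemma capf12 : CapL 12 3 cf12 cfl12 := by decide +kernel

/-- lines with `g + 300`, by `κ` -/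
def tf12 : List (List ℕ) :=
  [[300], [294, 295, 296, 297, 298], [288, 289, 290, 291, 292, 293, 294, 295, 296, 303], [291,
    297, 298, 299, 300, 301, 302, 303], [285, 286, 287, 288, 289, 291, 292, 293, 294, 295, 296,
    297, 298, 299, 300, 301, 302, 303, 308], [275, 280, 294, 296, 297, 298, 299, 300, 301, 302,
    303, 304, 305, 306, 307, 308, 309], [269, 270, 271, 272, 273, 274, 275, 276, 277, 278, 282,
    288, 289, 290, 291, 292, 293, 294, 295, 296, 297, 298, 299, 300, 301, 302, 303, 304, 305,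
    306, 307, 308], [278, 283, 288, 291, 292, 293, 294, 295, 296], [261, 266, 271, 272, 273,
    274, 275, 276, 277, 278, 279, 280, 281, 282, 283, 284], [255, 256, 257, 258, 259], [250,
    255, 260]]

/-- lines with `g`, by `κ` -/
def Lf12 : List (List ℤ) :=
  [[0], [-6, -5, -4, -3, -2], [-12, -11, -10, -9, -8, -7, -6, -5, -4, 3], [-9, -3, -2, -1, 0,
    1, 2, 3], [-15, -14, -13, -12, -11, -9, -8, -7, -6, -5, -4, -3, -2, -1, 0, 1, 2, 3, 8],
    [-25, -20, -6, -4, -3, -2, -1, 0, 1, 2, 3, 4, 5, 6, 7, 8, 9], [-31, -30, -29, -28, -27,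
    -26, -25, -24, -23, -22, -18, -12, -11, -10, -9, -8, -7, -6, -5, -4, -3, -2, -1, 0, 1, 2,
    3, 4, 5, 6, 7, 8], [-22, -17, -12, -9, -8, -7, -6, -5, -4], [-39, -34, -29, -28, -27, -26,
    -25, -24, -23, -22, -21, -20, -19, -18, -17, -16], [-45, -44, -43, -42, -41], [-50, -45,
    -40]]

lemma Lf12_eq : Lf12 = tabI tf12 := by decide +kernel

lemma ff12a : fst1 cfl12 tf12 Sf12a = true := by decide +kernel

lemma ff12b : fst2 cfl12 tf12 Sf12b = true := by decide +kernel

theorem tabf12 : Tab' 12 3 cf12 Lf12 Ef12 Sf12a Sf12b X0 := by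
  refine ⟨by norm_num, chkEf12, chkSf12a, chkSf12b, ?_, ?_, ?_, ?_, ?_, ?_, ?_⟩
  · decide +kernel
  · decide +kernel
  · decide +kernel
  · decide +kernel
  · rw [Lf12_eq]
    exact chk1_of capf12 ff12a
  · rw [Lf12_eq]
    exact chk2_of (by norm_num) capf12 ff12b
  · decide +kernel

/-- the pairs of ends which are left -/
def Rf12 : List ((ℕ × ℕ × ℕ) × (ℕ × ℕ × ℕ)) :=
    [((1, 2, 1), (8, 39, 1)), ((1, 3, 0), (8, 39, 1)), ((1, 4, 0), (8, 39, 1)),
    ((1, 5, 0), (8, 39, 1)), ((3, 9, 1), (5, 20, 1)), ((3, 9, 1), (8, 39, 1)),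
    ((5, 20, 1), (3, 9, 1)), ((5, 20, 1), (5, 20, 1)), ((5, 20, 1), (5, 25, 0)),
    ((5, 20, 1), (8, 39, 1)), ((5, 25, 0), (5, 20, 1)), ((5, 25, 0), (5, 25, 0)),
    ((5, 25, 0), (8, 39, 1)), ((8, 39, 1), (1, 2, 1)), ((8, 39, 1), (1, 3, 0)),
    ((8, 39, 1), (1, 4, 0)), ((8, 39, 1), (1, 5, 0)), ((8, 39, 1), (3, 9, 1)),
    ((8, 39, 1), (5, 20, 1)), ((8, 39, 1), (5, 25, 0)), ((8, 39, 1), (8, 39, 1))]

lemma restf12 : rest 12 Ef12 X0 (ubd 12 3 cf12 lwf12 Lf12 nof12 nef12 250 8) = Rf12 := by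
  decide +kernel

/-- the sides of a join of level `13` which is no fold join -/
theorem leftf12 {lo hi : Tops P → ℕ → ℕ} {e : Tops P → ℕ → ℕ → P} (K : Ctx P r 12 lo hi e)
    {z x x' : P} (h : Cg z x x') (hl : lev z = 13) (hx : ¬ Fold 12 x) (hx' : ¬ Fold 12 x') :
    ∃ s s', (s, s') ∈ Rf12 ∧ Dt 12 x s ∧ Dt 12 x' s' := by
  have hok : ∀ y : P, lev y = 12 → ¬ Fold 12 y → Sok 12 y := fun y hy hf =>
    ⟨fun hh => by have := hh.1; omega, fun _ => hf⟩
  obtain ⟨l1, l2⟩ := h.lev_eq K.gt.H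
  have h1 := K.left' (noP_zero 12) (noFo_big le_rfl) tabf12
    (balf12 K (noFo_big le_rfl) ⟨z, h.jn⟩) 250 8 h hl (hok x (by omega) hx) (hok x' (by omega) hx')
  rw [restf12] at h1
  exact h1

end Pool.Agent.GaussPoset.Sm

end

/-! From `Pool.Agent.W_448s8f_h76.FkE` -/

section

/-!
# The inputs and the output of window `6` for `j = 12`, energies at most `20`
(MP_448cb3_co, S8)
-/

namespace Pool.Agent.GaussPoset.Sm

set_option linter.unusedSectionVars false

open Finset Wd W4

universe u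

variable {P : Type u} [Fintype P] [PartialOrder P] [DecidableEq P] {r j w : ℕ}

lemma uc_nab (H : Gr P r) {x : P} (hj : 1 ≤ j) (hl : lev x = j) :
    (Win.uc x).card = nab (j - 1) x := by
  classical
  unfold nab
  congr 1
  ext y
  rw [mem_filter, mem_lv, Win.mem_uc]
  constructor
  · intro g
    have := (H.covBy_iff.mp g).2
    exact ⟨by omega, g.1.le⟩
  · rintro ⟨g1, g2⟩
    refine H.covBy_iff.mpr ⟨lt_of_le_of_ne g2 (by rintro rfl; omega), by omega⟩

lemma Fold.uc (H : Gr P r) {x : P} (h : Fold j x) (hj : 2 ≤ j) : (Win.uc x).card = 1 := by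
  rw [uc_nab H (by omega) h.1]
  have h1 := h.2.2 (j - 1) (by omega)
  have h2 := h.2.1
  omega

variable {lo hi : Tops P → ℕ → ℕ} {e : Tops P → ℕ → ℕ → P}

lemma Ctx.only (K : Ctx P r j lo hi e) {x : P} (hl : lev x ≤ j) : x ∈ onlyB (topOf x) := by
  rw [mem_onlyB]
  intro s hs hxs
  by_contra hne
  exact K.gt.no_join x hl ⟨s, topOf x, hs, (topOf x).2, hne, hxs, le_topOf x⟩

/-- two covers with different tops -/
lemma Ctx.cg (K : Ctx P r j lo hi e) {z x x' : P} (hz : lev z = j + 1) (h1 : z ⋖ x)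
    (h2 : z ⋖ x') (h3 : topOf x ≠ topOf x') : Cg z x x' := by
  have e1 := (K.gt.H.covBy_iff.mp h1).2
  have e2 := (K.gt.H.covBy_iff.mp h2).2
  exact Cg.mk' h1 h2 (K.only (by omega)) (K.only (by omega)) h3

/-- the profile of an end of level `12` -/
theorem Ctx.endP (K : Ctx P r 12 lo hi e) {x : P} (hx : x ∈ onlyB (topOf x)) (hl : lev x = 12)
    (hend : (Win.uc x).card = 1) (hF : ¬ Fold 12 x) :
    ∃ m c b p q s : ℕ, (m, c, b, p, q, s) ∈ P12 ∧ Dt 12 x (m, c, b) ∧ nab 6 x = p + 1 ∧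
      nab 7 x = q + 1 ∧ nab 7 x + nab 8 x + nab 9 x + nab 10 x + nab 11 x + nab 12 x = 6 + s := by
  have h5 := K.h5
  have h12 : nab 12 x = 1 := by
    rw [← hl]
    exact nab_self
  rcases K.cases hx (by omega) (fun _ => hend) (fun h => by have := h.1; omega) with
    h | h | ⟨a, h, -⟩
  · exact absurd h hF
  · refine ⟨0, 0, 0, 0, 0, 0, by decide, ⟨h.mX.1, h.mX.2, h 10 (by omega)⟩, h 6 (by omega),
      h 7 (by omega), ?_⟩
    rw [h 7 (by omega), h 8 (by omega), h 9 (by omega), h 10 (by omega), h 11 (by omega), h12]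
  · obtain ⟨A, g1, g2, g3, -, g4, g5, -, g7, g8⟩ := late_prof K.gt (by omega) (K.comp _) h.two h.le
      h.low h.at_a hx (by omega) (fun _ => hend) rfl
    refine ⟨_, _, _, _, _, _, chkP12 a (mem_range.mpr (by have := h.le; omega)) (h.four (by omega))
      _ h.word (by simp) A g1 g2 (g3 0 hl), ⟨g4, g5, g7⟩, g8 6 (by omega), g8 7 (by omega), ?_⟩
    rw [g8 7 (by omega), g8 8 (by omega), g8 9 (by omega), g8 10 (by omega), g8 11 (by omega), h12]
    unfold sL
    omega

/-- the numbers of a fold end of level `12` -/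
lemma fold_n12 {x : P} (h : Fold 12 x) : nab 6 x = 4 ∧ nab 7 x = 3 ∧
    nab 7 x + nab 8 x + nab 9 x + nab 10 x + nab 11 x + nab 12 x = 12 := by
  have h6 := h.2.2 6 (by omega)
  have h7 := h.2.2 7 (by omega)
  have h8 := h.2.2 8 (by omega)
  have h9 := h.2.2 9 (by omega)
  have h10 := h.2.2 10 (by omega)
  have h11 := h.2.2 11 (by omega)
  have h12 := h.2.2 12 (by omega)
  omega

/-- the numbers of a join of level `13` -/
lemma cg_sum (H : Gr P r) {z x x' : P} (h : Cg z x x') (hz : lev z = 13) :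
    nab 6 z = nab 6 x + nab 6 x' ∧ nab 7 z = nab 7 x + nab 7 x' ∧
      nab 7 z + nab 8 z + nab 9 z + nab 10 z + nab 11 z + nab 12 z =
        (nab 7 x + nab 8 x + nab 9 x + nab 10 x + nab 11 x + nab 12 x) +
        (nab 7 x' + nab 8 x' + nab 9 x' + nab 10 x' + nab 11 x' + nab 12 x') := by
  rw [h.sum H (k := 6) (by omega), h.sum H (k := 7) (by omega), h.sum H (k := 8) (by omega),
    h.sum H (k := 9) (by omega), h.sum H (k := 10) (by omega), h.sum H (k := 11) (by omega),
    h.sum H (k := 12) (by omega)]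
  refine ⟨rfl, rfl, ?_⟩
  ring

lemma p12_a : ∀ q ∈ P12, 3 ≤ q.2.2.2.2.2 ∨ (q.2.2.2.1 = 0 ∧ q.2.2.2.2.1 = 0) ∨
    (q.2.2.2.1 = 1 ∧ q.2.2.2.2.1 = 0 ∧ q.2.2.2.2.2 = 0) ∨
    (q.2.2.2.1 = 0 ∧ q.2.2.2.2.1 = 1) := by
  decide +kernel

lemma p12_b : ∀ s ∈ Rf12, ∀ q ∈ P12, q.1 = s.1.1 → q.2.1 = s.1.2.1 →
    q.2.2.2.1 = 0 ∨ (q.2.2.2.1 = 1 ∧ q.2.2.2.2.1 = 1) := by
  decide +kernel

lemma p12_c : ∀ q ∈ P12, (q.1, q.2.1, q.2.2.1) ∈
    ([(1, 5, 0), (3, 9, 1), (5, 20, 1), (5, 25, 0), (8, 39, 1)] : List (ℕ × ℕ × ℕ)) ∨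
    ((q.2.2.2.1 = 0 ∧ q.2.2.2.2.1 = 0 ∧ q.2.2.2.2.2 ≤ 1) ∨
    (q.2.2.2.1 = 1 ∧ q.2.2.2.2.1 = 0 ∧ q.2.2.2.2.2 = 0)) := by
  decide +kernel

/-- **the hypothesis of window `6`, energies at most `20`** -/
theorem Ctx.hJ1 (K : Ctx P r 12 lo hi e) {z x x' : P} (hz : lev z = 13) (hzx : z ⋖ x)
    (hzx' : z ⋖ x') (hne : topOf x ≠ topOf x')
    (hx : (nab 6 x = 2 ∧ nab 7 x = 1) ∨ 3 ≤ nab 6 x) :
    21 ≤ nab 7 z + nab 8 z + nab 9 z + nab 10 z + nab 11 z + nab 12 z + 1 ∨
      (nab 6 z = 5 ∧ nab 7 z = 4) ∨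
      (nab 6 z = 6 ∧ nab 7 z = 4 ∧
        nab 7 z + nab 8 z + nab 9 z + nab 10 z + nab 11 z + nab 12 z + 1 = 19) ∨
      (nab 6 z = 5 ∧ nab 7 z = 5) := by
  have H := K.gt.H
  have h := K.cg hz hzx hzx' hne
  have hl := (h.lev_eq H).1
  have hl' := (h.lev_eq H).2
  obtain ⟨u1, u2⟩ := K.ends h hz
  obtain ⟨s1, s2, s3⟩ := cg_sum H h hz
  have key : ∀ y y' : P, Cg z y y' → Fold 12 y → (Win.uc y').card = 1 → lev y' = 12 →
      nab 6 z = nab 6 y + nab 6 y' → nab 7 z = nab 7 y + nab 7 y' →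
      nab 7 z + nab 8 z + nab 9 z + nab 10 z + nab 11 z + nab 12 z =
        (nab 7 y + nab 8 y + nab 9 y + nab 10 y + nab 11 y + nab 12 y) +
        (nab 7 y' + nab 8 y' + nab 9 y' + nab 10 y' + nab 11 y' + nab 12 y') →
      21 ≤ nab 7 z + nab 8 z + nab 9 z + nab 10 z + nab 11 z + nab 12 z + 1 ∨
      (nab 6 z = 5 ∧ nab 7 z = 4) ∨
      (nab 6 z = 6 ∧ nab 7 z = 4 ∧
        nab 7 z + nab 8 z + nab 9 z + nab 10 z + nab 11 z + nab 12 z + 1 = 19) ∨
      (nab 6 z = 5 ∧ nab 7 z = 5) := by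
    intro y y' hy hf uy ly t1 t2 t3
    obtain ⟨f1, f2, f3⟩ := fold_n12 hf
    by_cases hf' : Fold 12 y'
    · obtain ⟨f1', f2', f3'⟩ := fold_n12 hf'
      omega
    · obtain ⟨m, c, b, p, q, s, g1, -, g2, g3, g4⟩ := K.endP hy.only' ly uy hf'
      have g5 := p12_a _ g1
      simp only at g5
      omega
  by_cases hf : Fold 12 x
  · exact key x x' h hf u2 (by omega) s1 s2 s3
  by_cases hf' : Fold 12 x'
  · exact key x' x h.symm hf' u1 (by omega) (by omega) (by omega) (by omega)
  exfalso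
  obtain ⟨s, s', g1, g2, g3⟩ := leftf12 K h hz hf hf'
  obtain ⟨m, c, b, p, q, t, k1, k2, k3, k4, k5⟩ := K.endP h.only (by omega) u1 hf
  have e1 : (m : ℤ) = s.1 := by rw [← k2.1, g2.1]
  have e2 : (c : ℤ) = s.2.1 := by rw [← k2.2.1, g2.2.1]
  have e1' : m = s.1 := by exact_mod_cast e1
  have e2' : c = s.2.1 := by exact_mod_cast e2
  obtain ⟨s1', s2', s3'⟩ := s
  simp only at e1' e2'
  subst e1' e2'
  have g4 := p12_b _ g1 _ k1 rfl rfl
  simp only at g4
  omega

/-- **the partners of the fold ends after window `6`, energies at most `20`** -/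
theorem Ctx.foL_20 (K : Ctx P r 12 lo hi e)
    (hL : ∀ z x x' : P, lev z = 13 → z ⋖ x → z ⋖ x' → topOf x ≠ topOf x' → 3 ≤ nab 6 x →
      ¬ (nab 6 z = 5 ∧ nab 7 z = 4 ∧
        nab 7 z + nab 8 z + nab 9 z + nab 10 z + nab 11 z + nab 12 z + 1 ≤ 20) ∧
      ¬ (nab 6 z = 6 ∧ nab 7 z = 4 ∧
        nab 7 z + nab 8 z + nab 9 z + nab 10 z + nab 11 z + nab 12 z + 1 ≤ 19)) :
    FoL P 12 [(1, 5, 0), (3, 9, 1), (5, 20, 1), (5, 25, 0), (8, 39, 1)] := by
  intro z x x' h
  have H := K.gt.H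
  have h1 := h.1
  by_cases hf' : Fold 12 x'
  · exact Or.inl hf'
  right
  obtain ⟨l1, l2⟩ := h1.lev_eq H
  have hz := h.2.1
  obtain ⟨u1, u2⟩ := K.ends h1 hz
  obtain ⟨s1, s2, s3⟩ := cg_sum H h1 hz
  obtain ⟨f1, f2, f3⟩ := fold_n12 h.2.2
  obtain ⟨m, c, b, p, q, s, g1, g2, g3, g4, g5⟩ := K.endP h1.only' (by omega) u2 hf'
  obtain ⟨k1, k2⟩ := hL z x x' hz h1.cov h1.cov' h1.ne (by omega)
  refine ⟨(m, c, b), ?_, g2⟩
  rcases p12_c _ g1 with g6 | g6
  · exact g6
  · simp only at g6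
    omega

/-- no element below both ends of a stair with a fold, from its coordinates -/
theorem Ctx.noCC_of (K : Ctx P r 12 lo hi e)
    (hC : ∀ (t : Tops P) (z : P), StairShape 12 (lo t) (hi t) → lo t 12 = 0 → z ⋖ e t 12 6 →
      z ⋖ e t 12 0 → False) : NoCC P 12 := by
  intro z x x' hz hf hzx hzx' hne hu htt
  have H := K.gt.H
  have hg := K.gt.good
  have hl := (H.covBy_iff.mp hzx).2
  have hl' := (H.covBy_iff.mp hzx').2
  have hlx : lev x = 12 := by omega
  have hlx' : lev x' = 12 := by omega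
  have n2 := hf.2.2 2 (by omega)
  have hox := K.only (x := x) (by omega)
  have hux := hf.uc H (by omega)
  have C := K.comp (topOf x)
  rcases shape_cases C (by omega) (K.shape (topOf x)) with h | (h | h) | ⟨a, h, h3⟩
  · have := nab_one_of_eq C hox (k := 2) (by omega) (by omega) (h 2 (by omega))
    omega
  · rcases rect_dich' H (chart_rect C H hg h) (by omega) hox (by omega) with g | ⟨g1, g2⟩
    · have := g 2 (by omega)
      omega
    · have := g2 hlx
      omega
  · -- the stair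
    have key : ∀ y : P, y ≤ (topOf x : P) → lev y = 12 → (Win.uc y).card = 1 →
        y = e (topOf x) 12 6 ∨ (lo (topOf x) 12 = 0 ∧ y = e (topOf x) 12 0) := by
      intro y hy hly huy
      obtain ⟨s, a1, a2, a3⟩ := C.surj y hy (by omega)
      rw [hly] at a1 a2 a3
      have b1 := h.hi 12 (by omega)
      have b2 := h.hi 11 (by omega)
      have b3 := h.lo 11 (by omega)
      have b4 := C.lo_step 11 (by omega)
      have b5 := C.lo_le 11 (by omega)
      simp only [show 11 + 1 = 12 from rfl] at b3 b4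
      by_cases hs : s = 6
      · left
        rw [← a3, hs]
      · right
        by_cases hs2 : lo (topOf x) 11 + 1 ≤ s
        · exfalso
          have c1 := (C.cov 11 s s (by omega) (by simpa using a1) (by simpa using a2)
            (by omega) (by omega)).mpr (Or.inl rfl)
          have c2 := (C.cov 11 s (s - 1) (by omega) (by simpa using a1) (by simpa using a2)
            (by omega) (by omega)).mpr (Or.inr (by omega))
          simp only [show 11 + 1 = 12 from rfl, a3] at c1 c2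
          have c3 : e (topOf x) 11 s ≠ e (topOf x) 11 (s - 1) := by
            intro hh
            have := C.inj 11 s (s - 1) (by omega) (by omega) (by omega) (by omega) (by omega) hh
            omega
          have c4 := Finset.card_le_card (show ({e (topOf x) 11 s, e (topOf x) 11 (s - 1)} :
            Finset P) ⊆ Win.uc y from by
              intro q hq
              rw [Win.mem_uc]
              rw [mem_insert, mem_singleton] at hq
              rcases hq with rfl | rfl
              · exact c1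
              · exact c2)
          rw [Finset.card_pair c3] at c4
          omega
        · have hs3 : s = 0 := by omega
          subst hs3
          exact ⟨by omega, a3.symm⟩
    rcases key x (le_topOf x) hlx hux with g | ⟨g0, g⟩
    · rcases key x' (by rw [htt]; exact le_topOf x') hlx' hu with g' | ⟨g0', g'⟩
      · exact hne (g'.trans g.symm)
      · exact hC (topOf x) z h g0' (g ▸ hzx) (g' ▸ hzx')
    · rcases key x' (by rw [htt]; exact le_topOf x') hlx' hu with g' | ⟨g0', g'⟩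
      · exact hC (topOf x) z h g0 (g' ▸ hzx') (g ▸ hzx)
      · exact hne (g'.trans g.symm)
  · obtain ⟨e1, e2⟩ := h.low 2 (by have := h3 (by omega); omega)
    have := nab_one_of_eq C hox (k := 2) (by omega) (by omega) (by rw [e1, e2])
    omega

end Pool.Agent.GaussPoset.Sm

end

/-! From `Pool.Agent.W_448s7_h27.PpB` -/

section

/-!
# `j = 14`: no elements (C); the least cost from the least raised cost (MP_448cb3_co, S7)
-/

namespace Pool.Agent.GaussPoset.Sm

set_option linter.unusedSectionVars false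

open Polynomial Finset W4 Cp

universe u

section

variable {P : Type u} [Fintype P] [PartialOrder P] [DecidableEq P] {r j w K0 : ℕ}
  {N : Tops P → Finset P} {b : Tops P → ℕ} {θ : Tops P → P → ℕ}

/-- the elements below a fold end and a second end of the same top -/
theorem Wk.cel_of (W : Wk r j w K0 N b θ) (L : Unq P w b) {z x x' : P}
    (hlz : lev z = j + 1) (hf : Fold j x) (hzx : z ⋖ x) (hzx' : z ⋖ x') (hne : x' ≠ x)
    (hu : (Win.uc x').card = 1) (htt : topOf x = topOf x') (hnw : nab w x ≠ 1) :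
    CEl j w N θ z := by
  classical
  have H := W.gt.H
  have HN := W.natSys
  have hj := W.hj
  have hw := W.hw
  have e1 := (H.covBy_iff.mp hzx).2
  have e2 := (H.covBy_iff.mp hzx').2
  have hx : x ∉ unnat N := W.low (by omega)
  have hfu := hf.uc H (by omega)
  have hf2 := hf.2.2 2 (by omega)
  have hev := hf.2.1
  have hth : ∀ y, y ∉ unnat N → j ≤ lev y → nab w y ≠ 1 →
      θ (topOf y) y + 1 ≤ lev y - w := by
    intro y hy hly hny
    rcases W.cases hy hly with h | h | h
    · exact absurd (W.str_nab L hy h (by omega)) hny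
    · exact h.th.le
    · exact h.th
  have hr : z ∈ rA N := by
    by_contra hz
    obtain ⟨y, hy, hup⟩ : ∃ y, y ∉ unnat N ∧ ∀ u, y < u ↔ z < u := by
      by_cases h : z ∈ unnat N
      · by_cases ht : z ∈ twA N
        · exact ⟨twT N z, W.twSys.nat z ht, W.twSys.up z ht⟩
        · exact absurd (mem_rA.mpr ⟨h, ht⟩) hz
      · exact ⟨z, h, fun u => Iff.rfl⟩
    have el : lev y = lev z := lev_eq_of_up hup
    have en : nab w y = nab w z := nab_congr_up hup (by omega)
    have hmono : nab w x ≤ nab w z := nab_mono hzx.1.le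
    have hone : 1 ≤ nab w x := one_le_nab (by omega)
    have t1 := hth y hy (by omega) (by omega)
    have hyx : y ⋖ x := (cov_of_up hup).mpr hzx
    have hyx' : y ⋖ x' := (cov_of_up hup).mpr hzx'
    have hyt : y ∈ N (topOf y) := HN.mem_iff.mpr ⟨hy, rfl⟩
    generalize topOf y = t at hyt t1
    rcases W.typ t with ⟨g1, g2, g3, g5⟩ | ⟨Nc, co, h0, g1, g2, g4⟩ |
      ⟨Nc, co, h0, g1, g2, g3, g4, g5'⟩
    · rw [g2] at t1
      simp only at t1
      omega
    · rw [g1] at hyt
      rw [g2] at t1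
      by_cases hJ : y ∈ junk (fun _ => True) Nc co ∨ y ∈ junk (fun _ => True) Nc (swp co)
      · unfold thR at t1
        rw [if_pos hJ] at t1
        omega
      · have hyN : y ∈ Nc := by
          rw [mem_natR] at hyt
          rcases hyt with h | h | h
          · exact h
          · exact absurd (Or.inl h) hJ
          · exact absurd (Or.inr h) hJ
        have hxN := h0.chart.up y hyN x hyx.1.le
        have hcl := h0.chart.lev x hxN
        have h3 : ¬ (1 ≤ (co x).1 ∧ 1 ≤ (co x).2) := by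
          rintro ⟨a1, a2⟩
          have := chart_inner_uc h0.chart H hxN a1 a2
          omega
        have h4 := rect_nab h0.chart hxN (k := 2) (by omega)
        omega
    · rw [g1] at hyt
      rw [g2] at t1
      by_cases hJ : y ∈ junk (fun c => c.1 ≤ c.2) Nc co
      · unfold thS at t1
        rw [if_pos hJ] at t1
        omega
      · have hyN : y ∈ Nc := by
          rw [mem_natS] at hyt
          rcases hyt with h | h
          · exact h
          · exact absurd h hJ
        have hxN := h0.chart.up y hyN x hyx.1.le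
        have hxN' := h0.chart.up y hyN x' hyx'.1.le
        have hcl := h0.chart.lev x hxN
        have hcl' := h0.chart.lev x' hxN'
        have hm : (co x).1 ≤ (co x).2 := h0.chart.mem x hxN
        have hm' : (co x').1 ≤ (co x').2 := h0.chart.mem x' hxN'
        have hmy : (co y).1 ≤ (co y).2 := h0.chart.mem y hyN
        have h4 := stair_nab h0.chart hxN (k := 2) (by omega)
        have h5 : ¬ (1 ≤ (co x).1 ∧ (co x).1 < (co x).2) := by
          rintro ⟨a1, a2⟩
          have := stair_inner_uc h0.chart H hxN a1 a2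
          omega
        have h6 := (chart_cov h0.chart H hyN hxN).mp hyx
        have h7 := (chart_cov h0.chart H hyN hxN').mp hyx'
        unfold Prd at h6 h7
        have h8 : ¬ (1 ≤ (co x').1 ∧ (co x').1 < (co x').2) := by
          rintro ⟨a1, a2⟩
          have := stair_inner_uc h0.chart H hxN' a1 a2
          omega
        have h9 : ¬ ((co x').1 = (co x).1 ∧ (co x').2 = (co x).2) := by
          rintro ⟨a1, a2⟩
          exact hne (h0.chart.inj x' hxN' x hxN (Prod.ext a1 a2))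
        omega
  refine ⟨hr, hlz, x, x', hzx, hzx', hne.symm, htt, ?_⟩
  have h3 := hth x hx (by omega) hnw
  omega

end

section

variable {P : Type u} [Fintype P] [PartialOrder P] [DecidableEq P] {r j : ℕ}
  {lo hi : Tops P → ℕ → ℕ} {e : Tops P → ℕ → ℕ → P}

/-- the full cost of the elements (C) at the window `3` -/
lemma cel_ful14 {K0 : ℕ} {N : Tops P → Finset P} {b : Tops P → ℕ} {θ : Tops P → P → ℕ}
    (W : Wk r 14 3 K0 N b θ) {z : P} (hz : CEl 14 3 N θ z) : ful 3 z = 12 ^ 2 + 75 := by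
  obtain ⟨h1, -, h3⟩ := W.cel_nab (by norm_num) hz
  have h4 : nab 15 z = 1 := by
    have := nab_self (z := z)
    rwa [h1] at this
  unfold ful
  rw [h1]
  simp only [Finset.sum_range_succ, Finset.sum_range_zero, h4, h3 4 (by norm_num),
    h3 5 (by norm_num), h3 6 (by norm_num), h3 7 (by norm_num), h3 8 (by norm_num),
    h3 9 (by norm_num), h3 10 (by norm_num), h3 11 (by norm_num), h3 12 (by norm_num),
    h3 13 (by norm_num), h3 14 (by norm_num)]
  norm_num

/-- **no elements (C)** from the least raised cost -/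
theorem noCC_of_mnS {K0 : ℕ} {N : Tops P → Finset P} {b : Tops P → ℕ}
    {θ : Tops P → P → ℕ} {v : ℕ} (W : Wk r 14 3 K0 N b θ) (L : Unq P 3 b)
    (M : MnS 14 3 N b θ v) (hv : 12 ^ 2 + 76 ≤ v) : NoCC P 14 := by
  intro z x x' hz hf hzx hzx' hne hu htt
  have h3 := hf.2.2 3 (by norm_num)
  have hc := W.cel_of L hz hf hzx hzx' hne hu htt (by omega)
  have h4 : v ≤ ful 3 z := min_le_ful (rA_pos W) M.bd hc.1
  have h5 := cel_ful14 W hc
  omega

/-- the numbers of a special cell -/
lemma spc_nab {w : ℕ} {N : Tops P → Finset P} {b : Tops P → ℕ} {θ : Tops P → P → ℕ}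
    {x : P} {Nc : Finset P} {co : P → ℕ × ℕ} (C : SpcC j w N b θ x Nc co) (hj : 5 ≤ j) :
    (∀ k, 4 ≤ k → k + 1 ≤ j → nab k x = 3) ∧ nab j x = 2 := by
  have hl := C.lev (by omega)
  constructor
  · intro k h1 h2
    have h3 := stair_nab C.nat.chart C.mem (k := k) (by omega)
    rw [C.co_eq] at h3
    simp only at h3
    omega
  · have h3 := stair_nab C.nat.chart C.mem (k := j) (by omega)
    rw [C.co_eq] at h3
    simp only at h3
    omega

/-- **the least cost from the least raised cost**, without twins and pendants of the special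
cells and without elements (C) -/
theorem Wk.mn_noE {w K0 : ℕ} {N : Tops P → Finset P} {b : Tops P → ℕ} {θ : Tops P → P → ℕ}
    (W : Wk r j w K0 N b θ) (hw2 : 2 ≤ w) {v : ℕ} (M : MnS j w N b θ v) (hE : NoE2 P j)
    (hP : NoP2 P j) (hC : NoCC P j) : Mn j w N θ v := by
  have hj := W.hj
  refine ⟨fun z hz => ?_, fun x hx => ?_⟩
  · have h1 := M.bd z hz
    have hp : ¬ PenS j w N b θ z := by
      rintro ⟨h2, x, h3, h4, h5, ⟨Nc, co, C⟩⟩
      obtain ⟨a1, a2⟩ := spc_nab C (by omega)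
      have B := W.bs h3
      have hl := C.lev (by omega)
      have hl' : lev x = j + 1 := by rw [← B.lev]; exact hl
      have hn : ∀ k, k ≤ j → nab k x = nab k (GaussPoset.bs N x) := by
        intro k hk
        rcases B.nab k with h | h
        · exact h.symm
        · omega
      refine hP z x hl' (fun k g1 g2 => ?_) ?_ h4 h5
      · rw [hn k (by omega)]
        exact a1 k g1 g2
      · rw [hn j le_rfl]
        exact a2
    have hS1 : hS j w N b θ z = hA N θ z := by
      rw [hS_not hp, hC_not (hC.not_cel W hw2)]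
    rw [cst_const, hS1, ← cst_const] at h1
    exact h1
  · have h1 := M.tw x hx
    have hs : ¬ Spc j w N b θ (twT N x) := by
      rintro ⟨Nc, co, C⟩
      obtain ⟨a1, a2⟩ := spc_nab C (by omega)
      have T := W.twn hx
      refine hE (twT N x) x ?_ (C.lev (by omega)) (W.twSys.up x hx) a1 a2
      rintro h
      exact W.twSys.nat x hx (by rw [h]; exact (mem_twA.mp hx).1)
    unfold tcS at h1
    rw [if_neg hs] at h1
    exact h1

end

end Pool.Agent.GaussPoset.Sm

end

/-! From `Pool.Agent.W_448s8f_h76.FkF` -/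

section

/-!
# The inputs and the output of window `6` for `j = 12`, energies `23`, `24`, `25`
(MP_448cb3_co, S8)
-/

namespace Pool.Agent.GaussPoset.Sm

set_option linter.unusedSectionVars false

open Finset Wd W4

universe u

variable {P : Type u} [Fintype P] [PartialOrder P] [DecidableEq P] {r j w : ℕ}
  {lo hi : Tops P → ℕ → ℕ} {e : Tops P → ℕ → ℕ → P}

/-- the data are unique -/
lemma dt_uni {x : P} {m c b m' c' b' : ℕ} (h : Dt j x (m, c, b)) (h' : Dt j x (m', c', b')) :
    m = m' ∧ c = c' ∧ b = b' := by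
  have e1 : (m : ℤ) = m' := h.1.symm.trans h'.1
  have e2 : (c : ℤ) = c' := h.2.1.symm.trans h'.2.1
  have e3 := h.2.2.symm.trans h'.2.2
  simp only at e3
  refine ⟨by exact_mod_cast e1, by exact_mod_cast e2, by omega⟩

/-- no fold joins -/
theorem nf_of_six (hL : ∀ z x x' : P, lev z = 13 → z ⋖ x → z ⋖ x' → topOf x ≠ topOf x' →
      3 ≤ nab 6 x → False) : Sm.NF P 12 := by
  intro z x x' h hz hf
  obtain ⟨f1, f2, f3⟩ := fold_n12 hf
  exact hL z x x' hz h.cov h.cov' h.ne (by omega)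

end Pool.Agent.GaussPoset.Sm

end
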