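import Mathlib
import Pool.Agent.W_448zz_h61.Ns
import Pool.Agent.W_448zz_h61.M120
import Pool.Agent.W_448zz_h61.M123

/-! From `Pool.Agent.W_448s8f_h61.TD` -/

section

/-!
First poles over the seven-cell word (MP_448cb3_co, S8, finite part).
-/

namespace Pool.Agent.GaussPoset

set_option linter.unusedSectionVars false

open Polynomial Finset Wd Cl

universe u

variable {P : Type u} [Fintype P] [PartialOrder P] [DecidableEq P]
variable {r a : ℕ} {t : P} {lo hi : ℕ → ℕ} {e : ℕ → ℕ → P} (A : S7 r a t lo hi e)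
include A

/-- an upper part which contains the end of the path contains the levels `≤ a` -/
lemma S7.low_mem {L : Finset P} (hup : ∀ x y, x ≤ y → x ∈ L → y ∈ L) {u : ℕ} (h1 : 1 ≤ u)
    (hu : u ≤ 7) (hz : e (a + u) u ∈ L) {x : P} (hx : x ∈ lowPart (a + 7) t) (hxa : lev x ≤ a) :
    x ∈ L := by
  refine hup _ _ ?_ hz
  rcases Nat.lt_or_ge (lev x) a with h | h
  · exact A.le_trunk (A.p_mem hu) hx h (by rw [A.lev_p hu]; omega)
  · rcases A.row_eq hx (by omega) with rfl | rfl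
    · exact A.p_le0 hu
    · exact A.p_le1 h1 hu

/-- **T7_dvd** -/
theorem S7.T7_dvd (ha : 7 ≤ a) {L : Finset P} (hL : L ⊆ lowPart (a + 7) t)
    (hup : ∀ x y, x ≤ y → x ∈ L → y ∈ L) (h7 : e (a + 7) 7 ∈ L) {n : ℕ} (hn : n ≤ 7) :
    (1 + X : ℤ[X]) ^ 2 ∣ Z {x // x ∈ L} a n := by
  classical
  have hs : ∀ x y : P, x ≤ y → x ∈ L → y ∈ L := hup
  have hlev : ∀ x : {x // x ∈ L}, lev x = lev (x : P) := fun x =>
    lev_subtype (p := fun x => x ∈ L) hs x
  have hgr : GradedBelow {x // x ∈ L} := gbel_sub (p := fun x => x ∈ L) hs A.H.gradedBelow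
  rw [Z_trunk (s := a - 7) (by omega)]
  · rw [show a - (a - 7) = 7 by omega]
    exact (La7_part A.C A.D A.H A.hg A.ht ha hL hup h7 n).mul_left _
  · intro x hx
    rw [hlev] at hx
    refine chainBelow_of_le hgr (z := ⟨e (a + 7) 7, h7⟩) ?_ ?_
    · exact A.le_trunk (A.p_mem le_rfl) (hL x.2) (by omega) (by rw [A.lev_p le_rfl]; omega)
    · rw [hlev]
      show a ≤ lev (e (a + 7) 7) + 1
      rw [A.lev_p le_rfl]
      omega

/-- the path cells from `u` on -/
noncomputable def pcl (a : ℕ) (e : ℕ → ℕ → P) (u : ℕ) : Finset P :=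
  (Finset.Icc u 7).image (fun v => e (a + v) v)

omit A in
lemma mem_pcl {a : ℕ} {e : ℕ → ℕ → P} {u : ℕ} {x : P} :
    x ∈ pcl a e u ↔ ∃ v, u ≤ v ∧ v ≤ 7 ∧ x = e (a + v) v := by
  unfold pcl
  rw [mem_image]
  constructor
  · rintro ⟨v, hv, h⟩
    rw [mem_Icc] at hv
    exact ⟨v, hv.1, hv.2, h.symm⟩
  · rintro ⟨v, h1, h2, h3⟩
    exact ⟨v, mem_Icc.mpr ⟨h1, h2⟩, h3.symm⟩

section Add

variable {L : Finset P} (hL : L ⊆ lowPart (a + 7) t) (hup : ∀ x y, x ≤ y → x ∈ L → y ∈ L)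
  {u : ℕ} (hu1 : 1 ≤ u) (hu : u ≤ 7) (hin : e (a + (u - 1)) (u - 1) ∈ L)
  (h1L : e a 1 ∈ L)
  (hout : e (a + u) u ∉ L)

include hL hup hu1 hu hin h1L hout

lemma S7.add_up : ∀ x y, x ≤ y → x ∈ L ∪ pcl a e u → y ∈ L ∪ pcl a e u := by
  intro x y hxy hx
  rw [mem_union] at hx
  rcases hx with hx | hx
  · exact mem_union_left _ (hup x y hxy hx)
  · obtain ⟨v, h1, h2, rfl⟩ := mem_pcl.mp hx
    have hy := A.up hxy (A.p_mem h2)
    by_cases hya : a < lev y
    · obtain ⟨w, hw1, hw2, rfl⟩ := A.above h2 hxy hya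
      rcases Nat.lt_or_ge w u with h | h
      · exact mem_union_left _ (hup _ _ (A.p_le (u := w) (v := u - 1) (by omega) (by omega)) hin)
      · exact mem_union_right _ (mem_pcl.mpr ⟨w, h, by omega, rfl⟩)
    · refine mem_union_left _ ?_
      rcases Nat.lt_or_ge (lev y) a with h | h
      · refine hup _ _ ?_ h1L
        refine A.le_trunk (A.up (A.p_le1 h1' h2') (A.p_mem h2')) hy h (by rw [A.lev_e1]; omega)
      · rcases A.row_eq hy (by omega) with rfl | rfl
        · exact hup _ _ (A.p_le0 (u := u - 1) (by omega)) hin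
        · exact h1L
  where
    h1' : 1 ≤ 1 := le_rfl
    h2' : 1 ≤ 7 := by omega

lemma S7.add_sub : L ∪ pcl a e u ⊆ lowPart (a + 7) t := by
  refine union_subset hL ?_
  intro x hx
  obtain ⟨v, -, h2, rfl⟩ := mem_pcl.mp hx
  exact A.p_mem h2

/-- adding the rest of the path -/
theorem S7.add_path (n : ℕ) : ∃ z : {x // x ∈ L ∪ pcl a e u}, (z : P) = e (a + u) u ∧
    Z {x // x ∈ L ∪ pcl a e u} a n = Z {x // x ∈ L} a n + ZD a z 1 n := by
  classical
  have hUp := A.add_up hL hup hu1 hu hin h1L hout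
  have hzm : e (a + u) u ∈ L ∪ pcl a e u :=
    mem_union_right _ (mem_pcl.mpr ⟨u, le_rfl, hu, rfl⟩)
  refine ⟨⟨e (a + u) u, hzm⟩, rfl, ?_⟩
  have hlz : a < lev (⟨e (a + u) u, hzm⟩ : {x // x ∈ L ∪ pcl a e u}) := by
    rw [lev_subtype (p := fun x => x ∈ L ∪ pcl a e u) hUp]
    show a < lev (e (a + u) u)
    rw [A.lev_p hu]
    omega
  rw [Z_split_one hlz n]
  congr 1
  refine Z_iso (subIso (fun x => ?_)) a n
  constructor
  · intro hx
    refine ⟨mem_union_left _ hx, ?_⟩
    rw [mem_dnf]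
    intro h
    exact hout (hup _ _ h hx)
  · rintro ⟨h1, h2⟩
    rw [mem_dnf] at h2
    rcases mem_union.mp h1 with h3 | h3
    · exact h3
    · exfalso
      obtain ⟨v, h4, h5, rfl⟩ := mem_pcl.mp h3
      exact h2 (A.p_le h4 h5)

end Add

end Pool.Agent.GaussPoset

end

/-! From `Pool.Agent.W_448s8f_h61.TE` -/

section

/-!
First poles over the seven-cell word, part two (MP_448cb3_co, S8, finite part).
-/

namespace Pool.Agent.GaussPoset

set_option linter.unusedSectionVars false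

open Polynomial Finset Wd Cl

universe u

variable {P : Type u} [Fintype P] [PartialOrder P] [DecidableEq P]

lemma nabL {L : Finset P} (hup : ∀ x y, x ≤ y → x ∈ L → y ∈ L) (k : ℕ) (z : {x // x ∈ L}) :
    nab k z = nab k (z : P) := by
  classical
  have hlev : ∀ x : {x // x ∈ L}, lev x = lev (x : P) := fun x =>
    lev_subtype (p := fun x => x ∈ L) hup x
  unfold nab
  refine Finset.card_bij (fun x _ => (x : P)) ?_ ?_ ?_
  · intro x hx
    rw [mem_filter, mem_lv, hlev] at hx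
    rw [mem_filter, mem_lv]
    exact hx
  · intro x _ y _ h
    exact Subtype.ext h
  · intro x hx
    rw [mem_filter, mem_lv] at hx
    refine ⟨⟨x, hup _ _ hx.2 z.2⟩, ?_, rfl⟩
    rw [mem_filter, mem_lv, hlev]
    exact hx

lemma ctL {L : Finset P} (hup : ∀ x y, x ≤ y → x ∈ L → y ∈ L) (i k : ℕ) (z : {x // x ∈ L}) :
    ct i k z = ct i k (z : P) := by
  have hlev : lev z = lev (z : P) := lev_subtype (p := fun x => x ∈ L) hup z
  unfold ct
  rw [cst_eq, cst_eq, hlev]
  exact Finset.sum_congr rfl fun l _ => by rw [nabL hup]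

lemma nst_oneL (i : ℕ) (z : P) : nst i (fun _ => 1) z = nab i z := by
  classical
  unfold nst nab
  congr 1
  ext x
  simp only [mem_filter, mem_univ, true_and, mem_lv]
  constructor
  · rintro ⟨h1, h2, h3⟩
    exact ⟨by omega, h1⟩
  · rintro ⟨h1, h2⟩
    exact ⟨h2, by omega, by omega⟩

variable {r a : ℕ} {t : P} {lo hi : ℕ → ℕ} {e : ℕ → ℕ → P} (A : S7 r a t lo hi e)
include A

/-- the coordinate does not increase upwards -/
lemma S7.coord {l s' : ℕ} (hl : l ≤ a + 7) (h3 : lo l ≤ s') (h4 : s' ≤ hi l) :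
    ∀ k s, k ≤ a + 7 → lo k ≤ s → s ≤ hi k → e k s ≤ e l s' → s' ≤ s := by
  intro k
  induction k with
  | zero =>
    intro s hk h1 h2 h
    have e1 := A.C.lev_e 0 s hk h1 h2
    have e2 := A.C.lev_e l s' hl h3 h4
    rcases eq_or_lt_of_le h with h5 | h5
    · have e3 : l = 0 := by rw [← e2, ← h5, e1]
      subst e3
      exact (A.C.inj 0 s s' hk h1 h2 h3 h4 h5).ge
    · have := lev_strictAnti h5
      omega
  | succ k ih =>
    intro s hk h1 h2 h
    have e1 := A.C.lev_e (k + 1) s hk h1 h2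
    have e2 := A.C.lev_e l s' hl h3 h4
    rcases eq_or_lt_of_le h with h5 | h5
    · have e3 : l = k + 1 := by rw [← e2, ← h5, e1]
      subst e3
      exact (A.C.inj (k + 1) s s' hk h1 h2 h3 h4 h5).ge
    · obtain ⟨y, hy, hyl⟩ := Hul.exists_cov h5
      obtain ⟨s'', h6, h7, h8, h9⟩ := A.C.cov_up A.H A.hg A.ht (k := k) (by omega) h1 h2 hy
      have := ih s'' (by omega) h6 h7 (by rw [← h8]; exact hyl)
      omega

lemma S7.row3 {u : ℕ} (h3 : 3 ≤ u) (hu : u ≤ 7) : lo (a + u) ≤ 3 ∧ 3 ≤ hi (a + u) := by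
  rw [A.lo7 hu, A.hi7 hu]
  interval_cases u <;> decide

/-- the side of the strip -/
lemma S7.side {u : ℕ} (h3 : 3 ≤ u) (hu : u ≤ 7) : e (a + 7) 3 ≤ e (a + u) 3 := by
  have key : ∀ d, u + d ≤ 7 → e (a + (u + d)) 3 ≤ e (a + u) 3 := by
    intro d
    induction d with
    | zero => intro _; exact le_rfl
    | succ d ih =>
      intro hd
      have h1 := A.row3 (u := u + (d + 1)) (by omega) hd
      have h2 := A.row3 (u := u + d) (by omega) (by omega)
      exact ((A.C.cov (a + (u + d)) 3 3 (by omega) h1.1 h1.2 h2.1 h2.2).mpr (Or.inl rfl)).le.trans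
        (ih (by omega))
  have := key (7 - u) (by omega)
  rwa [show u + (7 - u) = 7 by omega] at this

lemma S7.side_mem {L : Finset P} (hup : ∀ x y, x ≤ y → x ∈ L → y ∈ L) (h3 : e (a + 7) 3 ∈ L)
    {u : ℕ} (hu : u ≤ 3) : e (a + u) u ∈ L :=
  hup _ _ ((A.side le_rfl (by omega)).trans (A.p_le hu (by omega))) h3

/-- **T7_dvd'** -/
theorem S7.T7_dvd' (ha : 7 ≤ a) {L : Finset P} (hL : L ⊆ lowPart (a + 7) t)
    (hup : ∀ x y, x ≤ y → x ∈ L → y ∈ L) (h3 : e (a + 7) 3 ∈ L) {n : ℕ} (hn : n < 4) :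
    (1 + X : ℤ[X]) ^ 2 ∣ Z {x // x ∈ L} a n := by
  classical
  by_cases h7 : e (a + 7) 7 ∈ L
  · exact A.T7_dvd ha hL hup h7 (by omega)
  have hex : ∃ u, e (a + u) u ∉ L := ⟨7, h7⟩
  set u := Nat.find hex with hu_def
  have hout : e (a + u) u ∉ L := Nat.find_spec hex
  have hu : u ≤ 7 := Nat.find_min' hex h7
  have hmin : ∀ v, v < u → e (a + v) v ∈ L := fun v hv => by
    by_contra h
    exact Nat.find_min hex hv h
  have hu4 : 4 ≤ u := by
    by_contra hcon
    exact hout (A.side_mem hup h3 (by omega))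
  have h1L : e a 1 ∈ L := hup _ _ (A.p_le1 (u := 1) le_rfl (by omega)) (hmin 1 (by omega))
  have hUp := A.add_up hL hup (by omega) hu (hmin (u - 1) (by omega)) h1L hout
  have hsub := A.add_sub hL hup (by omega) hu (hmin (u - 1) (by omega)) h1L hout
  obtain ⟨z, hz, hZ⟩ := A.add_path hL hup (by omega) hu (hmin (u - 1) (by omega)) h1L hout n
  have h1 : (1 + X : ℤ[X]) ^ 2 ∣ Z {x // x ∈ L ∪ pcl a e u} a n :=
    A.T7_dvd ha hsub hUp (mem_union_right _ (mem_pcl.mpr ⟨7, hu, le_rfl, rfl⟩)) (by omega)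
  have hlz : lev z = a + u := by
    rw [lev_subtype (p := fun x => x ∈ L ∪ pcl a e u) hUp, hz, A.lev_p hu]
  have hct : ct a 1 z = u := by
    rw [ctL hUp, hz, A.ct_p hu]
  rw [hZ, ZD_zero (by omega) (by omega), add_zero] at h1
  exact h1

/-- the number of elements of a part on the levels of the trunk -/
lemma S7.below_sub {L : Finset P} (hL : L ⊆ lowPart (a + 7) t)
    (hup : ∀ x y, x ≤ y → x ∈ L → y ∈ L) {u : ℕ} (h1 : 1 ≤ u) (hu : u ≤ 7)
    (hz : e (a + u) u ∈ L) : below {x // x ∈ L} a = a := by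
  classical
  unfold below
  have hlev : ∀ x : {x // x ∈ L}, lev x = lev (x : P) := fun x =>
    lev_subtype (p := fun x => x ∈ L) hup x
  have h0 : (range a).card = a := card_range a
  conv_rhs => rw [← h0]
  refine Finset.card_bij (fun x _ => lev x) ?_ ?_ ?_
  · intro x hx
    rw [mem_filter] at hx
    exact mem_range.mpr hx.2
  · intro x hx y hy h
    rw [mem_filter] at hx hy
    rw [hlev] at hx hy
    rw [hlev, hlev] at h
    apply Subtype.ext
    rw [A.trunk_eq (hL x.2) hx.2, A.trunk_eq (hL y.2) hy.2, h]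
  · intro k hk
    rw [mem_range] at hk
    have h2 := A.trunk hk
    have h3 : lev (e k 0) = k := A.C.lev_e k 0 (by omega) (by omega) (by omega)
    have h4 : e k 0 ∈ lowPart (a + 7) t :=
      mem_lowPart.mpr ⟨A.C.le_t k 0 (by omega) (by omega) (by omega), by omega⟩
    have h5 : e k 0 ∈ L := A.low_mem hup h1 hu hz h4 (by omega)
    refine ⟨⟨e k 0, h5⟩, ?_, ?_⟩
    · rw [mem_filter, hlev]
      exact ⟨mem_univ _, by show lev (e k 0) < a; omega⟩
    · rw [hlev]
      exact h3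

lemma S7.lv_sub {L : Finset P} (hL : L ⊆ lowPart (a + 7) t)
    (hup : ∀ x y, x ≤ y → x ∈ L → y ∈ L) {u : ℕ} (h1 : 1 ≤ u) (hu : u ≤ 7)
    (hz : e (a + u) u ∈ L) : (lv {x // x ∈ L} a).card = 2 := by
  classical
  have hlev : ∀ x : {x // x ∈ L}, lev x = lev (x : P) := fun x =>
    lev_subtype (p := fun x => x ∈ L) hup x
  have m0 : e a 0 ∈ L := A.low_mem hup h1 hu hz
    (A.up (A.p_le0 hu) (A.p_mem hu)) (by rw [A.lev_e0])
  have m1 : e a 1 ∈ L := A.low_mem hup h1 hu hz
    (A.up (A.p_le1 h1 hu) (A.p_mem hu)) (by rw [A.lev_e1])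
  rw [Finset.card_eq_two]
  refine ⟨⟨e a 0, m0⟩, ⟨e a 1, m1⟩, fun h => A.e_ne (congrArg Subtype.val h), ?_⟩
  ext x
  rw [mem_lv, hlev, mem_insert, mem_singleton]
  constructor
  · intro h
    rcases A.row_eq (hL x.2) h with h' | h'
    · exact Or.inl (Subtype.ext h')
    · exact Or.inr (Subtype.ext h')
  · rintro (rfl | rfl)
    · exact A.lev_e0
    · exact A.lev_e1

/-- the leading term of a path cell -/
lemma S7.Lt_p {L : Finset P} (hL : L ⊆ lowPart (a + 7) t)
    (hup : ∀ x y, x ≤ y → x ∈ L → y ∈ L) {u : ℕ} (h1 : 1 ≤ u) (hu : u ≤ 7)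
    (z : {x // x ∈ L}) (hz : (z : P) = e (a + u) u) :
    Lt a (fun _ => 1) z = X ^ (a + 2) * (1 + X) := by
  classical
  have hzL : e (a + u) u ∈ L := by rw [← hz]; exact z.2
  unfold Lt
  rw [nst_oneL, A.below_sub hL hup h1 hu hzL, A.lv_sub hL hup h1 hu hzL,
    nabL hup, nabL hup, hz, A.nab_a hu h1]
  simp only []
  rw [A.nab_p (v := 1) hu le_rfl h1]
  norm_num

/-- the first pole at the first missing path cell -/
theorem S7.T7_lead (ha : 7 ≤ a) {L : Finset P} (hL : L ⊆ lowPart (a + 7) t)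
    (hup : ∀ x y, x ≤ y → x ∈ L → y ∈ L) {u : ℕ} (hu1 : 1 ≤ u) (hu : u ≤ 7)
    (hin : e (a + (u - 1)) (u - 1) ∈ L) (h1L : e a 1 ∈ L) (hout : e (a + u) u ∉ L) :
    (1 + X : ℤ[X]) ^ 2 ∣ Z {x // x ∈ L} a u + X ^ (a + 2) * (1 + X) := by
  classical
  have hUp := A.add_up hL hup hu1 hu hin h1L hout
  have hsub := A.add_sub hL hup hu1 hu hin h1L hout
  obtain ⟨z, hz, hZ⟩ := A.add_path hL hup hu1 hu hin h1L hout u
  have h1 : (1 + X : ℤ[X]) ^ 2 ∣ Z {x // x ∈ L ∪ pcl a e u} a u :=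
    A.T7_dvd ha hsub hUp (mem_union_right _ (mem_pcl.mpr ⟨7, hu, le_rfl, rfl⟩)) hu
  have hlz : lev z = a + u := by
    rw [lev_subtype (p := fun x => x ∈ L ∪ pcl a e u) hUp, hz, A.lev_p hu]
  have hct : ct a 1 z = u := by
    rw [ctL hUp, hz, A.ct_p hu]
  have hgr : GradedBelow {x // x ∈ L ∪ pcl a e u} :=
    gbel_sub (p := fun x => x ∈ L ∪ pcl a e u) hUp A.H.gradedBelow
  have h2 := ZD_lead (i := a) (k := 1) (z := z) hgr le_rfl (by omega)
  rw [hct, A.Lt_p hsub hUp hu1 hu z hz] at h2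
  rw [hZ, h2] at h1
  exact h1

end Pool.Agent.GaussPoset

end

/-! From `Pool.Agent.W_448s8f_h61.TF` -/

section

/-!
The two first poles over the seven-cell word (MP_448cb3_co, S8, finite part).
-/

namespace Pool.Agent.GaussPoset

set_option linter.unusedSectionVars false

open Polynomial Finset Wd Cl

universe u

variable {P : Type u} [Fintype P] [PartialOrder P] [DecidableEq P]
variable {r a : ℕ} {t : P} {lo hi : ℕ → ℕ} {e : ℕ → ℕ → P} (A : S7 r a t lo hi e)
include A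

section Up

variable {z : P} {L : Finset P} (hL : ∀ x, x ∈ L ↔ x ∈ lowPart (a + 7) t ∧ z ≤ x)
include hL

omit A in
lemma upc_sub : L ⊆ lowPart (a + 7) t := fun x hx => ((hL x).mp hx).1

lemma S7.upc_up : ∀ x y, x ≤ y → x ∈ L → y ∈ L := by
  intro x y hxy hx
  rw [hL] at hx ⊢
  exact ⟨A.up hxy hx.1, hx.2.trans hxy⟩

end Up

/-- **T7_lead3** -/
theorem S7.T7_lead3 (ha : 7 ≤ a) {L : Finset P}
    (hL : ∀ x, x ∈ L ↔ x ∈ lowPart (a + 7) t ∧ e (a + 7) 3 ≤ x) :
    (1 + X : ℤ[X]) ^ 2 ∣ Z {x // x ∈ L} a 4 + X ^ (a + 2) * (1 + X) := by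
  have hup := A.upc_up hL
  have hr7 := A.row3 (u := 7) (by omega) le_rfl
  have h3 : e (a + 7) 3 ∈ L := (hL _).mpr ⟨mem_lowPart.mpr ⟨A.C.le_t _ _ le_rfl hr7.1 hr7.2,
    (A.C.lev_e _ _ le_rfl hr7.1 hr7.2).le⟩, le_rfl⟩
  have hin : e (a + 3) 3 ∈ L := A.side_mem hup h3 (u := 3) le_rfl
  have h1L : e a 1 ∈ L := hup _ _ (A.p_le1 (u := 1) le_rfl (by omega))
    (A.side_mem hup h3 (u := 1) (by omega))
  have hout : e (a + 4) 4 ∉ L := by
    intro h
    have h4 := ((hL _).mp h).2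
    have h5 := A.row (u := 4) (by omega)
    have := A.coord (l := a + 4) (by omega) h5.1 h5.2 (a + 7) 3 le_rfl hr7.1 hr7.2 h4
    omega
  exact A.T7_lead ha (upc_sub hL) hup (u := 4) (by omega) (by omega) hin h1L hout

section Quad

variable {L : Finset P} (hL : ∀ x, x ∈ L ↔ x ∈ lowPart (a + 7) t ∧ e (a + 7) 7 ≤ x)
include hL

/-- the shape of the up-set of the end of the path -/
lemma S7.q_shape {x : P} (hx : x ∈ L) : (lev x < a ∧ x = e (lev x) 0) ∨
    (lev x = a ∧ x = e a 0) ∨ (lev x = a ∧ x = e a 1) ∨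
    ∃ v, 1 ≤ v ∧ v ≤ 7 ∧ lev x = a + v ∧ x = e (a + v) v := by
  have h := (hL x).mp hx
  rcases Nat.lt_trichotomy (lev x) a with h1 | h1 | h1
  · exact Or.inl ⟨h1, A.trunk_eq h.1 h1⟩
  · rcases A.row_eq h.1 h1 with h2 | h2
    · exact Or.inr (Or.inl ⟨h1, h2⟩)
    · exact Or.inr (Or.inr (Or.inl ⟨h1, h2⟩))
  · obtain ⟨v, h2, h3, h4⟩ := A.above le_rfl h.2 h1
    exact Or.inr (Or.inr (Or.inr ⟨v, h2, h3, by rw [h4]; exact A.lev_p h3, h4⟩))

/-- different levels are comparable -/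
lemma S7.q_le {x y : P} (hx : x ∈ L) (hy : y ∈ L) (hxy : lev y < lev x) : x ≤ y := by
  have h1 := (hL x).mp hx
  have h2 := (hL y).mp hy
  rcases A.q_shape hL hy with ⟨h3, -⟩ | ⟨h3, h4⟩ | ⟨h3, h4⟩ | ⟨v, h3, h4, h5, h6⟩
  · exact A.le_trunk h1.1 h2.1 h3 hxy.le
  · obtain ⟨w, h7, h8, h10⟩ := A.above le_rfl h1.2 (by omega)
    rw [h4, h10]
    exact A.p_le0 h8
  · obtain ⟨w, h7, h8, h10⟩ := A.above le_rfl h1.2 (by omega)
    rw [h4, h10]
    exact A.p_le1 h7 h8
  · obtain ⟨w, h7, h8, h9⟩ := A.above le_rfl h1.2 (by omega)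
    have h10 : lev x = a + w := by rw [h9]; exact A.lev_p h8
    rw [h6, h9]
    exact A.p_le (by omega) h8

/-- the up-set of the end of the path is a quadric -/
theorem S7.q_iso : Nonempty ({x : P // x ∈ L} ≃o Qd a 7) := by
  classical
  let g : P → ℕ := fun x => if lev x < a ∨ x = e a 0 then lev x else lev x + 1
  have g1 : ∀ x, lev x < a → g x = lev x := fun x hx => if_pos (Or.inl hx)
  have g2 : g (e a 0) = a := by
    show (if lev (e a 0) < a ∨ e a 0 = e a 0 then lev (e a 0) else lev (e a 0) + 1) = a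
    rw [if_pos (Or.inr rfl), A.lev_e0]
  have g3 : g (e a 1) = a + 1 := by
    show (if lev (e a 1) < a ∨ e a 1 = e a 0 then lev (e a 1) else lev (e a 1) + 1) = a + 1
    rw [if_neg, A.lev_e1]
    rintro (h | h)
    · rw [A.lev_e1] at h; omega
    · exact A.e_ne h.symm
  have g4 : ∀ v, 1 ≤ v → v ≤ 7 → g (e (a + v) v) = a + v + 1 := by
    intro v h1 h2
    show (if lev (e (a + v) v) < a ∨ e (a + v) v = e a 0 then lev (e (a + v) v) else
      lev (e (a + v) v) + 1) = a + v + 1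
    have h3 := A.lev_p h2
    rw [if_neg, h3]
    rintro (h | h)
    · omega
    · have := congrArg lev h
      rw [h3, A.lev_e0] at this
      omega
  have hg : ∀ x ∈ L, g x < a + 7 + 2 := by
    intro x hx
    rcases A.q_shape hL hx with ⟨h1, h2⟩ | ⟨h1, h2⟩ | ⟨h1, h2⟩ | ⟨v, h1, h2, h3, h4⟩
    · rw [g1 x h1]; omega
    · rw [h2, g2]; omega
    · rw [h2, g3]; omega
    · rw [h4, g4 v h1 h2]; omega
  let f : {x : P // x ∈ L} → Qd a 7 := fun x => Qd.mk (g x) (hg _ x.2)
  have hf : ∀ x, (f x).val = g (x : P) := fun x => rfl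
  have hle : ∀ x y, f x ≤ f y ↔ x ≤ y := by
    rintro ⟨x, hx⟩ ⟨y, hy⟩
    rw [Qd.le_iff, hf, hf]
    show (g x = g y ∨ (g y < g x ∧ ¬ (g y = a ∧ g x = a + 1))) ↔ x ≤ y
    have key : ∀ x ∈ L, ∀ y ∈ L, (g x = g y ↔ x = y) ∧
        ((g y < g x ∧ ¬ (g y = a ∧ g x = a + 1)) ↔ lev y < lev x) := by
      intro x hx y hy
      rcases A.q_shape hL hx with ⟨h1, h2⟩ | ⟨h1, h2⟩ | ⟨h1, h2⟩ | ⟨v, h1, h2, h3, h4⟩ <;>
        rcases A.q_shape hL hy with ⟨k1, k2⟩ | ⟨k1, k2⟩ | ⟨k1, k2⟩ | ⟨w, k1, k2, k3, k4⟩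
      · have e1 := g1 x h1
        have e2 := g1 y k1
        refine ⟨⟨fun h => ?_, fun h => by rw [h]⟩, by omega⟩
        rw [e1, e2] at h
        rw [h2, k2, h]
      · have e1 := g1 x h1
        have e2 : g y = a := by rw [k2, g2]
        refine ⟨⟨fun h => by omega, fun h => by rw [h]⟩, by omega⟩
      · have e1 := g1 x h1
        have e2 : g y = a + 1 := by rw [k2, g3]
        refine ⟨⟨fun h => by omega, fun h => by rw [h]⟩, by omega⟩
      · have e1 := g1 x h1
        have e2 : g y = a + w + 1 := by rw [k4, g4 w k1 k2]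
        refine ⟨⟨fun h => by omega, fun h => by rw [h]⟩, by omega⟩
      · have e1 : g x = a := by rw [h2, g2]
        have e2 := g1 y k1
        refine ⟨⟨fun h => by omega, fun h => by rw [h]⟩, by omega⟩
      · have e1 : g x = a := by rw [h2, g2]
        have e2 : g y = a := by rw [k2, g2]
        refine ⟨⟨fun h => by rw [h2, k2], fun h => by rw [h]⟩, by omega⟩
      · have e1 : g x = a := by rw [h2, g2]
        have e2 : g y = a + 1 := by rw [k2, g3]
        refine ⟨⟨fun h => by omega, fun h => by rw [h]⟩, by omega⟩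
      · have e1 : g x = a := by rw [h2, g2]
        have e2 : g y = a + w + 1 := by rw [k4, g4 w k1 k2]
        refine ⟨⟨fun h => by omega, fun h => by rw [h]⟩, by omega⟩
      · have e1 : g x = a + 1 := by rw [h2, g3]
        have e2 := g1 y k1
        refine ⟨⟨fun h => by omega, fun h => by rw [h]⟩, by omega⟩
      · have e1 : g x = a + 1 := by rw [h2, g3]
        have e2 : g y = a := by rw [k2, g2]
        refine ⟨⟨fun h => by omega, fun h => by rw [h]⟩, by omega⟩
      · have e1 : g x = a + 1 := by rw [h2, g3]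
        have e2 : g y = a + 1 := by rw [k2, g3]
        refine ⟨⟨fun h => by rw [h2, k2], fun h => by rw [h]⟩, by omega⟩
      · have e1 : g x = a + 1 := by rw [h2, g3]
        have e2 : g y = a + w + 1 := by rw [k4, g4 w k1 k2]
        refine ⟨⟨fun h => by omega, fun h => by rw [h]⟩, by omega⟩
      · have e1 : g x = a + v + 1 := by rw [h4, g4 v h1 h2]
        have e2 := g1 y k1
        refine ⟨⟨fun h => by omega, fun h => by rw [h]⟩, by omega⟩
      · have e1 : g x = a + v + 1 := by rw [h4, g4 v h1 h2]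
        have e2 : g y = a := by rw [k2, g2]
        refine ⟨⟨fun h => by omega, fun h => by rw [h]⟩, by omega⟩
      · have e1 : g x = a + v + 1 := by rw [h4, g4 v h1 h2]
        have e2 : g y = a + 1 := by rw [k2, g3]
        refine ⟨⟨fun h => by omega, fun h => by rw [h]⟩, by omega⟩
      · have e1 : g x = a + v + 1 := by rw [h4, g4 v h1 h2]
        have e2 : g y = a + w + 1 := by rw [k4, g4 w k1 k2]
        refine ⟨⟨fun h => ?_, fun h => by rw [h]⟩, by omega⟩
        rw [h4, k4, show v = w by omega]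
    obtain ⟨k1, k2⟩ := key x hx y hy
    rw [k1, k2]
    constructor
    · rintro (h | h)
      · exact h.le
      · exact A.q_le hL hx hy h
    · intro h
      rcases eq_or_lt_of_le h with h' | h'
      · exact Or.inl h'
      · exact Or.inr (lev_strictAnti h')
  have hinj : Function.Injective f := by
    intro x y h
    exact le_antisymm ((hle x y).mp h.le) ((hle y x).mp h.ge)
  have hsurj : Function.Surjective f := by
    intro y
    have hy := y.lt
    have hmem : ∀ x, x ∈ lowPart (a + 7) t → e (a + 7) 7 ≤ x → x ∈ L :=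
      fun x h1 h2 => (hL x).mpr ⟨h1, h2⟩
    have hz := A.p_mem (u := 7) le_rfl
    rcases Nat.lt_trichotomy y.val a with h | h | h
    · have h2 := A.trunk h
      have h3 : lev (e y.val 0) = y.val := A.C.lev_e _ 0 (by omega) (by omega) (by omega)
      have h4 : e y.val 0 ∈ lowPart (a + 7) t :=
        mem_lowPart.mpr ⟨A.C.le_t _ 0 (by omega) (by omega) (by omega), by omega⟩
      refine ⟨⟨e y.val 0, hmem _ h4 (A.le_trunk hz h4 (by omega)
        (by rw [A.lev_p le_rfl]; omega))⟩, ?_⟩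
      apply Qd.ext
      rw [hf]
      show g (e y.val 0) = y.val
      rw [g1 _ (by omega), h3]
    · refine ⟨⟨e a 0, hmem _ (A.up (A.p_le0 le_rfl) hz) (A.p_le0 le_rfl)⟩, ?_⟩
      apply Qd.ext
      rw [hf]
      show g (e a 0) = y.val
      rw [g2, h]
    · rcases Nat.eq_or_lt_of_le (show a + 1 ≤ y.val from h) with h' | h'
      · refine ⟨⟨e a 1, hmem _ (A.up (A.p_le1 (by omega) le_rfl) hz)
          (A.p_le1 (by omega) le_rfl)⟩, ?_⟩
        apply Qd.ext
        rw [hf]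
        show g (e a 1) = y.val
        rw [g3, h']
      · obtain ⟨v, hv⟩ : ∃ v, y.val = a + v + 1 := ⟨y.val - a - 1, by omega⟩
        have hv7 : v ≤ 7 := by omega
        refine ⟨⟨e (a + v) v, hmem _ (A.p_mem hv7) (A.p_le hv7 le_rfl)⟩, ?_⟩
        apply Qd.ext
        rw [hf]
        show g (e (a + v) v) = y.val
        rw [g4 v (by omega) hv7, hv]
  exact ⟨{ toEquiv := Equiv.ofBijective f ⟨hinj, hsurj⟩, map_rel_iff' := fun {x y} => hle x y }⟩

/-- **T7_lead7** -/
theorem S7.T7_lead7 (ha : 7 < a) :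
    (1 + X : ℤ[X]) ^ 2 ∣ Z {x // x ∈ L} a 8 + X ^ (a + 2) * (1 + X) := by
  obtain ⟨φ⟩ := A.q_iso hL
  exact quadric_lead φ ha

end Quad

end Pool.Agent.GaussPoset

end

/-! From `Pool.Agent.W_448s8f_h61.TG` -/

section

/-!
The data of the star ends: quadric ends and the ends of the seven-cell word
(MP_448cb3_co, S8, finite part).
-/

namespace Pool.Agent.GaussPoset

set_option linter.unusedSectionVars false

open Polynomial Finset Wd Cl

universe u

variable {P : Type u} [Fintype P] [PartialOrder P] [DecidableEq P] {r m : ℕ}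

/-- quadric ends -/
theorem QInf.TD {t : Tops P} (h : QInf m (2 * m - 7) t) (hm : 8 ≤ m) {v : P} (hv : v ≤ (t : P))
    (hvl : lev v = 2 * m)
    (hup : ∀ x y : P, x ≤ y → x ∈ lowPart (2 * m) (t : P) → y ∈ lowPart (2 * m) (t : P)) :
    Fi.TD m t v 8 := by
  obtain ⟨φ⟩ := h.iso
  have hb : 2 * m - (2 * m - 7) = 7 := by omega
  rw [hb] at φ
  have hvL : v ∈ lowPart (2 * m) (t : P) := mem_lowPart.mpr ⟨hv, hvl.le⟩
  have hall : ∀ x ∈ lowPart (2 * m) (t : P), v ≤ x := fun x hx =>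
    h.bot v hv hvl x (mem_lowPart.mp hx).1 (mem_lowPart.mp hx).2
  refine ⟨hv, hvl, by omega, le_rfl, ?_, ?_, ?_, ?_, ?_⟩
  · intro l hl
    rw [h.cn l (by omega), if_neg (by omega)]
  · intro L hL hLup hvL' n hn
    have hLe : L = lowPart (2 * m) (t : P) :=
      Finset.Subset.antisymm hL fun x hx => hLup v hvL' x (hall x hx)
    have ψ : {x // x ∈ L} ≃o {x : P // x ∈ lowPart (2 * m) (t : P)} := by rw [hLe]
    exact quadric_dvd (ψ.trans φ) (by omega) (by omega)
  · intro L hL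
    have hLe : L = lowPart (2 * m) (t : P) := by
      ext x
      rw [hL]
      exact ⟨fun hx => hup _ _ hx hvL, hall x⟩
    have ψ : {x // x ∈ L} ≃o {x : P // x ∈ lowPart (2 * m) (t : P)} := by rw [hLe]
    exact quadric_lead (ψ.trans φ) (by omega)
  · intro x hx hxl hne
    exfalso
    have h1 := h.bot v hv hvl x hx hxl.le
    have h2 := h.bot x hx hxl v hv hvl.le
    exact hne (le_antisymm h2 h1)
  · intro x hx hxl hvx
    exact absurd (h.bot v hv hvl x hx hxl) hvx

section Seven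

variable {a : ℕ} {t : P} {lo hi : ℕ → ℕ} {e : ℕ → ℕ → P}

/-- the left ends of the rows of the word -/
def rl7 (u : ℕ) : ℕ := (wa7.take u).countP (fun l => l.1)

/-- the right ends of the rows of the word -/
def rh7 (u : ℕ) : ℕ := 1 + (wa7.take u).countP (fun l => l.2)

/-- steps in the word -/
def stp7 (u s s' : ℕ) : Prop :=
  u + 1 ≤ 7 ∧ rl7 (u + 1) ≤ s ∧ s ≤ rh7 (u + 1) ∧ rl7 u ≤ s' ∧ s' ≤ rh7 u ∧ (s' = s ∨ s' + 1 = s)

instance (u s s' : ℕ) : Decidable (stp7 u s s') := by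
  unfold stp7
  infer_instance

variable (A : S7 r a t lo hi e)
include A

lemma S7.stp {u s s' : ℕ} (h : stp7 u s s') : e (a + (u + 1)) s ⋖ e (a + u) s' := by
  obtain ⟨h1, h2, h3, h4, h5, h6⟩ := h
  have l1 := A.lo7 (u := u + 1) h1
  have l2 := A.hi7 (u := u + 1) h1
  have l3 := A.lo7 (u := u) (by omega)
  have l4 := A.hi7 (u := u) (by omega)
  unfold rl7 at h2 h4
  unfold rh7 at h3 h5
  exact (A.C.cov (a + u) s s' (by omega) (by rw [show a + u + 1 = a + (u + 1) by omega]; omega)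
    (by rw [show a + u + 1 = a + (u + 1) by omega]; omega) (by omega) (by omega)).mpr h6

lemma S7.cell {u s : ℕ} (hu : u ≤ 7) (h1 : rl7 u ≤ s) (h2 : s ≤ rh7 u) :
    lo (a + u) ≤ s ∧ s ≤ hi (a + u) ∧ lev (e (a + u) s) = a + u ∧
      e (a + u) s ∈ lowPart (a + 7) t := by
  have l1 := A.lo7 (u := u) hu
  have l2 := A.hi7 (u := u) hu
  unfold rl7 at h1
  unfold rh7 at h2
  have g1 : lo (a + u) ≤ s := by omega
  have g2 : s ≤ hi (a + u) := by omega
  have g3 := A.C.lev_e (a + u) s (by omega) g1 g2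
  exact ⟨g1, g2, g3, mem_lowPart.mpr ⟨A.C.le_t _ _ (by omega) g1 g2, by omega⟩⟩

/-- counting cells above a bottom cell and outside an up-set -/
lemma S7.card_cells {s : ℕ} {S : Finset P} (T : Finset (ℕ × ℕ))
    (hT : ∀ c ∈ T, c.1 ≤ 7 ∧ rl7 c.1 ≤ c.2 ∧ c.2 ≤ rh7 c.1)
    (hS : ∀ c ∈ T, e (a + c.1) c.2 ∈ S) : T.card ≤ S.card := by
  classical
  refine Finset.card_le_card_of_injOn (fun c => e (a + c.1) c.2) (fun c hc => hS c hc) ?_
  rintro ⟨u1, s1⟩ h1 ⟨u2, s2⟩ h2 h
  simp only at h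
  have g1 := hT _ h1
  have g2 := hT _ h2
  obtain ⟨a1, a2, a3, -⟩ := A.cell g1.1 g1.2.1 g1.2.2
  obtain ⟨b1, b2, b3, -⟩ := A.cell g2.1 g2.2.1 g2.2.2
  simp only at a1 a2 a3 b1 b2 b3
  have h3 : u1 = u2 := by
    have := congrArg lev h
    omega
  subst h3
  exact Prod.ext rfl (A.C.inj (a + u1) s1 s2 (by have := g1.1; simp only at this; omega)
    a1 a2 b1 b2 h)

lemma S7.not_above7 {u s : ℕ} (h1 : 1 ≤ u) (hu : u ≤ 7) (h2 : rl7 u ≤ s) (h3 : s ≤ rh7 u)
    (hs : s ≠ u) : ¬ e (a + 7) 7 ≤ e (a + u) s := by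
  intro h
  obtain ⟨c1, c2, c3, -⟩ := A.cell hu h2 h3
  obtain ⟨w, w1, w2, w3⟩ := A.above le_rfl h (by omega)
  have h4 : u = w := by
    have := congrArg lev w3
    rw [c3, A.lev_p w2] at this
    omega
  subst h4
  have h5 := A.row hu
  exact hs (A.C.inj (a + u) s u (by omega) c1 c2 h5.1 h5.2 w3)

lemma S7.not_above3 {u s : ℕ} (hu : u ≤ 7) (h2 : rl7 u ≤ s) (h3 : s ≤ rh7 u) (hs : 3 < s) :
    ¬ e (a + 7) 3 ≤ e (a + u) s := by
  intro h
  obtain ⟨c1, c2, c3, -⟩ := A.cell hu h2 h3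
  have hr7 := A.row3 (u := 7) (by omega) le_rfl
  have := A.coord (l := a + u) (by omega) c1 c2 (a + 7) 3 le_rfl hr7.1 hr7.2 h
  omega

/-- the bottom cells -/
lemma S7.bottom {x : P} (hx : x ≤ t) (hxl : lev x = a + 7) :
    ∃ s, 3 ≤ s ∧ s ≤ 7 ∧ x = e (a + 7) s := by
  obtain ⟨s, h1, h2, h3⟩ := A.C.surj x hx (by omega)
  rw [hxl] at h1 h2 h3
  have l1 := A.lo7 (u := 7) le_rfl
  have l2 := A.hi7 (u := 7) le_rfl
  have l3 : (wa7.take 7).countP (fun l => l.1) = 3 := by decide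
  have l4 : (wa7.take 7).countP (fun l => l.2) = 6 := by decide
  exact ⟨s, by omega, by omega, h3.symm⟩

end Seven

end Pool.Agent.GaussPoset

end

/-! From `Pool.Agent.W_448s8f_h61.TH` -/

section

/-!
The data of the two star ends of the seven-cell word (MP_448cb3_co, S8, finite part).
-/

namespace Pool.Agent.GaussPoset

set_option linter.unusedSectionVars false

open Polynomial Finset Wd Cl

universe u

variable {P : Type u} [Fintype P] [PartialOrder P] [DecidableEq P] {r m a : ℕ}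
variable {t : P} {lo hi : ℕ → ℕ} {e : ℕ → ℕ → P} (A : S7 r a t lo hi e)
include A

lemma S7.mem7 {x : P} {u s' : ℕ} {S : Finset P} (hS : ∀ w, w ∈ S ↔ x ≤ w ∧ ¬ e (a + 7) 7 ≤ w)
    (h : 1 ≤ u ∧ u ≤ 7 ∧ rl7 u ≤ s' ∧ s' ≤ rh7 u ∧ s' ≠ u) (hle : x ≤ e (a + u) s') :
    e (a + u) s' ∈ S :=
  (hS _).mpr ⟨hle, A.not_above7 h.1 h.2.1 h.2.2.1 h.2.2.2.1 h.2.2.2.2⟩

lemma S7.mem3 {x : P} {u s' : ℕ} {S : Finset P} (hS : ∀ w, w ∈ S ↔ x ≤ w ∧ ¬ e (a + 7) 3 ≤ w)
    (h : u ≤ 7 ∧ rl7 u ≤ s' ∧ s' ≤ rh7 u ∧ 3 < s') (hle : x ≤ e (a + u) s') :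
    e (a + u) s' ∈ S :=
  (hS _).mpr ⟨hle, A.not_above3 h.1 h.2.1 h.2.2.1 h.2.2.2⟩

lemma S7.two_up {s : ℕ} (h1 : 4 ≤ s) (h2 : s ≤ 6) : (Win.uc (e (a + 7) s)).card ≠ 1 := by
  classical
  intro h
  have g1 : stp7 6 s s := by
    interval_cases s <;> decide
  have g2 : stp7 6 s (s - 1) := by
    interval_cases s <;> decide
  have c1 := A.stp g1
  have c2 := A.stp g2
  rw [Finset.card_eq_one] at h
  obtain ⟨y, hy⟩ := h
  have m1 : e (a + 6) s ∈ Win.uc (e (a + 7) s) := Win.mem_uc.mpr c1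
  have m2 : e (a + 6) (s - 1) ∈ Win.uc (e (a + 7) s) := Win.mem_uc.mpr c2
  rw [hy, mem_singleton] at m1 m2
  obtain ⟨b1, b2, -, -⟩ := A.cell (u := 6) (by omega) g1.2.2.2.1 g1.2.2.2.2.1
  obtain ⟨b3, b4, -, -⟩ := A.cell (u := 6) (by omega) g2.2.2.2.1 g2.2.2.2.2.1
  have := A.C.inj (a + 6) s (s - 1) (by omega) b1 b2 b3 b4 (m1.trans m2.symm)
  omega

lemma S7.tail {x : P} (h : x ≤ e (a + 3) 2) : x ≤ e (a + 2) 1 ∧ x ≤ e (a + 1) 0 := by
  have h1 : x ≤ e (a + 2) 1 := h.trans (A.stp (u := 2) (s := 2) (s' := 1) (by decide)).le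
  exact ⟨h1, h1.trans (A.stp (u := 1) (s := 1) (s' := 0) (by decide)).le⟩

lemma S7.ot7 {x : P} (hx : x ≤ t) (hxl : lev x = a + 7) (hne : x ≠ e (a + 7) 7) {S : Finset P}
    (hS : ∀ w, w ∈ S ↔ x ≤ w ∧ ¬ e (a + 7) 7 ≤ w) :
    8 ≤ 1 + S.card ∧ ((Win.uc x).card = 1 → 8 < 1 + S.card) := by
  classical
  obtain ⟨s, h3, h7, rfl⟩ := A.bottom hx hxl
  have hs7 : s ≠ 7 := fun h => hne (by rw [h])
  obtain rfl | hs4 : s = 3 ∨ 4 ≤ s := by omega
  · -- the other single-up end
    have g6 : e (a + 7) 3 ≤ e (a + 6) 3 := (A.stp (u := 6) (by decide)).le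
    have g5 : e (a + 7) 3 ≤ e (a + 5) 3 := g6.trans (A.stp (u := 5) (by decide)).le
    have g4 : e (a + 7) 3 ≤ e (a + 4) 3 := g5.trans (A.stp (u := 4) (by decide)).le
    have g4' : e (a + 7) 3 ≤ e (a + 4) 2 := g5.trans (A.stp (u := 4) (by decide)).le
    have g3 : e (a + 7) 3 ≤ e (a + 3) 2 := g4'.trans (A.stp (u := 3) (by decide)).le
    obtain ⟨g2, g1⟩ := A.tail g3
    have key : 8 ≤ S.card := by
      refine le_trans (le_of_eq ?_) (A.card_cells (s := 3)
        {(7, 3), (6, 3), (5, 3), (4, 2), (4, 3), (3, 2), (2, 1), (1, 0)} (by decide) ?_)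
      · decide
      · intro c hc
        simp only [mem_insert, mem_singleton] at hc
        rcases hc with rfl | rfl | rfl | rfl | rfl | rfl | rfl | rfl
        · exact A.mem7 hS (by decide) le_rfl
        · exact A.mem7 hS (by decide) g6
        · exact A.mem7 hS (by decide) g5
        · exact A.mem7 hS (by decide) g4'
        · exact A.mem7 hS (by decide) g4
        · exact A.mem7 hS (by decide) g3
        · exact A.mem7 hS (by decide) g2
        · exact A.mem7 hS (by decide) g1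
    omega
  · have hno := A.two_up hs4 (by omega)
    refine ⟨?_, fun h => absurd h hno⟩
    have key : 7 ≤ S.card := by
      obtain rfl | rfl | rfl : s = 4 ∨ s = 5 ∨ s = 6 := by omega
      · have g6 : e (a + 7) 4 ≤ e (a + 6) 3 := (A.stp (u := 6) (by decide)).le
        have g5 : e (a + 7) 4 ≤ e (a + 5) 3 := g6.trans (A.stp (u := 5) (by decide)).le
        have g4 : e (a + 7) 4 ≤ e (a + 4) 2 := g5.trans (A.stp (u := 4) (by decide)).le
        have g3 : e (a + 7) 4 ≤ e (a + 3) 2 := g4.trans (A.stp (u := 3) (by decide)).le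
        obtain ⟨g2, g1⟩ := A.tail g3
        refine le_trans (le_of_eq ?_) (A.card_cells (s := 3)
          {(7, 4), (6, 3), (5, 3), (4, 2), (3, 2), (2, 1), (1, 0)} (by decide) ?_)
        · decide
        · intro c hc
          simp only [mem_insert, mem_singleton] at hc
          rcases hc with rfl | rfl | rfl | rfl | rfl | rfl | rfl
          · exact A.mem7 hS (by decide) le_rfl
          · exact A.mem7 hS (by decide) g6
          · exact A.mem7 hS (by decide) g5
          · exact A.mem7 hS (by decide) g4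
          · exact A.mem7 hS (by decide) g3
          · exact A.mem7 hS (by decide) g2
          · exact A.mem7 hS (by decide) g1
      · have g6 : e (a + 7) 5 ≤ e (a + 6) 4 := (A.stp (u := 6) (by decide)).le
        have g5 : e (a + 7) 5 ≤ e (a + 5) 3 := g6.trans (A.stp (u := 5) (by decide)).le
        have g4 : e (a + 7) 5 ≤ e (a + 4) 2 := g5.trans (A.stp (u := 4) (by decide)).le
        have g3 : e (a + 7) 5 ≤ e (a + 3) 2 := g4.trans (A.stp (u := 3) (by decide)).le
        obtain ⟨g2, g1⟩ := A.tail g3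
        refine le_trans (le_of_eq ?_) (A.card_cells (s := 3)
          {(7, 5), (6, 4), (5, 3), (4, 2), (3, 2), (2, 1), (1, 0)} (by decide) ?_)
        · decide
        · intro c hc
          simp only [mem_insert, mem_singleton] at hc
          rcases hc with rfl | rfl | rfl | rfl | rfl | rfl | rfl
          · exact A.mem7 hS (by decide) le_rfl
          · exact A.mem7 hS (by decide) g6
          · exact A.mem7 hS (by decide) g5
          · exact A.mem7 hS (by decide) g4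
          · exact A.mem7 hS (by decide) g3
          · exact A.mem7 hS (by decide) g2
          · exact A.mem7 hS (by decide) g1
      · have g6 : e (a + 7) 6 ≤ e (a + 6) 5 := (A.stp (u := 6) (by decide)).le
        have g5 : e (a + 7) 6 ≤ e (a + 5) 4 := g6.trans (A.stp (u := 5) (by decide)).le
        have g4 : e (a + 7) 6 ≤ e (a + 4) 3 := g5.trans (A.stp (u := 4) (by decide)).le
        have g3 : e (a + 7) 6 ≤ e (a + 3) 2 := g4.trans (A.stp (u := 3) (by decide)).le
        obtain ⟨g2, g1⟩ := A.tail g3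
        refine le_trans (le_of_eq ?_) (A.card_cells (s := 3)
          {(7, 6), (6, 5), (5, 4), (4, 3), (3, 2), (2, 1), (1, 0)} (by decide) ?_)
        · decide
        · intro c hc
          simp only [mem_insert, mem_singleton] at hc
          rcases hc with rfl | rfl | rfl | rfl | rfl | rfl | rfl
          · exact A.mem7 hS (by decide) le_rfl
          · exact A.mem7 hS (by decide) g6
          · exact A.mem7 hS (by decide) g5
          · exact A.mem7 hS (by decide) g4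
          · exact A.mem7 hS (by decide) g3
          · exact A.mem7 hS (by decide) g2
          · exact A.mem7 hS (by decide) g1
    omega

lemma S7.ot3 {x : P} (hx : x ≤ t) (hxl : lev x = a + 7) (hne : x ≠ e (a + 7) 3) {S : Finset P}
    (hS : ∀ w, w ∈ S ↔ x ≤ w ∧ ¬ e (a + 7) 3 ≤ w) : 4 < 1 + S.card := by
  classical
  obtain ⟨s, h3, h7, rfl⟩ := A.bottom hx hxl
  have hs3 : s ≠ 3 := fun h => hne (by rw [h])
  have key : 4 ≤ S.card := by
    obtain rfl | rfl | rfl | rfl : s = 4 ∨ s = 5 ∨ s = 6 ∨ s = 7 := by omega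
    · have g6 : e (a + 7) 4 ≤ e (a + 6) 4 := (A.stp (u := 6) (by decide)).le
      have g5 : e (a + 7) 4 ≤ e (a + 5) 4 := g6.trans (A.stp (u := 5) (by decide)).le
      have g4 : e (a + 7) 4 ≤ e (a + 4) 4 := g5.trans (A.stp (u := 4) (by decide)).le
      refine le_trans (le_of_eq ?_) (A.card_cells (s := 3) {(7, 4), (6, 4), (5, 4), (4, 4)}
        (by decide) ?_)
      · decide
      · intro c hc
        simp only [mem_insert, mem_singleton] at hc
        rcases hc with rfl | rfl | rfl | rfl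
        · exact A.mem3 hS (by decide) le_rfl
        · exact A.mem3 hS (by decide) g6
        · exact A.mem3 hS (by decide) g5
        · exact A.mem3 hS (by decide) g4
    · have g6 : e (a + 7) 5 ≤ e (a + 6) 5 := (A.stp (u := 6) (by decide)).le
      have g5 : e (a + 7) 5 ≤ e (a + 5) 5 := g6.trans (A.stp (u := 5) (by decide)).le
      have g4 : e (a + 7) 5 ≤ e (a + 4) 4 := g5.trans (A.stp (u := 4) (by decide)).le
      refine le_trans (le_of_eq ?_) (A.card_cells (s := 3) {(7, 5), (6, 5), (5, 5), (4, 4)}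
        (by decide) ?_)
      · decide
      · intro c hc
        simp only [mem_insert, mem_singleton] at hc
        rcases hc with rfl | rfl | rfl | rfl
        · exact A.mem3 hS (by decide) le_rfl
        · exact A.mem3 hS (by decide) g6
        · exact A.mem3 hS (by decide) g5
        · exact A.mem3 hS (by decide) g4
    · have g6 : e (a + 7) 6 ≤ e (a + 6) 6 := (A.stp (u := 6) (by decide)).le
      have g5 : e (a + 7) 6 ≤ e (a + 5) 5 := g6.trans (A.stp (u := 5) (by decide)).le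
      have g4 : e (a + 7) 6 ≤ e (a + 4) 4 := g5.trans (A.stp (u := 4) (by decide)).le
      refine le_trans (le_of_eq ?_) (A.card_cells (s := 3) {(7, 6), (6, 6), (5, 5), (4, 4)}
        (by decide) ?_)
      · decide
      · intro c hc
        simp only [mem_insert, mem_singleton] at hc
        rcases hc with rfl | rfl | rfl | rfl
        · exact A.mem3 hS (by decide) le_rfl
        · exact A.mem3 hS (by decide) g6
        · exact A.mem3 hS (by decide) g5
        · exact A.mem3 hS (by decide) g4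
    · have g6 : e (a + 7) 7 ≤ e (a + 6) 6 := (A.stp (u := 6) (by decide)).le
      have g5 : e (a + 7) 7 ≤ e (a + 5) 5 := g6.trans (A.stp (u := 5) (by decide)).le
      have g4 : e (a + 7) 7 ≤ e (a + 4) 4 := g5.trans (A.stp (u := 4) (by decide)).le
      refine le_trans (le_of_eq ?_) (A.card_cells (s := 3) {(7, 7), (6, 6), (5, 5), (4, 4)}
        (by decide) ?_)
      · decide
      · intro c hc
        simp only [mem_insert, mem_singleton] at hc
        rcases hc with rfl | rfl | rfl | rfl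
        · exact A.mem3 hS (by decide) le_rfl
        · exact A.mem3 hS (by decide) g6
        · exact A.mem3 hS (by decide) g5
        · exact A.mem3 hS (by decide) g4
  omega

/-- everything on the levels `≤ a` is above every bottom cell of the path or the side -/
lemma S7.out7 {x : P} (hx : x ≤ t) (hxa : lev x ≤ a) : e (a + 7) 7 ≤ x ∧ e (a + 7) 3 ≤ x := by
  have hxL : x ∈ lowPart (a + 7) t := mem_lowPart.mpr ⟨hx, by omega⟩
  have h3 : e (a + 7) 3 ≤ e (a + 3) 3 := A.side le_rfl (by omega)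
  rcases Nat.lt_or_ge (lev x) a with h | h
  · exact ⟨A.le_trunk (A.p_mem le_rfl) hxL h (by rw [A.lev_p le_rfl]; omega),
      h3.trans (A.le_trunk (A.p_mem (u := 3) (by omega)) hxL h
        (by rw [A.lev_p (by omega)]; omega))⟩
  · rcases A.row_eq hxL (by omega) with rfl | rfl
    · exact ⟨A.p_le0 le_rfl, h3.trans (A.p_le0 (by omega))⟩
    · exact ⟨A.p_le1 (by omega) le_rfl, h3.trans (A.p_le1 (by omega) (by omega))⟩

lemma S7.cn_a {l : ℕ} (hl : l < a) : cn l t = 1 := by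
  classical
  unfold cn
  rw [A.C.card_row (by omega)]
  have := A.trunk hl
  omega

end Pool.Agent.GaussPoset

end

/-! From `Pool.Agent.W_448s8f_h61.TI` -/

section

/-!
The data `TD` of the two star ends of the seven-cell word (MP_448cb3_co, S8, finite part).
-/

namespace Pool.Agent.GaussPoset

set_option linter.unusedSectionVars false

open Polynomial Finset Wd Cl

universe u

variable {P : Type u} [Fintype P] [PartialOrder P] [DecidableEq P] {r m a : ℕ}
variable {t : Tops P} {lo hi : ℕ → ℕ} {e : ℕ → ℕ → P}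

/-- the data of the end of the path -/
theorem S7.TD8 (A : S7 r a (t : P) lo hi e) (hm : 2 * m = a + 7) (ha : 7 < a) :
    Fi.TD m t (e (a + 7) 7) 8 := by
  have hm7 : 2 * m - 7 = a := by omega
  have hx := A.p_mem (u := 7) le_rfl
  refine ⟨(mem_lowPart.mp hx).1, ?_, by omega, le_rfl, ?_, ?_, ?_, ?_, ?_⟩
  · rw [A.lev_p le_rfl, hm]
  · intro l hl
    exact A.cn_a (by omega)
  · intro L hL hup hv n hn
    rw [hm7]
    rw [hm] at hL
    exact A.T7_dvd ha.le hL (fun x y hxy hxL => hup x hxL y hxy) hv (by omega)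
  · intro L hL
    rw [hm7]
    refine A.T7_lead7 (fun x => ?_) ha
    rw [hL]
    exact ⟨fun h => ⟨A.up h hx, h⟩, fun h => h.2⟩
  · intro x hxt hxl hne S hS
    exact A.ot7 hxt (by omega) hne hS
  · intro x hxt hxl hnv
    by_contra hcon
    exact hnv (A.out7 hxt (by omega)).1

/-- the data of the end of the side -/
theorem S7.TD4 (A : S7 r a (t : P) lo hi e) (hm : 2 * m = a + 7) (ha : 7 < a) :
    Fi.TD m t (e (a + 7) 3) 4 := by
  have hm7 : 2 * m - 7 = a := by omega
  have hr7 := A.row3 (u := 7) (by omega) le_rfl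
  have hl3 : lev (e (a + 7) 3) = a + 7 := A.C.lev_e _ _ le_rfl hr7.1 hr7.2
  have hx : e (a + 7) 3 ∈ lowPart (a + 7) (t : P) :=
    mem_lowPart.mpr ⟨A.C.le_t _ _ le_rfl hr7.1 hr7.2, hl3.le⟩
  refine ⟨(mem_lowPart.mp hx).1, ?_, by omega, by omega, ?_, ?_, ?_, ?_, ?_⟩
  · rw [hl3, hm]
  · intro l hl
    exact A.cn_a (by omega)
  · intro L hL hup hv n hn
    rw [hm7]
    rw [hm] at hL
    exact A.T7_dvd' ha.le hL (fun x y hxy hxL => hup x hxL y hxy) hv hn
  · intro L hL
    rw [hm7]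
    refine A.T7_lead3 ha.le (fun x => ?_)
    rw [hL]
    exact ⟨fun h => ⟨A.up h hx, h⟩, fun h => h.2⟩
  · intro x hxt hxl hne S hS
    have := A.ot3 hxt (by omega) hne hS
    exact ⟨by omega, fun _ => this⟩
  · intro x hxt hxl hnv
    by_contra hcon
    exact hnv (A.out7 hxt (by omega)).2

end Pool.Agent.GaussPoset

end

/-! From `Pool.Agent.W_448s8f_h61.TJ` -/

section

/-!
The profiles of the ends of the late words (MP_448cb3_co, S8, finite part).
-/

namespace Pool.Agent.GaussPoset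

set_option linter.unusedSectionVars false

open Polynomial Finset Wd Cl

/-- the profiles of the ends of the late words -/
def PLl : List (List ℕ) := [[], [0, 0, 1, 1, 1], [0, 0, 1, 1, 1, 1, 1], Fi.p5] ++
  (List.range' 2 6).map (fun d => List.replicate d 0 ++ [1])

/-- the check of an end -/
def ChkP (w : List Ltr) (s : ℕ) : Prop :=
  Wd.Lw w (w.length + 3) ≤ s → s ≤ Wd.Hw w (w.length + 3) →
    (upI (Wd.Lw w) (Wd.Hw w) (w.length + 3) s 1).1 = (upI (Wd.Lw w) (Wd.Hw w) (w.length + 3) s 1).2 →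
    ∃ p ∈ PLl, p.length ≤ w.length + 1 ∧ (∀ d < w.length + 1,
      (upI (Wd.Lw w) (Wd.Hw w) (w.length + 3) s d).2 =
        (upI (Wd.Lw w) (Wd.Hw w) (w.length + 3) s d).1 + Fi.gD p d) ∧
      (Fi.gD p 7 = 1 → (w = wa7 ∧ ((s = 7 ∧ p = Fi.q7) ∨ (s = 3 ∧ p = Fi.p5))))

instance (w : List Ltr) (s : ℕ) : Decidable (ChkP w s) := by unfold ChkP; infer_instance

lemma late_prof : ∀ w ∈ lateW 8, ∀ s, s < 20 → ChkP w s := by decide +kernel

lemma gD_rep (n d : ℕ) : Fi.gD (List.replicate n 0 ++ [1]) d = if d = n then 1 else 0 := by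
  unfold Fi.gD
  rw [List.getD_eq_getElem?_getD]
  rcases Nat.lt_trichotomy d n with h | h | h
  · rw [List.getElem?_append_left (by rw [List.length_replicate]; exact h),
      List.getElem?_replicate, if_pos h, if_neg (by omega)]
    rfl
  · rw [h, List.getElem?_append_right (by rw [List.length_replicate]), List.length_replicate,
      Nat.sub_self, if_pos rfl]
    rfl
  · have h2 : (List.replicate n 0 ++ [1]).length ≤ d := by
      rw [List.length_append, List.length_replicate, List.length_singleton]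
      omega
    rw [List.getElem?_eq_none h2, if_neg (by omega)]
    rfl

lemma gD_large {p : List ℕ} {d : ℕ} (h : p.length ≤ d) : Fi.gD p d = 0 := by
  unfold Fi.gD
  rw [List.getD_eq_getElem?_getD, List.getElem?_eq_none h]
  rfl

universe u

variable {P : Type u} [Fintype P] [PartialOrder P] [DecidableEq P] {r m a : ℕ}
variable {t : Tops P} {lo hi : ℕ → ℕ} {e : ℕ → ℕ → P}

/-- the profiles of the ends of the late words -/
theorem prof_late (C : Cp.Comp (2 * m) (t : P) lo hi e) (H : Gr P r)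
    (hg : ∀ l, l < 2 * m → Win.Good P l) (D : LateD (2 * m) a lo hi)
    (hw : word lo hi a (2 * m - a) ∈ lateW 8) {s : ℕ} (s1 : lo (2 * m) ≤ s)
    (s2 : s ≤ hi (2 * m)) (hx : (Win.uc (e (2 * m) s)).card = 1) :
    ∃ p ∈ PLl, Fi.Prof m (e (2 * m) s) (Fi.gD p) ∧ (Fi.gD p 7 = 1 →
      (word lo hi a (2 * m - a) = wa7 ∧ ((s = 7 ∧ p = Fi.q7) ∨ (s = 3 ∧ p = Fi.p5)))) := by
  have h0 := D.h0
  have h1 := D.h1
  have ht := t.2
  have hlv := C.lev_e (2 * m) s le_rfl s1 s2
  have hnab : ∀ d, d ≤ 2 * m → nab (2 * m - d) (e (2 * m) s) =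
      (upI lo hi (2 * m) s d).2 + 1 - (upI lo hi (2 * m) s d).1 :=
    fun d hd => nab_upI C H hg ht s1 s2 hd
  have hint : ∀ d, d ≤ 2 * m → lo (2 * m - d) ≤ (upI lo hi (2 * m) s d).1 ∧
      (upI lo hi (2 * m) s d).1 ≤ (upI lo hi (2 * m) s d).2 ∧
      (upI lo hi (2 * m) s d).2 ≤ hi (2 * m - d) :=
    fun d hd => (upI_spec C H hg ht s1 s2 d hd).1
  have hfirst : (upI lo hi (2 * m) s 1).1 = (upI lo hi (2 * m) s 1).2 := by
    rw [uc_card_nab H (by omega), hlv, hnab 1 (by omega)] at hx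
    have := hint 1 (by omega)
    omega
  have hL := fun n hn => (Wd.Lw_of_trunk C h0 h1 D.h2 D.h3 n hn).1
  have hH := fun n hn => (Wd.Lw_of_trunk C h0 h1 D.h2 D.h3 n hn).2
  have hup := upI_congr (s := s) hL hH
  have hj' : a - 3 + (2 * m - a + 3) = 2 * m := by omega
  rw [hj'] at hup
  have k1 := late_small _ hw
  have k2 := late_prof _ hw s
  rw [word_length] at k1
  unfold ChkP at k2
  rw [word_length, hL _ le_rfl, hH _ le_rfl, hj', hup 1 (by omega)] at k2
  rw [hH _ le_rfl, hj'] at k1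
  have k3 := k2 (by omega) s1 s2 hfirst
  clear k2
  obtain ⟨p, hp, hlen, hd, h7⟩ := k3
  refine ⟨p, hp, fun d hdj => ?_, h7⟩
  rw [hnab d hdj]
  have h2 := hint d hdj
  rcases Nat.lt_or_ge (2 * m - d) a with h3 | h3
  · have h4 := D.h2 _ h3
    rw [gD_large (by omega)]
    omega
  · have h4 := hd d (by omega)
    rw [hup d (by omega)] at h4
    omega

end Pool.Agent.GaussPoset

end

/-! From `Pool.Agent.W_448s8f_h61.TK` -/

section

/-!
The types of the strips for the finite part of S8 and the context `WC` (MP_448cb3_co).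
-/

namespace Pool.Agent.GaussPoset

set_option linter.unusedSectionVars false

open Polynomial Finset Wd Cl

/-- the profile of the bottom of the complete `E7` -/
def pE7 : List ℕ := [0, 0, 0, 0, 1, 1, 1, 1, 2, 1, 1, 1, 1]

lemma E7_up : ∀ d < 17, (upI (losW 4 w7) (hisW 4 w7) 16 5 d).2 + 1 -
    (upI (losW 4 w7) (hisW 4 w7) 16 5 d).1 = 1 + Fi.gD pE7 d := by decide +kernel

lemma E7_last : losW 4 w7 16 = 5 ∧ hisW 4 w7 16 = 5 := by decide +kernel

lemma E7_eight : losW 4 w7 8 = 2 ∧ hisW 4 w7 8 = 4 := by decide +kernel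

/-- the three cases -/
def CF (i m : ℕ) : Prop := (i = 8 ∧ m = 8) ∨ (i = 9 ∧ m = 9) ∨ (i = 8 ∧ m = 9)

lemma PLl_PL {i m : ℕ} (hc : CF i m) : ∀ p ∈ PLl, p ∈ Fi.PL i m := by
  rcases hc with ⟨rfl, rfl⟩ | ⟨rfl, rfl⟩ | ⟨rfl, rfl⟩ <;> decide

lemma rep_PL {i m d : ℕ} (h1 : 1 ≤ d) (h2 : d < 2 * m - i) :
    List.replicate d 0 ++ [1] ∈ Fi.PL i m := by
  unfold Fi.PL
  refine List.mem_append_right _ (List.mem_map.mpr ⟨d, ?_, rfl⟩)
  rw [List.mem_range'_1]
  omega

lemma nil_PL {i m : ℕ} : [] ∈ Fi.PL i m := by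
  unfold Fi.PL
  refine List.mem_append_left _ ?_
  exact List.mem_cons_self

universe u

variable {P : Type u} [Fintype P] [PartialOrder P] [DecidableEq P] {r i m a : ℕ}
variable {t : Tops P} {lo hi : ℕ → ℕ} {e : ℕ → ℕ → P}

lemma low_up (h : Win.GoodTo P r (2 * m)) : ∀ x y : P, x ≤ y → x ∈ lowPart (2 * m) (t : P) →
    y ∈ lowPart (2 * m) (t : P) :=
  fun _ _ hxy hx => lowPart_up h.H h.good t.2 hxy hx

/-- the profile of the bottom of a quadric -/
lemma quad_prof (h : QInf m a t) {v : P} (hv : v ≤ (t : P)) (hvl : lev v = 2 * m)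
    (hup : ∀ x y : P, x ≤ y → x ∈ lowPart (2 * m) (t : P) → y ∈ lowPart (2 * m) (t : P))
    (ha : a ≤ 2 * m) : Fi.Prof m v (Fi.gD (List.replicate (2 * m - a) 0 ++ [1])) := by
  classical
  intro d hd
  have hvL : v ∈ lowPart (2 * m) (t : P) := mem_lowPart.mpr ⟨hv, hvl.le⟩
  have h1 : nab (2 * m - d) v = cn (2 * m - d) (t : P) := by
    unfold nab cn
    congr 1
    ext x
    rw [mem_filter, mem_filter, mem_lv]
    constructor
    · rintro ⟨h2, h3⟩
      exact ⟨h2, (mem_lowPart.mp (hup _ _ h3 hvL)).1⟩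
    · rintro ⟨h2, h3⟩
      exact ⟨h2, h.bot v hv hvl x h3 (by omega)⟩
  rw [h1, h.cn _ (by omega), gD_rep]
  split_ifs <;> omega

/-- straight strips -/
theorem tc_str (h : Win.GoodTo P r (2 * m)) (him : i ≤ m) (C : Cp.Comp (2 * m) (t : P) lo hi e)
    (hL : ∀ k, k ≤ 2 * m → lo k = 0 ∧ hi k = 0) (hm : 1 ≤ m) :
    ∃ N θ, Fi.Tc i m t (hi i - lo i + 1) N θ := by
  classical
  have hcn : ∀ l, l ≤ 2 * m → cn l (t : P) = 1 := by
    intro l hl
    rw [cn_comp C (by omega)]
    have := hL l hl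
    omega
  have e1 := hL i (by omega)
  refine ⟨_, _, Fi.Tc.light rfl rfl (by omega) (only_low h) ⟨e i (lo i), C.le_t i (lo i)
    (by omega) le_rfl (C.lo_le i (by omega)), C.lev_e i (lo i) (by omega) le_rfl
    (C.lo_le i (by omega))⟩ ?_ (hcn 2 (by omega)).le⟩
  intro v hv hvl _
  refine ⟨[], nil_PL, ?_, ?_⟩
  · intro d hd
    have h1 := nab_le_cn' (t := t) h hv hvl.le (2 * m - d)
    rw [hcn _ (by omega)] at h1
    have h2 := one_le_nab (z := v) (l := 2 * m - d) (by omega)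
    rw [gD_large (Nat.zero_le _)]
    omega
  · intro h7
    rw [gD_large (Nat.zero_le _)] at h7
    omega

/-- late strips, light at window `i` -/
theorem tc_late (h : Win.GoodTo P r (2 * m)) (him : i ≤ m) (hc : CF i m)
    (C : Cp.Comp (2 * m) (t : P) lo hi e) (D : LateD (2 * m) a lo hi) (hia : i < a) :
    ∃ N θ, Fi.Tc i m t (hi i - lo i + 1) N θ := by
  classical
  have h0 := D.h0
  have h1 := D.h1
  have hm8 : 8 ≤ m ∧ 8 ≤ i := by
    rcases hc with h2 | h2 | h2 <;> omega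
  have e1 := D.h2 i hia
  have hcn : cn 2 (t : P) ≤ 1 := by
    rw [cn_comp C (by omega)]
    have := D.h2 2 (by omega)
    omega
  refine ⟨_, _, Fi.Tc.light rfl rfl (by omega) (only_low h) ⟨e i (lo i), C.le_t i (lo i)
    (by omega) le_rfl (C.lo_le i (by omega)), C.lev_e i (lo i) (by omega) le_rfl
    (C.lo_le i (by omega))⟩ ?_ hcn⟩
  rcases D.h4 with ⟨h2, h3⟩ | h2
  · have hq := D.quad C h3
    have Q : QRows (2 * m) a lo hi := ⟨D.h2, D.h3, by
      intro k hk hk2
      have := hq (k - a) (by omega) (by omega)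
      rwa [show a + (k - a) = k by omega] at this⟩
    have hQ : QInf m a t := Q.inf C (by omega)
    intro v hv hvl _
    refine ⟨_, rep_PL (d := 2 * m - a) (by omega) (by omega),
      quad_prof hQ hv hvl (low_up h) h1, ?_⟩
    intro h7
    rw [gD_rep] at h7
    have h8 : 2 * m - a = 7 := by
      by_contra hcon
      rw [if_neg (fun h' => hcon h'.symm)] at h7
      omega
    left
    have h9 : a = 2 * m - 7 := by omega
    subst h9
    refine ⟨?_, hQ.TD hm8.1 hv hvl (low_up h)⟩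
    rw [h8]
    rfl
  · rw [lateW_large (by omega)] at h2
    intro v hv hvl hvu
    obtain ⟨s, s1, s2, hs⟩ := C.surj v hv hvl.le
    rw [hvl] at s1 s2 hs
    subst hs
    obtain ⟨p, hp, hpr, h7⟩ := prof_late C h.H h.good D h2 s1 s2 hvu
    refine ⟨p, PLl_PL hc p hp, hpr, fun h8 => ?_⟩
    obtain ⟨hw, hsp⟩ := h7 h8
    have hlen : 2 * m - a = 7 := by
      have := congrArg List.length hw
      rw [word_length] at this
      exact this
    have h9 : 2 * m = a + 7 := by omega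
    have A : S7 r a (t : P) lo hi e := by
      refine ⟨h9 ▸ C, ⟨D.h2, D.h3, ?_⟩, h.H, h9 ▸ h.good, t.2⟩
      rw [Nat.add_sub_cancel_left]
      rw [hlen] at hw
      rw [hw]
      rfl
    rcases hsp with ⟨rfl, rfl⟩ | ⟨rfl, rfl⟩
    · left
      refine ⟨rfl, ?_⟩
      have := A.TD8 h9 (by omega)
      rwa [← h9] at this
    · right
      refine ⟨rfl, ?_⟩
      have := A.TD4 h9 (by omega)
      rwa [← h9] at this

/-- rectangle-like strips -/
theorem tc_rect (h : Win.GoodTo P r (2 * m)) (him : i ≤ m) (hi1 : 1 ≤ i)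
    (C : Cp.Comp (2 * m) (t : P) lo hi e) (h1 : lo 1 = 0 ∧ hi 1 = 1)
    (S : RectShape (2 * m) lo hi) : ∃ N θ, Fi.Tc i m t (hi i - lo i + 1) N θ := by
  have H := h.H
  have hg := h.good
  have hlt : lo i < hi i := by
    have g1 := C.lo_mono (l := 1) (d := i - 1) (by omega)
    have g2 := C.hi_mono (l := 1) (d := i - 1) (by omega)
    rw [show 1 + (i - 1) = i by omega] at g1 g2
    by_contra hcon
    have g3 := C.lo_le i (by omega)
    have g4 := shape_lo C S.lo (l := i) (by omega) i (by omega)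
    have g5 := shape_hi C S.hi (l := i) (by omega) i (by omega)
    have g6 := C.lo_le (i + i) (by omega)
    omega
  obtain ⟨Nc, co, h2, -⟩ := exists_rect C H hg H.gradedBelow S (i := i) (by omega) hlt
  refine ⟨_, _, Fi.Tc.rect Nc co h2 rfl rfl ?_⟩
  intro x z hxt hxl hx2 hzx honly
  obtain ⟨j, hj⟩ : ∃ j, 2 * m = j + 1 := ⟨2 * m - 1, by omega⟩
  exact rectShape_no_pendant (i := j) (hj ▸ h) (by omega) t.2 (hj ▸ C) (hj ▸ S)
    (hxl.trans hj) hxt hx2 hzx honly

/-- stair-like strips -/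
theorem tc_stair (h : Win.GoodTo P r (2 * m)) (him : i ≤ m) (hm : 2 ≤ m)
    (C : Cp.Comp (2 * m) (t : P) lo hi e) (S : StairShape (2 * m) lo hi) :
    ∃ N θ, Fi.Tc i m t (hi i - lo i + 1) N θ := by
  have H := h.H
  have hg := h.good
  obtain ⟨Nc, co, h1, -⟩ := exists_stair C H hg H.gradedBelow S (i := i) (by omega)
  have hnop : NopT m t := by
    intro x z hxt hxl hx2 hzx honly
    obtain ⟨j, hj⟩ : ∃ j, 2 * m = j + 1 := ⟨2 * m - 1, by omega⟩
    have h2 := stairShape_pendant (i := j) (hj ▸ h) (by omega) t.2 (hj ▸ C) (hj ▸ S)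
      (hxl.trans hj) hxt hx2 hzx honly
    have h3 := cell_lev C (x := x) hxt (by omega)
    omega
  have e0 : lo i = 0 := by
    by_contra hcon
    have e1 := shape_lo C S.lo (l := i) (by omega) i (by omega)
    have e2 := S.hi (i + i) (by omega)
    have e3 := C.lo_le (i + i) (by omega)
    omega
  have e1 := S.hi i (by omega)
  exact ⟨_, _, Fi.Tc.stair Nc co h1 rfl rfl (by omega) hnop⟩

/-- the heavy quadric -/
theorem tc_quad (h : Win.GoodTo P r (2 * m)) (hm : 8 ≤ m)
    (C : Cp.Comp (2 * m) (t : P) lo hi e) (D : LateD (2 * m) m lo hi) :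
    ∃ N θ, Fi.Tc m m t (hi m - lo m + 1) N θ := by
  have h0 := D.h0
  have h1 := D.h1
  rcases D.h4 with ⟨h2, h3⟩ | h2
  · have hq := D.quad C h3
    have Q : QRows (2 * m) m lo hi := ⟨D.h2, D.h3, by
      intro k hk hk2
      have := hq (k - m) (by omega) (by omega)
      rwa [show m + (k - m) = k by omega] at this⟩
    have hQ : QInf m m t := Q.inf C (by omega)
    have hup := low_up (t := t) h
    have e1 := D.h3
    have hpr : ∀ v, v ≤ (t : P) → lev v = 2 * m →
        Fi.Prof m v (Fi.gD (List.replicate m 0 ++ [1])) := by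
      intro v hv hvl
      have := quad_prof hQ hv hvl hup h1
      rwa [show 2 * m - m = m by omega] at this
    have hN := natTop_quad (by omega) (dvd_W_Qd m) hQ (fun x hx y hxy => hup x y hxy hx)
    rw [show hi m - lo m + 1 = 2 by omega]
    refine ⟨_, _, Fi.Tc.heavy rfl (fun x _ => rfl) ⟨_, hN⟩ ?_ ?_ ?_⟩
    · intro v w hv hw hvl hwl
      exact le_antisymm (hQ.bot v hv hvl w hw hwl.le) (hQ.bot w hw hwl v hv hvl.le)
    · intro v hv hvl
      refine ⟨?_, _, ?_, hpr v hv hvl⟩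
      · rw [uc_card_nab h.H (by omega), hvl]
        have := hpr v hv hvl 1 (by omega)
        rw [gD_rep, if_neg (by omega)] at this
        exact this
      · unfold Fi.HL
        rw [if_pos rfl]
        exact List.mem_cons_self
    · rw [hQ.cn 2 (by omega), if_neg (by omega)]
  · exfalso
    have h3 := late_len_all h2
    rw [word_length] at h3
    omega

/-- the complete `E7` -/
theorem tc_E7 (h : Win.GoodTo P r 16) (C : Cp.Comp 16 (t : P) lo hi e)
    (D : LateD 16 4 lo hi) : ∃ N θ, Fi.Tc 8 8 t (hi 8 - lo 8 + 1) N θ := by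
  obtain ⟨W, -⟩ := wordD_four D (by omega) (by omega)
  obtain ⟨r1, r2⟩ := W.rows C
  have H := h.H
  have hg := h.good
  have l1 := r1 16 le_rfl
  have l2 := r2 16 le_rfl
  rw [E7_last.1] at l1
  rw [E7_last.2] at l2
  have l3 := r1 8 (by omega)
  have l4 := r2 8 (by omega)
  rw [E7_eight.1] at l3
  rw [E7_eight.2] at l4
  have hv : ∀ v : P, v ≤ (t : P) → lev v = 16 → v = e 16 5 := by
    intro v hv hvl
    obtain ⟨s, s1, s2, hs⟩ := C.surj v hv hvl.le
    rw [hvl] at s1 s2 hs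
    rw [← hs, show s = 5 by omega]
  have hpr : Fi.Prof 8 (e 16 5) (Fi.gD pE7) := by
    intro d hd
    have h1 := nab_upI C H hg t.2 (s := 5) (by omega) (by omega) (m := d) hd
    have h2 : upI lo hi 16 5 d = upI (losW 4 w7) (hisW 4 w7) 16 5 d := by
      have := upI_congr (L := losW 4 w7) (H := hisW 4 w7) (lo := lo) (hi := hi) (B := 0)
        (N := 16) (s := 5) (fun n hn => by rw [Nat.zero_add]; exact (r1 n hn).symm)
        (fun n hn => by rw [Nat.zero_add]; exact (r2 n hn).symm) d hd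
      rw [this]
    rw [h2] at h1
    exact h1.trans (E7_up d (by omega))
  have hN := natTop_E7_8 W C H hg H.gradedBelow
  rw [show hi 8 - lo 8 + 1 = 3 by omega]
  refine ⟨_, _, Fi.Tc.heavy rfl (θ := fun x => lev x - 16) ?_ ⟨_, hN⟩ ?_ ?_ ?_⟩
  · intro x hx
    show lev x - 16 = 0
    omega
  · intro v w hv1 hw1 hvl hwl
    rw [hv v hv1 hvl, hv w hw1 hwl]
  · intro v hv1 hvl
    rw [hv v hv1 hvl]
    refine ⟨?_, pE7, ?_, hpr⟩
    · have l5 : lev (e 16 5) = 16 := C.lev_e 16 5 le_rfl (by omega) (by omega)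
      rw [uc_card_nab H (by omega), l5]
      exact hpr 1 (by omega)
    · decide
  · rw [cn_comp C (by omega)]
    have := D.h2 2 (by omega)
    omega

/-- the type of a strip -/
theorem tc_shape (hc : CF i m) (h : Win.GoodTo P r (2 * m))
    (C : Cp.Comp (2 * m) (t : P) lo hi e) (hS : Wd.Shape (2 * m) lo hi) :
    ∃ N θ, Fi.Tc i m t (hi i - lo i + 1) N θ := by
  have him : i ≤ m ∧ m ≤ i + 1 ∧ 8 ≤ i ∧ m ≤ 9 := by
    rcases hc with h2 | h2 | h2 <;> omega
  rcases hS with h1 | ⟨h1, h2⟩ | ⟨h1, h2⟩ | ⟨h1, h2, h3⟩ | ⟨h1, h2⟩ | ⟨a, h0, h1, h2, h3, hN, h4⟩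
  · exact tc_str h him.1 C h1 (by omega)
  · exact tc_rect h him.1 (by omega) C h1 h2
  · exact tc_stair h him.1 (by omega) C h2
  · omega
  · omega
  · have D : LateD (2 * m) a lo hi := ⟨h0, h1, h2, h3, h4⟩
    rcases Nat.lt_or_ge i a with h5 | h5
    · exact tc_late h him.1 hc C D h5
    · -- the heavy ones
      have h6 : (a = m ∧ i = m) ∨ (a = 4 ∧ m = 8) := by
        rcases h4 with h7 | h7
        · left
          omega
        · right
          have h8 := late_len_all h7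
          rw [word_length] at h8
          omega
      rcases h6 with ⟨rfl, rfl⟩ | ⟨rfl, rfl⟩
      · exact tc_quad h (by omega) C D
      · have : i = 8 := by omega
        subst this
        exact tc_E7 h C D

/-- the context -/
theorem Fi.exists_WC {K : ℕ} (hc : (i = 8 ∧ m = 8) ∨ (i = 9 ∧ m = 9) ∨ (i = 8 ∧ m = 9))
    (h : Win.GoodTo P r (2 * m)) (hr : 2 * m + 1 ≤ r) {lo hi : Tops P → ℕ → ℕ}
    {e : Tops P → ℕ → ℕ → P} (C : ∀ t : Tops P, Cp.Comp (2 * m) (t : P) (lo t) (hi t) (e t))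
    (hS : ∀ t, Wd.Shape (2 * m) (lo t) (hi t)) (kR : KapR i m K) (kS : KapS i m K)
    (hK : K ≤ (2 * m + 1 - i) ^ 2 + 1) :
    ∃ N θ, WC r i m K N (fun t => hi t i - lo t i + 1) θ := by
  classical
  have hc' : CF i m := hc
  have him : i ≤ m ∧ m ≤ i + 1 ∧ 8 ≤ i := by
    rcases hc with h2 | h2 | h2 <;> omega
  choose N θ hT using fun t => tc_shape hc' h (C t) (hS t)
  refine ⟨N, θ, ⟨h, hr, by omega, him.1, him.2.1, hT, ?_, kR, kS, hK⟩⟩
  rw [card_level h.H h.good C (i := i) (by omega)]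

end Pool.Agent.GaussPoset

end
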