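import Mathlib
import Pool.Agent.W_448zz_h61.Ns
import Pool.Agent.W_448zz_h61.M101
import Pool.Agent.W_448zz_h61.M124
import Pool.Agent.W_448zz_h61.M127
import Pool.Agent.W_448zz_h61.M140

/-! From `Pool.Agent.W_448s8_h76.SaQ` -/

section

/-!
The product of the two factors (MP_448cb3_co, S8).
-/

namespace Pool.Agent.GaussPoset

set_option linter.unusedSectionVars false

open Polynomial Finset

universe u

variable {P : Type u} [Fintype P] [PartialOrder P] [DecidableEq P] {r m : ℕ}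
  {N : Tops P → Finset P} {b : Tops P → ℕ} {θ : Tops P → P → ℕ}
  {f v : P} {Nc : Finset P} {co : P → ℕ × ℕ}

lemma StarF.prod (W : WM r m N b θ) (S : StarF m N b θ f v Nc co) (β : P → ℕ) (n : ℕ) :
    ZB m (Rq m N v) 0 β n = ∑ ab ∈ antidiagonal n,
      ZB (P := QT m N v) m ∅ 0 (fun x => β x.1.1) ab.1 *
      ZB (P := QR m N v) m ∅ 0 (fun x => β x.1.1) ab.2 := by
  rw [ZB_off_bound (S.lower W) (fun x hx => by
    have := S.lev_Rq W hx
    omega)]
  exact ZB_prod (fun x : QO m N v => topOf (x : P) = topOf v)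
    (fun x y hxy => by rw [S.cp W hxy x.2]) m (fun x : QO m N v => β x) n

lemma StarF.lv_T (W : WM r m N b θ) (S : StarF m N b θ f v Nc co) :
    (lv (QT m N v) m).card = 1 := by
  classical
  have hm := W.ten
  have hh1 := hh_pos m
  rw [← S.card_top W (l := m) (by omega)]
  unfold lv
  have h3 : (univ.filter (fun x : QT m N v => lev x = m)) =
      (univ.filter (fun x : QT m N v => lev (x.1.1 : P) = m)) :=
    Finset.filter_congr fun x _ => by rw [S.levT W]
  rw [h3, card_sub' (p := fun x : QO m N v => topOf (x : P) = topOf v)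
    (fun x : QO m N v => lev (x : P) = m),
    card_sub' (p := fun x : P => x ∉ Rq m N v)
      (fun x : P => topOf x = topOf v ∧ lev x = m)]
  congr 1
  refine Finset.filter_congr fun x _ => ?_
  constructor
  · rintro ⟨-, h4, h5⟩
    exact ⟨h5, h4⟩
  · rintro ⟨h4, h5⟩
    exact ⟨S.off W (by omega), h5, h4⟩

lemma StarF.lev_vT (W : WM r m N b θ) (S : StarF m N b θ f v Nc co) :
    lev (S.vT W) = 2 * m := by
  rw [S.levT W]
  exact S.hlv

lemma StarF.lev_fR (W : WM r m N b θ) (S : StarF m N b θ f v Nc co) :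
    lev (S.fR W) = 2 * m := by
  rw [S.levR W]
  exact S.fold.lev

lemma StarF.two_le (W : WM r m N b θ) (S : StarF m N b θ f v Nc co) : 2 ≤ (lv P m).card := by
  have h1 := S.lv_R W
  have h2 := one_le_nab (z := S.fR W) (l := m) (by rw [S.lev_fR W]; omega)
  have h3 := nab_le (S.fR W) m
  omega

/-- the order of the rest -/
theorem StarF.dvd_R (W : WM r m N b θ) (S : StarF m N b θ f v Nc co) (β : P → ℕ)
    (hβ : ∀ x, x ∉ Rq m N v → topOf x ≠ topOf v → β x ≤ thX (twY (2 * m) N) (twT N)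
      (fun x => tq m θ f Nc co (topOf x) x) x) {n : ℕ} (hn : n < Kb m - 1) :
    (1 + X : ℤ[X]) ^ ((lv P m).card - 2) ∣
      ZB (P := QR m N v) m ∅ 0 (fun x => β x.1.1) n := by
  classical
  have h2 := S.two_le W
  let β' : P → ℕ := fun x => if topOf x = topOf v then 0 else β x
  have e1 : (fun x : QT m N v => β' x.1.1) = 0 := by
    funext x
    exact if_pos x.2
  have e2 : (fun x : QR m N v => β' x.1.1) = (fun x : QR m N v => β x.1.1) := by
    funext x
    exact if_neg x.2
  refine dvd_of_prod (A := fun a => Z (QT m N v) m a)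
    (B := fun a => ZB (P := QR m N v) m ∅ 0 (fun x => β x.1.1) a) (α := 1)
    (β := (lv P m).card - 2) (N := Kb m - 1) (u := below (QT m N v) m) ?_ ?_ ?_ n hn
  · rw [Z_zero, S.lv_T W]
  · intro a
    refine dvd_Z_of_dvd_W ?_ a
    rw [pow_one]
    exact dvd_W_one ⟨S.vT W, by rw [S.lev_vT W]; omega⟩
  · intro n hn
    have h3 := S.bounds W β' (fun x hx => by
      show (if topOf x = topOf v then 0 else β x) ≤ _
      split_ifs with h
      · exact Nat.zero_le _
      · exact hβ x hx h) n hn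
    rw [S.prod W, e1, e2, show (lv P m).card - 1 = 1 + ((lv P m).card - 2) by omega] at h3
    convert h3 using 2
    rw [Z_eq_ZB]

lemma StarF.vs_v (W : WM r m N b θ) (S : StarF m N b θ f v Nc co) (k : ℕ) :
    vs m k v = NL m k + min k (hh m) := by
  have hm := W.ten
  have hh2 := hh_le m
  have h := vs_quad (k := k) (a := m + hh m) (v := v) (by omega) (by omega)
    (fun u hu => W.nab_quad S.q S.hlv (l := m + u) (by omega))
  rwa [Nat.add_sub_cancel_left] at h

lemma StarF.shift (W : WM r m N b θ) (S : StarF m N b θ f v Nc co) :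
    ∑ x : QT m N v, min (hh m) (lev x - m) = NL m (hh m) + hh m := by
  classical
  have h1 := ct_eq_sum m (hh m) (S.vT W)
  rw [Finset.sum_congr rfl (fun x _ => if_pos (S.vT_le W x)), S.ctT W] at h1
  rw [← h1]
  have h2 := ct_mid (k := hh m) S.hlv
  have h3 := S.vs_v W (hh m)
  rw [Nat.min_self] at h3
  exact h2.trans h3

lemma StarF.T_zero (W : WM r m N b θ) (S : StarF m N b θ f v Nc co) {a : ℕ}
    (ha : a < NL m (hh m) + hh m) :
    ZB (P := QT m N v) m ∅ 0 (sgz (S.vT W) (hh m)) a = 0 := by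
  have hm := W.ten
  refine ZB_bottom_zero (S.vT_le W) (by rw [S.lev_vT W]; omega) ?_
  rw [S.shift W]
  exact ha

lemma StarF.T_eq (W : WM r m N b θ) (S : StarF m N b θ f v Nc co) (a : ℕ) :
    ZB (P := QT m N v) m ∅ 0 (sgz (S.vT W) (hh m)) (a + (NL m (hh m) + hh m)) =
      Z (QT m N v) (m + hh m) a := by
  have hm := W.ten
  rw [← S.shift W]
  exact ZB_bottom (S.vT_le W) (by rw [S.lev_vT W]; omega) a

lemma StarF.T_dvd (W : WM r m N b θ) (S : StarF m N b θ f v Nc co) {a : ℕ}
    (ha : a ≤ NL m (hh m) + m) :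
    (1 + X : ℤ[X]) ^ 2 ∣ ZB (P := QT m N v) m ∅ 0 (sgz (S.vT W) (hh m)) a := by
  have hm := W.ten
  have hh1 := hh_pos m
  have hh2 := hh_le m
  rcases Nat.lt_or_ge a (NL m (hh m) + hh m) with h | h
  · rw [S.T_zero W h]
    exact dvd_zero _
  · obtain ⟨a', rfl⟩ : ∃ a', a = a' + (NL m (hh m) + hh m) := ⟨a - (NL m (hh m) + hh m), by omega⟩
    rw [S.T_eq W]
    obtain ⟨φ⟩ := S.isoT W
    exact quadric_dvd φ (by omega) (by omega)

lemma StarF.T_lead (W : WM r m N b θ) (S : StarF m N b θ f v Nc co) :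
    (1 + X : ℤ[X]) ^ 2 ∣ ZB (P := QT m N v) m ∅ 0 (sgz (S.vT W) (hh m)) (NL m (hh m) + m + 1) +
      X ^ (m + hh m + 2) * (1 + X) := by
  have hm := W.ten
  have hh1 := hh_pos m
  have hh2 := hh_le m
  rw [show NL m (hh m) + m + 1 = (m - hh m + 1) + (NL m (hh m) + hh m) by omega, S.T_eq W]
  obtain ⟨φ⟩ := S.isoT W
  exact quadric_lead φ (by omega)

/-- bounds on the part of `v` -/
lemma StarF.beta_T (W : WM r m N b θ) (S : StarF m N b θ f v Nc co) {β : P → ℕ}
    (hv : β v = hh m) (hv' : ∀ x, x ∉ Rq m N v → topOf x = topOf v → x ≠ v → β x = 0) :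
    (fun x : QT m N v => β x.1.1) = sgz (S.vT W) (hh m) := by
  funext x
  by_cases hx : x = S.vT W
  · rw [hx, sgz_self]
    exact hv
  · rw [sgz_ne _ hx]
    refine hv' _ x.1.2 x.2 fun h => hx ?_
    exact Subtype.ext (Subtype.ext h)

lemma StarF.R_zero (W : WM r m N b θ) (S : StarF m N b θ f v Nc co) {β : P → ℕ}
    (hf : hh m ≤ β f) {n : ℕ} (hn : n < NF m (hh m)) :
    ZB (P := QR m N v) m ∅ 0 (fun x => β x.1.1) n = 0 := by
  have hm := W.ten
  refine ZB_bound_zero (z := S.fR W) (by rw [S.lev_fR W]; omega) ?_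
  rw [S.ctR W]
  have h1 : ct m (hh m) f = NF m (hh m) := (ct_mid S.fold.lev).trans (S.fold.vs _)
  have h2 := ct_mono (i := m) (le_refl f) hf
  have h3 : ct m (β f) f = ct m (β (S.fR W).1.1) ((S.fR W).1.1 : P) := rfl
  rw [← h3]
  omega

/-- the energies below the first pole -/
theorem StarF.main_lt (W : WM r m N b θ) (S : StarF m N b θ f v Nc co) {β : P → ℕ}
    (hv : β v = hh m) (hv' : ∀ x, x ∉ Rq m N v → topOf x = topOf v → x ≠ v → β x = 0)
    (hf : hh m ≤ β f)
    (hβ : ∀ x, x ∉ Rq m N v → topOf x ≠ topOf v → β x ≤ thX (twY (2 * m) N) (twT N)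
      (fun x => tq m θ f Nc co (topOf x) x) x) {n : ℕ}
    (hn : n ≤ NF m (hh m) + NL m (hh m) + m) :
    (1 + X : ℤ[X]) ^ (lv P m).card ∣ ZB m (Rq m N v) 0 β n := by
  have hm := W.ten
  have hh1 := hh_pos m
  have hE := E0_lt m (by omega)
  have h2 := S.two_le W
  rw [S.prod W, S.beta_T W hv hv']
  refine Finset.dvd_sum fun ab hab => ?_
  rw [HasAntidiagonal.mem_antidiagonal] at hab
  rcases Nat.lt_or_ge ab.2 (NF m (hh m)) with h | h
  · rw [S.R_zero W hf h, mul_zero]
    exact dvd_zero _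
  · rw [show (lv P m).card = 2 + ((lv P m).card - 2) by omega, pow_add]
    refine mul_dvd_mul (S.T_dvd W (by omega)) (S.dvd_R W β hβ ?_)
    unfold E0 at hE
    omega

/-- the number of forced elements in the leading term -/
noncomputable def kst (m : ℕ) (N : Tops P → Finset P) (v : P) : ℕ :=
  m + hh m + 2 + (below (QR m N v) m + sgF m) + 1

lemma StarF.sign (W : WM r m N b θ) (S : StarF m N b θ f v Nc co) :
    (-1 : ℤ) ^ (kst m N v) = - sg1 P m := by
  have h1 := S.below_R W
  unfold kst sg1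
  rw [← h1, show m + hh m + 2 + (below (QR m N v) m + sgF m) + 1 =
    (below (QR m N v) m + m + sgF m + hh m) + 3 by ring, pow_add]
  ring

lemma StarF.nst_f (W : WM r m N b θ) (S : StarF m N b θ f v Nc co) :
    nst m (fun _ => hh m) f = sgF m := by
  have hm := W.ten
  have hh1 := hh_pos m
  have hh2 := hh_le m
  have n0 := S.fold.nab (u := 0) (by omega)
  have n1 := S.fold.nab (u := 1) (by omega)
  rw [Nat.add_zero] at n0
  unfold sgF
  have h12 : hh m = 1 ∨ hh m = 2 := by omega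
  rcases h12 with h | h
  · rw [nst_one (h := fun _ => hh m) (z := f) h, n0, h, Finset.sum_range_one]
  · rw [nst_two (h := fun _ => hh m) (z := f) h, n0, n1, h, Finset.sum_range_succ,
      Finset.sum_range_one]

/-- the rest at its lowest energy -/
lemma StarF.R_lead (W : WM r m N b θ) (S : StarF m N b θ f v Nc co) {β : P → ℕ}
    (hf : β f = hh m) (hf' : ∀ x, x ∉ Rq m N v → topOf x ≠ topOf v → x ≠ f → β x = 0) :
    ZB (P := QR m N v) m ∅ 0 (fun x => β x.1.1) (NF m (hh m)) =
      X ^ (below (QR m N v) m + sgF m) * (1 + X) ^ ((lv P m).card - 2) := by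
  have hm := W.ten
  have hh1 := hh_pos m
  have hh2 := hh_le m
  have e1 : (fun x : QR m N v => β x.1.1) = sgz (S.fR W) (hh m) := by
    funext x
    by_cases hx : x = S.fR W
    · rw [hx, sgz_self]
      exact hf
    · rw [sgz_ne _ hx]
      refine hf' _ x.1.2 x.2 fun h => hx ?_
      exact Subtype.ext (Subtype.ext h)
  have hgr : GradedBelow (QR m N v) :=
    gbel_sub (S.upR W) (gbel_sub (S.up W) W.gt.H.gradedBelow)
  have h1 := ZD_lead (i := m) (k := hh m) (z := S.fR W) hgr hh1 (by rw [S.lev_fR W]; omega)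
  have h2 : ct m (hh m) (S.fR W) = NF m (hh m) := by
    rw [S.ctR W]
    exact (ct_mid S.fold.lev).trans (S.fold.vs _)
  rw [h2] at h1
  rw [e1]
  refine Eq.trans h1 ?_
  unfold Lt
  have n0 : nab m (S.fR W) = nF m 0 := by
    rw [S.nabR W]
    have := S.fold.nab (u := 0) (by omega)
    rwa [Nat.add_zero] at this
  have n1 : nab (m + hh m) (S.fR W) = nF m (hh m) := by
    rw [S.nabR W]
    exact S.fold.nab (u := hh m) (by omega)
  have n2 : nst m (fun _ => hh m) (S.fR W) = sgF m := by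
    rw [S.nstR W]
    exact S.nst_f W
  have h3 := nF_drop (m := m) (by omega)
  have h4 := S.lv_R W
  have h5 := nab_le (S.fR W) m
  rw [n0] at h5
  simp only
  rw [n0, n1, n2]
  congr 2
  omega

/-- the first pole -/
theorem StarF.main_eq (W : WM r m N b θ) (S : StarF m N b θ f v Nc co) {β : P → ℕ}
    (hv : β v = hh m) (hv' : ∀ x, x ∉ Rq m N v → topOf x = topOf v → x ≠ v → β x = 0)
    (hf : β f = hh m) (hf' : ∀ x, x ∉ Rq m N v → topOf x ≠ topOf v → x ≠ f → β x = 0)
    (hβ : ∀ x, x ∉ Rq m N v → topOf x ≠ topOf v → β x ≤ thX (twY (2 * m) N) (twT N)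
      (fun x => tq m θ f Nc co (topOf x) x) x) :
    (1 + X : ℤ[X]) ^ (lv P m).card ∣
      ZB m (Rq m N v) 0 β (NF m (hh m) + NL m (hh m) + m + 1) -
        X ^ (kst m N v) * (1 + X) ^ ((lv P m).card - 1) := by
  classical
  have hm := W.ten
  have hh1 := hh_pos m
  have hE := E0_lt m (by omega)
  have h2 := S.two_le W
  have hmem : ((NL m (hh m) + m + 1, NF m (hh m)) : ℕ × ℕ) ∈
      antidiagonal (NF m (hh m) + NL m (hh m) + m + 1) := by
    rw [HasAntidiagonal.mem_antidiagonal]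
    simp only
    omega
  rw [S.prod W, S.beta_T W hv hv', ← Finset.add_sum_erase _ _ hmem]
  simp only
  rw [S.R_lead W hf hf']
  have h3 : (1 + X : ℤ[X]) ^ (lv P m).card ∣
      ∑ ab ∈ (antidiagonal (NF m (hh m) + NL m (hh m) + m + 1)).erase
        (NL m (hh m) + m + 1, NF m (hh m)),
      ZB (P := QT m N v) m ∅ 0 (sgz (S.vT W) (hh m)) ab.1 *
        ZB (P := QR m N v) m ∅ 0 (fun x => β x.1.1) ab.2 := by
    refine Finset.dvd_sum fun ab hab => ?_
    rw [mem_erase, HasAntidiagonal.mem_antidiagonal] at hab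
    obtain ⟨hne, hab⟩ := hab
    rcases Nat.lt_or_ge ab.2 (NF m (hh m)) with h | h
    · rw [S.R_zero W hf.ge h, mul_zero]
      exact dvd_zero _
    · rcases Nat.lt_or_ge (NL m (hh m) + m) ab.1 with h4 | h4
      · exfalso
        exact hne (Prod.ext (by simp only; omega) (by simp only; omega))
      · rw [show (lv P m).card = 2 + ((lv P m).card - 2) by omega, pow_add]
        refine mul_dvd_mul (S.T_dvd W h4) (S.dvd_R W β hβ ?_)
        unfold E0 at hE
        omega
  obtain ⟨q1, hq1⟩ := S.T_lead W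
  obtain ⟨q2, hq2⟩ := h3
  rw [hq2]
  have e1 : ZB (P := QT m N v) m ∅ 0 (sgz (S.vT W) (hh m)) (NL m (hh m) + m + 1) =
      (1 + X) ^ 2 * q1 - X ^ (m + hh m + 2) * (1 + X) := by
    rw [← hq1]
    ring
  rw [e1]
  obtain ⟨c, hc⟩ : ∃ c, (lv P m).card = c + 2 := ⟨(lv P m).card - 2, by omega⟩
  rw [hc, show c + 2 - 2 = c by omega, show c + 2 - 1 = c + 1 by omega]
  unfold kst
  refine ⟨q1 * X ^ (below (QR m N v) m + sgF m) + q2 -
    X ^ (m + hh m + 2 + (below (QR m N v) m + sgF m)), ?_⟩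
  ring

end Pool.Agent.GaussPoset

end

/-! From `Pool.Agent.W_448s8_h76.SaR` -/

section

/-!
The labels below a star family, the first pole (MP_448cb3_co, S8).
-/

namespace Pool.Agent.GaussPoset

set_option linter.unusedSectionVars false

open Polynomial Finset

universe u

variable {P : Type u} [Fintype P] [PartialOrder P] [DecidableEq P] {r m : ℕ}
  {N : Tops P → Finset P} {b : Tops P → ℕ} {θ : Tops P → P → ℕ}
  {f v : P} {Nc : Finset P} {co : P → ℕ × ℕ}

lemma two_anchor {e c : P → ℕ} {k1 k2 : ℕ} (hf : ∀ x, f ≤ x → min k1 (lev x - m) ≤ e x)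
    (hv : ∀ x, v ≤ x → min k2 (lev x - m) ≤ e x) (hdis : ∀ x, f ≤ x → v ≤ x → False)
    (T : Finset P) (hT : ∀ y ∈ T, ¬ f ≤ y ∧ ¬ v ≤ y) (hc : ∀ y ∈ T, c y ≤ e y) :
    ct m k1 f + ct m k2 v + ∑ y ∈ T, c y ≤ ∑ x, e x := by
  classical
  have h1 : ∑ y ∈ T, c y = ∑ x, (if x ∈ T then c x else 0) := by
    rw [Finset.sum_ite_mem, Finset.univ_inter]
  rw [ct_eq_sum, ct_eq_sum, h1, ← Finset.sum_add_distrib, ← Finset.sum_add_distrib]
  refine Finset.sum_le_sum fun x _ => ?_
  by_cases h2 : x ∈ T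
  · have h3 := hT x h2
    rw [if_neg h3.1, if_neg h3.2, if_pos h2, Nat.zero_add]
    exact hc x h2
  · rw [if_neg h2, Nat.add_zero]
    by_cases h3 : f ≤ x
    · rw [if_pos h3, if_neg (fun h4 => hdis x h3 h4), Nat.add_zero]
      exact hf x h3
    · rw [if_neg h3, Nat.zero_add]
      split_ifs with h4
      · exact hv x h4
      · exact Nat.zero_le _

/-- a star join below `f` and `v` -/
structure StarZ (m : ℕ) (N : Tops P → Finset P) (b : Tops P → ℕ) (θ : Tops P → P → ℕ)
    (f v z : P) : Prop where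
  bd : z ∈ bdR (r2 (2 * m) N)
  st : StM m N b θ z
  hl : lev z = 2 * m + 1
  zf : z ⋖ f
  zv : z ⋖ v
  lab : h2 (2 * m) N θ z = hh m
  hcst : cst m (h2 (2 * m) N θ) z = E0 m + hh m

lemma NF_succ (m k : ℕ) (hk : k + 1 ≤ m) : NF m k + 1 ≤ NF m (k + 1) := by
  unfold NF
  have h1 : ∑ u ∈ range (m + 1), (min k u * nF m u + if u = k + 1 then 1 else 0) ≤
      ∑ u ∈ range (m + 1), min (k + 1) u * nF m u := by
    refine Finset.sum_le_sum fun u hu => ?_
    rw [mem_range] at hu
    by_cases h : u = k + 1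
    · subst h
      have h2 : 1 ≤ nF m (k + 1) := by
        unfold nF
        omega
      rw [if_pos rfl, Nat.min_eq_left (Nat.le_succ k), Nat.min_self]
      nlinarith
    · rw [if_neg h, Nat.add_zero]
      exact Nat.mul_le_mul_right _ (min_le_min (Nat.le_succ k) le_rfl)
  rw [Finset.sum_add_distrib, Finset.sum_ite_eq' (range (m + 1)) (k + 1),
    if_pos (mem_range.mpr (by omega))] at h1
  exact h1

lemma NL_succ (m k : ℕ) (hk : k ≤ m) : NL m (k + 1) = NL m k + (m - k) := by
  unfold NL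
  have h2 : ∀ n, k ≤ n → ∑ u ∈ range (n + 1), min (k + 1) u =
      ∑ u ∈ range (n + 1), min k u + (n - k) := by
    intro n hn
    induction n, hn using Nat.le_induction with
    | base =>
      rw [Nat.sub_self, Nat.add_zero]
      refine Finset.sum_congr rfl fun u hu => ?_
      rw [mem_range] at hu
      omega
    | succ n hn ih =>
      rw [Finset.sum_range_succ, ih, Finset.sum_range_succ _ (n + 1)]
      omega
  exact h2 m hk

lemma StarF.dis (W : WM r m N b θ) (S : StarF m N b θ f v Nc co) {x : P} (h1 : f ≤ x)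
    (h2 : v ≤ x) : False :=
  W.disjL S.fold.lev.le S.hlv.le S.ne h1 h2

/-- an element of the frozen set in the filter costs too much -/
lemma StarF.no_filter (W : WM r m N b θ) (S : StarF m N b θ f v Nc co) {e : P → ℕ}
    {F : Finset P} (hV : Vd m e F) {n : ℕ} (hs : ∑ x, e x = n) (hn : n ≤ E0 m + m + 1) {z : P}
    (Z : StarZ m N b θ f v z) (hd : Dgz (h2 (2 * m) N θ) e F z) {x : P} (hx : x ∈ Rq m N v) :
    x ∉ F := by
  classical
  intro hxF
  have hm := W.ten
  have hh2 := hh_le m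
  have hlx := S.lev_Rq W hx
  obtain ⟨y1, hy1, hl1⟩ := exists_above' (x := x) (j := 2 * m) hlx.le
  obtain ⟨y2, hy2, hl2⟩ := exists_above' (x := x) (j := 2 * m - 1) (by omega)
  have f1 := sub_le_of_mem hV (hV.1 x y1 hy1 hxF)
  have f2 := sub_le_of_mem hV (hV.1 x y2 hy2 hxF)
  have hc := ez_le hV (by rw [Z.hl]; omega) hd
  have hcb : ∀ y, ez m (h2 (2 * m) N θ) z y ≤ hh m := by
    intro y
    unfold ez
    split_ifs
    · rw [Z.lab]
      exact min_le_left _ _
    · exact Nat.zero_le _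
  have hne : y1 ≠ y2 := by
    rintro rfl
    omega
  have h1 : ∑ y, (ez m (h2 (2 * m) N θ) z y + ((if y = y1 then m - hh m else 0) +
      (if y = y2 then m - 1 - hh m else 0))) ≤ ∑ y, e y := by
    refine Finset.sum_le_sum fun y _ => ?_
    have hcy := hc y
    have hby := hcb y
    by_cases g1 : y = y1
    · subst g1
      rw [if_pos rfl, if_neg hne]
      omega
    · rw [if_neg g1, Nat.zero_add]
      by_cases g2 : y = y2
      · subst g2
        rw [if_pos rfl]
        omega
      · rw [if_neg g2, Nat.add_zero]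
        exact hcy
  rw [Finset.sum_add_distrib, Finset.sum_add_distrib, Finset.sum_ite_eq' univ y1,
    Finset.sum_ite_eq' univ y2, if_pos (mem_univ _), if_pos (mem_univ _)] at h1
  have h2 := Z.hcst
  unfold cst at h2
  omega

/-- the labels of configurations of small energy -/
theorem StarF.good_labels (W : WM r m N b θ) (S7 : S7M m N b θ) (S : StarF m N b θ f v Nc co)
    {g e : P → ℕ} {F : Finset P} (hC : Cst m (Rq m N v) g 0 e F) {n : ℕ} (hs : ∑ x, e x = n)
    (hn : n ≤ E0 m + m + 1) {z : P} (Z : StarZ m N b θ f v z) (hg : hh m ≤ g z) :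
    (∀ y ∈ Rq m N v, y ⋖ v → g y ≤ hh m) ∧
    ∀ y ∈ Rq m N v, ∀ x, x ∉ Rq m N v → y ⋖ x → topOf x ≠ topOf v →
      g y ≤ thX (twY (2 * m) N) (twT N) (fun x => tq m θ f Nc co (topOf x) x) x := by
  classical
  have hm := W.ten
  have hh1 := hh_pos m
  have hh2 := hh_le m
  have H := W.gt.H
  obtain ⟨hV, hR, -⟩ := hC
  have hzR : z ∈ Rq m N v := (S.mem_Rq W).mpr (Or.inl (bd_mem Z.bd))
  have hez : hh m ≤ e z := by
    rw [(hR z hzR).2]
    exact hg
  have hE : E0 m = NF m (hh m) + NL m (hh m) + hh m := rfl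
  have hup : ∀ (w : P), m < lev w → ∀ k, k ≤ e w → ∀ x, w ≤ x → min k (lev x - m) ≤ e x := by
    intro w hw k hk x hx
    have h1 := ez_le (h := fun _ => k) hV hw (Or.inr hk) x
    unfold ez at h1
    rwa [if_pos hx] at h1
  have ctf : ∀ k, ct m k f = NF m k := fun k => (ct_mid S.fold.lev).trans (S.fold.vs k)
  have ctv : ∀ k, ct m k v = NL m k + min k (hh m) := fun k => (ct_mid S.hlv).trans (S.vs_v W k)
  have hnot : ∀ w : P, lev w = 2 * m + 1 → ¬ f ≤ w ∧ ¬ v ≤ w := by
    intro w hw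
    have key : ∀ a : P, lev a = 2 * m → ¬ a ≤ w := by
      intro a ha haw
      rcases eq_or_lt_of_le haw with h | h
      · rw [h] at ha
        omega
      · have := lev_strictAnti h
        omega
    exact ⟨key f S.fold.lev, key v S.hlv⟩
  have hG1 : ∀ y ∈ Rq m N v, y ⋖ v → g y ≤ hh m := by
    intro y hy hyv
    by_contra hcon
    have hly : lev y = 2 * m + 1 := by
      have h1 := (H.covBy_iff.mp hyv).2
      have h2 := S.hlv
      omega
    have hey : hh m + 1 ≤ e y := by
      rw [(hR y hy).2]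
      omega
    have hNL := NL_succ m (hh m) (by omega)
    by_cases hyz : y = z
    · subst hyz
      have h1 := two_anchor (m := m) (f := f) (v := v) (e := e) (c := e) (k1 := hh m + 1)
        (k2 := hh m + 1)
        (fun x hx => hup y (by omega) _ hey x (Z.zf.1.le.trans hx))
        (fun x hx => hup y (by omega) _ hey x (Z.zv.1.le.trans hx))
        (fun x => S.dis W) {y} (fun w hw => by
          rw [mem_singleton] at hw
          rw [hw]
          exact hnot y hly) (fun _ _ => le_rfl)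
      rw [Finset.sum_singleton, ctf, ctv] at h1
      have h2 := NF_succ m (hh m) (by omega)
      omega
    · have h1 := two_anchor (m := m) (f := f) (v := v) (e := e) (c := e) (k1 := hh m)
        (k2 := hh m + 1)
        (fun x hx => hup z (by rw [Z.hl]; omega) _ hez x (Z.zf.1.le.trans hx))
        (fun x hx => hup y (by omega) _ hey x (hyv.1.le.trans hx))
        (fun x => S.dis W) {y, z} (fun w hw => by
          rw [mem_insert, mem_singleton] at hw
          rcases hw with rfl | rfl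
          · exact hnot w hly
          · exact hnot w Z.hl) (fun _ _ => le_rfl)
      rw [Finset.sum_pair hyz, ctf, ctv] at h1
      omega
  refine ⟨hG1, ?_⟩
  intro y hy x hx hyx hxt
  -- the element `y` is a boundary element of the old set
  have hyR : y ∈ r2 (2 * m) N := by
    rcases (S.mem_Rq W).mp hy with h | ⟨h1, h2⟩
    · exact h
    · by_contra hcon
      have hyY : y ∉ twY (2 * m) N := fun h => S.tw_ne W h h1
      have hyN : y ∉ unnat N := fun h => hcon (mem_sdiff.mpr ⟨h, hyY⟩)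
      exact hxt ((W.natSys.cp y x hyx.1.le hyN).symm.trans h1)
  have hxR : x ∉ r2 (2 * m) N := fun h => hx ((S.mem_Rq W).mpr (Or.inl h))
  have hyb : y ∈ bdR (r2 (2 * m) N) := mem_filter.mpr ⟨hyR, x, hxR, hyx⟩
  by_cases hyA : y ∈ fam m N z
  · have hup2 := (mem_fam.mp hyA).2
    have h1 : z ⋖ x := (cov_of_up hup2).mpr hyx
    have hfv : f ≠ v := fun h => S.ne (by rw [h])
    rcases uc_pair H Z.zf Z.zv hfv h1 with h2 | h2
    · subst h2
      have h3 : x ∉ twY (2 * m) N := by
        intro h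
        have h4 := (mem_twY.mp h).2.1
        have h5 := S.fold.lev
        omega
      rw [thX_not h3, S.th_f W]
      have h4 := hG1 y hy ((cov_of_up hup2).mp Z.zv)
      rw [hh_eq] at h4
      omega
    · exact absurd (by rw [h2]) hxt
  · have h1 := W.U_st S7 Z.bd hyb Z.st hyA
    have h3 : g y < h2 (2 * m) N θ y := by
      by_contra hcon
      have h4 : h2 (2 * m) N θ y ≤ e y := by
        rw [(hR y hy).2]
        exact not_lt.mp hcon
      have h5 := ez_le (h := h2 (2 * m) N θ) hV (by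
        have := S.lev_Rq W hy
        omega) (Or.inr h4)
      have h6 := ez_le (h := h2 (2 * m) N θ) (z := z) hV (by rw [Z.hl]; omega) (Or.inr (by
        rw [Z.lab]
        exact hez))
      have h7 : Uu m (h2 (2 * m) N θ) z y ≤ ∑ x, e x :=
        Finset.sum_le_sum fun w _ => max_le (h6 w) (h5 w)
      omega
    have h4 : h2 (2 * m) N θ y ≤
        thX (twY (2 * m) N) (twT N) (fun x => θ (topOf x) x) x + 1 := hcan_le hxR hyx
    have h5 : thX (twY (2 * m) N) (twT N) (fun x => θ (topOf x) x) x ≤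
        thX (twY (2 * m) N) (twT N) (fun x => tq m θ f Nc co (topOf x) x) x := by
      unfold thX
      split_ifs
      · exact S.th_le _ _
      · exact S.th_le _ _
    omega

/-- bounds from the labels -/
lemma StarF.bg_v (W : WM r m N b θ) (S : StarF m N b θ f v Nc co) {g : P → ℕ}
    (h1 : ∀ y ∈ Rq m N v, y ⋖ v → g y ≤ hh m) {z : P} (Z : StarZ m N b θ f v z)
    (hg : hh m ≤ g z) : bg (Rq m N v) g 0 v = hh m := by
  have hzR : z ∈ Rq m N v := (S.mem_Rq W).mpr (Or.inl (bd_mem Z.bd))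
  exact le_antisymm (bg_le (Nat.zero_le _) h1) (hg.trans (le_bg' 0 hzR Z.zv))

lemma StarF.bg_T (W : WM r m N b θ) (S : StarF m N b θ f v Nc co) {g : P → ℕ} {x : P}
    (hx : x ∉ Rq m N v) (ht : topOf x = topOf v) (hne : x ≠ v) :
    bg (Rq m N v) g 0 x = 0 := by
  have h1 := S.mem_T W hx ht
  refine Nat.le_zero.mp (bg_le (Nat.zero_le _) fun y hy hyx => ?_)
  exfalso
  have h2 := S.lev_Rq W hy
  have h3 := (W.gt.H.covBy_iff.mp hyx).2
  exact hne (S.q.unique h1.1 (le_topOf v) (by omega) S.hlv)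

/-- the contribution of a label -/
theorem StarF.term_dvd (W : WM r m N b θ) (S7 : S7M m N b θ) (S : StarF m N b θ f v Nc co)
    {g : P → ℕ} (hg0 : ∀ x, x ∉ Rq m N v → g x = 0) {z : P} (Z : StarZ m N b θ f v z)
    (hg : hh m ≤ g z) {n : ℕ} (hn : n ≤ E0 m + m + 1)
    (hne : ¬ (n = E0 m + m + 1 ∧ g = sgz z (hh m))) :
    (1 + X : ℤ[X]) ^ (lv P m).card ∣ ZB m (Rq m N v) g 0 n := by
  classical
  have hm := W.ten
  have hE : E0 m = NF m (hh m) + NL m (hh m) + hh m := rfl
  have hlev : ∀ x ∈ Rq m N v, m < lev x := fun x hx => by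
    have := S.lev_Rq W hx
    omega
  have hzR : z ∈ Rq m N v := (S.mem_Rq W).mpr (Or.inl (bd_mem Z.bd))
  by_cases hex : ∃ e F, Cst m (Rq m N v) g 0 e F ∧ ∑ x, e x = n
  · obtain ⟨e, F, hC, hs⟩ := hex
    obtain ⟨G1, G2⟩ := S.good_labels W S7 hC hs hn Z hg
    by_cases hc : ∀ x ∈ Rq m N v, ∀ y ∈ Rq m N v, x ≤ y → g x ≤ g y
    · have hsum : g z ≤ ∑ x, g x := Finset.single_le_sum (fun _ _ => Nat.zero_le _) (mem_univ z)
      have hle : ∑ x, g x ≤ n := by
        rw [← hs]
        refine Finset.sum_le_sum fun x _ => ?_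
        by_cases hx : x ∈ Rq m N v
        · exact (hC.2.1 x hx).2.ge
        · rw [hg0 x hx]
          exact Nat.zero_le _
      obtain ⟨n', hn'⟩ : ∃ n', n = n' + ∑ x, g x := ⟨n - ∑ x, g x, by omega⟩
      rw [hn', ZB_shift 0 (S.lower W) hlev hg0 hc]
      refine S.main_lt W (S.bg_v W G1 Z hg) (fun x hx ht hxv => S.bg_T W hx ht hxv)
        (hg.trans (le_bg' 0 hzR Z.zf)) (fun x hx ht => bg_le (Nat.zero_le _)
          fun y hy hyx => G2 y hy x hx hyx ht) ?_
      by_contra hcon
      refine hne ⟨by omega, ?_⟩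
      have h5 : ∑ x, g x = hh m := by omega
      have h6 : g z = hh m := by omega
      funext x
      by_cases hx : x = z
      · rw [hx, sgz_self, h6]
      · rw [sgz_ne _ hx]
        have h7 : g z + g x ≤ ∑ x, g x := by
          rw [← Finset.add_sum_erase univ g (mem_univ z)]
          exact Nat.add_le_add_left (Finset.single_le_sum (f := g) (fun _ _ => Nat.zero_le _)
            (mem_erase.mpr ⟨hx, mem_univ x⟩)) _
        omega
    · rw [ZB_zero_of_not_compat 0 hlev hc]
      exact dvd_zero _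
  · have : ZB m (Rq m N v) g 0 n = 0 := by
      unfold ZB
      refine Finset.sum_eq_zero fun F _ => ?_
      rw [Finset.filter_eq_empty_iff.mpr, Finset.sum_empty]
      intro e he hC
      rw [mem_piAntidiag] at he
      exact hex ⟨e, F, hC, he.1⟩
    rw [this]
    exact dvd_zero _

/-- the contribution of the lowest label -/
theorem StarF.term_lead (W : WM r m N b θ) (S : StarF m N b θ f v Nc co) {z : P}
    (Z : StarZ m N b θ f v z) :
    (1 + X : ℤ[X]) ^ (lv P m).card ∣ ZB m (Rq m N v) (sgz z (hh m)) 0 (E0 m + m + 1) -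
      X ^ (kst m N v) * (1 + X) ^ ((lv P m).card - 1) := by
  classical
  have hm := W.ten
  have hh1 := hh_pos m
  have hE : E0 m = NF m (hh m) + NL m (hh m) + hh m := rfl
  have H := W.gt.H
  have hlev : ∀ x ∈ Rq m N v, m < lev x := fun x hx => by
    have := S.lev_Rq W hx
    omega
  have hzR : z ∈ Rq m N v := (S.mem_Rq W).mpr (Or.inl (bd_mem Z.bd))
  have hfv : f ≠ v := fun h => S.ne (by rw [h])
  have hsum : ∑ x, sgz z (hh m) x = hh m := by
    unfold sgz
    rw [Finset.sum_ite_eq' univ z, if_pos (mem_univ z)]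
  have hle : ∀ y, sgz z (hh m) y ≤ hh m := by
    intro y
    unfold sgz
    split_ifs
    · exact le_rfl
    · exact Nat.zero_le _
  have hg0 : ∀ x, x ∉ Rq m N v → sgz z (hh m) x = 0 := fun x hx =>
    sgz_ne _ (fun h => hx (h ▸ hzR))
  have hc : ∀ x ∈ Rq m N v, ∀ y ∈ Rq m N v, x ≤ y → sgz z (hh m) x ≤ sgz z (hh m) y := by
    intro x hx y hy hxy
    by_cases h1 : x = z
    · subst h1
      have h2 : y = x := by
        by_contra hne
        have h3 : x < y := lt_of_le_of_ne hxy (Ne.symm hne)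
        have h4 := lev_strictAnti h3
        have h5 := S.lev_Rq W hy
        have h6 := Z.hl
        omega
      rw [h2]
    · rw [sgz_ne _ h1]
      exact Nat.zero_le _
  rw [show E0 m + m + 1 = (NF m (hh m) + NL m (hh m) + m + 1) + ∑ x, sgz z (hh m) x by
    rw [hsum]
    omega, ZB_shift 0 (S.lower W) hlev hg0 hc]
  have hcov : ∀ x, z ⋖ x → topOf x ≠ topOf v → x = f := by
    intro x hzx hxt
    rcases uc_pair H Z.zf Z.zv hfv hzx with h | h
    · exact h
    · exact absurd (by rw [h]) hxt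
  refine S.main_eq W (S.bg_v W (fun y _ _ => hle y) Z (by rw [sgz_self]))
    (fun x hx ht hxv => S.bg_T W hx ht hxv) ?_ ?_ ?_
  · refine le_antisymm (bg_le (Nat.zero_le _) fun y _ _ => hle y) ?_
    have := le_bg' (g := sgz z (hh m)) 0 hzR Z.zf
    rwa [sgz_self] at this
  · intro x hx ht hxf
    refine Nat.le_zero.mp (bg_le (Nat.zero_le _) fun y hy hyx => ?_)
    by_cases h1 : y = z
    · subst h1
      exact absurd (hcov x hyx ht) hxf
    · rw [sgz_ne _ h1]
  · intro x hx ht
    refine bg_le (Nat.zero_le _) fun y hy hyx => ?_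
    by_cases h1 : y = z
    · subst h1
      have h2 := hcov x hyx ht
      subst h2
      have h3 : x ∉ twY (2 * m) N := by
        intro h
        have h4 := (mem_twY.mp h).2.1
        have h5 := S.fold.lev
        omega
      rw [thX_not h3, S.th_f W, sgz_self, hh_eq]
      omega
    · rw [sgz_ne _ h1]
      exact Nat.zero_le _

/-- the star families: the first pole is at `E0 m + m + 1`, always with the same sign -/
theorem WM.star (W : WM r m N b θ) (S7 : S7M m N b θ) {z0 : P}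
    (hz0 : z0 ∈ bdR (r2 (2 * m) N)) (hst : StM m N b θ z0) :
    Fz m N θ z0 (E0 m + m + 1) (- sg1 P m) := by
  classical
  have hm := W.ten
  have hh1 := hh_pos m
  have H := W.gt.H
  have hst0 := hst
  obtain ⟨hl, f, v, hf, hv, hv1, hne, hzf, hzv, hq⟩ := hst
  obtain ⟨Nc, co, hFT⟩ := W.fold_typ hf
  have hlv : lev v = 2 * m := by
    have := (H.covBy_iff.mp hzv).2
    omega
  have S : StarF m N b θ f v Nc co := ⟨hf, hFT, hq, hne, hlv⟩
  have hZ : ∀ z ∈ fam m N z0, StarZ m N b θ f v z := by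
    intro z hz
    obtain ⟨h1, h2⟩ := mem_fam.mp hz
    have hlz : lev z = 2 * m + 1 := by
      rw [← lev_eq_of_up h2]
      exact hl
    have h3 := (cov_of_up h2).mp hzf
    have h4 := (cov_of_up h2).mp hzv
    obtain ⟨-, s, hn⟩ := W.num_star (bd_mem h1) hlz hf hv hne h3 h4 hq
    exact ⟨h1, hst0.same h2, hlz, h3, h4, hn.lab, hn.cst⟩
  have hAR : fam m N z0 ⊆ Rq m N v := fun z hz =>
    (S.mem_Rq W).mpr (Or.inl (bd_mem (hZ z hz).bd))
  have hlab : ∀ n, n ≤ E0 m + m + 1 → ZF m (h2 (2 * m) N θ) (fam m N z0) n =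
      ∑ g ∈ Fintype.piFinset (fun _ : P => range (n + 1)),
        if (∀ x, x ∉ Rq m N v → g x = 0) ∧ (∃ z ∈ fam m N z0, h2 (2 * m) N θ z ≤ g z) then
          ZB m (Rq m N v) g 0 n else 0 := by
    intro n hn
    refine ZF_labels hAR ?_
    rintro e F hV hs ⟨z, hz, hd⟩ x hx
    exact S.no_filter W hV hs hn (hZ z hz) hd hx
  constructor
  · intro n hn
    rw [hlab n hn.le]
    refine Finset.dvd_sum fun g _ => ?_
    split_ifs with h
    · obtain ⟨h1, z, hz, h3⟩ := h
      rw [(hZ z hz).lab] at h3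
      exact S.term_dvd W S7 h1 (hZ z hz) h3 hn.le (fun h4 => by omega)
    · exact dvd_zero _
  · refine ⟨fun _ => kst m N v, ?_, fun _ _ => S.sign W⟩
    rw [hlab _ le_rfl]
    set n := E0 m + m + 1 with hn
    set I := (fam m N z0).image (fun z => sgz z (hh m)) with hI
    have hE : E0 m = NF m (hh m) + NL m (hh m) + hh m := rfl
    have hsub : I ⊆ Fintype.piFinset (fun _ : P => range (n + 1)) := by
      intro g hg
      obtain ⟨z, hz, rfl⟩ := mem_image.mp hg
      rw [Fintype.mem_piFinset]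
      intro x
      rw [mem_range]
      unfold sgz
      split_ifs <;> omega
    have hinj : ∀ z ∈ fam m N z0, ∀ z' ∈ fam m N z0, sgz z (hh m) = sgz z' (hh m) → z = z' := by
      intro z _ z' _ h
      by_contra hzz
      have h1 := congrFun h z
      rw [sgz_self, sgz_ne _ hzz] at h1
      omega
    rw [← Finset.sum_sdiff hsub, hI, Finset.sum_image hinj, ← hI, add_sub_assoc,
      ← Finset.sum_sub_distrib]
    refine dvd_add (Finset.dvd_sum fun g hg => ?_) (Finset.dvd_sum fun z hz => ?_)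
    · split_ifs with h
      · obtain ⟨h1, z, hz, h3⟩ := h
        rw [(hZ z hz).lab] at h3
        refine S.term_dvd W S7 h1 (hZ z hz) h3 le_rfl (fun h4 => ?_)
        refine (mem_sdiff.mp hg).2 ?_
        rw [hI, h4.2]
        exact mem_image_of_mem _ hz
      · exact dvd_zero _
    · rw [if_pos]
      · exact S.term_lead W (hZ z hz)
      · refine ⟨fun x hx => sgz_ne _ (fun h => hx (h ▸ hAR hz)), z, hz, ?_⟩
        rw [sgz_self, (hZ z hz).lab]

end Pool.Agent.GaussPoset

end

/-! From `Pool.Agent.W_448s8_h76.SaS` -/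

section

/-!
# S8: the fold ends (MP_448cb3_co)

An element of level `2 m + 1` below a fold end is natural or a twin of a natural element.
-/

namespace Pool.Agent.GaussPoset

set_option linter.unusedSectionVars false

open Polynomial Finset

universe u

variable {P : Type u} [Fintype P] [PartialOrder P] [DecidableEq P] {r m : ℕ}
  {N : Tops P → Finset P} {b : Tops P → ℕ} {θ : Tops P → P → ℕ}

lemma sg1_ne (P : Type u) [Fintype P] [PartialOrder P] [DecidableEq P] (m : ℕ) :
    sg1 P m ≠ 0 := pow_ne_zero _ (by norm_num)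

/-- the boundary: large cost or two fold ends -/
theorem WM.rows4 (W : WM r m N b θ) (S7 : S7M m N b θ) {z : P}
    (hz : z ∈ bdR (r2 (2 * m) N)) : Kb m - 1 ≤ cst m (h2 (2 * m) N θ) z ∨
      (lev z = 2 * m + 1 ∧ ∃ x x', FoldM m N b θ x ∧ FoldM m N b θ x' ∧ topOf x ≠ topOf x' ∧
        z ⋖ x ∧ z ⋖ x') :=
  W.rows3 S7 (σ := - sg1 P m) (neg_ne_zero.mpr (sg1_ne P m)) (fun _ hz hc => W.fz_cc hz hc)
    (fun _ hz hs => W.star S7 hz hs) hz

/-- fold ends are no quadric ends -/
lemma WM.fold_not_quad (W : WM r m N b θ) {x : P} (h : FoldM m N b θ x) (h' : QdM m N θ x) :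
    False := by
  have hm := W.ten
  have h1 := W.nab_quad h'.inf h.lev (l := m) (by omega)
  rw [if_pos rfl] at h1
  have h2 := h.nab (u := 0) (by omega)
  rw [Nat.add_zero, h1] at h2
  unfold nF at h2
  omega

/-- fold ends are not full -/
lemma WM.fold_not_full (W : WM r m N b θ) {x : P} (h : FoldM m N b θ x)
    (h' : FullM m N θ x) : False := by
  have hm := W.ten
  have h1 := h.th
  rw [h'.th, h.lev] at h1
  omega

/-- elements below a fold end, in the set `r2` -/
theorem WM.below_fold (W : WM r m N b θ) (S7 : S7M m N b θ) {z x : P}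
    (hl : lev z = 2 * m + 1) (hz : z ∈ r2 (2 * m) N) (hx : FoldM m N b θ x) (hzx : z ⋖ x) :
    ∃ x', FoldM m N b θ x' ∧ topOf x ≠ topOf x' ∧ z ⋖ x' := by
  have H := W.gt.H
  have hm := W.ten
  have I := numI W.ten
  have i1 := I.i3
  have i4 := I.i4
  have hh2 := hh_le m
  have hzb := W.mem_bd hz hl
  have key : ∀ y y', FoldM m N b θ y → FoldM m N b θ y' → topOf y ≠ topOf y' → z ⋖ y → z ⋖ y' →
      ∃ x', FoldM m N b θ x' ∧ topOf x ≠ topOf x' ∧ z ⋖ x' := by
    intro y y' hy hy' ht hzy hzy'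
    have hne : y ≠ y' := fun h => ht (by rw [h])
    rcases uc_pair H hzy hzy' hne hzx with h7 | h7
    · subst h7
      exact ⟨y', hy', ht, hzy'⟩
    · subst h7
      exact ⟨y, hy, Ne.symm ht, hzy⟩
  rcases W.rows4 S7 hzb with h | ⟨-, y, y', hy, hy', ht, hzy, hzy'⟩
  · rcases W.class S7 hz hl with ⟨y, hy, hp⟩ | ⟨y, hy, hp⟩ | ⟨y, y', hy, hy', ht, hzy, hzy'⟩ |
      ⟨y, y', hy, hy', ht, hzy, hzy'⟩ | ⟨y, y', hy, hy', h1, ht, hzy, hzy'⟩ |
      ⟨y, y', Nc, co, hy, hcy, hy', hcy', hzy, hzy'⟩ | h5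
    · have := (W.num_penF hz hl hy hp).cst
      omega
    · have h6 := hp.2 x hzx
      subst h6
      exact (W.fold_not_quad hx hy).elim
    · have h6 := (W.num_fq hz hl hy hy' ht hzy hzy').cst
      rcases Nat.mod_two_eq_zero_or_one m with hp | hp
      · have := I.i6 hp
        omega
      · have := I.i7 hp
        omega
    · exact key y y' hy hy' ht hzy hzy'
    · rcases W.num_T hz hl hy hy' h1 ht hzy hzy' with ⟨d, s, hd, hn, -⟩ | ⟨-, s, hn⟩
      · have := hn.cst
        omega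
      · have := hn.cst
        omega
    · obtain ⟨s, hn⟩ := W.num_cc hz hl hy hcy hy' hcy' hzy hzy'
      have := hn.cst
      omega
    · exact (W.fold_not_full hx (h5 x hzx)).elim
  · exact key y y' hy hy' ht hzy hzy'

/-- no elements below the end of a complete quadric -/
theorem WM.no_quad (W : WM r m N b θ) (S7 : S7M m N b θ) :
    ∀ z x, lev z = 2 * m + 1 → QdM m N θ x → ¬ z ⋖ x := by
  intro z x hl hq hzx
  have H := W.gt.H
  have HN := W.natSys
  have hm := W.ten
  have I := numI W.ten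
  have i4 := I.i4
  have i3 := I.i3
  have i1 := I.i1
  have hh2 := hh_le m
  -- natural elements below the quadric have level at most `2 m`
  have key : ∀ y : P, y ∉ unnat N → lev y = 2 * m + 1 → y ⋖ x → False := by
    intro y hy hly hyx
    have h1 : y ∈ N (topOf y) := HN.mem_iff.mpr ⟨hy, rfl⟩
    rw [HN.cp y x hyx.1.le hy, hq.nat, mem_lowPart] at h1
    omega
  have hz : z ∈ r2 (2 * m) N := by
    refine mem_sdiff.mpr ⟨?_, fun hY => ?_⟩
    · by_contra h
      exact key z h hl hzx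
    · exact key (twT N z) (W.twSys.nat z hY) (by rw [W.twSys.lev hY]; exact hl)
        ((W.twSys.cov hY).mpr hzx)
  have hqf : ¬ FoldM m N b θ x := fun h => W.fold_not_quad h hq
  have hqF : ¬ FullM m N θ x := by
    intro h
    have h1 := h.th
    have h2 := hq.th
    have h3 := hq.lev
    have h4 := (H.covBy_iff.mp hzx).2
    omega
  have hzb := W.mem_bd hz hl
  have hc : Kb m - 1 ≤ cst m (h2 (2 * m) N θ) z := by
    rcases W.rows4 S7 hzb with h | ⟨-, y, y', hy, hy', ht, hzy, hzy'⟩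
    · exact h
    · have hne : y ≠ y' := fun h => ht (by rw [h])
      rcases uc_pair H hzy hzy' hne hzx with h7 | h7
      · subst h7
        exact (hqf hy).elim
      · subst h7
        exact (hqf hy').elim
  rcases W.class S7 hz hl with ⟨y, hy, hp⟩ | ⟨y, hy, hp⟩ | ⟨y, y', hy, hy', ht, hzy, hzy'⟩ |
    ⟨y, y', hy, hy', ht, hzy, hzy'⟩ | ⟨y, y', hy, hy', h1, ht, hzy, hzy'⟩ |
    ⟨y, y', Nc, co, hy, hcy, hy', hcy', hzy, hzy'⟩ | h5
  · have h6 := hp.2 x hzx
    subst h6
    exact hqf hy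
  · have := (W.num_penQ hz hl hy hp).cst
    omega
  · have h6 := (W.num_fq hz hl hy hy' ht hzy hzy').cst
    rcases Nat.mod_two_eq_zero_or_one m with hp | hp
    · have := I.i6 hp
      omega
    · have := I.i7 hp
      omega
  · have hne : y ≠ y' := fun h => ht (by rw [h])
    rcases uc_pair H hzy hzy' hne hzx with h7 | h7
    · subst h7
      exact hqf hy
    · subst h7
      exact hqf hy'
  · have hne : y ≠ y' := fun h => ht (by rw [h])
    rcases uc_pair H hzy hzy' hne hzx with h7 | h7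
    · subst h7
      exact hqf hy
    · subst h7
      exact hqF hy'
  · obtain ⟨s, hn⟩ := W.num_cc hz hl hy hcy hy' hcy' hzy hzy'
    have := hn.cst
    omega
  · exact hqF (h5 x hzx)

/-- no join of two fold ends -/
theorem WM.no_ff (W : WM r m N b θ) (S7 : S7M m N b θ) {z x x' : P} (hl : lev z = 2 * m + 1)
    (hx : FoldM m N b θ x) (hx' : FoldM m N b θ x') (ht : topOf x ≠ topOf x') (hzx : z ⋖ x)
    (hzx' : z ⋖ x') : False := by
  have H := W.gt.H
  have HN := W.natSys
  have hm := W.ten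
  have I := numI W.ten
  rcases Nat.mod_two_eq_zero_or_one m with hp | hp
  · -- `m` even
    have i8 := I.i8 hp
    have hz : z ∈ r2 (2 * m) N := by
      refine mem_sdiff.mpr ⟨?_, fun hY => ?_⟩
      · by_contra h
        exact ht ((HN.cp z x hzx.1.le h).symm.trans (HN.cp z x' hzx'.1.le h))
      · have h := W.twSys.nat z hY
        exact ht ((HN.cp _ x ((W.twSys.cov hY).mpr hzx).1.le h).symm.trans
          (HN.cp _ x' ((W.twSys.cov hY).mpr hzx').1.le h))
    have hrow : ∀ z ∈ bdR (r2 (2 * m) N), cst m (h2 (2 * m) N θ) z ≤ 2 * NF m (hh m) + hh m →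
        Num m N θ z (hh m) (2 * NF m (hh m) + hh m) 2 (2 * sgF m) := by
      intro z hz hc
      rcases W.rows4 S7 hz with h | ⟨hl, y, y', hy, hy', ht, hzy, hzy'⟩
      · omega
      · exact W.num_ff (bd_mem hz) hl hy hy' ht hzy hzy'
    have hnum := W.num_ff hz hl hx hx' ht hzx hzx'
    refine W.kill (n := 2 * NF m (hh m) + hh m) i8 (fun z hz => ?_) 1 one_ne_zero 2 (by norm_num)
      (fun z hz hc => ?_) (fun z hz hc _ => ?_) z (W.mem_bd hz hl) hnum.cst ?_
    · by_contra hcon
      have := (hrow z hz (by omega)).cst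
      omega
    · have h := hrow z hz hc.le
      rw [h.lab]
      exact h.drop.le
    · have h := hrow z hz hc.le
      rw [h.nst, pow_mul]
      norm_num
    · rw [hnum.lab]
      exact hnum.drop
  · exact W.no_ff_odd hp (fun z x hl hz hx hzx => W.below_fold S7 hl hz hx hzx)
      (W.no_quad S7) S7 z x x' hl hx hx' ht hzx hzx'

/-- S8: the elements of level `2 m + 1` below a fold end are natural or twins -/
theorem WM.fold_clear (W : WM r m N b θ) (S7 : S7M m N b θ) {z x : P}
    (hl : lev z = 2 * m + 1) (hx : FoldM m N b θ x) (hzx : z ⋖ x) : z ∉ r2 (2 * m) N := by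
  intro hz
  obtain ⟨x', hx', ht, hzx'⟩ := W.below_fold S7 hl hz hx hzx
  exact W.no_ff S7 hl hx hx' ht hzx hzx'

/-- no join with a fold end -/
theorem WM.fold_no_join (W : WM r m N b θ) (S7 : S7M m N b θ) {z x x' : P}
    (hl : lev z = 2 * m + 1) (hx : FoldM m N b θ x) (hzx : z ⋖ x) (hzx' : z ⋖ x') :
    topOf x = topOf x' := by
  have HN := W.natSys
  have h1 := W.fold_clear S7 hl hx hzx
  by_cases hY : z ∈ twY (2 * m) N
  · have h := W.twSys.nat z hY
    exact (HN.cp _ x ((W.twSys.cov hY).mpr hzx).1.le h).symm.trans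
      (HN.cp _ x' ((W.twSys.cov hY).mpr hzx').1.le h)
  · have h : z ∉ unnat N := fun h => h1 (mem_sdiff.mpr ⟨h, hY⟩)
    exact (HN.cp z x hzx.1.le h).symm.trans (HN.cp z x' hzx'.1.le h)

end Pool.Agent.GaussPoset

end

/-! From `Pool.Agent.W_448s8_h76.SaT` -/

section

/-!
# No joins on the level `j + 1`, `j ≥ 19` (MP_448cb3_co): S7 and S8 together
-/

namespace Pool.Agent.GaussPoset

set_option linter.unusedSectionVars false

open Finset

universe u

variable {P : Type u} [Fintype P] [PartialOrder P] [DecidableEq P] {r j m : ℕ}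

section Straight

variable {t : Tops P} {lo hi : ℕ → ℕ} {e : ℕ → ℕ → P}

/-- single-up elements of rectangles are straight -/
lemma straight_rect (G : Win.GoodTo P r j) (C : Cp.Comp j (t : P) lo hi e)
    (S : RectShape j lo hi) {x : P} (hx : x ≤ (t : P)) (hl : lev x = j)
    (h1 : (Win.uc x).card = 1) : ∀ k, k ≤ j → nab k x = 1 := by
  intro k hk
  have Ch := chart_rect C G.H G.good S
  have hxN : x ∈ lowPart j (t : P) := mem_lowPart.mpr ⟨hx, hl.le⟩
  have hc := Ch.lev x hxN
  have h3 : (ccoord lo hi e x).1 = 0 ∨ (ccoord lo hi e x).2 = 0 := by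
    by_contra hcon
    have := chart_inner_uc Ch G.H hxN (by omega) (by omega)
    omega
  rw [nab_chart Ch hxN]
  have := card_cellsAt_true (l := k) (p := ccoord lo hi e x) (by omega)
  omega

/-- single-up elements of stairs are straight or fold ends -/
lemma straight_stair (G : Win.GoodTo P r j) (C : Cp.Comp j (t : P) lo hi e)
    (S : StairShape j lo hi) {x : P} (hx : x ≤ (t : P)) (hl : lev x = j)
    (h1 : (Win.uc x).card = 1) : (∀ k, k ≤ j → nab k x = 1) ∨
      (j = 2 * (j / 2) ∧ x = e j (j / 2)) := by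
  have Ch := chart_stair C G.H G.good S
  have hxN : x ∈ lowPart j (t : P) := mem_lowPart.mpr ⟨hx, hl.le⟩
  have hc := Ch.lev x hxN
  have hS : (ccoord lo hi e x).1 ≤ (ccoord lo hi e x).2 := Ch.mem x hxN
  by_cases h0 : (ccoord lo hi e x).1 = 0
  · left
    intro k hk
    rw [nab_chart Ch hxN]
    have := card_cellsAt_shift (l := k) (p := ccoord lo hi e x) hS (by omega)
    omega
  · right
    have h3 : (ccoord lo hi e x).1 = (ccoord lo hi e x).2 := by
      by_contra hcon
      have := chartS_inner_uc Ch G.H hxN (by omega) (by omega)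
      omega
    refine ⟨by omega, ?_⟩
    have h4 := (scoord_spec C hx hl.le).2.2
    have h5 : (ccoord lo hi e x).1 = scoord lo hi e x := rfl
    have h6 : scoord lo hi e x = j / 2 := by omega
    rw [hl, h6] at h4
    exact h4.symm

end Straight

/-- both covers of an element below two maximal elements are single-up -/
lemma single_of_join (G : Win.GoodTo P r j) (hj : 2 ≤ j) {z x x' : P} (hl : lev z = j + 1)
    (hzx : z ⋖ x) (hzx' : z ⋖ x') (hne : topOf x ≠ topOf x') :
    (Win.uc x).card = 1 ∧ (Win.uc x').card = 1 := by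
  classical
  obtain ⟨i, hi⟩ : ∃ i, j = i + 1 := ⟨j - 1, by omega⟩
  subst hi
  rcases (Win.near_level' G (by omega)).1 z x x' (by omega) hzx hzx'
    (fun h => hne (by rw [h])) with h | ⟨h1, h2, -⟩
  · exfalso
    obtain ⟨p, hp⟩ := Finset.card_eq_one.mp h
    have hp2 : x ⋖ p ∧ x' ⋖ p := by
      have : p ∈ (univ.filter (fun y : P => x ⋖ y ∧ x' ⋖ y)) := by rw [hp]; simp
      simpa using this
    have l1 := (G.H.covBy_iff.mp hzx).2
    have l2 := (G.H.covBy_iff.mp hzx').2
    have e1 := mem_onlyB.mp (only_of_le G.H G.good (le_topOf x) (by omega)) (topOf p : P)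
      (topOf p).2 (hp2.1.le.trans (le_topOf p))
    have e2 := mem_onlyB.mp (only_of_le G.H G.good (le_topOf x') (by omega)) (topOf p : P)
      (topOf p).2 (hp2.2.le.trans (le_topOf p))
    exact hne (Subtype.ext (e1.symm.trans e2))
  · exact ⟨h1, h2⟩

/-- the seventh step in the context of S8 -/
theorem s7M_of {N : Tops P → Finset P} {b : Tops P → ℕ} {θ : Tops P → P → ℕ} (hm : 10 ≤ m)
    (G : Win.GoodTo P r (2 * m))
    {lo hi : Tops P → ℕ → ℕ} {e : Tops P → ℕ → ℕ → P}
    (C : ∀ t : Tops P, Cp.Comp (2 * m) (t : P) (lo t) (hi t) (e t))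
    (hS : ∀ t, Wd.Shape (2 * m) (lo t) (hi t))
    (hF : ∀ t x, topOf x = t → StairShape (2 * m) (lo t) (hi t) → x = e t (2 * m) m →
      FoldM m N b θ x) : S7M m N b θ := by
  intro z x x' hl hzx hzx' hne
  by_contra hcon
  rw [not_or] at hcon
  obtain ⟨h1, h2⟩ := single_of_join G (by omega) hl hzx hzx' hne
  have l1 := (G.H.covBy_iff.mp hzx).2
  have l2 := (G.H.covBy_iff.mp hzx').2
  have key : ∀ x : P, lev x = 2 * m → (Win.uc x).card = 1 → ¬ FoldM m N b θ x →
      (RectShape (2 * m) (lo (topOf x)) (hi (topOf x)) ∨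
        StairShape (2 * m) (lo (topOf x)) (hi (topOf x))) → ∀ k, k ≤ 2 * m → nab k x = 1 := by
    intro x hlx hu hnf hsh
    rcases hsh with hsh | hsh
    · exact straight_rect G (C (topOf x)) hsh (le_topOf x) hlx hu
    · rcases straight_stair G (C (topOf x)) hsh (le_topOf x) hlx hu with h | ⟨-, h⟩
      · exact h
      · rw [show 2 * m / 2 = m by omega] at h
        exact (hnf (hF _ x rfl hsh h)).elim
  exact no_end_join G (by omega) C hS hl hzx hzx' hne (key x (by omega) h1 hcon.1)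
    (key x' (by omega) h2 hcon.2)

/-- no element of level `j + 1` has covers below different maximal elements, `j ≥ 19` -/
theorem no_cross (G : Win.GoodTo P r j) (hr : j + 1 ≤ r) (hj : 19 ≤ j)
    {lo hi : Tops P → ℕ → ℕ} {e : Tops P → ℕ → ℕ → P}
    (C : ∀ t : Tops P, Cp.Comp j (t : P) (lo t) (hi t) (e t))
    (hS : ∀ t, Wd.Shape j (lo t) (hi t)) {z x x' : P} (hl : lev z = j + 1) (hzx : z ⋖ x)
    (hzx' : z ⋖ x') : topOf x = topOf x' := by
  by_contra hne
  obtain ⟨m, hm | hm⟩ := Nat.even_or_odd' j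
  · subst hm
    obtain ⟨N, θ, W, hF⟩ := exists_WM (by omega) G hr C hS
    have S7 := s7M_of (by omega) G C hS (fun t x ht hs hx => (hF t x ht).mpr ⟨hs, hx⟩)
    rcases S7 z x x' hl hzx hzx' hne with h | h
    · exact hne (W.fold_no_join S7 hl h hzx hzx')
    · exact hne (W.fold_no_join S7 hl h hzx' hzx).symm
  · obtain ⟨h1, h2⟩ := single_of_join G (by omega) hl hzx hzx' hne
    have l1 := (G.H.covBy_iff.mp hzx).2
    have l2 := (G.H.covBy_iff.mp hzx').2
    have key : ∀ x : P, lev x = j → (Win.uc x).card = 1 →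
        (RectShape j (lo (topOf x)) (hi (topOf x)) ∨
          StairShape j (lo (topOf x)) (hi (topOf x))) → ∀ k, k ≤ j → nab k x = 1 := by
      intro x hlx hu hsh
      rcases hsh with hsh | hsh
      · exact straight_rect G (C (topOf x)) hsh (le_topOf x) hlx hu
      · rcases straight_stair G (C (topOf x)) hsh (le_topOf x) hlx hu with h | ⟨h, -⟩
        · exact h
        · omega
    exact no_end_join G (by omega) C hS hl hzx hzx' hne (key x (by omega) h1)
      (key x' (by omega) h2)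

/-- the form used in the final assembly: no element of level `j + 1` is below two maximal
elements, `j ≥ 19` -/
theorem no_jn (G : Win.GoodTo P r j) (hr : j + 1 ≤ r) (hj : 19 ≤ j)
    {lo hi : Tops P → ℕ → ℕ} {e : Tops P → ℕ → ℕ → P}
    (C : ∀ t : Tops P, Cp.Comp j (t : P) (lo t) (hi t) (e t))
    (hS : ∀ t, Wd.Shape j (lo t) (hi t)) (z : P) (hl : lev z = j + 1) : ¬ Hul.Jn z := by
  rintro ⟨s, s', hs, hs', hne, hzs, hzs'⟩
  have hlt : ∀ s : P, lev s = 0 → z ≤ s → z < s := fun s hs hzs =>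
    lt_of_le_of_ne hzs (by rintro rfl; omega)
  obtain ⟨x, hzx, hxs⟩ := Hul.exists_cov (hlt s hs hzs)
  obtain ⟨x', hzx', hxs'⟩ := Hul.exists_cov (hlt s' hs' hzs')
  have l1 := (G.H.covBy_iff.mp hzx).2
  have l2 := (G.H.covBy_iff.mp hzx').2
  have e1 := mem_onlyB.mp (only_of_le G.H G.good (le_topOf x) (by omega)) s hs hxs
  have e2 := mem_onlyB.mp (only_of_le G.H G.good (le_topOf x') (by omega)) s' hs' hxs'
  apply hne
  rw [e1, e2, no_cross G hr hj C hS hl hzx hzx']

end Pool.Agent.GaussPoset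

end

/-! From `Pool.Agent.W_448s8f_h15.StB` -/

section

/-!
The natural system used for the star joins at window `i`, level `2 m` (MP_448cb3_co, S8,
small `m`).
-/

namespace Pool.Agent.GaussPoset.Fi

set_option linter.unusedSectionVars false

open Polynomial Finset

universe u

variable {P : Type u} [Fintype P] [PartialOrder P] [DecidableEq P] {r i m K k p : ℕ}
  {N : Tops P → Finset P} {b : Tops P → ℕ} {θ : Tops P → P → ℕ}

/-- a fold end and an anchor of a light component -/
structure StG (i m k p : ℕ) (N : Tops P → Finset P) (b : Tops P → ℕ) (θ : Tops P → P → ℕ)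
    (f v : P) (Nc : Finset P) (co : P → ℕ × ℕ) : Prop where
  fold : Fd m f
  ft : FI i m N b θ f Nc co
  q1 : N (topOf v) = onlyB (topOf v)
  q2 : θ (topOf v) = fun x => lev x - i
  q3 : b (topOf v) = 1
  q5 : ∀ x, x ≤ (topOf v : P) → lev x ≤ 2 * m → x ∈ onlyB (topOf v)
  td : TD m (topOf v) v p
  ne : topOf f ≠ topOf v
  hk : i + k + 7 = 2 * m
  h8 : 2 * (i / 2) = 8

section

variable {f v : P} {Nc : Finset P} {co : P → ℕ × ℕ}

lemma StG.k_pos (W : WC r i m K N b θ) (S : StG i m k p N b θ f v Nc co) : 1 ≤ k := by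
  have := S.hk
  have := S.h8
  have := W.him
  omega

theorem StG.natTop (W : WC r i m K N b θ) (S : StG i m k p N b θ f v Nc co) (s : Tops P) :
    ∃ B, NatTop i s (bq i b f s) (Nq m N v s) (tq i θ f Nc co s) B := by
  have h4 := W.hi
  have him := W.him
  have W' := W.wi
  have hgr := W.gt.H.gradedBelow
  by_cases hs : s = topOf v
  · subst hs
    have e1 : Nq m N v (topOf v) = lowPart (2 * m) (topOf v : P) := Function.update_self _ _ _
    have e2 : bq i b f (topOf v) = 1 := by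
      unfold bq
      rw [Function.update_of_ne (Ne.symm S.ne), S.q3]
    have e3 : tq i θ f Nc co (topOf v) = fun x => lev x - i := by
      unfold tq
      rw [Function.update_of_ne (Ne.symm S.ne), S.q2]
    rw [e1, e2, e3]
    obtain ⟨x, hx, hl⟩ : ∃ x ≤ (topOf v : P), lev x = i := by
      obtain ⟨x, hx, hl⟩ := exists_above' (x := v) (j := i) (by rw [S.td.lev]; omega)
      refine ⟨x, ?_, hl⟩
      rw [W'.natSys.cp v x hx (W'.low S.td.lev.le)]
      exact le_topOf x
    exact ⟨_, (locData_light hgr ⟨x, mem_lowPart.mpr ⟨hx, by omega⟩, hl⟩).natTop (W'.lowUp _)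
      (fun x hx => (mem_lowPart.mp hx).1) (fun x hx hxi => mem_lowPart.mpr ⟨hx, by omega⟩)⟩
  · have e1 : Nq m N v s = N s := Function.update_of_ne hs _ _
    rw [e1]
    by_cases hs2 : s = topOf f
    · subst hs2
      have e2 : bq i b f (topOf f) = i / 2 := Function.update_self _ _ _
      have e3 : tq i θ f Nc co (topOf f) = thSg (2 * (i / 2) - 2) i Nc co :=
        Function.update_self _ _ _
      rw [e2, e3, S.ft.nat]
      exact ⟨_, S.ft.stair.natTop_less hgr (by omega) (by omega)⟩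
    · have e2 : bq i b f s = b s := Function.update_of_ne hs2 _ _
      have e3 : tq i θ f Nc co s = θ s := Function.update_of_ne hs2 _ _
      rw [e2, e3]
      exact W'.natTop s

lemma StG.natSys (W : WC r i m K N b θ) (S : StG i m k p N b θ f v Nc co) :
    NatSys (Nq m N v) := by
  choose B hB using S.natTop W
  exact natSys_of_tops hB

/-- the total order -/
lemma StG.sum_b (W : WC r i m K N b θ) (S : StG i m k p N b θ f v Nc co) :
    ∑ s, bq i b f s + 1 = (lv P i).card := by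
  classical
  rw [← W.sum_b]
  unfold bq
  rw [Finset.sum_update_of_mem (mem_univ _), ← Finset.add_sum_erase univ b (mem_univ (topOf f)),
    S.ft.b, Finset.sdiff_singleton_eq_erase]
  omega

/-- the thresholds only increase -/
lemma StG.th_le (S : StG i m k p N b θ f v Nc co) (s : Tops P) (x : P) :
    θ s x ≤ tq i θ f Nc co s x := by
  unfold tq
  by_cases hs : s = topOf f
  · subst hs
    rw [Function.update_self, S.ft.th]
    unfold thS thSg
    split_ifs
    · exact le_rfl
    · omega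
  · rw [Function.update_of_ne hs]

/-- the threshold of the fold end -/
lemma StG.th_f (W : WC r i m K N b θ) (S : StG i m k p N b θ f v Nc co) :
    tq i θ f Nc co (topOf f) f = k + 1 := by
  have h4 := W.hi
  have him := W.him
  have h8 := S.h8
  have hk := S.hk
  unfold tq
  rw [Function.update_self]
  unfold thSg
  rw [if_neg (fold_not_junk S.ft.stair.chart S.ft.mem
    (by rw [S.ft.cell]; show 1 ≤ m; omega)), S.ft.cell]
  simp only
  omega

/-- the old threshold of the fold end -/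
lemma StG.th_f0 (W : WC r i m K N b θ) (S : StG i m k p N b θ f v Nc co) :
    θ (topOf f) f + 1 = k := by
  have h4 := W.hi
  have him := W.him
  have h8 := S.h8
  have hk := S.hk
  rw [W.fold_th S.fold]
  omega

/-- the new unnatural elements -/
lemma StG.mem_unnat (W : WC r i m K N b θ) (S : StG i m k p N b θ f v Nc co) {x : P} :
    x ∈ unnat (Nq m N v) ↔ x ∈ unnat N ∨ (topOf x = topOf v ∧ 2 * m < lev x) := by
  have W' := W.wi
  have hlow := W'.lowUp (topOf v)
  constructor
  · intro h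
    by_contra hcon
    rw [not_or] at hcon
    have h1 : x ∈ N (topOf x) := W'.natSys.mem_iff.mpr ⟨hcon.1, rfl⟩
    have h2 := Pool.Agent.GaussPoset.mem_unnat.mp h (topOf x)
    by_cases hs : topOf x = topOf v
    · rw [hs] at h2
      unfold Nq at h2
      rw [Function.update_self] at h2
      refine h2 (mem_lowPart.mpr ⟨by rw [← hs]; exact le_topOf x, ?_⟩)
      by_contra h3
      exact hcon.2 ⟨hs, by omega⟩
    · unfold Nq at h2
      rw [Function.update_of_ne hs] at h2
      exact h2 h1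
  · intro h
    rw [Pool.Agent.GaussPoset.mem_unnat]
    intro s hs
    have h3 := (S.natSys W).topOf_eq hs
    by_cases hsv : s = topOf v
    · subst hsv
      unfold Nq at hs
      rw [Function.update_self, mem_lowPart] at hs
      rcases h with h | h
      · have := W'.lt_lev h
        omega
      · omega
    · unfold Nq at hs
      rw [Function.update_of_ne hsv] at hs
      rcases h with h | h
      · exact Pool.Agent.GaussPoset.mem_unnat.mp h s hs
      · exact hsv (h3.symm.trans h.1)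

lemma StG.tw_ne (W : WC r i m K N b θ) (S : StG i m k p N b θ f v Nc co) {x : P}
    (hx : x ∈ twY (2 * m) N) : topOf x ≠ topOf v := by
  have W' := W.wi
  rw [← W'.twSys.cp x hx]
  intro h
  rcases W'.tw_inner hx with ⟨Nc', co', h'⟩ | ⟨Nc', co', h'⟩
  · have h1 := h'.rect.b_two
    rw [h, S.q3] at h1
    omega
  · have h1 := h'.bb
    have h8 := S.h8
    rw [h, S.q3] at h1
    omega

theorem StG.twSys (W : WC r i m K N b θ) (S : StG i m k p N b θ f v Nc co) :
    TwSys (unnat (Nq m N v)) (twY (2 * m) N) topOf (twT N) where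
  sub := fun x hx => (S.mem_unnat W).mpr (Or.inl (W.wi.twSys.sub hx))
  nat := by
    intro x hx h
    rcases (S.mem_unnat W).mp h with h | h
    · exact W.wi.twSys.nat x hx h
    · exact S.tw_ne W hx ((W.wi.twSys.cp x hx).symm.trans h.1)
  up := W.wi.twSys.up
  inj := W.wi.twSys.inj
  anti := W.wi.twSys.anti
  cp := W.wi.twSys.cp

lemma StG.mem_Rq (W : WC r i m K N b θ) (S : StG i m k p N b θ f v Nc co) {x : P} :
    x ∈ Rq m N v ↔ x ∈ r2 (2 * m) N ∨ (topOf x = topOf v ∧ 2 * m < lev x) := by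
  unfold Rq
  rw [mem_sdiff, S.mem_unnat W, mem_sdiff]
  constructor
  · rintro ⟨h1 | h1, h2⟩
    · exact Or.inl ⟨h1, h2⟩
    · exact Or.inr h1
  · rintro (⟨h1, h2⟩ | h1)
    · exact ⟨Or.inl h1, h2⟩
    · exact ⟨Or.inr h1, fun h => S.tw_ne W h h1.1⟩

lemma StG.lower (W : WC r i m K N b θ) (S : StG i m k p N b θ f v Nc co) :
    ∀ x y, x ≤ y → y ∈ Rq m N v → x ∈ Rq m N v :=
  (S.twSys W).lower (S.natSys W).lower

lemma StG.lev_Rq (W : WC r i m K N b θ) (S : StG i m k p N b θ f v Nc co) {x : P}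
    (hx : x ∈ Rq m N v) : 2 * m < lev x := by
  rcases (S.mem_Rq W).mp hx with h | h
  · exact W.wi.lt_lev (mem_sdiff.mp h).1
  · exact h.2

lemma StG.twinPair (W : WC r i m K N b θ) (S : StG i m k p N b θ f v Nc co) {x : P}
    (hx : x ∈ twY (2 * m) N) : TwinPair i (thX (twY (2 * m) N) (twT N)
      (fun x => tq i θ f Nc co (topOf x) x)) (K - 1) (twT N x) x := by
  have T := S.twSys W
  have h1 := mem_twY.mp hx
  have hnY : twT N x ∉ twY (2 * m) N := fun h => T.nat x hx (T.sub h)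
  refine (W.wi.twinPair hx).mono ?_ ?_ ?_
  · rw [thX_not hnY, thX_not hnY]
    exact S.th_le _ _
  · rw [thX_of hx, thX_not hnY]
  · rw [thX_not hnY]
    choose B hB using S.natTop W
    have hn : twT N x ∈ Nq m N v (topOf (twT N x)) :=
      (S.natSys W).mem_iff.mpr ⟨T.nat x hx, rfl⟩
    exact ((hB (topOf (twT N x))).data _ (S.natSys W) rfl _ _ (fun _ _ => rfl)
      (fun _ _ => Iff.rfl)).le (twT N x) (T.nat x hx) rfl

/-- bounded sums off the frozen set -/
theorem StG.bounds (W : WC r i m K N b θ) (S : StG i m k p N b θ f v Nc co) (β : P → ℕ)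
    (hβ : ∀ x, x ∉ Rq m N v → β x ≤ thX (twY (2 * m) N) (twT N)
      (fun x => tq i θ f Nc co (topOf x) x) x) (n : ℕ) (hn : n < K - 1) :
    (1 + X : ℤ[X]) ^ ((lv P i).card - 1) ∣ ZB i (Rq m N v) 0 β n := by
  choose B hB using S.natTop W
  have h := bounds_of_tops hB (S.twSys W) (K - 1) (fun x hx => S.twinPair W hx) β hβ n hn
  have h2 := S.sum_b W
  rwa [show ∑ s, bq i b f s = (lv P i).card - 1 by omega] at h

end

end Pool.Agent.GaussPoset.Fi

end

/-! From `Pool.Agent.W_448s8f_h15.StC` -/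

section

/-!
The two factors off the frozen set (MP_448cb3_co, S8, small `m`).
-/

namespace Pool.Agent.GaussPoset.Fi

set_option linter.unusedSectionVars false

open Polynomial Finset

universe u

variable {P : Type u} [Fintype P] [PartialOrder P] [DecidableEq P] {r i m K k p : ℕ}
  {N : Tops P → Finset P} {b : Tops P → ℕ} {θ : Tops P → P → ℕ}

lemma StC_top_iff (W : WC r i m K N b θ) {x : P} (hl : lev x ≤ 2 * m) (t : Tops P) :
    topOf x = t ↔ x ≤ (t : P) := by
  constructor
  · rintro rfl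
    exact le_topOf x
  · intro h
    have hx : x ∈ N (topOf x) := W.wi.natSys.mem_iff.mpr ⟨W.wi.low hl, rfl⟩
    exact (Subtype.ext (W.wi.natSys.top_eq hx t.2 h)).symm

/-- natural elements of different tops have no common upper bound -/
lemma StC_disjL (W : WC r i m K N b θ) {x x' y : P} (hx : lev x ≤ 2 * m)
    (hx' : lev x' ≤ 2 * m) (ht : topOf x ≠ topOf x') (h1 : x ≤ y) (h2 : x' ≤ y) : False :=
  ht ((W.wi.natSys.cp x y h1 (W.wi.low hx)).trans (W.wi.natSys.cp x' y h2 (W.wi.low hx')).symm)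

section

variable {f v : P} {Nc : Finset P} {co : P → ℕ × ℕ}

lemma StG.cp (W : WC r i m K N b θ) (S : StG i m k p N b θ f v Nc co) {x y : P} (hxy : x ≤ y)
    (hx : x ∉ Rq m N v) : topOf x = topOf y :=
  (S.twSys W).cp' (S.natSys W).cp x y hxy hx

lemma StG.up (W : WC r i m K N b θ) (S : StG i m k p N b θ f v Nc co) :
    ∀ x y : P, x ≤ y → x ∉ Rq m N v → y ∉ Rq m N v :=
  fun x y hxy hx hy => hx (S.lower W x y hxy hy)

lemma StG.upT (W : WC r i m K N b θ) (S : StG i m k p N b θ f v Nc co) :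
    ∀ x y : QO m N v, x ≤ y → topOf (x : P) = topOf v → topOf (y : P) = topOf v :=
  fun x y hxy hx => (S.cp W hxy x.2).symm.trans hx

lemma StG.upR (W : WC r i m K N b θ) (S : StG i m k p N b θ f v Nc co) :
    ∀ x y : QO m N v, x ≤ y → ¬ topOf (x : P) = topOf v → ¬ topOf (y : P) = topOf v :=
  fun x y hxy hx hy => hx ((S.cp W hxy x.2).trans hy)

lemma StG.levT (W : WC r i m K N b θ) (S : StG i m k p N b θ f v Nc co) (x : QT m N v) :
    lev x = lev (x.1.1 : P) := by
  rw [lev_subtype (S.upT W), lev_subtype (S.up W)]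

lemma StG.levR (W : WC r i m K N b θ) (S : StG i m k p N b θ f v Nc co) (x : QR m N v) :
    lev x = lev (x.1.1 : P) := by
  rw [lev_subtype (S.upR W), lev_subtype (S.up W)]

lemma StG.nabR (W : WC r i m K N b θ) (S : StG i m k p N b θ f v Nc co) (x : QR m N v) (l : ℕ) :
    nab l x = nab l (x.1.1 : P) := by
  rw [nab_sub (S.upR W), nab_sub (S.up W)]

lemma StG.ctT (W : WC r i m K N b θ) (S : StG i m k p N b θ f v Nc co) (x : QT m N v)
    (i' k' : ℕ) : ct i' k' x = ct i' k' (x.1.1 : P) := by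
  rw [ct_sub (S.upT W), ct_sub (S.up W)]

lemma StG.ctR (W : WC r i m K N b θ) (S : StG i m k p N b θ f v Nc co) (x : QR m N v)
    (i' k' : ℕ) : ct i' k' x = ct i' k' (x.1.1 : P) := by
  rw [ct_sub (S.upR W), ct_sub (S.up W)]

lemma StG.nstR (W : WC r i m K N b θ) (S : StG i m k p N b θ f v Nc co) (x : QR m N v)
    (i' k' : ℕ) : nst i' (fun _ => k') x = nst i' (fun _ => k') (x.1.1 : P) := by
  rw [nst_sub (S.upR W), nst_sub (S.up W)]

lemma StG.off (W : WC r i m K N b θ) (S : StG i m k p N b θ f v Nc co) {x : P}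
    (hl : lev x ≤ 2 * m) : x ∉ Rq m N v := by
  intro h
  have := S.lev_Rq W h
  omega

lemma StG.mem_T (W : WC r i m K N b θ) (S : StG i m k p N b θ f v Nc co) {x : P}
    (hx : x ∉ Rq m N v) (ht : topOf x = topOf v) : x ≤ (topOf v : P) ∧ lev x ≤ 2 * m := by
  refine ⟨by rw [← ht]; exact le_topOf x, ?_⟩
  by_contra hcon
  exact hx ((S.mem_Rq W).mpr (Or.inr ⟨ht, by omega⟩))

/-- the anchor -/
noncomputable def StG.vT (W : WC r i m K N b θ) (S : StG i m k p N b θ f v Nc co) : QT m N v :=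
  ⟨⟨v, S.off W S.td.lev.le⟩, rfl⟩

/-- the fold end -/
noncomputable def StG.fR (W : WC r i m K N b θ) (S : StG i m k p N b θ f v Nc co) : QR m N v :=
  ⟨⟨f, S.off W S.fold.1.le⟩, S.ne⟩

/-- up-closed sets of the component of `v` -/
theorem StG.Z_T (W : WC r i m K N b θ) (S : StG i m k p N b θ f v Nc co)
    {L : Finset (QT m N v)} (hL : ∀ x y, x ≤ y → x ∈ L → y ∈ L) :
    ∃ L' : Finset P, L' ⊆ lowPart (2 * m) (topOf v : P) ∧ (∀ x ∈ L', ∀ y, x ≤ y → y ∈ L') ∧
      (∀ x : QT m N v, x ∈ L ↔ x.1.1 ∈ L') ∧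
      ∀ i' n, Z {x // x ∈ L} i' n = Z {x // x ∈ L'} i' n := by
  classical
  let φ : QT m N v → P := fun x => x.1.1
  have hφ : ∀ x y, φ x ≤ φ y ↔ x ≤ y := fun x y => Iff.rfl
  have hm : ∀ y, y ∈ L.image φ ↔ ∃ x ∈ L, φ x = y := fun y => mem_image
  refine ⟨L.image φ, ?_, ?_, ?_, fun i' n => StA_Z_image hφ hm i' n⟩
  · intro y hy
    obtain ⟨x, hx, rfl⟩ := (hm y).mp hy
    exact mem_lowPart.mpr (S.mem_T W x.1.2 x.2)
  · intro y hy z hyz
    obtain ⟨x, hx, rfl⟩ := (hm y).mp hy
    have h1 : z ∉ Rq m N v := S.up W _ _ hyz x.1.2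
    have h2 : topOf z = topOf v := (S.cp W hyz x.1.2).symm.trans x.2
    exact (hm z).mpr ⟨⟨⟨z, h1⟩, h2⟩, hL x _ hyz hx, rfl⟩
  · intro x
    rw [hm]
    constructor
    · intro h
      exact ⟨x, h, rfl⟩
    · rintro ⟨y, hy, h⟩
      have : y = x := Subtype.ext (Subtype.ext h)
      rwa [← this]

lemma StG.card_top (W : WC r i m K N b θ) (S : StG i m k p N b θ f v Nc co) {l : ℕ}
    (hl : l < 2 * m - 7) :
    (univ.filter (fun x : P => lev x = l ∧ topOf x = topOf v)).card = 1 := by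
  classical
  rw [← S.td.cn l hl]
  unfold cn lv
  rw [Finset.filter_filter]
  congr 1
  refine Finset.filter_congr fun x _ => ?_
  refine and_congr_right fun h2 => ?_
  rw [StC_top_iff W (by omega)]

lemma StG.ilt (S : StG i m k p N b θ f v Nc co) (W : WC r i m K N b θ) : i < 2 * m - 7 := by
  have := S.hk
  have := S.k_pos W
  omega

/-- the number of elements of level `i` in the rest -/
lemma StG.lv_R (W : WC r i m K N b θ) (S : StG i m k p N b θ f v Nc co) :
    (lv (QR m N v) i).card + 1 = (lv P i).card := by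
  classical
  have hil := S.ilt W
  have him := W.him
  have h1 := S.card_top W hil
  have h2 : (lv (QR m N v) i).card =
      (univ.filter (fun x : P => lev x = i ∧ ¬ topOf x = topOf v)).card := by
    unfold lv
    have h3 : (univ.filter (fun x : QR m N v => lev x = i)) =
        (univ.filter (fun x : QR m N v => lev (x.1.1 : P) = i)) :=
      Finset.filter_congr fun x _ => by rw [S.levR W]
    rw [h3, card_sub' (p := fun x : QO m N v => ¬ topOf (x : P) = topOf v)
      (fun x : QO m N v => lev (x : P) = i),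
      card_sub' (p := fun x : P => x ∉ Rq m N v)
        (fun x : P => ¬ topOf x = topOf v ∧ lev x = i)]
    congr 1
    refine Finset.filter_congr fun x _ => ?_
    constructor
    · rintro ⟨-, h4, h5⟩
      exact ⟨h5, h4⟩
    · rintro ⟨h4, h5⟩
      exact ⟨S.off W (by omega), h5, h4⟩
  rw [h2, ← h1]
  have h3 := Finset.card_filter_add_card_filter_not (s := (univ : Finset P).filter
    (fun x => lev x = i)) (fun x => topOf x = topOf v)
  rw [Finset.filter_filter, Finset.filter_filter] at h3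
  unfold lv
  omega

/-- the number of elements of level below `i` in the rest -/
lemma StG.below_R (W : WC r i m K N b θ) (S : StG i m k p N b θ f v Nc co) :
    below (QR m N v) i + i = below P i := by
  classical
  have hil := S.ilt W
  have him := W.him
  have h2 : below (QR m N v) i =
      (univ.filter (fun x : P => lev x < i ∧ ¬ topOf x = topOf v)).card := by
    unfold below
    have h3 : (univ.filter (fun x : QR m N v => lev x < i)) =
        (univ.filter (fun x : QR m N v => lev (x.1.1 : P) < i)) :=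
      Finset.filter_congr fun x _ => by rw [S.levR W]
    rw [h3, card_sub' (p := fun x : QO m N v => ¬ topOf (x : P) = topOf v)
      (fun x : QO m N v => lev (x : P) < i),
      card_sub' (p := fun x : P => x ∉ Rq m N v)
        (fun x : P => ¬ topOf x = topOf v ∧ lev x < i)]
    congr 1
    refine Finset.filter_congr fun x _ => ?_
    constructor
    · rintro ⟨-, h4, h5⟩
      exact ⟨h5, h4⟩
    · rintro ⟨h4, h5⟩
      exact ⟨S.off W (by omega), h5, h4⟩
  have h4 : (univ.filter (fun x : P => lev x < i ∧ topOf x = topOf v)).card = i := by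
    have h5 := Finset.card_eq_sum_card_fiberwise (f := fun x : P => lev x)
      (s := univ.filter (fun x : P => lev x < i ∧ topOf x = topOf v)) (t := range i)
      (fun x hx => by
        have := (mem_filter.mp hx).2.1
        exact mem_coe.mpr (mem_range.mpr this))
    rw [h5]
    have h6 : ∀ l ∈ range i, ((univ.filter (fun x : P => lev x < i ∧ topOf x = topOf v)).filter
        (fun x => lev x = l)).card = 1 := by
      intro l hl
      rw [mem_range] at hl
      rw [← S.card_top W (l := l) (by omega), Finset.filter_filter]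
      congr 1
      refine Finset.filter_congr fun x _ => ?_
      constructor
      · rintro ⟨⟨-, h7⟩, h8⟩
        exact ⟨h8, h7⟩
      · rintro ⟨h7, h8⟩
        exact ⟨⟨by omega, h8⟩, h7⟩
    rw [Finset.sum_congr rfl h6, Finset.sum_const, card_range, smul_eq_mul, mul_one]
  have h3 := Finset.card_filter_add_card_filter_not (s := (univ : Finset P).filter
    (fun x => lev x < i)) (fun x => topOf x = topOf v)
  rw [Finset.filter_filter, Finset.filter_filter] at h3
  rw [h2]
  unfold below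
  omega

lemma StG.lv_T (W : WC r i m K N b θ) (S : StG i m k p N b θ f v Nc co) :
    (lv (QT m N v) i).card = 1 := by
  classical
  have hil := S.ilt W
  have him := W.him
  rw [← S.card_top W (l := i) hil]
  unfold lv
  have h3 : (univ.filter (fun x : QT m N v => lev x = i)) =
      (univ.filter (fun x : QT m N v => lev (x.1.1 : P) = i)) :=
    Finset.filter_congr fun x _ => by rw [S.levT W]
  rw [h3, card_sub' (p := fun x : QO m N v => topOf (x : P) = topOf v)
    (fun x : QO m N v => lev (x : P) = i),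
    card_sub' (p := fun x : P => x ∉ Rq m N v)
      (fun x : P => topOf x = topOf v ∧ lev x = i)]
  congr 1
  refine Finset.filter_congr fun x _ => ?_
  constructor
  · rintro ⟨-, h4, h5⟩
    exact ⟨h5, h4⟩
  · rintro ⟨h4, h5⟩
    exact ⟨S.off W (by omega), h5, h4⟩

end

end Pool.Agent.GaussPoset.Fi

end

/-! From `Pool.Agent.W_448s8f_h15.StD` -/

section

/-!
The product of the two factors (MP_448cb3_co, S8, small `m`).
-/

namespace Pool.Agent.GaussPoset.Fi

set_option linter.unusedSectionVars false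

open Polynomial Finset

universe u

variable {P : Type u} [Fintype P] [PartialOrder P] [DecidableEq P] {r i m K k p : ℕ}
  {N : Tops P → Finset P} {b : Tops P → ℕ} {θ : Tops P → P → ℕ}
  {f v : P} {Nc : Finset P} {co : P → ℕ × ℕ}

lemma StG.prod (W : WC r i m K N b θ) (S : StG i m k p N b θ f v Nc co) (β : P → ℕ) (n : ℕ) :
    ZB i (Rq m N v) 0 β n = ∑ ab ∈ antidiagonal n,
      ZB (P := QT m N v) i ∅ 0 (fun x => β x.1.1) ab.1 *
      ZB (P := QR m N v) i ∅ 0 (fun x => β x.1.1) ab.2 := by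
  have him := W.him
  rw [ZB_off_bound (S.lower W) (fun x hx => by
    have := S.lev_Rq W hx
    omega)]
  exact ZB_prod (fun x : QO m N v => topOf (x : P) = topOf v)
    (fun x y hxy => by rw [S.cp W hxy x.2]) i (fun x : QO m N v => β x) n

lemma StG.lev_vT (W : WC r i m K N b θ) (S : StG i m k p N b θ f v Nc co) :
    lev (S.vT W) = 2 * m := by
  rw [S.levT W]
  exact S.td.lev

lemma StG.lev_fR (W : WC r i m K N b θ) (S : StG i m k p N b θ f v Nc co) :
    lev (S.fR W) = 2 * m := by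
  rw [S.levR W]
  exact S.fold.1

lemma StG.two_le (W : WC r i m K N b θ) (S : StG i m k p N b θ f v Nc co) :
    2 ≤ (lv P i).card := by
  have him := W.him
  have h1 := S.lv_R W
  have h2 := one_le_nab (z := S.fR W) (l := i) (by rw [S.lev_fR W]; omega)
  have h3 := nab_le (S.fR W) i
  omega

/-- the order of the rest -/
theorem StG.dvd_R (W : WC r i m K N b θ) (S : StG i m k p N b θ f v Nc co) (β : P → ℕ)
    (hβ : ∀ x, x ∉ Rq m N v → topOf x ≠ topOf v → β x ≤ thX (twY (2 * m) N) (twT N)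
      (fun x => tq i θ f Nc co (topOf x) x) x) {n : ℕ} (hn : n < K - 1) :
    (1 + X : ℤ[X]) ^ ((lv P i).card - 2) ∣
      ZB (P := QR m N v) i ∅ 0 (fun x => β x.1.1) n := by
  classical
  have him := W.him
  have h2 := S.two_le W
  let β' : P → ℕ := fun x => if topOf x = topOf v then 0 else β x
  have e1 : (fun x : QT m N v => β' x.1.1) = 0 := by
    funext x
    exact if_pos x.2
  have e2 : (fun x : QR m N v => β' x.1.1) = (fun x : QR m N v => β x.1.1) := by
    funext x
    exact if_neg x.2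
  refine dvd_of_prod (A := fun a => Z (QT m N v) i a)
    (B := fun a => ZB (P := QR m N v) i ∅ 0 (fun x => β x.1.1) a) (α := 1)
    (β := (lv P i).card - 2) (N := K - 1) (u := below (QT m N v) i) ?_ ?_ ?_ n hn
  · rw [Z_zero, S.lv_T W]
  · intro a
    refine dvd_Z_of_dvd_W ?_ a
    rw [pow_one]
    exact dvd_W_one ⟨S.vT W, by rw [S.lev_vT W]; omega⟩
  · intro n hn
    have h3 := S.bounds W β' (fun x hx => by
      show (if topOf x = topOf v then 0 else β x) ≤ _
      split_ifs with h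
      · exact Nat.zero_le _
      · exact hβ x hx h) n hn
    rw [S.prod W, e1, e2, show (lv P i).card - 1 = 1 + ((lv P i).card - 2) by omega] at h3
    convert h3 using 2
    rw [Z_eq_ZB]

lemma StG.ct_v (W : WC r i m K N b θ) (S : StG i m k p N b θ f v Nc co) (i' k' : ℕ) :
    ct i' k' (S.vT W) = ct i' k' v := S.ctT W (S.vT W) i' k'

lemma StG.cls (W : WC r i m K N b θ) (S : StG i m k p N b θ f v Nc co)
    (L : Finset (QT m N v)) (hL : ∀ x y, x ≤ y → x ∈ L → y ∈ L) (hv : S.vT W ∈ L) (n : ℕ)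
    (hn : n < p) : (1 + X : ℤ[X]) ^ 2 ∣ Z {x // x ∈ L} (i + k) n := by
  obtain ⟨L', h1, h2, h3, h4⟩ := S.Z_T W hL
  rw [h4]
  have h5 : i + k = 2 * m - 7 := by
    have := S.hk
    omega
  rw [h5]
  exact S.td.cl L' h1 h2 ((h3 _).mp hv) n hn

lemma StG.T_dvd (W : WC r i m K N b θ) (S : StG i m k p N b θ f v Nc co) {β : P → ℕ}
    (hv : β v = k) (hv' : ∀ x, x ∉ Rq m N v → topOf x = topOf v → β x ≤ k) {a : ℕ}
    (ha : a < ct i k v + p) :
    (1 + X : ℤ[X]) ^ 2 ∣ ZB (P := QT m N v) i ∅ 0 (fun x => β x.1.1) a := by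
  refine StA_dvd (v := S.vT W) (k := k) (p := p) (fun x => hv' _ x.1.2 x.2) hv (S.cls W) ?_
  rw [S.ct_v W]
  exact ha

lemma StG.T_lead (W : WC r i m K N b θ) (S : StG i m k p N b θ f v Nc co) {β : P → ℕ}
    (hv : β v = k) (hv' : ∀ x, x ∉ Rq m N v → topOf x = topOf v → x ≠ v → β x = 0) :
    (1 + X : ℤ[X]) ^ 2 ∣ ZB (P := QT m N v) i ∅ 0 (fun x => β x.1.1) (ct i k v + p) +
      X ^ (i + k + 2) * (1 + X) := by
  classical
  have him := W.him
  have hk := S.hk
  have hk1 := S.k_pos W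
  have e1 : (fun x : QT m N v => β x.1.1) = sgz (S.vT W) k := by
    funext x
    by_cases hx : x = S.vT W
    · rw [hx, sgz_self]
      exact hv
    · rw [sgz_ne _ hx]
      refine hv' _ x.1.2 x.2 fun h => hx ?_
      exact Subtype.ext (Subtype.ext h)
  rw [e1, ← S.ct_v W]
  refine StA_lead hk1 (by rw [S.lev_vT W]; omega) ?_ (S.cls W) ?_
  · intro x hx
    rw [S.levT W]
    have h1 := S.mem_T W x.1.2 x.2
    have h2 := S.td.out x.1.1 h1.1 h1.2 (fun h => hx h)
    omega
  · intro L hL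
    have hLup : ∀ x y : QT m N v, x ≤ y → x ∈ L → y ∈ L := fun x y hxy hx =>
      (hL y).mpr (((hL x).mp hx).trans hxy)
    obtain ⟨L', h1, h2, h3, h4⟩ := S.Z_T W hLup
    rw [h4]
    have h5 : i + k = 2 * m - 7 := by omega
    rw [h5]
    refine S.td.ld L' fun x => ?_
    constructor
    · intro hx
      have h6 := mem_lowPart.mp (h1 hx)
      have h7 : x ∉ Rq m N v := S.off W h6.2
      have h8 : topOf x = topOf v := (StC_top_iff W h6.2 _).mpr h6.1
      have h9 := (h3 ⟨⟨x, h7⟩, h8⟩).mpr hx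
      exact (hL _).mp h9
    · intro hx
      have h7 : x ∉ Rq m N v := S.up W _ _ hx (S.off W S.td.lev.le)
      have h8 : topOf x = topOf v := (S.cp W hx (S.off W S.td.lev.le)).symm
      exact (h3 ⟨⟨x, h7⟩, h8⟩).mp ((hL _).mpr hx)

lemma StG.R_zero (W : WC r i m K N b θ) (S : StG i m k p N b θ f v Nc co) {β : P → ℕ}
    (hf : k ≤ β f) {n : ℕ} (hn : n < ct i k f) :
    ZB (P := QR m N v) i ∅ 0 (fun x => β x.1.1) n = 0 := by
  have him := W.him
  refine ZB_bound_zero (z := S.fR W) (by rw [S.lev_fR W]; have := W.hi; omega) ?_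
  rw [S.ctR W]
  have h2 := ct_mono (i := i) (le_refl f) hf
  have h3 : ct i (β f) f = ct i (β (S.fR W).1.1) ((S.fR W).1.1 : P) := rfl
  rw [← h3]
  omega

/-- the energies below the first pole -/
theorem StG.main_lt (W : WC r i m K N b θ) (S : StG i m k p N b θ f v Nc co) {β : P → ℕ}
    (hv : β v = k) (hv' : ∀ x, x ∉ Rq m N v → topOf x = topOf v → β x ≤ k)
    (hf : k ≤ β f)
    (hβ : ∀ x, x ∉ Rq m N v → topOf x ≠ topOf v → β x ≤ thX (twY (2 * m) N) (twT N)
      (fun x => tq i θ f Nc co (topOf x) x) x) {n : ℕ}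
    (hn : n < ct i k f + ct i k v + p) (hnK : n < K - 1) :
    (1 + X : ℤ[X]) ^ (lv P i).card ∣ ZB i (Rq m N v) 0 β n := by
  have h2 := S.two_le W
  rw [S.prod W]
  refine Finset.dvd_sum fun ab hab => ?_
  rw [HasAntidiagonal.mem_antidiagonal] at hab
  rcases Nat.lt_or_ge ab.2 (ct i k f) with h | h
  · rw [S.R_zero W hf h, mul_zero]
    exact dvd_zero _
  · rw [show (lv P i).card = 2 + ((lv P i).card - 2) by omega, pow_add]
    exact mul_dvd_mul (S.T_dvd W hv hv' (by omega)) (S.dvd_R W β hβ (by omega))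

/-- the number of elements above the fold end -/
lemma StG.nab_i (W : WC r i m K N b θ) (S : StG i m k p N b θ f v Nc co) : nab i f = 5 := by
  have him := W.him
  have h8 := S.h8
  have hk := S.hk
  have h1 := W.fold_prof S.fold (2 * m - i) (by omega)
  rw [show 2 * m - (2 * m - i) = i by omega] at h1
  unfold pF at h1
  omega

lemma StG.nab_A (W : WC r i m K N b θ) (S : StG i m k p N b θ f v Nc co) :
    nab (i + k) f = 4 := by
  have him := W.him
  have h8 := S.h8
  have hk := S.hk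
  have h1 := W.fold_prof S.fold 7 (by omega)
  rw [show 2 * m - 7 = i + k by omega] at h1
  unfold pF at h1
  have := W.hmi
  omega

/-- the rest at its lowest energy -/
lemma StG.R_lead (W : WC r i m K N b θ) (S : StG i m k p N b θ f v Nc co) {β : P → ℕ}
    (hf : β f = k) (hf' : ∀ x, x ∉ Rq m N v → topOf x ≠ topOf v → x ≠ f → β x = 0) :
    ZB (P := QR m N v) i ∅ 0 (fun x => β x.1.1) (ct i k f) =
      X ^ (below (QR m N v) i + nst i (fun _ => k) f) * (1 + X) ^ ((lv P i).card - 2) := by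
  have him := W.him
  have hk := S.hk
  have hk1 := S.k_pos W
  have e1 : (fun x : QR m N v => β x.1.1) = sgz (S.fR W) k := by
    funext x
    by_cases hx : x = S.fR W
    · rw [hx, sgz_self]
      exact hf
    · rw [sgz_ne _ hx]
      refine hf' _ x.1.2 x.2 fun h => hx ?_
      exact Subtype.ext (Subtype.ext h)
  have hgr : GradedBelow (QR m N v) :=
    gbel_sub (S.upR W) (gbel_sub (S.up W) W.gt.H.gradedBelow)
  have h1 := ZD_lead (i := i) (k := k) (z := S.fR W) hgr hk1 (by rw [S.lev_fR W]; omega)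
  have h2 : ct i k (S.fR W) = ct i k f := S.ctR W (S.fR W) i k
  rw [h2] at h1
  rw [e1]
  refine Eq.trans h1 ?_
  unfold Lt
  have n0 : nab i (S.fR W) = 5 := by
    rw [S.nabR W]
    exact S.nab_i W
  have n1 : nab (i + k) (S.fR W) = 4 := by
    rw [S.nabR W]
    exact S.nab_A W
  have n2 : nst i (fun _ => k) (S.fR W) = nst i (fun _ => k) f := S.nstR W (S.fR W) i k
  have h4 := S.lv_R W
  have h5 := nab_le (S.fR W) i
  rw [n0] at h5
  simp only
  rw [n0, n1, n2]
  congr 2
  omega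

/-- the first pole -/
theorem StG.main_eq (W : WC r i m K N b θ) (S : StG i m k p N b θ f v Nc co) {β : P → ℕ}
    (hv : β v = k) (hv' : ∀ x, x ∉ Rq m N v → topOf x = topOf v → x ≠ v → β x = 0)
    (hf : β f = k) (hf' : ∀ x, x ∉ Rq m N v → topOf x ≠ topOf v → x ≠ f → β x = 0)
    (hβ : ∀ x, x ∉ Rq m N v → topOf x ≠ topOf v → β x ≤ thX (twY (2 * m) N) (twT N)
      (fun x => tq i θ f Nc co (topOf x) x) x) (hnK : ct i k f + ct i k v + p < K - 1) :
    (1 + X : ℤ[X]) ^ (lv P i).card ∣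
      ZB i (Rq m N v) 0 β (ct i k f + ct i k v + p) -
        X ^ (below P i + k + 3 + nst i (fun _ => k) f) * (1 + X) ^ ((lv P i).card - 1) := by
  classical
  have h2 := S.two_le W
  have hbel := S.below_R W
  have hvk : ∀ x, x ∉ Rq m N v → topOf x = topOf v → β x ≤ k := by
    intro x hx ht
    by_cases h : x = v
    · rw [h, hv]
    · rw [hv' x hx ht h]
      exact Nat.zero_le _
  have hmem : ((ct i k v + p, ct i k f) : ℕ × ℕ) ∈ antidiagonal (ct i k f + ct i k v + p) := by
    rw [HasAntidiagonal.mem_antidiagonal]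
    simp only
    omega
  rw [S.prod W, ← Finset.add_sum_erase _ _ hmem]
  simp only
  rw [S.R_lead W hf hf']
  have h3 : (1 + X : ℤ[X]) ^ (lv P i).card ∣
      ∑ ab ∈ (antidiagonal (ct i k f + ct i k v + p)).erase (ct i k v + p, ct i k f),
      ZB (P := QT m N v) i ∅ 0 (fun x => β x.1.1) ab.1 *
        ZB (P := QR m N v) i ∅ 0 (fun x => β x.1.1) ab.2 := by
    refine Finset.dvd_sum fun ab hab => ?_
    rw [mem_erase, HasAntidiagonal.mem_antidiagonal] at hab
    obtain ⟨hne, hab⟩ := hab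
    rcases Nat.lt_or_ge ab.2 (ct i k f) with h | h
    · rw [S.R_zero W hf.ge h, mul_zero]
      exact dvd_zero _
    · rcases Nat.lt_or_ge ab.1 (ct i k v + p) with h4 | h4
      · rw [show (lv P i).card = 2 + ((lv P i).card - 2) by omega, pow_add]
        exact mul_dvd_mul (S.T_dvd W hv hvk h4) (S.dvd_R W β hβ (by omega))
      · exfalso
        exact hne (Prod.ext (by simp only; omega) (by simp only; omega))
  obtain ⟨q1, hq1⟩ := S.T_lead W hv hv'
  obtain ⟨q2, hq2⟩ := h3
  rw [hq2]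
  have e1 : ZB (P := QT m N v) i ∅ 0 (fun x => β x.1.1) (ct i k v + p) =
      (1 + X) ^ 2 * q1 - X ^ (i + k + 2) * (1 + X) := by
    rw [← hq1]
    ring
  rw [e1]
  obtain ⟨c, hc⟩ : ∃ c, (lv P i).card = c + 2 := ⟨(lv P i).card - 2, by omega⟩
  rw [hc, show c + 2 - 2 = c by omega, show c + 2 - 1 = c + 1 by omega, ← hbel]
  refine ⟨q1 * X ^ (below (QR m N v) i + nst i (fun _ => k) f) + q2 -
    X ^ (i + k + 2 + (below (QR m N v) i + nst i (fun _ => k) f)), ?_⟩
  ring

end Pool.Agent.GaussPoset.Fi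

end

/-! From `Pool.Agent.W_448s8f_h15.StE` -/

section

/-!
The labels below a star family, the first pole (MP_448cb3_co, S8, small `m`).
-/

namespace Pool.Agent.GaussPoset.Fi

set_option linter.unusedSectionVars false

open Polynomial Finset

universe u

variable {P : Type u} [Fintype P] [PartialOrder P] [DecidableEq P] {r i m K k p N1 : ℕ}
  {N : Tops P → Finset P} {b : Tops P → ℕ} {θ : Tops P → P → ℕ}
  {f v : P} {Nc : Finset P} {co : P → ℕ × ℕ}

/-- one more label costs at least the number of the levels -/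
lemma StE_ct_succ {x : P} {a l : ℕ} (hl : lev x = l) (ha : i + k + a = l) :
    ct i k x + a ≤ ct i (k + 1) x := by
  unfold ct
  rw [cst_eq, cst_eq, hl]
  have h1 : ∀ t ∈ range (l + 1), min k (t - i) * nab t x + (if i + k < t then 1 else 0) ≤
      min (k + 1) (t - i) * nab t x := by
    intro t ht
    rw [mem_range] at ht
    have h2 : 1 ≤ nab t x := one_le_nab (by omega)
    split_ifs with h3
    · rw [show min (k + 1) (t - i) = min k (t - i) + 1 by omega, add_mul, one_mul]
      omega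
    · rw [Nat.add_zero]
      exact Nat.mul_le_mul_right _ (min_le_min (Nat.le_succ k) le_rfl)
  refine le_trans ?_ (Finset.sum_le_sum h1)
  rw [Finset.sum_add_distrib]
  refine Nat.add_le_add_left ?_ _
  rw [← Finset.sum_filter, Finset.sum_const, smul_eq_mul, mul_one]
  have h4 : Finset.Ico (i + k + 1) (l + 1) ⊆ (range (l + 1)).filter (fun t => i + k < t) := by
    intro t ht
    rw [Finset.mem_Ico] at ht
    rw [mem_filter, mem_range]
    omega
  have h5 := Finset.card_le_card h4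
  rw [Nat.card_Ico] at h5
  omega

/-- a star join below `f` and `v` -/
structure StJ (i m k : ℕ) (N : Tops P → Finset P) (θ : Tops P → P → ℕ) (f v z : P) : Prop where
  bd : z ∈ bdR (r2 (2 * m) N)
  hl : lev z = 2 * m + 1
  zf : z ⋖ f
  zv : z ⋖ v
  lab : h2 (2 * m) N θ z = k

lemma StE_not_tw {x : P} (hl : lev x ≤ 2 * m) : x ∉ twY (2 * m) N := by
  intro h
  have := (mem_twY.mp h).2.1
  omega

lemma StE_not_r2 (W : WC r i m K N b θ) {x : P} (hl : lev x ≤ 2 * m) : x ∉ r2 (2 * m) N :=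
  fun h => W.wi.low hl (mem_sdiff.mp h).1

/-- the label of a star join -/
lemma StG.label (W : WC r i m K N b θ) (S : StG i m k p N b θ f v Nc co) {z : P}
    (hz : z ∈ bdR (r2 (2 * m) N)) (zf : z ⋖ f) (zv : z ⋖ v) : h2 (2 * m) N θ z = k := by
  have H := W.gt.H
  have hk := S.hk
  have hfv : f ≠ v := fun h => S.ne (by rw [h])
  have h1 : h2 (2 * m) N θ z ≤ k := by
    have h2 := hcan_le (θ := thX (twY (2 * m) N) (twT N) (fun x => θ (topOf x) x))
      (StE_not_r2 W S.fold.1.le) zf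
    rw [thX_not (StE_not_tw S.fold.1.le), S.th_f0 W] at h2
    exact h2
  obtain ⟨x, hx, hzx, hh⟩ := hcan_spec
    (θ := thX (twY (2 * m) N) (twT N) (fun x => θ (topOf x) x)) hz
  rcases uc_pair H zf zv hfv hzx with h | h
  · subst h
    rw [thX_not (StE_not_tw S.fold.1.le), S.th_f0 W] at hh
    exact hh
  · subst h
    rw [thX_not (StE_not_tw S.td.lev.le), S.q2] at hh
    simp only at hh
    have h3 := S.td.lev
    have h4 : h2 (2 * m) N θ z = hcan (r2 (2 * m) N)
      (thX (twY (2 * m) N) (twT N) (fun x => θ (topOf x) x)) z := rfl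
    omega

lemma StG.dis (W : WC r i m K N b θ) (S : StG i m k p N b θ f v Nc co) {x : P} (h1 : f ≤ x)
    (h2 : v ≤ x) : False :=
  StC_disjL W S.fold.1.le S.td.lev.le S.ne h1 h2

lemma StE_key {a w : P} (hw : lev w = 2 * m + 1) (ha : lev a = 2 * m) : ¬ a ≤ w := by
  intro haw
  rcases eq_or_lt_of_le haw with h | h
  · rw [h] at ha
    omega
  · have := lev_strictAnti h
    omega

/-- the cost of a star join -/
lemma StG.cst_ge (W : WC r i m K N b θ) (S : StG i m k p N b θ f v Nc co) {z : P}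
    (Z : StJ i m k N θ f v z) :
    ct i k f + ct i k v + k ≤ cst i (h2 (2 * m) N θ) z := by
  classical
  have hk := S.hk
  have hl := Z.hl
  have h1 := two_anchor (m := i) (f := f) (v := v) (e := ez i (h2 (2 * m) N θ) z)
    (c := ez i (h2 (2 * m) N θ) z) (k1 := k) (k2 := k)
    (fun x hx => by
      unfold ez
      rw [if_pos (Z.zf.1.le.trans hx), Z.lab])
    (fun x hx => by
      unfold ez
      rw [if_pos (Z.zv.1.le.trans hx), Z.lab])
    (fun x => S.dis W) {z} (fun w hw => by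
      rw [mem_singleton] at hw
      rw [hw]
      exact ⟨StE_key hl S.fold.1, StE_key hl S.td.lev⟩) (fun _ _ => le_rfl)
  rw [Finset.sum_singleton] at h1
  have h2 : ez i (h2 (2 * m) N θ) z z = k := by
    unfold ez
    rw [if_pos le_rfl, Z.lab]
    omega
  rw [h2] at h1
  exact h1

/-- an element of the frozen set in the filter costs too much -/
lemma StG.no_filter (W : WC r i m K N b θ) (S : StG i m k p N b θ f v Nc co) {e : P → ℕ}
    {F : Finset P} (hV : Vd i e F) {n : ℕ} (hs : ∑ x, e x = n)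
    (hn : n ≤ ct i k f + ct i k v + k + p) {z : P}
    (Z : StJ i m k N θ f v z) (hd : Dgz (h2 (2 * m) N θ) e F z) {x : P} (hx : x ∈ Rq m N v) :
    x ∉ F := by
  classical
  intro hxF
  have hk := S.hk
  have hp := S.td.p_le
  have hlx := S.lev_Rq W hx
  obtain ⟨y1, hy1, hl1⟩ := exists_above' (x := x) (j := 2 * m + 1) (by omega)
  obtain ⟨y2, hy2, hl2⟩ := exists_above' (x := x) (j := 2 * m) (by omega)
  have f1 := sub_le_of_mem hV (hV.1 x y1 hy1 hxF)
  have f2 := sub_le_of_mem hV (hV.1 x y2 hy2 hxF)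
  have hc := ez_le hV (by rw [Z.hl]; omega) hd
  have hcb : ∀ y, ez i (h2 (2 * m) N θ) z y ≤ k := by
    intro y
    unfold ez
    split_ifs
    · rw [Z.lab]
      exact min_le_left _ _
    · exact Nat.zero_le _
  have hne : y1 ≠ y2 := by
    rintro rfl
    omega
  have h1 : ∑ y, (ez i (h2 (2 * m) N θ) z y + ((if y = y1 then 8 else 0) +
      (if y = y2 then 7 else 0))) ≤ ∑ y, e y := by
    refine Finset.sum_le_sum fun y _ => ?_
    have hcy := hc y
    have hby := hcb y
    by_cases g1 : y = y1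
    · subst g1
      rw [if_pos rfl, if_neg hne]
      omega
    · rw [if_neg g1, Nat.zero_add]
      by_cases g2 : y = y2
      · subst g2
        rw [if_pos rfl]
        omega
      · rw [if_neg g2, Nat.add_zero]
        exact hcy
  rw [Finset.sum_add_distrib, Finset.sum_add_distrib, Finset.sum_ite_eq' univ y1,
    Finset.sum_ite_eq' univ y2, if_pos (mem_univ _), if_pos (mem_univ _)] at h1
  have h2 := S.cst_ge W Z
  unfold cst at h2
  omega

/-- the labels of configurations of small energy -/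
theorem StG.good_labels (W : WC r i m K N b θ) (S : StG i m k p N b θ f v Nc co)
    {g e : P → ℕ} {F : Finset P} (hC : Cst i (Rq m N v) g 0 e F) {n : ℕ} (hs : ∑ x, e x = n)
    (hn : n ≤ ct i k f + ct i k v + k + p) {z : P} (Z : StJ i m k N θ f v z) (hg : k ≤ g z)
    (hU : ∀ y ∈ bdR (r2 (2 * m) N), y ∉ fam m N z → n < Uu i (h2 (2 * m) N θ) z y) :
    (∀ y ∈ Rq m N v, ∀ x, x ∉ Rq m N v → y ⋖ x → topOf x = topOf v → g y ≤ k) ∧
    ∀ y ∈ Rq m N v, ∀ x, x ∉ Rq m N v → y ⋖ x → topOf x ≠ topOf v →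
      g y ≤ thX (twY (2 * m) N) (twT N) (fun x => tq i θ f Nc co (topOf x) x) x := by
  classical
  have hk := S.hk
  have hk1 := S.k_pos W
  have hp := S.td.p_le
  have hp1 := S.td.pos
  have H := W.gt.H
  obtain ⟨hV, hR, -⟩ := hC
  have hzR : z ∈ Rq m N v := (S.mem_Rq W).mpr (Or.inl (bd_mem Z.bd))
  have hez : k ≤ e z := by
    rw [(hR z hzR).2]
    exact hg
  have hfv : f ≠ v := fun h => S.ne (by rw [h])
  have hup : ∀ (w : P), i < lev w → ∀ k', k' ≤ e w → ∀ x, w ≤ x →
      min k' (lev x - i) ≤ e x := by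
    intro w hw k' hk' x hx
    have h1 := ez_le (h := fun _ => k') hV hw (Or.inr hk') x
    unfold ez at h1
    rwa [if_pos hx] at h1
  have hnot : ∀ w : P, lev w = 2 * m + 1 → ¬ f ≤ w ∧ ¬ v ≤ w := fun w hw =>
    ⟨StE_key hw S.fold.1, StE_key hw S.td.lev⟩
  have hzf : ∀ x, f ≤ x → min k (lev x - i) ≤ e x := fun x hx =>
    hup z (by rw [Z.hl]; omega) _ hez x (Z.zf.1.le.trans hx)
  have hzv : ∀ x, v ≤ x → min k (lev x - i) ≤ e x := fun x hx =>
    hup z (by rw [Z.hl]; omega) _ hez x (Z.zv.1.le.trans hx)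
  have hcf := StE_ct_succ (i := i) (k := k) (x := f) (a := 7) S.fold.1 hk
  have hcv := StE_ct_succ (i := i) (k := k) (x := v) (a := 7) S.td.lev hk
  have hG1 : ∀ y ∈ Rq m N v, y ⋖ v → g y ≤ k := by
    intro y hy hyv
    by_contra hcon
    have hly : lev y = 2 * m + 1 := by
      have h1 := (H.covBy_iff.mp hyv).2
      have h2 := S.td.lev
      omega
    have hey : k + 1 ≤ e y := by
      rw [(hR y hy).2]
      omega
    by_cases hyz : y = z
    · subst hyz
      have h1 := two_anchor (m := i) (f := f) (v := v) (e := e) (c := e) (k1 := k + 1)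
        (k2 := k + 1)
        (fun x hx => hup y (by omega) _ hey x (Z.zf.1.le.trans hx))
        (fun x hx => hup y (by omega) _ hey x (Z.zv.1.le.trans hx))
        (fun x => S.dis W) {y} (fun w hw => by
          rw [mem_singleton] at hw
          rw [hw]
          exact hnot y hly) (fun _ _ => le_rfl)
      rw [Finset.sum_singleton] at h1
      omega
    · have h1 := two_anchor (m := i) (f := f) (v := v) (e := e) (c := e) (k1 := k)
        (k2 := k + 1) hzf
        (fun x hx => hup y (by omega) _ hey x (hyv.1.le.trans hx))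
        (fun x => S.dis W) {y, z} (fun w hw => by
          rw [mem_insert, mem_singleton] at hw
          rcases hw with rfl | rfl
          · exact hnot w hly
          · exact hnot w Z.hl) (fun _ _ => le_rfl)
      rw [Finset.sum_pair hyz] at h1
      omega
  refine ⟨?_, ?_⟩
  · intro y hy x hx hyx hxt
    by_cases hxv : x = v
    · subst hxv
      exact hG1 y hy hyx
    · by_contra hcon
      have hT := S.mem_T W hx hxt
      have hly0 := S.lev_Rq W hy
      have hcyx := (H.covBy_iff.mp hyx).2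
      have hlx : lev x = 2 * m := by omega
      have hly : lev y = 2 * m + 1 := by omega
      have hey : k + 1 ≤ e y := by
        rw [(hR y hy).2]
        omega
      have hyz : y ≠ z := by
        rintro rfl
        rcases uc_pair H Z.zf Z.zv hfv hyx with h | h
        · exact S.ne (by rw [← h, hxt])
        · exact hxv h
      set T0 : Finset P := univ.filter (fun w => x ≤ w ∧ ¬ v ≤ w) with hT0
      have hmT : ∀ w, w ∈ T0 ↔ x ≤ w ∧ ¬ v ≤ w := fun w => by
        rw [hT0, mem_filter]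
        simp
      have hot := (S.td.ot x hT.1 hlx hxv T0 hmT).1
      have hyT : y ∉ insert z T0 := by
        rw [mem_insert, hmT]
        rintro (h | h)
        · exact hyz h
        · exact StE_key hly hlx h.1
      have hzT : z ∉ T0 := by
        rw [hmT]
        intro h
        exact StE_key Z.hl hlx h.1
      have h1 := two_anchor (m := i) (f := f) (v := v) (e := e)
        (c := fun w => if w = z then k else k + 1) (k1 := k) (k2 := k) hzf hzv
        (fun x => S.dis W) (insert y (insert z T0)) (fun w hw => by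
          rw [mem_insert, mem_insert, hmT] at hw
          rcases hw with rfl | rfl | hw
          · exact hnot w hly
          · exact hnot w Z.hl
          · exact ⟨fun h => StC_disjL W S.fold.1.le hlx.le (by rw [hxt]; exact S.ne) h hw.1,
              hw.2⟩) (fun w hw => by
          show (if w = z then k else k + 1) ≤ e w
          rw [mem_insert, mem_insert, hmT] at hw
          split_ifs with h
          · rw [h]
            exact hez
          · rcases hw with rfl | rfl | hw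
            · exact hey
            · exact absurd rfl h
            · have h3 := hup y (by omega) _ hey w (hyx.1.le.trans hw.1)
              have h4 : topOf w = topOf v := by
                rw [← hxt]
                exact (S.cp W hw.1 hx).symm
              have h5 := S.mem_T W (S.up W _ _ hw.1 hx) h4
              have h6 := S.td.out w h5.1 h5.2 hw.2
              omega)
      rw [Finset.sum_insert hyT, Finset.sum_insert hzT, if_neg hyz, if_pos rfl,
        Finset.sum_congr rfl (g := fun _ => k + 1) (fun w hw => by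
          rw [if_neg]
          rintro rfl
          exact hzT hw), Finset.sum_const, smul_eq_mul] at h1
      have h2 : p * 2 ≤ (k + 1) + T0.card * (k + 1) := by
        calc p * 2 ≤ (1 + T0.card) * (k + 1) := Nat.mul_le_mul hot (by omega)
          _ = (k + 1) + T0.card * (k + 1) := by ring
      omega
  · intro y hy x hx hyx hxt
    -- the element `y` is a boundary element of the old set
    have hyR : y ∈ r2 (2 * m) N := by
      rcases (S.mem_Rq W).mp hy with h | ⟨h1, h2⟩
      · exact h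
      · by_contra hcon
        have hyY : y ∉ twY (2 * m) N := fun h => S.tw_ne W h h1
        have hyN : y ∉ unnat N := fun h => hcon (mem_sdiff.mpr ⟨h, hyY⟩)
        exact hxt ((W.wi.natSys.cp y x hyx.1.le hyN).symm.trans h1)
    have hxR : x ∉ r2 (2 * m) N := fun h => hx ((S.mem_Rq W).mpr (Or.inl h))
    have hyb : y ∈ bdR (r2 (2 * m) N) := mem_filter.mpr ⟨hyR, x, hxR, hyx⟩
    by_cases hyA : y ∈ fam m N z
    · have hup2 := (mem_fam.mp hyA).2
      have h1 : z ⋖ x := (cov_of_up hup2).mpr hyx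
      rcases uc_pair H Z.zf Z.zv hfv h1 with h2 | h2
      · subst h2
        rw [thX_not (StE_not_tw S.fold.1.le), S.th_f W]
        have h4 := hG1 y hy ((cov_of_up hup2).mp Z.zv)
        omega
      · exact absurd (by rw [h2]) hxt
    · have h1 := hU y hyb hyA
      have h3 : g y < h2 (2 * m) N θ y := by
        by_contra hcon
        have h4 : h2 (2 * m) N θ y ≤ e y := by
          rw [(hR y hy).2]
          exact not_lt.mp hcon
        have h5 := ez_le (h := h2 (2 * m) N θ) hV (by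
          have := S.lev_Rq W hy
          omega) (Or.inr h4)
        have h6 := ez_le (h := h2 (2 * m) N θ) (z := z) hV (by rw [Z.hl]; omega) (Or.inr (by
          rw [Z.lab]
          exact hez))
        have h7 : Uu i (h2 (2 * m) N θ) z y ≤ ∑ x, e x :=
          Finset.sum_le_sum fun w _ => max_le (h6 w) (h5 w)
        omega
      have h4 : h2 (2 * m) N θ y ≤
          thX (twY (2 * m) N) (twT N) (fun x => θ (topOf x) x) x + 1 := hcan_le hxR hyx
      have h5 : thX (twY (2 * m) N) (twT N) (fun x => θ (topOf x) x) x ≤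
          thX (twY (2 * m) N) (twT N) (fun x => tq i θ f Nc co (topOf x) x) x := by
        unfold thX
        split_ifs
        · exact S.th_le _ _
        · exact S.th_le _ _
      omega

/-- bounds from the labels -/
lemma StG.bg_v (W : WC r i m K N b θ) (S : StG i m k p N b θ f v Nc co) {g : P → ℕ}
    (h1 : ∀ y ∈ Rq m N v, ∀ x, x ∉ Rq m N v → y ⋖ x → topOf x = topOf v → g y ≤ k) {z : P}
    (Z : StJ i m k N θ f v z) (hg : k ≤ g z) : bg (Rq m N v) g 0 v = k := by
  have hzR : z ∈ Rq m N v := (S.mem_Rq W).mpr (Or.inl (bd_mem Z.bd))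
  exact le_antisymm (bg_le (Nat.zero_le _) (fun y hy hyv => h1 y hy v (S.off W S.td.lev.le)
    hyv rfl)) (hg.trans (le_bg' 0 hzR Z.zv))

/-- the contribution of a label -/
theorem StG.term_dvd (W : WC r i m K N b θ) (S : StG i m k p N b θ f v Nc co)
    {g : P → ℕ} (hg0 : ∀ x, x ∉ Rq m N v → g x = 0) {z : P} (Z : StJ i m k N θ f v z)
    (hg : k ≤ g z) {n : ℕ} (hn : n ≤ ct i k f + ct i k v + k + p) (hnK : n < K - 1)
    (hU : ∀ y ∈ bdR (r2 (2 * m) N), y ∉ fam m N z → n < Uu i (h2 (2 * m) N θ) z y)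
    (hne : ¬ (n = ct i k f + ct i k v + k + p ∧ g = sgz z k)) :
    (1 + X : ℤ[X]) ^ (lv P i).card ∣ ZB i (Rq m N v) g 0 n := by
  classical
  have him := W.him
  have hlev : ∀ x ∈ Rq m N v, i < lev x := fun x hx => by
    have := S.lev_Rq W hx
    omega
  have hzR : z ∈ Rq m N v := (S.mem_Rq W).mpr (Or.inl (bd_mem Z.bd))
  by_cases hex : ∃ e F, Cst i (Rq m N v) g 0 e F ∧ ∑ x, e x = n
  · obtain ⟨e, F, hC, hs⟩ := hex
    obtain ⟨G1, G2⟩ := S.good_labels W hC hs hn Z hg hU
    by_cases hc : ∀ x ∈ Rq m N v, ∀ y ∈ Rq m N v, x ≤ y → g x ≤ g y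
    · have hsum : g z ≤ ∑ x, g x := Finset.single_le_sum (fun _ _ => Nat.zero_le _) (mem_univ z)
      have hle : ∑ x, g x ≤ n := by
        rw [← hs]
        refine Finset.sum_le_sum fun x _ => ?_
        by_cases hx : x ∈ Rq m N v
        · exact (hC.2.1 x hx).2.ge
        · rw [hg0 x hx]
          exact Nat.zero_le _
      obtain ⟨n', hn'⟩ : ∃ n', n = n' + ∑ x, g x := ⟨n - ∑ x, g x, by omega⟩
      rw [hn', ZB_shift 0 (S.lower W) hlev hg0 hc]
      refine S.main_lt W (S.bg_v W G1 Z hg) (fun x hx ht => bg_le (Nat.zero_le _)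
          fun y hy hyx => G1 y hy x hx hyx ht)
        (hg.trans (le_bg' 0 hzR Z.zf)) (fun x hx ht => bg_le (Nat.zero_le _)
          fun y hy hyx => G2 y hy x hx hyx ht) ?_ (by omega)
      by_contra hcon
      refine hne ⟨by omega, ?_⟩
      have h5 : ∑ x, g x = k := by omega
      have h6 : g z = k := by omega
      funext x
      by_cases hx : x = z
      · rw [hx, sgz_self, h6]
      · rw [sgz_ne _ hx]
        have h7 : g z + g x ≤ ∑ x, g x := by
          rw [← Finset.add_sum_erase univ g (mem_univ z)]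
          exact Nat.add_le_add_left (Finset.single_le_sum (f := g) (fun _ _ => Nat.zero_le _)
            (mem_erase.mpr ⟨hx, mem_univ x⟩)) _
        omega
    · rw [ZB_zero_of_not_compat 0 hlev hc]
      exact dvd_zero _
  · have : ZB i (Rq m N v) g 0 n = 0 := by
      unfold ZB
      refine Finset.sum_eq_zero fun F _ => ?_
      rw [Finset.filter_eq_empty_iff.mpr, Finset.sum_empty]
      intro e he hC
      rw [mem_piAntidiag] at he
      exact hex ⟨e, F, hC, he.1⟩
    rw [this]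
    exact dvd_zero _

/-- the contribution of the lowest label -/
theorem StG.term_lead (W : WC r i m K N b θ) (S : StG i m k p N b θ f v Nc co) {z : P}
    (Z : StJ i m k N θ f v z) (hnK : ct i k f + ct i k v + k + p < K - 1) :
    (1 + X : ℤ[X]) ^ (lv P i).card ∣
      ZB i (Rq m N v) (sgz z k) 0 (ct i k f + ct i k v + k + p) -
      X ^ (below P i + k + 3 + nst i (fun _ => k) f) * (1 + X) ^ ((lv P i).card - 1) := by
  classical
  have him := W.him
  have H := W.gt.H
  have hlev : ∀ x ∈ Rq m N v, i < lev x := fun x hx => by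
    have := S.lev_Rq W hx
    omega
  have hzR : z ∈ Rq m N v := (S.mem_Rq W).mpr (Or.inl (bd_mem Z.bd))
  have hfv : f ≠ v := fun h => S.ne (by rw [h])
  have hsum : ∑ x, sgz z k x = k := by
    unfold sgz
    rw [Finset.sum_ite_eq' univ z, if_pos (mem_univ z)]
  have hle : ∀ y, sgz z k y ≤ k := by
    intro y
    unfold sgz
    split_ifs
    · exact le_rfl
    · exact Nat.zero_le _
  have hg0 : ∀ x, x ∉ Rq m N v → sgz z k x = 0 := fun x hx =>
    sgz_ne _ (fun h => hx (h ▸ hzR))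
  have hc : ∀ x ∈ Rq m N v, ∀ y ∈ Rq m N v, x ≤ y → sgz z k x ≤ sgz z k y := by
    intro x hx y hy hxy
    by_cases h1 : x = z
    · subst h1
      have h2 : y = x := by
        by_contra hne
        have h3 : x < y := lt_of_le_of_ne hxy (Ne.symm hne)
        have h4 := lev_strictAnti h3
        have h5 := S.lev_Rq W hy
        have h6 := Z.hl
        omega
      rw [h2]
    · rw [sgz_ne _ h1]
      exact Nat.zero_le _
  rw [show ct i k f + ct i k v + k + p = (ct i k f + ct i k v + p) + ∑ x, sgz z k x by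
    rw [hsum]
    omega, ZB_shift 0 (S.lower W) hlev hg0 hc]
  have hcov : ∀ x, z ⋖ x → x = f ∨ x = v := fun x hzx => uc_pair H Z.zf Z.zv hfv hzx
  refine S.main_eq W (S.bg_v W (fun y _ _ _ _ _ => hle y) Z (by rw [sgz_self]))
    ?_ ?_ ?_ ?_ (by omega)
  · intro x hx ht hxv
    refine Nat.le_zero.mp (bg_le (Nat.zero_le _) fun y hy hyx => ?_)
    by_cases h1 : y = z
    · subst h1
      rcases hcov x hyx with h | h
      · exact absurd (by rw [← h, ht]) S.ne
      · exact absurd h hxv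
    · rw [sgz_ne _ h1]
  · refine le_antisymm (bg_le (Nat.zero_le _) fun y _ _ => hle y) ?_
    have := le_bg' (g := sgz z k) 0 hzR Z.zf
    rwa [sgz_self] at this
  · intro x hx ht hxf
    refine Nat.le_zero.mp (bg_le (Nat.zero_le _) fun y hy hyx => ?_)
    by_cases h1 : y = z
    · subst h1
      rcases hcov x hyx with h | h
      · exact absurd h hxf
      · exact absurd (by rw [h]) ht
    · rw [sgz_ne _ h1]
  · intro x hx ht
    refine bg_le (Nat.zero_le _) fun y hy hyx => ?_
    by_cases h1 : y = z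
    · subst h1
      rcases hcov x hyx with h | h
      · subst h
        rw [thX_not (StE_not_tw S.fold.1.le), S.th_f W, sgz_self]
        omega
      · exact absurd (by rw [h]) ht
    · rw [sgz_ne _ h1]
      exact Nat.zero_le _

/-- **The star families**: the first pole is at `ct i k f + ct i k v + k + p`. -/
theorem WC.star (W : WC r i m K N b θ) {k p N1 : ℕ} (hk : i + k + 7 = 2 * m)
    (h8 : 2 * (i / 2) = 8) {z0 f v : P} (hz0 : z0 ∈ bdR (r2 (2 * m) N))
    (hl : lev z0 = 2 * m + 1) (hf : Fd m f) (hzf : z0 ⋖ f) (hzv : z0 ⋖ v)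
    (ht : topOf f ≠ topOf v) (g1 : N (topOf v) = onlyB (topOf v))
    (g2 : θ (topOf v) = fun x => lev x - i) (g3 : b (topOf v) = 1)
    (g5 : ∀ x, x ≤ (topOf v : P) → lev x ≤ 2 * m → x ∈ onlyB (topOf v))
    (D : TD m (topOf v) v p) (hN1 : N1 + 1 ≤ K)
    (hU : ∀ z ∈ fam m N z0, ∀ y ∈ bdR (r2 (2 * m) N), y ∉ fam m N z0 → ∀ n,
      n ≤ ct i k f + ct i k v + k + p → n < N1 → n < Uu i (h2 (2 * m) N θ) z y) :
    (∀ n < ct i k f + ct i k v + k + p, n < N1 → (1 + X : ℤ[X]) ^ (lv P i).card ∣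
      ZF i (h2 (2 * m) N θ) (fam m N z0) n) ∧
    (ct i k f + ct i k v + k + p < N1 → (1 + X : ℤ[X]) ^ (lv P i).card ∣
      ZF i (h2 (2 * m) N θ) (fam m N z0) (ct i k f + ct i k v + k + p) -
      ∑ _z ∈ fam m N z0, X ^ (below P i + k + 3 + nst i (fun _ => k) f) *
        (1 + X) ^ ((lv P i).card - 1)) := by
  classical
  have H := W.gt.H
  obtain ⟨Nc, co, hFT⟩ := W.fold_typ hf
  have S : StG i m k p N b θ f v Nc co := ⟨hf, hFT, g1, g2, g3, g5, D, ht, hk, h8⟩
  have hk1 := S.k_pos W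
  have hZ : ∀ z ∈ fam m N z0, StJ i m k N θ f v z := by
    intro z hz
    obtain ⟨h1, h2⟩ := mem_fam.mp hz
    have hlz : lev z = 2 * m + 1 := by
      rw [← lev_eq_of_up h2]
      exact hl
    have h3 := (cov_of_up h2).mp hzf
    have h4 := (cov_of_up h2).mp hzv
    exact ⟨h1, hlz, h3, h4, S.label W h1 h3 h4⟩
  have hAR : fam m N z0 ⊆ Rq m N v := fun z hz =>
    (S.mem_Rq W).mpr (Or.inl (bd_mem (hZ z hz).bd))
  have hU' : ∀ z ∈ fam m N z0, ∀ n, n ≤ ct i k f + ct i k v + k + p → n < N1 →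
      ∀ y ∈ bdR (r2 (2 * m) N), y ∉ fam m N z → n < Uu i (h2 (2 * m) N θ) z y := by
    intro z hz n hn hn1 y hy hyz
    rw [fam_eq hz] at hyz
    exact hU z hz y hy hyz n hn hn1
  set E := ct i k f + ct i k v + k + p with hE
  have hlab : ∀ n, n ≤ E → ZF i (h2 (2 * m) N θ) (fam m N z0) n =
      ∑ g ∈ Fintype.piFinset (fun _ : P => range (n + 1)),
        if (∀ x, x ∉ Rq m N v → g x = 0) ∧ (∃ z ∈ fam m N z0, h2 (2 * m) N θ z ≤ g z) then
          ZB i (Rq m N v) g 0 n else 0 := by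
    intro n hn
    refine ZF_labels hAR ?_
    rintro e F hV hs ⟨z, hz, hd⟩ x hx
    exact S.no_filter W hV hs hn (hZ z hz) hd hx
  constructor
  · intro n hn hn1
    rw [hlab n hn.le]
    refine Finset.dvd_sum fun g _ => ?_
    split_ifs with h
    · obtain ⟨h1, z, hz, h3⟩ := h
      rw [(hZ z hz).lab] at h3
      exact S.term_dvd W h1 (hZ z hz) h3 hn.le (by omega) (hU' z hz n hn.le hn1)
        (fun h4 => by omega)
    · exact dvd_zero _
  · intro hN
    rw [hlab _ le_rfl]
    set I := (fam m N z0).image (fun z => sgz z k) with hI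
    have hsub : I ⊆ Fintype.piFinset (fun _ : P => range (E + 1)) := by
      intro g hg
      obtain ⟨z, hz, rfl⟩ := mem_image.mp hg
      rw [Fintype.mem_piFinset]
      intro x
      rw [mem_range]
      unfold sgz
      split_ifs <;> omega
    have hinj : ∀ z ∈ fam m N z0, ∀ z' ∈ fam m N z0, sgz z k = sgz z' k → z = z' := by
      intro z _ z' _ h
      by_contra hzz
      have h1 := congrFun h z
      rw [sgz_self, sgz_ne _ hzz] at h1
      omega
    rw [← Finset.sum_sdiff hsub, hI, Finset.sum_image hinj, ← hI, add_sub_assoc,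
      ← Finset.sum_sub_distrib]
    refine dvd_add (Finset.dvd_sum fun g hg => ?_) (Finset.dvd_sum fun z hz => ?_)
    · split_ifs with h
      · obtain ⟨h1, z, hz, h3⟩ := h
        rw [(hZ z hz).lab] at h3
        refine S.term_dvd W h1 (hZ z hz) h3 le_rfl (by omega) (hU' z hz E le_rfl hN)
          (fun h4 => ?_)
        refine (mem_sdiff.mp hg).2 ?_
        rw [hI, h4.2]
        exact mem_image_of_mem _ hz
      · exact dvd_zero _
    · rw [if_pos]
      · exact S.term_lead W (hZ z hz) (by omega)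
      · refine ⟨fun x hx => sgz_ne _ (fun h => hx (h ▸ hAR hz)), z, hz, ?_⟩
        rw [sgz_self, (hZ z hz).lab]

end Pool.Agent.GaussPoset.Fi

end

/-! From `Pool.Agent.W_448s8f_h76.FiG` -/

section

/-!
Blockers: (C) joins and star joins; unions of the cheapest excess functions
(MP_448cb3_co, S8, small `m`).
-/

namespace Pool.Agent.GaussPoset.Fi

set_option linter.unusedSectionVars false

open Polynomial Finset

universe u

variable {P : Type u} [Fintype P] [PartialOrder P] [DecidableEq P] {r i m K N0 : ℕ}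
  {N : Tops P → Finset P} {b : Tops P → ℕ} {θ : Tops P → P → ℕ}

/-- (C) joins -/
def CC (m : ℕ) (z : P) : Prop := lev z = 2 * m + 1 ∧ ∃ x x', Fd m x ∧ (Win.uc x').card = 1 ∧
  topOf x' = topOf x ∧ x ≠ x' ∧ z ⋖ x ∧ z ⋖ x'

/-- the profile of a star end with first pole `p` -/
def pp (p : ℕ) : List ℕ := if p = 8 then q7 else p5

/-- a star join -/
structure SZ (m : ℕ) (z f v : P) (p : ℕ) : Prop where
  lev : Pool.Agent.GaussPoset.lev z = 2 * m + 1
  fd : Fd m f
  u1 : (Win.uc v).card = 1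
  ne : topOf f ≠ topOf v
  zf : z ⋖ f
  zv : z ⋖ v
  td : TD m (topOf v) v p
  pr : Prof m v (gD (pp p))

/-- star joins with first pole `p` -/
def St (m p : ℕ) (z : P) : Prop := ∃ f v, SZ m z f v p

lemma CC.same {z y : P} (h : CC m z) (hy : ∀ w, z < w ↔ y < w) : CC m y := by
  obtain ⟨hl, x, x', h1, h2, h3, h4, h5, h6⟩ := h
  exact ⟨by rw [← lev_eq_of_up hy]; exact hl, x, x', h1, h2, h3, h4,
    (cov_of_up hy).mp h5, (cov_of_up hy).mp h6⟩

lemma SZ.same {z y f v : P} {p : ℕ} (h : SZ m z f v p) (hy : ∀ w, z < w ↔ y < w) :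
    SZ m y f v p :=
  ⟨by rw [← lev_eq_of_up hy]; exact h.lev, h.fd, h.u1, h.ne, (cov_of_up hy).mp h.zf,
    (cov_of_up hy).mp h.zv, h.td, h.pr⟩

lemma St.same {z y : P} {p : ℕ} (h : St m p z) (hy : ∀ w, z < w ↔ y < w) : St m p y := by
  obtain ⟨f, v, h⟩ := h
  exact ⟨f, v, h.same hy⟩

/-- natural elements of different tops have no common upper bound -/
lemma WI.disjL (W : WI r i m K N b θ) {x x' y : P} (hx : lev x ≤ 2 * m) (hx' : lev x' ≤ 2 * m)
    (ht : topOf x ≠ topOf x') (h1 : x ≤ y) (h2 : x' ≤ y) : False :=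
  ht ((W.natSys.cp x y h1 (W.low hx)).trans (W.natSys.cp x' y h2 (W.low hx')).symm)

/-- lower bound of the union by a set of elements -/
lemma Uu_set {k : ℕ} {h : P → ℕ} {z z' : P} (hz : h z = k) (hz' : h z' = k) (hne : z ≠ z')
    (hlz : k ≤ lev z - i) (hlz' : k ≤ lev z' - i) (T : Finset P)
    (hT : ∀ x ∈ T, z < x ∨ z' < x) (h1 : z ∉ T) (h2 : z' ∉ T) :
    ∑ x ∈ T, min k (lev x - i) + 2 * k ≤ Uu i h z z' := by
  classical
  have h3 : ∑ x ∈ T, min k (lev x - i) + 2 * k =
      ∑ x : P, ((if x ∈ T then min k (lev x - i) else 0) +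
      ((if x = z then k else 0) + (if x = z' then k else 0))) := by
    rw [Finset.sum_add_distrib, Finset.sum_add_distrib, Finset.sum_ite_eq' univ z,
      Finset.sum_ite_eq' univ z', if_pos (mem_univ z), if_pos (mem_univ z'),
      Finset.sum_ite_mem, Finset.univ_inter]
    ring
  rw [h3]
  unfold Uu
  refine Finset.sum_le_sum fun x _ => ?_
  by_cases hxz : x = z
  · subst hxz
    rw [if_neg h1, if_pos rfl, if_neg hne]
    refine le_trans ?_ (le_max_left _ _)
    unfold ez
    rw [if_pos le_rfl, hz]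
    omega
  · by_cases hxz' : x = z'
    · subst hxz'
      rw [if_neg h2, if_neg (Ne.symm hne), if_pos rfl]
      refine le_trans ?_ (le_max_right _ _)
      unfold ez
      rw [if_pos le_rfl, hz']
      omega
    · rw [if_neg hxz, if_neg hxz']
      simp only [Nat.add_zero]
      split_ifs with hx
      · rcases hT x hx with h4 | h4
        · refine le_trans ?_ (le_max_left _ _)
          unfold ez
          rw [if_pos h4.le, hz]
        · refine le_trans ?_ (le_max_right _ _)
          unfold ez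
          rw [if_pos h4.le, hz']
      · exact Nat.zero_le _

/-- the sum over an up-set -/
lemma ct_filter (i k : ℕ) (x : P) [DecidablePred (fun y => x ≤ y)] :
    ∑ y ∈ univ.filter (fun y => x ≤ y), min k (lev y - i) = ct i k x := by
  rw [ct_eq_sum, Finset.sum_filter]
  refine Finset.sum_congr rfl fun y _ => ?_
  split_ifs <;> rfl

/-- two elements -/
lemma Uu_pair {k : ℕ} {h : P → ℕ} {z z' f f' : P} (hz : h z = k) (hz' : h z' = k) (hne : z ≠ z')
    (hlz : lev z = 2 * m + 1) (hlz' : lev z' = 2 * m + 1) (hk : k ≤ 2 * m + 1 - i)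
    (hzf : z ⋖ f) (hzf' : z' ⋖ f') (hlf : lev f = 2 * m) (hlf' : lev f' = 2 * m)
    (hdis : ∀ x, f ≤ x → f' ≤ x → False) :
    ct i k f + ct i k f' + 2 * k ≤ Uu i h z z' := by
  classical
  have hlow : ∀ a w : P, lev a = 2 * m → lev w = 2 * m + 1 → ¬ a ≤ w := by
    intro a w ha hw haw
    rcases eq_or_lt_of_le haw with h | h
    · rw [h] at ha
      omega
    · have := lev_strictAnti h
      omega
  have hff : f ≠ f' := by
    rintro rfl
    exact hdis f le_rfl le_rfl
  have h1 := Uu_ge (i := i) (h := h) hz hz' hne (by rw [hlz]; exact hk) (by rw [hlz']; exact hk)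
    {f, f'} (fun a ha => by
      rw [mem_insert, mem_singleton] at ha
      rcases ha with rfl | rfl
      · exact Or.inl hzf.1
      · exact Or.inr hzf'.1) (fun a ha => by
      rw [mem_insert, mem_singleton] at ha
      rcases ha with rfl | rfl
      · exact ⟨hlow _ _ hlf hlz, hlow _ _ hlf hlz'⟩
      · exact ⟨hlow _ _ hlf' hlz, hlow _ _ hlf' hlz'⟩) (fun a ha a' ha' hne' x _ h2 h3 => by
      rw [mem_insert, mem_singleton] at ha ha'
      rcases ha with rfl | rfl <;> rcases ha' with rfl | rfl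
      · exact hne' rfl
      · exact hdis x h2 h3
      · exact hdis x h3 h2
      · exact hne' rfl)
  rwa [Finset.sum_pair hff] at h1

/-- three elements -/
lemma Uu_triple {k : ℕ} {h : P → ℕ} {z z' f v v' : P} (hz : h z = k) (hz' : h z' = k)
    (hne : z ≠ z') (hlz : lev z = 2 * m + 1) (hlz' : lev z' = 2 * m + 1) (hk : k ≤ 2 * m + 1 - i)
    (hzf : z ⋖ f) (hzv : z ⋖ v) (hzv' : z' ⋖ v') (hlf : lev f = 2 * m) (hlv : lev v = 2 * m)
    (hlv' : lev v' = 2 * m) (hd1 : ∀ x, f ≤ x → v ≤ x → False)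
    (hd2 : ∀ x, f ≤ x → v' ≤ x → False) (hd3 : ∀ x, v ≤ x → v' ≤ x → False) :
    ct i k f + ct i k v + ct i k v' + 2 * k ≤ Uu i h z z' := by
  classical
  have hlow : ∀ a w : P, lev a = 2 * m → lev w = 2 * m + 1 → ¬ a ≤ w := by
    intro a w ha hw haw
    rcases eq_or_lt_of_le haw with h | h
    · rw [h] at ha
      omega
    · have := lev_strictAnti h
      omega
  have hfv : f ≠ v := by
    rintro rfl
    exact hd1 f le_rfl le_rfl
  have hfv' : f ≠ v' := by
    rintro rfl
    exact hd2 f le_rfl le_rfl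
  have hvv' : v ≠ v' := by
    rintro rfl
    exact hd3 v le_rfl le_rfl
  have h1 := Uu_ge (i := i) (h := h) hz hz' hne (by rw [hlz]; exact hk) (by rw [hlz']; exact hk)
    {f, v, v'} (fun a ha => by
      rw [mem_insert, mem_insert, mem_singleton] at ha
      rcases ha with rfl | rfl | rfl
      · exact Or.inl hzf.1
      · exact Or.inl hzv.1
      · exact Or.inr hzv'.1) (fun a ha => by
      rw [mem_insert, mem_insert, mem_singleton] at ha
      rcases ha with rfl | rfl | rfl
      · exact ⟨hlow _ _ hlf hlz, hlow _ _ hlf hlz'⟩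
      · exact ⟨hlow _ _ hlv hlz, hlow _ _ hlv hlz'⟩
      · exact ⟨hlow _ _ hlv' hlz, hlow _ _ hlv' hlz'⟩) (fun a ha a' ha' hne' x _ h2 h3 => by
      rw [mem_insert, mem_insert, mem_singleton] at ha ha'
      rcases ha with rfl | rfl | rfl <;> rcases ha' with rfl | rfl | rfl
      · exact hne' rfl
      · exact hd1 x h2 h3
      · exact hd2 x h2 h3
      · exact hd1 x h3 h2
      · exact hne' rfl
      · exact hd3 x h2 h3
      · exact hd2 x h3 h2
      · exact hd3 x h3 h2
      · exact hne' rfl)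
  rw [Finset.sum_insert (by
    rw [mem_insert, mem_singleton]
    exact fun h => h.elim hfv hfv'), Finset.sum_pair hvv'] at h1
  omega

/-- the boundary elements which are alive -/
inductive Al (i m k F0 L0 N1 : ℕ) (N : Tops P → Finset P) (θ : Tops P → P → ℕ) (y : P) : Prop
  | big (h : N1 ≤ cst i (h2 (2 * m) N θ) y)
  | jn (x x' : P) (hl : lev y = 2 * m + 1) (lab : h2 (2 * m) N θ y = k) (hx : Fd m x)
      (h1 : (Win.uc x').card = 1) (ht : topOf x ≠ topOf x') (hyx : y ⋖ x) (hyx' : y ⋖ x')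
  | cc (x x' : P) (hl : lev y = 2 * m + 1) (lab : h2 (2 * m) N θ y = k) (hx : Fd m x)
      (ht : topOf x' = topOf x) (hxx : x ≠ x') (hyx : y ⋖ x) (hyx' : y ⋖ x')
      (hc : F0 + L0 + k ≤ cst i (h2 (2 * m) N θ) y)

/-- the union for a star join -/
theorem WC.U_star (W : WC r i m K N b θ) {k F0 L0 N1 p : ℕ} {z f v : P} (hk : i + k + 7 = 2 * m)
    (S : SZ m z f v p) (hlab : h2 (2 * m) N θ z = k) (hF : ∀ f : P, Fd m f → ct i k f = F0)
    (hL : ∀ v : P, lev v = 2 * m → L0 ≤ ct i k v) (c1 : ct i k v + p < F0 + k)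
    (c2 : p < L0 + k) {y : P} (hA : Al i m k F0 L0 N1 N θ y) (hne : ¬ ∀ w, z < w ↔ y < w) {n : ℕ}
    (hn : n ≤ ct i k f + ct i k v + k + p) (hn1 : n < N1) :
    n < Uu i (h2 (2 * m) N θ) z y := by
  classical
  have H := W.gt.H
  have W' := W.wi
  have hi4 := W.hi
  have him := W.him
  have hzy : z ≠ y := by
    rintro rfl
    exact hne fun _ => Iff.rfl
  have hlf := S.fd.1
  have hlv : lev v = 2 * m := by
    have := (H.covBy_iff.mp S.zv).2
    have := S.lev
    omega
  have hFf := hF f S.fd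
  have hk1 : 1 ≤ k := by
    have := S.td.p_le
    by_contra hcon
    have h0 : k = 0 := by omega
    subst h0
    have h1 := hcan_spec (θ := thX (twY (2 * m) N) (twT N) (fun x => θ (topOf x) x)) (z := z)
      (R := r2 (2 * m) N)
    by_cases hb : z ∈ bdR (r2 (2 * m) N)
    · have := W'.farT.one_le z hb
      omega
    · exact hb (W'.mem_bd (W.join_r2 S.ne S.zf S.zv) S.lev)
  rcases hA with h | ⟨x, x', hl, lab, hx, h1, ht, hyx, hyx'⟩ | ⟨x, x', hl, lab, hx, ht, hxx, hyx, hyx', hc⟩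
  · have := Uu_right i (h2 (2 * m) N θ) z y
    omega
  · by_cases hfx : topOf x = topOf f
    · have hxf : x = f := W.fold_unique hx S.fd hfx
      subst hxf
      have hlx' : lev x' = 2 * m := by
        have := (H.covBy_iff.mp hyx').2
        omega
      have hvx : v ≠ x' := by
        intro h
        subst h
        exact hne fun w => (up_of_pair H S.zf S.zv hyx hyx' (fun h => ht (by rw [h])) w).symm
      by_cases hvt : topOf x' = topOf v
      · -- the same component
        set T : Finset P := (univ.filter (fun w => x ≤ w)) ∪ ((univ.filter (fun w => v ≤ w)) ∪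
          (univ.filter (fun w => x' ≤ w ∧ ¬ v ≤ w))) with hT
        have hnT : ∀ a : P, lev a = 2 * m + 1 → a ∉ T := by
          intro a ha h
          have key : ∀ c : P, lev c = 2 * m → c ≤ a → False := by
            intro c hc hca
            rcases eq_or_lt_of_le hca with h | h
            · rw [h] at hc
              omega
            · have := lev_strictAnti h
              omega
          rw [hT, mem_union, mem_union, mem_filter, mem_filter, mem_filter] at h
          rcases h with h | h | h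
          · exact key x hlf h.2
          · exact key v hlv h.2
          · exact key x' hlx' h.2.1
        have h3 := Uu_set (i := i) hlab lab hzy (by rw [S.lev]; omega) (by rw [hl]; omega) T (by
          intro w hw
          rw [hT, mem_union, mem_union, mem_filter, mem_filter, mem_filter] at hw
          rcases hw with hw | hw | hw
          · exact Or.inl (S.zf.1.trans_le hw.2)
          · exact Or.inl (S.zv.1.trans_le hw.2)
          · exact Or.inr (hyx'.1.trans_le hw.2.1)) (hnT z S.lev) (hnT y hl)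
        have hW : ∀ w ∈ univ.filter (fun w => x' ≤ w ∧ ¬ v ≤ w), min k (lev w - i) = k := by
          intro w hw
          rw [mem_filter] at hw
          have h4 := S.td.out w (by
            have h5 : topOf x' = topOf w := W'.natSys.cp x' w hw.2.1 (W'.low hlx'.le)
            rw [← hvt, h5]
            exact le_topOf w) (by
            rw [← hlx']
            rcases eq_or_lt_of_le hw.2.1 with h | h
            · rw [h]
            · exact (lev_strictAnti h).le) hw.2.2
          omega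
        rw [hT, Finset.sum_union, Finset.sum_union, ct_filter, ct_filter,
          Finset.sum_congr rfl hW, Finset.sum_const, smul_eq_mul] at h3
        · have h4 := (S.td.ot x' (by rw [← hvt]; exact le_topOf x') hlx' (Ne.symm hvx)
            (univ.filter (fun w => x' ≤ w ∧ ¬ v ≤ w)) (fun w => by simp)).2 h1
          have h5 : (univ.filter (fun w => x' ≤ w ∧ ¬ v ≤ w)).card ≤
              (univ.filter (fun w => x' ≤ w ∧ ¬ v ≤ w)).card * k :=
            Nat.le_mul_of_pos_right _ hk1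
          omega
        · rw [Finset.disjoint_left]
          intro w hw hw'
          exact (mem_filter.mp hw').2.2 (mem_filter.mp hw).2
        · rw [Finset.disjoint_left]
          intro w hw hw'
          rw [mem_union] at hw'
          have h4 := (mem_filter.mp hw).2
          rcases hw' with hw' | hw'
          · exact W'.disjL hlf.le hlv.le S.ne h4 (mem_filter.mp hw').2
          · exact W'.disjL hlf.le hlx'.le ht h4 (mem_filter.mp hw').2.1
      · have h3 := Uu_triple (i := i) hlab lab hzy S.lev hl (by omega) S.zf S.zv hyx' hlf hlv hlx'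
          (fun w => W'.disjL hlf.le hlv.le S.ne) (fun w => W'.disjL hlf.le hlx'.le ht)
          (fun w => W'.disjL hlv.le hlx'.le (Ne.symm hvt))
        have h4 := hL x' hlx'
        omega
    · have h3 := Uu_pair (i := i) hlab lab hzy S.lev hl (by omega) S.zf hyx hlf hx.1
        (fun w => W'.disjL hlf.le hx.1.le (Ne.symm hfx))
      rw [hF x hx] at h3
      omega
  · by_cases hfx : topOf x = topOf f
    · -- a (C) join over the same fold
      have hlx' : lev x' = 2 * m := by
        have := (H.covBy_iff.mp hyx').2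
        omega
      set T : Finset P := (univ.filter (fun w => y < w)) ∪ (univ.filter (fun w => v ≤ w)) with hT
      have hup : ∀ w, y < w → v ≤ w → False := by
        intro w hw hvw
        obtain ⟨c, hc1, hc2⟩ := Hul.exists_cov hw
        have hlc : lev c = 2 * m := by
          have := (H.covBy_iff.mp hc1).2
          omega
        refine W'.disjL hlc.le hlv.le ?_ hc2 hvw
        rcases uc_pair H hyx hyx' hxx hc1 with e | e
        · rw [e, hfx]
          exact S.ne
        · rw [e, ht, hfx]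
          exact S.ne
      have hyT : y ∉ T := by
        rw [hT, mem_union, mem_filter, mem_filter]
        rintro (h | h)
        · exact lt_irrefl _ h.2
        · rcases eq_or_lt_of_le h.2 with h' | h'
          · rw [h'] at hlv
            omega
          · have := lev_strictAnti h'
            omega
      have hzT : z ∉ T := by
        rw [hT, mem_union, mem_filter, mem_filter]
        have hlz := S.lev
        rintro (h | h)
        · have := lev_strictAnti h.2
          omega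
        · rcases eq_or_lt_of_le h.2 with h' | h'
          · rw [h'] at hlv
            omega
          · have := lev_strictAnti h'
            omega
      have h3 := Uu_set (i := i) hlab lab hzy (by rw [S.lev]; omega) (by rw [hl]; omega) T (by
        intro w hw
        rw [hT, mem_union, mem_filter, mem_filter] at hw
        rcases hw with hw | hw
        · exact Or.inr hw.2
        · exact Or.inl (S.zv.1.trans_le hw.2)) hzT hyT
      rw [hT, Finset.sum_union, ct_filter, Finset.sum_filter] at h3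
      · have h4 := ct_succ i k y
        rw [hl, Nat.min_eq_left (by omega)] at h4
        rw [cst_ct lab, h4] at hc
        have h5 : ∑ w, (if y < w then min k (lev w - i) else 0) =
            ∑ w, (by classical exact if y < w then min k (lev w - i) else 0) := by
          refine Finset.sum_congr rfl fun w _ => ?_
          split_ifs <;> rfl
        omega
      · rw [Finset.disjoint_left]
        intro w hw hw'
        exact hup w (mem_filter.mp hw).2 (mem_filter.mp hw').2
    · have h3 := Uu_pair (i := i) hlab lab hzy S.lev hl (by omega) S.zf hyx hlf hx.1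
        (fun w => W'.disjL hlf.le hx.1.le (Ne.symm hfx))
      rw [hF x hx] at h3
      omega

end Pool.Agent.GaussPoset.Fi

end

/-! From `Pool.Agent.W_448fc_h67.FcY` -/

section

/-!
The families of joins of the fold end with the straight end, generic window `m`.
-/

namespace Pool.Agent.GaussPoset.Fi

set_option linter.unusedSectionVars false

open Polynomial Finset

universe u

variable {P : Type u} [Fintype P] [PartialOrder P] [DecidableEq P] {r m K : ℕ}
  {N : Tops P → Finset P} {b : Tops P → ℕ} {θ : Tops P → P → ℕ}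

/-- the (C) joins -/
def CcI (m : ℕ) (N : Tops P → Finset P) (b : Tops P → ℕ) (θ : Tops P → P → ℕ) (z : P) : Prop :=
  lev z = 2 * m + 1 ∧ ∃ x x' Nc co, InS m m N b θ x Nc co ∧ co x = (m, m) ∧ x' ∈ Nc ∧
    co x' = (0, 2 * m) ∧ z ⋖ x ∧ z ⋖ x'

/-- the label of an element of level `2 m + 1` -/
lemma WI.h2_eqc (W : WI r m m K N b θ) {z x : P} (hz : z ∈ r2 (2 * m) N)
    (hl : lev z = 2 * m + 1)
    (hzx : z ⋖ x) (hmin : ∀ y, z ⋖ y → θ (topOf x) x ≤ θ (topOf y) y) :
    h2 (2 * m) N θ z = θ (topOf x) x + 1 := by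
  classical
  have H := W.gt.H
  have hlev : ∀ y, z ⋖ y → lev y = 2 * m := by
    intro y hy
    have := (H.covBy_iff.mp hy).2
    omega
  have hnY : ∀ y, z ⋖ y → y ∉ twY (2 * m) N := by
    intro y hy h
    have h1 := hlev y hy
    have h2 := (mem_twY.mp h).2.1
    omega
  have hnR : ∀ y, z ⋖ y → y ∉ r2 (2 * m) N := fun y hy h =>
    W.low (hlev y hy).le (mem_sdiff.mp h).1
  have hbd : z ∈ bdR (r2 (2 * m) N) := mem_filter.mpr ⟨hz, x, hnR x hzx, hzx⟩
  refine le_antisymm ?_ ?_
  · refine (hcan_le (θ := thX (twY (2 * m) N) (twT N) (fun x => θ (topOf x) x)) (hnR x hzx)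
      hzx).trans ?_
    rw [thX_not (hnY x hzx)]
  · obtain ⟨y, hy, hzy, hh⟩ := hcan_spec
      (θ := thX (twY (2 * m) N) (twT N) (fun x => θ (topOf x) x)) hbd
    rw [thX_not (hnY y hzy)] at hh
    have h3 := hmin y hzy
    show _ ≤ hcan _ _ z
    omega

/-- the data of a (C) join -/
lemma WI.cel (W : WI r m m K N b θ) {z F S : P} {Nc : Finset P} {co : P → ℕ × ℕ}
    (hF : InS m m N b θ F Nc co) (hcF : co F = (m, m)) (hS : S ∈ Nc) (hcS : co S = (0, 2 * m))
    (hzF : z ⋖ F) (hzS : z ⋖ S) : CEl (topOf F) Nc co m z F S where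
  chart := hF.stair.chart
  strip := hF.stair.strip
  F_mem := hF.mem
  S_mem := hS
  co_F := hcF
  co_S := hcS
  zF := hzF
  zS := hzS
  only := by
    have hm := W.hi
    have hne : F ≠ S := by
      rintro rfl
      rw [hcF, Prod.mk.injEq] at hcS
      omega
    exact fun y hy => uc_pair W.gt.H hzF hzS hne hy

/-- the label and the cost of a (C) join -/
lemma WI.cc_lab (W : WI r m m K N b θ) {z F S : P} {Nc : Finset P} {co : P → ℕ × ℕ}
    (hz : z ∈ r2 (2 * m) N) (hl : lev z = 2 * m + 1)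
    (hF : InS m m N b θ F Nc co) (hcF : co F = (m, m)) (hS : S ∈ Nc) (hcS : co S = (0, 2 * m))
    (hzF : z ⋖ F) (hzS : z ⋖ S) :
    h2 (2 * m) N θ z = hh m ∧ cst m (fun _ => hh m) z = E0 m := by
  have hm := W.hi
  have C := W.cel hF hcF hS hcS hzF hzS
  have hlS : lev S = 2 * m := by
    have := (W.gt.H.covBy_iff.mp hzS).2
    omega
  have hSN : S ∈ N (topOf F) := by
    rw [hF.nat]
    exact mem_natS.mpr (Or.inl hS)
  have htS : topOf S = topOf F := W.natSys.topOf_eq hSN
  have hthF : θ (topOf F) F + 1 = hh m := by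
    rw [hF.th, hcF]
    unfold hh
    simp only
    omega
  have hthS : θ (topOf S) S = m := by
    rw [htS, hF.thf]
    unfold thS
    rw [hcS, hlS]
    simp only
    split_ifs <;> omega
  refine ⟨?_, C.cst_eq W.gt.H.gradedBelow (by omega)⟩
  rw [W.h2_eqc hz hl hzF (fun y hy => ?_), hthF]
  rcases C.only y hy with h | h
  · rw [h]
  · rw [h, hthS]
    have := hh_le m
    omega

/-- **The (C) joins: first pole of the family.** -/
theorem WI.fz_cc (W : WI r m m K N b θ) {z : P} (hz : z ∈ bdR (r2 (2 * m) N))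
    (hc : CcI m N b θ z) : Fz m N θ z (E0 m + hh m ^ 2) (sg1 P m) := by
  classical
  have hm := W.hi
  have H := W.gt.H
  obtain ⟨hl, F, S, Nc, co, hF, hcF, hS, hcS, hzF, hzS⟩ := hc
  choose B hB using W.natTop
  have hlow : ∀ x ∈ unnat N, 2 * m < lev x := fun x hx => W.lt_lev hx
  obtain ⟨g, u, hu, hmu, hg⟩ : ∃ g u, u ≤ 1 ∧ m = 2 * g + u ∧ 2 ≤ g :=
    ⟨m / 2, m % 2, by omega, by omega, by omega⟩
  have hhu : hh m = u + 1 := by unfold hh; omega
  have hb : b (topOf F) = g + 1 := by rw [hF.bb]; omega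
  -- the elements of the family
  have hfam : ∀ y ∈ fam m N z, CEl (topOf F) Nc co m y F S ∧ lev y = 2 * m + 1 ∧
      h2 (2 * m) N θ y = u + 1 ∧ cst m (fun _ => u + 1) y = E0 m := by
    intro y hy
    rw [mem_fam] at hy
    have hyF := (cov_of_up hy.2).mp hzF
    have hyS := (cov_of_up hy.2).mp hzS
    have hly : lev y = 2 * m + 1 := by
      rw [← lev_eq_of_up hy.2]
      exact hl
    obtain ⟨hlab, hcst⟩ := W.cc_lab (bd_mem hy.1) hly hF hcF hS hcS hyF hyS
    rw [hhu] at hlab hcst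
    exact ⟨W.cel hF hcF hS hcS hyF hyS, hly, hlab, hcst⟩
  have hsingle := fun y (hy : y ∈ fam m N z) =>
    (hfam y hy).1.pole_single H hB hlow hmu hu (by omega) (by omega) hb
  have hB' : ∑ t, b t = (lv P m).card := W.sum_b
  have hE : (u + 1) ^ 2 + E0 m = E0 m + hh m ^ 2 := by rw [hhu]; omega
  have hsign : (-1 : ℤ) ^ (below P m + (u + 1) * g) = sg1 P m := by
    unfold sg1 sgF
    rw [hhu]
    rcases Nat.le_one_iff_eq_zero_or_eq_one.mp hu with h | h
    · subst h
      rw [Finset.sum_range_one, show below P m + nF m 0 + (0 + 1) =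
        below P m + (0 + 1) * g + 2 by unfold nF; omega, pow_add _ _ 2]
      norm_num
    · subst h
      rw [Finset.sum_range_succ, Finset.sum_range_one, show below P m + (nF m 0 + nF m 1) + (1 + 1) =
        below P m + (1 + 1) * g + 2 * 2 by unfold nF; omega, pow_add _ _ (2 * 2)]
      norm_num
  have hself := self_mem_fam hz
  by_cases hone : fam m N z = {z}
  · -- one element
    have h1 := hfam z hself
    have f2 := hsingle z hself
    rw [h1.2.2.2, hB', hE] at f2
    constructor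
    · intro n hn
      rw [hone, ZF_singleton (by omega), h1.2.2.1]
      exact f2.1 n hn
    · refine ⟨fun _ => below P m + (u + 1) * g, ?_, fun _ _ => hsign⟩
      rw [hone, ZF_singleton (by omega), h1.2.2.1, Finset.sum_singleton]
      exact f2.2
  · -- two elements
    obtain ⟨y, hy, hyz⟩ : ∃ y ∈ fam m N z, y ≠ z := by
      by_contra hcon
      push Not at hcon
      apply hone
      ext x
      rw [mem_singleton]
      exact ⟨fun h => hcon x h, fun h => h ▸ hself⟩
    have htwo : fam m N z = {z, y} := by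
      ext x
      rw [mem_insert, mem_singleton]
      constructor
      · intro hx
        by_contra hcon
        push Not at hcon
        exact Win.dc_three H (hfam x hx).1.zF hzF (hfam y hy).1.zF hcon.1 hcon.2 hyz.symm
      · rintro (h | h)
        · rw [h]; exact hself
        · rw [h]; exact hy
    have h1 := hfam z hself
    have f2 := hsingle z hself
    have g1 := hfam y hy
    have g2 := hsingle y hy
    have hzy : ¬ z ≤ y := by
      intro h
      have := lev_strictAnti (lt_of_le_of_ne h hyz.symm)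
      omega
    have hP := fun n (hn : n ≤ (u + 1) ^ 2 + cst m (fun _ => u + 1) z) =>
      h1.1.pole_pair H hB hlow hmu hu (by omega) (by omega) hb hzy
        (g1.1.z_only H.gradedBelow (natSys_of_tops hB) hlow) hn
    rw [h1.2.2.2, hB', hE] at f2
    rw [g1.2.2.2, hB', hE] at g2
    rw [h1.2.2.2, hB', hE] at hP
    have key : ∀ n, ZF m (h2 (2 * m) N θ) {z, y} n = ZD m z (u + 1) n + ZD m y (u + 1) n -
        ZB m ∅ 0 (sgs {z, y} (u + 1)) n := by
      intro n
      have h3 := ZF_pair (i := m) (h := Pool.Agent.GaussPoset.h2 (2 * m) N θ) (z := z) (z' := y)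
        (by omega) (by omega) n
      rw [ZP_eq_sgs (by omega) (by omega) h1.2.2.1 g1.2.2.1, h1.2.2.1, g1.2.2.1] at h3
      rw [← h3]
      ring
    constructor
    · intro n hn
      rw [htwo, key]
      exact dvd_sub (dvd_add (f2.1 n hn) (g2.1 n hn)) (hP n hn.le)
    · refine ⟨fun _ => below P m + (u + 1) * g, ?_, fun _ _ => hsign⟩
      rw [htwo, key, Finset.sum_pair hyz.symm]
      have h5 := dvd_sub (dvd_add f2.2 g2.2) (hP _ le_rfl)
      refine h5.trans (dvd_of_eq ?_)
      ring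

end Pool.Agent.GaussPoset.Fi

end

/-! From `Pool.Agent.W_448s8f_h76.FiH` -/

section

/-!
The data of the blockers (MP_448cb3_co, S8, small `m`).
-/

namespace Pool.Agent.GaussPoset.Fi

set_option linter.unusedSectionVars false

open Polynomial Finset

universe u

variable {P : Type u} [Fintype P] [PartialOrder P] [DecidableEq P] {r i m K N0 : ℕ}
  {N : Tops P → Finset P} {b : Tops P → ℕ} {θ : Tops P → P → ℕ}

/-- the component of a star end is light -/
theorem WC.td_light (W : WC r i m K N b θ) {z f v : P} {p : ℕ} (S : SZ m z f v p)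
    (hi : i < 2 * m - 7) (hHL : ∀ p ∈ HL i m, gD p m ≠ 0) (hm : gD (pp p) m = 0) :
    N (topOf v) = onlyB (topOf v) ∧ (θ (topOf v) = fun x => lev x - i) ∧ b (topOf v) = 1 ∧
    ∀ x, x ≤ (topOf v : P) → lev x ≤ 2 * m → x ∈ onlyB (topOf v) := by
  have H := W.gt.H
  have h4 := W.hi
  have him := W.him
  have hlv : lev v = 2 * m := by
    have := (H.covBy_iff.mp S.zv).2
    have := S.lev
    omega
  have hc := S.td.cn i hi
  rcases W.tc (topOf v) with ⟨g1, g2, g3, g5, g6, g7, g8⟩ | ⟨Nc, co, g0, g1, g2, g3⟩ |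
    ⟨Nc, co, g0, g1, g2, g3, g4⟩ | ⟨g1, g2, g3, g4, g5, g8⟩
  · exact ⟨g1, g2, g3, g5⟩
  · have := rect_twoQ g0 (by omega)
    omega
  · have := stair_twoQ g0 (by omega)
    omega
  · exfalso
    obtain ⟨q, hq, hpr⟩ := (g5 v (le_topOf v) hlv).2
    have h1 := hpr m (by omega)
    have h2 := S.pr m (by omega)
    have h3 := hHL q hq
    omega

/-- the label of a star join -/
theorem WC.star_lab (W : WC r i m K N b θ) {z f v : P} {p : ℕ} (S : SZ m z f v p)
    (hθ : θ (topOf v) = fun x => lev x - i) : h2 (2 * m) N θ z = kF i m := by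
  have H := W.gt.H
  have h4 := W.hi
  have him := W.him
  have hlv : lev v = 2 * m := by
    have := (H.covBy_iff.mp S.zv).2
    have := S.lev
    omega
  have hfv : f ≠ v := fun h => S.ne (by rw [h])
  rw [W.wi.h2_eqI (W.join_r2 S.ne S.zf S.zv) S.lev S.zf (fun y hy => ?_), W.fold_th S.fd]
  · rfl
  · rcases uc_pair H S.zf S.zv hfv hy with e | e
    · rw [e]
    · rw [e, W.fold_th S.fd, hθ]
      show (m - 2 * (i / 2)) + (m - i) ≤ lev v - i
      omega

/-- a fold end is a cell of a stair -/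
lemma WC.inS (W : WC r i m K N b θ) {x : P} {Nc : Finset P} {co : P → ℕ × ℕ} (hx : Fd m x)
    (h : FI i m N b θ x Nc co) : InS i m N b θ x Nc co where
  stair := h.stair
  nat := h.nat
  thf := h.th
  bb := h.b
  mem := h.mem
  fst := by
    have := W.hi
    have := W.him
    rw [h.cell]
    show 1 ≤ m
    omega
  th := by
    rw [W.fold_th hx, h.cell]
  nop := h.nop

/-- the other single-up end of the component of a fold end is unique -/
theorem WC.cc_unique (W : WC r i m K N b θ) {x x' y' : P} (hx : Fd m x) (hlx' : lev x' = 2 * m)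
    (hxt : topOf x' = topOf x) (hne : x ≠ x') (h1 : (Win.uc x').card = 1)
    (hly' : lev y' = 2 * m) (hyt : topOf y' = topOf x) (hne' : x ≠ y')
    (h1' : (Win.uc y').card = 1) : x' = y' := by
  have H := W.gt.H
  have h4 := W.hi
  have him := W.him
  obtain ⟨-, Nc, co, h, h2, h3⟩ := W.stair_single hx hlx' hxt hne h1
  have h5 : y' ∈ Nc := h.stair.strip (mem_lowPart.mpr ⟨by rw [← hyt]; exact le_topOf y', hly'.le⟩)
  have h6 := h.stair.chart.lev y' h5
  have h7 : (co y').1 ≤ (co y').2 := h.stair.chart.mem y' h5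
  have h8 : (co y').1 = 0 := by
    by_contra h8
    by_cases h9 : (co y').1 = (co y').2
    · refine hne' (h.stair.chart.inj x h.mem y' h5 ?_)
      rw [h.cell]
      exact Prod.ext (by simp only; omega) (by simp only; omega)
    · have := chartS_inner_uc h.stair.chart H h5 (by omega) (by omega)
      omega
  refine h.stair.chart.inj x' h2 y' h5 ?_
  rw [h3]
  exact Prod.ext (by simp only; omega) (by simp only; omega)

/-- the union of two (C) joins -/
theorem WC.U_cc (W : WC r i m K N b θ) {k F0 : ℕ} {z y : P} (hk : k ≤ 2 * m + 1 - i)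
    (hz : CC m z) (hy : CC m y) (hlz : h2 (2 * m) N θ z = k) (hly : h2 (2 * m) N θ y = k)
    (hF : ∀ f : P, Fd m f → ct i k f = F0) (hne : ¬ ∀ w, z < w ↔ y < w) :
    2 * F0 + 2 * k ≤ Uu i (h2 (2 * m) N θ) z y := by
  have H := W.gt.H
  have W' := W.wi
  obtain ⟨hl, x, x', hx, h1, ht, hxx, hzx, hzx'⟩ := hz
  obtain ⟨hl', a, a', ha, h1', ht', haa, hya, hya'⟩ := hy
  have hlx' : lev x' = 2 * m := by
    have := (H.covBy_iff.mp hzx').2
    omega
  have hla' : lev a' = 2 * m := by
    have := (H.covBy_iff.mp hya').2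
    omega
  have hzy : z ≠ y := by
    rintro rfl
    exact hne fun _ => Iff.rfl
  by_cases hax : topOf a = topOf x
  · exfalso
    have h3 := W.fold_unique ha hx hax
    subst h3
    have h4 := W.cc_unique hx hlx' ht hxx h1 hla' ht' haa h1'
    subst h4
    exact hne fun w => (up_of_pair H hzx hzx' hya hya' hxx w).symm
  · have h3 := Uu_pair (i := i) hlz hly hzy hl hl' hk hzx hya hx.1 ha.1
      (fun w => W'.disjL hx.1.le ha.1.le (Ne.symm hax))
    rw [hF x hx, hF a ha] at h3
    omega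

/-- the (C) joins, window `m` -/
theorem WC.cc_data (W : WC r m m K N b θ) {z : P} (hz : z ∈ r2 (2 * m) N) (h : CC m z) :
    CcI m N b θ z ∧ h2 (2 * m) N θ z = kF m m ∧ cst m (h2 (2 * m) N θ) z = E0 m := by
  have H := W.gt.H
  obtain ⟨hl, x, x', hx, h1, ht, hxx, hzx, hzx'⟩ := h
  have hlx' : lev x' = 2 * m := by
    have := (H.covBy_iff.mp hzx').2
    omega
  obtain ⟨-, Nc, co, hF, h2, h3⟩ := W.stair_single hx hlx' ht hxx h1
  have h5 := W.inS hx hF
  have h6 := W.wi.cc_lab hz hl h5 hF.cell h2 h3 hzx hzx'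
  refine ⟨⟨hl, x, x', Nc, co, h5, hF.cell, h2, h3, hzx, hzx'⟩, ?_, ?_⟩
  · rw [h6.1]
    unfold hh kF
    omega
  · rw [cst_ct h6.1]
    exact h6.2

/-- first pole of the (C) joins -/
theorem WC.fz_cc (W : WC r m m K N b θ) {z : P} (hz : z ∈ bdR (r2 (2 * m) N)) (h : CC m z)
    (N1 : ℕ) : FzT m m N θ z (E0 m + hh m ^ 2) (sg1 P m) N1 := by
  have h1 := W.wi.fz_cc hz (W.cc_data (bd_mem hz) h).1
  exact ⟨fun n hn _ => h1.clean n hn, fun _ => h1.lead⟩

/-- (C) joins are boundary elements -/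
lemma WC.cc_mem (W : WC r i m K N b θ) {z : P} (h : CC m z) : z ∈ bdR (r2 (2 * m) N) := by
  obtain ⟨hl, x, x', hx, h1, ht, hxx, hzx, hzx'⟩ := h
  exact W.wi.mem_bd (W.cc_r2 hx h1 hxx hzx hzx') hl

/-- joins of different tops are boundary elements -/
lemma WC.jn_mem (W : WC r i m K N b θ) {z x x' : P} (hl : lev z = 2 * m + 1)
    (ht : topOf x ≠ topOf x') (hzx : z ⋖ x) (hzx' : z ⋖ x') : z ∈ bdR (r2 (2 * m) N) :=
  W.wi.mem_bd (W.join_r2 ht hzx hzx') hl

end Pool.Agent.GaussPoset.Fi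

end

/-! From `Pool.Agent.W_448s8f_h76.FiI` -/

section

/-!
Rows and ladders by numbers (MP_448cb3_co, S8, small `m`).
-/

namespace Pool.Agent.GaussPoset.Fi

set_option linter.unusedSectionVars false

open Polynomial Finset

universe u

/-- the row condition by numbers -/
def okR (i m k N0 : ℕ) (q1 q2 : ℕ → ℕ) (q : ℕ → ℕ) : Prop :=
  N0 ≤ vsQ i m k q + k ∨
  (q (2 * m - i) = q (2 * m - (i + k)) + 1 ∧ nsQ i m k q % 2 = q1 (vsQ i m k q + k) % 2) ∨
  (q (2 * m - i) = q (2 * m - (i + k)) + 2 ∧ nsQ i m k q % 2 = q2 (vsQ i m k q + k) % 2)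

instance (i m k N0 : ℕ) (q1 q2 q : ℕ → ℕ) : Decidable (okR i m k N0 q1 q2 q) := by
  unfold okR
  infer_instance

variable {P : Type u} [Fintype P] [PartialOrder P] [DecidableEq P] {r i m K N0 : ℕ}
  {N : Tops P → Finset P} {b : Tops P → ℕ} {θ : Tops P → P → ℕ}

/-- signs by parities -/
noncomputable def sg (P : Type u) [Fintype P] [PartialOrder P] [DecidableEq P] (i : ℕ) (q1 : ℕ → ℕ) (n : ℕ) : ℤ :=
  (-1) ^ (below P i + q1 n)

lemma sg_ne (q1 : ℕ → ℕ) (n : ℕ) : sg P i q1 n ≠ 0 := pow_ne_zero _ (by norm_num)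

lemma sg_of {q1 : ℕ → ℕ} {n s : ℕ} (h : s % 2 = q1 n % 2) :
    (-1 : ℤ) ^ (below P i + s) = sg P i q1 n := by
  unfold sg
  rw [pow_add, pow_add]
  congr 1
  rw [← Nat.div_add_mod s 2, ← Nat.div_add_mod (q1 n) 2, h, pow_add, pow_add, pow_mul, pow_mul]
  norm_num

lemma nq_ok {z : P} {k : ℕ} {q : ℕ → ℕ} (h : NQ i m N θ z k q) {q1 q2 : ℕ → ℕ}
    (hk : okR i m k N0 q1 q2 q) :
    N0 ≤ cst i (h2 (2 * m) N θ) z ∨
    (nab i z = nab (i + h2 (2 * m) N θ z) z + 1 ∧
      (-1 : ℤ) ^ (below P i + nst i (h2 (2 * m) N θ) z) =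
        sg P i q1 (cst i (h2 (2 * m) N θ) z)) ∨
    (nab i z = nab (i + h2 (2 * m) N θ z) z + 2 ∧
      (-1 : ℤ) ^ (below P i + nst i (h2 (2 * m) N θ) z) =
        sg P i q2 (cst i (h2 (2 * m) N θ) z)) := by
  rcases hk with h1 | ⟨h1, h2⟩ | ⟨h1, h2⟩
  · left
    rw [h.cst]
    exact h1
  · right
    left
    refine ⟨by rw [h.n0, h.n1, h1], ?_⟩
    rw [h.nst, h.cst]
    exact sg_of h2
  · right
    right
    refine ⟨by rw [h.n0, h.n1, h1], ?_⟩
    rw [h.nst, h.cst]
    exact sg_of h2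

/-- (C) joins are no star joins -/
lemma CC.not_st (H : Gr P r) {z : P} (h : CC m z) {p : ℕ} : ¬ St m p z := by
  rintro ⟨f, v, S⟩
  obtain ⟨hl, x, x', h1, h2, h3, h4, h5, h6⟩ := h
  rcases uc_pair H h5 h6 h4 S.zf with e | e <;> rcases uc_pair H h5 h6 h4 S.zv with e' | e'
  · exact S.ne (by rw [e, e'])
  · exact S.ne (by rw [e, e', h3])
  · exact S.ne (by rw [e, e', h3])
  · exact S.ne (by rw [e, e'])

/-- fold numbers -/
lemma WC.ct_fold (W : WC r i m K N b θ) {x : P} (hx : Fd m x) (k : ℕ) :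
    ct i k x = vsQ i m k (fun d => 1 + pF m d) :=
  ct_midI (by have := W.him; omega) hx.1 (fun d _ => W.fold_prof hx d (by omega))

lemma WC.nst_fold (W : WC r i m K N b θ) {x : P} (hx : Fd m x) {k : ℕ} (hk : i + k ≤ 2 * m) :
    nst i (fun _ => k) x = nsQ i m k (fun d => 1 + pF m d) := by
  rw [nst_eq]
  unfold nsQ
  refine Finset.sum_congr rfl fun u hu => ?_
  rw [mem_range] at hu
  have h1 := W.fold_prof hx (2 * m - (i + u)) (by omega)
  rw [show 2 * m - (2 * m - (i + u)) = i + u by omega] at h1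
  exact h1

lemma ct_prof {v : P} {p : ℕ → ℕ} (hi : i ≤ 2 * m) (hl : lev v = 2 * m) (h : Prof m v p) (k : ℕ) :
    ct i k v = vsQ i m k (fun d => 1 + p d) :=
  ct_midI hi hl (fun d _ => h d (by omega))

lemma WC.ct_ge (W : WC r i m K N b θ) {v : P} (hl : lev v = 2 * m) (k : ℕ) :
    vsQ i m k (fun _ => 1) ≤ ct i k v := by
  have him := W.him
  rw [ct_midI (q := fun d => nab (2 * m - d) v) (by omega) hl (fun d _ => rfl)]
  refine Finset.sum_le_sum fun u hu => Nat.mul_le_mul_left _ ?_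
  rw [mem_range] at hu
  exact one_le_nab (by omega)

/-- the first pole of the star joins: to be proved by the product formula -/
def StarT (i m K : ℕ) (N : Tops P → Finset P) (b : Tops P → ℕ) (θ : Tops P → P → ℕ) : Prop :=
  ∀ N1, N1 + 1 ≤ K → ∀ z f v p, SZ m z f v p → z ∈ bdR (r2 (2 * m) N) →
    N (topOf v) = onlyB (topOf v) → (θ (topOf v) = fun x => lev x - i) → b (topOf v) = 1 →
    (∀ x, x ≤ (topOf v : P) → lev x ≤ 2 * m → x ∈ onlyB (topOf v)) →
    (∀ z' ∈ fam m N z, ∀ y ∈ bdR (r2 (2 * m) N), y ∉ fam m N z → ∀ n,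
      n ≤ ct i (kF i m) f + ct i (kF i m) v + kF i m + p → n < N1 →
      n < Uu i (h2 (2 * m) N θ) z' y) →
    FzT i m N θ z (ct i (kF i m) f + ct i (kF i m) v + kF i m + p)
      ((-1) ^ (below P i + kF i m + 1 + nst i (fun _ => kF i m) f)) N1

lemma mem_of_not_fam {z y : P} (hy : y ∈ bdR (r2 (2 * m) N)) (h : y ∉ fam m N z) :
    ¬ ∀ w, z < w ↔ y < w := fun h2 => h (mem_fam.mpr ⟨hy, h2⟩)

/-- the numbers of a star theorem -/
structure StN (i m : ℕ) (E : ℕ → ℕ) : Prop where
  hk : i + kF i m + 7 = 2 * m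
  i_lt : i < 2 * m - 7
  hHL : ∀ p ∈ HL i m, gD p m ≠ 0
  pm : ∀ p, gD (pp p) m = 0
  eE : ∀ p, p = 8 ∨ p = 4 → vsQ i m (kF i m) (fun d => 1 + pF m d) +
    vsQ i m (kF i m) (fun d => 1 + gD (pp p) d) + kF i m + p = E p
  c1 : ∀ p, p = 8 ∨ p = 4 → vsQ i m (kF i m) (fun d => 1 + gD (pp p) d) + p <
    vsQ i m (kF i m) (fun d => 1 + pF m d) + kF i m
  c2 : 8 < vsQ i m (kF i m) (fun _ => 1) + kF i m

/-- the union of a star join with any other element -/
theorem WC.star_U (W : WC r i m K N b θ) {E : ℕ → ℕ} (T : StN i m E) {N1 : ℕ}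
    (hAl : ∀ y ∈ bdR (r2 (2 * m) N), Al i m (kF i m) (vsQ i m (kF i m) (fun d => 1 + pF m d))
      (vsQ i m (kF i m) (fun _ => 1)) N1 N θ y) {z f v : P} {p : ℕ} (hp : p = 8 ∨ p = 4)
    (S : SZ m z f v p) {y : P} (hy : y ∈ bdR (r2 (2 * m) N)) (hne : y ∉ fam m N z) {n : ℕ}
    (hn : n ≤ E p) (hn1 : n < N1) : n < Uu i (h2 (2 * m) N θ) z y := by
  have him := W.him
  have L := W.td_light S T.i_lt T.hHL (T.pm p)
  have hlv : lev v = 2 * m := by
    have := (W.gt.H.covBy_iff.mp S.zv).2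
    have := S.lev
    omega
  have e1 := W.ct_fold S.fd (kF i m)
  have e2 := ct_prof (i := i) (by omega) hlv S.pr (kF i m)
  have e3 := T.eE p hp
  have e4 := T.c1 p hp
  have e5 := T.c2
  refine W.U_star T.hk S (W.star_lab S L.2.1) (fun f hf => W.ct_fold hf _)
    (fun v hv => W.ct_ge hv _) ?_ ?_ (hAl y hy) (mem_of_not_fam hy hne) ?_ hn1
  · rw [e2]
    exact e4
  · omega
  · rw [e1, e2, e3]
    exact hn

/-- the first pole of a star join -/
theorem WC.star_fz (W : WC r i m K N b θ) (hst : StarT i m K N b θ) {E : ℕ → ℕ} (T : StN i m E)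
    {N1 : ℕ} (hN1 : N1 + 1 ≤ K)
    (hAl : ∀ y ∈ bdR (r2 (2 * m) N), Al i m (kF i m) (vsQ i m (kF i m) (fun d => 1 + pF m d))
      (vsQ i m (kF i m) (fun _ => 1)) N1 N θ y) {z : P} {p : ℕ} (hp : p = 8 ∨ p = 4)
    (S : St m p z) : FzT i m N θ z (E p)
      ((-1) ^ (below P i + (kF i m + 1 + nsQ i m (kF i m) (fun d => 1 + pF m d)))) N1 := by
  have him := W.him
  obtain ⟨f, v, S⟩ := S
  have L := W.td_light S T.i_lt T.hHL (T.pm p)
  have hlv : lev v = 2 * m := by
    have := (W.gt.H.covBy_iff.mp S.zv).2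
    have := S.lev
    omega
  have e1 := W.ct_fold S.fd (kF i m)
  have e2 := ct_prof (i := i) (by omega) hlv S.pr (kF i m)
  have e3 := T.eE p hp
  have hE : ct i (kF i m) f + ct i (kF i m) v + kF i m + p = E p := by rw [e1, e2, e3]
  have h1 := hst N1 hN1 z f v p S (W.jn_mem S.lev S.ne S.zf S.zv) L.1 L.2.1 L.2.2.1 L.2.2.2
    (fun z' hz' y hy hne n hn hn1 => by
      have h2 := mem_fam.mp hz'
      rw [← fam_eq hz'] at hne
      exact W.star_U T hAl hp (S.same h2.2) hy hne (by rw [← hE]; exact hn) hn1)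
  rw [hE, W.nst_fold S.fd (by have := T.hk; omega)] at h1
  rwa [show below P i + kF i m + 1 + nsQ i m (kF i m) (fun d => 1 + pF m d) =
    below P i + (kF i m + 1 + nsQ i m (kF i m) (fun d => 1 + pF m d)) by ring] at h1

lemma Uu_comm (h : P → ℕ) (z z' : P) : Uu i h z z' = Uu i h z' z := by
  unfold Uu
  exact Finset.sum_congr rfl fun x _ => max_comm _ _

end Pool.Agent.GaussPoset.Fi

end

/-! From `Pool.Agent.W_448s8f_h76.FiJ` -/

section

/-!
No elements below a fold end, `m = 8` (MP_448cb3_co, S8).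
-/

namespace Pool.Agent.GaussPoset.Fi

set_option linter.unusedSectionVars false

open Polynomial Finset

universe u

variable {P : Type u} [Fintype P] [PartialOrder P] [DecidableEq P] {r i m K N0 : ℕ}
  {N : Tops P → Finset P} {b : Tops P → ℕ} {θ : Tops P → P → ℕ}

/-- fold ends are not full -/
lemma WC.fd_not_full (W : WC r i m K N b θ) {x : P} (hx : Fd m x)
    (h : Full i m N θ x) : False := by
  have h2 := W.fold_th hx
  have h3 := h.th
  have := W.hi
  have := W.him
  have := hx.1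
  omega

/-- the pole energies -/
noncomputable def plz (m : ℕ) (a b c : ℕ) (z : P) : ℕ := by
  classical exact if CC m z then a else if St m 8 z then b else c

/-- blockers -/
def Bz (m : ℕ) (z : P) : Prop := CC m z ∨ St m 8 z ∨ St m 4 z

lemma plz_cc {a b c : ℕ} {z : P} (h : CC m z) : plz m a b c z = a := by
  unfold plz
  exact if_pos h

lemma plz_8 (H : Gr P r) {a b c : ℕ} {z : P} (h : St m 8 z) : plz m a b c z = b := by
  unfold plz
  rw [if_neg (fun h' => CC.not_st H h' h), if_pos h]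

lemma plz_4 (H : Gr P r) {a b c : ℕ} {z : P} (h : St m 4 z) (h8 : ¬ St m 8 z) :
    plz m a b c z = c := by
  unfold plz
  rw [if_neg (fun h' => CC.not_st H h' h), if_neg h8]

lemma plz_same {a b c : ℕ} {z y : P} (h : ∀ w, z < w ↔ y < w) :
    plz m a b c y = plz m a b c z := by
  have h' : ∀ w, y < w ↔ z < w := fun w => (h w).symm
  unfold plz
  by_cases h1 : CC m z
  · rw [if_pos h1, if_pos (h1.same h)]
  · rw [if_neg h1, if_neg (fun h2 => h1 (CC.same h2 h'))]
    by_cases h3 : St m 8 z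
    · rw [if_pos h3, if_pos (h3.same h)]
    · rw [if_neg h3, if_neg (fun h2 => h3 (St.same h2 h'))]

lemma Bz.same {z y : P} (h : Bz m z) (hy : ∀ w, z < w ↔ y < w) : Bz m y :=
  h.imp (fun h => h.same hy) (fun h => h.imp (fun h => h.same hy) (fun h => h.same hy))

lemma Bz.lev {z : P} (h : Bz m z) : Pool.Agent.GaussPoset.lev z = 2 * m + 1 := by
  rcases h with h | ⟨f, v, h⟩ | ⟨f, v, h⟩
  · exact h.1
  · exact h.lev
  · exact h.lev

/-- stage A: no pendants below fold ends and heavy ends, `m = 8` -/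
theorem pens8 (W : WC r 8 8 K N b θ) (hK : 43 ≤ K) (S7 : S7F P 8) :
    ∀ z ∈ bdR (r2 (2 * 8) N), 22 ≤ cst 8 (h2 (2 * 8) N θ) z := by
  have L : Lad 8 8 K N θ 22 (fun _ : P => False) (fun _ => 0)
      (sg P 8 (fun n => if n = 9 then 0 else 1)) (sg P 8 (fun _ => 0)) := by
    refine ⟨by omega, fun z y h _ => h.elim, fun z _ h => h.elim, sg_ne _, sg_ne _,
      fun z _ h => h.elim, fun z _ h => h.elim, ?_⟩
    intro z hz _ hl
    rcases W.rows S7 (by decide) (bd_mem hz) hl with ⟨x, hx, hp, hn⟩ | ⟨x, hx, hp, p, hp', hn⟩ |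
      ⟨x, x', hx, hx', ht, hzx, hzx', p, hp, hpr, hn⟩ | ⟨x, x', hx, hx', ht, hzx, hzx', hn⟩ |
      ⟨x, x', hx, hx', h1, ht, hzx, hzx', p, hp, hpr, htd, hn⟩ | ⟨x, x', hx, h1, ht, hne, hzx, hzx'⟩ |
      ⟨hF, h⟩
    · exact nq_ok hn (by decide)
    · refine nq_ok hn ?_
      have h3 : ∀ p ∈ HL 8 8, okR 8 8 1 22 (fun n => if n = 9 then 0 else 1) (fun _ => 0)
        (fun d => 1 + gD p d) := by decide
      exact h3 p hp'
    · refine nq_ok hn ?_
      have h3 : ∀ p ∈ HL 8 8, okR 8 8 1 22 (fun n => if n = 9 then 0 else 1) (fun _ => 0)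
        (fun d => 1 + pF 8 d + (1 + gD p d)) := by decide
      exact h3 p hp
    · exact nq_ok hn (by decide)
    · refine nq_ok hn ?_
      have h3 : ∀ p ∈ PL 8 8, 22 ≤ vsQ 8 8 (kF 8 8) (fun d => (1 + pF 8 d) + (1 + gD p d)) +
        kF 8 8 := by decide
      exact Or.inl (h3 p hp)
    · left
      rw [(W.cc_data (bd_mem hz) ⟨hl, x, x', hx, h1, ht, hne, hzx, hzx'⟩).2.2]
      decide
    · left
      refine le_trans ?_ h
      norm_num
  exact fun z hz => (W.wi.ladder L).2 z hz (fun h => h)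

/-- the elements alive after stage A -/
theorem al8 (W : WC r 8 8 K N b θ) (hK : 43 ≤ K) (S7 : S7F P 8) :
    ∀ y ∈ bdR (r2 (2 * 8) N), Al 8 8 (kF 8 8) (vsQ 8 8 (kF 8 8) (fun d => 1 + pF 8 d))
      (vsQ 8 8 (kF 8 8) (fun _ => 1)) 42 N θ y := by
  intro z hz
  have hA := pens8 W hK S7 z hz
  rcases W.wi.bd hz with hl | h
  swap
  · exact Al.big (by omega)
  rcases W.rows S7 (by decide) (bd_mem hz) hl with ⟨x, hx, hp, hn⟩ | ⟨x, hx, hp, p, hp', hn⟩ |
    ⟨x, x', hx, hx', ht, hzx, hzx', p, hp, hpr, hn⟩ | ⟨x, x', hx, hx', ht, hzx, hzx', hn⟩ |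
    ⟨x, x', hx, hx', h1, ht, hzx, hzx', p, hp, hpr, htd, hn⟩ | ⟨x, x', hx, h1, ht, hne, hzx, hzx'⟩ |
    ⟨hF, h⟩
  · rw [hn.cst] at hA
    exact absurd hA (by decide)
  · rw [hn.cst] at hA
    have h3 : ∀ p ∈ HL 8 8, ¬ 22 ≤ vsQ 8 8 1 (fun d => 1 + gD p d) + 1 := by decide
    exact absurd hA (h3 p hp')
  · exact Al.jn x x' hl (hn.lab.trans (by decide)) hx hx'.up1 ht hzx hzx'
  · exact Al.jn x x' hl hn.lab hx hx'.2.1 ht hzx hzx'
  · exact Al.jn x x' hl hn.lab hx h1 ht hzx hzx'
  · have h5 := W.cc_data (bd_mem hz) ⟨hl, x, x', hx, h1, ht, hne, hzx, hzx'⟩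
    refine Al.cc x x' hl h5.2.1 hx ht hne hzx hzx' ?_
    rw [h5.2.2]
    decide
  · exact Al.big (le_trans (by norm_num) h)

theorem stN8 : StN 8 8 (fun _ => 38) where
  hk := by decide
  i_lt := by norm_num
  hHL := by decide
  pm := by
    intro p
    unfold pp
    split_ifs <;> decide
  eE := by
    rintro p (rfl | rfl) <;> decide
  c1 := by
    rintro p (rfl | rfl) <;> decide
  c2 := by decide

/-- the ladder, `m = 8` -/
theorem lad8 (W : WC r 8 8 K N b θ) (hK : 43 ≤ K) (S7 : S7F P 8) (hst : StarT 8 8 K N b θ) :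
    Lad 8 8 K N θ 42 (Bz 8) (plz 8 30 38 38) (sg P 8 (fun n => if n = 38 then 1 else 0))
      (sg P 8 (fun n => if n = 29 then 1 else 0)) := by
  have H := W.gt.H
  have hAl := al8 W hK S7
  have hSt : ∀ z p, p = 8 ∨ p = 4 → St 8 p z → FzT 8 8 N θ z 38
      (sg P 8 (fun n => if n = 38 then 1 else 0) 38) 42 := by
    intro z p hp h
    have h1 := W.star_fz hst stN8 (N1 := 42) (by omega) hAl hp h
    rwa [sg_of (q1 := fun n => if n = 38 then 1 else 0) (n := 38) (by decide)] at h1
  have hpl : ∀ z : P, St 8 8 z ∨ St 8 4 z → plz 8 30 38 38 z = 38 := by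
    intro z h
    by_cases h8 : St 8 8 z
    · exact plz_8 H h8
    · exact plz_4 H (h.resolve_left h8) h8
  have hUst : ∀ z z' : P, St 8 8 z ∨ St 8 4 z → z' ∈ bdR (r2 (2 * 8) N) → z' ∉ fam 8 N z → ∀ n,
      n < 42 → n ≤ 38 → n < Uu 8 (h2 (2 * 8) N θ) z z' := by
    intro z z' h hz' hne n hn hn2
    rcases h with ⟨f, v, S⟩ | ⟨f, v, S⟩
    · exact W.star_U stN8 hAl (Or.inl rfl) S hz' hne hn2 hn
    · exact W.star_U stN8 hAl (Or.inr rfl) S hz' hne hn2 hn
  refine ⟨by omega, fun z y h hy => ⟨h.same hy, plz_same hy⟩, fun z _ h => h.lev, sg_ne _,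
    sg_ne _, ?_, ?_, ?_⟩
  · intro z hz h
    rcases h with h | h | h
    · rw [plz_cc h]
      have h1 := W.fz_cc hz h 42
      rw [show E0 8 + hh 8 ^ 2 = 30 by decide] at h1
      have h2 : sg1 P 8 = sg P 8 (fun n => if n = 38 then 1 else 0) 30 := by
        unfold sg1
        rw [Nat.add_assoc]
        exact sg_of (by decide)
      rwa [h2] at h1
    · rw [hpl z (Or.inl h)]
      exact hSt z 8 (Or.inl rfl) h
    · rw [hpl z (Or.inr h)]
      exact hSt z 4 (Or.inr rfl) h
  · intro z hz h z' hz' h' hne n hn hn1 hn2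
    by_cases hs : St 8 8 z ∨ St 8 4 z
    · rw [hpl z hs] at hn1
      exact hUst z z' hs hz' hne n hn hn1
    · by_cases hs' : St 8 8 z' ∨ St 8 4 z'
      · rw [hpl z' hs'] at hn2
        rw [Uu_comm]
        refine hUst z' z hs' hz ?_ n hn hn2
        intro h3
        rw [fam_eq h3] at hne
        exact hne (self_mem_fam hz')
      · have h1 : CC 8 z := h.resolve_right hs
        have h2 : CC 8 z' := h'.resolve_right hs'
        have h3 := W.U_cc (k := kF 8 8) (by decide) h1 h2 (W.cc_data (bd_mem hz) h1).2.1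
          (W.cc_data (bd_mem hz') h2).2.1 (fun f hf => W.ct_fold hf _)
          (mem_of_not_fam hz' hne)
        rw [plz_cc h1] at hn1
        have h4 : 30 < 2 * vsQ 8 8 (kF 8 8) (fun d => 1 + pF 8 d) + 2 * kF 8 8 := by decide
        omega
  · intro z hz hb hl
    have hA := pens8 W hK S7 z hz
    rcases W.rows S7 (by decide) (bd_mem hz) hl with ⟨x, hx, hp, hn⟩ | ⟨x, hx, hp, p, hp', hn⟩ |
      ⟨x, x', hx, hx', ht, hzx, hzx', p, hp, hpr, hn⟩ | ⟨x, x', hx, hx', ht, hzx, hzx', hn⟩ |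
      ⟨x, x', hx, hx', h1, ht, hzx, hzx', p, hp, hpr, htd, hn⟩ | ⟨x, x', hx, h1, ht, hne, hzx, hzx'⟩ |
      ⟨hF, h⟩
    · rw [hn.cst] at hA
      exact absurd hA (by decide)
    · rw [hn.cst] at hA
      have h3 : ∀ p ∈ HL 8 8, ¬ 22 ≤ vsQ 8 8 1 (fun d => 1 + gD p d) + 1 := by decide
      exact absurd hA (h3 p hp')
    · refine nq_ok hn ?_
      have h3 : ∀ p ∈ HL 8 8, okR 8 8 1 42 (fun n => if n = 38 then 1 else 0)
        (fun n => if n = 29 then 1 else 0) (fun d => 1 + pF 8 d + (1 + gD p d)) := by decide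
      exact h3 p hp
    · exact nq_ok hn (by decide)
    · refine nq_ok hn ?_
      have h3 : ∀ p ∈ PL 8 8, gD p 7 ≠ 1 → okR 8 8 (kF 8 8) 42 (fun n => if n = 38 then 1 else 0)
        (fun n => if n = 29 then 1 else 0) (fun d => (1 + pF 8 d) + (1 + gD p d)) := by decide
      refine h3 p hp fun h7 => hb (Or.inr ?_)
      rcases htd h7 with ⟨e1, e2⟩ | ⟨e1, e2⟩
      · subst e1
        exact Or.inl ⟨x, x', hl, hx, h1, ht, hzx, hzx', e2, hpr⟩
      · subst e1
        exact Or.inr ⟨x, x', hl, hx, h1, ht, hzx, hzx', e2, hpr⟩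
    · exact absurd (Or.inl ⟨hl, x, x', hx, h1, ht, hne, hzx, hzx'⟩) hb
    · left
      exact le_trans (by norm_num) h

/-- **No element below a fold end, `m = 8`.** -/
theorem below8 (W : WC r 8 8 K N b θ) (hK : 43 ≤ K) (S7 : S7F P 8) (hst : StarT 8 8 K N b θ)
    {z x0 : P} (hz : z ∈ r2 (2 * 8) N) (hl : lev z = 2 * 8 + 1) (hx0 : Fd 8 x0)
    (hzx0 : z ⋖ x0) : False := by
  have H := W.gt.H
  have hzb := W.wi.mem_bd hz hl
  obtain ⟨k1, k2⟩ := W.wi.ladder (lad8 W hK S7 hst)
  have hnb : ¬ Bz 8 z := by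
    intro h
    have h1 := k1 z hzb h
    have h2 : plz 8 30 38 38 z ≤ 38 := by
      unfold plz
      split_ifs <;> omega
    omega
  have hc := k2 z hzb hnb
  rcases W.rows S7 (by decide) hz hl with ⟨x, hx, hp, hn⟩ | ⟨x, hx, hp, p, hp', hn⟩ |
    ⟨x, x', hx, hx', ht, hzx, hzx', p, hp, hpr, hn⟩ | ⟨x, x', hx, hx', ht, hzx, hzx', hn⟩ |
    ⟨x, x', hx, hx', h1, ht, hzx, hzx', p, hp, hpr, htd, hn⟩ | ⟨x, x', hx, h1, ht, hne, hzx, hzx'⟩ |
    ⟨hF, h⟩
  · rw [hn.cst] at hc
    exact absurd hc (by decide)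
  · rw [hn.cst] at hc
    have h3 : ∀ p ∈ HL 8 8, ¬ 42 ≤ vsQ 8 8 1 (fun d => 1 + gD p d) + 1 := by decide
    exact absurd hc (h3 p hp')
  · rw [hn.cst] at hc
    have h3 : ∀ p ∈ HL 8 8, ¬ 42 ≤ vsQ 8 8 1 (fun d => 1 + pF 8 d + (1 + gD p d)) + 1 := by
      decide
    exact absurd hc (h3 p hp)
  · rw [hn.cst] at hc
    exact absurd hc (by decide)
  · rw [hn.cst] at hc
    have h3 : ∀ p ∈ PL 8 8, ¬ 42 ≤ vsQ 8 8 (kF 8 8) (fun d => (1 + pF 8 d) + (1 + gD p d)) +
      kF 8 8 := by decide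
    exact absurd hc (h3 p hp)
  · exact hnb (Or.inl ⟨hl, x, x', hx, h1, ht, hne, hzx, hzx'⟩)
  · exact W.fd_not_full hx0 (hF x0 hzx0)

end Pool.Agent.GaussPoset.Fi

end

/-! From `Pool.Agent.W_448s8f_h76.FiK` -/

section

/-!
No elements below a fold end except below two fold ends, `m = 9`: window 9, first part
(MP_448cb3_co, S8).
-/

namespace Pool.Agent.GaussPoset.Fi

set_option linter.unusedSectionVars false

open Polynomial Finset

universe u

variable {P : Type u} [Fintype P] [PartialOrder P] [DecidableEq P] {r i m K N0 : ℕ}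
  {N : Tops P → Finset P} {b : Tops P → ℕ} {θ : Tops P → P → ℕ}

/-- the profile `(5;20)` -/
def p20 : List ℕ := [0, 0, 1, 1, 1, 1, 1]

/-- stage A: window 9 -/
theorem pens9 (W : WC r 9 9 K N b θ) (hK : 91 ≤ K) (S7 : S7F P 9) :
    ∀ z ∈ bdR (r2 (2 * 9) N), 48 ≤ cst 9 (h2 (2 * 9) N θ) z := by
  have L : Lad 9 9 K N θ 48 (fun _ : P => False) (fun _ => 0)
      (sg P 9 (fun n => if n = 35 then 1 else 0)) (sg P 9 (fun _ => 0)) := by
    refine ⟨by omega, fun z y h _ => h.elim, fun z _ h => h.elim, sg_ne _, sg_ne _,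
      fun z _ h => h.elim, fun z _ h => h.elim, ?_⟩
    intro z hz _ hl
    rcases W.rows S7 (by decide) (bd_mem hz) hl with ⟨x, hx, hp, hn⟩ | ⟨x, hx, hp, p, hp', hn⟩ |
      ⟨x, x', hx, hx', ht, hzx, hzx', p, hp, hpr, hn⟩ | ⟨x, x', hx, hx', ht, hzx, hzx', hn⟩ |
      ⟨x, x', hx, hx', h1, ht, hzx, hzx', p, hp, hpr, htd, hn⟩ | ⟨x, x', hx, h1, ht, hne, hzx, hzx'⟩ |
      ⟨hF, h⟩
    · exact nq_ok hn (by decide)
    · refine nq_ok hn ?_
      have h3 : ∀ p ∈ HL 9 9, okR 9 9 1 48 (fun n => if n = 35 then 1 else 0) (fun _ => 0)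
        (fun d => 1 + gD p d) := by decide
      exact h3 p hp'
    · refine nq_ok hn ?_
      have h3 : ∀ p ∈ HL 9 9, okR 9 9 1 48 (fun n => if n = 35 then 1 else 0) (fun _ => 0)
        (fun d => 1 + pF 9 d + (1 + gD p d)) := by decide
      exact h3 p hp
    · exact nq_ok hn (by decide)
    · refine nq_ok hn ?_
      have h3 : ∀ p ∈ PL 9 9, 48 ≤ vsQ 9 9 (kF 9 9) (fun d => (1 + pF 9 d) + (1 + gD p d)) +
        kF 9 9 := by decide
      exact Or.inl (h3 p hp)
    · left
      rw [(W.cc_data (bd_mem hz) ⟨hl, x, x', hx, h1, ht, hne, hzx, hzx'⟩).2.2]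
      decide
    · left
      refine le_trans ?_ h
      norm_num
  exact fun z hz => (W.wi.ladder L).2 z hz (fun h => h)

/-- the table after stage A -/
inductive R9 (N : Tops P → Finset P) (θ : Tops P → P → ℕ) (z : P) : Prop
  | ff (x x' : P) (hx : Fd 9 x) (hx' : Fd 9 x') (ht : topOf x ≠ topOf x') (hzx : z ⋖ x)
      (hzx' : z ⋖ x') (hn : NQ 9 9 N θ z (kF 9 9) (fun d => (1 + pF 9 d) + (1 + pF 9 d)))
  | fv (x x' : P) (hx : Fd 9 x) (hx' : Full 9 9 N θ x') (h1 : (Win.uc x').card = 1)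
      (ht : topOf x ≠ topOf x') (hzx : z ⋖ x) (hzx' : z ⋖ x') (p : List ℕ) (hp : p ∈ PL 9 9)
      (hpr : Prof 9 x' (gD p))
      (htd : gD p 7 = 1 → (p = q7 ∧ TD 9 (topOf x') x' 8) ∨ (p = p5 ∧ TD 9 (topOf x') x' 4))
      (hn : NQ 9 9 N θ z (kF 9 9) (fun d => (1 + pF 9 d) + (1 + gD p d)))
  | cc (x x' : P) (hx : Fd 9 x) (h1 : (Win.uc x').card = 1) (ht : topOf x' = topOf x)
      (hne : x ≠ x') (hzx : z ⋖ x) (hzx' : z ⋖ x')
  | full (hF : ∀ y, z ⋖ y → Full 9 9 N θ y) (h : 100 ≤ cst 9 (h2 (2 * 9) N θ) z)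

theorem rows9 (W : WC r 9 9 K N b θ) (hK : 91 ≤ K) (S7 : S7F P 9) {z : P}
    (hz : z ∈ bdR (r2 (2 * 9) N)) (hl : lev z = 2 * 9 + 1) : R9 N θ z := by
  have hA := pens9 W hK S7 z hz
  rcases W.rows S7 (by decide) (bd_mem hz) hl with ⟨x, hx, hp, hn⟩ | ⟨x, hx, hp, p, hp', hn⟩ |
    ⟨x, x', hx, hx', ht, hzx, hzx', p, hp, hpr, hn⟩ | ⟨x, x', hx, hx', ht, hzx, hzx', hn⟩ |
    ⟨x, x', hx, hx', h1, ht, hzx, hzx', p, hp, hpr, htd, hn⟩ | ⟨x, x', hx, h1, ht, hne, hzx, hzx'⟩ |
    ⟨hF, h⟩
  · rw [hn.cst] at hA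
    exact absurd hA (by decide)
  · rw [hn.cst] at hA
    have h3 : ∀ p ∈ HL 9 9, ¬ 48 ≤ vsQ 9 9 1 (fun d => 1 + gD p d) + 1 := by decide
    exact absurd hA (h3 p hp')
  · rw [hn.cst] at hA
    have h3 : ∀ p ∈ HL 9 9, ¬ 48 ≤ vsQ 9 9 1 (fun d => 1 + pF 9 d + (1 + gD p d)) + 1 := by
      decide
    exact absurd hA (h3 p hp)
  · exact R9.ff x x' hx hx' ht hzx hzx' hn
  · exact R9.fv x x' hx hx' h1 ht hzx hzx' p hp hpr htd hn
  · exact R9.cc x x' hx h1 ht hne hzx hzx'
  · exact R9.full hF (le_trans (by norm_num) h)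

/-- the elements alive after stage A -/
theorem al9 (W : WC r 9 9 K N b θ) (hK : 91 ≤ K) (S7 : S7F P 9) :
    ∀ y ∈ bdR (r2 (2 * 9) N), Al 9 9 (kF 9 9) (vsQ 9 9 (kF 9 9) (fun d => 1 + pF 9 d))
      (vsQ 9 9 (kF 9 9) (fun _ => 1)) 90 N θ y := by
  intro z hz
  rcases W.wi.bd hz with hl | h
  swap
  · exact Al.big (by omega)
  rcases rows9 W hK S7 hz hl with ⟨x, x', hx, hx', ht, hzx, hzx', hn⟩ |
    ⟨x, x', hx, hx', h1, ht, hzx, hzx', p, hp, hpr, htd, hn⟩ | ⟨x, x', hx, h1, ht, hne, hzx, hzx'⟩ |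
    ⟨hF, h⟩
  · exact Al.jn x x' hl hn.lab hx hx'.2.1 ht hzx hzx'
  · exact Al.jn x x' hl hn.lab hx h1 ht hzx hzx'
  · have h5 := W.cc_data (bd_mem hz) ⟨hl, x, x', hx, h1, ht, hne, hzx, hzx'⟩
    refine Al.cc x x' hl h5.2.1 hx ht hne hzx hzx' ?_
    rw [h5.2.2]
    decide
  · exact Al.big (by omega)

lemma Al.mono {k F0 L0 N1 N2 : ℕ} {y : P} (h : Al i m k F0 L0 N1 N θ y) (h2 : N2 ≤ N1) :
    Al i m k F0 L0 N2 N θ y := by
  rcases h with h | ⟨x, x', hl, lab, hx, h1, ht, hyx, hyx'⟩ | ⟨x, x', hl, lab, hx, ht, hxx, hyx, hyx', hc⟩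
  · exact Al.big (h2.trans h)
  · exact Al.jn x x' hl lab hx h1 ht hyx hyx'
  · exact Al.cc x x' hl lab hx ht hxx hyx hyx' hc

/-- the poles at window 9 -/
def E9 (p : ℕ) : ℕ := if p = 8 then 74 else 78

theorem stN9 : StN 9 9 E9 where
  hk := by decide
  i_lt := by norm_num
  hHL := by decide
  pm := by
    intro p
    unfold pp
    split_ifs <;> decide
  eE := by
    rintro p (rfl | rfl) <;> decide
  c1 := by
    rintro p (rfl | rfl) <;> decide
  c2 := by decide

/-- stage 1: the ladder below 74, window 9 -/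
theorem lad9a (W : WC r 9 9 K N b θ) (hK : 91 ≤ K) (S7 : S7F P 9) (hst : StarT 9 9 K N b θ) :
    Lad 9 9 K N θ 74 (Bz 9) (plz 9 68 74 74) (sg P 9 (fun n => if n = 65 then 1 else 0))
      (sg P 9 (fun _ => 0)) := by
  have H := W.gt.H
  have hAl : ∀ y ∈ bdR (r2 (2 * 9) N), Al 9 9 (kF 9 9) (vsQ 9 9 (kF 9 9) (fun d => 1 + pF 9 d))
      (vsQ 9 9 (kF 9 9) (fun _ => 1)) 74 N θ y := fun y hy => (al9 W hK S7 y hy).mono (by norm_num)
  have hE : ∀ p, p = 8 ∨ p = 4 → 74 ≤ E9 p := by
    rintro p (rfl | rfl) <;> decide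
  have hSt : ∀ z p, p = 8 ∨ p = 4 → St 9 p z → FzT 9 9 N θ z 74
      (sg P 9 (fun n => if n = 65 then 1 else 0) 74) 74 := by
    intro z p hp h
    have h1 := W.star_fz hst stN9 (N1 := 74) (by omega) hAl hp h
    exact ⟨fun n hn hn2 => h1.clean n (lt_of_lt_of_le hn (hE p hp)) hn2, fun h => by omega⟩
  have hpl : ∀ z : P, St 9 8 z ∨ St 9 4 z → plz 9 68 74 74 z = 74 := by
    intro z h
    by_cases h8 : St 9 8 z
    · exact plz_8 H h8
    · exact plz_4 H (h.resolve_left h8) h8
  have hUst : ∀ z z' : P, St 9 8 z ∨ St 9 4 z → z' ∈ bdR (r2 (2 * 9) N) → z' ∉ fam 9 N z → ∀ n,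
      n < 74 → n < Uu 9 (h2 (2 * 9) N θ) z z' := by
    intro z z' h hz' hne n hn
    rcases h with ⟨f, v, S⟩ | ⟨f, v, S⟩
    · exact W.star_U stN9 hAl (Or.inl rfl) S hz' hne
        (le_trans hn.le (hE 8 (Or.inl rfl))) hn
    · exact W.star_U stN9 hAl (Or.inr rfl) S hz' hne
        (le_trans hn.le (hE 4 (Or.inr rfl))) hn
  refine ⟨by omega, fun z y h hy => ⟨h.same hy, plz_same hy⟩, fun z _ h => h.lev, sg_ne _,
    sg_ne _, ?_, ?_, ?_⟩
  · intro z hz h
    rcases h with h | h | h
    · rw [plz_cc h]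
      have h1 := W.fz_cc hz h 74
      rw [show E0 9 + hh 9 ^ 2 = 68 by decide] at h1
      have h2 : sg1 P 9 = sg P 9 (fun n => if n = 65 then 1 else 0) 68 := by
        unfold sg1
        rw [Nat.add_assoc]
        exact sg_of (by decide)
      rwa [h2] at h1
    · rw [hpl z (Or.inl h)]
      exact hSt z 8 (Or.inl rfl) h
    · rw [hpl z (Or.inr h)]
      exact hSt z 4 (Or.inr rfl) h
  · intro z hz h z' hz' h' hne n hn hn1 hn2
    by_cases hs : St 9 8 z ∨ St 9 4 z
    · exact hUst z z' hs hz' hne n hn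
    · by_cases hs' : St 9 8 z' ∨ St 9 4 z'
      · rw [Uu_comm]
        refine hUst z' z hs' hz ?_ n hn
        intro h3
        rw [fam_eq h3] at hne
        exact hne (self_mem_fam hz')
      · have h1 : CC 9 z := h.resolve_right hs
        have h2 : CC 9 z' := h'.resolve_right hs'
        have h3 := W.U_cc (k := kF 9 9) (by decide) h1 h2 (W.cc_data (bd_mem hz) h1).2.1
          (W.cc_data (bd_mem hz') h2).2.1 (fun f hf => W.ct_fold hf _)
          (mem_of_not_fam hz' hne)
        rw [plz_cc h1] at hn1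
        have h4 : 68 < 2 * vsQ 9 9 (kF 9 9) (fun d => 1 + pF 9 d) + 2 * kF 9 9 := by decide
        omega
  · intro z hz hb hl
    rcases rows9 W hK S7 hz hl with ⟨x, x', hx, hx', ht, hzx, hzx', hn⟩ |
      ⟨x, x', hx, hx', h1, ht, hzx, hzx', p, hp, hpr, htd, hn⟩ |
      ⟨x, x', hx, h1, ht, hne, hzx, hzx'⟩ | ⟨hF, h⟩
    · exact nq_ok hn (by decide)
    · refine nq_ok hn ?_
      have h3 : ∀ p ∈ PL 9 9, gD p 7 ≠ 1 → okR 9 9 (kF 9 9) 74 (fun n => if n = 65 then 1 else 0)
        (fun _ => 0) (fun d => (1 + pF 9 d) + (1 + gD p d)) := by decide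
      refine h3 p hp fun h7 => hb (Or.inr ?_)
      rcases htd h7 with ⟨e1, e2⟩ | ⟨e1, e2⟩
      · subst e1
        exact Or.inl ⟨x, x', hl, hx, h1, ht, hzx, hzx', e2, hpr⟩
      · subst e1
        exact Or.inr ⟨x, x', hl, hx, h1, ht, hzx, hzx', e2, hpr⟩
    · exact absurd (Or.inl ⟨hl, x, x', hx, h1, ht, hne, hzx, hzx'⟩) hb
    · left
      omega

/-- after stage 1 -/
theorem after9a (W : WC r 9 9 K N b θ) (hK : 91 ≤ K) (S7 : S7F P 9) (hst : StarT 9 9 K N b θ) :
    (∀ z : P, ¬ CC 9 z) ∧ ∀ z x x' : P, lev z = 2 * 9 + 1 → Fd 9 x → (Win.uc x').card = 1 →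
      topOf x ≠ topOf x' → z ⋖ x → z ⋖ x' →
      Fd 9 x' ∨ Prof 9 x' (gD p20) ∨ St 9 8 z ∨ St 9 4 z := by
  have H := W.gt.H
  obtain ⟨k1, k2⟩ := W.wi.ladder (lad9a W hK S7 hst)
  have hcc : ∀ z : P, ¬ CC 9 z := by
    intro z h
    have h1 := k1 z (W.cc_mem h) (Or.inl h)
    rw [plz_cc h] at h1
    omega
  refine ⟨hcc, ?_⟩
  intro z x x' hl hx h1 ht hzx hzx'
  by_contra hcon
  rw [not_or, not_or] at hcon
  obtain ⟨c1, c2, c3⟩ := hcon
  have hzb := W.jn_mem hl ht hzx hzx'
  have hnb : ¬ Bz 9 z := by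
    rintro (h | h)
    · exact hcc z h
    · exact c3 h
  have hc := k2 z hzb hnb
  have hxx : x ≠ x' := fun h => ht (by rw [h])
  rcases rows9 W hK S7 hzb hl with ⟨y, y', hy, hy', ht', hzy, hzy', hn⟩ |
    ⟨y, y', hy, hy', h1', ht', hzy, hzy', p, hp, hpr, htd, hn⟩ |
    ⟨y, y', hy, h1', ht', hne, hzy, hzy'⟩ | ⟨hF, h⟩
  · rcases uc_pair H hzy hzy' (fun h => ht' (by rw [h])) hzx' with e | e
    · rw [e] at c1
      exact c1 hy
    · rw [e] at c1
      exact c1 hy'
  · have e : x' = y' := by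
      rcases uc_pair H hzy hzy' (fun h => ht' (by rw [h])) hzx' with e | e
      · rw [e] at c1
        exact absurd hy c1
      · exact e
    subst e
    rw [hn.cst] at hc
    have h3 : ∀ p ∈ PL 9 9, gD p 7 ≠ 1 → 74 ≤ vsQ 9 9 (kF 9 9)
      (fun d => (1 + pF 9 d) + (1 + gD p d)) + kF 9 9 → p = p20 := by decide
    by_cases h7 : gD p 7 = 1
    · refine c3 ?_
      rcases htd h7 with ⟨e1, e2⟩ | ⟨e1, e2⟩
      · subst e1
        exact Or.inl ⟨y, x', hl, hy, h1', ht', hzy, hzy', e2, hpr⟩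
      · subst e1
        exact Or.inr ⟨y, x', hl, hy, h1', ht', hzy, hzy', e2, hpr⟩
    · have h4 := h3 p hp h7 hc
      subst h4
      exact c2 hpr
  · exact hcc z ⟨hl, y, y', hy, h1', ht', hne, hzy, hzy'⟩
  · exact W.fd_not_full hx (hF x hzx)

end Pool.Agent.GaussPoset.Fi

end

/-! From `Pool.Agent.W_448s8f_h76.FiL` -/

section

/-!
`m = 9`: window 8 and the second part of window 9 (MP_448cb3_co, S8).
-/

namespace Pool.Agent.GaussPoset.Fi

set_option linter.unusedSectionVars false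

open Polynomial Finset

universe u

variable {P : Type u} [Fintype P] [PartialOrder P] [DecidableEq P] {r i m K N0 : ℕ}
  {N : Tops P → Finset P} {b : Tops P → ℕ} {θ : Tops P → P → ℕ}

/-- pendants below a fold end are dead -/
theorem noPen9 (W : WC r 9 9 K N b θ) (hK : 91 ≤ K) (S7 : S7F P 9) {z x : P}
    (hl : lev z = 2 * 9 + 1) (hx : Fd 9 x) (hp : Pend z x) : False := by
  have hzb := W.wi.mem_bd (W.pend_r2 hx hp) hl
  rcases rows9 W hK S7 hzb hl with ⟨y, y', hy, hy', ht', hzy, hzy', hn⟩ |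
    ⟨y, y', hy, hy', h1', ht', hzy, hzy', p, hpp, hpr, htd, hn⟩ |
    ⟨y, y', hy, h1', ht', hne, hzy, hzy'⟩ | ⟨hF, h⟩
  · exact ht' (by rw [hp.2 y hzy, hp.2 y' hzy'])
  · exact ht' (by rw [hp.2 y hzy, hp.2 y' hzy'])
  · exact hne (by rw [hp.2 y hzy, hp.2 y' hzy'])
  · exact W.fd_not_full hx (hF x hp.1)

/-- the facts from window 9 -/
structure F9 (P : Type u) [Fintype P] [PartialOrder P] [DecidableEq P] : Prop where
  pen : ∀ z x : P, lev z = 2 * 9 + 1 → Fd 9 x → Pend z x → False
  cc : ∀ z : P, ¬ CC 9 z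
  jn : ∀ z x x' : P, lev z = 2 * 9 + 1 → Fd 9 x → (Win.uc x').card = 1 →
      topOf x ≠ topOf x' → z ⋖ x → z ⋖ x' →
      Fd 9 x' ∨ Prof 9 x' (gD p20) ∨ St 9 8 z ∨ St 9 4 z

/-- the table of window 8 -/
inductive R8 (N : Tops P → Finset P) (θ : Tops P → P → ℕ) (z : P) : Prop
  | ff (x x' : P) (hx : Fd 9 x) (hx' : Fd 9 x') (ht : topOf x ≠ topOf x') (hzx : z ⋖ x)
      (hzx' : z ⋖ x') (hn : NQ 8 9 N θ z (kF 8 9) (fun d => (1 + pF 9 d) + (1 + pF 9 d)))
  | fv (x x' : P) (hx : Fd 9 x) (h1 : (Win.uc x').card = 1)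
      (ht : topOf x ≠ topOf x') (hzx : z ⋖ x) (hzx' : z ⋖ x')
      (hpr : Prof 9 x' (gD p20))
      (hn : NQ 8 9 N θ z (kF 8 9) (fun d => (1 + pF 9 d) + (1 + gD p20 d)))
  | st (x x' : P) (hx : Fd 9 x) (h1 : (Win.uc x').card = 1)
      (ht : topOf x ≠ topOf x') (hzx : z ⋖ x) (hzx' : z ⋖ x')
      (h : St 9 8 z ∨ St 9 4 z) (hn : h2 (2 * 9) N θ z = kF 8 9)
  | full (hF : ∀ y, z ⋖ y → Full 8 9 N θ y) (h : 121 ≤ cst 8 (h2 (2 * 9) N θ) z)

theorem rows98 (W : WC r 8 9 K N b θ) (S7 : S7F P 9) (F : F9 P) {z : P}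
    (hz : z ∈ bdR (r2 (2 * 9) N)) (hl : lev z = 2 * 9 + 1) : R8 N θ z := by
  rcases W.rows S7 (by decide) (bd_mem hz) hl with ⟨x, hx, hp, hn⟩ | ⟨x, hx, hp, p, hp', hn⟩ |
    ⟨x, x', hx, hx', ht, hzx, hzx', p, hp, hpr, hn⟩ | ⟨x, x', hx, hx', ht, hzx, hzx', hn⟩ |
    ⟨x, x', hx, hx', h1, ht, hzx, hzx', p, hp, hpr, htd, hn⟩ | ⟨x, x', hx, h1, ht, hne, hzx, hzx'⟩ |
    ⟨hF, h⟩
  · exact (F.pen z x hl hx hp).elim
  · rw [show HL 8 9 = [] by decide] at hp'
    exact absurd hp' List.not_mem_nil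
  · rw [show HL 8 9 = [] by decide] at hp
    exact absurd hp List.not_mem_nil
  · exact R8.ff x x' hx hx' ht hzx hzx' hn
  · rcases F.jn z x x' hl hx h1 ht hzx hzx' with h | h | h
    · exact (W.fd_not_full h hx').elim
    · have h4 : ∀ p ∈ PL 8 9, (∀ d, d ≤ 18 → gD p d = gD p20 d) → p = p20 := by decide
      have h5 := h4 p hp (fun d hd => by
        have e1 := hpr d hd
        have e2 := h d hd
        omega)
      subst h5
      exact R8.fv x x' hx h1 ht hzx hzx' hpr hn
    · exact R8.st x x' hx h1 ht hzx hzx' h hn.lab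
  · exact (F.cc z ⟨hl, x, x', hx, h1, ht, hne, hzx, hzx'⟩).elim
  · exact R8.full hF (le_trans (by norm_num) h)

/-- the elements alive at window 8 -/
theorem al98 (W : WC r 8 9 K N b θ) (hK : 122 ≤ K) (S7 : S7F P 9) (F : F9 P) :
    ∀ y ∈ bdR (r2 (2 * 9) N), Al 8 9 (kF 8 9) (vsQ 8 9 (kF 8 9) (fun d => 1 + pF 9 d))
      (vsQ 8 9 (kF 8 9) (fun _ => 1)) 121 N θ y := by
  intro z hz
  rcases W.wi.bd hz with hl | h
  swap
  · exact Al.big (by omega)
  rcases rows98 W S7 F hz hl with ⟨x, x', hx, hx', ht, hzx, hzx', hn⟩ |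
    ⟨x, x', hx, h1, ht, hzx, hzx', hpr, hn⟩ | ⟨x, x', hx, h1, ht, hzx, hzx', h, hn⟩ | ⟨hF, h⟩
  · exact Al.jn x x' hl hn.lab hx hx'.2.1 ht hzx hzx'
  · exact Al.jn x x' hl hn.lab hx h1 ht hzx hzx'
  · exact Al.jn x x' hl hn hx h1 ht hzx hzx'
  · exact Al.big h

/-- the poles at window 8 -/
def E98 (p : ℕ) : ℕ := if p = 8 then 116 else 124

theorem stN98 : StN 8 9 E98 where
  hk := by decide
  i_lt := by norm_num
  hHL := by decide
  pm := by
    intro p
    unfold pp
    split_ifs <;> decide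
  eE := by
    rintro p (rfl | rfl) <;> decide
  c1 := by
    rintro p (rfl | rfl) <;> decide
  c2 := by decide

/-- stage 2: the ladder at window 8 -/
theorem lad98 (W : WC r 8 9 K N b θ) (hK : 122 ≤ K) (S7 : S7F P 9) (F : F9 P)
    (hst : StarT 8 9 K N b θ) :
    Lad 8 9 K N θ 121 (Bz 9) (plz 9 0 116 121) (sg P 8 (fun n => if n = 116 then 1 else 0))
      (sg P 8 (fun _ => 0)) := by
  have H := W.gt.H
  have hAl := al98 W hK S7 F
  have hUst : ∀ z z' : P, St 9 8 z ∨ St 9 4 z → z' ∈ bdR (r2 (2 * 9) N) → z' ∉ fam 9 N z → ∀ n,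
      n < 121 → n ≤ plz 9 0 116 121 z → n < Uu 8 (h2 (2 * 9) N θ) z z' := by
    intro z z' h hz' hne n hn hn1
    by_cases h8 : St 9 8 z
    · rw [plz_8 H h8] at hn1
      obtain ⟨f, v, S⟩ := h8
      exact W.star_U stN98 hAl (Or.inl rfl) S hz' hne hn1 hn
    · obtain ⟨f, v, S⟩ := h.resolve_left h8
      exact W.star_U stN98 hAl (Or.inr rfl) S hz' hne (hn.le.trans (by decide)) hn
  refine ⟨by omega, fun z y h hy => ⟨h.same hy, plz_same hy⟩, fun z _ h => h.lev, sg_ne _,
    sg_ne _, ?_, ?_, ?_⟩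
  · intro z hz h
    have h' : St 9 8 z ∨ St 9 4 z := h.resolve_left (F.cc z)
    by_cases h8 : St 9 8 z
    · rw [plz_8 H h8]
      have h1 := W.star_fz hst stN98 (N1 := 121) (by omega) hAl (Or.inl rfl) h8
      rwa [sg_of (q1 := fun n => if n = 116 then 1 else 0) (n := 116) (by decide)] at h1
    · have h4 := h'.resolve_left h8
      rw [plz_4 H h4 h8]
      have h1 := W.star_fz hst stN98 (N1 := 121) (by omega) hAl (Or.inr rfl) h4
      exact ⟨fun n hn hn2 => h1.clean n (lt_of_lt_of_le hn (by decide)) hn2, fun h => by omega⟩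
  · intro z hz h z' hz' h' hne n hn hn1 hn2
    exact hUst z z' (h.resolve_left (F.cc z)) hz' hne n hn hn1
  · intro z hz hb hl
    rcases rows98 W S7 F hz hl with ⟨x, x', hx, hx', ht, hzx, hzx', hn⟩ |
      ⟨x, x', hx, h1, ht, hzx, hzx', hpr, hn⟩ | ⟨x, x', hx, h1, ht, hzx, hzx', h, hn⟩ | ⟨hF, h⟩
    · exact nq_ok hn (by decide)
    · exact nq_ok hn (by decide)
    · exact absurd (Or.inr h) hb
    · exact Or.inl h

/-- after window 8 -/
theorem after98 (W : WC r 8 9 K N b θ) (hK : 122 ≤ K) (S7 : S7F P 9) (F : F9 P)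
    (hst : StarT 8 9 K N b θ) : (∀ z : P, ¬ St 9 8 z) ∧ ∀ z x x' : P, lev z = 2 * 9 + 1 →
      Fd 9 x → (Win.uc x').card = 1 → topOf x ≠ topOf x' → z ⋖ x → z ⋖ x' →
      Fd 9 x' ∨ St 9 4 z := by
  have H := W.gt.H
  obtain ⟨k1, k2⟩ := W.wi.ladder (lad98 W hK S7 F hst)
  have h8 : ∀ z : P, ¬ St 9 8 z := by
    intro z h
    have h2 := h
    obtain ⟨f, v, S⟩ := h2
    have h1 := k1 z (W.jn_mem S.lev S.ne S.zf S.zv) (Or.inr (Or.inl h))
    rw [plz_8 H h] at h1
    omega
  refine ⟨h8, ?_⟩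
  intro z x x' hl hx h1 ht hzx hzx'
  by_contra hcon
  rw [not_or] at hcon
  obtain ⟨c1, c2⟩ := hcon
  have hzb := W.jn_mem hl ht hzx hzx'
  have hnb : ¬ Bz 9 z := by
    rintro (h | h | h)
    · exact F.cc z h
    · exact h8 z h
    · exact c2 h
  have hc := k2 z hzb hnb
  rcases rows98 W S7 F hzb hl with ⟨y, y', hy, hy', ht', hzy, hzy', hn⟩ |
      ⟨y, y', hy, h1', ht', hzy, hzy', hpr, hn⟩ | ⟨y, y', hy, h1', ht', hzy, hzy', h, hn⟩ | ⟨hF, h⟩
  · rcases uc_pair H hzy hzy' (fun h => ht' (by rw [h])) hzx' with e | e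
    · rw [e] at c1
      exact c1 hy
    · rw [e] at c1
      exact c1 hy'
  · rw [hn.cst] at hc
    exact absurd hc (by decide)
  · rcases h with h | h
    · exact h8 z h
    · exact c2 h
  · exact W.fd_not_full hx (hF x hzx)

/-- stage 3: the ladder below 90, window 9 -/
theorem lad9b (W : WC r 9 9 K N b θ) (hK : 91 ≤ K) (S7 : S7F P 9) (hst : StarT 9 9 K N b θ)
    (hcc : ∀ z : P, ¬ CC 9 z) (h8 : ∀ z : P, ¬ St 9 8 z)
    (hj : ∀ z x x' : P, lev z = 2 * 9 + 1 →
      Fd 9 x → (Win.uc x').card = 1 → topOf x ≠ topOf x' → z ⋖ x → z ⋖ x' →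
      Fd 9 x' ∨ St 9 4 z) :
    Lad 9 9 K N θ 90 (fun z => St 9 4 z) (fun _ => 78) (sg P 9 (fun _ => 1))
      (sg P 9 (fun _ => 0)) := by
  have H := W.gt.H
  have hAl := al9 W hK S7
  refine ⟨by omega, fun z y h hy => ⟨h.same hy, rfl⟩, ?_, sg_ne _,
    sg_ne _, ?_, ?_, ?_⟩
  · rintro z - ⟨f, v, S⟩
    exact S.lev
  · intro z hz h
    have h1 := W.star_fz hst stN9 (N1 := 90) (by omega) hAl (Or.inr rfl) h
    rwa [sg_of (q1 := fun _ => 1) (n := 78) (by decide)] at h1
  · intro z hz h z' hz' h' hne n hn hn1 hn2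
    obtain ⟨f, v, S⟩ := h
    exact W.star_U stN9 hAl (Or.inr rfl) S hz' hne hn1 hn
  · intro z hz hb hl
    rcases rows9 W hK S7 hz hl with ⟨x, x', hx, hx', ht, hzx, hzx', hn⟩ |
      ⟨x, x', hx, hx', h1, ht, hzx, hzx', p, hp, hpr, htd, hn⟩ |
      ⟨x, x', hx, h1, ht, hne, hzx, hzx'⟩ | ⟨hF, h⟩
    · exact nq_ok hn (by decide)
    · rcases hj z x x' hl hx h1 ht hzx hzx' with h | h
      · exact (W.fd_not_full h hx').elim
      · exact absurd h hb
    · exact (hcc z ⟨hl, x, x', hx, h1, ht, hne, hzx, hzx'⟩).elim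
    · left
      omega

/-- only joins of two fold ends are left -/
theorem after9b (W : WC r 9 9 K N b θ) (hK : 91 ≤ K) (S7 : S7F P 9) (hst : StarT 9 9 K N b θ)
    (hcc : ∀ z : P, ¬ CC 9 z) (h8 : ∀ z : P, ¬ St 9 8 z)
    (hj : ∀ z x x' : P, lev z = 2 * 9 + 1 →
      Fd 9 x → (Win.uc x').card = 1 → topOf x ≠ topOf x' → z ⋖ x → z ⋖ x' →
      Fd 9 x' ∨ St 9 4 z) : ∀ z x x' : P, lev z = 2 * 9 + 1 →
      Fd 9 x → (Win.uc x').card = 1 → topOf x ≠ topOf x' → z ⋖ x → z ⋖ x' → Fd 9 x' := by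
  intro z x x' hl hx h1 ht hzx hzx'
  refine (hj z x x' hl hx h1 ht hzx hzx').resolve_right fun h => ?_
  have h3 := (W.wi.ladder (lad9b W hK S7 hst hcc h8 hj)).1 z (W.jn_mem hl ht hzx hzx') h
  omega

/-- **`m = 9`: everything below a fold end is dead except the joins of two fold ends.** -/
theorem below9 {K' : ℕ} {N' : Tops P → Finset P} {b' : Tops P → ℕ} {θ' : Tops P → P → ℕ}
    (W : WC r 9 9 K N b θ) (hK : 91 ≤ K) (W' : WC r 8 9 K' N' b' θ') (hK' : 122 ≤ K')
    (S7 : S7F P 9) (hst : StarT 9 9 K N b θ) (hst' : StarT 8 9 K' N' b' θ') :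
    (∀ z x : P, lev z = 2 * 9 + 1 → Fd 9 x → Pend z x → False) ∧ (∀ z : P, ¬ CC 9 z) ∧
    ∀ z x x' : P, lev z = 2 * 9 + 1 → Fd 9 x → (Win.uc x').card = 1 → topOf x ≠ topOf x' →
      z ⋖ x → z ⋖ x' → Fd 9 x' := by
  obtain ⟨hcc, hj⟩ := after9a W hK S7 hst
  have F : F9 P := ⟨fun z x hl hx hp => noPen9 W hK S7 hl hx hp, hcc, hj⟩
  obtain ⟨h8, hj'⟩ := after98 W' hK' S7 F hst'
  exact ⟨F.pen, hcc, after9b W hK S7 hst hcc h8 hj'⟩

end Pool.Agent.GaussPoset.Fi

end

/-! From `Pool.Agent.W_448s8f_h76.FiM` -/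

section

/-!
The seventh step for `j = 18` in the form of S8 (MP_448cb3_co).
-/

namespace Pool.Agent.GaussPoset.Fi

set_option linter.unusedSectionVars false

open Polynomial Finset

universe u

variable {P : Type u} [Fintype P] [PartialOrder P] [DecidableEq P] {r i m j K : ℕ}

/-- the last cell of a complete stair is a fold end -/
lemma fd_of_stair (G : Win.GoodTo P r (2 * m)) (hm : 2 ≤ m) {t : Tops P} {lo hi : ℕ → ℕ}
    {e : ℕ → ℕ → P} (C : Cp.Comp (2 * m) (t : P) lo hi e) (S : StairShape (2 * m) lo hi) {x : P}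
    (hx : x ≤ (t : P)) (hl : lev x = 2 * m) (hu : (Win.uc x).card = 1)
    (hn : ¬ ∀ k, k ≤ 2 * m → nab k x = 1) : Fd m x := by
  have Ch := chart_stair C G.H G.good S
  have hxN : x ∈ lowPart (2 * m) (t : P) := mem_lowPart.mpr ⟨hx, hl.le⟩
  have hc := Ch.lev x hxN
  have hS : (ccoord lo hi e x).1 ≤ (ccoord lo hi e x).2 := Ch.mem x hxN
  refine ⟨hl, hu, ?_⟩
  by_cases h0 : (ccoord lo hi e x).1 = 0
  · exfalso
    apply hn
    intro k hk
    rw [nab_chart Ch hxN]
    have := card_cellsAt_shift (l := k) (p := ccoord lo hi e x) hS (by omega)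
    omega
  · have h3 : (ccoord lo hi e x).1 = (ccoord lo hi e x).2 := by
      by_contra hcon
      have := chartS_inner_uc Ch G.H hxN (by omega) (by omega)
      omega
    rw [nab_chart Ch hxN]
    have := card_cellsAt_shift (l := 2) (p := ccoord lo hi e x) hS (by omega)
    omega

/-- the seventh step, `2 m ≥ 17` -/
theorem s7F_of (hm : 9 ≤ m) (G : Win.GoodTo P r (2 * m))
    {lo hi : Tops P → ℕ → ℕ} {e : Tops P → ℕ → ℕ → P}
    (C : ∀ t : Tops P, Cp.Comp (2 * m) (t : P) (lo t) (hi t) (e t))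
    (hS : ∀ t, Wd.Shape (2 * m) (lo t) (hi t)) : S7F P m := by
  intro z x x' hl hzx hzx' hne
  by_contra hcon
  rw [not_or] at hcon
  obtain ⟨h1, h2⟩ := single_of_join G (by omega) hl hzx hzx' hne
  have l1 := (G.H.covBy_iff.mp hzx).2
  have l2 := (G.H.covBy_iff.mp hzx').2
  have key : ∀ x : P, lev x = 2 * m → (Win.uc x).card = 1 → ¬ Fd m x →
      (RectShape (2 * m) (lo (topOf x)) (hi (topOf x)) ∨
        StairShape (2 * m) (lo (topOf x)) (hi (topOf x))) → ∀ k, k ≤ 2 * m → nab k x = 1 := by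
    intro x hlx hu hnf hsh
    rcases hsh with hsh | hsh
    · exact straight_rect G (C (topOf x)) hsh (le_topOf x) hlx hu
    · by_contra hcn
      exact hnf (fd_of_stair G (by omega) (C (topOf x)) hsh (le_topOf x) hlx hu hcn)
  exact no_end_join G (by omega) C hS hl hzx hzx' hne (key x (by omega) h1 hcon.1)
    (key x' (by omega) h2 hcon.2)

end Pool.Agent.GaussPoset.Fi

end

/-! From `Pool.Agent.W_448s8f_h76.FiN` -/

section

/-!
No joins on the level 18 (`j = 17`); the frame for `j = 16`, `j = 18` (MP_448cb3_co).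
-/

namespace Pool.Agent.GaussPoset.Fi

set_option linter.unusedSectionVars false

open Polynomial Finset

universe u

variable {P : Type u} [Fintype P] [PartialOrder P] [DecidableEq P] {r i m j K : ℕ}
  {N : Tops P → Finset P} {b : Tops P → ℕ} {θ : Tops P → P → ℕ}

/-- from covers to maximal elements -/
theorem no_jn_of (G : Win.GoodTo P r j)
    (h : ∀ z x x' : P, lev z = j + 1 → z ⋖ x → z ⋖ x' → topOf x = topOf x') (z : P)
    (hl : lev z = j + 1) : ¬ Hul.Jn z := by
  rintro ⟨s, s', hs, hs', hne, hzs, hzs'⟩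
  have hlt : ∀ s : P, lev s = 0 → z ≤ s → z < s := fun s hs hzs =>
    lt_of_le_of_ne hzs (by rintro rfl; omega)
  obtain ⟨x, hzx, hxs⟩ := Hul.exists_cov (hlt s hs hzs)
  obtain ⟨x', hzx', hxs'⟩ := Hul.exists_cov (hlt s' hs' hzs')
  have l1 := (G.H.covBy_iff.mp hzx).2
  have l2 := (G.H.covBy_iff.mp hzx').2
  have e1 := mem_onlyB.mp (only_of_le G.H G.good (le_topOf x) (by omega)) s hs hxs
  have e2 := mem_onlyB.mp (only_of_le G.H G.good (le_topOf x') (by omega)) s' hs' hxs'
  apply hne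
  rw [e1, e2, h z x x' hl hzx hzx']

/-- no element of level 18 is below two maximal elements, `j = 17` -/
theorem no_cross17 (G : Win.GoodTo P r 17)
    {lo hi : Tops P → ℕ → ℕ} {e : Tops P → ℕ → ℕ → P}
    (C : ∀ t : Tops P, Cp.Comp 17 (t : P) (lo t) (hi t) (e t))
    (hS : ∀ t, Wd.Shape 17 (lo t) (hi t)) {z x x' : P} (hl : lev z = 17 + 1) (hzx : z ⋖ x)
    (hzx' : z ⋖ x') : topOf x = topOf x' := by
  by_contra hne
  obtain ⟨h1, h2⟩ := single_of_join G (by omega) hl hzx hzx' hne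
  have l1 := (G.H.covBy_iff.mp hzx).2
  have l2 := (G.H.covBy_iff.mp hzx').2
  have key : ∀ x : P, lev x = 17 → (Win.uc x).card = 1 →
      (RectShape 17 (lo (topOf x)) (hi (topOf x)) ∨
        StairShape 17 (lo (topOf x)) (hi (topOf x))) → ∀ k, k ≤ 17 → nab k x = 1 := by
    intro x hlx hu hsh
    rcases hsh with hsh | hsh
    · exact straight_rect G (C (topOf x)) hsh (le_topOf x) hlx hu
    · rcases straight_stair G (C (topOf x)) hsh (le_topOf x) hlx hu with h | ⟨h, -⟩
      · exact h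
      · omega
  exact no_end_join G (by omega) C hS hl hzx hzx' hne (key x (by omega) h1)
    (key x' (by omega) h2)

theorem no_jn17 (G : Win.GoodTo P r 17)
    {lo hi : Tops P → ℕ → ℕ} {e : Tops P → ℕ → ℕ → P}
    (C : ∀ t : Tops P, Cp.Comp 17 (t : P) (lo t) (hi t) (e t))
    (hS : ∀ t, Wd.Shape 17 (lo t) (hi t)) (z : P) (hl : lev z = 17 + 1) : ¬ Hul.Jn z :=
  no_jn_of G (fun _ _ _ hl hzx hzx' => no_cross17 G C hS hl hzx hzx') z hl

/-- `m = 8`: no joins -/
theorem no_cross16 (W : WC r 8 8 K N b θ) (hK : 43 ≤ K) (S7 : S7F P 8)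
    (hst : StarT 8 8 K N b θ) {z x x' : P} (hl : lev z = 2 * 8 + 1) (hzx : z ⋖ x)
    (hzx' : z ⋖ x') : topOf x = topOf x' := by
  by_contra hne
  have hz := W.join_r2 hne hzx hzx'
  rcases S7 z x x' hl hzx hzx' hne with h | h
  · exact below8 W hK S7 hst hz hl h hzx
  · exact below8 W hK S7 hst hz hl h hzx'

/-- `m = 9`: no joins, if there are no joins of two fold ends -/
theorem no_cross18 {K' : ℕ} {N' : Tops P → Finset P} {b' : Tops P → ℕ} {θ' : Tops P → P → ℕ}
    (W : WC r 9 9 K N b θ) (hK : 91 ≤ K) (W' : WC r 8 9 K' N' b' θ') (hK' : 122 ≤ K')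
    (S7 : S7F P 9) (hst : StarT 9 9 K N b θ) (hst' : StarT 8 9 K' N' b' θ')
    (hff : ∀ z x x' : P, lev z = 2 * 9 + 1 → Fd 9 x → Fd 9 x' → topOf x ≠ topOf x' → z ⋖ x →
      z ⋖ x' → False) {z x x' : P} (hl : lev z = 2 * 9 + 1) (hzx : z ⋖ x)
    (hzx' : z ⋖ x') : topOf x = topOf x' := by
  by_contra hne
  obtain ⟨h1, h2⟩ := single_of_join W.gt (by omega) hl hzx hzx' hne
  obtain ⟨-, -, hB⟩ := below9 W hK W' hK' S7 hst hst'
  rcases S7 z x x' hl hzx hzx' hne with h | h
  · exact hff z x x' hl h (hB z x x' hl h h2 hne hzx hzx') hne hzx hzx'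
  · exact hff z x' x hl h (hB z x' x hl h h1 (Ne.symm hne) hzx' hzx) (Ne.symm hne) hzx' hzx

end Pool.Agent.GaussPoset.Fi

end

/-! From `Pool.Agent.W_448s8f_h76.FiO` -/

section

/-!
`m = 9`: no joins at all (MP_448cb3_co, S8).
-/

namespace Pool.Agent.GaussPoset.Fi

set_option linter.unusedSectionVars false

open Polynomial Finset

universe u

variable {P : Type u} [Fintype P] [PartialOrder P] [DecidableEq P] {r i m j K : ℕ}
  {N : Tops P → Finset P} {b : Tops P → ℕ} {θ : Tops P → P → ℕ}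

/-- heavy ends have no natural elements below them -/
lemma WC.he_r2 (W : WC r i m K N b θ) {z x : P} (hl : lev z = 2 * m + 1) (hx : He i m N θ x)
    (hzx : z ⋖ x) : z ∈ r2 (2 * m) N := by
  have HN := W.wi.natSys
  have key : ∀ y : P, lev y = 2 * m + 1 → y ∉ unnat N → y ⋖ x → False := by
    intro y hly hy hyx
    have h1 : y ∈ N (topOf y) := HN.mem_iff.mpr ⟨hy, rfl⟩
    rw [HN.cp y x hyx.1.le hy, hx.nat, mem_lowPart] at h1
    omega
  refine mem_sdiff.mpr ⟨?_, fun hY => ?_⟩
  · by_contra h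
    exact key z hl h hzx
  · have T := W.wi.twSys
    have h2 := (T.cov hY).mpr hzx
    refine key _ ?_ (T.nat z hY) h2
    have := (W.gt.H.covBy_iff.mp h2).2
    have := (W.gt.H.covBy_iff.mp hzx).2
    omega

/-- no elements below the end of a complete quadric, `m = 9` -/
theorem noHe9 (W : WC r 9 9 K N b θ) (hK : 91 ≤ K) (S7 : S7F P 9) {z x : P}
    (hl : lev z = 2 * 9 + 1) (hx : He 9 9 N θ x) (hzx : z ⋖ x) : False := by
  have H := W.gt.H
  have hzb := W.wi.mem_bd (W.he_r2 hl hx hzx) hl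
  have hFH : ∀ y : P, Fd 9 y → He 9 9 N θ y → False := by
    intro y h1 h2
    have h3 := W.fold_th h1
    have h4 := h2.th
    omega
  have hUH : ∀ y : P, Full 9 9 N θ y → He 9 9 N θ y → False := by
    intro y h1 h2
    have h3 := h1.th
    have h4 := h2.th
    have h5 := h2.lev
    omega
  rcases rows9 W hK S7 hzb hl with ⟨y, y', hy, hy', ht, hzy, hzy', hn⟩ |
    ⟨y, y', hy, hy', h1, ht, hzy, hzy', p, hp, hpr, htd, hn⟩ |
    ⟨y, y', hy, h1, ht, hne, hzy, hzy'⟩ | ⟨hF, h⟩
  · rcases uc_pair H hzy hzy' (fun h => ht (by rw [h])) hzx with e | e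
    · rw [e] at hx
      exact hFH y hy hx
    · rw [e] at hx
      exact hFH y' hy' hx
  · rcases uc_pair H hzy hzy' (fun h => ht (by rw [h])) hzx with e | e
    · rw [e] at hx
      exact hFH y hy hx
    · rw [e] at hx
      exact hUH y' hy' hx
  · rcases uc_pair H hzy hzy' hne hzx with e | e
    · rw [e] at hx
      exact hFH y hy hx
    · rw [e] at hx
      exact hne (hx.uniq y (by rw [ht]; exact le_topOf y) hy.1)
  · exact hUH x (hF x hzx) hx

/-- `m = 9`: no joins -/
theorem no_cross18' {K' : ℕ} {N' : Tops P → Finset P} {b' : Tops P → ℕ} {θ' : Tops P → P → ℕ}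
    (W : WC r 9 9 K N b θ) (hK : 91 ≤ K) (W' : WC r 8 9 K' N' b' θ') (hK' : 122 ≤ K')
    (S7 : S7F P 9) (hst : StarT 9 9 K N b θ) (hst' : StarT 8 9 K' N' b' θ')
    {z x x' : P} (hl : lev z = 2 * 9 + 1) (hzx : z ⋖ x)
    (hzx' : z ⋖ x') : topOf x = topOf x' := by
  have H := W.gt.H
  obtain ⟨-, hcc, hB⟩ := below9 W hK W' hK' S7 hst hst'
  refine no_cross18 W hK W' hK' S7 hst hst' ?_ hl hzx hzx'
  refine W.no_ff_odd (by norm_num) le_rfl ?_ (fun z x hl hx hzx => noHe9 W hK S7 hl hx hzx) S7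
  intro z x hl hz hx hzx
  rcases rows9 W hK S7 (W.wi.mem_bd hz hl) hl with ⟨y, y', hy, hy', ht, hzy, hzy', hn⟩ |
    ⟨y, y', hy, hy', h1, ht, hzy, hzy', p, hp, hpr, htd, hn⟩ |
    ⟨y, y', hy, h1, ht, hne, hzy, hzy'⟩ | ⟨hF, h⟩
  · rcases uc_pair H hzy hzy' (fun h => ht (by rw [h])) hzx with e | e
    · rw [e]
      exact ⟨y', hy', ht, hzy'⟩
    · rw [e]
      exact ⟨y, hy, Ne.symm ht, hzy⟩
  · exact (W.fd_not_full (hB z y y' hl hy h1 ht hzy hzy') hy').elim
  · exact (hcc z ⟨hl, y, y', hy, h1, ht, hne, hzy, hzy'⟩).elim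
  · exact (W.fd_not_full hx (hF x hzx)).elim

end Pool.Agent.GaussPoset.Fi

end

/-! From `Pool.Agent.W_448s8f_h15.StF` -/

section

/-!
The star theorem in the form used by the ladders (MP_448cb3_co, S8, small `m`).
-/

namespace Pool.Agent.GaussPoset.Fi

set_option linter.unusedSectionVars false

open Polynomial Finset

universe u

variable {P : Type u} [Fintype P] [PartialOrder P] [DecidableEq P] {r i m K : ℕ}
  {N : Tops P → Finset P} {b : Tops P → ℕ} {θ : Tops P → P → ℕ}

theorem WC.starT (W : WC r i m K N b θ) (hk : i + kF i m + 7 = 2 * m)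
    (h8 : 2 * (i / 2) = 8) : StarT i m K N b θ := by
  intro N1 hN1 z f v p Z hz g1 g2 g3 g5 hU
  obtain ⟨h1, h2⟩ := W.star hk h8 hz Z.lev Z.fd Z.zf Z.zv Z.ne g1 g2 g3 g5 Z.td hN1 hU
  refine ⟨h1, fun hE => ⟨fun _ => below P i + kF i m + 3 + nst i (fun _ => kF i m) f,
    h2 hE, fun _ _ => ?_⟩⟩
  rw [show below P i + kF i m + 3 + nst i (fun _ => kF i m) f =
    (below P i + kF i m + 1 + nst i (fun _ => kF i m) f) + 2 by ring, pow_add]
  norm_num

/-- the three cases -/
theorem WC.starT_three (W : WC r i m K N b θ)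
    (hc : (i = 8 ∧ m = 8) ∨ (i = 9 ∧ m = 9) ∨ (i = 8 ∧ m = 9)) : StarT i m K N b θ := by
  rcases hc with ⟨rfl, rfl⟩ | ⟨rfl, rfl⟩ | ⟨rfl, rfl⟩
  · exact W.starT (by decide) (by decide)
  · exact W.starT (by decide) (by decide)
  · exact W.starT (by decide) (by decide)

end Pool.Agent.GaussPoset.Fi

end

/-! From `Pool.Agent.W_448s8f_h76.FiP` -/

section

/-!
No joins on the levels 17 and 19, from the weight systems (MP_448cb3_co, S8).
-/

namespace Pool.Agent.GaussPoset.Fi

set_option linter.unusedSectionVars false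

open Polynomial Finset

universe u

variable {P : Type u} [Fintype P] [PartialOrder P] [DecidableEq P] {r i m j K : ℕ}

/-- `j = 16` -/
theorem no_jn16_of (G : Win.GoodTo P r 16) {b : Tops P → ℕ}
    (h : ∃ (N : Tops P → Finset P) (θ : Tops P → P → ℕ), WC r 8 8 43 N b θ)
    (S7 : S7F P 8) (z : P) (hl : lev z = 16 + 1) : ¬ Hul.Jn z := by
  obtain ⟨N, θ, W⟩ := h
  exact no_jn_of G (fun _ _ _ hl hzx hzx' =>
    no_cross16 W le_rfl S7 (W.starT_three (Or.inl ⟨rfl, rfl⟩)) hl hzx hzx') z hl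

/-- `j = 18` -/
theorem no_jn18_of (G : Win.GoodTo P r 18) {b b' : Tops P → ℕ}
    (h : ∃ (N : Tops P → Finset P) (θ : Tops P → P → ℕ), WC r 9 9 91 N b θ)
    (h' : ∃ (N : Tops P → Finset P) (θ : Tops P → P → ℕ), WC r 8 9 122 N b' θ)
    (S7 : S7F P 9) (z : P) (hl : lev z = 18 + 1) : ¬ Hul.Jn z := by
  obtain ⟨N, θ, W⟩ := h
  obtain ⟨N', θ', W'⟩ := h'
  exact no_jn_of G (fun _ _ _ hl hzx hzx' =>
    no_cross18' W le_rfl W' le_rfl S7 (W.starT_three (Or.inr (Or.inl ⟨rfl, rfl⟩)))
      (W'.starT_three (Or.inr (Or.inr ⟨rfl, rfl⟩))) hl hzx hzx') z hl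

end Pool.Agent.GaussPoset.Fi

end

/-! From `Pool.Agent.W_448s8f_h76.FiQ` -/

section

/-!
No joins on the level 19 (`j = 18`); the level 17 from the seventh step (MP_448cb3_co, S8).
-/

namespace Pool.Agent.GaussPoset.Fi

set_option linter.unusedSectionVars false

open Polynomial Finset

universe u

variable {P : Type u} [Fintype P] [PartialOrder P] [DecidableEq P] {r : ℕ}

lemma kapR88 : KapR 8 8 43 := by
  unfold KapR
  decide

lemma kapS88 : KapS 8 8 43 := by
  unfold KapS
  decide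

lemma kapR99 : KapR 9 9 91 := by
  unfold KapR
  decide

lemma kapS99 : KapS 9 9 91 := by
  unfold KapS
  decide

lemma kapR89 : KapR 8 9 122 := by
  unfold KapR
  decide

lemma kapS89 : KapS 8 9 122 := by
  unfold KapS
  decide

/-- `j = 18`: no joins -/
theorem no_jn18 (G : Win.GoodTo P r 18) (hr : 18 + 1 ≤ r)
    {lo hi : Tops P → ℕ → ℕ} {e : Tops P → ℕ → ℕ → P}
    (C : ∀ t : Tops P, Cp.Comp 18 (t : P) (lo t) (hi t) (e t))
    (hS : ∀ t, Wd.Shape 18 (lo t) (hi t)) (z : P) (hl : lev z = 18 + 1) : ¬ Hul.Jn z := by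
  have h := exists_WC (i := 9) (m := 9) (Or.inr (Or.inl ⟨rfl, rfl⟩)) G hr C hS kapR99 kapS99
    (by norm_num)
  have h' := exists_WC (i := 8) (m := 9) (Or.inr (Or.inr ⟨rfl, rfl⟩)) G hr C hS kapR89 kapS89
    (by norm_num)
  exact no_jn18_of G h h' (s7F_of (m := 9) le_rfl G C hS) z hl

/-- `j = 16`: no joins, from the seventh step -/
theorem no_jn16 (G : Win.GoodTo P r 16) (hr : 16 + 1 ≤ r)
    {lo hi : Tops P → ℕ → ℕ} {e : Tops P → ℕ → ℕ → P}
    (C : ∀ t : Tops P, Cp.Comp 16 (t : P) (lo t) (hi t) (e t))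
    (hS : ∀ t, Wd.Shape 16 (lo t) (hi t)) (S7 : S7F P 8) (z : P) (hl : lev z = 16 + 1) :
    ¬ Hul.Jn z := by
  have h := exists_WC (i := 8) (m := 8) (Or.inl ⟨rfl, rfl⟩) G hr C hS kapR88 kapS88
    (by norm_num)
  exact no_jn16_of G h S7 z hl

end Pool.Agent.GaussPoset.Fi

end
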