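import Mathlib
import Pool.Agent.W_448zz_h61.Ns
import Pool.Agent.W_448zz_h61.M059
import Pool.Agent.W_448zz_h61.M060
import Pool.Agent.W_448zz_h61.M129
import Pool.Agent.W_448zz_h61.M141

/-! From `Pool.Agent.W_448w7_h22.XfA` -/

section

/-!
The bounded sum of a component with an anchor, only the up-set of the anchor matters
(MP_448cb3_co, S8, `j = 14`, window 7).
-/

namespace Pool.Agent.GaussPoset.W7

set_option linter.unusedSectionVars false

open Polynomial Finset Fi

universe u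

variable {Q : Type u} [Fintype Q] [PartialOrder Q] [DecidableEq Q]

/-- one more element costs at least `k` -/
lemma cw_ne {i k : ℕ} {v : Q} (hout : ∀ x, ¬ v ≤ x → i + k ≤ lev x) {L : Finset Q}
    (hL : ∀ x y, x ≤ y → x ∈ L → y ∈ L) (hv : v ∈ L) (hne : ∃ x ∈ L, ¬ v ≤ x) :
    ct i k v + k ≤ cw {x // x ∈ L} i k := by
  classical
  obtain ⟨x0, hx0, hvx⟩ := hne
  have hn : x0 ∉ univ.filter (fun x => v ≤ x) := by
    rw [mem_filter]
    exact fun h => hvx h.2
  rw [cw_subtype hL, StA_ct_filter i k (U := univ.filter (fun x => v ≤ x)) (fun x => by simp)]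
  have h1 : insert x0 (univ.filter (fun x => v ≤ x)) ⊆ L := by
    intro x hx
    rw [mem_insert] at hx
    rcases hx with rfl | hx
    · exact hx0
    · exact hL v x (mem_filter.mp hx).2 hv
  refine le_trans ?_ (Finset.sum_le_sum_of_subset h1)
  rw [Finset.sum_insert hn, Nat.add_comm]
  refine Nat.add_le_add_right ?_ _
  have := hout x0 hvx
  exact le_min le_rfl (by omega)

/-- the order of the bounded sum below the first pole -/
theorem anc_dvd {i k p : ℕ} {v : Q} {β : Q → ℕ} (hpk : p ≤ k) (hβ : ∀ x, β x ≤ k)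
    (hv : β v = k) (hout : ∀ x, ¬ v ≤ x → i + k ≤ lev x)
    (hcl : ∀ U : Finset Q, (∀ x, x ∈ U ↔ v ≤ x) → ∀ n < p,
      (1 + X : ℤ[X]) ^ 2 ∣ Z {x // x ∈ U} (i + k) n) {n : ℕ} (hn : n < ct i k v + p) :
    (1 + X : ℤ[X]) ^ 2 ∣ ZB i ∅ 0 β n := by
  classical
  rw [StA_ZB_upL hβ (fun L => v ∈ L) (fun e F h => StA_anchor hv h)]
  refine Finset.dvd_sum fun L hL => Finset.dvd_sum fun ab hab => ?_
  rw [mem_upsF] at hL
  rw [HasAntidiagonal.mem_antidiagonal] at hab
  refine dvd_mul_of_dvd_left ?_ _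
  rcases Nat.lt_or_ge ab.1 (cw {x // x ∈ L} i k) with h2 | h2
  · rw [ZB_const_zero h2]
    exact dvd_zero _
  · have h1 := StA_ct_le_cw (i := i) (k := k) hL.1 hL.2
    obtain ⟨c, hc⟩ := Nat.exists_eq_add_of_le' h2
    rw [hc, ZB_const]
    by_cases hne : ∃ x ∈ L, ¬ v ≤ x
    · have h3 := cw_ne hout hL.1 hL.2 hne
      omega
    · push Not at hne
      exact hcl L (fun x => ⟨hne x, fun h => hL.1 v x h hL.2⟩) c (by omega)

end Pool.Agent.GaussPoset.W7

end

/-! From `Pool.Agent.W_448w7_h94.WiN` -/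

section

/-!
Energy 31: the pendants of the anchors are clean (MP_448cb3_co, S7, `j = 14`, window 7).
-/

namespace Pool.Agent.GaussPoset.W7

set_option linter.unusedSectionVars false

open Polynomial Finset Fi Cl Dd Wd

universe u

variable {P : Type u} [Fintype P] [PartialOrder P] [DecidableEq P] {r n0 : ℕ}
  {N : Tops P → Finset P} {b : Tops P → ℕ} {θ : Tops P → P → ℕ}

/-- the inputs at the energy 31 -/
structure L31 (N : Tops P → Finset P) (θ : Tops P → P → ℕ) : Prop where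
  sp : ∀ c : P, Ank 31 N θ c → Sp 7 31 (r2 (2 * 7) N) (th2 N θ) (topOf c) c (Dn 31 N c)
  c16 : ∀ c z : P, Ank 31 N θ c → z ∈ bdR (r2 (2 * 7) N) → z ⋖ c →
    C16 31 N θ c z ∧ (ct 7 2 z ≤ 50 → nab 7 z ≤ nab 9 z)
  h3 : ∀ c z x y : P, Ank 31 N θ c → h2 (2 * 7) N θ z = 2 → z ⋖ c → lev z = 16 →
    (∀ u, z ⋖ u → u ∉ r2 (2 * 7) N) → y ∈ r2 (2 * 7) N → x ∉ r2 (2 * 7) N →
    topOf x = topOf c → y ⋖ x → y ≠ z →
    ct 7 2 z + 11 ≤ ∑ w, max (ez 7 (h2 (2 * 7) N θ) z w) (ez 7 (fun _ => 3) y w)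
  p0 : ∀ z ∈ r2 (2 * 7) N, IsP0 31 N θ z → cst 7 (h2 (2 * 7) N θ) z = 40
  fb : ∀ z x x' : P, Fd 7 x → Prof 7 x' (gD p5) → topOf x ≠ topOf x' → z ⋖ x → z ⋖ x' →
    cst 7 (h2 (2 * 7) N θ) z = 50
  vA : ∀ (t : Tops P) (lo hi : ℕ → ℕ) (e : ℕ → ℕ → P) (A : Finset P),
    LaD 31 N (θ t) t lo hi e A → (∃ c, JA e A c) → ∀ n, n ≤ 31 →
      (1 + X : ℤ[X]) ^ 2 ∣ Z {x // x ∈ lowPart (2 * 7) (t : P) ∪ A} 7 n
  vB : ∀ (t : Tops P) (lo hi : ℕ → ℕ) (e : ℕ → ℕ → P) (A : Finset P),
    LaD 31 N (θ t) t lo hi e A → (∃ c c', JB e A c c') → ∀ f,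
      (∀ n, exq n f = Z {x // x ∈ lowPart (2 * 7) (t : P) ∪ A} 7 n) → Pl 31 2 (-1) f

/-- the pendants of the anchors -/
lemma Ank.pend (W : WL r n0 N b θ) {c z : P} (hc : Ank n0 N θ c) (hz : Pend z c) :
    lev z = 16 ∧ ct 7 2 z = 30 ∧ ct 7 3 z = 42 := by
  obtain ⟨lo, hi, e, A, L, hA, hm⟩ := hc
  have h1 := (W.gt.H.covBy_iff.mp hz.1).2
  have h2 := Tv.pend_c34 L.word L.comp W.gt (topOf c).2 hm hz
  have h3 := (Tv.c34_facts L.word L.comp W.gt (topOf c).2 hm).2.1
  have h4 := Tv.ct_of_pend (i := 7) (k := 3) hz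
  rw [h3] at h4
  have h5 := hm.1
  omega

open Classical in
/-- the pendants of `c` -/
noncomputable def Pm (N : Tops P → Finset P) (c : P) : Finset P :=
  (bdR (unnat N)).filter (fun z => Pend z c)

lemma mem_Pm {c z : P} : z ∈ Pm N c ↔ z ∈ bdR (unnat N) ∧ Pend z c := by
  classical
  unfold Pm
  rw [mem_filter]

lemma ZF_congr {i n : ℕ} {h h' : P → ℕ} {A : Finset P} (hA : ∀ z ∈ A, h z = h' z) :
    ZF i h A n = ZF i h' A n := by
  classical
  unfold ZF
  refine Finset.sum_congr rfl fun F _ => Finset.sum_congr ?_ (fun _ _ => rfl)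
  refine Finset.filter_congr fun e _ => ?_
  refine and_congr_right fun _ => ?_
  constructor
  · rintro ⟨z, hz, hd⟩
    refine ⟨z, hz, ?_⟩
    unfold Dgz at hd ⊢
    rw [← hA z hz]
    exact hd
  · rintro ⟨z, hz, hd⟩
    refine ⟨z, hz, ?_⟩
    unfold Dgz at hd ⊢
    rw [hA z hz]
    exact hd

/-- two pendants of different anchors -/
lemma Uu_pend (H : Gr P r) {h : P → ℕ} {c c' z z' : P} (hc : lev c = 15) (hc' : lev c' = 15)
    (hne : c' ≠ c) (hz : Pend z c) (hz' : Pend z' c') (h1 : h z = 2) (h2 : h z' = 2)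
    (h3 : ct 7 2 z = 30) : 34 ≤ Uu 7 h z z' := by
  classical
  have hlz := (H.covBy_iff.mp hz.1).2
  have hlz' := (H.covBy_iff.mp hz'.1).2
  have hzz : ¬ z ≤ z' := by
    intro hle
    rcases eq_or_lt_of_le hle with e | e
    · rw [e] at hz
      exact hne (hz.2 c' hz'.1)
    · have := lev_strictAnti e
      omega
  have hzc : ¬ z ≤ c' := by
    intro hle
    have hlt : z < c' := lt_of_le_of_ne hle (by rintro rfl; omega)
    obtain ⟨v, hv, hvc⟩ := Hul.exists_cov hlt
    rw [hz.2 v hv] at hvc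
    rcases eq_or_lt_of_le hvc with e | e
    · exact hne e.symm
    · have := lev_strictAnti e
      omega
  have hcz : c' ≠ z' := by
    intro e
    have : lev c' = lev z' := by rw [e]
    omega
  have e0 : (4 : ℕ) = ∑ w, ((if w = z' then 2 else 0) + (if w = c' then 2 else 0)) := by
    rw [Finset.sum_add_distrib, Finset.sum_ite_eq' univ z', Finset.sum_ite_eq' univ c',
      if_pos (mem_univ _), if_pos (mem_univ _)]
  have e1 : cst 7 h z = 30 := by
    rw [cst_ct h1, h3]
  have e2 : cst 7 h z + 4 ≤ Uu 7 h z z' := by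
    rw [e0]
    unfold cst Uu
    rw [← Finset.sum_add_distrib]
    refine Finset.sum_le_sum fun w _ => ?_
    unfold ez
    rw [h1, h2]
    by_cases hw : w = z'
    · have a1 : ¬ z ≤ w := by rw [hw]; exact hzz
      have a2 : ¬ w = c' := by rw [hw]; exact Ne.symm hcz
      have a3 : z' ≤ w := by rw [hw]
      have a4 : lev w = 16 := by rw [hw]; omega
      rw [if_neg a1, if_pos hw, if_neg a2, if_pos a3, a4]
      norm_num
    · rw [if_neg hw]
      by_cases hw' : w = c'
      · have a1 : ¬ z ≤ w := by rw [hw']; exact hzc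
        have a3 : z' ≤ w := by rw [hw']; exact hz'.1.le
        have a4 : lev w = 15 := by rw [hw']; exact hc'
        rw [if_neg a1, if_pos hw', if_pos a3, a4]
        norm_num
      · rw [if_neg hw']
        exact le_max_left _ _
  omega

/-- the members of the families -/
lemma Pm.dat (W : WL r 31 N b θ) (J : JH P) (L : L31 N θ) {c z : P} (hc : Ank 31 N θ c)
    (hz : z ∈ Pm N c) : lev z = 16 ∧ z ∈ bdR (r2 (2 * 7) N) ∧ h2 (2 * 7) N θ z = 2 ∧
      hcan (unnat N) (th1 θ) z = 2 ∧ ct 7 2 z = 30 ∧ ct 7 3 z = 42 := by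
  obtain ⟨h1, h2⟩ := mem_Pm.mp hz
  obtain ⟨g1, g2, g3⟩ := hc.pend W h2
  rcases W.bd31 J L.p0 L.fb h1 with h | ⟨e1, e2, e3, e4, -⟩
  · exfalso
    have e3 := (hc.dat W).2.2.1
    have e4 := hcan_le (θ := th1 θ) e3 h2.1
    have e5 : th1 θ c = 1 := (hc.dat W).2.2.2.2.1
    have e6 : cst 7 (hcan (unnat N) (th1 θ)) z ≤ ct 7 2 z := by
      unfold ct cst
      refine Finset.sum_le_sum fun w _ => ?_
      unfold ez
      split_ifs
      · refine min_le_min_right _ ?_
        show hcan (unnat N) (th1 θ) z ≤ 2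
        omega
      · exact le_rfl
    omega
  · exact ⟨g1, e2, e3, e4, g2, g3⟩

/-- **the costs at the energy 31** -/
theorem Pm.out (W : WL r 31 N b θ) (J : JH P) (L : L31 N θ) {z : P} (hz : z ∈ bdR (unnat N))
    (h : ∀ c, Ank 31 N θ c → z ∉ Pm N c) : 31 < cst 7 (hcan (unnat N) (th1 θ)) z := by
  rcases W.bd31 J L.p0 L.fb hz with h1 | ⟨e1, e2, e3, e4, c, hc, hzc⟩
  · omega
  · rw [cst_ct e4]
    rcases (L.c16 c z hc e2 hzc).1 with ⟨g1, g2, g3⟩ | ⟨d, g1, g2, g3, g4, g5, g6, g7, g8⟩ |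
      ⟨g0, d, g1, g2, g3, g4, g5, g6⟩ | ⟨p, g1, g2, g3, g4, g5⟩ |
      ⟨v, g1, g2, g3, g4, g5, g6, g7, g8⟩ | g
    · exact absurd (mem_Pm.mpr ⟨hz, hzc, g1⟩) (h c hc)
    · omega
    · omega
    · omega
    · have hlv : lev v = 15 := by
        have := (W.gt.H.covBy_iff.mp g1).2
        omega
      have := ct15 hlv
      omega
    · omega

/-- **the pendants of an anchor are clean at the energy 31** -/
theorem Pm.clean (W : WL r 31 N b θ) (J : JH P) (L : L31 N θ) {c : P} (hc : Ank 31 N θ c) :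
    (1 + X : ℤ[X]) ^ (lv P 7).card ∣ ZF 7 (hcan (unnat N) (th1 θ)) (Pm N c) 31 := by
  classical
  obtain ⟨hc1, hc2, hc3, hc4, hc5, hc6⟩ := hc.dat W
  have hlab : h2 (2 * 7) N θ = hcan (r2 (2 * 7) N) (th2 N θ) := rfl
  have hcongr : ZF 7 (hcan (unnat N) (th1 θ)) (Pm N c) 31 =
      ZF 7 (hcan (r2 (2 * 7) N) (th2 N θ)) (Pm N c) 31 := by
    refine ZF_congr fun z hz => ?_
    obtain ⟨-, -, e1, e2, -, -⟩ := Pm.dat W J L hc hz
    rw [e2, ← hlab, e1]
  rw [hcongr]
  have key := (L.sp c hc).fam (A := Pm N c) (n := 31) (p := fun _ => False)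
    (k := fun _ => below P 7 + 7) ?_ le_rfl ?_ ?_ ?_ ?_ ?_
  · rw [Finset.filter_false_of_mem (fun _ _ h => h), Finset.sum_empty, sub_zero] at key
    exact key
  · intro d hd
    unfold Dn at hd
    rw [if_neg (by norm_num)] at hd
    exact absurd hd (Finset.notMem_empty d)
  · intro z hz
    obtain ⟨e1, e2, -⟩ := Pm.dat W J L hc hz
    exact ⟨e2, (mem_Pm.mp hz).2.1, e1⟩
  · intro z hz x hzx
    rw [(mem_Pm.mp hz).2.2 x hzx]
    exact ⟨hc4, by omega, fun h => absurd rfl h⟩
  · intro z hz y hy x hx hxt hyx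
    obtain ⟨e1, e2, e3, -, e5, e6⟩ := Pm.dat W J L hc hz
    rw [← hlab]
    by_cases hyz : y = z
    · subst hyz
      rw [← uni_self e3]
      omega
    · have h5 := L.h3 c z x y hc e3 (mem_Pm.mp hz).2.1 e1 (fun u hu => by
        rw [(mem_Pm.mp hz).2.2 u hu]
        exact hc4) hy hx hxt hyx hyz
      omega
  · intro z hz y hy hyA
    obtain ⟨e1, e2, e3, -, e5, e6⟩ := Pm.dat W J L hc hz
    rw [← hlab]
    have hr := Uu_right 7 (h2 (2 * 7) N θ) z y
    rcases W.bd hy with hl | h1 | ⟨hl, h2', c', hc', hyc⟩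
    · rcases W.rows J (mem_filter.mp hy).1 hl with ⟨t, lo, hi, e, A, L', hm⟩ |
        ⟨x, x', g1, g2, g3, g4, g5⟩ | ⟨g, -⟩
      · have := L.p0 y (mem_filter.mp hy).1 ⟨t, lo, hi, e, A, L', hm⟩
        omega
      · have := L.fb y x x' g1 g2 g3 g4 g5
        omega
      · omega
    · omega
    · have hcy := cst_ct (i := 7) h2'
      rcases (L.c16 c' y hc' hy hyc).1 with ⟨g1, g2, g3⟩ |
        ⟨d, g1, g2, g3, g4, g5, g6, g7, g8⟩ | ⟨g0, d, g1, g2, g3, g4, g5, g6⟩ |
        ⟨p, g1, g2, g3, g4, g5⟩ | ⟨v, g1, g2, g3, g4, g5, g6, g7, g8⟩ | g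
      · have hyR : y ∈ unnat N := (mem_sdiff.mp (mem_filter.mp hy).1).1
        have hyb : y ∈ bdR (unnat N) :=
          mem_filter.mpr ⟨hyR, c', (hc'.dat W).2.2.1, hyc⟩
        have hne : c' ≠ c := by
          intro e
          rw [e] at hyc g1
          exact hyA (mem_Pm.mpr ⟨hyb, hyc, g1⟩)
        have := Uu_pend W.gt.H hc1 (hc'.dat W).1 hne (mem_Pm.mp hz).2 ⟨hyc, g1⟩ e3 h2' e5
        omega
      · omega
      · omega
      · omega
      · have hlv : lev v = 15 := by
          have := (W.gt.H.covBy_iff.mp g1).2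
          omega
        have := ct15 hlv
        omega
      · omega
  · intro z hz
    exact Kd.P (mem_Pm.mp hz).2.2 (by norm_num) (by norm_num) (fun h => absurd h (by simp))

end Pool.Agent.GaussPoset.W7

end

/-! From `Pool.Agent.W_448w7_h94.WiO` -/

section

/-!
Energy 31: **no component with the second pattern** (MP_448cb3_co, S7, `j = 14`, window 7).
-/

namespace Pool.Agent.GaussPoset.W7

set_option linter.unusedSectionVars false

open Polynomial Finset Fi Cl Dd Wd

universe u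

variable {P : Type u} [Fintype P] [PartialOrder P] [DecidableEq P] {r n0 : ℕ}
  {N : Tops P → Finset P} {b : Tops P → ℕ} {θ : Tops P → P → ℕ}

open Classical in
/-- the families of the pendants -/
noncomputable def FamP (N : Tops P → Finset P) (θ : Tops P → P → ℕ) : Finset (Finset P) :=
  (univ.filter (fun c : P => Ank 31 N θ c)).image (Pm N)

lemma mem_FamP {A : Finset P} : A ∈ FamP N θ ↔ ∃ c, Ank 31 N θ c ∧ Pm N c = A := by
  classical
  unfold FamP
  rw [mem_image]
  constructor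
  · rintro ⟨c, h1, h2⟩
    exact ⟨c, (mem_filter.mp h1).2, h2⟩
  · rintro ⟨c, h1, h2⟩
    exact ⟨c, mem_filter.mpr ⟨mem_univ _, h1⟩, h2⟩

/-- the components with the second pattern -/
def IsJB (N : Tops P → Finset P) (b : Tops P → ℕ) (θ : Tops P → P → ℕ) (t : Tops P) : Prop :=
  b t = 2 ∧ ∃ lo hi e A, LaD 31 N (θ t) t lo hi e A ∧ ∃ c c', JB e A c c'

lemma part_iff {t : Tops P} {lo hi : ℕ → ℕ} {e : ℕ → ℕ → P} {A : Finset P} {θ : P → ℕ}
    (h : LaD n0 N θ t lo hi e A) (x : P) :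
    x ∈ lowPart (2 * 7) (t : P) ∪ A ↔ x ∈ N t ∧ x ∉ unnat N := by
  rw [← h.nat]
  exact ⟨fun h => ⟨h, fun h' => mem_unnat.mp h' t h⟩, fun h => h.1⟩

/-- the instance does not matter -/
lemma Z_fin {Q : Type u} [PartialOrder Q] [DecidableEq Q] (i1 i2 : Fintype Q) (i n : ℕ) :
    @Z Q i1 _ _ i n = @Z Q i2 _ _ i n := by
  have h : i1 = i2 := Subsingleton.elim _ _
  subst h
  rfl

/-- the part of a strip -/
lemma Z_part (W : WL r n0 N b θ) {t : Tops P} {lo hi : ℕ → ℕ} {e : ℕ → ℕ → P} {A : Finset P}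
    (h : LaD n0 N (θ t) t lo hi e A) (n : ℕ) :
    Z {x : {x : P // x ∉ unnat N} // topOf (x : P) = t} 7 n =
      Z {x // x ∈ lowPart (2 * 7) (t : P) ∪ A} 7 n := by
  rw [← Z_iso (Sg.isoPart W.natSys t (Subset.refl _) (lowPart (2 * 7) (t : P) ∪ A)
    (part_iff h)) 7 n]
  exact Z_fin _ _ 7 n

/-- the other components are clean -/
lemma clean31 (W : WL r 31 N b θ) (L : L31 N θ) {t : Tops P} (ht : ¬ IsJB N b θ t) :
    ∀ n, n ≤ 31 → (1 + X : ℤ[X]) ^ b t ∣
      Z {x : {x : P // x ∉ unnat N} // topOf (x : P) = t} 7 n := by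
  classical
  have HN := W.natSys
  intro n hn
  have hNT : ∀ B, NatTop 7 t (b t) (N t) (θ t) B → (1 + X : ℤ[X]) ^ b t ∣
      Z {x : {x : P // x ∉ unnat N} // topOf (x : P) = t} 7 n := by
    intro B hB
    have h1 := F6.compL_of_natTop (B := fun _ => B) hB HN 51 (fun _ _ => Iff.rfl)
    refine h1.clean (unnat N) ⟨HN.lower, Subset.refl _, fun x hx => ?_, fun x hx h => h.1 hx⟩
      inferInstance n (by omega)
    have := W.lt_lev hx
    omega
  rcases W.tc t with ⟨h1, h2, h3, h5, h6, h8, h9⟩ | ⟨Nc, co, h0, h1, h2, h3⟩ |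
    ⟨Nc, co, h0, h1, h2, h3, h4⟩ | ⟨h, hb⟩ | ⟨lo, hi, e, A, h, hb⟩ | ⟨h1, h2, h3, h4⟩
  · rcases W.natTop t with ⟨B, h⟩ | ⟨⟨B, h⟩, -, -⟩
    · exact hNT B h
    · refine hNT _ (by
        rw [h1, h2, h3]
        exact natTop_light W.gt.H.gradedBelow (fun x hx hxi => h5 x hx (by omega)) h6)
  · exact hNT _ (by
      rw [h1, h2]
      exact h0.natTop W.gt.H.gradedBelow (by omega))
  · exact hNT _ (by
      rw [h1, h2, h3]
      exact h0.natTop W.gt.H.gradedBelow (by omega) (by omega))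
  · obtain ⟨B, hB⟩ := h.h1
    rw [← hb] at hB
    have h1 := F6.compL_of_locL (B := fun _ => B) hB HN (fun _ _ => Iff.rfl)
    refine h1.clean (unnat N) ⟨HN.lower, Subset.refl _, fun x hx => ?_, fun x hx h => h.1 hx⟩
      inferInstance n (by omega)
    have := W.lt_lev hx
    omega
  · rcases h.dat.pat with ⟨c, hJ⟩ | ⟨-, c, c', hJ⟩
    · rw [hb, Z_part W h]
      exact L.vA t lo hi e A h ⟨c, hJ⟩ n hn
    · exact absurd ⟨hb, lo, hi, e, A, h, c, c', hJ⟩ ht
  · obtain ⟨B, hB⟩ := h2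
    exact hNT B hB

/-- **No component with the second pattern.** -/
theorem WL.no_JB (W : WL r 31 N b θ) (J : JH P) (L : L31 N θ) (hb1 : ∀ t, 1 ≤ b t)
    (t0 : Tops P) : ¬ IsJB N b θ t0 := by
  classical
  intro h0
  have HN := W.natSys
  obtain ⟨B, hB⟩ := W.compL
  let ρ : Tops P → ℤ := fun t => if IsJB N b θ t then -1 else 0
  have hρ : ∀ t, ρ t ≤ 0 := by
    intro t
    simp only [ρ]
    split_ifs <;> norm_num
  refine no_first_pole_fam (n0 := 31) (i := 7) (by omega) W.gt.H.gauss HN.lower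
    (fun x hx => by have := W.lt_lev hx; omega) topOf HN.cp b (th1 θ)
    (fun x => x ∉ unnat N ∧ B (topOf x) x) (fun x hx h => h.1 hx) hB hb1 W.sum_b
    (FamP N θ) ?_ ?_ ?_ ?_ ?_ ρ ?_ ?_
  · intro A hA z hz
    obtain ⟨c, hc, rfl⟩ := mem_FamP.mp hA
    exact (mem_Pm.mp hz).1
  · intro z hz h
    exact Pm.out W J L hz fun c hc => h _ (mem_FamP.mpr ⟨c, hc, rfl⟩)
  · intro A hA z hz z' hz' hne
    obtain ⟨c, hc, rfl⟩ := mem_FamP.mp hA
    by_cases hex : ∃ c', Ank 31 N θ c' ∧ z' ∈ Pm N c'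
    · obtain ⟨c', hc', hz2⟩ := hex
      have hcc : c' ≠ c := by
        rintro rfl
        exact hne hz2
      obtain ⟨-, -, -, e1, e2, -⟩ := Pm.dat W J L hc hz
      obtain ⟨-, -, -, e3, -, -⟩ := Pm.dat W J L hc' hz2
      have := Uu_pend W.gt.H (hc.dat W).1 (hc'.dat W).1 hcc (mem_Pm.mp hz).2 (mem_Pm.mp hz2).2
        e1 e3 e2
      omega
    · push Not at hex
      have h1 := Pm.out W J L hz' hex
      have h2 := Uu_right 7 (hcan (unnat N) (th1 θ)) z z'
      omega
  · intro A hA A' hA' hne z hz hz'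
    obtain ⟨c, hc, rfl⟩ := mem_FamP.mp hA
    obtain ⟨c', hc', rfl⟩ := mem_FamP.mp hA'
    rw [(mem_Pm.mp hz).2.2 c' (mem_Pm.mp hz').2.1] at hne
    exact hne rfl
  · intro A hA
    obtain ⟨c, hc, rfl⟩ := mem_FamP.mp hA
    rw [W.sum_b]
    exact Pm.clean W J L hc
  · intro t
    by_cases ht : IsJB N b θ t
    · right
      intro f hf
      have hr : ρ t = -1 := by
        simp only [ρ]
        rw [if_pos ht]
      obtain ⟨hb2, lo, hi, e, A, h, hJ⟩ := ht
      rw [hb2, hr]
      refine L.vB t lo hi e A h hJ f fun n => ?_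
      rw [hf, Z_part W h]
    · left
      refine ⟨?_, clean31 W L ht⟩
      simp only [ρ]
      rw [if_neg ht]
  · have h1 : ∑ t, ρ t < 0 := by
      refine Finset.sum_neg' (fun t _ => hρ t) ⟨t0, mem_univ _, ?_⟩
      simp only [ρ]
      rw [if_pos h0]
      norm_num
    exact h1.ne

end Pool.Agent.GaussPoset.W7

end

/-! From `Pool.Agent.W_448w7_h15.WnA` -/

section

/-!
The numbers of the elements of level 15 at the boundary (MP_448cb3_co, S7, `j = 14`, window 7).
-/

namespace Pool.Agent.GaussPoset.W7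

set_option linter.unusedSectionVars false

open Polynomial Finset Fi Cl Dd Wd

universe u

variable {P : Type u} [Fintype P] [PartialOrder P] [DecidableEq P] {r n0 : ℕ}
  {N : Tops P → Finset P} {b : Tops P → ℕ} {θ : Tops P → P → ℕ}

/-- the pendant of the first cell of a strip `La7` -/
theorem WL.p0_num (W : WL r n0 N b θ) {t : Tops P} {lo hi : ℕ → ℕ} {e : ℕ → ℕ → P}
    {A : Finset P} (L : LaD n0 N (θ t) t lo hi e A) {z : P} (hm : Sg.Mk e z 33554432)
    (hz : z ∈ r2 (2 * 7) N) : h2 (2 * 7) N θ z = 5 ∧ cst 7 (h2 (2 * 7) N θ) z = 40 ∧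
      nab 7 z = nab (7 + 5) z + 1 ∧ nst 7 (h2 (2 * 7) N θ) z = 10 := by
  have H := W.gt.H
  have hcov : ∀ y, z ⋖ y ↔ y = Sg.ce e 25 := by
    intro y
    rw [hm.2 y]
    constructor
    · rintro ⟨b, hb, hbit, rfl⟩
      have key : ∀ b < 30, Nat.testBit 33554432 b = true → b = 25 := by decide +kernel
      rw [key b hb hbit]
    · rintro rfl
      exact ⟨25, by norm_num, by decide +kernel, rfl⟩
  have hzy : z ⋖ Sg.ce e 25 := (hcov _).mpr rfl
  have h1 := Sg.La7_le L.word L.comp (a := 25) (by norm_num)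
  have hl14 : La7lv.getD 25 0 = 14 := by decide +kernel
  rw [hl14] at h1
  have hyN : Sg.ce e 25 ∈ N t := by
    rw [L.nat]
    exact mem_union_left _ (mem_lowPart.mpr ⟨h1.1, h1.2.le⟩)
  have htop : topOf (Sg.ce e 25) = t := (W.natSys.mem_iff.mp hyN).2
  have h2' : h2 (2 * 7) N θ z = 5 := by
    rw [W.h2_eqI hz hm.1 hzy (fun y hy => by rw [(hcov y).mp hy]), htop, L.dat.th.y0]
  obtain ⟨f1, f2, f3, f4⟩ := Tv.p0_facts L.word L.comp W.gt t.2 hm
  refine ⟨h2', ?_, ?_, ?_⟩
  · rw [cst_ct h2']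
    exact f1
  · show nab 7 z = nab 12 z + 1
    rw [f2, f3]
  · rw [nst_eq] at f4 ⊢
    rw [h2']
    exact f4

/-- the joins of a fold end and an end `(5;25)` -/
theorem WL.fb_num (W : WL r n0 N b θ) {z x x' : P} (hx : Fd 7 x) (hx' : Prof 7 x' (gD p5))
    (ht : topOf x ≠ topOf x') (hzx : z ⋖ x) (hzx' : z ⋖ x') :
    z ∈ r2 (2 * 7) N ∧ h2 (2 * 7) N θ z = 2 ∧ cst 7 (h2 (2 * 7) N θ) z = 50 ∧
      nab 7 z = nab 9 z + 1 ∧ nst 7 (h2 (2 * 7) N θ) z = 12 := by
  have H := W.gt.H
  have hz2 := W.join_r2 ht hzx hzx'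
  have hl : lev z = 2 * 7 + 1 := by
    have h1 := (W.gt.H.covBy_iff.mp hzx).2
    have h2 := hx.1
    omega
  have hlx' : lev x' = 2 * 7 := by
    have := (H.covBy_iff.mp hzx').2
    omega
  have hne : x ≠ x' := fun h => ht (by rw [h])
  have hth : θ (topOf x) x ≤ θ (topOf x') x' := by
    rw [W.fold_th hx]
    exact W.th_p5 hlx' hx' hzx'
  have hn : NQ 7 7 N θ z 2 (fun d => (1 + pF 7 d) + (1 + gD p5 d)) := by
    refine NQ.mk' hl (by decide) ?_ fun d hd => ?_
    · rw [W.h2_eqI hz2 hl hzx (fun y hy => ?_), W.fold_th hx]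
      rcases uc_pair H hzx hzx' hne hy with e | e
      · rw [e]
      · rw [e]; exact hth
    · rw [W.nab_joinI hl hzx hzx' ht (by omega), W.fold_prof hx d (by omega),
        hx' d (by omega)]
  have h1 := hn.lab
  have h3 := hn.n1
  rw [h1] at h3
  refine ⟨hz2, h1, ?_, ?_, ?_⟩
  · rw [hn.cst]
    decide +kernel
  · show nab 7 z = nab (7 + 2) z + 1
    rw [hn.n0, h3]
    decide +kernel
  · rw [hn.nst]
    decide +kernel

end Pool.Agent.GaussPoset.W7

end

/-! From `Pool.Agent.W_448w7_h67.CxA` -/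

section

/-!
The elements of level 16 below an anchor (MP_448cb3_co, S7, `j = 14`, window 7): cones, costs
-/

namespace Pool.Agent.GaussPoset.W7

set_option linter.unusedSectionVars false

open Polynomial Finset Fi Cl Dd Wd

universe u

variable {P : Type u} [Fintype P] [PartialOrder P] [DecidableEq P] {r n0 : ℕ}
  {N : Tops P → Finset P} {b : Tops P → ℕ} {θ : Tops P → P → ℕ}

section Two

variable {z c w : P}

/-- the elements above an element with two covers -/
lemma lt_two (hzc : z ⋖ c) (hzw : z ⋖ w) (hcov : ∀ y, z ⋖ y → y = c ∨ y = w) (x : P) :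
    z < x ↔ c ≤ x ∨ w ≤ x := by
  constructor
  · intro h
    obtain ⟨v, hv, hvx⟩ := Hul.exists_cov h
    rcases hcov v hv with rfl | rfl
    · exact Or.inl hvx
    · exact Or.inr hvx
  · rintro (h | h)
    · exact hzc.1.trans_le h
    · exact hzw.1.trans_le h

/-- the cost, disjoint cones -/
lemma ct_dis {i k : ℕ} (hzc : z ⋖ c) (hzw : z ⋖ w) (hcov : ∀ y, z ⋖ y → y = c ∨ y = w)
    (hd : ∀ x, c ≤ x → ¬ w ≤ x) : ct i k z = min k (lev z - i) + ct i k c + ct i k w := by
  classical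
  rw [ct_succ, ct_eq_sum i k c, ct_eq_sum i k w, add_assoc, ← Finset.sum_add_distrib]
  congr 1
  refine Finset.sum_congr rfl fun x _ => ?_
  by_cases h1 : c ≤ x
  · rw [if_pos h1, if_neg (hd x h1), if_pos ((lt_two hzc hzw hcov x).mpr (Or.inl h1)), add_zero]
  · by_cases h2 : w ≤ x
    · rw [if_neg h1, if_pos h2, if_pos ((lt_two hzc hzw hcov x).mpr (Or.inr h2)), zero_add]
    · rw [if_neg h1, if_neg h2, if_neg fun h => ((lt_two hzc hzw hcov x).mp h).elim h1 h2]

/-- the numbers of the elements above, disjoint cones -/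
lemma nab_dis {l : ℕ} (hl : l < lev z) (hzc : z ⋖ c) (hzw : z ⋖ w)
    (hcov : ∀ y, z ⋖ y → y = c ∨ y = w) (hd : ∀ x, c ≤ x → ¬ w ≤ x) :
    nab l z = nab l c + nab l w := by
  classical
  unfold nab
  rw [← Finset.card_union_of_disjoint]
  · congr 1
    ext x
    rw [mem_union, mem_filter, mem_filter, mem_filter, mem_lv]
    constructor
    · rintro ⟨h1, h2⟩
      have h3 : z < x := lt_of_le_of_ne h2 (by rintro rfl; omega)
      rcases (lt_two hzc hzw hcov x).mp h3 with h | h
      · exact Or.inl ⟨h1, h⟩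
      · exact Or.inr ⟨h1, h⟩
    · rintro (⟨h1, h2⟩ | ⟨h1, h2⟩)
      · exact ⟨h1, ((lt_two hzc hzw hcov x).mpr (Or.inl h2)).le⟩
      · exact ⟨h1, ((lt_two hzc hzw hcov x).mpr (Or.inr h2)).le⟩
  · rw [Finset.disjoint_left]
    intro x hx hx'
    rw [mem_filter] at hx hx'
    exact hd x hx.2 hx'.2

/-- the cost by levels -/
lemma ct_lev {k : ℕ} {x : P} (hl : lev x = 15) :
    ct 7 k x = ∑ l ∈ range 16, min k (l - 7) * nab l x := by
  unfold ct
  rw [cst_eq, hl]

lemma ct2_two {x : P} (hl : lev x = 15) (h : ∀ k, 8 ≤ k → k ≤ 14 → 2 ≤ nab k x) :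
    28 ≤ ct 7 2 x := by
  rw [ct_lev hl]
  have h8 := h 8 (by omega) (by omega)
  have h9 := h 9 (by omega) (by omega)
  have h10 := h 10 (by omega) (by omega)
  have h11 := h 11 (by omega) (by omega)
  have h12 := h 12 (by omega) (by omega)
  have h13 := h 13 (by omega) (by omega)
  have h14 := h 14 (by omega) (by omega)
  have h15 : 1 ≤ nab 15 x := one_le_nab (by omega)
  simp only [Finset.sum_range_succ, Finset.sum_range_zero]
  norm_num
  omega

lemma ct3_ge {x : P} (hl : lev x = 15) : 21 ≤ ct 7 3 x := by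
  rw [ct_lev hl]
  have h8 : 1 ≤ nab 8 x := one_le_nab (by omega)
  have h9 : 1 ≤ nab 9 x := one_le_nab (by omega)
  have h10 : 1 ≤ nab 10 x := one_le_nab (by omega)
  have h11 : 1 ≤ nab 11 x := one_le_nab (by omega)
  have h12 : 1 ≤ nab 12 x := one_le_nab (by omega)
  have h13 : 1 ≤ nab 13 x := one_le_nab (by omega)
  have h14 : 1 ≤ nab 14 x := one_le_nab (by omega)
  have h15 : 1 ≤ nab 15 x := one_le_nab (by omega)
  simp only [Finset.sum_range_succ, Finset.sum_range_zero]
  norm_num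
  omega

end Two

/-- the cost below two elements of level 15 of the same strip: the pendant of the first cell, two
elements below the last two cells -/
theorem join_two {t : P} {lo hi : ℕ → ℕ} {e : ℕ → ℕ → P} {z c d : P} {m : ℕ}
    (D : WordD 14 7 wa7 lo hi) (C : Cp.Comp 14 t lo hi e) (hgt : Win.GoodTo P r 14)
    (ht : lev t = 0) (hne : c ≠ d) (hc : Sg.Mk e c 805306368) (hd : Sg.Mk e d m)
    (hm : m = 33554432 ∨ m = 805306368) (hz : ∀ y, z ⋖ y ↔ y = c ∨ y = d) :
    (m = 33554432 → 40 ≤ ct 7 2 z) ∧ (m = 805306368 → ct 7 2 z = 32) ∧ nab 7 z = 2 ∧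
      nab 9 z = 2 := by
  have hl : GaussPoset.lev z = 16 := by
    have := (hgt.H.covBy_iff.mp ((hz c).mpr (Or.inl rfl))).2
    rw [hc.1] at this
    exact this
  have hzm : ∀ y, z ⋖ y ↔ ∃ b < 30 + 2, (3221225472 : ℕ).testBit b = true ∧
      Sg.cz e (Sg.two c d) b = y := by
    intro y
    have h0 : ∀ b < 32, (3221225472 : ℕ).testBit b = true → b = 30 ∨ b = 31 := by decide +kernel
    have e0 : Sg.cz e (Sg.two c d) 30 = c := rfl
    have e1 : Sg.cz e (Sg.two c d) 31 = d := rfl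
    rw [hz]
    constructor
    · rintro (rfl | rfl)
      · exact ⟨30, by norm_num, by decide, e0⟩
      · exact ⟨31, by norm_num, by decide, e1⟩
    · rintro ⟨b, hb, hbit, rfl⟩
      rcases h0 b hb hbit with rfl | rfl
      · exact Or.inl e0
      · exact Or.inr e1
  have key : ∀ (m : ℕ), Sg.Mk e d m → (∀ a < 32, (Tv.cvJ m).getD a 0 < 2 ^ a) →
      (∀ a < 32, (Tv.umJ m).getD a 0 = Nat.lor (2 ^ a)
        (orM (fun a => (Tv.umJ m).getD a 0) 32 ((Tv.cvJ m).getD a 0))) → m < 2 ^ 30 →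
      (∀ a < 30, (Tv.cvJ m).getD a 0 = La7cv.getD a 0) →
      (Tv.cvJ m).getD 30 0 = 805306368 → (Tv.cvJ m).getD 31 0 = m →
      (∀ k, ct 7 k z = min k 9 + ∑ b ∈ (range 32).filter
        (fun b => (orM (fun a => (Tv.umJ m).getD a 0) 32 3221225472).testBit b = true),
          min k (Tv.lvJ.getD b 0 - 7)) ∧ ∀ l, l ≤ 14 → nab l z = ((range 32).filter
            (fun b => (orM (fun a => (Tv.umJ m).getD a 0) 32 3221225472).testBit b = true ∧
              Tv.lvJ.getD b 0 = l)).card := by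
    intro m hd h1 h2 h3 h4 h5 h6
    have hC : Cod (30 + 2) (fun a => (Tv.cvJ m).getD a 0) (fun a => Tv.lvJ.getD a 0)
        (Sg.cz e (Sg.two c d)) := by
      refine Sg.La7_ext D C hgt ht (cx := fun k => if k = 0 then 805306368 else m) h4
        (by decide +kernel) ?_ ?_ ?_ (Sg.two_inj hne) (Sg.two_all hc hd)
      · intro k hk
        obtain rfl | rfl : k = 0 ∨ k = 1 := by omega
        · exact h5
        · exact h6
      · intro k hk
        obtain rfl | rfl : k = 0 ∨ k = 1 := by omega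
        · decide
        · decide
      · intro k hk
        obtain rfl | rfl : k = 0 ∨ k = 1 := by omega
        · norm_num
        · exact h3
    refine ⟨fun k => ?_, fun l hl2 => ?_⟩
    · rw [Sg.cod_ct hC h1 h2 hzm, hl]
    · rw [Tv.cod_nab hC h1 h2 hzm (by rw [hl]; omega)]
  rcases hm with rfl | rfl
  · obtain ⟨g1, g2⟩ := key _ hd (by decide +kernel) (by decide +kernel) (by norm_num)
      (by decide +kernel) (by decide) (by decide)
    rw [g1, g2 7 (by norm_num), g2 9 (by norm_num)]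
    decide +kernel
  · obtain ⟨g1, g2⟩ := key _ hd (by decide +kernel) (by decide +kernel) (by norm_num)
      (by decide +kernel) (by decide) (by decide)
    rw [g1, g2 7 (by norm_num), g2 9 (by norm_num)]
    decide +kernel

end Pool.Agent.GaussPoset.W7

end

/-! From `Pool.Agent.W_448w7_h67.CxB` -/

section

/-!
The elements of level 16 below an anchor: the kinds (MP_448cb3_co, S7, `j = 14`, window 7)
-/

namespace Pool.Agent.GaussPoset.W7

set_option linter.unusedSectionVars false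

open Polynomial Finset Fi Cl Dd Wd

universe u

variable {P : Type u} [Fintype P] [PartialOrder P] [DecidableEq P] {r n0 : ℕ}
  {N : Tops P → Finset P} {b : Tops P → ℕ} {θ : Tops P → P → ℕ}

lemma inR_two {x : P} {Nc : Finset P} {co : P → ℕ × ℕ} (h : Fi.InR 7 7 N b θ x Nc co)
    (hl : lev x = 15) : ∀ k, 8 ≤ k → k ≤ 14 → 2 ≤ nab k x := by
  intro k hk hk2
  have h1 := h.rect.chart.lev x h.mem
  have h2 := h.fst
  have h3 := h.snd
  rw [nab_chart h.rect.chart h.mem]
  have := card_cellsAt_true (l := k) (p := co x) (by omega)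
  omega

lemma inS_two {x : P} {Nc : Finset P} {co : P → ℕ × ℕ} (h : Fi.InS 7 7 N b θ x Nc co)
    (hl : lev x = 15) : ∀ k, 8 ≤ k → k ≤ 14 → 2 ≤ nab k x := by
  intro k hk hk2
  have h1 := h.stair.chart.lev x h.mem
  have h2 := h.fst
  have h3 : (co x).1 ≤ (co x).2 := h.stair.chart.mem x h.mem
  rw [nab_chart h.stair.chart h.mem]
  have := card_cellsAt_shift (l := k) (p := co x) h3 (by omega)
  omega

lemma ct_mono_k {k k' : ℕ} {x : P} (h : k ≤ k') : ct 7 k x ≤ ct 7 k' x := by
  classical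
  rw [ct_eq_sum, ct_eq_sum]
  refine Finset.sum_le_sum fun y _ => ?_
  split_ifs
  · exact min_le_min_right _ h
  · exact le_rfl

/-- the tops of the elements off `r2` -/
lemma WL.cp_r2 (W : WL r n0 N b θ) {x y : P} (hxy : x ≤ y) (hx : x ∉ r2 (2 * 7) N) :
    topOf x = topOf y := by
  by_cases hY : x ∈ twY (2 * 7) N
  · rcases eq_or_lt_of_le hxy with h | h
    · rw [h]
    · have T := W.twSys
      have h1 := (T.up x hY y).mpr h
      rw [← T.cp x hY]
      exact W.natSys.cp _ _ h1.le (T.nat x hY)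
  · exact W.natSys.cp x y hxy fun h => hx (mem_sdiff.mpr ⟨h, hY⟩)

/-- the thresholds of the elements of level 15 -/
theorem WL.two_or (W : WL r n0 N b θ) {w z : P} (hw : w ∉ r2 (2 * 7) N) (hl : lev w = 15)
    (hz : z ∈ unnat N) (hzw : z ⋖ w) :
    2 ≤ th2 N θ w ∨ 21 ≤ ct 7 2 w ∨ 51 ≤ ct 7 2 z := by
  by_cases hY : w ∈ twY (2 * 7) N
  · right; left
    have T := W.twSys
    have h1 : ct 7 2 w = ct 7 2 (twT N w) := ct_congr_up fun x => (T.up w hY x).symm
    have h2 : lev (twT N w) = 15 := by rw [T.lev hY]; exact hl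
    have h3 : 28 ≤ ct 7 2 (twT N w) := by
      rcases W.tw_inner hY with ⟨Nc, co, h⟩ | ⟨Nc, co, h⟩
      · exact ct2_two h2 (inR_two h h2)
      · exact ct2_two h2 (inS_two h h2)
    omega
  · have hwN : w ∉ unnat N := fun h => hw (mem_sdiff.mpr ⟨h, hY⟩)
    have hth : th2 N θ w = θ (topOf w) w := by
      unfold th2
      rw [thX_not hY]
    rw [hth]
    rcases W.cases hwN with h | ⟨Nc, co, h⟩ | ⟨Nc, co, h⟩ | h | h | h
    · left
      rw [h.th, hl]
      norm_num
    · have := ct2_two hl (inR_two h hl)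
      omega
    · have := ct2_two hl (inS_two h hl)
      omega
    · have h1 := h.oth.h9 z hz w h.mem hl.ge hzw
      by_cases h2 : 2 ≤ θ (topOf w) w
      · exact Or.inl h2
      · right; right
        exact h1.trans (ct_mono_k (by omega))
    · right; left
      obtain ⟨lo, hi, e, A, L⟩ := h.ex
      have hA := (L.mem15 h.mem hl.ge).1
      obtain ⟨m, hm, hmk⟩ := L.dat.msk hA
      have key : ∀ m ∈ ms4, m ∈ [33554432, 67108864, 100663296, 201326592, 402653184,
          805306368] := by decide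
      exact Tv.ct2_facts L.word L.comp W.gt (topOf w).2 hmk (key m hm)
    · have := h.lev
      omega

/-- the elements above a pendant -/
lemma nab_pend {l : ℕ} {z c : P} (h : Pend z c) (hl : l < lev z) : nab l z = nab l c := by
  classical
  unfold nab
  congr 1
  ext x
  rw [mem_filter, mem_filter, mem_lv]
  constructor
  · rintro ⟨h1, h2⟩
    have h3 : z < x := lt_of_le_of_ne h2 (by rintro rfl; omega)
    obtain ⟨v, hv, hvx⟩ := Hul.exists_cov h3
    rw [h.2 v hv] at hvx
    exact ⟨h1, hvx⟩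
  · rintro ⟨h1, h2⟩
    exact ⟨h1, h.1.1.le.trans h2⟩

/-- **the kinds of the elements of level 16 below an anchor** -/
theorem WL.c16 (W : WL r n0 N b θ) (J : JH P)
    (hE : ∀ v : P, lev v = 15 → (∀ y, v ⋖ y → y ≤ (topOf v : P)) → E15 v) {c z : P}
    (hc : Ank n0 N θ c) (hz : z ∈ bdR (r2 (2 * 7) N)) (hzc : z ⋖ c) :
    C16 n0 N θ c z ∧ (ct 7 2 z ≤ 50 → nab 7 z ≤ nab 9 z) := by
  classical
  have H := W.gt.H
  have HN := W.natSys
  have hzR : z ∈ unnat N := (mem_sdiff.mp (mem_filter.mp hz).1).1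
  obtain ⟨lo, hi, e, A, L, hA, hm⟩ := hc
  have hlc : lev c = 15 := hm.1
  have hlz : lev z = 16 := by
    have := (H.covBy_iff.mp hzc).2
    omega
  obtain ⟨f1, f2, f3, f4, f5⟩ := Tv.c34_facts L.word L.comp W.gt (topOf c).2 hm
  have hcN : c ∈ N (topOf c) := by
    rw [L.nat]
    exact mem_union_right _ hA
  by_cases hon : ∀ y, z ⋖ y → y = c
  · have hp : Pend z c := ⟨hzc, hon⟩
    refine ⟨C16.P hon (Tv.pend_c34 L.word L.comp W.gt (topOf c).2 hm hp) ?_, fun _ => ?_⟩
    · rw [Tv.ct_of_pend hp, hlz, f2]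
      norm_num
    · rw [nab_pend hp (by omega), nab_pend hp (by omega), f3, f5]
  · push Not at hon
    obtain ⟨w, hzw, hwc⟩ := hon
    have hcw : c ≠ w := Ne.symm hwc
    have hcov : ∀ y, z ⋖ y → y = c ∨ y = w := fun y hy => uc_pair H hzc hzw hcw hy
    have hiff : ∀ y, z ⋖ y ↔ y = c ∨ y = w := by
      intro y
      constructor
      · exact hcov y
      · rintro (rfl | rfl)
        · exact hzc
        · exact hzw
    have hlw : lev w = 15 := by
      have := (H.covBy_iff.mp hzw).2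
      omega
    have hcv2 := ct_cov (i := 7) (k := 2) hzw.1
    rw [hlz] at hcv2
    by_cases hwR : w ∈ r2 (2 * 7) N
    · by_cases h1 : ∃ y, w ⋖ y ∧ y ≤ (topOf c : P)
      · obtain ⟨y, hy, hyt⟩ := h1
        by_cases h2 : ∀ y', w ⋖ y' → y' ≤ (topOf c : P)
        · rcases L.dat.full w hlw h2 with h3 | h3
          · exfalso
            refine mem_unnat.mp (mem_sdiff.mp hwR).1 (topOf c) ?_
            rw [L.nat]
            exact mem_union_right _ h3
          · obtain ⟨g1, -, g3, g4⟩ := join_two L.word L.comp W.gt (topOf c).2 hcw hm h3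
              (Or.inl rfl) hiff
            exact ⟨C16.Q w ⟨topOf c, lo, hi, e, A, L, h3⟩ (W.mem_bd hwR hlw) hlw hzw (g1 rfl),
              fun _ => by omega⟩
        · push Not at h2
          obtain ⟨y', hy', hyt'⟩ := h2
          have hly : lev y = 14 := by
            have := (H.covBy_iff.mp hy).2
            omega
          have hyN : y ∈ N (topOf y) := HN.mem_iff.mpr ⟨W.low (by omega), rfl⟩
          have hty : topOf c = topOf y := Subtype.ext (HN.top_eq hyN (topOf c).2 hyt)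
          have hty' : topOf y ≠ topOf y' := fun h => hyt' (by
            rw [hty, h]
            exact le_topOf y')
          have hw50 : ct 7 2 w = 50 := by
            rcases J.hJ w y y' hlw hy hy' hty' with ⟨a1, a2⟩ | ⟨a1, a2⟩
            · obtain ⟨-, b1, b2, -⟩ := W.fb_num a1 a2 hty' hy hy'
              rwa [cst_ct b1] at b2
            · obtain ⟨-, b1, b2, -⟩ := W.fb_num a1 a2 (Ne.symm hty') hy' hy
              rwa [cst_ct b1] at b2
          have hmin : min 2 (16 - 7) = 2 := by norm_num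
          have : 51 ≤ ct 7 2 z := by omega
          exact ⟨C16.big this, fun h => by omega⟩
      · push Not at h1
        have hdis : ∀ x, c ≤ x → ¬ w ≤ x := by
          intro x hcx hwx
          have hxN : x ∈ N (topOf c) := HN.up _ c hcN x hcx
          have hne : w ≠ x := by
            rintro rfl
            exact mem_unnat.mp (mem_sdiff.mp hwR).1 _ hxN
          obtain ⟨y, hy, hyx⟩ := Hul.exists_cov (lt_of_le_of_ne hwx hne)
          exact h1 y hy (hyx.trans (HN.le_t _ x hxN))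
        have hct := ct_dis (i := 7) (k := 2) hzc hzw hcov hdis
        have hw : 21 ≤ ct 7 2 w := by
          rcases W.rows J hwR hlw with ⟨t', lo', hi', e', A', L', hm'⟩ |
            ⟨x, x', g1, g2, g3, g4, g5⟩ | ⟨g, g'⟩
          · exact Tv.ct2_facts L'.word L'.comp W.gt t'.2 hm' (by simp)
          · obtain ⟨-, b1, b2, -⟩ := W.fb_num g1 g2 g3 g4 g5
            rw [cst_ct b1] at b2
            omega
          · have := ct2_two hlw (fun k hk hk2 => g' k (by omega) hk2)
            omega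
        have hmin : min 2 (lev z - 7) = 2 := by rw [hlz]; norm_num
        have : 51 ≤ ct 7 2 z := by omega
        exact ⟨C16.big this, fun h => by omega⟩
    · by_cases ht : topOf w = topOf c
      · have hwY : w ∉ twY (2 * 7) N := by
          intro hY
          have T := W.twSys
          have h1 := T.cp w hY
          rw [ht] at h1
          have h2 : twT N w ∈ N (topOf (twT N w)) := HN.mem_iff.mpr ⟨T.nat w hY, rfl⟩
          have hLx : Lx n0 N θ (twT N w) := by
            refine ⟨h2, lo, hi, e, A, ?_⟩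
            rw [h1]
            exact L
          exact hLx.tw W (by rw [T.lev hY]; exact hlw) (mem_twY.mp hY).1
            (twT_spec (mem_twY.mp hY).2.2).2
        have hwU : w ∉ unnat N := fun h => hwR (mem_sdiff.mpr ⟨h, hwY⟩)
        have hwN : w ∈ N (topOf c) := HN.mem_iff.mpr ⟨hwU, ht⟩
        have hwA := (L.mem15 hwN hlw.ge).1
        have hT := L.dat.th
        rcases L.dat.typ w hwA with h | h | h | h
        · obtain ⟨g1, g2, g3, g4, g5⟩ := Tv.join_facts L.word L.comp W.gt (topOf c).2 hm h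
            (Or.inl rfl) hiff
          exact ⟨C16.O w hwN hlw hwc hzw hcov g1 (by omega) (by rw [hT.p1 w hwA h]; norm_num),
            fun _ => by omega⟩
        · obtain ⟨g1, g2, g3, g4, g5⟩ := Tv.join_facts L.word L.comp W.gt (topOf c).2 hm h
            (Or.inr (Or.inl rfl)) hiff
          exact ⟨C16.O w hwN hlw hwc hzw hcov g1 (by omega) (by rw [hT.c12 w hwA h]; norm_num),
            fun _ => by omega⟩
        · obtain ⟨g1, g2, g3, g4, g5⟩ := Tv.join_facts L.word L.comp W.gt (topOf c).2 hm h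
            (Or.inr (Or.inr rfl)) hiff
          exact ⟨C16.O w hwN hlw hwc hzw hcov g1 (by omega) (by rw [hT.c23 w hwA h]),
            fun _ => by omega⟩
        · rcases L.dat.pat with ⟨a, Ja⟩ | ⟨hn, c1, c2, Jb⟩
          · exact absurd (Ja.uniq w hwA c hA _ h hm) hwc
          · obtain ⟨-, g2, g3, g4⟩ := join_two L.word L.comp W.gt (topOf c).2 hcw hm h
              (Or.inr rfl) hiff
            have hAw : Ank n0 N θ w := ⟨lo, hi, e, A, by rw [ht]; exact L, hwA, h⟩
            exact ⟨C16.C hn w hAw ht hwc hzw hcov (g2 rfl), fun _ => by omega⟩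
      · have hdis : ∀ x, c ≤ x → ¬ w ≤ x := by
          intro x hcx hwx
          have h1 := HN.cp c x hcx (HN.mem_iff.mp hcN).1
          have h2 := W.cp_r2 hwx hwR
          exact ht (h2.trans h1.symm)
        have hct := ct_dis (i := 7) (k := 2) hzc hzw hcov hdis
        have hct3 := ct_dis (i := 7) (k := 3) hzc hzw hcov hdis
        have hw3 := ct3_ge hlw
        have hmin : min 2 (lev z - 7) = 2 := by rw [hlz]; norm_num
        have hmin3 : min 3 (lev z - 7) = 3 := by rw [hlz]; norm_num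
        have h15 : E15 w := hE w hlw fun y hy => by
          rw [W.cp_r2 hy.1.le hwR]
          exact le_topOf y
        have hnab : ct 7 2 z ≤ 50 → nab 7 z ≤ nab 9 z := by
          intro hle
          have e7 := nab_dis (l := 7) (by omega) hzc hzw hcov hdis
          have e9 := nab_dis (l := 9) (by omega) hzc hzw hcov hdis
          have h9 : 1 ≤ nab 9 w := one_le_nab (by omega)
          have h7 : nab 7 w ≤ nab 9 w := by
            rcases h15 with h | ⟨l, h1, h2, h3, h4, h5, h6⟩ | ⟨h1, h2⟩ | h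
            · have := h 7 (by omega) (by omega)
              omega
            · have := h4 7 (by omega) (by omega)
              omega
            · exact h2
            · omega
          omega
        refine ⟨?_, hnab⟩
        rcases W.two_or hwR hlw hzR hzw with h | h | h
        · exact C16.X w hzw hcov hwR ht h (by omega) (by omega) h15
        · exact C16.big (by omega)
        · exact C16.big h

end Pool.Agent.GaussPoset.W7

end

/-! From `Pool.Agent.W_448w7_h76.VaA` -/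

section

/-!
Unnatural elements below the cells of level 14: components with one element on level 7, strips
`La7` (MP_448cb3_co, S7, `j = 14`, window 7).
-/

namespace Pool.Agent.GaussPoset.W7

set_option linter.unusedSectionVars false

open Polynomial Finset Fi Cl Dd Wd

universe u

variable {P : Type u} [Fintype P] [PartialOrder P] [DecidableEq P] {r n0 : ℕ}
  {N : Tops P → Finset P} {b : Tops P → ℕ} {θ : Tops P → P → ℕ}

lemma topOf_top' (t : Tops P) : topOf (t : P) = t := by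
  have h1 := le_topOf (t : P)
  refine Subtype.ext ?_
  rcases eq_or_lt_of_le h1 with h2 | h2
  · exact h2.symm
  · have h3 := lev_strictAnti h2
    have h4 := t.2
    omega

/-- an end `(5;25)` and a fold end have two elements of level 7 above -/
lemma nab7_p5 {x : P} (h : Prof 7 x (gD p5)) : 2 ≤ nab 7 x := by
  have h1 := h 7 (by norm_num)
  have h2 : gD p5 7 = 1 := by decide
  rw [h2] at h1
  norm_num at h1
  omega

lemma WL.nab7_fold (W : WL r n0 N b θ) {x : P} (h : Fd 7 x) : 2 ≤ nab 7 x := by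
  have h1 := W.fold_prof h 7 (by norm_num)
  have h2 : pF 7 7 = 3 := by decide
  rw [h2] at h1
  norm_num at h1
  omega

lemma LaD.cn7 {t : Tops P} {lo hi : ℕ → ℕ} {e : ℕ → ℕ → P} {A : Finset P} {θ : P → ℕ}
    (L : LaD n0 N θ t lo hi e A) : cn 7 (t : P) = 2 := by
  have h0 : cn 7 (t : P) = hi 7 + 1 - lo 7 := by
    classical
    unfold cn
    exact L.comp.card_row (by omega)
  rw [h0]
  have := L.word.row
  omega

/-- **An element of `r2` below a component with one element on level 7 has level at least 16.** -/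
theorem WL.no_r14 (W : WL r n0 N b θ) (J : JH P) {x y : P} (hy : y ∈ r2 (2 * 7) N) (hyx : y ⋖ x)
    (h7 : cn 7 (topOf x : P) = 1) (hx : x ∉ r2 (2 * 7) N) : 15 ≤ lev x := by
  classical
  have H := W.gt.H
  have HN := W.natSys
  by_contra hcon
  have hyU : y ∈ unnat N := (mem_sdiff.mp hy).1
  have hly := W.lt_lev hyU
  have h1 := (H.covBy_iff.mp hyx).2
  have hl : lev y = 2 * 7 + 1 := by omega
  have hlx : lev x = 2 * 7 := by omega
  have hn := W.nab_le_cn (v := x) (by omega) 7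
  have kJ : ∀ x', y ⋖ x' → topOf x ≠ topOf x' → False := by
    intro x' hx' ht
    rcases J.hJ y x x' hl hyx hx' ht with ⟨g1, g2⟩ | ⟨g1, g2⟩
    · have := W.nab7_fold g1
      omega
    · have := nab7_p5 g2
      omega
  by_cases hall : ∀ x', y ⋖ x' → topOf x = topOf x'
  · rcases W.rows J hy hl with ⟨t, lo, hi, e, A, L, hm⟩ | ⟨x1, x2, g1, g2, ht, g3, g4⟩ | ⟨g1, g2⟩
    · obtain ⟨a, ha, hbit, hax⟩ := (hm.2 x).mp hyx
      have h2 := Sg.La7_le L.word L.comp ha
      rw [hax] at h2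
      have hxU : x ∉ unnat N := W.low hlx.le
      have h3 : topOf x = t := by
        have h4 := HN.cp x (t : P) h2.1 hxU
        rw [topOf_top'] at h4
        exact h4
      rw [h3, L.cn7] at h7
      omega
    · exact ht ((hall x1 g3).symm.trans (hall x2 g4))
    · have g3 := g2 7 (by norm_num) (by norm_num)
      have g4 : nab 7 y ≤ cn 7 (topOf x : P) := by
        unfold nab cn
        refine Finset.card_le_card fun w hw => ?_
        rw [mem_filter] at hw ⊢
        refine ⟨hw.1, ?_⟩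
        have hlw : lev w = 7 := (mem_filter.mp hw.1).2
        have hyw : y < w := lt_of_le_of_ne hw.2 (by rintro rfl; omega)
        obtain ⟨u, hu, huw⟩ := Hul.exists_cov hyw
        have hlu := (H.covBy_iff.mp hu).2
        rw [hall u hu, HN.cp u w huw (W.low (by omega))]
        exact le_topOf w
      omega
  · push Not at hall
    obtain ⟨x', hx', ht⟩ := hall
    exact kJ x' hx' ht

/-! ### the strips `La7` -/

/-- no twins below a strip -/
lemma WL.no_tw (W : WL r n0 N b θ) {t : Tops P} {lo hi : ℕ → ℕ} {e : ℕ → ℕ → P} {A : Finset P}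
    (L : LaD n0 N (θ t) t lo hi e A) {x : P} (hx : x ∈ twY (2 * 7) N) (ht : topOf x = t) :
    False := by
  have T := W.twSys
  have h1 := mem_twY.mp hx
  have h3 := twT_spec h1.2.2
  have hl : lev (twT N x) = 15 := by rw [T.lev hx]; exact h1.2.1
  have h4 : topOf (twT N x) = t := (T.cp x hx).trans ht
  have h5 : Lx n0 N θ (twT N x) :=
    ⟨W.natSys.mem_iff.mpr ⟨h3.1, rfl⟩, lo, hi, e, A, by rw [h4]; exact L⟩
  exact h5.tw W hl h1.1 h3.2

/-- the elements off `r2` of a strip -/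
lemma WL.la_off (W : WL r n0 N b θ) {t : Tops P} {lo hi : ℕ → ℕ} {e : ℕ → ℕ → P} {A : Finset P}
    (L : LaD n0 N (θ t) t lo hi e A) {x : P} (hx : x ∉ r2 (2 * 7) N) (ht : topOf x = t) :
    x ∈ N t := by
  refine W.natSys.mem_iff.mpr ⟨fun h => ?_, ht⟩
  by_cases hY : x ∈ twY (2 * 7) N
  · exact W.no_tw L hY ht
  · exact hx (mem_sdiff.mpr ⟨h, hY⟩)

/-- the end `(5;25)` of the strip is the first cell -/
lemma WL.la_p5 (W : WL r n0 N b θ) {t : Tops P} {lo hi : ℕ → ℕ} {e : ℕ → ℕ → P} {A : Finset P}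
    (L : LaD n0 N (θ t) t lo hi e A) {x : P} (hl : lev x = 14) (hx : x ≤ (t : P))
    (h : Prof 7 x (gD p5)) : x = Sg.ce e 25 := by
  have H := W.gt.H
  have hC := Sg.La7_cod L.word L.comp W.gt.H W.gt.good t.2
  obtain ⟨a, ha, hax⟩ := Sg.La7_surj L.word L.comp hx hl.le
  have h25 : 25 ≤ a := Sg.La7_lv14 a ha (by
    rw [← (Sg.La7_le L.word L.comp ha).2, hax]
    exact hl)
  by_cases e1 : a = 25
  · rw [← hax, e1]
  exfalso
  by_cases e2 : a = 29
  · subst e2
    obtain ⟨g1, g2⟩ := L.word.rows L.comp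
    have hcv : ∀ a < 30, La7cv.getD a 0 < 2 ^ a := La7_us.cv
    have hn := strip_nab La7_strip L.comp W.gt.H W.gt.good t.2 le_rfl g1 g2 hcv
      Sg.La7_um (a := 29) (by decide +kernel) 8
    have c1 : ((range 30).filter (fun b =>
      (La7um.getD 29 0).testBit b = true ∧ La7lv.getD b 0 = 8)).card = 1 := by decide +kernel
    have h2 := h 6 (by norm_num)
    have h3 : gD p5 6 = 1 := by decide
    rw [h3] at h2
    have h4 : nab 8 x = 1 := by
      rw [← hax]
      exact hn.trans c1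
    norm_num at h2
    omega
  · have h2 := h 1 (by norm_num)
    have h3 : gD p5 1 = 0 := by decide
    have h4 := Wd.uc_card_nab H (x := x) (by omega)
    rw [hl] at h4
    rw [h3] at h2
    norm_num at h2 h4
    obtain ⟨k, hk, k', hk', hkk, b1, b2⟩ := Sg.La7_two a ha h25 e1 e2
    have h5 : (Win.uc x).card = 1 := by omega
    obtain ⟨w, hw⟩ := Finset.card_eq_one.mp h5
    rw [← hax] at hw
    have c1 : Sg.ce e k ∈ Win.uc (Sg.ce e a) :=
      Win.mem_uc.mpr ((hC.cov a ha _).mpr ⟨k, hk, b1, rfl⟩)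
    have c2 : Sg.ce e k' ∈ Win.uc (Sg.ce e a) :=
      Win.mem_uc.mpr ((hC.cov a ha _).mpr ⟨k', hk', b2, rfl⟩)
    rw [hw, mem_singleton] at c1 c2
    exact hkk (hC.inj k hk k' hk' (c1.trans c2.symm))

/-- the cell of level 14 above an element of `r2` is the first cell -/
lemma WL.la_y0 (W : WL r n0 N b θ) (J : JH P) {t : Tops P} {lo hi : ℕ → ℕ} {e : ℕ → ℕ → P}
    {A : Finset P} (L : LaD n0 N (θ t) t lo hi e A) {x y : P} (hy : y ∈ r2 (2 * 7) N)
    (hyx : y ⋖ x) (hl : lev x = 14) (ht : topOf x = t) : x = Sg.ce e 25 := by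
  have H := W.gt.H
  have hly : lev y = 15 := by
    have := (H.covBy_iff.mp hyx).2
    omega
  have hxt : x ≤ (t : P) := by rw [← ht]; exact le_topOf x
  by_cases hall : ∀ x', y ⋖ x' → x' ≤ (t : P)
  · rcases L.dat.full y hly hall with h | h
    · exfalso
      refine mem_unnat.mp (mem_sdiff.mp hy).1 t ?_
      rw [L.nat]
      exact mem_union_right _ h
    · obtain ⟨a, ha, hbit, hax⟩ := (h.2 x).mp hyx
      have key : ∀ b < 30, Nat.testBit 33554432 b = true → b = 25 := by decide +kernel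
      rw [← hax, key a ha hbit]
  · push Not at hall
    obtain ⟨x', hx', hnt⟩ := hall
    have ht' : topOf x ≠ topOf x' := by
      intro h
      rw [ht] at h
      refine hnt ?_
      rw [h]
      exact le_topOf x'
    rcases J.hJ y x x' hly hyx hx' ht' with ⟨g1, g2⟩ | ⟨g1, g2⟩
    · exfalso
      have h1 := W.nab_le_cn (v := x) (by omega) 2
      have h2 := L.cn2
      have h3 := g1.2.2
      rw [ht] at h1
      omega
    · exact W.la_p5 L hl hxt g2

/-- the costs of the elements of level 15 -/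
lemma La7_diff : ∀ m ∈ ms4, min 2 8 + ∑ b ∈ (range 30).filter
      (fun b => (orM (fun a => La7um.getD a 0) 30 m).testBit b = true),
        min 2 (La7lv.getD b 0 - 7) + 8 ≤ min 3 8 + ∑ b ∈ (range 30).filter
      (fun b => (orM (fun a => La7um.getD a 0) 30 m).testBit b = true),
        min 3 (La7lv.getD b 0 - 7) := by decide +kernel

lemma WL.la_diff (W : WL r n0 N b θ) {t : Tops P} {lo hi : ℕ → ℕ} {e : ℕ → ℕ → P} {A : Finset P}
    (L : LaD n0 N (θ t) t lo hi e A) {x : P} (hx : x ∈ A) : ct 7 2 x + 8 ≤ ct 7 3 x := by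
  obtain ⟨m, hm, hmk⟩ := L.dat.msk hx
  rw [Sg.La7_ct L.word L.comp W.gt t.2 hmk.1 hmk.2 2, Sg.La7_ct L.word L.comp W.gt t.2 hmk.1 hmk.2 3]
  exact La7_diff m hm

lemma La7_d25 : min 2 (La7lv.getD 25 0 - 7) + ∑ b ∈ (range 30).filter
      (fun b => (orM (fun a => La7um.getD a 0) 30 (La7cv.getD 25 0)).testBit b = true),
        min 2 (La7lv.getD b 0 - 7) + 7 ≤ min 3 (La7lv.getD 25 0 - 7) + ∑ b ∈ (range 30).filter
      (fun b => (orM (fun a => La7um.getD a 0) 30 (La7cv.getD 25 0)).testBit b = true),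
        min 3 (La7lv.getD b 0 - 7) := by decide +kernel

lemma WL.la_d25 (W : WL r n0 N b θ) {t : Tops P} {lo hi : ℕ → ℕ} {e : ℕ → ℕ → P} {A : Finset P}
    (L : LaD n0 N (θ t) t lo hi e A) : ct 7 2 (Sg.ce e 25) + 7 ≤ ct 7 3 (Sg.ce e 25) := by
  have hC := Sg.La7_cod L.word L.comp W.gt.H W.gt.good t.2
  have h : ∀ k, ct 7 k (Sg.ce e 25) = min k (La7lv.getD 25 0 - 7) + ∑ b ∈ (range 30).filter
      (fun b => (orM (fun a => La7um.getD a 0) 30 (La7cv.getD 25 0)).testBit b = true),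
        min k (La7lv.getD b 0 - 7) := by
    intro k
    rw [Sg.cod_ct hC La7_us.cv Sg.La7_um (fun y => hC.cov 25 (by norm_num) y) 7 k,
      hC.lev 25 (by norm_num)]
  rw [h, h]
  exact La7_d25

/-- the cost of a union, two elements are not above -/
lemma uni_costB {i : ℕ} {h : P → ℕ} {z y x : P} (hz : h z = 2) (hyx : y < x) (hzx : ¬ z ≤ x) :
    ct i 2 z + min 3 (lev y - i) + min 2 (lev x - i) + ct i 3 x ≤
      ∑ w, max (ez i h z w) (ez i (fun _ => 3) y w) + ct i 2 x := by
  classical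
  have h0 : min 3 (lev y - i) = ∑ w, (if w = y then min 3 (lev y - i) else 0) := by
    rw [Finset.sum_ite_eq' univ y, if_pos (mem_univ y)]
  have h1 : min 2 (lev x - i) = ∑ w, (if w = x then min 2 (lev x - i) else 0) := by
    rw [Finset.sum_ite_eq' univ x, if_pos (mem_univ x)]
  rw [h0, h1, ct_eq_sum, ct_eq_sum, ct_eq_sum, ← Finset.sum_add_distrib, ← Finset.sum_add_distrib,
    ← Finset.sum_add_distrib, ← Finset.sum_add_distrib]
  refine Finset.sum_le_sum fun w _ => ?_
  have e1 : ez i h z w = if z ≤ w then min 2 (lev w - i) else 0 := by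
    unfold ez
    rw [hz]
  have e2 : ez i (fun _ => 3) y w = if y ≤ w then min 3 (lev w - i) else 0 := by
    unfold ez
    rfl
  rw [e1, e2]
  by_cases hw : w = y
  · subst hw
    rw [if_neg (fun h => hzx (h.trans hyx.le)), if_pos rfl, if_neg hyx.ne,
      if_neg (not_le_of_gt hyx), if_neg (not_le_of_gt hyx), if_pos le_rfl]
    omega
  · by_cases hw2 : w = x
    · subst hw2
      rw [if_neg hzx, if_neg hw, if_pos rfl, if_pos le_rfl, if_pos le_rfl, if_pos hyx.le]
      omega
    · rw [if_neg hw, if_neg hw2]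
      by_cases hx : x ≤ w
      · rw [if_pos hx, if_pos hx, if_pos (hyx.le.trans hx)]
        by_cases hz' : z ≤ w
        · rw [if_pos hz']; omega
        · rw [if_neg hz']; omega
      · rw [if_neg hx, if_neg hx]
        omega

/-- **The union of the cone of an element below an anchor with the cone of another element below
the component.** -/
theorem WL.h3 (W : WL r n0 N b θ) (J : JH P) {c z x y : P} (hc : Ank n0 N θ c)
    (hz : h2 (2 * 7) N θ z = 2) (hzc : z ⋖ c) (hlz : lev z = 16)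
    (hzR : ∀ u, z ⋖ u → u ∉ r2 (2 * 7) N) (hy : y ∈ r2 (2 * 7) N) (hx : x ∉ r2 (2 * 7) N)
    (hxt : topOf x = topOf c) (hyx : y ⋖ x) (hne : y ≠ z) :
    ct 7 2 z + 11 ≤ ∑ w, max (ez 7 (h2 (2 * 7) N θ) z w) (ez 7 (fun _ => 3) y w) := by
  have H := W.gt.H
  obtain ⟨lo, hi, e, A, L, hcA, hcm⟩ := hc
  have hxN := W.la_off L hx hxt
  have hyU : y ∈ unnat N := (mem_sdiff.mp hy).1
  have hly := W.lt_lev hyU
  have h1 := (H.covBy_iff.mp hyx).2
  by_cases hlx : 15 ≤ lev x
  · obtain ⟨hxA, hl15⟩ := L.mem15 hxN hlx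
    have h2 := W.la_diff L hxA
    have h3 : ¬ z ≤ y := by
      intro h
      rcases eq_or_lt_of_le h with h | h
      · exact hne h.symm
      · have := lev_strictAnti h
        omega
    have h4 := uni_cost (i := 7) hz hyx.lt h3
    omega
  · have hl14 : lev x = 14 := by omega
    have hx25 := W.la_y0 J L hy hyx hl14 hxt
    have h2 := W.la_d25 L
    rw [← hx25] at h2
    have h3 : ¬ z ≤ x := by
      intro h
      have hzx : z < x := lt_of_le_of_ne h (by rintro rfl; omega)
      obtain ⟨u, hu, hux⟩ := Hul.exists_cov hzx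
      have hlu := (H.covBy_iff.mp hu).2
      have hux' : u < x := lt_of_le_of_ne hux (by rintro rfl; omega)
      have huR := hzR u hu
      have hut : topOf u = topOf c := by
        by_cases hY : u ∈ twY (2 * 7) N
        · have T := W.twSys
          have g1 : twT N u < x := (T.up u hY x).mpr hux'
          have g2 := W.natSys.cp _ x g1.le (T.nat u hY)
          rw [T.cp u hY] at g2
          exact g2.trans hxt
        · exact (W.natSys.cp u x hux (fun g => huR (mem_sdiff.mpr ⟨g, hY⟩))).trans hxt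
      obtain ⟨huA, -⟩ := L.mem15 (W.la_off L huR hut) (by omega)
      obtain ⟨m, hm, hmk⟩ := L.dat.msk huA
      obtain ⟨v, hv, hvx⟩ := Hul.exists_cov hux'
      have hlv := (H.covBy_iff.mp hv).2
      have hvx' : v = x := by
        by_contra hne'
        have := lev_strictAnti (lt_of_le_of_ne hvx hne')
        omega
      rw [hvx', hx25] at hv
      obtain ⟨a, ha, hbit, hae⟩ := (hmk.2 _).mp hv
      have hC := Sg.La7_cod L.word L.comp W.gt.H W.gt.good (topOf c).2
      have e3 : a = 25 := hC.inj a ha 25 (by norm_num) hae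
      have key : ∀ m ∈ ms4, Nat.testBit m 25 = false := by decide +kernel
      rw [e3, key m hm] at hbit
      exact absurd hbit (by simp)
    have h4 := uni_costB (i := 7) hz hyx.lt h3
    omega

end Pool.Agent.GaussPoset.W7

end

/-! From `Pool.Agent.W_448w7_h83.CyA` -/

section

/-!
Level 14, window 7 (MP_448cb3_co, S7, `j = 14`): bounded sums of a component with an anchor: order one
always, order two at the first energies.
-/

namespace Pool.Agent.GaussPoset.W7

set_option linter.unusedSectionVars false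

open Polynomial Finset Fi

universe u

section anchor

variable {Q : Type u} [Fintype Q] [PartialOrder Q] [DecidableEq Q]

/-- order one, every energy -/
theorem anchor_one {i k : ℕ} {β : Q → ℕ} {v : Q} (hβ : ∀ x, β x ≤ k) (hv : β v = k)
    (hl : i + k ≤ lev v) (n : ℕ) : (1 + X : ℤ[X]) ∣ ZB i ∅ 0 β n := by
  classical
  rw [StA_ZB_upL hβ (fun L => v ∈ L) (fun e F h => StA_anchor hv h)]
  refine Finset.dvd_sum fun L hL => Finset.dvd_sum fun ab hab => ?_
  rw [mem_upsF] at hL
  refine dvd_mul_of_dvd_left ?_ _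
  rcases Nat.lt_or_ge ab.1 (cw {x // x ∈ L} i k) with h2 | h2
  · rw [ZB_const_zero h2]
    exact dvd_zero _
  · obtain ⟨c, hc⟩ := Nat.exists_eq_add_of_le' h2
    rw [hc, ZB_const]
    have h3 : (1 + X : ℤ[X]) ^ 1 ∣ Z {x // x ∈ L} (i + k) c := by
      refine dvd_Z_of_dvd_W ?_ c
      rw [pow_one]
      exact dvd_W_one ⟨⟨v, hL.2⟩, by
        rw [lev_subtype (p := fun x => x ∈ L) hL.1]
        exact hl⟩
    rwa [pow_one] at h3

end anchor

section bottom

variable {Q : Type u} [Fintype Q] [PartialOrder Q] [DecidableEq Q]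

/-- an element on every level between -/
lemma exists_btw (hgr : GradedBelow Q) {v x : Q} (hvx : v ≤ x) {l : ℕ} (h1 : lev x ≤ l)
    (h2 : l ≤ lev v) : ∃ w, v ≤ w ∧ w ≤ x ∧ lev w = l := by
  obtain ⟨n, rfl⟩ : ∃ n, l = lev x + n := ⟨l - lev x, by omega⟩
  induction n with
  | zero => exact ⟨x, hvx, le_rfl, rfl⟩
  | succ n ih =>
    obtain ⟨w, hw1, hw2, hw3⟩ := ih (by omega) (by omega)
    have hne : v ≠ w := by
      rintro rfl
      omega
    obtain ⟨u, hu1, hu2, hu3⟩ := hgr v w (lt_of_le_of_ne hw1 hne)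
    exact ⟨u, hu1, hu2.le.trans hw2, by omega⟩

open Classical in
/-- a poset with a bottom element, one element on the levels `j - 1` and `j + 1`, two elements on the
level `j`: order two at the energies zero and one -/
theorem bottom_dia (hgr : GradedBelow Q) {v : Q} (hb : ∀ x, v ≤ x) {j : ℕ} (hj1 : 1 ≤ j)
    (hj : j + 1 ≤ lev v) (h2 : (lv Q j).card = 2) (hm : (lv Q (j - 1)).card = 1)
    (hp : (lv Q (j + 1)).card = 1) : ∀ n < 2, (1 + X : ℤ[X]) ^ 2 ∣ Z Q j n := by
  intro n hn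
  obtain rfl | rfl : n = 0 ∨ n = 1 := by omega
  · rw [Z_zero, h2]
    exact dvd_mul_left _ _
  · -- the elements of the levels `j - 1` and `j + 1`
    obtain ⟨a, ha⟩ := card_eq_one.1 hm
    obtain ⟨b, hb1⟩ := card_eq_one.1 hp
    have la : lev a = j - 1 := mem_lv.1 (by rw [ha]; exact mem_singleton_self a)
    have lb : lev b = j + 1 := mem_lv.1 (by rw [hb1]; exact mem_singleton_self b)
    have ua : ∀ x, lev x = j - 1 → x = a := fun x hx => by
      have := mem_lv.2 hx
      rw [ha, mem_singleton] at this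
      exact this
    have ub : ∀ x, lev x = j + 1 → x = b := fun x hx => by
      have := mem_lv.2 hx
      rw [hb1, mem_singleton] at this
      exact this
    have dn2 : dn j a = 2 := by
      unfold dn
      rw [← h2]
      congr 1
      refine filter_true_of_mem fun x hx => ?_
      have lx := mem_lv.1 hx
      obtain ⟨y, hy1, hy2⟩ := exists_above' (x := x) (j := j - 1) (by omega)
      rw [ua y hy2] at hy1
      exact lt_of_le_of_ne hy1 (by rintro rfl; omega)
    have up2 : up j b = 2 := by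
      unfold up
      rw [← h2]
      congr 1
      refine filter_true_of_mem fun x hx => ?_
      have lx := mem_lv.1 hx
      obtain ⟨y, hy1, hy2, hy3⟩ := exists_btw hgr (hb x) (l := j + 1) (by omega) hj
      rw [ub y hy3] at hy2
      exact lt_of_le_of_ne hy2 (by rintro rfl; omega)
    have key : ∀ x : Q, (1 + X : ℤ[X]) ^ 2 ∣ X * (if Adm j (Pi.single x 1) then (X : ℤ[X]) ^
        (nf j (Pi.single x 1)) * (1 + X) ^ (Pk j (Pi.single x 1)).card else 0) -
        ((if x = a then X ^ (below Q j) * (1 + X) else 0) +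
        (if x = b then X ^ (below Q j) * (X ^ 3 * (1 + X)) else 0)) := by
      intro x
      have hab : a ≠ b := by
        rintro rfl
        omega
      rcases lt_trichotomy (lev x) j with h1 | h1 | h1
      · rcases Nat.lt_or_ge (lev x + 1) j with h3 | h3
        · -- far above
          have hn : ¬ Adm j (Pi.single x 1) := by
            intro hA
            obtain ⟨z, -, hz, hz2⟩ := exists_btw hgr (hb x) (l := lev x + 1) (by omega) (by omega)
            have hne : z ≠ x := by rintro rfl; omega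
            refine hA z ⟨Or.inl ?_, x, lt_of_le_of_ne hz hne, ?_⟩
            · rw [rho_single, if_neg hne]; omega
            · rw [rho_single, rho_single, if_neg hne, if_pos rfl]; omega
          rw [if_neg hn, if_neg (by rintro rfl; omega), if_neg (by rintro rfl; omega)]
          simp
        · have hxa := ua x (by omega)
          subst hxa
          rw [term_case2 j x (by omega), if_pos rfl, if_neg hab, h2, dn2]
          simp
      · have t1 := term_case1 j x h1
        rw [t1, if_neg (by rintro rfl; omega), if_neg (by rintro rfl; omega), h2, add_zero, sub_zero]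
        exact dvd_mul_of_dvd_right (dvd_mul_left _ _) _
      · rcases Nat.lt_or_ge (j + 1) (lev x) with h3 | h3
        · rw [if_neg (not_adm_case5 j x h3), if_neg (by rintro rfl; omega),
            if_neg (by rintro rfl; omega)]
          simp
        · have hxb := ub x (by omega)
          subst hxb
          rw [term_case3 j x (by omega), if_neg hab.symm, if_pos rfl, h2, up2]
          refine ⟨0, ?_⟩
          ring
    have h3 : (1 + X : ℤ[X]) ^ 2 ∣ X * Z Q j 1 - (X ^ (below Q j) * (1 + X) +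
        X ^ (below Q j) * (X ^ 3 * (1 + X))) := by
      have h4 := Finset.dvd_sum (s := (univ : Finset Q)) fun x _ => key x
      rw [Finset.sum_sub_distrib, Finset.sum_add_distrib, ← Finset.mul_sum,
        Finset.sum_ite_eq' univ a, Finset.sum_ite_eq' univ b, if_pos (mem_univ _),
        if_pos (mem_univ _)] at h4
      unfold Z
      rw [sum_piAntidiag_one]
      exact h4
    have h4 : (1 + X : ℤ[X]) ^ 2 ∣ X ^ (below Q j) * (1 + X) +
        X ^ (below Q j) * (X ^ 3 * (1 + X)) := by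
      refine ⟨X ^ (below Q j) * (X ^ 2 - X + 1), ?_⟩
      ring
    have h5 : (1 + X : ℤ[X]) ^ 2 ∣ X * Z Q j 1 := by
      have := dvd_add h3 h4
      rwa [sub_add_cancel] at this
    have hcop : IsCoprime ((1 + X : ℤ[X]) ^ 2) X := by
      refine IsCoprime.pow_left ?_
      exact ⟨1, -1, by ring⟩
    exact hcop.dvd_of_dvd_mul_left h5

/-- the up-set of an element with two elements on the level `j`, one on the levels next to it -/
theorem bottom_up (hgr : GradedBelow Q) {v : Q} {j : ℕ} (hj1 : 1 ≤ j) (hj : j + 1 ≤ lev v)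
    (h2 : nab j v = 2) (hm : nab (j - 1) v = 1) (hp : nab (j + 1) v = 1) {U : Finset Q}
    (hU : ∀ x, x ∈ U ↔ v ≤ x) : ∀ n < 2, (1 + X : ℤ[X]) ^ 2 ∣ Z {x // x ∈ U} j n := by
  classical
  have hUp : ∀ x y : Q, x ≤ y → x ∈ U → y ∈ U := fun x y hxy hx =>
    (hU y).mpr (((hU x).mp hx).trans hxy)
  have hlU : ∀ x : {x // x ∈ U}, lev x = lev (x : Q) := lev_subtype (p := fun x => x ∈ U) hUp
  have hcard : ∀ l, (lv {x // x ∈ U} l).card = nab l v := by
    intro l
    unfold nab
    rw [← Finset.card_map (Function.Embedding.subtype (fun x => x ∈ U))]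
    congr 1
    ext x
    rw [mem_map, mem_filter, mem_lv]
    constructor
    · rintro ⟨y, hy, rfl⟩
      rw [mem_lv, hlU] at hy
      exact ⟨hy, (hU _).mp y.2⟩
    · rintro ⟨h3, h4⟩
      refine ⟨⟨x, (hU x).mpr h4⟩, ?_, rfl⟩
      rw [mem_lv, hlU]
      exact h3
  refine bottom_dia (gradedBelow_sub hgr hUp) (v := ⟨v, (hU v).mpr le_rfl⟩)
    (fun x => (hU _).mp x.2) hj1 ?_ ?_ ?_ ?_
  · rw [hlU]
    exact hj
  · rw [hcard, h2]
  · rw [hcard, hm]
  · rw [hcard, hp]

end bottom

end Pool.Agent.GaussPoset.W7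

end

/-! From `Pool.Agent.W_448w7_h83.CyB` -/

section

/-!
Level 14, window 7 (MP_448cb3_co, S7, `j = 14`): a join of the anchor with a component of order one whose
up-set is a chain with a double cell on the level 9 (`Sp.y_dvd`).
-/

namespace Pool.Agent.GaussPoset.W7

set_option linter.unusedSectionVars false

open Polynomial Finset Fi Cl Dd Wd Win

universe u

variable {P : Type u} [Fintype P] [PartialOrder P] [DecidableEq P]

/-- the second component -/
abbrev F2 (R : Finset P) (t s : Tops P) : Type u := {x : FR R topOf t // topOf (x.1.1 : P) = s}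

/-- the rest -/
abbrev F3 (R : Finset P) (t s : Tops P) : Type u := {x : FR R topOf t // ¬ topOf (x.1.1 : P) = s}

section gen

variable {i n1 : ℕ} {R : Finset P} {θ : P → ℕ} {t : Tops P} {c : P} {D : Finset P}

lemma Sp.up2 (S : Sp i n1 R θ t c D) (s : Tops P) : ∀ x y : FR R topOf t, x ≤ y →
    topOf (x.1.1 : P) = s → topOf (y.1.1 : P) = s :=
  fun x _ hxy hx => (S.hcp _ _ hxy x.1.2).symm.trans hx

lemma Sp.lev2 (S : Sp i n1 R θ t c D) {s : Tops P} (x : F2 R t s) :
    lev x = lev (x.1.1.1 : P) := by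
  rw [lev_subtype (S.up2 s), S.frz.levR]

lemma Sp.nab2 (S : Sp i n1 R θ t c D) {s : Tops P} (x : F2 R t s) (l : ℕ) :
    nab l x = nab l (x.1.1.1 : P) := by
  rw [nab_sub (S.up2 s), S.frz.nabR]

lemma Sp.ct2 (S : Sp i n1 R θ t c D) {s : Tops P} (x : F2 R t s) (i' k' : ℕ) :
    ct i' k' x = ct i' k' (x.1.1.1 : P) := by
  rw [ct_sub (S.up2 s), S.frz.ctR]

lemma Sp.gr2 (S : Sp i n1 R θ t c D) (s : Tops P) : GradedBelow (F2 R t s) :=
  gbel_sub (S.up2 s) (gbel_sub (S.frz.upR t) (gbel_sub S.frz.up S.gr))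

/-- the product formula of the rest -/
lemma Sp.prod_R (S : Sp i n1 R θ t c D) (s : Tops P) (β : P → ℕ) (n : ℕ) :
    ZB (P := FR R topOf t) i ∅ 0 (fun x => β x.1.1) n = ∑ ab ∈ antidiagonal n,
      ZB (P := F2 R t s) i ∅ 0 (fun x => β x.1.1.1) ab.1 *
      ZB (P := F3 R t s) i ∅ 0 (fun x => β x.1.1.1) ab.2 :=
  ZB_prod (fun x : FR R topOf t => topOf (x.1.1 : P) = s)
    (fun x y hxy => by rw [S.hcp _ _ hxy x.1.2]) i (fun x : FR R topOf t => β x.1.1) n

/-- the number of elements of the level `i` of the second component -/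
lemma Sp.lv_2 (S : Sp i n1 R θ t c D) {s : Tops P} (hst : s ≠ t) :
    (lv (F2 R t s) i).card = (univ.filter (fun x : P => lev x = i ∧ topOf x = s)).card := by
  classical
  unfold lv
  have h3 : (univ.filter (fun x : F2 R t s => lev x = i)) =
      (univ.filter (fun x : F2 R t s => lev (x.1.1.1 : P) = i)) :=
    Finset.filter_congr fun x _ => by rw [S.lev2]
  rw [h3, card_sub' (p := fun x : FR R topOf t => topOf (x.1.1 : P) = s)
      (fun x : FR R topOf t => lev (x.1.1 : P) = i),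
    card_sub' (p := fun x : FO R => ¬ topOf (x : P) = t)
      (fun x : FO R => topOf (x : P) = s ∧ lev (x : P) = i),
    card_sub' (p := fun x : P => x ∉ R)
      (fun x : P => ¬ topOf x = t ∧ topOf x = s ∧ lev x = i)]
  congr 1
  refine Finset.filter_congr fun x _ => ?_
  constructor
  · rintro ⟨-, -, h4, h5⟩
    exact ⟨h5, h4⟩
  · rintro ⟨h4, h5⟩
    exact ⟨fun h => by have := S.lev_R x h; omega, fun h => hst (h5 ▸ h), h5, h4⟩

/-- the order of the third factor -/
theorem Sp.dvd_3 (S : Sp i n1 R θ t c D) {v : P} (vR : v ∉ R) (vt : topOf v ≠ t)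
    (hiv : i ≤ lev v) (hL : (univ.filter (fun x : P => lev x = i ∧ topOf x = topOf v)).card = 1)
    (β : P → ℕ) (hβ : ∀ x, x ∉ R → topOf x ≠ t → topOf x ≠ topOf v → β x ≤ θ x) {n : ℕ}
    (hn : n < n1) : (1 + X : ℤ[X]) ^ ((lv P i).card - 3) ∣
      ZB (P := F3 R t (topOf v)) i ∅ 0 (fun x => β x.1.1.1) n := by
  classical
  have h2 := S.lv_2 (s := topOf v) vt
  rw [hL] at h2
  have hR := S.lv_R
  have h1R : 1 ≤ (lv (FR R topOf t) i).card := by
    rw [← h2]
    refine Finset.card_le_card_of_injOn (fun x => x.1) ?_ Subtype.val_injective.injOn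
    intro x hx
    rw [Finset.mem_coe, mem_lv] at hx ⊢
    rw [← hx]
    exact (lev_subtype (S.up2 (topOf v)) x).symm
  let β' : P → ℕ := fun x => if topOf x = topOf v then 0 else β x
  have e1 : (fun x : F2 R t (topOf v) => β' x.1.1.1) = 0 := by
    funext x
    exact if_pos x.2
  have e2 : (fun x : F3 R t (topOf v) => β' x.1.1.1) =
      (fun x : F3 R t (topOf v) => β x.1.1.1) := by
    funext x
    exact if_neg x.2
  refine dvd_of_prod (A := fun a => Z (F2 R t (topOf v)) i a)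
    (B := fun a => ZB (P := F3 R t (topOf v)) i ∅ 0 (fun x => β x.1.1.1) a) (α := 1)
    (β := (lv P i).card - 3) (N := n1) (u := below (F2 R t (topOf v)) i) ?_ ?_ ?_ n hn
  · rw [Z_zero, h2]
  · intro a
    refine dvd_Z_of_dvd_W ?_ a
    rw [pow_one]
    refine dvd_W_one ⟨⟨⟨⟨v, vR⟩, vt⟩, rfl⟩, ?_⟩
    rw [S.lev2]
    exact hiv
  · intro n hn
    have h3 := S.dvd_R β' (fun x hx ht => by
      show (if topOf x = topOf v then 0 else β x) ≤ _
      split_ifs with h
      · exact Nat.zero_le _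
      · exact hβ x hx ht h) hn
    rw [S.prod_R (topOf v), e1, e2,
      show (lv P i).card - 2 = 1 + ((lv P i).card - 3) by omega] at h3
    convert h3 using 2
    rename_i ab hab
    rw [Z_eq_ZB]

end gen

section seven

variable {R : Finset P} {θ : P → ℕ} {t : Tops P} {c : P} {D : Finset P}

/-- the cost of a chain with a double cell -/
lemma ct_dia {v : P} (hlv : lev v = 15) (h1 : ∀ l, l ≤ 15 → l ≠ 9 → nab l v = 1)
    (h2 : nab 9 v = 2) : ct 7 2 v = 17 := by
  unfold ct
  rw [cst_eq, hlv]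
  simp only [Finset.sum_range_succ, Finset.sum_range_zero]
  rw [h1 0 (by norm_num) (by norm_num), h1 1 (by norm_num) (by norm_num),
    h1 2 (by norm_num) (by norm_num), h1 3 (by norm_num) (by norm_num),
    h1 4 (by norm_num) (by norm_num), h1 5 (by norm_num) (by norm_num),
    h1 6 (by norm_num) (by norm_num), h1 7 (by norm_num) (by norm_num),
    h1 8 (by norm_num) (by norm_num), h2, h1 10 (by norm_num) (by norm_num),
    h1 11 (by norm_num) (by norm_num), h1 12 (by norm_num) (by norm_num),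
    h1 13 (by norm_num) (by norm_num), h1 14 (by norm_num) (by norm_num),
    h1 15 (by norm_num) (by norm_num)]
  norm_num

/-- the second component at the energies below 19 -/
theorem Sp.two_19 (S : Sp 7 51 R θ t c D) {v : P} (vR : v ∉ R) (vt : topOf v ≠ t)
    (hlv : lev v = 15) (h1 : ∀ l, l ≤ 15 → l ≠ 9 → nab l v = 1) (h2 : nab 9 v = 2)
    (hout : ∀ x, x ∉ R → topOf x = topOf v → ¬ v ≤ x → 9 ≤ lev x) {β : P → ℕ}
    (hv : β v = 2) (hβ : ∀ x, x ∉ R → topOf x = topOf v → β x ≤ 2) {b : ℕ} (hb : b < 19) :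
    (1 + X : ℤ[X]) ^ 2 ∣ ZB (P := F2 R t (topOf v)) 7 ∅ 0 (fun x => β x.1.1.1) b := by
  classical
  let v' : F2 R t (topOf v) := ⟨⟨⟨v, vR⟩, vt⟩, rfl⟩
  refine anc_dvd (k := 2) (p := 2) (v := v') le_rfl (fun x => hβ _ x.1.1.2 x.2) hv ?_ ?_ ?_
  · intro x hx
    rw [S.lev2]
    exact hout _ x.1.1.2 x.2 (fun h => hx h)
  · intro U hU n hn
    refine bottom_up (S.gr2 _) (v := v') (j := 9) (by norm_num) ?_ ?_ ?_ ?_ hU n hn
    · rw [S.lev2]
      show 9 + 1 ≤ lev v
      omega
    · rw [S.nab2]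
      exact h2
    · rw [S.nab2]
      exact h1 8 (by norm_num) (by norm_num)
    · rw [S.nab2]
      exact h1 10 (by norm_num) (by norm_num)
  · rw [S.ct2]
    show b < ct 7 2 v + 2
    rw [ct_dia hlv h1 h2]
    omega

/-- the three factors -/
theorem Sp.main_cy (S : Sp 7 51 R θ t c D) {v : P} (vR : v ∉ R) (vt : topOf v ≠ t)
    (hlv : lev v = 15) (h1 : ∀ l, l ≤ 15 → l ≠ 9 → nab l v = 1) (h2 : nab 9 v = 2)
    (hL : (univ.filter (fun x : P => lev x = 7 ∧ topOf x = topOf v)).card = 1)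
    (hout : ∀ x, x ∉ R → topOf x = topOf v → ¬ v ≤ x → 9 ≤ lev x) {β : P → ℕ}
    (hc : β c = 2) (hv : β v = 2) (hβT : ∀ x, x ∉ R → topOf x = t → β x ≤ 2)
    (hβ2 : ∀ x, x ∉ R → topOf x = topOf v → β x ≤ 2)
    (hβ3 : ∀ x, x ∉ R → topOf x ≠ t → topOf x ≠ topOf v → β x ≤ θ x) {n : ℕ} (hn : n ≤ 48) :
    (1 + X : ℤ[X]) ^ (lv P 7).card ∣ ZB 7 R 0 β n := by
  classical
  have hR := S.lv_R
  have h2' := S.lv_2 (s := topOf v) vt
  rw [hL] at h2'
  have h1R : 1 ≤ (lv (FR R topOf t) 7).card := by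
    rw [← h2']
    refine Finset.card_le_card_of_injOn (fun x => x.1) ?_ Subtype.val_injective.injOn
    intro x hx
    rw [Finset.mem_coe, mem_lv] at hx ⊢
    rw [← hx]
    exact (lev_subtype (S.up2 (topOf v)) x).symm
  have hlc := S.clev
  let v' : F2 R t (topOf v) := ⟨⟨⟨v, vR⟩, vt⟩, rfl⟩
  have hT1 : ∀ a, (1 + X : ℤ[X]) ∣ ZB (P := FT R topOf t) 7 ∅ 0 (fun x => β x.1.1) a := by
    intro a
    refine anchor_one (k := 2) (v := S.cT) (fun x => hβT _ x.1.2 x.2) hc ?_ a
    rw [S.lev_cT]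
    norm_num
  have h21 : ∀ a, (1 + X : ℤ[X]) ∣
      ZB (P := F2 R t (topOf v)) 7 ∅ 0 (fun x => β x.1.1.1) a := by
    intro a
    refine anchor_one (k := 2) (v := v') (fun x => hβ2 _ x.1.1.2 x.2) hv ?_ a
    rw [S.lev2]
    show 7 + 2 ≤ lev v
    omega
  rw [S.frz.prod S.lev_R t]
  refine Finset.dvd_sum fun ab hab => ?_
  rw [HasAntidiagonal.mem_antidiagonal] at hab
  rw [S.prod_R (topOf v), Finset.mul_sum]
  refine Finset.dvd_sum fun bc hbc => ?_
  rw [HasAntidiagonal.mem_antidiagonal] at hbc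
  have h3 := S.dvd_3 vR vt (by omega) hL β hβ3 (n := bc.2) (by omega)
  rw [← mul_assoc]
  obtain ⟨m, hm⟩ : ∃ m, (lv P 7).card = 3 + m := ⟨(lv P 7).card - 3, by omega⟩
  rw [hm, show 3 + m - 3 = m by omega] at h3
  rw [hm, pow_add]
  refine mul_dvd_mul ?_ h3
  rcases Nat.lt_or_ge ab.1 30 with h4 | h4
  · rw [show (3 : ℕ) = 2 + 1 from rfl, pow_add, pow_one]
    exact mul_dvd_mul (S.T_dvd hc hβT h4) (h21 _)
  · rw [show (3 : ℕ) = 1 + 2 from rfl, pow_add, pow_one]
    exact mul_dvd_mul (hT1 _) (S.two_19 vR vt hlv h1 h2 hout hv hβ2 (by omega))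

/-- **(CY)** -/
theorem Sp.y_dvd (S : Sp 7 51 R θ t c D) {z v : P} (hz : z ∈ bdR R) (hlz : lev z = 16)
    (zc : z ⋖ c) (zv : z ⋖ v) (vR : v ∉ R) (vt : topOf v ≠ t) (hlv : lev v = 15)
    (h1 : ∀ l, l ≤ 15 → l ≠ 9 → nab l v = 1) (h2 : nab 9 v = 2)
    (hL : (univ.filter (fun x : P => lev x = 7 ∧ topOf x = topOf v)).card = 1)
    (hout : ∀ x, x ∉ R → topOf x = topOf v → ¬ v ≤ x → 9 ≤ lev x)
    (h3 : ∀ y ∈ R, ∀ x, x ∉ R → topOf x = topOf v → y ⋖ x →
      50 < ∑ w, max (ez 7 (fun _ => 2) z w) (ez 7 (fun _ => 3) y w))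
    {n : ℕ} (hn : n ≤ 50) (g : P → ℕ) (hg0 : ∀ x, x ∉ R → g x = 0) (hgz : 2 ≤ g z)
    (hg1 : ∀ y ∈ R, ∀ x, x ∉ R → y ⋖ x → topOf x = t → g y ≤ 2)
    (hg2 : ∀ y ∈ R, ∀ x, x ∉ R → y ⋖ x → topOf x ≠ t → g y ≤ θ x) :
    (1 + X) ^ (lv P 7).card ∣ ZB 7 R g 0 n := by
  classical
  have hzR : z ∈ R := (mem_filter.mp hz).1
  by_cases hex : ∃ e F, Cst 7 R g 0 e F ∧ ∑ x, e x = n
  · obtain ⟨e, F, hC, hs⟩ := hex
    have hCs := hC
    obtain ⟨hV, hRe, -⟩ := hC
    have G : ∀ y ∈ R, ∀ x, x ∉ R → y ⋖ x → topOf x = topOf v → g y ≤ 2 := by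
      intro y hy x hx hyx hxt
      by_contra hcon
      have hly := S.lR y hy
      have h4 := h3 y hy x hx hxt hyx
      have h5 := ez_le (h := fun _ => 2) (z := z) hV (by omega) (Or.inr (by
        show 2 ≤ e z
        rw [(hRe z hzR).2]
        exact hgz))
      have h6 := ez_le (h := fun _ => 3) (z := y) hV (by omega) (Or.inr (by
        show 3 ≤ e y
        rw [(hRe y hy).2]
        omega))
      have h7 : ∑ w, max (ez 7 (fun _ => 2) z w) (ez 7 (fun _ => 3) y w) ≤ ∑ x, e x :=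
        Finset.sum_le_sum fun w _ => max_le (h5 w) (h6 w)
      omega
    by_cases hc : ∀ x ∈ R, ∀ y ∈ R, x ≤ y → g x ≤ g y
    · have hsum : g z ≤ ∑ x, g x := Finset.single_le_sum (fun _ _ => Nat.zero_le _) (mem_univ z)
      have hle : ∑ x, g x ≤ n := by
        rw [← hs]
        refine Finset.sum_le_sum fun x _ => ?_
        by_cases hx : x ∈ R
        · exact (hCs.2.1 x hx).2.ge
        · rw [hg0 x hx]
          exact Nat.zero_le _
      obtain ⟨n', hn'⟩ : ∃ n', n = n' + ∑ x, g x := ⟨n - ∑ x, g x, by omega⟩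
      rw [hn', ZB_shift 0 S.low S.lev_R hg0 hc]
      refine S.main_cy vR vt hlv h1 h2 hL hout ?_ ?_ ?_ ?_ ?_ (by omega)
      · exact le_antisymm (bg_le (Nat.zero_le _) fun y hy hyc => hg1 y hy c S.cR hyc S.cpc)
          (hgz.trans (le_bg' 0 hzR zc))
      · exact le_antisymm (bg_le (Nat.zero_le _) fun y hy hyv => G y hy v vR hyv rfl)
          (hgz.trans (le_bg' 0 hzR zv))
      · exact fun x hx ht => bg_le (Nat.zero_le _) fun y hy hyx => hg1 y hy x hx hyx ht
      · exact fun x hx ht => bg_le (Nat.zero_le _) fun y hy hyx => G y hy x hx hyx ht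
      · exact fun x hx ht _ => bg_le (Nat.zero_le _) fun y hy hyx => hg2 y hy x hx hyx ht
    · rw [ZB_zero_of_not_compat 0 S.lev_R hc]
      exact dvd_zero _
  · have : ZB 7 R g 0 n = 0 := by
      unfold ZB
      refine Finset.sum_eq_zero fun F _ => ?_
      rw [Finset.filter_eq_empty_iff.mpr, Finset.sum_empty]
      intro e he hC
      rw [mem_piAntidiag] at he
      exact hex ⟨e, F, hC, he.1⟩
    rw [this]
    exact dvd_zero _

end seven

end Pool.Agent.GaussPoset.W7

end

/-! From `Pool.Agent.W_448w7_h83.CyC` -/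

section

/-!
Level 14, window 7 (MP_448cb3_co, S7, `j = 14`): the elements of level 16 below an anchor and below an
element with a double cell on level 9 (the field `nine` of `Lad`).
-/

namespace Pool.Agent.GaussPoset.W7

set_option linter.unusedSectionVars false

open Polynomial Finset Fi Cl Dd Wd

universe u

variable {P : Type u} [Fintype P] [PartialOrder P] [DecidableEq P] {r n0 : ℕ}
  {N : Tops P → Finset P} {b : Tops P → ℕ} {θ : Tops P → P → ℕ}

/-- one more label costs at least the number of the levels -/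
lemma ct_lt_succ {x : P} {a : ℕ} (ha : 9 + a = lev x) : ct 7 2 x + a ≤ ct 7 3 x := by
  unfold ct
  rw [cst_eq, cst_eq]
  have h1 : ∀ t ∈ range (lev x + 1), min 2 (t - 7) * nab t x + (if 9 < t then 1 else 0) ≤
      min 3 (t - 7) * nab t x := by
    intro t ht
    rw [mem_range] at ht
    have h2 : 1 ≤ nab t x := one_le_nab (by omega)
    split_ifs with h3
    · rw [show min 3 (t - 7) = min 2 (t - 7) + 1 by omega, add_mul, one_mul]
      omega
    · rw [Nat.add_zero]
      exact Nat.mul_le_mul_right _ (min_le_min (by norm_num) le_rfl)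
  refine le_trans ?_ (Finset.sum_le_sum h1)
  rw [Finset.sum_add_distrib]
  refine Nat.add_le_add_left ?_ _
  rw [← Finset.sum_filter, Finset.sum_const, smul_eq_mul, mul_one]
  have h4 : Finset.Ico 10 (lev x + 1) ⊆ (range (lev x + 1)).filter (fun t => 9 < t) := by
    intro t ht
    rw [Finset.mem_Ico] at ht
    rw [mem_filter, mem_range]
    omega
  have h5 := Finset.card_le_card h4
  rw [Nat.card_Ico] at h5
  omega

/-- **The field `nine` of the ladder.** -/
theorem WL.nine (W : WL r 51 N b θ) (J : JH P)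
    (hsp : ∀ c : P, Ank 51 N θ c →
      Sp 7 51 (r2 (2 * 7) N) (th2 N θ) (topOf c) c (Dn 51 N c)) :
    ∀ c z v : P, Ank 51 N θ c → z ∈ bdR (r2 (2 * 7) N) → lev z = 16 → z ⋖ c → z ⋖ v →
    v ∉ r2 (2 * 7) N → topOf v ≠ topOf c → nab 9 v = 2 →
    (∀ l, l ≤ 14 → l ≠ 9 → nab l v = 1) → cn 7 (topOf v : P) = 1 →
    (∀ x, x ≤ (topOf v : P) → lev x ≤ 14 → ¬ v ≤ x → 9 ≤ lev x) →
    ∀ n, n ≤ 50 → ∀ g : P → ℕ, (∀ x, x ∉ r2 (2 * 7) N → g x = 0) → 2 ≤ g z →
      (∀ y ∈ r2 (2 * 7) N, ∀ x, x ∉ r2 (2 * 7) N → y ⋖ x → topOf x = topOf c → g y ≤ 2) →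
      (∀ y ∈ r2 (2 * 7) N, ∀ x, x ∉ r2 (2 * 7) N → y ⋖ x → topOf x ≠ topOf c →
        g y ≤ th2 N θ x) →
      (1 + X : ℤ[X]) ^ (lv P 7).card ∣ ZB 7 (r2 (2 * 7) N) g 0 n := by
  classical
  intro c z v hc hz hlz zc zv vR vt h9 h1 h7 hout n hn g hg0 hgz hg1 hg2
  have H := W.gt.H
  have S := hsp c hc
  have hlv : lev v = 15 := by
    have := (H.covBy_iff.mp zv).2
    omega
  have h1' : ∀ l, l ≤ 15 → l ≠ 9 → nab l v = 1 := by
    intro l hl hl9
    by_cases h : l = 15
    · rw [h, ← hlv]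
      exact nab_self
    · exact h1 l (by omega) hl9
  have hcv : ∀ x, c ≤ x → v ≤ x → False := by
    intro x hcx hvx
    exact vt ((S.hcp _ _ hvx vR).trans (S.hcp _ _ hcx S.cR).symm)
  have hz47 : 47 ≤ ct 7 2 z := by
    have h2 := two_anchor (m := 7) (f := c) (v := v)
      (e := fun x => if z ≤ x then min 2 (lev x - 7) else 0) (c := fun _ => 2) (k1 := 2) (k2 := 2)
      (fun x hx => by
        show _ ≤ (if z ≤ x then min 2 (lev x - 7) else 0)
        rw [if_pos (zc.1.le.trans hx)])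
      (fun x hx => by
        show _ ≤ (if z ≤ x then min 2 (lev x - 7) else 0)
        rw [if_pos (zv.1.le.trans hx)]) hcv {z} (fun w hw => by
        rw [mem_singleton] at hw
        subst hw
        exact ⟨not_le_of_gt zc.1, not_le_of_gt zv.1⟩) (fun w hw => by
        rw [mem_singleton] at hw
        subst hw
        show 2 ≤ (if w ≤ w then min 2 (lev w - 7) else 0)
        rw [if_pos le_rfl]
        omega)
    rw [S.cct, ct_dia hlv h1' h9, Finset.sum_singleton] at h2
    rw [ct_eq_sum]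
    refine le_trans (by norm_num) (h2.trans (le_of_eq (Finset.sum_congr rfl fun x _ => ?_)))
    split_ifs <;> rfl
  refine S.y_dvd hz hlz zc zv vR vt hlv h1' h9 ?_ ?_ ?_ hn g hg0 hgz hg1 hg2
  · unfold cn lv at h7
    rw [Finset.filter_filter] at h7
    rw [← h7]
    congr 1
    refine Finset.filter_congr fun x _ => ?_
    constructor
    · rintro ⟨h3, h4⟩
      exact ⟨h3, by rw [← h4]; exact le_topOf x⟩
    · rintro ⟨h3, h4⟩
      refine ⟨h3, ?_⟩
      have h5 := W.natSys.cp x (topOf v : P) h4 (W.low (by omega))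
      rw [topOf_top'] at h5
      exact h5
  · intro x hx hxt hvx
    by_cases hl : lev x ≤ 14
    · exact hout x (by rw [← hxt]; exact le_topOf x) hl hvx
    · omega
  · intro y hy x hx hxt hyx
    have h15 := W.no_r14 J hy hyx (by rw [hxt]; exact h7) hx
    have hly := (H.covBy_iff.mp hyx).2
    have hx3 := ct_lt_succ (x := x) (a := lev x - 9) (by omega)
    by_cases hyz : z = y
    · subst hyz
      have h2 := uni_self (i := 7) (h := fun _ => 2) (z := z) rfl
      rw [← h2]
      have h4 := two_anchor (m := 7) (f := c) (v := v)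
        (e := fun x => if z ≤ x then min 3 (lev x - 7) else 0) (c := fun _ => 3) (k1 := 3)
        (k2 := 3)
        (fun x hx => by
          show _ ≤ (if z ≤ x then min 3 (lev x - 7) else 0)
          rw [if_pos (zc.1.le.trans hx)])
        (fun x hx => by
          show _ ≤ (if z ≤ x then min 3 (lev x - 7) else 0)
          rw [if_pos (zv.1.le.trans hx)]) hcv {z} (fun w hw => by
          rw [mem_singleton] at hw
          subst hw
          exact ⟨not_le_of_gt zc.1, not_le_of_gt zv.1⟩) (fun w hw => by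
          rw [mem_singleton] at hw
          subst hw
          show 3 ≤ (if w ≤ w then min 3 (lev w - 7) else 0)
          rw [if_pos le_rfl]
          omega)
      have h5 := ct_lt_succ (x := c) (a := 6) (by rw [S.clev])
      have h6 := ct_lt_succ (x := v) (a := 6) (by omega)
      rw [Finset.sum_singleton] at h4
      have h7 := S.cct
      have h8 := ct_dia hlv h1' h9
      have h10 : ∑ x, (if z ≤ x then min 3 (lev x - 7) else 0) ≤ ct 7 3 z := by
        rw [ct_eq_sum]
      have h11 := h4.trans h10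
      omega
    · have h3 : ¬ z ≤ y := by
        intro h
        have := lev_strictAnti (lt_of_le_of_ne h hyz)
        omega
      have h4 := uni_cost (i := 7) (h := fun _ => 2) (z := z) rfl hyx.lt h3
      rw [Nat.min_eq_left (show 3 ≤ lev y - 7 by omega)] at h4
      omega

end Pool.Agent.GaussPoset.W7

end

/-! From `Pool.Agent.W_448w7_h36.LaB` -/

section

/-!
The strip `La7` with elements of level 15, pattern J, window 9 (MP_448cb3_co, S7, `j = 14`).
-/

namespace Pool.Agent.GaussPoset.W7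

set_option linter.unusedSectionVars false
set_option synthInstance.maxSize 1000

open Polynomial Finset Cl Dd Wd Win Sg

universe u

variable {P : Type u} [Fintype P] [PartialOrder P] [DecidableEq P]
variable {r : ℕ} {t : P} {lo hi : ℕ → ℕ} {e : ℕ → ℕ → P}

lemma Ja_umh : ∀ a < 34, Jaum.getD a 0 =
    Nat.lor (2 ^ a) (orM (fun a => Jaum.getD a 0) 34 (Jacv.getD a 0)) := by decide +kernel

lemma Ja_um32 : Jaum.getD 32 0 = 5127241727 := by decide +kernel

/-- the elements above a cell -/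
lemma cod_toS_above {n N : ℕ} {cv lv um : ℕ → ℕ} {c : ℕ → P} (C : Cod n cv lv c) (hn : n ≤ N)
    (hcv : ∀ a < N, cv a < 2 ^ a) (hum : ∀ a < N, um a = Nat.lor (2 ^ a) (orM um N (cv a)))
    {a : ℕ} (ha : a < n) (x : P) : x ∈ toS n c (um a) ↔ c a ≤ x := by
  rw [mem_toS]
  constructor
  · rintro ⟨b, hb, hbit, rfl⟩
    exact (C.le_iff hn hcv hum ha hb).mpr hbit
  · intro h
    obtain ⟨b, hb, rfl⟩ := cod_above C ha h
    exact ⟨b, hb, (C.le_iff hn hcv hum ha hb).mp h, rfl⟩

/-- a sum with a pole of value one -/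
lemma dvd_of_val {s : ℤ[X]} (h : s.eval (-1) = 1) :
    (1 + X : ℤ[X]) ^ 2 ∣ (1 + X) * s + X ^ 13 * (1 + X) := by
  have h1 : ((s + X ^ 13 : ℤ[X])).IsRoot (-1) := by
    show (s + X ^ 13).eval (-1) = 0
    rw [eval_add, h, eval_pow, eval_X]
    norm_num
  have h2 := Polynomial.dvd_iff_isRoot.mpr h1
  rw [map_neg, map_one, sub_neg_eq_add, add_comm X] at h2
  have h3 : (1 + X : ℤ[X]) * s + X ^ 13 * (1 + X) = (1 + X) * (s + X ^ 13) := by ring
  rw [h3, pow_two]
  exact mul_dvd_mul_left _ h2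

section

variable (D : WordD 14 7 wa7 lo hi) (C : Cp.Comp 14 t lo hi e) (hgt : GoodTo P r 14)
  (ht : lev t = 0)

include D C hgt ht in
/-- **(F2)** the up-sets which contain the anchor, window 9, pattern J -/
theorem JA.cls {A : Finset P} {c : P} (J : JA e A c) :
    (∀ L : Finset P, (∀ x ∈ L, x ∈ lowPart 14 t ∪ A) → (∀ x ∈ L, ∀ y, x ≤ y → y ∈ L) → c ∈ L →
      (∀ n < 2, (1 + X : ℤ[X]) ^ 2 ∣ Z {x : P // x ∈ L} 9 n) ∧
      ((∃ d ∈ A, d ≠ c ∧ d ∈ L) →
        ∀ n < 12, (1 + X : ℤ[X]) ^ 2 ∣ Z {x : P // x ∈ L} 9 n)) ∧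
    (∀ L : Finset P, (∀ x, x ∈ L ↔ c ≤ x) →
      (1 + X : ℤ[X]) ^ 2 ∣ Z {x : P // x ∈ L} 9 2 + X ^ 13 * (1 + X)) := by
  obtain ⟨K, z, E, hz⟩ := J.enum D C hgt ht
  have hK := E.le
  have hK3 := E.ge
  have hcod := E.cod D C hgt ht (lvL := Jalv) (by decide +kernel) (by decide +kernel)
    (by decide +kernel) (by decide +kernel)
  have hS := La7_mem D C (z := z) E.mem
  have h32 : cz e z 32 = c := by
    have := cz_add (e := e) z 2
    rw [hz] at this
    exact this
  have hab : ∀ x, x ∈ toS (30 + K) (cz e z) 5127241727 ↔ c ≤ x := by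
    intro x
    have h1 := cod_toS_above hcod (N := 34) (by omega) Ja_us.cv Ja_umh (a := 32) (by omega) x
    simp only [Ja_um32, h32] at h1
    exact h1
  have hbn : 5127241727 < 2 ^ (30 + K) :=
    lt_of_lt_of_le (by norm_num) (Nat.pow_le_pow_right (by norm_num) (show 33 ≤ 30 + K by omega))
  have hval := cod_valN hcod Ja_us (by omega) JaR_neg JaR_nmem hbn JaR_nnum
  obtain ⟨v1, s, v2, v3⟩ := hval
  have hclean : ∀ L : Finset P, (∀ x ∈ L, x ∈ lowPart 14 t ∪ A) →
      (∀ x ∈ L, ∀ y, x ≤ y → y ∈ L) → c ∈ L → L ≠ toS (30 + K) (cz e z) 5127241727 →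
      ∀ n' ≤ 11, (1 + X : ℤ[X]) ^ 2 ∣ Z {x : P // x ∈ L} 9 n' := by
    intro L hL hup hc hne
    refine cod_clean_ne hcod Ja_us (by omega) JaM_pol Ja_num9 Ja_all9
      (fun x hx => (hS x).mp (hL x hx)) hup hbn ?_ hne
    intro a ha hbit
    refine hup c hc _ ?_
    rw [← hab, mem_toS]
    exact ⟨a, ha, hbit, rfl⟩
  refine ⟨fun L hL hup hc => ⟨fun n hn => ?_, ?_⟩, fun L hL => ?_⟩
  · by_cases hLe : L = toS (30 + K) (cz e z) 5127241727
    · rw [hLe]
      exact v1 n hn
    · exact hclean L hL hup hc hLe n (by omega)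
  · rintro ⟨d, hdA, hdc, hdL⟩ n hn
    refine hclean L hL hup hc ?_ n (by omega)
    rintro rfl
    rw [hab] at hdL
    have h1 : c < d := lt_of_le_of_ne hdL (Ne.symm hdc)
    have h2 := lev_strictAnti h1
    obtain ⟨k, hk, hk'⟩ := (E.mem d).mp hdA
    have h3 : lev d = 15 := by
      rw [← hk']
      exact (E.msk k hk).1
    have h4 : lev c = 15 := J.hc.1
    omega
  · have hLe : L = toS (30 + K) (cz e z) 5127241727 := by
      ext x
      rw [hL, hab]
    rw [hLe, v2]
    refine dvd_of_val ?_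
    rw [v3]
    simp only [JaR_nsgn]
    norm_num

end

end Pool.Agent.GaussPoset.W7

end

/-! From `Pool.Agent.W_448w7_h36.LaC` -/

section

/-!
The strip `La7` with elements of level 15, pattern J-prime: local data and the pole at window 7,
window 9 (MP_448cb3_co, S7, `j = 14`).
-/

namespace Pool.Agent.GaussPoset.W7

set_option linter.unusedSectionVars false
set_option synthInstance.maxSize 1000

open Polynomial Finset Cl Dd Wd Win Sg

universe u

variable {P : Type u} [Fintype P] [PartialOrder P] [DecidableEq P]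
variable {r : ℕ} {t : P} {lo hi : ℕ → ℕ} {e : ℕ → ℕ → P}

lemma Jb_umh : ∀ a < 34, Jbum.getD a 0 =
    Nat.lor (2 ^ a) (orM (fun a => Jbum.getD a 0) 34 (Jbcv.getD a 0)) := by decide +kernel

lemma Jb_um32 : Jbum.getD 32 0 = 5127241727 := by decide +kernel

/-- the value of a complete coded set at the window 7 -/
theorem full_plZ {n : ℕ} {cv lv : ℕ → ℕ} {c : ℕ → P} (C : Cod n cv lv c) {n0 : ℕ} {J : ℕ}
    (hJn : J = 2 ^ n - 1) {S : Finset P} (hS : ∀ y, y ∈ S ↔ ∃ a < n, c a = y) {v : ℤ}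
    (hv : (∀ n' < n0, (1 + X : ℤ[X]) ^ 2 ∣ Z {y : P // y ∈ toS n c J} 7 n') ∧
      ∃ s : ℤ[X], Z {y : P // y ∈ toS n c J} 7 n0 = (1 + X) * s ∧ s.eval (-1) = -v)
    (h7 : ((range n).filter (fun a => lv a < 7)).card = 7)
    (h8 : ((range n).filter (fun a => lv a = 7)).card = 2)
    {f : Polynomial (PowerSeries ℤ)} (hf : ∀ n, exq n f = Z {y : P // y ∈ S} 7 n) :
    Pl n0 2 v f := by
  classical
  have hbits : ∀ a < n, J.testBit a = true := by
    intro a ha
    rw [hJn]
    rw [Nat.testBit_two_pow_sub_one]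
    simpa using ha
  have hSe : toS n c J = S := by
    ext y
    rw [mem_toS, hS]
    constructor
    · rintro ⟨a, ha, -, h1⟩
      exact ⟨a, ha, h1⟩
    · rintro ⟨a, ha, h1⟩
      exact ⟨a, ha, hbits a ha, h1⟩
  rw [hSe] at hv
  obtain ⟨h11, s, h12, h13⟩ := hv
  have hbelow : below {y : P // y ∈ S} 7 = 7 := by
    unfold below
    rw [cod_count C hS (fun l => l < 7)]
    exact h7
  have hlv7 : (GaussPoset.lv {y : P // y ∈ S} 7).card = 2 := by
    unfold GaussPoset.lv
    rw [cod_count C hS (fun l => l = 7)]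
    exact h8
  have h0 : exq 0 f = X ^ 7 * (1 + X) ^ 2 := by
    rw [hf, Z_zero, hbelow, hlv7]
  refine ⟨fun m hm => ?_, by norm_num, X ^ 7, s, by rw [h0, mul_comm], ?_, ?_, ?_⟩
  · rw [hf]
    exact h11 m hm
  · rw [eval_pow, eval_X]
    norm_num
  · rw [hf, h12]
    simp
  · rw [h13, eval_pow, eval_X]
    norm_num

section

variable (D : WordD 14 7 wa7 lo hi) (C : Cp.Comp 14 t lo hi e) (hgt : GoodTo P r 14)
  (ht : lev t = 0)

include D C hgt ht in
/-- the enumeration for the pattern J-prime -/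
lemma JB.enum {A : Finset P} {c c' : P} (J : JB e A c c') :
    ∃ z, Enum e A Jbcv 4 z ∧ z 2 = c ∧ z 3 = c' := by
  obtain ⟨p, hpA, hp⟩ := J.hp
  obtain ⟨d, hdA, hd⟩ := J.h12
  have hdp : p ≠ d := (Mk.ne D C hgt ht hd hp (b := 27) (by norm_num) (by decide)
    (by decide)).symm
  have hpc : p ≠ c := Mk.ne D C hgt ht hp J.hc (b := 26) (by norm_num) (by decide) (by decide)
  have hpc' : p ≠ c' := Mk.ne D C hgt ht hp J.hc' (b := 26) (by norm_num) (by decide) (by decide)
  have hdc : d ≠ c := Mk.ne D C hgt ht hd J.hc (b := 26) (by norm_num) (by decide) (by decide)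
  have hdc' : d ≠ c' := Mk.ne D C hgt ht hd J.hc' (b := 26) (by norm_num) (by decide) (by decide)
  refine ⟨four p d c c', ⟨le_rfl, by norm_num,
    four_inj le_rfl hdp hpc hdc fun _ => ⟨hpc', hdc', J.ne⟩, ?_, ?_⟩, rfl, rfl⟩
  · intro k hk
    have hk' : k = 0 ∨ k = 1 ∨ k = 2 ∨ k = 3 := by omega
    rcases hk' with rfl | rfl | rfl | rfl
    · exact hp
    · exact hd
    · exact J.hc
    · exact J.hc'
  · intro x
    constructor
    · intro hx
      rcases J.all x hx with h | h | h | h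
      · exact ⟨0, by norm_num, J.uniq p hpA x hx _ (Or.inl rfl) hp h⟩
      · exact ⟨1, by norm_num, J.uniq d hdA x hx _ (Or.inr rfl) hd h⟩
      · exact ⟨2, by norm_num, h.symm⟩
      · exact ⟨3, by norm_num, h.symm⟩
    · rintro ⟨k, hk, rfl⟩
      have hk' : k = 0 ∨ k = 1 ∨ k = 2 ∨ k = 3 := by omega
      rcases hk' with rfl | rfl | rfl | rfl
      · exact hpA
      · exact hdA
      · exact J.cA
      · exact J.cA'

/-- the pattern is symmetric in the two elements below the first two cells -/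
lemma JB.swap {A : Finset P} {c c' : P} (J : JB e A c c') : JB e A c' c where
  cA := J.cA'
  cA' := J.cA
  ne := J.ne.symm
  hc := J.hc'
  hc' := J.hc
  hp := J.hp
  h12 := J.h12
  all := fun x hx => by
    rcases J.all x hx with h | h | h | h
    · exact Or.inl h
    · exact Or.inr (Or.inl h)
    · exact Or.inr (Or.inr (Or.inr h))
    · exact Or.inr (Or.inr (Or.inl h))
  uniq := J.uniq

include D C hgt ht in
/-- **(F1')** local data at the window 7 and the pole, pattern J-prime -/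
theorem JB.loc {A : Finset P} {c c' : P} (J : JB e A c c') :
    ∃ θ : P → ℕ, LocL 7 2 31 (lowPart 14 t ∪ A) θ (fun x => x = ce e 29) ∧ ThA e A θ ∧
      ∀ f : Polynomial (PowerSeries ℤ),
        (∀ n, exq n f = Z {y : P // y ∈ lowPart 14 t ∪ A} 7 n) → Pl 31 2 (-1) f := by
  obtain ⟨z, E, -, -⟩ := J.enum D C hgt ht
  have hcod := E.cod D C hgt ht (lvL := Jblv) (by decide +kernel) (by decide +kernel)
    (by decide +kernel) (by decide +kernel)
  have hS := La7_mem D C (z := z) E.mem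
  have hl : LocL 7 2 31 (lowPart 14 t ∪ A) (thI (30 + 4) (cz e z) (fun a => Jbth.getD a 0))
      (fun x => x = cz e z 29) :=
    cod_locL' hcod Jb_us (by norm_num) Jb_th (by norm_num) hS JbL_pol Jb_low
      (fun x hx => hx) Jb_bm (by norm_num)
  rw [cz_29] at hl
  refine ⟨_, hl, E.tha D C hgt ht hcod (by decide +kernel) (by decide +kernel)
    (by decide +kernel), fun f hf => ?_⟩
  have hval := cod_valN hcod Jb_us (by norm_num) JbR_neg JbR_nmem (by norm_num) JbR_nnum
  obtain ⟨v1, s, v2, v3⟩ := hval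
  refine full_plZ hcod (J := 17179869183) (by norm_num) hS ⟨v1, s, v2, ?_⟩ (by decide +kernel)
    (by decide +kernel) hf
  rw [v3]
  simp only [JbR_nsgn]
  norm_num

include D C hgt ht in
/-- **(F2)** the up-sets which contain `c` or `c'`, window 9, pattern J-prime -/
theorem JB.cls {A : Finset P} {c c' : P} (J : JB e A c c') (L : Finset P)
    (hL : ∀ x ∈ L, x ∈ lowPart 14 t ∪ A) (hup : ∀ x ∈ L, ∀ y, x ≤ y → y ∈ L)
    (hc : c ∈ L ∨ c' ∈ L) : ∀ n < 2, (1 + X : ℤ[X]) ^ 2 ∣ Z {x : P // x ∈ L} 9 n := by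
  have key : ∀ {c c' : P}, JB e A c c' → c ∈ L →
      ∀ n < 2, (1 + X : ℤ[X]) ^ 2 ∣ Z {x : P // x ∈ L} 9 n := by
    intro c c' J hc n hn
    obtain ⟨z, E, hz, -⟩ := J.enum D C hgt ht
    have hcod := E.cod D C hgt ht (lvL := Jblv) (by decide +kernel) (by decide +kernel)
      (by decide +kernel) (by decide +kernel)
    have hS := La7_mem D C (z := z) E.mem
    have h32 : cz e z 32 = c := by
      have := cz_add (e := e) z 2
      rw [hz] at this
      exact this
    refine cod_clean hcod Jb_us (by norm_num) JbM_pol Jb_low9 (fun x hx => hx)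
      (fun x hx => (hS x).mp (hL x hx)) hup (by norm_num) ?_ n (by omega)
    intro a ha hbit
    refine hup c hc _ ?_
    have h1 := cod_toS_above hcod (N := 34) (by norm_num) Jb_us.cv Jb_umh (a := 32) (by norm_num)
      (cz e z a)
    simp only [Jb_um32, h32] at h1
    rw [← h1, mem_toS]
    exact ⟨a, ha, hbit, rfl⟩
  rcases hc with hc | hc
  · exact key J hc
  · exact key J.swap hc

end

end Pool.Agent.GaussPoset.W7

end

/-! From `Pool.Agent.W_448w7_h94.WiP` -/

section

/-!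
The inputs of the ladder and of the energy 31 (MP_448cb3_co, S7, `j = 14`, window 7).
-/

namespace Pool.Agent.GaussPoset.W7

set_option linter.unusedSectionVars false

open Polynomial Finset Fi Cl Dd Wd

universe u

variable {P : Type u} [Fintype P] [PartialOrder P] [DecidableEq P] {r n0 : ℕ}
  {N : Tops P → Finset P} {b : Tops P → ℕ} {θ : Tops P → P → ℕ}

/-- the inputs at the energy 31 -/
theorem WL.l31 (W : WL r 31 N b θ) (J : JH P)
    (hE : ∀ v : P, lev v = 15 → (∀ y, v ⋖ y → y ≤ (topOf v : P)) → E15 v)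
    (hsp : ∀ c : P, Ank 31 N θ c →
      Sp 7 31 (r2 (2 * 7) N) (th2 N θ) (topOf c) c (Dn 31 N c)) : L31 N θ where
  sp := hsp
  c16 := fun c z hc hz hzc => W.c16 J hE hc hz hzc
  h3 := fun c z x y hc hz hzc hl hR hy hx ht hyx hne =>
    W.h3 J hc hz hzc hl hR hy hx ht hyx hne
  p0 := by
    rintro z hz ⟨t, lo, hi, e, A, L, hm⟩
    exact (W.p0_num L hm hz).2.1
  fb := fun z x x' hx hx' ht hzx hzx' => (W.fb_num hx hx' ht hzx hzx').2.2.1
  vA := by
    rintro t lo hi e A L ⟨c, hJ⟩ n hn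
    obtain ⟨θ', hl, -⟩ := hJ.loc L.word L.comp W.gt t.2
    have h1 := hl.clean (lowPart 14 (t : P) ∪ A) (Subset.refl _) (by
      intro x hx y hxy
      have h2 := L.up W x (by rw [L.nat]; exact hx) y hxy
      rw [L.nat] at h2
      exact h2) (fun x hx _ => hx) (fun x hx _ => hx) n (by omega)
    rw [Z_fin _ _ 7 n] at h1
    exact h1
  vB := by
    rintro t lo hi e A L ⟨c, c', hJ⟩ f hf
    obtain ⟨θ', -, -, hl⟩ := hJ.loc L.word L.comp W.gt t.2
    refine hl f fun n => ?_
    rw [hf n]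
    exact Z_fin _ _ 7 n

/-- the inputs of the ladder -/
theorem WL.lad (W : WL r 51 N b θ) (J : JH P)
    (hE : ∀ v : P, lev v = 15 → (∀ y, v ⋖ y → y ≤ (topOf v : P)) → E15 v)
    (hsp : ∀ c : P, Ank 51 N θ c →
      Sp 7 51 (r2 (2 * 7) N) (th2 N θ) (topOf c) c (Dn 51 N c)) : Lad N θ where
  sp := hsp
  c16 := fun c z hc hz hzc => W.c16 J hE hc hz hzc
  h3 := fun c z x y hc hz hzc hl hR hy hx ht hyx hne =>
    W.h3 J hc hz hzc hl hR hy hx ht hyx hne
  nine := W.nine J hsp
  p0 := by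
    classical
    rintro z hz hl ⟨t, lo, hi, e, A, L, hm⟩
    obtain ⟨h1, h2, h3, h4⟩ := W.p0_num L hm (mem_filter.mp hz).1
    rw [h4, h1]
    exact ⟨h2, h3, by norm_num⟩
  fb := by
    intro z hz x x' hl hx hx' ht hzx hzx'
    obtain ⟨-, h1, h2, h3, h4⟩ := W.fb_num (θ := θ) hx hx' ht hzx hzx'
    rw [h4, h1]
    exact ⟨h2, h3, by norm_num⟩

end Pool.Agent.GaussPoset.W7

end

/-! From `Pool.Agent.W_448w7_h22.SpE` -/

section

/-!
The anchors of the strips `La7` (MP_448cb3_co, S8, `j = 14`, window 7): bounded cleanness of the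
system with twins, the part of a component off the frozen set.
-/

namespace Pool.Agent.GaussPoset.W7

set_option linter.unusedSectionVars false

open Polynomial Finset Fi Cl Dd Wd

universe u

variable {P : Type u} [Fintype P] [PartialOrder P] [DecidableEq P]

section Bounds

variable {ι : Type*}

/-- bounded cleanness -/
theorem bounds_of_compTL [Fintype ι] [DecidableEq ι] {i : ℕ} {R : Finset P}
    (hR : ∀ x y, x ≤ y → y ∈ R → x ∈ R) (hRlev : ∀ x ∈ R, i < lev x)
    (cp : P → ι) (hcp : ∀ x y, x ≤ y → x ∉ R → cp x = cp y) (b : ι → ℕ) (θ : P → ℕ)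
    (B : P → Prop) (hBR : ∀ x ∈ R, ¬ B x) (Tw : Finset (P × P)) (n0 : ℕ)
    (H : ∀ k, F6.CompDataTL R cp k i (b k) n0 θ B Tw)
    (htw : ∀ t ∈ Tw, TwinPair i θ n0 t.1 t.2) (hmin : ∀ t ∈ Tw, ∀ y < t.2, y ∈ R)
    (htR : ∀ t ∈ Tw, t.1 ∉ R ∧ t.2 ∉ R)
    (β : P → ℕ) (hβ : ∀ x, x ∉ R → β x ≤ θ x) (n : ℕ) (hn : n < n0) :
    (1 + X : ℤ[X]) ^ (∑ k, b k) ∣ ZB i R 0 β n := by
  classical
  let θ' : P → ℕ := fun x => if x ∈ R then 0 else θ x
  have hθ' : ∀ x, x ∉ R → θ' x = θ x := fun x hx => if_neg hx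
  have hθ0 : ∀ x, 1 ≤ θ' x → x ∉ R := by
    intro x hx hxR
    have : θ' x = 0 := if_pos hxR
    omega
  have hlow : ∀ D ∈ {D | Good i R B D}, ∀ x y, x ≤ y → y ∈ D → x ∈ D := fun D hD => hD.1
  have hlev : ∀ D ∈ {D | Good i R B D}, ∀ x ∈ D, i < lev x := fun D hD => hD.2.2.1
  have hRR : R ∈ {D | Good i R B D} := ⟨hR, Subset.refl R, hRlev, hBR⟩
  refine dvd_ZB_bounds_twins i _ n0 {D | Good i R B D} θ' Tw hlow hlev ?_ ?_ ?_ ?_ ?_ ?_
    R hRR β (fun x hx => by rw [hθ' x hx]; exact hβ x hx) n hn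
  · intro x hx
    have hxR := hθ0 x hx
    rw [hθ' x hxR] at hx
    exact (H (cp x)).lev x hxR rfl hx
  · intro D hD hbr n hn
    rw [ZB_off hD.1 hD.2.2.1]
    have hc : ∀ x y : {x : P // x ∉ D}, x ≤ y → cp (x : P) = cp (y : P) := fun x y hxy =>
      hcp x y hxy fun h => x.2 (hD.2.1 h)
    choose f hf hf' using fun k => exists_norm {x : {x : P // x ∉ D} // cp (x : P) = k} i
    rw [Z_prod (fun x : {x : P // x ∉ D} => cp (x : P)) hc i f hf n]
    refine Lo.prod (n0 := n0) univ (fun k _ n' hn' => ?_) n hn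
    rw [hf']
    exact (H k).clean D hD hbr inferInstance n' hn'
  · intro D hD x hx hθx
    have hxR := hθ0 x hθx
    rw [hθ' x hxR] at hθx
    have hlx := (H (cp x)).lev x hxR rfl hθx
    refine ⟨?_, hD.2.1.trans subset_union_left, ?_, ?_⟩
    · intro a c hac hc
      rw [mem_union, mem_dnf] at hc ⊢
      rcases hc with hc | hc
      · exact Or.inl (hD.1 a c hac hc)
      · exact Or.inr (hac.trans hc)
    · intro a ha
      rw [mem_union, mem_dnf] at ha
      rcases ha with ha | ha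
      · exact hD.2.2.1 a ha
      · rcases eq_or_lt_of_le ha with h | h
        · rw [h]; exact hlx
        · have := lev_strictAnti h; omega
    · intro a ha
      rw [mem_union, mem_dnf] at ha
      rcases ha with ha | ha
      · exact hD.2.2.2 a ha
      · by_cases haR : a ∈ R
        · exact hBR a haR
        · exact (H (cp x)).base x hxR rfl hθx a ha haR
  · intro D hD x hx hθx y hyx hyD x' hyx' hx'x
    have hxR := hθ0 x hθx
    have hyR : y ∉ R := fun h => hyD (hD.2.1 h)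
    have hx'R : x' ∉ R := fun h => hyR (hR y x' hyx'.1.le h)
    rw [hθ' x hxR] at hθx ⊢
    rw [hθ' x' hx'R]
    exact (H (cp x)).step x hxR rfl hθx y hyx hyR x' hx'R hyx' hx'x
  · intro t ht
    have h1 := htR t ht
    have h2 := htw t ht
    refine ⟨h2.ne, h2.up, ?_, ?_, ?_, ?_, ?_⟩
    · rw [hθ' _ h1.1]; exact h2.one_le
    · rw [hθ' _ h1.1, hθ' _ h1.2]; exact h2.eq
    · rw [hθ' _ h1.1]; exact h2.le
    · rw [hθ' _ h1.1]; exact h2.costF
    · rw [hθ' _ h1.1]; exact h2.costT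
  · intro t ht D hD y hy
    exact hD.2.1 (hmin t ht y hy)

variable {i n0 : ℕ} {N : Tops P → Finset P} {b : Tops P → ℕ} {θ : Tops P → P → ℕ}
  {B : Tops P → P → Prop} {Y : Finset P} {τ : P → P}

/-- bounded cleanness from the data of all tops and twins of natural elements -/
theorem bounds_of_topsL (HN : NatSys N) (hRlev : ∀ x ∈ unnat N, i < lev x)
    (H : ∀ t, CompDataL (unnat N) topOf t i (b t) n0 (fun x => θ (topOf x) x)
      (fun x => x ∉ unnat N ∧ B (topOf x) x))
    (T : TwSys (unnat N) Y topOf τ)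
    (htw : ∀ x ∈ Y, TwinPair i (thX Y τ (fun x => θ (topOf x) x)) n0 (τ x) x)
    (β : P → ℕ) (hβ : ∀ x, x ∉ unnat N \ Y → β x ≤ thX Y τ (fun x => θ (topOf x) x) x) (n : ℕ)
    (hn : n < n0) : (1 + X : ℤ[X]) ^ (∑ t, b t) ∣ ZB i (unnat N \ Y) 0 β n := by
  refine bounds_of_compTL (T.lower HN.lower) (fun x hx => hRlev x (mem_sdiff.mp hx).1) topOf
    (T.cp' HN.cp) b _ (fun x => x ∉ unnat N ∧ B (topOf x) x)
    (fun x hx h => h.1 (mem_sdiff.mp hx).1) (pairsX Y τ) n0 ?_ ?_ ?_ ?_ β hβ n hn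
  · intro t
    exact F6.toTwinsL (H t) T HN.lower hRlev (fun x hx h => h.1 hx)
  · intro t ht
    rw [mem_pairsX] at ht
    have h1 := htw t.2 ht.1
    rw [← ht.2] at h1
    exact h1
  · intro t ht y hy
    rw [mem_pairsX] at ht
    rw [mem_sdiff]
    exact ⟨HN.lower y _ hy.le (T.sub ht.1), fun h => T.anti _ ht.1 y h hy⟩
  · intro t ht
    rw [mem_pairsX] at ht
    rw [mem_sdiff, mem_sdiff, ht.2]
    exact ⟨fun h => T.nat _ ht.1 h.1, fun h => h.2 ht.1⟩

end Bounds

variable {r n0 : ℕ} {N : Tops P → Finset P} {b : Tops P → ℕ} {θ : Tops P → P → ℕ}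

/-- bounded cleanness -/
theorem WL.bds (W : WL r n0 N b θ) (β : P → ℕ) (hβ : ∀ x, x ∉ r2 (2 * 7) N → β x ≤ th2 N θ x)
    (n : ℕ) (hn : n < n0) : (1 + X : ℤ[X]) ^ (lv P 7).card ∣ ZB 7 (r2 (2 * 7) N) 0 β n := by
  obtain ⟨B, hB⟩ := W.compL
  have h := bounds_of_topsL W.natSys (fun x hx => by
    have := W.lt_lev hx
    omega) hB W.twSys (fun x hx => W.twinPair hx) β hβ n hn
  rw [W.sum_b] at h
  exact h

lemma WL.r2_low (W : WL r n0 N b θ) : ∀ x y : P, x ≤ y → y ∈ r2 (2 * 7) N → x ∈ r2 (2 * 7) N :=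
  W.twSys.lower W.natSys.lower

lemma WL.r2_cp (W : WL r n0 N b θ) : ∀ x y : P, x ≤ y → x ∉ r2 (2 * 7) N → topOf x = topOf y :=
  W.twSys.cp' W.natSys.cp

/-- the part of a strip `La7` off the frozen set -/
lemma LaD.off (W : WL r n0 N b θ) {t : Tops P} {lo hi : ℕ → ℕ} {e : ℕ → ℕ → P} {A : Finset P}
    (L : LaD n0 N (θ t) t lo hi e A) {x : P} :
    x ∉ r2 (2 * 7) N ∧ topOf x = t ↔ x ∈ N t := by
  constructor
  · rintro ⟨h1, h2⟩
    by_cases hu : x ∈ unnat N
    · exfalso
      have hY : x ∈ twY (2 * 7) N := by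
        by_contra hY
        exact h1 (mem_sdiff.mpr ⟨hu, hY⟩)
      have h3 := mem_twY.mp hY
      have h4 := twT_spec h3.2.2
      have h5 : topOf (twT N x) = t := (W.twSys.cp x hY).trans h2
      have h6 : lev (twT N x) = 15 := by
        rw [W.twSys.lev hY]
        exact h3.2.1
      have h7 : Lx n0 N θ (twT N x) := by
        refine ⟨W.natSys.mem_iff.mpr ⟨h4.1, rfl⟩, ?_⟩
        rw [h5]
        exact ⟨lo, hi, e, A, L⟩
      exact Lx.tw W h7 h6 hu h4.2
    · exact W.natSys.mem_iff.mpr ⟨hu, h2⟩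
  · intro hx
    have h1 := W.natSys.mem_iff.mp hx
    exact ⟨fun h => h1.1 (mem_sdiff.mp h).1, h1.2⟩

lemma LaD.row {t : Tops P} {lo hi : ℕ → ℕ} {e : ℕ → ℕ → P} {A : Finset P}
    (W : WL r n0 N b θ) (L : LaD n0 N (θ t) t lo hi e A) {l : ℕ} (hl : l ≤ 2 * 7) :
    (univ.filter (fun x : P => lev x = l ∧ topOf x = t)).card = hi l + 1 - lo l := by
  classical
  rw [← L.comp.card_row hl]
  congr 1
  ext x
  rw [mem_filter, mem_filter, mem_lv]
  constructor
  · rintro ⟨-, h1, h2⟩
    exact ⟨h1, h2 ▸ le_topOf x⟩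
  · rintro ⟨h1, h2⟩
    refine ⟨mem_univ x, h1, W.natSys.topOf_eq ?_⟩
    rw [L.nat]
    exact mem_union_left _ (mem_lowPart.mpr ⟨h2, by omega⟩)

/-- the two elements of level 7 -/
lemma LaD.two {t : Tops P} {lo hi : ℕ → ℕ} {e : ℕ → ℕ → P} {A : Finset P}
    (W : WL r n0 N b θ) (L : LaD n0 N (θ t) t lo hi e A) :
    (univ.filter (fun x : P => lev x = 7 ∧ topOf x = t)).card = 2 := by
  rw [LaD.row W L (by omega), L.word.row.1, L.word.row.2]

/-- the elements of level below 7 -/
lemma LaD.bel {t : Tops P} {lo hi : ℕ → ℕ} {e : ℕ → ℕ → P} {A : Finset P}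
    (W : WL r n0 N b θ) (L : LaD n0 N (θ t) t lo hi e A) :
    (univ.filter (fun x : P => lev x < 7 ∧ topOf x = t)).card = 7 := by
  classical
  rw [Finset.card_eq_sum_card_fiberwise (f := fun x : P => lev x) (t := range 7)
    (fun x hx => by
      have := (mem_filter.mp (mem_coe.mp hx)).2.1
      exact mem_coe.mpr (mem_range.mpr this))]
  have h : ∀ l ∈ range 7, ((univ.filter (fun x : P => lev x < 7 ∧ topOf x = t)).filter
      (fun x => lev x = l)).card = 1 := by
    intro l hl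
    rw [mem_range] at hl
    have h1 := LaD.row W L (l := l) (by omega)
    have h2 := L.word.trunk l hl
    rw [h2.1, h2.2] at h1
    refine Eq.trans ?_ h1
    congr 1
    ext x
    rw [mem_filter, mem_filter, mem_filter]
    constructor
    · rintro ⟨⟨-, -, h3⟩, h4⟩
      exact ⟨mem_univ x, h4, h3⟩
    · rintro ⟨-, h4, h3⟩
      exact ⟨⟨mem_univ x, by omega, h3⟩, h4⟩
  rw [Finset.sum_congr rfl h]
  simp

lemma anc_chk : ∀ a < 30, La7lv.getD a 0 ≤ 8 → (La7um.getD 28 0).testBit a = true ∨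
    (La7um.getD 29 0).testBit a = true := by decide +kernel

/-- the low elements of the strip are above the anchor -/
lemma LaD.out (W : WL r n0 N b θ) {t : Tops P} {lo hi : ℕ → ℕ} {e : ℕ → ℕ → P} {A : Finset P}
    (L : LaD n0 N (θ t) t lo hi e A) {c : P} (hc : Sg.Mk e c 805306368) {x : P}
    (hx : x ≤ (t : P)) (hl : lev x ≤ 8) : c ≤ x := by
  obtain ⟨a, ha, rfl⟩ := Sg.La7_surj L.word L.comp hx (by omega)
  have hcod := Sg.La7_cod L.word L.comp W.gt.H W.gt.good t.2
  have h1 := Sg.La7_le L.word L.comp ha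
  have key : ∀ k < 30, Nat.testBit 805306368 k = true → (La7um.getD k 0).testBit a = true →
      c ≤ Sg.ce e a := by
    intro k hk hbit hb
    have h2 : c ⋖ Sg.ce e k := (hc.2 _).mpr ⟨k, hk, hbit, rfl⟩
    exact h2.1.le.trans ((hcod.le_iff le_rfl La7_us.cv Sg.La7_um hk ha).mpr hb)
  rcases anc_chk a ha (by rw [← h1.2]; exact hl) with h2 | h2
  · exact key 28 (by norm_num) (by decide +kernel) h2
  · exact key 29 (by norm_num) (by decide +kernel) h2

/-- the window 9 data of an anchor (F2) -/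
structure F2D (t : P) (A : Finset P) (c : P) (D : Finset P) : Prop where
  cls : ∀ L : Finset P, (∀ x ∈ L, x ∈ lowPart 14 t ∪ A) → (∀ x ∈ L, ∀ y, x ≤ y → y ∈ L) →
    c ∈ L → ∀ n < 2, (1 + X : ℤ[X]) ^ 2 ∣ Z {x // x ∈ L} 9 n
  cls2 : ∀ L : Finset P, (∀ x ∈ L, x ∈ lowPart 14 t ∪ A) → (∀ x ∈ L, ∀ y, x ≤ y → y ∈ L) →
    c ∈ L → (∃ d ∈ D, d ∈ L) → ∀ n < 12, (1 + X : ℤ[X]) ^ 2 ∣ Z {x // x ∈ L} 9 n
  ld : ∀ L : Finset P, (∀ x, x ∈ L ↔ c ≤ x) →
    (1 + X : ℤ[X]) ^ 2 ∣ Z {x // x ∈ L} 9 2 + X ^ 13 * (1 + X)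

/-- the anchors, up to the window 9 -/
theorem WL.sp_of (W : WL r n0 N b θ) {c : P} {lo hi : ℕ → ℕ} {e : ℕ → ℕ → P} {A : Finset P}
    (L : LaD n0 N (θ (topOf c)) (topOf c) lo hi e A) (hcA : c ∈ A)
    (hmk : Sg.Mk e c 805306368) (F : F2D (topOf c : P) A c (Dn n0 N c)) :
    Sp 7 n0 (r2 (2 * 7) N) (th2 N θ) (topOf c) c (Dn n0 N c) := by
  have hcN : c ∈ N (topOf c) := by
    rw [L.nat]
    exact mem_union_right _ hcA
  have hcR := (LaD.off W L).mpr hcN
  have hLN : ∀ U : Finset P, (∀ x ∈ U, x ∉ r2 (2 * 7) N ∧ topOf x = topOf c) →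
      ∀ x ∈ U, x ∈ lowPart 14 (topOf c : P) ∪ A := by
    intro U hU x hx
    have h1 := (LaD.off W L).mp (hU x hx)
    rw [L.nat] at h1
    exact h1
  exact
    { gr := W.gt.H.gradedBelow
      low := W.r2_low
      lR := fun x hx => W.lt_lev (mem_sdiff.mp hx).1
      hcp := W.r2_cp
      bd := W.bds
      two := LaD.two W L
      bel := LaD.bel W L
      clT := by
        intro U hU n hn
        have hUN : U = lowPart (2 * 7) (topOf c : P) ∪ A := by
          rw [← L.nat]
          ext x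
          rw [hU, LaD.off W L]
        rw [hUN]
        refine L.dat.loc.clean _ Subset.rfl ?_ (fun x hx _ => hx) (fun x hx _ => hx) n hn
        have := L.up W
        rwa [L.nat] at this
      cR := hcR.1
      cpc := rfl
      clev := hmk.1
      cct := (Tv.c34_facts L.word L.comp W.gt (topOf c).2 hmk).1
      thc := by
        have h1 : c ∉ twY (2 * 7) N := fun h => (W.natSys.mem_iff.mp hcN).1 (mem_twY.mp h).1
        unfold th2
        rw [thX_not h1]
        exact L.dat.th.c34 c hcA hmk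
      out := by
        intro x hxR hxt hcx
        by_contra hcon
        exact hcx (LaD.out W L hmk (hxt ▸ le_topOf x) (by omega))
      cls := fun U h1 h2 h3 => F.cls U (hLN U h1) h2 h3
      cls2 := fun U h1 h2 h3 => F.cls2 U (hLN U h1) h2 h3
      ld := F.ld }

/-- the patterns of an anchor -/
theorem WL.anc_pat (W : WL r n0 N b θ) {c : P} {lo hi : ℕ → ℕ} {e : ℕ → ℕ → P} {A : Finset P}
    (L : LaD n0 N (θ (topOf c)) (topOf c) lo hi e A) (hcA : c ∈ A)
    (hmk : Sg.Mk e c 805306368) :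
    JA e A c ∨ (n0 ≤ 31 ∧ ∃ c', JB e A c c' ∨ JB e A c' c) := by
  rcases L.dat.pat with ⟨c', J⟩ | ⟨hn, c1, c2, J⟩
  · left
    have : c' = c := J.uniq c' J.cA c hcA _ J.hc hmk
    exact this ▸ J
  · right
    refine ⟨hn, ?_⟩
    have hcod := Sg.La7_cod L.word L.comp W.gt.H W.gt.good (topOf c).2
    have hne : ∀ m, Sg.Mk e c m → Nat.testBit m 28 = false → False := by
      intro m hm hb
      have h1 : c ⋖ Sg.ce e 28 := (hmk.2 _).mpr ⟨28, by norm_num, by decide +kernel, rfl⟩
      obtain ⟨k, hk, hbit, he⟩ := (hm.2 _).mp h1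
      have h2 : k = 28 := hcod.inj k hk 28 (by norm_num) he
      rw [h2, hb] at hbit
      exact absurd hbit (by simp)
    rcases J.all c hcA with h | h | h | h
    · exact absurd h (fun h => hne _ h (by decide +kernel))
    · exact absurd h (fun h => hne _ h (by decide +kernel))
    · exact ⟨c2, Or.inl (h ▸ J)⟩
    · exact ⟨c1, Or.inr (h ▸ J)⟩

end Pool.Agent.GaussPoset.W7

end

/-! From `Pool.Agent.W_448w7_h36.LaD` -/

section

/-!
The elements above an element of level 15 below the first two cells of the strip `La7`: the pole at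
the window 9 (MP_448cb3_co, S7, `j = 14`).
-/

namespace Pool.Agent.GaussPoset.W7

set_option linter.unusedSectionVars false
set_option synthInstance.maxSize 1000

open Polynomial Finset Cl Dd Wd Win Sg

universe u

variable {P : Type u} [Fintype P] [PartialOrder P] [DecidableEq P]
variable {r : ℕ} {t : P} {lo hi : ℕ → ℕ} {e : ℕ → ℕ → P}

theorem Pa9_neg1 : negF1 32 (2 ^ 100) 8 Paus 9 (1906016255, 16, 8, 107, 1) = true := by
  decide +kernel

theorem Pa9_neg2 : negF2 32 (2 ^ 100) 8 Paus (1906016255, 16, 8, 107, 1) = true := by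
  decide +kernel

theorem Pa9_neg : negC 32 (2 ^ 100) 8 Paus 9 (1906016255, 16, 8, 107, 1) = true :=
  negC_of_fast Pa9_neg1 Pa9_neg2

theorem Pa9_num : numC 32 8 9 2 (fun a => Palv.getD a 0) (1906016255, 16, 8, 107, 1) = true := by
  decide +kernel

theorem Pa9_mem : (1906016255 : ℕ) ∈ Paus := by decide +kernel

theorem Pa9_sgn : sgn 16 8 9 = -1 := by
  decide +kernel

lemma Pa_umh : ∀ a < 32, Paum.getD a 0 =
    Nat.lor (2 ^ a) (orM (fun a => Paum.getD a 0) 32 (Pacv.getD a 0)) := by decide +kernel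

lemma Pa_um30 : Paum.getD 30 0 = 1906016255 := by decide +kernel

/-- **(F2)** the pole of the elements above an anchor, window 9 -/
theorem ld_of_mk (D : WordD 14 7 wa7 lo hi) (C : Cp.Comp 14 t lo hi e) (hgt : GoodTo P r 14)
    (ht : lev t = 0) {c : P} (h : Mk e c 805306368) (L : Finset P) (hL : ∀ x, x ∈ L ↔ c ≤ x) :
    (1 + X : ℤ[X]) ^ 2 ∣ Z {x : P // x ∈ L} 9 2 + X ^ 13 * (1 + X) := by
  have g3 : ∀ k < 1, Pacv.getD (30 + k) 0 = 805306368 := by decide +kernel
  have g4 : ∀ k < 1, Palv.getD (30 + k) 0 = 15 := by decide +kernel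
  have hcod := La7_ext D C hgt ht (K := 1) (z := fun _ => c) (cx := fun _ => 805306368)
    (cvL := Pacv) (lvL := Palv) (by decide +kernel) (by decide +kernel) g3 g4
    (fun _ _ => by norm_num) (fun a ha b hb _ => by omega) (fun _ _ => h)
  have h30 : cz e (fun _ => c) 30 = c := rfl
  have hab : ∀ x, x ∈ toS (30 + 1) (cz e (fun _ => c)) 1906016255 ↔ c ≤ x := by
    intro x
    rw [mem_toS]
    constructor
    · rintro ⟨b, hb, hbit, rfl⟩
      rw [← Pa_um30] at hbit
      have := (hcod.le_iff (N := 32) (by norm_num) Pa_us.cv Pa_umh (a := 30) (by norm_num)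
        hb).mpr hbit
      rwa [h30] at this
    · intro hx
      obtain ⟨b, hb, rfl⟩ := cod_above hcod (a := 30) (by norm_num) (y := x) (by rwa [h30])
      refine ⟨b, hb, ?_, rfl⟩
      rw [← Pa_um30]
      exact (hcod.le_iff (N := 32) (by norm_num) Pa_us.cv Pa_umh (a := 30) (by norm_num)
        hb).mp (by rwa [h30])
  obtain ⟨-, s, v2, v3⟩ := cod_valN hcod Pa_us (by norm_num) Pa9_neg Pa9_mem (by norm_num)
    Pa9_num
  have hLe : L = toS (30 + 1) (cz e (fun _ => c)) 1906016255 := by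
    ext x
    rw [hL, hab]
  have h1 : ((s + X ^ 13 : ℤ[X])).IsRoot (-1) := by
    show (s + X ^ 13).eval (-1) = 0
    rw [eval_add, v3, eval_pow, eval_X]
    simp only [Pa9_sgn]
    norm_num
  have h2 := Polynomial.dvd_iff_isRoot.mpr h1
  rw [map_neg, map_one, sub_neg_eq_add, add_comm X] at h2
  have h3 : (1 + X : ℤ[X]) * s + X ^ 13 * (1 + X) = (1 + X) * (s + X ^ 13) := by ring
  rw [hLe, v2, h3, pow_two]
  exact mul_dvd_mul_left _ h2

end Pool.Agent.GaussPoset.W7

end

/-! From `Pool.Agent.W_448w7_h94.WiS` -/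

section

/-!
The anchors of the strips `La7` (MP_448cb3_co, S7, `j = 14`, window 7): the structure `Sp`.
-/

namespace Pool.Agent.GaussPoset.W7

set_option linter.unusedSectionVars false

open Polynomial Finset Fi Cl Dd Wd

universe u

variable {P : Type u} [Fintype P] [PartialOrder P] [DecidableEq P] {r n0 : ℕ}
  {N : Tops P → Finset P} {b : Tops P → ℕ} {θ : Tops P → P → ℕ}

/-- the window 9 -/
theorem WL.f2D (W : WL r n0 N b θ) {c : P} {lo hi : ℕ → ℕ} {e : ℕ → ℕ → P} {A : Finset P}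
    (L : LaD n0 N (θ (topOf c)) (topOf c) lo hi e A) (hcA : c ∈ A)
    (hmk : Sg.Mk e c 805306368) : F2D (topOf c : P) A c (Dn n0 N c) := by
  classical
  have hld : ∀ U : Finset P, (∀ x, x ∈ U ↔ c ≤ x) →
      (1 + X : ℤ[X]) ^ 2 ∣ Z {x // x ∈ U} 9 2 + X ^ 13 * (1 + X) := by
    intro U hU
    have h := ld_of_mk L.word L.comp W.gt (topOf c).2 hmk U hU
    rw [Z_fin _ _ 9 2] at h
    exact h
  rcases W.anc_pat L hcA hmk with J | ⟨hn, c', J⟩
  · obtain ⟨h1, -⟩ := J.cls L.word L.comp W.gt (topOf c).2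
    refine ⟨fun U hU hup hc n hn => ?_, fun U hU hup hc hd n hn => ?_, hld⟩
    · have h := (h1 U hU hup hc).1 n hn
      rw [Z_fin _ _ 9 n] at h
      exact h
    · obtain ⟨d, hd, hdU⟩ := hd
      have hdA : ∃ d ∈ A, d ≠ c ∧ d ∈ U := by
        unfold Dn at hd
        split_ifs at hd with hn
        · obtain ⟨h3, h4, h5⟩ := mem_filter.mp hd
          exact ⟨d, (L.mem15 h3 h4.ge).1, h5, hdU⟩
        · exact absurd hd (notMem_empty d)
      have h := (h1 U hU hup hc).2 hdA n hn
      rw [Z_fin _ _ 9 n] at h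
      exact h
  · refine ⟨fun U hU hup hc n hn => ?_, fun U hU hup hc hd n hn => ?_, hld⟩
    · have h : (1 + X : ℤ[X]) ^ 2 ∣ Z {x // x ∈ U} 9 n := by
        rcases J with J | J
        · exact J.cls L.word L.comp W.gt (topOf c).2 U hU hup (Or.inl hc) n hn
        · exact J.cls L.word L.comp W.gt (topOf c).2 U hU hup (Or.inr hc) n hn
      exact h
    · obtain ⟨d, hd, hdU⟩ := hd
      unfold Dn at hd
      rw [if_neg (by omega)] at hd
      exact absurd hd (notMem_empty d)

/-- **the structure of an anchor** -/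
theorem WL.spA (W : WL r n0 N b θ) {c : P} (hc : Ank n0 N θ c) :
    Sp 7 n0 (r2 (2 * 7) N) (th2 N θ) (topOf c) c (Dn n0 N c) := by
  obtain ⟨lo, hi, e, A, L, hA, hm⟩ := hc
  exact W.sp_of L hA hm (W.f2D L hA hm)

end Pool.Agent.GaussPoset.W7

end
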