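import Mathlib
import Pool.Agent.W_448zz_h61.Ns
import Pool.Agent.W_448zz_h61.M135
import Pool.Agent.W_448zz_h61.M137

/-! From `Pool.Agent.W_448pg_h74.WvB` -/

section

/-!
# Outcomes at every window (MP_448cb3_co, S7)

The machine of the windows `2`, `3` (W_448f4_h70/FD, GJ, GK, GN, GO, GP) also at the window `1`.
-/

namespace Pool.Agent.GaussPoset.Sm

set_option linter.unusedSectionVars false

open Polynomial Finset

universe u

variable {P : Type u} [Fintype P] [PartialOrder P] [DecidableEq P] {r j w K0 K : ℕ}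
  {N : Tops P → Finset P} {b : Tops P → ℕ} {θ : Tops P → P → ℕ} {XE XO : ℕ → Prop}

/-- the labels are the canonical ones without deep covers -/
lemma Wk.hS_eq' (W : Wk r j w K0 N b θ) {z : P}
    (hnd : ∀ x, x ∉ rA N → z ⋖ x → Dk j w K0 N θ (GaussPoset.bs N x) →
      Row1 j w N θ (GaussPoset.bs N x)) :
    hS j w N b θ z = hA N θ z := by
  have hp : ¬ PenS j w N b θ z := by
    rintro ⟨-, x, h1, h2, -, h4⟩
    have h5 := (hnd x h1 h2 (W.spc_deep (W.bs h1).nat h4)).th
    obtain ⟨Nc, co, C⟩ := h4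
    have hj := W.hj
    have := C.th
    have := C.lev (by omega)
    omega
  rw [hS_not hp]
  refine hC_not ?_
  rintro ⟨h1, h2, f, s, h3, h4, h5, h6, h7⟩
  have e1 := (W.gt.H.covBy_iff.mp h3).2
  have hj := W.hj
  have hf : f ∉ unnat N := W.low (by omega)
  have hbs : GaussPoset.bs N f = f := by
    unfold GaussPoset.bs
    rw [if_neg (W.not_tw hf)]
  obtain ⟨Nc, co, C⟩ := W.fold_cell' h1 h2 h3 h4 h5 h7
  have hth := C.th
  suffices h : Dk j w K0 N θ f by
    have h8 := (hbs ▸ hnd f (not_mem_rA.mpr (Or.inl hf)) h3 (hbs.symm ▸ h)).th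
    omega
  rcases W.cases hf (by omega) with h | h | h
  · have := h.th
    omega
  · have := h.th
    omega
  · exact h

/-- a cheapest boundary element without deep covers is flat -/
theorem Wk.flatS' (W : Wk r j w K0 N b θ) {v : ℕ} (M : MnS j w N b θ v) {z : P}
    (hz : z ∈ bdR (rA N)) (hc : cst w (hS j w N b θ) z = v)
    (hnd : ∀ x, x ∉ rA N → z ⋖ x → Dk j w K0 N θ (GaussPoset.bs N x) →
      Row1 j w N θ (GaussPoset.bs N x)) :
    Flat j w N θ z ∧ lev z ≤ hA N θ z + 1 + w := by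
  have H := W.gt.H.gradedBelow
  have hj := W.hj
  have hw := W.hw
  have hlz := W.bd_lev hz
  have hSA := W.hS_eq' hnd
  have hc' : cst w (hA N θ) z = v := by
    rw [← hc, cst_const w (hA N θ) z, cst_const w (hS j w N b θ) z, hSA]
  have hkd : ∀ x, x ∉ rA N → z ⋖ x → Str w N θ (GaussPoset.bs N x) ∨
      Row1 j w N θ (GaussPoset.bs N x) := by
    intro x hx hzx
    have g6 := W.bs hx
    have e1 := H.lev_covBy hzx
    have e3 := g6.lev
    rcases W.cases g6.nat (by omega) with h | h | h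
    · exact Or.inl h
    · exact Or.inr h
    · exact Or.inr (hnd x hx hzx h)
  have hge : lev z ≤ hA N θ z + 1 + w := by
    obtain ⟨x0, g1, g2, g3⟩ := W.hA_spec hz
    have g7 := W.bs g1
    have e2 := H.lev_covBy g2
    have e4 := g7.lev
    rcases hkd x0 g1 g2 with h | h
    · have := h.th
      omega
    · have := h.th
      omega
  refine ⟨?_, hge⟩
  intro x hzx
  have hxR : x ∉ rA N := by
    refine no_cover_of_min H (fun x hx => ?_) M.bd (fun z hz => hS_pos W hz) hz hc
      (by omega) hzx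
    have := W.lt_lev (mem_rA.mp hx).1
    omega
  have hxt : x ∉ twA N := by
    intro hxt
    have e1 := H.lev_covBy hzx
    obtain ⟨g1, g2⟩ := W.tw_cases hxt
    have hbs : GaussPoset.bs N x = twT N x := by
      unfold GaussPoset.bs
      rw [if_pos hxt]
    have g6 := W.bs hxR
    rw [hbs] at g6
    have hR : Row1 j w N θ (twT N x) := by
      rcases g2 with h | h
      · exact h
      · exact hbs ▸ hnd x hxR hzx (hbs.symm ▸ h)
    have hns : ¬ Spc j w N b θ (twT N x) := by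
      rintro ⟨Nc, co, C⟩
      have := C.th
      have := C.lev (by omega)
      have := hR.th
      omega
    obtain ⟨a, ha⟩ : ∃ a, lev x = w + a := ⟨lev x - w, by have := g6.lev; omega⟩
    have g7 := W.tcst_row1 hxt hR ha
    have g8 := M.tw x hxt
    unfold tcS at g8
    rw [if_neg hns] at g8
    have g9 := cst_step (i := w) (h := hA N θ) H hzx (by omega)
    have g10 : ful w x = a ^ 2 := ful_two ha (fun k hk1 hk2 => by
      have := hR.nab k hk1.le (by rw [g6.lev]; exact hk2)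
      rcases g6.nab k with h | h
      · rw [← h]; exact this
      · omega)
    rw [g10, hc'] at g9
    have : a ≤ min (hA N θ z) (lev z - w) := by
      rw [Nat.le_min]
      omega
    omega
  rcases not_mem_rA.mp hxR with h | h
  · have hbs : GaussPoset.bs N x = x := by
      unfold GaussPoset.bs
      rw [if_neg hxt]
    have := hkd x hxR hzx
    rw [hbs] at this
    exact ⟨h, this⟩
  · exact absurd h hxt

/-- the outcomes for a cheapest boundary element -/
theorem Wk.outS' (W : Wk r j w K0 N b θ) (L : LkS P j w K0 K N b θ XE XO) {v : ℕ}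
    (hP : OnePen P j (fun t => 2 ≤ b t) ∨ v ≤ (j + 1 - w) ^ 2 + 5 * (j - w))
    (M : MnS j w N b θ v) {z : P} (hz : z ∈ bdR (rA N)) (hc : cst w (hS j w N b θ) z = v) :
    OutK j w K XE XO (hS j w N b θ) z v := by
  classical
  have H := W.gt.H
  have hj := W.hj
  have hw := W.hw
  have hlz := W.bd_lev hz
  by_cases hd : ∃ x, x ∉ rA N ∧ z ⋖ x ∧ Dk j w K0 N θ (GaussPoset.bs N x) ∧
      ¬ Row1 j w N θ (GaussPoset.bs N x)
  · obtain ⟨x, hx, hzx, hD, hnR⟩ := hd
    have e1 := (H.covBy_iff.mp hzx).2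
    by_cases hl : j + 1 ≤ lev x
    · exact L.dp v z x M hz hc hx hzx hl hD hnR
    · have hxu : x ∉ unnat N := W.low (by omega)
      have hbs : GaussPoset.bs N x = x := by
        unfold GaussPoset.bs
        rw [if_neg (W.not_tw hxu)]
      rw [hbs] at hD
      exact L.dj v z x M hz hc (by omega) hzx hD
  · push Not at hd
    have hSA := W.hS_eq' hd
    obtain ⟨hF, hge⟩ := W.flatS' M hz hc hd
    have hc' : cst w (hA N θ) z = v := by
      rw [← hc, cst_const w (hA N θ) z, cst_const w (hS j w N b θ) z, hSA]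
    refine outK_congr hSA.symm ?_
    by_cases hR : ∃ x, z ⋖ x ∧ Row1 j w N θ x
    · obtain ⟨x, hzx, hR⟩ := hR
      exact W.row1_outS L.hK hz hc' hF hge hzx hR
    · push Not at hR
      have hStr : ∀ x, z ⋖ x → x ∉ unnat N ∧ Str w N θ x := fun x hx =>
        ⟨(hF x hx).1, (hF x hx).2.resolve_right (hR x hx)⟩
      have hh : hA N θ z = lev z - w := by
        obtain ⟨x0, f1, f2, f3⟩ := W.hA_spec hz
        obtain ⟨g1, g2⟩ := hStr x0 f2
        have hbs : GaussPoset.bs N x0 = x0 := by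
          unfold GaussPoset.bs
          rw [if_neg (W.not_tw g1)]
        rw [hbs, g2.th] at f3
        have := (H.covBy_iff.mp f2).2
        omega
      by_cases hT : ∃ x x', z ⋖ x ∧ z ⋖ x' ∧ topOf x ≠ topOf x'
      · obtain ⟨x, x', h1, h2, h3⟩ := hT
        exact W.cross_outS L.unq L.nsk hz hh hc' (hStr x h1).1 (hStr x' h2).1 (hStr x h1).2
          (hStr x' h2).2 h1 h2 h3
      · push Not at hT
        obtain ⟨x, hzx, -⟩ := Hul.exists_cov (w := z) (v := (topOf z : P))
          (lt_of_le_of_ne (le_topOf z) (by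
            intro h
            have := (topOf z).2
            rw [← h] at this
            omega))
        exact W.own_outS hP hz hh hc' hStr (t := topOf x) fun x' hx' => hT x' x hx' hzx

end Pool.Agent.GaussPoset.Sm

end

/-! From `Pool.Agent.W_448pg_h74.WvC` -/

section

/-!
# The balance at every window (MP_448cb3_co, S7)

The machine of the windows `2`, `3` (W_448f4_h70/FD, GJ, GK, GN, GO, GP) also at the window `1`.
-/

namespace Pool.Agent.GaussPoset.Sm

set_option linter.unusedSectionVars false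

open Polynomial Finset

universe u

variable {P : Type u} [Fintype P] [PartialOrder P] [DecidableEq P] {r j w K0 K : ℕ}
  {N : Tops P → Finset P} {b : Tops P → ℕ} {θ : Tops P → P → ℕ} {XE XO : ℕ → Prop}

/-- **The cheapest class at window `w` has both signs.** -/
theorem Wk.bothS' (W : Wk r j w K0 N b θ) (h7 : 7 ≤ j) (h12 : j % 2 = 0 → 12 ≤ j)
   
    (L : LkS P j w K0 K N b θ XE XO) {v : ℕ}
    (hP : OnePen P j (fun t => 2 ≤ b t) ∨ v ≤ (j + 1 - w) ^ 2 + 5 * (j - w))
    (M : MnS j w N b θ v) (hex : (∃ z ∈ bdR (rA N), cst w (hS j w N b θ) z = v) ∨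
      ∃ x ∈ twA N, tcS j w N b θ x = v) (hcap : v ≤ K) :
    ((∃ z x x' : P, Cg z x x' ∧ Sok j x ∧ Sok j x' ∧ ful w z = v ∧
      Odd (nst w (fun z => lev z - w) z)) ∨ OdN j w v ∨ XO v) ∧
    ((∃ z x x' : P, Cg z x x' ∧ Sok j x ∧ Sok j x' ∧ ful w z = v ∧
      Even (nst w (fun z => lev z - w) z)) ∨ EvN j w v ∨ XE v) := by
  classical
  have H := W.gt.H
  have hj := W.hj
  have hw := W.hw
  set T1 := (bdR (rA N)).filter (fun z => cst w (hS j w N b θ) z = v) with hT1
  set T2 := (twA N).filter (fun x => tcS j w N b θ x = v) with hT2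
  have hout2' : ∀ x : P, ∃ l : ℕ, x ∈ T2 → TmS j w N b θ x = Lt w (fun _ => l) x ∧
      nab w x = nab (w + l) x + 1 ∧
      ((Even (nst w (fun _ => l) x) ∧ (EvN j w v ∨ XE v)) ∨
      (Odd (nst w (fun _ => l) x) ∧ (OdN j w v ∨ XO v))) := by
    intro x
    by_cases hx : x ∈ T2
    · have hx' := hx
      rw [hT2, mem_filter] at hx'
      have h1 := (W.out_twS L hx'.1).resolve_left (by rw [hx'.2]; omega)
      rw [hx'.2] at h1
      obtain ⟨l, h2⟩ := h1
      exact ⟨l, fun _ => h2⟩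
    · exact ⟨0, fun h => absurd h hx⟩
  choose lb hlb using hout2'
  -- labels on the whole class
  let hh : P → ℕ := fun z => if z ∈ twA N then lb z else hS j w N b θ z
  have hh1 : ∀ z ∈ twA N, hh z = lb z := fun z hz => if_pos hz
  have hh2 : ∀ z, z ∉ twA N → hh z = hS j w N b θ z := fun z hz => if_neg hz
  have hn1 : ∀ z ∈ T1, z ∉ twA N := by
    intro z hz
    rw [hT1, mem_filter] at hz
    exact (mem_rA.mp (mem_bdR.mp hz.1).1).2
  have hm2 : ∀ z ∈ T2, z ∈ twA N := fun z hz => by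
    rw [hT2, mem_filter] at hz
    exact hz.1
  have hdisj : Disjoint T1 T2 := by
    rw [Finset.disjoint_left]
    intro z hz hz'
    exact hn1 z hz (hm2 z hz')
  have hout1 : ∀ z ∈ T1, nab w z = nab (w + hh z) z + 1 ∧
      ((Even (nst w hh z) ∧ (EvN j w v ∨ XE v)) ∨ (Odd (nst w hh z) ∧ (OdN j w v ∨ XO v)) ∨
      (∃ x x', Cg z x x' ∧ Sok j x ∧ Sok j x') ∧ v = ful w z ∧ hh z = lev z - w) := by
    intro z hz
    have hzt := hn1 z hz
    rw [hT1, mem_filter] at hz
    have h1 := W.outS' L hP M hz.1 hz.2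
    have h2 : nst w hh z = nst w (hS j w N b θ) z := by
      rw [nst_eq, nst_eq, hh2 z hzt]
    rw [h2, hh2 z hzt]
    exact h1.resolve_left (by omega)
  have hnst2 : ∀ x ∈ T2, nst w hh x = nst w (fun _ => lb x) x := fun x hx => by
    rw [nst_eq, nst_eq, hh1 x (hm2 x hx)]
  have hout2 : ∀ x ∈ T2, nab w x = nab (w + hh x) x + 1 ∧
      ((Even (nst w hh x) ∧ (EvN j w v ∨ XE v)) ∨
      (Odd (nst w hh x) ∧ (OdN j w v ∨ XO v))) := by
    intro x hx
    have h1 := (hlb x hx).2
    rw [hnst2 x hx, hh1 x (hm2 x hx)]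
    exact h1
  -- the exact far window theorem
  have F := W.farS' h7 h12 v M.tw M.bd
  have hd := F.lead M.bd
  have hZ := dvd_Z H.gauss w v
  have hsum2 : ∑ x ∈ (twA N).filter (fun x => tcS j w N b θ x = v), TmS j w N b θ x =
      ∑ x ∈ T2, Lt w hh x := by
    refine Finset.sum_congr rfl fun x hx => ?_
    rw [(hlb x hx).1]
    unfold Lt
    rw [hnst2 x hx, hh1 x (hm2 x hx)]
  have hsum1 : ∑ z ∈ (bdR (rA N)).filter (fun z => cst w (hS j w N b θ) z = v),
      Lt w (hS j w N b θ) z = ∑ z ∈ T1, Lt w hh z := by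
    refine Finset.sum_congr rfl fun z hz => ?_
    unfold Lt
    rw [nst_eq, nst_eq, hh2 z (hn1 z hz)]
  rw [hsum2, hsum1, ← Finset.sum_union hdisj] at hd
  have hdrop : ∀ z ∈ T1 ∪ T2, nab w z = nab (w + hh z) z + 1 := by
    intro z hz
    rcases mem_union.mp hz with h | h
    · exact (hout1 z h).1
    · exact (hout2 z h).1
  have hTne : (T1 ∪ T2).Nonempty := by
    rcases hex with ⟨z, hz, h⟩ | ⟨x, hx, h⟩
    · exact ⟨z, mem_union_left _ (mem_filter.mpr ⟨hz, h⟩)⟩
    · exact ⟨x, mem_union_right _ (mem_filter.mpr ⟨hx, h⟩)⟩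
  have hcard : 1 ≤ (lv P w).card := by
    obtain ⟨z, hz⟩ := hTne
    have h1 := hdrop z hz
    have h2 := nab_le z w
    omega
  have hs := sign_sum_of_dvd (T1 ∪ T2) hZ hd (c0 := (lv P w).card - 1) (by omega) (by
    intro z hz
    have := hdrop z hz
    omega)
  rw [Finset.filter_true_of_mem (fun z hz => by
    have := hdrop z hz
    omega)] at hs
  obtain ⟨⟨z1, hz1, he⟩, z2, hz2, ho⟩ := both_signs _ _ hs hTne
  have hcls : ∀ z ∈ T1 ∪ T2, (Even (nst w hh z) ∧ (EvN j w v ∨ XE v)) ∨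
      (Odd (nst w hh z) ∧ (OdN j w v ∨ XO v)) ∨
      (∃ x x', Cg z x x' ∧ Sok j x ∧ Sok j x') ∧ v = ful w z ∧
        nst w hh z = nst w (fun z => lev z - w) z := by
    intro z hz
    rcases mem_union.mp hz with h | h
    · rcases (hout1 z h).2 with h1 | h1 | h1
      · exact Or.inl h1
      · exact Or.inr (Or.inl h1)
      · refine Or.inr (Or.inr ⟨h1.1, h1.2.1, ?_⟩)
        rw [nst_eq, nst_eq, h1.2.2]
    · rcases (hout2 z h).2 with h1 | h1
      · exact Or.inl h1
      · exact Or.inr (Or.inl h1)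
  constructor
  · rcases hcls z2 hz2 with h | h | ⟨⟨x, x', h, s1, s2⟩, h1, h2⟩
    · exact absurd h.1 (Nat.not_even_iff_odd.mpr ho)
    · exact Or.inr h.2
    · rw [h2] at ho
      exact Or.inl ⟨z2, x, x', h, s1, s2, h1.symm, ho⟩
  · rcases hcls z1 hz1 with h | h | ⟨⟨x, x', h, s1, s2⟩, h1, h2⟩
    · exact Or.inr h.2
    · exact absurd h.1 (Nat.not_odd_iff_even.mpr he)
    · rw [h2] at he
      exact Or.inl ⟨z1, x, x', h, s1, s2, h1.symm, he⟩

/-- **The balance at window `w`.** -/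
theorem Wk.winBS' (W : Wk r j w K0 N b θ) (h7 : 7 ≤ j) (h12 : j % 2 = 0 → 12 ≤ j)
    {LE LO : List ℤ}
    (L : LkS P j w K0 K N b θ (XL (j + 1 - w) LE) (XL (j + 1 - w) LO)) (h16 : j ≤ 16) {cT lb : ℤ}
    (hK : (K : ℤ) = ((j + 1 - w : ℕ) : ℤ) ^ 2 + cT) (hT : cT < 7 * ((j + 1 - w : ℕ) : ℤ) + 10)
    (hl0 : lb ≤ 0) (hlE : ∀ x ∈ LE, lb ≤ x) (hlO : ∀ x ∈ LO, lb ≤ x)
    (hlow : ∀ z x x' : P, Cg z x x' → Sok j x → Sok j x' → j + 1 ≤ lev z →
      ∀ k, k < w → nab k z = 2)
    (hPen : OnePen P j (fun t => 2 ≤ b t) ∨ ∃ z : P, Hul.Jn z ∧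
      ful w z ≤ (j + 1 - w) ^ 2 + 5 * (j - w))
    (hJ : ∃ z : P, Hul.Jn z) :
    ∃ v, MnS j w N b θ v ∧
      WinB P j w cT (fun V => LO.elem V) (fun V => nz ((j + 1 - w : ℕ) : ℤ) V || LE.elem V)
      lb ((v : ℤ) - ((j + 1 - w : ℕ) : ℤ) ^ 2) := by
  classical
  have HN := W.natSys
  have hj := W.hj
  have hw := W.hw
  have H := W.gt.H
  -- joins are in the far set
  have hjoin : ∀ z : P, Hul.Jn z → z ∈ rA N := by
    rintro z ⟨t1, t2, h1, h2, hne, hz1, hz2⟩
    have key : ∀ y, y ∉ unnat N → (y ≤ t1 → y ≤ t2 → False) := by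
      intro y hy g1 g2
      have h3 : y ∈ N (topOf y) := HN.mem_iff.mpr ⟨hy, rfl⟩
      exact hne ((HN.top_eq h3 h1 g1).trans (HN.top_eq h3 h2 g2).symm)
    have hzu : z ∈ unnat N := by
      by_contra hcon
      exact key z hcon hz1 hz2
    refine mem_rA.mpr ⟨hzu, fun h => ?_⟩
    obtain ⟨-, y, hy, hup⟩ := mem_twA.mp h
    have hl := W.lt_lev hzu
    refine key y hy ((hup t1).mpr ?_).le ((hup t2).mpr ?_).le
    · exact lt_of_le_of_ne hz1 (by rintro rfl; omega)
    · exact lt_of_le_of_ne hz2 (by rintro rfl; omega)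
  have hpos : ∀ x ∈ rA N, 0 < lev x := fun x hx => by
    have := W.lt_lev (mem_rA.mp hx).1
    omega
  have hbd : (bdR (rA N)).Nonempty := by
    obtain ⟨z, hz⟩ := hJ
    obtain ⟨z', hz', -⟩ := exists_bd_above hpos (hjoin z hz)
    exact ⟨z', hz'⟩
  obtain ⟨v, M, hex⟩ := exists_minS (j := j) (w := w) (b := b) (θ := θ) hbd
  have hmin : ∀ z, Hul.Jn z → v ≤ ful w z := fun z hz => min_le_ful hpos M.bd (hjoin z hz)
  have hPen' : OnePen P j (fun t => 2 ≤ b t) ∨ v ≤ (j + 1 - w) ^ 2 + 5 * (j - w) := by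
    rcases hPen with h | ⟨z, hz, h⟩
    · exact Or.inl h
    · exact Or.inr ((hmin z hz).trans h)
  have hlev : ∀ z x x' : P, Cg z x x' → j + 1 ≤ lev z := by
    intro z x x' h
    by_contra hcon
    exact W.gt.no_join z (by omega) h.jn
  have hyc : ((j + 1 - w : ℕ) : ℤ) = (j : ℤ) + 1 - w := by
    rw [Nat.cast_sub (by omega)]
    push_cast
    ring
  have hline : ∀ z x x' : P, Cg z x x' → Sok j x → Sok j x' →
      (ful w z : ℤ) = ((j + 1 - w : ℕ) : ℤ) ^ 2 + (kapZ j z * ((j : ℤ) - w) + gZ j z) := by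
    intro z x x' h hs hs'
    have hl := hlev z x x' h
    rw [hyc]
    exact ful_line (by omega) (by omega) (hlow z x x' h hs hs' hl)
  have hpar : ∀ {z x x' : P}, Cg z x x' → Sok j x → Sok j x' →
      anc z = 2 * w + nst w (fun z => lev z - w) z := by
    intro z x x' h hs hs'
    have hl := hlev z x x' h
    have h2 := hlow z x x' h hs hs' hl
    unfold anc
    obtain ⟨c, hc⟩ : ∃ c, lev z = w + c := ⟨lev z - w, by omega⟩
    rw [nst_eq, hc, Finset.sum_range_add, Nat.add_sub_cancel_left,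
      Finset.sum_congr rfl (g := fun _ => 2) (fun k hk => h2 k (by
        rw [mem_range] at hk
        omega)), Finset.sum_const, card_range, smul_eq_mul, Nat.mul_comm]
  have hkp : ∀ {z : P}, (Odd (anc z) → Odd (kapZ j z)) ∧ (Even (anc z) → Even (kapZ j z)) :=
    kap_parity
  refine ⟨v, M, ?_⟩
  have hmn : ∀ z x x' : P, Cg z x x' → Sok j x → Sok j x' →
      (v : ℤ) - ((j + 1 - w : ℕ) : ℤ) ^ 2 ≤ kapZ j z * (j - w) + gZ j z := by
    intro z x x' h hs hs'
    have h1 : (v : ℤ) ≤ ful w z := by exact_mod_cast hmin z h.jn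
    rw [hline z x x' h hs hs'] at h1
    linarith
  by_cases hcap : K < v
  · have hcap' : (K : ℤ) < v := by exact_mod_cast hcap
    exact ⟨fun h => by linarith, hmn, fun h => by linarith, fun h => by linarith⟩
  have hcv : (v : ℤ) ≤ ((j + 1 - w : ℕ) : ℤ) ^ 2 + cT := by
    rw [← hK]
    exact_mod_cast not_lt.mp hcap
  obtain ⟨ho, he⟩ := W.bothS' h7 h12 L hPen' M hex (not_lt.mp hcap)
  have hsq : ∀ z x x' : P, Cg z x x' → ful w z = v → 0 ≤ (v : ℤ) - ((j + 1 - w : ℕ) : ℤ) ^ 2 := by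
    intro z x x' h he
    have hl := hlev z x x' h
    obtain ⟨c, hc⟩ : ∃ c, lev z = w + c := ⟨lev z - w, by omega⟩
    have h4 := ful_ge (w := w) (z := z) (c := c) (fun _ => 0) hc
      (fun n hn1 hn2 => h.two_le H (k := w + n) (by omega))
    simp only [mul_zero, Finset.sum_const_zero, add_zero] at h4
    have h5 : (j + 1 - w) ^ 2 ≤ c ^ 2 := Nat.pow_le_pow_left (by omega) 2
    have h6 : (j + 1 - w) ^ 2 ≤ v := by rw [← he]; exact h5.trans h4
    have h7 : (((j + 1 - w) ^ 2 : ℕ) : ℤ) ≤ v := by exact_mod_cast h6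
    push_cast at h7
    linarith
  have hnzpos : ∀ {V : ℤ}, nz ((j + 1 - w : ℕ) : ℤ) V = true → 0 ≤ V := by
    intro V hV
    unfold nz at hV
    rw [List.any_eq_true] at hV
    obtain ⟨t, -, ht⟩ := hV
    rw [decide_eq_true_eq] at ht
    have h1 : (0 : ℤ) ≤ t := Int.natCast_nonneg t
    have h2 : (1 : ℤ) ≤ ((j + 1 - w : ℕ) : ℤ) := by
      have : 1 ≤ j + 1 - w := by omega
      exact_mod_cast this
    rcases ht with ht | ht | ht <;> nlinarith
  refine ⟨fun _ => ?_, hmn, fun _ => ?_, fun _ => ?_⟩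
  · rcases ho with ⟨z, x, x', h1, h2, h3, h4, h5⟩ | h | h
    · exact hl0.trans (hsq z x x' h1 h4)
    · exact (od_false h (by omega) h16 hcv hT).elim
    · exact hlO _ h
  · rcases ho with ⟨z, x, x', h1, h2, h3, h4, h5⟩ | h | h
    · left
      refine ⟨z, x, x', h1, h2, h3, hkp.1 (by
        rw [hpar h1 h2 h3]
        exact (even_two_mul w).add_odd h5), ?_⟩
      have := hline z x x' h1 h2 h3
      rw [h4] at this
      linarith
    · exact (od_false h (by omega) h16 hcv hT).elim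
    · right
      exact List.elem_iff.mpr h
  · rcases he with ⟨z, x, x', h1, h2, h3, h4, h5⟩ | h | h
    · left
      refine ⟨z, x, x', h1, h2, h3, hkp.2 (by
        rw [hpar h1 h2 h3]
        exact (even_two_mul w).add h5), ?_⟩
      have := hline z x x' h1 h2 h3
      rw [h4] at this
      linarith
    · right
      rw [Bool.or_eq_true]
      exact Or.inl (ev_nz h (by omega) hcv hT)
    · right
      rw [Bool.or_eq_true]
      exact Or.inr (List.elem_iff.mpr h)

end Pool.Agent.GaussPoset.Sm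

end

/-! From `Pool.Agent.W_448pg_h74.WvD` -/

section

/-!
# The window `1` beyond the cells `(2, j - 1)` (MP_448cb3_co, S7)
-/

namespace Pool.Agent.GaussPoset.Sm

set_option linter.unusedSectionVars false

open Polynomial Finset Wd

universe u

variable {P : Type u} [Fintype P] [PartialOrder P] [DecidableEq P] {r j K0 K : ℕ}
  {N : Tops P → Finset P} {b : Tops P → ℕ} {θ : Tops P → P → ℕ} {XE XO : ℕ → Prop}

/-- the thresholds at window `1` -/
lemma Wk.th_one (W : Wk r j 1 K0 N b θ) {x : P} (hx : x ∉ unnat N) (hl : j ≤ lev x) :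
    lev x ≤ θ (topOf x) x + 2 := by
  have HN := W.natSys
  have hj := W.hj
  have hxt : x ∈ N (topOf x) := HN.mem_iff.mpr ⟨hx, rfl⟩
  generalize topOf x = t at hxt
  rcases W.typ t with ⟨h1, h2, h3, h5⟩ | ⟨Nc, co, h0, h1, h2, h4⟩ |
    ⟨Nc, co, h0, h1, h2, h3, h4, h5'⟩
  · rw [h2]
    simp only
    omega
  · rw [h2]
    by_cases hJ : x ∈ junk (fun _ => True) Nc co ∨ x ∈ junk (fun _ => True) Nc (swp co)
    · unfold thR
      rw [if_pos hJ]
      omega
    · have hxN : x ∈ Nc := by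
        rw [h1, mem_natR] at hxt
        rcases hxt with h | h | h
        · exact h
        · exact absurd (Or.inl h) hJ
        · exact absurd (Or.inr h) hJ
      have := rect_th7 h0 W.hw hxN hJ (by omega)
      omega
  · omega

/-- no special cells at window `1` -/
lemma Wk.no_spc1 (W : Wk r j 1 K0 N b θ) {x : P} (hx : x ∉ unnat N) : ¬ Spc j 1 N b θ x := by
  rintro ⟨Nc, co, C⟩
  have hj := W.hj
  have h1 := C.th
  have h2 := C.lev (by omega)
  have h3 := W.th_one hx (by omega)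
  omega

lemma Wk.no_cel1 (W : Wk r j 1 K0 N b θ) {z : P} : ¬ CEl j 1 N θ z := by
  rintro ⟨h1, h2, f, s, h3, h4, h5, h6, h7⟩
  obtain ⟨Nc, co, C⟩ := W.fold_cell' h1 h2 h3 h4 h5 h7
  have h8 := C.th
  have h9 := C.lev
  have hj := W.hj
  have e1 := (W.gt.H.covBy_iff.mp h3).2
  have h10 := W.th_one (x := f) (W.low (by omega)) (by omega)
  omega

lemma Wk.no_penS1 (W : Wk r j 1 K0 N b θ) {z : P} : ¬ PenS j 1 N b θ z := by
  rintro ⟨-, x, h1, h2, -, h4⟩
  exact W.no_spc1 (W.bs h1).nat h4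

lemma Wk.hS_one (W : Wk r j 1 K0 N b θ) (z : P) : hS j 1 N b θ z = hA N θ z := by
  rw [hS_not W.no_penS1, hC_not W.no_cel1]

/-- deep cells at window `1` -/
lemma Wk.cell_one (W : Wk r j 1 K0 N b θ) {x : P} (hx : x ∉ unnat N) (hl : j + 1 ≤ lev x)
    (hD : Dk j 1 K0 N θ x) (hR : ¬ Row1 j 1 N θ x) :
    ∃ Nc co, Chart (topOf x : P) (fun _ => True) Nc co ∧ x ∈ Nc ∧ 2 ≤ (co x).1 ∧
      2 ≤ (co x).2 ∧ θ (topOf x) x + 1 = lev x - 1 ∧
      ∀ v z, v ≤ (topOf x : P) → lev v = j → (Win.uc v).card = 2 → z ⋖ v →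
        ¬ ∀ y, z ⋖ y → y = v := by
  have H := W.gt.H
  have HN := W.natSys
  have hxt : x ∈ N (topOf x) := HN.mem_iff.mpr ⟨hx, rfl⟩
  have hj := W.hj
  have hDt := hD.th
  have hT := W.typ (topOf x)
  generalize ht : topOf x = t at hxt hT hDt
  rcases hT with ⟨h1, h2, h3, h5⟩ | ⟨Nc, co, h0, h1, h2, h4⟩ |
    ⟨Nc, co, h0, h1, h2, h3, h4, h5'⟩
  · exfalso
    rw [h2] at hDt
    simp only at hDt
    omega
  · have hxN' : x ∈ natR Nc co := by rw [← h1]; exact hxt
    have hJ : ¬ (x ∈ junk (fun _ => True) Nc co ∨ x ∈ junk (fun _ => True) Nc (swp co)) := by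
      intro hJ
      rw [h2] at hDt
      unfold thR at hDt
      rw [if_pos hJ] at hDt
      omega
    have hxN : x ∈ Nc := by
      rw [mem_natR] at hxN'
      rcases hxN' with h | h | h
      · exact h
      · exact absurd (Or.inl h) hJ
      · exact absurd (Or.inr h) hJ
    have hl' := h0.chart.lev x hxN
    have hth := rect_th7 h0 W.hw hxN hJ (by omega)
    have h7 : ¬ ((co x).1 = 0 ∨ (co x).2 = 0) := by
      intro h7
      rw [h2] at hDt
      omega
    have h8 : ¬ ((co x).1 = 1 ∨ (co x).2 = 1) := by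
      intro h8
      apply hR
      refine ⟨by omega, chart_inner_uc h0.chart H hxN (by omega) (by omega), ?_, ?_, ?_, ?_⟩
      · intro hlx'
        omega
      · rw [ht, h2]; omega
      · intro k hk hkx
        have := rect_nab h0.chart hxN (k := k) (by omega)
        omega
      · exact hD.mono
    refine ⟨Nc, co, h0.chart, hxN, by omega, by omega, ?_, h4⟩
    rw [h2]
    omega
  · omega

/-- the finite check at window `1` -/
structure Num1 (j K : ℕ) : Prop where
  r1 : ∀ a ∈ Finset.Icc 3 (j - 2), K + 1 < reC 1 (j + 1) a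
  r2 : ∀ a ∈ Finset.Icc 2 (j + 1 - 1), K + 1 < reC 1 (j + 1 + 1) a
  two : ∀ a, a = 2 ∨ a = j - 1 →
    K < ∑ n ∈ range (j + 1 - 1 + 1), min j n * (min (1 + n) a + 1 - ((1 + n) - (j + 1 - a))) +
      j + j + min j (j - 1)

lemma hA_one (W : Wk r j 1 K0 N b θ) {z x : P} (hz : z ∈ bdR (rA N)) (hx : x ∉ rA N)
    (hzx : z ⋖ x) (hl : j + 1 ≤ lev x)
    (hth : θ (topOf (GaussPoset.bs N x)) (GaussPoset.bs N x) + 1 = lev x - 1) :
    hA N θ z = lev x - 1 := by
  have H := W.gt.H.gradedBelow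
  obtain ⟨x0, g1, g2, g3⟩ := W.hA_spec hz
  have g4 := W.hA_le hx hzx
  have g6 := W.bs g1
  have e1 := H.lev_covBy hzx
  have e2 := H.lev_covBy g2
  have e3 := g6.lev
  have e4 := (W.bs hx).lev
  have h5 := W.th_one g6.nat (by omega)
  omega

/-- **elements below a deep cell at window `1` are expensive** -/
theorem Wk.dp_one (W : Wk r j 1 K0 N b θ) (h8 : 8 ≤ j) (n : Num1 j K) (hE : NoE2 P j)
    (hP : NoP2 P j) {v : ℕ} {z x : P} (hz : z ∈ bdR (rA N))
    (hc : cst 1 (hS j 1 N b θ) z = v) (hx : x ∉ rA N) (hzx : z ⋖ x) (hlx : j + 1 ≤ lev x)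
    (hD : Dk j 1 K0 N θ (GaussPoset.bs N x)) (hR : ¬ Row1 j 1 N θ (GaussPoset.bs N x)) :
    K < v := by
  classical
  have H := W.gt.H
  have g7 := W.bs hx
  have e4 := g7.lev
  obtain ⟨Nc, co, C, hxN, c1, c2, hth, hpen⟩ := W.cell_one g7.nat (by omega) hD hR
  have hth' : θ (topOf (GaussPoset.bs N x)) (GaussPoset.bs N x) + 1 = lev x - 1 := by omega
  have hA1 := hA_one W hz hx hzx hlx hth'
  have hcg : ∀ L, cst 1 (fun _ => L) (GaussPoset.bs N x) = cst 1 (fun _ => L) x := fun L =>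
    cst_const_congr g7.lev g7.nab
  have e1 := (H.covBy_iff.mp hzx).2
  have hv : v = cst 1 (fun _ => lev x - 1) z := by
    rw [← hc, cst_const, W.hS_one, hA1]
  have hge := cst_ge_cover (i := 1) (h := fun _ => lev x - 1) H.gradedBelow hzx
  simp only at hge
  rw [Nat.min_eq_left (by omega)] at hge
  have hcl := C.lev _ hxN
  rcases Nat.lt_or_ge (j + 1) (lev x) with hgt | hle
  · have h5 := rdeep_of (j := j + 1) (w := 1) (by omega) (by omega) n.r2 C hxN
      (h := lev x - 1) (by omega) (by omega) (by omega) (by omega)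
    rw [hcg] at h5
    omega
  · have hlx1 : lev x = j + 1 := by omega
    rw [hlx1, Nat.add_sub_cancel] at hv hge
    have h7 := cst_rect (w := 1) (h := j) C hxN (L := j + 1) (by omega) (by omega)
    rw [hcg] at h7
    by_cases hc2 : (co (GaussPoset.bs N x)).1 = 2 ∨ (co (GaussPoset.bs N x)).1 = j - 1
    · -- the cells `(2, j - 1)`
      have g1 : ∀ k, 4 ≤ k → k + 1 ≤ j → nab k (GaussPoset.bs N x) = 3 := by
        intro k hk1 hk2
        have := rect_nab C hxN (k := k) (by omega)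
        omega
      have g2 : nab j (GaussPoset.bs N x) = 2 := by
        have := rect_nab C hxN (k := j) (by omega)
        omega
      have hN : NTw (GaussPoset.bs N x) := fun x' hne hup =>
        hE _ x' hne.symm (by omega) hup g1 g2
      have e9 := W.bs_self hN
      rw [e9] at C hxN c1 c2 hcl hc2 g1 g2 hN h7 hpen
      have hnp : ¬ ∀ y, z ⋖ y → y = x := hP z x hlx1 g1 g2 hzx
      push Not at hnp
      obtain ⟨y, hy, hne⟩ := hnp
      have hin : ∀ v, x ⋖ v → ∀ y, y ⋖ v → ¬ ∀ u, y ⋖ u → u = v := by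
        intro v hv y hy
        have hvN := C.up x hxN v hv.1.le
        have hcv := (chart_cov C H hxN hvN).mp hv
        have hlv := (H.covBy_iff.mp hv).2
        have h7 : (Win.uc v).card = 2 := by
          unfold Prd at hcv
          exact chart_inner_uc C H hvN (by omega) (by omega)
        exact hpen v y (C.le_t v hvN) (by omega) h7 hy
      obtain ⟨q, q1, q2, q3⟩ := exists_ext H hlx1
        (chart_inner_uc C H hxN (by omega) (by omega)) hin hzx hy (hN y hne)
      have h9 := cst_ext (w := 1) H hlx1 (by omega) hzx hy hne q1 q2 q3 (h := j) (by omega)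
      have h10 := n.two _ hc2
      rw [hv]
      omega
    · have h8 := n.r1 (co (GaussPoset.bs N x)).1 (by rw [Finset.mem_Icc]; omega)
      unfold reC at h8
      rw [show j + 1 - 1 + 1 - min (min (co (GaussPoset.bs N x)).1
        (j + 1 - (co (GaussPoset.bs N x)).1)) 1 = j by omega, ← h7] at h8
      omega

/-- **twins of deep cells at window `1` are expensive** -/
theorem Wk.dt_one (W : Wk r j 1 K0 N b θ) (h8 : 8 ≤ j) (n : Num1 j K) (hE : NoE2 P j)
    {x : P} (hx : x ∈ twA N) (hD : Dk j 1 K0 N θ (twT N x))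
    (hR : ¬ Row1 j 1 N θ (twT N x)) : K < tcS j 1 N b θ x := by
  classical
  have H := W.gt.H.gradedBelow
  have hj := W.hj
  have T := W.twn hx
  have hup := W.twSys.up x hx
  have hll : lev (twT N x) = lev x := lev_eq_of_up hup
  have hnat := W.twSys.nat x hx
  have e1 : thA N θ (twT N x) = θ (topOf (twT N x)) (twT N x) := W.thA_nat hnat
  have hlv : j + 1 ≤ lev (twT N x) := by
    have := W.lt_lev (mem_twA.mp hx).1
    omega
  have e2 : tcst 1 (thA N θ) (twT N x, x) = C1 1 θ (twT N x) - 1 := by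
    rw [tcst_cst T]
    unfold C1
    simp only
    rw [e1]
    omega
  have h2 : tcS j 1 N b θ x = C1 1 θ (twT N x) - 1 := by
    unfold tcS
    rw [if_neg (W.no_spc1 hnat), e2]
  obtain ⟨Nc, co, C, hxN, c1, c2, hth, hpen⟩ := W.cell_one hnat hlv hD hR
  have hcl := C.lev _ hxN
  rw [h2]
  unfold C1
  rw [hth]
  rcases Nat.lt_or_ge (j + 1) (lev (twT N x)) with hgt | hle
  · have h5 := rdeep_of (j := j + 1) (w := 1) (by omega) (by omega) n.r2 C hxN
      (h := lev (twT N x) - 1) (by omega) (by omega) (by omega) (by omega)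
    omega
  · have hlx1 : lev (twT N x) = j + 1 := by omega
    by_cases hc2 : (co (twT N x)).1 = 2 ∨ (co (twT N x)).1 = j - 1
    · exfalso
      have g1 : ∀ k, 4 ≤ k → k + 1 ≤ j → nab k (twT N x) = 3 := by
        intro k hk1 hk2
        have := rect_nab C hxN (k := k) (by omega)
        omega
      have g2 : nab j (twT N x) = 2 := by
        have := rect_nab C hxN (k := j) (by omega)
        omega
      exact hE _ x T.ne (by omega) hup g1 g2
    · have h8 := n.r1 (co (twT N x)).1 (by rw [Finset.mem_Icc]; omega)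
      have h7 := cst_rect (w := 1) (h := j) C hxN (L := j + 1) (by omega) (by omega)
      unfold reC at h8
      rw [show j + 1 - 1 + 1 - min (min (co (twT N x)).1 (j + 1 - (co (twT N x)).1)) 1 = j by
        omega, ← h7] at h8
      rw [hlx1, Nat.add_sub_cancel]
      omega

theorem num1_14 : Num1 14 (14 ^ 2 + 93) := by
  constructor
  · decide +kernel
  · decide +kernel
  · intro a ha
    rcases ha with rfl | rfl
    · decide +kernel
    · decide +kernel

end Pool.Agent.GaussPoset.Sm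

end

/-! From `Pool.Agent.W_448pg_h74.WvE` -/

section

/-!
# The window `1` for `j = 14` up to `93` (MP_448cb3_co, S7)
-/

namespace Pool.Agent.GaussPoset.Sm

set_option linter.unusedSectionVars false

open Polynomial Finset W4 Cp

universe u

variable {P : Type u} [Fintype P] [PartialOrder P] [DecidableEq P] {r j : ℕ}
  {lo hi : Tops P → ℕ → ℕ} {e : Tops P → ℕ → ℕ → P}

/-- sides which are not allowed are expensive at window `1`, with a larger cap -/
theorem nsk1' (H : Gr P r) (hj : 6 ≤ j) {cT : ℕ}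
    (hF : j ^ 2 + cT < (j + 1) ^ 2 + (j - 2) * (j - 3) / 2)
    (hfo : 12 ≤ j → j % 2 = 0 → (cT : ℤ) < fm j * ((j : ℤ) - 1) - fc j)
    {z x x' : P} (h : Cg z x x')
    (hl : j + 1 ≤ lev z) (hn : ¬ Sok j x) : j ^ 2 + cT < ful 1 z := by
  obtain ⟨l1, l2⟩ := h.lev_eq H
  by_cases hf : Fatt j x
  · obtain ⟨f1, f2⟩ := hf
    obtain ⟨c, hc⟩ : ∃ c, lev z = 1 + c := ⟨lev z - 1, by omega⟩
    have h4 := ful_ge (w := 1) (z := z) (fun n => ind 1 (j - 2) n) hc (fun n hn1 hn2 => by
      unfold ind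
      split_ifs with h6
      · rw [h.sum H (by omega)]
        have := f2 (1 + n) (by omega) (by omega)
        have := one_le_nab (l := 1 + n) (z := x') (by omega)
        omega
      · exact h.two_le H (k := 1 + n) (by omega))
    have g2 := sum_ind (s := 1) (a := j - 2) (m := c) (by omega)
    have h7 : (j + 1) ^ 2 ≤ c ^ 2 := Nat.pow_le_pow_left (by omega) 2
    obtain ⟨i, rfl⟩ : ∃ i, j = i + 3 := ⟨j - 3, by omega⟩
    rw [show i + 3 - 2 = i + 1 by omega, show i + 1 - 1 = i by omega] at g2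
    rw [show i + 3 - 2 = i + 1 by omega] at h4
    rw [show i + 3 - 2 = i + 1 by omega, show i + 3 - 3 = i by omega] at hF
    norm_num at g2
    omega
  · have hF : 12 ≤ j ∧ Fold j x := by
      unfold Sok at hn
      by_contra hcon
      exact hn ⟨hf, fun h12 hfo => hcon ⟨h12, hfo⟩⟩
    obtain ⟨h12, hfl⟩ := hF
    have hlx := hfl.1
    obtain ⟨k1, k2, k3, k4, k5, k6⟩ := h.line H hl
    obtain ⟨n0, d0⟩ := k6 (by omega)
    have hn : (nab j x : ℤ) = 1 ∧ (nab j x' : ℤ) = 1 := by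
      constructor
      · rw [show j = lev x by omega, nab_self]; norm_num
      · rw [show j = lev x' by omega, nab_self]; norm_num
    have hz0 : (lev z : ℤ) - (j + 1) = 0 := by rw [l1, hlx]; push_cast; ring
    obtain ⟨f1, f2⟩ := hfl.mX
    have b1 := nab_zero_only h.only
    have b2 := nab_zero_only h.only'
    have hln := ful_line (j := j) (w := 1) (z := z) (by omega) (by omega) (fun k hk => by
      obtain rfl : k = 0 := by omega
      rw [h.sum H (by omega), b1, b2])
    have hs : 0 ≤ mX j x' * ((j : ℤ) - (1 : ℕ)) - cX j x' := by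
      unfold mX cX
      rw [Finset.sum_mul, ← Finset.sum_sub_distrib]
      refine Finset.sum_nonneg fun k hk => ?_
      rw [mem_range] at hk
      rcases Nat.eq_zero_or_pos k with hk0 | hk0
      · subst hk0
        rw [b2]
        norm_num
      · have h1 := one_le_nab (l := k) (z := x') (by omega)
        have h2 : (0 : ℤ) ≤ (nab k x' : ℤ) - 1 := by
          have : (1 : ℤ) ≤ nab k x' := by exact_mod_cast h1
          linarith
        have h3 : (1 : ℤ) ≤ k := by exact_mod_cast hk0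
        push_cast
        nlinarith
    have key := hfo h12 hfl.2.1
    have : ((j ^ 2 + cT : ℕ) : ℤ) < ful 1 z := by
      rw [hln, k1, k2, n0, d0, hn.1, hn.2, hz0, f1, f2]
      push_cast at hs ⊢
      nlinarith
    exact_mod_cast this

/-- **the balance at window `1` for `j = 14` up to `93`**, from `NoE2`, `NoP2` -/
theorem Ctx.win1e_14 (K : Ctx P r 14 lo hi e) (hE : NoE2 P 14) (hP : NoP2 P 14)
    (hJ : ∃ z : P, Hul.Jn z) :
    ∃ V, WinB P 14 1 93 (fun V => ([] : List ℤ).elem V)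
      (fun V => nz ((14 + 1 - 1 : ℕ) : ℤ) V || ([] : List ℤ).elem V) 0 V := by
  have H := K.gt.H
  have h16 := K.h16
  have hsh : ∀ t : Tops P, lo t 1 = hi t 1 ∨ RectShape 14 (lo t) (hi t) ∨
      StairShape 14 (lo t) (hi t) ∨ StairShape 14 (fun k => k - hi t k) (fun k => k - lo t k) := by
    intro t
    rcases shape_cases (K.comp t) (by omega) (K.shape t) with h | h | ⟨a, h, h3⟩
    · exact Or.inl (h 1 (by omega))
    · exact Or.inr (by tauto)
    · left
      rw [(h.low 1 (by have := h.two; omega)).1, (h.low 1 (by have := h.two; omega)).2]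
  obtain ⟨N, θ, t1, t2, hs, hu⟩ := K.types (w := 1) (by omega) hsh
  have W : Wk r 14 1 (K1 14) N (fun t => hi t 1 - lo t 1 + 1) θ :=
    { gt := K.gt, hj := by norm_num, hw1 := le_rfl, hw := by norm_num, typ := t1, top := t2
      sum_b := hs
      hK := by decide +kernel
      rdeep := fun C _ hx _ h1 h2 h3 h4 => rect_deep1 C (by norm_num) hx h1 h2 h3 h4
      sdeep := fun h => absurd h (by norm_num) }
  have L : LkS P 14 1 (K1 14) (14 ^ 2 + 93) N (fun t => hi t 1 - lo t 1 + 1) θ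
      (XL (14 + 1 - 1) []) (XL (14 + 1 - 1) []) :=
    { hK := by norm_num
      unq := hu
      nsk := fun z x x' h hl _ hn => nsk1' H (by norm_num) (by norm_num)
        (fun _ _ => by decide +kernel) h hl hn
      dj := fun v z x _ hz _ hl hzx hD => (W.deep_j1 hz hl hzx hD).elim
      dp := fun v z x _ hz hc hx hzx hl hD hR => Or.inl
        (W.dp_one (by norm_num) num1_14 hE hP hz hc hx hzx hl hD hR)
      dt := fun x hx hD hR => Or.inl (W.dt_one (by norm_num) num1_14 hE hx hD hR) }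
  have hpen : OnePen P 14 (fun t => 2 ≤ hi t 1 - lo t 1 + 1) ∨ ∃ z : P, Hul.Jn z ∧
      ful 1 z ≤ (14 + 1 - 1) ^ 2 + 5 * (14 - 1) := by
    rcases K.pen_or with h | ⟨hodd, z, x, x', h1, h2, h3, h4⟩
    · left
      intro e e' p p' hB
      refine h e e' p p' ?_
      rcases shape_cases (K.comp (topOf e)) (by omega) (K.shape (topOf e)) with h | h | ⟨a, h, h3⟩
      · have := h 1 (by omega)
        omega
      · exact h
      · have e1 := h.low 1 (by have := h.two; omega)
        omega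
    · exact absurd hodd (by norm_num)
  obtain ⟨v, M, h⟩ := W.winBS' (by norm_num) (fun _ => by norm_num) L h16 (cT := 93) (lb := 0)
    (by norm_num) (by norm_num) le_rfl (fun x hx => absurd hx List.not_mem_nil)
    (fun x hx => absurd hx List.not_mem_nil)
    (fun z x x' h _ _ hl k hk => by
      obtain rfl : k = 0 := by omega
      rw [h.sum H (by omega), nab_zero_only h.only, nab_zero_only h.only'])
    hpen hJ
  exact ⟨_, h⟩

end Pool.Agent.GaussPoset.Sm

end

/-! From `Pool.Agent.W_448s7s_h5.SmJ6` -/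

section

/-!
# S7 for `j = 6`: windows `0`, `1` (MP_448cb3_co)
-/

namespace Pool.Agent.GaussPoset.Sm

set_option linter.unusedSectionVars false

open Finset Wd

universe u

variable {P : Type u} [Fintype P] [PartialOrder P] [DecidableEq P] {r : ℕ}

lemma chkE6 : ChkE 6 E6 := tab6.e

/-- caps -/
def cp6 (w : ℕ) : ℤ := if w = 0 then cap0 6 else ((6 * (6 - 1) / 2 : ℕ) : ℤ) - 1

/-- even noise -/
def ne6 (w : ℕ) (V : ℤ) : Bool := if w = 0 then false else nz 6 V

lemma bal6 {lo hi : Tops P → ℕ → ℕ} {e : Tops P → ℕ → ℕ → P} (K : Ctx P r 6 lo hi e)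
    (hJ : ∃ z : P, Hul.Jn z) : ∀ w ≤ 1, ∃ V, WinB P 6 w (cp6 w) ((fun _ _ => false) w) (ne6 w)
      ((fun _ => 0) w) V := by
  intro w hw
  have : w = 0 ∨ w = 1 := by omega
  rcases this with rfl | rfl
  · exact K.win0 hJ
  · exact K.win1 (by norm_num) chkE6 (by decide +kernel) (by decide +kernel) hJ

/-- lines with `g`, by `κ` -/
def L6w : List (List ℤ) :=
  [[0], [-3, -2], [-6, -5, -4, 3], [-9, 0, 1, 2, 3], [-12, -11, -3, -2, -1], [], [-18]]

set_option maxRecDepth 100000 in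
theorem tab6w : Tab 6 1 cp6 L6w E6 S6a S6b X0 := by
  refine ⟨by norm_num, chkE6, ?_, ?_, ?_, ?_, ?_, ?_, ?_, ?_, ?_, ?_⟩
  · decide +kernel
  · decide +kernel
  · decide +kernel
  · decide +kernel
  · decide +kernel
  · intro _ h
    decide +kernel
  · decide +kernel
  · decide +kernel
  · decide +kernel
  · decide +kernel

/-- the pairs of ends which are left -/
def R6w : List ((ℕ × ℕ × ℕ) × (ℕ × ℕ × ℕ)) :=
    []

lemma rest6w : rest 6 E6 X0 (ubd 6 1 cp6 (fun _ => 0) L6w (fun _ _ => false) ne6 200 3) =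
    R6w := by
  decide +kernel

/-- **S7 for `j = 6`**, exclusion `X0`. -/
theorem left6w {lo hi : Tops P → ℕ → ℕ} {e : Tops P → ℕ → ℕ → P} (K : Ctx P r 6 lo hi e)
    {z x x' : P} (h : Cg z x x') (hl : lev z = 7) :
    ∃ s s', (s, s') ∈ R6w ∧ Dt 6 x s ∧ Dt 6 x' s' := by
  have hs : ∀ y : P, lev y = 6 → Sok 6 y := fun y hy => ⟨fun hf => by have := hf.1; omega,
    fun h12 => by omega⟩
  obtain ⟨l1, l2⟩ := h.lev_eq K.gt.H
  obtain ⟨s, s', h1, h2, h3⟩ := K.left (noP_zero 6) tab6w (bal6 K ⟨z, h.jn⟩) 200 3 h hl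
    (hs x (by omega)) (hs x' (by omega))
  rw [rest6w] at h1
  exact ⟨s, s', h1, h2, h3⟩

theorem no_join6w {lo hi : Tops P → ℕ → ℕ} {e : Tops P → ℕ → ℕ → P} (K : Ctx P r 6 lo hi e)
    {z : P} (hl : lev z = 7) : ¬ Hul.Jn z := by
  intro hz
  obtain ⟨x, x', h⟩ := K.cross hz hl
  obtain ⟨s, s', h1, -, -⟩ := left6w K h hl
  exact absurd h1 List.not_mem_nil

end Pool.Agent.GaussPoset.Sm

end

/-! From `Pool.Agent.W_448s7s_h5.SmI7` -/

section

/-!
# S7 for `j = 7`: window `0` (MP_448cb3_co)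
-/

namespace Pool.Agent.GaussPoset.Sm

set_option linter.unusedSectionVars false

open Finset Wd

universe u

variable {P : Type u} [Fintype P] [PartialOrder P] [DecidableEq P] {r : ℕ}

/-- ends -/
def E7 : List (ℕ × ℕ × ℕ) :=
    [(0, 0, 0), (1, 2, 1), (1, 3, 0), (3, 9, 1)]

/-- sides, one level deeper -/
def S7a : List (ℕ × ℕ × ℕ) :=
    [(0, 0, 0), (0, 0, 1), (1, 1, 0), (1, 1, 1), (1, 2, 0), (1, 3, 0), (2, 3, 0), (2, 3, 1),
    (3, 6, 0), (3, 6, 1), (3, 9, 0), (4, 7, 1), (4, 10, 0), (4, 10, 1), (5, 12, 0), (5, 12, 1),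
    (6, 13, 1)]

/-- sides, two or more levels deeper -/
def S7b : List (ℕ × ℕ × ℕ) :=
    [(0, 0, 0), (0, 0, 1), (1, 1, 0), (1, 1, 1), (1, 1, 2), (1, 2, 0), (1, 3, 0), (2, 3, 0),
    (2, 3, 1), (2, 3, 2), (3, 6, 0), (3, 6, 1), (3, 9, 0), (4, 7, 1), (4, 7, 2), (4, 7, 3),
    (4, 10, 0), (4, 10, 1), (5, 12, 0), (5, 12, 1), (6, 13, 1), (6, 13, 2)]

/-- lines with `g`, by `κ` -/
def L7 : List (List ℤ) :=
  [[0], [-3, -2], [-6, -5, -4, 3], [-9, 0, 1, 2, 3], [-12, -11, -3, -2, -1, 0, 1, 2], [-6],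
    [-18]]

theorem tab7 : Tab 7 0 (fun _ => cap0 7) L7 E7 S7a S7b X0 := by
  refine ⟨by norm_num, ?_, ?_, ?_, ?_, ?_, ?_, ?_, ?_, ?_, ?_, ?_⟩
  · decide +kernel
  · decide +kernel
  · decide +kernel
  · decide +kernel
  · decide +kernel
  · decide +kernel
  · intro _ h
    exact absurd h (by norm_num)
  · decide +kernel
  · decide +kernel
  · decide +kernel
  · decide +kernel

variable {lo hi : Tops P → ℕ → ℕ} {e : Tops P → ℕ → ℕ → P}

end Pool.Agent.GaussPoset.Sm

end

/-! From `Pool.Agent.W_448s7s_h5.SmJ7` -/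

section

/-!
# S7 for `j = 7`: windows `0`, `1` (MP_448cb3_co)
-/

namespace Pool.Agent.GaussPoset.Sm

set_option linter.unusedSectionVars false

open Finset Wd

universe u

variable {P : Type u} [Fintype P] [PartialOrder P] [DecidableEq P] {r : ℕ}

lemma chkE7 : ChkE 7 E7 := tab7.e

/-- caps -/
def cp7 (w : ℕ) : ℤ := if w = 0 then cap0 7 else ((7 * (7 - 1) / 2 : ℕ) : ℤ) - 1

/-- even noise -/
def ne7 (w : ℕ) (V : ℤ) : Bool := if w = 0 then false else nz 7 V

lemma bal7 {lo hi : Tops P → ℕ → ℕ} {e : Tops P → ℕ → ℕ → P} (K : Ctx P r 7 lo hi e)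
    (hJ : ∃ z : P, Hul.Jn z) : ∀ w ≤ 1, ∃ V, WinB P 7 w (cp7 w) ((fun _ _ => false) w) (ne7 w)
      ((fun _ => 0) w) V := by
  intro w hw
  have : w = 0 ∨ w = 1 := by omega
  rcases this with rfl | rfl
  · exact K.win0 hJ
  · exact K.win1 (by norm_num) chkE7 (by decide +kernel) (by decide +kernel) hJ

/-- lines with `g`, by `κ` -/
def L7w : List (List ℤ) :=
  [[0], [-3, -2], [-6, -5, -4, 3], [-9, 0, 1, 2, 3], [-12, -11, -3, -2, -1, 0, 1, 2], [-6],
    [-18]]

set_option maxRecDepth 100000 in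
theorem tab7w : Tab 7 1 cp7 L7w E7 S7a S7b X0 := by
  refine ⟨by norm_num, chkE7, ?_, ?_, ?_, ?_, ?_, ?_, ?_, ?_, ?_, ?_⟩
  · decide +kernel
  · decide +kernel
  · decide +kernel
  · decide +kernel
  · decide +kernel
  · intro _ h
    exact absurd h (by norm_num)
  · decide +kernel
  · decide +kernel
  · decide +kernel
  · decide +kernel

/-- the pairs of ends which are left -/
def R7w : List ((ℕ × ℕ × ℕ) × (ℕ × ℕ × ℕ)) :=
    []

lemma rest7w : rest 7 E7 X0 (ubd 7 1 cp7 (fun _ => 0) L7w (fun _ _ => false) ne7 200 3) =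
    R7w := by
  decide +kernel

/-- **S7 for `j = 7`**, exclusion `X0`. -/
theorem left7w {lo hi : Tops P → ℕ → ℕ} {e : Tops P → ℕ → ℕ → P} (K : Ctx P r 7 lo hi e)
    {z x x' : P} (h : Cg z x x') (hl : lev z = 8) :
    ∃ s s', (s, s') ∈ R7w ∧ Dt 7 x s ∧ Dt 7 x' s' := by
  have hs : ∀ y : P, lev y = 7 → Sok 7 y := fun y hy => ⟨fun hf => by have := hf.1; omega,
    fun h12 => by omega⟩
  obtain ⟨l1, l2⟩ := h.lev_eq K.gt.H
  obtain ⟨s, s', h1, h2, h3⟩ := K.left (noP_zero 7) tab7w (bal7 K ⟨z, h.jn⟩) 200 3 h hl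
    (hs x (by omega)) (hs x' (by omega))
  rw [rest7w] at h1
  exact ⟨s, s', h1, h2, h3⟩

theorem no_join7w {lo hi : Tops P → ℕ → ℕ} {e : Tops P → ℕ → ℕ → P} (K : Ctx P r 7 lo hi e)
    {z : P} (hl : lev z = 8) : ¬ Hul.Jn z := by
  intro hz
  obtain ⟨x, x', h⟩ := K.cross hz hl
  obtain ⟨s, s', h1, -, -⟩ := left7w K h hl
  exact absurd h1 List.not_mem_nil

end Pool.Agent.GaussPoset.Sm

end

/-! From `Pool.Agent.W_448s7s_h5.SmI5` -/

section

/-!
# S7 for `j = 5`: window `0` (MP_448cb3_co)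
-/

namespace Pool.Agent.GaussPoset.Sm

set_option linter.unusedSectionVars false

open Finset Wd

universe u

variable {P : Type u} [Fintype P] [PartialOrder P] [DecidableEq P] {r : ℕ}

/-- ends -/
def E5 : List (ℕ × ℕ × ℕ) :=
    [(0, 0, 0), (1, 2, 1)]

/-- sides, one level deeper -/
def S5a : List (ℕ × ℕ × ℕ) :=
    [(0, 0, 0), (0, 0, 1), (1, 1, 0), (1, 1, 1), (1, 2, 0), (2, 3, 0), (2, 3, 1)]

/-- sides, two or more levels deeper -/
def S5b : List (ℕ × ℕ × ℕ) :=
    [(0, 0, 0), (0, 0, 1), (1, 1, 0), (1, 1, 1), (1, 1, 2), (1, 2, 0), (2, 3, 0), (2, 3, 1),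
    (2, 3, 2)]

/-- lines with `g`, by `κ` -/
def L5 : List (List ℤ) :=
  [[0], [-2], [-4, 3], [1, 2]]

theorem tab5 : Tab 5 0 (fun _ => cap0 5) L5 E5 S5a S5b X0 := by
  refine ⟨by norm_num, ?_, ?_, ?_, ?_, ?_, ?_, ?_, ?_, ?_, ?_, ?_⟩
  · decide +kernel
  · decide +kernel
  · decide +kernel
  · decide +kernel
  · decide +kernel
  · decide +kernel
  · intro _ h
    exact absurd h (by norm_num)
  · decide +kernel
  · decide +kernel
  · decide +kernel
  · decide +kernel

lemma rest5 : rest 5 E5 X0 (ubd 5 0 (fun _ => cap0 5) (fun _ => 0) L5 (fun _ _ => false)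
    (fun _ _ => false) 100 2) = [] := by
  decide +kernel

variable {lo hi : Tops P → ℕ → ℕ} {e : Tops P → ℕ → ℕ → P}

/-- **S7 for `j = 5`.** -/
theorem no_join5 (K : Ctx P r 5 lo hi e) {z : P} (hl : lev z = 6) : ¬ Hul.Jn z := by
  intro hz
  obtain ⟨x, x', h⟩ := K.cross hz hl
  have hs : ∀ y : P, lev y = 5 → Sok 5 y := fun y hy => ⟨fun hf => by have := hf.1; omega,
    fun h12 => by omega⟩
  obtain ⟨l1, l2⟩ := h.lev_eq K.gt.H
  obtain ⟨s, s', h1, -, -⟩ := K.left (noP_zero 5) tab5 (lb := fun _ => 0)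
    (nO := fun _ _ => false) (nE := fun _ _ => false)
    (fun w hw => by obtain rfl : w = 0 := by omega
                    exact K.win0 ⟨z, hz⟩) 100 2 h hl (hs x (by omega)) (hs x' (by omega))
  rw [rest5] at h1
  exact absurd h1 List.not_mem_nil

end Pool.Agent.GaussPoset.Sm

end

/-! From `Pool.Agent.W_448pg_h74.WvF` -/

section

/-!
# The window `1` for `j = 12` up to `69` (MP_448cb3_co, S7)
-/

namespace Pool.Agent.GaussPoset.Sm

set_option linter.unusedSectionVars false

open Polynomial Finset W4 Cp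

universe u

variable {P : Type u} [Fintype P] [PartialOrder P] [DecidableEq P] {r j : ℕ}
  {lo hi : Tops P → ℕ → ℕ} {e : Tops P → ℕ → ℕ → P}

theorem num1_12 : Num1 12 (12 ^ 2 + 69) := by
  constructor
  · decide +kernel
  · decide +kernel
  · intro a ha
    rcases ha with rfl | rfl
    · decide +kernel
    · decide +kernel

/-- **the balance at window `1` for `j = 12` up to `69`**, from `NoE2`, `NoP2` -/
theorem Ctx.win1e_12 (K : Ctx P r 12 lo hi e) (hE : NoE2 P 12) (hP : NoP2 P 12)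
    (hJ : ∃ z : P, Hul.Jn z) :
    ∃ V, WinB P 12 1 69 (fun V => ([] : List ℤ).elem V)
      (fun V => nz ((12 + 1 - 1 : ℕ) : ℤ) V || ([] : List ℤ).elem V) 0 V := by
  have H := K.gt.H
  have h16 := K.h16
  have hsh : ∀ t : Tops P, lo t 1 = hi t 1 ∨ RectShape 12 (lo t) (hi t) ∨
      StairShape 12 (lo t) (hi t) ∨ StairShape 12 (fun k => k - hi t k) (fun k => k - lo t k) := by
    intro t
    rcases shape_cases (K.comp t) (by omega) (K.shape t) with h | h | ⟨a, h, h3⟩
    · exact Or.inl (h 1 (by omega))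
    · exact Or.inr (by tauto)
    · left
      rw [(h.low 1 (by have := h.two; omega)).1, (h.low 1 (by have := h.two; omega)).2]
  obtain ⟨N, θ, t1, t2, hs, hu⟩ := K.types (w := 1) (by omega) hsh
  have W : Wk r 12 1 (K1 12) N (fun t => hi t 1 - lo t 1 + 1) θ :=
    { gt := K.gt, hj := by norm_num, hw1 := le_rfl, hw := by norm_num, typ := t1, top := t2
      sum_b := hs
      hK := by decide +kernel
      rdeep := fun C _ hx _ h1 h2 h3 h4 => rect_deep1 C (by norm_num) hx h1 h2 h3 h4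
      sdeep := fun h => absurd h (by norm_num) }
  have L : LkS P 12 1 (K1 12) (12 ^ 2 + 69) N (fun t => hi t 1 - lo t 1 + 1) θ
      (XL (12 + 1 - 1) []) (XL (12 + 1 - 1) []) :=
    { hK := by norm_num
      unq := hu
      nsk := fun z x x' h hl _ hn => nsk1' H (by norm_num) (by norm_num)
        (fun _ _ => by decide +kernel) h hl hn
      dj := fun v z x _ hz _ hl hzx hD => (W.deep_j1 hz hl hzx hD).elim
      dp := fun v z x _ hz hc hx hzx hl hD hR => Or.inl
        (W.dp_one (by norm_num) num1_12 hE hP hz hc hx hzx hl hD hR)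
      dt := fun x hx hD hR => Or.inl (W.dt_one (by norm_num) num1_12 hE hx hD hR) }
  have hpen : OnePen P 12 (fun t => 2 ≤ hi t 1 - lo t 1 + 1) ∨ ∃ z : P, Hul.Jn z ∧
      ful 1 z ≤ (12 + 1 - 1) ^ 2 + 5 * (12 - 1) := by
    rcases K.pen_or with h | ⟨hodd, z, x, x', h1, h2, h3, h4⟩
    · left
      intro e e' p p' hB
      refine h e e' p p' ?_
      rcases shape_cases (K.comp (topOf e)) (by omega) (K.shape (topOf e)) with h | h | ⟨a, h, h3⟩
      · have := h 1 (by omega)
        omega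
      · exact h
      · have e1 := h.low 1 (by have := h.two; omega)
        omega
    · exact absurd hodd (by norm_num)
  obtain ⟨v, M, h⟩ := W.winBS' (by norm_num) (fun _ => by norm_num) L h16 (cT := 69) (lb := 0)
    (by norm_num) (by norm_num) le_rfl (fun x hx => absurd hx List.not_mem_nil)
    (fun x hx => absurd hx List.not_mem_nil)
    (fun z x x' h _ _ hl k hk => by
      obtain rfl : k = 0 := by omega
      rw [h.sum H (by omega), nab_zero_only h.only, nab_zero_only h.only'])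
    hpen hJ
  exact ⟨_, h⟩

end Pool.Agent.GaussPoset.Sm

end
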