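import Mathlib
import Pool.Agent.W_448zz_h61.Ns
import Pool.Agent.W_448zz_h61.M081
import Pool.Agent.W_448zz_h61.M103
import Pool.Agent.W_448zz_h61.M133
import Pool.Agent.W_448zz_h61.M135

/-! From `Pool.Agent.W_448f4_h70.IA` -/

section

/-!
The cone of the cell `(A, A + 3)` of a stair at the window `2 A + 2`: order two at the energies
`≤ 2` (MP_448cb3_co, S7, windows 2, 3).
-/

namespace Pool.Agent.GaussPoset

set_option linter.unusedSectionVars false

open Polynomial Finset OrderDual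

universe u

section Cone

variable {Q : Type u} [Fintype Q] [PartialOrder Q] [DecidableEq Q]

/-- the cone of the cell `(A, A + 3)` of a stair -/
structure ConeG (Q : Type u) [Fintype Q] [PartialOrder Q] (co : Q → ℕ × ℕ) (A : ℕ) : Prop where
  inj : Function.Injective co
  le_iff : ∀ x y : Q, x ≤ y ↔ co y ≤ co x
  mem : ∀ x, (co x).1 ≤ A ∧ (co x).1 ≤ (co x).2 ∧ (co x).2 ≤ A + 3
  surj : ∀ a b, a ≤ A → a ≤ b → b ≤ A + 3 → ∃ x, co x = (a, b)

variable {co : Q → ℕ × ℕ} {A : ℕ}

lemma ConeG.lev (H : ConeG Q co A) (x : Q) : lev x = (co x).1 + (co x).2 := by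
  refine lev_co co H.le_iff (fun x hx => ?_) x
  have hdx := H.mem x
  rcases Nat.eq_zero_or_pos (co x).1 with h | h
  · have h2 : 0 < (co x).2 := by
      rcases Nat.eq_zero_or_pos (co x).2 with h3 | h3
      · exact absurd (Prod.ext h h3) hx
      · exact h3
    obtain ⟨z, hz⟩ := H.surj (co x).1 ((co x).2 - 1) (by omega) (by omega) (by omega)
    refine ⟨z, by rw [hz]; exact ⟨le_rfl, Nat.sub_le _ _⟩, ?_⟩
    rw [hz]
    simp only
    omega
  · obtain ⟨z, hz⟩ := H.surj ((co x).1 - 1) (co x).2 (by omega) (by omega) (by omega)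
    refine ⟨z, by rw [hz]; exact ⟨Nat.sub_le _ _, le_rfl⟩, ?_⟩
    rw [hz]
    simp only
    omega

/-- the dual coordinates -/
def ConeG.dc (co : Q → ℕ × ℕ) (A : ℕ) (x : Qᵒᵈ) : ℕ × ℕ :=
  (A - (co (ofDual x)).1, A + 3 - (co (ofDual x)).2)

lemma ConeG.dc_le (H : ConeG Q co A) (x y : Qᵒᵈ) :
    x ≤ y ↔ ConeG.dc co A y ≤ ConeG.dc co A x := by
  have h1 : x ≤ y ↔ ofDual y ≤ ofDual x := Iff.rfl
  rw [h1, H.le_iff]
  have hx := H.mem (ofDual x)
  have hy := H.mem (ofDual y)
  unfold ConeG.dc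
  rw [Prod.le_def, Prod.le_def]
  simp only
  omega

lemma ConeG.dc_inj (H : ConeG Q co A) : Function.Injective (ConeG.dc co A) := by
  intro x y h
  have h1 := (H.dc_le x y).2 h.symm.le
  have h2 := (H.dc_le y x).2 h.le
  exact le_antisymm h1 h2

lemma ConeG.dc_surj (H : ConeG Q co A) {a b : ℕ} (ha : a ≤ A) (hb : b ≤ A + 3)
    (hab : b ≤ 3 + a) : ∃ x, ConeG.dc co A x = (a, b) := by
  obtain ⟨x, hx⟩ := H.surj (A - a) (A + 3 - b) (by omega) (by omega) (by omega)
  refine ⟨toDual x, ?_⟩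
  unfold ConeG.dc
  rw [ofDual_toDual, hx]
  simp only
  exact Prod.ext (by simp only; omega) (by simp only; omega)

lemma ConeG.lev_dual (H : ConeG Q co A) (x : Qᵒᵈ) :
    Pool.Agent.GaussPoset.lev x = (ConeG.dc co A x).1 + (ConeG.dc co A x).2 := by
  refine lev_co (ConeG.dc co A) H.dc_le (fun x hx => ?_) x
  have hm := H.mem (ofDual x)
  have e1 : (ConeG.dc co A x).1 = A - (co (ofDual x)).1 := rfl
  have e2 : (ConeG.dc co A x).2 = A + 3 - (co (ofDual x)).2 := rfl
  by_cases h : 0 < (ConeG.dc co A x).2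
  · obtain ⟨z, hz⟩ := H.dc_surj (a := (ConeG.dc co A x).1) (b := (ConeG.dc co A x).2 - 1)
      (by omega) (by omega) (by omega)
    refine ⟨z, by rw [hz]; exact ⟨le_rfl, Nat.sub_le _ _⟩, ?_⟩
    rw [hz]
    simp only
    omega
  · have h2 : 0 < (ConeG.dc co A x).1 := by
      rcases Nat.eq_zero_or_pos (ConeG.dc co A x).1 with h3 | h3
      · exact absurd (Prod.ext h3 (by simp only; omega)) hx
      · exact h3
    obtain ⟨z, hz⟩ := H.dc_surj (a := (ConeG.dc co A x).1 - 1) (b := (ConeG.dc co A x).2)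
      (by omega) (by omega) (by omega)
    refine ⟨z, by rw [hz]; exact ⟨Nat.sub_le _ _, le_rfl⟩, ?_⟩
    rw [hz]
    simp only
    omega

lemma ConeG.pure (H : ConeG Q co A) : Pure' Q (A + (A + 3)) where
  cov := by
    intro x y hxy
    have h1 := (H.le_iff x y).1 hxy.1.le
    have hx := H.mem x
    have hy := H.mem y
    have h2 : ¬ co x ≤ co y := fun h => not_le_of_gt hxy.1 ((H.le_iff y x).2 h)
    rw [Prod.le_def] at h1 h2
    rw [H.lev, H.lev]
    have key : ∀ a b, a ≤ A → a ≤ b → b ≤ A + 3 → co y ≤ (a, b) → (a, b) ≤ co x →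
        a + b + 1 = (co x).1 + (co x).2 → (co x).1 + (co x).2 = (co y).1 + (co y).2 + 1 := by
      intro a b g1 g2 g3 g4 g5 g6
      obtain ⟨z, hz⟩ := H.surj a b g1 g2 g3
      have h3 : x ≤ z := (H.le_iff x z).2 (by rw [hz]; exact g5)
      have h4 : z ≤ y := (H.le_iff z y).2 (by rw [hz]; exact g4)
      have h5 : x < z := by
        refine lt_of_le_of_ne h3 ?_
        rintro rfl
        rw [hz] at g6
        simp only at g6
        omega
      have h6 : z = y := by
        by_contra h7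
        exact hxy.2 h5 (lt_of_le_of_ne h4 h7)
      rw [← h6, hz]
      simp only
      omega
    by_cases h3 : (co y).1 < (co x).1
    · exact key ((co x).1 - 1) (co x).2 (by omega) (by omega) (by omega)
        ⟨by simp only; omega, h1.2⟩ ⟨Nat.sub_le _ _, le_rfl⟩ (by omega)
    · exact key (co x).1 ((co x).2 - 1) (by omega) (by omega) (by omega)
        ⟨h1.1, by simp only; omega⟩ ⟨le_rfl, Nat.sub_le _ _⟩ (by omega)
  le := by
    intro x
    have := H.mem x
    rw [H.lev]
    omega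
  dual := by
    intro x
    have := H.mem x
    rw [H.lev_dual, H.lev]
    unfold ConeG.dc
    simp only [ofDual_toDual]
    omega

/-- **The cone of the cell `(A, A + 3)` of a stair has order two at the window `2 A + 2`.** -/
theorem ConeG.dvd (H : ConeG Q co A) (hA : 2 ≤ A) {n : ℕ} (hn : n ≤ 2) :
    (1 + X : ℤ[X]) ^ 2 ∣ Z Q (A + (A + 3) - 1) n := by
  classical
  refine dvd_Z_dual H.pure (by omega) ?_
  have e0 : A + (A + 3) - (A + (A + 3) - 1) = 1 := by omega
  rw [e0]
  set D : Finset Qᵒᵈ := univ.filter (fun x : Qᵒᵈ => (co (ofDual x)).2 < A) with hDdef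
  have hmD : ∀ x : Qᵒᵈ, x ∈ D ↔ (co (ofDual x)).2 < A := by
    intro x
    rw [hDdef, mem_filter]
    exact ⟨fun h => h.2, fun h => ⟨mem_univ _, h⟩⟩
  have hDl : ∀ x y : Qᵒᵈ, x ≤ y → y ∈ D → x ∈ D := by
    intro x y hxy hy
    rw [hmD] at hy ⊢
    have h1 : ofDual y ≤ ofDual x := hxy
    rw [H.le_iff, Prod.le_def] at h1
    omega
  have hlev : ∀ x ∈ D, 1 < Pool.Agent.GaussPoset.lev x := by
    intro x hx
    rw [hmD] at hx
    rw [H.lev_dual]
    unfold ConeG.dc
    simp only
    omega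
  rw [Z_cut hDl hlev ?_]
  · refine young_trunc (fun x : {x : Qᵒᵈ // x ∉ D} => ConeG.dc co A x) ?_ ?_ ?_ (i := 1) (k := 2)
      (J := 2) (by omega) (by omega) ?_ (by omega)
    · intro x y h
      exact Subtype.ext (H.dc_inj h)
    · intro x y
      exact H.dc_le x y
    · intro x c hc
      have h1 := x.2
      rw [hmD] at h1
      rw [Prod.le_def] at hc
      have hm := H.mem (ofDual (x : Qᵒᵈ))
      have e1 : (ConeG.dc co A (x : Qᵒᵈ)).1 = A - (co (ofDual (x : Qᵒᵈ))).1 := rfl
      have e2 : (ConeG.dc co A (x : Qᵒᵈ)).2 = A + 3 - (co (ofDual (x : Qᵒᵈ))).2 := rfl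
      obtain ⟨y, hy⟩ := H.dc_surj (a := c.1) (b := c.2) (by omega) (by omega) (by omega)
      have e3 : (ConeG.dc co A y).2 = A + 3 - (co (ofDual y)).2 := rfl
      refine ⟨⟨y, ?_⟩, by rw [hy]⟩
      rw [hmD]
      rw [hy] at e3
      omega
    · intro s c hs hc _
      obtain ⟨y, hy⟩ := H.dc_surj (a := s) (b := c) (by omega) (by omega) (by omega)
      have e3 : (ConeG.dc co A y).2 = A + 3 - (co (ofDual y)).2 := rfl
      refine ⟨⟨y, ?_⟩, by rw [hy]⟩
      rw [hmD]
      rw [hy] at e3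
      simp only at e3
      omega
  · intro z hz
    rw [hmD] at hz
    have hmz := H.mem (ofDual z)
    rw [ncone_eq]
    have h1 : ({(0, 2), (0, 3), (1, 1)} : Finset (ℕ × ℕ)) ⊆
        (univ.filter (fun x : Qᵒᵈ => z ≤ x ∧ 1 < Pool.Agent.GaussPoset.lev x)).image
          (ConeG.dc co A) := by
      intro c hc
      have hcc : c = (0, 2) ∨ c = (0, 3) ∨ c = (1, 1) := by
        simpa using hc
      obtain ⟨y, hy⟩ := H.dc_surj (a := c.1) (b := c.2)
        (by rcases hcc with rfl | rfl | rfl <;> simp only <;> omega)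
        (by rcases hcc with rfl | rfl | rfl <;> simp only <;> omega)
        (by rcases hcc with rfl | rfl | rfl <;> simp only <;> omega)
      rw [mem_image]
      refine ⟨y, ?_, hy⟩
      rw [mem_filter]
      refine ⟨mem_univ _, ?_, ?_⟩
      · rw [H.dc_le, hy, Prod.le_def]
        unfold ConeG.dc
        rcases hcc with rfl | rfl | rfl <;> simp only <;> omega
      · rw [H.lev_dual, hy]
        rcases hcc with rfl | rfl | rfl <;> simp only <;> omega
    have h2 := card_le_card h1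
    have h3 : ({(0, 2), (0, 3), (1, 1)} : Finset (ℕ × ℕ)).card = 3 := by decide
    rw [h3] at h2
    exact lt_of_lt_of_le (by omega) (h2.trans card_image_le)

end Cone

namespace F4

variable {P : Type u} [Fintype P] [PartialOrder P] [DecidableEq P]

/-- the cone of `x` is the cone of the cell `(A, A + 3)` of a stair -/
structure ConeAtG (x : P) (co : P → ℕ × ℕ) (A : ℕ) : Prop where
  le_iff : ∀ y z, x ≤ y → x ≤ z → (y ≤ z ↔ co z ≤ co y)
  mem : ∀ y, x ≤ y → (co y).1 ≤ A ∧ (co y).1 ≤ (co y).2 ∧ (co y).2 ≤ A + 3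
  surj : ∀ a b, a ≤ A → a ≤ b → b ≤ A + 3 → ∃ y, x ≤ y ∧ co y = (a, b)

variable {p : P → Prop} [DecidablePred p]

/-- **order two of a part with the full bound at the cell `(A, A + 3)`, for own energies at most
2** -/
theorem part_coneG (hp : ∀ x y, x ≤ y → p x → p y) {i h A : ℕ} {x : P} (hx : p x)
    {co : P → ℕ × ℕ} (C : ConeAtG x co A) (hih : i + h = A + (A + 3) - 1) (hA : 2 ≤ A)
    (hh : 3 ≤ h) (hlow : ∀ y, p y → lev y ≤ i + 2 → x ≤ y)
    {B : {x // p x} → ℕ} (hB : ∀ y, B y ≤ h) (hBx : B ⟨x, hx⟩ = h) {n : ℕ}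
    (hn : n ≤ Efs i h x x + 2) : (1 + X : ℤ[X]) ^ 2 ∣ ZB (P := {x // p x}) i ∅ 0 B n := by
  classical
  refine ZB_dvd_upL (m := Efs i h x x + 2) hB (fun L hL hBL c hc => ?_) hn
  have hl : ∀ x : {x // p x}, lev x = lev (x : P) := lev_subtype hp
  have hxL : (⟨x, hx⟩ : {x // p x}) ∈ L := hBL _ hBx
  have hsum : ∑ x ∈ L, min h (lev x - i) =
      ∑ y ∈ L.map (Function.Embedding.subtype p), min h (lev y - i) := by
    rw [Finset.sum_map]
    refine Finset.sum_congr rfl fun x _ => ?_
    rw [hl]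
    rfl
  rw [hsum] at hc
  have hsub : univ.filter (fun y : P => x ≤ y ∨ x ≤ y) ⊆
      L.map (Function.Embedding.subtype p) := by
    intro y hy
    rw [mem_filter, or_self] at hy
    rw [mem_map]
    exact ⟨⟨y, hp _ _ hy.2 hx⟩, hL ⟨x, hx⟩ _ hy.2 hxL, rfl⟩
  have hE : Efs i h x x ≤ ∑ y ∈ L.map (Function.Embedding.subtype p), min h (lev y - i) := by
    unfold Efs
    exact Finset.sum_le_sum_of_subset hsub
  have hall : ∀ y ∈ L, x ≤ (y : P) := by
    intro y hy
    by_contra hcon
    have h3 : i + 2 < lev (y : P) := by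
      by_contra h4
      exact hcon (hlow y y.2 (not_lt.mp h4))
    have h5 : insert (y : P) (univ.filter (fun y : P => x ≤ y ∨ x ≤ y)) ⊆
        L.map (Function.Embedding.subtype p) := by
      intro z hz
      rw [mem_insert] at hz
      rcases hz with rfl | hz
      · rw [mem_map]; exact ⟨y, hy, rfl⟩
      · exact hsub hz
    have h6 := Finset.sum_le_sum_of_subset (f := fun y : P => min h (lev y - i)) h5
    rw [Finset.sum_insert (by
      rw [mem_filter, or_self]
      exact fun h => hcon h.2)] at h6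
    have h7 : Efs i h x x = ∑ y ∈ univ.filter (fun y : P => x ≤ y ∨ x ≤ y), min h (lev y - i) := by
      unfold Efs
      rfl
    have h8 : 2 < min h (lev (y : P) - i) := by
      rw [lt_min_iff]
      omega
    omega
  have hc2 : c ≤ 2 := by omega
  have hmemL : ∀ y (hy : x ≤ y), (⟨y, hp _ _ hy hx⟩ : {x // p x}) ∈ L := fun y hy =>
    hL ⟨x, hx⟩ _ hy hxL
  have H : ConeG {y // y ∈ L} (fun y => co (y : {x // p x})) A := by
    refine ⟨?_, ?_, ?_, ?_⟩
    · intro y z hyz
      simp only at hyz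
      have h1 := (C.le_iff _ _ (hall _ y.2) (hall _ z.2)).2 hyz.ge
      have h2 := (C.le_iff _ _ (hall _ z.2) (hall _ y.2)).2 hyz.le
      exact Subtype.ext (Subtype.ext (le_antisymm h1 h2))
    · intro y z
      exact C.le_iff _ _ (hall _ y.2) (hall _ z.2)
    · intro y
      exact C.mem _ (hall _ y.2)
    · intro a b h1 h2 h3
      obtain ⟨y, hy, hco⟩ := C.surj a b h1 h2 h3
      exact ⟨⟨⟨y, hp _ _ hy hx⟩, hmemL y hy⟩, hco⟩
  rw [hih]
  exact H.dvd hA hc2

end F4

end Pool.Agent.GaussPoset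

end

/-! From `Pool.Agent.W_448f4_h70.IB` -/

section

/-!
# The flips: pendants below the cell `(A, A + 3)` of level `j`; the far window theorem with the
larger labels (MP_448cb3_co, S7, windows 2, 3)
-/

namespace Pool.Agent.GaussPoset.Sm

set_option linter.unusedSectionVars false

open Polynomial Finset

universe u

variable {P : Type u} [Fintype P] [PartialOrder P] [DecidableEq P] {r j w K : ℕ}
  {N : Tops P → Finset P} {b : Tops P → ℕ} {θ : Tops P → P → ℕ}

/-- the double next to the fold, `j` odd -/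
structure FlpC (j w : ℕ) (N : Tops P → Finset P) (b : Tops P → ℕ) (θ : Tops P → P → ℕ)
    (x : P) (Nc : Finset P) (co : P → ℕ × ℕ) : Prop where
  nat : StairNat j w (topOf x) Nc co
  hN : N (topOf x) = natS Nc co
  hb : b (topOf x) = 2
  mem : x ∈ Nc
  co_eq : co x = ((j - 3) / 2, (j - 3) / 2 + 3)
  odd : j % 2 = 1
  th : θ (topOf x) x + 2 + w = j

lemma FlpC.lev {x : P} {Nc : Finset P} {co : P → ℕ × ℕ} (C : FlpC j w N b θ x Nc co)
    (hj : 3 ≤ j) : lev x = j := by
  have := C.nat.chart.lev x C.mem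
  rw [C.co_eq] at this
  have := C.odd
  simp only at *
  omega

/-- ancestors of the double next to the fold -/
lemma FlpC.nab {x : P} {Nc : Finset P} {co : P → ℕ × ℕ} (C : FlpC j w N b θ x Nc co)
    (hj : 3 ≤ j) {k : ℕ} (hk : k ≤ j) :
    nab k x + (k - (j + 3) / 2) = min (k / 2) ((j - 3) / 2) + 1 := by
  have hl := C.lev hj
  have ho := C.odd
  have := stair_nab C.nat.chart C.mem (k := k) (by omega)
  rw [C.co_eq] at this
  simp only at this
  rw [show (j - 3) / 2 + 3 = (j + 3) / 2 by omega] at this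
  exact this

/-- the cone of the double next to the fold -/
lemma FlpC.cone {x : P} {Nc : Finset P} {co : P → ℕ × ℕ} (C : FlpC j w N b θ x Nc co) :
    F4.ConeAtG x co ((j - 3) / 2) := by
  have hC := C.nat.chart
  have hin : ∀ y, x ≤ y → y ∈ Nc := fun y hy => hC.up x C.mem y hy
  refine ⟨fun y z hy hz => hC.le_iff y (hin y hy) z (hin z hz), fun y hy => ?_,
    fun a b h1 h2 h3 => ?_⟩
  · have h1 := (hC.le_iff x C.mem y (hin y hy)).mp hy
    rw [C.co_eq, Prod.le_def] at h1
    have h2 : (co y).1 ≤ (co y).2 := hC.mem y (hin y hy)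
    exact ⟨h1.1, h2, h1.2⟩
  · obtain ⟨y, hy, hcy⟩ := hC.low x C.mem (a, b) (by
      rw [C.co_eq]
      exact ⟨h1, h3⟩) h2
    refine ⟨y, ?_, hcy⟩
    rw [hC.le_iff x C.mem y hy, hcy, C.co_eq]
    exact ⟨h1, h3⟩

/-- the elements of small level in the part are above it -/
lemma FlpC.above {x : P} {Nc : Finset P} {co : P → ℕ × ℕ} (C : FlpC j w N b θ x Nc co)
    (hw : w ≤ 3) (hj : 7 ≤ j) {z : P} (hz : topOf z = topOf x)
    (hlz : Pool.Agent.GaussPoset.lev z ≤ w + 2) : x ≤ z := by
  have ho := C.odd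
  have hzN : z ∈ Nc := by
    refine C.nat.strip (mem_lowPart.mpr ⟨?_, by omega⟩)
    rw [← hz]
    exact le_topOf z
  have h1 := C.nat.chart.lev z hzN
  have h2 : (co z).1 ≤ (co z).2 := C.nat.chart.mem z hzN
  rw [C.nat.chart.le_iff x C.mem z hzN, C.co_eq]
  exact ⟨by simp only; omega, by simp only; omega⟩

/-- the flips -/
def PenF (j w : ℕ) (N : Tops P → Finset P) (b : Tops P → ℕ) (θ : Tops P → P → ℕ) (z : P) : Prop :=
  z ∈ rA N ∧ ∃ x, z ⋖ x ∧ (∀ y, z ⋖ y → y = x) ∧ ∃ Nc co, FlpC j w N b θ x Nc co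

/-- data of a flip -/
theorem Wk.penF (W : Wk r j w K N b θ) {z : P} (hz : PenF j w N b θ z) :
    hA N θ z = j - w - 1 ∧ lev z = j + 1 ∧ z ∈ bdR (rA N) ∧ j % 2 = 1 := by
  obtain ⟨h1, x, h3, h4, Nc, co, C⟩ := hz
  have H := W.gt.H
  have hj := W.hj
  have e1 := (H.covBy_iff.mp h3).2
  have e3 := C.lev (by omega)
  have hx : x ∉ unnat N := W.low (by omega)
  have hbs : GaussPoset.bs N x = x := by
    unfold GaussPoset.bs
    rw [if_neg (W.not_tw hx)]
  have hbd : z ∈ bdR (rA N) := mem_bdR.mpr ⟨h1, x, not_mem_rA.mpr (Or.inl hx), h3⟩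
  obtain ⟨x0, f1, f2, f3⟩ := W.hA_spec hbd
  have e4 := h4 x0 f2
  subst e4
  rw [hbs] at f3
  have := C.th
  exact ⟨by omega, by omega, hbd, C.odd⟩

open Classical in
/-- the labels: one more below the special cells and for the flips, full below both ends of a
stair -/
noncomputable def hT (j w : ℕ) (N : Tops P → Finset P) (b : Tops P → ℕ) (θ : Tops P → P → ℕ)
    (z : P) : ℕ :=
  if PenF j w N b θ z then hA N θ z + 1 else hS j w N b θ z

lemma hT_of {z : P} (h : PenF j w N b θ z) : hT j w N b θ z = hA N θ z + 1 := if_pos h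

lemma hT_not {z : P} (h : ¬ PenF j w N b θ z) : hT j w N b θ z = hS j w N b θ z := if_neg h

lemma Wk.penF_not (W : Wk r j w K N b θ) {z : P} (hz : lev z ≠ j + 1) : ¬ PenF j w N b θ z :=
  fun h => hz (W.penF h).2.1

/-- the part of a flip -/
theorem Wk.bigF (W : Wk r j w K N b θ) (h7 : 7 ≤ j) {n0 : ℕ} {g : P → ℕ}
    {x z : P} (hz : z ∈ unnat N \ twA N) (hzx : z ⋖ x) (hzS : PenF j w N b θ z)
    (hgz : g z = j - w - 1)
    (hCc : n0 ≤ cst w (fun _ => j - w) z) {m : ℕ}
    (hm : m + ∑ x ∈ unnat N \ twA N, g x ≤ n0) :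
    (1 + X : ℤ[X]) ^ (b (topOf x)) ∣
      ZB (P := {y : P // y ∉ unnat N \ twA N ∧ topOf y = topOf x}) w ∅ 0
        (fun y => by classical exact ((unnat N \ twA N).filter (fun z => z ⋖ (y : P))).sup g) m := by
  classical
  have H := W.gt.H
  have HN := W.natSys
  have hj := W.hj
  have hw := W.hw
  obtain ⟨-, x1, h2, h4, Nc, co, C⟩ := hzS
  have hxx := h4 x hzx
  subst hxx
  have q2 := C.lev (by omega)
  have ho := C.odd
  have e1 := (H.covBy_iff.mp hzx).2
  have h1 : x ∉ unnat N \ twA N := not_mem_rA.mpr (Or.inl (W.low (by omega)))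
  rw [C.hb]
  set k := j - w - 1 with hk
  have hn0 : n0 ≤ F4.Efs w k x x + k + 2 := by
    rw [← cst_pen hzx h4 (by omega) (by omega), show k + 1 = j - w by omega]
    exact hCc
  have hsz : k ≤ ∑ x ∈ unnat N \ twA N, g x := by
    rw [← hgz]
    exact Finset.single_le_sum (f := g) (fun _ _ => Nat.zero_le _) hz
  have hp : ∀ x' y : P, x' ≤ y → (x' ∉ unnat N \ twA N ∧ topOf x' = topOf x) →
      (y ∉ unnat N \ twA N ∧ topOf y = topOf x) :=
    pg_part_up (W.twSys.lower HN.lower) (W.twSys.cp' HN.cp)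
  have hBx : k ≤ ((unnat N \ twA N).filter (fun z => z ⋖ x)).sup g := by
    rw [← hgz]
    exact Finset.le_sup (f := g) (mem_filter.mpr ⟨hz, hzx⟩)
  by_cases hbigz : ∃ z' ∈ unnat N \ twA N, k < g z'
  · obtain ⟨z', hz', hk'⟩ := hbigz
    have hne' : z' ≠ z := by
      rintro rfl
      omega
    have h8 : g z + g z' ≤ ∑ x ∈ unnat N \ twA N, g x := by
      rw [← Finset.sum_pair (f := g) hne'.symm]
      refine Finset.sum_le_sum_of_subset ?_
      intro y hy
      rw [mem_insert, mem_singleton] at hy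
      rcases hy with rfl | rfl
      · exact hz
      · exact hz'
    rw [F4.part_zero hp (i := w) (k := k) (f := x) (s := x) ⟨h1, rfl⟩ ⟨h1, rfl⟩ hBx hBx (by omega)]
    exact dvd_zero _
  · push Not at hbigz
    have hBle : ∀ y : P, ((unnat N \ twA N).filter (fun z => z ⋖ y)).sup g ≤ k := by
      intro y
      refine Finset.sup_le fun z' hz' => ?_
      exact hbigz z' (mem_filter.mp hz').1
    exact F4.part_coneG hp (i := w) (h := k) (x := x) ⟨h1, rfl⟩ C.cone (by omega) (by omega)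
      (by omega) (fun y hy hly => C.above hw h7 hy.2 hly) (fun y => hBle y)
      (le_antisymm (hBle x) hBx) (by omega)

/-- **The far window theorem with the larger labels and flips.** -/
theorem Wk.farT (W : Wk r j w K N b θ) (h7 : 7 ≤ j) (h12 : j % 2 = 0 → 12 ≤ j) (hw2 : 2 ≤ w)
    (n0 : ℕ)
    (hcost : ∀ x ∈ twA N, n0 ≤ tcS j w N b θ x)
    (hbd : ∀ z ∈ bdR (rA N), n0 ≤ cst w (hT j w N b θ) z) :
    FarV P w (rA N) (lv P w).card (hT j w N b θ)
      (∑ x ∈ (twA N).filter (fun x => tcS j w N b θ x = n0), TmS j w N b θ x) n0 := by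
  classical
  have H := W.gt.H
  have HN := W.natSys
  have hj := W.hj
  have hw := W.hw
  have F := W.farS0 h7 n0 hcost
  choose B hB using fun t => (W.top t).natTop H.gradedBelow
  have hCl : ∀ z, CEl j w N θ z → hA N θ z = j - w - 1 ∧ lev z = j + 1 ∧ j % 2 = 0 := by
    intro z hz
    obtain ⟨h1, h2, f, s, h3, h4, h5, h6, h7⟩ := hz
    obtain ⟨Nc, co, C⟩ := W.fold_cell hw2 h1 h2 h3 h4 h5 h7
    exact ⟨W.hA_fold C h1 h2 h3 h4 h5, h2, C.ev⟩
  have hspec : ∀ z, (PenS j w N b θ z ∧ hA N θ z = j - w ∧ lev z = j + 2 ∧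
      hT j w N b θ z = j - w + 1) ∨
      (PenF j w N b θ z ∧ hA N θ z = j - w - 1 ∧ lev z = j + 1 ∧ hT j w N b θ z = j - w) ∨
      ((CEl j w N θ z ∧ j % 2 = 0) ∧ hA N θ z = j - w - 1 ∧
        lev z = j + 1 ∧ hT j w N b θ z = lev z - w) ∨ hT j w N b θ z = hA N θ z := by
    intro z
    by_cases h0 : PenF j w N b θ z
    · obtain ⟨a1, a2, a3, a4⟩ := W.penF h0
      exact Or.inr (Or.inl ⟨h0, a1, a2, by rw [hT_of h0, a1]; omega⟩)
    · by_cases h1 : PenS j w N b θ z
      · obtain ⟨a1, a2, a3⟩ := W.penS h1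
        exact Or.inl ⟨h1, a1, a2, by rw [hT_not h0, hS_of h1, a1]⟩
      · right; right
        by_cases h2 : CEl j w N θ z
        · obtain ⟨a1, a2, a3⟩ := hCl z h2
          exact Or.inl ⟨⟨h2, a3⟩, a1, a2, by rw [hT_not h0, hS_not h1, hC_of h2]⟩
        · exact Or.inr (by rw [hT_not h0, hS_not h1, hC_not h2])
  have F' : FarV P w (unnat N \ twA N) (∑ t, b t)
      (hcan (unnat N \ twA N) (thX (twA N) (twT N) (fun x => θ (topOf x) x)))
      (∑ x ∈ (twA N).filter (fun x => tcS j w N b θ x = n0), TmS j w N b θ x) n0 := by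
    rw [W.sum_b]
    exact F
  have key := farV_big (B := B) hB W.twSys n0 (j - w - 1) F' (fun x hx => W.twn hx) ?_
    (hT j w N b θ) ?_ ?_ ?_ ?_
  · rw [W.sum_b] at key
    exact key
  · intro x hx
    have h1 := hcost x hx
    show n0 < tcst w (thA N θ) (twT N x, x) + (j - w - 1)
    by_cases hs : Spc j w N b θ (twT N x)
    · rw [W.tcS_spc hx hs] at h1
      omega
    · unfold tcS at h1
      rw [if_neg hs] at h1
      omega
  · intro z _
    show hA N θ z ≤ hT j w N b θ z
    rcases hspec z with ⟨-, h1, -, h2⟩ | ⟨-, h1, h3, h2⟩ | ⟨-, h1, h3, h2⟩ | h1 <;> omega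
  · intro z _ hlt
    have hlt' : hA N θ z < hT j w N b θ z := hlt
    show j - w - 1 ≤ hA N θ z
    rcases hspec z with ⟨-, h1, -, h2⟩ | ⟨-, h1, h3, h2⟩ | ⟨-, h1, h3, h2⟩ | h1 <;> omega
  · intro z hz
    have h0 : hA N θ z ≤ lev z - w := F.le_lev z hz
    rcases hspec z with ⟨-, h1, h3, h2⟩ | ⟨-, h1, h3, h2⟩ | ⟨-, h1, h3, h2⟩ | h1 <;> omega
  · intro g g0 hg x z hx hz hzx hlt m hm
    have hzb : z ∈ bdR (unnat N \ twA N) := mem_bdR.mpr ⟨hz, x, hx, hzx⟩
    have hlt' : thA N θ x < g z := hlt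
    have hle : hA N θ z ≤ thA N θ x + 1 := hcan_le hx hzx
    have hgz := hg z hzb
    have hcz := hbd z hzb
    rw [cst_const w (hT j w N b θ) z] at hcz
    rcases hspec z with ⟨h0, h1, h3, h2⟩ | ⟨h0, h1, h3, h2⟩ | ⟨h0, h1, h3, h2⟩ | h1
    · rw [h2] at hcz hgz
      exact W.bigS (by omega) hz hzx h0 (by omega) hcz hm
    · rw [h2] at hcz hgz
      exact W.bigF (by omega) hz hzx h0 (by omega) hcz hm
    · rw [h2] at hcz hgz
      exact W.bigC (h12 h0.2) hw2 hz hzx h0.1 (by omega) hgz hcz hm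
    · omega

end Pool.Agent.GaussPoset.Sm

end

/-! From `Pool.Agent.W_448f4_h70.IC` -/

section

/-!
# The windows `2`, `3` with the larger labels and flips: outcomes (MP_448cb3_co, S7)
-/

namespace Pool.Agent.GaussPoset.Sm

set_option linter.unusedSectionVars false

open Polynomial Finset

universe u

variable {P : Type u} [Fintype P] [PartialOrder P] [DecidableEq P] {r j w K0 K : ℕ}
  {N : Tops P → Finset P} {b : Tops P → ℕ} {θ : Tops P → P → ℕ} {XE XO BE YE YO : ℕ → Prop}

/-- the minimality hypotheses for the larger labels with flips -/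
structure MnT (j w : ℕ) (N : Tops P → Finset P) (b : Tops P → ℕ) (θ : Tops P → P → ℕ) (v : ℕ) :
    Prop where
  bd : ∀ z ∈ bdR (rA N), v ≤ cst w (hT j w N b θ) z
  tw : ∀ x ∈ twA N, v ≤ tcS j w N b θ x

/-- no own elements of cost in `BE` -/
structure HkT (P : Type u) [Fintype P] [PartialOrder P] [DecidableEq P] (j w K : ℕ)
    (N : Tops P → Finset P) (b : Tops P → ℕ) (θ : Tops P → P → ℕ) (BE : ℕ → Prop) : Prop where
  br : ∀ (v a : ℕ) (z x : P), MnT j w N b θ v → z ∈ bdR (rA N) → cst w (hA N θ) z = v →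
    BE v → v ≤ K → z ⋖ x → (∀ y, z ⋖ y → y = x) → Row1 j w N θ x → lev x = w + a →
    v = a ^ 2 + a → False
  bo : ∀ (v : ℕ) (z : P), MnT j w N b θ v → z ∈ bdR (rA N) → cst w (hA N θ) z = v →
    BE v → v ≤ K → (∀ x, z ⋖ x → x ∉ unnat N ∧ Str w N θ x) →
    (∀ x x', z ⋖ x → z ⋖ x' → topOf x = topOf x') → hA N θ z = lev z - w → False
  bt : ∀ (v a : ℕ) (x : P), MnT j w N b θ v → x ∈ twA N → tcS j w N b θ x = v → BE v → v ≤ K →
    Row1 j w N θ (twT N x) → lev x = w + a → v + 1 = a ^ 2 + a → False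

/-- the remaining inputs at window `w`, larger labels, without own elements at the values `BE` -/
structure LkT (P : Type u) [Fintype P] [PartialOrder P] [DecidableEq P] (j w K0 K : ℕ)
    (N : Tops P → Finset P) (b : Tops P → ℕ) (θ : Tops P → P → ℕ) (XE XO BE : ℕ → Prop) :
    Prop where
  hK : 2 * K < 3 * (j + 1 - w) ^ 2 + 3 * (j + 1 - w)
  unq : Unq P w b
  nsk : ∀ z x x' : P, Cg z x x' → j + 1 ≤ lev z → nab w x = 1 → ¬ Sok j x → K < ful w z
  dj : ∀ (v : ℕ) (z x : P), MnT j w N b θ v → z ∈ bdR (rA N) → cst w (hT j w N b θ) z = v →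
    lev z = j + 1 → z ⋖ x → Dk j w K0 N θ x → OutG j w K XE XO (hT j w N b θ) z v
  dp : ∀ (v : ℕ) (z x : P), MnT j w N b θ v → z ∈ bdR (rA N) → cst w (hT j w N b θ) z = v →
    x ∉ rA N → z ⋖ x → j + 1 ≤ lev x → Dk j w K0 N θ (GaussPoset.bs N x) →
    ¬ Row1 j w N θ (GaussPoset.bs N x) → OutG j w K XE XO (hT j w N b θ) z v
  dt : ∀ x ∈ twA N, Dk j w K0 N θ (twT N x) → ¬ Row1 j w N θ (twT N x) →
    OutTG j w K XE XO N b θ x
  hk : HkT P j w K N b θ BE

/-- the labels are the canonical ones without deep covers -/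
lemma Wk.hT_eq (W : Wk r j w K0 N b θ) (hw2 : 2 ≤ w) {z : P}
    (hnd : ∀ x, x ∉ rA N → z ⋖ x → Dk j w K0 N θ (GaussPoset.bs N x) →
      Row1 j w N θ (GaussPoset.bs N x)) :
    hT j w N b θ z = hA N θ z := by
  have hp : ¬ PenF j w N b θ z := by
    rintro ⟨-, x, h3, h4, Nc, co, C⟩
    have hj := W.hj
    have hl := C.lev (by omega)
    have hth := C.th
    have hx : x ∉ unnat N := W.low (by omega)
    have hbs : GaussPoset.bs N x = x := by
      unfold GaussPoset.bs
      rw [if_neg (W.not_tw hx)]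
    suffices h : Dk j w K0 N θ x by
      have h8 := (hbs ▸ hnd x (not_mem_rA.mpr (Or.inl hx)) h3 (hbs.symm ▸ h)).th
      omega
    rcases W.cases hx (by omega) with h | h | h
    · have := h.th
      omega
    · have := h.th
      omega
    · exact h
  rw [hT_not hp]
  exact W.hS_eq hw2 hnd

/-- the labels are positive -/
lemma hT_pos (W : Wk r j w K0 N b θ) {z : P} (hz : z ∈ bdR (rA N)) : 1 ≤ hT j w N b θ z := by
  by_cases hp : PenF j w N b θ z
  · rw [hT_of hp]; omega
  · rw [hT_not hp]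
    exact hS_pos W hz

/-- a cheapest boundary element without deep covers is flat -/
theorem Wk.flatT (W : Wk r j w K0 N b θ) (hw2 : 2 ≤ w) {v : ℕ} (M : MnT j w N b θ v) {z : P}
    (hz : z ∈ bdR (rA N)) (hc : cst w (hT j w N b θ) z = v)
    (hnd : ∀ x, x ∉ rA N → z ⋖ x → Dk j w K0 N θ (GaussPoset.bs N x) →
      Row1 j w N θ (GaussPoset.bs N x)) :
    Flat j w N θ z ∧ lev z ≤ hA N θ z + 1 + w := by
  have H := W.gt.H.gradedBelow
  have hj := W.hj
  have hw := W.hw
  have hlz := W.bd_lev hz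
  have hSA := W.hT_eq hw2 hnd
  have hc' : cst w (hA N θ) z = v := by
    rw [← hc, cst_const w (hA N θ) z, cst_const w (hT j w N b θ) z, hSA]
  have hkd : ∀ x, x ∉ rA N → z ⋖ x → Str w N θ (GaussPoset.bs N x) ∨
      Row1 j w N θ (GaussPoset.bs N x) := by
    intro x hx hzx
    have g6 := W.bs hx
    have e1 := H.lev_covBy hzx
    have e3 := g6.lev
    rcases W.cases g6.nat (by omega) with h | h | h
    · exact Or.inl h
    · exact Or.inr h
    · exact Or.inr (hnd x hx hzx h)
  have hge : lev z ≤ hA N θ z + 1 + w := by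
    obtain ⟨x0, g1, g2, g3⟩ := W.hA_spec hz
    have g7 := W.bs g1
    have e2 := H.lev_covBy g2
    have e4 := g7.lev
    rcases hkd x0 g1 g2 with h | h
    · have := h.th
      omega
    · have := h.th
      omega
  refine ⟨?_, hge⟩
  intro x hzx
  have hxR : x ∉ rA N := by
    refine no_cover_of_min H (fun x hx => ?_) M.bd (fun z hz => hT_pos W hz) hz hc
      (by omega) hzx
    have := W.lt_lev (mem_rA.mp hx).1
    omega
  have hxt : x ∉ twA N := by
    intro hxt
    have e1 := H.lev_covBy hzx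
    obtain ⟨g1, g2⟩ := W.tw_cases hxt
    have hbs : GaussPoset.bs N x = twT N x := by
      unfold GaussPoset.bs
      rw [if_pos hxt]
    have g6 := W.bs hxR
    rw [hbs] at g6
    have hR : Row1 j w N θ (twT N x) := by
      rcases g2 with h | h
      · exact h
      · exact hbs ▸ hnd x hxR hzx (hbs.symm ▸ h)
    have hns : ¬ Spc j w N b θ (twT N x) := by
      rintro ⟨Nc, co, C⟩
      have := C.th
      have := C.lev (by omega)
      have := hR.th
      omega
    obtain ⟨a, ha⟩ : ∃ a, lev x = w + a := ⟨lev x - w, by have := g6.lev; omega⟩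
    have g7 := W.tcst_row1 hxt hR ha
    have g8 := M.tw x hxt
    unfold tcS at g8
    rw [if_neg hns] at g8
    have g9 := cst_step (i := w) (h := hA N θ) H hzx (by omega)
    have g10 : ful w x = a ^ 2 := ful_two ha (fun k hk1 hk2 => by
      have := hR.nab k hk1.le (by rw [g6.lev]; exact hk2)
      rcases g6.nab k with h | h
      · rw [← h]; exact this
      · omega)
    rw [g10, hc'] at g9
    have : a ≤ min (hA N θ z) (lev z - w) := by
      rw [Nat.le_min]
      omega
    omega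
  rcases not_mem_rA.mp hxR with h | h
  · have hbs : GaussPoset.bs N x = x := by
      unfold GaussPoset.bs
      rw [if_neg hxt]
    have := hkd x hxR hzx
    rw [hbs] at this
    exact ⟨h, this⟩
  · exact absurd h hxt

/-- the outcomes for a cheapest boundary element -/
theorem Wk.outF (W : Wk r j w K0 N b θ) (hw2 : 2 ≤ w)
    (L : LkT P j w K0 K N b θ XE XO BE) {v : ℕ}
    (hP : OnePen P j (fun t => 2 ≤ b t) ∨ v ≤ (j + 1 - w) ^ 2 + 5 * (j - w))
    (M : MnT j w N b θ v) {z : P} (hz : z ∈ bdR (rA N)) (hc : cst w (hT j w N b θ) z = v) :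
    OutG j w K (NoE j w XE BE) (NoO j w XO) (hT j w N b θ) z v := by
  classical
  have H := W.gt.H
  have hj := W.hj
  have hw := W.hw
  have hlz := W.bd_lev hz
  by_cases hd : ∃ x, x ∉ rA N ∧ z ⋖ x ∧ Dk j w K0 N θ (GaussPoset.bs N x) ∧
      ¬ Row1 j w N θ (GaussPoset.bs N x)
  · obtain ⟨x, hx, hzx, hD, hnR⟩ := hd
    have e1 := (H.covBy_iff.mp hzx).2
    by_cases hl : j + 1 ≤ lev x
    · exact (L.dp v z x M hz hc hx hzx hl hD hnR).mono Or.inr Or.inr
    · have hxu : x ∉ unnat N := W.low (by omega)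
      have hbs : GaussPoset.bs N x = x := by
        unfold GaussPoset.bs
        rw [if_neg (W.not_tw hxu)]
      rw [hbs] at hD
      exact (L.dj v z x M hz hc (by omega) hzx hD).mono Or.inr Or.inr
  · push Not at hd
    have hSA := W.hT_eq hw2 hd
    obtain ⟨hF, hge⟩ := W.flatT hw2 M hz hc hd
    have hc' : cst w (hA N θ) z = v := by
      rw [← hc, cst_const w (hA N θ) z, cst_const w (hT j w N b θ) z, hSA]
    refine outG_congr hSA.symm ?_
    by_cases hR : ∃ x, z ⋖ x ∧ Row1 j w N θ x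
    · obtain ⟨x, hzx, hR⟩ := hR
      have h1 := (W.row1_outS (XE := fun _ => False) (XO := fun _ => False) L.hK hz hc' hF hge
        hzx hR).toG
      rcases W.row1_only L.hK hz hc' hF hge hzx hR with h3 | ⟨h3, h4⟩
      · exact Or.inl h3
      · by_cases hvK : K < v
        · exact Or.inl hvK
        · have h2 : ¬ BE v := fun hB => L.hk.br v (lev x - w) z x M hz hc' hB (by omega) hzx h3 hR
            (by have := (H.covBy_iff.mp hzx).2; omega) h4
          exact h1.mono (fun h => Or.inl ⟨h.resolve_right id, h2⟩)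
            (fun h => Or.inl (h.resolve_right id))
    · push Not at hR
      have hStr : ∀ x, z ⋖ x → x ∉ unnat N ∧ Str w N θ x := fun x hx =>
        ⟨(hF x hx).1, (hF x hx).2.resolve_right (hR x hx)⟩
      have hh : hA N θ z = lev z - w := by
        obtain ⟨x0, f1, f2, f3⟩ := W.hA_spec hz
        obtain ⟨g1, g2⟩ := hStr x0 f2
        have hbs : GaussPoset.bs N x0 = x0 := by
          unfold GaussPoset.bs
          rw [if_neg (W.not_tw g1)]
        rw [hbs, g2.th] at f3
        have := (H.covBy_iff.mp f2).2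
        omega
      by_cases hT : ∃ x x', z ⋖ x ∧ z ⋖ x' ∧ topOf x ≠ topOf x'
      · obtain ⟨x, x', h1, h2, h3⟩ := hT
        exact W.cross_outG L.unq L.nsk hz hh hc' (hStr x h1).1 (hStr x' h2).1 (hStr x h1).2
          (hStr x' h2).2 h1 h2 h3
      · push Not at hT
        obtain ⟨x, hzx, -⟩ := Hul.exists_cov (w := z) (v := (topOf z : P))
          (lt_of_le_of_ne (le_topOf z) (by
            intro h
            have := (topOf z).2
            rw [← h] at this
            omega))
        have h1 := (W.own_outS (K := K) (XE := fun _ => False) (XO := fun _ => False) hP hz hh hc' hStr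
          (t := topOf x) fun x' hx' => hT x' x hx' hzx).toG
        by_cases hvK : K < v
        · exact Or.inl hvK
        · have h2 : ¬ BE v := fun hB => L.hk.bo v z M hz hc' hB (by omega) hStr hT hh
          exact h1.mono (fun h => Or.inl ⟨h.resolve_right id, h2⟩)
            (fun h => Or.inl (h.resolve_right id))

/-- the outcome for the twins -/
theorem Wk.out_twF (W : Wk r j w K0 N b θ) (L : LkT P j w K0 K N b θ XE XO BE) {v : ℕ}
    (M : MnT j w N b θ v) {x : P}
    (hx : x ∈ twA N) (hxv : tcS j w N b θ x = v) (hvK : v ≤ K) :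
    OutTG j w K (NoE j w XE BE) (NoO j w XO) N b θ x := by
  classical
  have hj := W.hj
  have hw := W.hw
  obtain ⟨hl, hk⟩ := W.tw_cases hx
  have hl2 := W.twSys.lev hx
  have hup := W.twSys.up x hx
  by_cases hnR : Row1 j w N θ (twT N x)
  swap
  · exact (L.dt x hx (hk.resolve_left hnR) hnR).mono Or.inr Or.inr
  · clear hk
    have hk := hnR
    right
    have hns : ¬ Spc j w N b θ (twT N x) := by
      rintro ⟨Nc, co, C⟩
      have := C.th
      have := C.lev (by omega)
      have := hk.th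
      omega
    have e0 : tcS j w N b θ x = tcst w (thA N θ) (twT N x, x) := by
      unfold tcS; rw [if_neg hns]
    have e0' : TmS j w N b θ x = Tm w (thA N θ) (twT N x, x) := by
      unfold TmS; rw [if_neg hns]
    obtain ⟨a, ha⟩ : ∃ a, lev x = w + a := ⟨lev x - w, by omega⟩
    have h1 := W.tcst_row1 hx hk ha
    have hn : ∀ k, w ≤ k → k < lev x → nab k x = 2 := fun k h1 h2 => by
      rw [← nab_congr_up hup h2]
      exact hk.nab k h1 (by omega)
    have e1 : thA N θ (twT N x) = θ (topOf (twT N x)) (twT N x) :=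
      W.thA_nat (W.twSys.nat x hx)
    have hth := hk.th
    refine ⟨lev x - w, ?_, ?_, Or.inl ⟨?_, Or.inl ⟨⟨hk.one_le, Or.inr (Or.inl
      ⟨a - (j + 1 - w), Or.inr ?_⟩)⟩, ?_⟩⟩⟩
    · rw [e0', Tm_eq W.gt.H.gradedBelow (W.twn hx) (by simp only; omega)]
    · rw [hn w le_rfl (by omega), show w + (lev x - w) = lev x by omega, nab_self]
    · rw [nst_eq, Finset.sum_congr rfl (g := fun _ => 2)]
      · rw [Finset.sum_const, card_range]
        exact ⟨lev x - w, by simp only [smul_eq_mul]; ring⟩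
      · intro k hk'
        rw [mem_range] at hk'
        exact hn _ (by omega) (by omega)
    · rw [e0, h1, show j + 1 - w + (a - (j + 1 - w)) = a by omega]
      ring
    · rw [hxv]
      exact fun hB => L.hk.bt v a x M hx hxv hB (by omega) hk ha (by rw [← hxv, e0, h1])

end Pool.Agent.GaussPoset.Sm

end

/-! From `Pool.Agent.W_448f4_h70.ID` -/

section

/-!
# The windows `2`, `3` with the larger labels and flips: both signs (MP_448cb3_co, S7)
-/

namespace Pool.Agent.GaussPoset.Sm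

set_option linter.unusedSectionVars false

open Polynomial Finset

universe u

variable {P : Type u} [Fintype P] [PartialOrder P] [DecidableEq P] {r j w K0 K : ℕ}
  {N : Tops P → Finset P} {b : Tops P → ℕ} {θ : Tops P → P → ℕ} {XE XO BE YE YO : ℕ → Prop}

/-- existence of the minimal value -/
lemma exists_minT (hne : (bdR (rA N)).Nonempty) :
    ∃ v, MnT j w N b θ v ∧ ((∃ z ∈ bdR (rA N), cst w (hT j w N b θ) z = v) ∨
      ∃ x ∈ twA N, tcS j w N b θ x = v) := by
  classical
  let A : Finset ℕ := (bdR (rA N)).image (cst w (hT j w N b θ)) ∪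
    (twA N).image (fun x => tcS j w N b θ x)
  have hA : A.Nonempty := by
    obtain ⟨z, hz⟩ := hne
    exact ⟨_, mem_union_left _ (mem_image_of_mem _ hz)⟩
  refine ⟨A.min' hA, ⟨fun z hz => A.min'_le _ (mem_union_left _ (mem_image_of_mem _ hz)),
    fun x hx => A.min'_le _ (mem_union_right _
      (mem_image_of_mem (fun x => tcS j w N b θ x) hx))⟩, ?_⟩
  have := A.min'_mem hA
  rcases mem_union.mp this with h | h
  · obtain ⟨z, hz, h⟩ := mem_image.mp h
    exact Or.inl ⟨z, hz, h⟩
  · obtain ⟨x, hx, h⟩ := mem_image.mp h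
    exact Or.inr ⟨x, hx, h⟩

/-- **The cheapest class at window `w` has both signs.** -/
theorem Wk.bothF (W : Wk r j w K0 N b θ) (h7 : 7 ≤ j) (h12 : j % 2 = 0 → 12 ≤ j)
    (hw2 : 2 ≤ w)
    (L : LkT P j w K0 K N b θ XE XO BE) {v : ℕ}
    (hP : OnePen P j (fun t => 2 ≤ b t) ∨ v ≤ (j + 1 - w) ^ 2 + 5 * (j - w))
    (M : MnT j w N b θ v) (hex : (∃ z ∈ bdR (rA N), cst w (hT j w N b θ) z = v) ∨
      ∃ x ∈ twA N, tcS j w N b θ x = v) (hcap : v ≤ K) :
    ((∃ z x x' : P, Cg z x x' ∧ Sok j x ∧ Sok j x' ∧ ful w z = v ∧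
      Odd (nst w (fun z => lev z - w) z)) ∨ NoO j w XO v) ∧
    ((∃ z x x' : P, Cg z x x' ∧ Sok j x ∧ Sok j x' ∧ ful w z = v ∧
      Even (nst w (fun z => lev z - w) z)) ∨ NoE j w XE BE v) := by
  classical
  have H := W.gt.H
  have hj := W.hj
  have hw := W.hw
  set T1 := (bdR (rA N)).filter (fun z => cst w (hT j w N b θ) z = v) with hT1
  set T2 := (twA N).filter (fun x => tcS j w N b θ x = v) with hT2
  have hout2' : ∀ x : P, ∃ l : ℕ, x ∈ T2 → TmS j w N b θ x = Lt w (fun _ => l) x ∧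
      nab w x = nab (w + l) x + 1 ∧
      ((Even (nst w (fun _ => l) x) ∧ NoE j w XE BE v) ∨
      (Odd (nst w (fun _ => l) x) ∧ NoO j w XO v)) := by
    intro x
    by_cases hx : x ∈ T2
    · have hx' := hx
      rw [hT2, mem_filter] at hx'
      have h1 := (W.out_twF L M hx'.1 hx'.2 hcap).resolve_left (by rw [hx'.2]; omega)
      rw [hx'.2] at h1
      obtain ⟨l, h2⟩ := h1
      exact ⟨l, fun _ => h2⟩
    · exact ⟨0, fun h => absurd h hx⟩
  choose lb hlb using hout2'
  -- labels on the whole class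
  let hh : P → ℕ := fun z => if z ∈ twA N then lb z else hT j w N b θ z
  have hh1 : ∀ z ∈ twA N, hh z = lb z := fun z hz => if_pos hz
  have hh2 : ∀ z, z ∉ twA N → hh z = hT j w N b θ z := fun z hz => if_neg hz
  have hn1 : ∀ z ∈ T1, z ∉ twA N := by
    intro z hz
    rw [hT1, mem_filter] at hz
    exact (mem_rA.mp (mem_bdR.mp hz.1).1).2
  have hm2 : ∀ z ∈ T2, z ∈ twA N := fun z hz => by
    rw [hT2, mem_filter] at hz
    exact hz.1
  have hdisj : Disjoint T1 T2 := by
    rw [Finset.disjoint_left]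
    intro z hz hz'
    exact hn1 z hz (hm2 z hz')
  have hout1 : ∀ z ∈ T1, nab w z = nab (w + hh z) z + 1 ∧
      ((Even (nst w hh z) ∧ NoE j w XE BE v) ∨ (Odd (nst w hh z) ∧ NoO j w XO v) ∨
      (∃ x x', Cg z x x' ∧ Sok j x ∧ Sok j x') ∧ v = ful w z ∧ hh z = lev z - w) := by
    intro z hz
    have hzt := hn1 z hz
    rw [hT1, mem_filter] at hz
    have h1 := W.outF hw2 L hP M hz.1 hz.2
    have h2 : nst w hh z = nst w (hT j w N b θ) z := by
      rw [nst_eq, nst_eq, hh2 z hzt]
    rw [h2, hh2 z hzt]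
    exact h1.resolve_left (by omega)
  have hnst2 : ∀ x ∈ T2, nst w hh x = nst w (fun _ => lb x) x := fun x hx => by
    rw [nst_eq, nst_eq, hh1 x (hm2 x hx)]
  have hout2 : ∀ x ∈ T2, nab w x = nab (w + hh x) x + 1 ∧
      ((Even (nst w hh x) ∧ NoE j w XE BE v) ∨
      (Odd (nst w hh x) ∧ NoO j w XO v)) := by
    intro x hx
    have h1 := (hlb x hx).2
    rw [hnst2 x hx, hh1 x (hm2 x hx)]
    exact h1
  -- the exact far window theorem
  have F := W.farT h7 h12 hw2 v M.tw M.bd
  have hd := F.lead M.bd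
  have hZ := dvd_Z H.gauss w v
  have hsum2 : ∑ x ∈ (twA N).filter (fun x => tcS j w N b θ x = v), TmS j w N b θ x =
      ∑ x ∈ T2, Lt w hh x := by
    refine Finset.sum_congr rfl fun x hx => ?_
    rw [(hlb x hx).1]
    unfold Lt
    rw [hnst2 x hx, hh1 x (hm2 x hx)]
  have hsum1 : ∑ z ∈ (bdR (rA N)).filter (fun z => cst w (hT j w N b θ) z = v),
      Lt w (hT j w N b θ) z = ∑ z ∈ T1, Lt w hh z := by
    refine Finset.sum_congr rfl fun z hz => ?_
    unfold Lt
    rw [nst_eq, nst_eq, hh2 z (hn1 z hz)]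
  rw [hsum2, hsum1, ← Finset.sum_union hdisj] at hd
  have hdrop : ∀ z ∈ T1 ∪ T2, nab w z = nab (w + hh z) z + 1 := by
    intro z hz
    rcases mem_union.mp hz with h | h
    · exact (hout1 z h).1
    · exact (hout2 z h).1
  have hTne : (T1 ∪ T2).Nonempty := by
    rcases hex with ⟨z, hz, h⟩ | ⟨x, hx, h⟩
    · exact ⟨z, mem_union_left _ (mem_filter.mpr ⟨hz, h⟩)⟩
    · exact ⟨x, mem_union_right _ (mem_filter.mpr ⟨hx, h⟩)⟩
  have hcard : 1 ≤ (lv P w).card := by
    obtain ⟨z, hz⟩ := hTne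
    have h1 := hdrop z hz
    have h2 := nab_le z w
    omega
  have hs := sign_sum_of_dvd (T1 ∪ T2) hZ hd (c0 := (lv P w).card - 1) (by omega) (by
    intro z hz
    have := hdrop z hz
    omega)
  rw [Finset.filter_true_of_mem (fun z hz => by
    have := hdrop z hz
    omega)] at hs
  obtain ⟨⟨z1, hz1, he⟩, z2, hz2, ho⟩ := both_signs _ _ hs hTne
  have hcls : ∀ z ∈ T1 ∪ T2, (Even (nst w hh z) ∧ NoE j w XE BE v) ∨
      (Odd (nst w hh z) ∧ NoO j w XO v) ∨
      (∃ x x', Cg z x x' ∧ Sok j x ∧ Sok j x') ∧ v = ful w z ∧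
        nst w hh z = nst w (fun z => lev z - w) z := by
    intro z hz
    rcases mem_union.mp hz with h | h
    · rcases (hout1 z h).2 with h1 | h1 | h1
      · exact Or.inl h1
      · exact Or.inr (Or.inl h1)
      · refine Or.inr (Or.inr ⟨h1.1, h1.2.1, ?_⟩)
        rw [nst_eq, nst_eq, h1.2.2]
    · rcases (hout2 z h).2 with h1 | h1
      · exact Or.inl h1
      · exact Or.inr (Or.inl h1)
  constructor
  · rcases hcls z2 hz2 with h | h | ⟨⟨x, x', h, s1, s2⟩, h1, h2⟩
    · exact absurd h.1 (Nat.not_even_iff_odd.mpr ho)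
    · exact Or.inr h.2
    · rw [h2] at ho
      exact Or.inl ⟨z2, x, x', h, s1, s2, h1.symm, ho⟩
  · rcases hcls z1 hz1 with h | h | ⟨⟨x, x', h, s1, s2⟩, h1, h2⟩
    · exact Or.inr h.2
    · exact absurd h.1 (Nat.not_odd_iff_even.mpr he)
    · rw [h2] at he
      exact Or.inl ⟨z1, x, x', h, s1, s2, h1.symm, he⟩

end Pool.Agent.GaussPoset.Sm

end

/-! From `Pool.Agent.W_448f4_h70.IE` -/

section

/-!
# The windows `2`, `3` with the larger labels and flips: the balance (MP_448cb3_co, S7)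
-/

namespace Pool.Agent.GaussPoset.Sm

set_option linter.unusedSectionVars false

open Polynomial Finset

universe u

variable {P : Type u} [Fintype P] [PartialOrder P] [DecidableEq P] {r j w K0 K : ℕ}
  {N : Tops P → Finset P} {b : Tops P → ℕ} {θ : Tops P → P → ℕ} {XE XO BE YE YO : ℕ → Prop}

/-- **The balance at window `w`.** -/
theorem Wk.winBF (W : Wk r j w K0 N b θ) (h7 : 7 ≤ j) (h12 : j % 2 = 0 → 12 ≤ j)
    (hw2 : 2 ≤ w) {LE LO BL : List ℤ}
    (L : LkT P j w K0 K N b θ (XL (j + 1 - w) LE) (XL (j + 1 - w) LO) (XL (j + 1 - w) BL)) (h16 : j ≤ 16) {cT lb : ℤ}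
    (hK : (K : ℤ) = ((j + 1 - w : ℕ) : ℤ) ^ 2 + cT) (hT : cT < 7 * ((j + 1 - w : ℕ) : ℤ) + 10)
    (hl0 : lb ≤ 0) (hlE : ∀ x ∈ LE, lb ≤ x) (hlO : ∀ x ∈ LO, lb ≤ x)
    (hlow : ∀ z x x' : P, Cg z x x' → Sok j x → Sok j x' → j + 1 ≤ lev z →
      ∀ k, k < w → nab k z = 2)
    (hPen : OnePen P j (fun t => 2 ≤ b t) ∨ ∃ z : P, Hul.Jn z ∧
      ful w z ≤ (j + 1 - w) ^ 2 + 5 * (j - w))
    (hJ : ∃ z : P, Hul.Jn z) :
    ∃ v, MnT j w N b θ v ∧
      WinB P j w cT (fun V => LO.elem V) 
        (fun V => (nz ((j + 1 - w : ℕ) : ℤ) V && !(BL.elem V)) || LE.elem V)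
      lb ((v : ℤ) - ((j + 1 - w : ℕ) : ℤ) ^ 2) := by
  classical
  have HN := W.natSys
  have hj := W.hj
  have hw := W.hw
  have H := W.gt.H
  -- joins are in the far set
  have hjoin : ∀ z : P, Hul.Jn z → z ∈ rA N := by
    rintro z ⟨t1, t2, h1, h2, hne, hz1, hz2⟩
    have key : ∀ y, y ∉ unnat N → (y ≤ t1 → y ≤ t2 → False) := by
      intro y hy g1 g2
      have h3 : y ∈ N (topOf y) := HN.mem_iff.mpr ⟨hy, rfl⟩
      exact hne ((HN.top_eq h3 h1 g1).trans (HN.top_eq h3 h2 g2).symm)
    have hzu : z ∈ unnat N := by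
      by_contra hcon
      exact key z hcon hz1 hz2
    refine mem_rA.mpr ⟨hzu, fun h => ?_⟩
    obtain ⟨-, y, hy, hup⟩ := mem_twA.mp h
    have hl := W.lt_lev hzu
    refine key y hy ((hup t1).mpr ?_).le ((hup t2).mpr ?_).le
    · exact lt_of_le_of_ne hz1 (by rintro rfl; omega)
    · exact lt_of_le_of_ne hz2 (by rintro rfl; omega)
  have hpos : ∀ x ∈ rA N, 0 < lev x := fun x hx => by
    have := W.lt_lev (mem_rA.mp hx).1
    omega
  have hbd : (bdR (rA N)).Nonempty := by
    obtain ⟨z, hz⟩ := hJ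
    obtain ⟨z', hz', -⟩ := exists_bd_above hpos (hjoin z hz)
    exact ⟨z', hz'⟩
  obtain ⟨v, M, hex⟩ := exists_minT (j := j) (w := w) (b := b) (θ := θ) hbd
  have hmin : ∀ z, Hul.Jn z → v ≤ ful w z := fun z hz => min_le_ful hpos M.bd (hjoin z hz)
  have hPen' : OnePen P j (fun t => 2 ≤ b t) ∨ v ≤ (j + 1 - w) ^ 2 + 5 * (j - w) := by
    rcases hPen with h | ⟨z, hz, h⟩
    · exact Or.inl h
    · exact Or.inr ((hmin z hz).trans h)
  have hlev : ∀ z x x' : P, Cg z x x' → j + 1 ≤ lev z := by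
    intro z x x' h
    by_contra hcon
    exact W.gt.no_join z (by omega) h.jn
  have hyc : ((j + 1 - w : ℕ) : ℤ) = (j : ℤ) + 1 - w := by
    rw [Nat.cast_sub (by omega)]
    push_cast
    ring
  have hline : ∀ z x x' : P, Cg z x x' → Sok j x → Sok j x' →
      (ful w z : ℤ) = ((j + 1 - w : ℕ) : ℤ) ^ 2 + (kapZ j z * ((j : ℤ) - w) + gZ j z) := by
    intro z x x' h hs hs'
    have hl := hlev z x x' h
    rw [hyc]
    exact ful_line (by omega) (by omega) (hlow z x x' h hs hs' hl)
  have hpar : ∀ {z x x' : P}, Cg z x x' → Sok j x → Sok j x' →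
      anc z = 2 * w + nst w (fun z => lev z - w) z := by
    intro z x x' h hs hs'
    have hl := hlev z x x' h
    have h2 := hlow z x x' h hs hs' hl
    unfold anc
    obtain ⟨c, hc⟩ : ∃ c, lev z = w + c := ⟨lev z - w, by omega⟩
    rw [nst_eq, hc, Finset.sum_range_add, Nat.add_sub_cancel_left,
      Finset.sum_congr rfl (g := fun _ => 2) (fun k hk => h2 k (by
        rw [mem_range] at hk
        omega)), Finset.sum_const, card_range, smul_eq_mul, Nat.mul_comm]
  have hkp : ∀ {z : P}, (Odd (anc z) → Odd (kapZ j z)) ∧ (Even (anc z) → Even (kapZ j z)) :=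
    kap_parity
  refine ⟨v, M, ?_⟩
  have hmn : ∀ z x x' : P, Cg z x x' → Sok j x → Sok j x' →
      (v : ℤ) - ((j + 1 - w : ℕ) : ℤ) ^ 2 ≤ kapZ j z * (j - w) + gZ j z := by
    intro z x x' h hs hs'
    have h1 : (v : ℤ) ≤ ful w z := by exact_mod_cast hmin z h.jn
    rw [hline z x x' h hs hs'] at h1
    linarith
  by_cases hcap : K < v
  · have hcap' : (K : ℤ) < v := by exact_mod_cast hcap
    exact ⟨fun h => by linarith, hmn, fun h => by linarith, fun h => by linarith⟩
  have hcv : (v : ℤ) ≤ ((j + 1 - w : ℕ) : ℤ) ^ 2 + cT := by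
    rw [← hK]
    exact_mod_cast not_lt.mp hcap
  obtain ⟨ho, he⟩ := W.bothF h7 h12 hw2 L hPen' M hex (not_lt.mp hcap)
  have hsq : ∀ z x x' : P, Cg z x x' → ful w z = v → 0 ≤ (v : ℤ) - ((j + 1 - w : ℕ) : ℤ) ^ 2 := by
    intro z x x' h he
    have hl := hlev z x x' h
    obtain ⟨c, hc⟩ : ∃ c, lev z = w + c := ⟨lev z - w, by omega⟩
    have h4 := ful_ge (w := w) (z := z) (c := c) (fun _ => 0) hc
      (fun n hn1 hn2 => h.two_le H (k := w + n) (by omega))
    simp only [mul_zero, Finset.sum_const_zero, add_zero] at h4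
    have h5 : (j + 1 - w) ^ 2 ≤ c ^ 2 := Nat.pow_le_pow_left (by omega) 2
    have h6 : (j + 1 - w) ^ 2 ≤ v := by rw [← he]; exact h5.trans h4
    have h7 : (((j + 1 - w) ^ 2 : ℕ) : ℤ) ≤ v := by exact_mod_cast h6
    push_cast at h7
    linarith
  have hnzpos : ∀ {V : ℤ}, nz ((j + 1 - w : ℕ) : ℤ) V = true → 0 ≤ V := by
    intro V hV
    unfold nz at hV
    rw [List.any_eq_true] at hV
    obtain ⟨t, -, ht⟩ := hV
    rw [decide_eq_true_eq] at ht
    have h1 : (0 : ℤ) ≤ t := Int.natCast_nonneg t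
    have h2 : (1 : ℤ) ≤ ((j + 1 - w : ℕ) : ℤ) := by
      have : 1 ≤ j + 1 - w := by omega
      exact_mod_cast this
    rcases ht with ht | ht | ht <;> nlinarith
  refine ⟨fun _ => ?_, hmn, fun _ => ?_, fun _ => ?_⟩
  · rcases ho with ⟨z, x, x', h1, h2, h3, h4, h5⟩ | h | h
    · exact hl0.trans (hsq z x x' h1 h4)
    · exact (od_false h (by omega) h16 hcv hT).elim
    · exact hlO _ h
  · rcases ho with ⟨z, x, x', h1, h2, h3, h4, h5⟩ | h | h
    · left
      refine ⟨z, x, x', h1, h2, h3, hkp.1 (by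
        rw [hpar h1 h2 h3]
        exact (even_two_mul w).add_odd h5), ?_⟩
      have := hline z x x' h1 h2 h3
      rw [h4] at this
      linarith
    · exact (od_false h (by omega) h16 hcv hT).elim
    · right
      exact List.elem_iff.mpr h
  · rcases he with ⟨z, x, x', h1, h2, h3, h4, h5⟩ | h | h
    · left
      refine ⟨z, x, x', h1, h2, h3, hkp.2 (by
        rw [hpar h1 h2 h3]
        exact (even_two_mul w).add h5), ?_⟩
      have := hline z x x' h1 h2 h3
      rw [h4] at this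
      linarith
    · right
      rw [Bool.or_eq_true, Bool.and_eq_true]
      refine Or.inl ⟨ev_nz h.1 (by omega) hcv hT, ?_⟩
      rw [Bool.not_eq_true', ← Bool.not_eq_true]
      exact fun hB => h.2 (List.elem_iff.mp hB)
    · right
      rw [Bool.or_eq_true]
      exact Or.inr (List.elem_iff.mpr h)

end Pool.Agent.GaussPoset.Sm

end

/-! From `Pool.Agent.W_448f4_h70.IF` -/

section

/-!
# The windows `2`, `3` with the larger labels and flips: cells (MP_448cb3_co, S7)
-/

namespace Pool.Agent.GaussPoset.Sm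

set_option linter.unusedSectionVars false

open Polynomial Finset W4 Cp

universe u

section

variable {P : Type u} [Fintype P] [PartialOrder P] [DecidableEq P] {r j w K0 K : ℕ}
  {N : Tops P → Finset P} {b : Tops P → ℕ} {θ : Tops P → P → ℕ} {XE XO BE YE YO : ℕ → Prop}

/-- the number of elements strictly between, for a flip -/
def flN (w j : ℕ) : ℕ :=
  ∑ n ∈ range (j - w), (min ((w + n) / 2) ((j - 3) / 2) + 1 - (w + n - (j + 3) / 2))

/-- the outcome for a flip -/
theorem Wk.flp_out (W : Wk r j w K0 N b θ) (hw2 : 2 ≤ w) (h7 : 7 ≤ j) {z : P}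
    (hz : PenF j w N b θ z) {v : ℕ} (hc : cst w (hT j w N b θ) z = v)
    (h : Okv K XE XO (flN w j) (flC w j + 2)) : OutG j w K XE XO (hT j w N b θ) z v := by
  have hp := hz
  obtain ⟨p1, p2, p3, p4⟩ := W.penF hz
  obtain ⟨h1, x, h3, h4, Nc, co, C⟩ := hz
  have H := W.gt.H.gradedBelow
  have hj := W.hj
  have hw := W.hw
  have e1 := H.lev_covBy h3
  have hT1 := hT_of hp
  have hlx := C.lev (by omega)
  have e0 : hT j w N b θ z = j - w := by omega
  have hnz : ∀ k, k < j + 1 → nab k z = nab k x := fun k hk => nab_only h4 h3 (by omega)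
  have hrise : cst w (fun _ => j - w) x = cst w (fun _ => j - w - 1) x + 1 := by
    have hx : lev x = w + (j - w - 1 + 1) := by omega
    rw [cst_shift (i := w) (h := fun _ => j - w) hx,
      cst_shift (i := w) (h := fun _ => j - w - 1) hx, Finset.sum_range_succ,
      Finset.sum_range_succ _ (j - w - 1 + 1), show w + (j - w - 1 + 1) = lev x by omega, nab_self,
      Finset.sum_congr rfl (g := fun n => min (j - w - 1) n * nab (w + n) x) (fun n hn => by
        rw [mem_range] at hn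
        rw [Nat.min_eq_right (by omega), Nat.min_eq_right (by omega)])]
    rw [Nat.min_eq_left (by omega), Nat.min_eq_left (by omega)]
    omega
  have hcs : cst w (fun _ => j - w - 1) x + (j - w - 1) = flC w j := by
    have ho := C.odd
    rw [cst_stair (w := w) (L := j) (h := j - w - 1) C.nat.chart C.mem hlx (by omega), C.co_eq]
    unfold flC
    rw [show j - (j - 3) / 2 = (j + 3) / 2 by omega]
  have hv : v = flC w j + 2 := by
    rw [← hc, cst_const, e0, cst_only (h := fun _ => j - w) H h3 h4, hrise,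
      Nat.min_eq_left (by omega)]
    omega
  rw [hv]
  refine h.out ?_ ?_
  · rw [nst_eq, e0]
    unfold flN
    refine Finset.sum_congr rfl fun n hn => ?_
    rw [mem_range] at hn
    rw [hnz _ (by omega)]
    have := C.nab (by omega) (k := w + n) (by omega)
    omega
  · rw [e0, show w + (j - w) = j by omega, hnz _ (by omega), hnz _ (by omega)]
    have a1 := C.nab (by omega) (k := w) (by omega)
    rw [show j = lev x by omega, nab_self]
    omega

/-- elements of level `j + 1` below a deep cell: no flips -/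
theorem Wk.deep_jT (W : Wk r j w K0 N b θ) (hw2 : 2 ≤ w) (hj8 : 8 ≤ j)
    {z : P} (hz : z ∈ bdR (rA N)) (hlz : lev z = j + 1)
    {x : P} (hzx : z ⋖ x) (hD : Dk j w K0 N θ x) : PenF j w N b θ z ∨
      (j % 2 = 0 ∧ cst w (hA N θ) z = foC w j ∧ nst w (hA N θ) z = foN w j ∧
        nab w z = nab (w + hA N θ z) z + 1 ∧ (∀ y, z ⋖ y → y = x) ∧ Fold j x) ∨
      ((∃ x', FJn j z x x') ∧ hA N θ z = j - w - 1) ∨ CEl j w N θ z := by
  classical
  have H := W.gt.H
  have HN := W.natSys
  have hj := W.hj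
  have hw := W.hw
  have hzR := (mem_bdR.mp hz).1
  have hzu := (mem_rA.mp hzR).1
  have e1 := (H.covBy_iff.mp hzx).2
  have hlx : lev x = j := by omega
  have hx : x ∉ unnat N := W.low (by omega)
  have hbs : GaussPoset.bs N x = x := by
    unfold GaussPoset.bs
    rw [if_neg (W.not_tw hx)]
  have hle := W.hA_le (not_mem_rA.mpr (Or.inl hx)) hzx
  rw [hbs] at hle
  have hth := hD.th
  have h1w := hD.one_le
  have hxt : x ∈ N (topOf x) := HN.mem_iff.mpr ⟨hx, rfl⟩
  have hxle : x ≤ (topOf x : P) := le_topOf x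
  have hzN := mem_unnat.mp hzu (topOf x)
  have hnat : ∀ y ∈ N (topOf x), y ∉ unnat N := fun y hy => (HN.mem_iff.mp hy).1
  have hzt : ∀ y, y ∉ unnat N → ¬ ∀ v, y < v ↔ z < v := fun y hy h =>
    (mem_rA.mp hzR).2 (mem_twA.mpr ⟨hzu, y, hy, h⟩)
  -- two covers have one cover each
  have hnear : (Win.uc x).card = 2 → ∀ y, z ⋖ y → y = x := by
    intro h2 y hy
    by_contra hne
    have := (W.near hzR hlz hzx hy (Ne.symm hne)).1
    omega
  -- the label of an element with one cover
  have hlab : (∀ y, z ⋖ y → y = x) → hA N θ z = θ (topOf x) x + 1 := by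
    intro ho
    obtain ⟨x0, g1, g2, g3⟩ := W.hA_spec hz
    rw [ho x0 g2, hbs] at g3
    exact g3
  have hthx : θ (topOf x) x = θ (topOf x) x := rfl
  have hth0 := hD.th
  have hbt : b (topOf x) = b (topOf x) := rfl
  generalize htt : topOf x = t at hxt hxle hzN hnat hle hth hlab
  rcases W.typ t with ⟨g1, g2, g3, g5⟩ | ⟨Nc, co, h0, g1, g2, g4⟩ |
    ⟨Nc, co, h0, g1, g2, g3, g4, g5'⟩
  · exfalso
    rw [g2] at hth
    simp only at hth
    omega
  · exfalso
    rw [g1] at hxt
    rw [g2] at hth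
    have hJ : ¬ (x ∈ junk (fun _ => True) Nc co ∨ x ∈ junk (fun _ => True) Nc (swp co)) := by
      intro h
      unfold thR at hth
      rw [if_pos h] at hth
      omega
    have hxN : x ∈ Nc := by
      rw [mem_natR] at hxt
      rcases hxt with h | h | h
      · exact h
      · exact absurd (Or.inl h) hJ
      · exact absurd (Or.inr h) hJ
    have h2 := rect_th7 h0 hw hxN hJ (by omega)
    have h3 := chart_inner_uc h0.chart H hxN (by omega) (by omega)
    exact g4 x z hxle hlx h3 hzx (hnear h3)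
  · rw [g1] at hxt hzN
    rw [g2] at hth
    have hJ : x ∉ junk (fun c => c.1 ≤ c.2) Nc co := by
      intro h
      unfold thS at hth
      rw [if_pos h] at hth
      omega
    have hxN : x ∈ Nc := by
      rw [mem_natS] at hxt
      exact hxt.resolve_right hJ
    have hl := h0.chart.lev x hxN
    have hm : (co x).1 ≤ (co x).2 := h0.chart.mem x hxN
    have h2 := stair_th7 h0 hw g4 hxN hJ (by omega)
    have hzN1 : z ∉ Nc := fun h => hzN (mem_natS.mpr (Or.inl h))
    have h6 := cst_ge_cover (i := w) (h := hA N θ) H.gradedBelow hzx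
    rcases Nat.lt_or_ge (co x).1 (co x).2 with hlt | hge
    · -- a double
      have h3 := stair_inner_uc h0.chart H hxN (by omega) hlt
      have ho := hnear h3
      rcases g5' x z hxle hlx h3 hzx ho with h4 | h4
      · exfalso
        obtain ⟨y, hy, h⟩ := diag_twin h0.chart h0.max H hzN1 hxN hzx ho h4
        exact hzt y (hnat y (by rw [g1]; exact mem_natS.mpr (Or.inl hy))) h
      · left
        have h5 := hlab ho
        have hth2 := hth
        rw [← g2] at hth2
        subst htt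
        refine ⟨hzR, x, hzx, ho, Nc, co, h0, g1, by rw [g3]; omega, hxN, ?_, by omega, ?_⟩
        · exact Prod.ext (by simp only; omega) (by simp only; omega)
        · rw [g2]
          omega
    · -- the fold end
      have hcc : (co x).2 = (co x).1 := by omega
      -- the label
      have hlb : hA N θ z + 1 = lev x - w := by
        obtain ⟨x0, f1, f2, f3⟩ := W.hA_spec hz
        rw [g2] at hle
        by_cases hne : x0 = x
        · rw [hne, hbs, htt, g2] at f3
          omega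
        · have f4 := W.near hzR hlz hzx f2 (Ne.symm hne)
          have f5 := (H.covBy_iff.mp f2).2
          have hx0 : x0 ∉ unnat N := W.low (by omega)
          have hbs0 : GaussPoset.bs N x0 = x0 := by
            unfold GaussPoset.bs
            rw [if_neg (W.not_tw hx0)]
          rw [hbs0] at f3
          have f6 := W.single_th hx0 (by omega) f4.2
          omega
      have h8 : min (hA N θ z) (lev z - w) = hA N θ z := Nat.min_eq_left (by omega)
      rw [h8] at h6
      have hj2 : j % 2 = 0 := by omega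
      have hA2 : (co x).1 = j / 2 := by omega
      have hlb' : hA N θ z = j - w - 1 := by omega
      have h7 := cst_stair (w := w) (L := j) (h := j - w - 1) h0.chart hxN hlx (by omega)
      rw [hA2, show j - j / 2 = j / 2 by omega] at h7
      have hnk : ∀ k, k ≤ j → nab k x + (k - j / 2) = min (k / 2) (j / 2) + 1 := by
        intro k hk
        have := stair_nab h0.chart hxN (k := k) (by omega)
        rw [hA2, show (co x).2 = j / 2 by omega] at this
        exact this
      have hFo : Fold j x := ⟨hlx, hj2, fun k hk => by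
        have := hnk k hk
        omega⟩
      by_cases ho : ∀ y, z ⋖ y → y = x
      · -- a pendant
        right; left
        have h9 := cst_only (i := w) (h := hA N θ) H.gradedBelow hzx ho
        rw [h8, hlb', h7] at h9
        have hns : nst w (hA N θ) z = foN w j := by
          rw [nst_eq, hlb']
          unfold foN
          refine Finset.sum_congr rfl fun n hn => ?_
          rw [mem_range] at hn
          rw [nab_only ho hzx (by omega)]
          have := hnk (w + n) (by omega)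
          omega
        refine ⟨hj2, by unfold foC; exact h9, hns, ?_, ho, hFo⟩
        rw [hlb', nab_only ho hzx (by omega), nab_only ho hzx (by omega)]
        have a1 := hnk w (by omega)
        have a2 := hnk (w + (j - w - 1)) (by omega)
        omega
      · -- a second cover
        right; right
        push Not at ho
        obtain ⟨x', hzx', hne'⟩ := ho
        have hne : x ≠ x' := Ne.symm hne'
        have e2 := (H.covBy_iff.mp hzx').2
        have hx' : x' ∉ unnat N := W.low (by omega)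
        by_cases hh : topOf x' = t
        · right
          exact ⟨hzR, hlz, x, x', hzx, hzx', hne, by rw [htt, hh], by omega⟩
        · left
          refine ⟨⟨x', Cg.mk' hzx hzx' (mem_onlyB.mpr fun s hs hxs => ?_)
            (mem_onlyB.mpr fun s hs hxs => ?_) ?_, hlz, hFo⟩, hlb'⟩
          · exact HN.top_eq (HN.mem_iff.mpr ⟨hx, rfl⟩) hs hxs
          · exact HN.top_eq (HN.mem_iff.mpr ⟨hx', rfl⟩) hs hxs
          · rw [htt]
            exact fun h => hh h.symm

/-- **elements of level `j + 1` below a deep cell** -/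
theorem Wk.dj_T (W : Wk r j w K0 N b θ) (hw2 : 2 ≤ w) (hj8 : 8 ≤ j)
    (hfl : j % 2 = 1 → NoFlip P j ∨ Okv K XE XO (flN w j) (flC w j + 2))
    (hcc : j % 2 = 0 → NoCC P j ∨ Okv K XE XO (ccN w j) (ccC w j))
    (hFo : j % 2 = 0 → ∀ z x x' : P, FJn j z x x' → K < cst w (fun _ => j - w - 1) z)
    (hfv : j % 2 = 0 → Okv K XE XO (foN w j) (foC w j))
    {v : ℕ} {z x : P} (hz : z ∈ bdR (rA N))
    (hc : cst w (hT j w N b θ) z = v) (hlz : lev z = j + 1) (hzx : z ⋖ x)
    (hD : Dk j w K0 N θ x) : OutG j w K XE XO (hT j w N b θ) z v := by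
  have hj := W.hj
  have hp : ¬ PenS j w N b θ z := fun h => by
    have := (W.penS h).2.1
    omega
  have H := W.gt.H
  by_cases hpF : PenF j w N b θ z
  · have ho := (W.penF hpF).2.2.2
    rcases hfl ho with h8 | h8
    · exfalso
      obtain ⟨h1, x1, h3, h4, Nc, co, C⟩ := hpF
      have hl := C.lev (by omega)
      refine h8 z x1 hlz hl h3 h4 ?_ fun k hk => ?_
      · exact stair_inner_uc C.nat.chart H C.mem (by rw [C.co_eq]; simp only; omega)
          (by rw [C.co_eq]; simp only; omega)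
      · exact C.nab (by omega) hk
    · exact W.flp_out hw2 (by omega) hpF hc h8
  have hTS : hT j w N b θ z = hS j w N b θ z := hT_not hpF
  by_cases hC : CEl j w N θ z
  · have hev := (W.cel_nab hw2 hC).2.1
    rcases hcc hev with h | h
    · exact absurd hC (h.not_cel W hw2)
    · rw [← hc]
      exact W.cel_out hw2 hj8 hC (by rw [hTS, hS_not hp, hC_of hC]) h
  · have hS1 : hT j w N b θ z = hA N θ z := by rw [hTS, hS_not hp, hC_not hC]
    have hcA : cst w (hA N θ) z = v := by
      rw [← hc, cst_const w (hA N θ) z, cst_const w (hT j w N b θ) z, hS1]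
    refine outG_congr (h := hA N θ) hS1.symm ?_
    rcases W.deep_jT hw2 hj8 hz hlz hzx hD with h | ⟨h1, h2, h3, h4, -⟩ | ⟨⟨x', h1⟩, h2⟩ | h
    · exact absurd h hpF
    · rw [← hcA, h2]
      exact (hfv h1).out h3 h4
    · left
      have h3 := hFo h1.2.2.2.1 z x x' h1
      have h4 : cst w (hA N θ) z = cst w (fun _ => j - w - 1) z := by
        rw [cst_const, h2]
      omega
    · exact absurd h hC

end

variable {P : Type u} [Fintype P] [PartialOrder P] [DecidableEq P] {r j w : ℕ}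
  {lo hi : Tops P → ℕ → ℕ} {e : Tops P → ℕ → ℕ → P}

/-- the inputs of the windows `2`, `3` with larger labels and flips, at level `j + 1` -/
structure InT (P : Type u) [Fintype P] [PartialOrder P] [DecidableEq P] (j w K : ℕ)
    (XE XO : ℕ → Prop) : Prop where
  hfl : j % 2 = 1 → NoFlip P j ∨ Okv K XE XO (flN w j) (flC w j + 2)
  hcc : j % 2 = 0 → NoCC P j ∨ Okv K XE XO (ccN w j) (ccC w j)
  hFo : j % 2 = 0 → ∀ z x x' : P, FJn j z x x' → K < cst w (fun _ => j - w - 1) z
  hfv : j % 2 = 0 → Okv K XE XO (foN w j) (foC w j)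

/-- the inputs at window `w` for the larger labels, with excluded own elements -/
theorem Wk.lkT {K0 K : ℕ} {N : Tops P → Finset P} {b : Tops P → ℕ} {θ : Tops P → P → ℕ}
    {XE XO BE : ℕ → Prop} (W : Wk r j w K0 N b θ) (hw2 : 2 ≤ w) (h10 : 10 ≤ j)
    (hK : 2 * K < 3 * (j + 1 - w) ^ 2 + 3 * (j + 1 - w)) (hu : Unq P w b)
    (I : InT P j w K XE XO) (C : CellsN P j w K0 K N b θ XE XO) (hk : HkT P j w K N b θ BE) :
    LkT P j w K0 K N b θ XE XO BE where
  hK := hK
  unq := hu
  nsk := fun z x x' h hl hn hns => by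
    have hw := W.hw
    exact (nsk23' h10 (by omega) hn hns).elim
  dj := fun v z x _ hz hc hl hzx hD =>
    W.dj_T hw2 (by omega) I.hfl I.hcc I.hFo I.hfv hz hc hl hzx hD
  dp := fun v z x _ hz hc hx hzx hl hD hR => by
    have hw := W.hw
    have e1 := (W.gt.H.covBy_iff.mp hzx).2
    have hTS : hT j w N b θ z = hS j w N b θ z := hT_not (W.penF_not (by omega))
    refine outG_congr (h := hS j w N b θ) hTS.symm ?_
    refine W.dp_cellsN hw2 (by omega) C hz ?_ hx hzx hl hD hR
    rw [← hc, cst_const w (hS j w N b θ) z, cst_const w (hT j w N b θ) z, hTS]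
  dt := fun x hx hD hR => W.dt_cellsN hw2 (by omega) C hx hD hR
  hk := hk

/-- **the balance at the windows `2`, `3` with the larger labels, excluded own elements** -/
theorem Ctx.winT (K : Ctx P r j lo hi e) (hF : NoFo P j) (h10 : 10 ≤ j)
    (h12 : j % 2 = 0 → 12 ≤ j)
    (hwj : w = 2 ∨ (w = 3 ∧ 11 ≤ j)) {c0 cT : ℕ}
    {LE LO BL : List ℤ} {lb : ℤ} {E : List (ℕ × ℕ × ℕ)} (hE : ChkE j E) (h0 : (0, 0, 0) ∈ E)
    (hb : j % 2 = 1 → ∀ s ∈ E, (s.1 : ℤ) * ((j : ℤ) - w) - s.2.1 ≤ 5 * ((j : ℤ) - w))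
    (c1 : ∀ a ∈ Finset.Icc 2 ((j + 1) / 2), (j + 1 - w) ^ 2 + c0 + 1 < stC w (j + 1) a)
    (c2 : ∀ a ∈ Finset.Icc 2 (j - 1), (j + 1 - w) ^ 2 + c0 + 1 < reC w (j + 1) a)
    (hc : c0 ≤ cT)
    (hcell : ∀ (N : Tops P → Finset P) (b : Tops P → ℕ) (θ : Tops P → P → ℕ),
      Wk r j w ((j + 1 - w) ^ 2 + c0) N b θ →
      CellsN P j w ((j + 1 - w) ^ 2 + c0) ((j + 1 - w) ^ 2 + cT) N b θ
        (XL (j + 1 - w) LE) (XL (j + 1 - w) LO))
    (hk : ∀ (N : Tops P → Finset P) (b : Tops P → ℕ) (θ : Tops P → P → ℕ),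
      Wk r j w ((j + 1 - w) ^ 2 + c0) N b θ → Unq P w b →
      HkT P j w ((j + 1 - w) ^ 2 + cT) N b θ (XL (j + 1 - w) BL))
    (I : InT P j w ((j + 1 - w) ^ 2 + cT) (XL (j + 1 - w) LE) (XL (j + 1 - w) LO))
    (c6 : 2 * ((j + 1 - w) ^ 2 + cT) < 3 * (j + 1 - w) ^ 2 + 3 * (j + 1 - w))
    (c7 : cT < 7 * (j + 1 - w) + 10)
    (hl0 : lb ≤ 0) (hlE : ∀ x ∈ LE, lb ≤ x) (hlO : ∀ x ∈ LO, lb ≤ x)
    (hJ : ∃ z : P, Hul.Jn z) :
    ∃ V, WinB P j w cT (fun V => LO.elem V) 
      (fun V => (nz ((j + 1 - w : ℕ) : ℤ) V && !(BL.elem V)) || LE.elem V)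
      lb V := by
  have H := K.gt.H
  have h16 := K.h16
  have hw : w = 2 ∨ w = 3 := by omega
  have hsh : ∀ t : Tops P, lo t w = hi t w ∨ RectShape j (lo t) (hi t) ∨
      StairShape j (lo t) (hi t) ∨ StairShape j (fun k => k - hi t k) (fun k => k - lo t k) := by
    intro t
    rcases shape_cases (K.comp t) (by omega) (K.shape t) with h | h | ⟨a, h, h3⟩
    · exact Or.inl (h w (by omega))
    · exact Or.inr (by tauto)
    · left
      have h4 := h.lt (h3 (by omega)) hwj
      rw [(h.low w (by omega)).1, (h.low w (by omega)).2]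
  obtain ⟨N, θ, t1, t2, hs, hu⟩ := K.types (w := w) (by omega) hsh
  have W : Wk r j w ((j + 1 - w) ^ 2 + c0) N (fun t => hi t w - lo t w + 1) θ :=
    { gt := K.gt, hj := by omega, hw1 := by omega, hw := by omega, typ := t1, top := t2
      sum_b := hs
      hK := by omega
      rdeep := fun C _ hx _ h1 h2 h3 h4 => rdeep_of (by omega) (by omega) c2 C hx h1 h2 h3 h4
      sdeep := fun _ _ _ _ C _ hx _ h1 h3 h4 => sdeep_of (by omega) (by omega) c1 C hx h1 h3 h4 }
  have L := W.lkT (by omega) h10 c6 hu I (hcell _ _ _ W) (hk _ _ _ W hu)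
  have hlow : ∀ z x x' : P, Cg z x x' → Sok j x → Sok j x' → j + 1 ≤ lev z →
      ∀ k, k < w → nab k z = 2 := by
    intro z x x' h hs hs' hl k hk
    rw [h.sum H (by omega), K.low_one' hF h10 hwj h hs hk, K.low_one' hF h10 hwj h.symm hs' hk]
  have hpen : OnePen P j (fun t => 2 ≤ hi t w - lo t w + 1) ∨ ∃ z : P, Hul.Jn z ∧
      ful w z ≤ (j + 1 - w) ^ 2 + 5 * (j - w) := by
    rcases K.pen_or with h | ⟨hodd, z, x, x', h1, h2, h3, h4⟩
    · left
      intro e e' p p' hB
      refine h e e' p p' ?_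
      rcases shape_cases (K.comp (topOf e)) (by omega) (K.shape (topOf e)) with h | h | ⟨a, h, h3⟩
      · have := h w (by omega)
        omega
      · exact h
      · have h4 := h.lt (h3 (by omega)) hwj
        have e1 := h.low w (by omega)
        omega
    · right
      have hs : Sok j x := ⟨fun hf => by
        have := hf.1
        have := (h1.lev_eq H).1
        omega, fun _ hf => by
        have := hf.2.1
        omega⟩
      have hs' : Sok j x' := ⟨fun hf => by
        have := hf.1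
        have := (h1.lev_eq H).2
        omega, fun _ hf => by
        have := hf.2.1
        omega⟩
      exact ⟨z, h1.jn, K.cheap (by omega) hodd hE h0 (hb hodd) h1 h2 h3 h4
        (hlow z x x' h1 hs hs' h2.ge)⟩
  obtain ⟨v, -, h⟩ := W.winBF (by omega) h12 (by omega) L h16 (cT := (cT : ℤ)) (lb := lb)
    (by push_cast; ring) (by exact_mod_cast c7) hl0 hlE hlO hlow hpen hJ
  exact ⟨_, h⟩

end Pool.Agent.GaussPoset.Sm

end
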