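import Mathlib
import Pool.Agent.W_448zz_h61.Ns
import Pool.Agent.W_448zz_h61.M129
import Pool.Agent.W_448zz_h61.M134
import Pool.Agent.W_448zz_h61.M141

/-! From `Pool.Agent.W_448s7_h27.PhJ16` -/

section

/-!
S7 for `j = 16`: the windows `0, …, 4` (MP_448cb3_co).
-/

namespace Pool.Agent.GaussPoset.Sm

set_option linter.unusedSectionVars false

open Finset Wd Ec W4

universe u

variable {P : Type u} [Fintype P] [PartialOrder P] [DecidableEq P] {r : ℕ}

/-- ends -/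
def Ef16 : List (ℕ × ℕ × ℕ × ℕ) :=
    [(0, 0, 0, 0), (1, 2, 1, 0), (1, 3, 0, 0), (1, 4, 0, 0), (1, 5, 0, 0), (1, 6, 0, 0),
     (1, 7, 0, 0), (1, 8, 0, 0), (3, 9, 1, 0), (5, 20, 1, 0), (5, 25, 0, 0), (10, 80, 0, 1)]

/-- sides, one level deeper -/
def Sf16a : List (ℕ × ℕ × ℕ × ℕ) :=
    [(0, 0, 0, 0), (0, 0, 1, 0), (1, 1, 0, 0), (1, 1, 1, 0), (1, 2, 0, 0), (1, 3, 0, 0),
     (1, 4, 0, 0), (1, 5, 0, 0), (1, 6, 0, 0), (1, 7, 0, 0), (1, 8, 0, 0), (2, 3, 1, 0),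
     (3, 6, 0, 0), (3, 6, 1, 0), (3, 9, 0, 0), (4, 7, 1, 0), (4, 10, 1, 0), (5, 12, 1, 0),
     (5, 15, 0, 0), (5, 15, 1, 0), (5, 20, 0, 0), (5, 25, 0, 0), (6, 13, 1, 0), (6, 16, 1, 0),
     (6, 21, 1, 0), (7, 23, 1, 0), (7, 28, 1, 0), (8, 24, 1, 0), (8, 31, 0, 0), (8, 31, 1, 0),
     (9, 33, 0, 0), (10, 34, 1, 0), (10, 80, 0, 1)]

/-- sides, two or more levels deeper -/
def Sf16b : List (ℕ × ℕ × ℕ × ℕ) :=
    [(0, 0, 0, 0), (0, 0, 1, 0), (1, 1, 0, 0), (1, 1, 1, 0), (1, 1, 2, 0), (1, 2, 0, 0),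
     (1, 3, 0, 0), (1, 4, 0, 0), (1, 5, 0, 0), (1, 6, 0, 0), (1, 7, 0, 0), (1, 8, 0, 0),
     (2, 3, 0, 0), (2, 3, 1, 0), (2, 3, 2, 0), (3, 6, 0, 0), (3, 6, 1, 0), (3, 9, 0, 0),
     (4, 7, 1, 0), (4, 7, 2, 0), (4, 7, 3, 0), (4, 10, 0, 0), (4, 10, 1, 0), (4, 10, 2, 0),
     (5, 12, 0, 0), (5, 12, 1, 0), (5, 15, 0, 0), (5, 15, 1, 0), (5, 20, 0, 0), (5, 25, 0, 0),
     (6, 13, 1, 0), (6, 13, 2, 0), (6, 13, 3, 0), (6, 16, 1, 0), (6, 16, 2, 0), (6, 21, 0, 0),
     (6, 21, 1, 0), (7, 23, 0, 0), (7, 23, 1, 0), (7, 28, 0, 0), (7, 28, 1, 0), (8, 24, 1, 0),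
     (8, 24, 2, 0), (8, 24, 3, 0), (8, 31, 0, 0), (8, 31, 1, 0), (9, 33, 0, 0), (10, 34, 1, 0),
     (10, 34, 2, 0), (10, 80, 0, 1), (11, 35, 1, 0), (11, 35, 2, 0), (11, 35, 3, 0),
     (11, 35, 4, 0)]

lemma chkEf16 : ChkE4 16 Ef16 := by decide +kernel

lemma chkSf16a : ChkT4 16 Sf16a := by decide +kernel

lemma chkSf16b : ChkS4 16 Sf16b := by decide +kernel

/-- caps -/
def cf16 (w : ℕ) : ℤ :=
  if w = 3 then 90 else if w = 4 then 80 else cr16 w

/-- caps as a list -/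
def cfl16 : List (ℕ × ℕ) := [(16, 138), (15, 119), (14, 101), (13, 90), (12, 80)]

lemma capf16 : CapL 16 4 cf16 cfl16 := by decide +kernel

/-- lines with `g + 300`, two elements above on the level `4` -/
def tAf16 : List (List ℕ) :=
  [[300], [292, 293, 294, 295, 296, 297, 298], [284, 285, 286, 287, 288, 289, 290, 291, 292,
   293, 294, 295, 296, 303], [291, 295, 296, 297, 298, 299, 300, 301, 302, 303], [283, 284, 285,
   286, 287, 288, 289, 290, 291, 292, 293, 294, 295, 296, 297, 298, 299, 300, 301, 302, 303,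
   308], [275, 280, 294, 295, 296, 297, 298, 299, 300, 301, 302, 303, 304, 305, 306, 307, 308,
   309], [267, 268, 269, 270, 271, 272, 273, 274, 275, 276, 277, 278, 282, 286, 287, 288, 289,
   290, 291, 292, 293, 294, 295, 296, 297, 298, 299, 300, 301, 302, 303, 304, 305, 306, 307,
   308, 309, 310, 315], [278, 283, 288, 289, 290, 291, 292, 293, 294, 295, 296, 297, 298, 299,
   300, 301, 302, 303, 304, 305, 306, 307, 308, 309, 310, 311, 312, 313, 314, 315, 316, 317],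
   [266, 270, 271, 272, 273, 274, 275, 276, 277, 278, 279, 280, 281, 282, 283, 284, 285, 286,
   287, 288, 289, 290, 291, 292, 293, 294, 295, 296, 297, 298, 299, 300, 301, 302, 303, 304,
   305, 306, 307, 308, 309, 310], [277, 280, 281, 282, 283, 284, 285, 286, 287, 288, 289, 290,
   291, 292, 293, 294], [250, 255, 260, 269, 272, 274, 275, 276, 277, 278], [], [], [], [], [],
   [], [], [], [], []]

/-- lines with `g + 300`, at least three elements above on the level `4` -/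
def tBf16 : List (List ℕ) :=
  [[], [], [], [], [], [], [], [], [], [], [220], [212, 213, 214, 215, 216, 217, 218], [223],
   [211, 215, 216, 217, 218, 219, 220, 221, 222, 223], [], [195, 200], [], [], [], [], [140]]

/-- without two `E7` ends -/
def tBx16 : List (List ℕ) :=
  [[], [], [], [], [], [], [], [], [], [], [220], [212, 213, 214, 215, 216, 217, 218], [223],
   [211, 215, 216, 217, 218, 219, 220, 221, 222, 223], [], [195, 200], [], [], [], [], []]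

/-- lines -/
def LA16 : List (List ℤ) :=
  [[0], [-8, -7, -6, -5, -4, -3, -2], [-16, -15, -14, -13, -12, -11, -10, -9, -8, -7, -6, -5,
   -4, 3], [-9, -5, -4, -3, -2, -1, 0, 1, 2, 3], [-17, -16, -15, -14, -13, -12, -11, -10, -9,
   -8, -7, -6, -5, -4, -3, -2, -1, 0, 1, 2, 3, 8], [-25, -20, -6, -5, -4, -3, -2, -1, 0, 1, 2,
   3, 4, 5, 6, 7, 8, 9], [-33, -32, -31, -30, -29, -28, -27, -26, -25, -24, -23, -22, -18, -14,
   -13, -12, -11, -10, -9, -8, -7, -6, -5, -4, -3, -2, -1, 0, 1, 2, 3, 4, 5, 6, 7, 8, 9, 10,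
   15], [-22, -17, -12, -11, -10, -9, -8, -7, -6, -5, -4, -3, -2, -1, 0, 1, 2, 3, 4, 5, 6, 7, 8,
   9, 10, 11, 12, 13, 14, 15, 16, 17], [-34, -30, -29, -28, -27, -26, -25, -24, -23, -22, -21,
   -20, -19, -18, -17, -16, -15, -14, -13, -12, -11, -10, -9, -8, -7, -6, -5, -4, -3, -2, -1, 0,
   1, 2, 3, 4, 5, 6, 7, 8, 9, 10], [-23, -20, -19, -18, -17, -16, -15, -14, -13, -12, -11, -10,
   -9, -8, -7, -6], [-50, -45, -40, -31, -28, -26, -25, -24, -23, -22], [], [], [], [], [], [],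
   [], [], [], []]

/-- lines -/
def LB16 : List (List ℤ) :=
  [[], [], [], [], [], [], [], [], [], [], [-80], [-88, -87, -86, -85, -84, -83, -82], [-77],
   [-89, -85, -84, -83, -82, -81, -80, -79, -78, -77], [], [-105, -100], [], [], [], [], [-160]]

/-- lines -/
def LX16 : List (List ℤ) :=
  [[], [], [], [], [], [], [], [], [], [], [-80], [-88, -87, -86, -85, -84, -83, -82], [-77],
   [-89, -85, -84, -83, -82, -81, -80, -79, -78, -77], [], [-105, -100], [], [], [], [], []]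

lemma LA16_eq : LA16 = tabI tAf16 := by decide +kernel

lemma LB16_eq : LB16 = tabI tBf16 := by decide +kernel

lemma LX16_eq : LX16 = tabI tBx16 := by decide +kernel

lemma ff16a : fst1F cfl16 tAf16 tBf16 Sf16a = true := by decide +kernel

lemma ff16b : fst2F cfl16 tAf16 tBf16 Sf16b = true := by decide +kernel

lemma fx16a : fst1F cfl16 tAf16 tBx16 Sf16a = true := by decide +kernel

lemma fx16b : fst2F cfl16 tAf16 tBx16 Sf16b = true := by decide +kernel

theorem tabf16 : TabF 16 4 cf16 LA16 LB16 Ef16 Sf16a Sf16b XN := by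
  refine ⟨by norm_num, by norm_num, chkEf16, chkSf16a, chkSf16b, ?_, ?_, ?_, ?_, ?_, ?_, ?_, ?_⟩
  · decide +kernel
  · decide +kernel
  · decide +kernel
  · decide +kernel
  · decide +kernel
  · rw [LA16_eq, LB16_eq]
    exact chk1F_of capf16 ff16a
  · rw [LA16_eq, LB16_eq]
    exact chk2F_of (by norm_num) capf16 ff16b
  · decide +kernel

theorem tabx16 : TabF 16 4 cf16 LA16 LX16 Ef16 Sf16a Sf16b (XQ (10, 80, 0)) := by
  refine ⟨by norm_num, by norm_num, chkEf16, chkSf16a, chkSf16b, ?_, ?_, ?_, ?_, ?_, ?_, ?_, ?_⟩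
  · decide +kernel
  · decide +kernel
  · decide +kernel
  · decide +kernel
  · decide +kernel
  · rw [LA16_eq, LX16_eq]
    exact chk1F_of capf16 fx16a
  · rw [LA16_eq, LX16_eq]
    exact chk2F_of (by norm_num) capf16 fx16b
  · decide +kernel

section

variable {lo hi : Tops P → ℕ → ℕ} {e : Tops P → ℕ → ℕ → P}

end

end Pool.Agent.GaussPoset.Sm

end

/-! From `Pool.Agent.W_448w8_h94.GxA` -/

section

/-!
S7 for `j = 16`, the windows `0, …, 4` without own elements at window `3` (MP_448cb3_co).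
-/

namespace Pool.Agent.GaussPoset.Sm

set_option linter.unusedSectionVars false

open Finset Wd Ec W4

universe u

variable {P : Type u} [Fintype P] [PartialOrder P] [DecidableEq P] {r j w : ℕ}

section

variable {J : ℤ} {W : ℕ} {cap cap' : ℕ → ℤ} {tA tB : List (List ℤ)} {f : ℕ} {κ g : ℤ}

lemma dead_cap (hc : ∀ w ≤ W, cap' w ≤ cap w) (h : dead J W cap κ g = true) :
    dead J W cap' κ g = true := by
  unfold dead at h ⊢
  rw [List.all_eq_true] at h ⊢
  intro w hw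
  have h1 := h w hw
  rw [decide_eq_true_eq] at h1 ⊢
  have h2 := hc w (by
    rw [List.mem_range] at hw
    omega)
  linarith

lemma okF_cap (hc : ∀ w ≤ W, cap' w ≤ cap w) (h : okF J W cap tA tB f κ g = true) :
    okF J W cap' tA tB f κ g = true := by
  unfold okF at h ⊢
  rw [Bool.or_eq_true] at h ⊢
  exact h.imp (dead_cap hc) id

end

/-- the tables for smaller caps -/
lemma TabF.mono {j W : ℕ} {cap cap' : ℕ → ℤ} {tA tB : List (List ℤ)}
    {E S1 S2 : List (ℕ × ℕ × ℕ × ℕ)} {X : ℕ × ℕ × ℕ → ℕ × ℕ × ℕ → Bool}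
    (h : TabF j W cap tA tB E S1 S2 X) (hc : ∀ w ≤ W, cap' w ≤ cap w) :
    TabF j W cap' tA tB E S1 S2 X where
  h12 := h.h12
  wj := h.wj
  e := h.e
  s1 := h.s1
  s2 := h.s2
  e0 := h.e0
  s10 := h.s10
  s20 := h.s20
  len := h.len
  c0 := by
    have h0 := h.c0
    unfold chk0F at h0 ⊢
    rw [List.all_eq_true] at h0 ⊢
    intro s hs
    have h1 := h0 s hs
    rw [List.all_eq_true] at h1 ⊢
    intro s' hs'
    have h2 := h1 s' hs'
    rw [Bool.or_eq_true] at h2 ⊢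
    exact h2.imp id (okF_cap hc)
  c1 := by
    have h0 := h.c1
    unfold chk1F at h0 ⊢
    rw [List.all_eq_true] at h0 ⊢
    intro s hs
    have h1 := h0 s hs
    rw [List.all_eq_true] at h1 ⊢
    intro s' hs'
    exact okF_cap hc (h1 s' hs')
  c2 := by
    have h0 := h.c2
    unfold chk2F at h0 ⊢
    rw [List.all_eq_true] at h0 ⊢
    intro s hs
    have h1 := h0 s hs
    rw [List.all_eq_true] at h1 ⊢
    intro s' hs'
    have h2 := h1 s' hs'
    rw [List.all_eq_true] at h2 ⊢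
    intro q hq
    have h3 := h2 q hq
    rw [Bool.or_eq_true] at h3 ⊢
    refine h3.imp id fun h3 => ?_
    rw [List.all_eq_true] at h3 ⊢
    intro n hn
    have h4 := h3 n hn
    rw [List.all_eq_true] at h4 ⊢
    intro d hd
    have h5 := h4 d hd
    rw [Bool.or_eq_true] at h5 ⊢
    exact h5.imp id (okF_cap hc)
  cb := by
    have h0 := h.cb
    unfold chkBF at h0 ⊢
    rw [List.all_eq_true] at h0 ⊢
    intro w hw
    have h1 := h0 w hw
    rw [Bool.and_eq_true, decide_eq_true_eq] at h1 ⊢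
    have h2 := hc w (by
      rw [List.mem_range] at hw
      omega)
    exact ⟨by linarith [h1.1], h1.2⟩

variable {lo hi : Tops P → ℕ → ℕ} {e : Tops P → ℕ → ℕ → P}

/-- the balance at window `3` up to the naive cap -/
theorem w3h16 (K : Ctx P r 16 lo hi e) : W3H P r 16 lo hi 88 (nor16 3) (ner16 3) 0 := by
  intro N θ3 θ4 S hJ
  obtain ⟨v, h1, h2, h3⟩ := win3_sy K (by norm_num) S (cT := 88) (LE := []) (LO := [47])
    (lb := 0) chkEr16 (by decide +kernel)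
    (fun h => absurd h (by norm_num))
    (by decide +kernel) (by decide +kernel)
    (fun h => absurd h (by norm_num))
    (fun _ => by decide +kernel)
    (fun _ => Or.inr ⟨by decide +kernel, by decide +kernel⟩)
    (by norm_num) (by norm_num) (by norm_num) (by decide +kernel) (by decide +kernel) hJ
  exact ⟨_, v, h1, h2, h3⟩

/-- caps -/
def cg16 (w : ℕ) : ℤ := if w = 4 then 75 else cr16 w

lemma cg16_le : ∀ w ≤ 4, cg16 w ≤ cf16 w := by decide +kernel

theorem tabg16 : TabF 16 4 cg16 LA16 LB16 Ef16 Sf16a Sf16b XN := tabf16.mono cg16_le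

theorem tabgx16 : TabF 16 4 cg16 LA16 LX16 Ef16 Sf16a Sf16b (XQ (10, 80, 0)) :=
  tabx16.mono cg16_le

/-- the windows `0, …, 3` -/
lemma sg16 : rnds (aX LA16 LB16 [] ((16 : ℕ) : ℤ)) nor16 ner16 cg16 (odds LA16.length)
    (evens LA16.length) ((16 : ℕ) : ℤ) 300 4 26
    ((List.range 4).map fun w => min (lwr16 w) (cg16 w + 1)) = [120, 112, 102, 89] := by
  decide +kernel

lemma restg16 : restF 16 Ef16 (XQ (10, 80, 0)) [120, 112, 102, 89] [75] =
    [((5, 20, 1), (10, 80, 0)), ((10, 80, 0), (5, 20, 1))] := by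
  decide +kernel

/-- **The joins of level `17` after the windows `0, …, 4`**: only `E7` with `(5;20)` -/
theorem leftg16 (K : Ctx P r 16 lo hi e) {z x x' : P} (h : Cg z x x') (hl : lev z = 17)
    (hs : Sok 16 x) (hs' : Sok 16 x') : ∃ s s' : ℕ × ℕ × ℕ,
      (s, s') ∈ [(((5, 20, 1) : ℕ × ℕ × ℕ), ((10, 80, 0) : ℕ × ℕ × ℕ)),
        ((10, 80, 0), (5, 20, 1))] ∧ Dt 16 x s ∧ Dt 16 x' s' := by
  classical
  have hN := noP_XN (P := P) 16
  have T := tabg16
  have hJ : ∃ z : P, Hul.Jn z := ⟨z, h.jn⟩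
  obtain ⟨N, θ3, θ4, Nf, θf, D, S, F⟩ := exists_fs K (by norm_num)
  obtain ⟨K3, v, M, W, B3⟩ := w3h16 K N θ3 θ4 S hJ
  have hb := balr16 K (noFo_big (by norm_num)) hJ
  obtain ⟨V0, h0⟩ := hb 0 (by norm_num)
  obtain ⟨V1, h1⟩ := hb 1 (by norm_num)
  obtain ⟨V2, h2⟩ := hb 2 (by norm_num)
  obtain ⟨V, hV0, hV1, hV2, hV3⟩ : ∃ V : ℕ → ℤ, V 0 = V0 ∧ V 1 = V1 ∧ V 2 = V2 ∧
      V 3 = (v : ℤ) - ((16 + 1 - 3 : ℕ) : ℤ) ^ 2 :=
    ⟨fun w => if w = 0 then V0 else if w = 1 then V1 else if w = 2 then V2 else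
      (v : ℤ) - ((16 + 1 - 3 : ℕ) : ℤ) ^ 2, rfl, rfl, rfl, rfl⟩
  have hB : Bals P 16 cg16 nor16 ner16 lwr16 V := by
    intro w hw
    have : w = 0 ∨ w = 1 ∨ w = 2 ∨ w = 3 := by omega
    rcases this with rfl | rfl | rfl | rfl
    · rw [hV0]; exact h0
    · rw [hV1]; exact h1
    · rw [hV2]; exact h2
    · rw [hV3]; exact B3
  obtain ⟨hF1, hF2⟩ := fo_cost K (by norm_num) chkEr16 (by decide +kernel) (n := 255)
    (by decide +kernel) (by decide +kernel)
  have s1 : StF P 16 V [120, 112, 102, 89] [] := sg16 ▸ K.sweepF hN T hB (StF.start hB) 300 26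
  have Y : Y4 r 16 K3 (13 ^ 2 + 75) (14 ^ 2 + 81) N _ θ3 θ4 :=
    y4_of S W M (s1.v3 hV3 (by norm_num)) nm_16_75
  have hno : HnO P 16 (13 ^ 2 + 75) := fun _ => Or.inl (by decide +kernel)
  have hj234 : ∀ z x x' : P, Cg z x x' → 234 ≤ ful 4 z :=
    K.costF hN T hB s1 (T0 := 65) (hF1.mono (by norm_num)) (by decide +kernel)
      (by decide +kernel) (by decide +kernel) (fun _ => by decide +kernel)
  have hE2 := F.no_E2_16 K Y hno (by norm_num) hj234
  have hOw := F.no_own_16 K Y hno (by norm_num) fun z x x' h => le_trans (by norm_num) (hj234 z x x' h)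
  have hN2 := K.noP_XQ (b := 0) F row5_16 chkW16 (by norm_num) (by decide +kernel) hE2
  have T2 := tabgx16
  have s2 : StF P 16 V [120, 112, 102, 89] [75] :=
    K.stepF hN2 T2 hB s1 (T0 := 75) (p := 1) (hF1.mono (by norm_num))
      (by decide +kernel) (by decide +kernel) (by decide +kernel) (by decide +kernel)
      (fun _ => by decide +kernel)
      (fun hj hp => F.killG16 K Y hno (by norm_num) (hF2 _ (by norm_num))
        (Or.inr (Or.inr ⟨by norm_num, hE2, hOw⟩)) hj hp)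
  obtain ⟨s, s', g1, d, d'⟩ := K.leftS hN2 T2 hB s2 h hl hs hs'
  rw [restg16] at g1
  exact ⟨s, s', g1, d, d'⟩

end Pool.Agent.GaussPoset.Sm

end

/-! From `Pool.Agent.W_448w8_h94.GxC` -/

section

/-!
S7 for `j = 16` (MP_448cb3_co): the window `8`.
-/

namespace Pool.Agent.GaussPoset.Fi

set_option linter.unusedSectionVars false

open Polynomial Finset

universe u

variable {P : Type u} [Fintype P] [PartialOrder P] [DecidableEq P] {r K : ℕ}
  {N : Tops P → Finset P} {b : Tops P → ℕ} {θ : Tops P → P → ℕ}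

/-- number of extra elements -/
def mp (j : ℕ) (p : List ℕ) : ℕ := ∑ k ∈ range j, gD p (j - k)

/-- total depth of the extra elements -/
def cp (j : ℕ) (p : List ℕ) : ℕ := ∑ k ∈ range j, gD p (j - k) * (j - k)

lemma Prof.nab8 {x : P} {p : ℕ → ℕ} (h : Prof 8 x p) {k : ℕ} (hk : k < 16) :
    (nab k x : ℤ) - 1 = p (16 - k) := by
  have h1 := h (16 - k) (by omega)
  rw [show 2 * 8 - (16 - k) = k by omega] at h1
  rw [h1]
  push_cast
  ring

lemma Prof.mX8 {x : P} {p : List ℕ} (h : Prof 8 x (gD p)) :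
    mX 16 x = mp 16 p ∧ cX 16 x = cp 16 p := by
  constructor
  · unfold mX mp
    rw [Nat.cast_sum]
    exact Finset.sum_congr rfl fun k hk => h.nab8 (mem_range.mp hk)
  · unfold cX cp
    rw [Nat.cast_sum]
    refine Finset.sum_congr rfl fun k hk => ?_
    have hk' := mem_range.mp hk
    rw [h.nab8 hk', Nat.cast_mul, Nat.cast_sub hk'.le]

/-- the pairs of ends which are left -/
def lp16 : List ((ℕ × ℕ × ℕ) × (ℕ × ℕ × ℕ)) :=
  [((5, 20, 1), (10, 80, 0)), ((10, 80, 0), (5, 20, 1))]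

/-- the joins of level `17` without fold end -/
def HJ8 (P : Type u) [Fintype P] [PartialOrder P] [DecidableEq P] : Prop :=
  ∀ z x x' : P, lev z = 2 * 8 + 1 → z ⋖ x → z ⋖ x' → topOf x ≠ topOf x' → ¬ Fd 8 x →
    ¬ Fd 8 x' → ∃ s s', (s, s') ∈ lp16 ∧ Sm.Dt 16 x s ∧ Sm.Dt 16 x' s'

/-- costs and signs of the joins with a heavy end -/
lemma hv_ok : ∀ p ∈ HL 8 8, ∀ p' ∈ PL 8 8 ++ HL 8 8,
    (∃ q ∈ lp16, q.1.1 = mp 16 p ∧ q.1.2.1 = cp 16 p ∧ q.2.1 = mp 16 p' ∧ q.2.2.1 = cp 16 p') →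
    vsQ 8 8 1 (fun d => (1 + gD p d) + (1 + gD p' d)) + 1 = 26 ∧
    okR 8 8 1 27 (fun n => if n = 9 then 0 else if n = 26 then 0 else 1) (fun _ => 0)
      (fun d => (1 + gD p d) + (1 + gD p' d)) := by
  decide +kernel

/-- the data of the pair -/
lemma HJ8.pair (hJ : HJ8 P) {z x x' : P} (hl : lev z = 2 * 8 + 1) (hzx : z ⋖ x) (hzx' : z ⋖ x')
    (ht : topOf x ≠ topOf x') (hf : ¬ Fd 8 x) (hf' : ¬ Fd 8 x') {p p' : List ℕ}
    (hpr : Prof 8 x (gD p)) (hpr' : Prof 8 x' (gD p')) :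
    ∃ q ∈ lp16, q.1.1 = mp 16 p ∧ q.1.2.1 = cp 16 p ∧ q.2.1 = mp 16 p' ∧ q.2.2.1 = cp 16 p' := by
  obtain ⟨s, s', h3, h4, h5⟩ := hJ z x x' hl hzx hzx' ht hf hf'
  obtain ⟨e1, e2⟩ := hpr.mX8
  obtain ⟨e3, e4⟩ := hpr'.mX8
  refine ⟨_, h3, ?_, ?_, ?_, ?_⟩
  · have := h4.1
    rw [e1] at this
    exact_mod_cast this.symm
  · have := h4.2.1
    rw [e2] at this
    exact_mod_cast this.symm
  · have := h5.1
    rw [e3] at this
    exact_mod_cast this.symm
  · have := h5.2.1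
    rw [e4] at this
    exact_mod_cast this.symm

/-- heavy ends are no fold ends -/
lemma he_not_fd {x : P} {p : List ℕ} (hp : p ∈ HL 8 8) (hpr : Prof 8 x (gD p)) : ¬ Fd 8 x := by
  rintro ⟨-, -, h5⟩
  have h6 := hpr 14 (by norm_num)
  have h7 : ∀ p ∈ HL 8 8, gD p 14 = 0 := by decide
  rw [h7 p hp, show 2 * 8 - 14 = 2 by norm_num] at h6
  omega

/-- **No pendants below heavy ends and fold ends, no joins of `E7` with `(5;20)`, `j = 16`** -/
theorem lad27 (W : WC r 8 8 K N b θ) (hK : 43 ≤ K) (hJ : HJ8 P) :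
    ∀ z ∈ bdR (r2 (2 * 8) N), 27 ≤ cst 8 (h2 (2 * 8) N θ) z := by
  have L : Lad 8 8 K N θ 27 (fun _ : P => False) (fun _ => 0)
      (sg P 8 (fun n => if n = 9 then 0 else if n = 26 then 0 else 1)) (sg P 8 (fun _ => 0)) := by
    refine ⟨by omega, fun z y h _ => h.elim, fun z _ h => h.elim, sg_ne _, sg_ne _,
      fun z _ h => h.elim, fun z _ h => h.elim, ?_⟩
    intro z hz _ hl
    rcases W.rows0 (by decide) (bd_mem hz) hl with ⟨x, hx, hp, hn⟩ | ⟨x, hx, hp, p, hp', hn⟩ |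
      ⟨x, x', hx, hx', ht, hzx, hzx', p, hp, hpr, hn⟩ | ⟨x, x', hx, hx', ht, hzx, hzx', hn⟩ |
      ⟨x, x', hx, hx', h1, ht, hzx, hzx', p, hp, hpr, hn⟩ |
      ⟨x, x', hx, h1, ht, hzx, hzx', p, p', hp, hp', hpr, hpr', hnf, hn⟩ |
      ⟨x, x', hx, h1, ht, hne, hzx, hzx'⟩ | ⟨hF, h⟩
    · exact nq_ok hn (by decide)
    · refine nq_ok hn ?_
      have h3 : ∀ p ∈ HL 8 8, okR 8 8 1 27
        (fun n => if n = 9 then 0 else if n = 26 then 0 else 1) (fun _ => 0)
        (fun d => 1 + gD p d) := by decide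
      exact h3 p hp'
    · refine nq_ok hn ?_
      have h3 : ∀ p ∈ HL 8 8, 27 ≤ vsQ 8 8 1 (fun d => 1 + pF 8 d + (1 + gD p d)) + 1 := by
        decide
      exact Or.inl (h3 p hp)
    · exact nq_ok hn (by decide)
    · refine nq_ok hn ?_
      have h3 : ∀ p ∈ PL 8 8, 27 ≤ vsQ 8 8 (kF 8 8) (fun d => (1 + pF 8 d) + (1 + gD p d)) +
        kF 8 8 := by decide
      exact Or.inl (h3 p hp)
    · exact nq_ok hn (hv_ok p hp p' hp'
        (hJ.pair hl hzx hzx' ht (he_not_fd hp hpr) hnf hpr hpr')).2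
    · left
      rw [(W.cc_data (bd_mem hz) ⟨hl, x, x', hx, h1, ht, hne, hzx, hzx'⟩).2.2]
      decide
    · left
      refine le_trans ?_ h
      norm_num
  exact fun z hz => (W.wi.ladder L).2 z hz (fun h => h)

/-- the seventh step -/
theorem s7f_of_hJ8 (W : WC r 8 8 K N b θ) (hK : 43 ≤ K) (hJ : HJ8 P) : S7F P 8 := by
  have H := W.gt.H
  intro z x x' hl hzx hzx' ht
  by_contra hcon
  rw [not_or] at hcon
  obtain ⟨hf, hf'⟩ := hcon
  have hz := W.join_r2 ht hzx hzx'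
  have hc := lad27 W hK hJ z (W.wi.mem_bd hz hl)
  have hne : x ≠ x' := fun h => ht (by rw [h])
  have htop : ∀ y, z ⋖ y → ¬ Fd 8 y := by
    intro y hy
    rcases uc_pair H hzx hzx' hne hy with e | e
    · rw [e]; exact hf
    · rw [e]; exact hf'
  rcases W.rows0 (by decide) hz hl with ⟨y, hy, hp, hn⟩ | ⟨y, hy, hp, p, hp', hn⟩ |
    ⟨y, y', hy, hy', hty, hzy, hzy', p, hp, hpr, hn⟩ | ⟨y, y', hy, hy', hty, hzy, hzy', hn⟩ |
    ⟨y, y', hy, hy', h1, hty, hzy, hzy', p, hp, hpr, hn⟩ |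
    ⟨y, y', hy, h1, hty, hzy, hzy', p, p', hp, hp', hpr, hpr', hnf, hn⟩ |
    ⟨y, y', hy, h1, hty, hney, hzy, hzy'⟩ | ⟨hF, h⟩
  · exact htop y hp.1 hy
  · exact hne ((hp.2 x hzx).trans (hp.2 x' hzx').symm)
  · exact htop y hzy hy
  · exact htop y hzy hy
  · exact htop y hzy hy
  · have h3 := (hv_ok p hp p' hp'
      (hJ.pair hl hzy hzy' hty (he_not_fd hp hpr) hnf hpr hpr')).1
    rw [hn.cst, h3] at hc
    omega
  · exact htop y hzy hy
  · obtain ⟨u1, u2⟩ := single_of_join W.gt (by omega) hl hzx hzx' ht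
    have l1 := (H.covBy_iff.mp hzx).2
    have l2 := (H.covBy_iff.mp hzx').2
    obtain ⟨p, hp, hpr, -⟩ := W.full_prof (by omega) (hF x hzx) u1
    obtain ⟨p', hp', hpr', -⟩ := W.full_prof (by omega) (hF x' hzx') u2
    obtain ⟨q, h3, h4, h5, h6, h7⟩ := hJ.pair hl hzx hzx' ht hf hf' hpr hpr'
    have h8 : ∀ p ∈ PL 8 8, mp 16 p ≠ 10 := by decide +kernel
    have h9 : ∀ q ∈ lp16, q.1.1 = 10 ∨ q.2.1 = 10 := by decide
    rcases h9 q h3 with h10 | h10
    · exact h8 p hp (h4.symm.trans h10)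
    · exact h8 p' hp' (h6.symm.trans h10)

/-- the joins after the windows `0, …, 4` -/
theorem hJ8_of {lo hi : Tops P → ℕ → ℕ} {e : Tops P → ℕ → ℕ → P}
    (Kc : Sm.Ctx P r 16 lo hi e) : HJ8 P := by
  have H := Kc.gt.H
  intro z x x' hl hx hx' ht hf hf'
  have l1 := (H.covBy_iff.mp hx).2
  have l2 := (H.covBy_iff.mp hx').2
  have hc : Sm.Cg z x x' := Sm.Cg.mk' hx hx' (only_of_le H Kc.gt.good (le_topOf x) (by omega))
    (only_of_le H Kc.gt.good (le_topOf x') (by omega)) ht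
  obtain ⟨u1, u2⟩ := Kc.ends hc (by omega)
  have key : ∀ y : P, Sm.Fold 16 y → (Win.uc y).card = 1 → Fi.Fd 8 y := by
    intro y hy hu
    have h2 := hy.2.2 2 (by norm_num)
    exact ⟨hy.1, hu, by omega⟩
  have hs : Sm.Sok 16 x := ⟨fun hf => by have := hf.1; omega, fun _ h => hf (key x h u1)⟩
  have hs' : Sm.Sok 16 x' := ⟨fun hf => by have := hf.1; omega, fun _ h => hf' (key x' h u2)⟩
  exact Sm.leftg16 Kc hc (by omega) hs hs'

/-- **S7 for `j = 16`**, without any hypothesis at window `3` -/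
theorem s7f16 (G : Win.GoodTo P r 16) (hr : 16 + 1 ≤ r)
    {lo hi : Tops P → ℕ → ℕ} {e : Tops P → ℕ → ℕ → P}
    (C : ∀ t : Tops P, Cp.Comp 16 (t : P) (lo t) (hi t) (e t))
    (hS : ∀ t, Wd.Shape 16 (lo t) (hi t)) : S7F P 8 := by
  obtain ⟨N, θ, W⟩ := exists_WC (i := 8) (m := 8) (Or.inl ⟨rfl, rfl⟩) G hr C hS kapR88 kapS88
    (by norm_num)
  exact s7f_of_hJ8 W le_rfl (hJ8_of ⟨G, by norm_num, by norm_num, C, hS⟩)

end Pool.Agent.GaussPoset.Fi

end
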