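import Mathlib
import Pool.Agent.W_448zz_h61.Ns
import Pool.Agent.W_448zz_h61.M022
import Pool.Agent.W_448zz_h61.M046
import Pool.Agent.W_448zz_h61.M117

/-! From `Pool.Agent.W_448so_h63.GD` -/

section

/-!
The identity (6,4) at the window j (MP_448cb3_co, case B): the inequality for a configuration on a
component whose unmatched near elements form a star.
-/

namespace Pool.Agent.GaussPoset.Win.K2

set_option linter.unusedSectionVars false

open Finset I2

universe u

variable {P : Type u} [Fintype P] [PartialOrder P] [DecidableEq P] {r i : ℕ} {e : P → ℕ}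

/-- the elements of `K` in the part `C` form a star -/
structure Star (i : ℕ) (C K : Finset P) : Prop where
  two : ∀ k ∈ K, k ∈ C → ∀ k' ∈ K, k' ∈ C → k ≠ k' → ∃ x, x ∈ ns i k ∧ x ∈ ns i k'
  three : ∀ k ∈ K, k ∈ C → ∀ k' ∈ K, k' ∈ C → ∀ k'' ∈ K, k'' ∈ C → k ≠ k' → k ≠ k'' → k' ≠ k'' →
    ∀ x, x ∈ ns i k → x ∈ ns i k' → x ∈ ns i k'' →
    ns i k = ns i k' ∨ ns i k = ns i k'' ∨ ns i k' = ns i k''

/-- the bad elements -/
noncomputable def bN (i : ℕ) (e : P → ℕ) : Finset P := bL i e ∪ bU i e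

section bad

variable (H : Gr P r) (hir : i ≤ r) (hq : NoQ P (i + 2)) (hg : ∀ m, m + 1 = i → Good P m)
include H hir hq hg

lemma bL_data {y : P} (hy : y ∈ bL i e) : lev y = i + 1 ∧ (uc y).card = 2 ∧ e y = 1 ∧
    ns i y = uc y ∧ (∃ a ∈ ns i y, e a = 0) ∧ ∀ a ∈ ns i y, e a = 0 → kr dc e a = {y} := by
  have S := side_low (i := i) H hq
  unfold bL at hy
  rw [mem_bd, mem_lS] at hy
  obtain ⟨hyS, ty, ey, ⟨a, ha, hlt⟩, cy⟩ := hy
  obtain ⟨c1, c3⟩ := cc_eq_two S cy
  have hl : lev y = i + 1 := by omega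
  have hn : ns i y = uc y := by unfold ns; rw [if_pos hl]
  refine ⟨hl, c1, ey, hn, ⟨a, by rw [hn]; exact ha, by omega⟩, ?_⟩
  intro b hb hb0
  rw [hn] at hb
  have h1 := c3 b hb (by omega)
  rw [Finset.card_eq_one] at h1
  obtain ⟨w, hw⟩ := h1
  have h2 : y ∈ kr dc e b := mem_kr.2 ⟨mem_dc.2 (mem_uc.1 hb), by omega⟩
  rw [hw, mem_singleton] at h2
  rw [hw, h2]

lemma bU_data {y : P} (hy : y ∈ bU i e) : lev y + 1 = i ∧ (dc y).card = 2 ∧ e y = 1 ∧
    ns i y = dc y ∧ (∃ a ∈ ns i y, e a = 0) ∧ ∀ a ∈ ns i y, e a = 0 → kr uc e a = {y} := by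
  have S := side_up (i := i) H hir hg
  unfold bU at hy
  rw [mem_bd, mem_uS] at hy
  obtain ⟨hyS, ty, ey, ⟨a, ha, hlt⟩, cy⟩ := hy
  obtain ⟨c1, c3⟩ := cc_eq_two S cy
  have hl : lev y + 1 = i := by omega
  have hn : ns i y = dc y := by unfold ns; rw [if_neg (by omega)]
  refine ⟨hl, c1, ey, hn, ⟨a, by rw [hn]; exact ha, by omega⟩, ?_⟩
  intro b hb hb0
  rw [hn] at hb
  have h1 := c3 b hb (by omega)
  rw [Finset.card_eq_one] at h1
  obtain ⟨w, hw⟩ := h1
  have h2 : y ∈ kr uc e b := mem_kr.2 ⟨mem_uc.2 (mem_dc.1 hb), by omega⟩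
  rw [hw, mem_singleton] at h2
  rw [hw, h2]

lemma bN_data {y : P} (hy : y ∈ bN i e) : (ns i y).card = 2 ∧ e y = 1 ∧
    (∃ a ∈ ns i y, e a = 0) ∧ ∀ a ∈ ns i y, lev a = i := by
  unfold bN at hy
  rcases mem_union.1 hy with h | h
  · obtain ⟨h1, h2, h3, h4, h5, -⟩ := bL_data H hir hq hg h
    refine ⟨by rw [h4]; exact h2, h3, h5, ?_⟩
    intro a ha
    rw [h4] at ha
    have := lev_uc H ha
    omega
  · obtain ⟨h1, h2, h3, h4, h5, -⟩ := bU_data H hir hq hg h
    refine ⟨by rw [h4]; exact h2, h3, h5, ?_⟩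
    intro a ha
    rw [h4] at ha
    have := lev_dc H ha
    omega

/-- two bad elements have no common site with label zero -/
lemma bad_disj (hd : Disjoint (AL i e) (AU i e)) {k k' a : P} (hk : k ∈ bN i e)
    (hk' : k' ∈ bN i e) (hne : k ≠ k') (ha : a ∈ ns i k) (ha' : a ∈ ns i k') : e a ≠ 0 := by
  intro h0
  have key : ∀ {y w : P}, y ∈ bL i e → w ∈ bU i e → a ∈ ns i y → a ∈ ns i w → False := by
    intro y w hy hw h1 h2
    obtain ⟨l1, -, e1, n1, -, -⟩ := bL_data H hir hq hg hy
    obtain ⟨l2, -, e2, n2, -, -⟩ := bU_data H hir hq hg hw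
    rw [n1] at h1
    rw [n2] at h2
    have l3 := lev_uc H h1
    have h4 : a ∈ AL i e := by
      rw [NormD_mem_AL]
      exact ⟨by omega, y, mem_uc.1 h1, by omega⟩
    have h5 : a ∈ AU i e := by
      rw [NormD_mem_AU]
      exact ⟨by omega, w, mem_dc.1 h2, by omega⟩
    exact disjoint_left.1 hd h4 h5
  unfold bN at hk hk'
  rcases mem_union.1 hk with h | h <;> rcases mem_union.1 hk' with h' | h'
  · have h1 := (bL_data H hir hq hg h).2.2.2.2.2 a ha h0
    have h2 := (bL_data H hir hq hg h').2.2.2.2.2 a ha' h0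
    rw [h1] at h2
    exact hne (Finset.singleton_injective h2)
  · exact key h h' ha ha'
  · exact key h' h ha' ha
  · have h1 := (bU_data H hir hq hg h).2.2.2.2.2 a ha h0
    have h2 := (bU_data H hir hq hg h').2.2.2.2.2 a ha' h0
    rw [h1] at h2
    exact hne (Finset.singleton_injective h2)

lemma bad_ns_ne (hd : Disjoint (AL i e) (AU i e)) {k k' : P} (hk : k ∈ bN i e)
    (hk' : k' ∈ bN i e) (hne : k ≠ k') : ns i k ≠ ns i k' := by
  intro h
  obtain ⟨-, -, ⟨a, ha, h0⟩, -⟩ := bN_data H hir hq hg hk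
  exact bad_disj H hir hq hg hd hk hk' hne ha (by rw [← h]; exact ha) h0

/-- the sites of a bad element with a labelled site -/
lemma bad_two {k x : P} (hk : k ∈ bN i e) (hx : x ∈ ns i k) (h1 : 1 ≤ e x) :
    ∃ a ∈ ns i k, e a = 0 ∧ ∀ t ∈ ns i k, t = x ∨ t = a := by
  obtain ⟨h2, -, ⟨a, ha, h0⟩, -⟩ := bN_data H hir hq hg hk
  refine ⟨a, ha, h0, ?_⟩
  intro t ht
  by_contra h
  push_neg at h
  have h3 : ({x, a, t} : Finset P) ⊆ ns i k := by
    intro s hs
    rw [mem_insert, mem_insert, mem_singleton] at hs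
    rcases hs with rfl | rfl | rfl <;> assumption
  have h4 := card_le_card h3
  have hxa : x ≠ a := by
    rintro rfl
    omega
  rw [card_insert_of_notMem, card_pair (fun h5 => h.2 h5.symm)] at h4
  · omega
  · rw [mem_insert, mem_singleton]
    rintro (h5 | h5)
    · exact hxa h5
    · exact h.1 h5.symm

end bad

section star

variable {K C : Finset P} {psi : P → P}

/-- the count of the bad elements of a star and of the full sites -/
theorem star_bound (H : Gr P r) (hir : i ≤ r) (hq : NoQ P (i + 2))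
    (hg : ∀ m, m + 1 = i → Good P m) (hM : Mat P i K psi) (hK : Star i C K) (hs : Spt C e)
    (hd : Disjoint (AL i e) (AU i e)) {XL XU : Finset P}
    (hXL : ∀ x ∈ XL, lev x = i ∧ 1 ≤ e x ∧ (∃ y, y ∈ dc x) ∧
        ∀ y ∈ dc x, y ∈ bL i e ∧ ∃ z ∈ dc y, 1 ≤ e z)
    (hXU : ∀ x ∈ XU, lev x = i ∧ 1 ≤ e x ∧ (∃ y, y ∈ uc x) ∧
        ∀ y ∈ uc x, y ∈ bU i e ∧ ∃ z ∈ uc y, 1 ≤ e z) :
    (KB i K e).card + XL.card + XU.card ≤ ∑ x ∈ lv P i, e x + 1 := by
  classical
  have hC : ∀ y, y ∈ bN i e → y ∈ C := by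
    intro y hy
    by_contra h
    have h1 := hs y h
    have h2 := (bN_data H hir hq hg hy).2.1
    omega
  have hKB : ∀ k ∈ KB i K e, k ∈ K ∧ k ∈ C ∧ k ∈ bN i e := by
    intro k hk
    rw [mem_KB] at hk
    have h1 : k ∈ bN i e := by
      unfold bN
      rcases hk.2 with h | h
      · exact mem_union_left _ h.1
      · exact mem_union_right _ h.1
    exact ⟨hk.1, hC k h1, h1⟩
  -- elements of `KB` are not next to full sites of their side
  have P1 : ∀ x ∈ XL, ∀ k ∈ KB i K e, x ∈ ns i k → k ∈ bU i e ∧ k ∈ uc x := by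
    intro x hx k hk hxk
    obtain ⟨l1, -, -, hx2⟩ := hXL x hx
    rw [mem_KB] at hk
    rcases hk.2 with ⟨h, h0⟩ | ⟨h, h0⟩
    · obtain ⟨k1, -, -, k4, -, -⟩ := bL_data H hir hq hg h
      rw [k4] at hxk
      obtain ⟨z, hz, hz1⟩ := (hx2 k (mem_dc.2 (mem_uc.1 hxk))).2
      have := h0 z hz
      omega
    · obtain ⟨k1, -, -, k4, -, -⟩ := bU_data H hir hq hg h
      rw [k4] at hxk
      exact ⟨h, mem_uc.2 (mem_dc.1 hxk)⟩
  have P2 : ∀ x ∈ XU, ∀ k ∈ KB i K e, x ∈ ns i k → k ∈ bL i e ∧ k ∈ dc x := by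
    intro x hx k hk hxk
    obtain ⟨l1, -, -, hx2⟩ := hXU x hx
    rw [mem_KB] at hk
    rcases hk.2 with ⟨h, h0⟩ | ⟨h, h0⟩
    · obtain ⟨k1, -, -, k4, -, -⟩ := bL_data H hir hq hg h
      rw [k4] at hxk
      exact ⟨h, mem_dc.2 (mem_uc.1 hxk)⟩
    · obtain ⟨k1, -, -, k4, -, -⟩ := bU_data H hir hq hg h
      rw [k4] at hxk
      obtain ⟨z, hz, hz1⟩ := (hx2 k (mem_uc.2 (mem_dc.1 hxk))).2
      have := h0 z hz
      omega
  -- the partner of a matched element
  have Q1 : ∀ y ∈ bL i e, y ∉ K → ∀ x ∈ ns i y, psi y ∈ uc x ∧ psi y ∉ K ∧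
      ns i (psi y) = ns i y := by
    intro y hy hyK x hx
    obtain ⟨k1, k2, -, k4, -, -⟩ := bL_data H hir hq hg hy
    obtain ⟨p1, p2, -, p4⟩ := psi_low hM (mem_dbL'.2 ⟨k1, k2⟩) hyK
    have hl := mem_dbU'.1 p1
    rw [k4] at hx
    refine ⟨?_, p4, ?_⟩
    · rw [mem_uc, ← mem_dc, p2]
      exact hx
    · rw [k4, ← p2]
      unfold ns
      rw [if_neg (by omega)]
  have Q2 : ∀ y ∈ bU i e, y ∉ K → ∀ x ∈ ns i y, psi y ∈ dc x ∧ psi y ∉ K ∧
      ns i (psi y) = ns i y := by
    intro y hy hyK x hx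
    obtain ⟨k1, k2, -, k4, -, -⟩ := bU_data H hir hq hg hy
    obtain ⟨p1, p2, -, p4⟩ := psi_up hM (mem_dbU'.2 ⟨k1, k2⟩) hyK
    have hl := mem_dbL'.1 p1
    rw [k4] at hx
    refine ⟨?_, p4, ?_⟩
    · rw [mem_dc, ← mem_uc, p2]
      exact hx
    · rw [k4, ← p2]
      unfold ns
      rw [if_pos (by omega)]
  have bLN : ∀ y ∈ bL i e, y ∈ bN i e := fun y hy => mem_union_left _ hy
  have bUN : ∀ y ∈ bU i e, y ∈ bN i e := fun y hy => mem_union_right _ hy
  -- a labelled common site of two elements of `KB` is not full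
  have R1 : ∀ k ∈ KB i K e, ∀ k' ∈ KB i K e, k ≠ k' → ∀ q, q ∈ ns i k → q ∈ ns i k' →
      q ∉ XL := by
    intro k hk k' hk' hne q hqk hqk' hqX
    obtain ⟨u1, u2⟩ := P1 q hqX k hk hqk
    obtain ⟨u1', u2'⟩ := P1 q hqX k' hk' hqk'
    obtain ⟨lq, -, ⟨y, hy⟩, hyq⟩ := hXL q hqX
    have hyb := (hyq y hy).1
    obtain ⟨y1, y2, -, y4, -, -⟩ := bL_data H hir hq hg hyb
    have hqy : q ∈ ns i y := by
      rw [y4]
      exact mem_uc.2 (mem_dc.1 hy)
    have hluk := (bU_data H hir hq hg u1).1
    have hluk' := (bU_data H hir hq hg u1').1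
    have hyK : y ∈ K := by
      by_contra hyK
      obtain ⟨q1, q2, q3⟩ := Q1 y hyb hyK q hqy
      have h2 : ({k, k', psi y} : Finset P) ⊆ uc q := by
        intro s hs
        rw [mem_insert, mem_insert, mem_singleton] at hs
        rcases hs with rfl | rfl | rfl <;> assumption
      have h3 := card_le_card h2
      have h4 := uc_card_le H q
      rw [card_insert_of_notMem, card_pair] at h3
      · omega
      · rintro rfl
        exact q2 (hKB _ hk').1
      · rw [mem_insert, mem_singleton]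
        rintro (h5 | h5)
        · exact hne h5
        · rw [← h5] at q2
          exact q2 (hKB _ hk).1
    have hyk : y ≠ k := by rintro rfl; omega
    have hyk' : y ≠ k' := by rintro rfl; omega
    rcases hK.three y hyK (hC y (bLN y hyb)) k (hKB k hk).1 (hKB k hk).2.1 k' (hKB k' hk').1
      (hKB k' hk').2.1 hyk hyk' hne q hqy hqk hqk' with h | h | h
    · exact bad_ns_ne H hir hq hg hd (bLN y hyb) (hKB k hk).2.2 hyk h
    · exact bad_ns_ne H hir hq hg hd (bLN y hyb) (hKB k' hk').2.2 hyk' h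
    · exact bad_ns_ne H hir hq hg hd (hKB k hk).2.2 (hKB k' hk').2.2 hne h
  have R2 : ∀ k ∈ KB i K e, ∀ k' ∈ KB i K e, k ≠ k' → ∀ q, q ∈ ns i k → q ∈ ns i k' →
      q ∉ XU := by
    intro k hk k' hk' hne q hqk hqk' hqX
    obtain ⟨u1, u2⟩ := P2 q hqX k hk hqk
    obtain ⟨u1', u2'⟩ := P2 q hqX k' hk' hqk'
    obtain ⟨lq, -, ⟨y, hy⟩, hyq⟩ := hXU q hqX
    have hyb := (hyq y hy).1
    obtain ⟨y1, y2, -, y4, -, -⟩ := bU_data H hir hq hg hyb
    have hqy : q ∈ ns i y := by
      rw [y4]
      exact mem_dc.2 (mem_uc.1 hy)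
    have hluk := (bL_data H hir hq hg u1).1
    have hluk' := (bL_data H hir hq hg u1').1
    have hyK : y ∈ K := by
      by_contra hyK
      obtain ⟨q1, q2, q3⟩ := Q2 y hyb hyK q hqy
      have h2 : ({k, k', psi y} : Finset P) ⊆ dc q := by
        intro s hs
        rw [mem_insert, mem_insert, mem_singleton] at hs
        rcases hs with rfl | rfl | rfl <;> assumption
      have h3 := card_le_card h2
      have h4 := dc_card_le H q
      rw [card_insert_of_notMem, card_pair] at h3
      · omega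
      · rintro rfl
        exact q2 (hKB _ hk').1
      · rw [mem_insert, mem_singleton]
        rintro (h5 | h5)
        · exact hne h5
        · rw [← h5] at q2
          exact q2 (hKB _ hk).1
    have hyk : y ≠ k := by rintro rfl; omega
    have hyk' : y ≠ k' := by rintro rfl; omega
    rcases hK.three y hyK (hC y (bUN y hyb)) k (hKB k hk).1 (hKB k hk).2.1 k' (hKB k' hk').1
      (hKB k' hk').2.1 hyk hyk' hne q hqy hqk hqk' with h | h | h
    · exact bad_ns_ne H hir hq hg hd (bUN y hyb) (hKB k hk).2.2 hyk h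
    · exact bad_ns_ne H hir hq hg hd (bUN y hyb) (hKB k' hk').2.2 hyk' h
    · exact bad_ns_ne H hir hq hg hd (hKB k hk).2.2 (hKB k' hk').2.2 hne h
  -- at most two elements of `KB`
  have T3 : (KB i K e).card ≤ 2 := by
    by_contra hc
    obtain ⟨k, k', k'', hk, hk', hk'', h1, h2, h3⟩ := Finset.two_lt_card_iff.1
      (show 2 < (KB i K e).card by omega)
    obtain ⟨a1, a2, a3⟩ := hKB k hk
    obtain ⟨b1, b2, b3⟩ := hKB k' hk'
    obtain ⟨c1, c2, c3⟩ := hKB k'' hk''
    obtain ⟨q, q1, q2⟩ := hK.two k a1 a2 k' b1 b2 h1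
    obtain ⟨q', q1', q2'⟩ := hK.two k a1 a2 k'' c1 c2 h2
    have e1 := bad_disj H hir hq hg hd a3 b3 h1 q1 q2
    have e2 := bad_disj H hir hq hg hd a3 c3 h2 q1' q2'
    obtain ⟨a, ha, ha0, hall⟩ := bad_two H hir hq hg a3 q1 (by omega)
    have hqq : q' = q := by
      rcases hall q' q1' with h | h
      · exact h
      · rw [h] at e2
        exact absurd ha0 e2
    rw [hqq] at q2'
    rcases hK.three k a1 a2 k' b1 b2 k'' c1 c2 h1 h2 h3 q q1 q2 q2' with h | h | h
    · exact bad_ns_ne H hir hq hg hd a3 b3 h1 h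
    · exact bad_ns_ne H hir hq hg hd a3 c3 h2 h
    · exact bad_ns_ne H hir hq hg hd b3 c3 h3 h
  -- sets of labelled sites
  have hsum : ∀ S : Finset P, (∀ x ∈ S, lev x = i ∧ 1 ≤ e x) → S.card ≤ ∑ x ∈ lv P i, e x := by
    intro S hS
    rw [Finset.card_eq_sum_ones]
    refine le_trans (Finset.sum_le_sum (g := fun x => e x) fun x hx => (hS x hx).2) ?_
    exact Finset.sum_le_sum_of_subset fun x hx => mem_lv.2 (hS x hx).1
  have hUn : ∀ x ∈ XL ∪ XU, lev x = i ∧ 1 ≤ e x := by
    intro x hx
    rcases mem_union.1 hx with h | h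
    · exact ⟨(hXL x h).1, (hXL x h).2.1⟩
    · exact ⟨(hXU x h).1, (hXU x h).2.1⟩
  have hcu := Finset.card_union_add_card_inter XL XU
  by_cases hY : XL ∩ XU = ∅
  · rw [hY, card_empty] at hcu
    rcases Nat.lt_or_ge (KB i K e).card 2 with h2 | h2
    · have := hsum _ hUn
      omega
    · obtain ⟨k, hk, k', hk', hne⟩ := Finset.one_lt_card.1 (by omega : 1 < (KB i K e).card)
      obtain ⟨a1, a2, a3⟩ := hKB k hk
      obtain ⟨b1, b2, b3⟩ := hKB k' hk'
      obtain ⟨q, q1, q2⟩ := hK.two k a1 a2 k' b1 b2 hne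
      have e1 := bad_disj H hir hq hg hd a3 b3 hne q1 q2
      have hq' : q ∉ XL ∪ XU := by
        rw [mem_union]
        rintro (h | h)
        · exact R1 k hk k' hk' hne q q1 q2 h
        · exact R2 k hk k' hk' hne q q1 q2 h
      have h3 := hsum (insert q (XL ∪ XU)) (by
        intro x hx
        rcases mem_insert.1 hx with rfl | h
        · exact ⟨(bN_data H hir hq hg a3).2.2.2 x q1, by omega⟩
        · exact hUn x h)
      rw [card_insert_of_notMem hq'] at h3
      omega
  · -- doubly full sites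
    have hYx : ∀ x ∈ XL ∩ XU, ∃ y w a b, y ∈ K ∧ y ∈ bN i e ∧ w ∈ K ∧ w ∈ bN i e ∧ y ≠ w ∧
        x ∈ ns i y ∧ x ∈ ns i w ∧ a ∈ ns i y ∧ b ∈ ns i w ∧ e a = 0 ∧ e b = 0 ∧ a ≠ b ∧
        (∀ t ∈ ns i y, t = x ∨ t = a) ∧ (∀ t ∈ ns i w, t = x ∨ t = b) := by
      intro x hx
      rw [mem_inter] at hx
      obtain ⟨l1, x1, ⟨y, hy⟩, hxL⟩ := hXL x hx.1
      obtain ⟨-, -, ⟨w, hw⟩, hxU⟩ := hXU x hx.2
      have hyb := (hxL y hy).1
      have hwb := (hxU w hw).1
      obtain ⟨y1, -, -, y4, -, -⟩ := bL_data H hir hq hg hyb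
      obtain ⟨w1, -, -, w4, -, -⟩ := bU_data H hir hq hg hwb
      have hxy : x ∈ ns i y := by rw [y4]; exact mem_uc.2 (mem_dc.1 hy)
      have hxw : x ∈ ns i w := by rw [w4]; exact mem_dc.2 (mem_uc.1 hw)
      have hyK : y ∈ K := by
        by_contra hyK
        obtain ⟨q1, q2, q3⟩ := Q1 y hyb hyK x hxy
        have h5 := (hxU _ q1).1
        refine bad_ns_ne H hir hq hg hd (bUN _ h5) (bLN y hyb) ?_ q3
        intro h6
        have h7 := (bU_data H hir hq hg h5).1
        rw [h6] at h7
        omega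
      have hwK : w ∈ K := by
        by_contra hwK
        obtain ⟨q1, q2, q3⟩ := Q2 w hwb hwK x hxw
        have h5 := (hxL _ q1).1
        refine bad_ns_ne H hir hq hg hd (bLN _ h5) (bUN w hwb) ?_ q3
        intro h6
        have h7 := (bL_data H hir hq hg h5).1
        rw [h6] at h7
        omega
      have hyw : y ≠ w := by rintro rfl; omega
      obtain ⟨a, ha, ha0, hay⟩ := bad_two H hir hq hg (bLN y hyb) hxy x1
      obtain ⟨b, hb, hb0, hbw⟩ := bad_two H hir hq hg (bUN w hwb) hxw x1
      refine ⟨y, w, a, b, hyK, bLN y hyb, hwK, bUN w hwb, hyw, hxy, hxw, ha, hb, ha0, hb0, ?_,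
        hay, hbw⟩
      rintro rfl
      exact bad_disj H hir hq hg hd (bLN y hyb) (bUN w hwb) hyw ha hb ha0
    have hone : (XL ∩ XU).card ≤ 1 := by
      rw [Finset.card_le_one]
      intro x hx x' hx'
      by_contra hne
      obtain ⟨y, w, a, b, yK, yb, wK, wb, hyw, hxy, hxw, ha, hb, a0, b0, hab, hay, hbw⟩ := hYx x hx
      obtain ⟨y', w', a', b', yK', yb', wK', wb', hyw', hxy', hxw', ha', hb', a0', b0', hab',
        hay', hbw'⟩ := hYx x' hx'
      have x1 : 1 ≤ e x := (hXL x (mem_inter.1 hx).1).2.1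
      have x1' : 1 ≤ e x' := (hXL x' (mem_inter.1 hx').1).2.1
      have n1 : y' ≠ y := by
        rintro rfl
        rcases hay x' hxy' with h | h
        · exact hne h.symm
        · rw [h] at x1'
          omega
      have n2 : y' ≠ w := by
        rintro rfl
        rcases hbw x' hxy' with h | h
        · exact hne h.symm
        · rw [h] at x1'
          omega
      obtain ⟨s, s1, s2⟩ := hK.two y yK (hC y yb) y' yK' (hC y' yb') (Ne.symm n1)
      obtain ⟨t, t1, t2⟩ := hK.two w wK (hC w wb) y' yK' (hC y' yb') (Ne.symm n2)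
      have hs' : s = a ∧ s = a' := by
        rcases hay s s1 with h | h <;> rcases hay' s s2 with h' | h'
        · exact absurd (h.symm.trans h') hne
        · rw [h] at h'
          rw [h'] at x1
          omega
        · rw [h] at h'
          rw [← h'] at x1'
          omega
        · exact ⟨h, h'⟩
      have ht' : t = b ∧ t = a' := by
        rcases hbw t t1 with h | h <;> rcases hay' t t2 with h' | h'
        · exact absurd (h.symm.trans h') hne
        · rw [h] at h'
          rw [h'] at x1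
          omega
        · rw [h] at h'
          rw [← h'] at x1'
          omega
        · exact ⟨h, h'⟩
      apply hab
      rw [← hs'.1, ← ht'.1, hs'.2, ht'.2]
    have hKB0 : KB i K e = ∅ := by
      rw [Finset.eq_empty_iff_forall_notMem]
      intro k hk
      obtain ⟨x, hx⟩ := Finset.nonempty_iff_ne_empty.2 hY
      obtain ⟨y, w, a, b, yK, yb, wK, wb, hyw, hxy, hxw, ha, hb, a0, b0, hab, hay, hbw⟩ := hYx x hx
      obtain ⟨k1, k2, k3⟩ := hKB k hk
      have x1 : 1 ≤ e x := (hXL x (mem_inter.1 hx).1).2.1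
      have hxk : x ∉ ns i k := by
        intro h
        have h1 := P1 x (mem_inter.1 hx).1 k hk h
        have h2 := P2 x (mem_inter.1 hx).2 k hk h
        have h3 := (bU_data H hir hq hg h1.1).1
        have h4 := (bL_data H hir hq hg h2.1).1
        omega
      have n1 : y ≠ k := by
        rintro rfl
        exact hxk hxy
      obtain ⟨s, s1, s2⟩ := hK.two y yK (hC y yb) k k1 k2 n1
      have hs' : s = a := by
        rcases hay s s1 with h | h
        · rw [h] at s2
          exact absurd s2 hxk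
        · exact h
      rw [hs'] at s2
      exact bad_disj H hir hq hg hd yb k3 n1 ha s2 a0
    have h1 := hsum _ hUn
    rw [hKB0, card_empty]
    omega

/-- THE INEQUALITY on a component whose unmatched near elements form a star -/
theorem K_bound (H : Gr P r) (hir : i ≤ r) (hq : NoQ P (i + 2))
    (hg : ∀ m, m + 1 = i → Good P m) (hM : Mat P i K psi) (hK : Star i C K) (hs : Spt C e)
    (hL : AdmL i e) (hU : AdmU i e) (hd : Disjoint (AL i e) (AU i e)) {δ : ℕ}
    (hδ : δ = 0 ∨ δ = 1 ∧ ∃ z : P, (i + 3 ≤ lev z ∨ lev z + 3 ≤ i) ∧ 1 ≤ e z) :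
    2 * ((AL i e).card + (AU i e).card) + δ ≤
      ∑ x, e x + 2 * (pL i e + pU i e) + (SK i K psi e).card + 1 := by
  obtain ⟨XL, XU, hXL, hXU, h1⟩ := main_K hM H hir hq hg hL hU hd hδ
  have h2 := star_bound H hir hq hg hM hK hs hd hXL hXU
  have h5 : ∑ x, e x = ∑ x ∈ lS P i, e x + ∑ x ∈ uS P i, e x + ∑ x ∈ lv P i, e x := by
    classical
    have h6 : (univ : Finset P) = (lS P i ∪ uS P i) ∪ lv P i := by
      ext x
      simp only [mem_univ, mem_union, mem_lS, mem_uS, mem_lv, true_iff]
      omega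
    rw [h6, Finset.sum_union, Finset.sum_union]
    · rw [disjoint_left]
      intro x hx hx'
      rw [mem_lS] at hx
      rw [mem_uS] at hx'
      omega
    · rw [disjoint_left]
      intro x hx hx'
      rw [mem_union, mem_lS, mem_uS] at hx
      rw [mem_lv] at hx'
      omega
  omega

end star

end Pool.Agent.GaussPoset.Win.K2

end

/-! From `Pool.Agent.W_448so_h63.GE` -/

section

/-!
The identity (6,4) at the window j (MP_448cb3_co, case B): the charges of a configuration which
excites an element outside the components.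
-/

namespace Pool.Agent.GaussPoset.Win.K2

set_option linter.unusedSectionVars false

open Finset I2

universe u

variable {P : Type u} [Fintype P] [PartialOrder P] [DecidableEq P] {r i : ℕ} {e : P → ℕ}

open Classical in
/-- the charge of an element -/
noncomputable def ch (i : ℕ) (e : P → ℕ) (x : P) : ℤ :=
  if i < lev x then (if kl uc e x then cc uc dc e x else 0)
  else if lev x < i then (if kl dc e x then cc dc uc e x else 0) else 0

/-- far below the window or near with one cover -/
def Dp (i : ℕ) (x : P) : Prop := i + 2 ≤ lev x ∨ (lev x = i + 1 ∧ (uc x).card = 1)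

/-- the charges of a configuration -/
theorem sum_ch (H : Gr P r) (hir : i ≤ r) (hq : NoQ P (i + 2)) (hg : ∀ m, m + 1 = i → Good P m)
    (hL : AdmL i e) (hU : AdmU i e) :
    ∑ x, ch i e x = 2 * (((AL i e).card : ℤ) + (AU i e).card) -
      2 * ((pL i e : ℤ) + pU i e) := by
  classical
  have SL := side_low (i := i) H hq
  have SU := side_up (i := i) H hir hg
  have h1 := sum_cc SL (adm_low hL)
  have h2 := sum_cc SU (adm_up hU)
  rw [KD_low, fr_low] at h1
  rw [KD_up, fr_up] at h2
  unfold KK at h1 h2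
  rw [Finset.sum_filter] at h1 h2
  have h6 : (univ : Finset P) = (lS P i ∪ uS P i) ∪ lv P i := by
    ext x
    simp only [mem_univ, mem_union, mem_lS, mem_uS, mem_lv, true_iff]
    omega
  rw [h6, Finset.sum_union, Finset.sum_union]
  · have h3 : ∑ x ∈ lS P i, ch i e x = ∑ x ∈ lS P i, (if kl uc e x then cc uc dc e x else 0) := by
      refine Finset.sum_congr rfl fun x hx => ?_
      unfold ch
      rw [if_pos (mem_lS.1 hx)]
    have h4 : ∑ x ∈ uS P i, ch i e x = ∑ x ∈ uS P i, (if kl dc e x then cc dc uc e x else 0) := by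
      refine Finset.sum_congr rfl fun x hx => ?_
      have := mem_uS.1 hx
      unfold ch
      rw [if_neg (by omega), if_pos this]
    have h5 : ∑ x ∈ lv P i, ch i e x = 0 := by
      refine Finset.sum_eq_zero fun x hx => ?_
      have := mem_lv.1 hx
      unfold ch
      rw [if_neg (by omega), if_neg (by omega)]
    rw [h3, h4, h5, h1, h2]
    ring
  · rw [disjoint_left]
    intro x hx hx'
    rw [mem_lS] at hx
    rw [mem_uS] at hx'
    omega
  · rw [disjoint_left]
    intro x hx hx'
    rw [mem_union, mem_lS, mem_uS] at hx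
    rw [mem_lv] at hx'
    omega

section pt

variable (H : Gr P r) (hir : i ≤ r) (hq : NoQ P (i + 2)) (hg : ∀ m, m + 1 = i → Good P m)
include H hir hq hg

lemma ch_le (x : P) : ch i e x ≤ 2 * (e x : ℤ) := by
  classical
  have SL := side_low (i := i) H hq
  have SU := side_up (i := i) H hir hg
  unfold ch
  split_ifs with h1 h2 h3 h4
  · have h5 := cc_le_two (e := e) SL x
    obtain ⟨a, ha, hlt⟩ := h2
    have : (1 : ℤ) ≤ e x := by exact_mod_cast (by omega : 1 ≤ e x)
    linarith
  · positivity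
  · have h5 := cc_le_two (e := e) SU x
    obtain ⟨a, ha, hlt⟩ := h4
    have : (1 : ℤ) ≤ e x := by exact_mod_cast (by omega : 1 ≤ e x)
    linarith
  · positivity
  · positivity

lemma ch_le_one (hL : AdmL i e) (hU : AdmU i e) {x : P} (h0 : 1 ≤ e x) (hb : x ∉ bN i e) :
    ch i e x ≤ 2 * (e x : ℤ) - 1 := by
  classical
  have SL := side_low (i := i) H hq
  have SU := side_up (i := i) H hir hg
  have h0' : (1 : ℤ) ≤ e x := by exact_mod_cast h0
  unfold ch
  split_ifs with h1 h2 h3 h4
  · have h5 := cc_le_two (e := e) SL x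
    have hxS : x ∈ lS P i := mem_lS.2 h1
    have h6 := t_le_of_kl SL (adm_low hL) (lev x - i) x hxS h2 rfl
    by_cases h7 : e x = 1
    · have h8 : cc uc dc e x ≠ 2 := by
        intro h8
        apply hb
        unfold bN bL
        refine mem_union_left _ (mem_bd.2 ⟨hxS, by omega, h7, h2, h8⟩)
      have : cc uc dc e x ≤ 1 := by omega
      linarith
    · have : (2 : ℤ) ≤ e x := by exact_mod_cast (by omega : 2 ≤ e x)
      linarith
  · linarith
  · have h5 := cc_le_two (e := e) SU x
    have hxS : x ∈ uS P i := mem_uS.2 h3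
    have h6 := t_le_of_kl SU (adm_up hU) (i - lev x) x hxS h4 rfl
    by_cases h7 : e x = 1
    · have h8 : cc dc uc e x ≠ 2 := by
        intro h8
        apply hb
        unfold bN bU
        refine mem_union_right _ (mem_bd.2 ⟨hxS, by omega, h7, h4, h8⟩)
      have : cc dc uc e x ≤ 1 := by omega
      linarith
    · have : (2 : ℤ) ≤ e x := by exact_mod_cast (by omega : 2 ≤ e x)
      linarith
  · linarith
  · linarith

lemma ch_le_D (hL : AdmL i e) {x : P} (h0 : 1 ≤ e x) (hD : Dp i x) :
    ch i e x ≤ 2 * (e x : ℤ) - 2 ∧ ch i e x ≤ 2 ∧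
      (lev x = i + 1 → ch i e x ≤ 0) := by
  classical
  have SL := side_low (i := i) H hq
  have h0' : (1 : ℤ) ≤ e x := by exact_mod_cast h0
  have h1 : i < lev x := by
    unfold Dp at hD
    rcases hD with h | h <;> omega
  have hxS : x ∈ lS P i := mem_lS.2 h1
  unfold ch
  rw [if_pos h1]
  split_ifs with h2
  · have h5 := cc_le_two (e := e) SL x
    have h6 := t_le_of_kl SL (adm_low hL) (lev x - i) x hxS h2 rfl
    unfold Dp at hD
    rcases hD with h | ⟨h, hc⟩
    · have : (2 : ℤ) ≤ e x := by exact_mod_cast (by omega : 2 ≤ e x)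
      refine ⟨by linarith, h5, fun h7 => by omega⟩
    · have h7 := sur_single (c := uc) (c' := dc) (e := e) hc
      unfold sur at h7
      rw [if_pos h2] at h7
      refine ⟨by linarith, by linarith, fun _ => by linarith⟩
  · exact ⟨by linarith, by norm_num, fun _ => le_rfl⟩

/-- ORDER BOUND with a set of far or single elements -/
theorem ord_le (hL : AdmL i e) (hU : AdmU i e) {D : Finset P}
    (hD : ∀ x ∈ D, 1 ≤ e x ∧ Dp i x) :
    (AL i e).card + (AU i e).card + D.card ≤ ∑ x, e x + (pL i e + pU i e) := by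
  classical
  have h1 := sum_ch H hir hq hg hL hU
  have h2 : ∑ x, ch i e x ≤ ∑ x, (2 * (e x : ℤ) - (if x ∈ D then 2 else 0)) := by
    refine Finset.sum_le_sum fun x _ => ?_
    split_ifs with h
    · exact (ch_le_D H hir hq hg hL (hD x h).1 (hD x h).2).1
    · have := ch_le H hir hq hg (e := e) x
      linarith
  rw [h1, Finset.sum_sub_distrib, ← Finset.mul_sum, Finset.sum_ite_mem, univ_inter,
    Finset.sum_const, nsmul_eq_mul] at h2
  have h3 : ((∑ x, e x : ℕ) : ℤ) = ∑ x, (e x : ℤ) := by push_cast; rfl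
  rw [← h3] at h2
  omega

/-- EQUALITY in the order bound -/
theorem ord_eq (hL : AdmL i e) (hU : AdmU i e) {D : Finset P}
    (hD : ∀ x ∈ D, 1 ≤ e x ∧ Dp i x)
    (heq : ∑ x, e x + (pL i e + pU i e) ≤ (AL i e).card + (AU i e).card + D.card) :
    (∀ x, x ∉ D → 1 ≤ e x → x ∈ bN i e) ∧ (∀ x ∈ D, e x ≤ 2) ∧
      ∀ x ∈ D, lev x = i + 1 → e x = 1 := by
  classical
  have h1 := sum_ch H hir hq hg hL hU
  have h2 : ∀ x ∈ (univ : Finset P), ch i e x ≤ 2 * (e x : ℤ) - (if x ∈ D then 2 else 0) := by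
    intro x _
    split_ifs with h
    · exact (ch_le_D H hir hq hg hL (hD x h).1 (hD x h).2).1
    · have := ch_le H hir hq hg (e := e) x
      linarith
  have h3 : ((∑ x, e x : ℕ) : ℤ) = ∑ x, (e x : ℤ) := by push_cast; rfl
  have h4 : ∑ x, (2 * (e x : ℤ) - (if x ∈ D then 2 else 0)) ≤ ∑ x, ch i e x := by
    rw [h1, Finset.sum_sub_distrib, ← Finset.mul_sum, Finset.sum_ite_mem, univ_inter,
      Finset.sum_const, nsmul_eq_mul, ← h3]
    omega
  have h5 : ∀ x ∈ (univ : Finset P), ch i e x = 2 * (e x : ℤ) - (if x ∈ D then 2 else 0) :=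
    (Finset.sum_eq_sum_iff_of_le h2).1 (le_antisymm (Finset.sum_le_sum h2) h4)
  refine ⟨?_, ?_, ?_⟩
  · intro x hx h0
    by_contra hb
    have h6 := h5 x (mem_univ x)
    rw [if_neg hx] at h6
    have h7 := ch_le_one H hir hq hg hL hU h0 hb
    linarith
  · intro x hx
    have h6 := h5 x (mem_univ x)
    rw [if_pos hx] at h6
    have h7 := (ch_le_D H hir hq hg hL (hD x hx).1 (hD x hx).2).2.1
    have : (e x : ℤ) ≤ 2 := by linarith
    exact_mod_cast this
  · intro x hx hl
    have h6 := h5 x (mem_univ x)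
    rw [if_pos hx] at h6
    have h7 := (ch_le_D H hir hq hg hL (hD x hx).1 (hD x hx).2).2.2 hl
    have h8 := (hD x hx).1
    have : (e x : ℤ) ≤ 1 := by linarith
    have : e x ≤ 1 := by exact_mod_cast this
    omega

end pt

section cross

variable {ι : Type*} [DecidableEq ι] {κ : P → ι}

/-- elements above an excited element and below the window are excited -/
lemma exc_le (H : Gr P r) (hL : AdmL i e) {z : P} (h0 : 1 ≤ e z) {x : P} (hzx : z ≤ x)
    (hx : i < lev x) : 1 ≤ e x := by
  have key : ∀ y : P, i < lev y → ∀ w, w ≤ y → 1 ≤ e w → 1 ≤ e y := by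
    intro y hy
    refine normb_induct (C := fun w => 1 ≤ e w → 1 ≤ e y) (fun h => h) ?_
    intro w v hwv hvy ih hw
    have h1 := lev_uc H (mem_uc.2 hwv)
    have h2 : lev y ≤ lev v := by
      rcases eq_or_lt_of_le hvy with h | h
      · rw [h]
      · exact (lev_strictAnti h).le
    exact ih (pos_up H hL (by omega) hw hwv)
  exact key x hx z hzx h0

/-- the element of level `i + 2` under two components has a single cover -/
lemma one_single (H : Gr P r) (hκ : Split (i + 1) κ) (hq : NoQ P (i + 2)) {z p p' : P}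
    (hz : lev z = i + 2) (huc : uc z = {p, p'}) (hk : κ p ≠ κ p') :
    ((uc p).card = 2 ∧ (uc p').card = 1) ∨ ((uc p).card = 1 ∧ (uc p').card = 2) ∨
      ((uc p).card = 1 ∧ (uc p').card = 1) := by
  have hp : p ∈ uc z := by rw [huc]; exact mem_insert_self _ _
  have hp' : p' ∈ uc z := by rw [huc]; exact mem_insert_of_mem (mem_singleton_self _)
  have l1 := lev_uc H hp
  have l2 := lev_uc H hp'
  have c1 := uc_card_le H p
  have c2 := uc_card_le H p'
  have c3 : 0 < (uc p).card := card_pos.2 (uc_nonempty H (by omega))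
  have c4 : 0 < (uc p').card := card_pos.2 (uc_nonempty H (by omega))
  by_cases h : (uc p).card = 2 ∧ (uc p').card = 2
  · exfalso
    obtain ⟨x, hx, hx'⟩ := hq z hz p hp p' hp' (fun h => hk (by rw [h])) h.1 h.2
    exact hk ((hκ (mem_uc.1 hx) (by omega)).trans (hκ (mem_uc.1 hx') (by omega)).symm)
  · omega

/-- the far and single elements of a cross configuration -/
theorem cross_D (H : Gr P r) (hκ : Split (i + 1) κ) (hq : NoQ P (i + 2)) (hL : AdmL i e) {z : P}
    (hz : z ∉ cuni (i + 1) κ) (h0 : 1 ≤ e z) :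
    (∃ D : Finset P, D.card = 3 ∧ ∀ x ∈ D, 1 ≤ e x ∧ Dp i x) ∨
    (∃ y v, lev z = i + 2 ∧ uc z = {y, v} ∧ κ y ≠ κ v ∧ (uc y).card = 2 ∧ (uc v).card = 1 ∧
      1 ≤ e y ∧ 1 ≤ e v) := by
  classical
  have hl := (two_up H hκ hz).1
  rcases Nat.eq_or_lt_of_le (show i + 2 ≤ lev z by omega) with hz2 | hz2
  · obtain ⟨p, p', hk, huc⟩ := So.two_labels H hκ hz hz2.symm
    have hp : p ∈ uc z := by rw [huc]; exact mem_insert_self _ _
    have hp' : p' ∈ uc z := by rw [huc]; exact mem_insert_of_mem (mem_singleton_self _)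
    have l1 := lev_uc H hp
    have l2 := lev_uc H hp'
    have e1 := exc_le H hL h0 (mem_uc.1 hp).le (by omega)
    have e2 := exc_le H hL h0 (mem_uc.1 hp').le (by omega)
    rcases one_single H hκ hq hz2.symm huc hk with h | h | h
    · exact Or.inr ⟨p, p', hz2.symm, huc, hk, h.1, h.2, e1, e2⟩
    · exact Or.inr ⟨p', p, hz2.symm, by rw [huc, pair_comm], fun h => hk h.symm, h.2, h.1, e2, e1⟩
    · left
      refine ⟨{z, p, p'}, ?_, ?_⟩
      · rw [card_insert_of_notMem, card_pair (fun h => hk (by rw [h]))]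
        rw [mem_insert, mem_singleton]
        rintro (rfl | rfl) <;> omega
      · intro x hx
        rw [mem_insert, mem_insert, mem_singleton] at hx
        rcases hx with rfl | rfl | rfl
        · exact ⟨h0, Or.inl (by omega)⟩
        · exact ⟨e1, Or.inr ⟨by omega, h.1⟩⟩
        · exact ⟨e2, Or.inr ⟨by omega, h.2⟩⟩
  · left
    obtain ⟨y, hy, hy0⟩ := exists_top z
    have h1 : z ∉ cext (i + 1) κ (κ y) := by
      intro h
      apply hz
      unfold cuni
      rw [mem_biUnion]
      exact ⟨κ y, mem_image_of_mem κ (mem_univ y), h⟩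
    rw [mem_cext] at h1
    push Not at h1
    obtain ⟨y', hy', hl', hne⟩ := h1
    have mk : ∀ w, z ≤ w → lev w ≤ i + 1 → ∃ q p, z ≤ q ∧ lev q = i + 2 ∧ p ∈ uc q ∧
        lev p = i + 1 ∧ κ p = κ w := by
      intro w hw hwl
      obtain ⟨q, q1, q2, q3⟩ := exists_mid H hw (k := i + 2) (by omega) (by omega)
      have h2 : q < w := by
        refine lt_of_le_of_ne q2 ?_
        rintro rfl
        omega
      obtain ⟨p, hp, hpw⟩ := exists_covBy_le_of_lt h2
      have h3 := lev_uc H (mem_uc.2 hp)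
      exact ⟨q, p, q1, q3, mem_uc.2 hp, by omega, hκ.le p hpw (by omega)⟩
    obtain ⟨q, p, q1, q2, q3, q4, q5⟩ := mk y hy (by omega)
    obtain ⟨q', p', q1', q2', q3', q4', q5'⟩ := mk y' hy' hl'
    have hk : κ p ≠ κ p' := by
      rw [q5, q5']
      exact fun h => hne h.symm
    have e1 := exc_le H hL h0 q1 (by omega)
    have e1' := exc_le H hL h0 q1' (by omega)
    by_cases hqq : q = q'
    · have huc : uc q = {p, p'} := by
        symm
        apply Finset.eq_of_subset_of_card_le
        · intro x hx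
          rw [mem_insert, mem_singleton] at hx
          rcases hx with rfl | rfl
          · exact q3
          · rw [hqq]
            exact q3'
        · rw [Finset.card_pair (fun h => hk (by rw [h]))]
          exact uc_card_le H q
      have e2 := exc_le H hL e1 (mem_uc.1 q3).le (by omega)
      have e2' := exc_le H hL e1' (mem_uc.1 q3').le (by omega)
      have hs : ∃ v, lev v = i + 1 ∧ (uc v).card = 1 ∧ 1 ≤ e v := by
        rcases one_single H hκ hq q2 huc hk with h | h | h
        · exact ⟨p', q4', h.2, e2'⟩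
        · exact ⟨p, q4, h.1, e2⟩
        · exact ⟨p, q4, h.1, e2⟩
      obtain ⟨v, v1, v2, v3⟩ := hs
      refine ⟨{z, q, v}, ?_, ?_⟩
      · rw [card_insert_of_notMem, card_pair (by rintro rfl; omega)]
        rw [mem_insert, mem_singleton]
        rintro (rfl | rfl) <;> omega
      · intro x hx
        rw [mem_insert, mem_insert, mem_singleton] at hx
        rcases hx with rfl | rfl | rfl
        · exact ⟨h0, Or.inl (by omega)⟩
        · exact ⟨e1, Or.inl (by omega)⟩
        · exact ⟨v3, Or.inr ⟨v1, v2⟩⟩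
    · refine ⟨{z, q, q'}, ?_, ?_⟩
      · rw [card_insert_of_notMem, card_pair hqq]
        rw [mem_insert, mem_singleton]
        rintro (rfl | rfl) <;> omega
      · intro x hx
        rw [mem_insert, mem_insert, mem_singleton] at hx
        rcases hx with rfl | rfl | rfl
        · exact ⟨h0, Or.inl (by omega)⟩
        · exact ⟨e1, Or.inl (by omega)⟩
        · exact ⟨e1', Or.inl (by omega)⟩

end cross

end Pool.Agent.GaussPoset.Win.K2

end

/-! From `Pool.Agent.W_448f_h83.FA` -/

section

/-!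
The identity (6,4) at the window (MP_448cb3_co, case B): the leading coefficient of the extremal
cross configurations `z` (label `a`), its two upper covers (label `1`), a set `M` of double near
elements (label `1`).
-/

namespace Pool.Agent.GaussPoset.Win.K2

set_option linter.unusedSectionVars false

open Finset I2

universe u

variable {P : Type u} [Fintype P] [PartialOrder P] [DecidableEq P] {r i : ℕ}

/-- label `a` on `z`, label one on its upper covers and on `M` -/
noncomputable def eZ (a : ℕ) (z : P) (M : Finset P) (x : P) : ℕ :=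
  if x = z then a else if x ∈ uc z ∪ M then 1 else 0

section ez

variable {z y v : P} {a : ℕ} {M : Finset P}

lemma eZ_self : eZ a z M z = a := by
  unfold eZ
  rw [if_pos rfl]

lemma eZ_uc (H : Gr P r) {x : P} (hx : x ∈ uc z) : eZ a z M x = 1 := by
  have h1 := lev_uc H hx
  unfold eZ
  rw [if_neg (by rintro rfl; omega), if_pos (mem_union_left _ hx)]

lemma lev_M (hM : M ⊆ dbL P i ∪ dbU P i) {x : P} (hx : x ∈ M) :
    lev x = i + 1 ∨ lev x + 1 = i := by
  have := hM hx
  rw [mem_union, mem_dbL, mem_dbU] at this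
  tauto

lemma eZ_M (hz : lev z = i + 2) (hM : M ⊆ dbL P i ∪ dbU P i) {x : P} (hx : x ∈ M) :
    eZ a z M x = 1 := by
  have h1 := lev_M hM hx
  unfold eZ
  rw [if_neg (by rintro rfl; omega), if_pos (mem_union_right _ hx)]

lemma eZ_pos {x : P} (hx : 0 < eZ a z M x) : x = z ∨ x ∈ uc z ∨ x ∈ M := by
  by_contra h
  push Not at h
  obtain ⟨h1, h2, h3⟩ := h
  unfold eZ at hx
  rw [if_neg h1, if_neg (by rw [mem_union]; tauto)] at hx
  omega

lemma eZ_zero {x : P} (h1 : x ≠ z) (h2 : x ∉ uc z) (h3 : x ∉ M) : eZ a z M x = 0 := by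
  unfold eZ
  rw [if_neg h1, if_neg (by rw [mem_union]; tauto)]

lemma eZ_site (H : Gr P r) (hz : lev z = i + 2) (hM : M ⊆ dbL P i ∪ dbU P i) {x : P}
    (hx : lev x = i) : eZ a z M x = 0 := by
  apply eZ_zero
  · rintro rfl
    omega
  · intro h
    have := lev_uc H h
    omega
  · intro h
    have := lev_M hM h
    omega

lemma eZ_FD (H : Gr P r) (hz : lev z = i + 2) (hM : M ⊆ dbL P i ∪ dbU P i) {x : P}
    (hx : i < lev x) : FD (eZ a z M) x ↔ x ∈ uc z ∧ 1 < a := by
  constructor
  · rintro ⟨x', hx', hlt⟩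
    have h1 := (H.covBy_iff.1 hx').2
    have h2 : x' = z := by
      rcases eZ_pos (show 0 < eZ a z M x' by omega) with h | h | h
      · exact h
      · have := lev_uc H h
        omega
      · have := lev_M hM h
        omega
    subst h2
    have h3 : x ∈ uc x' := mem_uc.2 hx'
    rw [eZ_self, eZ_uc H h3] at hlt
    exact ⟨h3, hlt⟩
  · rintro ⟨h1, h2⟩
    refine ⟨z, mem_uc.1 h1, ?_⟩
    rw [eZ_self, eZ_uc H h1]
    exact h2

lemma eZ_FU (H : Gr P r) (hz : lev z = i + 2) (hM : M ⊆ dbL P i ∪ dbU P i) {x : P}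
    (hx : lev x < i) : ¬ FU (eZ a z M) x := by
  rintro ⟨x', hx', hlt⟩
  have h1 := (H.covBy_iff.1 hx').2
  rcases eZ_pos (show 0 < eZ a z M x' by omega) with h | h | h
  · subst h
    omega
  · have := lev_uc H h
    omega
  · have := lev_M hM h
    omega

lemma eZ_GU_z (H : Gr P r) (hz : lev z = i + 2) (ha : 1 ≤ a) : GU (eZ a z M) z ↔ a = 1 := by
  constructor
  · rintro ⟨x', hx', hle⟩
    rw [eZ_self, eZ_uc H (mem_uc.2 hx')] at hle
    omega
  · rintro rfl
    obtain ⟨x', hx'⟩ := uc_nonempty H (x := z) (by omega)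
    refine ⟨x', mem_uc.1 hx', ?_⟩
    rw [eZ_self, eZ_uc H hx']

lemma eZ_GU_near (H : Gr P r) (hz : lev z = i + 2) (hM : M ⊆ dbL P i ∪ dbU P i) {x : P}
    (hx : x ∈ uc z ∨ (x ∈ M ∧ lev x = i + 1)) : ¬ GU (eZ a z M) x := by
  rintro ⟨x', hx', hle⟩
  have h1 := (H.covBy_iff.1 hx').2
  rcases hx with h | ⟨h, h2⟩
  · have h3 := lev_uc H h
    rw [eZ_uc H h, eZ_site H hz hM (x := x') (by omega)] at hle
    omega
  · rw [eZ_M hz hM h, eZ_site H hz hM (x := x') (by omega)] at hle
    omega

lemma eZ_GU_zero (H : Gr P r) {x : P} (hx : i < lev x) (h0 : eZ a z M x = 0) :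
    GU (eZ a z M) x := by
  obtain ⟨x', hx'⟩ := uc_nonempty H (x := x) (by omega)
  refine ⟨x', mem_uc.1 hx', ?_⟩
  rw [h0]
  exact Nat.zero_le _

lemma eZ_GD (H : Gr P r) (hir : i ≤ r) (hz : lev z = i + 2) (hM : M ⊆ dbL P i ∪ dbU P i) {x : P}
    (hx : lev x < i) : GD (eZ a z M) x ↔ x ∉ M := by
  constructor
  · rintro ⟨x', hx', hle⟩ h
    have h1 := (H.covBy_iff.1 hx').2
    have h2 := lev_M hM h
    rw [eZ_M hz hM h, eZ_site H hz hM (x := x') (by omega)] at hle
    omega
  · intro h
    obtain ⟨x', hx'⟩ := dc_nonempty H (x := x) (by omega)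
    refine ⟨x', mem_dc.1 hx', ?_⟩
    rw [eZ_zero]
    · exact Nat.zero_le _
    · rintro rfl
      omega
    · intro h1
      have := lev_uc H h1
      omega
    · exact h

lemma eZ_admL (H : Gr P r) (hz : lev z = i + 2) (hM : M ⊆ dbL P i ∪ dbU P i) :
    AdmL i (eZ a z M) := by
  rintro x hx ⟨h1, h2⟩
  rw [eZ_FD H hz hM hx] at h1
  exact eZ_GU_near H hz hM (Or.inl h1.1) h2

lemma eZ_admU (H : Gr P r) (hz : lev z = i + 2) (hM : M ⊆ dbL P i ∪ dbU P i) :
    AdmU i (eZ a z M) := by
  rintro x hx ⟨h1, -⟩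
  exact eZ_FU H hz hM hx h1

lemma eZ_aU (H : Gr P r) (hz : lev z = i + 2) (hM : M ⊆ dbL P i ∪ dbU P i) :
    aU i (eZ a z M) = 0 := by
  classical
  unfold aU
  rw [card_eq_zero, filter_eq_empty_iff]
  rintro x _ ⟨h1, h2⟩
  exact eZ_FU H hz hM h1 h2

lemma eZ_pU (H : Gr P r) (hir : i ≤ r) (hz : lev z = i + 2) (hM : M ⊆ dbL P i ∪ dbU P i) :
    pU i (eZ a z M) = (M ∩ dbU P i).card := by
  classical
  unfold pU
  congr 1
  ext x
  rw [mem_filter, mem_inter]
  constructor
  · rintro ⟨-, h1, -, h3⟩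
    rw [eZ_GD H hir hz hM h1, not_not] at h3
    refine ⟨h3, ?_⟩
    rcases mem_union.1 (hM h3) with h4 | h4
    · have := (mem_dbL.1 h4).1
      omega
    · exact h4
  · rintro ⟨h1, h2⟩
    have h3 := (mem_dbU.1 h2).1
    refine ⟨mem_univ _, by omega, eZ_FU H hz hM (by omega), ?_⟩
    rw [eZ_GD H hir hz hM (by omega), not_not]
    exact h1

lemma eZ_aL (H : Gr P r) (hz : lev z = i + 2) (hM : M ⊆ dbL P i ∪ dbU P i) :
    aL i (eZ a z M) = if 1 < a then (uc z).card else 0 := by
  classical
  unfold aL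
  split_ifs with ha
  · congr 1
    ext x
    rw [mem_filter]
    constructor
    · rintro ⟨-, h1, h2⟩
      exact ((eZ_FD H hz hM h1).1 h2).1
    · intro h
      have := lev_uc H h
      have h1 : i < lev x := by omega
      exact ⟨mem_univ _, h1, (eZ_FD H hz hM h1).2 ⟨h, ha⟩⟩
  · rw [card_eq_zero, filter_eq_empty_iff]
    rintro x _ ⟨h1, h2⟩
    exact ha ((eZ_FD H hz hM h1).1 h2).2

lemma eZ_pL (H : Gr P r) (hz : lev z = i + 2) (hM : M ⊆ dbL P i ∪ dbU P i) (ha : 1 ≤ a)
    (hMz : Disjoint M (uc z)) :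
    pL i (eZ a z M) = (if 1 < a then 1 else (uc z).card) + (M ∩ dbL P i).card := by
  classical
  unfold pL
  by_cases h : 1 < a
  · rw [if_pos h]
    have h1 : univ.filter (fun x : P => i < lev x ∧ ¬ FD (eZ a z M) x ∧ ¬ GU (eZ a z M) x) =
        {z} ∪ (M ∩ dbL P i) := by
      ext x
      rw [mem_filter, mem_union, mem_singleton, mem_inter]
      constructor
      · rintro ⟨-, h1, h2, h3⟩
        have h4 : 0 < eZ a z M x := by
          by_contra h5
          exact h3 (eZ_GU_zero H h1 (by omega))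
        rcases eZ_pos h4 with h5 | h5 | h5
        · exact Or.inl h5
        · exact absurd ((eZ_FD H hz hM h1).2 ⟨h5, h⟩) h2
        · right
          refine ⟨h5, ?_⟩
          rcases mem_union.1 (hM h5) with h6 | h6
          · exact h6
          · have := (mem_dbU.1 h6).1
            omega
      · rintro (rfl | ⟨h1, h2⟩)
        · refine ⟨mem_univ _, by omega, ?_, ?_⟩
          · rw [eZ_FD H hz hM (by omega)]
            rintro ⟨h2, -⟩
            have := lev_uc H h2
            omega
          · rw [eZ_GU_z H hz ha]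
            omega
        · have h3 := (mem_dbL.1 h2).1
          refine ⟨mem_univ _, by omega, ?_, eZ_GU_near H hz hM (Or.inr ⟨h1, h3⟩)⟩
          rw [eZ_FD H hz hM (by omega)]
          rintro ⟨h4, -⟩
          exact disjoint_left.1 hMz h1 h4
    rw [h1, card_union_of_disjoint, card_singleton]
    rw [disjoint_singleton_left, mem_inter]
    rintro ⟨h2, -⟩
    have := lev_M hM h2
    omega
  · rw [if_neg h]
    have h1 : univ.filter (fun x : P => i < lev x ∧ ¬ FD (eZ a z M) x ∧ ¬ GU (eZ a z M) x) =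
        uc z ∪ (M ∩ dbL P i) := by
      ext x
      rw [mem_filter, mem_union, mem_inter]
      constructor
      · rintro ⟨-, h1, h2, h3⟩
        have h4 : 0 < eZ a z M x := by
          by_contra h5
          exact h3 (eZ_GU_zero H h1 (by omega))
        rcases eZ_pos h4 with h5 | h5 | h5
        · subst h5
          exact absurd ((eZ_GU_z H hz ha).2 (by omega)) h3
        · exact Or.inl h5
        · right
          refine ⟨h5, ?_⟩
          rcases mem_union.1 (hM h5) with h6 | h6
          · exact h6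
          · have := (mem_dbU.1 h6).1
            omega
      · rintro (h1 | ⟨h1, h2⟩)
        · have h3 := lev_uc H h1
          refine ⟨mem_univ _, by omega, ?_, eZ_GU_near H hz hM (Or.inl h1)⟩
          rw [eZ_FD H hz hM (by omega)]
          rintro ⟨-, h4⟩
          exact h h4
        · have h3 := (mem_dbL.1 h2).1
          refine ⟨mem_univ _, by omega, ?_, eZ_GU_near H hz hM (Or.inr ⟨h1, h3⟩)⟩
          rw [eZ_FD H hz hM (by omega)]
          rintro ⟨-, h4⟩
          exact h h4
    rw [h1, card_union_of_disjoint]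
    rw [disjoint_left]
    intro x h2 h3
    rw [mem_inter] at h3
    exact disjoint_left.1 hMz h3.1 h2

lemma eZ_AL (H : Gr P r) (hz : lev z = i + 2) (hM : M ⊆ dbL P i ∪ dbU P i) :
    AL i (eZ a z M) = (uc z).biUnion uc ∪ (M ∩ dbL P i).biUnion (ns i) := by
  ext x
  rw [NormD_mem_AL, mem_union, mem_biUnion, mem_biUnion]
  constructor
  · rintro ⟨h1, x', hx', hlt⟩
    have h2 := (H.covBy_iff.1 hx').2
    rcases eZ_pos (show 0 < eZ a z M x' by omega) with h | h | h
    · subst h
      omega
    · exact Or.inl ⟨x', h, mem_uc.2 hx'⟩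
    · right
      have h3 : x' ∈ dbL P i := by
        rcases mem_union.1 (hM h) with h6 | h6
        · exact h6
        · have := (mem_dbU.1 h6).1
          omega
      exact ⟨x', mem_inter.2 ⟨h, h3⟩, by rw [ns_L h3]; exact mem_uc.2 hx'⟩
  · rintro (⟨w, hw, hx⟩ | ⟨w, hw, hx⟩)
    · have h1 := lev_uc H hw
      have h2 := lev_uc H hx
      refine ⟨by omega, w, mem_uc.1 hx, ?_⟩
      rw [eZ_uc H hw, eZ_site H hz hM (x := x) (by omega)]
      exact one_pos
    · rw [mem_inter] at hw
      rw [ns_L hw.2] at hx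
      have h1 := (mem_dbL.1 hw.2).1
      have h2 := lev_uc H hx
      refine ⟨by omega, w, mem_uc.1 hx, ?_⟩
      rw [eZ_M hz hM hw.1, eZ_site H hz hM (x := x) (by omega)]
      exact one_pos

lemma eZ_AU (H : Gr P r) (hz : lev z = i + 2) (hM : M ⊆ dbL P i ∪ dbU P i) :
    AU i (eZ a z M) = (M ∩ dbU P i).biUnion (ns i) := by
  ext x
  rw [NormD_mem_AU, mem_biUnion]
  constructor
  · rintro ⟨h1, x', hx', hlt⟩
    have h2 := (H.covBy_iff.1 hx').2
    rcases eZ_pos (show 0 < eZ a z M x' by omega) with h | h | h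
    · subst h
      omega
    · have := lev_uc H h
      omega
    · have h3 : x' ∈ dbU P i := by
        rcases mem_union.1 (hM h) with h6 | h6
        · have := (mem_dbL.1 h6).1
          omega
        · exact h6
      exact ⟨x', mem_inter.2 ⟨h, h3⟩, by rw [ns_U h3]; exact mem_dc.2 hx'⟩
  · rintro ⟨w, hw, hx⟩
    rw [mem_inter] at hw
    rw [ns_U hw.2] at hx
    have h1 := (mem_dbU.1 hw.2).1
    have h2 := lev_dc H hx
    refine ⟨by omega, w, mem_dc.1 hx, ?_⟩
    rw [eZ_M hz hM hw.1, eZ_site H hz hM (x := x) (by omega)]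
    exact one_pos

end ez

open Classical in
/-- the leading coefficient of the extremal cross configurations -/
theorem trm_eZ (H : Gr P r) (hir : i ≤ r) {z y v : P} (hz : lev z = i + 2) (huc : uc z = {y, v})
    (hyv : y ≠ v) (hT : (uc y ∪ uc v).card = 3) {a : ℕ} (ha : a = 1 ∨ a = 2) {M : Finset P}
    (hM : M ⊆ dbL P i ∪ dbU P i) (hMz : Disjoint M (uc z)) (hc : M.card + a = 4) :
    dd ^ ((lv P i).card - 3) ∣ trm i (eZ a z M) +
      ((if Dj i M ∧ Disjoint (M.biUnion (ns i)) (uc y ∪ uc v) then ∏ k ∈ M, sgn i k else 0 : ℤ) : A)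
        * dd ^ ((lv P i).card - 4) := by
  have ha1 : 1 ≤ a := by omega
  have hcz : (uc z).card = 2 := by
    rw [huc, card_pair hyv]
  have hbu : (uc z).biUnion uc = uc y ∪ uc v := by
    rw [huc, biUnion_insert, singleton_biUnion]
  have eAL := eZ_AL (a := a) H hz hM
  have eAU := eZ_AU (a := a) H hz hM
  rw [hbu] at eAL
  have eaL := eZ_aL (a := a) H hz hM
  have epL := eZ_pL H hz hM ha1 hMz
  have eaU := eZ_aU (a := a) H hz hM
  have epU := eZ_pU (a := a) H hir hz hM
  rw [hcz] at eaL epL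
  have hMc : M.card = (M ∩ dbL P i).card + (M ∩ dbU P i).card := by
    rw [← card_union_of_disjoint]
    · congr 1
      rw [← inter_union_distrib_left]
      exact (inter_eq_left.2 hM).symm
    · rw [disjoint_left]
      intro x h1 h2
      rw [mem_inter] at h1 h2
      have h3 := (mem_dbL.1 h1.2).1
      have h4 := (mem_dbU.1 h2.2).1
      omega
  have hMu : (M ∩ dbL P i).biUnion (ns i) ∪ (M ∩ dbU P i).biUnion (ns i) = M.biUnion (ns i) := by
    rw [← union_biUnion, ← inter_union_distrib_left, inter_eq_left.2 hM]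
  have hun : AL i (eZ a z M) ∪ AU i (eZ a z M) = (uc y ∪ uc v) ∪ M.biUnion (ns i) := by
    rw [eAL, eAU, union_assoc, hMu]
  have hsum : ∑ x ∈ M, (ns i x).card = 2 * M.card := by
    rw [sum_congr rfl (fun x hx => ns_card (hM hx)), sum_const, smul_eq_mul, mul_comm]
  have hble : (M.biUnion (ns i)).card ≤ 2 * M.card := by
    rw [← hsum]
    exact card_biUnion_le
  have hsub : AL i (eZ a z M) ∪ AU i (eZ a z M) ⊆ lv P i := by
    intro x hx
    rw [mem_lv]
    rcases mem_union.1 hx with h | h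
    · exact ((NormD_mem_AL _ _ _).1 h).1
    · exact ((NormD_mem_AU _ _ _).1 h).1
  have hBle := card_le_card hsub
  by_cases hD : Disjoint (AL i (eZ a z M)) (AU i (eZ a z M))
  · have hcu : (AL i (eZ a z M) ∪ AU i (eZ a z M)).card =
        (AL i (eZ a z M)).card + (AU i (eZ a z M)).card := card_union_of_disjoint hD
    have htrm : trm i (eZ a z M) = xx ^ aL i (eZ a z M) * xi ^ (M ∩ dbU P i).card *
        dd ^ (pL i (eZ a z M) + (M ∩ dbU P i).card) * (xx ^ (AL i (eZ a z M)).card *
        dd ^ ((lv P i).card - (AL i (eZ a z M)).card - (AU i (eZ a z M)).card)) := by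
      unfold trm
      rw [if_pos hD]
      unfold cw
      rw [if_pos ⟨eZ_admL H hz hM, eZ_admU H hz hM⟩, eaU, epU, zero_add]
    by_cases hC : Dj i M ∧ Disjoint (M.biUnion (ns i)) (uc y ∪ uc v)
    · rw [if_pos hC]
      have h1 : (AL i (eZ a z M)).card = 3 + 2 * (M ∩ dbL P i).card := by
        rw [eAL, card_union_of_disjoint, hT, Dj_bi_card hC.1 inter_subset_left]
        refine disjoint_of_subset_right ?_ hC.2.symm
        exact biUnion_subset_biUnion_of_subset_left _ inter_subset_left
      have h2 : (AU i (eZ a z M)).card = 2 * (M ∩ dbU P i).card := by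
        rw [eAU, Dj_bi_card hC.1 inter_subset_left]
      have h3 : (lv P i).card - 3 = ((lv P i).card - 4) + 1 := by omega
      have h4 : pL i (eZ a z M) + (M ∩ dbU P i).card +
          ((lv P i).card - (AL i (eZ a z M)).card - (AU i (eZ a z M)).card) =
          (lv P i).card - 4 := by
        rcases ha with rfl | rfl
        · rw [if_neg (by omega)] at epL
          omega
        · rw [if_pos (by omega)] at epL
          omega
      have h5 : trm i (eZ a z M) = dd ^ ((lv P i).card - 4) *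
          (xx ^ aL i (eZ a z M) * xi ^ (M ∩ dbU P i).card * xx ^ (AL i (eZ a z M)).card) := by
        rw [htrm, ← h4, pow_add dd (pL i (eZ a z M) + (M ∩ dbU P i).card)]
        ring
      rw [h5, h3, mul_comm (((∏ k ∈ M, sgn i k : ℤ)) : A), ← mul_add, pow_succ]
      refine mul_dvd_mul_left _ ?_
      unfold dd
      rw [PowerSeries.X_dvd_iff, map_add, map_mul, map_mul, map_pow, map_pow, map_pow, cc_xx,
        cc_xi, prod_sgn, h1, eaL]
      have h6 : PowerSeries.constantCoeff ((((-1 : ℤ) ^ (M ∩ dbU P i).card : ℤ)) : A) =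
          (-1 : ℤ) ^ (M ∩ dbU P i).card := by
        rw [map_intCast]
        simp
      rw [h6]
      have h7 : (-1 : ℤ) ^ (3 + 2 * (M ∩ dbL P i).card) = -1 := by
        rw [pow_add, pow_mul]
        norm_num
      rw [h7]
      rcases ha with rfl | rfl
      · rw [if_neg (by omega), pow_zero]
        ring
      · rw [if_pos (by omega)]
        ring
    · rw [if_neg hC, Int.cast_zero, zero_mul, add_zero, htrm]
      have h1 : (AL i (eZ a z M)).card + (AU i (eZ a z M)).card ≤ 2 + 2 * M.card := by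
        by_contra h
        apply hC
        have h2 : 3 + 2 * M.card ≤ ((uc y ∪ uc v) ∪ M.biUnion (ns i)).card := by
          rw [← hun]
          omega
        have h3 := card_union_add_card_inter (uc y ∪ uc v) (M.biUnion (ns i))
        have h4 : ((uc y ∪ uc v) ∩ M.biUnion (ns i)).card = 0 := by omega
        have h5 : Disjoint (uc y ∪ uc v) (M.biUnion (ns i)) := by
          rw [disjoint_iff_inter_eq_empty]
          exact card_eq_zero.1 h4
        refine ⟨⟨hM, fun x hx x' hx' hne => ?_⟩, h5.symm⟩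
        exact disj_of_card_biUnion (by rw [hsum]; omega) hx hx' hne
      have h2 : (lv P i).card - 3 ≤ pL i (eZ a z M) + (M ∩ dbU P i).card +
          ((lv P i).card - (AL i (eZ a z M)).card - (AU i (eZ a z M)).card) := by
        rcases ha with rfl | rfl
        · rw [if_neg (by omega)] at epL
          omega
        · rw [if_pos (by omega)] at epL
          omega
      have h3 : xx ^ aL i (eZ a z M) * xi ^ (M ∩ dbU P i).card *
        dd ^ (pL i (eZ a z M) + (M ∩ dbU P i).card) * (xx ^ (AL i (eZ a z M)).card *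
        dd ^ ((lv P i).card - (AL i (eZ a z M)).card - (AU i (eZ a z M)).card)) =
        dd ^ (pL i (eZ a z M) + (M ∩ dbU P i).card +
          ((lv P i).card - (AL i (eZ a z M)).card - (AU i (eZ a z M)).card)) *
          (xx ^ aL i (eZ a z M) * xi ^ (M ∩ dbU P i).card * xx ^ (AL i (eZ a z M)).card) := by
        rw [pow_add dd (pL i (eZ a z M) + (M ∩ dbU P i).card)]
        ring
      rw [h3]
      exact dvd_mul_of_dvd_left (pow_dvd_pow _ h2) _
  · have hC : ¬ (Dj i M ∧ Disjoint (M.biUnion (ns i)) (uc y ∪ uc v)) := by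
      rintro ⟨h1, h2⟩
      apply hD
      rw [eAL, eAU, disjoint_union_left]
      constructor
      · refine disjoint_of_subset_right ?_ h2.symm
        exact biUnion_subset_biUnion_of_subset_left _ inter_subset_left
      · rw [disjoint_left]
        intro x hx hx'
        rw [mem_biUnion] at hx hx'
        obtain ⟨w, hw, hxw⟩ := hx
        obtain ⟨w', hw', hxw'⟩ := hx'
        rw [mem_inter] at hw hw'
        have hne : w ≠ w' := by
          rintro rfl
          have h3 := (mem_dbL.1 hw.2).1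
          have h4 := (mem_dbU.1 hw'.2).1
          omega
        exact disjoint_left.1 (h1.2 w hw.1 w' hw'.1 hne) hxw hxw'
    rw [if_neg hC, Int.cast_zero, zero_mul, add_zero]
    unfold trm
    rw [if_neg hD]
    exact dvd_zero _

end Pool.Agent.GaussPoset.Win.K2

end

/-! From `Pool.Agent.W_448so_h63.GF` -/

section

/-!
The identity (6,4) at the window j (MP_448cb3_co, case B): the extremal configurations of energy six
which excite an element outside the components.
-/

namespace Pool.Agent.GaussPoset.Win.K2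

set_option linter.unusedSectionVars false

open Finset I2

universe u

variable {P : Type u} [Fintype P] [PartialOrder P] [DecidableEq P] {r i : ℕ} {e : P → ℕ}

variable {ι : Type*} [DecidableEq ι] {κ : P → ι} {K : Finset P} {psi : P → P}

/-- joins of level `i + 2` of a double and a single element of two components -/
structure SD (i : ℕ) (κ : P → ι) (z y v : P) : Prop where
  lz : lev z = i + 2
  huc : uc z = {y, v}
  hk : κ y ≠ κ v
  cy : (uc y).card = 2
  cv : (uc v).card = 1

lemma SD.ne {z y v : P} (h : SD i κ z y v) : y ≠ v := fun h1 => h.hk (by rw [h1])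

lemma SD.my {z y v : P} (h : SD i κ z y v) : y ∈ uc z := by rw [h.huc]; exact mem_insert_self _ _

lemma SD.mv {z y v : P} (h : SD i κ z y v) : v ∈ uc z := by
  rw [h.huc]; exact mem_insert_of_mem (mem_singleton_self _)

lemma SD.ly (H : Gr P r) {z y v : P} (h : SD i κ z y v) : lev y = i + 1 := by
  have := lev_uc H h.my
  have := h.lz
  omega

lemma SD.lv' (H : Gr P r) {z y v : P} (h : SD i κ z y v) : lev v = i + 1 := by
  have := lev_uc H h.mv
  have := h.lz
  omega

/-- the extremal cross configurations of energy six -/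
theorem cross_six (H : Gr P r) (hir : i ≤ r) (hq : NoQ P (i + 2))
    (hg : ∀ m, m + 1 = i → Good P m) (hκ : Split (i + 1) κ) (hM : Mat P i K psi)
    (hL : AdmL i e) (hU : AdmU i e) (hd : Disjoint (AL i e) (AU i e)) (h6 : ∑ x, e x = 6)
    {z0 : P} (hz0 : z0 ∉ cuni (i + 1) κ) (he0 : 1 ≤ e z0) :
    (AL i e).card + (AU i e).card ≤ 3 + (pL i e + pU i e) ∨
      ((AL i e).card + (AU i e).card ≤ 4 + (pL i e + pU i e) ∧
      ((SK i K psi e).Nonempty ∨ ∃ z y v a M, SD i κ z y v ∧ z ∉ cuni (i + 1) κ ∧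
        (a = 1 ∨ a = 2) ∧ M ⊆ K ∧ Disjoint M (uc z) ∧ M.card + a = 4 ∧ e = eZ a z M)) := by
  classical
  rcases cross_D H hκ hq hL hz0 he0 with ⟨D, hD3, hD⟩ | ⟨y, v, lz, huc, hk, cy, cv, ey, ev⟩
  · left
    have := ord_le H hir hq hg hL hU hD
    omega
  · have S : SD i κ z0 y v := ⟨lz, huc, hk, cy, cv⟩
    have hly := S.ly H
    have hlv := S.lv' H
    have hzv : z0 ≠ v := by rintro rfl; omega
    have hzy : z0 ≠ y := by rintro rfl; omega
    have hD : ∀ x ∈ ({z0, v} : Finset P), 1 ≤ e x ∧ Dp i x := by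
      intro x hx
      rw [mem_insert, mem_singleton] at hx
      rcases hx with rfl | rfl
      · exact ⟨he0, Or.inl (by omega)⟩
      · exact ⟨ev, Or.inr ⟨by omega, cv⟩⟩
    have h1 := ord_le H hir hq hg hL hU hD
    rw [card_pair hzv] at h1
    by_cases h2 : (AL i e).card + (AU i e).card ≤ 3 + (pL i e + pU i e)
    · exact Or.inl h2
    right
    refine ⟨by omega, ?_⟩
    obtain ⟨q1, q2, q3⟩ := ord_eq H hir hq hg hL hU hD (by rw [card_pair hzv]; omega)
    have hbz : z0 ∉ bN i e := by
      intro h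
      unfold bN at h
      rcases mem_union.1 h with h | h
      · have := (bL_data H hir hq hg h).1
        omega
      · have := (bU_data H hir hq hg h).1
        omega
    have hbv : v ∉ bN i e := by
      intro h
      unfold bN at h
      rcases mem_union.1 h with h | h
      · have := (bL_data H hir hq hg h).2.1
        omega
      · have := (bU_data H hir hq hg h).1
        omega
    have hby : y ∈ bN i e := by
      apply q1 y _ ey
      rw [mem_insert, mem_singleton]
      rintro (h | h)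
      · exact hzy h.symm
      · exact S.ne h
    have ha : e z0 ≤ 2 := q2 z0 (mem_insert_self _ _)
    have hv1 : e v = 1 := q3 v (mem_insert_of_mem (mem_singleton_self _)) hlv
    have hMd : Disjoint ((bN i e).erase y) (uc z0) := by
      rw [huc, disjoint_insert_right, disjoint_singleton_right]
      exact ⟨notMem_erase _ _, fun h => hbv (mem_erase.1 h).2⟩
    have heq : e = eZ (e z0) z0 ((bN i e).erase y) := by
      funext x
      unfold eZ
      split_ifs with h3 h4
      · rw [h3]
      · rw [mem_union, huc, mem_insert, mem_singleton, mem_erase] at h4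
        rcases h4 with (h4 | h4) | h4
        · rw [h4]
          exact (bN_data H hir hq hg hby).2.1
        · rw [h4, hv1]
        · exact (bN_data H hir hq hg h4.2).2.1
      · by_contra h5
        apply h4
        rw [mem_union, huc, mem_insert, mem_singleton, mem_erase]
        by_cases h6 : x = v
        · exact Or.inl (Or.inr h6)
        by_cases h7 : x = y
        · exact Or.inl (Or.inl h7)
        right
        refine ⟨h7, q1 x ?_ (by omega)⟩
        rw [mem_insert, mem_singleton]
        rintro (h | h)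
        · exact h3 h
        · exact h6 h
    have hcard : ((bN i e).erase y).card + e z0 = 4 := by
      have h3 : ∑ x, e x = e z0 + (uc z0 ∪ (bN i e).erase y).card := by
        rw [← Finset.add_sum_erase univ e (mem_univ z0)]
        congr 1
        have h4 : ∀ x ∈ univ.erase z0, e x = if x ∈ uc z0 ∪ (bN i e).erase y then 1 else 0 := by
          intro x hx
          have h5 := congrFun heq x
          unfold eZ at h5
          rwa [if_neg (mem_erase.1 hx).1] at h5
        rw [Finset.sum_congr rfl h4, Finset.sum_ite_mem, Finset.sum_const, smul_eq_mul, mul_one]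
        congr 1
        ext x
        rw [mem_inter, mem_erase]
        constructor
        · exact fun h => h.2
        · intro h
          refine ⟨⟨?_, mem_univ x⟩, h⟩
          rintro rfl
          rcases mem_union.1 h with h | h
          · have := lev_uc H h
            omega
          · exact hbz (mem_erase.1 h).2
      rw [h6, card_union_of_disjoint hMd.symm, huc, card_pair S.ne] at h3
      omega
    by_cases hMK : (bN i e).erase y ⊆ K
    · right
      exact ⟨z0, y, v, e z0, (bN i e).erase y, S, hz0, by omega, hMK, hMd, hcard, heq⟩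
    · left
      rw [Finset.not_subset] at hMK
      obtain ⟨k, hk1, hk2⟩ := hMK
      rw [mem_erase] at hk1
      have hkb := hk1.2
      unfold bN at hkb
      rcases mem_union.1 hkb with h | h
      · obtain ⟨b1, -, -, -, -, -⟩ := bL_data H hir hq hg h
        refine ⟨k, (low_simple hM H hq hU hd h hk2 ?_).1⟩
        intro w hw
        by_contra hne
        have hlw := lev_dc H hw
        have h3 : w ∉ bN i e := by
          intro h4
          unfold bN at h4
          rcases mem_union.1 h4 with h4 | h4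
          · have := (bL_data H hir hq hg h4).1
            omega
          · have := (bU_data H hir hq hg h4).1
            omega
        have h4 : w = z0 := by
          by_contra h5
          refine h3 (q1 w ?_ (by omega))
          rw [mem_insert, mem_singleton]
          rintro (h6 | h6)
          · exact h5 h6
          · rw [h6] at hlw
            omega
        rw [h4] at hw
        have h5 : k ∈ uc z0 := mem_uc.2 (mem_dc.1 hw)
        rw [huc, mem_insert, mem_singleton] at h5
        rcases h5 with h5 | h5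
        · exact hk1.1 h5
        · rw [h5] at hk1
          exact hbv hk1.2
      · obtain ⟨b1, -, -, -, -, -⟩ := bU_data H hir hq hg h
        refine ⟨psi k, (up_simple hM H hir hg hL hd h hk2 ?_).2.1⟩
        intro w hw
        by_contra hne
        have hlw := lev_uc H hw
        have h3 : w ∉ bN i e := by
          intro h4
          unfold bN at h4
          rcases mem_union.1 h4 with h4 | h4
          · have := (bL_data H hir hq hg h4).1
            omega
          · have := (bU_data H hir hq hg h4).1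
            omega
        refine h3 (q1 w ?_ (by omega))
        rw [mem_insert, mem_singleton]
        rintro (h6 | h6)
        · rw [h6] at hlw
          omega
        · rw [h6] at hlw
          omega

/-- order at energy three -/
theorem cross_three (H : Gr P r) (hir : i ≤ r) (hq : NoQ P (i + 2))
    (hg : ∀ m, m + 1 = i → Good P m) (hκ : Split (i + 1) κ)
    (hL : AdmL i e) (hU : AdmU i e) (h3 : ∑ x, e x ≤ 3)
    {z0 : P} (hz0 : z0 ∉ cuni (i + 1) κ) (he0 : 1 ≤ e z0) :
    (AL i e).card + (AU i e).card ≤ 1 + (pL i e + pU i e) := by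
  classical
  rcases cross_D H hκ hq hL hz0 he0 with ⟨D, hD3, hD⟩ | ⟨y, v, lz, huc, hk, cy, cv, ey, ev⟩
  · have := ord_le H hir hq hg hL hU hD
    omega
  · have S : SD i κ z0 y v := ⟨lz, huc, hk, cy, cv⟩
    have hlv := S.lv' H
    have hzv : z0 ≠ v := by rintro rfl; omega
    have hD : ∀ x ∈ ({z0, v} : Finset P), 1 ≤ e x ∧ Dp i x := by
      intro x hx
      rw [mem_insert, mem_singleton] at hx
      rcases hx with rfl | rfl
      · exact ⟨he0, Or.inl (by omega)⟩
      · exact ⟨ev, Or.inr ⟨by omega, cv⟩⟩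
    have h1 := ord_le H hir hq hg hL hU hD
    rw [card_pair hzv] at h1
    omega

/-- the extremal configurations have no simple edge -/
theorem SK_eZ (H : Gr P r) (hM : Mat P i K psi) {z y v : P} (S : SD i κ z y v) {a : ℕ}
    (ha : a = 1 ∨ a = 2) {M : Finset P} (hMK : M ⊆ K) : SK i K psi (eZ a z M) = ∅ := by
  classical
  rw [Finset.eq_empty_iff_forall_notMem]
  intro x hx
  rw [mem_SK] at hx
  obtain ⟨h1, h2, h3⟩ := hx
  obtain ⟨p1, p2, p3, p4⟩ := psi_low hM h1 h2
  have hl := mem_dbL'.1 h1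
  have hp := mem_dbU'.1 p1
  have hlz := S.lz
  rcases h3.one with ⟨h4, -⟩ | ⟨-, h4⟩
  · have h5 : x ∈ uc z ∪ M := by
      by_contra h5
      unfold eZ at h4
      rw [if_neg (by rintro rfl; omega), if_neg h5] at h4
      omega
    rcases mem_union.1 h5 with h5 | h5
    · have h6 := h3.lo z (mem_dc.2 (mem_uc.1 h5))
      unfold eZ at h6
      rw [if_pos rfl] at h6
      omega
    · exact h2 (hMK h5)
  · have h5 : psi x ∈ uc z ∪ M := by
      by_contra h5
      unfold eZ at h4
      rw [if_neg (by intro h; rw [h] at hp; omega), if_neg h5] at h4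
      omega
    rcases mem_union.1 h5 with h5 | h5
    · have := lev_uc H h5
      omega
    · exact p4 (hMK h5)

end Pool.Agent.GaussPoset.Win.K2

end

/-! From `Pool.Agent.W_448so_h63.GG` -/

section

/-!
The identity (6,4) at the window j (MP_448cb3_co, case B): the sum over the extremal configurations
of energy six which excite an element outside the components.
-/

namespace Pool.Agent.GaussPoset.Win.K2

set_option linter.unusedSectionVars false

open Finset I2

universe u

variable {P : Type u} [Fintype P] [PartialOrder P] [DecidableEq P] {r i : ℕ} {e : P → ℕ}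

variable {ι : Type*} [DecidableEq ι] {κ : P → ι} {K : Finset P} {psi : P → P}

open Classical in
/-- the joins of level `i + 2` of a double and a single element -/
noncomputable def Z2 (i : ℕ) (κ : P → ι) : Finset P :=
  univ.filter (fun z => z ∉ cuni (i + 1) κ ∧ ∃ y v, SD i κ z y v)

lemma mem_Z2 {z : P} : z ∈ Z2 i κ ↔ z ∉ cuni (i + 1) κ ∧ ∃ y v, SD i κ z y v := by
  classical
  unfold Z2
  rw [mem_filter]
  simp

/-- the sites above an element of level `i + 2` -/
noncomputable def Tz (z : P) : Finset P := (uc z).biUnion uc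

lemma SD.Tz {z y v : P} (h : SD i κ z y v) : Tz z = uc y ∪ uc v := by
  unfold K2.Tz
  rw [h.huc, biUnion_insert, singleton_biUnion]

lemma SD.card_T (H : Gr P r) (hκ : Split (i + 1) κ) {z y v : P} (h : SD i κ z y v) :
    (uc y ∪ uc v).card = 3 := by
  rw [card_union_of_disjoint, h.cy, h.cv]
  rw [disjoint_left]
  intro s h1 h2
  have l1 := h.ly H
  have l2 := h.lv' H
  exact h.hk ((hκ (mem_uc.1 h1) (by omega)).trans (hκ (mem_uc.1 h2) (by omega)).symm)

open Classical in
/-- the index set of the extremal configurations -/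
noncomputable def S0 (i : ℕ) (κ : P → ι) (K : Finset P) : Finset ((P × ℕ) × Finset P) :=
  ((Z2 i κ ×ˢ ({1, 2} : Finset ℕ)) ×ˢ K.powerset).filter
    (fun p => Disjoint p.2 (uc p.1.1) ∧ p.2.card + p.1.2 = 4)

lemma mem_S0 {z : P} {a : ℕ} {M : Finset P} : ((z, a), M) ∈ S0 i κ K ↔
    z ∈ Z2 i κ ∧ (a = 1 ∨ a = 2) ∧ M ⊆ K ∧ Disjoint M (uc z) ∧ M.card + a = 4 := by
  classical
  unfold S0
  rw [mem_filter, mem_product, mem_product, mem_powerset, mem_insert, mem_singleton]
  tauto

/-- the extremal configuration of an index -/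
noncomputable def F0 (p : (P × ℕ) × Finset P) : P → ℕ := eZ p.1.2 p.1.1 p.2

lemma F0_inj (H : Gr P r) (hK : K ⊆ dbL P i ∪ dbU P i) : Set.InjOn F0 (↑(S0 i κ K) : Set ((P × ℕ) × Finset P)) := by
  classical
  rintro ⟨⟨z, a⟩, M⟩ h ⟨⟨z', a'⟩, M'⟩ h' heq
  rw [mem_coe, mem_S0] at h h'
  obtain ⟨hz, ha, hM, hd, hc⟩ := h
  obtain ⟨hz', ha', hM', hd', hc'⟩ := h'
  obtain ⟨-, y, v, S⟩ := mem_Z2.1 hz
  obtain ⟨-, y', v', S'⟩ := mem_Z2.1 hz'
  have hlz := S.lz
  have hlz' := S'.lz
  have hnear : ∀ x ∈ K, lev x = i + 1 ∨ lev x + 1 = i := by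
    intro x hx
    rcases mem_union.1 (hK hx) with h | h
    · exact Or.inl (mem_dbL'.1 h).1
    · exact Or.inr (mem_dbU'.1 h).1
  unfold F0 at heq
  simp only at heq
  have hzz : z = z' := by
    by_contra hne
    have h1 := congrFun heq z
    unfold eZ at h1
    rw [if_pos rfl, if_neg hne, if_neg] at h1
    · omega
    · intro h2
      rcases mem_union.1 h2 with h2 | h2
      · have := lev_uc H h2
        omega
      · have := hnear z (hM' h2)
        omega
  subst hzz
  have haa : a = a' := by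
    have h1 := congrFun heq z
    unfold eZ at h1
    rwa [if_pos rfl, if_pos rfl] at h1
  subst haa
  have key : ∀ {M M' : Finset P}, M ⊆ K → Disjoint M (uc z) → eZ a z M = eZ a z M' →
      M ⊆ M' := by
    intro M M' hM hd h x hx
    have hxz : x ≠ z := by
      rintro rfl
      have := hnear x (hM hx)
      omega
    have h1 := congrFun h x
    unfold eZ at h1
    rw [if_neg hxz, if_neg hxz, if_pos (mem_union_right _ hx)] at h1
    by_contra h2
    rw [if_neg] at h1
    · omega
    · rw [mem_union]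
      rintro (h3 | h3)
      · exact disjoint_left.1 hd hx h3
      · exact h2 h3
  rw [subset_antisymm (key hM hd heq) (key hM' hd' heq.symm)]

open Classical in
/-- the coefficient of an index -/
noncomputable def c0 (i : ℕ) (p : (P × ℕ) × Finset P) : ℤ :=
  if Dj i p.2 ∧ Disjoint (p.2.biUnion (ns i)) (Tz p.1.1) then ∏ k ∈ p.2, sgn i k else 0

/-- the sum of the coefficients -/
theorem sum_c0 (H : Gr P r) (hK : K ⊆ dbL P i ∪ dbU P i) :
    ∑ p ∈ S0 i κ K, c0 i p = ∑ z ∈ Z2 i κ, (EK.Ek i K (Tz z) 3 + EK.Ek i K (Tz z) 2) := by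
  classical
  unfold S0
  rw [Finset.sum_filter, Finset.sum_product, Finset.sum_product]
  refine Finset.sum_congr rfl fun z hz => ?_
  obtain ⟨-, y, v, S⟩ := mem_Z2.1 hz
  have hlz := S.lz
  have key : ∀ a k : ℕ, k + a = 4 → ∑ M ∈ K.powerset,
      (if Disjoint M (uc z) ∧ M.card + a = 4 then c0 i ((z, a), M) else 0) =
      EK.Ek i K (Tz z) k := by
    intro a k hk
    rw [EK.Ek_eq hK, Finset.sum_filter, Finset.powersetCard_eq_filter,
      Finset.sum_filter]
    refine Finset.sum_congr rfl fun M hM => ?_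
    rw [mem_powerset] at hM
    unfold c0
    simp only
    by_cases h1 : M.card = k
    · rw [if_pos h1]
      by_cases h2 : Dj i M ∧ Disjoint (M.biUnion (ns i)) (Tz z)
      · rw [if_pos h2, if_pos]
        refine ⟨?_, by omega⟩
        rw [disjoint_left]
        intro x hx hx'
        have h3 := hM hx
        have h4 : (ns i x).Nonempty := EK.ns_ne (hK h3)
        obtain ⟨s, hs⟩ := h4
        refine disjoint_left.1 h2.2 (mem_biUnion.2 ⟨x, hx, hs⟩) ?_
        unfold Tz
        rw [mem_biUnion]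
        refine ⟨x, hx', ?_⟩
        have h5 := lev_uc H hx'
        unfold ns at hs
        rwa [if_pos (by omega)] at hs
      · rw [if_neg h2]
        split_ifs <;> rfl
    · rw [if_neg h1, if_neg]
      rintro ⟨-, h2⟩
      omega
  rw [Finset.sum_pair (by norm_num : (1 : ℕ) ≠ 2), key 1 3 rfl, key 2 2 rfl]

end Pool.Agent.GaussPoset.Win.K2

end

/-! From `Pool.Agent.W_448so_h63.GK` -/

section

/-!
The identity (6,4) at the window j (MP_448cb3_co, case B): the final form.
-/

namespace Pool.Agent.GaussPoset.Win.K2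

set_option linter.unusedSectionVars false

open Finset I2

universe u

variable {P : Type u} [Fintype P] [PartialOrder P] [DecidableEq P] {r i : ℕ} {e : P → ℕ}

variable {ι : Type*} [DecidableEq ι] {κ : P → ι} {K C : Finset P} {psi : P → P}

/-- a small component is a star -/
lemma star_small (H : Gr P r) (hir : i ≤ r) (hκ : Split (i + 1) κ) (R : EK.Red P i K psi) {a : ι}
    (hs : EK.Small i κ a) : Star i (cext (i + 1) κ a) K := by
  have hk : ∀ k ∈ K, k ∈ cext (i + 1) κ a → κ k = a := by
    intro k hk hkC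
    refine mem_cext.1 hkC k le_rfl ?_
    rcases mem_union.1 (R.sub hk) with h | h
    · have := mem_dbL'.1 h
      omega
    · have := mem_dbU'.1 h
      omega
  constructor
  · intro k h1 h2 k' h1' h2' _
    have h3 := R.same_of_small H hir hκ hs h1 h1' (hk k h1 h2) (hk k' h1' h2')
    rw [not_disjoint_iff] at h3
    exact h3
  · intro k h1 h2 k' h1' h2' k'' h1'' h2'' n1 n2 n3 x hx hx' hx''
    exact R.three_of_small H hκ hs h1 h1' h1'' (hk k h1 h2) (hk k' h1' h2') (hk k'' h1'' h2'')
      n1 n2 n3 hx hx' hx''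

end Pool.Agent.GaussPoset.Win.K2

end

/-! From `Pool.Agent.W_448w4_h10.MA` -/

section

/-!
MP_448cb3_co, G2, case B: the identities (2,1) and (4,2) at the window `j`: the values of the extremal cross
configurations (the file of helper83, for every energy).  helper10.
-/

namespace Pool.Agent.GaussPoset.Win.K2

set_option linter.unusedSectionVars false

open Finset I2

universe u

variable {P : Type u} [Fintype P] [PartialOrder P] [DecidableEq P] {r i : ℕ}

open Classical in
/-- the leading coefficient of the extremal cross configurations -/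
theorem trm_eZn (H : Gr P r) (hir : i ≤ r) {z y v : P} (hz : lev z = i + 2) (huc : uc z = {y, v})
    (hyv : y ≠ v) (hT : (uc y ∪ uc v).card = 3) {a : ℕ} (ha : a = 1 ∨ a = 2) {M : Finset P}
    (hM : M ⊆ dbL P i ∪ dbU P i) (hMz : Disjoint M (uc z)) {n : ℕ}
    (hc : M.card + a = n) :
    dd ^ ((lv P i).card - (n - 1)) ∣ trm i (eZ a z M) +
      ((if Dj i M ∧ Disjoint (M.biUnion (ns i)) (uc y ∪ uc v) then ∏ k ∈ M, sgn i k else 0 : ℤ) : A)
        * dd ^ ((lv P i).card - n) := by
  have ha1 : 1 ≤ a := by omega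
  have hcz : (uc z).card = 2 := by
    rw [huc, card_pair hyv]
  have hbu : (uc z).biUnion uc = uc y ∪ uc v := by
    rw [huc, biUnion_insert, singleton_biUnion]
  have eAL := eZ_AL (a := a) H hz hM
  have eAU := eZ_AU (a := a) H hz hM
  rw [hbu] at eAL
  have eaL := eZ_aL (a := a) H hz hM
  have epL := eZ_pL H hz hM ha1 hMz
  have eaU := eZ_aU (a := a) H hz hM
  have epU := eZ_pU (a := a) H hir hz hM
  rw [hcz] at eaL epL
  have hMc : M.card = (M ∩ dbL P i).card + (M ∩ dbU P i).card := by
    rw [← card_union_of_disjoint]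
    · congr 1
      rw [← inter_union_distrib_left]
      exact (inter_eq_left.2 hM).symm
    · rw [disjoint_left]
      intro x h1 h2
      rw [mem_inter] at h1 h2
      have h3 := (mem_dbL.1 h1.2).1
      have h4 := (mem_dbU.1 h2.2).1
      omega
  have hMu : (M ∩ dbL P i).biUnion (ns i) ∪ (M ∩ dbU P i).biUnion (ns i) = M.biUnion (ns i) := by
    rw [← union_biUnion, ← inter_union_distrib_left, inter_eq_left.2 hM]
  have hun : AL i (eZ a z M) ∪ AU i (eZ a z M) = (uc y ∪ uc v) ∪ M.biUnion (ns i) := by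
    rw [eAL, eAU, union_assoc, hMu]
  have hsum : ∑ x ∈ M, (ns i x).card = 2 * M.card := by
    rw [sum_congr rfl (fun x hx => ns_card (hM hx)), sum_const, smul_eq_mul, mul_comm]
  have hble : (M.biUnion (ns i)).card ≤ 2 * M.card := by
    rw [← hsum]
    exact card_biUnion_le
  have hsub : AL i (eZ a z M) ∪ AU i (eZ a z M) ⊆ lv P i := by
    intro x hx
    rw [mem_lv]
    rcases mem_union.1 hx with h | h
    · exact ((NormD_mem_AL _ _ _).1 h).1
    · exact ((NormD_mem_AU _ _ _).1 h).1
  have hBle := card_le_card hsub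
  by_cases hD : Disjoint (AL i (eZ a z M)) (AU i (eZ a z M))
  · have hcu : (AL i (eZ a z M) ∪ AU i (eZ a z M)).card =
        (AL i (eZ a z M)).card + (AU i (eZ a z M)).card := card_union_of_disjoint hD
    have htrm : trm i (eZ a z M) = xx ^ aL i (eZ a z M) * xi ^ (M ∩ dbU P i).card *
        dd ^ (pL i (eZ a z M) + (M ∩ dbU P i).card) * (xx ^ (AL i (eZ a z M)).card *
        dd ^ ((lv P i).card - (AL i (eZ a z M)).card - (AU i (eZ a z M)).card)) := by
      unfold trm
      rw [if_pos hD]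
      unfold cw
      rw [if_pos ⟨eZ_admL H hz hM, eZ_admU H hz hM⟩, eaU, epU, zero_add]
    by_cases hC : Dj i M ∧ Disjoint (M.biUnion (ns i)) (uc y ∪ uc v)
    · rw [if_pos hC]
      have h1 : (AL i (eZ a z M)).card = 3 + 2 * (M ∩ dbL P i).card := by
        rw [eAL, card_union_of_disjoint, hT, Dj_bi_card hC.1 inter_subset_left]
        refine disjoint_of_subset_right ?_ hC.2.symm
        exact biUnion_subset_biUnion_of_subset_left _ inter_subset_left
      have h2 : (AU i (eZ a z M)).card = 2 * (M ∩ dbU P i).card := by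
        rw [eAU, Dj_bi_card hC.1 inter_subset_left]
      have h3 : (lv P i).card - (n - 1) = ((lv P i).card - n) + 1 := by omega
      have h4 : pL i (eZ a z M) + (M ∩ dbU P i).card +
          ((lv P i).card - (AL i (eZ a z M)).card - (AU i (eZ a z M)).card) =
          (lv P i).card - n := by
        rcases ha with rfl | rfl
        · rw [if_neg (by omega)] at epL
          omega
        · rw [if_pos (by omega)] at epL
          omega
      have h5 : trm i (eZ a z M) = dd ^ ((lv P i).card - n) *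
          (xx ^ aL i (eZ a z M) * xi ^ (M ∩ dbU P i).card * xx ^ (AL i (eZ a z M)).card) := by
        rw [htrm, ← h4, pow_add dd (pL i (eZ a z M) + (M ∩ dbU P i).card)]
        ring
      rw [h5, h3, mul_comm (((∏ k ∈ M, sgn i k : ℤ)) : A), ← mul_add, pow_succ]
      refine mul_dvd_mul_left _ ?_
      unfold dd
      rw [PowerSeries.X_dvd_iff, map_add, map_mul, map_mul, map_pow, map_pow, map_pow, cc_xx,
        cc_xi, prod_sgn, h1, eaL]
      have h6 : PowerSeries.constantCoeff ((((-1 : ℤ) ^ (M ∩ dbU P i).card : ℤ)) : A) =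
          (-1 : ℤ) ^ (M ∩ dbU P i).card := by
        rw [map_intCast]
        simp
      rw [h6]
      have h7 : (-1 : ℤ) ^ (3 + 2 * (M ∩ dbL P i).card) = -1 := by
        rw [pow_add, pow_mul]
        norm_num
      rw [h7]
      rcases ha with rfl | rfl
      · rw [if_neg (by omega), pow_zero]
        ring
      · rw [if_pos (by omega)]
        ring
    · rw [if_neg hC, Int.cast_zero, zero_mul, add_zero, htrm]
      have h1 : (AL i (eZ a z M)).card + (AU i (eZ a z M)).card ≤ 2 + 2 * M.card := by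
        by_contra h
        apply hC
        have h2 : 3 + 2 * M.card ≤ ((uc y ∪ uc v) ∪ M.biUnion (ns i)).card := by
          rw [← hun]
          omega
        have h3 := card_union_add_card_inter (uc y ∪ uc v) (M.biUnion (ns i))
        have h4 : ((uc y ∪ uc v) ∩ M.biUnion (ns i)).card = 0 := by omega
        have h5 : Disjoint (uc y ∪ uc v) (M.biUnion (ns i)) := by
          rw [disjoint_iff_inter_eq_empty]
          exact card_eq_zero.1 h4
        refine ⟨⟨hM, fun x hx x' hx' hne => ?_⟩, h5.symm⟩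
        exact disj_of_card_biUnion (by rw [hsum]; omega) hx hx' hne
      have h2 : (lv P i).card - (n - 1) ≤ pL i (eZ a z M) + (M ∩ dbU P i).card +
          ((lv P i).card - (AL i (eZ a z M)).card - (AU i (eZ a z M)).card) := by
        rcases ha with rfl | rfl
        · rw [if_neg (by omega)] at epL
          omega
        · rw [if_pos (by omega)] at epL
          omega
      have h3 : xx ^ aL i (eZ a z M) * xi ^ (M ∩ dbU P i).card *
        dd ^ (pL i (eZ a z M) + (M ∩ dbU P i).card) * (xx ^ (AL i (eZ a z M)).card *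
        dd ^ ((lv P i).card - (AL i (eZ a z M)).card - (AU i (eZ a z M)).card)) =
        dd ^ (pL i (eZ a z M) + (M ∩ dbU P i).card +
          ((lv P i).card - (AL i (eZ a z M)).card - (AU i (eZ a z M)).card)) *
          (xx ^ aL i (eZ a z M) * xi ^ (M ∩ dbU P i).card * xx ^ (AL i (eZ a z M)).card) := by
        rw [pow_add dd (pL i (eZ a z M) + (M ∩ dbU P i).card)]
        ring
      rw [h3]
      exact dvd_mul_of_dvd_left (pow_dvd_pow _ h2) _
  · have hC : ¬ (Dj i M ∧ Disjoint (M.biUnion (ns i)) (uc y ∪ uc v)) := by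
      rintro ⟨h1, h2⟩
      apply hD
      rw [eAL, eAU, disjoint_union_left]
      constructor
      · refine disjoint_of_subset_right ?_ h2.symm
        exact biUnion_subset_biUnion_of_subset_left _ inter_subset_left
      · rw [disjoint_left]
        intro x hx hx'
        rw [mem_biUnion] at hx hx'
        obtain ⟨w, hw, hxw⟩ := hx
        obtain ⟨w', hw', hxw'⟩ := hx'
        rw [mem_inter] at hw hw'
        have hne : w ≠ w' := by
          rintro rfl
          have h3 := (mem_dbL.1 hw.2).1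
          have h4 := (mem_dbU.1 hw'.2).1
          omega
        exact disjoint_left.1 (h1.2 w hw.1 w' hw'.1 hne) hxw hxw'
    rw [if_neg hC, Int.cast_zero, zero_mul, add_zero]
    unfold trm
    rw [if_neg hD]
    exact dvd_zero _

end Pool.Agent.GaussPoset.Win.K2

end

/-! From `Pool.Agent.W_448pb_h63.PbA` -/

section

/-!
Per class identities at the window j (MP_448cb3_co, case B): the count of the bad elements of the
label `a`.
-/

namespace Pool.Agent.GaussPoset.Win.K2

set_option linter.unusedSectionVars false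

open Finset I2

universe u

variable {P : Type u} [Fintype P] [PartialOrder P] [DecidableEq P] {r i : ℕ} {e : P → ℕ}

variable {ι : Type*} [DecidableEq ι] {κ : P → ι} {K : Finset P} {psi : P → P}

section lab

variable (H : Gr P r) (hir : i ≤ r) (hq : NoQ P (i + 2)) (hg : ∀ m, m + 1 = i → Good P m)
include H hir hq hg

lemma lev_bN {y : P} (hy : y ∈ bN i e) : lev y ≤ i + 1 := by
  unfold bN at hy
  rcases mem_union.1 hy with h | h
  · have := (bL_data H hir hq hg h).1
    omega
  · have := (bU_data H hir hq hg h).1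
    omega

lemma ns_lab (hκ : Split (i + 1) κ) {k x : P} (hk : k ∈ bN i e) (hx : x ∈ ns i k) :
    κ x = κ k := by
  unfold bN at hk
  rcases mem_union.1 hk with h | h
  · obtain ⟨k1, -, -, k4, -, -⟩ := bL_data H hir hq hg h
    rw [k4] at hx
    exact (hκ (mem_uc.1 hx) (by omega)).symm
  · obtain ⟨k1, -, -, k4, -, -⟩ := bU_data H hir hq hg h
    rw [k4] at hx
    have := lev_dc H hx
    exact hκ (mem_dc.1 hx) (by omega)

end lab

/-- the count of the bad elements of a star and of the full sites -/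
theorem star_loc (H : Gr P r) (hir : i ≤ r) (hq : NoQ P (i + 2))
    (hg : ∀ m, m + 1 = i → Good P m) (hκ : Split (i + 1) κ) (hM : Mat P i K psi) {a : ι}
    (hK : Star i (cext (i + 1) κ a) K)
    (hd : Disjoint (AL i e) (AU i e)) {XL XU : Finset P}
    (hXL : ∀ x ∈ XL, lev x = i ∧ 1 ≤ e x ∧ (∃ y, y ∈ dc x) ∧
        ∀ y ∈ dc x, y ∈ bL i e ∧ ∃ z ∈ dc y, 1 ≤ e z)
    (hXU : ∀ x ∈ XU, lev x = i ∧ 1 ≤ e x ∧ (∃ y, y ∈ uc x) ∧
        ∀ y ∈ uc x, y ∈ bU i e ∧ ∃ z ∈ uc y, 1 ≤ e z) :
    ((KB i K e).filter (fun x => κ x = a)).card + (XL.filter (fun x => κ x = a)).card +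
      (XU.filter (fun x => κ x = a)).card ≤ ∑ x ∈ (lv P i).filter (fun x => κ x = a), e x + 1 := by
  classical
  have hC : ∀ y, y ∈ bN i e → κ y = a → y ∈ cext (i + 1) κ a := by
    intro y hy hk
    exact mem_cext_of_le hκ (lev_bN H hir hq hg hy) hk
  have hKB : ∀ k ∈ (KB i K e).filter (fun x => κ x = a),
      k ∈ K ∧ k ∈ cext (i + 1) κ a ∧ k ∈ bN i e ∧ κ k = a := by
    intro k hk
    rw [mem_filter, mem_KB] at hk
    have h1 : k ∈ bN i e := by
      unfold bN
      rcases hk.1.2 with h | h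
      · exact mem_union_left _ h.1
      · exact mem_union_right _ h.1
    exact ⟨hk.1.1, hC k h1 hk.2, h1, hk.2⟩
  have hlab : ∀ {k x : P}, k ∈ bN i e → x ∈ ns i k → κ x = κ k := fun hk hx =>
    ns_lab H hir hq hg hκ hk hx
  -- elements of `KB` are not next to full sites of their side
  have P1 : ∀ x ∈ XL, ∀ k ∈ KB i K e, x ∈ ns i k → k ∈ bU i e ∧ k ∈ uc x := by
    intro x hx k hk hxk
    obtain ⟨l1, -, -, hx2⟩ := hXL x hx
    rw [mem_KB] at hk
    rcases hk.2 with ⟨h, h0⟩ | ⟨h, h0⟩
    · obtain ⟨k1, -, -, k4, -, -⟩ := bL_data H hir hq hg h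
      rw [k4] at hxk
      obtain ⟨z, hz, hz1⟩ := (hx2 k (mem_dc.2 (mem_uc.1 hxk))).2
      have := h0 z hz
      omega
    · obtain ⟨k1, -, -, k4, -, -⟩ := bU_data H hir hq hg h
      rw [k4] at hxk
      exact ⟨h, mem_uc.2 (mem_dc.1 hxk)⟩
  have P2 : ∀ x ∈ XU, ∀ k ∈ KB i K e, x ∈ ns i k → k ∈ bL i e ∧ k ∈ dc x := by
    intro x hx k hk hxk
    obtain ⟨l1, -, -, hx2⟩ := hXU x hx
    rw [mem_KB] at hk
    rcases hk.2 with ⟨h, h0⟩ | ⟨h, h0⟩
    · obtain ⟨k1, -, -, k4, -, -⟩ := bL_data H hir hq hg h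
      rw [k4] at hxk
      exact ⟨h, mem_dc.2 (mem_uc.1 hxk)⟩
    · obtain ⟨k1, -, -, k4, -, -⟩ := bU_data H hir hq hg h
      rw [k4] at hxk
      obtain ⟨z, hz, hz1⟩ := (hx2 k (mem_uc.2 (mem_dc.1 hxk))).2
      have := h0 z hz
      omega
  -- the partner of a matched element
  have Q1 : ∀ y ∈ bL i e, y ∉ K → ∀ x ∈ ns i y, psi y ∈ uc x ∧ psi y ∉ K ∧
      ns i (psi y) = ns i y := by
    intro y hy hyK x hx
    obtain ⟨k1, k2, -, k4, -, -⟩ := bL_data H hir hq hg hy
    obtain ⟨p1, p2, -, p4⟩ := psi_low hM (mem_dbL'.2 ⟨k1, k2⟩) hyK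
    have hl := mem_dbU'.1 p1
    rw [k4] at hx
    refine ⟨?_, p4, ?_⟩
    · rw [mem_uc, ← mem_dc, p2]
      exact hx
    · rw [k4, ← p2]
      unfold ns
      rw [if_neg (by omega)]
  have Q2 : ∀ y ∈ bU i e, y ∉ K → ∀ x ∈ ns i y, psi y ∈ dc x ∧ psi y ∉ K ∧
      ns i (psi y) = ns i y := by
    intro y hy hyK x hx
    obtain ⟨k1, k2, -, k4, -, -⟩ := bU_data H hir hq hg hy
    obtain ⟨p1, p2, -, p4⟩ := psi_up hM (mem_dbU'.2 ⟨k1, k2⟩) hyK
    have hl := mem_dbL'.1 p1
    rw [k4] at hx
    refine ⟨?_, p4, ?_⟩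
    · rw [mem_dc, ← mem_uc, p2]
      exact hx
    · rw [k4, ← p2]
      unfold ns
      rw [if_pos (by omega)]
  have bLN : ∀ y ∈ bL i e, y ∈ bN i e := fun y hy => mem_union_left _ hy
  have bUN : ∀ y ∈ bU i e, y ∈ bN i e := fun y hy => mem_union_right _ hy
  -- a labelled common site of two elements of `KB` is not full
  have R1 : ∀ k ∈ (KB i K e).filter (fun x => κ x = a),
      ∀ k' ∈ (KB i K e).filter (fun x => κ x = a), k ≠ k' → ∀ q, q ∈ ns i k → q ∈ ns i k' →
      q ∉ XL := by
    intro k hk k' hk' hne q hqk hqk' hqX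
    obtain ⟨u1, u2⟩ := P1 q hqX k (mem_filter.1 hk).1 hqk
    obtain ⟨u1', u2'⟩ := P1 q hqX k' (mem_filter.1 hk').1 hqk'
    have hqa : κ q = a := by rw [hlab (hKB k hk).2.2.1 hqk, (hKB k hk).2.2.2]
    obtain ⟨lq, -, ⟨y, hy⟩, hyq⟩ := hXL q hqX
    have hyb := (hyq y hy).1
    obtain ⟨y1, y2, -, y4, -, -⟩ := bL_data H hir hq hg hyb
    have hqy : q ∈ ns i y := by
      rw [y4]
      exact mem_uc.2 (mem_dc.1 hy)
    have hluk := (bU_data H hir hq hg u1).1
    have hluk' := (bU_data H hir hq hg u1').1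
    have hyK : y ∈ K := by
      by_contra hyK
      obtain ⟨q1, q2, q3⟩ := Q1 y hyb hyK q hqy
      have h2 : ({k, k', psi y} : Finset P) ⊆ uc q := by
        intro s hs
        rw [mem_insert, mem_insert, mem_singleton] at hs
        rcases hs with rfl | rfl | rfl <;> assumption
      have h3 := card_le_card h2
      have h4 := uc_card_le H q
      rw [card_insert_of_notMem, card_pair] at h3
      · omega
      · rintro rfl
        exact q2 (hKB _ hk').1
      · rw [mem_insert, mem_singleton]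
        rintro (h5 | h5)
        · exact hne h5
        · rw [← h5] at q2
          exact q2 (hKB _ hk).1
    have hyk : y ≠ k := by rintro rfl; omega
    have hyk' : y ≠ k' := by rintro rfl; omega
    have hya : κ y = a := by rw [← hlab (bLN y hyb) hqy, hqa]
    rcases hK.three y hyK (hC y (bLN y hyb) hya) k (hKB k hk).1 (hKB k hk).2.1 k' (hKB k' hk').1
      (hKB k' hk').2.1 hyk hyk' hne q hqy hqk hqk' with h | h | h
    · exact bad_ns_ne H hir hq hg hd (bLN y hyb) (hKB k hk).2.2.1 hyk h
    · exact bad_ns_ne H hir hq hg hd (bLN y hyb) (hKB k' hk').2.2.1 hyk' h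
    · exact bad_ns_ne H hir hq hg hd (hKB k hk).2.2.1 (hKB k' hk').2.2.1 hne h
  have R2 : ∀ k ∈ (KB i K e).filter (fun x => κ x = a),
      ∀ k' ∈ (KB i K e).filter (fun x => κ x = a), k ≠ k' → ∀ q, q ∈ ns i k → q ∈ ns i k' →
      q ∉ XU := by
    intro k hk k' hk' hne q hqk hqk' hqX
    obtain ⟨u1, u2⟩ := P2 q hqX k (mem_filter.1 hk).1 hqk
    obtain ⟨u1', u2'⟩ := P2 q hqX k' (mem_filter.1 hk').1 hqk'
    have hqa : κ q = a := by rw [hlab (hKB k hk).2.2.1 hqk, (hKB k hk).2.2.2]
    obtain ⟨lq, -, ⟨y, hy⟩, hyq⟩ := hXU q hqX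
    have hyb := (hyq y hy).1
    obtain ⟨y1, y2, -, y4, -, -⟩ := bU_data H hir hq hg hyb
    have hqy : q ∈ ns i y := by
      rw [y4]
      exact mem_dc.2 (mem_uc.1 hy)
    have hluk := (bL_data H hir hq hg u1).1
    have hluk' := (bL_data H hir hq hg u1').1
    have hyK : y ∈ K := by
      by_contra hyK
      obtain ⟨q1, q2, q3⟩ := Q2 y hyb hyK q hqy
      have h2 : ({k, k', psi y} : Finset P) ⊆ dc q := by
        intro s hs
        rw [mem_insert, mem_insert, mem_singleton] at hs
        rcases hs with rfl | rfl | rfl <;> assumption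
      have h3 := card_le_card h2
      have h4 := dc_card_le H q
      rw [card_insert_of_notMem, card_pair] at h3
      · omega
      · rintro rfl
        exact q2 (hKB _ hk').1
      · rw [mem_insert, mem_singleton]
        rintro (h5 | h5)
        · exact hne h5
        · rw [← h5] at q2
          exact q2 (hKB _ hk).1
    have hyk : y ≠ k := by rintro rfl; omega
    have hyk' : y ≠ k' := by rintro rfl; omega
    have hya : κ y = a := by rw [← hlab (bUN y hyb) hqy, hqa]
    rcases hK.three y hyK (hC y (bUN y hyb) hya) k (hKB k hk).1 (hKB k hk).2.1 k' (hKB k' hk').1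
      (hKB k' hk').2.1 hyk hyk' hne q hqy hqk hqk' with h | h | h
    · exact bad_ns_ne H hir hq hg hd (bUN y hyb) (hKB k hk).2.2.1 hyk h
    · exact bad_ns_ne H hir hq hg hd (bUN y hyb) (hKB k' hk').2.2.1 hyk' h
    · exact bad_ns_ne H hir hq hg hd (hKB k hk).2.2.1 (hKB k' hk').2.2.1 hne h
  -- at most two elements of `KB`
  have T3 : ((KB i K e).filter (fun x => κ x = a)).card ≤ 2 := by
    by_contra hc
    obtain ⟨k, k', k'', hk, hk', hk'', h1, h2, h3⟩ := Finset.two_lt_card_iff.1
      (show 2 < ((KB i K e).filter (fun x => κ x = a)).card by omega)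
    obtain ⟨a1, a2, a3, -⟩ := hKB k hk
    obtain ⟨b1, b2, b3, -⟩ := hKB k' hk'
    obtain ⟨c1, c2, c3, -⟩ := hKB k'' hk''
    obtain ⟨q, q1, q2⟩ := hK.two k a1 a2 k' b1 b2 h1
    obtain ⟨q', q1', q2'⟩ := hK.two k a1 a2 k'' c1 c2 h2
    have e1 := bad_disj H hir hq hg hd a3 b3 h1 q1 q2
    have e2 := bad_disj H hir hq hg hd a3 c3 h2 q1' q2'
    obtain ⟨s, ha, ha0, hall⟩ := bad_two H hir hq hg a3 q1 (by omega)
    have hqq : q' = q := by
      rcases hall q' q1' with h | h
      · exact h
      · rw [h] at e2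
        exact absurd ha0 e2
    rw [hqq] at q2'
    rcases hK.three k a1 a2 k' b1 b2 k'' c1 c2 h1 h2 h3 q q1 q2 q2' with h | h | h
    · exact bad_ns_ne H hir hq hg hd a3 b3 h1 h
    · exact bad_ns_ne H hir hq hg hd a3 c3 h2 h
    · exact bad_ns_ne H hir hq hg hd b3 c3 h3 h
  -- sets of labelled sites
  have hsum : ∀ S : Finset P, (∀ x ∈ S, (lev x = i ∧ 1 ≤ e x) ∧ κ x = a) →
      S.card ≤ ∑ x ∈ (lv P i).filter (fun x => κ x = a), e x := by
    intro S hS
    rw [Finset.card_eq_sum_ones]
    refine le_trans (Finset.sum_le_sum (g := fun x => e x) fun x hx => (hS x hx).1.2) ?_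
    exact Finset.sum_le_sum_of_subset fun x hx =>
      mem_filter.2 ⟨mem_lv.2 (hS x hx).1.1, (hS x hx).2⟩
  obtain ⟨XA, hXA⟩ : ∃ XA : Finset P, XA = XL.filter (fun x => κ x = a) := ⟨_, rfl⟩
  obtain ⟨YA, hYA⟩ : ∃ YA : Finset P, YA = XU.filter (fun x => κ x = a) := ⟨_, rfl⟩
  have mXA : ∀ {x : P}, x ∈ XA ↔ x ∈ XL ∧ κ x = a := by intro x; rw [hXA, mem_filter]
  have mYA : ∀ {x : P}, x ∈ YA ↔ x ∈ XU ∧ κ x = a := by intro x; rw [hYA, mem_filter]
  rw [← hXA, ← hYA]
  have hUn : ∀ x ∈ XA ∪ YA, (lev x = i ∧ 1 ≤ e x) ∧ κ x = a := by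
    intro x hx
    rcases mem_union.1 hx with h | h
    · have h := mXA.1 h
      exact ⟨⟨(hXL x h.1).1, (hXL x h.1).2.1⟩, h.2⟩
    · have h := mYA.1 h
      exact ⟨⟨(hXU x h.1).1, (hXU x h.1).2.1⟩, h.2⟩
  have hcu := Finset.card_union_add_card_inter XA YA
  by_cases hY : XA ∩ YA = ∅
  · rw [hY, card_empty] at hcu
    rcases Nat.lt_or_ge ((KB i K e).filter (fun x => κ x = a)).card 2 with h2 | h2
    · have := hsum _ hUn
      omega
    · obtain ⟨k, hk, k', hk', hne⟩ := Finset.one_lt_card.1
        (by omega : 1 < ((KB i K e).filter (fun x => κ x = a)).card)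
      obtain ⟨a1, a2, a3, a4⟩ := hKB k hk
      obtain ⟨b1, b2, b3, -⟩ := hKB k' hk'
      obtain ⟨q, q1, q2⟩ := hK.two k a1 a2 k' b1 b2 hne
      have e1 := bad_disj H hir hq hg hd a3 b3 hne q1 q2
      have hq' : q ∉ XA ∪ YA := by
        rw [mem_union]
        rintro (h | h)
        · exact R1 k hk k' hk' hne q q1 q2 (mXA.1 h).1
        · exact R2 k hk k' hk' hne q q1 q2 (mYA.1 h).1
      have h3 := hsum (insert q (XA ∪ YA)) (by
        intro x hx
        rcases mem_insert.1 hx with rfl | h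
        · exact ⟨⟨(bN_data H hir hq hg a3).2.2.2 x q1, by omega⟩, by rw [hlab a3 q1, a4]⟩
        · exact hUn x h)
      rw [card_insert_of_notMem hq'] at h3
      omega
  · -- doubly full sites
    have hYx : ∀ x ∈ XA ∩ YA, ∃ y w s b, y ∈ K ∧ y ∈ bN i e ∧ w ∈ K ∧ w ∈ bN i e ∧ y ≠ w ∧
        x ∈ ns i y ∧ x ∈ ns i w ∧ s ∈ ns i y ∧ b ∈ ns i w ∧ e s = 0 ∧ e b = 0 ∧ s ≠ b ∧
        (∀ t ∈ ns i y, t = x ∨ t = s) ∧ (∀ t ∈ ns i w, t = x ∨ t = b) ∧ κ y = a ∧ κ w = a := by
      intro x hx
      rw [mem_inter, mXA, mYA] at hx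
      obtain ⟨l1, x1, ⟨y, hy⟩, hxL⟩ := hXL x hx.1.1
      obtain ⟨-, -, ⟨w, hw⟩, hxU⟩ := hXU x hx.2.1
      have hyb := (hxL y hy).1
      have hwb := (hxU w hw).1
      obtain ⟨y1, -, -, y4, -, -⟩ := bL_data H hir hq hg hyb
      obtain ⟨w1, -, -, w4, -, -⟩ := bU_data H hir hq hg hwb
      have hxy : x ∈ ns i y := by rw [y4]; exact mem_uc.2 (mem_dc.1 hy)
      have hxw : x ∈ ns i w := by rw [w4]; exact mem_dc.2 (mem_uc.1 hw)
      have hyK : y ∈ K := by
        by_contra hyK
        obtain ⟨q1, q2, q3⟩ := Q1 y hyb hyK x hxy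
        have h5 := (hxU _ q1).1
        refine bad_ns_ne H hir hq hg hd (bUN _ h5) (bLN y hyb) ?_ q3
        intro h6
        have h7 := (bU_data H hir hq hg h5).1
        rw [h6] at h7
        omega
      have hwK : w ∈ K := by
        by_contra hwK
        obtain ⟨q1, q2, q3⟩ := Q2 w hwb hwK x hxw
        have h5 := (hxL _ q1).1
        refine bad_ns_ne H hir hq hg hd (bLN _ h5) (bUN w hwb) ?_ q3
        intro h6
        have h7 := (bL_data H hir hq hg h5).1
        rw [h6] at h7
        omega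
      have hyw : y ≠ w := by rintro rfl; omega
      obtain ⟨s, ha, ha0, hay⟩ := bad_two H hir hq hg (bLN y hyb) hxy x1
      obtain ⟨b, hb, hb0, hbw⟩ := bad_two H hir hq hg (bUN w hwb) hxw x1
      refine ⟨y, w, s, b, hyK, bLN y hyb, hwK, bUN w hwb, hyw, hxy, hxw, ha, hb, ha0, hb0, ?_,
        hay, hbw, by rw [← hlab (bLN y hyb) hxy, hx.1.2], by rw [← hlab (bUN w hwb) hxw, hx.1.2]⟩
      rintro rfl
      exact bad_disj H hir hq hg hd (bLN y hyb) (bUN w hwb) hyw ha hb ha0
    have hone : (XA ∩ YA).card ≤ 1 := by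
      rw [Finset.card_le_one]
      intro x hx x' hx'
      by_contra hne
      obtain ⟨y, w, s0, b, yK, yb, wK, wb, hyw, hxy, hxw, ha, hb, a0, b0, hab, hay, hbw, kay,
        kaw⟩ := hYx x hx
      obtain ⟨y', w', s', b', yK', yb', wK', wb', hyw', hxy', hxw', ha', hb', a0', b0', hab',
        hay', hbw', kay', kaw'⟩ := hYx x' hx'
      have x1 : 1 ≤ e x := (hXL x (mXA.1 (mem_inter.1 hx).1).1).2.1
      have x1' : 1 ≤ e x' := (hXL x' (mXA.1 (mem_inter.1 hx').1).1).2.1
      have n1 : y' ≠ y := by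
        rintro rfl
        rcases hay x' hxy' with h | h
        · exact hne h.symm
        · rw [h] at x1'
          omega
      have n2 : y' ≠ w := by
        rintro rfl
        rcases hbw x' hxy' with h | h
        · exact hne h.symm
        · rw [h] at x1'
          omega
      obtain ⟨s, s1, s2⟩ := hK.two y yK (hC y yb kay) y' yK' (hC y' yb' kay') (Ne.symm n1)
      obtain ⟨t, t1, t2⟩ := hK.two w wK (hC w wb kaw) y' yK' (hC y' yb' kay') (Ne.symm n2)
      have hs' : s = s0 ∧ s = s' := by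
        rcases hay s s1 with h | h <;> rcases hay' s s2 with h' | h'
        · exact absurd (h.symm.trans h') hne
        · rw [h] at h'
          rw [h'] at x1
          omega
        · rw [h] at h'
          rw [← h'] at x1'
          omega
        · exact ⟨h, h'⟩
      have ht' : t = b ∧ t = s' := by
        rcases hbw t t1 with h | h <;> rcases hay' t t2 with h' | h'
        · exact absurd (h.symm.trans h') hne
        · rw [h] at h'
          rw [h'] at x1
          omega
        · rw [h] at h'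
          rw [← h'] at x1'
          omega
        · exact ⟨h, h'⟩
      apply hab
      rw [← hs'.1, ← ht'.1, hs'.2, ht'.2]
    have hKB0 : (KB i K e).filter (fun x => κ x = a) = ∅ := by
      rw [Finset.eq_empty_iff_forall_notMem]
      intro k hk
      obtain ⟨x, hx⟩ := Finset.nonempty_iff_ne_empty.2 hY
      obtain ⟨y, w, s0, b, yK, yb, wK, wb, hyw, hxy, hxw, ha, hb, a0, b0, hab, hay, hbw, kay,
        kaw⟩ := hYx x hx
      obtain ⟨k1, k2, k3, -⟩ := hKB k hk
      have x1 : 1 ≤ e x := (hXL x (mXA.1 (mem_inter.1 hx).1).1).2.1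
      have hxk : x ∉ ns i k := by
        intro h
        have h1 := P1 x (mXA.1 (mem_inter.1 hx).1).1 k (mem_filter.1 hk).1 h
        have h2 := P2 x (mYA.1 (mem_inter.1 hx).2).1 k (mem_filter.1 hk).1 h
        have h3 := (bU_data H hir hq hg h1.1).1
        have h4 := (bL_data H hir hq hg h2.1).1
        omega
      have n1 : y ≠ k := by
        rintro rfl
        exact hxk hxy
      obtain ⟨s, s1, s2⟩ := hK.two y yK (hC y yb kay) k k1 k2 n1
      have hs' : s = s0 := by
        rcases hay s s1 with h | h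
        · rw [h] at s2
          exact absurd s2 hxk
        · exact h
      rw [hs'] at s2
      exact bad_disj H hir hq hg hd yb k3 n1 ha s2 a0
    have h1 := hsum _ hUn
    rw [hKB0, card_empty]
    omega

end Pool.Agent.GaussPoset.Win.K2

end

/-! From `Pool.Agent.W_448pb_h63.PbB` -/

section

/-!
Per class identities at the window j (MP_448cb3_co, case B): the number of touched labels and the
inequality of slope two thirds.
-/

namespace Pool.Agent.GaussPoset.Win.K2

set_option linter.unusedSectionVars false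

open Finset I2

universe u

variable {P : Type u} [Fintype P] [PartialOrder P] [DecidableEq P] {r i : ℕ} {e : P → ℕ}

variable {ι : Type*} [DecidableEq ι] {κ : P → ι} {K : Finset P} {psi : P → P}

variable {ι' : Type*} [DecidableEq ι'] {κ' : P → ι'}

/-- an excited cross element touches the label `a` -/
def Tou (i : ℕ) (κ : P → ι) (e : P → ℕ) (a : ι) : Prop :=
  ∃ z, z ∉ cuni (i + 1) κ ∧ 1 ≤ e z ∧ ∃ y, z ≤ y ∧ lev y ≤ i + 1 ∧ κ y = a

open Classical in
/-- the excited far or single elements -/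
noncomputable def DxD (i : ℕ) (e : P → ℕ) : Finset P := univ.filter (fun x => 1 ≤ e x ∧ Dp i x)

lemma mem_DxD {x : P} : x ∈ DxD i e ↔ 1 ≤ e x ∧ Dp i x := by
  classical
  unfold DxD
  simp

/-- an excited element of level `i + 2` under a touched label -/
lemma touch_q (H : Gr P r) (hκ : Split (i + 1) κ) (hL : AdmL i e) {a : ι} (h : Tou i κ e a) :
    ∃ q p, lev q = i + 2 ∧ 1 ≤ e q ∧ p ∈ uc q ∧ lev p = i + 1 ∧ κ p = a := by
  obtain ⟨z, hz, h0, y, hzy, hly, hy⟩ := h
  have hl := (two_up H hκ hz).1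
  obtain ⟨q, q1, q2, q3⟩ := exists_mid H hzy (k := i + 2) (by omega) (by omega)
  have h2 : q < y := by
    refine lt_of_le_of_ne q2 ?_
    rintro rfl
    omega
  obtain ⟨p, hp, hpy⟩ := exists_covBy_le_of_lt h2
  have h3 := lev_uc H (mem_uc.2 hp)
  refine ⟨q, p, q3, exc_le H hL h0 q1 (by omega), mem_uc.2 hp, by omega, ?_⟩
  rw [hκ.le p hpy (by omega), hy]

/-- the relation of the injection -/
def Rtd (i : ℕ) (κ : P → ι) (e : P → ℕ) (a : ι) (x : P) : Prop :=
  (lev x = i + 1 ∧ (uc x).card = 1 ∧ κ x = a ∧ 1 ≤ e x) ∨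
    (lev x = i + 2 ∧ 1 ≤ e x ∧ (∃ p ∈ uc x, lev p = i + 1 ∧ κ p = a) ∧
      ∀ v, lev v = i + 1 → (uc v).card = 1 → κ v = a → e v = 0)

lemma Rtd_ex (H : Gr P r) (hκ : Split (i + 1) κ) (hL : AdmL i e) {a : ι} (h : Tou i κ e a) :
    ∃ x ∈ DxD i e, Rtd i κ e a x := by
  obtain ⟨q, p, h1, h2, h3, h4, h5⟩ := touch_q H hκ hL h
  by_cases hv : ∃ v, lev v = i + 1 ∧ (uc v).card = 1 ∧ κ v = a ∧ 1 ≤ e v
  · obtain ⟨v, v1, v2, v3, v4⟩ := hv
    exact ⟨v, mem_DxD.2 ⟨v4, Or.inr ⟨v1, v2⟩⟩, Or.inl ⟨v1, v2, v3, v4⟩⟩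
  · push Not at hv
    refine ⟨q, mem_DxD.2 ⟨h2, Or.inl (by omega)⟩, Or.inr ⟨h1, h2, ⟨p, h3, h4, h5⟩, ?_⟩⟩
    intro v v1 v2 v3
    have := hv v v1 v2 v3
    omega

/-- the upper covers of an element with two given different covers -/
lemma uc_pair (H : Gr P r) {z p p' : P} (hp : p ∈ uc z) (hp' : p' ∈ uc z) (hne : p ≠ p') :
    uc z = {p, p'} := by
  classical
  symm
  apply Finset.eq_of_subset_of_card_le
  · intro x hx
    rw [mem_insert, mem_singleton] at hx
    rcases hx with rfl | rfl
    · exact hp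
    · exact hp'
  · rw [Finset.card_pair hne]
    exact uc_card_le H z

lemma Rtd_inj (H : Gr P r) (hκ : Split (i + 1) κ) (hq : NoQ P (i + 2)) (hL : AdmL i e)
    {a a' : ι} {x : P} (h : Rtd i κ e a x) (h' : Rtd i κ e a' x) : a = a' := by
  rcases h with ⟨h1, h2, h3, h4⟩ | ⟨h1, h2, ⟨p, h3, h4, h5⟩, h6⟩ <;>
    rcases h' with ⟨h1', h2', h3', h4'⟩ | ⟨h1', h2', ⟨p', h3', h4', h5'⟩, h6'⟩
  · rw [← h3, ← h3']
  · omega
  · omega
  · by_contra hne
    have hk : κ p ≠ κ p' := by rw [h5, h5']; exact hne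
    have huc := uc_pair H h3 h3' (fun h => hk (by rw [h]))
    have e1 := exc_le H hL h2 (mem_uc.1 h3).le (by omega)
    have e1' := exc_le H hL h2 (mem_uc.1 h3').le (by omega)
    rcases one_single H hκ hq h1 huc hk with h | h | h
    · have := h6' p' h4' h.2 h5'
      omega
    · have := h6 p h4 h.1 h5
      omega
    · have := h6 p h4 h.1 h5
      omega

/-- THE INJECTION of the touched labels into the far and single elements -/
theorem card_touch (H : Gr P r) (hκ : Split (i + 1) κ) (hq : NoQ P (i + 2)) (hL : AdmL i e)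
    {T : Finset ι} (hT : ∀ a ∈ T, Tou i κ e a) : T.card ≤ (DxD i e).card := by
  classical
  refine Finset.card_le_card_of_forall_subsingleton (fun a x => Rtd i κ e a x)
    (fun a ha => Rtd_ex H hκ hL (hT a ha)) ?_
  intro x _ a ha a' ha'
  exact Rtd_inj H hκ hq hL ha.2 ha'.2

/-- THE INEQUALITY OF SLOPE TWO THIRDS for a configuration whose labels are touched -/
theorem slope_T (H : Gr P r) (hir : i ≤ r) (hq : NoQ P (i + 2))
    (hg : ∀ m, m + 1 = i → Good P m) (hκ : Split (i + 1) κ) (hM : Mat P i K psi)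
    {T : Finset ι} (hK : ∀ a ∈ T, Star i (cext (i + 1) κ a) K)
    (hs : ∀ x, lev x ≤ i + 1 → 1 ≤ e x → κ x ∈ T)
    (hL : AdmL i e) (hU : AdmU i e) (hd : Disjoint (AL i e) (AU i e)) {δ : ℕ}
    (hδ : T.card + δ ≤ (DxD i e).card) :
    3 * ((AL i e).card + (AU i e).card) + δ ≤
      2 * (∑ x, e x) + 3 * (pL i e + pU i e) + 3 * (SK i K psi e).card := by
  classical
  obtain ⟨XL, XU, hXL, hXU, h1⟩ := main_K hM H hir hq hg hL hU hd (δ := 0) (Or.inl rfl)
  have h2 : ∀ a ∈ T, ((KB i K e).filter (fun x => κ x = a)).card +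
      (XL.filter (fun x => κ x = a)).card + (XU.filter (fun x => κ x = a)).card ≤
      ∑ x ∈ (lv P i).filter (fun x => κ x = a), e x + 1 := fun a ha =>
    star_loc H hir hq hg hκ hM (hK a ha) hd hXL hXU
  have h3 : ∀ S : Finset P, (∀ x ∈ S, κ x ∈ T) →
      ∑ a ∈ T, (S.filter (fun x => κ x = a)).card = S.card := by
    intro S hS
    exact (Finset.card_eq_sum_card_fiberwise hS).symm
  have hKB : ∀ x ∈ KB i K e, κ x ∈ T := by
    intro k hk
    rw [mem_KB] at hk
    have h4 : k ∈ bN i e := by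
      unfold bN
      rcases hk.2 with h | h
      · exact mem_union_left _ h.1
      · exact mem_union_right _ h.1
    exact hs k (lev_bN H hir hq hg h4) (by have := (bN_data H hir hq hg h4).2.1; omega)
  have hXLT : ∀ x ∈ XL, κ x ∈ T := by
    intro x hx
    obtain ⟨l1, l2, -, -⟩ := hXL x hx
    exact hs x (by omega) l2
  have hXUT : ∀ x ∈ XU, κ x ∈ T := by
    intro x hx
    obtain ⟨l1, l2, -, -⟩ := hXU x hx
    exact hs x (by omega) l2
  have h4 := Finset.sum_le_sum h2
  rw [Finset.sum_add_distrib, Finset.sum_add_distrib, Finset.sum_add_distrib, h3 _ hKB,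
    h3 _ hXLT, h3 _ hXUT, Finset.sum_const, smul_eq_mul, mul_one] at h4
  have h5 : ∑ a ∈ T, ∑ x ∈ (lv P i).filter (fun x => κ x = a), e x ≤ ∑ x ∈ lv P i, e x := by
    rw [← Finset.sum_biUnion]
    · refine Finset.sum_le_sum_of_subset ?_
      intro x hx
      rw [mem_biUnion] at hx
      obtain ⟨a, -, hx⟩ := hx
      exact (mem_filter.1 hx).1
    · intro a _ b _ hab
      rw [Function.onFun, disjoint_left]
      intro x hx hx'
      exact hab ((mem_filter.1 hx).2.symm.trans (mem_filter.1 hx').2)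
  have h6 : ∑ x, e x = ∑ x ∈ lS P i, e x + ∑ x ∈ uS P i, e x + ∑ x ∈ lv P i, e x := by
    have h6 : (univ : Finset P) = (lS P i ∪ uS P i) ∪ lv P i := by
      ext x
      simp only [mem_univ, mem_union, mem_lS, mem_uS, mem_lv, true_iff]
      omega
    rw [h6, Finset.sum_union, Finset.sum_union]
    · rw [disjoint_left]
      intro x hx hx'
      rw [mem_lS] at hx
      rw [mem_uS] at hx'
      omega
    · rw [disjoint_left]
      intro x hx hx'
      rw [mem_union, mem_lS, mem_uS] at hx
      rw [mem_lv] at hx'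
      omega
  have h7 := ord_le H hir hq hg hL hU (D := DxD i e) (fun x hx => mem_DxD.1 hx)
  omega

end Pool.Agent.GaussPoset.Win.K2

end

/-! From `Pool.Agent.W_448L1_h63.LaE` -/

section

/-!
Components without a heavy join at the window j (MP_448cb3_co, case B): the configurations with
equality in the inequality of slope two thirds.
-/

namespace Pool.Agent.GaussPoset.Win.K2

set_option linter.unusedSectionVars false

open Finset I2

universe u

variable {P : Type u} [Fintype P] [PartialOrder P] [DecidableEq P] {r i : ℕ} {e : P → ℕ}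

variable {ι : Type*} [DecidableEq ι] {κ : P → ι} {K : Finset P} {psi tau : P → P}

variable {T : Finset ι}

/-- the structure of the extremal configurations -/
structure EqC (i : ℕ) (κ : P → ι) (K : Finset P) (psi : P → P) (T : Finset ι) (e : P → ℕ) :
    Prop where
  sk : SK i K psi e = ∅
  bad : ∀ x, x ∉ DxD i e → 1 ≤ e x → x ∈ bN i e
  site : ∀ x, lev x = i → e x = 0
  kb : ∀ a ∈ T, ((KB i K e).filter (fun x => κ x = a)).card = 1
  rel : ∀ x ∈ DxD i e, ∃ a ∈ T, Rtd i κ e a x
  uniq : ∀ a ∈ T, ∀ x x', Rtd i κ e a x → Rtd i κ e a x' → x = x'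

lemma Rtd.mem {a : ι} {x : P} (h : Rtd i κ e a x) : x ∈ DxD i e := by
  rw [mem_DxD]
  rcases h with ⟨h1, h2, -, h4⟩ | ⟨h1, h2, -, -⟩
  · exact ⟨h4, Or.inr ⟨h1, h2⟩⟩
  · exact ⟨h2, Or.inl (by omega)⟩

section main

variable (H : Gr P r) (hir : i ≤ r) (hq : NoQ P (i + 2)) (hg : ∀ m, m + 1 = i → Good P m)
  (hκ : Split (i + 1) κ) (hM : Mat P i K psi)
include H hir hq hg

lemma bN_lev {x : P} (h : x ∈ bN i e) : lev x = i + 1 ∨ lev x + 1 = i := by
  unfold bN at h
  rcases mem_union.1 h with h | h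
  · exact Or.inl (bL_data H hir hq hg h).1
  · exact Or.inr (bU_data H hir hq hg h).1

include hκ hM

/-- THE EXTREMAL CONFIGURATIONS -/
theorem eqC_of (hK : ∀ a ∈ T, Star i (cext (i + 1) κ a) K)
    (hs : ∀ x, lev x ≤ i + 1 → 1 ≤ e x → κ x ∈ T) (hT : ∀ a ∈ T, Tou i κ e a)
    (hL : AdmL i e) (hU : AdmU i e) (hd : Disjoint (AL i e) (AU i e))
    (hn : ¬ 3 * ((AL i e).card + (AU i e).card) + 1 ≤
      2 * (∑ x, e x) + 3 * (pL i e + pU i e) + 3 * (SK i K psi e).card) :
    EqC i κ K psi T e := by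
  classical
  obtain ⟨XL, XU, hXL, hXU, h1⟩ := main_K hM H hir hq hg hL hU hd (δ := 0) (Or.inl rfl)
  have h2 : ∀ a ∈ T, ((KB i K e).filter (fun x => κ x = a)).card +
      (XL.filter (fun x => κ x = a)).card + (XU.filter (fun x => κ x = a)).card ≤
      ∑ x ∈ (lv P i).filter (fun x => κ x = a), e x + 1 := fun a ha =>
    star_loc H hir hq hg hκ hM (hK a ha) hd hXL hXU
  have h3 : ∀ S : Finset P, (∀ x ∈ S, κ x ∈ T) →
      ∑ a ∈ T, (S.filter (fun x => κ x = a)).card = S.card := by
    intro S hS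
    exact (Finset.card_eq_sum_card_fiberwise hS).symm
  have hKB : ∀ x ∈ KB i K e, κ x ∈ T := by
    intro k hk
    rw [mem_KB] at hk
    have h4 : k ∈ bN i e := by
      unfold bN
      rcases hk.2 with h | h
      · exact mem_union_left _ h.1
      · exact mem_union_right _ h.1
    exact hs k (lev_bN H hir hq hg h4) (by have := (bN_data H hir hq hg h4).2.1; omega)
  have hXLT : ∀ x ∈ XL, κ x ∈ T := by
    intro x hx
    obtain ⟨l1, l2, -, -⟩ := hXL x hx
    exact hs x (by omega) l2
  have hXUT : ∀ x ∈ XU, κ x ∈ T := by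
    intro x hx
    obtain ⟨l1, l2, -, -⟩ := hXU x hx
    exact hs x (by omega) l2
  have h4 := Finset.sum_le_sum h2
  rw [Finset.sum_add_distrib, Finset.sum_add_distrib, Finset.sum_add_distrib, h3 _ hKB,
    h3 _ hXLT, h3 _ hXUT, Finset.sum_const, smul_eq_mul, mul_one] at h4
  have h5 : ∑ a ∈ T, ∑ x ∈ (lv P i).filter (fun x => κ x = a), e x ≤ ∑ x ∈ lv P i, e x := by
    rw [← Finset.sum_biUnion]
    · refine Finset.sum_le_sum_of_subset ?_
      intro x hx
      rw [mem_biUnion] at hx
      obtain ⟨a, -, hx⟩ := hx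
      exact (mem_filter.1 hx).1
    · intro a _ b _ hab
      rw [Function.onFun, disjoint_left]
      intro x hx hx'
      exact hab ((mem_filter.1 hx).2.symm.trans (mem_filter.1 hx').2)
  have h6 : ∑ x, e x = ∑ x ∈ lS P i, e x + ∑ x ∈ uS P i, e x + ∑ x ∈ lv P i, e x := by
    have h6 : (univ : Finset P) = (lS P i ∪ uS P i) ∪ lv P i := by
      ext x
      simp only [mem_univ, mem_union, mem_lS, mem_uS, mem_lv, true_iff]
      omega
    rw [h6, Finset.sum_union, Finset.sum_union]
    · rw [disjoint_left]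
      intro x hx hx'
      rw [mem_lS] at hx
      rw [mem_uS] at hx'
      omega
    · rw [disjoint_left]
      intro x hx hx'
      rw [mem_union, mem_lS, mem_uS] at hx
      rw [mem_lv] at hx'
      omega
  have h7 := ord_le H hir hq hg hL hU (D := DxD i e) (fun x hx => mem_DxD.1 hx)
  have h8 := card_touch H hκ hq hL hT
  have hsk : (SK i K psi e).card = 0 := by omega
  have hTD : T.card = (DxD i e).card := by omega
  obtain ⟨q1, -, -⟩ := ord_eq H hir hq hg hL hU (D := DxD i e) (fun x hx => mem_DxD.1 hx)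
    (by omega)
  have hsite : ∀ x, lev x = i → e x = 0 := by
    intro x hx
    by_contra hne
    have hD : x ∉ DxD i e := by
      rw [mem_DxD]
      rintro ⟨-, h⟩
      unfold Dp at h
      omega
    have := bN_lev H hir hq hg (q1 x hD (by omega))
    omega
  have hlv : ∑ x ∈ lv P i, e x = 0 := by
    refine Finset.sum_eq_zero fun x hx => ?_
    exact hsite x (mem_lv.1 hx)
  have hXL0 : XL = ∅ := by
    rw [Finset.eq_empty_iff_forall_notMem]
    intro x hx
    obtain ⟨l1, l2, -, -⟩ := hXL x hx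
    have := hsite x l1
    omega
  have hXU0 : XU = ∅ := by
    rw [Finset.eq_empty_iff_forall_notMem]
    intro x hx
    obtain ⟨l1, l2, -, -⟩ := hXU x hx
    have := hsite x l1
    omega
  have hkb1 : ∀ a ∈ T, ((KB i K e).filter (fun x => κ x = a)).card ≤ 1 := by
    intro a ha
    have h9 := h2 a ha
    have h10 : ∑ x ∈ (lv P i).filter (fun x => κ x = a), e x = 0 := by
      refine Finset.sum_eq_zero fun x hx => ?_
      exact hsite x (mem_lv.1 (mem_filter.1 hx).1)
    omega
  have hkb : ∀ a ∈ T, ((KB i K e).filter (fun x => κ x = a)).card = 1 := by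
    refine (Finset.sum_eq_sum_iff_of_le hkb1).1 ?_
    rw [h3 _ hKB, Finset.sum_const, smul_eq_mul, mul_one]
    rw [hXL0, hXU0, card_empty] at h4 h1
    omega
  -- the bijection
  have hrel : ∀ x ∈ DxD i e, ∃ a ∈ T, Rtd i κ e a x := by
    intro x hx
    by_contra hc
    push Not at hc
    have h9 : T.card ≤ ((DxD i e).erase x).card := by
      refine Finset.card_le_card_of_forall_subsingleton (fun a x => Rtd i κ e a x) ?_ ?_
      · intro a ha
        obtain ⟨y, hy, hr⟩ := Rtd_ex H hκ hL (hT a ha)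
        refine ⟨y, mem_erase.2 ⟨?_, hy⟩, hr⟩
        rintro rfl
        exact hc a ha hr
      · intro x _ a ha a' ha'
        exact Rtd_inj H hκ hq hL ha.2 ha'.2
    have h10 := card_erase_add_one hx
    omega
  have huniq : ∀ a ∈ T, ∀ x x', Rtd i κ e a x → Rtd i κ e a x' → x = x' := by
    intro a ha x x' hx hx'
    by_contra hne
    have h9 : (T.erase a).card ≤ (((DxD i e).erase x).erase x').card := by
      refine Finset.card_le_card_of_forall_subsingleton (fun a x => Rtd i κ e a x) ?_ ?_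
      · intro b hb
        obtain ⟨hba, hb⟩ := mem_erase.1 hb
        obtain ⟨y, hy, hr⟩ := Rtd_ex H hκ hL (hT b hb)
        refine ⟨y, mem_erase.2 ⟨?_, mem_erase.2 ⟨?_, hy⟩⟩, hr⟩
        · rintro rfl
          exact hba (Rtd_inj H hκ hq hL hr hx')
        · rintro rfl
          exact hba (Rtd_inj H hκ hq hL hr hx)
      · intro x _ a ha a' ha'
        exact Rtd_inj H hκ hq hL ha.2 ha'.2
    have h10 := card_erase_add_one ha
    have h11 := card_erase_add_one hx.mem
    have h12 := card_erase_add_one (mem_erase.2 ⟨fun h => hne h.symm, hx'.mem⟩)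
    omega
  exact ⟨card_eq_zero.1 hsk, q1, hsite, hkb, hrel, huniq⟩

end main

end Pool.Agent.GaussPoset.Win.K2

end
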