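import Mathlib
import Pool.Agent.W_448zz_h61.Ns
import Pool.Agent.W_448zz_h61.M099
import Pool.Agent.W_448zz_h61.M108
import Pool.Agent.W_448zz_h61.M118
import Pool.Agent.W_448zz_h61.M146

/-! From `Pool.Agent.W_448so_h39.FA` -/

section

/-!
# S9 (MP_448cb3_co): the quadratic form of the charges, arithmetic
-/

namespace Pool.Agent.GaussPoset.So

open Finset

variable {ι : Type*} [DecidableEq ι]

/-- the sum over the ordered pairs in a symmetric relation -/
def qf (I : Finset ι) (M : ι → ι → Prop) [DecidableRel M] (φ : ι → ℤ) : ℤ :=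
  ∑ k ∈ I, ∑ l ∈ I, if M k l then φ k * φ l else 0

/-- nonnegative charges: the form is at least the square of the sum over the near set plus the squares -/
theorem qf_ge (I : Finset ι) (M : ι → ι → Prop) [DecidableRel M] {φ : ι → ℤ} {N : Finset ι}
    (hN : N ⊆ I) (hM : ∀ k ∈ N, ∀ l ∈ N, M k l) (hr : ∀ k ∈ I, M k k) (h0 : ∀ k ∈ I, 0 ≤ φ k) :
    (∑ k ∈ N, φ k) ^ 2 + ∑ k ∈ I \ N, φ k ^ 2 ≤ qf I M φ := by
  have key : ∀ k ∈ I, (if k ∈ N then φ k * ∑ l ∈ N, φ l else φ k ^ 2) ≤
      ∑ l ∈ I, if M k l then φ k * φ l else 0 := by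
    intro k hk
    have hnn : ∀ l ∈ I, 0 ≤ (if M k l then φ k * φ l else 0) := by
      intro l hl
      split_ifs
      · exact mul_nonneg (h0 k hk) (h0 l hl)
      · exact le_rfl
    split_ifs with h1
    · rw [mul_sum]
      refine le_trans (le_of_eq ?_) (sum_le_sum_of_subset_of_nonneg hN fun l hl _ => hnn l hl)
      exact sum_congr rfl fun l hl => by rw [if_pos (hM k h1 l hl)]
    · refine le_trans (le_of_eq ?_) (single_le_sum hnn hk)
      rw [if_pos (hr k hk)]
      ring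
  have h1 : ∑ k ∈ I, (if k ∈ N then φ k * ∑ l ∈ N, φ l else φ k ^ 2) =
      (∑ k ∈ N, φ k) ^ 2 + ∑ k ∈ I \ N, φ k ^ 2 := by
    rw [← sum_sdiff hN, add_comm]
    congr 1
    · rw [pow_two, sum_mul]
      exact sum_congr rfl fun k hk => by rw [if_pos hk]
    · exact sum_congr rfl fun k hk => by rw [if_neg (mem_sdiff.1 hk).2]
  rw [← h1]
  exact sum_le_sum key

/-- with a further charge `c` which meets exactly the near set -/
theorem qf_add_ge (I : Finset ι) (M : ι → ι → Prop) [DecidableRel M] {φ : ι → ℤ} {N : Finset ι}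
    (hN : N ⊆ I) (hM : ∀ k ∈ N, ∀ l ∈ N, M k l) (hr : ∀ k ∈ I, M k k) (h0 : ∀ k ∈ I, 0 ≤ φ k)
    (c : ℤ) :
    (c + ∑ k ∈ N, φ k) ^ 2 + ∑ k ∈ I \ N, φ k ^ 2 ≤
      qf I M φ + 2 * c * ∑ k ∈ N, φ k + c ^ 2 := by
  have h1 := qf_ge I M hN hM hr h0
  nlinarith

/-- the form with the further charge is nonnegative -/
theorem qf_add_nonneg (I : Finset ι) (M : ι → ι → Prop) [DecidableRel M] {φ : ι → ℤ} {N : Finset ι}
    (hN : N ⊆ I) (hM : ∀ k ∈ N, ∀ l ∈ N, M k l) (hr : ∀ k ∈ I, M k k) (h0 : ∀ k ∈ I, 0 ≤ φ k)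
    (c : ℤ) : 0 ≤ qf I M φ + 2 * c * ∑ k ∈ N, φ k + c ^ 2 := by
  refine le_trans ?_ (qf_add_ge I M hN hM hr h0 c)
  exact add_nonneg (sq_nonneg _) (sum_nonneg fun k _ => sq_nonneg _)

/-- sum over pairs of charged elements, grouped by their sites -/
theorem qf_fiber {α : Type*} [DecidableEq α] (S : Finset α) (I : Finset ι) (f : α → ι)
    (hf : ∀ z ∈ S, f z ∈ I) (ε : α → ℤ) (M : ι → ι → Prop) [DecidableRel M] :
    ∑ z ∈ S, ∑ z' ∈ S, (if M (f z) (f z') then ε z * ε z' else 0) =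
      qf I M (fun k => ∑ z ∈ S.filter (fun z => f z = k), ε z) := by
  unfold qf
  have e1 : ∀ g : α → ℤ, ∑ z ∈ S, g z = ∑ k ∈ I, ∑ z ∈ S.filter (fun z => f z = k), g z :=
    fun g => (sum_fiberwise_of_maps_to hf g).symm
  rw [e1]
  refine sum_congr rfl fun k _ => ?_
  have e2 : ∀ z ∈ S.filter (fun z => f z = k),
      ∑ z' ∈ S, (if M (f z) (f z') then ε z * ε z' else 0) =
        ε z * ∑ l ∈ I, ∑ z' ∈ S.filter (fun z => f z = l), (if M k l then ε z' else 0) := by
    intro z hz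
    rw [e1, mul_sum]
    refine sum_congr rfl fun l _ => ?_
    rw [mul_sum]
    refine sum_congr rfl fun z' hz' => ?_
    rw [(mem_filter.1 hz).2, (mem_filter.1 hz').2]
    split_ifs <;> ring
  rw [sum_congr rfl e2, ← sum_mul, mul_sum]
  refine sum_congr rfl fun l _ => ?_
  by_cases hkl : M k l
  · simp only [if_pos hkl]
  · simp only [if_neg hkl, sum_const_zero, mul_zero]

/-- one further index -/
theorem qf_insert {I : Finset ι} (M : ι → ι → Prop) [DecidableRel M] (hs : ∀ k l, M k l → M l k)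
    {e : ι} (he : e ∉ I) (hr : M e e) (φ : ι → ℤ) :
    qf (insert e I) M φ = qf I M φ + 2 * φ e * ∑ k ∈ I.filter (fun k => M e k), φ k + φ e ^ 2 := by
  unfold qf
  rw [sum_insert he, sum_insert he, if_pos hr]
  have e1 : ∀ k ∈ I, ∑ l ∈ insert e I, (if M k l then φ k * φ l else 0) =
      (if M e k then φ k * φ e else 0) + ∑ l ∈ I, if M k l then φ k * φ l else 0 := by
    intro k _
    rw [sum_insert he]
    congr 1
    exact if_congr ⟨hs k e, hs e k⟩ rfl rfl
  rw [sum_congr rfl e1, sum_add_distrib, sum_filter, mul_sum]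
  have e2 : ∑ k ∈ I, (if M e k then φ e * φ k else 0) =
      ∑ k ∈ I, (if M e k then φ k * φ e else 0) :=
    sum_congr rfl fun k _ => by rw [mul_comm]
  have e3 : ∑ k ∈ I, 2 * φ e * (if M e k then φ k else 0) =
      2 * ∑ k ∈ I, (if M e k then φ k * φ e else 0) := by
    rw [mul_sum]
    refine sum_congr rfl fun k _ => ?_
    split_ifs <;> ring
  rw [e2, e3]
  ring

end Pool.Agent.GaussPoset.So

end

/-! From `Pool.Agent.W_448so_h39.FG` -/

section

/-!
# S9 (MP_448cb3_co): the quadratic form of the charges is nonnegative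
-/

namespace Pool.Agent.GaussPoset.Win

set_option linter.unusedSectionVars false

open Finset

universe u

variable {P : Type u} [Fintype P] [PartialOrder P] [DecidableEq P] {r i j : ℕ} {t : P}
  {lo hi : ℕ → ℕ} {x : ℕ → ℕ → P} {S : Finset P}

lemma card_sts_PD (H : Gr P r) {z : P} (hz : z ∈ PD P i) : (sts i z).card = 2 := by
  obtain ⟨h1, h2, w, hw, hw2⟩ := mem_PD.1 hz
  obtain ⟨v, hv⟩ := card_eq_one.1 h2
  have hwv : w = v := by
    rw [← mem_uc, hv, mem_singleton] at hw
    exact hw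
  subst hwv
  rw [ClE_sts H h1 hv]
  exact hw2

lemma card_stD_PU (H : Gr P r) {z : P} (hz : z ∈ PU P i) : (stD i z).card = 2 := by
  obtain ⟨h1, h2, w, hw, hw2⟩ := mem_PU.1 hz
  obtain ⟨v, hv⟩ := card_eq_one.1 h2
  have hwv : w = v := by
    rw [← mem_dc, hv, mem_singleton] at hw
    exact hw
  subst hwv
  rw [ClE_stD H h1 hv]
  exact hw2

/-- the triples of consecutive sites -/
def Trs (x : ℕ → ℕ → P) (lo hi : ℕ → ℕ) (i : ℕ) : Finset (Finset P) :=
  (Ioo (lo i) (hi i)).image (Tr x i)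

/-- the total charge at a set of sites -/
noncomputable def phc (i : ℕ) (S : Finset P) (k : Finset P) : ℤ :=
  ∑ z ∈ (Chs i S).filter (fun z => sit i z = k), chg i S z

/-- the assumptions on a component at the window `i` -/
structure Cmp (P : Type u) [Fintype P] [PartialOrder P] [DecidableEq P] (r i : ℕ) (t : P)
    (lo hi : ℕ → ℕ) (x : ℕ → ℕ → P) (S : Finset P) : Prop where
  g : GoodTo P r (i + 1)
  i1 : 1 ≤ i
  ht : lev t = 0
  C : Comp P t (i + 1) lo hi x
  /-- no join on level `i + 2` -/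
  no : ∀ z : P, lev z = i + 2 → ¬ Hul.Jn z
  hS : ∀ y, lev y ≤ i + 2 → (y ∈ S ↔ y ≤ t)
  up : ∀ {v y : P}, v ∈ S → v ⋖ y → y ∈ S
  /-- not closed -/
  dcl : ∀ a, lo i < a → a < hi i → dcv (x (i + 1) a) (x (i + 1) (a + 1)) ≤ 1
  /-- not a flip -/
  fl : ∀ p ∈ PD P i, p ≤ t → ∀ q ∈ PU P i, q ≤ t → sts i p = stD i q

variable (K : Cmp P r i t lo hi x S)

include K

lemma Cmp.FL_le {w : P} (hw : w ∈ FL i S) : ∃ z ∈ PD P i, z ≤ t ∧ sit i w = sts i z := by
  obtain ⟨h1, z, hz, hu⟩ := mem_FL.1 hw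
  have h2 : w ⋖ z := by
    rw [← mem_uc, hu]
    exact mem_singleton_self z
  exact ⟨z, hz, (K.hS z (lev_PD hz).1.le).1 (K.up h1 h2), sit_FL K.g.H hz hu⟩

lemma Cmp.FU_le {w : P} (hw : w ∈ FU' i S) : ∃ z ∈ PU P i, z ≤ t ∧ sit i w = stD i z := by
  obtain ⟨h1, z, hz, hu⟩ := mem_FU'.1 hw
  have h2 : z ⋖ w := by
    rw [← mem_dc, hu]
    exact mem_singleton_self z
  have h3 := lev_FU K.g.H hw
  exact ⟨z, hz, h2.le.trans ((K.hS w (by omega)).1 h1), sit_FU K.g.H hz hu⟩

/-- the total charge of a triple -/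
lemma Cmp.phc_Tr {a : ℕ} (ha : lo i < a) (ha' : a < hi i) :
    phc i S (Tr x i a) = 1 - dcv (x (i + 1) a) (x (i + 1) (a + 1)) := by
  have h3 := card_Tr K.C (by omega) ha ha'
  unfold phc
  rw [sum_chg K.g.H, card_ZU_Tr K.C K.g K.ht K.hS ha ha',
    card_ZL_Tr K.C K.g K.i1 K.ht K.hS K.no ha ha']
  have e1 : (FL i S).filter (fun z => sit i z = Tr x i a) = ∅ := by
    rw [filter_eq_empty_iff]
    intro w hw he
    obtain ⟨z, hz, -, hs⟩ := K.FL_le hw
    have := card_sts_PD K.g.H hz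
    rw [← hs, he] at this
    omega
  have e2 : (FU' i S).filter (fun z => sit i z = Tr x i a) = ∅ := by
    rw [filter_eq_empty_iff]
    intro w hw he
    obtain ⟨z, hz, -, hs⟩ := K.FU_le hw
    have := card_stD_PU K.g.H hz
    rw [← hs, he] at this
    omega
  rw [e1, e2, card_empty]
  push_cast
  ring

lemma Cmp.phc_nonneg : ∀ k ∈ Trs x lo hi i, 0 ≤ phc i S k := by
  intro k hk
  unfold Trs at hk
  obtain ⟨a, ha, rfl⟩ := mem_image.1 hk
  rw [mem_Ioo] at ha
  rw [K.phc_Tr ha.1 ha.2]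
  have := K.dcl a ha.1 ha.2
  omega

lemma Cmp.refl : ∀ k ∈ Trs x lo hi i, ¬ Disjoint k k := by
  intro k hk
  unfold Trs at hk
  obtain ⟨a, ha, rfl⟩ := mem_image.1 hk
  rw [disjoint_self]
  intro h1
  rw [mem_Ioo] at ha
  have := card_Tr K.C (by omega) ha.1 ha.2
  rw [h1] at this
  exact absurd this (by norm_num)

/-- the form as a quadratic form of the charges of the triples and the charge `c` of the chains -/
theorem Cmp.QQ_eq : ∃ N ⊆ Trs x lo hi i, (∀ k ∈ N, ∀ l ∈ N, ¬ Disjoint k l) ∧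
    QQ i S = So.qf (Trs x lo hi i) (fun k l => ¬ Disjoint k l) (phc i S) +
      2 * ((FL i S).card - (FU' i S).card) * ∑ k ∈ N, phc i S k +
      ((FL i S).card - (FU' i S).card) ^ 2 := by
  classical
  have hZ : ∀ z ∈ ZL i S ∪ ZU i S, sit i z ∈ Trs x lo hi i := by
    intro z hz
    unfold Trs
    rw [mem_image]
    rcases mem_union.1 hz with hz | hz
    · obtain ⟨a, a1, a2, a3, -⟩ := ZL_spec K.C K.g K.i1 K.ht K.hS K.no hz
      exact ⟨a, mem_Ioo.2 ⟨a1, a2⟩, a3.symm⟩
    · obtain ⟨a, a1, a2, a3, -⟩ := ZU_spec K.C K.g K.ht K.hS hz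
      exact ⟨a, mem_Ioo.2 ⟨a1, a2⟩, a3.symm⟩
  obtain ⟨hc1, hc2⟩ := indiv_21 K.g i le_rfl t K.ht
  by_cases hPU : PUt i t = ∅
  · -- no chains
    have hPD : PDt i t = ∅ := by
      rw [hPU, card_empty] at hc2
      exact card_eq_zero.1 hc2
    have hFL : FL i S = ∅ := by
      rw [eq_empty_iff_forall_notMem]
      intro w hw
      obtain ⟨z, hz, hzt, -⟩ := K.FL_le hw
      have : z ∈ PDt i t := mem_PDt.2 ⟨hz, hzt⟩
      rw [hPD] at this
      exact absurd this (notMem_empty z)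
    have hFU : FU' i S = ∅ := by
      rw [eq_empty_iff_forall_notMem]
      intro w hw
      obtain ⟨z, hz, hzt, -⟩ := K.FU_le hw
      have : z ∈ PUt i t := mem_PUt.2 ⟨hz, hzt⟩
      rw [hPU] at this
      exact absurd this (notMem_empty z)
    refine ⟨∅, empty_subset _, by simp, ?_⟩
    rw [hFL, hFU, card_empty]
    have hf : ∀ z ∈ Chs i S, sit i z ∈ Trs x lo hi i := by
      intro z hz
      unfold Chs at hz
      rw [hFL, hFU, union_empty, union_empty] at hz
      exact hZ z hz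
    have key := So.qf_fiber (Chs i S) (Trs x lo hi i) (sit i) hf (chg i S)
      (fun k l => ¬ Disjoint k l)
    simp only [ite_not] at key
    unfold QQ
    rw [key]
    simp only [sum_empty, mul_zero, add_zero, Nat.cast_zero, sub_zero, ne_eq, OfNat.ofNat_ne_zero,
      not_false_eq_true, zero_pow]
    rfl
  · -- the pair of sites of the chains
    obtain ⟨y, hy⟩ := nonempty_iff_ne_empty.2 hPU
    obtain ⟨hy1, hyt⟩ := mem_PUt.1 hy
    have hyl := lev_PU hy1
    obtain ⟨q, q1, q2, q3, hE⟩ : ∃ q, lo i ≤ q ∧ q + 1 ≤ hi i ∧ (q = lo i ∨ q + 1 = hi i) ∧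
        stD i y = {x i q, x i (q + 1)} := by
      obtain ⟨m, rfl⟩ : ∃ m, i = m + 2 := ⟨i - 2, by omega⟩
      obtain ⟨h1, h2⟩ := K.C.PU_cases K.g K.ht (by omega) hy1 hyt
      rcases h2 with ⟨-, -, -, h2⟩ | ⟨-, -, -, h2⟩
      · exact ⟨lo (m + 2), le_rfl, h1, Or.inl rfl, h2⟩
      · refine ⟨hi (m + 2) - 1, by omega, by omega, Or.inr (by omega), ?_⟩
        rw [h2, Nat.sub_add_cancel (by omega)]
    set E := stD i y with hEdef
    have hEc : E.card = 2 := card_stD_PU K.g.H hy1
    have hEFL : ∀ w ∈ FL i S, sit i w = E := by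
      intro w hw
      obtain ⟨z, hz, hzt, hs⟩ := K.FL_le hw
      rw [hs]
      exact K.fl z hz hzt y hy1 hyt
    have hEFU : ∀ w ∈ FU' i S, sit i w = E := by
      intro w hw
      obtain ⟨z, hz, hzt, hs⟩ := K.FU_le hw
      have hzy : z = y := card_le_one.1 hc1 z (mem_PUt.2 ⟨hz, hzt⟩) y hy
      rw [hs, hzy]
    have hEI : E ∉ Trs x lo hi i := by
      intro h1
      unfold Trs at h1
      obtain ⟨a, ha, he⟩ := mem_image.1 h1
      rw [mem_Ioo] at ha
      have := card_Tr K.C (by omega) ha.1 ha.2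
      rw [he] at this
      omega
    have hEE : ¬ Disjoint E E := by
      rw [disjoint_self]
      intro h1
      rw [h1] at hEc
      exact absurd hEc (by norm_num)
    have hphE : phc i S E = (FL i S).card - (FU' i S).card := by
      unfold phc
      rw [sum_chg K.g.H]
      have e1 : (ZU i S).filter (fun z => sit i z = E) = ∅ := by
        rw [filter_eq_empty_iff]
        intro z hz he
        have := hZ z (mem_union_right _ hz)
        rw [he] at this
        exact hEI this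
      have e2 : (ZL i S).filter (fun z => sit i z = E) = ∅ := by
        rw [filter_eq_empty_iff]
        intro z hz he
        have := hZ z (mem_union_left _ hz)
        rw [he] at this
        exact hEI this
      rw [e1, e2, card_empty, filter_true_of_mem hEFL, filter_true_of_mem hEFU]
      push_cast
      ring
    have hf : ∀ z ∈ Chs i S, sit i z ∈ insert E (Trs x lo hi i) := by
      intro z hz
      unfold Chs at hz
      rcases mem_union.1 hz with hz | hz
      · rcases mem_union.1 hz with hz | hz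
        · exact mem_insert_of_mem (hZ z hz)
        · rw [hEFL z hz]
          exact mem_insert_self _ _
      · rw [hEFU z hz]
        exact mem_insert_self _ _
    refine ⟨(Trs x lo hi i).filter (fun k => ¬ Disjoint E k), filter_subset _ _, ?_, ?_⟩
    · -- a common site
      obtain ⟨c, hc, hc'⟩ : ∃ c, lo i ≤ c ∧ c ≤ hi i ∧
          ∀ k ∈ (Trs x lo hi i).filter (fun k => ¬ Disjoint E k), x i c ∈ k := by
        rcases q3 with q3 | q3
        · refine ⟨q + 1, by omega, by omega, ?_⟩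
          intro k hk
          obtain ⟨hk1, hk2⟩ := mem_filter.1 hk
          unfold Trs at hk1
          obtain ⟨a, ha, rfl⟩ := mem_image.1 hk1
          rw [mem_Ioo] at ha
          rw [mem_Tr K.C (by omega) ha.1 ha.2 (by omega) (by omega)]
          rw [not_disjoint_iff] at hk2
          obtain ⟨v, v1, v2⟩ := hk2
          rw [hE, mem_insert, mem_singleton] at v1
          rcases v1 with rfl | rfl
          · rw [mem_Tr K.C (by omega) ha.1 ha.2 (by omega) (by omega)] at v2
            omega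
          · rw [mem_Tr K.C (by omega) ha.1 ha.2 (by omega) (by omega)] at v2
            omega
        · refine ⟨q, by omega, by omega, ?_⟩
          intro k hk
          obtain ⟨hk1, hk2⟩ := mem_filter.1 hk
          unfold Trs at hk1
          obtain ⟨a, ha, rfl⟩ := mem_image.1 hk1
          rw [mem_Ioo] at ha
          rw [mem_Tr K.C (by omega) ha.1 ha.2 (by omega) (by omega)]
          rw [not_disjoint_iff] at hk2
          obtain ⟨v, v1, v2⟩ := hk2
          rw [hE, mem_insert, mem_singleton] at v1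
          rcases v1 with rfl | rfl
          · rw [mem_Tr K.C (by omega) ha.1 ha.2 (by omega) (by omega)] at v2
            omega
          · rw [mem_Tr K.C (by omega) ha.1 ha.2 (by omega) (by omega)] at v2
            omega
      intro k hk l hl
      rw [not_disjoint_iff]
      exact ⟨x i c, hc'.2 k hk, hc'.2 l hl⟩
    · have key := So.qf_fiber (Chs i S) (insert E (Trs x lo hi i)) (sit i) hf (chg i S)
        (fun k l => ¬ Disjoint k l)
      have key2 := So.qf_insert (I := Trs x lo hi i) (fun k l => ¬ Disjoint k l)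
        (fun k l h1 => by rwa [disjoint_comm]) hEI hEE (phc i S)
      simp only [ite_not] at key
      unfold QQ
      rw [key, ← hphE]
      exact key2

/-- the form is nonnegative -/
theorem Cmp.QQ_nonneg : 0 ≤ QQ i S := by
  obtain ⟨N, h1, h2, h3⟩ := K.QQ_eq
  rw [h3]
  exact So.qf_add_nonneg _ _ h1 h2 K.refl K.phc_nonneg _

end Pool.Agent.GaussPoset.Win

end

/-! From `Pool.Agent.W_448so_h39.FH` -/

section

/-!
# S9 (MP_448cb3_co): the data of a component for the second order theorem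
-/

namespace Pool.Agent.GaussPoset.Win

set_option linter.unusedSectionVars false

open Finset
open Pool.Agent.GaussPoset.Win.I2 (lS uS mem_lS mem_uS)

universe u

variable {P : Type u} [Fintype P] [PartialOrder P] [DecidableEq P] {r i j : ℕ} {t : P}
  {lo hi : ℕ → ℕ} {x : ℕ → ℕ → P} {S : Finset P} {psi : P → P}

/-- common upper covers as an intersection -/
lemma card_uc_inter (v v' : P) : (uc v ∩ uc v').card = ucv v v' := by
  classical
  unfold ucv
  congr 1
  ext y
  simp only [mem_inter, mem_uc, mem_filter, mem_univ, true_and]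

lemma card_dc_inter (v v' : P) : (dc v ∩ dc v').card = dcv v v' := by
  classical
  unfold dcv
  congr 1
  ext y
  simp only [mem_inter, mem_dc, mem_filter, mem_univ, true_and]

/-- two elements of a good level have at most one common upper cover -/
lemma ucv_le_one (h : GoodTo P r j) {v v' : P} (hv : lev v ≤ j) (hne : v ≠ v')
    (hl : lev v = lev v') : ucv v v' ≤ 1 := by
  by_contra hcon
  push Not at hcon
  obtain ⟨w, hw, hw'⟩ := StA_of_ucv (v := v) (v' := v') (by omega)
  obtain ⟨t, ht, ht2⟩ := exists_above' (x := w) (j := 0) (Nat.zero_le _)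
  obtain ⟨lo, hi, x, C⟩ := comp_exists h ht2
  obtain ⟨a, a1, a2, a3⟩ := C.surj (lev v) hv v rfl (hw.le.trans ht)
  obtain ⟨b, b1, b2, b3⟩ := C.surj (lev v) hv v' hl.symm (hw'.le.trans ht)
  have hab : a ≠ b := fun he => hne (by rw [← a3, ← b3, he])
  have := C.ucv_eq h ht2 hv a1 a2 b1 b2 hab
  rw [a3, b3] at this
  rw [this] at hcon
  split_ifs at hcon <;> omega

/-- two common upper covers coincide -/
lemma ucv_uniq (h : GoodTo P r j) {v v' w w' : P} (hv : lev v ≤ j) (hne : v ≠ v')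
    (hl : lev v = lev v') (h1 : v ⋖ w) (h2 : v' ⋖ w) (h3 : v ⋖ w') (h4 : v' ⋖ w') : w = w' := by
  have h5 := ucv_le_one h hv hne hl
  rw [← card_uc_inter, card_le_one] at h5
  exact h5 w (mem_inter.2 ⟨mem_uc.2 h1, mem_uc.2 h2⟩) w' (mem_inter.2 ⟨mem_uc.2 h3, mem_uc.2 h4⟩)

/-- two common lower covers coincide -/
lemma dcv_uniq (h : GoodTo P r j) {v v' w w' : P} (hv : lev v < j) (hne : v ≠ v')
    (hl : lev v = lev v') (h1 : w ⋖ v) (h2 : w ⋖ v') (h3 : w' ⋖ v) (h4 : w' ⋖ v') : w = w' := by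
  have h5 := ucv_le_one h hv.le hne hl
  rw [h.good (lev v) hv v v' rfl hl.symm hne, ← card_dc_inter, card_le_one] at h5
  exact h5 w (mem_inter.2 ⟨mem_dc.2 h1, mem_dc.2 h2⟩) w' (mem_inter.2 ⟨mem_dc.2 h3, mem_dc.2 h4⟩)

/-- the near level condition below the window -/
theorem nll_of (h : GoodTo P r (i + 1)) (hi1 : 1 ≤ i) : SO.NLL P i := by
  intro w _ htw v hv v' hv' hne
  unfold SO.tL at htw
  rw [mem_uc] at hv hv'
  rcases (near_level' h hi1).1 w v v' (by omega) hv hv' hne with g | ⟨g1, g2, -⟩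
  · left
    rw [card_uc_inter]
    exact g
  · exact Or.inr ⟨g1, g2⟩

/-- the near level condition above the window -/
theorem nlu_of (h : GoodTo P r (i + 1)) : SO.NLU P i := by
  intro w _ htw v hv v' hv' hne
  unfold SO.tU at htw
  rw [mem_dc] at hv hv'
  have l1 := lev_cov h.H hv
  have l2 := lev_cov h.H hv'
  left
  have h1 := ucv_le_one h (v := v) (v' := v') (by omega) hne (by omega)
  have h2 := StA_ucv_pos hv hv'
  rw [card_dc_inter, ← h.good (lev v) (by omega) v v' rfl (by omega) hne]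
  omega

/-- the pair of sites of a pendant determines the double above the window -/
lemma psi_eq_of (h : GoodTo P r (i + 1)) (hM : Mat P i ∅ psi) {y u : P} (hly : lev y = i + 1)
    (hy2 : (uc y).card = 2) (hdu : dc u = uc y) : u = psi y := by
  have hdb : y ∈ dbL P i := by
    unfold dbL
    rw [mem_filter]
    exact ⟨mem_univ _, hly, hy2⟩
  obtain ⟨-, g2⟩ := hM.low y hdb (notMem_empty _)
  obtain ⟨v, v', hne, hv⟩ := card_eq_two.1 hy2
  have m1 : v ∈ uc y := by rw [hv]; exact mem_insert_self _ _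
  have m2 : v' ∈ uc y := by rw [hv]; exact mem_insert_of_mem (mem_singleton_self _)
  have l1 := lev_uc h.H m1
  have l2 := lev_uc h.H m2
  exact ucv_uniq h (v := v) (v' := v') (by omega) hne (by omega)
    (mem_dc.1 (by rw [hdu]; exact m1)) (mem_dc.1 (by rw [hdu]; exact m2))
    (mem_dc.1 (by rw [g2]; exact m1)) (mem_dc.1 (by rw [g2]; exact m2))

lemma psi_eq_of' (h : GoodTo P r (i + 1)) (hM : Mat P i ∅ psi) {y u : P} (hlu : lev u + 1 = i)
    (hu2 : (dc u).card = 2) (hdu : uc y = dc u) : y = psi u := by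
  have hdb : u ∈ dbU P i := by
    unfold dbU
    rw [mem_filter]
    exact ⟨mem_univ _, hlu, hu2⟩
  obtain ⟨-, g2⟩ := hM.upp u hdb (notMem_empty _)
  obtain ⟨v, v', hne, hv⟩ := card_eq_two.1 hu2
  have m1 : v ∈ dc u := by rw [hv]; exact mem_insert_self _ _
  have m2 : v' ∈ dc u := by rw [hv]; exact mem_insert_of_mem (mem_singleton_self _)
  have l1 := lev_dc h.H m1
  have l2 := lev_dc h.H m2
  exact dcv_uniq h (v := v) (v' := v') (by omega) hne (by omega)
    (mem_uc.1 (by rw [hdu]; exact m1)) (mem_uc.1 (by rw [hdu]; exact m2))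
    (mem_uc.1 (by rw [g2]; exact m1)) (mem_uc.1 (by rw [g2]; exact m2))

/-- a component at the window `i` -/
structure Cm5 (P : Type u) [Fintype P] [PartialOrder P] [DecidableEq P] (r i : ℕ) (t : P)
    (lo hi : ℕ → ℕ) (x : ℕ → ℕ → P) (S : Finset P) : Prop where
  g : GoodTo P r (i + 1)
  i1 : 1 ≤ i
  ht : lev t = 0
  C : Comp P t (i + 1) lo hi x
  part : Part (i + 1) S
  hS : ∀ y, lev y ≤ i + 2 → (y ∈ S ↔ y ≤ t)

/-- pendants: the edge of the row -/
lemma Cm5.pen_edge (K : Cm5 P r i t lo hi x S) {p y : P} (hp : p ∈ PD P i) (hpt : p ≤ t)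
    (hy : uc p = {y}) : ∃ a, lo i < a ∧ a ≤ hi i ∧ y = x (i + 1) a ∧ 1 ≤ (pen (x (i + 1) a)).card ∧
      uc y = {x i (a - 1), x i a} := by
  obtain ⟨hl, hc, w, hw, hw2⟩ := mem_PD.1 hp
  have hwy : w = y := by
    rw [← mem_uc, hy, mem_singleton] at hw
    exact hw
  subst hwy
  have hlw := lev_cov K.g.H hw
  have hwS : w ∈ S := K.part.up ((K.hS p (by omega)).2 hpt) hw
  have hwt := (K.hS w (by omega)).1 hwS
  obtain ⟨a, a1, a2, rfl⟩ := K.C.surj (i + 1) le_rfl w (by omega) hwt
  have h1 := (K.C.uc_two K.g K.ht (k := i) (by omega) a1 a2).1 hw2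
  refine ⟨a, h1.1, h1.2, rfl, ?_, K.C.uc_eq K.g K.ht (by omega) h1.1 h1.2⟩
  exact card_pos.2 ⟨p, mem_pen.2 ⟨hw, hc⟩⟩

/-- the sites of the elements of `PU` -/
lemma Cm5.PU_sites (K : Cm5 P r i t lo hi x S) {p u : P} (hp : p ∈ PU P i) (hpt : p ≤ t)
    (hu : dc p = {u}) : lev u + 1 = i ∧ (dc u).card = 2 ∧ lo i < hi i ∧
      ((LCO lo hi i ∧ dc u = {x i (lo i), x i (lo i + 1)}) ∨
        (RCO lo hi i ∧ dc u = {x i (hi i - 1), x i (hi i)})) := by
  obtain ⟨hl, hc, w, hw, hw2⟩ := mem_PU.1 hp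
  have hwu : w = u := by
    rw [← mem_dc, hu, mem_singleton] at hw
    exact hw
  subst hwu
  have hlw := lev_cov K.g.H hw
  have hs := ClE_stD K.g.H hl hu
  obtain ⟨m, rfl⟩ : ∃ m, i = m + 2 := ⟨i - 2, by omega⟩
  obtain ⟨h1, h2⟩ := K.C.PU_cases K.g K.ht (by omega) hp hpt
  refine ⟨by omega, hw2, by omega, ?_⟩
  unfold LCO RCO
  rw [show m + 2 - 1 = m + 1 by omega, Nat.add_sub_cancel]
  rcases h2 with ⟨g1, g2, -, g3⟩ | ⟨g1, g2, -, g3⟩
  · left
    exact ⟨⟨by omega, g1, g2, by omega⟩, hs ▸ g3⟩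
  · right
    exact ⟨⟨by omega, g1, g2, by omega⟩, hs ▸ g3⟩

/-- the data of a component, energy at most five -/
theorem Cm5.ps5 (K : Cm5 P r i t lo hi x S) (hM : Mat P i ∅ psi) : SO.PS5 r i psi S where
  H := K.g.H
  hi := K.i1
  hi2 := K.g.hr
  hC := K.part
  hM := hM
  nlL := nll_of K.g K.i1
  nlU := nlu_of K.g
  pd := by
    intro p hp p' hp' h1 h2
    obtain ⟨hc1, hc2⟩ := indiv_21 K.g i le_rfl t K.ht
    have hc3 : (PDt i t).card ≤ 1 := by omega
    exact card_le_one.1 hc3 p (mem_PDt.2 ⟨h1, (K.hS p (lev_PD h1).1.le).1 hp⟩) p'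
      (mem_PDt.2 ⟨h2, (K.hS p' (lev_PD h2).1.le).1 hp'⟩)
  pu := by
    intro p hp p' hp' h1 h2
    obtain ⟨hc1, hc2⟩ := indiv_21 K.g i le_rfl t K.ht
    have l1 := lev_PU h1
    have l2 := lev_PU h2
    exact card_le_one.1 hc1 p (mem_PUt.2 ⟨h1, (K.hS p (by omega)).1 hp⟩) p'
      (mem_PUt.2 ⟨h2, (K.hS p' (by omega)).1 hp'⟩)
  ncu := by
    intro w hw w' hw' v v' hl hne h1 h2 _ _
    have m1 : v ⋖ w := by rw [← mem_dc, h1]; exact mem_insert_self _ _
    have m2 : v' ⋖ w := by rw [← mem_dc, h1]; exact mem_insert_of_mem (mem_singleton_self _)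
    have m3 : v ⋖ w' := by rw [← mem_dc, h2]; exact mem_insert_self _ _
    have m4 : v' ⋖ w' := by rw [← mem_dc, h2]; exact mem_insert_of_mem (mem_singleton_self _)
    have l1 := lev_cov K.g.H m1
    have l2 := lev_cov K.g.H m2
    exact ucv_uniq K.g (by omega) hne (by omega) m1 m2 m3 m4
  fl := by
    intro p hp p' hp' y u h1 h2 h3 h4
    have hpt := (K.hS p (lev_PD h1).1.le).1 hp
    have l2 := lev_PU h2
    have hpt' := (K.hS p' (by omega)).1 hp'
    obtain ⟨a, a1, a2, a3, a4, a5⟩ := K.pen_edge h1 hpt h3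
    obtain ⟨b1, b2, b3, b4⟩ := K.PU_sites h2 hpt' h4
    have hly : lev y = i + 1 := by
      rw [a3]
      have f1 := K.C.lo_ge i (by omega)
      have f2 := K.C.hi_le i (by omega)
      exact K.C.lev_x (i + 1) le_rfl a (by omega) (by omega)
    have hy2 : (uc y).card = 2 := by
      rw [a5]
      exact card_pair (K.C.inj i (by omega) _ _ (by omega) (by omega) a2)
    have hS5 := (near_level' K.g K.i1).2 t lo hi x K.ht K.C
    rcases b4 with ⟨c1, c2⟩ | ⟨c1, c2⟩
    · rcases hS5 with ⟨g1, -, -⟩ | ⟨-, -, b, hb, g3⟩ | ⟨-, g2, -⟩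
      · exact absurd c1 g1
      · have g4 := g3 a a1 a2
        have hab : a = b := by
          by_contra hne
          rw [if_neg hne] at g4
          omega
        subst hab
        rcases hb with hb | ⟨hb, hb'⟩
        · left
          refine psi_eq_of K.g hM hly hy2 ?_
          rw [c2, a5, hb, Nat.add_sub_cancel]
        · right
          refine ⟨x i (lo i + 1), ?_⟩
          rw [c2, a5, hb, show lo i + 2 - 1 = lo i + 1 by omega]
          have n1 := K.C.inj i (by omega) (lo i) (lo i + 1) (by omega) (by omega) (by omega)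
          have n2 := K.C.inj i (by omega) (lo i) (lo i + 2) (by omega) (by omega) (by omega)
          have n3 := K.C.inj i (by omega) (lo i + 1) (lo i + 2) (by omega) (by omega) (by omega)
          ext v
          simp only [mem_inter, mem_insert, mem_singleton]
          constructor
          · rintro ⟨h5 | h5, h6 | h6⟩
            · exact h5
            · exact h5
            · rw [h6] at h5
              exact absurd h5 n2
            · exact h6
          · rintro rfl
            exact ⟨Or.inl rfl, Or.inr rfl⟩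
      · exact absurd c1 g2
    · rcases hS5 with ⟨-, g1, -⟩ | ⟨-, g2, -⟩ | ⟨-, -, b, hb, g3⟩
      · exact absurd c1 g1
      · exact absurd c1 g2
      · have g4 := g3 a a1 a2
        have hab : a = b := by
          by_contra hne
          rw [if_neg hne] at g4
          omega
        subst hab
        rcases hb with hb | ⟨hb, hb'⟩
        · left
          refine psi_eq_of K.g hM hly hy2 ?_
          rw [c2, a5, hb]
        · right
          refine ⟨x i a, ?_⟩
          rw [c2, a5, show hi i - 1 = a by omega]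
          have n1 := K.C.inj i (by omega) (a - 1) a (by omega) (by omega) (by omega)
          have n2 := K.C.inj i (by omega) (a - 1) (hi i) (by omega) (by omega) (by omega)
          have n3 := K.C.inj i (by omega) a (hi i) (by omega) (by omega) (by omega)
          ext v
          simp only [mem_inter, mem_insert, mem_singleton]
          constructor
          · rintro ⟨h5 | h5, h6 | h6⟩
            · exact h6
            · rw [h5] at h6
              exact absurd h6 n2
            · exact h5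
            · exact h5
          · rintro rfl
            exact ⟨Or.inr rfl, Or.inl rfl⟩

/-- the additional assumptions: not closed, not a flip -/
structure Cm6 (P : Type u) [Fintype P] [PartialOrder P] [DecidableEq P] (r i : ℕ) (t : P)
    (lo hi : ℕ → ℕ) (x : ℕ → ℕ → P) (S : Finset P) : Prop extends Cm5 P r i t lo hi x S where
  dcl : ∀ a, lo i < a → a < hi i → dcv (x (i + 1) a) (x (i + 1) (a + 1)) ≤ 1
  fl : ∀ p ∈ PD P i, p ≤ t → ∀ q ∈ PU P i, q ≤ t → sts i p = stD i q

theorem Cm6.cmp (K : Cm6 P r i t lo hi x S) (no : ∀ z : P, lev z = i + 2 → ¬ Hul.Jn z) :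
    Cmp P r i t lo hi x S :=
  ⟨K.g, K.i1, K.ht, K.C, no, K.hS, K.part.up, K.dcl, K.fl⟩

/-- the data of a component, energy six -/
theorem Cm6.ps6 (K : Cm6 P r i t lo hi x S) (hM : Mat P i ∅ psi) : SO.PS6 r i psi S := by
  have Q := K.toCm5.ps5 hM
  obtain ⟨hc1, hc2⟩ := indiv_21 K.g i le_rfl t K.ht
  refine ⟨Q.toPSO, ?_, Q.ncu, ?_, ?_⟩
  · intro w hw w' hw' v v' hl hne h1 h2 h3 h4
    have m1 : w ⋖ v := by rw [← mem_uc, h1]; exact mem_insert_self _ _
    have m2 : w ⋖ v' := by rw [← mem_uc, h1]; exact mem_insert_of_mem (mem_singleton_self _)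
    have m3 : w' ⋖ v := by rw [← mem_uc, h2]; exact mem_insert_self _ _
    have m4 : w' ⋖ v' := by rw [← mem_uc, h2]; exact mem_insert_of_mem (mem_singleton_self _)
    have l1 := lev_cov K.g.H m1
    have l2 := lev_cov K.g.H m2
    have hvt := (K.hS v (by omega)).1 (K.part.up hw m1)
    have hvt' := (K.hS v' (by omega)).1 (K.part.up hw m2)
    obtain ⟨a, a1, a2, rfl⟩ := K.C.surj (i + 1) le_rfl v (by omega) hvt
    obtain ⟨b, b1, b2, rfl⟩ := K.C.surj (i + 1) le_rfl v' (by omega) hvt'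
    have hab : a ≠ b := fun he => hne (by rw [he])
    have d1 := (K.C.uc_two K.g K.ht (k := i) (by omega) a1 a2).1 h3
    have d2 := (K.C.uc_two K.g K.ht (k := i) (by omega) b1 b2).1 h4
    have hu : ucv (x (i + 1) a) (x (i + 1) b) = 1 := by
      rcases (near_level' K.g K.i1).1 w _ _ hl m1 m2 hne with g | ⟨g1, -, -⟩
      · exact g
      · omega
    rw [K.C.ucv_eq K.g K.ht le_rfl a1 a2 b1 b2 hab] at hu
    have hab' : b = a + 1 ∨ a = b + 1 := by
      by_contra hcon
      rw [if_neg hcon] at hu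
      exact absurd hu (by norm_num)
    have hd : dcv (x (i + 1) a) (x (i + 1) b) ≤ 1 := by
      rcases hab' with rfl | rfl
      · exact K.dcl a d1.1 (by omega)
      · rw [StB_dcv_comm]
        exact K.dcl b d2.1 (by omega)
    rw [← card_dc_inter, card_le_one] at hd
    exact hd w (mem_inter.2 ⟨mem_dc.2 m1, mem_dc.2 m2⟩) w' (mem_inter.2 ⟨mem_dc.2 m3, mem_dc.2 m4⟩)
  · intro p hp hpd
    obtain ⟨hl, hc, y, hy, hy2⟩ := mem_PD.1 hpd
    obtain ⟨y', hy'⟩ := card_eq_one.1 hc
    have hyy : y = y' := by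
      rw [← mem_uc, hy', mem_singleton] at hy
      exact hy
    subst hyy
    refine ⟨y, hy', ?_⟩
    have hpt := (K.hS p hl.le).1 hp
    have h1 : (PDt i t).Nonempty := ⟨p, mem_PDt.2 ⟨hpd, hpt⟩⟩
    rw [← card_pos, hc2, card_pos] at h1
    obtain ⟨q, hq⟩ := h1
    obtain ⟨hq1, hqt⟩ := mem_PUt.1 hq
    obtain ⟨lq, hqc⟩ := lev_PU hq1
    obtain ⟨u, hu⟩ := card_eq_one.1 hqc
    refine ⟨q, (K.hS q (by omega)).2 hqt, hq1, ?_⟩
    have hs := K.fl p hpd hpt q hq1 hqt
    rw [ClE_sts K.g.H hl hy', ClE_stD K.g.H lq hu] at hs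
    have hly := lev_cov K.g.H hy
    rw [hu, psi_eq_of K.g hM (by omega) hy2 hs.symm]
  · intro p hp hpd
    obtain ⟨hl, hc, u, hu, hu2⟩ := mem_PU.1 hpd
    obtain ⟨u', hu'⟩ := card_eq_one.1 hc
    have huu : u = u' := by
      rw [← mem_dc, hu', mem_singleton] at hu
      exact hu
    subst huu
    refine ⟨u, hu', ?_⟩
    have hpt := (K.hS p (by omega)).1 hp
    have h1 : (PUt i t).Nonempty := ⟨p, mem_PUt.2 ⟨hpd, hpt⟩⟩
    rw [← card_pos, ← hc2, card_pos] at h1
    obtain ⟨q, hq⟩ := h1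
    obtain ⟨hq1, hqt⟩ := mem_PDt.1 hq
    obtain ⟨lq, hqc⟩ := lev_PD hq1
    obtain ⟨y, hy⟩ := card_eq_one.1 hqc
    refine ⟨q, (K.hS q (by omega)).2 hqt, hq1, ?_⟩
    have hs := K.fl q hq1 hqt p hpd hpt
    rw [ClE_sts K.g.H lq hy, ClE_stD K.g.H hl hu'] at hs
    have hlu := lev_cov K.g.H hu
    rw [hy, psi_eq_of' K.g hM (by omega) hu2 hs]

end Pool.Agent.GaussPoset.Win

end

/-! From `Pool.Agent.W_448rd_h10.RdD` -/

section

/-!
MP_448cb3_co, G2, window `j - 1`: the inequality for reduced cores, the payments.  helper10.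
-/

namespace Pool.Agent.GaussPoset.Win.Rd

set_option linter.unusedSectionVars false

open Finset I2 K2
open Pool.Agent.GaussPoset.Win.H2 (SdT)

universe u

variable {P : Type u} [DecidableEq P]
variable {c c' : P → Finset P} {e : P → ℕ} {t : P → ℕ} {V Sd BG EX : Finset P}

/-- double counting along covers -/
lemma dcount {A B : Finset P} {F : P → P → ℤ} (hd : ∀ z w, w ∈ c z ↔ z ∈ c' w)
    (h1 : ∀ z ∈ A, ∀ w ∈ c z, w ∉ B → F w z = 0) (h2 : ∀ w ∈ B, ∀ z ∈ c' w, z ∉ A → F w z = 0) :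
    ∑ z ∈ A, ∑ w ∈ c z, F w z = ∑ w ∈ B, ∑ z ∈ c' w, F w z := by
  have e1 : ∀ z ∈ A, ∑ w ∈ c z, F w z = ∑ w ∈ B, if w ∈ c z then F w z else 0 := by
    intro z hz
    rw [← sum_filter]
    have : B.filter (fun w => w ∈ c z) = (c z).filter (fun w => w ∈ B) := by
      ext w
      rw [mem_filter, mem_filter]
      tauto
    rw [this, sum_filter]
    apply sum_congr rfl
    intro w hw
    by_cases h : w ∈ B
    · rw [if_pos h]
    · rw [if_neg h, h1 z hz w hw h]
  have e2 : ∀ w ∈ B, ∑ z ∈ c' w, F w z = ∑ z ∈ A, if w ∈ c z then F w z else 0 := by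
    intro w hw
    rw [← sum_filter]
    have : A.filter (fun z => w ∈ c z) = (c' w).filter (fun z => z ∈ A) := by
      ext z
      rw [mem_filter, mem_filter, hd z w]
      tauto
    rw [this, sum_filter]
    apply sum_congr rfl
    intro z hz
    by_cases h : z ∈ A
    · rw [if_pos h]
    · rw [if_neg h, h2 w hw z hz h]
  rw [sum_congr rfl e1, sum_congr rfl e2, sum_comm]

section defs

variable (c c' : P → Finset P) (e : P → ℕ) (t : P → ℕ) (Sd BG : Finset P)

open Classical in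
/-- near double elements outside `BG` -/
noncomputable def Dd : Finset P := Sd.filter (fun w => w ∉ BG ∧ t w = 1 ∧ (c w).card = 2)

open Classical in
/-- near single elements -/
noncomputable def Sn : Finset P := Sd.filter (fun s => t s = 1 ∧ (c s).card = 1)

/-- both sites are killed by `w` only -/
def N4a (w : P) : Prop := sv c c' e w = -4 ∧ ¬ gu c e w

/-- a single element kills with `w` -/
def SK (w : P) : Prop := ∃ s ∈ Sn c t Sd, SKr c c' e s w

/-- the payment to an element without guard -/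
def q4 (n : ℕ) : ℤ := if n = 0 then 0 else if n = 1 then 2 else 4

open Classical in
/-- payments of a child `z` to `w` -/
noncomputable def pc (f : P → P) (w z : P) : ℤ :=
  if w ∈ Dd c t Sd BG ∧ ¬ SK c c' e t Sd w ∧ sv c c' e w < 0 then
    (if N4a c c' e w then q4 (e z) else if f w = z then clm (sv c c' e w) else 0) else 0

/-- joins which get one from their guard -/
def Z2 (z : P) : Prop := DJ c t Sd z ∧ e z = 2 ∧ kl c e z ∧ gu c e z ∧
  ∀ z', c z' = c z → z' ≠ z → e z' = 0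

open Classical in
/-- payments of a guard -/
noncomputable def gp (w z : P) : ℤ :=
  if Z2 c e t Sd z ∧ e z ≤ e w ∧ w ∈ Dd c t Sd BG then 1 else 0

/-- an order on twins -/
def lt (rk : P → ℕ) (z z' : P) : Prop := e z < e z' ∨ (e z = e z' ∧ rk z < rk z')

/-- the smaller one of two positive twins -/
def low (rk : P → ℕ) (z : P) : Prop := ∃ z', c z' = c z ∧ z' ≠ z ∧ 1 ≤ e z' ∧ lt e rk z z'

/-- the larger one of two positive twins -/
def upp (rk : P → ℕ) (z : P) : Prop := ∃ z', c z' = c z ∧ z' ≠ z ∧ 1 ≤ e z' ∧ lt e rk z' z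

/-- the choice of the paying child -/
def FH (rk : P → ℕ) (f : P → P) : Prop := ∀ w ∈ Dd c t Sd BG, 1 ≤ e w →
  f w ∈ c' w ∧ 1 ≤ e (f w) ∧ (PenP c c' e w → (c (f w)).card = 1) ∧
    ¬ (DJ c t Sd (f w) ∧ low c e rk (f w))

end defs

lemma mem_Dd {w : P} : w ∈ Dd c t Sd BG ↔ w ∈ Sd ∧ w ∉ BG ∧ t w = 1 ∧ (c w).card = 2 := by
  unfold Dd
  rw [mem_filter]

lemma mem_Sn {w : P} : w ∈ Sn c t Sd ↔ w ∈ Sd ∧ t w = 1 ∧ (c w).card = 1 := by
  unfold Sn
  rw [mem_filter]

lemma q4_nonneg (n : ℕ) : 0 ≤ q4 n := by unfold q4; split_ifs <;> omega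

lemma q4_le (n : ℕ) : q4 n ≤ 2 * n := by unfold q4; split_ifs <;> omega

lemma gp_nonneg (w z : P) : 0 ≤ gp c e t Sd BG w z := by unfold gp; split_ifs <;> omega

lemma pc_nonneg (f : P → P) (w z : P) : 0 ≤ pc c c' e t Sd BG f w z := by
  unfold pc
  split_ifs
  · exact q4_nonneg _
  · exact clm_nonneg _
  all_goals exact le_rfl

lemma lt_total {rk : P → ℕ} (hr : ∀ y z, rk y = rk z → y = z) {z z' : P} (h : z' ≠ z) :
    lt e rk z z' ∨ lt e rk z' z := by
  unfold lt
  have : rk z' ≠ rk z := fun h2 => h (hr _ _ h2)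
  omega

lemma lt_asymm {rk : P → ℕ} {z z' : P} (h : lt e rk z z') (h' : lt e rk z' z) : False := by
  unfold lt at h h'
  omega

section basic

variable (H : Hyp c c' e t V Sd BG EX)
include H

lemma Hyp.sv_zero {z : P} (h : e z = 0) : sv c c' e z = 0 := by
  rw [sv_not_kl, h]
  · rfl
  · rintro ⟨a, -, ha⟩
    omega

/-- the values of a double element -/
lemma Hyp.vals {w o x : P} (hw : c w = {o, x}) (hne : o ≠ x) (h : sv c c' e w < 0) :
    (sv c c' e w = -1 ∨ sv c c' e w = -2 ∨ sv c c' e w = -4) ∧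
      (sv c c' e w = -4 → e w = 1) := by
  by_cases h1 : e o < e w
  · by_cases h2 : e x < e w
    · have h3 := sv_both (c' := c') H.S hw hne h1 h2
      rcases nk_cases (c' := c') (e := e) w o with ⟨-, h4⟩ | ⟨-, h4⟩ <;>
      rcases nk_cases (c' := c') (e := e) w x with ⟨-, h5⟩ | ⟨-, h5⟩ <;>
      rw [h4, h5] at h3 <;> omega
    · have h3 := sv_one (c' := c') H.S hw hne h1 (by omega)
      rcases nk_cases (c' := c') (e := e) w o with ⟨-, h4⟩ | ⟨-, h4⟩ <;> rw [h4] at h3 <;> omega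
  · by_cases h2 : e x < e w
    · have h3 := sv_one' (c' := c') H.S hw hne (by omega) h2
      rcases nk_cases (c' := c') (e := e) w x with ⟨-, h4⟩ | ⟨-, h4⟩ <;> rw [h4] at h3 <;> omega
    · have h3 := sv_none (c' := c') (e := e) H.S hw hne (by omega) (by omega)
      omega

/-- a co-killed site -/
lemma Hyp.co {w o x : P} (hw : c w = {o, x}) (hne : o ≠ x) (hx : e x < e w)
    (hk : ok c' e w x) : 2 * (e w : ℤ) - 3 ≤ sv c c' e w := by
  have h5 := nk_zero hk
  by_cases h1 : e o < e w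
  · have h3 := sv_both (c' := c') H.S hw hne h1 hx
    rcases nk_cases (c' := c') (e := e) w o with ⟨-, h4⟩ | ⟨-, h4⟩ <;>
    rw [h4, h5] at h3 <;> omega
  · have h3 := sv_one' (c' := c') H.S hw hne (by omega) hx
    rw [h5] at h3
    omega

lemma Hyp.sk_ge {w : P} (hw : w ∈ Dd c t Sd BG) (h : SK c c' e t Sd w) : -1 ≤ sv c c' e w := by
  rw [mem_Dd] at hw
  obtain ⟨s, s1, s2, s3, x, x1, x2, x3, x4⟩ := h
  obtain ⟨o, o1, o2⟩ := pair_of hw.2.2.2 x2
  have := H.co o2 o1 x4 ⟨s, (H.S.dual _ _).1 x1, s3, x3⟩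
  omega

/-- all positive children are pendants -/
lemma Hyp.pend {w z : P} (hw : w ∈ Dd c t Sd BG) (hn : N4a c c' e w) (hz : z ∈ c' w)
    (h1 : 1 ≤ e z) : (c z).card = 1 := by
  rw [mem_Dd] at hw
  obtain ⟨wS, -, tw, cw⟩ := hw
  obtain ⟨hs, hg⟩ := hn
  have hall : ∀ a ∈ c w, e a < e w := by
    intro a ha
    by_contra h
    exact hg ⟨a, ha, by omega⟩
  obtain ⟨zS, tz, wz⟩ := H.ch wS hz
  by_contra hc
  have hc2 : (c z).card = 2 := by
    have := H.S.c2 z
    have : 1 ≤ (c z).card := card_pos.2 ⟨w, wz⟩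
    omega
  obtain ⟨z2, z2a, z2b⟩ := pair_of hc2 wz
  have z2c : z2 ∈ c z := by rw [z2b]; simp
  obtain ⟨x, x1, x2⟩ := H.hT z zS (by omega) w wz z2 z2c z2a.symm cw
  obtain ⟨o, o1, o2⟩ := pair_of cw x1
  have z2S := (H.cov zS (by omega) z2c).1
  have hp := H.pos z2S ((H.S.dual _ _).1 z2c) h1
  have hx := hall x x1
  have he : e w = 1 := (H.vals o2 o1 (by omega)).2 hs
  have := H.co o2 o1 hx ⟨z2, (H.S.dual _ _).1 x2, z2a, by omega⟩
  omega

variable {rk : P → ℕ} {f : P → P}

lemma Hyp.fzero (hf : FH c c' e t Sd BG rk f) {w z : P} (h : e z = 0) :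
    pc c c' e t Sd BG f w z = 0 := by
  unfold pc
  by_cases h1 : w ∈ Dd c t Sd BG ∧ ¬ SK c c' e t Sd w ∧ sv c c' e w < 0
  · rw [if_pos h1]
    by_cases h2 : N4a c c' e w
    · rw [if_pos h2, h]
      rfl
    · rw [if_neg h2]
      by_cases h3 : f w = z
      · exfalso
        have hw : 1 ≤ e w := by
          by_contra h4
          have := H.sv_zero (z := w) (by omega)
          omega
        have := (hf w h1.1 hw).2.1
        rw [h3] at this
        omega
      · rw [if_neg h3]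
  · rw [if_neg h1]

lemma Hyp.fle (hf : FH c c' e t Sd BG rk f) {w z : P} (hz : z ∈ c' w) (h2 : (c z).card = 2) :
    pc c c' e t Sd BG f w z ≤ cl c c' e BG w := by
  by_cases h0 : e z = 0
  · rw [H.fzero hf h0]
    exact cl_nonneg _
  unfold pc
  by_cases h1 : w ∈ Dd c t Sd BG ∧ ¬ SK c c' e t Sd w ∧ sv c c' e w < 0
  · rw [if_pos h1]
    by_cases h3 : N4a c c' e w
    · have := H.pend h1.1 h3 hz (by omega)
      omega
    · rw [if_neg h3]
      by_cases h4 : f w = z
      · rw [if_pos h4]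
        have hw : 1 ≤ e w := H.pos (mem_Dd.1 h1.1).1 hz (by omega)
        unfold cl
        rw [if_neg]
        rintro (h5 | h5)
        · exact (mem_Dd.1 h1.1).2.1 h5
        · have := (hf w h1.1 hw).2.2.1 h5
          rw [h4] at this
          omega
      · rw [if_neg h4]
        exact cl_nonneg _
  · rw [if_neg h1]
    exact cl_nonneg _

lemma Hyp.fle_two (hf : FH c c' e t Sd BG rk f) {w z : P} (hz : z ∈ c' w) (h2 : (c z).card = 2) :
    pc c c' e t Sd BG f w z ≤ 2 := (H.fle hf hz h2).trans (cl_le_two _)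

lemma Hyp.flow (hf : FH c c' e t Sd BG rk f) {w z : P} (hz : z ∈ c' w) (h2 : DJ c t Sd z)
    (hl : low c e rk z) : pc c c' e t Sd BG f w z = 0 := by
  by_cases h0 : e z = 0
  · exact H.fzero hf h0
  unfold pc
  by_cases h1 : w ∈ Dd c t Sd BG ∧ ¬ SK c c' e t Sd w ∧ sv c c' e w < 0
  · rw [if_pos h1]
    by_cases h3 : N4a c c' e w
    · have := H.pend h1.1 h3 hz (by omega)
      have := h2.2.2.1
      omega
    · rw [if_neg h3]
      by_cases h4 : f w = z
      · exfalso
        have hw : 1 ≤ e w := H.pos (mem_Dd.1 h1.1).1 hz (by omega)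
        have := (hf w h1.1 hw).2.2.2
        rw [h4] at this
        exact this ⟨h2, hl⟩
      · rw [if_neg h4]
  · rw [if_neg h1]

lemma Hyp.f_sk {w z : P} (h : SK c c' e t Sd w) : pc c c' e t Sd BG f w z = 0 := by
  unfold pc
  rw [if_neg]
  rintro ⟨-, h2, -⟩
  exact h2 h

lemma Hyp.f_out {w z : P} (h : w ∉ Dd c t Sd BG) : pc c c' e t Sd BG f w z = 0 := by
  unfold pc
  rw [if_neg]
  rintro ⟨h2, -⟩
  exact h h2

/-- a pendant can pay -/
lemma Hyp.fpen (hf : FH c c' e t Sd BG rk f) {w z : P} :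
    pc c c' e t Sd BG f w z ≤ 2 * (e z : ℤ) := by
  by_cases h0 : e z = 0
  · rw [H.fzero hf h0]
    omega
  unfold pc
  by_cases h1 : w ∈ Dd c t Sd BG ∧ ¬ SK c c' e t Sd w ∧ sv c c' e w < 0
  · rw [if_pos h1]
    by_cases h3 : N4a c c' e w
    · rw [if_pos h3]
      exact q4_le _
    · rw [if_neg h3]
      have := clm_le_two (sv c c' e w)
      split_ifs <;> omega
  · rw [if_neg h1]
    omega

/-- existence of the choice -/
lemma Hyp.exists_f (hr : ∀ y z, rk y = rk z → y = z) : ∃ f, FH c c' e t Sd BG rk f := by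
  have key : ∀ w, ∃ z, w ∈ Dd c t Sd BG → 1 ≤ e w → z ∈ c' w ∧ 1 ≤ e z ∧
      (PenP c c' e w → (c z).card = 1) ∧ ¬ (DJ c t Sd z ∧ low c e rk z) := by
    intro w
    by_cases hw : w ∈ Dd c t Sd BG ∧ 1 ≤ e w
    · obtain ⟨hw, h1⟩ := hw
      obtain ⟨wS, wB, tw, cw⟩ := mem_Dd.1 hw
      by_cases hp : PenP c c' e w
      · obtain ⟨z, z1, z2, z3⟩ := id hp
        refine ⟨z, fun _ _ => ⟨z1, z2, fun _ => z3, ?_⟩⟩
        rintro ⟨⟨-, -, h, -⟩, -⟩
        omega
      · obtain ⟨z, z1, z2⟩ := H.touch w wS tw cw wB h1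
        by_cases hl : low c e rk z
        · obtain ⟨z', y1, y2, y3, y4⟩ := hl
          have hwz : w ∈ c z := (H.S.dual _ _).2 z1
          have hz' : z' ∈ c' w := (H.S.dual _ _).1 (y1 ▸ hwz)
          refine ⟨z', fun _ _ => ⟨hz', y3, fun h => absurd h hp, ?_⟩⟩
          rintro ⟨-, z'', x1, x2, x3, x4⟩
          have hz'' : z'' ∈ c' w := (H.S.dual _ _).1 (x1 ▸ y1 ▸ hwz)
          have := third (H.S.c2' w) z1 hz' hz'' y2.symm x2
          subst this
          exact lt_asymm y4 x4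
        · exact ⟨z, fun _ _ => ⟨z1, z2, fun h => absurd h hp, fun h => hl h.2⟩⟩
    · exact ⟨w, fun h1 h2 => absurd ⟨h1, h2⟩ hw⟩
  choose f hf using key
  exact ⟨f, fun w hw h1 => hf w hw h1⟩

/-- sums over the covers -/
lemma sum_pair {z w w2 : P} (h : c z = {w, w2}) (hne : w ≠ w2) (F : P → ℤ) :
    ∑ y ∈ c z, F y = F w + F w2 := by rw [h, Finset.sum_pair hne]

/-- a join without twin can pay -/
lemma Hyp.at_two (hr : ∀ y z, rk y = rk z → y = z) (hf : FH c c' e t Sd BG rk f) {z : P}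
    (hz : z ∈ Sd) (tz : t z = 2) (hn : ¬ (DJ c t Sd z ∧ 1 ≤ e z ∧ (low c e rk z ∨ upp c e rk z))) :
    ∑ w ∈ c z, pc c c' e t Sd BG f w z ≤ sv c c' e z + ∑ w ∈ c z, gp c e t Sd BG w z +
      ∑ u ∈ c' z, r3 c c' e t z u + ∑ s ∈ c z, ns c c' e t Sd s + 4 * (if z ∈ EX then 1 else 0) := by
  have x0 : (0 : ℤ) ≤ (if z ∈ EX then 1 else 0) := by split_ifs <;> omega
  have g0 : 0 ≤ ∑ w ∈ c z, gp c e t Sd BG w z := sum_nonneg (fun _ _ => gp_nonneg _ _)
  have g1 : 0 ≤ ∑ u ∈ c' z, r3 c c' e t z u := sum_nonneg (fun _ _ => r3_nonneg _ _)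
  have g2 : 0 ≤ ∑ s ∈ c z, ns c c' e t Sd s := sum_nonneg (fun _ _ => ns_nonneg _)
  by_cases h0 : e z = 0
  · rw [sum_eq_zero (fun w _ => H.fzero hf h0), H.sv_zero h0]
    omega
  have hc := H.S.c2 z
  have hc1 : 1 ≤ (c z).card := card_pos.2 (H.S.ne z hz)
  by_cases hc2 : (c z).card = 1
  · obtain ⟨w, hw⟩ := card_eq_one.1 hc2
    have h1 := sv_single_ge (c' := c') (e := e) H.S hw
    have h2 := H.fpen hf (w := w) (z := z)
    have h3 : ∑ w ∈ c z, pc c c' e t Sd BG f w z = pc c c' e t Sd BG f w z := by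
      rw [hw, sum_singleton]
    rw [h3]
    omega
  obtain ⟨w, w2, hne, hcz⟩ := card_eq_two.1 (by omega : (c z).card = 2)
  have hw : w ∈ c z := by rw [hcz]; simp
  have hw2 : w2 ∈ c z := by rw [hcz]; simp
  obtain ⟨wS, tw⟩ := H.cov hz (by omega) hw
  obtain ⟨w2S, tw2⟩ := H.cov hz (by omega) hw2
  have zw : z ∈ c' w := (H.S.dual _ _).1 hw
  have zw2 : z ∈ c' w2 := (H.S.dual _ _).1 hw2
  have l1 := H.fle_two hf zw (by omega)
  have l2 := H.fle_two hf zw2 (by omega)
  have c1 : (c w).card = 1 ∨ (c w).card = 2 := by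
    have := H.S.c2 w
    have : 1 ≤ (c w).card := card_pos.2 (H.S.ne w wS)
    omega
  have c2 : (c w2).card = 1 ∨ (c w2).card = 2 := by
    have := H.S.c2 w2
    have : 1 ≤ (c w2).card := card_pos.2 (H.S.ne w2 w2S)
    omega
  have nd : ∀ y, (c y).card = 1 → y ∉ Dd c t Sd BG := by
    intro y hy h
    have := (mem_Dd.1 h).2.2.2
    omega
  rw [sum_pair H hcz hne] at g2 ⊢
  rw [sum_pair H hcz hne (fun s => ns c c' e t Sd s)]
  rcases c1 with c1 | c1 <;> rcases c2 with c2 | c2
  · rw [H.f_out (nd w c1), H.f_out (nd w2 c2)]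
    have := H.singles hz tz hcz c1 c2 (by omega)
    omega
  · have hcz' : c z = {w2, w} := by rw [hcz, pair_comm]
    rw [H.f_out (nd w c1)]
    have := H.semi hz tz hcz' hne.symm c2 c1 (by omega) l2 (fun h => by
      rw [H.f_sk ⟨w, mem_Sn.2 ⟨wS, by omega, c1⟩, h⟩])
    have := ns_nonneg (c := c) (c' := c') (e := e) (t := t) (Sd := Sd) w2
    omega
  · rw [H.f_out (nd w2 c2)]
    have := H.semi hz tz hcz hne c1 c2 (by omega) l1 (fun h => by
      rw [H.f_sk ⟨w2, mem_Sn.2 ⟨w2S, by omega, c2⟩, h⟩])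
    have := ns_nonneg (c := c) (c' := c') (e := e) (t := t) (Sd := Sd) w
    omega
  · have hDJ : DJ c t Sd z := by
      refine ⟨hz, tz, by omega, ?_⟩
      intro y hy
      rw [hcz, mem_insert, mem_singleton] at hy
      rcases hy with rfl | rfl <;> assumption
    have htw : ∀ z', c z' = c z → z' ≠ z → e z' = 0 := by
      intro z' h1 h2
      by_contra h3
      rcases lt_total (e := e) hr h2 with h4 | h4
      · exact hn ⟨hDJ, by omega, Or.inl ⟨z', h1, h2, by omega, h4⟩⟩
      · exact hn ⟨hDJ, by omega, Or.inr ⟨z', h1, h2, by omega, h4⟩⟩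
    obtain ⟨w3, p, x, q, T⟩ := H.ts hDJ hw
    have hw3 : w3 = w2 := by
      have h1 : w3 ∈ c z := by rw [T.cz]; simp
      rw [hcz, mem_insert, mem_singleton] at h1
      rcases h1 with h1 | h1
      · exact absurd h1.symm T.ne
      · exact h1
    subst hw3
    have b1 := H.fle hf zw (by omega : (c z).card = 2)
    have b2 := H.fle hf zw2 (by omega : (c z).card = 2)
    by_cases hEX : z ∈ EX
    · have := T.rule_ex H (by omega) (fun z' h => htw z' (by rw [h, hcz]))
      rw [if_pos hEX]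
      omega
    have hmain := T.rule H hEX (by omega) (fun z' h => htw z' (by rw [h, hcz])) g0
      (r := ∑ w ∈ c z, gp c e t Sd BG w z) (R := ∑ u ∈ c' z, r3 c c' e t z u) (by
        intro h2 hkl hgu
        obtain ⟨a, ha, hle⟩ := id hgu
        have hZ : Z2 c e t Sd z := ⟨hDJ, h2, hkl, hgu, htw⟩
        obtain ⟨b, hb, hlt⟩ := id hkl
        have hbS := (H.cov hz (by omega) hb).1
        have haS := (H.cov hz (by omega) ha)
        have hab : a ≠ b := by
          rintro rfl
          omega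
        have hx : ∃ y ∈ c b, y ∈ c a := by
          obtain ⟨y, y1, y2⟩ := H.hT z hz tz b hb a ha hab.symm (hDJ.2.2.2 b hb)
          exact ⟨y, y1, y2⟩
        obtain ⟨y, y1, y2⟩ := hx
        have hy := H.kill hbS ((H.S.dual _ _).1 hb) hlt y y1
        have haD : a ∈ Dd c t Sd BG := by
          rw [mem_Dd]
          refine ⟨haS.1, ?_, by omega, hDJ.2.2.2 a ha⟩
          intro hB
          have := H.bg a hB y y2
          omega
        calc (1 : ℤ) = gp c e t Sd BG a z := by
              unfold gp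
              rw [if_pos ⟨hZ, hle, haD⟩]
          _ ≤ _ := single_le_sum (f := fun w => gp c e t Sd BG w z)
                (fun _ _ => gp_nonneg _ _) ha) g1 (by
        intro u hu h2 h3
        obtain ⟨uS, tu, -⟩ := H.ch hz hu
        calc (4 : ℤ) = r3 c c' e t z u := by
              unfold r3
              rw [if_pos ⟨h2, by omega, by omega⟩, if_pos h3]
          _ ≤ _ := single_le_sum (f := fun u => r3 c c' e t z u) (fun _ _ => r3_nonneg _ _) hu) (by
        intro u hu h2 h3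
        obtain ⟨uS, tu, -⟩ := H.ch hz hu
        calc (2 : ℤ) ≤ r3 c c' e t z u := by
              unfold r3
              rw [if_pos ⟨h2, by omega, by omega⟩, if_neg h3]
              split_ifs <;> omega
          _ ≤ _ := single_le_sum (f := fun u => r3 c c' e t z u) (fun _ _ => r3_nonneg _ _) hu) (by
        intro u hu h2 h3 h4
        obtain ⟨uS, tu, -⟩ := H.ch hz hu
        calc (4 : ℤ) ≤ r3 c c' e t z u := by
              unfold r3
              rw [if_pos ⟨h2, by omega, by omega⟩, if_neg h3, if_pos h4]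
              split_ifs <;> omega
          _ ≤ _ := single_le_sum (f := fun u => r3 c c' e t z u) (fun _ _ => r3_nonneg _ _) hu)
    omega

end basic

end Pool.Agent.GaussPoset.Win.Rd

end

/-! From `Pool.Agent.W_448rd_h10.RdE` -/

section

/-!
MP_448cb3_co, G2, window `j - 1`: the inequality for reduced cores, one side.  helper10.
-/

namespace Pool.Agent.GaussPoset.Win.Rd

set_option linter.unusedSectionVars false

open Finset I2 K2
open Pool.Agent.GaussPoset.Win.H2 (SdT)

universe u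

variable {P : Type u} [DecidableEq P]
variable {c c' : P → Finset P} {e : P → ℕ} {t : P → ℕ} {V Sd BG EX : Finset P}

section defs

variable (c c' : P → Finset P) (e : P → ℕ) (t : P → ℕ) (Sd BG : Finset P)

/-- the larger one of two positive twins kills, the other one does not -/
def TWp (z : P) : Prop := DJ c t Sd z ∧ kl c e z ∧ ∃ z', c z' = c z ∧ z' ≠ z ∧ 1 ≤ e z' ∧ ¬ kl c e z'

open Classical in
/-- pairs of positive twins, one of them kills -/
noncomputable def TW : Finset P := Sd.filter (fun z => TWp c e t Sd z)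

/-- the exact pattern `2, 1, 1, 1`, the outer sites are killed by one element only -/
def TWq (z : P) : Prop := TWp c e t Sd z ∧ e z = 2 ∧ (∀ z', c z' = c z → z' ≠ z → e z' = 1) ∧
  ∀ w ∈ c z, e w = 1 ∧ ∀ y ∈ c w, e y = 0 ∧ ∀ v ∈ c' y, v ∉ c z → e v = 0

open Classical in
/-- pairs of positive twins with the exact pattern -/
noncomputable def TWx : Finset P := Sd.filter (fun z => TWq c c' e t Sd z)

open Classical in
/-- double elements with label one which kill one site alone and are guarded by the other one -/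
noncomputable def N4 : Finset P := (Dd c t Sd BG).filter (fun w => sv c c' e w = -4 ∧ gu c e w)

open Classical in
/-- double elements with label one which kill both sites alone, with one child of label one -/
noncomputable def P1 : Finset P :=
  (Dd c t Sd BG).filter (fun w => N4a c c' e w ∧ ∑ z ∈ c' w, e z = 1)

/-- a child `q` with label one of the pendant of `y`, not shared -/
def RQ (q y : P) : Prop := y ∈ P1 c c' e t Sd BG ∧ q ∈ Sd ∧ t q = 3 ∧ e q = 1 ∧
  (∃ p ∈ c q, y ∈ c p ∧ 1 ≤ e p) ∧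
  ∀ y' ∈ P1 c c' e t Sd BG, ∀ p' ∈ c q, y' ∈ c p' → 1 ≤ e p' → y' = y

open Classical in
/-- the elements of `P1` without positive grandchildren (which are not shared) -/
noncomputable def P1s : Finset P := (P1 c c' e t Sd BG).filter (fun y => ∀ q, ¬ RQ c c' e t Sd BG q y)

open Classical in
/-- elements at distance two -/
noncomputable def T2 : Finset P := Sd.filter (fun z => t z = 2)

open Classical in
/-- elements at distance three -/
noncomputable def T3 : Finset P := Sd.filter (fun z => t z = 3)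

open Classical in
/-- elements at distance at least four -/
noncomputable def T4 : Finset P := Sd.filter (fun z => 4 ≤ t z)

end defs

lemma mem_T2 {z : P} : z ∈ T2 t Sd ↔ z ∈ Sd ∧ t z = 2 := by unfold T2; rw [mem_filter]
lemma mem_T3 {z : P} : z ∈ T3 t Sd ↔ z ∈ Sd ∧ t z = 3 := by unfold T3; rw [mem_filter]

/-- the sum of `q4` -/
lemma q4_sum {A : Finset P} (e : P → ℕ) (h : 2 ≤ ∑ z ∈ A, e z) : 4 ≤ ∑ z ∈ A, q4 (e z) := by
  by_cases hb : ∃ z ∈ A, 2 ≤ e z
  · obtain ⟨z, hz, h2⟩ := hb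
    calc (4 : ℤ) = q4 (e z) := by
          unfold q4
          rw [if_neg (by omega), if_neg (by omega)]
      _ ≤ _ := single_le_sum (f := fun z => q4 (e z)) (fun _ _ => q4_nonneg _) hz
  · push Not at hb
    have h1 : ∑ z ∈ A, q4 (e z) = ∑ z ∈ A, 2 * ((e z : ℕ) : ℤ) := by
      apply sum_congr rfl
      intro z hz
      have := hb z hz
      unfold q4
      split_ifs <;> omega
    rw [h1, ← mul_sum]
    have h2 : ((∑ z ∈ A, e z : ℕ) : ℤ) = ∑ z ∈ A, ((e z : ℕ) : ℤ) := by push_cast; rfl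
    omega

section basic

variable (H : Hyp c c' e t V Sd BG EX) {rk : P → ℕ} {f : P → P}
include H

/-- a guard kills the common site together with the other cover -/
lemma Hyp.guard {w z : P} (hw : w ∈ Dd c t Sd BG) (hz : z ∈ c' w) (h : Z2 c e t Sd z)
    (hle : e z ≤ e w) : ∃ w2 p x q, TS c c' t Sd z w w2 p x q ∧ e x = 0 ∧ e w2 = 1 := by
  obtain ⟨hDJ, h2, hkl, -, -⟩ := h
  have hwz : w ∈ c z := (H.S.dual _ _).2 hz
  obtain ⟨w2, p, x, q, T⟩ := H.ts hDJ hwz
  refine ⟨w2, p, x, q, T, ?_⟩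
  have h3 : e w2 < e z := by
    rw [kl_two H.S T.cz T.ne] at hkl
    omega
  have h4 := H.kill (T.symm.wS H) (T.symm.z_mem H) h3 x (T.symm.x_mem H)
  omega

/-- the local inequality at a near double element -/
lemma Hyp.at_D (hf : FH c c' e t Sd BG rk f) {w : P} (hw : w ∈ Dd c t Sd BG) :
    (open Classical in
    ∑ z ∈ c' w, gp c e t Sd BG w z ≤ sv c c' e w + ∑ z ∈ c' w, pc c c' e t Sd BG f w z +
      (((Sn c t Sd).filter (fun s => SKr c c' e s w)).card : ℤ) +
      2 * (if sv c c' e w = -4 ∧ gu c e w then 1 else 0) +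
      2 * (if N4a c c' e w ∧ ∑ z ∈ c' w, e z = 1 then 1 else 0)) := by
  classical
  have p0 : 0 ≤ ∑ z ∈ c' w, pc c c' e t Sd BG f w z := sum_nonneg (fun _ _ => pc_nonneg _ _ _)
  have i1 : (0 : ℤ) ≤ (if sv c c' e w = -4 ∧ gu c e w then 1 else 0) := by split_ifs <;> omega
  have i2 : (0 : ℤ) ≤ (if N4a c c' e w ∧ ∑ z ∈ c' w, e z = 1 then 1 else 0) := by
    split_ifs <;> omega
  obtain ⟨wS, wB, tw, cw⟩ := mem_Dd.1 hw
  have hgs : ∑ z ∈ c' w, gp c e t Sd BG w z =
      (((c' w).filter (fun z => Z2 c e t Sd z ∧ e z ≤ e w)).card : ℤ) := by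
    rw [← sum_boole]
    apply sum_congr rfl
    intro z hz
    unfold gp
    by_cases h : Z2 c e t Sd z ∧ e z ≤ e w
    · rw [if_pos h, if_pos ⟨h.1, h.2, hw⟩]
    · rw [if_neg h, if_neg]
      rintro ⟨h1, h2, -⟩
      exact h ⟨h1, h2⟩
  rw [hgs]
  have hcard : ((c' w).filter (fun z => Z2 c e t Sd z ∧ e z ≤ e w)).card ≤ 2 :=
    (card_le_card (filter_subset _ _)).trans (H.S.c2' w)
  by_cases hne : ((c' w).filter (fun z => Z2 c e t Sd z ∧ e z ≤ e w)).Nonempty
  · obtain ⟨z, hz⟩ := hne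
    rw [mem_filter] at hz
    obtain ⟨z1, z2, z3⟩ := hz
    obtain ⟨w2, p, x, q, T, ex, ew2⟩ := H.guard hw z1 z2 z3
    have ez : e z = 2 := z2.2.1
    obtain ⟨s1, s2⟩ := T.sv_co H (by omega) (by omega)
    by_cases hc : ((c' w).filter (fun z => Z2 c e t Sd z ∧ e z ≤ e w)).card = 2
    · obtain ⟨z', hne, hpr⟩ := pair_of hc (mem_filter.2 ⟨z1, z2, z3⟩ : z ∈ _)
      have hz' : z' ∈ (c' w).filter (fun z => Z2 c e t Sd z ∧ e z ≤ e w) := by rw [hpr]; simp
      rw [mem_filter] at hz'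
      obtain ⟨y1, y2, y3⟩ := hz'
      obtain ⟨w2', p', x', q', T', ex', ew2'⟩ := H.guard hw y1 y2 y3
      have hx' : x' ∈ c w := T'.x_mem H
      rw [T.cw, mem_insert, mem_singleton] at hx'
      rcases hx' with hx' | hx'
      · subst hx'
        have h5 := s2 (by omega)
        have h6 : nk c' e w x' = 0 :=
          nk_zero ⟨w2', by rw [T'.dx]; simp, T'.ne.symm, by omega⟩
        rw [h6] at h5
        omega
      · exfalso
        subst hx'
        have h5 : w2' ∈ c' x' := by rw [T'.dx]; simp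
        rw [T.dx, mem_insert, mem_singleton] at h5
        rcases h5 with h5 | h5
        · exact T'.ne h5.symm
        · subst h5
          have h6 := z2.2.2.2.2 z' (by rw [T'.cz, T.cz]) hne
          have h7 : e z' = 2 := y2.2.1
          omega
    · omega
  · rw [not_nonempty_iff_eq_empty] at hne
    rw [hne, card_empty]
    by_cases hs : 0 ≤ sv c c' e w
    · push_cast
      omega
    by_cases hk : SK c c' e t Sd w
    · have h1 := H.sk_ge hw hk
      obtain ⟨s, s1, s2⟩ := hk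
      have h2 : 0 < ((Sn c t Sd).filter (fun s => SKr c c' e s w)).card :=
        card_pos.2 ⟨s, mem_filter.2 ⟨s1, s2⟩⟩
      push_cast
      omega
    have hcond : w ∈ Dd c t Sd BG ∧ ¬ SK c c' e t Sd w ∧ sv c c' e w < 0 :=
      ⟨hw, hk, by omega⟩
    have ew : 1 ≤ e w := by
      by_contra h
      have := H.sv_zero (z := w) (by omega)
      omega
    obtain ⟨o, x, hox, hcw⟩ := card_eq_two.1 cw
    have hv := H.vals hcw hox (by omega)
    obtain ⟨f1, f2, f3, f4⟩ := hf w hw ew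
    by_cases hN : N4a c c' e w
    · have h1 : ∑ z ∈ c' w, pc c c' e t Sd BG f w z = ∑ z ∈ c' w, q4 (e z) := by
        apply sum_congr rfl
        intro z hz
        unfold pc
        rw [if_pos hcond, if_pos hN]
      rw [h1] at p0 ⊢
      have h4 := hN.1
      by_cases h2 : ∑ z ∈ c' w, e z = 1
      · rw [if_pos (⟨hN, h2⟩ : N4a c c' e w ∧ ∑ z ∈ c' w, e z = 1)]
        have h5 : q4 (e (f w)) ≤ ∑ z ∈ c' w, q4 (e z) :=
          single_le_sum (f := fun z => q4 (e z)) (fun _ _ => q4_nonneg _) f1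
        have h6 : 2 ≤ q4 (e (f w)) := by
          unfold q4
          split_ifs <;> omega
        push_cast
        omega
      · have h3 : e (f w) ≤ ∑ z ∈ c' w, e z :=
          single_le_sum (f := fun z => e z) (fun _ _ => Nat.zero_le _) f1
        have h5 := q4_sum (A := c' w) e (by omega)
        push_cast
        omega
    · have h1 : clm (sv c c' e w) ≤ ∑ z ∈ c' w, pc c c' e t Sd BG f w z := by
        calc clm (sv c c' e w) = pc c c' e t Sd BG f w (f w) := by
              unfold pc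
              rw [if_pos hcond, if_neg hN, if_pos rfl]
          _ ≤ _ := single_le_sum (f := fun z => pc c c' e t Sd BG f w z)
                (fun _ _ => pc_nonneg _ _ _) f1
      by_cases h2 : sv c c' e w = -4
      · have h3 : gu c e w := by
          by_contra h3
          exact hN ⟨h2, h3⟩
        rw [if_pos ⟨h2, h3⟩]
        rw [h2] at h1 ⊢
        have : clm (-4) = 2 := rfl
        push_cast
        omega
      · have h3 : -(sv c c' e w) ≤ clm (sv c c' e w) := by
          unfold clm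
          split_ifs <;> omega
        push_cast
        omega

/-- the local inequality at a near single element -/
lemma Hyp.at_S {s : P} (hs : s ∈ Sn c t Sd) :
    (open Classical in
    ∑ _z ∈ c' s, ns c c' e t Sd s + (((Dd c t Sd BG).filter (fun w => SKr c c' e s w)).card : ℤ) ≤
      sv c c' e s) := by
  classical
  have hs' := mem_Sn.1 hs
  have hSN : SN c c' t Sd s := hs'
  obtain ⟨x, hx⟩ := card_eq_one.1 hs'.2.2
  have hsub : (Dd c t Sd BG).filter (fun w => SKr c c' e s w) ⊆ (c' x).erase s := by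
    intro w hw
    rw [mem_filter] at hw
    obtain ⟨h1, h2, h3, y, y1, y2, y3, y4⟩ := hw
    rw [hx, mem_singleton] at y1
    subst y1
    exact mem_erase.2 ⟨h3.symm, (H.S.dual _ _).1 y2⟩
  have hsx : s ∈ c' x := (H.S.dual _ _).1 (by rw [hx]; simp)
  have hcard : ((Dd c t Sd BG).filter (fun w => SKr c c' e s w)).card ≤ 1 := by
    have h1 := card_le_card hsub
    rw [card_erase_of_mem hsx] at h1
    have := H.S.c2' x
    omega
  have := H.single hSN (k := (c' s).card)
    (m := ((Dd c t Sd BG).filter (fun w => SKr c c' e s w)).card) (H.S.c2' s) hcard (by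
      intro h0
      obtain ⟨w, hw⟩ := card_pos.1 h0
      rw [mem_filter] at hw
      obtain ⟨h1, h2, h3, y, y1, y2, y3, y4⟩ := hw
      exact ⟨y, y1, y3, w, (H.S.dual _ _).1 y2, h3.symm, y4⟩)
  rw [sum_const, nsmul_eq_mul, mul_comm]
  exact this

/-- a positive twin is unique -/
lemma Hyp.twin_unique {z a b : P} (hz : (c z).Nonempty) (ha : c a = c z) (hb : c b = c z)
    (ha2 : a ≠ z) (hb2 : b ≠ z) : a = b := by
  obtain ⟨w, hw⟩ := hz
  have h1 : z ∈ c' w := (H.S.dual _ _).1 hw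
  have h2 : a ∈ c' w := (H.S.dual _ _).1 (ha ▸ hw)
  have h3 : b ∈ c' w := (H.S.dual _ _).1 (hb ▸ hw)
  exact third (H.S.c2' w) h3 h1 h2 hb2 ha2

/-- the local inequality for two twins -/
lemma Hyp.at_pair (hf : FH c c' e t Sd BG rk f) {z z' : P} (hz : DJ c t Sd z)
    (h' : c z' = c z) (hne : z' ≠ z) (h1 : 1 ≤ e z') (hlt : lt e rk z' z) :
    (open Classical in
    ∑ w ∈ c z, pc c c' e t Sd BG f w z + ∑ w ∈ c z', pc c c' e t Sd BG f w z' ≤
      (sv c c' e z + ∑ w ∈ c z, gp c e t Sd BG w z +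
      ∑ u ∈ c' z, r3 c c' e t z u + ∑ s ∈ c z, ns c c' e t Sd s) +
      (sv c c' e z' + ∑ w ∈ c z', gp c e t Sd BG w z' +
      ∑ u ∈ c' z', r3 c c' e t z' u + ∑ s ∈ c z', ns c c' e t Sd s) +
      ((if TWp c e t Sd z then 1 else 0) + (if TWq c c' e t Sd z then 1 else 0))) := by
  classical
  have g0 : ∀ z, 0 ≤ ∑ w ∈ c z, gp c e t Sd BG w z := fun z => sum_nonneg (fun _ _ => gp_nonneg _ _)
  have g1 : ∀ z, 0 ≤ ∑ u ∈ c' z, r3 c c' e t z u := fun z => sum_nonneg (fun _ _ => r3_nonneg _ _)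
  have g2 : ∀ z, 0 ≤ ∑ s ∈ c z, ns c c' e t Sd s := fun z => sum_nonneg (fun _ _ => ns_nonneg _)
  have a1 := g0 z
  have a2 := g0 z'
  have a3 := g1 z
  have a4 := g1 z'
  have a5 := g2 z
  have a6 := g2 z'
  obtain ⟨zS, tz, cz2, hd⟩ := id hz
  obtain ⟨w, hw⟩ := H.S.ne z zS
  obtain ⟨w2, p, x, q, T⟩ := H.ts hz hw
  have hz'w : z' ∈ c' w := (H.S.dual _ _).1 (h' ▸ hw)
  obtain ⟨z'S, tz', -⟩ := H.ch (T.wS H) hz'w
  have tw := T.tw H
  have hDJ' : DJ c t Sd z' := ⟨z'S, by omega, by rw [h']; exact cz2, by rw [h']; exact hd⟩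
  have hle : e z' ≤ e z := by
    unfold lt at hlt
    omega
  have hlow : low c e rk z' := ⟨z, h'.symm, hne.symm, by omega, hlt⟩
  have b0 : ∑ w ∈ c z', pc c c' e t Sd BG f w z' = 0 := by
    apply sum_eq_zero
    intro y hy
    exact H.flow hf ((H.S.dual _ _).1 hy) hDJ' hlow
  have b1 := H.fle hf (T.z_mem H) cz2
  have b2 := H.fle hf (T.symm.z_mem H) cz2
  have tp : (0 : ℤ) ≤ (if TWp c e t Sd z then 1 else 0) := by split_ifs <;> omega
  have tq : (0 : ℤ) ≤ (if TWq c c' e t Sd z then 1 else 0) := by split_ifs <;> omega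
  have b3 := H.twins T (by rw [h', T.cz]) hne h1 hle
    (k := (if TWp c e t Sd z then 1 else 0) + (if TWq c c' e t Sd z then 1 else 0))
    (by omega) (by
      intro h2 h3
      have hp' : TWp c e t Sd z := ⟨hz, h2, z', h', hne, h1, h3⟩
      rw [if_pos hp']
      omega) (by
      intro x1 x2 x3 x4 x5 x6
      have hkz : kl c e z := ⟨w, T.w_mem H, by omega⟩
      have hkz' : ¬ kl c e z' := by
        rw [kl_two H.S (by rw [h', T.cz] : c z' = {w, w2}) T.ne]
        omega
      have hp : TWp c e t Sd z := ⟨hz, hkz, z', h', hne, h1, hkz'⟩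
      have k1 := H.kill (T.wS H) (T.z_mem H) (by omega)
      have k2 := H.kill (T.symm.wS H) (T.symm.z_mem H) (by omega)
      have y1 := k1 x (T.x_mem H)
      have y2 := k1 p (T.p_mem H)
      have y3 := k2 q (T.symm.p_mem H)
      have hcz : c z = {w, w2} := T.cz
      have np : ∀ v ∈ c' p, v ∉ c z → e v = 0 := by
        intro v hv hvz
        by_contra h0
        have : nk c' e w p = 0 := nk_zero ⟨v, hv, fun h => hvz (h ▸ T.w_mem H), by omega⟩
        omega
      have nq : ∀ v ∈ c' q, v ∉ c z → e v = 0 := by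
        intro v hv hvz
        by_contra h0
        have : nk c' e w2 q = 0 := nk_zero ⟨v, hv, fun h => hvz (h ▸ T.symm.w_mem H), by omega⟩
        omega
      have nx : ∀ v ∈ c' x, v ∉ c z → e v = 0 := by
        intro v hv hvz
        rw [T.dx, ← T.cz] at hv
        exact absurd hv hvz
      have hq : TWq c c' e t Sd z := by
        refine ⟨hp, x1, ?_, ?_⟩
        · intro z'' h3 h4
          have := H.twin_unique (z := z) ⟨w, T.w_mem H⟩ h3 h' h4 hne
          rw [this]
          exact x2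
        · intro y hy
          rw [hcz, mem_insert, mem_singleton] at hy
          rcases hy with rfl | rfl
          · refine ⟨x3, ?_⟩
            intro y hy
            rw [T.cw, mem_insert, mem_singleton] at hy
            rcases hy with rfl | rfl
            · exact ⟨by omega, np⟩
            · exact ⟨by omega, nx⟩
          · refine ⟨x4, ?_⟩
            intro y hy
            rw [T.cw2, mem_insert, mem_singleton] at hy
            rcases hy with rfl | rfl
            · exact ⟨by omega, nx⟩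
            · exact ⟨by omega, nq⟩
      rw [if_pos hp, if_pos hq]
      omega)
  have b4 : ∑ w ∈ c z, pc c c' e t Sd BG f w z =
      pc c c' e t Sd BG f w z + pc c c' e t Sd BG f w2 z :=
    sum_pair H T.cz T.ne (fun w => pc c c' e t Sd BG f w z)
  rw [b0, b4]
  omega

/-- the sum over the elements at distance two -/
lemma Hyp.sum_two (hr : ∀ y z, rk y = rk z → y = z) (hf : FH c c' e t Sd BG rk f) :
    ∑ z ∈ T2 t Sd, ∑ w ∈ c z, pc c c' e t Sd BG f w z ≤
      ∑ z ∈ T2 t Sd, (sv c c' e z + ∑ w ∈ c z, gp c e t Sd BG w z +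
      ∑ u ∈ c' z, r3 c c' e t z u + ∑ s ∈ c z, ns c c' e t Sd s) +
      ((TW c e t Sd).card + (TWx c c' e t Sd).card) + 4 * EX.card := by
  classical
  obtain ⟨X, hX⟩ : ∃ X : P → ℤ, X = fun z => ∑ w ∈ c z, pc c c' e t Sd BG f w z := ⟨_, rfl⟩
  obtain ⟨Y, hY⟩ : ∃ Y : P → ℤ, Y = fun z => (sv c c' e z + ∑ w ∈ c z, gp c e t Sd BG w z +
      ∑ u ∈ c' z, r3 c c' e t z u + ∑ s ∈ c z, ns c c' e t Sd s) := ⟨_, rfl⟩
  suffices hs : ∑ z ∈ T2 t Sd, X z ≤ ∑ z ∈ T2 t Sd, Y z +
      ((TW c e t Sd).card + (TWx c c' e t Sd).card) + 4 * EX.card by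
    rw [hX, hY] at hs
    exact hs
  -- the partition
  obtain ⟨G, hG⟩ : ∃ G, G = (T2 t Sd).filter (fun z => DJ c t Sd z ∧ 1 ≤ e z ∧ upp c e rk z) :=
    ⟨_, rfl⟩
  obtain ⟨L, hL⟩ : ∃ L, L = (T2 t Sd).filter (fun z => DJ c t Sd z ∧ 1 ≤ e z ∧ low c e rk z) :=
    ⟨_, rfl⟩
  obtain ⟨B, hB⟩ : ∃ B, B = (T2 t Sd).filter
      (fun z => ¬ (DJ c t Sd z ∧ 1 ≤ e z ∧ (low c e rk z ∨ upp c e rk z))) := ⟨_, rfl⟩
  have hDne : ∀ z, DJ c t Sd z → (c z).Nonempty := fun z h => H.S.ne z h.1
  have hGL : ∀ z, z ∈ G → z ∉ L := by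
    intro z h1 h2
    rw [hG, mem_filter] at h1
    rw [hL, mem_filter] at h2
    obtain ⟨-, hd, -, a, a1, a2, a3, a4⟩ := h1
    obtain ⟨-, -, -, b, b1, b2, b3, b4⟩ := h2
    have := H.twin_unique (hDne z hd) a1 b1 a2 b2
    subst this
    exact lt_asymm a4 b4
  have split : ∀ F : P → ℤ, ∑ z ∈ T2 t Sd, F z = ∑ z ∈ B, F z + ∑ z ∈ G, F z + ∑ z ∈ L, F z := by
    intro F
    rw [← sum_filter_not_add_sum_filter (T2 t Sd)
      (fun z => (DJ c t Sd z ∧ 1 ≤ e z ∧ (low c e rk z ∨ upp c e rk z))) F, ← hB, add_assoc,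
      ← sum_union (disjoint_left.2 hGL)]
    congr 1
    apply sum_congr _ (fun _ _ => rfl)
    ext z
    rw [hG, hL]
    simp only [mem_filter, mem_union]
    tauto
  obtain ⟨tw, htw⟩ : ∃ tw : P → P, ∀ z, (∃ z', c z' = c z ∧ z' ≠ z ∧ 1 ≤ e z') →
      (c (tw z) = c z ∧ tw z ≠ z ∧ 1 ≤ e (tw z)) := by
    have : ∀ z, ∃ y, (∃ z', c z' = c z ∧ z' ≠ z ∧ 1 ≤ e z') →
        (c y = c z ∧ y ≠ z ∧ 1 ≤ e y) := by
      intro z
      by_cases h : ∃ z', c z' = c z ∧ z' ≠ z ∧ 1 ≤ e z'
      · obtain ⟨y, hy⟩ := h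
        exact ⟨y, fun _ => hy⟩
      · exact ⟨z, fun h' => absurd h' h⟩
    choose tw htw using this
    exact ⟨tw, htw⟩
  have hGt : ∀ z ∈ G, DJ c t Sd z ∧ 1 ≤ e z ∧ c (tw z) = c z ∧ tw z ≠ z ∧ 1 ≤ e (tw z) ∧
      lt e rk (tw z) z := by
    intro z h1
    rw [hG, mem_filter] at h1
    obtain ⟨-, hd, h2, a, a1, a2, a3, a4⟩ := h1
    obtain ⟨b1, b2, b3⟩ := htw z ⟨a, a1, a2, a3⟩
    have := H.twin_unique (hDne z hd) a1 b1 a2 b2
    rw [this] at a4
    exact ⟨hd, h2, b1, b2, b3, a4⟩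
  have hLG : ∀ F : P → ℤ, ∑ z ∈ L, F z = ∑ z ∈ G, F (tw z) := by
    intro F
    symm
    apply sum_nbij tw
    · intro z hz
      obtain ⟨d1, d2, d3, d4, d5, d6⟩ := hGt z hz
      obtain ⟨w, hw⟩ := hDne z d1
      have hwS := H.cov d1.1 (by rw [d1.2.1]) hw
      obtain ⟨y1, y2, -⟩ := H.ch hwS.1 ((H.S.dual _ _).1 (d3.symm ▸ hw) : tw z ∈ c' w)
      have y3 : t (tw z) = 2 := by
        have := d1.2.1
        omega
      rw [hL, mem_filter, mem_T2]
      exact ⟨⟨y1, y3⟩, ⟨y1, y3, by rw [d3]; exact d1.2.2.1, by rw [d3]; exact d1.2.2.2⟩, d5,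
        z, d3.symm, d4.symm, d2, d6⟩
    · intro z hz y hy hzy
      obtain ⟨d1, d2, d3, d4, d5, d6⟩ := hGt z hz
      obtain ⟨f1, f2, f3, f4, f5, f6⟩ := hGt y hy
      rw [hzy] at d3 d4
      exact H.twin_unique (z := tw y) (by rw [f3]; exact hDne y f1) d3.symm f3.symm d4.symm f4.symm
    · intro y hy
      rw [mem_coe, hL, mem_filter, mem_T2] at hy
      obtain ⟨⟨y1, y2⟩, yD, y3, z, z1, z2, z3, z4⟩ := hy
      obtain ⟨w, hw⟩ := hDne y yD
      have hwS := H.cov y1 (by rw [y2]) hw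
      obtain ⟨x1, x2, -⟩ := H.ch hwS.1 ((H.S.dual _ _).1 (z1.symm ▸ hw) : z ∈ c' w)
      have x3 : t z = 2 := by omega
      have hzG : z ∈ G := by
        rw [hG, mem_filter, mem_T2]
        exact ⟨⟨x1, x3⟩, ⟨x1, x3, by rw [z1]; exact yD.2.2.1, by rw [z1]; exact yD.2.2.2⟩, z3,
          y, z1.symm, z2.symm, y3, z4⟩
      refine ⟨z, hzG, ?_⟩
      obtain ⟨d1, d2, d3, d4, d5, d6⟩ := hGt z hzG
      exact H.twin_unique (z := z) (hDne z d1) d3 z1.symm d4 z2.symm
    · intro z hz
      rfl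
  rw [split X, split Y, hLG X, hLG Y]
  have k1 : ∑ z ∈ B, X z ≤ ∑ z ∈ B, (Y z + 4 * (if z ∈ EX then 1 else 0)) := by
    apply sum_le_sum
    intro z hz
    rw [hB, mem_filter, mem_T2] at hz
    rw [hX, hY]
    exact H.at_two hr hf hz.1.1 hz.1.2 hz.2
  have k4 : ∑ z ∈ B, (4 * (if z ∈ EX then (1 : ℤ) else 0)) ≤ 4 * EX.card := by
    rw [← mul_sum, sum_boole]
    have : (B.filter (fun z => z ∈ EX)).card ≤ EX.card := by
      apply card_le_card
      intro z hz
      exact (mem_filter.1 hz).2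
    omega
  have k2 : ∑ z ∈ G, (X z + X (tw z)) ≤ ∑ z ∈ G, (Y z + Y (tw z) +
      ((if TWp c e t Sd z then 1 else 0) + (if TWq c c' e t Sd z then 1 else 0))) := by
    apply sum_le_sum
    intro z hz
    obtain ⟨d1, d2, d3, d4, d5, d6⟩ := hGt z hz
    rw [hX, hY]
    exact H.at_pair hf d1 d3 d4 d5 d6
  have k3 : ∑ z ∈ G, ((if TWp c e t Sd z then (1 : ℤ) else 0) +
      (if TWq c c' e t Sd z then (1 : ℤ) else 0)) ≤
      ((TW c e t Sd).card + (TWx c c' e t Sd).card) := by
    rw [sum_add_distrib, sum_boole, sum_boole]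
    have h1 : (G.filter (fun z => TWp c e t Sd z)).card ≤ (TW c e t Sd).card := by
      apply card_le_card
      intro z hz
      rw [mem_filter] at hz
      unfold TW
      rw [mem_filter]
      exact ⟨hz.2.1.1, hz.2⟩
    have h2 : (G.filter (fun z => TWq c c' e t Sd z)).card ≤ (TWx c c' e t Sd).card := by
      apply card_le_card
      intro z hz
      rw [mem_filter] at hz
      unfold TWx
      rw [mem_filter]
      exact ⟨hz.2.1.1.1, hz.2⟩
    omega
  rw [sum_add_distrib, sum_add_distrib] at k2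
  have k5 : ∑ z ∈ G, (Y z + Y (tw z)) = ∑ z ∈ G, Y z + ∑ z ∈ G, Y (tw z) := sum_add_distrib
  rw [k5] at k2
  rw [sum_add_distrib] at k1
  omega

/-- an element at distance three can also pay to the double element above its cover -/
lemma Hyp.at_T3 {u : P} (hu : u ∈ T3 t Sd) :
    (open Classical in
    ∑ z ∈ c u, r3 c c' e t z u + 2 * (((P1 c c' e t Sd BG).filter
      (fun y => RQ c c' e t Sd BG u y)).card : ℤ) ≤ sv c c' e u) := by
  classical
  rw [mem_T3] at hu
  by_cases hne : ((P1 c c' e t Sd BG).filter (fun y => RQ c c' e t Sd BG u y)).Nonempty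
  · obtain ⟨y, hy⟩ := hne
    have hR := (mem_filter.1 hy).2
    have hcard : ((P1 c c' e t Sd BG).filter (fun y => RQ c c' e t Sd BG u y)).card ≤ 1 := by
      rw [card_le_one]
      intro a ha b hb
      obtain ⟨a1, -, -, -, -, a5⟩ := (mem_filter.1 ha).2
      obtain ⟨b1, -, -, -, ⟨p, b2, b3, b4⟩, b5⟩ := (mem_filter.1 hb).2
      exact (a5 b b1 p b2 b3 b4).symm
    have h1 : e u = 1 := hR.2.2.2.1
    have hkl : ¬ kl c e u := by
      intro hkl
      have := K2.t_le_of_kl H.S H.adm _ u hu.1 hkl rfl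
      omega
    rw [sv_not_kl hkl, sum_eq_zero]
    · push_cast
      omega
    · intro z _
      unfold r3
      rw [if_neg (by omega)]
  · rw [not_nonempty_iff_eq_empty] at hne
    rw [hne, card_empty]
    have := H.three hu.1 hu.2
    push_cast
    omega

/-- the facts about `P1s` -/
lemma Hyp.P1s_spec {y : P} (hy : y ∈ P1s c c' e t Sd BG) {p q : P} (hp : p ∈ c' y) (h1 : 1 ≤ e p)
    (hq : q ∈ c' p) (h2 : 1 ≤ e q) :
    ∃ y' ∈ P1 c c' e t Sd BG, y' ≠ y ∧ ∃ p' ∈ c q, y' ∈ c p' ∧ 1 ≤ e p' := by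
  classical
  unfold P1s at hy
  rw [mem_filter] at hy
  obtain ⟨hy, hno⟩ := hy
  have hy' := hy
  unfold P1 at hy'
  rw [mem_filter, mem_Dd] at hy'
  obtain ⟨⟨yS, yB, ty, cy⟩, hN, hsum⟩ := hy'
  obtain ⟨pS, tp, yp⟩ := H.ch yS hp
  obtain ⟨qS, tq, pq⟩ := H.ch pS hq
  have h3 : e p ≤ ∑ z ∈ c' y, e z := single_le_sum (f := fun z => e z) (fun _ _ => Nat.zero_le _) hp
  have h4 := H.pos yS hp h1
  have h5 := H.le_of_gu pS hq yp (by omega)
  by_contra hcon
  push Not at hcon
  refine hno q ⟨hy, qS, by omega, by omega, ⟨p, pq, yp, h1⟩, ?_⟩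
  intro y' hy' p' hp' h6 h7
  by_contra hne
  have := hcon y' hy' hne p' hp' h6
  omega

/-- the inequality on one side -/
theorem Hyp.side (hr : ∀ y z, rk y = rk z → y = z) :
    -2 * (((N4 c c' e t Sd BG).card : ℤ) + (P1s c c' e t Sd BG).card) -
      ((TW c e t Sd).card + (TWx c c' e t Sd).card) - 4 * EX.card ≤
        ∑ z ∈ Sd \ BG, sv c c' e z := by
  classical
  obtain ⟨f, hf⟩ := H.exists_f hr
  -- decomposition
  have dec : ∑ z ∈ Sd \ BG, sv c c' e z = ∑ z ∈ Dd c t Sd BG, sv c c' e z +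
      ∑ z ∈ Sn c t Sd, sv c c' e z + ∑ z ∈ T2 t Sd, sv c c' e z + ∑ z ∈ T3 t Sd, sv c c' e z +
      ∑ z ∈ T4 t Sd, sv c c' e z := by
    have hbg : ∀ z ∈ BG, t z = 1 ∧ (c z).card = 2 := fun z hz => ⟨(H.bgt z hz).2.1, (H.bgt z hz).2.2⟩
    have e1 : Dd c t Sd BG = (Sd \ BG).filter (fun z => t z = 1 ∧ (c z).card = 2) := by
      ext z
      rw [mem_Dd, mem_filter, mem_sdiff]
      tauto
    have e2 : Sn c t Sd = (Sd \ BG).filter (fun z => t z = 1 ∧ (c z).card = 1) := by
      ext z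
      rw [mem_Sn, mem_filter, mem_sdiff]
      constructor
      · rintro ⟨a, b, d⟩
        refine ⟨⟨a, fun h => ?_⟩, b, d⟩
        have := (hbg z h).2
        omega
      · rintro ⟨⟨a, -⟩, b, d⟩
        exact ⟨a, b, d⟩
    have e3 : T2 t Sd = (Sd \ BG).filter (fun z => t z = 2) := by
      ext z
      rw [mem_T2, mem_filter, mem_sdiff]
      constructor
      · rintro ⟨a, b⟩
        refine ⟨⟨a, fun h => ?_⟩, b⟩
        have := (hbg z h).1
        omega
      · rintro ⟨⟨a, -⟩, b⟩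
        exact ⟨a, b⟩
    have e4 : T3 t Sd = (Sd \ BG).filter (fun z => t z = 3) := by
      ext z
      rw [mem_T3, mem_filter, mem_sdiff]
      constructor
      · rintro ⟨a, b⟩
        refine ⟨⟨a, fun h => ?_⟩, b⟩
        have := (hbg z h).1
        omega
      · rintro ⟨⟨a, -⟩, b⟩
        exact ⟨a, b⟩
    have e5 : T4 t Sd = (Sd \ BG).filter (fun z => 4 ≤ t z) := by
      ext z
      unfold T4
      rw [mem_filter, mem_filter, mem_sdiff]
      constructor
      · rintro ⟨a, b⟩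
        refine ⟨⟨a, fun h => ?_⟩, b⟩
        have := (hbg z h).1
        omega
      · rintro ⟨⟨a, -⟩, b⟩
        exact ⟨a, b⟩
    rw [e1, e2, e3, e4, e5]
    simp only [sum_filter]
    rw [← sum_add_distrib, ← sum_add_distrib, ← sum_add_distrib, ← sum_add_distrib]
    apply sum_congr rfl
    intro z hz
    rw [mem_sdiff] at hz
    have h1 := H.S.tS z hz.1
    have h2 := H.S.c2 z
    have h3 : 1 ≤ (c z).card := card_pos.2 (H.S.ne z hz.1)
    by_cases t1 : t z = 1
    · by_cases c1 : (c z).card = 1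
      · rw [if_neg (by omega), if_pos ⟨t1, c1⟩, if_neg (by omega), if_neg (by omega),
          if_neg (by omega)]
        ring
      · rw [if_pos ⟨t1, by omega⟩, if_neg (by omega), if_neg (by omega), if_neg (by omega),
          if_neg (by omega)]
        ring
    · by_cases t2 : t z = 2
      · rw [if_neg (by omega), if_neg (by omega), if_pos t2, if_neg (by omega), if_neg (by omega)]
        ring
      · by_cases t3 : t z = 3
        · rw [if_neg (by omega), if_neg (by omega), if_neg (by omega), if_pos t3,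
            if_neg (by omega)]
          ring
        · rw [if_neg (by omega), if_neg (by omega), if_neg (by omega), if_neg (by omega),
            if_pos (by omega)]
          ring
  -- local inequalities
  have i1 := sum_le_sum (fun w hw => H.at_D hf (w := w) hw)
  have i2 := sum_le_sum (fun s hs => H.at_S (s := s) hs)
  have i3 := H.sum_two hr hf
  have i4 := sum_le_sum (fun u hu => H.at_T3 (u := u) hu)
  have i5 : 0 ≤ ∑ z ∈ T4 t Sd, sv c c' e z := by
    apply sum_nonneg
    intro z hz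
    unfold T4 at hz
    rw [mem_filter] at hz
    exact sv_far H.S H.adm hz.1 (by omega)
  -- double counting
  have j1 : ∑ z ∈ T2 t Sd, ∑ w ∈ c z, pc c c' e t Sd BG f w z =
      ∑ w ∈ Dd c t Sd BG, ∑ z ∈ c' w, pc c c' e t Sd BG f w z := by
    apply dcount (F := fun w z => pc c c' e t Sd BG f w z) H.S.dual
    · intro z hz w hw h
      exact H.f_out h
    · intro w hw z hz h
      exfalso
      obtain ⟨a1, a2, a3, a4⟩ := mem_Dd.1 hw
      obtain ⟨b1, b2, -⟩ := H.ch a1 hz
      exact h (mem_T2.2 ⟨b1, by omega⟩)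
  have j2 : ∑ z ∈ T2 t Sd, ∑ w ∈ c z, gp c e t Sd BG w z =
      ∑ w ∈ Dd c t Sd BG, ∑ z ∈ c' w, gp c e t Sd BG w z := by
    apply dcount (F := fun w z => gp c e t Sd BG w z) H.S.dual
    · intro z hz w hw h
      unfold gp
      rw [if_neg (fun h2 => h h2.2.2)]
    · intro w hw z hz h
      exfalso
      obtain ⟨a1, a2, a3, a4⟩ := mem_Dd.1 hw
      obtain ⟨b1, b2, -⟩ := H.ch a1 hz
      exact h (mem_T2.2 ⟨b1, by omega⟩)
  have j3 : ∑ u ∈ T3 t Sd, ∑ z ∈ c u, r3 c c' e t z u =
      ∑ z ∈ T2 t Sd, ∑ u ∈ c' z, r3 c c' e t z u := by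
    apply dcount (F := fun z u => r3 c c' e t z u) H.S.dual
    · intro u hu z hz h
      exfalso
      rw [mem_T3] at hu
      obtain ⟨b1, b2⟩ := H.cov hu.1 (by omega) hz
      exact h (mem_T2.2 ⟨b1, by omega⟩)
    · intro z hz u hu h
      exfalso
      rw [mem_T2] at hz
      obtain ⟨b1, b2, -⟩ := H.ch hz.1 hu
      exact h (mem_T3.2 ⟨b1, by omega⟩)
  have j4 : ∑ z ∈ T2 t Sd, ∑ s ∈ c z, ns c c' e t Sd s =
      ∑ s ∈ Sn c t Sd, ∑ _z ∈ c' s, ns c c' e t Sd s := by
    apply dcount (F := fun s _ => ns c c' e t Sd s) H.S.dual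
    · intro z hz s hs h
      unfold ns
      rw [if_neg]
      rintro ⟨h1, -⟩
      exact h (mem_Sn.2 h1)
    · intro s hs z hz h
      exfalso
      obtain ⟨a1, a2, a3⟩ := mem_Sn.1 hs
      obtain ⟨b1, b2, -⟩ := H.ch a1 hz
      exact h (mem_T2.2 ⟨b1, by omega⟩)
  have j5 : ∑ s ∈ Sn c t Sd, (((Dd c t Sd BG).filter (fun w => SKr c c' e s w)).card : ℤ) =
      ∑ w ∈ Dd c t Sd BG, (((Sn c t Sd).filter (fun s => SKr c c' e s w)).card : ℤ) := by
    simp only [← sum_boole]
    rw [sum_comm]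
  have n4 : ∑ w ∈ Dd c t Sd BG, (2 * (if sv c c' e w = -4 ∧ gu c e w then (1 : ℤ) else 0)) =
      2 * (N4 c c' e t Sd BG).card := by
    rw [← mul_sum, sum_boole]
    rfl
  have p1 : ∑ w ∈ Dd c t Sd BG, (2 * (if N4a c c' e w ∧ ∑ z ∈ c' w, e z = 1 then (1 : ℤ) else 0)) =
      2 * (P1 c c' e t Sd BG).card := by
    rw [← mul_sum, sum_boole]
    rfl
  have p1s : ((P1 c c' e t Sd BG).card : ℤ) ≤ (P1s c c' e t Sd BG).card +
      ∑ u ∈ T3 t Sd, (((P1 c c' e t Sd BG).filter (fun y => RQ c c' e t Sd BG u y)).card : ℤ) := by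
    have h1 : ((P1s c c' e t Sd BG).card : ℤ) =
        ∑ y ∈ P1 c c' e t Sd BG, (if ∀ q, ¬ RQ c c' e t Sd BG q y then (1 : ℤ) else 0) := by
      rw [sum_boole]
      rfl
    have h2 : ∑ u ∈ T3 t Sd, (((P1 c c' e t Sd BG).filter
        (fun y => RQ c c' e t Sd BG u y)).card : ℤ) =
        ∑ y ∈ P1 c c' e t Sd BG, (((T3 t Sd).filter (fun u => RQ c c' e t Sd BG u y)).card : ℤ) := by
      simp only [← sum_boole]
      rw [sum_comm]
    rw [h1, h2, ← sum_add_distrib]
    calc ((P1 c c' e t Sd BG).card : ℤ) = ∑ y ∈ P1 c c' e t Sd BG, (1 : ℤ) := by simp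
      _ ≤ _ := by
        apply sum_le_sum
        intro y hy
        by_cases h : ∀ q, ¬ RQ c c' e t Sd BG q y
        · rw [if_pos h]
          omega
        · rw [if_neg h]
          push Not at h
          obtain ⟨q, hq⟩ := h
          have : 0 < ((T3 t Sd).filter (fun u => RQ c c' e t Sd BG u y)).card :=
            card_pos.2 ⟨q, mem_filter.2 ⟨mem_T3.2 ⟨hq.2.1, hq.2.2.1⟩, hq⟩⟩
          omega
  simp only [sum_add_distrib] at i1 i2 i3 i4
  rw [← mul_sum] at i4
  rw [dec]
  omega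

end basic

end Pool.Agent.GaussPoset.Win.Rd

end

/-! From `Pool.Agent.W_448rd_h10.RdF` -/

section

/-!
MP_448cb3_co, G2, window `j - 1`: the inequality for reduced cores, both sides.  helper10.
-/

namespace Pool.Agent.GaussPoset.Win.Rd

set_option linter.unusedSectionVars false

open Finset I2 K2
open Pool.Agent.GaussPoset.Win.H2 (SdT NoT low_T up_T sum_all)
open Pool.Agent.GaussPoset.Win.Xg (CanD Can Tee Exo SdO Act laL laU)

universe u

variable {P : Type u} [Fintype P] [PartialOrder P] [DecidableEq P] {r i : ℕ} {e : P → ℕ}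
variable {psi : P → P}

section defs

open Classical in
/-- double lower elements, positive together with their partner -/
noncomputable def BGL (i : ℕ) (psi : P → P) (e : P → ℕ) : Finset P :=
  (dbL P i).filter (fun y => 1 ≤ e y ∧ 1 ≤ e (psi y))

open Classical in
/-- double upper elements, positive together with their partner -/
noncomputable def BGU (i : ℕ) (psi : P → P) (e : P → ℕ) : Finset P :=
  (dbU P i).filter (fun y => 1 ≤ e y ∧ 1 ≤ e (psi y))

lemma mem_BGL {y : P} : y ∈ BGL i psi e ↔ (lev y = i + 1 ∧ (uc y).card = 2) ∧ 1 ≤ e y ∧ 1 ≤ e (psi y) := by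
  unfold BGL
  rw [mem_filter, mem_dbL']

lemma mem_BGU {y : P} : y ∈ BGU i psi e ↔ (lev y + 1 = i ∧ (dc y).card = 2) ∧ 1 ≤ e y ∧ 1 ≤ e (psi y) := by
  unfold BGU
  rw [mem_filter, mem_dbU']

open Classical in
/-- double joins below which a killer of level `i + 3` joins them with a pendant -/
noncomputable def NFL (i : ℕ) (e : P → ℕ) : Finset P :=
  (lS P i).filter (fun z => lev z = i + 2 ∧ (uc z).card = 2 ∧ kl uc e z ∧
    ∃ u ∈ dc z, 1 ≤ e u ∧ kl uc e u ∧ ∃ z2 ∈ uc u, z2 ≠ z ∧ (uc z2).card = 1 ∧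
      ∀ w, w ∈ uc z → w ∉ uc z2)

open Classical in
/-- lower ends of exchangeable places -/
noncomputable def EXL (i : ℕ) (e : P → ℕ) : Finset P :=
  (lS P i).filter (fun z => (∃ x, (z, x) ∈ Xg.CC i e) ∨ z ∈ NFL i e)

open Classical in
/-- upper ends of exchangeable places -/
noncomputable def EXU (i : ℕ) (e : P → ℕ) : Finset P :=
  (uS P i).filter (fun z => ∃ x, (z, x) ∈ Xg.CC i e)

lemma ex_card : (EXL i e).card + (EXU i e).card ≤ (Xg.CC i e).card + (NFL i e).card := by
  classical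
  obtain ⟨A, hA⟩ : ∃ A : Finset P, A = (EXL i e).filter (fun z => ∃ x, (z, x) ∈ Xg.CC i e) :=
    ⟨_, rfl⟩
  have h0 : (EXL i e).card ≤ A.card + (NFL i e).card := by
    refine le_trans (card_le_card (t := A ∪ NFL i e) ?_) (card_union_le _ _)
    intro z hz
    rw [mem_union, hA, mem_filter]
    have h := hz
    unfold EXL at h
    rcases (mem_filter.1 h).2 with h | h
    · exact Or.inl ⟨hz, h⟩
    · exact Or.inr h
  have hd : Disjoint A (EXU i e) := by
    rw [disjoint_left]
    intro z h1 h2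
    rw [hA, mem_filter] at h1
    have h1 := h1.1
    unfold EXL at h1
    unfold EXU at h2
    rw [mem_filter, mem_lS] at h1
    rw [mem_filter, mem_uS] at h2
    omega
  suffices hs : A.card + (EXU i e).card ≤ (Xg.CC i e).card by omega
  rw [← card_union_of_disjoint hd]
  have : ∀ z, ∃ x, z ∈ A ∪ EXU i e → (z, x) ∈ Xg.CC i e := by
    intro z
    by_cases h : z ∈ A ∪ EXU i e
    · have : ∃ x, (z, x) ∈ Xg.CC i e := by
        rw [mem_union] at h
        rcases h with h | h
        · rw [hA] at h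
          exact (mem_filter.1 h).2
        · unfold EXU at h
          exact (mem_filter.1 h).2
      obtain ⟨x, hx⟩ := this
      exact ⟨x, fun _ => hx⟩
    · exact ⟨z, fun h' => absurd h' h⟩
  choose f hf using this
  apply card_le_card_of_injOn (fun z => (z, f z))
  · intro z hz
    exact hf z hz
  · intro z _ z' _ h
    exact (Prod.ext_iff.1 h).1

end defs

section inst

variable (G : GoodTo P r (i + 1)) (hT : NoT P (i + 2)) (hQ : NoQ P (i + 3)) (hM : Mat P i ∅ psi)
  (hL : AdmL i e) (hU : AdmU i e) (hd : Disjoint (AL i e) (AU i e)) (hc : IsCore i ∅ psi e)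

include hM in
lemma psiL {y : P} (h1 : lev y = i + 1) (h2 : (uc y).card = 2) :
    (lev (psi y) + 1 = i ∧ (dc (psi y)).card = 2) ∧ dc (psi y) = uc y ∧ psi (psi y) = y := by
  obtain ⟨a, b, d, -⟩ := psi_low hM (mem_dbL'.2 ⟨h1, h2⟩) (notMem_empty _)
  exact ⟨mem_dbU'.1 a, b, d⟩

include hM in
lemma psiU {y : P} (h1 : lev y + 1 = i) (h2 : (dc y).card = 2) :
    (lev (psi y) = i + 1 ∧ (uc (psi y)).card = 2) ∧ uc (psi y) = dc y ∧ psi (psi y) = y := by
  obtain ⟨a, b, d, -⟩ := psi_up hM (mem_dbU'.2 ⟨h1, h2⟩) (notMem_empty _)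
  exact ⟨mem_dbL'.1 a, b, d⟩

include hd in
lemma not_both {x y u : P} (hx : lev x = i) (hy : y ∈ dc x) (hu : u ∈ uc x) :
    ¬ (e x < e y ∧ e x < e u) := by
  rintro ⟨h1, h2⟩
  have h4 : x ∈ AL i e := by
    rw [NormD_mem_AL]
    exact ⟨hx, y, mem_dc.1 hy, h1⟩
  have h5 : x ∈ AU i e := by
    rw [NormD_mem_AU]
    exact ⟨hx, u, mem_uc.1 hu, h2⟩
  exact disjoint_left.1 hd h4 h5

include hM hd G in
lemma bgL {y : P} (hy : y ∈ BGL i psi e) : ∀ x ∈ uc y, 1 ≤ e x := by
  intro x hx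
  rw [mem_BGL] at hy
  obtain ⟨⟨h1, h2⟩, h3, h4⟩ := hy
  obtain ⟨p1, p2, p3⟩ := psiL hM h1 h2
  have hlx := lev_uc G.H hx
  have h5 : psi y ∈ uc x := by
    rw [mem_uc, ← mem_dc, p2]
    exact hx
  have := not_both (e := e) hd (by omega) (mem_dc.2 (mem_uc.1 hx)) h5
  omega

include hM hd G in
lemma bgU {y : P} (hy : y ∈ BGU i psi e) : ∀ x ∈ dc y, 1 ≤ e x := by
  intro x hx
  rw [mem_BGU] at hy
  obtain ⟨⟨h1, h2⟩, h3, h4⟩ := hy
  obtain ⟨p1, p2, p3⟩ := psiU hM h1 h2
  have hlx := lev_dc G.H hx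
  have h5 : psi y ∈ dc x := by
    rw [mem_dc, ← mem_uc, p2]
    exact hx
  have := not_both (e := e) hd (by omega) h5 (mem_uc.2 (mem_dc.1 hx))
  omega

include hM hU hc in
lemma touchL {y : P} (h1 : lev y = i + 1) (h2 : (uc y).card = 2) (hb : y ∉ BGL i psi e)
    (h3 : 1 ≤ e y) : ∃ z ∈ dc y, 1 ≤ e z := by
  classical
  by_contra hno
  push Not at hno
  obtain ⟨p1, p2, p3⟩ := psiL hM h1 h2
  have hy : y ∉ Rst i ∅ psi e := by
    intro h
    have := hc y h
    omega
  unfold Rst at hy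
  rw [mem_filter] at hy
  have hT1 : y ∉ Tch i e := by
    unfold Tch
    rw [mem_filter]
    rintro ⟨-, ⟨-, z, hz, hz2⟩ | ⟨h, -⟩⟩
    · have := hno z (mem_dc.2 hz)
      omega
    · omega
  have hT2 : psi y ∈ Tch i e := by
    by_contra hT2
    apply hy
    refine ⟨?_, notMem_empty _, hT1, fun h => hT2 h.2⟩
    unfold near
    rw [mem_filter]
    exact ⟨mem_univ _, Or.inl h1⟩
  unfold Tch at hT2
  rw [mem_filter] at hT2
  rcases hT2 with ⟨-, ⟨h, -⟩ | ⟨-, v, hv, hv2⟩⟩
  · omega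
  · apply hb
    rw [mem_BGL]
    refine ⟨⟨h1, h2⟩, h3, ?_⟩
    by_contra h0
    obtain ⟨a, ha⟩ : (dc (psi y)).Nonempty := card_pos.1 (by omega)
    exact hU (psi y) (by omega) ⟨⟨v, hv, by omega⟩, a, mem_dc.1 ha, by omega⟩

include hM hL hc in
lemma touchU {y : P} (h1 : lev y + 1 = i) (h2 : (dc y).card = 2) (hb : y ∉ BGU i psi e)
    (h3 : 1 ≤ e y) : ∃ z ∈ uc y, 1 ≤ e z := by
  classical
  by_contra hno
  push Not at hno
  obtain ⟨p1, p2, p3⟩ := psiU hM h1 h2
  have hy : y ∉ Rst i ∅ psi e := by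
    intro h
    have := hc y h
    omega
  unfold Rst at hy
  rw [mem_filter] at hy
  have hT1 : y ∉ Tch i e := by
    unfold Tch
    rw [mem_filter]
    rintro ⟨-, ⟨h, -⟩ | ⟨-, z, hz, hz2⟩⟩
    · omega
    · have := hno z (mem_uc.2 hz)
      omega
  have hT2 : psi y ∈ Tch i e := by
    by_contra hT2
    apply hy
    refine ⟨?_, notMem_empty _, hT1, fun h => hT2 h.2⟩
    unfold near
    rw [mem_filter]
    exact ⟨mem_univ _, Or.inr h1⟩
  unfold Tch at hT2
  rw [mem_filter] at hT2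
  rcases hT2 with ⟨-, ⟨-, v, hv, hv2⟩ | ⟨h, -⟩⟩
  · apply hb
    rw [mem_BGU]
    refine ⟨⟨h1, h2⟩, h3, ?_⟩
    by_contra h0
    obtain ⟨a, ha⟩ : (uc (psi y)).Nonempty := card_pos.1 (by omega)
    exact hL (psi y) (by omega) ⟨⟨v, hv, by omega⟩, a, mem_uc.1 ha, by omega⟩
  · omega

include G hT hQ hM hL hU hd hc in
/-- the lower side -/
lemma hypL : Hyp (P := P) uc dc e (fun x : P => lev x - i) (lv P i) (lS P i) (BGL i psi e)
    (EXL i e) where
  S := K2.side_low (i := i) G.H hT.noQ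
  adm := adm_low hL
  hT := low_T hT
  bgt := by
    intro y hy
    rw [mem_BGL] at hy
    rw [mem_lS]
    exact ⟨by omega, by omega, hy.1.2⟩
  bg := fun y hy => bgL G hM hd hy
  touch := by
    intro y hy ht h2 hb h1
    rw [mem_lS] at hy
    exact touchL hM hU hc (by omega) h2 hb h1
  share := by
    intro y hy y' hy' ht hne x hx x' hx' h1 h2
    rw [mem_lS] at hy
    have a1 := lev_uc G.H hx
    have a2 := lev_uc G.H h1
    exact ucv_uniq G (by omega) hne (by omega) (mem_uc.1 hx) (mem_uc.1 h1) (mem_uc.1 hx')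
      (mem_uc.1 h2)
  far := by
    intro u hu ht h2 z hz z2 hz2 hne h3 hkl hEX
    by_cases hw : ∃ w, w ∈ uc z ∧ w ∈ uc z2
    · exact Or.inl hw
    right
    rw [mem_lS] at hu
    have hlu : lev u = i + 3 := by omega
    have l1 := lev_uc G.H hz
    have l2 := lev_uc G.H hz2
    have hc2 : (uc z2).card = 1 := by
      have h4 := uc_card_le G.H z2
      have h5 : 1 ≤ (uc z2).card := card_pos.2 (uc_nonempty G.H (by omega))
      by_contra h6
      exact hw (hQ u hlu z hz z2 hz2 hne h3 (by omega))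
    refine ⟨hc2, fun hklu => hEX ?_⟩
    classical
    unfold EXL NFL
    rw [mem_filter, mem_filter]
    refine ⟨mem_lS.2 (by omega), Or.inr ⟨mem_lS.2 (by omega), by omega, h3, hkl, u,
      mem_dc.2 (mem_uc.1 hz), by omega, hklu, z2, hz2, hne.symm, hc2, ?_⟩⟩
    intro w hw1 hw2
    exact hw ⟨w, hw1, hw2⟩
  red := by
    intro z w w2 p x q T hEX hz hb1 hb2 htw hch s1 s2 ha
    have S := K2.side_low (i := i) G.H hT.noQ
    have hzS := mem_lS.1 T.zS
    have htz := T.tz
    have hwz : w ∈ uc z := by rw [T.cz]; simp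
    have hw2z : w2 ∈ uc z := by rw [T.cz]; simp
    have hxw : x ∈ uc w := by rw [T.cw]; simp
    have hxw2 : x ∈ uc w2 := by rw [T.cw2]; simp
    have l1 := lev_uc G.H hwz
    have l2 := lev_uc G.H hw2z
    have l3 := lev_uc G.H hxw
    have c1 : (uc w).card = 2 := by rw [T.cw, card_pair T.px]
    have c2 : (uc w2).card = 2 := by rw [T.cw2, card_pair T.xq]
    have pos : ∀ y : P, i < lev y → z ∈ dc y → 1 ≤ e y := by
      intro y hy hzy
      by_contra h0
      obtain ⟨a, ha⟩ := S.ne y (mem_lS.2 hy)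
      exact hL y hy ⟨⟨z, mem_dc.1 hzy, by omega⟩, a, mem_uc.1 ha, by omega⟩
    have e1 := pos w (by omega) (mem_dc.2 (mem_uc.1 hwz))
    have e2 := pos w2 (by omega) (mem_dc.2 (mem_uc.1 hw2z))
    have g1 : e (psi w) = 0 := by
      by_contra h
      exact hb1 (mem_BGL.2 ⟨⟨by omega, c1⟩, e1, by omega⟩)
    have g2 : e (psi w2) = 0 := by
      by_contra h
      exact hb2 (mem_BGL.2 ⟨⟨by omega, c2⟩, e2, by omega⟩)
    obtain ⟨p1, p2, p3⟩ := psiL hM (by omega : lev w = i + 1) c1
    obtain ⟨q1, q2, q3⟩ := psiL hM (by omega : lev w2 = i + 1) c2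
    have m1 : psi w ∈ uc x := by
      rw [mem_uc, ← mem_dc, p2]
      exact hxw
    have m2 : psi w2 ∈ uc x := by
      rw [mem_uc, ← mem_dc, q2]
      exact hxw2
    have hne : psi w ≠ psi w2 := by
      intro h
      apply T.ne
      rw [← p3, ← q3, h]
    have hux : uc x = {psi w, psi w2} := pair_eq_of (uc_card_le G.H x) m1 m2 hne
    have hu0 : ∀ u ∈ uc x, e u = 0 := by
      intro u hu
      rw [hux, mem_insert, mem_singleton] at hu
      rcases hu with rfl | rfl <;> assumption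
    have TT : Tee dc uc (laL i) z w w2 p x q :=
      ⟨by unfold laL; omega, T.cz, T.cw, T.cw2, T.dx, T.ne, T.px, T.xq, T.pq⟩
    have EE : Exo dc uc z w w2 p x q e := by
      refine ⟨hz, hch, ?_, s1, s2, ha⟩
      intro u hu
      rw [hu0 u hu]
      omega
    have hmem : (z, x) ∈ Xg.CC i e := by
      rw [Xg.mem_CC G.H]
      left
      refine ⟨w, w2, p, q, TT, EE, ?_⟩
      intro d' hd' hrk
      apply htw d' hd'
      rintro rfl
      exact lt_irrefl _ hrk
    apply hEX
    classical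
    unfold EXL
    exact mem_filter.2 ⟨T.zS, Or.inl ⟨x, hmem⟩⟩

include G hT hM hL hU hd hc in
/-- the upper side -/
lemma hypU : Hyp (P := P) dc uc e (fun x : P => i - lev x) (lv P i) (uS P i) (BGU i psi e)
    (EXU i e) where
  S := K2.side_up (i := i) G.H (by have := G.hr; omega) (fun m hm => G.good m (by omega))
  adm := adm_up hU
  hT := up_T G.H (by have := G.hr; omega) (fun m hm => G.good m (by omega))
  bgt := by
    intro y hy
    rw [mem_BGU] at hy
    rw [mem_uS]
    exact ⟨by omega, by omega, hy.1.2⟩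
  bg := fun y hy => bgU G hM hd hy
  touch := by
    intro y hy ht h2 hb h1
    rw [mem_uS] at hy
    exact touchU hM hL hc (by omega) h2 hb h1
  share := by
    intro y hy y' hy' ht hne x hx x' hx' h1 h2
    rw [mem_uS] at hy
    have a1 := lev_dc G.H hx
    have a2 := lev_dc G.H h1
    exact dcv_uniq G (by omega) hne (by omega) (mem_dc.1 hx) (mem_dc.1 h1) (mem_dc.1 hx')
      (mem_dc.1 h2)
  far := by
    intro u hu ht h2 z hz z2 hz2 hne h3 _ _
    left
    rw [mem_uS] at hu
    have S1 := I2.side_up (i := i - 1) G.H (by have := G.hr; omega)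
      (fun m hm => G.good m (by omega))
    exact S1.good u (mem_uS.2 (by omega)) (by omega) z hz z2 hz2 hne
  red := by
    intro z w w2 p x q T hEX hz hb1 hb2 htw hch s1 s2 ha
    have S := K2.side_up (i := i) G.H (by have := G.hr; omega) (fun m hm => G.good m (by omega))
    have hzS := mem_uS.1 T.zS
    have htz := T.tz
    have hwz : w ∈ dc z := by rw [T.cz]; simp
    have hw2z : w2 ∈ dc z := by rw [T.cz]; simp
    have hxw : x ∈ dc w := by rw [T.cw]; simp
    have hxw2 : x ∈ dc w2 := by rw [T.cw2]; simp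
    have l1 := lev_dc G.H hwz
    have l2 := lev_dc G.H hw2z
    have l3 := lev_dc G.H hxw
    have c1 : (dc w).card = 2 := by rw [T.cw, card_pair T.px]
    have c2 : (dc w2).card = 2 := by rw [T.cw2, card_pair T.xq]
    have pos : ∀ y : P, lev y < i → z ∈ uc y → 1 ≤ e y := by
      intro y hy hzy
      by_contra h0
      obtain ⟨a, ha⟩ := S.ne y (mem_uS.2 hy)
      exact hU y hy ⟨⟨z, mem_uc.1 hzy, by omega⟩, a, mem_dc.1 ha, by omega⟩
    have e1 := pos w (by omega) (mem_uc.2 (mem_dc.1 hwz))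
    have e2 := pos w2 (by omega) (mem_uc.2 (mem_dc.1 hw2z))
    have g1 : e (psi w) = 0 := by
      by_contra h
      exact hb1 (mem_BGU.2 ⟨⟨by omega, c1⟩, e1, by omega⟩)
    have g2 : e (psi w2) = 0 := by
      by_contra h
      exact hb2 (mem_BGU.2 ⟨⟨by omega, c2⟩, e2, by omega⟩)
    obtain ⟨p1, p2, p3⟩ := psiU hM (by omega : lev w + 1 = i) c1
    obtain ⟨q1, q2, q3⟩ := psiU hM (by omega : lev w2 + 1 = i) c2
    have m1 : psi w ∈ dc x := by
      rw [mem_dc, ← mem_uc, p2]
      exact hxw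
    have m2 : psi w2 ∈ dc x := by
      rw [mem_dc, ← mem_uc, q2]
      exact hxw2
    have hne : psi w ≠ psi w2 := by
      intro h
      apply T.ne
      rw [← p3, ← q3, h]
    have hux : dc x = {psi w, psi w2} := pair_eq_of (dc_card_le G.H x) m1 m2 hne
    have hu0 : ∀ u ∈ dc x, e u = 0 := by
      intro u hu
      rw [hux, mem_insert, mem_singleton] at hu
      rcases hu with rfl | rfl <;> assumption
    have TT : Tee uc dc (laU i) z w w2 p x q :=
      ⟨by unfold laU; omega, T.cz, T.cw, T.cw2, T.dx, T.ne, T.px, T.xq, T.pq⟩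
    have EE : Exo uc dc z w w2 p x q e := by
      refine ⟨hz, hch, ?_, s1, s2, ha⟩
      intro u hu
      rw [hu0 u hu]
      omega
    have hmem : (z, x) ∈ Xg.CC i e := by
      rw [Xg.mem_CC G.H]
      right
      refine ⟨w, w2, p, q, TT, EE, ?_⟩
      intro d' hd' hrk
      apply htw d' hd'
      rintro rfl
      exact lt_irrefl _ hrk
    apply hEX
    classical
    unfold EXU
    exact mem_filter.2 ⟨T.zS, x, hmem⟩

end inst

end Pool.Agent.GaussPoset.Win.Rd

end

/-! From `Pool.Agent.W_448rd_h10.RdG` -/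

section

/-!
MP_448cb3_co, G2, window `j - 1`: THE INEQUALITY FOR REDUCED CORES.  helper10.

`6 (|AL| + |AU|) ≤ 2 energy + 6 (pL + pU) + 2 (#P1 + #TW + #GS) + 4 #CC`
-/

namespace Pool.Agent.GaussPoset.Win.Rd

set_option linter.unusedSectionVars false

open Finset I2 K2
open Pool.Agent.GaussPoset.Win.H2 (SdT NoT low_T up_T sum_all)

universe u

variable {P : Type u} [Fintype P] [PartialOrder P] [DecidableEq P] {r i : ℕ} {e : P → ℕ}
variable {psi : P → P}

section defs

variable (i : ℕ) (psi : P → P) (e : P → ℕ)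

/-- lower elements with label one, one site killed alone, guarded by the other one -/
noncomputable def N4L : Finset P := N4 uc dc e (fun x : P => lev x - i) (lS P i) (BGL i psi e)

/-- upper elements with label one, one site killed alone, guarded by the other one -/
noncomputable def N4U : Finset P := N4 dc uc e (fun x : P => i - lev x) (uS P i) (BGU i psi e)

/-- lower elements with label one, both sites killed alone, one child of label one (without
positive children of its own) -/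
noncomputable def P1L : Finset P := P1s uc dc e (fun x : P => lev x - i) (lS P i) (BGL i psi e)

/-- upper elements with label one, both sites killed alone, one child of label one (without
positive children of its own) -/
noncomputable def P1U : Finset P := P1s dc uc e (fun x : P => i - lev x) (uS P i) (BGU i psi e)

/-- pairs of positive lower twins, one kills -/
noncomputable def TWL : Finset P := TW uc e (fun x : P => lev x - i) (lS P i)

/-- pairs of positive upper twins, one kills -/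
noncomputable def TWU : Finset P := TW dc e (fun x : P => i - lev x) (uS P i)

/-- pairs of positive lower twins, the exact pattern `2, 1, 1, 1` -/
noncomputable def TWLx : Finset P := TWx uc dc e (fun x : P => lev x - i) (lS P i)

/-- pairs of positive upper twins, the exact pattern `2, 1, 1, 1` -/
noncomputable def TWUx : Finset P := TWx dc uc e (fun x : P => i - lev x) (uS P i)

open Classical in
/-- sites with label one which guard two elements of `N4L`, `N4U` -/
noncomputable def GS : Finset P := (lv P i).filter (fun x => e x = 1 ∧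
  ∃ y y', y ≠ y' ∧ ((y ∈ N4L i psi e ∧ x ∈ uc y) ∨ (y ∈ N4U i psi e ∧ x ∈ dc y)) ∧
    ((y' ∈ N4L i psi e ∧ x ∈ uc y') ∨ (y' ∈ N4U i psi e ∧ x ∈ dc y')))

end defs

section main

variable (G : GoodTo P r (i + 1)) (hT : NoT P (i + 2)) (hQ : NoQ P (i + 3)) (hM : Mat P i ∅ psi)
  (hL : AdmL i e) (hU : AdmU i e) (hd : Disjoint (AL i e) (AU i e)) (hc : IsCore i ∅ psi e)

/-- the facts about `N4L` -/
lemma mem_N4L' {y : P} (h : y ∈ N4L i psi e) : (lev y = i + 1 ∧ (uc y).card = 2) ∧
    y ∉ BGL i psi e ∧ sv uc dc e y = -4 ∧ gu uc e y := by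
  classical
  unfold N4L N4 at h
  rw [mem_filter, mem_Dd, mem_lS] at h
  exact ⟨⟨by omega, h.1.2.2.2⟩, h.1.2.1, h.2⟩

lemma mem_N4U' {y : P} (h : y ∈ N4U i psi e) : (lev y + 1 = i ∧ (dc y).card = 2) ∧
    y ∉ BGU i psi e ∧ sv dc uc e y = -4 ∧ gu dc e y := by
  classical
  unfold N4U N4 at h
  rw [mem_filter, mem_Dd, mem_uS] at h
  exact ⟨⟨by omega, h.1.2.2.2⟩, h.1.2.1, h.2⟩

include G hT hQ hM hL hU hd hc in
lemma N4L_one {y : P} (h : y ∈ N4L i psi e) : e y = 1 := by
  have HL := hypL G hT hQ hM hL hU hd hc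
  obtain ⟨⟨h1, h2⟩, h3, h4, h5⟩ := mem_N4L' h
  obtain ⟨o, x, hox, hcw⟩ := card_eq_two.1 h2
  exact (HL.vals hcw hox (by omega)).2 h4

include G hT hM hL hU hd hc in
lemma N4U_one {y : P} (h : y ∈ N4U i psi e) : e y = 1 := by
  have HU := hypU G hT hM hL hU hd hc
  obtain ⟨⟨h1, h2⟩, h3, h4, h5⟩ := mem_N4U' h
  obtain ⟨o, x, hox, hcw⟩ := card_eq_two.1 h2
  exact (HU.vals hcw hox (by omega)).2 h4

include G hT hQ hM hL hU hd hc in
/-- the pairs in `BG` have no deficit -/
lemma bg_sum : 0 ≤ ∑ y ∈ BGL i psi e, sv uc dc e y + ∑ y ∈ BGU i psi e, sv dc uc e y := by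
  have HL := hypL G hT hQ hM hL hU hd hc
  have HU := hypU G hT hM hL hU hd hc
  have h1 : ∑ y ∈ BGU i psi e, sv dc uc e y = ∑ y ∈ BGL i psi e, sv dc uc e (psi y) := by
    symm
    apply sum_nbij' psi psi
    · intro y hy
      rw [mem_BGL] at hy
      obtain ⟨p1, p2, p3⟩ := psiL hM hy.1.1 hy.1.2
      rw [mem_BGU]
      exact ⟨p1, hy.2.2, by rw [p3]; exact hy.2.1⟩
    · intro y hy
      rw [mem_BGU] at hy
      obtain ⟨p1, p2, p3⟩ := psiU hM hy.1.1 hy.1.2
      rw [mem_BGL]
      exact ⟨p1, hy.2.2, by rw [p3]; exact hy.2.1⟩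
    · intro y hy
      rw [mem_BGL] at hy
      exact (psiL hM hy.1.1 hy.1.2).2.2
    · intro y hy
      rw [mem_BGU] at hy
      exact (psiU hM hy.1.1 hy.1.2).2.2
    · intro y _
      rfl
  rw [h1, ← sum_add_distrib]
  apply sum_nonneg
  intro y hy
  have hb := bgL G hM hd hy
  have hy' := hy
  rw [mem_BGL] at hy
  obtain ⟨⟨l1, l2⟩, l3, l4⟩ := hy
  obtain ⟨p1, p2, p3⟩ := psiL hM l1 l2
  have s1 := sv_ge (e := e) HL.S y
  have s2 := sv_ge (e := e) HU.S (psi y)
  by_cases k1 : kl uc e y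
  · obtain ⟨a, ha, hlt⟩ := k1
    have a1 := hb a ha
    by_cases k2 : kl dc e (psi y)
    · exfalso
      obtain ⟨b, hb', hlt'⟩ := k2
      have hla := lev_uc G.H ha
      have hb2 : b ∈ uc y := p2 ▸ hb'
      have hlb := lev_uc G.H hb2
      have n1 := not_both (e := e) hd (x := a) (by omega) (mem_dc.2 (mem_uc.1 ha))
        (u := psi y) (by rw [mem_uc, ← mem_dc, p2]; exact ha)
      have n2 := not_both (e := e) hd (x := b) (by omega) (mem_dc.2 (mem_uc.1 hb2))
        (u := psi y) (by rw [mem_uc, ← mem_dc]; exact hb')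
      omega
    · rw [sv_not_kl k2]
      omega
  · rw [sv_not_kl k1]
    by_cases k2 : kl dc e (psi y)
    · obtain ⟨b, hb', hlt'⟩ := k2
      have := hb b (p2 ▸ hb')
      omega
    · rw [sv_not_kl k2]
      omega

include G hT hQ hM hL hU hd hc in
/-- the guard sites pay -/
lemma n4_sum : ((N4L i psi e).card : ℤ) + (N4U i psi e).card ≤
    ∑ x ∈ lv P i, (e x : ℤ) + (GS i psi e).card := by
  classical
  have g1 : ∀ y, ∃ x, y ∈ N4L i psi e → x ∈ uc y ∧ 1 ≤ e x := by
    intro y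
    by_cases h : y ∈ N4L i psi e
    · obtain ⟨-, -, -, x, hx, hle⟩ := mem_N4L' h
      have := N4L_one G hT hQ hM hL hU hd hc h
      exact ⟨x, fun _ => ⟨hx, by omega⟩⟩
    · exact ⟨y, fun h' => absurd h' h⟩
  have g2 : ∀ y, ∃ x, y ∈ N4U i psi e → x ∈ dc y ∧ 1 ≤ e x := by
    intro y
    by_cases h : y ∈ N4U i psi e
    · obtain ⟨-, -, -, x, hx, hle⟩ := mem_N4U' h
      have := N4U_one G hT hM hL hU hd hc h
      exact ⟨x, fun _ => ⟨hx, by omega⟩⟩
    · exact ⟨y, fun h' => absurd h' h⟩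
  choose f hf using g1
  choose g hg using g2
  have s1 : ((N4L i psi e).card : ℤ) =
      ∑ x ∈ lv P i, (((N4L i psi e).filter (fun y => f y = x)).card : ℤ) := by
    rw [card_eq_sum_card_fiberwise (f := f) (t := lv P i)]
    · push_cast
      rfl
    · intro y hy
      have h1 := hf y hy
      have h2 := (mem_N4L' (mem_coe.1 hy)).1
      have := lev_uc G.H h1.1
      rw [mem_coe, mem_lv]
      omega
  have s2 : ((N4U i psi e).card : ℤ) =
      ∑ x ∈ lv P i, (((N4U i psi e).filter (fun y => g y = x)).card : ℤ) := by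
    rw [card_eq_sum_card_fiberwise (f := g) (t := lv P i)]
    · push_cast
      rfl
    · intro y hy
      have h1 := hg y hy
      have h2 := (mem_N4U' (mem_coe.1 hy)).1
      have := lev_dc G.H h1.1
      rw [mem_coe, mem_lv]
      omega
  have s3 : ((GS i psi e).card : ℤ) = ∑ x ∈ lv P i, (if x ∈ GS i psi e then (1 : ℤ) else 0) := by
    rw [sum_boole]
    congr 2
    ext x
    rw [mem_filter]
    constructor
    · intro h
      refine ⟨?_, h⟩
      unfold GS at h
      rw [mem_filter] at h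
      exact h.1
    · exact fun h => h.2
  rw [s1, s2, s3, ← sum_add_distrib, ← sum_add_distrib]
  apply sum_le_sum
  intro x hx
  obtain ⟨A, hA⟩ : ∃ A, A = (N4L i psi e).filter (fun y => f y = x) := ⟨_, rfl⟩
  obtain ⟨B, hB⟩ : ∃ B, B = (N4U i psi e).filter (fun y => g y = x) := ⟨_, rfl⟩
  rw [← hA, ← hB]
  have mA : ∀ y ∈ A, y ∈ N4L i psi e ∧ x ∈ uc y ∧ 1 ≤ e x := by
    intro y hy
    rw [hA, mem_filter] at hy
    have := hf y hy.1
    rw [hy.2] at this
    exact ⟨hy.1, this⟩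
  have mB : ∀ y ∈ B, y ∈ N4U i psi e ∧ x ∈ dc y ∧ 1 ≤ e x := by
    intro y hy
    rw [hB, mem_filter] at hy
    have := hg y hy.1
    rw [hy.2] at this
    exact ⟨hy.1, this⟩
  have inj : Set.InjOn psi (B : Set P) := by
    intro y hy y' hy' heq
    have h1 := (mem_N4U' (mB y hy).1).1
    have h2 := (mem_N4U' (mB y' hy').1).1
    rw [← (psiU hM h1.1 h1.2).2.2, ← (psiU hM h2.1 h2.2).2.2, heq]
  have hdisj : Disjoint A (B.image psi) := by
    rw [disjoint_left]
    intro y hy hy2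
    rw [mem_image] at hy2
    obtain ⟨u, hu, rfl⟩ := hy2
    obtain ⟨k1, -, k2⟩ := mB u hu
    obtain ⟨l1, -, -⟩ := mA _ hy
    have e1 := N4U_one G hT hM hL hU hd hc k1
    have e2 := N4L_one G hT hQ hM hL hU hd hc l1
    obtain ⟨m1, m2, -⟩ := mem_N4U' k1
    exact m2 (mem_BGU.2 ⟨m1, by omega, by omega⟩)
  have hsub : A ∪ B.image psi ⊆ dc x := by
    intro y hy
    rw [mem_union, mem_image] at hy
    rcases hy with hy | ⟨u, hu, rfl⟩
    · exact mem_dc.2 (mem_uc.1 (mA y hy).2.1)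
    · have h1 := (mem_N4U' (mB u hu).1).1
      have h2 := (psiU hM h1.1 h1.2).2.1
      rw [mem_dc, ← mem_uc, h2]
      exact (mB u hu).2.1
  have hcard : A.card + B.card ≤ 2 := by
    have h1 := card_le_card hsub
    rw [card_union_of_disjoint hdisj, card_image_of_injOn inj] at h1
    have := dc_card_le G.H x
    omega
  by_cases h2 : A.card + B.card ≤ e x
  · split_ifs <;> omega
  · have hpos : 1 ≤ e x := by
      by_contra h0
      have hA0 : A = ∅ := by
        by_contra hne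
        obtain ⟨y, hy⟩ := nonempty_iff_ne_empty.2 hne
        have := (mA y hy).2.2
        omega
      have hB0 : B = ∅ := by
        by_contra hne
        obtain ⟨y, hy⟩ := nonempty_iff_ne_empty.2 hne
        have := (mB y hy).2.2
        omega
      rw [hA0, hB0, card_empty] at h2
      omega
    have hx1 : e x = 1 ∧ A.card + B.card = 2 := by omega
    have hGS : x ∈ GS i psi e := by
      unfold GS
      rw [mem_filter]
      refine ⟨hx, hx1.1, ?_⟩
      rcases Nat.lt_or_ge 1 A.card with h3 | h3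
      · obtain ⟨y, hy, y', hy', hne⟩ := one_lt_card.1 h3
        exact ⟨y, y', hne, Or.inl ⟨(mA y hy).1, (mA y hy).2.1⟩,
          Or.inl ⟨(mA y' hy').1, (mA y' hy').2.1⟩⟩
      rcases Nat.lt_or_ge 1 B.card with h4 | h4
      · obtain ⟨y, hy, y', hy', hne⟩ := one_lt_card.1 h4
        exact ⟨y, y', hne, Or.inr ⟨(mB y hy).1, (mB y hy).2.1⟩,
          Or.inr ⟨(mB y' hy').1, (mB y' hy').2.1⟩⟩
      obtain ⟨y, hy⟩ := card_pos.1 (by omega : 0 < A.card)
      obtain ⟨y', hy'⟩ := card_pos.1 (by omega : 0 < B.card)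
      refine ⟨y, y', ?_, Or.inl ⟨(mA y hy).1, (mA y hy).2.1⟩,
        Or.inr ⟨(mB y' hy').1, (mB y' hy').2.1⟩⟩
      rintro rfl
      have k1 := (mem_N4L' (mA y hy).1).1.1
      have k2 := (mem_N4U' (mB y hy').1).1.1
      omega
    rw [if_pos hGS]
    omega

include G hT hQ hM hL hU hd hc in
/-- THE INEQUALITY FOR CORES, exact form -/
theorem generalx : 6 * (((AL i e).card : ℤ) + (AU i e).card) ≤
    2 * ∑ x, (e x : ℤ) + 6 * ((pL i e : ℤ) + pU i e) +
      2 * (((P1L i psi e).card : ℤ) + (P1U i psi e).card + (GS i psi e).card) +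
      (((TWL i e).card : ℤ) + (TWU i e).card + (TWLx i e).card + (TWUx i e).card) +
      4 * (((Xg.CC i e).card : ℤ) + (NFL i e).card) := by
  classical
  have HL := hypL G hT hQ hM hL hU hd hc
  have HU := hypU G hT hM hL hU hd hc
  have a1 := HL.side (rk := Xg.rk) (fun y z h => Xg.rk_inj h)
  have a2 := HU.side (rk := Xg.rk) (fun y z h => Xg.rk_inj h)
  have b1 := sum_sv HL.S HL.adm
  have b2 := sum_sv HU.S HU.adm
  rw [KD_low, fr_low] at b1
  rw [KD_up, fr_up] at b2
  have c1 := sum_sdiff (f := fun z => sv uc dc e z) (fun y hy => (HL.bgt y hy).1 :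
    BGL i psi e ⊆ lS P i)
  have c2 := sum_sdiff (f := fun z => sv dc uc e z) (fun y hy => (HU.bgt y hy).1 :
    BGU i psi e ⊆ uS P i)
  have d1 := bg_sum G hT hQ hM hL hU hd hc
  have d2 := n4_sum G hT hQ hM hL hU hd hc
  have d3 := sum_all (i := i) e
  have d4 : ((EXL i e).card : ℤ) + (EXU i e).card ≤ (Xg.CC i e).card + (NFL i e).card := by
    exact_mod_cast ex_card
  unfold P1L P1U TWL TWU TWLx TWUx
  unfold N4L N4U at d2
  linarith

lemma TWx_card : (TWLx i e).card ≤ (TWL i e).card ∧ (TWUx i e).card ≤ (TWU i e).card := by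
  classical
  unfold TWLx TWL TWUx TWU TW TWx
  constructor
  · apply card_le_card
    intro z hz
    rw [mem_filter] at hz ⊢
    exact ⟨hz.1, hz.2.1⟩
  · apply card_le_card
    intro z hz
    rw [mem_filter] at hz ⊢
    exact ⟨hz.1, hz.2.1⟩

end main

end Pool.Agent.GaussPoset.Win.Rd

end

/-! From `Pool.Agent.W_448rd_h10.RdH` -/

section

/-!
MP_448cb3_co, G2, window `j - 1`: the exceptional elements of the inequality, local description.
helper10.
-/

namespace Pool.Agent.GaussPoset.Win.Rd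

set_option linter.unusedSectionVars false

open Finset I2 K2
open Pool.Agent.GaussPoset.Win.H2 (SdT NoT low_T up_T sum_all)

universe u

section abs

variable {P : Type u} [DecidableEq P]
variable {c c' : P → Finset P} {e : P → ℕ} {t : P → ℕ} {V Sd BG EX : Finset P}

lemma P1s_sub : P1s c c' e t Sd BG ⊆ P1 c c' e t Sd BG := by
  classical
  unfold P1s
  exact filter_subset _ _

variable (H : Hyp c c' e t V Sd BG EX)
include H

/-- an element which kills both sites alone -/
lemma Hyp.n4a_spec {w o x : P} (hw : w ∈ Dd c t Sd BG) (hn : N4a c c' e w) (hc : c w = {o, x})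
    (hox : o ≠ x) : e w = 1 ∧ e o = 0 ∧ e x = 0 ∧ (∀ v ∈ c' o, v ≠ w → e v = 0) ∧
      (∀ v ∈ c' x, v ≠ w → e v = 0) := by
  obtain ⟨hs, hg⟩ := hn
  have hall : ∀ a ∈ c w, e a < e w := by
    intro a ha
    by_contra h
    exact hg ⟨a, ha, by omega⟩
  have ho := hall o (by rw [hc]; simp)
  have hx := hall x (by rw [hc]; simp)
  have h1 := (H.vals hc hox (by omega)).2 hs
  have h2 := sv_both (c' := c') H.S hc hox ho hx
  rcases nk_cases (c' := c') (e := e) w o with ⟨a1, h4⟩ | ⟨a1, h4⟩ <;>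
  rcases nk_cases (c' := c') (e := e) w x with ⟨a2, h5⟩ | ⟨a2, h5⟩ <;>
  rw [h4, h5] at h2
  · omega
  · omega
  · omega
  · refine ⟨h1, by omega, by omega, ?_, ?_⟩
    · intro v hv hne
      by_contra h0
      exact a1 ⟨v, hv, hne, by omega⟩
    · intro v hv hne
      by_contra h0
      exact a2 ⟨v, hv, hne, by omega⟩

/-- an element which kills one site alone and is guarded by the other one -/
lemma Hyp.n4_spec {w : P} (hw : w ∈ N4 c c' e t Sd BG) : ∃ o x, o ≠ x ∧ c w = {o, x} ∧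
    e w = 1 ∧ e o = 0 ∧ 1 ≤ e x ∧ (∀ v ∈ c' o, v ≠ w → e v = 0) := by
  classical
  unfold N4 at hw
  rw [mem_filter, mem_Dd] at hw
  obtain ⟨⟨wS, wB, tw, cw⟩, hs, a, ha, hle⟩ := hw
  obtain ⟨o, ho, hc⟩ := pair_of cw ha
  have h1 := (H.vals hc ho (by omega)).2 hs
  have h0 : e o < e w := by
    by_contra h0
    have := sv_none (c' := c') (e := e) H.S hc ho (by omega) hle
    omega
  have h2 := sv_one (c' := c') H.S hc ho h0 hle
  rcases nk_cases (c' := c') (e := e) w o with ⟨a1, h4⟩ | ⟨a1, h4⟩ <;> rw [h4] at h2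
  · omega
  · refine ⟨o, a, ho, hc, h1, by omega, by omega, ?_⟩
    intro v hv hne
    by_contra h0
    exact a1 ⟨v, hv, hne, by omega⟩

/-- an element of `P1` -/
lemma Hyp.p1_spec {y : P} (hy : y ∈ P1 c c' e t Sd BG) : y ∈ Dd c t Sd BG ∧ N4a c c' e y ∧
    ∃ p ∈ c' y, e p = 1 ∧ c p = {y} ∧ ∀ z ∈ c' y, z ≠ p → e z = 0 := by
  classical
  unfold P1 at hy
  rw [mem_filter] at hy
  obtain ⟨hD, hN, hsum⟩ := hy
  refine ⟨hD, hN, ?_⟩
  obtain ⟨yS, yB, ty, cy⟩ := mem_Dd.1 hD
  obtain ⟨p, hp, hp1⟩ : ∃ p ∈ c' y, 1 ≤ e p := by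
    by_contra hno
    push Not at hno
    rw [sum_eq_zero (fun z hz => by have := hno z hz; omega)] at hsum
    omega
  have h1 : e p ≤ ∑ z ∈ c' y, e z := single_le_sum (f := fun z => e z) (fun _ _ => Nat.zero_le _) hp
  have hpen := H.pend hD hN hp hp1
  obtain ⟨pS, tp, yp⟩ := H.ch yS hp
  refine ⟨p, hp, by omega, ?_, ?_⟩
  · obtain ⟨a, ha⟩ := card_eq_one.1 hpen
    rw [ha, mem_singleton] at yp
    rw [ha, yp]
  · intro z hz hne
    have h2 : e z + e p ≤ ∑ z ∈ c' y, e z := by
      rw [← Finset.sum_pair hne]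
      apply sum_le_sum_of_subset
      intro a ha
      rw [mem_insert, mem_singleton] at ha
      rcases ha with rfl | rfl <;> assumption
    omega

/-- an element of `TW` -/
lemma Hyp.tw_spec {z : P} (hz : z ∈ TW c e t Sd) : ∃ w w2 p x q z', TS c c' t Sd z w w2 p x q ∧
    c z' = {w, w2} ∧ z' ≠ z ∧ c' w = {z, z'} ∧ c' w2 = {z, z'} ∧ 1 ≤ e z' ∧ e z' ≤ e w ∧
    e z' ≤ e w2 ∧ 2 ≤ e z ∧ (e w < e z ∨ e w2 < e z) := by
  classical
  unfold TW at hz
  rw [mem_filter] at hz
  obtain ⟨zS, hD, hkl, z', h1, h2, h3, h4⟩ := hz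
  obtain ⟨w, hw⟩ := H.S.ne z zS
  obtain ⟨w2, p, x, q, T⟩ := H.ts hD hw
  have h5 : c z' = {w, w2} := by rw [h1, T.cz]
  rw [kl_two H.S T.cz T.ne] at hkl
  rw [kl_two H.S h5 T.ne] at h4
  have m1 : z' ∈ c' w := (H.S.dual _ _).1 (by rw [h5]; simp)
  have m2 : z' ∈ c' w2 := (H.S.dual _ _).1 (by rw [h5]; simp)
  refine ⟨w, w2, p, x, q, z', T, h5, h2, pair_eq_of (H.S.c2' w) (T.z_mem H) m1 h2.symm,
    pair_eq_of (H.S.c2' w2) (T.symm.z_mem H) m2 h2.symm, h3, by omega, by omega, ?_, hkl⟩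
  omega

/-- the energy of the exceptional elements -/
theorem Hyp.energy : 5 * (TW c e t Sd).card + 2 * (P1 c c' e t Sd BG).card ≤ ∑ z ∈ Sd, e z := by
  classical
  -- the blocks
  obtain ⟨bl, hbl⟩ : ∃ bl : P → Finset P, ∀ a, bl a = if t a = 2 then
      (Sd.filter (fun v => c v = c a ∨ v ∈ c a)) else (insert a ((c' a).filter (fun v => 1 ≤ e v))) :=
    ⟨_, fun a => rfl⟩
  have hTt : ∀ z ∈ TW c e t Sd, t z = 2 := by
    intro z hz
    obtain ⟨w, w2, p, x, q, z', T, -⟩ := H.tw_spec hz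
    exact T.tz
  have hPt : ∀ y ∈ P1 c c' e t Sd BG, t y = 1 := fun y hy =>
    (mem_Dd.1 (H.p1_spec hy).1).2.2.1
  have hTin : ∀ z ∈ TW c e t Sd, ∀ v ∈ bl z, c v = c z ∨ v ∈ c z := by
    intro z hz v hv
    rw [hbl, if_pos (hTt z hz), mem_filter] at hv
    exact hv.2
  have hPin : ∀ y ∈ P1 c c' e t Sd BG, ∀ v ∈ bl y, v = y ∨ (v ∈ c' y ∧ 1 ≤ e v) := by
    intro y hy v hv
    rw [hbl, if_neg (by rw [hPt y hy]; omega), mem_insert, mem_filter] at hv
    exact hv
  have hsub : ∀ a ∈ TW c e t Sd ∪ P1 c c' e t Sd BG, bl a ⊆ Sd := by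
    intro a ha v hv
    rw [mem_union] at ha
    rcases ha with ha | ha
    · rw [hbl, if_pos (hTt a ha), mem_filter] at hv
      exact hv.1
    · have hS := (mem_Dd.1 (H.p1_spec ha).1).1
      rcases hPin a ha v hv with rfl | h
      · exact hS
      · exact (H.ch hS h.1).1
  have hTT : ∀ a ∈ TW c e t Sd, ∀ b ∈ TW c e t Sd, a ≠ b → ∀ v, v ∈ bl a → v ∈ bl b → False := by
    intro a ha b hb hne v hva hvb
    obtain ⟨w, w2, p, x, q, a', T, h1, h2, h3, h4, h5, h6, h7, h8, h9⟩ := H.tw_spec ha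
    obtain ⟨y, y2, o, m, n, b', T', k1, k2, k3, k4, k5, k6, k7, k8, k9⟩ := H.tw_spec hb
    -- `b` would be the twin of `a`
    suffices hba : b = a' by
      subst hba
      unfold TW at hb
      rw [mem_filter] at hb
      have h10 := hb.2.2.1
      rw [kl_two H.S h1 T.ne] at h10
      omega
    have key : ∀ v, v ∈ c a → v ∈ c b → b = a' := by
      intro v va vb
      have hb' : b ∈ c' v := (H.S.dual _ _).1 vb
      rw [T.cz, mem_insert, mem_singleton] at va
      rcases va with rfl | rfl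
      · rw [h3, mem_insert, mem_singleton] at hb'
        rcases hb' with h | h
        · exact absurd h.symm hne
        · exact h
      · rw [h4, mem_insert, mem_singleton] at hb'
        rcases hb' with h | h
        · exact absurd h.symm hne
        · exact h
    have tlv : ∀ z ∈ TW c e t Sd, ∀ v, v ∈ c z → t v = 1 := by
      intro z hz v hv
      have hzS : z ∈ Sd := by
        unfold TW at hz
        exact (mem_filter.1 hz).1
      have := (H.cov hzS (by rw [hTt z hz]) hv).2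
      rw [hTt z hz] at this
      omega
    have tlv2 : ∀ z ∈ TW c e t Sd, ∀ v, c v = c z → v ∈ Sd → t v = 2 := by
      intro z hz v hv hvS
      obtain ⟨w0, hw0⟩ := H.S.ne v hvS
      have h10 := (H.S.cin v hvS w0 hw0).2
      have := tlv z hz w0 (hv ▸ hw0)
      omega
    have hvS : v ∈ Sd := hsub a (mem_union_left _ ha) hva
    rcases hTin a ha v hva with h | h <;> rcases hTin b hb v hvb with h' | h'
    · exact key w (T.w_mem H) (h' ▸ h ▸ T.w_mem H)
    · have := tlv2 a ha v h hvS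
      have := tlv b hb v h'
      omega
    · have := tlv2 b hb v h' hvS
      have := tlv a ha v h
      omega
    · exact key v h h'
  have hTP : ∀ a ∈ TW c e t Sd, ∀ b ∈ P1 c c' e t Sd BG, ∀ v, v ∈ bl a → v ∈ bl b → False := by
    intro a ha b hb v hva hvb
    obtain ⟨w, w2, p, x, q, a', T, h1, h2, h3, h4, h5, h6, h7, h8, h9⟩ := H.tw_spec ha
    obtain ⟨hD, hN, p', hp', hp1, hcp, hz0⟩ := H.p1_spec hb
    have hbt := hPt b hb
    have hbS := (mem_Dd.1 hD).1
    have hvS : v ∈ Sd := hsub a (mem_union_left _ ha) hva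
    have ta := hTt a ha
    rcases hTin a ha v hva with h | h
    · -- `v` at distance two with two covers
      have hw : w ∈ c v := h ▸ T.w_mem H
      rcases hPin b hb v hvb with rfl | ⟨h', h''⟩
      · have := (H.S.cin v hvS w hw).2
        have := T.tw H
        omega
      · have := H.pend hD hN h' h''
        rw [h, T.cz, card_pair T.ne] at this
        omega
    · have hv1 := (H.cov T.zS (by omega) h).2
      rcases hPin b hb v hvb with rfl | ⟨h', h''⟩
      · have := H.pend hD hN ((H.S.dual _ _).1 h) (by omega)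
        rw [T.cz, card_pair T.ne] at this
        omega
      · have := (H.ch hbS h').2.1
        omega
  have hPP : ∀ a ∈ P1 c c' e t Sd BG, ∀ b ∈ P1 c c' e t Sd BG, a ≠ b →
      ∀ v, v ∈ bl a → v ∈ bl b → False := by
    intro a ha b hb hne v hva hvb
    obtain ⟨hD, hN, p', hp', hp1, hcp, hz0⟩ := H.p1_spec ha
    obtain ⟨hD2, hN2, p2, hp2, hp12, hcp2, hz2⟩ := H.p1_spec hb
    have haS := (mem_Dd.1 hD).1
    have hbS := (mem_Dd.1 hD2).1
    have hat := hPt a ha
    have hbt := hPt b hb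
    rcases hPin a ha v hva with h | ⟨h, h1⟩ <;> rcases hPin b hb v hvb with h' | ⟨h', h1'⟩
    · exact hne (h.symm.trans h')
    · have := (H.ch hbS h').2.1
      rw [h] at this
      omega
    · have := (H.ch haS h).2.1
      rw [h'] at this
      omega
    · have c1 := H.pend hD hN h h1
      obtain ⟨y, hy⟩ := card_eq_one.1 c1
      have m1 : a ∈ c v := (H.S.dual _ _).2 h
      have m2 : b ∈ c v := (H.S.dual _ _).2 h'
      rw [hy, mem_singleton] at m1 m2
      exact hne (m1.trans m2.symm)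
  have hdisj : Disjoint (TW c e t Sd) (P1 c c' e t Sd BG) := by
    rw [disjoint_left]
    intro a ha hb
    have := hTt a ha
    have := hPt a hb
    omega
  have hpw : ((TW c e t Sd ∪ P1 c c' e t Sd BG : Finset P) : Set P).PairwiseDisjoint bl := by
    intro a ha b hb hne
    rw [mem_coe, mem_union] at ha hb
    rw [Function.onFun, disjoint_left]
    intro v hva hvb
    rcases ha with ha | ha <;> rcases hb with hb | hb
    · exact hTT a ha b hb hne v hva hvb
    · exact hTP a ha b hb v hva hvb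
    · exact hTP b hb a ha v hvb hva
    · exact hPP a ha b hb hne v hva hvb
  have hTe : ∀ z ∈ TW c e t Sd, 5 ≤ ∑ v ∈ bl z, e v := by
    intro z hz
    obtain ⟨w, w2, p, x, q, z', T, h1, h2, h3, h4, h5, h6, h7, h8, h9⟩ := H.tw_spec hz
    have hwS := T.wS H
    have hw2S := T.symm.wS H
    have hz'S : z' ∈ Sd := (H.ch hwS (by rw [h3]; simp)).1
    have tw := T.tw H
    have tw2 := T.symm.tw H
    have tz := T.tz
    have tz' := (H.ch hwS (by rw [h3]; simp : z' ∈ c' w)).2.1
    have hs : ({w, w2, z', z} : Finset P) ⊆ bl z := by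
      intro v hv
      rw [hbl, if_pos tz, mem_filter]
      simp only [mem_insert, mem_singleton] at hv
      rcases hv with rfl | rfl | rfl | rfl
      · exact ⟨hwS, Or.inr (T.w_mem H)⟩
      · exact ⟨hw2S, Or.inr (T.symm.w_mem H)⟩
      · exact ⟨hz'S, Or.inl (by rw [h1, T.cz])⟩
      · exact ⟨T.zS, Or.inl rfl⟩
    refine le_trans ?_ (sum_le_sum_of_subset (f := e) hs)
    have n1 : w ∉ ({w2, z', z} : Finset P) := by
      simp only [mem_insert, mem_singleton]
      rintro (h | h | h)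
      · exact T.ne h
      · have h' := tw
        rw [h] at h'
        omega
      · have h' := tw
        rw [h] at h'
        omega
    have n2 : w2 ∉ ({z', z} : Finset P) := by
      simp only [mem_insert, mem_singleton]
      rintro (h | h)
      · have h' := tw2
        rw [h] at h'
        have := (H.ch hw2S (by rw [h4]; simp : z' ∈ c' w2)).2.1
        omega
      · have h' := tw2
        rw [h] at h'
        omega
    rw [sum_insert n1, sum_insert n2, Finset.sum_pair h2]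
    omega
  have hPe : ∀ y ∈ P1 c c' e t Sd BG, 2 ≤ ∑ v ∈ bl y, e v := by
    intro y hy
    obtain ⟨hD, hN, p, hp, hp1, hcp, hz0⟩ := H.p1_spec hy
    have hyt := hPt y hy
    have hyS := (mem_Dd.1 hD).1
    have ht := (H.ch hyS hp).2.1
    have hs : ({y, p} : Finset P) ⊆ bl y := by
      intro v hv
      rw [hbl, if_neg (by omega), mem_insert, mem_filter]
      simp only [mem_insert, mem_singleton] at hv
      rcases hv with rfl | rfl
      · exact Or.inl rfl
      · exact Or.inr ⟨hp, by omega⟩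
    refine le_trans ?_ (sum_le_sum_of_subset (f := e) hs)
    rw [Finset.sum_pair (by rintro rfl; omega)]
    have := H.pos hyS hp (by omega)
    omega
  calc 5 * (TW c e t Sd).card + 2 * (P1 c c' e t Sd BG).card
      = ∑ _z ∈ TW c e t Sd, 5 + ∑ _y ∈ P1 c c' e t Sd BG, 2 := by
        rw [sum_const, sum_const, smul_eq_mul, smul_eq_mul]
        ring
    _ ≤ ∑ z ∈ TW c e t Sd, ∑ v ∈ bl z, e v + ∑ y ∈ P1 c c' e t Sd BG, ∑ v ∈ bl y, e v :=
        Nat.add_le_add (sum_le_sum hTe) (sum_le_sum hPe)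
    _ = ∑ a ∈ TW c e t Sd ∪ P1 c c' e t Sd BG, ∑ v ∈ bl a, e v := (sum_union hdisj).symm
    _ = ∑ v ∈ (TW c e t Sd ∪ P1 c c' e t Sd BG).biUnion bl, e v := (sum_biUnion hpw).symm
    _ ≤ _ := by
        apply sum_le_sum_of_subset
        intro v hv
        rw [mem_biUnion] at hv
        obtain ⟨a, ha, hv⟩ := hv
        exact hsub a ha hv

end abs

section win

variable {P : Type u} [Fintype P] [PartialOrder P] [DecidableEq P] {r i : ℕ} {e : P → ℕ}
variable {psi : P → P}
variable (G : GoodTo P r (i + 1)) (hT : NoT P (i + 2)) (hQ : NoQ P (i + 3)) (hM : Mat P i ∅ psi)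
  (hL : AdmL i e) (hU : AdmU i e) (hd : Disjoint (AL i e) (AU i e)) (hc : IsCore i ∅ psi e)

include G hT hQ hM hL hU hd hc in
/-- the energy of the exceptional elements -/
theorem energy_ge : 5 * ((TWL i e).card + (TWU i e).card) +
    2 * ((P1L i psi e).card + (P1U i psi e).card) ≤ ∑ x, e x := by
  classical
  have h1 := (hypL G hT hQ hM hL hU hd hc).energy
  have h2 := (hypU G hT hM hL hU hd hc).energy
  have h3 := sum_all (i := i) e
  have h4 : ∑ x, e x = ∑ x ∈ lS P i, e x + ∑ x ∈ uS P i, e x + ∑ x ∈ lv P i, e x := by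
    exact_mod_cast h3
  have h5 : (P1L i psi e).card ≤
      (P1 uc dc e (fun x : P => lev x - i) (lS P i) (BGL i psi e)).card := by
    exact card_le_card P1s_sub
  have h6 : (P1U i psi e).card ≤
      (P1 dc uc e (fun x : P => i - lev x) (uS P i) (BGU i psi e)).card := by
    exact card_le_card P1s_sub
  unfold TWL TWU
  omega

end win

end Pool.Agent.GaussPoset.Win.Rd

end

/-! From `Pool.Agent.W_448rd_h10.RdJ` -/

section

/-!
MP_448cb3_co, G2, window `j - 1`: the energy of the exceptional elements, with guard sites.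
helper10.
-/

namespace Pool.Agent.GaussPoset.Win.Rd

set_option linter.unusedSectionVars false

open Finset I2 K2
open Pool.Agent.GaussPoset.Win.H2 (SdT NoT low_T up_T sum_all)
open Pool.Agent.GaussPoset.Win.Xg (CanD Can Tee Exo SdO Act laL laU)

universe u

section abs

variable {P : Type u} [DecidableEq P]
variable {c c' : P → Finset P} {e : P → ℕ} {t : P → ℕ} {V Sd BG EX : Finset P}
variable (H : Hyp c c' e t V Sd BG EX)
include H

/-- the energy of twins and of double elements without common positive children -/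
theorem Hyp.energyQ {Q R : Finset P} (hR1 : ∀ y ∈ R, y ∈ Dd c t Sd BG ∧ 1 ≤ e y)
    (hR2 : ∀ y ∈ R, ∀ z ∈ TW c e t Sd, y ∉ c z) (hQR : Disjoint Q R) (hQ1 : ∀ y ∈ Q, y ∈ Dd c t Sd BG ∧ 1 ≤ e y)
    (hQ2 : ∀ y ∈ Q, ∀ z ∈ TW c e t Sd, y ∉ c z)
    (hQ3 : ∀ y ∈ Q, ∀ y' ∈ Q, y ≠ y' → ∀ z ∈ c' y, z ∈ c' y' → e z = 0) :
    5 * (TW c e t Sd).card + 2 * Q.card + R.card ≤ ∑ z ∈ Sd, e z := by
  classical
  suffices hs : ∃ U ⊆ Sd, Disjoint U R ∧ 5 * (TW c e t Sd).card + 2 * Q.card ≤ ∑ z ∈ U, e z by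
    obtain ⟨U, hU, hUR, hle⟩ := hs
    have h1 : R.card ≤ ∑ z ∈ R, e z := by
      calc R.card = ∑ z ∈ R, 1 := by simp
        _ ≤ _ := sum_le_sum (fun z hz => (hR1 z hz).2)
    have h2 : ∑ z ∈ U ∪ R, e z ≤ ∑ z ∈ Sd, e z := by
      apply sum_le_sum_of_subset
      apply union_subset hU
      intro y hy
      exact (mem_Dd.1 (hR1 y hy).1).1
    rw [sum_union hUR] at h2
    omega
  obtain ⟨bl, hbl⟩ : ∃ bl : P → Finset P, ∀ a, bl a = if t a = 2 then
      (Sd.filter (fun v => c v = c a ∨ v ∈ c a)) else (insert a ((c' a).filter (fun v => 1 ≤ e v))) :=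
    ⟨_, fun a => rfl⟩
  have hTt : ∀ z ∈ TW c e t Sd, t z = 2 := by
    intro z hz
    obtain ⟨w, w2, p, x, q, z', T, -⟩ := H.tw_spec hz
    exact T.tz
  have hPt : ∀ y ∈ Q, t y = 1 := fun y hy => (mem_Dd.1 (hQ1 y hy).1).2.2.1
  have hPS : ∀ y ∈ Q, y ∈ Sd := fun y hy => (mem_Dd.1 (hQ1 y hy).1).1
  have hTin : ∀ z ∈ TW c e t Sd, ∀ v ∈ bl z, c v = c z ∨ v ∈ c z := by
    intro z hz v hv
    rw [hbl, if_pos (hTt z hz), mem_filter] at hv
    exact hv.2
  have hPin : ∀ y ∈ Q, ∀ v ∈ bl y, v = y ∨ (v ∈ c' y ∧ 1 ≤ e v) := by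
    intro y hy v hv
    rw [hbl, if_neg (by rw [hPt y hy]; omega), mem_insert, mem_filter] at hv
    exact hv
  have hsub : ∀ a ∈ TW c e t Sd ∪ Q, bl a ⊆ Sd := by
    intro a ha v hv
    rw [mem_union] at ha
    rcases ha with ha | ha
    · rw [hbl, if_pos (hTt a ha), mem_filter] at hv
      exact hv.1
    · have hS := hPS a ha
      rcases hPin a ha v hv with rfl | h
      · exact hS
      · exact (H.ch hS h.1).1
  have hTT : ∀ a ∈ TW c e t Sd, ∀ b ∈ TW c e t Sd, a ≠ b → ∀ v, v ∈ bl a → v ∈ bl b → False := by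
    intro a ha b hb hne v hva hvb
    obtain ⟨w, w2, p, x, q, a', T, h1, h2, h3, h4, h5, h6, h7, h8, h9⟩ := H.tw_spec ha
    obtain ⟨y, y2, o, m, n, b', T', k1, k2, k3, k4, k5, k6, k7, k8, k9⟩ := H.tw_spec hb
    suffices hba : b = a' by
      subst hba
      unfold TW at hb
      rw [mem_filter] at hb
      have h10 := hb.2.2.1
      rw [kl_two H.S h1 T.ne] at h10
      omega
    have key : ∀ v, v ∈ c a → v ∈ c b → b = a' := by
      intro v va vb
      have hb' : b ∈ c' v := (H.S.dual _ _).1 vb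
      rw [T.cz, mem_insert, mem_singleton] at va
      rcases va with rfl | rfl
      · rw [h3, mem_insert, mem_singleton] at hb'
        rcases hb' with h | h
        · exact absurd h.symm hne
        · exact h
      · rw [h4, mem_insert, mem_singleton] at hb'
        rcases hb' with h | h
        · exact absurd h.symm hne
        · exact h
    have tlv : ∀ z ∈ TW c e t Sd, ∀ v, v ∈ c z → t v = 1 := by
      intro z hz v hv
      have hzS : z ∈ Sd := by
        unfold TW at hz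
        exact (mem_filter.1 hz).1
      have := (H.cov hzS (by rw [hTt z hz]) hv).2
      rw [hTt z hz] at this
      omega
    have tlv2 : ∀ z ∈ TW c e t Sd, ∀ v, c v = c z → v ∈ Sd → t v = 2 := by
      intro z hz v hv hvS
      obtain ⟨w0, hw0⟩ := H.S.ne v hvS
      have h10 := (H.S.cin v hvS w0 hw0).2
      have := tlv z hz w0 (hv ▸ hw0)
      omega
    have hvS : v ∈ Sd := hsub a (mem_union_left _ ha) hva
    rcases hTin a ha v hva with h | h <;> rcases hTin b hb v hvb with h' | h'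
    · exact key w (T.w_mem H) (h' ▸ h ▸ T.w_mem H)
    · have := tlv2 a ha v h hvS
      have := tlv b hb v h'
      omega
    · have := tlv2 b hb v h' hvS
      have := tlv a ha v h
      omega
    · exact key v h h'
  have hTP : ∀ a ∈ TW c e t Sd, ∀ b ∈ Q, ∀ v, v ∈ bl a → v ∈ bl b → False := by
    intro a ha b hb v hva hvb
    obtain ⟨w, w2, p, x, q, a', T, h1, h2, h3, h4, h5, h6, h7, h8, h9⟩ := H.tw_spec ha
    have hbt := hPt b hb
    have hbS := hPS b hb
    have hno := hQ2 b hb a ha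
    rcases hTin a ha v hva with h | h
    · have hw : w ∈ c v := h ▸ T.w_mem H
      rcases hPin b hb v hvb with rfl | ⟨h', h''⟩
      · have := (H.S.cin v hbS w hw).2
        have := T.tw H
        omega
      · apply hno
        rw [← h]
        exact (H.S.dual _ _).2 h'
    · have hv1 := (H.cov T.zS (by rw [T.tz]) h).2
      have ta := T.tz
      rcases hPin b hb v hvb with rfl | ⟨h', h''⟩
      · exact hno h
      · have := (H.ch hbS h').2.1
        omega
  have hPP : ∀ a ∈ Q, ∀ b ∈ Q, a ≠ b → ∀ v, v ∈ bl a → v ∈ bl b → False := by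
    intro a ha b hb hne v hva hvb
    have haS := hPS a ha
    have hbS := hPS b hb
    have hat := hPt a ha
    have hbt := hPt b hb
    rcases hPin a ha v hva with h | ⟨h, h1⟩ <;> rcases hPin b hb v hvb with h' | ⟨h', h1'⟩
    · exact hne (h.symm.trans h')
    · have := (H.ch hbS h').2.1
      rw [h] at this
      omega
    · have := (H.ch haS h).2.1
      rw [h'] at this
      omega
    · have := hQ3 a ha b hb hne v h h'
      omega
  have hdisj : Disjoint (TW c e t Sd) Q := by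
    rw [disjoint_left]
    intro a ha hb
    have := hTt a ha
    have := hPt a hb
    omega
  have hpw : ((TW c e t Sd ∪ Q : Finset P) : Set P).PairwiseDisjoint bl := by
    intro a ha b hb hne
    rw [mem_coe, mem_union] at ha hb
    rw [Function.onFun, disjoint_left]
    intro v hva hvb
    rcases ha with ha | ha <;> rcases hb with hb | hb
    · exact hTT a ha b hb hne v hva hvb
    · exact hTP a ha b hb v hva hvb
    · exact hTP b hb a ha v hvb hva
    · exact hPP a ha b hb hne v hva hvb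
  have hTe : ∀ z ∈ TW c e t Sd, 5 ≤ ∑ v ∈ bl z, e v := by
    intro z hz
    obtain ⟨w, w2, p, x, q, z', T, h1, h2, h3, h4, h5, h6, h7, h8, h9⟩ := H.tw_spec hz
    have hwS := T.wS H
    have hw2S := T.symm.wS H
    have hz'S : z' ∈ Sd := (H.ch hwS (by rw [h3]; simp)).1
    have tw := T.tw H
    have tw2 := T.symm.tw H
    have tz := T.tz
    have tz' := (H.ch hwS (by rw [h3]; simp : z' ∈ c' w)).2.1
    have hs : ({w, w2, z', z} : Finset P) ⊆ bl z := by
      intro v hv
      rw [hbl, if_pos tz, mem_filter]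
      simp only [mem_insert, mem_singleton] at hv
      rcases hv with rfl | rfl | rfl | rfl
      · exact ⟨hwS, Or.inr (T.w_mem H)⟩
      · exact ⟨hw2S, Or.inr (T.symm.w_mem H)⟩
      · exact ⟨hz'S, Or.inl (by rw [h1, T.cz])⟩
      · exact ⟨T.zS, Or.inl rfl⟩
    refine le_trans ?_ (sum_le_sum_of_subset (f := e) hs)
    have n1 : w ∉ ({w2, z', z} : Finset P) := by
      simp only [mem_insert, mem_singleton]
      rintro (h | h | h)
      · exact T.ne h
      · have h' := tw
        rw [h] at h'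
        omega
      · have h' := tw
        rw [h] at h'
        omega
    have n2 : w2 ∉ ({z', z} : Finset P) := by
      simp only [mem_insert, mem_singleton]
      rintro (h | h)
      · have h' := tw2
        rw [h] at h'
        have := (H.ch hw2S (by rw [h4]; simp : z' ∈ c' w2)).2.1
        omega
      · have h' := tw2
        rw [h] at h'
        omega
    rw [sum_insert n1, sum_insert n2, Finset.sum_pair h2]
    omega
  have hPe : ∀ y ∈ Q, 2 ≤ ∑ v ∈ bl y, e v := by
    intro y hy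
    have hyt := hPt y hy
    have hyS := hPS y hy
    obtain ⟨hD, h1⟩ := hQ1 y hy
    obtain ⟨-, yB, -, cy⟩ := mem_Dd.1 hD
    obtain ⟨p, hp, hp1⟩ := H.touch y hyS hyt cy yB h1
    have ht := (H.ch hyS hp).2.1
    have hs : ({y, p} : Finset P) ⊆ bl y := by
      intro v hv
      rw [hbl, if_neg (by omega), mem_insert, mem_filter]
      simp only [mem_insert, mem_singleton] at hv
      rcases hv with rfl | rfl
      · exact Or.inl rfl
      · exact Or.inr ⟨hp, by omega⟩
    refine le_trans ?_ (sum_le_sum_of_subset (f := e) hs)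
    rw [Finset.sum_pair (by rintro rfl; omega)]
    omega
  refine ⟨(TW c e t Sd ∪ Q).biUnion bl, ?_, ?_, ?_⟩
  · intro v hv
    rw [mem_biUnion] at hv
    obtain ⟨a, ha, hv⟩ := hv
    exact hsub a ha hv
  · rw [disjoint_left]
    intro v hv hvR
    rw [mem_biUnion] at hv
    obtain ⟨a, ha, hv⟩ := hv
    have tv := (mem_Dd.1 (hR1 v hvR).1).2.2.1
    rw [mem_union] at ha
    rcases ha with ha | ha
    · rcases hTin a ha v hv with h | h
      · have hvS : v ∈ Sd := hsub a (mem_union_left _ ha) hv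
        obtain ⟨w, w2, p, x, q, a', T, h1, -⟩ := H.tw_spec ha
        have h2 := (H.S.cin v hvS w (h ▸ T.w_mem H)).2
        have := T.tw H
        omega
      · exact hR2 v hvR a ha h
    · rcases hPin a ha v hv with h | h
      · exact disjoint_left.1 hQR ha (h ▸ hvR)
      · have := (H.ch (hPS a ha) h.1).2.1
        have := hPt a ha
        omega
  calc 5 * (TW c e t Sd).card + 2 * Q.card
      = ∑ _z ∈ TW c e t Sd, 5 + ∑ _y ∈ Q, 2 := by
        rw [sum_const, sum_const, smul_eq_mul, smul_eq_mul]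
        ring
    _ ≤ ∑ z ∈ TW c e t Sd, ∑ v ∈ bl z, e v + ∑ y ∈ Q, ∑ v ∈ bl y, e v :=
        Nat.add_le_add (sum_le_sum hTe) (sum_le_sum hPe)
    _ = ∑ a ∈ TW c e t Sd ∪ Q, ∑ v ∈ bl a, e v := (sum_union hdisj).symm
    _ = ∑ v ∈ (TW c e t Sd ∪ Q).biUnion bl, e v := (sum_biUnion hpw).symm
    _ ≤ _ := le_rfl

/-- the energy of twins, `P1` and `N4` -/
theorem Hyp.energyN (hN : ∀ y ∈ N4 c c' e t Sd BG, ∀ y' ∈ N4 c c' e t Sd BG, y ≠ y' →
    ∀ z ∈ c' y, z ∈ c' y' → e z = 0) : 5 * (TW c e t Sd).card +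
    2 * ((P1 c c' e t Sd BG).card + (N4 c c' e t Sd BG).card) ≤ ∑ z ∈ Sd, e z := by
  classical
  have hN4 : ∀ y ∈ N4 c c' e t Sd BG, y ∈ Dd c t Sd BG ∧ gu c e y ∧ sv c c' e y = -4 := by
    intro y hy
    unfold N4 at hy
    rw [mem_filter] at hy
    exact ⟨hy.1, hy.2.2, hy.2.1⟩
  have hP1 : ∀ y ∈ P1 c c' e t Sd BG, y ∈ Dd c t Sd BG ∧ N4a c c' e y := by
    intro y hy
    obtain ⟨h1, h2, -⟩ := H.p1_spec hy
    exact ⟨h1, h2⟩
  have hdj : Disjoint (P1 c c' e t Sd BG) (N4 c c' e t Sd BG) := by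
    rw [disjoint_left]
    intro y h1 h2
    exact (hP1 y h1).2.2 (hN4 y h2).2.1
  rw [← card_union_of_disjoint hdj]
  have hmain := H.energyQ (Q := P1 c c' e t Sd BG ∪ N4 c c' e t Sd BG) (R := ∅)
    (fun y hy => absurd hy (notMem_empty _)) (fun y hy => absurd hy (notMem_empty _))
    (disjoint_empty_right _)
  rw [card_empty, add_zero] at hmain
  apply hmain
  · intro y hy
    rw [mem_union] at hy
    rcases hy with hy | hy
    · refine ⟨(hP1 y hy).1, ?_⟩
      obtain ⟨-, -, -, cy⟩ := mem_Dd.1 (hP1 y hy).1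
      obtain ⟨o, x, hox, hc⟩ := card_eq_two.1 cy
      have := (H.n4a_spec (hP1 y hy).1 (hP1 y hy).2 hc hox).1
      omega
    · refine ⟨(hN4 y hy).1, ?_⟩
      obtain ⟨o, x, -, -, h, -⟩ := H.n4_spec hy
      omega
  · intro y hy z hz hyz
    obtain ⟨w, w2, p, x, q, z', T, h1, h2, h3, h4, h5, h6, h7, h8, h9⟩ := H.tw_spec hz
    have hzy : z ∈ c' y := (H.S.dual _ _).1 hyz
    rw [mem_union] at hy
    rcases hy with hy | hy
    · have := H.pend (hP1 y hy).1 (hP1 y hy).2 hzy (by omega)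
      rw [T.cz, card_pair T.ne] at this
      omega
    · obtain ⟨o, x', -, hc, h, -, hx, -⟩ := H.n4_spec hy
      have hyS := (mem_Dd.1 (hN4 y hy).1).1
      have := H.le_of_gu hyS hzy (a := x') (by rw [hc]; simp) (by omega)
      omega
  · intro y hy y' hy' hne z hz hz'
    rw [mem_union] at hy hy'
    by_contra h0
    have m1 : y ∈ c z := (H.S.dual _ _).2 hz
    have m2 : y' ∈ c z := (H.S.dual _ _).2 hz'
    have hcz : ∀ v, v ∈ P1 c c' e t Sd BG → z ∈ c' v → y = y' := by
      intro v hv hzv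
      have := H.pend (hP1 v hv).1 (hP1 v hv).2 hzv (by omega)
      obtain ⟨a, ha⟩ := card_eq_one.1 this
      rw [ha, mem_singleton] at m1 m2
      exact m1.trans m2.symm
    rcases hy with hy | hy
    · exact hne (hcz y hy hz)
    · rcases hy' with hy' | hy'
      · exact hne (hcz y' hy' hz')
      · exact h0 (hN y hy y' hy' hne z hz hz')

end abs

section win

variable {P : Type u} [Fintype P] [PartialOrder P] [DecidableEq P] {r i : ℕ} {e : P → ℕ}
variable {psi : P → P}
variable (G : GoodTo P r (i + 1)) (hT : NoT P (i + 2)) (hQ : NoQ P (i + 3)) (hM : Mat P i ∅ psi)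
  (hL : AdmL i e) (hU : AdmU i e) (hd : Disjoint (AL i e) (AU i e)) (hc : IsCore i ∅ psi e)

include G hT hQ hM hL hU hd hc in
/-- two elements of `N4L` with a common positive child give an exchangeable place -/
lemma n4L_child {y y' z : P} (hy : y ∈ N4L i psi e) (hy' : y' ∈ N4L i psi e) (hne : y ≠ y')
    (hz : z ∈ dc y) (hz' : z ∈ dc y') (h1 : 1 ≤ e z) : (Xg.CC i e).Nonempty := by
  classical
  have HL := hypL G hT hQ hM hL hU hd hc
  obtain ⟨o, x, hox, hcy, ey, eo, ex, hso⟩ := HL.n4_spec hy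
  obtain ⟨o', x', hox', hcy', ey', eo', ex', hso'⟩ := HL.n4_spec hy'
  obtain ⟨⟨ly, cy⟩, yB, -, -⟩ := mem_N4L' hy
  obtain ⟨⟨ly', cy'⟩, yB', -, -⟩ := mem_N4L' hy'
  have yS : y ∈ lS P i := mem_lS.2 (by omega)
  have yS' : y' ∈ lS P i := mem_lS.2 (by omega)
  obtain ⟨zS, tz, yz⟩ := HL.ch yS hz
  obtain ⟨-, -, yz'⟩ := HL.ch yS' hz'
  -- among the twins choose the one of smallest rank
  obtain ⟨d, hd1, hmin⟩ : ∃ d, (uc d = {y, y'} ∧ 1 ≤ e d) ∧
      ∀ d', (uc d' = {y, y'} ∧ 1 ≤ e d') → Xg.rk d ≤ Xg.rk d' := by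
    have hcz : uc z = {y, y'} := pair_eq_of (uc_card_le G.H z) yz yz' hne
    have hne' : ((univ : Finset P).filter (fun d => uc d = {y, y'} ∧ 1 ≤ e d)).Nonempty :=
      ⟨z, mem_filter.2 ⟨mem_univ _, hcz, h1⟩⟩
    obtain ⟨d, hd, hm⟩ := exists_min_image _ Xg.rk hne'
    exact ⟨d, (mem_filter.1 hd).2, fun d' hd' => hm d' (mem_filter.2 ⟨mem_univ _, hd'⟩)⟩
  obtain ⟨hcd, ed⟩ := hd1
  have yd : y ∈ uc d := by rw [hcd]; simp
  have yd' : y' ∈ uc d := by rw [hcd]; simp
  have ld := lev_uc G.H yd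
  have hDJ : DJ uc (fun x : P => lev x - i) (lS P i) d := by
    refine ⟨mem_lS.2 (by omega), ?_, by rw [hcd, card_pair hne], ?_⟩
    · show lev d - i = 2
      omega
    · intro w hw
      rw [hcd, mem_insert, mem_singleton] at hw
      rcases hw with rfl | rfl <;> assumption
  obtain ⟨w2, p, x0, q, T⟩ := HL.ts hDJ yd
  have hw2 : w2 = y' := by
    have h2 : w2 ∈ uc d := by rw [T.cz]; simp
    rw [hcd, mem_insert, mem_singleton] at h2
    rcases h2 with h2 | h2
    · exact absurd h2.symm T.ne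
    · exact h2
  subst hw2
  -- the common site is the guard of both
  have hx0 : x0 = x ∧ p = o := by
    have hx0y : x0 ∈ uc y := T.x_mem HL
    have hpy : p ∈ uc y := T.p_mem HL
    rw [hcy, mem_insert, mem_singleton] at hx0y hpy
    rcases hx0y with h | h
    · exfalso
      subst h
      have := hso w2 (by rw [T.dx]; simp) T.ne.symm
      omega
    · refine ⟨h, ?_⟩
      rcases hpy with h2 | h2
      · exact h2
      · exact absurd (h2.trans h.symm) T.px
  have hq : x0 = x' ∧ q = o' := by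
    have hx0y : x0 ∈ uc w2 := T.symm.x_mem HL
    have hpy : q ∈ uc w2 := T.symm.p_mem HL
    rw [hcy', mem_insert, mem_singleton] at hx0y hpy
    rcases hx0y with h | h
    · exfalso
      subst h
      have := hso' y (by rw [T.dx]; simp) T.ne
      omega
    · refine ⟨h, ?_⟩
      rcases hpy with h2 | h2
      · exact h2
      · exact absurd (h2.trans h.symm) T.xq.symm
  have ed1 : e d ≤ 1 := by
    have := HL.le_of_gu yS (T.z_mem HL) (a := x) (by rw [hcy]; simp) (by omega)
    omega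
  obtain ⟨p1, p2, p3⟩ := psiL hM ly cy
  obtain ⟨q1, q2, q3⟩ := psiL hM ly' cy'
  have g1 : e (psi y) = 0 := by
    by_contra h
    exact yB (mem_BGL.2 ⟨⟨by omega, cy⟩, by omega, by omega⟩)
  have g2 : e (psi w2) = 0 := by
    by_contra h
    exact yB' (mem_BGL.2 ⟨⟨by omega, cy'⟩, by omega, by omega⟩)
  have m1 : psi y ∈ uc x0 := by
    rw [mem_uc, ← mem_dc, p2]
    exact T.x_mem HL
  have m2 : psi w2 ∈ uc x0 := by
    rw [mem_uc, ← mem_dc, q2]
    exact T.symm.x_mem HL
  have hne2 : psi y ≠ psi w2 := by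
    intro h
    apply T.ne
    rw [← p3, ← q3, h]
  have hux : uc x0 = {psi y, psi w2} := pair_eq_of (uc_card_le G.H x0) m1 m2 hne2
  have hu0 : ∀ u ∈ uc x0, e u = 0 := by
    intro u hu
    rw [hux, mem_insert, mem_singleton] at hu
    rcases hu with rfl | rfl <;> assumption
  have htz : lev d = i + 2 := by omega
  have TT : Tee dc uc (laL i) d y w2 p x0 q :=
    ⟨by unfold laL; omega, T.cz, T.cw, T.cw2, T.dx, T.ne, T.px, T.xq, T.pq⟩
  have hgd : ∀ a ∈ dc d, e a ≤ e d := by
    intro a ha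
    exact HL.le_of_gu T.zS ha (a := y) yd (by omega)
  have kids : ∀ w : P, w ∈ lS P i → (∃ a ∈ uc w, e w ≤ e a) → ∀ d' ∈ dc w, e d' ≤ e w := by
    rintro w hw ⟨a, ha, hle⟩ d' hd'
    exact HL.le_of_gu hw hd' ha hle
  have EE : Exo dc uc d y w2 p x0 q e := by
    refine ⟨ed, ?_, ?_, ?_, ?_, ?_⟩
    · intro a ha
      have := hgd a ha
      omega
    · intro u hu
      rw [hu0 u hu]
      omega
    · right
      refine ⟨fun d' hd' _ => kids y yS ⟨x, by rw [hcy]; simp, by omega⟩ d' hd', ?_⟩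
      rw [hx0.2]
      omega
    · right
      refine ⟨fun d' hd' _ => kids w2 yS' ⟨x', by rw [hcy']; simp, by omega⟩ d' hd', ?_⟩
      rw [hq.2]
      omega
    · left
      right
      rw [hx0.1]
      omega
  refine ⟨(d, x0), ?_⟩
  rw [Xg.mem_CC G.H]
  left
  refine ⟨y, w2, p, q, TT, EE, ?_⟩
  intro d' hd' hrk
  by_contra h0
  have h9 := hmin d' ⟨hd', by omega⟩
  have h10 : Xg.rk d' < Xg.rk d := hrk
  omega

include G hT hQ hM hL hU hd hc in
/-- the same above the window -/
lemma n4U_child {y y' z : P} (hy : y ∈ N4U i psi e) (hy' : y' ∈ N4U i psi e) (hne : y ≠ y')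
    (hz : z ∈ uc y) (hz' : z ∈ uc y') (h1 : 1 ≤ e z) : (Xg.CC i e).Nonempty := by
  classical
  have HU := hypU G hT hM hL hU hd hc
  obtain ⟨o, x, hox, hcy, ey, eo, ex, hso⟩ := HU.n4_spec hy
  obtain ⟨o', x', hox', hcy', ey', eo', ex', hso'⟩ := HU.n4_spec hy'
  obtain ⟨⟨ly, cy⟩, yB, -, -⟩ := mem_N4U' hy
  obtain ⟨⟨ly', cy'⟩, yB', -, -⟩ := mem_N4U' hy'
  have yS : y ∈ uS P i := mem_uS.2 (by omega)
  have yS' : y' ∈ uS P i := mem_uS.2 (by omega)
  obtain ⟨zS, tz, yz⟩ := HU.ch yS hz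
  obtain ⟨-, -, yz'⟩ := HU.ch yS' hz'
  obtain ⟨d, hd1, hmin⟩ : ∃ d, (dc d = {y, y'} ∧ 1 ≤ e d) ∧
      ∀ d', (dc d' = {y, y'} ∧ 1 ≤ e d') → Xg.rk d ≤ Xg.rk d' := by
    have hcz : dc z = {y, y'} := pair_eq_of (dc_card_le G.H z) yz yz' hne
    have hne' : ((univ : Finset P).filter (fun d => dc d = {y, y'} ∧ 1 ≤ e d)).Nonempty :=
      ⟨z, mem_filter.2 ⟨mem_univ _, hcz, h1⟩⟩
    obtain ⟨d, hd, hm⟩ := exists_min_image _ Xg.rk hne'
    exact ⟨d, (mem_filter.1 hd).2, fun d' hd' => hm d' (mem_filter.2 ⟨mem_univ _, hd'⟩)⟩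
  obtain ⟨hcd, ed⟩ := hd1
  have yd : y ∈ dc d := by rw [hcd]; simp
  have yd' : y' ∈ dc d := by rw [hcd]; simp
  have ld := lev_dc G.H yd
  have hDJ : DJ dc (fun x : P => i - lev x) (uS P i) d := by
    refine ⟨mem_uS.2 (by omega), ?_, by rw [hcd, card_pair hne], ?_⟩
    · show i - lev d = 2
      omega
    · intro w hw
      rw [hcd, mem_insert, mem_singleton] at hw
      rcases hw with rfl | rfl <;> assumption
  obtain ⟨w2, p, x0, q, T⟩ := HU.ts hDJ yd
  have hw2 : w2 = y' := by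
    have h2 : w2 ∈ dc d := by rw [T.cz]; simp
    rw [hcd, mem_insert, mem_singleton] at h2
    rcases h2 with h2 | h2
    · exact absurd h2.symm T.ne
    · exact h2
  subst hw2
  have hx0 : x0 = x ∧ p = o := by
    have hx0y : x0 ∈ dc y := T.x_mem HU
    have hpy : p ∈ dc y := T.p_mem HU
    rw [hcy, mem_insert, mem_singleton] at hx0y hpy
    rcases hx0y with h | h
    · exfalso
      subst h
      have := hso w2 (by rw [T.dx]; simp) T.ne.symm
      omega
    · refine ⟨h, ?_⟩
      rcases hpy with h2 | h2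
      · exact h2
      · exact absurd (h2.trans h.symm) T.px
  have hq : x0 = x' ∧ q = o' := by
    have hx0y : x0 ∈ dc w2 := T.symm.x_mem HU
    have hpy : q ∈ dc w2 := T.symm.p_mem HU
    rw [hcy', mem_insert, mem_singleton] at hx0y hpy
    rcases hx0y with h | h
    · exfalso
      subst h
      have := hso' y (by rw [T.dx]; simp) T.ne
      omega
    · refine ⟨h, ?_⟩
      rcases hpy with h2 | h2
      · exact h2
      · exact absurd (h2.trans h.symm) T.xq.symm
  have ed1 : e d ≤ 1 := by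
    have := HU.le_of_gu yS (T.z_mem HU) (a := x) (by rw [hcy]; simp) (by omega)
    omega
  obtain ⟨p1, p2, p3⟩ := psiU hM ly cy
  obtain ⟨q1, q2, q3⟩ := psiU hM ly' cy'
  have g1 : e (psi y) = 0 := by
    by_contra h
    exact yB (mem_BGU.2 ⟨⟨by omega, cy⟩, by omega, by omega⟩)
  have g2 : e (psi w2) = 0 := by
    by_contra h
    exact yB' (mem_BGU.2 ⟨⟨by omega, cy'⟩, by omega, by omega⟩)
  have m1 : psi y ∈ dc x0 := by
    rw [mem_dc, ← mem_uc, p2]
    exact T.x_mem HU
  have m2 : psi w2 ∈ dc x0 := by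
    rw [mem_dc, ← mem_uc, q2]
    exact T.symm.x_mem HU
  have hne2 : psi y ≠ psi w2 := by
    intro h
    apply T.ne
    rw [← p3, ← q3, h]
  have hux : dc x0 = {psi y, psi w2} := pair_eq_of (dc_card_le G.H x0) m1 m2 hne2
  have hu0 : ∀ u ∈ dc x0, e u = 0 := by
    intro u hu
    rw [hux, mem_insert, mem_singleton] at hu
    rcases hu with rfl | rfl <;> assumption
  have htz : lev d + 2 = i := by omega
  have TT : Tee uc dc (laU i) d y w2 p x0 q :=
    ⟨by unfold laU; omega, T.cz, T.cw, T.cw2, T.dx, T.ne, T.px, T.xq, T.pq⟩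
  have hgd : ∀ a ∈ uc d, e a ≤ e d := by
    intro a ha
    exact HU.le_of_gu T.zS ha (a := y) yd (by omega)
  have kids : ∀ w : P, w ∈ uS P i → (∃ a ∈ dc w, e w ≤ e a) → ∀ d' ∈ uc w, e d' ≤ e w := by
    rintro w hw ⟨a, ha, hle⟩ d' hd'
    exact HU.le_of_gu hw hd' ha hle
  have EE : Exo uc dc d y w2 p x0 q e := by
    refine ⟨ed, ?_, ?_, ?_, ?_, ?_⟩
    · intro a ha
      have := hgd a ha
      omega
    · intro u hu
      rw [hu0 u hu]
      omega
    · right
      refine ⟨fun d' hd' _ => kids y yS ⟨x, by rw [hcy]; simp, by omega⟩ d' hd', ?_⟩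
      rw [hx0.2]
      omega
    · right
      refine ⟨fun d' hd' _ => kids w2 yS' ⟨x', by rw [hcy']; simp, by omega⟩ d' hd', ?_⟩
      rw [hq.2]
      omega
    · left
      right
      rw [hx0.1]
      omega
  refine ⟨(d, x0), ?_⟩
  rw [Xg.mem_CC G.H]
  right
  refine ⟨y, w2, p, q, TT, EE, ?_⟩
  intro d' hd' hrk
  by_contra h0
  have h9 := hmin d' ⟨hd', by omega⟩
  have h10 : Xg.rk d' < Xg.rk d := hrk
  omega

include G hT hQ hM hL hU hd hc in
/-- the guard sites and their elements -/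
lemma gs_facts : (GS i psi e).card ≤ ∑ x ∈ lv P i, e x ∧
    2 * (GS i psi e).card ≤ (N4L i psi e).card + (N4U i psi e).card := by
  classical
  have HL := hypL G hT hQ hM hL hU hd hc
  have HU := hypU G hT hM hL hU hd hc
  -- the guard sites
  have h7 : (GS i psi e).card ≤ ∑ x ∈ lv P i, e x := by
    have hs : GS i psi e ⊆ lv P i := by
      intro x hx
      unfold GS at hx
      exact (mem_filter.1 hx).1
    calc (GS i psi e).card = ∑ x ∈ GS i psi e, 1 := by simp
      _ ≤ ∑ x ∈ GS i psi e, e x := by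
        apply sum_le_sum
        intro x hx
        unfold GS at hx
        have := (mem_filter.1 hx).2.1
        omega
      _ ≤ _ := sum_le_sum_of_subset hs
  have h8 : 2 * (GS i psi e).card ≤ (N4L i psi e).card + (N4U i psi e).card := by
    -- each guard site has two elements, each element has one guard site
    have uniqL : ∀ y ∈ N4L i psi e, ∀ x ∈ uc y, ∀ x' ∈ uc y, 1 ≤ e x → 1 ≤ e x' → x = x' := by
      intro y hy x hx x' hx' h9 h10
      obtain ⟨o, x0, hox, hcy, ey, eo, ex, hso⟩ := HL.n4_spec hy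
      rw [hcy, mem_insert, mem_singleton] at hx hx'
      rcases hx with rfl | rfl <;> rcases hx' with rfl | rfl
      · rfl
      · omega
      · omega
      · rfl
    have uniqU : ∀ y ∈ N4U i psi e, ∀ x ∈ dc y, ∀ x' ∈ dc y, 1 ≤ e x → 1 ≤ e x' → x = x' := by
      intro y hy x hx x' hx' h9 h10
      obtain ⟨o, x0, hox, hcy, ey, eo, ex, hso⟩ := HU.n4_spec hy
      rw [hcy, mem_insert, mem_singleton] at hx hx'
      rcases hx with rfl | rfl <;> rcases hx' with rfl | rfl
      · rfl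
      · omega
      · omega
      · rfl
    have hdj : Disjoint (N4L i psi e) (N4U i psi e) := by
      rw [disjoint_left]
      intro y hy hy'
      have k1 := (mem_N4L' hy).1.1
      have k2 := (mem_N4U' hy').1.1
      omega
    rw [← card_union_of_disjoint hdj]
    obtain ⟨A, hA⟩ : ∃ A : P → Finset P, ∀ x, A x = (N4L i psi e ∪ N4U i psi e).filter
      (fun y => (y ∈ N4L i psi e ∧ x ∈ uc y) ∨ (y ∈ N4U i psi e ∧ x ∈ dc y)) := ⟨_, fun _ => rfl⟩
    have hpw : ((GS i psi e : Finset P) : Set P).PairwiseDisjoint A := by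
      intro x hx x' hx' hne
      rw [mem_coe] at hx hx'
      unfold GS at hx hx'
      have ex := (mem_filter.1 hx).2.1
      have ex' := (mem_filter.1 hx').2.1
      rw [Function.onFun, disjoint_left]
      intro y hy hy'
      rw [hA, mem_filter] at hy hy'
      rcases hy.2 with ⟨k1, k2⟩ | ⟨k1, k2⟩ <;> rcases hy'.2 with ⟨k3, k4⟩ | ⟨k3, k4⟩
      · exact hne (uniqL y k1 x k2 x' k4 (by omega) (by omega))
      · exact disjoint_left.1 hdj k1 k3
      · exact disjoint_left.1 hdj k3 k1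
      · exact hne (uniqU y k1 x k2 x' k4 (by omega) (by omega))
    have hge : ∀ x ∈ GS i psi e, 2 ≤ (A x).card := by
      intro x hx
      unfold GS at hx
      obtain ⟨-, -, y, y', hne, k1, k2⟩ := mem_filter.1 hx
      have : 1 < (A x).card := by
        rw [one_lt_card]
        refine ⟨y, ?_, y', ?_, hne⟩
        · rw [hA, mem_filter, mem_union]
          refine ⟨?_, k1⟩
          rcases k1 with k1 | k1
          · exact Or.inl k1.1
          · exact Or.inr k1.1
        · rw [hA, mem_filter, mem_union]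
          refine ⟨?_, k2⟩
          rcases k2 with k2 | k2
          · exact Or.inl k2.1
          · exact Or.inr k2.1
      omega
    calc 2 * (GS i psi e).card = ∑ _x ∈ GS i psi e, 2 := by
          rw [sum_const, smul_eq_mul, mul_comm]
      _ ≤ ∑ x ∈ GS i psi e, (A x).card := sum_le_sum hge
      _ = ((GS i psi e).biUnion A).card := (card_biUnion hpw).symm
      _ ≤ _ := by
        apply card_le_card
        intro y hy
        rw [mem_biUnion] at hy
        obtain ⟨x, -, hy⟩ := hy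
        rw [hA] at hy
        exact (mem_filter.1 hy).1
  exact ⟨h7, h8⟩

include G hT hQ hM hL hU hd hc in
/-- the energy of the exceptional elements of a reduced core -/
theorem energy_gs (hCC : Xg.CC i e = ∅) : 5 * ((TWL i e).card + (TWU i e).card) +
    2 * ((P1L i psi e).card + (P1U i psi e).card) + 5 * (GS i psi e).card ≤ ∑ x, e x := by
  classical
  have HL := hypL G hT hQ hM hL hU hd hc
  have HU := hypU G hT hM hL hU hd hc
  have h1 := HL.energyN (by
    intro y hy y' hy' hne z hz hz'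
    by_contra h0
    obtain ⟨a, ha⟩ := n4L_child G hT hQ hM hL hU hd hc hy hy' hne hz hz' (by omega)
    rw [hCC] at ha
    exact notMem_empty _ ha)
  have h2 := HU.energyN (by
    intro y hy y' hy' hne z hz hz'
    by_contra h0
    obtain ⟨a, ha⟩ := n4U_child G hT hQ hM hL hU hd hc hy hy' hne hz hz' (by omega)
    rw [hCC] at ha
    exact notMem_empty _ ha)
  have h3 := sum_all (i := i) e
  have h4 : ∑ x, e x = ∑ x ∈ lS P i, e x + ∑ x ∈ uS P i, e x + ∑ x ∈ lv P i, e x := by
    exact_mod_cast h3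
  have h5 : (P1L i psi e).card ≤
      (P1 uc dc e (fun x : P => lev x - i) (lS P i) (BGL i psi e)).card := card_le_card P1s_sub
  have h6 : (P1U i psi e).card ≤
      (P1 dc uc e (fun x : P => i - lev x) (uS P i) (BGU i psi e)).card := card_le_card P1s_sub
  obtain ⟨h7, h8⟩ := gs_facts G hT hQ hM hL hU hd hc
  unfold TWL TWU
  unfold N4L N4U at h8
  omega

end win

end Pool.Agent.GaussPoset.Win.Rd

end

/-! From `Pool.Agent.W_448rd_h10.RdL` -/

section

/-!
MP_448cb3_co, G2, window `j - 1`: the cores with a killer of level `i + 3` over a double join and a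
pendant (`NFL`): energy at least ten, the exact pattern at energy ten.  helper10.
-/

namespace Pool.Agent.GaussPoset.Win.Rd

set_option linter.unusedSectionVars false

open Finset I2 K2
open Pool.Agent.GaussPoset.Win.H2 (SdT NoT low_T up_T sum_all)

universe u

variable {P : Type u} [Fintype P] [PartialOrder P] [DecidableEq P] {r i : ℕ} {e : P → ℕ}
variable {psi : P → P}
variable (G : GoodTo P r (i + 1)) (hT : NoT P (i + 2)) (hQ : NoQ P (i + 3)) (hM : Mat P i ∅ psi)
  (hL : AdmL i e) (hU : AdmU i e) (hd : Disjoint (AL i e) (AU i e)) (hc : IsCore i ∅ psi e)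

include G hT hL in
/-- the local description -/
lemma nf_spec {z : P} (hz : z ∈ NFL i e) : ∃ u z2 w w2 y, lev u = i + 3 ∧ uc u = {z, z2} ∧
    uc z = {w, w2} ∧ uc z2 = {y} ∧ z2 ≠ z ∧ w ≠ w2 ∧ y ≠ w ∧ y ≠ w2 ∧ 3 ≤ e u ∧ 2 ≤ e z ∧
    2 ≤ e z2 ∧ 1 ≤ e w ∧ 1 ≤ e w2 ∧ 1 ≤ e y := by
  classical
  have S := K2.side_low (i := i) G.H hT.noQ
  have adm := adm_low hL
  unfold NFL at hz
  rw [mem_filter, mem_lS] at hz
  obtain ⟨hzi, lz, cz, klz, u, hu, hu1, klu, z2, hz2, hne, c2, hno⟩ := hz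
  have lu := lev_dc G.H hu
  have hzu : z ∈ uc u := mem_uc.2 (mem_dc.1 hu)
  obtain ⟨w, w2, hw, hcz⟩ := card_eq_two.1 cz
  obtain ⟨y, hy⟩ := card_eq_one.1 c2
  have l2 := lev_uc G.H hz2
  have uS : u ∈ lS P i := mem_lS.2 (by omega)
  have zS : z ∈ lS P i := mem_lS.2 (by omega)
  have z2S : z2 ∈ lS P i := mem_lS.2 (by omega)
  have eu : 3 ≤ e u := by
    have h := K2.t_le_of_kl S adm _ u uS klu rfl
    have : lev u - i ≤ e u := h
    omega
  have ez : 2 ≤ e z := by
    have h := K2.t_le_of_kl S adm _ z zS klz rfl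
    have : lev z - i ≤ e z := h
    omega
  have pos : ∀ a : P, a ∈ lS P i → ∀ q ∈ dc a, 1 ≤ e q → 1 ≤ e a := by
    intro a ha q hq h1
    by_contra h0
    obtain ⟨b, hb⟩ := S.ne a ha
    exact adm a ha ⟨⟨q, hq, by omega⟩, b, hb, by omega⟩
  have e2 := pos z2 z2S u (mem_dc.2 (mem_uc.1 hz2)) hu1
  have hwz : w ∈ uc z := by rw [hcz]; simp
  have hw2z : w2 ∈ uc z := by rw [hcz]; simp
  have hyz : y ∈ uc z2 := by rw [hy]; simp
  have lw := lev_uc G.H hwz
  have lw2 := lev_uc G.H hw2z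
  have ly := lev_uc G.H hyz
  have ew := pos w (mem_lS.2 (by omega)) z (mem_dc.2 (mem_uc.1 hwz)) (by omega)
  have ew2 := pos w2 (mem_lS.2 (by omega)) z (mem_dc.2 (mem_uc.1 hw2z)) (by omega)
  have ey := pos y (mem_lS.2 (by omega)) z2 (mem_dc.2 (mem_uc.1 hyz)) e2
  have ez2 : 2 ≤ e z2 := by
    by_cases h : e z2 < e u
    · have := not_gu_of_kd adm z2S ⟨u, mem_dc.2 (mem_uc.1 hz2), h⟩ y hyz
      omega
    · omega
  refine ⟨u, z2, w, w2, y, by omega, pair_eq_of (uc_card_le G.H u) hzu hz2 hne.symm, hcz, hy, hne,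
    hw, ?_, ?_, eu, ez, ez2, ew, ew2, ey⟩
  · rintro rfl
    exact hno y hwz hyz
  · rintro rfl
    exact hno y hw2z hyz

include G hT hL in
/-- the energy is at least ten -/
theorem nf_energy {z : P} (hz : z ∈ NFL i e) : 10 ≤ ∑ x, e x := by
  classical
  obtain ⟨u, z2, w, w2, y, lu, hu, hcz, hy, hne, hw, h1, h2, eu, ez, ez2, ew, ew2, ey⟩ :=
    nf_spec G hT hL hz
  have l1 := lev_uc G.H (x := u) (v := z) (by rw [hu]; simp)
  have l2 := lev_uc G.H (x := u) (v := z2) (by rw [hu]; simp)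
  have l3 := lev_uc G.H (x := z) (v := w) (by rw [hcz]; simp)
  have l4 := lev_uc G.H (x := z) (v := w2) (by rw [hcz]; simp)
  have l5 := lev_uc G.H (x := z2) (v := y) (by rw [hy]; simp)
  have hs : ∑ x ∈ ({u, z, z2, w, w2, y} : Finset P), e x ≤ ∑ x, e x :=
    sum_le_sum_of_subset (subset_univ _)
  have n : ∀ a b : P, lev a ≠ lev b → a ≠ b := fun a b h h' => h (by rw [h'])
  rw [sum_insert, sum_insert, sum_insert, sum_insert, Finset.sum_pair h2.symm] at hs
  · omega
  · simp only [mem_insert, mem_singleton, not_or]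
    exact ⟨hw, h1.symm⟩
  · simp only [mem_insert, mem_singleton, not_or]
    exact ⟨n _ _ (by omega), n _ _ (by omega), n _ _ (by omega)⟩
  · simp only [mem_insert, mem_singleton, not_or]
    exact ⟨hne.symm, n _ _ (by omega), n _ _ (by omega), n _ _ (by omega)⟩
  · simp only [mem_insert, mem_singleton, not_or]
    exact ⟨n _ _ (by omega), n _ _ (by omega), n _ _ (by omega), n _ _ (by omega),
      n _ _ (by omega)⟩

include G hT hL in
/-- the exact pattern at energy ten -/
theorem nf_exact {z : P} (hz : z ∈ NFL i e) (hs : ∑ x, e x = 10) :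
    ∃ u z2 w w2 y, lev u = i + 3 ∧ uc u = {z, z2} ∧ uc z = {w, w2} ∧ uc z2 = {y} ∧ z2 ≠ z ∧
    w ≠ w2 ∧ y ≠ w ∧ y ≠ w2 ∧ e u = 3 ∧ e z = 2 ∧ e z2 = 2 ∧ e w = 1 ∧ e w2 = 1 ∧ e y = 1 ∧
    ∀ x, x ∉ ({u, z, z2, w, w2, y} : Finset P) → e x = 0 := by
  classical
  obtain ⟨u, z2, w, w2, y, lu, hu, hcz, hy, hne, hw, h1, h2, eu, ez, ez2, ew, ew2, ey⟩ :=
    nf_spec G hT hL hz
  have l1 := lev_uc G.H (x := u) (v := z) (by rw [hu]; simp)
  have l2 := lev_uc G.H (x := u) (v := z2) (by rw [hu]; simp)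
  have l3 := lev_uc G.H (x := z) (v := w) (by rw [hcz]; simp)
  have l4 := lev_uc G.H (x := z) (v := w2) (by rw [hcz]; simp)
  have l5 := lev_uc G.H (x := z2) (v := y) (by rw [hy]; simp)
  have n : ∀ a b : P, lev a ≠ lev b → a ≠ b := fun a b h h' => h (by rw [h'])
  have hsum : ∑ x ∈ ({u, z, z2, w, w2, y} : Finset P), e x =
      e u + (e z + (e z2 + (e w + (e w2 + e y)))) := by
    rw [sum_insert, sum_insert, sum_insert, sum_insert, Finset.sum_pair h2.symm]
    · simp only [mem_insert, mem_singleton, not_or]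
      exact ⟨hw, h1.symm⟩
    · simp only [mem_insert, mem_singleton, not_or]
      exact ⟨n _ _ (by omega), n _ _ (by omega), n _ _ (by omega)⟩
    · simp only [mem_insert, mem_singleton, not_or]
      exact ⟨hne.symm, n _ _ (by omega), n _ _ (by omega), n _ _ (by omega)⟩
    · simp only [mem_insert, mem_singleton, not_or]
      exact ⟨n _ _ (by omega), n _ _ (by omega), n _ _ (by omega), n _ _ (by omega),
        n _ _ (by omega)⟩
  have hsplit := sum_sdiff (f := e) (subset_univ ({u, z, z2, w, w2, y} : Finset P))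
  rw [hs, hsum] at hsplit
  refine ⟨u, z2, w, w2, y, lu, hu, hcz, hy, hne, hw, h1, h2, by omega, by omega, by omega,
    by omega, by omega, by omega, ?_⟩
  intro x hx
  have : e x ≤ ∑ x ∈ univ \ ({u, z, z2, w, w2, y} : Finset P), e x :=
    single_le_sum (f := e) (fun _ _ => Nat.zero_le _) (mem_sdiff.2 ⟨mem_univ _, hx⟩)
  omega

include G hT hL in
lemma nf_empty (hs : ∑ x, e x ≤ 9) : NFL i e = ∅ := by
  classical
  rw [eq_empty_iff_forall_notMem]
  intro z hz
  have := nf_energy G hT hL hz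
  omega

/-- there are no twins above the window -/
lemma TWU_empty (G : GoodTo P r (i + 1)) : TWU i e = ∅ := by
  classical
  rw [eq_empty_iff_forall_notMem]
  intro z hz
  unfold TWU TW at hz
  rw [mem_filter, mem_uS] at hz
  obtain ⟨hzi, hD, hk, z', h1, h2, -⟩ := hz
  obtain ⟨-, tz, cz, -⟩ := hD
  have tz' : i - lev z = 2 := tz
  obtain ⟨w, w2, hw, hcz⟩ := card_eq_two.1 cz
  have m1 : w ∈ dc z := by rw [hcz]; simp
  have m2 : w2 ∈ dc z := by rw [hcz]; simp
  have l1 := lev_dc G.H m1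
  have l2 := lev_dc G.H m2
  exact h2 (ucv_uniq G (by omega) hw (by omega) (mem_dc.1 (h1 ▸ m1)) (mem_dc.1 (h1 ▸ m2))
    (mem_dc.1 m1) (mem_dc.1 m2))

include G hT hQ hM hL hU hd hc in
/-- THE INEQUALITY FOR CORES of energy at most nine -/
theorem general9 (hs : ∑ x, e x ≤ 9) : 6 * (((AL i e).card : ℤ) + (AU i e).card) ≤
    2 * ∑ x, (e x : ℤ) + 6 * ((pL i e : ℤ) + pU i e) +
      2 * (((P1L i psi e).card : ℤ) + (P1U i psi e).card + (GS i psi e).card) +
      (((TWL i e).card : ℤ) + (TWLx i e).card) + 4 * ((Xg.CC i e).card : ℤ) := by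
  have h1 := generalx G hT hQ hM hL hU hd hc
  have h2 := TWU_empty (e := e) G
  have h3 := (TWx_card (i := i) (e := e)).2
  rw [h2, card_empty] at h3
  rw [nf_empty G hT hL hs, h2, card_empty] at h1
  have h4 : ((TWUx i e).card : ℤ) = 0 := by
    have : (TWUx i e).card = 0 := by omega
    exact_mod_cast this
  push_cast at h1
  linarith

end Pool.Agent.GaussPoset.Win.Rd

end
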