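import Mathlib
import Pool.Agent.W_448zz_h61.Ns
import Pool.Agent.W_448zz_h61.M018
import Pool.Agent.W_448zz_h61.M096
import Pool.Agent.W_448zz_h61.M118
import Pool.Agent.W_448zz_h61.M146

/-! From `Pool.Agent.W_448ut_h16.UtA` -/

section

/-!
# Weights and lowest forms (MP_448cb3_co, unit trick)

The energy variable has weight `1`, the variable `dd` has weight `2`. `Wg w f`: every monomial of `f`
has weight at least `w`; `Gf w f`: the form of weight `w`, as a polynomial in `dd`.
-/

namespace Pool.Agent.GaussPoset.Win.Ut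

set_option linter.unusedSectionVars false

open Finset

/-- the form of weight `w` -/
noncomputable def Gf (w : ℕ) (f : PowerSeries A) : Polynomial ℤ :=
  ∑ m ∈ Finset.range (w / 2 + 1),
    Polynomial.monomial m (PowerSeries.coeff m (PowerSeries.coeff (w - 2 * m) f : A))

lemma coeff_Gf (w : ℕ) (f : PowerSeries A) (m : ℕ) : (Gf w f).coeff m =
    if 2 * m ≤ w then PowerSeries.coeff m (PowerSeries.coeff (w - 2 * m) f : A) else 0 := by
  unfold Gf
  rw [Polynomial.finsetSum_coeff]
  simp only [Polynomial.coeff_monomial]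
  rw [Finset.sum_ite_eq']
  simp only [Finset.mem_range]
  by_cases h : 2 * m ≤ w
  · rw [if_pos (by omega), if_pos h]
  · rw [if_neg (by omega), if_neg h]

end Pool.Agent.GaussPoset.Win.Ut

end

/-! From `Pool.Agent.W_448ut_h16.UtB` -/

section

/-!
# Factorisation over the untouched components (MP_448cb3_co, unit trick)

`US l κ S`: the elements all of whose labels on the levels `≤ l` are in `S`. `Tch l κ e`: the labels of
the components touched by the cross elements of the support of `e`. `XS i l κ S`: the window series of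
the configurations which touch exactly `S`. `indiv_K`: if every component has grade at least `-1` and
the cross series of every nonempty `S` has grade at least `1`, then every component has the grade zero
part `1` and nothing of grade `-1`.
-/

namespace Pool.Agent.GaussPoset.Win.Ut

set_option linter.unusedSectionVars false

open Finset I2

universe u

section pred

variable {P : Type u} [Fintype P] [PartialOrder P] [DecidableEq P] {r i : ℕ} {C D : Finset P}

/-- the window sum of a union with a condition on the first part -/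
theorem ZC_union_pred (H : Gr P r) (hir : i ≤ r) (hC : Part i C) (hD : Part i D)
    (hCD : Disjoint C D) (p : (P → ℕ) → Prop) [DecidablePred p]
    (hp : ∀ g, Spt (C ∪ D) g → (p g ↔ p (rst C g))) (n : ℕ) :
    ∑ g ∈ ((C ∪ D).piAntidiag n).filter p, tC i (C ∪ D) g =
      ∑ q ∈ antidiagonal n, (∑ e ∈ (C.piAntidiag q.1).filter p, tC i C e) * ZC i D q.2 := by
  have h1 : ∑ q ∈ antidiagonal n, (∑ e ∈ (C.piAntidiag q.1).filter p, tC i C e) * ZC i D q.2 =
      ∑ q ∈ (antidiagonal n).sigma
        (fun p' => ((C.piAntidiag p'.1).filter p) ×ˢ D.piAntidiag p'.2),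
        tC i C q.2.1 * tC i D q.2.2 := by
    rw [Finset.sum_sigma]
    refine Finset.sum_congr rfl fun p' _ => ?_
    unfold ZC
    rw [Finset.sum_mul_sum, ← Finset.sum_product']
  rw [h1]
  refine Finset.sum_bij'
    (i := fun g _ => (⟨(C.sum g, D.sum g), (rst C g, rst D g)⟩ :
      Σ _ : ℕ × ℕ, (P → ℕ) × (P → ℕ)))
    (j := fun q _ => q.2.1 + q.2.2) ?_ ?_ ?_ ?_ ?_
  · intro g hg
    rw [mem_filter] at hg
    obtain ⟨hg, hpg⟩ := hg
    have hs := spt_of_mem hg
    rw [mem_piAntidiag] at hg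
    rw [mem_sigma]
    refine ⟨?_, ?_⟩
    · rw [Finset.HasAntidiagonal.mem_antidiagonal]
      simp only
      rw [← Finset.sum_union hCD]
      exact hg.1
    · rw [mem_product, mem_filter, mem_piAntidiag, mem_piAntidiag]
      refine ⟨⟨⟨rst_sum C g, fun x hx => ?_⟩, (hp g hs).1 hpg⟩, ⟨rst_sum D g, fun x hx => ?_⟩⟩
      · by_contra h; exact hx (rst_spt C g x h)
      · by_contra h; exact hx (rst_spt D g x h)
  · rintro ⟨⟨a, b⟩, ⟨e, f⟩⟩ hq
    rw [mem_sigma, mem_product] at hq
    simp only at hq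
    obtain ⟨hab, he, hf⟩ := hq
    rw [mem_filter] at he
    obtain ⟨he, hpe⟩ := he
    have hse := spt_of_mem he
    have hsf := spt_of_mem hf
    rw [mem_piAntidiag] at he hf
    rw [Finset.HasAntidiagonal.mem_antidiagonal] at hab
    rw [mem_filter, mem_piAntidiag]
    simp only
    refine ⟨⟨?_, ?_⟩, ?_⟩
    · have h2 := sum_zero_of hCD hse
      have h3 := sum_zero_of hCD.symm hsf
      have h4 : C.sum (e + f) = a := by
        have : C.sum (e + f) = C.sum e + C.sum f := by
          rw [← Finset.sum_add_distrib]; rfl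
        rw [this, he.1, h3, add_zero]
      have h5 : D.sum (e + f) = b := by
        have : D.sum (e + f) = D.sum e + D.sum f := by
          rw [← Finset.sum_add_distrib]; rfl
        rw [this, hf.1, h2, zero_add]
      rw [Finset.sum_union hCD, h4, h5]
      exact hab
    · intro x hx
      by_contra h
      exact hx ((hse.add hsf) x h)
    · rw [hp _ (hse.add hsf), rst_left hCD hse hsf]
      exact hpe
  · intro g hg
    rw [mem_filter] at hg
    exact rst_add_rst hCD (spt_of_mem hg.1)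
  · rintro ⟨⟨a, b⟩, ⟨e, f⟩⟩ hq
    rw [mem_sigma, mem_product] at hq
    simp only at hq
    obtain ⟨hab, he, hf⟩ := hq
    rw [mem_filter] at he
    obtain ⟨he, hpe⟩ := he
    have hse := spt_of_mem he
    have hsf := spt_of_mem hf
    rw [mem_piAntidiag] at he hf
    have h2 := sum_zero_of hCD hse
    have h3 := sum_zero_of hCD.symm hsf
    have h4 : C.sum (e + f) = a := by
      have : C.sum (e + f) = C.sum e + C.sum f := by
        rw [← Finset.sum_add_distrib]; rfl
      rw [this, he.1, h3, add_zero]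
    have h5 : D.sum (e + f) = b := by
      have : D.sum (e + f) = D.sum e + D.sum f := by
        rw [← Finset.sum_add_distrib]; rfl
      rw [this, hf.1, h2, zero_add]
    have h6 : rst C (e + f) = e := rst_left hCD hse hsf
    have h7 : rst D (e + f) = f := by
      rw [add_comm e f]
      exact rst_left hCD.symm hsf hse
    simp only [h4, h5, h6, h7]
  · intro g hg
    rw [mem_filter] at hg
    have hs := spt_of_mem hg.1
    simp only
    rw [← tC_add H hir hC hD hCD (rst_spt C g) (rst_spt D g), rst_add_rst hCD hs]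

end pred

variable {P : Type u} [Fintype P] [PartialOrder P] [DecidableEq P] {r i l : ℕ}

variable {ι : Type*} [DecidableEq ι] {κ : P → ι}

open Classical in
/-- the elements all of whose labels are in `S` -/
noncomputable def US (l : ℕ) (κ : P → ι) (S : Finset ι) : Finset P :=
  univ.filter (fun x => ∀ y, x ≤ y → lev y ≤ l → κ y ∈ S)

open Classical in
/-- the components touched by the cross elements of a configuration -/
noncomputable def Tch (l : ℕ) (κ : P → ι) (e : P → ℕ) : Finset ι :=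
  (univ.filter (fun y : P => lev y ≤ l ∧ ∃ z, z ∉ cuni l κ ∧ e z ≠ 0 ∧ z ≤ y)).image κ

open Classical in
/-- the window series of the configurations which touch exactly `S` -/
noncomputable def XC (i l : ℕ) (κ : P → ι) (S : Finset ι) (n : ℕ) : A :=
  ∑ e ∈ ((US l κ S).piAntidiag n).filter (fun e => Tch l κ e = S), tC i (US l κ S) e

/-- the window series of the configurations which touch exactly `S` -/
noncomputable def XS (i l : ℕ) (κ : P → ι) (S : Finset ι) : PowerSeries A :=
  PowerSeries.mk (XC i l κ S)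

lemma mem_US {S : Finset ι} {x : P} : x ∈ US l κ S ↔ ∀ y, x ≤ y → lev y ≤ l → κ y ∈ S := by
  classical
  unfold US
  simp

lemma mem_Tch {e : P → ℕ} {a : ι} : a ∈ Tch l κ e ↔
    ∃ y, (lev y ≤ l ∧ ∃ z, z ∉ cuni l κ ∧ e z ≠ 0 ∧ z ≤ y) ∧ κ y = a := by
  classical
  unfold Tch
  simp

theorem part_US (H : Gr P r) (hil : i ≤ l) (hκ : Split l κ) (S : Finset ι) :
    Part i (US l κ S) where
  up := by
    intro x y hx hxy
    rw [mem_US] at hx ⊢
    exact fun w hw hl => hx w (hxy.le.trans hw) hl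
  dn := by
    intro x y hy hl hxy
    have h1 := lev_uc H (mem_uc.2 hxy)
    rw [mem_US] at hy ⊢
    intro w hw hwl
    have h2 : κ x = κ w := hκ.le x hw (by omega)
    rw [← h2, hκ hxy (by omega)]
    exact hy y le_rfl (by omega)

lemma US_empty : US l κ (∅ : Finset ι) = ∅ := by
  rw [Finset.eq_empty_iff_forall_notMem]
  intro x hx
  rw [mem_US] at hx
  obtain ⟨y, hy, hy0⟩ := exists_top x
  exact absurd (hx y hy (by omega)) (notMem_empty _)

lemma disj_US {S : Finset ι} {a : ι} (ha : a ∉ S) : Disjoint (US l κ S) (cext l κ a) := by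
  rw [disjoint_left]
  intro x hx hx'
  rw [mem_US] at hx
  rw [mem_cext] at hx'
  obtain ⟨y, hy, hy0⟩ := exists_top x
  have h1 := hx y hy (by omega)
  rw [hx' y hy (by omega)] at h1
  exact ha h1

lemma disj_rest (s S : Finset ι) : Disjoint (US l κ S) ((s \ S).biUnion (cext l κ)) := by
  rw [disjoint_biUnion_right]
  intro a ha
  exact disj_US (mem_sdiff.1 ha).2

lemma cext_sub_US {S : Finset ι} {a : ι} (ha : a ∈ S) : cext l κ a ⊆ US l κ S := by
  intro x hx
  rw [mem_cext] at hx
  rw [mem_US]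
  intro y hy hl
  rw [hx y hy hl]
  exact ha

/-- all sites -/
lemma st_all (hil : i ≤ l) (hκ : Split l κ) {S : Finset ι} :
    st i (US l κ S ∪ ((univ.image κ) \ S).biUnion (cext l κ)) = lv P i := by
  ext v
  rw [mem_st, mem_lv, mem_union, mem_biUnion]
  refine ⟨fun h => h.2, fun h => ⟨?_, h⟩⟩
  by_cases hv : κ v ∈ S
  · left
    exact cext_sub_US hv (mem_cext_of_le hκ (by omega) rfl)
  · right
    exact ⟨κ v, mem_sdiff.2 ⟨mem_image_of_mem κ (mem_univ v), hv⟩,
      mem_cext_of_le hκ (by omega) rfl⟩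

/-- a configuration touching exactly `S` is supported on `US S` and the other components -/
lemma Tch_spt {e : P → ℕ} {S : Finset ι} (h : Tch l κ e = S) :
    Spt (US l κ S ∪ ((univ.image κ) \ S).biUnion (cext l κ)) e := by
  intro x hx
  by_contra h0
  apply hx
  rw [mem_union, mem_biUnion]
  by_cases hc : x ∈ cuni l κ
  · unfold cuni at hc
    rw [mem_biUnion] at hc
    obtain ⟨a, ha, hxa⟩ := hc
    by_cases haS : a ∈ S
    · exact Or.inl (cext_sub_US haS hxa)
    · exact Or.inr ⟨a, mem_sdiff.2 ⟨ha, haS⟩, hxa⟩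
  · left
    rw [mem_US]
    intro y hy hl
    rw [← h, mem_Tch]
    exact ⟨y, ⟨hl, x, hc, h0, hy⟩, rfl⟩

lemma cext_sub_cuni {a : ι} (ha : a ∈ univ.image κ) : cext l κ a ⊆ cuni l κ := by
  intro x hx
  unfold cuni
  rw [mem_biUnion]
  exact ⟨a, ha, hx⟩

lemma Tch_rst {S : Finset ι} {g : P → ℕ}
    (hg : Spt (US l κ S ∪ ((univ.image κ) \ S).biUnion (cext l κ)) g) :
    Tch l κ g = Tch l κ (rst (US l κ S) g) := by
  ext a
  rw [mem_Tch, mem_Tch]
  have key : ∀ z, z ∉ cuni l κ → (g z ≠ 0 ↔ rst (US l κ S) g z ≠ 0) := by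
    intro z hz
    unfold rst
    by_cases h1 : z ∈ US l κ S
    · rw [if_pos h1]
    · rw [if_neg h1]
      refine ⟨fun h2 => ?_, fun h2 => absurd rfl h2⟩
      exfalso
      apply h2
      apply hg
      rw [mem_union, not_or]
      refine ⟨h1, fun h3 => hz ?_⟩
      rw [mem_biUnion] at h3
      obtain ⟨b, hb, hzb⟩ := h3
      exact cext_sub_cuni (mem_sdiff.1 hb).1 hzb
  constructor
  · rintro ⟨y, ⟨h1, z, h2, h3, h4⟩, h5⟩
    exact ⟨y, ⟨h1, z, h2, (key z h2).1 h3, h4⟩, h5⟩
  · rintro ⟨y, ⟨h1, z, h2, h3, h4⟩, h5⟩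
    exact ⟨y, ⟨h1, z, h2, (key z h2).2 h3, h4⟩, h5⟩

open Classical in
/-- the configurations touching exactly `S` factor -/
theorem sum_Tch (H : Gr P r) (hir : i ≤ r) (hil : i ≤ l) (hκ : Split l κ) (S : Finset ι) (n : ℕ) :
    ∑ e ∈ ((univ : Finset P).piAntidiag n).filter (fun e => Tch l κ e = S), trm i e =
      PowerSeries.coeff n (XS i l κ S * ∏ a ∈ (univ.image κ) \ S, ZS i (cext l κ a)) := by
  set D := ((univ.image κ) \ S).biUnion (cext l κ) with hD
  set C := US l κ S with hC
  have hPC : Part i C := part_US H hil hκ S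
  have hPD : Part i D := Part.biUnion _ _ fun a _ => part_cext H hil hκ a
  have hCD : Disjoint C D := disj_rest _ S
  have h1 : ∑ e ∈ ((univ : Finset P).piAntidiag n).filter (fun e => Tch l κ e = S), trm i e =
      ∑ e ∈ ((C ∪ D).piAntidiag n).filter (fun e => Tch l κ e = S), tC i (C ∪ D) e := by
    refine Finset.sum_congr ?_ fun e _ => ?_
    · ext e
      rw [mem_filter, mem_filter, mem_pa, mem_pa]
      constructor
      · rintro ⟨⟨h2, -⟩, h3⟩
        exact ⟨⟨h2, Tch_spt h3⟩, h3⟩
      · rintro ⟨⟨h2, -⟩, h3⟩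
        exact ⟨⟨h2, fun x hx => absurd (mem_univ x) hx⟩, h3⟩
    · unfold tC trm
      rw [st_all hil hκ]
  rw [h1, ZC_union_pred H hir hPC hPD hCD (fun e => Tch l κ e = S) (fun g hg => by
    rw [Tch_rst hg]), PowerSeries.coeff_mul]
  refine Finset.sum_congr rfl fun q _ => ?_
  rw [← ZS_biUnion H hir _ _ (fun a _ => part_cext H hil hκ a) (fun _ _ _ _ h => disj_cext h),
    coeff_ZS]
  unfold XS XC
  rw [PowerSeries.coeff_mk]

lemma Tch_zero : Tch l κ (0 : P → ℕ) = ∅ := by
  rw [Finset.eq_empty_iff_forall_notMem]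
  intro a ha
  rw [mem_Tch] at ha
  obtain ⟨y, ⟨-, z, -, h, -⟩, -⟩ := ha
  exact h rfl

lemma XS_empty (H : Gr P r) (hir : i ≤ r) : XS i l κ (∅ : Finset ι) = 1 := by
  classical
  ext1 n
  unfold XS XC
  rw [PowerSeries.coeff_mk, US_empty]
  rcases Nat.eq_zero_or_pos n with rfl | hn
  · rw [Finset.piAntidiag_zero, Finset.filter_singleton, if_pos Tch_zero, Finset.sum_singleton,
      tC_zero H hir, PowerSeries.coeff_one, if_pos rfl]
    simp [st]
  · rw [Finset.piAntidiag_empty_of_ne_zero (by omega), Finset.filter_empty, Finset.sum_empty,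
      PowerSeries.coeff_one, if_neg (by omega)]

lemma Tch_sub (e : P → ℕ) : Tch l κ e ⊆ univ.image κ := by
  intro a ha
  rw [mem_Tch] at ha
  obtain ⟨y, -, rfl⟩ := ha
  exact mem_image_of_mem κ (mem_univ y)

/-- the window series of the whole poset -/
noncomputable def TS (P : Type u) [Fintype P] [PartialOrder P] [DecidableEq P] (i : ℕ) :
    PowerSeries A := PowerSeries.mk fun n => ∑ e ∈ (univ : Finset P).piAntidiag n, trm i e

/-- (A1) FACTORISATION OVER THE UNTOUCHED COMPONENTS -/
theorem TS_eq (H : Gr P r) (hir : i ≤ r) (hil : i ≤ l) (hκ : Split l κ) :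
    TS P i = ∏ a ∈ univ.image κ, ZS i (cext l κ a) +
      ∑ S ∈ (univ.image κ).powerset.erase ∅,
        XS i l κ S * ∏ a ∈ (univ.image κ) \ S, ZS i (cext l κ a) := by
  classical
  have h0 : (∅ : Finset ι) ∈ (univ.image κ).powerset := mem_powerset.2 (empty_subset _)
  have h1 : ∏ a ∈ univ.image κ, ZS i (cext l κ a) =
      XS i l κ (∅ : Finset ι) * ∏ a ∈ (univ.image κ) \ ∅, ZS i (cext l κ a) := by
    rw [XS_empty H hir, one_mul, sdiff_empty]
  rw [h1, Finset.add_sum_erase _ (fun S => XS i l κ S *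
    ∏ a ∈ (univ.image κ) \ S, ZS i (cext l κ a)) h0]
  ext1 n
  rw [map_sum, Finset.sum_congr rfl fun S _ => (sum_Tch H hir hil hκ S n).symm]
  unfold TS
  rw [PowerSeries.coeff_mk]
  symm
  exact Finset.sum_fiberwise_of_maps_to (fun e _ => mem_powerset.2 (Tch_sub e)) _

lemma TS_form (H : Gr P r) (hir : i ≤ r) :
    Gf (2 * (lv P i).card) (TS P i) = Polynomial.X ^ (lv P i).card := by
  ext m
  rw [coeff_Gf, Polynomial.coeff_X_pow]
  unfold TS
  rcases Nat.lt_trichotomy m (lv P i).card with h | h | h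
  · rw [if_pos (by omega), if_neg (by omega), PowerSeries.coeff_mk]
    exact coeff_zero_of_dvd (dvd_sum_trm H hir _) h
  · rw [if_pos (by omega), if_pos h, PowerSeries.coeff_mk,
      show 2 * (lv P i).card - 2 * m = 0 by omega, Finset.piAntidiag_zero, Finset.sum_singleton]
    have h1 := tC_zero H hir (univ : Finset P)
    have h2 : st i (univ : Finset P) = lv P i := by
      ext v
      rw [mem_st, mem_lv]
      simp
    have h3 : trm i (0 : P → ℕ) = tC i (univ : Finset P) (0 : P → ℕ) := by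
      unfold tC trm
      rw [h2]
    rw [h3, h1, h2, h]
    unfold dd
    rw [PowerSeries.coeff_X_pow, if_pos rfl]
  · rw [if_neg (by omega), if_neg (by omega)]

end Pool.Agent.GaussPoset.Win.Ut

end

/-! From `Pool.Agent.W_448so_h63.GH` -/

section

/-!
The identity (6,4) at the window j (MP_448cb3_co, case B): the sums over the configurations which
excite an element outside the components.
-/

namespace Pool.Agent.GaussPoset.Win.K2

set_option linter.unusedSectionVars false

open Finset I2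

universe u

variable {P : Type u} [Fintype P] [PartialOrder P] [DecidableEq P] {r i : ℕ} {e : P → ℕ}

variable {ι : Type*} [DecidableEq ι] {κ : P → ι} {K : Finset P} {psi : P → P}

/-- the configuration excites an element outside the components -/
def Cr (i : ℕ) (κ : P → ι) (e : P → ℕ) : Prop := ∃ z, z ∉ cuni (i + 1) κ ∧ 1 ≤ e z

/-- divisibility of a term by its order -/
lemma tC_dvd {C : Finset P} {m s : ℕ}
    (h : AdmL i e → AdmU i e → Disjoint (AL i e) (AU i e) →
      (AL i e).card + (AU i e).card ≤ m + (pL i e + pU i e) + s) :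
    dd ^ ((st i C).card - m) ∣ tC i C e * dd ^ s := by
  unfold tC
  by_cases hd : Disjoint (AL i e) (AU i e)
  · rw [if_pos hd]
    unfold cw
    by_cases hA : AdmL i e ∧ AdmU i e
    · rw [if_pos hA]
      have h1 := h hA.1 hA.2 hd
      have h3 : xx ^ aL i e * xi ^ (aU i e + pU i e) * dd ^ (pL i e + pU i e) *
          (xx ^ (AL i e).card * dd ^ ((st i C).card - (AL i e).card - (AU i e).card)) *
          dd ^ s =
          (xx ^ aL i e * xi ^ (aU i e + pU i e) * xx ^ (AL i e).card) *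
            dd ^ ((pL i e + pU i e) + ((st i C).card - (AL i e).card - (AU i e).card) + s) := by
        ring
      rw [h3]
      refine Dvd.dvd.mul_left (pow_dvd_pow _ ?_) _
      omega
    · rw [if_neg hA, zero_mul, zero_mul]
      exact dvd_zero _
  · rw [if_neg hd, zero_mul]
    exact dvd_zero _

lemma tC_univ : tC i univ e = trm i e := by
  unfold tC trm
  have : st i (univ : Finset P) = lv P i := by
    ext x
    rw [mem_st, mem_lv]
    exact ⟨fun h => h.2, fun h => ⟨mem_univ x, h⟩⟩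
  rw [this]

lemma st_univ : st i (univ : Finset P) = lv P i := by
  ext x
  rw [mem_st, mem_lv]
  exact ⟨fun h => h.2, fun h => ⟨mem_univ x, h⟩⟩

lemma trm_dvd {m : ℕ}
    (h : AdmL i e → AdmU i e → Disjoint (AL i e) (AU i e) →
      (AL i e).card + (AU i e).card ≤ m + (pL i e + pU i e)) :
    dd ^ ((lv P i).card - m) ∣ trm i e := by
  have := tC_dvd (C := (univ : Finset P)) (e := e) (i := i) (m := m) (s := 0)
    (fun h1 h2 h3 => by have := h h1 h2 h3; omega)
  rwa [pow_zero, mul_one, tC_univ, st_univ] at this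

open Classical in
/-- ENERGY AT MOST THREE -/
theorem cross3 (H : Gr P r) (hir : i ≤ r) (hq : NoQ P (i + 2))
    (hg : ∀ m, m + 1 = i → Good P m) (hκ : Split (i + 1) κ) {n : ℕ} (hn : n ≤ 3) :
    dd ^ ((lv P i).card - 1) ∣ ∑ e ∈ ((univ : Finset P).piAntidiag n).filter (Cr i κ), trm i e := by
  refine Finset.dvd_sum fun e he => ?_
  rw [mem_filter, mem_pa] at he
  obtain ⟨⟨h1, -⟩, z, hz, hz1⟩ := he
  exact trm_dvd fun hL hU _ => cross_three H hir hq hg hκ hL hU (by omega) hz hz1

lemma sum_eZ (H : Gr P r) (hK : K ⊆ dbL P i ∪ dbU P i) {z : P} {a : ℕ} {M : Finset P}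
    (h : ((z, a), M) ∈ S0 i κ K) : ∑ x, eZ a z M x = 6 := by
  classical
  rw [mem_S0] at h
  obtain ⟨hz, ha, hM, hd, hc⟩ := h
  obtain ⟨-, y, v, S⟩ := mem_Z2.1 hz
  have hlz := S.lz
  rw [← Finset.add_sum_erase univ _ (mem_univ z), eZ_self]
  have h4 : ∀ x ∈ univ.erase z, eZ a z M x = if x ∈ uc z ∪ M then 1 else 0 := by
    intro x hx
    unfold eZ
    rw [if_neg (mem_erase.1 hx).1]
  rw [Finset.sum_congr rfl h4, Finset.sum_ite_mem, Finset.sum_const, smul_eq_mul, mul_one]
  have h5 : univ.erase z ∩ (uc z ∪ M) = uc z ∪ M := by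
    ext x
    rw [mem_inter, mem_erase]
    constructor
    · exact fun h => h.2
    · intro h
      refine ⟨⟨?_, mem_univ x⟩, h⟩
      rintro rfl
      rcases mem_union.1 h with h | h
      · have := lev_uc H h
        omega
      · have := lev_M (hM.trans hK) h
        omega
  rw [h5, card_union_of_disjoint hd.symm, S.huc, card_pair S.ne]
  omega

open Classical in
/-- ENERGY SIX: the leading coefficient of the cross part -/
theorem cross6 (H : Gr P r) (hir : i ≤ r) (hq : NoQ P (i + 2))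
    (hg : ∀ m, m + 1 = i → Good P m) (hκ : Split (i + 1) κ) (hM : Mat P i K psi)
    (hK : K ⊆ dbL P i ∪ dbU P i) :
    dd ^ ((lv P i).card - 3) ∣
      ∑ e ∈ ((univ : Finset P).piAntidiag 6).filter (Cr i κ), trm i e +
        ((∑ z ∈ Z2 i κ, (EK.Ek i K (Tz z) 3 + EK.Ek i K (Tz z) 2) : ℤ) : A) *
          dd ^ ((lv P i).card - 4) := by
  set Ω := ((univ : Finset P).piAntidiag 6).filter (Cr i κ) with hΩ
  set Ω0 := (S0 i κ K).image F0 with hΩ0
  have hsub : Ω0 ⊆ Ω := by
    intro e he
    rw [hΩ0, mem_image] at he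
    obtain ⟨⟨⟨z, a⟩, M⟩, hp, rfl⟩ := he
    rw [hΩ, mem_filter, mem_pa]
    refine ⟨⟨sum_eZ H hK hp, fun x hx => absurd (mem_univ x) hx⟩, z, ?_⟩
    rw [mem_S0] at hp
    refine ⟨(mem_Z2.1 hp.1).1, ?_⟩
    unfold F0
    simp only
    rw [eZ_self]
    omega
  have h1 : dd ^ ((lv P i).card - 3) ∣ ∑ e ∈ Ω \ Ω0, trm i e := by
    have h2 : ∑ e ∈ Ω \ Ω0, trm i e = ∑ e ∈ Ω \ Ω0, tC i univ e :=
      Finset.sum_congr rfl fun e _ => tC_univ.symm
    rw [h2]
    refine class_dvd hM H ?_ ?_
    · intro e he y hy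
      rw [mem_sdiff] at he ⊢
      have hSK := SK_sw hM H hy
      obtain ⟨he1, he2⟩ := he
      rw [hΩ, mem_filter, mem_pa] at he1
      obtain ⟨⟨h3, -⟩, z, hz, hz1⟩ := he1
      constructor
      · rw [hΩ, mem_filter, mem_pa]
        refine ⟨⟨by rw [sum_sw]; exact h3, fun x hx => absurd (mem_univ x) hx⟩, z, hz, ?_⟩
        have h4 := (two_up H hκ hz).1
        have h5 := mem_SK.1 hy
        rw [sw_lev hM (mem_SK2.1 hy).1 (by omega) (by omega)]
        exact hz1
      · intro h4
        rw [hΩ0, mem_image] at h4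
        obtain ⟨⟨⟨z', a⟩, M⟩, hp, hpe⟩ := h4
        rw [mem_S0] at hp
        obtain ⟨hz', ha, hMK, -, -⟩ := hp
        obtain ⟨-, y', v', S⟩ := mem_Z2.1 hz'
        have h5 := SK_eZ H hM S ha hMK
        have h6 : eZ a z' M = sw psi y e := hpe
        rw [h6, hSK] at h5
        rw [h5] at hy
        exact absurd hy (notMem_empty _)
    · intro e he
      rw [mem_sdiff] at he
      obtain ⟨he1, he2⟩ := he
      rw [hΩ, mem_filter, mem_pa] at he1
      obtain ⟨⟨h3, -⟩, z, hz, hz1⟩ := he1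
      have h4 := tC_dvd (C := (univ : Finset P)) (e := e) (i := i) (m := 3)
        (s := (SK i K psi e).card) (fun hL hU hd => by
          rcases cross_six H hir hq hg hκ hM hL hU hd h3 hz hz1 with h | ⟨h, h5 | h5⟩
          · omega
          · have := card_pos.2 h5
            omega
          · exfalso
            obtain ⟨z', y', v', a, M, S, hz', ha, hMK, hdM, hc, heq⟩ := h5
            apply he2
            rw [hΩ0, mem_image]
            exact ⟨((z', a), M), mem_S0.2 ⟨mem_Z2.2 ⟨hz', y', v', S⟩, ha, hMK, hdM, hc⟩, heq.symm⟩)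
      rwa [st_univ] at h4
  have h2 : ∑ e ∈ Ω, trm i e = ∑ e ∈ Ω \ Ω0, trm i e + ∑ p ∈ S0 i κ K, trm i (F0 p) := by
    rw [← Finset.sum_image (F0_inj H hK), ← hΩ0, Finset.sum_sdiff hsub]
  have h3 : dd ^ ((lv P i).card - 3) ∣ ∑ p ∈ S0 i κ K,
      (trm i (F0 p) + ((c0 i p : ℤ) : A) * dd ^ ((lv P i).card - 4)) := by
    refine Finset.dvd_sum ?_
    rintro ⟨⟨z, a⟩, M⟩ hp
    rw [mem_S0] at hp
    obtain ⟨hz, ha, hMK, hdM, hc⟩ := hp
    obtain ⟨-, y, v, S⟩ := mem_Z2.1 hz
    have h4 := trm_eZ H hir S.lz S.huc S.ne (S.card_T H hκ) ha (hMK.trans hK) hdM hc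
    unfold c0 F0
    simp only
    rw [S.Tz]
    exact h4
  rw [← sum_c0 H hK, h2]
  rw [Finset.sum_add_distrib, ← Finset.sum_mul] at h3
  push_cast
  have h5 := dvd_add h1 h3
  rwa [← add_assoc] at h5

open Classical in
/-- the product over the components is the total minus the cross part -/
theorem prod_eq (H : Gr P r) (hir : i ≤ r) (hκ : Split (i + 1) κ) (n : ℕ) :
    PowerSeries.coeff n (∏ a ∈ univ.image κ, VV i (i + 1) κ a) =
      ∑ e ∈ (univ : Finset P).piAntidiag n, trm i e -
      ∑ e ∈ ((univ : Finset P).piAntidiag n).filter (Cr i κ), trm i e := by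
  unfold VV
  rw [← ZS_cuni H hir (by omega) hκ, coeff_ZS, eq_sub_iff_add_eq, add_comm]
  rw [← Finset.sum_filter_add_sum_filter_not ((univ : Finset P).piAntidiag n) (Cr i κ)]
  congr 1
  unfold ZC
  have h2 : ((univ : Finset P).piAntidiag n).filter (fun e => ¬ Cr i κ e) =
      (cuni (i + 1) κ).piAntidiag n := by
    ext e
    rw [mem_filter, mem_pa, mem_pa]
    constructor
    · rintro ⟨⟨h3, -⟩, h4⟩
      refine ⟨h3, fun x hx => ?_⟩
      by_contra h5
      exact h4 ⟨x, hx, by omega⟩
    · rintro ⟨h3, h4⟩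
      refine ⟨⟨h3, fun x hx => absurd (mem_univ x) hx⟩, ?_⟩
      rintro ⟨z, hz, hze⟩
      have := h4 z hz
      omega
  rw [h2]
  refine Finset.sum_congr rfl fun e _ => ?_
  unfold tC trm
  rw [st_cuni (by omega) hκ]

end Pool.Agent.GaussPoset.Win.K2

end

/-! From `Pool.Agent.W_448so_h63.GI` -/

section

/-!
The identity (6,4) at the window j (MP_448cb3_co, case B): the assembly.
-/

namespace Pool.Agent.GaussPoset.Win.K2

set_option linter.unusedSectionVars false

open Finset I2

universe u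

variable {P : Type u} [Fintype P] [PartialOrder P] [DecidableEq P] {r i : ℕ} {e : P → ℕ}

variable {ι : Type*} [DecidableEq ι] {κ : P → ι} {K : Finset P} {psi : P → P}

/-- there are at least four sites if two elements have disjoint sites -/
lemma Ek_small (H : Gr P r) (hK : K ⊆ dbL P i ∪ dbU P i) (hb : (lv P i).card < 4) {k : ℕ}
    (hk : 2 ≤ k) (T : Finset P) : EK.Ek i K T k = 0 := by
  classical
  rw [EK.Ek_eq hK]
  refine Finset.sum_eq_zero fun M hM => ?_
  exfalso
  rw [mem_filter, mem_powersetCard] at hM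
  obtain ⟨⟨-, h1⟩, h2, -⟩ := hM
  have h3 := Dj_two_le H h2
  omega

lemma coeff_int_dd (b : ℕ) (E : ℤ) : PowerSeries.coeff b (((E : ℤ) : A) * dd ^ b) = E := by
  have h : ((E : ℤ) : A) = PowerSeries.C E := by simp
  rw [h, PowerSeries.coeff_C_mul]
  unfold dd
  rw [PowerSeries.coeff_X_pow, if_pos rfl, mul_one]

/-- THE IDENTITY (6,4), general form: for every set `K` of unmatched elements -/
theorem six_four (H : Gr P r) (hir : i ≤ r) (hq : NoQ P (i + 2))
    (hg : ∀ m, m + 1 = i → Good P m) (hκ : Split (i + 1) κ) (hM : Mat P i K psi)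
    (hK : K ⊆ dbL P i ∪ dbU P i)
    (hP : ∀ a ∈ univ.image κ, PG (bb i (i + 1) κ a) (VV i (i + 1) κ a)) :
    ∑ a ∈ univ.image κ, (w3 (bb i (i + 1) κ a) (VV i (i + 1) κ a) ^ 2 -
      2 * w6 (bb i (i + 1) κ a) (VV i (i + 1) κ a)) =
      - (2 * ∑ z ∈ Z2 i κ, (EK.Ek i K (Tz z) 3 + EK.Ek i K (Tz z) 2)) := by
  classical
  rw [sum_sq_PG _ _ _ hP (fun a _ => eps_VV H hir a)]
  have hB : ∑ a ∈ univ.image κ, bb i (i + 1) κ a = (lv P i).card := sum_card_st (by omega) hκ
  rw [hB]
  have htot : ∀ n, dd ^ (lv P i).card ∣ ∑ e ∈ (univ : Finset P).piAntidiag n, trm i e :=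
    fun n => dvd_sum_trm H hir n
  have h3 : w3 (lv P i).card (∏ a ∈ univ.image κ, VV i (i + 1) κ a) = 0 := by
    unfold w3
    apply coeff_zero_of_dvd (a := (lv P i).card + 1)
    · rw [prod_eq H hir hκ]
      have h4 : dd ^ ((lv P i).card - 1) ∣
          ∑ e ∈ (univ : Finset P).piAntidiag 3, trm i e -
            ∑ e ∈ ((univ : Finset P).piAntidiag 3).filter (Cr i κ), trm i e :=
        dvd_sub ((pow_dvd_pow dd (Nat.sub_le _ _)).trans (htot 3))
          (cross3 H hir hq hg hκ le_rfl)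
      refine (pow_dvd_pow dd (show (lv P i).card + 1 ≤ 2 + ((lv P i).card - 1) by omega)).trans ?_
      rw [pow_add]
      exact mul_dvd_mul_left _ h4
    · omega
  have h6 : w6 (lv P i).card (∏ a ∈ univ.image κ, VV i (i + 1) κ a) =
      ∑ z ∈ Z2 i κ, (EK.Ek i K (Tz z) 3 + EK.Ek i K (Tz z) 2) := by
    unfold w6
    rw [prod_eq H hir hκ]
    have h1 := cross6 (K := K) (psi := psi) H hir hq hg hκ hM hK
    set E : ℤ := ∑ z ∈ Z2 i κ, (EK.Ek i K (Tz z) 3 + EK.Ek i K (Tz z) 2) with hE
    set R := ∑ e ∈ ((univ : Finset P).piAntidiag 6).filter (Cr i κ), trm i e with hR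
    set T := ∑ e ∈ (univ : Finset P).piAntidiag 6, trm i e with hT
    have h2 : dd ^ 4 * (T - R) = dd ^ 4 * (T - (R + ((E : ℤ) : A) *
        dd ^ ((lv P i).card - 4))) + dd ^ 4 * (((E : ℤ) : A) * dd ^ ((lv P i).card - 4)) := by
      ring
    have h4 : dd ^ ((lv P i).card - 3) ∣ T - (R + ((E : ℤ) : A) * dd ^ ((lv P i).card - 4)) :=
      dvd_sub ((pow_dvd_pow dd (Nat.sub_le _ _)).trans (htot 6)) h1
    have h5 : PowerSeries.coeff (lv P i).card (dd ^ 4 * (T - (R + ((E : ℤ) : A) *
        dd ^ ((lv P i).card - 4))) : A) = 0 := by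
      apply coeff_zero_of_dvd (a := (lv P i).card + 1)
      · refine (pow_dvd_pow dd (show (lv P i).card + 1 ≤ 4 + ((lv P i).card - 3) by omega)).trans ?_
        rw [pow_add]
        exact mul_dvd_mul_left _ h4
      · omega
    rw [h2, map_add, h5, zero_add]
    by_cases hb : 4 ≤ (lv P i).card
    · have h7 : dd ^ 4 * (((E : ℤ) : A) * dd ^ ((lv P i).card - 4)) =
          ((E : ℤ) : A) * dd ^ (lv P i).card := by
        have : dd ^ (lv P i).card = dd ^ 4 * dd ^ ((lv P i).card - 4) := by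
          rw [← pow_add]
          congr 1
          omega
        rw [this]
        ring
      rw [h7, coeff_int_dd]
    · have hE0 : E = 0 := by
        rw [hE]
        refine Finset.sum_eq_zero fun z _ => ?_
        rw [Ek_small H hK (by omega) (by norm_num), Ek_small H hK (by omega) (by norm_num), add_zero]
      rw [hE0]
      simp
  rw [h3, h6]
  ring

end Pool.Agent.GaussPoset.Win.K2

end

/-! From `Pool.Agent.W_448so_h63.GJ` -/

section

/-!
The identity (6,4) at the window j (MP_448cb3_co, case B): the profile of a component whose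
unmatched near elements form a star.
-/

namespace Pool.Agent.GaussPoset.Win.K2

set_option linter.unusedSectionVars false

open Finset I2

universe u

variable {P : Type u} [Fintype P] [PartialOrder P] [DecidableEq P] {r i : ℕ} {e : P → ℕ}

variable {ι : Type*} [DecidableEq ι] {κ : P → ι} {K C : Finset P} {psi : P → P}

/-- the window sum of a part with a star of unmatched elements -/
theorem K_class (H : Gr P r) (hir : i ≤ r) (hq : NoQ P (i + 2))
    (hg : ∀ m, m + 1 = i → Good P m) (hM : Mat P i K psi) (hC : Part (i + 1) C)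
    (hK : Star i C K) (n : ℕ) :
    dd ^ ((st i C).card - (n + 1) / 2) ∣ ZC i C n := by
  unfold ZC
  refine class_dvd hM H ?_ ?_
  · intro e he y hy
    rw [mem_pa] at he ⊢
    exact ⟨by rw [sum_sw]; exact he.1, spt_sw hM H hC he.2 hy⟩
  · intro e he
    rw [mem_pa] at he
    refine tC_dvd fun hL hU hd => ?_
    have h1 := K_bound H hir hq hg hM hK he.2 hL hU hd (δ := 0) (Or.inl rfl)
    rw [he.1] at h1
    omega

/-- the configuration with a single unit on a double near element -/
lemma tC_ind (H : Gr P r) (hir : i ≤ r) (hC : Part (i + 1) C) {k : P}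
    (hk : k ∈ dbL P i ∪ dbU P i) (hkC : k ∈ C) :
    1 ≤ (st i C).card ∧ tC i C (indK {k}) =
      dd ^ ((st i C).card - 1) * (if k ∈ dbU P i then xi else xx ^ 2) := by
  classical
  have hDj : Dj i {k} := by
    refine ⟨singleton_subset_iff.2 hk, ?_⟩
    intro x hx y hy hne
    rw [mem_singleton] at hx hy
    exact absurd (hx.trans hy.symm) hne
  have hC' : Part i C := ⟨fun h1 h2 => hC.up h1 h2, fun h1 h2 h3 => hC.dn h1 (by omega) h3⟩
  have hs : Spt C (indK {k}) := by
    intro x hx
    apply indK_of_not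
    rw [mem_singleton]
    rintro rfl
    exact hx hkC
  have hd := Dj_disj H hDj
  have hle := card_le_st H hC' hs hd
  have hA : AdmL i (indK {k}) := fun z hz h1 => Dj_FD H hDj hz h1.1
  have hB : AdmU i (indK {k}) := fun z hz h1 => Dj_FU H hDj hz h1.1
  have haL : aL i (indK {k}) = 0 := by
    unfold aL
    rw [card_eq_zero, filter_eq_empty_iff]
    rintro z _ ⟨h1, h2⟩
    exact Dj_FD H hDj h1 h2
  have haU : aU i (indK {k}) = 0 := by
    unfold aU
    rw [card_eq_zero, filter_eq_empty_iff]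
    rintro z _ ⟨h1, h2⟩
    exact Dj_FU H hDj h1 h2
  have h1 : (AL i (indK {k})).card = 2 * (({k} : Finset P) ∩ dbL P i).card := by
    rw [Dj_AL H hDj, Dj_bi_card hDj inter_subset_left]
  have h2 : (AU i (indK {k})).card = 2 * (({k} : Finset P) ∩ dbU P i).card := by
    rw [Dj_AU H hDj, Dj_bi_card hDj inter_subset_left]
  unfold tC
  rw [if_pos hd]
  unfold cw
  rw [if_pos ⟨hA, hB⟩, haL, haU, Dj_pL H hDj, Dj_pU H hir hDj, h1, h2]
  rw [h1, h2] at hle
  by_cases h3 : k ∈ dbU P i
  · have h4 : k ∉ dbL P i := by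
      intro h4
      have := mem_dbU'.1 h3
      have := mem_dbL'.1 h4
      omega
    rw [singleton_inter_of_mem h3, singleton_inter_of_notMem h4, card_singleton, card_empty] at *
    rw [if_pos h3]
    refine ⟨by omega, ?_⟩
    have h5 : (st i C).card - 1 = 1 + ((st i C).card - 2 * 0 - 2 * 1) := by omega
    rw [h5, pow_add]
    ring
  · have h4 : k ∈ dbL P i := (mem_union.1 hk).resolve_right h3
    rw [singleton_inter_of_mem h4, singleton_inter_of_notMem h3, card_singleton, card_empty] at *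
    rw [if_neg h3]
    refine ⟨by omega, ?_⟩
    have h5 : (st i C).card - 1 = 1 + ((st i C).card - 2 * 1 - 2 * 0) := by omega
    rw [h5, pow_add]
    ring

lemma dd_val : (dd : A) ∣ xi + xx ^ 2 := by
  have h : xi + xx ^ 2 = xx ^ 2 * (1 + xi ^ 3) := by
    have h1 : xx ^ 2 * xi ^ 3 = xi := by
      have h2 : xx ^ 2 * xi ^ 3 = (xx * xi) ^ 2 * xi := by ring
      rw [h2, xx_mul_xi, one_pow, one_mul]
    rw [mul_add, h1, mul_one]
    ring
  rw [h]
  exact Dvd.dvd.mul_left (dd_dvd_odd (Or.inr rfl)) _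

/-- a set of single units of signed number zero -/
lemma sum_units (H : Gr P r) (hir : i ≤ r) (hC : Part (i + 1) C) {K' : Finset P}
    (hK' : K' ⊆ dbL P i ∪ dbU P i) (hKC : K' ⊆ C) (h0 : ∑ k ∈ K', sgn i k = 0) :
    dd ^ (st i C).card ∣ ∑ k ∈ K', tC i C (indK {k}) := by
  classical
  rcases K'.eq_empty_or_nonempty with h | ⟨k0, hk0⟩
  · rw [h, Finset.sum_empty]
    exact dvd_zero _
  · have hb := (tC_ind H hir hC (hK' hk0) (hKC hk0)).1
    rw [Finset.sum_congr rfl (fun k hk => (tC_ind H hir hC (hK' hk) (hKC hk)).2),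
      ← Finset.mul_sum]
    have h1 : dd ^ (st i C).card = dd ^ ((st i C).card - 1) * dd := by
      rw [← pow_succ]
      congr 1
      omega
    rw [h1]
    refine mul_dvd_mul_left _ ?_
    have h2 : ∑ k ∈ K', (if k ∈ dbU P i then xi else xx ^ 2 : A) =
        ∑ k ∈ K', ((if k ∈ dbU P i then xi else xx ^ 2) - ((sgn i k : ℤ) : A) * xx ^ 2) := by
      rw [Finset.sum_sub_distrib, ← Finset.sum_mul, ← Int.cast_sum, h0]
      simp
    rw [h2]
    refine Finset.dvd_sum fun k _ => ?_
    unfold sgn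
    split_ifs with h3
    · have h4 : xi - ((-1 : ℤ) : A) * xx ^ 2 = xi + xx ^ 2 := by
        push_cast
        ring
      rw [h4]
      exact dd_val
    · simp

lemma ind_of_one (h : ∑ x, e x = 1) {k : P} (hk : 1 ≤ e k) : e = indK {k} := by
  classical
  funext x
  have h1 : ∑ x ∈ univ.erase k, e x + e k = ∑ x, e x := Finset.sum_erase_add _ _ (mem_univ k)
  have h2 : ∑ x ∈ univ.erase k, e x = 0 := by omega
  unfold indK
  rw [Finset.sum_eq_zero_iff] at h2
  split_ifs with h3
  · rw [mem_singleton] at h3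
    rw [h3]
    omega
  · rw [mem_singleton] at h3
    exact h2 x (mem_erase.2 ⟨h3, mem_univ x⟩)

/-- ENERGY ONE -/
theorem K_one (H : Gr P r) (hir : i ≤ r) (hq : NoQ P (i + 2))
    (hg : ∀ m, m + 1 = i → Good P m) (hM : Mat P i K psi) (hC : Part (i + 1) C)
    (hK : K ⊆ dbL P i ∪ dbU P i) (h0 : ∑ k ∈ K.filter (fun k => k ∈ C), sgn i k = 0) :
    dd ^ (st i C).card ∣ ZC i C 1 := by
  classical
  unfold ZC
  set K' := K.filter (fun k => k ∈ C) with hK'
  set Ω0 := K'.image (fun k => indK {k}) with hΩ0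
  have hsub : Ω0 ⊆ C.piAntidiag 1 := by
    intro e he
    rw [hΩ0, mem_image] at he
    obtain ⟨k, hk, rfl⟩ := he
    rw [hK', mem_filter] at hk
    rw [mem_pa]
    refine ⟨by rw [sum_indK, card_singleton], ?_⟩
    intro x hx
    apply indK_of_not
    rw [mem_singleton]
    rintro rfl
    exact hx hk.2
  rw [← Finset.sum_sdiff hsub]
  refine dvd_add ?_ ?_
  · refine class_dvd hM H ?_ ?_
    · intro e he y hy
      rw [mem_sdiff, mem_pa] at he ⊢
      obtain ⟨⟨h1, h2⟩, h3⟩ := he
      refine ⟨⟨by rw [sum_sw]; exact h1, spt_sw hM H hC h2 hy⟩, ?_⟩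
      intro h4
      rw [hΩ0, mem_image] at h4
      obtain ⟨k, hk, hke⟩ := h4
      rw [hK', mem_filter] at hk
      have hSK := SK_sw hM H hy
      rw [← hke] at hSK
      rw [← hSK, mem_SK] at hy
      obtain ⟨g1, g2, g3⟩ := hy
      obtain ⟨p1, p2, p3, p4⟩ := psi_low hM g1 g2
      rcases g3.one with ⟨g4, -⟩ | ⟨-, g4⟩
      · have : y ∈ ({k} : Finset P) := indK_pos.1 (by omega)
        rw [mem_singleton] at this
        rw [this] at g2
        exact g2 hk.1
      · have : psi y ∈ ({k} : Finset P) := indK_pos.1 (by omega)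
        rw [mem_singleton] at this
        rw [this] at p4
        exact p4 hk.1
    · intro e he
      rw [mem_sdiff, mem_pa] at he
      obtain ⟨⟨h1, h2⟩, h3⟩ := he
      have h4 : (st i C).card = (st i C).card - 0 := (Nat.sub_zero _).symm
      rw [h4]
      refine tC_dvd fun hL hU hd => ?_
      obtain ⟨XL, XU, hXL, hXU, h5⟩ := main_K hM H hir hq hg hL hU hd (δ := 0) (Or.inl rfl)
      have h6 : KB i K e = ∅ := by
        rw [Finset.eq_empty_iff_forall_notMem]
        intro k hk
        rw [mem_KB] at hk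
        have h7 : e k = 1 := by
          rcases hk.2 with h | h
          · exact (bL_data H hir hq hg h.1).2.2.1
          · exact (bU_data H hir hq hg h.1).2.2.1
        apply h3
        rw [hΩ0, mem_image]
        refine ⟨k, ?_, (ind_of_one h1 (by omega)).symm⟩
        rw [hK', mem_filter]
        refine ⟨hk.1, ?_⟩
        by_contra h8
        have := h2 k h8
        omega
      have h7 : XL = ∅ := by
        rw [Finset.eq_empty_iff_forall_notMem]
        intro x hx
        obtain ⟨l1, e1, ⟨y, hy⟩, h8⟩ := hXL x hx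
        have h9 := bL_data H hir hq hg (h8 y hy).1
        have h10 := ind_of_one h1 e1
        have h11 := h9.2.2.1
        rw [h10] at h11
        have : y ∈ ({x} : Finset P) := indK_pos.1 (by omega)
        rw [mem_singleton] at this
        rw [this] at h9
        omega
      have h8 : XU = ∅ := by
        rw [Finset.eq_empty_iff_forall_notMem]
        intro x hx
        obtain ⟨l1, e1, ⟨y, hy⟩, h8⟩ := hXU x hx
        have h9 := bU_data H hir hq hg (h8 y hy).1
        have h10 := ind_of_one h1 e1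
        have h11 := h9.2.2.1
        rw [h10] at h11
        have : y ∈ ({x} : Finset P) := indK_pos.1 (by omega)
        rw [mem_singleton] at this
        rw [this] at h9
        omega
      rw [h6, h7, h8] at h5
      have h9 : ∑ x ∈ lS P i, e x + ∑ x ∈ uS P i, e x ≤ ∑ x, e x := by
        rw [← Finset.sum_union]
        · exact Finset.sum_le_sum_of_subset (subset_univ _)
        · rw [disjoint_left]
          intro x hx hx'
          rw [mem_lS] at hx
          rw [mem_uS] at hx'
          omega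
      simp only [card_empty, add_zero] at h5
      omega
  · rw [hΩ0, Finset.sum_image]
    · exact sum_units H hir hC ((filter_subset _ _).trans hK)
        (fun k hk => (mem_filter.1 hk).2) h0
    · intro k _ k' _ h
      exact Finset.singleton_injective (indK_inj h)

/-- THE PROFILE of a component whose unmatched near elements form a star -/
theorem PG_star (H : Gr P r) (hir : i ≤ r) (hq : NoQ P (i + 2))
    (hg : ∀ m, m + 1 = i → Good P m) (hκ : Split (i + 1) κ) (hM : Mat P i K psi)
    (hK : K ⊆ dbL P i ∪ dbU P i) {a : ι} (hs : Star i (cext (i + 1) κ a) K) :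
    PG (bb i (i + 1) κ a) (VV i (i + 1) κ a) ∧ w6 (bb i (i + 1) κ a) (VV i (i + 1) κ a) = 0 := by
  have hC : Part (i + 1) (cext (i + 1) κ a) := part_cext H le_rfl hκ a
  have hcl := K_class H hir hq hg hM hC hs
  have h1 : dd ^ (st i (cext (i + 1) κ a)).card ∣ ZC i (cext (i + 1) κ a) 1 := by
    refine K_one H hir hq hg hM hC hK ?_
    have h2 : K.filter (fun k => k ∈ cext (i + 1) κ a) = K.filter (fun k => κ k = a) := by
      refine filter_congr fun k hk => ?_
      have hl : lev k ≤ i + 1 := by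
        rcases mem_union.1 (hK hk) with h | h
        · have := mem_dbL'.1 h
          omega
        · have := mem_dbU'.1 h
          omega
      constructor
      · intro h
        exact mem_cext.1 h k le_rfl hl
      · exact fun h => mem_cext_of_le hκ hl h
    rw [h2]
    exact EK.sum_K H hir hκ hM hK a
  constructor
  · intro n hn
    unfold bb VV
    rw [coeff_ZS]
    have h2 : n = 0 ∨ n = 1 ∨ 2 ≤ n := by omega
    rcases h2 with rfl | rfl | h2
    · rw [ZC_zero H hir]
      exact Dvd.intro_left _ rfl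
    · exact Dvd.dvd.mul_left h1 _
    · have h3 : dd ^ gd n * dd ^ ((st i (cext (i + 1) κ a)).card - (n + 1) / 2) ∣
          dd ^ gd n * ZC i (cext (i + 1) κ a) n := mul_dvd_mul_left _ (hcl n)
      rw [← pow_add] at h3
      refine (pow_dvd_pow dd ?_).trans h3
      have h4 : (n + 1) / 2 ≤ gd n := by
        unfold gd
        split_ifs <;> omega
      omega
  · unfold w6 bb VV
    rw [coeff_ZS]
    apply coeff_zero_of_dvd (a := (st i (cext (i + 1) κ a)).card + 1)
    · have h3 : dd ^ 4 * dd ^ ((st i (cext (i + 1) κ a)).card - (6 + 1) / 2) ∣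
          dd ^ 4 * ZC i (cext (i + 1) κ a) 6 := mul_dvd_mul_left _ (hcl 6)
      rw [← pow_add] at h3
      refine (pow_dvd_pow dd ?_).trans h3
      omega
    · omega

end Pool.Agent.GaussPoset.Win.K2

end

/-! From `Pool.Agent.W_448w4_h10.MB` -/

section

/-!
MP_448cb3_co, G2, case B: the cross part at the energy `n + 4`, order `n + 2`, window `j` (the files of helper63 for
every energy).  helper10.
-/

namespace Pool.Agent.GaussPoset.Win.K2

set_option linter.unusedSectionVars false

open Finset I2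

universe u

variable {P : Type u} [Fintype P] [PartialOrder P] [DecidableEq P] {r i : ℕ} {e : P → ℕ}

variable {ι : Type*} [DecidableEq ι] {κ : P → ι} {K : Finset P} {psi : P → P}

/-- the extremal cross configurations -/
theorem cross_gen (H : Gr P r) (hir : i ≤ r) (hq : NoQ P (i + 2))
    (hg : ∀ m, m + 1 = i → Good P m) (hκ : Split (i + 1) κ) (hM : Mat P i K psi)
    (hL : AdmL i e) (hU : AdmU i e) (hd : Disjoint (AL i e) (AU i e)) {n : ℕ}
    (h6 : ∑ x, e x = n + 2)
    {z0 : P} (hz0 : z0 ∉ cuni (i + 1) κ) (he0 : 1 ≤ e z0) :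
    (AL i e).card + (AU i e).card ≤ (n - 1) + (pL i e + pU i e) ∨
      ((AL i e).card + (AU i e).card ≤ n + (pL i e + pU i e) ∧
      ((SK i K psi e).Nonempty ∨ ∃ z y v a M, SD i κ z y v ∧ z ∉ cuni (i + 1) κ ∧
        (a = 1 ∨ a = 2) ∧ M ⊆ K ∧ Disjoint M (uc z) ∧ M.card + a = n ∧ e = eZ a z M)) := by
  classical
  rcases cross_D H hκ hq hL hz0 he0 with ⟨D, hD3, hD⟩ | ⟨y, v, lz, huc, hk, cy, cv, ey, ev⟩
  · left
    have := ord_le H hir hq hg hL hU hD
    omega
  · have S : SD i κ z0 y v := ⟨lz, huc, hk, cy, cv⟩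
    have hly := S.ly H
    have hlv := S.lv' H
    have hzv : z0 ≠ v := by rintro rfl; omega
    have hzy : z0 ≠ y := by rintro rfl; omega
    have hD : ∀ x ∈ ({z0, v} : Finset P), 1 ≤ e x ∧ Dp i x := by
      intro x hx
      rw [mem_insert, mem_singleton] at hx
      rcases hx with rfl | rfl
      · exact ⟨he0, Or.inl (by omega)⟩
      · exact ⟨ev, Or.inr ⟨by omega, cv⟩⟩
    have h1 := ord_le H hir hq hg hL hU hD
    rw [card_pair hzv] at h1
    by_cases h2 : (AL i e).card + (AU i e).card ≤ (n - 1) + (pL i e + pU i e)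
    · exact Or.inl h2
    right
    refine ⟨by omega, ?_⟩
    obtain ⟨q1, q2, q3⟩ := ord_eq H hir hq hg hL hU hD (by rw [card_pair hzv]; omega)
    have hbz : z0 ∉ bN i e := by
      intro h
      unfold bN at h
      rcases mem_union.1 h with h | h
      · have := (bL_data H hir hq hg h).1
        omega
      · have := (bU_data H hir hq hg h).1
        omega
    have hbv : v ∉ bN i e := by
      intro h
      unfold bN at h
      rcases mem_union.1 h with h | h
      · have := (bL_data H hir hq hg h).2.1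
        omega
      · have := (bU_data H hir hq hg h).1
        omega
    have hby : y ∈ bN i e := by
      apply q1 y _ ey
      rw [mem_insert, mem_singleton]
      rintro (h | h)
      · exact hzy h.symm
      · exact S.ne h
    have ha : e z0 ≤ 2 := q2 z0 (mem_insert_self _ _)
    have hv1 : e v = 1 := q3 v (mem_insert_of_mem (mem_singleton_self _)) hlv
    have hMd : Disjoint ((bN i e).erase y) (uc z0) := by
      rw [huc, disjoint_insert_right, disjoint_singleton_right]
      exact ⟨notMem_erase _ _, fun h => hbv (mem_erase.1 h).2⟩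
    have heq : e = eZ (e z0) z0 ((bN i e).erase y) := by
      funext x
      unfold eZ
      split_ifs with h3 h4
      · rw [h3]
      · rw [mem_union, huc, mem_insert, mem_singleton, mem_erase] at h4
        rcases h4 with (h4 | h4) | h4
        · rw [h4]
          exact (bN_data H hir hq hg hby).2.1
        · rw [h4, hv1]
        · exact (bN_data H hir hq hg h4.2).2.1
      · by_contra h5
        apply h4
        rw [mem_union, huc, mem_insert, mem_singleton, mem_erase]
        by_cases h6 : x = v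
        · exact Or.inl (Or.inr h6)
        by_cases h7 : x = y
        · exact Or.inl (Or.inl h7)
        right
        refine ⟨h7, q1 x ?_ (by omega)⟩
        rw [mem_insert, mem_singleton]
        rintro (h | h)
        · exact h3 h
        · exact h6 h
    have hcard : ((bN i e).erase y).card + e z0 = n := by
      have h3 : ∑ x, e x = e z0 + (uc z0 ∪ (bN i e).erase y).card := by
        rw [← Finset.add_sum_erase univ e (mem_univ z0)]
        congr 1
        have h4 : ∀ x ∈ univ.erase z0, e x = if x ∈ uc z0 ∪ (bN i e).erase y then 1 else 0 := by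
          intro x hx
          have h5 := congrFun heq x
          unfold eZ at h5
          rwa [if_neg (mem_erase.1 hx).1] at h5
        rw [Finset.sum_congr rfl h4, Finset.sum_ite_mem, Finset.sum_const, smul_eq_mul, mul_one]
        congr 1
        ext x
        rw [mem_inter, mem_erase]
        constructor
        · exact fun h => h.2
        · intro h
          refine ⟨⟨?_, mem_univ x⟩, h⟩
          rintro rfl
          rcases mem_union.1 h with h | h
          · have := lev_uc H h
            omega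
          · exact hbz (mem_erase.1 h).2
      rw [h6, card_union_of_disjoint hMd.symm, huc, card_pair S.ne] at h3
      omega
    by_cases hMK : (bN i e).erase y ⊆ K
    · right
      exact ⟨z0, y, v, e z0, (bN i e).erase y, S, hz0, by omega, hMK, hMd, hcard, heq⟩
    · left
      rw [Finset.not_subset] at hMK
      obtain ⟨k, hk1, hk2⟩ := hMK
      rw [mem_erase] at hk1
      have hkb := hk1.2
      unfold bN at hkb
      rcases mem_union.1 hkb with h | h
      · obtain ⟨b1, -, -, -, -, -⟩ := bL_data H hir hq hg h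
        refine ⟨k, (low_simple hM H hq hU hd h hk2 ?_).1⟩
        intro w hw
        by_contra hne
        have hlw := lev_dc H hw
        have h3 : w ∉ bN i e := by
          intro h4
          unfold bN at h4
          rcases mem_union.1 h4 with h4 | h4
          · have := (bL_data H hir hq hg h4).1
            omega
          · have := (bU_data H hir hq hg h4).1
            omega
        have h4 : w = z0 := by
          by_contra h5
          refine h3 (q1 w ?_ (by omega))
          rw [mem_insert, mem_singleton]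
          rintro (h6 | h6)
          · exact h5 h6
          · rw [h6] at hlw
            omega
        rw [h4] at hw
        have h5 : k ∈ uc z0 := mem_uc.2 (mem_dc.1 hw)
        rw [huc, mem_insert, mem_singleton] at h5
        rcases h5 with h5 | h5
        · exact hk1.1 h5
        · rw [h5] at hk1
          exact hbv hk1.2
      · obtain ⟨b1, -, -, -, -, -⟩ := bU_data H hir hq hg h
        refine ⟨psi k, (up_simple hM H hir hg hL hd h hk2 ?_).2.1⟩
        intro w hw
        by_contra hne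
        have hlw := lev_uc H hw
        have h3 : w ∉ bN i e := by
          intro h4
          unfold bN at h4
          rcases mem_union.1 h4 with h4 | h4
          · have := (bL_data H hir hq hg h4).1
            omega
          · have := (bU_data H hir hq hg h4).1
            omega
        refine h3 (q1 w ?_ (by omega))
        rw [mem_insert, mem_singleton]
        rintro (h6 | h6)
        · rw [h6] at hlw
          omega
        · rw [h6] at hlw
          omega

open Classical in
/-- the index set of the extremal configurations -/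
noncomputable def Sn (i : ℕ) (κ : P → ι) (K : Finset P) (n : ℕ) : Finset ((P × ℕ) × Finset P) :=
  ((Z2 i κ ×ˢ ({1, 2} : Finset ℕ)) ×ˢ K.powerset).filter
    (fun p => Disjoint p.2 (uc p.1.1) ∧ p.2.card + p.1.2 = n)

lemma mem_Sn {n : ℕ} {z : P} {a : ℕ} {M : Finset P} : ((z, a), M) ∈ Sn i κ K n ↔
    z ∈ Z2 i κ ∧ (a = 1 ∨ a = 2) ∧ M ⊆ K ∧ Disjoint M (uc z) ∧ M.card + a = n := by
  classical
  unfold Sn
  rw [mem_filter, mem_product, mem_product, mem_powerset, mem_insert, mem_singleton]
  tauto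

lemma Fn_inj (H : Gr P r) (hK : K ⊆ dbL P i ∪ dbU P i) (n : ℕ) :
    Set.InjOn F0 (↑(Sn i κ K n) : Set ((P × ℕ) × Finset P)) := by
  classical
  rintro ⟨⟨z, a⟩, M⟩ h ⟨⟨z', a'⟩, M'⟩ h' heq
  rw [mem_coe, mem_Sn] at h h'
  obtain ⟨hz, ha, hM, hd, hc⟩ := h
  obtain ⟨hz', ha', hM', hd', hc'⟩ := h'
  obtain ⟨-, y, v, S⟩ := mem_Z2.1 hz
  obtain ⟨-, y', v', S'⟩ := mem_Z2.1 hz'
  have hlz := S.lz
  have hlz' := S'.lz
  have hnear : ∀ x ∈ K, lev x = i + 1 ∨ lev x + 1 = i := by
    intro x hx
    rcases mem_union.1 (hK hx) with h | h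
    · exact Or.inl (mem_dbL'.1 h).1
    · exact Or.inr (mem_dbU'.1 h).1
  unfold F0 at heq
  simp only at heq
  have hzz : z = z' := by
    by_contra hne
    have h1 := congrFun heq z
    unfold eZ at h1
    rw [if_pos rfl, if_neg hne, if_neg] at h1
    · omega
    · intro h2
      rcases mem_union.1 h2 with h2 | h2
      · have := lev_uc H h2
        omega
      · have := hnear z (hM' h2)
        omega
  subst hzz
  have haa : a = a' := by
    have h1 := congrFun heq z
    unfold eZ at h1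
    rwa [if_pos rfl, if_pos rfl] at h1
  subst haa
  have key : ∀ {M M' : Finset P}, M ⊆ K → Disjoint M (uc z) → eZ a z M = eZ a z M' →
      M ⊆ M' := by
    intro M M' hM hd h x hx
    have hxz : x ≠ z := by
      rintro rfl
      have := hnear x (hM hx)
      omega
    have h1 := congrFun h x
    unfold eZ at h1
    rw [if_neg hxz, if_neg hxz, if_pos (mem_union_right _ hx)] at h1
    by_contra h2
    rw [if_neg] at h1
    · omega
    · rw [mem_union]
      rintro (h3 | h3)
      · exact disjoint_left.1 hd hx h3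
      · exact h2 h3
  rw [subset_antisymm (key hM hd heq) (key hM' hd' heq.symm)]

/-- the sum of the coefficients -/
theorem sum_cn (H : Gr P r) (hK : K ⊆ dbL P i ∪ dbU P i) (n : ℕ) :
    ∑ p ∈ Sn i κ K (n + 2), c0 i p =
      ∑ z ∈ Z2 i κ, (EK.Ek i K (Tz z) (n + 1) + EK.Ek i K (Tz z) n) := by
  classical
  unfold Sn
  rw [Finset.sum_filter, Finset.sum_product, Finset.sum_product]
  refine Finset.sum_congr rfl fun z hz => ?_
  obtain ⟨-, y, v, S⟩ := mem_Z2.1 hz
  have hlz := S.lz
  have key : ∀ a k : ℕ, k + a = n + 2 → ∑ M ∈ K.powerset,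
      (if Disjoint M (uc z) ∧ M.card + a = n + 2 then c0 i ((z, a), M) else 0) =
      EK.Ek i K (Tz z) k := by
    intro a k hk
    rw [EK.Ek_eq hK, Finset.sum_filter, Finset.powersetCard_eq_filter,
      Finset.sum_filter]
    refine Finset.sum_congr rfl fun M hM => ?_
    rw [mem_powerset] at hM
    unfold c0
    simp only
    by_cases h1 : M.card = k
    · rw [if_pos h1]
      by_cases h2 : Dj i M ∧ Disjoint (M.biUnion (ns i)) (Tz z)
      · rw [if_pos h2, if_pos]
        refine ⟨?_, by omega⟩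
        rw [disjoint_left]
        intro x hx hx'
        have h3 := hM hx
        have h4 : (ns i x).Nonempty := EK.ns_ne (hK h3)
        obtain ⟨s, hs⟩ := h4
        refine disjoint_left.1 h2.2 (mem_biUnion.2 ⟨x, hx, hs⟩) ?_
        unfold Tz
        rw [mem_biUnion]
        refine ⟨x, hx', ?_⟩
        have h5 := lev_uc H hx'
        unfold ns at hs
        rwa [if_pos (by omega)] at hs
      · rw [if_neg h2]
        split_ifs <;> rfl
    · rw [if_neg h1, if_neg]
      rintro ⟨-, h2⟩
      omega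
  rw [Finset.sum_pair (by norm_num : (1 : ℕ) ≠ 2), key 1 (n + 1) rfl, key 2 n rfl]

lemma sum_eZn (H : Gr P r) (hK : K ⊆ dbL P i ∪ dbU P i) {z : P} {a n : ℕ} {M : Finset P}
    (h : ((z, a), M) ∈ Sn i κ K n) : ∑ x, eZ a z M x = n + 2 := by
  classical
  rw [mem_Sn] at h
  obtain ⟨hz, ha, hM, hd, hc⟩ := h
  obtain ⟨-, y, v, S⟩ := mem_Z2.1 hz
  have hlz := S.lz
  rw [← Finset.add_sum_erase univ _ (mem_univ z), eZ_self]
  have h4 : ∀ x ∈ univ.erase z, eZ a z M x = if x ∈ uc z ∪ M then 1 else 0 := by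
    intro x hx
    unfold eZ
    rw [if_neg (mem_erase.1 hx).1]
  rw [Finset.sum_congr rfl h4, Finset.sum_ite_mem, Finset.sum_const, smul_eq_mul, mul_one]
  have h5 : univ.erase z ∩ (uc z ∪ M) = uc z ∪ M := by
    ext x
    rw [mem_inter, mem_erase]
    constructor
    · exact fun h => h.2
    · intro h
      refine ⟨⟨?_, mem_univ x⟩, h⟩
      rintro rfl
      rcases mem_union.1 h with h | h
      · have := lev_uc H h
        omega
      · have := lev_M (hM.trans hK) h
        omega
  rw [h5, card_union_of_disjoint hd.symm, S.huc, card_pair S.ne]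
  omega

open Classical in
/-- the leading coefficient of the cross part -/
theorem crossN (H : Gr P r) (hir : i ≤ r) (hq : NoQ P (i + 2))
    (hg : ∀ m, m + 1 = i → Good P m) (hκ : Split (i + 1) κ) (hM : Mat P i K psi)
    (hK : K ⊆ dbL P i ∪ dbU P i) (n : ℕ) :
    dd ^ ((lv P i).card - (n + 1)) ∣
      ∑ e ∈ ((univ : Finset P).piAntidiag (n + 4)).filter (Cr i κ), trm i e +
        ((∑ z ∈ Z2 i κ, (EK.Ek i K (Tz z) (n + 1) + EK.Ek i K (Tz z) n) : ℤ) : A) *
          dd ^ ((lv P i).card - (n + 2)) := by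
  set Ω := ((univ : Finset P).piAntidiag (n + 4)).filter (Cr i κ) with hΩ
  set Ω0 := (Sn i κ K (n + 2)).image F0 with hΩ0
  have hsub : Ω0 ⊆ Ω := by
    intro e he
    rw [hΩ0, mem_image] at he
    obtain ⟨⟨⟨z, a⟩, M⟩, hp, rfl⟩ := he
    rw [hΩ, mem_filter, mem_pa]
    refine ⟨⟨sum_eZn H hK hp, fun x hx => absurd (mem_univ x) hx⟩, z, ?_⟩
    rw [mem_Sn] at hp
    refine ⟨(mem_Z2.1 hp.1).1, ?_⟩
    unfold F0
    simp only
    rw [eZ_self]
    omega
  have h1 : dd ^ ((lv P i).card - (n + 1)) ∣ ∑ e ∈ Ω \ Ω0, trm i e := by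
    have h2 : ∑ e ∈ Ω \ Ω0, trm i e = ∑ e ∈ Ω \ Ω0, tC i univ e :=
      Finset.sum_congr rfl fun e _ => tC_univ.symm
    rw [h2]
    refine class_dvd hM H ?_ ?_
    · intro e he y hy
      rw [mem_sdiff] at he ⊢
      have hSK := SK_sw hM H hy
      obtain ⟨he1, he2⟩ := he
      rw [hΩ, mem_filter, mem_pa] at he1
      obtain ⟨⟨h3, -⟩, z, hz, hz1⟩ := he1
      constructor
      · rw [hΩ, mem_filter, mem_pa]
        refine ⟨⟨by rw [sum_sw]; exact h3, fun x hx => absurd (mem_univ x) hx⟩, z, hz, ?_⟩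
        have h4 := (two_up H hκ hz).1
        have h5 := mem_SK.1 hy
        rw [sw_lev hM (mem_SK2.1 hy).1 (by omega) (by omega)]
        exact hz1
      · intro h4
        rw [hΩ0, mem_image] at h4
        obtain ⟨⟨⟨z', a⟩, M⟩, hp, hpe⟩ := h4
        rw [mem_Sn] at hp
        obtain ⟨hz', ha, hMK, -, -⟩ := hp
        obtain ⟨-, y', v', S⟩ := mem_Z2.1 hz'
        have h5 := SK_eZ H hM S ha hMK
        have h6 : eZ a z' M = sw psi y e := hpe
        rw [h6, hSK] at h5
        rw [h5] at hy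
        exact absurd hy (notMem_empty _)
    · intro e he
      rw [mem_sdiff] at he
      obtain ⟨he1, he2⟩ := he
      rw [hΩ, mem_filter, mem_pa] at he1
      obtain ⟨⟨h3, -⟩, z, hz, hz1⟩ := he1
      have h4 := tC_dvd (C := (univ : Finset P)) (e := e) (i := i) (m := n + 1)
        (s := (SK i K psi e).card) (fun hL hU hd => by
          rcases cross_gen H hir hq hg hκ hM hL hU hd h3 hz hz1 with h | ⟨h, h5 | h5⟩
          · omega
          · have := card_pos.2 h5
            omega
          · exfalso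
            obtain ⟨z', y', v', a, M, S, hz', ha, hMK, hdM, hc, heq⟩ := h5
            apply he2
            rw [hΩ0, mem_image]
            exact ⟨((z', a), M), mem_Sn.2 ⟨mem_Z2.2 ⟨hz', y', v', S⟩, ha, hMK, hdM, hc⟩, heq.symm⟩)
      rwa [st_univ] at h4
  have h2 : ∑ e ∈ Ω, trm i e = ∑ e ∈ Ω \ Ω0, trm i e + ∑ p ∈ Sn i κ K (n + 2), trm i (F0 p) := by
    rw [← Finset.sum_image (Fn_inj H hK _), ← hΩ0, Finset.sum_sdiff hsub]
  have h3 : dd ^ ((lv P i).card - (n + 1)) ∣ ∑ p ∈ Sn i κ K (n + 2),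
      (trm i (F0 p) + ((c0 i p : ℤ) : A) * dd ^ ((lv P i).card - (n + 2))) := by
    refine Finset.dvd_sum ?_
    rintro ⟨⟨z, a⟩, M⟩ hp
    rw [mem_Sn] at hp
    obtain ⟨hz, ha, hMK, hdM, hc⟩ := hp
    obtain ⟨-, y, v, S⟩ := mem_Z2.1 hz
    have h4 := trm_eZn H hir S.lz S.huc S.ne (S.card_T H hκ) ha (hMK.trans hK) hdM hc
    unfold c0 F0
    simp only
    rw [S.Tz]
    exact h4
  rw [← sum_cn H hK n, h2]
  rw [Finset.sum_add_distrib, ← Finset.sum_mul] at h3
  push_cast
  have h5 := dvd_add h1 h3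
  rwa [← add_assoc] at h5

end Pool.Agent.GaussPoset.Win.K2

end

/-! From `Pool.Agent.W_448w4_h10.MC` -/

section

/-!
MP_448cb3_co, G2, case B: THE IDENTITIES (2,1), (4,2), (5,3) at the window `j`.  helper10.
-/

namespace Pool.Agent.GaussPoset.Win.K2

set_option linter.unusedSectionVars false

open Finset I2

universe u

/-! ### algebra -/

/-- the profile of a component up to the energy five -/
structure Prof5 (b : ℕ) (V : PowerSeries A) : Prop where
  p : Prof 2 4 b V
  q : dd ^ b ∣ dd ^ 3 * PowerSeries.coeff 5 V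

theorem eps_prod {ι : Type*} (s : Finset ι) (b : ι → ℕ) (V : ι → PowerSeries A)
    (h : ∀ c ∈ s, Prof 2 4 (b c) (V c)) (h1 : ∀ c ∈ s, eps (b c) (V c) = 1) :
    Prof 2 4 (∑ c ∈ s, b c) (∏ c ∈ s, V c) ∧ eps (∑ c ∈ s, b c) (∏ c ∈ s, V c) = 1 := by
  classical
  induction s using Finset.induction_on with
  | empty =>
    simp only [Finset.sum_empty, Finset.prod_empty]
    exact ⟨prof_one, by simp [eps]⟩
  | insert a s ha ih =>
    obtain ⟨i1, i2⟩ := ih (fun c hc => h c (Finset.mem_insert_of_mem hc))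
      (fun c hc => h1 c (Finset.mem_insert_of_mem hc))
    have ha1 := h a (Finset.mem_insert_self a s)
    have ha2 := h1 a (Finset.mem_insert_self a s)
    rw [Finset.sum_insert ha, Finset.prod_insert ha, eps_mul ha1 i1 (by norm_num), ha2, i2]
    exact ⟨ha1.mul (by norm_num) (by norm_num) i1 (by norm_num), by norm_num⟩

/-! ### the identities -/

variable {P : Type u} [Fintype P] [PartialOrder P] [DecidableEq P] {r i : ℕ} {e : P → ℕ}

variable {ι : Type*} [DecidableEq ι] {κ : P → ι} {K : Finset P} {psi : P → P}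

open Classical in
/-- no cross configuration of energy at most two -/
theorem cross_two (H : Gr P r) (hq : NoQ P (i + 2)) (hκ : Split (i + 1) κ) {n : ℕ}
    (hn : n ≤ 2) : ∑ e ∈ ((univ : Finset P).piAntidiag n).filter (Cr i κ), trm i e = 0 := by
  refine Finset.sum_eq_zero fun e he => ?_
  rw [mem_filter, mem_pa] at he
  obtain ⟨⟨h1, -⟩, z, hz, hz1⟩ := he
  by_cases hL : AdmL i e
  · exfalso
    have key : ∀ D : Finset P, D.card = 3 → (∀ x ∈ D, 1 ≤ e x) → False := by
      intro D hD hx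
      have h2 : D.card ≤ ∑ x ∈ D, e x := by
        rw [Finset.card_eq_sum_ones]
        exact Finset.sum_le_sum hx
      have h3 : ∑ x ∈ D, e x ≤ ∑ x, e x :=
        Finset.sum_le_sum_of_subset (Finset.subset_univ D)
      omega
    rcases cross_D H hκ hq hL hz hz1 with ⟨D, hD3, hD⟩ | ⟨y, v, lz, huc, hk, cy, cv, ey, ev⟩
    · exact key D hD3 fun x hx => (hD x hx).1
    · have S : SD i κ z y v := ⟨lz, huc, hk, cy, cv⟩
      have l1 := S.ly H
      have l2 := S.lv' H
      refine key {z, y, v} ?_ ?_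
      · rw [card_insert_of_notMem, card_pair S.ne]
        rw [mem_insert, mem_singleton]
        rintro (rfl | rfl) <;> omega
      · intro x hx
        rw [mem_insert, mem_insert, mem_singleton] at hx
        rcases hx with rfl | rfl | rfl <;> assumption
  · unfold trm cw
    simp only [hL, false_and, if_false, zero_mul, ite_self]

/-- an extracted coefficient of the product -/
theorem prod_coeff (H : Gr P r) (hir : i ≤ r) (hq : NoQ P (i + 2))
    (hg : ∀ m, m + 1 = i → Good P m) (hκ : Split (i + 1) κ) (hM : Mat P i K psi)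
    (hK : K ⊆ dbL P i ∪ dbU P i) (n : ℕ) :
    PowerSeries.coeff (lv P i).card (dd ^ (n + 2) *
      PowerSeries.coeff (n + 4) (∏ a ∈ univ.image κ, VV i (i + 1) κ a) : A) =
      ∑ z ∈ Z2 i κ, (EK.Ek i K (Tz z) (n + 1) + EK.Ek i K (Tz z) n) := by
  classical
  have htot := dvd_sum_trm H hir (n + 4)
  rw [prod_eq H hir hκ]
  have h1 := crossN (K := K) (psi := psi) H hir hq hg hκ hM hK n
  obtain ⟨E, hE⟩ : ∃ E : ℤ, E = ∑ z ∈ Z2 i κ, (EK.Ek i K (Tz z) (n + 1) + EK.Ek i K (Tz z) n) :=
    ⟨_, rfl⟩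
  obtain ⟨R, hR⟩ : ∃ R, R = ∑ e ∈ ((univ : Finset P).piAntidiag (n + 4)).filter (Cr i κ), trm i e :=
    ⟨_, rfl⟩
  obtain ⟨T, hT⟩ : ∃ T, T = ∑ e ∈ (univ : Finset P).piAntidiag (n + 4), trm i e := ⟨_, rfl⟩
  rw [← hE, ← hR] at h1
  rw [← hT] at htot
  rw [← hE, ← hR, ← hT]
  have h2 : dd ^ (n + 2) * (T - R) = dd ^ (n + 2) * (T - (R + ((E : ℤ) : A) *
      dd ^ ((lv P i).card - (n + 2)))) +
        dd ^ (n + 2) * (((E : ℤ) : A) * dd ^ ((lv P i).card - (n + 2))) := by
    ring
  have h4 : dd ^ ((lv P i).card - (n + 1)) ∣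
      T - (R + ((E : ℤ) : A) * dd ^ ((lv P i).card - (n + 2))) :=
    dvd_sub ((pow_dvd_pow dd (Nat.sub_le _ _)).trans htot) h1
  have h5 : PowerSeries.coeff (lv P i).card (dd ^ (n + 2) * (T - (R + ((E : ℤ) : A) *
      dd ^ ((lv P i).card - (n + 2)))) : A) = 0 := by
    apply coeff_zero_of_dvd (a := (lv P i).card + 1)
    · refine (pow_dvd_pow dd (show (lv P i).card + 1 ≤
        (n + 2) + ((lv P i).card - (n + 1)) by omega)).trans ?_
      rw [pow_add]
      exact mul_dvd_mul_left _ h4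
    · omega
  rw [h2, map_add, h5, zero_add]
  by_cases hb : n + 2 ≤ (lv P i).card
  · have h7 : dd ^ (n + 2) * (((E : ℤ) : A) * dd ^ ((lv P i).card - (n + 2))) =
        ((E : ℤ) : A) * dd ^ (lv P i).card := by
      have : dd ^ (lv P i).card = dd ^ (n + 2) * dd ^ ((lv P i).card - (n + 2)) := by
        rw [← pow_add]
        congr 1
        omega
      rw [this]
      ring
    rw [h7, coeff_int_dd]
  · have hE0 : E = 0 := by
      rw [hE]
      refine Finset.sum_eq_zero fun z hz => ?_
      obtain ⟨-, y, v, S⟩ := mem_Z2.1 hz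
      have hT3 := S.card_T H hκ
      have hsub : uc y ∪ uc v ⊆ lv P i := by
        intro x hx
        rw [mem_lv]
        have l1 := S.ly H
        have l2 := S.lv' H
        rcases mem_union.1 hx with h | h
        · have := lev_uc H h
          omega
        · have := lev_uc H h
          omega
      have h8 := card_le_card hsub
      have key : ∀ k, 1 ≤ k → n ≤ k → EK.Ek i K (Tz z) k = 0 := by
        intro k hk hnk
        rw [EK.Ek_eq hK]
        refine Finset.sum_eq_zero fun M hM => ?_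
        exfalso
        rw [mem_filter, mem_powersetCard] at hM
        obtain ⟨⟨h10, h11⟩, h12, h13⟩ := hM
        have h14 := Dj_bi_card h12 (subset_refl M)
        have h15 : M.biUnion (ns i) ⊆ lv P i := by
          intro x hx
          rw [mem_biUnion] at hx
          obtain ⟨y', hy', hx'⟩ := hx
          exact ns_sub H (hK (h10 hy')) hx'
        have h16 : (M.biUnion (ns i) ∪ Tz z).card ≤ (lv P i).card := by
          refine card_le_card (union_subset h15 ?_)
          rw [S.Tz]
          exact hsub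
        rw [card_union_of_disjoint h13, S.Tz, hT3] at h16
        omega
      rw [key (n + 1) (by omega) (by omega), key n (by omega) le_rfl, add_zero]
    rw [hE0]
    simp

/-- THE IDENTITIES (2,1) AND (4,2), general form -/
theorem four_two (H : Gr P r) (hir : i ≤ r) (hq : NoQ P (i + 2))
    (hg : ∀ m, m + 1 = i → Good P m) (hκ : Split (i + 1) κ) (hM : Mat P i K psi)
    (hK : K ⊆ dbL P i ∪ dbU P i)
    (hP : ∀ a ∈ univ.image κ, Prof 2 4 (bb i (i + 1) κ a) (VV i (i + 1) κ a)) :
    ∑ a ∈ univ.image κ, al 2 (bb i (i + 1) κ a) (VV i (i + 1) κ a) = 0 ∧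
    ∑ a ∈ univ.image κ, (al 2 (bb i (i + 1) κ a) (VV i (i + 1) κ a) ^ 2 -
      2 * be 4 (bb i (i + 1) κ a) (VV i (i + 1) κ a)) =
      - (2 * ∑ z ∈ Z2 i κ, (EK.Ek i K (Tz z) 1 + EK.Ek i K (Tz z) 0)) := by
  classical
  have hB : ∑ a ∈ univ.image κ, bb i (i + 1) κ a = (lv P i).card := sum_card_st (by omega) hκ
  have hE : ∀ a ∈ univ.image κ, eps (bb i (i + 1) κ a) (VV i (i + 1) κ a) = 1 :=
    fun a _ => eps_VV H hir a
  obtain ⟨-, -, i3, i4⟩ := prod_all (univ.image κ) (e := 2) (m := 4) (by norm_num) (by norm_num)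
    (by norm_num) _ _ hP (fun a ha => by rw [hE a ha]; norm_num)
  have i5 := (eps_prod (univ.image κ) _ _ hP hE).2
  rw [i5, one_mul] at i3 i4
  rw [hB] at i3 i4
  have h2 : al 2 (lv P i).card (∏ a ∈ univ.image κ, VV i (i + 1) κ a) = 0 := by
    unfold al
    apply coeff_zero_of_dvd (a := (lv P i).card + 1)
    · rw [prod_eq H hir hκ, cross_two H hq hκ le_rfl, sub_zero, pow_succ']
      exact mul_dvd_mul_left _ (dvd_sum_trm H hir 2)
    · omega
  have h4 : be 4 (lv P i).card (∏ a ∈ univ.image κ, VV i (i + 1) κ a) =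
      ∑ z ∈ Z2 i κ, (EK.Ek i K (Tz z) 1 + EK.Ek i K (Tz z) 0) :=
    prod_coeff H hir hq hg hκ hM hK 0
  constructor
  · rw [h2] at i3
    rw [i3]
    exact Finset.sum_congr rfl fun a ha => by rw [hE a ha, one_mul]
  · rw [h2, h4, if_pos rfl] at i4
    have e1 : ∑ a ∈ univ.image κ, (al 2 (bb i (i + 1) κ a) (VV i (i + 1) κ a) ^ 2 -
      2 * be 4 (bb i (i + 1) κ a) (VV i (i + 1) κ a)) =
      ∑ c ∈ univ.image κ, ((if 4 = 2 * 2 then al 2 (bb i (i + 1) κ c) (VV i (i + 1) κ c) ^ 2
        else 0) - 2 * (eps (bb i (i + 1) κ c) (VV i (i + 1) κ c) *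
          be 4 (bb i (i + 1) κ c) (VV i (i + 1) κ c))) := by
      refine Finset.sum_congr rfl fun a ha => ?_
      rw [hE a ha, one_mul, if_pos rfl]
    rw [e1, ← i4]
    ring

/-- THE PROFILE of a component with a star of unmatched elements, when `w32 = 0` -/
theorem prof_star (H : Gr P r) (hir : i ≤ r) (hq : NoQ P (i + 2))
    (hg : ∀ m, m + 1 = i → Good P m) (hκ : Split (i + 1) κ) (hM : Mat P i K psi)
    (hK : K ⊆ dbL P i ∪ dbU P i) {a : ι} (hs : Star i (cext (i + 1) κ a) K)
    (h0 : w3 (bb i (i + 1) κ a) (VV i (i + 1) κ a) = 0) :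
    Prof5 (bb i (i + 1) κ a) (VV i (i + 1) κ a) := by
  have hC : Part (i + 1) (cext (i + 1) κ a) := part_cext H le_rfl hκ a
  have hcl := K_class H hir hq hg hM hC hs
  have h1 : dd ^ (st i (cext (i + 1) κ a)).card ∣ ZC i (cext (i + 1) κ a) 1 := by
    refine K_one H hir hq hg hM hC hK ?_
    have h2 : K.filter (fun k => k ∈ cext (i + 1) κ a) = K.filter (fun k => κ k = a) := by
      refine filter_congr fun k hk => ?_
      have hl : lev k ≤ i + 1 := by
        rcases mem_union.1 (hK hk) with h | h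
        · have := mem_dbL'.1 h
          omega
        · have := mem_dbU'.1 h
          omega
      constructor
      · intro h
        exact mem_cext.1 h k le_rfl hl
      · exact fun h => mem_cext_of_le hκ hl h
    rw [h2]
    exact EK.sum_K H hir hκ hM hK a
  have hz : dd ^ (st i (cext (i + 1) κ a)).card ∣ ZC i (cext (i + 1) κ a) 0 := by
    rw [ZC_zero H hir]
  unfold w3 bb VV at h0
  rw [coeff_ZS] at h0
  unfold bb VV
  have key : ∀ n m, (n + 1) / 2 ≤ m → dd ^ (st i (cext (i + 1) κ a)).card ∣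
      dd ^ m * ZC i (cext (i + 1) κ a) n := by
    intro n m hnm
    have h3 : dd ^ m * dd ^ ((st i (cext (i + 1) κ a)).card - (n + 1) / 2) ∣
        dd ^ m * ZC i (cext (i + 1) κ a) n := mul_dvd_mul_left _ (hcl n)
    rw [← pow_add] at h3
    exact (pow_dvd_pow dd (by omega)).trans h3
  have h3 : dd ^ (st i (cext (i + 1) κ a)).card ∣ dd * ZC i (cext (i + 1) κ a) 3 := by
    have h4 := key 3 2 le_rfl
    have h5 : (dd : A) ^ ((st i (cext (i + 1) κ a)).card + 1) ∣
        dd ^ 2 * ZC i (cext (i + 1) κ a) 3 := by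
      unfold dd at h4 h0 ⊢
      rw [PowerSeries.X_pow_dvd_iff] at h4 ⊢
      intro m hm
      rcases Nat.lt_succ_iff_lt_or_eq.1 hm with h6 | h6
      · exact h4 m h6
      · rw [h6]; exact h0
    obtain ⟨Y, hY⟩ := h5
    refine ⟨Y, ?_⟩
    have h6 : dd * (dd * ZC i (cext (i + 1) κ a) 3) =
        dd * (dd ^ (st i (cext (i + 1) κ a)).card * Y) := by
      rw [← mul_assoc, ← mul_assoc, ← pow_succ', ← pow_two, hY]
    exact mul_left_cancel₀ (by unfold dd; exact PowerSeries.X_ne_zero) h6
  refine ⟨⟨?_, ?_, ?_⟩, ?_⟩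
  · intro n hn
    rw [coeff_ZS]
    have : n = 0 ∨ n = 1 := by omega
    rcases this with rfl | rfl
    · exact hz
    · exact h1
  · intro n hn
    rw [coeff_ZS]
    have : n = 0 ∨ n = 1 ∨ n = 2 ∨ n = 3 := by omega
    rcases this with rfl | rfl | rfl | rfl
    · exact hz.mul_left _
    · exact h1.mul_left _
    · have := key 2 1 (by norm_num)
      rwa [pow_one] at this
    · exact h3
  · rw [coeff_ZS]
    exact key 4 2 (by norm_num)
  · rw [coeff_ZS]
    exact key 5 3 (by norm_num)

end Pool.Agent.GaussPoset.Win.K2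

end

/-! From `Pool.Agent.W_448w4_h10.MD` -/

section

/-!
MP_448cb3_co, G2, case B: the identities (2,1), (4,2), (5,3) at the window `j` with the values of the joins.  helper10.
-/

namespace Pool.Agent.GaussPoset.Win.K2

set_option linter.unusedSectionVars false

open Finset I2

universe u

variable {P : Type u} [Fintype P] [PartialOrder P] [DecidableEq P] {r i : ℕ} {e : P → ℕ}

variable {ι : Type*} [DecidableEq ι] {κ : P → ι} {K : Finset P} {psi : P → P}

lemma Ek_zero (hK : K ⊆ dbL P i ∪ dbU P i) (T : Finset P) : EK.Ek i K T 0 = 1 := by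
  classical
  rw [EK.Ek_eq hK, powersetCard_zero, Finset.filter_singleton, if_pos, sum_singleton, prod_empty]
  refine ⟨⟨empty_subset _, fun x hx => absurd hx (notMem_empty x)⟩, ?_⟩
  rw [biUnion_empty]
  exact disjoint_empty_left _

open Classical in
lemma Ek_one (hK : K ⊆ dbL P i ∪ dbU P i) (T : Finset P) :
    EK.Ek i K T 1 = ∑ k ∈ K.filter (fun k => Disjoint (ns i k) T), sgn i k := by
  rw [EK.Ek_eq hK]
  symm
  refine Finset.sum_bij (fun k _ => ({k} : Finset P)) ?_ ?_ ?_ ?_
  · intro k hk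
    rw [mem_filter] at hk
    rw [mem_filter, mem_powersetCard]
    refine ⟨⟨singleton_subset_iff.2 hk.1, card_singleton k⟩,
      ⟨singleton_subset_iff.2 (hK hk.1), ?_⟩, ?_⟩
    · intro x hx y hy hne
      rw [mem_singleton] at hx hy
      exact absurd (hx.trans hy.symm) hne
    · rw [singleton_biUnion]
      exact hk.2
  · intro k _ k' _ h
    exact singleton_injective h
  · intro M hM
    rw [mem_filter, mem_powersetCard] at hM
    obtain ⟨⟨h1, h2⟩, -, h3⟩ := hM
    obtain ⟨k, rfl⟩ := card_eq_one.1 h2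
    rw [singleton_biUnion] at h3
    exact ⟨k, mem_filter.2 ⟨singleton_subset_iff.1 h1, h3⟩, rfl⟩
  · intro k _
    rw [prod_singleton]

/-- THE VALUE OF A JOIN -/
theorem Ek_one_SD (H : Gr P r) (hir : i ≤ r) (hκ : Split (i + 1) κ) (hM : Mat P i K psi)
    (hK : K ⊆ dbL P i ∪ dbU P i) {z y v : P} (S : SD i κ z y v) :
    EK.Ek i K (Tz z) 1 = EK.sa i κ K (uc y) (κ y) + EK.sa i κ K (uc v) (κ v) := by
  classical
  have l1 := S.ly H
  have l2 := S.lv' H
  have ky : ∀ s ∈ uc y, κ s = κ y := fun s hs => (hκ (mem_uc.1 hs) (by omega)).symm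
  have kv : ∀ s ∈ uc v, κ s = κ v := fun s hs => (hκ (mem_uc.1 hs) (by omega)).symm
  have kns : ∀ k ∈ K, ∀ s ∈ ns i k, κ s = κ k := fun k hk s hs => EK.kap_ns H hκ (hK hk) hs
  rw [Ek_one hK, S.Tz, EK.sa_eq, EK.sa_eq]
  have e0 : K.filter (fun k => Disjoint (ns i k) (uc y ∪ uc v)) =
      K.filter (fun k => κ k = κ y ∧ Disjoint (ns i k) (uc y)) ∪
      (K.filter (fun k => κ k = κ v ∧ Disjoint (ns i k) (uc v)) ∪
        K.filter (fun k => κ k ≠ κ y ∧ κ k ≠ κ v)) := by
    ext k
    rw [mem_union, mem_union, mem_filter, mem_filter, mem_filter, mem_filter,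
      disjoint_union_right]
    have far : ∀ (T : Finset P) (b : ι), k ∈ K → (∀ s ∈ T, κ s = b) → κ k ≠ b →
        Disjoint (ns i k) T := by
      intro T b hk hT hne
      rw [disjoint_left]
      intro s hs hs'
      exact hne ((kns k hk s hs).symm.trans (hT s hs'))
    constructor
    · rintro ⟨hk, h1, h2⟩
      by_cases h3 : κ k = κ y
      · exact Or.inl ⟨hk, h3, h1⟩
      · by_cases h4 : κ k = κ v
        · exact Or.inr (Or.inl ⟨hk, h4, h2⟩)
        · exact Or.inr (Or.inr ⟨hk, h3, h4⟩)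
    · rintro (⟨hk, h1, h2⟩ | ⟨hk, h1, h2⟩ | ⟨hk, h1, h2⟩)
      · exact ⟨hk, h2, far _ _ hk kv (by rw [h1]; exact S.hk)⟩
      · exact ⟨hk, far _ _ hk ky (by rw [h1]; exact S.hk.symm), h2⟩
      · exact ⟨hk, far _ _ hk ky h1, far _ _ hk kv h2⟩
  have d1 : Disjoint (K.filter (fun k => κ k = κ v ∧ Disjoint (ns i k) (uc v)))
      (K.filter (fun k => κ k ≠ κ y ∧ κ k ≠ κ v)) := by
    rw [disjoint_left]
    intro k h h'
    exact (mem_filter.1 h').2.2 (mem_filter.1 h).2.1
  have d2 : Disjoint (K.filter (fun k => κ k = κ y ∧ Disjoint (ns i k) (uc y)))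
      (K.filter (fun k => κ k = κ v ∧ Disjoint (ns i k) (uc v)) ∪
        K.filter (fun k => κ k ≠ κ y ∧ κ k ≠ κ v)) := by
    rw [disjoint_left]
    intro k h h'
    rcases mem_union.1 h' with h' | h'
    · exact S.hk ((mem_filter.1 h).2.1.symm.trans (mem_filter.1 h').2.1)
    · exact (mem_filter.1 h').2.1 (mem_filter.1 h).2.1
  have e1 : ∑ k ∈ K.filter (fun k => κ k ≠ κ y ∧ κ k ≠ κ v), sgn i k = 0 := by
    rw [← Finset.sum_fiberwise_of_maps_to (t := univ.image κ) (g := κ)
      (fun k _ => mem_image_of_mem κ (mem_univ k))]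
    refine Finset.sum_eq_zero fun a _ => ?_
    by_cases h : a ≠ κ y ∧ a ≠ κ v
    · have : (K.filter (fun k => κ k ≠ κ y ∧ κ k ≠ κ v)).filter (fun k => κ k = a) =
          K.filter (fun k => κ k = a) := by
        ext k
        rw [mem_filter, mem_filter, mem_filter]
        constructor
        · exact fun h => ⟨h.1.1, h.2⟩
        · rintro ⟨h1, h2⟩
          exact ⟨⟨h1, by rw [h2]; exact h.1, by rw [h2]; exact h.2⟩, h2⟩
      rw [this]
      exact EK.sum_K H hir hκ hM hK a
    · rw [Finset.filter_eq_empty_iff.2, sum_empty]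
      intro k hk h2
      rw [mem_filter] at hk
      rw [← h2] at h
      exact h hk.2
  rw [e0, sum_union d2, sum_union d1, e1, add_zero]

/-- the weight of a join -/
noncomputable def cz (i : ℕ) (K : Finset P) (z : P) : ℤ := EK.Ek i K (Tz z) 1

/-- THE IDENTITY (2,1) + (4,2) -/
theorem identity_42 (H : Gr P r) (hir : i ≤ r) (hq : NoQ P (i + 2))
    (hg : ∀ m, m + 1 = i → Good P m) (hκ : Split (i + 1) κ) (hM : Mat P i K psi)
    (hK : K ⊆ dbL P i ∪ dbU P i)
    (hP : ∀ a ∈ univ.image κ, Prof 2 4 (bb i (i + 1) κ a) (VV i (i + 1) κ a)) :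
    ∑ a ∈ univ.image κ, (al 2 (bb i (i + 1) κ a) (VV i (i + 1) κ a) +
      (al 2 (bb i (i + 1) κ a) (VV i (i + 1) κ a) ^ 2 -
      2 * be 4 (bb i (i + 1) κ a) (VV i (i + 1) κ a))) +
      2 * ∑ z ∈ Z2 i κ, (1 + cz i K z) = 0 := by
  obtain ⟨h1, h2⟩ := four_two H hir hq hg hκ hM hK hP
  rw [sum_add_distrib, h1, h2]
  have : ∑ z ∈ Z2 i κ, (EK.Ek i K (Tz z) 1 + EK.Ek i K (Tz z) 0) =
      ∑ z ∈ Z2 i κ, (1 + cz i K z) := by
    refine Finset.sum_congr rfl fun z _ => ?_
    rw [Ek_zero hK, add_comm]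
    rfl
  rw [this]
  ring

/-- CONSEQUENCE: all `F = 0`, and every join has weight `1 + c = 0` -/
theorem all_zero (H : Gr P r) (hir : i ≤ r) (hq : NoQ P (i + 2))
    (hg : ∀ m, m + 1 = i → Good P m) (hκ : Split (i + 1) κ) (hM : Mat P i K psi)
    (hK : K ⊆ dbL P i ∪ dbU P i)
    (hP : ∀ a ∈ univ.image κ, Prof 2 4 (bb i (i + 1) κ a) (VV i (i + 1) κ a))
    (hF : ∀ a ∈ univ.image κ, 0 ≤ al 2 (bb i (i + 1) κ a) (VV i (i + 1) κ a) +
      (al 2 (bb i (i + 1) κ a) (VV i (i + 1) κ a) ^ 2 -
      2 * be 4 (bb i (i + 1) κ a) (VV i (i + 1) κ a)))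
    (hS : ∀ z y v, SD i κ z y v → z ∉ cuni (i + 1) κ →
      0 ≤ 1 + (EK.sa i κ K (uc y) (κ y) + EK.sa i κ K (uc v) (κ v))) :
    (∀ a ∈ univ.image κ, al 2 (bb i (i + 1) κ a) (VV i (i + 1) κ a) +
      (al 2 (bb i (i + 1) κ a) (VV i (i + 1) κ a) ^ 2 -
      2 * be 4 (bb i (i + 1) κ a) (VV i (i + 1) κ a)) = 0) ∧
    ∀ z y v, SD i κ z y v → z ∉ cuni (i + 1) κ →
      1 + (EK.sa i κ K (uc y) (κ y) + EK.sa i κ K (uc v) (κ v)) = 0 := by
  have h1 := identity_42 H hir hq hg hκ hM hK hP
  have h2 : ∀ z ∈ Z2 i κ, 0 ≤ 1 + cz i K z := by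
    intro z hz
    obtain ⟨hz1, y, v, S⟩ := mem_Z2.1 hz
    unfold cz
    rw [Ek_one_SD H hir hκ hM hK S]
    exact hS z y v S hz1
  have h3 := Finset.sum_nonneg hF
  have h4 := Finset.sum_nonneg h2
  have h5 := (Finset.sum_eq_zero_iff_of_nonneg hF).1 (by linarith)
  have h6 := (Finset.sum_eq_zero_iff_of_nonneg h2).1 (by linarith)
  refine ⟨h5, ?_⟩
  intro z y v S hz
  rw [← Ek_one_SD H hir hκ hM hK S]
  exact h6 z (mem_Z2.2 ⟨hz, y, v, S⟩)

end Pool.Agent.GaussPoset.Win.K2

end

/-! From `Pool.Agent.W_448p_h97.PcA` -/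

section

/-!
MP_448cb3_co, G2, case B: THE IDENTITIES (3,2) AND (4,2) at the window `j` without the hypothesis
`w32 = 0`: the logarithmic form of the coefficient (4,2).  helper97.
-/

namespace Pool.Agent.GaussPoset.Win.I2

set_option linter.unusedSectionVars false

open Finset

/-! ### algebra -/

/-- coefficient of `q^1 d^b` -/
noncomputable def c1 (b : ℕ) (V : PowerSeries A) : ℤ :=
  PowerSeries.coeff b (PowerSeries.coeff 1 V : A)

lemma cg_one (b : ℕ) (V : PowerSeries A) : cg 1 b V = c1 b V := by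
  unfold cg c1 gd
  simp

lemma cg_two (b : ℕ) (V : PowerSeries A) : cg 2 b V = al 2 b V := by
  unfold cg al gd
  simp

lemma cg_four (b : ℕ) (V : PowerSeries A) : cg 4 b V = be 4 b V := by
  unfold cg be gd
  simp

lemma anti_cg4 (f : ℕ × ℕ → ℤ) :
    (∑ p ∈ Finset.HasAntidiagonal.antidiagonal 4, f p =
      f (0, 4) + f (1, 3) + f (2, 2) + f (3, 1) + f (4, 0)) ∧
    (∑ p ∈ Finset.HasAntidiagonal.antidiagonal 2, f p = f (0, 2) + f (1, 1) + f (2, 0)) ∧
    (∑ p ∈ Finset.HasAntidiagonal.antidiagonal 1, f p = f (0, 1) + f (1, 0)) := by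
  simp only [Finset.Nat.sum_antidiagonal_eq_sum_range_succ_mk, Finset.sum_range_succ,
    Finset.sum_range_zero]
  norm_num

section mul

variable {b b' : ℕ} {V V' : PowerSeries A} (h : PG b V) (h' : PG b' V')
include h h'

lemma c1_mul_PG : c1 (b + b') (V * V') = eps b V * c1 b' V' + c1 b V * eps b' V' := by
  rw [← cg_zero, ← cg_zero, ← cg_one, ← cg_one, ← cg_one, cg_mul h h' (by omega),
    (anti_cg4 _).2.2]
  simp [gd]

lemma al_mul_PG : al 2 (b + b') (V * V') = eps b V * al 2 b' V' + al 2 b V * eps b' V' := by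
  rw [← cg_zero, ← cg_zero, ← cg_two, ← cg_two, ← cg_two, cg_mul h h' (by omega),
    (anti_cg4 _).2.1]
  simp [gd]

lemma be_mul_PG : be 4 (b + b') (V * V') = eps b V * be 4 b' V' + c1 b V * w3 b' V' +
    al 2 b V * al 2 b' V' + w3 b V * c1 b' V' + be 4 b V * eps b' V' := by
  rw [← cg_zero, ← cg_zero, ← cg_one, ← cg_one, ← cg_two, ← cg_two, ← cg_three, ← cg_three,
    ← cg_four, ← cg_four, ← cg_four, cg_mul h h' (by omega), (anti_cg4 _).1]
  simp [gd]

end mul

/-- the additive quantity at the energy four -/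
noncomputable def Q4 (b : ℕ) (V : PowerSeries A) : ℤ :=
  al 2 b V ^ 2 - 2 * be 4 b V + 2 * c1 b V * w3 b V

/-- the product over the components -/
theorem prod_Q4 {ι : Type*} (s : Finset ι) (b : ι → ℕ) (V : ι → PowerSeries A)
    (h : ∀ c ∈ s, PG (b c) (V c)) (h1 : ∀ c ∈ s, eps (b c) (V c) = 1) :
    PG (∑ c ∈ s, b c) (∏ c ∈ s, V c) ∧ eps (∑ c ∈ s, b c) (∏ c ∈ s, V c) = 1 ∧
    w3 (∑ c ∈ s, b c) (∏ c ∈ s, V c) = ∑ c ∈ s, w3 (b c) (V c) ∧
    al 2 (∑ c ∈ s, b c) (∏ c ∈ s, V c) = ∑ c ∈ s, al 2 (b c) (V c) ∧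
    Q4 (∑ c ∈ s, b c) (∏ c ∈ s, V c) = ∑ c ∈ s, Q4 (b c) (V c) := by
  classical
  induction s using Finset.induction_on with
  | empty =>
    simp only [Finset.sum_empty, Finset.prod_empty]
    refine ⟨PG_one, ?_, ?_, ?_, ?_⟩
    · simp [eps]
    · simp [w3, PowerSeries.coeff_one]
    · simp [al, PowerSeries.coeff_one]
    · simp [Q4, al, be, c1, w3, PowerSeries.coeff_one]
  | insert a s ha ih =>
    obtain ⟨i1, i2, i3, i4, i5⟩ := ih (fun c hc => h c (Finset.mem_insert_of_mem hc))
      (fun c hc => h1 c (Finset.mem_insert_of_mem hc))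
    have ha1 := h a (Finset.mem_insert_self a s)
    have ha2 := h1 a (Finset.mem_insert_self a s)
    simp only [Finset.sum_insert ha, Finset.prod_insert ha]
    rw [← i3, ← i4, ← i5]
    refine ⟨ha1.mul i1, ?_, ?_, ?_, ?_⟩
    · rw [eps_mul_PG ha1 i1, ha2, i2, one_mul]
    · rw [w3_mul_PG ha1 i1, ha2, i2]; ring
    · rw [al_mul_PG ha1 i1, ha2, i2]; ring
    · unfold Q4
      rw [w3_mul_PG ha1 i1, al_mul_PG ha1 i1, be_mul_PG ha1 i1, c1_mul_PG ha1 i1, ha2, i2]
      ring

end Pool.Agent.GaussPoset.Win.I2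

namespace Pool.Agent.GaussPoset.Win.K2

set_option linter.unusedSectionVars false

open Finset I2

universe u

variable {P : Type u} [Fintype P] [PartialOrder P] [DecidableEq P] {r i : ℕ} {e : P → ℕ}

variable {ι : Type*} [DecidableEq ι] {κ : P → ι} {K : Finset P} {psi : P → P}

/-- THE IDENTITIES (3,2), (2,1) AND (4,2), without the hypothesis `w32 = 0` -/
theorem four_two_gen (H : Gr P r) (hir : i ≤ r) (hq : NoQ P (i + 2))
    (hg : ∀ m, m + 1 = i → Good P m) (hκ : Split (i + 1) κ) (hM : Mat P i K psi)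
    (hK : K ⊆ dbL P i ∪ dbU P i)
    (hP : ∀ a ∈ univ.image κ, PG (bb i (i + 1) κ a) (VV i (i + 1) κ a)) :
    ∑ a ∈ univ.image κ, w3 (bb i (i + 1) κ a) (VV i (i + 1) κ a) = 0 ∧
    ∑ a ∈ univ.image κ, al 2 (bb i (i + 1) κ a) (VV i (i + 1) κ a) = 0 ∧
    ∑ a ∈ univ.image κ, Q4 (bb i (i + 1) κ a) (VV i (i + 1) κ a) =
      - (2 * ∑ z ∈ Z2 i κ, (EK.Ek i K (Tz z) 1 + EK.Ek i K (Tz z) 0)) := by
  classical
  have hB : ∑ a ∈ univ.image κ, bb i (i + 1) κ a = (lv P i).card := sum_card_st (by omega) hκ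
  have hE : ∀ a ∈ univ.image κ, eps (bb i (i + 1) κ a) (VV i (i + 1) κ a) = 1 :=
    fun a _ => eps_VV H hir a
  have htot : ∀ n, dd ^ (lv P i).card ∣ ∑ e ∈ (univ : Finset P).piAntidiag n, trm i e :=
    fun n => dvd_sum_trm H hir n
  obtain ⟨-, -, i3, i4, i5⟩ := prod_Q4 (univ.image κ) _ _ hP hE
  rw [hB] at i3 i4 i5
  have h3 : w3 (lv P i).card (∏ a ∈ univ.image κ, VV i (i + 1) κ a) = 0 := by
    unfold w3
    apply coeff_zero_of_dvd (a := (lv P i).card + 1)
    · rw [prod_eq H hir hκ]
      have h4 : dd ^ ((lv P i).card - 1) ∣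
          ∑ e ∈ (univ : Finset P).piAntidiag 3, trm i e -
            ∑ e ∈ ((univ : Finset P).piAntidiag 3).filter (Cr i κ), trm i e :=
        dvd_sub ((pow_dvd_pow dd (Nat.sub_le _ _)).trans (htot 3))
          (cross3 H hir hq hg hκ le_rfl)
      refine (pow_dvd_pow dd (show (lv P i).card + 1 ≤ 2 + ((lv P i).card - 1) by omega)).trans ?_
      rw [pow_add]
      exact mul_dvd_mul_left _ h4
    · omega
  have h2 : al 2 (lv P i).card (∏ a ∈ univ.image κ, VV i (i + 1) κ a) = 0 := by
    unfold al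
    apply coeff_zero_of_dvd (a := (lv P i).card + 1)
    · rw [prod_eq H hir hκ, cross_two H hq hκ le_rfl, sub_zero, pow_succ']
      exact mul_dvd_mul_left _ (dvd_sum_trm H hir 2)
    · omega
  have h4 : be 4 (lv P i).card (∏ a ∈ univ.image κ, VV i (i + 1) κ a) =
      ∑ z ∈ Z2 i κ, (EK.Ek i K (Tz z) 1 + EK.Ek i K (Tz z) 0) :=
    prod_coeff H hir hq hg hκ hM hK 0
  refine ⟨by rw [← i3, h3], by rw [← i4, h2], ?_⟩
  rw [← i5]
  unfold Q4
  rw [h3, h2, h4]
  ring

end Pool.Agent.GaussPoset.Win.K2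

end

/-! From `Pool.Agent.W_448ua_h10.UaA` -/

section

/-!
MP_448cb3_co, G2, case B, window `j`: the decomposition of the window series by the set of the
labels which are touched by an excited cross element.  helper10.
-/

namespace Pool.Agent.GaussPoset.Win.K2

set_option linter.unusedSectionVars false

open Finset

universe u

variable {P : Type u} [Fintype P] [PartialOrder P] [DecidableEq P] {r i l : ℕ}

/-- the series of the configurations on `C` with the property `Q` -/
noncomputable def ZQ (i : ℕ) (C : Finset P) (Q : (P → ℕ) → Prop) : PowerSeries A := by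
  classical
  exact PowerSeries.mk (fun n => ∑ e ∈ (C.piAntidiag n).filter Q, tC i C e)

open Classical in
lemma coeff_ZQ (i : ℕ) (C : Finset P) (Q : (P → ℕ) → Prop) (n : ℕ) :
    PowerSeries.coeff n (ZQ i C Q) = ∑ e ∈ (C.piAntidiag n).filter Q, tC i C e := by
  unfold ZQ
  rw [PowerSeries.coeff_mk]

lemma ZQ_true (i : ℕ) (C : Finset P) (Q : (P → ℕ) → Prop) (h : ∀ e, Q e) :
    ZQ i C Q = ZS i C := by
  classical
  ext1 n
  rw [coeff_ZQ, coeff_ZS]
  unfold ZC
  rw [filter_true_of_mem (fun e _ => h e)]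

lemma mem_pa' {C : Finset P} {n : ℕ} {e : P → ℕ} :
    e ∈ C.piAntidiag n ↔ ∑ x, e x = n ∧ Spt C e := I2.mem_pa

/-- factorisation with a property of the first part -/
theorem ZQ_union (H : Gr P r) (hir : i ≤ r) {C D : Finset P} (hC : Part i C) (hD : Part i D)
    (hCD : Disjoint C D) (Q : (P → ℕ) → Prop) :
    ZQ i (C ∪ D) (fun g => Q (rst C g)) = ZQ i C Q * ZS i D := by
  classical
  ext1 n
  rw [coeff_ZQ, PowerSeries.coeff_mul]
  simp only [coeff_ZQ, coeff_ZS]
  have h1 : ∑ p ∈ antidiagonal n, (∑ e ∈ (C.piAntidiag p.1).filter Q, tC i C e) * ZC i D p.2 =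
      ∑ q ∈ (antidiagonal n).sigma (fun p => (C.piAntidiag p.1).filter Q ×ˢ D.piAntidiag p.2),
        tC i C q.2.1 * tC i D q.2.2 := by
    rw [Finset.sum_sigma]
    refine Finset.sum_congr rfl fun p _ => ?_
    unfold ZC
    rw [Finset.sum_mul_sum, ← Finset.sum_product']
  rw [h1]
  refine Finset.sum_bij'
    (i := fun g _ => (⟨(C.sum g, D.sum g), (rst C g, rst D g)⟩ :
      Σ _ : ℕ × ℕ, (P → ℕ) × (P → ℕ)))
    (j := fun q _ => q.2.1 + q.2.2) ?_ ?_ ?_ ?_ ?_
  · intro g hg
    rw [mem_filter] at hg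
    obtain ⟨hg, hq⟩ := hg
    have hs := spt_of_mem hg
    rw [mem_piAntidiag] at hg
    rw [mem_sigma]
    refine ⟨?_, ?_⟩
    · rw [Finset.HasAntidiagonal.mem_antidiagonal]
      simp only
      rw [← Finset.sum_union hCD]
      exact hg.1
    · rw [mem_product, mem_filter, mem_piAntidiag, mem_piAntidiag]
      refine ⟨⟨⟨rst_sum C g, fun x hx => ?_⟩, hq⟩, ⟨rst_sum D g, fun x hx => ?_⟩⟩
      · by_contra h; exact hx (rst_spt C g x h)
      · by_contra h; exact hx (rst_spt D g x h)
  · rintro ⟨⟨a, b⟩, ⟨e, f⟩⟩ hq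
    rw [mem_sigma, mem_product, mem_filter] at hq
    simp only at hq
    obtain ⟨hab, ⟨he, hqe⟩, hf⟩ := hq
    have hse := spt_of_mem he
    have hsf := spt_of_mem hf
    rw [mem_piAntidiag] at he hf
    rw [Finset.HasAntidiagonal.mem_antidiagonal] at hab
    rw [mem_filter, mem_piAntidiag]
    simp only
    refine ⟨⟨?_, ?_⟩, ?_⟩
    · have h2 := sum_zero_of hCD hse
      have h3 := sum_zero_of hCD.symm hsf
      have h4 : C.sum (e + f) = a := by
        have : C.sum (e + f) = C.sum e + C.sum f := by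
          rw [← Finset.sum_add_distrib]; rfl
        rw [this, he.1, h3, add_zero]
      have h5 : D.sum (e + f) = b := by
        have : D.sum (e + f) = D.sum e + D.sum f := by
          rw [← Finset.sum_add_distrib]; rfl
        rw [this, hf.1, h2, zero_add]
      rw [Finset.sum_union hCD, h4, h5]
      exact hab
    · intro x hx
      by_contra h
      exact hx ((hse.add hsf) x h)
    · rw [rst_left hCD hse hsf]
      exact hqe
  · intro g hg
    exact rst_add_rst hCD (spt_of_mem (mem_filter.1 hg).1)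
  · rintro ⟨⟨a, b⟩, ⟨e, f⟩⟩ hq
    rw [mem_sigma, mem_product, mem_filter] at hq
    simp only at hq
    obtain ⟨hab, ⟨he, hqe⟩, hf⟩ := hq
    have hse := spt_of_mem he
    have hsf := spt_of_mem hf
    rw [mem_piAntidiag] at he hf
    have h2 := sum_zero_of hCD hse
    have h3 := sum_zero_of hCD.symm hsf
    have h4 : C.sum (e + f) = a := by
      have : C.sum (e + f) = C.sum e + C.sum f := by
        rw [← Finset.sum_add_distrib]; rfl
      rw [this, he.1, h3, add_zero]
    have h5 : D.sum (e + f) = b := by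
      have : D.sum (e + f) = D.sum e + D.sum f := by
        rw [← Finset.sum_add_distrib]; rfl
      rw [this, hf.1, h2, zero_add]
    have h6 : rst C (e + f) = e := rst_left hCD hse hsf
    have h7 : rst D (e + f) = f := by
      rw [add_comm e f]
      exact rst_left hCD.symm hsf hse
    simp only [h4, h5, h6, h7]
  · intro g hg
    have hs := spt_of_mem (mem_filter.1 hg).1
    simp only
    rw [← tC_add H hir hC hD hCD (rst_spt C g) (rst_spt D g), rst_add_rst hCD hs]

variable {ι : Type*} [DecidableEq ι] {κ : P → ι}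

open Classical in
/-- the elements which are below the components with a label in `T` only -/
noncomputable def eT (l : ℕ) (κ : P → ι) (T : Finset ι) : Finset P :=
  univ.filter (fun x => ∀ y, x ≤ y → lev y ≤ l → κ y ∈ T)

lemma mem_eT {T : Finset ι} {x : P} :
    x ∈ eT l κ T ↔ ∀ y, x ≤ y → lev y ≤ l → κ y ∈ T := by
  classical
  unfold eT
  rw [mem_filter]
  exact ⟨fun h => h.2, fun h => ⟨mem_univ x, h⟩⟩

lemma mem_eT_of_le (hκ : Split l κ) {T : Finset ι} {x : P} (hx : lev x ≤ l) (h : κ x ∈ T) :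
    x ∈ eT l κ T := by
  rw [mem_eT]
  intro y hy _
  rw [← hκ.le x hy hx]
  exact h

theorem part_eT (H : Gr P r) (hil : i ≤ l) (hκ : Split l κ) (T : Finset ι) :
    Part i (eT l κ T) where
  up := by
    intro x y hx hxy
    rw [mem_eT] at hx ⊢
    exact fun w hw hl => hx w (hxy.le.trans hw) hl
  dn := by
    intro x y hy hl hxy
    have h1 := lev_uc H (mem_uc.2 hxy)
    rw [mem_eT] at hy
    refine mem_eT_of_le hκ (by omega) ?_
    rw [hκ hxy (by omega)]
    exact hy y le_rfl (by omega)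

lemma eT_mono {T U : Finset ι} (h : T ⊆ U) : eT l κ T ⊆ eT l κ U := by
  intro x hx
  rw [mem_eT] at hx ⊢
  exact fun y hy hl => h (hx y hy hl)

lemma cext_sub_eT {T : Finset ι} {a : ι} (h : a ∈ T) : cext l κ a ⊆ eT l κ T := by
  intro x hx
  rw [mem_eT]
  intro y hy hl
  rw [mem_cext.1 hx y hy hl]
  exact h

lemma disj_eT_cext {T : Finset ι} {a : ι} (h : a ∉ T) : Disjoint (eT l κ T) (cext l κ a) := by
  rw [disjoint_left]
  intro x hx hx'
  obtain ⟨y, hy, hy0⟩ := exists_top x
  have h1 := mem_eT.1 hx y hy (by omega)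
  rw [mem_cext.1 hx' y hy (by omega)] at h1
  exact h h1

lemma eT_univ (l : ℕ) (κ : P → ι) : eT l κ (univ.image κ) = univ := by
  ext x
  refine ⟨fun _ => mem_univ x, fun _ => ?_⟩
  rw [mem_eT]
  intro y _ _
  exact mem_image_of_mem κ (mem_univ y)

open Classical in
/-- the labels which are touched by an excited cross element -/
noncomputable def Tch (l : ℕ) (κ : P → ι) (e : P → ℕ) : Finset ι :=
  (univ.image κ).filter (fun a => ∃ z, 1 ≤ e z ∧ z ∉ cuni l κ ∧ ∃ y, z ≤ y ∧ lev y ≤ l ∧ κ y = a)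

lemma mem_Tch {e : P → ℕ} {a : ι} : a ∈ Tch l κ e ↔
    ∃ z, 1 ≤ e z ∧ z ∉ cuni l κ ∧ ∃ y, z ≤ y ∧ lev y ≤ l ∧ κ y = a := by
  classical
  unfold Tch
  rw [mem_filter]
  refine ⟨fun h => h.2, fun h => ⟨?_, h⟩⟩
  obtain ⟨z, -, -, y, -, -, rfl⟩ := h
  exact mem_image_of_mem κ (mem_univ y)

/-- an excited cross element lies below touched labels only -/
lemma mem_eT_Tch {e : P → ℕ} {z : P} (h1 : 1 ≤ e z) (hz : z ∉ cuni l κ) :
    z ∈ eT l κ (Tch l κ e) := by
  rw [mem_eT]
  intro y hy hl
  rw [mem_Tch]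
  exact ⟨z, h1, hz, y, hy, hl, rfl⟩

lemma Tch_congr {e f : P → ℕ} (h : ∀ z, z ∉ cuni l κ → e z = f z) : Tch l κ e = Tch l κ f := by
  ext a
  rw [mem_Tch, mem_Tch]
  constructor
  · rintro ⟨z, h1, h2, h3⟩
    exact ⟨z, by rw [← h z h2]; exact h1, h2, h3⟩
  · rintro ⟨z, h1, h2, h3⟩
    exact ⟨z, by rw [h z h2]; exact h1, h2, h3⟩

/-- the union of the components with a label in `U` which is not in `T` -/
noncomputable def rU (l : ℕ) (κ : P → ι) (U T : Finset ι) : Finset P :=
  (U \ T).biUnion (cext l κ)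

lemma rU_sub_cuni {U T : Finset ι} (hU : U ⊆ univ.image κ) : rU l κ U T ⊆ cuni l κ := by
  intro x hx
  unfold rU at hx
  rw [mem_biUnion] at hx
  obtain ⟨a, ha, hxa⟩ := hx
  unfold cuni
  rw [mem_biUnion]
  exact ⟨a, hU (mem_sdiff.1 ha).1, hxa⟩

lemma disj_rU {U T : Finset ι} : Disjoint (eT l κ T) (rU l κ U T) := by
  unfold rU
  rw [disjoint_biUnion_right]
  intro a ha
  exact disj_eT_cext (mem_sdiff.1 ha).2

lemma part_rU (H : Gr P r) (hil : i ≤ l) (hκ : Split l κ) (U T : Finset ι) :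
    Part i (rU l κ U T) :=
  Part.biUnion _ _ fun a _ => part_cext H hil hκ a

lemma ZS_rU (H : Gr P r) (hir : i ≤ r) (hil : i ≤ l) (hκ : Split l κ) (U T : Finset ι) :
    ZS i (rU l κ U T) = ∏ a ∈ U \ T, ZS i (cext l κ a) :=
  ZS_biUnion H hir _ _ (fun a _ => part_cext H hil hκ a) (fun _ _ _ _ h => disj_cext h)

/-- the sites of `eT U` -/
lemma st_eT (hil : i ≤ l) (hκ : Split l κ) {U T : Finset ι} (hT : T ⊆ U) :
    st i (eT l κ T ∪ rU l κ U T) = st i (eT l κ U) := by
  ext v
  rw [mem_st, mem_st, mem_union]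
  constructor
  · rintro ⟨h1 | h1, h2⟩
    · exact ⟨eT_mono hT h1, h2⟩
    · refine ⟨?_, h2⟩
      unfold rU at h1
      rw [mem_biUnion] at h1
      obtain ⟨a, ha, hxa⟩ := h1
      exact cext_sub_eT (mem_sdiff.1 ha).1 hxa
  · rintro ⟨h1, h2⟩
    refine ⟨?_, h2⟩
    have h3 := mem_eT.1 h1 v le_rfl (by omega)
    by_cases h4 : κ v ∈ T
    · left
      exact mem_eT_of_le hκ (by omega) h4
    · right
      unfold rU
      rw [mem_biUnion]
      exact ⟨κ v, mem_sdiff.2 ⟨h3, h4⟩, mem_cext_of_le hκ (by omega) rfl⟩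

lemma tC_congr_st {C D : Finset P} (h : st i C = st i D) (e : P → ℕ) : tC i C e = tC i D e := by
  unfold tC
  rw [h]

/-- the restriction to the touched labels keeps the cross elements -/
lemma rst_cross {e : P → ℕ} {T : Finset ι} (h : Tch l κ e = T) {z : P} (hz : z ∉ cuni l κ) :
    rst (eT l κ T) e z = e z := by
  unfold rst
  by_cases h1 : 1 ≤ e z
  · rw [if_pos]
    rw [← h]
    exact mem_eT_Tch h1 hz
  · split_ifs
    · rfl
    · omega

/-- the configurations with the touched labels `T` -/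
lemma touch_iff {U T : Finset ι} (hU : U ⊆ univ.image κ)
    (hT : T ⊆ U) {Q : (P → ℕ) → Prop}
    (hQ : ∀ e f : P → ℕ, (∀ z, z ∉ cuni l κ → e z = f z) → (Q e ↔ Q f)) {e : P → ℕ} :
    (Spt (eT l κ U) e ∧ Q e ∧ Tch l κ e = T) ↔
      (Spt (eT l κ T ∪ rU l κ U T) e ∧ (Tch l κ (rst (eT l κ T) e) = T ∧
        Q (rst (eT l κ T) e))) := by
  constructor
  · rintro ⟨hs, hq, ht⟩
    have h1 : ∀ z, z ∉ cuni l κ → rst (eT l κ T) e z = e z := fun z hz => rst_cross ht hz
    refine ⟨?_, ?_, ?_⟩
    · intro x hx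
      by_contra h0
      apply hx
      rw [mem_union]
      have hxU : x ∈ eT l κ U := by
        by_contra h2
        exact h0 (hs x h2)
      by_cases h3 : x ∈ cuni l κ
      · unfold cuni at h3
        rw [mem_biUnion] at h3
        obtain ⟨a, -, ha⟩ := h3
        obtain ⟨y, hy, hy0⟩ := exists_top x
        have h4 : a ∈ U := by
          have h5 := mem_eT.1 hxU y hy (by omega)
          rw [mem_cext.1 ha y hy (by omega)] at h5
          exact h5
        by_cases h5 : a ∈ T
        · left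
          exact cext_sub_eT h5 ha
        · right
          unfold rU
          rw [mem_biUnion]
          exact ⟨a, mem_sdiff.2 ⟨h4, h5⟩, ha⟩
      · left
        rw [← ht]
        exact mem_eT_Tch (by omega) h3
    · rw [Tch_congr h1]
      exact ht
    · exact (hQ _ _ h1).2 hq
  · rintro ⟨hs, ht, hq⟩
    have h1 : ∀ z, z ∉ cuni l κ → rst (eT l κ T) e z = e z := by
      intro z hz
      unfold rst
      split_ifs with h2
      · rfl
      · symm
        apply hs
        rw [mem_union]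
        rintro (h3 | h3)
        · exact h2 h3
        · exact hz (rU_sub_cuni hU h3)
    refine ⟨?_, ?_, ?_⟩
    · intro x hx
      apply hs
      rw [mem_union]
      rintro (h3 | h3)
      · exact hx (eT_mono hT h3)
      · unfold rU at h3
        rw [mem_biUnion] at h3
        obtain ⟨a, ha, hxa⟩ := h3
        exact hx (cext_sub_eT (mem_sdiff.1 ha).1 hxa)
    · exact (hQ _ _ h1).1 hq
    · rw [← Tch_congr h1]
      exact ht

/-- the series of the configurations on the labels `T` which touch every label of `T` -/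
noncomputable def XT (i : ℕ) (κ : P → ι) (T : Finset ι) (Q : (P → ℕ) → Prop) : PowerSeries A :=
  ZQ i (eT (i + 1) κ T) (fun e => Tch (i + 1) κ e = T ∧ Q e)

lemma Tch_sub {U : Finset ι} {e : P → ℕ} (hs : Spt (eT l κ U) e) : Tch l κ e ⊆ U := by
  intro a ha
  rw [mem_Tch] at ha
  obtain ⟨z, h1, -, y, hy, hl, rfl⟩ := ha
  have h2 : z ∈ eT l κ U := by
    by_contra h3
    rw [hs z h3] at h1
    omega
  exact mem_eT.1 h2 y hy hl

/-- THE DECOMPOSITION by the touched labels -/
theorem touch_decomp (H : Gr P r) (hir : i ≤ r) (hκ : Split (i + 1) κ) {U : Finset ι}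
    (hU : U ⊆ univ.image κ) {Q : (P → ℕ) → Prop}
    (hQ : ∀ e f : P → ℕ, (∀ z, z ∉ cuni (i + 1) κ → e z = f z) → (Q e ↔ Q f)) :
    ZQ i (eT (i + 1) κ U) Q =
      ∑ T ∈ U.powerset, XT i κ T Q * ∏ a ∈ U \ T, ZS i (cext (i + 1) κ a) := by
  classical
  ext1 n
  rw [coeff_ZQ, map_sum]
  have h1 : ∑ e ∈ ((eT (i + 1) κ U).piAntidiag n).filter Q, tC i (eT (i + 1) κ U) e =
      ∑ T ∈ U.powerset, ∑ e ∈ (((eT (i + 1) κ U).piAntidiag n).filter Q).filter
        (fun e => Tch (i + 1) κ e = T), tC i (eT (i + 1) κ U) e := by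
    symm
    apply Finset.sum_fiberwise_of_maps_to
    intro e he
    rw [mem_filter] at he
    rw [mem_powerset]
    exact Tch_sub (spt_of_mem he.1)
  rw [h1]
  refine Finset.sum_congr rfl fun T hT => ?_
  rw [mem_powerset] at hT
  have h2 : XT i κ T Q * ∏ a ∈ U \ T, ZS i (cext (i + 1) κ a) =
      ZQ i (eT (i + 1) κ T ∪ rU (i + 1) κ U T)
        (fun g => (fun e => Tch (i + 1) κ e = T ∧ Q e) (rst (eT (i + 1) κ T) g)) := by
    have h3 := ZQ_union H hir (part_eT H (by omega) hκ T) (part_rU H (by omega) hκ U T)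
      (disj_rU (κ := κ) (U := U) (T := T)) (fun e => Tch (i + 1) κ e = T ∧ Q e)
    rw [ZS_rU H hir (by omega) hκ] at h3
    exact h3.symm
  rw [h2, coeff_ZQ]
  refine Finset.sum_congr ?_ fun e _ => tC_congr_st (st_eT (by omega) hκ hT).symm e
  ext e
  simp only [Finset.mem_filter, mem_pa']
  have h3 := touch_iff hU hT hQ (e := e)
  constructor
  · rintro ⟨⟨⟨a1, a2⟩, a3⟩, a4⟩
    obtain ⟨b1, b2⟩ := h3.1 ⟨a2, a3, a4⟩
    exact ⟨⟨a1, b1⟩, b2⟩
  · rintro ⟨⟨a1, a2⟩, a3⟩
    obtain ⟨b1, b2, b3⟩ := h3.2 ⟨a2, a3⟩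
    exact ⟨⟨⟨a1, b1⟩, b2⟩, b3⟩

end Pool.Agent.GaussPoset.Win.K2

end

/-! From `Pool.Agent.W_448ua_h10.UaB` -/

section

/-!
MP_448cb3_co, G2, case B, window `j`: initial forms of slope `3/2` (weight 2 for the energy,
weight 3 for `dd`) and the unit argument.  helper10.
-/

namespace Pool.Agent.GaussPoset.Win.K2

set_option linter.unusedSectionVars false

open Finset

universe u

/-- poles of order at most `2 n / 3` -/
def Wt3 (b : ℕ) (f : PowerSeries A) : Prop := ∀ n, dd ^ (b - 2 * n / 3) ∣ PowerSeries.coeff n f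

/-- poles of order less than `2 n / 3` -/
def Ws3 (b : ℕ) (f : PowerSeries A) : Prop :=
  ∀ n, dd ^ (b - (2 * n - 1) / 3) ∣ PowerSeries.coeff n f ∧ (n = 0 → PowerSeries.coeff n f = 0)

/-- the coefficients on the edge of slope `3/2` -/
noncomputable def ini3 (b : ℕ) (f : PowerSeries A) : Polynomial ℤ :=
  ∑ k ∈ Finset.range (b / 2 + 1),
    Polynomial.monomial k (PowerSeries.coeff (b - 2 * k) (PowerSeries.coeff (3 * k) f : A))

lemma coeff_ini3 (b : ℕ) (f : PowerSeries A) (k : ℕ) : (ini3 b f).coeff k =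
    if 2 * k ≤ b then PowerSeries.coeff (b - 2 * k) (PowerSeries.coeff (3 * k) f : A) else 0 := by
  unfold ini3
  rw [Polynomial.finsetSum_coeff]
  simp only [Polynomial.coeff_monomial]
  rw [Finset.sum_ite_eq']
  simp only [Finset.mem_range]
  by_cases h : 2 * k ≤ b
  · rw [if_pos (by omega), if_pos h]
  · rw [if_neg (by omega), if_neg h]

lemma Wt3.mul {b c : ℕ} {f g : PowerSeries A} (hf : Wt3 b f) (hg : Wt3 c g) :
    Wt3 (b + c) (f * g) := by
  intro n
  rw [PowerSeries.coeff_mul]
  refine Finset.dvd_sum fun p hp => ?_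
  rw [HasAntidiagonal.mem_antidiagonal] at hp
  refine (pow_dvd_pow dd (m := b + c - 2 * n / 3)
    (n := (b - 2 * p.1 / 3) + (c - 2 * p.2 / 3)) (by omega)).trans ?_
  rw [pow_add]
  exact mul_dvd_mul (hf p.1) (hg p.2)

lemma Wt3.sum {ι : Type*} {b : ℕ} {s : Finset ι} {f : ι → PowerSeries A}
    (h : ∀ a ∈ s, Wt3 b (f a)) : Wt3 b (∑ a ∈ s, f a) := by
  intro n
  rw [map_sum]
  exact Finset.dvd_sum fun a ha => h a ha n

lemma Ws3.sum {ι : Type*} {b : ℕ} {s : Finset ι} {f : ι → PowerSeries A}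
    (h : ∀ a ∈ s, Ws3 b (f a)) : Ws3 b (∑ a ∈ s, f a) := by
  intro n
  rw [map_sum]
  exact ⟨Finset.dvd_sum fun a ha => (h a ha n).1,
    fun h0 => Finset.sum_eq_zero fun a ha => (h a ha n).2 h0⟩

lemma Ws3.mul {b c : ℕ} {f g : PowerSeries A} (hf : Ws3 b f) (hg : Wt3 c g) :
    Ws3 (b + c) (f * g) := by
  intro n
  rw [PowerSeries.coeff_mul]
  constructor
  · refine Finset.dvd_sum fun p hp => ?_
    rw [HasAntidiagonal.mem_antidiagonal] at hp
    rcases Nat.eq_zero_or_pos p.1 with h0 | h0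
    · rw [(hf p.1).2 h0, zero_mul]
      exact dvd_zero _
    · refine (pow_dvd_pow dd (m := b + c - (2 * n - 1) / 3)
        (n := (b - (2 * p.1 - 1) / 3) + (c - 2 * p.2 / 3)) (by omega)).trans ?_
      rw [pow_add]
      exact mul_dvd_mul (hf p.1).1 (hg p.2)
  · rintro rfl
    refine Finset.sum_eq_zero fun p hp => ?_
    rw [HasAntidiagonal.mem_antidiagonal] at hp
    rw [(hf p.1).2 (by omega), zero_mul]

lemma Ws3.ini {b : ℕ} {f : PowerSeries A} (h : Ws3 b f) : ini3 b f = 0 := by
  ext k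
  rw [coeff_ini3, Polynomial.coeff_zero]
  split_ifs with hk
  · rcases Nat.eq_zero_or_pos k with rfl | h0
    · rw [(h (3 * 0)).2 rfl]
      exact map_zero _
    · exact I2.coeff_zero_of_dvd (h (3 * k)).1 (by omega)
  · rfl

lemma ini3_add (b : ℕ) (f g : PowerSeries A) : ini3 b (f + g) = ini3 b f + ini3 b g := by
  ext k
  rw [Polynomial.coeff_add, coeff_ini3, coeff_ini3, coeff_ini3]
  split_ifs
  · rw [map_add, map_add]
  · rw [add_zero]

lemma ini3_mul {b c : ℕ} {f g : PowerSeries A} (hf : Wt3 b f) (hg : Wt3 c g) :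
    ini3 (b + c) (f * g) = ini3 b f * ini3 c g := by
  ext k
  rw [coeff_ini3, Polynomial.coeff_mul]
  simp only [coeff_ini3]
  by_cases hk : 2 * k ≤ b + c
  · rw [if_pos hk, PowerSeries.coeff_mul, map_sum]
    symm
    refine Finset.sum_of_injOn (fun p : ℕ × ℕ => (3 * p.1, 3 * p.2)) ?_ ?_ ?_ ?_
    · intro p _ q _ h
      simp only [Prod.mk.injEq] at h
      ext <;> omega
    · intro p hp
      rw [mem_coe, HasAntidiagonal.mem_antidiagonal] at hp ⊢
      simp only
      omega
    · intro p hp hne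
      rw [HasAntidiagonal.mem_antidiagonal] at hp
      have hodd : p.1 % 3 ≠ 0 ∧ p.2 % 3 ≠ 0 := by
        by_contra h
        apply hne
        refine ⟨(p.1 / 3, p.2 / 3), ?_, ?_⟩
        · rw [mem_coe, HasAntidiagonal.mem_antidiagonal]
          simp only
          omega
        · ext <;> simp only <;> omega
      have hx : 2 * p.1 / 3 + 2 * p.2 / 3 + 1 = 2 * k := by
        obtain ⟨h1, h2⟩ := hodd
        obtain ⟨u, hu⟩ : ∃ u, p.1 = 3 * u + 1 ∨ p.1 = 3 * u + 2 := ⟨p.1 / 3, by omega⟩
        obtain ⟨v, hv⟩ : ∃ v, p.2 = 3 * v + 1 ∨ p.2 = 3 * v + 2 := ⟨p.2 / 3, by omega⟩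
        rcases hu with hu | hu <;> rcases hv with hv | hv <;> rw [hu, hv] at hp ⊢ <;> omega
      apply I2.coeff_zero_of_dvd (a := (b - 2 * p.1 / 3) + (c - 2 * p.2 / 3))
      · rw [pow_add]
        exact mul_dvd_mul (hf p.1) (hg p.2)
      · generalize 2 * p.1 / 3 = u at hx ⊢
        generalize 2 * p.2 / 3 = v at hx ⊢
        omega
    · intro p hp
      rw [HasAntidiagonal.mem_antidiagonal] at hp
      simp only
      by_cases h1 : 2 * p.1 ≤ b
      · by_cases h2 : 2 * p.2 ≤ c
        · rw [if_pos h1, if_pos h2]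
          have e1 : b + c - 2 * k = (b - 2 * p.1) + (c - 2 * p.2) := by omega
          rw [e1]
          symm
          apply I2.coeff_low
          · have := hf (3 * p.1)
            rwa [show 2 * (3 * p.1) / 3 = 2 * p.1 by omega] at this
          · have := hg (3 * p.2)
            rwa [show 2 * (3 * p.2) / 3 = 2 * p.2 by omega] at this
        · rw [if_neg h2, mul_zero]
          symm
          apply I2.coeff_zero_of_dvd (a := (b - 2 * p.1) + (c - 2 * p.2))
          · rw [pow_add]
            have t1 := hf (3 * p.1)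
            rw [show 2 * (3 * p.1) / 3 = 2 * p.1 by omega] at t1
            have t2 := hg (3 * p.2)
            rw [show 2 * (3 * p.2) / 3 = 2 * p.2 by omega] at t2
            exact mul_dvd_mul t1 t2
          · omega
      · rw [if_neg h1, zero_mul]
        symm
        apply I2.coeff_zero_of_dvd (a := (b - 2 * p.1) + (c - 2 * p.2))
        · rw [pow_add]
          have t1 := hf (3 * p.1)
          rw [show 2 * (3 * p.1) / 3 = 2 * p.1 by omega] at t1
          have t2 := hg (3 * p.2)
          rw [show 2 * (3 * p.2) / 3 = 2 * p.2 by omega] at t2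
          exact mul_dvd_mul t1 t2
        · omega
  · rw [if_neg hk]
    symm
    refine Finset.sum_eq_zero fun p hp => ?_
    rw [HasAntidiagonal.mem_antidiagonal] at hp
    by_cases h1 : 2 * p.1 ≤ b
    · rw [if_neg (show ¬ 2 * p.2 ≤ c by omega), mul_zero]
    · rw [if_neg h1, zero_mul]

lemma Wt3.one : Wt3 0 (1 : PowerSeries A) := by
  intro n
  rw [Nat.zero_sub, pow_zero]
  exact one_dvd _

lemma Wt3.prod {ι : Type*} [DecidableEq ι] {s : Finset ι} {b : ι → ℕ} {f : ι → PowerSeries A}
    (h : ∀ a ∈ s, Wt3 (b a) (f a)) : Wt3 (∑ a ∈ s, b a) (∏ a ∈ s, f a) := by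
  induction s using Finset.induction_on with
  | empty => simpa using Wt3.one
  | insert a s ha ih =>
    rw [Finset.sum_insert ha, Finset.prod_insert ha]
    exact (h a (mem_insert_self a s)).mul (ih fun b hb => h b (mem_insert_of_mem hb))

/-- UNIT ARGUMENT: polynomials with product one and constant term one are one -/
lemma unit_one {f g : Polynomial ℤ} (h : f * g = 1) (h0 : f.coeff 0 = 1) : f = 1 := by
  have hu : IsUnit f := IsUnit.of_mul_eq_one g h
  obtain ⟨c, hc, hcf⟩ := Polynomial.isUnit_iff.1 hu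
  rw [← hcf] at h0 ⊢
  rw [Polynomial.coeff_C_zero] at h0
  rw [h0, Polynomial.C_1]

end Pool.Agent.GaussPoset.Win.K2

end

/-! From `Pool.Agent.W_448ua_h10.UaC` -/

section

/-!
MP_448cb3_co, G2, case B, window `j`: the edge polynomial of a set of components without joins
to the other components is one.  helper10.
-/

namespace Pool.Agent.GaussPoset.Win.K2

set_option linter.unusedSectionVars false

open Finset I2

universe u

variable {P : Type u} [Fintype P] [PartialOrder P] [DecidableEq P] {r i l : ℕ}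
variable {ι : Type*} [DecidableEq ι] {κ : P → ι}

lemma Wt3_zero (f : PowerSeries A) : Wt3 0 f := by
  intro n
  rw [Nat.zero_sub, pow_zero]
  exact one_dvd _

/-- the sites of `eT U` are distributed -/
lemma card_st_eT (hil : i ≤ l) (hκ : Split l κ) {U T : Finset ι} (hT : T ⊆ U) :
    (st i (eT l κ U)).card =
      (st i (eT l κ T)).card + ∑ a ∈ U \ T, (st i (cext l κ a)).card := by
  rw [← st_eT hil hκ hT, card_st_union disj_rU]
  congr 1
  unfold rU st
  rw [Finset.filter_biUnion, Finset.card_biUnion]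
  intro a _ b _ hab
  exact disjoint_of_subset_left (filter_subset _ _)
    (disjoint_of_subset_right (filter_subset _ _) (disj_cext hab))

lemma eT_empty (l : ℕ) (κ : P → ι) : eT l κ (∅ : Finset ι) = ∅ := by
  rw [Finset.eq_empty_iff_forall_notMem]
  intro x hx
  obtain ⟨y, hy, hy0⟩ := exists_top x
  exact absurd (mem_eT.1 hx y hy (by omega)) (notMem_empty _)

/-- the property that an excited element lies below labels of both sides -/
def Cr2 (l : ℕ) (κ : P → ι) (T0 T1 : Finset ι) (e : P → ℕ) : Prop :=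
  ∃ z, 1 ≤ e z ∧ z ∉ eT l κ T0 ∧ z ∉ eT l κ T1

lemma not_cuni {T0 T1 : Finset ι} (h01 : T0 ∪ T1 = univ.image κ) {z : P}
    (h0 : z ∉ eT l κ T0) (h1 : z ∉ eT l κ T1) : z ∉ cuni l κ := by
  intro h2
  unfold cuni at h2
  rw [mem_biUnion] at h2
  obtain ⟨a, ha, hz⟩ := h2
  rw [← h01, mem_union] at ha
  rcases ha with ha | ha
  · exact h0 (cext_sub_eT ha hz)
  · exact h1 (cext_sub_eT ha hz)

lemma Cr2_congr {T0 T1 : Finset ι} (h01 : T0 ∪ T1 = univ.image κ) (e f : P → ℕ)
    (h : ∀ z, z ∉ cuni l κ → e z = f z) : Cr2 l κ T0 T1 e ↔ Cr2 l κ T0 T1 f := by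
  constructor
  · rintro ⟨z, h1, h2, h3⟩
    exact ⟨z, by rw [← h z (not_cuni h01 h2 h3)]; exact h1, h2, h3⟩
  · rintro ⟨z, h1, h2, h3⟩
    exact ⟨z, by rw [h z (not_cuni h01 h2 h3)]; exact h1, h2, h3⟩

section main

variable (H : Gr P r) (hir : i ≤ r) (hκ : Split (i + 1) κ)
  (hA : ∀ T : Finset ι, T.Nonempty → T ⊆ univ.image κ →
    Wt3 (st i (eT (i + 1) κ T)).card (XT i κ T (fun _ => True)))
  (hown : ∀ a ∈ univ.image κ, Wt3 (st i (cext (i + 1) κ a)).card (ZS i (cext (i + 1) κ a)))
include H hir hκ hA hown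

/-- every union of components has poles of order at most `2 n / 3` -/
theorem Wt3_eT {U : Finset ι} (hU : U ⊆ univ.image κ) :
    Wt3 (st i (eT (i + 1) κ U)).card (ZS i (eT (i + 1) κ U)) := by
  have h1 := touch_decomp H hir hκ hU (Q := fun _ => True) (fun _ _ _ => Iff.rfl)
  rw [ZQ_true i _ _ (fun _ => trivial)] at h1
  rw [h1]
  refine Wt3.sum fun T hT => ?_
  rw [mem_powerset] at hT
  rw [card_st_eT (by omega) hκ hT]
  refine Wt3.mul ?_ (Wt3.prod fun a ha => hown a (hU (mem_sdiff.1 ha).1))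
  rcases T.eq_empty_or_nonempty with rfl | hne
  · rw [eT_empty]
    have : (st i (∅ : Finset P)).card = 0 := by
      unfold st
      simp
    rw [this]
    exact Wt3_zero _
  · exact hA T hne (hT.trans hU)

/-- the configurations which join the two sides do not reach the edge -/
theorem Ws3_cross {T0 T1 : Finset ι} (h01 : T0 ∪ T1 = univ.image κ)
    (hS : ∀ T : Finset ι, T.Nonempty → T ⊆ univ.image κ →
      Ws3 (st i (eT (i + 1) κ T)).card (XT i κ T (Cr2 (i + 1) κ T0 T1))) :
    Ws3 (lv P i).card (ZQ i univ (Cr2 (i + 1) κ T0 T1)) := by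
  have h1 := touch_decomp H hir hκ (U := univ.image κ) (subset_refl _)
    (Q := Cr2 (i + 1) κ T0 T1) (Cr2_congr h01)
  rw [eT_univ] at h1
  rw [h1]
  have hb : (lv P i).card = (st i (eT (i + 1) κ (univ.image κ))).card := by
    rw [eT_univ, st_univ]
  rw [hb]
  refine Ws3.sum fun T hT => ?_
  rw [mem_powerset] at hT
  rw [card_st_eT (by omega) hκ hT]
  refine Ws3.mul ?_ (Wt3.prod fun a ha => hown a (mem_sdiff.1 ha).1)
  rcases T.eq_empty_or_nonempty with rfl | hne
  · classical
    have h0 : XT i κ ∅ (Cr2 (i + 1) κ T0 T1) = 0 := by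
      ext1 n
      unfold XT
      rw [coeff_ZQ, map_zero]
      apply Finset.sum_eq_zero
      intro e he
      exfalso
      simp only [Finset.mem_filter] at he
      obtain ⟨-, h2, z, h3, h4, h5⟩ := he
      have h6 := mem_eT_Tch h3 (not_cuni h01 h4 h5)
      rw [h2, eT_empty] at h6
      exact absurd h6 (notMem_empty _)
    rw [h0]
    intro n
    rw [map_zero]
    exact ⟨dvd_zero _, fun _ => rfl⟩
  · exact hS T hne hT

omit hκ hA hown in
/-- the total has no edge -/
lemma ini3_total : ini3 (lv P i).card (ZS i (univ : Finset P)) = 1 := by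
  ext k
  have h1 : ∀ n, dd ^ (lv P i).card ∣ ZC i (univ : Finset P) n := by
    intro n
    have h2 := dvd_sum_trm H hir n
    unfold ZC
    simp only [tC_univ]
    exact h2
  rcases Nat.eq_zero_or_pos k with rfl | hk
  · rw [coeff_ini3, coeff_ZS, if_pos (by omega), Polynomial.coeff_one, if_pos rfl]
    simp only [Nat.mul_zero, Nat.sub_zero]
    rw [ZC_zero H hir, st_univ]
    unfold dd
    rw [PowerSeries.coeff_X_pow_self]
  · have h3 : (1 : Polynomial ℤ).coeff k = 0 := by
      rw [Polynomial.coeff_one, if_neg (by omega)]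
    rw [h3, coeff_ini3, coeff_ZS]
    split_ifs with h2
    · exact I2.coeff_zero_of_dvd (h1 (3 * k)) (by omega)
    · rfl

/-- THE EDGE POLYNOMIAL OF A SIDE -/
theorem side_unit {T0 T1 : Finset ι} (h01 : T0 ∪ T1 = univ.image κ) (hd : Disjoint T0 T1)
    (hS : ∀ T : Finset ι, T.Nonempty → T ⊆ univ.image κ →
      Ws3 (st i (eT (i + 1) κ T)).card (XT i κ T (Cr2 (i + 1) κ T0 T1))) :
    ini3 (st i (eT (i + 1) κ T0)).card (ZS i (eT (i + 1) κ T0)) = 1 := by
  classical
  have hs := Ws3_cross H hir hκ hA hown h01 hS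
  have hdis : Disjoint (eT (i + 1) κ T0) (eT (i + 1) κ T1) := by
    rw [disjoint_left]
    intro x hx hx'
    obtain ⟨y, hy, hy0⟩ := exists_top x
    exact disjoint_left.1 hd (mem_eT.1 hx y hy (by omega)) (mem_eT.1 hx' y hy (by omega))
  have hprod := ZS_union H hir (part_eT H (i := i) (by omega) hκ T0)
    (part_eT H (i := i) (by omega) hκ T1) hdis
  have hst : st i (eT (i + 1) κ T0 ∪ eT (i + 1) κ T1) = lv P i := by
    ext v
    rw [mem_st, mem_union, mem_lv]
    constructor
    · exact fun h => h.2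
    · intro h
      refine ⟨?_, h⟩
      have h2 : κ v ∈ T0 ∪ T1 := by
        rw [h01]
        exact mem_image_of_mem κ (mem_univ v)
      rcases mem_union.1 h2 with h3 | h3
      · exact Or.inl (mem_eT_of_le hκ (by omega) h3)
      · exact Or.inr (mem_eT_of_le hκ (by omega) h3)
  have hcard : (st i (eT (i + 1) κ T0)).card + (st i (eT (i + 1) κ T1)).card =
      (lv P i).card := by
    rw [← card_st_union hdis, hst]
  have htot : ZS i (univ : Finset P) =
      ZS i (eT (i + 1) κ T0) * ZS i (eT (i + 1) κ T1) + ZQ i univ (Cr2 (i + 1) κ T0 T1) := by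
    rw [← hprod]
    ext1 n
    rw [map_add, coeff_ZS, coeff_ZS, coeff_ZQ]
    unfold ZC
    rw [← Finset.sum_filter_add_sum_filter_not ((univ : Finset P).piAntidiag n)
      (Cr2 (i + 1) κ T0 T1), add_comm]
    congr 1
    have h2 : ((univ : Finset P).piAntidiag n).filter (fun e => ¬ Cr2 (i + 1) κ T0 T1 e) =
        (eT (i + 1) κ T0 ∪ eT (i + 1) κ T1).piAntidiag n := by
      ext e
      simp only [Finset.mem_filter, mem_pa']
      constructor
      · rintro ⟨⟨h3, -⟩, h4⟩
        refine ⟨h3, fun x hx => ?_⟩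
        by_contra h5
        rw [mem_union, not_or] at hx
        exact h4 ⟨x, by omega, hx.1, hx.2⟩
      · rintro ⟨h3, h4⟩
        refine ⟨⟨h3, fun x hx => absurd (mem_univ x) hx⟩, ?_⟩
        rintro ⟨z, hz, h5, h6⟩
        have := h4 z (by rw [mem_union]; tauto)
        omega
    rw [h2]
    refine Finset.sum_congr rfl fun e _ => ?_
    exact tC_congr_st (by rw [st_univ, hst]) e
  have w0 := Wt3_eT H hir hκ hA hown (U := T0) (by rw [← h01]; exact subset_union_left)
  have w1 := Wt3_eT H hir hκ hA hown (U := T1) (by rw [← h01]; exact subset_union_right)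
  have e1 := ini3_total H hir
  rw [htot, ini3_add, hs.ini, add_zero, ← hcard, ini3_mul w0 w1] at e1
  refine unit_one e1 ?_
  rw [coeff_ini3, if_pos (by omega)]
  simp only [Nat.mul_zero, Nat.sub_zero]
  rw [coeff_ZS, ZC_zero H hir]
  unfold dd
  rw [PowerSeries.coeff_X_pow_self]

end main

/-- the values on the edge -/
lemma w3_of_ini {b : ℕ} {f : PowerSeries A} (h : ini3 b f = 1) : w3 b f = 0 := by
  have h1 : (ini3 b f).coeff 1 = 0 := by
    rw [h, Polynomial.coeff_one, if_neg (by omega)]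
  rw [coeff_ini3] at h1
  unfold w3 dd
  rw [PowerSeries.coeff_X_pow_mul']
  split_ifs with h2
  · rw [if_pos (by omega)] at h1
    exact h1
  · rfl

end Pool.Agent.GaussPoset.Win.K2

end

/-! From `Pool.Agent.W_448pb_h63.PbC` -/

section

/-!
Per class identities at the window j (MP_448cb3_co, case B): the series of the configurations which
touch every label of `T`.
-/

namespace Pool.Agent.GaussPoset.Win.K2

set_option linter.unusedSectionVars false

open Finset I2

universe u

variable {P : Type u} [Fintype P] [PartialOrder P] [DecidableEq P] {r i : ℕ} {e : P → ℕ}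

variable {ι : Type*} [DecidableEq ι] {κ : P → ι} {K : Finset P} {psi : P → P}

/-- two configurations which agree away from the near levels -/
lemma sw_far (hM : Mat P i K psi) (H : Gr P r) (hκ : Split (i + 1) κ) {y : P}
    (hy : y ∈ SK i K psi e) {z : P} (hz : z ∉ cuni (i + 1) κ) : sw psi y e z = e z := by
  have h4 := (two_up H hκ hz).1
  have h5 := mem_SK.1 hy
  rw [sw_lev hM (mem_SK2.1 hy).1 (by omega) (by omega)]

section sums

variable (H : Gr P r) (hir : i ≤ r) (hq : NoQ P (i + 2)) (hg : ∀ m, m + 1 = i → Good P m)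
  (hκ : Split (i + 1) κ) (hM : Mat P i K psi)
include H hir hq hg hκ hM

open Classical in
/-- divisibility of the coefficients from a bound for every configuration -/
theorem XT_dvd {T : Finset ι} {Q : (P → ℕ) → Prop}
    (hQ : ∀ e f : P → ℕ, (∀ z, z ∉ cuni (i + 1) κ → e z = f z) → (Q e ↔ Q f)) {n m : ℕ}
    (hb : ∀ e : P → ℕ, ∑ x, e x = n → Spt (eT (i + 1) κ T) e → Tch (i + 1) κ e = T → Q e →
      AdmL i e → AdmU i e → Disjoint (AL i e) (AU i e) →
      (AL i e).card + (AU i e).card ≤ m + (pL i e + pU i e) + (SK i K psi e).card) :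
    dd ^ ((st i (eT (i + 1) κ T)).card - m) ∣ PowerSeries.coeff n (XT i κ T Q) := by
  unfold XT
  rw [coeff_ZQ]
  refine class_dvd hM H ?_ ?_
  · intro e he y hy
    simp only [Finset.mem_filter, mem_pa'] at he ⊢
    obtain ⟨⟨h1, h2⟩, h3, h4⟩ := he
    have h5 : ∀ z, z ∉ cuni (i + 1) κ → sw psi y e z = e z := fun z hz => sw_far hM H hκ hy hz
    refine ⟨⟨by rw [sum_sw]; exact h1, spt_sw hM H (part_eT H le_rfl hκ T) h2 hy⟩, ?_, ?_⟩
    · rw [Tch_congr h5]
      exact h3
    · exact (hQ _ _ h5).2 h4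
  · intro e he
    simp only [Finset.mem_filter, mem_pa'] at he
    obtain ⟨⟨h1, h2⟩, h3, h4⟩ := he
    exact tC_dvd fun hL hU hd => hb e h1 h2 h3 h4 hL hU hd

/-- (2a): the bound of slope two thirds -/
theorem XT_Wt3 {T : Finset ι} (hK : ∀ a ∈ T, Star i (cext (i + 1) κ a) K) {Q : (P → ℕ) → Prop}
    (hQ : ∀ e f : P → ℕ, (∀ z, z ∉ cuni (i + 1) κ → e z = f z) → (Q e ↔ Q f)) :
    Wt3 (st i (eT (i + 1) κ T)).card (XT i κ T Q) := by
  intro n
  refine XT_dvd H hir hq hg hκ hM hQ ?_
  intro e h1 h2 h3 _ hL hU hd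
  have hT : ∀ a ∈ T, Tou i κ e a := by
    intro a ha
    rw [← h3, mem_Tch] at ha
    obtain ⟨z, z1, z2, z3⟩ := ha
    exact ⟨z, z2, z1, z3⟩
  have hs : ∀ x, lev x ≤ i + 1 → 1 ≤ e x → κ x ∈ T := by
    intro x hx h0
    have h4 : x ∈ eT (i + 1) κ T := by
      by_contra h5
      have := h2 x h5
      omega
    exact mem_eT.1 h4 x le_rfl hx
  have h4 := slope_T H hir hq hg hκ hM hK hs hL hU hd (δ := 0)
    (by have := card_touch H hκ hq hL hT; omega)
  rw [h1] at h4
  omega

end sums

/-- the own series of a label with a star -/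
theorem own_Wt3 (H : Gr P r) (hir : i ≤ r) (hq : NoQ P (i + 2))
    (hg : ∀ m, m + 1 = i → Good P m) (hκ : Split (i + 1) κ) (hM : Mat P i K psi)
    (hKs : K ⊆ dbL P i ∪ dbU P i) {a : ι} (hs : Star i (cext (i + 1) κ a) K) :
    Wt3 (st i (cext (i + 1) κ a)).card (ZS i (cext (i + 1) κ a)) := by
  have hPG := (PG_star H hir hq hg hκ hM hKs hs).1
  have hC : Part (i + 1) (cext (i + 1) κ a) := part_cext H le_rfl hκ a
  have hcl := K_class H hir hq hg hM hC hs
  intro n
  rw [coeff_ZS]
  rcases Nat.lt_or_ge n 2 with h | h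
  · have h1 := hPG n (by omega)
    unfold bb VV gd at h1
    rw [coeff_ZS] at h1
    interval_cases n
    · simpa using h1
    · simpa using h1
  · exact (pow_dvd_pow dd (by omega)).trans (hcl n)

end Pool.Agent.GaussPoset.Win.K2

end

/-! From `Pool.Agent.W_448L1_h63.LaB` -/

section

/-!
Components without a heavy join at the window j (MP_448cb3_co, case B): the exchange of the labels
of a free pair of unmatched elements.
-/

namespace Pool.Agent.GaussPoset.Win.K2

set_option linter.unusedSectionVars false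

open Finset I2

universe u

variable {P : Type u} [Fintype P] [PartialOrder P] [DecidableEq P] {r i : ℕ} {e : P → ℕ}

/-- the labels of the lower element `y` and the upper element `tau y` can be exchanged -/
structure SOK (i : ℕ) (tau : P → P) (e : P → ℕ) (y : P) : Prop where
  ly : lev y = i + 1
  lw : lev (tau y) + 1 = i
  cy : (uc y).card = 2
  cx : (dc (tau y)).card = 2
  one : (e y = 1 ∧ e (tau y) = 0) ∨ (e y = 0 ∧ e (tau y) = 1)
  lo : ∀ z ∈ dc y, e z = 0
  up : ∀ u ∈ uc (tau y), e u = 0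
  s0 : ∀ x ∈ uc y, e x = 0
  s1 : ∀ x ∈ dc (tau y), e x = 0
  lo' : ∀ x, (x ∈ uc y ∨ x ∈ dc (tau y)) → ∀ z ∈ dc x, z ≠ y → e z = 0
  up' : ∀ x, (x ∈ uc y ∨ x ∈ dc (tau y)) → ∀ u ∈ uc x, u ≠ tau y → e u = 0

section stat

variable {tau : P → P} {y : P} (hy : SOK i tau e y)

lemma SOK.sw_lev (hy : SOK i tau e y) {x : P} (h1 : lev x ≠ i + 1) (h2 : lev x + 1 ≠ i)
    (f : P → ℕ) : sw tau y f x = f x := by
  apply sw_ne
  · rintro rfl
    exact h1 hy.ly
  · rintro rfl
    exact h2 hy.lw

lemma SOK.sites (H : Gr P r) (hy : SOK i tau e y) {x : P} (hx : x ∈ uc y ∨ x ∈ dc (tau y)) :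
    lev x = i ∧ e x = 0 := by
  rcases hx with h | h
  · have h1 := lev_uc H h
    have := hy.ly
    exact ⟨by omega, hy.s0 x h⟩
  · have h1 := lev_dc H h
    have := hy.lw
    exact ⟨by omega, hy.s1 x h⟩

/-- the pair is still free after the exchange -/
lemma SOK.self (H : Gr P r) (hy : SOK i tau e y) : SOK i tau (sw tau y e) y := by
  have l1 := hy.ly
  have l2 := hy.lw
  have far : ∀ x, lev x ≠ i + 1 → lev x + 1 ≠ i → sw tau y e x = e x := fun x h1 h2 =>
    hy.sw_lev h1 h2 e
  refine ⟨hy.ly, hy.lw, hy.cy, hy.cx, ?_, ?_, ?_, ?_, ?_, ?_, ?_⟩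
  · rw [sw_y, sw_psi]
    rcases hy.one with h | h
    · exact Or.inr ⟨h.2, h.1⟩
    · exact Or.inl ⟨h.2, h.1⟩
  · intro z hz
    have := lev_dc H hz
    rw [far z (by omega) (by omega)]
    exact hy.lo z hz
  · intro z hz
    have := lev_uc H hz
    rw [far z (by omega) (by omega)]
    exact hy.up z hz
  · intro z hz
    have := lev_uc H hz
    rw [far z (by omega) (by omega)]
    exact hy.s0 z hz
  · intro z hz
    have := lev_dc H hz
    rw [far z (by omega) (by omega)]
    exact hy.s1 z hz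
  · intro x hx z hz hne
    have h1 := (hy.sites H hx).1
    have h2 := lev_dc H hz
    rw [sw_ne e hne (by rintro rfl; omega)]
    exact hy.lo' x hx z hz hne
  · intro x hx z hz hne
    have h1 := (hy.sites H hx).1
    have h2 := lev_uc H hz
    rw [sw_ne e (by rintro rfl; omega) hne]
    exact hy.up' x hx z hz hne

variable (H : Gr P r) (h1 : e y = 1)
include hy H h1

omit H in
lemma SOK.psi0 : e (tau y) = 0 := by
  rcases hy.one with h | h <;> omega

lemma SOK.FD_sw {z : P} (hz : i < lev z) : FD (sw tau y e) z ↔ FD e z := by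
  have hl := hy.ly
  have hp := hy.lw
  have key : ∀ z', z' ⋖ z → sw tau y e z' = e z' := by
    intro z' hz'
    have := lev_uc H (mem_uc.2 hz')
    exact hy.sw_lev (by omega) (by omega) e
  by_cases h : z = y
  · subst h
    constructor
    · rintro ⟨z', hz', hlt⟩
      rw [key z' hz', hy.lo z' (mem_dc.2 hz')] at hlt
      omega
    · rintro ⟨z', hz', hlt⟩
      rw [hy.lo z' (mem_dc.2 hz')] at hlt
      omega
  · have h2 : sw tau y e z = e z := sw_ne e h (by rintro rfl; omega)
    constructor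
    · rintro ⟨z', hz', hlt⟩
      exact ⟨z', hz', by rwa [key z' hz', h2] at hlt⟩
    · rintro ⟨z', hz', hlt⟩
      exact ⟨z', hz', by rwa [key z' hz', h2]⟩

lemma SOK.GU_sw {z : P} (hz : i < lev z) (hne : z ≠ y) : GU (sw tau y e) z ↔ GU e z := by
  have hl := hy.ly
  have hp := hy.lw
  have h2 : sw tau y e z = e z := sw_ne e hne (by rintro rfl; omega)
  by_cases h : y ∈ uc z
  · have h3 : e z = 0 := hy.lo z (mem_dc.2 (mem_uc.1 h))
    constructor
    · intro _
      exact ⟨y, mem_uc.1 h, by omega⟩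
    · intro _
      exact ⟨y, mem_uc.1 h, by rw [h2]; omega⟩
  · have key : ∀ a, z ⋖ a → sw tau y e a = e a := by
      intro a ha
      have := lev_uc H (mem_uc.2 ha)
      exact sw_ne e (by rintro rfl; exact h (mem_uc.2 ha)) (by rintro rfl; omega)
    constructor
    · rintro ⟨a, ha, hle⟩
      exact ⟨a, ha, by rwa [h2, key a ha] at hle⟩
    · rintro ⟨a, ha, hle⟩
      exact ⟨a, ha, by rwa [h2, key a ha]⟩

lemma SOK.FU_sw {z : P} (hz : lev z < i) : FU (sw tau y e) z ↔ FU e z := by
  have hl := hy.ly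
  have hp := hy.lw
  have key : ∀ z', z ⋖ z' → sw tau y e z' = e z' := by
    intro z' hz'
    have := lev_uc H (mem_uc.2 hz')
    exact hy.sw_lev (by omega) (by omega) e
  by_cases h : z = tau y
  · subst h
    constructor
    · rintro ⟨z', hz', hlt⟩
      rw [key z' hz', hy.up z' (mem_uc.2 hz')] at hlt
      omega
    · rintro ⟨z', hz', hlt⟩
      rw [hy.up z' (mem_uc.2 hz')] at hlt
      omega
  · have h2 : sw tau y e z = e z := sw_ne e (by rintro rfl; omega) h
    constructor
    · rintro ⟨z', hz', hlt⟩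
      exact ⟨z', hz', by rwa [key z' hz', h2] at hlt⟩
    · rintro ⟨z', hz', hlt⟩
      exact ⟨z', hz', by rwa [key z' hz', h2]⟩

lemma SOK.GD_sw {z : P} (hz : lev z < i) (hne : z ≠ tau y) : GD (sw tau y e) z ↔ GD e z := by
  have hl := hy.ly
  have hp := hy.lw
  have h2 : sw tau y e z = e z := sw_ne e (by rintro rfl; omega) hne
  by_cases h : tau y ∈ dc z
  · have h3 : e z = 0 := hy.up z (mem_uc.2 (mem_dc.1 h))
    constructor
    · intro _
      exact ⟨tau y, mem_dc.1 h, by omega⟩
    · intro _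
      exact ⟨tau y, mem_dc.1 h, by rw [h2]; omega⟩
  · have key : ∀ a, a ⋖ z → sw tau y e a = e a := by
      intro a ha
      have := lev_uc H (mem_uc.2 ha)
      exact sw_ne e (by rintro rfl; omega) (by rintro rfl; exact h (mem_dc.2 ha))
    constructor
    · rintro ⟨a, ha, hle⟩
      exact ⟨a, ha, by rwa [h2, key a ha] at hle⟩
    · rintro ⟨a, ha, hle⟩
      exact ⟨a, ha, by rwa [h2, key a ha]⟩

omit H in
lemma SOK.not_FD_y : ¬ FD e y := by
  rintro ⟨z', hz', hlt⟩
  rw [hy.lo z' (mem_dc.2 hz')] at hlt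
  omega

omit H in
lemma SOK.not_GU_y : ¬ GU e y := by
  rintro ⟨a, ha, hle⟩
  have := hy.s0 a (mem_uc.2 ha)
  omega

omit H in
lemma SOK.GU_sw_y : GU (sw tau y e) y := by
  have hc := hy.cy
  have h2 : (uc y).Nonempty := by
    rw [← card_pos]
    omega
  obtain ⟨a, ha⟩ := h2
  refine ⟨a, mem_uc.1 ha, ?_⟩
  rw [sw_y, hy.psi0 h1]
  exact Nat.zero_le _

lemma SOK.not_FU_psi : ¬ FU (sw tau y e) (tau y) := by
  have hp := hy.lw
  rintro ⟨z', hz', hlt⟩
  have := lev_uc H (mem_uc.2 hz')
  have h2 := hy.sw_lev (x := z') (by omega) (by omega) e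
  rw [h2, hy.up z' (mem_uc.2 hz')] at hlt
  omega

omit H in
lemma SOK.GD_psi : GD e (tau y) := by
  have hc := hy.cx
  have h2 : (dc (tau y)).Nonempty := by
    rw [← card_pos]
    omega
  obtain ⟨a, ha⟩ := h2
  refine ⟨a, mem_dc.1 ha, ?_⟩
  rw [hy.psi0 h1]
  exact Nat.zero_le _

lemma SOK.not_GD_sw_psi : ¬ GD (sw tau y e) (tau y) := by
  rintro ⟨a, ha, hle⟩
  have h3 : a ∈ dc (tau y) := mem_dc.2 ha
  have h4 := hy.sites H (Or.inr h3)
  rw [sw_psi, h1, hy.sw_lev (x := a) (by omega) (by omega) e, h4.2] at hle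
  omega

lemma SOK.AdmL_sw : AdmL i (sw tau y e) ↔ AdmL i e := by
  constructor
  · rintro h z hz ⟨h2, h3⟩
    have h4 : z ≠ y := by
      rintro rfl
      exact hy.not_FD_y h1 h2
    exact h z hz ⟨(hy.FD_sw H h1 hz).2 h2, (hy.GU_sw H h1 hz h4).2 h3⟩
  · rintro h z hz ⟨h2, h3⟩
    rw [hy.FD_sw H h1 hz] at h2
    have h4 : z ≠ y := by
      rintro rfl
      exact hy.not_FD_y h1 h2
    exact h z hz ⟨h2, (hy.GU_sw H h1 hz h4).1 h3⟩

lemma SOK.AdmU_sw : AdmU i (sw tau y e) ↔ AdmU i e := by
  constructor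
  · rintro h z hz ⟨h2, h3⟩
    rw [← hy.FU_sw H h1 hz] at h2
    have h4 : z ≠ tau y := by
      rintro rfl
      exact hy.not_FU_psi H h1 h2
    exact h z hz ⟨h2, (hy.GD_sw H h1 hz h4).2 h3⟩
  · rintro h z hz ⟨h2, h3⟩
    have h4 : z ≠ tau y := by
      rintro rfl
      exact hy.not_FU_psi H h1 h2
    rw [hy.FU_sw H h1 hz] at h2
    exact h z hz ⟨h2, (hy.GD_sw H h1 hz h4).1 h3⟩

lemma SOK.aL_sw : aL i (sw tau y e) = aL i e := by
  classical
  unfold aL
  congr 1
  ext z
  simp only [mem_filter, mem_univ, true_and]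
  constructor
  · rintro ⟨hz, h⟩
    exact ⟨hz, (hy.FD_sw H h1 hz).1 h⟩
  · rintro ⟨hz, h⟩
    exact ⟨hz, (hy.FD_sw H h1 hz).2 h⟩

lemma SOK.aU_sw : aU i (sw tau y e) = aU i e := by
  classical
  unfold aU
  congr 1
  ext z
  simp only [mem_filter, mem_univ, true_and]
  constructor
  · rintro ⟨hz, h⟩
    exact ⟨hz, (hy.FU_sw H h1 hz).1 h⟩
  · rintro ⟨hz, h⟩
    exact ⟨hz, (hy.FU_sw H h1 hz).2 h⟩

lemma SOK.pL_sw : pL i e = pL i (sw tau y e) + 1 := by
  classical
  have hl := hy.ly
  unfold pL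
  have h2 : univ.filter (fun z : P => i < lev z ∧ ¬ FD e z ∧ ¬ GU e z) =
      insert y (univ.filter (fun z : P => i < lev z ∧ ¬ FD (sw tau y e) z ∧
        ¬ GU (sw tau y e) z)) := by
    ext z
    simp only [mem_filter, mem_univ, true_and, mem_insert]
    by_cases hz : z = y
    · subst hz
      simp only [true_or, iff_true]
      exact ⟨by omega, hy.not_FD_y h1, hy.not_GU_y h1⟩
    · simp only [hz, false_or]
      constructor
      · rintro ⟨h4, h5, h6⟩
        refine ⟨h4, ?_, ?_⟩
        · rwa [hy.FD_sw H h1 h4]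
        · rwa [hy.GU_sw H h1 h4 hz]
      · rintro ⟨h4, h5, h6⟩
        rw [hy.FD_sw H h1 h4] at h5
        rw [hy.GU_sw H h1 h4 hz] at h6
        exact ⟨h4, h5, h6⟩
  rw [h2, card_insert_of_notMem]
  rw [mem_filter]
  rintro ⟨-, -, -, h⟩
  exact h (hy.GU_sw_y h1)

lemma SOK.pU_sw : pU i (sw tau y e) = pU i e + 1 := by
  classical
  have hp := hy.lw
  unfold pU
  have h2 : univ.filter (fun z : P => lev z < i ∧ ¬ FU (sw tau y e) z ∧ ¬ GD (sw tau y e) z) =
      insert (tau y) (univ.filter (fun z : P => lev z < i ∧ ¬ FU e z ∧ ¬ GD e z)) := by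
    ext z
    simp only [mem_filter, mem_univ, true_and, mem_insert]
    by_cases hz : z = tau y
    · subst hz
      simp only [true_or, iff_true]
      exact ⟨by omega, hy.not_FU_psi H h1, hy.not_GD_sw_psi H h1⟩
    · simp only [hz, false_or]
      constructor
      · rintro ⟨h4, h5, h6⟩
        rw [hy.FU_sw H h1 h4] at h5
        rw [hy.GD_sw H h1 h4 hz] at h6
        exact ⟨h4, h5, h6⟩
      · rintro ⟨h4, h5, h6⟩
        refine ⟨h4, ?_, ?_⟩
        · rwa [hy.FU_sw H h1 h4]
        · rwa [hy.GD_sw H h1 h4 hz]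
  rw [h2, card_insert_of_notMem]
  rw [mem_filter]
  rintro ⟨-, -, -, h⟩
  exact h (hy.GD_psi h1)

lemma SOK.AL_sw : AL i e = AL i (sw tau y e) ∪ uc y ∧ Disjoint (AL i (sw tau y e)) (uc y) ∧
    Disjoint (uc y) (AU i e) := by
  classical
  have hl := hy.ly
  have hp := hy.lw
  have hp0 := hy.psi0 h1
  have site : ∀ v, lev v = i → sw tau y e v = e v := fun v hv =>
    hy.sw_lev (by omega) (by omega) e
  have hzf : ∀ v ∈ uc y, ¬ FD (sw tau y e) v := by
    intro v hv
    have h2 := lev_uc H hv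
    rintro ⟨z, hz, hlt⟩
    have h3 := lev_dc H (mem_dc.2 hz)
    by_cases h4 : z = y
    · subst h4
      rw [sw_y, hp0] at hlt
      omega
    · rw [sw_ne e h4 (by rintro rfl; omega),
        hy.lo' v (Or.inl hv) z (mem_dc.2 hz) h4] at hlt
      omega
  refine ⟨?_, ?_, ?_⟩
  · ext v
    rw [mem_union, NormD_mem_AL, NormD_mem_AL]
    constructor
    · rintro ⟨hv, z, hz, hlt⟩
      have h3 := lev_dc H (mem_dc.2 hz)
      by_cases h4 : z = y
      · rw [h4] at hz
        exact Or.inr (mem_uc.2 hz)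
      · left
        refine ⟨hv, z, hz, ?_⟩
        rwa [site v hv, sw_ne e h4 (by rintro rfl; omega)]
    · rintro (⟨hv, z, hz, hlt⟩ | h)
      · refine ⟨hv, z, hz, ?_⟩
        have h3 := lev_dc H (mem_dc.2 hz)
        by_cases h4 : z = y
        · subst h4
          rw [sw_y, hp0] at hlt
          omega
        · rwa [site v hv, sw_ne e h4 (by rintro rfl; omega)] at hlt
      · have h2 := lev_uc H h
        have h3 := hy.s0 v h
        exact ⟨by omega, y, mem_uc.1 h, by omega⟩
  · rw [disjoint_left]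
    intro v hv hv'
    rw [NormD_mem_AL] at hv
    exact hzf v hv' hv.2
  · rw [disjoint_left]
    intro v hv hv'
    rw [NormD_mem_AU] at hv'
    obtain ⟨-, z, hz, hlt⟩ := hv'
    by_cases h4 : z = tau y
    · rw [h4] at hlt
      omega
    · rw [hy.up' v (Or.inl hv) z (mem_uc.2 hz) h4] at hlt
      omega

lemma SOK.AU_sw : AU i (sw tau y e) = AU i e ∪ dc (tau y) ∧ Disjoint (AU i e) (dc (tau y)) ∧
    Disjoint (AL i (sw tau y e)) (dc (tau y)) := by
  classical
  have hl := hy.ly
  have hp := hy.lw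
  have hp0 := hy.psi0 h1
  have site : ∀ v, lev v = i → sw tau y e v = e v := fun v hv =>
    hy.sw_lev (by omega) (by omega) e
  have hz : ∀ v ∈ dc (tau y), ¬ FU e v := by
    intro v hv
    rintro ⟨z, hz, hlt⟩
    by_cases h4 : z = tau y
    · rw [h4] at hlt
      omega
    · rw [hy.up' v (Or.inr hv) z (mem_uc.2 hz) h4] at hlt
      omega
  refine ⟨?_, ?_, ?_⟩
  · ext v
    rw [mem_union, NormD_mem_AU, NormD_mem_AU]
    constructor
    · rintro ⟨hv, z, hz, hlt⟩
      have h3 := lev_uc H (mem_uc.2 hz)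
      rw [site v hv] at hlt
      by_cases h4 : z = tau y
      · rw [h4] at hz
        exact Or.inr (mem_dc.2 hz)
      · left
        refine ⟨hv, z, hz, ?_⟩
        rwa [sw_ne e (by rintro rfl; omega) h4] at hlt
    · rintro (⟨hv, z, hz, hlt⟩ | h)
      · refine ⟨hv, z, hz, ?_⟩
        have h3 := lev_uc H (mem_uc.2 hz)
        rw [site v hv]
        by_cases h4 : z = tau y
        · rw [h4] at hlt
          omega
        · rwa [sw_ne e (by rintro rfl; omega) h4]
      · have h2 := lev_dc H h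
        have h3 := hy.s1 v h
        refine ⟨by omega, tau y, mem_dc.1 h, ?_⟩
        rw [site v (by omega), sw_psi]
        omega
  · rw [disjoint_left]
    intro v hv hv'
    rw [NormD_mem_AU] at hv
    exact hz v hv' hv.2
  · rw [disjoint_left]
    intro v hv hv'
    rw [NormD_mem_AL] at hv
    obtain ⟨-, z, hz, hlt⟩ := hv
    have h3 := lev_dc H (mem_dc.2 hz)
    have h2 := lev_dc H hv'
    by_cases h4 : z = y
    · rw [h4, sw_y, hp0] at hlt
      omega
    · rw [sw_ne e h4 (by rintro rfl; omega),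
        hy.lo' v (Or.inr hv') z (mem_dc.2 hz) h4] at hlt
      omega

/-- THE WEIGHT of the exchange -/
theorem SOK.tC_sw (C : Finset P) : tC i C (sw tau y e) = tC i C e * xi ^ 3 := by
  classical
  obtain ⟨a1, a2, a3⟩ := hy.AL_sw H h1
  obtain ⟨b1, b2, b3⟩ := hy.AU_sw H h1
  have hd : Disjoint (AL i (sw tau y e)) (AU i (sw tau y e)) ↔ Disjoint (AL i e) (AU i e) := by
    rw [b1, a1, disjoint_union_right, disjoint_union_left]
    constructor
    · rintro ⟨h2, -⟩
      exact ⟨h2, a3⟩
    · rintro ⟨h2, -⟩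
      exact ⟨h2, b3⟩
  unfold tC
  by_cases h2 : Disjoint (AL i e) (AU i e)
  · rw [if_pos h2, if_pos (hd.2 h2)]
    have c1 : (AL i e).card = (AL i (sw tau y e)).card + 2 := by
      conv_lhs => rw [a1]
      rw [card_union_of_disjoint a2, hy.cy]
    have c2 : (AU i (sw tau y e)).card = (AU i e).card + 2 := by
      rw [b1, card_union_of_disjoint b2, hy.cx]
    have hcw : cw i (sw tau y e) = cw i e * xi ^ 1 := by
      unfold cw
      rw [hy.AdmL_sw H h1, hy.AdmU_sw H h1, hy.aL_sw H h1, hy.aU_sw H h1]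
      by_cases h3 : AdmL i e ∧ AdmU i e
      · rw [if_pos h3, if_pos h3, hy.pU_sw H h1, hy.pL_sw H h1]
        have : pL i (sw tau y e) + (pU i e + 1) = pL i (sw tau y e) + 1 + pU i e := by omega
        rw [this, ← add_assoc (aU i e), pow_add xi]
        ring
      · rw [if_neg h3, if_neg h3, zero_mul]
    rw [hcw, c2, c1]
    have h4 : (st i C).card - (AL i (sw tau y e)).card - ((AU i e).card + 2) =
        (st i C).card - ((AL i (sw tau y e)).card + 2) - (AU i e).card := by omega
    rw [h4]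
    have h5 : xx ^ 2 * xi ^ 2 = 1 := by
      rw [← mul_pow, xx_mul_xi, one_pow]
    have h6 : xi ^ 3 = xi ^ 1 * xi ^ 2 := by rw [← pow_add]
    rw [h6, pow_add xx]
    calc cw i e * xi ^ 1 *
          (xx ^ (AL i (sw tau y e)).card * dd ^ ((st i C).card -
            ((AL i (sw tau y e)).card + 2) - (AU i e).card))
        = cw i e * xi ^ 1 *
          (xx ^ (AL i (sw tau y e)).card * dd ^ ((st i C).card -
            ((AL i (sw tau y e)).card + 2) - (AU i e).card)) * 1 := by rw [mul_one]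
      _ = _ := by rw [← h5]; ring
  · rw [if_neg h2, if_neg (fun h => h2 (hd.1 h)), zero_mul]

end stat

end Pool.Agent.GaussPoset.Win.K2

end

/-! From `Pool.Agent.W_448L1_h63.LaC` -/

section

/-!
Components without a heavy join at the window j (MP_448cb3_co, case B): the commuting exchanges of
a configuration.
-/

namespace Pool.Agent.GaussPoset.Win.K2

set_option linter.unusedSectionVars false

open Finset I2

universe u

variable {P : Type u} [Fintype P] [PartialOrder P] [DecidableEq P] {r i : ℕ} {e : P → ℕ}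

variable {ι : Type*} [DecidableEq ι] {κ : P → ι} {K : Finset P} {psi tau : P → P}

open Classical in
/-- the free pairs of a configuration -/
noncomputable def StK (i : ℕ) (κ : P → ι) (K : Finset P) (tau : P → P) (e : P → ℕ) : Finset P :=
  K.filter (fun y => Pr i κ K y (tau y) ∧ SOK i tau e y)

lemma mem_StK {y : P} : y ∈ StK i κ K tau e ↔ y ∈ K ∧ Pr i κ K y (tau y) ∧ SOK i tau e y := by
  classical
  unfold StK
  rw [mem_filter]

/-- the exchanges of a configuration -/
noncomputable def Act2 (i : ℕ) (κ : P → ι) (K : Finset P) (psi tau : P → P) (e : P → ℕ) :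
    Finset P := SK i K psi e ∪ StK i κ K tau e

open Classical in
/-- the exchange at `y` -/
noncomputable def sig (K : Finset P) (psi tau : P → P) (y : P) (e : P → ℕ) : P → ℕ :=
  if y ∈ K then sw tau y e else sw psi y e

lemma sig_K {y : P} (hy : y ∈ K) : sig K psi tau y e = sw tau y e := by
  unfold sig
  rw [if_pos hy]

lemma sig_nK {y : P} (hy : y ∉ K) : sig K psi tau y e = sw psi y e := by
  unfold sig
  rw [if_neg hy]

section lab

variable (H : Gr P r) (hκ : Split (i + 1) κ)
include H hκ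

lemma SOK.lab {y x : P} (hp : Pr i κ K y (tau y)) (hy : SOK i tau e y)
    (hx : x ∈ uc y ∨ x ∈ dc (tau y)) : κ x = κ y := by
  rcases hx with h | h
  · exact (hκ (mem_uc.1 h) (by have := hy.ly; omega)).symm
  · have h1 := lev_dc H h
    have h2 := hy.lw
    rw [hκ (mem_dc.1 h) (by omega), hp.lab]

lemma SOK.lab_dc {y x z : P} (hp : Pr i κ K y (tau y)) (hy : SOK i tau e y)
    (hx : x ∈ uc y ∨ x ∈ dc (tau y)) (hz : z ∈ dc x) : κ z = κ y := by
  have h1 := (hy.sites H hx).1
  have h2 := lev_dc H hz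
  rw [hκ (mem_dc.1 hz) (by omega)]
  exact hy.lab H hκ hp hx

lemma SOK.lab_uc {y x z : P} (hp : Pr i κ K y (tau y)) (hy : SOK i tau e y)
    (hx : x ∈ uc y ∨ x ∈ dc (tau y)) (hz : z ∈ uc x) : κ z = κ y := by
  have h1 := (hy.sites H hx).1
  rw [← hκ (mem_uc.1 hz) (by omega)]
  exact hy.lab H hκ hp hx

end lab

lemma StK_ne {y y' : P} (hy : y ∈ StK i κ K tau e) (hy' : y' ∈ StK i κ K tau e) (hne : y' ≠ y) :
    κ y' ≠ κ y := by
  intro h
  obtain ⟨k1, p1, s1⟩ := mem_StK.1 hy
  obtain ⟨k2, p2, s2⟩ := mem_StK.1 hy'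
  rcases p1.only y' k2 h with h3 | h3
  · exact hne h3
  · have h4 := s1.lw
    have h5 := s2.ly
    rw [h3] at h5
    omega

/-- a free pair has no common site with a simple edge -/
lemma free_simple (hM : Mat P i K psi) {y y' : P} (hy : y ∈ StK i κ K tau e)
    (hy' : y' ∈ SK i K psi e) {x : P} (hx : x ∈ uc y ∨ x ∈ dc (tau y)) (hx' : x ∈ uc y') :
    False := by
  obtain ⟨k1, p1, s1⟩ := mem_StK.1 hy
  obtain ⟨k2, s2⟩ := mem_SK2.1 hy'
  obtain ⟨q1, q2, q3, q4⟩ := psi_low hM (mem_sdiff.1 k2).1 (mem_sdiff.1 k2).2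
  have h1 : e y' = 0 := s1.lo' x hx y' (mem_dc.2 (mem_uc.1 hx')) (by
    rintro rfl
    exact (mem_sdiff.1 k2).2 k1)
  have h2 : e (psi y') = 0 := by
    refine s1.up' x hx (psi y') ?_ ?_
    · rw [mem_uc, ← mem_dc, q2]
      exact hx'
    · intro h
      rw [h] at q4
      exact q4 p1.kK'
  rcases s2.one with h | h <;> omega

section mat

variable (hM : Mat P i K psi) (H : Gr P r)
include hM H

/-- the simple edges after the exchange of a free pair -/
lemma SK_sub_StK {y : P} (hy : y ∈ StK i κ K tau e) : SK i K psi e ⊆ SK i K psi (sw tau y e) := by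
  intro y' hy'
  obtain ⟨k1, p1, s1⟩ := mem_StK.1 hy
  obtain ⟨k2, s2⟩ := mem_SK2.1 hy'
  obtain ⟨q1, q2, q3, q4⟩ := psi_low hM (mem_sdiff.1 k2).1 (mem_sdiff.1 k2).2
  have hl' := (dL1 k2).1
  have hq := (mem_dbU'.1 q1).1
  have l1 := s1.ly
  have l2 := s1.lw
  have n1 : y' ≠ y := by
    rintro rfl
    exact (mem_sdiff.1 k2).2 k1
  have n2 : psi y' ≠ tau y := by
    intro h
    rw [h] at q4
    exact q4 p1.kK'
  have uy' : ∀ x ∈ uc y', sw tau y e x = e x := by
    intro x hx
    have := lev_uc H hx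
    exact s1.sw_lev (by omega) (by omega) e
  rw [mem_SK2]
  refine ⟨k2, ?_, ?_, ?_, ?_, ?_, ?_⟩
  · rw [sw_ne e n1 (by intro h; rw [← h] at l2; omega),
      sw_ne e (x := psi y') (by intro h; rw [← h] at l1; omega) n2]
    exact s2.one
  · intro z hz
    have := lev_dc H hz
    rw [s1.sw_lev (by omega) (by omega)]
    exact s2.lo z hz
  · intro u hu
    have := lev_uc H hu
    rw [s1.sw_lev (by omega) (by omega)]
    exact s2.up u hu
  · obtain ⟨x, hx, hx0⟩ := s2.ex
    exact ⟨x, hx, by rw [uy' x hx, hx0]⟩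
  · intro x hx hx0 z hz hzy
    rw [uy' x hx] at hx0
    have h1 := lev_dc H hz
    have h2 := lev_uc H hx
    have hz0 := s2.lo' x hx hx0 z hz hzy
    have h3 : z ≠ y := by
      rintro rfl
      exact free_simple hM hy hy' (Or.inl (mem_uc.2 (mem_dc.1 hz))) hx
    rw [sw_ne e h3 (by rintro rfl; omega), hz0]
  · intro x hx hx0 u hu huy
    rw [uy' x hx] at hx0
    have h1 := lev_uc H hu
    have h2 := lev_uc H hx
    have hu0 := s2.up' x hx hx0 u hu huy
    have h3 : u ≠ tau y := by
      rintro rfl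
      exact free_simple hM hy hy' (Or.inr (mem_dc.2 (mem_uc.1 hu))) hx
    rw [sw_ne e (by rintro rfl; omega) h3, hu0]

/-- the free pairs after the swap at a simple edge -/
lemma StK_sub_SK {y : P} (hy : y ∈ SK i K psi e) : StK i κ K tau e ⊆ StK i κ K tau (sw psi y e) := by
  intro y' hy'
  obtain ⟨k1, s1⟩ := mem_SK2.1 hy
  obtain ⟨k2, p2, s2⟩ := mem_StK.1 hy'
  obtain ⟨q1, q2, q3, q4⟩ := psi_low hM (mem_sdiff.1 k1).1 (mem_sdiff.1 k1).2
  have hl' := (dL1 k1).1
  have hq := (mem_dbU'.1 q1).1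
  have l1 := s2.ly
  have l2 := s2.lw
  have n1 : y' ≠ y := by
    rintro rfl
    exact (mem_sdiff.1 k1).2 k2
  have n2 : tau y' ≠ psi y := by
    intro h
    rw [← h] at q4
    exact q4 p2.kK'
  have far : ∀ x, lev x ≠ i + 1 → lev x + 1 ≠ i → sw psi y e x = e x := fun x h1 h2 =>
    sw_lev hM k1 h1 h2 e
  rw [mem_StK]
  refine ⟨k2, p2, s2.ly, s2.lw, s2.cy, s2.cx, ?_, ?_, ?_, ?_, ?_, ?_, ?_⟩
  · rw [sw_ne e n1 (by rintro rfl; omega),
      sw_ne e (x := tau y') (by intro h; rw [h] at l2; omega) n2]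
    exact s2.one
  · intro z hz
    have := lev_dc H hz
    rw [far z (by omega) (by omega)]
    exact s2.lo z hz
  · intro z hz
    have := lev_uc H hz
    rw [far z (by omega) (by omega)]
    exact s2.up z hz
  · intro z hz
    have := lev_uc H hz
    rw [far z (by omega) (by omega)]
    exact s2.s0 z hz
  · intro z hz
    have := lev_dc H hz
    rw [far z (by omega) (by omega)]
    exact s2.s1 z hz
  · intro x hx z hz hne
    have h1 := (s2.sites H hx).1
    have h2 := lev_dc H hz
    have h3 : z ≠ y := by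
      rintro rfl
      exact free_simple hM hy' hy hx (mem_uc.2 (mem_dc.1 hz))
    rw [sw_ne e h3 (by rintro rfl; omega)]
    exact s2.lo' x hx z hz hne
  · intro x hx z hz hne
    have h1 := (s2.sites H hx).1
    have h2 := lev_uc H hz
    have h3 : z ≠ psi y := by
      rintro rfl
      refine free_simple hM hy' hy hx ?_
      rw [← q2, mem_dc, ← mem_uc]
      exact hz
    rw [sw_ne e (by rintro rfl; omega) h3]
    exact s2.up' x hx z hz hne

omit hM in
/-- the free pairs after the exchange of a free pair -/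
lemma StK_sub_StK (hκ : Split (i + 1) κ) {y : P} (hy : y ∈ StK i κ K tau e) :
    StK i κ K tau e ⊆ StK i κ K tau (sw tau y e) := by
  intro y' hy'
  obtain ⟨k1, p1, s1⟩ := mem_StK.1 hy
  obtain ⟨k2, p2, s2⟩ := mem_StK.1 hy'
  rw [mem_StK]
  refine ⟨k2, p2, ?_⟩
  by_cases hne : y' = y
  · subst hne
    exact s1.self H
  have hk := StK_ne hy hy' hne
  have l1 := s1.ly
  have l2 := s1.lw
  have l1' := s2.ly
  have l2' := s2.lw
  have far : ∀ x, lev x ≠ i + 1 → lev x + 1 ≠ i → sw tau y e x = e x := fun x h1 h2 =>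
    s1.sw_lev h1 h2 e
  have oth : ∀ x, κ x ≠ κ y → sw tau y e x = e x := by
    intro x hx
    refine sw_ne e (by rintro rfl; exact hx rfl) ?_
    rintro rfl
    exact hx p1.lab.symm
  refine ⟨s2.ly, s2.lw, s2.cy, s2.cx, ?_, ?_, ?_, ?_, ?_, ?_, ?_⟩
  · rw [oth y' hk, oth (tau y') (by rw [← p2.lab]; exact hk)]
    exact s2.one
  · intro z hz
    have := lev_dc H hz
    rw [far z (by omega) (by omega)]
    exact s2.lo z hz
  · intro z hz
    have := lev_uc H hz
    rw [far z (by omega) (by omega)]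
    exact s2.up z hz
  · intro z hz
    have := lev_uc H hz
    rw [far z (by omega) (by omega)]
    exact s2.s0 z hz
  · intro z hz
    have := lev_dc H hz
    rw [far z (by omega) (by omega)]
    exact s2.s1 z hz
  · intro x hx z hz hzn
    rw [oth z (by rw [s2.lab_dc H hκ p2 hx hz]; exact hk)]
    exact s2.lo' x hx z hz hzn
  · intro x hx z hz hzn
    rw [oth z (by rw [s2.lab_uc H hκ p2 hx hz]; exact hk)]
    exact s2.up' x hx z hz hzn

/-- an exchange does not change the set of the exchanges -/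
theorem Act2_sig (hκ : Split (i + 1) κ) {y : P} (hy : y ∈ Act2 i κ K psi tau e) :
    Act2 i κ K psi tau (sig K psi tau y e) = Act2 i κ K psi tau e := by
  unfold Act2 at hy ⊢
  rcases mem_union.1 hy with h | h
  · have hK : y ∉ K := (mem_SK.1 h).2.1
    rw [sig_nK hK, SK_sw hM H h]
    congr 1
    apply Finset.Subset.antisymm _ (StK_sub_SK hM H h)
    have h2 := StK_sub_SK (κ := κ) (tau := tau) hM H (e := sw psi y e) (y := y)
      (by rw [SK_sw hM H h]; exact h)
    rwa [sw_sw] at h2
  · have hK : y ∈ K := (mem_StK.1 h).1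
    rw [sig_K hK]
    have h3 := StK_sub_StK H hκ h
    congr 1
    · apply Finset.Subset.antisymm _ (SK_sub_StK hM H h)
      have h2 := SK_sub_StK hM H (h3 h)
      rwa [sw_sw] at h2
    · apply Finset.Subset.antisymm _ h3
      have h2 := StK_sub_StK H hκ (h3 h)
      rwa [sw_sw] at h2

end mat

end Pool.Agent.GaussPoset.Win.K2

end

/-! From `Pool.Agent.W_448L1_h63.LaD` -/

section

/-!
Components without a heavy join at the window j (MP_448cb3_co, case B): divisibility of the sum
over the configurations of a series by the commuting exchanges.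
-/

namespace Pool.Agent.GaussPoset.Win.K2

set_option linter.unusedSectionVars false

open Finset I2

universe u

variable {P : Type u} [Fintype P] [PartialOrder P] [DecidableEq P] {r i : ℕ} {e : P → ℕ}

variable {ι : Type*} [DecidableEq ι] {κ : P → ι} {K : Finset P} {psi tau : P → P}

lemma Act2_lev {y : P} (hy : y ∈ Act2 i κ K psi tau e) : lev y = i + 1 := by
  unfold Act2 at hy
  rcases mem_union.1 hy with h | h
  · exact (dL1 (mem_SK2.1 h).1).1
  · exact (mem_StK.1 h).2.2.ly

section mat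

variable (hM : Mat P i K psi) (H : Gr P r) (hκ : Split (i + 1) κ)
include hM

/-- an exchange changes two near elements only -/
lemma sig_ne {y : P} (hy : y ∈ Act2 i κ K psi tau e) {x : P} (hx : x ≠ y) (hl : lev x + 1 ≠ i)
    (f : P → ℕ) : sig K psi tau y f x = f x := by
  unfold Act2 at hy
  rcases mem_union.1 hy with h | h
  · rw [sig_nK (mem_SK.1 h).2.1]
    have hp := (mem_dbU'.1 (psi_lowK hM (mem_SK2.1 h).1).1).1
    exact sw_ne f hx (by rintro rfl; exact hl hp)
  · rw [sig_K (mem_StK.1 h).1]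
    have hp := (mem_StK.1 h).2.2.lw
    exact sw_ne f hx (by rintro rfl; exact hl hp)

omit hM in
lemma sig_sig (y : P) (f : P → ℕ) : sig K psi tau y (sig K psi tau y f) = f := by
  by_cases h : y ∈ K
  · rw [sig_K h, sig_K h, sw_sw]
  · rw [sig_nK h, sig_nK h, sw_sw]

omit hM in
lemma sum_sig (y : P) (f : P → ℕ) : ∑ x, sig K psi tau y f x = ∑ x, f x := by
  by_cases h : y ∈ K
  · rw [sig_K h, sum_sw]
  · rw [sig_nK h, sum_sw]

lemma sig_own {y : P} (hy : y ∈ Act2 i κ K psi tau e) :
    sig K psi tau y e y = 1 ↔ ¬ e y = 1 := by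
  unfold Act2 at hy
  rcases mem_union.1 hy with h | h
  · rw [sig_nK (mem_SK.1 h).2.1, sw_y]
    rcases (mem_SK2.1 h).2.one with h1 | h1 <;> omega
  · rw [sig_K (mem_StK.1 h).1, sw_y]
    rcases (mem_StK.1 h).2.2.one with h1 | h1 <;> omega

lemma mm_sig (H : Gr P r) {y : P} (hy : y ∈ Act2 i κ K psi tau e) {y' : P}
    (hy' : lev y' = i + 1) : mm (sig K psi tau y e) y' = mm e y' := by
  have h2 : z0 (sig K psi tau y e) y' = z0 e y' := by
    unfold z0
    refine filter_congr fun x hx => ?_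
    have h3 := lev_uc H hx
    have h4 := Act2_lev hy
    rw [sig_ne hM hy (by rintro rfl; omega) (by omega)]
  unfold mm
  rw [h2]

include H hκ

lemma sig_far {y : P} (hy : y ∈ Act2 i κ K psi tau e) {z : P} (hz : z ∉ cuni (i + 1) κ) :
    sig K psi tau y e z = e z := by
  have h4 := (two_up H hκ hz).1
  have h5 := Act2_lev hy
  exact sig_ne hM hy (by rintro rfl; omega) (by omega) e

lemma spt_sig {T : Finset ι} (hs : Spt (eT (i + 1) κ T) e) {y : P}
    (hy : y ∈ Act2 i κ K psi tau e) : Spt (eT (i + 1) κ T) (sig K psi tau y e) := by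
  unfold Act2 at hy
  rcases mem_union.1 hy with h | h
  · rw [sig_nK (mem_SK.1 h).2.1]
    exact spt_sw hM H (part_eT H le_rfl hκ T) hs h
  · rw [sig_K (mem_StK.1 h).1]
    obtain ⟨k1, p1, s1⟩ := mem_StK.1 h
    have l1 := s1.ly
    have l2 := s1.lw
    have hyT : κ y ∈ T := by
      rcases s1.one with h | h
      · have h4 : y ∈ eT (i + 1) κ T := by
          by_contra h5
          have := hs y h5
          omega
        exact mem_eT.1 h4 y le_rfl (by omega)
      · have h4 : tau y ∈ eT (i + 1) κ T := by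
          by_contra h5
          have := hs _ h5
          omega
        rw [p1.lab]
        exact mem_eT.1 h4 _ le_rfl (by omega)
    have m1 : y ∈ eT (i + 1) κ T := mem_eT_of_le hκ (by omega) hyT
    have m2 : tau y ∈ eT (i + 1) κ T := mem_eT_of_le hκ (by omega) (by rw [← p1.lab]; exact hyT)
    intro z hz
    rw [sw_ne e (by rintro rfl; exact hz m1) (by rintro rfl; exact hz m2)]
    exact hs z hz

open Classical in
/-- divisibility of the coefficients from a bound for every configuration -/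
theorem XT_dvd2 {T : Finset ι} {Q : (P → ℕ) → Prop}
    (hQ : ∀ e f : P → ℕ, (∀ z, z ∉ cuni (i + 1) κ → e z = f z) → (Q e ↔ Q f)) {n m : ℕ}
    (hb : ∀ e : P → ℕ, ∑ x, e x = n → Spt (eT (i + 1) κ T) e → Tch (i + 1) κ e = T → Q e →
      AdmL i e → AdmU i e → Disjoint (AL i e) (AU i e) →
      (AL i e).card + (AU i e).card ≤
        m + (pL i e + pU i e) + (Act2 i κ K psi tau e).card) :
    dd ^ ((st i (eT (i + 1) κ T)).card - m) ∣ PowerSeries.coeff n (XT i κ T Q) := by
  unfold XT
  rw [coeff_ZQ]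
  obtain ⟨Om, hOm⟩ : ∃ Om : Finset (P → ℕ), Om = ((eT (i + 1) κ T).piAntidiag n).filter
    (fun e => Tch (i + 1) κ e = T ∧ Q e) := ⟨_, rfl⟩
  have hm : ∀ e : P → ℕ, e ∈ Om ↔
      (∑ x, e x = n ∧ Spt (eT (i + 1) κ T) e) ∧ Tch (i + 1) κ e = T ∧ Q e := by
    intro e
    rw [hOm, mem_filter, mem_pa']
  have I : Ivl Om (fun e => Act2 i κ K psi tau e) (sig K psi tau) (fun y e => e y = 1)
      (fun e => tC i (eT (i + 1) κ T) e)
      (fun y e => if y ∈ K then xi ^ 3 else xi ^ mm e y) dd := by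
    refine ⟨?_, ?_, ?_, ?_, ?_, ?_, ?_, ?_⟩
    · intro e he y hy
      rw [hm] at he ⊢
      obtain ⟨⟨h1, h2⟩, h3, h4⟩ := he
      have h5 : ∀ z, z ∉ cuni (i + 1) κ → sig K psi tau y e z = e z := fun z hz =>
        sig_far hM H hκ hy hz
      refine ⟨⟨by rw [sum_sig]; exact h1, spt_sig hM H hκ h2 hy⟩, ?_, ?_⟩
      · rw [Tch_congr h5]
        exact h3
      · exact (hQ _ _ h5).2 h4
    · intro e _ y hy
      exact Act2_sig hM H hκ hy
    · intro e _ y _
      exact sig_sig y e
    · intro e _ y hy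
      exact sig_own hM hy
    · intro e _ y hy y' hy' hne
      have := Act2_lev hy'
      rw [sig_ne hM hy hne (by omega)]
    · intro e _ y hy h1
      unfold Act2 at hy
      rcases mem_union.1 hy with h | h
      · rw [sig_nK (mem_SK.1 h).2.1, if_neg (mem_SK.1 h).2.1]
        exact tC_sw hM H h h1 _
      · rw [sig_K (mem_StK.1 h).1, if_pos (mem_StK.1 h).1]
        exact (mem_StK.1 h).2.2.tC_sw H h1 _
    · intro e _ y hy y' hy' _
      split_ifs with h
      · rfl
      · rw [mm_sig hM H hy (Act2_lev hy')]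
    · intro e _ y hy
      split_ifs with h
      · exact dd_dvd_odd (Or.inr rfl)
      · unfold Act2 at hy
        rcases mem_union.1 hy with h' | h'
        · exact dd_dvd_odd (mm_cases hM h')
        · exact absurd (mem_StK.1 h').1 h
  have h := I.dvd (N := (st i (eT (i + 1) κ T)).card - m) (by
    intro e he
    rw [hm] at he
    obtain ⟨⟨h1, h2⟩, h3, h4⟩ := he
    exact tC_dvd fun hL hU hd => hb e h1 h2 h3 h4 hL hU hd)
  rw [hOm] at h
  convert h

end mat

end Pool.Agent.GaussPoset.Win.K2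

end

/-! From `Pool.Agent.W_448L1_h63.LaF` -/

section

/-!
Components without a heavy join at the window j (MP_448cb3_co, case B): an extremal configuration
has a free pair at a light join.
-/

namespace Pool.Agent.GaussPoset.Win.K2

set_option linter.unusedSectionVars false

open Finset I2

universe u

variable {P : Type u} [Fintype P] [PartialOrder P] [DecidableEq P] {r i : ℕ} {e : P → ℕ}

variable {ι : Type*} [DecidableEq ι] {κ : P → ι} {K : Finset P} {psi tau : P → P}

variable {T : Finset ι}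

section fin

variable (H : Gr P r) (hir : i ≤ r) (hq : NoQ P (i + 2)) (hg : ∀ m, m + 1 = i → Good P m)
include H hir hq hg

lemma KB_bN {k : P} (hk : k ∈ KB i K e) : k ∈ K ∧ k ∈ bN i e := by
  rw [mem_KB] at hk
  refine ⟨hk.1, ?_⟩
  unfold bN
  rcases hk.2 with h | h
  · exact mem_union_left _ h.1
  · exact mem_union_right _ h.1

lemma EqC.low (E : EqC i κ K psi T e) {k : P} (hl : lev k = i + 1) (hc : (uc k).card = 2)
    (h0 : 1 ≤ e k) : k ∈ bL i e := by
  have h1 : k ∉ DxD i e := by
    rw [mem_DxD]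
    rintro ⟨-, h⟩
    unfold Dp at h
    rcases h with h | h <;> omega
  have h2 := E.bad k h1 h0
  unfold bN at h2
  rcases mem_union.1 h2 with h | h
  · exact h
  · have := (bU_data H hir hq hg h).1
    omega

lemma EqC.upp (E : EqC i κ K psi T e) {k : P} (hl : lev k + 1 = i) (h0 : 1 ≤ e k) :
    k ∈ bU i e := by
  have h1 : k ∉ DxD i e := by
    rw [mem_DxD]
    rintro ⟨-, h⟩
    unfold Dp at h
    rcases h with h | h <;> omega
  have h2 := E.bad k h1 h0
  unfold bN at h2
  rcases mem_union.1 h2 with h | h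
  · have := (bL_data H hir hq hg h).1
    omega
  · exact h

lemma EqC.far (E : EqC i κ K psi T e) {u : P} (hl : lev u + 2 ≤ i) : e u = 0 := by
  by_contra hne
  have h1 : u ∉ DxD i e := by
    rw [mem_DxD]
    rintro ⟨-, h⟩
    unfold Dp at h
    rcases h with h | h <;> omega
  have := bN_lev H hir hq hg (E.bad u h1 (by omega))
  omega

variable (hκ : Split (i + 1) κ) (hM : Mat P i K psi)
include hκ hM

/-- the labels of a free pair can be exchanged -/
lemma EqC.sok (E : EqC i κ K psi T e) (hL : AdmL i e) (hd : Disjoint (AL i e) (AU i e)) {k : P}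
    (p : Pr i κ K k (tau k)) (haT : κ k ∈ T) (hlo : ∀ z ∈ dc k, e z = 0)
    (hno : ∀ x, (x ∈ uc k ∨ x ∈ dc (tau k)) → ∀ z ∈ dc x, z ≠ k → e z = 0) :
    SOK i tau e k := by
  classical
  have hk := mem_dbL'.1 p.hk
  have hk' := mem_dbU'.1 p.hk'
  have hup : ∀ u ∈ uc (tau k), e u = 0 := by
    intro u hu
    have := lev_uc H hu
    exact E.far H hir hq hg (by omega)
  have hsx : ∀ x, (x ∈ uc k ∨ x ∈ dc (tau k)) → lev x = i ∧ κ x = κ k := by
    intro x hx
    rcases hx with h | h
    · have := lev_uc H h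
      exact ⟨by omega, (hκ (mem_uc.1 h) (by omega)).symm⟩
    · have := lev_dc H h
      exact ⟨by omega, by rw [hκ (mem_dc.1 h) (by omega), p.lab]⟩
  have m1 : 1 ≤ e k → k ∈ KB i K e := by
    intro h
    exact mem_KB.2 ⟨p.kK, Or.inl ⟨E.low H hir hq hg hk.1 hk.2 h, hlo⟩⟩
  have m2 : 1 ≤ e (tau k) → tau k ∈ KB i K e := by
    intro h
    exact mem_KB.2 ⟨p.kK', Or.inr ⟨E.upp H hir hq hg hk'.1 h, hup⟩⟩
  obtain ⟨ka, hka⟩ := Finset.card_eq_one.1 (E.kb (κ k) haT)
  have hka' : ka ∈ KB i K e ∧ κ ka = κ k := by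
    have : ka ∈ (KB i K e).filter (fun x => κ x = κ k) := by
      rw [hka]
      exact mem_singleton_self _
    exact mem_filter.1 this
  have hkb := KB_bN H hir hq hg hka'.1
  have he1 := (bN_data H hir hq hg hkb.2).2.1
  have hun : ∀ x ∈ KB i K e, κ x = κ k → x = ka := by
    intro x hx hxk
    have : x ∈ (KB i K e).filter (fun x => κ x = κ k) := mem_filter.2 ⟨hx, hxk⟩
    rw [hka] at this
    exact mem_singleton.1 this
  have hone : (e k = 1 ∧ e (tau k) = 0) ∨ (e k = 0 ∧ e (tau k) = 1) := by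
    rcases p.only ka hkb.1 hka'.2 with h | h
    · left
      rw [h] at he1
      refine ⟨he1, ?_⟩
      by_contra hne
      have h2 := hun _ (m2 (by omega)) p.lab.symm
      rw [h] at h2
      rw [h2] at hk'
      omega
    · right
      rw [h] at he1
      refine ⟨?_, he1⟩
      by_contra hne
      have h2 := hun _ (m1 (by omega)) rfl
      rw [h] at h2
      rw [← h2] at hk'
      omega
  refine ⟨hk.1, hk'.1, hk.2, hk'.2, hone, hlo, hup, ?_, ?_, hno, ?_⟩
  · intro x hx
    exact E.site x (hsx x (Or.inl hx)).1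
  · intro x hx
    exact E.site x (hsx x (Or.inr hx)).1
  · intro x hx u hu hne
    by_contra h0
    have hxl := hsx x hx
    have hul := lev_uc H hu
    have hbu := E.upp H hir hq hg (by omega) (show 1 ≤ e u by omega)
    have hku : κ u = κ k := by
      rw [← hκ (mem_uc.1 hu) (by omega)]
      exact hxl.2
    by_cases hK : u ∈ K
    · rcases p.only u hK hku with h | h
      · rw [h] at hul
        omega
      · exact hne h
    · have h1 := (up_simple hM H hir hg hL hd hbu hK (by
        intro z hz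
        have := lev_uc H hz
        exact E.far H hir hq hg (by omega))).2.1
      rw [E.sk] at h1
      exact notMem_empty _ h1

/-- the free pair on the side of the double element -/
lemma EqC.side_y (E : EqC i κ K psi T e) (hL : AdmL i e) (hU : AdmU i e)
    (hd : Disjoint (AL i e) (AU i e)) {z0 y v : P} (S : SD i κ z0 y v) (he0 : 1 ≤ e z0)
    (haT : κ y ∈ T) (hsg : ∀ v, lev v = i + 1 → (uc v).card = 1 → κ v = κ y → e v = 0) {k : P}
    (p : Pr i κ K k (tau k)) (hka : κ k = κ y) (hf : Disjoint (ns i k) (uc y))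
    (hf' : Disjoint (ns i (tau k)) (uc y)) : SOK i tau e k := by
  classical
  have hk := mem_dbL'.1 p.hk
  have hk' := mem_dbU'.1 p.hk'
  have hly := S.ly H
  have hlz := S.lz
  have hns : ns i k = uc k := by unfold ns; rw [if_pos hk.1]
  have hns' : ns i (tau k) = dc (tau k) := by unfold ns; rw [if_neg (by omega)]
  rw [hns] at hf
  rw [hns'] at hf'
  have hR0 : Rtd i κ e (κ y) z0 := Or.inr ⟨hlz, he0, ⟨y, S.my, hly, rfl⟩, hsg⟩
  -- excited elements of level i + 2 under the label are z0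
  have key : ∀ w z : P, lev w = i + 2 → 1 ≤ e w → z ∈ uc w → κ z = κ y → z = y := by
    intro w z hw he hz hzk
    have hlz' := lev_uc H hz
    have hR : Rtd i κ e (κ y) w := Or.inr ⟨hw, he, ⟨z, hz, by omega, hzk⟩, hsg⟩
    have h1 := E.uniq (κ y) haT w z0 hR hR0
    rw [h1, S.huc, mem_insert, mem_singleton] at hz
    rcases hz with h | h
    · exact h
    · rw [h] at hzk
      exact absurd hzk.symm S.hk
  refine E.sok H hir hq hg hκ hM hL hd p (by rw [hka]; exact haT) ?_ ?_
  · intro z hz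
    by_contra hne
    have hl := lev_dc H hz
    have h1 := key z k (by omega) (by omega) (mem_uc.2 (mem_dc.1 hz)) hka
    rw [h1, disjoint_self, Finset.bot_eq_empty] at hf
    have := S.cy
    rw [hf, card_empty] at this
    omega
  · intro x hx z hz hne
    by_contra h0
    have hxl : lev x = i ∧ κ x = κ y := by
      rcases hx with h | h
      · have := lev_uc H h
        exact ⟨by omega, by rw [← hκ (mem_uc.1 h) (by omega), hka]⟩
      · have := lev_dc H h
        exact ⟨by omega, by rw [hκ (mem_dc.1 h) (by omega), ← p.lab, hka]⟩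
    have hzl := lev_dc H hz
    have hzk : κ z = κ y := by
      rw [hκ (mem_dc.1 hz) (by omega)]
      exact hxl.2
    have hxy : x ∉ uc y := by
      intro h
      rcases hx with h' | h'
      · exact disjoint_left.1 hf h' h
      · exact disjoint_left.1 hf' h' h
    have hc : (uc z).card = 2 := by
      have h1 := uc_card_le H z
      have h2 : 0 < (uc z).card := card_pos.2 (uc_nonempty H (by omega))
      by_contra h3
      have := hsg z (by omega) (by omega) hzk
      omega
    have hb := E.low H hir hq hg (by omega) hc (show 1 ≤ e z by omega)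
    by_cases hK : z ∈ K
    · rcases p.only z hK (by rw [hzk, hka]) with h | h
      · exact hne h
      · rw [h] at hzl
        omega
    · have hw : ¬ ∀ w ∈ dc z, e w = 0 := by
        intro hw
        have h1 := (low_simple hM H hq hU hd hb hK hw).1
        rw [E.sk] at h1
        exact notMem_empty _ h1
      push Not at hw
      obtain ⟨w, hw, hw0⟩ := hw
      have hwl := lev_dc H hw
      have h1 := key w z (by omega) (by omega) (mem_uc.2 (mem_dc.1 hw)) hzk
      rw [h1] at hz
      exact hxy (mem_uc.2 (mem_dc.1 hz))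

/-- the free pair on the side of the single element -/
lemma EqC.side_v (E : EqC i κ K psi T e) (hL : AdmL i e) (hU : AdmU i e)
    (hd : Disjoint (AL i e) (AU i e)) {v : P} (hv : lev v = i + 1) (hcv : (uc v).card = 1)
    (hev : 1 ≤ e v) (haT : κ v ∈ T) {k : P}
    (p : Pr i κ K k (tau k)) (hka : κ k = κ v) (hf : Disjoint (ns i k) (uc v))
    (hf' : Disjoint (ns i (tau k)) (uc v)) : SOK i tau e k := by
  classical
  have hk := mem_dbL'.1 p.hk
  have hk' := mem_dbU'.1 p.hk'
  have hns : ns i k = uc k := by unfold ns; rw [if_pos hk.1]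
  have hns' : ns i (tau k) = dc (tau k) := by unfold ns; rw [if_neg (by omega)]
  rw [hns] at hf
  rw [hns'] at hf'
  have hR0 : Rtd i κ e (κ v) v := Or.inl ⟨hv, hcv, rfl, hev⟩
  -- no excited element of level i + 2 under a double element of the label
  have key : ∀ w z : P, lev w = i + 2 → 1 ≤ e w → z ∈ uc w → κ z = κ v → (uc z).card = 2 →
      False := by
    intro w z hw he hz hzk hzc
    have hlz' := lev_uc H hz
    have hwD : w ∈ DxD i e := mem_DxD.2 ⟨he, Or.inl (by omega)⟩
    obtain ⟨c, hc, hR⟩ := E.rel w hwD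
    rcases hR with ⟨h1, -, -, -⟩ | ⟨h1, h2, ⟨q, h3, h4, h5⟩, h6⟩
    · omega
    · have hcv' : c ≠ κ v := by
        intro h
        have := h6 v hv hcv h.symm
        omega
      have hkk : κ z ≠ κ q := by
        rw [hzk, h5]
        exact fun h => hcv' h.symm
      have huc := uc_pair H hz h3 (fun h => hkk (by rw [h]))
      have e1 := exc_le H hL he (mem_uc.1 h3).le (by omega)
      rcases one_single H hκ hq h1 huc hkk with h | h | h
      · have := h6 q h4 h.2 h5
        omega
      · omega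
      · omega
  refine E.sok H hir hq hg hκ hM hL hd p (by rw [hka]; exact haT) ?_ ?_
  · intro z hz
    by_contra hne
    have hl := lev_dc H hz
    exact key z k (by omega) (by omega) (mem_uc.2 (mem_dc.1 hz)) hka hk.2
  · intro x hx z hz hne
    by_contra h0
    have hxl : lev x = i ∧ κ x = κ v := by
      rcases hx with h | h
      · have := lev_uc H h
        exact ⟨by omega, by rw [← hκ (mem_uc.1 h) (by omega), hka]⟩
      · have := lev_dc H h
        exact ⟨by omega, by rw [hκ (mem_dc.1 h) (by omega), ← p.lab, hka]⟩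
    have hzl := lev_dc H hz
    have hzk : κ z = κ v := by
      rw [hκ (mem_dc.1 hz) (by omega)]
      exact hxl.2
    have hxv : x ∉ uc v := by
      intro h
      rcases hx with h' | h'
      · exact disjoint_left.1 hf h' h
      · exact disjoint_left.1 hf' h' h
    have h1 := uc_card_le H z
    have h2 : 0 < (uc z).card := card_pos.2 (uc_nonempty H (by omega))
    rcases Nat.lt_or_ge (uc z).card 2 with hc | hc
    · have hR : Rtd i κ e (κ v) z := Or.inl ⟨by omega, by omega, hzk, by omega⟩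
      have h3 := E.uniq (κ v) haT z v hR hR0
      rw [h3] at hz
      exact hxv (mem_uc.2 (mem_dc.1 hz))
    · have hb := E.low H hir hq hg (by omega) (by omega) (show 1 ≤ e z by omega)
      by_cases hK : z ∈ K
      · rcases p.only z hK (by rw [hzk, hka]) with h | h
        · exact hne h
        · rw [h] at hzl
          omega
      · have hw : ¬ ∀ w ∈ dc z, e w = 0 := by
          intro hw
          have h1 := (low_simple hM H hq hU hd hb hK hw).1
          rw [E.sk] at h1
          exact notMem_empty _ h1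
        push Not at hw
        obtain ⟨w, hw, hw0⟩ := hw
        have hwl := lev_dc H hw
        exact key w z (by omega) (by omega) (mem_uc.2 (mem_dc.1 hw)) hzk (by omega)

end fin

end Pool.Agent.GaussPoset.Win.K2

end

/-! From `Pool.Agent.W_448L1_h63.LaG` -/

section

/-!
Components without a heavy join at the window j (MP_448cb3_co, case B): the strict inequality for
the configurations across the light joins.
-/

namespace Pool.Agent.GaussPoset.Win.K2

set_option linter.unusedSectionVars false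

open Finset I2

universe u

variable {P : Type u} [Fintype P] [PartialOrder P] [DecidableEq P] {r i : ℕ} {e : P → ℕ}

variable {ι : Type*} [DecidableEq ι] {κ : P → ι} {K : Finset P} {psi tau : P → P}

variable {T T0 T1 : Finset ι}

/-- the joins between the labels in `T0` and the other labels are light -/
def Lt (i : ℕ) (κ : P → ι) (K : Finset P) (T0 : Finset ι) : Prop :=
  ∀ z y v, SD i κ z y v → ¬ (κ y ∈ T0 ↔ κ v ∈ T0) →
    Fr i κ K (κ y) (uc y) ∨ Fr i κ K (κ v) (uc v)

/-- the partner in a pair -/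
lemma Pr.uniq {k k' k'' : P} (h : Pr i κ K k k') (h' : Pr i κ K k k'') : k' = k'' := by
  rcases h.only k'' h'.kK' h'.lab.symm with h1 | h1
  · have h2 := mem_dbL'.1 h.hk
    have h3 := mem_dbU'.1 h'.hk'
    rw [h1] at h3
    omega
  · exact h1.symm

/-- the map of the partners -/
lemma exists_tau (i : ℕ) (κ : P → ι) (K : Finset P) :
    ∃ tau : P → P, ∀ k k', Pr i κ K k k' → tau k = k' := by
  classical
  refine ⟨fun k => if h : ∃ k', Pr i κ K k k' then h.choose else k, ?_⟩
  intro k k' h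
  have h1 : ∃ k', Pr i κ K k k' := ⟨k', h⟩
  simp only
  rw [dif_pos h1]
  exact h1.choose_spec.uniq h

section fin

variable (H : Gr P r) (hir : i ≤ r) (hq : NoQ P (i + 2)) (hg : ∀ m, m + 1 = i → Good P m)
include H hir hq hg

lemma EqC.free_y (E : EqC i κ K psi T e) (hd : Disjoint (AL i e) (AU i e)) {z0 y ka : P}
    (hz : z0 ∈ dc y) (he0 : 1 ≤ e z0) (hly : lev y = i + 1) (hcy : (uc y).card = 2)
    (hey : 1 ≤ e y) (hka : ka ∈ KB i K e) : Disjoint (ns i ka) (uc y) := by
  have hyb := E.low H hir hq hg hly hcy hey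
  have hne : ka ≠ y := by
    rintro rfl
    rw [mem_KB] at hka
    rcases hka.2 with ⟨-, h⟩ | ⟨h, -⟩
    · have := h z0 hz
      omega
    · have := (bU_data H hir hq hg h).1
      omega
  have hny : ns i y = uc y := by unfold ns; rw [if_pos hly]
  have hyN : y ∈ bN i e := mem_union_left _ hyb
  rw [disjoint_left]
  intro q hq1 hq2
  have hl := lev_uc H hq2
  exact bad_disj H hir hq hg hd (KB_bN H hir hq hg hka).2 hyN hne hq1 (by rw [hny]; exact hq2)
    (E.site q (by omega))

lemma EqC.free_v (E : EqC i κ K psi T e) (hd : Disjoint (AL i e) (AU i e)) {v ka : P}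
    (hlv : lev v = i + 1) (hcv : (uc v).card = 1) (hev : 1 ≤ e v) (hka : ka ∈ KB i K e) :
    Disjoint (ns i ka) (uc v) := by
  rw [disjoint_left]
  intro q hq1 hq2
  have hl := lev_uc H hq2
  have hq0 := E.site q (by omega)
  have hb := (KB_bN H hir hq hg hka).2
  unfold bN at hb
  rcases mem_union.1 hb with h | h
  · obtain ⟨k1, k2, k3, k4, -, k6⟩ := bL_data H hir hq hg h
    have h1 := k6 q hq1 hq0
    have h2 : v ∈ kr dc e q := mem_kr.2 ⟨mem_dc.2 (mem_uc.1 hq2), by omega⟩
    rw [h1, mem_singleton] at h2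
    rw [h2] at hcv
    omega
  · obtain ⟨k1, k2, k3, k4, -, -⟩ := bU_data H hir hq hg h
    rw [k4] at hq1
    have h4 : q ∈ AL i e := by
      rw [NormD_mem_AL]
      exact ⟨by omega, v, mem_uc.1 hq2, by omega⟩
    have h5 : q ∈ AU i e := by
      rw [NormD_mem_AU]
      exact ⟨by omega, ka, mem_dc.1 hq1, by omega⟩
    exact disjoint_left.1 hd h4 h5

variable (hκ : Split (i + 1) κ) (hM : Mat P i K psi)
include hκ hM

/-- THE STRICT INEQUALITY across light joins -/
theorem light_T (hK : ∀ a ∈ T, Star i (cext (i + 1) κ a) K)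
    (hs : ∀ x, lev x ≤ i + 1 → 1 ≤ e x → κ x ∈ T) (hT : ∀ a ∈ T, Tou i κ e a)
    (hL : AdmL i e) (hU : AdmU i e) (hd : Disjoint (AL i e) (AU i e)) (hLt : Lt i κ K T0)
    (htau : ∀ k k', Pr i κ K k k' → tau k = k') {z0 : P}
    (hz0 : z0 ∉ cuni (i + 1) (fun x => decide (κ x ∈ T0))) (he0 : 1 ≤ e z0) :
    3 * ((AL i e).card + (AU i e).card) + 1 ≤
      2 * (∑ x, e x) + 3 * (pL i e + pU i e) + 3 * (Act2 i κ K psi tau e).card := by
  classical
  by_cases hn : 3 * ((AL i e).card + (AU i e).card) + 1 ≤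
      2 * (∑ x, e x) + 3 * (pL i e + pU i e) + 3 * (SK i K psi e).card
  · have h1 : (SK i K psi e).card ≤ (Act2 i κ K psi tau e).card :=
      card_le_card subset_union_left
    omega
  have E := eqC_of H hir hq hg hκ hM hK hs hT hL hU hd hn
  have h0 := slope_T H hir hq hg hκ hM hK hs hL hU hd (δ := 0)
    (by have := card_touch H hκ hq hL hT; omega)
  have hsk := E.sk
  -- it is enough to find a free pair
  suffices hk : ∃ k, k ∈ StK i κ K tau e by
    obtain ⟨k, hk⟩ := hk
    have h1 : 0 < (Act2 i κ K psi tau e).card :=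
      card_pos.2 ⟨k, mem_union_right _ hk⟩
    rw [hsk, card_empty] at h0
    omega
  have hspl : Split (i + 1) (fun x => decide (κ x ∈ T0)) := by
    intro x y hxy hl
    change decide (κ x ∈ T0) = decide (κ y ∈ T0)
    rw [hκ hxy hl]
  have hl0 := (two_up H hspl hz0).1
  have hD : z0 ∈ DxD i e := mem_DxD.2 ⟨he0, Or.inl (by omega)⟩
  obtain ⟨a, haT, hR⟩ := E.rel z0 hD
  rcases hR with ⟨h1, -, -, -⟩ | ⟨hlz, -, ⟨p, hp, hlp, hpa⟩, hsg⟩
  · omega
  obtain ⟨p1, p2, hk12, huc⟩ := So.two_labels H hspl hz0 (by omega)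
  obtain ⟨v, hv, hkv⟩ : ∃ v, v ∈ uc z0 ∧ ¬ (κ p ∈ T0 ↔ κ v ∈ T0) := by
    have h7 := hp
    rw [huc, mem_insert, mem_singleton] at h7
    rcases h7 with h7 | h7
    · refine ⟨p2, by rw [huc]; exact mem_insert_of_mem (mem_singleton_self _), ?_⟩
      intro h
      apply hk12
      change decide (κ p1 ∈ T0) = decide (κ p2 ∈ T0)
      rw [decide_eq_decide, ← h7]
      exact h
    · refine ⟨p1, by rw [huc]; exact mem_insert_self _ _, ?_⟩
      intro h
      apply hk12
      change decide (κ p1 ∈ T0) = decide (κ p2 ∈ T0)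
      rw [decide_eq_decide, ← h7]
      exact h.symm
  have hkk : κ p ≠ κ v := fun h => hkv (by rw [h])
  have hucz := uc_pair H hp hv (fun h => hkk (by rw [h]))
  have e1 := exc_le H hL he0 (mem_uc.1 hp).le (by omega)
  have hlv := lev_uc H hv
  have e2 := exc_le H hL he0 (mem_uc.1 hv).le (by omega)
  have hdv : (uc p).card = 2 ∧ (uc v).card = 1 := by
    rcases one_single H hκ hq hlz hucz hkk with h | h | h
    · exact h
    · have := hsg p hlp h.1 hpa
      omega
    · have := hsg p hlp h.1 hpa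
      omega
  have S : SD i κ z0 p v := ⟨hlz, hucz, hkk, hdv.1, hdv.2⟩
  have hvT : κ v ∈ T := hs v (by omega) e2
  have kbx : ∀ b ∈ T, ∃ ka, ka ∈ KB i K e ∧ κ ka = b := by
    intro b hb
    obtain ⟨ka, hka⟩ := Finset.card_eq_one.1 (E.kb b hb)
    refine ⟨ka, ?_⟩
    have : ka ∈ (KB i K e).filter (fun x => κ x = b) := by
      rw [hka]
      exact mem_singleton_self _
    exact mem_filter.1 this
  rcases hLt z0 p v S hkv with hf | hf
  · rcases hf with hf | ⟨k, k', pk, hka, f1, f2⟩
    · exfalso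
      obtain ⟨ka, hka, hkb⟩ := kbx a haT
      refine hf ka (mem_KB.1 hka).1 (by rw [hkb, hpa]) ?_
      exact E.free_y H hir hq hg hd (mem_dc.2 (mem_uc.1 hp)) he0 hlp hdv.1 e1 hka
    · have h3 := htau k k' pk
      rw [← h3] at pk f2
      refine ⟨k, mem_StK.2 ⟨pk.kK, pk, ?_⟩⟩
      exact E.side_y H hir hq hg hκ hM hL hU hd S he0 (by rw [hpa]; exact haT)
        (fun w h1 h2 h3 => hsg w h1 h2 (by rw [h3, hpa])) pk hka f1 f2
  · rcases hf with hf | ⟨k, k', pk, hka, f1, f2⟩
    · exfalso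
      obtain ⟨ka, hka, hkb⟩ := kbx (κ v) hvT
      refine hf ka (mem_KB.1 hka).1 hkb ?_
      exact E.free_v H hir hq hg hd (by omega) hdv.2 e2 hka
    · have h3 := htau k k' pk
      rw [← h3] at pk f2
      refine ⟨k, mem_StK.2 ⟨pk.kK, pk, ?_⟩⟩
      exact E.side_v H hir hq hg hκ hM hL hU hd (by omega) hdv.2 e2 hvT pk hka f1 f2

/-- the strict bound for the configurations across light joins -/
theorem XT_Ws3_light (hK : ∀ a ∈ T, Star i (cext (i + 1) κ a) K)
    (h01 : T0 ∪ T1 = univ.image κ) (hLt : Lt i κ K T0) :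
    Ws3 (st i (eT (i + 1) κ T)).card (XT i κ T (Cr2 (i + 1) κ T0 T1)) := by
  classical
  obtain ⟨tau, htau⟩ := exists_tau i κ K
  have hcr : ∀ z, z ∉ eT (i + 1) κ T0 → z ∉ eT (i + 1) κ T1 →
      z ∉ cuni (i + 1) (fun x => decide (κ x ∈ T0)) := by
    intro z z0 z1 h
    unfold cuni at h
    rw [mem_biUnion] at h
    obtain ⟨b, -, hb⟩ := h
    rw [mem_cext] at hb
    rcases b with _ | _
    · apply z1
      rw [mem_eT]
      intro y hy hl
      have h1 := hb y hy hl
      rw [decide_eq_false_iff_not] at h1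
      have h2 : κ y ∈ T0 ∪ T1 := by
        rw [h01]
        exact mem_image_of_mem κ (mem_univ y)
      exact (mem_union.1 h2).resolve_left h1
    · apply z0
      rw [mem_eT]
      intro y hy hl
      have h1 := hb y hy hl
      rw [decide_eq_true_iff] at h1
      exact h1
  intro n
  constructor
  · refine XT_dvd2 (tau := tau) hM H hκ (Cr2_congr h01) ?_
    intro e h1 h2 h3 h4 hL hU hd
    have hT : ∀ a ∈ T, Tou i κ e a := by
      intro a ha
      rw [← h3, mem_Tch] at ha
      obtain ⟨z, z1, z2, z3⟩ := ha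
      exact ⟨z, z2, z1, z3⟩
    have hs : ∀ x, lev x ≤ i + 1 → 1 ≤ e x → κ x ∈ T := by
      intro x hx h0
      have h4 : x ∈ eT (i + 1) κ T := by
        by_contra h5
        have := h2 x h5
        omega
      exact mem_eT.1 h4 x le_rfl hx
    obtain ⟨z, z0, z1, z2⟩ := h4
    have h5 := light_T H hir hq hg hκ hM hK hs hT hL hU hd hLt htau (hcr z z1 z2) z0
    rw [h1] at h5
    omega
  · rintro rfl
    unfold XT
    rw [coeff_ZQ]
    refine Finset.sum_eq_zero fun e he => ?_
    exfalso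
    simp only [Finset.mem_filter, mem_pa'] at he
    obtain ⟨⟨h1, -⟩, -, z, z0, -, -⟩ := he
    rw [Finset.sum_eq_zero_iff] at h1
    have := h1 z (mem_univ z)
    omega

end fin

/-- THE EDGE POLYNOMIAL of a set of labels with light joins to the other labels -/
theorem side_unit_light (H : Gr P r) (hir : i ≤ r) (hq : NoQ P (i + 2))
    (hg : ∀ m, m + 1 = i → Good P m) (hκ : Split (i + 1) κ) (hM : Mat P i K psi)
    (hK : K ⊆ dbL P i ∪ dbU P i) (hs : ∀ a, Star i (cext (i + 1) κ a) K)
    (h01 : T0 ∪ T1 = univ.image κ) (hd : Disjoint T0 T1) (hLt : Lt i κ K T0) :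
    ini3 (st i (eT (i + 1) κ T0)).card (ZS i (eT (i + 1) κ T0)) = 1 :=
  side_unit H hir hκ
    (fun T _ _ => XT_Wt3 H hir hq hg hκ hM (fun a _ => hs a) (fun _ _ _ => Iff.rfl))
    (fun a _ => own_Wt3 H hir hq hg hκ hM hK (hs a)) h01 hd
    (fun T _ _ => XT_Ws3_light H hir hq hg hκ hM (fun a _ => hs a) h01 hLt)

end Pool.Agent.GaussPoset.Win.K2

end

/-! From `Pool.Agent.W_448cl_h64.CnA` -/

section

/-!
The counting theorem at the window j (MP_448cb3_co, case B): the inequality for a configuration with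
two star labels and with light labels with three sites.
-/

namespace Pool.Agent.GaussPoset.Win.K2

set_option linter.unusedSectionVars false

open Finset I2

universe u

variable {P : Type u} [Fintype P] [PartialOrder P] [DecidableEq P] {r i : ℕ} {e : P → ℕ}

variable {ι : Type*} [DecidableEq ι] {κ : P → ι} {K : Finset P} {psi : P → P}

/-- the order bound with the energy of the sites -/
theorem ord_le_s (H : Gr P r) (hir : i ≤ r) (hq : NoQ P (i + 2))
    (hg : ∀ m, m + 1 = i → Good P m) (hL : AdmL i e) (hU : AdmU i e) {D : Finset P}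
    (hD : ∀ x ∈ D, 1 ≤ e x ∧ Dp i x) :
    (AL i e).card + (AU i e).card + D.card + ∑ x ∈ lv P i, e x ≤
      ∑ x, e x + (pL i e + pU i e) := by
  classical
  have h1 := sum_ch H hir hq hg hL hU
  have h2 : ∑ x, ch i e x ≤ ∑ x, (2 * (e x : ℤ) - (if x ∈ D then 2 else 0) -
      (if x ∈ lv P i then 2 * (e x : ℤ) else 0)) := by
    refine Finset.sum_le_sum fun x _ => ?_
    by_cases hx : x ∈ lv P i
    · have hl := mem_lv.1 hx
      have hxD : x ∉ D := by
        intro h
        have h3 := (hD x h).2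
        unfold Dp at h3
        rcases h3 with h3 | h3 <;> omega
      rw [if_neg hxD, if_pos hx]
      have h3 : ch i e x = 0 := by
        unfold ch
        rw [if_neg (by omega), if_neg (by omega)]
      rw [h3]
      linarith
    · rw [if_neg hx]
      split_ifs with h
      · have := (ch_le_D H hir hq hg hL (hD x h).1 (hD x h).2).1
        linarith
      · have := ch_le H hir hq hg (e := e) x
        linarith
  rw [h1, Finset.sum_sub_distrib, Finset.sum_sub_distrib, ← Finset.mul_sum, Finset.sum_ite_mem,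
    univ_inter, Finset.sum_const, nsmul_eq_mul, Finset.sum_ite_mem, univ_inter,
    ← Finset.mul_sum] at h2
  have h3 : ((∑ x, e x : ℕ) : ℤ) = ∑ x, (e x : ℤ) := by push_cast; rfl
  have h4 : ((∑ x ∈ lv P i, e x : ℕ) : ℤ) = ∑ x ∈ lv P i, (e x : ℤ) := by push_cast; rfl
  rw [← h3, ← h4] at h2
  omega

/-- an excited element of level `i + 1` does not meet a bad element of a label without energy
at its sites -/
lemma bad_free (H : Gr P r) (hir : i ≤ r) (hq : NoQ P (i + 2))
    (hg : ∀ m, m + 1 = i → Good P m) (hd : Disjoint (AL i e) (AU i e)) {k y x : P}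
    (hk : k ∈ bN i e) (hx : x ∈ ns i k) (h0 : e x = 0) (hy : lev y = i + 1) (he : 1 ≤ e y)
    (hxy : x ∈ uc y) : y = k := by
  unfold bN at hk
  rcases mem_union.1 hk with h | h
  · obtain ⟨-, -, -, -, -, k6⟩ := bL_data H hir hq hg h
    have h1 : y ∈ kr dc e x := mem_kr.2 ⟨mem_dc.2 (mem_uc.1 hxy), by omega⟩
    rw [k6 x hx h0, mem_singleton] at h1
    exact h1
  · exfalso
    obtain ⟨k1, -, k3, k4, -, -⟩ := bU_data H hir hq hg h
    rw [k4] at hx
    have l1 := lev_dc H hx
    have h4 : x ∈ AL i e := by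
      rw [NormD_mem_AL]
      exact ⟨by omega, y, mem_uc.1 hxy, by omega⟩
    have h5 : x ∈ AU i e := by
      rw [NormD_mem_AU]
      exact ⟨by omega, k, mem_dc.1 hx, by omega⟩
    exact disjoint_left.1 hd h4 h5

/-- the element which gives the additional charge -/
def QB (i : ℕ) (κ : P → ι) (e : P → ℕ) (t : ι) (q : P) : Prop :=
  q ∈ DxD i e ∧ (∀ a, ¬ Rtd i κ e a q) ∧ ∃ p ∈ uc q, κ p = t

/-- a touched light label with three sites -/
theorem light_lab (H : Gr P r) (hir : i ≤ r) (hq : NoQ P (i + 2))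
    (hg : ∀ m, m + 1 = i → Good P m) (hκ : Split (i + 1) κ) (hM : Mat P i K psi) {t : ι}
    (hL : AdmL i e) (hK : Star i (cext (i + 1) κ t) K)
    (h3 : (st i (cext (i + 1) κ t)).card ≤ 3)
    (hl : ∀ z y v, SD i κ z y v → κ v = t → ∀ k ∈ K, κ k = t → ¬ Disjoint (ns i k) (uc v))
    (hd : Disjoint (AL i e) (AU i e)) {XL XU : Finset P}
    (hXL : ∀ x ∈ XL, lev x = i ∧ 1 ≤ e x ∧ (∃ y, y ∈ dc x) ∧
        ∀ y ∈ dc x, y ∈ bL i e ∧ ∃ z ∈ dc y, 1 ≤ e z)
    (hXU : ∀ x ∈ XU, lev x = i ∧ 1 ≤ e x ∧ (∃ y, y ∈ uc x) ∧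
        ∀ y ∈ uc x, y ∈ bU i e ∧ ∃ z ∈ uc y, 1 ≤ e z)
    (hT : Tou i κ e t) :
    ((KB i K e).filter (fun x => κ x = t)).card + (XL.filter (fun x => κ x = t)).card +
      (XU.filter (fun x => κ x = t)).card ≤ 2 * ∑ x ∈ (lv P i).filter (fun x => κ x = t), e x ∨
    ∃ q, QB i κ e t q := by
  classical
  have h1 := star_loc (e := e) H hir hq hg hκ hM hK hd hXL hXU
  rcases Nat.eq_zero_or_pos (∑ x ∈ (lv P i).filter (fun x => κ x = t), e x) with h0 | h0
  swap
  · left
    omega
  have hz : ∀ x, lev x = i → κ x = t → e x = 0 := by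
    intro x hx hxt
    exact (Finset.sum_eq_zero_iff.1 h0) x (mem_filter.2 ⟨mem_lv.2 hx, hxt⟩)
  have hXL0 : (XL.filter (fun x => κ x = t)).card = 0 := by
    rw [card_eq_zero, filter_eq_empty_iff]
    intro x hx hxt
    obtain ⟨l1, l2, -, -⟩ := hXL x hx
    have := hz x l1 hxt
    omega
  have hXU0 : (XU.filter (fun x => κ x = t)).card = 0 := by
    rw [card_eq_zero, filter_eq_empty_iff]
    intro x hx hxt
    obtain ⟨l1, l2, -, -⟩ := hXU x hx
    have := hz x l1 hxt
    omega
  rcases ((KB i K e).filter (fun x => κ x = t)).eq_empty_or_nonempty with hE | ⟨k, hk⟩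
  · left
    rw [hE, hXL0, hXU0, card_empty]
    omega
  right
  rw [mem_filter] at hk
  obtain ⟨hk, hkt⟩ := hk
  have hkB : k ∈ bN i e := by
    rw [mem_KB] at hk
    unfold bN
    rcases hk.2 with h | h
    · exact mem_union_left _ h.1
    · exact mem_union_right _ h.1
  have hkK : k ∈ K := (mem_KB.1 hk).1
  have hns : ∀ x ∈ ns i k, lev x = i ∧ κ x = t := fun x hx =>
    ⟨(bN_data H hir hq hg hkB).2.2.2 x hx, by rw [ns_lab H hir hq hg hκ hkB hx, hkt]⟩
  have free : ∀ y, lev y = i + 1 → 1 ≤ e y → y ≠ k → ∀ x ∈ ns i k, x ∉ uc y := by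
    intro y hy he hne x hx hxy
    exact hne (bad_free H hir hq hg hd hkB hx (hz x (hns x hx).1 (hns x hx).2) hy he hxy)
  obtain ⟨q, p, lq, eq, hp, lp, hpt⟩ := touch_q H hκ hL hT
  have ep : 1 ≤ e p := exc_le H hL eq (mem_uc.1 hp).le (by omega)
  have hpk : p ≠ k := by
    rintro rfl
    rcases (mem_KB.1 hk).2 with ⟨h2, h3⟩ | ⟨h2, h3⟩
    · have := h3 q (mem_dc.2 (mem_uc.1 hp))
      omega
    · have := (bU_data H hir hq hg h2).1
      omega
  have hfr := free p lp ep hpk
  have hp1 : (uc p).card = 1 := by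
    have c2 := (bN_data H hir hq hg hkB).1
    have c3 : 0 < (uc p).card := card_pos.2 (uc_nonempty H (by omega))
    have hdis : Disjoint (ns i k) (uc p) := by
      rw [disjoint_left]
      exact hfr
    have hsub : ns i k ∪ uc p ⊆ st i (cext (i + 1) κ t) := by
      intro x hx
      rw [mem_st]
      rcases mem_union.1 hx with h | h
      · exact ⟨mem_cext_of_le hκ (by rw [(hns x h).1]; omega) (hns x h).2, (hns x h).1⟩
      · have h5 := lev_uc H h
        refine ⟨mem_cext_of_le hκ (by omega) ?_, by omega⟩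
        rw [← hpt]
        exact (hκ (mem_uc.1 h) (by omega)).symm
    have h6 := card_le_card hsub
    rw [card_union_of_disjoint hdis] at h6
    omega
  refine ⟨q, mem_DxD.2 ⟨eq, Or.inl (by omega)⟩, ?_, p, hp, hpt⟩
  intro a hR
  rcases hR with ⟨r1, -, -, -⟩ | ⟨-, -, ⟨p', r3, r4, r5⟩, r6⟩
  · omega
  · by_cases hpp : κ p = κ p'
    · have := r6 p lp hp1 (by rw [hpp, r5])
      omega
    · have huc := uc_pair H hp r3 (fun h => hpp (by rw [h]))
      rcases one_single H hκ hq lq huc hpp with h | h | h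
      · omega
      · refine hl q p' p ⟨lq, by rw [huc, pair_comm], fun h7 => hpp h7.symm, h.2, h.1⟩ hpt k hkK
          hkt ?_
        rw [disjoint_left]
        exact hfr
      · have e7 := exc_le H hL eq (mem_uc.1 r3).le (by omega)
        have := r6 p' r4 h.2 r5
        omega

/-- the count of the far and single elements -/
theorem card_extra (H : Gr P r) (hκ : Split (i + 1) κ) (hq : NoQ P (i + 2)) (hL : AdmL i e)
    {T B : Finset ι} (hT : ∀ a ∈ T, Tou i κ e a) (hB : ∀ t ∈ B, ∃ q, QB i κ e t q) :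
    2 * T.card + B.card ≤ 2 * (DxD i e).card := by
  classical
  have hex : ∀ a ∈ T, ∃ x, x ∈ DxD i e ∧ Rtd i κ e a x := by
    intro a ha
    obtain ⟨x, h1, h2⟩ := Rtd_ex H hκ hL (hT a ha)
    exact ⟨x, h1, h2⟩
  rcases isEmpty_or_nonempty P with hP | hP
  · have hT0 : T = ∅ := by
      rw [Finset.eq_empty_iff_forall_notMem]
      intro a ha
      obtain ⟨x, -⟩ := hex a ha
      exact hP.elim x
    have hB0 : B = ∅ := by
      rw [Finset.eq_empty_iff_forall_notMem]
      intro a ha
      obtain ⟨x, -⟩ := hB a ha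
      exact hP.elim x
    rw [hT0, hB0]
    simp
  obtain ⟨f, hf⟩ : ∃ f : ι → P, ∀ a ∈ T, f a ∈ DxD i e ∧ Rtd i κ e a (f a) := by
    refine ⟨fun a => if h : a ∈ T then (hex a h).choose else hP.some, ?_⟩
    intro a ha
    simp only [dif_pos ha]
    exact (hex a ha).choose_spec
  obtain ⟨g, hgB⟩ : ∃ g : ι → P, ∀ t ∈ B, QB i κ e t (g t) := by
    refine ⟨fun a => if h : a ∈ B then (hB a h).choose else hP.some, ?_⟩
    intro a ha
    simp only [dif_pos ha]
    exact (hB a ha).choose_spec
  have h1 : (T.image f).card = T.card := by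
    apply Finset.card_image_of_injOn
    intro a ha b hb hab
    have h2 := (hf a ha).2
    rw [hab] at h2
    exact Rtd_inj H hκ hq hL h2 (hf b hb).2
  have h2 : B.card ≤ 2 * (B.image g).card := by
    apply Finset.card_le_mul_card_image
    intro q hq'
    have h3 : B.filter (fun t => g t = q) ⊆ (uc q).image κ := by
      intro t ht
      rw [mem_filter] at ht
      obtain ⟨-, -, p, hp, hpt⟩ := hgB t ht.1
      rw [ht.2] at hp
      rw [mem_image]
      exact ⟨p, hp, hpt⟩
    exact (card_le_card h3).trans (card_image_le.trans (uc_card_le H q))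
  have h3 : Disjoint (T.image f) (B.image g) := by
    rw [disjoint_left]
    intro x hx hx'
    rw [mem_image] at hx hx'
    obtain ⟨a, ha, rfl⟩ := hx
    obtain ⟨b, hb, hab⟩ := hx'
    have h4 := (hgB b hb).2.1 a
    rw [hab] at h4
    exact h4 (hf a ha).2
  have h4 : (T.image f ∪ B.image g).card ≤ (DxD i e).card := by
    apply card_le_card
    intro x hx
    rcases mem_union.1 hx with h | h
    · rw [mem_image] at h
      obtain ⟨a, ha, rfl⟩ := h
      exact (hf a ha).1
    · rw [mem_image] at h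
      obtain ⟨a, ha, rfl⟩ := h
      exact (hgB a ha).1
  rw [card_union_of_disjoint h3, h1] at h4
  omega

/-- the sites of the low and of the high side which are full -/
def FulL (i : ℕ) (e : P → ℕ) (XL : Finset P) : Prop :=
  ∀ x ∈ XL, lev x = i ∧ 1 ≤ e x ∧ (∃ y, y ∈ dc x) ∧
    ∀ y ∈ dc x, y ∈ bL i e ∧ ∃ z ∈ dc y, 1 ≤ e z

/-- the full sites of the upper side -/
def FulU (i : ℕ) (e : P → ℕ) (XU : Finset P) : Prop :=
  ∀ x ∈ XU, lev x = i ∧ 1 ≤ e x ∧ (∃ y, y ∈ uc x) ∧
    ∀ y ∈ uc x, y ∈ bU i e ∧ ∃ z ∈ uc y, 1 ≤ e z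

/-- the charge of the label `a` is at most `C` -/
def Cap (i : ℕ) (κ : P → ι) (K : Finset P) (e : P → ℕ) (a : ι) (C : ℕ) : Prop :=
  ∀ XL XU : Finset P, FulL i e XL → FulU i e XU →
    ((KB i K e).filter (fun x => κ x = a)).card + (XL.filter (fun x => κ x = a)).card +
      (XU.filter (fun x => κ x = a)).card ≤ 2 * ∑ x ∈ (lv P i).filter (fun x => κ x = a), e x + C

lemma lab_sum {X U : Finset P} {a : ι} (hX : ∀ x ∈ X, lev x = i ∧ 1 ≤ e x)
    (hU : ∀ x ∈ U, (lev x = i ∧ 1 ≤ e x) ∧ κ x = a) (hd : Disjoint X U) :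
    (X.filter (fun x => κ x = a)).card + U.card ≤
      ∑ x ∈ (lv P i).filter (fun x => κ x = a), e x := by
  classical
  have hd' : Disjoint (X.filter (fun x => κ x = a)) U :=
    disjoint_of_subset_left (filter_subset _ _) hd
  rw [← card_union_of_disjoint hd', Finset.card_eq_sum_ones]
  have h1 : ∀ x ∈ X.filter (fun x => κ x = a) ∪ U, (lev x = i ∧ 1 ≤ e x) ∧ κ x = a := by
    intro x hx
    rcases mem_union.1 hx with h | h
    · rw [mem_filter] at h
      exact ⟨hX x h.1, h.2⟩
    · exact hU x h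
  refine le_trans (Finset.sum_le_sum (g := fun x => e x) fun x hx => (h1 x hx).1.2) ?_
  exact Finset.sum_le_sum_of_subset fun x hx =>
    mem_filter.2 ⟨mem_lv.2 (h1 x hx).1.1, (h1 x hx).2⟩

/-- two stars with two elements each: the charge is at most two -/
theorem cap_two (H : Gr P r) (hir : i ≤ r) (hq : NoQ P (i + 2))
    (hg : ∀ m, m + 1 = i → Good P m) (hκ : Split (i + 1) κ)
    (hd : Disjoint (AL i e) (AU i e)) {a : ι} {k1 k2 k3 k4 c1 c2 : P}
    (hk : ∀ k ∈ K, κ k = a → k = k1 ∨ k = k2 ∨ k = k3 ∨ k = k4)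
    (h1 : c1 ∈ ns i k1) (h2 : c1 ∈ ns i k2) (h3 : c2 ∈ ns i k3) (h4 : c2 ∈ ns i k4)
    (hc : c1 ≠ c2) (l12 : lev k1 ≠ lev k2) (l34 : lev k3 ≠ lev k4) : Cap i κ K e a 2 := by
  classical
  intro XL XU hXL hXU
  obtain ⟨Q, hQ⟩ : ∃ Q : Finset P, Q = (KB i K e).filter (fun x => κ x = a) := ⟨_, rfl⟩
  have mQ : ∀ {k}, k ∈ Q → k ∈ KB i K e ∧ κ k = a ∧ k ∈ bN i e := by
    intro k hk
    rw [hQ, mem_filter] at hk
    refine ⟨hk.1, hk.2, ?_⟩
    have := (mem_KB.1 hk.1).2
    unfold bN
    rcases this with h | h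
    · exact mem_union_left _ h.1
    · exact mem_union_right _ h.1
  rw [← hQ]
  -- a common site of two elements of different levels
  have key : ∀ k k' c, k ∈ Q → k' ∈ Q → lev k ≠ lev k' → c ∈ ns i k → c ∈ ns i k' →
      ((lev c = i ∧ 1 ≤ e c) ∧ κ c = a) ∧ c ∉ XL ∧ c ∉ XU := by
    intro k k' c hk hk' hl hck hck'
    obtain ⟨a1, a2, a3⟩ := mQ hk
    obtain ⟨b1, b2, b3⟩ := mQ hk'
    have e0 := bad_disj H hir hq hg hd a3 b3 (fun h => hl (by rw [h])) hck hck'
    refine ⟨⟨⟨(bN_data H hir hq hg a3).2.2.2 c hck, by omega⟩, by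
      rw [ns_lab H hir hq hg hκ a3 hck, a2]⟩, ?_, ?_⟩
    · intro hcX
      obtain ⟨-, -, -, hX⟩ := hXL c hcX
      have low : ∀ u, u ∈ KB i K e → c ∈ ns i u → u ∉ bL i e := by
        intro u hu hcu huL
        obtain ⟨-, -, -, u4, -, -⟩ := bL_data H hir hq hg huL
        rw [u4] at hcu
        obtain ⟨-, z, hz, hz1⟩ := hX u (mem_dc.2 (mem_uc.1 hcu))
        rcases (mem_KB.1 hu).2 with ⟨-, h6⟩ | ⟨h6, -⟩
        · have := h6 z hz
          omega
        · have h7 := (bU_data H hir hq hg h6).1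
          have h8 := (bL_data H hir hq hg huL).1
          omega
      have up : ∀ u, u ∈ KB i K e → c ∈ ns i u → lev u + 1 = i := by
        intro u hu hcu
        rcases (mem_KB.1 hu).2 with ⟨h6, -⟩ | ⟨h6, -⟩
        · exact absurd h6 (low u hu hcu)
        · exact (bU_data H hir hq hg h6).1
      have u1 := up k a1 hck
      have u2 := up k' b1 hck'
      omega
    · intro hcX
      obtain ⟨-, -, -, hX⟩ := hXU c hcX
      have hi : ∀ u, u ∈ KB i K e → c ∈ ns i u → u ∉ bU i e := by
        intro u hu hcu huU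
        obtain ⟨-, -, -, u4, -, -⟩ := bU_data H hir hq hg huU
        rw [u4] at hcu
        obtain ⟨-, z, hz, hz1⟩ := hX u (mem_uc.2 (mem_dc.1 hcu))
        rcases (mem_KB.1 hu).2 with ⟨h6, -⟩ | ⟨-, h6⟩
        · have h7 := (bU_data H hir hq hg huU).1
          have h8 := (bL_data H hir hq hg h6).1
          omega
        · have := h6 z hz
          omega
      have lo : ∀ u, u ∈ KB i K e → c ∈ ns i u → lev u = i + 1 := by
        intro u hu hcu
        rcases (mem_KB.1 hu).2 with ⟨h6, -⟩ | ⟨h6, -⟩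
        · exact (bL_data H hir hq hg h6).1
        · exact absurd h6 (hi u hu hcu)
      have u1 := lo k a1 hck
      have u2 := lo k' b1 hck'
      omega
  obtain ⟨U, hUd⟩ : ∃ U : Finset P, U = (if k1 ∈ Q ∧ k2 ∈ Q then {c1} else ∅) ∪
      (if k3 ∈ Q ∧ k4 ∈ Q then {c2} else ∅) := ⟨_, rfl⟩
  have hU : ∀ x ∈ U, ((lev x = i ∧ 1 ≤ e x) ∧ κ x = a) ∧ x ∉ XL ∧ x ∉ XU := by
    intro x hx
    rw [hUd, mem_union] at hx
    rcases hx with hx | hx
    · split_ifs at hx with h
      · rw [mem_singleton] at hx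
        rw [hx]
        exact key k1 k2 c1 h.1 h.2 l12 h1 h2
      · exact absurd hx (notMem_empty x)
    · split_ifs at hx with h
      · rw [mem_singleton] at hx
        rw [hx]
        exact key k3 k4 c2 h.1 h.2 l34 h3 h4
      · exact absurd hx (notMem_empty x)
  have hQc : Q.card ≤ 2 + U.card := by
    have hsub : Q ⊆ (Q.filter (fun k => k = k1 ∨ k = k2)) ∪
        (Q.filter (fun k => k = k3 ∨ k = k4)) := by
      intro k hkQ
      rw [mem_union, mem_filter, mem_filter]
      rcases hk k (mem_KB.1 (mQ hkQ).1).1 (mQ hkQ).2.1 with h | h | h | h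
      · exact Or.inl ⟨hkQ, Or.inl h⟩
      · exact Or.inl ⟨hkQ, Or.inr h⟩
      · exact Or.inr ⟨hkQ, Or.inl h⟩
      · exact Or.inr ⟨hkQ, Or.inr h⟩
    have h5 := (card_le_card hsub).trans (card_union_le _ _)
    have two : ∀ u v : P, (Q.filter (fun k => k = u ∨ k = v)).card ≤
        (if u ∈ Q ∧ v ∈ Q then 2 else 1) := by
      intro u v
      split_ifs with h
      · refine le_trans (card_le_card (t := {u, v}) ?_) card_le_two
        intro k hk
        rw [mem_filter] at hk
        rw [mem_insert, mem_singleton]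
        exact hk.2
      · by_cases hu : u ∈ Q
        · have hv : v ∉ Q := fun hv => h ⟨hu, hv⟩
          refine le_trans (card_le_card (t := {u}) ?_) (card_singleton u).le
          intro k hk
          rw [mem_filter] at hk
          rw [mem_singleton]
          rcases hk.2 with h6 | h6
          · exact h6
          · rw [h6] at hk
            exact absurd hk.1 hv
        · refine le_trans (card_le_card (t := {v}) ?_) (card_singleton v).le
          intro k hk
          rw [mem_filter] at hk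
          rw [mem_singleton]
          rcases hk.2 with h6 | h6
          · rw [h6] at hk
            exact absurd hk.1 hu
          · exact h6
    have t1 := two k1 k2
    have t2 := two k3 k4
    have h6 : U.card = (if k1 ∈ Q ∧ k2 ∈ Q then 1 else 0) + (if k3 ∈ Q ∧ k4 ∈ Q then 1 else 0) := by
      rw [hUd, card_union_of_disjoint]
      · split_ifs <;> simp
      · rw [disjoint_left]
        intro x hx hx'
        split_ifs at hx with h7
        · split_ifs at hx' with h8
          · rw [mem_singleton] at hx hx'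
            exact hc (hx.symm.trans hx')
          · exact absurd hx' (notMem_empty x)
        · exact absurd hx (notMem_empty x)
    rw [h6]
    split_ifs at t1 t2 ⊢ <;> omega
  have e1 := lab_sum (κ := κ) (a := a) (U := U) (fun x hx => ⟨(hXL x hx).1, (hXL x hx).2.1⟩)
    (fun x hx => (hU x hx).1) (by
      rw [disjoint_left]
      intro x hx hx'
      exact (hU x hx').2.1 hx)
  have e2 := lab_sum (κ := κ) (a := a) (U := U) (fun x hx => ⟨(hXU x hx).1, (hXU x hx).2.1⟩)
    (fun x hx => (hU x hx).1) (by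
      rw [disjoint_left]
      intro x hx hx'
      exact (hU x hx').2.2 hx)
  omega

/-- THE INEQUALITY with two star labels (`P6`) and light labels with three sites (`S0`) -/
theorem cross_cnt (H : Gr P r) (hir : i ≤ r) (hq : NoQ P (i + 2))
    (hg : ∀ m, m + 1 = i → Good P m) (hκ : Split (i + 1) κ) (hM : Mat P i K psi)
    {T S0 P6 : Finset ι} {C : ℕ}
    (hK : ∀ a ∈ T, a ∉ P6 → Star i (cext (i + 1) κ a) K)
    (hC : ∀ a ∈ T, a ∈ P6 → Cap i κ K e a C)
    (h3 : ∀ t ∈ S0, (st i (cext (i + 1) κ t)).card ≤ 3)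
    (hl : ∀ t ∈ S0, ∀ z y v, SD i κ z y v → κ v = t → ∀ k ∈ K, κ k = t →
      ¬ Disjoint (ns i k) (uc v))
    (h06 : Disjoint S0 P6) (hT : ∀ a ∈ T, Tou i κ e a)
    (hs : ∀ x, lev x ≤ i + 1 → 1 ≤ e x → κ x ∈ T)
    (hL : AdmL i e) (hU : AdmU i e) (hd : Disjoint (AL i e) (AU i e)) :
    6 * ((AL i e).card + (AU i e).card) + (S0 ∩ T).card ≤
      4 * (∑ x, e x) + 6 * (pL i e + pU i e) + 6 * (SK i K psi e).card +
        2 * C * (P6 ∩ T).card := by
  classical
  obtain ⟨XL, XU, hXL, hXU, h1⟩ := main_K hM H hir hq hg hL hU hd (δ := 0) (Or.inl rfl)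
  obtain ⟨F, hF⟩ : ∃ F : ι → ℕ, ∀ a, F a = ((KB i K e).filter (fun x => κ x = a)).card +
      (XL.filter (fun x => κ x = a)).card + (XU.filter (fun x => κ x = a)).card := ⟨_, fun _ => rfl⟩
  obtain ⟨s, hsd⟩ : ∃ s : ι → ℕ, ∀ a, s a = ∑ x ∈ (lv P i).filter (fun x => κ x = a), e x :=
    ⟨_, fun _ => rfl⟩
  -- the good labels
  obtain ⟨G, hG⟩ : ∃ G : Finset ι, ∀ t, t ∈ G ↔ (t ∈ S0 ∧ t ∈ T) ∧ F t ≤ 2 * s t :=
    ⟨(S0 ∩ T).filter (fun t => F t ≤ 2 * s t), fun t => by rw [mem_filter, mem_inter]⟩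
  obtain ⟨B, hB⟩ : ∃ B : Finset ι, ∀ t, t ∈ B ↔ (t ∈ S0 ∧ t ∈ T) ∧ ¬ F t ≤ 2 * s t :=
    ⟨(S0 ∩ T).filter (fun t => ¬ F t ≤ 2 * s t), fun t => by rw [mem_filter, mem_inter]⟩
  have hGB : (S0 ∩ T).card ≤ G.card + B.card := by
    refine le_trans (card_le_card ?_) (card_union_le G B)
    intro t ht
    rw [mem_inter] at ht
    rw [mem_union, hG, hB]
    by_cases h : F t ≤ 2 * s t
    · exact Or.inl ⟨ht, h⟩
    · exact Or.inr ⟨ht, h⟩
  have hGT : G ⊆ T := fun t ht => ((hG t).1 ht).1.2
  have hBq : ∀ t ∈ B, ∃ q, QB i κ e t q := by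
    intro t ht
    obtain ⟨⟨t1, t2⟩, t3⟩ := (hB t).1 ht
    have h6 : t ∉ P6 := fun h => disjoint_left.1 h06 t1 h
    rcases light_lab H hir hq hg hκ hM hL (hK t t2 h6) (h3 t t1) (hl t t1) hd hXL hXU
      (hT t t2) with h | h
    · rw [hF, hsd] at t3
      exact absurd h t3
    · exact h
  have hcnt := card_extra H hκ hq hL hT hBq
  -- every label
  have hlab : ∀ a ∈ T, F a + (if a ∈ G then 1 else 0) ≤
      2 * s a + (1 + (if a ∈ P6 then C else 0)) := by
    intro a ha
    by_cases h6 : a ∈ P6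
    · have hnG : a ∉ G := fun h => disjoint_left.1 h06 ((hG a).1 h).1.1 h6
      rw [if_pos h6, if_neg hnG]
      have e4 := hC a ha h6 XL XU hXL hXU
      rw [← hF, ← hsd] at e4
      omega
    · rw [if_neg h6]
      have e1 := star_loc (e := e) H hir hq hg hκ hM (hK a ha h6) hd hXL hXU
      split_ifs with h
      · have := ((hG a).1 h).2
        omega
      · rw [hF, hsd]
        omega
  have h4 := Finset.sum_le_sum hlab
  rw [Finset.sum_add_distrib, Finset.sum_add_distrib, Finset.sum_add_distrib,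
    ← Finset.mul_sum] at h4
  have h5 : ∑ a ∈ T, (if a ∈ G then 1 else 0) = G.card := by
    rw [Finset.sum_ite_mem, Finset.inter_eq_right.2 hGT, Finset.sum_const, smul_eq_mul, mul_one]
  have h6 : ∑ a ∈ T, (if a ∈ P6 then C else 0) = (P6 ∩ T).card * C := by
    rw [Finset.sum_ite_mem, Finset.sum_const, smul_eq_mul, inter_comm]
  rw [h5, h6, Finset.sum_const, smul_eq_mul, mul_one] at h4
  have hfib : ∀ S : Finset P, (∀ x ∈ S, κ x ∈ T) →
      ∑ a ∈ T, (S.filter (fun x => κ x = a)).card = S.card := by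
    intro S hS
    exact (Finset.card_eq_sum_card_fiberwise hS).symm
  have hKBT : ∀ x ∈ KB i K e, κ x ∈ T := by
    intro k hk
    rw [mem_KB] at hk
    have h4 : k ∈ bN i e := by
      unfold bN
      rcases hk.2 with h | h
      · exact mem_union_left _ h.1
      · exact mem_union_right _ h.1
    exact hs k (lev_bN H hir hq hg h4) (by have := (bN_data H hir hq hg h4).2.1; omega)
  have hXLT : ∀ x ∈ XL, κ x ∈ T := by
    intro x hx
    obtain ⟨l1, l2, -, -⟩ := hXL x hx
    exact hs x (by omega) l2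
  have hXUT : ∀ x ∈ XU, κ x ∈ T := by
    intro x hx
    obtain ⟨l1, l2, -, -⟩ := hXU x hx
    exact hs x (by omega) l2
  have hFs : ∑ a ∈ T, F a = (KB i K e).card + XL.card + XU.card := by
    rw [Finset.sum_congr rfl (fun a _ => hF a), Finset.sum_add_distrib, Finset.sum_add_distrib,
      hfib _ hKBT, hfib _ hXLT, hfib _ hXUT]
  have hss : ∑ a ∈ T, s a ≤ ∑ x ∈ lv P i, e x := by
    rw [Finset.sum_congr rfl (fun a _ => hsd a), ← Finset.sum_biUnion]
    · refine Finset.sum_le_sum_of_subset ?_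
      intro x hx
      rw [mem_biUnion] at hx
      obtain ⟨a, -, hx⟩ := hx
      exact (mem_filter.1 hx).1
    · intro a _ b _ hab
      rw [Function.onFun, disjoint_left]
      intro x hx hx'
      exact hab ((mem_filter.1 hx).2.symm.trans (mem_filter.1 hx').2)
  have h7 : ∑ x, e x = ∑ x ∈ lS P i, e x + ∑ x ∈ uS P i, e x + ∑ x ∈ lv P i, e x := by
    have h6 : (univ : Finset P) = (lS P i ∪ uS P i) ∪ lv P i := by
      ext x
      simp only [mem_univ, mem_union, mem_lS, mem_uS, mem_lv, true_iff]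
      omega
    rw [h6, Finset.sum_union, Finset.sum_union]
    · rw [disjoint_left]
      intro x hx hx'
      rw [mem_lS] at hx
      rw [mem_uS] at hx'
      omega
    · rw [disjoint_left]
      intro x hx hx'
      rw [mem_union, mem_lS, mem_uS] at hx
      rw [mem_lv] at hx'
      omega
  have h8 := ord_le_s H hir hq hg hL hU (D := DxD i e) (fun x hx => mem_DxD.1 hx)
  rw [hFs] at h4
  have h9 : 2 * C * (P6 ∩ T).card = 2 * ((P6 ∩ T).card * C) := by ring
  rw [h9]
  omega

end Pool.Agent.GaussPoset.Win.K2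

end

/-! From `Pool.Agent.W_448L2_h10.CrB` -/

section

/-!
Per class identities at the window j (MP_448cb3_co, case B): the count of the bad elements of a
label with two stars, and the own series of such a label.
-/

namespace Pool.Agent.GaussPoset.Win.K2

set_option linter.unusedSectionVars false

open Finset I2

universe u

variable {P : Type u} [Fintype P] [PartialOrder P] [DecidableEq P] {r i : ℕ} {e : P → ℕ}

variable {ι : Type*} [DecidableEq ι] {κ : P → ι} {K : Finset P} {psi : P → P}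

section ord

variable (H : Gr P r) (hir : i ≤ r) (hq : NoQ P (i + 2)) (hg : ∀ m, m + 1 = i → Good P m)
include H hir hq hg

/-- ORDER BOUND with a set of far or single elements and the labels of the sites -/
theorem ord_le_sites (hL : AdmL i e) (hU : AdmU i e) {D : Finset P}
    (hD : ∀ x ∈ D, 1 ≤ e x ∧ Dp i x) :
    (AL i e).card + (AU i e).card + D.card + ∑ x ∈ lv P i, e x ≤
      ∑ x, e x + (pL i e + pU i e) := by
  classical
  have h1 := sum_ch H hir hq hg hL hU
  have h2 : ∑ x, ch i e x ≤ ∑ x, (2 * (e x : ℤ) - (if x ∈ D then 2 else 0) -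
      (if x ∈ lv P i then 2 * (e x : ℤ) else 0)) := by
    refine Finset.sum_le_sum fun x _ => ?_
    by_cases hs : x ∈ lv P i
    · have hx := mem_lv.1 hs
      have hxD : x ∉ D := by
        intro h
        have h3 := (hD x h).2
        unfold Dp at h3
        omega
      rw [if_neg hxD, if_pos hs]
      unfold ch
      rw [if_neg (by omega), if_neg (by omega)]
      linarith
    · rw [if_neg hs]
      split_ifs with h
      · have := (ch_le_D H hir hq hg hL (hD x h).1 (hD x h).2).1
        linarith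
      · have := ch_le H hir hq hg (e := e) x
        linarith
  rw [h1, Finset.sum_sub_distrib, Finset.sum_sub_distrib, ← Finset.mul_sum, Finset.sum_ite_mem,
    univ_inter, Finset.sum_const, nsmul_eq_mul, Finset.sum_ite_mem, univ_inter,
    ← Finset.mul_sum] at h2
  have h3 : ((∑ x, e x : ℕ) : ℤ) = ∑ x, (e x : ℤ) := by push_cast; rfl
  have h4 : ((∑ x ∈ lv P i, e x : ℕ) : ℤ) = ∑ x ∈ lv P i, (e x : ℤ) := by push_cast; rfl
  rw [← h3, ← h4] at h2
  omega

end ord

lemma sum_lv_split (e : P → ℕ) :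
    ∑ x, e x = ∑ x ∈ lS P i, e x + ∑ x ∈ uS P i, e x + ∑ x ∈ lv P i, e x := by
  classical
  have h6 : (univ : Finset P) = (lS P i ∪ uS P i) ∪ lv P i := by
    ext x
    simp only [mem_univ, mem_union, mem_lS, mem_uS, mem_lv, true_iff]
    omega
  rw [h6, Finset.sum_union, Finset.sum_union]
  · rw [disjoint_left]
    intro x hx hx'
    rw [mem_lS] at hx
    rw [mem_uS] at hx'
    omega
  · rw [disjoint_left]
    intro x hx hx'
    rw [mem_union, mem_lS, mem_uS] at hx
    rw [mem_lv] at hx'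
    omega

/-- THE INEQUALITY OF SLOPE TWO THIRDS for a configuration in one label -/
theorem slope_own_lab (H : Gr P r) (hir : i ≤ r) (hq : NoQ P (i + 2))
    (hg : ∀ m, m + 1 = i → Good P m) (hκ : Split (i + 1) κ) (hM : Mat P i K psi) {a : ι} {c : ℕ}
    (hK : ∀ XL XU : Finset P,
      (∀ x ∈ XL, lev x = i ∧ 1 ≤ e x ∧ (∃ y, y ∈ dc x) ∧
        ∀ y ∈ dc x, y ∈ bL i e ∧ ∃ z ∈ dc y, 1 ≤ e z) →
      (∀ x ∈ XU, lev x = i ∧ 1 ≤ e x ∧ (∃ y, y ∈ uc x) ∧
        ∀ y ∈ uc x, y ∈ bU i e ∧ ∃ z ∈ uc y, 1 ≤ e z) →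
      ((KB i K e).filter (fun x => κ x = a)).card + (XL.filter (fun x => κ x = a)).card +
      (XU.filter (fun x => κ x = a)).card ≤
      2 * ∑ x ∈ (lv P i).filter (fun x => κ x = a), e x + c)
    (hs : Spt (cext (i + 1) κ a) e)
    (hL : AdmL i e) (hU : AdmU i e) (hd : Disjoint (AL i e) (AU i e)) :
    3 * ((AL i e).card + (AU i e).card) ≤
      2 * (∑ x, e x) + 3 * (pL i e + pU i e) + 3 * (SK i K psi e).card + c := by
  classical
  obtain ⟨XL, XU, hXL, hXU, h1⟩ := main_K hM H hir hq hg hL hU hd (δ := 0) (Or.inl rfl)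
  have h2 := hK XL XU hXL hXU
  have hk : ∀ x, lev x ≤ i + 1 → 1 ≤ e x → κ x = a := by
    intro x hx h0
    have h3 : x ∈ cext (i + 1) κ a := by
      by_contra h3
      have := hs x h3
      omega
    exact (mem_cext.1 h3) x le_rfl hx
  have hKB : (KB i K e).filter (fun x => κ x = a) = KB i K e := by
    refine filter_true_of_mem fun k hk' => ?_
    rw [mem_KB] at hk'
    have h4 : k ∈ bN i e := by
      unfold bN
      rcases hk'.2 with h | h
      · exact mem_union_left _ h.1
      · exact mem_union_right _ h.1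
    exact hk k (lev_bN H hir hq hg h4) (by have := (bN_data H hir hq hg h4).2.1; omega)
  have hXLT : XL.filter (fun x => κ x = a) = XL := by
    refine filter_true_of_mem fun x hx => ?_
    obtain ⟨l1, l2, -, -⟩ := hXL x hx
    exact hk x (by omega) l2
  have hXUT : XU.filter (fun x => κ x = a) = XU := by
    refine filter_true_of_mem fun x hx => ?_
    obtain ⟨l1, l2, -, -⟩ := hXU x hx
    exact hk x (by omega) l2
  rw [hKB, hXLT, hXUT] at h2
  have h5 : ∑ x ∈ (lv P i).filter (fun x => κ x = a), e x ≤ ∑ x ∈ lv P i, e x :=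
    Finset.sum_le_sum_of_subset (filter_subset _ _)
  have h6 := sum_lv_split (i := i) e
  have h7 := ord_le_sites H hir hq hg hL hU (D := ∅) (by simp)
  rw [card_empty] at h7
  omega

/-- divisibility and a nonzero coefficient -/
lemma coeff_dd_dvd {N m : ℕ} {f : A} (h : dd ^ N ∣ f) (hm : PowerSeries.coeff m f ≠ 0) : N ≤ m := by
  unfold dd at h
  by_contra hc
  exact hm ((PowerSeries.X_pow_dvd_iff.1 h) m (by omega))

/-- THE OWN SERIES of a label whose count is at most `2 s + c` -/
theorem own_slope (H : Gr P r) (hir : i ≤ r) (hq : NoQ P (i + 2))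
    (hg : ∀ m, m + 1 = i → Good P m) (hκ : Split (i + 1) κ) (hM : Mat P i K psi) {a : ι} {c : ℕ}
    (hK : ∀ e : P → ℕ, Disjoint (AL i e) (AU i e) → ∀ XL XU : Finset P,
      (∀ x ∈ XL, lev x = i ∧ 1 ≤ e x ∧ (∃ y, y ∈ dc x) ∧
        ∀ y ∈ dc x, y ∈ bL i e ∧ ∃ z ∈ dc y, 1 ≤ e z) →
      (∀ x ∈ XU, lev x = i ∧ 1 ≤ e x ∧ (∃ y, y ∈ uc x) ∧
        ∀ y ∈ uc x, y ∈ bU i e ∧ ∃ z ∈ uc y, 1 ≤ e z) →
      ((KB i K e).filter (fun x => κ x = a)).card + (XL.filter (fun x => κ x = a)).card +
      (XU.filter (fun x => κ x = a)).card ≤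
      2 * ∑ x ∈ (lv P i).filter (fun x => κ x = a), e x + c) {n m : ℕ}
    (hne : PowerSeries.coeff m (PowerSeries.coeff n (ZS i (cext (i + 1) κ a))) ≠ 0) :
    6 * (st i (cext (i + 1) κ a)).card ≤ 4 * n + 6 * m + 2 * c := by
  have hC : Part (i + 1) (cext (i + 1) κ a) := part_cext H le_rfl hκ a
  have key : dd ^ ((st i (cext (i + 1) κ a)).card - (2 * n + c) / 3) ∣
      PowerSeries.coeff n (ZS i (cext (i + 1) κ a)) := by
    rw [coeff_ZS]
    unfold ZC
    refine class_dvd hM H ?_ ?_
    · intro e he y hy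
      rw [mem_pa'] at he ⊢
      exact ⟨by rw [sum_sw]; exact he.1, spt_sw hM H hC he.2 hy⟩
    · intro e he
      rw [mem_pa'] at he
      refine tC_dvd fun hL hU hd => ?_
      have h1 := slope_own_lab H hir hq hg hκ hM (hK e hd) he.2 hL hU hd
      rw [he.1] at h1
      omega
  have h2 := coeff_dd_dvd key hne
  omega

end Pool.Agent.GaussPoset.Win.K2

end

/-! From `Pool.Agent.W_448cu_h27.CsA` -/

section

/-!
The counting theorem at the window j (MP_448cb3_co, case B): the series of the configurations which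
touch exactly the labels `T` (`Ut.XS` of the unit trick) in coefficient form.
-/

namespace Pool.Agent.GaussPoset.Win.K2

set_option linter.unusedSectionVars false

open Finset I2

universe u

variable {P : Type u} [Fintype P] [PartialOrder P] [DecidableEq P] {r i l : ℕ} {e : P → ℕ}

variable {ι : Type*} [DecidableEq ι] {κ : P → ι} {K : Finset P} {psi : P → P}

lemma US_eq_eT (S : Finset ι) : Ut.US l κ S = eT l κ S := by
  ext x
  rw [Ut.mem_US, mem_eT]

lemma Tch_eq (e : P → ℕ) : Ut.Tch l κ e = Tch l κ e := by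
  ext a
  rw [Ut.mem_Tch, mem_Tch]
  constructor
  · rintro ⟨y, ⟨hy, z, z1, z2, z3⟩, rfl⟩
    exact ⟨z, by omega, z1, y, z3, hy, rfl⟩
  · rintro ⟨z, z1, z2, y, y1, y2, rfl⟩
    exact ⟨y, ⟨y2, z, z2, by omega, y1⟩, rfl⟩

/-- the two series of the configurations which touch exactly `S` agree -/
theorem XS_eq_XT (S : Finset ι) : Ut.XS i (i + 1) κ S = XT i κ S (fun _ => True) := by
  classical
  ext1 n
  unfold Ut.XS Ut.XC XT
  rw [PowerSeries.coeff_mk, coeff_ZQ, US_eq_eT]
  refine Finset.sum_congr ?_ fun _ _ => rfl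
  ext e
  simp only [Finset.mem_filter, Tch_eq, and_true]

/-- the number of the sites of a set of labels -/
lemma card_st_lab (hil : i ≤ l) (hκ : Split l κ) (T : Finset ι) :
    (st i (eT l κ T)).card = ∑ a ∈ T, (st i (cext l κ a)).card := by
  rw [← Finset.card_biUnion]
  · congr 1
    ext v
    rw [mem_biUnion, mem_st]
    constructor
    · rintro ⟨h1, h2⟩
      have h3 := mem_eT.1 h1 v le_rfl (by omega)
      exact ⟨κ v, h3, mem_st.2 ⟨mem_cext_of_le hκ (by omega) rfl, h2⟩⟩
    · rintro ⟨a, ha, hv⟩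
      obtain ⟨h1, h2⟩ := mem_st.1 hv
      exact ⟨cext_sub_eT ha h1, h2⟩
  · intro a _ b _ hab
    rw [Function.onFun, disjoint_left]
    intro v hv hv'
    exact disjoint_left.1 (disj_cext hab) (mem_st.1 hv).1 (mem_st.1 hv').1

lemma tC_zero_of {C : Finset P} (h : AdmL i e → AdmU i e → Disjoint (AL i e) (AU i e) → False) :
    tC i C e = 0 := by
  unfold tC
  by_cases hd : Disjoint (AL i e) (AU i e)
  · rw [if_pos hd]
    unfold cw
    by_cases hA : AdmL i e ∧ AdmU i e
    · exact (h hA.1 hA.2 hd).elim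
    · rw [if_neg hA, zero_mul]
  · rw [if_neg hd]

lemma coeff_dd {N m : ℕ} {f : A} (h : dd ^ N ∣ f) (hm : PowerSeries.coeff m f ≠ 0) : N ≤ m := by
  by_contra h0
  exact hm ((PowerSeries.X_pow_dvd_iff.1 h) m (by omega))

/-- THE CROSS SERIES in coefficient form, for labels with a star, labels with a charge `C` (`P6`)
and light labels with three sites (`S0`) -/
theorem cross_slope (H : Gr P r) (hir : i ≤ r) (hq : NoQ P (i + 2))
    (hg : ∀ m, m + 1 = i → Good P m) (hκ : Split (i + 1) κ) (hM : Mat P i K psi)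
    {T S0 P6 : Finset ι} {C : ℕ}
    (hK : ∀ a ∈ T, a ∉ P6 → Star i (cext (i + 1) κ a) K)
    (hC : ∀ e : P → ℕ, Disjoint (AL i e) (AU i e) → ∀ a ∈ T, a ∈ P6 → Cap i κ K e a C)
    (h3 : ∀ t ∈ S0, (st i (cext (i + 1) κ t)).card ≤ 3)
    (hl : ∀ t ∈ S0, ∀ z y v, SD i κ z y v → κ v = t → ∀ k ∈ K, κ k = t →
      ¬ Disjoint (ns i k) (uc v))
    (h06 : Disjoint S0 P6) {n m : ℕ}
    (hne : PowerSeries.coeff m (PowerSeries.coeff n (Ut.XS i (i + 1) κ T)) ≠ 0) :
    6 * ∑ a ∈ T, (st i (cext (i + 1) κ a)).card + (S0 ∩ T).card ≤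
      4 * n + 6 * m + 2 * C * (P6 ∩ T).card := by
  classical
  rw [XS_eq_XT] at hne
  have hT' : ∀ e : P → ℕ, Tch (i + 1) κ e = T → ∀ a ∈ T, Tou i κ e a := by
    intro e h3 a ha
    rw [← h3, mem_Tch] at ha
    obtain ⟨z, z1, z2, z3⟩ := ha
    exact ⟨z, z2, z1, z3⟩
  -- the number of the touched light labels
  have hn : (S0 ∩ T).card ≤ 4 * n + 2 * C * (P6 ∩ T).card := by
    by_contra hlt
    apply hne
    have h0 : PowerSeries.coeff n (XT i κ T (fun _ => True)) = 0 := by
      unfold XT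
      rw [coeff_ZQ]
      refine Finset.sum_eq_zero fun e he => tC_zero_of fun hL _ _ => ?_
      simp only [Finset.mem_filter, mem_pa'] at he
      obtain ⟨⟨h1, -⟩, h2, -⟩ := he
      have h4 := card_touch H hκ hq hL (hT' e h2)
      have h5 : (DxD i e).card ≤ ∑ x, e x := by
        rw [Finset.card_eq_sum_ones]
        refine le_trans (Finset.sum_le_sum fun x hx => (mem_DxD.1 hx).1) ?_
        exact Finset.sum_le_sum_of_subset (subset_univ _)
      have h6 : (S0 ∩ T).card ≤ T.card := card_le_card inter_subset_right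
      omega
    rw [h0, map_zero]
  obtain ⟨M, hM1, hM2⟩ : ∃ M : ℕ, 6 * M + (S0 ∩ T).card ≤ 4 * n + 2 * C * (P6 ∩ T).card ∧
      4 * n + 2 * C * (P6 ∩ T).card < 6 * M + (S0 ∩ T).card + 6 :=
    ⟨(4 * n + 2 * C * (P6 ∩ T).card - (S0 ∩ T).card) / 6, by omega, by omega⟩
  have key : dd ^ ((st i (eT (i + 1) κ T)).card - M) ∣
      PowerSeries.coeff n (XT i κ T (fun _ => True)) := by
    refine XT_dvd H hir hq hg hκ hM (fun _ _ _ => Iff.rfl) ?_
    intro e h1 h2 h4 _ hL hU hd
    have hs : ∀ x, lev x ≤ i + 1 → 1 ≤ e x → κ x ∈ T := by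
      intro x hx h0
      have h4 : x ∈ eT (i + 1) κ T := by
        by_contra h5
        have := h2 x h5
        omega
      exact mem_eT.1 h4 x le_rfl hx
    have h5 := cross_cnt H hir hq hg hκ hM hK (hC e hd) h3 hl h06 (hT' e h4) hs hL hU hd
    rw [h1] at h5
    omega
  have h1 := coeff_dd key hne
  rw [card_st_lab (by omega) hκ] at h1
  omega

end Pool.Agent.GaussPoset.Win.K2

end
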