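import Mathlib
import Pool.Agent.W_448zz_h61.Ns
import Pool.Agent.W_448zz_h61.M088
import Pool.Agent.W_448zz_h61.M097
import Pool.Agent.W_448zz_h61.M113
import Pool.Agent.W_448zz_h61.M147

/-! From `Pool.Agent.W_448pn_h63.PnJ` -/

section

/-!
# Pinned window sums as sums over cores (MP_448cb3_co, G2, case B, window j - 1)

The exchange keeps the pins if the exchangeable elements are pinned at most once.
-/

set_option autoImplicit false

namespace Pool.Agent.GaussPoset.Win.Pn

set_option linter.unusedSectionVars false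

open Finset W4

universe u

variable {P : Type u} [Fintype P] [PartialOrder P] [DecidableEq P] {r i : ℕ}
variable {e f : P → ℕ} {psi : P → P} {C K : Finset P} {t : P → ℕ} {d x : P}

/-- pins away from the window -/
def Far (i : ℕ) (t : P → ℕ) : Prop := ∀ w, 1 ≤ t w → i + 2 ≤ lev w

lemma Far.zero (ht : Far i t) {w : P} (hw : lev w < i + 2) : t w = 0 := by
  by_contra h
  have := ht w (by omega)
  omega

open Classical in
/-- THE PINNED WINDOW SUM as a sum over cores -/
theorem ZP_cores (H : Gr P r) (hir : i ≤ r) (K : Finset P) (psi : P → P) (hC : Part i C)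
    (ht : Far i t) (n : ℕ) :
    ZP i C t n = ∑ q ∈ range (n + 1), ∑ e ∈ (C.piAntidiag q).filter
      (fun e => IsCore i K psi e ∧ Pin C t e), JK i K psi C (n - q) e := by
  unfold ZP
  rw [Finset.sum_filter, group_K H (fun e => if Pin C t e then tC i C e else 0) i K psi C n]
  refine Finset.sum_congr rfl fun q _ => ?_
  have hs : (C.piAntidiag q).filter (fun e => IsCore i K psi e ∧ Pin C t e) =
      ((C.piAntidiag q).filter (IsCore i K psi)).filter (Pin C t) := by
    rw [Finset.filter_filter]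
  rw [hs, Finset.sum_filter (p := Pin C t)]
  refine Finset.sum_congr rfl fun e he => ?_
  rw [mem_filter, I2.mem_pa] at he
  obtain ⟨⟨h1, h2⟩, h3⟩ := he
  have hp : ∀ l ∈ (RK i K psi C e).piAntidiag (n - q), (Pin C t (e + l) ↔ Pin C t e) := by
    intro l hl
    rw [I2.mem_pa] at hl
    unfold Pin
    refine forall_congr' fun w => imp_congr_right fun _ => ?_
    rcases Nat.lt_or_ge (lev w) (i + 2) with hw | hw
    · rw [ht.zero hw]
      simp
    · have : l w = 0 := hl.2 w (fun h => by
        have := mem_near.1 (RK_near h)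
        omega)
      rw [Pi.add_apply, this, add_zero]
  split_ifs with hP
  · rw [Xg.JK_sum H hir hC h2 h3]
    exact Finset.sum_congr rfl fun l hl => if_pos ((hp l hl).2 hP)
  · exact Finset.sum_eq_zero fun l hl => if_neg (fun h => hP ((hp l hl).1 h))

/-- the environment of a part -/
structure Env (r i : ℕ) (psi : P → P) (C : Finset P) : Prop where
  H : Gr P r
  hi : 1 ≤ i
  hi2 : i + 1 ≤ r
  hM : Mat P i ∅ psi
  hC : Part (i + 1) C

lemma Env.part (E : Env r i psi C) : Part i C :=
  ⟨fun h1 h2 => E.hC.up h1 h2, fun h1 h2 h3 => E.hC.dn h1 (by omega) h3⟩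

/-- exchangeable elements are pinned at most once -/
def Once (i : ℕ) (C : Finset P) (t : P → ℕ) : Prop := ∀ w ∈ C, TeeL i w → t w ≤ 1

section frame

variable (E : Env r i psi C) (ht : Far i t)
include E ht

end frame

end Pool.Agent.GaussPoset.Win.Pn

end

/-! From `Pool.Agent.W_448rd_h10.RdI` -/

section

/-!
MP_448cb3_co, G2, window `j - 1`: the inequality of slope two for all cores.  helper10.
-/

namespace Pool.Agent.GaussPoset.Win.Rd

set_option linter.unusedSectionVars false

open Finset I2 K2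
open Pool.Agent.GaussPoset.Win.H2 (SdT NoT low_T up_T sum_all BLx BUx Full full_T slL_nonneg
  slU_nonneg)

universe u

variable {P : Type u} [Fintype P] [PartialOrder P] [DecidableEq P] {r i : ℕ} {e : P → ℕ}
variable {psi : P → P}
variable (G : GoodTo P r (i + 1)) (hT : NoT P (i + 2)) (hM : Mat P i ∅ psi)
  (hL : AdmL i e) (hU : AdmU i e) (hd : Disjoint (AL i e) (AU i e)) (hc : IsCore i ∅ psi e)

include hM hc in
/-- a core has no simple edges -/
lemma SK_empty : K2.SK i ∅ psi e = ∅ := by
  classical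
  rw [eq_empty_iff_forall_notMem]
  intro y hy
  rw [mem_SK] at hy
  obtain ⟨h1, -, S⟩ := hy
  rw [mem_dbL'] at h1
  obtain ⟨p1, p2, p3⟩ := psiL hM h1.1 h1.2
  have t1 : y ∉ Tch i e := by
    unfold Tch
    rw [mem_filter]
    rintro ⟨-, ⟨-, z, hz, hz2⟩ | ⟨h, -⟩⟩
    · have := S.lo z (mem_dc.2 hz)
      omega
    · omega
  have t2 : psi y ∉ Tch i e := by
    unfold Tch
    rw [mem_filter]
    rintro ⟨-, ⟨h, -⟩ | ⟨-, z, hz, hz2⟩⟩
    · omega
    · have := S.up z (mem_uc.2 hz)
      omega
  have r1 : y ∈ Rst i ∅ psi e := by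
    unfold Rst near
    rw [mem_filter, mem_filter]
    exact ⟨⟨mem_univ _, Or.inl h1.1⟩, notMem_empty _, t1, fun h => t2 h.2⟩
  have r2 : psi y ∈ Rst i ∅ psi e := by
    unfold Rst near
    rw [mem_filter, mem_filter]
    exact ⟨⟨mem_univ _, Or.inr p1.1⟩, notMem_empty _, t2, fun h => t1 (p3 ▸ h.2)⟩
  have := hc y r1
  have := hc _ r2
  have := S.one
  omega

include G hT hM hL hU hd hc in
/-- THE INEQUALITY OF SLOPE TWO FOR ALL CORES -/
theorem half : 2 * (((AL i e).card : ℤ) + (AU i e).card) ≤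
    ∑ x, (e x : ℤ) + 2 * ((pL i e : ℤ) + pU i e) := by
  classical
  have hir : i ≤ r := by
    have := G.hr
    omega
  have hg : ∀ m, m + 1 = i → Good P m := fun m hm => G.good m (by omega)
  obtain ⟨ZL, XL, ZU, XU, fL, fU, F⟩ := full_T G.H hir hT hg hM hL hU hd
  have h1 := F.ineq
  rw [SK_empty hM hc] at h1
  have h2 : (K2.KB i ∅ e).card = 0 := by
    rw [card_eq_zero, eq_empty_iff_forall_notMem]
    intro y hy
    rw [mem_KB] at hy
    exact notMem_empty _ hy.1
  rw [h2] at h1
  have h3 : 0 ≤ ∑ z ∈ lS P i, H2.slL i e ZL z := by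
    apply sum_nonneg
    intro z hz
    exact slL_nonneg G.H hT hL F.low (mem_lS.1 hz)
  have h4 : 0 ≤ ∑ z ∈ uS P i, H2.slU i e ZU z := by
    apply sum_nonneg
    intro z hz
    exact slU_nonneg G.H hir hg hU F.upp (mem_uS.1 hz)
  have hdj : Disjoint XL XU := by
    rw [disjoint_left]
    intro x hx hx'
    obtain ⟨lx, ex, ⟨y, hy⟩, hall, -⟩ := F.low.xx x hx
    obtain ⟨-, -, -, hall', -⟩ := F.upp.xx x hx'
    have hb := (hall y hy).1
    unfold bL at hb
    rw [mem_bd] at hb
    obtain ⟨hyS, ty, ey, ⟨a, ha, hlt⟩, hcc⟩ := hb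
    rw [mem_lS] at hyS
    have ty' : lev y = i + 1 := by
      have : lev y - i = 1 := ty
      omega
    have cy := (K2.cc_eq_two (K2.side_low (i := i) G.H hT.noQ) hcc).1
    obtain ⟨p1, p2, p3⟩ := psiL hM ty' cy
    have hpx : psi y ∈ uc x := by
      rw [mem_uc, ← mem_dc, p2]
      exact mem_uc.2 (mem_dc.1 hy)
    have hb' := (hall' _ hpx).1
    unfold bU at hb'
    rw [mem_bd] at hb'
    have ep : e (psi y) = 1 := hb'.2.2.1
    have hla := lev_uc G.H ha
    refine not_both (e := e) hd (x := a) (by omega) (mem_dc.2 (mem_uc.1 ha)) (u := psi y) ?_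
      ⟨hlt, by omega⟩
    rw [mem_uc, ← mem_dc, p2]
    exact ha
  have h5 : ((XL.card : ℤ) + XU.card) ≤ ∑ x ∈ lv P i, (e x : ℤ) := by
    have hsub : XL ∪ XU ⊆ lv P i := by
      intro x hx
      rw [mem_union] at hx
      rw [mem_lv]
      rcases hx with hx | hx
      · exact (F.low.xx x hx).1
      · exact (F.upp.xx x hx).1
    calc ((XL.card : ℤ) + XU.card) = ∑ x ∈ XL ∪ XU, (1 : ℤ) := by
          rw [sum_const, card_union_of_disjoint hdj]
          simp
      _ ≤ ∑ x ∈ XL ∪ XU, (e x : ℤ) := by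
          apply sum_le_sum
          intro x hx
          rw [mem_union] at hx
          rcases hx with hx | hx
          · exact_mod_cast (F.low.xx x hx).2.1
          · exact_mod_cast (F.upp.xx x hx).2.1
      _ ≤ _ := by
          apply sum_le_sum_of_subset_of_nonneg hsub
          intro x _ _
          omega
  unfold H2.EE at h1
  rw [card_empty] at h1
  push_cast at h1
  linarith

end Pool.Agent.GaussPoset.Win.Rd

end

/-! From `Pool.Agent.W_448pn_h63.PnK` -/

section

/-!
# The frame for pinned window sums (MP_448cb3_co, G2, case B, window j - 1)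
-/

set_option autoImplicit false

namespace Pool.Agent.GaussPoset.Win.Pn

set_option linter.unusedSectionVars false

open Finset W4
open Pool.Agent.GaussPoset.Win.H2 (NoT)
open Pool.Agent.GaussPoset.Win.Xg (Okc kp CanD)
open Pool.Agent.GaussPoset.Win.Rd (P1L P1U TWL TWU GS)

universe u

variable {P : Type u} [Fintype P] [PartialOrder P] [DecidableEq P] {r i : ℕ}
variable {e f : P → ℕ} {psi : P → P} {C K : Finset P} {t : P → ℕ} {d x : P}

/-! ### the frame -/

/-- the facts about the window -/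
structure Fr (r i : ℕ) (psi : P → P) (C : Finset P) : Prop where
  E : Env r i psi C
  G : GoodTo P r (i + 1)
  hT : NoT P (i + 2)
  hQ : K2.NoQ P (i + 3)

/-- the number of exceptional elements -/
noncomputable def nb (i : ℕ) (psi : P → P) (e : P → ℕ) : ℕ :=
  (P1L i psi e).card + (P1U i psi e).card + (TWL i e).card + (TWU i e).card +
    (GS i psi e).card

section fr

variable (F : Fr r i psi C)
include F

lemma Fr.half (h : Okc i psi C e) : 2 * kp i e ≤ ∑ x, (e x : ℤ) := by
  have := Rd.half F.G F.hT F.E.hM h.adm.l h.adm.u h.adm.d h.core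
  unfold kp
  linarith

lemma Fr.gen (h : Okc i psi C e) (hs : ∑ x, e x ≤ 8) :
    3 * (kp i e - (Xg.CC i e).card) + (Xg.CC i e).card ≤ (∑ x, e x : ℕ) + (nb i psi e : ℤ) := by
  have h1 := Rd.general9 F.G F.hT F.hQ F.E.hM h.adm.l h.adm.u h.adm.d h.core (by omega)
  obtain ⟨h2, -⟩ := Rd.TWx_card (i := i) (e := e)
  unfold kp nb
  push_cast
  linarith

/-- the order of the pinned sums -/
theorem Fr.hp (ht : Far i t) : HP (st i C).card (ZPS i C t) := by
  classical
  intro n hn
  have hi2 := F.E.hi2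
  rw [coeff_ZPS, ZP_cores F.E.H (by omega) ∅ psi F.E.part ht n, mul_sum]
  refine dvd_sum fun q hq => ?_
  rw [mul_sum]
  refine dvd_sum fun e he => ?_
  rw [mem_range] at hq
  rw [mem_filter, I2.mem_pa] at he
  obtain ⟨⟨h1, h2⟩, h3, h4⟩ := he
  by_cases ha : Xg.Adm i e
  · have h5 := F.half (e := e) ⟨h2, h3, ha⟩
    have h6 : ∑ x, (e x : ℤ) = q := by
      rw [← h1]
      push_cast
      rfl
    rw [h6] at h5
    have h7 := JK_dvd F.E.H F.E.hi hi2 F.E.hM F.E.hC (Rk_of_cheap ((ha.cheap (k := n / 2)).2 (by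
      push_cast
      omega))) (n - q)
    refine dvd_trans ?_ (mul_dvd_mul_left _ h7)
    rw [← pow_add]
    exact pow_dvd_pow _ (by omega)
  · rw [Xg.JK_bad ∅ ha, mul_zero]
    exact dvd_zero _

end fr

open Classical in
/-- the tight pinned cores -/
noncomputable def TT (i : ℕ) (psi : P → P) (C : Finset P) (t : P → ℕ) (n k : ℕ) :
    Finset (P → ℕ) :=
  (C.piAntidiag n).filter (fun e => Okc i psi C e ∧ Pin C t e ∧ kp i e = k ∧ Xg.CC i e = ∅)

lemma mem_TT {n k : ℕ} : e ∈ TT i psi C t n k ↔ ∑ x, e x = n ∧ Okc i psi C e ∧ Pin C t e ∧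
    kp i e = k ∧ Xg.CC i e = ∅ := by
  classical
  unfold TT
  rw [mem_filter, I2.mem_pa]
  constructor
  · rintro ⟨⟨h1, h2⟩, h3⟩
    exact ⟨h1, h3⟩
  · rintro ⟨h1, h3⟩
    exact ⟨⟨h1, h3.1.spt⟩, h3⟩

section frame

variable (E : Env r i psi C) (ht : Far i t)
include E ht

lemma Pin_xc (h1 : Once i C t) (hp : Pin C t e) (h : CanD i e d x) : Pin C t (Kd.xc d x e) := by
  have hlv := h.lvl E.H
  intro w hw
  by_cases hwd : w = d
  · subst hwd
    rw [Kd.xc_d]
    rcases h with ⟨w1, w2, p, q, T, Ex, hr⟩ | ⟨w1, w2, p, q, T, Ex, hr⟩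
    · have := h1 w hw ⟨w1, w2, p, x, q, T⟩
      omega
    · have l1 := T.ld
      unfold Xg.laU at l1
      rw [ht.zero (by omega)]
      exact Nat.zero_le _
  · by_cases hwx : w = x
    · subst hwx
      rw [ht.zero (by omega)]
      exact Nat.zero_le _
    · rw [Kd.xc_of hwd hwx]
      exact hp w hw

/-- THE FRAME FOR PINNED SUMS -/
theorem pframe (h1 : Once i C t) {n K : ℕ}
    (hA : ∀ e, Okc i psi C e → Pin C t e → ∑ z, e z ≤ n → kp i e ≤ K + (Xg.CC i e).card ∨
      (∑ z, e z = n ∧ kp i e = (K + 1 : ℕ) ∧ Xg.CC i e = ∅)) :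
    dd ^ ((st i C).card - K) ∣ ZP i C t n - ∑ e ∈ TT i psi C t n (K + 1), tC i C e := by
  classical
  have hi2 := E.hi2
  have hir : i ≤ r := by omega
  have hs : ∀ x ∈ C, lev x = i → (uc x).card ≤ 2 ∧ (dc x).card ≤ 2 :=
    fun x _ _ => ⟨uc_card_le E.H x, dc_card_le E.H x⟩
  rw [ZP_cores E.H hir ∅ psi E.part ht n, sum_range_succ, Nat.sub_self, add_sub_assoc]
  refine dvd_add (dvd_sum fun q hq => ?_) ?_
  · rw [mem_range] at hq
    have h0 : ∑ e ∈ (C.piAntidiag q).filter (fun e => IsCore i ∅ psi e ∧ Pin C t e),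
        JK i ∅ psi C (n - q) e =
        ∑ e ∈ ((C.piAntidiag q).filter (fun e => IsCore i ∅ psi e ∧ Pin C t e)).filter (Xg.Adm i),
          JK i ∅ psi C (n - q) e := by
      symm
      refine sum_filter_of_ne fun e _ hne => ?_
      by_contra hcon
      exact hne (Xg.JK_bad ∅ hcon _)
    rw [h0]
    have hm : ∀ e, e ∈ ((C.piAntidiag q).filter
        (fun e => IsCore i ∅ psi e ∧ Pin C t e)).filter (Xg.Adm i) ↔
        ∑ z, e z = q ∧ Okc i psi C e ∧ Pin C t e := by
      intro e
      rw [mem_filter, mem_filter, I2.mem_pa]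
      constructor
      · rintro ⟨⟨⟨a1, a2⟩, a3, a5⟩, a4⟩
        exact ⟨a1, ⟨a2, a3, a4⟩, a5⟩
      · rintro ⟨a1, ⟨a2, a3, a4⟩, a5⟩
        exact ⟨⟨⟨a1, a2⟩, a3, a5⟩, a4⟩
    refine Xg.class_dvd E.H E.hi hi2 E.hM E.hC hs (fun e he => ?_) (fun e he d x hd => ?_) _
    · rw [hm] at he
      refine ⟨he.2.1, ?_⟩
      rcases hA e he.2.1 he.2.2 (by omega) with h | h
      · exact h
      · omega
    · rw [hm] at he ⊢
      exact ⟨by rw [hd.sumU E.H]; exact he.1, he.2.1.xc E.H E.part hd,
        Pin_xc E ht h1 he.2.2 hd⟩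
  · have h0 : ∑ e ∈ (C.piAntidiag n).filter (fun e => IsCore i ∅ psi e ∧ Pin C t e),
        JK i ∅ psi C 0 e =
        ∑ e ∈ (C.piAntidiag n).filter (fun e => Okc i psi C e ∧ Pin C t e), tC i C e := by
      have h1 : ∀ e ∈ (C.piAntidiag n).filter (fun e => IsCore i ∅ psi e ∧ Pin C t e),
          JK i ∅ psi C 0 e = tC i C e := by
        intro e he
        rw [mem_filter, I2.mem_pa] at he
        exact JK_zero E.H hir E.part he.1.2
      rw [sum_congr rfl h1]
      refine (sum_subset ?_ ?_).symm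
      · intro e he
        rw [mem_filter] at he ⊢
        exact ⟨he.1, he.2.1.core, he.2.2⟩
      · intro e he hne
        rw [mem_filter] at he hne
        by_contra hcon
        refine hne ⟨he.1, ⟨(I2.mem_pa.1 he.1).2, he.2.1, ?_⟩, he.2.2⟩
        by_contra ha
        exact hcon (Xg.tC_bad ha)
    rw [h0]
    set S := (C.piAntidiag n).filter (fun e => Okc i psi C e ∧ Pin C t e) with hS
    have hmS : ∀ e, e ∈ S ↔ ∑ z, e z = n ∧ Okc i psi C e ∧ Pin C t e := by
      intro e
      rw [hS, mem_filter, I2.mem_pa]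
      constructor
      · rintro ⟨⟨a1, -⟩, a2⟩
        exact ⟨a1, a2⟩
      · rintro ⟨a1, a2⟩
        exact ⟨⟨a1, a2.1.spt⟩, a2⟩
    have hsplit : ∑ e ∈ S, tC i C e = ∑ e ∈ TT i psi C t n (K + 1), tC i C e +
        ∑ e ∈ S.filter (fun e => ¬ (kp i e = (K + 1 : ℕ) ∧ Xg.CC i e = ∅)), tC i C e := by
      rw [← sum_filter_add_sum_filter_not S (fun e => kp i e = (K + 1 : ℕ) ∧ Xg.CC i e = ∅)]
      congr 1
      refine sum_congr ?_ fun _ _ => rfl
      ext e
      rw [mem_filter, hmS, mem_TT]
      tauto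
    rw [hsplit, add_sub_cancel_left]
    have h4 : ∀ e ∈ S.filter (fun e => ¬ (kp i e = (K + 1 : ℕ) ∧ Xg.CC i e = ∅)),
        tC i C e = JK i ∅ psi C 0 e := by
      intro e he
      rw [mem_filter, hmS] at he
      exact (JK_zero E.H hir E.part he.1.2.1.spt).symm
    rw [sum_congr rfl h4]
    refine Xg.class_dvd E.H E.hi hi2 E.hM E.hC hs (fun e he => ?_) (fun e he d x hd => ?_) _
    · rw [mem_filter, hmS] at he
      refine ⟨he.1.2.1, ?_⟩
      rcases hA e he.1.2.1 he.1.2.2 (le_of_eq he.1.1) with h | ⟨-, h5, h6⟩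
      · exact h
      · exact absurd ⟨h5, h6⟩ he.2
    · rw [mem_filter, hmS] at he ⊢
      obtain ⟨⟨g1, g2, g4⟩, g3⟩ := he
      refine ⟨⟨by rw [hd.sumU E.H]; exact g1, g2.xc E.H E.part hd, Pin_xc E ht h1 g4 hd⟩, ?_⟩
      rw [hd.kp E.H g2.adm, Xg.CC_xc E.H g2.adm.l g2.adm.u hd]
      exact g3

/-- THE LEADING COEFFICIENT of a pinned sum -/
theorem hc_TT (h1 : Once i C t) {n K : ℕ} (hn : n / 2 = K + 1)
    (hA : ∀ e, Okc i psi C e → Pin C t e → ∑ z, e z ≤ n → kp i e ≤ K + (Xg.CC i e).card ∨
      (∑ z, e z = n ∧ kp i e = (K + 1 : ℕ) ∧ Xg.CC i e = ∅)) :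
    hc n (st i C).card (ZPS i C t) = ∑ e ∈ TT i psi C t n (K + 1),
      PowerSeries.coeff (st i C).card (dd ^ (K + 1) * tC i C e : A) := by
  have h2 := pframe E ht h1 hA
  unfold hc
  rw [coeff_ZPS, hn]
  have h3 : dd ^ (K + 1) * ZP i C t n = dd ^ (K + 1) * (ZP i C t n -
      ∑ e ∈ TT i psi C t n (K + 1), tC i C e) + ∑ e ∈ TT i psi C t n (K + 1),
        dd ^ (K + 1) * tC i C e := by
    rw [← mul_sum]
    ring
  rw [h3, map_add, map_sum]
  have h4 : PowerSeries.coeff (st i C).card (dd ^ (K + 1) * (ZP i C t n -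
      ∑ e ∈ TT i psi C t n (K + 1), tC i C e) : A) = 0 := by
    apply I2.coeff_eq_zero_of_dvd
    refine dvd_trans ?_ (mul_dvd_mul_left _ h2)
    rw [← pow_add]
    exact pow_dvd_pow _ (by omega)
  rw [h4, zero_add]

end frame

end Pool.Agent.GaussPoset.Win.Pn

end

/-! From `Pool.Agent.W_448pn_h63.PnL` -/

section

/-!
# The pendant blocks of the tight cores (MP_448cb3_co, G2, case B, window j - 1)
-/

set_option autoImplicit false

namespace Pool.Agent.GaussPoset.Win.Pn

set_option linter.unusedSectionVars false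

open Finset W4
open Pool.Agent.GaussPoset.Win.H2 (NoT)
open Pool.Agent.GaussPoset.Win.Xg (Okc kp CanD)
open Pool.Agent.GaussPoset.Win.Rd (P1L P1U TWL TWU GS Hyp hypL hypU)
open Pool.Agent.GaussPoset.Win.SO (con PN on mem_PN)

universe u

/-- a pendant block -/
structure Blk {P : Type u} [DecidableEq P] (c c' : P → Finset P) (e : P → ℕ) (y p v v' : P) : Prop where
  cy : c y = {v, v'}
  ne : v ≠ v'
  cp : c p = {y}
  e1 : e y = 1
  e2 : e p = 1
  ev : e v = 0
  ev' : e v' = 0
  nv : ∀ z ∈ c' v, z ≠ y → e z = 0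
  nv' : ∀ z ∈ c' v', z ≠ y → e z = 0
  ny : ∀ z ∈ c' y, z ≠ p → e z = 0

section abs

variable {P : Type u} [DecidableEq P]
variable {c c' : P → Finset P} {e : P → ℕ} {t : P → ℕ} {V Sd BG EX : Finset P}
variable (H : Hyp c c' e t V Sd BG EX)
include H

lemma p1_blk {y : P} (hy : y ∈ Rd.P1 c c' e t Sd BG) :
    ∃ p v v', Blk c c' e y p v v' ∧ y ∈ Sd ∧ t y = 1 := by
  obtain ⟨hD, hN, p, hp, hp1, hcp, hz⟩ := H.p1_spec hy
  obtain ⟨yS, -, ty, cy⟩ := Rd.mem_Dd.1 hD
  obtain ⟨v, v', hne, hc⟩ := card_eq_two.1 cy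
  obtain ⟨a1, a2, a3, a4, a5⟩ := H.n4a_spec hD hN hc hne
  exact ⟨p, v, v', ⟨hc, hne, hcp, a1, hp1, a2, a3, a4, a5, hz⟩, yS, ty⟩

end abs

variable {P : Type u} [Fintype P] [PartialOrder P] [DecidableEq P] {r i : ℕ}
variable {e f : P → ℕ} {psi : P → P} {C K : Finset P} {t : P → ℕ} {d x : P}

/-- the pendants of the part have common sites -/
def Meet (i : ℕ) (C : Finset P) : Prop :=
  ∀ p ∈ PN i C, ∀ p' ∈ PN i C, p ≠ p' → ¬ Disjoint (sit i p) (sit i p')

/-- as many pendants below the window as above -/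
def Bal (i : ℕ) (C : Finset P) : Prop :=
  (C.filter (· ∈ PD P i)).card = (C.filter (· ∈ PU P i)).card

lemma mem_of_pos (hs : Spt C e) {z : P} (h : 1 ≤ e z) : z ∈ C := by
  by_contra h1
  have := hs z h1
  omega

section fr

variable (F : Fr r i psi C)
include F

lemma Fr.gs (h : Okc i psi C e) (hcc : Xg.CC i e = ∅) :
    5 * ((TWL i e).card + (TWU i e).card) + 2 * ((P1L i psi e).card + (P1U i psi e).card) +
      5 * (GS i psi e).card ≤ ∑ x, e x :=
  Rd.energy_gs F.G F.hT F.hQ F.E.hM h.adm.l h.adm.u h.adm.d h.core hcc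

lemma Fr.blkL (h : Okc i psi C e) {y : P} (hy : y ∈ P1L i psi e) :
    ∃ p v v', Blk uc dc e y p v v' ∧ lev y = i + 1 ∧ p ∈ PD P i ∧ p ∈ C := by
  have hL := hypL F.G F.hT F.hQ F.E.hM h.adm.l h.adm.u h.adm.d h.core
  obtain ⟨p, v, v', B, yS, ty⟩ := p1_blk hL (y := y) (by
    unfold P1L at hy
    exact Rd.P1s_sub hy)
  have hl : lev y = i + 1 := by
    rw [I2.mem_lS] at yS
    omega
  have h1 := lev_uc F.E.H (show y ∈ uc p by rw [B.cp]; simp)
  refine ⟨p, v, v', B, hl, mem_PD.2 ⟨by omega, by rw [B.cp]; simp, y,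
    mem_uc.1 (by rw [B.cp]; simp), by rw [B.cy, card_pair B.ne]⟩, mem_of_pos h.spt ?_⟩
  rw [B.e2]

lemma Fr.blkU (h : Okc i psi C e) {y : P} (hy : y ∈ P1U i psi e) :
    ∃ p v v', Blk dc uc e y p v v' ∧ lev y + 1 = i ∧ p ∈ PU P i ∧ p ∈ C := by
  have hU := hypU F.G F.hT F.E.hM h.adm.l h.adm.u h.adm.d h.core
  obtain ⟨p, v, v', B, yS, ty⟩ := p1_blk hU (y := y) (by
    unfold P1U at hy
    exact Rd.P1s_sub hy)
  have hl : lev y + 1 = i := by
    rw [I2.mem_uS] at yS
    omega
  have h1 := lev_dc F.E.H (show y ∈ dc p by rw [B.cp]; simp)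
  refine ⟨p, v, v', B, hl, mem_PU.2 ⟨by omega, by rw [B.cp]; simp, y,
    mem_dc.1 (by rw [B.cp]; simp), by rw [B.cy, card_pair B.ne]⟩, mem_of_pos h.spt ?_⟩
  rw [B.e2]

end fr

lemma sit_PDs (H : Gr P r) {p y : P} (hp : p ∈ PD P i) (hc : uc p = {y}) : sit i p = uc y :=
  SO.sit_PD H (mem_PD.1 hp).1 hc

lemma sit_PUs (H : Gr P r) {p y : P} (hp : p ∈ PU P i) (hc : dc p = {y}) : sit i p = dc y :=
  SO.sit_PU H (mem_PU.1 hp).1 hc

section one

variable (F : Fr r i psi C) (hm : Meet i C)
include F hm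

/-- at most one pendant block -/
lemma Fr.p1_le (h : Okc i psi C e) :
    (P1L i psi e).card + (P1U i psi e).card ≤ 1 := by
  classical
  have H := F.E.H
  have hLL : ∀ y ∈ P1L i psi e, ∀ y' ∈ P1L i psi e, y = y' := by
    intro y hy y' hy'
    obtain ⟨p, v, v', B, ly, hp, hpC⟩ := F.blkL h hy
    obtain ⟨p', w, w', B', ly', hp', hpC'⟩ := F.blkL h hy'
    by_contra hne
    have hpp : p ≠ p' := by
      rintro rfl
      have := B.cp.symm.trans B'.cp
      exact hne (singleton_injective this)
    refine hm p (mem_PN.2 ⟨hpC, Or.inl hp⟩) p' (mem_PN.2 ⟨hpC', Or.inl hp'⟩) hpp ?_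
    rw [sit_PDs H hp B.cp, sit_PDs H hp' B'.cp, disjoint_left]
    intro a ha ha'
    have m : y' ∈ dc a := mem_dc.2 (mem_uc.1 ha')
    rw [B.cy, mem_insert, mem_singleton] at ha
    rcases ha with rfl | rfl
    · have := B.nv y' m (Ne.symm hne)
      rw [B'.e1] at this
      omega
    · have := B.nv' y' m (Ne.symm hne)
      rw [B'.e1] at this
      omega
  have hUU : ∀ y ∈ P1U i psi e, ∀ y' ∈ P1U i psi e, y = y' := by
    intro y hy y' hy'
    obtain ⟨p, v, v', B, ly, hp, hpC⟩ := F.blkU h hy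
    obtain ⟨p', w, w', B', ly', hp', hpC'⟩ := F.blkU h hy'
    by_contra hne
    have hpp : p ≠ p' := by
      rintro rfl
      have := B.cp.symm.trans B'.cp
      exact hne (singleton_injective this)
    refine hm p (mem_PN.2 ⟨hpC, Or.inr hp⟩) p' (mem_PN.2 ⟨hpC', Or.inr hp'⟩) hpp ?_
    rw [sit_PUs H hp B.cp, sit_PUs H hp' B'.cp, disjoint_left]
    intro a ha ha'
    have m : y' ∈ uc a := mem_uc.2 (mem_dc.1 ha')
    rw [B.cy, mem_insert, mem_singleton] at ha
    rcases ha with rfl | rfl
    · have := B.nv y' m (Ne.symm hne)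
      rw [B'.e1] at this
      omega
    · have := B.nv' y' m (Ne.symm hne)
      rw [B'.e1] at this
      omega
  have hLU : ∀ y ∈ P1L i psi e, ∀ y' ∈ P1U i psi e, False := by
    intro y hy y' hy'
    obtain ⟨p, v, v', B, ly, hp, hpC⟩ := F.blkL h hy
    obtain ⟨p', w, w', B', ly', hp', hpC'⟩ := F.blkU h hy'
    have hpp : p ≠ p' := by
      rintro rfl
      have := (mem_PD.1 hp).1
      have := (mem_PU.1 hp').1
      omega
    refine hm p (mem_PN.2 ⟨hpC, Or.inl hp⟩) p' (mem_PN.2 ⟨hpC', Or.inr hp'⟩) hpp ?_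
    rw [sit_PDs H hp B.cp, sit_PUs H hp' B'.cp, disjoint_left]
    intro a ha ha'
    have e0 : e a = 0 := by
      rw [B.cy, mem_insert, mem_singleton] at ha
      rcases ha with rfl | rfl
      · exact B.ev
      · exact B.ev'
    have hl := lev_uc H ha
    have m1 : a ∈ AL i e := by
      rw [NormD_mem_AL]
      exact ⟨by omega, y, mem_uc.1 ha, by rw [B.e1, e0]; omega⟩
    have m2 : a ∈ AU i e := by
      rw [NormD_mem_AU]
      exact ⟨by omega, y', mem_dc.1 ha', by rw [B'.e1, e0]; omega⟩
    exact disjoint_left.1 h.adm.d m1 m2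
  have c1 : (P1L i psi e).card ≤ 1 := card_le_one.2 hLL
  have c2 : (P1U i psi e).card ≤ 1 := card_le_one.2 hUU
  by_contra hcon
  obtain ⟨y, hy⟩ := card_pos.1 (show 0 < (P1L i psi e).card by omega)
  obtain ⟨y', hy'⟩ := card_pos.1 (show 0 < (P1U i psi e).card by omega)
  exact hLU y hy y' hy'

/-- THE HYPOTHESIS OF THE FRAME -/
lemma Fr.cost {n K : ℕ} (hn : n / 2 = K + 1) (h8 : n ≤ 8) (h3 : n ≠ 3)
    (h : Okc i psi C e) (hE : ∑ z, e z ≤ n) : kp i e ≤ K + (Xg.CC i e).card ∨
      (∑ z, e z = n ∧ kp i e = (K + 1 : ℕ) ∧ Xg.CC i e = ∅) := by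
  have h1 := F.half h
  have hc : ((∑ x, e x : ℕ) : ℤ) = ∑ x, (e x : ℤ) := by push_cast; rfl
  rw [← hc] at h1
  rcases (Xg.CC i e).eq_empty_or_nonempty with hcc | hcc
  · have h2 := F.gen h (by omega)
    have h4 := F.gs h hcc
    have h5 := F.p1_le hm h
    have hz : (Xg.CC i e).card = 0 := by rw [hcc, card_empty]
    rw [hz] at h2 ⊢
    unfold nb at h2
    push_cast at h2 ⊢
    by_cases hE' : ∑ z, e z = n
    · by_cases hk : kp i e = K + 1
      · exact Or.inr ⟨hE', hk, hcc⟩
      · left
        omega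
    · left
      omega
  · left
    have := card_pos.2 hcc
    omega

end one

/-! ### leading coefficients -/

/-- the sign of a configuration -/
noncomputable def sgn (i : ℕ) (e : P → ℕ) : ℤ :=
  (-1) ^ (aL i e + aU i e + pU i e + (AL i e).card)

/-- the term of an admissible configuration -/
lemma tC_form (ha : Xg.Adm i e) :
    tC i C e = dd ^ (pL i e + pU i e + ((st i C).card - (AL i e).card - (AU i e).card)) *
      (xx ^ aL i e * xi ^ (aU i e + pU i e) * xx ^ (AL i e).card) := by
  unfold tC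
  rw [if_pos ha.d]
  unfold cw
  rw [if_pos ⟨ha.l, ha.u⟩, pow_add dd]
  ring

/-- the leading coefficient of a term -/
theorem lead (H : Gr P r) (hC : Part i C) (he : Spt C e) (ha : Xg.Adm i e) {k : ℕ}
    (hk : kp i e = k) : PowerSeries.coeff (st i C).card (dd ^ k * tC i C e : A) = sgn i e := by
  have hle : (AL i e).card + (AU i e).card ≤ (st i C).card := by
    rw [← card_union_of_disjoint ha.d]
    exact card_le_card (union_subset (AL_sub hC he) (AU_sub H hC he))
  unfold kp at hk
  rw [tC_form ha, ← mul_assoc, ← pow_add, show k + (pL i e + pU i e +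
    ((st i C).card - (AL i e).card - (AU i e).card)) = (st i C).card by omega]
  unfold dd
  rw [PowerSeries.coeff_X_pow_mul', if_pos le_rfl, Nat.sub_self,
    PowerSeries.coeff_zero_eq_constantCoeff_apply, map_mul, map_mul, map_pow, map_pow, map_pow,
    cc_xx, cc_xi]
  unfold sgn
  rw [← pow_add, ← pow_add]
  congr 1
  ring

section values

variable (F : Fr r i psi C) (hm : Meet i C) (ht : Far i t) (h1 : Once i C t)
include F hm ht h1

/-- THE LEADING COEFFICIENT of a pinned sum: the signs of the tight cores -/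
theorem Fr.top {n K : ℕ} (hn : n / 2 = K + 1) (h8 : n ≤ 8) (h3 : n ≠ 3) :
    hc n (st i C).card (ZPS i C t) = ∑ e ∈ TT i psi C t n (K + 1), sgn i e := by
  rw [hc_TT F.E ht h1 hn (fun e he _ hE => F.cost hm hn h8 h3 he hE)]
  refine Finset.sum_congr rfl fun e he => ?_
  obtain ⟨a1, a2, a3, a4, a5⟩ := mem_TT.1 he
  exact lead F.E.H F.E.part a2.spt a2.adm a4

/-- no tight cores for even energies -/
lemma Fr.tt_even {m : ℕ} (h2 : 2 ≤ m) (h4 : m ≤ 4) : TT i psi C t (2 * m) m = ∅ := by
  rw [eq_empty_iff_forall_notMem]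
  intro e he
  obtain ⟨a1, a2, a3, a4, a5⟩ := mem_TT.1 he
  have g1 := F.gen a2 (by omega)
  have g2 := F.gs a2 a5
  have g3 := F.p1_le hm a2
  rw [a5, card_empty, a4, a1] at g1
  rw [a1] at g2
  unfold nb at g1
  push_cast at g1
  omega

end values

end Pool.Agent.GaussPoset.Win.Pn

end

/-! From `Pool.Agent.W_448pn_h63.PnM` -/

section

/-!
# The even leading coefficients of the pinned sums (MP_448cb3_co, G2, case B, window j - 1)
-/

set_option autoImplicit false

namespace Pool.Agent.GaussPoset.Win.Pn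

set_option linter.unusedSectionVars false

open Finset W4
open Pool.Agent.GaussPoset.Win.H2 (NoT)
open Pool.Agent.GaussPoset.Win.Xg (Okc kp CanD)
open Pool.Agent.GaussPoset.Win.Rd (P1L P1U TWL TWU GS Hyp hypL hypU)
open Pool.Agent.GaussPoset.Win.SO (con PN on mem_PN Cls BL BU nL nU mem_con self_con)

universe u

variable {P : Type u} [Fintype P] [PartialOrder P] [DecidableEq P] {r i : ℕ}
variable {e f : P → ℕ} {psi : P → P} {C K s : Finset P} {t : P → ℕ} {d x p : P}

/-! ### labels one -/

lemma on_one {y : P} (h : y ∈ s) : on s y = 1 := by unfold SO.on; rw [if_pos h]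

lemma on_zero {y : P} (h : y ∉ s) : on s y = 0 := by unfold SO.on; rw [if_neg h]

lemma on_le {y : P} : on s y ≤ 1 := by unfold SO.on; split_ifs <;> omega

lemma on_pos {y : P} : 1 ≤ on s y ↔ y ∈ s := by
  by_cases h : y ∈ s
  · rw [on_one h]; simp [h]
  · rw [on_zero h]; simp [h]

lemma on_empty : (on (∅ : Finset P) : P → ℕ) = 0 := by
  funext y
  rw [on_zero (notMem_empty y)]
  rfl

/-- near elements of `s` are touched -/
lemma core_on (h : ∀ y ∈ s, (lev y = i + 1 → ∃ z ∈ s, z ⋖ y) ∧ (lev y + 1 = i → ∃ z ∈ s, y ⋖ z)) :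
    IsCore i ∅ psi (on s) := by
  intro y hy
  by_contra h0
  have hys : y ∈ s := on_pos.1 (by omega)
  obtain ⟨h1, h2, h3, -⟩ := mem_Rst.1 hy
  apply h3
  rw [mem_Tch]
  rcases mem_near.1 h1 with h4 | h4
  · obtain ⟨z, hz, hzy⟩ := (h y hys).1 h4
    exact Or.inl ⟨h4, z, hzy, by rw [on_one hz]; omega⟩
  · obtain ⟨z, hz, hzy⟩ := (h y hys).2 h4
    exact Or.inr ⟨h4, z, hzy, by rw [on_one hz]; omega⟩

section one

variable (E : Env r i psi C)
include E

lemma adm_on (hs : Cls i s) (hd : Disjoint (BL i s) (BU i s)) : Xg.Adm i (on s) := by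
  obtain ⟨a1, a2, a3, a4, a5, a6, a7, a8⟩ := SO.on_data E.H E.hi E.hi2 hs
  exact ⟨a1, a2, by rw [a7, a8]; exact hd⟩

lemma kp_on (hs : Cls i s) : kp i (on s) =
    ((BL i s).card : ℤ) + (BU i s).card - (nL i s).card - (nU i s).card := by
  obtain ⟨a1, a2, a3, a4, a5, a6, a7, a8⟩ := SO.on_data E.H E.hi E.hi2 hs
  unfold kp
  rw [a5, a6, a7, a8]

lemma sgn_on (hs : Cls i s) : sgn i (on s) = (-1) ^ ((BL i s).card + (nU i s).card) := by
  obtain ⟨a1, a2, a3, a4, a5, a6, a7, a8⟩ := SO.on_data E.H E.hi E.hi2 hs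
  unfold sgn
  rw [a3, a4, a6, a7]
  congr 1
  omega

/-- nothing can be exchanged without an exchangeable element -/
lemma cc_none (h : ∀ d, 1 ≤ e d → (lev d = i + 2 → (uc d).card ≤ 1) ∧
    (lev d + 2 = i → (dc d).card ≤ 1)) : Xg.CC i e = ∅ := by
  rw [eq_empty_iff_forall_notMem]
  rintro ⟨d, x⟩ hdx
  have hc : CanD i e d x := (Xg.mem_CC E.H).1 hdx
  have hl := hc.lvl E.H
  rcases hc with ⟨w, w2, p, q, T, Ex, -⟩ | ⟨w, w2, p, q, T, Ex, -⟩
  · have h1 := (h d Ex.pos).1 (by have := T.ld; unfold Xg.laL at this; omega)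
    rw [T.ud, card_pair T.ne] at h1
    omega
  · have h1 := (h d Ex.pos).2 (by have := T.ld; unfold Xg.laU at this; omega)
    rw [T.ud, card_pair T.ne] at h1
    omega

lemma PN_cases (hp : p ∈ PN i C) : ∃ y, con i p = {p, y} ∧ p ≠ y ∧
    ((lev p = i + 2 ∧ lev y = i + 1 ∧ uc p = {y} ∧ (uc y).card = 2 ∧ p ∈ PD P i) ∨
      (lev p + 2 = i ∧ lev y + 1 = i ∧ dc p = {y} ∧ (dc y).card = 2 ∧ p ∈ PU P i)) := by
  obtain ⟨hC, h | h⟩ := mem_PN.1 hp
  · obtain ⟨y, h1, h2, h3, h4, -⟩ := SO.PD_data E.H h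
    exact ⟨y, SO.con_PD E.H h2 h1, by rintro rfl; omega, Or.inl ⟨h2, h3, h1, h4, h⟩⟩
  · obtain ⟨y, h1, h2, h3, h4, -⟩ := SO.PU_data E.H h
    exact ⟨y, SO.con_PU E.H h2 h1, by rintro rfl; omega, Or.inr ⟨h2, h3, h1, h4, h⟩⟩

/-- the pendant block is a tight core -/
lemma bk_TT (hp : p ∈ PN i C) (hP : Pin C t (on (con i p))) :
    on (con i p) ∈ TT i psi C t 2 1 ∧ sgn i (on (con i p)) = SO.vp i p := by
  obtain ⟨y, hc, hne, hyp⟩ := PN_cases E hp
  have N := SO.num_PN E.H hp
  have hcls := SO.con_cls E.H N.ns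
  have hnum := N.num
  have hdj : Disjoint (BL i (con i p)) (BU i (con i p)) := by
    rcases Nat.lt_or_gt_of_ne N.ns with h | h
    · rw [SO.BL_con_upp E.H h]; exact disjoint_empty_left _
    · rw [SO.BU_con_low E.H h]; exact disjoint_empty_right _
  refine ⟨mem_TT.2 ⟨?_, ⟨?_, ?_, adm_on E hcls hdj⟩, hP, ?_, ?_⟩, ?_⟩
  · rw [SO.on_sum, N.cd]
  · exact SO.on_spt (SO.con_sub E.H E.hC N.mC N.ns)
  · apply core_on
    intro z hz
    rw [hc, mem_insert, mem_singleton] at hz
    rcases hyp with ⟨l1, l2, h1, -, -⟩ | ⟨l1, l2, h1, -, -⟩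
    · refine ⟨fun h => ?_, fun h => ?_⟩
      · rcases hz with rfl | rfl
        · omega
        · exact ⟨p, by rw [hc]; simp, mem_uc.1 (by rw [h1]; simp)⟩
      · rcases hz with rfl | rfl <;> omega
    · refine ⟨fun h => ?_, fun h => ?_⟩
      · rcases hz with rfl | rfl <;> omega
      · rcases hz with rfl | rfl
        · omega
        · exact ⟨p, by rw [hc]; simp, mem_dc.1 (by rw [h1]; simp)⟩
  · rw [kp_on E hcls]
    push_cast
    omega
  · apply cc_none E
    intro d hd
    have hd' := on_pos.1 hd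
    rw [hc, mem_insert, mem_singleton] at hd'
    rcases hyp with ⟨l1, l2, h1, -, -⟩ | ⟨l1, l2, h1, -, -⟩
    · rcases hd' with rfl | rfl
      · exact ⟨fun _ => by rw [h1]; simp, fun _ => by omega⟩
      · exact ⟨fun _ => by omega, fun _ => by omega⟩
    · rcases hd' with rfl | rfl
      · exact ⟨fun _ => by omega, fun _ => by rw [h1]; simp⟩
      · exact ⟨fun _ => by omega, fun _ => by omega⟩
  · rw [sgn_on E hcls, N.sgn]

lemma bk_inj {p' : P} (hp : p ∈ PN i C) (hp' : p' ∈ PN i C)
    (h : (on (con i p) : P → ℕ) = on (con i p')) : p = p' := by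
  obtain ⟨y, hc, hne, hyp⟩ := PN_cases E hp
  obtain ⟨y', hc', hne', hyp'⟩ := PN_cases E hp'
  have h1 : 1 ≤ on (con i p') p := by
    rw [← h]
    exact on_pos.2 (by rw [hc]; simp)
  have h2 := on_pos.1 h1
  rw [hc', mem_insert, mem_singleton] at h2
  rcases h2 with h2 | rfl
  · exact h2
  · omega

/-- pins of a block -/
lemma pin_bk (ht : Far i t) (hp : p ∈ PN i C) :
    Pin C t (on (con i p)) ↔ ∀ w ∈ pns C t, w = p ∧ t w = 1 := by
  obtain ⟨y, hc, hne, hyp⟩ := PN_cases E hp
  constructor
  · intro h w hw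
    obtain ⟨h1, h2⟩ := mem_pns.1 hw
    have h3 := h w h1
    have h4 := on_pos.1 (h2.trans h3)
    have h5 := ht w h2
    have h6 : on (con i p) w ≤ 1 := on_le
    rw [hc, mem_insert, mem_singleton] at h4
    refine ⟨?_, by omega⟩
    rcases h4 with h4 | rfl
    · exact h4
    · omega
  · intro h w hw
    by_cases h1 : 1 ≤ t w
    · obtain ⟨rfl, h2⟩ := h w (mem_pns.2 ⟨hw, h1⟩)
      rw [h2, on_one (by rw [hc]; simp)]
    · omega

end one

section two

variable (F : Fr r i psi C) (hm : Meet i C) (ht : Far i t)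
include F hm ht

/-- the tight cores of energy two -/
lemma tt_two {e : P → ℕ} (he : e ∈ TT i psi C t 2 1) :
    ∃ p ∈ PN i C, e = on (con i p) := by
  obtain ⟨a1, a2, a3, a4, a5⟩ := mem_TT.1 he
  have g1 := F.gen a2 (by omega)
  have g2 := F.gs a2 a5
  rw [a5, card_empty, a4, a1] at g1
  rw [a1] at g2
  unfold nb at g1
  push_cast at g1
  have h1 : 0 < (P1L i psi e).card ∨ 0 < (P1U i psi e).card := by omega
  have key : ∀ p y : P, p ≠ y → e y = 1 → e p = 1 → e = on {p, y} := by
    intro p y hne h2 h3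
    funext z
    by_cases hz : z ∈ ({p, y} : Finset P)
    · rw [on_one hz]
      rw [mem_insert, mem_singleton] at hz
      rcases hz with rfl | rfl <;> assumption
    · rw [on_zero hz]
      have h4 : ∑ x ∈ insert z ({p, y} : Finset P), e x ≤ ∑ x, e x :=
        sum_le_sum_of_subset (subset_univ _)
      rw [sum_insert hz, Finset.sum_pair hne, a1] at h4
      omega
  rcases h1 with h1 | h1
  · obtain ⟨y, hy⟩ := card_pos.1 h1
    obtain ⟨p, v, v', B, ly, hp, hpC⟩ := F.blkL a2 hy
    have lp := (mem_PD.1 hp).1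
    refine ⟨p, mem_PN.2 ⟨hpC, Or.inl hp⟩, ?_⟩
    rw [SO.con_PD F.E.H lp B.cp]
    exact key p y (by rintro rfl; omega) B.e1 B.e2
  · obtain ⟨y, hy⟩ := card_pos.1 h1
    obtain ⟨p, v, v', B, ly, hp, hpC⟩ := F.blkU a2 hy
    have lp := (mem_PU.1 hp).1
    refine ⟨p, mem_PN.2 ⟨hpC, Or.inr hp⟩, ?_⟩
    rw [SO.con_PU F.E.H lp B.cp]
    exact key p y (by rintro rfl; omega) B.e1 B.e2

open Classical in
/-- THE COEFFICIENT of the energy two -/
theorem hc_two (h1 : Once i C t) : hc 2 (st i C).card (ZPS i C t) =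
    ∑ p ∈ (PN i C).filter (fun p => ∀ w ∈ pns C t, w = p ∧ t w = 1), SO.vp i p := by
  rw [F.top hm ht h1 (n := 2) (K := 0) rfl (by omega) (by omega)]
  have h2 : TT i psi C t 2 (0 + 1) = ((PN i C).filter
      (fun p => ∀ w ∈ pns C t, w = p ∧ t w = 1)).image (fun p => on (con i p)) := by
    ext e
    rw [mem_image]
    constructor
    · intro he
      obtain ⟨p, hp, rfl⟩ := tt_two F hm ht he
      refine ⟨p, mem_filter.2 ⟨hp, ?_⟩, rfl⟩
      exact (pin_bk F.E ht hp).1 (mem_TT.1 he).2.2.1
    · rintro ⟨p, hp, rfl⟩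
      rw [mem_filter] at hp
      exact (bk_TT F.E hp.1 ((pin_bk F.E ht hp.1).2 hp.2)).1
  rw [h2, Finset.sum_image]
  · refine Finset.sum_congr rfl fun p hp => ?_
    rw [mem_filter] at hp
    exact (bk_TT F.E hp.1 ((pin_bk F.E ht hp.1).2 hp.2)).2
  · intro p hp p' hp' h
    exact bk_inj F.E (mem_filter.1 hp).1 (mem_filter.1 hp').1 h

/-- THE COEFFICIENT of the energy zero -/
theorem hc_zero : hc 0 (st i C).card (ZPS i C t) = if pns C t = ∅ then 1 else 0 := by
  classical
  unfold hc
  rw [coeff_ZPS, Nat.zero_div, pow_zero, one_mul]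
  unfold ZP
  rw [Finset.piAntidiag_zero, Finset.filter_singleton]
  have h1 : Pin C t 0 ↔ pns C t = ∅ := by
    rw [eq_empty_iff_forall_notMem]
    constructor
    · intro h w hw
      obtain ⟨h2, h3⟩ := mem_pns.1 hw
      have := h w h2
      rw [Pi.zero_apply] at this
      omega
    · intro h w hw
      by_contra h2
      rw [Pi.zero_apply] at h2
      exact h w (mem_pns.2 ⟨hw, by omega⟩)
  simp only [h1]
  split_ifs with h
  · rw [sum_singleton]
    have hcl : Cls i (∅ : Finset P) := ⟨by simp, by simp, by simp⟩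
    have hb : BL i (∅ : Finset P) = ∅ := by
      rw [eq_empty_iff_forall_notMem]
      intro v hv
      obtain ⟨-, x, hx, -⟩ := SO.mem_BL.1 hv
      exact notMem_empty _ hx
    have hu : BU i (∅ : Finset P) = ∅ := by
      rw [eq_empty_iff_forall_notMem]
      intro v hv
      obtain ⟨-, x, hx, -⟩ := SO.mem_BU.1 hv
      exact notMem_empty _ hx
    have hnL : nL i (∅ : Finset P) = ∅ := by
      rw [eq_empty_iff_forall_notMem]
      intro v hv
      exact notMem_empty _ (SO.mem_nL.1 hv).1
    have hnU : nU i (∅ : Finset P) = ∅ := by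
      rw [eq_empty_iff_forall_notMem]
      intro v hv
      exact notMem_empty _ (SO.mem_nU.1 hv).1
    have ha : Xg.Adm i (0 : P → ℕ) := by
      rw [← on_empty]
      exact adm_on F.E hcl (by rw [hb]; exact disjoint_empty_left _)
    have hk : kp i (0 : P → ℕ) = (0 : ℕ) := by
      rw [← on_empty, kp_on F.E hcl, hb, hu, hnL, hnU]
      simp
    have h2 := lead F.E.H F.E.part (C := C) (e := (0 : P → ℕ)) (fun _ _ => rfl) ha hk
    rw [pow_zero, one_mul] at h2
    rw [h2, ← on_empty, sgn_on F.E hcl, hb, hnU]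
    simp
  · rw [sum_empty, map_zero]

open Classical in
/-- THE EVEN LEADING COEFFICIENTS -/
theorem Fr.mo (hb : Bal i C) (h1 : Once i C t) : Mo (st i C).card (ZPS i C t) (pns C t).card
    (if Gd i C t then 1 else 0) where
  hp := F.hp ht
  ev := by
    intro m hm4
    rcases Nat.lt_or_ge m 2 with h2 | h2
    · rcases Nat.lt_or_ge m 1 with h3 | h3
      · obtain rfl : m = 0 := by omega
        rw [mul_zero, hc_zero F hm ht]
        by_cases h4 : pns C t = ∅
        · have h5 : Gd i C t := by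
            unfold Gd
            rw [h4]
            simp
          rw [if_pos h4, h4, card_empty, if_pos rfl, if_pos h5]
        · rw [if_neg h4, if_neg]
          intro h5
          exact h4 (card_eq_zero.1 h5.symm)
      · obtain rfl : m = 1 := by omega
        rw [mul_one, hc_two F hm ht h1]
        by_cases h4 : pns C t = ∅
        · rw [h4, card_empty, if_neg (by omega)]
          have h5 : (PN i C).filter (fun p => ∀ w ∈ (∅ : Finset P), w = p ∧ t w = 1) =
              PN i C := by
            apply filter_true_of_mem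
            intro p _ w hw
            exact absurd hw (notMem_empty _)
          rw [h5]
          have h6 : PN i C = C.filter (· ∈ PD P i) ∪ C.filter (· ∈ PU P i) := by
            unfold SO.PN
            rw [filter_or]
          have h7 : Disjoint (C.filter (· ∈ PD P i)) (C.filter (· ∈ PU P i)) := by
            rw [disjoint_left]
            intro p hp hp'
            have := (mem_PD.1 (mem_filter.1 hp).2).1
            have := (mem_PU.1 (mem_filter.1 hp').2).1
            omega
          rw [h6, sum_union h7, Finset.sum_congr rfl (fun p hp => SO.vp_PD (mem_filter.1 hp).2),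
            Finset.sum_congr rfl (fun p hp => SO.vp_PU (mem_filter.1 hp).2)]
          unfold Bal at hb
          rw [Finset.sum_const, Finset.sum_const, hb]
          simp
        · obtain ⟨w, hw⟩ := nonempty_iff_ne_empty.2 h4
          by_cases h5 : (pns C t).card = 1
          · obtain ⟨w', hw'⟩ := card_eq_one.1 h5
            rw [hw', mem_singleton] at hw
            subst hw
            have hwC := (mem_pns.1 (by rw [hw']; simp : w ∈ pns C t))
            have hfar := ht w hwC.2
            rw [h5, if_pos rfl]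
            by_cases h6 : Gd i C t
            · rw [if_pos h6]
              have h7 := h6.1 w (by rw [hw']; simp)
              have h8 : (PN i C).filter (fun p => ∀ w ∈ pns C t, w = p ∧ t w = 1) = {w} := by
                ext p
                rw [mem_filter, mem_singleton, hw']
                simp only [mem_singleton, forall_eq]
                constructor
                · rintro ⟨-, h, -⟩
                  exact h.symm
                · rintro rfl
                  exact ⟨mem_PN.2 ⟨hwC.1, Or.inl h7.2⟩, rfl, h7.1⟩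
              rw [h8, sum_singleton, SO.vp_PD h7.2]
            · rw [if_neg h6]
              apply Finset.sum_eq_zero
              intro p hp
              rw [mem_filter] at hp
              exfalso
              obtain ⟨rfl, h7⟩ := hp.2 w (by rw [hw']; simp)
              apply h6
              unfold Gd
              rw [hw']
              refine ⟨fun a ha => ?_, fun a ha b hb hab => ?_⟩
              · rw [mem_singleton] at ha
                subst ha
                refine ⟨h7, ?_⟩
                rcases (mem_PN.1 hp.1).2 with h | h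
                · exact h
                · have := (mem_PU.1 h).1
                  omega
              · rw [mem_singleton] at ha hb
                exact absurd (ha.trans hb.symm) hab
          · rw [if_neg (fun h => h5 h.symm)]
            apply Finset.sum_eq_zero
            intro p hp
            rw [mem_filter] at hp
            exfalso
            apply h5
            rw [card_eq_one]
            refine ⟨p, ?_⟩
            ext a
            rw [mem_singleton]
            constructor
            · exact fun ha => (hp.2 a ha).1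
            · rintro rfl
              have := (hp.2 w hw).1
              rwa [this] at hw
    · have h3 := F.top hm ht h1 (n := 2 * m) (K := m - 1) (by omega) (by omega) (by omega)
      rw [h3, show m - 1 + 1 = m by omega, F.tt_even hm ht h1 h2 hm4, sum_empty]
      by_cases h4 : m = (pns C t).card
      · rw [if_pos h4, if_neg]
        rintro ⟨g1, g2⟩
        have h5 : 1 < (pns C t).card := by omega
        obtain ⟨w, hw, w', hw', hne⟩ := one_lt_card.1 h5
        have p1 := g1 w hw
        have p2 := g1 w' hw'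
        refine hm w (mem_PN.2 ⟨(mem_pns.1 hw).1, Or.inl p1.2⟩) w'
          (mem_PN.2 ⟨(mem_pns.1 hw').1, Or.inl p2.2⟩) hne ?_
        rw [sit_low F.E.H (by have := (mem_PD.1 p1.2).1; omega),
          sit_low F.E.H (by have := (mem_PD.1 p2.2).1; omega)]
        exact g2 w hw w' hw' hne
      · rw [if_neg h4]

end two

end Pool.Agent.GaussPoset.Win.Pn

end

/-! From `Pool.Agent.W_448pn_h63.PnN` -/

section

/-!
# Labels one on closed sets with sites, and the removal of a pendant block
(MP_448cb3_co, G2, case B, window j - 1)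
-/

set_option autoImplicit false

namespace Pool.Agent.GaussPoset.Win.Pn

set_option linter.unusedSectionVars false

open Finset W4
open Pool.Agent.GaussPoset.Win.H2 (NoT)
open Pool.Agent.GaussPoset.Win.Xg (Okc kp CanD PBk rm rm_of rm_y rm_p rm_le laL laU)
open Pool.Agent.GaussPoset.Win.Rd (P1L P1U TWL TWU GS Hyp hypL hypU)
open Pool.Agent.GaussPoset.Win.SO (con PN on mem_PN Cls BL BU nL nU mem_con self_con LowD UppD)

universe u

variable {P : Type u} [Fintype P] [PartialOrder P] [DecidableEq P] {r i : ℕ}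
variable {e f : P → ℕ} {psi : P → P} {C K s : Finset P} {t : P → ℕ} {d x p : P}

/-! ### closed sets with sites -/

/-- `s` is closed towards the window -/
structure ClsS (i : ℕ) (s : Finset P) : Prop where
  lo : ∀ x ∈ s, i + 1 < lev x → ∀ y, x ⋖ y → y ∈ s
  up : ∀ x ∈ s, lev x + 1 < i → ∀ y, y ⋖ x → y ∈ s

open Classical in
/-- the killed sites, below -/
noncomputable def kLs (i : ℕ) (s : Finset P) : Finset P :=
  (lv P i).filter (fun v => v ∉ s ∧ ∃ x ∈ s, x ⋖ v)

open Classical in
/-- the killed sites, above -/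
noncomputable def kUs (i : ℕ) (s : Finset P) : Finset P :=
  (lv P i).filter (fun v => v ∉ s ∧ ∃ x ∈ s, v ⋖ x)

open Classical in
/-- the free near elements, below -/
noncomputable def fLs (i : ℕ) (s : Finset P) : Finset P :=
  s.filter (fun z => lev z = i + 1 ∧ ∀ y, z ⋖ y → y ∉ s)

open Classical in
/-- the free near elements, above -/
noncomputable def fUs (i : ℕ) (s : Finset P) : Finset P :=
  s.filter (fun z => lev z + 1 = i ∧ ∀ y, y ⋖ z → y ∉ s)

lemma mem_kLs {v : P} : v ∈ kLs i s ↔ lev v = i ∧ v ∉ s ∧ ∃ x ∈ s, x ⋖ v := by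
  classical
  unfold kLs
  rw [mem_filter, mem_lv]

lemma mem_kUs {v : P} : v ∈ kUs i s ↔ lev v = i ∧ v ∉ s ∧ ∃ x ∈ s, v ⋖ x := by
  classical
  unfold kUs
  rw [mem_filter, mem_lv]

lemma mem_fLs {z : P} : z ∈ fLs i s ↔ z ∈ s ∧ lev z = i + 1 ∧ ∀ y, z ⋖ y → y ∉ s := by
  classical
  unfold fLs
  rw [mem_filter]

lemma mem_fUs {z : P} : z ∈ fUs i s ↔ z ∈ s ∧ lev z + 1 = i ∧ ∀ y, y ⋖ z → y ∉ s := by
  classical
  unfold fUs
  rw [mem_filter]

lemma low_S (H : Gr P r) (hs : ClsS i s) : LowD i (on s) ∅ (fLs i s) (kLs i s) := by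
  have hk : ∀ z, i < lev z → ¬ FD (on s) z := by
    rintro z hz ⟨y, hy, hlt⟩
    have hl := lev_cov H hy
    have h1 : y ∈ s := by
      by_contra h
      rw [on_zero h] at hlt
      omega
    rw [on_one h1, on_one (hs.lo y h1 (by omega) z hy)] at hlt
    omega
  refine ⟨?_, ?_, ?_, ?_, ?_, fun v hv => (mem_kLs.1 hv).1⟩
  · intro z hz
    exact ⟨fun h => absurd h (hk z hz), fun h => absurd h (notMem_empty _)⟩
  · intro z hz
    rw [mem_kLs]
    constructor
    · rintro ⟨y, hy, hlt⟩
      have h1 : y ∈ s := by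
        by_contra h
        rw [on_zero h] at hlt
        omega
      refine ⟨hz, fun h => ?_, y, h1, hy⟩
      rw [on_one h, on_one h1] at hlt
      omega
    · rintro ⟨-, h, y, hy, hyz⟩
      exact ⟨y, hyz, by rw [on_zero h, on_one hy]; omega⟩
  · intro z hz
    rw [mem_fLs]
    constructor
    · rintro ⟨y, hy, hle⟩
      refine ⟨notMem_empty _, fun h => ?_⟩
      rw [on_one h.1, on_zero (h.2.2 y hy)] at hle
      omega
    · rintro ⟨-, h⟩
      by_cases hzs : z ∈ s
      · rcases Nat.lt_or_ge (i + 1) (lev z) with hl | hl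
        · obtain ⟨y, hy⟩ := uc_nonempty H (x := z) (by omega)
          have := hs.lo z hzs hl y (mem_uc.1 hy)
          exact ⟨y, mem_uc.1 hy, by rw [on_one hzs, on_one this]⟩
        · by_contra hgu
          apply h
          refine ⟨hzs, by omega, fun y hy hys => hgu ⟨y, hy, ?_⟩⟩
          rw [on_one hzs, on_one hys]
      · obtain ⟨y, hy⟩ := uc_nonempty H (x := z) (by omega)
        exact ⟨y, mem_uc.1 hy, by rw [on_zero hzs]; omega⟩
  · intro z hz
    exact absurd hz (notMem_empty _)
  · intro z hz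
    have := mem_fLs.1 hz
    exact ⟨by omega, notMem_empty _⟩

lemma upp_S (H : Gr P r) (hir : i ≤ r) (hs : ClsS i s) :
    UppD i (on s) ∅ (fUs i s) (kUs i s) := by
  have hne : ∀ z : P, lev z < i → ∃ y, y ⋖ z := by
    intro z hz
    obtain ⟨y, hy⟩ := dc_nonempty H (x := z) (by omega)
    exact ⟨y, mem_dc.1 hy⟩
  have hk : ∀ z, lev z < i → ¬ FU (on s) z := by
    rintro z hz ⟨y, hy, hlt⟩
    have hl := lev_cov H hy
    have h1 : y ∈ s := by
      by_contra h
      rw [on_zero h] at hlt
      omega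
    rw [on_one h1, on_one (hs.up y h1 (by omega) z hy)] at hlt
    omega
  refine ⟨?_, ?_, ?_, ?_, ?_, fun v hv => (mem_kUs.1 hv).1⟩
  · intro z hz
    exact ⟨fun h => absurd h (hk z hz), fun h => absurd h (notMem_empty _)⟩
  · intro z hz
    rw [mem_kUs]
    constructor
    · rintro ⟨y, hy, hlt⟩
      have h1 : y ∈ s := by
        by_contra h
        rw [on_zero h] at hlt
        omega
      refine ⟨hz, fun h => ?_, y, h1, hy⟩
      rw [on_one h, on_one h1] at hlt
      omega
    · rintro ⟨-, h, y, hy, hyz⟩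
      exact ⟨y, hyz, by rw [on_zero h, on_one hy]; omega⟩
  · intro z hz
    rw [mem_fUs]
    constructor
    · rintro ⟨y, hy, hle⟩
      refine ⟨notMem_empty _, fun h => ?_⟩
      rw [on_one h.1, on_zero (h.2.2 y hy)] at hle
      omega
    · rintro ⟨-, h⟩
      by_cases hzs : z ∈ s
      · rcases Nat.lt_or_ge (lev z + 1) i with hl | hl
        · obtain ⟨y, hy⟩ := hne z hz
          have := hs.up z hzs hl y hy
          exact ⟨y, hy, by rw [on_one hzs, on_one this]⟩
        · by_contra hgu
          apply h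
          refine ⟨hzs, by omega, fun y hy hys => hgu ⟨y, hy, ?_⟩⟩
          rw [on_one hzs, on_one hys]
      · obtain ⟨y, hy⟩ := hne z hz
        exact ⟨y, hy, by rw [on_zero hzs]; omega⟩
  · intro z hz
    exact absurd hz (notMem_empty _)
  · intro z hz
    have := mem_fUs.1 hz
    exact ⟨by omega, notMem_empty _⟩

section one

variable (E : Env r i psi C)
include E

lemma adm_S (hs : ClsS i s) (hd : Disjoint (kLs i s) (kUs i s)) : Xg.Adm i (on s) := by
  have D := low_S E.H hs
  have D' := upp_S E.H (by have := E.hi2; omega) hs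
  exact ⟨D.adm, D'.adm, by rw [D.AL_eq, D'.AU_eq]; exact hd⟩

lemma kp_S (hs : ClsS i s) : kp i (on s) =
    ((kLs i s).card : ℤ) + (kUs i s).card - (fLs i s).card - (fUs i s).card := by
  have D := low_S E.H hs
  have D' := upp_S E.H (by have := E.hi2; omega) hs
  unfold kp
  rw [D.AL_eq, D'.AU_eq, D.pL_eq, D'.pU_eq]

lemma sgn_S (hs : ClsS i s) : sgn i (on s) = (-1) ^ ((kLs i s).card + (fUs i s).card) := by
  have D := low_S E.H hs
  have D' := upp_S E.H (by have := E.hi2; omega) hs
  unfold sgn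
  rw [D.AL_eq, D.aL_eq, D'.aU_eq, D'.pU_eq, card_empty]
  congr 1
  omega

/-- labels one without sites: nothing can be exchanged -/
lemma cc_on (hs : Cls i s) : Xg.CC i (on s) = ∅ := by
  rw [eq_empty_iff_forall_notMem]
  rintro ⟨d, x⟩ hdx
  have hc : CanD i (on s) d x := (Xg.mem_CC E.H).1 hdx
  have hl := hc.lvl E.H
  have hx : on s x = 0 := on_zero (fun h => hs.ns x h hl.2.1)
  rcases hc with ⟨w, w2, p, q, T, Ex, -⟩ | ⟨w, w2, p, q, T, Ex, -⟩
  · have hd := on_pos.1 Ex.pos
    have ld : lev d = i + 2 := by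
      have := T.ld
      unfold laL at this
      omega
    have mw : w ∈ s := hs.lo d hd (by omega) w (mem_uc.1 (by rw [T.ud]; simp))
    have mw2 : w2 ∈ s := hs.lo d hd (by omega) w2 (mem_uc.1 (by rw [T.ud]; simp))
    rcases Ex.act with (h | h) | (h | h)
    · rw [on_one mw, on_one hd] at h; omega
    · rw [on_one mw, hx] at h; omega
    · rw [on_one mw2, on_one hd] at h; omega
    · rw [on_one mw2, hx] at h; omega
  · have hd := on_pos.1 Ex.pos
    have ld : lev d + 2 = i := by
      have := T.ld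
      unfold laU at this
      omega
    have mw : w ∈ s := hs.up d hd (by omega) w (mem_dc.1 (by rw [T.ud]; simp))
    have mw2 : w2 ∈ s := hs.up d hd (by omega) w2 (mem_dc.1 (by rw [T.ud]; simp))
    rcases Ex.act with (h | h) | (h | h)
    · rw [on_one mw, on_one hd] at h; omega
    · rw [on_one mw, hx] at h; omega
    · rw [on_one mw2, on_one hd] at h; omega
    · rw [on_one mw2, hx] at h; omega

end one

/-! ### removal of a block -/

lemma rm_add {y p : P} (h : y ≠ p) (h1 : e y = 1) (h2 : e p = 1) :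
    e = rm y p e + on {p, y} := by
  funext z
  rw [Pi.add_apply]
  by_cases hz : z = y
  · subst hz
    rw [rm_y, on_one (by simp), h1]
  · by_cases hz' : z = p
    · subst hz'
      rw [rm_p, on_one (by simp), h2]
    · rw [rm_of hz hz', on_zero (by simp [hz, hz']), add_zero]

lemma rm_sum {y p : P} (h : y ≠ p) (h1 : e y = 1) (h2 : e p = 1) :
    ∑ z, e z = ∑ z, rm y p e z + 2 := by
  have h3 := rm_add h h1 h2
  calc ∑ z, e z = ∑ z, (rm y p e + on {p, y}) z := by rw [← h3]
    _ = ∑ z, (rm y p e z + on {p, y} z) := rfl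
    _ = _ := by rw [sum_add_distrib, SO.on_sum, card_pair h.symm]

section remove

variable (F : Fr r i psi C)
include F

/-- REMOVAL of a lower pendant block -/
theorem rm_low (h : Okc i psi C e) {y p v v' : P} (B : PBk dc uc (laL i) y p v v' e) :
    Okc i psi C (rm y p e) ∧ kp i e = kp i (rm y p e) + 1 ∧ sgn i e = sgn i (rm y p e) ∧
      ∑ z, e z = ∑ z, rm y p e z + 2 ∧ e = rm y p e + on {p, y} := by
  have H := F.E.H
  have S := Xg.sideL H i
  obtain ⟨a1, a2, a3, a4, a5, a6, a7, a8⟩ := Xg.low_blk H B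
  have a9 := Xg.low_blk_AL H B
  have hlv := B.lv S
  have ly := B.ly
  unfold laL at hlv ly
  have hne : y ≠ p := by rintro rfl; omega
  refine ⟨⟨?_, ?_, ?_⟩, ?_, ?_, rm_sum hne B.e1 B.e2, rm_add hne B.e1 B.e2⟩
  · intro z hz
    have h1 := h.spt z hz
    have h2 := rm_le (y := y) (p := p) (e := e) (z := z)
    omega
  · -- a core
    obtain ⟨b1, b2, b3⟩ := Rd.psiL F.E.hM (by omega : lev y = i + 1)
      (by rw [B.uy, card_pair B.ne])
    have hpsi : e (psi y) = 0 := by
      by_contra h0
      have hv : v ∈ dc (psi y) := by rw [b2, B.uy]; simp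
      have m1 : v ∈ AL i e := by rw [a9]; simp
      have m2 : v ∈ AU i e := by
        rw [NormD_mem_AU]
        exact ⟨by omega, psi y, mem_dc.1 hv, by rw [B.ev]; omega⟩
      exact disjoint_left.1 h.adm.d m1 m2
    have htc : ∀ z, z ≠ y → z ∈ Tch i e → z ∈ Tch i (rm y p e) := by
      intro z hz hzt
      rw [mem_Tch] at hzt ⊢
      rcases hzt with ⟨l1, d, hd, hd1⟩ | ⟨l1, d, hd, hd1⟩
      · refine Or.inl ⟨l1, d, hd, ?_⟩
        have ld := lev_cov H hd
        rw [rm_of (by rintro rfl; omega) (by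
          rintro rfl
          have := mem_uc.2 hd
          rw [B.upp, mem_singleton] at this
          exact hz this)]
        exact hd1
      · refine Or.inr ⟨l1, d, hd, ?_⟩
        have ld := lev_cov H hd
        rw [rm_of (by rintro rfl; omega) (by rintro rfl; omega)]
        exact hd1
    intro z hz
    obtain ⟨c1, c2, c3, c4⟩ := mem_Rst.1 hz
    by_cases hzy : z = y
    · rw [hzy, rm_y]
    by_cases hzp : z = p
    · rw [hzp, rm_p]
    rw [rm_of hzy hzp]
    by_cases hzpsi : z = psi y
    · rw [hzpsi, hpsi]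
    apply h.core z
    refine mem_Rst.2 ⟨c1, c2, fun h1 => c3 (htc z hzy h1), ?_⟩
    rintro ⟨h1, h2⟩
    apply c4
    refine ⟨h1, htc _ ?_ h2⟩
    intro h3
    apply hzpsi
    rw [← h3, (F.E.hM.invol z h1 (notMem_empty _)).1]
  · refine ⟨a7.1 h.adm.l, a8.1 h.adm.u, ?_⟩
    rw [← a6]
    refine disjoint_of_subset_left ?_ h.adm.d
    rw [a9]
    exact (subset_insert _ _).trans (subset_insert _ _)
  · unfold kp
    rw [a2, a3, a5, a6]
    push_cast
    ring
  · unfold sgn
    rw [a1, a3, a4, a5, pow_add, pow_add, pow_add, pow_add, pow_add, pow_add, pow_add]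
    ring

/-- REMOVAL of an upper pendant block -/
theorem rm_upp (h : Okc i psi C e) {y p v v' : P} (B : PBk uc dc (laU i) y p v v' e) :
    Okc i psi C (rm y p e) ∧ kp i e = kp i (rm y p e) + 1 ∧ sgn i e = - sgn i (rm y p e) ∧
      ∑ z, e z = ∑ z, rm y p e z + 2 ∧ e = rm y p e + on {p, y} := by
  have H := F.E.H
  have S := Xg.sideU H i
  obtain ⟨a1, a2, a3, a4, a5, a6, a7, a8⟩ := Xg.upp_blk H B
  have a9 := Xg.upp_blk_AU H B
  have hlv := B.lv S
  have ly := B.ly
  unfold laU at hlv ly
  have hne : y ≠ p := by rintro rfl; omega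
  refine ⟨⟨?_, ?_, ?_⟩, ?_, ?_, rm_sum hne B.e1 B.e2, rm_add hne B.e1 B.e2⟩
  · intro z hz
    have h1 := h.spt z hz
    have h2 := rm_le (y := y) (p := p) (e := e) (z := z)
    omega
  · -- a core
    obtain ⟨b1, b2, b3⟩ := Rd.psiU F.E.hM (by omega : lev y + 1 = i)
      (by rw [B.uy, card_pair B.ne])
    have hpsi : e (psi y) = 0 := by
      by_contra h0
      have hv : v ∈ uc (psi y) := by rw [b2, B.uy]; simp
      have m1 : v ∈ AU i e := by rw [a9]; simp
      have m2 : v ∈ AL i e := by
        rw [NormD_mem_AL]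
        exact ⟨by omega, psi y, mem_uc.1 hv, by rw [B.ev]; omega⟩
      exact disjoint_left.1 h.adm.d m2 m1
    have htc : ∀ z, z ≠ y → z ∈ Tch i e → z ∈ Tch i (rm y p e) := by
      intro z hz hzt
      rw [mem_Tch] at hzt ⊢
      rcases hzt with ⟨l1, d, hd, hd1⟩ | ⟨l1, d, hd, hd1⟩
      · refine Or.inl ⟨l1, d, hd, ?_⟩
        have ld := lev_cov H hd
        rw [rm_of (by rintro rfl; omega) (by rintro rfl; omega)]
        exact hd1
      · refine Or.inr ⟨l1, d, hd, ?_⟩
        have ld := lev_cov H hd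
        rw [rm_of (by rintro rfl; omega) (by
          rintro rfl
          have := mem_dc.2 hd
          rw [B.upp, mem_singleton] at this
          exact hz this)]
        exact hd1
    intro z hz
    obtain ⟨c1, c2, c3, c4⟩ := mem_Rst.1 hz
    by_cases hzy : z = y
    · rw [hzy, rm_y]
    by_cases hzp : z = p
    · rw [hzp, rm_p]
    rw [rm_of hzy hzp]
    by_cases hzpsi : z = psi y
    · rw [hzpsi, hpsi]
    apply h.core z
    refine mem_Rst.2 ⟨c1, c2, fun h1 => c3 (htc z hzy h1), ?_⟩
    rintro ⟨h1, h2⟩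
    apply c4
    refine ⟨h1, htc _ ?_ h2⟩
    intro h3
    apply hzpsi
    rw [← h3, (F.E.hM.invol z h1 (notMem_empty _)).1]
  · refine ⟨a8.1 h.adm.l, a7.1 h.adm.u, ?_⟩
    rw [← a6]
    refine disjoint_of_subset_right ?_ h.adm.d
    rw [a9]
    exact (subset_insert _ _).trans (subset_insert _ _)
  · unfold kp
    rw [a2, a3, a5, a6]
    push_cast
    ring
  · unfold sgn
    rw [a1, a2, a4, a6, show aL i (rm y p e) + aU i (rm y p e) + (pU i (rm y p e) + 1) +
      (AL i (rm y p e)).card = (aL i (rm y p e) + aU i (rm y p e) + pU i (rm y p e) +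
      (AL i (rm y p e)).card) + 1 by ring, pow_succ]
    ring

end remove

end Pool.Agent.GaussPoset.Win.Pn

end

/-! From `Pool.Agent.W_448pn_h63.PnO` -/

section

/-!
# The cores of energy three without pendants (MP_448cb3_co, G2, case B, window j - 1)
-/

set_option autoImplicit false

namespace Pool.Agent.GaussPoset.Win.Pn

set_option linter.unusedSectionVars false

open Finset W4
open Pool.Agent.GaussPoset.Win.Xg (Okc kp)
open Pool.Agent.GaussPoset.Win.SO (con PN on mem_PN Cls BL BU nL nU mem_con self_con)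

universe u

variable {P : Type u} [Fintype P] [PartialOrder P] [DecidableEq P] {r i : ℕ}
variable {e f : P → ℕ} {psi : P → P} {C K s : Finset P} {t : P → ℕ} {d x p : P}

lemma eq_on (h1 : ∀ z ∈ s, 1 ≤ e z) (h2 : ∑ x, e x ≤ s.card) : e = on s := by
  have h3 : ∀ x, on s x ≤ e x := by
    intro x
    by_cases h : x ∈ s
    · rw [on_one h]; exact h1 x h
    · rw [on_zero h]; exact Nat.zero_le _
  have h4 : ∑ x, on s x = ∑ x, e x := by
    apply le_antisymm
    · exact sum_le_sum fun x _ => h3 x
    · rw [SO.on_sum]; exact h2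
  funext x
  exact ((Finset.sum_eq_sum_iff_of_le (fun x _ => h3 x)).1 h4 x (mem_univ x)).symm

lemma pos_low (H : Gr P r) (hL : AdmL i e) {z w : P} (hw : w ∈ uc z) (hl : i < lev w)
    (hz : 1 ≤ e z) : 1 ≤ e w := by
  by_contra h0
  obtain ⟨x, hx⟩ := uc_nonempty H (x := w) (by omega)
  exact hL w hl ⟨⟨z, mem_uc.1 hw, by omega⟩, x, mem_uc.1 hx, by omega⟩

lemma pos_upp (H : Gr P r) (hir : i ≤ r) (hU : AdmU i e) {z w : P} (hw : w ∈ dc z)
    (hl : lev w < i) (hz : 1 ≤ e z) : 1 ≤ e w := by
  by_contra h0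
  obtain ⟨x, hx⟩ := dc_nonempty H (x := w) (by omega)
  exact hU w hl ⟨⟨z, mem_dc.1 hw, by omega⟩, x, mem_dc.1 hx, by omega⟩

lemma apex_low (H : Gr P r) (hL : AdmL i e) {d : P} (hd : i + 2 ≤ lev d) (h : 1 ≤ e d) :
    ∃ z, lev z = i + 2 ∧ 1 ≤ e z := by
  obtain ⟨n, hn⟩ : ∃ n, lev d = i + 2 + n := ⟨lev d - (i + 2), by omega⟩
  induction n generalizing d with
  | zero => exact ⟨d, hn, h⟩
  | succ n ih =>
    obtain ⟨w, hw⟩ := uc_nonempty H (x := d) (by omega)
    have lw := lev_uc H hw
    exact ih (by omega) (pos_low H hL hw (by omega) h) (by omega)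

lemma apex_upp (H : Gr P r) (hir : i ≤ r) (hU : AdmU i e) {d : P} (hd : lev d + 2 ≤ i)
    (h : 1 ≤ e d) : ∃ z, lev z + 2 = i ∧ 1 ≤ e z := by
  obtain ⟨n, hn⟩ : ∃ n, lev d + 2 + n = i := ⟨i - (lev d + 2), by omega⟩
  induction n generalizing d with
  | zero => exact ⟨d, hn, h⟩
  | succ n ih =>
    obtain ⟨w, hw⟩ := dc_nonempty H (x := d) (by omega)
    have lw := lev_dc H hw
    exact ih (by omega) (pos_upp H hir hU hw (by omega) h) (by omega)

lemma free_low {z : P} (hz : i < lev z) (h1 : ¬ FD e z) (h2 : ¬ GU e z) : 1 ≤ pL i e := by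
  classical
  unfold pL
  exact card_pos.2 ⟨z, mem_filter.2 ⟨mem_univ _, hz, h1, h2⟩⟩

lemma free_upp {z : P} (hz : lev z < i) (h1 : ¬ FU e z) (h2 : ¬ GD e z) : 1 ≤ pU i e := by
  classical
  unfold pU
  exact card_pos.2 ⟨z, mem_filter.2 ⟨mem_univ _, hz, h1, h2⟩⟩

/-- a positive near element of a core is touched, or its partner is -/
lemma touched (hc : IsCore i ∅ psi e) {y : P} (hn : lev y = i + 1 ∨ lev y + 1 = i)
    (hy : 1 ≤ e y) : y ∈ Tch i e ∨ (y ∈ dbL P i ∪ dbU P i ∧ psi y ∈ Tch i e) := by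
  by_contra h
  push Not at h
  have := hc y (mem_Rst.2 ⟨mem_near.2 hn, notMem_empty _, h.1, fun h3 => h.2 h3.1 h3.2⟩)
  omega

lemma tch_far (hh : ∀ d : P, i + 2 ≤ lev d ∨ lev d + 2 ≤ i → e d = 0) (H : Gr P r) {y : P} :
    y ∉ Tch i e := by
  intro h
  rw [mem_Tch] at h
  rcases h with ⟨l1, d, hd, hd1⟩ | ⟨l1, d, hd, hd1⟩
  · have := lev_cov H hd
    have := hh d (by omega)
    omega
  · have := lev_cov H hd
    have := hh d (by omega)
    omega

/-- without far elements there is no deficit -/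
lemma no_far (F : Fr r i psi C) (h : Okc i psi C e)
    (hh : ∀ d : P, i + 2 ≤ lev d ∨ lev d + 2 ≤ i → e d = 0) : kp i e ≤ 0 := by
  have H := F.E.H
  have hn : ∀ y : P, lev y = i + 1 ∨ lev y + 1 = i → e y = 0 := by
    intro y hy
    by_contra h0
    rcases touched h.core hy (by omega) with h1 | h1
    · exact tch_far hh H h1
    · exact tch_far hh H h1.2
  have h1 : AL i e = ∅ := by
    rw [eq_empty_iff_forall_notMem]
    intro a ha
    rw [NormD_mem_AL] at ha
    obtain ⟨la, y, hy, hlt⟩ := ha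
    have := lev_cov H hy
    have := hn y (by omega)
    omega
  have h2 : AU i e = ∅ := by
    rw [eq_empty_iff_forall_notMem]
    intro a ha
    rw [NormD_mem_AU] at ha
    obtain ⟨la, y, hy, hlt⟩ := ha
    have := lev_cov H hy
    have := hn y (by omega)
    omega
  unfold kp
  rw [h1, h2, card_empty]
  push_cast
  omega

lemma sum_pair_le {a b : P} (h : a ≠ b) : e a + e b ≤ ∑ x, e x := by
  rw [← Finset.sum_pair h]
  exact sum_le_sum_of_subset (subset_univ _)

lemma sum_three_le {a b c : P} (h1 : a ≠ b) (h2 : a ≠ c) (h3 : b ≠ c) :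
    e a + e b + e c ≤ ∑ x, e x := by
  have h : ∑ x ∈ ({a, b, c} : Finset P), e x ≤ ∑ x, e x :=
    sum_le_sum_of_subset (subset_univ _)
  rw [sum_insert (by simp [h1, h2]), Finset.sum_pair h3] at h
  omega

lemma eq_on_three {a b c : P} (h1 : a ≠ b) (h2 : a ≠ c) (h3 : b ≠ c) (ha : 1 ≤ e a)
    (hb : 1 ≤ e b) (hc : 1 ≤ e c) (hs : ∑ x, e x = 3) : e = on {a, b, c} := by
  apply eq_on
  · intro z hz
    simp only [mem_insert, mem_singleton] at hz
    rcases hz with rfl | rfl | rfl <;> assumption
  · rw [card_insert_of_notMem (by simp [h1, h2]), card_pair h3, hs]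

section main

variable (F : Fr r i psi C)
include F

/-- energy three with a lower far element, no pendant -/
theorem e3_low (h : Okc i psi C e) (hE : ∑ x, e x = 3) (hk : kp i e = 1)
    (hno : ∀ p ∈ PN i C, e p = 0) {z : P} (lz : lev z = i + 2) (hz : 1 ≤ e z) :
    z ∈ ZL i C ∧ e = on (con i z) := by
  classical
  have H := F.E.H
  have hi2 := F.E.hi2
  have hzC := mem_of_pos h.spt hz
  obtain ⟨w, hw⟩ := uc_nonempty H (x := z) (by omega)
  have lw := lev_uc H hw
  have ew := pos_low H h.adm.l hw (by omega) hz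
  have hzw : z ≠ w := by rintro rfl; omega
  by_cases h2 : (uc z).card = 2
  · -- two covers
    obtain ⟨a, b, hab, hc⟩ := card_eq_two.1 h2
    have ma : a ∈ uc z := by rw [hc]; simp
    have mb : b ∈ uc z := by rw [hc]; simp
    have la := lev_uc H ma
    have lb := lev_uc H mb
    have ea := pos_low H h.adm.l ma (by omega) hz
    have eb := pos_low H h.adm.l mb (by omega) hz
    have hon := eq_on_three (by rintro rfl; omega) (by rintro rfl; omega) hab hz ea eb hE
    have hcon : con i z = {z, a, b} := by rw [SO.con_two_low H lz, hc]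
    rw [← hcon] at hon
    refine ⟨mem_ZL.2 ⟨hzC, lz, ?_⟩, hon⟩
    have hcls := SO.con_cls (i := i) H (z := z) (by omega)
    have h3 := kp_on F.E hcls
    rw [← hon, hk, SO.BL_con_low H (by omega), SO.BU_con_low H (by omega),
      SO.nU_con_low H (by omega), card_empty] at h3
    have h4 : nL i (con i z) = {a, b} := by
      ext y
      rw [SO.mem_nL, hcon]
      simp only [mem_insert, mem_singleton]
      constructor
      · rintro ⟨rfl | rfl | rfl, hl⟩
        · omega
        · exact Or.inl rfl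
        · exact Or.inr rfl
      · rintro (rfl | rfl)
        · exact ⟨Or.inr (Or.inl rfl), by omega⟩
        · exact ⟨Or.inr (Or.inr rfl), by omega⟩
    rw [h4, card_pair hab] at h3
    push_cast at h3
    rw [← card_sts]
    omega
  · -- one cover
    exfalso
    have h1 : uc z = {w} := by
      have := uc_card_le H z
      obtain ⟨a, ha⟩ := card_eq_one.1 (show (uc z).card = 1 by
        have := card_pos.2 ⟨w, hw⟩
        omega)
      rw [ha, mem_singleton] at hw
      rw [ha, hw]
    have hw1 : (uc w).card = 1 := by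
      have a1 := uc_card_le H w
      have a2 := card_pos.2 (uc_nonempty H (x := w) (by omega))
      by_contra hne
      have hp : z ∈ PD P i := mem_PD.2 ⟨lz, by rw [h1, card_singleton], w, mem_uc.1 hw, by omega⟩
      have := hno z (mem_PN.2 ⟨hzC, Or.inl hp⟩)
      omega
    obtain ⟨v, hv⟩ := card_eq_one.1 hw1
    have hvw : v ∈ uc w := by rw [hv]; simp
    have lv' := lev_uc H hvw
    -- other near elements are not positive
    have hnl : ∀ y : P, lev y = i + 1 → y ≠ w → e y = 0 := by
      intro y ly hyw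
      by_contra h0
      have hzy : z ≠ y := by rintro rfl; omega
      have hon := eq_on_three hzw hzy (Ne.symm hyw) hz ew (by omega) hE
      have hmem : ∀ a, 1 ≤ e a → a = z ∨ a = w ∨ a = y := by
        intro a ha
        rw [hon] at ha
        have := on_pos.1 ha
        simpa using this
      rcases touched h.core (Or.inl ly) (by omega) with ht | ⟨hd, ht⟩
      · rw [mem_Tch] at ht
        rcases ht with ⟨-, d, hd, hd1⟩ | ⟨l1, -⟩
        · have ld := lev_cov H hd
          rcases hmem d hd1 with rfl | rfl | rfl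
          · have := mem_uc.2 hd
            rw [h1, mem_singleton] at this
            exact hyw this
          · omega
          · omega
        · omega
      · have hyd : (uc y).card = 2 := by
          rcases mem_union.1 hd with h5 | h5
          · exact (mem_dbL.1 h5).2
          · have := (mem_dbU.1 h5).1
            omega
        obtain ⟨⟨b1, -⟩, -, -⟩ := Rd.psiL F.E.hM ly hyd
        rw [mem_Tch] at ht
        rcases ht with ⟨l1, -⟩ | ⟨-, d, hd, hd1⟩
        · omega
        · have ld := lev_cov H hd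
          rcases hmem d hd1 with rfl | rfl | rfl <;> omega
    have hnu : ∀ y : P, lev y + 1 = i → e y = 0 := by
      intro y ly
      by_contra h0
      have hzy : z ≠ y := by rintro rfl; omega
      have hwy : w ≠ y := by rintro rfl; omega
      have hon := eq_on_three hzw hzy hwy hz ew (by omega) hE
      have hmem : ∀ a, 1 ≤ e a → a = z ∨ a = w ∨ a = y := by
        intro a ha
        rw [hon] at ha
        have := on_pos.1 ha
        simpa using this
      rcases touched h.core (Or.inr ly) (by omega) with ht | ⟨hd, ht⟩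
      · rw [mem_Tch] at ht
        rcases ht with ⟨l1, -⟩ | ⟨-, d, hd, hd1⟩
        · omega
        · have ld := lev_cov H hd
          rcases hmem d hd1 with rfl | rfl | rfl <;> omega
      · have hyd : (dc y).card = 2 := by
          rcases mem_union.1 hd with h5 | h5
          · have := (mem_dbL.1 h5).1
            omega
          · exact (mem_dbU.1 h5).2
        obtain ⟨⟨b1, b2⟩, -, -⟩ := Rd.psiU F.E.hM ly hyd
        rw [mem_Tch] at ht
        rcases ht with ⟨-, d, hd, hd1⟩ | ⟨l1, -⟩
        · have ld := lev_cov H hd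
          rcases hmem d hd1 with rfl | rfl | rfl
          · have := mem_uc.2 hd
            rw [h1, mem_singleton] at this
            rw [this] at b2
            omega
          · omega
          · omega
        · omega
    have hAU : AU i e = ∅ := by
      rw [eq_empty_iff_forall_notMem]
      intro a ha
      rw [NormD_mem_AU] at ha
      obtain ⟨la, y, hy, hlt⟩ := ha
      have := lev_cov H hy
      have := hnu y (by omega)
      omega
    have hAL : AL i e ⊆ {v} := by
      intro a ha
      rw [NormD_mem_AL] at ha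
      obtain ⟨la, y, hy, hlt⟩ := ha
      have ly := lev_cov H hy
      by_cases hyw : y = w
      · rw [hyw] at hy
        rw [← hv]
        exact mem_uc.2 hy
      · have := hnl y (by omega) hyw
        omega
    have hcard := card_le_card hAL
    rw [card_singleton] at hcard
    unfold kp at hk
    rw [hAU, card_empty] at hk
    push_cast at hk
    have hp0 : pL i e = 0 := by omega
    have hAL1 : (AL i e).card = 1 := by omega
    obtain ⟨a, ha⟩ := card_eq_one.1 hAL1
    have hav : a = v := by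
      have := hAL (by rw [ha]; simp : a ∈ AL i e)
      simpa using this
    have hlt : e v < e w := by
      have h5 : v ∈ AL i e := by rw [ha, hav]; simp
      rw [NormD_mem_AL] at h5
      obtain ⟨la, y, hy, hlt⟩ := h5
      have ly := lev_cov H hy
      by_cases hyw : y = w
      · rw [← hyw]; exact hlt
      · have := hnl y (by omega) hyw
        omega
    have hgw : ¬ GU e w := by
      rintro ⟨y, hy, hle⟩
      have := mem_uc.2 hy
      rw [hv, mem_singleton] at this
      rw [this] at hle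
      omega
    have hfw : FD e w := by
      by_contra hf
      have := free_low (i := i) (by omega) hf hgw
      omega
    obtain ⟨z1, hz1, hz1e⟩ := hfw
    have lz1 := lev_cov H hz1
    by_cases hzz : z1 = z
    · subst hzz
      have hsum := sum_pair_le (e := e) hzw
      have hg : ¬ GU e z1 := by
        rintro ⟨y, hy, hle⟩
        have := mem_uc.2 hy
        rw [h1, mem_singleton] at this
        rw [this] at hle
        omega
      have hf : ¬ FD e z1 := by
        rintro ⟨q, hq, hqe⟩
        have lq := lev_cov H hq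
        have := sum_three_le (e := e) hzw (show z1 ≠ q by rintro rfl; omega)
          (show w ≠ q by rintro rfl; omega)
        omega
      have := free_low (i := i) (by omega) hf hg
      omega
    · have := sum_three_le (e := e) hzw (Ne.symm hzz) (show w ≠ z1 by rintro rfl; omega)
      omega

/-- energy three with an upper far element, no pendant -/
theorem e3_upp (h : Okc i psi C e) (hE : ∑ x, e x = 3) (hk : kp i e = 1)
    (hno : ∀ p ∈ PN i C, e p = 0) {z : P} (lz : lev z + 2 = i) (hz : 1 ≤ e z) :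
    z ∈ ZU i C ∧ e = on (con i z) := by
  classical
  have H := F.E.H
  have hi2 := F.E.hi2
  have hir : i ≤ r := by omega
  have hzC := mem_of_pos h.spt hz
  obtain ⟨w, hw⟩ := dc_nonempty H (x := z) (by omega)
  have lw := lev_dc H hw
  have ew := pos_upp H hir h.adm.u hw (by omega) hz
  have hzw : z ≠ w := by rintro rfl; omega
  by_cases h2 : (dc z).card = 2
  · obtain ⟨a, b, hab, hc⟩ := card_eq_two.1 h2
    have ma : a ∈ dc z := by rw [hc]; simp
    have mb : b ∈ dc z := by rw [hc]; simp
    have la := lev_dc H ma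
    have lb := lev_dc H mb
    have ea := pos_upp H hir h.adm.u ma (by omega) hz
    have eb := pos_upp H hir h.adm.u mb (by omega) hz
    have hon := eq_on_three (by rintro rfl; omega) (by rintro rfl; omega) hab hz ea eb hE
    have hcon : con i z = {z, a, b} := by rw [SO.con_two_upp H lz, hc]
    rw [← hcon] at hon
    refine ⟨mem_ZU.2 ⟨hzC, lz, ?_⟩, hon⟩
    have hcls := SO.con_cls (i := i) H (z := z) (by omega)
    have h3 := kp_on F.E hcls
    rw [← hon, hk, SO.BU_con_upp H (by omega), SO.BL_con_upp H (by omega),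
      SO.nL_con_upp H (by omega), card_empty] at h3
    have h4 : nU i (con i z) = {a, b} := by
      ext y
      rw [SO.mem_nU, hcon]
      simp only [mem_insert, mem_singleton]
      constructor
      · rintro ⟨rfl | rfl | rfl, hl⟩
        · omega
        · exact Or.inl rfl
        · exact Or.inr rfl
      · rintro (rfl | rfl)
        · exact ⟨Or.inr (Or.inl rfl), by omega⟩
        · exact ⟨Or.inr (Or.inr rfl), by omega⟩
    rw [h4, card_pair hab] at h3
    push_cast at h3
    rw [← card_stD]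
    omega
  · exfalso
    have h1 : dc z = {w} := by
      have := dc_card_le H z
      obtain ⟨a, ha⟩ := card_eq_one.1 (show (dc z).card = 1 by
        have := card_pos.2 ⟨w, hw⟩
        omega)
      rw [ha, mem_singleton] at hw
      rw [ha, hw]
    have hw1 : (dc w).card = 1 := by
      have a1 := dc_card_le H w
      have a2 := card_pos.2 (dc_nonempty H (x := w) (by omega))
      by_contra hne
      have hp : z ∈ PU P i := mem_PU.2 ⟨lz, by rw [h1, card_singleton], w, mem_dc.1 hw, by omega⟩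
      have := hno z (mem_PN.2 ⟨hzC, Or.inr hp⟩)
      omega
    obtain ⟨v, hv⟩ := card_eq_one.1 hw1
    have hvw : v ∈ dc w := by rw [hv]; simp
    have lv' := lev_dc H hvw
    have hnu : ∀ y : P, lev y + 1 = i → y ≠ w → e y = 0 := by
      intro y ly hyw
      by_contra h0
      have hzy : z ≠ y := by rintro rfl; omega
      have hon := eq_on_three hzw hzy (Ne.symm hyw) hz ew (by omega) hE
      have hmem : ∀ a, 1 ≤ e a → a = z ∨ a = w ∨ a = y := by
        intro a ha
        rw [hon] at ha
        have := on_pos.1 ha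
        simpa using this
      rcases touched h.core (Or.inr ly) (by omega) with ht | ⟨hd, ht⟩
      · rw [mem_Tch] at ht
        rcases ht with ⟨l1, -⟩ | ⟨-, d, hd, hd1⟩
        · omega
        · have ld := lev_cov H hd
          rcases hmem d hd1 with rfl | rfl | rfl
          · have := mem_dc.2 hd
            rw [h1, mem_singleton] at this
            exact hyw this
          · omega
          · omega
      · have hyd : (dc y).card = 2 := by
          rcases mem_union.1 hd with h5 | h5
          · have := (mem_dbL.1 h5).1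
            omega
          · exact (mem_dbU.1 h5).2
        obtain ⟨⟨b1, -⟩, -, -⟩ := Rd.psiU F.E.hM ly hyd
        rw [mem_Tch] at ht
        rcases ht with ⟨-, d, hd, hd1⟩ | ⟨l1, -⟩
        · have ld := lev_cov H hd
          rcases hmem d hd1 with rfl | rfl | rfl <;> omega
        · omega
    have hnl : ∀ y : P, lev y = i + 1 → e y = 0 := by
      intro y ly
      by_contra h0
      have hzy : z ≠ y := by rintro rfl; omega
      have hwy : w ≠ y := by rintro rfl; omega
      have hon := eq_on_three hzw hzy hwy hz ew (by omega) hE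
      have hmem : ∀ a, 1 ≤ e a → a = z ∨ a = w ∨ a = y := by
        intro a ha
        rw [hon] at ha
        have := on_pos.1 ha
        simpa using this
      rcases touched h.core (Or.inl ly) (by omega) with ht | ⟨hd, ht⟩
      · rw [mem_Tch] at ht
        rcases ht with ⟨-, d, hd, hd1⟩ | ⟨l1, -⟩
        · have ld := lev_cov H hd
          rcases hmem d hd1 with rfl | rfl | rfl <;> omega
        · omega
      · have hyd : (uc y).card = 2 := by
          rcases mem_union.1 hd with h5 | h5
          · exact (mem_dbL.1 h5).2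
          · have := (mem_dbU.1 h5).1
            omega
        obtain ⟨⟨b1, b2⟩, -, -⟩ := Rd.psiL F.E.hM ly hyd
        rw [mem_Tch] at ht
        rcases ht with ⟨l1, -⟩ | ⟨-, d, hd, hd1⟩
        · omega
        · have ld := lev_cov H hd
          rcases hmem d hd1 with rfl | rfl | rfl
          · have := mem_dc.2 hd
            rw [h1, mem_singleton] at this
            rw [this] at b2
            omega
          · omega
          · omega
    have hAL : AL i e = ∅ := by
      rw [eq_empty_iff_forall_notMem]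
      intro a ha
      rw [NormD_mem_AL] at ha
      obtain ⟨la, y, hy, hlt⟩ := ha
      have := lev_cov H hy
      have := hnl y (by omega)
      omega
    have hAU : AU i e ⊆ {v} := by
      intro a ha
      rw [NormD_mem_AU] at ha
      obtain ⟨la, y, hy, hlt⟩ := ha
      have ly := lev_cov H hy
      by_cases hyw : y = w
      · rw [hyw] at hy
        rw [← hv]
        exact mem_dc.2 hy
      · have := hnu y (by omega) hyw
        omega
    have hcard := card_le_card hAU
    rw [card_singleton] at hcard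
    unfold kp at hk
    rw [hAL, card_empty] at hk
    push_cast at hk
    have hp0 : pU i e = 0 := by omega
    have hAU1 : (AU i e).card = 1 := by omega
    obtain ⟨a, ha⟩ := card_eq_one.1 hAU1
    have hav : a = v := by
      have := hAU (by rw [ha]; simp : a ∈ AU i e)
      simpa using this
    have hlt : e v < e w := by
      have h5 : v ∈ AU i e := by rw [ha, hav]; simp
      rw [NormD_mem_AU] at h5
      obtain ⟨la, y, hy, hlt⟩ := h5
      have ly := lev_cov H hy
      by_cases hyw : y = w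
      · rw [← hyw]; exact hlt
      · have := hnu y (by omega) hyw
        omega
    have hgw : ¬ GD e w := by
      rintro ⟨y, hy, hle⟩
      have := mem_dc.2 hy
      rw [hv, mem_singleton] at this
      rw [this] at hle
      omega
    have hfw : FU e w := by
      by_contra hf
      have := free_upp (i := i) (by omega) hf hgw
      omega
    obtain ⟨z1, hz1, hz1e⟩ := hfw
    have lz1 := lev_cov H hz1
    by_cases hzz : z1 = z
    · subst hzz
      have hsum := sum_pair_le (e := e) hzw
      have hg : ¬ GD e z1 := by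
        rintro ⟨y, hy, hle⟩
        have := mem_dc.2 hy
        rw [h1, mem_singleton] at this
        rw [this] at hle
        omega
      have hf : ¬ FU e z1 := by
        rintro ⟨q, hq, hqe⟩
        have lq := lev_cov H hq
        have := sum_three_le (e := e) hzw (show z1 ≠ q by rintro rfl; omega)
          (show w ≠ q by rintro rfl; omega)
        omega
      have := free_upp (i := i) (by omega) hf hg
      omega
    · have := sum_three_le (e := e) hzw (Ne.symm hzz) (show w ≠ z1 by rintro rfl; omega)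
      omega

/-- THE CORES OF ENERGY THREE with one deficit and without pendants -/
theorem e3_class (h : Okc i psi C e) (hE : ∑ x, e x = 3) (hk : kp i e = 1)
    (hno : ∀ p ∈ PN i C, e p = 0) :
    ∃ z, (z ∈ ZL i C ∨ z ∈ ZU i C) ∧ e = on (con i z) := by
  have hir : i ≤ r := by have := F.E.hi2; omega
  by_cases h1 : ∃ d : P, i + 2 ≤ lev d ∧ 1 ≤ e d
  · obtain ⟨d, hd, hd1⟩ := h1
    obtain ⟨z, lz, hz⟩ := apex_low F.E.H h.adm.l hd hd1
    obtain ⟨a, b⟩ := e3_low F h hE hk hno lz hz
    exact ⟨z, Or.inl a, b⟩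
  · by_cases h2 : ∃ d : P, lev d + 2 ≤ i ∧ 1 ≤ e d
    · obtain ⟨d, hd, hd1⟩ := h2
      obtain ⟨z, lz, hz⟩ := apex_upp F.E.H hir h.adm.u hd hd1
      obtain ⟨a, b⟩ := e3_upp F h hE hk hno lz hz
      exact ⟨z, Or.inr a, b⟩
    · exfalso
      push Not at h1 h2
      have := no_far F h (fun d hd => by
        rcases hd with hd | hd
        · have := h1 d hd
          omega
        · have := h2 d hd
          omega)
      omega

end main

end Pool.Agent.GaussPoset.Win.Pn

end

/-! From `Pool.Agent.W_448pn_h63.PnP` -/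

section

/-!
# Pendant blocks (MP_448cb3_co, G2, case B, window j - 1)
-/

set_option autoImplicit false

namespace Pool.Agent.GaussPoset.Win.Pn

set_option linter.unusedSectionVars false

open Finset W4
open Pool.Agent.GaussPoset.Win.Xg (Okc kp CanD PBk rm rm_of rm_y rm_p rm_le laL laU)
open Pool.Agent.GaussPoset.Win.Rd (P1L P1U TWL TWU GS Hyp hypL hypU)
open Pool.Agent.GaussPoset.Win.SO (con PN on mem_PN Cls BL BU nL nU mem_con self_con vp I5 mem_I5 c5)

universe u

variable {P : Type u} [Fintype P] [PartialOrder P] [DecidableEq P] {r i : ℕ}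
variable {e f : P → ℕ} {psi : P → P} {C K s : Finset P} {t : P → ℕ} {d x p : P}

/-- an isolated pendant block of a core -/
structure Blo (i : ℕ) (psi : P → P) (C : Finset P) (e : P → ℕ) (p y : P) : Prop where
  mem : p ∈ PN i C
  side : (lev p = i + 2 ∧ lev y = i + 1 ∧ uc p = {y} ∧ (uc y).card = 2) ∨
    (lev p + 2 = i ∧ lev y + 1 = i ∧ dc p = {y} ∧ (dc y).card = 2)
  e1 : e y = 1
  e2 : e p = 1
  ia : ∀ a ∈ sit i p, e a = 0 ∧ (∀ z ∈ dc a, z ≠ y → e z = 0) ∧ (∀ z ∈ uc a, z ≠ y → e z = 0)
  oth : ∀ z, z ≠ p → (z ∈ dc y ∨ z ∈ uc y) → e z = 0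
  ok : Okc i psi C (rm y p e)
  kp : kp i e = kp i (rm y p e) + 1
  sg : sgn i e = vp i p * sgn i (rm y p e)
  su : ∑ z, e z = ∑ z, rm y p e z + 2
  ad : e = rm y p e + on (con i p)

section sites

variable (H : Gr P r)
include H

lemma mem_sit_low {z a : P} (hz : lev z = i + 2) : a ∈ sit i z ↔ ∃ w ∈ uc z, a ∈ uc w := by
  rw [sit_low H (by omega), mem_sts_iff H hz]

lemma mem_sit_upp {z a : P} (hz : lev z + 2 = i) : a ∈ sit i z ↔ ∃ w ∈ dc z, a ∈ dc w := by
  rw [sit_upp H (by omega), mem_stD_iff H hz]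

/-- an excited far element away from a block has other sites -/
lemma Blo.disj (hir : i ≤ r) (h : Xg.Adm i e) {y : P} (B : Blo i psi C e p y) {z : P}
    (hl : lev z = i + 2 ∨ lev z + 2 = i) (hz : 1 ≤ e z) (hy : y ∉ con i z) :
    Disjoint (sit i z) (sit i p) := by
  rw [disjoint_left]
  intro a ha hb
  obtain ⟨a1, a2, a3⟩ := B.ia a hb
  rcases hl with hl | hl
  · rw [mem_sit_low H hl] at ha
    obtain ⟨w, hw, hwa⟩ := ha
    have lw := lev_uc H hw
    have h1 := pos_low H h.l hw (by omega) hz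
    have h2 := a2 w (mem_dc.2 (mem_uc.1 hwa)) (by
      rintro rfl
      apply hy
      rw [SO.con_two_low H hl]
      exact mem_insert_of_mem hw)
    omega
  · rw [mem_sit_upp H hl] at ha
    obtain ⟨w, hw, hwa⟩ := ha
    have lw := lev_dc H hw
    have h1 := pos_upp H hir h.u hw (by omega) hz
    have h2 := a3 w (mem_uc.2 (mem_dc.1 hwa)) (by
      rintro rfl
      apply hy
      rw [SO.con_two_upp H hl]
      exact mem_insert_of_mem hw)
    omega

end sites

section fr

variable (F : Fr r i psi C) (hm : Meet i C)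
include F hm

/-- the other pendants are not excited -/
lemma Blo.alone (h : Okc i psi C e) {y : P} (B : Blo i psi C e p y) :
    ∀ p' ∈ PN i C, p' ≠ p → e p' = 0 := by
  intro p' hp' hne
  by_contra h0
  have H := F.E.H
  obtain ⟨y', hc, hne', hyp⟩ := PN_cases F.E hp'
  have hl : lev p' = i + 2 ∨ lev p' + 2 = i := by
    rcases hyp with h1 | h1
    · exact Or.inl h1.1
    · exact Or.inr h1.1
  have hyy : y ≠ y' := by
    rintro rfl
    rcases hyp with ⟨-, -, h1, -⟩ | ⟨-, -, h1, -⟩
    · have := B.oth p' hne (Or.inl (mem_dc.2 (mem_uc.1 (by rw [h1]; simp))))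
      omega
    · have := B.oth p' hne (Or.inr (mem_uc.2 (mem_dc.1 (by rw [h1]; simp))))
      omega
  have hyp' : y ≠ p' := by
    rintro rfl
    have := B.side
    omega
  exact hm p' hp' p B.mem hne (B.disj H (by have := F.E.hi2; omega) h.adm hl (by omega) (by
    rw [hc]
    simp [hyy, hyp']))

lemma p1u_low (h : Okc i psi C e) :
    ∀ y ∈ Rd.P1 uc dc e (fun x : P => lev x - i) (I2.lS P i) (Rd.BGL i psi e),
    ∀ y' ∈ Rd.P1 uc dc e (fun x : P => lev x - i) (I2.lS P i) (Rd.BGL i psi e), y' = y := by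
  intro y hy y' hy'
  have H := F.E.H
  have hL := hypL F.G F.hT F.hQ F.E.hM h.adm.l h.adm.u h.adm.d h.core
  obtain ⟨p, v, v', B, yS, ty⟩ := p1_blk hL hy
  obtain ⟨p', w, w', B', yS', ty'⟩ := p1_blk hL hy'
  by_contra hne
  rw [I2.mem_lS] at yS yS'
  have lp := lev_uc H (show y ∈ uc p by rw [B.cp]; simp)
  have lp' := lev_uc H (show y' ∈ uc p' by rw [B'.cp]; simp)
  have hp : p ∈ PD P i := mem_PD.2 ⟨by omega, by rw [B.cp]; simp, y,
    mem_uc.1 (by rw [B.cp]; simp), by rw [B.cy, card_pair B.ne]⟩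
  have hp' : p' ∈ PD P i := mem_PD.2 ⟨by omega, by rw [B'.cp]; simp, y',
    mem_uc.1 (by rw [B'.cp]; simp), by rw [B'.cy, card_pair B'.ne]⟩
  have hpp : p ≠ p' := by
    rintro rfl
    have := B.cp.symm.trans B'.cp
    exact hne (singleton_injective this).symm
  refine hm p (mem_PN.2 ⟨mem_of_pos h.spt (by rw [B.e2]), Or.inl hp⟩) p'
    (mem_PN.2 ⟨mem_of_pos h.spt (by rw [B'.e2]), Or.inl hp'⟩) hpp ?_
  rw [sit_PDs H hp B.cp, sit_PDs H hp' B'.cp, disjoint_left]
  intro a ha ha'
  have m : y' ∈ dc a := mem_dc.2 (mem_uc.1 ha')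
  rw [B.cy, mem_insert, mem_singleton] at ha
  rcases ha with rfl | rfl
  · have := B.nv y' m hne
    rw [B'.e1] at this
    omega
  · have := B.nv' y' m hne
    rw [B'.e1] at this
    omega

lemma p1u_upp (h : Okc i psi C e) :
    ∀ y ∈ Rd.P1 dc uc e (fun x : P => i - lev x) (I2.uS P i) (Rd.BGU i psi e),
    ∀ y' ∈ Rd.P1 dc uc e (fun x : P => i - lev x) (I2.uS P i) (Rd.BGU i psi e), y' = y := by
  intro y hy y' hy'
  have H := F.E.H
  have hU := hypU F.G F.hT F.E.hM h.adm.l h.adm.u h.adm.d h.core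
  obtain ⟨p, v, v', B, yS, ty⟩ := p1_blk hU hy
  obtain ⟨p', w, w', B', yS', ty'⟩ := p1_blk hU hy'
  by_contra hne
  rw [I2.mem_uS] at yS yS'
  have lp := lev_dc H (show y ∈ dc p by rw [B.cp]; simp)
  have lp' := lev_dc H (show y' ∈ dc p' by rw [B'.cp]; simp)
  have hp : p ∈ PU P i := mem_PU.2 ⟨by omega, by rw [B.cp]; simp, y,
    mem_dc.1 (by rw [B.cp]; simp), by rw [B.cy, card_pair B.ne]⟩
  have hp' : p' ∈ PU P i := mem_PU.2 ⟨by omega, by rw [B'.cp]; simp, y',
    mem_dc.1 (by rw [B'.cp]; simp), by rw [B'.cy, card_pair B'.ne]⟩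
  have hpp : p ≠ p' := by
    rintro rfl
    have := B.cp.symm.trans B'.cp
    exact hne (singleton_injective this).symm
  refine hm p (mem_PN.2 ⟨mem_of_pos h.spt (by rw [B.e2]), Or.inr hp⟩) p'
    (mem_PN.2 ⟨mem_of_pos h.spt (by rw [B'.e2]), Or.inr hp'⟩) hpp ?_
  rw [sit_PUs H hp B.cp, sit_PUs H hp' B'.cp, disjoint_left]
  intro a ha ha'
  have m : y' ∈ uc a := mem_uc.2 (mem_dc.1 ha')
  rw [B.cy, mem_insert, mem_singleton] at ha
  rcases ha with rfl | rfl
  · have := B.nv y' m hne
    rw [B'.e1] at this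
    omega
  · have := B.nv' y' m hne
    rw [B'.e1] at this
    omega

/-- a lower block -/
lemma blo_low (h : Okc i psi C e) {y : P} (hy : y ∈ P1L i psi e) :
    ∃ p, Blo i psi C e p y := by
  classical
  have H := F.E.H
  have hL := hypL F.G F.hT F.hQ F.E.hM h.adm.l h.adm.u h.adm.d h.core
  unfold P1L Rd.P1s at hy
  simp only [Finset.mem_filter] at hy
  obtain ⟨hy1, hq⟩ := hy
  obtain ⟨p, v, v', B, yS, ty⟩ := p1_blk hL hy1
  rw [I2.mem_lS] at yS
  have lp := lev_uc H (show y ∈ uc p by rw [B.cp]; simp)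
  have ly : lev y = i + 1 := by omega
  have cy : (uc y).card = 2 := by rw [B.cy, card_pair B.ne]
  have hp : p ∈ PD P i := mem_PD.2 ⟨by omega, by rw [B.cp]; simp, y,
    mem_uc.1 (by rw [B.cp]; simp), cy⟩
  have hpC : p ∈ C := mem_of_pos h.spt (by rw [B.e2])
  have np : ∀ z ∈ dc p, e z = 0 := by
    intro z hz
    by_contra h0
    have lz := lev_dc H hz
    have hgu : GU e p := ⟨y, mem_uc.1 (by rw [B.cp]; simp), by rw [B.e1, B.e2]⟩
    have hle : e z ≤ e p := by
      by_contra h1
      exact h.adm.l p (by omega) ⟨⟨z, mem_dc.1 hz, by omega⟩, hgu⟩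
    rw [B.e2] at hle
    apply hq z
    refine ⟨hy1, I2.mem_lS.2 (by omega), by simp only []; omega, by omega,
      ⟨p, mem_uc.2 (mem_dc.1 hz), by rw [B.cp]; simp, by rw [B.e2]⟩, ?_⟩
    intro y' hy' _ _ _ _
    exact p1u_low F hm h y hy1 y' hy'
  have BB : PBk dc uc (laL i) y p v v' e :=
    ⟨by unfold laL; omega, B.cy, B.ne, B.cp, B.e1, B.e2, B.ev, B.ev', B.nv, B.nv', B.ny, np⟩
  obtain ⟨r1, r2, r3, r4, r5⟩ := rm_low F h BB
  refine ⟨p, mem_PN.2 ⟨hpC, Or.inl hp⟩, Or.inl ⟨by omega, ly, B.cp, cy⟩, B.e1, B.e2, ?_, ?_,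
    r1, r2, ?_, r4, ?_⟩
  · intro a ha
    rw [sit_PDs H hp B.cp] at ha
    have la := lev_uc H ha
    have ea : e a = 0 := by
      rw [B.cy, mem_insert, mem_singleton] at ha
      rcases ha with rfl | rfl
      · exact B.ev
      · exact B.ev'
    refine ⟨ea, ?_, ?_⟩
    · rw [B.cy, mem_insert, mem_singleton] at ha
      rcases ha with rfl | rfl
      · exact B.nv
      · exact B.nv'
    · intro z hz _
      by_contra h0
      have m1 : a ∈ AL i e := by
        rw [NormD_mem_AL]
        exact ⟨by omega, y, mem_uc.1 ha, by rw [B.e1, ea]; omega⟩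
      have m2 : a ∈ AU i e := by
        rw [NormD_mem_AU]
        exact ⟨by omega, z, mem_uc.1 hz, by omega⟩
      exact disjoint_left.1 h.adm.d m1 m2
  · intro z hne hz
    rcases hz with hz | hz
    · exact B.ny z hz hne
    · rw [B.cy, mem_insert, mem_singleton] at hz
      rcases hz with rfl | rfl
      · exact B.ev
      · exact B.ev'
  · rw [r3, SO.vp_PD hp, one_mul]
  · rw [SO.con_PD H (by omega : lev p = i + 2) B.cp]
    exact r5

/-- an upper block -/
lemma blo_upp (h : Okc i psi C e) {y : P} (hy : y ∈ P1U i psi e) :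
    ∃ p, Blo i psi C e p y := by
  classical
  have H := F.E.H
  have hU := hypU F.G F.hT F.E.hM h.adm.l h.adm.u h.adm.d h.core
  unfold P1U Rd.P1s at hy
  simp only [Finset.mem_filter] at hy
  obtain ⟨hy1, hq⟩ := hy
  obtain ⟨p, v, v', B, yS, ty⟩ := p1_blk hU hy1
  rw [I2.mem_uS] at yS
  have lp := lev_dc H (show y ∈ dc p by rw [B.cp]; simp)
  have ly : lev y + 1 = i := by omega
  have cy : (dc y).card = 2 := by rw [B.cy, card_pair B.ne]
  have hp : p ∈ PU P i := mem_PU.2 ⟨by omega, by rw [B.cp]; simp, y,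
    mem_dc.1 (by rw [B.cp]; simp), cy⟩
  have hpC : p ∈ C := mem_of_pos h.spt (by rw [B.e2])
  have np : ∀ z ∈ uc p, e z = 0 := by
    intro z hz
    by_contra h0
    have lz := lev_uc H hz
    have hgu : GD e p := ⟨y, mem_dc.1 (by rw [B.cp]; simp), by rw [B.e1, B.e2]⟩
    have hle : e z ≤ e p := by
      by_contra h1
      exact h.adm.u p (by omega) ⟨⟨z, mem_uc.1 hz, by omega⟩, hgu⟩
    rw [B.e2] at hle
    apply hq z
    refine ⟨hy1, I2.mem_uS.2 (by omega), by simp only []; omega, by omega,
      ⟨p, mem_dc.2 (mem_uc.1 hz), by rw [B.cp]; simp, by rw [B.e2]⟩, ?_⟩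
    intro y' hy' _ _ _ _
    exact p1u_upp F hm h y hy1 y' hy'
  have BB : PBk uc dc (laU i) y p v v' e :=
    ⟨by unfold laU; omega, B.cy, B.ne, B.cp, B.e1, B.e2, B.ev, B.ev', B.nv, B.nv', B.ny, np⟩
  obtain ⟨r1, r2, r3, r4, r5⟩ := rm_upp F h BB
  refine ⟨p, mem_PN.2 ⟨hpC, Or.inr hp⟩, Or.inr ⟨by omega, ly, B.cp, cy⟩, B.e1, B.e2, ?_, ?_,
    r1, r2, ?_, r4, ?_⟩
  · intro a ha
    rw [sit_PUs H hp B.cp] at ha
    have la := lev_dc H ha
    have ea : e a = 0 := by
      rw [B.cy, mem_insert, mem_singleton] at ha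
      rcases ha with rfl | rfl
      · exact B.ev
      · exact B.ev'
    refine ⟨ea, ?_, ?_⟩
    · intro z hz _
      by_contra h0
      have m1 : a ∈ AU i e := by
        rw [NormD_mem_AU]
        exact ⟨by omega, y, mem_dc.1 ha, by rw [B.e1, ea]; omega⟩
      have m2 : a ∈ AL i e := by
        rw [NormD_mem_AL]
        exact ⟨by omega, z, mem_dc.1 hz, by omega⟩
      exact disjoint_left.1 h.adm.d m2 m1
    · rw [B.cy, mem_insert, mem_singleton] at ha
      rcases ha with rfl | rfl
      · exact B.nv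
      · exact B.nv'
  · intro z hne hz
    rcases hz with hz | hz
    · rw [B.cy, mem_insert, mem_singleton] at hz
      rcases hz with rfl | rfl
      · exact B.ev
      · exact B.ev'
    · exact B.ny z hz hne
  · rw [r3, SO.vp_PU hp]
    ring
  · rw [SO.con_PU H (by omega : lev p + 2 = i) B.cp]
    exact r5

/-- THE BLOCK of a core with an element of `P1` -/
theorem blo_of (h : Okc i psi C e) (h1 : 0 < (P1L i psi e).card + (P1U i psi e).card) :
    ∃ p y, Blo i psi C e p y := by
  rcases Nat.eq_zero_or_pos (P1L i psi e).card with h2 | h2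
  · obtain ⟨y, hy⟩ := card_pos.1 (show 0 < (P1U i psi e).card by omega)
    obtain ⟨p, hp⟩ := blo_upp F hm h hy
    exact ⟨p, y, hp⟩
  · obtain ⟨y, hy⟩ := card_pos.1 h2
    obtain ⟨p, hp⟩ := blo_low F hm h hy
    exact ⟨p, y, hp⟩

/-- energy five with a block: a pendant and a charged element with disjoint sites -/
theorem blk_five (h : Okc i psi C e) (hE : ∑ x, e x = 5) (hk : kp i e = 2) {y : P}
    (B : Blo i psi C e p y) : ∃ z, (z, p) ∈ I5 i C ∧ e = c5 i (z, p) := by
  have H := F.E.H
  have hir : i ≤ r := by have := F.E.hi2; omega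
  have ne_yp : y ≠ p := by
    rintro rfl
    have := B.side
    omega
  have hno : ∀ p' ∈ PN i C, rm y p e p' = 0 := by
    intro p' hp'
    by_cases h1 : p' = p
    · rw [h1, rm_p]
    · have h2 : p' ≠ y := by
        rintro rfl
        obtain ⟨y', -, -, hyp⟩ := PN_cases F.E hp'
        have := B.side
        omega
      rw [rm_of h2 h1]
      exact B.alone F hm h p' hp' h1
  obtain ⟨z, hz, hez⟩ := e3_class F B.ok (by have := B.su; omega) (by have := B.kp; omega) hno
  have hZ : lev z = i + 2 ∨ lev z + 2 = i := by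
    rcases hz with hz | hz
    · exact Or.inl (mem_ZL.1 hz).2.1
    · exact Or.inr (mem_ZU.1 hz).2.1
  have hzi : lev z ≠ i := by omega
  have hyz : y ∉ con i z := by
    intro h1
    have h2 : rm y p e y = 1 := by rw [hez, on_one h1]
    rw [rm_y] at h2
    omega
  have hz1 : 1 ≤ e z := by
    have h1 : rm y p e z = 1 := by rw [hez, on_one (self_con hzi)]
    have h2 := rm_le (y := y) (p := p) (e := e) (z := z)
    omega
  have hdj := B.disj H hir h.adm hZ hz1 hyz
  refine ⟨z, mem_I5.2 ⟨hz, B.mem, hdj⟩, ?_⟩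
  have hpi : lev p ≠ i := by have := B.side; omega
  have hcd := SO.con_disj H hir hzi hpi hdj
  have h1 := B.ad
  rw [hez] at h1
  rw [h1]
  funext a
  unfold SO.c5
  rw [Pi.add_apply]
  by_cases ha : a ∈ con i z
  · rw [on_one ha, on_zero (disjoint_left.1 hcd ha), on_one (mem_union_left _ ha)]
  · by_cases hb : a ∈ con i p
    · rw [on_zero ha, on_one hb, on_one (mem_union_right _ hb)]
    · rw [on_zero ha, on_zero hb, on_zero (by simp [ha, hb])]

end fr

end Pool.Agent.GaussPoset.Win.Pn

end
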