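import Mathlib
import Pool.Agent.W_448zz_h61.Ns
import Pool.Agent.W_448zz_h61.M088
import Pool.Agent.W_448zz_h61.M147

/-! From `Pool.Agent.W_448rd_h10.RdK` -/

section

/-!
MP_448cb3_co, G2, window `j - 1`: removal of a block of lower elements.  helper10.

`e` = configuration with the block `W` (labels `b`, killed sites `X`), `B` = the same without the
block.  `AL e = AL B ∪ X`, `AU`, `aU`, `pU` are the same, `aL`, `pL` add, admissibility, the core
condition and the exchangeable places outside the block are the same.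
-/

namespace Pool.Agent.GaussPoset.Win.Rd

set_option linter.unusedSectionVars false

open Finset I2 K2
open Pool.Agent.GaussPoset.Win.Xg (CanD Can Tee Exo SdO Act laL laU)

universe u

variable {P : Type u} [Fintype P] [PartialOrder P] [DecidableEq P] {r i : ℕ}
variable {W X : Finset P} {b e B : P → ℕ} {psi : P → P}

/-- an element of the block is killed in the block -/
def bF (W : Finset P) (b : P → ℕ) (w : P) : Prop := ∃ z ∈ dc w, z ∈ W ∧ b w < b z

/-- an element of the block is guarded in the block -/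
def bG (W : Finset P) (b : P → ℕ) (w : P) : Prop := ∃ y ∈ uc w, y ∈ W ∧ b w ≤ b y

/-- a block of lower elements over the sites `X` -/
structure Blk (i : ℕ) (W X : Finset P) (b : P → ℕ) : Prop where
  lv : ∀ v ∈ W, i < lev v
  pos : ∀ v ∈ W, 1 ≤ b v
  up1 : ∀ v ∈ W, lev v = i + 1 → uc v ⊆ X
  up2 : ∀ v ∈ W, i + 1 < lev v → uc v ⊆ W
  ad : ∀ v ∈ W, i + 1 < lev v → ¬ (bF W b v ∧ bG W b v)
  tch : ∀ v ∈ W, lev v = i + 1 → ∃ z ∈ dc v, z ∈ W
  X : ∀ x ∈ X, lev x = i ∧ ∃ w ∈ W, w ∈ dc x

/-- `B` is `e` without the block `W` -/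
structure Rem (W X : Finset P) (b e B : P → ℕ) : Prop where
  eW : ∀ v ∈ W, e v = b v
  BW : ∀ v ∈ W, B v = 0
  eq : ∀ v, v ∉ W → e v = B v
  BX : ∀ x ∈ X, B x = 0
  dX : ∀ x ∈ X, ∀ v ∈ dc x, v ∉ W → B v = 0
  uX : ∀ x ∈ X, ∀ u ∈ uc x, B u = 0
  ch : ∀ w ∈ W, ∀ z ∈ dc w, z ∉ W → B z = 0

open Classical in
/-- number of killed elements of the block -/
noncomputable def aW (W : Finset P) (b : P → ℕ) : ℕ := (W.filter (fun w => bF W b w)).card

open Classical in
/-- number of free elements of the block -/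
noncomputable def pW (W : Finset P) (b : P → ℕ) : ℕ :=
  (W.filter (fun w => ¬ bF W b w ∧ ¬ bG W b w)).card

section rem

variable (H : Gr P r) (K : Blk i W X b) (R : Rem W X b e B)
include H K R

lemma Rem.lvW {v : P} (hv : v ∈ W) : i < lev v := K.lv v hv

lemma Rem.lvX {v : P} (hv : v ∈ X) : lev v = i ∧ v ∉ W := by
  refine ⟨(K.X v hv).1, fun h => ?_⟩
  have := R.lvW H K h
  have := (K.X v hv).1
  omega

lemma Rem.eX {x : P} (hx : x ∈ X) : e x = 0 := by
  rw [R.eq x (R.lvX H K hx).2, R.BX x hx]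

lemma Rem.FD_out {v : P} (hv : v ∉ W) (hx : v ∉ X) : FD e v ↔ FD B v := by
  constructor
  · rintro ⟨z, hz, hlt⟩
    by_cases h : z ∈ W
    · exfalso
      have h0 := K.lv z h
      by_cases h1 : lev z = i + 1
      · exact hx (K.up1 z h h1 (mem_uc.2 hz))
      · exact hv (K.up2 z h (by omega) (mem_uc.2 hz))
    · exact ⟨z, hz, by rw [← R.eq v hv, ← R.eq z h]; exact hlt⟩
  · rintro ⟨z, hz, hlt⟩
    by_cases h : z ∈ W
    · have := R.BW z h
      omega
    · exact ⟨z, hz, by rw [R.eq v hv, R.eq z h]; exact hlt⟩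

lemma Rem.GU_out {v : P} (hv : v ∉ W) : GU e v ↔ GU B v := by
  constructor
  · rintro ⟨y, hy, hle⟩
    refine ⟨y, hy, ?_⟩
    by_cases h : y ∈ W
    · rw [R.ch y h v (mem_dc.2 hy) hv]
      omega
    · rw [← R.eq v hv, ← R.eq y h]
      exact hle
  · rintro ⟨y, hy, hle⟩
    refine ⟨y, hy, ?_⟩
    by_cases h : y ∈ W
    · rw [R.eq v hv, R.ch y h v (mem_dc.2 hy) hv]
      omega
    · rw [R.eq v hv, R.eq y h]
      exact hle

lemma Rem.up_eq {v : P} (hv : lev v ≤ i) : e v = B v :=
  R.eq v (fun h => by have := R.lvW H K h; omega)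

lemma Rem.FU_out {v : P} (hv : lev v ≤ i) : FU e v ↔ FU B v := by
  constructor
  · rintro ⟨y, hy, hlt⟩
    have := lev_uc H (mem_uc.2 hy)
    exact ⟨y, hy, by rw [← R.up_eq H K hv, ← R.up_eq H K (by omega)]; exact hlt⟩
  · rintro ⟨y, hy, hlt⟩
    have := lev_uc H (mem_uc.2 hy)
    exact ⟨y, hy, by rw [R.up_eq H K hv, R.up_eq H K (by omega)]; exact hlt⟩

lemma Rem.GD_out {v : P} (hv : lev v < i) : GD e v ↔ GD B v := by
  constructor
  · rintro ⟨y, hy, hlt⟩
    have := lev_dc H (mem_dc.2 hy)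
    exact ⟨y, hy, by rw [← R.up_eq H K (by omega), ← R.up_eq H K (by omega)]; exact hlt⟩
  · rintro ⟨y, hy, hlt⟩
    have := lev_dc H (mem_dc.2 hy)
    exact ⟨y, hy, by rw [R.up_eq H K (by omega), R.up_eq H K (by omega)]; exact hlt⟩

lemma Rem.FD_X {x : P} (hx : x ∈ X) : FD e x ∧ ¬ FD B x := by
  constructor
  · obtain ⟨w, hw, hwx⟩ := (K.X x hx).2
    refine ⟨w, mem_dc.1 hwx, ?_⟩
    rw [R.eX H K hx, R.eW w hw]
    exact K.pos w hw
  · rintro ⟨z, hz, hlt⟩
    by_cases h : z ∈ W
    · have := R.BW z h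
      omega
    · have := R.dX x hx z (mem_dc.2 hz) h
      omega

lemma Rem.FD_W {w : P} (hw : w ∈ W) : (FD e w ↔ bF W b w) ∧ ¬ FD B w := by
  refine ⟨⟨?_, ?_⟩, ?_⟩
  · rintro ⟨z, hz, hlt⟩
    by_cases h : z ∈ W
    · exact ⟨z, mem_dc.2 hz, h, by rw [← R.eW w hw, ← R.eW z h]; exact hlt⟩
    · rw [R.eq z h, R.ch w hw z (mem_dc.2 hz) h] at hlt
      omega
  · rintro ⟨z, hz, h, hlt⟩
    exact ⟨z, mem_dc.1 hz, by rw [R.eW w hw, R.eW z h]; exact hlt⟩
  · rintro ⟨z, hz, hlt⟩
    by_cases h : z ∈ W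
    · have := R.BW z h
      omega
    · have := R.ch w hw z (mem_dc.2 hz) h
      omega

lemma Rem.GU_W {w : P} (hw : w ∈ W) : (GU e w ↔ bG W b w) ∧ GU B w := by
  have hpos := K.pos w hw
  refine ⟨⟨?_, ?_⟩, ?_⟩
  · rintro ⟨y, hy, hle⟩
    rw [R.eW w hw] at hle
    have h0 := K.lv w hw
    by_cases h1 : lev w = i + 1
    · have := R.eX H K (K.up1 w hw h1 (mem_uc.2 hy))
      omega
    · have h2 := K.up2 w hw (by omega) (mem_uc.2 hy)
      exact ⟨y, mem_uc.2 hy, h2, by rw [← R.eW y h2]; exact hle⟩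
  · rintro ⟨y, hy, h, hle⟩
    exact ⟨y, mem_uc.1 hy, by rw [R.eW w hw, R.eW y h]; exact hle⟩
  · obtain ⟨y, hy⟩ := uc_nonempty H (x := w) (by have := R.lvW H K hw; omega)
    exact ⟨y, mem_uc.1 hy, by rw [R.BW w hw]; omega⟩

lemma Rem.nG {w : P} (hw : w ∈ W) (h1 : lev w = i + 1) : ¬ GU e w := by
  rintro ⟨y, hy, hle⟩
  have := R.eX H K (K.up1 w hw h1 (mem_uc.2 hy))
  have := K.pos w hw
  rw [R.eW w hw] at hle
  omega

lemma Rem.nFG {w : P} (hw : w ∈ W) (h1 : i + 1 < lev w) : ¬ (FD e w ∧ GU e w) := by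
  rintro ⟨h2, h3⟩
  exact K.ad w hw h1 ⟨(R.FD_W H K hw).1.1 h2, (R.GU_W H K hw).1.1 h3⟩

lemma Rem.AL : AL i e = AL i B ∪ X ∧ Disjoint (AL i B) X := by
  classical
  constructor
  · ext v
    rw [mem_union, NormD_mem_AL, NormD_mem_AL]
    by_cases hx : v ∈ X
    · have := R.FD_X H K hx
      have := (K.X v hx).1
      tauto
    · constructor
      · rintro ⟨h1, h2⟩
        have hv : v ∉ W := fun h => by have := R.lvW H K h; omega
        exact Or.inl ⟨h1, (R.FD_out H K hv hx).1 h2⟩
      · rintro (⟨h1, h2⟩ | h)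
        · have hv : v ∉ W := fun h => by have := R.lvW H K h; omega
          exact ⟨h1, (R.FD_out H K hv hx).2 h2⟩
        · exact absurd h hx
  · rw [disjoint_left]
    intro v hv hx
    rw [NormD_mem_AL] at hv
    exact (R.FD_X H K hx).2 hv.2

lemma Rem.AU : AU i e = AU i B ∧ Disjoint (AU i B) X := by
  classical
  constructor
  · ext v
    rw [NormD_mem_AU, NormD_mem_AU]
    constructor
    · rintro ⟨h1, h2⟩
      exact ⟨h1, (R.FU_out H K (by omega)).1 h2⟩
    · rintro ⟨h1, h2⟩
      exact ⟨h1, (R.FU_out H K (by omega)).2 h2⟩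
  · rw [disjoint_left]
    intro v hv hx
    rw [NormD_mem_AU] at hv
    obtain ⟨-, y, hy, hlt⟩ := hv
    have := R.uX v hx y (mem_uc.2 hy)
    omega

lemma Rem.disj : Disjoint (Win.AL i e) (Win.AU i e) ↔
    Disjoint (Win.AL i B) (Win.AU i B) := by
  rw [(R.AL H K).1, (R.AU H K).1, disjoint_union_left]
  exact ⟨fun h => h.1, fun h => ⟨h, (R.AU H K).2.symm⟩⟩

lemma Rem.adL : AdmL i e ↔ AdmL i B := by
  constructor
  · rintro h z hz ⟨h1, h2⟩
    by_cases hW : z ∈ W
    · exact (R.FD_W H K hW).2 h1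
    · have hX : z ∉ X := fun hx => by have := (K.X z hx).1; omega
      exact h z hz ⟨(R.FD_out H K hW hX).2 h1, (R.GU_out H K hW).2 h2⟩
  · rintro h z hz ⟨h1, h2⟩
    by_cases hW : z ∈ W
    · by_cases h3 : lev z = i + 1
      · exact R.nG H K hW h3 h2
      · exact R.nFG H K hW (by omega) ⟨h1, h2⟩
    · have hX : z ∉ X := fun hx => by have := (K.X z hx).1; omega
      exact h z hz ⟨(R.FD_out H K hW hX).1 h1, (R.GU_out H K hW).1 h2⟩

lemma Rem.adU : AdmU i e ↔ AdmU i B := by
  constructor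
  · rintro h z hz ⟨h1, h2⟩
    exact h z hz ⟨(R.FU_out H K hz.le).2 h1, (R.GD_out H K hz).2 h2⟩
  · rintro h z hz ⟨h1, h2⟩
    exact h z hz ⟨(R.FU_out H K hz.le).1 h1, (R.GD_out H K hz).1 h2⟩

lemma Rem.aU : aU i e = aU i B := by
  classical
  unfold Win.aU
  congr 1
  apply filter_congr
  intro z _
  constructor
  · rintro ⟨h1, h2⟩
    exact ⟨h1, (R.FU_out H K h1.le).1 h2⟩
  · rintro ⟨h1, h2⟩
    exact ⟨h1, (R.FU_out H K h1.le).2 h2⟩

lemma Rem.pU : pU i e = pU i B := by
  classical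
  unfold Win.pU
  congr 1
  apply filter_congr
  intro z _
  constructor
  · rintro ⟨h1, h2, h3⟩
    exact ⟨h1, fun h => h2 ((R.FU_out H K h1.le).2 h), fun h => h3 ((R.GD_out H K h1).2 h)⟩
  · rintro ⟨h1, h2, h3⟩
    exact ⟨h1, fun h => h2 ((R.FU_out H K h1.le).1 h), fun h => h3 ((R.GD_out H K h1).1 h)⟩

lemma Rem.aL : aL i e = aL i B + aW W b := by
  classical
  unfold Win.aL aW
  rw [← card_union_of_disjoint]
  · congr 1
    ext z
    simp only [mem_union, mem_filter, mem_univ, true_and]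
    by_cases hW : z ∈ W
    · have := R.lvW H K hW
      have := R.FD_W H K hW
      tauto
    · constructor
      · rintro ⟨h1, h2⟩
        have hX : z ∉ X := fun hx => by have := (K.X z hx).1; omega
        exact Or.inl ⟨h1, (R.FD_out H K hW hX).1 h2⟩
      · rintro (⟨h1, h2⟩ | ⟨h1, h2⟩)
        · have hX : z ∉ X := fun hx => by have := (K.X z hx).1; omega
          exact ⟨h1, (R.FD_out H K hW hX).2 h2⟩
        · exact absurd h1 hW
  · rw [disjoint_left]
    intro z h1 h2
    rw [mem_filter] at h1 h2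
    exact (R.FD_W H K h2.1).2 h1.2.2

lemma Rem.pL : pL i e = pL i B + pW W b := by
  classical
  unfold Win.pL pW
  rw [← card_union_of_disjoint]
  · congr 1
    ext z
    simp only [mem_union, mem_filter, mem_univ, true_and]
    by_cases hW : z ∈ W
    · have := R.lvW H K hW
      have := R.FD_W H K hW
      have := R.GU_W H K hW
      tauto
    · constructor
      · rintro ⟨h1, h2, h3⟩
        have hX : z ∉ X := fun hx => by have := (K.X z hx).1; omega
        exact Or.inl ⟨h1, fun h => h2 ((R.FD_out H K hW hX).2 h),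
          fun h => h3 ((R.GU_out H K hW).2 h)⟩
      · rintro (⟨h1, h2, h3⟩ | ⟨h1, h2⟩)
        · have hX : z ∉ X := fun hx => by have := (K.X z hx).1; omega
          exact ⟨h1, fun h => h2 ((R.FD_out H K hW hX).1 h),
            fun h => h3 ((R.GU_out H K hW).1 h)⟩
        · exact absurd h1 hW
  · rw [disjoint_left]
    intro z h1 h2
    rw [mem_filter] at h1 h2
    exact h1.2.2.2 (R.GU_W H K h2.1).2

/-- the core condition -/
lemma Rem.core (hM : Mat P i ∅ psi) : IsCore i ∅ psi e ↔ IsCore i ∅ psi B := by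
  classical
  have T1 : ∀ v, v ∈ Tch i B → v ∈ Tch i e := by
    intro v hv
    unfold Tch at hv ⊢
    rw [mem_filter] at hv ⊢
    refine ⟨hv.1, ?_⟩
    rcases hv.2 with ⟨h1, z, hz, hz2⟩ | ⟨h1, z, hz, hz2⟩
    · left
      refine ⟨h1, z, hz, ?_⟩
      by_cases h : z ∈ W
      · have := R.BW z h
        omega
      · rw [R.eq z h]
        exact hz2
    · right
      refine ⟨h1, z, hz, ?_⟩
      by_cases h : z ∈ W
      · have := R.BW z h
        omega
      · rw [R.eq z h]
        exact hz2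
  have T2 : ∀ v, v ∈ Tch i e → v ∉ W → v ∈ Tch i B := by
    intro v hv hvW
    unfold Tch at hv ⊢
    rw [mem_filter] at hv ⊢
    refine ⟨hv.1, ?_⟩
    rcases hv.2 with ⟨h1, z, hz, hz2⟩ | ⟨h1, z, hz, hz2⟩
    · left
      refine ⟨h1, z, hz, ?_⟩
      by_cases h : z ∈ W
      · exfalso
        have := (lev_dc H (mem_dc.2 hz))
        exact hvW (K.up2 z h (by omega) (mem_uc.2 hz))
      · rw [← R.eq z h]
        exact hz2
    · right
      refine ⟨h1, z, hz, ?_⟩
      by_cases h : z ∈ W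
      · exfalso
        have := R.lvW H K h
        have := lev_uc H (mem_uc.2 hz)
        omega
      · rw [← R.eq z h]
        exact hz2
  have T3 : ∀ v ∈ W, lev v = i + 1 → v ∈ Tch i e := by
    intro v hv h1
    obtain ⟨z, hz, hzW⟩ := K.tch v hv h1
    unfold Tch
    rw [mem_filter]
    refine ⟨mem_univ _, Or.inl ⟨h1, z, mem_dc.1 hz, ?_⟩⟩
    rw [R.eW z hzW]
    exact K.pos z hzW
  have T4 : ∀ v, v ∈ dbL P i ∪ dbU P i → psi v ∈ W → B v = 0 := by
    intro v hv hpv
    rw [mem_union, mem_dbL', mem_dbU'] at hv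
    rcases hv with hv | hv
    · obtain ⟨p1, p2, p3⟩ := psiL hM hv.1 hv.2
      have := R.lvW H K hpv
      omega
    · obtain ⟨p1, p2, p3⟩ := psiU hM hv.1 hv.2
      obtain ⟨x, hx⟩ : (dc v).Nonempty := card_pos.1 (by omega)
      have hxX : x ∈ X := K.up1 (psi v) hpv p1.1 (by rw [p2]; exact hx)
      exact R.uX x hxX v (mem_uc.2 (mem_dc.1 hx))
  constructor
  · intro hc v hv
    by_cases hW : v ∈ W
    · exact R.BW v hW
    · by_cases hr : v ∈ Rst i ∅ psi e
      · rw [← R.eq v hW]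
        exact hc v hr
      · unfold Rst at hv hr
        rw [mem_filter] at hv hr
        obtain ⟨hn, hK, h1, h2⟩ := hv
        have h3 : v ∉ Tch i e := fun h => h1 (T2 v h hW)
        have h4 : v ∈ dbL P i ∪ dbU P i ∧ psi v ∈ Tch i e := by
          by_contra h4
          exact hr ⟨hn, hK, h3, h4⟩
        by_cases hp : psi v ∈ W
        · exact T4 v h4.1 hp
        · exact absurd ⟨h4.1, T2 _ h4.2 hp⟩ h2
  · intro hc v hv
    have hvW : v ∉ W := by
      intro hW
      unfold Rst near at hv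
      rw [mem_filter, mem_filter] at hv
      obtain ⟨⟨-, hn⟩, hK, h1, h2⟩ := hv
      rcases hn with hn | hn
      · exact h1 (T3 v hW hn)
      · have := R.lvW H K hW
        omega
    rw [R.eq v hvW]
    apply hc
    unfold Rst at hv ⊢
    rw [mem_filter] at hv ⊢
    exact ⟨hv.1, hv.2.1, fun h => hv.2.2.1 (T1 v h), fun h => hv.2.2.2 ⟨h.1, T1 _ h.2⟩⟩

/-- the support -/
lemma Rem.spt {C : Finset P} (hW : W ⊆ C) : Spt C e ↔ Spt C B := by
  constructor
  · intro h x hx
    rw [← R.eq x (fun h' => hx (hW h'))]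
    exact h x hx
  · intro h x hx
    rw [R.eq x (fun h' => hx (hW h'))]
    exact h x hx

/-- lower exchangeable places outside the block -/
lemma Rem.canL {d x : P} (hd : d ∉ W) : Can dc uc (laL i) e d x ↔ Can dc uc (laL i) B d x := by
  have key : ∀ w w2 p q, Tee dc uc (laL i) d w w2 p x q → 1 ≤ B d →
      (Exo dc uc d w w2 p x q e ↔ Exo dc uc d w w2 p x q B) ∧
      ((∀ d', uc d' = {w, w2} → Xg.rk d' < Xg.rk d → e d' = 0) ↔
        (∀ d', uc d' = {w, w2} → Xg.rk d' < Xg.rk d → B d' = 0)) := by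
    intro w w2 p q T hpos
    have ld : lev d = i + 2 := by
      have := T.ld
      unfold laL at this
      omega
    have hw : w ∈ uc d := by rw [T.ud]; simp
    have hw2 : w2 ∈ uc d := by rw [T.ud]; simp
    have lw := lev_uc H hw
    have lw2 := lev_uc H hw2
    have hx : x ∈ uc w := by rw [T.uw]; simp
    have hp : p ∈ uc w := by rw [T.uw]; simp
    have hq : q ∈ uc w2 := by rw [T.uw2]; simp
    have lx := lev_uc H hx
    have lp := lev_uc H hp
    have lq := lev_uc H hq
    have nW : ∀ y ∈ uc d, y ∉ W := by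
      intro y hy hyW
      have := R.ch y hyW d (mem_dc.2 (mem_uc.1 hy)) hd
      omega
    have e1 := R.eq d hd
    have e2 := R.eq w (nW w hw)
    have e3 := R.eq w2 (nW w2 hw2)
    have e4 := R.up_eq H K (v := x) (by omega)
    have e5 := R.up_eq H K (v := p) (by omega)
    have e6 := R.up_eq H K (v := q) (by omega)
    have e7 : ∀ u ∈ uc x, e u = B u := fun u hu => by
      have := lev_uc H hu
      exact R.up_eq H K (by omega)
    have e8 : ∀ a ∈ dc d, e a = B a := fun a ha => by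
      have h1 := lev_dc H ha
      exact R.eq a (fun h => hd (K.up2 a h (by omega) (mem_uc.2 (mem_dc.1 ha))))
    have e9 : ∀ y ∈ uc d, ∀ a ∈ dc y, e a = B a := fun y hy a ha => by
      have h1 := lev_dc H ha
      have h2 := lev_uc H hy
      refine R.eq a (fun h => ?_)
      exact nW y hy (K.up2 a h (by omega) (mem_uc.2 (mem_dc.1 ha)))
    have s : ∀ y o, y ∈ uc d → e y = B y → e o = B o →
        (SdO dc d x y o e ↔ SdO dc d x y o B) := by
      intro y o hy h1 h2
      unfold SdO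
      rw [h1, h2, e1, e4]
      have : (∀ d' ∈ dc y, d' ≠ d → e d' ≤ B y) ↔ (∀ d' ∈ dc y, d' ≠ d → B d' ≤ B y) := by
        constructor
        · intro h d' h3 h4
          rw [← e9 y hy d' h3]
          exact h d' h3 h4
        · intro h d' h3 h4
          rw [e9 y hy d' h3]
          exact h d' h3 h4
      rw [this]
    refine ⟨⟨fun E => ⟨by rw [← e1]; exact E.pos, ?_, ?_, (s w p hw e2 e5).1 E.s1,
      (s w2 q hw2 e3 e6).1 E.s2, ?_⟩, fun E => ⟨by rw [e1]; exact E.pos, ?_, ?_,
      (s w p hw e2 e5).2 E.s1, (s w2 q hw2 e3 e6).2 E.s2, ?_⟩⟩, ?_⟩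
    · intro a ha
      rw [← e8 a ha, ← e1, ← e4]
      exact E.t1 a ha
    · intro u hu
      rw [← e7 u hu, ← e1, ← e4]
      exact E.u1 u hu
    · have := E.act
      unfold Act at this ⊢
      rw [← e1, ← e2, ← e3, ← e4]
      exact this
    · intro a ha
      rw [e8 a ha, e1, e4]
      exact E.t1 a ha
    · intro u hu
      rw [e7 u hu, e1, e4]
      exact E.u1 u hu
    · have := E.act
      unfold Act at this ⊢
      rw [e1, e2, e3, e4]
      exact this
    · have h1 : ∀ d', uc d' = {w, w2} → e d' = B d' := by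
        intro d' hd'
        exact e9 w hw d' (mem_dc.2 (mem_uc.1 (by rw [hd']; simp)))
      constructor
      · intro h d' h2 h3
        rw [← h1 d' h2]
        exact h d' h2 h3
      · intro h d' h2 h3
        rw [h1 d' h2]
        exact h d' h2 h3
  constructor
  · rintro ⟨w, w2, p, q, T, E, h⟩
    obtain ⟨k1, k2⟩ := key w w2 p q T (by rw [← R.eq d hd]; exact E.pos)
    exact ⟨w, w2, p, q, T, k1.1 E, k2.1 h⟩
  · rintro ⟨w, w2, p, q, T, E, h⟩
    obtain ⟨k1, k2⟩ := key w w2 p q T E.pos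
    exact ⟨w, w2, p, q, T, k1.2 E, k2.2 h⟩

/-- upper exchangeable places -/
lemma Rem.canU {d x : P} : Can uc dc (laU i) e d x ↔ Can uc dc (laU i) B d x := by
  have key : ∀ w w2 p q, Tee uc dc (laU i) d w w2 p x q → 1 ≤ B d → (x ∈ X → False) →
      (Exo uc dc d w w2 p x q e ↔ Exo uc dc d w w2 p x q B) ∧
      ((∀ d', dc d' = {w, w2} → Xg.rk d' < Xg.rk d → e d' = 0) ↔
        (∀ d', dc d' = {w, w2} → Xg.rk d' < Xg.rk d → B d' = 0)) := by
    intro w w2 p q T hpos hxX
    have ld : lev d + 2 = i := by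
      have := T.ld
      unfold laU at this
      omega
    have hw : w ∈ dc d := by rw [T.ud]; simp
    have hw2 : w2 ∈ dc d := by rw [T.ud]; simp
    have lw := lev_dc H hw
    have lw2 := lev_dc H hw2
    have hx : x ∈ dc w := by rw [T.uw]; simp
    have hp : p ∈ dc w := by rw [T.uw]; simp
    have hq : q ∈ dc w2 := by rw [T.uw2]; simp
    have lx := lev_dc H hx
    have lp := lev_dc H hp
    have lq := lev_dc H hq
    have E : ∀ v : P, lev v ≤ i → e v = B v := fun v hv => R.up_eq H K hv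
    have e1 := E d (by omega)
    have e2 := E w (by omega)
    have e3 := E w2 (by omega)
    have e4 := E x (by omega)
    have e5 := E p (by omega)
    have e6 := E q (by omega)
    have e7 : ∀ u ∈ dc x, e u = B u := fun u hu => by
      have h1 := lev_dc H hu
      refine R.eq u (fun h => hxX ?_)
      exact K.up1 u h (by omega) (mem_uc.2 (mem_dc.1 hu))
    have e8 : ∀ a ∈ uc d, e a = B a := fun a ha => by
      have h1 := lev_uc H ha
      exact E a (by omega)
    have e9 : ∀ y ∈ dc d, ∀ a ∈ uc y, e a = B a := fun y hy a ha => by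
      have h1 := lev_uc H ha
      have h2 := lev_dc H hy
      exact E a (by omega)
    have s : ∀ y o, y ∈ dc d → e y = B y → e o = B o →
        (SdO uc d x y o e ↔ SdO uc d x y o B) := by
      intro y o hy h1 h2
      unfold SdO
      rw [h1, h2, e1, e4]
      have : (∀ d' ∈ uc y, d' ≠ d → e d' ≤ B y) ↔ (∀ d' ∈ uc y, d' ≠ d → B d' ≤ B y) := by
        constructor
        · intro h d' h3 h4
          rw [← e9 y hy d' h3]
          exact h d' h3 h4
        · intro h d' h3 h4
          rw [e9 y hy d' h3]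
          exact h d' h3 h4
      rw [this]
    refine ⟨⟨fun E => ⟨by rw [← e1]; exact E.pos, ?_, ?_, (s w p hw e2 e5).1 E.s1,
      (s w2 q hw2 e3 e6).1 E.s2, ?_⟩, fun E => ⟨by rw [e1]; exact E.pos, ?_, ?_,
      (s w p hw e2 e5).2 E.s1, (s w2 q hw2 e3 e6).2 E.s2, ?_⟩⟩, ?_⟩
    · intro a ha
      rw [← e8 a ha, ← e1, ← e4]
      exact E.t1 a ha
    · intro u hu
      rw [← e7 u hu, ← e1, ← e4]
      exact E.u1 u hu
    · have := E.act
      unfold Act at this ⊢
      rw [← e1, ← e2, ← e3, ← e4]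
      exact this
    · intro a ha
      rw [e8 a ha, e1, e4]
      exact E.t1 a ha
    · intro u hu
      rw [e7 u hu, e1, e4]
      exact E.u1 u hu
    · have := E.act
      unfold Act at this ⊢
      rw [e1, e2, e3, e4]
      exact this
    · have h1 : ∀ d', dc d' = {w, w2} → e d' = B d' := by
        intro d' hd'
        exact e9 w hw d' (mem_uc.2 (mem_dc.1 (by rw [hd']; simp)))
      constructor
      · intro h d' h2 h3
        rw [← h1 d' h2]
        exact h d' h2 h3
      · intro h d' h2 h3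
        rw [h1 d' h2]
        exact h d' h2 h3
  have noX : ∀ w w2 p q, Tee uc dc (laU i) d w w2 p x q → ∀ f : P → ℕ,
      Exo uc dc d w w2 p x q f → f w = 0 → False := by
    intro w w2 p q T f E h
    have hp := E.pos
    rcases E.s1 with ⟨h1, -⟩ | ⟨-, h1⟩ <;> omega
  constructor
  · rintro ⟨w, w2, p, q, T, E, h⟩
    have hxX : x ∈ X → False := by
      intro hx
      have hxw : x ∈ dc w := by rw [T.uw]; simp
      have h1 := R.uX x hx w (mem_uc.2 (mem_dc.1 hxw))
      have ld : lev d + 2 = i := by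
        have := T.ld
        unfold laU at this
        omega
      have hw : w ∈ dc d := by rw [T.ud]; simp
      have lw := lev_dc H hw
      have h2 := R.up_eq H K (v := w) (by omega)
      exact noX w w2 p q T e E (by omega)
    have ld : lev d + 2 = i := by
      have := T.ld
      unfold laU at this
      omega
    obtain ⟨k1, k2⟩ := key w w2 p q T (by rw [← R.up_eq H K (by omega)]; exact E.pos) hxX
    exact ⟨w, w2, p, q, T, k1.1 E, k2.1 h⟩
  · rintro ⟨w, w2, p, q, T, E, h⟩
    have hxX : x ∈ X → False := by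
      intro hx
      have hxw : x ∈ dc w := by rw [T.uw]; simp
      have h1 := R.uX x hx w (mem_uc.2 (mem_dc.1 hxw))
      exact noX w w2 p q T B E h1
    obtain ⟨k1, k2⟩ := key w w2 p q T E.pos hxX
    exact ⟨w, w2, p, q, T, k1.2 E, k2.2 h⟩

/-- the exchangeable places of `B` are those of `e` outside the block -/
lemma Rem.CC {t : P × P} : t ∈ Xg.CC i B ↔ t ∈ Xg.CC i e ∧ t.1 ∉ W := by
  rw [Xg.mem_CC H, Xg.mem_CC H]
  unfold CanD
  by_cases hW : t.1 ∈ W
  · constructor
    · rintro (⟨w, w2, p, q, T, E, -⟩ | ⟨w, w2, p, q, T, E, -⟩) <;>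
      · have := E.pos
        have := R.BW _ hW
        omega
    · rintro ⟨-, h⟩
      exact absurd hW h
  · rw [R.canL H K hW, R.canU H K]
    tauto

end rem

end Pool.Agent.GaussPoset.Win.Rd

end

/-! From `Pool.Agent.W_448xc_h84.XgL` -/

section

/-!
# The general exchange (MP_448cb3_co): a representative with small labels on the sites
-/

namespace Pool.Agent.GaussPoset.Win.Xg

set_option linter.unusedSectionVars false

open Finset Kd W4

universe u

variable {P : Type u} [Fintype P] [PartialOrder P] [DecidableEq P] {r i : ℕ}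
variable {d x : P} {e f : P → ℕ} {psi : P → P} {C : Finset P}
variable {Q : (P → ℕ) → Prop} {φ : (P → ℕ) → (P → ℕ)}

/-- every class of exchanges has a member with `e x < e d` at every exchangeable place -/
theorem rep (H : Gr P r) (hC : Part i C) (F : Flp i psi C Q φ) :
    ∀ e, Okc i psi C e → ∃ e', Okc i psi C e' ∧ kp i e' = kp i e ∧ CC i e' = CC i e ∧
      ∑ z, e' z = ∑ z, e z ∧ (Q e' ↔ Q e) ∧ ∀ d x, CanD i e' d x → e' x < e' d := by
  classical
  suffices key : ∀ (n : ℕ) (e : P → ℕ), ∑ z ∈ GaussPoset.lv P i, e z = n → Okc i psi C e →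
      ∃ e', Okc i psi C e' ∧ kp i e' = kp i e ∧ CC i e' = CC i e ∧
      ∑ z, e' z = ∑ z, e z ∧ (Q e' ↔ Q e) ∧ ∀ d x, CanD i e' d x → e' x < e' d from
    fun e he => key _ e rfl he
  intro n
  induction n using Nat.strong_induction_on with
  | _ n ih =>
    intro e hn he
    by_cases hall : ∀ d x, CanD i e d x → e x < e d
    · exact ⟨e, he, rfl, rfl, rfl, Iff.rfl, hall⟩
    push Not at hall
    obtain ⟨d, x, hd, hle⟩ := hall
    have hv := hd.lvl H
    have hxd : x ≠ d := by
      rintro rfl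
      omega
    have h1 := he.xc H hC hd
    have hlt : ∑ z ∈ GaussPoset.lv P i, Kd.xc d x e z < n := by
      rw [← hn]
      refine sum_lt_sum (fun z hz => ?_) ⟨x, mem_lv.2 hv.2.1, ?_⟩
      · rw [mem_lv] at hz
        have hzd : z ≠ d := by
          rintro rfl
          omega
        by_cases hzx : z = x
        · subst hzx
          rw [xc_x hxd]
          omega
        · rw [xc_of hzd hzx]
      · rw [xc_x hxd]
        omega
    obtain ⟨e', a1, a2, a3, a4, a5, a6⟩ := ih _ hlt (Kd.xc d x e) rfl h1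
    refine ⟨e', a1, ?_, ?_, ?_, ?_, a6⟩
    · rw [a2, hd.kp H he.adm]
    · rw [a3, CC_xc H he.adm.l he.adm.u hd]
    · rw [a4, hd.sumU H]
    · rw [a5, F.xc_iff H hC he hd]

end Pool.Agent.GaussPoset.Win.Xg

end

/-! From `Pool.Agent.W_448rd_h10.RdM` -/

section

/-!
MP_448cb3_co, G2, window `j - 1`: the parts with at most one matched pendant; the exceptional
elements `P1`, `GS` are absent in the leftover cores.  helper10.
-/

namespace Pool.Agent.GaussPoset.Win.Rd

set_option linter.unusedSectionVars false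

open Finset I2 K2
open Pool.Agent.GaussPoset.Win.H2 (SdT NoT low_T up_T sum_all)
open Pool.Agent.GaussPoset.Win.Xg (FlS Zr LoP UpP FP rm rm_le rm_of rm_y rm_p Okc Adm kp Lft mem_Lft)

universe u

lemma mem_P1s {P : Type u} [DecidableEq P] {c c' : P → Finset P} {e : P → ℕ} {t : P → ℕ}
    {Sd BG : Finset P} {y : P} : y ∈ P1s c c' e t Sd BG ↔ y ∈ P1 c c' e t Sd BG ∧
      ∀ q, ¬ RQ c c' e t Sd BG q y := by
  classical
  unfold P1s
  rw [mem_filter]

/-- a positive child of an element of `N4` is single or hangs at a second element of the guard -/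
lemma Hyp.n4_chld {P : Type u} [DecidableEq P] {c c' : P → Finset P} {e : P → ℕ} {t : P → ℕ}
    {V Sd BG EX : Finset P} (H : Hyp c c' e t V Sd BG EX) {y x z : P}
    (hy : y ∈ N4 c c' e t Sd BG) (hx : x ∈ c y) (ex : 1 ≤ e x) (hz : z ∈ c' y) (ez : 1 ≤ e z) :
    c z = {y} ∨ ∃ a, a ≠ y ∧ a ∈ c z ∧ a ∈ c' x ∧ 1 ≤ e a := by
  classical
  obtain ⟨o, x', hox, hcy, ey, eo, ex', hso⟩ := H.n4_spec hy
  have hyD : y ∈ Dd c t Sd BG := by
    unfold N4 at hy
    exact (mem_filter.1 hy).1
  obtain ⟨yS, yB, ty, cy⟩ := mem_Dd.1 hyD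
  obtain ⟨zS, tz, yz⟩ := H.ch yS hz
  by_cases h1 : (c z).card = 1
  · left
    obtain ⟨a, ha⟩ := card_eq_one.1 h1
    rw [ha, mem_singleton] at yz
    rw [ha, yz]
  · right
    have h2 : 1 < (c z).card := by
      have : 0 < (c z).card := card_pos.2 ⟨y, yz⟩
      omega
    obtain ⟨a, ha, hne⟩ := exists_mem_ne h2 y
    obtain ⟨aS, ta⟩ := H.cov zS (by omega) ha
    have ea : 1 ≤ e a := H.pos aS ((H.S.dual _ _).1 ha) ez
    obtain ⟨x0, h3, h4⟩ := H.hT z zS (by omega) y yz a ha hne.symm cy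
    have h5 : x0 = x' := by
      rw [hcy, mem_insert, mem_singleton] at h3
      rcases h3 with h3 | h3
      · exfalso
        subst h3
        have := hso a ((H.S.dual _ _).1 h4) hne
        omega
      · exact h3
    have h6 : x = x' := by
      rw [hcy, mem_insert, mem_singleton] at hx
      rcases hx with hx | hx
      · subst hx
        omega
      · exact hx
    refine ⟨a, hne, ha, ?_, ea⟩
    rw [h6, ← h5]
    exact (H.S.dual _ _).1 h4

variable {P : Type u} [Fintype P] [PartialOrder P] [DecidableEq P] {r i : ℕ} {e : P → ℕ}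
variable {psi : P → P} {C : Finset P} {Q : (P → ℕ) → Prop}

/-- the environment -/
structure Ev (r i : ℕ) (psi : P → P) (C : Finset P) : Prop where
  G : GoodTo P r (i + 1)
  hT : NoT P (i + 2)
  hQ : NoQ P (i + 3)
  hM : Mat P i ∅ psi
  hi : 1 ≤ i
  hC : Part (i + 1) C

lemma Ev.H (E : Ev r i psi C) : Gr P r := E.G.H

lemma Ev.hr (E : Ev r i psi C) : i + 1 ≤ r := E.G.hr

lemma Ev.part (E : Ev r i psi C) : Part i C :=
  ⟨fun h1 h2 => E.hC.up h1 h2, fun h1 h2 h3 => E.hC.dn h1 (by omega) h3⟩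

/-- the part has no pendant over a double element, or one matched pendant -/
def Kls (i : ℕ) (psi : P → P) (C : Finset P) (Q : (P → ℕ) → Prop) : Prop :=
  ((∀ z ∈ C, z ∉ PD P i ∧ z ∉ PU P i) ∧ Q = fun _ => False) ∨
  ∃ y p w u v v', FlS i y p w u v v' ∧ psi y = w ∧ (y ∈ C ∧ p ∈ C ∧ w ∈ C ∧ u ∈ C) ∧
    (∀ z ∈ C, z ∈ PD P i → z = p) ∧ (∀ z ∈ C, z ∈ PU P i → z = u) ∧ Q = FP y p w u v v'

lemma mem_PD' {z : P} : z ∈ PD P i ↔ lev z = i + 2 ∧ (uc z).card = 1 ∧
    ∃ w, z ⋖ w ∧ (uc w).card = 2 := by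
  classical
  unfold PD
  rw [mem_filter]
  exact ⟨fun h => h.2, fun h => ⟨mem_univ _, h⟩⟩

lemma mem_PU' {z : P} : z ∈ PU P i ↔ lev z + 2 = i ∧ (dc z).card = 1 ∧
    ∃ w, w ⋖ z ∧ (dc w).card = 2 := by
  classical
  unfold PU
  rw [mem_filter]
  exact ⟨fun h => h.2, fun h => ⟨mem_univ _, h⟩⟩

lemma spt_mem {z : P} (h : Spt C e) (hz : 1 ≤ e z) : z ∈ C := by
  by_contra h1
  have := h z h1
  omega

section pd

variable (E : Ev r i psi C) (K : Kls i psi C Q)
include E K

/-- a pendant over a double element -/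
lemma Kls.pd {p' y' : P} (h1 : p' ∈ C) (h2 : uc p' = {y'}) (h3 : (uc y').card = 2)
    (h4 : lev y' = i + 1) : ∃ w u v v', FlS i y' p' w u v v' ∧ psi y' = w ∧
      (y' ∈ C ∧ p' ∈ C ∧ w ∈ C ∧ u ∈ C) ∧ (∀ z ∈ C, z ∈ PD P i → z = p') ∧
      (∀ z ∈ C, z ∈ PU P i → z = u) ∧ Q = FP y' p' w u v v' := by
  have hy : y' ∈ uc p' := by rw [h2]; simp
  have l := lev_uc E.H hy
  have hpd : p' ∈ PD P i := mem_PD'.2 ⟨by omega, by rw [h2, card_singleton], y', mem_uc.1 hy, h3⟩
  rcases K with ⟨h, -⟩ | ⟨y, p, w, u, v, v', F, h5, h6, h7, h8, h9⟩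
  · exact absurd hpd (h p' h1).1
  · have := h7 p' h1 hpd
    subst this
    have h10 : y' = y := by
      have := F.up
      rw [h2] at this
      exact singleton_injective this
    subst h10
    exact ⟨w, u, v, v', F, h5, h6, h7, h8, h9⟩

lemma Kls.pu {u' w' : P} (h1 : u' ∈ C) (h2 : dc u' = {w'}) (h3 : (dc w').card = 2)
    (h4 : lev w' + 1 = i) : ∃ y p v v', FlS i y p w' u' v v' ∧ psi y = w' ∧
      (y ∈ C ∧ p ∈ C ∧ w' ∈ C ∧ u' ∈ C) ∧ (∀ z ∈ C, z ∈ PD P i → z = p) ∧
      (∀ z ∈ C, z ∈ PU P i → z = u') ∧ Q = FP y p w' u' v v' := by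
  have hy : w' ∈ dc u' := by rw [h2]; simp
  have l := lev_dc E.H hy
  have hpd : u' ∈ PU P i := mem_PU'.2 ⟨by omega, by rw [h2, card_singleton], w', mem_dc.1 hy, h3⟩
  rcases K with ⟨h, -⟩ | ⟨y, p, w, u, v, v', F, h5, h6, h7, h8, h9⟩
  · exact absurd hpd (h u' h1).2
  · have := h8 u' h1 hpd
    subst this
    have h10 : w' = w := by
      have := F.du
      rw [h2] at this
      exact singleton_injective this
    subst h10
    exact ⟨y, p, v, v', F, h5, h6, h7, h8, h9⟩

end pd

section zero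

variable (H : Gr P r)
include H

/-- positive labels climb down on the lower side -/
lemma adm_pos (hL : AdmL i e) {y z : P} (hy : i < lev y) (hz : z ∈ dc y) (h1 : 1 ≤ e z) :
    1 ≤ e y := by
  by_contra h0
  obtain ⟨x, hx⟩ := uc_nonempty H (x := y) (by omega)
  exact hL y hy ⟨⟨z, mem_dc.1 hz, by omega⟩, x, mem_uc.1 hx, by omega⟩

/-- positive labels on the upper side -/
lemma adm_posU (hir : i ≤ r) (hU : AdmU i e) {y z : P} (hy : lev y < i) (hz : z ∈ uc y)
    (h1 : 1 ≤ e z) : 1 ≤ e y := by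
  by_contra h0
  obtain ⟨x, hx⟩ := dc_nonempty H (x := y) (by omega)
  exact hU y hy ⟨⟨z, mem_uc.1 hz, by omega⟩, x, mem_dc.1 hx, by omega⟩

end zero

section p1

variable (E : Ev r i psi C) (K : Kls i psi C Q) (O : Okc i psi C e)
include E K O

/-- no `P1` below the window outside `Q` -/
theorem Kls.P1L (hQ : ¬ Q e) : P1L i psi e = ∅ := by
  classical
  have HL := hypL E.G E.hT E.hQ E.hM O.adm.l O.adm.u O.adm.d O.core
  rw [eq_empty_iff_forall_notMem]
  intro y0 hy0
  obtain ⟨hP1, hnq⟩ := mem_P1s.1 hy0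
  obtain ⟨hD, hN, p0, hp0, ep0, cp0, hoth⟩ := HL.p1_spec hP1
  obtain ⟨y0S, y0B, ty0, cy0⟩ := mem_Dd.1 hD
  have ly0 : lev y0 = i + 1 := by
    have h1 := mem_lS.1 y0S
    have h2 : lev y0 - i = 1 := ty0
    omega
  have hp0C : p0 ∈ C := spt_mem O.spt (by omega)
  obtain ⟨w, u, v, v', F, hpsi, hmC, hPD, hPU, rfl⟩ := K.pd E hp0C cp0 cy0 ly0
  apply hQ
  left
  have hcy : uc y0 = {v, v'} := F.uy
  obtain ⟨e1, e2, e3, e4, e5⟩ := HL.n4a_spec hD hN hcy F.ne
  obtain ⟨k1, k2, k3, k4⟩ := F.lv E.H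
  obtain ⟨n1, n2, n3, n4, n5, n6⟩ := F.nes E.H
  obtain ⟨m1, m2, m3, m4⟩ := F.mems E.H
  have hlw := F.lw
  have hv : v ∈ AL i e := by
    rw [NormD_mem_AL]
    exact ⟨k1, y0, mem_dc.1 m3, by omega⟩
  have m3' : y0 ∈ dc v' := by rw [mem_dc, ← mem_uc, F.uy]; simp
  have hv' : v' ∈ AL i e := by
    rw [NormD_mem_AL]
    exact ⟨k2, y0, mem_dc.1 m3', by omega⟩
  have hup : ∀ x, x ∈ AL i e → e x = 0 → ∀ z ∈ uc x, e z = 0 := by
    intro x hx ex z hz
    by_contra h0
    have hxU : x ∈ AU i e := by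
      rw [NormD_mem_AU]
      exact ⟨((NormD_mem_AL _ _ _).1 hx).1, z, mem_uc.1 hz, by omega⟩
    exact disjoint_left.1 O.adm.d hx hxU
  have r0 : ∀ z, e z = 0 → rm y0 p0 e z = 0 := by
    intro z hz
    have := rm_le (y := y0) (p := p0) (e := e) (z := z)
    omega
  have hr := E.hr
  have ew : e w = 0 := hup v hv e2 w m1
  have eu : e u = 0 := by
    by_contra h0
    have := adm_posU E.H (by omega) O.adm.u (by omega) m2 (by omega)
    omega
  have dv : ∀ x, (∀ a ∈ dc x, a ≠ y0 → e a = 0) → ∀ z ∈ dc x, rm y0 p0 e z = 0 := by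
    intro x hx z hz
    by_cases h : z = y0
    · rw [h, rm_y]
    · exact r0 z (hx z hz h)
  refine ⟨e1, ep0, ⟨r0 v e2, r0 v' e3, dv v e4, dv v' e5, fun z hz => r0 z (hup v hv e2 z hz),
    fun z hz => r0 z (hup v' hv' e3 z hz), ?_, ?_, ?_, ?_⟩⟩
  · intro z hz
    by_cases h : z = p0
    · rw [h, rm_p]
    · exact r0 z (hoth z hz h)
  · intro q hq
    apply r0
    by_contra h0
    have lq := lev_dc E.H hq
    have eq1 : e q = 1 := by
      by_contra h1
      exact O.adm.l p0 (by omega) ⟨⟨q, mem_dc.1 hq, by omega⟩, y0,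
        mem_uc.1 (by rw [cp0]; simp), by omega⟩
    have hqp : p0 ∈ uc q := mem_uc.2 (mem_dc.1 hq)
    apply hnq q
    refine ⟨hP1, mem_lS.2 (by omega), ?_, eq1, ⟨p0, hqp, by rw [cp0]; simp, by omega⟩, ?_⟩
    · show lev q - i = 3
      omega
    · intro y' hy' p' hp' hyp' ep'
      obtain ⟨hD', hN', p1, hp1, ep1, cp1, hoth'⟩ := HL.p1_spec hy'
      obtain ⟨y'S, -, ty', cy'⟩ := mem_Dd.1 hD'
      have ly' : lev y' = i + 1 := by
        have h1 := mem_lS.1 y'S
        have h2 : lev y' - i = 1 := ty'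
        omega
      have hy1 : y' ∈ uc p1 := by rw [cp1]; simp
      have lp1 := lev_uc E.H hy1
      have h5 : p1 ∈ PD P i := mem_PD'.2 ⟨by omega, by rw [cp1, card_singleton], y',
        mem_uc.1 hy1, cy'⟩
      have h6 := hPD p1 (spt_mem O.spt (by omega)) h5
      subst h6
      rw [cp0] at cp1
      exact (singleton_injective cp1).symm
  · intro z hz
    apply r0
    by_contra h0
    have := adm_posU E.H (by omega) O.adm.u (by omega) hz (by omega)
    omega
  · intro z hz
    apply r0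
    by_contra h0
    have := adm_posU E.H (by omega) O.adm.u (by omega) hz (by omega)
    omega

/-- no `P1` above the window outside `Q` -/
theorem Kls.P1U (hQ : ¬ Q e) : P1U i psi e = ∅ := by
  classical
  have HL := hypU E.G E.hT E.hM O.adm.l O.adm.u O.adm.d O.core
  rw [eq_empty_iff_forall_notMem]
  intro w0 hw0
  obtain ⟨hP1, hnq⟩ := mem_P1s.1 hw0
  obtain ⟨hD, hN, u0, hu0, eu0, cu0, hoth⟩ := HL.p1_spec hP1
  obtain ⟨w0S, w0B, tw0, cw0⟩ := mem_Dd.1 hD
  have lw0 : lev w0 + 1 = i := by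
    have h1 := mem_uS.1 w0S
    have h2 : i - lev w0 = 1 := tw0
    omega
  have hu0C : u0 ∈ C := spt_mem O.spt (by omega)
  obtain ⟨y, p, v, v', F, hpsi, hmC, hPD, hPU, rfl⟩ := K.pu E hu0C cu0 cw0 lw0
  apply hQ
  right
  have hcy : dc w0 = {v, v'} := F.dw
  obtain ⟨e1, e2, e3, e4, e5⟩ := HL.n4a_spec hD hN hcy F.ne
  obtain ⟨k1, k2, k3, k4⟩ := F.lv E.H
  obtain ⟨n1, n2, n3, n4, n5, n6⟩ := F.nes E.H
  obtain ⟨m1, m2, m3, m4⟩ := F.mems E.H
  have hly := F.ly
  have hv : v ∈ AU i e := by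
    rw [NormD_mem_AU]
    exact ⟨k1, w0, mem_uc.1 m1, by omega⟩
  have m1' : w0 ∈ uc v' := by rw [mem_uc, ← mem_dc, F.dw]; simp
  have hv' : v' ∈ AU i e := by
    rw [NormD_mem_AU]
    exact ⟨k2, w0, mem_uc.1 m1', by omega⟩
  have hdn : ∀ x, x ∈ AU i e → e x = 0 → ∀ z ∈ dc x, e z = 0 := by
    intro x hx ex z hz
    by_contra h0
    have hxU : x ∈ AL i e := by
      rw [NormD_mem_AL]
      exact ⟨((NormD_mem_AU _ _ _).1 hx).1, z, mem_dc.1 hz, by omega⟩
    exact disjoint_left.1 O.adm.d hxU hx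
  have r0 : ∀ z, e z = 0 → rm w0 u0 e z = 0 := by
    intro z hz
    have := rm_le (y := w0) (p := u0) (e := e) (z := z)
    omega
  have hr := E.hr
  have ey : e y = 0 := hdn v hv e2 y m3
  have ep : e p = 0 := by
    by_contra h0
    have := adm_pos E.H O.adm.l (by omega) m4 (by omega)
    omega
  have dv : ∀ x, (∀ a ∈ uc x, a ≠ w0 → e a = 0) → ∀ z ∈ uc x, rm w0 u0 e z = 0 := by
    intro x hx z hz
    by_cases h : z = w0
    · rw [h, rm_y]
    · exact r0 z (hx z hz h)
  refine ⟨e1, eu0, ⟨r0 v e2, r0 v' e3, fun z hz => r0 z (hdn v hv e2 z hz),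
    fun z hz => r0 z (hdn v' hv' e3 z hz), dv v e4, dv v' e5, ?_, ?_, ?_, ?_⟩⟩
  · intro z hz
    apply r0
    by_contra h0
    have := adm_pos E.H O.adm.l (by omega) hz (by omega)
    omega
  · intro z hz
    apply r0
    by_contra h0
    have := adm_pos E.H O.adm.l (by omega) hz (by omega)
    omega
  · intro z hz
    by_cases h : z = u0
    · rw [h, rm_p]
    · exact r0 z (hoth z hz h)
  · intro q hq
    apply r0
    by_contra h0
    have lq := lev_uc E.H hq
    have eq1 : e q = 1 := by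
      by_contra h1
      exact O.adm.u u0 (by omega) ⟨⟨q, mem_uc.1 hq, by omega⟩, w0,
        mem_dc.1 (by rw [cu0]; simp), by omega⟩
    have hqp : u0 ∈ dc q := mem_dc.2 (mem_uc.1 hq)
    apply hnq q
    refine ⟨hP1, mem_uS.2 (by omega), ?_, eq1, ⟨u0, hqp, by rw [cu0]; simp, by omega⟩, ?_⟩
    · show i - lev q = 3
      omega
    · intro y' hy' p' hp' hyp' ep'
      obtain ⟨hD', hN', p1, hp1, ep1, cp1, hoth'⟩ := HL.p1_spec hy'
      obtain ⟨y'S, -, ty', cy'⟩ := mem_Dd.1 hD'
      have ly' : lev y' + 1 = i := by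
        have h1 := mem_uS.1 y'S
        have h2 : i - lev y' = 1 := ty'
        omega
      have hy1 : y' ∈ dc p1 := by rw [cp1]; simp
      have lp1 := lev_dc E.H hy1
      have h5 : p1 ∈ PU P i := mem_PU'.2 ⟨by omega, by rw [cp1, card_singleton], y',
        mem_dc.1 hy1, cy'⟩
      have h6 := hPU p1 (spt_mem O.spt (by omega)) h5
      subst h6
      rw [cu0] at cp1
      exact (singleton_injective cp1).symm

/-- no guard sites with two elements -/
theorem Kls.GS (hCC : Xg.CC i e = ∅) : GS i psi e = ∅ := by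
  classical
  have HL := hypL E.G E.hT E.hQ E.hM O.adm.l O.adm.u O.adm.d O.core
  have HU := hypU E.G E.hT E.hM O.adm.l O.adm.u O.adm.d O.core
  have hr := E.hr
  -- elements of `N4L` and their positive children
  have kL : ∀ y ∈ N4L i psi e, ∃ z, z ∈ dc y ∧ 1 ≤ e z := by
    intro y hy
    obtain ⟨⟨ly, cy⟩, yB, -, -⟩ := mem_N4L' hy
    obtain ⟨o, x, hox, hcy, ey, -⟩ := HL.n4_spec hy
    exact touchL E.hM O.adm.u O.core ly cy yB (by omega)
  have kU : ∀ y ∈ N4U i psi e, ∃ z, z ∈ uc y ∧ 1 ≤ e z := by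
    intro y hy
    obtain ⟨⟨ly, cy⟩, yB, -, -⟩ := mem_N4U' hy
    obtain ⟨o, x, hox, hcy, ey, -⟩ := HU.n4_spec hy
    exact touchU E.hM O.adm.l O.core ly cy yB (by omega)
  have key : ∀ x, e x = 1 → ∀ y y', y ≠ y' →
      ((y ∈ N4L i psi e ∧ x ∈ uc y) ∨ (y ∈ N4U i psi e ∧ x ∈ dc y)) →
      ((y' ∈ N4L i psi e ∧ x ∈ uc y') ∨ (y' ∈ N4U i psi e ∧ x ∈ dc y')) → False := by
    intro x ex
    have LU : ∀ y y', y ∈ N4L i psi e → x ∈ uc y → y' ∈ N4U i psi e → x ∈ dc y' → False := by
      intro y y' hy hx hy' hx'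
      obtain ⟨⟨ly, cy⟩, yB, -, -⟩ := mem_N4L' hy
      obtain ⟨⟨ly', cy'⟩, yB', -, -⟩ := mem_N4U' hy'
      obtain ⟨o, x1, hox, hcy, ey, -⟩ := HL.n4_spec hy
      obtain ⟨o', x1', hox', hcy', ey', -⟩ := HU.n4_spec hy'
      obtain ⟨p1, p2, p3⟩ := psiL E.hM ly cy
      obtain ⟨q1, q2, q3⟩ := psiU E.hM ly' cy'
      have g1 : e (psi y) = 0 := by
        by_contra h
        exact yB (mem_BGL.2 ⟨⟨by omega, cy⟩, by omega, by omega⟩)
      have g2 : e (psi y') = 0 := by
        by_contra h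
        exact yB' (mem_BGU.2 ⟨⟨by omega, cy'⟩, by omega, by omega⟩)
      have n1 : psi y' ≠ y := by
        intro h
        rw [h] at g2
        omega
      have n2 : psi y ≠ y' := by
        intro h
        rw [h] at g1
        omega
      have m1 : psi y' ∈ dc x := by
        rw [mem_dc, ← mem_uc, q2]
        exact hx'
      have m2 : psi y ∈ uc x := by
        rw [mem_uc, ← mem_dc, p2]
        exact hx
      have m3 : y ∈ dc x := mem_dc.2 (mem_uc.1 hx)
      have m4 : y' ∈ uc x := mem_uc.2 (mem_dc.1 hx')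
      obtain ⟨z, hz, ez⟩ := kL y hy
      obtain ⟨z', hz', ez'⟩ := kU y' hy'
      have hz1 : uc z = {y} := by
        rcases HL.n4_chld hy hx (by omega) hz ez with h | ⟨a, a1, a2, a3, a4⟩
        · exact h
        · exfalso
          have := third (dc_card_le E.H x) m1 m3 a3 n1 a1
          rw [this] at a4
          omega
      have hz2 : dc z' = {y'} := by
        rcases HU.n4_chld hy' hx' (by omega) hz' ez' with h | ⟨a, a1, a2, a3, a4⟩
        · exact h
        · exfalso
          have := third (uc_card_le E.H x) m2 m4 a3 n2 a1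
          rw [this] at a4
          omega
      obtain ⟨w, u, v, v', F, hpsi, hmC, hPD, hPU, -⟩ :=
        K.pd E (spt_mem O.spt ez) hz1 cy ly
      have hy'z : y' ∈ dc z' := by rw [hz2]; simp
      have lz' := lev_dc E.H hy'z
      have h5 := hPU z' (spt_mem O.spt ez') (mem_PU'.2 ⟨by omega, by rw [hz2, card_singleton], y',
        mem_dc.1 hy'z, cy'⟩)
      subst h5
      have h6 : w = y' := by
        have := F.du
        rw [hz2] at this
        exact (singleton_injective this).symm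
      exact n2 (hpsi.trans h6)
    have LL : ∀ y y', y ≠ y' → y ∈ N4L i psi e → x ∈ uc y → y' ∈ N4L i psi e → x ∈ uc y' →
        ∃ z, uc z = {y} ∧ 1 ≤ e z := by
      intro y y' hne hy hx hy' hx'
      obtain ⟨z, hz, ez⟩ := kL y hy
      rcases HL.n4_chld hy hx (by omega) hz ez with h | ⟨a, a1, a2, a3, a4⟩
      · exact ⟨z, h, ez⟩
      · exfalso
        have := third (dc_card_le E.H x) (mem_dc.2 (mem_uc.1 hx')) (mem_dc.2 (mem_uc.1 hx)) a3
          hne.symm a1
        rw [this] at a2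
        obtain ⟨t, ht⟩ := n4L_child E.G E.hT E.hQ E.hM O.adm.l O.adm.u O.adm.d O.core hy hy' hne
          hz (mem_dc.2 (mem_uc.1 a2)) ez
        rw [hCC] at ht
        exact notMem_empty _ ht
    have UU : ∀ y y', y ≠ y' → y ∈ N4U i psi e → x ∈ dc y → y' ∈ N4U i psi e → x ∈ dc y' →
        ∃ z, dc z = {y} ∧ 1 ≤ e z := by
      intro y y' hne hy hx hy' hx'
      obtain ⟨z, hz, ez⟩ := kU y hy
      rcases HU.n4_chld hy hx (by omega) hz ez with h | ⟨a, a1, a2, a3, a4⟩
      · exact ⟨z, h, ez⟩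
      · exfalso
        have := third (uc_card_le E.H x) (mem_uc.2 (mem_dc.1 hx')) (mem_uc.2 (mem_dc.1 hx)) a3
          hne.symm a1
        rw [this] at a2
        obtain ⟨t, ht⟩ := n4U_child E.G E.hT E.hQ E.hM O.adm.l O.adm.u O.adm.d O.core hy hy' hne
          hz (mem_uc.2 (mem_dc.1 a2)) ez
        rw [hCC] at ht
        exact notMem_empty _ ht
    intro y y' hne h1 h2
    rcases h1 with ⟨h1, h3⟩ | ⟨h1, h3⟩ <;> rcases h2 with ⟨h2, h4⟩ | ⟨h2, h4⟩
    · obtain ⟨z, hz, ez⟩ := LL y y' hne h1 h3 h2 h4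
      obtain ⟨z', hz', ez'⟩ := LL y' y hne.symm h2 h4 h1 h3
      obtain ⟨⟨ly, cy⟩, -⟩ := mem_N4L' h1
      obtain ⟨⟨ly', cy'⟩, -⟩ := mem_N4L' h2
      obtain ⟨w, u, v, v', F, hpsi, hmC, hPD, hPU, -⟩ := K.pd E (spt_mem O.spt ez) hz cy ly
      have hy'z : y' ∈ uc z' := by rw [hz']; simp
      have lz' := lev_uc E.H hy'z
      have h5 := hPD z' (spt_mem O.spt ez') (mem_PD'.2 ⟨by omega, by rw [hz', card_singleton], y',
        mem_uc.1 hy'z, cy'⟩)
      subst h5
      rw [hz] at hz'
      exact hne (singleton_injective hz')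
    · exact LU y y' h1 h3 h2 h4
    · exact LU y' y h2 h4 h1 h3
    · obtain ⟨z, hz, ez⟩ := UU y y' hne h1 h3 h2 h4
      obtain ⟨z', hz', ez'⟩ := UU y' y hne.symm h2 h4 h1 h3
      obtain ⟨⟨ly, cy⟩, -⟩ := mem_N4U' h1
      obtain ⟨⟨ly', cy'⟩, -⟩ := mem_N4U' h2
      obtain ⟨y0, p, v, v', F, hpsi, hmC, hPD, hPU, -⟩ := K.pu E (spt_mem O.spt ez) hz cy ly
      have hy'z : y' ∈ dc z' := by rw [hz']; simp
      have lz' := lev_dc E.H hy'z
      have h5 := hPU z' (spt_mem O.spt ez') (mem_PU'.2 ⟨by omega, by rw [hz', card_singleton], y',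
        mem_dc.1 hy'z, cy'⟩)
      subst h5
      rw [hz] at hz'
      exact hne (singleton_injective hz')
  rw [eq_empty_iff_forall_notMem]
  intro x hx
  unfold Rd.GS at hx
  obtain ⟨-, ex, y, y', hne, h1, h2⟩ := mem_filter.1 hx
  exact key x ex y y' hne h1 h2

end p1

end Pool.Agent.GaussPoset.Win.Rd

end

/-! From `Pool.Agent.W_448rd_h10.RdN` -/

section

/-!
MP_448cb3_co, G2, window `j - 1`: signs of cores, the leading coefficient; the twin blocks.
helper10.
-/

namespace Pool.Agent.GaussPoset.Win.Rd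

set_option linter.unusedSectionVars false

open Finset I2 K2
open Pool.Agent.GaussPoset.Win.H2 (SdT NoT low_T up_T sum_all)
open Pool.Agent.GaussPoset.Win.Xg (FlS Zr LoP UpP FP rm rm_le rm_of rm_y rm_p Okc Adm kp Lft mem_Lft
  CanD Can Tee Exo SdO Act laL laU)

universe u

variable {P : Type u} [Fintype P] [PartialOrder P] [DecidableEq P] {r i : ℕ} {e B : P → ℕ}
variable {psi : P → P} {C : Finset P} {Q : (P → ℕ) → Prop}

/-- the sign of a configuration -/
noncomputable def sg (i : ℕ) (e : P → ℕ) : ℤ :=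
  (-1) ^ (aL i e + aU i e + pU i e + (AL i e).card)

lemma cc_pow (a b : ℕ) : dd ∣ xx ^ a * xi ^ b - (((-1) ^ (a + b) : ℤ) : A) := by
  unfold dd
  rw [PowerSeries.X_dvd_iff, map_sub, map_mul, map_pow, map_pow, cc_xx, cc_xi, ← pow_add]
  simp

/-- the leading coefficient of the term of a core -/
theorem tC_lead (H : Gr P r) (hC : Part i C) (O : Okc i psi C e) {k : ℕ} (hk : kp i e = k) :
    k ≤ (st i C).card ∧
    dd ^ ((st i C).card - k + 1) ∣ tC i C e - (sg i e : A) * dd ^ ((st i C).card - k) := by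
  have hle := card_le_st H hC O.spt O.adm.d
  have hk' : (AL i e).card + (AU i e).card = k + (pL i e + pU i e) := by
    unfold Xg.kp at hk
    omega
  refine ⟨by omega, ?_⟩
  unfold Win.tC cw
  rw [if_pos O.adm.d, if_pos ⟨O.adm.l, O.adm.u⟩]
  have h1 : (pL i e + pU i e) + ((st i C).card - (AL i e).card - (AU i e).card) =
      (st i C).card - k := by omega
  have h2 : xx ^ aL i e * xi ^ (aU i e + pU i e) * dd ^ (pL i e + pU i e) *
      (xx ^ (AL i e).card * dd ^ ((st i C).card - (AL i e).card - (AU i e).card)) =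
      (xx ^ (aL i e + (AL i e).card) * xi ^ (aU i e + pU i e)) * dd ^ ((st i C).card - k) := by
    rw [← h1, pow_add dd, pow_add xx]
    ring
  have h3 : sg i e = (-1) ^ ((aL i e + (AL i e).card) + (aU i e + pU i e)) := by
    unfold sg
    congr 1
    omega
  rw [h2, h3, ← sub_mul, pow_succ, mul_comm _ dd]
  exact mul_dvd_mul (cc_pow _ _) (dvd_refl _)

/-- the sum over the leftover cores -/
theorem sum_lead (H : Gr P r) (hC : Part i C) (n K : ℕ) :
    dd ^ ((st i C).card - K) ∣ ∑ e ∈ Lft i psi C Q n K, tC i C e -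
      ((∑ e ∈ Lft i psi C Q n K, sg i e : ℤ) : A) * dd ^ ((st i C).card - (K + 1)) := by
  rw [Int.cast_sum, sum_mul, ← sum_sub_distrib]
  apply dvd_sum
  intro e he
  rw [mem_Lft] at he
  obtain ⟨h1, h2⟩ := tC_lead (k := K + 1) H hC he.2.1 (by rw [he.2.2.1]; push_cast; ring)
  have h3 : (st i C).card - (K + 1) + 1 = (st i C).card - K := by omega
  rwa [h3] at h2

section lft

variable (E : Ev r i psi C) (K : Kls i psi C Q)
include E K

/-- the inequality for the leftover cores -/
theorem lft_ineq {n k : ℕ} (he : e ∈ Lft i psi C Q n k) :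
    6 * (k + 1) ≤ 2 * n + ((TWL i e).card + (TWLx i e).card) + 4 * (NFL i e).card ∧
    5 * (TWL i e).card ≤ n := by
  obtain ⟨h1, O, h3, h4, h5⟩ := mem_Lft.1 he
  have g := generalx E.G E.hT E.hQ E.hM O.adm.l O.adm.u O.adm.d O.core
  have g2 := energy_gs E.G E.hT E.hQ E.hM O.adm.l O.adm.u O.adm.d O.core h4
  have h6 : TWU i e = ∅ := TWU_empty E.G
  have h7 := (TWx_card (i := i) (e := e)).2
  rw [h6, card_empty] at h7
  have h8 : (TWUx i e).card = 0 := by omega
  rw [K.P1L E O h5, K.P1U E O h5, K.GS E O h4, h4, h6, h8] at g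
  simp only [card_empty] at g
  have h9 : ∑ x, (e x : ℤ) = n := by exact_mod_cast h1
  rw [h9] at g
  have h10 : ((AL i e).card : ℤ) + (AU i e).card = (k + 1) + (pL i e + pU i e) := by
    unfold Xg.kp at h3
    omega
  constructor
  · have : (6 : ℤ) * (k + 1) ≤ 2 * n + ((TWL i e).card + (TWLx i e).card) +
        4 * (NFL i e).card := by
      push_cast at g
      linarith
    exact_mod_cast this
  · omega

end lft

/-! ### the twin blocks -/

/-- two twins over two double elements -/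
structure Tw (i : ℕ) (z z' w w2 p x q : P) : Prop where
  lz : lev z = i + 2
  uz : uc z = {w, w2}
  uz' : uc z' = {w, w2}
  uw : uc w = {p, x}
  uw2 : uc w2 = {x, q}
  dx : dc x = {w, w2}
  dw : dc w = {z, z'}
  dw2 : dc w2 = {z, z'}
  zz : z ≠ z'
  ww : w ≠ w2
  px : p ≠ x
  xq : x ≠ q
  pq : p ≠ q

/-- the elements of a twin block -/
noncomputable def WT (t : P × P) : Finset P := insert t.1 (insert t.2 (uc t.1))

/-- the sites of a twin block -/
noncomputable def XT (t : P × P) : Finset P := (uc t.1).biUnion uc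

/-- the labels of a twin block -/
noncomputable def bT (t : P × P) : P → ℕ :=
  fun v => if v = t.1 then 2 else if v ∈ WT t then 1 else 0

/-- the twin blocks of a part -/
structure IsTw (i : ℕ) (C : Finset P) (t : P × P) : Prop where
  tw : ∃ w w2 p x q, Tw i t.1 t.2 w w2 p x q
  m1 : t.1 ∈ C
  m2 : t.2 ∈ C
  rk : Xg.rk t.2 < Xg.rk t.1

open Classical in
/-- the twin blocks of a part -/
noncomputable def TWC (i : ℕ) (C : Finset P) : Finset (P × P) := univ.filter (IsTw i C)

lemma mem_TWC {t : P × P} : t ∈ TWC i C ↔ IsTw i C t := by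
  classical
  unfold TWC
  rw [mem_filter]
  exact ⟨fun h => h.2, fun h => ⟨mem_univ _, h⟩⟩

section tw

variable {z z' w w2 p x q : P} (H : Gr P r) (T : Tw i z z' w w2 p x q)

include T in
lemma Tw.W : WT (z, z') = {z, z', w, w2} := by
  unfold WT
  rw [T.uz]

include T in
lemma Tw.X : XT (z, z') = {p, x, q} := by
  unfold XT
  rw [T.uz, biUnion_insert, singleton_biUnion, T.uw, T.uw2]
  ext v
  simp only [mem_union, mem_insert, mem_singleton]
  tauto

include H T

lemma Tw.lv : lev z' = i + 2 ∧ lev w = i + 1 ∧ lev w2 = i + 1 ∧ lev p = i ∧ lev x = i ∧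
    lev q = i := by
  have h1 := lev_uc H (show w ∈ uc z by rw [T.uz]; simp)
  have h2 := lev_uc H (show w2 ∈ uc z by rw [T.uz]; simp)
  have h3 := lev_uc H (show w ∈ uc z' by rw [T.uz']; simp)
  have h4 := lev_uc H (show p ∈ uc w by rw [T.uw]; simp)
  have h5 := lev_uc H (show x ∈ uc w by rw [T.uw]; simp)
  have h6 := lev_uc H (show q ∈ uc w2 by rw [T.uw2]; simp)
  have := T.lz
  omega

lemma Tw.nes : z ≠ w ∧ z ≠ w2 ∧ z' ≠ w ∧ z' ≠ w2 := by
  obtain ⟨h1, h2, h3, -⟩ := T.lv H
  have := T.lz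
  refine ⟨?_, ?_, ?_, ?_⟩ <;> (rintro rfl; omega)

lemma Tw.b : bT (z, z') z = 2 ∧ bT (z, z') z' = 1 ∧ bT (z, z') w = 1 ∧ bT (z, z') w2 = 1 ∧
    ∀ v, v ∉ WT (z, z') → bT (z, z') v = 0 := by
  obtain ⟨n1, n2, n3, n4⟩ := T.nes H
  have hW := T.W
  refine ⟨?_, ?_, ?_, ?_, ?_⟩
  · unfold bT
    rw [if_pos rfl]
  · unfold bT
    rw [if_neg T.zz.symm, if_pos (by rw [hW]; simp)]
  · unfold bT
    rw [if_neg n1.symm, if_pos (by rw [hW]; simp)]
  · unfold bT
    rw [if_neg n2.symm, if_pos (by rw [hW]; simp)]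
  · intro v hv
    unfold bT
    rw [if_neg, if_neg hv]
    rintro rfl
    apply hv
    rw [hW]
    simp

/-- the block of two twins -/
lemma Tw.blk : Blk i (WT (z, z')) (XT (z, z')) (bT (z, z')) := by
  obtain ⟨l1, l2, l3, l4, l5, l6⟩ := T.lv H
  obtain ⟨n1, n2, n3, n4⟩ := T.nes H
  obtain ⟨b1, b2, b3, b4, b5⟩ := T.b H
  have lz := T.lz
  have hW := T.W
  have hX := T.X
  have mW : ∀ v, v ∈ WT (z, z') ↔ v = z ∨ v = z' ∨ v = w ∨ v = w2 := by
    intro v
    rw [hW]
    simp only [mem_insert, mem_singleton]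
  refine ⟨?_, ?_, ?_, ?_, ?_, ?_, ?_⟩
  · intro v hv
    rcases (mW v).1 hv with rfl | rfl | rfl | rfl <;> omega
  · intro v hv
    rcases (mW v).1 hv with rfl | rfl | rfl | rfl <;> omega
  · intro v hv hl
    rcases (mW v).1 hv with rfl | rfl | rfl | rfl
    · omega
    · omega
    · rw [T.uw, hX]
      intro a
      simp only [mem_insert, mem_singleton]
      tauto
    · rw [T.uw2, hX]
      intro a
      simp only [mem_insert, mem_singleton]
      tauto
  · intro v hv hl
    have h2 : ({w, w2} : Finset P) ⊆ WT (z, z') := by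
      rw [hW]
      intro a
      simp only [mem_insert, mem_singleton]
      tauto
    rcases (mW v).1 hv with rfl | rfl | rfl | rfl
    · rw [T.uz]
      exact h2
    · rw [T.uz']
      exact h2
    · omega
    · omega
  · rintro v hv hl ⟨⟨a, ha, haW, -⟩, -⟩
    have := lev_dc H ha
    rcases (mW v).1 hv with rfl | rfl | rfl | rfl
    · rcases (mW a).1 haW with rfl | rfl | rfl | rfl <;> omega
    · rcases (mW a).1 haW with rfl | rfl | rfl | rfl <;> omega
    · omega
    · omega
  · intro v hv hl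
    rcases (mW v).1 hv with rfl | rfl | rfl | rfl
    · omega
    · omega
    · exact ⟨z, by rw [T.dw]; simp, (mW z).2 (Or.inl rfl)⟩
    · exact ⟨z, by rw [T.dw2]; simp, (mW z).2 (Or.inl rfl)⟩
  · intro a ha
    rw [hX, mem_insert, mem_insert, mem_singleton] at ha
    rcases ha with rfl | rfl | rfl
    · exact ⟨l4, w, (mW w).2 (by simp), mem_dc.2 (mem_uc.1 (by rw [T.uw]; simp))⟩
    · exact ⟨l5, w, (mW w).2 (by simp), mem_dc.2 (mem_uc.1 (by rw [T.uw]; simp))⟩
    · exact ⟨l6, w2, (mW w2).2 (by simp), mem_dc.2 (mem_uc.1 (by rw [T.uw2]; simp))⟩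

lemma Tw.nums : aW (WT (z, z')) (bT (z, z')) = 2 ∧ pW (WT (z, z')) (bT (z, z')) = 1 ∧
    (XT (z, z')).card = 3 := by
  classical
  obtain ⟨l1, l2, l3, l4, l5, l6⟩ := T.lv H
  obtain ⟨n1, n2, n3, n4⟩ := T.nes H
  obtain ⟨b1, b2, b3, b4, b5⟩ := T.b H
  have lz := T.lz
  have hW := T.W
  have mW : ∀ v, v ∈ WT (z, z') ↔ v = z ∨ v = z' ∨ v = w ∨ v = w2 := by
    intro v
    rw [hW]
    simp only [mem_insert, mem_singleton]
  have lW : ∀ v ∈ WT (z, z'), lev v ≤ i + 2 := by
    intro v hv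
    rcases (mW v).1 hv with rfl | rfl | rfl | rfl <;> omega
  have f1 : bF (WT (z, z')) (bT (z, z')) w :=
    ⟨z, by rw [T.dw]; simp, (mW z).2 (Or.inl rfl), by omega⟩
  have f2 : bF (WT (z, z')) (bT (z, z')) w2 :=
    ⟨z, by rw [T.dw2]; simp, (mW z).2 (Or.inl rfl), by omega⟩
  have f3 : ∀ v, lev v = i + 2 → ¬ bF (WT (z, z')) (bT (z, z')) v := by
    rintro v hv ⟨a, ha, haW, -⟩
    have := lev_dc H ha
    have := lW a haW
    omega
  have g1 : ¬ bG (WT (z, z')) (bT (z, z')) z := by
    rintro ⟨y, hy, -, hle⟩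
    rw [T.uz, mem_insert, mem_singleton] at hy
    rcases hy with rfl | rfl <;> omega
  have g2 : bG (WT (z, z')) (bT (z, z')) z' :=
    ⟨w, by rw [T.uz']; simp, (mW w).2 (by simp), by omega⟩
  refine ⟨?_, ?_, ?_⟩
  · unfold aW
    rw [card_eq_two]
    refine ⟨w, w2, T.ww, ?_⟩
    ext v
    rw [mem_filter, mem_insert, mem_singleton, mW]
    constructor
    · rintro ⟨rfl | rfl | rfl | rfl, h2⟩
      · exact absurd h2 (f3 _ lz)
      · exact absurd h2 (f3 _ l1)
      · exact Or.inl rfl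
      · exact Or.inr rfl
    · rintro (rfl | rfl)
      · exact ⟨by simp, f1⟩
      · exact ⟨by simp, f2⟩
  · unfold pW
    rw [card_eq_one]
    refine ⟨z, ?_⟩
    ext v
    rw [mem_filter, mem_singleton, mW]
    constructor
    · rintro ⟨rfl | rfl | rfl | rfl, h2, h3⟩
      · rfl
      · exact absurd g2 h3
      · exact absurd f1 h2
      · exact absurd f2 h2
    · rintro rfl
      exact ⟨by simp, f3 _ lz, g1⟩
  · rw [T.X, card_insert_of_notMem, card_pair T.xq]
    simp only [mem_insert, mem_singleton, not_or]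
    exact ⟨T.px, T.pq⟩

end tw

end Pool.Agent.GaussPoset.Win.Rd

end

/-! From `Pool.Agent.W_448rd_h10.RdO` -/

section

/-!
MP_448cb3_co, G2, window `j - 1`: exact twin blocks inside a core; removal.  helper10.
-/

namespace Pool.Agent.GaussPoset.Win.Rd

set_option linter.unusedSectionVars false

open Finset I2 K2
open Pool.Agent.GaussPoset.Win.H2 (SdT NoT low_T up_T sum_all)
open Pool.Agent.GaussPoset.Win.Xg (FlS Zr LoP UpP FP rm rm_le rm_of rm_y rm_p Okc Adm kp Lft mem_Lft
  CanD Can Tee Exo SdO Act laL laU)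

universe u

lemma mem_TWx {P : Type u} [DecidableEq P] {c c' : P → Finset P} {e : P → ℕ} {t : P → ℕ}
    {Sd : Finset P} {z : P} : z ∈ TWx c c' e t Sd ↔ z ∈ Sd ∧ TWq c c' e t Sd z := by
  classical
  unfold TWx
  rw [mem_filter]

lemma mem_TW {P : Type u} [DecidableEq P] {c : P → Finset P} {e : P → ℕ} {t : P → ℕ}
    {Sd : Finset P} {z : P} : z ∈ TW c e t Sd ↔ z ∈ Sd ∧ TWp c e t Sd z := by
  classical
  unfold TW
  rw [mem_filter]

variable {P : Type u} [Fintype P] [PartialOrder P] [DecidableEq P] {r i : ℕ} {e B : P → ℕ}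
variable {psi : P → P} {C : Finset P} {Q : (P → ℕ) → Prop}

section rem

variable {W X : Finset P} {b : P → ℕ} (H : Gr P r) (K : Blk i W X b) (R : Rem W X b e B)
include H K R

lemma Rem.adm : Xg.Adm i e ↔ Xg.Adm i B := by
  constructor
  · intro h
    exact ⟨(R.adL H K).1 h.l, (R.adU H K).1 h.u, (R.disj H K).1 h.d⟩
  · intro h
    exact ⟨(R.adL H K).2 h.l, (R.adU H K).2 h.u, (R.disj H K).2 h.d⟩

lemma Rem.okc (hM : Mat P i ∅ psi) (hW : W ⊆ C) : Okc i psi C e ↔ Okc i psi C B := by
  constructor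
  · intro h
    exact ⟨(R.spt H K hW).1 h.spt, (R.core H K hM).1 h.core, (R.adm H K).1 h.adm⟩
  · intro h
    exact ⟨(R.spt H K hW).2 h.spt, (R.core H K hM).2 h.core, (R.adm H K).2 h.adm⟩

lemma Rem.kp : kp i e = kp i B + X.card - pW W b := by
  unfold Xg.kp
  rw [(R.AL H K).1, card_union_of_disjoint (R.AL H K).2, (R.AU H K).1, R.pL H K, R.pU H K]
  push_cast
  ring

lemma Rem.sg : Rd.sg i e = (-1) ^ (aW W b + X.card) * Rd.sg i B := by
  unfold Rd.sg
  rw [← pow_add, (R.AL H K).1, card_union_of_disjoint (R.AL H K).2, R.aL H K, R.aU H K, R.pU H K]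
  congr 1
  ring

end rem

/-- the labels of an exact twin block -/
structure Ex (i : ℕ) (e : P → ℕ) (t : P × P) : Prop where
  tw : ∃ w w2 p x q, Tw i t.1 t.2 w w2 p x q
  lab : ∀ v ∈ WT t, e v = bT t v
  X0 : ∀ x ∈ XT t, e x = 0
  dX : ∀ x ∈ XT t, ∀ v ∈ dc x, v ∉ WT t → e v = 0
  uX : ∀ x ∈ XT t, ∀ u ∈ uc x, e u = 0

/-- the labels without the block -/
noncomputable def offB (t : P × P) (e : P → ℕ) : P → ℕ := fun v => if v ∈ WT t then 0 else e v

section ex

variable {t : P × P}

lemma Ex.sptW (X : Ex i e t) (H : Gr P r) (hs : Spt C e) : WT t ⊆ C := by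
  obtain ⟨w, w2, p, x, q, T⟩ := X.tw
  obtain ⟨b1, b2, b3, b4, b5⟩ := Tw.b H T
  intro v hv
  apply spt_mem hs
  rw [X.lab v hv]
  have hW := T.W
  rw [show t = (t.1, t.2) from rfl] at hv ⊢
  rw [hW, mem_insert, mem_insert, mem_insert, mem_singleton] at hv
  rcases hv with rfl | rfl | rfl | rfl <;> omega

lemma Ex.rem (X : Ex i e t) (hch : ∀ w ∈ WT t, ∀ z ∈ dc w, z ∉ WT t → e z = 0) :
    Rem (WT t) (XT t) (bT t) e (offB t e) := by
  have h0 : ∀ v, e v = 0 → offB t e v = 0 := by
    intro v hv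
    unfold offB
    split_ifs
    · rfl
    · exact hv
  refine ⟨X.lab, ?_, ?_, ?_, ?_, ?_, ?_⟩
  · intro v hv
    unfold offB
    rw [if_pos hv]
  · intro v hv
    unfold offB
    rw [if_neg hv]
  · intro x hx
    exact h0 x (X.X0 x hx)
  · intro x hx v hv hvW
    exact h0 v (X.dX x hx v hv hvW)
  · intro x hx u hu
    exact h0 u (X.uX x hx u hu)
  · intro w hw z hz hzW
    exact h0 z (hch w hw z hz hzW)

/-- the places of a twin block are not exchangeable -/
lemma Ex.cc (X : Ex i e t) (H : Gr P r) (hrk : Xg.rk t.2 < Xg.rk t.1) {s : P × P}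
    (hs : s ∈ Xg.CC i e) : s.1 ∉ WT t := by
  obtain ⟨w, w2, p, x, q, T⟩ := X.tw
  obtain ⟨b1, b2, b3, b4, b5⟩ := Tw.b H T
  obtain ⟨l1, l2, l3, l4, l5, l6⟩ := Tw.lv H T
  have lz := T.lz
  have hW := T.W
  have mW : ∀ v, v ∈ WT t ↔ v = t.1 ∨ v = t.2 ∨ v = w ∨ v = w2 := by
    intro v
    rw [show WT t = WT (t.1, t.2) from rfl, hW]
    simp only [mem_insert, mem_singleton]
  have m1 : t.1 ∈ WT t := (mW _).2 (Or.inl rfl)
  have m2 : t.2 ∈ WT t := (mW _).2 (Or.inr (Or.inl rfl))
  have m3 : w ∈ WT t := (mW _).2 (by simp)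
  have m4 : w2 ∈ WT t := (mW _).2 (by simp)
  have e1 : e t.1 = 2 := by rw [X.lab _ m1]; exact b1
  have e2 : e t.2 = 1 := by rw [X.lab _ m2]; exact b2
  have e3 : e w = 1 := by rw [X.lab _ m3]; exact b3
  have e4 : e w2 = 1 := by rw [X.lab _ m4]; exact b4
  have hu : ∀ a ∈ uc t.1, e a = 1 ∧ ∀ s ∈ uc a, e s = 0 := by
    intro a ha
    refine ⟨?_, fun s hs => X.X0 s ?_⟩
    · rw [T.uz, mem_insert, mem_singleton] at ha
      rcases ha with rfl | rfl <;> assumption
    · unfold XT
      exact mem_biUnion.2 ⟨a, ha, hs⟩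
  have hzz : uc t.2 = uc t.1 := by rw [T.uz, T.uz']
  intro hsW
  rw [Xg.mem_CC H] at hs
  rcases hs with ⟨w', w2', p', q', TT, EE, hr⟩ | ⟨w', w2', p', q', TT, EE, hr⟩
  · have ld : lev s.1 = i + 2 := by
      have := TT.ld
      unfold laL at this
      omega
    have hs1 : s.1 = t.1 ∨ s.1 = t.2 := by
      rcases (mW _).1 hsW with h | h | h | h
      · exact Or.inl h
      · exact Or.inr h
      · rw [h] at ld; omega
      · rw [h] at ld; omega
    rcases hs1 with hs1 | hs1
    · have := hr t.2 (by rw [hzz, ← hs1]; exact TT.ud) (by rw [hs1]; exact hrk)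
      omega
    · have hw' : w' ∈ uc t.1 := by rw [← hzz, ← hs1, TT.ud]; simp
      have hw2' : w2' ∈ uc t.1 := by rw [← hzz, ← hs1, TT.ud]; simp
      have k1 := hu w' hw'
      have k2 := hu w2' hw2'
      have k3 := k1.2 s.2 (by rw [TT.uw]; simp)
      have k4 := EE.act
      unfold Act at k4
      rw [hs1] at k4
      omega
  · have ld : lev s.1 + 2 = i := by
      have := TT.ld
      unfold laU at this
      omega
    rcases (mW _).1 hsW with h | h | h | h <;> rw [h] at ld <;> omega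

/-- the reduced labelling -/
lemma Ex.rk (X : Ex i e t) (H : Gr P r) (hch : ∀ a ∈ dc t.1, e a ≤ 1)
    (hCC : Xg.CC i e = ∅) : Xg.rk t.2 < Xg.rk t.1 := by
  obtain ⟨w, w2, p, x, q, T⟩ := X.tw
  obtain ⟨b1, b2, b3, b4, b5⟩ := Tw.b H T
  obtain ⟨l1, l2, l3, l4, l5, l6⟩ := Tw.lv H T
  have lz := T.lz
  have hW := T.W
  have hX := T.X
  have mW : ∀ v, v ∈ WT t ↔ v = t.1 ∨ v = t.2 ∨ v = w ∨ v = w2 := by
    intro v
    rw [show WT t = WT (t.1, t.2) from rfl, hW]
    simp only [mem_insert, mem_singleton]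
  have m1 : t.1 ∈ WT t := (mW _).2 (Or.inl rfl)
  have m2 : t.2 ∈ WT t := (mW _).2 (Or.inr (Or.inl rfl))
  have m3 : w ∈ WT t := (mW _).2 (by simp)
  have m4 : w2 ∈ WT t := (mW _).2 (by simp)
  have e1 : e t.1 = 2 := by rw [X.lab _ m1]; exact b1
  have e2 : e t.2 = 1 := by rw [X.lab _ m2]; exact b2
  have e3 : e w = 1 := by rw [X.lab _ m3]; exact b3
  have e4 : e w2 = 1 := by rw [X.lab _ m4]; exact b4
  have x1 : p ∈ XT t := by rw [show XT t = XT (t.1, t.2) from rfl, hX]; simp
  have x2 : x ∈ XT t := by rw [show XT t = XT (t.1, t.2) from rfl, hX]; simp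
  have x3 : q ∈ XT t := by rw [show XT t = XT (t.1, t.2) from rfl, hX]; simp
  have e5 := X.X0 p x1
  have e6 := X.X0 x x2
  have e7 := X.X0 q x3
  by_contra hno
  have hne : Xg.rk t.1 ≠ Xg.rk t.2 := fun h => T.zz (Xg.rk_inj h)
  have hcan : Can dc uc (laL i) e t.1 x := by
    refine ⟨w, w2, p, q, ⟨by unfold laL; omega, T.uz, T.uw, T.uw2, T.dx, T.ww, T.px, T.xq, T.pq⟩,
      ⟨by omega, ?_, ?_, ?_, ?_, ?_⟩, ?_⟩
    · intro a ha
      have := hch a ha
      omega
    · intro u hu
      rw [X.uX x x2 u hu]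
      omega
    · right
      refine ⟨fun d' hd' hne' => ?_, by omega⟩
      rw [T.dw, mem_insert, mem_singleton] at hd'
      rcases hd' with rfl | rfl
      · exact absurd rfl hne'
      · omega
    · right
      refine ⟨fun d' hd' hne' => ?_, by omega⟩
      rw [T.dw2, mem_insert, mem_singleton] at hd'
      rcases hd' with rfl | rfl
      · exact absurd rfl hne'
      · omega
    · left
      left
      show e w < e t.1
      omega
    · intro d' hd' hlt
      have hd1 : d' ∈ dc w := mem_dc.2 (mem_uc.1 (by rw [hd']; simp))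
      rw [T.dw, mem_insert, mem_singleton] at hd1
      have hlt' : Xg.rk d' < Xg.rk t.1 := hlt
      rcases hd1 with rfl | rfl
      · omega
      · omega
  have hmem : (t.1, x) ∈ Xg.CC i e := by
    rw [Xg.mem_CC H]
    exact Or.inl hcan
  rw [hCC] at hmem
  exact notMem_empty _ hmem

end ex

section find

variable (E : Ev r i psi C) (O : Okc i psi C e)
include E O

/-- the exceptional twins form a block -/
lemma twx_ex {z : P} (hz : z ∈ TWLx i e) : ∃ z', Ex i e (z, z') := by
  classical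
  have HL := hypL E.G E.hT E.hQ E.hM O.adm.l O.adm.u O.adm.d O.core
  obtain ⟨zS, hp, ez, htw, hlab⟩ := mem_TWx.1 hz
  obtain ⟨w, w2, p, x, q, z', T, cz', hne, d1, d2, -⟩ := HL.tw_spec (mem_TW.2 ⟨zS, hp⟩)
  have lz : lev z = i + 2 := by
    have h1 := mem_lS.1 zS
    have h2 : lev z - i = 2 := T.tz
    omega
  have TT : Tw i z z' w w2 p x q :=
    ⟨lz, T.cz, cz', T.cw, T.cw2, T.dx, d1, d2, hne.symm, T.ne, T.px, T.xq, T.pq⟩
  obtain ⟨b1, b2, b3, b4, b5⟩ := TT.b E.H
  obtain ⟨l1, l2, l3, l4, l5, l6⟩ := TT.lv E.H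
  have hX : ∀ y ∈ XT (z, z'), ∃ a ∈ uc z, y ∈ uc a := by
    intro y hy
    unfold XT at hy
    obtain ⟨a, ha, hya⟩ := mem_biUnion.1 hy
    exact ⟨a, ha, hya⟩
  have hX0 : ∀ y ∈ XT (z, z'), e y = 0 := by
    intro y hy
    obtain ⟨a, ha, hya⟩ := hX y hy
    exact ((hlab a ha).2 y hya).1
  have hXl : ∀ y ∈ XT (z, z'), lev y = i := by
    intro y hy
    rw [TT.X, mem_insert, mem_insert, mem_singleton] at hy
    rcases hy with rfl | rfl | rfl <;> assumption
  refine ⟨z', ⟨⟨w, w2, p, x, q, TT⟩, ?_, hX0, ?_, ?_⟩⟩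
  · intro v hv
    rw [TT.W, mem_insert, mem_insert, mem_insert, mem_singleton] at hv
    rcases hv with rfl | rfl | rfl | rfl
    · rw [b1, ez]
    · rw [b2, htw v (by rw [cz', T.cz]) hne]
    · rw [b3, (hlab v (by rw [T.cz]; simp)).1]
    · rw [b4, (hlab v (by rw [T.cz]; simp)).1]
  · intro y hy v hv hvW
    obtain ⟨a, ha, hya⟩ := hX y hy
    refine ((hlab a ha).2 y hya).2 v hv (fun h => hvW ?_)
    unfold WT
    exact mem_insert_of_mem (mem_insert_of_mem h)
  · intro y hy u hu
    by_contra h0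
    obtain ⟨a, ha, hya⟩ := hX y hy
    have ey := hX0 y hy
    have h1 : y ∈ AL i e := by
      rw [NormD_mem_AL]
      refine ⟨hXl y hy, a, mem_uc.1 hya, ?_⟩
      rw [(hlab a ha).1]
      omega
    have h2 : y ∈ AU i e := by
      rw [NormD_mem_AU]
      exact ⟨hXl y hy, u, mem_uc.1 hu, by omega⟩
    exact disjoint_left.1 O.adm.d h1 h2

end find

end Pool.Agent.GaussPoset.Win.Rd

end

/-! From `Pool.Agent.W_448rd_h10.RdP` -/

section

/-!
MP_448cb3_co, G2, window `j - 1`: the leftover cores of energy eight: the rest of a twin block has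
no positive child of the block, or it is the chain of an inner join.  helper10.
-/

namespace Pool.Agent.GaussPoset.Win.Rd

set_option linter.unusedSectionVars false

open Finset I2 K2
open Pool.Agent.GaussPoset.Win.H2 (SdT NoT low_T up_T sum_all)
open Pool.Agent.GaussPoset.Win.Xg (FlS Zr LoP UpP FP rm rm_le rm_of rm_y rm_p Okc kp Lft mem_Lft
  CanD Can Tee Exo SdO Act laL laU)

universe u

variable {P : Type u} [Fintype P] [PartialOrder P] [DecidableEq P] {r i : ℕ} {e B : P → ℕ}
variable {psi : P → P} {C : Finset P} {Q : (P → ℕ) → Prop} {t : P × P}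

/-- the elements of a block -/
lemma Ex.mW (X : Ex i e t) : ∃ w w2 p x q, Tw i t.1 t.2 w w2 p x q ∧
    (∀ v, v ∈ WT t ↔ v = t.1 ∨ v = t.2 ∨ v = w ∨ v = w2) ∧
    (∀ v, v ∈ XT t ↔ v = p ∨ v = x ∨ v = q) := by
  obtain ⟨w, w2, p, x, q, T⟩ := X.tw
  refine ⟨w, w2, p, x, q, T, ?_, ?_⟩
  · intro v
    rw [show WT t = WT (t.1, t.2) from rfl, T.W]
    simp only [mem_insert, mem_singleton]
  · intro v
    rw [show XT t = XT (t.1, t.2) from rfl, T.X]
    simp only [mem_insert, mem_singleton]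

lemma Ex.levW (X : Ex i e t) (H : Gr P r) {v : P} (hv : v ∈ WT t) :
    (lev v = i + 1 ∨ lev v = i + 2) ∧ 1 ≤ e v ∧ e v ≤ 2 ∧ (lev v = i + 1 → v ∈ uc t.1 ∧ e v = 1) := by
  obtain ⟨w, w2, p, x, q, T, mW, -⟩ := X.mW
  obtain ⟨l1, l2, l3, l4, l5, l6⟩ := T.lv H
  obtain ⟨b1, b2, b3, b4, b5⟩ := Tw.b H T
  have lz := T.lz
  rw [X.lab v hv]
  have h1 : bT (t.1, t.2) = bT t := rfl
  rw [h1] at b1 b2 b3 b4
  rcases (mW v).1 hv with rfl | rfl | rfl | rfl
  · exact ⟨Or.inr lz, by omega, by omega, fun h => by omega⟩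
  · exact ⟨Or.inr l1, by omega, by omega, fun h => by omega⟩
  · exact ⟨Or.inl l2, by omega, by omega, fun _ => ⟨by rw [T.uz]; simp, b3⟩⟩
  · exact ⟨Or.inl l3, by omega, by omega, fun _ => ⟨by rw [T.uz]; simp, b4⟩⟩

lemma Ex.sumW (X : Ex i e t) (H : Gr P r) : ∑ v ∈ WT t, e v = 5 := by
  obtain ⟨w, w2, p, x, q, T, mW, -⟩ := X.mW
  obtain ⟨n1, n2, n3, n4⟩ := Tw.nes H T
  obtain ⟨b1, b2, b3, b4, b5⟩ := Tw.b H T
  have h1 : ∑ v ∈ WT t, e v = ∑ v ∈ WT t, bT t v := sum_congr rfl X.lab
  rw [h1, show WT t = WT (t.1, t.2) from rfl, T.W]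
  have h2 : bT (t.1, t.2) = bT t := rfl
  rw [h2] at b1 b2 b3 b4
  have g1 : t.2 ∉ ({w, w2} : Finset P) := by
    simp only [mem_insert, mem_singleton, not_or]
    exact ⟨n3, n4⟩
  have g2 : t.1 ∉ ({t.2, w, w2} : Finset P) := by
    simp only [mem_insert, mem_singleton, not_or]
    exact ⟨T.zz, n1, n2⟩
  rw [sum_insert g2, sum_insert g1, Finset.sum_pair T.ww, b1, b2, b3, b4]
  rfl

/-- the children of the upper elements of the block -/
lemma Ex.dcW (X : Ex i e t) (H : Gr P r) {a v : P} (hv : v ∈ WT t) (ha : a ∈ dc v)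
    (haW : a ∉ WT t) : (v = t.1 ∨ v = t.2) ∧ lev a = i + 3 := by
  obtain ⟨w, w2, p, x, q, T, mW, -⟩ := X.mW
  obtain ⟨l1, l2, l3, l4, l5, l6⟩ := T.lv H
  have lz := T.lz
  have la := lev_dc H ha
  have key : v ≠ w ∧ v ≠ w2 := by
    constructor
    · rintro rfl
      apply haW
      rw [T.dw, mem_insert, mem_singleton] at ha
      exact (mW a).2 (by tauto)
    · rintro rfl
      apply haW
      rw [T.dw2, mem_insert, mem_singleton] at ha
      exact (mW a).2 (by tauto)
  rcases (mW v).1 hv with rfl | rfl | rfl | rfl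
  · exact ⟨Or.inl rfl, by omega⟩
  · exact ⟨Or.inr rfl, by omega⟩
  · exact absurd rfl key.1
  · exact absurd rfl key.2

/-- parents of the block are in the block, or sites of the block -/
lemma Ex.ucW (X : Ex i e t) (H : Gr P r) {a v : P} (hv : v ∈ WT t) (ha : a ∈ uc v) :
    a ∈ WT t ∨ (lev v = i + 1 ∧ a ∈ XT t) := by
  obtain ⟨w, w2, p, x, q, T, mW, mX⟩ := X.mW
  obtain ⟨l1, l2, l3, l4, l5, l6⟩ := T.lv H
  rcases (mW v).1 hv with rfl | rfl | rfl | rfl
  · rw [T.uz, mem_insert, mem_singleton] at ha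
    exact Or.inl ((mW a).2 (by tauto))
  · rw [T.uz', mem_insert, mem_singleton] at ha
    exact Or.inl ((mW a).2 (by tauto))
  · rw [T.uw, mem_insert, mem_singleton] at ha
    exact Or.inr ⟨l2, (mX a).2 (by tauto)⟩
  · rw [T.uw2, mem_insert, mem_singleton] at ha
    exact Or.inr ⟨l3, (mX a).2 (by tauto)⟩

/-- the core of an inner join: a chain `y0, p0, c` with `c` below a twin -/
structure EtD (i : ℕ) (e : P → ℕ) (t : P × P) (c p0 y0 : P) : Prop where
  ly : lev y0 = i + 1
  cy : (uc y0).card = 2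
  up : uc p0 = {y0}
  cp : c ∈ dc p0
  cz : c ∈ dc t.1 ∨ c ∈ dc t.2
  yW : y0 ∉ WT t
  ey : e y0 = 1
  ep : e p0 = 1
  ec : e c = 1
  out : ∀ v, v ∉ WT t → v ≠ y0 → v ≠ p0 → v ≠ c → e v = 0

section main

variable (E : Ev r i psi C) (K : Kls i psi C Q)
include E K

/-- the leftover cores of energy eight have one exact block of twins -/
lemma lft_small {n k : ℕ} (he : e ∈ Lft i psi C Q n k) (hn : n ≤ 9) (hk : n < 3 * (k + 1)) :
    ∃ z, TWL i e = {z} ∧ z ∈ TWLx i e := by
  obtain ⟨h1, h2⟩ := lft_ineq E K he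
  obtain ⟨h3, O, h5, h6, h7⟩ := mem_Lft.1 he
  have h8 : NFL i e = ∅ := nf_empty E.G E.hT O.adm.l (by omega)
  rw [h8, card_empty] at h1
  have h9 := (TWx_card (i := i) (e := e)).1
  have h10 : (TWL i e).card = 1 := by omega
  have h11 : 0 < (TWLx i e).card := by omega
  obtain ⟨z, hz⟩ := card_eq_one.1 h10
  obtain ⟨z', hz'⟩ := card_pos.1 h11
  have h12 : z' ∈ TWL i e := by
    obtain ⟨a, b⟩ := mem_TWx.1 hz'
    exact mem_TW.2 ⟨a, b.1⟩
  rw [hz, mem_singleton] at h12
  subst h12
  exact ⟨z', hz, hz'⟩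

theorem lft8_cases (he : e ∈ Lft i psi C Q 8 2) : ∃ t, Ex i e t ∧ TWL i e = {t.1} ∧
    ((∀ w ∈ WT t, ∀ a ∈ dc w, a ∉ WT t → e a = 0) ∨ ∃ c p0 y0, EtD i e t c p0 y0) := by
  classical
  obtain ⟨z, hz, hzx⟩ := lft_small E K he (by norm_num) (by norm_num)
  obtain ⟨hsum, O, hkp, hCC, hnQ⟩ := mem_Lft.1 he
  obtain ⟨z', X⟩ := twx_ex E O hzx
  refine ⟨(z, z'), X, hz, ?_⟩
  by_cases hch : ∀ w ∈ WT (z, z'), ∀ a ∈ dc w, a ∉ WT (z, z') → e a = 0
  · exact Or.inl hch
  right
  push Not at hch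
  obtain ⟨w0, hw0, a, ha, haW, ea⟩ := hch
  obtain ⟨hw01, la⟩ := X.dcW E.H hw0 ha haW
  have ea1 : 1 ≤ e a := by omega
  have H := E.H
  have hr := E.hr
  have hS : ∀ S : Finset P, (∀ v ∈ S, v ∉ WT (z, z')) → ∑ v ∈ S, e v ≤ 3 := by
    intro S hS
    have h1 : Disjoint S (WT (z, z')) := by
      rw [disjoint_left]
      exact hS
    have h2 : ∑ v ∈ S ∪ WT (z, z'), e v ≤ ∑ v, e v := sum_le_sum_of_subset (subset_univ _)
    rw [sum_union h1, X.sumW H, hsum] at h2
    omega
  have nW : ∀ v, lev v ≠ i + 1 → lev v ≠ i + 2 → v ∉ WT (z, z') := by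
    intro v h1 h2 h3
    rcases (X.levW H h3).1 with h | h <;> omega
  have hl : ∀ a b : P, lev a ≠ lev b → a ≠ b := fun a b h h' => h (by rw [h'])
  obtain ⟨hz1, hz2, hz3, -⟩ := X.levW H (show z ∈ WT (z, z') by unfold WT; simp)
  obtain ⟨w, w2, p, x, q, T, mW, mX⟩ := X.mW
  have T' : Tw i z z' w w2 p x q := T
  have lz : lev z = i + 2 := T.lz
  have ez : e z = 2 := by
    rw [X.lab z (by unfold WT; simp)]
    exact (T'.b H).1
  -- a free element of level at least `i + 2`
  have hfree : ∃ b, i + 2 ≤ lev b ∧ ¬ FD e b ∧ ¬ GU e b := by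
    by_cases hFD : FD e z
    · obtain ⟨b, hb, hlt⟩ := hFD
      have lb := lev_dc H (mem_dc.2 hb)
      have hbW := nW b (by omega) (by omega)
      refine ⟨b, by omega, ?_, ?_⟩
      · rintro ⟨g, hg, hlt2⟩
        have lg := lev_dc H (mem_dc.2 hg)
        have := hS {b, g} (by
          intro v hv
          rw [mem_insert, mem_singleton] at hv
          rcases hv with rfl | rfl
          · exact hbW
          · exact nW v (by omega) (by omega))
        rw [Finset.sum_pair (hl _ _ (by omega))] at this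
        omega
      · rintro ⟨y', hy', hle⟩
        by_cases hyW : y' ∈ WT (z, z')
        · have := (X.levW H hyW).2.2.1
          omega
        · have ly := lev_uc H (mem_uc.2 hy')
          have := hS {b, y'} (by
            intro v hv
            rw [mem_insert, mem_singleton] at hv
            rcases hv with rfl | rfl
            · exact hbW
            · exact hyW)
          rw [Finset.sum_pair (hl _ _ (by omega))] at this
          omega
    · refine ⟨z, by omega, hFD, ?_⟩
      rintro ⟨y', hy', hle⟩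
      have h1 := X.ucW H (show z ∈ WT (z, z') by unfold WT; simp) (mem_uc.2 hy')
      rcases h1 with h1 | ⟨h1, -⟩
      · have ly := lev_uc H (mem_uc.2 hy')
        have := ((X.levW H h1).2.2.2 (by omega)).2
        omega
      · omega
  have hkp' : (AL i e).card + (AU i e).card = 3 + (pL i e + pU i e) := by
    unfold Xg.kp at hkp
    omega
  by_cases hB : ∃ g, g ∉ WT (z, z') ∧ 1 ≤ e g ∧
      ((lev g = i + 1 ∧ (uc g).card = 2) ∨ (lev g + 1 = i ∧ (dc g).card = 2))
  swap
  · -- case A: all near positive elements outside the block are single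
    exfalso
    push Not at hB
    obtain ⟨b, hb1, hb2, hb3⟩ := hfree
    obtain ⟨FL, hFL⟩ : ∃ F : Finset P, F = univ.filter (fun g : P => lev g = i + 1 ∧ ¬ FD e g ∧
      ¬ GU e g) := ⟨_, rfl⟩
    obtain ⟨FU', hFU⟩ : ∃ F : Finset P, F = univ.filter (fun g : P => lev g + 1 = i ∧ ¬ FU e g ∧
      ¬ GD e g) := ⟨_, rfl⟩
    have mFL : ∀ g, g ∈ FL ↔ lev g = i + 1 ∧ ¬ FD e g ∧ ¬ GU e g := by
      intro g
      rw [hFL, mem_filter]
      simp only [mem_univ, true_and]
    have mFU : ∀ g, g ∈ FU' ↔ lev g + 1 = i ∧ ¬ FU e g ∧ ¬ GD e g := by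
      intro g
      rw [hFU, mem_filter]
      simp only [mem_univ, true_and]
    have hcL : ∀ g ∈ FL, (uc g).card ≤ 1 := by
      intro g hg
      obtain ⟨h1, h2, h3⟩ := (mFL g).1 hg
      have hgW : g ∉ WT (z, z') := by
        intro h
        have h4 := (X.levW H h).2.2.2 h1
        apply h2
        have h5 : g ∈ uc z := h4.1
        exact ⟨z, mem_uc.1 h5, by omega⟩
      obtain ⟨s, hs⟩ := uc_nonempty H (x := g) (by omega)
      have eg : 1 ≤ e g := by
        by_contra h4
        exact h3 ⟨s, mem_uc.1 hs, by omega⟩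
      have h5 := (hB g hgW eg).1 h1
      have := uc_card_le H g
      omega
    have hcU : ∀ g ∈ FU', (dc g).card ≤ 1 := by
      intro g hg
      obtain ⟨h1, h2, h3⟩ := (mFU g).1 hg
      have hgW : g ∉ WT (z, z') := nW g (by omega) (by omega)
      obtain ⟨s, hs⟩ := dc_nonempty H (x := g) (by omega)
      have eg : 1 ≤ e g := by
        by_contra h4
        exact h3 ⟨s, mem_dc.1 hs, by omega⟩
      have h5 := (hB g hgW eg).2 h1
      have := dc_card_le H g
      omega
    have hsub : (AL i e ∪ AU i e) ⊆ XT (z, z') ∪ (FL.biUnion uc ∪ FU'.biUnion dc) := by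
      intro s hs
      by_cases hsX : s ∈ XT (z, z')
      · exact mem_union_left _ hsX
      refine mem_union_right _ ?_
      rcases mem_union.1 hs with h | h
      · refine mem_union_left _ (mem_biUnion.2 ?_)
        rw [NormD_mem_AL] at h
        obtain ⟨ls, g, hg, hlt⟩ := h
        have lg := lev_dc H (mem_dc.2 hg)
        have hgW : g ∉ WT (z, z') := by
          intro h1
          rcases X.ucW H h1 (mem_uc.2 hg) with h2 | ⟨-, h2⟩
          · have := (X.levW H h2).1
            omega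
          · exact hsX h2
        have h5 := (hB g hgW (by omega)).1 (by omega)
        have h6 := uc_card_le H g
        have h7 : s ∈ uc g := mem_uc.2 hg
        have h8 : uc g = {s} := by
          have : (uc g).card = 1 := by
            have : 0 < (uc g).card := card_pos.2 ⟨s, h7⟩
            omega
          obtain ⟨s', hs'⟩ := card_eq_one.1 this
          rw [hs', mem_singleton] at h7
          rw [hs', h7]
        refine ⟨g, (mFL g).2 ⟨by omega, ?_, ?_⟩, h7⟩
        · rintro ⟨h9, hh, hlt2⟩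
          have lh := lev_dc H (mem_dc.2 hh)
          have hhW : h9 ∉ WT (z, z') := by
            intro h1
            rcases X.ucW H h1 (mem_uc.2 hh) with h2 | ⟨h2, -⟩
            · exact hgW h2
            · omega
          have := hS {g, h9, a} (by
            intro v hv
            rw [mem_insert, mem_insert, mem_singleton] at hv
            rcases hv with rfl | rfl | rfl <;> assumption)
          rw [sum_insert, Finset.sum_pair (hl _ _ (by omega))] at this
          · omega
          · simp only [mem_insert, mem_singleton, not_or]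
            exact ⟨hl _ _ (by omega), hl _ _ (by omega)⟩
        · rintro ⟨y', hy', hle⟩
          have : y' ∈ uc g := mem_uc.2 hy'
          rw [h8, mem_singleton] at this
          subst this
          omega
      · refine mem_union_right _ (mem_biUnion.2 ?_)
        rw [NormD_mem_AU] at h
        obtain ⟨ls, g, hg, hlt⟩ := h
        have lg := lev_uc H (mem_uc.2 hg)
        have hgW : g ∉ WT (z, z') := nW g (by omega) (by omega)
        have h5 := (hB g hgW (by omega)).2 (by omega)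
        have h6 := dc_card_le H g
        have h7 : s ∈ dc g := mem_dc.2 hg
        have h8 : dc g = {s} := by
          have : (dc g).card = 1 := by
            have : 0 < (dc g).card := card_pos.2 ⟨s, h7⟩
            omega
          obtain ⟨s', hs'⟩ := card_eq_one.1 this
          rw [hs', mem_singleton] at h7
          rw [hs', h7]
        refine ⟨g, (mFU g).2 ⟨by omega, ?_, ?_⟩, h7⟩
        · rintro ⟨h9, hh, hlt2⟩
          have lh := lev_uc H (mem_uc.2 hh)
          have hhW : h9 ∉ WT (z, z') := nW h9 (by omega) (by omega)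
          have := hS {g, h9, a} (by
            intro v hv
            rw [mem_insert, mem_insert, mem_singleton] at hv
            rcases hv with rfl | rfl | rfl <;> assumption)
          rw [sum_insert, Finset.sum_pair (hl _ _ (by omega))] at this
          · omega
          · simp only [mem_insert, mem_singleton, not_or]
            exact ⟨hl _ _ (by omega), hl _ _ (by omega)⟩
        · rintro ⟨y', hy', hle⟩
          have : y' ∈ dc g := mem_dc.2 hy'
          rw [h8, mem_singleton] at this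
          subst this
          omega
    have c1 : (AL i e ∪ AU i e).card ≤ 3 + (FL.card + FU'.card) := by
      have h1 := card_le_card hsub
      have h2 := card_union_le (XT (z, z')) (FL.biUnion uc ∪ FU'.biUnion dc)
      have h3 := card_union_le (FL.biUnion uc) (FU'.biUnion dc)
      have h4 : (FL.biUnion uc).card ≤ FL.card := by
        have := card_biUnion_le_card_mul FL uc 1 hcL
        omega
      have h5 : (FU'.biUnion dc).card ≤ FU'.card := by
        have := card_biUnion_le_card_mul FU' dc 1 hcU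
        omega
      have h6 := (T'.nums H).2.2
      omega
    rw [card_union_of_disjoint O.adm.d] at c1
    have c2 : FL.card + 1 ≤ pL i e := by
      have h1 : b ∉ FL := by
        intro h
        have := ((mFL b).1 h).1
        omega
      rw [← card_insert_of_notMem h1]
      unfold Win.pL
      apply card_le_card
      intro g hg
      rw [mem_filter]
      rcases mem_insert.1 hg with rfl | hg
      · exact ⟨mem_univ _, by omega, hb2, hb3⟩
      · obtain ⟨h2, h3, h4⟩ := (mFL g).1 hg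
        exact ⟨mem_univ _, by omega, h3, h4⟩
    have c3 : FU'.card ≤ pU i e := by
      unfold Win.pU
      apply card_le_card
      intro g hg
      rw [mem_filter]
      obtain ⟨h2, h3, h4⟩ := (mFU g).1 hg
      exact ⟨mem_univ _, by omega, h3, h4⟩
    omega
  -- case B
  obtain ⟨g, hgW, eg, hg⟩ := hB
  rcases hg with ⟨lg, cg⟩ | ⟨lg, cg⟩
  · -- lower
    obtain ⟨s1, s2, hs12, hcg⟩ := card_eq_two.1 cg
    have l1 := lev_uc H (show s1 ∈ uc g by rw [hcg]; simp)
    have l2 := lev_uc H (show s2 ∈ uc g by rw [hcg]; simp)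
    have hgB : g ∉ BGL i psi e := by
      intro h
      have h1 := bgL E.G E.hM O.adm.d h
      have h2 := (mem_BGL.1 h).2.2
      obtain ⟨p1, p2, p3⟩ := psiL E.hM lg cg
      have e1 := h1 s1 (by rw [hcg]; simp)
      have e2 := h1 s2 (by rw [hcg]; simp)
      have := hS {g, psi g, s1, s2} (by
        intro v hv
        rw [mem_insert, mem_insert, mem_insert, mem_singleton] at hv
        rcases hv with rfl | rfl | rfl | rfl
        · exact hgW
        · exact nW _ (by omega) (by omega)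
        · exact nW _ (by omega) (by omega)
        · exact nW _ (by omega) (by omega))
      rw [sum_insert, sum_insert, Finset.sum_pair hs12] at this
      · omega
      · simp only [mem_insert, mem_singleton, not_or]
        exact ⟨hl _ _ (by omega), hl _ _ (by omega)⟩
      · simp only [mem_insert, mem_singleton, not_or]
        exact ⟨hl _ _ (by omega), hl _ _ (by omega), hl _ _ (by omega)⟩
    obtain ⟨b, hb, eb⟩ := touchL E.hM O.adm.u O.core lg cg hgB eg
    have lb := lev_dc H hb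
    have hbW : b ∉ WT (z, z') := by
      intro h
      rcases X.ucW H h (mem_uc.2 (mem_dc.1 hb)) with h1 | ⟨h1, -⟩
      · exact hgW h1
      · omega
    have ngb : g ≠ b := hl _ _ (by omega)
    have nga : g ≠ a := hl _ _ (by omega)
    have nba : b ≠ a := hl _ _ (by omega)
    have hfour : ∀ v, v ∉ WT (z, z') → v ≠ g → v ≠ b → v ≠ a → e v = 0 := by
      intro v hv h1 h2 h3
      have := hS {v, g, b, a} (by
        intro v' hv'
        rw [mem_insert, mem_insert, mem_insert, mem_singleton] at hv'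
        rcases hv' with rfl | rfl | rfl | rfl <;> assumption)
      rw [sum_insert, sum_insert, Finset.sum_pair nba] at this
      · omega
      · simp only [mem_insert, mem_singleton, not_or]
        exact ⟨ngb, nga⟩
      · simp only [mem_insert, mem_singleton, not_or]
        exact ⟨h1, h2, h3⟩
    have hthree := hS {g, b, a} (by
      intro v' hv'
      rw [mem_insert, mem_insert, mem_singleton] at hv'
      rcases hv' with rfl | rfl | rfl <;> assumption)
    rw [sum_insert (by simp only [mem_insert, mem_singleton, not_or]; exact ⟨ngb, nga⟩),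
      Finset.sum_pair nba] at hthree
    have eg1 : e g = 1 := by omega
    have eb1 : e b = 1 := by omega
    have ea2 : e a = 1 := by omega
    have hgb : g ∈ uc b := mem_uc.2 (mem_dc.1 hb)
    have hub : uc b = {g} := by
      by_contra hne
      have h2 : 1 < (uc b).card := by
        by_contra h3
        apply hne
        have : (uc b).card = 1 := by
          have : 0 < (uc b).card := card_pos.2 ⟨g, hgb⟩
          omega
        obtain ⟨y, hy⟩ := card_eq_one.1 this
        rw [hy, mem_singleton] at hgb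
        rw [hy, hgb]
      obtain ⟨g', hg', hne'⟩ := exists_mem_ne h2 g
      have lg' := lev_uc H hg'
      have eg' : 1 ≤ e g' := adm_pos H O.adm.l (by omega) (mem_dc.2 (mem_uc.1 hg')) (by omega)
      have hgW' : g' ∉ WT (z, z') := by
        intro h
        have h5 : b ∈ dc g' := mem_dc.2 (mem_uc.1 hg')
        have := (X.dcW H h h5 hbW).2
        omega
      have := hfour g' hgW' hne' (hl _ _ (by omega)) (hl _ _ (by omega))
      omega
    obtain ⟨w1, u1, v, v', F, hpsi, hmC, hPD, hPU, rfl⟩ := K.pd E (spt_mem O.spt eb) hub cg lg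
    obtain ⟨k1, k2, k3, k4⟩ := F.lv H
    have lw1 := F.lw
    have hab : a ∈ dc b := by
      by_contra hab
      apply hnQ
      left
      have r0 : ∀ z, e z = 0 → rm g b e z = 0 := by
        intro z hz
        have := rm_le (y := g) (p := b) (e := e) (z := z)
        omega
      have hv : v ∈ uc g := by rw [F.uy]; simp
      have hv' : v' ∈ uc g := by rw [F.uy]; simp
      have dv : ∀ x ∈ uc g, ∀ c ∈ dc x, rm g b e c = 0 := by
        intro x hx c hc
        by_cases hcg' : c = g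
        · rw [hcg', rm_y]
        have lx := lev_uc H hx
        have lc := lev_dc H hc
        apply r0
        by_cases hcW : c ∈ WT (z, z')
        · exfalso
          rcases X.ucW H hcW (mem_uc.2 (mem_dc.1 hc)) with h1 | ⟨-, h1⟩
          · exact nW x (by omega) (by omega) h1
          · have := X.dX x h1 g (mem_dc.2 (mem_uc.1 hx)) hgW
            omega
        · exact hfour c hcW hcg' (hl _ _ (by omega)) (hl _ _ (by omega))
      have hlow : ∀ c, lev c ≤ i → e c = 0 := by
        intro c hc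
        exact hfour c (nW c (by omega) (by omega)) (hl _ _ (by omega)) (hl _ _ (by omega))
          (hl _ _ (by omega))
      refine ⟨eg1, eb1, ⟨r0 v (hlow v (by omega)), r0 v' (hlow v' (by omega)), dv v hv, dv v' hv',
        fun c hc => r0 c (hlow c (by have := lev_uc H hc; omega)),
        fun c hc => r0 c (hlow c (by have := lev_uc H hc; omega)), ?_, ?_,
        fun c hc => r0 c (hlow c (by have := lev_uc H hc; omega)),
        fun c hc => r0 c (hlow c (by have := lev_uc H hc; omega))⟩⟩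
      · intro c hc
        by_cases hcb : c = b
        · rw [hcb, rm_p]
        have lc := lev_dc H hc
        apply r0
        have hcW : c ∉ WT (z, z') := by
          intro h
          rcases X.ucW H h (mem_uc.2 (mem_dc.1 hc)) with h1 | ⟨h1, -⟩
          · exact hgW h1
          · omega
        exact hfour c hcW (hl _ _ (by omega)) hcb (hl _ _ (by omega))
      · intro c hc
        have lc := lev_dc H hc
        apply r0
        refine hfour c (nW c (by omega) (by omega)) (hl _ _ (by omega)) (hl _ _ (by omega)) ?_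
        rintro rfl
        exact hab hc
    refine ⟨a, b, g, ⟨lg, cg, hub, hab, ?_, hgW, eg1, eb1, ea2, hfour⟩⟩
    rcases hw01 with rfl | rfl
    · exact Or.inl ha
    · exact Or.inr ha
  · -- upper
    exfalso
    obtain ⟨s1, s2, hs12, hcg⟩ := card_eq_two.1 cg
    have l1 := lev_dc H (show s1 ∈ dc g by rw [hcg]; simp)
    have l2 := lev_dc H (show s2 ∈ dc g by rw [hcg]; simp)
    have hgB : g ∉ BGU i psi e := by
      intro h
      have h1 := bgU E.G E.hM O.adm.d h
      have h2 := (mem_BGU.1 h).2.2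
      obtain ⟨p1, p2, p3⟩ := psiU E.hM lg cg
      have e1 := h1 s1 (by rw [hcg]; simp)
      have e2 := h1 s2 (by rw [hcg]; simp)
      have := hS {a, g, s1, s2} (by
        intro v hv
        rw [mem_insert, mem_insert, mem_insert, mem_singleton] at hv
        rcases hv with rfl | rfl | rfl | rfl
        · exact haW
        · exact nW _ (by omega) (by omega)
        · exact nW _ (by omega) (by omega)
        · exact nW _ (by omega) (by omega))
      rw [sum_insert, sum_insert, Finset.sum_pair hs12] at this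
      · omega
      · simp only [mem_insert, mem_singleton, not_or]
        exact ⟨hl _ _ (by omega), hl _ _ (by omega)⟩
      · simp only [mem_insert, mem_singleton, not_or]
        exact ⟨hl _ _ (by omega), hl _ _ (by omega), hl _ _ (by omega)⟩
    obtain ⟨b, hb, eb⟩ := touchU E.hM O.adm.l O.core lg cg hgB eg
    have lb := lev_uc H hb
    have hbW : b ∉ WT (z, z') := nW b (by omega) (by omega)
    have ngb : g ≠ b := hl _ _ (by omega)
    have nga : g ≠ a := hl _ _ (by omega)
    have nba : b ≠ a := hl _ _ (by omega)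
    have hfour : ∀ v, v ∉ WT (z, z') → v ≠ g → v ≠ b → v ≠ a → e v = 0 := by
      intro v hv h1 h2 h3
      have := hS {v, g, b, a} (by
        intro v' hv'
        rw [mem_insert, mem_insert, mem_insert, mem_singleton] at hv'
        rcases hv' with rfl | rfl | rfl | rfl <;> assumption)
      rw [sum_insert, sum_insert, Finset.sum_pair nba] at this
      · omega
      · simp only [mem_insert, mem_singleton, not_or]
        exact ⟨ngb, nga⟩
      · simp only [mem_insert, mem_singleton, not_or]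
        exact ⟨h1, h2, h3⟩
    have hthree := hS {g, b, a} (by
      intro v' hv'
      rw [mem_insert, mem_insert, mem_singleton] at hv'
      rcases hv' with rfl | rfl | rfl <;> assumption)
    rw [sum_insert (by simp only [mem_insert, mem_singleton, not_or]; exact ⟨ngb, nga⟩),
      Finset.sum_pair nba] at hthree
    have eg1 : e g = 1 := by omega
    have eb1 : e b = 1 := by omega
    have hgb : g ∈ dc b := mem_dc.2 (mem_uc.1 hb)
    have hub : dc b = {g} := by
      by_contra hne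
      have h2 : 1 < (dc b).card := by
        by_contra h3
        apply hne
        have : (dc b).card = 1 := by
          have : 0 < (dc b).card := card_pos.2 ⟨g, hgb⟩
          omega
        obtain ⟨y, hy⟩ := card_eq_one.1 this
        rw [hy, mem_singleton] at hgb
        rw [hy, hgb]
      obtain ⟨g', hg', hne'⟩ := exists_mem_ne h2 g
      have lg' := lev_dc H hg'
      have eg' : 1 ≤ e g' := adm_posU H (by omega) O.adm.u (by omega) (mem_uc.2 (mem_dc.1 hg'))
        (by omega)
      have := hfour g' (nW g' (by omega) (by omega)) hne' (hl _ _ (by omega))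
        (hl _ _ (by omega))
      omega
    obtain ⟨y1, p1, v, v', F, hpsi, hmC, hPD, hPU, rfl⟩ := K.pu E (spt_mem O.spt eb) hub cg lg
    obtain ⟨k1, k2, k3, k4⟩ := F.lv H
    obtain ⟨f1, f2, f3, f4⟩ := F.mems H
    have ly1 := F.ly
    apply hnQ
    right
    have r0 : ∀ z, e z = 0 → rm g b e z = 0 := by
      intro z hz
      have := rm_le (y := g) (p := b) (e := e) (z := z)
      omega
    have hv : v ∈ dc g := by rw [F.dw]; simp
    have hv' : v' ∈ dc g := by rw [F.dw]; simp
    have vX : ∀ x ∈ dc g, x ∉ XT (z, z') := by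
      intro x hx h1
      have := X.uX x h1 g (mem_uc.2 (mem_dc.1 hx))
      omega
    have dv0 : ∀ x ∈ dc g, ∀ c ∈ dc x, e c = 0 := by
      intro x hx c hc
      have lx := lev_dc H hx
      have lc := lev_dc H hc
      by_cases hcW : c ∈ WT (z, z')
      · exfalso
        rcases X.ucW H hcW (mem_uc.2 (mem_dc.1 hc)) with h1 | ⟨-, h1⟩
        · exact nW x (by omega) (by omega) h1
        · exact vX x hx h1
      · exact hfour c hcW (hl _ _ (by omega)) (hl _ _ (by omega)) (hl _ _ (by omega))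
    have ey1 : e y1 = 0 := dv0 v hv y1 f3
    have hlow : ∀ c, lev c ≤ i → c ≠ g → c ≠ b → e c = 0 := by
      intro c hc h1 h2
      exact hfour c (nW c (by omega) (by omega)) h1 h2 (hl _ _ (by omega))
    have uv : ∀ x ∈ dc g, ∀ c ∈ uc x, rm g b e c = 0 := by
      intro x hx c hc
      have lx := lev_dc H hx
      have lc := lev_uc H hc
      by_cases h1 : c = g
      · rw [h1, rm_y]
      by_cases h2 : c = b
      · rw [h2, rm_p]
      exact r0 c (hlow c (by omega) h1 h2)
    have ep1 : e p1 = 0 := by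
      by_contra h0
      have := adm_pos H O.adm.l (by omega) f4 (by omega)
      omega
    refine ⟨eg1, eb1, ⟨r0 v (hlow v (by omega) (hl _ _ (by omega)) (hl _ _ (by omega))),
      r0 v' (hlow v' (by omega) (hl _ _ (by omega)) (hl _ _ (by omega))),
      fun c hc => r0 c (dv0 v hv c hc), fun c hc => r0 c (dv0 v' hv' c hc),
      uv v hv, uv v' hv', ?_, ?_, ?_, ?_⟩⟩
    · intro c hc
      apply r0
      by_contra h0
      have := adm_pos H O.adm.l (by omega) hc (by omega)
      omega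
    · intro c hc
      apply r0
      by_contra h0
      have := adm_pos H O.adm.l (by omega) hc (by omega)
      omega
    · intro c hc
      have lc := lev_uc H hc
      by_cases h1 : c = g
      · rw [h1, rm_y]
      by_cases h2 : c = b
      · rw [h2, rm_p]
      exact r0 c (hlow c (by omega) h1 h2)
    · intro c hc
      have lc := lev_uc H hc
      by_cases h1 : c = g
      · rw [h1, rm_y]
      by_cases h2 : c = b
      · rw [h2, rm_p]
      exact r0 c (hlow c (by omega) h1 h2)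

end main

end Pool.Agent.GaussPoset.Win.Rd

end

/-! From `Pool.Agent.W_448rd_h10.RdR` -/

section

/-!
MP_448cb3_co, G2, window `j - 1`: the leftover sum (5,1); a twin block plus a compatible core.
helper10.
-/

namespace Pool.Agent.GaussPoset.Win.Rd

set_option linter.unusedSectionVars false

open Finset I2 K2
open Pool.Agent.GaussPoset.Win.H2 (SdT NoT low_T up_T sum_all)
open Pool.Agent.GaussPoset.Win.Xg (FlS Zr LoP UpP FP rm rm_le rm_of rm_y rm_p Okc kp Lft mem_Lft
  CanD Can Tee Exo SdO Act laL laU)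

universe u

variable {P : Type u} [Fintype P] [PartialOrder P] [DecidableEq P] {r i : ℕ} {e B : P → ℕ}
variable {psi : P → P} {C : Finset P} {Q : (P → ℕ) → Prop} {t : P × P}

/-- the zero labelling -/
def Z0 : P → ℕ := fun _ => 0

lemma z0_FD {v : P} : ¬ FD (Z0 : P → ℕ) v := by
  rintro ⟨z, hz, h⟩
  exact absurd h (Nat.lt_irrefl 0)

lemma z0_FU {v : P} : ¬ FU (Z0 : P → ℕ) v := by
  rintro ⟨z, hz, h⟩
  exact absurd h (Nat.lt_irrefl 0)

lemma z0_AL : AL i (Z0 : P → ℕ) = ∅ := by
  ext v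
  rw [NormD_mem_AL]
  exact ⟨fun h => absurd h.2 z0_FD, fun h => absurd h (notMem_empty _)⟩

lemma z0_AU : AU i (Z0 : P → ℕ) = ∅ := by
  ext v
  rw [NormD_mem_AU]
  exact ⟨fun h => absurd h.2 z0_FU, fun h => absurd h (notMem_empty _)⟩

lemma z0_okc : Okc i psi C (Z0 : P → ℕ) where
  spt := fun _ _ => rfl
  core := fun _ _ => rfl
  adm := ⟨fun _ _ h => z0_FD h.1, fun _ _ h => z0_FU h.1, by
    rw [z0_AL]
    exact disjoint_empty_left _⟩

lemma z0_nums (H : Gr P r) (hr : i + 1 ≤ r) : aL i (Z0 : P → ℕ) = 0 ∧ pL i (Z0 : P → ℕ) = 0 ∧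
    aU i (Z0 : P → ℕ) = 0 ∧ pU i (Z0 : P → ℕ) = 0 := by
  classical
  refine ⟨?_, ?_, ?_, ?_⟩
  · unfold aL
    rw [card_eq_zero, filter_eq_empty_iff]
    rintro v - ⟨-, h⟩
    exact z0_FD h
  · unfold pL
    rw [card_eq_zero, filter_eq_empty_iff]
    rintro v - ⟨h1, -, h⟩
    obtain ⟨y, hy⟩ := uc_nonempty H (x := v) (by omega)
    exact h ⟨y, mem_uc.1 hy, le_refl _⟩
  · unfold aU
    rw [card_eq_zero, filter_eq_empty_iff]
    rintro v - ⟨-, h⟩
    exact z0_FU h
  · unfold pU
    rw [card_eq_zero, filter_eq_empty_iff]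
    rintro v - ⟨h1, -, h⟩
    obtain ⟨y, hy⟩ := dc_nonempty H (x := v) (by omega)
    exact h ⟨y, mem_dc.1 hy, le_refl _⟩

lemma z0_kp (H : Gr P r) (hr : i + 1 ≤ r) : kp i (Z0 : P → ℕ) = 0 := by
  obtain ⟨h1, h2, h3, h4⟩ := z0_nums (P := P) (i := i) H hr
  unfold Xg.kp
  rw [z0_AL, z0_AU, h2, h4, card_empty]
  simp

lemma z0_sg (H : Gr P r) (hr : i + 1 ≤ r) : sg i (Z0 : P → ℕ) = 1 := by
  obtain ⟨h1, h2, h3, h4⟩ := z0_nums (P := P) (i := i) H hr
  unfold Rd.sg
  rw [z0_AL, h1, h3, h4, card_empty]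
  simp

lemma z0_CC (H : Gr P r) : Xg.CC i (Z0 : P → ℕ) = ∅ := by
  rw [eq_empty_iff_forall_notMem]
  intro s hs
  rw [Xg.mem_CC H] at hs
  rcases hs with ⟨w, w2, p, q, T, E, h⟩ | ⟨w, w2, p, q, T, E, h⟩
  · exact absurd E.pos (by unfold Z0; omega)
  · exact absurd E.pos (by unfold Z0; omega)

/-- compatible with a twin block -/
structure Cpt (t : P × P) (B : P → ℕ) : Prop where
  W : ∀ v ∈ WT t, B v = 0 ∧ ∀ z ∈ dc v, B z = 0
  X : ∀ x ∈ XT t, B x = 0 ∧ (∀ v ∈ dc x, B v = 0) ∧ ∀ u ∈ uc x, B u = 0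

/-- add a twin block -/
noncomputable def addT (t : P × P) (B : P → ℕ) : P → ℕ := fun v => B v + bT t v

lemma cpt_zero : Cpt t (Z0 : P → ℕ) :=
  ⟨fun _ _ => ⟨rfl, fun _ _ => rfl⟩, fun _ _ => ⟨rfl, fun _ _ => rfl, fun _ _ => rfl⟩⟩

section add

variable (H : Gr P r) (T : IsTw i C t)
include H T

lemma IsTw.bo {v : P} (hv : v ∉ WT t) : bT t v = 0 := by
  obtain ⟨w, w2, p, x, q, T'⟩ := T.tw
  exact (Tw.b H T').2.2.2.2 v hv

lemma IsTw.Xo {x : P} (hx : x ∈ XT t) : x ∉ WT t ∧ lev x = i := by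
  obtain ⟨w, w2, p, x', q, T'⟩ := T.tw
  obtain ⟨l1, l2, l3, l4, l5, l6⟩ := Tw.lv H T'
  have lz := T'.lz
  have hX : lev x = i := by
    rw [show XT t = XT (t.1, t.2) from rfl, T'.X, mem_insert, mem_insert, mem_singleton] at hx
    rcases hx with rfl | rfl | rfl <;> assumption
  refine ⟨fun h => ?_, hX⟩
  rw [show WT t = WT (t.1, t.2) from rfl, T'.W, mem_insert, mem_insert, mem_insert,
    mem_singleton] at h
  rcases h with rfl | rfl | rfl | rfl <;> omega

lemma IsTw.sub (hC : Part (i + 1) C) : WT t ⊆ C := by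
  obtain ⟨w, w2, p, x, q, T'⟩ := T.tw
  intro v hv
  unfold WT at hv
  rw [mem_insert, mem_insert] at hv
  rcases hv with rfl | rfl | hv
  · exact T.m1
  · exact T.m2
  · exact hC.up T.m1 (mem_uc.1 hv)

lemma add_in (h : Cpt t B) {v : P} (hv : v ∈ WT t) : addT t B v = bT t v := by
  unfold addT
  rw [(h.W v hv).1, zero_add]

lemma add_out {v : P} (hv : v ∉ WT t) : addT t B v = B v := by
  unfold addT
  rw [T.bo H hv, add_zero]

lemma add_ex (h : Cpt t B) : Ex i (addT t B) t := by
  refine ⟨T.tw, fun v hv => add_in H T h hv, ?_, ?_, ?_⟩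
  · intro x hx
    rw [add_out H T (T.Xo H hx).1]
    exact (h.X x hx).1
  · intro x hx v hv hvW
    rw [add_out H T hvW]
    exact (h.X x hx).2.1 v hv
  · intro x hx u hu
    have l1 := lev_uc H hu
    have l2 := (T.Xo H hx).2
    have huW : u ∉ WT t := by
      intro h1
      obtain ⟨w, w2, p, x', q, T'⟩ := T.tw
      obtain ⟨m1, m2, m3, m4, m5, m6⟩ := Tw.lv H T'
      have lz := T'.lz
      rw [show WT t = WT (t.1, t.2) from rfl, T'.W, mem_insert, mem_insert, mem_insert,
        mem_singleton] at h1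
      rcases h1 with rfl | rfl | rfl | rfl <;> omega
    rw [add_out H T huW]
    exact (h.X x hx).2.2 u hu

lemma add_rem (h : Cpt t B) : Rem (WT t) (XT t) (bT t) (addT t B) B where
  eW := fun v hv => add_in H T h hv
  BW := fun v hv => (h.W v hv).1
  eq := fun v hv => add_out H T hv
  BX := fun x hx => (h.X x hx).1
  dX := fun x hx v hv _ => (h.X x hx).2.1 v hv
  uX := fun x hx u hu => (h.X x hx).2.2 u hu
  ch := fun w hw z hz _ => (h.W w hw).2 z hz

lemma add_CC (h : Cpt t B) (hB : Xg.CC i B = ∅) : Xg.CC i (addT t B) = ∅ := by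
  obtain ⟨w, w2, p, x, q, T'⟩ := T.tw
  rw [eq_empty_iff_forall_notMem]
  intro s hs
  have h1 := (add_ex H T h).cc H T.rk hs
  have h2 := ((add_rem H T h).CC H (Tw.blk H T')).2 ⟨hs, h1⟩
  rw [hB] at h2
  exact notMem_empty _ h2

lemma add_okc (hM : Mat P i ∅ psi) (hC : Part (i + 1) C) (h : Cpt t B) :
    Okc i psi C (addT t B) ↔ Okc i psi C B := by
  obtain ⟨w, w2, p, x, q, T'⟩ := T.tw
  exact (add_rem H T h).okc H (Tw.blk H T') hM (T.sub H hC)

lemma add_kp (h : Cpt t B) : kp i (addT t B) = kp i B + 2 := by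
  obtain ⟨w, w2, p, x, q, T'⟩ := T.tw
  have h1 := (add_rem H T h).kp H (Tw.blk H T')
  obtain ⟨n1, n2, n3⟩ := Tw.nums H T'
  rw [show XT (t.1, t.2) = XT t from rfl] at n3
  rw [show WT (t.1, t.2) = WT t from rfl, show bT (t.1, t.2) = bT t from rfl] at n2
  rw [n2, n3] at h1
  rw [h1]
  push_cast
  ring

lemma add_sg (h : Cpt t B) : sg i (addT t B) = - sg i B := by
  obtain ⟨w, w2, p, x, q, T'⟩ := T.tw
  have h1 := (add_rem H T h).sg H (Tw.blk H T')
  obtain ⟨n1, n2, n3⟩ := Tw.nums H T'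
  rw [show XT (t.1, t.2) = XT t from rfl] at n3
  rw [show WT (t.1, t.2) = WT t from rfl, show bT (t.1, t.2) = bT t from rfl] at n1
  rw [n1, n3] at h1
  rw [h1]
  ring

lemma add_sum (h : Cpt t B) : ∑ v, addT t B v = ∑ v, B v + 5 := by
  have h1 := (add_ex H T h).sumW H
  unfold addT
  rw [sum_add_distrib]
  congr 1
  rw [← h1]
  have h2 : ∑ v, bT t v = ∑ v ∈ WT t, bT t v := by
    refine (sum_subset (subset_univ _) ?_).symm
    intro v _ hv
    exact T.bo H hv
  rw [h2]
  exact sum_congr rfl (fun v hv => (add_in H T h hv).symm)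

end add

section off

variable (H : Gr P r) (X : Ex i e t)
include H X

lemma off_add : addT t (offB t e) = e := by
  obtain ⟨w, w2, p, x, q, T'⟩ := X.tw
  funext v
  unfold addT offB
  by_cases hv : v ∈ WT t
  · rw [if_pos hv, zero_add]
    exact (X.lab v hv).symm
  · rw [if_neg hv]
    have h1 : bT t v = 0 := (Tw.b H T').2.2.2.2 v hv
    omega

lemma off_cpt (hch : ∀ w ∈ WT t, ∀ a ∈ dc w, a ∉ WT t → e a = 0) : Cpt t (offB t e) := by
  have h0 : ∀ v, (v ∉ WT t → e v = 0) → offB t e v = 0 := by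
    intro v hv
    unfold offB
    split_ifs with h
    · rfl
    · exact hv h
  refine ⟨fun v hv => ⟨h0 v (fun h => absurd hv h), fun z hz => h0 z (hch v hv z hz)⟩,
    fun x hx => ⟨h0 x (fun _ => X.X0 x hx), fun v hv => h0 v (X.dX x hx v hv),
      fun u hu => h0 u (fun _ => X.uX x hx u hu)⟩⟩

/-- a twin block of a core -/
lemma Ex.isTw (hC : Spt C e) (hrk : Xg.rk t.2 < Xg.rk t.1) : IsTw i C t where
  tw := X.tw
  m1 := X.sptW H hC (by unfold WT; simp)
  m2 := X.sptW H hC (by unfold WT; simp)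
  rk := hrk

/-- the block is found by `TWL` -/
lemma Ex.twl : t.1 ∈ TWL i e := by
  obtain ⟨w, w2, p, x, q, T', mW, mX⟩ := X.mW
  obtain ⟨l1, l2, l3, l4, l5, l6⟩ := Tw.lv H T'
  obtain ⟨b1, b2, b3, b4, b5⟩ := Tw.b H T'
  have lz := T'.lz
  have hb : bT (t.1, t.2) = bT t := rfl
  rw [hb] at b1 b2 b3 b4
  have e1 : e t.1 = 2 := by rw [X.lab _ ((mW _).2 (by simp))]; exact b1
  have e2 : e t.2 = 1 := by rw [X.lab _ ((mW _).2 (by simp))]; exact b2
  have e3 : e w = 1 := by rw [X.lab _ ((mW _).2 (by simp))]; exact b3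
  have e4 : e w2 = 1 := by rw [X.lab _ ((mW _).2 (by simp))]; exact b4
  refine mem_TW.2 ⟨mem_lS.2 (by omega), ⟨mem_lS.2 (by omega), ?_, ?_, ?_⟩, ?_, t.2, ?_,
    T'.zz.symm, by omega, ?_⟩
  · show lev t.1 - i = 2
    omega
  · rw [T'.uz, card_pair T'.ww]
  · intro a ha
    rw [T'.uz, mem_insert, mem_singleton] at ha
    rcases ha with rfl | rfl
    · rw [T'.uw, card_pair T'.px]
    · rw [T'.uw2, card_pair T'.xq]
  · exact ⟨w, by rw [T'.uz]; simp, by omega⟩
  · rw [T'.uz, T'.uz']
  · rintro ⟨a, ha, hlt⟩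
    rw [T'.uz', mem_insert, mem_singleton] at ha
    rcases ha with rfl | rfl <;> omega

end off

/-- two blocks with the same first element -/
lemma Ex.same {t' : P × P} {f : P → ℕ} (X : Ex i e t) (X' : Ex i f t') (h : t.1 = t'.1) :
    t = t' := by
  obtain ⟨w, w2, p, x, q, T, mW, mX⟩ := X.mW
  obtain ⟨w', w2', p', x', q', T', mW', mX'⟩ := X'.mW
  have h1 : w ∈ uc t'.1 := by rw [← h, T.uz]; simp
  have h2 : t.2 ∈ dc w := by rw [T.dw]; simp
  have h3 : t.2 = t'.1 ∨ t.2 = t'.2 := by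
    rw [T'.uz, mem_insert, mem_singleton] at h1
    rcases h1 with h1 | h1
    · rw [h1, T'.dw, mem_insert, mem_singleton] at h2
      exact h2
    · rw [h1, T'.dw2, mem_insert, mem_singleton] at h2
      exact h2
  have h4 : t.2 = t'.2 := by
    rcases h3 with h3 | h3
    · exact absurd (h3.trans h.symm).symm T.zz
    · exact h3
  exact Prod.ext h h4

section main

variable (E : Ev r i psi C) (K : Kls i psi C Q)
include E K

/-- the exact flip class does not see compatible twin blocks -/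
lemma Kls.Q_add (T : IsTw i C t) (h : Cpt t B) : Q (addT t B) ↔ Q B := by
  have H := E.H
  rcases K with ⟨-, rfl⟩ | ⟨y, p, w, u, v, v', F, h5, h6, h7, h8, rfl⟩
  · exact Iff.rfl
  obtain ⟨k1, k2, k3, k4⟩ := F.lv H
  have lw := F.lw
  have ly := F.ly
  have X := add_ex H T h
  have hpW : p ∉ WT t := by
    intro hp
    obtain ⟨w', w2', p', x', q', T', mW, -⟩ := X.mW
    obtain ⟨m1, m2, m3, m4, m5, m6⟩ := Tw.lv H T'
    rcases (mW p).1 hp with h1 | h1 | h1 | h1
    · have h2 := F.up
      rw [h1, T'.uz] at h2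
      have : ({w', w2'} : Finset P).card = 1 := by rw [h2, card_singleton]
      rw [card_pair T'.ww] at this
      omega
    · have h2 := F.up
      rw [h1, T'.uz'] at h2
      have : ({w', w2'} : Finset P).card = 1 := by rw [h2, card_singleton]
      rw [card_pair T'.ww] at this
      omega
    · rw [h1] at k3; omega
    · rw [h1] at k3; omega
  have nW : ∀ a, lev a ≤ i → a ∉ WT t := by
    intro a ha h1
    rcases (X.levW H h1).1 with h | h <;> omega
  have hyX : y ∈ WT t → v ∈ XT t ∧ v' ∈ XT t := by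
    intro hy
    have h1 := ((X.levW H hy).2.2.2 ly).1
    unfold XT
    exact ⟨mem_biUnion.2 ⟨y, h1, by rw [F.uy]; simp⟩, mem_biUnion.2 ⟨y, h1, by rw [F.uy]; simp⟩⟩
  have hle : ∀ a, B a ≤ addT t B a := fun a => by unfold addT; omega
  have rle : ∀ a b z, rm a b B z ≤ rm a b (addT t B) z := by
    intro a b z
    unfold Xg.rm
    split_ifs
    · omega
    · exact hle z
  have down : ∀ a b, Zr y p w u v v' (rm a b (addT t B)) → Zr y p w u v v' (rm a b B) := by
    intro a b Z
    have z0 : ∀ z, rm a b (addT t B) z = 0 → rm a b B z = 0 := by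
      intro z hz
      have := rle a b z
      omega
    exact ⟨z0 _ Z.v0, z0 _ Z.v0', fun z hz => z0 z (Z.dv z hz), fun z hz => z0 z (Z.dv' z hz),
      fun z hz => z0 z (Z.uv z hz), fun z hz => z0 z (Z.uv' z hz), fun z hz => z0 z (Z.dy z hz),
      fun z hz => z0 z (Z.dp z hz), fun z hz => z0 z (Z.uw z hz), fun z hz => z0 z (Z.uu z hz)⟩
  have up : ∀ a b, v ∉ XT t → v' ∉ XT t → Zr y p w u v v' (rm a b B) →
      Zr y p w u v v' (rm a b (addT t B)) := by
    intro a b hv hv' Z
    have z0 : ∀ z, z ∉ WT t → rm a b B z = 0 → rm a b (addT t B) z = 0 := by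
      intro z hz h1
      unfold Xg.rm at h1 ⊢
      split_ifs with h2
      · rfl
      · rw [if_neg h2] at h1
        rw [add_out H T hz]
        exact h1
    have hyW : y ∉ WT t := fun h1 => hv (hyX h1).1
    have d1 : ∀ z x, x ∉ XT t → lev x = i → z ∈ dc x → z ∉ WT t := by
      intro z x hx lx hz hzW
      rcases X.ucW H hzW (mem_uc.2 (mem_dc.1 hz)) with h1 | ⟨-, h1⟩
      · exact nW x (by omega) h1
      · exact hx h1
    have d2 : ∀ z x, x ∉ WT t → i < lev x → z ∈ dc x → z ∉ WT t := by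
      intro z x hx lx hz hzW
      rcases X.ucW H hzW (mem_uc.2 (mem_dc.1 hz)) with h1 | ⟨h1, -⟩
      · exact hx h1
      · have := lev_dc H hz
        omega
    exact ⟨z0 _ (nW v (by omega)) Z.v0, z0 _ (nW v' (by omega)) Z.v0',
      fun z hz => z0 z (d1 z v hv k1 hz) (Z.dv z hz),
      fun z hz => z0 z (d1 z v' hv' k2 hz) (Z.dv' z hz),
      fun z hz => z0 z (nW z (by have := lev_uc H hz; omega)) (Z.uv z hz),
      fun z hz => z0 z (nW z (by have := lev_uc H hz; omega)) (Z.uv' z hz),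
      fun z hz => z0 z (d2 z y hyW (by omega) hz) (Z.dy z hz),
      fun z hz => z0 z (d2 z p hpW (by omega) hz) (Z.dp z hz),
      fun z hz => z0 z (nW z (by have := lev_uc H hz; omega)) (Z.uw z hz),
      fun z hz => z0 z (nW z (by have := lev_uc H hz; omega)) (Z.uu z hz)⟩
  obtain ⟨f1, f2, f3, f4⟩ := F.mems H
  have f3' : y ∈ dc v' := by rw [mem_dc, ← mem_uc, F.uy]; simp
  have f1' : w ∈ uc v' := by rw [mem_uc, ← mem_dc, F.dw]; simp
  constructor
  · rintro (⟨g1, g2, g3⟩ | ⟨g1, g2, g3⟩)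
    · left
      have hyW : y ∉ WT t := by
        intro hy
        apply hpW
        by_contra hp
        have := (X.dcW H hy f4 hp).2
        omega
      rw [add_out H T hyW] at g1
      rw [add_out H T hpW] at g2
      exact ⟨g1, g2, down _ _ g3⟩
    · right
      rw [add_out H T (nW w (by omega))] at g1
      rw [add_out H T (nW u (by omega))] at g2
      exact ⟨g1, g2, down _ _ g3⟩
  · rintro (⟨g1, g2, g3⟩ | ⟨g1, g2, g3⟩)
    · left
      have hyW : y ∉ WT t := by
        intro hy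
        have := (h.W y hy).1
        omega
      refine ⟨by rw [add_out H T hyW]; exact g1, by rw [add_out H T hpW]; exact g2,
        up _ _ ?_ ?_ g3⟩
      · intro hv
        have := (h.X v hv).2.1 y f3
        omega
      · intro hv
        have := (h.X v' hv).2.1 y f3'
        omega
    · right
      refine ⟨by rw [add_out H T (nW w (by omega))]; exact g1,
        by rw [add_out H T (nW u (by omega))]; exact g2, up _ _ ?_ ?_ g3⟩
      · intro hv
        have := (h.X v hv).2.2 w f1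
        omega
      · intro hv
        have := (h.X v' hv).2.2 w f1'
        omega

/-- adding a compatible block to a leftover core -/
lemma add_mem (T : IsTw i C t) (h : Cpt t B) {n k : ℕ} (hB : B ∈ Lft i psi C Q n k) :
    addT t B ∈ Lft i psi C Q (n + 5) (k + 2) := by
  obtain ⟨h1, h2, h3, h4, h5⟩ := mem_Lft.1 hB
  refine mem_Lft.2 ⟨?_, (add_okc E.H T E.hM E.hC h).2 h2, ?_, add_CC E.H T h h4, ?_⟩
  · rw [add_sum E.H T h, h1]
  · rw [add_kp E.H T h, h3]
    push_cast
    ring
  · rw [K.Q_add E T h]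
    exact h5

/-- removing a block from a leftover core -/
lemma off_mem (T : IsTw i C t) (X : Ex i e t)
    (hch : ∀ w ∈ WT t, ∀ a ∈ dc w, a ∉ WT t → e a = 0) {n k : ℕ}
    (he : e ∈ Lft i psi C Q (n + 5) (k + 2)) : offB t e ∈ Lft i psi C Q n k := by
  obtain ⟨h1, h2, h3, h4, h5⟩ := mem_Lft.1 he
  have hc := off_cpt E.H X hch
  have ha := off_add E.H X
  rw [← ha] at h1 h2 h3 h5
  rw [K.Q_add E T hc] at h5
  rw [add_sum E.H T hc] at h1
  rw [add_kp E.H T hc] at h3
  refine mem_Lft.2 ⟨by omega, (add_okc E.H T E.hM E.hC hc).1 h2, by push_cast at h3; linarith,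
    ?_, h5⟩
  rw [eq_empty_iff_forall_notMem]
  intro s hs
  obtain ⟨w, w2, p, x, q, T'⟩ := T.tw
  have h6 := ((X.rem hch).CC E.H (Tw.blk E.H T')).1 hs
  rw [h4] at h6
  exact notMem_empty _ h6.1

lemma Kls.Q_zero : ¬ Q (Z0 : P → ℕ) := by
  rcases K with ⟨-, rfl⟩ | ⟨y, p, w, u, v, v', F, h5, h6, h7, h8, rfl⟩
  · exact id
  · rintro (⟨h, -⟩ | ⟨h, -⟩)
    · exact absurd h (by unfold Z0; omega)
    · exact absurd h (by unfold Z0; omega)

/-- THE LEFTOVER SUM (5,1) -/
theorem sum51 : ∑ e ∈ Lft i psi C Q 5 1, sg i e = - ((TWC i C).card : ℤ) := by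
  classical
  have h1 : ∑ e ∈ Lft i psi C Q 5 1, sg i e = ∑ _t ∈ TWC i C, (-1 : ℤ) := by
    symm
    refine sum_bij (fun t _ => addT t Z0) ?_ ?_ ?_ ?_
    · intro t ht
      have T := mem_TWC.1 ht
      refine mem_Lft.2 ⟨?_, (add_okc E.H T E.hM E.hC cpt_zero).2 z0_okc, ?_,
        add_CC E.H T cpt_zero (z0_CC E.H), ?_⟩
      · rw [add_sum E.H T cpt_zero]
        unfold Z0
        simp
      · rw [add_kp E.H T cpt_zero, z0_kp E.H E.hr]
        norm_num
      · rw [K.Q_add E T cpt_zero]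
        exact K.Q_zero E
    · intro t ht t' ht' heq
      have T := mem_TWC.1 ht
      have T' := mem_TWC.1 ht'
      have X := add_ex E.H T (cpt_zero (t := t))
      have X' := add_ex E.H T' (cpt_zero (t := t'))
      apply X.same X'
      have h2 : addT t' (Z0 : P → ℕ) t.1 = 2 := by
        have heq' : addT t (Z0 : P → ℕ) = addT t' Z0 := heq
        rw [← heq']
        unfold addT Z0 bT
        simp
      unfold addT Z0 bT at h2
      by_contra hne
      rw [if_neg hne, zero_add] at h2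
      split_ifs at h2 <;> omega
    · intro e he
      obtain ⟨z, hz, hzx⟩ := lft_small E K he (by norm_num) (by norm_num)
      obtain ⟨hsum, O, hkp, hCC, hnQ⟩ := mem_Lft.1 he
      obtain ⟨z', X⟩ := twx_ex E O hzx
      have h5 := X.sumW E.H
      have hz0 : ∀ v, v ∉ WT (z, z') → e v = 0 := by
        intro v hv
        have h6 : ∑ a ∈ insert v (WT (z, z')), e a ≤ ∑ a, e a :=
          sum_le_sum_of_subset (subset_univ _)
        rw [sum_insert hv, h5, hsum] at h6
        omega
      have hch : ∀ w ∈ WT (z, z'), ∀ a ∈ dc w, a ∉ WT (z, z') → e a = 0 :=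
        fun w hw a ha haW => hz0 a haW
      have hrk : Xg.rk z' < Xg.rk z := by
        refine X.rk E.H ?_ hCC
        intro a ha
        by_cases haW : a ∈ WT (z, z')
        · have h7 : lev a = lev z + 1 := lev_dc E.H ha
          have h8 := (X.levW E.H haW).1
          have h9 : lev z = i + 2 := by
            obtain ⟨w, w2, p, x, q, T'⟩ := X.tw
            exact T'.lz
          omega
        · rw [hz0 a haW]
          omega
      have T := X.isTw E.H O.spt hrk
      refine ⟨(z, z'), mem_TWC.2 T, ?_⟩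
      rw [← off_add E.H X]
      have h10 : offB (z, z') e = Z0 := by
        funext v
        unfold offB Z0
        split_ifs with h
        · rfl
        · exact hz0 v h
      rw [h10]
    · intro t ht
      have T := mem_TWC.1 ht
      rw [add_sg E.H T cpt_zero, z0_sg E.H E.hr]
  rw [h1, sum_const, nsmul_eq_mul]
  ring

end main

end Pool.Agent.GaussPoset.Win.Rd

end
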