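import Mathlib
import Pool.Agent.W_448zz_h61.Ns
import Pool.Agent.W_448zz_h61.M113

/-! From `Pool.Agent.W_448w4_h10.KC` -/

section

/-!
MP_448cb3_co, G2, case B, window `j`: classification of the cores of energy at most four of a natural part.
helper10.
-/

namespace Pool.Agent.GaussPoset.Win.W4

set_option linter.unusedSectionVars false

open Finset
open Pool.Agent.GaussPoset.Win.SO (Sde Pen TD On kS tL tU sde_low sde_up kS_sum cheap_of PN vp mem_PN
  num_PN NumG con mem_con self_con con_two_low con_two_upp con_cls con_disj)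
open Pool.Agent.GaussPoset.Win.I2 (kd gu kl kn kr so cc fr KK KD lS uS mem_lS mem_uS kd_dc kd_uc gu_uc
  gu_dc adm_low adm_up KD_low KD_up fr_low fr_up)

universe u

variable {P : Type u} [Fintype P] [PartialOrder P] [DecidableEq P] {r i : ℕ}
variable {e f : P → ℕ} {psi : P → P} {C K : Finset P}

/-- a part with matched near doubles -/
structure Nat4 (r i : ℕ) (K : Finset P) (psi : P → P) (C : Finset P) : Prop where
  H : Gr P r
  hi : 1 ≤ i
  hi2 : i + 1 ≤ r
  hM : Mat P i K psi
  hC : Part (i + 1) C
  hK : ∀ x ∈ C, x ∉ K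
  nq : ∀ w ∈ C, lev w = i + 2 → ∀ x ∈ uc w, ∀ x' ∈ uc w, (uc x).card = 2 → (uc x').card = 2 →
    (uc x ∩ uc x').Nonempty
  nq' : ∀ w ∈ C, lev w + 2 = i → ∀ x ∈ dc w, ∀ x' ∈ dc w, (dc x).card = 2 → (dc x').card = 2 →
    (dc x ∩ dc x').Nonempty

lemma mem_of_pos (hs : Spt C e) {x : P} (h : 0 < e x) : x ∈ C := by
  by_contra hx
  have := hs x hx
  omega

/-- an excited near element of the part is touched or its partner is -/
lemma core_nearK (hc : IsCore i K psi e) {x : P} (hx : x ∈ near P i) (hK : x ∉ K) (he : 0 < e x) :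
    x ∈ Tch i e ∨ (x ∈ dbL P i ∪ dbU P i ∧ psi x ∈ Tch i e) := by
  by_contra h
  rw [not_or] at h
  have h1 : x ∈ Rst i K psi e := mem_Rst.2 ⟨hx, hK, h.1, h.2⟩
  have := hc x h1
  omega

/-- the abstract configuration of a core -/
theorem Nat4.cf (Q : Nat4 r i K psi C) (hc : IsCore i K psi e) (hs : Spt C e)
    (hA : AdmL i e) (hB : AdmU i e) (hd : Disjoint (AL i e) (AU i e)) :
    Cf uc dc (tL (P := P) i) (tU i) (lv P i) (lS P i) (uS P i) e where
  s1 := sde_low Q.H i
  s2 := sde_up Q.H (by have := Q.hi2; omega)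
  d1 := by
    rw [disjoint_left]
    intro x hx hx'
    rw [mem_lS] at hx
    rw [mem_lv] at hx'
    omega
  d2 := by
    rw [disjoint_left]
    intro x hx hx'
    rw [mem_uS] at hx
    rw [mem_lv] at hx'
    omega
  d3 := by
    rw [disjoint_left]
    intro x hx hx'
    rw [mem_lS] at hx
    rw [mem_uS] at hx'
    omega
  adm1 := adm_low hA
  adm2 := adm_up hB
  dis := by rw [KD_low, KD_up]; exact hd
  core1 := by
    classical
    intro x hx ht he
    rw [mem_lS] at hx
    unfold tL at ht
    have hl : lev x = i + 1 := by omega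
    have hn : x ∈ near P i := mem_near.2 (Or.inl hl)
    have hxK := Q.hK x (mem_of_pos hs he)
    rcases core_nearK hc hn hxK he with h | ⟨h1, h2⟩
    · left
      rw [mem_Tch] at h
      rcases h with ⟨-, z, hz, hz'⟩ | ⟨h3, -⟩
      · exact ⟨z, mem_dc.2 hz, hz'⟩
      · omega
    · right
      have hd : x ∈ dbL P i := by
        rcases mem_union.1 h1 with h1 | h1
        · exact h1
        · rw [mem_dbU] at h1; omega
      obtain ⟨g1, g2⟩ := Q.hM.low x hd hxK
      rw [mem_dbL] at hd
      rw [mem_dbU] at g1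
      refine ⟨psi x, mem_uS.2 (by omega), by unfold tU; omega, g2, hd.2, ?_⟩
      rw [mem_Tch] at h2
      rcases h2 with ⟨h3, -⟩ | ⟨-, z, hz, hz'⟩
      · omega
      · exact ⟨z, mem_uc.2 hz, hz'⟩
  core2 := by
    classical
    intro x hx ht he
    rw [mem_uS] at hx
    unfold tU at ht
    have hl : lev x + 1 = i := by omega
    have hn : x ∈ near P i := mem_near.2 (Or.inr hl)
    have hxK := Q.hK x (mem_of_pos hs he)
    rcases core_nearK hc hn hxK he with h | ⟨h1, h2⟩
    · left
      rw [mem_Tch] at h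
      rcases h with ⟨h3, -⟩ | ⟨-, z, hz, hz'⟩
      · omega
      · exact ⟨z, mem_uc.2 hz, hz'⟩
    · right
      have hd : x ∈ dbU P i := by
        rcases mem_union.1 h1 with h1 | h1
        · rw [mem_dbL] at h1; omega
        · exact h1
      obtain ⟨g1, g2⟩ := Q.hM.upp x hd hxK
      rw [mem_dbU] at hd
      rw [mem_dbL] at g1
      refine ⟨psi x, mem_lS.2 (by omega), by unfold tL; omega, g2, hd.2, ?_⟩
      rw [mem_Tch] at h2
      rcases h2 with ⟨-, z, hz, hz'⟩ | ⟨h3, -⟩
      · exact ⟨z, mem_dc.2 hz, hz'⟩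
      · omega

/-- the list of the cores with two deficits -/
def L4 (i : ℕ) (e : P → ℕ) : Prop :=
  PP uc (tL (P := P) i) (lS P i) e ∨ PP dc (tU (P := P) i) (uS P i) e ∨
    PQ uc dc (tL (P := P) i) (tU i) (lS P i) (uS P i) e ∨
    A4 uc (tL (P := P) i) (lS P i) e ∨ A4 dc (tU (P := P) i) (uS P i) e ∨
    B4 uc (tL (P := P) i) (lS P i) e ∨ B4 dc (tU (P := P) i) (uS P i) e

/-- CLASSIFICATION for a natural part -/
theorem Nat4.cls (Q : Nat4 r i K psi C) (hc : IsCore i K psi e) (hs : Spt C e)
    (hE : ∑ x, e x ≤ 4) : Cheap 1 i e ∨ (Cheap 2 i e ∧ L4 i e) := by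
  by_cases hA : AdmL i e
  swap
  · exact Or.inl (Or.inl hA)
  by_cases hB : AdmU i e
  swap
  · exact Or.inl (Or.inr (Or.inl hB))
  by_cases hd : Disjoint (AL i e) (AU i e)
  swap
  · exact Or.inl (Or.inr (Or.inr (Or.inl hd)))
  have nq1 : NQ uc (tL (P := P) i) (lS P i) e := by
    intro w hw ht he x hx x' hx' h1 h2
    rw [mem_lS] at hw
    unfold tL at ht
    exact Q.nq w (mem_of_pos hs he) (by omega) x hx x' hx' h1 h2
  have nq2 : NQ dc (tU (P := P) i) (uS P i) e := by
    intro w hw ht he x hx x' hx' h1 h2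
    rw [mem_uS] at hw
    unfold tU at ht
    exact Q.nq' w (mem_of_pos hs he) (by omega) x hx x' hx' h1 h2
  rcases (Q.cf hc hs hA hB hd).classify hE nq1 nq2 with h | ⟨h1, h2⟩
  · exact Or.inl (cheap_of (by exact_mod_cast h))
  · exact Or.inr ⟨cheap_of (by exact_mod_cast h1), h2⟩

/-! ### energies -/

lemma on_energy {s : Finset P} (h : On e s) : ∑ x, e x = s.card := by
  rw [sum_congr rfl fun x _ => h x, sum_ite_mem, univ_inter, sum_const, smul_eq_mul, mul_one]

lemma A4.energy {c : P → Finset P} {t : P → ℕ} {Sd : Finset P} (h : A4 c t Sd e)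
    (hz : ∀ z x, x ∈ c z → x ≠ z) : ∑ x, e x = 4 := by
  obtain ⟨z, x, x', h1, h2, h3, h4, h5, h6⟩ := h
  have n1 : x ≠ z := hz z x (by rw [h3]; simp)
  have n2 : x' ≠ z := hz z x' (by rw [h3]; simp)
  have h7 : ∀ y, e y = (if y = z then 2 else 0) + if y ∈ ({x, x'} : Finset P) then 1 else 0 := by
    intro y
    rw [h6 y]
    by_cases h8 : y = z
    · rw [if_pos h8, if_pos h8, if_neg]
      rw [mem_insert, mem_singleton, h8]
      rintro (h9 | h9)
      · exact n1 h9.symm
      · exact n2 h9.symm
    · rw [if_neg h8, if_neg h8, zero_add]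
      simp only [mem_insert, mem_singleton]
  rw [sum_congr rfl fun y _ => h7 y, sum_add_distrib, sum_ite_eq' univ z, if_pos (mem_univ _),
    sum_ite_mem, univ_inter, sum_const, card_pair h4]
  simp

/-- the energy of a configuration of the list is four -/
lemma L4.energy (H : Gr P r) (h : L4 i e) : ∑ x, e x = 4 := by
  have u1 : ∀ z x : P, x ∈ uc z → x ≠ z := by
    rintro z x hx rfl
    have := lev_uc H hx
    omega
  have u2 : ∀ z x : P, x ∈ dc z → x ≠ z := by
    rintro z x hx rfl
    have := lev_dc H hx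
    omega
  rcases h with h | h | h | h | h | h | h
  · obtain ⟨p, y, p', y', h1, h2, h3, h4, h5, h6⟩ := h
    obtain ⟨-, a1, a2, -⟩ := SO.pen_low H h1
    obtain ⟨-, b1, b2, -⟩ := SO.pen_low H h2
    rw [on_energy h6, card_insert_of_notMem, card_insert_of_notMem, card_pair]
    · rintro rfl; omega
    · rw [mem_insert, mem_singleton, not_or]
      exact ⟨by rintro rfl; omega, h4⟩
    · rw [mem_insert, mem_insert, mem_singleton, not_or, not_or]
      exact ⟨by rintro rfl; omega, h3, by rintro rfl; omega⟩
  · obtain ⟨p, y, p', y', h1, h2, h3, h4, h5, h6⟩ := h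
    obtain ⟨-, a1, a2, -⟩ := SO.pen_up H h1
    obtain ⟨-, b1, b2, -⟩ := SO.pen_up H h2
    rw [on_energy h6, card_insert_of_notMem, card_insert_of_notMem, card_pair]
    · rintro rfl; omega
    · rw [mem_insert, mem_singleton, not_or]
      exact ⟨by rintro rfl; omega, h4⟩
    · rw [mem_insert, mem_insert, mem_singleton, not_or, not_or]
      exact ⟨by rintro rfl; omega, h3, by rintro rfl; omega⟩
  · obtain ⟨p, y, p', y', h1, h2, h5, h6⟩ := h
    obtain ⟨-, a1, a2, -⟩ := SO.pen_low H h1
    obtain ⟨-, b1, b2, -⟩ := SO.pen_up H h2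
    rw [on_energy h6, card_insert_of_notMem, card_insert_of_notMem, card_pair]
    · rintro rfl; omega
    · rw [mem_insert, mem_singleton, not_or]
      exact ⟨by rintro rfl; omega, by rintro rfl; omega⟩
    · rw [mem_insert, mem_insert, mem_singleton, not_or, not_or]
      exact ⟨by rintro rfl; omega, by rintro rfl; omega, by rintro rfl; omega⟩
  · exact h.energy u1
  · exact h.energy u2
  · obtain ⟨w, x, x', s, T, h6⟩ := h
    have a1 := T.lw
    obtain ⟨a2, a3⟩ := T.lx H
    have a4 := T.site H (mem_union_left _ T.sx)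
    rw [on_energy h6, card_insert_of_notMem, card_insert_of_notMem, card_pair]
    · rintro rfl; omega
    · rw [mem_insert, mem_singleton, not_or]
      exact ⟨T.ne, by rintro rfl; omega⟩
    · rw [mem_insert, mem_insert, mem_singleton, not_or, not_or]
      exact ⟨by rintro rfl; omega, by rintro rfl; omega, by rintro rfl; omega⟩
  · obtain ⟨w, x, x', s, T, h6⟩ := h
    have a1 := T.lw'
    obtain ⟨a2, a3⟩ := T.lx' H
    have a4 := T.site' H (mem_union_left _ T.sx)
    rw [on_energy h6, card_insert_of_notMem, card_insert_of_notMem, card_pair]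
    · rintro rfl; omega
    · rw [mem_insert, mem_singleton, not_or]
      exact ⟨T.ne, by rintro rfl; omega⟩
    · rw [mem_insert, mem_insert, mem_singleton, not_or, not_or]
      exact ⟨by rintro rfl; omega, by rintro rfl; omega, by rintro rfl; omega⟩

/-- cores of energy at most three have at most one deficit -/
theorem Nat4.cheap1 (Q : Nat4 r i K psi C) (hc : IsCore i K psi e) (hs : Spt C e)
    (hE : ∑ x, e x < 4) : Cheap 1 i e := by
  rcases Q.cls hc hs hE.le with h | ⟨-, h⟩
  · exact h
  · have := h.energy Q.H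
    omega

end Pool.Agent.GaussPoset.Win.W4

end

/-! From `Pool.Agent.W_448w4_h10.KQ` -/

section

/-!
MP_448cb3_co, G2, case B, window `j`: classification of the cores of energy three with one deficit.  helper10.
-/

namespace Pool.Agent.GaussPoset.Win.W4

set_option linter.unusedSectionVars false

open Finset
open Pool.Agent.GaussPoset.Win.SO (Sde Pen TD On kS)
open Pool.Agent.GaussPoset.Win.I2 (kd gu kl kn kr so cc fr KK KD mem_kn mem_kr mem_so kd_iff kl_iff)

universe u

variable {P : Type u} [Fintype P] [DecidableEq P]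
variable {c c' : P → Finset P} {t t' : P → ℕ} {V Sd Sd' : Finset P} {e : P → ℕ}

/-- labels one on a pendant and its cover, one more label on `g` -/
def Q3 (c : P → Finset P) (t : P → ℕ) (Sd Sd' : Finset P) (e : P → ℕ) : Prop :=
  ∃ p y g, Pen c t Sd p y ∧ (g ∉ Sd ∨ g = p ∨ g = y ∨ (2 ≤ t g ∧ c g ⊆ {p, y})) ∧ g ∉ Sd' ∧
    ∀ x, e x = (if x ∈ ({p, y} : Finset P) then 1 else 0) + if x = g then 1 else 0

/-- labels one on an element at distance two with three sites and its covers -/
def T3 (c : P → Finset P) (t : P → ℕ) (Sd : Finset P) (e : P → ℕ) : Prop :=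
  ∃ z x x', z ∈ Sd ∧ t z = 2 ∧ c z = {x, x'} ∧ x ≠ x' ∧ (c x ∪ c x').card = 3 ∧
    On e {z, x, x'}

/-- a function of energy three above `1_z + 1_x` -/
lemma three_split {z x : P} (hne : z ≠ x) (hz : 0 < e z) (hx : 0 < e x) (hE : ∑ y, e y = 3) :
    ∃ g, ∀ y, e y = (if y ∈ ({z, x} : Finset P) then 1 else 0) + if y = g then 1 else 0 := by
  have h1 : ∑ y, (e y - if y ∈ ({z, x} : Finset P) then 1 else 0) = 1 := by
    have h2 : ∑ y, (e y - if y ∈ ({z, x} : Finset P) then 1 else 0) +
        ∑ y, (if y ∈ ({z, x} : Finset P) then 1 else 0) = ∑ y, e y := by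
      rw [← sum_add_distrib]
      refine sum_congr rfl fun y _ => ?_
      split_ifs with h
      · rw [mem_insert, mem_singleton] at h
        rcases h with rfl | rfl <;> omega
      · omega
    have h3 : ∑ y, (if y ∈ ({z, x} : Finset P) then 1 else 0) = 2 := by
      rw [sum_ite_mem, univ_inter, sum_const, card_pair hne, smul_eq_mul, mul_one]
    omega
  obtain ⟨g, -, hg⟩ : ∃ g ∈ (univ : Finset P),
      (e g - if g ∈ ({z, x} : Finset P) then 1 else 0) ≠ 0 := by
    by_contra hcon
    push Not at hcon
    rw [sum_eq_zero hcon] at h1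
    omega
  refine ⟨g, fun y => ?_⟩
  rw [← add_sum_erase _ _ (mem_univ g)] at h1
  have h3 : ∑ y ∈ univ.erase g, (e y - if y ∈ ({z, x} : Finset P) then 1 else 0) = 0 := by omega
  rw [sum_eq_zero_iff] at h3
  have hge : (if y ∈ ({z, x} : Finset P) then 1 else 0) ≤ e y := by
    split_ifs with h
    · rw [mem_insert, mem_singleton] at h
      rcases h with rfl | rfl <;> omega
    · omega
  by_cases hy : y = g
  · rw [if_pos hy]
    rw [hy] at hge ⊢
    omega
  · have := h3 y (mem_erase.2 ⟨hy, mem_univ y⟩)
    rw [if_neg hy]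
    omega

/-- energy three, an excited near element on the first side -/
lemma Cf.low3a (C : Cf c c' t t' V Sd Sd' e) (hE : ∑ x, e x = 3) (nq : NQ c t Sd e) {x : P}
    (hx : x ∈ Sd) (htx : t x = 1) (hex : 0 < e x) :
    kS c c' V Sd e + kS c' c V Sd' e ≤ 0 ∨ (kS c c' V Sd e + kS c' c V Sd' e ≤ 1 ∧
      (Q3 c t Sd Sd' e ∨ T3 c t Sd e)) := by
  have hE4 : ∑ x, e x ≤ 4 := by omega
  obtain ⟨z, hz, hez⟩ := C.touched hE4 hx htx hex
  have hzS : z ∈ Sd := C.s1.cout x (Or.inl hx) z hz
  have hzx : x ∈ c z := (C.s1.dual z x).2 hz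
  have htz : t z = t x + 1 := (C.s1.cin z hzS x hzx).2
  have n1 : z ≠ x := by rintro rfl; omega
  -- nothing on the other side
  have hU : ∀ y ∈ Sd', e y = 0 := by
    apply side_zero C.s2 C.adm2
    intro u hu htu
    by_contra hne
    obtain ⟨w, hw, hew⟩ := C.symm.touched hE4 hu htu (by omega)
    have hwS : w ∈ Sd' := C.s2.cout u (Or.inl hu) w hw
    have htw : t' w = t' u + 1 := (C.s2.cin w hwS u ((C.s2.dual w u).2 hw)).2
    have n2 : w ≠ u := by rintro rfl; omega
    have n3 : ∀ {a b : P}, a ∈ Sd → b ∈ Sd' → a ≠ b := by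
      rintro a b ha hb rfl
      exact disjoint_left.1 C.d3 ha hb
    have hle := sum_le_energy (e := e) ({z, x, w, u} : Finset P)
    rw [sum_insert, sum_insert, sum_insert, sum_singleton] at hle
    · omega
    · rw [mem_singleton]; exact n2
    · rw [mem_insert, mem_singleton, not_or]; exact ⟨n3 hx hwS, n3 hx hu⟩
    · rw [mem_insert, mem_insert, mem_singleton, not_or, not_or]
      exact ⟨n1, n3 hzS hwS, n3 hzS hu⟩
  have k2 := kS_zero C.s2 hU
  obtain ⟨g, hg⟩ := three_split n1 hez hex hE
  have hgU : g ∉ Sd' := by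
    intro h
    have := hU g h
    have h2 := hg g
    rw [if_pos rfl] at h2
    omega
  have gpos : 0 < e g := by
    have := hg g
    rw [if_pos rfl] at this
    omega
  have hVn : ∀ a ∈ V, a ∉ ({z, x} : Finset P) := by
    intro a ha
    rw [mem_insert, mem_singleton]
    rintro (rfl | rfl)
    · exact disjoint_left.1 C.d1 hzS ha
    · exact disjoint_left.1 C.d1 hx ha
  by_cases hgn : g ∈ Sd ∧ t g = 1 ∧ g ≠ x
  · -- two near elements
    obtain ⟨g1, g2, g3⟩ := hgn
    have hgz : g ≠ z := by rintro rfl; omega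
    have h1 : ∀ y, e y = if y ∈ ({z, x, g} : Finset P) then 1 else 0 := by
      intro y
      rw [hg y]
      by_cases h2 : y = g
      · rw [if_pos h2, if_neg, if_pos]
        · rw [h2]; simp
        · rw [h2, mem_insert, mem_singleton, not_or]; exact ⟨hgz, g3⟩
      · rw [if_neg h2, add_zero]
        simp only [mem_insert, mem_singleton, h2, or_false]
    obtain ⟨w, hw, hew⟩ := C.touched hE4 g1 g2 gpos
    have hwS : w ∈ Sd := C.s1.cout g (Or.inl g1) w hw
    have hwg : g ∈ c w := (C.s1.dual w g).2 hw
    have htw : t w = t g + 1 := (C.s1.cin w hwS g hwg).2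
    have hwz : w = z := by
      by_contra hne
      have := h1 w
      rw [if_neg] at this
      · omega
      · rw [mem_insert, mem_insert, mem_singleton, not_or, not_or]
        exact ⟨hne, by rintro rfl; omega, by rintro rfl; omega⟩
    rw [hwz] at hwg
    have hcz : c z = {x, g} := by
      symm
      apply Finset.eq_of_subset_of_card_le
      · intro y hy
        rw [mem_insert, mem_singleton] at hy
        rcases hy with rfl | rfl
        · exact hzx
        · exact hwg
      · rw [card_pair (Ne.symm g3)]; exact C.s1.c2 z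
    have hux : ∀ y ∈ Sd, t y = 1 → 0 < e y → y = x ∨ y = g := by
      intro y hy hty hey
      rw [h1 y] at hey
      split_ifs at hey with h2
      · rw [mem_insert, mem_insert, mem_singleton] at h2
        rcases h2 with rfl | h2
        · omega
        · exact h2
      · omega
    have s1 : KD c' e V ⊆ c x ∪ c g := by
      intro v hv
      obtain ⟨-, y, hy, hty, hvy, hlt⟩ := KD_mem C.s1 hv
      rcases hux y hy hty (by omega) with rfl | rfl
      · exact mem_union_left _ hvy
      · exact mem_union_right _ hvy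
    have hle1 : ∀ y, e y ≤ 1 := by
      intro y
      rw [h1 y]
      split_ifs <;> omega
    have hsite : ∀ a ∈ V, e a = 0 := by
      intro a ha
      rw [h1 a, if_neg]
      have := hVn a ha
      rw [mem_insert, mem_singleton, not_or] at this
      rw [mem_insert, mem_insert, mem_singleton, not_or, not_or]
      exact ⟨this.1, this.2, by rintro rfl; exact disjoint_left.1 C.d1 g1 ha⟩
    have ex : e x = 1 := by rw [h1 x, if_pos (by simp)]
    have eg : e g = 1 := by rw [h1 g, if_pos (by simp)]
    have f1 : x ∈ fr c c' e Sd := fr_near hx (fun y _ => by rw [ex]; exact hle1 y)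
      (fun a ha => by rw [hsite a (near_site C.s1 hx htx ha)]; omega)
    have f2 : g ∈ fr c c' e Sd := fr_near g1 (fun y _ => by rw [eg]; exact hle1 y)
      (fun a ha => by rw [hsite a (near_site C.s1 g1 g2 ha)]; omega)
    have p1 : 2 ≤ (fr c c' e Sd).card := by
      rw [← card_pair (Ne.symm g3)]
      apply card_le_card
      intro y hy
      rw [mem_insert, mem_singleton] at hy
      rcases hy with rfl | rfl
      · exact f1
      · exact f2
    have q1 := card_le_card s1
    have r4 := union_three C.s1 nq hzS (by omega) hez hzx hwg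
    by_cases h3 : (c x ∪ c g).card = 3
    · right
      refine ⟨?_, Or.inr ⟨z, x, g, hzS, by omega, hcz, Ne.symm g3, h3, h1⟩⟩
      have : kS c c' V Sd e ≤ 1 := by unfold kS; omega
      omega
    · left
      have : kS c c' V Sd e ≤ 0 := by unfold kS; omega
      omega
  · -- one near element
    have hux : ∀ y ∈ Sd, t y = 1 → 0 < e y → y = x := by
      intro y hy hty hey
      by_contra hne
      rw [hg y] at hey
      have h1 : ¬ y ∈ ({z, x} : Finset P) := by
        rw [mem_insert, mem_singleton, not_or]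
        exact ⟨by rintro rfl; omega, hne⟩
      rw [if_neg h1] at hey
      split_ifs at hey with h2
      · rw [h2] at hy hty hne
        exact hgn ⟨hy, hty, hne⟩
      · omega
    have hcz : c z = {x} := by
      apply eq_singleton_iff_unique_mem.2
      refine ⟨hzx, fun b hb => ?_⟩
      obtain ⟨b1, b2, b3⟩ := cov_two C.s1 C.adm1 hzS (by omega) hez hb
      exact hux b b1 b2 b3
    have s1 : KD c' e V ⊆ c x := by
      intro v hv
      obtain ⟨-, y, hy, hty, hvy, hlt⟩ := KD_mem C.s1 hv
      rw [hux y hy hty (by omega)] at hvy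
      exact hvy
    have k1 := C.one hE4 hx htx hex hux
    by_cases hk : kS c c' V Sd e ≤ 0
    · left; omega
    right
    have hcx : (c x).card = 2 := by
      have h2 := C.s1.c2 x
      by_contra hne
      -- at most one site
      have hKD : (KD c' e V).card ≤ 1 := (card_le_card s1).trans (by omega)
      have hfr : (fr c c' e Sd).card = 0 := by
        unfold kS at hk
        omega
      have hKD1 : (KD c' e V).card = 1 := by
        unfold kS at hk
        omega
      have hcx1 : (c x).card = 1 := by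
        have := card_le_card s1
        omega
      have hKDe : KD c' e V = c x := Finset.eq_of_subset_of_card_le s1 (by omega)
      have h5 : fr c c' e Sd = ∅ := by rw [← card_eq_zero]; exact hfr
      have h7 : ¬ gu c e x := by
        rintro ⟨a, ha, hle⟩
        rw [← hKDe] at ha
        obtain ⟨-, y, hy, hty, hvy, hlt⟩ := KD_mem C.s1 ha
        rw [hux y hy hty (by omega)] at hlt
        omega
      have h8 : kd c' e x := by
        by_contra h8
        have : x ∈ fr c c' e Sd := mem_fr.2 ⟨hx, h8, h7⟩
        rw [h5] at this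
        exact absurd this (notMem_empty _)
      -- then the extra label is at a lower cover of `x`
      have hgz : g = z := by
        by_contra hgz
        obtain ⟨y, hy, hlt⟩ := h8
        have hyS : y ∈ Sd := C.s1.cout x (Or.inl hx) y hy
        have hty : t y = t x + 1 := (C.s1.cin y hyS x ((C.s1.dual y x).2 hy)).2
        have h9 := hg y
        have h10 := hg x
        rw [if_pos (by simp : x ∈ ({z, x} : Finset P))] at h10
        split_ifs at h9 with a1 a2
        · rw [mem_insert, mem_singleton] at a1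
          rcases a1 with rfl | rfl
          · exact hgz a2.symm
          · omega
        · omega
        · omega
        · omega
      have hgx : g ≠ x := by rw [hgz]; exact n1
      have ez : e z = 2 := by
        rw [hg z, if_pos (by simp : z ∈ ({z, x} : Finset P)), if_pos hgz.symm]
      have ex : e x = 1 := by
        rw [hg x, if_pos (by simp : x ∈ ({z, x} : Finset P)), if_neg (Ne.symm hgx)]
      have : z ∈ fr c c' e Sd := by
        rw [mem_fr]
        refine ⟨hzS, ?_, ?_⟩
        · rintro ⟨y, hy, hlt⟩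
          have h9 := hg y
          split_ifs at h9 <;> omega
        · rintro ⟨a, ha, hle⟩
          rw [hcz, mem_singleton] at ha
          rw [ha, ex, ez] at hle
          omega
      rw [h5] at this
      exact absurd this (notMem_empty _)
    refine ⟨by omega, Or.inl ⟨z, x, g, ⟨hzS, by omega, hcz, hcx⟩, ?_, hgU, hg⟩⟩
    by_cases hgS : g ∈ Sd
    · by_cases hgz : g = z
      · exact Or.inr (Or.inl hgz)
      by_cases hgx : g = x
      · exact Or.inr (Or.inr (Or.inl hgx))
      right; right; right
      have ht1 := C.s1.tS g hgS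
      have ht2 : 2 ≤ t g := by
        by_contra h
        exact hgn ⟨hgS, by omega, hgx⟩
      refine ⟨ht2, fun a ha => ?_⟩
      obtain ⟨haS, hta⟩ := far_cov C.s1 hgS ht2 ha
      have hpos := pos_cov C.s1 C.adm1 haS ((C.s1.dual g a).1 ha) gpos
      have h9 := hg a
      by_contra hnot
      rw [if_neg hnot] at h9
      split_ifs at h9 with h10
      · rw [h10] at hta
        omega
      · omega
    · exact Or.inl hgS

/-- CLASSIFICATION, energy three -/
theorem Cf.low3 (C : Cf c c' t t' V Sd Sd' e) (hE : ∑ x, e x = 3) (nq : NQ c t Sd e)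
    (nq' : NQ c' t' Sd' e) :
    kS c c' V Sd e + kS c' c V Sd' e ≤ 0 ∨ (kS c c' V Sd e + kS c' c V Sd' e ≤ 1 ∧
      (Q3 c t Sd Sd' e ∨ Q3 c' t' Sd' Sd e ∨ T3 c t Sd e ∨ T3 c' t' Sd' e)) := by
  by_cases h1 : ∀ x ∈ Sd, t x = 1 → e x = 0
  · have k1 := kS_zero C.s1 (side_zero C.s1 C.adm1 h1)
    by_cases h2 : ∀ x ∈ Sd', t' x = 1 → e x = 0
    · have k2 := kS_zero C.s2 (side_zero C.s2 C.adm2 h2)
      left
      omega
    · push Not at h2
      obtain ⟨x, hx, htx, hex⟩ := h2
      rcases C.symm.low3a hE nq' hx htx (by omega) with h | ⟨h, h'⟩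
      · left; omega
      · right
        refine ⟨by omega, ?_⟩
        rcases h' with h' | h'
        · exact Or.inr (Or.inl h')
        · exact Or.inr (Or.inr (Or.inr h'))
  · push Not at h1
    obtain ⟨x, hx, htx, hex⟩ := h1
    rcases C.low3a hE nq hx htx (by omega) with h | ⟨h, h'⟩
    · exact Or.inl h
    · right
      refine ⟨h, ?_⟩
      rcases h' with h' | h'
      · exact Or.inl h'
      · exact Or.inr (Or.inr (Or.inl h'))

end Pool.Agent.GaussPoset.Win.W4

end
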