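import Mathlib
import Pool.Agent.W_448zz_h61.Ns
import Pool.Agent.W_448zz_h61.M015
import Pool.Agent.W_448zz_h61.M028
import Pool.Agent.W_448zz_h61.M087
import Pool.Agent.W_448zz_h61.M089
import Pool.Agent.W_448zz_h61.M093

/-! From `Pool.Agent.W_448w4_h10.KI` -/

section

/-!
MP_448cb3_co, G2, case B, window `j`: adding a label on an untouched near element; leading coefficients.
helper10.
-/

namespace Pool.Agent.GaussPoset.Win.W4

set_option linter.unusedSectionVars false

open Finset
open Pool.Agent.GaussPoset.Win.So (IV IV_chi IV_Fe)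

universe u

variable {P : Type u} [Fintype P] [PartialOrder P] [DecidableEq P] {r i : ℕ}
variable {e f : P → ℕ} {psi : P → P} {C K : Finset P}

/-! ### leading coefficients -/

/-- order at most `k` -/
def od (b k : ℕ) (X : A) : Prop := dd ^ b ∣ dd ^ k * X

/-- the coefficient of order `k` -/
noncomputable def lc (b k : ℕ) (X : A) : ℤ := PowerSeries.coeff b (dd ^ k * X)

lemma od_zero (b k : ℕ) : od b k 0 := by
  unfold od; rw [mul_zero]; exact dvd_zero _

lemma lc_zero (b k : ℕ) : lc b k 0 = 0 := by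
  unfold lc; rw [mul_zero, map_zero]

lemma lc_add (b k : ℕ) (X Y : A) : lc b k (X + Y) = lc b k X + lc b k Y := by
  unfold lc
  rw [mul_add, map_add]

lemma lc_sum {ι : Type*} (b k : ℕ) (s : Finset ι) (X : ι → A) :
    lc b k (∑ x ∈ s, X x) = ∑ x ∈ s, lc b k (X x) := by
  unfold lc
  rw [mul_sum, map_sum]

lemma od_sum {ι : Type*} {b k : ℕ} {s : Finset ι} {X : ι → A} (h : ∀ x ∈ s, od b k (X x)) :
    od b k (∑ x ∈ s, X x) := by
  unfold od at *
  rw [mul_sum]
  exact dvd_sum h

lemma od_succ {b k : ℕ} {X : A} (h : od b k X) : od b (k + 1) X := by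
  unfold od at *
  rw [pow_succ', mul_assoc]
  exact dvd_mul_of_dvd_right h _

lemma od_mono {b k l : ℕ} {X : A} (hkl : k ≤ l) (h : od b k X) : od b l X := by
  induction l, hkl using Nat.le_induction with
  | base => exact h
  | succ n hn ih => exact od_succ ih

lemma lc_of_od {b k : ℕ} {X : A} (h : od b k X) : lc b (k + 1) X = 0 := by
  unfold lc
  obtain ⟨q, hq⟩ := h
  have h1 : dd ^ (b + 1) ∣ dd ^ (k + 1) * X := by
    rw [pow_succ', pow_succ', mul_assoc, hq]
    exact mul_dvd_mul_left _ (dvd_mul_right _ _)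
  exact I2.coeff_eq_zero_of_dvd h1

lemma lc_lt {b k l : ℕ} {X : A} (hkl : k < l) (h : od b k X) : lc b l X = 0 := by
  obtain ⟨n, rfl⟩ : ∃ n, l = n + 1 := ⟨l - 1, by omega⟩
  exact lc_of_od (od_mono (by omega) h)

lemma od_mul {b k : ℕ} {X : A} (g : A) (h : od b k X) : od b k (g * X) := by
  unfold od at *
  rw [mul_left_comm]
  exact dvd_mul_of_dvd_right h _

lemma lc_mul {b k : ℕ} {X : A} (g : A) (h : od b k X) :
    lc b k (g * X) = PowerSeries.constantCoeff g * lc b k X := by
  unfold od at h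
  unfold lc
  obtain ⟨q, hq⟩ := h
  rw [mul_left_comm, hq]
  have h1 : PowerSeries.coeff b (g * (dd ^ b * q) : A) = PowerSeries.coeff 0 (g * q : A) := by
    rw [mul_left_comm]
    have h := PowerSeries.coeff_X_pow_mul (g * q : A) b 0
    rw [zero_add] at h
    exact h
  have h2 : PowerSeries.coeff b (dd ^ b * q : A) = PowerSeries.coeff 0 (q : A) := by
    have h := PowerSeries.coeff_X_pow_mul (q : A) b 0
    rw [zero_add] at h
    exact h
  rw [h1, h2, PowerSeries.coeff_zero_eq_constantCoeff_apply,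
    PowerSeries.coeff_zero_eq_constantCoeff_apply, map_mul]

lemma dd_ne : (dd : A) ≠ 0 := by
  unfold dd
  exact PowerSeries.X_ne_zero

lemma dd_cancel {X Y : A} (h : dd * X = dd * Y) : X = Y := mul_left_cancel₀ dd_ne h

lemma cc_xx : PowerSeries.constantCoeff (xx : A) = -1 := by
  unfold xx dd
  simp

lemma cc_xi : PowerSeries.constantCoeff (xi : A) = -1 := by
  unfold xi
  rw [map_neg, ← PowerSeries.coeff_zero_eq_constantCoeff_apply, PowerSeries.coeff_mk]

lemma cc_dd : PowerSeries.constantCoeff (dd : A) = 0 := by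
  unfold dd
  simp

lemma od_up {b k : ℕ} {Y Z : A} (h : dd * Y = Z) (hZ : od b k Z) : od b (k + 1) Y := by
  unfold od at *
  rw [pow_succ, mul_assoc, h]
  exact hZ

lemma lc_up {b k : ℕ} {Y Z : A} (h : dd * Y = Z) : lc b (k + 1) Y = lc b k Z := by
  unfold lc
  rw [pow_succ, mul_assoc, h]

/-- the factor of a matched pair -/
noncomputable def kap : A := (dd ^ 2 - 3 * dd + 3) * xi

lemma kap_eq : (xx ^ 2 + xi : A) = dd * kap := by
  unfold kap
  have h := xx_mul_xi
  have h1 : (dd : A) = 1 + xx := one_add_xx.symm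
  rw [h1]
  linear_combination (-xx ^ 2) * h

lemma cc_kap : PowerSeries.constantCoeff (kap : A) = -3 := by
  unfold kap
  rw [map_mul, cc_xi, map_add, map_sub, map_pow, map_mul, cc_dd]
  have : PowerSeries.constantCoeff (3 : A) = 3 := by
    have := map_ofNat (PowerSeries.constantCoeff (R := ℤ)) 3
    exact this
  rw [this]
  norm_num

/-! ### near elements -/

/-- the sites of a near element -/
noncomputable def nz (i : ℕ) (x : P) : Finset P := if lev x = i + 1 then uc x else dc x

/-- the sites with a label smaller than `a` -/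
noncomputable def kz (i : ℕ) (e : P → ℕ) (x : P) (a : ℕ) : Finset P :=
  (nz i x).filter (fun v => e v < a)

open Classical in
/-- the factor of a near element with label `a` -/
noncomputable def fz (i : ℕ) (e : P → ℕ) (x : P) (a : ℕ) : A :=
  if kz i e x a = nz i x then (if lev x = i + 1 then dd else xi * dd) else 1

/-- the sign -/
noncomputable def sg1 (i : ℕ) (x : P) : ℤ := if lev x = i + 1 then 1 else -1

/-- the killed sites on the side of `x` -/
noncomputable def KO (i : ℕ) (e : P → ℕ) (x : P) : Finset P :=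
  if lev x = i + 1 then AL i e else AU i e

/-- the killed sites on the other side -/
noncomputable def KP (i : ℕ) (e : P → ℕ) (x : P) : Finset P :=
  if lev x = i + 1 then AU i e else AL i e

/-- the factor of a new killed site -/
noncomputable def gz (i : ℕ) (x : P) : A := if lev x = i + 1 then xx else 1

lemma nz_low {x : P} (h : lev x = i + 1) : nz i x = uc x := by unfold nz; rw [if_pos h]

lemma nz_upp {x : P} (h : lev x + 1 = i) : nz i x = dc x := by
  unfold nz; rw [if_neg (by omega)]

lemma mem_kz {x v : P} {a : ℕ} : v ∈ kz i e x a ↔ v ∈ nz i x ∧ e v < a := by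
  unfold kz; rw [mem_filter]

lemma kz_sub {x : P} {a : ℕ} : kz i e x a ⊆ nz i x := filter_subset _ _

lemma kz_eq_iff {x : P} {a : ℕ} : kz i e x a = nz i x ↔ ∀ v ∈ nz i x, e v < a := by
  unfold kz
  rw [filter_eq_self]

lemma nz_lev (H : Gr P r) {x v : P} (hx : x ∈ near P i) (hv : v ∈ nz i x) : lev v = i := by
  rw [mem_near] at hx
  rcases hx with h | h
  · rw [nz_low h] at hv
    have := lev_uc H hv
    omega
  · rw [nz_upp h] at hv
    have := lev_dc H hv
    omega

lemma nz_st (H : Gr P r) (hC : Part (i + 1) C) {x : P} (hx : x ∈ near P i) (hxC : x ∈ C) :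
    nz i x ⊆ st i C := by
  intro v hv
  have hl := nz_lev H hx hv
  rw [mem_near] at hx
  rcases hx with h | h
  · rw [nz_low h] at hv
    exact mem_st.2 ⟨hC.up hxC (mem_uc.1 hv), hl⟩
  · rw [nz_upp h] at hv
    exact mem_st.2 ⟨hC.dn hxC (by omega) (mem_dc.1 hv), hl⟩

lemma wt_low {x : P} (hx : lev x = i + 1) (a : ℕ) (S : Finset P) :
    wt i e x a S = fz i e x a * chi (kz i e x a) ∅ S := by
  classical
  unfold wt wtL fz chi
  rw [if_pos hx, if_pos hx]
  have h1 : kz i e x a = nz i x ↔ ∀ v ∈ uc x, e v < a := by rw [kz_eq_iff, nz_low hx]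
  have h2 : (kz i e x a ⊆ S ∧ Disjoint ∅ S) ↔ ∀ v ∈ uc x, e v < a → v ∈ S := by
    constructor
    · rintro ⟨h, -⟩ v hv hlt
      exact h (mem_kz.2 ⟨by rw [nz_low hx]; exact hv, hlt⟩)
    · intro h
      refine ⟨fun v hv => ?_, disjoint_empty_left _⟩
      rw [mem_kz, nz_low hx] at hv
      exact h v hv.1 hv.2
  by_cases h3 : ∀ v ∈ uc x, e v < a
  · rw [if_pos h3, if_pos (h1.2 h3)]
    by_cases h4 : ∀ v ∈ uc x, e v < a → v ∈ S
    · rw [if_pos h4, if_pos (h2.2 h4)]
    · rw [if_neg h4, if_neg (fun h => h4 (h2.1 h))]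
  · rw [if_neg h3, if_neg (fun h => h3 (h1.1 h))]
    by_cases h4 : ∀ v ∈ uc x, e v < a → v ∈ S
    · rw [if_pos h4, if_pos (h2.2 h4)]
    · rw [if_neg h4, if_neg (fun h => h4 (h2.1 h))]

lemma wt_upp {x : P} (hx : lev x + 1 = i) (a : ℕ) (S : Finset P) :
    wt i e x a S = fz i e x a * chi ∅ (kz i e x a) S := by
  classical
  have hn : ¬ lev x = i + 1 := by omega
  unfold wt wtU fz chi
  simp only [if_neg hn]
  have h1 : kz i e x a = nz i x ↔ ∀ v ∈ dc x, e v < a := by rw [kz_eq_iff, nz_upp hx]
  have h2 : ((∅ : Finset P) ⊆ S ∧ Disjoint (kz i e x a) S) ↔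
      ∀ v ∈ dc x, e v < a → v ∉ S := by
    constructor
    · rintro ⟨-, h⟩ v hv hlt hS
      exact disjoint_left.1 h (mem_kz.2 ⟨by rw [nz_upp hx]; exact hv, hlt⟩) hS
    · intro h
      refine ⟨empty_subset _, ?_⟩
      rw [disjoint_left]
      intro v hv
      rw [mem_kz, nz_upp hx] at hv
      exact h v hv.1 hv.2
  by_cases h3 : ∀ v ∈ dc x, e v < a
  · rw [if_pos h3, if_pos (h1.2 h3)]
    by_cases h4 : ∀ v ∈ dc x, e v < a → v ∉ S
    · rw [if_pos h4, if_pos (h2.2 h4)]
    · rw [if_neg h4, if_neg (fun h => h4 (h2.1 h))]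
  · rw [if_neg h3, if_neg (fun h => h3 (h1.1 h))]
    by_cases h4 : ∀ v ∈ dc x, e v < a → v ∉ S
    · rw [if_pos h4, if_pos (h2.2 h4)]
    · rw [if_neg h4, if_neg (fun h => h4 (h2.1 h))]

lemma chi_mul (B D B' D' S : Finset P) :
    chi B D S * chi B' D' S = chi (B ∪ B') (D ∪ D') S := by
  unfold chi
  by_cases h1 : B ⊆ S ∧ Disjoint D S
  · by_cases h2 : B' ⊆ S ∧ Disjoint D' S
    · rw [if_pos h1, if_pos h2, if_pos, mul_one]
      exact ⟨union_subset h1.1 h2.1, disjoint_union_left.2 ⟨h1.2, h2.2⟩⟩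
    · rw [if_neg h2, mul_zero, if_neg]
      rintro ⟨h3, h4⟩
      exact h2 ⟨(union_subset_iff.1 h3).2, (disjoint_union_left.1 h4).2⟩
  · rw [if_neg h1, zero_mul, if_neg]
    rintro ⟨h3, h4⟩
    exact h1 ⟨(union_subset_iff.1 h3).1, (disjoint_union_left.1 h4).1⟩

/-- adding a label on an untouched near element -/
lemma tC_add (H : Gr P r) (hir : i ≤ r) (hC : Part i C) (hs : Spt C e) {x : P}
    (hx : x ∈ near P i) (hxC : x ∈ C) (hT : x ∉ Tch i e) (h0 : e x = 0) (a : ℕ) :
    tC i C (e + Pi.single x a) = IV (st i C) (fun S => Fe i e S * wt i e x a S) := by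
  have hs' : Spt C (e + Pi.single x a) := by
    intro y hy
    rw [Pi.add_apply, hs y hy, Pi.single_apply, if_neg (by rintro rfl; exact hy hxC), add_zero]
  rw [← IV_Fe H hC hs']
  congr 1
  funext S
  have h := fact_many H hir (e := e) {x} (singleton_subset_iff.2 hx)
    (fun y hy => by rw [mem_singleton] at hy; rw [hy]; exact hT)
    (fun y hy => by rw [mem_singleton] at hy; rw [hy]; exact h0) (Pi.single x a)
    (fun y hy => by
      rw [mem_singleton] at hy
      rw [Pi.single_apply, if_neg hy]) S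
  rw [h, prod_singleton, Pi.single_eq_same]

lemma IV_cmul {V : Finset P} (c : A) (g : Finset P → A) :
    IV V (fun S => c * g S) = c * IV V g := by
  unfold IV
  rw [mul_sum]
  exact sum_congr rfl fun S _ => by ring

/-- the common evaluation -/
lemma add_eval (H : Gr P r) (hC : Part (i + 1) C) (hs : Spt C e)
    (hA : Disjoint (AL i e) (AU i e)) {c : A} {B D : Finset P} (hB : B ⊆ st i C)
    (hD : D ⊆ st i C) (h0 : B = ∅ ∨ D = ∅) :
    (¬ Disjoint B (AU i e) ∨ ¬ Disjoint D (AL i e) →
      IV (st i C) (fun S => Fe i e S * (c * chi B D S)) = 0) ∧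
    (Disjoint B (AU i e) → Disjoint D (AL i e) →
      dd ^ ((B \ AL i e).card + (D \ AU i e).card) *
        IV (st i C) (fun S => Fe i e S * (c * chi B D S)) =
          c * xx ^ (B \ AL i e).card * tC i C e) := by
  have hCi : Part i C := ⟨fun h1 h2 => hC.up h1 h2, fun h1 h2 h3 => hC.dn h1 (by omega) h3⟩
  have sL := AL_sub hCi hs
  have sU := AU_sub H hCi hs
  have h1 : IV (st i C) (fun S => Fe i e S * (c * chi B D S)) =
      (cw i e * c) * IV (st i C) (chi (AL i e ∪ B) (AU i e ∪ D)) := by
    rw [← IV_cmul]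
    congr 1
    funext S
    unfold Fe
    rw [← chi_mul]
    ring
  rw [h1, IV_chi (union_subset sL hB) (union_subset sU hD)]
  constructor
  · intro h
    rw [if_neg, mul_zero]
    intro hd
    rw [disjoint_union_left, disjoint_union_right, disjoint_union_right] at hd
    rcases h with h | h
    · exact h hd.2.1
    · exact h hd.1.2.symm
  · intro hBU hDL
    have hBD : Disjoint B D := by
      rcases h0 with h | h
      · rw [h]; exact disjoint_empty_left _
      · rw [h]; exact disjoint_empty_right _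
    have hd : Disjoint (AL i e ∪ B) (AU i e ∪ D) := by
      rw [disjoint_union_left, disjoint_union_right, disjoint_union_right]
      exact ⟨⟨hA, hDL.symm⟩, hBU, hBD⟩
    rw [if_pos hd]
    unfold tC
    rw [if_pos hA]
    have e1 : (AL i e ∪ B).card = (AL i e).card + (B \ AL i e).card := by
      rw [← card_union_of_disjoint disjoint_sdiff, union_sdiff_self_eq_union]
    have e2 : (AU i e ∪ D).card = (AU i e).card + (D \ AU i e).card := by
      rw [← card_union_of_disjoint disjoint_sdiff, union_sdiff_self_eq_union]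
    have e3 : (AL i e ∪ B).card + (AU i e ∪ D).card ≤ (st i C).card := by
      rw [← card_union_of_disjoint hd]
      exact card_le_card (union_subset (union_subset sL hB) (union_subset sU hD))
    rw [e1, e2] at *
    have e4 : (st i C).card - (AL i e).card - (AU i e).card =
        ((B \ AL i e).card + (D \ AU i e).card) + ((st i C).card -
          ((AL i e).card + (B \ AL i e).card) - ((AU i e).card + (D \ AU i e).card)) := by
      omega
    rw [e4, pow_add (dd : A) ((B \ AL i e).card + (D \ AU i e).card), pow_add (xx : A)]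
    ring

/-- ADDING A LABEL on an untouched near element -/
theorem add_near (H : Gr P r) (hir : i ≤ r) (hC : Part (i + 1) C) (hs : Spt C e)
    (hA : Disjoint (AL i e) (AU i e)) {x : P} (hx : x ∈ near P i) (hxC : x ∈ C)
    (hT : x ∉ Tch i e) (hx0 : e x = 0) (a : ℕ) :
    (¬ Disjoint (kz i e x a) (KP i e x) → tC i C (e + Pi.single x a) = 0) ∧
    (Disjoint (kz i e x a) (KP i e x) →
      dd ^ (kz i e x a \ KO i e x).card * tC i C (e + Pi.single x a) =
        fz i e x a * gz i x ^ (kz i e x a \ KO i e x).card * tC i C e) := by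
  have hCi : Part i C := ⟨fun h1 h2 => hC.up h1 h2, fun h1 h2 h3 => hC.dn h1 (by omega) h3⟩
  have hk : kz i e x a ⊆ st i C := kz_sub.trans (nz_st H hC hx hxC)
  rw [tC_add H hir hCi hs hx hxC hT hx0 a]
  rcases mem_near.1 hx with h | h
  · have e1 : (fun S => Fe i e S * wt i e x a S) =
        fun S => Fe i e S * (fz i e x a * chi (kz i e x a) ∅ S) := by
      funext S; rw [wt_low h]
    have hev := add_eval H hC hs hA (c := fz i e x a) hk (empty_subset (st i C)) (Or.inr rfl)
    unfold KP KO gz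
    rw [if_pos h, if_pos h, if_pos h, e1]
    constructor
    · intro h1
      exact hev.1 (Or.inl h1)
    · intro h1
      have := hev.2 h1 (disjoint_empty_left _)
      rwa [empty_sdiff, card_empty, add_zero] at this
  · have hn : ¬ lev x = i + 1 := by omega
    have e1 : (fun S => Fe i e S * wt i e x a S) =
        fun S => Fe i e S * (fz i e x a * chi ∅ (kz i e x a) S) := by
      funext S; rw [wt_upp h]
    have hev := add_eval H hC hs hA (c := fz i e x a) (empty_subset (st i C)) hk (Or.inl rfl)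
    unfold KP KO gz
    rw [if_neg hn, if_neg hn, if_neg hn, e1]
    constructor
    · intro h1
      exact hev.1 (Or.inr h1)
    · intro h1
      have := hev.2 (disjoint_empty_left _) h1
      rw [empty_sdiff, card_empty, zero_add, pow_zero, mul_one] at this
      rw [one_pow, mul_one]
      exact this

/-! ### values -/

section values

variable (H : Gr P r) (hir : i ≤ r) (hC : Part (i + 1) C) (hs : Spt C e)
  (hA : Disjoint (AL i e) (AU i e)) {x : P} (hx : x ∈ near P i) (hxC : x ∈ C)
  (hT : x ∉ Tch i e) (hx0 : e x = 0) {a k : ℕ}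

/-- all sites of `x` get killed and are free -/
def Fx (i : ℕ) (e : P → ℕ) (x : P) (a : ℕ) : Prop :=
  (∀ v ∈ nz i x, e v < a) ∧ Disjoint (nz i x) (AL i e ∪ AU i e)

/-- exactly one site of `x` gets killed, and it is free -/
def Gx (i : ℕ) (e : P → ℕ) (x : P) (a : ℕ) : Prop :=
  (kz i e x a).card = 1 ∧ (nz i x).card = 2 ∧ Disjoint (kz i e x a) (AL i e ∪ AU i e)

lemma KO_or (i : ℕ) (e : P → ℕ) (x : P) :
    (KO i e x = AL i e ∧ KP i e x = AU i e) ∨ (KO i e x = AU i e ∧ KP i e x = AL i e) := by
  unfold KO KP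
  by_cases h : lev x = i + 1
  · left; rw [if_pos h, if_pos h]; exact ⟨rfl, rfl⟩
  · right; rw [if_neg h, if_neg h]; exact ⟨rfl, rfl⟩

lemma disj_KO {B : Finset P} (h : Disjoint B (AL i e ∪ AU i e)) :
    Disjoint B (KO i e x) ∧ Disjoint B (KP i e x) := by
  rw [disjoint_union_right] at h
  rcases KO_or i e x with ⟨h1, h2⟩ | ⟨h1, h2⟩
  · rw [h1, h2]; exact h
  · rw [h1, h2]; exact h.symm

lemma not_disj_KO {B : Finset P} (h : ¬ Disjoint B (AL i e ∪ AU i e)) :
    ¬ Disjoint B (KO i e x) ∨ ¬ Disjoint B (KP i e x) := by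
  rw [disjoint_union_right, not_and_or] at h
  rcases KO_or i e x with ⟨h1, h2⟩ | ⟨h1, h2⟩
  · rw [h1, h2]; exact h
  · rw [h1, h2]; exact h.symm

include H hir hC hs hA hx hxC hT hx0

/-- type F for a double near element -/
theorem val_F (h2 : (nz i x).card = 2) (hF : Fx i e x a) (ho : od (st i C).card k (tC i C e)) :
    od (st i C).card (k + 1) (tC i C (e + Pi.single x a)) ∧
      lc (st i C).card (k + 1) (tC i C (e + Pi.single x a)) =
        sg1 i x * lc (st i C).card k (tC i C e) := by
  have hkz : kz i e x a = nz i x := kz_eq_iff.2 hF.1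
  obtain ⟨d1, d2⟩ := disj_KO (x := x) hF.2
  have h := (add_near H hir hC hs hA hx hxC hT hx0 a).2 (by rw [hkz]; exact d2)
  rw [hkz, sdiff_eq_self_of_disjoint d1, h2] at h
  obtain ⟨ρ, h3, h4⟩ : ∃ ρ : A, fz i e x a * gz i x ^ 2 = dd * ρ ∧
      PowerSeries.constantCoeff ρ = sg1 i x := by
    unfold fz gz sg1
    rw [if_pos hkz]
    by_cases hl : lev x = i + 1
    · rw [if_pos hl, if_pos hl, if_pos hl]
      exact ⟨xx ^ 2, rfl, by rw [map_pow, cc_xx]; norm_num⟩
    · rw [if_neg hl, if_neg hl, if_neg hl]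
      exact ⟨xi, by ring, cc_xi⟩
  have h5 : dd * tC i C (e + Pi.single x a) = ρ * tC i C e := by
    apply dd_cancel
    rw [← mul_assoc, ← mul_assoc, ← h3, ← h]
    ring
  refine ⟨od_up h5 (od_mul _ ho), ?_⟩
  rw [lc_up h5, lc_mul _ ho, h4]

/-- type G for a double near element -/
theorem val_G (hG : Gx i e x a) (ho : od (st i C).card k (tC i C e)) :
    od (st i C).card (k + 1) (tC i C (e + Pi.single x a)) ∧
      lc (st i C).card (k + 1) (tC i C (e + Pi.single x a)) =
        -sg1 i x * lc (st i C).card k (tC i C e) := by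
  obtain ⟨g1, g2, g3⟩ := hG
  have hkz : ¬ kz i e x a = nz i x := by
    intro h
    rw [h, g2] at g1
    omega
  obtain ⟨d1, d2⟩ := disj_KO (x := x) g3
  have h := (add_near H hir hC hs hA hx hxC hT hx0 a).2 d2
  rw [sdiff_eq_self_of_disjoint d1, g1, pow_one, pow_one] at h
  have h3 : fz i e x a = 1 := by unfold fz; rw [if_neg hkz]
  rw [h3, one_mul] at h
  refine ⟨od_up h (od_mul _ ho), ?_⟩
  rw [lc_up h, lc_mul _ ho]
  congr 1
  unfold gz sg1
  by_cases hl : lev x = i + 1
  · rw [if_pos hl, if_pos hl, cc_xx]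
  · rw [if_neg hl, if_neg hl, map_one]
    norm_num

/-- the order does not grow otherwise -/
theorem val_N (h2 : (nz i x).card ≤ 2) (hF : (nz i x).card = 2 → ¬ Fx i e x a)
    (hG : ¬ Gx i e x a) (ho : od (st i C).card k (tC i C e)) :
    od (st i C).card k (tC i C (e + Pi.single x a)) := by
  by_cases hd : Disjoint (kz i e x a) (KP i e x)
  swap
  · rw [(add_near H hir hC hs hA hx hxC hT hx0 a).1 hd]
    exact od_zero _ _
  have h := (add_near H hir hC hs hA hx hxC hT hx0 a).2 hd
  have hcs := card_le_card (kz_sub (i := i) (e := e) (x := x) (a := a))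
  have hcd : (kz i e x a \ KO i e x).card ≤ (kz i e x a).card := card_le_card sdiff_subset
  by_cases hkz : kz i e x a = nz i x
  · -- all sites
    have h3 : (kz i e x a \ KO i e x).card ≤ 1 := by
      by_contra hcon
      have h4 : (nz i x).card = 2 := by omega
      refine hF h4 ⟨kz_eq_iff.1 hkz, ?_⟩
      have h5 : (kz i e x a \ KO i e x) = kz i e x a :=
        eq_of_subset_of_card_le sdiff_subset (by omega)
      by_contra h6
      rw [← hkz] at h6
      rcases not_disj_KO (x := x) h6 with h7 | h7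
      · exact h7 (sdiff_eq_self_iff_disjoint.1 h5)
      · exact h7 hd
    obtain ⟨ρ, hρ⟩ : ∃ ρ : A, fz i e x a = dd * ρ := by
      unfold fz
      rw [if_pos hkz]
      by_cases hl : lev x = i + 1
      · rw [if_pos hl]; exact ⟨1, by ring⟩
      · rw [if_neg hl]; exact ⟨xi, by ring⟩
    rw [hρ] at h
    interval_cases hn : (kz i e x a \ KO i e x).card
    · rw [pow_zero, one_mul, pow_zero, mul_one] at h
      rw [h]
      exact od_mul _ ho
    · rw [pow_one, pow_one] at h
      have h5 : tC i C (e + Pi.single x a) = (ρ * gz i x) * tC i C e := by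
        apply dd_cancel
        rw [h]
        ring
      rw [h5]
      exact od_mul _ ho
  · have h3 : (kz i e x a).card < (nz i x).card :=
      card_lt_card ((ssubset_iff_subset_ne).2 ⟨kz_sub, hkz⟩)
    have h4 : (kz i e x a \ KO i e x).card = 0 := by
      by_contra hcon
      refine hG ⟨by omega, by omega, ?_⟩
      have h5 : (kz i e x a \ KO i e x) = kz i e x a :=
        eq_of_subset_of_card_le sdiff_subset (by omega)
      by_contra h6
      rcases not_disj_KO (x := x) h6 with h7 | h7
      · exact h7 (sdiff_eq_self_iff_disjoint.1 h5)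
      · exact h7 hd
    rw [h4, pow_zero, one_mul, pow_zero, mul_one] at h
    rw [h]
    exact od_mul _ ho

end values

end Pool.Agent.GaussPoset.Win.W4

end

/-! From `Pool.Agent.W_448w4_h10.KJ` -/

section

/-!
MP_448cb3_co, G2, case B, window `j`: the contribution of one label on the free near elements.
helper10.
-/

namespace Pool.Agent.GaussPoset.Win.W4

set_option linter.unusedSectionVars false

open Finset
open Pool.Agent.GaussPoset.Win.So (IV IV_chi IV_Fe)
open Pool.Agent.GaussPoset.Win.SO (sde_low sde_up)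

universe u

variable {P : Type u} [Fintype P] [PartialOrder P] [DecidableEq P] {r i : ℕ}
variable {e f : P → ℕ} {psi : P → P} {C K : Finset P}

/-- a near element has one or two sites -/
lemma nz_card (H : Gr P r) (hi : 1 ≤ i) (hi2 : i + 1 ≤ r) {x : P} (hx : x ∈ near P i) :
    1 ≤ (nz i x).card ∧ (nz i x).card ≤ 2 := by
  rcases mem_near.1 hx with h | h
  · rw [nz_low h]
    exact ⟨card_pos.2 (uc_nonempty H (by omega)), (sde_low H i).c2 x⟩
  · rw [nz_upp h]
    exact ⟨card_pos.2 (dc_nonempty H (by omega)), (sde_up H (by omega : i ≤ r)).c2 x⟩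

/-- the local factor of a free near element (a matched pair counts at its lower element) -/
noncomputable def om (i : ℕ) (e : P → ℕ) (x : P) : ℤ :=
  if kz i e x 1 = nz i x then
    (if (nz i x).card = 1 then -1 + ((nz i x ∩ (AL i e ∪ AU i e)).card : ℤ)
      else -3 + 2 * ((nz i x ∩ (AL i e ∪ AU i e)).card : ℤ) -
        (if (nz i x ∩ (AL i e ∪ AU i e)).card = 2 then 1 else 0))
  else ((nz i x).card : ℤ) - ((kz i e x 1).card : ℤ)

lemma AL_or_AU {v : P} : v ∈ AL i e ∪ AU i e → ∀ x : P, v ∈ KO i e x ∨ v ∈ KP i e x := by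
  intro h x
  rw [mem_union] at h
  rcases KO_or i e x with ⟨h1, h2⟩ | ⟨h1, h2⟩
  · rw [h1, h2]; exact h
  · rw [h1, h2]; exact h.symm

section values

variable (H : Gr P r) (hi : 1 ≤ i) (hi2 : i + 1 ≤ r) (hC : Part (i + 1) C) (hs : Spt C e)
  (hA : Disjoint (AL i e) (AU i e)) {k : ℕ}

include H hi hi2 hC hs hA

/-- a single near element -/
theorem val_single {x : P} (hx : x ∈ near P i) (hxC : x ∈ C)
    (hT : x ∉ Tch i e) (hx0 : e x = 0) (h1 : (nz i x).card = 1)
    (ho : od (st i C).card k (tC i C e)) :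
    lc (st i C).card k (tC i C (e + Pi.single x 1)) =
      om i e x * lc (st i C).card k (tC i C e) := by
  have hir : i ≤ r := by omega
  obtain ⟨v, hv⟩ := card_eq_one.1 h1
  have hadd := add_near H hir hC hs hA hx hxC hT hx0 1
  unfold om
  by_cases hkz : kz i e x 1 = nz i x
  · rw [if_pos hkz, if_pos h1]
    rw [hkz] at hadd
    obtain ⟨ρ, hρ, hρ2⟩ : ∃ ρ : A, fz i e x 1 = dd * ρ ∧
        PowerSeries.constantCoeff (ρ * gz i x) = -1 := by
      unfold fz gz
      rw [if_pos hkz]
      by_cases hl : lev x = i + 1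
      · rw [if_pos hl, if_pos hl]; exact ⟨1, by ring, by rw [one_mul, cc_xx]⟩
      · rw [if_neg hl, if_neg hl]; exact ⟨xi, by ring, by rw [mul_one, cc_xi]⟩
    by_cases hk : v ∈ AL i e ∪ AU i e
    · have h2 : (nz i x ∩ (AL i e ∪ AU i e)) = {v} := by
        rw [hv, singleton_inter_of_mem hk]
      rw [h2, card_singleton]
      norm_num
      rcases AL_or_AU hk x with h3 | h3
      · by_cases hd : Disjoint (nz i x) (KP i e x)
        · have h4 := hadd.2 hd
          have h5 : nz i x \ KO i e x = ∅ := by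
            rw [sdiff_eq_empty_iff_subset, hv, singleton_subset_iff]
            exact h3
          rw [h5, card_empty, pow_zero, one_mul, pow_zero, mul_one, hρ] at h4
          rw [h4, mul_assoc, lc_mul _ (od_mul _ ho), cc_dd, zero_mul]
        · rw [hadd.1 hd, lc_zero]
      · rw [hadd.1, lc_zero]
        rw [hv, disjoint_singleton_left, not_not]
        exact h3
    · have h2 : (nz i x ∩ (AL i e ∪ AU i e)) = ∅ := by
        rw [hv, singleton_inter_of_notMem hk]
      have hd : Disjoint (nz i x) (AL i e ∪ AU i e) := by rw [disjoint_iff_inter_eq_empty, h2]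
      obtain ⟨d1, d2⟩ := disj_KO (x := x) hd
      have h4 := hadd.2 d2
      rw [sdiff_eq_self_of_disjoint d1, h1, pow_one, pow_one, hρ] at h4
      have h5 : tC i C (e + Pi.single x 1) = (ρ * gz i x) * tC i C e := by
        apply dd_cancel
        rw [h4]
        ring
      rw [h2, card_empty, h5, lc_mul _ ho, hρ2]
      norm_num
  · rw [if_neg hkz]
    have h2 : kz i e x 1 = ∅ := by
      rw [← card_eq_zero]
      have h3 : (kz i e x 1).card < (nz i x).card :=
        card_lt_card ((ssubset_iff_subset_ne).2 ⟨kz_sub, hkz⟩)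
      omega
    have h4 := hadd.2 (by rw [h2]; exact disjoint_empty_left _)
    have h3 : fz i e x 1 = 1 := by unfold fz; rw [if_neg hkz]
    rw [h2, empty_sdiff, card_empty, pow_zero, one_mul, pow_zero, mul_one, h3, one_mul] at h4
    rw [h4, h2, h1, card_empty]
    norm_num

/-- a matched pair -/
theorem val_pair {x x' : P} (lx : lev x = i + 1) (lx' : lev x' + 1 = i) (hxC : x ∈ C)
    (hxC' : x' ∈ C) (hT : x ∉ Tch i e) (hT' : x' ∉ Tch i e) (hx0 : e x = 0) (hx0' : e x' = 0)
    (h2 : (nz i x).card = 2) (hn : nz i x' = nz i x) (ho : od (st i C).card k (tC i C e)) :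
    lc (st i C).card k (tC i C (e + Pi.single x 1) + tC i C (e + Pi.single x' 1)) =
      om i e x * lc (st i C).card k (tC i C e) := by
  have hir : i ≤ r := by omega
  have hx : x ∈ near P i := mem_near.2 (Or.inl lx)
  have hx' : x' ∈ near P i := mem_near.2 (Or.inr lx')
  have nx' : ¬ lev x' = i + 1 := by omega
  have hadd := add_near H hir hC hs hA hx hxC hT hx0 1
  have hadd' := add_near H hir hC hs hA hx' hxC' hT' hx0' 1
  have hkk : kz i e x' 1 = kz i e x 1 := by unfold kz; rw [hn]
  have o1 : KO i e x = AL i e := by unfold KO; rw [if_pos lx]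
  have o2 : KP i e x = AU i e := by unfold KP; rw [if_pos lx]
  have o3 : KO i e x' = AU i e := by unfold KO; rw [if_neg nx']
  have o4 : KP i e x' = AL i e := by unfold KP; rw [if_neg nx']
  have g1 : gz i x = xx := by unfold gz; rw [if_pos lx]
  have g2 : gz i x' = 1 := by unfold gz; rw [if_neg nx']
  rw [hkk, o3, o4, g2, one_pow, mul_one] at hadd'
  rw [o1, o2, g1] at hadd
  unfold om
  by_cases hkz : kz i e x 1 = nz i x
  · have f1 : fz i e x 1 = dd := by unfold fz; rw [if_pos hkz, if_pos lx]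
    have f2 : fz i e x' 1 = xi * dd := by
      unfold fz; rw [hkk, hn, if_pos hkz, if_neg nx']
    rw [f1, hkz] at hadd
    rw [f2, hkz] at hadd'
    rw [if_pos hkz, if_neg (by omega)]
    -- the number of killed sites on each side
    have hcL := card_sdiff_add_card_inter (nz i x) (AL i e)
    have hcU := card_sdiff_add_card_inter (nz i x) (AU i e)
    have hun : (nz i x ∩ (AL i e ∪ AU i e)).card =
        (nz i x ∩ AL i e).card + (nz i x ∩ AU i e).card := by
      rw [inter_union_distrib_left, card_union_of_disjoint]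
      exact disjoint_of_subset_left inter_subset_right
        (disjoint_of_subset_right inter_subset_right hA)
    have hdL : Disjoint (nz i x) (AL i e) ↔ (nz i x ∩ AL i e).card = 0 := by
      rw [card_eq_zero, disjoint_iff_inter_eq_empty]
    have hdU : Disjoint (nz i x) (AU i e) ↔ (nz i x ∩ AU i e).card = 0 := by
      rw [card_eq_zero, disjoint_iff_inter_eq_empty]
    obtain ⟨α, hα⟩ : ∃ α, α = (nz i x ∩ AL i e).card := ⟨_, rfl⟩
    obtain ⟨β, hβ⟩ : ∃ β, β = (nz i x ∩ AU i e).card := ⟨_, rfl⟩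
    rw [← hα] at hcL hun hdL
    rw [← hβ] at hcU hun hdU
    have hle : α + β ≤ 2 := by
      rw [← hun, ← h2]
      exact card_le_card inter_subset_left
    have eL : (nz i x \ AL i e).card = 2 - α := by omega
    have eU : (nz i x \ AU i e).card = 2 - β := by omega
    rw [eL, hdU] at hadd
    rw [eU, hdL] at hadd'
    rw [hun]
    by_cases hα0 : α = 0
    · by_cases hβ0 : β = 0
      · -- free
        have h4 := hadd.2 hβ0
        have h5 := hadd'.2 hα0
        rw [hα0, Nat.sub_zero] at h4
        rw [hβ0, Nat.sub_zero] at h5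
        have h6 : tC i C (e + Pi.single x 1) + tC i C (e + Pi.single x' 1) =
            kap * tC i C e := by
          apply dd_cancel
          apply dd_cancel
          have h7 := kap_eq
          linear_combination h4 + h5 + dd * tC i C e * h7
        rw [h6, lc_mul _ ho, cc_kap, hα0, hβ0]
        norm_num
      · -- killed above
        rw [hadd.1 hβ0, zero_add]
        have h5 := hadd'.2 hα0
        rw [hα0]
        have hβ12 : β = 1 ∨ β = 2 := by omega
        rcases hβ12 with hb | hb
        · rw [hb] at h5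
          have h6 : tC i C (e + Pi.single x' 1) = xi * tC i C e := by
            apply dd_cancel
            linear_combination h5
          rw [h6, lc_mul _ ho, cc_xi, hb]
          norm_num
        · rw [hb] at h5
          have h6 : tC i C (e + Pi.single x' 1) = (xi * dd) * tC i C e := by
            linear_combination h5
          rw [h6, lc_mul _ ho, map_mul, cc_dd, hb]
          norm_num
    · rw [hadd'.1 hα0, add_zero]
      by_cases hβ0 : β = 0
      · have h4 := hadd.2 hβ0
        rw [hβ0]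
        have hα12 : α = 1 ∨ α = 2 := by omega
        rcases hα12 with hb | hb
        · rw [hb] at h4
          have h6 : tC i C (e + Pi.single x 1) = xx * tC i C e := by
            apply dd_cancel
            linear_combination h4
          rw [h6, lc_mul _ ho, cc_xx, hb]
          norm_num
        · rw [hb] at h4
          have h6 : tC i C (e + Pi.single x 1) = dd * tC i C e := by
            linear_combination h4
          rw [h6, lc_mul _ ho, cc_dd, hb]
          norm_num
      · rw [hadd.1 hβ0, lc_zero]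
        have ha1 : α = 1 := by omega
        have hb1 : β = 1 := by omega
        rw [ha1, hb1]
        norm_num
  · have f1 : fz i e x 1 = 1 := by unfold fz; rw [if_neg hkz]
    have f2 : fz i e x' 1 = 1 := by unfold fz; rw [hkk, hn, if_neg hkz]
    rw [f1, one_mul] at hadd
    rw [f2, one_mul] at hadd'
    rw [if_neg hkz]
    have h3 : (kz i e x 1).card < (nz i x).card :=
      card_lt_card ((ssubset_iff_subset_ne).2 ⟨kz_sub, hkz⟩)
    have hcL := card_sdiff_add_card_inter (kz i e x 1) (AL i e)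
    have hcU := card_sdiff_add_card_inter (kz i e x 1) (AU i e)
    have hdL : Disjoint (kz i e x 1) (AL i e) ↔ (kz i e x 1 ∩ AL i e).card = 0 := by
      rw [card_eq_zero, disjoint_iff_inter_eq_empty]
    have hdU : Disjoint (kz i e x 1) (AU i e) ↔ (kz i e x 1 ∩ AU i e).card = 0 := by
      rw [card_eq_zero, disjoint_iff_inter_eq_empty]
    have hun : (kz i e x 1 ∩ AL i e).card + (kz i e x 1 ∩ AU i e).card ≤
        (kz i e x 1).card := by
      rw [← card_union_of_disjoint]
      · exact card_le_card (union_subset inter_subset_left inter_subset_left)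
      · exact disjoint_of_subset_left inter_subset_right
          (disjoint_of_subset_right inter_subset_right hA)
    obtain ⟨α, hα⟩ : ∃ α, α = (kz i e x 1 ∩ AL i e).card := ⟨_, rfl⟩
    obtain ⟨β, hβ⟩ : ∃ β, β = (kz i e x 1 ∩ AU i e).card := ⟨_, rfl⟩
    obtain ⟨m, hm⟩ : ∃ m, m = (kz i e x 1).card := ⟨_, rfl⟩
    rw [← hα] at hcL hun hdL
    rw [← hβ] at hcU hun hdU
    rw [← hm] at hcL hcU hun h3 ⊢
    have eL : (kz i e x 1 \ AL i e).card = m - α := by omega
    have eU : (kz i e x 1 \ AU i e).card = m - β := by omega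
    rw [eL, hdU] at hadd
    rw [eU, hdL] at hadd'
    have hm2 : m = 0 ∨ m = 1 := by omega
    rcases hm2 with hm0 | hm1
    · have ha0 : α = 0 := by omega
      have hb0 : β = 0 := by omega
      have h4 := hadd.2 hb0
      have h5 := hadd'.2 ha0
      rw [hm0, Nat.zero_sub, pow_zero, one_mul, pow_zero, one_mul] at h4
      rw [hm0, Nat.zero_sub, pow_zero, one_mul] at h5
      rw [h4, h5, lc_add, h2, hm0]
      push_cast
      ring
    · rw [hm1, h2]
      by_cases hα0 : α = 0
      · by_cases hβ0 : β = 0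
        · have h4 := hadd.2 hβ0
          have h5 := hadd'.2 hα0
          rw [hm1, hα0] at h4
          rw [hm1, hβ0] at h5
          have h6 : tC i C (e + Pi.single x 1) + tC i C (e + Pi.single x' 1) = tC i C e := by
            apply dd_cancel
            have h7 : (1 : A) + xx = dd := one_add_xx
            linear_combination h4 + h5 + tC i C e * h7
          rw [h6]
          push_cast
          ring
        · have hb1 : β = 1 := by omega
          have h5 := hadd'.2 hα0
          rw [hadd.1 hβ0, zero_add]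
          rw [hm1, hb1, Nat.sub_self, pow_zero, one_mul] at h5
          rw [h5]
          push_cast
          ring
      · have ha1 : α = 1 := by omega
        have hb0 : β = 0 := by omega
        have h4 := hadd.2 hb0
        rw [hadd'.1 hα0, add_zero]
        rw [hm1, ha1, Nat.sub_self, pow_zero, one_mul, pow_zero, one_mul] at h4
        rw [h4]
        push_cast
        ring

end values

end Pool.Agent.GaussPoset.Win.W4

end

/-! From `Pool.Agent.W_448w4_h10.KK` -/

section

/-!
MP_448cb3_co, G2, case B, window `j`: the window sum of the component with two unmatched doubles `w`, `u` as a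
sum over the natural cores and the labels of `w`, `u`.  helper10.
-/

namespace Pool.Agent.GaussPoset.Win.W4

set_option linter.unusedSectionVars false

open Finset
open Pool.Agent.GaussPoset.Win.So (IV IV_chi IV_Fe)
open Pool.Agent.GaussPoset.Win.SO (sde_low sde_up)

universe u

variable {P : Type u} [Fintype P] [PartialOrder P] [DecidableEq P] {r i : ℕ}
variable {e f : P → ℕ} {psi : P → P} {C K : Finset P} {w v : P}

/-! ### sums over labellings -/

lemma sum_pa_insert (g : P → ℕ → A) {R : Finset P} (hw : w ∉ R) (m : ℕ) :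
    ∑ l ∈ (insert w R).piAntidiag m, ∏ x ∈ insert w R, g x (l x) =
      ∑ p ∈ antidiagonal m, g w p.1 * ∑ l ∈ R.piAntidiag p.2, ∏ x ∈ R, g x (l x) := by
  rw [← cons_eq_insert _ _ hw, piAntidiag_cons hw, sum_disjiUnion]
  refine sum_congr rfl ?_
  rintro ⟨a, b⟩ -
  rw [sum_map, mul_sum]
  refine sum_congr rfl ?_
  intro l hl
  have hlw : l w = 0 := by
    rw [mem_piAntidiag] at hl
    by_contra h
    exact hw (hl.2 w h)
  rw [prod_cons]
  have h1 : (addRightEmbedding (fun t => if t = w then a else 0)) l w = a := by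
    show (l + fun t => if t = w then a else 0) w = a
    rw [Pi.add_apply, if_pos rfl, hlw, zero_add]
  have h2 : ∀ x ∈ R, (addRightEmbedding (fun t => if t = w then a else 0)) l x = l x := by
    intro x hx
    show (l + fun t => if t = w then a else 0) x = l x
    rw [Pi.add_apply, if_neg (by rintro rfl; exact hw hx), add_zero]
  show g w ((addRightEmbedding (fun t => if t = w then a else 0)) l w) * _ = _
  rw [h1]
  congr 1
  refine prod_congr rfl fun x hx => ?_
  show g x ((addRightEmbedding (fun t => if t = w then a else 0)) l x) = _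
  rw [h2 x hx]

lemma sum_pa_one {M : Type*} [AddCommMonoid M] (F : (P → ℕ) → M) (R : Finset P) :
    ∑ l ∈ R.piAntidiag 1, F l = ∑ x ∈ R, F (Pi.single x 1) := by
  classical
  have h1 : R.piAntidiag 1 = R.image (fun x => (Pi.single x 1 : P → ℕ)) := by
    ext l
    rw [I2.mem_pa, mem_image]
    constructor
    · rintro ⟨h1, h2⟩
      obtain ⟨x, -, hx⟩ : ∃ x ∈ (univ : Finset P), l x ≠ 0 := by
        by_contra hcon
        push Not at hcon
        rw [sum_eq_zero hcon] at h1
        omega
      refine ⟨x, ?_, ?_⟩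
      · by_contra h3
        exact hx (h2 x h3)
      · funext y
        rw [← add_sum_erase _ _ (mem_univ x)] at h1
        have h3 : ∑ y ∈ univ.erase x, l y = 0 := by omega
        rw [sum_eq_zero_iff] at h3
        by_cases hy : y = x
        · rw [hy, Pi.single_eq_same]; omega
        · rw [Pi.single_eq_of_ne hy]
          exact (h3 y (mem_erase.2 ⟨hy, mem_univ y⟩)).symm
    · rintro ⟨x, hx, rfl⟩
      refine ⟨by rw [sum_pi_single']; simp, fun y hy => ?_⟩
      rw [Pi.single_eq_of_ne]
      rintro rfl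
      exact hy hx
  rw [h1, sum_image]
  intro x _ y _ h
  by_contra hne
  have h2 := congrFun h x
  simp only [Pi.single_eq_same] at h2
  rw [Pi.single_eq_of_ne hne] at h2
  omega

/-! ### the matching extended by the identity -/

/-- the matching, identity on `K` -/
noncomputable def ps (K : Finset P) (psi : P → P) : P → P := fun x => if x ∈ K then x else psi x

lemma mem_RK_ps {x : P} : x ∈ RK i ∅ (ps K psi) C e ↔
    x ∈ RK i K psi C e ∨ (x ∈ K ∧ x ∈ near P i ∧ x ∈ C ∧ x ∉ Tch i e) := by
  rw [mem_RK, mem_RK, mem_Rst, mem_Rst]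
  unfold ps
  by_cases hK : x ∈ K
  · rw [if_pos hK]
    constructor
    · rintro ⟨⟨h1, -, h2, -⟩, h3⟩
      exact Or.inr ⟨hK, h1, h3, h2⟩
    · rintro (⟨⟨-, h1, -⟩, -⟩ | ⟨-, h1, h2, h3⟩)
      · exact absurd hK h1
      · exact ⟨⟨h1, notMem_empty x, h3, fun h => h3 h.2⟩, h2⟩
  · rw [if_neg hK]
    constructor
    · rintro ⟨⟨h1, -, h2, h3⟩, h4⟩
      exact Or.inl ⟨⟨h1, hK, h2, h3⟩, h4⟩
    · rintro (⟨⟨h1, -, h2, h3⟩, h4⟩ | ⟨h1, -⟩)
      · exact ⟨⟨h1, notMem_empty x, h2, h3⟩, h4⟩
      · exact absurd h1 hK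

/-- a component with exactly two unmatched doubles, one lower and one upper -/
structure K5 (r i : ℕ) (K : Finset P) (psi : P → P) (C : Finset P) (w v : P) : Prop where
  H : Gr P r
  hi : 1 ≤ i
  hi2 : i + 1 ≤ r
  hM : Mat P i K psi
  hC : Part (i + 1) C
  hK : ∀ x ∈ C, x ∈ K ↔ x = w ∨ x = v
  wC : w ∈ C
  vC : v ∈ C
  lw0 : lev w = i + 1
  lv0 : lev v + 1 = i
  nq : ∀ z ∈ C, lev z = i + 2 → ∀ x ∈ uc z, ∀ x' ∈ uc z, (uc x).card = 2 → (uc x').card = 2 →
    (uc x ∩ uc x').Nonempty
  nq' : ∀ z ∈ C, lev z + 2 = i → ∀ x ∈ dc z, ∀ x' ∈ dc z, (dc x).card = 2 → (dc x').card = 2 →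
    (dc x ∩ dc x').Nonempty

lemma K5.part (Q : K5 r i K psi C w v) : Part i C :=
  ⟨fun h1 h2 => Q.hC.up h1 h2, fun h1 h2 h3 => Q.hC.dn h1 (by omega) h3⟩

lemma K5.hir (Q : K5 r i K psi C w v) : i ≤ r := by have := Q.hi2; omega

lemma K5.ne (Q : K5 r i K psi C w v) : w ≠ v := by
  have := Q.lw0
  have := Q.lv0
  rintro rfl
  omega

lemma K5.nw (Q : K5 r i K psi C w v) : w ∈ near P i := mem_near.2 (Or.inl Q.lw0)

lemma K5.nv (Q : K5 r i K psi C w v) : v ∈ near P i := mem_near.2 (Or.inr Q.lv0)

lemma K5.wK (Q : K5 r i K psi C w v) : w ∈ K := (Q.hK w Q.wC).2 (Or.inl rfl)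

lemma K5.vK (Q : K5 r i K psi C w v) : v ∈ K := (Q.hK v Q.vC).2 (Or.inr rfl)

lemma notMem_RK {x : P} (hx : x ∈ K) : x ∉ RK i K psi C e := fun h =>
  (mem_Rst.1 (mem_RK.1 h).1).2.1 hx

/-- the allowed labels of an element of `K` -/
def Ac (i : ℕ) (e : P → ℕ) (x : P) (a : ℕ) : Prop := a = 0 ∨ x ∉ Tch i e

open Classical in
/-- THE SPLIT of the sum over the labellings of the free near elements -/
theorem K5.GK_split (Q : K5 r i K psi C w v) (e : P → ℕ) (m : ℕ) (S : Finset P) :
    GK i ∅ (ps K psi) C e m S = ∑ p ∈ antidiagonal m, ∑ q ∈ antidiagonal p.2,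
      if Ac i e w p.1 ∧ Ac i e v q.1 then
        wt i e w p.1 S * (wt i e v q.1 S * GK i K psi C e q.2 S) else 0 := by
  have hir := Q.hir
  have w0 : wt i e w 0 S = 1 := wt_zero Q.H hir Q.nw e S
  have v0 : wt i e v 0 S = 1 := wt_zero Q.H hir Q.nv e S
  have hwR : w ∉ RK i K psi C e := notMem_RK Q.wK
  have hvR : v ∉ RK i K psi C e := notMem_RK Q.vK
  have hne := Q.ne
  unfold GK
  by_cases hw : w ∈ Tch i e
  · by_cases hv : v ∈ Tch i e
    · have hR : RK i ∅ (ps K psi) C e = RK i K psi C e := by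
        ext x
        rw [mem_RK_ps]
        constructor
        · rintro (h | ⟨h1, h2, h3, h4⟩)
          · exact h
          · rcases (Q.hK x h3).1 h1 with rfl | rfl
            · exact absurd hw h4
            · exact absurd hv h4
        · exact Or.inl
      rw [hR, sum_eq_single (0, m), sum_eq_single (0, m)]
      · rw [if_pos ⟨Or.inl rfl, Or.inl rfl⟩, w0, v0, one_mul, one_mul]
      · rintro ⟨a, b⟩ h1 h2
        rw [if_neg]
        rintro ⟨-, h3 | h3⟩
        · apply h2
          rw [HasAntidiagonal.mem_antidiagonal] at h1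
          simp only at h1 h3
          rw [h3, zero_add] at h1
          rw [h3, h1]
        · exact h3 hv
      · intro h
        exact absurd (HasAntidiagonal.mem_antidiagonal.2 (zero_add m)) h
      · rintro ⟨a, b⟩ h1 h2
        refine sum_eq_zero fun q _ => ?_
        rw [if_neg]
        rintro ⟨h3 | h3, -⟩
        · apply h2
          rw [HasAntidiagonal.mem_antidiagonal] at h1
          simp only at h1 h3
          rw [h3, zero_add] at h1
          rw [h3, h1]
        · exact h3 hw
      · intro h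
        exact absurd (HasAntidiagonal.mem_antidiagonal.2 (zero_add m)) h
    · have hR : RK i ∅ (ps K psi) C e = insert v (RK i K psi C e) := by
        ext x
        rw [mem_RK_ps, mem_insert]
        constructor
        · rintro (h | ⟨h1, h2, h3, h4⟩)
          · exact Or.inr h
          · rcases (Q.hK x h3).1 h1 with rfl | rfl
            · exact absurd hw h4
            · exact Or.inl rfl
        · rintro (h | h)
          · rw [h]
            exact Or.inr ⟨Q.vK, Q.nv, Q.vC, hv⟩
          · exact Or.inl h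
      rw [hR, sum_pa_insert (fun x a => wt i e x a S) hvR]
      symm
      rw [sum_eq_single (0, m)]
      · refine sum_congr rfl fun q _ => ?_
        rw [if_pos ⟨Or.inl rfl, Or.inr hv⟩, w0, one_mul]
      · rintro ⟨a, b⟩ h1 h2
        refine sum_eq_zero fun q _ => ?_
        rw [if_neg]
        rintro ⟨h3 | h3, -⟩
        · apply h2
          rw [HasAntidiagonal.mem_antidiagonal] at h1
          simp only at h1 h3
          rw [h3, zero_add] at h1
          rw [h3, h1]
        · exact h3 hw
      · intro h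
        exact absurd (HasAntidiagonal.mem_antidiagonal.2 (zero_add m)) h
  · by_cases hv : v ∈ Tch i e
    · have hR : RK i ∅ (ps K psi) C e = insert w (RK i K psi C e) := by
        ext x
        rw [mem_RK_ps, mem_insert]
        constructor
        · rintro (h | ⟨h1, h2, h3, h4⟩)
          · exact Or.inr h
          · rcases (Q.hK x h3).1 h1 with rfl | rfl
            · exact Or.inl rfl
            · exact absurd hv h4
        · rintro (h | h)
          · rw [h]
            exact Or.inr ⟨Q.wK, Q.nw, Q.wC, hw⟩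
          · exact Or.inl h
      rw [hR, sum_pa_insert (fun x a => wt i e x a S) hwR]
      refine sum_congr rfl fun p _ => ?_
      rw [sum_eq_single (0, p.2)]
      · rw [if_pos ⟨Or.inr hw, Or.inl rfl⟩, v0, one_mul]
      · rintro ⟨a, b⟩ h1 h2
        rw [if_neg]
        rintro ⟨-, h3 | h3⟩
        · apply h2
          rw [HasAntidiagonal.mem_antidiagonal] at h1
          simp only at h1 h3
          rw [h3, zero_add] at h1
          rw [h3, h1]
        · exact h3 hv
      · intro h
        exact absurd (HasAntidiagonal.mem_antidiagonal.2 (zero_add p.2)) h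
    · have hR : RK i ∅ (ps K psi) C e = insert w (insert v (RK i K psi C e)) := by
        ext x
        rw [mem_RK_ps, mem_insert, mem_insert]
        constructor
        · rintro (h | ⟨h1, h2, h3, h4⟩)
          · exact Or.inr (Or.inr h)
          · rcases (Q.hK x h3).1 h1 with rfl | rfl
            · exact Or.inl rfl
            · exact Or.inr (Or.inl rfl)
        · rintro (h | h | h)
          · rw [h]
            exact Or.inr ⟨Q.wK, Q.nw, Q.wC, hw⟩
          · rw [h]
            exact Or.inr ⟨Q.vK, Q.nv, Q.vC, hv⟩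
          · exact Or.inl h
      have hwR2 : w ∉ insert v (RK i K psi C e) := by
        rw [mem_insert, not_or]
        exact ⟨hne, hwR⟩
      rw [hR, sum_pa_insert (fun x a => wt i e x a S) hwR2]
      refine sum_congr rfl fun p _ => ?_
      rw [sum_pa_insert (fun x a => wt i e x a S) hvR, mul_sum]
      refine sum_congr rfl fun q _ => ?_
      rw [if_pos ⟨Or.inr hw, Or.inr hv⟩]

lemma Fe_add1 (H : Gr P r) (hir : i ≤ r) {x : P} (hx : x ∈ near P i) (hT : x ∉ Tch i e)
    (h0 : e x = 0) (a : ℕ) (S : Finset P) :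
    Fe i (e + Pi.single x a) S = Fe i e S * wt i e x a S := by
  have h := fact_many H hir (e := e) {x} (singleton_subset_iff.2 hx)
    (fun y hy => by rw [mem_singleton] at hy; rw [hy]; exact hT)
    (fun y hy => by rw [mem_singleton] at hy; rw [hy]; exact h0) (Pi.single x a)
    (fun y hy => by
      rw [mem_singleton] at hy
      rw [Pi.single_apply, if_neg hy]) S
  rw [h, prod_singleton, Pi.single_eq_same]

lemma Tch_add (H : Gr P r) {l : P → ℕ} (hl : ∀ x, x ∉ near P i → l x = 0) :
    Tch i (e + l) = Tch i e := (Rst_add H ∅ id e l hl).1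

lemma single_far {x : P} (hx : x ∈ near P i) (a : ℕ) : ∀ y, y ∉ near P i →
    (Pi.single x a : P → ℕ) y = 0 := by
  intro y hy
  rw [Pi.single_apply, if_neg]
  rintro rfl
  exact hy hx

lemma RK_add (H : Gr P r) {l : P → ℕ} (hl : ∀ x, x ∉ near P i → l x = 0) :
    RK i K psi C (e + l) = RK i K psi C e := by
  unfold RK
  rw [(Rst_add H K psi e l hl).2]

lemma GK_add (H : Gr P r) {l : P → ℕ} (hl : ∀ x, x ∉ near P i → l x = 0) (m : ℕ)
    (S : Finset P) : GK i K psi C (e + l) m S = GK i K psi C e m S := by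
  unfold GK
  rw [RK_add H hl]
  refine sum_congr rfl fun t _ => prod_congr rfl fun x hx => ?_
  refine So.wt_congr H (fun y hy => ?_) (RK_near hx) _ _
  rw [Pi.add_apply, hl y, add_zero]
  rw [mem_near]
  omega

open Classical in
/-- the contribution of a natural core with labels `a`, `b` on `w`, `v` -/
noncomputable def Jx (i : ℕ) (K : Finset P) (psi : P → P) (C : Finset P) (w v : P) (e : P → ℕ)
    (a b m : ℕ) : A :=
  if Ac i e w a ∧ Ac i e v b then JK i K psi C m (e + Pi.single w a + Pi.single v b) else 0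

lemma Fe_add2 (Q : K5 r i K psi C w v) {a b : ℕ} (ha : Ac i e w a) (hb : Ac i e v b)
    (hw : w ∉ Tch i e → e w = 0) (hv : v ∉ Tch i e → e v = 0) (S : Finset P) :
    Fe i (e + Pi.single w a + Pi.single v b) S =
      Fe i e S * (wt i e w a S * wt i e v b S) := by
  have hir := Q.hir
  have h1 : Fe i (e + Pi.single w a) S = Fe i e S * wt i e w a S := by
    rcases ha with h | h
    · rw [h, Pi.single_zero, add_zero, wt_zero Q.H hir Q.nw, mul_one]
    · exact Fe_add1 Q.H hir Q.nw h (hw h) a S
  have hT : Tch i (e + Pi.single w a) = Tch i e := Tch_add Q.H (single_far Q.nw a)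
  have hwt : wt i (e + Pi.single w a) v b S = wt i e v b S := by
    refine So.wt_congr Q.H (fun y hy => ?_) Q.nv _ _
    rw [Pi.add_apply, single_far Q.nw a y, add_zero]
    rw [mem_near]
    omega
  rcases hb with h | h
  · rw [h, Pi.single_zero, add_zero, wt_zero Q.H hir Q.nv, mul_one]
    exact h1
  · rw [Fe_add1 Q.H hir Q.nv (by rw [hT]; exact h) (by
      rw [Pi.add_apply, hv h, Pi.single_apply, if_neg Q.ne.symm, add_zero]) b S, h1, hwt, mul_assoc]

lemma JK_add2 (Q : K5 r i K psi C w v) {a b : ℕ} (ha : Ac i e w a) (hb : Ac i e v b)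
    (hw : w ∉ Tch i e → e w = 0) (hv : v ∉ Tch i e → e v = 0) (m : ℕ) :
    JK i K psi C m (e + Pi.single w a + Pi.single v b) = IV (st i C) (fun S =>
      Fe i e S * (wt i e w a S * (wt i e v b S * GK i K psi C e m S))) := by
  unfold JK
  congr 1
  funext S
  rw [Fe_add2 Q ha hb hw hv, add_assoc e, GK_add Q.H]
  · ring
  · intro x hx
    rw [Pi.add_apply, single_far Q.nw _ x hx, single_far Q.nv _ x hx]

lemma IV_sum {ι : Type*} {V : Finset P} (s : Finset ι) (g : ι → Finset P → A) :
    IV V (fun S => ∑ t ∈ s, g t S) = ∑ t ∈ s, IV V (g t) := by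
  unfold IV
  rw [sum_comm]
  exact sum_congr rfl fun S _ => mul_sum _ _ _

lemma core_wv (Q : K5 r i K psi C w v) (hc : IsCore i ∅ (ps K psi) e) :
    (w ∉ Tch i e → e w = 0) ∧ (v ∉ Tch i e → e v = 0) :=
  ⟨fun h => hc w (mem_RK.1 (mem_RK_ps.2 (Or.inr ⟨Q.wK, Q.nw, Q.wC, h⟩))).1,
    fun h => hc v (mem_RK.1 (mem_RK_ps.2 (Or.inr ⟨Q.vK, Q.nv, Q.vC, h⟩))).1⟩

open Classical in
lemma K5.JK_split (Q : K5 r i K psi C w v) (hc : IsCore i ∅ (ps K psi) e) (m : ℕ) :
    JK i ∅ (ps K psi) C m e = ∑ p ∈ antidiagonal m, ∑ t ∈ antidiagonal p.2,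
        Jx i K psi C w v e p.1 t.1 t.2 := by
  obtain ⟨hw, hv⟩ := core_wv Q hc
  have h1 : (fun S => Fe i e S * GK i ∅ (ps K psi) C e m S) =
      fun S => ∑ p ∈ antidiagonal m, ∑ t ∈ antidiagonal p.2,
        if Ac i e w p.1 ∧ Ac i e v t.1 then
          Fe i e S * (wt i e w p.1 S * (wt i e v t.1 S * GK i K psi C e t.2 S)) else 0 := by
    funext S
    rw [Q.GK_split, mul_sum]
    refine sum_congr rfl fun p _ => ?_
    rw [mul_sum]
    refine sum_congr rfl fun t _ => ?_
    split_ifs
    · rfl
    · rw [mul_zero]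
  unfold JK
  rw [h1]
  refine (IV_sum _ (fun (p : ℕ × ℕ) S => ∑ t ∈ antidiagonal p.2,
        if Ac i e w p.1 ∧ Ac i e v t.1 then
          Fe i e S * (wt i e w p.1 S * (wt i e v t.1 S * GK i K psi C e t.2 S)) else 0)).trans ?_
  refine sum_congr rfl fun p _ => ?_
  refine (IV_sum _ (fun (t : ℕ × ℕ) S => if Ac i e w p.1 ∧ Ac i e v t.1 then
          Fe i e S * (wt i e w p.1 S * (wt i e v t.1 S * GK i K psi C e t.2 S)) else 0)).trans ?_
  refine sum_congr rfl fun t _ => ?_
  unfold Jx
  by_cases hac : Ac i e w p.1 ∧ Ac i e v t.1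
  · rw [if_pos hac, JK_add2 Q hac.1 hac.2 hw hv]
    congr 1
    funext S
    rw [if_pos hac]
  · rw [if_neg hac]
    have h2 : (fun S => if Ac i e w p.1 ∧ Ac i e v t.1 then
        Fe i e S * (wt i e w p.1 S * (wt i e v t.1 S * GK i K psi C e t.2 S)) else 0) =
        fun _ => (0 : A) := by
      funext S
      rw [if_neg hac]
    rw [h2]
    unfold IV
    exact sum_eq_zero fun S _ => mul_zero _

open Classical in
/-- THE WINDOW SUM of the component -/
theorem K5.ZC_split (Q : K5 r i K psi C w v) (n : ℕ) :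
    ZC i C n = ∑ q ∈ range (n + 1), ∑ e ∈ (C.piAntidiag q).filter (IsCore i ∅ (ps K psi)),
      ∑ p ∈ antidiagonal (n - q), ∑ t ∈ antidiagonal p.2,
        Jx i K psi C w v e p.1 t.1 t.2 := by
  rw [ZC_coresK Q.H Q.hir ∅ (ps K psi) Q.part n]
  refine sum_congr rfl fun q _ => sum_congr rfl fun e he => ?_
  exact Q.JK_split (mem_filter.1 he).2 _

end Pool.Agent.GaussPoset.Win.W4

end

/-! From `Pool.Agent.W_448w4_h10.KN` -/

section

/-!
MP_448cb3_co, G2, case B, window `j`: orders of the window sums and values of the contributions with one label on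
an unmatched double.  helper10.
-/

namespace Pool.Agent.GaussPoset.Win.W4

set_option linter.unusedSectionVars false

open Finset
open Pool.Agent.GaussPoset.Win.So (IV IV_chi IV_Fe)

universe u

variable {P : Type u} [Fintype P] [PartialOrder P] [DecidableEq P] {r i : ℕ}
variable {e f : P → ℕ} {psi : P → P} {C K : Finset P} {w v : P}

/-! ### killed sites after adding a label -/

lemma FD_add1 (H : Gr P r) {x y : P} (hx : x ∈ near P i) (h0 : e x = 0) {a : ℕ}
    (hy : lev y = i) : FD (e + Pi.single x a) y ↔ FD e y ∨ (x ⋖ y ∧ e y < a) := by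
  have hyx : y ≠ x := by
    rintro rfl
    rw [mem_near] at hx
    omega
  unfold FD
  constructor
  · rintro ⟨z, hz, hlt⟩
    rw [Pi.add_apply, Pi.add_apply, Pi.single_apply, if_neg hyx, add_zero] at hlt
    by_cases hzx : z = x
    · right
      rw [hzx, h0, Pi.single_eq_same, zero_add] at hlt
      exact ⟨by rw [← hzx]; exact hz, hlt⟩
    · left
      rw [Pi.single_apply, if_neg hzx, add_zero] at hlt
      exact ⟨z, hz, hlt⟩
  · rintro (⟨z, hz, hlt⟩ | ⟨h1, h2⟩)
    · refine ⟨z, hz, ?_⟩
      rw [Pi.add_apply, Pi.add_apply, Pi.single_apply, if_neg hyx, add_zero]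
      omega
    · refine ⟨x, h1, ?_⟩
      rw [Pi.add_apply, Pi.add_apply, Pi.single_apply, if_neg hyx, add_zero, Pi.single_eq_same]
      omega

lemma FU_add1 (H : Gr P r) {x y : P} (hx : x ∈ near P i) (h0 : e x = 0) {a : ℕ}
    (hy : lev y = i) : FU (e + Pi.single x a) y ↔ FU e y ∨ (y ⋖ x ∧ e y < a) := by
  have hyx : y ≠ x := by
    rintro rfl
    rw [mem_near] at hx
    omega
  unfold FU
  constructor
  · rintro ⟨z, hz, hlt⟩
    rw [Pi.add_apply, Pi.add_apply, Pi.single_apply, if_neg hyx, add_zero] at hlt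
    by_cases hzx : z = x
    · right
      rw [hzx, h0, Pi.single_eq_same, zero_add] at hlt
      exact ⟨by rw [← hzx]; exact hz, hlt⟩
    · left
      rw [Pi.single_apply, if_neg hzx, add_zero] at hlt
      exact ⟨z, hz, hlt⟩
  · rintro (⟨z, hz, hlt⟩ | ⟨h1, h2⟩)
    · refine ⟨z, hz, ?_⟩
      rw [Pi.add_apply, Pi.add_apply, Pi.single_apply, if_neg hyx, add_zero]
      omega
    · refine ⟨x, h1, ?_⟩
      rw [Pi.add_apply, Pi.add_apply, Pi.single_apply, if_neg hyx, add_zero, Pi.single_eq_same]
      omega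

lemma AL_low (H : Gr P r) {x : P} (hx : lev x = i + 1) (h0 : e x = 0) (a : ℕ) :
    AL i (e + Pi.single x a) = AL i e ∪ kz i e x a := by
  have hn : x ∈ near P i := mem_near.2 (Or.inl hx)
  ext y
  rw [mem_union, NormD_mem_AL, NormD_mem_AL, mem_kz, nz_low hx, mem_uc]
  constructor
  · rintro ⟨h1, h2⟩
    rcases (FD_add1 H hn h0 h1).1 h2 with h | h
    · exact Or.inl ⟨h1, h⟩
    · exact Or.inr h
  · rintro (⟨h1, h2⟩ | h)
    · exact ⟨h1, (FD_add1 H hn h0 h1).2 (Or.inl h2)⟩
    · have := lev_uc H (mem_uc.2 h.1)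
      have h1 : lev y = i := by omega
      exact ⟨h1, (FD_add1 H hn h0 h1).2 (Or.inr h)⟩

lemma AU_low (H : Gr P r) {x : P} (hx : lev x = i + 1) (h0 : e x = 0) (a : ℕ) :
    AU i (e + Pi.single x a) = AU i e := by
  have hn : x ∈ near P i := mem_near.2 (Or.inl hx)
  ext y
  rw [NormD_mem_AU, NormD_mem_AU]
  constructor
  · rintro ⟨h1, h2⟩
    rcases (FU_add1 H hn h0 h1).1 h2 with h | h
    · exact ⟨h1, h⟩
    · have := lev_uc H (mem_uc.2 h.1)
      omega
  · rintro ⟨h1, h2⟩
    exact ⟨h1, (FU_add1 H hn h0 h1).2 (Or.inl h2)⟩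

lemma AU_upp (H : Gr P r) {x : P} (hx : lev x + 1 = i) (h0 : e x = 0) (a : ℕ) :
    AU i (e + Pi.single x a) = AU i e ∪ kz i e x a := by
  have hn : x ∈ near P i := mem_near.2 (Or.inr hx)
  ext y
  rw [mem_union, NormD_mem_AU, NormD_mem_AU, mem_kz, nz_upp hx, mem_dc]
  constructor
  · rintro ⟨h1, h2⟩
    rcases (FU_add1 H hn h0 h1).1 h2 with h | h
    · exact Or.inl ⟨h1, h⟩
    · exact Or.inr h
  · rintro (⟨h1, h2⟩ | h)
    · exact ⟨h1, (FU_add1 H hn h0 h1).2 (Or.inl h2)⟩
    · have := lev_dc H (mem_dc.2 h.1)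
      have h1 : lev y = i := by omega
      exact ⟨h1, (FU_add1 H hn h0 h1).2 (Or.inr h)⟩

lemma AL_upp (H : Gr P r) {x : P} (hx : lev x + 1 = i) (h0 : e x = 0) (a : ℕ) :
    AL i (e + Pi.single x a) = AL i e := by
  have hn : x ∈ near P i := mem_near.2 (Or.inr hx)
  ext y
  rw [NormD_mem_AL, NormD_mem_AL]
  constructor
  · rintro ⟨h1, h2⟩
    rcases (FD_add1 H hn h0 h1).1 h2 with h | h
    · exact ⟨h1, h⟩
    · have := lev_dc H (mem_dc.2 h.1)
      omega
  · rintro ⟨h1, h2⟩
    exact ⟨h1, (FD_add1 H hn h0 h1).2 (Or.inl h2)⟩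

lemma kz_add {x y : P} {a b : ℕ} (H : Gr P r) (hx : x ∈ near P i) (hy : y ∈ near P i) :
    kz i (e + Pi.single x a) y b = kz i e y b := by
  unfold kz
  refine filter_congr fun z hz => ?_
  rw [Pi.add_apply, Pi.single_apply, if_neg, add_zero]
  rintro rfl
  have := nz_lev H hy hz
  rw [mem_near] at hx
  omega

/-! ### configurations without admissibility -/

lemma Fe_zero (h : ¬ (AdmL i e ∧ AdmU i e ∧ Disjoint (AL i e) (AU i e))) (S : Finset P) :
    Fe i e S = 0 := by
  unfold Fe
  by_cases h1 : AdmL i e ∧ AdmU i e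
  · have h2 : ¬ Disjoint (AL i e) (AU i e) := fun h2 => h ⟨h1.1, h1.2, h2⟩
    have : chi (AL i e) (AU i e) S = 0 := by
      unfold chi
      rw [if_neg]
      rintro ⟨h3, h4⟩
      exact h2 (disjoint_of_subset_left h3 h4.symm)
    rw [this, mul_zero]
  · unfold cw
    rw [if_neg h1, zero_mul]

lemma tC_zero (h : ¬ (AdmL i e ∧ AdmU i e ∧ Disjoint (AL i e) (AU i e))) :
    tC i C e = 0 := by
  unfold tC
  split_ifs with h2
  · unfold cw
    rw [if_neg, zero_mul]
    rintro ⟨h3, h4⟩
    exact h ⟨h3, h4, h2⟩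
  · rfl

open Classical in
/-- the type of the pair (configuration, near element) -/
noncomputable def FG (i : ℕ) (e : P → ℕ) (x : P) (a : ℕ) : ℤ :=
  if Fx i e x a then 1 else if Gx i e x a then -1 else 0

section

variable (Q : K5 r i K psi C w v)
include Q

lemma K5.Jx_zero (hc : IsCore i ∅ (ps K psi) e)
    (h : ¬ (AdmL i e ∧ AdmU i e ∧ Disjoint (AL i e) (AU i e))) (a b m : ℕ) :
    Jx i K psi C w v e a b m = 0 := by
  unfold Jx
  split_ifs with h1
  · obtain ⟨hw, hv⟩ := core_wv Q hc
    rw [JK_add2 Q h1.1 h1.2 hw hv]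
    unfold IV
    refine sum_eq_zero fun S _ => ?_
    show xx ^ S.card * (Fe i e S * _) = 0
    rw [Fe_zero h, zero_mul, mul_zero]
  · rfl

/-- a touched unmatched double: no type -/
lemma K5.FG_touch {x : P} (hx : x ∈ near P i) (h2 : (nz i x).card = 2)
    (hadm : AdmL i e ∧ AdmU i e) (hT : x ∈ Tch i e) {a : ℕ}
    (hz : a = 1 ∨ ∀ y, lev y = i → e y = 0) : FG i e x a = 0 := by
  have hpos : 0 < e x := by
    by_contra h
    rw [mem_Tch] at hT
    rcases hT with ⟨h1, z, hz, hz'⟩ | ⟨h1, z, hz, hz'⟩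
    · refine hadm.1 x (by omega) ⟨⟨z, hz, by omega⟩, ?_⟩
      obtain ⟨y, hy⟩ := uc_nonempty Q.H (x := x) (by omega)
      exact ⟨y, mem_uc.1 hy, by omega⟩
    · refine hadm.2 x (by omega) ⟨⟨z, hz, by omega⟩, ?_⟩
      obtain ⟨y, hy⟩ := dc_nonempty Q.H (x := x) (by have := Q.hi2; omega)
      exact ⟨y, mem_dc.1 hy, by omega⟩
  -- a site with label zero is killed
  have key : ∀ y ∈ nz i x, e y = 0 → y ∈ AL i e ∪ AU i e := by
    intro y hy hy0
    have hl := nz_lev Q.H hx hy
    rw [mem_union, NormD_mem_AL, NormD_mem_AU]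
    rcases mem_near.1 hx with h | h
    · rw [nz_low h] at hy
      exact Or.inl ⟨hl, x, mem_uc.1 hy, by omega⟩
    · rw [nz_upp h] at hy
      exact Or.inr ⟨hl, x, mem_dc.1 hy, by omega⟩
  unfold FG
  rw [if_neg, if_neg]
  · rintro ⟨g1, g2, g3⟩
    obtain ⟨y, hy⟩ := card_eq_one.1 g1
    have hy1 : y ∈ kz i e x a := by rw [hy]; exact mem_singleton_self _
    obtain ⟨hy2, hy3⟩ := mem_kz.1 hy1
    have hy0 : e y = 0 := by
      rcases hz with h | h
      · omega
      · exact h y (nz_lev Q.H hx hy2)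
    exact disjoint_left.1 g3 hy1 (key y hy2 hy0)
  · rintro ⟨g1, g2⟩
    obtain ⟨y, hy⟩ : (nz i x).Nonempty := by rw [← card_pos]; omega
    have hy0 : e y = 0 := by
      rcases hz with h | h
      · have := g1 y hy
        omega
      · exact h y (nz_lev Q.H hx hy)
    exact disjoint_left.1 g2 hy (key y hy hy0)

/-- VALUE with a label on `w` -/
theorem K5.val_w (hc : IsCore i ∅ (ps K psi) e) (hs : Spt C e) (h2 : (nz i w).card = 2)
    {k a : ℕ} (ha : a ≠ 0) (hz : a = 1 ∨ ∀ y, lev y = i → e y = 0)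
    (ho : od (st i C).card k (tC i C e)) :
    lc (st i C).card (k + 1) (Jx i K psi C w v e a 0 0) =
      FG i e w a * lc (st i C).card k (tC i C e) := by
  by_cases hadm : AdmL i e ∧ AdmU i e ∧ Disjoint (AL i e) (AU i e)
  swap
  · rw [Q.Jx_zero hc hadm, lc_zero, tC_zero hadm, lc_zero, mul_zero]
  by_cases hT : w ∈ Tch i e
  · rw [Q.FG_touch Q.nw h2 ⟨hadm.1, hadm.2.1⟩ hT hz, zero_mul]
    unfold Jx
    rw [if_neg, lc_zero]
    rintro ⟨h | h, -⟩
    · exact ha h
    · exact h hT
  · have h0 : e w = 0 := (core_wv Q hc).1 hT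
    have h1 : Jx i K psi C w v e a 0 0 = tC i C (e + Pi.single w a) := by
      unfold Jx
      rw [if_pos ⟨Or.inr hT, Or.inl rfl⟩, Pi.single_zero, add_zero, JK_zero Q.H Q.hir Q.part]
      intro y hy
      rw [Pi.add_apply, hs y hy, Pi.single_apply, if_neg, add_zero]
      rintro rfl
      exact hy Q.wC
    rw [h1]
    have sg : sg1 i w = 1 := by unfold sg1; rw [if_pos Q.lw0]
    unfold FG
    by_cases hF : Fx i e w a
    · rw [if_pos hF, (val_F Q.H Q.hir Q.hC hs hadm.2.2 Q.nw Q.wC hT h0 h2 hF ho).2, sg]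
    · rw [if_neg hF]
      by_cases hG : Gx i e w a
      · rw [if_pos hG, (val_G Q.H Q.hir Q.hC hs hadm.2.2 Q.nw Q.wC hT h0 hG ho).2, sg]
      · rw [if_neg hG, zero_mul]
        exact lc_of_od (val_N Q.H Q.hir Q.hC hs hadm.2.2 Q.nw Q.wC hT h0 (by omega)
          (fun _ => hF) hG ho)

/-- VALUE with a label on `v` -/
theorem K5.val_v (hc : IsCore i ∅ (ps K psi) e) (hs : Spt C e) (h2 : (nz i v).card = 2)
    {k a : ℕ} (ha : a ≠ 0) (hz : a = 1 ∨ ∀ y, lev y = i → e y = 0)
    (ho : od (st i C).card k (tC i C e)) :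
    lc (st i C).card (k + 1) (Jx i K psi C w v e 0 a 0) =
      - FG i e v a * lc (st i C).card k (tC i C e) := by
  by_cases hadm : AdmL i e ∧ AdmU i e ∧ Disjoint (AL i e) (AU i e)
  swap
  · rw [Q.Jx_zero hc hadm, lc_zero, tC_zero hadm, lc_zero, mul_zero]
  by_cases hT : v ∈ Tch i e
  · rw [Q.FG_touch Q.nv h2 ⟨hadm.1, hadm.2.1⟩ hT hz, neg_zero, zero_mul]
    unfold Jx
    rw [if_neg, lc_zero]
    rintro ⟨-, h | h⟩
    · exact ha h
    · exact h hT
  · have h0 : e v = 0 := (core_wv Q hc).2 hT
    have h1 : Jx i K psi C w v e 0 a 0 = tC i C (e + Pi.single v a) := by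
      unfold Jx
      rw [if_pos ⟨Or.inl rfl, Or.inr hT⟩, Pi.single_zero, add_zero, JK_zero Q.H Q.hir Q.part]
      intro y hy
      rw [Pi.add_apply, hs y hy, Pi.single_apply, if_neg, add_zero]
      rintro rfl
      exact hy Q.vC
    rw [h1]
    have hl : ¬ lev v = i + 1 := by have := Q.lv0; omega
    have sg : sg1 i v = -1 := by unfold sg1; rw [if_neg hl]
    unfold FG
    by_cases hF : Fx i e v a
    · rw [if_pos hF, (val_F Q.H Q.hir Q.hC hs hadm.2.2 Q.nv Q.vC hT h0 h2 hF ho).2, sg]
    · rw [if_neg hF]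
      by_cases hG : Gx i e v a
      · rw [if_pos hG, (val_G Q.H Q.hir Q.hC hs hadm.2.2 Q.nv Q.vC hT h0 hG ho).2, sg]
      · rw [if_neg hG, neg_zero, zero_mul]
        exact lc_of_od (val_N Q.H Q.hir Q.hC hs hadm.2.2 Q.nv Q.vC hT h0 (by omega)
          (fun _ => hF) hG ho)

end

end Pool.Agent.GaussPoset.Win.W4

end

/-! From `Pool.Agent.W_448w4_h10.KO` -/

section

/-!
MP_448cb3_co, G2, case B, window `j`: one label on the free near elements, the sum.  helper10.
-/

namespace Pool.Agent.GaussPoset.Win.W4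

set_option linter.unusedSectionVars false

open Finset
open Pool.Agent.GaussPoset.Win.So (IV IV_chi IV_Fe)

universe u

variable {P : Type u} [Fintype P] [PartialOrder P] [DecidableEq P] {r i : ℕ}
variable {e f : P → ℕ} {psi : P → P} {C K : Finset P} {w v : P}

/-- one label on the free near elements -/
lemma JK_eq_sum (H : Gr P r) (hir : i ≤ r) (hC : Part i C) (hs : Spt C e)
    (h0 : ∀ x ∈ RK i K psi C e, e x = 0) :
    JK i K psi C 1 e = ∑ x ∈ RK i K psi C e, tC i C (e + Pi.single x 1) := by
  have h1 : ∀ x ∈ RK i K psi C e, tC i C (e + Pi.single x 1) = IV (st i C) (fun S =>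
      Fe i e S * ∏ y ∈ RK i K psi C e, wt i e y ((Pi.single x 1 : P → ℕ) y) S) := by
    intro x hx
    have hs' : Spt C (e + Pi.single x 1) := by
      intro y hy
      rw [Pi.add_apply, hs y hy, Pi.single_apply, if_neg, add_zero]
      rintro rfl
      exact hy (mem_RK.1 hx).2
    rw [← IV_Fe H hC hs']
    congr 1
    funext S
    refine fact_many H hir (RK i K psi C e) (fun y hy => RK_near hy) (fun y hy => ?_) h0 _
      (fun y hy => ?_) S
    · exact (mem_Rst.1 (mem_RK.1 hy).1).2.2.1
    · rw [Pi.single_apply, if_neg]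
      rintro rfl
      exact hy hx
  rw [sum_congr rfl h1]
  unfold JK GK
  have h2 : (fun S => Fe i e S * ∑ l ∈ (RK i K psi C e).piAntidiag 1,
      ∏ x ∈ RK i K psi C e, wt i e x (l x) S) = fun S => ∑ x ∈ RK i K psi C e,
        Fe i e S * ∏ y ∈ RK i K psi C e, wt i e y ((Pi.single x 1 : P → ℕ) y) S := by
    funext S
    rw [sum_pa_one (fun l => ∏ x ∈ RK i K psi C e, wt i e x (l x) S), mul_sum]
  rw [h2]
  exact IV_sum _ _

lemma dbL_nz {x : P} (hx : x ∈ dbL P i) : lev x = i + 1 ∧ (nz i x).card = 2 := by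
  obtain ⟨h1, h2⟩ := mem_dbL.1 hx
  exact ⟨h1, by rw [nz_low h1]; exact h2⟩

lemma dbU_nz {x : P} (hx : x ∈ dbU P i) : lev x + 1 = i ∧ (nz i x).card = 2 := by
  obtain ⟨h1, h2⟩ := mem_dbU.1 hx
  exact ⟨h1, by rw [nz_upp h1]; exact h2⟩

lemma nz_one (H : Gr P r) (hi : 1 ≤ i) (hi2 : i + 1 ≤ r) {x : P} (hx : x ∈ near P i)
    (h1 : x ∉ dbL P i) (h2 : x ∉ dbU P i) : (nz i x).card = 1 := by
  have h3 := nz_card H hi hi2 hx
  by_contra h4
  have h5 : (nz i x).card = 2 := by omega
  rcases mem_near.1 hx with h | h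
  · rw [nz_low h] at h5
    exact h1 (mem_dbL.2 ⟨h, h5⟩)
  · rw [nz_upp h] at h5
    exact h2 (mem_dbU.2 ⟨h, h5⟩)

open Classical in
/-- ONE LABEL on the free near elements -/
theorem JK_one (H : Gr P r) (hi : 1 ≤ i) (hi2 : i + 1 ≤ r) (hM : Mat P i K psi)
    (hC : Part (i + 1) C) (hs : Spt C e) (h0 : ∀ x ∈ RK i K psi C e, e x = 0)
    (hA : Disjoint (AL i e) (AU i e)) {k : ℕ} (ho : od (st i C).card k (tC i C e)) :
    lc (st i C).card k (JK i K psi C 1 e) =
      (∑ x ∈ (RK i K psi C e).filter (fun x => x ∉ dbU P i), om i e x) *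
        lc (st i C).card k (tC i C e) := by
  have hir : i ≤ r := by omega
  have hCi : Part i C := ⟨fun h1 h2 => hC.up h1 h2, fun h1 h2 h3 => hC.dn h1 (by omega) h3⟩
  obtain ⟨F, hF⟩ : ∃ F : P → ℤ, F = fun x => lc (st i C).card k (tC i C (e + Pi.single x 1)) :=
    ⟨_, rfl⟩
  obtain ⟨R, hR⟩ : ∃ R, R = RK i K psi C e := ⟨_, rfl⟩
  rw [JK_eq_sum H hir hCi hs h0, lc_sum, ← hR]
  have e0 : ∑ x ∈ R, lc (st i C).card k (tC i C (e + Pi.single x 1)) = ∑ x ∈ R, F x := by
    rw [hF]
  -- the involution
  have hdis : ∀ x, x ∈ dbL P i → x ∉ dbU P i := by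
    intro x h1 h2
    have := (mem_dbL.1 h1).1
    have := (mem_dbU.1 h2).1
    omega
  have memR : ∀ x, x ∈ R → x ∈ near P i ∧ x ∉ K ∧ x ∉ Tch i e ∧ x ∈ C := by
    intro x hx
    rw [hR, mem_RK, mem_Rst] at hx
    exact ⟨hx.1.1, hx.1.2.1, hx.1.2.2.1, hx.2⟩
  have psiR : ∀ x, x ∈ R → x ∈ dbL P i ∪ dbU P i → psi x ∈ R ∧ psi (psi x) = x := by
    intro x hx hd
    obtain ⟨h1, h2, h3, h4⟩ := memR x hx
    rw [hR] at hx ⊢
    rw [mem_RK] at hx ⊢
    exact ⟨⟨psi_RstK hM hx.1 hd, psi_memK H hM hC hd h2 h4⟩, (hM.invol x hd h2).1⟩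
  have e1 : ∑ x ∈ R, F x = ∑ x ∈ R.filter (fun x => x ∉ dbU P i), F x +
      ∑ x ∈ R.filter (fun x => x ∈ dbU P i), F x := by
    rw [add_comm]
    exact (sum_filter_add_sum_filter_not R (fun x => x ∈ dbU P i) F).symm
  have e2 : ∑ x ∈ R.filter (fun x => x ∈ dbU P i), F x =
      ∑ x ∈ R.filter (fun x => x ∈ dbL P i), F (psi x) := by
    refine sum_nbij' psi psi ?_ ?_ ?_ ?_ ?_
    · intro x hx
      rw [mem_filter] at hx ⊢
      obtain ⟨h1, h2⟩ := psiR x hx.1 (mem_union_right _ hx.2)
      exact ⟨h1, (hM.upp x hx.2 (memR x hx.1).2.1).1⟩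
    · intro x hx
      rw [mem_filter] at hx ⊢
      obtain ⟨h1, h2⟩ := psiR x hx.1 (mem_union_left _ hx.2)
      exact ⟨h1, (hM.low x hx.2 (memR x hx.1).2.1).1⟩
    · intro x hx
      rw [mem_filter] at hx
      exact (psiR x hx.1 (mem_union_right _ hx.2)).2
    · intro x hx
      rw [mem_filter] at hx
      exact (psiR x hx.1 (mem_union_left _ hx.2)).2
    · intro x hx
      rw [mem_filter] at hx
      rw [(psiR x hx.1 (mem_union_right _ hx.2)).2]
  have e3 : ∑ x ∈ R.filter (fun x => x ∈ dbL P i), F (psi x) =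
      ∑ x ∈ R.filter (fun x => x ∉ dbU P i), if x ∈ dbL P i then F (psi x) else 0 := by
    rw [← sum_filter, filter_filter]
    refine sum_congr ?_ fun _ _ => rfl
    ext x
    rw [mem_filter, mem_filter]
    constructor
    · rintro ⟨h1, h2⟩
      exact ⟨h1, hdis x h2, h2⟩
    · rintro ⟨h1, -, h2⟩
      exact ⟨h1, h2⟩
  rw [e0, e1, e2, e3, ← sum_add_distrib, sum_mul]
  refine sum_congr rfl fun x hx => ?_
  rw [mem_filter] at hx
  obtain ⟨h1, h2, h3, h4⟩ := memR x hx.1
  have hx0 : e x = 0 := h0 x (by rw [← hR]; exact hx.1)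
  by_cases hd : x ∈ dbL P i
  · rw [if_pos hd]
    obtain ⟨p1, p2⟩ := psiR x hx.1 (mem_union_left _ hd)
    obtain ⟨h1', h2', h3', h4'⟩ := memR _ p1
    obtain ⟨l1, l2⟩ := dbL_nz hd
    obtain ⟨q1, q2⟩ := hM.low x hd h2
    obtain ⟨l3, l4⟩ := dbU_nz q1
    have hn : nz i (psi x) = nz i x := by rw [nz_upp l3, nz_low l1]; exact q2
    have hx0' : e (psi x) = 0 := h0 _ (by rw [← hR]; exact p1)
    rw [hF]
    have := val_pair H hi hi2 hC hs hA l1 l3 h4 h4' h3 h3' hx0 hx0' l2 hn ho
    rw [lc_add] at this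
    exact this
  · rw [if_neg hd, add_zero, hF]
    exact val_single H hi hi2 hC hs hA h1 h4 h3 hx0 (nz_one H hi hi2 h1 hd hx.2) ho

end Pool.Agent.GaussPoset.Win.W4

end

/-! From `Pool.Agent.W_448w4_h10.KP` -/

section

/-!
MP_448cb3_co, G2, case B, window `j`: counting near elements at killed and labelled sites.  helper10.
-/

namespace Pool.Agent.GaussPoset.Win.W4

set_option linter.unusedSectionVars false

open Finset

universe u

variable {P : Type u} [Fintype P] [PartialOrder P] [DecidableEq P] {r i : ℕ}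
variable {e f : P → ℕ} {psi : P → P} {C K : Finset P} {w v : P}

/-- the matched near elements of the part -/
noncomputable def N0 (i : ℕ) (K C : Finset P) : Finset P := (near P i ∩ C) \ K

lemma mem_N0 {x : P} : x ∈ N0 i K C ↔ x ∈ near P i ∧ x ∈ C ∧ x ∉ K := by
  unfold N0
  rw [mem_sdiff, mem_inter, and_assoc]

/-- the number of matched near elements at a site (lower and upper) -/
noncomputable def dg (i : ℕ) (K C : Finset P) (y : P) : ℤ :=
  (((N0 i K C).filter (fun x => y ∈ nz i x)).card : ℤ)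

open Classical in
/-- the number of matched lower doubles with all sites in `T` -/
noncomputable def mm (i : ℕ) (K C T : Finset P) : ℤ :=
  (((N0 i K C).filter (fun x => x ∈ dbL P i ∧ nz i x ⊆ T)).card : ℤ)

open Classical in
/-- the vacuum -/
noncomputable def Vc (i : ℕ) (K C : Finset P) : ℤ :=
  ∑ x ∈ (N0 i K C).filter (fun x => x ∉ dbU P i), if x ∈ dbL P i then (-3 : ℤ) else -1

lemma dbLU {x : P} (h1 : x ∈ dbL P i) : x ∉ dbU P i := by
  intro h2
  have := (mem_dbL.1 h1).1
  have := (mem_dbU.1 h2).1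
  omega

open Classical in
lemma sum_dg (c : P → ℤ) (T : Finset P) :
    ∑ y ∈ T, c y * dg i K C y = ∑ x ∈ N0 i K C, ∑ y ∈ T.filter (fun y => y ∈ nz i x), c y := by
  have h1 : ∀ y ∈ T, c y * dg i K C y = ∑ x ∈ N0 i K C, if y ∈ nz i x then c y else 0 := by
    intro y _
    unfold dg
    rw [card_filter]
    push_cast
    rw [mul_sum]
    refine sum_congr rfl fun x _ => ?_
    split_ifs <;> simp
  rw [sum_congr rfl h1, sum_comm]
  refine sum_congr rfl fun x _ => ?_
  rw [sum_filter]

/-- the involution on the matched doubles -/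
lemma psi_N0 (H : Gr P r) (hM : Mat P i K psi) (hC : Part (i + 1) C) {x : P}
    (hx : x ∈ N0 i K C) (hd : x ∈ dbL P i ∪ dbU P i) :
    psi x ∈ N0 i K C ∧ psi (psi x) = x ∧ nz i (psi x) = nz i x ∧
      (x ∈ dbL P i → psi x ∈ dbU P i) ∧ (x ∈ dbU P i → psi x ∈ dbL P i) := by
  obtain ⟨h1, h2, h3⟩ := mem_N0.1 hx
  have h4 := hM.invol x hd h3
  have h5 := psi_memK H hM hC hd h3 h2
  rcases mem_union.1 hd with h | h
  · obtain ⟨q1, q2⟩ := hM.low x h h3
    obtain ⟨l1, -⟩ := dbL_nz h
    obtain ⟨l3, -⟩ := dbU_nz q1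
    refine ⟨mem_N0.2 ⟨mem_near.2 (Or.inr l3), h5, h4.2⟩, h4.1, ?_, fun _ => q1, fun h' => ?_⟩
    · rw [nz_upp l3, nz_low l1]; exact q2
    · exact absurd h' (dbLU h)
  · obtain ⟨q1, q2⟩ := hM.upp x h h3
    obtain ⟨l1, -⟩ := dbU_nz h
    obtain ⟨l3, -⟩ := dbL_nz q1
    refine ⟨mem_N0.2 ⟨mem_near.2 (Or.inl l3), h5, h4.2⟩, h4.1, ?_, fun h' => ?_, fun _ => q1⟩
    · rw [nz_low l3, nz_upp l1]; exact q2
    · exact absurd h (dbLU h')

open Classical in
/-- sums over the matched near elements of functions of the sites -/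
lemma sum_N0 (H : Gr P r) (hM : Mat P i K psi) (hC : Part (i + 1) C) (F : Finset P → ℤ) :
    ∑ x ∈ N0 i K C, F (nz i x) = ∑ x ∈ (N0 i K C).filter (fun x => x ∉ dbU P i),
      (if x ∈ dbL P i then 2 else 1) * F (nz i x) := by
  have e1 : ∑ x ∈ N0 i K C, F (nz i x) =
      ∑ x ∈ (N0 i K C).filter (fun x => x ∉ dbU P i), F (nz i x) +
      ∑ x ∈ (N0 i K C).filter (fun x => x ∈ dbU P i), F (nz i x) := by
    rw [add_comm]
    exact (sum_filter_add_sum_filter_not _ (fun x => x ∈ dbU P i) _).symm
  have e2 : ∑ x ∈ (N0 i K C).filter (fun x => x ∈ dbU P i), F (nz i x) =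
      ∑ x ∈ (N0 i K C).filter (fun x => x ∈ dbL P i), F (nz i x) := by
    refine sum_nbij' psi psi ?_ ?_ ?_ ?_ ?_
    · intro x hx
      rw [mem_filter] at hx ⊢
      obtain ⟨h1, h2, h3, h4, h5⟩ := psi_N0 H hM hC hx.1 (mem_union_right _ hx.2)
      exact ⟨h1, h5 hx.2⟩
    · intro x hx
      rw [mem_filter] at hx ⊢
      obtain ⟨h1, h2, h3, h4, h5⟩ := psi_N0 H hM hC hx.1 (mem_union_left _ hx.2)
      exact ⟨h1, h4 hx.2⟩
    · intro x hx
      rw [mem_filter] at hx
      exact (psi_N0 H hM hC hx.1 (mem_union_right _ hx.2)).2.1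
    · intro x hx
      rw [mem_filter] at hx
      exact (psi_N0 H hM hC hx.1 (mem_union_left _ hx.2)).2.1
    · intro x hx
      rw [mem_filter] at hx
      rw [(psi_N0 H hM hC hx.1 (mem_union_right _ hx.2)).2.2.1]
  have e3 : ∑ x ∈ (N0 i K C).filter (fun x => x ∈ dbL P i), F (nz i x) =
      ∑ x ∈ (N0 i K C).filter (fun x => x ∉ dbU P i),
        if x ∈ dbL P i then F (nz i x) else 0 := by
    rw [← sum_filter, filter_filter]
    refine sum_congr ?_ fun _ _ => rfl
    ext x
    rw [mem_filter, mem_filter]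
    constructor
    · rintro ⟨h1, h2⟩
      exact ⟨h1, dbLU h2, h2⟩
    · rintro ⟨h1, -, h2⟩
      exact ⟨h1, h2⟩
  rw [e1, e2, e3, ← sum_add_distrib]
  refine sum_congr rfl fun x _ => ?_
  split_ifs <;> ring

open Classical in
/-- COUNTING with killed sites only -/
theorem om_killed (H : Gr P r) (hi : 1 ≤ i) (hi2 : i + 1 ≤ r) (hM : Mat P i K psi)
    (hC : Part (i + 1) C) (hz : ∀ y, lev y = i → e y = 0)
    (hR : ∀ x ∈ N0 i K C, x ∉ RK i K psi C e → x ∈ dbL P i ∪ dbU P i ∧
      nz i x ⊆ AL i e ∪ AU i e) :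
    ∑ x ∈ (RK i K psi C e).filter (fun x => x ∉ dbU P i), om i e x =
      Vc i K C + ∑ y ∈ AL i e ∪ AU i e, dg i K C y - mm i K C (AL i e ∪ AU i e) := by
  obtain ⟨T, hT⟩ : ∃ T, T = AL i e ∪ AU i e := ⟨_, rfl⟩
  rw [← hT] at hR ⊢
  have hkz : ∀ x ∈ N0 i K C, kz i e x 1 = nz i x := by
    intro x hx
    rw [kz_eq_iff]
    intro y hy
    rw [hz y (nz_lev H (mem_N0.1 hx).1 hy)]
    omega
  have hom : ∀ x ∈ (N0 i K C).filter (fun x => x ∉ dbU P i), om i e x =
      (if x ∈ dbL P i then (-3 : ℤ) else -1) +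
        (if x ∈ dbL P i then 2 else 1) * ((nz i x ∩ T).card : ℤ) -
        (if x ∈ dbL P i ∧ nz i x ⊆ T then 1 else 0) := by
    intro x hx
    rw [mem_filter] at hx
    unfold om
    rw [if_pos (hkz x hx.1), ← hT]
    by_cases hd : x ∈ dbL P i
    · obtain ⟨-, h2⟩ := dbL_nz hd
      rw [if_neg (by omega), if_pos hd, if_pos hd]
      have h3 : (nz i x ∩ T).card = 2 ↔ (x ∈ dbL P i ∧ nz i x ⊆ T) := by
        constructor
        · intro h
          refine ⟨hd, ?_⟩
          have h4 : nz i x ∩ T = nz i x := eq_of_subset_of_card_le inter_subset_left (by omega)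
          rw [← h4]
          exact inter_subset_right
        · rintro ⟨-, h⟩
          rw [inter_eq_left.2 h, h2]
      by_cases h4 : (nz i x ∩ T).card = 2
      · rw [if_pos h4, if_pos (h3.1 h4)]
      · rw [if_neg h4, if_neg (fun h => h4 (h3.2 h))]
    · rw [if_pos (nz_one H hi hi2 (mem_N0.1 hx.1).1 hd hx.2), if_neg hd, if_neg hd,
        if_neg (fun h => hd h.1)]
      ring
  -- the removed elements do not count
  have hsub : (RK i K psi C e).filter (fun x => x ∉ dbU P i) ⊆
      (N0 i K C).filter (fun x => x ∉ dbU P i) := by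
    intro x hx
    rw [mem_filter, mem_RK, mem_Rst] at hx
    exact mem_filter.2 ⟨mem_N0.2 ⟨hx.1.1.1, hx.1.2, hx.1.1.2.1⟩, hx.2⟩
  rw [sum_subset hsub]
  · rw [sum_congr rfl hom, sum_sub_distrib, sum_add_distrib]
    unfold Vc mm
    congr 1
    · congr 1
      have h1 := sum_dg (i := i) (K := K) (C := C) (fun _ => 1) T
      simp only [one_mul, sum_const, smul_eq_mul, mul_one] at h1
      rw [h1]
      have h2 := sum_N0 H hM hC (fun X => ((X ∩ T).card : ℤ))
      rw [← h2]
      refine sum_congr rfl fun x _ => ?_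
      have h3 : T.filter (fun y => y ∈ nz i x) = nz i x ∩ T := by
        ext y
        rw [mem_filter, mem_inter, and_comm]
      rw [h3]
      simp
    · rw [← Finset.sum_filter, filter_filter, sum_const, nsmul_eq_mul, mul_one]
      congr 2
      ext x
      rw [mem_filter, mem_filter]
      constructor
      · rintro ⟨h1, -, h2⟩
        exact ⟨h1, h2⟩
      · rintro ⟨h1, h2⟩
        exact ⟨h1, dbLU h2.1, h2⟩
  · intro x hx hnx
    rw [hom x hx]
    rw [mem_filter] at hx
    obtain ⟨h1, h2⟩ := hR x hx.1 (fun h => hnx (mem_filter.2 ⟨h, hx.2⟩))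
    have hd : x ∈ dbL P i := by
      rcases mem_union.1 h1 with h | h
      · exact h
      · exact absurd h hx.2
    rw [if_pos hd, if_pos hd, if_pos ⟨hd, h2⟩, inter_eq_left.2 h2, (dbL_nz hd).2]
    norm_num

open Classical in
/-- COUNTING with one labelled site `q` and two killed sites `p`, `s` -/
theorem om_pqs (H : Gr P r) (hi : 1 ≤ i) (hi2 : i + 1 ≤ r) (hM : Mat P i K psi)
    (hC : Part (i + 1) C) {p q s : P} (hpq : p ≠ q) (hps : p ≠ s) (hqs : q ≠ s)
    (hq : 1 ≤ e q) (hz : ∀ y, lev y = i → y ≠ q → e y = 0)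
    (hT : AL i e ∪ AU i e = {p, s}) (lq : lev q = i)
    (hR : N0 i K C ⊆ RK i K psi C e) :
    ∑ x ∈ (RK i K psi C e).filter (fun x => x ∉ dbU P i), om i e x =
      Vc i K C + dg i K C p + dg i K C s + 2 * dg i K C q - 2 * mm i K C {p, q}
        - 2 * mm i K C {q, s} - mm i K C {p, s} := by
  have hRe : RK i K psi C e = N0 i K C := by
    apply subset_antisymm _ hR
    intro x hx
    rw [mem_RK, mem_Rst] at hx
    exact mem_N0.2 ⟨hx.1.1, hx.2, hx.1.2.1⟩
  rw [hRe]
  have hom : ∀ x ∈ (N0 i K C).filter (fun x => x ∉ dbU P i), om i e x =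
      (if x ∈ dbL P i then (-3 : ℤ) else -1) +
        (if x ∈ dbL P i then 2 else 1) * ((if p ∈ nz i x then 1 else 0) +
          (if s ∈ nz i x then 1 else 0) + 2 * (if q ∈ nz i x then 1 else 0)) -
        2 * (if x ∈ dbL P i ∧ nz i x ⊆ {p, q} then 1 else 0) -
        2 * (if x ∈ dbL P i ∧ nz i x ⊆ {q, s} then 1 else 0) -
        (if x ∈ dbL P i ∧ nz i x ⊆ {p, s} then 1 else 0) := by
    intro x hx
    rw [mem_filter] at hx
    have hxn := (mem_N0.1 hx.1).1
    have hkq : ∀ y ∈ nz i x, y ∈ kz i e x 1 ↔ y ≠ q := by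
      intro y hy
      rw [mem_kz]
      constructor
      · rintro ⟨-, h⟩ rfl
        omega
      · intro h
        refine ⟨hy, ?_⟩
        rw [hz y (nz_lev H hxn hy) h]
        omega
    have hkz : kz i e x 1 = nz i x ↔ q ∉ nz i x := by
      constructor
      · intro h hq'
        have := (hkq q hq').1 (by rw [h]; exact hq')
        exact this rfl
      · intro h
        rw [kz_eq_iff]
        intro y hy
        have : y ≠ q := by rintro rfl; exact h hy
        exact (mem_kz.1 ((hkq y hy).2 this)).2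
    unfold om
    rw [hT]
    by_cases hd : x ∈ dbL P i
    · obtain ⟨-, h2⟩ := dbL_nz hd
      rw [if_pos hd, if_pos hd]
      obtain ⟨a, b, hab, hnz⟩ := card_eq_two.1 h2
      by_cases hqx : q ∈ nz i x
      · -- labelled
        rw [if_neg (fun h => (hkz.1 h) hqx), h2]
        -- the other site
        obtain ⟨c, hcq, hc⟩ : ∃ c, c ≠ q ∧ nz i x = {q, c} := by
          rw [hnz, mem_insert, mem_singleton] at hqx
          rcases hqx with h | h
          · exact ⟨b, by rw [h]; exact hab.symm, by rw [hnz, h]⟩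
          · exact ⟨a, by rw [h]; exact hab, by rw [hnz, h, pair_comm]⟩
        have hkc : kz i e x 1 = {c} := by
          ext y
          rw [mem_singleton]
          constructor
          · intro h
            have hy := kz_sub h
            have hyq := (hkq y hy).1 h
            rw [hc, mem_insert, mem_singleton] at hy
            rcases hy with h' | h'
            · exact absurd h' hyq
            · exact h'
          · rintro rfl
            exact (hkq y (by rw [hc]; simp)).2 hcq
        rw [hkc, card_singleton]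
        have hp' : p ∈ nz i x ↔ c = p := by
          rw [hc, mem_insert, mem_singleton]
          constructor
          · rintro (h | h)
            · exact absurd h hpq
            · exact h.symm
          · intro h; exact Or.inr h.symm
        have hs' : s ∈ nz i x ↔ c = s := by
          rw [hc, mem_insert, mem_singleton]
          constructor
          · rintro (h | h)
            · exact absurd h hqs.symm
            · exact h.symm
          · intro h; exact Or.inr h.symm
        have m1 : nz i x ⊆ {p, q} ↔ c = p := by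
          rw [hc]
          constructor
          · intro h
            have := h (mem_insert_of_mem (mem_singleton_self c))
            rw [mem_insert, mem_singleton] at this
            rcases this with h' | h'
            · exact h'
            · exact absurd h' hcq
          · rintro rfl
            rw [pair_comm]
        have m2 : nz i x ⊆ {q, s} ↔ c = s := by
          rw [hc]
          constructor
          · intro h
            have := h (mem_insert_of_mem (mem_singleton_self c))
            rw [mem_insert, mem_singleton] at this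
            rcases this with h' | h'
            · exact absurd h' hcq
            · exact h'
          · rintro rfl
            exact subset_rfl
        have m3 : ¬ nz i x ⊆ {p, s} := by
          intro h
          have := h hqx
          rw [mem_insert, mem_singleton] at this
          rcases this with h' | h'
          · exact hpq h'.symm
          · exact hqs h'
        simp only [hp', hs', hd, true_and, m1, m2, m3, hqx, if_true, if_false]
        by_cases c1 : c = p
        · have c2 : ¬ c = s := by rw [c1]; exact hps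
          simp only [c1, if_true]
          rw [if_neg hps]
          norm_num
        · by_cases c2 : c = s
          · simp only [c2, if_true]
            rw [if_neg hps.symm]
            norm_num
          · rw [if_neg c1, if_neg c2]
            norm_num
      · rw [if_pos (hkz.2 hqx), if_neg (by omega)]
        have m1 : ¬ nz i x ⊆ {p, q} := by
          intro h
          have h4 : nz i x ⊆ {p} := by
            intro y hy
            have := h hy
            rw [mem_insert, mem_singleton] at this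
            rw [mem_singleton]
            rcases this with h' | h'
            · exact h'
            · rw [h'] at hy; exact absurd hy hqx
          have := card_le_card h4
          rw [card_singleton] at this
          omega
        have m2 : ¬ nz i x ⊆ {q, s} := by
          intro h
          have h4 : nz i x ⊆ {s} := by
            intro y hy
            have := h hy
            rw [mem_insert, mem_singleton] at this
            rw [mem_singleton]
            rcases this with h' | h'
            · rw [h'] at hy; exact absurd hy hqx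
            · exact h'
          have := card_le_card h4
          rw [card_singleton] at this
          omega
        have hcard : ((nz i x ∩ {p, s}).card : ℤ) =
            (if p ∈ nz i x then 1 else 0) + (if s ∈ nz i x then 1 else 0) := by
          have h4 : nz i x ∩ {p, s} = ({p, s} : Finset P).filter (fun y => y ∈ nz i x) := by
            ext y
            rw [mem_inter, mem_filter, and_comm]
          rw [h4, card_filter, sum_pair hps]
          push_cast
          rfl
        have h3 : (nz i x ∩ {p, s}).card = 2 ↔ nz i x ⊆ {p, s} := by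
          constructor
          · intro h
            have h4 : nz i x ∩ {p, s} = nz i x :=
              eq_of_subset_of_card_le inter_subset_left (by omega)
            rw [← h4]
            exact inter_subset_right
          · intro h
            rw [inter_eq_left.2 h, h2]
        simp only [hd, true_and, m1, m2, hqx, if_false, h3]
        rw [hcard]
        ring
    · have h1 := nz_one H hi hi2 hxn hd hx.2
      obtain ⟨c, hc⟩ := card_eq_one.1 h1
      rw [if_neg hd, if_neg hd]
      simp only [hd, false_and, if_false]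
      by_cases hqx : q ∈ nz i x
      · rw [if_neg (fun h => (hkz.1 h) hqx), h1]
        have hcq : c = q := by
          rw [hc, mem_singleton] at hqx
          exact hqx.symm
        have hk0 : kz i e x 1 = ∅ := by
          rw [eq_empty_iff_forall_notMem]
          intro y hy
          have hy2 := kz_sub hy
          have := (hkq y hy2).1 hy
          rw [hc, mem_singleton] at hy2
          exact this (hy2.trans hcq)
        have hp' : p ∉ nz i x := by
          rw [hc, hcq, mem_singleton]; exact hpq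
        have hs' : s ∉ nz i x := by
          rw [hc, hcq, mem_singleton]; exact hqs.symm
        rw [hk0, card_empty, if_neg hp', if_neg hs', if_pos hqx]
        norm_num
      · rw [if_pos (hkz.2 hqx), if_pos h1, if_neg hqx]
        have hcard : ((nz i x ∩ {p, s}).card : ℤ) =
            (if p ∈ nz i x then 1 else 0) + (if s ∈ nz i x then 1 else 0) := by
          have h4 : nz i x ∩ {p, s} = ({p, s} : Finset P).filter (fun y => y ∈ nz i x) := by
            ext y
            rw [mem_inter, mem_filter, and_comm]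
          rw [h4, card_filter, sum_pair hps]
          push_cast
          rfl
        rw [hcard]
        ring
  rw [sum_congr rfl hom]
  simp only [sum_sub_distrib, sum_add_distrib]
  have hm : ∀ T : Finset P, ∑ x ∈ (N0 i K C).filter (fun x => x ∉ dbU P i),
      (if x ∈ dbL P i ∧ nz i x ⊆ T then (1 : ℤ) else 0) = mm i K C T := by
    intro T
    unfold mm
    rw [← Finset.sum_filter, filter_filter, sum_const, nsmul_eq_mul, mul_one]
    congr 2
    ext x
    rw [mem_filter, mem_filter]
    constructor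
    · rintro ⟨h1, -, h2⟩
      exact ⟨h1, h2⟩
    · rintro ⟨h1, h2⟩
      exact ⟨h1, dbLU h2.1, h2⟩
  have hdg : ∑ x ∈ (N0 i K C).filter (fun x => x ∉ dbU P i),
      (if x ∈ dbL P i then 2 else 1) * ((if p ∈ nz i x then 1 else 0) +
          (if s ∈ nz i x then 1 else 0) + 2 * (if q ∈ nz i x then (1 : ℤ) else 0)) =
      dg i K C p + dg i K C s + 2 * dg i K C q := by
    have h2 := sum_N0 H hM hC (fun X => (if p ∈ X then (1 : ℤ) else 0) +
          (if s ∈ X then 1 else 0) + 2 * (if q ∈ X then (1 : ℤ) else 0))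
    rw [← h2, sum_add_distrib, sum_add_distrib, ← mul_sum]
    unfold dg
    rw [card_filter, card_filter, card_filter]
    push_cast
    rfl
  rw [hdg, ← mul_sum, ← mul_sum, hm, hm, hm]
  unfold Vc
  ring

end Pool.Agent.GaussPoset.Win.W4

end

/-! From `Pool.Agent.W_448kf_h15.KfA` -/

section

/-!
MP_448cb3_co, G2, case B, window `j`: the parts with two unmatched doubles, numbers of matched near
elements (2d-b).  helper15.
-/

namespace Pool.Agent.GaussPoset.Win.W4

set_option linter.unusedSectionVars false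

open Finset
open Pool.Agent.GaussPoset.Win.SO (on)

universe u

variable {P : Type u} [Fintype P] [PartialOrder P] [DecidableEq P] {r i : ℕ}
variable {psi : P → P} {C K : Finset P} {w v : P}

/-- near elements at a site -/
lemma kf_site (H : Gr P r) {x y : P} (hy : lev y = i) :
    (x ∈ near P i ∧ y ∈ nz i x) ↔ (x ∈ dc y ∨ x ∈ uc y) := by
  constructor
  · rintro ⟨h1, h2⟩
    rcases mem_near.1 h1 with h | h
    · rw [nz_low h] at h2
      exact Or.inl (mem_dc.2 (mem_uc.1 h2))
    · rw [nz_upp h] at h2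
      exact Or.inr (mem_uc.2 (mem_dc.1 h2))
  · rintro (h | h)
    · have h1 := lev_cov H (mem_dc.1 h)
      have h2 : lev x = i + 1 := by omega
      exact ⟨mem_near.2 (Or.inl h2), by rw [nz_low h2]; exact mem_uc.2 (mem_dc.1 h)⟩
    · have h1 := lev_cov H (mem_uc.1 h)
      have h2 : lev x + 1 = i := by omega
      exact ⟨mem_near.2 (Or.inr h2), by rw [nz_upp h2]; exact mem_dc.2 (mem_uc.1 h)⟩

section

variable (Q : K5 r i K psi C w v)
include Q

lemma K5.near_C {x y : P} (hy : y ∈ C) (hl : lev y = i) (hx : x ∈ dc y ∨ x ∈ uc y) : x ∈ C := by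
  rcases hx with h | h
  · have h1 := lev_cov Q.H (mem_dc.1 h)
    exact Q.hC.dn hy (by omega) (mem_dc.1 h)
  · exact Q.hC.up hy (mem_uc.1 h)

/-- the number of matched near elements at a site -/
theorem K5.dg_eq {y : P} (hy : y ∈ C) (hl : lev y = i) :
    dg i K C y = ((dc y).card : ℤ) + (uc y).card - (if y ∈ uc w then 1 else 0)
      - (if y ∈ dc v then 1 else 0) := by
  classical
  have hd : Disjoint (dc y) (uc y) := by
    rw [disjoint_left]
    intro x h1 h2
    have := lev_cov Q.H (mem_dc.1 h1)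
    have := lev_cov Q.H (mem_uc.1 h2)
    omega
  have e1 : (N0 i K C).filter (fun x => y ∈ nz i x) = (dc y).erase w ∪ (uc y).erase v := by
    ext x
    rw [mem_filter, mem_N0, mem_union, mem_erase, mem_erase]
    constructor
    · rintro ⟨⟨h1, h2, h3⟩, h4⟩
      rcases (kf_site Q.H hl).1 ⟨h1, h4⟩ with h | h
      · exact Or.inl ⟨fun h5 => h3 (h5 ▸ Q.wK), h⟩
      · exact Or.inr ⟨fun h5 => h3 (h5 ▸ Q.vK), h⟩
    · rintro (⟨h1, h2⟩ | ⟨h1, h2⟩)
      · obtain ⟨h3, h4⟩ := (kf_site Q.H hl).2 (Or.inl h2)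
        have h5 := Q.near_C hy hl (Or.inl h2)
        refine ⟨⟨h3, h5, fun h6 => ?_⟩, h4⟩
        rcases (Q.hK x h5).1 h6 with h | h
        · exact h1 h
        · have := lev_cov Q.H (mem_dc.1 h2)
          have h7 := Q.lv0
          rw [← h] at h7
          omega
      · obtain ⟨h3, h4⟩ := (kf_site Q.H hl).2 (Or.inr h2)
        have h5 := Q.near_C hy hl (Or.inr h2)
        refine ⟨⟨h3, h5, fun h6 => ?_⟩, h4⟩
        rcases (Q.hK x h5).1 h6 with h | h
        · have := lev_cov Q.H (mem_uc.1 h2)
          have h7 := Q.lw0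
          rw [← h] at h7
          omega
        · exact h1 h
  have hd' : Disjoint ((dc y).erase w) ((uc y).erase v) :=
    Disjoint.mono (erase_subset _ _) (erase_subset _ _) hd
  unfold dg
  rw [e1, card_union_of_disjoint hd']
  have e2 : (((dc y).erase w).card : ℤ) = (dc y).card - (if y ∈ uc w then 1 else 0) := by
    by_cases h : w ∈ dc y
    · rw [card_erase_of_mem h, if_pos (mem_uc.2 (mem_dc.1 h))]
      have := card_pos.2 ⟨w, h⟩
      omega
    · rw [erase_eq_of_notMem h, if_neg (fun h' => h (mem_dc.2 (mem_uc.1 h')))]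
      omega
  have e3 : (((uc y).erase v).card : ℤ) = (uc y).card - (if y ∈ dc v then 1 else 0) := by
    by_cases h : v ∈ uc y
    · rw [card_erase_of_mem h, if_pos (mem_dc.2 (mem_uc.1 h))]
      have := card_pos.2 ⟨v, h⟩
      omega
    · rw [erase_eq_of_notMem h, if_neg (fun h' => h (mem_uc.2 (mem_dc.1 h')))]
      omega
  push_cast
  rw [e2, e3]
  ring

/-- the matched lower doubles over a pair -/
theorem K5.mm_pair {a b : P} (ha : a ∈ C) (hl : lev a = i) (hab : a ≠ b) :
    mm i K C {a, b} = (dcv a b : ℤ) - (if uc w = {a, b} then 1 else 0) := by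
  classical
  have e1 : (N0 i K C).filter (fun x => x ∈ dbL P i ∧ nz i x ⊆ {a, b}) =
      (univ.filter (fun y : P => y ⋖ a ∧ y ⋖ b)).erase w := by
    ext x
    rw [mem_filter, mem_N0, mem_erase, mem_filter]
    constructor
    · rintro ⟨⟨h1, h2, h3⟩, h4, h5⟩
      obtain ⟨h6, h7⟩ := mem_dbL.1 h4
      rw [nz_low h6] at h5
      have h8 : uc x = {a, b} := by
        refine eq_of_subset_of_card_le h5 ?_
        rw [card_pair hab, h7]
      refine ⟨fun h9 => h3 (h9 ▸ Q.wK), mem_univ _, ?_, ?_⟩
      · exact mem_uc.1 (by rw [h8]; exact mem_insert_self _ _)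
      · exact mem_uc.1 (by rw [h8]; exact mem_insert_of_mem (mem_singleton_self _))
    · rintro ⟨h1, -, h2, h3⟩
      have h4 := StB_uc_pair Q.H h2 h3 hab
      have h5 := lev_cov Q.H h2
      have h6 : lev x = i + 1 := by omega
      have h7 : x ∈ dbL P i := mem_dbL.2 ⟨h6, by rw [h4, card_pair hab]⟩
      have h8 := Q.near_C ha hl (Or.inl (mem_dc.2 h2))
      refine ⟨⟨mem_near.2 (Or.inl h6), h8, fun h9 => ?_⟩, h7, by rw [nz_low h6, h4]⟩
      rcases (Q.hK x h8).1 h9 with h | h
      · exact h1 h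
      · have h10 := Q.lv0
        rw [← h] at h10
        omega
  have e2 : (if uc w = {a, b} then (1 : ℤ) else 0) =
      if w ∈ univ.filter (fun y : P => y ⋖ a ∧ y ⋖ b) then 1 else 0 := by
    by_cases h : w ∈ univ.filter (fun y : P => y ⋖ a ∧ y ⋖ b)
    · rw [if_pos h]
      rw [mem_filter] at h
      rw [if_pos (StB_uc_pair Q.H h.2.1 h.2.2 hab)]
    · rw [if_neg h, if_neg]
      intro h1
      apply h
      rw [mem_filter]
      refine ⟨mem_univ _, mem_uc.1 ?_, mem_uc.1 ?_⟩
      · rw [h1]; exact mem_insert_self _ _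
      · rw [h1]; exact mem_insert_of_mem (mem_singleton_self _)
  have e3 : mm i K C {a, b} = (((N0 i K C).filter
      (fun x => x ∈ dbL P i ∧ nz i x ⊆ {a, b})).card : ℤ) := rfl
  have e4 : dcv a b = (univ.filter (fun y : P => y ⋖ a ∧ y ⋖ b)).card := rfl
  rw [e3, e1, e2, e4]
  by_cases h : w ∈ univ.filter (fun y : P => y ⋖ a ∧ y ⋖ b)
  · rw [card_erase_of_mem h, if_pos h]
    have := card_pos.2 ⟨w, h⟩
    omega
  · rw [erase_eq_of_notMem h, if_neg h]
    omega

end

/-- the matched lower doubles over four sites -/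
theorem mm_four {a b c d : P} (hab : a ≠ b) (hac : a ≠ c) (had : a ≠ d) (hbc : b ≠ c)
    (hbd : b ≠ d) (hcd : c ≠ d) :
    mm i K C ({a, b} ∪ {c, d}) = mm i K C {a, b} + mm i K C {c, d} + mm i K C {a, c} +
      mm i K C {a, d} + mm i K C {b, c} + mm i K C {b, d} := by
  classical
  obtain ⟨F, hF⟩ : ∃ F : Finset P → Finset P, F = fun T =>
    (N0 i K C).filter (fun x => x ∈ dbL P i ∧ nz i x ⊆ T) := ⟨_, rfl⟩
  have hmm : ∀ T, mm i K C T = ((F T).card : ℤ) := by
    intro T
    rw [hF]
    rfl
  have hmem : ∀ T x, x ∈ F T ↔ x ∈ N0 i K C ∧ x ∈ dbL P i ∧ nz i x ⊆ T := by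
    intro T x
    rw [hF]
    show x ∈ (N0 i K C).filter (fun x => x ∈ dbL P i ∧ nz i x ⊆ T) ↔ _
    rw [mem_filter]
  have hdis : ∀ s t : Finset P, (s ∩ t).card ≤ 1 → Disjoint (F s) (F t) := by
    intro s t hst
    rw [disjoint_left]
    intro x h1 h2
    rw [hmem] at h1 h2
    have h3 : nz i x ⊆ s ∩ t := subset_inter h1.2.2 h2.2.2
    have h4 := card_le_card h3
    have h5 := (dbL_nz h1.2.1).2
    omega
  have e1 : F ({a, b} ∪ {c, d}) = F {a, b} ∪ (F {c, d} ∪ (F {a, c} ∪ (F {a, d} ∪
      (F {b, c} ∪ F {b, d})))) := by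
    ext x
    simp only [mem_union, hmem]
    constructor
    · rintro ⟨h1, h2, h3⟩
      have h4 := (dbL_nz h2).2
      obtain ⟨y, z, hyz, hn⟩ := card_eq_two.1 h4
      rw [hn] at h3 ⊢
      have hy : y ∈ ({a, b} ∪ {c, d} : Finset P) := h3 (mem_insert_self _ _)
      have hz : z ∈ ({a, b} ∪ {c, d} : Finset P) := h3 (mem_insert_of_mem (mem_singleton_self _))
      simp only [mem_union, mem_insert, mem_singleton] at hy hz
      have key : ∀ s t : P, ({s, t} : Finset P) ⊆ {s, t} ∧ ({s, t} : Finset P) ⊆ {t, s} :=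
        fun s t => ⟨Subset.refl _, by rw [pair_comm]⟩
      rcases hy with (rfl | rfl) | (rfl | rfl) <;> rcases hz with (rfl | rfl) | (rfl | rfl) <;>
        first
        | exact absurd rfl hyz
        | (have k1 := (key y z).1
           have k2 := (key y z).2
           tauto)
    · have key : ∀ s t : P, s ∈ ({a, b} ∪ {c, d} : Finset P) → t ∈ ({a, b} ∪ {c, d} : Finset P) →
          ({s, t} : Finset P) ⊆ {a, b} ∪ {c, d} := by
        intro s t hs ht y hy
        rw [mem_insert, mem_singleton] at hy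
        rcases hy with rfl | rfl
        · exact hs
        · exact ht
      have ka : a ∈ ({a, b} ∪ {c, d} : Finset P) := by simp
      have kb : b ∈ ({a, b} ∪ {c, d} : Finset P) := by simp
      have kc : c ∈ ({a, b} ∪ {c, d} : Finset P) := by simp
      have kd : d ∈ ({a, b} ∪ {c, d} : Finset P) := by simp
      rintro (⟨h1, h2, h3⟩ | ⟨h1, h2, h3⟩ | ⟨h1, h2, h3⟩ | ⟨h1, h2, h3⟩ | ⟨h1, h2, h3⟩ |
        ⟨h1, h2, h3⟩)
      · exact ⟨h1, h2, h3.trans (key _ _ ka kb)⟩
      · exact ⟨h1, h2, h3.trans (key _ _ kc kd)⟩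
      · exact ⟨h1, h2, h3.trans (key _ _ ka kc)⟩
      · exact ⟨h1, h2, h3.trans (key _ _ ka kd)⟩
      · exact ⟨h1, h2, h3.trans (key _ _ kb kc)⟩
      · exact ⟨h1, h2, h3.trans (key _ _ kb kd)⟩
  have hc : ∀ p q s t : P, p ≠ s → p ≠ t → (({p, q} : Finset P) ∩ {s, t}).card ≤ 1 := by
    intro p q s t h1 h2
    have : ({p, q} : Finset P) ∩ {s, t} ⊆ {q} := by
      intro y hy
      rw [mem_inter, mem_insert, mem_singleton, mem_insert, mem_singleton] at hy
      rw [mem_singleton]
      rcases hy.1 with rfl | h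
      · rcases hy.2 with h | h
        · exact absurd h h1
        · exact absurd h h2
      · exact h
    calc _ ≤ ({q} : Finset P).card := card_le_card this
      _ = 1 := card_singleton q
  have hc' : ∀ p q s t : P, q ≠ s → q ≠ t → (({p, q} : Finset P) ∩ {s, t}).card ≤ 1 := by
    intro p q s t h1 h2
    rw [pair_comm]
    exact hc q p s t h1 h2
  have d1 : Disjoint (F {a, b}) (F {c, d} ∪ (F {a, c} ∪ (F {a, d} ∪ (F {b, c} ∪ F {b, d})))) := by
    simp only [disjoint_union_right]
    exact ⟨hdis _ _ (hc _ _ _ _ hac had), hdis _ _ (hc' _ _ _ _ hab.symm hbc),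
      hdis _ _ (hc' _ _ _ _ hab.symm hbd), hdis _ _ (hc _ _ _ _ hab hac),
      hdis _ _ (hc _ _ _ _ hab had)⟩
  have d2 : Disjoint (F {c, d}) (F {a, c} ∪ (F {a, d} ∪ (F {b, c} ∪ F {b, d}))) := by
    simp only [disjoint_union_right]
    exact ⟨hdis _ _ (hc' _ _ _ _ had.symm hcd.symm), hdis _ _ (hc _ _ _ _ hac.symm hcd),
      hdis _ _ (hc' _ _ _ _ hbd.symm hcd.symm), hdis _ _ (hc _ _ _ _ hbc.symm hcd)⟩
  have d3 : Disjoint (F {a, c}) (F {a, d} ∪ (F {b, c} ∪ F {b, d})) := by
    simp only [disjoint_union_right]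
    exact ⟨hdis _ _ (hc' _ _ _ _ hac.symm hcd), hdis _ _ (hc _ _ _ _ hab hac),
      hdis _ _ (hc _ _ _ _ hab had)⟩
  have d4 : Disjoint (F {a, d}) (F {b, c} ∪ F {b, d}) := by
    simp only [disjoint_union_right]
    exact ⟨hdis _ _ (hc _ _ _ _ hab hac), hdis _ _ (hc _ _ _ _ hab had)⟩
  have d5 : Disjoint (F {b, c}) (F {b, d}) := hdis _ _ (hc' _ _ _ _ hbc.symm hcd)
  simp only [hmm]
  rw [e1, card_union_of_disjoint d1, card_union_of_disjoint d2, card_union_of_disjoint d3,
    card_union_of_disjoint d4, card_union_of_disjoint d5]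
  push_cast
  ring

end Pool.Agent.GaussPoset.Win.W4

end
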