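import Mathlib
import Pool.Agent.W_448zz_h61.Ns
import Pool.Agent.W_448zz_h61.M112
import Pool.Agent.W_448zz_h61.M113
import Pool.Agent.W_448zz_h61.M152

/-! From `Pool.Agent.W_448so_h64.SoW` -/

section

/-!
SECOND ORDER THEOREM (MP_448cb3_co, proofs row 476): the profiles of a part.
-/

namespace Pool.Agent.GaussPoset.Win.SO

set_option linter.unusedSectionVars false

open Finset
open Pool.Agent.GaussPoset.Win.I2 (lS uS mem_lS mem_uS Prof)

universe u

variable {P : Type u} [Fintype P] [PartialOrder P] [DecidableEq P] {r i : ℕ} {psi : P → P}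
  {e : P → ℕ} {C : Finset P}

/-- labels one on a closed set: few deficits -/
lemma on_cheap (H : Gr P r) (hi : 1 ≤ i) (hi2 : i + 1 ≤ r) {s : Finset P} (hs : Cls i s) {k : ℕ}
    (h : (BL i s).card + (BU i s).card ≤ (nL i s).card + (nU i s).card + k) :
    Cheap k i (on s) := by
  obtain ⟨-, -, -, -, h5, h6, h7, h8⟩ := on_data H hi hi2 hs
  right; right; right
  rw [h5, h6, h7, h8]
  omega

/-- the union of two closed sets is closed -/
lemma Cls.union {s s' : Finset P} (h : Cls i s) (h' : Cls i s') : Cls i (s ∪ s') := by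
  constructor
  · intro x hx
    rcases mem_union.1 hx with hx | hx
    · exact h.ns x hx
    · exact h'.ns x hx
  · intro x hx hl y hy
    rcases mem_union.1 hx with hx | hx
    · exact mem_union_left _ (h.lo x hx hl y hy)
    · exact mem_union_right _ (h'.lo x hx hl y hy)
  · intro x hx hl y hy
    rcases mem_union.1 hx with hx | hx
    · exact mem_union_left _ (h.up x hx hl y hy)
    · exact mem_union_right _ (h'.up x hx hl y hy)

/-- the numbers of two cones with disjoint sites -/
lemma pair_num (H : Gr P r) (hir : i ≤ r) {z z' : P} {v v' : ℤ} {k k' : ℕ}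
    (N : NumG i C z v k) (N' : NumG i C z' v' k') (hd : Disjoint (sit i z) (sit i z')) :
    (BL i (con i z ∪ con i z')).card + (BU i (con i z ∪ con i z')).card ≤
      (nL i (con i z ∪ con i z')).card + (nU i (con i z ∪ con i z')).card + 2 := by
  have hcd := con_disj H hir N.ns N'.ns hd
  have d3 : Disjoint (nL i (con i z)) (nL i (con i z')) := disjoint_of_subset_left
    (filter_subset _ _) (disjoint_of_subset_right (filter_subset _ _) hcd)
  have d4 : Disjoint (nU i (con i z)) (nU i (con i z')) := disjoint_of_subset_left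
    (filter_subset _ _) (disjoint_of_subset_right (filter_subset _ _) hcd)
  have n1 := N.num
  have n2 := N'.num
  rw [BL_union, BU_union, nL_union, nU_union, card_union_of_disjoint d3,
    card_union_of_disjoint d4]
  have h1 := card_union_le (BL i (con i z)) (BL i (con i z'))
  have h2 := card_union_le (BU i (con i z)) (BU i (con i z'))
  omega

/-- a pair: at most two deficits -/
lemma pair_cheap (H : Gr P r) (hi : 1 ≤ i) (hi2 : i + 1 ≤ r) {z z' : P} {v v' : ℤ} {k k' : ℕ}
    (N : NumG i C z v k) (N' : NumG i C z' v' k') (hd : Disjoint (sit i z) (sit i z')) :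
    Cheap 2 i (on (con i z ∪ con i z')) :=
  on_cheap H hi hi2 ((con_cls H N.ns).union (con_cls H N'.ns))
    (pair_num H (by omega) N N' hd)

/-- a far element does not change the numbers -/
lemma insert_far {z : P} {s : Finset P} (h1 : lev z ≠ i + 1) (h2 : lev z + 1 ≠ i)
    (H : Gr P r) : BL i (insert z s) = BL i s ∧ BU i (insert z s) = BU i s ∧
      nL i (insert z s) = nL i s ∧ nU i (insert z s) = nU i s := by
  refine ⟨?_, ?_, ?_, ?_⟩
  · ext v
    rw [mem_BL, mem_BL]
    constructor
    · rintro ⟨h, x, hx, hv⟩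
      refine ⟨h, x, ?_, hv⟩
      rcases mem_insert.1 hx with rfl | hx
      · have := lev_cov H hv
        omega
      · exact hx
    · rintro ⟨h, x, hx, hv⟩
      exact ⟨h, x, mem_insert_of_mem hx, hv⟩
  · ext v
    rw [mem_BU, mem_BU]
    constructor
    · rintro ⟨h, x, hx, hv⟩
      refine ⟨h, x, ?_, hv⟩
      rcases mem_insert.1 hx with rfl | hx
      · have := lev_cov H hv
        omega
      · exact hx
    · rintro ⟨h, x, hx, hv⟩
      exact ⟨h, x, mem_insert_of_mem hx, hv⟩
  · ext v
    rw [mem_nL, mem_nL]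
    constructor
    · rintro ⟨h, h'⟩
      refine ⟨?_, h'⟩
      rcases mem_insert.1 h with rfl | h
      · omega
      · exact h
    · rintro ⟨h, h'⟩
      exact ⟨mem_insert_of_mem h, h'⟩
  · ext v
    rw [mem_nU, mem_nU]
    constructor
    · rintro ⟨h, h'⟩
      refine ⟨?_, h'⟩
      rcases mem_insert.1 h with rfl | h
      · omega
      · exact h
    · rintro ⟨h, h'⟩
      exact ⟨mem_insert_of_mem h, h'⟩

/-- the configuration N5: at most two deficits -/
lemma N5_cheap (H : Gr P r) (hi : 1 ≤ i) (hi2 : i + 1 ≤ r) (hC : Part (i + 1) C)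
    {z : P} (hz : z ∈ N5f i C) : Cheap 2 i (Psi i C {z}) := by
  have hps : Psi i C {z} = on (con i z) := by
    rw [Psi_on, singleton_biUnion]
    intro a ha
    rw [mem_singleton] at ha
    subst ha
    exact N5f_N1f H hz
  have hzC := (mem_N5f.1 hz).1
  rw [hps]
  rcases N5f_lev H hz with ⟨k, p, w, h0, h2, h3, h4⟩ | ⟨k, p, w, h0, h2, h3, h4⟩
  · have hp : z ⋖ p := by rw [← mem_uc, h3]; simp
    have hpC : p ∈ C := part_up hC hzC hp.le
    have N := num_PD H h0 hpC
    have N' := (num_Chs H (Z_Chs (Or.inl h2))).g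
    have l1 := (lev_PD h0).1
    have l2 := (mem_ZL.1 h2).2.1
    have hcon : con i z = insert z (con i p ∪ con i w) := by
      rw [con_rec_low H (by omega), h3, biUnion_insert, singleton_biUnion]
    have hd : Disjoint (sit i p) (sit i w) := by
      rw [sit_low H (by omega), sit_low H (by omega)]
      exact h4
    obtain ⟨g1, g2, g3, g4⟩ := insert_far (i := i) (z := z) (s := con i p ∪ con i w)
      (by omega) (by omega) H
    apply on_cheap H hi hi2 (con_cls H (by omega))
    rw [hcon, g1, g2, g3, g4]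
    exact pair_num H (by omega) N N' hd
  · have hp : p ⋖ z := by rw [← mem_dc, h3]; simp
    have hpC : p ∈ C := hC.dn hzC (by omega) hp
    have N := num_PU H h0 hpC
    have N' := (num_Chs H (Z_Chs (Or.inr h2))).g
    have l1 := (lev_PU h0).1
    have l2 := (mem_ZU.1 h2).2.1
    have hcon : con i z = insert z (con i p ∪ con i w) := by
      rw [con_rec_upp H (by omega), h3, biUnion_insert, singleton_biUnion]
    have hd : Disjoint (sit i p) (sit i w) := by
      rw [sit_upp H (by omega), sit_upp H (by omega)]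
      exact h4
    obtain ⟨g1, g2, g3, g4⟩ := insert_far (i := i) (z := z) (s := con i p ∪ con i w)
      (by omega) (by omega) H
    apply on_cheap H hi hi2 (con_cls H (by omega))
    rw [hcon, g1, g2, g3, g4]
    exact pair_num H (by omega) N N' hd

/-- the terms of the list of energy six -/
theorem LO6_dvd (Q : PSO r i psi C) (hs : Spt C e)
    (h : LO6 uc dc (tL (P := P) i) (tU i) (lS P i) (uS P i) e) :
    dd ^ ((st i C).card - 2) ∣ tC i C e := by
  have H := Q.H
  have hir : i ≤ r := by have := Q.hi2; omega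
  obtain ⟨T, hT, rfl⟩ := LO6_index Q hs h
  rcases mem_Ix.1 hT with hT | ⟨z, hz | hz, rfl⟩
  · obtain ⟨h1, h2, h3⟩ := mem_PR.1 hT
    obtain ⟨z, z', hne, rfl⟩ := card_eq_two.1 h2
    have hz := h1 (show z ∈ ({z, z'} : Finset P) by simp)
    have hz' := h1 (show z' ∈ ({z, z'} : Finset P) by simp)
    have hd := h3 z (by simp) z' (by simp) hne
    refine cheap_dvd H Q.hC hs ?_
    rw [(pr_of H hir hz hz' hd).2]
    exact pair_cheap H Q.hi Q.hi2 (num_Chs H hz).g (num_Chs H hz').g hd
  · have hzC := (mem_N1f.1 hz).1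
    rcases N1f_lev H hz with ⟨k, w, hw, hw2⟩ | ⟨k, w, hw, hw2⟩
    · obtain ⟨x, x', s, T⟩ := td_of_ZL Q hw
      obtain ⟨-, g2⟩ := psi_N1 H Q.hC T hw2 hzC
      exact (n1_coeff H Q.hi Q.hi2 Q.hC hs
        ⟨z, w, x, x', s, T, mem_lS.2 (by omega), hw2, g2⟩).2.2.2.2.1
    · obtain ⟨x, x', s, T⟩ := td_of_ZU Q hw
      obtain ⟨-, g2⟩ := psi_N1U H Q.hC T hw2 hzC
      exact (n1U_coeff H Q.hi Q.hi2 Q.hC hs
        ⟨z, w, x, x', s, T, mem_uS.2 (by omega), hw2, g2⟩).2.2.2.2.1
  · exact cheap_dvd H Q.hC hs (N5_cheap H Q.hi Q.hi2 Q.hC hz)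

/-- the terms of the remaining class of energy five -/
theorem D5_dvd (Q : PS5 r i psi C) (hs : Spt C e) (hE : ∑ x, e x ≤ 5) (h : D5 i psi e) :
    dd ^ ((st i C).card - 2) ∣ tC i C e := by
  have H := Q.H
  rcases h.cases Q hs hE with ⟨-, h | h⟩ | h
  · obtain ⟨w, w', x, x', s, T, T', hne, he⟩ := h
    rcases he with he | he
    · exact (clo_coeff H Q.hi Q.hi2 Q.hC hs T T' hne he).2.2.2.2.1
    · exact (clo_coeff' H Q.hi Q.hi2 Q.hC hs T T' hne he).2.2.2.2.1
  · obtain ⟨p, y, p', u, s, T, T', hys, he⟩ := h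
    exact (flp_coeff H Q.hi Q.hi2 Q.hC hs T T' hys he).2.2.2.2.1
  · obtain ⟨q, hq, rfl⟩ := LO5_index Q.toPSO hs h.2.2.2.2
    obtain ⟨h1, h2, h3⟩ := mem_I5.1 hq
    exact cheap_dvd H Q.hC hs
      (pair_cheap H Q.hi Q.hi2 (num_Chs H (Z_Chs h1)).g (num_PN H h2) h3)

theorem PS5.dvd5 (Q : PS5 r i psi C) : dd ^ ((st i C).card - 2) ∣ ZC i C 5 := by
  refine Q.dvd_five fun e he h => ?_
  rw [mem_piA] at he
  exact D5_dvd Q he.2 he.1.le h

theorem PS6.dvd6 (Q : PS6 r i psi C) : dd ^ ((st i C).card - 2) ∣ ZC i C 6 := by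
  refine Q.dvd_six fun e he h => ?_
  rw [mem_piA] at he
  exact LO6_dvd Q.toPSO he.2 h

lemma dvd_up {b k : ℕ} {f : A} (h : dd ^ (b - k) ∣ f) : dd ^ b ∣ dd ^ k * f := by
  refine (pow_dvd_pow dd (show b ≤ k + (b - k) by omega)).trans ?_
  rw [pow_add]
  exact mul_dvd_mul_left _ h

lemma card_PP (Q : PT r i psi C) : (C.filter (· ∈ PD P i)).card =
    (C.filter (· ∈ PU P i)).card := by
  have h1 : (C.filter (· ∈ PD P i)).card ≤ 1 := by
    rw [card_le_one]
    intro a ha b hb
    rw [mem_filter] at ha hb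
    exact Q.pd a ha.1 b hb.1 ha.2 hb.2
  have h2 : (C.filter (· ∈ PU P i)).card ≤ 1 := by
    rw [card_le_one]
    intro a ha b hb
    rw [mem_filter] at ha hb
    exact Q.pu a ha.1 b hb.1 ha.2 hb.2
  have h3 : (C.filter (· ∈ PD P i)).Nonempty ↔ (C.filter (· ∈ PU P i)).Nonempty := by
    constructor
    · rintro ⟨p, hp⟩
      rw [mem_filter] at hp
      obtain ⟨p', h4, h5⟩ := Q.both.1 ⟨p, hp⟩
      exact ⟨p', mem_filter.2 ⟨h4, h5⟩⟩
    · rintro ⟨p, hp⟩
      rw [mem_filter] at hp
      obtain ⟨p', h4, h5⟩ := Q.both.2 ⟨p, hp⟩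
      exact ⟨p', mem_filter.2 ⟨h4, h5⟩⟩
  rw [← card_pos, ← card_pos] at h3
  omega

/-- THE PROFILE at energy five -/
theorem PT.prof5 (Q : PT r i psi C) : Prof 3 5 (st i C).card (ZS i C) where
  lo := by
    intro n hn
    rw [coeff_ZS]
    rcases Nat.eq_zero_or_pos n with rfl | h
    · rw [ZC_zero Q.H (by have := Q.hi2; omega)]
    · exact so_lo Q.toPSO (card_PP Q) h (by omega)
  mid := by
    intro n hn
    rw [coeff_ZS]
    have := dvd_up (k := 1) (Q.toPS5.le_four (n := n) (by omega))
    rwa [pow_one] at this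
  top := by
    rw [coeff_ZS]
    exact dvd_up Q.toPS5.dvd5

/-- the top condition at energy six -/
theorem PS6.top6 (Q : PS6 r i psi C) :
    dd ^ (st i C).card ∣ dd ^ 2 * PowerSeries.coeff 6 (ZS i C) := by
  rw [coeff_ZS]
  exact dvd_up Q.dvd6

/-- THE SECOND ORDER IDENTITY OF A PART, unconditional form -/
theorem PS6.six' (Q : PS6 r i psi C) (hb : 1 ≤ (st i C).card) :
    (I2.al 3 (st i C).card (ZS i C)) ^ 2 - 2 * I2.be 6 (st i C).card (ZS i C) =
      QQ i C + 2 * (N1f i C).card + 2 * (N5f i C).card := by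
  classical
  refine Q.six hb ?_
  have h := sum_chg (S := C) Q.H (i := i) (fun _ => True)
  simp only [filter_true] at h
  rw [h, so_al3 Q]

end Pool.Agent.GaussPoset.Win.SO

end

/-! From `Pool.Agent.W_448w4_h10.KR` -/

section

/-!
MP_448cb3_co, G2, case B, window `j`: data and values of the cores of energy three with one deficit.  helper10.
-/

namespace Pool.Agent.GaussPoset.Win.W4

set_option linter.unusedSectionVars false

open Finset
open Pool.Agent.GaussPoset.Win.SO (Sde Pen TD On kS tL tU LowD UppD val_gen sde_low sde_up)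
open Pool.Agent.GaussPoset.Win.I2 (kd gu kl kn kr so cc fr KK KD lS uS mem_lS mem_uS kd_dc kd_uc gu_uc
  gu_dc)

universe u

section Abstract

variable {P : Type u} [Fintype P] [DecidableEq P]
variable {c c' : P → Finset P} {t t' : P → ℕ} {V Sd Sd' : Finset P} {e : P → ℕ}

/-- the data of one side -/
structure Dt (c c' : P → Finset P) (V Sd : Finset P) (e : P → ℕ) (A F D : Finset P) : Prop where
  kl : ∀ z ∈ Sd, (kd c' e z ↔ z ∈ A)
  si : ∀ z ∈ V, (kd c' e z ↔ z ∈ D)
  gu : ∀ z ∈ Sd, (gu c e z ↔ z ∉ A ∧ z ∉ F)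
  sA : ∀ z ∈ A, z ∈ Sd
  sF : ∀ z ∈ F, z ∈ Sd ∧ z ∉ A
  sD : ∀ z ∈ D, z ∈ V

/-- the data of type Q3 -/
lemma Q3_dat (S : Sde c c' t V Sd) (dis : Disjoint Sd V) {p y g : P} (h : Pen c t Sd p y)
    (hg : g ∉ Sd ∨ g = p ∨ g = y ∨ (2 ≤ t g ∧ c g ⊆ {p, y}))
    (he : ∀ x, e x = (if x ∈ ({p, y} : Finset P) then 1 else 0) + if x = g then 1 else 0) :
    Dt c c' V Sd e (if g = p then {y} else ∅) (if g ∈ c y then ∅ else if g = p then {p} else {y})
      ((c y).erase g) := by
  obtain ⟨hp, htp, hcp, hcy⟩ := h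
  have hyp : y ∈ c p := by rw [hcp]; exact mem_singleton_self y
  obtain ⟨hyS, hty⟩ := far_cov S hp (by omega) hyp
  have hty1 : t y = 1 := by omega
  have npy : p ≠ y := by rintro rfl; omega
  have hcyV : ∀ a ∈ c y, a ∈ V := fun a ha => near_site S hyS hty1 ha
  have hSV : ∀ a, a ∈ Sd → a ∉ V := fun a ha hb => disjoint_left.1 dis ha hb
  have ep : e p = 1 + if p = g then 1 else 0 := by rw [he p, if_pos (by simp)]
  have ey : e y = 1 + if y = g then 1 else 0 := by rw [he y, if_pos (by simp)]
  have eo : ∀ x, x ≠ p → x ≠ y → e x = if x = g then 1 else 0 := by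
    intro x h1 h2
    rw [he x, if_neg, zero_add]
    rw [mem_insert, mem_singleton, not_or]
    exact ⟨h1, h2⟩
  -- killers
  have key : ∀ v, v ∈ Sd ∨ v ∈ V → (kd c' e v ↔
      (v = y ∧ g = p) ∨ (v ∈ c y ∧ v ≠ g)) := by
    intro v hv
    constructor
    · rintro ⟨y', hy', hlt⟩
      have hvy' : v ∈ c y' := (S.dual y' v).2 hy'
      have hy'S : y' ∈ Sd := S.cout v hv y' hy'
      by_cases h1 : y' = p
      · left
        rw [h1, hcp, mem_singleton] at hvy'
        refine ⟨hvy', ?_⟩
        by_contra hgp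
        rw [hvy', h1, ep, ey, if_neg (Ne.symm hgp)] at hlt
        omega
      by_cases h2 : y' = y
      · right
        rw [h2] at hvy' hlt
        refine ⟨hvy', ?_⟩
        rintro rfl
        have hvV := hcyV v hvy'
        have n1 : v ≠ p := by rintro rfl; exact hSV _ hp hvV
        have n2 : v ≠ y := by rintro rfl; exact hSV _ hyS hvV
        rw [eo v n1 n2, if_pos rfl, ey, if_neg (Ne.symm n2)] at hlt
        omega
      exfalso
      rw [eo y' h1 h2] at hlt
      split_ifs at hlt with h3
      · rcases hg with h4 | h4 | h4 | ⟨h4, h5⟩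
        · exact h4 (h3 ▸ hy'S)
        · exact h1 (h3.trans h4)
        · exact h2 (h3.trans h4)
        · rw [h3] at hvy'
          have := h5 hvy'
          rw [mem_insert, mem_singleton] at this
          rcases this with h6 | h6
          · rw [h6, ep] at hlt; omega
          · rw [h6, ey] at hlt; omega
      · omega
    · rintro (⟨h1, h2⟩ | ⟨h1, h2⟩)
      · refine ⟨p, (S.dual p v).1 (by rw [h1]; exact hyp), ?_⟩
        rw [h1, ep, ey, if_pos h2.symm, if_neg]
        · omega
        · intro h3
          exact npy (h2.symm.trans h3.symm)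
      · refine ⟨y, (S.dual y v).1 h1, ?_⟩
        have hvV := hcyV v h1
        have n1 : v ≠ p := by rintro rfl; exact hSV _ hp hvV
        have n2 : v ≠ y := by rintro rfl; exact hSV _ hyS hvV
        rw [eo v n1 n2, if_neg h2, ey]
        omega
  refine ⟨?_, ?_, ?_, ?_, ?_, ?_⟩
  · intro v hv
    rw [key v (Or.inl hv)]
    have h3 : v ∉ c y := fun h => hSV v hv (hcyV v h)
    split_ifs with h1
    · rw [mem_singleton]
      constructor
      · rintro (⟨h2, -⟩ | ⟨h2, -⟩)
        · exact h2
        · exact absurd h2 h3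
      · intro h2
        exact Or.inl ⟨h2, h1⟩
    · constructor
      · rintro (⟨-, h2⟩ | ⟨h2, -⟩)
        · exact absurd h2 h1
        · exact absurd h2 h3
      · intro h2
        exact absurd h2 (notMem_empty v)
  · intro v hv
    rw [key v (Or.inr hv), mem_erase]
    constructor
    · rintro (⟨h2, -⟩ | ⟨h2, h3⟩)
      · rw [h2] at hv; exact absurd hv (hSV y hyS)
      · exact ⟨h3, h2⟩
    · rintro ⟨h2, h3⟩
      exact Or.inr ⟨h3, h2⟩
  · intro v hv
    by_cases h1 : v = p
    · -- `p`
      have hgp : I2.gu c e v ↔ g ≠ p := by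
        constructor
        · rintro ⟨a, ha, hle⟩ hg'
          rw [h1, hcp, mem_singleton] at ha
          rw [ha, h1, ep, ey, if_pos hg'.symm, if_neg] at hle
          · omega
          · intro h3
            exact npy (hg'.symm.trans h3.symm)
        · intro hg'
          refine ⟨y, by rw [h1]; exact hyp, ?_⟩
          rw [h1, ep, ey, if_neg (Ne.symm hg')]
          omega
      rw [hgp, h1]
      constructor
      · intro h2
        rw [if_neg h2]
        refine ⟨notMem_empty p, ?_⟩
        split_ifs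
        · exact notMem_empty p
        · rw [mem_singleton]; exact npy
      · rintro ⟨-, h2⟩ h3
        have h4 : g ∉ c y := by
          rw [h3]
          intro h
          exact hSV p hp (hcyV p h)
        rw [if_neg h4, if_pos h3, mem_singleton] at h2
        exact h2 rfl
    by_cases h2 : v = y
    · have hgy : I2.gu c e v ↔ g ∈ c y := by
        constructor
        · rintro ⟨a, ha, hle⟩
          rw [h2] at ha
          have haV := hcyV a ha
          have n1 : a ≠ p := by rintro rfl; exact hSV _ hp haV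
          have n2 : a ≠ y := by rintro rfl; exact hSV _ hyS haV
          rw [eo a n1 n2, h2, ey] at hle
          by_cases h3 : a = g
          · rw [← h3]; exact ha
          · rw [if_neg h3] at hle
            omega
        · intro hg'
          refine ⟨g, by rw [h2]; exact hg', ?_⟩
          have haV := hcyV g hg'
          have n1 : g ≠ p := by rintro rfl; exact hSV _ hp haV
          have n2 : g ≠ y := by rintro rfl; exact hSV _ hyS haV
          rw [eo g n1 n2, if_pos rfl, h2, ey, if_neg (Ne.symm n2)]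
      rw [hgy, h2]
      constructor
      · intro h3
        have h4 : g ≠ p := by rintro rfl; exact hSV _ hp (hcyV _ h3)
        rw [if_neg h4, if_pos h3]
        exact ⟨notMem_empty y, notMem_empty y⟩
      · rintro ⟨h3, h4⟩
        by_contra h5
        by_cases h6 : g = p
        · rw [if_pos h6, mem_singleton] at h3
          exact h3 rfl
        · rw [if_neg h5, if_neg h6, mem_singleton] at h4
          exact h4 rfl
    · constructor
      · intro _
        constructor
        · split_ifs
          · rw [mem_singleton]; exact h2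
          · exact notMem_empty v
        · split_ifs
          · exact notMem_empty v
          · rw [mem_singleton]; exact h1
          · rw [mem_singleton]; exact h2
      · intro _
        by_cases h3 : v = g
        · rcases hg with h4 | h4 | h4 | ⟨h4, h5⟩
          · exact absurd (h3 ▸ hv) h4
          · exact absurd (h3.trans h4) h1
          · exact absurd (h3.trans h4) h2
          · obtain ⟨a, ha⟩ := S.ne v hv
            refine ⟨a, ha, ?_⟩
            rw [eo v h1 h2, if_pos h3]
            rw [h3] at ha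
            have := h5 ha
            rw [mem_insert, mem_singleton] at this
            rcases this with h6 | h6
            · rw [h6, ep]; omega
            · rw [h6, ey]; omega
        · obtain ⟨a, ha⟩ := S.ne v hv
          refine ⟨a, ha, ?_⟩
          rw [eo v h1 h2, if_neg h3]
          exact Nat.zero_le _
  · intro v hv
    split_ifs at hv with h1
    · rw [mem_singleton] at hv
      rw [hv]; exact hyS
    · exact absurd hv (notMem_empty v)
  · intro v hv
    split_ifs at hv with h1 h2
    · exact absurd hv (notMem_empty v)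
    · rw [mem_singleton] at hv
      rw [hv, if_pos h2, mem_singleton]
      exact ⟨hp, npy⟩
    · rw [mem_singleton] at hv
      rw [hv, if_neg h2]
      exact ⟨hyS, notMem_empty y⟩
  · intro v hv
    exact hcyV v (mem_of_mem_erase hv)

end Abstract

variable {P : Type u} [Fintype P] [PartialOrder P] [DecidableEq P] {r i : ℕ}
variable {e f : P → ℕ} {psi : P → P} {C K A F D : Finset P} {w v : P}

lemma Dt.low (h : Dt uc dc (lv P i) (lS P i) e A F D) : LowD i e A F D where
  kl := fun z hz => by rw [← kd_dc]; exact h.kl z (mem_lS.2 hz)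
  si := fun z hz => by rw [← kd_dc]; exact h.si z (mem_lv.2 hz)
  gu := fun z hz => by rw [← gu_uc]; exact h.gu z (mem_lS.2 hz)
  lk := fun z hz => mem_lS.1 (h.sA z hz)
  lf := fun z hz => ⟨mem_lS.1 (h.sF z hz).1, (h.sF z hz).2⟩
  lb := fun z hz => mem_lv.1 (h.sD z hz)

lemma Dt.upp (h : Dt dc uc (lv P i) (uS P i) e A F D) : UppD i e A F D where
  kl := fun z hz => by rw [← kd_uc]; exact h.kl z (mem_uS.2 hz)
  si := fun z hz => by rw [← kd_uc]; exact h.si z (mem_lv.2 hz)
  gd := fun z hz => by rw [← gu_dc]; exact h.gu z (mem_uS.2 hz)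
  lk := fun z hz => mem_uS.1 (h.sA z hz)
  lf := fun z hz => ⟨mem_uS.1 (h.sF z hz).1, (h.sF z hz).2⟩
  lb := fun z hz => mem_lv.1 (h.sD z hz)

lemma dis_lS (i : ℕ) : Disjoint (lS P i) (lv P i) := by
  rw [disjoint_left]
  intro x hx hx'
  rw [mem_lS] at hx
  rw [mem_lv] at hx'
  omega

lemma dis_uS (i : ℕ) : Disjoint (uS P i) (lv P i) := by
  rw [disjoint_left]
  intro x hx hx'
  rw [mem_uS] at hx
  rw [mem_lv] at hx'
  omega

/-- the sign of a configuration of type Q3 -/
noncomputable def ep3 (T : Finset P) (p g : P) : ℤ := if g ∈ T ∨ g = p then -1 else 1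

/-- the size of the data -/
lemma dat_card {p y g : P} {T : Finset P} (hT : T.card = 2) (hgp : g = p → g ∉ T) :
    (T.erase g).card = (if g ∈ T then (∅ : Finset P) else if g = p then {p} else {y}).card + 1 ∧
    ((-1 : ℤ)) ^ ((if g = p then ({y} : Finset P) else ∅).card + (T.erase g).card) = ep3 T p g := by
  unfold ep3
  by_cases h1 : g ∈ T
  · have h2 : g ≠ p := fun h => hgp h h1
    rw [if_pos h1, if_neg h2, if_pos (Or.inl h1), card_erase_of_mem h1, hT, card_empty]
    norm_num
  · rw [if_neg h1, erase_eq_of_notMem h1, hT]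
    by_cases h2 : g = p
    · rw [if_pos h2, if_pos h2, if_pos (Or.inr h2), card_singleton, card_singleton]
      norm_num
    · rw [if_neg h2, if_neg h2, if_neg, card_empty, card_singleton]
      · norm_num
      · rintro (h | h)
        · exact h1 h
        · exact h2 h

lemma dat_card' {p y g : P} {T : Finset P} (hT : T.card = 2) (hgp : g = p → g ∉ T) :
    ((-1 : ℤ)) ^ ((if g = p then ({y} : Finset P) else ∅).card +
      (if g ∈ T then (∅ : Finset P) else if g = p then {p} else {y}).card) = - ep3 T p g := by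
  unfold ep3
  by_cases h1 : g ∈ T
  · have h2 : g ≠ p := fun h => hgp h h1
    rw [if_pos h1, if_neg h2, if_pos (Or.inl h1), card_empty]
    norm_num
  · rw [if_neg h1]
    by_cases h2 : g = p
    · rw [if_pos h2, if_pos h2, if_pos (Or.inr h2), card_singleton, card_singleton]
      norm_num
    · rw [if_neg h2, if_neg h2, if_neg, card_empty, card_singleton]
      · norm_num
      · rintro (h | h)
        · exact h1 h
        · exact h2 h

/-- VALUE, type Q3 below the window -/
theorem Q3_low (H : Gr P r) (hir : i ≤ r) (hC : Part (i + 1) C) (hs : Spt C e) {p y g : P}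
    (h : Pen uc (tL (P := P) i) (lS P i) p y)
    (hg : g ∉ lS P i ∨ g = p ∨ g = y ∨ (2 ≤ tL (P := P) i g ∧ uc g ⊆ {p, y}))
    (hgU : g ∉ uS P i)
    (he : ∀ x, e x = (if x ∈ ({p, y} : Finset P) then 1 else 0) + if x = g then 1 else 0) :
    AdmL i e ∧ AdmU i e ∧ Disjoint (AL i e) (AU i e) ∧ AL i e ∪ AU i e = (uc y).erase g ∧
      od (st i C).card 1 (tC i C e) ∧ lc (st i C).card 1 (tC i C e) = ep3 (uc y) p g := by
  have D := (Q3_dat (sde_low H i) (dis_lS i) h hg he).low
  obtain ⟨hp, htp, hcp, hcy⟩ := h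
  rw [mem_lS] at hp
  have lp : lev p = i + 2 := by unfold tL at htp; omega
  have ly : lev y = i + 1 := by
    have := lev_uc H (x := p) (v := y) (by rw [hcp]; simp)
    omega
  have D' : UppD i e (∅ : Finset P) ∅ ∅ := SO.upp_none H hir fun z hz => by
    rw [he z, if_neg, if_neg]
    · rintro rfl
      exact hgU (mem_uS.2 hz)
    · rw [mem_insert, mem_singleton]
      rintro (rfl | rfl) <;> omega
  have hgp : g = p → g ∉ uc y := by
    rintro rfl h
    have := lev_uc H h
    omega
  obtain ⟨c1, c2⟩ := dat_card (y := y) hcy hgp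
  obtain ⟨g4, g5⟩ := val_gen H hC hs D D' (disjoint_empty_right _) (k := 1) (by
    rw [card_empty, add_zero, add_zero]; exact c1)
  refine ⟨D.adm, D'.adm, ?_, ?_, SO.dvd_up g4, ?_⟩
  · rw [D'.AU_eq]; exact disjoint_empty_right _
  · rw [D.AL_eq, D'.AU_eq, union_empty]
  · unfold lc
    rw [g5, card_empty, add_zero, add_zero]
    exact c2

/-- VALUE, type Q3 above the window -/
theorem Q3_upp (H : Gr P r) (hir : i ≤ r) (hC : Part (i + 1) C) (hs : Spt C e) {p y g : P}
    (h : Pen dc (tU (P := P) i) (uS P i) p y)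
    (hg : g ∉ uS P i ∨ g = p ∨ g = y ∨ (2 ≤ tU (P := P) i g ∧ dc g ⊆ {p, y}))
    (hgU : g ∉ lS P i)
    (he : ∀ x, e x = (if x ∈ ({p, y} : Finset P) then 1 else 0) + if x = g then 1 else 0) :
    AdmL i e ∧ AdmU i e ∧ Disjoint (AL i e) (AU i e) ∧ AL i e ∪ AU i e = (dc y).erase g ∧
      od (st i C).card 1 (tC i C e) ∧ lc (st i C).card 1 (tC i C e) = - ep3 (dc y) p g := by
  have D' := (Q3_dat (sde_up H hir) (dis_uS i) h hg he).upp
  obtain ⟨hp, htp, hcp, hcy⟩ := h
  rw [mem_uS] at hp
  have lp : lev p + 2 = i := by unfold tU at htp; omega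
  have ly : lev y + 1 = i := by
    have := lev_dc H (x := p) (v := y) (by rw [hcp]; simp)
    omega
  have D : LowD i e (∅ : Finset P) ∅ ∅ := SO.low_none H fun z hz => by
    rw [he z, if_neg, if_neg]
    · rintro rfl
      exact hgU (mem_lS.2 hz)
    · rw [mem_insert, mem_singleton]
      rintro (rfl | rfl) <;> omega
  have hgp : g = p → g ∉ dc y := by
    rintro rfl h
    have := lev_dc H h
    omega
  obtain ⟨c1, -⟩ := dat_card (y := y) hcy hgp
  have c2 := dat_card' (y := y) hcy hgp
  obtain ⟨g4, g5⟩ := val_gen H hC hs D D' (disjoint_empty_left _) (k := 1) (by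
    rw [card_empty, zero_add, zero_add]; exact c1)
  refine ⟨D.adm, D'.adm, ?_, ?_, SO.dvd_up g4, ?_⟩
  · rw [D.AL_eq]; exact disjoint_empty_left _
  · rw [D.AL_eq, D'.AU_eq, empty_union]
  · unfold lc
    rw [g5, card_empty, zero_add, zero_add]
    exact c2

end Pool.Agent.GaussPoset.Win.W4

end
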