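import Mathlib
import Pool.Agent.W_448zz_h61.Ns
import Pool.Agent.W_448zz_h61.M030
import Pool.Agent.W_448zz_h61.M088
import Pool.Agent.W_448zz_h61.M097
import Pool.Agent.W_448zz_h61.M100
import Pool.Agent.W_448zz_h61.M114
import Pool.Agent.W_448zz_h61.M116
import Pool.Agent.W_448zz_h61.M147
import Pool.Agent.W_448zz_h61.M153

/-! From `Pool.Agent.W_448so_h63.EA` -/

section

/-!
S9 (row 476): second order values of natural components, energy six
(`be 6 = - #N1 - #N5` for a strip without a flip).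
-/

set_option autoImplicit false

namespace Pool.Agent.GaussPoset.Win

set_option linter.unusedSectionVars false

open Finset

universe u

variable {P : Type u} [Fintype P] [PartialOrder P] [DecidableEq P] {r i j : ℕ} {t : P}
  {lo hi : ℕ → ℕ} {x : ℕ → ℕ → P} {S : Finset P} {psi : P → P}

/-- a natural component, general case -/
lemma cm5_of (h : GoodTo P r j) (C : Comp P t j lo hi x) (ht : lev t = 0) (hi1 : 1 ≤ i)
    (h3 : i + 2 ≤ j) (hS : ∀ y, lev y ≤ i + 2 → (y ∈ S ↔ y ≤ t)) (hP : Part (i + 1) S) :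
    Cm5 P r i t lo hi x S :=
  ⟨h.mono (by omega), hi1, ht, C.mono (by omega), hP, hS⟩

/-- a natural component without flip -/
theorem cm6_of (h : GoodTo P r j) (C : Comp P t j lo hi x) (ht : lev t = 0) (hi1 : 1 ≤ i)
    (h3 : i + 2 ≤ j) (hS : ∀ y, lev y ≤ i + 2 → (y ∈ S ↔ y ≤ t)) (hP : Part (i + 1) S)
    (hf : ¬ Flip lo hi i) : Cm6 P r i t lo hi x S := by
  refine ⟨cm5_of h C ht hi1 h3 hS hP, ?_, ?_⟩
  · intro a a1 a2
    have f1 := C.lo_ge i (by omega)
    have f2 := C.hi_le i (by omega)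
    have l1 := C.lev_x (i + 1) (by omega) a (by omega) (by omega)
    have l2 := C.lev_x (i + 1) (by omega) (a + 1) (by omega) (by omega)
    have hne := C.inj (i + 1) (by omega) a (a + 1) (by omega) (by omega) (by omega)
    rw [← h.good (i + 1) (by omega) _ _ l1 l2 hne]
    exact ucv_le_one h (by omega) hne (by omega)
  · intro p hp hpt q hq hqt
    obtain ⟨hout⟩ := C.mtc h ht hi1 (by omega) hS hf
    have hpS := (hS p (lev_PD hp).1.le).2 hpt
    have lq := lev_PU hq
    have hqS := (hS q (by omega)).2 hqt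
    rcases hout with ho | ⟨z, w, y, u, hz, hw, hz1, hw1, hy, hu, hyu, hy2, huz, huw, -⟩
    · exact absurd hp (ho p hpS).1
    · rw [huz p hpS hp, huw q hqS hq, ClE_sts h.H (lev_PD hz1).1 hy,
        ClE_stD h.H (by have := lev_PU hw1; omega) hu, hyu]

/-- neighbours have one common lower cover -/
lemma dcv_nat (h : GoodTo P r j) (C : Comp P t j lo hi x) (ht : lev t = 0)
    (h3 : i + 2 ≤ j) {a : ℕ} (a1 : lo i < a) (a2 : a < hi i) :
    dcv (x (i + 1) a) (x (i + 1) (a + 1)) = 1 := by
  have f1 := C.lo_ge i (by omega)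
  have f2 := C.hi_le i (by omega)
  have l1 := C.lev_x (i + 1) (by omega) a (by omega) (by omega)
  have l2 := C.lev_x (i + 1) (by omega) (a + 1) (by omega) (by omega)
  have hne := C.inj (i + 1) (by omega) a (a + 1) (by omega) (by omega) (by omega)
  rw [← h.good (i + 1) (by omega) _ _ l1 l2 hne,
    C.ucv_eq h ht (by omega) (by omega) (by omega) (by omega) (by omega) (by omega)]
  rw [if_pos (Or.inl rfl)]

/-- the form of a natural component -/
theorem QQ_nat (h : GoodTo P r j) (C : Comp P t j lo hi x) (ht : lev t = 0) (hi1 : 1 ≤ i)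
    (h3 : i + 2 ≤ j) (hS : ∀ y, lev y ≤ i + 2 → (y ∈ S ↔ y ≤ t)) (hP : Part (i + 1) S)
    (hf : ¬ Flip lo hi i) :
    QQ i S = (((FL i S).card : ℤ) - ((FU' i S).card : ℤ)) ^ 2 := by
  classical
  have K := cm6_of h C ht hi1 h3 hS hP hf
  have K' := K.cmp (fun z hz => h.no_join z (by omega))
  have h0 : ∀ k ∈ Trs x lo hi i, phc i S k = 0 := by
    intro k hk
    unfold Trs at hk
    obtain ⟨a, ha, rfl⟩ := mem_image.1 hk
    rw [mem_Ioo] at ha
    rw [K'.phc_Tr ha.1 ha.2, dcv_nat h C ht h3 ha.1 ha.2]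
    norm_num
  obtain ⟨N, h1, h2, h3⟩ := K'.QQ_eq
  rw [h3]
  have h4 : So.qf (Trs x lo hi i) (fun k l => ¬ Disjoint k l) (phc i S) = 0 := by
    unfold So.qf
    refine sum_eq_zero fun k hk => sum_eq_zero fun l hl => ?_
    rw [h0 k hk, zero_mul, ite_self]
  have h5 : ∑ k ∈ N, phc i S k = 0 := sum_eq_zero fun k hk => h0 k (h1 hk)
  rw [h4, h5]
  ring

/-- THE SECOND ORDER VALUE of a natural component at energy six -/
theorem be6_nat (h : GoodTo P r j) (C : Comp P t j lo hi x) (ht : lev t = 0) (hi1 : 1 ≤ i)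
    (h3 : i + 3 ≤ j) (hS : ∀ y, lev y ≤ i + 3 → (y ∈ S ↔ y ≤ t)) (hP : Part (i + 1) S)
    (hf : ¬ Flip lo hi i) :
    I2.be 6 (st i S).card (ZS i S) =
      - ((SO.N1f i S).card : ℤ) - ((SO.N5f i S).card : ℤ) := by
  have hS' : ∀ y, lev y ≤ i + 2 → (y ∈ S ↔ y ≤ t) := fun y hy => hS y (by omega)
  have K := cm6_of h C ht hi1 (by omega) hS' hP hf
  obtain ⟨psi, hM⟩ := good_mat h.H (h.good i (by omega))
  have Q := K.ps6 hM
  have hc := C.card_st (i := i) (S := S) (by omega) (fun y hy => hS y (by omega))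
  have hl := C.lohi i (by omega)
  have h4 := so_al3 Q
  have h5 : I2.al 3 (st i S).card (ZS i S) = ∑ z ∈ Chs i S, chg i S z := by
    classical
    have h6 := sum_chg (i := i) (S := S) h.H (fun _ => True)
    rw [filter_true, filter_true, filter_true, filter_true, filter_true] at h6
    rw [h4, h6]
  have h6 := SO.PS6.six Q (by omega) h5
  have h7 : I2.al 3 (st i S).card (ZS i S) = ((FL i S).card : ℤ) - ((FU' i S).card : ℤ) := by
    rw [h4, C.card_ZL h ht (by omega) hS', C.card_ZU h ht hi1 (by omega)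
      (fun y hy => hS y (by omega))]
    ring
  rw [h7, QQ_nat h C ht hi1 (by omega) hS' hP hf] at h6
  linarith

/-- the pattern C, C, O below a window with three sites gives an element of `N1f` -/
theorem N1f_cco (h : GoodTo P r j) (C : Comp P t j lo hi x) (ht : lev t = 0)
    (h3 : i + 3 ≤ j) (hS : ∀ y, lev y ≤ i + 3 → (y ∈ S ↔ y ≤ t)) (hb : hi i = lo i + 2)
    (hc : (lo (i + 1) = lo i + 1 ∧ lo (i + 2) = lo (i + 1) + 1 ∧ lo (i + 3) = lo (i + 2)) ∨
      (hi (i + 1) = hi i ∧ hi (i + 2) = hi (i + 1) ∧ hi (i + 3) = hi (i + 2) + 1)) :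
    (SO.N1f i S).Nonempty := by
  have e1 := C.lohi (i + 3) (by omega)
  have e2 := C.lohi (i + 2) (by omega)
  have q1 : lo (i + 2 + 1) = lo (i + 3) := rfl
  have q2 : hi (i + 2 + 1) = hi (i + 3) := rfl
  have key : ∀ a b, lo (i + 3) ≤ a → a ≤ hi (i + 3) → lo (i + 2) ≤ b → b ≤ hi (i + 2) →
      uc (x (i + 3) a) = {x (i + 2) b} → lo i + 2 ≤ b → b ≤ hi i → (SO.N1f i S).Nonempty := by
    intro a b a1 a2 b1 b2 hu c1 c2
    have l1 := C.lev_x (i + 3) h3 a a1 a2
    have l2 := C.lev_x (i + 2) (by omega) b b1 b2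
    refine ⟨x (i + 3) a, SO.mem_N1f.2 ⟨(hS _ (by omega)).2 (C.le_t _ h3 a a1 a2), Or.inl ⟨by omega,
      x (i + 2) b, mem_ZL.2 ⟨(hS _ (by omega)).2 (C.le_t _ (by omega) b b1 b2), l2, ?_⟩, hu⟩⟩⟩
    exact (C.up_three h ht (by omega) b1 b2).2 ⟨c1, c2⟩
  rcases hc with ⟨g1, g2, g3⟩ | ⟨g1, g2, g3⟩
  · refine key (lo (i + 3)) (lo (i + 2)) le_rfl e1 le_rfl e2 ?_ (by omega) (by omega)
    exact (C.uc_single h ht (k := i + 2) (by omega) le_rfl e1 le_rfl e2).2 (Or.inl ⟨by omega, by omega⟩)
  · refine key (hi (i + 3)) (hi (i + 2)) e1 le_rfl e2 le_rfl ?_ (by omega) (by omega)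
    exact (C.uc_single h ht (k := i + 2) (by omega) e1 le_rfl e2 le_rfl).2 (Or.inr ⟨by omega, rfl⟩)

end Pool.Agent.GaussPoset.Win

end

/-! From `Pool.Agent.W_448ec_h63.EK` -/

section

/-!
Early components: the window sums of a component of the shape of a rectangle or of a staircase,
natural up to level `J`, are clean up to twice the distance of the window to `J`.
-/

namespace Pool.Agent.GaussPoset

set_option linter.unusedSectionVars false

open Finset Win Cp

universe u

variable {P : Type u} [Fintype P] [PartialOrder P] [DecidableEq P] {r i J : ℕ} {S : Finset P}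
variable {t : Tops P} {lo hi : ℕ → ℕ} {e : ℕ → ℕ → P}

/-- the part `S` is the extension of the component `t` -/
structure Ext (P : Type u) [Fintype P] [PartialOrder P] [DecidableEq P] (i J : ℕ) (t : P)
    (S : Finset P) : Prop where
  part : Part i S
  mem : ∀ x, lev x ≤ J → (x ∈ S ↔ x ≤ t)

section tru

variable {T : ℕ × ℕ → Prop}

/-- the top of the subposet -/
def topQ (E : Ext P i J (t : P) S) : PQ S := ⟨t, (E.mem t (by rw [t.2]; exact Nat.zero_le _)).2 le_rfl⟩

lemma chart_PQ (E : Ext P i J (t : P) S)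
    (Ch : Chart (t : P) T (lowPart J (t : P)) (ccoord lo hi e)) :
    Chart (topQ E) T (loN (PQ S) J) (fun x : PQ S => ccoord lo hi e (x : P)) := by
  have hlow : ∀ x : PQ S, x ∈ loN (PQ S) J → (x : P) ∈ lowPart J (t : P) := by
    intro x hx
    rw [mem_loN, lev_PQ E.part] at hx
    rw [mem_lowPart]
    exact ⟨(E.mem x hx).1 x.2, hx⟩
  constructor
  · intro x hx y hxy
    rw [mem_loN] at hx ⊢
    exact (lev_le_of_le hxy).trans hx
  · intro x hx
    exact (mem_lowPart.1 (hlow x hx)).1
  · intro x hx y hy h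
    exact Subtype.ext (Ch.inj x (hlow x hx) y (hlow y hy) h)
  · intro x hx y hy
    exact Ch.le_iff x (hlow x hx) y (hlow y hy)
  · intro x hx
    exact Ch.mem x (hlow x hx)
  · intro x hx c hc hT
    obtain ⟨y, hy, hcy⟩ := Ch.low x (hlow x hx) c hc hT
    rw [mem_lowPart] at hy
    refine ⟨⟨y, (E.mem y hy.2).2 hy.1⟩, ?_, hcy⟩
    rw [mem_loN, lev_PQ E.part]
    exact hy.2
  · intro x hx
    rw [lev_PQ E.part]
    exact Ch.lev x (hlow x hx)

lemma graded_PQ (H : Gr P r) (hC : Part i S) : GradedBelow (PQ S) := by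
  intro z x hzx
  obtain ⟨w, hw1, hw2, hw3⟩ := H.gradedBelow (z : P) (x : P) hzx
  refine ⟨⟨w, part_up hC z.2 hw1⟩, hw1, hw2, ?_⟩
  rw [lev_PQ hC, lev_PQ hC]
  exact hw3

/-- membership of a cell, in the subposet -/
lemma cell_PQ (E : Ext P i J (t : P) S) (C : Cp.Comp J (t : P) lo hi e) {a b : ℕ}
    (hab : a + b ≤ J) (h1 : lo (a + b) ≤ a) (h2 : a ≤ hi (a + b)) :
    ∃ x : PQ S, lev x ≤ J ∧ ccoord lo hi e (x : P) = (a, b) := by
  obtain ⟨x, hx, hcx⟩ := cell_mem C hab h1 h2
  rw [mem_lowPart] at hx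
  refine ⟨⟨x, (E.mem x hx.2).2 hx.1⟩, ?_, hcx⟩
  rw [lev_PQ E.part]
  exact hx.2

lemma cell_low (E : Ext P i J (t : P) S) (C : Cp.Comp J (t : P) lo hi e) {x : PQ S}
    (hx : lev x ≤ J) :
    lo ((ccoord lo hi e (x : P)).1 + (ccoord lo hi e (x : P)).2) ≤ (ccoord lo hi e (x : P)).1 ∧
      (ccoord lo hi e (x : P)).1 ≤
        hi ((ccoord lo hi e (x : P)).1 + (ccoord lo hi e (x : P)).2) ∧
      (ccoord lo hi e (x : P)).1 + (ccoord lo hi e (x : P)).2 ≤ J := by
  rw [lev_PQ E.part] at hx
  have h1 : (x : P) ∈ lowPart J (t : P) := mem_lowPart.2 ⟨(E.mem x hx).1 x.2, hx⟩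
  have h2 := cell_of C h1
  refine ⟨h2.1, h2.2, ?_⟩
  obtain ⟨h3, h4, -⟩ := scoord_spec C (mem_lowPart.1 h1).1 hx
  have h5 := C.hi_le hx
  have h6 : (ccoord lo hi e (x : P)).1 + (ccoord lo hi e (x : P)).2 = lev (x : P) := by
    unfold ccoord
    simp only
    omega
  rw [h6]
  exact hx

/-- the columns -/
lemma col_bound (C : Cp.Comp J (t : P) lo hi e)
    (hlo : ∀ k, k < J → lo (k + 1) = 0 ∨ lo (k + 1) = lo k + 1) (hiJ : i ≤ J)
    (h0 : 1 ≤ lo i) {k : ℕ} (hk : k ≤ J) : k - lo k ≤ i - lo i := by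
  rcases Nat.lt_or_ge k i with h | h
  · have h1 : ∀ d, k + d ≤ J → (k + d) - lo (k + d) ≥ k - lo k := by
      intro d
      induction d with
      | zero => intro _; exact le_rfl
      | succ d ih =>
        intro hd
        have h2 := ih (by omega)
        have h3 := C.lo_step (k + d) (by omega)
        have h4 := C.lo_le (k + d) (by omega)
        have h5 := C.hi_le (k := k + d) (by omega)
        rw [← Nat.add_assoc]
        omega
    have h2 := h1 (i - k) (by omega)
    rw [show k + (i - k) = i by omega] at h2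
    exact h2
  · have h1 := shape_lo C hlo h0 (k - i) (by omega)
    rw [show i + (k - i) = k by omega] at h1
    omega

/-- the columns, lower bound -/
lemma col_base (C : Cp.Comp J (t : P) lo hi e)
    (hlo : ∀ k, k < J → lo (k + 1) = 0 ∨ lo (k + 1) = lo k + 1) (hiJ : i ≤ J)
    {k c : ℕ} (hk : k ≤ J) (hck : c ≤ k) (hc : c < i - lo i + 1) : lo k ≤ k - c := by
  have hmono : ∀ a d, a + d ≤ J → a - lo a ≤ (a + d) - lo (a + d) := by
    intro a d
    induction d with
    | zero => intro _; exact le_rfl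
    | succ d ih =>
      intro hd
      have h2 := ih (by omega)
      have h3 := C.lo_step (a + d) (by omega)
      have h4 := C.lo_le (a + d) (by omega)
      have h5 := C.hi_le (k := a + d) (by omega)
      rw [← Nat.add_assoc]
      omega
  have h6 := C.lo_le k hk
  have h7 := C.hi_le hk
  rcases Nat.lt_or_ge k i with h | h
  · rcases Nat.eq_zero_or_pos (lo k) with h1 | h1
    · omega
    · have h2 := shape_lo C hlo h1 (i - k) (by omega)
      rw [show k + (i - k) = i by omega] at h2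
      omega
  · have h1 := hmono i (k - i) (by omega)
    rw [show i + (k - i) = k by omega] at h1
    omega

/-- the rows -/
lemma row_base (C : Cp.Comp J (t : P) lo hi e)
    (hhi : ∀ k, k < J → hi (k + 1) = k + 1 ∨ hi (k + 1) = hi k) (hiJ : i ≤ J)
    {k s : ℕ} (hk : k ≤ J) (hsk : s ≤ k) (hs : s < hi i + 1) : s ≤ hi k := by
  rcases Nat.lt_or_ge k i with h | h
  · rcases Nat.lt_or_ge (hi k) k with h1 | h1
    · have h2 := shape_hi C hhi h1 (i - k) (by omega)
      rw [show k + (i - k) = i by omega] at h2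
      omega
    · omega
  · have h1 := C.hi_mono (l := i) (d := k - i) (by omega)
    rw [show i + (k - i) = k by omega] at h1
    omega

/-- rectangles -/
theorem tru_rect (E : Ext P i J (t : P) S) (H : Gr P r) (hg : ∀ l, l < J → Win.Good P l)
    (C : Cp.Comp J (t : P) lo hi e) (R : RectShape J lo hi) (h3 : i + 3 ≤ J) :
    Tru (topQ E) (fun _ => True) (fun x : PQ S => ccoord lo hi e (x : P)) i J (hi i + 1)
      (i - lo i + 1) where
  graded := graded_PQ H E.part
  chart := chart_PQ E (chart_rect C H hg R)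
  hp := by
    have := C.hi_le (k := i) (by omega)
    omega
  hq := by omega
  hiJ := h3
  pcl := by
    have h1 := C.hi_le (k := i) (by omega)
    rcases Nat.lt_or_ge (hi i) i with h | h
    · right
      intro x hx
      obtain ⟨-, h4, h5⟩ := cell_low E C hx
      rcases Nat.lt_or_ge ((ccoord lo hi e (x : P)).1 + (ccoord lo hi e (x : P)).2) i with h6 | h6
      · have h7 := C.hi_mono (l := (ccoord lo hi e (x : P)).1 + (ccoord lo hi e (x : P)).2)
          (d := i - ((ccoord lo hi e (x : P)).1 + (ccoord lo hi e (x : P)).2)) (by omega)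
        rw [Nat.add_sub_cancel' h6.le] at h7
        omega
      · have h7 := shape_hi C R.hi h
          ((ccoord lo hi e (x : P)).1 + (ccoord lo hi e (x : P)).2 - i) (by omega)
        rw [Nat.add_sub_cancel' h6] at h7
        omega
    · left
      omega
  qcl := by
    rcases Nat.eq_zero_or_pos (lo i) with h | h
    · left
      omega
    · right
      intro x hx
      obtain ⟨h4, -, h5⟩ := cell_low E C hx
      have h6 := col_bound (i := i) C R.lo (by omega) h h5
      omega
  base := by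
    intro s c _ hs hc hsc
    refine cell_PQ E C hsc ?_ ?_
    · have := col_base (i := i) C R.lo (by omega) hsc (Nat.le_add_left c s) hc
      omega
    · exact row_base (i := i) C R.hi (by omega) hsc (Nat.le_add_right s c) hs

/-- staircases -/
theorem tru_stair (E : Ext P i J (t : P) S) (H : Gr P r) (hg : ∀ l, l < J → Win.Good P l)
    (C : Cp.Comp J (t : P) lo hi e) (R : StairShape J lo hi) (h3 : i + 3 ≤ J) :
    Tru (topQ E) (fun c => c.1 ≤ c.2) (fun x : PQ S => ccoord lo hi e (x : P)) i J (i + 1)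
      (i - lo i + 1) where
  graded := graded_PQ H E.part
  chart := chart_PQ E (chart_stair C H hg R)
  hp := le_rfl
  hq := by omega
  hiJ := h3
  pcl := Or.inl rfl
  qcl := by
    rcases Nat.eq_zero_or_pos (lo i) with h | h
    · left
      omega
    · right
      intro x hx
      obtain ⟨h4, -, h5⟩ := cell_low E C hx
      have h6 := col_bound (i := i) C R.lo (by omega) h h5
      omega
  base := by
    intro s c hT hs hc hsc
    refine cell_PQ E C hsc ?_ ?_
    · have := col_base (i := i) C R.lo (by omega) hsc (Nat.le_add_left c s) hc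
      omega
    · rw [R.hi _ hsc]
      have : s ≤ c := hT
      omega

end tru

section main

/-- the number of sites -/
lemma card_st_ext (E : Ext P i J (t : P) S) (C : Cp.Comp J (t : P) lo hi e) (hiJ : i ≤ J) :
    (st i S).card = hi i + 1 - lo i :=
  C.toWin.card_st hiJ fun y hy => E.mem y (by omega)

/-- RECTANGLES -/
theorem ec_rect (E : Ext P i J (t : P) S) (H : Gr P r) (hJr : J ≤ r)
    (hg : ∀ l, l < J → Win.Good P l) (C : Cp.Comp J (t : P) lo hi e) (R : RectShape J lo hi)
    (h3 : i + 3 ≤ J) {n : ℕ} (hn : n ≤ 2 * (J - i)) : dd ^ (st i S).card ∣ ZC i S n := by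
  have h1 := C.hi_le (k := i) (by omega)
  have h2 := C.lo_le i (by omega)
  refine dvd_ZC_of H (by omega) E.part ?_
  have h4 := (tru_rect E H hg C R h3).rect_clean (by omega) hn
  rw [card_st_ext E C (by omega)]
  rwa [show hi i + 1 + (i - lo i + 1) - 1 - i = hi i + 1 - lo i by omega] at h4

/-- STAIRCASES -/
theorem ec_stair (E : Ext P i J (t : P) S) (H : Gr P r) (hJr : J ≤ r)
    (hg : ∀ l, l < J → Win.Good P l) (C : Cp.Comp J (t : P) lo hi e) (R : StairShape J lo hi)
    (h3 : i + 3 ≤ J) {n : ℕ} (hn : n ≤ 2 * (J - i))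
    (e1 : J = i + 3 → 2 * (J / 2) + 1 = J → n ≤ 5)
    (e2 : J = i + 3 → 2 * (J / 2) = J → n ≤ 4) (e3 : J = i + 4 → 2 * (J / 2) = J → n ≤ 6)
    (e4 : J = i + 5 → 2 * (J / 2) = J → n ≤ 9) : dd ^ (st i S).card ∣ ZC i S n := by
  have h1 := R.hi i (by omega)
  have h2 := C.lo_le i (by omega)
  refine dvd_ZC_of H (by omega) E.part ?_
  have h4 := (tru_stair E H hg C R h3).stair_clean (by omega) hn e1 e2 e3 e4
  rw [card_st_ext E C (by omega)]
  rwa [show i / 2 + (i - lo i + 1) - i = hi i + 1 - lo i by omega] at h4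

end main

end Pool.Agent.GaussPoset

end

/-! From `Pool.Agent.W_448ec_h63.EQ` -/

section

/-!
EARLY COMPONENTS AT NEAR WINDOWS (G2, (ii)): final statements.
-/

namespace Pool.Agent.GaussPoset

set_option linter.unusedSectionVars false

open Finset Win Cp

universe u

variable {P : Type u} [Fintype P] [PartialOrder P] [DecidableEq P] {r i J : ℕ} {S : Finset P}
variable {t : Tops P} {lo hi : ℕ → ℕ} {e : ℕ → ℕ → P}

lemma cov_PQ (hC : Part i S) {x y : PQ S} : x ⋖ y ↔ (x : P) ⋖ (y : P) := by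
  constructor
  · intro h
    refine ⟨h.lt, fun z hz1 hz2 => ?_⟩
    exact h.2 (c := ⟨z, part_up hC x.2 hz1.le⟩) hz1 hz2
  · intro h
    exact ⟨h.lt, fun z hz1 hz2 => h.2 (c := (z : P)) hz1 hz2⟩

lemma two_PQ (H : Gr P r) (hC : Part i S) : Two (PQ S) where
  up := by
    intro v a b c ha hb hc hab
    rw [cov_PQ hC] at ha hb hc
    by_contra hcon
    push Not at hcon
    exact Win.uc_three H ha hb hc (fun h => hab (Subtype.ext h))
      (fun h => hcon.1 (Subtype.ext h.symm)) (fun h => hcon.2 (Subtype.ext h.symm))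
  dn := by
    intro v a b c ha hb hc hab
    rw [cov_PQ hC] at ha hb hc
    by_contra hcon
    push Not at hcon
    exact Win.dc_three H ha hb hc (fun h => hab (Subtype.ext h))
      (fun h => hcon.1 (Subtype.ext h.symm)) (fun h => hcon.2 (Subtype.ext h.symm))

/-- STAIRCASES, order one less, all energies up to twice the distance -/
theorem ec_stair_all (E : Ext P i J (t : P) S) (H : Gr P r) (hJr : J ≤ r)
    (hg : ∀ l, l < J → Win.Good P l) (C : Cp.Comp J (t : P) lo hi e) (R : StairShape J lo hi)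
    (h3 : i + 3 ≤ J) {n : ℕ} (hn : n ≤ 2 * (J - i)) : dd ^ ((st i S).card - 1) ∣ ZC i S n := by
  have h1 := R.hi i (by omega)
  have h2 := C.lo_le i (by omega)
  refine dvd_ZC_of H (by omega) E.part ?_
  have h4 := (tru_stair E H hg C R h3).stair_all (two_PQ H E.part) (by omega) hn
  rw [card_st_ext E C (by omega)]
  rwa [show i / 2 + (i - lo i + 1) - i - 1 = hi i + 1 - lo i - 1 by omega] at h4

/-- the shapes of the early components, both orientations of the staircase -/
def Early (J : ℕ) (lo hi : ℕ → ℕ) : Prop :=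
  RectShape J lo hi ∨ StairShape J lo hi ∨ StairShape J (fun k => k - hi k) (fun k => k - lo k)

/-- EARLY COMPONENTS: clean up to the distance -/
theorem ec_clean (E : Ext P i J (t : P) S) (H : Gr P r) (hJr : J ≤ r)
    (hg : ∀ l, l < J → Win.Good P l) (C : Cp.Comp J (t : P) lo hi e) (R : Early J lo hi)
    (h3 : i + 3 ≤ J) {n : ℕ} (hn : n ≤ J - i) : dd ^ (st i S).card ∣ ZC i S n := by
  rcases R with R | R | R
  · exact ec_rect E H hJr hg C R h3 (by omega)
  · exact ec_stair E H hJr hg C R h3 (by omega) (by omega) (by omega) (by omega) (by omega)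
  · exact ec_stair E H hJr hg (comp_swap C) R h3 (by omega) (by omega) (by omega) (by omega)
      (by omega)

/-- EARLY COMPONENTS: order one less up to twice the distance -/
theorem ec_less (E : Ext P i J (t : P) S) (H : Gr P r) (hJr : J ≤ r)
    (hg : ∀ l, l < J → Win.Good P l) (C : Cp.Comp J (t : P) lo hi e) (R : Early J lo hi)
    (h3 : i + 3 ≤ J) {n : ℕ} (hn : n ≤ 2 * (J - i)) :
    dd ^ ((st i S).card - 1) ∣ ZC i S n := by
  rcases R with R | R | R
  · exact (pow_dvd_pow _ (Nat.sub_le _ _)).trans (ec_rect E H hJr hg C R h3 hn)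
  · exact ec_stair_all E H hJr hg C R h3 hn
  · exact ec_stair_all E H hJr hg (comp_swap C) R h3 hn

section coeffs

/-- the first order coefficients vanish -/
theorem ec_al (E : Ext P i J (t : P) S) (H : Gr P r) (hJr : J ≤ r)
    (hg : ∀ l, l < J → Win.Good P l) (C : Cp.Comp J (t : P) lo hi e) (R : Early J lo hi)
    (h3 : i + 3 ≤ J) {n : ℕ} (hn : n ≤ J - i) : I2.al n (st i S).card (ZS i S) = 0 := by
  unfold I2.al
  rw [coeff_ZS]
  refine I2.coeff_eq_zero_of_dvd ?_
  rw [pow_succ']
  exact mul_dvd_mul_left _ (ec_clean E H hJr hg C R h3 hn)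

/-- the second order coefficients vanish -/
theorem ec_be (E : Ext P i J (t : P) S) (H : Gr P r) (hJr : J ≤ r)
    (hg : ∀ l, l < J → Win.Good P l) (C : Cp.Comp J (t : P) lo hi e) (R : Early J lo hi)
    (h3 : i + 3 ≤ J) {n : ℕ} (hn : n ≤ 2 * (J - i)) :
    I2.be n (st i S).card (ZS i S) = 0 := by
  unfold I2.be
  rw [coeff_ZS]
  refine I2.coeff_eq_zero_of_dvd ?_
  have h1 := ec_less E H hJr hg C R h3 hn
  refine (pow_dvd_pow dd (show (st i S).card + 1 ≤ 2 + ((st i S).card - 1) by omega)).trans ?_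
  rw [pow_add]
  exact mul_dvd_mul_left _ h1

/-- the order profile -/
theorem ec_prof (E : Ext P i J (t : P) S) (H : Gr P r) (hJr : J ≤ r)
    (hg : ∀ l, l < J → Win.Good P l) (C : Cp.Comp J (t : P) lo hi e) (R : Early J lo hi)
    (h3 : i + 3 ≤ J) {n m : ℕ} (hn : n ≤ J - i + 1) (hm : m ≤ 2 * (J - i)) :
    I2.Prof n m (st i S).card (ZS i S) where
  lo := by
    intro k hk
    rw [coeff_ZS]
    exact ec_clean E H hJr hg C R h3 (by omega)
  mid := by
    intro k hk
    rw [coeff_ZS]
    have h1 := ec_less E H hJr hg C R h3 (n := k) (by omega)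
    refine (pow_dvd_pow dd (show (st i S).card ≤ 1 + ((st i S).card - 1) by omega)).trans ?_
    rw [pow_add, pow_one]
    exact mul_dvd_mul_left _ h1
  top := by
    rw [coeff_ZS]
    have h1 := ec_less E H hJr hg C R h3 (n := m) (by omega)
    refine (pow_dvd_pow dd (show (st i S).card ≤ 2 + ((st i S).card - 1) by omega)).trans ?_
    rw [pow_add]
    exact mul_dvd_mul_left _ h1

end coeffs

section split

/-- the top as label of the components -/
theorem split_top (H : Gr P r) (hg : ∀ l, l < J → Win.Good P l) :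
    Split J (topOf : P → Tops P) := by
  intro x y hxy hx
  refine Subtype.ext ?_
  exact Cp.top_eq H hg hx (topOf x).2 (topOf y).2 (le_topOf x) (hxy.le.trans (le_topOf y))

/-- the extended component of a top -/
theorem ext_top (H : Gr P r) (hg : ∀ l, l < J → Win.Good P l) (hiJ : i ≤ J) (t : Tops P) :
    Ext P i J (t : P) (cext J (topOf : P → Tops P) t) where
  part := part_cext H hiJ (split_top H hg) t
  mem := by
    intro x hx
    rw [mem_cext]
    constructor
    · intro h
      have h1 := h x le_rfl hx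
      rw [← h1]
      exact le_topOf x
    · intro h y hy hly
      refine Subtype.ext ?_
      exact Cp.top_eq H hg hx (topOf y).2 t.2 (hy.trans (le_topOf y)) h

end split

end Pool.Agent.GaussPoset

end

/-! From `Pool.Agent.W_448wd_h84.WdJ` -/

section

/-!
# MP_448cb3_co, individual identities at the window `i`, `i + E = j`: one stage
-/

namespace Pool.Agent.GaussPoset.Wd

set_option linter.unusedSectionVars false

open Finset Win Win.I2

universe u

variable {P : Type u} [Fintype P] [PartialOrder P] [DecidableEq P] {r j i E : ℕ}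

/-- the extended component of a top -/
noncomputable def SS (i : ℕ) (t : Tops P) : Finset P := cext i (topOf : P → Tops P) t

lemma split_gt (h : GoodTo P r j) : Split j (topOf : P → Tops P) := split_top h.H h.good

/-- the extended component does not depend on the level of the decomposition -/
lemma cext_eq (h : GoodTo P r j) (hij : i ≤ j) (t : Tops P) :
    cext j (topOf : P → Tops P) t = SS i t := by
  unfold SS
  ext x
  rw [mem_cext, mem_cext]
  constructor
  · intro hx y hy hl
    exact hx y hy (hl.trans hij)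
  · intro hx y hy hl
    rcases Nat.lt_or_ge (lev y) i with h1 | h1
    · exact hx y hy h1.le
    · obtain ⟨y', hy', hl'⟩ := exists_above' (x := y) (j := i) h1
      rw [Split.le (split_gt h) (y := y') y hy' hl]
      exact hx y' (hy.trans hy') hl'.le

lemma SS_ext (h : GoodTo P r j) (hij : i ≤ j) (t : Tops P) : Ext P i j (t : P) (SS i t) := by
  have := ext_top h.H h.good hij t
  rwa [cext_eq h hij t] at this

lemma bb_eq (h : GoodTo P r j) (hij : i ≤ j) (t : Tops P) :
    bb i j (topOf : P → Tops P) t = (st i (SS i t)).card := by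
  unfold bb
  rw [cext_eq h hij t]

lemma VV_eq (h : GoodTo P r j) (hij : i ≤ j) (t : Tops P) :
    VV i j (topOf : P → Tops P) t = ZS i (SS i t) := by
  unfold VV
  rw [cext_eq h hij t]

lemma topOf_top (t : Tops P) : topOf (t : P) = t := by
  have h1 := le_topOf (t : P)
  refine Subtype.ext ?_
  rcases eq_or_lt_of_le h1 with h2 | h2
  · exact h2.symm
  · have h3 := lev_strictAnti h2
    have h4 := t.2
    omega

lemma mem_tops (t : Tops P) : t ∈ (univ : Finset P).image (topOf : P → Tops P) :=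
  mem_image.2 ⟨(t : P), mem_univ _, topOf_top t⟩

/-- all components are clean at the window `i` and the energy `n` -/
def Cln (P : Type u) [Fintype P] [PartialOrder P] [DecidableEq P] (i n : ℕ) : Prop :=
  ∀ t : Tops P, dd ^ (st i (SS i t)).card ∣ ZC i (SS i t) n

/-- one stage: no positive second order term -/
theorem stage (h : GoodTo P r j) (hE1 : 1 ≤ E) (hE : i + E ≤ j)
    (hp : ∀ t : Tops P, Prof E (2 * E) (st i (SS i t)).card (ZS i (SS i t)))
    (hn : ∀ t : Tops P, be (2 * E) (st i (SS i t)).card (ZS i (SS i t)) ≤ 0) : Cln P i E := by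
  have hr := h.hr
  intro t
  have h1 := individual (univ.image (topOf : P → Tops P)) hE1 (bb i j topOf) (VV i j topOf)
    (fun c _ => by rw [bb_eq h (by omega), VV_eq h (by omega)]; exact hp c)
    (fun c _ => eps_sq h.H (by omega) c)
    (tot_dvd h.H (by omega) (by omega) (split_gt h) (by omega))
    (tot_dvd h.H (by omega) (by omega) (split_gt h) (by omega))
    (fun c _ => by
      rw [eps_VV h.H (by omega), one_mul, bb_eq h (by omega), VV_eq h (by omega)]
      exact hn c) t (mem_tops t)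
  rw [bb_eq h (by omega), VV_eq h (by omega), coeff_ZS] at h1
  exact h1

/-- one stage: no negative first order term -/
theorem stage_first (h : GoodTo P r j) (hE1 : 1 ≤ E) (hE : i + E ≤ j)
    (hp : ∀ t : Tops P, Prof E (E + 1) (st i (SS i t)).card (ZS i (SS i t)))
    (hn : ∀ t : Tops P, 0 ≤ al E (st i (SS i t)).card (ZS i (SS i t))) : Cln P i E := by
  have hr := h.hr
  intro t
  have hp' : ∀ c ∈ (univ : Finset P).image (topOf : P → Tops P),
      Prof E (E + 1) (bb i j topOf c) (VV i j topOf c) := by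
    intro c _
    rw [bb_eq h (by omega), VV_eq h (by omega)]
    exact hp c
  obtain ⟨_, _, i3, _⟩ := prod_all (univ.image (topOf : P → Tops P)) hE1 (Nat.lt_succ_self E)
    (by omega) (bb i j topOf) (VV i j topOf) hp' (fun c _ => eps_sq h.H (by omega) c)
  have h0 : al E (∑ c ∈ univ.image (topOf : P → Tops P), bb i j topOf c)
      (∏ c ∈ univ.image (topOf : P → Tops P), VV i j topOf c) = 0 := by
    unfold I2.al
    apply coeff_eq_zero_of_dvd
    rw [pow_succ']
    exact mul_dvd_mul_left _ (tot_dvd h.H (by omega) (by omega) (split_gt h) (by omega))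
  rw [h0, mul_zero] at i3
  have h1 : ∀ c ∈ (univ : Finset P).image (topOf : P → Tops P),
      0 ≤ eps (bb i j topOf c) (VV i j topOf c) * al E (bb i j topOf c) (VV i j topOf c) := by
    intro c _
    rw [eps_VV h.H (by omega), one_mul, bb_eq h (by omega), VV_eq h (by omega)]
    exact hn c
  have h2 := (Finset.sum_eq_zero_iff_of_nonneg h1).1 i3.symm t (mem_tops t)
  rw [eps_VV h.H (by omega), one_mul, bb_eq h (by omega), VV_eq h (by omega)] at h2
  have h3 := al_zero ((hp t).mid E (Nat.lt_succ_self E)) h2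
  rwa [coeff_ZS] at h3

section profiles

variable {S : Finset P}

lemma coeff_dvd_one (H : Gr P r) (hP : Part i S) (h : 1 ≤ (st i S).card) (n : ℕ) :
    dd ∣ PowerSeries.coeff n (ZS i S) := by
  rw [coeff_ZS]
  exact dd_dvd_ZC H hP (card_pos.1 h) n

/-- small components -/
lemma prof_small (H : Gr P r) (hP : Part i S) (hb : (st i S).card ≤ 2)
    (hlo : ∀ n, n < E → dd ^ (st i S).card ∣ ZC i S n) (m : ℕ) :
    Prof E m (st i S).card (ZS i S) where
  lo := by
    intro n hn
    rw [coeff_ZS]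
    exact hlo n hn
  mid := by
    intro n _
    rcases Nat.eq_zero_or_pos (st i S).card with h | h
    · rw [h, pow_zero]
      exact one_dvd _
    · refine (pow_dvd_pow dd (show (st i S).card ≤ 1 + 1 by omega)).trans ?_
      rw [pow_add, pow_one]
      exact mul_dvd_mul_left _ (coeff_dvd_one H hP h n)
  top := (pow_dvd_pow dd (show (st i S).card ≤ 2 by omega)).trans (Dvd.intro _ rfl)

lemma be_zero_small (H : Gr P r) (hP : Part i S) (hb : (st i S).card ≤ 2) (m : ℕ) :
    be m (st i S).card (ZS i S) = 0 := by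
  unfold be
  rcases Nat.eq_zero_or_pos (st i S).card with h | h
  · rw [h]
    exact coeff_zero_of_dvd (a := 2) (Dvd.intro _ rfl) (by omega)
  · apply coeff_zero_of_dvd (a := 3)
    · rw [show (3 : ℕ) = 2 + 1 from rfl, pow_add, pow_one]
      exact mul_dvd_mul_left _ (coeff_dvd_one H hP h m)
    · omega

lemma al_zero_one (H : Gr P r) (hP : Part i S) (hb : (st i S).card ≤ 1) (m : ℕ) :
    al m (st i S).card (ZS i S) = 0 := by
  unfold I2.al
  rcases Nat.eq_zero_or_pos (st i S).card with h | h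
  · rw [h]
    exact coeff_zero_of_dvd (a := 1) (by rw [pow_one]; exact Dvd.intro _ rfl) (by omega)
  · apply coeff_zero_of_dvd (a := 2)
    · rw [pow_two]
      exact mul_dvd_mul_left _ (coeff_dvd_one H hP h m)
    · omega

lemma al_of_dvd {b n : ℕ} (h : dd ^ b ∣ ZC i S n) : al n b (ZS i S) = 0 := by
  unfold I2.al
  rw [coeff_ZS]
  apply coeff_eq_zero_of_dvd
  rw [pow_succ']
  exact mul_dvd_mul_left _ h

/-- components with three sites: the profile from the second order coefficients -/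
lemma prof_three (H : Gr P r) (hP : Part i S) (hb : (st i S).card = 3)
    (hlo : ∀ n, n < E → dd ^ (st i S).card ∣ ZC i S n) {m : ℕ}
    (hmid : ∀ n, E ≤ n → n < m → be n (st i S).card (ZS i S) = 0) :
    Prof E m (st i S).card (ZS i S) where
  lo := by
    intro n hn
    rw [coeff_ZS]
    exact hlo n hn
  mid := by
    intro n hn
    rcases Nat.lt_or_ge n E with h | h
    · rw [coeff_ZS]
      exact Dvd.dvd.mul_left (hlo n h) _
    · refine be_zero_iff ?_ (hmid n h hn)
      rw [hb]
      refine (pow_dvd_pow dd (show 3 ≤ 2 + 1 by omega)).trans ?_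
      rw [pow_add, pow_one]
      exact mul_dvd_mul_left _ (coeff_dvd_one H hP (by omega) n)
  top := by
    rw [hb]
    refine (pow_dvd_pow dd (show 3 ≤ 2 + 1 by omega)).trans ?_
    rw [pow_add, pow_one]
    exact mul_dvd_mul_left _ (coeff_dvd_one H hP (by omega) m)

end profiles

end Pool.Agent.GaussPoset.Wd

end

/-! From `Pool.Agent.W_448wd_h84.WdK` -/

section

/-!
# MP_448cb3_co, the laws with `E ≤ 3`
-/

namespace Pool.Agent.GaussPoset.Wd

set_option linter.unusedSectionVars false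

open Finset Win Win.I2

universe u

variable {P : Type u} [Fintype P] [PartialOrder P] [DecidableEq P] {r j i E : ℕ}

/-- INPUT (row 476): second order coefficients of the components with at least three sites -/
structure SO (P : Type u) [Fintype P] [PartialOrder P] [DecidableEq P] (r : ℕ) : Prop where
  be5_le : ∀ {j i : ℕ} {t : Tops P} {lo hi : ℕ → ℕ} {e : ℕ → ℕ → P}, GoodTo P r j →
    Cp.Comp j (t : P) lo hi e → 1 ≤ i → i + 3 ≤ j → lo i + 2 ≤ hi i →
    be 5 (st i (SS i t)).card (ZS i (SS i t)) ≤ 0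
  be5_flip : ∀ {j i : ℕ} {t : Tops P} {lo hi : ℕ → ℕ} {e : ℕ → ℕ → P}, GoodTo P r j →
    Cp.Comp j (t : P) lo hi e → 1 ≤ i → i + 3 ≤ j → lo i + 2 ≤ hi i → Flip lo hi i →
    be 5 (st i (SS i t)).card (ZS i (SS i t)) < 0
  be6_le : ∀ {j i : ℕ} {t : Tops P} {lo hi : ℕ → ℕ} {e : ℕ → ℕ → P}, GoodTo P r j →
    Cp.Comp j (t : P) lo hi e → 1 ≤ i → i + 3 ≤ j → lo i + 2 ≤ hi i → ¬ Flip lo hi i →
    2 * be 6 (st i (SS i t)).card (ZS i (SS i t)) ≤ ((flw lo hi i : ℤ) - fuw lo hi i) ^ 2
  be6_al : ∀ {j i : ℕ} {t : Tops P} {lo hi : ℕ → ℕ} {e : ℕ → ℕ → P}, GoodTo P r j →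
    Cp.Comp j (t : P) lo hi e → 1 ≤ i → i + 3 ≤ j → lo i + 2 ≤ hi i → ¬ Flip lo hi i →
    flw lo hi i ≠ fuw lo hi i →
    2 * be 6 (st i (SS i t)).card (ZS i (SS i t)) < ((flw lo hi i : ℤ) - fuw lo hi i) ^ 2
  be6_cco : ∀ {j i : ℕ} {t : Tops P} {lo hi : ℕ → ℕ} {e : ℕ → ℕ → P}, GoodTo P r j →
    Cp.Comp j (t : P) lo hi e → 1 ≤ i → i + 3 ≤ j → hi i = lo i + 2 → lo (i + 2) < hi (i + 2) →
    cco lo hi i → ¬ Flip lo hi i →
    2 * be 6 (st i (SS i t)).card (ZS i (SS i t)) < ((flw lo hi i : ℤ) - fuw lo hi i) ^ 2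

lemma card_SS (h : GoodTo P r j) (hij : i ≤ j) {t : Tops P} {lo hi : ℕ → ℕ} {e : ℕ → ℕ → P}
    (C : Cp.Comp j (t : P) lo hi e) : (st i (SS i t)).card = hi i + 1 - lo i :=
  C.toWin.card_st hij (fun y hy => (SS_ext h hij t).mem y (by omega))

lemma SS_part (h : GoodTo P r j) (hij : i ≤ j) {k : ℕ} (hk : k ≤ j) (t : Tops P) : Part k (SS i t) := by
  rw [← cext_eq h hij t]
  exact part_cext h.H hk (split_gt h) t

/-- the value of (3,1) for a component -/
lemma al3_SS (h : GoodTo P r j) (hi1 : 1 ≤ i) (h3 : i + 3 ≤ j) {t : Tops P} {lo hi : ℕ → ℕ}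
    {e : ℕ → ℕ → P} (C : Cp.Comp j (t : P) lo hi e) (hf : ¬ Flip lo hi i) :
    I2.al 3 (st i (SS i t)).card (ZS i (SS i t)) = (flw lo hi i : ℤ) - fuw lo hi i :=
  C.toWin.al3 h t.2 hi1 h3 (fun y hy => (SS_ext h (by omega) t).mem y (by omega))
    (SS_part h (by omega) (by omega) t) hf

section three

variable (I : SO P r) (h : GoodTo P r j) (hi1 : 1 ≤ i) (h3 : i + 3 ≤ j)
include I h hi1 h3

/-- (5,2) -/
theorem be5_all (t : Tops P) : be 5 (st i (SS i t)).card (ZS i (SS i t)) = 0 := by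
  have hr := h.hr
  have h1 := be5_zero h.H (by omega) (show i + 3 ≤ j by omega)
    (fun m _ hm => h.good m (by omega)) (split_gt h) (by
      intro c _ hb
      rw [bb_eq h (by omega)] at hb ⊢
      rw [VV_eq h (by omega)]
      obtain ⟨lo, hi, e, C⟩ := Cp.comp_exists h.H c.2 h.hr h.good
      rw [card_SS h (by omega) C] at hb
      exact I.be5_le h C hi1 h3 (by omega)) t (mem_tops t)
  rwa [bb_eq h (by omega), VV_eq h (by omega)] at h1

/-- no flip -/
theorem no_flip {t : Tops P} {lo hi : ℕ → ℕ} {e : ℕ → ℕ → P} (C : Cp.Comp j (t : P) lo hi e) :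
    ¬ Flip lo hi i := by
  intro hf
  have h1 := I.be5_flip h C hi1 h3 (by have := hf.1; omega) hf
  have h2 := be5_all I h hi1 h3 t
  omega

/-- (6,2) -/
theorem al3_sq_all (t : Tops P) : (I2.al 3 (st i (SS i t)).card (ZS i (SS i t))) ^ 2 =
    2 * be 6 (st i (SS i t)).card (ZS i (SS i t)) := by
  have hr := h.hr
  have h1 := al3_sq h.H (by omega) (show i + 3 ≤ j by omega)
    (fun m _ hm => h.good m (by omega)) (split_gt h) (by
      intro c _
      rw [bb_eq h (by omega), VV_eq h (by omega)]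
      exact be5_all I h hi1 h3 c) (by
      intro c _ hb
      rw [bb_eq h (by omega)] at hb ⊢
      rw [VV_eq h (by omega)]
      obtain ⟨lo, hi, e, C⟩ := Cp.comp_exists h.H c.2 h.hr h.good
      rw [card_SS h (by omega) C] at hb
      have hf := no_flip I h hi1 h3 C
      rw [al3_SS h hi1 h3 C hf]
      exact I.be6_le h C hi1 h3 (by omega) hf) t (mem_tops t)
  rwa [bb_eq h (by omega), VV_eq h (by omega)] at h1

/-- (3,1) -/
theorem al3_all (t : Tops P) : I2.al 3 (st i (SS i t)).card (ZS i (SS i t)) = 0 := by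
  have h1 := al3_sq_all I h hi1 h3 t
  rcases Nat.lt_or_ge (st i (SS i t)).card 3 with h2 | h2
  · rw [be_zero_small h.H (SS_part h (by omega) (by omega) t) (by omega), mul_zero] at h1
    exact pow_eq_zero_iff (two_ne_zero) |>.1 h1
  · obtain ⟨lo, hi, e, C⟩ := Cp.comp_exists h.H t.2 h.hr h.good
    rw [card_SS h (by omega) C] at h2
    have hf := no_flip I h hi1 h3 C
    rw [al3_SS h hi1 h3 C hf] at h1 ⊢
    by_contra hne
    have h4 := I.be6_al h C hi1 h3 (by omega) hf (by omega)
    omega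

/-- all components are clean at energy 3 -/
theorem cln_three : Cln P i 3 := by
  intro t
  have hr := h.hr
  have h1 := prof35 h.H (by omega) (show i + 2 ≤ j by omega)
    (fun m _ hm => h.good m (by omega)) (split_gt h) (mem_tops t)
  rw [bb_eq h (by omega), VV_eq h (by omega)] at h1
  have h2 := al_zero (h1.mid 3 (by omega)) (al3_all I h hi1 h3 t)
  rwa [coeff_ZS] at h2

end three

/-- all components are clean at the energies 1, 2 -/
theorem cln_two (h : GoodTo P r j) (h2 : i + 2 ≤ j) {n : ℕ} (hn1 : 1 ≤ n) (hn : n ≤ 2) :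
    Cln P i n := by
  intro t
  have hr := h.hr
  have h1 := indiv_two h.H (by omega) (show i + 2 ≤ j by omega)
    (fun m _ hm => h.good m (by omega)) (split_gt h) (mem_tops t) hn1
  rw [cext_eq h (show i ≤ j by omega)] at h1
  rwa [show (st i (SS i t)).card + 1 - (n + 1) / 2 = (st i (SS i t)).card by omega] at h1

/-- THE LAWS WITH `E ≤ 3` -/
theorem laws3 (I : SO P r) (h : GoodTo P r j) {t : Tops P} {lo hi : ℕ → ℕ} {e : ℕ → ℕ → P}
    (C : Cp.Comp j (t : P) lo hi e) : Laws3 lo hi j where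
  lo_zero := C.lo_zero
  hi_zero := C.hi_zero
  lo_step := C.lo_step
  hi_step := C.hi_step
  lo_le := C.lo_le
  two := fun i hi2 => (law_two h t.2 C hi2).1
  two_le := fun i hi2 => (law_two h t.2 C hi2).2
  two4 := fun i hi1 hi2 hb => law_two4 h t.2 C hi1 hi2 hb
  thr := by
    intro i hi1 h3 _
    have hf := no_flip I h hi1 h3 C
    have h1 := al3_all I h hi1 h3 t
    rw [al3_SS h hi1 h3 C hf] at h1
    omega
  be5 := fun i hi1 h3 => no_flip I h hi1 h3 C
  be6 := by
    intro i hi1 h3 hb hb2 hc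
    have hf := no_flip I h hi1 h3 C
    have h1 := I.be6_cco h C hi1 h3 hb hb2 hc hf
    have h2 := al3_sq_all I h hi1 h3 t
    rw [al3_SS h hi1 h3 C hf] at h2
    omega

end Pool.Agent.GaussPoset.Wd

end

/-! From `Pool.Agent.W_448so_h63.EB` -/

section

/-!
S9 (row 476): the second order input `Wd.SO` for the windows `i + 3 ≤ j`.
-/

set_option autoImplicit false

namespace Pool.Agent.GaussPoset.Win

set_option linter.unusedSectionVars false

open Finset

universe u

variable {P : Type u} [Fintype P] [PartialOrder P] [DecidableEq P] {r i j : ℕ} {t : P}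
  {lo hi : ℕ → ℕ} {x : ℕ → ℕ → P} {S : Finset P} {psi : P → P}

/-- the data of a natural component, energy five -/
theorem pt_nat (h : GoodTo P r j) (C : Comp P t j lo hi x) (ht : lev t = 0) (hi1 : 1 ≤ i)
    (h3 : i + 2 ≤ j) (hS : ∀ y, lev y ≤ i + 2 → (y ∈ S ↔ y ≤ t)) (hP : Part (i + 1) S)
    (hM : Mat P i ∅ psi) : SO.PT r i psi S := by
  have K := cm5_of h C ht hi1 h3 hS hP
  refine ⟨K.ps5 hM, ?_, ?_⟩
  · obtain ⟨hc1, hc2⟩ := indiv_21 K.g i le_rfl t K.ht
    constructor
    · rintro ⟨p, hp, hpd⟩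
      have hpt := (hS p (lev_PD hpd).1.le).1 hp
      have h1 : (PDt i t).Nonempty := ⟨p, mem_PDt.2 ⟨hpd, hpt⟩⟩
      rw [← card_pos, hc2, card_pos] at h1
      obtain ⟨q, hq⟩ := h1
      obtain ⟨hq1, hqt⟩ := mem_PUt.1 hq
      have lq := lev_PU hq1
      exact ⟨q, (hS q (by omega)).2 hqt, hq1⟩
    · rintro ⟨p, hp, hpd⟩
      have lp := lev_PU hpd
      have hpt := (hS p (by omega)).1 hp
      have h1 : (PUt i t).Nonempty := ⟨p, mem_PUt.2 ⟨hpd, hpt⟩⟩
      rw [← card_pos, ← hc2, card_pos] at h1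
      obtain ⟨q, hq⟩ := h1
      obtain ⟨hq1, hqt⟩ := mem_PDt.1 hq
      exact ⟨q, (hS q (lev_PD hq1).1.le).2 hqt, hq1⟩
  · intro p hp p' hp' y u h1 h2 h3' h4
    by_cases hf : Flip lo hi i
    · right
      rw [C.card_st (by omega) (fun y hy => hS y (by omega))]
      have := hf.1
      omega
    · left
      have K6 := cm6_of h C ht hi1 h3 hS hP hf
      have l2 := lev_PU h2
      have hs := K6.fl p h1 ((hS p (lev_PD h1).1.le).1 hp) p' h2 ((hS p' (by omega)).1 hp')
      rw [ClE_sts K.g.H (lev_PD h1).1 h3', ClE_stD K.g.H l2.1 h4] at hs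
      obtain ⟨hl, hc, w, hw, hw2⟩ := mem_PD.1 h1
      have hwy : w = y := by
        rw [← mem_uc, h3', mem_singleton] at hw
        exact hw
      subst hwy
      have hlw := lev_cov K.g.H hw
      exact psi_eq_of K.g hM (by omega) hw2 hs.symm

/-- THE SECOND ORDER VALUE of a natural component at energy five -/
theorem be5_nat (h : GoodTo P r j) (C : Comp P t j lo hi x) (ht : lev t = 0) (hi1 : 1 ≤ i)
    (h3 : i + 2 ≤ j) (hS : ∀ y, lev y ≤ i + 2 → (y ∈ S ↔ y ≤ t)) (hP : Part (i + 1) S) :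
    2 * I2.be 5 (st i S).card (ZS i S) =
      - ((SO.O5 i S).card : ℤ) - 2 * ((SO.F5 i S).card : ℤ) := by
  obtain ⟨psi, hM⟩ := good_mat h.H (h.good i (by omega))
  have Q := pt_nat h C ht hi1 h3 hS hP hM
  have hc := C.card_st (i := i) (S := S) (by omega) (fun y hy => hS y (by omega))
  have hl := C.lohi i (by omega)
  exact Q.five (by omega)

/-- the flip at a window with three sites gives an element of `F5` -/
theorem F5_flip (h : GoodTo P r j) (C : Comp P t j lo hi x) (ht : lev t = 0) (hi1 : 1 ≤ i)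
    (h3 : i + 2 ≤ j) (hS : ∀ y, lev y ≤ i + 2 → (y ∈ S ↔ y ≤ t)) (hf : Flip lo hi i) :
    (SO.F5 i S).Nonempty := by
  obtain ⟨hb, hf⟩ := hf
  have hi2 : 2 ≤ i := by rcases hf with ⟨g, -⟩ | ⟨g, -⟩ <;> exact g.1
  obtain ⟨k, rfl⟩ : ∃ k, i = k + 2 := ⟨i - 2, by omega⟩
  have e0 := C.lohi k (by omega)
  have e2 := C.lohi (k + 2 + 2) (by omega)
  have i1 : k + 2 - 1 = k + 1 := by omega
  have i2 : k + 2 - 2 = k := by omega
  have n1 := C.inj (k + 2) (by omega) (lo (k + 2)) (lo (k + 2) + 1) (by omega) (by omega) (by omega)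
  have n2 := C.inj (k + 2) (by omega) (lo (k + 2)) (lo (k + 2) + 2) (by omega) (by omega) (by omega)
  have n3 := C.inj (k + 2) (by omega) (lo (k + 2) + 1) (lo (k + 2) + 2) (by omega) (by omega)
    (by omega)
  have hinter : ∀ {s s' : Finset P}, (s = {x (k + 2) (lo (k + 2)), x (k + 2) (lo (k + 2) + 1)} ∧
      s' = {x (k + 2) (lo (k + 2) + 1), x (k + 2) (lo (k + 2) + 2)}) ∨
      (s' = {x (k + 2) (lo (k + 2)), x (k + 2) (lo (k + 2) + 1)} ∧
      s = {x (k + 2) (lo (k + 2) + 1), x (k + 2) (lo (k + 2) + 2)}) → (s ∩ s').card = 1 := by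
    intro s s' hs
    rw [card_eq_one]
    refine ⟨x (k + 2) (lo (k + 2) + 1), ?_⟩
    rcases hs with ⟨rfl, rfl⟩ | ⟨rfl, rfl⟩
    · ext v
      simp only [mem_inter, mem_insert, mem_singleton]
      constructor
      · rintro ⟨h5 | h5, h6 | h6⟩
        · exact h6
        · rw [h5] at h6
          exact absurd h6 n2
        · exact h5
        · exact h5
      · rintro rfl
        exact ⟨Or.inr rfl, Or.inl rfl⟩
    · ext v
      simp only [mem_inter, mem_insert, mem_singleton]
      constructor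
      · rintro ⟨h5 | h5, h6 | h6⟩
        · exact h5
        · exact h5
        · rw [h5] at h6
          exact absurd h6.symm n2
        · exact h6
      · rintro rfl
        exact ⟨Or.inl rfl, Or.inr rfl⟩
  rcases hf with ⟨hu, hd⟩ | ⟨hu, hd⟩
  · -- left pendant above, right pendant below
    have m1 : x (k + 2 + 2) (hi (k + 2 + 2)) ∈ PD P (k + 2) :=
      (C.mem_PD_iff h ht (by omega) e2 le_rfl).2 (Or.inr ⟨rfl, hd⟩)
    have m2 : x k (lo k) ∈ PU P (k + 2) :=
      (C.mem_PU_iff h ht (by omega) le_rfl e0).2 (Or.inl ⟨rfl, hu⟩)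
    have t1 := C.le_t (k + 2 + 2) (by omega) _ e2 le_rfl
    have t2 := C.le_t k (by omega) _ le_rfl e0
    have l1 := lev_PD m1
    have l2 := lev_PU m2
    have s1 : sit (k + 2) (x k (lo k)) =
        {x (k + 2) (lo (k + 2)), x (k + 2) (lo (k + 2) + 1)} := by
      rw [sit_upp h.H (by omega)]
      obtain ⟨-, g | g⟩ := C.PU_cases h ht (by omega) m2 t2
      · exact g.2.2.2
      · exfalso
        obtain ⟨g1, g2, g3, g4⟩ := g
        have h5 := C.inj' (by omega) le_rfl e0 e0 le_rfl g3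
        obtain ⟨-, a1, a2, a3⟩ := hu
        rw [i1, i2] at a1
        rw [i1] at a2
        omega
    have s2 : sit (k + 2) (x (k + 2 + 2) (hi (k + 2 + 2))) =
        {x (k + 2) (lo (k + 2) + 1), x (k + 2) (lo (k + 2) + 2)} := by
      rw [sit_low h.H (by omega)]
      obtain ⟨-, g | g⟩ := C.PD_cases h ht (by omega) m1 t1
      · exfalso
        obtain ⟨g1, g2, g3, g4⟩ := g
        have h5 := C.inj' (by omega) e2 le_rfl le_rfl e2 g3
        obtain ⟨a1, a2, a3⟩ := hd
        omega
      · rw [g.2.2.2, hb]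
        rfl
    have k1 := (hS (x (k + 2 + 2) (hi (k + 2 + 2))) (by omega)).2 t1
    have k2 := (hS (x k (lo k)) (by omega)).2 t2
    exact ⟨(x (k + 2 + 2) (hi (k + 2 + 2)), x k (lo k)),
      SO.mem_F5.2 ⟨k1, m1, k2, m2, hinter (Or.inr ⟨s1, s2⟩)⟩⟩
  · -- right pendant above, left pendant below
    have m1 : x (k + 2 + 2) (lo (k + 2 + 2)) ∈ PD P (k + 2) :=
      (C.mem_PD_iff h ht (by omega) le_rfl e2).2 (Or.inl ⟨rfl, hd⟩)
    have m2 : x k (hi k) ∈ PU P (k + 2) :=
      (C.mem_PU_iff h ht (by omega) e0 le_rfl).2 (Or.inr ⟨rfl, hu⟩)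
    have t1 := C.le_t (k + 2 + 2) (by omega) _ le_rfl e2
    have t2 := C.le_t k (by omega) _ e0 le_rfl
    have l1 := lev_PD m1
    have l2 := lev_PU m2
    have s1 : sit (k + 2) (x (k + 2 + 2) (lo (k + 2 + 2))) =
        {x (k + 2) (lo (k + 2)), x (k + 2) (lo (k + 2) + 1)} := by
      rw [sit_low h.H (by omega)]
      obtain ⟨-, g | g⟩ := C.PD_cases h ht (by omega) m1 t1
      · exact g.2.2.2
      · exfalso
        obtain ⟨g1, g2, g3, g4⟩ := g
        have h5 := C.inj' (by omega) le_rfl e2 e2 le_rfl g3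
        obtain ⟨a1, a2, a3⟩ := hd
        omega
    have s2 : sit (k + 2) (x k (hi k)) =
        {x (k + 2) (lo (k + 2) + 1), x (k + 2) (lo (k + 2) + 2)} := by
      rw [sit_upp h.H (by omega)]
      obtain ⟨-, g | g⟩ := C.PU_cases h ht (by omega) m2 t2
      · exfalso
        obtain ⟨g1, g2, g3, g4⟩ := g
        have h5 := C.inj' (by omega) e0 le_rfl le_rfl e0 g3
        obtain ⟨-, a1, a2, a3⟩ := hu
        rw [i1, i2] at a1
        rw [i1] at a2
        omega
      · rw [g.2.2.2, hb]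
        rfl
    have k1 := (hS (x (k + 2 + 2) (lo (k + 2 + 2))) (by omega)).2 t1
    have k2 := (hS (x k (hi k)) (by omega)).2 t2
    exact ⟨(x (k + 2 + 2) (lo (k + 2 + 2)), x k (hi k)),
      SO.mem_F5.2 ⟨k1, m1, k2, m2, hinter (Or.inl ⟨s1, s2⟩)⟩⟩

/-- THE INPUT of the laws: second order coefficients of natural components -/
theorem SO_holds (P : Type u) [Fintype P] [PartialOrder P] [DecidableEq P] (r : ℕ) :
    Wd.SO P r where
  be5_le := by
    intro j i t lo hi e h C hi1 h3 hb
    have W := C.toWin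
    have h1 := be5_nat h W t.2 hi1 (by omega)
      (fun y hy => (Wd.SS_ext h (show i ≤ j by omega) t).mem y (by omega))
      (Wd.SS_part h (by omega) (by omega) t)
    omega
  be5_flip := by
    intro j i t lo hi e h C hi1 h3 hb hf
    have W := C.toWin
    have hS : ∀ y, lev y ≤ i + 2 → (y ∈ Wd.SS i t ↔ y ≤ (t : P)) :=
      fun y hy => (Wd.SS_ext h (show i ≤ j by omega) t).mem y (by omega)
    have h1 := be5_nat h W t.2 hi1 (by omega) hS (Wd.SS_part h (by omega) (by omega) t)
    have h2 := F5_flip h W t.2 hi1 (by omega) hS hf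
    rw [← card_pos] at h2
    omega
  be6_le := by
    intro j i t lo hi e h C hi1 h3 hb hf
    have W := C.toWin
    have h1 := be6_nat h W t.2 hi1 h3
      (fun y hy => (Wd.SS_ext h (show i ≤ j by omega) t).mem y (by omega))
      (Wd.SS_part h (by omega) (by omega) t) hf
    have h2 := sq_nonneg ((Wd.flw lo hi i : ℤ) - Wd.fuw lo hi i)
    omega
  be6_al := by
    intro j i t lo hi e h C hi1 h3 hb hf hne
    have W := C.toWin
    have h1 := be6_nat h W t.2 hi1 h3
      (fun y hy => (Wd.SS_ext h (show i ≤ j by omega) t).mem y (by omega))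
      (Wd.SS_part h (by omega) (by omega) t) hf
    have h2 : 0 < ((Wd.flw lo hi i : ℤ) - Wd.fuw lo hi i) ^ 2 := by
      apply sq_pos_of_ne_zero
      intro h3
      apply hne
      omega
    omega
  be6_cco := by
    intro j i t lo hi e h C hi1 h3 hb hlt hc hf
    have W := C.toWin
    have hS : ∀ y, lev y ≤ i + 3 → (y ∈ Wd.SS i t ↔ y ≤ (t : P)) :=
      fun y hy => (Wd.SS_ext h (show i ≤ j by omega) t).mem y (by omega)
    have h1 := be6_nat h W t.2 hi1 h3 hS (Wd.SS_part h (by omega) (by omega) t) hf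
    have h2 := N1f_cco h W t.2 h3 hS hb hc
    rw [← card_pos] at h2
    have h4 := sq_nonneg ((Wd.flw lo hi i : ℤ) - Wd.fuw lo hi i)
    omega

end Pool.Agent.GaussPoset.Win

end

/-! From `Pool.Agent.W_448so_h63.FK` -/

section

/-!
S9 with Z2 (MP_448cb3_co): the window `i` when the level `i + 2` is known (joins on the level `i + 3`):
the number of joins of two pendants is the number of flips.
-/

set_option autoImplicit false

namespace Pool.Agent.GaussPoset.Win.So

set_option linter.unusedSectionVars false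

open Finset I2

universe u

variable {P : Type u} [Fintype P] [PartialOrder P] [DecidableEq P] {r i j : ℕ}

variable {ι : Type*} [DecidableEq ι] {κ : P → ι}

/-- TOTAL (5,2) from the profiles up to the energy five -/
theorem tot_five_P (H : Gr P r) (hi : 1 ≤ i) (hi2 : i + 1 ≤ r) (hg : Good P i)
    (hκ : Split (i + 2) κ) (hb : 1 ≤ (lv P i).card)
    (hP : ∀ a ∈ univ.image κ, Prof 3 5 (bb i (i + 2) κ a) (VV i (i + 2) κ a)) :
    ∑ a ∈ univ.image κ, be 5 (bb i (i + 2) κ a) (VV i (i + 2) κ a) = -((Z2s i κ).card : ℤ) := by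
  obtain ⟨-, -, -, h4⟩ := prod_all (univ.image κ) (e := 3) (m := 5) (by omega) (by omega)
    (by omega) (bb i (i + 2) κ) (VV i (i + 2) κ) hP (fun a _ => eps_sq H (by omega) a)
  have h5 := cf5_prod H hi hi2 hg hκ hb
  rw [cf_five] at h5
  rw [sum_bb hκ, eps_prod H (by omega) hκ, h5] at h4
  simp only [show (5 : ℕ) ≠ 2 * 3 from by norm_num, if_false, eps_VV H (show i ≤ r by omega),
    one_mul, mul_zero, sub_zero, zero_sub] at h4
  rw [Finset.sum_neg_distrib, ← Finset.mul_sum] at h4
  linarith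

/-- THE NUMBER OF JOINS of two pendants, when the level `i + 2` is natural -/
theorem Z2_count (h : GoodTo P r (i + 2)) (hi1 : 1 ≤ i) :
    2 * ((Z2s i (topOf : P → Tops P)).card : ℤ) = ∑ t ∈ univ.image (topOf : P → Tops P),
      (((SO.O5 i (Wd.SS i t)).card : ℤ) + 2 * ((SO.F5 i (Wd.SS i t)).card : ℤ)) := by
  classical
  have H := h.H
  have hr := h.hr
  rcases isEmpty_or_nonempty P with hPe | ⟨⟨v0⟩⟩
  · have h1 : Z2s i (topOf : P → Tops P) = ∅ := eq_empty_iff_forall_notMem.2 fun v _ => hPe.false v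
    have h2 : (univ.image (topOf : P → Tops P)) = ∅ := by
      rw [image_eq_empty]
      exact univ_eq_empty
    rw [h1, h2]
    simp
  have hb : 1 ≤ (lv P i).card := by
    obtain ⟨lo, hi, e, C⟩ := Cp.comp_exists h.H (topOf v0).2 h.hr h.good
    have C' := C.toWin
    have f1 := C'.lohi i (by omega)
    exact card_pos.2 ⟨e i (lo i), mem_lv.2 (C'.lev_x i (by omega) (lo i) le_rfl f1)⟩
  have hκ : Split (i + 2) (topOf : P → Tops P) := Wd.split_gt h
  have key : ∀ t : Tops P, Prof 3 5 (st i (Wd.SS i t)).card (ZS i (Wd.SS i t)) ∧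
      2 * be 5 (st i (Wd.SS i t)).card (ZS i (Wd.SS i t)) =
      - ((SO.O5 i (Wd.SS i t)).card : ℤ) - 2 * ((SO.F5 i (Wd.SS i t)).card : ℤ) := by
    intro t
    obtain ⟨lo, hi, e, C⟩ := Cp.comp_exists h.H t.2 h.hr h.good
    obtain ⟨psi, hM⟩ := good_mat H (h.good i (by omega))
    have hS : ∀ y, lev y ≤ i + 2 → (y ∈ Wd.SS i t ↔ y ≤ (t : P)) :=
      fun y hy => (Wd.SS_ext h (by omega) t).mem y hy
    have hPt := Wd.SS_part h (k := i + 1) (show i ≤ i + 2 by omega) (by omega) t
    exact ⟨(pt_nat h C.toWin t.2 hi1 le_rfl hS hPt hM).prof5,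
      be5_nat h C.toWin t.2 hi1 le_rfl hS hPt⟩
  have h1 := tot_five_P H hi1 (by omega) (h.good i (by omega)) hκ hb (fun a _ => by
    rw [Wd.bb_eq h (by omega), Wd.VV_eq h (by omega)]
    exact (key a).1)
  have h2 : 2 * ∑ a ∈ univ.image (topOf : P → Tops P), be 5 (bb i (i + 2) topOf a)
      (VV i (i + 2) topOf a) = ∑ t ∈ univ.image (topOf : P → Tops P),
      (- ((SO.O5 i (Wd.SS i t)).card : ℤ) - 2 * ((SO.F5 i (Wd.SS i t)).card : ℤ)) := by
    rw [mul_sum]
    refine sum_congr rfl fun a _ => ?_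
    rw [Wd.bb_eq h (by omega), Wd.VV_eq h (by omega)]
    exact (key a).2
  rw [h1] at h2
  have h3 : ∑ t ∈ univ.image (topOf : P → Tops P),
      (((SO.O5 i (Wd.SS i t)).card : ℤ) + 2 * ((SO.F5 i (Wd.SS i t)).card : ℤ)) =
      -∑ t ∈ univ.image (topOf : P → Tops P),
      (- ((SO.O5 i (Wd.SS i t)).card : ℤ) - 2 * ((SO.F5 i (Wd.SS i t)).card : ℤ)) := by
    rw [← sum_neg_distrib]
    refine sum_congr rfl fun a _ => ?_
    ring
  rw [h3, ← h2]
  ring

/-- no closed pairs on a natural level -/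
lemma O5_empty (h : GoodTo P r (i + 2)) (t : Tops P) : SO.O5 i (Wd.SS i t) = ∅ := by
  classical
  rw [eq_empty_iff_forall_notMem]
  rintro ⟨w, w'⟩ hq
  rw [SO.mem_O5] at hq
  obtain ⟨h1, h2, h3, h4⟩ := hq
  simp only at h1 h2 h3 h4
  obtain ⟨h5, h6, h7⟩ := mem_ZL.1 h1
  obtain ⟨h5', h6', h7'⟩ := mem_ZL.1 h2
  have h8 := ucv_le_one h (v := w) (v' := w') (by omega) h3 (by omega)
  rw [← card_uc_inter, ← h4, inter_self] at h8
  have h9 := (up_le_four h.H h6).1
  omega

/-- flips of a natural component are flips of the window -/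
lemma F5_empty (h : GoodTo P r (i + 2)) (hi1 : 1 ≤ i) (t : Tops P) {lo hi : ℕ → ℕ}
    {x : ℕ → ℕ → P} (C : Comp P (t : P) (i + 2) lo hi x) (hf : ¬ Flip lo hi i) :
    SO.F5 i (Wd.SS i t) = ∅ := by
  classical
  rw [eq_empty_iff_forall_notMem]
  rintro ⟨p, p'⟩ hq
  rw [SO.mem_F5] at hq
  obtain ⟨h1, h2, h3, h4, h5⟩ := hq
  simp only at h1 h2 h3 h4 h5
  have hS : ∀ y, lev y ≤ i + 2 → (y ∈ Wd.SS i t ↔ y ≤ (t : P)) :=
    fun y hy => (Wd.SS_ext h (by omega) t).mem y hy
  have hPt := Wd.SS_part h (k := i + 1) (show i ≤ i + 2 by omega) (by omega) t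
  have K := cm6_of h C t.2 hi1 le_rfl hS hPt hf
  have l1 := (lev_PD h2).1
  have l2 := lev_PU h4
  have h6 := K.fl p h2 ((hS p (by omega)).1 h1) p' h4 ((hS p' (by omega)).1 h3)
  rw [sit_low h.H (by omega), sit_upp h.H (by omega), ← h6, inter_self, card_sts_PD h.H h2] at h5
  omega

/-- without flips there are no joins of two pendants -/
theorem Z2_empty (h : GoodTo P r (i + 2)) (hi1 : 1 ≤ i)
    (hf : ∀ t : Tops P, ∃ (lo hi : ℕ → ℕ) (x : ℕ → ℕ → P), Comp P (t : P) (i + 2) lo hi x ∧
      ¬ Flip lo hi i) : Z2s i (topOf : P → Tops P) = ∅ := by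
  have h1 := Z2_count h hi1
  rw [sum_eq_zero (fun t _ => ?_)] at h1
  · rw [← card_eq_zero]
    omega
  · obtain ⟨lo, hi, x, C, hfl⟩ := hf t
    rw [O5_empty h t, F5_empty h hi1 t C hfl]
    simp

end Pool.Agent.GaussPoset.Win.So

end

/-! From `Pool.Agent.W_448so_h63.FL` -/

section

/-!
S9 with Z2 (MP_448cb3_co): joins of two pendants, description by covers.
-/

set_option autoImplicit false

namespace Pool.Agent.GaussPoset.Win.So

set_option linter.unusedSectionVars false

open Finset I2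

universe u

variable {P : Type u} [Fintype P] [PartialOrder P] [DecidableEq P] {r i j : ℕ}

variable {ι : Type*} [DecidableEq ι] {κ : P → ι} {v p p' y y' x : P}

lemma not_cuni (D : CrV i κ v p p') (H : Gr P r) : v ∉ cuni (i + 2) κ := by
  unfold cuni
  rw [mem_biUnion]
  rintro ⟨a, -, ha⟩
  rw [mem_cext] at ha
  have h1 := ha p D.cp.le (D.lp H).le
  have h2 := ha p' D.symm.cp.le (D.lp' H).le
  exact D.ne (h1.trans h2.symm)

/-- a join of two pendants over disjoint pairs of sites -/
theorem ZD.mem (D : ZD i κ v p p' y y') (H : Gr P r) (hκ : Split (i + 2) κ) : v ∈ Z2s i κ := by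
  classical
  refine mem_Z2s.2 ⟨D.lv, not_cuni D.toCrV H, ?_, ?_⟩
  · rw [D.up1 H hκ, D.hp, D.hp', card_singleton, card_singleton]
  · rw [up_eq, ← D.four H hκ, ← D.sv H]
    congr 1
    ext z
    rw [mem_filter, mem_lv, mem_Sv]

/-- the same from the covers: the two covers are below different tops, each has only one cover, and
this cover has two covers -/
theorem mem_Z2s_join (h : GoodTo P r (i + 2)) (hv : lev v = i + 3) (h1 : uc v = {p, p'})
    (hne : topOf p ≠ topOf p') (h2 : uc p = {y}) (h2' : uc p' = {y'}) (h3 : (uc y).card = 2)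
    (h3' : (uc y').card = 2) : v ∈ Z2s i (topOf : P → Tops P) :=
  ZD.mem (⟨⟨hv, h1, hne⟩, h2, h2', h3, h3'⟩ : ZD i (topOf : P → Tops P) v p p' y y') h.H
    (Wd.split_gt h)

/-- THE NUMBER OF JOINS of two pendants is the number of flips -/
theorem Z2_card (h : GoodTo P r (i + 2)) (hi1 : 1 ≤ i) :
    (Z2s i (topOf : P → Tops P)).card =
      ∑ t ∈ univ.image (topOf : P → Tops P), (SO.F5 i (Wd.SS i t)).card := by
  have h1 := Z2_count h hi1
  have h2 : ∑ t ∈ univ.image (topOf : P → Tops P),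
      (((SO.O5 i (Wd.SS i t)).card : ℤ) + 2 * ((SO.F5 i (Wd.SS i t)).card : ℤ)) =
      2 * ∑ t ∈ univ.image (topOf : P → Tops P), ((SO.F5 i (Wd.SS i t)).card : ℤ) := by
    rw [mul_sum]
    refine sum_congr rfl fun t _ => ?_
    rw [O5_empty h t]
    simp
  rw [h2] at h1
  have h3 : ((Z2s i (topOf : P → Tops P)).card : ℤ) =
      ∑ t ∈ univ.image (topOf : P → Tops P), ((SO.F5 i (Wd.SS i t)).card : ℤ) := by linarith
  exact_mod_cast h3

end Pool.Agent.GaussPoset.Win.So

end

/-! From `Pool.Agent.W_448pn_h63.PnI` -/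

section

/-!
# Two crossing labels, the crossing numbers at the energies eight and ten (MP_448cb3_co, G2, case B,
window j - 1)
-/

set_option autoImplicit false

namespace Pool.Agent.GaussPoset.Win.Pn

set_option linter.unusedSectionVars false

open Finset So I2 T8

universe u

variable {P : Type u} [Fintype P] [PartialOrder P] [DecidableEq P] {r i l : ℕ}

variable {ι : Type*} [DecidableEq ι] {κ : P → ι} {e G : P → ℕ} {C : Finset P} {t t' : P → ℕ}
  {z p p' : P} {s : Finset P} {k : ℕ}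

open Classical in
/-- pairs of joins of pendants with `k` pendants; two pendants of one component have disjoint sites -/
noncomputable def PR (i : ℕ) (κ : P → ι) (k : ℕ) : Finset (Finset P) :=
  ((Z2s i κ).powersetCard 2).filter (fun s => (s.biUnion uc).card = k ∧
    ∀ w ∈ s.biUnion uc, ∀ w' ∈ s.biUnion uc, w ≠ w' → κ w = κ w' →
      Disjoint (sts i w) (sts i w'))

lemma mem_PR : s ∈ PR i κ k ↔ (s ⊆ Z2s i κ ∧ s.card = 2) ∧ (s.biUnion uc).card = k ∧
    ∀ w ∈ s.biUnion uc, ∀ w' ∈ s.biUnion uc, w ≠ w' → κ w = κ w' →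
      Disjoint (sts i w) (sts i w') := by
  classical
  unfold PR
  rw [mem_filter, mem_powersetCard]

/-- indicator -/
def indS (s : Finset P) : P → ℕ := fun x => if x ∈ s then 1 else 0

lemma indS_in {x : P} (h : x ∈ s) : indS s x = 1 := by unfold indS; rw [if_pos h]

lemma indS_out {x : P} (h : x ∉ s) : indS s x = 0 := by unfold indS; rw [if_neg h]

lemma indS_le (x : P) : indS s x ≤ 1 := by unfold indS; split_ifs <;> omega

/-- the good labels of total two -/
def G2 (i : ℕ) (κ : P → ι) (k : ℕ) (G : P → ℕ) : Prop :=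
  (pns (cuni (i + 2) κ) (th G)).card = k ∧ ∀ a ∈ univ.image κ, Gd i (cext (i + 2) κ a) (th G)

lemma th_pos {w : P} : 1 ≤ th G w ↔ ∃ z, z ⋖ w ∧ 1 ≤ G z := by
  constructor
  · intro hw
    by_contra hc
    push Not at hc
    have := (th_le (n := 0)).2 (fun z hz => Nat.lt_succ_iff.1 (hc z hz))
    omega
  · rintro ⟨z, hz, h⟩
    exact h.trans ((th_le (G := G) (w := w)).1 le_rfl z hz)

lemma Z2s_cov (H : Gr P r) (hκ : Split (i + 2) κ) (hz : z ∈ Z2s i κ) {w : P} (hw : w ∈ uc z) :
    w ∈ PD P i ∧ w ∈ cuni (i + 2) κ := by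
  obtain ⟨p, p', y, y', D⟩ := Z2s_ZD H hκ hz
  have lp := D.lp H
  have lp' := D.lp' H
  rw [D.cov, mem_insert, mem_singleton] at hw
  rcases hw with rfl | rfl
  · refine ⟨mem_PD.2 ⟨lp, by rw [D.hp, card_singleton], y, D.yp, D.c⟩, le_mem_cuni hκ lp.le⟩
  · refine ⟨mem_PD.2 ⟨lp', by rw [D.hp', card_singleton], y', D.yp', D.c'⟩,
      le_mem_cuni hκ lp'.le⟩

section two

variable (H : Gr P r) (hκ : Split (i + 2) κ)
include H hκ

lemma pns_indS (hs : s ⊆ Z2s i κ) : pns (cuni (i + 2) κ) (th (indS s)) = s.biUnion uc := by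
  ext w
  rw [mem_pns, th_pos, mem_biUnion]
  constructor
  · rintro ⟨-, z, hz, h1⟩
    refine ⟨z, ?_, mem_uc.2 hz⟩
    by_contra h
    rw [indS_out h] at h1
    omega
  · rintro ⟨z, hz, hw⟩
    exact ⟨(Z2s_cov H hκ (hs hz) hw).2, z, mem_uc.1 hw, by rw [indS_in hz]⟩

/-- a pair of joins gives good labels -/
lemma PR_good (hs : s ∈ PR i κ k) : indS s ∈ GG (i + 2) κ 2 ∧ G2 i κ k (indS s) := by
  classical
  obtain ⟨⟨h1, h2⟩, h3, h4⟩ := mem_PR.1 hs
  have hth : ∀ w, th (indS s) w ≤ 1 := fun w => th_le.2 fun z _ => indS_le z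
  refine ⟨?_, ?_, ?_⟩
  · unfold GG
    rw [mem_filter, mem_pa]
    refine ⟨⟨?_, fun x hx => indS_out fun h => ?_⟩, fun x => (indS_le x).trans (by omega), ?_⟩
    · unfold indS
      rw [Finset.sum_ite_mem, univ_inter, Finset.sum_const, smul_eq_mul, mul_one, h2]
    · exact hx (mem_Crs.2 (mem_Z2s.1 (h1 h)).2.1)
    · intro x y hxy hy
      rw [indS_out]
      · exact Nat.zero_le _
      · intro hx
        exact hy (Z2s_cov H hκ (h1 hx) (mem_uc.2 hxy)).2
  · rw [pns_indS H hκ h1, h3]
  · intro a ha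
    have key : ∀ w ∈ pns (cext (i + 2) κ a) (th (indS s)), w ∈ s.biUnion uc ∧ w ∈ PD P i ∧
        κ w = a := by
      intro w hw
      obtain ⟨hwa, h5⟩ := mem_pns.1 hw
      obtain ⟨z, hz, h6⟩ := th_pos.1 h5
      have hzs : z ∈ s := by
        by_contra h
        rw [indS_out h] at h6
        omega
      have h7 := (Z2s_cov H hκ (h1 hzs) (mem_uc.2 hz)).1
      exact ⟨mem_biUnion.2 ⟨z, hzs, mem_uc.2 hz⟩, h7, mem_cext.1 hwa w le_rfl (PD_lev h7).le⟩
    refine ⟨fun w hw => ⟨?_, (key w hw).2.1⟩, fun w hw w' hw' hne => ?_⟩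
    · have h5 := (mem_pns.1 hw).2
      have := hth w
      omega
    · exact h4 w (key w hw).1 w' (key w' hw').1 hne ((key w hw).2.2.trans (key w' hw').2.2.symm)

/-- good labels of total two come from a pair of joins -/
lemma good_PR (hk : 3 ≤ k) (hG : G ∈ GG (i + 2) κ 2) (h2 : G2 i κ k G) :
    ∃ s ∈ PR i κ k, indS s = G := by
  classical
  unfold GG at hG
  rw [mem_filter, mem_pa] at hG
  obtain ⟨⟨hsum, hspt⟩, hle, hmon⟩ := hG
  obtain ⟨hcard, hgd⟩ := h2
  have hpair : ∀ x y, x ≠ y → G x + G y ≤ 2 := by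
    intro x y hxy
    rw [← hsum, ← Finset.sum_pair hxy]
    exact Finset.sum_le_sum_of_subset (subset_univ _)
  have hcr : ∀ z, 1 ≤ G z → z ∉ cuni (i + 2) κ := by
    intro z hz h
    rw [hspt z (fun h' => mem_Crs.1 h' h)] at hz
    omega
  have hpin : ∀ w z, z ⋖ w → 1 ≤ G z → w ∈ cuni (i + 2) κ → w ∈ PD P i ∧ G z = 1 := by
    intro w z hz hG1 hw
    unfold cuni at hw
    rw [mem_biUnion] at hw
    obtain ⟨a, ha, hwa⟩ := hw
    have h5 := (th_le (G := G) (w := w)).1 le_rfl z hz
    have h6 := (hgd a ha).1 w (mem_pns.2 ⟨hwa, by omega⟩)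
    exact ⟨h6.2, by omega⟩
  -- labels at most one
  have hone : ∀ z, G z ≤ 1 := by
    intro z
    by_contra h
    have hz := hcr z (by omega)
    have hlz := (two_up H hκ hz).1
    obtain ⟨w, hw⟩ := uc_nonempty H (x := z) (by omega)
    by_cases hwc : w ∈ cuni (i + 2) κ
    · have := (hpin w z (mem_uc.1 hw) (by omega) hwc).2
      omega
    · have h3 := hmon z w (mem_uc.1 hw) hwc
      have h4 := hpair z w (mem_uc.1 hw).ne
      omega
  set s := univ.filter (fun z => G z = 1) with hs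
  have hms : ∀ z, z ∈ s ↔ G z = 1 := by
    intro z
    rw [hs, mem_filter]
    simp
  have hind : indS s = G := by
    funext z
    by_cases h : z ∈ s
    · rw [indS_in h, (hms z).1 h]
    · rw [indS_out h]
      have h1 := hone z
      have h2 : G z ≠ 1 := fun h' => h ((hms z).2 h')
      omega
  have hsc : s.card = 2 := by
    rw [← hsum, ← hind]
    unfold indS
    rw [Finset.sum_ite_mem, univ_inter, Finset.sum_const, smul_eq_mul, mul_one]
  -- no crossing cover
  have hnc : ∀ x ∈ s, ∀ y, x ⋖ y → y ∈ cuni (i + 2) κ := by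
    intro x hx y hxy
    by_contra hy
    have hGx := (hms x).1 hx
    have hGy := hmon x y hxy hy
    have hys : y ∈ s := (hms y).2 (by have := hone y; omega)
    have hss : s = {x, y} := by
      symm
      apply Finset.eq_of_subset_of_card_le
      · intro w hw
        rw [mem_insert, mem_singleton] at hw
        rcases hw with rfl | rfl
        · exact hx
        · exact hys
      · rw [hsc, Finset.card_pair hxy.ne]
    have hly := (two_up H hκ hy).1
    have h5 : pns (cuni (i + 2) κ) (th G) ⊆ uc y := by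
      intro w hw
      obtain ⟨hwc, hw1⟩ := mem_pns.1 hw
      obtain ⟨z, hz, hGz⟩ := th_pos.1 hw1
      have hzs : z ∈ s := (hms z).2 (by have := hone z; omega)
      rw [hss, mem_insert, mem_singleton] at hzs
      rcases hzs with h6 | h6
      · rw [h6] at hz
        have h7 := (hpin w x hz (by omega) hwc).1
        have h8 := PD_lev h7
        have h9 := lev_uc H (mem_uc.2 hz)
        have h10 := lev_uc H (mem_uc.2 hxy)
        omega
      · rw [h6] at hz
        exact mem_uc.2 hz
    have h6 := Finset.card_le_card h5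
    have h7 := uc_card_le H y
    omega
  have hZ : s ⊆ Z2s i κ := by
    intro x hx
    have hGx := (hms x).1 hx
    have hxc := hcr x (by omega)
    obtain ⟨p, p', a, a', huc, hpp, ha, ha', haa, hpa, hpa'⟩ :=
      z1s_covers H hκ (mem_z1s.2 ⟨hxc, hnc x hx⟩)
    have hp : x ⋖ p := mem_uc.1 (by rw [huc]; simp)
    have hp' : x ⋖ p' := mem_uc.1 (by rw [huc]; simp)
    have q := (hpin p x hp (by omega) (hnc x hx p hp)).1
    have q' := (hpin p' x hp' (by omega) (hnc x hx p' hp')).1
    have l1 := PD_lev q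
    have l1' := PD_lev q'
    have lx := lev_uc H (mem_uc.2 hp)
    obtain ⟨-, c1, y, hy, c2⟩ := mem_PD.1 q
    obtain ⟨-, c1', y', hy', c2'⟩ := mem_PD.1 q'
    have k1 : κ p = a := mem_cext.1 hpa p le_rfl (by omega)
    have k2 : κ p' = a' := mem_cext.1 hpa' p' le_rfl (by omega)
    have u1 : uc p = {y} := by
      obtain ⟨w, hw⟩ := card_eq_one.1 c1
      have := mem_uc.2 hy
      rw [hw, mem_singleton] at this
      rw [hw, this]
    have u2 : uc p' = {y'} := by
      obtain ⟨w, hw⟩ := card_eq_one.1 c1'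
      have := mem_uc.2 hy'
      rw [hw, mem_singleton] at this
      rw [hw, this]
    exact So.ZD.mem (⟨⟨by omega, huc, by rw [k1, k2]; exact haa⟩, u1, u2, c2, c2'⟩ :
      So.ZD i κ x p p' y y') H hκ
  have hpn := pns_indS H hκ hZ
  rw [hind] at hpn
  refine ⟨s, mem_PR.2 ⟨⟨hZ, hsc⟩, by rw [← hpn]; exact hcard, ?_⟩, hind⟩
  intro w hw w' hw' hne hk
  have key : ∀ w ∈ s.biUnion uc, w ∈ pns (cext (i + 2) κ (κ w)) (th G) := by
    intro w hw
    rw [← hpn] at hw
    obtain ⟨-, h1⟩ := mem_pns.1 hw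
    rw [hpn, mem_biUnion] at hw
    obtain ⟨z, hz, hzw⟩ := hw
    have h2 := PD_lev (Z2s_cov H hκ (hZ hz) hzw).1
    exact mem_pns.2 ⟨mem_cext_of_le hκ h2.le rfl, h1⟩
  have h1 := key w hw
  have h2 := key w' hw'
  rw [← hk] at h2
  exact (hgd (κ w) (mem_image_of_mem κ (mem_univ w))).2 w h1 w' h2 hne

lemma card_pns (t : P → ℕ) : ∑ a ∈ univ.image κ, (pns (cext (i + 2) κ a) t).card =
    (pns (cuni (i + 2) κ) t).card := by
  classical
  rw [← Finset.card_biUnion]
  · congr 1
    ext w
    unfold cuni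
    rw [mem_biUnion, mem_pns, mem_biUnion]
    constructor
    · rintro ⟨a, ha, h⟩
      obtain ⟨h1, h2⟩ := mem_pns.1 h
      exact ⟨⟨a, ha, h1⟩, h2⟩
    · rintro ⟨⟨a, ha, h1⟩, h2⟩
      exact ⟨a, ha, mem_pns.2 ⟨h1, h2⟩⟩
  · intro a _ b _ hab
    rw [Function.onFun, disjoint_left]
    intro w h1 h2
    exact disjoint_left.1 (disj_cext hab) (mem_pns.1 h1).1 (mem_pns.1 h2).1

variable (hPin : PinH i κ)
include hPin

/-- the product for any labels at most two outside the components -/
theorem PPS_HP {m : ℕ} (hG : G ∈ GG (i + 2) κ m) : HP (lv P i).card (PPS i (i + 2) κ G) := by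
  classical
  unfold GG at hG
  rw [mem_filter, mem_pa] at hG
  obtain ⟨⟨-, hspt⟩, hle, -⟩ := hG
  have h := prod_HP (univ.image κ) (bb i (i + 2) κ)
    (fun x => ZPS i (cext (i + 2) κ x) (th G))
    (fun a ha => hPin.hp a ha (th G) (fun w hw => th_far H hκ hspt hw)
      (fun w => th_le.2 fun z _ => hle z))
  rw [sum_bb hκ] at h
  exact h

open Classical in
/-- the product for labels at most one outside the components -/
theorem PPS_Mo {m : ℕ} (hG : G ∈ GG (i + 2) κ m) (h1 : ∀ z, G z ≤ 1) :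
    Mo (lv P i).card (PPS i (i + 2) κ G) (pns (cuni (i + 2) κ) (th G)).card
      (if ∀ a ∈ univ.image κ, Gd i (cext (i + 2) κ a) (th G) then 1 else 0) := by
  unfold GG at hG
  rw [mem_filter, mem_pa] at hG
  obtain ⟨⟨-, hspt⟩, hle, -⟩ := hG
  have h := (prod_Mo (univ.image κ) (bb i (i + 2) κ)
    (fun x => ZPS i (cext (i + 2) κ x) (th G)) (fun x => (pns (cext (i + 2) κ x) (th G)).card)
    (fun x => if Gd i (cext (i + 2) κ x) (th G) then 1 else 0)
    (fun a ha => hPin.mo a ha (th G) (fun w hw => th_far H hκ hspt hw)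
      (fun w => th_le.2 fun z _ => hle z) (fun w _ _ => th_le.2 fun z _ => h1 z))).1
  rw [sum_bb hκ, card_pns H hκ] at h
  have hc : ∏ x ∈ univ.image κ, (if Gd i (cext (i + 2) κ x) (th G) then (1 : ℤ) else 0) =
      if ∀ a ∈ univ.image κ, Gd i (cext (i + 2) κ a) (th G) then 1 else 0 := by
    rw [Finset.prod_ite_zero, Finset.prod_const_one]
  rw [hc] at h
  exact h

/-- a label two: no even leading coefficient -/
theorem PPS_two (hT : NoTT i κ) (hG : G ∈ GG (i + 2) κ 2) {z : P} (hz2 : 2 ≤ G z) {m : ℕ}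
    (hm : m ≤ 4) : hc (2 * m) (lv P i).card (PPS i (i + 2) κ G) = 0 := by
  classical
  have hG0 := hG
  unfold GG at hG
  rw [mem_filter, mem_pa] at hG
  obtain ⟨⟨hsum, hspt⟩, hle, hmon⟩ := hG
  have hoth : ∀ y, y ≠ z → G y = 0 := by
    intro y hy
    have h1 : G y + G z ≤ 2 := by
      rw [← hsum, ← Finset.sum_pair hy]
      exact Finset.sum_le_sum_of_subset (subset_univ _)
    omega
  have hzc : z ∉ cuni (i + 2) κ := by
    intro h
    rw [hspt z (fun h' => mem_Crs.1 h' h)] at hz2
    omega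
  have hz1 : z ∈ z1s (i + 2) κ := by
    refine mem_z1s.2 ⟨hzc, fun y hy => ?_⟩
    by_contra h
    have h1 := hmon z y hy h
    rw [hoth y hy.ne'] at h1
    omega
  obtain ⟨p, hp, hpT⟩ := hT z hz1
  have hpc := (mem_z1s.1 hz1).2 p (mem_uc.1 hp)
  unfold cuni at hpc
  rw [mem_biUnion] at hpc
  obtain ⟨a, ha, hpa⟩ := hpc
  have hfar : ∀ w, 1 ≤ th G w → i + 2 ≤ lev w := fun w hw => th_far H hκ hspt hw
  have hle' : ∀ w, th G w ≤ 2 := fun w => th_le.2 fun z _ => hle z
  have hcov : ∀ w ∈ cext (i + 2) κ a, 1 ≤ th G w → w = p := by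
    intro w hw h1
    obtain ⟨y, hy, hy1⟩ := th_pos.1 h1
    have hyz : y = z := by
      by_contra h
      rw [hoth y h] at hy1
      omega
    rw [hyz] at hy
    obtain ⟨p1, p2, a1, a2, huc, -, -, -, haa, h3, h4⟩ := z1s_covers H hκ hz1
    have hw' := mem_uc.2 hy
    rw [huc, mem_insert, mem_singleton] at hw' hp
    have hd : ∀ {x b c}, x ∈ cext (i + 2) κ b → x ∈ cext (i + 2) κ c → b = c := by
      intro x b c hb hc
      by_contra h
      exact disjoint_left.1 (disj_cext h) hb hc
    rcases hw' with h5 | h5 <;> rcases hp with h6 | h6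
    · rw [h5, h6]
    · rw [h5] at hw
      rw [h6] at hpa
      exact absurd ((hd h3 hw).trans (hd hpa h4)) haa
    · rw [h5] at hw
      rw [h6] at hpa
      exact absurd ((hd h3 hpa).trans (hd hw h4)) haa
    · rw [h5, h6]
  have h2p : 2 ≤ th G p := hz2.trans ((th_le (G := G) (w := p)).1 le_rfl z (mem_uc.1 hp))
  have hM := hPin.mo a ha (th G) hfar hle' (fun w hw hT => by
    by_contra h
    have := hcov w hw (by omega)
    rw [this] at hT
    exact hpT hT)
  have hnG : ¬ Gd i (cext (i + 2) κ a) (th G) := by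
    intro h
    have := (h.1 p (mem_pns.2 ⟨hpa, by omega⟩)).1
    omega
  rw [if_neg hnG] at hM
  have h := prod_even_zero (univ.image κ) (bb i (i + 2) κ)
    (fun x => ZPS i (cext (i + 2) κ x) (th G)) (fun b hb => hPin.hp b hb (th G) hfar hle') ha
    (fun m hm => by rw [hM.ev m hm, ite_self]) hm
  rw [sum_bb hκ] at h
  exact h

/-- THE SUM over the labels of total two -/
theorem sum_two (hT : NoTT i κ) (hk : 3 ≤ k) (hk' : k ≤ 4) :
    ∑ G ∈ GG (i + 2) κ 2, hc (2 * k) (lv P i).card (PPS i (i + 2) κ G) =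
      ((PR i κ k).card : ℤ) := by
  classical
  have h1 : ∀ G ∈ GG (i + 2) κ 2, hc (2 * k) (lv P i).card (PPS i (i + 2) κ G) =
      if G2 i κ k G then 1 else 0 := by
    intro G hG
    by_cases hone : ∀ z, G z ≤ 1
    · rw [(PPS_Mo H hκ hPin hG hone).ev k hk']
      unfold G2
      by_cases c1 : k = (pns (cuni (i + 2) κ) (th G)).card
      · rw [if_pos c1]
        simp only [c1.symm, true_and]
      · rw [if_neg c1, if_neg]
        exact fun h => c1 h.1.symm
    · have hone' := hone
      push Not at hone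
      obtain ⟨z, hz⟩ := hone
      rw [PPS_two H hκ hPin hT hG (z := z) (by omega) hk', if_neg]
      intro h
      obtain ⟨s, -, hs⟩ := good_PR H hκ hk hG h
      apply hone'
      intro y
      rw [← hs]
      exact indS_le y
  rw [Finset.sum_congr rfl h1, ← Finset.sum_filter, Finset.sum_const, nsmul_eq_mul, mul_one]
  congr 1
  symm
  refine Finset.card_bij (fun s _ => indS s) ?_ ?_ ?_
  · intro s hs
    rw [mem_filter]
    exact PR_good H hκ hs
  · intro s _ s' _ h
    ext x
    have h1 := congrFun h x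
    by_cases hx : x ∈ s
    · by_cases hx' : x ∈ s'
      · exact iff_of_true hx hx'
      · rw [indS_in hx, indS_out hx'] at h1
        omega
    · by_cases hx' : x ∈ s'
      · rw [indS_out hx, indS_in hx'] at h1
        omega
      · exact iff_of_false hx hx'
  · intro G hG
    rw [mem_filter] at hG
    obtain ⟨s, hs, h⟩ := good_PR H hκ hk hG.1 hG.2
    exact ⟨s, hs, h⟩

end two

section final

variable (H : Gr P r) (hi : 1 ≤ i) (hi2 : i + 1 ≤ r) (hg : Good P i) (hκ : Split (i + 2) κ)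
  (hb : 1 ≤ (lv P i).card) (hPin : PinH i κ) (hT : NoTT i κ)
include H hi hi2 hκ hb hPin hT

/-- THE CROSSING NUMBER at the energy eight -/
theorem XX_eight' : XX i κ 8 = ∑ z ∈ X3 i κ, WW i κ 3 z + ((PR i κ 3).card : ℤ) := by
  rw [XX_eight H hi hi2 hκ hb (fun m G _ hG => PPS_HP H hκ hPin hG)]
  have h1 := sum_one H hκ hPin (m := 3) (by omega) (by omega)
  have h2 := sum_two H hκ hPin hT (k := 3) (by omega) (by omega)
  rw [← h1, ← h2]

include hg in
/-- THE CROSSING NUMBER at the energy ten -/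
theorem XX_ten' : XX i κ 10 = ∑ z ∈ X3 i κ, WW i κ 4 z + ((PR i κ 4).card : ℤ) +
    ((N5s i κ).card : ℤ) := by
  rw [XX_ten H hi hi2 hg hκ hb (fun m G _ hG => PPS_HP H hκ hPin hG)]
  have h1 := sum_one H hκ hPin (m := 4) (by omega) (by omega)
  have h2 := sum_two H hκ hPin hT (k := 4) (by omega) (by omega)
  rw [← h1, ← h2]

end final

end Pool.Agent.GaussPoset.Win.Pn

end

/-! From `Pool.Agent.W_448wd_h84.WdN` -/

section

/-!
# MP_448cb3_co, case B: the laws with the last level `j + 1`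

`NJ P r j`: the levels less than `j` are good and no element of level `j + 1` is below two maximal
elements.  Then the laws (5,2), (3,1), (6,2) hold for every component also at the window `j - 2`, with the
level `j + 1` arbitrary.
-/

namespace Pool.Agent.GaussPoset.Wd

set_option linter.unusedSectionVars false

open Finset Win Win.I2

universe u

variable {P : Type u} [Fintype P] [PartialOrder P] [DecidableEq P] {r j i k : ℕ}

/-- CASE B -/
structure NJ (P : Type u) [Fintype P] [PartialOrder P] [DecidableEq P] (r j : ℕ) : Prop where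
  g : GoodTo P r j
  hr : j + 1 ≤ r
  no : ∀ z : P, lev z = j + 1 → ¬ Hul.Jn z

lemma NJ.nj (h : NJ P r j) {z : P} (hz : lev z ≤ j + 1) : ¬ Hul.Jn z := by
  rcases Nat.lt_or_ge (lev z) (j + 1) with h1 | h1
  · exact h.g.no_join z (by omega)
  · exact h.no z (by omega)

theorem NJ.split (h : NJ P r j) : Split (j + 1) (topOf : P → Tops P) := by
  intro v y hvy hv
  refine Subtype.ext ?_
  exact Hul.top_unique (h.nj hv) (topOf v).2 (topOf y).2 (le_topOf v) (hvy.le.trans (le_topOf y))

/-- the extended component does not depend on the level of the decomposition -/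
lemma NJ.cext_eq (h : NJ P r j) (hij : i ≤ j + 1) (t : Tops P) :
    cext (j + 1) (topOf : P → Tops P) t = SS i t := by
  unfold SS
  ext x
  rw [mem_cext, mem_cext]
  constructor
  · intro hx y hy hl
    exact hx y hy (hl.trans hij)
  · intro hx y hy hl
    rcases Nat.lt_or_ge (lev y) i with h1 | h1
    · exact hx y hy h1.le
    · obtain ⟨y', hy', hl'⟩ := exists_above' (x := y) (j := i) h1
      rw [Split.le h.split (y := y') y hy' hl]
      exact hx y' (hy.trans hy') hl'.le

lemma NJ.mem (h : NJ P r j) (hij : i ≤ j + 1) (t : Tops P) {y : P} (hy : lev y ≤ j + 1) :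
    y ∈ SS i t ↔ y ≤ (t : P) := by
  rw [← h.cext_eq hij t, mem_cext]
  constructor
  · intro h1
    have h2 := h1 y le_rfl hy
    rw [← h2]
    exact le_topOf y
  · intro h1 z hz hlz
    refine Subtype.ext ?_
    exact Hul.top_unique (h.nj hy) (topOf z).2 t.2 (hz.trans (le_topOf z)) h1

lemma NJ.part (h : NJ P r j) (hij : i ≤ j + 1) (hk : k ≤ j + 1) (t : Tops P) : Part k (SS i t) := by
  rw [← h.cext_eq hij t]
  exact part_cext h.g.H hk h.split t

lemma NJ.bb_eq (h : NJ P r j) (hij : i ≤ j + 1) (t : Tops P) :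
    bb i (j + 1) (topOf : P → Tops P) t = (st i (SS i t)).card := by
  unfold bb
  rw [h.cext_eq hij t]

lemma NJ.VV_eq (h : NJ P r j) (hij : i ≤ j + 1) (t : Tops P) :
    VV i (j + 1) (topOf : P → Tops P) t = ZS i (SS i t) := by
  unfold VV
  rw [h.cext_eq hij t]

lemma NJ.card_SS (h : NJ P r j) (hij : i ≤ j) {t : Tops P} {lo hi : ℕ → ℕ} {e : ℕ → ℕ → P}
    (C : Cp.Comp j (t : P) lo hi e) : (st i (SS i t)).card = hi i + 1 - lo i :=
  C.toWin.card_st hij (fun _ _ => h.mem (by omega) t (by omega))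

section values

variable {t : P} {lo hi : ℕ → ℕ} {x : ℕ → ℕ → P} {S : Finset P}

/-- the second order values of a natural component (two levels below the window) without flip -/
theorem be6_gen (g : GoodTo P r j) (C : Win.Comp P t j lo hi x) (ht : lev t = 0) (hi1 : 1 ≤ i)
    (h3 : i + 2 ≤ j) (hS : ∀ y, lev y ≤ i + 2 → (y ∈ S ↔ y ≤ t)) (hP : Part (i + 1) S)
    (hf : ¬ Win.Flip lo hi i) :
    al 3 (st i S).card (ZS i S) = ((FL i S).card : ℤ) - Win.fuw lo hi i ∧
    be 6 (st i S).card (ZS i S) = - ((SO.N1f i S).card : ℤ) - ((SO.N5f i S).card : ℤ) := by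
  have K := cm6_of g C ht hi1 h3 hS hP hf
  obtain ⟨psi, hM⟩ := good_mat g.H (g.good i (by omega))
  have Q := K.ps6 hM
  have hc := C.card_st (i := i) (S := S) (by omega) (fun y hy => hS y (by omega))
  have hl := C.lohi i (by omega)
  have h4 := so_al3 Q
  have h7 : I2.al 3 (st i S).card (ZS i S) = ((FL i S).card : ℤ) - ((FU' i S).card : ℤ) := by
    rw [h4, C.card_ZL g ht (by omega) hS, C.card_ZU g ht hi1 (by omega)
      (fun y hy => hS y (by omega))]
    ring
  have h6 := SO.PS6.six' Q (by omega)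
  rw [h7, QQ_nat g C ht hi1 (by omega) hS hP hf] at h6
  refine ⟨?_, by linarith⟩
  rw [h7, C.card_FU g ht (by omega) (fun y hy => hS y (by omega))]

end values

section two

variable (h : NJ P r j) (hi1 : 1 ≤ i) (h3 : i + 2 ≤ j)
include h hi1 h3

/-- (5,2) -/
theorem NJ.be5_all (t : Tops P) : be 5 (st i (SS i t)).card (ZS i (SS i t)) = 0 := by
  have hr := h.hr
  have h1 := be5_zero h.g.H (by omega) (show i + 3 ≤ j + 1 by omega)
    (fun m _ hm => h.g.good m (by omega)) h.split (by
      intro c _ hb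
      rw [h.bb_eq (by omega)] at hb ⊢
      rw [h.VV_eq (by omega)]
      obtain ⟨lo, hi, e, C⟩ := Cp.comp_exists h.g.H c.2 h.g.hr h.g.good
      have h2 := be5_nat h.g C.toWin c.2 hi1 (by omega)
        (fun y hy => h.mem (i := i) (by omega) c (by omega))
        (h.part (by omega) (by omega) c)
      omega) t (mem_tops t)
  rwa [h.bb_eq (by omega), h.VV_eq (by omega)] at h1

/-- no flip -/
theorem NJ.no_flip {t : Tops P} {lo hi : ℕ → ℕ} {e : ℕ → ℕ → P} (C : Cp.Comp j (t : P) lo hi e) :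
    ¬ Flip lo hi i := by
  intro hf
  have hS : ∀ y, lev y ≤ i + 2 → (y ∈ Wd.SS i t ↔ y ≤ (t : P)) :=
    fun y hy => h.mem (i := i) (by omega) t (by omega)
  have h1 := be5_nat h.g C.toWin t.2 hi1 (by omega) hS (h.part (by omega) (by omega) t)
  have h2 := F5_flip h.g C.toWin t.2 hi1 (by omega) hS hf
  have h4 := h.be5_all hi1 h3 t
  rw [← card_pos] at h2
  omega

/-- the values -/
theorem NJ.vals {t : Tops P} {lo hi : ℕ → ℕ} {e : ℕ → ℕ → P} (C : Cp.Comp j (t : P) lo hi e) :
    al 3 (st i (SS i t)).card (ZS i (SS i t)) = ((FL i (SS i t)).card : ℤ) - fuw lo hi i ∧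
    be 6 (st i (SS i t)).card (ZS i (SS i t)) =
      - ((SO.N1f i (SS i t)).card : ℤ) - ((SO.N5f i (SS i t)).card : ℤ) :=
  be6_gen h.g C.toWin t.2 hi1 h3 (fun y hy => h.mem (i := i) (by omega) t (by omega))
    (h.part (by omega) (by omega) t) (h.no_flip hi1 h3 C)

/-- (3,1), (6,2) -/
theorem NJ.al3_sq (t : Tops P) : (al 3 (st i (SS i t)).card (ZS i (SS i t))) ^ 2 =
    2 * be 6 (st i (SS i t)).card (ZS i (SS i t)) := by
  have hr := h.hr
  have h1 := Win.I2.al3_sq h.g.H (by omega) (show i + 3 ≤ j + 1 by omega)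
    (fun m _ hm => h.g.good m (by omega)) h.split (by
      intro c _
      rw [h.bb_eq (by omega), h.VV_eq (by omega)]
      exact h.be5_all hi1 h3 c) (by
      intro c _ hb
      rw [h.bb_eq (by omega)] at hb ⊢
      rw [h.VV_eq (by omega)]
      obtain ⟨lo, hi, e, C⟩ := Cp.comp_exists h.g.H c.2 h.g.hr h.g.good
      have h2 := (h.vals hi1 h3 C).2
      have h4 := sq_nonneg (al 3 (st i (SS i c)).card (ZS i (SS i c)))
      rw [h2]
      have h5 : (0 : ℤ) ≤ (SO.N1f i (SS i c)).card := by positivity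
      have h6 : (0 : ℤ) ≤ (SO.N5f i (SS i c)).card := by positivity
      linarith) t (mem_tops t)
  rwa [h.bb_eq (by omega), h.VV_eq (by omega)] at h1

/-- THE LAWS at the windows `i ≤ j - 2`: chain balance, nothing hangs below a twisted triple -/
theorem NJ.law {t : Tops P} {lo hi : ℕ → ℕ} {e : ℕ → ℕ → P} (C : Cp.Comp j (t : P) lo hi e) :
    (FL i (SS i t)).card = fuw lo hi i ∧ SO.N1f i (SS i t) = ∅ ∧ SO.N5f i (SS i t) = ∅ := by
  obtain ⟨h1, h2⟩ := h.vals hi1 h3 C
  have h4 := h.al3_sq hi1 h3 t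
  have h5 : (0 : ℤ) ≤ (SO.N1f i (SS i t)).card := by positivity
  have h6 : (0 : ℤ) ≤ (SO.N5f i (SS i t)).card := by positivity
  have h7 := sq_nonneg (al 3 (st i (SS i t)).card (ZS i (SS i t)))
  rw [h4] at h7
  have h8 : al 3 (st i (SS i t)).card (ZS i (SS i t)) = 0 := by
    have : (al 3 (st i (SS i t)).card (ZS i (SS i t))) ^ 2 = 0 := by
      rw [h4]
      linarith
    exact pow_eq_zero_iff (two_ne_zero) |>.1 this
  refine ⟨?_, ?_, ?_⟩
  · rw [h1] at h8
    have h9 : ((FL i (SS i t)).card : ℤ) = (fuw lo hi i : ℕ) := by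
      have : (fuw lo hi i : ℤ) = (Win.fuw lo hi i : ℤ) := rfl
      linarith
    exact_mod_cast h9
  · rw [← card_eq_zero]
    have : ((SO.N1f i (SS i t)).card : ℤ) = 0 := by linarith
    exact_mod_cast this
  · rw [← card_eq_zero]
    have : ((SO.N5f i (SS i t)).card : ℤ) = 0 := by linarith
    exact_mod_cast this

end two

end Pool.Agent.GaussPoset.Wd

end

/-! From `Pool.Agent.W_448wd_h84.WdO` -/

section

/-!
# MP_448cb3_co, case B: the laws of the last level `j + 1` in coordinates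
-/

namespace Pool.Agent.GaussPoset.Wd

set_option linter.unusedSectionVars false

open Finset Win Win.I2

universe u

variable {P : Type u} [Fintype P] [PartialOrder P] [DecidableEq P] {r j i k : ℕ}
  {t : Tops P} {lo hi : ℕ → ℕ} {e : ℕ → ℕ → P}

lemma pen_uc {w z : P} (h : z ∈ pen w) : uc z = {w} := by
  obtain ⟨h1, h2⟩ := mem_pen.1 h
  obtain ⟨y, hy⟩ := card_eq_one.1 h2
  have h3 := mem_uc.2 h1
  rw [hy, mem_singleton] at h3
  rw [hy, h3]

lemma mem_pen_of_uc {w z : P} (h : uc z = {w}) : z ∈ pen w := by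
  refine mem_pen.2 ⟨?_, by rw [h, card_singleton]⟩
  rw [← mem_uc, h]
  exact mem_singleton_self w

/-- nothing hangs below an element of level `i + 2` over three sites of level `i` -/
theorem NJ.pen_three (h : NJ P r j) (hi1 : 1 ≤ i) (h3 : i + 2 ≤ j)
    (C : Cp.Comp j (t : P) lo hi e) {a : ℕ} (ha : lo i + 2 ≤ a) (ha' : a ≤ hi i) :
    pen (e (i + 2) a) = ∅ := by
  have W := C.toWin
  have f1 := W.lo_ge i (by omega)
  have f2 := W.lo_ge (i + 1) (by omega)
  have f3 := W.hi_le i (by omega)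
  have f4 := W.hi_le (i + 1) (by omega)
  have e1 : i + 1 + 1 = i + 2 := rfl
  rw [e1] at f2 f4
  have hl := W.lev_x (i + 2) (by omega) a (by omega) (by omega)
  have hat := W.le_t (i + 2) (by omega) a (by omega) (by omega)
  rw [eq_empty_iff_forall_notMem]
  intro z hz
  have hu := pen_uc hz
  have hzc := (mem_pen.1 hz).1
  have hlz := lev_cov h.g.H hzc
  have hN := (h.law hi1 h3 C).2.1
  have : z ∈ SO.N1f i (SS i t) := by
    refine SO.mem_N1f.2 ⟨(h.mem (by omega) t (by omega)).2 (hzc.le.trans hat),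
      Or.inl ⟨by omega, e (i + 2) a, ?_, hu⟩⟩
    exact mem_ZL.2 ⟨(h.mem (by omega) t (by omega)).2 hat, hl,
      (W.up_three h.g t.2 (by omega) (by omega) (by omega)).2 ⟨ha, ha'⟩⟩
  rw [hN] at this
  exact absurd this (notMem_empty _)

/-- the chains below the window `i`: the children of the pendants of level `i + 2` -/
theorem NJ.FL_eq (h : NJ P r j) (h3 : i + 2 ≤ j) (C : Cp.Comp j (t : P) lo hi e) :
    (pdL lo hi i → pen (e (i + 2) (lo (i + 2))) ⊆ FL i (SS i t)) ∧
    (pdR lo hi i → pen (e (i + 2) (hi (i + 2))) ⊆ FL i (SS i t)) ∧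
    (∀ z ∈ FL i (SS i t), (pdL lo hi i ∧ z ∈ pen (e (i + 2) (lo (i + 2)))) ∨
      (pdR lo hi i ∧ z ∈ pen (e (i + 2) (hi (i + 2))))) := by
  have W := C.toWin
  have e0 := W.lohi (i + 2) (by omega)
  have key : ∀ a, lo (i + 2) ≤ a → a ≤ hi (i + 2) → e (i + 2) a ∈ PD P i →
      pen (e (i + 2) a) ⊆ FL i (SS i t) := by
    intro a a1 a2 hp z hz
    have hat := W.le_t (i + 2) (by omega) a a1 a2
    have hl := W.lev_x (i + 2) (by omega) a a1 a2
    have hzc := (mem_pen.1 hz).1
    have hlz := lev_cov h.g.H hzc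
    exact mem_FL.2 ⟨(h.mem (by omega) t (by omega)).2 (hzc.le.trans hat), _, hp, pen_uc hz⟩
  refine ⟨fun hp => key _ le_rfl e0 ((W.mem_PD_iff h.g t.2 h3 le_rfl e0).2 (Or.inl ⟨rfl, hp⟩)),
    fun hp => key _ e0 le_rfl ((W.mem_PD_iff h.g t.2 h3 e0 le_rfl).2 (Or.inr ⟨rfl, hp⟩)), ?_⟩
  intro z hz
  obtain ⟨hzS, p, hp, hzp⟩ := mem_FL.1 hz
  have hlp := (lev_PD hp).1
  have hzc : z ⋖ p := by
    rw [← mem_uc, hzp]
    exact mem_singleton_self p
  have hlz := lev_cov h.g.H hzc
  have hpS : p ∈ SS i t := (h.part (by omega) (k := i) (by omega) t).up hzS hzc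
  have hpt := (h.mem (by omega) t (by omega)).1 hpS
  obtain ⟨a, a1, a2, rfl⟩ := W.surj (i + 2) (by omega) p hlp hpt
  rcases (W.mem_PD_iff h.g t.2 h3 a1 a2).1 hp with ⟨rfl, h5⟩ | ⟨rfl, h5⟩
  · exact Or.inl ⟨h5, mem_pen_of_uc hzp⟩
  · exact Or.inr ⟨h5, mem_pen_of_uc hzp⟩

/-- THE CHAIN BALANCE in coordinates, for a last row with at least two elements -/
theorem NJ.chain (h : NJ P r j) (hi1 : 1 ≤ i) (h3 : i + 2 ≤ j) (C : Cp.Comp j (t : P) lo hi e)
    (hb : lo (i + 2) < hi (i + 2)) :
    (if pdL lo hi i then (pen (e (i + 2) (lo (i + 2)))).card else 0) +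
      (if pdR lo hi i then (pen (e (i + 2) (hi (i + 2)))).card else 0) = fuw lo hi i := by
  classical
  have W := C.toWin
  obtain ⟨h1, h2, h4⟩ := h.FL_eq h3 C
  have hne := W.inj (i + 2) (by omega) (lo (i + 2)) (hi (i + 2)) le_rfl hb le_rfl
  rw [← (h.law hi1 h3 C).1]
  have hdis : Disjoint (pen (e (i + 2) (lo (i + 2)))) (pen (e (i + 2) (hi (i + 2)))) := by
    rw [disjoint_left]
    intro z hz hz'
    have g1 := pen_uc hz
    rw [pen_uc hz', singleton_inj] at g1
    exact hne g1.symm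
  by_cases c1 : pdL lo hi i
  · by_cases c2 : pdR lo hi i
    · rw [if_pos c1, if_pos c2, ← card_union_of_disjoint hdis]
      congr 1
      ext z
      rw [mem_union]
      constructor
      · rintro (g | g)
        · exact h1 c1 g
        · exact h2 c2 g
      · intro hz
        rcases h4 z hz with g | g
        · exact Or.inl g.2
        · exact Or.inr g.2
    · rw [if_pos c1, if_neg c2, add_zero]
      congr 1
      ext z
      constructor
      · exact fun g => h1 c1 g
      · intro hz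
        rcases h4 z hz with g | g
        · exact g.2
        · exact absurd g.1 c2
  · by_cases c2 : pdR lo hi i
    · rw [if_neg c1, if_pos c2, zero_add]
      congr 1
      ext z
      constructor
      · exact fun g => h2 c2 g
      · intro hz
        rcases h4 z hz with g | g
        · exact absurd g.1 c1
        · exact g.2
    · rw [if_neg c1, if_neg c2]
      symm
      rw [add_zero, card_eq_zero, eq_empty_iff_forall_notMem]
      intro z hz
      rcases h4 z hz with g | g
      · exact absurd g.1 c1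
      · exact absurd g.1 c2

/-- the numbers of pendants below the doubles of the last row (level `j`) -/
theorem NJ.s5c (h : NJ P r j) (hj : 2 ≤ j) (C : Cp.Comp j (t : P) lo hi e) :
    S5c lo hi e (j - 1) := by
  obtain ⟨n, rfl⟩ : ∃ n, j = n + 1 := ⟨j - 1, by omega⟩
  rw [Nat.add_sub_cancel]
  exact (near_level' h.g (by omega)).2 _ lo hi e t.2 C.toWin

/-- the defects of the last row -/
theorem NJ.pieces (h : NJ P r j) (hj : 2 ≤ j) (C : Cp.Comp j (t : P) lo hi e) :
    ∃ (c : ℕ → ℤ) (β : ℤ), PcPat (hi j - lo j) c β ∧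
      (∀ a b, lo j ≤ a → a < b → b ≤ hi j →
        (dcv (e j a) (e j b) : ℤ) - ucv (e j a) (e j b) =
          if b = a + 1 then c (a - lo j) else if a = lo j ∧ b = hi j then β else 0) ∧
      (β ≠ 0 → (uc (e j (lo j))).card = 1 ∧ (uc (e j (hi j))).card = 1) ∧
      (∀ a, lo j < a → a < hi j → c (a - 1 - lo j) = -1 →
        c (a - lo j) = -1 → (pen (e j a)).card = 1) := by
  obtain ⟨n, rfl⟩ : ∃ n, j = n + 1 := ⟨j - 1, by omega⟩
  exact S6_pieces h.g (by omega) h.hr h.no t.2 C.toWin

end Pool.Agent.GaussPoset.Wd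

end

/-! From `Pool.Agent.W_448pn_h63.PoB` -/

section

/-!
# The parts with few sites in case B at the window `j - 1` (MP_448cb3_co, G2)
-/

set_option autoImplicit false

namespace Pool.Agent.GaussPoset.Win.Pn

set_option linter.unusedSectionVars false

open Finset W4 Wd
open Pool.Agent.GaussPoset.Win.I2 (bb VV)
open Pool.Agent.GaussPoset.Win.T8 (P10 cg Q8 Q10)

universe u

variable {P : Type u} [Fintype P] [PartialOrder P] [DecidableEq P] {r j i : ℕ}
  {C : Finset P}

/-- the leading coefficients of a part with few sites vanish -/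
theorem cg_small (H : Gr P r) (hC : Part i C) (h1 : (st i C).Nonempty) {n : ℕ}
    (h : (st i C).card ≤ T8.kk n) : cg n (st i C).card (ZS i C) = 0 := by
  unfold T8.cg
  rw [coeff_ZS]
  have h2 := dd_dvd_ZC H hC h1 n
  have h3 : dd ^ ((st i C).card + 1) ∣ dd ^ T8.kk n * ZC i C n := by
    refine (pow_dvd_pow dd (show (st i C).card + 1 ≤ T8.kk n + 1 by omega)).trans ?_
    rw [pow_succ]
    exact mul_dvd_mul_left _ h2
  unfold dd at h3 ⊢
  exact PowerSeries.X_pow_dvd_iff.1 h3 _ (Nat.lt_succ_self _)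

section nj

variable (h : NJ P r j) (hij : i + 1 = j)
include h hij

lemma nj_st (t : Tops P) : (st i (SS i t)).Nonempty := by
  obtain ⟨lo, hi, e, Cm⟩ := Cp.comp_exists h.g.H t.2 h.g.hr h.g.good
  have hc := h.card_SS (i := i) (by omega) Cm
  have := Cm.toWin.lohi i (by omega)
  rw [← card_pos]
  omega

lemma nj_part (t : Tops P) : Part i (SS i t) := h.part (by omega) (by omega) t

/-- parts with at most three sites: the value (8,3) -/
theorem nj_Q8_small (t : Tops P) (h3 : (st i (SS i t)).card ≤ 3) :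
    Q8 (st i (SS i t)).card (ZS i (SS i t)) =
      I2.al 3 (st i (SS i t)).card (ZS i (SS i t)) *
        I2.be 5 (st i (SS i t)).card (ZS i (SS i t)) := by
  unfold T8.Q8
  rw [cg_small h.g.H (nj_part h hij t) (nj_st h hij t) (n := 8) (by
    rw [show T8.kk 8 = 3 from rfl]
    omega), sub_zero, T8.cg_cf (by omega), T8.cg_cf (by omega), So.cf_three, So.cf_five]

/-- parts with at most four sites: the value (10,4) -/
theorem nj_Q10_small (t : Tops P) (h4 : (st i (SS i t)).card ≤ 4) :
    Q10 (st i (SS i t)).card (ZS i (SS i t)) =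
      I2.be 5 (st i (SS i t)).card (ZS i (SS i t)) ^ 2 := by
  unfold T8.Q10
  rw [cg_small h.g.H (nj_part h hij t) (nj_st h hij t) (n := 10) (by
    rw [show T8.kk 10 = 4 from rfl]
    omega), mul_zero, sub_zero, T8.cg_cf (by omega), So.cf_five]

/-- parts with at most two sites: the value (5,2) -/
theorem nj_be5_small (t : Tops P) (h2 : (st i (SS i t)).card ≤ 2) :
    I2.be 5 (st i (SS i t)).card (ZS i (SS i t)) = 0 := by
  rw [← So.cf_five, ← T8.cg_cf (by omega)]
  exact cg_small h.g.H (nj_part h hij t) (nj_st h hij t) (n := 5) (by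
    rw [show T8.kk 5 = 2 from rfl]
    omega)

/-- parts with at most two sites: the value (6,2) -/
theorem nj_be6_small (t : Tops P) (h2 : (st i (SS i t)).card ≤ 2) :
    I2.be 6 (st i (SS i t)).card (ZS i (SS i t)) = 0 := by
  have h3 := cg_small h.g.H (nj_part h hij t) (nj_st h hij t) (n := 6) (by
    rw [show T8.kk 6 = 2 from rfl]
    omega)
  unfold T8.cg at h3
  unfold I2.be
  exact h3

/-- parts with at most two sites: (8,3) and (10,4) vanish -/
theorem nj_Q_two (t : Tops P) (h2 : (st i (SS i t)).card ≤ 2) :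
    Q8 (st i (SS i t)).card (ZS i (SS i t)) = 0 ∧
      Q10 (st i (SS i t)).card (ZS i (SS i t)) = 0 := by
  have h5 := nj_be5_small h hij t h2
  rw [nj_Q8_small h hij t (by omega), nj_Q10_small h hij t (by omega), h5]
  constructor <;> ring

end nj

end Pool.Agent.GaussPoset.Win.Pn

end

/-! From `Pool.Agent.W_448n6_h84.NbB` -/

section

/-!
# MP_448cb3_co, case B, STEP 0 at the level 8: the rows [DL] with at least four sites whose doubled end
is closed, functional `<-1, 7, 1, 2, 1, 1, 1, 6, 2>` (helper84)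
-/

namespace Pool.Agent.GaussPoset.Win.W4

set_option linter.unusedSectionVars false

open Finset
open Pool.Agent.GaussPoset.Win.SO (PN vp con on mem_PN vp_PD vp_PU)

universe u

variable {P : Type u} [Fintype P] [PartialOrder P] [DecidableEq P] {r i : ℕ}
variable {psi : P → P} {C K : Finset P} {w v : P} {m : ℕ} {x : ℕ → P}

end Pool.Agent.GaussPoset.Win.W4

namespace Pool.Agent.GaussPoset.Wd

set_option linter.unusedSectionVars false

open Finset Win Win.I2 Win.Rc EK Win.Pn
open Pool.Agent.GaussPoset.Win.SO (F5 N1f N5f)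

universe u

variable {P : Type u} [Fintype P] [PartialOrder P] [DecidableEq P] {r j i : ℕ}
  {t : Tops P} {lo hi : ℕ → ℕ} {e : ℕ → ℕ → P} {m : ℕ} {x : ℕ → P} {c : ℕ → ℤ} {β : ℤ}

/-- no pendants of the window: the private numbers vanish -/
lemma NJ.no_pend (h : NJ P r j) (hij : i + 1 = j)
    (hN : ∀ q ∈ SS i t, q ∉ PD P i ∧ q ∉ PU P i) : FL i (SS i t) = ∅ ∧ FU' i (SS i t) = ∅ ∧
      (PD P i).filter (fun p => (topOf p : Tops P) = t) = ∅ := by
  classical
  have H := h.g.H
  refine ⟨?_, ?_, ?_⟩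
  · rw [eq_empty_iff_forall_notMem]
    intro w hw
    rw [mem_FL] at hw
    obtain ⟨hw1, z, hz1, hz2⟩ := hw
    have hzw : w ⋖ z := by rw [← mem_uc, hz2]; simp
    have hz : z ∈ SS i t := (h.part (i := i) (k := j + 1) (by omega) (by omega) t).up hw1 hzw
    exact (hN z hz).1 hz1
  · rw [eq_empty_iff_forall_notMem]
    intro w hw
    rw [mem_FU'] at hw
    obtain ⟨hw1, z, hz1, hz2⟩ := hw
    have lz := (mem_PU.1 hz1).1
    have hzw : z ⋖ w := by rw [← mem_dc, hz2]; simp
    have lw := lev_cov H hzw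
    have hwt : w ≤ (t : P) := (h.mem (by omega) t (by omega)).1 hw1
    have hzS : z ∈ SS i t := (h.mem (by omega) t (by omega)).2 (hzw.le.trans hwt)
    exact (hN z hzS).2 hz1
  · rw [eq_empty_iff_forall_notMem]
    intro q hq
    rw [mem_filter] at hq
    obtain ⟨hq1, hq2⟩ := hq
    have lq := (mem_PD.1 hq1).1
    exact (hN q ((h.mem (by omega) t (by omega)).2 (hq2 ▸ le_topOf q))).1 hq1

end Pool.Agent.GaussPoset.Wd

end
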