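import Mathlib
import Pool.Agent.W_448zz_h61.Ns
import Pool.Agent.W_448zz_h61.M149
import Pool.Agent.W_448zz_h61.M154

/-! From `Pool.Agent.W_448pn_h63.PnQ` -/

section

/-!
# Twins and guarded pairs (MP_448cb3_co, G2, case B, window j - 1)
-/

set_option autoImplicit false

namespace Pool.Agent.GaussPoset.Win.Pn

set_option linter.unusedSectionVars false

open Finset W4
open Pool.Agent.GaussPoset.Win.Xg (Okc kp CanD laL laU Tee Exo SdO Act)
open Pool.Agent.GaussPoset.Win.Rd (P1L P1U TWL TWU GS N4L N4U Hyp hypL hypU TS)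
open Pool.Agent.GaussPoset.Win.SO (con PN on mem_PN Cls BL BU nL nU mem_con self_con vp)

universe u

variable {P : Type u} [Fintype P] [PartialOrder P] [DecidableEq P] {r i : ℕ}
variable {e f g : P → ℕ} {psi : P → P} {C K s : Finset P} {t : P → ℕ} {d x p : P}

lemma eq_of_le_sum (h1 : ∀ x, g x ≤ e x) (h2 : ∑ x, e x ≤ ∑ x, g x) : e = g := by
  have h3 : ∑ x, g x = ∑ x, e x := le_antisymm (sum_le_sum fun x _ => h1 x) h2
  funext x
  exact ((Finset.sum_eq_sum_iff_of_le (fun x _ => h1 x)).1 h3 x (mem_univ x)).symm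

/-- the configuration of a pair of twins -/
noncomputable def cT (i : ℕ) (z z' : P) : P → ℕ :=
  fun y => on (con i z ∪ con i z') y + on {z} y

/-- the configuration of two pendants with one common site -/
noncomputable def cD (i : ℕ) (p p' : P) : P → ℕ :=
  on (con i p ∪ con i p' ∪ (sit i p ∩ sit i p'))

/-- twins below the window, ordered by the numbering -/
structure Tw (i : ℕ) (C : Finset P) (z z' : P) : Prop where
  zl : z ∈ ZL i C
  mC : z' ∈ C
  ne : z ≠ z'
  uc : uc z = uc z'
  rk : Xg.rk z' < Xg.rk z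

/-! ### twins -/

section tw

variable (F : Fr r i psi C)
include F

/-- the data of twins, one of them kills -/
lemma tw_data (h : Okc i psi C e) {z : P} (hz : z ∈ TWL i e) :
    ∃ w w2 a x b z', Tee dc uc (laL i) z w w2 a x b ∧ lev z = i + 2 ∧ lev z' = i + 2 ∧
      uc z' = {w, w2} ∧ z' ≠ z ∧ dc w = {z, z'} ∧ dc w2 = {z, z'} ∧ 1 ≤ e z' ∧ 1 ≤ e w ∧
      1 ≤ e w2 ∧ 2 ≤ e z ∧ z ∈ ZL i C ∧ z' ∈ C := by
  classical
  have H := F.E.H
  have hL := hypL F.G F.hT F.hQ F.E.hM h.adm.l h.adm.u h.adm.d h.core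
  obtain ⟨w, w2, a, x, b, z', T, h1, h2, h3, h4, h5, h6, h7, h8, h9⟩ := hL.tw_spec (by
    unfold TWL at hz
    exact hz)
  have lz : lev z = i + 2 := by have := T.tz; omega
  have mw : w ∈ uc z := by rw [T.cz]; simp
  have lw := lev_uc H mw
  have lz' := lev_uc H (show w ∈ uc z' by rw [h1]; simp)
  have hsit : sts i z = {a, x, b} := by
    ext v
    rw [mem_sts_iff H lz, T.cz]
    simp only [mem_insert, mem_singleton, exists_eq_or_imp, exists_eq_left]
    rw [T.cw, T.cw2]
    simp only [mem_insert, mem_singleton]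
    tauto
  refine ⟨w, w2, a, x, b, z', ⟨by unfold laL; omega, T.cz, T.cw, T.cw2, T.dx, T.ne, T.px, T.xq,
    T.pq⟩, lz, by omega, h1, h2, h3, h4, h5, by omega, by omega, h8, ?_, mem_of_pos h.spt h5⟩
  rw [mem_ZL]
  refine ⟨mem_of_pos h.spt (by omega), lz, ?_⟩
  rw [← card_sts, hsit, card_insert_of_notMem (by simp [T.px, T.pq]), card_pair T.xq]

/-- the numbering of the twins of a core without exchangeable places -/
lemma tw_rk (hcc : Xg.CC i e = ∅) {z z' w w2 a x b : P} (T : Tee dc uc (laL i) z w w2 a x b)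
    (hz' : uc z' = {w, w2}) (hne : z' ≠ z) (hw : dc w = {z, z'}) (hw2 : dc w2 = {z, z'})
    (ez : e z = 2) (ez' : e z' = 1) (ew : e w = 1) (ew2 : e w2 = 1) (ea : e a = 0)
    (ex : e x = 0) (eb : e b = 0) (ht : ∀ t ∈ dc z, e t = 0) (hu : ∀ u ∈ uc x, e u = 0) :
    Xg.rk z' < Xg.rk z := by
  by_contra hrk
  have H := F.E.H
  have E : Exo dc uc z w w2 a x b e := by
    refine ⟨by omega, ?_, ?_, ?_, ?_, ?_⟩
    · intro t h1
      have := ht t h1
      omega
    · intro u h1
      have := hu u h1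
      omega
    · right
      refine ⟨fun d hd hdz => ?_, by omega⟩
      rw [hw, mem_insert, mem_singleton] at hd
      rcases hd with rfl | rfl
      · exact absurd rfl hdz
      · omega
    · right
      refine ⟨fun d hd hdz => ?_, by omega⟩
      rw [hw2, mem_insert, mem_singleton] at hd
      rcases hd with rfl | rfl
      · exact absurd rfl hdz
      · omega
    · left
      left
      omega
  have hc : CanD i e z x := by
    refine Or.inl ⟨w, w2, a, b, T, E, fun d hd hdr => ?_⟩
    have hdw : d ∈ dc w := mem_dc.2 (mem_uc.1 (by rw [hd]; simp))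
    rw [hw, mem_insert, mem_singleton] at hdw
    rcases hdw with rfl | rfl
    · omega
    · omega
  have := (Xg.mem_CC (i := i) (e := e) (t := (z, x)) H).2 hc
  rw [hcc] at this
  exact notMem_empty _ this

lemma cT_sum {z z' w w2 : P} (hz : lev z = i + 2) (hz2 : lev z' = i + 2) (h1 : uc z = {w, w2})
    (h2 : uc z' = {w, w2}) (hw : w ≠ w2) (hne : z' ≠ z) : ∑ y, cT i z z' y = 5 := by
  have H := F.E.H
  have lw := lev_uc H (show w ∈ uc z by rw [h1]; simp)
  have lw2 := lev_uc H (show w2 ∈ uc z by rw [h1]; simp)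
  have hc : con i z ∪ con i z' = {z, z', w, w2} := by
    rw [SO.con_two_low H hz, SO.con_two_low H hz2, h1, h2]
    ext y
    simp only [mem_union, mem_insert, mem_singleton]
    tauto
  unfold cT
  rw [sum_add_distrib, SO.on_sum, SO.on_sum, hc, card_singleton,
    card_insert_of_notMem, card_insert_of_notMem, card_pair hw]
  · simp only [mem_insert, mem_singleton]
    rintro (rfl | rfl) <;> omega
  · simp only [mem_insert, mem_singleton]
    rintro (h | rfl | rfl)
    · exact hne h.symm
    · omega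
    · omega

lemma cT_le {z z' w w2 : P} (hz : lev z = i + 2) (hz2 : lev z' = i + 2) (h1 : uc z = {w, w2})
    (h2 : uc z' = {w, w2}) (a1 : 2 ≤ e z) (a2 : 1 ≤ e z') (a3 : 1 ≤ e w) (a4 : 1 ≤ e w2)
    (y : P) : cT i z z' y ≤ e y := by
  have H := F.E.H
  unfold cT
  by_cases hy : y = z
  · subst hy
    rw [on_one (mem_union_left _ (self_con (by omega))), on_one (mem_singleton_self _)]
    omega
  · rw [on_zero (s := {z}) (by simpa using hy)]
    by_cases hy2 : y ∈ con i z ∪ con i z'
    · rw [on_one hy2]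
      rw [SO.con_two_low H hz, SO.con_two_low H hz2, h1, h2] at hy2
      simp only [mem_union, mem_insert, mem_singleton] at hy2
      rcases hy2 with (rfl | rfl | rfl) | (rfl | rfl | rfl)
      · exact absurd rfl hy
      all_goals omega
    · rw [on_zero hy2]
      omega

lemma cT_vals {z z' w w2 : P} (hz : lev z = i + 2) (hz2 : lev z' = i + 2) (h1 : uc z = {w, w2})
    (h2 : uc z' = {w, w2}) (hne : z' ≠ z) : cT i z z' z = 2 ∧ cT i z z' z' = 1 ∧
      cT i z z' w = 1 ∧ cT i z z' w2 = 1 ∧
      ∀ y, y ≠ z → y ≠ z' → y ≠ w → y ≠ w2 → cT i z z' y = 0 := by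
  have H := F.E.H
  have lw := lev_uc H (show w ∈ uc z by rw [h1]; simp)
  have lw2 := lev_uc H (show w2 ∈ uc z by rw [h1]; simp)
  have hc : con i z ∪ con i z' = {z, z', w, w2} := by
    rw [SO.con_two_low H hz, SO.con_two_low H hz2, h1, h2]
    ext y
    simp only [mem_union, mem_insert, mem_singleton]
    tauto
  unfold cT
  rw [hc]
  refine ⟨?_, ?_, ?_, ?_, ?_⟩
  · rw [on_one (by simp), on_one (by simp)]
  · rw [on_one (by simp), on_zero (by simpa using hne)]
  · rw [on_one (by simp), on_zero (by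
      simp only [mem_singleton]
      rintro rfl
      omega)]
  · rw [on_one (by simp), on_zero (by
      simp only [mem_singleton]
      rintro rfl
      omega)]
  · intro y a1 a2 a3 a4
    rw [on_zero (by simp [a1, a2, a3, a4]), on_zero (by simp [a1])]

/-- energy five with twins -/
theorem tw_five (h : Okc i psi C e) (hE : ∑ x, e x = 5) (hcc : Xg.CC i e = ∅) {z : P}
    (hz : z ∈ TWL i e) : ∃ z', Tw i C z z' ∧ e = cT i z z' := by
  have H := F.E.H
  obtain ⟨w, w2, a, x, b, z', T, lz, lz', h1, h2, h3, h4, h5, h6, h7, h8, h9, h10⟩ :=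
    tw_data F h hz
  have hs := cT_sum F lz lz' T.ud h1 T.ne h2
  have he : e = cT i z z' := eq_of_le_sum (cT_le F lz lz' T.ud h1 h8 h5 h6 h7) (by omega)
  obtain ⟨v1, v2, v3, v4, v5⟩ := cT_vals F lz lz' T.ud h1 h2
  rw [← he] at v1 v2 v3 v4 v5
  have lw := lev_uc H (show w ∈ uc z by rw [T.ud]; simp)
  have lw2 := lev_uc H (show w2 ∈ uc z by rw [T.ud]; simp)
  have la := lev_uc H (show a ∈ uc w by rw [T.uw]; simp)
  have lx := lev_uc H (show x ∈ uc w by rw [T.uw]; simp)
  have lb := lev_uc H (show b ∈ uc w2 by rw [T.uw2]; simp)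
  have hzero : ∀ y, lev y ≠ i + 1 → lev y ≠ i + 2 → e y = 0 := by
    intro y l1 l2
    apply v5
    · rintro rfl; omega
    · rintro rfl; omega
    · rintro rfl; omega
    · rintro rfl; omega
  refine ⟨z', ⟨h9, h10, h2.symm, by rw [T.ud, h1], ?_⟩, he⟩
  refine tw_rk F hcc T h1 h2 h3 h4 v1 v2 v3 v4 (hzero a (by omega) (by omega))
    (hzero x (by omega) (by omega)) (hzero b (by omega) (by omega)) ?_ ?_
  · intro t ht
    have := lev_dc H ht
    exact hzero t (by omega) (by omega)
  · intro u hu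
    have := lev_uc H hu
    exact hzero u (by omega) (by omega)

end tw

/-! ### guarded pairs -/

/-- an element which kills one site alone and is guarded by the other one -/
structure Gu (i : ℕ) (e : P → ℕ) (x y z o : P) : Prop where
  side : (lev y = i + 1 ∧ uc y = {o, x} ∧ z ∈ dc y) ∨ (lev y + 1 = i ∧ dc y = {o, x} ∧ z ∈ uc y)
  ne : o ≠ x
  ey : e y = 1
  ez : 1 ≤ e z
  iso : ∀ v, (v ∈ dc o ∨ v ∈ uc o) → v ≠ y → e v = 0

section gu

variable (F : Fr r i psi C)
include F

lemma gu_low (h : Okc i psi C e) {y x : P} (hy : y ∈ N4L i psi e) (hx : x ∈ uc y)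
    (ex : 1 ≤ e x) : ∃ z o, Gu i e x y z o := by
  classical
  have H := F.E.H
  have hL := hypL F.G F.hT F.hQ F.E.hM h.adm.l h.adm.u h.adm.d h.core
  obtain ⟨⟨ly, cy⟩, yB, -, -⟩ := Rd.mem_N4L' hy
  obtain ⟨o, x', hox, hc, e1, e2, e3, h4⟩ := hL.n4_spec (by
    unfold N4L at hy
    exact hy)
  have hxx : x = x' := by
    rw [hc, mem_insert, mem_singleton] at hx
    rcases hx with rfl | rfl
    · omega
    · rfl
  subst hxx
  obtain ⟨z, hz, hz1⟩ := hL.touch y (I2.mem_lS.2 (by omega)) (by omega) cy yB (by omega)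
  have ho := lev_uc H (show o ∈ uc y by rw [hc]; simp)
  refine ⟨z, o, Or.inl ⟨ly, hc, hz⟩, hox, e1, hz1, ?_⟩
  rintro v (hv | hv) hne
  · exact h4 v hv hne
  · by_contra h0
    have m1 : o ∈ AL i e := by
      rw [NormD_mem_AL]
      exact ⟨by omega, y, mem_uc.1 (by rw [hc]; simp), by omega⟩
    have m2 : o ∈ AU i e := by
      rw [NormD_mem_AU]
      exact ⟨by omega, v, mem_uc.1 hv, by omega⟩
    exact disjoint_left.1 h.adm.d m1 m2

lemma gu_upp (h : Okc i psi C e) {y x : P} (hy : y ∈ N4U i psi e) (hx : x ∈ dc y)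
    (ex : 1 ≤ e x) : ∃ z o, Gu i e x y z o := by
  classical
  have H := F.E.H
  have hU := hypU F.G F.hT F.E.hM h.adm.l h.adm.u h.adm.d h.core
  obtain ⟨⟨ly, cy⟩, yB, -, -⟩ := Rd.mem_N4U' hy
  obtain ⟨o, x', hox, hc, e1, e2, e3, h4⟩ := hU.n4_spec (by
    unfold N4U at hy
    exact hy)
  have hxx : x = x' := by
    rw [hc, mem_insert, mem_singleton] at hx
    rcases hx with rfl | rfl
    · omega
    · rfl
  subst hxx
  obtain ⟨z, hz, hz1⟩ := hU.touch y (I2.mem_uS.2 (by omega)) (by omega) cy yB (by omega)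
  have ho := lev_dc H (show o ∈ dc y by rw [hc]; simp)
  refine ⟨z, o, Or.inr ⟨ly, hc, hz⟩, hox, e1, hz1, ?_⟩
  rintro v (hv | hv) hne
  · by_contra h0
    have m1 : o ∈ AU i e := by
      rw [NormD_mem_AU]
      exact ⟨by omega, y, mem_dc.1 (by rw [hc]; simp), by omega⟩
    have m2 : o ∈ AL i e := by
      rw [NormD_mem_AL]
      exact ⟨by omega, v, mem_dc.1 hv, by omega⟩
    exact disjoint_left.1 h.adm.d m2 m1
  · exact h4 v hv hne

/-- the data of a guarded pair of a core without exchangeable places -/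
lemma gs_data (h : Okc i psi C e) (hcc : Xg.CC i e = ∅) (hg : 0 < (GS i psi e).card) :
    ∃ x y z o y' z' o', e x = 1 ∧ lev x = i ∧ y ≠ y' ∧ Gu i e x y z o ∧ Gu i e x y' z' o' ∧
      (z ∉ dc y' ∧ z ∉ uc y') ∧ (z' ∉ dc y ∧ z' ∉ uc y) := by
  classical
  have H := F.E.H
  obtain ⟨x, hx⟩ := card_pos.1 hg
  unfold GS at hx
  obtain ⟨hxl, ex, y, y', hne, h1, h2⟩ := mem_filter.1 hx
  rw [mem_lv] at hxl
  have ncL : ∀ a ∈ N4L i psi e, ∀ b ∈ N4L i psi e, a ≠ b → ∀ z ∈ dc a, 1 ≤ e z → z ∉ dc b := by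
    intro a ha b hb hab z hz ez hzb
    obtain ⟨q, hq⟩ := Rd.n4L_child F.G F.hT F.hQ F.E.hM h.adm.l h.adm.u h.adm.d h.core ha hb hab
      hz hzb ez
    rw [hcc] at hq
    exact notMem_empty _ hq
  have ncU : ∀ a ∈ N4U i psi e, ∀ b ∈ N4U i psi e, a ≠ b → ∀ z ∈ uc a, 1 ≤ e z → z ∉ uc b := by
    intro a ha b hb hab z hz ez hzb
    obtain ⟨q, hq⟩ := Rd.n4U_child F.G F.hT F.hQ F.E.hM h.adm.l h.adm.u h.adm.d h.core ha hb hab
      hz hzb ez
    rw [hcc] at hq
    exact notMem_empty _ hq
  have main : ∀ a b, a ≠ b → ((a ∈ N4L i psi e ∧ x ∈ uc a) ∨ (a ∈ N4U i psi e ∧ x ∈ dc a)) →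
      ((b ∈ N4L i psi e ∧ x ∈ uc b) ∨ (b ∈ N4U i psi e ∧ x ∈ dc b)) →
      ∃ z o, Gu i e x a z o ∧ z ∉ dc b ∧ z ∉ uc b := by
    intro a b hab ha hb
    rcases ha with ⟨ha, hxa⟩ | ⟨ha, hxa⟩
    · obtain ⟨z, o, G⟩ := gu_low F h ha hxa (by omega)
      have la := (Rd.mem_N4L' ha).1.1
      have hz : z ∈ dc a := by
        rcases G.side with g | g
        · exact g.2.2
        · omega
      have lz := lev_dc H hz
      refine ⟨z, o, G, ?_, ?_⟩
      · intro hzb
        have lb := lev_dc H hzb
        rcases hb with ⟨hb, -⟩ | ⟨hb, -⟩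
        · exact ncL a ha b hb hab z hz G.ez hzb
        · have := (Rd.mem_N4U' hb).1.1
          omega
      · intro hzb
        have lb := lev_uc H hzb
        rcases hb with ⟨hb, -⟩ | ⟨hb, -⟩
        · have := (Rd.mem_N4L' hb).1.1
          omega
        · have := (Rd.mem_N4U' hb).1.1
          omega
    · obtain ⟨z, o, G⟩ := gu_upp F h ha hxa (by omega)
      have la := (Rd.mem_N4U' ha).1.1
      have hz : z ∈ uc a := by
        rcases G.side with g | g
        · omega
        · exact g.2.2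
      have lz := lev_uc H hz
      refine ⟨z, o, G, ?_, ?_⟩
      · intro hzb
        have lb := lev_dc H hzb
        rcases hb with ⟨hb, -⟩ | ⟨hb, -⟩
        · have := (Rd.mem_N4L' hb).1.1
          omega
        · have := (Rd.mem_N4U' hb).1.1
          omega
      · intro hzb
        have lb := lev_uc H hzb
        rcases hb with ⟨hb, -⟩ | ⟨hb, -⟩
        · have := (Rd.mem_N4L' hb).1.1
          omega
        · exact ncU a ha b hb hab z hz G.ez hzb
  obtain ⟨z, o, G1, k1, k2⟩ := main y y' hne h1 h2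
  obtain ⟨z', o', G2, k3, k4⟩ := main y' y hne.symm h2 h1
  exact ⟨x, y, z, o, y', z', o', ex, hxl, hne, G1, G2, ⟨k1, k2⟩, ⟨k3, k4⟩⟩

omit F in
lemma Gu.levs (H : Gr P r) {x y z o : P} (G : Gu i e x y z o) :
    lev x = i ∧ ((lev y = i + 1 ∧ lev z = i + 2) ∨ (lev y + 1 = i ∧ lev z + 2 = i)) := by
  rcases G.side with ⟨h1, h2, h3⟩ | ⟨h1, h2, h3⟩
  · have := lev_uc H (show x ∈ uc y by rw [h2]; simp)
    have := lev_dc H h3
    omega
  · have := lev_dc H (show x ∈ dc y by rw [h2]; simp)
    have := lev_uc H h3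
    omega

/-- the child of a guarded element is a pendant if its other covers are not excited -/
lemma Gu.pen (h : Okc i psi C e) {x y z o : P} (G : Gu i e x y z o)
    (hn : ∀ w, 1 ≤ e w → (z ∈ dc w ∨ z ∈ uc w) → (lev w = i + 1 ∨ lev w + 1 = i) → w = y) :
    z ∈ PN i C ∧ con i z = {z, y} ∧ sit i z = {o, x} := by
  have H := F.E.H
  have hir : i ≤ r := by have := F.E.hi2; omega
  have hzC := mem_of_pos h.spt G.ez
  rcases G.side with ⟨h1, h2, h3⟩ | ⟨h1, h2, h3⟩
  · have lz := lev_dc H h3
    have hyz : y ∈ uc z := mem_uc.2 (mem_dc.1 h3)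
    have hc : uc z = {y} := by
      ext w
      rw [mem_singleton]
      constructor
      · intro hw
        have lw := lev_uc H hw
        have ew := pos_low H h.adm.l hw (by omega) G.ez
        exact hn w ew (Or.inl (mem_dc.2 (mem_uc.1 hw))) (Or.inl (by omega))
      · rintro rfl
        exact hyz
    have hp : z ∈ PD P i := mem_PD.2 ⟨by omega, by rw [hc, card_singleton], y, mem_uc.1 hyz,
      by rw [h2, card_pair G.ne]⟩
    exact ⟨mem_PN.2 ⟨hzC, Or.inl hp⟩, SO.con_PD H (by omega) hc, by rw [sit_PDs H hp hc, h2]⟩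
  · have lz := lev_uc H h3
    have hyz : y ∈ dc z := mem_dc.2 (mem_uc.1 h3)
    have hc : dc z = {y} := by
      ext w
      rw [mem_singleton]
      constructor
      · intro hw
        have lw := lev_dc H hw
        have ew := pos_upp H hir h.adm.u hw (by omega) G.ez
        exact hn w ew (Or.inr (mem_uc.2 (mem_dc.1 hw))) (Or.inr (by omega))
      · rintro rfl
        exact hyz
    have hp : z ∈ PU P i := mem_PU.2 ⟨by omega, by rw [hc, card_singleton], y, mem_dc.1 hyz,
      by rw [h2, card_pair G.ne]⟩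
    exact ⟨mem_PN.2 ⟨hzC, Or.inr hp⟩, SO.con_PU H (by omega) hc, by rw [sit_PUs H hp hc, h2]⟩

/-- energy five with a guarded pair: two pendants with exactly one common site -/
theorem gs_five (h : Okc i psi C e) (hE : ∑ x, e x = 5) (hcc : Xg.CC i e = ∅)
    (hg : 0 < (GS i psi e).card) : ∃ p ∈ PN i C, ∃ p' ∈ PN i C, p ≠ p' ∧
      (sit i p ∩ sit i p').card = 1 ∧ e = cD i p p' := by
  have H := F.E.H
  obtain ⟨x, y, z, o, y', z', o', ex, lx, hne, G, G', ⟨n1, n2⟩, ⟨n3, n4⟩⟩ := gs_data F h hcc hg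
  obtain ⟨-, L⟩ := G.levs H
  obtain ⟨-, L'⟩ := G'.levs H
  have hzz : z ≠ z' := by
    rintro rfl
    rcases G'.side with g | g
    · exact n1 g.2.2
    · exact n2 g.2.2
  have hyz' : y ≠ z' := by rintro rfl; omega
  have hyz : y ≠ z := by rintro rfl; omega
  have hy'z : y' ≠ z := by rintro rfl; omega
  have hy'z' : y' ≠ z' := by rintro rfl; omega
  have he : e = on {x, y, y', z, z'} := by
    apply eq_on
    · intro a ha
      simp only [mem_insert, mem_singleton] at ha
      rcases ha with rfl | rfl | rfl | rfl | rfl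
      · omega
      · have := G.ey; omega
      · have := G'.ey; omega
      · exact G.ez
      · exact G'.ez
    · rw [card_insert_of_notMem, card_insert_of_notMem, card_insert_of_notMem, card_pair hzz, hE]
      · simp [hy'z, hy'z']
      · simp [hne, hyz, hyz']
      · simp only [mem_insert, mem_singleton]
        rintro (rfl | rfl | rfl | rfl) <;> omega
  have hmem : ∀ w, 1 ≤ e w → (lev w = i + 1 ∨ lev w + 1 = i) → w = y ∨ w = y' := by
    intro w hw hl
    rw [he] at hw
    have := on_pos.1 hw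
    simp only [mem_insert, mem_singleton] at this
    rcases this with rfl | rfl | rfl | rfl | rfl
    · omega
    · exact Or.inl rfl
    · exact Or.inr rfl
    · omega
    · omega
  obtain ⟨a1, a2, a3⟩ := G.pen F h (fun w hw hzw hl => by
    rcases hmem w hw hl with h1 | h1
    · exact h1
    · exfalso
      rw [h1] at hzw
      rcases hzw with h2 | h2
      · exact n1 h2
      · exact n2 h2)
  obtain ⟨b1, b2, b3⟩ := G'.pen F h (fun w hw hzw hl => by
    rcases hmem w hw hl with h1 | h1
    · exfalso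
      rw [h1] at hzw
      rcases hzw with h2 | h2
      · exact n3 h2
      · exact n4 h2
    · exact h1)
  have hoo : o ≠ o' := by
    rintro rfl
    have h1 : y' ∈ dc o ∨ y' ∈ uc o := by
      rcases G'.side with g | g
      · exact Or.inl (mem_dc.2 (mem_uc.1 (by rw [g.2.1]; simp)))
      · exact Or.inr (mem_uc.2 (mem_dc.1 (by rw [g.2.1]; simp)))
    have := G.iso y' h1 hne.symm
    have := G'.ey
    omega
  have hint : sit i z ∩ sit i z' = {x} := by
    rw [a3, b3]
    ext a
    simp only [mem_inter, mem_insert, mem_singleton]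
    constructor
    · rintro ⟨h1 | h1, h2 | h2⟩
      · exact absurd (h1.symm.trans h2) hoo
      · exact h2
      · exact h1
      · exact h1
    · rintro rfl
      exact ⟨Or.inr rfl, Or.inr rfl⟩
  refine ⟨z, a1, z', b1, hzz, by rw [hint, card_singleton], ?_⟩
  rw [he]
  unfold cD
  rw [hint, a2, b2]
  congr 1
  ext a
  simp only [mem_union, mem_insert, mem_singleton]
  tauto

end gu

end Pool.Agent.GaussPoset.Win.Pn

end

/-! From `Pool.Agent.W_448pn_h63.PnR` -/

section

/-!
# The tight cores of energy five (MP_448cb3_co, G2, case B, window j - 1)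
-/

set_option autoImplicit false

namespace Pool.Agent.GaussPoset.Win.Pn

set_option linter.unusedSectionVars false

open Finset W4
open Pool.Agent.GaussPoset.Win.H2 (NoT)
open Pool.Agent.GaussPoset.Win.Xg (Okc kp CanD laL laU Tee Exo SdO Act)
open Pool.Agent.GaussPoset.Win.Rd (P1L P1U TWL TWU GS N4L N4U Hyp hypL hypU TS)
open Pool.Agent.GaussPoset.Win.I2 (lS uS mem_lS mem_uS)
open Pool.Agent.GaussPoset.Win.SO (con PN on mem_PN Cls BL BU nL nU mem_con self_con vp I5 mem_I5
  c5 TD tL tU)

universe u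

variable {P : Type u} [Fintype P] [PartialOrder P] [DecidableEq P] {r i : ℕ}
variable {e f g : P → ℕ} {psi : P → P} {C K s : Finset P} {t : P → ℕ} {d x p : P}

section conv

variable (F : Fr r i psi C)
include F

/-- a core with a nonzero leading coefficient is tight -/
theorem of_coeff (hs : Spt C e) (hc : IsCore i ∅ psi e) {k : ℕ} {c : ℤ}
    (hE : ∑ x, e x ≤ 2 * k + 1)
    (hcf : PowerSeries.coeff (st i C).card (dd ^ k * tC i C e : A) = c) (h0 : c ≠ 0) :
    Okc i psi C e ∧ kp i e = k ∧ sgn i e = c := by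
  have H := F.E.H
  have ha : Xg.Adm i e := by
    by_contra hna
    have h1 : tC i C e = 0 := by
      unfold tC
      split_ifs with hd
      · have h2 : ¬ (AdmL i e ∧ AdmU i e) := fun h => hna ⟨h.1, h.2, hd⟩
        unfold cw
        rw [if_neg h2]
        ring
      · rfl
    rw [h1, mul_zero, map_zero] at hcf
    exact h0 hcf.symm
  have hok : Okc i psi C e := ⟨hs, hc, ha⟩
  have h1 := F.half hok
  have h2 : (∑ x, (e x : ℤ)) ≤ 2 * k + 1 := by exact_mod_cast hE
  have h3 : kp i e = k := by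
    by_contra hne
    have hlt : kp i e < k := by omega
    have hle : (AL i e).card + (AU i e).card ≤ (st i C).card := by
      rw [← card_union_of_disjoint ha.d]
      exact card_le_card (union_subset (AL_sub F.E.part hs) (AU_sub H F.E.part hs))
    rw [tC_form ha, ← mul_assoc, ← pow_add] at hcf
    unfold dd at hcf
    rw [PowerSeries.coeff_X_pow_mul', if_neg (by unfold kp at hlt; omega)] at hcf
    exact h0 hcf.symm
  exact ⟨hok, h3, by rw [← lead H F.E.part hs ha h3, hcf]⟩

omit F in
/-- near elements above a far one are touched -/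
lemma con_touch (H : Gr P r) {z : P} (hz : lev z = i + 2 ∨ lev z + 2 = i) {y : P}
    (hy : y ∈ con i z) : (lev y = i + 1 → z ⋖ y) ∧ (lev y + 1 = i → y ⋖ z) := by
  rcases hz with hz | hz
  · rw [SO.con_two_low H hz, mem_insert] at hy
    rcases hy with rfl | hy
    · exact ⟨fun h => by omega, fun h => by omega⟩
    · have := lev_uc H hy
      exact ⟨fun _ => mem_uc.1 hy, fun h => by omega⟩
  · rw [SO.con_two_upp H hz, mem_insert] at hy
    rcases hy with rfl | hy
    · exact ⟨fun h => by omega, fun h => by omega⟩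
    · have := lev_dc H hy
      exact ⟨fun h => by omega, fun _ => mem_dc.1 hy⟩

lemma pn_lev (hp : p ∈ PN i C) : lev p = i + 2 ∨ lev p + 2 = i := by
  obtain ⟨y, -, -, h⟩ := PN_cases F.E hp
  rcases h with h | h
  · exact Or.inl h.1
  · exact Or.inr h.1

/-- a pair of a charged element and a pendant -/
theorem c5_ok {q : P × P} (hq : q ∈ I5 i C) : Okc i psi C (c5 i q) ∧ kp i (c5 i q) = 2 ∧
    sgn i (c5 i q) = chg i C q.1 * vp i q.2 ∧ Xg.CC i (c5 i q) = ∅ ∧ ∑ x, c5 i q x = 5 := by
  have H := F.E.H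
  obtain ⟨h1, h2, h3⟩ := mem_I5.1 hq
  obtain ⟨v1, v2⟩ := SO.I5_value H F.E.hi F.E.hi2 F.E.hC hq
  have hz : lev q.1 = i + 2 ∨ lev q.1 + 2 = i := by
    rcases h1 with h1 | h1
    · exact Or.inl (mem_ZL.1 h1).2.1
    · exact Or.inr (mem_ZU.1 h1).2.1
  have hp := pn_lev F h2
  have hcore : IsCore i ∅ psi (c5 i q) := by
    unfold SO.c5
    apply core_on
    intro y hy
    rcases mem_union.1 hy with hy | hy
    · have := con_touch H hz hy
      exact ⟨fun h => ⟨q.1, mem_union_left _ (self_con (by omega)), this.1 h⟩,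
        fun h => ⟨q.1, mem_union_left _ (self_con (by omega)), this.2 h⟩⟩
    · have := con_touch H hp hy
      exact ⟨fun h => ⟨q.2, mem_union_right _ (self_con (by omega)), this.1 h⟩,
        fun h => ⟨q.2, mem_union_right _ (self_con (by omega)), this.2 h⟩⟩
  have h4 : chg i C q.1 ≠ 0 := by unfold chg; split_ifs <;> norm_num
  have h5 : vp i q.2 ≠ 0 := by unfold SO.vp; split_ifs <;> norm_num
  obtain ⟨o1, o2, o3⟩ := of_coeff F (k := 2) (SO.c5_spt H F.E.hC hq) hcore (by omega) v2
    (mul_ne_zero h4 h5)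
  refine ⟨o1, o2, o3, ?_, v1⟩
  unfold SO.c5
  apply cc_on F.E
  have c1 := SO.con_cls H (z := q.1) (i := i) (by omega)
  have c2 := SO.con_cls H (z := q.2) (i := i) (by omega)
  constructor
  · intro x hx
    rcases mem_union.1 hx with hx | hx
    · exact c1.ns x hx
    · exact c2.ns x hx
  · intro x hx hl y hy
    rcases mem_union.1 hx with hx | hx
    · exact mem_union_left _ (c1.lo x hx hl y hy)
    · exact mem_union_right _ (c2.lo x hx hl y hy)
  · intro x hx hl y hy
    rcases mem_union.1 hx with hx | hx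
    · exact mem_union_left _ (c1.up x hx hl y hy)
    · exact mem_union_right _ (c2.up x hx hl y hy)

/-! ### twins -/

/-- the elements with three sites -/
lemma zl_td {z : P} (hz : z ∈ ZL i C) :
    ∃ x x' s, TD uc (tL (P := P) i) (lS P i) z x x' s := by
  have H := F.E.H
  obtain ⟨h1, h2, h3⟩ := mem_ZL.1 hz
  obtain ⟨x, x', hne, hc⟩ := card_eq_two.1 (card_uc_of_up H h2 h3)
  have hu : (uc x ∪ uc x').card = 3 := by
    rw [← card_sts] at h3
    rw [← h3]
    congr 1
    ext v
    rw [mem_sts_iff H h2, mem_union, hc]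
    simp
  have hi1 := card_union_add_card_inter (uc x) (uc x')
  have c1 := uc_card_le H x
  have c2 := uc_card_le H x'
  have hI : 1 ≤ (uc x ∩ uc x').card := by
    rw [Nat.one_le_iff_ne_zero, card_ne_zero]
    by_cases h4 : (uc x).card = 2
    · obtain ⟨a, ha, hb⟩ := F.hT z h2 x (by rw [hc]; simp) x' (by rw [hc]; simp) hne h4
      exact ⟨a, mem_inter.2 ⟨ha, hb⟩⟩
    · obtain ⟨a, ha, hb⟩ := F.hT z h2 x' (by rw [hc]; simp) x (by rw [hc]; simp) hne.symm
        (by omega)
      exact ⟨a, mem_inter.2 ⟨hb, ha⟩⟩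
  obtain ⟨s, hs⟩ := card_eq_one.1 (show (uc x ∩ uc x').card = 1 by omega)
  have hs' : s ∈ uc x ∩ uc x' := by rw [hs]; simp
  rw [mem_inter] at hs'
  refine ⟨x, x', s, ⟨mem_lS.2 (by omega), by unfold SO.tL; omega, hc, hne, by omega, by omega,
    hs'.1, hs'.2, ?_⟩⟩
  intro v hv hv'
  have : v ∈ uc x ∩ uc x' := mem_inter.2 ⟨hv, hv'⟩
  rw [hs, mem_singleton] at this
  exact this

/-- the data of a pair of twins -/
lemma twd {z z' : P} (T : Tw i C z z') : ∃ x x' s,
    TD uc (tL (P := P) i) (lS P i) z x x' s ∧ TD uc (tL (P := P) i) (lS P i) z' x x' s ∧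
      lev z = i + 2 ∧ lev z' = i + 2 ∧ lev x = i + 1 ∧ lev x' = i + 1 := by
  have H := F.E.H
  obtain ⟨x, x', s, D⟩ := zl_td F T.zl
  have lz := (mem_ZL.1 T.zl).2.1
  have mx : x ∈ uc z := by rw [D.cw]; simp
  have mx' : x' ∈ uc z := by rw [D.cw]; simp
  have l1 := lev_uc H mx
  have l2 := lev_uc H mx'
  have l3 := lev_uc H (show x ∈ uc z' by rw [← T.uc]; exact mx)
  exact ⟨x, x', s, D, ⟨mem_lS.2 (by omega), by unfold SO.tL; omega, by rw [← T.uc, D.cw], D.ne,
    D.cx, D.cx', D.sx, D.sx', D.only⟩, lz, by omega, by omega, by omega⟩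

omit F in
lemma cT_spt (H : Gr P r) (hC : Part (i + 1) C) {z z' : P} (hz : z ∈ C) (hz' : z' ∈ C)
    (l1 : lev z = i + 2) (l2 : lev z' = i + 2) : Spt C (cT i z z') := by
  intro y hy
  unfold cT
  rw [on_zero, on_zero]
  · rw [mem_singleton]
    rintro rfl
    exact hy hz
  · intro h
    rcases mem_union.1 h with h | h
    · exact hy (SO.con_sub H hC hz (by omega) h)
    · exact hy (SO.con_sub H hC hz' (by omega) h)

/-- a pair of twins -/
theorem tw_ok {z z' : P} (T : Tw i C z z') : Okc i psi C (cT i z z') ∧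
    kp i (cT i z z') = 2 ∧ sgn i (cT i z z') = -1 ∧ Xg.CC i (cT i z z') = ∅ ∧
    ∑ x, cT i z z' x = 5 := by
  have H := F.E.H
  obtain ⟨x, x', s, D, D', lz, lz', lx, lx'⟩ := twd F T
  obtain ⟨v1, v2, v3, v4, v5⟩ := cT_vals F lz lz' D.cw D'.cw T.ne.symm
  have hsp := cT_spt H F.E.hC (mem_ZL.1 T.zl).1 T.mC lz lz'
  have hlab : ∀ y, cT i z z' y = if y = z then 2 else if y = z' ∨ y = x ∨ y = x' then 1 else 0 := by
    intro y
    split_ifs with h1 h2
    · rw [h1, v1]
    · rcases h2 with rfl | rfl | rfl <;> assumption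
    · push Not at h2
      exact v5 y h1 h2.1 h2.2.1 h2.2.2
  obtain ⟨g1, g2, g3, g4, -, g5⟩ := SO.clo_coeff H F.E.hi F.E.hi2 F.E.hC hsp D D' T.ne hlab
  have hcore : IsCore i ∅ psi (cT i z z') := by
    intro y hy
    by_contra h0
    obtain ⟨h1, h2, h3, -⟩ := mem_Rst.1 hy
    apply h3
    rw [mem_Tch]
    have hyx : y = x ∨ y = x' := by
      by_contra hne
      push Not at hne
      rcases mem_near.1 h1 with h4 | h4
      · exact h0 (v5 y (by rintro rfl; omega) (by rintro rfl; omega) hne.1 hne.2)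
      · exact h0 (v5 y (by rintro rfl; omega) (by rintro rfl; omega) hne.1 hne.2)
    rcases hyx with rfl | rfl
    · exact Or.inl ⟨lx, z, mem_uc.1 (by rw [D.cw]; simp), by omega⟩
    · exact Or.inl ⟨lx', z, mem_uc.1 (by rw [D.cw]; simp), by omega⟩
  obtain ⟨o1, o2, o3⟩ := of_coeff F (k := 2) hsp hcore (by omega) g5 (by norm_num)
  refine ⟨o1, o2, o3, ?_, g4⟩
  rw [eq_empty_iff_forall_notMem]
  rintro ⟨d, v⟩ hdx
  have hc : CanD i (cT i z z') d v := (Xg.mem_CC H).1 hdx
  have hl := hc.lvl H
  have hv : cT i z z' v = 0 := by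
    apply v5 <;> rintro rfl <;> omega
  rcases hc with ⟨w, w2, p, q, T', Ex, hrk⟩ | ⟨w, w2, p, q, T', Ex, -⟩
  · have ld : lev d = i + 2 := by
      have := T'.ld
      unfold laL at this
      omega
    have hd : d = z ∨ d = z' := by
      by_contra hne
      push Not at hne
      have := Ex.pos
      rw [v5 d hne.1 hne.2 (by rintro rfl; omega) (by rintro rfl; omega)] at this
      omega
    rcases hd with rfl | rfl
    · have := hrk z' (by rw [← T.uc, T'.ud]) T.rk
      omega
    · have hww : ({w, w2} : Finset P) = {x, x'} := by rw [← T'.ud, ← T.uc, D.cw]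
      have hw : cT i z d w = 1 := by
        have : w ∈ ({x, x'} : Finset P) := by rw [← hww]; simp
        rw [mem_insert, mem_singleton] at this
        rcases this with rfl | rfl <;> assumption
      have hw2 : cT i z d w2 = 1 := by
        have : w2 ∈ ({x, x'} : Finset P) := by rw [← hww]; simp
        rw [mem_insert, mem_singleton] at this
        rcases this with rfl | rfl <;> assumption
      rcases Ex.act with (h | h) | (h | h) <;> omega
  · have ld : lev d + 2 = i := by
      have := T'.ld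
      unfold laU at this
      omega
    have := Ex.pos
    rw [v5 d (by rintro rfl; omega) (by rintro rfl; omega) (by rintro rfl; omega)
      (by rintro rfl; omega)] at this
    omega

/-! ### pendants with one common site -/

/-- the lower side of a pendant block -/
lemma pn_low (hp : p ∈ PN i C) {a : P} (ha : lev a = i) :
    (∃ x ∈ con i p, x ⋖ a) ↔ (p ∈ PD P i ∧ a ∈ sit i p) := by
  have H := F.E.H
  obtain ⟨y, hc, hne, h⟩ := PN_cases F.E hp
  rw [hc]
  simp only [mem_insert, mem_singleton, exists_eq_or_imp, exists_eq_left]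
  rcases h with ⟨l1, l2, h1, h2, h3⟩ | ⟨l1, l2, h1, h2, h3⟩
  · rw [sit_PDs H h3 h1, mem_uc]
    constructor
    · rintro (h | h)
      · have := lev_cov H h
        omega
      · exact ⟨h3, h⟩
    · exact fun h => Or.inr h.2
  · constructor
    · rintro (h | h)
      · have := lev_cov H h
        omega
      · have := lev_cov H h
        omega
    · rintro ⟨h, -⟩
      have := (mem_PD.1 h).1
      omega

/-- the upper side of a pendant block -/
lemma pn_upp (hp : p ∈ PN i C) {a : P} (ha : lev a = i) :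
    (∃ x ∈ con i p, a ⋖ x) ↔ (p ∉ PD P i ∧ a ∈ sit i p) := by
  have H := F.E.H
  obtain ⟨y, hc, hne, h⟩ := PN_cases F.E hp
  rw [hc]
  simp only [mem_insert, mem_singleton, exists_eq_or_imp, exists_eq_left]
  rcases h with ⟨l1, l2, h1, h2, h3⟩ | ⟨l1, l2, h1, h2, h3⟩
  · constructor
    · rintro (h | h)
      · have := lev_cov H h
        omega
      · have := lev_cov H h
        omega
    · rintro ⟨h, -⟩
      exact absurd h3 h
  · have hnd : p ∉ PD P i := by
      intro h
      have := (mem_PD.1 h).1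
      omega
    rw [sit_PUs H h3 h1, mem_dc]
    constructor
    · rintro (h | h)
      · have := lev_cov H h
        omega
      · exact ⟨hnd, h⟩
    · exact fun h => Or.inr h.2

lemma pn_two (hp : p ∈ PN i C) : (sit i p).card = 2 ∧ ∀ a ∈ sit i p, lev a = i := by
  have H := F.E.H
  obtain ⟨y, hc, hne, h⟩ := PN_cases F.E hp
  rcases h with ⟨l1, l2, h1, h2, h3⟩ | ⟨l1, l2, h1, h2, h3⟩
  · rw [sit_PDs H h3 h1]
    refine ⟨h2, fun a ha => ?_⟩
    have := lev_uc H ha
    omega
  · rw [sit_PUs H h3 h1]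
    refine ⟨h2, fun a ha => ?_⟩
    have := lev_dc H ha
    omega

/-- the near element of a pendant is next to all its sites -/
lemma pn_near (hp : p ∈ PN i C) {x : P} (hx : x ∈ con i p) {a : P} (ha : a ∈ sit i p) :
    (lev x = i + 1 → x ⋖ a) ∧ (lev x + 1 = i → a ⋖ x) := by
  have H := F.E.H
  obtain ⟨y, hc, hne, h⟩ := PN_cases F.E hp
  rw [hc, mem_insert, mem_singleton] at hx
  rcases h with ⟨l1, l2, h1, h2, h3⟩ | ⟨l1, l2, h1, h2, h3⟩
  · rw [sit_PDs H h3 h1, mem_uc] at ha
    rcases hx with rfl | rfl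
    · exact ⟨fun h => by omega, fun h => by omega⟩
    · exact ⟨fun _ => ha, fun h => by omega⟩
  · rw [sit_PUs H h3 h1, mem_dc] at ha
    rcases hx with rfl | rfl
    · exact ⟨fun h => by omega, fun h => by omega⟩
    · exact ⟨fun h => by omega, fun _ => ha⟩

/-- two pendants with exactly one common site -/
theorem cD_ok {p' : P} (hp : p ∈ PN i C) (hp' : p' ∈ PN i C) (hne : p ≠ p')
    (h1 : (sit i p ∩ sit i p').card = 1) : Okc i psi C (cD i p p') ∧
    kp i (cD i p p') = 2 ∧ sgn i (cD i p p') = vp i p * vp i p' ∧ Xg.CC i (cD i p p') = ∅ ∧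
    ∑ x, cD i p p' x = 5 := by
  classical
  have H := F.E.H
  have hC := F.E.hC
  obtain ⟨v, hv⟩ := card_eq_one.1 h1
  obtain ⟨c1, k1⟩ := pn_two F hp
  obtain ⟨c2, k2⟩ := pn_two F hp'
  have hvm : v ∈ sit i p ∩ sit i p' := by rw [hv]; simp
  obtain ⟨hv1, hv2⟩ := mem_inter.1 hvm
  have lv' := k1 v hv1
  obtain ⟨y, hc, hny, hy⟩ := PN_cases F.E hp
  obtain ⟨y', hc', hny', hy'⟩ := PN_cases F.E hp'
  have hyy : y ≠ y' := by
    rintro rfl
    rcases hy with ⟨a1, a2, a3, a4, a5⟩ | ⟨a1, a2, a3, a4, a5⟩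
    · rcases hy' with ⟨b1, b2, b3, b4, b5⟩ | ⟨b1, b2, b3, b4, b5⟩
      · rw [sit_PDs H a5 a3, sit_PDs H b5 b3, inter_self] at h1
        omega
      · omega
    · rcases hy' with ⟨b1, b2, b3, b4, b5⟩ | ⟨b1, b2, b3, b4, b5⟩
      · omega
      · rw [sit_PUs H a5 a3, sit_PUs H b5 b3, inter_self] at h1
        omega
  set s : Finset P := con i p ∪ con i p' ∪ (sit i p ∩ sit i p') with hsdef
  have hse : s = {p, y, p', y', v} := by
    rw [hsdef, hc, hc', hv]
    ext a
    simp only [mem_union, mem_insert, mem_singleton]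
    tauto
  have hlp := pn_lev F hp
  have hlp' := pn_lev F hp'
  have hly : lev y = i + 1 ∨ lev y + 1 = i := by
    rcases hy with h | h
    · exact Or.inl h.2.1
    · exact Or.inr h.2.1
  have hly' : lev y' = i + 1 ∨ lev y' + 1 = i := by
    rcases hy' with h | h
    · exact Or.inl h.2.1
    · exact Or.inr h.2.1
  have hcard : s.card = 5 := by
    rw [hse, card_insert_of_notMem, card_insert_of_notMem, card_insert_of_notMem, card_pair]
    · rintro rfl; omega
    · simp only [mem_insert, mem_singleton]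
      rintro (rfl | rfl)
      · exact hny' rfl
      · omega
    · simp only [mem_insert, mem_singleton]
      rintro (rfl | rfl | rfl)
      · omega
      · exact hyy rfl
      · omega
    · simp only [mem_insert, mem_singleton]
      rintro (rfl | rfl | rfl | rfl)
      · exact hny rfl
      · exact hne rfl
      · omega
      · omega
  have hsC : s ⊆ C := by
    intro a ha
    rcases mem_union.1 ha with ha | ha
    · rcases mem_union.1 ha with ha | ha
      · exact SO.con_sub H hC (mem_PN.1 hp).1 (by omega) ha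
      · exact SO.con_sub H hC (mem_PN.1 hp').1 (by omega) ha
    · have := SO.sit_part H hC (mem_PN.1 hp).1 (mem_inter.1 ha).1
      exact (mem_st.1 this).1
  have hcls : ClsS i s := by
    have q1 := SO.con_cls H (z := p) (i := i) (by omega)
    have q2 := SO.con_cls H (z := p') (i := i) (by omega)
    constructor
    · intro x hx hl w hw
      rcases mem_union.1 hx with hx | hx
      · rcases mem_union.1 hx with hx | hx
        · exact mem_union_left _ (mem_union_left _ (q1.lo x hx hl w hw))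
        · exact mem_union_left _ (mem_union_right _ (q2.lo x hx hl w hw))
      · have := k1 x (mem_inter.1 hx).1
        omega
    · intro x hx hl w hw
      rcases mem_union.1 hx with hx | hx
      · rcases mem_union.1 hx with hx | hx
        · exact mem_union_left _ (mem_union_left _ (q1.up x hx hl w hw))
        · exact mem_union_left _ (mem_union_right _ (q2.up x hx hl w hw))
      · have := k1 x (mem_inter.1 hx).1
        omega
  have hsite : ∀ a, lev a = i → (a ∈ s ↔ a ∈ sit i p ∩ sit i p') := by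
    intro a ha
    constructor
    · intro h
      rcases mem_union.1 h with h | h
      · exfalso
        rcases mem_union.1 h with h | h
        · exact (SO.con_cls H (z := p) (i := i) (by omega)).ns a h ha
        · exact (SO.con_cls H (z := p') (i := i) (by omega)).ns a h ha
      · exact h
    · exact fun h => mem_union_right _ h
  -- the killed sites
  have hkL : kLs i s = (if p ∈ PD P i then sit i p \ sit i p' else ∅) ∪
      (if p' ∈ PD P i then sit i p' \ sit i p else ∅) := by
    ext a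
    rw [mem_kLs]
    constructor
    · rintro ⟨la, hns, x, hx, hxa⟩
      rw [hsite a la, mem_inter] at hns
      rcases mem_union.1 hx with hx | hx
      · rcases mem_union.1 hx with hx | hx
        · obtain ⟨g1, g2⟩ := (pn_low F hp la).1 ⟨x, hx, hxa⟩
          rw [if_pos g1]
          exact mem_union_left _ (mem_sdiff.2 ⟨g2, fun h => hns ⟨g2, h⟩⟩)
        · obtain ⟨g1, g2⟩ := (pn_low F hp' la).1 ⟨x, hx, hxa⟩
          rw [if_pos g1]
          exact mem_union_right _ (mem_sdiff.2 ⟨g2, fun h => hns ⟨h, g2⟩⟩)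
      · have := k1 x (mem_inter.1 hx).1
        have := lev_cov H hxa
        omega
    · intro h
      rcases mem_union.1 h with h | h
      · split_ifs at h with g
        · obtain ⟨h2, h3⟩ := mem_sdiff.1 h
          have la := k1 a h2
          obtain ⟨x, hx, hxa⟩ := (pn_low F hp la).2 ⟨g, h2⟩
          exact ⟨la, fun h4 => h3 (mem_inter.1 ((hsite a la).1 h4)).2, x,
            mem_union_left _ (mem_union_left _ hx), hxa⟩
        · exact absurd h (notMem_empty _)
      · split_ifs at h with g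
        · obtain ⟨h2, h3⟩ := mem_sdiff.1 h
          have la := k2 a h2
          obtain ⟨x, hx, hxa⟩ := (pn_low F hp' la).2 ⟨g, h2⟩
          exact ⟨la, fun h4 => h3 (mem_inter.1 ((hsite a la).1 h4)).1, x,
            mem_union_left _ (mem_union_right _ hx), hxa⟩
        · exact absurd h (notMem_empty _)
  have hkU : kUs i s = (if p ∈ PD P i then ∅ else sit i p \ sit i p') ∪
      (if p' ∈ PD P i then ∅ else sit i p' \ sit i p) := by
    ext a
    rw [mem_kUs]
    constructor
    · rintro ⟨la, hns, x, hx, hxa⟩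
      rw [hsite a la, mem_inter] at hns
      rcases mem_union.1 hx with hx | hx
      · rcases mem_union.1 hx with hx | hx
        · obtain ⟨g1, g2⟩ := (pn_upp F hp la).1 ⟨x, hx, hxa⟩
          rw [if_neg g1]
          exact mem_union_left _ (mem_sdiff.2 ⟨g2, fun h => hns ⟨g2, h⟩⟩)
        · obtain ⟨g1, g2⟩ := (pn_upp F hp' la).1 ⟨x, hx, hxa⟩
          rw [if_neg g1 (c := p' ∈ PD P i)]
          exact mem_union_right _ (mem_sdiff.2 ⟨g2, fun h => hns ⟨h, g2⟩⟩)
      · have := k1 x (mem_inter.1 hx).1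
        have := lev_cov H hxa
        omega
    · intro h
      rcases mem_union.1 h with h | h
      · split_ifs at h with g
        · exact absurd h (notMem_empty _)
        · obtain ⟨h2, h3⟩ := mem_sdiff.1 h
          have la := k1 a h2
          obtain ⟨x, hx, hxa⟩ := (pn_upp F hp la).2 ⟨g, h2⟩
          exact ⟨la, fun h4 => h3 (mem_inter.1 ((hsite a la).1 h4)).2, x,
            mem_union_left _ (mem_union_left _ hx), hxa⟩
      · split_ifs at h with g
        · exact absurd h (notMem_empty _)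
        · obtain ⟨h2, h3⟩ := mem_sdiff.1 h
          have la := k2 a h2
          obtain ⟨x, hx, hxa⟩ := (pn_upp F hp' la).2 ⟨g, h2⟩
          exact ⟨la, fun h4 => h3 (mem_inter.1 ((hsite a la).1 h4)).1, x,
            mem_union_left _ (mem_union_right _ hx), hxa⟩
  have hfL : fLs i s = ∅ := by
    rw [eq_empty_iff_forall_notMem]
    intro z hz
    obtain ⟨h2, h3, h4⟩ := mem_fLs.1 hz
    have hvs : v ∈ s := (hsite v lv').2 hvm
    rcases mem_union.1 h2 with h2 | h2
    · rcases mem_union.1 h2 with h2 | h2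
      · exact h4 v ((pn_near F hp h2 hv1).1 h3) hvs
      · exact h4 v ((pn_near F hp' h2 hv2).1 h3) hvs
    · have := k1 z (mem_inter.1 h2).1
      omega
  have hfU : fUs i s = ∅ := by
    rw [eq_empty_iff_forall_notMem]
    intro z hz
    obtain ⟨h2, h3, h4⟩ := mem_fUs.1 hz
    have hvs : v ∈ s := (hsite v lv').2 hvm
    rcases mem_union.1 h2 with h2 | h2
    · rcases mem_union.1 h2 with h2 | h2
      · exact h4 v ((pn_near F hp h2 hv1).2 h3) hvs
      · exact h4 v ((pn_near F hp' h2 hv2).2 h3) hvs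
    · have := k1 z (mem_inter.1 h2).1
      omega
  have n1 : (sit i p \ sit i p').card = 1 := by
    have := card_sdiff_add_card_inter (sit i p) (sit i p')
    omega
  have n2 : (sit i p' \ sit i p).card = 1 := by
    have := card_sdiff_add_card_inter (sit i p') (sit i p)
    rw [inter_comm] at this
    omega
  have hdis : Disjoint (sit i p \ sit i p') (sit i p' \ sit i p) := by
    rw [disjoint_left]
    intro a ha hb
    exact (mem_sdiff.1 ha).2 (mem_sdiff.1 hb).1
  have hd : Disjoint (kLs i s) (kUs i s) := by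
    rw [hkL, hkU]
    split_ifs <;> simp [hdis, hdis.symm]
  have hS : cD i p p' = on s := rfl
  rw [hS]
  refine ⟨⟨?_, ?_, adm_S F.E hcls hd⟩, ?_, ?_, ?_, ?_⟩
  · exact SO.on_spt hsC
  · apply core_on
    intro z hz
    rcases mem_union.1 hz with hz | hz
    · rcases mem_union.1 hz with hz | hz
      · have := con_touch H hlp hz
        exact ⟨fun h => ⟨p, mem_union_left _ (mem_union_left _ (self_con (by omega))),
          this.1 h⟩, fun h => ⟨p, mem_union_left _ (mem_union_left _ (self_con (by omega))),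
          this.2 h⟩⟩
      · have := con_touch H hlp' hz
        exact ⟨fun h => ⟨p', mem_union_left _ (mem_union_right _ (self_con (by omega))),
          this.1 h⟩, fun h => ⟨p', mem_union_left _ (mem_union_right _ (self_con (by omega))),
          this.2 h⟩⟩
    · have := k1 z (mem_inter.1 hz).1
      exact ⟨fun h => by omega, fun h => by omega⟩
  · rw [kp_S F.E hcls, hfL, hfU, hkL, hkU]
    split_ifs with g1 g2 g2
    · rw [card_union_of_disjoint hdis, n1, n2]
      simp
    · rw [union_empty, empty_union, n1, n2]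
      simp
    · rw [union_empty, empty_union, n1, n2]
      simp
    · rw [card_union_of_disjoint hdis, n1, n2]
      simp
  · rw [sgn_S F.E hcls, hfU, hkL]
    unfold SO.vp
    split_ifs with g1 g2 g2
    · rw [card_union_of_disjoint hdis, n1, n2]
      simp
    · rw [union_empty, n1]
      simp
    · rw [empty_union, n2]
      simp
    · simp
  · apply cc_none F.E
    intro d hd'
    have hds := on_pos.1 hd'
    rw [hse] at hds
    simp only [mem_insert, mem_singleton] at hds
    constructor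
    · intro hl
      rcases hds with rfl | rfl | rfl | rfl | rfl
      · rcases hy with h | h
        · rw [h.2.2.1]; simp
        · omega
      · omega
      · rcases hy' with h | h
        · rw [h.2.2.1]; simp
        · omega
      · omega
      · omega
    · intro hl
      rcases hds with rfl | rfl | rfl | rfl | rfl
      · rcases hy with h | h
        · omega
        · rw [h.2.2.1]; simp
      · omega
      · rcases hy' with h | h
        · omega
        · rw [h.2.2.1]; simp
      · omega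
      · omega
  · rw [SO.on_sum, hcard]

end conv

section cls

variable (F : Fr r i psi C) (hm : Meet i C)
include F hm

/-- THE TIGHT CORES of energy five -/
theorem tt_five (h : Okc i psi C e) (hE : ∑ x, e x = 5) (hk : kp i e = 2)
    (hcc : Xg.CC i e = ∅) : (∃ q ∈ I5 i C, e = c5 i q) ∨ (∃ z z', Tw i C z z' ∧ e = cT i z z') ∨
      ∃ p ∈ PN i C, ∃ p' ∈ PN i C, p ≠ p' ∧ (sit i p ∩ sit i p').card = 1 ∧ e = cD i p p' := by
  have g1 := F.gen h (by omega)
  rw [hcc, card_empty, hk, hE] at g1
  unfold nb at g1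
  push_cast at g1
  have hTU : TWU i e = ∅ := Rd.TWU_empty F.G
  rcases Nat.eq_zero_or_pos ((P1L i psi e).card + (P1U i psi e).card) with h1 | h1
  · rcases Nat.eq_zero_or_pos (GS i psi e).card with h2 | h2
    · rcases Nat.eq_zero_or_pos (TWL i e).card with h3 | h3
      · exfalso
        rw [hTU, card_empty] at g1
        push_cast at g1
        omega
      · obtain ⟨z, hz⟩ := card_pos.1 h3
        obtain ⟨z', a, b⟩ := tw_five F h hE hcc hz
        exact Or.inr (Or.inl ⟨z, z', a, b⟩)
    · exact Or.inr (Or.inr (gs_five F h hE hcc h2))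
  · obtain ⟨p, y, B⟩ := blo_of F hm h h1
    obtain ⟨z, a, b⟩ := blk_five F hm h hE hk B
    exact Or.inl ⟨(z, p), a, b⟩

end cls

end Pool.Agent.GaussPoset.Win.Pn

end

/-! From `Pool.Agent.W_448pn_h63.PnS` -/

section

/-!
# The series pinned at one element, energy five (MP_448cb3_co, G2, case B, window j - 1)
-/

set_option autoImplicit false

namespace Pool.Agent.GaussPoset.Win.Pn

set_option linter.unusedSectionVars false

open Finset W4
open Pool.Agent.GaussPoset.Win.Xg (Okc kp CanD)
open Pool.Agent.GaussPoset.Win.SO (con PN on mem_PN Cls BL BU nL nU mem_con self_con vp I5 mem_I5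
  c5 TD tL tU)

universe u

variable {P : Type u} [Fintype P] [PartialOrder P] [DecidableEq P] {r i : ℕ}
variable {e f g : P → ℕ} {psi : P → P} {C K s : Finset P} {t : P → ℕ} {d x p w : P}

/-- the element is at distance two of the window -/
def Two (i : ℕ) (z : P) : Prop := lev z = i + 2 ∨ lev z + 2 = i

lemma con_far (H : Gr P r) {a z : P} (ha : Two i a) (hz : Two i z) : a ∈ con i z ↔ a = z := by
  unfold Two at ha hz
  constructor
  · intro h
    rcases hz with hz | hz
    · rw [SO.con_two_low H hz, mem_insert] at h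
      rcases h with h | h
      · exact h
      · have := lev_uc H h
        omega
    · rw [SO.con_two_upp H hz, mem_insert] at h
      rcases h with h | h
      · exact h
      · have := lev_dc H h
        omega
  · rintro rfl
    exact self_con (by omega)

lemma pin_ind (hw : w ∈ C) : Pin C (ind w) e ↔ 1 ≤ e w := by
  constructor
  · intro h
    have := h w hw
    rwa [ind_self] at this
  · intro h y hy
    by_cases h1 : y = w
    · rw [h1, ind_self]
      exact h
    · rw [ind_ne h1]
      exact Nat.zero_le _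

lemma far_ind (hw : lev w = i + 2) : Far i (ind w) := by
  intro y hy
  by_cases h1 : y = w
  · rw [h1, hw]
  · rw [ind_ne h1] at hy
    omega

lemma once_ind : Once i C (ind w) := fun y _ _ => ind_le y

open Classical in
/-- the ordered pairs of twins -/
noncomputable def Tws (i : ℕ) (C : Finset P) : Finset (P × P) :=
  (C ×ˢ C).filter (fun q => Tw i C q.1 q.2)

lemma mem_Tws {q : P × P} : q ∈ Tws i C ↔ Tw i C q.1 q.2 := by
  classical
  unfold Tws
  rw [mem_filter, mem_product]
  exact ⟨fun h => h.2, fun h => ⟨⟨(mem_ZL.1 h.zl).1, h.mC⟩, h⟩⟩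

open Classical in
/-- the pendants which have exactly one site in common with the pendant `w` -/
noncomputable def Ov (i : ℕ) (C : Finset P) (w : P) : Finset P :=
  (PN i C).filter (fun p => w ∈ PN i C ∧ w ≠ p ∧ (sit i w ∩ sit i p).card = 1)

lemma mem_Ov {p : P} : p ∈ Ov i C w ↔ p ∈ PN i C ∧ w ∈ PN i C ∧ w ≠ p ∧
    (sit i w ∩ sit i p).card = 1 := by
  classical
  unfold Ov
  rw [mem_filter]

lemma cD_comm {p p' : P} : cD i p p' = cD i p' p := by
  unfold cD
  rw [union_comm (con i p), inter_comm]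

section vals

variable (F : Fr r i psi C)
include F

lemma c5_pos {q : P × P} (hq : q ∈ I5 i C) {a : P} (ha : Two i a) :
    1 ≤ c5 i q a ↔ q.1 = a ∨ q.2 = a := by
  have H := F.E.H
  obtain ⟨h1, h2, h3⟩ := mem_I5.1 hq
  have z1 : Two i q.1 := by
    rcases h1 with h1 | h1
    · exact Or.inl (mem_ZL.1 h1).2.1
    · exact Or.inr (mem_ZU.1 h1).2.1
  have z2 : Two i q.2 := pn_lev F h2
  unfold SO.c5
  rw [on_pos, mem_union, con_far H ha z1, con_far H ha z2, eq_comm, eq_comm (a := a)]

lemma c5_site {q : P × P} (hq : q ∈ I5 i C) {a : P} (ha : lev a = i) : c5 i q a = 0 := by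
  have H := F.E.H
  obtain ⟨h1, h2, h3⟩ := mem_I5.1 hq
  have z1 : Two i q.1 := by
    rcases h1 with h1 | h1
    · exact Or.inl (mem_ZL.1 h1).2.1
    · exact Or.inr (mem_ZU.1 h1).2.1
  have z2 : Two i q.2 := pn_lev F h2
  unfold Two at z1 z2
  unfold SO.c5
  apply on_zero
  intro h
  rcases mem_union.1 h with h | h
  · exact (SO.con_cls H (z := q.1) (i := i) (by omega)).ns a h ha
  · exact (SO.con_cls H (z := q.2) (i := i) (by omega)).ns a h ha

lemma cT_pos {z z' : P} (T : Tw i C z z') {a : P} (ha : Two i a) :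
    1 ≤ cT i z z' a ↔ z = a ∨ z' = a := by
  have H := F.E.H
  obtain ⟨x, x', s, D, D', lz, lz', lx, lx'⟩ := twd F T
  obtain ⟨v1, v2, v3, v4, v5⟩ := cT_vals F lz lz' D.cw D'.cw T.ne.symm
  unfold Two at ha
  constructor
  · intro h
    by_contra hne
    push Not at hne
    rw [v5 a (fun h' => hne.1 h'.symm) (fun h' => hne.2 h'.symm) (by rintro rfl; omega)
      (by rintro rfl; omega)] at h
    omega
  · rintro (rfl | rfl)
    · omega
    · omega

lemma cT_two {z z' : P} (T : Tw i C z z') : cT i z z' z = 2 := by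
  obtain ⟨x, x', s, D, D', lz, lz', lx, lx'⟩ := twd F T
  exact (cT_vals F lz lz' D.cw D'.cw T.ne.symm).1

lemma cT_eq_two {z z' : P} (T : Tw i C z z') {a : P} (ha : cT i z z' a = 2) : a = z := by
  obtain ⟨x, x', s, D, D', lz, lz', lx, lx'⟩ := twd F T
  obtain ⟨v1, v2, v3, v4, v5⟩ := cT_vals F lz lz' D.cw D'.cw T.ne.symm
  by_contra hne
  by_cases h1 : a = z'
  · rw [h1, v2] at ha
    omega
  by_cases h2 : a = x
  · rw [h2, v3] at ha
    omega
  by_cases h3 : a = x'
  · rw [h3, v4] at ha
    omega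
  rw [v5 a hne h1 h2 h3] at ha
  omega

lemma cT_inj {q q' : P × P} (T : Tw i C q.1 q.2) (T' : Tw i C q'.1 q'.2)
    (h : cT i q.1 q.2 = cT i q'.1 q'.2) : q = q' := by
  have h1 : q.1 = q'.1 := by
    apply cT_eq_two F T'
    rw [← h, cT_two F T]
  obtain ⟨x, x', s, D, D', lz, lz', lx, lx'⟩ := twd F T
  have h2 : 1 ≤ cT i q'.1 q'.2 q.2 := by
    rw [← h, cT_pos F T (Or.inl lz')]
    exact Or.inr rfl
  rw [cT_pos F T' (Or.inl lz')] at h2
  rcases h2 with h2 | h2
  · exact absurd (h1.trans h2) T.ne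
  · exact Prod.ext h1 h2.symm

lemma cD_pos {p p' : P} (hp : p ∈ PN i C) (hp' : p' ∈ PN i C) {a : P} (ha : Two i a) :
    1 ≤ cD i p p' a ↔ p = a ∨ p' = a := by
  have H := F.E.H
  obtain ⟨c1, k1⟩ := pn_two F hp
  have z1 : Two i p := pn_lev F hp
  have z2 : Two i p' := pn_lev F hp'
  unfold cD
  rw [on_pos, mem_union, mem_union, con_far H ha z1, con_far H ha z2]
  unfold Two at ha
  constructor
  · rintro ((h | h) | h)
    · exact Or.inl h.symm
    · exact Or.inr h.symm
    · have := k1 a (mem_inter.1 h).1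
      omega
  · rintro (h | h)
    · exact Or.inl (Or.inl h.symm)
    · exact Or.inl (Or.inr h.symm)

open Classical in
/-- THE COEFFICIENT of the energy five of a series pinned at one element -/
theorem hc_five_ind (hm : Meet i C) (hw : w ∈ C) (lw : lev w = i + 2) :
    hc 5 (st i C).card (ZPS i C (ind w)) =
      ∑ q ∈ (I5 i C).filter (fun q => q.1 = w ∨ q.2 = w), chg i C q.1 * vp i q.2 -
        (((Tws i C).filter (fun q => q.1 = w ∨ q.2 = w)).card : ℤ) +
          ∑ p ∈ Ov i C w, vp i w * vp i p := by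
  have H := F.E.H
  have tw : Two i w := Or.inl lw
  rw [F.top hm (far_ind lw) once_ind (n := 5) (K := 1) rfl (by omega) (by omega)]
  have h1 : TT i psi C (ind w) 5 (1 + 1) =
      (((I5 i C).filter (fun q => q.1 = w ∨ q.2 = w)).image (c5 i) ∪
        ((Tws i C).filter (fun q => q.1 = w ∨ q.2 = w)).image (fun q => cT i q.1 q.2)) ∪
          (Ov i C w).image (cD i w) := by
    ext e
    rw [mem_TT, mem_union, mem_union, mem_image, mem_image, mem_image, pin_ind hw]
    constructor
    · rintro ⟨a1, a2, a3, a4, a5⟩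
      rcases tt_five F hm a2 a1 (by rw [a4]; rfl) a5 with ⟨q, hq, rfl⟩ | ⟨z, z', T, rfl⟩ |
        ⟨p, hp, p', hp', hne, hI, rfl⟩
      · left; left
        exact ⟨q, mem_filter.2 ⟨hq, (c5_pos F hq tw).1 a3⟩, rfl⟩
      · left; right
        exact ⟨(z, z'), mem_filter.2 ⟨mem_Tws.2 T, (cT_pos F T tw).1 a3⟩, rfl⟩
      · right
        rcases (cD_pos F hp hp' tw).1 a3 with rfl | rfl
        · exact ⟨p', mem_Ov.2 ⟨hp', hp, hne, hI⟩, rfl⟩
        · exact ⟨p, mem_Ov.2 ⟨hp, hp', hne.symm, by rw [inter_comm]; exact hI⟩, cD_comm⟩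
    · rintro ((⟨q, hq, rfl⟩ | ⟨q, hq, rfl⟩) | ⟨p, hp, rfl⟩)
      · obtain ⟨hq1, hq2⟩ := mem_filter.1 hq
        obtain ⟨b1, b2, b3, b4, b5⟩ := c5_ok F hq1
        exact ⟨b5, b1, (c5_pos F hq1 tw).2 hq2, by rw [b2]; rfl, b4⟩
      · obtain ⟨hq1, hq2⟩ := mem_filter.1 hq
        rw [mem_Tws] at hq1
        obtain ⟨b1, b2, b3, b4, b5⟩ := tw_ok F hq1
        exact ⟨b5, b1, (cT_pos F hq1 tw).2 hq2, by rw [b2]; rfl, b4⟩
      · obtain ⟨hp1, hp2, hp3, hp4⟩ := mem_Ov.1 hp
        obtain ⟨b1, b2, b3, b4, b5⟩ := cD_ok F hp2 hp1 hp3 hp4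
        exact ⟨b5, b1, (cD_pos F hp2 hp1 tw).2 (Or.inl rfl), by rw [b2]; rfl, b4⟩
  have d1 : Disjoint (((I5 i C).filter (fun q => q.1 = w ∨ q.2 = w)).image (c5 i))
      (((Tws i C).filter (fun q => q.1 = w ∨ q.2 = w)).image (fun q => cT i q.1 q.2)) := by
    rw [disjoint_left]
    intro e he he'
    obtain ⟨q, hq, rfl⟩ := mem_image.1 he
    obtain ⟨q', hq', h2⟩ := mem_image.1 he'
    have T := mem_Tws.1 (mem_filter.1 hq').1
    have h3 := cT_two F T
    have h4 : c5 i q q'.1 ≤ 1 := on_le
    have h5 := congrFun h2 q'.1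
    omega
  have d2 : Disjoint (((I5 i C).filter (fun q => q.1 = w ∨ q.2 = w)).image (c5 i) ∪
        ((Tws i C).filter (fun q => q.1 = w ∨ q.2 = w)).image (fun q => cT i q.1 q.2))
      ((Ov i C w).image (cD i w)) := by
    rw [disjoint_left]
    intro e he he'
    obtain ⟨p, hp, rfl⟩ := mem_image.1 he'
    obtain ⟨hp1, hp2, hp3, hp4⟩ := mem_Ov.1 hp
    rcases mem_union.1 he with he | he
    · obtain ⟨q, hq, h2⟩ := mem_image.1 he
      obtain ⟨v, hv⟩ := card_eq_one.1 hp4
      have hvm : v ∈ sit i w ∩ sit i p := by rw [hv]; simp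
      have lv' := (pn_two F hp2).2 v (mem_inter.1 hvm).1
      have h3 := c5_site F (mem_filter.1 hq).1 lv'
      have h4 : cD i w p v = 1 := by
        unfold cD
        exact on_one (mem_union_right _ hvm)
      rw [h2, h4] at h3
      omega
    · obtain ⟨q', hq', h2⟩ := mem_image.1 he
      have T := mem_Tws.1 (mem_filter.1 hq').1
      have h3 := cT_two F T
      have h4 : cD i w p q'.1 ≤ 1 := on_le
      have h5 := congrFun h2 q'.1
      omega
  rw [h1, sum_union d2, sum_union d1, Finset.sum_image, Finset.sum_image, Finset.sum_image]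
  · have s1 : ∑ q ∈ (I5 i C).filter (fun q => q.1 = w ∨ q.2 = w), sgn i (c5 i q) =
        ∑ q ∈ (I5 i C).filter (fun q => q.1 = w ∨ q.2 = w), chg i C q.1 * vp i q.2 :=
      Finset.sum_congr rfl fun q hq => (c5_ok F (mem_filter.1 hq).1).2.2.1
    have s2 : ∑ q ∈ (Tws i C).filter (fun q => q.1 = w ∨ q.2 = w), sgn i (cT i q.1 q.2) =
        ∑ q ∈ (Tws i C).filter (fun q => q.1 = w ∨ q.2 = w), (-1 : ℤ) :=
      Finset.sum_congr rfl fun q hq => (tw_ok F (mem_Tws.1 (mem_filter.1 hq).1)).2.2.1
    have s3 : ∑ p ∈ Ov i C w, sgn i (cD i w p) = ∑ p ∈ Ov i C w, vp i w * vp i p :=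
      Finset.sum_congr rfl fun p hp => by
        obtain ⟨hp1, hp2, hp3, hp4⟩ := mem_Ov.1 hp
        exact (cD_ok F hp2 hp1 hp3 hp4).2.2.1
    rw [s1, s2, s3, Finset.sum_const, nsmul_eq_mul]
    ring
  · intro p hp p' hp' h
    obtain ⟨a1, a2, a3, a4⟩ := mem_Ov.1 hp
    obtain ⟨b1, b2, b3, b4⟩ := mem_Ov.1 hp'
    have h2 : 1 ≤ cD i w p' p := by
      rw [← h, cD_pos F a2 a1 (pn_lev F a1)]
      exact Or.inr rfl
    rw [cD_pos F b2 b1 (pn_lev F a1)] at h2
    rcases h2 with h2 | h2
    · exact absurd h2 a3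
    · exact h2.symm
  · intro q hq q' hq' h
    exact cT_inj F (mem_Tws.1 (mem_filter.1 hq).1) (mem_Tws.1 (mem_filter.1 hq').1) h
  · intro q hq q' hq' h
    exact SO.c5_inj H (by have := F.E.hi2; omega) (mem_filter.1 hq).1 (mem_filter.1 hq').1 h

end vals

end Pool.Agent.GaussPoset.Win.Pn

end
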