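import Mathlib
import Pool.Agent.W_448zz_h61.Ns
import Pool.Agent.W_448zz_h61.M155

/-! From `Pool.Agent.W_448pn_h63.PnT` -/

section

/-!
# The series pinned at one element, energy five: the values
(MP_448cb3_co, G2, case B, window j - 1)
-/

set_option autoImplicit false

namespace Pool.Agent.GaussPoset.Win.Pn

set_option linter.unusedSectionVars false

open Finset W4
open Pool.Agent.GaussPoset.Win.Xg (Okc kp CanD)
open Pool.Agent.GaussPoset.Win.SO (con PN on mem_PN Cls BL BU nL nU mem_con self_con vp I5 mem_I5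
  c5 TD tL tU)

universe u

variable {P : Type u} [Fintype P] [PartialOrder P] [DecidableEq P] {r i : ℕ}
variable {e f g : P → ℕ} {psi : P → P} {C K s : Finset P} {t : P → ℕ} {d x p w : P}

/-- the number of twins of `w` -/
noncomputable def ntw (C : Finset P) (w : P) : ℕ :=
  (C.filter (fun z => z ≠ w ∧ uc z = uc w)).card

section lv2

variable (H : Gr P r)
include H

lemma PD_card (hp : w ∈ PD P i) : (uc w).card ≤ 1 := (mem_PD.1 hp).2.1.le

lemma ZL_card (hz : w ∈ ZL i C) : (uc w).card = 2 :=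
  card_uc_of_up H (mem_ZL.1 hz).2.1 (mem_ZL.1 hz).2.2

lemma ZL_of_eq {z : P} (hz : z ∈ ZL i C) (hw : w ∈ C) (h : uc z = uc w) : w ∈ ZL i C := by
  obtain ⟨h1, h2, h3⟩ := mem_ZL.1 hz
  have h4 := ZL_card H hz
  obtain ⟨x, hx⟩ := card_pos.1 (show 0 < (uc z).card by omega)
  have l1 := lev_uc H hx
  have l2 := lev_uc H (show x ∈ uc w by rw [← h]; exact hx)
  have l3 : lev w = i + 2 := by omega
  refine mem_ZL.2 ⟨hw, l3, ?_⟩
  rw [← card_sts] at h3 ⊢
  rw [← h3]
  congr 1
  ext v
  rw [mem_sts_iff H l3, mem_sts_iff H h2, h]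

lemma ZL_not_PD (hz : w ∈ ZL i C) : w ∉ PD P i := by
  intro h
  have := ZL_card H hz
  have := PD_card H h
  omega

lemma PN_low (lw : lev w = i + 2) : w ∈ PN i C ↔ w ∈ C ∧ w ∈ PD P i := by
  rw [mem_PN]
  constructor
  · rintro ⟨h1, h2 | h2⟩
    · exact ⟨h1, h2⟩
    · have := (mem_PU.1 h2).1
      omega
  · exact fun h => ⟨h.1, Or.inl h.2⟩

lemma Z_low (lw : lev w = i + 2) : (w ∈ ZL i C ∨ w ∈ ZU i C) ↔ w ∈ ZL i C := by
  constructor
  · rintro (h | h)
    · exact h
    · have := (mem_ZU.1 h).2.1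
      omega
  · exact Or.inl

omit H in
lemma chg_ZL (hz : w ∈ ZL i C) (H : Gr P r) : chg i C w = -1 := by
  unfold chg
  rw [if_neg]
  intro h
  have h1 := (mem_ZL.1 hz).2.1
  rcases mem_union.1 h with h | h
  · have := (mem_ZU.1 h).2.1
    omega
  · have := lev_FL H h
    omega

open Classical in
/-- the pairs of twins of one element -/
lemma card_Tws (hz : w ∈ ZL i C) :
    ((Tws i C).filter (fun q => q.1 = w ∨ q.2 = w)).card = ntw C w := by
  unfold ntw
  refine Finset.card_bij' (fun q _ => if q.1 = w then q.2 else q.1)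
    (fun z _ => if Xg.rk z < Xg.rk w then (w, z) else (z, w)) ?_ ?_ ?_ ?_
  · rintro ⟨a, b⟩ hq
    obtain ⟨h1, h2⟩ := mem_filter.1 hq
    have T := mem_Tws.1 h1
    simp only at h2 T ⊢
    rcases h2 with rfl | rfl
    · rw [if_pos rfl]
      exact mem_filter.2 ⟨T.mC, T.ne.symm, T.uc.symm⟩
    · rw [if_neg T.ne]
      exact mem_filter.2 ⟨(mem_ZL.1 T.zl).1, T.ne, T.uc⟩
  · intro z hz'
    obtain ⟨h1, h2, h3⟩ := mem_filter.1 hz'
    have hzl : z ∈ ZL i C := ZL_of_eq H hz h1 h3.symm
    split_ifs with h4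
    · exact mem_filter.2 ⟨mem_Tws.2 ⟨hz, h1, h2.symm, h3.symm, h4⟩, Or.inl rfl⟩
    · refine mem_filter.2 ⟨mem_Tws.2 ⟨hzl, (mem_ZL.1 hz).1, h2, h3, ?_⟩, Or.inr rfl⟩
      have : Xg.rk w ≠ Xg.rk z := fun h => h2 (Xg.rk_inj h).symm
      simp only
      omega
  · rintro ⟨a, b⟩ hq
    obtain ⟨h1, h2⟩ := mem_filter.1 hq
    have T := mem_Tws.1 h1
    have hrk := T.rk
    simp only at h2 T hrk ⊢
    rcases h2 with rfl | rfl
    · rw [if_pos rfl, if_pos hrk]
    · rw [if_neg T.ne, if_neg (by omega)]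
  · intro z hz'
    obtain ⟨h1, h2, h3⟩ := mem_filter.1 hz'
    by_cases h4 : Xg.rk z < Xg.rk w
    · rw [if_pos h4]
      simp
    · rw [if_neg h4]
      simp [h2]

end lv2

section five

variable (F : Fr r i psi C) (hm : Meet i C)
include F hm

open Classical in
/-- the value at a pendant -/
theorem rho5_PD (hw : w ∈ C) (hp : w ∈ PD P i) :
    hc 5 (st i C).card (ZPS i C (ind w)) =
      ∑ z ∈ (ZL i C ∪ ZU i C).filter (fun z => Disjoint (sit i z) (sit i w)), chg i C z +
        ∑ p ∈ Ov i C w, vp i p := by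
  have H := F.E.H
  have lw : lev w = i + 2 := (mem_PD.1 hp).1
  have hwn : w ∈ PN i C := mem_PN.2 ⟨hw, Or.inl hp⟩
  have hv : vp i w = 1 := SO.vp_PD hp
  have hnz : ¬ (w ∈ ZL i C ∨ w ∈ ZU i C) := by
    rw [Z_low H lw]
    exact fun h => ZL_not_PD H h hp
  rw [hc_five_ind F hm hw lw]
  have h1 : (Tws i C).filter (fun q => q.1 = w ∨ q.2 = w) = ∅ := by
    rw [eq_empty_iff_forall_notMem]
    intro q hq
    obtain ⟨h1, h2⟩ := mem_filter.1 hq
    have T := mem_Tws.1 h1
    rcases h2 with h2 | h2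
    · exact ZL_not_PD H (h2 ▸ T.zl) hp
    · exact ZL_not_PD H (ZL_of_eq H T.zl T.mC T.uc) (h2 ▸ hp)
  have h2 : ∑ q ∈ (I5 i C).filter (fun q => q.1 = w ∨ q.2 = w), chg i C q.1 * vp i q.2 =
      ∑ z ∈ (ZL i C ∪ ZU i C).filter (fun z => Disjoint (sit i z) (sit i w)), chg i C z := by
    refine Finset.sum_nbij' (fun q => q.1) (fun z => (z, w)) ?_ ?_ ?_ ?_ ?_
    · intro q hq
      obtain ⟨h3, h4⟩ := mem_filter.1 hq
      obtain ⟨g1, g2, g3⟩ := mem_I5.1 h3
      rcases h4 with h4 | h4
      · exact absurd (h4 ▸ g1) hnz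
      · rw [mem_filter, mem_union, ← h4]
        exact ⟨g1, g3⟩
    · intro z hz
      rw [mem_filter, mem_union] at hz
      exact mem_filter.2 ⟨mem_I5.2 ⟨hz.1, hwn, hz.2⟩, Or.inr rfl⟩
    · intro q hq
      obtain ⟨h3, h4⟩ := mem_filter.1 hq
      obtain ⟨g1, g2, g3⟩ := mem_I5.1 h3
      rcases h4 with h4 | h4
      · exact absurd (h4 ▸ g1) hnz
      · exact Prod.ext rfl h4.symm
    · intro z hz
      rfl
    · intro q hq
      obtain ⟨h3, h4⟩ := mem_filter.1 hq
      obtain ⟨g1, g2, g3⟩ := mem_I5.1 h3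
      rcases h4 with h4 | h4
      · exact absurd (h4 ▸ g1) hnz
      · rw [h4, hv, mul_one]
  rw [h1, h2, card_empty, hv]
  simp

open Classical in
/-- the value at an element with three sites -/
theorem rho5_ZL (hz : w ∈ ZL i C) :
    hc 5 (st i C).card (ZPS i C (ind w)) =
      -∑ p ∈ (PN i C).filter (fun p => Disjoint (sit i w) (sit i p)), vp i p -
        (ntw C w : ℤ) := by
  have H := F.E.H
  obtain ⟨hw, lw, h3s⟩ := mem_ZL.1 hz
  have hwn : w ∉ PN i C := by
    rw [PN_low H lw]
    exact fun h => ZL_not_PD H hz h.2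
  rw [hc_five_ind F hm hw lw, card_Tws H hz]
  have h1 : Ov i C w = ∅ := by
    rw [eq_empty_iff_forall_notMem]
    intro p hp
    exact hwn (mem_Ov.1 hp).2.1
  have h2 : ∑ q ∈ (I5 i C).filter (fun q => q.1 = w ∨ q.2 = w), chg i C q.1 * vp i q.2 =
      ∑ p ∈ (PN i C).filter (fun p => Disjoint (sit i w) (sit i p)), -vp i p := by
    refine Finset.sum_nbij' (fun q => q.2) (fun p => (w, p)) ?_ ?_ ?_ ?_ ?_
    · intro q hq
      obtain ⟨h3, h4⟩ := mem_filter.1 hq
      obtain ⟨g1, g2, g3⟩ := mem_I5.1 h3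
      rcases h4 with h4 | h4
      · rw [mem_filter, ← h4]
        exact ⟨g2, g3⟩
      · exact absurd (h4 ▸ g2) hwn
    · intro p hp
      rw [mem_filter] at hp
      exact mem_filter.2 ⟨mem_I5.2 ⟨Or.inl hz, hp.1, hp.2⟩, Or.inl rfl⟩
    · intro q hq
      obtain ⟨h3, h4⟩ := mem_filter.1 hq
      obtain ⟨g1, g2, g3⟩ := mem_I5.1 h3
      rcases h4 with h4 | h4
      · exact Prod.ext h4.symm rfl
      · exact absurd (h4 ▸ g2) hwn
    · intro p hp
      rfl
    · intro q hq
      obtain ⟨h3, h4⟩ := mem_filter.1 hq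
      obtain ⟨g1, g2, g3⟩ := mem_I5.1 h3
      rcases h4 with h4 | h4
      · rw [h4, chg_ZL hz H, neg_one_mul]
      · exact absurd (h4 ▸ g2) hwn
  rw [h1, h2, sum_empty, add_zero, sum_neg_distrib]

/-- the value at the other elements -/
theorem rho5_else (hw : w ∈ C) (lw : lev w = i + 2) (hp : w ∉ PD P i) (hz : w ∉ ZL i C) :
    hc 5 (st i C).card (ZPS i C (ind w)) = 0 := by
  classical
  have H := F.E.H
  have hwn : w ∉ PN i C := by
    rw [PN_low H lw]
    exact fun h => hp h.2
  have hwz : ¬ (w ∈ ZL i C ∨ w ∈ ZU i C) := by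
    rw [Z_low H lw]
    exact hz
  rw [hc_five_ind F hm hw lw]
  have h1 : Ov i C w = ∅ := by
    rw [eq_empty_iff_forall_notMem]
    intro p hp
    exact hwn (mem_Ov.1 hp).2.1
  have h2 : (I5 i C).filter (fun q => q.1 = w ∨ q.2 = w) = ∅ := by
    rw [eq_empty_iff_forall_notMem]
    intro q hq
    obtain ⟨h3, h4⟩ := mem_filter.1 hq
    obtain ⟨g1, g2, g3⟩ := mem_I5.1 h3
    rcases h4 with h4 | h4
    · exact hwz (h4 ▸ g1)
    · exact hwn (h4 ▸ g2)
  have h3 : (Tws i C).filter (fun q => q.1 = w ∨ q.2 = w) = ∅ := by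
    rw [eq_empty_iff_forall_notMem]
    intro q hq
    obtain ⟨h1, h2⟩ := mem_filter.1 hq
    have T := mem_Tws.1 h1
    rcases h2 with h2 | h2
    · exact hz (h2 ▸ T.zl)
    · exact hz (h2 ▸ ZL_of_eq H T.zl T.mC T.uc)
  rw [h1, h2, h3]
  simp

end five

end Pool.Agent.GaussPoset.Win.Pn

end

/-! From `Pool.Agent.W_448pn_h63.PnU` -/

section

/-!
# The tight cores of energy seven (MP_448cb3_co, G2, case B, window j - 1)
-/

set_option autoImplicit false

namespace Pool.Agent.GaussPoset.Win.Pn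

set_option linter.unusedSectionVars false

open Finset W4
open Pool.Agent.GaussPoset.Win.Xg (Okc kp CanD laL laU Tee Exo SdO Act PBk rm rm_of rm_y rm_p rm_le)
open Pool.Agent.GaussPoset.Win.Rd (P1L P1U TWL TWU GS N4L N4U Hyp hypL hypU TS)
open Pool.Agent.GaussPoset.Win.I2 (lS uS mem_lS mem_uS)
open Pool.Agent.GaussPoset.Win.SO (con PN on mem_PN Cls BL BU nL nU mem_con self_con vp I5 mem_I5
  c5 TD tL tU)

universe u

variable {P : Type u} [Fintype P] [PartialOrder P] [DecidableEq P] {r i : ℕ}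
variable {e f g : P → ℕ} {psi : P → P} {C K s : Finset P} {t : P → ℕ} {d x p w : P}

/-- twins and a pendant -/
noncomputable def cS (i : ℕ) (z z' p : P) : P → ℕ := fun y => cT i z z' y + on (con i p) y

section seven

variable (F : Fr r i psi C)
include F

/-- the configuration of twins and a pendant is a tight core -/
theorem cS_ok {z z' : P} (T : Tw i C z z') (hp : p ∈ PN i C)
    (hd : Disjoint (sit i z) (sit i p)) : Okc i psi C (cS i z z' p) ∧
    kp i (cS i z z' p) = 3 ∧ sgn i (cS i z z' p) = -vp i p ∧ Xg.CC i (cS i z z' p) = ∅ ∧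
    ∑ x, cS i z z' p x = 7 := by
  classical
  have H := F.E.H
  obtain ⟨x, x', s, D, D', lz, lz', lx, lx'⟩ := twd F T
  obtain ⟨v1, v2, v3, v4, v5⟩ := cT_vals F lz lz' D.cw D'.cw T.ne.symm
  obtain ⟨t1, t2, t3, t4, t5⟩ := tw_ok F T
  obtain ⟨y, hc, hny, hy⟩ := PN_cases F.E hp
  obtain ⟨c1, k1⟩ := pn_two F hp
  have mx : x ∈ uc z := by rw [D.cw]; simp
  have mx' : x' ∈ uc z := by rw [D.cw]; simp
  have nsx : ∀ v ∈ sit i p, v ∉ uc x ∧ v ∉ uc x' := by
    intro v hv
    constructor
    · intro h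
      exact disjoint_left.1 hd ((mem_sit_low H lz).2 ⟨x, mx, h⟩) hv
    · intro h
      exact disjoint_left.1 hd ((mem_sit_low H lz).2 ⟨x', mx', h⟩) hv
  have hyx : y ≠ x ∧ y ≠ x' := by
    obtain ⟨v, hv⟩ := card_pos.1 (show 0 < (sit i p).card by omega)
    obtain ⟨n1, n2⟩ := nsx v hv
    rcases hy with ⟨l1, l2, h1, h2, h3⟩ | ⟨l1, l2, h1, h2, h3⟩
    · rw [sit_PDs H h3 h1] at hv
      constructor
      · rintro rfl
        exact n1 hv
      · rintro rfl
        exact n2 hv
    · constructor <;> rintro rfl <;> omega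
  have hpz : p ≠ z ∧ p ≠ z' := by
    rcases hy with ⟨l1, l2, h1, h2, h3⟩ | ⟨l1, l2, h1, h2, h3⟩
    · constructor
      · rintro rfl
        rw [h1, mem_singleton] at mx
        exact hyx.1 mx.symm
      · rintro rfl
        rw [T.uc, h1, mem_singleton] at mx
        exact hyx.1 mx.symm
    · constructor <;> rintro rfl <;> omega
  have hpx : p ≠ x ∧ p ≠ x' := by
    rcases hy with h | h <;> constructor <;> rintro rfl <;> omega
  have hyz : y ≠ z ∧ y ≠ z' := by
    rcases hy with h | h <;> constructor <;> rintro rfl <;> omega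
  have hTp : cT i z z' p = 0 := v5 p hpz.1 hpz.2 hpx.1 hpx.2
  have hTy : cT i z z' y = 0 := v5 y hyz.1 hyz.2 hyx.1 hyx.2
  have o1 : on (con i p) p = 1 := on_one (by rw [hc]; simp)
  have o2 : on (con i p) y = 1 := on_one (by rw [hc]; simp)
  have o3 : ∀ a, a ≠ p → a ≠ y → on (con i p) a = 0 := fun a h1 h2 =>
    on_zero (by rw [hc]; simp [h1, h2])
  have e1 : cS i z z' p y = 1 := by unfold cS; omega
  have e2 : cS i z z' p p = 1 := by unfold cS; omega
  have e3 : ∀ a, a ≠ p → a ≠ y → cS i z z' p a = cT i z z' a := by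
    intro a h1 h2
    unfold cS
    rw [o3 a h1 h2, add_zero]
  have hrm : rm y p (cS i z z' p) = cT i z z' := by
    funext a
    by_cases h1 : a = y
    · rw [h1, rm_y, hTy]
    by_cases h2 : a = p
    · rw [h2, rm_p, hTp]
    rw [rm_of h1 h2, e3 a h2 h1]
  have hpos : ∀ a, a ≠ p → a ≠ y → 1 ≤ cS i z z' p a → a = z ∨ a = z' ∨ a = x ∨ a = x' := by
    intro a h1 h2 h3
    rw [e3 a h1 h2] at h3
    by_contra hne
    push Not at hne
    rw [v5 a hne.1 hne.2.1 hne.2.2.1 hne.2.2.2] at h3
    omega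
  have hfar : ∀ a, lev a ≠ i + 1 → lev a ≠ i + 2 → lev a + 1 ≠ i → lev a + 2 ≠ i →
      cS i z z' p a = 0 := by
    intro a a1 a2 a3 a4
    rw [e3 a (by rintro rfl; omega) (by rintro rfl; omega)]
    exact v5 a (by rintro rfl; omega) (by rintro rfl; omega) (by rintro rfl; omega)
      (by rintro rfl; omega)
  have hspt : Spt C (cS i z z' p) := by
    intro a ha
    rw [e3 a (by rintro rfl; exact ha (mem_PN.1 hp).1) (by
      rintro rfl
      apply ha
      refine SO.con_sub H F.E.hC (mem_PN.1 hp).1 ?_ (by rw [hc]; simp)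
      omega)]
    exact t1.spt a ha
  have hcore : IsCore i ∅ psi (cS i z z' p) := by
    intro a ha
    by_contra h0
    obtain ⟨h1, h2, h3, -⟩ := mem_Rst.1 ha
    apply h3
    rw [mem_Tch]
    by_cases g1 : a = p
    · exfalso
      subst g1
      rcases mem_near.1 h1 with h4 | h4 <;> omega
    by_cases g2 : a = y
    · rw [g2]
      rcases hy with ⟨l1, l2, h1, h2, h3⟩ | ⟨l1, l2, h1, h2, h3⟩
      · exact Or.inl ⟨l2, p, mem_uc.1 (by rw [h1]; simp), by omega⟩
      · exact Or.inr ⟨l2, p, mem_dc.1 (by rw [h1]; simp), by omega⟩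
    have hz1 : 1 ≤ cS i z z' p z := by
      rw [e3 z hpz.1.symm hyz.1.symm]
      omega
    rcases hpos a g1 g2 (by omega) with rfl | rfl | rfl | rfl
    · exfalso
      rcases mem_near.1 h1 with h4 | h4 <;> omega
    · exfalso
      rcases mem_near.1 h1 with h4 | h4 <;> omega
    · exact Or.inl ⟨lx, z, mem_uc.1 mx, hz1⟩
    · exact Or.inl ⟨lx', z, mem_uc.1 mx', hz1⟩
  have hAU : AU i (cT i z z') = ∅ := by
    rw [eq_empty_iff_forall_notMem]
    intro v hv
    rw [NormD_mem_AU] at hv
    obtain ⟨lv', u, hu, h1⟩ := hv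
    have := lev_cov H hu
    rw [v5 u (by rintro rfl; omega) (by rintro rfl; omega) (by rintro rfl; omega)
      (by rintro rfl; omega)] at h1
    omega
  have hAL : ∀ v ∈ sit i p, v ∉ AL i (cT i z z') := by
    intro v hv h
    rw [NormD_mem_AL] at h
    obtain ⟨lv', u, hu, h1⟩ := h
    have := lev_cov H hu
    by_cases g1 : u = x
    · rw [g1] at hu
      exact (nsx v hv).1 (mem_uc.2 hu)
    by_cases g2 : u = x'
    · rw [g2] at hu
      exact (nsx v hv).2 (mem_uc.2 hu)
    rw [v5 u (by rintro rfl; omega) (by rintro rfl; omega) g1 g2] at h1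
    omega
  -- the block
  have main : Xg.Adm i (cS i z z' p) ∧ kp i (cS i z z' p) = 3 ∧
      sgn i (cS i z z' p) = -vp i p := by
    rcases hy with ⟨l1, l2, h1, h2, h3⟩ | ⟨l1, l2, h1, h2, h3⟩
    · obtain ⟨v, v', hne, hvv⟩ := card_eq_two.1 h2
      have hsit : sit i p = {v, v'} := by rw [sit_PDs H h3 h1, hvv]
      have lv1 := k1 v (by rw [hsit]; simp)
      have lv2 := k1 v' (by rw [hsit]; simp)
      have nv : ∀ a ∈ sit i p, ∀ b ∈ dc a, b ≠ y → cS i z z' p b = 0 := by
        intro a ha b hb hby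
        by_contra h0
        have lb := lev_dc H hb
        have la := k1 a ha
        rcases hpos b (by rintro rfl; omega) hby (by omega) with rfl | rfl | rfl | rfl
        · omega
        · omega
        · exact (nsx a ha).1 (mem_uc.2 (mem_dc.1 hb))
        · exact (nsx a ha).2 (mem_uc.2 (mem_dc.1 hb))
      have B : PBk dc uc (laL i) y p v v' (cS i z z' p) := by
        refine ⟨by unfold laL; omega, hvv, hne, h1, e1, e2, hfar v (by omega) (by omega)
          (by omega) (by omega), hfar v' (by omega) (by omega) (by omega) (by omega),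
          nv v (by rw [hsit]; simp), nv v' (by rw [hsit]; simp), ?_, ?_⟩
        · intro b hb hbp
          by_contra h0
          have lb := lev_dc H hb
          have hyb : y ∈ uc b := mem_uc.2 (mem_dc.1 hb)
          rcases hpos b hbp (by rintro rfl; omega) (by omega) with rfl | rfl | rfl | rfl
          · rw [D.cw, mem_insert, mem_singleton] at hyb
            rcases hyb with h | h
            · exact hyx.1 h
            · exact hyx.2 h
          · rw [D'.cw, mem_insert, mem_singleton] at hyb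
            rcases hyb with h | h
            · exact hyx.1 h
            · exact hyx.2 h
          · omega
          · omega
        · intro b hb
          have lb := lev_dc H hb
          exact hfar b (by omega) (by omega) (by omega) (by omega)
      obtain ⟨a1, a2, a3, a4, a5, a6, a7, a8⟩ := Xg.low_blk H B
      have a9 := Xg.low_blk_AL H B
      rw [hrm] at a1 a2 a3 a4 a5 a6 a7 a8 a9
      refine ⟨⟨a7.2 t1.adm.l, a8.2 t1.adm.u, ?_⟩, ?_, ?_⟩
      · rw [a6, hAU]
        exact disjoint_empty_right _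
      · unfold kp at t2 ⊢
        rw [a2, a3, a5, a6]
        push_cast
        omega
      · unfold sgn at t3 ⊢
        rw [a1, a3, a4, a5, SO.vp_PD h3, show aL i (cT i z z') + aU i (cT i z z') +
          pU i (cT i z z') + ((AL i (cT i z z')).card + 2) = (aL i (cT i z z') +
          aU i (cT i z z') + pU i (cT i z z') + (AL i (cT i z z')).card) + 2 by ring,
          pow_add, t3]
        norm_num
    · obtain ⟨v, v', hne, hvv⟩ := card_eq_two.1 h2
      have hsit : sit i p = {v, v'} := by rw [sit_PUs H h3 h1, hvv]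
      have lv1 := k1 v (by rw [hsit]; simp)
      have lv2 := k1 v' (by rw [hsit]; simp)
      have nv : ∀ a ∈ sit i p, ∀ b ∈ uc a, b ≠ y → cS i z z' p b = 0 := by
        intro a ha b hb hby
        by_contra h0
        have lb := lev_uc H hb
        have la := k1 a ha
        rcases hpos b (by rintro rfl; omega) hby (by omega) with rfl | rfl | rfl | rfl <;> omega
      have B : PBk uc dc (laU i) y p v v' (cS i z z' p) := by
        refine ⟨by unfold laU; omega, hvv, hne, h1, e1, e2, hfar v (by omega) (by omega)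
          (by omega) (by omega), hfar v' (by omega) (by omega) (by omega) (by omega),
          nv v (by rw [hsit]; simp), nv v' (by rw [hsit]; simp), ?_, ?_⟩
        · intro b hb hbp
          by_contra h0
          have lb := lev_uc H hb
          rcases hpos b hbp (by rintro rfl; omega) (by omega) with rfl | rfl | rfl | rfl <;> omega
        · intro b hb
          have lb := lev_uc H hb
          exact hfar b (by omega) (by omega) (by omega) (by omega)
      obtain ⟨a1, a2, a3, a4, a5, a6, a7, a8⟩ := Xg.upp_blk H B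
      have a9 := Xg.upp_blk_AU H B
      rw [hrm] at a1 a2 a3 a4 a5 a6 a7 a8 a9
      refine ⟨⟨a8.2 t1.adm.l, a7.2 t1.adm.u, ?_⟩, ?_, ?_⟩
      · rw [a6, a9, hAU, disjoint_right]
        intro a ha
        apply hAL
        rw [hsit]
        simpa using ha
      · unfold kp at t2 ⊢
        rw [a2, a3, a5, a6]
        push_cast
        omega
      · have hvp : vp i p = -1 := SO.vp_PU h3
        unfold sgn at t3 ⊢
        rw [a1, a2, a4, a6, hvp, show aL i (cT i z z') + aU i (cT i z z') +
          (pU i (cT i z z') + 1) + (AL i (cT i z z')).card = (aL i (cT i z z') +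
          aU i (cT i z z') + pU i (cT i z z') + (AL i (cT i z z')).card) + 1 by ring,
          pow_succ, t3]
        ring
  refine ⟨⟨hspt, hcore, main.1⟩, main.2.1, main.2.2, ?_, ?_⟩
  · rw [eq_empty_iff_forall_notMem]
    rintro ⟨d, v⟩ hdx
    have hcan : CanD i (cS i z z' p) d v := (Xg.mem_CC H).1 hdx
    have hl := hcan.lvl H
    have hv : cS i z z' p v = 0 := hfar v (by omega) (by omega) (by omega) (by omega)
    have q1 : cS i z z' p z' = 1 := by rw [e3 z' hpz.2.symm hyz.2.symm, v2]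
    have q2 : cS i z z' p x = 1 := by rw [e3 x hpx.1.symm hyx.1.symm, v3]
    have q3 : cS i z z' p x' = 1 := by rw [e3 x' hpx.2.symm hyx.2.symm, v4]
    rcases hcan with ⟨w, w2, p1, q, T', Ex, hrk⟩ | ⟨w, w2, p1, q, T', Ex, -⟩
    · have ld : lev d = i + 2 := by
        have := T'.ld
        unfold laL at this
        omega
      have hdp : d ≠ p := by
        rintro rfl
        rcases hy with ⟨l1, l2, h1, h2, h3⟩ | ⟨l1, l2, h1, h2, h3⟩
        · have h4 := T'.ud
          rw [h1] at h4
          have h5 := congrArg Finset.card h4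
          rw [card_singleton, card_pair T'.ne] at h5
          omega
        · omega
      rcases hpos d hdp (by rintro rfl; omega) Ex.pos with rfl | rfl | rfl | rfl
      · have := hrk z' (by rw [← T.uc, T'.ud]) T.rk
        omega
      · have hww : ({w, w2} : Finset P) = {x, x'} := by rw [← T'.ud, ← T.uc, D.cw]
        have hw : cS i z d p w = 1 := by
          have : w ∈ ({x, x'} : Finset P) := by rw [← hww]; simp
          rw [mem_insert, mem_singleton] at this
          rcases this with rfl | rfl <;> assumption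
        have hw2 : cS i z d p w2 = 1 := by
          have : w2 ∈ ({x, x'} : Finset P) := by rw [← hww]; simp
          rw [mem_insert, mem_singleton] at this
          rcases this with rfl | rfl <;> assumption
        rcases Ex.act with (h | h) | (h | h) <;> omega
      · omega
      · omega
    · have ld : lev d + 2 = i := by
        have := T'.ld
        unfold laU at this
        omega
      have hdp : d ≠ p := by
        rintro rfl
        rcases hy with ⟨l1, l2, h1, h2, h3⟩ | ⟨l1, l2, h1, h2, h3⟩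
        · omega
        · have h4 := T'.ud
          rw [h1] at h4
          have h5 := congrArg Finset.card h4
          rw [card_singleton, card_pair T'.ne] at h5
          omega
      rcases hpos d hdp (by rintro rfl; omega) Ex.pos with rfl | rfl | rfl | rfl <;> omega
  · unfold cS
    rw [sum_add_distrib, t5, SO.on_sum, hc, card_pair hny]

end seven

end Pool.Agent.GaussPoset.Win.Pn

end

/-! From `Pool.Agent.W_448pn_h63.PnV` -/

section

/-!
# The tight cores of energy seven: classification (MP_448cb3_co, G2, case B, window j - 1)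
-/

set_option autoImplicit false

namespace Pool.Agent.GaussPoset.Win.Pn

set_option linter.unusedSectionVars false

open Finset W4
open Pool.Agent.GaussPoset.Win.Xg (Okc kp CanD laL laU Tee Exo SdO Act PBk rm rm_of rm_y rm_p rm_le)
open Pool.Agent.GaussPoset.Win.Rd (P1L P1U TWL TWU GS N4L N4U Hyp hypL hypU TS)
open Pool.Agent.GaussPoset.Win.I2 (lS uS mem_lS mem_uS)
open Pool.Agent.GaussPoset.Win.SO (con PN on mem_PN Cls BL BU nL nU mem_con self_con vp I5 mem_I5
  c5 TD tL tU)

universe u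

variable {P : Type u} [Fintype P] [PartialOrder P] [DecidableEq P] {r i : ℕ}
variable {e f g : P → ℕ} {psi : P → P} {C K s : Finset P} {t : P → ℕ} {d x p w : P}

section seven

variable (F : Fr r i psi C) (hm : Meet i C)
include F

lemma Blo.con {y : P} (B : Blo i psi C e p y) : con i p = {p, y} := by
  have H := F.E.H
  rcases B.side with ⟨h1, h2, h3, h4⟩ | ⟨h1, h2, h3, h4⟩
  · exact SO.con_PD H h1 h3
  · exact SO.con_PU H h1 h3

/-- twins and a pendant -/
lemma tw_seven (h : Okc i psi C e) (hE : ∑ x, e x = 7) (hcc : Xg.CC i e = ∅) {z : P}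
    (hz : z ∈ TWL i e) {y : P} (B : Blo i psi C e p y) :
    ∃ z', Tw i C z z' ∧ Disjoint (sit i z) (sit i p) ∧ e = cS i z z' p := by
  have H := F.E.H
  have hir : i ≤ r := by have := F.E.hi2; omega
  obtain ⟨w, w2, a, x, b, z', T, lz, lz', h1, h2, h3, h4, h5, h6, h7, h8, h9, h10⟩ :=
    tw_data F h hz
  have lw := lev_uc H (show w ∈ uc z by rw [T.ud]; simp)
  have lw2 := lev_uc H (show w2 ∈ uc z by rw [T.ud]; simp)
  have la := lev_uc H (show a ∈ uc w by rw [T.uw]; simp)
  have lx := lev_uc H (show x ∈ uc w by rw [T.uw]; simp)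
  have lb := lev_uc H (show b ∈ uc w2 by rw [T.uw2]; simp)
  have hcon := B.con F
  have hpz : p ≠ z := by
    rintro rfl
    rcases B.side with ⟨g1, g2, g3, g4⟩ | ⟨g1, g2, g3, g4⟩
    · have g5 := T.ud
      rw [g3] at g5
      have g6 := congrArg Finset.card g5
      rw [card_singleton, card_pair T.ne] at g6
      omega
    · omega
  have hpz' : p ≠ z' := by
    rintro rfl
    rcases B.side with ⟨g1, g2, g3, g4⟩ | ⟨g1, g2, g3, g4⟩
    · have g5 := h1
      rw [g3] at g5
      have g6 := congrArg Finset.card g5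
      rw [card_singleton, card_pair T.ne] at g6
      omega
    · omega
  have hy1 : y ≠ w := by
    rintro rfl
    have := B.oth z hpz.symm (Or.inl (by rw [h3]; simp))
    omega
  have hy2 : y ≠ w2 := by
    rintro rfl
    have := B.oth z hpz.symm (Or.inl (by rw [h4]; simp))
    omega
  have hly : lev y = i + 1 ∨ lev y + 1 = i := by
    rcases B.side with g | g
    · exact Or.inl g.2.1
    · exact Or.inr g.2.1
  have hlp : lev p = i + 2 ∨ lev p + 2 = i := by
    rcases B.side with g | g
    · exact Or.inl g.1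
    · exact Or.inr g.1
  have hyz : y ≠ z := by rintro rfl; omega
  have hyz' : y ≠ z' := by rintro rfl; omega
  have hny : p ≠ y := by rintro rfl; omega
  obtain ⟨v1, v2, v3, v4, v5⟩ := cT_vals F lz lz' T.ud h1 h2
  have hTp : cT i z z' p = 0 := v5 p hpz hpz' (by rintro rfl; omega) (by rintro rfl; omega)
  have hTy : cT i z z' y = 0 := v5 y hyz hyz' hy1 hy2
  have hdj : Disjoint (sit i z) (sit i p) := by
    apply B.disj H hir h.adm (Or.inl lz) (by omega)
    rw [SO.con_two_low H lz, T.ud]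
    simp [hyz, hy1, hy2]
  have he : e = cS i z z' p := by
    apply eq_of_le_sum
    · intro c
      unfold cS
      rw [hcon]
      by_cases g1 : c = p
      · rw [g1, hTp, on_one (by simp), B.e2]
      by_cases g2 : c = y
      · rw [g2, hTy, on_one (by simp), B.e1]
      rw [on_zero (by simp [g1, g2]), add_zero]
      exact cT_le F lz lz' T.ud h1 h8 h5 h6 h7 c
    · unfold cS
      rw [sum_add_distrib, cT_sum F lz lz' T.ud h1 T.ne h2, SO.on_sum, hcon, card_pair hny]
      omega
  have e3 : ∀ c, c ≠ p → c ≠ y → e c = cT i z z' c := by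
    intro c g1 g2
    rw [he]
    unfold cS
    rw [hcon, on_zero (by simp [g1, g2]), add_zero]
  have esite : ∀ c, lev c = i → e c = 0 := by
    intro c hc
    rw [e3 c (by rintro rfl; omega) (by rintro rfl; omega)]
    exact v5 c (by rintro rfl; omega) (by rintro rfl; omega) (by rintro rfl; omega)
      (by rintro rfl; omega)
  refine ⟨z', ⟨h9, h10, h2.symm, by rw [T.ud, h1], ?_⟩, hdj, he⟩
  refine tw_rk F hcc T h1 h2 h3 h4 (by rw [e3 z hpz.symm hyz.symm, v1])
    (by rw [e3 z' hpz'.symm hyz'.symm, v2])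
    (by rw [e3 w (by rintro rfl; omega) hy1.symm, v3])
    (by rw [e3 w2 (by rintro rfl; omega) hy2.symm, v4])
    (esite a (by omega)) (esite x (by omega)) (esite b (by omega)) ?_ ?_
  · intro t ht
    have lt := lev_dc H ht
    rw [e3 t (by rintro rfl; omega) (by rintro rfl; omega)]
    exact v5 t (by rintro rfl; omega) (by rintro rfl; omega) (by rintro rfl; omega)
      (by rintro rfl; omega)
  · intro u hu
    have lu := lev_uc H hu
    by_cases g1 : u = y
    · exfalso
      subst g1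
      rcases B.side with ⟨g1, g2, g3, g4⟩ | ⟨g1, g2, g3, g4⟩
      · omega
      · have hx1 : x ∈ sit i p := (mem_sit_upp H g1).2 ⟨u, by rw [g3]; simp,
          mem_dc.2 (mem_uc.1 hu)⟩
        have hx2 : x ∈ sit i z := (mem_sit_low H lz).2 ⟨w, by rw [T.ud]; simp,
          by rw [T.uw]; simp⟩
        exact disjoint_left.1 hdj hx2 hx1
    · rw [e3 u (by rintro rfl; omega) g1]
      exact v5 u (by rintro rfl; omega) (by rintro rfl; omega) (by rintro rfl; omega)
        (by rintro rfl; omega)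

include hm

/-- no guarded pair next to a pendant block -/
lemma gs_seven (h : Okc i psi C e) (hE : ∑ x, e x = 7) (hcc : Xg.CC i e = ∅)
    (hg : 0 < (GS i psi e).card) {y0 : P} (B : Blo i psi C e p y0) : False := by
  have H := F.E.H
  obtain ⟨x, y, z, o, y', z', o', ex, lx, hne, G, G', ⟨n1, n2⟩, ⟨n3, n4⟩⟩ := gs_data F h hcc hg
  obtain ⟨-, L⟩ := G.levs H
  obtain ⟨-, L'⟩ := G'.levs H
  have hly0 : lev y0 = i + 1 ∨ lev y0 + 1 = i := by
    rcases B.side with g | g
    · exact Or.inl g.2.1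
    · exact Or.inr g.2.1
  have hlp : lev p = i + 2 ∨ lev p + 2 = i := by
    rcases B.side with g | g
    · exact Or.inl g.1
    · exact Or.inr g.1
  -- the elements which kill are not the element of the block
  have nex : ∀ {a b c : P}, Gu i e x a b c → a ≠ y0 := by
    rintro a b c G1 rfl
    have hxs : x ∈ sit i p := by
      rcases B.side with ⟨g1, g2, g3, g4⟩ | ⟨g1, g2, g3, g4⟩
      · rcases G1.side with ⟨k1, k2, k3⟩ | ⟨k1, k2, k3⟩
        · exact (mem_sit_low H g1).2 ⟨a, by rw [g3]; simp, by rw [k2]; simp⟩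
        · omega
      · rcases G1.side with ⟨k1, k2, k3⟩ | ⟨k1, k2, k3⟩
        · omega
        · exact (mem_sit_upp H g1).2 ⟨a, by rw [g3]; simp, by rw [k2]; simp⟩
    have := (B.ia x hxs).1
    omega
  have hy := nex G
  have hy' := nex G'
  have nz : ∀ {a b c : P}, Gu i e x a b c → a ≠ y0 → b ≠ p := by
    rintro a b c G1 ha rfl
    rcases B.side with ⟨g1, g2, g3, g4⟩ | ⟨g1, g2, g3, g4⟩
    · rcases G1.side with ⟨k1, k2, k3⟩ | ⟨k1, k2, k3⟩
      · have := mem_uc.2 (mem_dc.1 k3)
        rw [g3, mem_singleton] at this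
        exact ha this
      · have := lev_uc H k3
        omega
    · rcases G1.side with ⟨k1, k2, k3⟩ | ⟨k1, k2, k3⟩
      · have := lev_dc H k3
        omega
      · have := mem_dc.2 (mem_uc.1 k3)
        rw [g3, mem_singleton] at this
        exact ha this
  have hz := nz G hy
  have hz' := nz G' hy'
  have hzz : z ≠ z' := by
    rintro rfl
    rcases G'.side with g | g
    · exact n1 g.2.2
    · exact n2 g.2.2
  have hyz' : y ≠ z' := by rintro rfl; omega
  have hyz : y ≠ z := by rintro rfl; omega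
  have hy'z : y' ≠ z := by rintro rfl; omega
  have hy'z' : y' ≠ z' := by rintro rfl; omega
  have hyp : y ≠ p := by rintro rfl; omega
  have hy'p : y' ≠ p := by rintro rfl; omega
  have hy0p : y0 ≠ p := by rintro rfl; omega
  have hzy0 : z ≠ y0 := by rintro rfl; omega
  have hz'y0 : z' ≠ y0 := by rintro rfl; omega
  have he : e = on {x, y, y', z, z', y0, p} := by
    apply eq_on
    · intro a ha
      simp only [mem_insert, mem_singleton] at ha
      rcases ha with rfl | rfl | rfl | rfl | rfl | rfl | rfl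
      · omega
      · have := G.ey; omega
      · have := G'.ey; omega
      · exact G.ez
      · exact G'.ez
      · rw [B.e1]
      · rw [B.e2]
    · rw [card_insert_of_notMem, card_insert_of_notMem, card_insert_of_notMem,
        card_insert_of_notMem, card_insert_of_notMem, card_pair hy0p, hE]
      · simp [hz'y0, hz']
      · simp [hzz, hzy0, hz]
      · simp [hy'z, hy'z', hy', hy'p]
      · simp [hne, hyz, hyz', hy, hyp]
      · simp only [mem_insert, mem_singleton]
        rintro (rfl | rfl | rfl | rfl | rfl | rfl) <;> omega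
  obtain ⟨a1, a2, a3⟩ := G.pen F h (fun w hw hzw hl => by
    rw [he] at hw
    have hw1 := on_pos.1 hw
    simp only [mem_insert, mem_singleton] at hw1
    rcases hw1 with rfl | rfl | rfl | rfl | rfl | rfl | rfl
    · omega
    · rfl
    · exfalso
      rcases hzw with h2 | h2
      · exact n1 h2
      · exact n2 h2
    · omega
    · omega
    · exfalso
      have := B.oth z hz hzw
      have := G.ez
      omega
    · omega)
  have := B.alone F hm h z a1 hz
  have := G.ez
  omega

/-- THE TIGHT CORES of energy seven -/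
theorem tt_seven (h : Okc i psi C e) (hE : ∑ x, e x = 7) (hk : kp i e = 3)
    (hcc : Xg.CC i e = ∅) : ∃ z z' p, Tw i C z z' ∧ p ∈ PN i C ∧ Disjoint (sit i z) (sit i p) ∧
      e = cS i z z' p := by
  have g1 := F.gen h (by omega)
  rw [hcc, card_empty, hk, hE] at g1
  unfold nb at g1
  push_cast at g1
  have g2 := F.gs h hcc
  have g3 := F.p1_le hm h
  have hTU : TWU i e = ∅ := Rd.TWU_empty F.G
  rw [hTU, card_empty] at g1 g2
  push_cast at g1
  rw [hE] at g2
  have h1 : 0 < (P1L i psi e).card + (P1U i psi e).card := by omega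
  obtain ⟨p, y, B⟩ := blo_of F hm h h1
  rcases Nat.eq_zero_or_pos (GS i psi e).card with h2 | h2
  · obtain ⟨z, hz⟩ := card_pos.1 (show 0 < (TWL i e).card by omega)
    obtain ⟨z', a, b, c⟩ := tw_seven F h hE hcc hz B
    exact ⟨z, z', p, a, B.mem, b, c⟩
  · exact absurd (gs_seven F hm h hE hcc h2 B) id

end seven

end Pool.Agent.GaussPoset.Win.Pn

end

/-! From `Pool.Agent.W_448pn_h63.PnW` -/

section

/-!
# The series pinned at one element, energy seven (MP_448cb3_co, G2, case B, window j - 1)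
-/

set_option autoImplicit false

namespace Pool.Agent.GaussPoset.Win.Pn

set_option linter.unusedSectionVars false

open Finset W4
open Pool.Agent.GaussPoset.Win.Xg (Okc kp CanD)
open Pool.Agent.GaussPoset.Win.SO (con PN on mem_PN Cls BL BU nL nU mem_con self_con vp I5 mem_I5
  c5 TD tL tU)

universe u

variable {P : Type u} [Fintype P] [PartialOrder P] [DecidableEq P] {r i : ℕ}
variable {e f g : P → ℕ} {psi : P → P} {C K s : Finset P} {t : P → ℕ} {d x p w : P}

open Classical in
/-- twins and a pendant with other sites -/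
noncomputable def F7 (i : ℕ) (C : Finset P) : Finset ((P × P) × P) :=
  ((Tws i C) ×ˢ (PN i C)).filter (fun q => Disjoint (sit i q.1.1) (sit i q.2))

lemma mem_F7 {q : (P × P) × P} : q ∈ F7 i C ↔ Tw i C q.1.1 q.1.2 ∧ q.2 ∈ PN i C ∧
    Disjoint (sit i q.1.1) (sit i q.2) := by
  classical
  unfold F7
  rw [mem_filter, mem_product, mem_Tws, and_assoc]

section seven

variable (F : Fr r i psi C)
include F

lemma cS_pos {z z' : P} (T : Tw i C z z') (hp : p ∈ PN i C) {a : P} (ha : Two i a) :
    1 ≤ cS i z z' p a ↔ z = a ∨ z' = a ∨ p = a := by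
  have H := F.E.H
  have z2 : Two i p := pn_lev F hp
  have h1 := cT_pos F T ha
  have h2 : 1 ≤ on (con i p) a ↔ a = p := by rw [on_pos, con_far H ha z2]
  unfold cS
  constructor
  · intro h
    by_cases g : 1 ≤ cT i z z' a
    · rcases h1.1 g with g | g
      · exact Or.inl g
      · exact Or.inr (Or.inl g)
    · exact Or.inr (Or.inr (h2.1 (by omega)).symm)
  · rintro (g | g | g)
    · have := h1.2 (Or.inl g)
      omega
    · have := h1.2 (Or.inr g)
      omega
    · have := h2.2 g.symm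
      omega

lemma tw_not_PN {z z' : P} (T : Tw i C z z') : z ∉ PN i C ∧ z' ∉ PN i C := by
  have H := F.E.H
  have hz' : z' ∈ ZL i C := ZL_of_eq H T.zl T.mC T.uc
  constructor
  · rw [PN_low H (mem_ZL.1 T.zl).2.1]
    exact fun h => ZL_not_PD H T.zl h.2
  · rw [PN_low H (mem_ZL.1 hz').2.1]
    exact fun h => ZL_not_PD H hz' h.2

lemma cS_inj {q q' : (P × P) × P} (h1 : q ∈ F7 i C) (h2 : q' ∈ F7 i C)
    (h : cS i q.1.1 q.1.2 q.2 = cS i q'.1.1 q'.1.2 q'.2) : q = q' := by
  have H := F.E.H
  obtain ⟨T, hp, hd⟩ := mem_F7.1 h1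
  obtain ⟨T', hp', hd'⟩ := mem_F7.1 h2
  obtain ⟨n1, n2⟩ := tw_not_PN F T
  obtain ⟨n1', n2'⟩ := tw_not_PN F T'
  obtain ⟨x, x', s, D, D', lz, lz', lx, lx'⟩ := twd F T
  obtain ⟨y, y', s2, D2, D2', mz, mz', my, my'⟩ := twd F T'
  have tp := pn_lev F hp
  have tp' := pn_lev F hp'
  have g1 : q.1.1 = q'.1.1 := by
    have k1 : 1 ≤ cS i q'.1.1 q'.1.2 q'.2 q.1.1 := by
      rw [← h, cS_pos F T hp (Or.inl lz)]
      exact Or.inl rfl
    rw [cS_pos F T' hp' (Or.inl lz)] at k1
    rcases k1 with k1 | k1 | k1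
    · exact k1.symm
    · -- the value two
      exfalso
      have k2 : 2 ≤ cS i q.1.1 q.1.2 q.2 q.1.1 := by
        unfold cS
        rw [cT_two F T]
        omega
      rw [h] at k2
      unfold cS at k2
      have k3 : on (con i q'.2) q.1.1 = 0 := on_zero (by
        rw [con_far H (Or.inl lz) tp']
        rintro h'
        exact n1 (h' ▸ hp'))
      have k4 : cT i q'.1.1 q'.1.2 q.1.1 = 1 := by
        rw [← k1]
        exact (cT_vals F mz mz' D2.cw D2'.cw T'.ne.symm).2.1
      omega
    · exact absurd (k1 ▸ hp') n1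
  have g2 : q.1.2 = q'.1.2 := by
    have k1 : 1 ≤ cS i q'.1.1 q'.1.2 q'.2 q.1.2 := by
      rw [← h, cS_pos F T hp (Or.inl lz')]
      exact Or.inr (Or.inl rfl)
    rw [cS_pos F T' hp' (Or.inl lz')] at k1
    rcases k1 with k1 | k1 | k1
    · exact absurd (g1.trans k1) T.ne
    · exact k1.symm
    · exact absurd (k1 ▸ hp') n2
  have g3 : q.2 = q'.2 := by
    have k1 : 1 ≤ cS i q'.1.1 q'.1.2 q'.2 q.2 := by
      rw [← h, cS_pos F T hp tp]
      exact Or.inr (Or.inr rfl)
    rw [cS_pos F T' hp' tp] at k1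
    rcases k1 with k1 | k1 | k1
    · exact absurd (k1 ▸ hp) n1'
    · exact absurd (k1 ▸ hp) n2'
    · exact k1.symm
  exact Prod.ext (Prod.ext g1 g2) g3

open Classical in
/-- THE COEFFICIENT of the energy seven of a series pinned at one element -/
theorem hc_seven_ind (hm : Meet i C) (hw : w ∈ C) (lw : lev w = i + 2) :
    hc 7 (st i C).card (ZPS i C (ind w)) =
      ∑ q ∈ (F7 i C).filter (fun q => q.1.1 = w ∨ q.1.2 = w ∨ q.2 = w), -vp i q.2 := by
  have H := F.E.H
  have tw : Two i w := Or.inl lw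
  rw [F.top hm (far_ind lw) once_ind (n := 7) (K := 2) rfl (by omega) (by omega)]
  have h1 : TT i psi C (ind w) 7 (2 + 1) =
      ((F7 i C).filter (fun q => q.1.1 = w ∨ q.1.2 = w ∨ q.2 = w)).image
        (fun q => cS i q.1.1 q.1.2 q.2) := by
    ext e
    rw [mem_TT, mem_image, pin_ind hw]
    constructor
    · rintro ⟨a1, a2, a3, a4, a5⟩
      obtain ⟨z, z', p, T, hp, hd, rfl⟩ := tt_seven F hm a2 a1 (by rw [a4]; rfl) a5
      exact ⟨((z, z'), p), mem_filter.2 ⟨mem_F7.2 ⟨T, hp, hd⟩, (cS_pos F T hp tw).1 a3⟩, rfl⟩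
    · rintro ⟨q, hq, rfl⟩
      obtain ⟨hq1, hq2⟩ := mem_filter.1 hq
      obtain ⟨T, hp, hd⟩ := mem_F7.1 hq1
      obtain ⟨b1, b2, b3, b4, b5⟩ := cS_ok F T hp hd
      exact ⟨b5, b1, (cS_pos F T hp tw).2 hq2, by rw [b2]; rfl, b4⟩
  rw [h1, Finset.sum_image]
  · refine Finset.sum_congr rfl fun q hq => ?_
    obtain ⟨T, hp, hd⟩ := mem_F7.1 (mem_filter.1 hq).1
    exact (cS_ok F T hp hd).2.2.1
  · intro q hq q' hq' h
    exact cS_inj F (mem_filter.1 hq).1 (mem_filter.1 hq').1 h

variable (hm : Meet i C)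
include hm

open Classical in
/-- the value at a pendant -/
theorem rho7_PD (hw : w ∈ C) (hp : w ∈ PD P i) :
    hc 7 (st i C).card (ZPS i C (ind w)) =
      -(((Tws i C).filter (fun q => Disjoint (sit i q.1) (sit i w))).card : ℤ) := by
  have H := F.E.H
  have lw : lev w = i + 2 := (mem_PD.1 hp).1
  have hwn : w ∈ PN i C := mem_PN.2 ⟨hw, Or.inl hp⟩
  have hv : vp i w = 1 := SO.vp_PD hp
  rw [hc_seven_ind F hm hw lw]
  have h2 : ∑ q ∈ (F7 i C).filter (fun q => q.1.1 = w ∨ q.1.2 = w ∨ q.2 = w), -vp i q.2 =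
      ∑ q ∈ (Tws i C).filter (fun q => Disjoint (sit i q.1) (sit i w)), (-1 : ℤ) := by
    refine Finset.sum_nbij' (fun q => q.1) (fun q => (q, w)) ?_ ?_ ?_ ?_ ?_
    · intro q hq
      obtain ⟨h3, h4⟩ := mem_filter.1 hq
      obtain ⟨T, g2, g3⟩ := mem_F7.1 h3
      obtain ⟨n1, n2⟩ := tw_not_PN F T
      rcases h4 with h4 | h4 | h4
      · exact absurd hwn (h4 ▸ n1)
      · exact absurd hwn (h4 ▸ n2)
      · rw [← h4]
        exact mem_filter.2 ⟨mem_Tws.2 T, g3⟩
    · intro q hq
      obtain ⟨h3, h4⟩ := mem_filter.1 hq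
      exact mem_filter.2 ⟨mem_F7.2 ⟨mem_Tws.1 h3, hwn, h4⟩, Or.inr (Or.inr rfl)⟩
    · intro q hq
      obtain ⟨h3, h4⟩ := mem_filter.1 hq
      obtain ⟨T, g2, g3⟩ := mem_F7.1 h3
      obtain ⟨n1, n2⟩ := tw_not_PN F T
      rcases h4 with h4 | h4 | h4
      · exact absurd hwn (h4 ▸ n1)
      · exact absurd hwn (h4 ▸ n2)
      · exact Prod.ext rfl h4.symm
    · intro q hq
      rfl
    · intro q hq
      obtain ⟨h3, h4⟩ := mem_filter.1 hq
      obtain ⟨T, g2, g3⟩ := mem_F7.1 h3
      obtain ⟨n1, n2⟩ := tw_not_PN F T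
      rcases h4 with h4 | h4 | h4
      · exact absurd hwn (h4 ▸ n1)
      · exact absurd hwn (h4 ▸ n2)
      · rw [h4, hv]
  rw [h2, Finset.sum_const, nsmul_eq_mul]
  ring

open Classical in
/-- the value at an element with three sites -/
theorem rho7_ZL (hz : w ∈ ZL i C) :
    hc 7 (st i C).card (ZPS i C (ind w)) =
      -((ntw C w : ℤ) *
        ∑ p ∈ (PN i C).filter (fun p => Disjoint (sit i w) (sit i p)), vp i p) := by
  have H := F.E.H
  obtain ⟨hw, lw, h3s⟩ := mem_ZL.1 hz
  have hwn : w ∉ PN i C := by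
    rw [PN_low H lw]
    exact fun h => ZL_not_PD H hz h.2
  rw [hc_seven_ind F hm hw lw]
  have hsit : ∀ q ∈ Tws i C, (q.1 = w ∨ q.2 = w) → sit i q.1 = sit i w := by
    intro q hq h
    have T := mem_Tws.1 hq
    rcases h with h | h
    · rw [h]
    · rw [← h, sit_low H (by have := (mem_ZL.1 T.zl).2.1; omega),
        sit_low H (by rw [h]; omega)]
      ext v
      rw [mem_sts_iff H (mem_ZL.1 T.zl).2.1, mem_sts_iff H (by rw [h]; exact lw), T.uc]
  have h2 : (F7 i C).filter (fun q => q.1.1 = w ∨ q.1.2 = w ∨ q.2 = w) =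
      ((Tws i C).filter (fun q => q.1 = w ∨ q.2 = w)) ×ˢ
        ((PN i C).filter (fun p => Disjoint (sit i w) (sit i p))) := by
    ext q
    rw [mem_filter, mem_product, mem_filter, mem_filter, mem_F7]
    constructor
    · rintro ⟨⟨T, g2, g3⟩, h⟩
      have h4 : q.1.1 = w ∨ q.1.2 = w := by
        rcases h with h | h | h
        · exact Or.inl h
        · exact Or.inr h
        · exact absurd (h ▸ g2) hwn
      rw [hsit q.1 (mem_Tws.2 T) h4] at g3
      exact ⟨⟨mem_Tws.2 T, h4⟩, g2, g3⟩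
    · rintro ⟨⟨T, h⟩, g2, g3⟩
      rw [← hsit q.1 T h] at g3
      refine ⟨⟨mem_Tws.1 T, g2, g3⟩, ?_⟩
      tauto
  rw [h2, Finset.sum_product]
  simp only []
  rw [Finset.sum_const, card_Tws H hz, nsmul_eq_mul, sum_neg_distrib]
  ring

/-- the value at the other elements -/
theorem rho7_else (hw : w ∈ C) (lw : lev w = i + 2) (hp : w ∉ PD P i) (hz : w ∉ ZL i C) :
    hc 7 (st i C).card (ZPS i C (ind w)) = 0 := by
  classical
  have H := F.E.H
  have hwn : w ∉ PN i C := by
    rw [PN_low H lw]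
    exact fun h => hp h.2
  rw [hc_seven_ind F hm hw lw]
  apply Finset.sum_eq_zero
  intro q hq
  exfalso
  obtain ⟨h3, h4⟩ := mem_filter.1 hq
  obtain ⟨T, g2, g3⟩ := mem_F7.1 h3
  rcases h4 with h4 | h4 | h4
  · exact hz (h4 ▸ T.zl)
  · exact hz (h4 ▸ ZL_of_eq H T.zl T.mC T.uc)
  · exact hwn (h4 ▸ g2)

end seven

end Pool.Agent.GaussPoset.Win.Pn

end
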