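import Mathlib
import Pool.Agent.W_448zz_h61.Ns
import Pool.Agent.W_448zz_h61.M092
import Pool.Agent.W_448zz_h61.M114
import Pool.Agent.W_448zz_h61.M151
import Pool.Agent.W_448zz_h61.M153

/-! From `Pool.Agent.W_448w4_h10.KE` -/

section

/-!
MP_448cb3_co, G2, case B, window `j`: index sets for the cores of energy four of a natural part.  helper10.
-/

namespace Pool.Agent.GaussPoset.Win.W4

set_option linter.unusedSectionVars false

open Finset
open Pool.Agent.GaussPoset.Win.SO (Sde Pen TD On kS tL tU LowD UppD val_of PN vp mem_PN num_PN NumG con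
  mem_con self_con con_two_low con_two_upp con_cls con_disj on con_sub on_inj Mn Mn_biUnion sit_PD
  sit_PU con_PD con_PU PD_data PU_data pair_gen)
open Pool.Agent.GaussPoset.Win.I2 (lS uS mem_lS mem_uS)

universe u

variable {P : Type u} [Fintype P] [PartialOrder P] [DecidableEq P] {r i : ℕ}
variable {e f : P → ℕ} {psi : P → P} {C K : Finset P}

open Classical in
/-- ordered pairs of pendants with disjoint sites -/
noncomputable def P4 (i : ℕ) (C : Finset P) : Finset (P × P) :=
  (PN i C ×ˢ PN i C).filter (fun q => Disjoint (sit i q.1) (sit i q.2))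

/-- the configuration of a pair of pendants -/
noncomputable def c4 (i : ℕ) (q : P × P) : P → ℕ := on (con i q.1 ∪ con i q.2)

/-- elements at distance two with three sites -/
noncomputable def Z4 (i : ℕ) (C : Finset P) : Finset P := ZL i C ∪ ZU i C

open Classical in
/-- the configuration of type A -/
noncomputable def cA (i : ℕ) (z : P) : P → ℕ :=
  fun y => if y = z then 2 else if y ∈ con i z then 1 else 0

open Classical in
/-- the common sites of the covers of `z` -/
noncomputable def cS (i : ℕ) (z : P) : Finset P :=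
  univ.filter (fun v => lev v = i ∧ (i < lev z → ∀ x ∈ uc z, v ∈ uc x) ∧
    (lev z < i → ∀ x ∈ dc z, v ∈ dc x))

open Classical in
/-- the T-elements -/
noncomputable def T4 (i : ℕ) (C : Finset P) : Finset P :=
  (ZL i C).filter (fun z => ∀ x ∈ uc z, (uc x).card = 2) ∪
    (ZU i C).filter (fun z => ∀ x ∈ dc z, (dc x).card = 2)

/-- the configuration of type B -/
noncomputable def cB (i : ℕ) (z : P) : P → ℕ := on (con i z ∪ cS i z)

lemma mem_P4 {q : P × P} : q ∈ P4 i C ↔ q.1 ∈ PN i C ∧ q.2 ∈ PN i C ∧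
    Disjoint (sit i q.1) (sit i q.2) := by
  classical
  unfold P4
  simp only [mem_filter, mem_product, and_assoc]

lemma mem_Z4 {z : P} : z ∈ Z4 i C ↔ z ∈ ZL i C ∨ z ∈ ZU i C := by
  unfold Z4; rw [mem_union]

lemma mem_cS {z v : P} : v ∈ cS i z ↔ lev v = i ∧ (i < lev z → ∀ x ∈ uc z, v ∈ uc x) ∧
    (lev z < i → ∀ x ∈ dc z, v ∈ dc x) := by
  classical
  unfold cS
  simp only [mem_filter, mem_univ, true_and]

lemma mem_T4 {z : P} : z ∈ T4 i C ↔ (z ∈ ZL i C ∧ ∀ x ∈ uc z, (uc x).card = 2) ∨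
    (z ∈ ZU i C ∧ ∀ x ∈ dc z, (dc x).card = 2) := by
  classical
  unfold T4
  rw [mem_union, mem_filter, mem_filter]

lemma T4_sub {z : P} (h : z ∈ T4 i C) : z ∈ Z4 i C := by
  rw [mem_Z4]
  rcases mem_T4.1 h with h | h
  · exact Or.inl h.1
  · exact Or.inr h.1

/-! ### the number of sites -/

lemma up_two (H : Gr P r) {z x x' : P} (hz : lev z = i + 2) (hc : uc z = {x, x'}) :
    up i z = (uc x ∪ uc x').card := by
  rw [← card_sts]
  congr 1
  ext v
  rw [mem_sts_iff H hz, hc, mem_union]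
  simp

lemma dn_two (H : Gr P r) {z x x' : P} (hz : lev z + 2 = i) (hc : dc z = {x, x'}) :
    dn i z = (dc x ∪ dc x').card := by
  rw [← card_stD]
  congr 1
  ext v
  rw [mem_stD_iff H hz, hc, mem_union]
  simp

/-! ### configurations of type A -/

lemma cA_low (H : Gr P r) {z x x' : P} (hz : lev z = i + 2) (hc : uc z = {x, x'}) (y : P) :
    cA i z y = if y = z then 2 else if y = x ∨ y = x' then 1 else 0 := by
  unfold cA
  rw [con_two_low H hz, hc]
  by_cases h1 : y = z
  · rw [if_pos h1, if_pos h1]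
  · rw [if_neg h1, if_neg h1]
    simp only [mem_insert, mem_singleton, h1, false_or]

lemma cA_upp (H : Gr P r) {z x x' : P} (hz : lev z + 2 = i) (hc : dc z = {x, x'}) (y : P) :
    cA i z y = if y = z then 2 else if y = x ∨ y = x' then 1 else 0 := by
  unfold cA
  rw [con_two_upp H hz, hc]
  by_cases h1 : y = z
  · rw [if_pos h1, if_pos h1]
  · rw [if_neg h1, if_neg h1]
    simp only [mem_insert, mem_singleton, h1, false_or]

lemma A4_index (H : Gr P r) (hs : Spt C e) (h : A4 uc (tL (P := P) i) (lS P i) e) :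
    ∃ z ∈ Z4 i C, cA i z = e := by
  obtain ⟨z, x, x', h1, h2, h3, h4, h5, h6⟩ := h
  have hz : lev z = i + 2 := by
    rw [mem_lS] at h1
    unfold tL at h2
    omega
  refine ⟨z, mem_Z4.2 (Or.inl (mem_ZL.2 ⟨?_, hz, ?_⟩)), ?_⟩
  · exact mem_of_pos hs (by rw [h6 z, if_pos rfl]; omega)
  · rw [up_two H hz h3, h5]
  · funext y
    rw [cA_low H hz h3, h6 y]

lemma A4_index' (H : Gr P r) (hs : Spt C e) (h : A4 dc (tU (P := P) i) (uS P i) e) :
    ∃ z ∈ Z4 i C, cA i z = e := by
  obtain ⟨z, x, x', h1, h2, h3, h4, h5, h6⟩ := h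
  have hz : lev z + 2 = i := by
    rw [mem_uS] at h1
    unfold tU at h2
    omega
  refine ⟨z, mem_Z4.2 (Or.inr (mem_ZU.2 ⟨?_, hz, ?_⟩)), ?_⟩
  · exact mem_of_pos hs (by rw [h6 z, if_pos rfl]; omega)
  · rw [dn_two H hz h3, h5]
  · funext y
    rw [cA_upp H hz h3, h6 y]

lemma A4_of (H : Gr P r) {z : P} (hz : z ∈ ZL i C) : A4 uc (tL (P := P) i) (lS P i) (cA i z) := by
  obtain ⟨h1, h2, h3⟩ := mem_ZL.1 hz
  obtain ⟨x, x', hne, hc⟩ := card_eq_two.1 (card_uc_of_up H h2 h3)
  exact ⟨z, x, x', mem_lS.2 (by omega), by unfold tL; omega, hc, hne, by rw [← up_two H h2 hc, h3],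
    fun y => cA_low H h2 hc y⟩

lemma A4_of' (H : Gr P r) {z : P} (hz : z ∈ ZU i C) : A4 dc (tU (P := P) i) (uS P i) (cA i z) := by
  obtain ⟨h1, h2, h3⟩ := mem_ZU.1 hz
  obtain ⟨x, x', hne, hc⟩ := card_eq_two.1 (card_dc_of_dn H h2 h3)
  exact ⟨z, x, x', mem_uS.2 (by omega), by unfold tU; omega, hc, hne, by rw [← dn_two H h2 hc, h3],
    fun y => cA_upp H h2 hc y⟩

lemma cA_spt (H : Gr P r) (hC : Part (i + 1) C) {z : P} (hz : z ∈ Z4 i C) : Spt C (cA i z) := by
  have h1 : z ∈ C ∧ lev z ≠ i := by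
    rcases mem_Z4.1 hz with h | h
    · have := mem_ZL.1 h
      exact ⟨this.1, by omega⟩
    · have := mem_ZU.1 h
      exact ⟨this.1, by omega⟩
  intro x hx
  have h2 := con_sub H hC h1.1 h1.2
  unfold cA
  rw [if_neg (by rintro rfl; exact hx h1.1), if_neg (fun h => hx (h2 h))]

lemma cA_inj {z z' : P} (h : cA i z = cA i z') : z = z' := by
  have h1 : cA i z z = 2 := by unfold cA; rw [if_pos rfl]
  rw [h] at h1
  unfold cA at h1
  split_ifs at h1 with h2 <;> first | exact h2 | omega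

/-- touched near elements: cores -/
lemma core_of_touch (h : ∀ x ∈ near P i, 0 < e x → x ∈ Tch i e) : IsCore i K psi e := by
  intro x hx
  obtain ⟨a1, -, a3, -⟩ := mem_Rst.1 hx
  by_contra hne
  exact a3 (h x a1 (by omega))

lemma A4_core (H : Gr P r) (h : A4 uc (tL (P := P) i) (lS P i) e) : IsCore i K psi e := by
  obtain ⟨z, x, x', h1, h2, h3, h4, h5, h6⟩ := h
  have hz : lev z = i + 2 := by
    rw [mem_lS] at h1
    unfold tL at h2
    omega
  have ez : e z = 2 := by rw [h6 z, if_pos rfl]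
  apply core_of_touch
  intro y hy hpos
  rw [h6 y] at hpos
  split_ifs at hpos with g1 g2
  · rw [mem_near] at hy
    rw [g1] at hy
    omega
  · rw [mem_Tch]
    have hzy : z ⋖ y := by
      rw [← mem_uc, h3, mem_insert, mem_singleton]
      exact g2
    have := lev_cov H hzy
    exact Or.inl ⟨by omega, z, hzy, by omega⟩
  · omega

lemma A4_core' (H : Gr P r) (h : A4 dc (tU (P := P) i) (uS P i) e) : IsCore i K psi e := by
  obtain ⟨z, x, x', h1, h2, h3, h4, h5, h6⟩ := h
  have hz : lev z + 2 = i := by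
    rw [mem_uS] at h1
    unfold tU at h2
    omega
  have ez : e z = 2 := by rw [h6 z, if_pos rfl]
  apply core_of_touch
  intro y hy hpos
  rw [h6 y] at hpos
  split_ifs at hpos with g1 g2
  · rw [mem_near] at hy
    rw [g1] at hy
    omega
  · rw [mem_Tch]
    have hzy : y ⋖ z := by
      rw [← mem_dc, h3, mem_insert, mem_singleton]
      exact g2
    have := lev_cov H hzy
    exact Or.inr ⟨by omega, z, hzy, by omega⟩
  · omega

/-! ### configurations of type B -/

lemma cS_low (H : Gr P r) {z x x' s : P} (T : TD uc (tL (P := P) i) (lS P i) z x x' s) :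
    cS i z = {s} := by
  have hz := T.lw
  have ls := T.site H (mem_union_left _ T.sx)
  ext v
  rw [mem_cS, mem_singleton, T.cw]
  constructor
  · rintro ⟨h1, h2, -⟩
    have h3 := h2 (by omega)
    exact T.only v (h3 x (by simp)) (h3 x' (by simp))
  · rintro rfl
    refine ⟨ls, fun _ y hy => ?_, fun h => by omega⟩
    rw [mem_insert, mem_singleton] at hy
    rcases hy with rfl | rfl
    · exact T.sx
    · exact T.sx'

lemma cS_upp (H : Gr P r) {z x x' s : P} (T : TD dc (tU (P := P) i) (uS P i) z x x' s) :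
    cS i z = {s} := by
  have hz := T.lw'
  have ls := T.site' H (mem_union_left _ T.sx)
  ext v
  rw [mem_cS, mem_singleton, T.cw]
  constructor
  · rintro ⟨h1, -, h2⟩
    have h3 := h2 (by omega)
    exact T.only v (h3 x (by simp)) (h3 x' (by simp))
  · rintro rfl
    refine ⟨ls, fun h => by omega, fun _ y hy => ?_⟩
    rw [mem_insert, mem_singleton] at hy
    rcases hy with rfl | rfl
    · exact T.sx
    · exact T.sx'

lemma on_On {s s' : Finset P} (h : s = s') : On (on s) s' := by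
  subst h
  intro y
  rfl

lemma cB_low (H : Gr P r) {z x x' s : P} (T : TD uc (tL (P := P) i) (lS P i) z x x' s) :
    On (cB i z) {z, x, x', s} := by
  apply on_On
  rw [con_two_low H T.lw, T.cw, cS_low H T]
  ext v
  simp only [mem_union, mem_insert, mem_singleton]
  tauto

lemma cB_upp (H : Gr P r) {z x x' s : P} (T : TD dc (tU (P := P) i) (uS P i) z x x' s) :
    On (cB i z) {z, x, x', s} := by
  apply on_On
  rw [con_two_upp H T.lw', T.cw, cS_upp H T]
  ext v
  simp only [mem_union, mem_insert, mem_singleton]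
  tauto

lemma On_eq {s : Finset P} (h : On e s) (h' : On f s) : e = f := by
  funext y
  rw [h y, h' y]

/-- the T data of a T-element -/
lemma T4_low (H : Gr P r) {z : P} (hz : z ∈ ZL i C) (h : ∀ x ∈ uc z, (uc x).card = 2) :
    ∃ x x' s, TD uc (tL (P := P) i) (lS P i) z x x' s := by
  obtain ⟨h1, h2, h3⟩ := mem_ZL.1 hz
  obtain ⟨x, x', hne, hc⟩ := card_eq_two.1 (card_uc_of_up H h2 h3)
  have k1 := h x (by rw [hc]; simp)
  have k2 := h x' (by rw [hc]; simp)
  have k3 := up_two H h2 hc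
  have k4 := card_union_add_card_inter (uc x) (uc x')
  have k5 : (uc x ∩ uc x').card = 1 := by omega
  obtain ⟨s, hs⟩ := card_eq_one.1 k5
  have k6 : s ∈ uc x ∩ uc x' := by rw [hs]; simp
  rw [mem_inter] at k6
  refine ⟨x, x', s, ⟨mem_lS.2 (by omega), by unfold tL; omega, hc, hne, k1, k2, k6.1, k6.2, ?_⟩⟩
  intro v hv hv'
  have : v ∈ uc x ∩ uc x' := mem_inter.2 ⟨hv, hv'⟩
  rw [hs, mem_singleton] at this
  exact this

lemma T4_upp (H : Gr P r) {z : P} (hz : z ∈ ZU i C) (h : ∀ x ∈ dc z, (dc x).card = 2) :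
    ∃ x x' s, TD dc (tU (P := P) i) (uS P i) z x x' s := by
  obtain ⟨h1, h2, h3⟩ := mem_ZU.1 hz
  obtain ⟨x, x', hne, hc⟩ := card_eq_two.1 (card_dc_of_dn H h2 h3)
  have k1 := h x (by rw [hc]; simp)
  have k2 := h x' (by rw [hc]; simp)
  have k3 := dn_two H h2 hc
  have k4 := card_union_add_card_inter (dc x) (dc x')
  have k5 : (dc x ∩ dc x').card = 1 := by omega
  obtain ⟨s, hs⟩ := card_eq_one.1 k5
  have k6 : s ∈ dc x ∩ dc x' := by rw [hs]; simp
  rw [mem_inter] at k6
  refine ⟨x, x', s, ⟨mem_uS.2 (by omega), by unfold tU; omega, hc, hne, k1, k2, k6.1, k6.2, ?_⟩⟩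
  intro v hv hv'
  have : v ∈ dc x ∩ dc x' := mem_inter.2 ⟨hv, hv'⟩
  rw [hs, mem_singleton] at this
  exact this

lemma B4_index (H : Gr P r) (hs : Spt C e) (h : B4 uc (tL (P := P) i) (lS P i) e) :
    ∃ z ∈ T4 i C, cB i z = e := by
  obtain ⟨z, x, x', s, T, h6⟩ := h
  have hz := T.lw
  have h3 := T.three
  refine ⟨z, mem_T4.2 (Or.inl ⟨mem_ZL.2 ⟨?_, hz, ?_⟩, ?_⟩), On_eq (cB_low H T) h6⟩
  · exact mem_of_pos hs (by rw [h6 z, if_pos (by simp)]; omega)
  · rw [up_two H hz T.cw, h3]
  · intro y hy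
    rw [T.cw, mem_insert, mem_singleton] at hy
    rcases hy with rfl | rfl
    · exact T.cx
    · exact T.cx'

lemma B4_index' (H : Gr P r) (hs : Spt C e) (h : B4 dc (tU (P := P) i) (uS P i) e) :
    ∃ z ∈ T4 i C, cB i z = e := by
  obtain ⟨z, x, x', s, T, h6⟩ := h
  have hz := T.lw'
  have h3 := T.three
  refine ⟨z, mem_T4.2 (Or.inr ⟨mem_ZU.2 ⟨?_, hz, ?_⟩, ?_⟩), On_eq (cB_upp H T) h6⟩
  · exact mem_of_pos hs (by rw [h6 z, if_pos (by simp)]; omega)
  · rw [dn_two H hz T.cw, h3]
  · intro y hy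
    rw [T.cw, mem_insert, mem_singleton] at hy
    rcases hy with rfl | rfl
    · exact T.cx
    · exact T.cx'

lemma B4_of (H : Gr P r) {z : P} (hz : z ∈ T4 i C) :
    B4 uc (tL (P := P) i) (lS P i) (cB i z) ∨ B4 dc (tU (P := P) i) (uS P i) (cB i z) := by
  rcases mem_T4.1 hz with ⟨h1, h2⟩ | ⟨h1, h2⟩
  · obtain ⟨x, x', s, T⟩ := T4_low H h1 h2
    exact Or.inl ⟨z, x, x', s, T, cB_low H T⟩
  · obtain ⟨x, x', s, T⟩ := T4_upp H h1 h2
    exact Or.inr ⟨z, x, x', s, T, cB_upp H T⟩

lemma B4_core (H : Gr P r) (h : B4 uc (tL (P := P) i) (lS P i) e) : IsCore i K psi e := by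
  obtain ⟨z, x, x', s, T, h6⟩ := h
  have hz := T.lw
  have ls := T.site H (mem_union_left _ T.sx)
  have ez : e z = 1 := by rw [h6 z, if_pos (by simp)]
  apply core_of_touch
  intro y hy hpos
  rw [h6 y] at hpos
  split_ifs at hpos with g1
  · rw [mem_insert, mem_insert, mem_insert, mem_singleton] at g1
    rw [mem_near] at hy
    have g2 : y = x ∨ y = x' := by
      rcases g1 with rfl | rfl | rfl | rfl
      · omega
      · exact Or.inl rfl
      · exact Or.inr rfl
      · omega
    have hzy : z ⋖ y := by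
      rw [← mem_uc, T.cw, mem_insert, mem_singleton]
      exact g2
    have := lev_cov H hzy
    rw [mem_Tch]
    exact Or.inl ⟨by omega, z, hzy, by omega⟩
  · omega

lemma B4_core' (H : Gr P r) (h : B4 dc (tU (P := P) i) (uS P i) e) : IsCore i K psi e := by
  obtain ⟨z, x, x', s, T, h6⟩ := h
  have hz := T.lw'
  have ls := T.site' H (mem_union_left _ T.sx)
  have ez : e z = 1 := by rw [h6 z, if_pos (by simp)]
  apply core_of_touch
  intro y hy hpos
  rw [h6 y] at hpos
  split_ifs at hpos with g1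
  · rw [mem_insert, mem_insert, mem_insert, mem_singleton] at g1
    rw [mem_near] at hy
    have g2 : y = x ∨ y = x' := by
      rcases g1 with rfl | rfl | rfl | rfl
      · omega
      · exact Or.inl rfl
      · exact Or.inr rfl
      · omega
    have hzy : y ⋖ z := by
      rw [← mem_dc, T.cw, mem_insert, mem_singleton]
      exact g2
    have := lev_cov H hzy
    rw [mem_Tch]
    exact Or.inr ⟨by omega, z, hzy, by omega⟩
  · omega

lemma cB_spt (H : Gr P r) (hC : Part (i + 1) C) {z : P} (hz : z ∈ T4 i C) : Spt C (cB i z) := by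
  have key : ∀ {x x' s : P}, z ∈ C → x ∈ C → x' ∈ C → s ∈ C → On (cB i z) {z, x, x', s} →
      Spt C (cB i z) := by
    intro x x' s h1 h2 h3 h4 ho y hy
    rw [ho y, if_neg]
    rw [mem_insert, mem_insert, mem_insert, mem_singleton]
    rintro (rfl | rfl | rfl | rfl)
    · exact hy h1
    · exact hy h2
    · exact hy h3
    · exact hy h4
  rcases mem_T4.1 hz with ⟨h1, h2⟩ | ⟨h1, h2⟩
  · obtain ⟨x, x', s, T⟩ := T4_low H h1 h2
    have hzC := (mem_ZL.1 h1).1
    have hxC := hC.up hzC (show z ⋖ x by rw [← mem_uc, T.cw]; simp)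
    have hxC' := hC.up hzC (show z ⋖ x' by rw [← mem_uc, T.cw]; simp)
    exact key hzC hxC hxC' (hC.up hxC (mem_uc.1 T.sx)) (cB_low H T)
  · obtain ⟨x, x', s, T⟩ := T4_upp H h1 h2
    have hzC := (mem_ZU.1 h1).1
    have l1 := T.lw'
    obtain ⟨l2, l3⟩ := T.lx' H
    have hxC := hC.dn hzC (by omega) (show x ⋖ z by rw [← mem_dc, T.cw]; simp)
    have hxC' := hC.dn hzC (by omega) (show x' ⋖ z by rw [← mem_dc, T.cw]; simp)
    exact key hzC hxC hxC' (hC.dn hxC (by omega) (mem_dc.1 T.sx)) (cB_upp H T)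

/-- levels of the elements of a configuration of type B -/
lemma cB_far (H : Gr P r) {z y : P} (hz : z ∈ T4 i C) (hy : lev y = i + 2 ∨ lev y + 2 = i) :
    0 < cB i z y ↔ y = z := by
  rcases mem_T4.1 hz with ⟨h1, h2⟩ | ⟨h1, h2⟩
  · obtain ⟨x, x', s, T⟩ := T4_low H h1 h2
    have l1 := T.lw
    obtain ⟨l2, l3⟩ := T.lx H
    have l4 := T.site H (mem_union_left _ T.sx)
    rw [cB_low H T y]
    simp only [mem_insert, mem_singleton]
    constructor
    · intro h
      split_ifs at h with h'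
      · rcases h' with rfl | rfl | rfl | rfl
        · rfl
        all_goals omega
      · omega
    · rintro rfl
      simp
  · obtain ⟨x, x', s, T⟩ := T4_upp H h1 h2
    have l1 := T.lw'
    obtain ⟨l2, l3⟩ := T.lx' H
    have l4 := T.site' H (mem_union_left _ T.sx)
    rw [cB_upp H T y]
    simp only [mem_insert, mem_singleton]
    constructor
    · intro h
      split_ifs at h with h'
      · rcases h' with rfl | rfl | rfl | rfl
        · rfl
        all_goals omega
      · omega
    · rintro rfl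
      simp

lemma T4_lev {z : P} (hz : z ∈ T4 i C) : lev z = i + 2 ∨ lev z + 2 = i := by
  rcases mem_T4.1 hz with ⟨h1, -⟩ | ⟨h1, -⟩
  · exact Or.inl (mem_ZL.1 h1).2.1
  · exact Or.inr (mem_ZU.1 h1).2.1

lemma cB_inj (H : Gr P r) {z z' : P} (hz : z ∈ T4 i C) (hz' : z' ∈ T4 i C)
    (h : cB i z = cB i z') : z = z' := by
  have h1 := (cB_far H hz (T4_lev hz)).2 rfl
  rw [h] at h1
  exact (cB_far H hz' (T4_lev hz)).1 h1

end Pool.Agent.GaussPoset.Win.W4

end

/-! From `Pool.Agent.W_448w4_h10.KF` -/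

section

/-!
MP_448cb3_co, G2, case B, window `j`: second order data (2,1), (4,2) of a natural part.  helper10.
-/

namespace Pool.Agent.GaussPoset.Win.W4

set_option linter.unusedSectionVars false

open Finset
open Pool.Agent.GaussPoset.Win.SO (Sde Pen TD On kS tL tU LowD UppD val_of PN vp mem_PN num_PN NumG con
  mem_con self_con con_two_low con_two_upp con_cls con_disj on con_sub on_inj Mn Mn_biUnion sit_PD
  sit_PU con_PD con_PU PD_data PU_data pair_gen cheap_coeff cheap_dvd vp_PD vp_PU sit_ne)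
open Pool.Agent.GaussPoset.Win.I2 (lS uS mem_lS mem_uS)

universe u

variable {P : Type u} [Fintype P] [PartialOrder P] [DecidableEq P] {r i : ℕ}
variable {e f : P → ℕ} {psi : P → P} {C K : Finset P}

/-! ### pairs of pendants -/

lemma PN_lev {p : P} (hp : p ∈ PN i C) : p ∈ C ∧ (lev p = i + 2 ∨ lev p + 2 = i) := by
  rw [mem_PN] at hp
  refine ⟨hp.1, ?_⟩
  rcases hp.2 with h | h
  · exact Or.inl (lev_PD h).1
  · exact Or.inr (lev_PU h).1

/-- the covers of a pendant are touched -/
lemma PN_touch (H : Gr P r) {p x : P} (hp : p ∈ PN i C) (hx : x ∈ con i p) (hne : x ≠ p)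
    (he : 0 < e p) : x ∈ Tch i e := by
  rw [mem_Tch]
  rcases (PN_lev hp).2 with h | h
  · rw [con_two_low H h, mem_insert] at hx
    rcases hx with hx | hx
    · exact absurd hx hne
    · have h1 := lev_uc H hx
      exact Or.inl ⟨by omega, p, mem_uc.1 hx, he⟩
  · rw [con_two_upp H h, mem_insert] at hx
    rcases hx with hx | hx
    · exact absurd hx hne
    · have h1 := lev_dc H hx
      exact Or.inr ⟨by omega, p, mem_dc.1 hx, he⟩

lemma on_pos {s : Finset P} {x : P} : 0 < on s x ↔ x ∈ s := by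
  unfold on
  split_ifs with h
  · exact ⟨fun _ => h, fun _ => by omega⟩
  · exact ⟨fun h' => by omega, fun h' => absurd h' h⟩

lemma c4_core (H : Gr P r) {q : P × P} (hq : q ∈ P4 i C) : IsCore i K psi (c4 i q) := by
  obtain ⟨h1, h2, h3⟩ := mem_P4.1 hq
  have l1 := (PN_lev h1).2
  have l2 := (PN_lev h2).2
  apply core_of_touch
  intro x hx hpos
  unfold c4 at hpos
  rw [on_pos, mem_union] at hpos
  rw [mem_near] at hx
  rcases hpos with h | h
  · refine PN_touch H h1 h (by rintro rfl; omega) ?_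
    unfold c4
    rw [on_pos]
    exact mem_union_left _ (self_con (by omega))
  · refine PN_touch H h2 h (by rintro rfl; omega) ?_
    unfold c4
    rw [on_pos]
    exact mem_union_right _ (self_con (by omega))

lemma c4_spt (H : Gr P r) (hC : Part (i + 1) C) {q : P × P} (hq : q ∈ P4 i C) :
    Spt C (c4 i q) := by
  obtain ⟨h1, h2, h3⟩ := mem_P4.1 hq
  have l1 := PN_lev h1
  have l2 := PN_lev h2
  exact SO.on_spt (union_subset (con_sub H hC l1.1 (by omega)) (con_sub H hC l2.1 (by omega)))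

/-- the value of a pair -/
theorem c4_value (H : Gr P r) (hi : 1 ≤ i) (hi2 : i + 1 ≤ r) (hC : Part (i + 1) C)
    {q : P × P} (hq : q ∈ P4 i C) : ∑ x, c4 i q x = 4 ∧
    PowerSeries.coeff (st i C).card (dd ^ 2 * tC i C (c4 i q) : A) = vp i q.1 * vp i q.2 := by
  obtain ⟨h1, h2, h3⟩ := mem_P4.1 hq
  exact pair_gen H hi hi2 hC (num_PN H h1) (num_PN H h2) h3

lemma vp_ne (p : P) : vp i p ≠ 0 := by
  unfold vp
  split_ifs <;> norm_num

/-- the two pendants are the minimal elements of the configuration -/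
lemma c4_Mn (H : Gr P r) (hir : i ≤ r) {q : P × P} (hq : q ∈ P4 i C) :
    Mn i (con i q.1 ∪ con i q.2) = {q.1, q.2} := by
  obtain ⟨h1, h2, h3⟩ := mem_P4.1 hq
  have N := num_PN H h1
  have N' := num_PN H h2
  have := Mn_biUnion H hir (T := {q.1, q.2}) (by
    intro z hz
    rw [mem_insert, mem_singleton] at hz
    rcases hz with rfl | rfl
    · exact N.ns
    · exact N'.ns) (by
    intro z hz z' hz' hne
    rw [mem_insert, mem_singleton] at hz hz'
    rcases hz with rfl | rfl <;> rcases hz' with rfl | rfl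
    · exact absurd rfl hne
    · exact h3
    · exact h3.symm
    · exact absurd rfl hne)
  rwa [biUnion_insert, singleton_biUnion] at this

lemma P4_ne (H : Gr P r) (hir : i ≤ r) {q : P × P} (hq : q ∈ P4 i C) : q.1 ≠ q.2 := by
  obtain ⟨h1, h2, h3⟩ := mem_P4.1 hq
  intro h
  rw [h] at h3
  obtain ⟨v, hv⟩ := sit_ne H hir (num_PN H h2).ns
  exact disjoint_left.1 h3 hv hv

lemma P4_swap {q : P × P} (hq : q ∈ P4 i C) : q.swap ∈ P4 i C := by
  obtain ⟨h1, h2, h3⟩ := mem_P4.1 hq
  exact mem_P4.2 ⟨h2, h1, h3.symm⟩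

lemma c4_swap (q : P × P) : c4 i q.swap = c4 i q := by
  unfold c4
  show on (con i q.2 ∪ con i q.1) = _
  rw [union_comm]

/-- the fibre of a pair -/
lemma c4_fib (H : Gr P r) (hir : i ≤ r) {q q' : P × P} (hq : q ∈ P4 i C) (hq' : q' ∈ P4 i C)
    (h : c4 i q' = c4 i q) : q' = q ∨ q' = q.swap := by
  have h1 : ({q'.1, q'.2} : Finset P) = {q.1, q.2} := by
    rw [← c4_Mn H hir hq, ← c4_Mn H hir hq']
    congr 1
    exact on_inj h
  have hne := P4_ne H hir hq'
  have a1 : q'.1 ∈ ({q.1, q.2} : Finset P) := by rw [← h1]; simp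
  have a2 : q'.2 ∈ ({q.1, q.2} : Finset P) := by rw [← h1]; simp
  rw [mem_insert, mem_singleton] at a1 a2
  rcases a1 with a1 | a1 <;> rcases a2 with a2 | a2
  · exact absurd (a1.trans a2.symm) hne
  · exact Or.inl (Prod.ext a1 a2)
  · exact Or.inr (Prod.ext a1 a2)
  · exact absurd (a1.trans a2.symm) hne

open Classical in
/-- the sum over the configurations of pairs -/
theorem c4_sum (H : Gr P r) (hi : 1 ≤ i) (hi2 : i + 1 ≤ r) (hC : Part (i + 1) C) :
    2 * ∑ e ∈ (P4 i C).image (c4 i), PowerSeries.coeff (st i C).card (dd ^ 2 * tC i C e : A) =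
      ∑ q ∈ P4 i C, vp i q.1 * vp i q.2 := by
  have hir : i ≤ r := by omega
  have h1 : ∑ q ∈ P4 i C, vp i q.1 * vp i q.2 =
      ∑ e ∈ (P4 i C).image (c4 i), ∑ q ∈ (P4 i C).filter (fun q => c4 i q = e),
        vp i q.1 * vp i q.2 :=
    (Finset.sum_fiberwise_of_maps_to (fun q hq => mem_image_of_mem _ hq) _).symm
  rw [h1, Finset.mul_sum]
  refine Finset.sum_congr rfl fun e he => ?_
  rw [mem_image] at he
  obtain ⟨q, hq, rfl⟩ := he
  have h2 : (P4 i C).filter (fun q' => c4 i q' = c4 i q) = {q, q.swap} := by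
    ext q'
    rw [mem_filter, mem_insert, mem_singleton]
    constructor
    · rintro ⟨h3, h4⟩
      exact c4_fib H hir hq h3 h4
    · rintro (rfl | rfl)
      · exact ⟨hq, rfl⟩
      · exact ⟨P4_swap hq, c4_swap q⟩
  have hne := P4_ne H hir hq
  rw [h2, Finset.sum_pair, (c4_value H hi hi2 hC hq).2]
  · show 2 * (vp i q.1 * vp i q.2) = vp i q.1 * vp i q.2 + vp i q.2 * vp i q.1
    ring
  · intro h
    exact hne (congrArg Prod.fst h)

lemma PP_index (H : Gr P r) (hs : Spt C e) (h : PP uc (tL (P := P) i) (lS P i) e) :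
    ∃ q ∈ P4 i C, c4 i q = e := by
  obtain ⟨p, y, p', y', h1, h2, h3, h4, h5, h6⟩ := h
  obtain ⟨a0, a1, a2, a3, a4⟩ := SO.pen_low H h1
  obtain ⟨b0, b1, b2, b3, b4⟩ := SO.pen_low H h2
  refine ⟨(p, p'), mem_P4.2 ⟨mem_PN.2 ⟨?_, Or.inl a0⟩, mem_PN.2 ⟨?_, Or.inl b0⟩, ?_⟩, ?_⟩
  · exact mem_of_pos hs (by rw [h6 p, if_pos (by simp)]; omega)
  · exact mem_of_pos hs (by rw [h6 p', if_pos (by simp)]; omega)
  · show Disjoint (sit i p) (sit i p')
    rw [sit_PD H a1 a3, sit_PD H b1 b3]
    exact h5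
  · apply On_eq (on_On _) h6
    show con i p ∪ con i p' = _
    rw [con_PD H a1 a3, con_PD H b1 b3]
    ext v
    simp only [mem_union, mem_insert, mem_singleton]
    tauto

lemma PP_index' (H : Gr P r) (hs : Spt C e) (h : PP dc (tU (P := P) i) (uS P i) e) :
    ∃ q ∈ P4 i C, c4 i q = e := by
  obtain ⟨p, y, p', y', h1, h2, h3, h4, h5, h6⟩ := h
  obtain ⟨a0, a1, a2, a3, a4⟩ := SO.pen_up H h1
  obtain ⟨b0, b1, b2, b3, b4⟩ := SO.pen_up H h2
  refine ⟨(p, p'), mem_P4.2 ⟨mem_PN.2 ⟨?_, Or.inr a0⟩, mem_PN.2 ⟨?_, Or.inr b0⟩, ?_⟩, ?_⟩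
  · exact mem_of_pos hs (by rw [h6 p, if_pos (by simp)]; omega)
  · exact mem_of_pos hs (by rw [h6 p', if_pos (by simp)]; omega)
  · show Disjoint (sit i p) (sit i p')
    rw [sit_PU H a1 a3, sit_PU H b1 b3]
    exact h5
  · apply On_eq (on_On _) h6
    show con i p ∪ con i p' = _
    rw [con_PU H a1 a3, con_PU H b1 b3]
    ext v
    simp only [mem_union, mem_insert, mem_singleton]
    tauto

lemma PQ_index (H : Gr P r) (hs : Spt C e)
    (h : PQ uc dc (tL (P := P) i) (tU i) (lS P i) (uS P i) e) :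
    ∃ q ∈ P4 i C, c4 i q = e := by
  obtain ⟨p, y, p', y', h1, h2, h5, h6⟩ := h
  obtain ⟨a0, a1, a2, a3, a4⟩ := SO.pen_low H h1
  obtain ⟨b0, b1, b2, b3, b4⟩ := SO.pen_up H h2
  refine ⟨(p, p'), mem_P4.2 ⟨mem_PN.2 ⟨?_, Or.inl a0⟩, mem_PN.2 ⟨?_, Or.inr b0⟩, ?_⟩, ?_⟩
  · exact mem_of_pos hs (by rw [h6 p, if_pos (by simp)]; omega)
  · exact mem_of_pos hs (by rw [h6 p', if_pos (by simp)]; omega)
  · show Disjoint (sit i p) (sit i p')
    rw [sit_PD H a1 a3, sit_PU H b1 b3]
    exact h5
  · apply On_eq (on_On _) h6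
    show con i p ∪ con i p' = _
    rw [con_PD H a1 a3, con_PU H b1 b3]
    ext v
    simp only [mem_union, mem_insert, mem_singleton]
    tauto

/-! ### the sum -/

/-- value of a configuration of type A -/
theorem cA_value (H : Gr P r) (hir : i ≤ r) (hC : Part (i + 1) C) {z : P} (hz : z ∈ Z4 i C) :
    ∑ x, cA i z x = 4 ∧
      PowerSeries.coeff (st i C).card (dd ^ 2 * tC i C (cA i z) : A) = -1 := by
  rcases mem_Z4.1 hz with h | h
  · exact ⟨L4.energy H (Or.inr (Or.inr (Or.inr (Or.inl (A4_of H h))))),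
      (A4_val H hir hC (cA_spt H hC hz) (A4_of H h)).2.2.2⟩
  · exact ⟨L4.energy H (Or.inr (Or.inr (Or.inr (Or.inr (Or.inl (A4_of' H h)))))),
      (A4_val' H hir hC (cA_spt H hC hz) (A4_of' H h)).2.2.2⟩

lemma cA_core (H : Gr P r) {z : P} (hz : z ∈ Z4 i C) : IsCore i K psi (cA i z) := by
  rcases mem_Z4.1 hz with h | h
  · exact A4_core H (A4_of H h)
  · exact A4_core' H (A4_of' H h)

/-- value of a configuration of type B -/
theorem cB_value (H : Gr P r) (hir : i ≤ r) (hC : Part (i + 1) C) {z : P} (hz : z ∈ T4 i C) :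
    ∑ x, cB i z x = 4 ∧
      PowerSeries.coeff (st i C).card (dd ^ 2 * tC i C (cB i z) : A) = 1 := by
  rcases B4_of H hz with h | h
  · exact ⟨L4.energy H (Or.inr (Or.inr (Or.inr (Or.inr (Or.inr (Or.inl h)))))),
      (B4_val H hir hC (cB_spt H hC hz) h).2.2.2⟩
  · exact ⟨L4.energy H (Or.inr (Or.inr (Or.inr (Or.inr (Or.inr (Or.inr h)))))),
      (B4_val' H hir hC (cB_spt H hC hz) h).2.2.2⟩

lemma cB_core (H : Gr P r) {z : P} (hz : z ∈ T4 i C) : IsCore i K psi (cB i z) := by
  rcases B4_of H hz with h | h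
  · exact B4_core H h
  · exact B4_core' H h

lemma not_cheap (Q : Nat4 r i K psi C) (hb : 1 ≤ (st i C).card) (hs : Spt C e)
    (h : PowerSeries.coeff (st i C).card (dd ^ 2 * tC i C e : A) ≠ 0) : ¬ Cheap 1 i e :=
  fun h1 => h (cheap_coeff Q.H Q.hC hs h1 hb)

open Classical in
/-- the remaining class -/
theorem Nat4.class_eq (Q : Nat4 r i K psi C) (hb : 1 ≤ (st i C).card) :
    (C.piAntidiag 4).filter (fun e => IsCore i K psi e ∧ ¬ Cheap 1 i e) =
      (P4 i C).image (c4 i) ∪ ((Z4 i C).image (cA i) ∪ (T4 i C).image (cB i)) := by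
  have H := Q.H
  have hir : i ≤ r := by have := Q.hi2; omega
  ext e
  simp only [mem_filter, mem_union, mem_image, I2.mem_pa]
  constructor
  · rintro ⟨⟨g1, g2⟩, g3, g4⟩
    rcases Q.cls g3 g2 g1.le with h | ⟨-, h⟩
    · exact absurd h g4
    rcases h with h | h | h | h | h | h | h
    · exact Or.inl (PP_index H g2 h)
    · exact Or.inl (PP_index' H g2 h)
    · exact Or.inl (PQ_index H g2 h)
    · exact Or.inr (Or.inl (A4_index H g2 h))
    · exact Or.inr (Or.inl (A4_index' H g2 h))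
    · exact Or.inr (Or.inr (B4_index H g2 h))
    · exact Or.inr (Or.inr (B4_index' H g2 h))
  · rintro (⟨q, hq, rfl⟩ | ⟨z, hz, rfl⟩ | ⟨z, hz, rfl⟩)
    · have hv := c4_value H Q.hi Q.hi2 Q.hC hq
      refine ⟨⟨hv.1, c4_spt H Q.hC hq⟩, c4_core H hq, not_cheap Q hb (c4_spt H Q.hC hq) ?_⟩
      rw [hv.2]
      exact mul_ne_zero (vp_ne _) (vp_ne _)
    · have hv := cA_value H hir Q.hC hz
      refine ⟨⟨hv.1, cA_spt H Q.hC hz⟩, cA_core H hz, not_cheap Q hb (cA_spt H Q.hC hz) ?_⟩
      rw [hv.2]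
      norm_num
    · have hv := cB_value H hir Q.hC hz
      refine ⟨⟨hv.1, cB_spt H Q.hC hz⟩, cB_core H hz, not_cheap Q hb (cB_spt H Q.hC hz) ?_⟩
      rw [hv.2]
      norm_num

lemma on_le_one (s : Finset P) (y : P) : on s y ≤ 1 := by
  unfold on
  split_ifs <;> omega

lemma cA_two (z : P) : cA i z z = 2 := by unfold cA; rw [if_pos rfl]

/-- a configuration of type B has an excited site, the others have none -/
lemma cB_site (H : Gr P r) {z : P} (hz : z ∈ T4 i C) : ∃ v, lev v = i ∧ 0 < cB i z v := by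
  rcases mem_T4.1 hz with ⟨h1, h2⟩ | ⟨h1, h2⟩
  · obtain ⟨x, x', s, T⟩ := T4_low H h1 h2
    exact ⟨s, T.site H (mem_union_left _ T.sx), by rw [cB_low H T s, if_pos (by simp)]; omega⟩
  · obtain ⟨x, x', s, T⟩ := T4_upp H h1 h2
    exact ⟨s, T.site' H (mem_union_left _ T.sx), by rw [cB_upp H T s, if_pos (by simp)]; omega⟩

lemma c4_site (H : Gr P r) {q : P × P} (hq : q ∈ P4 i C) {v : P} (hv : lev v = i) :
    c4 i q v = 0 := by
  obtain ⟨h1, h2, h3⟩ := mem_P4.1 hq
  unfold c4 on
  rw [if_neg]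
  intro h
  rcases mem_union.1 h with h | h
  · exact (con_cls H (num_PN H h1).ns).ns v h hv
  · exact (con_cls H (num_PN H h2).ns).ns v h hv

/-- THE VALUE OF (4,2) for a natural part -/
theorem Nat4.be4 (Q : Nat4 r i K psi C) (hb : 1 ≤ (st i C).card) :
    2 * I2.be 4 (st i C).card (ZS i C) = ∑ q ∈ P4 i C, vp i q.1 * vp i q.2
      - 2 * ((Z4 i C).card - (T4 i C).card : ℤ) := by
  classical
  have H := Q.H
  have hir : i ≤ r := by have := Q.hi2; omega
  have h0 := ZC_subK H Q.hi Q.hi2 Q.hM Q.hC (fun e hc hs (hE : ∑ x, e x < 4) => Q.cheap1 hc hs hE)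
  have h1 := So.be_sum (n := 4) (fun e => IsCore i K psi e ∧ ¬ Cheap 1 i e) hb (by convert h0)
  have h2 : I2.be 4 (st i C).card (ZS i C) = ∑ e ∈ (P4 i C).image (c4 i) ∪
      ((Z4 i C).image (cA i) ∪ (T4 i C).image (cB i)),
        PowerSeries.coeff (st i C).card (dd ^ 2 * tC i C e : A) := by
    rw [h1, ← Q.class_eq hb]
    refine Finset.sum_congr ?_ fun _ _ => rfl
    ext e
    simp only [mem_filter]
  rw [h2, sum_union, sum_union]
  rotate_left
  · rw [disjoint_left]
    intro e he he'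
    rw [mem_image] at he he'
    obtain ⟨z, hz, rfl⟩ := he
    obtain ⟨z', hz', h⟩ := he'
    have h2 := cA_two (i := i) z
    rw [← h] at h2
    have h3 := on_le_one (con i z' ∪ cS i z') z
    unfold cB at h2
    omega
  · rw [disjoint_union_right]
    constructor
    · rw [disjoint_left]
      intro e he he'
      rw [mem_image] at he he'
      obtain ⟨q, hq, rfl⟩ := he
      obtain ⟨z, hz, h⟩ := he'
      have h2 := cA_two (i := i) z
      rw [h] at h2
      have h3 := on_le_one (con i q.1 ∪ con i q.2) z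
      unfold c4 at h2
      omega
    · rw [disjoint_left]
      intro e he he'
      rw [mem_image] at he he'
      obtain ⟨q, hq, rfl⟩ := he
      obtain ⟨z, hz, h⟩ := he'
      obtain ⟨v, hv, hv2⟩ := cB_site H hz
      rw [h, c4_site H hq hv] at hv2
      omega
  have e1 := c4_sum H Q.hi Q.hi2 Q.hC
  have e2 : ∑ e ∈ (Z4 i C).image (cA i),
      PowerSeries.coeff (st i C).card (dd ^ 2 * tC i C e : A) = - ((Z4 i C).card : ℤ) := by
    rw [sum_image (fun a _ b _ h => cA_inj h),
      sum_congr rfl (g := fun _ => (-1 : ℤ)) fun z hz => (cA_value H hir Q.hC hz).2, sum_const]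
    simp
  have e3 : ∑ e ∈ (T4 i C).image (cB i),
      PowerSeries.coeff (st i C).card (dd ^ 2 * tC i C e : A) = ((T4 i C).card : ℤ) := by
    rw [sum_image (fun a ha b hb h => cB_inj H ha hb h),
      sum_congr rfl (g := fun _ => (1 : ℤ)) fun z hz => (cB_value H hir Q.hC hz).2, sum_const]
    simp
  rw [e2, e3]
  linarith

end Pool.Agent.GaussPoset.Win.W4

end

/-! From `Pool.Agent.W_448w4_h10.KG` -/

section

/-!
MP_448cb3_co, G2, case B, window `j`: first order data (1,2) and the profile of a natural part.  helper10.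
-/

namespace Pool.Agent.GaussPoset.Win.W4

set_option linter.unusedSectionVars false

open Finset
open Pool.Agent.GaussPoset.Win.SO (Sde Pen TD On kS tL tU LowD UppD val_of PN vp mem_PN num_PN NumG con
  mem_con self_con con_two_low con_two_upp con_cls con_disj on con_sub on_inj Mn Mn_biUnion sit_PD
  sit_PU con_PD con_PU PD_data PU_data pair_gen cheap_coeff cheap_dvd vp_PD vp_PU sit_ne)
open Pool.Agent.GaussPoset.Win.I2 (kd gu kl kn kr so cc fr KK KD lS uS mem_lS mem_uS)

universe u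

section Abstract

variable {P : Type u} [Fintype P] [DecidableEq P]
variable {c c' : P → Finset P} {t t' : P → ℕ} {V Sd Sd' : Finset P} {e : P → ℕ}

/-- energy at most two, an excited near element on the first side -/
lemma Cf.low2a (C : Cf c c' t t' V Sd Sd' e) (hE : ∑ x, e x ≤ 2) {x : P} (hx : x ∈ Sd)
    (htx : t x = 1) (hex : 0 < e x) :
    kS c c' V Sd e + kS c' c V Sd' e ≤ 0 ∨ (kS c c' V Sd e + kS c' c V Sd' e ≤ 1 ∧
      ∃ p y, Pen c t Sd p y ∧ On e {p, y}) := by
  obtain ⟨z, hz, hez⟩ := C.touched (by omega) hx htx hex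
  have hzS : z ∈ Sd := C.s1.cout x (Or.inl hx) z hz
  have htz : t z = t x + 1 := (C.s1.cin z hzS x ((C.s1.dual z x).2 hz)).2
  have n1 : z ≠ x := by rintro rfl; omega
  have hsum : ∑ y ∈ ({z, x} : Finset P), e y = e z + e x := by
    rw [sum_insert, sum_singleton]
    rw [mem_singleton]; exact n1
  have hle := sum_le_energy (e := e) ({z, x} : Finset P)
  rw [hsum] at hle
  have g1 : e z = 1 := by omega
  have g2 : e x = 1 := by omega
  have hrest : ∀ y, y ∉ ({z, x} : Finset P) → e y = 0 := by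
    intro y hy
    have := rest_le (e := e) hy
    rw [hsum] at this
    omega
  have hle1 : ∀ y, e y ≤ 1 := by
    intro y
    by_cases hy : y ∈ ({z, x} : Finset P)
    · rw [mem_insert, mem_singleton] at hy
      rcases hy with rfl | rfl <;> omega
    · rw [hrest y hy]; omega
  have hsite : ∀ a ∈ V, e a = 0 := by
    intro a ha
    apply hrest
    rw [mem_insert, mem_singleton]
    rintro (rfl | rfl)
    · exact disjoint_left.1 C.d1 hzS ha
    · exact disjoint_left.1 C.d1 hx ha
  have hux : ∀ y ∈ Sd, t y = 1 → 0 < e y → y = x := by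
    intro y hy hty hey
    by_contra hne
    have : e y = 0 := by
      apply hrest
      rw [mem_insert, mem_singleton]
      rintro (rfl | rfl)
      · omega
      · exact hne rfl
    omega
  have hU : ∀ y ∈ Sd', e y = 0 := by
    intro y hy
    apply hrest
    rw [mem_insert, mem_singleton]
    rintro (rfl | rfl)
    · exact disjoint_left.1 C.d3 hzS hy
    · exact disjoint_left.1 C.d3 hx hy
  have k2 := kS_zero C.s2 hU
  have f1 : x ∈ fr c c' e Sd := fr_near hx (fun y _ => by rw [g2]; exact hle1 y)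
    (fun a ha => by rw [hsite a (near_site C.s1 hx htx ha)]; omega)
  have s1 : KD c' e V ⊆ c x := by
    intro v hv
    obtain ⟨-, y, hy, hty, hvy, hlt⟩ := KD_mem C.s1 hv
    rw [hux y hy hty (by omega)] at hvy
    exact hvy
  have p1 : 1 ≤ (fr c c' e Sd).card := card_pos.2 ⟨x, f1⟩
  have q1 := card_le_card s1
  have r1 := C.s1.c2 x
  by_cases hcx : (c x).card = 2
  · right
    have k1 : kS c c' V Sd e ≤ 1 := by unfold kS; omega
    refine ⟨by omega, z, x, ⟨hzS, by omega, ?_, hcx⟩, ?_⟩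
    · apply eq_singleton_iff_unique_mem.2
      refine ⟨(C.s1.dual z x).2 hz, fun b hb => ?_⟩
      obtain ⟨b1, b2, b3⟩ := cov_two C.s1 C.adm1 hzS (by omega) hez hb
      exact hux b b1 b2 b3
    · intro y
      split_ifs with hy
      · rw [mem_insert, mem_singleton] at hy
        rcases hy with rfl | rfl <;> assumption
      · exact hrest y hy
  · left
    have k1 : kS c c' V Sd e ≤ 0 := by unfold kS; omega
    omega

/-- CLASSIFICATION, energy at most two -/
theorem Cf.low2 (C : Cf c c' t t' V Sd Sd' e) (hE : ∑ x, e x ≤ 2) :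
    kS c c' V Sd e + kS c' c V Sd' e ≤ 0 ∨ (kS c c' V Sd e + kS c' c V Sd' e ≤ 1 ∧
      ((∃ p y, Pen c t Sd p y ∧ On e {p, y}) ∨ ∃ p y, Pen c' t' Sd' p y ∧ On e {p, y})) := by
  by_cases h1 : ∀ x ∈ Sd, t x = 1 → e x = 0
  · have k1 := kS_zero C.s1 (side_zero C.s1 C.adm1 h1)
    by_cases h2 : ∀ x ∈ Sd', t' x = 1 → e x = 0
    · have k2 := kS_zero C.s2 (side_zero C.s2 C.adm2 h2)
      left
      omega
    · push Not at h2
      obtain ⟨x, hx, htx, hex⟩ := h2
      rcases C.symm.low2a hE hx htx (by omega) with h | ⟨h, h'⟩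
      · left; omega
      · right; exact ⟨by omega, Or.inr h'⟩
  · push Not at h1
    obtain ⟨x, hx, htx, hex⟩ := h1
    rcases C.low2a hE hx htx (by omega) with h | ⟨h, h'⟩
    · exact Or.inl h
    · exact Or.inr ⟨h, Or.inl h'⟩

end Abstract

variable {P : Type u} [Fintype P] [PartialOrder P] [DecidableEq P] {r i : ℕ}
variable {e f : P → ℕ} {psi : P → P} {C K : Finset P}

/-- the list of the cores with one deficit and energy two -/
def L2 (i : ℕ) (e : P → ℕ) : Prop :=
  (∃ p y, Pen uc (tL (P := P) i) (lS P i) p y ∧ On e {p, y}) ∨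
    ∃ p y, Pen dc (tU (P := P) i) (uS P i) p y ∧ On e {p, y}

/-- CLASSIFICATION for a natural part, energy at most two -/
theorem Nat4.cls2 (Q : Nat4 r i K psi C) (hc : IsCore i K psi e) (hs : Spt C e)
    (hE : ∑ x, e x ≤ 2) : Cheap 0 i e ∨ (Cheap 1 i e ∧ L2 i e) := by
  by_cases hA : AdmL i e
  swap
  · exact Or.inl (Or.inl hA)
  by_cases hB : AdmU i e
  swap
  · exact Or.inl (Or.inr (Or.inl hB))
  by_cases hd : Disjoint (AL i e) (AU i e)
  swap
  · exact Or.inl (Or.inr (Or.inr (Or.inl hd)))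
  rcases (Q.cf hc hs hA hB hd).low2 hE with h | ⟨h1, h2⟩
  · exact Or.inl (SO.cheap_of (by exact_mod_cast h))
  · exact Or.inr ⟨SO.cheap_of (by exact_mod_cast h1), h2⟩

lemma L2.energy (H : Gr P r) (h : L2 i e) : ∑ x, e x = 2 := by
  rcases h with ⟨p, y, h1, h2⟩ | ⟨p, y, h1, h2⟩
  · obtain ⟨-, a1, a2, -⟩ := SO.pen_low H h1
    rw [on_energy h2, card_pair]
    rintro rfl; omega
  · obtain ⟨-, a1, a2, -⟩ := SO.pen_up H h1
    rw [on_energy h2, card_pair]
    rintro rfl; omega

theorem Nat4.cheap0 (Q : Nat4 r i K psi C) (hc : IsCore i K psi e) (hs : Spt C e)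
    (hE : ∑ x, e x < 2) : Cheap 0 i e := by
  rcases Q.cls2 hc hs hE.le with h | ⟨-, h⟩
  · exact h
  · have := h.energy Q.H
    omega

lemma L2_index (H : Gr P r) (hs : Spt C e) (h : L2 i e) : ∃ p ∈ PN i C, on (con i p) = e := by
  rcases h with ⟨p, y, h1, h2⟩ | ⟨p, y, h1, h2⟩
  · obtain ⟨a0, a1, a2, a3, a4⟩ := SO.pen_low H h1
    refine ⟨p, mem_PN.2 ⟨mem_of_pos hs (by rw [h2 p, if_pos (by simp)]; omega), Or.inl a0⟩, ?_⟩
    exact On_eq (on_On (con_PD H a1 a3)) h2
  · obtain ⟨a0, a1, a2, a3, a4⟩ := SO.pen_up H h1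
    refine ⟨p, mem_PN.2 ⟨mem_of_pos hs (by rw [h2 p, if_pos (by simp)]; omega), Or.inr a0⟩, ?_⟩
    exact On_eq (on_On (con_PU H a1 a3)) h2

lemma c2_core (H : Gr P r) {p : P} (hp : p ∈ PN i C) : IsCore i K psi (on (con i p)) := by
  have l1 := (PN_lev hp).2
  apply core_of_touch
  intro x hx hpos
  rw [on_pos] at hpos
  rw [mem_near] at hx
  refine PN_touch H hp hpos (by rintro rfl; omega) ?_
  rw [on_pos]
  exact self_con (by omega)

lemma c2_spt (H : Gr P r) (hC : Part (i + 1) C) {p : P} (hp : p ∈ PN i C) :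
    Spt C (on (con i p)) := by
  have l1 := PN_lev hp
  exact SO.on_spt (con_sub H hC l1.1 (by omega))

/-- the value of a pendant -/
theorem c2_value (H : Gr P r) (hi : 1 ≤ i) (hi2 : i + 1 ≤ r) (hC : Part (i + 1) C)
    {p : P} (hp : p ∈ PN i C) : ∑ x, on (con i p) x = 2 ∧
    PowerSeries.coeff (st i C).card (dd * tC i C (on (con i p)) : A) = vp i p := by
  have N := num_PN H hp
  have own : Disjoint (SO.BL i (con i p)) (SO.BU i (con i p)) := by
    rcases Nat.lt_or_gt_of_ne N.ns with h | h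
    · rw [SO.BL_con_upp H h]; exact disjoint_empty_left _
    · rw [SO.BU_con_low H h]; exact disjoint_empty_right _
  refine ⟨by rw [SO.on_sum, N.cd], ?_⟩
  rw [SO.on_coeff1 H hi hi2 hC (con_cls H N.ns) (con_sub H hC N.mC N.ns) own N.num, N.sgn]

/-- no deficit: no first order coefficient -/
lemma cheap_coeff1 (H : Gr P r) (hC : Part (i + 1) C) (hs : Spt C e) (h : Cheap 0 i e) :
    PowerSeries.coeff (st i C).card (dd * tC i C e : A) = 0 := by
  obtain ⟨q, hq⟩ := cheap_dvd H hC hs h
  have h1 : dd ^ ((st i C).card + 1) ∣ (dd * tC i C e : A) := by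
    rw [hq, ← mul_assoc, ← pow_succ']
    exact dvd_mul_of_dvd_left (pow_dvd_pow _ (by omega)) _
  exact I2.coeff_eq_zero_of_dvd h1

lemma not_cheap0 (Q : Nat4 r i K psi C) (hs : Spt C e)
    (h : PowerSeries.coeff (st i C).card (dd * tC i C e : A) ≠ 0) : ¬ Cheap 0 i e :=
  fun h1 => h (cheap_coeff1 Q.H Q.hC hs h1)

open Classical in
theorem Nat4.class_eq2 (Q : Nat4 r i K psi C) :
    (C.piAntidiag 2).filter (fun e => IsCore i K psi e ∧ ¬ Cheap 0 i e) =
      (PN i C).image (fun p => on (con i p)) := by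
  have H := Q.H
  ext e
  simp only [mem_filter, mem_image, I2.mem_pa]
  constructor
  · rintro ⟨⟨g1, g2⟩, g3, g4⟩
    rcases Q.cls2 g3 g2 g1.le with h | ⟨-, h⟩
    · exact absurd h g4
    · exact L2_index H g2 h
  · rintro ⟨p, hp, rfl⟩
    have hv := c2_value H Q.hi Q.hi2 Q.hC hp
    refine ⟨⟨hv.1, c2_spt H Q.hC hp⟩, c2_core H hp, not_cheap0 Q (c2_spt H Q.hC hp) ?_⟩
    rw [hv.2]
    exact vp_ne _

lemma c2_inj (H : Gr P r) {p p' : P} (hp : p ∈ PN i C) (hp' : p' ∈ PN i C)
    (h : on (con i p) = on (con i p')) : p = p' := by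
  have e1 := on_inj h
  have l1 := (PN_lev hp).2
  have l2 := (PN_lev hp').2
  have h1 : p ∈ con i p' := by rw [← e1]; exact self_con (by omega)
  rcases l2 with l2 | l2
  · rw [con_two_low H l2, mem_insert] at h1
    rcases h1 with h1 | h1
    · exact h1
    · have := lev_uc H h1
      omega
  · rw [con_two_upp H l2, mem_insert] at h1
    rcases h1 with h1 | h1
    · exact h1
    · have := lev_dc H h1
      omega

/-- THE VALUE OF (1,2) for a natural part -/
theorem Nat4.al2 (Q : Nat4 r i K psi C) :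
    I2.al 2 (st i C).card (ZS i C) = ∑ p ∈ PN i C, vp i p := by
  classical
  have H := Q.H
  have hir : i ≤ r := by have := Q.hi2; omega
  have h0 := ZC_subK H Q.hi Q.hi2 Q.hM Q.hC
    (fun e hc hs (hE : ∑ x, e x < 2) => Q.cheap0 hc hs hE)
  rw [Nat.sub_zero] at h0
  have h1 : I2.al 2 (st i C).card (ZS i C) =
      ∑ e ∈ (C.piAntidiag 2).filter (fun e => IsCore i K psi e ∧ ¬ Cheap 0 i e),
        PowerSeries.coeff (st i C).card (dd * tC i C e : A) := by
    unfold I2.al
    rw [coeff_ZS, ← map_sum, ← Finset.mul_sum, ← sub_eq_zero, ← map_sub, ← mul_sub]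
    apply I2.coeff_eq_zero_of_dvd
    have h2 := mul_dvd_mul_left dd h0
    rw [← pow_succ'] at h2
    convert h2
  rw [h1, Q.class_eq2, sum_image (fun a ha b hb h => c2_inj H ha hb h)]
  exact sum_congr rfl fun p hp => (c2_value H Q.hi Q.hi2 Q.hC hp).2

/-- the profile of a natural part -/
theorem Nat4.prof (Q : Nat4 r i K psi C) : I2.Prof 2 4 (st i C).card (ZS i C) where
  lo := by
    classical
    intro n hn
    rw [coeff_ZS]
    have h0 := ZC_subK (n := n) Q.H Q.hi Q.hi2 Q.hM Q.hC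
      (fun e hc hs (hE : ∑ x, e x < n) => Q.cheap0 hc hs (by omega))
    rw [Nat.sub_zero] at h0
    rwa [Finset.sum_eq_zero, sub_zero] at h0
    intro e he
    rw [mem_filter, I2.mem_pa] at he
    exact absurd (Q.cheap0 he.2.1 he.1.2 (by omega)) he.2.2
  mid := by
    classical
    intro n hn
    rw [coeff_ZS]
    have h0 := ZC_subK (n := n) Q.H Q.hi Q.hi2 Q.hM Q.hC
      (fun e hc hs (hE : ∑ x, e x < n) => Q.cheap1 hc hs (by omega))
    rw [Finset.sum_eq_zero, sub_zero] at h0
    · have h2 := SO.dvd_up h0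
      rwa [pow_one] at h2
    · intro e he
      rw [mem_filter, I2.mem_pa] at he
      exact absurd (Q.cheap1 he.2.1 he.1.2 (by omega)) he.2.2
  top := by
    classical
    rw [coeff_ZS]
    have h0 := ZC_subK (n := 4) Q.H Q.hi Q.hi2 Q.hM Q.hC
      (fun e hc hs (hE : ∑ x, e x < 4) => Q.cheap1 hc hs hE)
    have h3 := (pow_dvd_pow (dd : A) (by omega : (st i C).card - 2 ≤ (st i C).card - 1)).trans h0
    have h4 := dvd_add h3 (Finset.dvd_sum (s := (C.piAntidiag 4).filter
      (fun e => IsCore i K psi e ∧ ¬ Cheap 1 i e)) (f := fun e => tC i C e) fun e he => by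
        rw [mem_filter, I2.mem_pa] at he
        rcases Q.cls he.2.1 he.1.2 he.1.1.le with h | h
        · exact absurd h he.2.2
        · exact cheap_dvd Q.H Q.hC he.1.2 h.1)
    have h5 : dd ^ ((st i C).card - 2) ∣ ZC i C 4 := by
      refine h4.trans (dvd_of_eq ?_)
      rw [sub_add_cancel]
    exact SO.dvd_up h5

end Pool.Agent.GaussPoset.Win.W4

end

/-! From `Pool.Agent.W_448w4_h10.KL` -/

section

/-!
MP_448cb3_co, G2, case B, window `j`: orders of the contributions of the component with two unmatched doubles.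
helper10.
-/

namespace Pool.Agent.GaussPoset.Win.W4

set_option linter.unusedSectionVars false

open Finset
open Pool.Agent.GaussPoset.Win.So (IV IV_chi IV_Fe)
open Pool.Agent.GaussPoset.Win.SO (Sde Pen TD On kS tL tU sde_low sde_up kS_sum cheap_of)
open Pool.Agent.GaussPoset.Win.I2 (kd gu kl kn kr so cc fr KK KD lS uS mem_lS mem_uS kd_dc kd_uc gu_uc
  gu_dc adm_low adm_up KD_low KD_up fr_low fr_up)

universe u

variable {P : Type u} [Fintype P] [PartialOrder P] [DecidableEq P] {r i : ℕ}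
variable {e f : P → ℕ} {psi : P → P} {C K : Finset P} {w v : P}

/-! ### classification of the natural cores -/

/-- the abstract configuration of a core -/
theorem K5.cf (Q : K5 r i K psi C w v) (hc : IsCore i ∅ (ps K psi) e) (hs : Spt C e)
    (hA : AdmL i e) (hB : AdmU i e) (hd : Disjoint (AL i e) (AU i e)) :
    Cf uc dc (tL (P := P) i) (tU i) (lv P i) (lS P i) (uS P i) e where
  s1 := sde_low Q.H i
  s2 := sde_up Q.H (by have := Q.hi2; omega)
  d1 := by
    rw [disjoint_left]
    intro x hx hx'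
    rw [mem_lS] at hx
    rw [mem_lv] at hx'
    omega
  d2 := by
    rw [disjoint_left]
    intro x hx hx'
    rw [mem_uS] at hx
    rw [mem_lv] at hx'
    omega
  d3 := by
    rw [disjoint_left]
    intro x hx hx'
    rw [mem_lS] at hx
    rw [mem_uS] at hx'
    omega
  adm1 := adm_low hA
  adm2 := adm_up hB
  dis := by rw [KD_low, KD_up]; exact hd
  core1 := by
    classical
    intro x hx ht he
    rw [mem_lS] at hx
    unfold tL at ht
    have hl : lev x = i + 1 := by omega
    have hn : x ∈ near P i := mem_near.2 (Or.inl hl)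
    rcases core_nearK hc hn (notMem_empty x) he with h | ⟨h1, h2⟩
    · left
      rw [mem_Tch] at h
      rcases h with ⟨-, z, hz, hz'⟩ | ⟨h3, -⟩
      · exact ⟨z, mem_dc.2 hz, hz'⟩
      · omega
    · by_cases hxK : x ∈ K
      · left
        unfold ps at h2
        rw [if_pos hxK, mem_Tch] at h2
        rcases h2 with ⟨-, z, hz, hz'⟩ | ⟨h3, -⟩
        · exact ⟨z, mem_dc.2 hz, hz'⟩
        · omega
      right
      unfold ps at h2
      rw [if_neg hxK] at h2
      have hd : x ∈ dbL P i := by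
        rcases mem_union.1 h1 with h1 | h1
        · exact h1
        · rw [mem_dbU] at h1; omega
      obtain ⟨g1, g2⟩ := Q.hM.low x hd hxK
      rw [mem_dbL] at hd
      rw [mem_dbU] at g1
      refine ⟨psi x, mem_uS.2 (by omega), by unfold tU; omega, g2, hd.2, ?_⟩
      rw [mem_Tch] at h2
      rcases h2 with ⟨h3, -⟩ | ⟨-, z, hz, hz'⟩
      · omega
      · exact ⟨z, mem_uc.2 hz, hz'⟩
  core2 := by
    classical
    intro x hx ht he
    rw [mem_uS] at hx
    unfold tU at ht
    have hl : lev x + 1 = i := by omega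
    have hn : x ∈ near P i := mem_near.2 (Or.inr hl)
    rcases core_nearK hc hn (notMem_empty x) he with h | ⟨h1, h2⟩
    · left
      rw [mem_Tch] at h
      rcases h with ⟨h3, -⟩ | ⟨-, z, hz, hz'⟩
      · omega
      · exact ⟨z, mem_uc.2 hz, hz'⟩
    · by_cases hxK : x ∈ K
      · left
        unfold ps at h2
        rw [if_pos hxK, mem_Tch] at h2
        rcases h2 with ⟨h3, -⟩ | ⟨-, z, hz, hz'⟩
        · omega
        · exact ⟨z, mem_uc.2 hz, hz'⟩
      right
      unfold ps at h2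
      rw [if_neg hxK] at h2
      have hd : x ∈ dbU P i := by
        rcases mem_union.1 h1 with h1 | h1
        · rw [mem_dbL] at h1; omega
        · exact h1
      obtain ⟨g1, g2⟩ := Q.hM.upp x hd hxK
      rw [mem_dbU] at hd
      rw [mem_dbL] at g1
      refine ⟨psi x, mem_lS.2 (by omega), by unfold tL; omega, g2, hd.2, ?_⟩
      rw [mem_Tch] at h2
      rcases h2 with ⟨-, z, hz, hz'⟩ | ⟨h3, -⟩
      · exact ⟨z, mem_dc.2 hz, hz'⟩
      · omega

/-- CLASSIFICATION -/
theorem K5.cls (Q : K5 r i K psi C w v) (hc : IsCore i ∅ (ps K psi) e) (hs : Spt C e)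
    (hE : ∑ x, e x ≤ 4) : Cheap 1 i e ∨ (Cheap 2 i e ∧ L4 i e) := by
  by_cases hA : AdmL i e
  swap
  · exact Or.inl (Or.inl hA)
  by_cases hB : AdmU i e
  swap
  · exact Or.inl (Or.inr (Or.inl hB))
  by_cases hd : Disjoint (AL i e) (AU i e)
  swap
  · exact Or.inl (Or.inr (Or.inr (Or.inl hd)))
  have nq1 : NQ uc (tL (P := P) i) (lS P i) e := by
    intro w hw ht he x hx x' hx' h1 h2
    rw [mem_lS] at hw
    unfold tL at ht
    exact Q.nq w (mem_of_pos hs he) (by omega) x hx x' hx' h1 h2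
  have nq2 : NQ dc (tU (P := P) i) (uS P i) e := by
    intro w hw ht he x hx x' hx' h1 h2
    rw [mem_uS] at hw
    unfold tU at ht
    exact Q.nq' w (mem_of_pos hs he) (by omega) x hx x' hx' h1 h2
  rcases (Q.cf hc hs hA hB hd).classify hE nq1 nq2 with h | ⟨h1, h2⟩
  · exact Or.inl (cheap_of (by exact_mod_cast h))
  · exact Or.inr ⟨cheap_of (by exact_mod_cast h1), h2⟩

/-- CLASSIFICATION, energy at most two -/
theorem K5.cls2 (Q : K5 r i K psi C w v) (hc : IsCore i ∅ (ps K psi) e) (hs : Spt C e)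
    (hE : ∑ x, e x ≤ 2) : Cheap 0 i e ∨ (Cheap 1 i e ∧ L2 i e) := by
  by_cases hA : AdmL i e
  swap
  · exact Or.inl (Or.inl hA)
  by_cases hB : AdmU i e
  swap
  · exact Or.inl (Or.inr (Or.inl hB))
  by_cases hd : Disjoint (AL i e) (AU i e)
  swap
  · exact Or.inl (Or.inr (Or.inr (Or.inl hd)))
  rcases (Q.cf hc hs hA hB hd).low2 hE with h | ⟨h1, h2⟩
  · exact Or.inl (SO.cheap_of (by exact_mod_cast h))
  · exact Or.inr ⟨SO.cheap_of (by exact_mod_cast h1), h2⟩

theorem K5.cheap0 (Q : K5 r i K psi C w v) (hc : IsCore i ∅ (ps K psi) e) (hs : Spt C e)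
    (hE : ∑ x, e x < 2) : Cheap 0 i e := by
  rcases Q.cls2 hc hs hE.le with h | ⟨-, h⟩
  · exact h
  · have := h.energy Q.H
    omega

theorem K5.cheap1 (Q : K5 r i K psi C w v) (hc : IsCore i ∅ (ps K psi) e) (hs : Spt C e)
    (hE : ∑ x, e x < 4) : Cheap 1 i e := by
  rcases Q.cls hc hs hE.le with h | ⟨-, h⟩
  · exact h
  · have := h.energy Q.H
    omega

/-! ### orders -/

/-- zero or one -/
def ind (a : ℕ) : ℕ := if a = 0 then 0 else 1

lemma ind_zero : ind 0 = 0 := rfl

lemma ind_pos {a : ℕ} (h : a ≠ 0) : ind a = 1 := if_neg h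

lemma kz_lv (H : Gr P r) {x : P} (hx : x ∈ near P i) {a : ℕ} : kz i e x a ⊆ lv P i := by
  intro y hy
  rw [mem_lv]
  exact nz_lev H hx (kz_sub hy)

/-- a near element has at most one deficit -/
lemma Rk_wt (H : Gr P r) (hi : 1 ≤ i) (hi2 : i + 1 ≤ r) {x : P} (hx : x ∈ near P i) (a : ℕ) :
    Rk (lv P i) (ind a) (wt i e x a) := by
  by_cases ha : a = 0
  · rw [ha, ind_zero]
    refine Rk_congr (f := fun _ => 1) (fun S _ => ?_) (Rk_const _ 0 1)
    exact (wt_zero H (by omega) hx e S).symm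
  rw [ind_pos ha]
  have h2 := (nz_card H hi hi2 hx).2
  have h1 := card_le_card (kz_sub (i := i) (e := e) (x := x) (a := a))
  obtain ⟨p, hp, hdp⟩ : ∃ p, (kz i e x a).card ≤ p + 1 ∧ dd ^ p ∣ fz i e x a := by
    by_cases hkz : kz i e x a = nz i x
    · refine ⟨1, by omega, ?_⟩
      unfold fz
      rw [if_pos hkz, pow_one]
      split_ifs
      · exact dvd_rfl
      · exact dvd_mul_left _ _
    · refine ⟨0, ?_, by rw [pow_zero]; exact one_dvd _⟩
      have h3 : (kz i e x a).card < (nz i x).card :=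
        card_lt_card ((Finset.ssubset_iff_subset_ne).2 ⟨kz_sub, hkz⟩)
      omega
  rcases mem_near.1 hx with h | h
  · refine Rk_congr (f := fun S => fz i e x a * chi (kz i e x a) ∅ S)
      (fun S _ => (wt_low h a S).symm) ?_
    exact Rk_chi (kz_lv H hx) (empty_subset _) (by rw [card_empty]; omega) hdp
  · refine Rk_congr (f := fun S => fz i e x a * chi ∅ (kz i e x a) S)
      (fun S _ => (wt_upp h a S).symm) ?_
    exact Rk_chi (empty_subset _) (kz_lv H hx) (by rw [card_empty]; omega) hdp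

lemma od_of_Rk {k : ℕ} {g : Finset P → A} (h : Rk (lv P i) k g) :
    od (st i C).card k (IV (st i C) g) :=
  SO.dvd_up (So.Rk_IV (So.Rk_sub (So.st_sub i C) h))

/-- ORDER of a contribution -/
theorem K5.Jx_od (Q : K5 r i K psi C w v) (hc : IsCore i ∅ (ps K psi) e) {k : ℕ}
    (hk : Cheap k i e) (a b m : ℕ) :
    od (st i C).card (k + ind a + ind b) (Jx i K psi C w v e a b m) := by
  unfold Jx
  split_ifs with h
  · obtain ⟨hw, hv⟩ := core_wv Q hc
    rw [JK_add2 Q h.1 h.2 hw hv]
    apply od_of_Rk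
    have h1 := Rk_mul (Rk_of_cheap hk) (Rk_mul (Rk_wt (e := e) Q.H Q.hi Q.hi2 Q.nw a)
      (Rk_mul (Rk_wt (e := e) Q.H Q.hi Q.hi2 Q.nv b) (GK_Rk Q.H Q.hi Q.hi2 Q.hM Q.hC e m)))
    rw [add_zero, ← add_assoc] at h1
    exact h1
  · exact od_zero _ _

/-- both labels positive and a common site without label: nothing -/
theorem K5.Jx_both (Q : K5 r i K psi C w v) (hc : IsCore i ∅ (ps K psi) e) {q : P}
    (hq : q ∈ uc w) (hq' : q ∈ dc v) (h0 : e q = 0) {a b : ℕ} (ha : a ≠ 0) (hb : b ≠ 0)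
    (m : ℕ) : Jx i K psi C w v e a b m = 0 := by
  unfold Jx
  split_ifs with h
  · obtain ⟨hw, hv⟩ := core_wv Q hc
    rw [JK_add2 Q h.1 h.2 hw hv]
    unfold IV
    refine sum_eq_zero fun S _ => ?_
    have h1 : wt i e w a S * (wt i e v b S * GK i K psi C e m S) = 0 := by
      rw [wt_low Q.lw0, wt_upp Q.lv0]
      have q1 : q ∈ kz i e w a := mem_kz.2 ⟨by rw [nz_low Q.lw0]; exact hq, by omega⟩
      have q2 : q ∈ kz i e v b := mem_kz.2 ⟨by rw [nz_upp Q.lv0]; exact hq', by omega⟩
      by_cases hS : q ∈ S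
      · have : chi ∅ (kz i e v b) S = 0 := by
          unfold chi
          rw [if_neg]
          rintro ⟨-, h2⟩
          exact disjoint_left.1 h2 q2 hS
        rw [this]
        ring
      · have : chi (kz i e w a) ∅ S = 0 := by
          unfold chi
          rw [if_neg]
          rintro ⟨h2, -⟩
          exact hS (h2 q1)
        rw [this]
        ring
    show xx ^ S.card * (Fe i e S * (wt i e w a S * (wt i e v b S * GK i K psi C e m S))) = 0
    rw [h1, mul_zero, mul_zero]
  · rfl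

/-- the order does not grow unless the element is of type F or G -/
theorem Rk_N (H : Gr P r) {x : P} (hx : x ∈ near P i) {a k : ℕ}
    (h2 : (nz i x).card ≤ 2) (hF : (nz i x).card = 2 → ¬ Fx i e x a)
    (hG : ¬ Gx i e x a) (hk : Cheap k i e) :
    Rk (lv P i) k (fun S => Fe i e S * wt i e x a S) := by
  classical
  by_cases hadm : AdmL i e ∧ AdmU i e
  swap
  · refine Rk_congr (f := fun _ => 0) ?_ (Rk_zero _ k)
    intro S _
    unfold Fe cw
    rw [if_neg hadm, zero_mul, zero_mul]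
  by_cases hA : Disjoint (AL i e) (AU i e)
  swap
  · refine Rk_congr (f := fun _ => 0) ?_ (Rk_zero _ k)
    intro S _
    have : chi (AL i e) (AU i e) S = 0 := by
      unfold chi
      rw [if_neg]
      rintro ⟨h1, h2⟩
      exact hA (disjoint_of_subset_left h1 h2.symm)
    show 0 = Fe i e S * wt i e x a S
    unfold Fe
    rw [this, mul_zero, zero_mul]
  have hle : (AL i e).card + (AU i e).card ≤ pL i e + pU i e + k := by
    rcases hk with h1 | h1 | h1 | h1
    · exact absurd hadm.1 h1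
    · exact absurd hadm.2 h1
    · exact absurd hA h1
    · exact h1
  have hcw : dd ^ (pL i e + pU i e) ∣ cw i e := by
    unfold cw
    rw [if_pos hadm]
    exact Dvd.intro_left _ rfl
  -- the function
  have hfun : ∀ S, Fe i e S * wt i e x a S = (cw i e * fz i e x a) *
      (if lev x = i + 1 then chi (AL i e ∪ kz i e x a) (AU i e) S else
        chi (AL i e) (AU i e ∪ kz i e x a) S) := by
    intro S
    unfold Fe
    rcases mem_near.1 hx with h | h
    · rw [wt_low h, if_pos h]
      have := chi_mul (AL i e) (AU i e) (kz i e x a) ∅ S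
      rw [union_empty] at this
      rw [← this]
      ring
    · rw [wt_upp h, if_neg (by omega)]
      have := chi_mul (AL i e) (AU i e) ∅ (kz i e x a) S
      rw [union_empty] at this
      rw [← this]
      ring
  by_cases hd : Disjoint (kz i e x a) (KP i e x)
  swap
  · refine Rk_congr (f := fun _ => 0) ?_ (Rk_zero _ k)
    intro S _
    show 0 = Fe i e S * wt i e x a S
    rw [hfun]
    unfold KP at hd
    by_cases hl : lev x = i + 1
    · rw [if_pos hl] at hd ⊢
      have : chi (AL i e ∪ kz i e x a) (AU i e) S = 0 := by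
        unfold chi
        rw [if_neg]
        rintro ⟨h1, h2⟩
        exact hd (disjoint_of_subset_left (union_subset_iff.1 h1).2 h2.symm)
      rw [this, mul_zero]
    · rw [if_neg hl] at hd ⊢
      have : chi (AL i e) (AU i e ∪ kz i e x a) S = 0 := by
        unfold chi
        rw [if_neg]
        rintro ⟨h1, h2⟩
        exact hd (disjoint_of_subset_right h1 (disjoint_union_left.1 h2).2)
      rw [this, mul_zero]
  have hcs := card_le_card (kz_sub (i := i) (e := e) (x := x) (a := a))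
  have hcd : (kz i e x a \ KO i e x).card ≤ (kz i e x a).card := card_le_card sdiff_subset
  obtain ⟨p, hp, hdp⟩ : ∃ p, (kz i e x a \ KO i e x).card ≤ p ∧ dd ^ p ∣ fz i e x a := by
    by_cases hkz : kz i e x a = nz i x
    · refine ⟨1, ?_, ?_⟩
      · by_contra hcon
        have h4 : (nz i x).card = 2 := by omega
        refine hF h4 ⟨kz_eq_iff.1 hkz, ?_⟩
        have h5 : (kz i e x a \ KO i e x) = kz i e x a :=
          eq_of_subset_of_card_le sdiff_subset (by omega)
        by_contra h6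
        rw [← hkz] at h6
        rcases not_disj_KO (x := x) h6 with h7 | h7
        · exact h7 (sdiff_eq_self_iff_disjoint.1 h5)
        · exact h7 hd
      · unfold fz
        rw [if_pos hkz, pow_one]
        split_ifs
        · exact dvd_rfl
        · exact dvd_mul_left _ _
    · refine ⟨0, ?_, by rw [pow_zero]; exact one_dvd _⟩
      have h3 : (kz i e x a).card < (nz i x).card :=
        card_lt_card ((Finset.ssubset_iff_subset_ne).2 ⟨kz_sub, hkz⟩)
      by_contra hcon
      refine hG ⟨by omega, by omega, ?_⟩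
      have h5 : (kz i e x a \ KO i e x) = kz i e x a :=
        eq_of_subset_of_card_le sdiff_subset (by omega)
      by_contra h6
      rcases not_disj_KO (x := x) h6 with h7 | h7
      · exact h7 (sdiff_eq_self_iff_disjoint.1 h5)
      · exact h7 hd
  have hdv : dd ^ (pL i e + pU i e + p) ∣ cw i e * fz i e x a := by
    rw [pow_add]
    exact mul_dvd_mul hcw hdp
  have sL : AL i e ⊆ lv P i := by
    unfold AL
    exact filter_subset _ _
  have sU : AU i e ⊆ lv P i := by
    unfold AU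
    exact filter_subset _ _
  refine Rk_congr (fun S _ => (hfun S).symm) ?_
  unfold KO at hp
  by_cases hl : lev x = i + 1
  · rw [if_pos hl] at hp
    simp only [if_pos hl]
    have e1 : (AL i e ∪ kz i e x a).card = (AL i e).card + (kz i e x a \ AL i e).card := by
      rw [← card_union_of_disjoint disjoint_sdiff, union_sdiff_self_eq_union]
    exact Rk_chi (union_subset sL (kz_lv H hx)) sU (by omega) hdv
  · rw [if_neg hl] at hp
    simp only [if_neg hl]
    have e1 : (AU i e ∪ kz i e x a).card = (AU i e).card + (kz i e x a \ AU i e).card := by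
      rw [← card_union_of_disjoint disjoint_sdiff, union_sdiff_self_eq_union]
    exact Rk_chi sL (union_subset sU (kz_lv H hx)) (by omega) hdv

end Pool.Agent.GaussPoset.Win.W4

end

/-! From `Pool.Agent.W_448w4_h10.KM` -/

section

/-!
MP_448cb3_co, G2, case B, window `j`: the leading coefficients of the window sums of energy one to four of the
component with two unmatched doubles.  helper10.
-/

namespace Pool.Agent.GaussPoset.Win.W4

set_option linter.unusedSectionVars false

open Finset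
open Pool.Agent.GaussPoset.Win.So (IV IV_chi IV_Fe)

universe u

variable {P : Type u} [Fintype P] [PartialOrder P] [DecidableEq P] {r i : ℕ}
variable {e f : P → ℕ} {psi : P → P} {C K : Finset P} {w v : P}

open Classical in
/-- the natural cores of energy `q` -/
noncomputable def Co (i : ℕ) (K : Finset P) (psi : P → P) (C : Finset P) (q : ℕ) :
    Finset (P → ℕ) := (C.piAntidiag q).filter (IsCore i ∅ (ps K psi))

lemma mem_Co {q : ℕ} : e ∈ Co i K psi C q ↔
    ∑ x, e x = q ∧ Spt C e ∧ IsCore i ∅ (ps K psi) e := by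
  classical
  unfold Co
  rw [mem_filter, I2.mem_pa, and_assoc]

lemma anti0 {M : Type*} [AddCommMonoid M] (g : ℕ → ℕ → ℕ → M) :
    ∑ p ∈ antidiagonal 0, ∑ t ∈ antidiagonal p.2, g p.1 t.1 t.2 = g 0 0 0 := by
  simp

lemma anti1 {M : Type*} [AddCommMonoid M] (g : ℕ → ℕ → ℕ → M) :
    ∑ p ∈ antidiagonal 1, ∑ t ∈ antidiagonal p.2, g p.1 t.1 t.2 =
      g 0 0 1 + (g 0 1 0 + g 1 0 0) := by
  simp [Finset.Nat.antidiagonal_succ, add_assoc]

lemma anti2 {M : Type*} [AddCommMonoid M] (g : ℕ → ℕ → ℕ → M) :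
    ∑ p ∈ antidiagonal 2, ∑ t ∈ antidiagonal p.2, g p.1 t.1 t.2 =
      g 0 0 2 + (g 0 1 1 + (g 0 2 0 + (g 1 0 1 + (g 1 1 0 + g 2 0 0)))) := by
  simp [Finset.Nat.antidiagonal_succ, add_assoc]

lemma anti3 {M : Type*} [AddCommMonoid M] (g : ℕ → ℕ → ℕ → M) :
    ∑ p ∈ antidiagonal 3, ∑ t ∈ antidiagonal p.2, g p.1 t.1 t.2 =
      g 0 0 3 + (g 0 1 2 + (g 0 2 1 + (g 0 3 0 + (g 1 0 2 + (g 1 1 1 + (g 1 2 0 +
        (g 2 0 1 + (g 2 1 0 + g 3 0 0)))))))) := by
  simp [Finset.Nat.antidiagonal_succ, add_assoc]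

section

variable (Q : K5 r i K psi C w v)
include Q

lemma K5.lc_J (hc : IsCore i ∅ (ps K psi) e) {k l a b : ℕ} (hk : Cheap k i e)
    (hl : k + ind a + ind b < l) (m : ℕ) :
    lc (st i C).card l (Jx i K psi C w v e a b m) = 0 :=
  lc_lt hl (Q.Jx_od hc hk a b m)

lemma K5.Jx0 (hc : IsCore i ∅ (ps K psi) e) (hs : Spt C e) :
    Jx i K psi C w v e 0 0 0 = tC i C e := by
  unfold Jx
  rw [if_pos ⟨Or.inl rfl, Or.inl rfl⟩, Pi.single_zero, Pi.single_zero, add_zero, add_zero,
    JK_zero Q.H Q.hir Q.part hs]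

/-- the general form -/
lemma K5.lc_ZC (n l : ℕ) : lc (st i C).card l (ZC i C n) =
    ∑ q ∈ range (n + 1), ∑ e ∈ Co i K psi C q,
      ∑ p ∈ antidiagonal (n - q), ∑ t ∈ antidiagonal p.2,
        lc (st i C).card l (Jx i K psi C w v e p.1 t.1 t.2) := by
  rw [Q.ZC_split n, lc_sum]
  refine sum_congr rfl fun q _ => ?_
  rw [lc_sum]
  refine sum_congr rfl fun e _ => ?_
  rw [lc_sum]
  refine sum_congr rfl fun p _ => ?_
  rw [lc_sum]

variable {q : P} (hq : q ∈ uc w) (hq' : q ∈ dc v)
include hq hq'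

/-- THE ENERGY FOUR -/
theorem K5.lc4 : lc (st i C).card 2 (ZC i C 4) =
    ∑ e ∈ Co i K psi C 4, lc (st i C).card 2 (tC i C e) +
    ∑ e ∈ Co i K psi C 3, (lc (st i C).card 2 (Jx i K psi C w v e 0 1 0) +
      lc (st i C).card 2 (Jx i K psi C w v e 1 0 0)) +
    ∑ e ∈ Co i K psi C 2, (lc (st i C).card 2 (Jx i K psi C w v e 0 1 1) +
      lc (st i C).card 2 (Jx i K psi C w v e 0 2 0) +
      lc (st i C).card 2 (Jx i K psi C w v e 1 0 1) +
      lc (st i C).card 2 (Jx i K psi C w v e 2 0 0) +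
      lc (st i C).card 2 (Jx i K psi C w v e 1 1 0)) +
    ∑ e ∈ Co i K psi C 1, (lc (st i C).card 2 (Jx i K psi C w v e 1 1 1) +
      lc (st i C).card 2 (Jx i K psi C w v e 1 2 0) +
      lc (st i C).card 2 (Jx i K psi C w v e 2 1 0)) := by
  rw [Q.lc_ZC, sum_range_succ, sum_range_succ, sum_range_succ, sum_range_succ, sum_range_one]
  have h0 : ∑ e ∈ Co i K psi C 0, ∑ p ∈ antidiagonal (4 - 0), ∑ t ∈ antidiagonal p.2,
        lc (st i C).card 2 (Jx i K psi C w v e p.1 t.1 t.2) = 0 := by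
    refine sum_eq_zero fun e he => sum_eq_zero fun p _ => sum_eq_zero fun t _ => ?_
    obtain ⟨h1, h2, h3⟩ := mem_Co.1 he
    have hk := Q.cheap0 h3 h2 (by omega)
    have h0 : e q = 0 := by
      rw [sum_eq_zero_iff] at h1
      exact h1 q (mem_univ q)
    by_cases ha : p.1 = 0
    · refine Q.lc_J h3 hk ?_ _
      rw [ha, ind_zero]
      unfold ind
      split_ifs <;> omega
    by_cases hb : t.1 = 0
    · refine Q.lc_J h3 hk ?_ _
      rw [hb, ind_zero]
      unfold ind
      split_ifs <;> omega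
    rw [Q.Jx_both h3 hq hq' h0 ha hb, lc_zero]
  have h1 : ∀ e ∈ Co i K psi C 1, ∑ p ∈ antidiagonal (4 - 1), ∑ t ∈ antidiagonal p.2,
        lc (st i C).card 2 (Jx i K psi C w v e p.1 t.1 t.2) =
      (lc (st i C).card 2 (Jx i K psi C w v e 1 1 1) +
      lc (st i C).card 2 (Jx i K psi C w v e 1 2 0) +
      lc (st i C).card 2 (Jx i K psi C w v e 2 1 0)) := by
    intro e he
    obtain ⟨h1, h2, h3⟩ := mem_Co.1 he
    have hk := Q.cheap0 h3 h2 (by omega)
    have hz : ∀ a b m : ℕ, a = 0 ∨ b = 0 →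
        lc (st i C).card 2 (Jx i K psi C w v e a b m) = 0 := by
      intro a b m hab
      refine Q.lc_J h3 hk ?_ _
      rcases hab with h | h
      · rw [h, ind_zero]; unfold ind; split_ifs <;> omega
      · rw [h, ind_zero]; unfold ind; split_ifs <;> omega
    rw [show 4 - 1 = 3 from rfl,
      anti3 (fun a b m => lc (st i C).card 2 (Jx i K psi C w v e a b m))]
    rw [hz 0 0 3 (Or.inl rfl), hz 0 1 2 (Or.inl rfl), hz 0 2 1 (Or.inl rfl),
      hz 0 3 0 (Or.inl rfl), hz 1 0 2 (Or.inr rfl), hz 2 0 1 (Or.inr rfl),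
      hz 3 0 0 (Or.inr rfl)]
    ring
  have h2 : ∀ e ∈ Co i K psi C 2, ∑ p ∈ antidiagonal (4 - 2), ∑ t ∈ antidiagonal p.2,
        lc (st i C).card 2 (Jx i K psi C w v e p.1 t.1 t.2) =
      (lc (st i C).card 2 (Jx i K psi C w v e 0 1 1) +
      lc (st i C).card 2 (Jx i K psi C w v e 0 2 0) +
      lc (st i C).card 2 (Jx i K psi C w v e 1 0 1) +
      lc (st i C).card 2 (Jx i K psi C w v e 2 0 0) +
      lc (st i C).card 2 (Jx i K psi C w v e 1 1 0)) := by
    intro e he
    obtain ⟨h1, h2, h3⟩ := mem_Co.1 he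
    have hk := Q.cheap1 h3 h2 (by omega)
    rw [show 4 - 2 = 2 from rfl,
      anti2 (fun a b m => lc (st i C).card 2 (Jx i K psi C w v e a b m))]
    rw [Q.lc_J h3 hk (a := 0) (b := 0) (by rw [ind_zero]; omega) 2]
    ring
  have h3 : ∀ e ∈ Co i K psi C 3, ∑ p ∈ antidiagonal (4 - 3), ∑ t ∈ antidiagonal p.2,
        lc (st i C).card 2 (Jx i K psi C w v e p.1 t.1 t.2) =
      (lc (st i C).card 2 (Jx i K psi C w v e 0 1 0) +
      lc (st i C).card 2 (Jx i K psi C w v e 1 0 0)) := by
    intro e he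
    obtain ⟨h1, h2, h3⟩ := mem_Co.1 he
    have hk := Q.cheap1 h3 h2 (by omega)
    rw [show 4 - 3 = 1 from rfl,
      anti1 (fun a b m => lc (st i C).card 2 (Jx i K psi C w v e a b m))]
    rw [Q.lc_J h3 hk (a := 0) (b := 0) (by rw [ind_zero]; omega) 1]
    ring
  have h4 : ∀ e ∈ Co i K psi C 4, ∑ p ∈ antidiagonal (4 - 4), ∑ t ∈ antidiagonal p.2,
        lc (st i C).card 2 (Jx i K psi C w v e p.1 t.1 t.2) =
      lc (st i C).card 2 (tC i C e) := by
    intro e he
    obtain ⟨h1, h2, h3⟩ := mem_Co.1 he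
    rw [show 4 - 4 = 0 from rfl,
      anti0 (fun a b m => lc (st i C).card 2 (Jx i K psi C w v e a b m)), Q.Jx0 h3 h2]
  rw [h0, sum_congr rfl h1, sum_congr rfl h2, sum_congr rfl h3, sum_congr rfl h4]
  ring

/-- THE ENERGY THREE -/
theorem K5.lc3 : lc (st i C).card 2 (ZC i C 3) =
    ∑ e ∈ Co i K psi C 2, (lc (st i C).card 2 (Jx i K psi C w v e 0 1 0) +
      lc (st i C).card 2 (Jx i K psi C w v e 1 0 0)) +
    ∑ e ∈ Co i K psi C 1, lc (st i C).card 2 (Jx i K psi C w v e 1 1 0) := by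
  rw [Q.lc_ZC, sum_range_succ, sum_range_succ, sum_range_succ, sum_range_one]
  have h0 : ∑ e ∈ Co i K psi C 0, ∑ p ∈ antidiagonal (3 - 0), ∑ t ∈ antidiagonal p.2,
        lc (st i C).card 2 (Jx i K psi C w v e p.1 t.1 t.2) = 0 := by
    refine sum_eq_zero fun e he => sum_eq_zero fun p _ => sum_eq_zero fun t _ => ?_
    obtain ⟨h1, h2, h3⟩ := mem_Co.1 he
    have hk := Q.cheap0 h3 h2 (by omega)
    have h0 : e q = 0 := by
      rw [sum_eq_zero_iff] at h1
      exact h1 q (mem_univ q)
    by_cases ha : p.1 = 0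
    · refine Q.lc_J h3 hk ?_ _
      rw [ha, ind_zero]
      unfold ind
      split_ifs <;> omega
    by_cases hb : t.1 = 0
    · refine Q.lc_J h3 hk ?_ _
      rw [hb, ind_zero]
      unfold ind
      split_ifs <;> omega
    rw [Q.Jx_both h3 hq hq' h0 ha hb, lc_zero]
  have h1 : ∀ e ∈ Co i K psi C 1, ∑ p ∈ antidiagonal (3 - 1), ∑ t ∈ antidiagonal p.2,
        lc (st i C).card 2 (Jx i K psi C w v e p.1 t.1 t.2) =
      lc (st i C).card 2 (Jx i K psi C w v e 1 1 0) := by
    intro e he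
    obtain ⟨h1, h2, h3⟩ := mem_Co.1 he
    have hk := Q.cheap0 h3 h2 (by omega)
    have hz : ∀ a b m : ℕ, a = 0 ∨ b = 0 →
        lc (st i C).card 2 (Jx i K psi C w v e a b m) = 0 := by
      intro a b m hab
      refine Q.lc_J h3 hk ?_ _
      rcases hab with h | h
      · rw [h, ind_zero]; unfold ind; split_ifs <;> omega
      · rw [h, ind_zero]; unfold ind; split_ifs <;> omega
    rw [show 3 - 1 = 2 from rfl,
      anti2 (fun a b m => lc (st i C).card 2 (Jx i K psi C w v e a b m))]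
    rw [hz 0 0 2 (Or.inl rfl), hz 0 1 1 (Or.inl rfl), hz 0 2 0 (Or.inl rfl),
      hz 1 0 1 (Or.inr rfl), hz 2 0 0 (Or.inr rfl)]
    ring
  have h2 : ∀ e ∈ Co i K psi C 2, ∑ p ∈ antidiagonal (3 - 2), ∑ t ∈ antidiagonal p.2,
        lc (st i C).card 2 (Jx i K psi C w v e p.1 t.1 t.2) =
      (lc (st i C).card 2 (Jx i K psi C w v e 0 1 0) +
      lc (st i C).card 2 (Jx i K psi C w v e 1 0 0)) := by
    intro e he
    obtain ⟨h1, h2, h3⟩ := mem_Co.1 he
    have hk := Q.cheap1 h3 h2 (by omega)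
    rw [show 3 - 2 = 1 from rfl,
      anti1 (fun a b m => lc (st i C).card 2 (Jx i K psi C w v e a b m))]
    rw [Q.lc_J h3 hk (a := 0) (b := 0) (by rw [ind_zero]; omega) 1]
    ring
  have h3 : ∑ e ∈ Co i K psi C 3, ∑ p ∈ antidiagonal (3 - 3), ∑ t ∈ antidiagonal p.2,
        lc (st i C).card 2 (Jx i K psi C w v e p.1 t.1 t.2) = 0 := by
    refine sum_eq_zero fun e he => ?_
    obtain ⟨h1, h2, h3⟩ := mem_Co.1 he
    rw [show 3 - 3 = 0 from rfl,
      anti0 (fun a b m => lc (st i C).card 2 (Jx i K psi C w v e a b m))]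
    exact Q.lc_J h3 (Q.cheap1 h3 h2 (by omega)) (by rw [ind_zero]; omega) 0
  rw [h0, sum_congr rfl h1, sum_congr rfl h2, h3]
  ring

/-- THE ENERGY TWO -/
theorem K5.lc2 : lc (st i C).card 1 (ZC i C 2) =
    ∑ e ∈ Co i K psi C 2, lc (st i C).card 1 (tC i C e) +
    ∑ e ∈ Co i K psi C 1, (lc (st i C).card 1 (Jx i K psi C w v e 0 1 0) +
      lc (st i C).card 1 (Jx i K psi C w v e 1 0 0)) +
    ∑ e ∈ Co i K psi C 0, (lc (st i C).card 1 (Jx i K psi C w v e 0 1 1) +
      lc (st i C).card 1 (Jx i K psi C w v e 0 2 0) +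
      lc (st i C).card 1 (Jx i K psi C w v e 1 0 1) +
      lc (st i C).card 1 (Jx i K psi C w v e 2 0 0)) := by
  rw [Q.lc_ZC, sum_range_succ, sum_range_succ, sum_range_one]
  have h0 : ∀ e ∈ Co i K psi C 0, ∑ p ∈ antidiagonal (2 - 0), ∑ t ∈ antidiagonal p.2,
        lc (st i C).card 1 (Jx i K psi C w v e p.1 t.1 t.2) =
      (lc (st i C).card 1 (Jx i K psi C w v e 0 1 1) +
      lc (st i C).card 1 (Jx i K psi C w v e 0 2 0) +
      lc (st i C).card 1 (Jx i K psi C w v e 1 0 1) +
      lc (st i C).card 1 (Jx i K psi C w v e 2 0 0)) := by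
    intro e he
    obtain ⟨h1, h2, h3⟩ := mem_Co.1 he
    have hk := Q.cheap0 h3 h2 (by omega)
    have h0 : e q = 0 := by
      rw [sum_eq_zero_iff] at h1
      exact h1 q (mem_univ q)
    rw [show 2 - 0 = 2 from rfl,
      anti2 (fun a b m => lc (st i C).card 1 (Jx i K psi C w v e a b m))]
    rw [Q.lc_J h3 hk (a := 0) (b := 0) (by rw [ind_zero]; omega) 2,
      Q.Jx_both h3 hq hq' h0 one_ne_zero one_ne_zero 0, lc_zero]
    ring
  have h1 : ∀ e ∈ Co i K psi C 1, ∑ p ∈ antidiagonal (2 - 1), ∑ t ∈ antidiagonal p.2,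
        lc (st i C).card 1 (Jx i K psi C w v e p.1 t.1 t.2) =
      (lc (st i C).card 1 (Jx i K psi C w v e 0 1 0) +
      lc (st i C).card 1 (Jx i K psi C w v e 1 0 0)) := by
    intro e he
    obtain ⟨h1, h2, h3⟩ := mem_Co.1 he
    have hk := Q.cheap0 h3 h2 (by omega)
    rw [show 2 - 1 = 1 from rfl,
      anti1 (fun a b m => lc (st i C).card 1 (Jx i K psi C w v e a b m))]
    rw [Q.lc_J h3 hk (a := 0) (b := 0) (by rw [ind_zero]; omega) 1]
    ring
  have h2 : ∀ e ∈ Co i K psi C 2, ∑ p ∈ antidiagonal (2 - 2), ∑ t ∈ antidiagonal p.2,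
        lc (st i C).card 1 (Jx i K psi C w v e p.1 t.1 t.2) =
      lc (st i C).card 1 (tC i C e) := by
    intro e he
    obtain ⟨h1, h2, h3⟩ := mem_Co.1 he
    rw [show 2 - 2 = 0 from rfl,
      anti0 (fun a b m => lc (st i C).card 1 (Jx i K psi C w v e a b m)), Q.Jx0 h3 h2]
  rw [sum_congr rfl h0, sum_congr rfl h1, sum_congr rfl h2]
  ring

end

end Pool.Agent.GaussPoset.Win.W4

end

/-! From `Pool.Agent.W_448w4_h10.KS` -/

section

/-!
MP_448cb3_co, G2, case B, window `j`: the list of the cores of energy three with one deficit.  helper10.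
-/

namespace Pool.Agent.GaussPoset.Win.W4

set_option linter.unusedSectionVars false

open Finset
open Pool.Agent.GaussPoset.Win.SO (Sde Pen TD On kS tL tU LowD UppD val_gen sde_low sde_up PN vp mem_PN
  num_PN NumG con mem_con self_con con_two_low con_two_upp con_cls con_disj on con_sub on_inj sit_PD
  sit_PU con_PD con_PU PD_data PU_data vp_PD vp_PU sit_ne)
open Pool.Agent.GaussPoset.Win.I2 (lS uS mem_lS mem_uS)

universe u

variable {P : Type u} [Fintype P] [PartialOrder P] [DecidableEq P] {r i : ℕ}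
variable {e f : P → ℕ} {psi : P → P} {C K : Finset P} {w v : P}

/-- `g` hangs below the configuration of the pendant `z` -/
def Cd (i : ℕ) (z g : P) : Prop :=
  (i < lev z ∧ i + 2 ≤ lev g ∧ uc g ⊆ con i z) ∨ (lev z < i ∧ lev g + 2 ≤ i ∧ dc g ⊆ con i z)

open Classical in
/-- pendants with one more label -/
noncomputable def I3 (i : ℕ) (C : Finset P) : Finset (P × P) :=
  (PN i C ×ˢ C).filter (fun q => lev q.2 = i ∨ q.2 ∈ con i q.1 ∨ Cd i q.1 q.2)

/-- the configuration -/
noncomputable def m3 (i : ℕ) (q : P × P) : P → ℕ := on (con i q.1) + Pi.single q.2 1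

lemma mem_I3 {q : P × P} : q ∈ I3 i C ↔ q.1 ∈ PN i C ∧ q.2 ∈ C ∧
    (lev q.2 = i ∨ q.2 ∈ con i q.1 ∨ Cd i q.1 q.2) := by
  classical
  unfold I3
  rw [mem_filter, mem_product, and_assoc]

lemma m3_eval {z y g : P} (hc : con i z = {z, y}) (x : P) : m3 i (z, g) x =
    (if x ∈ ({z, y} : Finset P) then 1 else 0) + if x = g then 1 else 0 := by
  unfold m3 on
  rw [Pi.add_apply, Pi.single_apply]
  show (if x ∈ con i z then 1 else 0) + _ = _
  rw [hc]

/-- the data of a pendant -/
lemma PN_dat (H : Gr P r) {z : P} (hz : z ∈ PN i C) : z ∈ C ∧ ∃ y, con i z = {z, y} ∧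
    y ∈ near P i ∧ nz i y = sit i z ∧ (sit i z).card = 2 ∧ (∀ a ∈ sit i z, lev a = i) ∧
    ((z ∈ PD P i ∧ lev z = i + 2 ∧ lev y = i + 1 ∧ uc z = {y} ∧ sit i z = uc y ∧ vp i z = 1 ∧
        Pen uc (tL (P := P) i) (lS P i) z y) ∨
      (z ∈ PU P i ∧ lev z + 2 = i ∧ lev y + 1 = i ∧ dc z = {y} ∧ sit i z = dc y ∧ vp i z = -1 ∧
        Pen dc (tU (P := P) i) (uS P i) z y)) := by
  obtain ⟨hC, h | h⟩ := mem_PN.1 hz
  · obtain ⟨y, g1, g2, g3, g4, g5⟩ := PD_data H h
    have hs := sit_PD H g2 g1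
    refine ⟨hC, y, con_PD H g2 g1, mem_near.2 (Or.inl g3), ?_, ?_, ?_, Or.inl ⟨h, g2, g3, g1, hs,
      vp_PD h, g5⟩⟩
    · rw [nz_low g3, hs]
    · rw [hs]; exact g4
    · intro a ha
      rw [hs] at ha
      have := lev_uc H ha
      omega
  · obtain ⟨y, g1, g2, g3, g4, g5⟩ := PU_data H h
    have hs := sit_PU H g2 g1
    refine ⟨hC, y, con_PU H g2 g1, mem_near.2 (Or.inr g3), ?_, ?_, ?_, Or.inr ⟨h, g2, g3, g1, hs,
      vp_PU h, g5⟩⟩
    · rw [nz_upp g3, hs]
    · rw [hs]; exact g4
    · intro a ha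
      rw [hs] at ha
      have := lev_dc H ha
      omega

/-- DATA AND VALUE of `m3` -/
theorem m3_val (H : Gr P r) (hir : i ≤ r) (hC : Part (i + 1) C) {q : P × P} (hq : q ∈ I3 i C) :
    AdmL i (m3 i q) ∧ AdmU i (m3 i q) ∧ Disjoint (AL i (m3 i q)) (AU i (m3 i q)) ∧
      AL i (m3 i q) ∪ AU i (m3 i q) = (sit i q.1).erase q.2 ∧
      od (st i C).card 1 (tC i C (m3 i q)) ∧
      lc (st i C).card 1 (tC i C (m3 i q)) = ep3 (sit i q.1) q.1 q.2 * vp i q.1 ∧
      Spt C (m3 i q) := by
  obtain ⟨z, g⟩ := q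
  obtain ⟨h1, h2, h3⟩ := mem_I3.1 hq
  obtain ⟨hzC, y, hcon, hyn, hnz, hcard, hlev, hd⟩ := PN_dat H h1
  simp only at h2 h3 hcon hnz hcard hlev hd ⊢
  have hs : Spt C (m3 i (z, g)) := by
    have hsub : con i z ⊆ C := con_sub H hC hzC (by
      rcases hd with ⟨-, h, -⟩ | ⟨-, h, -⟩ <;> omega)
    intro x hx
    unfold m3 on
    rw [Pi.add_apply, Pi.single_apply]
    show (if x ∈ con i z then 1 else 0) + (if x = g then 1 else 0) = 0
    rw [if_neg (fun h => hx (hsub h)), if_neg (by rintro rfl; exact hx h2), add_zero]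
  rcases hd with ⟨d1, d2, d3, d4, d5, d6, d7⟩ | ⟨d1, d2, d3, d4, d5, d6, d7⟩
  · have hg : g ∉ lS P i ∨ g = z ∨ g = y ∨ (2 ≤ tL (P := P) i g ∧ uc g ⊆ {z, y}) := by
      rcases h3 with h | h | ⟨-, a2, a3⟩ | ⟨a1, -⟩
      · left; rw [mem_lS]; omega
      · rw [hcon, mem_insert, mem_singleton] at h
        rcases h with h | h
        · exact Or.inr (Or.inl h)
        · exact Or.inr (Or.inr (Or.inl h))
      · right; right; right
        refine ⟨by unfold tL; omega, ?_⟩
        rw [← hcon]; exact a3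
      · omega
    have hgU : g ∉ uS P i := by
      rw [mem_uS]
      rcases h3 with h | h | ⟨-, a2, a3⟩ | ⟨a1, -⟩
      · omega
      · rw [hcon, mem_insert, mem_singleton] at h
        rcases h with h | h
        · rw [h]; omega
        · rw [h]; omega
      · omega
      · omega
    obtain ⟨v1, v2, v3, v4, v5, v6⟩ := Q3_low H hir hC hs d7 hg hgU (m3_eval hcon)
    rw [← d5] at v4 v6
    rw [d6, mul_one]
    exact ⟨v1, v2, v3, v4, v5, v6, hs⟩
  · have hg : g ∉ uS P i ∨ g = z ∨ g = y ∨ (2 ≤ tU (P := P) i g ∧ dc g ⊆ {z, y}) := by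
      rcases h3 with h | h | ⟨a1, -⟩ | ⟨-, a2, a3⟩
      · left; rw [mem_uS]; omega
      · rw [hcon, mem_insert, mem_singleton] at h
        rcases h with h | h
        · exact Or.inr (Or.inl h)
        · exact Or.inr (Or.inr (Or.inl h))
      · omega
      · right; right; right
        refine ⟨by unfold tU; omega, ?_⟩
        rw [← hcon]; exact a3
    have hgU : g ∉ lS P i := by
      rw [mem_lS]
      rcases h3 with h | h | ⟨a1, -⟩ | ⟨-, a2, a3⟩
      · omega
      · rw [hcon, mem_insert, mem_singleton] at h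
        rcases h with h | h
        · rw [h]; omega
        · rw [h]; omega
      · omega
      · omega
    obtain ⟨v1, v2, v3, v4, v5, v6⟩ := Q3_upp H hir hC hs d7 hg hgU (m3_eval hcon)
    rw [← d5] at v4 v6
    rw [d6, mul_neg_one]
    exact ⟨v1, v2, v3, v4, v5, v6, hs⟩

/-- the element of the pendant configuration -/
lemma m3_sum (H : Gr P r) {q : P × P} (hq : q ∈ I3 i C) : ∑ x, m3 i q x = 3 := by
  obtain ⟨h1, -, -⟩ := mem_I3.1 hq
  unfold m3
  have e1 : ∑ x, (on (con i q.1) + Pi.single q.2 1 : P → ℕ) x =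
      ∑ x, on (con i q.1) x + ∑ x, (Pi.single q.2 1 : P → ℕ) x := by
    rw [← sum_add_distrib]
    rfl
  rw [e1, SO.on_sum, (num_PN H h1).cd, sum_pi_single']
  simp

lemma m3_core (H : Gr P r) {q : P × P} (hq : q ∈ I3 i C) : IsCore i K psi (m3 i q) := by
  obtain ⟨z, g⟩ := q
  obtain ⟨h1, h2, h3⟩ := mem_I3.1 hq
  obtain ⟨hzC, y, hcon, hyn, hnz, hcard, hlev, hd⟩ := PN_dat H h1
  simp only at h2 h3 hcon hd
  apply core_of_touch
  intro x hx hpos
  rw [m3_eval hcon] at hpos
  have hz : 0 < m3 i (z, g) z := by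
    rw [m3_eval hcon, if_pos (by simp)]
    omega
  have hzn : z ∉ near P i := by
    rw [mem_near]
    rcases hd with ⟨-, h, -⟩ | ⟨-, h, -⟩ <;> omega
  have hxy : x = y := by
    by_cases hxz : x ∈ ({z, y} : Finset P)
    · rw [mem_insert, mem_singleton] at hxz
      rcases hxz with h | h
      · rw [h] at hx; exact absurd hx hzn
      · exact h
    · rw [if_neg hxz, zero_add] at hpos
      by_cases hxg : x = g
      · rw [mem_near] at hx
        rcases h3 with h | h | ⟨-, a2, -⟩ | ⟨-, a2, -⟩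
        · rw [hxg] at hx; omega
        · rw [hcon] at h
          rw [hxg] at hxz
          exact absurd h hxz
        · rw [hxg] at hx; omega
        · rw [hxg] at hx; omega
      · rw [if_neg hxg] at hpos
        omega
  rw [mem_Tch, hxy]
  rcases hd with ⟨-, l1, l2, d4, -⟩ | ⟨-, l1, l2, d4, -⟩
  · exact Or.inl ⟨l2, z, by rw [← mem_uc, d4]; simp, hz⟩
  · exact Or.inr ⟨l2, z, by rw [← mem_dc, d4]; simp, hz⟩

/-- configurations of type Q3 are in the list -/
lemma Q3_index (H : Gr P r) (hs : Spt C e)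
    (h : Q3 uc (tL (P := P) i) (lS P i) (uS P i) e) : ∃ q ∈ I3 i C, m3 i q = e := by
  obtain ⟨p, y, g, h1, h2, h3, h4⟩ := h
  obtain ⟨a0, a1, a2, a3, a4⟩ := SO.pen_low H h1
  have hcon := con_PD H a1 a3
  refine ⟨(p, g), mem_I3.2 ⟨mem_PN.2 ⟨mem_of_pos hs (by rw [h4 p, if_pos (by simp)]; omega),
    Or.inl a0⟩, mem_of_pos hs (by rw [h4 g, if_pos rfl]; omega), ?_⟩, ?_⟩
  · rw [mem_uS] at h3
    rcases h2 with h | h | h | ⟨h, h'⟩
    · rw [mem_lS] at h
      left
      show lev g = i
      omega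
    · right; left
      show g ∈ con i p
      rw [hcon, h]; simp
    · right; left
      show g ∈ con i p
      rw [hcon, h]; simp
    · right; right; left
      unfold tL at h
      refine ⟨by show i < lev p; omega, by show i + 2 ≤ lev g; omega, ?_⟩
      show uc g ⊆ con i p
      rw [hcon]; exact h'
  · funext x
    rw [m3_eval hcon, h4 x]

lemma Q3_index' (H : Gr P r) (hs : Spt C e)
    (h : Q3 dc (tU (P := P) i) (uS P i) (lS P i) e) : ∃ q ∈ I3 i C, m3 i q = e := by
  obtain ⟨p, y, g, h1, h2, h3, h4⟩ := h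
  obtain ⟨a0, a1, a2, a3, a4⟩ := SO.pen_up H h1
  have hcon := con_PU H a1 a3
  refine ⟨(p, g), mem_I3.2 ⟨mem_PN.2 ⟨mem_of_pos hs (by rw [h4 p, if_pos (by simp)]; omega),
    Or.inr a0⟩, mem_of_pos hs (by rw [h4 g, if_pos rfl]; omega), ?_⟩, ?_⟩
  · rw [mem_lS] at h3
    rcases h2 with h | h | h | ⟨h, h'⟩
    · rw [mem_uS] at h
      left
      show lev g = i
      omega
    · right; left
      show g ∈ con i p
      rw [hcon, h]; simp
    · right; left
      show g ∈ con i p
      rw [hcon, h]; simp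
    · right; right; right
      unfold tU at h
      refine ⟨by show lev p < i; omega, by show lev g + 2 ≤ i; omega, ?_⟩
      show dc g ⊆ con i p
      rw [hcon]; exact h'
  · funext x
    rw [m3_eval hcon, h4 x]

/-- the far pendant is recovered -/
lemma m3_fib (H : Gr P r) {q q' : P × P} (hq : q ∈ I3 i C) (hq' : q' ∈ I3 i C)
    (h : m3 i q' = m3 i q) : q' = q ∨ (q' = q.swap ∧ q.2 ∈ PN i C ∧ q.2 ≠ q.1) := by
  obtain ⟨z, g⟩ := q
  obtain ⟨z', g'⟩ := q'
  obtain ⟨h1, h2, h3⟩ := mem_I3.1 hq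
  obtain ⟨h1', h2', h3'⟩ := mem_I3.1 hq'
  obtain ⟨hzC, y, hcon, hyn, hnz, hcard, hlev, hd⟩ := PN_dat H h1
  obtain ⟨hzC', y', hcon', hyn', hnz', hcard', hlev', hd'⟩ := PN_dat H h1'
  simp only at h1 h1' hcon hcon' hd hd'
  have ev : ∀ x, (if x ∈ ({z', y'} : Finset P) then 1 else 0) + (if x = g' then 1 else 0) =
      (if x ∈ ({z, y} : Finset P) then 1 else 0) + if x = g then 1 else 0 := by
    intro x
    rw [← m3_eval hcon', ← m3_eval hcon, h]
  have far : z ∉ near P i := by
    rw [mem_near]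
    rcases hd with ⟨-, h, -⟩ | ⟨-, h, -⟩ <;> omega
  have far' : z' ∉ near P i := by
    rw [mem_near]
    rcases hd' with ⟨-, h, -⟩ | ⟨-, h, -⟩ <;> omega
  by_cases hzz : z' = z
  · left
    have hyy : y' = y := by
      have h5 : y' ∈ con i z' := by rw [hcon']; simp
      rw [hzz, hcon, mem_insert, mem_singleton] at h5
      rcases h5 with h5 | h5
      · rw [h5] at hyn'; exact absurd hyn' far
      · exact h5
    have h6 := ev g'
    rw [hzz, hyy, if_pos rfl] at h6
    have h7 : g' = g := by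
      by_contra hne
      rw [if_neg hne] at h6
      omega
    rw [hzz, h7]
  · right
    have hg : z' = g := by
      have h6 := ev z'
      have a1 : z' ∈ ({z', y'} : Finset P) := by simp
      have a2 : z' ∉ ({z, y} : Finset P) := by
        rw [mem_insert, mem_singleton, not_or]
        exact ⟨hzz, by rintro rfl; exact far' hyn⟩
      by_contra hne
      rw [if_pos a1, if_neg a2, if_neg hne] at h6
      omega
    have hg' : z = g' := by
      have h6 := ev z
      have a1 : z ∈ ({z, y} : Finset P) := by simp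
      have a2 : z ∉ ({z', y'} : Finset P) := by
        rw [mem_insert, mem_singleton, not_or]
        exact ⟨Ne.symm hzz, by rintro rfl; exact far hyn'⟩
      by_contra hne
      rw [if_pos a1, if_neg a2, if_neg hne] at h6
      omega
    refine ⟨?_, ?_, ?_⟩
    · rw [← hg', hg]
      rfl
    · show g ∈ PN i C
      rw [← hg]; exact h1'
    · show g ≠ z
      rw [← hg]; exact hzz

/-- siblings -/
lemma m3_swap (H : Gr P r) {q : P × P} (hq : q ∈ I3 i C) (h : q.2 ∈ PN i C) (hne : q.2 ≠ q.1) :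
    q.swap ∈ I3 i C ∧ m3 i q.swap = m3 i q := by
  obtain ⟨z, g⟩ := q
  obtain ⟨h1, h2, h3⟩ := mem_I3.1 hq
  obtain ⟨hzC, y, hcon, hyn, hnz, hcard, hlev, hd⟩ := PN_dat H h1
  obtain ⟨hgC, y', hcon', hyn', hnz', hcard', hlev', hd'⟩ := PN_dat H h
  simp only at h1 h2 h3 h hne hcon hcon' hd hd'
  have far' : g ∉ near P i := by
    rw [mem_near]
    rcases hd' with ⟨-, h, -⟩ | ⟨-, h, -⟩ <;> omega
  have hlg : lev g ≠ i := by
    rcases hd' with ⟨-, h, -⟩ | ⟨-, h, -⟩ <;> omega
  -- the covers agree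
  have key : y' = y ∧ Cd i g z := by
    rcases h3 with h4 | h4 | ⟨a1, a2, a3⟩ | ⟨a1, a2, a3⟩
    · exact absurd h4 hlg
    · rw [hcon, mem_insert, mem_singleton] at h4
      rcases h4 with h4 | h4
      · exact absurd h4 hne
      · rw [h4] at far'; exact absurd hyn far'
    · rcases hd' with ⟨-, l1, l2, u1, -⟩ | ⟨-, l1, -⟩
      · rcases hd with ⟨-, l3, l4, u2, -⟩ | ⟨-, l3, -⟩
        · have h5 : y' ∈ con i z := a3 (by rw [u1]; simp)
          rw [hcon, mem_insert, mem_singleton] at h5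
          rcases h5 with h5 | h5
          · rw [h5] at l2; omega
          · refine ⟨h5, Or.inl ⟨by omega, by omega, ?_⟩⟩
            rw [u2, hcon', h5]
            simp
        · omega
      · omega
    · rcases hd' with ⟨-, l1, -⟩ | ⟨-, l1, l2, u1, -⟩
      · omega
      · rcases hd with ⟨-, l3, -⟩ | ⟨-, l3, l4, u2, -⟩
        · omega
        · have h5 : y' ∈ con i z := a3 (by rw [u1]; simp)
          rw [hcon, mem_insert, mem_singleton] at h5
          rcases h5 with h5 | h5
          · rw [h5] at l2; omega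
          · refine ⟨h5, Or.inr ⟨by omega, by omega, ?_⟩⟩
            rw [u2, hcon', h5]
            simp
  refine ⟨mem_I3.2 ⟨h, hzC, Or.inr (Or.inr key.2)⟩, ?_⟩
  funext x
  show m3 i (g, z) x = _
  rw [m3_eval hcon', m3_eval hcon, key.1]
  have hny : ∀ a : P, a ∉ near P i → a ≠ y := by
    rintro a ha rfl
    exact ha hyn
  have far : z ∉ near P i := by
    rw [mem_near]
    rcases hd with ⟨-, h, -⟩ | ⟨-, h, -⟩ <;> omega
  by_cases x1 : x = z
  · rw [x1, if_neg, if_pos rfl, if_pos (by simp), if_neg (Ne.symm hne)]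
    rw [mem_insert, mem_singleton, not_or]
    exact ⟨Ne.symm hne, hny z far⟩
  · by_cases x2 : x = g
    · rw [x2, if_pos (by simp), if_neg hne, if_neg, if_pos rfl]
      rw [mem_insert, mem_singleton, not_or]
      exact ⟨hne, hny g far'⟩
    · rw [if_neg x1, if_neg x2]
      simp only [mem_insert, mem_singleton, x1, x2]

end Pool.Agent.GaussPoset.Win.W4

end

/-! From `Pool.Agent.W_448w4_h10.KT` -/

section

/-!
MP_448cb3_co, G2, case B, window `j`: sums over the cores of energy three with one deficit.  helper10.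
-/

namespace Pool.Agent.GaussPoset.Win.W4

set_option linter.unusedSectionVars false

open Finset
open Pool.Agent.GaussPoset.Win.SO (Sde Pen TD On kS tL tU LowD UppD val_gen sde_low sde_up PN vp mem_PN
  num_PN NumG con mem_con self_con con_two_low con_two_upp con_cls con_disj on con_sub on_inj sit_PD
  sit_PU con_PD con_PU PD_data PU_data vp_PD vp_PU sit_ne nL nU BL BU mem_nL mem_nU cheap_of)
open Pool.Agent.GaussPoset.Win.I2 (lS uS mem_lS mem_uS)

universe u

variable {P : Type u} [Fintype P] [PartialOrder P] [DecidableEq P] {r i : ℕ}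
variable {e f : P → ℕ} {psi : P → P} {C K : Finset P} {w v : P}

/-! ### elements with three sites -/

/-- labels one on an element at distance two and its covers -/
noncomputable def mz (i : ℕ) (z : P) : P → ℕ := on (con i z)

/-- the value -/
noncomputable def tz (i : ℕ) (z : P) : ℤ := if i < lev z then -1 else 1

lemma Z4_cases {z : P} (hz : z ∈ Z4 i C) :
    (z ∈ C ∧ lev z = i + 2 ∧ up i z = 3) ∨ (z ∈ C ∧ lev z + 2 = i ∧ dn i z = 3) := by
  rcases mem_Z4.1 hz with h | h
  · exact Or.inl (mem_ZL.1 h)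
  · exact Or.inr (mem_ZU.1 h)

/-- DATA AND VALUE of `mz` -/
theorem mz_val (H : Gr P r) (hir : i ≤ r) (hC : Part (i + 1) C) {z : P} (hz : z ∈ Z4 i C) :
    AdmL i (mz i z) ∧ AdmU i (mz i z) ∧ Disjoint (AL i (mz i z)) (AU i (mz i z)) ∧
      AL i (mz i z) ∪ AU i (mz i z) = sit i z ∧
      od (st i C).card 1 (tC i C (mz i z)) ∧ lc (st i C).card 1 (tC i C (mz i z)) = tz i z ∧
      Spt C (mz i z) ∧ ∑ x, mz i z x = 3 ∧ (sit i z).card = 3 := by
  have hl : lev z ≠ i := by rcases Z4_cases hz with ⟨-, h, -⟩ | ⟨-, h, -⟩ <;> omega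
  have hzC : z ∈ C := by rcases Z4_cases hz with ⟨h, -⟩ | ⟨h, -⟩ <;> exact h
  have hsub := con_sub H hC hzC hl
  have hs : Spt C (mz i z) := SO.on_spt hsub
  obtain ⟨D, D'⟩ := SO.on_dat H hir (con_cls H hl)
  unfold mz at hs ⊢
  rcases Z4_cases hz with ⟨-, l1, u1⟩ | ⟨-, l1, u1⟩
  · have e1 : BL i (con i z) = sit i z := by
      rw [SO.BL_con_low H (by omega), sit_low H (show i ≤ lev z by omega)]
    have e2 : BU i (con i z) = ∅ := SO.BU_con_low H (by omega)
    have hcon := con_two_low H l1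
    have huc := card_uc_of_up H l1 u1
    have e3 : nL i (con i z) = uc z := by
      ext x
      rw [mem_nL, hcon, mem_insert]
      constructor
      · rintro ⟨h | h, hx⟩
        · rw [h] at hx; omega
        · exact h
      · intro h
        have := lev_uc H h
        exact ⟨Or.inr h, by omega⟩
    have e4 : nU i (con i z) = ∅ := by
      rw [eq_empty_iff_forall_notMem]
      intro x hx
      rw [mem_nU, hcon, mem_insert] at hx
      obtain ⟨h | h, hx⟩ := hx
      · rw [h] at hx; omega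
      · have := lev_uc H h
        omega
    have e5 : (sit i z).card = 3 := by
      rw [sit_low H (show i ≤ lev z by omega), card_sts, u1]
    rw [e3, e1] at D
    rw [e4, e2] at D'
    obtain ⟨g4, g5⟩ := val_gen H hC hs D D' (disjoint_empty_right _) (k := 1) (by
      rw [e5, huc, card_empty])
    refine ⟨D.adm, D'.adm, ?_, ?_, SO.dvd_up g4, ?_, hs, ?_, e5⟩
    · rw [D'.AU_eq]; exact disjoint_empty_right _
    · rw [D.AL_eq, D'.AU_eq, union_empty]
    · unfold lc tz
      rw [g5, e5, card_empty, if_pos (by omega)]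
      norm_num
    · rw [SO.on_sum, hcon, card_insert_of_notMem, huc]
      intro h
      have := lev_uc H h
      omega
  · have e1 : BU i (con i z) = sit i z := by
      rw [SO.BU_con_upp H (by omega), sit_upp H (show lev z ≤ i by omega)]
    have e2 : BL i (con i z) = ∅ := SO.BL_con_upp H (by omega)
    have hcon := con_two_upp H l1
    have huc := card_dc_of_dn H l1 u1
    have e3 : nU i (con i z) = dc z := by
      ext x
      rw [mem_nU, hcon, mem_insert]
      constructor
      · rintro ⟨h | h, hx⟩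
        · rw [h] at hx; omega
        · exact h
      · intro h
        have := lev_dc H h
        exact ⟨Or.inr h, by omega⟩
    have e4 : nL i (con i z) = ∅ := by
      rw [eq_empty_iff_forall_notMem]
      intro x hx
      rw [mem_nL, hcon, mem_insert] at hx
      obtain ⟨h | h, hx⟩ := hx
      · rw [h] at hx; omega
      · have := lev_dc H h
        omega
    have e5 : (sit i z).card = 3 := by
      rw [sit_upp H (show lev z ≤ i by omega), card_stD, u1]
    rw [e3, e1] at D'
    rw [e4, e2] at D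
    obtain ⟨g4, g5⟩ := val_gen H hC hs D D' (disjoint_empty_left _) (k := 1) (by
      rw [e5, huc, card_empty])
    refine ⟨D.adm, D'.adm, ?_, ?_, SO.dvd_up g4, ?_, hs, ?_, e5⟩
    · rw [D.AL_eq]; exact disjoint_empty_left _
    · rw [D.AL_eq, D'.AU_eq, empty_union]
    · unfold lc tz
      rw [g5, huc, card_empty, if_neg (by omega)]
      norm_num
    · rw [SO.on_sum, hcon, card_insert_of_notMem, huc]
      intro h
      have := lev_dc H h
      omega

lemma mz_core (H : Gr P r) {z : P} (hz : z ∈ Z4 i C) : IsCore i K psi (mz i z) := by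
  apply core_of_touch
  intro x hx hpos
  unfold mz at hpos ⊢
  rw [on_pos] at hpos
  rw [mem_near] at hx
  have hself : 0 < on (con i z) z := by
    rw [on_pos]
    exact self_con (by rcases Z4_cases hz with ⟨-, h, -⟩ | ⟨-, h, -⟩ <;> omega)
  rw [mem_Tch]
  rcases Z4_cases hz with ⟨-, l1, u1⟩ | ⟨-, l1, u1⟩
  · rw [con_two_low H l1, mem_insert] at hpos
    rcases hpos with h | h
    · rw [h] at hx; omega
    · have := lev_uc H h
      exact Or.inl ⟨by omega, z, mem_uc.1 h, hself⟩
  · rw [con_two_upp H l1, mem_insert] at hpos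
    rcases hpos with h | h
    · rw [h] at hx; omega
    · have := lev_dc H h
      exact Or.inr ⟨by omega, z, mem_dc.1 h, hself⟩

lemma mz_far (H : Gr P r) {z x : P} (hz : z ∈ Z4 i C) (hx : lev x = i + 2 ∨ lev x + 2 = i) :
    0 < mz i z x ↔ x = z := by
  unfold mz
  rw [on_pos]
  constructor
  · intro h
    rcases Z4_cases hz with ⟨-, l1, u1⟩ | ⟨-, l1, u1⟩
    · rw [con_two_low H l1, mem_insert] at h
      rcases h with h | h
      · exact h
      · have := lev_uc H h
        omega
    · rw [con_two_upp H l1, mem_insert] at h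
      rcases h with h | h
      · exact h
      · have := lev_dc H h
        omega
  · rintro rfl
    exact self_con (by rcases Z4_cases hz with ⟨-, h, -⟩ | ⟨-, h, -⟩ <;> omega)

lemma mz_inj (H : Gr P r) {z z' : P} (hz : z ∈ Z4 i C) (hz' : z' ∈ Z4 i C)
    (h : mz i z = mz i z') : z = z' := by
  have l : lev z = i + 2 ∨ lev z + 2 = i := by
    rcases Z4_cases hz with ⟨-, h, -⟩ | ⟨-, h, -⟩
    · exact Or.inl h
    · exact Or.inr h
  have h1 := (mz_far H hz l).2 rfl
  rw [h] at h1
  exact (mz_far H hz' l).1 h1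

lemma T3_index (H : Gr P r) (hs : Spt C e) (h : T3 uc (tL (P := P) i) (lS P i) e) :
    ∃ z ∈ Z4 i C, mz i z = e := by
  obtain ⟨z, x, x', h1, h2, h3, h4, h5, h6⟩ := h
  have hz : lev z = i + 2 := by
    rw [mem_lS] at h1
    unfold tL at h2
    omega
  refine ⟨z, mem_Z4.2 (Or.inl (mem_ZL.2 ⟨?_, hz, ?_⟩)), ?_⟩
  · exact mem_of_pos hs (by rw [h6 z, if_pos (by simp)]; omega)
  · rw [up_two H hz h3, h5]
  · unfold mz
    apply On_eq (on_On _) h6
    rw [con_two_low H hz, h3]

lemma T3_index' (H : Gr P r) (hs : Spt C e) (h : T3 dc (tU (P := P) i) (uS P i) e) :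
    ∃ z ∈ Z4 i C, mz i z = e := by
  obtain ⟨z, x, x', h1, h2, h3, h4, h5, h6⟩ := h
  have hz : lev z + 2 = i := by
    rw [mem_uS] at h1
    unfold tU at h2
    omega
  refine ⟨z, mem_Z4.2 (Or.inr (mem_ZU.2 ⟨?_, hz, ?_⟩)), ?_⟩
  · exact mem_of_pos hs (by rw [h6 z, if_pos (by simp)]; omega)
  · rw [dn_two H hz h3, h5]
  · unfold mz
    apply On_eq (on_On _) h6
    rw [con_two_upp H hz, h3]

/-- two near elements against one -/
lemma m3_ne_mz (H : Gr P r) {q : P × P} {z : P} (hq : q ∈ I3 i C) (hz : z ∈ Z4 i C) :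
    m3 i q ≠ mz i z := by
  intro heq
  obtain ⟨p, g⟩ := q
  obtain ⟨h1, h2, h3⟩ := mem_I3.1 hq
  obtain ⟨hzC, y, hcon, hyn, hnz, hcard, hlev, hd⟩ := PN_dat H h1
  simp only at h2 h3 hcon hd
  -- every near element with a positive label is `y`
  have hone : ∀ x ∈ near P i, 0 < mz i z x → x = y := by
    intro x hx hpos
    rw [← heq, m3_eval hcon] at hpos
    rw [mem_near] at hx
    by_cases hxz : x ∈ ({p, y} : Finset P)
    · rw [mem_insert, mem_singleton] at hxz
      rcases hxz with h | h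
      · rw [h] at hx
        rcases hd with ⟨-, h, -⟩ | ⟨-, h, -⟩ <;> omega
      · exact h
    · rw [if_neg hxz, zero_add] at hpos
      by_cases hxg : x = g
      · rcases h3 with h | h | ⟨-, a2, -⟩ | ⟨-, a2, -⟩
        · rw [hxg] at hx; omega
        · rw [hcon] at h
          rw [hxg] at hxz
          exact absurd h hxz
        · rw [hxg] at hx; omega
        · rw [hxg] at hx; omega
      · rw [if_neg hxg] at hpos
        omega
  rcases Z4_cases hz with ⟨-, l1, u1⟩ | ⟨-, l1, u1⟩
  · obtain ⟨a, b, hab, huc⟩ := card_eq_two.1 (card_uc_of_up H l1 u1)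
    have key : ∀ x ∈ uc z, x = y := by
      intro x hx
      have := lev_uc H hx
      refine hone x (mem_near.2 (Or.inl (by omega))) ?_
      unfold mz
      rw [on_pos, con_two_low H l1]
      exact mem_insert_of_mem hx
    exact hab ((key a (by rw [huc]; simp)).trans (key b (by rw [huc]; simp)).symm)
  · obtain ⟨a, b, hab, huc⟩ := card_eq_two.1 (card_dc_of_dn H l1 u1)
    have key : ∀ x ∈ dc z, x = y := by
      intro x hx
      have := lev_dc H hx
      refine hone x (mem_near.2 (Or.inr (by omega))) ?_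
      unfold mz
      rw [on_pos, con_two_upp H l1]
      exact mem_insert_of_mem hx
    exact hab ((key a (by rw [huc]; simp)).trans (key b (by rw [huc]; simp)).symm)

lemma cheap0_lc (H : Gr P r) (hC : Part (i + 1) C) (hs : Spt C e) (h : Cheap 0 i e) :
    lc (st i C).card 1 (tC i C e) = 0 := by
  have := cheap_coeff1 H hC hs h
  unfold lc
  rw [pow_one]
  exact this

section

variable (Q : K5 r i K psi C w v)
include Q

/-- CLASSIFICATION, energy three -/
theorem K5.cls3 (hc : IsCore i ∅ (ps K psi) e) (hs : Spt C e) (hE : ∑ x, e x = 3) :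
    Cheap 0 i e ∨ ((∃ q ∈ I3 i C, m3 i q = e) ∨ ∃ z ∈ Z4 i C, mz i z = e) := by
  by_cases hA : AdmL i e
  swap
  · exact Or.inl (Or.inl hA)
  by_cases hB : AdmU i e
  swap
  · exact Or.inl (Or.inr (Or.inl hB))
  by_cases hd : Disjoint (AL i e) (AU i e)
  swap
  · exact Or.inl (Or.inr (Or.inr (Or.inl hd)))
  have nq1 : NQ uc (tL (P := P) i) (lS P i) e := by
    intro w hw ht he x hx x' hx' h1 h2
    rw [mem_lS] at hw
    unfold tL at ht
    exact Q.nq w (mem_of_pos hs he) (by omega) x hx x' hx' h1 h2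
  have nq2 : NQ dc (tU (P := P) i) (uS P i) e := by
    intro w hw ht he x hx x' hx' h1 h2
    rw [mem_uS] at hw
    unfold tU at ht
    exact Q.nq' w (mem_of_pos hs he) (by omega) x hx x' hx' h1 h2
  rcases (Q.cf hc hs hA hB hd).low3 hE nq1 nq2 with h | ⟨-, h⟩
  · exact Or.inl (cheap_of (by exact_mod_cast h))
  · right
    rcases h with h | h | h | h
    · exact Or.inl (Q3_index Q.H hs h)
    · exact Or.inl (Q3_index' Q.H hs h)
    · exact Or.inr (T3_index Q.H hs h)
    · exact Or.inr (T3_index' Q.H hs h)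

/-- weight of a pair -/
noncomputable def c3 (i : ℕ) (C : Finset P) (q : P × P) : ℤ :=
  if q.2 ∈ PN i C ∧ q.2 ≠ q.1 then 1 else 2

/-- SUMS over the cores of energy three -/
theorem K5.sum3 (X : (P → ℕ) → ℤ)
    (hX : ∀ e, Spt C e → Cheap 0 i e → X e = 0) :
    2 * ∑ e ∈ Co i K psi C 3, X e = ∑ q ∈ I3 i C, c3 i C q * X (m3 i q) +
      2 * ∑ z ∈ Z4 i C, X (mz i z) := by
  classical
  have H := Q.H
  have hir := Q.hir
  have sub1 : (I3 i C).image (m3 i) ∪ (Z4 i C).image (mz i) ⊆ Co i K psi C 3 := by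
    intro e he
    rw [mem_union, mem_image, mem_image] at he
    rcases he with ⟨q, hq, rfl⟩ | ⟨z, hz, rfl⟩
    · exact mem_Co.2 ⟨m3_sum H hq, (m3_val H hir Q.hC hq).2.2.2.2.2.2, m3_core H hq⟩
    · have := mz_val H hir Q.hC hz
      exact mem_Co.2 ⟨this.2.2.2.2.2.2.2.1, this.2.2.2.2.2.2.1, mz_core H hz⟩
  have h1 : ∑ e ∈ Co i K psi C 3, X e =
      ∑ e ∈ (I3 i C).image (m3 i) ∪ (Z4 i C).image (mz i), X e := by
    symm
    refine sum_subset sub1 ?_
    intro e he hne
    obtain ⟨g1, g2, g3⟩ := mem_Co.1 he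
    rcases Q.cls3 g3 g2 g1 with h | h
    · exact hX e g2 h
    · exfalso
      apply hne
      rw [mem_union, mem_image, mem_image]
      exact h
  have hdis : Disjoint ((I3 i C).image (m3 i)) ((Z4 i C).image (mz i)) := by
    rw [disjoint_left]
    intro e he he'
    rw [mem_image] at he he'
    obtain ⟨q, hq, rfl⟩ := he
    obtain ⟨z, hz, h⟩ := he'
    exact m3_ne_mz H hq hz h.symm
  rw [h1, sum_union hdis, mul_add]
  congr 1
  · have h2 : ∑ q ∈ I3 i C, c3 i C q * X (m3 i q) =
        ∑ e ∈ (I3 i C).image (m3 i), ∑ q ∈ (I3 i C).filter (fun q => m3 i q = e),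
          c3 i C q * X (m3 i q) :=
      (Finset.sum_fiberwise_of_maps_to (fun q hq => mem_image_of_mem _ hq) _).symm
    rw [h2, mul_sum]
    refine sum_congr rfl fun e he => ?_
    rw [mem_image] at he
    obtain ⟨q, hq, rfl⟩ := he
    by_cases hsib : q.2 ∈ PN i C ∧ q.2 ≠ q.1
    · obtain ⟨s1, s2⟩ := m3_swap H hq hsib.1 hsib.2
      have h3 : (I3 i C).filter (fun q' => m3 i q' = m3 i q) = {q, q.swap} := by
        ext q'
        rw [mem_filter, mem_insert, mem_singleton]
        constructor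
        · rintro ⟨h3, h4⟩
          rcases m3_fib H hq h3 h4 with h | ⟨h, -⟩
          · exact Or.inl h
          · exact Or.inr h
        · rintro (rfl | rfl)
          · exact ⟨hq, rfl⟩
          · exact ⟨s1, s2⟩
      have hne : q ≠ q.swap := by
        intro h
        exact hsib.2 (congrArg Prod.snd h)
      rw [h3, sum_pair hne, s2]
      have c1 : c3 i C q = 1 := by unfold c3; rw [if_pos hsib]
      have c2 : c3 i C q.swap = 1 := by
        unfold c3
        rw [if_pos]
        exact ⟨(mem_I3.1 hq).1, hsib.2.symm⟩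
      rw [c1, c2]
      ring
    · have h3 : (I3 i C).filter (fun q' => m3 i q' = m3 i q) = {q} := by
        ext q'
        rw [mem_filter, mem_singleton]
        constructor
        · rintro ⟨h3, h4⟩
          rcases m3_fib H hq h3 h4 with h | ⟨-, h⟩
          · exact h
          · exact absurd h hsib
        · rintro rfl
          exact ⟨hq, rfl⟩
      have c1 : c3 i C q = 2 := by unfold c3; rw [if_neg hsib]
      rw [h3, sum_singleton, c1]
  · rw [sum_image (fun a ha b hb h => mz_inj H ha hb h)]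

/-- SUMS over the cores of energy two -/
theorem K5.sum2 (X : (P → ℕ) → ℤ)
    (hX : ∀ e, Spt C e → Cheap 0 i e → IsCore i ∅ (ps K psi) e → ∑ x, e x = 2 → X e = 0) :
    ∑ e ∈ Co i K psi C 2, X e = ∑ p ∈ PN i C, X (on (con i p)) := by
  classical
  have H := Q.H
  have h1 : ∑ e ∈ Co i K psi C 2, X e = ∑ e ∈ (PN i C).image (fun p => on (con i p)), X e := by
    symm
    refine sum_subset ?_ ?_
    · intro e he
      rw [mem_image] at he
      obtain ⟨p, hp, rfl⟩ := he
      exact mem_Co.2 ⟨(c2_value H Q.hi Q.hi2 Q.hC hp).1, c2_spt H Q.hC hp, c2_core H hp⟩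
    · intro e he hne
      obtain ⟨g1, g2, g3⟩ := mem_Co.1 he
      rcases Q.cls2 g3 g2 g1.le with h | ⟨-, h⟩
      · exact hX e g2 h g3 g1
      · exfalso
        apply hne
        rw [mem_image]
        exact L2_index H g2 h
  rw [h1, sum_image (fun a ha b hb h => c2_inj H ha hb h)]

end

end Pool.Agent.GaussPoset.Win.W4

end

/-! From `Pool.Agent.W_448w4_h10.KV` -/

section

/-!
MP_448cb3_co, G2, case B, window `j`: contributions of the cores of energy two.  helper10.
-/

namespace Pool.Agent.GaussPoset.Win.W4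

set_option linter.unusedSectionVars false

open Finset
open Pool.Agent.GaussPoset.Win.So (IV IV_chi IV_Fe)
open Pool.Agent.GaussPoset.Win.SO (Sde Pen TD On kS tL tU LowD UppD val_gen sde_low sde_up PN vp mem_PN
  num_PN NumG con mem_con self_con con_two_low con_two_upp con_cls con_disj on con_sub on_inj sit_PD
  sit_PU con_PD con_PU PD_data PU_data vp_PD vp_PU sit_ne nL nU BL BU mem_nL mem_nU cheap_of)
open Pool.Agent.GaussPoset.Win.I2 (lS uS mem_lS mem_uS)

universe u

variable {P : Type u} [Fintype P] [PartialOrder P] [DecidableEq P] {r i : ℕ}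
variable {e f : P → ℕ} {psi : P → P} {C K : Finset P} {w v : P}

/-- DATA of the configuration of a pendant -/
theorem pd_val (H : Gr P r) (hi : 1 ≤ i) (hi2 : i + 1 ≤ r) (hC : Part (i + 1) C) {p : P}
    (hp : p ∈ PN i C) :
    AdmL i (on (con i p)) ∧ AdmU i (on (con i p)) ∧
      Disjoint (AL i (on (con i p))) (AU i (on (con i p))) ∧
      AL i (on (con i p)) ∪ AU i (on (con i p)) = sit i p ∧
      od (st i C).card 1 (tC i C (on (con i p))) ∧
      lc (st i C).card 1 (tC i C (on (con i p))) = vp i p := by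
  have hir : i ≤ r := by omega
  obtain ⟨hpC, y, hcon, hyn, hnz, hcard, hlev, hd⟩ := PN_dat H hp
  have hl : lev p ≠ i := by rcases hd with ⟨-, h, -⟩ | ⟨-, h, -⟩ <;> omega
  obtain ⟨D, D'⟩ := SO.on_dat H hir (con_cls H hl)
  have hv := (c2_value H hi hi2 hC hp).2
  have hs := c2_spt H hC hp
  have hdis : Disjoint (AL i (on (con i p))) (AU i (on (con i p))) ∧
      AL i (on (con i p)) ∪ AU i (on (con i p)) = sit i p := by
    rcases hd with ⟨-, h, -⟩ | ⟨-, h, -⟩
    · rw [D.AL_eq, D'.AU_eq, SO.BL_con_low H (by omega), SO.BU_con_low H (by omega),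
        sit_low H (show i ≤ lev p by omega)]
      exact ⟨disjoint_empty_right _, union_empty _⟩
    · rw [D.AL_eq, D'.AU_eq, SO.BL_con_upp H (by omega), SO.BU_con_upp H (by omega),
        sit_upp H (show lev p ≤ i by omega)]
      exact ⟨disjoint_empty_left _, empty_union _⟩
  refine ⟨D.adm, D'.adm, hdis.1, hdis.2, ?_, ?_⟩
  · have hch : Cheap 1 i (on (con i p)) := by
      rcases mem_PN.1 hp with ⟨-, h | h⟩
      · obtain ⟨y', g1, g2, g3, g4, g5⟩ := PD_data H h
        have e1 : nL i (con i p) = {y'} := by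
          rw [con_PD H g2 g1]
          ext x
          rw [mem_nL, mem_insert, mem_singleton]
          constructor
          · rintro ⟨rfl | rfl, hx⟩
            · omega
            · rfl
          · rintro rfl
            exact ⟨Or.inr rfl, g3⟩
        right; right; right
        rw [D.AL_eq, D'.AU_eq, D.pL_eq, SO.BL_con_low H (by omega), SO.BU_con_low H (by omega),
          ← sit_low H (show i ≤ lev p by omega), hcard, card_empty, e1, card_singleton]
        omega
      · obtain ⟨y', g1, g2, g3, g4, g5⟩ := PU_data H h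
        have e1 : nU i (con i p) = {y'} := by
          rw [con_PU H g2 g1]
          ext x
          rw [mem_nU, mem_insert, mem_singleton]
          constructor
          · rintro ⟨rfl | rfl, hx⟩
            · omega
            · rfl
          · rintro rfl
            exact ⟨Or.inr rfl, g3⟩
        right; right; right
        rw [D.AL_eq, D'.AU_eq, D'.pU_eq, SO.BL_con_upp H (by omega), SO.BU_con_upp H (by omega),
          ← sit_upp H (show lev p ≤ i by omega), hcard, card_empty, e1, card_singleton]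
        omega
    exact SO.dvd_up (SO.cheap_dvd H hC hs hch)
  · unfold lc
    rw [pow_one]
    exact hv

/-- no site has a label -/
lemma pd_site (H : Gr P r) {p : P} (hp : p ∈ PN i C) {y : P} (hy : lev y = i) :
    on (con i p) y = 0 := by
  unfold on
  rw [if_neg]
  intro h
  exact (con_cls H (num_PN H hp).ns).ns y h hy

/-- the touched elements -/
lemma pd_tch (H : Gr P r) {p x : P} (hp : p ∈ PN i C) (hx : x ∈ Tch i (on (con i p))) :
    nz i x = sit i p := by
  obtain ⟨hpC, y, hcon, hyn, hnz, hcard, hlev, hd⟩ := PN_dat H hp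
  rw [mem_Tch] at hx
  have hxy : x = y := by
    rcases hx with ⟨l1, z, hz, hz'⟩ | ⟨l1, z, hz, hz'⟩
    · have hl := lev_cov H hz
      rw [on_pos, hcon, mem_insert, mem_singleton] at hz'
      rcases hd with ⟨-, l2, l3, u1, -⟩ | ⟨-, l2, l3, u1, -⟩
      · rcases hz' with h | h
        · rw [h, ← mem_uc, u1, mem_singleton] at hz
          exact hz
        · rw [h] at hl; omega
      · rcases hz' with h | h
        · rw [h] at hl; omega
        · rw [h] at hl; omega
    · have hl := lev_cov H hz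
      rw [on_pos, hcon, mem_insert, mem_singleton] at hz'
      rcases hd with ⟨-, l2, l3, u1, -⟩ | ⟨-, l2, l3, u1, -⟩
      · rcases hz' with h | h
        · rw [h] at hl; omega
        · rw [h] at hl; omega
      · rcases hz' with h | h
        · rw [h, ← mem_dc, u1, mem_singleton] at hz
          exact hz
        · rw [h] at hl; omega
  rw [hxy, hnz]

/-- the sites of `x` and of the pendant are disjoint -/
noncomputable def Nx (i : ℕ) (x p : P) : ℤ := if Disjoint (nz i x) (sit i p) then 1 else 0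

/-- the type -/
lemma FG_pd (H : Gr P r) (hi : 1 ≤ i) (hi2 : i + 1 ≤ r) (hC : Part (i + 1) C) {p x : P}
    (hp : p ∈ PN i C) (hx : x ∈ near P i) (h2 : (nz i x).card = 2) {a : ℕ} (ha : a ≠ 0) :
    FG i (on (con i p)) x a = Nx i x p := by
  obtain ⟨-, -, -, hT, -, -⟩ := pd_val H hi hi2 hC hp
  have hall : ∀ y ∈ nz i x, on (con i p) y < a := by
    intro y hy
    rw [pd_site H hp (nz_lev H hx hy)]
    omega
  unfold FG Nx
  by_cases hd : Disjoint (nz i x) (sit i p)
  · rw [if_pos hd, if_pos]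
    exact ⟨hall, by rw [hT]; exact hd⟩
  · rw [if_neg hd, if_neg, if_neg]
    · rintro ⟨g1, -⟩
      rw [kz_eq_iff.2 hall] at g1
      omega
    · rintro ⟨-, g2⟩
      rw [hT] at g2
      exact hd g2

/-- vacuum, killed sites and pairs -/
noncomputable def Dg (i : ℕ) (K C T : Finset P) : ℤ :=
  Vc i K C + ∑ y ∈ T, dg i K C y - mm i K C T

/-- ONE LABEL on an unmatched double and one on a free near element, next to a pendant -/
theorem x_one (H : Gr P r) (hi : 1 ≤ i) (hi2 : i + 1 ≤ r) (hM : Mat P i K psi)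
    (hC : Part (i + 1) C) {p x : P} (hp : p ∈ PN i C) (hx : x ∈ near P i) (hxC : x ∈ C)
    (hxK : x ∈ K) (h2 : (nz i x).card = 2) (hT : x ∉ Tch i (on (con i p)))
    (h0 : on (con i p) x = 0) (hd : Disjoint (nz i x) (sit i p)) :
    lc (st i C).card 2 (JK i K psi C 1 (on (con i p) + Pi.single x 1)) =
      Dg i K C (sit i p ∪ nz i x) * (sg1 i x * vp i p) := by
  classical
  have hir : i ≤ r := by omega
  obtain ⟨v1, v2, v3, v4, v5, v6⟩ := pd_val H hi hi2 hC hp
  have hs := c2_spt H hC hp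
  obtain ⟨e, he⟩ : ∃ e, e = on (con i p) := ⟨_, rfl⟩
  rw [← he] at hT h0 v1 v2 v3 v4 v5 v6 hs ⊢
  have hsite : ∀ y, lev y = i → e y = 0 := fun y hy => by rw [he]; exact pd_site H hp hy
  have hall : ∀ y ∈ nz i x, e y < 1 := by
    intro y hy
    rw [hsite y (nz_lev H hx hy)]
    omega
  have hkz : kz i e x 1 = nz i x := kz_eq_iff.2 hall
  have hF : Fx i e x 1 := ⟨hall, by rw [v4]; exact hd⟩
  obtain ⟨o1, o2⟩ := val_F H hir hC hs v3 hx hxC hT h0 h2 hF v5
  -- the data of the new configuration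
  have hs' : Spt C (e + Pi.single x 1) := by
    intro y hy
    rw [Pi.add_apply, hs y hy, Pi.single_apply, if_neg, add_zero]
    rintro rfl
    exact hy hxC
  have hAA : Disjoint (AL i (e + Pi.single x 1)) (AU i (e + Pi.single x 1)) ∧
      AL i (e + Pi.single x 1) ∪ AU i (e + Pi.single x 1) = sit i p ∪ nz i x := by
    have hd' : Disjoint (nz i x) (AL i e ∪ AU i e) := by rw [v4]; exact hd
    rw [disjoint_union_right] at hd'
    rcases mem_near.1 hx with l | l
    · rw [AL_low H l h0, AU_low H l h0, hkz]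
      refine ⟨disjoint_union_left.2 ⟨v3, hd'.2⟩, ?_⟩
      rw [← v4]
      ext y
      simp only [mem_union]
      tauto
    · rw [AL_upp H l h0, AU_upp H l h0, hkz]
      refine ⟨disjoint_union_right.2 ⟨v3, hd'.1.symm⟩, ?_⟩
      rw [← v4]
      ext y
      simp only [mem_union]
      tauto
  have hRK : RK i K psi C (e + Pi.single x 1) = RK i K psi C e := RK_add H (single_far hx 1)
  have h0' : ∀ y ∈ RK i K psi C (e + Pi.single x 1), (e + Pi.single x 1 : P → ℕ) y = 0 := by
    intro y hy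
    rw [hRK] at hy
    have hyx : y ≠ x := by
      rintro rfl
      exact notMem_RK hxK hy
    have hc : IsCore i K psi e := by rw [he]; exact c2_core H hp
    rw [Pi.add_apply, Pi.single_apply, if_neg hyx, add_zero]
    exact hc y (mem_RK.1 hy).1
  have hz' : ∀ y, lev y = i → (e + Pi.single x 1 : P → ℕ) y = 0 := by
    intro y hy
    rw [Pi.add_apply, hsite y hy, single_far hx 1 y, add_zero]
    rw [mem_near]
    omega
  rw [JK_one H hi hi2 hM hC hs' h0' hAA.1 o1, om_killed H hi hi2 hM hC hz', hAA.2, o2, v6]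
  · unfold Dg
    ring
  · intro y hy hny
    rw [hRK] at hny
    obtain ⟨g1, g2, g3⟩ := mem_N0.1 hy
    rw [hAA.2]
    have h3 : y ∈ Tch i e ∨ (y ∈ dbL P i ∪ dbU P i ∧ psi y ∈ Tch i e) := by
      by_contra hcon
      rw [not_or] at hcon
      exact hny (mem_RK.2 ⟨mem_Rst.2 ⟨g1, g3, hcon.1, hcon.2⟩, g2⟩)
    have hcard := (PN_dat H hp).2.choose_spec.2.2.2.1
    rcases h3 with h3 | ⟨h3, h4⟩
    · rw [he] at h3
      have h5 := pd_tch H hp h3
      refine ⟨?_, ?_⟩
      · by_contra hnd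
        rw [mem_union, not_or] at hnd
        have := nz_one H hi hi2 g1 hnd.1 hnd.2
        rw [h5] at this
        omega
      · rw [h5]
        exact subset_union_left
    · rw [he] at h4
      have h5 := pd_tch H hp h4
      obtain ⟨-, -, h6, -, -⟩ := psi_N0 H hM hC hy h3
      refine ⟨h3, ?_⟩
      rw [← h6, h5]
      exact subset_union_left

section

variable (Q : K5 r i K psi C w v)
include Q

/-- not of type F: no order two -/
lemma K5.pd_N_w {p : P} (hp : p ∈ PN i C) (h2 : (nz i w).card = 2)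
    (hd : ¬ Disjoint (nz i w) (sit i p)) (m : ℕ) :
    lc (st i C).card 2 (Jx i K psi C w v (on (con i p)) 1 0 m) = 0 := by
  have H := Q.H
  obtain ⟨v1, v2, v3, v4, v5, v6⟩ := pd_val H Q.hi Q.hi2 Q.hC hp
  have hs := c2_spt H Q.hC hp
  have hc : IsCore i ∅ (ps K psi) (on (con i p)) := c2_core H hp
  have hk : Cheap 1 i (on (con i p)) :=
    Q.cheap1 hc hs (by rw [(c2_value H Q.hi Q.hi2 Q.hC hp).1]; omega)
  unfold Jx
  split_ifs with h
  · obtain ⟨hw, hv⟩ := core_wv Q hc
    rw [JK_add2 Q h.1 h.2 hw hv]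
    have hall : ∀ y ∈ nz i w, on (con i p) y < 1 := by
      intro y hy
      rw [pd_site H hp (nz_lev H Q.nw hy)]
      omega
    have hR := Rk_N H Q.nw (e := on (con i p)) (a := 1) (by omega) (fun _ hF => by
      have := hF.2
      rw [v4] at this
      exact hd this) (fun hG => by
      have := hG.1
      rw [kz_eq_iff.2 hall] at this
      omega) hk
    have h1 := Rk_mul hR (Rk_mul (Rk_wt (e := on (con i p)) Q.H Q.hi Q.hi2 Q.nv 0)
      (GK_Rk Q.H Q.hi Q.hi2 Q.hM Q.hC (on (con i p)) m))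
    rw [ind_zero, add_zero, add_zero] at h1
    have h3 : od (st i C).card 1 (IV (st i C) (fun S => Fe i (on (con i p)) S *
        (wt i (on (con i p)) w 1 S * (wt i (on (con i p)) v 0 S *
          GK i K psi C (on (con i p)) m S)))) := by
      apply od_of_Rk
      refine Rk_congr (fun S _ => ?_) h1
      ring
    exact lc_of_od h3
  · exact lc_zero _ _

lemma K5.pd_N_v {p : P} (hp : p ∈ PN i C) (h2 : (nz i v).card = 2)
    (hd : ¬ Disjoint (nz i v) (sit i p)) (m : ℕ) :
    lc (st i C).card 2 (Jx i K psi C w v (on (con i p)) 0 1 m) = 0 := by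
  have H := Q.H
  obtain ⟨v1, v2, v3, v4, v5, v6⟩ := pd_val H Q.hi Q.hi2 Q.hC hp
  have hs := c2_spt H Q.hC hp
  have hc : IsCore i ∅ (ps K psi) (on (con i p)) := c2_core H hp
  have hk : Cheap 1 i (on (con i p)) :=
    Q.cheap1 hc hs (by rw [(c2_value H Q.hi Q.hi2 Q.hC hp).1]; omega)
  unfold Jx
  split_ifs with h
  · obtain ⟨hw, hv⟩ := core_wv Q hc
    rw [JK_add2 Q h.1 h.2 hw hv]
    have hall : ∀ y ∈ nz i v, on (con i p) y < 1 := by
      intro y hy
      rw [pd_site H hp (nz_lev H Q.nv hy)]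
      omega
    have hR := Rk_N H Q.nv (e := on (con i p)) (a := 1) (by omega) (fun _ hF => by
      have := hF.2
      rw [v4] at this
      exact hd this) (fun hG => by
      have := hG.1
      rw [kz_eq_iff.2 hall] at this
      omega) hk
    have h1 := Rk_mul hR (Rk_mul (Rk_wt (e := on (con i p)) Q.H Q.hi Q.hi2 Q.nw 0)
      (GK_Rk Q.H Q.hi Q.hi2 Q.hM Q.hC (on (con i p)) m))
    rw [ind_zero, add_zero, add_zero] at h1
    have h3 : od (st i C).card 1 (IV (st i C) (fun S => Fe i (on (con i p)) S *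
        (wt i (on (con i p)) w 0 S * (wt i (on (con i p)) v 1 S *
          GK i K psi C (on (con i p)) m S)))) := by
      apply od_of_Rk
      refine Rk_congr (fun S _ => ?_) h1
      ring
    exact lc_of_od h3
  · exact lc_zero _ _

/-- CONTRIBUTION of a core of energy two -/
theorem K5.L2_val (hw2 : (nz i w).card = 2) (hv2 : (nz i v).card = 2) {q : P} (hq : q ∈ uc w)
    (hq' : q ∈ dc v) {p : P} (hp : p ∈ PN i C) :
    lc (st i C).card 2 (Jx i K psi C w v (on (con i p)) 0 1 1) +
      lc (st i C).card 2 (Jx i K psi C w v (on (con i p)) 0 2 0) +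
      lc (st i C).card 2 (Jx i K psi C w v (on (con i p)) 1 0 1) +
      lc (st i C).card 2 (Jx i K psi C w v (on (con i p)) 2 0 0) +
      lc (st i C).card 2 (Jx i K psi C w v (on (con i p)) 1 1 0) =
    vp i p * (Nx i w p * (1 + Dg i K C (sit i p ∪ nz i w)) -
      Nx i v p * (1 + Dg i K C (sit i p ∪ nz i v))) := by
  have H := Q.H
  obtain ⟨v1, v2, v3, v4, v5, v6⟩ := pd_val H Q.hi Q.hi2 Q.hC hp
  have hs := c2_spt H Q.hC hp
  have hc : IsCore i ∅ (ps K psi) (on (con i p)) := c2_core H hp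
  have hsite : ∀ y, lev y = i → on (con i p) y = 0 := fun y hy => pd_site H hp hy
  have lq : lev q = i := by
    have := lev_uc H hq
    have := Q.lw0
    omega
  have t1 := Q.val_w hc hs hw2 (two_ne_zero) (Or.inr hsite) v5
  have t2 := Q.val_v hc hs hv2 (two_ne_zero) (Or.inr hsite) v5
  rw [FG_pd H Q.hi Q.hi2 Q.hC hp Q.nw hw2 two_ne_zero, v6] at t1
  rw [FG_pd H Q.hi Q.hi2 Q.hC hp Q.nv hv2 two_ne_zero, v6] at t2
  have t3 : lc (st i C).card 2 (Jx i K psi C w v (on (con i p)) 1 1 0) = 0 := by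
    rw [Q.Jx_both hc hq hq' (hsite q lq) one_ne_zero one_ne_zero, lc_zero]
  have t4 : lc (st i C).card 2 (Jx i K psi C w v (on (con i p)) 1 0 1) =
      Nx i w p * (Dg i K C (sit i p ∪ nz i w) * vp i p) := by
    unfold Nx
    by_cases hd : Disjoint (nz i w) (sit i p)
    · have hT : w ∉ Tch i (on (con i p)) := by
        intro h
        have h5 := pd_tch H hp h
        rw [h5, disjoint_self] at hd
        have := (PN_dat H hp).2.choose_spec.2.2.2.1
        rw [hd] at this
        simp at this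
      have h0 := (core_wv Q hc).1 hT
      rw [if_pos hd, one_mul]
      unfold Jx
      rw [if_pos ⟨Or.inr hT, Or.inl rfl⟩, Pi.single_zero, add_zero,
        x_one H Q.hi Q.hi2 Q.hM Q.hC hp Q.nw Q.wC Q.wK hw2 hT h0 hd]
      unfold sg1
      rw [if_pos Q.lw0, one_mul]
    · rw [if_neg hd, zero_mul]
      exact Q.pd_N_w hp hw2 hd 1
  have t5 : lc (st i C).card 2 (Jx i K psi C w v (on (con i p)) 0 1 1) =
      - Nx i v p * (Dg i K C (sit i p ∪ nz i v) * vp i p) := by
    unfold Nx
    by_cases hd : Disjoint (nz i v) (sit i p)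
    · have hT : v ∉ Tch i (on (con i p)) := by
        intro h
        have h5 := pd_tch H hp h
        rw [h5, disjoint_self] at hd
        have := (PN_dat H hp).2.choose_spec.2.2.2.1
        rw [hd] at this
        simp at this
      have h0 := (core_wv Q hc).2 hT
      rw [if_pos hd]
      unfold Jx
      rw [if_pos ⟨Or.inl rfl, Or.inr hT⟩, Pi.single_zero, add_zero,
        x_one H Q.hi Q.hi2 Q.hM Q.hC hp Q.nv Q.vC Q.vK hv2 hT h0 hd]
      unfold sg1
      rw [if_neg (by have := Q.lv0; omega)]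
      ring
    · rw [if_neg hd, neg_zero, zero_mul]
      exact Q.pd_N_v hp hv2 hd 1
  rw [t3, t4, t5]
  have t1' : lc (st i C).card 2 (Jx i K psi C w v (on (con i p)) 2 0 0) = Nx i w p * vp i p := t1
  have t2' : lc (st i C).card 2 (Jx i K psi C w v (on (con i p)) 0 2 0) =
    - Nx i v p * vp i p := t2
  rw [t1', t2']
  ring

end

end Pool.Agent.GaussPoset.Win.W4

end

/-! From `Pool.Agent.W_448w4_h10.KW` -/

section

/-!
MP_448cb3_co, G2, case B, window `j`: configurations with labels on the sites, contributions with both unmatched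
doubles.  helper10.
-/

namespace Pool.Agent.GaussPoset.Win.W4

set_option linter.unusedSectionVars false

open Finset
open Pool.Agent.GaussPoset.Win.So (IV IV_chi IV_Fe)
open Pool.Agent.GaussPoset.Win.SO (LowD UppD val_gen PN vp con on)

universe u

variable {P : Type u} [Fintype P] [PartialOrder P] [DecidableEq P] {r i : ℕ}
variable {e f : P → ℕ} {psi : P → P} {C K : Finset P} {w v : P}

/-- ONE LABEL on an unmatched double and one on a free near element, general form -/
theorem x_one_gen (H : Gr P r) (hi : 1 ≤ i) (hi2 : i + 1 ≤ r) (hM : Mat P i K psi)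
    (hC : Part (i + 1) C) (hs : Spt C e) (v3 : Disjoint (AL i e) (AU i e)) {k : ℕ}
    (v5 : od (st i C).card k (tC i C e)) (hsite : ∀ y, lev y = i → e y = 0)
    (hc : IsCore i K psi e) (hR : ∀ y ∈ N0 i K C, y ∉ RK i K psi C e → y ∈ dbL P i ∪ dbU P i ∧
      nz i y ⊆ AL i e ∪ AU i e)
    {x : P} (hx : x ∈ near P i) (hxC : x ∈ C)
    (hxK : x ∈ K) (h2 : (nz i x).card = 2) (hT : x ∉ Tch i e)
    (h0 : e x = 0) (hd : Disjoint (nz i x) (AL i e ∪ AU i e)) :
    lc (st i C).card (k + 1) (JK i K psi C 1 (e + Pi.single x 1)) =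
      Dg i K C (AL i e ∪ AU i e ∪ nz i x) * (sg1 i x * lc (st i C).card k (tC i C e)) := by
  classical
  have hir : i ≤ r := by omega
  have hall : ∀ y ∈ nz i x, e y < 1 := by
    intro y hy
    rw [hsite y (nz_lev H hx hy)]
    omega
  have hkz : kz i e x 1 = nz i x := kz_eq_iff.2 hall
  have hF : Fx i e x 1 := ⟨hall, hd⟩
  obtain ⟨o1, o2⟩ := val_F H hir hC hs v3 hx hxC hT h0 h2 hF v5
  have hs' : Spt C (e + Pi.single x 1) := by
    intro y hy
    rw [Pi.add_apply, hs y hy, Pi.single_apply, if_neg, add_zero]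
    rintro rfl
    exact hy hxC
  have hAA : Disjoint (AL i (e + Pi.single x 1)) (AU i (e + Pi.single x 1)) ∧
      AL i (e + Pi.single x 1) ∪ AU i (e + Pi.single x 1) = AL i e ∪ AU i e ∪ nz i x := by
    have hd' := hd
    rw [disjoint_union_right] at hd'
    rcases mem_near.1 hx with l | l
    · rw [AL_low H l h0, AU_low H l h0, hkz]
      refine ⟨disjoint_union_left.2 ⟨v3, hd'.2⟩, ?_⟩
      ext y
      simp only [mem_union]
      tauto
    · rw [AL_upp H l h0, AU_upp H l h0, hkz]
      refine ⟨disjoint_union_right.2 ⟨v3, hd'.1.symm⟩, ?_⟩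
      ext y
      simp only [mem_union]
      tauto
  have hRK : RK i K psi C (e + Pi.single x 1) = RK i K psi C e := RK_add H (single_far hx 1)
  have h0' : ∀ y ∈ RK i K psi C (e + Pi.single x 1), (e + Pi.single x 1 : P → ℕ) y = 0 := by
    intro y hy
    rw [hRK] at hy
    have hyx : y ≠ x := by
      rintro rfl
      exact notMem_RK hxK hy
    rw [Pi.add_apply, Pi.single_apply, if_neg hyx, add_zero]
    exact hc y (mem_RK.1 hy).1
  have hz' : ∀ y, lev y = i → (e + Pi.single x 1 : P → ℕ) y = 0 := by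
    intro y hy
    rw [Pi.add_apply, hsite y hy, single_far hx 1 y, add_zero]
    rw [mem_near]
    omega
  rw [JK_one H hi hi2 hM hC hs' h0' hAA.1 o1, om_killed H hi hi2 hM hC hz', hAA.2, o2]
  · rfl
  · intro y hy hny
    rw [hRK] at hny
    rw [hAA.2]
    obtain ⟨g1, g2⟩ := hR y hy hny
    exact ⟨g1, g2.trans subset_union_left⟩

/-! ### configurations with labels on the sites only -/

/-- labels on the sites only -/
def Sc (i : ℕ) (e : P → ℕ) : Prop := ∀ x, lev x ≠ i → e x = 0

lemma Sc.tch (H : Gr P r) (h : Sc i e) : Tch i e = ∅ := by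
  rw [eq_empty_iff_forall_notMem]
  intro x hx
  rw [mem_Tch] at hx
  rcases hx with ⟨l1, z, hz, hz'⟩ | ⟨l1, z, hz, hz'⟩
  · have hl := lev_cov H hz
    have := h z (by omega)
    omega
  · have hl := lev_cov H hz
    have := h z (by omega)
    omega

lemma Sc.core (H : Gr P r) (h : Sc i e) : IsCore i K psi e := by
  intro x hx
  have := (mem_near.1 (mem_Rst.1 hx).1)
  exact h x (by omega)

lemma Sc.RK (H : Gr P r) (h : Sc i e) : N0 i K C ⊆ RK i K psi C e := by
  intro x hx
  obtain ⟨h1, h2, h3⟩ := mem_N0.1 hx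
  refine mem_RK.2 ⟨mem_Rst.2 ⟨h1, h3, ?_, ?_⟩, h2⟩
  · rw [h.tch H]; exact notMem_empty x
  · rintro ⟨-, h4⟩
    rw [h.tch H] at h4
    exact notMem_empty _ h4

/-- VALUE of a configuration with labels on the sites only -/
lemma Sc.val (H : Gr P r) (hi : 1 ≤ i) (hi2 : i + 1 ≤ r) (h : Sc i e) :
    AdmL i e ∧ AdmU i e ∧ AL i e = ∅ ∧ AU i e = ∅ ∧ od (st i C).card 0 (tC i C e) ∧
      lc (st i C).card 0 (tC i C e) = 1 := by
  have hir : i ≤ r := by omega
  have D : LowD i e (∅ : Finset P) ∅ ∅ := SO.low_none H fun z hz => h z (by omega)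
  have D' : UppD i e (∅ : Finset P) ∅ ∅ := SO.upp_none H hir fun z hz => h z (by omega)
  have e1 := D.AL_eq
  have e2 := D'.AU_eq
  have ht : tC i C e = dd ^ (st i C).card := by
    unfold tC cw
    rw [e1, e2, if_pos (disjoint_empty_left _), if_pos ⟨D.adm, D'.adm⟩, D.aL_eq, D'.aU_eq,
      D.pL_eq, D'.pU_eq, card_empty]
    simp
  refine ⟨D.adm, D'.adm, e1, e2, ?_, ?_⟩
  · rw [ht]
    unfold od
    rw [pow_zero, one_mul]
  · rw [ht]
    unfold lc dd
    rw [pow_zero, one_mul, PowerSeries.coeff_X_pow_self]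

lemma Sc.FG (H : Gr P r) (hi : 1 ≤ i) (hi2 : i + 1 ≤ r) (h : Sc i e) {x a b : P}
    (hab : a ≠ b) (hn : nz i x = {a, b}) {m : ℕ} :
    FG i e x m = if e a < m ∧ e b < m then 1 else if e a < m ∨ e b < m then -1 else 0 := by
  obtain ⟨-, -, h1, h2, -, -⟩ := h.val (C := ∅) H hi hi2
  have hc2 : (nz i x).card = 2 := by rw [hn, card_pair hab]
  unfold W4.FG
  have hF : Fx i e x m ↔ e a < m ∧ e b < m := by
    unfold Fx
    rw [h1, h2, hn]
    constructor
    · rintro ⟨g, -⟩
      exact ⟨g a (by simp), g b (by simp)⟩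
    · rintro ⟨g1, g2⟩
      refine ⟨fun y hy => ?_, ?_⟩
      · rw [mem_insert, mem_singleton] at hy
        rcases hy with rfl | rfl <;> assumption
      · rw [union_empty]
        exact disjoint_empty_right _
  by_cases hab2 : e a < m ∧ e b < m
  · rw [if_pos (hF.2 hab2), if_pos hab2]
  · rw [if_neg (fun h => hab2 (hF.1 h)), if_neg hab2]
    have hG : Gx i e x m ↔ e a < m ∨ e b < m := by
      unfold Gx
      rw [h1, h2]
      constructor
      · rintro ⟨g1, -, -⟩
        obtain ⟨y, hy⟩ := card_eq_one.1 g1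
        have hy1 : y ∈ kz i e x m := by rw [hy]; exact mem_singleton_self y
        rw [mem_kz, hn, mem_insert, mem_singleton] at hy1
        rcases hy1 with ⟨rfl | rfl, g⟩
        · exact Or.inl g
        · exact Or.inr g
      · intro g
        refine ⟨?_, hc2, by rw [union_empty]; exact disjoint_empty_right _⟩
        rcases g with g | g
        · have hb : ¬ e b < m := fun hb => hab2 ⟨g, hb⟩
          have : kz i e x m = {a} := by
            ext y
            rw [mem_kz, hn, mem_insert, mem_singleton, mem_singleton]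
            constructor
            · rintro ⟨rfl | rfl, g'⟩
              · rfl
              · exact absurd g' hb
            · rintro rfl
              exact ⟨Or.inl rfl, g⟩
          rw [this, card_singleton]
        · have ha : ¬ e a < m := fun ha => hab2 ⟨ha, g⟩
          have : kz i e x m = {b} := by
            ext y
            rw [mem_kz, hn, mem_insert, mem_singleton]
            constructor
            · rintro ⟨rfl | rfl, g'⟩
              · exact absurd g' ha
              · rfl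
            · rintro rfl
              exact ⟨Or.inr rfl, g⟩
          rw [this, card_singleton]
    by_cases hor : e a < m ∨ e b < m
    · rw [if_pos (hG.2 hor), if_pos hor]
    · rw [if_neg (fun h => hor (hG.1 h)), if_neg hor]

/-- the cores of energy zero -/
lemma Co_zero (H : Gr P r) : Co i K psi C 0 = {0} := by
  ext e
  rw [mem_Co, mem_singleton]
  constructor
  · rintro ⟨h1, -, -⟩
    rw [sum_eq_zero_iff] at h1
    funext x
    exact h1 x (mem_univ x)
  · rintro rfl
    refine ⟨by simp, fun x _ => rfl, ?_⟩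
    intro x _
    rfl

section

variable (Q : K5 r i K psi C w v) {p q s : P} (hw : uc w = {p, q}) (hv : dc v = {q, s})
  (hpq : p ≠ q) (hqs : q ≠ s) (hps : p ≠ s)
include Q hw hv hpq hqs hps

lemma K5.lpq : lev p = i ∧ lev q = i ∧ lev s = i := by
  have h1 := lev_uc Q.H (x := w) (v := p) (by rw [hw]; simp)
  have h2 := lev_uc Q.H (x := w) (v := q) (by rw [hw]; simp)
  have h3 := lev_dc Q.H (x := v) (v := s) (by rw [hv]; simp)
  have := Q.lw0
  have := Q.lv0
  omega

lemma K5.nzw : nz i w = {p, q} := by rw [nz_low Q.lw0, hw]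

lemma K5.nzv : nz i v = {q, s} := by rw [nz_upp Q.lv0, hv]

lemma K5.memC : p ∈ C ∧ q ∈ C ∧ s ∈ C := by
  refine ⟨Q.hC.up Q.wC (mem_uc.1 (by rw [hw]; simp)), Q.hC.up Q.wC (mem_uc.1 (by rw [hw]; simp)),
    Q.hC.dn Q.vC (by have := Q.lv0; omega) (mem_dc.1 (by rw [hv]; simp))⟩

/-- after a label one on `w`: the configuration -/
lemma K5.step_w (hS : Sc i e) (hs : Spt C e) (hq : 1 ≤ e q) {a : ℕ} :
    Spt C (e + Pi.single w a) ∧ w ∉ Tch i e ∧ e w = 0 ∧ v ∉ Tch i (e + Pi.single w a) ∧
      (e + Pi.single w a : P → ℕ) v = 0 ∧ AL i (e + Pi.single w a) = kz i e w a ∧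
      AU i (e + Pi.single w a) = ∅ ∧ (∀ b, kz i (e + Pi.single w a) v b = kz i e v b) := by
  obtain ⟨l1, l2, l3⟩ := Q.lpq hw hv hpq hqs hps
  obtain ⟨-, -, h1, h2, -, -⟩ := hS.val (C := C) Q.H Q.hi Q.hi2
  have hw0 : e w = 0 := hS w (by have := Q.lw0; omega)
  have hv0 : e v = 0 := hS v (by have := Q.lv0; omega)
  refine ⟨?_, ?_, hw0, ?_, ?_, ?_, ?_, ?_⟩
  · intro y hy
    rw [Pi.add_apply, hs y hy, Pi.single_apply, if_neg, add_zero]
    rintro rfl
    exact hy Q.wC
  · rw [hS.tch Q.H]; exact notMem_empty w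
  · rw [Tch_add Q.H (single_far Q.nw a), hS.tch Q.H]; exact notMem_empty v
  · rw [Pi.add_apply, hv0, Pi.single_apply, if_neg Q.ne.symm, add_zero]
  · rw [AL_low Q.H Q.lw0 hw0, h1, empty_union]
  · rw [AU_low Q.H Q.lw0 hw0, h2]
  · intro b
    exact kz_add Q.H Q.nw Q.nv

/-- label one on `w` and on `v`, labels on the sites -/
theorem K5.both_11 (hS : Sc i e) (hs : Spt C e) (hq : 1 ≤ e q) :
    od (st i C).card 2 (tC i C (e + Pi.single w 1 + Pi.single v 1)) ∧
    lc (st i C).card 2 (tC i C (e + Pi.single w 1 + Pi.single v 1)) =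
      if e p = 0 ∧ e s = 0 then -1 else 0 := by
  have H := Q.H
  have hir := Q.hir
  obtain ⟨l1, l2, l3⟩ := Q.lpq hw hv hpq hqs hps
  obtain ⟨-, -, h1, h2, o0, c0⟩ := hS.val (C := C) Q.H Q.hi Q.hi2
  obtain ⟨s1, s2, s3, s4, s5, s6, s7, s8⟩ := Q.step_w hw hv hpq hqs hps hS hs hq (a := 1)
  have nw := Q.nzw hw hv hpq hqs hps
  have nv := Q.nzv hw hv hpq hqs hps
  have kw : kz i e w 1 = if e p = 0 then {p} else ∅ := by
    ext y
    rw [mem_kz, nw, mem_insert, mem_singleton]
    split_ifs with h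
    · rw [mem_singleton]
      constructor
      · rintro ⟨rfl | rfl, g⟩
        · rfl
        · omega
      · rintro rfl
        exact ⟨Or.inl rfl, by omega⟩
    · constructor
      · rintro ⟨rfl | rfl, g⟩ <;> omega
      · intro g
        exact absurd g (notMem_empty y)
  have kv : kz i e v 1 = if e s = 0 then {s} else ∅ := by
    ext y
    rw [mem_kz, nv, mem_insert, mem_singleton]
    split_ifs with h
    · rw [mem_singleton]
      constructor
      · rintro ⟨rfl | rfl, g⟩
        · omega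
        · rfl
      · rintro rfl
        exact ⟨Or.inr rfl, by omega⟩
    · constructor
      · rintro ⟨rfl | rfl, g⟩ <;> omega
      · intro g
        exact absurd g (notMem_empty y)
  have cw2 : (nz i w).card = 2 := by rw [nw, card_pair hpq]
  have cv2 : (nz i v).card = 2 := by rw [nv, card_pair hqs]
  have hdis : Disjoint (AL i e) (AU i e) := by rw [h1]; exact disjoint_empty_left _
  have hdis1 : Disjoint (AL i (e + Pi.single w 1)) (AU i (e + Pi.single w 1)) := by
    rw [s7]; exact disjoint_empty_right _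
  have sgw : sg1 i w = 1 := by unfold sg1; rw [if_pos Q.lw0]
  have sgv : sg1 i v = -1 := by unfold sg1; rw [if_neg (by have := Q.lv0; omega)]
  by_cases hp0 : e p = 0
  · rw [if_pos hp0] at kw
    have hG : Gx i e w 1 := ⟨by rw [kw, card_singleton], cw2, by
      rw [h1, h2, union_empty]; exact disjoint_empty_right _⟩
    obtain ⟨o1, c1⟩ := val_G H hir Q.hC hs hdis Q.nw Q.wC s2 s3 hG o0
    rw [sgw, c0] at c1
    by_cases hs0 : e s = 0
    · rw [if_pos hs0] at kv
      have hG2 : Gx i (e + Pi.single w 1) v 1 := by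
        refine ⟨by rw [s8, kv, card_singleton], cv2, ?_⟩
        rw [s8, kv, s6, s7, kw, union_empty, disjoint_singleton]
        exact hps.symm
      obtain ⟨o2, c2⟩ := val_G H hir Q.hC s1 hdis1 Q.nv Q.vC s4 s5 hG2 o1
      refine ⟨o2, ?_⟩
      rw [if_pos ⟨hp0, hs0⟩, c2, c1, sgv]
      norm_num
    · rw [if_neg hs0] at kv
      have o2 := val_N H hir Q.hC s1 hdis1 Q.nv Q.vC s4 s5 (a := 1) (by omega)
        (fun _ hF => by
          have := kz_eq_iff.2 hF.1
          rw [s8, kv] at this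
          rw [← this] at cv2
          simp at cv2)
        (fun hG => by
          have := hG.1
          rw [s8, kv] at this
          simp at this) o1
      refine ⟨od_succ o2, ?_⟩
      rw [if_neg (fun h => hs0 h.2)]
      exact lc_of_od o2
  · rw [if_neg hp0] at kw
    have o1 := val_N H hir Q.hC hs hdis Q.nw Q.wC s2 s3 (a := 1) (by omega)
        (fun _ hF => by
          have := kz_eq_iff.2 hF.1
          rw [kw] at this
          rw [← this] at cw2
          simp at cw2)
        (fun hG => by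
          have := hG.1
          rw [kw] at this
          simp at this) o0
    rw [if_neg (fun h => hp0 h.1)]
    have o2 : od (st i C).card 1 (tC i C (e + Pi.single w 1 + Pi.single v 1)) := by
      by_cases hs0 : e s = 0
      · rw [if_pos hs0] at kv
        have hG2 : Gx i (e + Pi.single w 1) v 1 := by
          refine ⟨by rw [s8, kv, card_singleton], cv2, ?_⟩
          rw [s8, kv, s6, s7, kw, union_empty]
          exact disjoint_empty_right _
        exact (val_G H hir Q.hC s1 hdis1 Q.nv Q.vC s4 s5 hG2 o1).1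
      · rw [if_neg hs0] at kv
        exact od_succ (val_N H hir Q.hC s1 hdis1 Q.nv Q.vC s4 s5 (a := 1) (by omega)
          (fun _ hF => by
            have := kz_eq_iff.2 hF.1
            rw [s8, kv] at this
            rw [← this] at cv2
            simp at cv2)
          (fun hG => by
            have := hG.1
            rw [s8, kv] at this
            simp at this) o1)
    exact ⟨od_succ o2, lc_of_od o2⟩

end

end Pool.Agent.GaussPoset.Win.W4

end
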