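import Mathlib
import Pool.Agent.W_448zz_h61.Ns
import Pool.Agent.W_448zz_h61.M157

/-! From `Pool.Agent.W_448w4_h10.KH` -/

section

/-!
MP_448cb3_co, G2, case B, window `j`: the quadratic form of a natural part in the coefficients (2,4), (1,2).
helper10.
-/

namespace Pool.Agent.GaussPoset.Win.W4

set_option linter.unusedSectionVars false

open Finset
open Pool.Agent.GaussPoset.Win.SO (PN vp mem_PN num_PN)

universe u

variable {P : Type u} [Fintype P] [PartialOrder P] [DecidableEq P] {r i : ℕ}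
variable {e f : P → ℕ} {psi : P → P} {C K : Finset P}

open Classical in
/-- ordered pairs of pendants with a common site -/
noncomputable def M4 (i : ℕ) (C : Finset P) : Finset (P × P) :=
  (PN i C ×ˢ PN i C).filter (fun q => ¬ Disjoint (sit i q.1) (sit i q.2))

lemma pairs_split (i : ℕ) (C : Finset P) :
    (∑ p ∈ PN i C, vp i p) ^ 2 = ∑ q ∈ P4 i C, vp i q.1 * vp i q.2 +
      ∑ q ∈ M4 i C, vp i q.1 * vp i q.2 := by
  classical
  rw [pow_two, Finset.sum_mul_sum, ← Finset.sum_product' (f := fun a b => vp i a * vp i b)]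
  unfold P4 M4
  exact (Finset.sum_filter_add_sum_filter_not _ _ _).symm

/-- THE FORM of a natural part -/
theorem Nat4.form (Q : Nat4 r i K psi C) (hb : 1 ≤ (st i C).card) :
    I2.al 2 (st i C).card (ZS i C) ^ 2 - 2 * I2.be 4 (st i C).card (ZS i C) =
      ∑ q ∈ M4 i C, vp i q.1 * vp i q.2 + 2 * ((Z4 i C).card - (T4 i C).card : ℤ) := by
  rw [Q.be4 hb, Q.al2, pairs_split]
  ring

end Pool.Agent.GaussPoset.Win.W4

end

/-! From `Pool.Agent.W_448w4_h10.KU` -/

section

/-!
MP_448cb3_co, G2, case B, window `j`: the natural cores of energy four.  helper10.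
-/

namespace Pool.Agent.GaussPoset.Win.W4

set_option linter.unusedSectionVars false

open Finset
open Pool.Agent.GaussPoset.Win.SO (PN vp con con_sub on cheap_coeff)

universe u

variable {P : Type u} [Fintype P] [PartialOrder P] [DecidableEq P] {r i : ℕ}
variable {e f : P → ℕ} {psi : P → P} {C K : Finset P} {w v : P}

/-- THE NATURAL CORES OF ENERGY FOUR -/
theorem K5.sum4 (Q : K5 r i K psi C w v) (hb : 1 ≤ (st i C).card) :
    2 * ∑ e ∈ Co i K psi C 4, lc (st i C).card 2 (tC i C e) =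
      ∑ q ∈ P4 i C, vp i q.1 * vp i q.2 - 2 * ((Z4 i C).card - (T4 i C).card : ℤ) := by
  classical
  have H := Q.H
  have hir := Q.hir
  have h1 : ∑ e ∈ Co i K psi C 4, lc (st i C).card 2 (tC i C e) =
      ∑ e ∈ (P4 i C).image (c4 i) ∪ ((Z4 i C).image (cA i) ∪ (T4 i C).image (cB i)),
        lc (st i C).card 2 (tC i C e) := by
    symm
    refine sum_subset ?_ ?_
    · intro e he
      simp only [mem_union, mem_image] at he
      rcases he with ⟨q, hq, rfl⟩ | ⟨z, hz, rfl⟩ | ⟨z, hz, rfl⟩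
      · have hv := c4_value H Q.hi Q.hi2 Q.hC hq
        exact mem_Co.2 ⟨hv.1, c4_spt H Q.hC hq, c4_core H hq⟩
      · have hv := cA_value H hir Q.hC hz
        exact mem_Co.2 ⟨hv.1, cA_spt H Q.hC hz, cA_core H hz⟩
      · have hv := cB_value H hir Q.hC hz
        exact mem_Co.2 ⟨hv.1, cB_spt H Q.hC hz, cB_core H hz⟩
    · intro e he hne
      obtain ⟨g1, g2, g3⟩ := mem_Co.1 he
      rcases Q.cls g3 g2 g1.le with h | ⟨-, h⟩
      · exact cheap_coeff H Q.hC g2 h hb
      · exfalso
        apply hne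
        simp only [mem_union, mem_image]
        rcases h with h | h | h | h | h | h | h
        · exact Or.inl (PP_index H g2 h)
        · exact Or.inl (PP_index' H g2 h)
        · exact Or.inl (PQ_index H g2 h)
        · exact Or.inr (Or.inl (A4_index H g2 h))
        · exact Or.inr (Or.inl (A4_index' H g2 h))
        · exact Or.inr (Or.inr (B4_index H g2 h))
        · exact Or.inr (Or.inr (B4_index' H g2 h))
  rw [h1, sum_union, sum_union]
  rotate_left
  · rw [disjoint_left]
    intro e he he'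
    rw [mem_image] at he he'
    obtain ⟨z, hz, rfl⟩ := he
    obtain ⟨z', hz', h⟩ := he'
    have h2 := cA_two (i := i) z
    rw [← h] at h2
    have h3 := on_le_one (con i z' ∪ cS i z') z
    unfold cB at h2
    omega
  · rw [disjoint_union_right]
    constructor
    · rw [disjoint_left]
      intro e he he'
      rw [mem_image] at he he'
      obtain ⟨q, hq, rfl⟩ := he
      obtain ⟨z, hz, h⟩ := he'
      have h2 := cA_two (i := i) z
      rw [h] at h2
      have h3 := on_le_one (con i q.1 ∪ con i q.2) z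
      unfold c4 at h2
      omega
    · rw [disjoint_left]
      intro e he he'
      rw [mem_image] at he he'
      obtain ⟨q, hq, rfl⟩ := he
      obtain ⟨z, hz, h⟩ := he'
      obtain ⟨v, hv, hv2⟩ := cB_site H hz
      rw [h, c4_site H hq hv] at hv2
      omega
  have e1 := c4_sum H Q.hi Q.hi2 Q.hC
  have e2 : ∑ e ∈ (Z4 i C).image (cA i), lc (st i C).card 2 (tC i C e) =
      - ((Z4 i C).card : ℤ) := by
    have hv : ∀ z ∈ Z4 i C, lc (st i C).card 2 (tC i C (cA i z)) = -1 :=
      fun z hz => (cA_value H hir Q.hC hz).2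
    rw [sum_image (fun a _ b _ h => cA_inj h), sum_congr rfl hv, sum_const]
    simp
  have e3 : ∑ e ∈ (T4 i C).image (cB i), lc (st i C).card 2 (tC i C e) =
      ((T4 i C).card : ℤ) := by
    have hv : ∀ z ∈ T4 i C, lc (st i C).card 2 (tC i C (cB i z)) = 1 :=
      fun z hz => (cB_value H hir Q.hC hz).2
    rw [sum_image (fun a ha b hb h => cB_inj H ha hb h), sum_congr rfl hv, sum_const]
    simp
  rw [e2, e3]
  have e4 : ∑ e ∈ (P4 i C).image (c4 i), lc (st i C).card 2 (tC i C e) =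
      ∑ e ∈ (P4 i C).image (c4 i), PowerSeries.coeff (st i C).card (dd ^ 2 * tC i C e : A) := rfl
  rw [e4]
  linarith

end Pool.Agent.GaussPoset.Win.W4

end

/-! From `Pool.Agent.W_448nf_h84.NfA` -/

section

/-!
MP_448cb3_co, G2, case B, window `j`: the functional `F = w21 + p_2[4]` of a natural part is nonnegative
if the part has at most one upper pendant, with the cases of equality.
-/

namespace Pool.Agent.GaussPoset.Win.W4

set_option linter.unusedSectionVars false

open Finset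
open Pool.Agent.GaussPoset.Win.SO (PN vp mem_PN num_PN vp_PD vp_PU)

universe u

variable {P : Type u} [Fintype P] [PartialOrder P] [DecidableEq P] {r i : ℕ}
variable {psi : P → P} {C K : Finset P}

open Classical in
/-- the lower pendants of a part -/
noncomputable def DC (i : ℕ) (C : Finset P) : Finset P := C.filter (fun p => p ∈ PD P i)

open Classical in
/-- the upper pendants of a part -/
noncomputable def UC (i : ℕ) (C : Finset P) : Finset P := C.filter (fun p => p ∈ PU P i)

open Classical in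
/-- the lower pendants which meet an upper pendant -/
noncomputable def DU (i : ℕ) (C : Finset P) : Finset P :=
  (DC i C).filter (fun p => ∃ u ∈ UC i C, ¬ Disjoint (sit i p) (sit i u))

open Classical in
/-- ordered pairs of different lower pendants with a common site -/
noncomputable def D2 (i : ℕ) (C : Finset P) : Finset (P × P) :=
  (DC i C ×ˢ DC i C).filter (fun q => q.1 ≠ q.2 ∧ ¬ Disjoint (sit i q.1) (sit i q.2))

lemma mem_DC {p : P} : p ∈ DC i C ↔ p ∈ C ∧ p ∈ PD P i := by
  classical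
  unfold DC
  rw [mem_filter]

lemma mem_UC {p : P} : p ∈ UC i C ↔ p ∈ C ∧ p ∈ PU P i := by
  classical
  unfold UC
  rw [mem_filter]

lemma DU_sub (i : ℕ) (C : Finset P) : DU i C ⊆ DC i C := by
  classical
  exact filter_subset _ _

lemma DC_UC (i : ℕ) (C : Finset P) : Disjoint (DC i C) (UC i C) := by
  rw [disjoint_left]
  intro p h1 h2
  have h3 := lev_PD (mem_DC.1 h1).2
  have h4 := lev_PU (mem_UC.1 h2).2
  omega

lemma PN_eq (i : ℕ) (C : Finset P) : PN i C = DC i C ∪ UC i C := by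
  ext p
  rw [mem_PN, mem_union, mem_DC, mem_UC]
  tauto

/-- the sites of a lower pendant -/
lemma sit_PD_ne (H : Gr P r) {p : P} (h : p ∈ PD P i) : (sit i p).Nonempty := by
  classical
  obtain ⟨h1, h2, w, hw, hw2⟩ := mem_PD.1 h
  obtain ⟨v, hv⟩ : (uc w).Nonempty := card_pos.1 (by omega)
  refine ⟨v, ?_⟩
  rw [sit_low H (by omega), mem_sts_iff H h1]
  exact ⟨w, mem_uc.2 hw, hv⟩

lemma sit_PU_ne (H : Gr P r) {p : P} (h : p ∈ PU P i) : (sit i p).Nonempty := by
  classical
  obtain ⟨h1, h2, w, hw, hw2⟩ := mem_PU.1 h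
  obtain ⟨v, hv⟩ : (dc w).Nonempty := card_pos.1 (by omega)
  refine ⟨v, ?_⟩
  rw [sit_upp H (by omega), mem_stD_iff H h1]
  exact ⟨w, mem_dc.2 hw, hv⟩

lemma not_disj_self {α : Type*} {s : Finset α} (h : s.Nonempty) : ¬ Disjoint s s := by
  intro h1
  rw [disjoint_self] at h1
  exact h.ne_empty h1

/-- the linear part -/
lemma sum_vp (i : ℕ) (C : Finset P) :
    ∑ p ∈ PN i C, vp i p = ((DC i C).card : ℤ) - (UC i C).card := by
  rw [PN_eq, sum_union (DC_UC i C), sum_congr rfl fun p hp => vp_PD (mem_DC.1 hp).2,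
    sum_congr (g := fun _ => (-1 : ℤ)) (s₁ := UC i C) rfl fun p hp => vp_PU (mem_UC.1 hp).2]
  simp
  ring

/-- the quadratic part -/
lemma sum_M4 (i : ℕ) (C : Finset P) :
    ∑ q ∈ M4 i C, vp i q.1 * vp i q.2 = ∑ p ∈ PN i C, ∑ q ∈ PN i C,
      if ¬ Disjoint (sit i p) (sit i q) then vp i p * vp i q else 0 := by
  classical
  unfold M4
  rw [sum_filter, sum_product]

lemma sum_DD (H : Gr P r) (i : ℕ) (C : Finset P) :
    ∑ p ∈ DC i C, ∑ q ∈ DC i C, (if ¬ Disjoint (sit i p) (sit i q) then vp i p * vp i q else 0) =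
      ((DC i C).card : ℤ) + (D2 i C).card := by
  classical
  have h1 : ∀ p ∈ DC i C, ∀ q ∈ DC i C,
      (if ¬ Disjoint (sit i p) (sit i q) then vp i p * vp i q else 0) =
        (if p = q then 1 else 0) +
          (if p ≠ q ∧ ¬ Disjoint (sit i p) (sit i q) then (1 : ℤ) else 0) := by
    intro p hp q hq
    rw [vp_PD (mem_DC.1 hp).2, vp_PD (mem_DC.1 hq).2]
    by_cases h : p = q
    · subst h
      rw [if_pos (not_disj_self (sit_PD_ne H (mem_DC.1 hp).2)), if_pos rfl, if_neg (by tauto)]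
      norm_num
    · by_cases h2 : Disjoint (sit i p) (sit i q)
      · rw [if_neg (by tauto), if_neg h, if_neg (by tauto)]
        norm_num
      · rw [if_pos h2, if_neg h, if_pos ⟨h, h2⟩]
        norm_num
  rw [sum_congr rfl fun p hp => sum_congr rfl (h1 p hp)]
  simp only [sum_add_distrib]
  congr 1
  · rw [sum_congr rfl (g := fun _ => (1 : ℤ))]
    · simp
    · intro p hp
      rw [sum_ite_eq, if_pos hp]
  · unfold D2
    rw [card_filter, sum_product]
    push_cast
    rfl

/-- THE FORM of the pendants, at most one upper pendant -/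
theorem num_form (H : Gr P r) (hU : (UC i C).card ≤ 1) :
    ∑ p ∈ PN i C, vp i p + ∑ q ∈ M4 i C, vp i q.1 * vp i q.2 =
      2 * (((DC i C).card : ℤ) - (DU i C).card) + (D2 i C).card := by
  classical
  rw [sum_vp, sum_M4, PN_eq, sum_union (DC_UC i C),
    sum_congr rfl fun p _ => sum_union (DC_UC i C), sum_add_distrib, sum_DD H]
  rcases Nat.eq_zero_or_pos (UC i C).card with h0 | h0
  · have h1 := card_eq_zero.1 h0
    have h2 : DU i C = ∅ := by
      unfold DU
      rw [h1]
      simp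
    rw [h1, h2]
    simp
    ring
  · obtain ⟨u, hu⟩ := card_eq_one.1 (show (UC i C).card = 1 by omega)
    have huU : u ∈ PU P i := (mem_UC.1 (show u ∈ UC i C by rw [hu]; exact mem_singleton_self u)).2
    have h2 : DU i C = (DC i C).filter (fun p => ¬ Disjoint (sit i p) (sit i u)) := by
      unfold DU
      rw [hu]
      simp
    have h3 : ∑ p ∈ DC i C, ∑ q ∈ UC i C,
        (if ¬ Disjoint (sit i p) (sit i q) then vp i p * vp i q else 0) = - ((DU i C).card : ℤ) := by
      rw [h2, card_filter, hu]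
      push_cast
      rw [← sum_neg_distrib]
      refine sum_congr rfl fun p hp => ?_
      rw [sum_singleton, vp_PD (mem_DC.1 hp).2, vp_PU huU]
      split_ifs <;> norm_num
    have h4 : ∑ p ∈ UC i C, ∑ q ∈ DC i C ∪ UC i C,
        (if ¬ Disjoint (sit i p) (sit i q) then vp i p * vp i q else 0) =
        - ((DU i C).card : ℤ) + 1 := by
      rw [hu, sum_singleton, sum_union (by rw [← hu]; exact DC_UC i C), sum_singleton,
        if_pos (not_disj_self (sit_PU_ne H huU)), vp_PU huU]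
      congr 1
      rw [h2, card_filter]
      push_cast
      rw [← sum_neg_distrib]
      refine sum_congr rfl fun p hp => ?_
      rw [vp_PD (mem_DC.1 hp).2]
      have h5 : Disjoint (sit i u) (sit i p) ↔ Disjoint (sit i p) (sit i u) := disjoint_comm
      simp only [h5]
      split_ifs <;> norm_num
    rw [h3, h4, hu, card_singleton]
    push_cast
    ring

/-- `F` of a natural part -/
theorem Nat4.F_eq (Q : Nat4 r i K psi C) (hb : 1 ≤ (st i C).card) (hU : (UC i C).card ≤ 1) :
    I2.al 2 (st i C).card (ZS i C) + (I2.al 2 (st i C).card (ZS i C) ^ 2 -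
      2 * I2.be 4 (st i C).card (ZS i C)) =
    2 * (((DC i C).card : ℤ) - (DU i C).card) + (D2 i C).card +
      2 * ((Z4 i C).card - (T4 i C).card : ℤ) := by
  rw [Q.form hb, Q.al2, ← num_form Q.H hU]
  ring

lemma T4_subset (i : ℕ) (C : Finset P) : T4 i C ⊆ Z4 i C := fun _ h => T4_sub h

/-- `F ≥ 0` for a natural part -/
theorem Nat4.F_nonneg (Q : Nat4 r i K psi C) (hb : 1 ≤ (st i C).card) (hU : (UC i C).card ≤ 1) :
    0 ≤ I2.al 2 (st i C).card (ZS i C) + (I2.al 2 (st i C).card (ZS i C) ^ 2 -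
      2 * I2.be 4 (st i C).card (ZS i C)) := by
  rw [Q.F_eq hb hU]
  have h1 := card_le_card (DU_sub i C)
  have h2 := card_le_card (T4_subset i C)
  omega

end Pool.Agent.GaussPoset.Win.W4

end

/-! From `Pool.Agent.W_448w4_h10.KX` -/

section

/-!
MP_448cb3_co, G2, case B, window `j`: the common site of the two unmatched doubles with label one, labels on both
doubles.  helper10.
-/

namespace Pool.Agent.GaussPoset.Win.W4

set_option linter.unusedSectionVars false

open Finset
open Pool.Agent.GaussPoset.Win.So (IV IV_chi IV_Fe)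
open Pool.Agent.GaussPoset.Win.SO (LowD UppD val_gen PN vp con on)

universe u

variable {P : Type u} [Fintype P] [PartialOrder P] [DecidableEq P] {r i : ℕ}
variable {e f : P → ℕ} {psi : P → P} {C K : Finset P} {w v : P}

section

variable (Q : K5 r i K psi C w v) {p q s : P} (hw : uc w = {p, q}) (hv : dc v = {q, s})
  (hpq : p ≠ q) (hqs : q ≠ s) (hps : p ≠ s)
include Q hw hv hpq hqs hps

/-- `Jx` of a configuration with labels on the sites -/
lemma K5.Jx_Sc (hS : Sc i e) (a b m : ℕ) :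
    Jx i K psi C w v e a b m = JK i K psi C m (e + Pi.single w a + Pi.single v b) := by
  unfold Jx
  rw [if_pos]
  refine ⟨Or.inr ?_, Or.inr ?_⟩
  · rw [hS.tch Q.H]; exact notMem_empty w
  · rw [hS.tch Q.H]; exact notMem_empty v

lemma K5.spt2 (hs : Spt C e) (a b : ℕ) : Spt C (e + Pi.single w a + Pi.single v b) := by
  intro y hy
  have h1 : y ≠ w := by
    rintro rfl
    exact hy Q.wC
  have h2 : y ≠ v := by
    rintro rfl
    exact hy Q.vC
  rw [Pi.add_apply, Pi.add_apply, hs y hy, Pi.single_apply, Pi.single_apply, if_neg h1, if_neg h2,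
    add_zero, add_zero]

/-- `Jx` with no free label, labels on the sites -/
lemma K5.Jx_Sc0 (hS : Sc i e) (hs : Spt C e) (a b : ℕ) :
    Jx i K psi C w v e a b 0 = tC i C (e + Pi.single w a + Pi.single v b) := by
  rw [Q.Jx_Sc hw hv hpq hqs hps hS, JK_zero Q.H Q.hir Q.part
    (Q.spt2 hw hv hpq hqs hps hs a b)]

/-- the configuration with label one at the common site -/
lemma K5.sgl : Sc i (Pi.single q 1 : P → ℕ) ∧ Spt C (Pi.single q 1 : P → ℕ) ∧
    (Pi.single q 1 : P → ℕ) q = 1 ∧ (Pi.single q 1 : P → ℕ) p = 0 ∧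
    (Pi.single q 1 : P → ℕ) s = 0 ∧ ∀ y, (Pi.single q 1 : P → ℕ) y < 2 := by
  obtain ⟨l1, l2, l3⟩ := Q.lpq hw hv hpq hqs hps
  obtain ⟨m1, m2, m3⟩ := Q.memC hw hv hpq hqs hps
  refine ⟨?_, ?_, by simp, ?_, ?_, ?_⟩
  · intro x hx
    rw [Pi.single_apply, if_neg]
    rintro rfl
    exact hx l2
  · intro x hx
    rw [Pi.single_apply, if_neg]
    rintro rfl
    exact hx m2
  · rw [Pi.single_apply, if_neg hpq]
  · rw [Pi.single_apply, if_neg hqs.symm]
  · intro y
    rw [Pi.single_apply]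
    split_ifs <;> omega

/-- label one on `w`, two on `v` -/
theorem K5.both_12 :
    od (st i C).card 2 (Jx i K psi C w v (Pi.single q 1) 1 2 0) ∧
    lc (st i C).card 2 (Jx i K psi C w v (Pi.single q 1) 1 2 0) = 1 := by
  have H := Q.H
  have hir := Q.hir
  obtain ⟨l1, l2, l3⟩ := Q.lpq hw hv hpq hqs hps
  obtain ⟨hS, hs, eq1, ep, es, e2⟩ := Q.sgl hw hv hpq hqs hps
  obtain ⟨e, he⟩ : ∃ e : P → ℕ, e = Pi.single q 1 := ⟨_, rfl⟩
  rw [← he] at hS hs eq1 ep es e2 ⊢
  rw [Q.Jx_Sc0 hw hv hpq hqs hps hS hs]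
  obtain ⟨-, -, h1, h2, o0, c0⟩ := hS.val (C := C) Q.H Q.hi Q.hi2
  obtain ⟨s1, s2, s3, s4, s5, s6, s7, s8⟩ := Q.step_w hw hv hpq hqs hps hS hs (by omega) (a := 1)
  have nw := Q.nzw hw hv hpq hqs hps
  have nv := Q.nzv hw hv hpq hqs hps
  have kw : kz i e w 1 = {p} := by
    ext y
    rw [mem_kz, nw, mem_insert, mem_singleton, mem_singleton]
    constructor
    · rintro ⟨rfl | rfl, g⟩
      · rfl
      · omega
    · rintro rfl
      exact ⟨Or.inl rfl, by omega⟩
  have cw2 : (nz i w).card = 2 := by rw [nw, card_pair hpq]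
  have cv2 : (nz i v).card = 2 := by rw [nv, card_pair hqs]
  have hdis : Disjoint (AL i e) (AU i e) := by rw [h1]; exact disjoint_empty_left _
  have hdis1 : Disjoint (AL i (e + Pi.single w 1)) (AU i (e + Pi.single w 1)) := by
    rw [s7]; exact disjoint_empty_right _
  have sgw : sg1 i w = 1 := by unfold sg1; rw [if_pos Q.lw0]
  have sgv : sg1 i v = -1 := by unfold sg1; rw [if_neg (by have := Q.lv0; omega)]
  have hG : Gx i e w 1 := ⟨by rw [kw, card_singleton], cw2, by
    rw [h1, h2, union_empty]; exact disjoint_empty_right _⟩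
  obtain ⟨o1, c1⟩ := val_G H hir Q.hC hs hdis Q.nw Q.wC s2 s3 hG o0
  rw [sgw, c0] at c1
  have hF : Fx i (e + Pi.single w 1) v 2 := by
    refine ⟨?_, ?_⟩
    · rw [← kz_eq_iff, s8, kz_eq_iff]
      intro y _
      exact e2 y
    · rw [s6, s7, kw, union_empty, nv, disjoint_singleton_right, mem_insert, mem_singleton]
      rintro (h | h)
      · exact hpq h
      · exact hps h
  obtain ⟨o2, c2⟩ := val_F H hir Q.hC s1 hdis1 Q.nv Q.vC s4 s5 cv2 hF o1
  refine ⟨o2, ?_⟩
  rw [c2, c1, sgv]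
  norm_num

/-- label two on `w`, one on `v` -/
theorem K5.both_21 :
    od (st i C).card 2 (Jx i K psi C w v (Pi.single q 1) 2 1 0) ∧
    lc (st i C).card 2 (Jx i K psi C w v (Pi.single q 1) 2 1 0) = 1 := by
  have H := Q.H
  have hir := Q.hir
  obtain ⟨l1, l2, l3⟩ := Q.lpq hw hv hpq hqs hps
  obtain ⟨hS, hs, eq1, ep, es, e2⟩ := Q.sgl hw hv hpq hqs hps
  obtain ⟨e, he⟩ : ∃ e : P → ℕ, e = Pi.single q 1 := ⟨_, rfl⟩
  rw [← he] at hS hs eq1 ep es e2 ⊢
  rw [Q.Jx_Sc0 hw hv hpq hqs hps hS hs]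
  obtain ⟨-, -, h1, h2, o0, c0⟩ := hS.val (C := C) Q.H Q.hi Q.hi2
  obtain ⟨s1, s2, s3, s4, s5, s6, s7, s8⟩ := Q.step_w hw hv hpq hqs hps hS hs (by omega) (a := 2)
  have nw := Q.nzw hw hv hpq hqs hps
  have nv := Q.nzv hw hv hpq hqs hps
  have kv : kz i e v 1 = {s} := by
    ext y
    rw [mem_kz, nv, mem_insert, mem_singleton]
    constructor
    · rintro ⟨rfl | rfl, g⟩
      · omega
      · rfl
    · rintro rfl
      exact ⟨Or.inr rfl, by omega⟩
  have kw : kz i e w 2 = {p, q} := by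
    rw [← nw, kz_eq_iff]
    intro y _
    exact e2 y
  have cw2 : (nz i w).card = 2 := by rw [nw, card_pair hpq]
  have cv2 : (nz i v).card = 2 := by rw [nv, card_pair hqs]
  have hdis : Disjoint (AL i e) (AU i e) := by rw [h1]; exact disjoint_empty_left _
  have hdis1 : Disjoint (AL i (e + Pi.single w 2)) (AU i (e + Pi.single w 2)) := by
    rw [s7]; exact disjoint_empty_right _
  have sgw : sg1 i w = 1 := by unfold sg1; rw [if_pos Q.lw0]
  have sgv : sg1 i v = -1 := by unfold sg1; rw [if_neg (by have := Q.lv0; omega)]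
  have hF : Fx i e w 2 := ⟨fun y _ => e2 y, by
    rw [h1, h2, union_empty]; exact disjoint_empty_right _⟩
  obtain ⟨o1, c1⟩ := val_F H hir Q.hC hs hdis Q.nw Q.wC s2 s3 cw2 hF o0
  rw [sgw, c0] at c1
  have hG : Gx i (e + Pi.single w 2) v 1 := by
    refine ⟨by rw [s8, kv, card_singleton], cv2, ?_⟩
    rw [s8, kv, s6, s7, kw, union_empty, disjoint_singleton_left, mem_insert, mem_singleton]
    rintro (h | h)
    · exact hps h.symm
    · exact hqs h.symm
  obtain ⟨o2, c2⟩ := val_G H hir Q.hC s1 hdis1 Q.nv Q.vC s4 s5 hG o1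
  refine ⟨o2, ?_⟩
  rw [c2, c1, sgv]
  norm_num

/-- label one on `w`, `v` and a free near element -/
theorem K5.both_111 :
    lc (st i C).card 2 (Jx i K psi C w v (Pi.single q 1) 1 1 1) =
      -(Vc i K C + dg i K C p + dg i K C s + 2 * dg i K C q - 2 * mm i K C {p, q}
        - 2 * mm i K C {q, s} - mm i K C {p, s}) := by
  have H := Q.H
  have hir := Q.hir
  obtain ⟨l1, l2, l3⟩ := Q.lpq hw hv hpq hqs hps
  obtain ⟨hS, hs, eq1, ep, es, e2⟩ := Q.sgl hw hv hpq hqs hps
  have ez : ∀ y, y ≠ q → (Pi.single q 1 : P → ℕ) y = 0 := by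
    intro y hy
    rw [Pi.single_apply, if_neg hy]
  obtain ⟨e, he⟩ : ∃ e : P → ℕ, e = Pi.single q 1 := ⟨_, rfl⟩
  rw [← he] at hS hs eq1 ep es e2 ez ⊢
  rw [Q.Jx_Sc hw hv hpq hqs hps hS]
  obtain ⟨o2, c2⟩ := Q.both_11 hw hv hpq hqs hps hS hs (by omega)
  rw [if_pos ⟨ep, es⟩] at c2
  obtain ⟨-, -, h1, h2, -, -⟩ := hS.val (C := C) Q.H Q.hi Q.hi2
  obtain ⟨s1, s2, s3, s4, s5, s6, s7, s8⟩ := Q.step_w hw hv hpq hqs hps hS hs (by omega) (a := 1)
  have nw := Q.nzw hw hv hpq hqs hps
  have nv := Q.nzv hw hv hpq hqs hps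
  have kw : kz i e w 1 = {p} := by
    ext y
    rw [mem_kz, nw, mem_insert, mem_singleton, mem_singleton]
    constructor
    · rintro ⟨rfl | rfl, g⟩
      · rfl
      · omega
    · rintro rfl
      exact ⟨Or.inl rfl, by omega⟩
  have kv : kz i e v 1 = {s} := by
    ext y
    rw [mem_kz, nv, mem_insert, mem_singleton]
    constructor
    · rintro ⟨rfl | rfl, g⟩
      · omega
      · rfl
    · rintro rfl
      exact ⟨Or.inr rfl, by omega⟩
  have aL : AL i (e + Pi.single w 1 + Pi.single v 1) = {p} := by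
    rw [AL_upp H Q.lv0 s5, s6, kw]
  have aU : AU i (e + Pi.single w 1 + Pi.single v 1) = {s} := by
    rw [AU_upp H Q.lv0 s5, s7, s8, kv, empty_union]
  have hRK : RK i K psi C (e + Pi.single w 1 + Pi.single v 1) = RK i K psi C e := by
    rw [RK_add H (single_far Q.nv 1), RK_add H (single_far Q.nw 1)]
  have hval : ∀ y, y ≠ w → y ≠ v → (e + Pi.single w 1 + Pi.single v 1 : P → ℕ) y = e y := by
    intro y h h'
    rw [Pi.add_apply, Pi.add_apply, Pi.single_apply, Pi.single_apply, if_neg h, if_neg h',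
      add_zero, add_zero]
  have hlev : ∀ y, lev y = i → y ≠ w ∧ y ≠ v := by
    intro y hy
    have := Q.lw0
    have := Q.lv0
    constructor
    · rintro rfl; omega
    · rintro rfl; omega
  have hz0 : ∀ y ∈ RK i K psi C (e + Pi.single w 1 + Pi.single v 1),
      (e + Pi.single w 1 + Pi.single v 1 : P → ℕ) y = 0 := by
    intro y hy
    rw [hRK] at hy
    have hyw : y ≠ w := by
      rintro rfl
      exact notMem_RK Q.wK hy
    have hyv : y ≠ v := by
      rintro rfl
      exact notMem_RK Q.vK hy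
    rw [hval y hyw hyv]
    have := mem_near.1 (mem_Rst.1 (mem_RK.1 hy).1).1
    exact hS y (by omega)
  have hd : Disjoint (AL i (e + Pi.single w 1 + Pi.single v 1))
      (AU i (e + Pi.single w 1 + Pi.single v 1)) := by
    rw [aL, aU, disjoint_singleton]
    exact hps
  rw [JK_one H Q.hi Q.hi2 Q.hM Q.hC (Q.spt2 hw hv hpq hqs hps hs 1 1) hz0 hd o2,
    om_pqs H Q.hi Q.hi2 Q.hM Q.hC hpq hps hqs, c2]
  · ring
  · obtain ⟨g1, g2⟩ := hlev q l2
    rw [hval q g1 g2]
    omega
  · intro y hy hyq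
    obtain ⟨g1, g2⟩ := hlev y hy
    rw [hval y g1 g2]
    exact ez y hyq
  · rw [aL, aU]
    rfl
  · exact l2
  · rw [hRK]
    exact hS.RK H

end

end Pool.Agent.GaussPoset.Win.W4

end

/-! From `Pool.Agent.W_448w4_h10.KY` -/

section

/-!
MP_448cb3_co, G2, case B, window `j`: sums over the cores with a label at the common site.  helper10.
-/

namespace Pool.Agent.GaussPoset.Win.W4

set_option linter.unusedSectionVars false

open Finset
open Pool.Agent.GaussPoset.Win.So (IV IV_chi IV_Fe)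
open Pool.Agent.GaussPoset.Win.SO (LowD UppD val_gen PN vp con on)

universe u

variable {P : Type u} [Fintype P] [PartialOrder P] [DecidableEq P] {r i : ℕ}
variable {e f : P → ℕ} {psi : P → P} {C K : Finset P} {w v : P}

/-- a far label without a label on an adjacent element towards the window is not admissible -/
lemma far_low (H : Gr P r) {x : P} (hx : i + 2 ≤ lev x) (h : 0 < e x)
    (h0 : ∀ y ∈ uc x, e y = 0) : ¬ AdmL i e := by
  intro hA
  obtain ⟨y, hy⟩ := uc_nonempty H (x := x) (by omega)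
  have l1 := lev_uc H hy
  obtain ⟨y', hy'⟩ := uc_nonempty H (x := y) (by omega)
  refine hA y (by omega) ⟨⟨x, mem_uc.1 hy, ?_⟩, ⟨y', mem_uc.1 hy', ?_⟩⟩
  · rw [h0 y hy]; exact h
  · rw [h0 y hy]; exact Nat.zero_le _

lemma far_upp (H : Gr P r) (hir : i ≤ r) {x : P} (hx : lev x + 2 ≤ i) (h : 0 < e x)
    (h0 : ∀ y ∈ dc x, e y = 0) : ¬ AdmU i e := by
  intro hA
  obtain ⟨y, hy⟩ := dc_nonempty H (x := x) (by omega)
  have l1 := lev_dc H hy
  obtain ⟨y', hy'⟩ := dc_nonempty H (x := y) (by omega)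
  refine hA y (by omega) ⟨⟨x, mem_dc.1 hy, ?_⟩, ⟨y', mem_dc.1 hy', ?_⟩⟩
  · rw [h0 y hy]; exact h
  · rw [h0 y hy]; exact Nat.zero_le _

/-- a label function with sum one -/
lemma sum_one {e : P → ℕ} {q : P} (h : ∑ x, e x = 1) (hq : 0 < e q) : e = Pi.single q 1 := by
  have h1 : e q + ∑ x ∈ univ.erase q, e x = 1 := by
    rw [add_sum_erase univ e (mem_univ q)]
    exact h
  have h2 : ∑ x ∈ univ.erase q, e x = 0 := by omega
  rw [sum_eq_zero_iff] at h2
  funext x
  by_cases hx : x = q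
  · subst hx
    rw [Pi.single_eq_same]
    omega
  · rw [Pi.single_eq_of_ne hx]
    exact h2 x (mem_erase.2 ⟨hx, mem_univ x⟩)

/-- a label function with sum two -/
lemma sum_two {e : P → ℕ} {q : P} (h : ∑ x, e x = 2) (hq : 0 < e q) :
    ∃ f, e = Pi.single q 1 + Pi.single f 1 := by
  obtain ⟨g, hg⟩ : ∃ g : P → ℕ, g = fun x => e x - (Pi.single q 1 : P → ℕ) x := ⟨_, rfl⟩
  have h1 : ∀ x, e x = (Pi.single q 1 : P → ℕ) x + g x := by
    intro x
    rw [hg]
    by_cases hx : x = q
    · subst hx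
      simp only [Pi.single_eq_same]
      omega
    · simp only [Pi.single_eq_of_ne hx]
      omega
  have h2 : ∑ x, g x = 1 := by
    have : ∑ x, e x = ∑ x, (Pi.single q 1 : P → ℕ) x + ∑ x, g x := by
      rw [← sum_add_distrib]
      exact sum_congr rfl fun x _ => h1 x
    rw [h, sum_pi_single' q 1 univ] at this
    simp only [mem_univ, if_true] at this
    omega
  have h3 : ∃ f, 0 < g f := by
    by_contra hc
    push Not at hc
    have : ∑ x, g x = 0 := sum_eq_zero fun x _ => by have := hc x; omega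
    omega
  obtain ⟨f, hf⟩ := h3
  refine ⟨f, ?_⟩
  rw [← sum_one h2 hf]
  funext x
  rw [Pi.add_apply]
  exact h1 x

section

variable (Q : K5 r i K psi C w v) {p q s : P} (hw : uc w = {p, q}) (hv : dc v = {q, s})
  (hpq : p ≠ q) (hqs : q ≠ s) (hps : p ≠ s)
include Q hw hv hpq hqs hps

lemma K5.Co1_sum (X : (P → ℕ) → ℤ) (hX : ∀ e ∈ Co i K psi C 1, e q = 0 → X e = 0) :
    ∑ e ∈ Co i K psi C 1, X e = X (Pi.single q 1) := by
  obtain ⟨hS, hs, eq1, ep, es, e2⟩ := Q.sgl hw hv hpq hqs hps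
  refine sum_eq_single _ ?_ ?_
  · intro e he hne
    apply hX e he
    obtain ⟨h1, h2, h3⟩ := mem_Co.1 he
    by_contra h0
    exact hne (sum_one h1 (by omega))
  · intro h
    exfalso
    apply h
    refine mem_Co.2 ⟨?_, hs, hS.core Q.H⟩
    rw [sum_pi_single' q 1 univ]
    simp

/-- `S1` of the fourth coefficient -/
theorem K5.S1_4 : ∑ e ∈ Co i K psi C 1, (lc (st i C).card 2 (Jx i K psi C w v e 1 1 1) +
      lc (st i C).card 2 (Jx i K psi C w v e 1 2 0) +
      lc (st i C).card 2 (Jx i K psi C w v e 2 1 0)) =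
    2 - (Vc i K C + dg i K C p + dg i K C s + 2 * dg i K C q - 2 * mm i K C {p, q}
        - 2 * mm i K C {q, s} - mm i K C {p, s}) := by
  rw [Q.Co1_sum hw hv hpq hqs hps (fun e => (lc (st i C).card 2 (Jx i K psi C w v e 1 1 1) +
      lc (st i C).card 2 (Jx i K psi C w v e 1 2 0) +
      lc (st i C).card 2 (Jx i K psi C w v e 2 1 0)))]
  · show lc (st i C).card 2 (Jx i K psi C w v (Pi.single q 1) 1 1 1) +
      lc (st i C).card 2 (Jx i K psi C w v (Pi.single q 1) 1 2 0) +
      lc (st i C).card 2 (Jx i K psi C w v (Pi.single q 1) 2 1 0) = _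
    rw [Q.both_111 hw hv hpq hqs hps, (Q.both_12 hw hv hpq hqs hps).2,
      (Q.both_21 hw hv hpq hqs hps).2]
    ring
  · intro e he h0
    obtain ⟨h1, h2, h3⟩ := mem_Co.1 he
    have hq : q ∈ uc w := by rw [hw]; simp
    have hq' : q ∈ dc v := by rw [hv]; simp
    show lc (st i C).card 2 (Jx i K psi C w v e 1 1 1) +
      lc (st i C).card 2 (Jx i K psi C w v e 1 2 0) +
      lc (st i C).card 2 (Jx i K psi C w v e 2 1 0) = 0
    rw [Q.Jx_both h3 hq hq' h0 one_ne_zero one_ne_zero,
      Q.Jx_both h3 hq hq' h0 one_ne_zero two_ne_zero,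
      Q.Jx_both h3 hq hq' h0 two_ne_zero one_ne_zero, lc_zero]
    norm_num

/-- `S1` of the third coefficient -/
theorem K5.S1_3 : ∑ e ∈ Co i K psi C 1, lc (st i C).card 2 (Jx i K psi C w v e 1 1 0) = -1 := by
  rw [Q.Co1_sum hw hv hpq hqs hps (fun e => lc (st i C).card 2 (Jx i K psi C w v e 1 1 0))]
  · show lc (st i C).card 2 (Jx i K psi C w v (Pi.single q 1) 1 1 0) = _
    obtain ⟨hS, hs, eq1, ep, es, e2⟩ := Q.sgl hw hv hpq hqs hps
    rw [Q.Jx_Sc0 hw hv hpq hqs hps hS hs, (Q.both_11 hw hv hpq hqs hps hS hs (by omega)).2,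
      if_pos ⟨ep, es⟩]
  · intro e he h0
    obtain ⟨h1, h2, h3⟩ := mem_Co.1 he
    have hq : q ∈ uc w := by rw [hw]; simp
    have hq' : q ∈ dc v := by rw [hv]; simp
    show lc (st i C).card 2 (Jx i K psi C w v e 1 1 0) = 0
    rw [Q.Jx_both h3 hq hq' h0 one_ne_zero one_ne_zero, lc_zero]

/-- a core of energy two with a label at the common site: labels on the sites, or zero -/
lemma K5.Co2_cases (he : e ∈ Co i K psi C 2) (hq : 0 < e q) :
    (∃ f ∈ st i C, e = Pi.single q 1 + Pi.single f 1) ∨ ∀ a b m, Jx i K psi C w v e a b m = 0 := by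
  obtain ⟨l1, l2, l3⟩ := Q.lpq hw hv hpq hqs hps
  obtain ⟨h1, h2, h3⟩ := mem_Co.1 he
  obtain ⟨f, hf⟩ := sum_two h1 hq
  have hef : 0 < e f := by
    rw [hf, Pi.add_apply, Pi.single_eq_same]
    omega
  have hfC : f ∈ C := by
    by_contra h
    rw [h2 f h] at hef
    omega
  have ez : ∀ y, y ≠ q → y ≠ f → e y = 0 := by
    intro y hy hy'
    rw [hf, Pi.add_apply, Pi.single_eq_of_ne hy, Pi.single_eq_of_ne hy', add_zero]
  by_cases hlf : lev f = i
  · exact Or.inl ⟨f, mem_st.2 ⟨hfC, hlf⟩, hf⟩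
  right
  by_cases hlow : i + 2 ≤ lev f
  · refine Q.Jx_zero h3 fun h => far_low Q.H hlow hef ?_ h.1
    intro y hy
    have := lev_uc Q.H hy
    refine ez y ?_ ?_
    · rintro rfl; omega
    · rintro rfl; omega
  by_cases hupp : lev f + 2 ≤ i
  · refine Q.Jx_zero h3 fun h => far_upp Q.H Q.hir hupp hef ?_ h.2.1
    intro y hy
    have := lev_dc Q.H hy
    refine ez y ?_ ?_
    · rintro rfl; omega
    · rintro rfl; omega
  exfalso
  have hn : f ∈ near P i := mem_near.2 (by omega)
  have ht : Tch i e = ∅ := by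
    rw [eq_empty_iff_forall_notMem]
    intro x hx
    rw [mem_Tch] at hx
    rcases hx with ⟨g1, z, hz, hz'⟩ | ⟨g1, z, hz, hz'⟩
    · have hl := lev_cov Q.H hz
      have : e z = 0 := by
        refine ez z ?_ ?_
        · rintro rfl; omega
        · rintro rfl; omega
      omega
    · have hl := lev_cov Q.H hz
      have : e z = 0 := by
        refine ez z ?_ ?_
        · rintro rfl; omega
        · rintro rfl; omega
      omega
  have : e f = 0 := by
    refine h3 f (mem_Rst.2 ⟨hn, notMem_empty f, ?_, ?_⟩)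
    · rw [ht]; exact notMem_empty f
    · rintro ⟨-, g⟩
      rw [ht] at g
      exact notMem_empty _ g
  omega

/-- `S2` of the fourth coefficient, both doubles -/
theorem K5.S2_both : ∑ e ∈ Co i K psi C 2, lc (st i C).card 2 (Jx i K psi C w v e 1 1 0) =
    2 - ((st i C).card : ℤ) := by
  classical
  obtain ⟨l1, l2, l3⟩ := Q.lpq hw hv hpq hqs hps
  obtain ⟨m1, m2, m3⟩ := Q.memC hw hv hpq hqs hps
  have key : ∀ f ∈ st i C, Sc i (Pi.single q 1 + Pi.single f 1 : P → ℕ) ∧
      Spt C (Pi.single q 1 + Pi.single f 1 : P → ℕ) ∧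
      ∑ x, (Pi.single q 1 + Pi.single f 1 : P → ℕ) x = 2 := by
    intro f hf
    obtain ⟨f1, f2⟩ := mem_st.1 hf
    refine ⟨?_, ?_, ?_⟩
    · intro x hx
      have g1 : x ≠ q := by rintro rfl; exact hx l2
      have g2 : x ≠ f := by rintro rfl; exact hx f2
      rw [Pi.add_apply, Pi.single_eq_of_ne g1, Pi.single_eq_of_ne g2, add_zero]
    · intro x hx
      have g1 : x ≠ q := by rintro rfl; exact hx m2
      have g2 : x ≠ f := by rintro rfl; exact hx f1
      rw [Pi.add_apply, Pi.single_eq_of_ne g1, Pi.single_eq_of_ne g2, add_zero]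
    · simp only [Pi.add_apply]
      rw [sum_add_distrib, sum_pi_single' q 1 univ, sum_pi_single' f 1 univ]
      simp
  have inj : ∀ f ∈ st i C, ∀ f' ∈ st i C,
      (Pi.single q 1 + Pi.single f 1 : P → ℕ) = Pi.single q 1 + Pi.single f' 1 → f = f' := by
    intro f _ f' _ h
    have h' : (Pi.single f 1 : P → ℕ) = Pi.single f' 1 := add_left_cancel h
    by_contra hne
    have := congrFun h' f
    rw [Pi.single_eq_same, Pi.single_eq_of_ne hne] at this
    exact one_ne_zero this
  have e1 : ∑ e ∈ Co i K psi C 2, lc (st i C).card 2 (Jx i K psi C w v e 1 1 0) =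
      ∑ e ∈ (st i C).image (fun f => (Pi.single q 1 + Pi.single f 1 : P → ℕ)),
        lc (st i C).card 2 (Jx i K psi C w v e 1 1 0) := by
    symm
    refine sum_subset ?_ ?_
    · intro e he
      rw [mem_image] at he
      obtain ⟨f, hf, rfl⟩ := he
      obtain ⟨k1, k2, k3⟩ := key f hf
      exact mem_Co.2 ⟨k3, k2, k1.core Q.H⟩
    · intro e he hne
      by_cases hq0 : e q = 0
      · rw [Q.Jx_both (mem_Co.1 he).2.2 (by rw [hw]; simp) (by rw [hv]; simp) hq0 one_ne_zero
          one_ne_zero, lc_zero]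
      · rcases Q.Co2_cases hw hv hpq hqs hps he (by omega) with ⟨f, hf, rfl⟩ | h
        · exact absurd (mem_image.2 ⟨f, hf, rfl⟩) hne
        · rw [h, lc_zero]
  rw [e1, sum_image inj]
  have e2 : ∀ f ∈ st i C, lc (st i C).card 2
      (Jx i K psi C w v (Pi.single q 1 + Pi.single f 1 : P → ℕ) 1 1 0) =
      if f ∉ ({p, s} : Finset P) then -1 else 0 := by
    intro f hf
    obtain ⟨k1, k2, -⟩ := key f hf
    have hq1 : 1 ≤ (Pi.single q 1 + Pi.single f 1 : P → ℕ) q := by
      rw [Pi.add_apply, Pi.single_eq_same]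
      omega
    rw [Q.Jx_Sc0 hw hv hpq hqs hps k1 k2, (Q.both_11 hw hv hpq hqs hps k1 k2 hq1).2]
    refine if_congr ?_ rfl rfl
    rw [Pi.add_apply, Pi.add_apply, Pi.single_eq_of_ne hpq, Pi.single_eq_of_ne hqs.symm, zero_add,
      zero_add, Pi.single_apply, Pi.single_apply, mem_insert, mem_singleton]
    constructor
    · rintro ⟨g1, g2⟩ (h | h)
      · rw [if_pos h.symm] at g1
        exact one_ne_zero g1
      · rw [if_pos h.symm] at g2
        exact one_ne_zero g2
    · intro h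
      push Not at h
      exact ⟨if_neg h.1.symm, if_neg h.2.symm⟩
  rw [sum_congr rfl e2, ← sum_filter, sum_const, nsmul_eq_mul]
  have e3 : (st i C).filter (fun f => f ∉ ({p, s} : Finset P)) = st i C \ {p, s} := by
    ext f
    rw [mem_filter, mem_sdiff]
  have sub : ({p, s} : Finset P) ⊆ st i C := by
    intro y hy
    rw [mem_insert, mem_singleton] at hy
    rcases hy with rfl | rfl
    · exact mem_st.2 ⟨m1, l1⟩
    · exact mem_st.2 ⟨m3, l3⟩
  have e4 := card_sdiff_add_card_eq_card sub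
  rw [card_pair hps] at e4
  rw [e3]
  have : ((st i C \ {p, s}).card : ℤ) + 2 = (st i C).card := by exact_mod_cast e4
  linarith

end

end Pool.Agent.GaussPoset.Win.W4

end

/-! From `Pool.Agent.W_448w4_h10.KZ` -/

section

/-!
MP_448cb3_co, G2, case B, window `j`: the cores of energy three and a label on an unmatched double.  helper10.
-/

namespace Pool.Agent.GaussPoset.Win.W4

set_option linter.unusedSectionVars false

open Finset
open Pool.Agent.GaussPoset.Win.So (IV IV_chi IV_Fe)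
open Pool.Agent.GaussPoset.Win.SO (LowD UppD val_gen PN vp con on con_two_low con_two_upp)

universe u

section comb

variable {P : Type*} [DecidableEq P]

/-- the sum over the sites -/
lemma site_sum {V N S : Finset P} (hN : N ⊆ V) (hS : S ⊆ V) (cN : N.card = 2) (cS : S.card = 2) :
    ∑ g ∈ V, (if g ∈ S then (-1 : ℤ) else 1) *
      (if g ∈ N then (if Disjoint (N.erase g) (S.erase g) then -1 else 0)
        else (if Disjoint N S then 1 else 0)) =
      (if Disjoint N S then (V.card : ℤ) - 8 else 0) + if (N ∩ S).card = 1 then 1 else 0 := by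
  obtain ⟨a, b, hab, rfl⟩ := card_eq_two.1 cN
  obtain ⟨F, hF⟩ : ∃ F : P → ℤ, F = fun g => (if g ∈ S then (-1 : ℤ) else 1) *
      (if g ∈ ({a, b} : Finset P) then (if Disjoint (({a, b} : Finset P).erase g) (S.erase g)
        then -1 else 0) else (if Disjoint ({a, b} : Finset P) S then 1 else 0)) := ⟨_, rfl⟩
  have h0 : ∑ g ∈ V, F g = ∑ g ∈ V \ {a, b}, F g + (F a + F b) := by
    rw [← sum_pair hab, sum_sdiff hN]
  have ea : ({a, b} : Finset P).erase a = {b} := by
    ext y
    simp only [mem_erase, mem_insert, mem_singleton]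
    constructor
    · rintro ⟨h1, h2 | h2⟩
      · exact absurd h2 h1
      · exact h2
    · rintro rfl
      exact ⟨hab.symm, Or.inr rfl⟩
  have eb : ({a, b} : Finset P).erase b = {a} := by
    ext y
    simp only [mem_erase, mem_insert, mem_singleton]
    constructor
    · rintro ⟨h1, h2 | h2⟩
      · exact h2
      · exact absurd h2 h1
    · rintro rfl
      exact ⟨hab, Or.inl rfl⟩
  have fa : F a = if a ∈ S then (if b ∈ S then 0 else 1) else (if b ∈ S then 0 else -1) := by
    rw [hF]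
    simp only [mem_insert, mem_singleton, true_or, if_true, ea, disjoint_singleton_left,
      mem_erase]
    by_cases h1 : a ∈ S <;> by_cases h2 : b ∈ S <;> simp [h1, h2, hab.symm]
  have fb : F b = if b ∈ S then (if a ∈ S then 0 else 1) else (if a ∈ S then 0 else -1) := by
    rw [hF]
    simp only [mem_insert, mem_singleton, or_true, if_true, eb, disjoint_singleton_left,
      mem_erase]
    by_cases h1 : a ∈ S <;> by_cases h2 : b ∈ S <;> simp [h1, h2, hab]
  have hD : Disjoint ({a, b} : Finset P) S ↔ a ∉ S ∧ b ∉ S := by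
    rw [disjoint_insert_left, disjoint_singleton_left]
  have fr : ∑ g ∈ V \ {a, b}, F g = if Disjoint ({a, b} : Finset P) S then (V.card : ℤ) - 6
      else 0 := by
    have e1 : ∀ g ∈ V \ {a, b}, F g = (if g ∈ S then (-1 : ℤ) else 1) *
        (if Disjoint ({a, b} : Finset P) S then 1 else 0) := by
      intro g hg
      rw [hF]
      simp only
      rw [if_neg (mem_sdiff.1 hg).2]
    rw [sum_congr rfl e1, ← sum_mul]
    by_cases hd : Disjoint ({a, b} : Finset P) S
    · rw [if_pos hd, if_pos hd, mul_one]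
      have hSV : S ⊆ V \ {a, b} := by
        intro y hy
        refine mem_sdiff.2 ⟨hS hy, ?_⟩
        intro h
        exact disjoint_left.1 hd h hy
      have c1 := card_sdiff_add_card_eq_card hN
      rw [card_pair hab] at c1
      have e2 : ∑ g ∈ V \ {a, b}, (if g ∈ S then (-1 : ℤ) else 1) =
          ∑ g ∈ V \ {a, b}, (1 - 2 * (if g ∈ S then (1 : ℤ) else 0)) := by
        refine sum_congr rfl fun g _ => ?_
        split_ifs <;> norm_num
      rw [e2, sum_sub_distrib, ← mul_sum, sum_const, ← sum_filter, sum_const]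
      have e3 : (V \ {a, b}).filter (fun g => g ∈ S) = S := by
        ext y
        rw [mem_filter]
        exact ⟨fun h => h.2, fun h => ⟨hSV h, h⟩⟩
      rw [e3, cS]
      have : ((V \ {a, b}).card : ℤ) + 2 = V.card := by exact_mod_cast c1
      simp only [nsmul_eq_mul, mul_one]
      push_cast
      linarith
    · rw [if_neg hd, if_neg hd, mul_zero]
  have hI : (({a, b} : Finset P) ∩ S).card = (if a ∈ S then 1 else 0) + if b ∈ S then 1 else 0 := by
    rw [← filter_mem_eq_inter, card_filter, sum_pair hab]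
  have fin : ∑ g ∈ V, F g = (if Disjoint ({a, b} : Finset P) S then (V.card : ℤ) - 8 else 0) +
      if (({a, b} : Finset P) ∩ S).card = 1 then 1 else 0 := by
    rw [h0, fa, fb, fr, hI]
    by_cases h1 : a ∈ S
    · have hnd : ¬ Disjoint ({a, b} : Finset P) S := by rw [hD]; tauto
      rw [if_neg hnd, if_neg hnd]
      by_cases h2 : b ∈ S <;> simp [h1, h2]
    · by_cases h2 : b ∈ S
      · have hnd : ¬ Disjoint ({a, b} : Finset P) S := by rw [hD]; tauto
        rw [if_neg hnd, if_neg hnd]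
        simp [h1, h2]
      · rw [if_pos (hD.2 ⟨h1, h2⟩), if_pos (hD.2 ⟨h1, h2⟩)]
        simp only [h1, h2, if_false]
        norm_num
        ring
  rw [hF] at fin
  exact fin

end comb

variable {P : Type u} [Fintype P] [PartialOrder P] [DecidableEq P] {r i : ℕ}
variable {e f : P → ℕ} {psi : P → P} {C K : Finset P} {w v : P}

/-- the values of `FG` at the cores of energy three -/
lemma FG_m3 (H : Gr P r) (hir : i ≤ r) (hC : Part (i + 1) C) {t : P × P} (ht : t ∈ I3 i C)
    {x : P} (hx : x ∈ near P i) (h2 : (nz i x).card = 2) :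
    FG i (m3 i t) x 1 = if t.2 ∈ nz i x then
      (if Disjoint ((nz i x).erase t.2) ((sit i t.1).erase t.2) then -1 else 0)
        else (if Disjoint (nz i x) (sit i t.1) then 1 else 0) := by
  classical
  obtain ⟨z, g⟩ := t
  obtain ⟨v1, v2, v3, v4, -, -, -⟩ := m3_val H hir hC ht
  have hzP : z ∈ PN i C := (mem_I3.1 ht).1
  obtain ⟨hz, y0, hc, hy0, -, -, hsl, hor⟩ := PN_dat H hzP
  have hlz : lev z ≠ i ∧ lev y0 ≠ i := by
    rcases hor with ⟨-, h, h', -⟩ | ⟨-, h, h', -⟩
    · omega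
    · omega
  have hval : ∀ y ∈ nz i x, m3 i (z, g) y = if y = g then 1 else 0 := by
    intro y hy
    have hl := nz_lev H hx hy
    rw [m3_eval hc, if_neg, zero_add]
    rw [mem_insert, mem_singleton]
    rintro (rfl | rfl)
    · exact hlz.1 hl
    · exact hlz.2 hl
  have hkz : kz i (m3 i (z, g)) x 1 = (nz i x).erase g := by
    ext y
    rw [mem_kz, mem_erase]
    constructor
    · rintro ⟨h1, h2⟩
      rw [hval y h1] at h2
      refine ⟨?_, h1⟩
      rintro rfl
      rw [if_pos rfl] at h2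
      omega
    · rintro ⟨h1, h2⟩
      refine ⟨h2, ?_⟩
      rw [hval y h2, if_neg h1]
      omega
  simp only at v4 ⊢
  unfold FG
  by_cases hg : g ∈ nz i x
  · rw [if_pos hg]
    have hF : ¬ Fx i (m3 i (z, g)) x 1 := by
      rintro ⟨h, -⟩
      have := h g hg
      rw [hval g hg, if_pos rfl] at this
      omega
    rw [if_neg hF]
    refine if_congr ?_ rfl rfl
    unfold Gx
    rw [hkz, v4, card_erase_of_mem hg, h2]
    tauto
  · rw [if_neg hg]
    have hG : ¬ Gx i (m3 i (z, g)) x 1 := by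
      rintro ⟨h, -⟩
      rw [hkz, erase_eq_of_notMem hg] at h
      omega
    have hd : Disjoint (nz i x) ((sit i z).erase g) ↔ Disjoint (nz i x) (sit i z) := by
      constructor
      · intro h
        rw [disjoint_left] at h ⊢
        intro y hy hy'
        refine h hy (mem_erase.2 ⟨?_, hy'⟩)
        rintro rfl
        exact hg hy
      · intro h
        exact h.mono_right (erase_subset _ _)
    have hF : Fx i (m3 i (z, g)) x 1 ↔ Disjoint (nz i x) (sit i z) := by
      unfold Fx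
      rw [v4, hd]
      constructor
      · exact fun h => h.2
      · intro h
        refine ⟨fun y hy => ?_, h⟩
        rw [hval y hy, if_neg]
        · omega
        · rintro rfl
          exact hg hy
    rw [if_neg hG]
    exact if_congr hF rfl rfl

lemma FG_mz (H : Gr P r) (hir : i ≤ r) (hC : Part (i + 1) C) {z : P} (hz : z ∈ Z4 i C)
    {x : P} (hx : x ∈ near P i) (h2 : (nz i x).card = 2) :
    FG i (mz i z) x 1 = Nx i x z := by
  classical
  obtain ⟨v1, v2, v3, v4, -, -, -⟩ := mz_val H hir hC hz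
  have hval : ∀ y ∈ nz i x, mz i z y = 0 := by
    intro y hy
    have hl := nz_lev H hx hy
    unfold mz
    by_contra h
    have h3 : y ∈ con i z := on_pos.1 (by omega)
    rcases Z4_cases hz with ⟨-, l, -⟩ | ⟨-, l, -⟩
    · rw [con_two_low H l, mem_insert] at h3
      rcases h3 with rfl | h3
      · omega
      · have := lev_uc H h3
        omega
    · rw [con_two_upp H l, mem_insert] at h3
      rcases h3 with rfl | h3
      · omega
      · have := lev_dc H h3
        omega
  have hkz : kz i (mz i z) x 1 = nz i x := kz_eq_iff.2 fun y hy => by rw [hval y hy]; omega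
  unfold FG Nx
  have hG : ¬ Gx i (mz i z) x 1 := by
    rintro ⟨h, -⟩
    rw [hkz] at h
    omega
  rw [if_neg hG]
  refine if_congr ?_ rfl rfl
  unfold Fx
  rw [v4]
  constructor
  · exact fun h => h.2
  · exact fun h => ⟨fun y hy => by rw [hval y hy]; omega, h⟩

end Pool.Agent.GaussPoset.Win.W4

end

/-! From `Pool.Agent.W_448w4_h10.LA` -/

section

/-!
MP_448cb3_co, G2, case B, window `j`: the sum over the cores of energy three.  helper10.
-/

namespace Pool.Agent.GaussPoset.Win.W4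

set_option linter.unusedSectionVars false

open Finset
open Pool.Agent.GaussPoset.Win.So (IV IV_chi IV_Fe)
open Pool.Agent.GaussPoset.Win.SO (LowD UppD val_gen PN vp con on con_two_low con_two_upp con_sub
  mem_PN)

universe u

variable {P : Type u} [Fintype P] [PartialOrder P] [DecidableEq P] {r i : ℕ}
variable {e f : P → ℕ} {psi : P → P} {C K : Finset P} {w v : P}

open Classical in
/-- the children of a pendant: the far elements which are joined only to it and its near element -/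
noncomputable def Ch (i : ℕ) (C : Finset P) (z : P) : Finset P :=
  C.filter (fun g => Cd i z g ∧ g ≠ z)

lemma mem_Ch {z g : P} : g ∈ Ch i C z ↔ g ∈ C ∧ Cd i z g ∧ g ≠ z := by
  classical
  unfold Ch
  rw [mem_filter]

/-- the weighted number of children -/
noncomputable def ch (i : ℕ) (C : Finset P) (z : P) : ℤ := ∑ g ∈ Ch i C z, c3 i C (z, g)

/-- a double meets a pendant in one site -/
noncomputable def Mx (i : ℕ) (x p : P) : ℤ := if (nz i x ∩ sit i p).card = 1 then 1 else 0

open Classical in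
/-- the fibre of a pendant -/
noncomputable def Fb (i : ℕ) (C : Finset P) (z : P) : Finset P :=
  C.filter (fun g => lev g = i ∨ g ∈ con i z ∨ Cd i z g)

lemma mem_Fb {z g : P} : g ∈ Fb i C z ↔ g ∈ C ∧ (lev g = i ∨ g ∈ con i z ∨ Cd i z g) := by
  classical
  unfold Fb
  rw [mem_filter]

lemma fib_eq (H : Gr P r) (hC : Part (i + 1) C) {z : P} (hz : z ∈ PN i C) :
    Fb i C z = st i C ∪ (con i z ∪ Ch i C z) ∧
      Disjoint (st i C) (con i z ∪ Ch i C z) ∧ Disjoint (con i z) (Ch i C z) := by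
  classical
  obtain ⟨hzC, y, hc, hy, hny, -, hsl, hor⟩ := PN_dat H hz
  have hyn := mem_near.1 hy
  have hzl : lev z = i + 2 ∨ lev z + 2 = i := by
    rcases hor with ⟨-, h, -⟩ | ⟨-, h, -⟩
    · exact Or.inl h
    · exact Or.inr h
  have hyC : y ∈ C := by
    rcases hor with ⟨-, h, h', h4, -⟩ | ⟨-, h, h', h4, -⟩
    · exact hC.up hzC (mem_uc.1 (by rw [h4]; exact mem_singleton_self y))
    · exact hC.dn hzC (by omega) (mem_dc.1 (by rw [h4]; exact mem_singleton_self y))
  have hcd : ∀ g, Cd i z g → i + 2 ≤ lev g ∨ lev g + 2 ≤ i := by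
    rintro g (⟨-, h, -⟩ | ⟨-, h, -⟩)
    · exact Or.inl h
    · exact Or.inr h
  have hcon : ∀ g, g ∈ con i z ↔ g = z ∨ g = y := by
    intro g
    rw [hc, mem_insert, mem_singleton]
  have hself : Cd i z z := by
    rcases hor with ⟨-, h, h', h4, -⟩ | ⟨-, h, h', h4, -⟩
    · left
      refine ⟨by omega, by omega, ?_⟩
      rw [h4, hc]
      exact singleton_subset_iff.2 (by simp)
    · right
      refine ⟨by omega, by omega, ?_⟩
      rw [h4, hc]
      exact singleton_subset_iff.2 (by simp)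
  refine ⟨?_, ?_, ?_⟩
  · ext g
    rw [mem_Fb, mem_union, mem_union, mem_st, mem_Ch]
    constructor
    · rintro ⟨h1, h2 | h2 | h2⟩
      · exact Or.inl ⟨h1, h2⟩
      · exact Or.inr (Or.inl h2)
      · by_cases hgz : g = z
        · exact Or.inr (Or.inl ((hcon g).2 (Or.inl hgz)))
        · exact Or.inr (Or.inr ⟨h1, h2, hgz⟩)
    · rintro (⟨h1, h2⟩ | h1 | ⟨h1, h2, h3⟩)
      · exact ⟨h1, Or.inl h2⟩
      · refine ⟨?_, Or.inr (Or.inl h1)⟩
        rcases (hcon g).1 h1 with rfl | rfl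
        · exact hzC
        · exact hyC
      · exact ⟨h1, Or.inr (Or.inr h2)⟩
  · rw [disjoint_left]
    intro g hg h
    obtain ⟨-, hgl⟩ := mem_st.1 hg
    rw [mem_union, hcon, mem_Ch] at h
    rcases h with (rfl | rfl) | ⟨-, h, -⟩
    · omega
    · omega
    · have := hcd g h
      omega
  · rw [disjoint_left]
    intro g hg h
    obtain ⟨-, h1, h2⟩ := mem_Ch.1 h
    rcases (hcon g).1 hg with rfl | rfl
    · exact h2 rfl
    · have := hcd g h1
      omega

lemma I3_sum (H : Gr P r) (hC : Part (i + 1) C) (G : P × P → ℤ) :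
    ∑ t ∈ I3 i C, G t = ∑ z ∈ PN i C, (∑ g ∈ st i C, G (z, g) +
      (∑ g ∈ con i z, G (z, g) + ∑ g ∈ Ch i C z, G (z, g))) := by
  classical
  have h1 : I3 i C = (PN i C ×ˢ C).filter
      (fun q => lev q.2 = i ∨ q.2 ∈ con i q.1 ∨ Cd i q.1 q.2) := by
    ext q
    rw [mem_I3, mem_filter, mem_product, and_assoc]
  rw [h1, sum_filter, sum_product]
  refine sum_congr rfl fun z hz => ?_
  obtain ⟨h2, h3, h4⟩ := fib_eq H hC hz
  rw [← sum_union h4, ← sum_union h3, ← h2]
  unfold Fb
  rw [sum_filter]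

/-- THE WEIGHTED SUM over the fibre of a pendant -/
theorem fib_sum (H : Gr P r) (hir : i ≤ r) (hC : Part (i + 1) C) {z : P} (hz : z ∈ PN i C)
    {x : P} (hx : x ∈ near P i) (hxC : x ∈ C) (h2 : (nz i x).card = 2) :
    ∑ g ∈ st i C, c3 i C (z, g) * (ep3 (sit i z) z g * FG i (m3 i (z, g)) x 1) +
      (∑ g ∈ con i z, c3 i C (z, g) * (ep3 (sit i z) z g * FG i (m3 i (z, g)) x 1) +
        ∑ g ∈ Ch i C z, c3 i C (z, g) * (ep3 (sit i z) z g * FG i (m3 i (z, g)) x 1)) =
      (2 * ((st i C).card - 8) + ch i C z) * Nx i x z + 2 * Mx i x z := by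
  classical
  obtain ⟨hzC, y, hc, hy, hny, hs2, hsl, hor⟩ := PN_dat H hz
  obtain ⟨f1, f2, f3⟩ := fib_eq H hC hz
  have hyn := mem_near.1 hy
  have hzl : lev z = i + 2 ∨ lev z + 2 = i := by
    rcases hor with ⟨-, h, -⟩ | ⟨-, h, -⟩
    · exact Or.inl h
    · exact Or.inr h
  have hzy : z ≠ y := by rintro rfl; omega
  have hI : ∀ g, g ∈ st i C ∪ (con i z ∪ Ch i C z) → (z, g) ∈ I3 i C := by
    intro g hg
    rw [← f1, mem_Fb] at hg
    exact mem_I3.2 ⟨hz, hg.1, hg.2⟩
  have hPN : ∀ g ∈ PN i C, lev g = i + 2 ∨ lev g + 2 = i := by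
    intro g hg
    obtain ⟨-, y', -, -, -, -, -, hor'⟩ := PN_dat H hg
    rcases hor' with ⟨-, h, -⟩ | ⟨-, h, -⟩
    · exact Or.inl h
    · exact Or.inr h
  have hnl : ∀ g ∈ nz i x, lev g = i := fun g hg => nz_lev H hx hg
  -- the sites
  have e1 : ∑ g ∈ st i C, c3 i C (z, g) * (ep3 (sit i z) z g * FG i (m3 i (z, g)) x 1) =
      2 * ((if Disjoint (nz i x) (sit i z) then ((st i C).card : ℤ) - 8 else 0) +
        if (nz i x ∩ sit i z).card = 1 then 1 else 0) := by
    rw [← site_sum (nz_st H hC hx hxC) (fun g hg => ?_) h2 hs2, mul_sum]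
    · refine sum_congr rfl fun g hg => ?_
      obtain ⟨-, hgl⟩ := mem_st.1 hg
      have hc3 : c3 i C (z, g) = 2 := by
        unfold c3
        rw [if_neg]
        rintro ⟨h, -⟩
        have := hPN g h
        omega
      have hgz : g ≠ z := by rintro rfl; omega
      have hep : ep3 (sit i z) z g = if g ∈ sit i z then -1 else 1 := by
        unfold ep3
        refine if_congr ?_ rfl rfl
        constructor
        · rintro (h | h)
          · exact h
          · exact absurd h hgz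
        · exact Or.inl
      rw [hc3, hep, FG_m3 H hir hC (hI g (mem_union_left _ hg)) hx h2]
    · rw [← hny] at hg
      have hyC : y ∈ C := by
        have : y ∈ Fb i C z := by
          rw [f1, mem_union, mem_union, hc]
          exact Or.inr (Or.inl (by simp))
        exact (mem_Fb.1 this).1
      exact nz_st H hC hy hyC hg
  -- the pendant and its near element
  have fgn : ∀ g, (z, g) ∈ I3 i C → lev g ≠ i → FG i (m3 i (z, g)) x 1 = Nx i x z := by
    intro g hg hgl
    rw [FG_m3 H hir hC hg hx h2]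
    simp only
    rw [if_neg (fun h => hgl (hnl g h))]
    rfl
  have e2 : ∑ g ∈ con i z, c3 i C (z, g) * (ep3 (sit i z) z g * FG i (m3 i (z, g)) x 1) = 0 := by
    have hzc : z ∈ con i z := by rw [hc]; simp
    have hyc : y ∈ con i z := by rw [hc]; simp
    have g1 := fgn z (hI z (mem_union_right _ (mem_union_left _ hzc))) (by omega)
    have g2 := fgn y (hI y (mem_union_right _ (mem_union_left _ hyc))) (by omega)
    have c1 : c3 i C (z, z) = 2 := by
      unfold c3
      rw [if_neg]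
      rintro ⟨-, h⟩
      exact h rfl
    have c2 : c3 i C (z, y) = 2 := by
      unfold c3
      rw [if_neg]
      rintro ⟨h, -⟩
      have := hPN y h
      omega
    have p1 : ep3 (sit i z) z z = -1 := by
      unfold ep3
      rw [if_pos (Or.inr rfl)]
    have p2 : ep3 (sit i z) z y = 1 := by
      unfold ep3
      rw [if_neg]
      rintro (h | h)
      · have := hsl y h
        omega
      · exact hzy h.symm
    rw [hc, sum_pair hzy, g1, g2, c1, c2, p1, p2]
    ring
  have e3 : ∑ g ∈ Ch i C z, c3 i C (z, g) * (ep3 (sit i z) z g * FG i (m3 i (z, g)) x 1) =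
      ch i C z * Nx i x z := by
    unfold ch
    rw [sum_mul]
    refine sum_congr rfl fun g hg => ?_
    obtain ⟨-, h1, h3⟩ := mem_Ch.1 hg
    have hgl : lev g ≠ i := by
      rcases h1 with ⟨-, h, -⟩ | ⟨-, h, -⟩ <;> omega
    have p2 : ep3 (sit i z) z g = 1 := by
      unfold ep3
      rw [if_neg]
      rintro (h | h)
      · exact hgl (hsl g h)
      · exact h3 h
    rw [fgn g (hI g (mem_union_right _ (mem_union_right _ hg))) hgl, p2, one_mul]
  rw [e1, e2, e3]
  unfold Nx Mx
  split_ifs <;> ring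

section

variable (Q : K5 r i K psi C w v)
include Q

/-- THE CORES OF ENERGY THREE -/
theorem K5.S3 (hw2 : (nz i w).card = 2) (hv2 : (nz i v).card = 2) :
    2 * ∑ e ∈ Co i K psi C 3, (lc (st i C).card 2 (Jx i K psi C w v e 0 1 0) +
      lc (st i C).card 2 (Jx i K psi C w v e 1 0 0)) =
    ∑ z ∈ PN i C, vp i z * ((2 * ((st i C).card - 8) + ch i C z) * (Nx i w z - Nx i v z) +
      2 * (Mx i w z - Mx i v z)) + 2 * ∑ z ∈ Z4 i C, tz i z * (Nx i w z - Nx i v z) := by
  have H := Q.H
  have hir := Q.hir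
  obtain ⟨X, hX⟩ : ∃ X : (P → ℕ) → ℤ, X = fun e =>
      (FG i e w 1 - FG i e v 1) * lc (st i C).card 1 (tC i C e) := ⟨_, rfl⟩
  have h1 : ∑ e ∈ Co i K psi C 3, (lc (st i C).card 2 (Jx i K psi C w v e 0 1 0) +
      lc (st i C).card 2 (Jx i K psi C w v e 1 0 0)) = ∑ e ∈ Co i K psi C 3, X e := by
    refine sum_congr rfl fun e he => ?_
    obtain ⟨g1, g2, g3⟩ := mem_Co.1 he
    have ho : od (st i C).card 1 (tC i C e) := by
      have := Q.Jx_od g3 (Q.cheap1 g3 g2 (by omega)) 0 0 0
      rw [Q.Jx0 g3 g2, ind_zero] at this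
      exact this
    rw [Q.val_v g3 g2 hv2 one_ne_zero (Or.inl rfl) ho,
      Q.val_w g3 g2 hw2 one_ne_zero (Or.inl rfl) ho, hX]
    ring
  rw [h1, Q.sum3 X]
  · have h2 : ∑ q ∈ I3 i C, c3 i C q * X (m3 i q) = ∑ z ∈ PN i C,
        vp i z * ((2 * ((st i C).card - 8) + ch i C z) * (Nx i w z - Nx i v z) +
      2 * (Mx i w z - Mx i v z)) := by
      rw [I3_sum H Q.hC]
      refine sum_congr rfl fun z hz => ?_
      obtain ⟨f1, -, -⟩ := fib_eq H Q.hC hz
      have hI : ∀ g, g ∈ st i C ∪ (con i z ∪ Ch i C z) → (z, g) ∈ I3 i C := by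
        intro g hg
        rw [← f1, mem_Fb] at hg
        exact mem_I3.2 ⟨hz, hg.1, hg.2⟩
      have hv : ∀ g, (z, g) ∈ I3 i C → c3 i C (z, g) * X (m3 i (z, g)) =
          vp i z * (c3 i C (z, g) * (ep3 (sit i z) z g * FG i (m3 i (z, g)) w 1)) -
          vp i z * (c3 i C (z, g) * (ep3 (sit i z) z g * FG i (m3 i (z, g)) v 1)) := by
        intro g hg
        have := (m3_val H hir Q.hC hg).2.2.2.2.2.1
        simp only at this
        rw [hX]
        simp only
        rw [this]
        ring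
      rw [sum_congr rfl fun g hg => hv g (hI g (mem_union_left _ hg)),
        sum_congr rfl fun g hg => hv g (hI g (mem_union_right _ (mem_union_left _ hg))),
        sum_congr rfl fun g hg => hv g (hI g (mem_union_right _ (mem_union_right _ hg))),
        sum_sub_distrib, sum_sub_distrib, sum_sub_distrib, ← mul_sum, ← mul_sum, ← mul_sum,
        ← mul_sum, ← mul_sum, ← mul_sum]
      have a1 := fib_sum H hir Q.hC hz Q.nw Q.wC hw2
      have a2 := fib_sum H hir Q.hC hz Q.nv Q.vC hv2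
      linear_combination vp i z * a1 - vp i z * a2
    have h3 : ∑ z ∈ Z4 i C, X (mz i z) = ∑ z ∈ Z4 i C, tz i z * (Nx i w z - Nx i v z) := by
      refine sum_congr rfl fun z hz => ?_
      rw [hX]
      simp only
      rw [FG_mz H hir Q.hC hz Q.nw hw2, FG_mz H hir Q.hC hz Q.nv hv2,
        (mz_val H hir Q.hC hz).2.2.2.2.2.1]
      ring
    rw [h2, h3]
  · intro e hs h
    rw [hX]
    simp only
    rw [cheap0_lc H Q.hC hs h, mul_zero]

end

end Pool.Agent.GaussPoset.Win.W4

end

/-! From `Pool.Agent.W_448w4_h10.LB` -/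

section

/-!
MP_448cb3_co, G2, case B, window `j`: THE VALUES of the component with a lower and an upper unmatched double which
share a site.  helper10.
-/

namespace Pool.Agent.GaussPoset.Win.W4

set_option linter.unusedSectionVars false

open Finset
open Pool.Agent.GaussPoset.Win.So (IV IV_chi IV_Fe)
open Pool.Agent.GaussPoset.Win.SO (LowD UppD val_gen PN vp con on)

universe u

variable {P : Type u} [Fintype P] [PartialOrder P] [DecidableEq P] {r i : ℕ}
variable {e f : P → ℕ} {psi : P → P} {C K : Finset P} {w v : P}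

section

variable (Q : K5 r i K psi C w v) {p q s : P} (hw : uc w = {p, q}) (hv : dc v = {q, s})
  (hpq : p ≠ q) (hqs : q ≠ s) (hps : p ≠ s)
include Q hw hv hpq hqs hps

lemma K5.cards : (nz i w).card = 2 ∧ (nz i v).card = 2 ∧ q ∈ uc w ∧ q ∈ dc v := by
  refine ⟨?_, ?_, by rw [hw]; simp, by rw [hv]; simp⟩
  · rw [Q.nzw hw hv hpq hqs hps, card_pair hpq]
  · rw [Q.nzv hw hv hpq hqs hps, card_pair hqs]

/-- THE CORES OF ENERGY TWO, fourth coefficient -/
theorem K5.S2_4 : ∑ e ∈ Co i K psi C 2, (lc (st i C).card 2 (Jx i K psi C w v e 0 1 1) +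
      lc (st i C).card 2 (Jx i K psi C w v e 0 2 0) +
      lc (st i C).card 2 (Jx i K psi C w v e 1 0 1) +
      lc (st i C).card 2 (Jx i K psi C w v e 2 0 0) +
      lc (st i C).card 2 (Jx i K psi C w v e 1 1 0)) =
    ∑ z ∈ PN i C, vp i z * (Nx i w z * (1 + Dg i K C (sit i z ∪ nz i w)) -
      Nx i v z * (1 + Dg i K C (sit i z ∪ nz i v))) + (2 - ((st i C).card : ℤ)) := by
  obtain ⟨hw2, hv2, hq, hq'⟩ := Q.cards hw hv hpq hqs hps
  obtain ⟨l1, l2, l3⟩ := Q.lpq hw hv hpq hqs hps
  rw [sum_add_distrib, Q.S2_both hw hv hpq hqs hps]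
  congr 1
  rw [Q.sum2 (fun e => lc (st i C).card 2 (Jx i K psi C w v e 0 1 1) +
      lc (st i C).card 2 (Jx i K psi C w v e 0 2 0) +
      lc (st i C).card 2 (Jx i K psi C w v e 1 0 1) +
      lc (st i C).card 2 (Jx i K psi C w v e 2 0 0))]
  · refine sum_congr rfl fun z hz => ?_
    rw [← Q.L2_val hw2 hv2 hq hq' hz]
    have h0 : Jx i K psi C w v (on (con i z)) 1 1 0 = 0 :=
      Q.Jx_both (c2_core Q.H hz) hq hq' (pd_site Q.H hz l2) one_ne_zero one_ne_zero 0
    rw [h0, lc_zero, add_zero]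
  · intro e _ h hc _
    show lc (st i C).card 2 (Jx i K psi C w v e 0 1 1) +
      lc (st i C).card 2 (Jx i K psi C w v e 0 2 0) +
      lc (st i C).card 2 (Jx i K psi C w v e 1 0 1) +
      lc (st i C).card 2 (Jx i K psi C w v e 2 0 0) = 0
    rw [Q.lc_J hc h (by simp [ind]), Q.lc_J hc h (by simp [ind]), Q.lc_J hc h (by simp [ind]),
      Q.lc_J hc h (by simp [ind])]
    norm_num

/-- THE FOURTH COEFFICIENT -/
theorem K5.be4_raw (hb : 1 ≤ (st i C).card) : 2 * lc (st i C).card 2 (ZC i C 4) =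
    (∑ q ∈ P4 i C, vp i q.1 * vp i q.2 - 2 * ((Z4 i C).card - (T4 i C).card : ℤ)) +
    (∑ z ∈ PN i C, vp i z * ((2 * ((st i C).card - 8) + ch i C z) * (Nx i w z - Nx i v z) +
      2 * (Mx i w z - Mx i v z)) + 2 * ∑ z ∈ Z4 i C, tz i z * (Nx i w z - Nx i v z)) +
    2 * (∑ z ∈ PN i C, vp i z * (Nx i w z * (1 + Dg i K C (sit i z ∪ nz i w)) -
      Nx i v z * (1 + Dg i K C (sit i z ∪ nz i v))) + (2 - ((st i C).card : ℤ))) +
    2 * (2 - (Vc i K C + dg i K C p + dg i K C s + 2 * dg i K C q - 2 * mm i K C {p, q}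
        - 2 * mm i K C {q, s} - mm i K C {p, s})) := by
  obtain ⟨hw2, hv2, hq, hq'⟩ := Q.cards hw hv hpq hqs hps
  rw [Q.lc4 hq hq', Q.S2_4 hw hv hpq hqs hps, Q.S1_4 hw hv hpq hqs hps]
  linear_combination Q.sum4 hb + Q.S3 hw2 hv2

/-- THE THIRD COEFFICIENT -/
theorem K5.be3_raw : lc (st i C).card 2 (ZC i C 3) =
    ∑ z ∈ PN i C, vp i z * (Nx i w z - Nx i v z) - 1 := by
  obtain ⟨hw2, hv2, hq, hq'⟩ := Q.cards hw hv hpq hqs hps
  rw [Q.lc3 hq hq', Q.S1_3 hw hv hpq hqs hps,
    Q.sum2 (fun e => lc (st i C).card 2 (Jx i K psi C w v e 0 1 0) +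
      lc (st i C).card 2 (Jx i K psi C w v e 1 0 0))]
  · have : ∀ z ∈ PN i C, lc (st i C).card 2 (Jx i K psi C w v (on (con i z)) 0 1 0) +
      lc (st i C).card 2 (Jx i K psi C w v (on (con i z)) 1 0 0) =
        vp i z * (Nx i w z - Nx i v z) := by
      intro z hz
      obtain ⟨-, -, -, -, v5, v6⟩ := pd_val Q.H Q.hi Q.hi2 Q.hC hz
      have hc : IsCore i ∅ (ps K psi) (on (con i z)) := c2_core Q.H hz
      have hs := c2_spt Q.H Q.hC hz
      rw [Q.val_v hc hs hv2 one_ne_zero (Or.inl rfl) v5,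
        Q.val_w hc hs hw2 one_ne_zero (Or.inl rfl) v5, v6,
        FG_pd Q.H Q.hi Q.hi2 Q.hC hz Q.nw hw2 one_ne_zero,
        FG_pd Q.H Q.hi Q.hi2 Q.hC hz Q.nv hv2 one_ne_zero]
      ring
    rw [sum_congr rfl this]
    ring
  · intro e _ h hc _
    show lc (st i C).card 2 (Jx i K psi C w v e 0 1 0) +
      lc (st i C).card 2 (Jx i K psi C w v e 1 0 0) = 0
    rw [Q.lc_J hc h (by simp [ind]), Q.lc_J hc h (by simp [ind])]
    norm_num

/-- the empty core: configurations with one label -/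
lemma K5.zero_vals : lc (st i C).card 1 (Jx i K psi C w v 0 0 1 0) = -1 ∧
    lc (st i C).card 1 (Jx i K psi C w v 0 1 0 0) = 1 ∧
    lc (st i C).card 1 (Jx i K psi C w v 0 0 2 0) = -1 ∧
    lc (st i C).card 1 (Jx i K psi C w v 0 2 0 0) = 1 ∧
    lc (st i C).card 1 (Jx i K psi C w v 0 1 0 1) = Dg i K C {p, q} ∧
    lc (st i C).card 1 (Jx i K psi C w v 0 0 1 1) = - Dg i K C {q, s} := by
  obtain ⟨hw2, hv2, hq, hq'⟩ := Q.cards hw hv hpq hqs hps
  have nw := Q.nzw hw hv hpq hqs hps
  have nv := Q.nzv hw hv hpq hqs hps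
  have hS : Sc i (0 : P → ℕ) := fun x _ => rfl
  have hs : Spt C (0 : P → ℕ) := fun x _ => rfl
  obtain ⟨-, -, h1, h2, o0, c0⟩ := hS.val (C := C) Q.H Q.hi Q.hi2
  have hc : IsCore i ∅ (ps K psi) (0 : P → ℕ) := hS.core Q.H
  have hc' : IsCore i K psi (0 : P → ℕ) := hS.core Q.H
  have hz : ∀ y, lev y = i → (0 : P → ℕ) y = 0 := fun y _ => rfl
  have fw : ∀ a, a ≠ 0 → FG i (0 : P → ℕ) w a = 1 := by
    intro a ha
    rw [hS.FG Q.H Q.hi Q.hi2 hpq nw, if_pos]
    simp only [Pi.zero_apply]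
    omega
  have fv : ∀ a, a ≠ 0 → FG i (0 : P → ℕ) v a = 1 := by
    intro a ha
    rw [hS.FG Q.H Q.hi Q.hi2 hqs nv, if_pos]
    simp only [Pi.zero_apply]
    omega
  have hd0 : Disjoint (AL i (0 : P → ℕ)) (AU i (0 : P → ℕ)) := by
    rw [h1]; exact disjoint_empty_left _
  have hR : ∀ y ∈ N0 i K C, y ∉ RK i K psi C (0 : P → ℕ) → y ∈ dbL P i ∪ dbU P i ∧
      nz i y ⊆ AL i (0 : P → ℕ) ∪ AU i (0 : P → ℕ) := by
    intro y hy h
    exact absurd (hS.RK Q.H hy) h
  have ht : ∀ x : P, x ∉ Tch i (0 : P → ℕ) := by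
    intro x
    rw [hS.tch Q.H]
    exact notMem_empty x
  refine ⟨?_, ?_, ?_, ?_, ?_, ?_⟩
  · rw [Q.val_v hc hs hv2 one_ne_zero (Or.inl rfl) o0, c0, fv 1 one_ne_zero]
    norm_num
  · rw [Q.val_w hc hs hw2 one_ne_zero (Or.inl rfl) o0, c0, fw 1 one_ne_zero]
    norm_num
  · rw [Q.val_v hc hs hv2 two_ne_zero (Or.inr hz) o0, c0, fv 2 two_ne_zero]
    norm_num
  · rw [Q.val_w hc hs hw2 two_ne_zero (Or.inr hz) o0, c0, fw 2 two_ne_zero]
    norm_num
  · rw [Q.Jx_Sc hw hv hpq hqs hps hS, Pi.single_zero, add_zero,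
      x_one_gen Q.H Q.hi Q.hi2 Q.hM Q.hC hs hd0 o0 hz hc' hR Q.nw Q.wC Q.wK hw2 (ht w) rfl
        (by rw [h1, h2, union_empty]; exact disjoint_empty_right _), h1, h2, c0, nw]
    have : sg1 i w = 1 := by unfold sg1; rw [if_pos Q.lw0]
    rw [this, empty_union, empty_union]
    ring
  · rw [Q.Jx_Sc hw hv hpq hqs hps hS, Pi.single_zero, add_zero,
      x_one_gen Q.H Q.hi Q.hi2 Q.hM Q.hC hs hd0 o0 hz hc' hR Q.nv Q.vC Q.vK hv2 (ht v) rfl
        (by rw [h1, h2, union_empty]; exact disjoint_empty_right _), h1, h2, c0, nv]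
    have : sg1 i v = -1 := by unfold sg1; rw [if_neg (by have := Q.lv0; omega)]
    rw [this, empty_union, empty_union]
    ring

/-- a core of energy one: a label at a site, or zero -/
lemma K5.Co1_cases (he : e ∈ Co i K psi C 1) :
    (∃ f ∈ st i C, e = Pi.single f 1) ∨ ∀ a b m, Jx i K psi C w v e a b m = 0 := by
  obtain ⟨h1, h2, h3⟩ := mem_Co.1 he
  have hf : ∃ f, 0 < e f := by
    by_contra hc
    push Not at hc
    have : ∑ x, e x = 0 := sum_eq_zero fun x _ => by have := hc x; omega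
    omega
  obtain ⟨f, hef⟩ := hf
  have hf := sum_one h1 hef
  have hfC : f ∈ C := by
    by_contra h
    rw [h2 f h] at hef
    omega
  have ez : ∀ y, y ≠ f → e y = 0 := by
    intro y hy
    rw [hf, Pi.single_eq_of_ne hy]
  by_cases hlf : lev f = i
  · exact Or.inl ⟨f, mem_st.2 ⟨hfC, hlf⟩, hf⟩
  right
  by_cases hlow : i + 2 ≤ lev f
  · refine Q.Jx_zero h3 fun h => far_low Q.H hlow hef ?_ h.1
    intro y hy
    have := lev_uc Q.H hy
    refine ez y ?_
    rintro rfl; omega
  by_cases hupp : lev f + 2 ≤ i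
  · refine Q.Jx_zero h3 fun h => far_upp Q.H Q.hir hupp hef ?_ h.2.1
    intro y hy
    have := lev_dc Q.H hy
    refine ez y ?_
    rintro rfl; omega
  exfalso
  have hn : f ∈ near P i := mem_near.2 (by omega)
  have ht : Tch i e = ∅ := by
    rw [eq_empty_iff_forall_notMem]
    intro x hx
    rw [mem_Tch] at hx
    rcases hx with ⟨g1, z, hz, hz'⟩ | ⟨g1, z, hz, hz'⟩
    · have hl := lev_cov Q.H hz
      have : e z = 0 := by
        refine ez z ?_
        rintro rfl; omega
      omega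
    · have hl := lev_cov Q.H hz
      have : e z = 0 := by
        refine ez z ?_
        rintro rfl; omega
      omega
  have : e f = 0 := by
    refine h3 f (mem_Rst.2 ⟨hn, notMem_empty f, ?_, ?_⟩)
    · rw [ht]; exact notMem_empty f
    · rintro ⟨-, g⟩
      rw [ht] at g
      exact notMem_empty _ g
  omega

/-- the cores of energy one, second coefficient -/
lemma K5.S1_2 : ∑ e ∈ Co i K psi C 1, (lc (st i C).card 1 (Jx i K psi C w v e 0 1 0) +
      lc (st i C).card 1 (Jx i K psi C w v e 1 0 0)) = 0 := by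
  classical
  obtain ⟨l1, l2, l3⟩ := Q.lpq hw hv hpq hqs hps
  obtain ⟨m1, m2, m3⟩ := Q.memC hw hv hpq hqs hps
  obtain ⟨hw2, hv2, hq, hq'⟩ := Q.cards hw hv hpq hqs hps
  have nw := Q.nzw hw hv hpq hqs hps
  have nv := Q.nzv hw hv hpq hqs hps
  have key : ∀ f ∈ st i C, Sc i (Pi.single f 1 : P → ℕ) ∧ Spt C (Pi.single f 1 : P → ℕ) ∧
      ∑ x, (Pi.single f 1 : P → ℕ) x = 1 := by
    intro f hf
    obtain ⟨f1, f2⟩ := mem_st.1 hf
    refine ⟨?_, ?_, ?_⟩
    · intro x hx
      have g2 : x ≠ f := by rintro rfl; exact hx f2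
      rw [Pi.single_eq_of_ne g2]
    · intro x hx
      have g2 : x ≠ f := by rintro rfl; exact hx f1
      rw [Pi.single_eq_of_ne g2]
    · rw [sum_pi_single' f 1 univ]
      simp
  have inj : ∀ f ∈ st i C, ∀ f' ∈ st i C,
      (Pi.single f 1 : P → ℕ) = Pi.single f' 1 → f = f' := by
    intro f _ f' _ h
    by_contra hne
    have := congrFun h f
    rw [Pi.single_eq_same, Pi.single_eq_of_ne hne] at this
    exact one_ne_zero this
  have e1 : ∑ e ∈ Co i K psi C 1, (lc (st i C).card 1 (Jx i K psi C w v e 0 1 0) +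
      lc (st i C).card 1 (Jx i K psi C w v e 1 0 0)) =
      ∑ e ∈ (st i C).image (fun f => (Pi.single f 1 : P → ℕ)),
        (lc (st i C).card 1 (Jx i K psi C w v e 0 1 0) +
      lc (st i C).card 1 (Jx i K psi C w v e 1 0 0)) := by
    symm
    refine sum_subset ?_ ?_
    · intro e he
      rw [mem_image] at he
      obtain ⟨f, hf, rfl⟩ := he
      obtain ⟨k1, k2, k3⟩ := key f hf
      exact mem_Co.2 ⟨k3, k2, k1.core Q.H⟩
    · intro e he hne
      rcases Q.Co1_cases hw hv hpq hqs hps he with ⟨f, hf, rfl⟩ | h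
      · exact absurd (mem_image.2 ⟨f, hf, rfl⟩) hne
      · rw [h, h, lc_zero]
        norm_num
  rw [e1, sum_image inj]
  have e2 : ∀ f ∈ st i C, lc (st i C).card 1 (Jx i K psi C w v (Pi.single f 1) 0 1 0) +
      lc (st i C).card 1 (Jx i K psi C w v (Pi.single f 1) 1 0 0) =
      2 * (if f ∈ ({q, s} : Finset P) then 1 else 0) -
        2 * (if f ∈ ({p, q} : Finset P) then 1 else 0) := by
    intro f hf
    obtain ⟨k1, k2, -⟩ := key f hf
    obtain ⟨-, -, -, -, o0, c0⟩ := k1.val (C := C) Q.H Q.hi Q.hi2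
    have hc : IsCore i ∅ (ps K psi) (Pi.single f 1 : P → ℕ) := k1.core Q.H
    rw [Q.val_v hc k2 hv2 one_ne_zero (Or.inl rfl) o0,
      Q.val_w hc k2 hw2 one_ne_zero (Or.inl rfl) o0, c0,
      k1.FG Q.H Q.hi Q.hi2 hpq nw, k1.FG Q.H Q.hi Q.hi2 hqs nv]
    simp only [Pi.single_apply, mem_insert, mem_singleton]
    by_cases h1 : f = p
    · subst h1
      simp [hpq, hpq.symm, hps, hps.symm]
    · by_cases h2 : f = q
      · subst h2
        simp [hpq, hpq.symm, hqs, hqs.symm]
      · by_cases h3 : f = s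
        · subst h3
          simp [hqs, hqs.symm, hps, hps.symm]
        · simp [h1, h2, h3, Ne.symm h1, Ne.symm h2, Ne.symm h3]
  rw [sum_congr rfl e2, sum_sub_distrib, ← mul_sum, ← mul_sum, ← sum_filter, ← sum_filter,
    sum_const, sum_const]
  have e3 : ∀ a b : P, a ≠ b → a ∈ st i C → b ∈ st i C →
      ((st i C).filter (fun f => f ∈ ({a, b} : Finset P))).card = 2 := by
    intro a b hab ha hb
    have : (st i C).filter (fun f => f ∈ ({a, b} : Finset P)) = {a, b} := by
      ext y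
      rw [mem_filter]
      constructor
      · exact fun h => h.2
      · intro h
        refine ⟨?_, h⟩
        rw [mem_insert, mem_singleton] at h
        rcases h with rfl | rfl <;> assumption
    rw [this, card_pair hab]
  rw [e3 q s hqs (mem_st.2 ⟨m2, l2⟩) (mem_st.2 ⟨m3, l3⟩),
    e3 p q hpq (mem_st.2 ⟨m1, l1⟩) (mem_st.2 ⟨m2, l2⟩)]
  ring

/-- THE SECOND COEFFICIENT -/
theorem K5.al2_raw : lc (st i C).card 1 (ZC i C 2) =
    ∑ z ∈ PN i C, vp i z + (dg i K C p - dg i K C s - mm i K C {p, q} + mm i K C {q, s}) := by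
  obtain ⟨hw2, hv2, hq, hq'⟩ := Q.cards hw hv hpq hqs hps
  obtain ⟨-, -, z3, z4, z5, z6⟩ := Q.zero_vals hw hv hpq hqs hps
  have e1 : ∑ e ∈ Co i K psi C 2, lc (st i C).card 1 (tC i C e) = ∑ z ∈ PN i C, vp i z := by
    rw [Q.sum2 (fun e => lc (st i C).card 1 (tC i C e))]
    · exact sum_congr rfl fun z hz => (pd_val Q.H Q.hi Q.hi2 Q.hC hz).2.2.2.2.2
    · intro e hs h _ _
      exact cheap0_lc Q.H Q.hC hs h
  rw [Q.lc2 hq hq', e1, Q.S1_2 hw hv hpq hqs hps, Co_zero Q.H, sum_singleton, z3, z4, z5, z6]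
  unfold Dg
  rw [sum_pair hpq, sum_pair hqs]
  ring

end

end Pool.Agent.GaussPoset.Win.W4

end

/-! From `Pool.Agent.W_448w4_h10.LC` -/

section

/-!
MP_448cb3_co, G2, case B, window `j`: orders, profile and quadratic form of the component with a lower and an upper
unmatched double which share a site.  helper10.
-/

namespace Pool.Agent.GaussPoset.Win.W4

set_option linter.unusedSectionVars false

open Finset
open Pool.Agent.GaussPoset.Win.So (IV IV_chi IV_Fe)
open Pool.Agent.GaussPoset.Win.SO (LowD UppD val_gen PN vp con on)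

universe u

variable {P : Type u} [Fintype P] [PartialOrder P] [DecidableEq P] {r i : ℕ}
variable {e f : P → ℕ} {psi : P → P} {C K : Finset P} {w v : P}

section

variable (Q : K5 r i K psi C w v)
include Q

variable {q : P} (hq : q ∈ uc w) (hq' : q ∈ dc v)
include hq hq'

end

section

variable (Q : K5 r i K psi C w v) {p q s : P} (hw : uc w = {p, q}) (hv : dc v = {q, s})
  (hpq : p ≠ q) (hqs : q ≠ s) (hps : p ≠ s)
include Q hw hv hpq hqs hps

theorem K5.al2 : I2.al 2 (st i C).card (ZS i C) =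
    ∑ z ∈ PN i C, vp i z + (dg i K C p - dg i K C s - mm i K C {p, q} + mm i K C {q, s}) := by
  rw [← Q.al2_raw hw hv hpq hqs hps]
  unfold I2.al lc
  rw [coeff_ZS, pow_one]

theorem K5.be4 : I2.be 4 (st i C).card (ZS i C) = lc (st i C).card 2 (ZC i C 4) := by
  unfold I2.be lc
  rw [coeff_ZS]

/-- the number of near elements at the sites of a pendant and of a double -/
noncomputable def Ds (i : ℕ) (K C T U : Finset P) : ℤ :=
  ∑ y ∈ T, dg i K C y - mm i K C (T ∪ U)

lemma Dg_split {T U : Finset P} (h : Disjoint U T) :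
    Dg i K C (T ∪ U) = Vc i K C + ∑ y ∈ U, dg i K C y + Ds i K C T U := by
  unfold Dg Ds
  rw [sum_union h.symm]
  ring

/-- THE FORM of the component when `w32 = 0` -/
theorem K5.form (h3 : ∑ z ∈ PN i C, vp i z * (Nx i w z - Nx i v z) = 1) :
    I2.al 2 (st i C).card (ZS i C) ^ 2 - 2 * I2.be 4 (st i C).card (ZS i C) =
      ∑ q ∈ M4 i C, vp i q.1 * vp i q.2 + 2 * ((Z4 i C).card - (T4 i C).card : ℤ) + 6 -
      2 * ∑ z ∈ Z4 i C, tz i z * (Nx i w z - Nx i v z) -
      ∑ z ∈ PN i C, vp i z * (ch i C z * (Nx i w z - Nx i v z) + 2 * (Mx i w z - Mx i v z)) -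
      2 * ∑ z ∈ PN i C, vp i z * (Nx i w z * (dg i K C p + Ds i K C (sit i z) {p, q}) -
        Nx i v z * (dg i K C s + Ds i K C (sit i z) {q, s})) +
      2 * (dg i K C p + dg i K C s + dg i K C q - 2 * mm i K C {p, q}
        - 2 * mm i K C {q, s} - mm i K C {p, s}) +
      2 * (∑ z ∈ PN i C, vp i z) *
        (dg i K C p - dg i K C s - mm i K C {p, q} + mm i K C {q, s}) +
      (dg i K C p - dg i K C s - mm i K C {p, q} + mm i K C {q, s}) ^ 2 := by
  obtain ⟨hw2, hv2, hq, hq'⟩ := Q.cards hw hv hpq hqs hps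
  have nw := Q.nzw hw hv hpq hqs hps
  have nv := Q.nzv hw hv hpq hqs hps
  have hb : 1 ≤ (st i C).card := by
    obtain ⟨l1, l2, l3⟩ := Q.lpq hw hv hpq hqs hps
    obtain ⟨m1, m2, m3⟩ := Q.memC hw hv hpq hqs hps
    exact card_pos.2 ⟨p, mem_st.2 ⟨m1, l1⟩⟩
  rw [Q.be4 hw hv hpq hqs hps, Q.be4_raw hw hv hpq hqs hps hb, Q.al2 hw hv hpq hqs hps]
  have e1 : ∑ z ∈ PN i C, vp i z * (Nx i w z * (1 + Dg i K C (sit i z ∪ nz i w)) -
      Nx i v z * (1 + Dg i K C (sit i z ∪ nz i v))) =
      (1 + Vc i K C + dg i K C q) * ∑ z ∈ PN i C, vp i z * (Nx i w z - Nx i v z) +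
      ∑ z ∈ PN i C, vp i z * (Nx i w z * (dg i K C p + Ds i K C (sit i z) {p, q}) -
        Nx i v z * (dg i K C s + Ds i K C (sit i z) {q, s})) := by
    rw [mul_sum, ← sum_add_distrib]
    refine sum_congr rfl fun z _ => ?_
    have a1 : Nx i w z * (1 + Dg i K C (sit i z ∪ nz i w)) =
        Nx i w z * (1 + (Vc i K C + (dg i K C p + dg i K C q) + Ds i K C (sit i z) {p, q})) := by
      unfold Nx
      by_cases h : Disjoint (nz i w) (sit i z)
      · rw [Dg_split Q hw hv hpq hqs hps h, nw, sum_pair hpq]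
      · rw [if_neg h, zero_mul, zero_mul]
    have a2 : Nx i v z * (1 + Dg i K C (sit i z ∪ nz i v)) =
        Nx i v z * (1 + (Vc i K C + (dg i K C q + dg i K C s) + Ds i K C (sit i z) {q, s})) := by
      unfold Nx
      by_cases h : Disjoint (nz i v) (sit i z)
      · rw [Dg_split Q hw hv hpq hqs hps h, nv, sum_pair hqs]
      · rw [if_neg h, zero_mul, zero_mul]
    rw [a1, a2]
    ring
  have e2 : ∑ z ∈ PN i C, vp i z * ((2 * ((st i C).card - 8) + ch i C z) *
      (Nx i w z - Nx i v z) + 2 * (Mx i w z - Mx i v z)) =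
      2 * ((st i C).card - 8) * ∑ z ∈ PN i C, vp i z * (Nx i w z - Nx i v z) +
      ∑ z ∈ PN i C, vp i z * (ch i C z * (Nx i w z - Nx i v z) + 2 * (Mx i w z - Mx i v z)) := by
    rw [mul_sum, ← sum_add_distrib]
    exact sum_congr rfl fun z _ => by ring
  have e3 := pairs_split i C
  rw [e1, e2, h3]
  linear_combination e3

end

end Pool.Agent.GaussPoset.Win.W4

end

/-! From `Pool.Agent.W_448kf_h15.KfB` -/

section

/-!
MP_448cb3_co, G2, case B, window `j`: the row of a part, grouping of the pendants by edges, and the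
pattern [DL] (a doubled pair at the left end, followed by a lost pair).  helper15.
-/

namespace Pool.Agent.GaussPoset.Win.W4

set_option linter.unusedSectionVars false

open Finset
open Pool.Agent.GaussPoset.Win.SO (PN vp con on mem_PN vp_PD vp_PU)

universe u

variable {P : Type u} [Fintype P] [PartialOrder P] [DecidableEq P] {r i : ℕ}
variable {psi : P → P} {C K : Finset P} {w v : P} {m : ℕ} {x : ℕ → P}

/-- the sites of a part as a row, natural on the upper side -/
structure PRow (r i : ℕ) (C : Finset P) (m : ℕ) (x : ℕ → P) : Prop where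
  H : Gr P r
  hi : 1 ≤ i
  hi2 : i + 1 ≤ r
  hC : Part (i + 1) C
  lev_x : ∀ k, k ≤ m → lev (x k) = i
  inj : ∀ k l, k ≤ m → l ≤ m → x k = x l → k = l
  mem : ∀ k, k ≤ m → x k ∈ C
  surj : ∀ v ∈ C, lev v = i → ∃ k, k ≤ m ∧ x k = v
  up : ∀ k l, k < l → l ≤ m → ucv (x k) (x l) = if l = k + 1 then 1 else 0
  up1 : ∀ u ∈ C, ∀ u' ∈ C, lev u + 1 = i → lev u' + 1 = i → u ≠ u' → ucv u u' ≤ 1
  pu : ∀ a, 1 ≤ a → a + 2 ≤ m → ∀ u, x a ⋖ u → x (a + 1) ⋖ u → ∀ z, u ⋖ z → (dc z).card = 2
  uc1 : (UC i C).card ≤ 1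
  pen0 : ∀ a, 2 ≤ a → a + 2 ≤ m → pen (x a) = ∅
  cl : ∀ g, ∀ s ∈ C, uc g = {s} → g ∈ C
  zu : ∀ z ∈ ZU i C, ∀ u ∈ dc z, (dc u).card = 2
  e0 : (uc (x 0)).card = 2 → ∀ u, x 0 ⋖ u → x 1 ⋖ u → ∀ z, u ⋖ z → (dc z).card = 2
  em : (uc (x m)).card = 2 → ∀ u, x (m - 1) ⋖ u → x m ⋖ u → ∀ z, u ⋖ z → (dc z).card = 2

/-- the edges of the row -/
def ed (x : ℕ → P) (k : ℕ) : Finset P := {x k, x (k + 1)}

/-- lower pendants over an edge -/
noncomputable def DE (i : ℕ) (C : Finset P) (x : ℕ → P) (k : ℕ) : Finset P :=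
  (DC i C).filter (fun z => sit i z = ed x k)

/-- upper pendants over an edge -/
noncomputable def UE (i : ℕ) (C : Finset P) (x : ℕ → P) (k : ℕ) : Finset P :=
  (UC i C).filter (fun z => sit i z = ed x k)

/-- `N_k`: the signed number of pendants over an edge -/
noncomputable def NE (i : ℕ) (C : Finset P) (x : ℕ → P) (k : ℕ) : ℤ :=
  ((DE i C x k).card : ℤ) - (UE i C x k).card

/-- the pendants over an edge, weighted by their children -/
noncomputable def CH (i : ℕ) (C : Finset P) (x : ℕ → P) (k : ℕ) : ℤ :=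
  ∑ z ∈ (PN i C).filter (fun z => sit i z = ed x k), vp i z * ch i C z

/-- the contribution of the elements over three sites -/
noncomputable def Zs (i : ℕ) (C : Finset P) (w v : P) : ℤ :=
  2 * ((Z4 i C).card - (T4 i C).card : ℤ) - 2 * ∑ z ∈ Z4 i C, tz i z * (Nx i w z - Nx i v z)

/-- `F` of a part -/
noncomputable def Fv (i : ℕ) (C : Finset P) : ℤ :=
  I2.al 2 (st i C).card (ZS i C) + (I2.al 2 (st i C).card (ZS i C) ^ 2 -
    2 * I2.be 4 (st i C).card (ZS i C))

lemma mem_DE {z : P} {k : ℕ} : z ∈ DE i C x k ↔ z ∈ C ∧ z ∈ PD P i ∧ sit i z = ed x k := by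
  unfold DE
  rw [mem_filter, mem_DC, and_assoc]

lemma mem_UE {z : P} {k : ℕ} : z ∈ UE i C x k ↔ z ∈ C ∧ z ∈ PU P i ∧ sit i z = ed x k := by
  unfold UE
  rw [mem_filter, mem_UC, and_assoc]

lemma NE_eq (k : ℕ) : NE i C x k =
    ∑ z ∈ (PN i C).filter (fun z => sit i z = ed x k), vp i z := by
  classical
  rw [PN_eq, filter_union, sum_union (disjoint_filter_filter (DC_UC i C))]
  unfold NE DE UE
  rw [sum_congr rfl fun p hp => vp_PD (mem_DC.1 (mem_filter.1 hp).1).2,
    sum_congr (g := fun _ => (-1 : ℤ)) (s₁ := (UC i C).filter _) rfl fun p hp =>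
      vp_PU (mem_UC.1 (mem_filter.1 hp).1).2]
  simp
  ring

namespace PRow

variable (W : PRow r i C m x)
include W

lemma ne {a b : ℕ} (ha : a ≤ m) (hb : b ≤ m) (h : a ≠ b) : x a ≠ x b := fun h1 =>
  h (W.inj a b ha hb h1)

lemma mem_ed {a k : ℕ} (ha : a ≤ m) (hk : k < m) : x a ∈ ed x k ↔ a = k ∨ a = k + 1 := by
  unfold ed
  rw [mem_insert, mem_singleton]
  constructor
  · rintro (h | h)
    · exact Or.inl (W.inj _ _ ha (by omega) h)
    · exact Or.inr (W.inj _ _ ha (by omega) h)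
  · rintro (rfl | rfl)
    · exact Or.inl rfl
    · exact Or.inr rfl

lemma card_ed {k : ℕ} (hk : k < m) : (ed x k).card = 2 := by
  unfold ed
  exact card_pair (W.ne (by omega) (by omega) (by omega))

lemma ed_inj {k l : ℕ} (hk : k < m) (hl : l < m) (h : ed x k = ed x l) : k = l := by
  have h1 : x k ∈ ed x l := by rw [← h]; exact (W.mem_ed (by omega) hk).2 (Or.inl rfl)
  have h2 : x l ∈ ed x k := by rw [h]; exact (W.mem_ed (by omega) hl).2 (Or.inl rfl)
  rw [W.mem_ed (by omega) hl] at h1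
  rw [W.mem_ed (by omega) hk] at h2
  omega

lemma disj_ed {k l : ℕ} (hk : k < m) (hl : l < m) :
    Disjoint (ed x k) (ed x l) ↔ k + 2 ≤ l ∨ l + 2 ≤ k := by
  rw [disjoint_left]
  constructor
  · intro h
    have h1 := h ((W.mem_ed (a := k) (by omega) hk).2 (Or.inl rfl))
    have h2 := h ((W.mem_ed (a := k + 1) (by omega) hk).2 (Or.inr rfl))
    rw [W.mem_ed (by omega) hl] at h1 h2
    omega
  · intro h y h1 h2
    unfold ed at h1
    rw [mem_insert, mem_singleton] at h1
    rcases h1 with rfl | rfl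
    · rw [W.mem_ed (by omega) hl] at h2
      omega
    · rw [W.mem_ed (by omega) hl] at h2
      omega

lemma inter_ed {k l : ℕ} (hk : k < m) (hl : l < m) :
    ((ed x k ∩ ed x l).card = 1) ↔ (l = k + 1 ∨ k = l + 1) := by
  have e1 : (ed x k ∩ ed x l).card = (if k = l ∨ k = l + 1 then 1 else 0) +
      (if k + 1 = l ∨ k + 1 = l + 1 then 1 else 0) := by
    have h1 : ed x k ∩ ed x l = (ed x k).filter (fun y => y ∈ ed x l) := by
      rw [filter_mem_eq_inter]
    rw [h1, card_filter]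
    have h2 : ed x k = {x k, x (k + 1)} := rfl
    rw [h2, sum_pair (W.ne (by omega) (by omega) (by omega))]
    simp only [W.mem_ed (a := k) (by omega) hl, W.mem_ed (a := k + 1) (by omega) hl]
  rw [e1]
  split_ifs <;> omega

/-- the pendants of the row are over edges, if the lower doubles are -/
lemma pn_ed (hd : ∀ k l, k < l → l ≤ m → l ≠ k + 1 → dcv (x k) (x l) = 0) {z : P}
    (hz : z ∈ PN i C) : ∃ k, k < m ∧ sit i z = ed x k := by
  classical
  obtain ⟨hzC, y, -, -, -, hs2, hsl, hor⟩ := PN_dat W.H hz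
  obtain ⟨a, b, hab, hs⟩ := card_eq_two.1 hs2
  have hzl : lev z = i + 2 ∨ lev z + 2 = i := by
    rcases hor with ⟨-, h, -⟩ | ⟨-, h, -⟩
    · exact Or.inl h
    · exact Or.inr h
  have hyC : y ∈ C := by
    rcases hor with ⟨-, h, h', h4, -⟩ | ⟨-, h, h', h4, -⟩
    · exact W.hC.up hzC (mem_uc.1 (by rw [h4]; exact mem_singleton_self y))
    · exact W.hC.dn hzC (by omega) (mem_dc.1 (by rw [h4]; exact mem_singleton_self y))
  have hin : ∀ c ∈ sit i z, c ∈ C := by
    intro c hc
    rcases hor with ⟨-, h, h', -, h5, -⟩ | ⟨-, h, h', -, h5, -⟩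
    · rw [h5] at hc
      exact W.hC.up hyC (mem_uc.1 hc)
    · rw [h5] at hc
      exact W.hC.dn hyC (by omega) (mem_dc.1 hc)
  have ha : a ∈ sit i z := by rw [hs]; exact mem_insert_self _ _
  have hb : b ∈ sit i z := by rw [hs]; exact mem_insert_of_mem (mem_singleton_self _)
  obtain ⟨k, hk, rfl⟩ := W.surj a (hin a ha) (hsl a ha)
  obtain ⟨l, hl, rfl⟩ := W.surj b (hin b hb) (hsl b hb)
  have hkl : k ≠ l := by
    rintro rfl
    exact hab rfl
  -- adjacent
  have key : ∀ k l, k < l → l ≤ m → x k ∈ sit i z → x l ∈ sit i z → l = k + 1 := by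
    intro k l hkl hl h1 h2
    by_contra hne
    rcases hor with ⟨-, -, -, -, h5, -⟩ | ⟨-, -, -, -, h5, -⟩
    · rw [h5] at h1 h2
      have h3 := hd k l hkl hl hne
      unfold dcv at h3
      rw [card_eq_zero, filter_eq_empty_iff] at h3
      exact h3 (mem_univ y) ⟨mem_uc.1 h1, mem_uc.1 h2⟩
    · rw [h5] at h1 h2
      have h3 := W.up k l hkl hl
      rw [if_neg hne] at h3
      unfold ucv at h3
      rw [card_eq_zero, filter_eq_empty_iff] at h3
      exact h3 (mem_univ y) ⟨mem_dc.1 h1, mem_dc.1 h2⟩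
  rcases Nat.lt_or_gt_of_ne hkl with h | h
  · have := key k l h hl ha hb
    exact ⟨k, by omega, by rw [hs, this]; rfl⟩
  · have := key l k h hk hb ha
    exact ⟨l, by omega, by rw [hs, this, pair_comm]; rfl⟩

/-- grouping by edges -/
lemma group (hd : ∀ k l, k < l → l ≤ m → l ≠ k + 1 → dcv (x k) (x l) = 0) (f : P → ℤ)
    (g : Finset P → ℤ) : ∑ z ∈ PN i C, f z * g (sit i z) =
      ∑ k ∈ range m, (∑ z ∈ (PN i C).filter (fun z => sit i z = ed x k), f z) * g (ed x k) := by
  classical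
  have h1 : ∀ z ∈ PN i C, f z * g (sit i z) =
      ∑ k ∈ range m, if sit i z = ed x k then f z * g (ed x k) else 0 := by
    intro z hz
    obtain ⟨k, hk, hs⟩ := W.pn_ed hd hz
    rw [sum_eq_single k]
    · rw [if_pos hs, hs]
    · intro l hl hne
      rw [mem_range] at hl
      rw [if_neg]
      intro h
      exact hne (W.ed_inj hl hk (h.symm.trans hs))
    · intro h
      exact absurd (mem_range.2 hk) h
  rw [sum_congr rfl h1, sum_comm]
  refine sum_congr rfl fun k _ => ?_
  rw [← sum_filter, sum_mul]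

/-- at most one upper pendant -/
lemma ue_sum (k l : ℕ) (hk : k < m) (hl : l < m) (hkl : k ≠ l) :
    (UE i C x k).card + (UE i C x l).card ≤ 1 := by
  classical
  rw [← card_union_of_disjoint]
  · refine (card_le_card ?_).trans W.uc1
    intro z hz
    rcases mem_union.1 hz with h | h
    · exact (mem_filter.1 h).1
    · exact (mem_filter.1 h).1
  · rw [disjoint_left]
    intro z h1 h2
    exact hkl (W.ed_inj hk hl ((mem_UE.1 h1).2.2.symm.trans (mem_UE.1 h2).2.2))

/-- no upper pendant over an edge whose upper double has no single parent -/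
lemma ue_of {k : ℕ} (hk : k < m)
    (h : ∀ u, x k ⋖ u → x (k + 1) ⋖ u → ∀ z, u ⋖ z → (dc z).card = 2) : UE i C x k = ∅ := by
  rw [eq_empty_iff_forall_notMem]
  intro z hz
  obtain ⟨hzC, hz1, hz2⟩ := mem_UE.1 hz
  obtain ⟨-, y, -, -, -, -, -, hor⟩ := PN_dat W.H (C := C) (mem_PN.2 ⟨hzC, Or.inr hz1⟩)
  rcases hor with ⟨h3, -⟩ | ⟨-, -, -, h4, h5, -⟩
  · have := lev_PD h3
    have := lev_PU hz1
    omega
  · have hy : y ∈ dc z := by rw [h4]; exact mem_singleton_self y
    have ha : x k ∈ dc y := by rw [← h5, hz2]; exact (W.mem_ed (by omega) (by omega)).2 (Or.inl rfl)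
    have hb : x (k + 1) ∈ dc y := by
      rw [← h5, hz2]; exact (W.mem_ed (by omega) (by omega)).2 (Or.inr rfl)
    have := h y (mem_dc.1 ha) (mem_dc.1 hb) z (mem_dc.1 hy)
    rw [h4, card_singleton] at this
    omega

/-- no upper pendant over an inner edge -/
lemma ue_inner {k : ℕ} (h1 : 1 ≤ k) (h2 : k + 2 ≤ m) : UE i C x k = ∅ :=
  W.ue_of (by omega) (W.pu k h1 h2)

/-- no upper pendant at a closed end -/
lemma ue_zero (hm : 1 ≤ m) (h : (uc (x 0)).card = 2) : UE i C x 0 = ∅ :=
  W.ue_of hm (W.e0 h)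

lemma ue_last (hm : 1 ≤ m) (h : (uc (x m)).card = 2) : UE i C x (m - 1) = ∅ :=
  W.ue_of (by omega) (by
    have := W.em h
    rwa [show m - 1 + 1 = m by omega])

lemma uc_le {k : ℕ} (hk : k ≤ m) : (uc (x k)).card = 1 ∨ (uc (x k)).card = 2 :=
  uc_card_cases W.H (by have := W.lev_x k hk; have := W.hi; omega)

/-- inner sites have two upper covers -/
lemma uc_inner {k : ℕ} (h1 : 1 ≤ k) (h2 : k + 1 ≤ m) : (uc (x k)).card = 2 := by
  classical
  obtain ⟨n, rfl⟩ : ∃ n, k = n + 1 := ⟨k - 1, by omega⟩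
  have ha := W.up n (n + 1) (by omega) (by omega)
  have hb := W.up (n + 1) (n + 1 + 1) (by omega) (by omega)
  rw [if_pos rfl] at ha hb
  obtain ⟨a, ha⟩ := card_pos.1 (show 0 < (univ.filter
    (fun y : P => x n ⋖ y ∧ x (n + 1) ⋖ y)).card by unfold ucv at ha; omega)
  obtain ⟨b, hb⟩ := card_pos.1 (show 0 < (univ.filter
    (fun y : P => x (n + 1) ⋖ y ∧ x (n + 1 + 1) ⋖ y)).card by unfold ucv at hb; omega)
  rw [mem_filter] at ha hb
  have hab : a ≠ b := by
    rintro rfl
    have h3 := W.up n (n + 1 + 1) (by omega) (by omega)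
    rw [if_neg (by omega)] at h3
    unfold ucv at h3
    rw [card_eq_zero, filter_eq_empty_iff] at h3
    exact h3 (mem_univ a) ⟨ha.2.1, hb.2.2⟩
  have h4 : ({a, b} : Finset P) ⊆ uc (x (n + 1)) := by
    intro y hy
    rw [mem_insert, mem_singleton] at hy
    rcases hy with rfl | rfl
    · exact mem_uc.2 ha.2.2
    · exact mem_uc.2 hb.2.1
  have h5 := card_le_card h4
  rw [card_pair hab] at h5
  have h6 := W.lev_x (n + 1) (by omega)
  have h7 := W.hi
  rcases uc_card_cases W.H (x := x (n + 1)) (by omega) with h | h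
  · omega
  · exact h

/-- the degree of a site -/
lemma deg {k : ℕ} (hk : k ≤ m) : (dc (x k)).card = (pen (x k)).card +
    ∑ l ∈ (range (m + 1)).erase k, dcv (x k) (x l) := by
  classical
  have H := W.H
  have hi := W.hi
  have hlk := W.lev_x k hk
  have e1 : dc (x k) = pen (x k) ∪ ((range (m + 1)).erase k).biUnion
      (fun l => univ.filter (fun y : P => y ⋖ x k ∧ y ⋖ x l)) := by
    ext z
    rw [mem_union, mem_biUnion]
    constructor
    · intro hz
      have hz' := mem_dc.1 hz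
      have hlz := lev_cov H hz'
      rcases uc_card_cases H (x := z) (by omega) with h | h
      · exact Or.inl (mem_pen.2 ⟨hz', h⟩)
      · right
        obtain ⟨s, hs, hsk⟩ := exists_other_uc (y := x k) h
        have hls := lev_cov H hs
        have hzC := W.hC.dn (W.mem k hk) (by omega) hz'
        have hsC := W.hC.up hzC hs
        obtain ⟨l, hl, rfl⟩ := W.surj s hsC (by omega)
        refine ⟨l, mem_erase.2 ⟨fun h => hsk (by rw [h]), mem_range.2 (by omega)⟩, ?_⟩
        rw [mem_filter]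
        exact ⟨mem_univ _, hz', hs⟩
    · rintro (h | ⟨l, -, h⟩)
      · exact mem_dc.2 (mem_pen.1 h).1
      · exact mem_dc.2 (mem_filter.1 h).2.1
  have huc : ∀ l, l ≤ m → l ≠ k → ∀ z, z ⋖ x k → z ⋖ x l → uc z = {x k, x l} := by
    intro l hl hlk z h1 h2
    exact StB_uc_pair H h1 h2 (W.ne hk hl (Ne.symm hlk))
  rw [e1, card_union_of_disjoint, card_biUnion]
  · rfl
  · intro l hl l' hl' hne
    rw [mem_coe, mem_erase, mem_range] at hl hl'
    show Disjoint (univ.filter (fun y : P => y ⋖ x k ∧ y ⋖ x l))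
      (univ.filter (fun y : P => y ⋖ x k ∧ y ⋖ x l'))
    rw [disjoint_left]
    intro z h1 h2
    rw [mem_filter] at h1 h2
    have h3 := huc l (by omega) hl.1 z h1.2.1 h1.2.2
    have h4 : x l' ∈ uc z := mem_uc.2 h2.2.2
    rw [h3, mem_insert, mem_singleton] at h4
    rcases h4 with h4 | h4
    · exact W.ne (by omega) hk hl'.1 h4
    · exact W.ne (by omega) (by omega) hne.symm h4
  · rw [disjoint_left]
    intro z h1 h2
    rw [mem_biUnion] at h2
    obtain ⟨l, hl, h2⟩ := h2
    rw [mem_erase, mem_range] at hl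
    rw [mem_filter] at h2
    have h3 := huc l (by omega) hl.1 z h2.2.1 h2.2.2
    have h4 := (mem_pen.1 h1).2
    rw [h3, card_pair (W.ne hk (by omega) hl.1.symm)] at h4
    omega

/-- at most two lower covers -/
lemma dc_le {k : ℕ} (hk : k ≤ m) : (dc (x k)).card ≤ 2 := by
  have hlk := W.lev_x k hk
  have h1 := W.hi2
  obtain ⟨z, hz, hzl⟩ := W.H.exists_below (x := x k) (j := i + 1) (by omega) h1
  have : z ⋖ x k := by
    rw [W.H.covBy_iff]
    exact ⟨lt_of_le_of_ne hz (fun h => by rw [h] at hzl; omega), by omega⟩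
  rcases dc_card_cases W.H this with h | h <;> omega

end PRow

end Pool.Agent.GaussPoset.Win.W4

end

/-! From `Pool.Agent.W_448kf_h15.KfC` -/

section

/-!
MP_448cb3_co, G2, case B, window `j`: the value of `F` for a part with the pattern [DL] (a doubled pair
at the left end followed by a lost pair).  helper15.
-/

namespace Pool.Agent.GaussPoset.Win.W4

set_option linter.unusedSectionVars false

open Finset
open Pool.Agent.GaussPoset.Win.SO (PN vp con on mem_PN vp_PD vp_PU)

universe u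

variable {P : Type u} [Fintype P] [PartialOrder P] [DecidableEq P] {r i : ℕ}
variable {psi : P → P} {C K : Finset P} {w v : P} {m : ℕ} {x : ℕ → P}

/-- the pattern [DL] at the left end, `w32 = 0` -/
structure DLr (r i : ℕ) (K : Finset P) (psi : P → P) (C : Finset P) (w v : P) (m : ℕ) (x : ℕ → P) :
    Prop where
  W : PRow r i C m x
  Q : K5 r i K psi C w v
  hm : 3 ≤ m
  hw : uc w = {x 0, x 1}
  hv : dc v = {x 1, x 2}
  dn : ∀ k l, k < l → l ≤ m → dcv (x k) (x l) =
    if l = k + 1 then (if k = 0 then 2 else if k = 1 then 0 else 1) else 0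
  w32 : ∑ z ∈ PN i C, vp i z * (Nx i w z - Nx i v z) = 1

lemma kf_dcv_comm (a b : P) : dcv a b = dcv b a := by
  classical
  unfold dcv
  congr 1
  ext y
  simp only [mem_filter, mem_univ, true_and]
  exact and_comm

lemma range_split {m : ℕ} (hm : 3 ≤ m) (f : ℕ → ℤ) :
    ∑ k ∈ range m, f k = f 0 + f 1 + f 2 + ∑ k ∈ Ico 3 m, f k := by
  rw [range_eq_Ico, sum_eq_sum_Ico_succ_bot (by omega), sum_eq_sum_Ico_succ_bot (by omega),
    sum_eq_sum_Ico_succ_bot (by omega)]
  norm_num
  ring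

namespace DLr

variable (h : DLr r i K psi C w v m x)
include h

lemma hd : ∀ k l, k < l → l ≤ m → l ≠ k + 1 → dcv (x k) (x l) = 0 := by
  intro k l h1 h2 h3
  rw [h.dn k l h1 h2, if_neg h3]

lemma nw : nz i w = ed x 0 := by
  rw [nz_low h.Q.lw0, h.hw]
  rfl

lemma nv : nz i v = ed x 1 := by
  rw [nz_upp h.Q.lv0, h.hv]
  rfl

lemma n01 : x 0 ≠ x 1 := h.W.ne (by omega) (by have := h.hm; omega) (by omega)
lemma n12 : x 1 ≠ x 2 := h.W.ne (by have := h.hm; omega) (by have := h.hm; omega) (by omega)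
lemma n02 : x 0 ≠ x 2 := h.W.ne (by omega) (by have := h.hm; omega) (by omega)

/-- `Nx` at an edge -/
lemma Nw {k : ℕ} (hk : k < m) : (if Disjoint (nz i w) (ed x k) then (1 : ℤ) else 0) =
    if 2 ≤ k then 1 else 0 := by
  have := h.hm
  have e : Disjoint (nz i w) (ed x k) ↔ 2 ≤ k := by
    rw [h.nw, h.W.disj_ed (by omega) hk]
    omega
  simp only [e]

lemma Nv {k : ℕ} (hk : k < m) : (if Disjoint (nz i v) (ed x k) then (1 : ℤ) else 0) =
    if 3 ≤ k then 1 else 0 := by
  have := h.hm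
  have e : Disjoint (nz i v) (ed x k) ↔ 3 ≤ k := by
    rw [h.nv, h.W.disj_ed (by omega) hk]
    omega
  simp only [e]

lemma Mw {k : ℕ} (hk : k < m) : (if (nz i w ∩ ed x k).card = 1 then (1 : ℤ) else 0) =
    if k = 1 then 1 else 0 := by
  have := h.hm
  have e : ((nz i w ∩ ed x k).card = 1) ↔ k = 1 := by
    rw [h.nw, h.W.inter_ed (by omega) hk]
    omega
  simp only [e]

lemma Mv {k : ℕ} (hk : k < m) : (if (nz i v ∩ ed x k).card = 1 then (1 : ℤ) else 0) =
    if k = 0 ∨ k = 2 then 1 else 0 := by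
  have := h.hm
  have e : ((nz i v ∩ ed x k).card = 1) ↔ k = 0 ∨ k = 2 := by
    rw [h.nv, h.W.inter_ed (by omega) hk]
    omega
  simp only [e]

/-- nothing over the lost pair -/
lemma DE1 : DE i C x 1 = ∅ := by
  classical
  have hm := h.hm
  rw [eq_empty_iff_forall_notMem]
  intro z hz
  obtain ⟨hzC, hz1, hz2⟩ := mem_DE.1 hz
  obtain ⟨-, y, -, -, -, -, -, hor⟩ := PN_dat h.W.H (C := C) (mem_PN.2 ⟨hzC, Or.inl hz1⟩)
  rcases hor with ⟨-, -, -, h4, h5, -⟩ | ⟨h3, -⟩
  · have ha : x 1 ∈ uc y := by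
      rw [← h5, hz2]; exact (h.W.mem_ed (by omega) (by omega)).2 (Or.inl rfl)
    have hb : x 2 ∈ uc y := by
      rw [← h5, hz2]; exact (h.W.mem_ed (by omega) (by omega)).2 (Or.inr rfl)
    have h3 := h.dn 1 2 (by omega) (by omega)
    rw [if_pos rfl, if_neg (by omega), if_pos rfl] at h3
    unfold dcv at h3
    rw [card_eq_zero, filter_eq_empty_iff] at h3
    exact h3 (mem_univ y) ⟨mem_uc.1 ha, mem_uc.1 hb⟩
  · have := lev_PU h3
    have := lev_PD hz1
    omega

lemma NE1 : NE i C x 1 = 0 := by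
  unfold NE
  rw [h.DE1, h.W.ue_inner (by omega) h.hm]
  simp

/-- sums over the pendants -/
lemma sum_PN (f : P → ℤ) (g : Finset P → ℤ) : ∑ z ∈ PN i C, f z * g (sit i z) =
    ∑ k ∈ range m, (∑ z ∈ (PN i C).filter (fun z => sit i z = ed x k), f z) * g (ed x k) :=
  h.W.group h.hd f g

lemma sum_vp_split : ∑ z ∈ PN i C, vp i z = NE i C x 0 + NE i C x 2 + ∑ k ∈ Ico 3 m, NE i C x k := by
  have e1 := h.sum_PN (fun z => vp i z) (fun _ => 1)
  simp only [mul_one] at e1
  rw [e1]
  simp only [← NE_eq]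
  rw [range_split h.hm, h.NE1]
  ring

/-- `N_2 = 1` -/
lemma NE2 : NE i C x 2 = 1 := by
  have hm := h.hm
  have e1 := h.sum_PN (fun z => vp i z) (fun T => (if Disjoint (nz i w) T then (1 : ℤ) else 0) -
    (if Disjoint (nz i v) T then (1 : ℤ) else 0))
  have e2 : ∑ z ∈ PN i C, vp i z * ((if Disjoint (nz i w) (sit i z) then (1 : ℤ) else 0) -
    (if Disjoint (nz i v) (sit i z) then (1 : ℤ) else 0)) = 1 := h.w32
  rw [e2] at e1
  simp only [← NE_eq] at e1
  rw [sum_congr rfl (g := fun k => NE i C x k * ((if 2 ≤ k then 1 else 0) -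
    (if 3 ≤ k then 1 else 0)))] at e1
  · rw [range_split hm] at e1
    have e3 : ∑ k ∈ Ico 3 m, NE i C x k * ((if 2 ≤ k then 1 else 0) -
        (if 3 ≤ k then (1 : ℤ) else 0)) = 0 := by
      refine sum_eq_zero fun k hk => ?_
      rw [mem_Ico] at hk
      rw [if_pos (by omega), if_pos (by omega)]
      ring
    rw [e3] at e1
    norm_num at e1
    exact e1.symm
  · intro k hk
    rw [mem_range] at hk
    rw [h.Nw hk, h.Nv hk]

/-- the children of the pendants -/
lemma sum_ch : ∑ z ∈ PN i C, vp i z * (ch i C z * (Nx i w z - Nx i v z)) = CH i C x 2 := by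
  have hm := h.hm
  have e1 := h.sum_PN (fun z => vp i z * ch i C z)
    (fun T => (if Disjoint (nz i w) T then (1 : ℤ) else 0) -
      (if Disjoint (nz i v) T then (1 : ℤ) else 0))
  have e2 : ∑ z ∈ PN i C, vp i z * (ch i C z * (Nx i w z - Nx i v z)) =
      ∑ z ∈ PN i C, vp i z * ch i C z * ((if Disjoint (nz i w) (sit i z) then (1 : ℤ) else 0) -
      (if Disjoint (nz i v) (sit i z) then (1 : ℤ) else 0)) := by
    refine sum_congr rfl fun z _ => ?_
    unfold Nx
    ring
  rw [e2, e1]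
  have e0 : ∀ k, ∑ z ∈ (PN i C).filter (fun z => sit i z = ed x k), vp i z * ch i C z =
    CH i C x k := fun k => rfl
  simp only [e0]
  rw [sum_congr rfl (g := fun k => CH i C x k * ((if 2 ≤ k then 1 else 0) -
    (if 3 ≤ k then 1 else 0)))]
  · rw [range_split hm]
    have e3 : ∑ k ∈ Ico 3 m, CH i C x k * ((if 2 ≤ k then 1 else 0) -
        (if 3 ≤ k then (1 : ℤ) else 0)) = 0 := by
      refine sum_eq_zero fun k hk => ?_
      rw [mem_Ico] at hk
      rw [if_pos (by omega), if_pos (by omega)]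
      ring
    rw [e3]
    norm_num
  · intro k hk
    rw [mem_range] at hk
    rw [h.Nw hk, h.Nv hk]

/-- the pendants which meet a double in one site -/
lemma sum_mx : ∑ z ∈ PN i C, vp i z * (Mx i w z - Mx i v z) = - NE i C x 0 - 1 := by
  have hm := h.hm
  have e1 := h.sum_PN (fun z => vp i z)
    (fun T => (if (nz i w ∩ T).card = 1 then (1 : ℤ) else 0) -
      (if (nz i v ∩ T).card = 1 then (1 : ℤ) else 0))
  have e2 : ∑ z ∈ PN i C, vp i z * (Mx i w z - Mx i v z) =
      ∑ z ∈ PN i C, vp i z * ((if (nz i w ∩ sit i z).card = 1 then (1 : ℤ) else 0) -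
      (if (nz i v ∩ sit i z).card = 1 then (1 : ℤ) else 0)) := rfl
  rw [e2, e1]
  simp only [← NE_eq]
  rw [sum_congr rfl (g := fun k => NE i C x k * ((if k = 1 then 1 else 0) -
    (if k = 0 ∨ k = 2 then 1 else 0)))]
  · rw [range_split hm]
    have e3 : ∑ k ∈ Ico 3 m, NE i C x k * ((if k = 1 then 1 else 0) -
        (if k = 0 ∨ k = 2 then (1 : ℤ) else 0)) = 0 := by
      refine sum_eq_zero fun k hk => ?_
      rw [mem_Ico] at hk
      rw [if_neg (by omega), if_neg (by omega)]
      ring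
    rw [e3, h.NE1, h.NE2]
    norm_num
    ring
  · intro k hk
    rw [mem_range] at hk
    rw [h.Mw hk, h.Mv hk]

/-- matched lower doubles over a pair -/
lemma mmx {a b : ℕ} (hab : a < b) (hb : b ≤ m) : mm i K C {x a, x b} =
    if b = a + 1 then (if a = 1 then 0 else 1) else 0 := by
  have hm := h.hm
  rw [h.Q.mm_pair (h.W.mem a (by omega)) (h.W.lev_x a (by omega))
    (h.W.ne (by omega) hb (by omega)), h.dn a b hab hb]
  have e : (uc w = {x a, x b}) ↔ (a = 0 ∧ b = 1) := by
    rw [h.hw]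
    constructor
    · intro h1
      have h2 : x a ∈ ({x 0, x 1} : Finset P) := by rw [h1]; exact mem_insert_self _ _
      have h3 : x b ∈ ({x 0, x 1} : Finset P) := by
        rw [h1]; exact mem_insert_of_mem (mem_singleton_self _)
      rw [mem_insert, mem_singleton] at h2 h3
      rcases h2 with h2 | h2
      · have := h.W.inj _ _ (by omega) (by omega) h2
        rcases h3 with h3 | h3
        · have := h.W.inj _ _ (by omega) (by omega) h3
          omega
        · have := h.W.inj _ _ (by omega) (by omega) h3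
          omega
      · have := h.W.inj _ _ (by omega) (by omega) h2
        rcases h3 with h3 | h3
        · have := h.W.inj _ _ (by omega) (by omega) h3
          omega
        · have := h.W.inj _ _ (by omega) (by omega) h3
          omega
    · rintro ⟨rfl, rfl⟩
      rfl
  simp only [e]
  split_ifs <;> first | omega | contradiction

lemma mmx' {a b : ℕ} (hab : a < b) (hb : b ≤ m) : mm i K C {x b, x a} =
    if b = a + 1 then (if a = 1 then 0 else 1) else 0 := by
  rw [pair_comm]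
  exact h.mmx hab hb

/-- no pendants at the ends of the doubled pair -/
lemma deg0 : (dc (x 0)).card = 2 := by
  have hm := h.hm
  have h1 := h.W.deg (k := 0) (by omega)
  have h2 := h.W.dc_le (k := 0) (by omega)
  have h3 : dcv (x 0) (x 1) ≤ ∑ l ∈ (range (m + 1)).erase 0, dcv (x 0) (x l) :=
    single_le_sum (f := fun l => dcv (x 0) (x l)) (fun _ _ => Nat.zero_le _)
      (mem_erase.2 ⟨by omega, mem_range.2 (by omega)⟩)
  rw [h.dn 0 1 (by omega) (by omega), if_pos rfl, if_pos rfl] at h3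
  omega

lemma dns {k l : ℕ} (hk : k ≤ m) (hl : l ≤ m) (hkl : k ≠ l) : dcv (x k) (x l) =
    if l = k + 1 then (if k = 0 then 2 else if k = 1 then 0 else 1) else
      if k = l + 1 then (if l = 0 then 2 else if l = 1 then 0 else 1) else 0 := by
  rcases Nat.lt_or_gt_of_ne hkl with h1 | h1
  · rw [h.dn k l h1 hl]
    split_ifs <;> first | omega | contradiction
  · rw [kf_dcv_comm, h.dn l k h1 hk]
    split_ifs <;> first | omega | contradiction

lemma deg1 : (dc (x 1)).card = 2 := by
  have hm := h.hm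
  have h1 := h.W.deg (k := 1) (by omega)
  have h2 := h.W.dc_le (k := 1) (by omega)
  have h3 : dcv (x 1) (x 0) ≤ ∑ l ∈ (range (m + 1)).erase 1, dcv (x 1) (x l) :=
    single_le_sum (f := fun l => dcv (x 1) (x l)) (fun _ _ => Nat.zero_le _)
      (mem_erase.2 ⟨by omega, mem_range.2 (by omega)⟩)
  rw [h.dns (by omega) (by omega) (by omega)] at h3
  norm_num at h3
  omega

lemma deg2 : (dc (x 2)).card = 1 + (pen (x 2)).card := by
  have hm := h.hm
  have h1 := h.W.deg (k := 2) (by omega)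
  rw [sum_eq_single 3] at h1
  · rw [h.dns (by omega) (by omega) (by omega)] at h1
    norm_num at h1
    omega
  · intro l hl hne
    rw [mem_erase, mem_range] at hl
    rw [h.dns (by omega) (by omega) (Ne.symm hl.1)]
    split_ifs <;> first | omega | contradiction
  · intro h2
    exact absurd (mem_erase.2 ⟨by omega, mem_range.2 (by omega)⟩) h2

/-- the matched near elements at the sites -/
lemma dg0 : dg i K C (x 0) = (uc (x 0)).card + 1 := by
  have hm := h.hm
  rw [h.Q.dg_eq (h.W.mem 0 (by omega)) (h.W.lev_x 0 (by omega)), h.deg0, h.hw, h.hv,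
    if_pos (mem_insert_self _ _), if_neg]
  · push_cast
    ring
  · rw [mem_insert, mem_singleton]
    rintro (h1 | h1)
    · exact h.n01 h1
    · exact h.n02 h1

lemma dg1 : dg i K C (x 1) = 2 := by
  have hm := h.hm
  rw [h.Q.dg_eq (h.W.mem 1 (by omega)) (h.W.lev_x 1 (by omega)), h.deg1, h.hw, h.hv,
    h.W.uc_inner (by omega) (by omega),
    if_pos (mem_insert_of_mem (mem_singleton_self _)), if_pos (mem_insert_self _ _)]
  norm_num

lemma dg2 : dg i K C (x 2) = 2 + (pen (x 2)).card := by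
  have hm := h.hm
  rw [h.Q.dg_eq (h.W.mem 2 (by omega)) (h.W.lev_x 2 (by omega)), h.deg2, h.hw, h.hv,
    h.W.uc_inner (by omega) (by omega), if_neg,
    if_pos (mem_insert_of_mem (mem_singleton_self _))]
  · push_cast
    ring
  · rw [mem_insert, mem_singleton]
    rintro (h1 | h1)
    · exact h.n02 h1.symm
    · exact h.n12 h1.symm

lemma dg3 : dg i K C (x 3) = (dc (x 3)).card + (uc (x 3)).card := by
  have hm := h.hm
  rw [h.Q.dg_eq (h.W.mem 3 (by omega)) (h.W.lev_x 3 (by omega)), h.hw, h.hv, if_neg, if_neg]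
  · ring
  · rw [mem_insert, mem_singleton]
    rintro (h1 | h1)
    · exact h.W.ne (by omega) (by omega) (by omega) h1
    · exact h.W.ne (by omega) (by omega) (by omega) h1
  · rw [mem_insert, mem_singleton]
    rintro (h1 | h1)
    · exact h.W.ne (by omega) (by omega) (by omega) h1
    · exact h.W.ne (by omega) (by omega) (by omega) h1

/-- the weights of the pendants in the form -/
lemma Ds0 {k : ℕ} (h2 : 2 ≤ k) (hk : k < m) : Ds i K C (ed x k) {x 0, x 1} =
    dg i K C (x k) + dg i K C (x (k + 1)) - 2 := by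
  have hm := h.hm
  have n : ∀ a b, a ≤ m → b ≤ m → a ≠ b → x a ≠ x b := fun a b ha hb hab => h.W.ne ha hb hab
  have e1 : mm i K C (ed x k ∪ {x 0, x 1}) = 2 := by
    unfold ed
    rw [mm_four (n _ _ (by omega) (by omega) (by omega)) (n _ _ (by omega) (by omega) (by omega))
      (n _ _ (by omega) (by omega) (by omega)) (n _ _ (by omega) (by omega) (by omega))
      (n _ _ (by omega) (by omega) (by omega)) (n _ _ (by omega) (by omega) (by omega)),
      h.mmx (by omega) (by omega), h.mmx (by omega) (by omega), h.mmx' (by omega) (by omega),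
      h.mmx' (by omega) (by omega), h.mmx' (by omega) (by omega), h.mmx' (by omega) (by omega)]
    split_ifs <;> first | omega | contradiction
  unfold Ds
  rw [e1]
  have e2 : ed x k = {x k, x (k + 1)} := rfl
  rw [e2, sum_pair (n _ _ (by omega) (by omega) (by omega))]

end DLr

end Pool.Agent.GaussPoset.Win.W4

end
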