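import Mathlib
import Pool.Agent.W_448zz_h61.Ns
import Pool.Agent.W_448zz_h61.M146
import Pool.Agent.W_448zz_h61.M157

/-! From `Pool.Agent.W_448p_h97.PaA` -/

section

/-!
MP_448cb3_co, G2, case B, window `j`: natural cores of a part with an arbitrary set of unmatched doubles
(the statements of `W_448w4_h10` for two unmatched doubles, the same proofs).  helper97.
-/

namespace Pool.Agent.GaussPoset.Win.Pa

set_option linter.unusedSectionVars false

open Finset W4
open Pool.Agent.GaussPoset.Win.So (IV IV_chi IV_Fe)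
open Pool.Agent.GaussPoset.Win.SO (Sde Pen TD On kS tL tU sde_low sde_up kS_sum cheap_of PN vp con
  con_sub on cheap_coeff cheap_dvd)
open Pool.Agent.GaussPoset.Win.I2 (kd gu kl kn kr so cc fr KK KD lS uS mem_lS mem_uS kd_dc kd_uc gu_uc
  gu_dc adm_low adm_up KD_low KD_up fr_low fr_up)

universe u

variable {P : Type u} [Fintype P] [PartialOrder P] [DecidableEq P] {r i : ℕ}
variable {e f : P → ℕ} {psi : P → P} {C K : Finset P}

/-- a part with an arbitrary set of unmatched doubles -/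
structure PaQ (r i : ℕ) (K : Finset P) (psi : P → P) (C : Finset P) : Prop where
  H : Gr P r
  hi : 1 ≤ i
  hi2 : i + 1 ≤ r
  hM : Mat P i K psi
  hC : Part (i + 1) C
  nq : ∀ z ∈ C, lev z = i + 2 → ∀ x ∈ uc z, ∀ x' ∈ uc z, (uc x).card = 2 → (uc x').card = 2 →
    (uc x ∩ uc x').Nonempty
  nq' : ∀ z ∈ C, lev z + 2 = i → ∀ x ∈ dc z, ∀ x' ∈ dc z, (dc x).card = 2 → (dc x').card = 2 →
    (dc x ∩ dc x').Nonempty

lemma PaQ.part (Q : PaQ r i K psi C) : Part i C :=
  ⟨fun h1 h2 => Q.hC.up h1 h2, fun h1 h2 h3 => Q.hC.dn h1 (by omega) h3⟩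

lemma PaQ.hir (Q : PaQ r i K psi C) : i ≤ r := by have := Q.hi2; omega

/-- the abstract configuration of a natural core -/
theorem PaQ.cf (Q : PaQ r i K psi C) (hc : IsCore i ∅ (ps K psi) e) (hs : Spt C e)
    (hA : AdmL i e) (hB : AdmU i e) (hd : Disjoint (AL i e) (AU i e)) :
    Cf uc dc (tL (P := P) i) (tU i) (lv P i) (lS P i) (uS P i) e where
  s1 := sde_low Q.H i
  s2 := sde_up Q.H (by have := Q.hi2; omega)
  d1 := by
    rw [disjoint_left]
    intro x hx hx'
    rw [mem_lS] at hx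
    rw [mem_lv] at hx'
    omega
  d2 := by
    rw [disjoint_left]
    intro x hx hx'
    rw [mem_uS] at hx
    rw [mem_lv] at hx'
    omega
  d3 := by
    rw [disjoint_left]
    intro x hx hx'
    rw [mem_lS] at hx
    rw [mem_uS] at hx'
    omega
  adm1 := adm_low hA
  adm2 := adm_up hB
  dis := by rw [KD_low, KD_up]; exact hd
  core1 := by
    classical
    intro x hx ht he
    rw [mem_lS] at hx
    unfold tL at ht
    have hl : lev x = i + 1 := by omega
    have hn : x ∈ near P i := mem_near.2 (Or.inl hl)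
    rcases core_nearK hc hn (notMem_empty x) he with h | ⟨h1, h2⟩
    · left
      rw [mem_Tch] at h
      rcases h with ⟨-, z, hz, hz'⟩ | ⟨h3, -⟩
      · exact ⟨z, mem_dc.2 hz, hz'⟩
      · omega
    · by_cases hxK : x ∈ K
      · left
        unfold ps at h2
        rw [if_pos hxK, mem_Tch] at h2
        rcases h2 with ⟨-, z, hz, hz'⟩ | ⟨h3, -⟩
        · exact ⟨z, mem_dc.2 hz, hz'⟩
        · omega
      right
      unfold ps at h2
      rw [if_neg hxK] at h2
      have hd : x ∈ dbL P i := by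
        rcases mem_union.1 h1 with h1 | h1
        · exact h1
        · rw [mem_dbU] at h1; omega
      obtain ⟨g1, g2⟩ := Q.hM.low x hd hxK
      rw [mem_dbL] at hd
      rw [mem_dbU] at g1
      refine ⟨psi x, mem_uS.2 (by omega), by unfold tU; omega, g2, hd.2, ?_⟩
      rw [mem_Tch] at h2
      rcases h2 with ⟨h3, -⟩ | ⟨-, z, hz, hz'⟩
      · omega
      · exact ⟨z, mem_uc.2 hz, hz'⟩
  core2 := by
    classical
    intro x hx ht he
    rw [mem_uS] at hx
    unfold tU at ht
    have hl : lev x + 1 = i := by omega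
    have hn : x ∈ near P i := mem_near.2 (Or.inr hl)
    rcases core_nearK hc hn (notMem_empty x) he with h | ⟨h1, h2⟩
    · left
      rw [mem_Tch] at h
      rcases h with ⟨h3, -⟩ | ⟨-, z, hz, hz'⟩
      · omega
      · exact ⟨z, mem_uc.2 hz, hz'⟩
    · by_cases hxK : x ∈ K
      · left
        unfold ps at h2
        rw [if_pos hxK, mem_Tch] at h2
        rcases h2 with ⟨h3, -⟩ | ⟨-, z, hz, hz'⟩
        · omega
        · exact ⟨z, mem_uc.2 hz, hz'⟩
      right
      unfold ps at h2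
      rw [if_neg hxK] at h2
      have hd : x ∈ dbU P i := by
        rcases mem_union.1 h1 with h1 | h1
        · rw [mem_dbL] at h1; omega
        · exact h1
      obtain ⟨g1, g2⟩ := Q.hM.upp x hd hxK
      rw [mem_dbU] at hd
      rw [mem_dbL] at g1
      refine ⟨psi x, mem_lS.2 (by omega), by unfold tL; omega, g2, hd.2, ?_⟩
      rw [mem_Tch] at h2
      rcases h2 with ⟨-, z, hz, hz'⟩ | ⟨h3, -⟩
      · exact ⟨z, mem_dc.2 hz, hz'⟩
      · omega

lemma PaQ.nq1 (Q : PaQ r i K psi C) (hs : Spt C e) : NQ uc (tL (P := P) i) (lS P i) e := by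
  intro w hw ht he x hx x' hx' h1 h2
  rw [mem_lS] at hw
  unfold tL at ht
  exact Q.nq w (mem_of_pos hs he) (by omega) x hx x' hx' h1 h2

lemma PaQ.nq2 (Q : PaQ r i K psi C) (hs : Spt C e) : NQ dc (tU (P := P) i) (uS P i) e := by
  intro w hw ht he x hx x' hx' h1 h2
  rw [mem_uS] at hw
  unfold tU at ht
  exact Q.nq' w (mem_of_pos hs he) (by omega) x hx x' hx' h1 h2

/-- CLASSIFICATION, energy at most four -/
theorem PaQ.cls (Q : PaQ r i K psi C) (hc : IsCore i ∅ (ps K psi) e) (hs : Spt C e)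
    (hE : ∑ x, e x ≤ 4) : Cheap 1 i e ∨ (Cheap 2 i e ∧ L4 i e) := by
  by_cases hA : AdmL i e
  swap
  · exact Or.inl (Or.inl hA)
  by_cases hB : AdmU i e
  swap
  · exact Or.inl (Or.inr (Or.inl hB))
  by_cases hd : Disjoint (AL i e) (AU i e)
  swap
  · exact Or.inl (Or.inr (Or.inr (Or.inl hd)))
  rcases (Q.cf hc hs hA hB hd).classify hE (Q.nq1 hs) (Q.nq2 hs) with h | ⟨h1, h2⟩
  · exact Or.inl (cheap_of (by exact_mod_cast h))
  · exact Or.inr ⟨cheap_of (by exact_mod_cast h1), h2⟩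

/-- CLASSIFICATION, energy at most two -/
theorem PaQ.cls2 (Q : PaQ r i K psi C) (hc : IsCore i ∅ (ps K psi) e) (hs : Spt C e)
    (hE : ∑ x, e x ≤ 2) : Cheap 0 i e ∨ (Cheap 1 i e ∧ L2 i e) := by
  by_cases hA : AdmL i e
  swap
  · exact Or.inl (Or.inl hA)
  by_cases hB : AdmU i e
  swap
  · exact Or.inl (Or.inr (Or.inl hB))
  by_cases hd : Disjoint (AL i e) (AU i e)
  swap
  · exact Or.inl (Or.inr (Or.inr (Or.inl hd)))
  rcases (Q.cf hc hs hA hB hd).low2 hE with h | ⟨h1, h2⟩
  · exact Or.inl (SO.cheap_of (by exact_mod_cast h))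
  · exact Or.inr ⟨SO.cheap_of (by exact_mod_cast h1), h2⟩

/-- CLASSIFICATION, energy three -/
theorem PaQ.cls3 (Q : PaQ r i K psi C) (hc : IsCore i ∅ (ps K psi) e) (hs : Spt C e)
    (hE : ∑ x, e x = 3) :
    Cheap 0 i e ∨ ((∃ q ∈ I3 i C, m3 i q = e) ∨ ∃ z ∈ Z4 i C, mz i z = e) := by
  by_cases hA : AdmL i e
  swap
  · exact Or.inl (Or.inl hA)
  by_cases hB : AdmU i e
  swap
  · exact Or.inl (Or.inr (Or.inl hB))
  by_cases hd : Disjoint (AL i e) (AU i e)
  swap
  · exact Or.inl (Or.inr (Or.inr (Or.inl hd)))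
  rcases (Q.cf hc hs hA hB hd).low3 hE (Q.nq1 hs) (Q.nq2 hs) with h | ⟨-, h⟩
  · exact Or.inl (cheap_of (by exact_mod_cast h))
  · right
    rcases h with h | h | h | h
    · exact Or.inl (Q3_index Q.H hs h)
    · exact Or.inl (Q3_index' Q.H hs h)
    · exact Or.inr (T3_index Q.H hs h)
    · exact Or.inr (T3_index' Q.H hs h)

/-- SUMS over the cores of energy two -/
theorem PaQ.sum2 (Q : PaQ r i K psi C) (X : (P → ℕ) → ℤ)
    (hX : ∀ e, Spt C e → Cheap 0 i e → IsCore i ∅ (ps K psi) e → ∑ x, e x = 2 → X e = 0) :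
    ∑ e ∈ Co i K psi C 2, X e = ∑ p ∈ PN i C, X (on (con i p)) := by
  classical
  have H := Q.H
  have h1 : ∑ e ∈ Co i K psi C 2, X e = ∑ e ∈ (PN i C).image (fun p => on (con i p)), X e := by
    symm
    refine sum_subset ?_ ?_
    · intro e he
      rw [mem_image] at he
      obtain ⟨p, hp, rfl⟩ := he
      exact mem_Co.2 ⟨(c2_value H Q.hi Q.hi2 Q.hC hp).1, c2_spt H Q.hC hp, c2_core H hp⟩
    · intro e he hne
      obtain ⟨g1, g2, g3⟩ := mem_Co.1 he
      rcases Q.cls2 g3 g2 g1.le with h | ⟨-, h⟩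
      · exact hX e g2 h g3 g1
      · exfalso
        apply hne
        rw [mem_image]
        exact L2_index H g2 h
  rw [h1, sum_image (fun a ha b hb h => c2_inj H ha hb h)]

/-- SUMS over the cores of energy three with a label on the site `b` -/
theorem PaQ.sum3 (Q : PaQ r i K psi C) {b : P} (hbl : lev b = i)
    (X : (P → ℕ) → ℤ) (hX : ∀ e, Spt C e → Cheap 0 i e → X e = 0)
    (hX2 : ∀ e, e b = 0 → X e = 0) :
    ∑ e ∈ Co i K psi C 3, X e =
      ∑ p ∈ (PN i C).filter (fun p => (p, b) ∈ I3 i C), X (m3 i (p, b)) := by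
  classical
  have H := Q.H
  have hir := Q.hir
  have hcon : ∀ p ∈ PN i C, b ∉ con i p := by
    intro p hp h
    exact (SO.con_cls H (SO.num_PN H hp).ns).ns b h hbl
  have hval : ∀ p ∈ PN i C, ∀ g, m3 i (p, g) b = if g = b then 1 else 0 := by
    intro p hp g
    show on (con i p) b + (Pi.single g 1 : P → ℕ) b = _
    have : on (con i p) b = 0 := by
      unfold on
      rw [if_neg (hcon p hp)]
    rw [this, zero_add]
    by_cases h : g = b
    · rw [if_pos h, h, Pi.single_eq_same]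
    · rw [if_neg h, Pi.single_eq_of_ne (fun h' => h h'.symm)]
  have h1 : ∑ e ∈ Co i K psi C 3, X e =
      ∑ e ∈ ((PN i C).filter (fun p => (p, b) ∈ I3 i C)).image (fun p => m3 i (p, b)), X e := by
    symm
    refine sum_subset ?_ ?_
    · intro e he
      rw [mem_image] at he
      obtain ⟨p, hp, rfl⟩ := he
      have hq := (mem_filter.1 hp).2
      exact mem_Co.2 ⟨m3_sum H hq, (m3_val H hir Q.hC hq).2.2.2.2.2.2, m3_core H hq⟩
    · intro e he hne
      obtain ⟨g1, g2, g3⟩ := mem_Co.1 he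
      rcases Q.cls3 g3 g2 g1 with h | ⟨q, hq, h⟩ | ⟨z, hz, h⟩
      · exact hX e g2 h
      · by_cases hqb : q.2 = b
        · exfalso
          apply hne
          rw [mem_image]
          refine ⟨q.1, ?_, ?_⟩
          · rw [mem_filter]
            refine ⟨(mem_I3.1 hq).1, ?_⟩
            rw [← hqb]
            exact hq
          · show m3 i (q.1, b) = e
            rw [← hqb]
            exact h
        · apply hX2
          rw [← h]
          have := hval q.1 (mem_I3.1 hq).1 q.2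
          rw [if_neg hqb] at this
          exact this
      · apply hX2
        rw [← h]
        unfold mz on
        rw [if_neg]
        intro hbz
        have hl : lev z ≠ i := by
          rcases Z4_cases hz with ⟨-, h, -⟩ | ⟨-, h, -⟩ <;> omega
        exact (SO.con_cls H hl).ns b hbz hbl
  rw [h1, sum_image]
  intro p hp p' hp' h
  have hp1 := mem_filter.1 hp
  have hp2 := mem_filter.1 hp'
  apply c2_inj H hp1.1 hp2.1
  funext x
  have h3 := congrFun h x
  have h4 : on (con i p) x + (Pi.single b 1 : P → ℕ) x =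
      on (con i p') x + (Pi.single b 1 : P → ℕ) x := h3
  omega

/-- SUMS over the cores of energy four -/
theorem PaQ.sum4 (Q : PaQ r i K psi C) (X : (P → ℕ) → ℤ)
    (hX : ∀ e, Spt C e → Cheap 1 i e → X e = 0) :
    2 * ∑ e ∈ Co i K psi C 4, X e =
      ∑ q ∈ P4 i C, X (c4 i q) + 2 * (∑ z ∈ Z4 i C, X (cA i z) + ∑ z ∈ T4 i C, X (cB i z)) := by
  classical
  have H := Q.H
  have hir := Q.hir
  have h1 : ∑ e ∈ Co i K psi C 4, X e =
      ∑ e ∈ (P4 i C).image (c4 i) ∪ ((Z4 i C).image (cA i) ∪ (T4 i C).image (cB i)), X e := by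
    symm
    refine sum_subset ?_ ?_
    · intro e he
      simp only [mem_union, mem_image] at he
      rcases he with ⟨q, hq, rfl⟩ | ⟨z, hz, rfl⟩ | ⟨z, hz, rfl⟩
      · have hv := c4_value H Q.hi Q.hi2 Q.hC hq
        exact mem_Co.2 ⟨hv.1, c4_spt H Q.hC hq, c4_core H hq⟩
      · have hv := cA_value H hir Q.hC hz
        exact mem_Co.2 ⟨hv.1, cA_spt H Q.hC hz, cA_core H hz⟩
      · have hv := cB_value H hir Q.hC hz
        exact mem_Co.2 ⟨hv.1, cB_spt H Q.hC hz, cB_core H hz⟩
    · intro e he hne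
      obtain ⟨g1, g2, g3⟩ := mem_Co.1 he
      rcases Q.cls g3 g2 g1.le with h | ⟨-, h⟩
      · exact hX e g2 h
      · exfalso
        apply hne
        simp only [mem_union, mem_image]
        rcases h with h | h | h | h | h | h | h
        · exact Or.inl (PP_index H g2 h)
        · exact Or.inl (PP_index' H g2 h)
        · exact Or.inl (PQ_index H g2 h)
        · exact Or.inr (Or.inl (A4_index H g2 h))
        · exact Or.inr (Or.inl (A4_index' H g2 h))
        · exact Or.inr (Or.inr (B4_index H g2 h))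
        · exact Or.inr (Or.inr (B4_index' H g2 h))
  rw [h1, sum_union, sum_union]
  rotate_left
  · rw [disjoint_left]
    intro e he he'
    rw [mem_image] at he he'
    obtain ⟨z, hz, rfl⟩ := he
    obtain ⟨z', hz', h⟩ := he'
    have h2 := cA_two (i := i) z
    rw [← h] at h2
    have h3 := on_le_one (con i z' ∪ cS i z') z
    unfold cB at h2
    omega
  · rw [disjoint_union_right]
    constructor
    · rw [disjoint_left]
      intro e he he'
      rw [mem_image] at he he'
      obtain ⟨q, hq, rfl⟩ := he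
      obtain ⟨z, hz, h⟩ := he'
      have h2 := cA_two (i := i) z
      rw [h] at h2
      have h3 := on_le_one (con i q.1 ∪ con i q.2) z
      unfold c4 at h2
      omega
    · rw [disjoint_left]
      intro e he he'
      rw [mem_image] at he he'
      obtain ⟨q, hq, rfl⟩ := he
      obtain ⟨z, hz, h⟩ := he'
      obtain ⟨v, hv, hv2⟩ := cB_site H hz
      rw [h, c4_site H hq hv] at hv2
      omega
  rw [sum_image (fun a _ b _ h => cA_inj h), sum_image (fun a ha b hb h => cB_inj H ha hb h)]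
  have e1 : 2 * ∑ e ∈ (P4 i C).image (c4 i), X e = ∑ q ∈ P4 i C, X (c4 i q) := by
    have h1 : ∑ q ∈ P4 i C, X (c4 i q) =
        ∑ e ∈ (P4 i C).image (c4 i), ∑ q ∈ (P4 i C).filter (fun q => c4 i q = e), X (c4 i q) :=
      (Finset.sum_fiberwise_of_maps_to (fun q hq => mem_image_of_mem _ hq) _).symm
    rw [h1, Finset.mul_sum]
    refine Finset.sum_congr rfl fun e he => ?_
    rw [mem_image] at he
    obtain ⟨q, hq, rfl⟩ := he
    have h2 : (P4 i C).filter (fun q' => c4 i q' = c4 i q) = {q, q.swap} := by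
      ext q'
      rw [mem_filter, mem_insert, mem_singleton]
      constructor
      · rintro ⟨h3, h4⟩
        exact c4_fib H hir hq h3 h4
      · rintro (rfl | rfl)
        · exact ⟨hq, rfl⟩
        · exact ⟨P4_swap hq, c4_swap q⟩
    have hne := P4_ne H hir hq
    rw [h2, Finset.sum_pair, c4_swap]
    · ring
    · intro h
      exact hne (congrArg Prod.fst h)
  rw [← e1]
  ring

end Pool.Agent.GaussPoset.Win.Pa

end

/-! From `Pool.Agent.W_448p_h97.PaB` -/

section

/-!
MP_448cb3_co, G2, case B, window `j`: the window sum of a component with four unmatched doubles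
(two stars `w, v` and `w', v'`) as a sum over the natural cores and the labels of the two stars.
helper97.
-/

namespace Pool.Agent.GaussPoset.Win.Pa

set_option linter.unusedSectionVars false

open Finset W4
open Pool.Agent.GaussPoset.Win.So (IV IV_chi IV_Fe)

universe u

variable {P : Type u} [Fintype P] [PartialOrder P] [DecidableEq P] {r i : ℕ}
variable {e f : P → ℕ} {psi : P → P} {C K : Finset P} {w v w' v' : P}

/-! ### generating functions of labellings -/

/-- generating function over the labellings of `R` -/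
noncomputable def GF (g : P → ℕ → A) (R : Finset P) : PowerSeries A :=
  PowerSeries.mk fun m => ∑ l ∈ R.piAntidiag m, ∏ x ∈ R, g x (l x)

lemma GF_empty (g : P → ℕ → A) : GF g (∅ : Finset P) = 1 := by
  ext1 m
  unfold GF
  rw [PowerSeries.coeff_mk, PowerSeries.coeff_one]
  rcases Nat.eq_zero_or_pos m with rfl | hm
  · rw [Finset.piAntidiag_zero, Finset.sum_singleton, Finset.prod_empty, if_pos rfl]
  · rw [Finset.piAntidiag_empty_of_ne_zero (by omega), Finset.sum_empty, if_neg (by omega)]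

lemma GF_insert (g : P → ℕ → A) {R : Finset P} {x : P} (hx : x ∉ R) :
    GF g (insert x R) = PowerSeries.mk (g x) * GF g R := by
  ext1 m
  rw [PowerSeries.coeff_mul]
  unfold GF
  rw [PowerSeries.coeff_mk, sum_pa_insert g hx m]
  refine sum_congr rfl fun p _ => ?_
  rw [PowerSeries.coeff_mk, PowerSeries.coeff_mk]

lemma GF_prod (g : P → ℕ → A) (R : Finset P) : GF g R = ∏ x ∈ R, PowerSeries.mk (g x) := by
  classical
  induction R using Finset.induction_on with
  | empty => rw [GF_empty, Finset.prod_empty]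
  | insert x R hx ih => rw [GF_insert g hx, Finset.prod_insert hx, ih]

open Classical in
/-- the generating function of an unmatched element -/
noncomputable def TX (i : ℕ) (e : P → ℕ) (x : P) (S : Finset P) : PowerSeries A :=
  if x ∈ Tch i e then 1 else PowerSeries.mk fun a => wt i e x a S

/-- the coefficients of `TX` -/
noncomputable def tx (i : ℕ) (e : P → ℕ) (x : P) (a : ℕ) (S : Finset P) : A :=
  PowerSeries.coeff a (TX i e x S)

/-- the sum over the labels of two unmatched elements -/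
noncomputable def WW (i : ℕ) (e : P → ℕ) (x y : P) (n : ℕ) (S : Finset P) : A :=
  ∑ p ∈ antidiagonal n, tx i e x p.1 S * tx i e y p.2 S

lemma coeff_WW (x y : P) (n : ℕ) (S : Finset P) :
    PowerSeries.coeff n (TX i e x S * TX i e y S) = WW i e x y n S := by
  rw [PowerSeries.coeff_mul]
  rfl

lemma tx_free {x : P} (h : x ∉ Tch i e) (a : ℕ) (S : Finset P) : tx i e x a S = wt i e x a S := by
  unfold tx TX
  rw [if_neg h, PowerSeries.coeff_mk]

lemma tx_tch {x : P} (h : x ∈ Tch i e) (a : ℕ) (S : Finset P) :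
    tx i e x a S = if a = 0 then 1 else 0 := by
  unfold tx TX
  rw [if_pos h, PowerSeries.coeff_one]

/-- a component with exactly four unmatched doubles -/
structure K9 (r i : ℕ) (K : Finset P) (psi : P → P) (C : Finset P) (w v w' v' : P) : Prop
    extends PaQ r i K psi C where
  hK : ∀ x ∈ C, x ∈ K ↔ x = w ∨ x = v ∨ x = w' ∨ x = v'
  wC : w ∈ C
  vC : v ∈ C
  wC' : w' ∈ C
  vC' : v' ∈ C
  lw : lev w = i + 1
  lv : lev v + 1 = i
  lw' : lev w' = i + 1
  lv' : lev v' + 1 = i
  nww : w ≠ w'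
  nvv : v ≠ v'

section

variable (Q : K9 r i K psi C w v w' v')
include Q

lemma K9.nw : w ∈ near P i := mem_near.2 (Or.inl Q.lw)
lemma K9.nv : v ∈ near P i := mem_near.2 (Or.inr Q.lv)
lemma K9.nw' : w' ∈ near P i := mem_near.2 (Or.inl Q.lw')
lemma K9.nv' : v' ∈ near P i := mem_near.2 (Or.inr Q.lv')
lemma K9.wK : w ∈ K := (Q.hK w Q.wC).2 (Or.inl rfl)
lemma K9.vK : v ∈ K := (Q.hK v Q.vC).2 (Or.inr (Or.inl rfl))
lemma K9.wK' : w' ∈ K := (Q.hK w' Q.wC').2 (Or.inr (Or.inr (Or.inl rfl)))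
lemma K9.vK' : v' ∈ K := (Q.hK v' Q.vC').2 (Or.inr (Or.inr (Or.inr rfl)))

lemma K9.nwv : w ≠ v := by
  have := Q.lw
  have := Q.lv
  rintro rfl
  omega

lemma K9.nwv' : w ≠ v' := by
  have := Q.lw
  have := Q.lv'
  rintro rfl
  omega

lemma K9.nvw' : v ≠ w' := by
  have := Q.lw'
  have := Q.lv
  rintro rfl
  omega

lemma K9.nwv'' : w' ≠ v' := by
  have := Q.lw'
  have := Q.lv'
  rintro rfl
  omega

/-- the four elements -/
lemma K9.RK_ps (e : P → ℕ) : RK i ∅ (ps K psi) C e = RK i K psi C e ∪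
    ({w, v, w', v'} : Finset P).filter (fun x => x ∉ Tch i e) := by
  ext x
  rw [mem_RK_ps, mem_union, mem_filter]
  simp only [mem_insert, mem_singleton]
  constructor
  · rintro (h | ⟨h1, h2, h3, h4⟩)
    · exact Or.inl h
    · exact Or.inr ⟨(Q.hK x h3).1 h1, h4⟩
  · rintro (h | ⟨h, h4⟩)
    · exact Or.inl h
    · right
      rcases h with rfl | rfl | rfl | rfl
      · exact ⟨Q.wK, Q.nw, Q.wC, h4⟩
      · exact ⟨Q.vK, Q.nv, Q.vC, h4⟩
      · exact ⟨Q.wK', Q.nw', Q.wC', h4⟩
      · exact ⟨Q.vK', Q.nv', Q.vC', h4⟩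

/-- THE SPLIT of the sum over the labellings of the free near elements -/
theorem K9.GK_split (e : P → ℕ) (m : ℕ) (S : Finset P) :
    GK i ∅ (ps K psi) C e m S = ∑ p ∈ antidiagonal m, ∑ t ∈ antidiagonal p.2,
      WW i e w v p.1 S * (WW i e w' v' t.1 S * GK i K psi C e t.2 S) := by
  classical
  obtain ⟨g, hg⟩ : ∃ g : P → ℕ → A, g = fun x a => wt i e x a S := ⟨_, rfl⟩
  have h1 : GK i ∅ (ps K psi) C e m S =
      PowerSeries.coeff m (GF g (RK i ∅ (ps K psi) C e)) := by
    unfold GK GF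
    rw [PowerSeries.coeff_mk, hg]
  have h2 : ∀ m, GK i K psi C e m S = PowerSeries.coeff m (GF g (RK i K psi C e)) := by
    intro m
    unfold GK GF
    rw [PowerSeries.coeff_mk, hg]
  have hdis : Disjoint (RK i K psi C e)
      (({w, v, w', v'} : Finset P).filter (fun x => x ∉ Tch i e)) := by
    rw [disjoint_left]
    intro x hx hx'
    rw [mem_filter] at hx'
    simp only [mem_insert, mem_singleton] at hx'
    have hK : x ∈ K := by
      rcases hx'.1 with rfl | rfl | rfl | rfl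
      · exact Q.wK
      · exact Q.vK
      · exact Q.wK'
      · exact Q.vK'
    exact notMem_RK hK hx
  have h3 : ∏ x ∈ ({w, v, w', v'} : Finset P).filter (fun x => x ∉ Tch i e),
      PowerSeries.mk (g x) = TX i e w S * TX i e v S * (TX i e w' S * TX i e v' S) := by
    have h4 : ∀ x, (if x ∉ Tch i e then PowerSeries.mk (g x) else (1 : PowerSeries A)) =
        TX i e x S := by
      intro x
      unfold TX
      rw [hg]
      by_cases hx : x ∈ Tch i e
      · rw [if_pos hx, if_neg (not_not.2 hx)]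
      · rw [if_neg hx, if_pos hx]
    rw [Finset.prod_filter, prod_congr rfl fun x _ => h4 x, prod_insert, prod_insert, prod_insert,
      prod_singleton]
    · ring
    · rw [mem_singleton]
      exact Q.nwv''
    · rw [mem_insert, mem_singleton, not_or]
      exact ⟨Q.nvw', Q.nvv⟩
    · rw [mem_insert, mem_insert, mem_singleton, not_or, not_or]
      exact ⟨Q.nwv, Q.nww, Q.nwv'⟩
  rw [h1, Q.RK_ps e, GF_prod, prod_union hdis, h3, mul_comm, ← GF_prod, mul_assoc,
    PowerSeries.coeff_mul]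
  refine sum_congr rfl fun p _ => ?_
  rw [coeff_WW, PowerSeries.coeff_mul, mul_sum]
  refine sum_congr rfl fun t _ => ?_
  rw [coeff_WW, h2]

end

/-- the contribution of a natural core with energies `a`, `b` on the two stars and `m` on the free near
elements -/
noncomputable def J9 (i : ℕ) (K : Finset P) (psi : P → P) (C : Finset P) (w v w' v' : P)
    (e : P → ℕ) (a b m : ℕ) : A :=
  IV (st i C) (fun S => Fe i e S * (WW i e w v a S * (WW i e w' v' b S * GK i K psi C e m S)))

section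

variable (Q : K9 r i K psi C w v w' v')
include Q

/-- THE WINDOW SUM -/
theorem K9.ZC_split (n : ℕ) :
    ZC i C n = ∑ q ∈ range (n + 1), ∑ e ∈ Co i K psi C q,
      ∑ p ∈ antidiagonal (n - q), ∑ t ∈ antidiagonal p.2,
        J9 i K psi C w v w' v' e p.1 t.1 t.2 := by
  classical
  rw [ZC_coresK Q.H Q.hir ∅ (ps K psi) Q.part n]
  refine sum_congr rfl fun q _ => ?_
  have h0 : (C.piAntidiag q).filter (IsCore i ∅ (ps K psi)) = Co i K psi C q := by
    unfold Co
    congr
  rw [h0]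
  refine sum_congr rfl fun e he => ?_
  unfold JK
  have h1 : (fun S => Fe i e S * GK i ∅ (ps K psi) C e (n - q) S) =
      fun S => ∑ p ∈ antidiagonal (n - q), ∑ t ∈ antidiagonal p.2,
        Fe i e S * (WW i e w v p.1 S * (WW i e w' v' t.1 S * GK i K psi C e t.2 S)) := by
    funext S
    rw [Q.GK_split, mul_sum]
    refine sum_congr rfl fun p _ => ?_
    rw [mul_sum]
  rw [h1]
  refine (IV_sum _ _ (fun (p : ℕ × ℕ) S => ∑ t ∈ antidiagonal p.2,
        Fe i e S * (WW i e w v p.1 S * (WW i e w' v' t.1 S * GK i K psi C e t.2 S)))).trans ?_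
  refine sum_congr rfl fun p _ => ?_
  exact IV_sum _ _ (fun (t : ℕ × ℕ) S => Fe i e S * (WW i e w v p.1 S * (WW i e w' v' t.1 S *
    GK i K psi C e t.2 S)))

end

/-! ### orders -/

/-- the coefficients have at most one deficit -/
lemma Rk_tx (H : Gr P r) (hi : 1 ≤ i) (hi2 : i + 1 ≤ r) {x : P} (hx : x ∈ near P i) (a : ℕ) :
    Rk (lv P i) (ind a) (tx i e x a) := by
  by_cases hT : x ∈ Tch i e
  · refine Rk_congr (f := fun _ => if a = 0 then 1 else 0) (fun S _ => (tx_tch hT a S).symm) ?_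
    by_cases ha : a = 0
    · rw [if_pos ha, ha, ind_zero]
      exact Rk_const _ 0 1
    · rw [if_neg ha]
      exact Rk_zero _ _
  · exact Rk_congr (fun S _ => (tx_free hT a S).symm) (Rk_wt H hi hi2 hx a)

/-- two labels: at most two deficits -/
lemma Rk_WW2 (H : Gr P r) (hi : 1 ≤ i) (hi2 : i + 1 ≤ r) {x y : P} (hx : x ∈ near P i)
    (hy : y ∈ near P i) (n : ℕ) : Rk (lv P i) (min n 2) (WW i e x y n) := by
  refine Rk_congr (f := fun S => ∑ p ∈ antidiagonal n, tx i e x p.1 S * tx i e y p.2 S)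
    (fun S _ => rfl) ?_
  refine Rk_sum _ fun p hp => ?_
  rw [HasAntidiagonal.mem_antidiagonal] at hp
  refine Rk_mono ?_ (Rk_mul (Rk_tx H hi hi2 hx p.1) (Rk_tx H hi hi2 hy p.2))
  unfold ind
  split_ifs <;> omega

/-- a common site without label, or a touched element: at most one deficit -/
lemma Rk_WW1 (H : Gr P r) (hi : 1 ≤ i) (hi2 : i + 1 ≤ r) {x y q : P} (hx : lev x = i + 1)
    (hy : lev y + 1 = i) (hq : q ∈ uc x) (hq' : q ∈ dc y)
    (h : e q = 0 ∨ x ∈ Tch i e ∨ y ∈ Tch i e) (n : ℕ) :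
    Rk (lv P i) (min n 1) (WW i e x y n) := by
  have hx' : x ∈ near P i := mem_near.2 (Or.inl hx)
  have hy' : y ∈ near P i := mem_near.2 (Or.inr hy)
  refine Rk_congr (f := fun S => ∑ p ∈ antidiagonal n, tx i e x p.1 S * tx i e y p.2 S)
    (fun S _ => rfl) ?_
  refine Rk_sum _ fun p hp => ?_
  rw [HasAntidiagonal.mem_antidiagonal] at hp
  by_cases hab : p.1 = 0 ∨ p.2 = 0
  · refine Rk_mono ?_ (Rk_mul (Rk_tx H hi hi2 hx' p.1) (Rk_tx H hi hi2 hy' p.2))
    unfold ind
    split_ifs <;> omega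
  · refine Rk_congr (f := fun _ => 0) (fun S _ => ?_) (Rk_zero _ _)
    symm
    show tx i e x p.1 S * tx i e y p.2 S = 0
    by_cases hTx : x ∈ Tch i e
    · rw [tx_tch hTx, if_neg (by omega), zero_mul]
    by_cases hTy : y ∈ Tch i e
    · rw [tx_tch hTy, if_neg (by omega), mul_zero]
    have h0 : e q = 0 := by
      rcases h with h | h | h
      · exact h
      · exact absurd h hTx
      · exact absurd h hTy
    rw [tx_free hTx, tx_free hTy, wt_low hx, wt_upp hy]
    have q1 : q ∈ kz i e x p.1 := mem_kz.2 ⟨by rw [nz_low hx]; exact hq, by omega⟩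
    have q2 : q ∈ kz i e y p.2 := mem_kz.2 ⟨by rw [nz_upp hy]; exact hq', by omega⟩
    by_cases hS : q ∈ S
    · have : chi ∅ (kz i e y p.2) S = 0 := by
        unfold chi
        rw [if_neg]
        rintro ⟨-, h2⟩
        exact disjoint_left.1 h2 q2 hS
      rw [this]
      ring
    · have : chi (kz i e x p.1) ∅ S = 0 := by
        unfold chi
        rw [if_neg]
        rintro ⟨h2, -⟩
        exact hS (h2 q1)
      rw [this]
      ring

open Classical in
/-- the star is open: its centre has a label and its elements are untouched -/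
noncomputable def bt (i : ℕ) (e : P → ℕ) (w v q : P) : ℕ :=
  if 1 ≤ e q ∧ w ∉ Tch i e ∧ v ∉ Tch i e then 1 else 0

/-- the number of deficits of a star of energy `n` -/
def rk (n β : ℕ) : ℕ := if n = 0 then 0 else if n = 1 then 1 else 1 + β

lemma bt_le (w v q : P) : bt i e w v q ≤ 1 := by
  unfold bt
  split_ifs <;> omega

lemma Rk_WW (H : Gr P r) (hi : 1 ≤ i) (hi2 : i + 1 ≤ r) {x y q : P} (hx : lev x = i + 1)
    (hy : lev y + 1 = i) (hq : q ∈ uc x) (hq' : q ∈ dc y) (n : ℕ) :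
    Rk (lv P i) (rk n (bt i e x y q)) (WW i e x y n) := by
  have hx' : x ∈ near P i := mem_near.2 (Or.inl hx)
  have hy' : y ∈ near P i := mem_near.2 (Or.inr hy)
  by_cases h : 1 ≤ e q ∧ x ∉ Tch i e ∧ y ∉ Tch i e
  · have hb : bt i e x y q = 1 := by unfold bt; rw [if_pos h]
    rw [hb]
    refine Rk_mono ?_ (Rk_WW2 H hi hi2 hx' hy' n)
    unfold rk
    split_ifs <;> omega
  · have hb : bt i e x y q = 0 := by unfold bt; rw [if_neg h]
    rw [hb]
    refine Rk_mono ?_ (Rk_WW1 H hi hi2 hx hy hq hq' ?_ n)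
    · unfold rk
      split_ifs <;> omega
    · by_contra hcon
      rw [not_or, not_or] at hcon
      exact h ⟨by omega, hcon.2.1, hcon.2.2⟩

section

variable (Q : K9 r i K psi C w v w' v')
include Q

/-- ORDER of a contribution -/
theorem K9.J9_od {k : ℕ} (hk : Cheap k i e) {b b' : P} (hb : b ∈ uc w) (hb1 : b ∈ dc v)
    (hb' : b' ∈ uc w') (hb1' : b' ∈ dc v') (n1 n2 m : ℕ) :
    od (st i C).card (k + rk n1 (bt i e w v b) + rk n2 (bt i e w' v' b'))
      (J9 i K psi C w v w' v' e n1 n2 m) := by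
  unfold J9
  apply od_of_Rk
  have h1 := Rk_mul (Rk_of_cheap hk) (Rk_mul (Rk_WW (e := e) Q.H Q.hi Q.hi2 Q.lw Q.lv hb hb1 n1)
    (Rk_mul (Rk_WW (e := e) Q.H Q.hi Q.hi2 Q.lw' Q.lv' hb' hb1' n2)
      (GK_Rk Q.H Q.hi Q.hi2 Q.hM Q.hC e m)))
  rw [add_zero, ← add_assoc] at h1
  exact h1

end

end Pool.Agent.GaussPoset.Win.Pa

end

/-! From `Pool.Agent.W_448p_h97.PaC` -/

section

/-!
MP_448cb3_co, G2, case B, window `j`: the deficits of the natural cores of a component with two stars,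
the orders of the window sum and its leading terms.  helper97.
-/

namespace Pool.Agent.GaussPoset.Win.Pa

set_option linter.unusedSectionVars false

open Finset W4
open Pool.Agent.GaussPoset.Win.So (IV IV_chi IV_Fe)
open Pool.Agent.GaussPoset.Win.I2 (lS uS mem_lS mem_uS)

universe u

variable {P : Type u} [Fintype P] [PartialOrder P] [DecidableEq P] {r i : ℕ}
variable {e f : P → ℕ} {psi : P → P} {C K : Finset P} {w v w' v' : P}

/-- a natural core has no simple edge -/
lemma core_SK (hM : Mat P i K psi) (hc : IsCore i ∅ (ps K psi) e) : K2.SK i K psi e = ∅ := by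
  rw [Finset.eq_empty_iff_forall_notMem]
  intro y hy
  rw [K2.mem_SK] at hy
  obtain ⟨hd, hK, hS⟩ := hy
  obtain ⟨p1, p2, p3, p4⟩ := K2.psi_low hM hd hK
  have l1 := mem_dbL.1 hd
  have l2 := mem_dbU.1 p1
  have t1 : y ∉ Tch i e := by
    rw [mem_Tch]
    rintro (⟨-, z, hz, h0⟩ | ⟨h, -⟩)
    · have := hS.lo z (mem_dc.2 hz)
      omega
    · omega
  have t2 : psi y ∉ Tch i e := by
    rw [mem_Tch]
    rintro (⟨h, -⟩ | ⟨-, z, hz, h0⟩)
    · omega
    · have := hS.up z (mem_uc.2 hz)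
      omega
  have e1 : e y = 0 := hc y (mem_Rst.2 ⟨mem_near.2 (Or.inl l1.1), notMem_empty y, t1, by
    rintro ⟨-, h⟩
    unfold ps at h
    rw [if_neg hK] at h
    exact t2 h⟩)
  have e2 : e (psi y) = 0 := hc _ (mem_Rst.2 ⟨mem_near.2 (Or.inr l2.1), notMem_empty _, t2, by
    rintro ⟨-, h⟩
    unfold ps at h
    rw [if_neg p4, p3] at h
    exact t1 h⟩)
  rcases hS.one with h | h <;> omega

/-- a natural core has no unexcited bad element of `K` -/
lemma core_KB (H : Gr P r) (hir : i ≤ r) (hq : K2.NoQ P (i + 2)) (hg : ∀ m, m + 1 = i → Good P m)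
    (hM : Mat P i K psi) (hc : IsCore i ∅ (ps K psi) e) : K2.KB i K e = ∅ := by
  rw [Finset.eq_empty_iff_forall_notMem]
  intro y hy
  rw [K2.mem_KB] at hy
  obtain ⟨hK, ⟨h1, h2⟩ | ⟨h1, h2⟩⟩ := hy
  · obtain ⟨h3, h4⟩ := K2.mem_bL hM H hq h1
    have l1 := mem_dbL.1 h3
    have t1 : y ∉ Tch i e := by
      rw [mem_Tch]
      rintro (⟨-, z, hz, h0⟩ | ⟨h, -⟩)
      · have := h2 z (mem_dc.2 hz)
        omega
      · omega
    have e1 : e y = 0 := hc y (mem_Rst.2 ⟨mem_near.2 (Or.inl l1.1), notMem_empty y, t1, by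
      rintro ⟨-, h⟩
      unfold ps at h
      rw [if_pos hK] at h
      exact t1 h⟩)
    omega
  · obtain ⟨h3, h4⟩ := K2.mem_bU hM H hir hg h1
    have l1 := mem_dbU.1 h3
    have t1 : y ∉ Tch i e := by
      rw [mem_Tch]
      rintro (⟨h, -⟩ | ⟨-, z, hz, h0⟩)
      · omega
      · have := h2 z (mem_uc.2 hz)
        omega
    have e1 : e y = 0 := hc y (mem_Rst.2 ⟨mem_near.2 (Or.inr l1.1), notMem_empty y, t1, by
      rintro ⟨-, h⟩
      unfold ps at h
      rw [if_pos hK] at h
      exact t1 h⟩)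
    omega

/-- the sites of the two stars -/
structure K9b (r i : ℕ) (K : Finset P) (psi : P → P) (C : Finset P) (w v w' v' b b' : P) : Prop
    extends K9 r i K psi C w v w' v' where
  hb : b ∈ uc w
  hb1 : b ∈ dc v
  hb' : b' ∈ uc w'
  hb1' : b' ∈ dc v'
  nbb : b ≠ b'
  NQ2 : K2.NoQ P (i + 2)
  Gd : ∀ m, m + 1 = i → Good P m
  tw : ∃ x, x ∉ K ∧ uc x = uc w
  tw' : ∃ x, x ∉ K ∧ uc x = uc w'

section

variable {b b' : P} (Q : K9b r i K psi C w v w' v' b b')
include Q

lemma K9b.lb : lev b = i := by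
  have := lev_uc Q.H Q.hb
  have := Q.lw
  omega

lemma K9b.lb' : lev b' = i := by
  have := lev_uc Q.H Q.hb'
  have := Q.lw'
  omega

/-- no site is full on both sides -/
theorem K9b.full (hs : Spt C e) (hd : Disjoint (AL i e) (AU i e)) {x : P} (hx : lev x = i)
    (h1 : ∀ y ∈ dc x, y ∈ K2.bL i e) (h1' : ∃ y, y ∈ dc x)
    (h2 : ∀ y ∈ uc x, y ∈ K2.bU i e) : False := by
  have H := Q.H
  have hir := Q.hir
  have key : ∀ y ∈ dc x, y ∈ K := by
    intro y hy
    by_contra hyK
    have hyb := h1 y hy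
    obtain ⟨h3, h4⟩ := K2.mem_bL Q.hM H Q.NQ2 hyb
    obtain ⟨p1, p2, p3, p4⟩ := K2.psi_low Q.hM h3 hyK
    have l1 := mem_dbL.1 h3
    have l2 := mem_dbU.1 p1
    have h5 : psi y ∈ uc x := by
      rw [mem_uc, ← mem_dc, p2, mem_uc, ← mem_dc]
      exact hy
    have h6 := h2 _ h5
    refine K2.bad_ns_ne H hir Q.NQ2 Q.Gd hd (k := y) (k' := psi y) ?_ ?_ ?_ ?_
    · exact mem_union_left _ hyb
    · exact mem_union_right _ h6
    · intro h
      rw [← h] at l2
      omega
    · unfold ns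
      rw [if_pos l1.1, if_neg (by omega), p2]
  obtain ⟨y, hy⟩ := h1'
  have hyC : y ∈ C := by
    have := (K2.mem_bL Q.hM H Q.NQ2 (h1 y hy)).2
    exact mem_of_pos hs (by omega)
  have hyl := (mem_dbL.1 (K2.mem_bL Q.hM H Q.NQ2 (h1 y hy)).1).1
  have hxy : x ∈ uc y := mem_uc.2 (mem_dc.1 hy)
  rcases (Q.hK y hyC).1 (key y hy) with h | h | h | h
  · obtain ⟨t, t1, t2⟩ := Q.tw
    rw [h, ← t2] at hxy
    exact t1 (key t (mem_dc.2 (mem_uc.1 hxy)))
  · have := Q.lv
    rw [h] at hyl
    omega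
  · obtain ⟨t, t1, t2⟩ := Q.tw'
    rw [h, ← t2] at hxy
    exact t1 (key t (mem_dc.2 (mem_uc.1 hxy)))
  · have := Q.lv'
    rw [h] at hyl
    omega

/-- THE NATURAL BOUND -/
theorem K9b.nb (hc : IsCore i ∅ (ps K psi) e) (hs : Spt C e) (hA : AdmL i e) (hB : AdmU i e)
    (hd : Disjoint (AL i e) (AU i e)) :
    2 * ((AL i e).card + (AU i e).card) + bt i e w v b + bt i e w' v' b' ≤
      ∑ x, e x + 2 * (pL i e + pU i e) := by
  classical
  have H := Q.H
  have hir := Q.hir
  obtain ⟨XL, XU, hXL, hXU, h⟩ := K2.main_K Q.hM H hir Q.NQ2 Q.Gd hA hB hd (δ := 0) (Or.inl rfl)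
  rw [core_SK Q.hM hc, core_KB H hir Q.NQ2 Q.Gd Q.hM hc, card_empty] at h
  have hdis : Disjoint XL XU := by
    rw [disjoint_left]
    intro x hx hx'
    obtain ⟨g1, g2, g3, g4⟩ := hXL x hx
    obtain ⟨k1, k2, k3, k4⟩ := hXU x hx'
    exact Q.full hs hd g1 (fun y hy => (g4 y hy).1) g3 (fun y hy => (k4 y hy).1)
  obtain ⟨B, hBd⟩ : ∃ B : Finset P, B = ({b, b'} : Finset P).filter (fun x =>
      (x = b ∧ bt i e w v b = 1) ∨ (x = b' ∧ bt i e w' v' b' = 1)) := ⟨_, rfl⟩
  have hB1 : ∀ x ∈ B, lev x = i ∧ 1 ≤ e x ∧ x ∉ XL ∧ x ∉ XU := by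
    intro x hx
    rw [hBd, mem_filter] at hx
    have gen : ∀ {w v b : P}, lev w = i + 1 → lev v + 1 = i → b ∈ uc w → b ∈ dc v →
        bt i e w v b = 1 → lev b = i ∧ 1 ≤ e b ∧ b ∉ XL ∧ b ∉ XU := by
      intro w v b lw lv bw bv hb
      unfold bt at hb
      have hb' : 1 ≤ e b ∧ w ∉ Tch i e ∧ v ∉ Tch i e := by
        by_contra hcon
        rw [if_neg hcon] at hb
        omega
      have hl := lev_uc H bw
      refine ⟨by omega, hb'.1, ?_, ?_⟩
      · intro hX
        obtain ⟨z, hz, hz1⟩ := ((hXL b hX).2.2.2 w (mem_dc.2 (mem_uc.1 bw))).2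
        exact hb'.2.1 (mem_Tch.2 (Or.inl ⟨lw, z, mem_dc.1 hz, hz1⟩))
      · intro hX
        obtain ⟨z, hz, hz1⟩ := ((hXU b hX).2.2.2 v (mem_uc.2 (mem_dc.1 bv))).2
        exact hb'.2.2 (mem_Tch.2 (Or.inr ⟨lv, z, mem_uc.1 hz, hz1⟩))
    rcases hx.2 with ⟨rfl, h2⟩ | ⟨rfl, h2⟩
    · exact gen Q.lw Q.lv Q.hb Q.hb1 h2
    · exact gen Q.lw' Q.lv' Q.hb' Q.hb1' h2
  have hBc : bt i e w v b + bt i e w' v' b' ≤ B.card := by
    have g1 := bt_le (i := i) (e := e) w v b
    have g2 := bt_le (i := i) (e := e) w' v' b'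
    have m1 : bt i e w v b = 1 → b ∈ B := by
      intro h
      rw [hBd, mem_filter]
      exact ⟨mem_insert_self _ _, Or.inl ⟨rfl, h⟩⟩
    have m2 : bt i e w' v' b' = 1 → b' ∈ B := by
      intro h
      rw [hBd, mem_filter]
      exact ⟨mem_insert_of_mem (mem_singleton_self _), Or.inr ⟨rfl, h⟩⟩
    rcases Nat.eq_zero_or_pos (bt i e w v b) with z1 | z1 <;>
      rcases Nat.eq_zero_or_pos (bt i e w' v' b') with z2 | z2
    · omega
    · have := card_pos.2 ⟨b', m2 (by omega)⟩
      omega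
    · have := card_pos.2 ⟨b, m1 (by omega)⟩
      omega
    · have h3 : ({b, b'} : Finset P) ⊆ B := by
        intro x hx
        rw [mem_insert, mem_singleton] at hx
        rcases hx with rfl | rfl
        · exact m1 (by omega)
        · exact m2 (by omega)
      have h4 := card_le_card h3
      rw [card_pair Q.nbb] at h4
      omega
  have hdB : Disjoint B (XL ∪ XU) := by
    rw [disjoint_left]
    intro x hx hx'
    obtain ⟨-, -, g3, g4⟩ := hB1 x hx
    rcases mem_union.1 hx' with h | h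
    · exact g3 h
    · exact g4 h
  have hsum : (B ∪ (XL ∪ XU)).card ≤ ∑ x ∈ lv P i, e x := by
    rw [Finset.card_eq_sum_ones]
    have hh : ∀ x ∈ B ∪ (XL ∪ XU), lev x = i ∧ 1 ≤ e x := by
      intro x hx
      rcases mem_union.1 hx with h | h
      · exact ⟨(hB1 x h).1, (hB1 x h).2.1⟩
      · rcases mem_union.1 h with h | h
        · exact ⟨(hXL x h).1, (hXL x h).2.1⟩
        · exact ⟨(hXU x h).1, (hXU x h).2.1⟩
    refine le_trans (Finset.sum_le_sum (g := fun x => e x) fun x hx => (hh x hx).2) ?_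
    exact Finset.sum_le_sum_of_subset fun x hx => mem_lv.2 (hh x hx).1
  rw [card_union_of_disjoint hdB, card_union_of_disjoint hdis] at hsum
  have htot : ∑ x ∈ lS P i, e x + ∑ x ∈ uS P i, e x + ∑ x ∈ lv P i, e x ≤ ∑ x, e x := by
    have d1 : Disjoint (lS P i) (uS P i) := by
      rw [disjoint_left]
      intro x hx hx'
      rw [mem_lS] at hx
      rw [mem_uS] at hx'
      omega
    have d2 : Disjoint (lS P i ∪ uS P i) (lv P i) := by
      rw [disjoint_left]
      intro x hx hx'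
      rw [mem_lv] at hx'
      rcases mem_union.1 hx with h | h
      · rw [mem_lS] at h
        omega
      · rw [mem_uS] at h
        omega
    rw [← sum_union d1, ← sum_union d2]
    exact sum_le_sum_of_subset (subset_univ _)
  omega

/-- cheapness of the natural cores -/
theorem K9b.cheap {q : ℕ} (he : e ∈ Co i K psi C q) :
    Cheap ((q - bt i e w v b - bt i e w' v' b') / 2) i e := by
  classical
  obtain ⟨g1, g2, g3⟩ := mem_Co.1 he
  by_cases hA : AdmL i e
  swap
  · exact Or.inl hA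
  by_cases hB : AdmU i e
  swap
  · exact Or.inr (Or.inl hB)
  by_cases hd : Disjoint (AL i e) (AU i e)
  swap
  · exact Or.inr (Or.inr (Or.inl hd))
  have h := Q.nb g3 g2 hA hB hd
  rw [g1] at h
  right; right; right
  omega

/-- the labels of the centres -/
lemma K9b.bt_sum {n : ℕ} (hs : ∑ x, e x = n) : bt i e w v b + bt i e w' v' b' ≤ n := by
  have h1 : bt i e w v b ≤ e b := by
    unfold bt
    split_ifs with h
    · exact h.1
    · omega
  have h2 : bt i e w' v' b' ≤ e b' := by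
    unfold bt
    split_ifs with h
    · exact h.1
    · omega
  have h3 : ∑ x ∈ ({b, b'} : Finset P), e x ≤ ∑ x, e x := sum_le_sum_of_subset (subset_univ _)
  rw [sum_pair Q.nbb, hs] at h3
  omega

/-- ORDER of the contribution of a natural core -/
theorem K9b.od {q : ℕ} (he : e ∈ Co i K psi C q) (n1 n2 m : ℕ) :
    od (st i C).card ((q - bt i e w v b - bt i e w' v' b') / 2 + rk n1 (bt i e w v b) +
      rk n2 (bt i e w' v' b')) (J9 i K psi C w v w' v' e n1 n2 m) :=
  Q.J9_od (Q.cheap he) Q.hb Q.hb1 Q.hb' Q.hb1' n1 n2 m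

/-- orders with a numerical bound -/
theorem K9b.od' {q k : ℕ} (he : e ∈ Co i K psi C q) {n1 n2 m : ℕ}
    (hk : ∀ β β', β ≤ 1 → β' ≤ 1 → β + β' ≤ q → (q - β - β') / 2 + rk n1 β + rk n2 β' ≤ k) :
    W4.od (st i C).card k (J9 i K psi C w v w' v' e n1 n2 m) :=
  od_mono (hk _ _ (bt_le _ _ _) (bt_le _ _ _) (Q.bt_sum (mem_Co.1 he).1)) (Q.od he n1 n2 m)

end

/-- sums over triples -/
lemma tri_sum {M : Type*} [AddCommMonoid M] (s : ℕ) (F : ℕ → ℕ → ℕ → M)
    (T : Finset (ℕ × ℕ × ℕ)) (hT : ∀ x ∈ T, x.1 + x.2.1 + x.2.2 = s)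
    (h0 : ∀ x y z, x + y + z = s → (x, y, z) ∉ T → F x y z = 0) :
    ∑ p ∈ antidiagonal s, ∑ t ∈ antidiagonal p.2, F p.1 t.1 t.2 =
      ∑ x ∈ T, F x.1 x.2.1 x.2.2 := by
  classical
  rw [Finset.sum_sigma']
  symm
  refine Finset.sum_of_injOn (fun x => (⟨(x.1, x.2.1 + x.2.2), (x.2.1, x.2.2)⟩ : (_ : ℕ × ℕ) × ℕ × ℕ))
    ?_ ?_ ?_ ?_
  · rintro ⟨x, y, z⟩ - ⟨x', y', z'⟩ - h
    simp only [Sigma.mk.injEq, Prod.mk.injEq, heq_eq_eq] at h
    obtain ⟨⟨h1, -⟩, h2, h3⟩ := h
    rw [h1, h2, h3]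
  · rintro ⟨x, y, z⟩ hx
    have := hT _ hx
    simp only [coe_sigma, Set.mem_sigma_iff, mem_coe, HasAntidiagonal.mem_antidiagonal]
    simp only at this
    exact ⟨by omega, trivial⟩
  · rintro ⟨⟨x, y'⟩, ⟨y, z⟩⟩ hx hn
    simp only [mem_sigma, HasAntidiagonal.mem_antidiagonal] at hx
    obtain ⟨h1, h2⟩ := hx
    apply h0 x y z (by omega)
    intro hm
    apply hn
    refine ⟨(x, y, z), hm, ?_⟩
    show (⟨(x, y + z), (y, z)⟩ : (_ : ℕ × ℕ) × ℕ × ℕ) = ⟨(x, y'), (y, z)⟩
    rw [h2]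
  · rintro ⟨x, y, z⟩ -
    rfl

section

variable {b b' : P} (Q : K9b r i K psi C w v w' v' b b')
include Q

/-- ORDERS of the window sum -/
theorem K9b.ZC_od {n k : ℕ} (hk : ∀ q β β' n1 n2, β ≤ 1 → β' ≤ 1 → β + β' ≤ q →
    q + n1 + n2 ≤ n → (q - β - β') / 2 + rk n1 β + rk n2 β' ≤ k) :
    W4.od (st i C).card k (ZC i C n) := by
  rw [Q.ZC_split n]
  refine od_sum fun q hq => od_sum fun e he => od_sum fun p hp => od_sum fun t ht => ?_
  rw [mem_range] at hq
  rw [HasAntidiagonal.mem_antidiagonal] at hp ht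
  exact Q.od' he fun β β' h1 h2 h3 => hk q β β' _ _ h1 h2 h3 (by omega)

theorem K9b.od2 : W4.od (st i C).card 2 (ZC i C 2) := Q.ZC_od fun q β β' n1 n2 h1 h2 h3 h4 => by
  unfold rk; split_ifs <;> omega

theorem K9b.od3 : W4.od (st i C).card 2 (ZC i C 3) := Q.ZC_od fun q β β' n1 n2 h1 h2 h3 h4 => by
  unfold rk; split_ifs <;> omega

theorem K9b.od4 : W4.od (st i C).card 3 (ZC i C 4) := Q.ZC_od fun q β β' n1 n2 h1 h2 h3 h4 => by
  unfold rk; split_ifs <;> omega

theorem K9b.od5 : W4.od (st i C).card 3 (ZC i C 5) := Q.ZC_od fun q β β' n1 n2 h1 h2 h3 h4 => by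
  unfold rk; split_ifs <;> omega

theorem K9b.od6 : W4.od (st i C).card 4 (ZC i C 6) := Q.ZC_od fun q β β' n1 n2 h1 h2 h3 h4 => by
  unfold rk; split_ifs <;> omega

/-- the leading terms -/
theorem K9b.ZC_lc {n k : ℕ} (T : ℕ → Finset (ℕ × ℕ × ℕ))
    (hT : ∀ q ≤ n, ∀ x ∈ T q, x.1 + x.2.1 + x.2.2 = n - q)
    (hk : ∀ q n1 n2 m, q + n1 + n2 + m = n → (n1, n2, m) ∉ T q → ∀ β β', β ≤ 1 → β' ≤ 1 →
      β + β' ≤ q → (q - β - β') / 2 + rk n1 β + rk n2 β' < k) :
    lc (st i C).card k (ZC i C n) = ∑ q ∈ range (n + 1), ∑ e ∈ Co i K psi C q, ∑ x ∈ T q,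
      lc (st i C).card k (J9 i K psi C w v w' v' e x.1 x.2.1 x.2.2) := by
  rw [Q.ZC_split n, lc_sum]
  refine sum_congr rfl fun q hq => ?_
  rw [lc_sum]
  refine sum_congr rfl fun e he => ?_
  rw [mem_range] at hq
  rw [lc_sum]
  have h1 : ∀ p ∈ antidiagonal (n - q), lc (st i C).card k (∑ t ∈ antidiagonal p.2,
      J9 i K psi C w v w' v' e p.1 t.1 t.2) = ∑ t ∈ antidiagonal p.2,
      lc (st i C).card k (J9 i K psi C w v w' v' e p.1 t.1 t.2) := fun p _ => lc_sum _ _ _ _
  rw [sum_congr rfl h1]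
  refine tri_sum (n - q) (fun x y z => lc (st i C).card k (J9 i K psi C w v w' v' e x y z)) (T q)
    (hT q (by omega)) ?_
  intro x y z hx hn
  rcases Nat.eq_zero_or_pos k with rfl | hk0
  · have := hk q x y z (by omega) hn 0 0 (by omega) (by omega) (by omega)
    omega
  · exact lc_lt (show k - 1 < k by omega) (Q.od' he fun β β' g1 g2 g3 => by
      have := hk q x y z (by omega) hn β β' g1 g2 g3
      omega)

end

end Pool.Agent.GaussPoset.Win.Pa

end

/-! From `Pool.Agent.W_448p_h97.PaD` -/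

section

/-!
MP_448cb3_co, G2, case B, window `j`: values of the contributions of a component with two stars.
helper97.
-/

namespace Pool.Agent.GaussPoset.Win.Pa

set_option linter.unusedSectionVars false

open Finset W4
open Pool.Agent.GaussPoset.Win.So (IV_chi IV_Fe)

universe u

variable {P : Type u} [Fintype P] [PartialOrder P] [DecidableEq P] {r i : ℕ}
variable {e f : P → ℕ} {psi : P → P} {C K : Finset P} {w v w' v' : P}

/-! ### adding a label -/

lemma Part_i {i : ℕ} (hC : Part (i + 1) C) : Part i C :=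
  ⟨fun h1 h2 => hC.up h1 h2, fun h1 h2 h3 => hC.dn h1 (by omega) h3⟩

lemma Spt_add (hs : Spt C e) {x : P} (hx : x ∈ C) (a : ℕ) : Spt C (e + Pi.single x a) := by
  intro y hy
  rw [Pi.add_apply, hs y hy, Pi.single_apply, if_neg, add_zero]
  rintro rfl
  exact hy hx

lemma tC_bad (H : Gr P r) (hir : i ≤ r) (hC : Part (i + 1) C) (hs : Spt C e) {x : P}
    (hx : x ∈ near P i) (hxC : x ∈ C) (hT : x ∉ Tch i e) (h0 : e x = 0) (a : ℕ)
    (h : ¬ (AdmL i e ∧ AdmU i e ∧ Disjoint (AL i e) (AU i e))) :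
    tC i C (e + Pi.single x a) = 0 := by
  rw [W4.tC_add H hir (Part_i hC) hs hx hxC hT h0 a]
  unfold IV
  refine sum_eq_zero fun S _ => ?_
  show xx ^ S.card * (Fe i e S * _) = 0
  rw [Fe_zero h, zero_mul, mul_zero]

/-- ADDING A LABEL on an untouched double -/
theorem add_lc (H : Gr P r) (hir : i ≤ r) (hC : Part (i + 1) C) (hs : Spt C e) {x : P}
    (hx : x ∈ near P i) (hxC : x ∈ C) (h2 : (nz i x).card = 2) (hT : x ∉ Tch i e) (h0 : e x = 0)
    {a k : ℕ} (ha : a ≠ 0) (ho : od (st i C).card k (tC i C e)) :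
    od (st i C).card (k + 1) (tC i C (e + Pi.single x a)) ∧
      lc (st i C).card (k + 1) (tC i C (e + Pi.single x a)) =
        sg1 i x * FG i e x a * lc (st i C).card k (tC i C e) := by
  by_cases hadm : AdmL i e ∧ AdmU i e ∧ Disjoint (AL i e) (AU i e)
  swap
  · rw [tC_bad H hir hC hs hx hxC hT h0 a hadm, W4.tC_zero hadm, lc_zero, lc_zero, mul_zero]
    exact ⟨od_zero _ _, rfl⟩
  unfold FG
  by_cases hF : Fx i e x a
  · obtain ⟨g1, g2⟩ := val_F H hir hC hs hadm.2.2 hx hxC hT h0 h2 hF ho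
    rw [if_pos hF, g2]
    exact ⟨g1, by ring⟩
  · rw [if_neg hF]
    by_cases hG : Gx i e x a
    · obtain ⟨g1, g2⟩ := val_G H hir hC hs hadm.2.2 hx hxC hT h0 hG ho
      rw [if_pos hG, g2]
      exact ⟨g1, by ring⟩
    · have := val_N H hir hC hs hadm.2.2 hx hxC hT h0 (by omega) (fun _ => hF) hG ho
      rw [if_neg hG, mul_zero, zero_mul]
      exact ⟨od_succ this, lc_of_od this⟩

/-- the killed sites after adding a label -/
lemma ALU_add (H : Gr P r) {x : P} (hx : x ∈ near P i) (h0 : e x = 0) (a : ℕ) :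
    AL i (e + Pi.single x a) ∪ AU i (e + Pi.single x a) = AL i e ∪ AU i e ∪ kz i e x a := by
  rcases mem_near.1 hx with h | h
  · rw [AL_low H h h0, AU_low H h h0]
    ext y
    simp only [mem_union]
    tauto
  · rw [AL_upp H h h0, AU_upp H h h0, union_assoc]

lemma add_site (H : Gr P r) {x y : P} (hx : x ∈ near P i) (hy : lev y = i) (a : ℕ) :
    (e + Pi.single x a : P → ℕ) y = e y := by
  rw [Pi.add_apply, Pi.single_apply, if_neg, add_zero]
  rintro rfl
  rw [mem_near] at hx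
  omega

lemma FG_add (H : Gr P r) {x y : P} (hx : x ∈ near P i) (hy : y ∈ near P i) (h0 : e x = 0)
    {a b : ℕ} (hd : Disjoint (kz i e x a) (nz i y)) :
    FG i (e + Pi.single x a) y b = FG i e y b := by
  have h1 : (∀ s ∈ nz i y, (e + Pi.single x a : P → ℕ) s < b) ↔ ∀ s ∈ nz i y, e s < b := by
    constructor
    · intro h s hs
      have := h s hs
      rwa [add_site H hx (nz_lev H hy hs)] at this
    · intro h s hs
      rw [add_site H hx (nz_lev H hy hs)]
      exact h s hs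
  have h2 : kz i (e + Pi.single x a) y b = kz i e y b := kz_add H hx hy
  have h3 : ∀ B : Finset P, B ⊆ nz i y → (Disjoint B (AL i (e + Pi.single x a) ∪
      AU i (e + Pi.single x a)) ↔ Disjoint B (AL i e ∪ AU i e)) := by
    intro B hB
    rw [ALU_add H hx h0, disjoint_union_right]
    constructor
    · exact fun h => h.1
    · exact fun h => ⟨h, (disjoint_of_subset_right hB hd).symm⟩
  unfold FG
  have e1 : Fx i (e + Pi.single x a) y b ↔ Fx i e y b := by
    unfold Fx
    rw [h1, h3 _ subset_rfl]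
  have e2 : Gx i (e + Pi.single x a) y b ↔ Gx i e y b := by
    unfold Gx
    rw [h2, h3 _ kz_sub]
  by_cases c1 : Fx i e y b
  · rw [if_pos c1, if_pos (e1.2 c1)]
  · rw [if_neg c1, if_neg (fun h => c1 (e1.1 h))]
    by_cases c2 : Gx i e y b
    · rw [if_pos c2, if_pos (e2.2 c2)]
    · rw [if_neg c2, if_neg (fun h => c2 (e2.1 h))]

/-! ### the contributions as values of configurations -/

lemma tx_add (H : Gr P r) {l : P → ℕ} (hl : ∀ x, x ∉ near P i → l x = 0) {y : P}
    (hy : y ∈ near P i) (b : ℕ) (S : Finset P) : tx i (e + l) y b S = tx i e y b S := by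
  have hT : Tch i (e + l) = Tch i e := Tch_add H hl
  by_cases h : y ∈ Tch i e
  · rw [tx_tch h, tx_tch (by rw [hT]; exact h)]
  · rw [tx_free h, tx_free (by rw [hT]; exact h)]
    refine So.wt_congr H (fun z hz => ?_) hy _ _
    rw [Pi.add_apply, hl z, add_zero]
    rw [mem_near]
    omega

open Classical in
lemma Fe_tx (H : Gr P r) (hir : i ≤ r) {x : P} (hx : x ∈ near P i)
    (h0 : x ∉ Tch i e → e x = 0) (a : ℕ) (S : Finset P) :
    Fe i e S * tx i e x a S = if Ac i e x a then Fe i (e + Pi.single x a) S else 0 := by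
  by_cases hT : x ∈ Tch i e
  · rw [tx_tch hT]
    by_cases ha : a = 0
    · rw [if_pos ha, ha, if_pos (show Ac i e x 0 from Or.inl rfl), Pi.single_zero, add_zero, mul_one]
    · rw [if_neg ha, mul_zero, if_neg (show ¬ Ac i e x a from ?_)]
      rintro (h | h)
      · exact ha h
      · exact h hT
  · rw [tx_free hT, if_pos (show Ac i e x a from Or.inr hT), Fe_add1 H hir hx hT (h0 hT)]

open Classical in
/-- the value with labels on the two stars -/
noncomputable def Jw (i : ℕ) (K : Finset P) (psi : P → P) (C : Finset P) (w v w' v' : P)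
    (e : P → ℕ) (a b a' b' m : ℕ) : A :=
  if (Ac i e w a ∧ Ac i e v b) ∧ Ac i e w' a' ∧ Ac i e v' b' then
    JK i K psi C m (e + Pi.single w a + Pi.single v b + Pi.single w' a' + Pi.single v' b')
  else 0

section

variable (Q : K9 r i K psi C w v w' v')
include Q

lemma K9.core0 (hc : IsCore i ∅ (ps K psi) e) {x : P} (hx : x = w ∨ x = v ∨ x = w' ∨ x = v')
    (hT : x ∉ Tch i e) : e x = 0 := by
  refine hc x (mem_RK.1 (mem_RK_ps (C := C) |>.2 (Or.inr ?_))).1
  rcases hx with rfl | rfl | rfl | rfl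
  · exact ⟨Q.wK, Q.nw, Q.wC, hT⟩
  · exact ⟨Q.vK, Q.nv, Q.vC, hT⟩
  · exact ⟨Q.wK', Q.nw', Q.wC', hT⟩
  · exact ⟨Q.vK', Q.nv', Q.vC', hT⟩

lemma K9.Fe4 (hc : IsCore i ∅ (ps K psi) e) (a b a' b' m : ℕ) :
    So.IV (st i C) (fun S => Fe i e S * (tx i e w a S * tx i e v b S *
      (tx i e w' a' S * tx i e v' b' S * GK i K psi C e m S))) =
    Jw i K psi C w v w' v' e a b a' b' m := by
  classical
  have H := Q.H
  have hir := Q.hir
  have c1 := fun h => Q.core0 hc (x := w) (Or.inl rfl) h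
  have c2 := fun h => Q.core0 hc (x := v) (Or.inr (Or.inl rfl)) h
  have c3 := fun h => Q.core0 hc (x := w') (Or.inr (Or.inr (Or.inl rfl))) h
  have c4 := fun h => Q.core0 hc (x := v') (Or.inr (Or.inr (Or.inr rfl))) h
  have f1 := single_far (i := i) Q.nw a
  have f2 := single_far (i := i) Q.nv b
  have f3 := single_far (i := i) Q.nw' a'
  have f4 := single_far (i := i) Q.nv' b'
  obtain ⟨e1, he1⟩ : ∃ e1, e1 = e + Pi.single w a := ⟨_, rfl⟩
  obtain ⟨e2, he2⟩ : ∃ e2, e2 = e1 + Pi.single v b := ⟨_, rfl⟩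
  obtain ⟨e3, he3⟩ : ∃ e3, e3 = e2 + Pi.single w' a' := ⟨_, rfl⟩
  have T1 : Tch i e1 = Tch i e := by rw [he1]; exact Tch_add H f1
  have T2 : Tch i e2 = Tch i e := by rw [he2, Tch_add H f2]; exact T1
  have T3 : Tch i e3 = Tch i e := by rw [he3, Tch_add H f3]; exact T2
  have key : ∀ S, Fe i e S * (tx i e w a S * tx i e v b S *
      (tx i e w' a' S * tx i e v' b' S * GK i K psi C e m S)) =
      if (Ac i e w a ∧ Ac i e v b) ∧ Ac i e w' a' ∧ Ac i e v' b' then
        Fe i (e3 + Pi.single v' b') S * GK i K psi C (e3 + Pi.single v' b') m S else 0 := by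
    intro S
    have x1 : tx i e v b S = tx i e1 v b S := by rw [he1, tx_add H f1 Q.nv]
    have x2 : tx i e w' a' S = tx i e2 w' a' S := by
      rw [he2, tx_add H f2 Q.nw', he1, tx_add H f1 Q.nw']
    have x3 : tx i e v' b' S = tx i e3 v' b' S := by
      rw [he3, tx_add H f3 Q.nv', he2, tx_add H f2 Q.nv', he1, tx_add H f1 Q.nv']
    have x4 : GK i K psi C e m S = GK i K psi C (e3 + Pi.single v' b') m S := by
      rw [GK_add H f4, he3, GK_add H f3, he2, GK_add H f2, he1, GK_add H f1]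
    have s1 : Fe i e S * tx i e w a S = if Ac i e w a then Fe i e1 S else 0 := by
      rw [he1]; exact Fe_tx H hir Q.nw c1 a S
    have s2 : Fe i e1 S * tx i e v b S = if Ac i e v b then Fe i e2 S else 0 := by
      have := Fe_tx H hir (e := e1) Q.nv (fun h => by
        rw [T1] at h
        rw [he1, Pi.add_apply, c2 h, Pi.single_apply, if_neg Q.nwv.symm, add_zero]) b S
      rw [← x1] at this
      rw [this, he2]
      unfold Ac
      rw [T1]
    have s3 : Fe i e2 S * tx i e w' a' S = if Ac i e w' a' then Fe i e3 S else 0 := by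
      have := Fe_tx H hir (e := e2) Q.nw' (fun h => by
        rw [T2] at h
        rw [he2, he1, Pi.add_apply, Pi.add_apply, c3 h, Pi.single_apply, if_neg Q.nww.symm,
          Pi.single_apply, if_neg Q.nvw'.symm, add_zero, add_zero]) a' S
      rw [← x2] at this
      rw [this, he3]
      unfold Ac
      rw [T2]
    have s4 : Fe i e3 S * tx i e v' b' S =
        if Ac i e v' b' then Fe i (e3 + Pi.single v' b') S else 0 := by
      have := Fe_tx H hir (e := e3) Q.nv' (fun h => by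
        rw [T3] at h
        rw [he3, he2, he1, Pi.add_apply, Pi.add_apply, Pi.add_apply, c4 h, Pi.single_apply,
          if_neg Q.nwv'.symm, Pi.single_apply, if_neg Q.nvv.symm, Pi.single_apply,
          if_neg Q.nwv''.symm, add_zero, add_zero, add_zero]) b' S
      rw [← x3] at this
      rw [this]
      unfold Ac
      rw [T3]
    have t : Fe i e S * (tx i e w a S * tx i e v b S *
        (tx i e w' a' S * tx i e v' b' S * GK i K psi C e m S)) =
        Fe i e S * tx i e w a S * tx i e v b S * tx i e w' a' S * tx i e v' b' S *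
          GK i K psi C e m S := by ring
    rw [t, s1]
    by_cases g1 : Ac i e w a
    · rw [if_pos g1, s2]
      by_cases g2 : Ac i e v b
      · rw [if_pos g2, s3]
        by_cases g3 : Ac i e w' a'
        · rw [if_pos g3, s4]
          by_cases g4 : Ac i e v' b'
          · rw [if_pos g4, if_pos ⟨⟨g1, g2⟩, g3, g4⟩, x4]
          · rw [if_neg g4, if_neg (fun h => g4 h.2.2), zero_mul]
        · rw [if_neg g3, if_neg (fun h => g3 h.2.1), zero_mul, zero_mul]
      · rw [if_neg g2, if_neg (fun h => g2 h.1.2), zero_mul, zero_mul, zero_mul]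
    · rw [if_neg g1, if_neg (fun h => g1 h.1.1), zero_mul, zero_mul, zero_mul, zero_mul]
  unfold Jw JK
  have hfun : (fun S => Fe i e S * (tx i e w a S * tx i e v b S *
      (tx i e w' a' S * tx i e v' b' S * GK i K psi C e m S))) = fun S =>
      if (Ac i e w a ∧ Ac i e v b) ∧ Ac i e w' a' ∧ Ac i e v' b' then
        Fe i (e3 + Pi.single v' b') S * GK i K psi C (e3 + Pi.single v' b') m S else 0 :=
    funext key
  rw [hfun]
  by_cases hc' : (Ac i e w a ∧ Ac i e v b) ∧ Ac i e w' a' ∧ Ac i e v' b'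
  · simp only [if_pos hc']
    rw [he3, he2, he1]
  · simp only [if_neg hc']
    unfold So.IV
    exact sum_eq_zero fun S _ => mul_zero _

/-- the contributions as sums of values -/
theorem K9.J9_eq (hc : IsCore i ∅ (ps K psi) e) (n1 n2 m : ℕ) :
    J9 i K psi C w v w' v' e n1 n2 m = ∑ p ∈ antidiagonal n1, ∑ q ∈ antidiagonal n2,
      Jw i K psi C w v w' v' e p.1 p.2 q.1 q.2 m := by
  unfold J9
  have h1 : (fun S => Fe i e S * (WW i e w v n1 S * (WW i e w' v' n2 S * GK i K psi C e m S))) =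
      fun S => ∑ p ∈ antidiagonal n1, ∑ q ∈ antidiagonal n2, Fe i e S *
        (tx i e w p.1 S * tx i e v p.2 S * (tx i e w' q.1 S * tx i e v' q.2 S *
          GK i K psi C e m S)) := by
    funext S
    unfold WW
    rw [sum_mul, mul_sum]
    refine sum_congr rfl fun p _ => ?_
    rw [sum_mul, mul_sum, mul_sum]
  rw [h1]
  refine (IV_sum _ _ (fun (p : ℕ × ℕ) S => ∑ q ∈ antidiagonal n2, Fe i e S *
        (tx i e w p.1 S * tx i e v p.2 S * (tx i e w' q.1 S * tx i e v' q.2 S *
          GK i K psi C e m S)))).trans ?_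
  refine sum_congr rfl fun p _ => ?_
  refine (IV_sum _ _ (fun (q : ℕ × ℕ) S => Fe i e S *
        (tx i e w p.1 S * tx i e v p.2 S * (tx i e w' q.1 S * tx i e v' q.2 S *
          GK i K psi C e m S)))).trans ?_
  exact sum_congr rfl fun q _ => Q.Fe4 hc _ _ _ _ m

end

end Pool.Agent.GaussPoset.Win.Pa

end
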