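import Mathlib
import Pool.Agent.W_448zz_h61.Ns
import Pool.Agent.W_448zz_h61.M146

/-! From `Pool.Agent.W_448e_h97.EG` -/

section

/-! The unmatched elements of a component from the pattern of its defects (MP_448cb3_co). -/

namespace Pool.Agent.GaussPoset.EK

set_option linter.unusedSectionVars false

open Finset Win St Polynomial

universe u

variable {P : Type u} [Fintype P] [PartialOrder P] [DecidableEq P] {r i : ℕ}

variable {ι : Type*} [DecidableEq ι] {κ : P → ι}

variable {K : Finset P} {psi : P → P} {T T1 T2 : Finset P}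

variable {a : ι} {m : ℕ} {x : ℕ → P} {c : ℕ → ℤ} {β : ℤ}

/-- the sites of the component `a` as a path with the defects `c`, `β` -/
structure Row (i : ℕ) (κ : P → ι) (a : ι) (m : ℕ) (x : ℕ → P) (c : ℕ → ℤ) (β : ℤ) : Prop where
  lev_x : ∀ k, k ≤ m → lev (x k) = i
  inj : ∀ k l, k ≤ m → l ≤ m → x k = x l → k = l
  kap : ∀ k, k ≤ m → κ (x k) = a
  surj : ∀ v, lev v = i → κ v = a → ∃ k, k ≤ m ∧ x k = v
  df : ∀ k l, k < l → l ≤ m →
    Df i {x k, x l} = if l = k + 1 then c k else if k = 0 ∧ l = m then β else 0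

/-- an unmatched element of the component -/
lemma Row.pair (W : Row i κ a m x c β) (R : Red P i K psi) (H : Gr P r) (hκ : Split (i + 1) κ)
    {k : P} (hk : k ∈ K) (hka : κ k = a) :
    ∃ p q, p < q ∧ q ≤ m ∧ ns i k = {x p, x q} ∧
      ((q = p + 1 ∧ c p ≠ 0) ∨ (p = 0 ∧ q = m ∧ q ≠ p + 1 ∧ β ≠ 0)) := by
  have hD := R.sub hk
  obtain ⟨u, v, huv, hns⟩ := card_eq_two.1 (ns_card hD)
  have hu : u ∈ ns i k := by rw [hns]; exact mem_insert_self _ _
  have hv : v ∈ ns i k := by rw [hns]; exact mem_insert_of_mem (mem_singleton_self _)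
  obtain ⟨p, hp, rfl⟩ := W.surj u (kap_ns' H hκ hD hu).2 ((kap_ns' H hκ hD hu).1.trans hka)
  obtain ⟨q, hq, rfl⟩ := W.surj v (kap_ns' H hκ hD hv).2 ((kap_ns' H hκ hD hv).1.trans hka)
  have hne := R.Df_ne hk
  have hpq : p ≠ q := by
    rintro rfl
    exact huv rfl
  have key : ∀ p q, p < q → q ≤ m → ns i k = {x p, x q} → ∃ p q, p < q ∧ q ≤ m ∧
      ns i k = {x p, x q} ∧
      ((q = p + 1 ∧ c p ≠ 0) ∨ (p = 0 ∧ q = m ∧ q ≠ p + 1 ∧ β ≠ 0)) := by
    intro p q hpq hq hns
    refine ⟨p, q, hpq, hq, hns, ?_⟩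
    rw [hns, W.df p q hpq hq] at hne
    by_cases h1 : q = p + 1
    · rw [if_pos h1] at hne
      exact Or.inl ⟨h1, hne⟩
    · rw [if_neg h1] at hne
      by_cases h2 : p = 0 ∧ q = m
      · rw [if_pos h2] at hne
        exact Or.inr ⟨h2.1, h2.2, h1, hne⟩
      · rw [if_neg h2] at hne
        exact absurd rfl hne
  rcases Nat.lt_or_ge p q with h | h
  · exact key p q h hq hns
  · refine key q p (by omega) hp ?_
    rw [hns, pair_comm]

/-- at most two pairs -/
lemma small_of_two (R : Red P i K psi) (H : Gr P r) (hκ : Split (i + 1) κ) (T1 T2 : Finset P)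
    (h : ∀ k ∈ K, κ k = a → ns i k = T1 ∨ ns i k = T2) (h2 : |Df i T1| + |Df i T2| ≤ 2) :
    Small i κ a := by
  classical
  right
  rw [← R.card_comp H hκ a]
  have h3 : K.filter (fun x => κ x = a) ⊆
      K.filter (fun x => ns i x = T1) ∪ K.filter (fun x => ns i x = T2) := by
    intro k hk
    rw [mem_filter] at hk
    rcases h k hk.1 hk.2 with h4 | h4
    · exact mem_union_left _ (mem_filter.2 ⟨hk.1, h4⟩)
    · exact mem_union_right _ (mem_filter.2 ⟨hk.1, h4⟩)
  have h4 := (card_le_card h3).trans (card_union_le _ _)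
  have h5 := R.fib T1
  have h6 := R.fib T2
  omega

/-- two stars at the two ends of the row -/
def Pat6 (m : ℕ) (c : ℕ → ℤ) (β : ℤ) : Prop :=
  5 ≤ m ∧ β = 0 ∧ c 0 = 1 ∧ c 1 = -1 ∧ c (m - 2) = -1 ∧ c (m - 1) = 1 ∧
    ∀ k, 2 ≤ k → k + 2 < m → c k = 0

/-- the exceptional pattern with seven sites -/
def Pat8 (m : ℕ) (c : ℕ → ℤ) (β : ℤ) : Prop :=
  m = 6 ∧ β = 0 ∧ c 0 = 1 ∧ c 1 = -1 ∧ c 4 = -1 ∧ c 5 = 1 ∧
    ((c 2 = -1 ∧ c 3 = 1) ∨ (c 2 = 1 ∧ c 3 = -1))

theorem Row.small (W : Row i κ a m x c β) (H : Gr P r) (hκ : Split (i + 1) κ)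
    (hp : PcPat m c β) : Small i κ a ∨ Pat6 m c β ∨ Pat8 m c β := by
  classical
  obtain ⟨K, psi, R⟩ := exists_red P i
  rcases hp with ⟨h1, h2⟩ | ⟨h1, h2, h3, h4⟩ | ⟨h1, h2, h3, h4⟩ | ⟨h1, h2, h3, h4, h5⟩ |
    ⟨h1, h2, h3, h4, h5⟩ | h1 | ⟨h1, h2, h3, h4⟩ | h1
  · left
    refine small_of_two R H hκ ∅ ∅ ?_ ?_
    · intro k hk hka
      exfalso
      obtain ⟨p, q, h3, h4, h5, h6⟩ := W.pair R H hκ hk hka
      rcases h6 with ⟨h6, h7⟩ | ⟨_, _, _, h7⟩
      · exact h7 (h2 p (by omega))
      · exact h7 h1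
    · have h3 : Df i (∅ : Finset P) = 0 := by
        rw [← fib_K R.mat R.sub ∅]
        have h4 : K.filter (fun x => ns i x = ∅) = ∅ := by
          rw [filter_eq_empty_iff]
          intro k hk h5
          exact (ns_ne (R.sub hk)).ne_empty h5
        rw [h4, sum_empty]
      rw [h3]
      norm_num
  · left
    refine small_of_two R H hκ {x 0, x 1} {x 0, x m} ?_ ?_
    · intro k hk hka
      obtain ⟨p, q, h5, h6, h7, h8⟩ := W.pair R H hκ hk hka
      rcases h8 with ⟨h8, h9⟩ | ⟨h8, h9, _, _⟩
      · left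
        have hp0 : p = 0 := by
          by_contra h10
          exact h9 (h4 p (by omega) (by omega))
        subst hp0
        rw [h7, h8]
      · right
        rw [h7, h8, h9]
    · rw [W.df 0 1 (by omega) (by omega), W.df 0 m (by omega) le_rfl, if_pos rfl,
        if_neg (by omega), if_pos ⟨rfl, rfl⟩, h2, h3]
      norm_num
  · left
    refine small_of_two R H hκ {x (m - 1), x m} {x 0, x m} ?_ ?_
    · intro k hk hka
      obtain ⟨p, q, h5, h6, h7, h8⟩ := W.pair R H hκ hk hka
      rcases h8 with ⟨h8, h9⟩ | ⟨h8, h9, _, _⟩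
      · left
        have hp0 : p = m - 1 := by
          by_contra h10
          exact h9 (h4 p (by omega))
        rw [h7, h8, hp0, show m - 1 + 1 = m by omega]
      · right
        rw [h7, h8, h9]
    · rw [W.df (m - 1) m (by omega) (by omega), W.df 0 m (by omega) le_rfl, if_pos (by omega),
        if_neg (by omega), if_pos ⟨rfl, rfl⟩, h2, h3]
      norm_num
  · left
    refine small_of_two R H hκ {x 0, x 1} {x 1, x 2} ?_ ?_
    · intro k hk hka
      obtain ⟨p, q, h6, h7, h8, h9⟩ := W.pair R H hκ hk hka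
      rcases h9 with ⟨h9, h10⟩ | ⟨_, _, _, h10⟩
      · have hp : p = 0 ∨ p = 1 := by
          by_contra h11
          exact h10 (h5 p (by omega) (by omega))
        rcases hp with hp | hp
        · left
          rw [h8, h9, hp]
        · right
          rw [h8, h9, hp]
      · exact absurd h2 h10
    · rw [W.df 0 1 (by omega) (by omega), W.df 1 2 (by omega) (by omega), if_pos rfl, if_pos rfl,
        h3, h4]
      norm_num
  · left
    refine small_of_two R H hκ {x (m - 1), x m} {x (m - 2), x (m - 1)} ?_ ?_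
    · intro k hk hka
      obtain ⟨p, q, h6, h7, h8, h9⟩ := W.pair R H hκ hk hka
      rcases h9 with ⟨h9, h10⟩ | ⟨_, _, _, h10⟩
      · have hp : p = m - 1 ∨ p = m - 2 := by
          by_contra h11
          exact h10 (h5 p (by omega))
        rcases hp with hp | hp
        · left
          rw [h8, h9, hp, show m - 1 + 1 = m by omega]
        · right
          rw [h8, h9, hp, show m - 2 + 1 = m - 1 by omega]
      · exact absurd h2 h10
    · rw [W.df (m - 1) m (by omega) (by omega), W.df (m - 2) (m - 1) (by omega) (by omega),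
        if_pos (by omega), if_pos (by omega), h3, h4]
      norm_num
  · exact Or.inr (Or.inl h1)
  · left
    left
    have h5 : st i (cext (i + 1) κ a) ⊆ (range 3).image x := by
      intro v hv
      rw [mem_sites hκ] at hv
      obtain ⟨k, hk, rfl⟩ := W.surj v hv.1 hv.2
      exact mem_image_of_mem x (mem_range.2 (by omega))
    have h6 := (card_le_card h5).trans card_image_le
    rw [card_range] at h6
    exact h6
  · exact Or.inr (Or.inr h1)

/-- the two stars: every unmatched element is at one of the two ends -/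
lemma Row.ends (W : Row i κ a m x c β) (R : Red P i K psi) (H : Gr P r) (hκ : Split (i + 1) κ)
    (hp : Pat6 m c β) {k : P} (hk : k ∈ K) (hka : κ k = a) :
    (x 1 ∈ ns i k ∧ ns i k ⊆ {x 0, x 1, x 2}) ∨
      (x (m - 1) ∈ ns i k ∧ ns i k ⊆ {x (m - 2), x (m - 1), x m}) := by
  obtain ⟨h1, h2, _, _, _, _, h3⟩ := hp
  obtain ⟨p, q, h6, h7, h8, h9⟩ := W.pair R H hκ hk hka
  rcases h9 with ⟨h9, h10⟩ | ⟨_, _, _, h10⟩
  · have hp : p = 0 ∨ p = 1 ∨ p = m - 2 ∨ p = m - 1 := by
      by_contra h11
      exact h10 (h3 p (by omega) (by omega))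
    subst h9
    rcases hp with hp | hp | hp | hp
    · subst hp
      left
      rw [h8]
      refine ⟨by simp, ?_⟩
      intro v hv
      simp only [mem_insert, mem_singleton] at hv ⊢
      tauto
    · subst hp
      left
      rw [h8]
      refine ⟨by simp, ?_⟩
      intro v hv
      simp only [mem_insert, mem_singleton] at hv ⊢
      tauto
    · subst hp
      right
      rw [h8, show m - 2 + 1 = m - 1 by omega]
      refine ⟨by simp, ?_⟩
      intro v hv
      simp only [mem_insert, mem_singleton] at hv ⊢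
      tauto
    · subst hp
      right
      rw [h8, show m - 1 + 1 = m by omega]
      refine ⟨by simp, ?_⟩
      intro v hv
      simp only [mem_insert, mem_singleton] at hv ⊢
      tauto
  · exact absurd h2 h10

/-- the two stars: sharing a site is transitive -/
theorem Row.trans6 (W : Row i κ a m x c β) (R : Red P i K psi) (H : Gr P r)
    (hκ : Split (i + 1) κ) (hp : Pat6 m c β) {k k' k'' : P} (hk : k ∈ K) (hk' : k' ∈ K)
    (hk'' : k'' ∈ K) (h : κ k = a) (h' : κ k' = a) (h'' : κ k'' = a)
    (h1 : ¬ Disjoint (ns i k) (ns i k')) (h2 : ¬ Disjoint (ns i k') (ns i k'')) :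
    ¬ Disjoint (ns i k) (ns i k'') := by
  have hm := hp.1
  have hne : ∀ v, v ∈ ({x 0, x 1, x 2} : Finset P) → v ∈ ({x (m - 2), x (m - 1), x m} : Finset P) →
      False := by
    intro v h3 h4
    simp only [mem_insert, mem_singleton] at h3 h4
    rcases h3 with rfl | rfl | rfl <;> rcases h4 with h4 | h4 | h4 <;>
      (have := W.inj _ _ (by omega) (by omega) h4; omega)
  have key : ∀ k ∈ K, ∀ k' ∈ K, κ k = a → κ k' = a → ¬ Disjoint (ns i k) (ns i k') →
      (x 1 ∈ ns i k ∧ x 1 ∈ ns i k') ∨ (x (m - 1) ∈ ns i k ∧ x (m - 1) ∈ ns i k') := by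
    intro k hk k' hk' h h' h1
    rw [not_disjoint_iff] at h1
    obtain ⟨v, hv, hv'⟩ := h1
    rcases W.ends R H hκ hp hk h with h3 | h3 <;> rcases W.ends R H hκ hp hk' h' with h4 | h4
    · exact Or.inl ⟨h3.1, h4.1⟩
    · exact (hne v (h3.2 hv) (h4.2 hv')).elim
    · exact (hne v (h4.2 hv') (h3.2 hv)).elim
    · exact Or.inr ⟨h3.1, h4.1⟩
  have hx1 : x 1 ∉ ({x (m - 2), x (m - 1), x m} : Finset P) := fun h =>
    hne _ (by simp) h
  have hxm : x (m - 1) ∉ ({x 0, x 1, x 2} : Finset P) := fun h => hne _ h (by simp)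
  rcases key k hk k' hk' h h' h1 with h3 | h3 <;>
    rcases key k' hk' k'' hk'' h' h'' h2 with h4 | h4
  · exact not_disjoint_iff.2 ⟨x 1, h3.1, h4.2⟩
  · exfalso
    rcases W.ends R H hκ hp hk' h' with h5 | h5
    · exact hxm (h5.2 h4.1)
    · exact hx1 (h5.2 h3.2)
  · exfalso
    rcases W.ends R H hκ hp hk' h' with h5 | h5
    · exact hxm (h5.2 h3.2)
    · exact hx1 (h5.2 h4.1)
  · exact not_disjoint_iff.2 ⟨x (m - 1), h3.1, h4.2⟩

/-- the hypothesis on the stars from the rows -/
theorem Red.toHS (R : Red P i K psi) (H : Gr P r) (hi : i ≤ r) (hκ : Split (i + 1) κ)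
    (hs : ∀ a : ι, Small i κ a ∨ ∃ (m : ℕ) (x : ℕ → P) (c : ℕ → ℤ) (β : ℤ),
      Row i κ a m x c β ∧ Pat6 m c β) : HS r i K psi := by
  refine ⟨H, hi, R.mat, R.sub, ?_⟩
  intro x hx y hy z hz h1 h2
  have e1 := star_comp H hκ R.sub hx hy h1
  have e2 := star_comp H hκ R.sub hy hz h2
  rcases hs (κ y) with h3 | ⟨m, w, c, β, W, hp⟩
  · exact R.same_of_small H hi hκ h3 hx hz e1 e2.symm
  · exact W.trans6 R H hκ hp hx hy hz e1 rfl e2.symm h1 h2

end Pool.Agent.GaussPoset.EK

end

/-! From `Pool.Agent.W_448v_h15.VA` -/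

section

/-!
The value of `w3` of a star component (MP_448cb3_co, case B), part A: the term of a configuration
up to the order two, configurations with labels at most one, the part with simple edges.
-/

namespace Pool.Agent.GaussPoset.Win.K2

set_option linter.unusedSectionVars false

open Finset I2

universe u

variable {P : Type u} [Fintype P] [PartialOrder P] [DecidableEq P] {r i : ℕ} {e : P → ℕ}

/-- the term of an admissible configuration -/
lemma tC_eq {C : Finset P} (hA : AdmL i e) (hB : AdmU i e) (hd : Disjoint (AL i e) (AU i e)) :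
    tC i C e = dd ^ (pL i e + pU i e + ((st i C).card - (AL i e).card - (AU i e).card)) *
      (xx ^ aL i e * xi ^ (aU i e + pU i e) * xx ^ (AL i e).card) := by
  unfold tC
  rw [if_pos hd]
  unfold cw
  rw [if_pos ⟨hA, hB⟩, pow_add dd]
  ring

/-- a configuration of order at most `n` -/
lemma VA_tC_dvd {C : Finset P} {m n k : ℕ} (hm : m + n ≤ (st i C).card + k)
    (h : AdmL i e → AdmU i e → Disjoint (AL i e) (AU i e) →
      (AL i e).card + (AU i e).card ≤ pL i e + pU i e + n) : dd ^ m ∣ tC i C e * dd ^ k := by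
  by_cases hd : Disjoint (AL i e) (AU i e)
  · by_cases hA : AdmL i e ∧ AdmU i e
    · have h1 := h hA.1 hA.2 hd
      rw [tC_eq hA.1 hA.2 hd, mul_right_comm, ← pow_add]
      exact Dvd.dvd.mul_right (pow_dvd_pow _ (by omega)) _
    · unfold tC
      rw [if_pos hd]
      unfold cw
      rw [if_neg hA, zero_mul, zero_mul]
      exact dvd_zero _
  · unfold tC
    rw [if_neg hd, zero_mul]
    exact dvd_zero _

/-- the leading coefficient of a configuration of order two -/
lemma tC_lead {C : Finset P} (hA : AdmL i e) (hB : AdmU i e) (hd : Disjoint (AL i e) (AU i e))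
    (ho : (AL i e).card + (AU i e).card = pL i e + pU i e + 2)
    (hb : (AL i e).card + (AU i e).card ≤ (st i C).card) :
    dd ^ ((st i C).card - 1) ∣ tC i C e -
      (((-1 : ℤ) ^ (aL i e + aU i e + pU i e + (AL i e).card) : ℤ) : A) *
        dd ^ ((st i C).card - 2) := by
  have h1 : pL i e + pU i e + ((st i C).card - (AL i e).card - (AU i e).card) =
      (st i C).card - 2 := by omega
  have h2 : (st i C).card - 1 = (st i C).card - 2 + 1 := by omega
  rw [tC_eq hA hB hd, h1, h2, mul_comm ((((-1 : ℤ) ^ _ : ℤ)) : A), ← mul_sub, pow_succ]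
  refine mul_dvd_mul_left _ ?_
  unfold dd
  rw [PowerSeries.X_dvd_iff, map_sub, map_mul, map_mul, map_pow, map_pow, map_pow, cc_xx, cc_xi]
  have h6 : ∀ n : ℕ, PowerSeries.constantCoeff ((((-1 : ℤ) ^ n : ℤ)) : A) = (-1 : ℤ) ^ n := by
    intro n
    rw [map_intCast]
    simp
  rw [h6]
  ring

/-- the leading coefficient -/
lemma coeff_of_dvd {b : ℕ} (hb : 2 ≤ b) {X : A} {c : ℤ}
    (h : dd ^ (b - 1) ∣ X - (c : A) * dd ^ (b - 2)) : PowerSeries.coeff b (dd ^ 2 * X) = c := by
  obtain ⟨R, hR⟩ := h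
  have h1 : dd ^ 2 * X = (c : A) * dd ^ b + dd ^ (b + 1) * R := by
    have h2 : X = (c : A) * dd ^ (b - 2) + dd ^ (b - 1) * R := by rw [← hR]; ring
    rw [h2]
    obtain ⟨m, rfl⟩ : ∃ m, b = m + 2 := ⟨b - 2, by omega⟩
    simp only [Nat.add_sub_cancel]
    rw [show m + 2 - 1 = m + 1 by omega]
    ring
  rw [h1, map_add]
  have h3 : PowerSeries.coeff b ((c : A) * dd ^ b) = c := by
    unfold dd
    rw [PowerSeries.coeff_mul_X_pow', if_pos le_rfl, Nat.sub_self,
      PowerSeries.coeff_zero_eq_constantCoeff, map_intCast]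
    simp
  have h4 : PowerSeries.coeff b (dd ^ (b + 1) * R) = 0 := by
    unfold dd
    rw [PowerSeries.coeff_X_pow_mul', if_neg (by omega)]
  rw [h3, h4, add_zero]

section simple

variable {K : Finset P} {psi : P → P} {C : Finset P}

/-- the configurations of energy three with simple edges -/
theorem sum_SK (H : Gr P r) (hir : i ≤ r) (hq : NoQ P (i + 2))
    (hg : ∀ m, m + 1 = i → Good P m) (hM : Mat P i K psi) (hK : Star i C K)
    (hb : 1 ≤ (st i C).card) {Ω : Finset (P → ℕ)} (hΩ : ∀ e ∈ Ω, ∑ x, e x = 3 ∧ Spt C e)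
    (hsw : ∀ e ∈ Ω, ∀ y ∈ SK i K psi e, sw psi y e ∈ Ω)
    (hne : ∀ e ∈ Ω, SK i K psi e ≠ ∅) :
    dd ^ ((st i C).card - 1) ∣ ∑ e ∈ Ω, tC i C e := by
  refine class_dvd hM H hsw ?_
  intro e he
  have h1 : 1 ≤ (SK i K psi e).card := by
    rw [Nat.one_le_iff_ne_zero]
    intro h
    exact hne e he (card_eq_zero.1 h)
  refine VA_tC_dvd (n := (SK i K psi e).card + 1) (by omega) ?_
  intro hA hB hd
  have h2 := K_bound H hir hq hg hM hK (hΩ e he).2 hA hB hd (δ := 0) (Or.inl rfl)
  rw [(hΩ e he).1] at h2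
  omega

end simple

end Pool.Agent.GaussPoset.Win.K2

end

/-! From `Pool.Agent.W_448v_h15.VB` -/

section

/-!
The value of `w3` of a star component (MP_448cb3_co, case B), part B: the configurations
`k + k' + q` and `z + y + k`.
-/

namespace Pool.Agent.GaussPoset.Win.K2

set_option linter.unusedSectionVars false

open Finset I2

universe u

variable {P : Type u} [Fintype P] [PartialOrder P] [DecidableEq P] {r i : ℕ}

lemma indK_one {F : Finset P} {x : P} (h : x ∈ F) : indK F x = 1 := by
  unfold indK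
  rw [if_pos h]

lemma indK_zero {F : Finset P} {x : P} (h : x ∉ F) : indK F x = 0 := by
  unfold indK
  rw [if_neg h]

lemma indK_pos {F : Finset P} {x : P} (h : 0 < indK F x) : x ∈ F := by
  by_contra h'
  rw [indK_zero h'] at h
  omega

lemma sum_indK (F : Finset P) : ∑ x, indK F x = F.card := by
  unfold indK
  simp

lemma spt_indK {F C : Finset P} (h : F ⊆ C) : Spt C (indK F) :=
  fun _ hx => indK_zero fun h' => hx (h h')

/-- closed on both sides -/
structure Cl (i : ℕ) (F : Finset P) : Prop where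
  lo : ∀ x ∈ F, ∀ y ∈ uc x, i < lev y → y ∈ F
  up : ∀ x ∈ F, ∀ y ∈ dc x, lev y < i → y ∈ F

section ind

variable {F : Finset P}

lemma Cl.FD (hc : Cl i F) {x : P} (hx : i < lev x) : ¬ FD (indK F) x := by
  rintro ⟨z, hz, hlt⟩
  have h1 := indK_pos (F := F) (x := z) (by omega)
  have h2 := hc.lo z h1 x (mem_uc.2 hz) hx
  rw [indK_one h1, indK_one h2] at hlt
  omega

lemma Cl.FU (hc : Cl i F) {x : P} (hx : lev x < i) : ¬ FU (indK F) x := by
  rintro ⟨z, hz, hlt⟩
  have h1 := indK_pos (F := F) (x := z) (by omega)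
  have h2 := hc.up z h1 x (mem_dc.2 hz) hx
  rw [indK_one h1, indK_one h2] at hlt
  omega

lemma Cl.admL (hc : Cl i F) : AdmL i (indK F) := fun _ hz h => hc.FD hz h.1

lemma Cl.admU (hc : Cl i F) : AdmU i (indK F) := fun _ hz h => hc.FU hz h.1

lemma Cl.aL (hc : Cl i F) : aL i (indK F) = 0 := by
  classical
  unfold Win.aL
  rw [card_eq_zero, filter_eq_empty_iff]
  rintro x _ ⟨h1, h2⟩
  exact hc.FD h1 h2

lemma Cl.aU (hc : Cl i F) : aU i (indK F) = 0 := by
  classical
  unfold Win.aU
  rw [card_eq_zero, filter_eq_empty_iff]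
  rintro x _ ⟨h1, h2⟩
  exact hc.FU h1 h2

lemma Cl.pL (H : Gr P r) (hc : Cl i F) :
    pL i (indK F) = (F.filter (fun z => i < lev z ∧ ∀ y ∈ uc z, y ∉ F)).card := by
  classical
  unfold Win.pL
  congr 1
  ext z
  simp only [mem_filter, mem_univ, true_and]
  constructor
  · rintro ⟨h1, -, h3⟩
    have h4 : z ∈ F := by
      by_contra h4
      obtain ⟨y, hy⟩ := uc_nonempty H (x := z) (by omega)
      exact h3 ⟨y, mem_uc.1 hy, by rw [indK_zero h4]; exact Nat.zero_le _⟩
    refine ⟨h4, h1, ?_⟩
    intro y hy hyF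
    exact h3 ⟨y, mem_uc.1 hy, by rw [indK_one h4, indK_one hyF]⟩
  · rintro ⟨h1, h2, h3⟩
    refine ⟨h2, hc.FD h2, ?_⟩
    rintro ⟨y, hy, hle⟩
    rw [indK_one h1, indK_zero (h3 y (mem_uc.2 hy))] at hle
    omega

lemma Cl.pU (H : Gr P r) (hir : i ≤ r) (hc : Cl i F) :
    pU i (indK F) = (F.filter (fun z => lev z < i ∧ ∀ y ∈ dc z, y ∉ F)).card := by
  classical
  unfold Win.pU
  congr 1
  ext z
  simp only [mem_filter, mem_univ, true_and]
  constructor
  · rintro ⟨h1, -, h3⟩
    have h4 : z ∈ F := by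
      by_contra h4
      obtain ⟨y, hy⟩ := dc_nonempty H (x := z) (by omega)
      exact h3 ⟨y, mem_dc.1 hy, by rw [indK_zero h4]; exact Nat.zero_le _⟩
    refine ⟨h4, h1, ?_⟩
    intro y hy hyF
    exact h3 ⟨y, mem_dc.1 hy, by rw [indK_one h4, indK_one hyF]⟩
  · rintro ⟨h1, h2, h3⟩
    refine ⟨h2, hc.FU h2, ?_⟩
    rintro ⟨y, hy, hle⟩
    rw [indK_one h1, indK_zero (h3 y (mem_dc.2 hy))] at hle
    omega

lemma mem_AL_ind {v : P} : v ∈ AL i (indK F) ↔ lev v = i ∧ v ∉ F ∧ ∃ x ∈ F, v ∈ uc x := by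
  rw [NormD_mem_AL]
  constructor
  · rintro ⟨h1, x, hx, hlt⟩
    have h2 := indK_pos (F := F) (x := x) (by omega)
    refine ⟨h1, ?_, x, h2, mem_uc.2 hx⟩
    intro h3
    rw [indK_one h2, indK_one h3] at hlt
    omega
  · rintro ⟨h1, h2, x, hx, hxv⟩
    exact ⟨h1, x, mem_uc.1 hxv, by rw [indK_one hx, indK_zero h2]; omega⟩

lemma mem_AU_ind {v : P} : v ∈ AU i (indK F) ↔ lev v = i ∧ v ∉ F ∧ ∃ x ∈ F, v ∈ dc x := by
  rw [NormD_mem_AU]
  constructor
  · rintro ⟨h1, x, hx, hlt⟩
    have h2 := indK_pos (F := F) (x := x) (by omega)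
    refine ⟨h1, ?_, x, h2, mem_dc.2 hx⟩
    intro h3
    rw [indK_one h2, indK_one h3] at hlt
    omega
  · rintro ⟨h1, h2, x, hx, hxv⟩
    exact ⟨h1, x, mem_dc.1 hxv, by rw [indK_one hx, indK_zero h2]; omega⟩

end ind

lemma mem_DD {x : P} : x ∈ dbL P i ∪ dbU P i ↔
    (lev x = i + 1 ∧ (uc x).card = 2) ∨ (lev x + 1 = i ∧ (dc x).card = 2) := by
  rw [mem_union, mem_dbL, mem_dbU]

/-- the sites of a double near element are of level `i` -/
lemma lev_ns (H : Gr P r) {x v : P} (hx : x ∈ dbL P i ∪ dbU P i) (hv : v ∈ ns i x) :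
    lev v = i := by
  rcases mem_union.1 hx with h | h
  · rw [ns_L h] at hv
    have h1 := lev_uc H hv
    have h2 := (mem_dbL.1 h).1
    omega
  · rw [ns_U h] at hv
    have h1 := lev_dc H hv
    have h2 := (mem_dbU.1 h).1
    omega

/-- `z` is a private child of the double lower element `y`, or the mirror image -/
def Pvt (i : ℕ) (z y : P) : Prop :=
  (lev z = i + 2 ∧ uc z = {y} ∧ y ∈ dbL P i) ∨ (lev z + 2 = i ∧ dc z = {y} ∧ y ∈ dbU P i)

lemma Pvt.mem {z y : P} (h : Pvt i z y) : y ∈ dbL P i ∪ dbU P i := by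
  rcases h with h | h
  · exact mem_union_left _ h.2.2
  · exact mem_union_right _ h.2.2

section two

variable {z y k : P}

lemma cl_two (H : Gr P r) (h : Pvt i z y) (hk : k ∈ dbL P i ∪ dbU P i) :
    Cl i ({z, y, k} : Finset P) := by
  have near : ∀ x ∈ ({y, k} : Finset P), lev x = i + 1 ∨ lev x + 1 = i := by
    intro x hx
    rw [mem_insert, mem_singleton] at hx
    have h1 := mem_DD.1 h.mem
    have h2 := mem_DD.1 hk
    rcases hx with rfl | rfl
    · rcases h1 with h1 | h1
      · exact Or.inl h1.1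
      · exact Or.inr h1.1
    · rcases h2 with h1 | h1
      · exact Or.inl h1.1
      · exact Or.inr h1.1
  constructor
  · intro x hx t ht hlt
    have h1 := lev_uc H ht
    rw [mem_insert] at hx
    rcases hx with rfl | hx
    · rcases h with ⟨h2, h3, -⟩ | ⟨h2, -, -⟩
      · rw [h3, mem_singleton] at ht
        rw [ht]
        exact mem_insert_of_mem (mem_insert_self _ _)
      · omega
    · rcases near x hx with h2 | h2 <;> omega
  · intro x hx t ht hlt
    have h1 := lev_dc H ht
    rw [mem_insert] at hx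
    rcases hx with rfl | hx
    · rcases h with ⟨h2, -, -⟩ | ⟨h2, h3, -⟩
      · omega
      · rw [h3, mem_singleton] at ht
        rw [ht]
        exact mem_insert_of_mem (mem_insert_self _ _)
    · rcases near x hx with h2 | h2 <;> omega

/-- the leading coefficient of `z + y + k` -/
theorem lead_two (H : Gr P r) (hir : i ≤ r) {C : Finset P} (hC : Part i C) (h : Pvt i z y)
    (hk : k ∈ dbL P i ∪ dbU P i) (hd : Disjoint (ns i y) (ns i k))
    (hF : ({z, y, k} : Finset P) ⊆ C) :
    dd ^ ((st i C).card - 1) ∣ tC i C (indK {z, y, k}) -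
      ((sgn i y * sgn i k : ℤ) : A) * dd ^ ((st i C).card - 2) := by
  classical
  have hc := cl_two H h hk
  have hyk : y ≠ k := by
    rintro rfl
    rw [disjoint_self] at hd
    have h1 := ns_card hk
    rw [hd] at h1
    simp at h1
  have hG : ({y, k} : Finset P) ⊆ dbL P i ∪ dbU P i := by
    intro x hx
    rw [mem_insert, mem_singleton] at hx
    rcases hx with rfl | rfl
    · exact h.mem
    · exact hk
  have hDj : Dj i ({y, k} : Finset P) := by
    refine ⟨hG, ?_⟩
    intro a ha b hb hab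
    rw [mem_insert, mem_singleton] at ha hb
    rcases ha with rfl | rfl <;> rcases hb with rfl | rfl
    · exact absurd rfl hab
    · exact hd
    · exact hd.symm
    · exact absurd rfl hab
  have nearz : lev z = i + 2 ∨ lev z + 2 = i := by
    rcases h with h | h
    · exact Or.inl h.1
    · exact Or.inr h.1
  have nosite : ∀ v, lev v = i → v ∉ ({z, y, k} : Finset P) := by
    intro v hv hv'
    rw [mem_insert] at hv'
    rcases hv' with rfl | hv'
    · omega
    · have h1 := mem_DD.1 (hG hv')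
      rcases h1 with h1 | h1 <;> omega
  have eAL : AL i (indK {z, y, k}) = (({y, k} : Finset P) ∩ dbL P i).biUnion (ns i) := by
    ext v
    rw [mem_AL_ind, mem_biUnion]
    constructor
    · rintro ⟨h1, -, x, hx, hv⟩
      have h2 := lev_uc H hv
      have h3 : x ∈ ({y, k} : Finset P) := by
        rw [mem_insert] at hx
        rcases hx with rfl | hx
        · omega
        · exact hx
      have h4 : x ∈ dbL P i := by
        rcases mem_union.1 (hG h3) with h5 | h5
        · exact h5
        · have := (mem_dbU.1 h5).1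
          omega
      exact ⟨x, mem_inter.2 ⟨h3, h4⟩, by rw [ns_L h4]; exact hv⟩
    · rintro ⟨x, hx, hv⟩
      rw [mem_inter] at hx
      have h1 := lev_ns H (hG hx.1) hv
      rw [ns_L hx.2] at hv
      exact ⟨h1, nosite v h1, x, mem_insert_of_mem hx.1, hv⟩
  have eAU : AU i (indK {z, y, k}) = (({y, k} : Finset P) ∩ dbU P i).biUnion (ns i) := by
    ext v
    rw [mem_AU_ind, mem_biUnion]
    constructor
    · rintro ⟨h1, -, x, hx, hv⟩
      have h2 := lev_dc H hv
      have h3 : x ∈ ({y, k} : Finset P) := by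
        rw [mem_insert] at hx
        rcases hx with rfl | hx
        · omega
        · exact hx
      have h4 : x ∈ dbU P i := by
        rcases mem_union.1 (hG h3) with h5 | h5
        · have := (mem_dbL.1 h5).1
          omega
        · exact h5
      exact ⟨x, mem_inter.2 ⟨h3, h4⟩, by rw [ns_U h4]; exact hv⟩
    · rintro ⟨x, hx, hv⟩
      rw [mem_inter] at hx
      have h1 := lev_ns H (hG hx.1) hv
      rw [ns_U hx.2] at hv
      exact ⟨h1, nosite v h1, x, mem_insert_of_mem hx.1, hv⟩
  have epL : pL i (indK {z, y, k}) = (({y, k} : Finset P) ∩ dbL P i).card := by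
    rw [hc.pL H]
    congr 1
    ext x
    rw [mem_filter, mem_inter]
    constructor
    · rintro ⟨hx, h1, h2⟩
      have h3 : x ∈ ({y, k} : Finset P) := by
        rw [mem_insert] at hx
        rcases hx with rfl | hx
        · exfalso
          rcases h with ⟨-, h3, -⟩ | ⟨h3, -, -⟩
          · exact h2 y (by rw [h3]; exact mem_singleton_self _)
              (mem_insert_of_mem (mem_insert_self _ _))
          · omega
        · exact hx
      refine ⟨h3, ?_⟩
      rcases mem_union.1 (hG h3) with h5 | h5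
      · exact h5
      · have := (mem_dbU.1 h5).1
        omega
    · rintro ⟨h1, h2⟩
      have h3 := (mem_dbL.1 h2).1
      refine ⟨mem_insert_of_mem h1, by omega, ?_⟩
      intro v hv
      have h4 := lev_uc H hv
      exact nosite v (by omega)
  have epU : pU i (indK {z, y, k}) = (({y, k} : Finset P) ∩ dbU P i).card := by
    rw [hc.pU H hir]
    congr 1
    ext x
    rw [mem_filter, mem_inter]
    constructor
    · rintro ⟨hx, h1, h2⟩
      have h3 : x ∈ ({y, k} : Finset P) := by
        rw [mem_insert] at hx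
        rcases hx with rfl | hx
        · exfalso
          rcases h with ⟨h3, -, -⟩ | ⟨-, h3, -⟩
          · omega
          · exact h2 y (by rw [h3]; exact mem_singleton_self _)
              (mem_insert_of_mem (mem_insert_self _ _))
        · exact hx
      refine ⟨h3, ?_⟩
      rcases mem_union.1 (hG h3) with h5 | h5
      · have := (mem_dbL.1 h5).1
        omega
      · exact h5
    · rintro ⟨h1, h2⟩
      have h3 := (mem_dbU.1 h2).1
      refine ⟨mem_insert_of_mem h1, by omega, ?_⟩
      intro v hv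
      have h4 := lev_dc H hv
      exact nosite v (by omega)
  have cAL : (AL i (indK {z, y, k})).card = 2 * (({y, k} : Finset P) ∩ dbL P i).card := by
    rw [eAL, Dj_bi_card hDj inter_subset_left]
  have cAU : (AU i (indK {z, y, k})).card = 2 * (({y, k} : Finset P) ∩ dbU P i).card := by
    rw [eAU, Dj_bi_card hDj inter_subset_left]
  have hsum : (({y, k} : Finset P) ∩ dbL P i).card + (({y, k} : Finset P) ∩ dbU P i).card = 2 := by
    rw [← card_union_of_disjoint]
    · rw [← inter_union_distrib_left, inter_eq_left.2 hG, card_pair hyk]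
    · rw [disjoint_left]
      intro x h1 h2
      rw [mem_inter] at h1 h2
      have h3 := (mem_dbL.1 h1.2).1
      have h4 := (mem_dbU.1 h2.2).1
      omega
  have hDis : Disjoint (AL i (indK {z, y, k})) (AU i (indK {z, y, k})) := by
    rw [eAL, eAU, disjoint_left]
    intro x hx hx'
    rw [mem_biUnion] at hx hx'
    obtain ⟨w, hw, hxw⟩ := hx
    obtain ⟨w', hw', hxw'⟩ := hx'
    rw [mem_inter] at hw hw'
    have hne : w ≠ w' := by
      rintro rfl
      have h3 := (mem_dbL.1 hw.2).1
      have h4 := (mem_dbU.1 hw'.2).1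
      omega
    exact disjoint_left.1 (hDj.2 w hw.1 w' hw'.1 hne) hxw hxw'
  have h1 := tC_lead (C := C) hc.admL hc.admU hDis (by omega)
    (card_le_st H hC (spt_indK hF) hDis)
  have h2 : (-1 : ℤ) ^ (aL i (indK {z, y, k}) + aU i (indK {z, y, k}) + pU i (indK {z, y, k}) +
      (AL i (indK {z, y, k})).card) = sgn i y * sgn i k := by
    rw [hc.aL, hc.aU, epU, cAL, zero_add, zero_add, pow_add, pow_mul]
    rw [show ((-1 : ℤ) ^ 2) = 1 by norm_num, one_pow, mul_one, ← prod_sgn, prod_pair hyk]
  rw [h2] at h1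
  exact h1

/-- no simple edges -/
lemma SK_two {K : Finset P} {psi : P → P} (hM : Mat P i K psi) {C : Finset P} (hK : Star i C K)
    (h : Pvt i z y) (hk : k ∈ dbL P i ∪ dbU P i) (hkK : k ∈ K)
    (hd : Disjoint (ns i y) (ns i k)) : SK i K psi (indK {z, y, k}) = ∅ := by
  rw [eq_empty_iff_forall_notMem]
  intro x hx
  obtain ⟨h1, h2⟩ := mem_SK2.1 hx
  obtain ⟨p1, p2, p3⟩ := psi_lowK hM h1
  rw [mem_sdiff] at h1
  have p4 := (psi_low hM h1.1 h1.2).2.2.2
  have l1 := (mem_dbL.1 h1.1).1
  have l2 := (mem_dbU.1 p1).1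
  have nearz : lev z = i + 2 ∨ lev z + 2 = i := by
    rcases h with h | h
    · exact Or.inl h.1
    · exact Or.inr h.1
  have h3 : x ∈ ({z, y, k} : Finset P) ∨ psi x ∈ ({z, y, k} : Finset P) := by
    rcases h2.one with h3 | h3
    · exact Or.inl (indK_pos (by omega))
    · exact Or.inr (indK_pos (by omega))
  rcases h3 with h3 | h3
  · rw [mem_insert, mem_insert, mem_singleton] at h3
    rcases h3 with rfl | rfl | rfl
    · omega
    · rcases h with ⟨-, h4, -⟩ | ⟨h4, -, h5⟩
      · have h5 := h2.lo z (mem_dc.2 (mem_uc.1 (by rw [h4]; exact mem_singleton_self _)))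
        rw [indK_one (mem_insert_self _ _)] at h5
        omega
      · have := (mem_dbU.1 h5).1
        omega
    · exact h1.2 hkK
  · rw [mem_insert, mem_insert, mem_singleton] at h3
    rcases h3 with h3 | h3 | h3
    · rw [h3] at l2
      omega
    · rcases h with ⟨-, -, h4⟩ | ⟨h4, h5, -⟩
      · have := (mem_dbL.1 h4).1
        rw [h3] at l2
        omega
      · have h6 := h2.up z (mem_uc.2 (mem_dc.1 (by rw [h3, h5]; exact mem_singleton_self _)))
        rw [indK_one (mem_insert_self _ _)] at h6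
        omega
    · rw [h3] at p4
      exact p4 hkK

end two

section one

variable {q k k' : P}

/-- the leading coefficient of `q + k + k'` -/
theorem lead_one (H : Gr P r) (hir : i ≤ r) {C : Finset P} (hC : Part i C)
    (hk : k ∈ dbL P i ∪ dbU P i) (hk' : k' ∈ dbL P i ∪ dbU P i) (hne : k ≠ k')
    (hq : ns i k ∩ ns i k' = {q}) (hF : ({q, k, k'} : Finset P) ⊆ C) :
    dd ^ ((st i C).card - 1) ∣ tC i C (indK {q, k, k'}) -
      ((sgn i k * sgn i k' : ℤ) : A) * dd ^ ((st i C).card - 2) := by
  classical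
  have hqk : q ∈ ns i k ∧ q ∈ ns i k' := by
    rw [← mem_inter, hq]
    exact mem_singleton_self _
  have hql := lev_ns H hk hqk.1
  have hG : ({k, k'} : Finset P) ⊆ dbL P i ∪ dbU P i := by
    intro x hx
    rw [mem_insert, mem_singleton] at hx
    rcases hx with rfl | rfl
    · exact hk
    · exact hk'
  have hqG : ∀ x ∈ ({k, k'} : Finset P), q ∈ ns i x := by
    intro x hx
    rw [mem_insert, mem_singleton] at hx
    rcases hx with rfl | rfl
    · exact hqk.1
    · exact hqk.2
  have near : ∀ x ∈ ({k, k'} : Finset P), lev x = i + 1 ∨ lev x + 1 = i := by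
    intro x hx
    rcases mem_DD.1 (hG hx) with h | h
    · exact Or.inl h.1
    · exact Or.inr h.1
  have site : ∀ v, lev v = i → (v ∈ ({q, k, k'} : Finset P) ↔ v = q) := by
    intro v hv
    constructor
    · intro h
      rw [mem_insert] at h
      rcases h with h | h
      · exact h
      · rcases near v h with h1 | h1 <;> omega
    · rintro rfl
      exact mem_insert_self _ _
  have hc : Cl i ({q, k, k'} : Finset P) := by
    constructor
    · intro x hx t ht hlt
      have h1 := lev_uc H ht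
      rw [mem_insert] at hx
      rcases hx with rfl | hx
      · omega
      · rcases near x hx with h2 | h2 <;> omega
    · intro x hx t ht hlt
      have h1 := lev_dc H ht
      rw [mem_insert] at hx
      rcases hx with rfl | hx
      · omega
      · rcases near x hx with h2 | h2 <;> omega
  have hDj : ∀ a ∈ ({k, k'} : Finset P), ∀ b ∈ ({k, k'} : Finset P), a ≠ b →
      Disjoint ((ns i a).erase q) ((ns i b).erase q) := by
    have key : Disjoint ((ns i k).erase q) ((ns i k').erase q) := by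
      rw [disjoint_left]
      intro v hv hv'
      rw [mem_erase] at hv hv'
      have : v ∈ ns i k ∩ ns i k' := mem_inter.2 ⟨hv.2, hv'.2⟩
      rw [hq, mem_singleton] at this
      exact hv.1 this
    intro a ha b hb hab
    rw [mem_insert, mem_singleton] at ha hb
    rcases ha with rfl | rfl <;> rcases hb with rfl | rfl
    · exact absurd rfl hab
    · exact key
    · exact key.symm
    · exact absurd rfl hab
  have hcard : ∀ G ⊆ ({k, k'} : Finset P), (G.biUnion (fun x => (ns i x).erase q)).card =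
      G.card := by
    intro G hG'
    rw [card_biUnion]
    · rw [sum_congr rfl (g := fun _ => 1), sum_const, smul_eq_mul, mul_one]
      intro x hx
      rw [card_erase_of_mem (hqG x (hG' hx)), ns_card (hG (hG' hx))]
    · intro a ha b hb hab
      exact hDj a (hG' ha) b (hG' hb) hab
  have eAL : AL i (indK {q, k, k'}) = (({k, k'} : Finset P) ∩ dbL P i).biUnion
      (fun x => (ns i x).erase q) := by
    ext v
    rw [mem_AL_ind, mem_biUnion]
    constructor
    · rintro ⟨h1, h0, x, hx, hv⟩
      have h2 := lev_uc H hv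
      rw [site v h1] at h0
      have h3 : x ∈ ({k, k'} : Finset P) := by
        rw [mem_insert] at hx
        rcases hx with rfl | hx
        · omega
        · exact hx
      have h4 : x ∈ dbL P i := by
        rcases mem_union.1 (hG h3) with h5 | h5
        · exact h5
        · have := (mem_dbU.1 h5).1
          omega
      refine ⟨x, mem_inter.2 ⟨h3, h4⟩, mem_erase.2 ⟨h0, ?_⟩⟩
      rw [ns_L h4]
      exact hv
    · rintro ⟨x, hx, hv⟩
      rw [mem_inter] at hx
      rw [mem_erase] at hv
      have h1 := lev_ns H (hG hx.1) hv.2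
      rw [ns_L hx.2] at hv
      refine ⟨h1, ?_, x, mem_insert_of_mem hx.1, hv.2⟩
      rw [site v h1]
      exact hv.1
  have eAU : AU i (indK {q, k, k'}) = (({k, k'} : Finset P) ∩ dbU P i).biUnion
      (fun x => (ns i x).erase q) := by
    ext v
    rw [mem_AU_ind, mem_biUnion]
    constructor
    · rintro ⟨h1, h0, x, hx, hv⟩
      have h2 := lev_dc H hv
      rw [site v h1] at h0
      have h3 : x ∈ ({k, k'} : Finset P) := by
        rw [mem_insert] at hx
        rcases hx with rfl | hx
        · omega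
        · exact hx
      have h4 : x ∈ dbU P i := by
        rcases mem_union.1 (hG h3) with h5 | h5
        · have := (mem_dbL.1 h5).1
          omega
        · exact h5
      refine ⟨x, mem_inter.2 ⟨h3, h4⟩, mem_erase.2 ⟨h0, ?_⟩⟩
      rw [ns_U h4]
      exact hv
    · rintro ⟨x, hx, hv⟩
      rw [mem_inter] at hx
      rw [mem_erase] at hv
      have h1 := lev_ns H (hG hx.1) hv.2
      rw [ns_U hx.2] at hv
      refine ⟨h1, ?_, x, mem_insert_of_mem hx.1, hv.2⟩
      rw [site v h1]
      exact hv.1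
  have epL : pL i (indK {q, k, k'}) = 0 := by
    rw [hc.pL H, card_eq_zero, filter_eq_empty_iff]
    rintro x hx ⟨h1, h2⟩
    rw [mem_insert] at hx
    rcases hx with rfl | hx
    · omega
    · have h3 := hqG x hx
      have h4 : x ∈ dbL P i := by
        rcases mem_union.1 (hG hx) with h5 | h5
        · exact h5
        · have := (mem_dbU.1 h5).1
          omega
      rw [ns_L h4] at h3
      exact h2 q h3 (mem_insert_self _ _)
  have epU : pU i (indK {q, k, k'}) = 0 := by
    rw [hc.pU H hir, card_eq_zero, filter_eq_empty_iff]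
    rintro x hx ⟨h1, h2⟩
    rw [mem_insert] at hx
    rcases hx with rfl | hx
    · omega
    · have h3 := hqG x hx
      have h4 : x ∈ dbU P i := by
        rcases mem_union.1 (hG hx) with h5 | h5
        · have := (mem_dbL.1 h5).1
          omega
        · exact h5
      rw [ns_U h4] at h3
      exact h2 q h3 (mem_insert_self _ _)
  have cAL : (AL i (indK {q, k, k'})).card = (({k, k'} : Finset P) ∩ dbL P i).card := by
    rw [eAL, hcard _ inter_subset_left]
  have cAU : (AU i (indK {q, k, k'})).card = (({k, k'} : Finset P) ∩ dbU P i).card := by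
    rw [eAU, hcard _ inter_subset_left]
  have hsum : (({k, k'} : Finset P) ∩ dbL P i).card +
      (({k, k'} : Finset P) ∩ dbU P i).card = 2 := by
    rw [← card_union_of_disjoint]
    · rw [← inter_union_distrib_left, inter_eq_left.2 hG, card_pair hne]
    · rw [disjoint_left]
      intro x h1 h2
      rw [mem_inter] at h1 h2
      have h3 := (mem_dbL.1 h1.2).1
      have h4 := (mem_dbU.1 h2.2).1
      omega
  have hDis : Disjoint (AL i (indK {q, k, k'})) (AU i (indK {q, k, k'})) := by
    rw [eAL, eAU, disjoint_left]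
    intro x hx hx'
    rw [mem_biUnion] at hx hx'
    obtain ⟨w, hw, hxw⟩ := hx
    obtain ⟨w', hw', hxw'⟩ := hx'
    rw [mem_inter] at hw hw'
    have hne : w ≠ w' := by
      rintro rfl
      have h3 := (mem_dbL.1 hw.2).1
      have h4 := (mem_dbU.1 hw'.2).1
      omega
    exact disjoint_left.1 (hDj w hw.1 w' hw'.1 hne) hxw hxw'
  have h1 := tC_lead (C := C) hc.admL hc.admU hDis (by omega)
    (card_le_st H hC (spt_indK hF) hDis)
  have h2 : (-1 : ℤ) ^ (aL i (indK {q, k, k'}) + aU i (indK {q, k, k'}) +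
      pU i (indK {q, k, k'}) + (AL i (indK {q, k, k'})).card) = sgn i k * sgn i k' := by
    rw [hc.aL, hc.aU, epU, cAL, zero_add, zero_add, zero_add, ← prod_pair (f := sgn i) hne,
      prod_sgn]
    have h3 : (({k, k'} : Finset P) ∩ dbL P i).card = 2 - (({k, k'} : Finset P) ∩ dbU P i).card := by
      omega
    have h4 : (({k, k'} : Finset P) ∩ dbU P i).card ≤ 2 := by omega
    rw [h3]
    interval_cases (({k, k'} : Finset P) ∩ dbU P i).card <;> norm_num
  rw [h2] at h1
  exact h1

/-- no simple edges -/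
lemma SK_one {K : Finset P} {psi : P → P} (hM : Mat P i K psi) (hkK : k ∈ K) (hkK' : k' ∈ K)
    (hq : lev q = i) : SK i K psi (indK {q, k, k'}) = ∅ := by
  rw [eq_empty_iff_forall_notMem]
  intro x hx
  obtain ⟨h1, h2⟩ := mem_SK2.1 hx
  obtain ⟨p1, p2, p3⟩ := psi_lowK hM h1
  rw [mem_sdiff] at h1
  have p4 := (psi_low hM h1.1 h1.2).2.2.2
  have l1 := (mem_dbL.1 h1.1).1
  have l2 := (mem_dbU.1 p1).1
  have h3 : x ∈ ({q, k, k'} : Finset P) ∨ psi x ∈ ({q, k, k'} : Finset P) := by
    rcases h2.one with h3 | h3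
    · exact Or.inl (indK_pos (by omega))
    · exact Or.inr (indK_pos (by omega))
  rcases h3 with h3 | h3
  · rw [mem_insert, mem_insert, mem_singleton] at h3
    rcases h3 with rfl | rfl | rfl
    · omega
    · exact h1.2 hkK
    · exact h1.2 hkK'
  · rw [mem_insert, mem_insert, mem_singleton] at h3
    rcases h3 with h3 | h3 | h3
    · rw [h3] at l2
      omega
    · rw [h3] at p4
      exact p4 hkK
    · rw [h3] at p4
      exact p4 hkK'

end one

end Pool.Agent.GaussPoset.Win.K2

end

/-! From `Pool.Agent.W_448v_h15.VC` -/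

section

/-!
The value of `w3` of a star component (MP_448cb3_co, case B), part C: the configurations of energy
three and order two without simple edges which excite a site, or an element which is not a double
near element.
-/

namespace Pool.Agent.GaussPoset.Win.K2

set_option linter.unusedSectionVars false

open Finset I2

universe u

variable {P : Type u} [Fintype P] [PartialOrder P] [DecidableEq P] {r i : ℕ} {e : P → ℕ}

/-- far above the window or near with one lower cover -/
def Dq (i : ℕ) (x : P) : Prop := lev x + 2 ≤ i ∨ (lev x + 1 = i ∧ (dc x).card = 1)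

section pt

variable (H : Gr P r) (hir : i ≤ r) (hq : NoQ P (i + 2)) (hg : ∀ m, m + 1 = i → Good P m)
include H hir hq hg

lemma ch_le_Dq (hU : AdmU i e) {x : P} (h0 : 1 ≤ e x) (hD : Dq i x) :
    ch i e x ≤ 2 * (e x : ℤ) - 2 ∧ ch i e x ≤ 2 ∧
      (lev x + 1 = i → ch i e x ≤ 0) := by
  classical
  have SU := side_up (i := i) H hir hg
  have h0' : (1 : ℤ) ≤ e x := by exact_mod_cast h0
  have h1 : lev x < i := by
    unfold Dq at hD
    rcases hD with h | h <;> omega
  have hxS : x ∈ uS P i := mem_uS.2 h1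
  unfold ch
  rw [if_neg (by omega), if_pos h1]
  split_ifs with h2
  · have h5 := cc_le_two (e := e) SU x
    have h6 := t_le_of_kl SU (adm_up hU) (i - lev x) x hxS h2 rfl
    unfold Dq at hD
    rcases hD with h | ⟨h, hc⟩
    · have : (2 : ℤ) ≤ e x := by exact_mod_cast (by omega : 2 ≤ e x)
      refine ⟨by linarith, h5, fun h7 => by omega⟩
    · have h7 := sur_single (c := dc) (c' := uc) (e := e) hc
      unfold sur at h7
      rw [if_pos h2] at h7
      refine ⟨by linarith, by linarith, fun _ => by linarith⟩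
  · exact ⟨by linarith, by norm_num, fun _ => le_rfl⟩

/-- all the charges are extremal -/
theorem eq_ch (hL : AdmL i e) (hU : AdmU i e) (h3 : ∑ x, e x = 3)
    (ho : pL i e + pU i e + 2 ≤ (AL i e).card + (AU i e).card) {x0 : P}
    (hx0 : ch i e x0 ≤ 2 * (e x0 : ℤ) - 2) :
    ch i e x0 = 2 * (e x0 : ℤ) - 2 ∧ ∀ x, x ≠ x0 → 1 ≤ e x → x ∈ bN i e := by
  classical
  have h1 := sum_ch H hir hq hg hL hU
  have h2 : ∀ x ∈ (univ : Finset P), ch i e x ≤ 2 * (e x : ℤ) - (if x = x0 then 2 else 0) := by
    intro x _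
    split_ifs with h
    · rw [h]
      exact hx0
    · have := ch_le H hir hq hg (e := e) x
      linarith
  have h4 : ∑ x, (2 * (e x : ℤ) - (if x = x0 then 2 else 0)) ≤ ∑ x, ch i e x := by
    rw [h1, Finset.sum_sub_distrib, ← Finset.mul_sum, Finset.sum_ite_eq' univ x0,
      if_pos (mem_univ _)]
    have h5 : ((∑ x, e x : ℕ) : ℤ) = ∑ x, (e x : ℤ) := by push_cast; rfl
    rw [← h5, h3]
    have h6 : ((pL i e + pU i e + 2 : ℕ) : ℤ) ≤ (((AL i e).card + (AU i e).card : ℕ) : ℤ) := by
      exact_mod_cast ho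
    push_cast at h6 ⊢
    linarith
  have h5 : ∀ x ∈ (univ : Finset P), ch i e x = 2 * (e x : ℤ) - (if x = x0 then 2 else 0) :=
    (Finset.sum_eq_sum_iff_of_le h2).1 (le_antisymm (Finset.sum_le_sum h2) h4)
  constructor
  · have h6 := h5 x0 (mem_univ _)
    rwa [if_pos rfl] at h6
  · intro x hx h0
    by_contra hb
    have h6 := h5 x (mem_univ x)
    rw [if_neg hx] at h6
    have h7 := ch_le_one H hir hq hg hL hU h0 hb
    linarith

omit H hir hq hg in
/-- the shape of a configuration of energy three -/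
lemma shape3 {x0 : P} (h1 : e x0 = 1) (hS : ∀ x, x ≠ x0 → 1 ≤ e x → e x = 1)
    (h3 : ∑ x, e x = 3) : ∃ k k', k ≠ k' ∧ k ≠ x0 ∧ k' ≠ x0 ∧ e = indK {x0, k, k'} := by
  classical
  have h4 : ∑ x, e x = e x0 + (univ.filter (fun x => x ≠ x0 ∧ 1 ≤ e x)).card := by
    rw [← Finset.add_sum_erase univ e (mem_univ x0), Finset.card_eq_sum_ones]
    congr 1
    rw [← Finset.sum_filter_add_sum_filter_not (univ.erase x0) (fun x => 1 ≤ e x)]
    have h5 : ∑ x ∈ (univ.erase x0).filter (fun x => ¬ 1 ≤ e x), e x = 0 := by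
      refine Finset.sum_eq_zero fun x hx => ?_
      rw [mem_filter] at hx
      omega
    rw [h5, add_zero]
    have h6 : (univ.erase x0).filter (fun x => 1 ≤ e x) =
        univ.filter (fun x => x ≠ x0 ∧ 1 ≤ e x) := by
      ext x
      simp only [mem_filter, mem_erase, mem_univ, and_true, true_and]
    rw [h6]
    refine Finset.sum_congr rfl fun x hx => ?_
    rw [mem_filter] at hx
    exact hS x hx.2.1 hx.2.2
  rw [h3, h1] at h4
  obtain ⟨k, k', hne, hkk⟩ := Finset.card_eq_two.1
    (show (univ.filter (fun x => x ≠ x0 ∧ 1 ≤ e x)).card = 2 by omega)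
  have hk : k ∈ univ.filter (fun x => x ≠ x0 ∧ 1 ≤ e x) := by
    rw [hkk]
    exact mem_insert_self _ _
  have hk' : k' ∈ univ.filter (fun x => x ≠ x0 ∧ 1 ≤ e x) := by
    rw [hkk]
    exact mem_insert_of_mem (mem_singleton_self _)
  rw [mem_filter] at hk hk'
  refine ⟨k, k', hne, hk.2.1, hk'.2.1, ?_⟩
  funext x
  by_cases hx : x ∈ ({x0, k, k'} : Finset P)
  · rw [indK_one hx]
    rw [mem_insert, mem_insert, mem_singleton] at hx
    rcases hx with rfl | rfl | rfl
    · exact h1
    · exact hS _ hk.2.1 hk.2.2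
    · exact hS _ hk'.2.1 hk'.2.2
  · rw [indK_zero hx]
    by_contra h
    apply hx
    by_cases hx0 : x = x0
    · rw [hx0]
      exact mem_insert_self _ _
    · have h5 : x ∈ univ.filter (fun x => x ≠ x0 ∧ 1 ≤ e x) :=
        mem_filter.2 ⟨mem_univ _, hx0, by omega⟩
      rw [hkk] at h5
      exact mem_insert_of_mem h5

omit hq hg hir in
lemma pos_uc (hL : AdmL i e) {x y : P} (hx : i + 2 ≤ lev x) (h0 : 1 ≤ e x) (hy : y ∈ uc x) :
    1 ≤ e y := by
  by_contra h
  have h1 := lev_uc H hy
  obtain ⟨t, ht⟩ := uc_nonempty H (x := y) (by omega)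
  exact hL y (by omega) ⟨⟨x, mem_uc.1 hy, by omega⟩, ⟨t, mem_uc.1 ht, by omega⟩⟩

omit hq hg in
lemma pos_dc (hU : AdmU i e) {x y : P} (hx : lev x + 2 ≤ i) (h0 : 1 ≤ e x) (hy : y ∈ dc x) :
    1 ≤ e y := by
  by_contra h
  have h1 := lev_dc H hy
  obtain ⟨t, ht⟩ := dc_nonempty H (x := y) (by omega)
  exact hU y (by omega) ⟨⟨x, mem_dc.1 hy, by omega⟩, ⟨t, mem_dc.1 ht, by omega⟩⟩

lemma near_bN {k : P} (hk : k ∈ bN i e) : k ∈ dbL P i ∪ dbU P i := by
  unfold bN at hk
  rcases mem_union.1 hk with h | h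
  · obtain ⟨h1, h2, -⟩ := bL_data H hir hq hg h
    exact mem_union_left _ (mem_dbL.2 ⟨h1, h2⟩)
  · obtain ⟨h1, h2, -⟩ := bU_data H hir hq hg h
    exact mem_union_right _ (mem_dbU.2 ⟨h1, h2⟩)

/-- a bad element without an excited child is in `K` -/
lemma bN_inK {K : Finset P} {psi : P → P} (hM : Mat P i K psi) (hL : AdmL i e) (hU : AdmU i e)
    (hd : Disjoint (AL i e) (AU i e)) (hSK : SK i K psi e = ∅) {k : P} (hk : k ∈ bN i e)
    (h1 : ∀ z, (lev z = i + 2 ∧ k ∈ uc z) ∨ (lev z + 2 = i ∧ k ∈ dc z) → e z = 0) : k ∈ K := by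
  by_contra hK
  unfold bN at hk
  rcases mem_union.1 hk with h | h
  · obtain ⟨l1, -⟩ := bL_data H hir hq hg h
    have h2 : k ∈ SK i K psi e := (low_simple hM H hq hU hd h hK (by
      intro z hz
      have := lev_dc H hz
      exact h1 z (Or.inl ⟨by omega, mem_uc.2 (mem_dc.1 hz)⟩))).1
    rw [hSK] at h2
    exact notMem_empty _ h2
  · obtain ⟨l1, -⟩ := bU_data H hir hq hg h
    have h2 : psi k ∈ SK i K psi e := (up_simple hM H hir hg hL hd h hK (by
      intro z hz
      have := lev_uc H hz
      exact h1 z (Or.inr ⟨by omega, mem_dc.2 (mem_uc.1 hz)⟩))).2.1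
    rw [hSK] at h2
    exact notMem_empty _ h2

/-- THE CONFIGURATIONS WITH AN EXCITED SITE -/
theorem class_one {K : Finset P} {psi : P → P} (hM : Mat P i K psi) {C : Finset P}
    (hK : Star i C K) (hs : Spt C e) (hL : AdmL i e) (hU : AdmU i e)
    (hd : Disjoint (AL i e) (AU i e)) (hSK : SK i K psi e = ∅) (h3 : ∑ x, e x = 3)
    (ho : pL i e + pU i e + 2 ≤ (AL i e).card + (AU i e).card) {q : P} (hql : lev q = i)
    (h0 : 1 ≤ e q) :
    ∃ k k', k ∈ K ∧ k' ∈ K ∧ k ≠ k' ∧ k ∈ dbL P i ∪ dbU P i ∧ k' ∈ dbL P i ∪ dbU P i ∧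
      ns i k ∩ ns i k' = {q} ∧ e = indK {q, k, k'} := by
  have hc0 : ch i e q = 0 := by
    unfold ch
    rw [if_neg (by omega), if_neg (by omega)]
  have h0' : (1 : ℤ) ≤ e q := by exact_mod_cast h0
  obtain ⟨h4, h5⟩ := eq_ch H hir hq hg hL hU h3 ho (x0 := q) (by rw [hc0]; linarith)
  have h6 : e q = 1 := by
    rw [hc0] at h4
    have : (e q : ℤ) = 1 := by linarith
    exact_mod_cast this
  obtain ⟨k, k', hne, hk0, hk0', he⟩ := shape3 h6
    (fun x hx hx1 => (bN_data H hir hq hg (h5 x hx hx1)).2.1) h3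
  have ek : e k = 1 := by
    rw [he]
    exact indK_one (mem_insert_of_mem (mem_insert_self _ _))
  have ek' : e k' = 1 := by
    rw [he]
    exact indK_one (mem_insert_of_mem (mem_insert_of_mem (mem_singleton_self _)))
  have hkb := h5 k hk0 (by omega)
  have hkb' := h5 k' hk0' (by omega)
  have hkD := near_bN H hir hq hg hkb
  have hkD' := near_bN H hir hq hg hkb'
  have far : ∀ z, (lev z = i + 2 ∨ lev z + 2 = i) → e z = 0 := by
    intro z hz
    by_contra h
    have h7 : z ∈ ({q, k, k'} : Finset P) := by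
      apply indK_pos
      rw [← he]
      omega
    rw [mem_insert, mem_insert, mem_singleton] at h7
    rcases h7 with rfl | rfl | rfl
    · omega
    · rcases mem_DD.1 hkD with h8 | h8 <;> omega
    · rcases mem_DD.1 hkD' with h8 | h8 <;> omega
  have hkK : k ∈ K := by
    refine bN_inK H hir hq hg hM hL hU hd hSK hkb ?_
    rintro z (h | h)
    · exact far z (Or.inl h.1)
    · exact far z (Or.inr h.1)
  have hkK' : k' ∈ K := by
    refine bN_inK H hir hq hg hM hL hU hd hSK hkb' ?_
    rintro z (h | h)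
    · exact far z (Or.inl h.1)
    · exact far z (Or.inr h.1)
  have hC : ∀ x, e x = 1 → x ∈ C := by
    intro x hx
    by_contra h
    have := hs x h
    omega
  have hall : ∀ t ∈ ns i k ∩ ns i k', t = q := by
    intro t ht
    rw [mem_inter] at ht
    have h7 := bad_disj H hir hq hg hd hkb hkb' hne ht.1 ht.2
    have h8 := lev_ns H hkD ht.1
    have h9 : t ∈ ({q, k, k'} : Finset P) := by
      apply indK_pos
      rw [← he]
      omega
    rw [mem_insert, mem_insert, mem_singleton] at h9
    rcases h9 with h9 | rfl | rfl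
    · exact h9
    · rcases mem_DD.1 hkD with h9 | h9 <;> omega
    · rcases mem_DD.1 hkD' with h9 | h9 <;> omega
  obtain ⟨t, ht, ht'⟩ := hK.two k hkK (hC k ek) k' hkK' (hC k' ek') hne
  have htq := hall t (mem_inter.2 ⟨ht, ht'⟩)
  refine ⟨k, k', hkK, hkK', hne, hkD, hkD', ?_, he⟩
  ext x
  rw [mem_singleton]
  constructor
  · exact hall x
  · rintro rfl
    rw [← htq]
    exact mem_inter.2 ⟨ht, ht'⟩

/-- THE CONFIGURATIONS WITH AN EXCITED ELEMENT OUTSIDE THE SITES AND THE DOUBLE NEAR ELEMENTS -/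
theorem class_two {K : Finset P} {psi : P → P} (hM : Mat P i K psi) {C : Finset P}
    (hK : Star i C K) (hs : Spt C e) (hL : AdmL i e) (hU : AdmU i e)
    (hd : Disjoint (AL i e) (AU i e)) (hSK : SK i K psi e = ∅) (h3 : ∑ x, e x = 3)
    (ho : pL i e + pU i e + 2 ≤ (AL i e).card + (AU i e).card)
    (hsite : ∀ x, lev x = i → e x = 0) {z : P} (h0 : 1 ≤ e z) (hz : z ∉ dbL P i ∪ dbU P i) :
    ∃ y k, Pvt i z y ∧ k ∈ K ∧ k ∈ dbL P i ∪ dbU P i ∧ Disjoint (ns i y) (ns i k) ∧
      e = indK {z, y, k} := by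
  have hzi : lev z ≠ i := by
    intro h
    have := hsite z h
    omega
  have h0' : (1 : ℤ) ≤ e z := by exact_mod_cast h0
  have hC : ∀ x, 1 ≤ e x → x ∈ C := by
    intro x hx
    by_contra h
    have := hs x h
    omega
  have hPQ : (lev z = i + 1 ∧ (uc z).card = 1) ∨ (lev z + 1 = i ∧ (dc z).card = 1) ∨
      i + 2 ≤ lev z ∨ lev z + 2 ≤ i := by
    rw [mem_DD] at hz
    push Not at hz
    rcases Nat.lt_trichotomy (lev z) i with h | h | h
    · rcases Nat.eq_or_lt_of_le (show lev z + 1 ≤ i by omega) with h1 | h1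
      · right
        left
        have h2 := hz.2 h1
        have h3 := dc_card_le H z
        have h4 : 0 < (dc z).card := card_pos.2 (dc_nonempty H (by omega))
        exact ⟨h1, by omega⟩
      · right
        right
        right
        omega
    · exact absurd h hzi
    · rcases Nat.eq_or_lt_of_le (show i + 1 ≤ lev z by omega) with h1 | h1
      · left
        have h2 := hz.1 h1.symm
        have h3 := uc_card_le H z
        have h4 : 0 < (uc z).card := card_pos.2 (uc_nonempty H (by omega))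
        exact ⟨h1.symm, by omega⟩
      · right
        right
        left
        omega
  have hchz : ch i e z ≤ 2 * (e z : ℤ) - 2 ∧ ch i e z ≤ 2 ∧
      (lev z = i + 1 ∨ lev z + 1 = i → ch i e z ≤ 0) := by
    rcases hPQ with h | h | h | h
    · have h1 := ch_le_D H hir hq hg hL h0 (Or.inr h)
      exact ⟨h1.1, h1.2.1, fun _ => h1.2.2 h.1⟩
    · have h1 := ch_le_Dq H hir hq hg hU h0 (Or.inr h)
      exact ⟨h1.1, h1.2.1, fun _ => h1.2.2 h.1⟩
    · have h1 := ch_le_D H hir hq hg hL h0 (Or.inl h)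
      exact ⟨h1.1, h1.2.1, fun h2 => by omega⟩
    · have h1 := ch_le_Dq H hir hq hg hU h0 (Or.inl h)
      exact ⟨h1.1, h1.2.1, fun h2 => by omega⟩
  obtain ⟨h4, h5⟩ := eq_ch H hir hq hg hL hU h3 ho (x0 := z) hchz.1
  have h1e : ∀ x, x ≠ z → 1 ≤ e x → e x = 1 :=
    fun x hx hx1 => (bN_data H hir hq hg (h5 x hx hx1)).2.1
  have nearx : ∀ x, x ≠ z → 1 ≤ e x → lev x = i + 1 ∨ lev x + 1 = i := by
    intro x hx hx1
    rcases mem_DD.1 (near_bN H hir hq hg (h5 x hx hx1)) with h | h
    · exact Or.inl h.1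
    · exact Or.inr h.1
  have he2 : e z ≤ 2 := by
    have : (e z : ℤ) ≤ 2 := by
      have := hchz.2.1
      linarith
    exact_mod_cast this
  -- the covers of `z`
  have cov : ((i + 2 ≤ lev z → ∀ y ∈ uc z, 1 ≤ e y ∧ y ≠ z) ∧
      (lev z + 2 ≤ i → ∀ y ∈ dc z, 1 ≤ e y ∧ y ≠ z)) := by
    constructor
    · intro h y hy
      have := lev_uc H hy
      exact ⟨pos_uc H hL h h0 hy, by rintro rfl; omega⟩
    · intro h y hy
      have := lev_dc H hy
      exact ⟨pos_dc H hir hU h h0 hy, by rintro rfl; omega⟩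
  have hz1 : e z = 1 := by
    by_contra hne
    have hz2 : e z = 2 := by omega
    -- exactly one other excited element
    have huniq : ∀ x x', x ≠ z → x' ≠ z → 1 ≤ e x → 1 ≤ e x' → x = x' := by
      intro x x' hx hx' hx1 hx1'
      by_contra hxx
      have h6 : ∑ t ∈ ({z, x, x'} : Finset P), e t ≤ ∑ t, e t :=
        Finset.sum_le_sum_of_subset (subset_univ _)
      rw [sum_insert, sum_pair hxx] at h6
      · omega
      · rw [mem_insert, mem_singleton]
        rintro (h | h)
        · exact hx h.symm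
        · exact hx' h.symm
    rcases hPQ with h | h | h | h
    · have h6 := hchz.2.2 (Or.inl h.1)
      rw [h4, hz2] at h6
      norm_num at h6
    · have h6 := hchz.2.2 (Or.inr h.1)
      rw [h4, hz2] at h6
      norm_num at h6
    · have SL := side_low (i := i) H hq
      have h6 : cc uc dc e z = 2 := by
        have h7 := h4
        unfold ch at h7
        rw [if_pos (by omega)] at h7
        split_ifs at h7 with h8
        · rw [h7, hz2]
          norm_num
        · rw [hz2] at h7
          norm_num at h7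
      obtain ⟨a, b, hab, hcc⟩ := Finset.card_eq_two.1 (cc_eq_two SL h6).1
      have ha := cov.1 h a (by rw [hcc]; exact mem_insert_self _ _)
      have hb := cov.1 h b (by rw [hcc]; exact mem_insert_of_mem (mem_singleton_self _))
      exact hab (huniq a b ha.2 hb.2 ha.1 hb.1)
    · have SU := side_up (i := i) H hir hg
      have h6 : cc dc uc e z = 2 := by
        have h7 := h4
        unfold ch at h7
        rw [if_neg (by omega), if_pos (by omega)] at h7
        split_ifs at h7 with h8
        · rw [h7, hz2]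
          norm_num
        · rw [hz2] at h7
          norm_num at h7
      obtain ⟨a, b, hab, hcc⟩ := Finset.card_eq_two.1 (cc_eq_two SU h6).1
      have ha := cov.2 h a (by rw [hcc]; exact mem_insert_self _ _)
      have hb := cov.2 h b (by rw [hcc]; exact mem_insert_of_mem (mem_singleton_self _))
      exact hab (huniq a b ha.2 hb.2 ha.1 hb.1)
  obtain ⟨k, k', hne, hk0, hk0', he⟩ := shape3 hz1 h1e h3
  have ek : e k = 1 := by
    rw [he]
    exact indK_one (mem_insert_of_mem (mem_insert_self _ _))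
  have ek' : e k' = 1 := by
    rw [he]
    exact indK_one (mem_insert_of_mem (mem_insert_of_mem (mem_singleton_self _)))
  have hkb := h5 k hk0 (by omega)
  have hkb' := h5 k' hk0' (by omega)
  have hkD := near_bN H hir hq hg hkb
  have hkD' := near_bN H hir hq hg hkb'
  have hexc : ∀ x, 1 ≤ e x → x = z ∨ x = k ∨ x = k' := by
    intro x hx
    have : x ∈ ({z, k, k'} : Finset P) := by
      apply indK_pos
      rw [← he]
      omega
    simpa only [mem_insert, mem_singleton] using this
  have hdis : Disjoint (ns i k) (ns i k') := by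
    rw [disjoint_left]
    intro t ht ht'
    have h7 := bad_disj H hir hq hg hd hkb hkb' hne ht ht'
    exact h7 (hsite t (lev_ns H hkD ht))
  have hnK : ¬ (k ∈ K ∧ k' ∈ K) := by
    rintro ⟨hkK, hkK'⟩
    obtain ⟨t, ht, ht'⟩ := hK.two k hkK (hC k (by omega)) k' hkK' (hC k' (by omega)) hne
    exact disjoint_left.1 hdis ht ht'
  have toK : ∀ x ∈ bN i e, (∀ y, (lev z = i + 2 ∧ uc z = {y}) ∨ (lev z + 2 = i ∧ dc z = {y}) →
      x ≠ y) → ((i + 2 ≤ lev z ∧ x ∈ uc z) ∨ (lev z + 2 ≤ i ∧ x ∈ dc z) → False) → x ∈ K := by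
    intro x hx _ hx2
    refine bN_inK H hir hq hg hM hL hU hd hSK hx ?_
    intro t ht
    by_contra htne
    rcases hexc t (by omega) with rfl | rfl | rfl
    · apply hx2
      rcases ht with ht | ht
      · exact Or.inl ⟨by omega, ht.2⟩
      · exact Or.inr ⟨by omega, ht.2⟩
    · rcases mem_DD.1 hkD with h | h <;> rcases ht with ht | ht <;> omega
    · rcases mem_DD.1 hkD' with h | h <;> rcases ht with ht | ht <;> omega
  have toK' : ∀ x ∈ bN i e, ((i + 2 ≤ lev z ∧ x ∈ uc z) ∨ (lev z + 2 ≤ i ∧ x ∈ dc z) → False) →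
      x ∈ K := by
    intro x hx hx2
    refine toK x hx ?_ hx2
    rintro y (⟨h6, h7⟩ | ⟨h6, h7⟩) rfl
    · exact hx2 (Or.inl ⟨by omega, by rw [h7]; exact mem_singleton_self _⟩)
    · exact hx2 (Or.inr ⟨by omega, by rw [h7]; exact mem_singleton_self _⟩)
  rcases hPQ with h | h | h | h
  · exfalso
    apply hnK
    exact ⟨toK' k hkb (by rintro (⟨h6, -⟩ | ⟨h6, -⟩) <;> omega),
      toK' k' hkb' (by rintro (⟨h6, -⟩ | ⟨h6, -⟩) <;> omega)⟩
  · exfalso
    apply hnK
    exact ⟨toK' k hkb (by rintro (⟨h6, -⟩ | ⟨h6, -⟩) <;> omega),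
      toK' k' hkb' (by rintro (⟨h6, -⟩ | ⟨h6, -⟩) <;> omega)⟩
  · -- `z` below the window
    have hsub : ∀ y ∈ uc z, y = k ∨ y = k' := by
      intro y hy
      obtain ⟨h6, h7⟩ := cov.1 h y hy
      rcases hexc y h6 with h8 | h8
      · exact absurd h8 h7
      · exact h8
    have hnot : ¬ (k ∈ uc z ∧ k' ∈ uc z) := by
      rintro ⟨h6, h7⟩
      have l6 := lev_uc H h6
      have l7 := lev_uc H h7
      have c6 : (uc k).card = 2 := by
        rcases mem_DD.1 hkD with h8 | h8
        · exact h8.2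
        · omega
      have c7 : (uc k').card = 2 := by
        rcases mem_DD.1 hkD' with h8 | h8
        · exact h8.2
        · omega
      have l8 : lev k = i + 1 := by
        rcases mem_DD.1 hkD with h8 | h8
        · exact h8.1
        · omega
      obtain ⟨x, hx, hx'⟩ := hq z (by omega) k h6 k' h7 hne c6 c7
      have hkL : k ∈ dbL P i := mem_dbL.2 ⟨l8, c6⟩
      have hkL' : k' ∈ dbL P i := mem_dbL.2 ⟨by omega, c7⟩
      exact disjoint_left.1 hdis (show x ∈ ns i k by rw [ns_L hkL]; exact hx)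
        (show x ∈ ns i k' by rw [ns_L hkL']; exact hx')
    obtain ⟨y, hy⟩ := uc_nonempty H (x := z) (by omega)
    have fin : ∀ a b, a ∈ bN i e → b ∈ bN i e → a ∈ dbL P i ∪ dbU P i →
        b ∈ dbL P i ∪ dbU P i → a ∈ uc z → b ∉ uc z → (∀ y ∈ uc z, y = a ∨ y = b) →
        Disjoint (ns i a) (ns i b) → e = indK {z, a, b} →
        ∃ y k, Pvt i z y ∧ k ∈ K ∧ k ∈ dbL P i ∪ dbU P i ∧ Disjoint (ns i y) (ns i k) ∧
          e = indK {z, y, k} := by
      intro a b ha hb haD hbD haz hbz hall hdab heab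
      have l6 := lev_uc H haz
      have haL : lev a = i + 1 ∧ (uc a).card = 2 := by
        rcases mem_DD.1 haD with h8 | h8
        · exact h8
        · omega
      refine ⟨a, b, Or.inl ⟨by omega, ?_, mem_dbL.2 haL⟩, ?_, hbD, hdab, heab⟩
      · ext y
        rw [mem_singleton]
        constructor
        · intro hy
          rcases hall y hy with h8 | h8
          · exact h8
          · rw [h8] at hy
            exact absurd hy hbz
        · rintro rfl
          exact haz
      · refine toK' b hb ?_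
        rintro (⟨-, h8⟩ | ⟨h8, -⟩)
        · exact hbz h8
        · omega
    rcases hsub y hy with rfl | rfl
    · exact fin y k' hkb hkb' hkD hkD' hy (fun h8 => hnot ⟨hy, h8⟩) hsub hdis he
    · exact fin y k hkb' hkb hkD' hkD hy (fun h8 => hnot ⟨h8, hy⟩) (fun t ht => (hsub t ht).symm)
        hdis.symm (by rw [he, pair_comm])
  · -- `z` above the window
    have hsub : ∀ y ∈ dc z, y = k ∨ y = k' := by
      intro y hy
      obtain ⟨h6, h7⟩ := cov.2 h y hy
      rcases hexc y h6 with h8 | h8
      · exact absurd h8 h7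
      · exact h8
    have hnot : ¬ (k ∈ dc z ∧ k' ∈ dc z) := by
      rintro ⟨h6, h7⟩
      have l6 := lev_dc H h6
      have l7 := lev_dc H h7
      have l8 : lev k + 1 = i := by
        rcases mem_DD.1 hkD with h8 | h8
        · omega
        · exact h8.1
      have c6 : (dc k).card = 2 := by
        rcases mem_DD.1 hkD with h8 | h8
        · omega
        · exact h8.2
      have c7 : (dc k').card = 2 := by
        rcases mem_DD.1 hkD' with h8 | h8
        · omega
        · exact h8.2
      have SU := side_up (i := i) H hir hg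
      obtain ⟨x, hx, hx'⟩ := SU.good z (mem_uS.2 (by omega)) (by omega) k h6 k' h7 hne c6 c7
      have hkU : k ∈ dbU P i := mem_dbU.2 ⟨l8, c6⟩
      have hkU' : k' ∈ dbU P i := mem_dbU.2 ⟨by omega, c7⟩
      exact disjoint_left.1 hdis (show x ∈ ns i k by rw [ns_U hkU]; exact hx)
        (show x ∈ ns i k' by rw [ns_U hkU']; exact hx')
    obtain ⟨y, hy⟩ := dc_nonempty H (x := z) (by omega)
    have fin : ∀ a b, a ∈ bN i e → b ∈ bN i e → a ∈ dbL P i ∪ dbU P i →
        b ∈ dbL P i ∪ dbU P i → a ∈ dc z → b ∉ dc z → (∀ y ∈ dc z, y = a ∨ y = b) →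
        Disjoint (ns i a) (ns i b) → e = indK {z, a, b} →
        ∃ y k, Pvt i z y ∧ k ∈ K ∧ k ∈ dbL P i ∪ dbU P i ∧ Disjoint (ns i y) (ns i k) ∧
          e = indK {z, y, k} := by
      intro a b ha hb haD hbD haz hbz hall hdab heab
      have l6 := lev_dc H haz
      have haL : lev a + 1 = i ∧ (dc a).card = 2 := by
        rcases mem_DD.1 haD with h8 | h8
        · omega
        · exact h8
      refine ⟨a, b, Or.inr ⟨by omega, ?_, mem_dbU.2 haL⟩, ?_, hbD, hdab, heab⟩
      · ext y
        rw [mem_singleton]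
        constructor
        · intro hy
          rcases hall y hy with h8 | h8
          · exact h8
          · rw [h8] at hy
            exact absurd hy hbz
        · rintro rfl
          exact haz
      · refine toK' b hb ?_
        rintro (⟨h8, -⟩ | ⟨-, h8⟩)
        · omega
        · exact hbz h8
    rcases hsub y hy with rfl | rfl
    · exact fin y k' hkb hkb' hkD hkD' hy (fun h8 => hnot ⟨hy, h8⟩) hsub hdis he
    · exact fin y k hkb' hkb hkD' hkD hy (fun h8 => hnot ⟨h8, hy⟩) (fun t ht => (hsub t ht).symm)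
        hdis.symm (by rw [he, pair_comm])

end pt

end Pool.Agent.GaussPoset.Win.K2

end

/-! From `Pool.Agent.W_448v_h15.VD` -/

section

/-!
The value of `w3` of a star component (MP_448cb3_co, case B), part D: the configurations of energy
three on the double near elements cancel against the swap of all natural pairs.
-/

namespace Pool.Agent.GaussPoset.Win.K2

set_option linter.unusedSectionVars false

open Finset I2

universe u

variable {P : Type u} [Fintype P] [PartialOrder P] [DecidableEq P] {r i : ℕ} {e : P → ℕ}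

/-- only double near elements are excited -/
def OnD (i : ℕ) (e : P → ℕ) : Prop := ∀ x, 1 ≤ e x → x ∈ dbL P i ∪ dbU P i

/-- the excited elements -/
def su (e : P → ℕ) : Finset P := univ.filter (fun x => 1 ≤ e x)

lemma mem_su {x : P} : x ∈ su e ↔ 1 ≤ e x := by
  unfold su
  rw [mem_filter]
  exact ⟨fun h => h.2, fun h => ⟨mem_univ _, h⟩⟩

section onD

variable (hD : OnD i e)
include hD

lemma OnD.zero {x : P} (h1 : lev x ≠ i + 1) (h2 : lev x + 1 ≠ i) : e x = 0 := by
  by_contra h
  have h3 := mem_DD.1 (hD x (by omega))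
  rcases h3 with h3 | h3 <;> omega

lemma OnD.FD (H : Gr P r) {x : P} (hx : i < lev x) : ¬ FD e x := by
  rintro ⟨z, hz, hlt⟩
  have h1 := lev_uc H (mem_uc.2 hz)
  have h2 := hD.zero (x := z) (by omega) (by omega)
  omega

lemma OnD.FU (H : Gr P r) {x : P} (hx : lev x < i) : ¬ FU e x := by
  rintro ⟨z, hz, hlt⟩
  have h1 := lev_uc H (mem_uc.2 hz)
  have h2 := hD.zero (x := z) (by omega) (by omega)
  omega

lemma OnD.admL (H : Gr P r) : AdmL i e := fun _ hz h => hD.FD H hz h.1

lemma OnD.admU (H : Gr P r) : AdmU i e := fun _ hz h => hD.FU H hz h.1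

lemma OnD.aL (H : Gr P r) : aL i e = 0 := by
  classical
  unfold Win.aL
  rw [card_eq_zero, filter_eq_empty_iff]
  rintro x _ ⟨h1, h2⟩
  exact hD.FD H h1 h2

lemma OnD.aU (H : Gr P r) : aU i e = 0 := by
  classical
  unfold Win.aU
  rw [card_eq_zero, filter_eq_empty_iff]
  rintro x _ ⟨h1, h2⟩
  exact hD.FU H h1 h2

lemma OnD.pL (H : Gr P r) : pL i e = (su e ∩ dbL P i).card := by
  classical
  unfold Win.pL
  congr 1
  ext z
  simp only [mem_filter, mem_univ, true_and, mem_inter, mem_su]
  constructor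
  · rintro ⟨h1, -, h3⟩
    have h4 : 1 ≤ e z := by
      by_contra h4
      obtain ⟨y, hy⟩ := uc_nonempty H (x := z) (by omega)
      exact h3 ⟨y, mem_uc.1 hy, by omega⟩
    refine ⟨h4, ?_⟩
    rcases mem_union.1 (hD z h4) with h5 | h5
    · exact h5
    · have := (mem_dbU.1 h5).1
      omega
  · rintro ⟨h1, h2⟩
    have h3 := (mem_dbL.1 h2).1
    refine ⟨by omega, hD.FD H (by omega), ?_⟩
    rintro ⟨y, hy, hle⟩
    have h4 := lev_uc H (mem_uc.2 hy)
    have h5 := hD.zero (x := y) (by omega) (by omega)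
    omega

lemma OnD.pU (H : Gr P r) (hir : i ≤ r) : pU i e = (su e ∩ dbU P i).card := by
  classical
  unfold Win.pU
  congr 1
  ext z
  simp only [mem_filter, mem_univ, true_and, mem_inter, mem_su]
  constructor
  · rintro ⟨h1, -, h3⟩
    have h4 : 1 ≤ e z := by
      by_contra h4
      obtain ⟨y, hy⟩ := dc_nonempty H (x := z) (by omega)
      exact h3 ⟨y, mem_dc.1 hy, by omega⟩
    refine ⟨h4, ?_⟩
    rcases mem_union.1 (hD z h4) with h5 | h5
    · have := (mem_dbL.1 h5).1
      omega
    · exact h5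
  · rintro ⟨h1, h2⟩
    have h3 := (mem_dbU.1 h2).1
    refine ⟨by omega, hD.FU H (by omega), ?_⟩
    rintro ⟨y, hy, hle⟩
    have h4 := lev_dc H (mem_dc.2 hy)
    have h5 := hD.zero (x := y) (by omega) (by omega)
    omega

lemma OnD.AL (H : Gr P r) : AL i e = (su e ∩ dbL P i).biUnion (ns i) := by
  ext v
  rw [NormD_mem_AL, mem_biUnion]
  constructor
  · rintro ⟨h1, x, hx, hlt⟩
    have h2 := lev_uc H (mem_uc.2 hx)
    have h3 := hD x (by omega)
    have h4 : x ∈ dbL P i := by
      rcases mem_union.1 h3 with h5 | h5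
      · exact h5
      · have := (mem_dbU.1 h5).1
        omega
    refine ⟨x, mem_inter.2 ⟨mem_su.2 (by omega), h4⟩, ?_⟩
    rw [ns_L h4]
    exact mem_uc.2 hx
  · rintro ⟨x, hx, hv⟩
    rw [mem_inter, mem_su] at hx
    rw [ns_L hx.2] at hv
    have h1 := lev_uc H hv
    have h2 := (mem_dbL.1 hx.2).1
    have h3 := hD.zero (x := v) (by omega) (by omega)
    exact ⟨by omega, x, mem_uc.1 hv, by omega⟩

lemma OnD.AU (H : Gr P r) : AU i e = (su e ∩ dbU P i).biUnion (ns i) := by
  ext v
  rw [NormD_mem_AU, mem_biUnion]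
  constructor
  · rintro ⟨h1, x, hx, hlt⟩
    have h2 := lev_uc H (mem_uc.2 hx)
    have h3 := hD x (by omega)
    have h4 : x ∈ dbU P i := by
      rcases mem_union.1 h3 with h5 | h5
      · have := (mem_dbL.1 h5).1
        omega
      · exact h5
    refine ⟨x, mem_inter.2 ⟨mem_su.2 (by omega), h4⟩, ?_⟩
    rw [ns_U h4]
    exact mem_dc.2 hx
  · rintro ⟨x, hx, hv⟩
    rw [mem_inter, mem_su] at hx
    rw [ns_U hx.2] at hv
    have h1 := lev_dc H hv
    have h2 := (mem_dbU.1 hx.2).1
    have h3 := hD.zero (x := v) (by omega) (by omega)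
    exact ⟨by omega, x, mem_dc.1 hv, by omega⟩

lemma OnD.su_sub : su e ⊆ dbL P i ∪ dbU P i := fun x hx => hD x (mem_su.1 hx)

lemma OnD.card_su : (su e ∩ dbL P i).card + (su e ∩ dbU P i).card = (su e).card := by
  rw [← card_union_of_disjoint]
  · rw [← inter_union_distrib_left, inter_eq_left.2 hD.su_sub]
  · rw [disjoint_left]
    intro x h1 h2
    rw [mem_inter] at h1 h2
    have h3 := (mem_dbL.1 h1.2).1
    have h4 := (mem_dbU.1 h2.2).1
    omega

/-- the leading coefficient of a configuration of order two on the double near elements -/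
lemma OnD.lead (H : Gr P r) (hir : i ≤ r) {C : Finset P} (hC : Part i C) (hs : Spt C e)
    {a b l m : ℕ} (ha : (su e ∩ dbL P i).card = a) (hb : (su e ∩ dbU P i).card = b)
    (hl : ((su e ∩ dbL P i).biUnion (ns i)).card = l)
    (hm : ((su e ∩ dbU P i).biUnion (ns i)).card = m) (ho : l + m = a + b + 2)
    (hd : Disjoint ((su e ∩ dbL P i).biUnion (ns i)) ((su e ∩ dbU P i).biUnion (ns i))) :
    dd ^ ((st i C).card - 1) ∣ tC i C e - (((-1 : ℤ) ^ (b + l) : ℤ) : A) *
      dd ^ ((st i C).card - 2) := by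
  have hd' : Disjoint (Win.AL i e) (Win.AU i e) := by
    rw [hD.AL H, hD.AU H]
    exact hd
  have h1 := tC_lead (C := C) (hD.admL H) (hD.admU H) hd' (by
    rw [hD.AL H, hD.AU H, hD.pL H, hD.pU H hir, ha, hb, hl, hm, ho]) (card_le_st H hC hs hd')
  rw [hD.aL H, hD.aU H, hD.pU H hir, hD.AL H, hb, hl, zero_add, zero_add] at h1
  exact h1

end onD

section tau

variable {K : Finset P} {psi : P → P}

/-- the swap of all natural pairs -/
noncomputable def tau (i : ℕ) (K : Finset P) (psi : P → P) (x : P) : P :=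
  if x ∈ (dbL P i ∪ dbU P i) \ K then psi x else x

lemma tau_in {x : P} (h : x ∈ (dbL P i ∪ dbU P i) \ K) : tau i K psi x = psi x := by
  unfold tau
  rw [if_pos h]

lemma tau_out {x : P} (h : x ∉ (dbL P i ∪ dbU P i) \ K) : tau i K psi x = x := by
  unfold tau
  rw [if_neg h]

variable (hM : Mat P i K psi)
include hM

/-- the partner of a matched element -/
lemma psi_data {x : P} (h : x ∈ (dbL P i ∪ dbU P i) \ K) :
    psi x ∈ (dbL P i ∪ dbU P i) \ K ∧ psi (psi x) = x ∧ ns i (psi x) = ns i x ∧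
      (x ∈ dbL P i → psi x ∈ dbU P i) ∧ (x ∈ dbU P i → psi x ∈ dbL P i) := by
  rw [mem_sdiff] at h
  have hLU : ∀ {y : P}, y ∈ dbL P i → y ∈ dbU P i → False := by
    intro y h1 h2
    have h3 := (mem_dbL.1 h1).1
    have h4 := (mem_dbU.1 h2).1
    omega
  rcases mem_union.1 h.1 with h1 | h1
  · obtain ⟨p1, p2, p3, p4⟩ := psi_low hM h1 h.2
    refine ⟨mem_sdiff.2 ⟨mem_union_right _ p1, p4⟩, p3, ?_, fun _ => p1,
      fun h2 => (hLU h1 h2).elim⟩
    rw [ns_U p1, ns_L h1, p2]
  · obtain ⟨p1, p2, p3, p4⟩ := psi_up hM h1 h.2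
    refine ⟨mem_sdiff.2 ⟨mem_union_left _ p1, p4⟩, p3, ?_, fun h2 => (hLU h2 h1).elim,
      fun _ => p1⟩
    rw [ns_L p1, ns_U h1, p2]

lemma tau_tau (x : P) : tau i K psi (tau i K psi x) = x := by
  by_cases h : x ∈ (dbL P i ∪ dbU P i) \ K
  · rw [tau_in h, tau_in (psi_data hM h).1, (psi_data hM h).2.1]
  · rw [tau_out h, tau_out h]

lemma tau_mem_DD {x : P} : tau i K psi x ∈ dbL P i ∪ dbU P i ↔ x ∈ dbL P i ∪ dbU P i := by
  by_cases h : x ∈ (dbL P i ∪ dbU P i) \ K
  · rw [tau_in h]
    have h1 := (psi_data hM h).1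
    rw [mem_sdiff] at h h1
    exact ⟨fun _ => h.1, fun _ => h1.1⟩
  · rw [tau_out h]

omit hM in
/-- the configuration with all natural pairs swapped -/
noncomputable def Ph (i : ℕ) (K : Finset P) (psi : P → P) (e : P → ℕ) : P → ℕ := fun x => e (tau i K psi x)

lemma Ph_Ph (e : P → ℕ) : Ph i K psi (Ph i K psi e) = e := by
  funext x
  unfold Ph
  rw [tau_tau hM]

lemma sum_Ph (e : P → ℕ) : ∑ x, Ph i K psi e x = ∑ x, e x :=
  Equiv.sum_comp (Function.Involutive.toPerm (tau i K psi) (tau_tau hM)) e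

lemma OnD.Ph (hD : OnD i e) : OnD i (Ph i K psi e) := by
  intro x hx
  exact (tau_mem_DD hM).1 (hD _ hx)

/-- parts contain both elements of a natural pair -/
lemma tau_C (H : Gr P r) {C : Finset P} (hC : Part (i + 1) C) {x : P} (hx : tau i K psi x ∈ C) :
    x ∈ C := by
  by_cases h : x ∈ (dbL P i ∪ dbU P i) \ K
  · rw [tau_in h] at hx
    obtain ⟨-, p2, p3, p4, p5⟩ := psi_data hM h
    rw [mem_sdiff] at h
    rcases mem_union.1 h.1 with h1 | h1
    · have h2 := p4 h1
      rw [ns_U h2, ns_L h1] at p3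
      have h3 := mem_dbL.1 h1
      have h4 := mem_dbU.1 h2
      obtain ⟨t, ht⟩ : (uc x).Nonempty := by
        rw [← card_pos]
        omega
      have htl := lev_uc H ht
      have ht' : t ⋖ psi x := by
        rw [← mem_dc, p3]
        exact ht
      exact hC.dn (hC.dn (x := t) hx (by omega) ht') (by omega) (mem_uc.1 ht)
    · have h2 := p5 h1
      rw [ns_L h2, ns_U h1] at p3
      obtain ⟨t, ht⟩ : (dc x).Nonempty := by
        rw [← card_pos]
        have := (mem_dbU.1 h1).2
        omega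
      have ht' : psi x ⋖ t := by
        rw [← mem_uc, p3]
        exact ht
      exact hC.up (hC.up hx ht') (mem_dc.1 ht)
  · rwa [tau_out h] at hx

lemma spt_Ph (H : Gr P r) {C : Finset P} (hC : Part (i + 1) C) (hs : Spt C e) :
    Spt C (Ph i K psi e) := by
  intro x hx
  exact hs _ fun h => hx (tau_C hM H hC h)

/-- the simple edges are not changed -/
lemma SK_Ph_sub (H : Gr P r) (hD : OnD i e) :
    SK i K psi e ⊆ SK i K psi (Ph i K psi e) := by
  intro y hy
  obtain ⟨h1, h2⟩ := mem_SK2.1 hy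
  have l1 := dL1 h1
  have hyD : y ∈ (dbL P i ∪ dbU P i) \ K := by
    rw [mem_sdiff] at h1 ⊢
    exact ⟨mem_union_left _ h1.1, h1.2⟩
  obtain ⟨p1, p2, p3, p4, -⟩ := psi_data hM hyD
  have hyL : y ∈ dbL P i := (mem_sdiff.1 h1).1
  have pU := p4 hyL
  have l2 := mem_dbU.1 pU
  have hDP := hD.Ph hM
  have h3 : Ph i K psi e y = e (psi y) := by
    unfold Ph
    rw [tau_in hyD]
  have h4 : Ph i K psi e (psi y) = e y := by
    unfold Ph
    rw [tau_in p1, p2]
  have site : ∀ x, lev x = i → Ph i K psi e x = e x := by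
    intro x hx
    rw [hDP.zero (by omega) (by omega), hD.zero (by omega) (by omega)]
  rw [ns_U pU, ns_L hyL] at p3
  refine mem_SK2.2 ⟨h1, ?_, ?_, ?_, ?_, ?_, ?_⟩
  · rw [h3, h4]
    rcases h2.one with h | h
    · exact Or.inr ⟨h.2, h.1⟩
    · exact Or.inl ⟨h.2, h.1⟩
  · intro z hz
    have := lev_dc H hz
    exact hDP.zero (by omega) (by omega)
  · intro z hz
    have := lev_uc H hz
    exact hDP.zero (by omega) (by omega)
  · obtain ⟨x, hx, hx0⟩ := h2.ex
    have := lev_uc H hx
    exact ⟨x, hx, by rw [site x (by omega)]; exact hx0⟩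
  · intro x hx hx0 z hz hzy
    have l3 := lev_uc H hx
    have l4 := lev_dc H hz
    rw [site x (by omega)] at hx0
    unfold Ph
    by_cases h : z ∈ (dbL P i ∪ dbU P i) \ K
    · rw [tau_in h]
      obtain ⟨q1, q2, q3, q4, -⟩ := psi_data hM h
      have hzL : z ∈ dbL P i := by
        rcases mem_union.1 (mem_sdiff.1 h).1 with h5 | h5
        · exact h5
        · have := (mem_dbU.1 h5).1
          omega
      have hqU := q4 hzL
      rw [ns_U hqU, ns_L hzL] at q3
      refine h2.up' x hx hx0 _ ?_ ?_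
      · rw [mem_uc, ← mem_dc, q3, mem_uc]
        exact mem_dc.1 hz
      · intro h5
        apply hzy
        rw [← q2, h5, p2]
    · rw [tau_out h]
      exact h2.lo' x hx hx0 z hz hzy
  · intro x hx hx0 z hz hzy
    have l3 := lev_uc H hx
    have l4 := lev_uc H hz
    rw [site x (by omega)] at hx0
    unfold Ph
    by_cases h : z ∈ (dbL P i ∪ dbU P i) \ K
    · rw [tau_in h]
      obtain ⟨q1, q2, q3, -, q5⟩ := psi_data hM h
      have hzU : z ∈ dbU P i := by
        rcases mem_union.1 (mem_sdiff.1 h).1 with h5 | h5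
        · have := (mem_dbL.1 h5).1
          omega
        · exact h5
      have hqL := q5 hzU
      rw [ns_L hqL, ns_U hzU] at q3
      refine h2.lo' x hx hx0 _ ?_ ?_
      · rw [mem_dc, ← mem_uc, q3, mem_dc]
        exact mem_uc.1 hz
      · intro h5
        apply hzy
        rw [← q2, h5]
    · rw [tau_out h]
      exact h2.up' x hx hx0 z hz hzy

lemma SK_Ph (H : Gr P r) (hD : OnD i e) : SK i K psi (Ph i K psi e) = SK i K psi e := by
  apply Finset.Subset.antisymm
  · have h1 := SK_Ph_sub hM H (hD.Ph hM)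
    rwa [Ph_Ph hM] at h1
  · exact SK_Ph_sub hM H hD

/-- the excited elements after the swap of all natural pairs -/
lemma su_Ph {k : P} {F0 : Finset P} (hF : su e = insert k F0) (hkK : k ∈ K)
    (h0 : F0 ⊆ (dbL P i ∪ dbU P i) \ K) :
    su (Ph i K psi e) = insert k (F0.image psi) := by
  have hk : k ∉ (dbL P i ∪ dbU P i) \ K := by
    rw [mem_sdiff]
    exact fun h => h.2 hkK
  ext x
  rw [mem_su, mem_insert, mem_image]
  change 1 ≤ e (tau i K psi x) ↔ _
  rw [← mem_su, hF, mem_insert]
  constructor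
  · rintro (h | h)
    · left
      rw [← tau_tau hM x, h, tau_out hk]
    · right
      refine ⟨tau i K psi x, h, ?_⟩
      rw [← tau_in (psi := psi) (h0 h), tau_tau hM]
  · rintro (rfl | ⟨y, hy, rfl⟩)
    · left
      exact tau_out hk
    · right
      rw [← tau_in (i := i) (K := K) (psi := psi) (h0 hy), tau_tau hM]
      exact hy

end tau

end Pool.Agent.GaussPoset.Win.K2

end

/-! From `Pool.Agent.W_448v_h15.VE` -/

section

/-!
The value of `w3` of a star component (MP_448cb3_co, case B), part E: the configurations of energy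
three on the double near elements: classification and cancellation.
-/

namespace Pool.Agent.GaussPoset.Win.K2

set_option linter.unusedSectionVars false

open Finset I2

universe u

variable {P : Type u} [Fintype P] [PartialOrder P] [DecidableEq P] {r i : ℕ} {e : P → ℕ}
variable {K : Finset P} {psi : P → P}

lemma not_LU {y : P} (h1 : y ∈ dbL P i) (h2 : y ∈ dbU P i) : False := by
  have h3 := (mem_dbL.1 h1).1
  have h4 := (mem_dbU.1 h2).1
  omega

/-- the sum of two opposite leading terms -/
lemma add_dvd {n : ℕ} {X Y Z : A} {a b : ℤ} (h1 : dd ^ n ∣ X - (a : A) * Z)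
    (h2 : dd ^ n ∣ Y - (b : A) * Z) (h : a + b = 0) : dd ^ n ∣ X + Y := by
  have h3 := dvd_add h1 h2
  have h4 : X - (a : A) * Z + (Y - (b : A) * Z) = X + Y := by
    have h5 : (a : A) + (b : A) = 0 := by
      rw [← Int.cast_add, h, Int.cast_zero]
    have h6 : X - (a : A) * Z + (Y - (b : A) * Z) = X + Y - ((a : A) + (b : A)) * Z := by ring
    rw [h6, h5, zero_mul, sub_zero]
  rwa [h4] at h3

/-- THE PAIR `F0`, `psi F0` -/
theorem pair_dvd (hM : Mat P i K psi) (H : Gr P r) (hir : i ≤ r) {C : Finset P}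
    (hC : Part (i + 1) C) (hD : OnD i e) (hs : Spt C e) {k : P} {F0 : Finset P}
    (hF : su e = insert k F0) (hk : k ∉ F0) (hkD : k ∈ dbL P i ∪ dbU P i) (hkK : k ∈ K)
    (h0 : F0 ⊆ dbL P i \ K) (hdis : ∀ x ∈ F0, Disjoint (ns i k) (ns i x))
    (hc : (F0.biUnion (ns i)).card = F0.card + 1) :
    dd ^ ((st i C).card - 1) ∣ tC i C e + tC i C (Ph i K psi e) := by
  classical
  have hC' : Part i C := ⟨fun h1 h2 => hC.up h1 h2, fun h1 h2 h3 => hC.dn h1 (by omega) h3⟩
  have h0' : F0 ⊆ (dbL P i ∪ dbU P i) \ K := by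
    intro x hx
    have := mem_sdiff.1 (h0 hx)
    exact mem_sdiff.2 ⟨mem_union_left _ this.1, this.2⟩
  have hF' := su_Ph hM hF hkK h0'
  have hDP := hD.Ph hM
  have hsP := spt_Ph hM H hC hs
  have hL0 : ∀ x ∈ F0, x ∈ dbL P i := fun x hx => (mem_sdiff.1 (h0 hx)).1
  have hU1 : ∀ x ∈ F0.image psi, x ∈ dbU P i := by
    intro x hx
    obtain ⟨y, hy, rfl⟩ := mem_image.1 hx
    exact (psi_data hM (h0' hy)).2.2.2.1 (hL0 y hy)
  have hci : (F0.image psi).card = F0.card := by
    apply card_image_of_injOn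
    intro x hx y hy hxy
    rw [← (psi_data hM (h0' hx)).2.1, hxy, (psi_data hM (h0' hy)).2.1]
  have hbi : (F0.image psi).biUnion (ns i) = F0.biUnion (ns i) := by
    rw [image_biUnion]
    refine biUnion_congr rfl fun x hx => ?_
    exact (psi_data hM (h0' hx)).2.2.1
  have hkF : k ∉ F0.image psi := by
    intro h
    obtain ⟨y, hy, h2⟩ := mem_image.1 h
    have h3 := (mem_sdiff.1 (psi_data hM (h0' hy)).1).2
    rw [h2] at h3
    exact h3 hkK
  have hdb : Disjoint (ns i k) (F0.biUnion (ns i)) := by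
    rw [disjoint_biUnion_right]
    exact hdis
  have hdbi := hdb
  rw [← hbi] at hdbi
  have c2 : (ns i k).card = 2 := ns_card hkD
  rcases mem_union.1 hkD with hkL | hkU
  · -- `k` lower
    have a1 : su e ∩ dbL P i = insert k F0 := by
      rw [hF, inter_eq_left]
      intro x hx
      rcases mem_insert.1 hx with rfl | hx
      · exact hkL
      · exact hL0 x hx
    have a2 : su e ∩ dbU P i = ∅ := by
      rw [hF, eq_empty_iff_forall_notMem]
      intro x hx
      rw [mem_inter, mem_insert] at hx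
      rcases hx with ⟨rfl | hx, h⟩
      · exact not_LU hkL h
      · exact not_LU (hL0 x hx) h
    have b1 : su (Ph i K psi e) ∩ dbL P i = {k} := by
      rw [hF']
      ext x
      rw [mem_inter, mem_insert, mem_singleton]
      constructor
      · rintro ⟨h | h, h2⟩
        · exact h
        · exact (not_LU h2 (hU1 x h)).elim
      · rintro rfl
        exact ⟨Or.inl rfl, hkL⟩
    have b2 : su (Ph i K psi e) ∩ dbU P i = F0.image psi := by
      rw [hF']
      ext x
      rw [mem_inter, mem_insert]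
      constructor
      · rintro ⟨rfl | h, h2⟩
        · exact (not_LU hkL h2).elim
        · exact h
      · intro h
        exact ⟨Or.inr h, hU1 x h⟩
    have h1 := hD.lead H hir hC' hs (a := F0.card + 1) (b := 0) (l := F0.card + 3) (m := 0)
      (by rw [a1, card_insert_of_notMem hk]) (by rw [a2, card_empty])
      (by rw [a1, biUnion_insert, card_union_of_disjoint hdb, hc, c2]; omega)
      (by rw [a2, biUnion_empty, card_empty]) (by omega)
      (by rw [a2, biUnion_empty]; exact disjoint_empty_right _)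
    have h2 := hDP.lead H hir hC' hsP (a := 1) (b := F0.card) (l := 2) (m := F0.card + 1)
      (by rw [b1, card_singleton]) (by rw [b2, hci])
      (by rw [b1, singleton_biUnion, c2]) (by rw [b2, hbi, hc]) (by omega)
      (by rw [b1, b2, singleton_biUnion]; exact hdbi)
    refine add_dvd h1 h2 ?_
    ring
  · -- `k` upper
    have a1 : su e ∩ dbL P i = F0 := by
      rw [hF]
      ext x
      rw [mem_inter, mem_insert]
      constructor
      · rintro ⟨rfl | h, h2⟩
        · exact (not_LU h2 hkU).elim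
        · exact h
      · intro h
        exact ⟨Or.inr h, hL0 x h⟩
    have a2 : su e ∩ dbU P i = {k} := by
      rw [hF]
      ext x
      rw [mem_inter, mem_insert, mem_singleton]
      constructor
      · rintro ⟨h | h, h2⟩
        · exact h
        · exact (not_LU (hL0 x h) h2).elim
      · rintro rfl
        exact ⟨Or.inl rfl, hkU⟩
    have b1 : su (Ph i K psi e) ∩ dbL P i = ∅ := by
      rw [hF', eq_empty_iff_forall_notMem]
      intro x hx
      rw [mem_inter, mem_insert] at hx
      rcases hx with ⟨rfl | hx, h⟩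
      · exact not_LU h hkU
      · exact not_LU h (hU1 x hx)
    have b2 : su (Ph i K psi e) ∩ dbU P i = insert k (F0.image psi) := by
      rw [hF', inter_eq_left]
      intro x hx
      rcases mem_insert.1 hx with rfl | hx
      · exact hkU
      · exact hU1 x hx
    have h1 := hD.lead H hir hC' hs (a := F0.card) (b := 1) (l := F0.card + 1) (m := 2)
      (by rw [a1]) (by rw [a2, card_singleton])
      (by rw [a1, hc]) (by rw [a2, singleton_biUnion, c2]) (by omega)
      (by rw [a1, a2, singleton_biUnion]; exact hdb.symm)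
    have h2 := hDP.lead H hir hC' hsP (a := 0) (b := F0.card + 1) (l := 0) (m := F0.card + 3)
      (by rw [b1, card_empty]) (by rw [b2, card_insert_of_notMem hkF, hci])
      (by rw [b1, biUnion_empty, card_empty])
      (by rw [b2, biUnion_insert, card_union_of_disjoint hdbi, hbi, hc, c2]; omega) (by omega)
      (by rw [b1, biUnion_empty]; exact disjoint_empty_left _)
    refine add_dvd h1 h2 ?_
    ring

/-- an isolated natural element with label one is simple -/
lemma simp_onD (hM : Mat P i K psi) (H : Gr P r) (hD : OnD i e) {k : P}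
    (hk : k ∈ (dbL P i ∪ dbU P i) \ K) (h1 : e k = 1)
    (hiso : ∀ x, 1 ≤ e x → x ≠ k → Disjoint (ns i k) (ns i x)) : SK i K psi e ≠ ∅ := by
  have hkD := (mem_sdiff.1 hk).1
  obtain ⟨p1, p2, p3, p4, p5⟩ := psi_data hM hk
  have hne : ∀ y ∈ (dbL P i ∪ dbU P i), ns i y = ns i k → y ≠ k → e y = 0 := by
    intro y hy hns hyk
    by_contra h
    have h2 := hiso y (by omega) hyk
    rw [hns, disjoint_self] at h2
    have h3 := ns_card hkD
    rw [h2] at h3
    simp at h3
  have hpk : psi k ≠ k := by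
    intro h
    rcases mem_union.1 hkD with h2 | h2
    · have := p4 h2
      rw [h] at this
      exact not_LU h2 this
    · have := p5 h2
      rw [h] at this
      exact not_LU this h2
  have hek := hne _ (mem_sdiff.1 p1).1 p3 hpk
  -- the lower element of the pair
  obtain ⟨y, hy, hyk, hone⟩ : ∃ y, y ∈ dbL P i \ K ∧ ((k = y ∧ psi k = psi y) ∨
      (psi k = y ∧ k = psi y)) ∧ ((e y = 1 ∧ e (psi y) = 0) ∨ (e y = 0 ∧ e (psi y) = 1)) := by
    rcases mem_union.1 hkD with h2 | h2
    · exact ⟨k, mem_sdiff.2 ⟨h2, (mem_sdiff.1 hk).2⟩, Or.inl ⟨rfl, rfl⟩, Or.inl ⟨h1, hek⟩⟩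
    · exact ⟨psi k, mem_sdiff.2 ⟨p5 h2, (mem_sdiff.1 p1).2⟩, Or.inr ⟨rfl, p2.symm⟩,
        Or.inr ⟨hek, by rw [p2]; exact h1⟩⟩
  have l1 := dL1 hy
  obtain ⟨q1, q2, q3⟩ := psi_lowK hM hy
  have l2 := mem_dbU.1 q1
  have hyL := (mem_sdiff.1 hy).1
  have hnsy : ns i k = uc y := by
    rcases hyk with ⟨h, -⟩ | ⟨h, -⟩
    · rw [h, ns_L hyL]
    · rw [← p3, h, ns_L hyL]
  have hother : ∀ z, 1 ≤ e z → z ≠ y → z ≠ psi y → Disjoint (uc y) (ns i z) := by
    intro z hz h2 h3
    rw [← hnsy]
    refine hiso z hz ?_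
    rcases hyk with ⟨h, -⟩ | ⟨-, h⟩
    · rw [h]
      exact h2
    · rw [h]
      exact h3
  intro hSK
  have hmem : y ∈ SK i K psi e := by
    refine mem_SK2.2 ⟨hy, hone, ?_, ?_, ?_, ?_, ?_⟩
    · intro z hz
      have := lev_dc H hz
      exact hD.zero (by omega) (by omega)
    · intro z hz
      have := lev_uc H hz
      exact hD.zero (by omega) (by omega)
    · obtain ⟨x, hx⟩ : (uc y).Nonempty := by
        rw [← card_pos]
        omega
      have := lev_uc H hx
      exact ⟨x, hx, hD.zero (by omega) (by omega)⟩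
    · intro x hx _ z hz hzy
      by_contra h
      have l3 := lev_uc H hx
      have l4 := lev_dc H hz
      have hzD := hD z (by omega)
      have hzL : z ∈ dbL P i := by
        rcases mem_union.1 hzD with h5 | h5
        · exact h5
        · have := (mem_dbU.1 h5).1
          omega
      have h5 := hother z (by omega) hzy (by rintro rfl; exact not_LU hzL q1)
      rw [ns_L hzL] at h5
      exact disjoint_left.1 h5 hx (mem_uc.2 (mem_dc.1 hz))
    · intro x hx _ z hz hzy
      by_contra h
      have l3 := lev_uc H hx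
      have l4 := lev_uc H hz
      have hzD := hD z (by omega)
      have hzU : z ∈ dbU P i := by
        rcases mem_union.1 hzD with h5 | h5
        · have := (mem_dbL.1 h5).1
          omega
        · exact h5
      have h5 := hother z (by omega) (by rintro rfl; exact not_LU hyL hzU) hzy
      rw [ns_U hzU] at h5
      exact disjoint_left.1 h5 hx (mem_dc.2 (mem_uc.1 hz))
  rw [hSK] at hmem
  exact notMem_empty _ hmem

/-- three pairs with two intersections -/
lemma center {a b c : P} (ha : a ∈ dbL P i ∪ dbU P i) (hb : b ∈ dbL P i ∪ dbU P i)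
    (hc : c ∈ dbL P i ∪ dbU P i) (h1 : ¬ Disjoint (ns i a) (ns i b))
    (h2 : ¬ Disjoint (ns i a) (ns i c)) : ((ns i a ∪ ns i b) ∪ ns i c).card ≤ 4 := by
  have c1 := ns_card ha
  have c2 := ns_card hb
  have c3 := ns_card hc
  rw [disjoint_iff_inter_eq_empty, ← Ne, ← nonempty_iff_ne_empty, ← card_pos] at h1 h2
  have h3 := card_union_add_card_inter (ns i a) (ns i b)
  have h4 := card_union_add_card_inter (ns i a ∪ ns i b) (ns i c)
  have h5 : (ns i a ∩ ns i c).card ≤ ((ns i a ∪ ns i b) ∩ ns i c).card :=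
    card_le_card (inter_subset_inter_right subset_union_left)
  omega

/-- an isolated element with label one -/
lemma exists_iso (hD : OnD i e) (h3 : ∑ x, e x = 3)
    (ho : (su e).card + 2 ≤ ((su e).biUnion (ns i)).card) :
    ∃ k, e k = 1 ∧ ∀ x, 1 ≤ e x → x ≠ k → Disjoint (ns i k) (ns i x) := by
  have hsum : ∑ x ∈ su e, e x = 3 := by
    rw [← h3]
    refine Finset.sum_subset (subset_univ _) fun x _ hx => ?_
    rw [mem_su] at hx
    omega
  have hcs : ∑ x ∈ su e, (ns i x).card = 2 * (su e).card := by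
    rw [sum_congr rfl (fun x hx => ns_card (hD.su_sub hx)), sum_const, smul_eq_mul, mul_comm]
  have hle : ((su e).biUnion (ns i)).card ≤ 2 * (su e).card := by
    rw [← hcs]
    exact card_biUnion_le
  have hle3 : (su e).card ≤ 3 := by
    rw [← hsum, Finset.card_eq_sum_ones]
    exact Finset.sum_le_sum fun x hx => mem_su.1 hx
  have hexc : ∀ x, 1 ≤ e x → x ∈ su e := fun x hx => mem_su.2 hx
  rcases Nat.lt_or_ge (su e).card 3 with hlt | hge
  · have h2 : (su e).card = 2 := by omega
    obtain ⟨a, b, hab, hF⟩ := Finset.card_eq_two.1 h2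
    have hdis : Disjoint (ns i a) (ns i b) := by
      refine disj_of_card_biUnion (s := su e) (t := ns i) (by rw [hcs]; omega) ?_ ?_ hab
      · rw [hF]
        exact mem_insert_self _ _
      · rw [hF]
        exact mem_insert_of_mem (mem_singleton_self _)
    rw [hF, sum_pair hab] at hsum
    have ea : 1 ≤ e a := mem_su.1 (by rw [hF]; exact mem_insert_self _ _)
    have eb : 1 ≤ e b := mem_su.1 (by rw [hF]; exact mem_insert_of_mem (mem_singleton_self _))
    rcases Nat.lt_or_ge (e a) 2 with h | h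
    · refine ⟨a, by omega, fun x hx hxa => ?_⟩
      have h4 := hexc x hx
      rw [hF, mem_insert, mem_singleton] at h4
      rcases h4 with rfl | rfl
      · exact absurd rfl hxa
      · exact hdis
    · refine ⟨b, by omega, fun x hx hxa => ?_⟩
      have h4 := hexc x hx
      rw [hF, mem_insert, mem_singleton] at h4
      rcases h4 with rfl | rfl
      · exact hdis.symm
      · exact absurd rfl hxa
  · have h2 : (su e).card = 3 := by omega
    obtain ⟨a, b, c, hab, hac, hbc, hF⟩ := Finset.card_eq_three.1 h2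
    have hbi : (su e).biUnion (ns i) = (ns i a ∪ ns i b) ∪ ns i c := by
      rw [hF, biUnion_insert, biUnion_insert, singleton_biUnion, union_assoc]
    have haD : a ∈ su e := by rw [hF]; exact mem_insert_self _ _
    have hbD : b ∈ su e := by rw [hF]; exact mem_insert_of_mem (mem_insert_self _ _)
    have hcD : c ∈ su e := by
      rw [hF]
      exact mem_insert_of_mem (mem_insert_of_mem (mem_singleton_self _))
    have haD' := hD.su_sub haD
    have hbD' := hD.su_sub hbD
    have hcD' := hD.su_sub hcD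
    rw [mem_su] at haD hbD hcD
    rw [hF, sum_insert (by rw [mem_insert, mem_singleton]; tauto), sum_pair hbc] at hsum
    have hfin : ∀ k u v : P, e k = 1 → (∀ x, x ∈ su e → x = k ∨ x = u ∨ x = v) →
        Disjoint (ns i k) (ns i u) → Disjoint (ns i k) (ns i v) →
        ∃ k, e k = 1 ∧ ∀ x, 1 ≤ e x → x ≠ k → Disjoint (ns i k) (ns i x) := by
      intro k u v hk hall hu hv
      refine ⟨k, hk, fun x hx hxk => ?_⟩
      rcases hall x (hexc x hx) with rfl | rfl | rfl
      · exact absurd rfl hxk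
      · exact hu
      · exact hv
    have hall : ∀ x, x ∈ su e → x = a ∨ x = b ∨ x = c := by
      intro x hx
      rw [hF, mem_insert, mem_insert, mem_singleton] at hx
      exact hx
    rw [hbi, h2] at ho
    by_cases d1 : Disjoint (ns i a) (ns i b)
    · by_cases d2 : Disjoint (ns i a) (ns i c)
      · exact hfin a b c (by omega) hall d1 d2
      · by_cases d3 : Disjoint (ns i b) (ns i c)
        · exact hfin b a c (by omega) (fun x hx => by have := hall x hx; tauto) d1.symm d3
        · have h5 := center hcD' haD' hbD' (fun h => d2 h.symm) (fun h => d3 h.symm)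
          rw [union_assoc, union_comm (ns i c)] at h5
          omega
    · by_cases d2 : Disjoint (ns i a) (ns i c)
      · by_cases d3 : Disjoint (ns i b) (ns i c)
        · exact hfin c a b (by omega) (fun x hx => by have := hall x hx; tauto) d2.symm d3.symm
        · have h5 := center hbD' haD' hcD' (fun h => d1 h.symm) d3
          rw [union_comm (ns i b) (ns i a)] at h5
          omega
      · have h5 := center haD' hbD' hcD' d1 d2
        omega

end Pool.Agent.GaussPoset.Win.K2

end

/-! From `Pool.Agent.W_448v_h15.VF` -/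

section

/-!
The value of `w3` of a star component (MP_448cb3_co, case B), part F: the sum over the
configurations of energy three on the double near elements.
-/

namespace Pool.Agent.GaussPoset.Win.K2

set_option linter.unusedSectionVars false

open Finset I2

universe u

variable {P : Type u} [Fintype P] [PartialOrder P] [DecidableEq P] {r i : ℕ} {e : P → ℕ}
variable {K : Finset P} {psi : P → P}

section cls

variable (H : Gr P r) (hir : i ≤ r) (hq : NoQ P (i + 2)) (hg : ∀ m, m + 1 = i → Good P m)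
include H hir hq hg

/-- a configuration of order two on the double near elements cancels against its swap -/
theorem onD_dvd (hM : Mat P i K psi) {C : Finset P} (hK : Star i C K) (hC : Part (i + 1) C)
    (hD : OnD i e) (hs : Spt C e) (h3 : ∑ x, e x = 3) (hSK : SK i K psi e = ∅)
    (hd : Disjoint (AL i e) (AU i e)) (ho : pL i e + pU i e + 2 ≤ (AL i e).card + (AU i e).card) :
    dd ^ ((st i C).card - 1) ∣ tC i C e + tC i C (Ph i K psi e) := by
  classical
  have hCe : ∀ x, 1 ≤ e x → x ∈ C := by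
    intro x hx
    by_contra h
    have := hs x h
    omega
  have hb := K_bound H hir hq hg hM hK hs (hD.admL H) (hD.admU H) hd (δ := 0) (Or.inl rfl)
  rw [h3, hSK, card_empty] at hb
  have hcs : pL i e + pU i e = (su e).card := by
    rw [hD.pL H, hD.pU H hir, hD.card_su]
  have hun : (su e).biUnion (ns i) = AL i e ∪ AU i e := by
    rw [hD.AL H, hD.AU H, ← union_biUnion, ← inter_union_distrib_left,
      inter_eq_left.2 hD.su_sub]
  have hcu : ((su e).biUnion (ns i)).card = (su e).card + 2 := by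
    rw [hun, card_union_of_disjoint hd]
    omega
  obtain ⟨k, ek, hiso⟩ := exists_iso hD h3 (by omega)
  have hkD := hD k (by omega)
  have hkK : k ∈ K := by
    by_contra h
    exact simp_onD hM H hD (mem_sdiff.2 ⟨hkD, h⟩) ek hiso hSK
  have hks : k ∈ su e := mem_su.2 (by omega)
  obtain ⟨F0, hF0⟩ : ∃ F0, F0 = (su e).erase k := ⟨_, rfl⟩
  have hF : su e = insert k F0 := by
    rw [hF0, insert_erase hks]
  have hkF : k ∉ F0 := by
    rw [hF0]
    exact notMem_erase _ _
  have hm : ∀ x ∈ F0, 1 ≤ e x ∧ x ≠ k := by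
    intro x hx
    rw [hF0, mem_erase, mem_su] at hx
    exact ⟨hx.2, hx.1⟩
  have hdis : ∀ x ∈ F0, Disjoint (ns i k) (ns i x) := fun x hx => hiso x (hm x hx).1 (hm x hx).2
  have hnK : ∀ x ∈ F0, x ∉ K := by
    intro x hx hxK
    obtain ⟨t, ht, ht'⟩ := hK.two k hkK (hCe k (by omega)) x hxK (hCe x (hm x hx).1)
      (hm x hx).2.symm
    exact disjoint_left.1 (hdis x hx) ht ht'
  have hc0 : F0.card + 1 = (su e).card := by
    rw [hF, card_insert_of_notMem hkF]
  have hc : (F0.biUnion (ns i)).card = F0.card + 1 := by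
    have h4 : (su e).biUnion (ns i) = ns i k ∪ F0.biUnion (ns i) := by
      rw [hF, biUnion_insert]
    rw [h4, card_union_of_disjoint, ns_card hkD] at hcu
    · omega
    · rw [disjoint_biUnion_right]
      exact hdis
  have hle3 : (su e).card ≤ 3 := by
    have hsum : ∑ x ∈ su e, e x = 3 := by
      rw [← h3]
      refine Finset.sum_subset (subset_univ _) fun x _ hx => ?_
      rw [mem_su] at hx
      omega
    rw [← hsum, Finset.card_eq_sum_ones]
    exact Finset.sum_le_sum fun x hx => mem_su.1 hx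
  by_cases hLall : ∀ x ∈ F0, x ∈ dbL P i
  · exact pair_dvd hM H hir hC hD hs hF hkF hkD hkK
      (fun x hx => mem_sdiff.2 ⟨hLall x hx, hnK x hx⟩) hdis hc
  · push Not at hLall
    obtain ⟨y, hy, hyL⟩ := hLall
    have hyU : y ∈ dbU P i := by
      rcases mem_union.1 (hD y (hm y hy).1) with h | h
      · exact absurd h hyL
      · exact h
    have hUall : ∀ x ∈ F0, x ∈ dbU P i := by
      intro x hx
      by_contra hxU
      have hxL : x ∈ dbL P i := by
        rcases mem_union.1 (hD x (hm x hx).1) with h | h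
        · exact h
        · exact absurd h hxU
      have hxy : x ≠ y := by
        rintro rfl
        exact hxU hyU
      have h5 : ({x, y} : Finset P) ⊆ F0 := by
        intro t ht
        rw [mem_insert, mem_singleton] at ht
        rcases ht with rfl | rfl <;> assumption
      have h6 : F0 = {x, y} := by
        symm
        apply eq_of_subset_of_card_le h5
        rw [card_pair hxy]
        omega
      have h7 : (ns i x ∪ ns i y).card = 3 := by
        have h8 := hc
        rw [h6, card_pair hxy, biUnion_insert, singleton_biUnion] at h8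
        exact h8
      have h8 := card_union_add_card_inter (ns i x) (ns i y)
      rw [ns_card (mem_union_left _ hxL), ns_card (mem_union_right _ hyU), h7] at h8
      obtain ⟨v, hv⟩ : (ns i x ∩ ns i y).Nonempty := by
        rw [← card_pos]
        omega
      rw [mem_inter] at hv
      have v1 : v ∈ AL i e := by
        rw [hD.AL H, mem_biUnion]
        exact ⟨x, mem_inter.2 ⟨mem_su.2 (hm x hx).1, hxL⟩, hv.1⟩
      have v2 : v ∈ AU i e := by
        rw [hD.AU H, mem_biUnion]
        exact ⟨y, mem_inter.2 ⟨mem_su.2 (hm y hy).1, hyU⟩, hv.2⟩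
      exact disjoint_left.1 hd v1 v2
    have h0' : F0 ⊆ (dbL P i ∪ dbU P i) \ K := by
      intro x hx
      exact mem_sdiff.2 ⟨mem_union_right _ (hUall x hx), hnK x hx⟩
    have hF' := su_Ph hM hF hkK h0'
    have hci : (F0.image psi).card = F0.card := by
      apply card_image_of_injOn
      intro x hx y hy hxy
      rw [← (psi_data hM (h0' hx)).2.1, hxy, (psi_data hM (h0' hy)).2.1]
    have hbi : (F0.image psi).biUnion (ns i) = F0.biUnion (ns i) := by
      rw [image_biUnion]
      refine biUnion_congr rfl fun x hx => ?_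
      exact (psi_data hM (h0' hx)).2.2.1
    have h4 := pair_dvd (e := Ph i K psi e) hM H hir hC (hD.Ph hM) (spt_Ph hM H hC hs) hF'
      (by
        intro h
        obtain ⟨y, hy, h2⟩ := mem_image.1 h
        have h3 := (mem_sdiff.1 (psi_data hM (h0' hy)).1).2
        rw [h2] at h3
        exact h3 hkK) hkD hkK
      (by
        intro x hx
        obtain ⟨y, hy, rfl⟩ := mem_image.1 hx
        obtain ⟨q1, -, -, -, q5⟩ := psi_data hM (h0' hy)
        exact mem_sdiff.2 ⟨q5 (hUall y hy), (mem_sdiff.1 q1).2⟩)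
      (by
        intro x hx
        obtain ⟨y, hy, rfl⟩ := mem_image.1 hx
        rw [(psi_data hM (h0' hy)).2.2.1]
        exact hdis y hy)
      (by rw [hbi, hci, hc])
    rw [Ph_Ph hM, add_comm] at h4
    exact h4

omit H hir hq hg in
lemma two_dvd {n : ℕ} {X : A} (h : dd ^ n ∣ 2 * X) : dd ^ n ∣ X := by
  unfold dd at h ⊢
  rw [PowerSeries.X_pow_dvd_iff] at h ⊢
  intro m hm
  have h1 := h m hm
  have h2 : (2 : A) * X = X + X := by ring
  rw [h2, map_add] at h1
  omega

/-- the configurations of energy three on the double near elements without simple edges -/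
theorem sum_onD (hM : Mat P i K psi) {C : Finset P} (hK : Star i C K) (hC : Part (i + 1) C)
    (hb : 1 ≤ (st i C).card) {Ω : Finset (P → ℕ)}
    (hΩ : ∀ e : P → ℕ, e ∈ Ω ↔ ∑ x, e x = 3 ∧ Spt C e ∧ OnD i e ∧ SK i K psi e = ∅) :
    dd ^ ((st i C).card - 1) ∣ ∑ e ∈ Ω, tC i C e := by
  classical
  have hP : ∀ e ∈ Ω, Ph i K psi e ∈ Ω := by
    intro e he
    rw [hΩ] at he ⊢
    obtain ⟨h1, h2, h3, h4⟩ := he
    refine ⟨by rw [sum_Ph hM]; exact h1, spt_Ph hM H hC h2, h3.Ph hM, ?_⟩
    rw [SK_Ph hM H h3, h4]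
  have h1 : ∑ e ∈ Ω, tC i C (Ph i K psi e) = ∑ e ∈ Ω, tC i C e := by
    refine Finset.sum_nbij' (fun e => Ph i K psi e) (fun e => Ph i K psi e) hP hP
      (fun e _ => Ph_Ph hM e) (fun e _ => Ph_Ph hM e) (fun e _ => rfl)
  apply two_dvd
  have h2 : 2 * ∑ e ∈ Ω, tC i C e = ∑ e ∈ Ω, (tC i C e + tC i C (Ph i K psi e)) := by
    rw [Finset.sum_add_distrib, h1]
    ring
  rw [h2]
  refine Finset.dvd_sum fun e he => ?_
  have hsmall : ∀ e ∈ Ω, ¬ (Disjoint (AL i e) (AU i e) ∧
      pL i e + pU i e + 2 ≤ (AL i e).card + (AU i e).card) →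
      dd ^ ((st i C).card - 1) ∣ tC i C e := by
    intro e he h
    have h3 := VA_tC_dvd (i := i) (e := e) (C := C) (m := (st i C).card - 1) (n := 1) (k := 0)
      (by omega) (by
      intro _ _ hd
      by_contra h4
      exact h ⟨hd, by omega⟩)
    rwa [pow_zero, mul_one] at h3
  have hall := fun e (he : e ∈ Ω) => (hΩ e).1 he
  by_cases c1 : Disjoint (AL i e) (AU i e) ∧
      pL i e + pU i e + 2 ≤ (AL i e).card + (AU i e).card
  · obtain ⟨a1, a2, a3, a4⟩ := hall e he
    exact onD_dvd H hir hq hg hM hK hC a3 a2 a1 a4 c1.1 c1.2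
  · by_cases c2 : Disjoint (AL i (Ph i K psi e)) (AU i (Ph i K psi e)) ∧
        pL i (Ph i K psi e) + pU i (Ph i K psi e) + 2 ≤
          (AL i (Ph i K psi e)).card + (AU i (Ph i K psi e)).card
    · obtain ⟨a1, a2, a3, a4⟩ := hall _ (hP e he)
      have h3 := onD_dvd H hir hq hg hM hK hC a3 a2 a1 a4 c2.1 c2.2
      rw [Ph_Ph hM, add_comm] at h3
      exact h3
    · exact dvd_add (hsmall e he c1) (hsmall _ (hP e he) c2)

end cls

/-- the sum over a class given by an explicit list -/
lemma sum_list {ι : Type*} {C : Finset P} {n : ℕ} {Z : A} (I : Finset ι) (m : ι → P → ℕ)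
    (v : ι → ℤ) (Ω : Finset (P → ℕ)) (hm : ∀ a ∈ I, m a ∈ Ω)
    (hinj : ∀ a ∈ I, ∀ b ∈ I, m a = m b → a = b)
    (hlead : ∀ a ∈ I, dd ^ n ∣ tC i C (m a) - (v a : A) * Z)
    (hrest : ∀ e ∈ Ω, (∀ a ∈ I, m a ≠ e) → dd ^ n ∣ tC i C e) :
    dd ^ n ∣ ∑ e ∈ Ω, tC i C e - ((∑ a ∈ I, v a : ℤ) : A) * Z := by
  classical
  have h1 : I.image m ⊆ Ω := by
    intro e he
    obtain ⟨a, ha, rfl⟩ := mem_image.1 he
    exact hm a ha
  have h2 : ∑ e ∈ Ω, tC i C e = ∑ e ∈ Ω \ I.image m, tC i C e + ∑ a ∈ I, tC i C (m a) := by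
    rw [← Finset.sum_sdiff h1, Finset.sum_image (fun a ha b hb h => hinj a ha b hb h)]
  rw [h2, Int.cast_sum, Finset.sum_mul, add_sub_assoc, ← Finset.sum_sub_distrib]
  refine dvd_add (Finset.dvd_sum fun e he => ?_) (Finset.dvd_sum fun a ha => hlead a ha)
  rw [mem_sdiff] at he
  refine hrest e he.1 fun a ha h => he.2 ?_
  rw [← h]
  exact mem_image_of_mem _ ha

end Pool.Agent.GaussPoset.Win.K2

end
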