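import Mathlib
import Pool.Agent.W_448zz_h61.Ns
import Pool.Agent.W_448zz_h61.M154
import Pool.Agent.W_448zz_h61.M160

/-! From `Pool.Agent.W_448e_h97.EI` -/

section

/-! Case B: the rows of level `j`, all facts; the exceptional pattern with seven sites is impossible
(MP_448cb3_co). -/

namespace Pool.Agent.GaussPoset.EK

set_option linter.unusedSectionVars false

open Finset Win St Polynomial Wd

universe u

variable {P : Type u} [Fintype P] [PartialOrder P] [DecidableEq P] {r i j : ℕ}

variable {m : ℕ} {x : ℕ → P} {c : ℕ → ℤ} {β : ℤ} {t : Tops P}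

/-- a row of case B -/
structure RowB (P : Type u) [Fintype P] [PartialOrder P] [DecidableEq P] (j : ℕ) (t : Tops P)
    (m : ℕ) (x : ℕ → P) (c : ℕ → ℤ) (β : ℤ) : Prop where
  row : Row j (topOf : P → Tops P) t m x c β
  pat : PcPat m c β
  ends : β ≠ 0 → (uc (x 0)).card = 1 ∧ (uc (x m)).card = 1
  lost : ∀ a, 0 < a → a < m → c (a - 1) = -1 → c a = -1 → (pen (x a)).card = 1
  pen0 : ∀ a, 2 ≤ a → a + 2 ≤ m → pen (x a) = ∅
  len : m ≤ j
  ucv_x : ∀ a b, a < b → b ≤ m → ucv (x a) (x b) = if b = a + 1 then 1 else 0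
  pu : ∀ a, 1 ≤ a → a + 2 ≤ m → ∀ u, x a ⋖ u → x (a + 1) ⋖ u → ∀ z, u ⋖ z → (dc z).card = 2

theorem NJ.rowB (h : NJ P r j) (hj : 2 ≤ j) (t : Tops P) :
    ∃ (m : ℕ) (x : ℕ → P) (c : ℕ → ℤ) (β : ℤ), RowB P j t m x c β := by
  obtain ⟨lo, hi, e, C⟩ := Cp.comp_exists h.g.H t.2 h.g.hr h.g.good
  obtain ⟨c, β, h1, h2, h3, h4⟩ := h.pieces hj C
  have hlo := C.lo_le j le_rfl
  have htop : ∀ v : P, v ≤ (t : P) → lev v = j → topOf v = t := by
    intro v hv hl
    refine Subtype.ext ?_
    exact Hul.top_unique (h.nj (by omega)) (topOf v).2 t.2 (le_topOf v) hv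
  have hlen : hi j ≤ j := Cp.Comp.hi_le C le_rfl
  obtain ⟨n, rfl⟩ : ∃ n, j = n + 2 := ⟨j - 2, by omega⟩
  have s1 := C.lo_step n (by omega)
  have s2 := C.lo_step (n + 1) (by omega)
  have s3 := C.hi_step n (by omega)
  have s4 := C.hi_step (n + 1) (by omega)
  have s2' : lo (n + 2) = lo (n + 1) ∨ lo (n + 2) = lo (n + 1) + 1 := s2
  have s4' : hi (n + 2) = hi (n + 1) ∨ hi (n + 2) = hi (n + 1) + 1 := s4
  clear s2 s4
  have S : Rw P (n + 2) t (hi (n + 2) - lo (n + 2)) (fun a => e (n + 2) (lo (n + 2) + a)) :=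
    C.toWin.rw_row (i := n + 1) h.g (by omega) t.2
  have hcov : ∀ s s', lo (n + 2) ≤ s → s ≤ hi (n + 2) → lo (n + 1) ≤ s' → s' ≤ hi (n + 1) →
      (e (n + 2) s ⋖ e (n + 1) s' ↔ s' = s ∨ s' + 1 = s) := fun s s' =>
    C.cov (n + 1) s s' (by omega)
  have hrow : Row (n + 2) (topOf : P → Tops P) t (hi (n + 2) - lo (n + 2))
      (fun a => e (n + 2) (lo (n + 2) + a)) c β := by
    refine ⟨?_, ?_, ?_, ?_, ?_⟩
    · exact fun k hk => C.lev_e (n + 2) (lo (n + 2) + k) le_rfl (by omega) (by omega)
    · intro k l hk hl hkl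
      have := C.inj (n + 2) (lo (n + 2) + k) (lo (n + 2) + l) le_rfl (by omega) (by omega)
        (by omega) (by omega) hkl
      omega
    · intro k hk
      exact htop _ (C.le_t (n + 2) (lo (n + 2) + k) le_rfl (by omega) (by omega))
        (C.lev_e (n + 2) (lo (n + 2) + k) le_rfl (by omega) (by omega))
    · intro v hv hvt
      have hvle : v ≤ (t : P) := by
        rw [← hvt]
        exact le_topOf v
      obtain ⟨s, s1, s2, s3⟩ := C.surj v hvle (by omega)
      rw [hv] at s1 s2 s3
      exact ⟨s - lo (n + 2), by omega, by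
        show e (n + 2) (lo (n + 2) + (s - lo (n + 2))) = v
        rw [show lo (n + 2) + (s - lo (n + 2)) = s by omega]
        exact s3⟩
    · intro k l hkl hl
      have hne : e (n + 2) (lo (n + 2) + k) ≠ e (n + 2) (lo (n + 2) + l) := by
        intro h5
        have := C.inj (n + 2) _ _ le_rfl (by omega) (by omega) (by omega) (by omega) h5
        omega
      rw [Df_pair h.g.H (C.lev_e (n + 2) (lo (n + 2) + k) le_rfl (by omega) (by omega)) hne,
        h2 (lo (n + 2) + k) (lo (n + 2) + l) (by omega) (by omega) (by omega)]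
      by_cases h5 : l = k + 1
      · rw [if_pos (by omega), if_pos h5, show lo (n + 2) + k - lo (n + 2) = k by omega]
      · rw [if_neg (by omega), if_neg h5]
        by_cases h6 : k = 0 ∧ l = hi (n + 2) - lo (n + 2)
        · rw [if_pos (by omega), if_pos h6]
        · rw [if_neg (by omega), if_neg h6]
  refine ⟨hi (n + 2) - lo (n + 2), fun a => e (n + 2) (lo (n + 2) + a), c, β, hrow, h1, ?_, ?_,
    ?_, ?_, ?_, ?_⟩
  · intro hb
    have h5 := h3 hb
    show (uc (e (n + 2) (lo (n + 2) + 0))).card = 1 ∧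
      (uc (e (n + 2) (lo (n + 2) + (hi (n + 2) - lo (n + 2))))).card = 1
    rw [add_zero, show lo (n + 2) + (hi (n + 2) - lo (n + 2)) = hi (n + 2) by omega]
    exact h5
  · intro a ha1 ha2 ha3 ha4
    refine h4 (lo (n + 2) + a) (by omega) (by omega) ?_ ?_
    · rw [show lo (n + 2) + a - 1 - lo (n + 2) = a - 1 by omega]
      exact ha3
    · rw [show lo (n + 2) + a - lo (n + 2) = a by omega]
      exact ha4
  · intro a ha1 ha2
    have h0 : 1 ≤ n := by omega
    exact h.pen_three h0 le_rfl C (a := lo (n + 2) + a) (by omega) (by omega)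
  · omega
  · intro a b hab hb
    have h5 := S.ucv_x a b (by omega) hb (by omega)
    show ucv (e (n + 2) (lo (n + 2) + a)) (e (n + 2) (lo (n + 2) + b)) = _
    rw [h5]
    by_cases h6 : b = a + 1
    · rw [if_pos (Or.inl h6.symm), if_pos h6]
    · rw [if_neg (by omega), if_neg h6]
  · intro a ha1 ha2 u hu1 hu2 z hz
    -- coordinates of `u`
    have lu := lev_cov h.g.H hu1
    have lz := lev_cov h.g.H hz
    have lx : lev (e (n + 2) (lo (n + 2) + a)) = n + 2 :=
      C.lev_e (n + 2) _ le_rfl (by omega) (by omega)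
    have lx' : lev (e (n + 2) (lo (n + 2) + (a + 1))) = n + 2 :=
      C.lev_e (n + 2) _ le_rfl (by omega) (by omega)
    have hxt := C.le_t (n + 2) (lo (n + 2) + a) le_rfl (by omega) (by omega)
    have hut : u ≤ (t : P) := Cp.up_le h.g.H h.g.good t.2 hxt (by omega) hu1.le
    have hzt : z ≤ (t : P) := Cp.up_le h.g.H h.g.good t.2 hut (by omega) hz.le
    obtain ⟨s, q1, q2, q3⟩ := C.surj u hut (by omega)
    have lu' : lev u = n + 1 := by omega
    rw [lu'] at q1 q2 q3
    obtain ⟨s', q4, q5, q6⟩ := C.surj z hzt (by omega)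
    have lz' : lev z = n := by omega
    rw [lz'] at q4 q5 q6
    subst q3
    subst q6
    have c1 := (hcov (lo (n + 2) + a) s (by omega) (by omega) q1 q2).1 hu1
    have c2 := (hcov (lo (n + 2) + (a + 1)) s (by omega) (by omega) q1 q2).1 hu2
    have hs : s = lo (n + 2) + a := by omega
    have c3 := (C.cov n s s' (by omega) q1 q2 q4 q5).1 hz
    have hd1 : e (n + 1) s' ⋖ e n s' :=
      (C.cov n s' s' (by omega) (by omega) (by omega) q4 q5).2 (Or.inl rfl)
    have hd2 : e (n + 1) (s' + 1) ⋖ e n s' :=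
      (C.cov n (s' + 1) s' (by omega) (by omega) (by omega) q4 q5).2 (Or.inr rfl)
    have hne : e (n + 1) s' ≠ e (n + 1) (s' + 1) := by
      intro h5
      have := C.inj (n + 1) _ _ (by omega) (by omega) (by omega) (by omega) (by omega) h5
      omega
    have h6 : ({e (n + 1) s', e (n + 1) (s' + 1)} : Finset P) ⊆ dc (e n s') := by
      intro w hw
      rw [mem_insert, mem_singleton] at hw
      rcases hw with rfl | rfl
      · exact mem_dc.2 hd1
      · exact mem_dc.2 hd2
    have h7 := card_le_card h6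
    rw [card_pair hne] at h7
    have h8 := dc_card_le h.g.H (e n s')
    omega

/-- the pattern with seven sites is impossible -/
theorem RowB.not8 (R : RowB P j t m x c β) (h8 : Pat8 m c β) : False := by
  obtain ⟨hm, _, h0, h1, h4, h5, h6⟩ := h8
  subst hm
  rcases h6 with ⟨h2, _⟩ | ⟨_, h3⟩
  · have e1 := R.lost 2 (by omega) (by omega) h1 h2
    have e2 := R.pen0 2 (by omega) (by omega)
    rw [e2, card_empty] at e1
    exact absurd e1 (by norm_num)
  · have e1 := R.lost 4 (by omega) (by omega) h3 h4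
    have e2 := R.pen0 4 (by omega) (by omega)
    rw [e2, card_empty] at e1
    exact absurd e1 (by norm_num)

/-- every component is small or has two stars -/
theorem RowB.small (R : RowB P j t m x c β) (H : Gr P r)
    (hκ : Split (j + 1) (topOf : P → Tops P)) :
    Small j (topOf : P → Tops P) t ∨ Pat6 m c β := by
  rcases R.row.small H hκ R.pat with h1 | h1 | h1
  · exact Or.inl h1
  · exact Or.inr h1
  · exact (R.not8 h1).elim

end Pool.Agent.GaussPoset.EK

end

/-! From `Pool.Agent.W_448qd_h16.QB` -/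

section

/-! The first order identities at an integer `s`: elementary identities (MP_448cb3_co). -/

namespace Pool.Agent.GaussPoset.Win
namespace T6N

set_option linter.unusedSectionVars false

open Finset

universe u

variable {P : Type u} [Fintype P] [PartialOrder P] [DecidableEq P] {r : ℕ} {i : ℕ} {s : ℤ}

lemma oms_union {K F : Finset P} (h : Disjoint K F) :
    oms s i (K ∪ F) = oms s i K * oms s i F := by
  unfold oms eps
  rw [card_union_of_disjoint h, prod_union h, pow_add]
  ring

lemma oms_single (w : P) : oms s i ({w} : Finset P) = s * sgn i w := by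
  unfold oms eps
  rw [card_singleton, prod_singleton, pow_one]

lemma Dj_disj {K F : Finset P} (hK : K ⊆ dbL P i ∪ dbU P i)
    (h : Disjoint (F.biUnion (ns i)) (K.biUnion (ns i))) : Disjoint K F := by
  rw [disjoint_left]
  intro x hx hx2
  obtain ⟨v, hv⟩ : (ns i x).Nonempty := by
    rw [← card_pos, ns_card (hK hx)]
    norm_num
  exact disjoint_left.1 h (mem_biUnion.2 ⟨x, hx2, hv⟩) (mem_biUnion.2 ⟨x, hx, hv⟩)

/-- families avoiding `T` which contain `K` -/
lemma contains_s {K : Finset P} (hK : Dj i K) {T : Finset P}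
    (hT : Disjoint (K.biUnion (ns i)) T) :
    ∑ F ∈ ((FA P i).filter (fun F => Disjoint (F.biUnion (ns i)) T)).filter (fun F => K ⊆ F),
      oms s i F = oms s i K * phs s i (T ∪ K.biUnion (ns i)) := by
  unfold phs
  rw [mul_sum]
  symm
  refine sum_nbij' (fun F => K ∪ F) (fun F => F \ K) ?_ ?_ ?_ ?_ ?_
  · intro F hF
    rw [mem_filter, mem_FA, disjoint_union_right] at hF
    rw [mem_filter, mem_filter, mem_FA, union_biUnion, disjoint_union_left]
    refine ⟨⟨⟨union_subset hK.1 hF.1.1, ?_⟩, hT, hF.2.1⟩, subset_union_left⟩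
    have key : ∀ z ∈ F, ∀ w ∈ K, Disjoint (ns i z) (ns i w) := fun z hz w hw =>
      disjoint_of_subset_left (subset_biUnion_of_mem (ns i) hz)
        (disjoint_of_subset_right (subset_biUnion_of_mem (ns i) hw) hF.2.2)
    intro x hx y hy hne
    rcases mem_union.1 hx with hx1 | hx1 <;> rcases mem_union.1 hy with hy1 | hy1
    · exact hK.2 x hx1 y hy1 hne
    · exact (key y hy1 x hx1).symm
    · exact key x hx1 y hy1
    · exact hF.1.2 x hx1 y hy1 hne
  · intro F hF
    rw [mem_filter, mem_filter, mem_FA] at hF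
    rw [mem_filter, mem_FA, disjoint_union_right]
    refine ⟨Dj_sub hF.1.1 sdiff_subset, ?_, ?_⟩
    · exact disjoint_of_subset_left (biUnion_subset_biUnion_of_subset_left _ sdiff_subset)
        hF.1.2
    · rw [disjoint_biUnion_left]
      intro x hx
      rw [mem_sdiff] at hx
      rw [disjoint_biUnion_right]
      intro w hw
      exact hF.1.1.2 x hx.1 w (hF.2 hw) (fun h => hx.2 (h ▸ hw))
  · intro F hF
    rw [mem_filter, mem_FA, disjoint_union_right] at hF
    exact union_sdiff_cancel_left (Dj_disj hK.1 hF.2.2)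
  · intro F hF
    rw [mem_filter] at hF
    exact union_sdiff_of_subset hF.2
  · intro F hF
    rw [mem_filter, mem_FA, disjoint_union_right] at hF
    exact (oms_union (Dj_disj hK.1 hF.2.2)).symm

lemma filt_empty_s {i : ℕ} : (FA P i).filter (fun F => Disjoint (F.biUnion (ns i)) (∅ : Finset P)) =
    FA P i := filter_true_of_mem (fun _ _ => disjoint_empty_right _)

lemma pss_eq {K : Finset P} (hK : Dj i K) :
    pss s i K = oms s i K * phs s i (K.biUnion (ns i)) := by
  have h := contains_s (s := s) hK (disjoint_empty_right (K.biUnion (ns i)))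
  rw [filt_empty_s, empty_union] at h
  rw [← h]
  rfl

lemma pss_zero {K : Finset P} (hK : ¬ Dj i K) : pss s i K = 0 := by
  unfold pss
  rw [filter_eq_empty_iff.2, sum_empty]
  intro F hF h
  exact hK (Dj_sub (mem_FA.1 hF) h)

lemma Dj_single {w : P} (hw : w ∈ dbL P i ∪ dbU P i) : Dj i ({w} : Finset P) := by
  refine ⟨singleton_subset_iff.2 hw, ?_⟩
  intro a ha b hb hne
  rw [mem_singleton] at ha hb
  exact absurd (ha.trans hb.symm) hne

lemma pss_one {w : P} (hw : w ∈ dbL P i ∪ dbU P i) :
    pss s i {w} = s * sgn i w * phs s i (ns i w) := by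
  rw [pss_eq (Dj_single hw), oms_single, singleton_biUnion]

/-- sum over the families of a function of the size -/
lemma sum_card_mul_s (H : Gr P r) (hi : i ≤ r) : ∑ F ∈ FA P i, oms s i F * (F.card : ℤ) = 0 := by
  have h := lays0 (FA P i) (fun F => eps i F * (F.card : ℤ)) _ s (fun F hF => FA_card hF) 0
  rw [add_zero] at h
  have h0 : ∑ F ∈ FA P i, oms s i F * (F.card : ℤ) =
      ∑ F ∈ FA P i, s ^ F.card * (eps i F * (F.card : ℤ)) := by
    refine sum_congr rfl fun F _ => ?_
    unfold oms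
    ring
  rw [h0, ← h]
  refine sum_eq_zero fun k _ => ?_
  rw [← FF_eq]
  rcases Nat.eq_zero_or_pos k with h1 | h1
  · subst h1
    have h2 : ∑ F ∈ FF P i 0, eps i F * (F.card : ℤ) = 0 := by
      refine sum_eq_zero fun F hF => ?_
      rw [mem_FF] at hF
      rw [hF.2]
      norm_num
    rw [h2, mul_zero]
  · have h2 : ∑ F ∈ FF P i k, eps i F * (F.card : ℤ) = (k : ℤ) * ∑ F ∈ FF P i k, eps i F := by
      rw [mul_sum]
      refine sum_congr rfl fun F hF => ?_
      rw [mem_FF] at hF
      rw [hF.2]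
      ring
    rw [h2]
    simp only [eps_eq]
    rw [kk H hi h1, mul_zero, mul_zero]

/-- counting the elements of a set `W` in the families -/
lemma sum_inter_s (W : Finset P) : ∑ F ∈ FA P i, oms s i F * ((F ∩ W).card : ℤ) =
    ∑ w ∈ W, pss s i {w} := by
  have h1 : ∀ F ∈ FA P i, oms s i F * ((F ∩ W).card : ℤ) =
      ∑ w ∈ W, if w ∈ F then oms s i F else 0 := by
    intro F _
    rw [← sum_filter, sum_const, nsmul_eq_mul, filter_mem_eq_inter, inter_comm]
    ring
  rw [sum_congr rfl h1, sum_comm]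
  refine sum_congr rfl fun w _ => ?_
  unfold pss
  rw [← sum_filter]
  refine sum_congr ?_ fun _ _ => rfl
  ext F
  simp only [mem_filter, singleton_subset_iff]

lemma sum_dbU_s : ∑ F ∈ FA P i, oms s i F * ((F ∩ dbU P i).card : ℤ) =
    -s * ∑ u ∈ dbU P i, phs s i (ns i u) := by
  rw [sum_inter_s, mul_sum]
  refine sum_congr rfl fun u hu => ?_
  rw [pss_one (mem_union_right _ hu)]
  unfold sgn
  rw [if_pos hu]
  ring

/-- the two sides have the same sum -/
lemma sides_eq_s (H : Gr P r) (hi : i ≤ r) :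
    s * (∑ w ∈ dbL P i, phs s i (ns i w) - ∑ u ∈ dbU P i, phs s i (ns i u)) = 0 := by
  have h1 := sum_card_mul_s (s := s) H hi (P := P) (i := i)
  have h2 := sum_inter_s (s := s) (i := i) (dbL P i ∪ dbU P i)
  have h3 : ∑ F ∈ FA P i, oms s i F * ((F ∩ (dbL P i ∪ dbU P i)).card : ℤ) =
      ∑ F ∈ FA P i, oms s i F * (F.card : ℤ) := by
    refine sum_congr rfl fun F hF => ?_
    rw [inter_eq_left.2 (mem_FA.1 hF).1]
  rw [← h3, h2, sum_union dis_LU] at h1
  have h4 : ∑ w ∈ dbL P i, pss s i {w} = s * ∑ w ∈ dbL P i, phs s i (ns i w) := by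
    rw [mul_sum]
    refine sum_congr rfl fun w hw => ?_
    rw [pss_one (mem_union_left _ hw)]
    unfold sgn
    rw [if_neg (disjoint_left.1 dis_LU hw)]
    ring
  have h5 : ∑ w ∈ dbU P i, pss s i {w} = -s * ∑ w ∈ dbU P i, phs s i (ns i w) := by
    rw [mul_sum]
    refine sum_congr rfl fun w hw => ?_
    rw [pss_one (mem_union_right _ hw)]
    unfold sgn
    rw [if_pos hw]
    ring
  rw [h4, h5] at h1
  linear_combination h1

/-- vertex expansion -/
theorem expand_s {T : Finset P} {u : P} :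
    phs s i T = phs s i (insert u T) + ∑ y ∈ (dbL P i ∪ dbU P i).filter
      (fun y => u ∈ ns i y ∧ Disjoint (ns i y) T), s * sgn i y * phs s i (T ∪ ns i y) := by
  classical
  set X := (FA P i).filter (fun F => Disjoint (F.biUnion (ns i)) T) with hX
  have h1 : phs s i T = ∑ F ∈ X.filter (fun F => u ∉ F.biUnion (ns i)), oms s i F +
      ∑ F ∈ X.filter (fun F => ¬ u ∉ F.biUnion (ns i)), oms s i F :=
    (sum_filter_add_sum_filter_not X _ _).symm
  have h2 : ∑ F ∈ X.filter (fun F => u ∉ F.biUnion (ns i)), oms s i F =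
      phs s i (insert u T) := by
    unfold phs
    refine sum_congr ?_ fun _ _ => rfl
    ext F
    rw [hX, mem_filter, mem_filter, mem_filter, disjoint_insert_right]
    tauto
  have h3 : ∑ F ∈ X.filter (fun F => ¬ u ∉ F.biUnion (ns i)), oms s i F =
      ∑ y ∈ (dbL P i ∪ dbU P i).filter (fun y => u ∈ ns i y),
        ∑ F ∈ X.filter (fun F => y ∈ F), oms s i F := by
    have h4 : ∀ F ∈ X.filter (fun F => ¬ u ∉ F.biUnion (ns i)), oms s i F =
        ∑ y ∈ (dbL P i ∪ dbU P i).filter (fun y => u ∈ ns i y),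
          if y ∈ F then oms s i F else 0 := by
      intro F hF
      rw [mem_filter, not_not, mem_biUnion, hX, mem_filter, mem_FA] at hF
      obtain ⟨⟨hF1, hF2⟩, y, hy, huy⟩ := hF
      rw [sum_eq_single y]
      · rw [if_pos hy]
      · intro z hz hne
        rw [mem_filter] at hz
        rw [if_neg]
        intro hzF
        exact disjoint_left.1 (hF1.2 z hzF y hy hne) hz.2 huy
      · intro h5
        exact absurd (mem_filter.2 ⟨hF1.1 hy, huy⟩) h5
    rw [sum_congr rfl h4, sum_comm]
    refine sum_congr rfl fun y hy => ?_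
    rw [mem_filter] at hy
    rw [← sum_filter]
    refine sum_congr ?_ fun _ _ => rfl
    ext F
    rw [mem_filter, mem_filter (p := fun F => y ∈ F), mem_filter, not_not, mem_biUnion]
    constructor
    · exact fun h => ⟨h.1.1, h.2⟩
    · exact fun h => ⟨⟨h.1, y, h.2, hy.2⟩, h.2⟩
  rw [h1, h2, h3]
  congr 1
  rw [← filter_filter]
  rw [sum_filter (s := (dbL P i ∪ dbU P i).filter (fun y => u ∈ ns i y))
    (p := fun y => Disjoint (ns i y) T)]
  refine sum_congr rfl fun y hy => ?_
  rw [mem_filter] at hy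
  split_ifs with h5
  · have h6 := contains_s (s := s) (Dj_single hy.1) (T := T)
      (by rw [singleton_biUnion]; exact h5)
    rw [oms_single, singleton_biUnion] at h6
    rw [← h6, hX]
    refine sum_congr ?_ fun _ _ => rfl
    ext F
    simp only [mem_filter, singleton_subset_iff]
  · rw [filter_eq_empty_iff.2, sum_empty]
    intro F hF hyF
    rw [hX, mem_filter] at hF
    exact h5 (disjoint_of_subset_left (subset_biUnion_of_mem (ns i) hyF) hF.2)

/-- the sum around one near double element -/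
lemma around_s {x : P} (hx : x ∈ dbL P i ∪ dbU P i) :
    ∑ y ∈ Rr i x, s * sgn i y * phs s i (ns i x ∪ ns i y) =
      ∑ a ∈ ns i x, phs s i {a} - 2 * phs s i (ns i x) := by
  obtain ⟨a, u, hau, hns⟩ := card_eq_two.1 (ns_card hx)
  have hR : Rr i x = (dbL P i ∪ dbU P i).filter (fun y => u ∈ ns i y ∧ Disjoint (ns i y) {a}) ∪
      (dbL P i ∪ dbU P i).filter (fun y => a ∈ ns i y ∧ Disjoint (ns i y) {u}) := by
    ext y
    simp only [mem_Rr, mem_union, mem_filter, disjoint_singleton_right]
    rw [hns, pair_inter_card hau]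
    tauto
  have hdis : Disjoint ((dbL P i ∪ dbU P i).filter (fun y => u ∈ ns i y ∧ Disjoint (ns i y) {a}))
      ((dbL P i ∪ dbU P i).filter (fun y => a ∈ ns i y ∧ Disjoint (ns i y) {u})) := by
    rw [disjoint_left]
    intro y h1 h2
    rw [mem_filter, disjoint_singleton_right] at h1 h2
    exact h2.2.2 h1.2.1
  have e1 := expand_s (s := s) (i := i) (T := {a}) (u := u)
  have e2 := expand_s (s := s) (i := i) (T := {u}) (u := a)
  have s1 : ∑ y ∈ (dbL P i ∪ dbU P i).filter (fun y => u ∈ ns i y ∧ Disjoint (ns i y) {a}),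
      s * sgn i y * phs s i ({a} ∪ ns i y) =
      ∑ y ∈ (dbL P i ∪ dbU P i).filter (fun y => u ∈ ns i y ∧ Disjoint (ns i y) {a}),
      s * sgn i y * phs s i (ns i x ∪ ns i y) := by
    refine sum_congr rfl fun y hy => ?_
    rw [mem_filter] at hy
    congr 2
    rw [hns]
    ext z
    simp only [mem_union, mem_insert, mem_singleton]
    constructor
    · tauto
    · rintro ((h | h) | h)
      · exact Or.inl h
      · subst h
        exact Or.inr hy.2.1
      · exact Or.inr h
  have s2 : ∑ y ∈ (dbL P i ∪ dbU P i).filter (fun y => a ∈ ns i y ∧ Disjoint (ns i y) {u}),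
      s * sgn i y * phs s i ({u} ∪ ns i y) =
      ∑ y ∈ (dbL P i ∪ dbU P i).filter (fun y => a ∈ ns i y ∧ Disjoint (ns i y) {u}),
      s * sgn i y * phs s i (ns i x ∪ ns i y) := by
    refine sum_congr rfl fun y hy => ?_
    rw [mem_filter] at hy
    congr 2
    rw [hns]
    ext z
    simp only [mem_union, mem_insert, mem_singleton]
    constructor
    · tauto
    · rintro ((h | h) | h)
      · subst h
        exact Or.inr hy.2.1
      · exact Or.inl h
      · exact Or.inr h
  rw [hR, sum_union hdis, ← s1, ← s2]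
  have h3 : phs s i (insert u {a}) = phs s i (ns i x) := by rw [hns, pair_comm]
  have h4 : phs s i (insert a {u}) = phs s i (ns i x) := by rw [hns]
  rw [h3] at e1
  rw [h4] at e2
  have h5 : ∑ b ∈ ns i x, phs s i {b} = phs s i {a} + phs s i {u} := by rw [hns, sum_pair hau]
  rw [h5]
  linarith

open Classical in
/-- the sum over the pairs of one side -/
lemma pairs_sum_s : 2 * s * ∑ p ∈ OP P i, osg i p * phs s i (p.biUnion (ns i)) =
      -∑ x ∈ dbL P i ∪ dbU P i, (∑ a ∈ ns i x, phs s i {a} - 2 * phs s i (ns i x)) := by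
  set W := dbL P i ∪ dbU P i with hW
  set Q := (W ×ˢ W).filter (fun q => (ns i q.1 ∩ ns i q.2).card = 1) with hQ
  have h1 : ∑ x ∈ W, (∑ a ∈ ns i x, phs s i {a} - 2 * phs s i (ns i x)) =
      s * ∑ q ∈ Q, sgn i q.2 * phs s i (ns i q.1 ∪ ns i q.2) := by
    rw [hQ, sum_filter, sum_product, mul_sum]
    refine sum_congr rfl fun x hx => ?_
    rw [← around_s hx]
    unfold Rr
    rw [sum_filter, mul_sum]
    refine sum_congr rfl fun y _ => ?_
    split_ifs
    · ring
    · ring
  have h2 : ∑ q ∈ Q, sgn i q.2 * phs s i (ns i q.1 ∪ ns i q.2) =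
      ∑ q ∈ Q, sgn i q.1 * phs s i (ns i q.1 ∪ ns i q.2) := by
    refine sum_nbij' (fun q => (q.2, q.1)) (fun q => (q.2, q.1)) ?_ ?_ ?_ ?_ ?_
    · intro q hq
      rw [hQ, mem_filter, mem_product] at hq ⊢
      exact ⟨⟨hq.1.2, hq.1.1⟩, by rw [inter_comm]; exact hq.2⟩
    · intro q hq
      rw [hQ, mem_filter, mem_product] at hq ⊢
      exact ⟨⟨hq.1.2, hq.1.1⟩, by rw [inter_comm]; exact hq.2⟩
    · intro q _
      rfl
    · intro q _
      rfl
    · intro q _
      simp only
      rw [union_comm (ns i q.2)]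
  have h3 : ∑ q ∈ Q, sgn i q.2 * phs s i (ns i q.1 ∪ ns i q.2) =
      ∑ q ∈ Q.filter (fun q => Sm i q.1 q.2), sgn i q.1 * phs s i (ns i q.1 ∪ ns i q.2) := by
    have h4 : 2 * ∑ q ∈ Q, sgn i q.2 * phs s i (ns i q.1 ∪ ns i q.2) =
        2 * ∑ q ∈ Q.filter (fun q => Sm i q.1 q.2),
          sgn i q.1 * phs s i (ns i q.1 ∪ ns i q.2) := by
      have h5 : 2 * ∑ q ∈ Q, sgn i q.2 * phs s i (ns i q.1 ∪ ns i q.2) =
          ∑ q ∈ Q, sgn i q.2 * phs s i (ns i q.1 ∪ ns i q.2) +
            ∑ q ∈ Q, sgn i q.1 * phs s i (ns i q.1 ∪ ns i q.2) := by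
        rw [← h2]
        ring
      rw [h5, ← sum_add_distrib, mul_sum, sum_filter (s := Q) (p := fun q => Sm i q.1 q.2)]
      refine sum_congr rfl fun q hq => ?_
      rw [hQ, mem_filter, mem_product, hW, mem_union, mem_union] at hq
      obtain ⟨⟨hx, hy⟩, _⟩ := hq
      rcases hx with hx | hx <;> rcases hy with hy | hy
      · have hsm : Sm i q.1 q.2 := Or.inl ⟨hx, hy⟩
        rw [if_pos hsm, sgn_L hx, sgn_L hy]
        ring
      · rw [if_neg, sgn_L hx, sgn_U hy]
        · ring
        · rintro (h | h)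
          · exact disjoint_left.1 dis_LU h.2 hy
          · exact disjoint_left.1 dis_LU hx h.1
      · rw [if_neg, sgn_U hx, sgn_L hy]
        · ring
        · rintro (h | h)
          · exact disjoint_left.1 dis_LU h.1 hx
          · exact disjoint_left.1 dis_LU hy h.2
      · have hsm : Sm i q.1 q.2 := Or.inr ⟨hx, hy⟩
        rw [if_pos hsm, sgn_U hx, sgn_U hy]
        ring
    linarith
  have hmem : ∀ q ∈ Q.filter (fun q => Sm i q.1 q.2), ({q.1, q.2} : Finset P) ∈ OP P i := by
    rintro ⟨x, y⟩ hq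
    rw [mem_filter, hQ, mem_filter, mem_product] at hq
    obtain ⟨⟨⟨hx, hy⟩, hc⟩, hs⟩ := hq
    simp only at hx hy hc hs
    have hne : x ≠ y := by
      rintro rfl
      rw [inter_self, ns_card hx] at hc
      omega
    rw [mem_OP]
    refine ⟨?_, card_pair hne, ?_⟩
    · rcases hs with h | h
      · left
        intro z hz
        rw [mem_insert, mem_singleton] at hz
        rcases hz with rfl | rfl
        · exact h.1
        · exact h.2
      · right
        intro z hz
        rw [mem_insert, mem_singleton] at hz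
        rcases hz with rfl | rfl
        · exact h.1
        · exact h.2
    · rw [biUnion_insert, singleton_biUnion]
      have h5 := card_union_add_card_inter (ns i x) (ns i y)
      have h6 := ns_card hx
      have h7 := ns_card hy
      show (ns i x ∪ ns i y).card = 3
      omega
  have h6 : 2 * ∑ p ∈ OP P i, osg i p * phs s i (p.biUnion (ns i)) =
      -∑ q ∈ Q.filter (fun q => Sm i q.1 q.2),
        sgn i q.1 * phs s i (ns i q.1 ∪ ns i q.2) := by
    rw [mul_sum, ← sum_neg_distrib, ← sum_fiberwise_of_maps_to hmem]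
    refine sum_congr rfl fun p hp => ?_
    have hp' := mem_OP.1 hp
    obtain ⟨x, y, hne, rfl⟩ := card_eq_two.1 hp'.2.1
    have hside : (x ∈ dbL P i ∧ y ∈ dbL P i) ∨ (x ∈ dbU P i ∧ y ∈ dbU P i) := by
      rcases hp'.1 with h | h
      · exact Or.inl ⟨h (by simp), h (by simp)⟩
      · exact Or.inr ⟨h (by simp), h (by simp)⟩
    have hxW : x ∈ W := by
      rw [hW, mem_union]
      tauto
    have hyW : y ∈ W := by
      rw [hW, mem_union]
      tauto
    have hc : (ns i x ∩ ns i y).card = 1 := by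
      have h5 := card_union_add_card_inter (ns i x) (ns i y)
      have h6 := ns_card hxW
      have h7 := ns_card hyW
      have h8 := hp'.2.2
      rw [biUnion_insert, singleton_biUnion] at h8
      omega
    have hfib : (Q.filter (fun q => Sm i q.1 q.2)).filter
        (fun q => ({q.1, q.2} : Finset P) = {x, y}) = {(x, y), (y, x)} := by
      ext ⟨a, b⟩
      rw [mem_filter, mem_filter, hQ, mem_filter, mem_product, mem_insert, mem_singleton,
        Prod.mk.injEq, Prod.mk.injEq]
      simp only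
      constructor
      · rintro ⟨⟨⟨⟨ha, hb⟩, hab⟩, _⟩, he⟩
        have hne2 : a ≠ b := by
          rintro rfl
          rw [inter_self, ns_card ha] at hab
          omega
        have h5 : a ∈ ({x, y} : Finset P) := by rw [← he]; simp
        have h6 : b ∈ ({x, y} : Finset P) := by rw [← he]; simp
        rw [mem_insert, mem_singleton] at h5 h6
        rcases h5 with rfl | rfl <;> rcases h6 with rfl | rfl
        · exact absurd rfl hne2
        · exact Or.inl ⟨rfl, rfl⟩
        · exact Or.inr ⟨rfl, rfl⟩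
        · exact absurd rfl hne2
      · rintro (⟨rfl, rfl⟩ | ⟨rfl, rfl⟩)
        · exact ⟨⟨⟨⟨hxW, hyW⟩, hc⟩, hside⟩, rfl⟩
        · refine ⟨⟨⟨⟨hyW, hxW⟩, by rw [inter_comm]; exact hc⟩, ?_⟩, pair_comm _ _⟩
          rcases hside with h | h
          · exact Or.inl ⟨h.2, h.1⟩
          · exact Or.inr ⟨h.2, h.1⟩
    have hne3 : (x, y) ≠ (y, x) := by
      intro h
      rw [Prod.mk.injEq] at h
      exact hne h.1
    rw [sum_neg_distrib, hfib, sum_pair hne3, biUnion_insert, singleton_biUnion]
    simp only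
    rw [union_comm (ns i y)]
    unfold osg
    rcases hside with h | h
    · rw [if_neg, sgn_L h.1, sgn_L h.2]
      · ring
      · intro h9
        exact disjoint_left.1 dis_LU h.1 (h9 (by simp))
    · rw [if_pos, sgn_U h.1, sgn_U h.2]
      · ring
      · intro z hz
        rw [mem_insert, mem_singleton] at hz
        rcases hz with rfl | rfl
        · exact h.1
        · exact h.2
  rw [h1, h3]
  linear_combination s * h6

end T6N
end Pool.Agent.GaussPoset.Win

end

/-! From `Pool.Agent.W_448qd_h16.QC` -/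

section

/-! The first order identities at an integer `s`: element form (MP_448cb3_co). -/

namespace Pool.Agent.GaussPoset.Win
namespace T6N

set_option linter.unusedSectionVars false

open Finset

universe u

variable {P : Type u} [Fintype P] [PartialOrder P] [DecidableEq P] {r : ℕ} {i : ℕ} {s : ℤ}

open Classical in
/-- elements two levels below with two upper covers, both double, without common site -/
noncomputable def QD (P : Type u) [Fintype P] [PartialOrder P] [DecidableEq P] (i : ℕ) :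
    Finset P :=
  (lv P (i + 2)).filter (fun z => (uc z).card = 2 ∧ Dj i (uc z))

lemma mem_QD {z : P} : z ∈ QD P i ↔ lev z = i + 2 ∧ (uc z).card = 2 ∧ Dj i (uc z) := by
  classical
  unfold QD
  rw [mem_filter, mem_lv]

/-- the sites above an element of `QD` -/
lemma sgn_uc (H : Gr P r) {z w : P} (hz : lev z = i + 2) (hw : w ∈ uc z) : sgn i w = 1 := by
  unfold sgn
  rw [if_neg]
  intro h
  have h1 := (mem_dbU.1 h).1
  have h2 := lev_uc H hw
  omega

lemma oms_QD (H : Gr P r) {z : P} (hz : z ∈ QD P i) : oms s i (uc z) = s ^ 2 := by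
  rw [mem_QD] at hz
  unfold oms eps
  rw [hz.2.1, prod_eq_one (fun w hw => sgn_uc H hz.1 hw), mul_one]

lemma far2_s (H : Gr P r) : ∑ z ∈ (lv P (i + 2)).filter (fun z => (uc z).card = 2),
    pss s i (uc z) = s ^ 2 * ∑ z ∈ QD P i, phs s i ((uc z).biUnion (ns i)) := by
  classical
  have h1 : QD P i = ((lv P (i + 2)).filter (fun z => (uc z).card = 2)).filter
      (fun z => Dj i (uc z)) := by
    unfold QD
    rw [filter_filter]
  rw [h1, mul_sum, sum_filter (p := fun z => Dj i (uc z))]
  refine sum_congr rfl fun z hz => ?_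
  split_ifs with h2
  · rw [pss_eq h2]
    rw [mem_filter, mem_lv] at hz
    rw [oms_QD H (mem_QD.2 ⟨hz.1, hz.2, h2⟩)]
  · exact pss_zero h2

/-- far lower elements -/
lemma far_L_s (H : Gr P r) : ∑ z ∈ lv P (i + 2), pss s i (uc z) =
    s * ∑ z ∈ PD P i, phs s i ((uc z).biUnion (ns i)) +
      s ^ 2 * ∑ z ∈ QD P i, phs s i ((uc z).biUnion (ns i)) := by
  classical
  rw [← far2_s H, ← sum_filter_not_add_sum_filter (lv P (i + 2)) (fun z => (uc z).card = 2)]
  congr 1
  rw [mul_sum]
  symm
  refine sum_subset_zero_on_sdiff ?_ ?_ ?_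
  · intro z hz
    rw [mem_PD] at hz
    rw [mem_filter, mem_lv]
    refine ⟨hz.1, ?_⟩
    rw [hz.2.1]
    norm_num
  · intro z hz
    rw [mem_sdiff, mem_filter, mem_lv, mem_PD] at hz
    obtain ⟨⟨h1, h2⟩, h3⟩ := hz
    have h4 := uc_card_le H z
    have h5 := card_pos.2 (uc_nonempty H (x := z) (by omega))
    obtain ⟨w, hw⟩ := card_eq_one.1 (show (uc z).card = 1 by omega)
    refine pss_zero (fun h6 => h3 ⟨h1, by omega, w, ?_, ?_⟩)
    · rw [← mem_uc, hw]
      exact mem_singleton_self w
    · have h7 : w ∈ uc z := by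
        rw [hw]
        exact mem_singleton_self w
      have h8 := lev_uc H h7
      rcases mem_union.1 (h6.1 h7) with h9 | h9
      · exact (mem_dbL.1 h9).2
      · have := (mem_dbU.1 h9).1
        omega
  · intro z hz
    rw [mem_PD] at hz
    obtain ⟨h1, h2, w, h3, h4⟩ := hz
    obtain ⟨w', hw'⟩ := card_eq_one.1 h2
    have h5 : w = w' := by
      rw [← mem_uc, hw', mem_singleton] at h3
      exact h3
    subst h5
    have h6 : w ∈ dbL P i := by
      have := (H.covBy_iff.1 h3).2
      exact mem_dbL.2 ⟨by omega, h4⟩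
    rw [hw', pss_one (mem_union_left _ h6), sgn_L h6, singleton_biUnion]
    ring

/-- far upper elements -/
lemma far_U_s (H : Gr P r) : ∑ z ∈ (lU P i 2).filter (fun z => (dc z).card = 1), pss s i (dc z) =
    -s * ∑ z ∈ PU P i, phs s i ((dc z).biUnion (ns i)) := by
  classical
  rw [mul_sum]
  symm
  refine sum_subset_zero_on_sdiff ?_ ?_ ?_
  · intro z hz
    rw [mem_PU] at hz
    rw [mem_filter, mem_lU]
    exact ⟨hz.1, hz.2.1⟩
  · intro z hz
    rw [mem_sdiff, mem_filter, mem_lU, mem_PU] at hz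
    obtain ⟨⟨h1, h2⟩, h3⟩ := hz
    obtain ⟨w, hw⟩ := card_eq_one.1 h2
    rw [hw]
    have h7 : w ∈ dc z := by
      rw [hw]
      exact mem_singleton_self w
    refine pss_zero (fun h6 => h3 ⟨h1, h2, w, mem_dc.1 h7, ?_⟩)
    have h8 := lev_dc H h7
    rcases mem_union.1 (h6.1 (mem_singleton_self w)) with h9 | h9
    · have := (mem_dbL.1 h9).1
      omega
    · exact (mem_dbU.1 h9).2
  · intro z hz
    rw [mem_PU] at hz
    obtain ⟨h1, h2, w, h3, h4⟩ := hz
    obtain ⟨w', hw'⟩ := card_eq_one.1 h2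
    have h5 : w = w' := by
      rw [← mem_dc, hw', mem_singleton] at h3
      exact h3
    subst h5
    have h6 : w ∈ dbU P i := by
      have := (H.covBy_iff.1 h3).2
      exact mem_dbU.2 ⟨by omega, h4⟩
    rw [hw', pss_one (mem_union_right _ h6), sgn_U h6, singleton_biUnion]
    ring

/-- the first order identity at `s`, element form -/
theorem elems (H : Gr P r) (hi : i ≤ r) (h3 : ∀ x : P, lev x + 2 = i → dn i x ≤ 3) :
    s * (∑ x ∈ dbL P i ∪ dbU P i, (∑ a ∈ ns i x, phs s i {a} + phs s i (ns i x) - 3) +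
      2 * ∑ h ∈ sgl P i, (phs s i (ns i h) - 1) - 2 * ∑ v ∈ lv P i, (GGs s i v - 1) -
      2 * s * (∑ z ∈ PD P i, phs s i ((uc z).biUnion (ns i)) -
        ∑ z ∈ PU P i, phs s i ((dc z).biUnion (ns i))) -
      2 * s ^ 2 * (1 + s) * ∑ z ∈ QD P i, phs s i ((uc z).biUnion (ns i))) = 0 := by
  have h := raws H hi h3 s
  have hp := pairs_sum_s (P := P) (i := i) (s := s)
  have hL := far_L_s H (P := P) (i := i) (s := s)
  have h2 := far2_s H (P := P) (i := i) (s := s)
  have hU := far_U_s H (P := P) (i := i) (s := s)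
  have hd := sum_dbU_s (P := P) (i := i) (s := s)
  have hs := sides_eq_s H hi (P := P) (s := s)
  have hc := card_sides H hi (P := P)
  have e1 : ∑ x ∈ dbL P i ∪ dbU P i, (∑ a ∈ ns i x, phs s i {a} + phs s i (ns i x) - 3) =
      ∑ x ∈ dbL P i ∪ dbU P i, (∑ a ∈ ns i x, phs s i {a} - 2 * phs s i (ns i x)) +
      3 * (∑ x ∈ dbL P i, phs s i (ns i x) + ∑ x ∈ dbU P i, phs s i (ns i x)) -
      3 * ((dbL P i).card + (dbU P i).card) := by
    have e2 : ∑ x ∈ dbL P i, phs s i (ns i x) + ∑ x ∈ dbU P i, phs s i (ns i x) =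
        ∑ x ∈ dbL P i ∪ dbU P i, phs s i (ns i x) := (sum_union dis_LU).symm
    have e3 : ((dbL P i).card : ℤ) + (dbU P i).card = ∑ x ∈ dbL P i ∪ dbU P i, (1 : ℤ) := by
      rw [sum_const, card_union_of_disjoint dis_LU, nsmul_eq_mul, mul_one]
      push_cast
      ring
    rw [e2, e3, mul_sum, mul_sum, ← sum_add_distrib, ← sum_sub_distrib]
    refine sum_congr rfl fun x _ => ?_
    ring
  rw [e1]
  rw [hL, h2, hU, hd] at h
  linear_combination (-2) * h + s * hp + 3 * hs - 3 * s * hc

end T6N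
end Pool.Agent.GaussPoset.Win

end

/-! From `Pool.Agent.W_448qd_h16.QE` -/

section

/-! The first order identities at an integer `s`: matching form (MP_448cb3_co). -/

namespace Pool.Agent.GaussPoset.St

set_option linter.unusedSectionVars false

open Finset Polynomial

section gx

variable {α : Type*} [DecidableEq α] {A : Finset α → ℤ} {V : Finset α}

/-- the site sum as a polynomial -/
noncomputable def gx (A : Finset α → ℤ) (V : Finset α) (v : α) : ℤ[X] :=
  ∑ S ∈ (V.erase v).powerset, (∏ y ∈ S, -(C (A {v, y}) * X)) * mp A (V \ insert v S)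

lemma gx_eval (v : α) (s : ℤ) : (gx A V v).eval s =
    ∑ S ∈ (V.erase v).powerset, (∏ y ∈ S, -(A {v, y} * s)) * (mp A (V \ insert v S)).eval s := by
  unfold gx
  rw [eval_finsetSum]
  refine sum_congr rfl fun S _ => ?_
  rw [eval_mul, eval_prod]
  congr 1
  refine prod_congr rfl fun y _ => ?_
  rw [eval_neg, eval_mul, eval_C, eval_X]

lemma mp_eval (s : ℤ) : (mp A V).eval s = ∑ M ∈ MS V, ∏ T ∈ M, (A T * s) := by
  unfold mp
  rw [eval_finsetSum]
  refine sum_congr rfl fun M _ => ?_
  rw [eval_prod]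
  refine prod_congr rfl fun T _ => ?_
  rw [eval_mul, eval_C, eval_X]

end gx

end Pool.Agent.GaussPoset.St

namespace Pool.Agent.GaussPoset.Win
namespace T6N

set_option linter.unusedSectionVars false

open Finset

universe u

variable {P : Type u} [Fintype P] [PartialOrder P] [DecidableEq P] {r : ℕ} {i : ℕ} {s : ℤ}

lemma oms_prod (F : Finset P) : oms s i F = ∏ x ∈ F, (sgn i x * s) := by
  unfold oms eps
  rw [prod_mul_distrib, prod_const]
  ring

lemma prod_Df_s (M : Finset (Finset P)) : ∏ T ∈ M, (Df i T * s) =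
    ∑ F ∈ SR (dbL P i ∪ dbU P i) (ns i) M, ∏ x ∈ F, (sgn i x * s) := by
  rw [← prod_fib (dbL P i ∪ dbU P i) (ns i) (fun x => sgn i x * s) M]
  refine prod_congr rfl fun T _ => ?_
  rw [← sum_fib, sum_mul]

/-- the families avoiding `T` in matching form -/
theorem phs_eq (H : Gr P r) (T : Finset P) :
    phs s i T = (St.mp (Df i) (lv P i \ T)).eval s := by
  classical
  rw [St.mp_eval]
  unfold phs
  have hmaps : ∀ F ∈ (FA P i).filter (fun F => Disjoint (F.biUnion (ns i)) T),
      F.image (ns i) ∈ St.MS (lv P i \ T) := by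
    intro F hF
    rw [mem_filter, mem_FA] at hF
    rw [St.mem_MS]
    constructor
    · intro S hS
      obtain ⟨x, hx, rfl⟩ := mem_image.1 hS
      refine ⟨?_, ns_card (hF.1.1 hx)⟩
      intro v hv
      rw [mem_sdiff]
      exact ⟨ns_sub H (hF.1.1 hx) hv,
        fun h => disjoint_left.1 hF.2 (mem_biUnion.2 ⟨x, hx, hv⟩) h⟩
    · intro S hS S' hS' hne
      obtain ⟨x, hx, rfl⟩ := mem_image.1 (mem_coe.1 hS)
      obtain ⟨y, hy, rfl⟩ := mem_image.1 (mem_coe.1 hS')
      exact hF.1.2 x hx y hy (fun h => hne (by rw [h]))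
  rw [← sum_fiberwise_of_maps_to hmaps]
  refine sum_congr rfl fun M hM => ?_
  rw [prod_Df_s]
  refine sum_congr ?_ fun F _ => oms_prod F
  rw [St.mem_MS] at hM
  ext F
  rw [mem_filter, mem_filter, mem_FA, mem_SR]
  constructor
  · rintro ⟨⟨h1, _⟩, h3⟩
    exact ⟨h1.1, Dj_inj h1, h3⟩
  · rintro ⟨h1, h2, h3⟩
    have hm : ∀ x ∈ F, ns i x ∈ M := fun x hx => by
      rw [← h3]
      exact mem_image_of_mem _ hx
    refine ⟨⟨⟨h1, ?_⟩, ?_⟩, h3⟩
    · intro x hx y hy hne
      exact hM.2 (mem_coe.2 (hm x hx)) (mem_coe.2 (hm y hy))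
        (fun h => hne (h2 (mem_coe.2 hx) (mem_coe.2 hy) h))
    · rw [disjoint_biUnion_left]
      intro x hx
      rw [disjoint_left]
      intro v hv hvT
      exact (mem_sdiff.1 ((hM.1 _ (hm x hx)).1 hv)).2 hvT

/-- product of the defects at `v` -/
lemma prod_Df_star_s (v : P) {S : Finset P} (hv : v ∉ S) : ∏ y ∈ S, -(Df i {v, y} * s) =
    ∑ J ∈ SR (dbL P i ∪ dbU P i) (ns i) (S.image (fun y => ({v, y} : Finset P))),
      ∏ x ∈ J, -(sgn i x * s) := by
  rw [← prod_fib (dbL P i ∪ dbU P i) (ns i) (fun x => -(sgn i x * s)), prod_image]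
  · refine prod_congr rfl fun y _ => ?_
    rw [← sum_fib, sum_mul, sum_neg_distrib]
  · intro a ha b hb hab
    have h1 : a ∈ ({v, b} : Finset P) := by
      rw [← show ({v, a} : Finset P) = {v, b} from hab]
      simp
    rw [mem_insert, mem_singleton] at h1
    rcases h1 with h1 | h1
    · exact absurd (h1 ▸ ha) hv
    · exact h1

/-- the site sum in matching form -/
theorem GGs_eq (H : Gr P r) {v : P} (hv : v ∈ lv P i) :
    GGs s i v = (St.gx (Df i) (lv P i) v).eval s := by
  classical
  rw [St.gx_eval]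
  have h1 : ∀ S ∈ ((lv P i).erase v).powerset, (∏ y ∈ S, -(Df i {v, y} * s)) *
      (St.mp (Df i) (lv P i \ insert v S)).eval s =
      ∑ q ∈ (SR (dbL P i ∪ dbU P i) (ns i) (S.image (fun y => ({v, y} : Finset P)))) ×ˢ
        ((FA P i).filter (fun F => Disjoint (F.biUnion (ns i)) (insert v S))),
        (∏ x ∈ q.1, -(sgn i x * s)) * ∏ x ∈ q.2, (sgn i x * s) := by
    intro S hS
    rw [mem_powerset] at hS
    have hvS : v ∉ S := fun h => by
      have := mem_erase.1 (hS h)
      exact this.1 rfl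
    rw [prod_Df_star_s v hvS, ← phs_eq H]
    unfold phs
    rw [sum_mul_sum, ← sum_product']
    refine sum_congr rfl fun q _ => ?_
    rw [oms_prod]
  rw [sum_congr rfl h1, sum_sigma']
  unfold GGs
  symm
  -- the other ends
  have hpair : ∀ x ∈ dbL P i ∪ dbU P i, v ∈ ns i x → ∃ y, y ∈ (lv P i).erase v ∧
      ns i x = {v, y} := by
    intro x hx hvx
    obtain ⟨a, b, hab, hns⟩ := card_eq_two.1 (ns_card hx)
    have hsub := ns_sub H hx
    rw [hns, mem_insert, mem_singleton] at hvx
    rcases hvx with rfl | rfl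
    · exact ⟨b, mem_erase.2 ⟨hab.symm, hsub (by rw [hns]; simp)⟩, hns⟩
    · exact ⟨a, mem_erase.2 ⟨hab, hsub (by rw [hns]; simp)⟩, by rw [hns, pair_comm]⟩
  refine sum_bij' (fun p _ => p.2.1 ∪ p.2.2)
    (fun G _ => ⟨((G.filter (fun x => v ∈ ns i x)).biUnion (ns i)).erase v,
      (G.filter (fun x => v ∈ ns i x), G.filter (fun x => v ∉ ns i x))⟩) ?_ ?_ ?_ ?_ ?_
  · rintro ⟨S, J, F⟩ hp
    rw [mem_sigma, mem_product, mem_powerset, mem_SR, mem_filter, mem_FA,
      disjoint_insert_right] at hp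
    obtain ⟨hS, ⟨hJ, hJi, hJS⟩, hF, hFv, hFS⟩ := hp
    simp only at hS hJ hJi hJS hF hFv hFS
    rw [mem_SA]
    have hJx : ∀ x ∈ J, ∃ y ∈ S, ns i x = {v, y} := by
      intro x hx
      have : ns i x ∈ S.image (fun y => ({v, y} : Finset P)) := by
        rw [← hJS]
        exact mem_image_of_mem _ hx
      obtain ⟨y, hy, hxy⟩ := mem_image.1 this
      exact ⟨y, hy, hxy.symm⟩
    have hcross : ∀ x ∈ J, ∀ z ∈ F, Disjoint (ns i x \ {v}) (ns i z \ {v}) := by
      intro x hx z hz
      obtain ⟨y, hy, hxy⟩ := hJx x hx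
      rw [disjoint_left]
      intro w hw hw2
      rw [mem_sdiff, hxy, mem_insert, mem_singleton] at hw
      rw [mem_sdiff] at hw2
      have h5 : w = y := by
        rcases hw.1 with h5 | h5
        · exact absurd (mem_singleton.2 h5) hw.2
        · exact h5
      subst h5
      exact disjoint_left.1 hFS (mem_biUnion.2 ⟨z, hz, hw2.1⟩) hy
    refine ⟨union_subset hJ hF.1, ?_⟩
    intro x hx z hz hne
    rcases mem_union.1 hx with hx1 | hx1 <;> rcases mem_union.1 hz with hz1 | hz1
    · obtain ⟨y, hy, hxy⟩ := hJx x hx1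
      obtain ⟨y', hy', hzy⟩ := hJx z hz1
      have hyy : y ≠ y' := by
        rintro rfl
        exact hne (hJi (mem_coe.2 hx1) (mem_coe.2 hz1) (hxy.trans hzy.symm))
      rw [hxy, hzy, disjoint_left]
      intro w hw hw2
      simp only [mem_sdiff, mem_insert, mem_singleton] at hw hw2
      rcases hw.1 with h5 | h5
      · exact hw.2 h5
      · rcases hw2.1 with h6 | h6
        · exact hw.2 h6
        · exact hyy (h5.symm.trans h6)
    · exact hcross x hx1 z hz1
    · exact (hcross z hz1 x hx1).symm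
    · exact disjoint_of_subset_left sdiff_subset
        (disjoint_of_subset_right sdiff_subset (hF.2 x hx1 z hz1 hne))
  · intro G hG
    rw [mem_SA] at hG
    have hGf : ∀ x ∈ G.filter (fun x => v ∈ ns i x), x ∈ dbL P i ∪ dbU P i ∧ v ∈ ns i x :=
      fun x hx => ⟨hG.1 (mem_filter.1 hx).1, (mem_filter.1 hx).2⟩
    rw [mem_sigma, mem_product, mem_powerset, mem_SR, mem_filter, mem_FA]
    refine ⟨?_, ⟨(filter_subset _ _).trans hG.1, ?_, ?_⟩, ⟨(filter_subset _ _).trans hG.1, ?_⟩, ?_⟩
    · intro w hw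
      rw [mem_erase, mem_biUnion] at hw
      obtain ⟨hne, x, hx, hwx⟩ := hw
      exact mem_erase.2 ⟨hne, ns_sub H (hGf x hx).1 hwx⟩
    · exact (SvF_inj hG).mono (fun x hx => (mem_filter.1 (mem_coe.1 hx)).1)
    · ext T
      rw [mem_image, mem_image]
      constructor
      · rintro ⟨x, hx, rfl⟩
        obtain ⟨y, hy, hxy⟩ := hpair x (hGf x hx).1 (hGf x hx).2
        refine ⟨y, mem_erase.2 ⟨(mem_erase.1 hy).1, mem_biUnion.2 ⟨x, hx, ?_⟩⟩, hxy.symm⟩
        rw [hxy]
        simp
      · rintro ⟨y, hy, rfl⟩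
        rw [mem_erase, mem_biUnion] at hy
        obtain ⟨hne, x, hx, hyx⟩ := hy
        obtain ⟨y', hy', hxy⟩ := hpair x (hGf x hx).1 (hGf x hx).2
        refine ⟨x, hx, ?_⟩
        rw [hxy, mem_insert, mem_singleton] at hyx
        rcases hyx with h5 | h5
        · exact absurd h5 hne
        · rw [hxy, h5]
    · intro x hx y hy hne
      rw [mem_filter] at hx hy
      have h5 := hG.2 x hx.1 y hy.1 hne
      rwa [sdiff_singleton_eq_erase, erase_eq_of_notMem hx.2, sdiff_singleton_eq_erase,
        erase_eq_of_notMem hy.2] at h5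
    · rw [disjoint_left]
      intro w hw hw2
      rw [mem_biUnion] at hw
      obtain ⟨z, hz, hwz⟩ := hw
      rw [mem_filter] at hz
      rcases mem_insert.1 hw2 with h5 | h5
      · subst h5
        exact hz.2 hwz
      · rw [mem_erase, mem_biUnion] at h5
        obtain ⟨hne, x, hx, hwx⟩ := h5
        rw [mem_filter] at hx
        have hxz : x ≠ z := by
          rintro rfl
          exact hz.2 hx.2
        exact disjoint_left.1 (hG.2 x hx.1 z hz.1 hxz)
          (mem_sdiff.2 ⟨hwx, fun h => hne (mem_singleton.1 h)⟩)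
          (mem_sdiff.2 ⟨hwz, fun h => hne (mem_singleton.1 h)⟩)
  · rintro ⟨S, J, F⟩ hp
    rw [mem_sigma, mem_product, mem_powerset, mem_SR, mem_filter, mem_FA,
      disjoint_insert_right] at hp
    obtain ⟨hS, ⟨hJ, hJi, hJS⟩, hF, hFv, hFS⟩ := hp
    simp only at hS hJ hJi hJS hF hFv hFS
    have hJx : ∀ x ∈ J, ∃ y ∈ S, ns i x = {v, y} := by
      intro x hx
      have : ns i x ∈ S.image (fun y => ({v, y} : Finset P)) := by
        rw [← hJS]
        exact mem_image_of_mem _ hx
      obtain ⟨y, hy, hxy⟩ := mem_image.1 this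
      exact ⟨y, hy, hxy.symm⟩
    have hJv : ∀ x ∈ J, v ∈ ns i x := by
      intro x hx
      obtain ⟨y, _, hxy⟩ := hJx x hx
      rw [hxy]
      simp
    have hFv' : ∀ x ∈ F, v ∉ ns i x := fun x hx h => hFv (mem_biUnion.2 ⟨x, hx, h⟩)
    have e1 : (J ∪ F).filter (fun x => v ∈ ns i x) = J := by
      rw [filter_union, filter_true_of_mem hJv, filter_false_of_mem hFv', union_empty]
    have e2 : (J ∪ F).filter (fun x => v ∉ ns i x) = F := by
      rw [filter_union, filter_true_of_mem hFv', filter_false_of_mem (fun x hx h => h (hJv x hx)),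
        empty_union]
    have e3 : (J.biUnion (ns i)).erase v = S := by
      ext y
      rw [mem_erase, mem_biUnion]
      constructor
      · rintro ⟨hne, x, hx, hyx⟩
        obtain ⟨y', hy', hxy⟩ := hJx x hx
        rw [hxy, mem_insert, mem_singleton] at hyx
        rcases hyx with h5 | h5
        · exact absurd h5 hne
        · rw [h5]
          exact hy'
      · intro hy
        refine ⟨(mem_erase.1 (hS hy)).1, ?_⟩
        have : ({v, y} : Finset P) ∈ J.image (ns i) := by
          rw [hJS]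
          exact mem_image_of_mem _ hy
        obtain ⟨x, hx, hxy⟩ := mem_image.1 this
        refine ⟨x, hx, ?_⟩
        rw [hxy]
        simp
    simp only [e1, e2, e3]
  · intro G hG
    simp only
    exact filter_union_filter_not_eq _ _
  · rintro ⟨S, J, F⟩ hp
    rw [mem_sigma, mem_product, mem_powerset, mem_SR, mem_filter, mem_FA,
      disjoint_insert_right] at hp
    obtain ⟨hS, ⟨hJ, hJi, hJS⟩, hF, hFv, hFS⟩ := hp
    simp only at hS hJ hJi hJS hF hFv hFS
    have hJv : ∀ x ∈ J, v ∈ ns i x := by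
      intro x hx
      have : ns i x ∈ S.image (fun y => ({v, y} : Finset P)) := by
        rw [← hJS]
        exact mem_image_of_mem _ hx
      obtain ⟨y, hy, hxy⟩ := mem_image.1 this
      rw [← hxy]
      simp
    have hFv' : ∀ x ∈ F, v ∉ ns i x := fun x hx h => hFv (mem_biUnion.2 ⟨x, hx, h⟩)
    have hdis : Disjoint J F := by
      rw [disjoint_left]
      intro x hx hx2
      exact hFv' x hx2 (hJv x hx)
    have e1 : ∏ x ∈ J, -(sgn i x * s) = ∏ x ∈ J, (sgv i v x * s) := by
      refine prod_congr rfl fun x hx => ?_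
      unfold sgv
      rw [if_pos (hJv x hx)]
      ring
    have e2 : ∏ x ∈ F, (sgn i x * s) = ∏ x ∈ F, (sgv i v x * s) := by
      refine prod_congr rfl fun x hx => ?_
      unfold sgv
      rw [if_neg (hFv' x hx)]
    simp only
    rw [e1, e2, ← prod_union hdis, prod_mul_distrib, prod_const]
    ring

end T6N
end Pool.Agent.GaussPoset.Win

end

/-! From `Pool.Agent.W_448qd_h16.QF` -/

section

/-! The first order identities as a polynomial identity (MP_448cb3_co). -/

namespace Pool.Agent.GaussPoset.St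

set_option linter.unusedSectionVars false

open Finset Polynomial

section loc

variable {α : Type*} [DecidableEq α] {A : Finset α → ℤ}

variable {ι : Type*} [DecidableEq ι] {s : Finset ι} {W : ι → Finset α}

lemma gx_sub {V N : Finset α} {v : α} (hN : N ⊆ V.erase v)
    (h0 : ∀ y ∈ V.erase v, y ∉ N → A {v, y} = 0) :
    gx A V v = ∑ S ∈ N.powerset, (∏ y ∈ S, -(C (A {v, y}) * X)) * mp A (V \ insert v S) := by
  unfold gx
  refine (sum_subset (powerset_mono.2 hN) ?_).symm
  intro S hS hn
  rw [mem_powerset] at hS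
  rw [mem_powerset, not_subset] at hn
  obtain ⟨y, hy, hy'⟩ := hn
  rw [prod_eq_zero hy, zero_mul]
  rw [h0 y (hS hy) hy', C_0, zero_mul, neg_zero]

end loc

section deg

variable {α : Type*} [DecidableEq α] {A : Finset α → ℤ} {V U : Finset α}

end deg

end Pool.Agent.GaussPoset.St

namespace Pool.Agent.GaussPoset.Win
namespace T6N

set_option linter.unusedSectionVars false

open Finset Polynomial

universe u

variable {P : Type u} [Fintype P] [PartialOrder P] [DecidableEq P] {r : ℕ} {i : ℕ}

/-- the families avoiding `T` as a polynomial -/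
noncomputable def Fx (i : ℕ) (T : Finset P) : ℤ[X] := St.mp (Df i) (lv P i \ T)

lemma Fx_eval (H : Gr P r) (T : Finset P) (s : ℤ) : (Fx i T).eval s = phs s i T :=
  (phs_eq H T).symm

/-- THE FIRST ORDER IDENTITIES: the coefficient of `X ^ (n - 1)` is the identity at energy `n` -/
theorem poly (H : Gr P r) (hi : i ≤ r) (h3 : ∀ x : P, lev x + 2 = i → dn i x ≤ 3) :
    ∑ x ∈ dbL P i ∪ dbU P i, (∑ a ∈ ns i x, Fx i {a} + Fx i (ns i x) - 3) +
      2 * ∑ h ∈ sgl P i, (Fx i (ns i h) - 1) - 2 * ∑ v ∈ lv P i, (St.gx (Df i) (lv P i) v - 1) -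
      2 * X * (∑ z ∈ PD P i, Fx i ((uc z).biUnion (ns i)) -
        ∑ z ∈ PU P i, Fx i ((dc z).biUnion (ns i))) -
      2 * X ^ 2 * (1 + X) * ∑ z ∈ QD P i, Fx i ((uc z).biUnion (ns i)) = 0 := by
  apply mul_left_cancel₀ (X_ne_zero (R := ℤ))
  rw [mul_zero]
  refine Polynomial.funext fun s => ?_
  have h := elems H hi h3 (s := s)
  have e : ∀ v ∈ lv P i, GGs s i v - 1 = (St.gx (Df i) (lv P i) v - 1).eval s := by
    intro v hv
    rw [eval_sub, eval_one, GGs_eq H hv]
  rw [sum_congr rfl e] at h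
  simp only [← Fx_eval H] at h
  simp only [eval_mul, eval_add, eval_sub, eval_X, eval_finsetSum, eval_one, eval_pow, eval_zero,
    eval_ofNat] at h ⊢
  exact h

end T6N
end Pool.Agent.GaussPoset.Win

end

/-! From `Pool.Agent.W_448e_h97.EJ` -/

section

/-! The first order identities for star components: quads and pendants between two stars
(MP_448cb3_co). -/

namespace Pool.Agent.GaussPoset.EK

set_option linter.unusedSectionVars false

open Finset Win St Polynomial Win.T6N

universe u

variable {P : Type u} [Fintype P] [PartialOrder P] [DecidableEq P] {r i : ℕ}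

variable {K : Finset P} {psi : P → P} {T : Finset P}

/-- the unmatched elements form stars, and at a site there are at most two pairs -/
structure HT (r i : ℕ) (K : Finset P) (psi : P → P) : Prop where
  hs : HS r i K psi
  red : Red P i K psi
  three : ∀ k ∈ K, ∀ k' ∈ K, ∀ k'' ∈ K, k ≠ k' → k ≠ k'' → k' ≠ k'' →
    ∀ v, v ∈ ns i k → v ∈ ns i k' → v ∈ ns i k'' →
    ns i k = ns i k' ∨ ns i k = ns i k'' ∨ ns i k' = ns i k''

/-- the polynomial `Fx` is the generating polynomial -/
lemma HS.Fx_eq (h : HS r i K psi) (T : Finset P) : Fx i T = G (ns i) (sgn i) K T := by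
  ext k
  unfold Fx
  rw [← Ek_mp h.H h.mat h.sub, Ek_coeff]

lemma HS.Fx_coeff (h : HS r i K psi) (T : Finset P) (k : ℕ) : (Fx i T).coeff k = Ek i K T k := by
  rw [h.Fx_eq, Ek_coeff]

open Classical in
/-- the stars which meet `T` -/
noncomputable def JT (i : ℕ) (K T : Finset P) : Finset (Finset P) :=
  (K.filter (fun k => ¬ Disjoint (ns i k) T)).image (star i K)

lemma mem_JT {s : Finset P} : s ∈ JT i K T ↔ ∃ k ∈ K, ¬ Disjoint (ns i k) T ∧ star i K k = s := by
  classical
  unfold JT
  rw [mem_image]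
  constructor
  · rintro ⟨k, hk, h⟩
    rw [mem_filter] at hk
    exact ⟨k, hk.1, hk.2, h⟩
  · rintro ⟨k, hk, h1, h⟩
    exact ⟨k, mem_filter.2 ⟨hk, h1⟩, h⟩

lemma HS.card_JT (h : HS r i K psi) (T : Finset P) : (JT i K T).card ≤ T.card := by
  classical
  have h1 : JT i K T ⊆ T.image
      (fun v => if hv : ∃ k ∈ K, v ∈ ns i k then star i K hv.choose else ∅) := by
    intro s hs
    obtain ⟨k, hk, hkT, rfl⟩ := mem_JT.1 hs
    obtain ⟨v, hv, hvT⟩ := not_disjoint_iff.1 hkT
    rw [mem_image]
    refine ⟨v, hvT, ?_⟩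
    have hex : ∃ k ∈ K, v ∈ ns i k := ⟨k, hk, hv⟩
    rw [dif_pos hex]
    exact h.star_site hex.choose_spec.1 hk hex.choose_spec.2 hv
  exact (card_le_card h1).trans card_image_le

lemma HS.Fx_natDegree (h : HS r i K psi) (T : Finset P) : (Fx i T).natDegree ≤ T.card := by
  rw [h.Fx_eq, h.prod_J T (JT i K T) (fun x hx hn => mem_JT.2 ⟨x, hx, hn, rfl⟩)]
  refine (natDegree_prod_le _ _).trans ?_
  refine (sum_le_card_nsmul _ _ 1 fun s _ => ?_).trans ?_
  · refine (natDegree_add_le _ _).trans (max_le ?_ ?_)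
    · rw [natDegree_one]
      exact Nat.zero_le 1
    · exact (natDegree_C_mul_le _ _).trans natDegree_X_le
  · rw [smul_eq_mul, mul_one]
    exact h.card_JT T

/-- if `T` contains the sites of an unmatched element of the only star which it meets, then `Fx T` is
one -/
lemma HS.Fx_one (h : HS r i K psi) {k : P} (hk : k ∈ K) (hkT : ns i k ⊆ T)
    (hJ : ∀ x ∈ K, ¬ Disjoint (ns i x) T → star i K x = star i K k) : Fx i T = 1 := by
  classical
  rw [h.Fx_eq, h.prod_J T {star i K k} (fun x hx hn => mem_singleton.2 (hJ x hx hn)),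
    prod_singleton]
  have h1 : sst i K T (star i K k) = 0 := by
    rw [sst_eq, filter_false_of_mem, sum_empty]
    rintro x hx ⟨h2, h3⟩
    have h4 := (h.star_eq hx hk).1 h2
    exact h4 (disjoint_of_subset_right hkT h3)
  rw [h1, C_0, zero_mul, add_zero]

lemma Red.exists_of_Df (R : Red P i K psi) {T : Finset P} (hT : Df i T ≠ 0) :
    ∃ k ∈ K, ns i k = T := by
  have h1 := R.fib T
  have h2 : 0 < (K.filter (fun x => ns i x = T)).card := by
    have h3 : (0 : ℤ) < |Df i T| := abs_pos.2 hT
    omega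
  obtain ⟨k, hk⟩ := card_pos.1 h2
  rw [mem_filter] at hk
  exact ⟨k, hk.1, hk.2⟩

lemma pair_inj {v y y' : P} (hy : y ≠ v) (h : ({v, y} : Finset P) = {v, y'}) : y = y' := by
  have h1 : y ∈ ({v, y'} : Finset P) := by
    rw [← h]
    exact mem_insert_of_mem (mem_singleton_self y)
  rw [mem_insert, mem_singleton] at h1
  exact h1.resolve_left hy

/-- the site sums have degree at most two -/
theorem HT.gx_deg (h : HT r i K psi) (v : P) : (gx (Df i) (lv P i) v).natDegree ≤ 2 := by
  classical
  have key : ∀ y, Df i {v, y} ≠ 0 → ∃ k ∈ K, ns i k = {v, y} := fun y hy => h.red.exists_of_Df hy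
  set N := ((lv P i).erase v).filter (fun y => Df i {v, y} ≠ 0) with hN
  have hNc : N.card ≤ 2 := by
    by_contra hcon
    obtain ⟨a, ha, b, hb, c, hc, hab, hac, hbc⟩ := two_lt_card.1 (not_le.1 hcon)
    rw [hN, mem_filter, mem_erase] at ha hb hc
    obtain ⟨ka, hka, na⟩ := key a ha.2
    obtain ⟨kb, hkb, nb⟩ := key b hb.2
    obtain ⟨kc, hkc, nc⟩ := key c hc.2
    have e1 : ka ≠ kb := by
      rintro rfl
      exact hab (pair_inj ha.1.1 (na.symm.trans nb))
    have e2 : ka ≠ kc := by
      rintro rfl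
      exact hac (pair_inj ha.1.1 (na.symm.trans nc))
    have e3 : kb ≠ kc := by
      rintro rfl
      exact hbc (pair_inj hb.1.1 (nb.symm.trans nc))
    have hv : ∀ y, v ∈ ({v, y} : Finset P) := fun y => mem_insert_self _ _
    rcases h.three ka hka kb hkb kc hkc e1 e2 e3 v (by rw [na]; exact hv a)
      (by rw [nb]; exact hv b) (by rw [nc]; exact hv c) with h1 | h1 | h1
    · rw [na, nb] at h1
      exact hab (pair_inj ha.1.1 h1)
    · rw [na, nc] at h1
      exact hac (pair_inj ha.1.1 h1)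
    · rw [nb, nc] at h1
      exact hbc (pair_inj hb.1.1 h1)
  have hsub : N ⊆ (lv P i).erase v := filter_subset _ _
  rw [gx_sub hsub (fun y hy hy' => by
    by_contra h1
    exact hy' (mem_filter.2 ⟨hy, h1⟩))]
  refine natDegree_sum_le_of_forall_le _ _ fun S hS => ?_
  rw [mem_powerset] at hS
  have h1 : (∏ y ∈ S, -(C (Df i {v, y}) * X)).natDegree ≤ S.card := by
    refine (natDegree_prod_le _ _).trans ?_
    refine (sum_le_card_nsmul _ _ 1 fun y _ => ?_).trans (by rw [smul_eq_mul, mul_one])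
    rw [natDegree_neg]
    exact (natDegree_C_mul_le _ _).trans natDegree_X_le
  refine natDegree_mul_le.trans ?_
  rcases S.eq_empty_or_nonempty with rfl | ⟨y0, hy0⟩
  · have h2 : (mp (Df i) (lv P i \ insert v ∅)).natDegree ≤ 1 := by
      have h3 := h.hs.Fx_natDegree (insert v (∅ : Finset P))
      rw [insert_empty_eq, card_singleton] at h3
      exact h3
    rw [card_empty] at h1
    omega
  · have hyN := hS hy0
    rw [hN, mem_filter, mem_erase] at hyN
    obtain ⟨k0, hk0, n0⟩ := key y0 hyN.2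
    have h2 : mp (Df i) (lv P i \ insert v S) = 1 := by
      refine h.hs.Fx_one (T := insert v S) hk0 ?_ ?_
      · intro w hw
        rw [n0, mem_insert, mem_singleton] at hw
        rcases hw with rfl | rfl
        · exact mem_insert_self _ _
        · exact mem_insert_of_mem hy0
      · intro x hx hn
        obtain ⟨w, hw, hwT⟩ := not_disjoint_iff.1 hn
        have hv0 : v ∈ ns i k0 := by
          rw [n0]
          exact mem_insert_self _ _
        rcases mem_insert.1 hwT with rfl | hwS
        · exact h.hs.star_site hx hk0 hw hv0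
        · have hwN := hS hwS
          rw [hN, mem_filter, mem_erase] at hwN
          obtain ⟨kw, hkw, nw⟩ := key w hwN.2
          have e1 : w ∈ ns i kw := by
            rw [nw]
            exact mem_insert_of_mem (mem_singleton_self _)
          have e2 : v ∈ ns i kw := by
            rw [nw]
            exact mem_insert_self _ _
          exact (h.hs.star_site hx hkw hw e1).trans (h.hs.star_site hkw hk0 e2 hv0)
    rw [h2, natDegree_one]
    have h3 := card_le_card hS
    omega

/-- the coefficient of `X ^ 3` -/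
lemma coeff_of_deg {Q B D : ℤ[X]} (h : 2 * X ^ 2 * (1 + X) * Q = D - 2 * X * B)
    (hD : D.natDegree ≤ 2) (hB : B.natDegree ≤ 2) : Q.coeff 0 = -B.coeff 2 := by
  have h3 : 2 * X ^ 2 * (1 + X) * Q = C 2 * ((Q + X * Q) * X ^ 2) := by
    rw [map_ofNat]
    ring
  have h4 : D - 2 * X * B = D - C 2 * (X * B) := by
    rw [map_ofNat]
    ring
  rw [h3, h4] at h
  have h5 : ∀ m, 2 * (Q.coeff (m + 1) + Q.coeff m) = -(2 * B.coeff (m + 2)) := by
    intro m
    have h6 := congrArg (fun p : ℤ[X] => p.coeff (m + 1 + 2)) h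
    simp only [coeff_C_mul, coeff_mul_X_pow, coeff_add, coeff_X_mul, coeff_sub] at h6
    rw [coeff_eq_zero_of_natDegree_lt (p := D) (by omega)] at h6
    linarith
  have h6 : ∀ m, Q.coeff 1 = (-1) ^ m * Q.coeff (m + 1) := by
    intro m
    induction m with
    | zero => rw [pow_zero, one_mul]
    | succ m ih =>
      have h7 := h5 (m + 1)
      rw [coeff_eq_zero_of_natDegree_lt (p := B) (by omega)] at h7
      have h8 : Q.coeff (m + 1) = -Q.coeff (m + 1 + 1) := by linarith
      rw [ih, h8, pow_succ]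
      ring
  have h7 : Q.coeff 1 = 0 := by
    rw [h6 Q.natDegree, coeff_eq_zero_of_natDegree_lt (Nat.lt_succ_self _), mul_zero]
  have h8 := h5 0
  rw [zero_add, h7] at h8
  linarith

/-- THE NUMBER OF QUADS -/
theorem HT.card_QD (h : HT r i K psi) (h3 : ∀ x : P, lev x + 2 = i → dn i x ≤ 3) :
    ((QD P i).card : ℤ) = -(∑ z ∈ PD P i, Ek i K ((uc z).biUnion (ns i)) 2) +
      ∑ z ∈ PU P i, Ek i K ((dc z).biUnion (ns i)) 2 := by
  have hH := h.hs.H
  have hp := poly hH h.hs.hi h3
  set Q : ℤ[X] := ∑ z ∈ QD P i, Fx i ((uc z).biUnion (ns i)) with hQ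
  set B : ℤ[X] := ∑ z ∈ PD P i, Fx i ((uc z).biUnion (ns i)) -
    ∑ z ∈ PU P i, Fx i ((dc z).biUnion (ns i)) with hB
  have hQ0 : Q.coeff 0 = ((QD P i).card : ℤ) := by
    rw [hQ, finsetSum_coeff]
    unfold Fx
    simp only [St.coeff_zero_mp, sum_const, nsmul_eq_mul, mul_one]
  have hB2 : B.coeff 2 = ∑ z ∈ PD P i, Ek i K ((uc z).biUnion (ns i)) 2 -
      ∑ z ∈ PU P i, Ek i K ((dc z).biUnion (ns i)) 2 := by
    rw [hB, coeff_sub, finsetSum_coeff, finsetSum_coeff]
    simp only [h.hs.Fx_coeff]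
  have d1 : (1 : ℤ[X]).natDegree ≤ 2 := by
    rw [natDegree_one]
    exact Nat.zero_le 2
  have dsub : ∀ {p q : ℤ[X]}, p.natDegree ≤ 2 → q.natDegree ≤ 2 → (p - q).natDegree ≤ 2 :=
    fun hp hq => (natDegree_sub_le _ _).trans (max_le hp hq)
  have dadd : ∀ {p q : ℤ[X]}, p.natDegree ≤ 2 → q.natDegree ≤ 2 → (p + q).natDegree ≤ 2 :=
    fun hp hq => (natDegree_add_le _ _).trans (max_le hp hq)
  have dtwo : ∀ {p : ℤ[X]}, p.natDegree ≤ 2 → (2 * p).natDegree ≤ 2 := by
    intro p hp
    rw [two_mul]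
    exact dadd hp hp
  have dthree : (3 : ℤ[X]).natDegree ≤ 2 := by
    rw [natDegree_ofNat]
    exact Nat.zero_le 2
  have hone : ∀ v : P, (Fx i {v}).natDegree ≤ 2 := by
    intro v
    have h4 := h.hs.Fx_natDegree ({v} : Finset P)
    rw [card_singleton] at h4
    omega
  have hns : ∀ x ∈ dbL P i ∪ dbU P i, (Fx i (ns i x)).natDegree ≤ 2 := by
    intro x hx
    have h4 := h.hs.Fx_natDegree (ns i x)
    rw [ns_card hx] at h4
    exact h4
  have hBd : B.natDegree ≤ 2 := by
    refine dsub ?_ ?_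
    · refine natDegree_sum_le_of_forall_le _ _ fun z hz => ?_
      obtain ⟨h1, h2, w, hw, h4⟩ := Win.mem_PD.1 hz
      have hl := lev_cov hH hw
      have h5 : w ∈ dbL P i := mem_dbL.2 ⟨by omega, h4⟩
      rw [PD_site hz hw hH, ← ns_L h5]
      exact hns w (mem_union_left _ h5)
    · refine natDegree_sum_le_of_forall_le _ _ fun z hz => ?_
      obtain ⟨h1, h2, w, hw, h4⟩ := Win.mem_PU.1 hz
      have hl := lev_cov hH hw
      have h5 : w ∈ dbU P i := mem_dbU.2 ⟨by omega, h4⟩
      obtain ⟨w', hw'⟩ := card_eq_one.1 h2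
      have h6 : w = w' := by
        have : w ∈ dc z := mem_dc.2 hw
        rw [hw', mem_singleton] at this
        exact this
      subst h6
      rw [hw', singleton_biUnion]
      exact hns w (mem_union_right _ h5)
  have hfin := coeff_of_deg (Q := Q) (B := B)
    (D := ∑ x ∈ dbL P i ∪ dbU P i, (∑ a ∈ ns i x, Fx i {a} + Fx i (ns i x) - 3) +
      2 * ∑ h ∈ sgl P i, (Fx i (ns i h) - 1) - 2 * ∑ v ∈ lv P i, (St.gx (Df i) (lv P i) v - 1))
    (sub_eq_zero.1 hp).symm ?_ hBd
  · rw [hQ0, hB2] at hfin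
    rw [hfin]
    ring
  · refine dsub (dadd ?_ (dtwo ?_)) (dtwo ?_)
    · refine natDegree_sum_le_of_forall_le _ _ fun x hx => dsub (dadd ?_ (hns x hx)) dthree
      exact natDegree_sum_le_of_forall_le _ _ fun a _ => hone a
    · refine natDegree_sum_le_of_forall_le _ _ fun x hx => dsub ?_ d1
      rw [mem_sgl] at hx
      obtain ⟨v, hv⟩ := card_eq_one.1 hx.2
      rw [hv]
      exact hone v
    · exact natDegree_sum_le_of_forall_le _ _ fun v _ => dsub (h.gx_deg v) d1

end Pool.Agent.GaussPoset.EK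

end

/-! From `Pool.Agent.W_448e_h97.EL` -/

section

/-! Case B: no quads, and no pendant between the two stars of a component with six sites
(MP_448cb3_co). -/

namespace Pool.Agent.GaussPoset.EK

set_option linter.unusedSectionVars false

open Finset Win St Polynomial Wd

universe u

variable {P : Type u} [Fintype P] [PartialOrder P] [DecidableEq P] {r i j : ℕ}

variable {ι : Type*} [DecidableEq ι] {κ : P → ι} {a : ι}

variable {m : ℕ} {x : ℕ → P} {c : ℕ → ℤ} {β : ℤ}

variable {K : Finset P} {psi : P → P} {T : Finset P}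

/-- the four possible pairs of a component with two stars -/
lemma Row.ends4 (W : Row i κ a m x c β) (R : Red P i K psi) (H : Gr P r) (hκ : Split (i + 1) κ)
    (hp : Pat6 m c β) {k : P} (hk : k ∈ K) (hka : κ k = a) :
    (ns i k = {x 0, x 1} ∨ ns i k = {x 1, x 2}) ∨
      (ns i k = {x (m - 2), x (m - 1)} ∨ ns i k = {x (m - 1), x m}) := by
  obtain ⟨h1, h2, _, _, _, _, h3⟩ := hp
  obtain ⟨p, q, h6, h7, h8, h9⟩ := W.pair R H hκ hk hka
  rcases h9 with ⟨h9, h10⟩ | ⟨_, _, _, h10⟩
  · have hp : p = 0 ∨ p = 1 ∨ p = m - 2 ∨ p = m - 1 := by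
      by_contra h11
      exact h10 (h3 p (by omega) (by omega))
    subst h9
    rcases hp with hp | hp | hp | hp
    · subst hp
      exact Or.inl (Or.inl h8)
    · subst hp
      exact Or.inl (Or.inr h8)
    · subst hp
      rw [show m - 2 + 1 = m - 1 by omega] at h8
      exact Or.inr (Or.inl h8)
    · subst hp
      rw [show m - 1 + 1 = m by omega] at h8
      exact Or.inr (Or.inr h8)
  · exact absurd h2 h10

/-- the sites of the pairs at the left end -/
lemma Row.left_site (W : Row i κ a m x c β) (hm : 5 ≤ m) {S : Finset P}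
    (hS : S = {x 0, x 1} ∨ S = {x 1, x 2}) {q : ℕ} (hq : q ≤ m) (h : x q ∈ S) : q ≤ 2 := by
  rcases hS with rfl | rfl <;> rw [mem_insert, mem_singleton] at h <;>
    rcases h with h | h <;> (have := W.inj _ _ hq (by omega) h; omega)

/-- the sites of the pairs at the right end -/
lemma Row.right_site (W : Row i κ a m x c β) (hm : 5 ≤ m) {S : Finset P}
    (hS : S = {x (m - 2), x (m - 1)} ∨ S = {x (m - 1), x m}) {q : ℕ} (hq : q ≤ m)
    (h : x q ∈ S) : m ≤ q + 2 := by
  rcases hS with rfl | rfl <;> rw [mem_insert, mem_singleton] at h <;>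
    rcases h with h | h <;> (have := W.inj _ _ hq (by omega) h; omega)

/-- two stars: of three unmatched elements with a common site two have the same sites -/
theorem Row.three6 (W : Row i κ a m x c β) (R : Red P i K psi) (H : Gr P r)
    (hκ : Split (i + 1) κ) (hp : Pat6 m c β) {k k' k'' v : P} (hk : k ∈ K) (hk' : k' ∈ K)
    (hk'' : k'' ∈ K) (h : κ k = a) (h' : κ k' = a) (h'' : κ k'' = a) (hv : v ∈ ns i k)
    (hv' : v ∈ ns i k') (hv'' : v ∈ ns i k'') :
    ns i k = ns i k' ∨ ns i k = ns i k'' ∨ ns i k' = ns i k'' := by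
  have hm := hp.1
  obtain ⟨q, hq, rfl⟩ := W.surj v (kap_ns' H hκ (R.sub hk) hv).2
    ((kap_ns' H hκ (R.sub hk) hv).1.trans h)
  rcases W.ends4 R H hκ hp hk h with e1 | e1 <;> rcases W.ends4 R H hκ hp hk' h' with e2 | e2 <;>
    rcases W.ends4 R H hκ hp hk'' h'' with e3 | e3
  · rcases e1 with e1 | e1 <;> rcases e2 with e2 | e2 <;> rcases e3 with e3 | e3 <;>
      rw [e1, e2, e3] <;> simp
  · have f1 := W.left_site hm e1 hq hv
    have f2 := W.right_site hm e3 hq hv''
    omega
  · have f1 := W.left_site hm e1 hq hv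
    have f2 := W.right_site hm e2 hq hv'
    omega
  · have f1 := W.left_site hm e1 hq hv
    have f2 := W.right_site hm e2 hq hv'
    omega
  · have f1 := W.left_site hm e2 hq hv'
    have f2 := W.right_site hm e1 hq hv
    omega
  · have f1 := W.left_site hm e2 hq hv'
    have f2 := W.right_site hm e1 hq hv
    omega
  · have f1 := W.left_site hm e3 hq hv''
    have f2 := W.right_site hm e1 hq hv
    omega
  · rcases e1 with e1 | e1 <;> rcases e2 with e2 | e2 <;> rcases e3 with e3 | e3 <;>
      rw [e1, e2, e3] <;> simp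

/-- the context `HT` from the rows -/
theorem Red.toHT (R : Red P i K psi) (H : Gr P r) (hi : i ≤ r) (hκ : Split (i + 1) κ)
    (hs : ∀ a : ι, Small i κ a ∨ ∃ (m : ℕ) (x : ℕ → P) (c : ℕ → ℤ) (β : ℤ),
      Row i κ a m x c β ∧ Pat6 m c β) : HT r i K psi := by
  refine ⟨R.toHS H hi hκ hs, R, ?_⟩
  intro k hk k' hk' k'' hk'' h1 h2 h3 v hv hv' hv''
  have e := kap_ns H hκ (R.sub hk) hv
  have e' := kap_ns H hκ (R.sub hk') hv'
  have e'' := kap_ns H hκ (R.sub hk'') hv''
  rcases hs (κ v) with h4 | ⟨m, w, c, β, W, hp⟩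
  · exact R.three_of_small H hκ h4 hk hk' hk'' e.symm e'.symm e''.symm h1 h2 h3 hv hv' hv''
  · exact W.three6 R H hκ hp hk hk' hk'' e.symm e'.symm e''.symm hv hv' hv''

/-- at most one star meets `T` -/
lemma HS.Ek2_zero (h : HS r i K psi)
    (hT : ∀ k ∈ K, ∀ k' ∈ K, ¬ Disjoint (ns i k) T → ¬ Disjoint (ns i k') T →
      star i K k = star i K k') : Ek i K T 2 = 0 := by
  by_cases hex : ∃ k ∈ K, ¬ Disjoint (ns i k) T
  · obtain ⟨k, hk, hkT⟩ := hex
    exact (h.one (s := star i K k) (fun x hx hxT => hT x hx k hk hxT hkT)).2.2 2 le_rfl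
  · push Not at hex
    exact (h.none hex).2 2 (by norm_num)

/-- a small component -/
lemma Red.Ek2_small (R : Red P i K psi) (h : HS r i K psi) (hκ : Split (i + 1) κ)
    (hs : Small i κ a) (hT : ∀ v ∈ T, κ v = a) : Ek i K T 2 = 0 := by
  refine h.Ek2_zero ?_
  intro k hk k' hk' hkT hkT'
  have key : ∀ k ∈ K, ¬ Disjoint (ns i k) T → κ k = a := by
    intro k hk hkT
    obtain ⟨v, hv, hvT⟩ := not_disjoint_iff.1 hkT
    rw [← kap_ns h.H hκ (R.sub hk) hv]
    exact hT v hvT
  rw [h.star_eq hk hk']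
  exact R.same_of_small h.H h.hi hκ hs hk hk' (key k hk hkT) (key k' hk' hkT')

section two

variable (W : Row i κ a m x c β) (R : Red P i K psi) (h : HS r i K psi) (hκ : Split (i + 1) κ)
  (hp : Pat6 m c β)

include W R h hκ hp

/-- an unmatched element which meets the edge `p` -/
lemma Row.meet {p : ℕ} (hpm : p + 1 ≤ m) {k : P} (hk : k ∈ K)
    (hkT : ¬ Disjoint (ns i k) {x p, x (p + 1)}) :
    (x 1 ∈ ns i k ∧ p ≤ 2 ∧ (ns i k = {x 0, x 1} ∨ ns i k = {x 1, x 2})) ∨
      (x (m - 1) ∈ ns i k ∧ m ≤ p + 3 ∧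
        (ns i k = {x (m - 2), x (m - 1)} ∨ ns i k = {x (m - 1), x m})) := by
  have hm := hp.1
  obtain ⟨v, hv, hvT⟩ := not_disjoint_iff.1 hkT
  rw [mem_insert, mem_singleton] at hvT
  obtain ⟨q, hq, hqp, hvq⟩ : ∃ q, q ≤ m ∧ (q = p ∨ q = p + 1) ∧ v = x q := by
    rcases hvT with h1 | h1
    · exact ⟨p, by omega, Or.inl rfl, h1⟩
    · exact ⟨p + 1, by omega, Or.inr rfl, h1⟩
  subst hvq
  have hka : κ k = a := by
    rw [← kap_ns h.H hκ (R.sub hk) hv]
    exact W.kap q hq
  rcases W.ends4 R h.H hκ hp hk hka with e | e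
  · left
    have f := W.left_site hm e hq hv
    refine ⟨?_, by omega, e⟩
    rcases e with e | e <;> rw [e] <;> simp
  · right
    have f := W.right_site hm e hq hv
    refine ⟨?_, by omega, e⟩
    rcases e with e | e <;> rw [e] <;> simp

/-- an edge which does not meet both stars -/
lemma Row.Ek2_far {p : ℕ} (hpm : p + 1 ≤ m) (hn : ¬ (p = 2 ∧ m = 5)) :
    Ek i K {x p, x (p + 1)} 2 = 0 := by
  have hm := hp.1
  refine h.Ek2_zero ?_
  intro k hk k' hk' hkT hkT'
  rcases W.meet R h hκ hp hpm hk hkT with ⟨e1, e2, _⟩ | ⟨e1, e2, _⟩ <;>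
    rcases W.meet R h hκ hp hpm hk' hkT' with ⟨f1, f2, _⟩ | ⟨f1, f2, _⟩
  · exact h.star_site hk hk' e1 f1
  · omega
  · omega
  · exact h.star_site hk hk' e1 f1

/-- the edge between the two stars of a component with six sites -/
lemma Row.Ek2_mid (hm5 : m = 5) : Ek i K {x 2, x 3} 2 = 1 := by
  classical
  have hp' := hp
  obtain ⟨hm, hb, h0, h1, h3, h4, h5⟩ := hp'
  subst hm5
  have d01 : Df i {x 0, x 1} = 1 := by
    rw [W.df 0 1 (by omega) (by omega), if_pos rfl, h0]
  have d45 : Df i {x 4, x 5} = 1 := by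
    rw [W.df 4 5 (by omega) (by omega), if_pos rfl]
    exact h4
  obtain ⟨kL, hkL, nL⟩ := R.exists_of_Df (T := {x 0, x 1}) (by rw [d01]; norm_num)
  obtain ⟨kR, hkR, nR⟩ := R.exists_of_Df (T := {x 4, x 5}) (by rw [d45]; norm_num)
  have hinj : ∀ p q, p ≤ 5 → q ≤ 5 → x p = x q → p = q := W.inj
  have hne : star i K kL ≠ star i K kR := by
    rw [Ne, h.star_eq hkL hkR, not_not, nL, nR, disjoint_left]
    intro v hv hv'
    rw [mem_insert, mem_singleton] at hv hv'
    rcases hv with rfl | rfl <;> rcases hv' with e | e <;>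
      (have := hinj _ _ (by omega) (by omega) e; omega)
  have hJ : ∀ k ∈ K, ¬ Disjoint (ns i k) {x 2, x 3} →
      star i K k = star i K kL ∨ star i K k = star i K kR := by
    intro k hk hkT
    rcases W.meet R h hκ hp (p := 2) (by omega) hk hkT with ⟨e1, _, _⟩ | ⟨e1, _, _⟩
    · left
      exact h.star_site hk hkL e1 (by rw [nL]; simp)
    · right
      exact h.star_site hk hkR e1 (by rw [nR]; simp)
  rw [(h.two hne hJ).2.2.1]
  have sL : sst i K {x 2, x 3} (star i K kL) = 1 := by
    rw [sst_eq, ← d01, ← fib_K R.mat R.sub]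
    refine sum_congr ?_ (fun _ _ => rfl)
    refine filter_congr (fun k hk => ?_)
    constructor
    · rintro ⟨e1, e2⟩
      have e3 := (h.star_eq hk hkL).1 e1
      have hka : κ k = a := by
        rw [star_comp h.H hκ R.sub hk hkL e3, ← kap_ns h.H hκ (R.sub hkL) (v := x 0)
          (by rw [nL]; simp)]
        exact W.kap 0 (by omega)
      rcases W.ends4 R h.H hκ hp hk hka with (e4 | e4) | (e4 | e4)
      · exact e4
      · exfalso
        rw [e4, disjoint_left] at e2
        exact e2 (a := x 2) (by simp) (by simp)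
      · exfalso
        apply e3
        rw [e4, nL, disjoint_left]
        intro v hv hv'
        rw [mem_insert, mem_singleton] at hv hv'
        rcases hv with rfl | rfl <;> rcases hv' with e | e <;>
          (have := hinj _ _ (by omega) (by omega) e; omega)
      · exfalso
        apply e3
        rw [e4, nL, disjoint_left]
        intro v hv hv'
        rw [mem_insert, mem_singleton] at hv hv'
        rcases hv with rfl | rfl <;> rcases hv' with e | e <;>
          (have := hinj _ _ (by omega) (by omega) e; omega)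
    · intro e
      refine ⟨(h.star_eq hk hkL).2 ?_, ?_⟩
      · rw [e, nL]
        exact not_disjoint_iff.2 ⟨x 0, by simp, by simp⟩
      · rw [e, disjoint_left]
        intro v hv hv'
        rw [mem_insert, mem_singleton] at hv hv'
        rcases hv with rfl | rfl <;> rcases hv' with e | e <;>
          (have := hinj _ _ (by omega) (by omega) e; omega)
  have sR : sst i K {x 2, x 3} (star i K kR) = 1 := by
    rw [sst_eq, ← d45, ← fib_K R.mat R.sub]
    refine sum_congr ?_ (fun _ _ => rfl)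
    refine filter_congr (fun k hk => ?_)
    constructor
    · rintro ⟨e1, e2⟩
      have e3 := (h.star_eq hk hkR).1 e1
      have hka : κ k = a := by
        rw [star_comp h.H hκ R.sub hk hkR e3, ← kap_ns h.H hκ (R.sub hkR) (v := x 4)
          (by rw [nR]; simp)]
        exact W.kap 4 (by omega)
      rcases W.ends4 R h.H hκ hp hk hka with (e4 | e4) | (e4 | e4)
      · exfalso
        apply e3
        rw [e4, nR, disjoint_left]
        intro v hv hv'
        rw [mem_insert, mem_singleton] at hv hv'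
        rcases hv with rfl | rfl <;> rcases hv' with e | e <;>
          (have := hinj _ _ (by omega) (by omega) e; omega)
      · exfalso
        apply e3
        rw [e4, nR, disjoint_left]
        intro v hv hv'
        rw [mem_insert, mem_singleton] at hv hv'
        rcases hv with rfl | rfl <;> rcases hv' with e | e <;>
          (have := hinj _ _ (by omega) (by omega) e; omega)
      · exfalso
        rw [e4, disjoint_left] at e2
        exact e2 (a := x 3) (by simp) (by simp)
      · exact e4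
    · intro e
      refine ⟨(h.star_eq hk hkR).2 ?_, ?_⟩
      · rw [e, nR]
        exact not_disjoint_iff.2 ⟨x 4, by simp, by simp⟩
      · rw [e, disjoint_left]
        intro v hv hv'
        rw [mem_insert, mem_singleton] at hv hv'
        rcases hv with rfl | rfl <;> rcases hv' with e | e <;>
          (have := hinj _ _ (by omega) (by omega) e; omega)
  rw [sL, sR]
  norm_num

end two

end Pool.Agent.GaussPoset.EK

end

/-! From `Pool.Agent.W_448e_h97.EM` -/

section

/-! Case B: no quads (MP_448cb3_co). -/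

namespace Pool.Agent.GaussPoset.EK

set_option linter.unusedSectionVars false

open Finset Win St Polynomial Wd

universe u

variable {P : Type u} [Fintype P] [PartialOrder P] [DecidableEq P] {r i j : ℕ}

variable {m : ℕ} {x : ℕ → P} {c : ℕ → ℤ} {β : ℤ} {t : Tops P}

variable {K : Finset P} {psi : P → P} {T : Finset P}

/-- the context in case B -/
theorem NJ.HT (h : NJ P r j) (hj : 2 ≤ j) (R : Red P j K psi) : HT r j K psi := by
  refine R.toHT (κ := topOf) h.g.H (by have := h.hr; omega) h.split (fun t => ?_)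
  obtain ⟨m, x, c, β, B⟩ := NJ.rowB h hj t
  rcases B.small h.g.H h.split with h1 | h1
  · exact Or.inl h1
  · exact Or.inr ⟨m, x, c, β, B.row, h1⟩

/-- a double lower element of a component with two stars is over an edge -/
lemma RowB.dbL_edge (B : RowB P j t m x c β) (H : Gr P r) (hκ : Split (j + 1) (topOf : P → Tops P))
    (hp : Pat6 m c β) {y : P} (hy : y ∈ dbL P j) (hyt : topOf y = t) :
    ∃ p, p + 1 ≤ m ∧ uc y = {x p, x (p + 1)} := by
  have hyD : y ∈ dbL P j ∪ dbU P j := mem_union_left _ hy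
  obtain ⟨u, v, huv, hns⟩ := card_eq_two.1 (mem_dbL.1 hy).2
  have hu : u ∈ uc y := by rw [hns]; exact mem_insert_self _ _
  have hv : v ∈ uc y := by rw [hns]; exact mem_insert_of_mem (mem_singleton_self _)
  have hu' : u ∈ ns j y := by rw [ns_L hy]; exact hu
  have hv' : v ∈ ns j y := by rw [ns_L hy]; exact hv
  obtain ⟨p, hp1, rfl⟩ := B.row.surj u (kap_ns' H hκ hyD hu').2 ((kap_ns' H hκ hyD hu').1.trans hyt)
  obtain ⟨q, hq1, rfl⟩ := B.row.surj v (kap_ns' H hκ hyD hv').2 ((kap_ns' H hκ hyD hv').1.trans hyt)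
  have hpq : p ≠ q := by
    rintro rfl
    exact huv rfl
  have hβ : β = 0 := hp.2.1
  have key : ∀ p q, p < q → q ≤ m → x p ∈ uc y → x q ∈ uc y → q = p + 1 := by
    intro p q hpq hq hpy hqy
    by_contra hne
    have h1 := B.row.df p q hpq hq
    rw [if_neg hne, hβ, ite_self] at h1
    have hne' : x p ≠ x q := fun h2 => by
      have := B.row.inj p q (by omega) hq h2
      omega
    rw [Df_pair H (B.row.lev_x p (by omega)) hne'] at h1
    have h2 := B.ucv_x p q hpq hq
    rw [if_neg hne] at h2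
    have h3 := StA_dcv_pos (mem_uc.1 hpy) (mem_uc.1 hqy)
    omega
  rcases Nat.lt_or_ge p q with h1 | h1
  · have h2 := key p q h1 hq1 hu hv
    subst h2
    exact ⟨p, hq1, hns⟩
  · have h2 := key q p (by omega) hp1 hv hu
    subst h2
    exact ⟨q, hp1, by rw [hns, pair_comm]⟩

/-- a double upper element is over an edge -/
lemma RowB.dbU_edge (B : RowB P j t m x c β) (H : Gr P r) (hκ : Split (j + 1) (topOf : P → Tops P))
    {y : P} (hy : y ∈ dbU P j) (hyt : topOf y = t) :
    ∃ p, p + 1 ≤ m ∧ dc y = {x p, x (p + 1)} := by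
  have hyD : y ∈ dbL P j ∪ dbU P j := mem_union_right _ hy
  obtain ⟨u, v, huv, hns⟩ := card_eq_two.1 (mem_dbU.1 hy).2
  have hu : u ∈ dc y := by rw [hns]; exact mem_insert_self _ _
  have hv : v ∈ dc y := by rw [hns]; exact mem_insert_of_mem (mem_singleton_self _)
  have hu' : u ∈ ns j y := by rw [ns_U hy]; exact hu
  have hv' : v ∈ ns j y := by rw [ns_U hy]; exact hv
  obtain ⟨p, hp1, rfl⟩ := B.row.surj u (kap_ns' H hκ hyD hu').2 ((kap_ns' H hκ hyD hu').1.trans hyt)
  obtain ⟨q, hq1, rfl⟩ := B.row.surj v (kap_ns' H hκ hyD hv').2 ((kap_ns' H hκ hyD hv').1.trans hyt)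
  have hpq : p ≠ q := by
    rintro rfl
    exact huv rfl
  have key : ∀ p q, p < q → q ≤ m → x p ∈ dc y → x q ∈ dc y → q = p + 1 := by
    intro p q hpq hq hpy hqy
    by_contra hne
    have h2 := B.ucv_x p q hpq hq
    rw [if_neg hne] at h2
    have h3 := StA_ucv_pos (mem_dc.1 hpy) (mem_dc.1 hqy)
    omega
  rcases Nat.lt_or_ge p q with h1 | h1
  · have h2 := key p q h1 hq1 hu hv
    subst h2
    exact ⟨p, hq1, hns⟩
  · have h2 := key q p (by omega) hp1 hv hu
    subst h2
    exact ⟨q, hp1, by rw [hns, pair_comm]⟩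

section main

variable (h : NJ P r j) (hj : 2 ≤ j) (R : Red P j K psi)

include h hj R

/-- the value of a pendant -/
lemma NJ.pd_val {w : P} (hw : w ∈ dbL P j) : 0 ≤ Ek j K (uc w) 2 ∧
    ∀ (m : ℕ) (x : ℕ → P) (c : ℕ → ℤ) (β : ℤ), RowB P j (topOf w) m x c β → Pat6 m c β → m = 5 →
      uc w = {x 2, x 3} → Ek j K (uc w) 2 = 1 := by
  have hT := NJ.HT h hj R
  have hwD : w ∈ dbL P j ∪ dbU P j := mem_union_left _ hw
  refine ⟨?_, ?_⟩
  · obtain ⟨m, x, c, β, B⟩ := NJ.rowB h hj (topOf w)
    rcases B.small h.g.H h.split with h1 | h1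
    · refine (R.Ek2_small hT.hs h.split h1 ?_).ge
      intro v hv
      rw [← ns_L hw] at hv
      exact kap_ns h.g.H h.split hwD hv
    · obtain ⟨p, hp, he⟩ := B.dbL_edge h.g.H h.split h1 hw rfl
      rw [he]
      by_cases h2 : p = 2 ∧ m = 5
      · obtain ⟨rfl, h3⟩ := h2
        rw [B.row.Ek2_mid R hT.hs h.split h1 h3]
        norm_num
      · exact (B.row.Ek2_far R hT.hs h.split h1 hp h2).ge
  · intro m x c β B h1 h3 he
    rw [he]
    exact B.row.Ek2_mid R hT.hs h.split h1 h3

/-- the value of an upper pendant -/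
lemma NJ.pu_val {z u : P} (hz : z ∈ PU P j) (hu : u ⋖ z) (hu2 : (dc u).card = 2) :
    Ek j K (dc u) 2 = 0 := by
  have hT := NJ.HT h hj R
  obtain ⟨h1, h2, _⟩ := Win.mem_PU.1 hz
  have hl := lev_cov h.g.H hu
  have hw : u ∈ dbU P j := mem_dbU.2 ⟨by omega, hu2⟩
  have hwD : u ∈ dbL P j ∪ dbU P j := mem_union_right _ hw
  obtain ⟨m, x, c, β, B⟩ := NJ.rowB h hj (topOf u)
  rcases B.small h.g.H h.split with h3 | h3
  · refine R.Ek2_small hT.hs h.split h3 ?_
    intro v hv
    rw [← ns_U hw] at hv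
    exact kap_ns h.g.H h.split hwD hv
  · obtain ⟨p, hp, he⟩ := B.dbU_edge h.g.H h.split hw rfl
    rw [he]
    refine B.row.Ek2_far R hT.hs h.split h3 hp ?_
    rintro ⟨rfl, h4⟩
    have h5 : x 2 ∈ dc u := by rw [he]; exact mem_insert_self _ _
    have h6 : x (2 + 1) ∈ dc u := by rw [he]; exact mem_insert_of_mem (mem_singleton_self _)
    have h7 := B.pu 2 (by omega) (by omega) u (mem_dc.1 h5) (mem_dc.1 h6) z hu
    omega

/-- NO QUADS in case B, and no pendant between the two stars of a component with six sites -/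
theorem NJ.quads_aux : T6N.QD P j = ∅ ∧ ∀ z ∈ PD P j, ∀ w, z ⋖ w → (uc w).card = 2 →
    Ek j K (uc w) 2 = 0 := by
  have hT := NJ.HT h hj R
  have h3 : ∀ x : P, lev x + 2 = j → dn j x ≤ 3 := by
    intro x hx
    have h4 := dn_le_three h.g.H (k := lev x) (h.g.good (lev x + 1) (by omega)) rfl
    rw [hx] at h4
    exact h4
  have hc := hT.card_QD h3
  have hPU : ∑ z ∈ PU P j, Ek j K ((dc z).biUnion (ns j)) 2 = 0 := by
    refine sum_eq_zero (fun z hz => ?_)
    obtain ⟨h1, h2, u, hu, hu2⟩ := Win.mem_PU.1 hz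
    have hl := lev_cov h.g.H hu
    have hw : u ∈ dbU P j := mem_dbU.2 ⟨by omega, hu2⟩
    obtain ⟨u', hu'⟩ := card_eq_one.1 h2
    have h6 : u = u' := by
      have : u ∈ dc z := mem_dc.2 hu
      rw [hu', mem_singleton] at this
      exact this
    subst h6
    rw [hu', singleton_biUnion, ns_U hw]
    exact NJ.pu_val h hj R hz hu hu2
  have hPD : ∀ z ∈ PD P j, 0 ≤ Ek j K ((uc z).biUnion (ns j)) 2 := by
    intro z hz
    obtain ⟨h1, h2, w, hw, hw2⟩ := Win.mem_PD.1 hz
    have hl := lev_cov h.g.H hw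
    rw [T6N.PD_site hz hw h.g.H]
    exact (NJ.pd_val h hj R (mem_dbL.2 ⟨by omega, hw2⟩)).1
  have hsum := sum_nonneg hPD
  rw [hPU, add_zero] at hc
  have hcard : ((T6N.QD P j).card : ℤ) = 0 := by
    have : (0 : ℤ) ≤ (T6N.QD P j).card := by positivity
    linarith
  have hzero : ∑ z ∈ PD P j, Ek j K ((uc z).biUnion (ns j)) 2 = 0 := by linarith
  refine ⟨card_eq_zero.1 (by exact_mod_cast hcard), ?_⟩
  intro z hz w hw hw2
  have h5 := (sum_eq_zero_iff_of_nonneg hPD).1 hzero z hz
  rw [T6N.PD_site hz hw h.g.H] at h5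
  exact h5

end main

/-- NO QUADS in case B -/
theorem NJ.QD_empty (h : NJ P r j) (hj : 2 ≤ j) : T6N.QD P j = ∅ := by
  obtain ⟨K, psi, R⟩ := exists_red P j
  exact (NJ.quads_aux h hj R).1

/-- no pendant between the two stars of a component with six sites -/
theorem NJ.no_mid (h : NJ P r j) (hj : 2 ≤ j) (B : RowB P j t m x c β) (hp : Pat6 m c β)
    (hm : m = 5) {w : P} (hw : uc w = {x 2, x 3}) : pen w = ∅ := by
  obtain ⟨K, psi, R⟩ := exists_red P j
  have hne : x 2 ≠ x 3 := fun h2 => by
    have := B.row.inj 2 3 (by omega) (by omega) h2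
    omega
  have hc : (uc w).card = 2 := by rw [hw, card_pair hne]
  have hx : w ⋖ x 2 := by
    rw [← mem_uc, hw]
    exact mem_insert_self _ _
  have hl := lev_cov h.g.H hx
  have hl2 := B.row.lev_x 2 (by omega)
  have hwL : w ∈ dbL P j := mem_dbL.2 ⟨by omega, hc⟩
  have htop : topOf w = t := by
    rw [← B.row.kap 2 (by omega)]
    exact h.split hx (by omega)
  rw [eq_empty_iff_forall_notMem]
  intro z hz
  obtain ⟨h1, h2⟩ := mem_pen.1 hz
  have hlz := lev_cov h.g.H h1
  have hPD : z ∈ PD P j := Win.mem_PD.2 ⟨by omega, h2, w, h1, hc⟩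
  have h4 := (NJ.quads_aux h hj R).2 z hPD w h1 hc
  have h5 := (NJ.pd_val h hj R hwL).2 m x c β (by rw [htop]; exact B) hp hm hw
  omega

/-- NO QUADS in case B, form `NoQ` -/
theorem NJ.noQ (h : NJ P r j) (hj : 2 ≤ j) : K2.NoQ P (j + 2) := by
  intro z hz y hy y' hy' hne h2 h2'
  by_contra hcon
  push Not at hcon
  have he := NJ.QD_empty h hj
  have hl := lev_cov h.g.H (mem_uc.1 hy)
  have hl' := lev_cov h.g.H (mem_uc.1 hy')
  have hd : y ∈ dbL P j := mem_dbL.2 ⟨by omega, h2⟩
  have hd' : y' ∈ dbL P j := mem_dbL.2 ⟨by omega, h2'⟩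
  have hpair : uc z = {y, y'} := by
    symm
    apply eq_of_subset_of_card_le
    · intro w hw
      rw [mem_insert, mem_singleton] at hw
      rcases hw with rfl | rfl
      · exact hy
      · exact hy'
    · rw [card_pair hne]
      exact uc_card_le h.g.H z
  have hdis : Disjoint (uc y) (uc y') := by
    rw [disjoint_left]
    intro v hv hv'
    exact hcon v hv hv'
  have hmem : z ∈ T6N.QD P j := by
    rw [T6N.mem_QD]
    refine ⟨hz, by rw [hpair, card_pair hne], ?_⟩
    rw [hpair]
    refine ⟨?_, ?_⟩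
    · intro w hw
      rw [mem_insert, mem_singleton] at hw
      rcases hw with rfl | rfl
      · exact mem_union_left _ hd
      · exact mem_union_left _ hd'
    · intro w hw w' hw' hww
      rw [mem_insert, mem_singleton] at hw hw'
      rcases hw with rfl | rfl <;> rcases hw' with rfl | rfl
      · exact absurd rfl hww
      · rw [ns_L hd, ns_L hd']
        exact hdis
      · rw [ns_L hd, ns_L hd']
        exact hdis.symm
      · exact absurd rfl hww
  rw [he] at hmem
  exact notMem_empty _ hmem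

end Pool.Agent.GaussPoset.EK

end

/-! From `Pool.Agent.W_448pb_h63.PbD` -/

section

/-!
Per class identities at the window j (MP_448cb3_co, case B): weighted sums, with a weight which is
constant along the joins of a double and a single element.
-/

namespace Pool.Agent.GaussPoset.Win.K2

set_option linter.unusedSectionVars false

open Finset I2

universe u

variable {P : Type u} [Fintype P] [PartialOrder P] [DecidableEq P] {r i : ℕ} {e : P → ℕ}

variable {ι : Type*} [DecidableEq ι] {κ : P → ι} {K : Finset P} {psi : P → P}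

end Pool.Agent.GaussPoset.Win.K2

namespace Pool.Agent.GaussPoset.EK

set_option linter.unusedSectionVars false

open Finset Win St Polynomial Wd

universe u

variable {P : Type u} [Fintype P] [PartialOrder P] [DecidableEq P] {r j : ℕ}

variable {K : Finset P} {psi : P → P}

/-- there is no component with two stars -/
def No6 (P : Type u) [Fintype P] [PartialOrder P] [DecidableEq P] (j : ℕ) : Prop :=
  ∀ (t : Tops P) (m : ℕ) (x : ℕ → P) (c : ℕ → ℤ) (β : ℤ), RowB P j t m x c β → ¬ Pat6 m c β

section main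

variable (h : NJ P r j) (hj : 2 ≤ j) (R : Red P j K psi) (h6 : No6 P j)

include h hj h6

/-- without two stars every component is small -/
theorem NJ.small_all (t : Tops P) : Small j (topOf : P → Tops P) t := by
  obtain ⟨m, x, c, β, B⟩ := NJ.rowB h hj t
  exact (B.small h.g.H h.split).resolve_right (h6 t m x c β B)

include R

end main

end Pool.Agent.GaussPoset.EK

end
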