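import Mathlib
import Pool.Agent.W_448zz_h61.Ns
import Pool.Agent.W_448zz_h61.M149
import Pool.Agent.W_448zz_h61.M150
import Pool.Agent.W_448zz_h61.M159
import Pool.Agent.W_448zz_h61.M161

/-! From `Pool.Agent.W_448xc_h84.XgM` -/

section

/-!
# The general exchange (MP_448cb3_co): exchangeable places of a core with a guard site

The proofs of `n4L_place`, `n4U_place` are those of helper10's `n4L_child`, `n4U_child` (RdJ);
`half_farX` is helper61's `half_far` (RhA).
-/

namespace Pool.Agent.GaussPoset.Win.Rd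

set_option linter.unusedSectionVars false

open Finset I2 K2 Xg
open Pool.Agent.GaussPoset.Win.H2 (SdT NoT low_T up_T sum_all)

universe u

variable {P : Type u} [Fintype P] [PartialOrder P] [DecidableEq P] {r i : ℕ} {e : P → ℕ}
variable {psi : P → P}
section half

/-- THE HALF OF THE INEQUALITY FOR CORES, with one more for a far element -/
theorem half_farX (H : Gr P r) (hir : i ≤ r) (hq : NoQ P (i + 2))
    (hg : ∀ m, m + 1 = i → Good P m) (hM : Mat P i ∅ psi)
    (hL : AdmL i e) (hU : AdmU i e) (hd : Disjoint (AL i e) (AU i e))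
    (hc : IsCore i ∅ psi e) {δ : ℕ}
    (hδ : δ = 0 ∨ δ = 1 ∧ ∃ z : P, (i + 3 ≤ lev z ∨ lev z + 3 ≤ i) ∧ 1 ≤ e z) :
    2 * (((AL i e).card : ℤ) + (AU i e).card) + δ ≤
      ∑ x, (e x : ℤ) + 2 * ((pL i e : ℤ) + pU i e) := by
  classical
  have hps : W4.ps (∅ : Finset P) psi = psi := by
    funext x
    unfold W4.ps
    rw [if_neg (notMem_empty x)]
  obtain ⟨XL, XU, hXL, hXU, h⟩ := main_K hM H hir hq hg hL hU hd hδ
  have h1 : K2.SK i (∅ : Finset P) psi e = ∅ := Pa.core_SK hM (by rw [hps]; exact hc)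
  have h2 : K2.KB i (∅ : Finset P) e = ∅ := by
    rw [eq_empty_iff_forall_notMem]
    intro y hy
    rw [mem_KB] at hy
    exact notMem_empty y hy.1
  rw [h1, h2, card_empty] at h
  have h3 : Disjoint XL XU := by
    rw [disjoint_left]
    intro x hx hx'
    obtain ⟨a1, a2, ⟨y, hy⟩, a3⟩ := hXL x hx
    obtain ⟨b1, b2, b3, b4⟩ := hXU x hx'
    obtain ⟨hyb, -⟩ := a3 y hy
    obtain ⟨k1, k2⟩ := mem_bL hM H hq hyb
    obtain ⟨p1, p2, p3, p4⟩ := psi_low hM k1 (notMem_empty _)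
    have h5 : psi y ∈ uc x := by
      rw [mem_uc, ← mem_dc, p2, mem_uc, ← mem_dc]
      exact hy
    obtain ⟨hpb, -⟩ := b4 _ h5
    obtain ⟨m1, m2⟩ := mem_bU hM H hir hg hpb
    unfold bL at hyb
    rw [mem_bd] at hyb
    obtain ⟨-, -, -, ⟨a, ha, hlt⟩, -⟩ := hyb
    have hla := lev_uc H ha
    have hly := mem_dbL.1 k1
    refine not_both (e := e) hd (x := a) (by omega) (mem_dc.2 (mem_uc.1 ha))
      (u := psi y) (by rw [mem_uc, ← mem_dc, p2]; exact ha) ⟨by omega, by omega⟩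
  have h4 : XL.card + XU.card ≤ ∑ x ∈ lv P i, e x := by
    rw [← card_union_of_disjoint h3]
    have h5 : XL ∪ XU ⊆ lv P i := by
      intro x hx
      rw [mem_union] at hx
      rw [mem_lv]
      rcases hx with hx | hx
      · exact (hXL x hx).1
      · exact (hXU x hx).1
    refine le_trans ?_ (sum_le_sum_of_subset h5)
    rw [card_eq_sum_ones]
    apply sum_le_sum
    intro x hx
    rw [mem_union] at hx
    rcases hx with hx | hx
    · exact (hXL x hx).2.1
    · exact (hXU x hx).2.1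
  have h6 := sum_all (i := i) e
  have h7 : (2 * (((AL i e).card : ℤ) + (AU i e).card) + δ) ≤
      ∑ x ∈ lS P i, (e x : ℤ) + ∑ x ∈ uS P i, (e x : ℤ) + 2 * ((pL i e : ℤ) + pU i e) +
        XL.card + XU.card := by
    have := h
    simp only [add_zero] at this
    exact_mod_cast this
  have h8 : ((XL.card : ℤ) + XU.card) ≤ ∑ x ∈ lv P i, (e x : ℤ) := by exact_mod_cast h4
  rw [h6]
  linarith

/-- the half of the inequality for cores, a far element is positive -/
theorem half_oneX (G : GoodTo P r (i + 1)) (hT : NoT P (i + 2)) (hM : Mat P i ∅ psi)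
    (hL : AdmL i e) (hU : AdmU i e) (hd : Disjoint (AL i e) (AU i e))
    (hc : IsCore i ∅ psi e) {z : P} (hz : i + 3 ≤ lev z ∨ lev z + 3 ≤ i) (h1 : 1 ≤ e z) :
    2 * (((AL i e).card : ℤ) + (AU i e).card) + 1 ≤
      ∑ x, (e x : ℤ) + 2 * ((pL i e : ℤ) + pU i e) := by
  have := half_farX G.H (by have := G.hr; omega) hT.noQ (fun m hm => G.good m (by omega)) hM hL hU
    hd hc (δ := 1) (Or.inr ⟨rfl, z, hz, h1⟩)
  simpa using this

end half

variable (G : GoodTo P r (i + 1)) (hT : NoT P (i + 2)) (hQ : NoQ P (i + 3)) (hM : Mat P i ∅ psi)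
  (hL : AdmL i e) (hU : AdmU i e) (hd : Disjoint (AL i e) (AU i e)) (hc : IsCore i ∅ psi e)

include G hT hQ hM hL hU hd hc in
/-- two elements of `N4L` with a common positive child give an exchangeable place -/
lemma n4L_place {y y' z : P} (hy : y ∈ N4L i psi e) (hy' : y' ∈ N4L i psi e) (hne : y ≠ y')
    (hz : z ∈ dc y) (hz' : z ∈ dc y') (h1 : 1 ≤ e z) : ∃ d x, Xg.CanD i e d x ∧ e d ≤ e x := by
  classical
  have HL := hypL G hT hQ hM hL hU hd hc
  obtain ⟨o, x, hox, hcy, ey, eo, ex, hso⟩ := HL.n4_spec hy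
  obtain ⟨o', x', hox', hcy', ey', eo', ex', hso'⟩ := HL.n4_spec hy'
  obtain ⟨⟨ly, cy⟩, yB, -, -⟩ := mem_N4L' hy
  obtain ⟨⟨ly', cy'⟩, yB', -, -⟩ := mem_N4L' hy'
  have yS : y ∈ lS P i := mem_lS.2 (by omega)
  have yS' : y' ∈ lS P i := mem_lS.2 (by omega)
  obtain ⟨zS, tz, yz⟩ := HL.ch yS hz
  obtain ⟨-, -, yz'⟩ := HL.ch yS' hz'
  -- among the twins choose the one of smallest rank
  obtain ⟨d, hd1, hmin⟩ : ∃ d, (uc d = {y, y'} ∧ 1 ≤ e d) ∧
      ∀ d', (uc d' = {y, y'} ∧ 1 ≤ e d') → Xg.rk d ≤ Xg.rk d' := by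
    have hcz : uc z = {y, y'} := pair_eq_of (uc_card_le G.H z) yz yz' hne
    have hne' : ((univ : Finset P).filter (fun d => uc d = {y, y'} ∧ 1 ≤ e d)).Nonempty :=
      ⟨z, mem_filter.2 ⟨mem_univ _, hcz, h1⟩⟩
    obtain ⟨d, hd, hm⟩ := exists_min_image _ Xg.rk hne'
    exact ⟨d, (mem_filter.1 hd).2, fun d' hd' => hm d' (mem_filter.2 ⟨mem_univ _, hd'⟩)⟩
  obtain ⟨hcd, ed⟩ := hd1
  have yd : y ∈ uc d := by rw [hcd]; simp
  have yd' : y' ∈ uc d := by rw [hcd]; simp
  have ld := lev_uc G.H yd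
  have hDJ : DJ uc (fun x : P => lev x - i) (lS P i) d := by
    refine ⟨mem_lS.2 (by omega), ?_, by rw [hcd, card_pair hne], ?_⟩
    · show lev d - i = 2
      omega
    · intro w hw
      rw [hcd, mem_insert, mem_singleton] at hw
      rcases hw with rfl | rfl <;> assumption
  obtain ⟨w2, p, x0, q, T⟩ := HL.ts hDJ yd
  have hw2 : w2 = y' := by
    have h2 : w2 ∈ uc d := by rw [T.cz]; simp
    rw [hcd, mem_insert, mem_singleton] at h2
    rcases h2 with h2 | h2
    · exact absurd h2.symm T.ne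
    · exact h2
  subst hw2
  -- the common site is the guard of both
  have hx0 : x0 = x ∧ p = o := by
    have hx0y : x0 ∈ uc y := T.x_mem HL
    have hpy : p ∈ uc y := T.p_mem HL
    rw [hcy, mem_insert, mem_singleton] at hx0y hpy
    rcases hx0y with h | h
    · exfalso
      subst h
      have := hso w2 (by rw [T.dx]; simp) T.ne.symm
      omega
    · refine ⟨h, ?_⟩
      rcases hpy with h2 | h2
      · exact h2
      · exact absurd (h2.trans h.symm) T.px
  have hq : x0 = x' ∧ q = o' := by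
    have hx0y : x0 ∈ uc w2 := T.symm.x_mem HL
    have hpy : q ∈ uc w2 := T.symm.p_mem HL
    rw [hcy', mem_insert, mem_singleton] at hx0y hpy
    rcases hx0y with h | h
    · exfalso
      subst h
      have := hso' y (by rw [T.dx]; simp) T.ne
      omega
    · refine ⟨h, ?_⟩
      rcases hpy with h2 | h2
      · exact h2
      · exact absurd (h2.trans h.symm) T.xq.symm
  have ed1 : e d ≤ 1 := by
    have := HL.le_of_gu yS (T.z_mem HL) (a := x) (by rw [hcy]; simp) (by omega)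
    omega
  obtain ⟨p1, p2, p3⟩ := psiL hM ly cy
  obtain ⟨q1, q2, q3⟩ := psiL hM ly' cy'
  have g1 : e (psi y) = 0 := by
    by_contra h
    exact yB (mem_BGL.2 ⟨⟨by omega, cy⟩, by omega, by omega⟩)
  have g2 : e (psi w2) = 0 := by
    by_contra h
    exact yB' (mem_BGL.2 ⟨⟨by omega, cy'⟩, by omega, by omega⟩)
  have m1 : psi y ∈ uc x0 := by
    rw [mem_uc, ← mem_dc, p2]
    exact T.x_mem HL
  have m2 : psi w2 ∈ uc x0 := by
    rw [mem_uc, ← mem_dc, q2]
    exact T.symm.x_mem HL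
  have hne2 : psi y ≠ psi w2 := by
    intro h
    apply T.ne
    rw [← p3, ← q3, h]
  have hux : uc x0 = {psi y, psi w2} := pair_eq_of (uc_card_le G.H x0) m1 m2 hne2
  have hu0 : ∀ u ∈ uc x0, e u = 0 := by
    intro u hu
    rw [hux, mem_insert, mem_singleton] at hu
    rcases hu with rfl | rfl <;> assumption
  have htz : lev d = i + 2 := by omega
  have TT : Tee dc uc (laL i) d y w2 p x0 q :=
    ⟨by unfold laL; omega, T.cz, T.cw, T.cw2, T.dx, T.ne, T.px, T.xq, T.pq⟩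
  have hgd : ∀ a ∈ dc d, e a ≤ e d := by
    intro a ha
    exact HL.le_of_gu T.zS ha (a := y) yd (by omega)
  have kids : ∀ w : P, w ∈ lS P i → (∃ a ∈ uc w, e w ≤ e a) → ∀ d' ∈ dc w, e d' ≤ e w := by
    rintro w hw ⟨a, ha, hle⟩ d' hd'
    exact HL.le_of_gu hw hd' ha hle
  have EE : Exo dc uc d y w2 p x0 q e := by
    refine ⟨ed, ?_, ?_, ?_, ?_, ?_⟩
    · intro a ha
      have := hgd a ha
      omega
    · intro u hu
      rw [hu0 u hu]
      omega
    · right
      refine ⟨fun d' hd' _ => kids y yS ⟨x, by rw [hcy]; simp, by omega⟩ d' hd', ?_⟩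
      rw [hx0.2]
      omega
    · right
      refine ⟨fun d' hd' _ => kids w2 yS' ⟨x', by rw [hcy']; simp, by omega⟩ d' hd', ?_⟩
      rw [hq.2]
      omega
    · left
      right
      rw [hx0.1]
      omega
  refine ⟨d, x0, ?_, by rw [hx0.1]; omega⟩
  left
  refine ⟨y, w2, p, q, TT, EE, ?_⟩
  intro d' hd' hrk
  by_contra h0
  have h9 := hmin d' ⟨hd', by omega⟩
  have h10 : Xg.rk d' < Xg.rk d := hrk
  omega

include G hT hQ hM hL hU hd hc in
/-- the same above the window -/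
lemma n4U_place {y y' z : P} (hy : y ∈ N4U i psi e) (hy' : y' ∈ N4U i psi e) (hne : y ≠ y')
    (hz : z ∈ uc y) (hz' : z ∈ uc y') (h1 : 1 ≤ e z) : ∃ d x, Xg.CanD i e d x ∧ e d ≤ e x := by
  classical
  have HU := hypU G hT hM hL hU hd hc
  obtain ⟨o, x, hox, hcy, ey, eo, ex, hso⟩ := HU.n4_spec hy
  obtain ⟨o', x', hox', hcy', ey', eo', ex', hso'⟩ := HU.n4_spec hy'
  obtain ⟨⟨ly, cy⟩, yB, -, -⟩ := mem_N4U' hy
  obtain ⟨⟨ly', cy'⟩, yB', -, -⟩ := mem_N4U' hy'
  have yS : y ∈ uS P i := mem_uS.2 (by omega)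
  have yS' : y' ∈ uS P i := mem_uS.2 (by omega)
  obtain ⟨zS, tz, yz⟩ := HU.ch yS hz
  obtain ⟨-, -, yz'⟩ := HU.ch yS' hz'
  obtain ⟨d, hd1, hmin⟩ : ∃ d, (dc d = {y, y'} ∧ 1 ≤ e d) ∧
      ∀ d', (dc d' = {y, y'} ∧ 1 ≤ e d') → Xg.rk d ≤ Xg.rk d' := by
    have hcz : dc z = {y, y'} := pair_eq_of (dc_card_le G.H z) yz yz' hne
    have hne' : ((univ : Finset P).filter (fun d => dc d = {y, y'} ∧ 1 ≤ e d)).Nonempty :=
      ⟨z, mem_filter.2 ⟨mem_univ _, hcz, h1⟩⟩
    obtain ⟨d, hd, hm⟩ := exists_min_image _ Xg.rk hne'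
    exact ⟨d, (mem_filter.1 hd).2, fun d' hd' => hm d' (mem_filter.2 ⟨mem_univ _, hd'⟩)⟩
  obtain ⟨hcd, ed⟩ := hd1
  have yd : y ∈ dc d := by rw [hcd]; simp
  have yd' : y' ∈ dc d := by rw [hcd]; simp
  have ld := lev_dc G.H yd
  have hDJ : DJ dc (fun x : P => i - lev x) (uS P i) d := by
    refine ⟨mem_uS.2 (by omega), ?_, by rw [hcd, card_pair hne], ?_⟩
    · show i - lev d = 2
      omega
    · intro w hw
      rw [hcd, mem_insert, mem_singleton] at hw
      rcases hw with rfl | rfl <;> assumption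
  obtain ⟨w2, p, x0, q, T⟩ := HU.ts hDJ yd
  have hw2 : w2 = y' := by
    have h2 : w2 ∈ dc d := by rw [T.cz]; simp
    rw [hcd, mem_insert, mem_singleton] at h2
    rcases h2 with h2 | h2
    · exact absurd h2.symm T.ne
    · exact h2
  subst hw2
  have hx0 : x0 = x ∧ p = o := by
    have hx0y : x0 ∈ dc y := T.x_mem HU
    have hpy : p ∈ dc y := T.p_mem HU
    rw [hcy, mem_insert, mem_singleton] at hx0y hpy
    rcases hx0y with h | h
    · exfalso
      subst h
      have := hso w2 (by rw [T.dx]; simp) T.ne.symm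
      omega
    · refine ⟨h, ?_⟩
      rcases hpy with h2 | h2
      · exact h2
      · exact absurd (h2.trans h.symm) T.px
  have hq : x0 = x' ∧ q = o' := by
    have hx0y : x0 ∈ dc w2 := T.symm.x_mem HU
    have hpy : q ∈ dc w2 := T.symm.p_mem HU
    rw [hcy', mem_insert, mem_singleton] at hx0y hpy
    rcases hx0y with h | h
    · exfalso
      subst h
      have := hso' y (by rw [T.dx]; simp) T.ne
      omega
    · refine ⟨h, ?_⟩
      rcases hpy with h2 | h2
      · exact h2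
      · exact absurd (h2.trans h.symm) T.xq.symm
  have ed1 : e d ≤ 1 := by
    have := HU.le_of_gu yS (T.z_mem HU) (a := x) (by rw [hcy]; simp) (by omega)
    omega
  obtain ⟨p1, p2, p3⟩ := psiU hM ly cy
  obtain ⟨q1, q2, q3⟩ := psiU hM ly' cy'
  have g1 : e (psi y) = 0 := by
    by_contra h
    exact yB (mem_BGU.2 ⟨⟨by omega, cy⟩, by omega, by omega⟩)
  have g2 : e (psi w2) = 0 := by
    by_contra h
    exact yB' (mem_BGU.2 ⟨⟨by omega, cy'⟩, by omega, by omega⟩)
  have m1 : psi y ∈ dc x0 := by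
    rw [mem_dc, ← mem_uc, p2]
    exact T.x_mem HU
  have m2 : psi w2 ∈ dc x0 := by
    rw [mem_dc, ← mem_uc, q2]
    exact T.symm.x_mem HU
  have hne2 : psi y ≠ psi w2 := by
    intro h
    apply T.ne
    rw [← p3, ← q3, h]
  have hux : dc x0 = {psi y, psi w2} := pair_eq_of (dc_card_le G.H x0) m1 m2 hne2
  have hu0 : ∀ u ∈ dc x0, e u = 0 := by
    intro u hu
    rw [hux, mem_insert, mem_singleton] at hu
    rcases hu with rfl | rfl <;> assumption
  have htz : lev d + 2 = i := by omega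
  have TT : Tee uc dc (laU i) d y w2 p x0 q :=
    ⟨by unfold laU; omega, T.cz, T.cw, T.cw2, T.dx, T.ne, T.px, T.xq, T.pq⟩
  have hgd : ∀ a ∈ uc d, e a ≤ e d := by
    intro a ha
    exact HU.le_of_gu T.zS ha (a := y) yd (by omega)
  have kids : ∀ w : P, w ∈ uS P i → (∃ a ∈ dc w, e w ≤ e a) → ∀ d' ∈ uc w, e d' ≤ e w := by
    rintro w hw ⟨a, ha, hle⟩ d' hd'
    exact HU.le_of_gu hw hd' ha hle
  have EE : Exo uc dc d y w2 p x0 q e := by
    refine ⟨ed, ?_, ?_, ?_, ?_, ?_⟩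
    · intro a ha
      have := hgd a ha
      omega
    · intro u hu
      rw [hu0 u hu]
      omega
    · right
      refine ⟨fun d' hd' _ => kids y yS ⟨x, by rw [hcy]; simp, by omega⟩ d' hd', ?_⟩
      rw [hx0.2]
      omega
    · right
      refine ⟨fun d' hd' _ => kids w2 yS' ⟨x', by rw [hcy']; simp, by omega⟩ d' hd', ?_⟩
      rw [hq.2]
      omega
    · left
      right
      rw [hx0.1]
      omega
  refine ⟨d, x0, ?_, by rw [hx0.1]; omega⟩
  right
  refine ⟨y, w2, p, q, TT, EE, ?_⟩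
  intro d' hd' hrk
  by_contra h0
  have h9 := hmin d' ⟨hd', by omega⟩
  have h10 : Xg.rk d' < Xg.rk d := hrk
  omega

end Pool.Agent.GaussPoset.Win.Rd

end

/-! From `Pool.Agent.W_448xc_h84.XgN` -/

section

/-!
# The general exchange (MP_448cb3_co): cores with a pair of twins are not tight
-/

namespace Pool.Agent.GaussPoset.Win.Rd

set_option linter.unusedSectionVars false

open Finset I2 K2 Xg
open Pool.Agent.GaussPoset.Win.H2 (SdT NoT low_T up_T sum_all)

universe u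

variable {P : Type u} [Fintype P] [PartialOrder P] [DecidableEq P] {r i : ℕ} {e : P → ℕ}
variable {psi : P → P} {z z' : P}

/-- the data of the exact pattern -/
lemma twx_data (H : Gr P r) (hz : z ∈ TWLx i e) : ∃ z', lev z = i + 2 ∧ lev z' = i + 2 ∧
    uc z' = uc z ∧ z' ≠ z ∧ e z = 2 ∧ e z' = 1 ∧ ∀ w ∈ uc z, e w = 1 := by
  classical
  unfold TWLx TWx at hz
  rw [mem_filter, mem_lS] at hz
  obtain ⟨hzi, ⟨hD, hk, z', h1, h2, h3, h4⟩, e1, e2, e3⟩ := hz
  obtain ⟨-, tz, cz, -⟩ := hD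
  have tz' : lev z - i = 2 := tz
  obtain ⟨w, hw⟩ : (uc z).Nonempty := card_pos.1 (by omega)
  have l1 := lev_uc H hw
  have l2 := lev_uc H (h1 ▸ hw : w ∈ uc z')
  exact ⟨z', by omega, by omega, h1, h2, e1, e2 z' h1 h2, fun w hw => (e3 w hw).1⟩

/-- a core with a pair of twins (exact pattern) is not tight for the inequality of slope two -/
theorem tw_half (G : GoodTo P r (i + 1)) (hT : NoT P (i + 2)) (hM : Mat P i ∅ psi)
    (hL : AdmL i e) (hU : AdmU i e) (hd : Disjoint (AL i e) (AU i e))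
    (hc : IsCore i ∅ psi e) (hz : z ∈ TWLx i e) :
    2 * (((AL i e).card : ℤ) + (AU i e).card) + 1 ≤
      ∑ x, (e x : ℤ) + 2 * ((pL i e : ℤ) + pU i e) := by
  classical
  by_cases hA : ∃ a : P, i + 3 ≤ lev a ∧ 1 ≤ e a
  · obtain ⟨a, h1, h2⟩ := hA
    exact half_oneX G hT hM hL hU hd hc (Or.inl h1) h2
  push Not at hA
  obtain ⟨z', lz, lz', hu, hne, ez, ez', ew⟩ := twx_data G.H hz
  obtain ⟨B, hB⟩ : ∃ B : P → ℕ, B = fun a => if a = z' then 0 else e a := ⟨_, rfl⟩
  have Bz : B z' = 0 := by rw [hB]; simp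
  have Bo : ∀ a, a ≠ z' → B a = e a := fun a ha => by rw [hB]; simp [ha]
  have lu : ∀ {a b : P}, a ⋖ b → lev a = lev b + 1 := by
    intro a b h
    have := lev_uc G.H (mem_uc.2 h)
    omega
  have hFD : ∀ a, FD B a ↔ FD e a := by
    intro a
    constructor
    · rintro ⟨b, hb, hlt⟩
      have hbz : b ≠ z' := by
        rintro rfl
        rw [Bz] at hlt
        omega
      rw [Bo b hbz] at hlt
      by_cases ha : a = z'
      · subst ha
        have := hA b (by have := lu hb; omega)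
        omega
      · rw [Bo a ha] at hlt
        exact ⟨b, hb, hlt⟩
    · rintro ⟨b, hb, hlt⟩
      by_cases hbz : b = z'
      · subst hbz
        have := ew a (hu ▸ mem_uc.2 hb)
        omega
      by_cases ha : a = z'
      · subst ha
        have := hA b (by have := lu hb; omega)
        omega
      · exact ⟨b, hb, by rw [Bo a ha, Bo b hbz]; exact hlt⟩
  have hGU : ∀ a, GU B a ↔ GU e a := by
    intro a
    constructor
    · rintro ⟨y, hy, hle⟩
      by_cases ha : a = z'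
      · subst ha
        obtain ⟨w, hw⟩ : (uc z).Nonempty := by
          rw [← hu]
          exact ⟨y, mem_uc.2 hy⟩
        exact ⟨w, mem_uc.1 (hu ▸ hw), by rw [ez', ew w hw]⟩
      by_cases hyz : y = z'
      · subst hyz
        rw [Bz, Bo a ha] at hle
        exact ⟨y, hy, by omega⟩
      · rw [Bo a ha, Bo y hyz] at hle
        exact ⟨y, hy, hle⟩
    · rintro ⟨y, hy, hle⟩
      by_cases ha : a = z'
      · subst ha
        exact ⟨y, hy, by rw [Bz]; exact Nat.zero_le _⟩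
      by_cases hyz : y = z'
      · subst hyz
        have := hA a (by have := lu hy; omega)
        exact ⟨y, hy, by rw [Bo a ha]; omega⟩
      · exact ⟨y, hy, by rw [Bo a ha, Bo y hyz]; exact hle⟩
  have hFU : ∀ a : P, lev a ≤ i → (FU B a ↔ FU e a) := by
    intro a ha
    have h1 : a ≠ z' := by rintro rfl; omega
    refine exists_congr fun y => and_congr_right fun hy => ?_
    have := lu hy
    rw [Bo a h1, Bo y (by rintro rfl; omega)]
  have hGD : ∀ a : P, lev a < i → (GD B a ↔ GD e a) := by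
    intro a ha
    have h1 : a ≠ z' := by rintro rfl; omega
    refine exists_congr fun y => and_congr_right fun hy => ?_
    have := lu hy
    rw [Bo a h1, Bo y (by rintro rfl; omega)]
  have bL : AdmL i B := fun a ha => by rw [hFD, hGU]; exact hL a ha
  have bU : AdmU i B := fun a ha => by rw [hFU a ha.le, hGD a ha]; exact hU a ha
  have bAL : AL i B = AL i e := by
    unfold AL
    exact filter_congr fun a _ => hFD a
  have bAU : AU i B = AU i e := by
    unfold AU
    exact filter_congr fun a ha => hFU a (mem_lv.1 ha).le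
  have bpL : pL i B = pL i e := by
    unfold pL
    congr 1
    exact filter_congr fun a _ => by rw [hFD, hGU]
  have bpU : pU i B = pU i e := by
    unfold pU
    congr 1
    exact filter_congr fun a _ => and_congr_right fun ha => by rw [hFU a ha.le, hGD a ha]
  have hTch : ∀ a, a ∈ Tch i e → a ∈ Tch i B := by
    intro a ha
    rw [mem_Tch] at ha ⊢
    rcases ha with ⟨h1, b, hb, h2⟩ | ⟨h1, b, hb, h2⟩
    · left
      refine ⟨h1, ?_⟩
      by_cases hbz : b = z'
      · subst hbz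
        refine ⟨z, mem_uc.1 (hu ▸ mem_uc.2 hb), ?_⟩
        rw [Bo z hne.symm]
        omega
      · exact ⟨b, hb, by rw [Bo b hbz]; exact h2⟩
    · right
      refine ⟨h1, b, hb, ?_⟩
      have := lu hb
      rw [Bo b (by rintro rfl; omega)]
      exact h2
  have bC : IsCore i ∅ psi B := by
    intro a ha
    have h1 : a ∈ Rst i ∅ psi e := by
      rw [mem_Rst] at ha ⊢
      exact ⟨ha.1, ha.2.1, fun h => ha.2.2.1 (hTch a h), fun h => ha.2.2.2 ⟨h.1, hTch _ h.2⟩⟩
    have h2 := hc a h1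
    by_cases h3 : a = z'
    · rw [h3, Bz]
    · rw [Bo a h3, h2]
  have hsum : ∑ x, (e x : ℤ) = ∑ x, (B x : ℤ) + 1 := by
    have h1 : ∀ x, (e x : ℤ) = (B x : ℤ) + if x = z' then 1 else 0 := by
      intro x
      by_cases h : x = z'
      · subst h
        rw [Bz, ez', if_pos rfl]
        simp
      · rw [Bo x h, if_neg h, add_zero]
    rw [sum_congr rfl fun x _ => h1 x, sum_add_distrib, sum_ite_eq' univ z' (fun _ => (1 : ℤ)),
      if_pos (mem_univ _)]
  have h := half G hT hM bL bU (by rw [bAL, bAU]; exact hd) bC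
  rw [bAL, bAU, bpL, bpU] at h
  rw [hsum]
  linarith

end Pool.Agent.GaussPoset.Win.Rd

end

/-! From `Pool.Agent.W_448xc_h84.XgO` -/

section

/-!
# The general exchange (MP_448cb3_co): parts without pendants and parts with one matched pendant
-/

namespace Pool.Agent.GaussPoset.Win.Rd

set_option linter.unusedSectionVars false

open Finset I2 K2 Xg
open Pool.Agent.GaussPoset.Win.H2 (SdT NoT low_T up_T sum_all)

universe u

section abs

variable {P : Type u} [DecidableEq P]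
variable {c c' : P → Finset P} {e : P → ℕ} {t : P → ℕ} {V Sd BG EX : Finset P}
variable (H : Hyp c c' e t V Sd BG EX)
include H

/-- a positive child of an element of `N4` -/
lemma Hyp.n4_child {y : P} (hy : y ∈ N4 c c' e t Sd BG) : ∃ o x z, o ≠ x ∧ c y = {o, x} ∧
    e y = 1 ∧ e o = 0 ∧ 1 ≤ e x ∧ (∀ v ∈ c' o, v ≠ y → e v = 0) ∧ z ∈ c' y ∧ 1 ≤ e z ∧
    (c z = {y} ∨ ∃ w, w ≠ y ∧ w ∈ c z ∧ w ∈ c' x ∧ 1 ≤ e w) := by
  classical
  obtain ⟨o, x, hox, hc, e1, e2, e3, h4⟩ := H.n4_spec hy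
  have hy' := hy
  unfold N4 at hy'
  rw [mem_filter, mem_Dd] at hy'
  obtain ⟨⟨yS, yB, ty, cy⟩, -, -⟩ := hy'
  obtain ⟨z, hz, h1⟩ := H.touch y yS ty cy yB (by omega)
  obtain ⟨zS, tz, yz⟩ := H.ch yS hz
  refine ⟨o, x, z, hox, hc, e1, e2, e3, h4, hz, h1, ?_⟩
  by_cases hall : ∀ w ∈ c z, w = y
  · left
    ext w
    rw [mem_singleton]
    exact ⟨hall w, fun h => h ▸ yz⟩
  right
  push Not at hall
  obtain ⟨w, hw, hne⟩ := hall
  obtain ⟨wS, tw⟩ := H.cov zS (by omega) hw
  have zw : z ∈ c' w := (H.S.dual _ _).1 hw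
  have ew : 1 ≤ e w := by
    by_contra h0
    obtain ⟨a, ha⟩ := H.S.ne w wS
    exact H.adm w wS ⟨⟨z, zw, by omega⟩, a, ha, by omega⟩
  obtain ⟨a, a1, a2⟩ := H.hT z zS (by omega) y yz w hw hne.symm cy
  refine ⟨w, hne, hw, ?_, ew⟩
  rw [hc, mem_insert, mem_singleton] at a1
  rcases a1 with rfl | rfl
  · have := h4 w ((H.S.dual _ _).1 a2) hne
    omega
  · exact (H.S.dual _ _).1 a2

/-- an element of `P1s` without a second element of `P1` -/
lemma Hyp.p1s_full {y : P} (hy : y ∈ P1s c c' e t Sd BG)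
    (hu : ∀ y' ∈ P1 c c' e t Sd BG, y' = y) : ∃ o x p, o ≠ x ∧ c y = {o, x} ∧ t y = 1 ∧ y ∈ Sd ∧
    e y = 1 ∧ e o = 0 ∧ e x = 0 ∧ (∀ v ∈ c' o, v ≠ y → e v = 0) ∧ (∀ v ∈ c' x, v ≠ y → e v = 0) ∧
    p ∈ c' y ∧ e p = 1 ∧ c p = {y} ∧ (∀ z ∈ c' y, z ≠ p → e z = 0) ∧ ∀ q ∈ c' p, e q = 0 := by
  classical
  obtain ⟨hD, hN, p, hp, ep, cp, hz⟩ := H.p1_spec (P1s_sub hy)
  obtain ⟨yS, yB, ty, cy⟩ := mem_Dd.1 hD
  obtain ⟨o, x, hox, hc⟩ := card_eq_two.1 cy
  obtain ⟨a1, a2, a3, a4, a5⟩ := H.n4a_spec hD hN hc hox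
  refine ⟨o, x, p, hox, hc, ty, yS, a1, a2, a3, a4, a5, hp, ep, cp, hz, ?_⟩
  intro q hq
  by_contra h0
  obtain ⟨y', h1, h2, -⟩ := H.P1s_spec hy hp (by omega) hq (by omega)
  exact h2 (hu y' h1)

end abs

variable {P : Type u} [Fintype P] [PartialOrder P] [DecidableEq P] {r i : ℕ} {e : P → ℕ}
variable {psi : P → P} {C : Finset P} {y p w u v v' : P}

/-- no pendants -/
def NoP (i : ℕ) (C : Finset P) : Prop := ∀ q ∈ C, q ∉ PD P i ∧ q ∉ PU P i

/-- one pendant below and one above, over matched elements -/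
structure OneP (i : ℕ) (psi : P → P) (C : Finset P) (y p w u v v' : P) : Prop where
  F : FlS i y p w u v v'
  hy : psi y = w
  my : y ∈ C
  mp : p ∈ C
  mw : w ∈ C
  mu : u ∈ C
  low : ∀ q ∈ C, q ∈ PD P i → q = p
  upp : ∀ q ∈ C, q ∈ PU P i → q = u

section main

variable (G : GoodTo P r (i + 1)) (hT : NoT P (i + 2)) (hQ : NoQ P (i + 3)) (hM : Mat P i ∅ psi)
  (ho : Okc i psi C e)
include G hT hQ hM ho

/-- the pendant of an element of `P1`, below the window -/
lemma p1L_pen {y' : P} (h : y' ∈ P1 uc dc e (fun x : P => lev x - i) (lS P i) (BGL i psi e)) :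
    ∃ p ∈ C, p ∈ PD P i ∧ uc p = {y'} ∧ e p = 1 := by
  classical
  have HL := hypL G hT hQ hM ho.adm.l ho.adm.u ho.adm.d ho.core
  obtain ⟨hD, hN, p, hp, ep, cp, hz⟩ := HL.p1_spec h
  obtain ⟨yS, yB, ty, cy⟩ := mem_Dd.1 hD
  rw [mem_lS] at yS
  have ty' : lev y' - i = 1 := ty
  have l1 := lev_dc G.H hp
  refine ⟨p, ?_, ?_, cp, ep⟩
  · by_contra hcon
    have := ho.spt p hcon
    omega
  · rw [mem_PD]
    exact ⟨by omega, by rw [cp, card_singleton], y', mem_dc.1 hp, cy⟩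

lemma p1U_pen {y' : P} (h : y' ∈ P1 dc uc e (fun x : P => i - lev x) (uS P i) (BGU i psi e)) :
    ∃ p ∈ C, p ∈ PU P i ∧ dc p = {y'} ∧ e p = 1 := by
  classical
  have HU := hypU G hT hM ho.adm.l ho.adm.u ho.adm.d ho.core
  obtain ⟨hD, hN, p, hp, ep, cp, hz⟩ := HU.p1_spec h
  obtain ⟨yS, yB, ty, cy⟩ := mem_Dd.1 hD
  rw [mem_uS] at yS
  have ty' : i - lev y' = 1 := ty
  have l1 := lev_uc G.H hp
  refine ⟨p, ?_, ?_, cp, ep⟩
  · by_contra hcon
    have := ho.spt p hcon
    omega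
  · rw [mem_PU]
    exact ⟨by omega, by rw [cp, card_singleton], y', mem_uc.1 hp, cy⟩

/-- the positive pendant of an element of `N4`, below the window -/
lemma n4L_pen {y' : P} (h : y' ∈ N4L i psi e) : ∃ o x z, o ≠ x ∧ uc y' = {o, x} ∧
    e y' = 1 ∧ e o = 0 ∧ 1 ≤ e x ∧ z ∈ dc y' ∧ 1 ≤ e z ∧
    ((z ∈ C ∧ z ∈ PD P i ∧ uc z = {y'}) ∨ ∃ w, w ≠ y' ∧ w ∈ uc z ∧ w ∈ dc x ∧ 1 ≤ e w) := by
  classical
  have HL := hypL G hT hQ hM ho.adm.l ho.adm.u ho.adm.d ho.core
  obtain ⟨⟨ly, cy⟩, yB, -, -⟩ := mem_N4L' h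
  obtain ⟨o, x, z, h1, h2, h3, h4, h5, h6, h7, h8, h9⟩ := HL.n4_child h
  have l1 := lev_dc G.H h7
  refine ⟨o, x, z, h1, h2, h3, h4, h5, h7, h8, ?_⟩
  rcases h9 with h9 | h9
  · left
    refine ⟨?_, ?_, h9⟩
    · by_contra hcon
      have := ho.spt z hcon
      omega
    · rw [mem_PD]
      exact ⟨by omega, by rw [h9, card_singleton], y', mem_dc.1 h7, cy⟩
  · exact Or.inr h9

lemma n4U_pen {y' : P} (h : y' ∈ N4U i psi e) : ∃ o x z, o ≠ x ∧ dc y' = {o, x} ∧
    e y' = 1 ∧ e o = 0 ∧ 1 ≤ e x ∧ z ∈ uc y' ∧ 1 ≤ e z ∧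
    ((z ∈ C ∧ z ∈ PU P i ∧ dc z = {y'}) ∨ ∃ w, w ≠ y' ∧ w ∈ dc z ∧ w ∈ uc x ∧ 1 ≤ e w) := by
  classical
  have HU := hypU G hT hM ho.adm.l ho.adm.u ho.adm.d ho.core
  obtain ⟨⟨ly, cy⟩, yB, -, -⟩ := mem_N4U' h
  obtain ⟨o, x, z, h1, h2, h3, h4, h5, h6, h7, h8, h9⟩ := HU.n4_child h
  have l1 := lev_uc G.H h7
  refine ⟨o, x, z, h1, h2, h3, h4, h5, h7, h8, ?_⟩
  rcases h9 with h9 | h9
  · left
    refine ⟨?_, ?_, h9⟩
    · by_contra hcon
      have := ho.spt z hcon
      omega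
    · rw [mem_PU]
      exact ⟨by omega, by rw [h9, card_singleton], y', mem_uc.1 h7, cy⟩
  · exact Or.inr h9

end main

end Pool.Agent.GaussPoset.Win.Rd

end

/-! From `Pool.Agent.W_448xc_h84.XgP` -/

section

/-!
# The general exchange (MP_448cb3_co): the blocks `P1` of a part with one matched pendant
-/

namespace Pool.Agent.GaussPoset.Win.Rd

set_option linter.unusedSectionVars false

open Finset I2 K2 Xg
open Pool.Agent.GaussPoset.Win.H2 (SdT NoT low_T up_T sum_all)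

universe u

variable {P : Type u} [Fintype P] [PartialOrder P] [DecidableEq P] {r i : ℕ} {e : P → ℕ}
variable {psi : P → P} {C : Finset P} {y p w u v v' : P}

section main

variable (G : GoodTo P r (i + 1)) (hT : NoT P (i + 2)) (hQ : NoQ P (i + 3)) (hM : Mat P i ∅ psi)
  (ho : Okc i psi C e) (O : OneP i psi C y p w u v v')
include G hT hQ hM ho O

lemma p1L_uniq {y' : P} (h : y' ∈ P1 uc dc e (fun x : P => lev x - i) (lS P i) (BGL i psi e)) :
    y' = y := by
  obtain ⟨p', h1, h2, h3, h4⟩ := p1L_pen G hT hQ hM ho h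
  have h5 := O.low p' h1 h2
  rw [h5, O.F.up] at h3
  exact (singleton_injective h3).symm

lemma p1U_uniq {y' : P} (h : y' ∈ P1 dc uc e (fun x : P => i - lev x) (uS P i) (BGU i psi e)) :
    y' = w := by
  obtain ⟨p', h1, h2, h3, h4⟩ := p1U_pen G hT hQ hM ho h
  have h5 := O.upp p' h1 h2
  rw [h5, O.F.du] at h3
  exact (singleton_injective h3).symm

/-- a block `P1` below the window -/
theorem lop_of {y' : P} (h : y' ∈ P1L i psi e) : LoP y p w u v v' e := by
  classical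
  have HL := hypL G hT hQ hM ho.adm.l ho.adm.u ho.adm.d ho.core
  have hy' : y' = y := p1L_uniq G hT hQ hM ho O (P1s_sub h)
  subst hy'
  obtain ⟨o, x, p', hox, hc, ty, yS, e1, eo, ex, h4, h5, hp', ep, cp, hz, hq⟩ :=
    HL.p1s_full h (fun a ha => p1L_uniq G hT hQ hM ho O ha)
  have F := O.F
  obtain ⟨k1, k2, k3, k4⟩ := F.lv G.H
  obtain ⟨m1, m2, m3, m4⟩ := F.mems G.H
  have ly := F.ly
  have lw := F.lw
  have hpp : p' = p := by
    refine O.low p' ?_ ?_
    · by_contra hcon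
      have := ho.spt p' hcon
      omega
    · have l1 := lev_dc G.H hp'
      rw [mem_PD]
      exact ⟨by omega, by rw [cp, card_singleton], y', mem_dc.1 hp', by rw [hc, card_pair hox]⟩
  subst hpp
  have hsite : ∀ a ∈ uc y', e a = 0 ∧ (∀ z ∈ dc a, z ≠ y' → e z = 0) ∧ ∀ z ∈ uc a, e z = 0 := by
    intro a ha
    have la := lev_uc G.H ha
    have h6 : e a = 0 ∧ ∀ z ∈ dc a, z ≠ y' → e z = 0 := by
      rw [hc, mem_insert, mem_singleton] at ha
      rcases ha with rfl | rfl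
      · exact ⟨eo, h4⟩
      · exact ⟨ex, h5⟩
    refine ⟨h6.1, h6.2, fun z hz => ?_⟩
    have := not_both (e := e) ho.adm.d (by omega) (mem_dc.2 (mem_uc.1 ha)) hz
    omega
  have hv : v ∈ uc y' := by rw [F.uy]; simp
  have hv' : v' ∈ uc y' := by rw [F.uy]; simp
  have ew : e w = 0 := (hsite v hv).2.2 w (mem_uc.2 (mem_dc.1 (by rw [F.dw]; simp)))
  have up0 : ∀ a : P, lev a < i → e a = 0 → ∀ b ∈ dc a, e b = 0 → ∀ z ∈ uc a, e z = 0 := by
    intro a ha h0 b hb hb0 z hz
    by_contra h1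
    exact ho.adm.u a ha ⟨⟨z, mem_uc.1 hz, by omega⟩, b, mem_dc.1 hb, by omega⟩
  have huw : ∀ z ∈ uc w, e z = 0 := up0 w (by omega) ew v (by rw [F.dw]; simp) (hsite v hv).1
  have hu0 : e u = 0 := huw u (mem_uc.2 (mem_dc.1 (by rw [F.du]; simp)))
  have huu : ∀ z ∈ uc u, e z = 0 := up0 u (by omega) hu0 w (by rw [F.du]; simp) ew
  have rz : ∀ z, (z ≠ y' → z ≠ p' → e z = 0) → rm y' p' e z = 0 := by
    intro z h
    by_cases g1 : z = y'
    · rw [g1, rm_y]
    by_cases g2 : z = p'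
    · rw [g2, rm_p]
    rw [rm_of g1 g2]
    exact h g1 g2
  refine ⟨e1, ep, ?_⟩
  exact ⟨rz v fun _ _ => (hsite v hv).1, rz v' fun _ _ => (hsite v' hv').1,
    fun z hz => rz z fun g1 _ => (hsite v hv).2.1 z hz g1,
    fun z hz => rz z fun g1 _ => (hsite v' hv').2.1 z hz g1,
    fun z hz => rz z fun _ _ => (hsite v hv).2.2 z hz,
    fun z hz => rz z fun _ _ => (hsite v' hv').2.2 z hz,
    fun z h7 => rz z fun _ g2 => hz z h7 g2,
    fun z h7 => rz z fun _ _ => hq z h7,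
    fun z h7 => rz z fun _ _ => huw z h7,
    fun z h7 => rz z fun _ _ => huu z h7⟩

/-- a block `P1` above the window -/
theorem upp_of {y' : P} (h : y' ∈ P1U i psi e) : UpP y p w u v v' e := by
  classical
  have HU := hypU G hT hM ho.adm.l ho.adm.u ho.adm.d ho.core
  have hy' : y' = w := p1U_uniq G hT hQ hM ho O (P1s_sub h)
  subst hy'
  obtain ⟨o, x, p', hox, hc, ty, yS, e1, eo, ex, h4, h5, hp', ep, cp, hz, hq⟩ :=
    HU.p1s_full h (fun a ha => p1U_uniq G hT hQ hM ho O ha)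
  have F := O.F
  obtain ⟨k1, k2, k3, k4⟩ := F.lv G.H
  obtain ⟨m1, m2, m3, m4⟩ := F.mems G.H
  have ly := F.ly
  have lw := F.lw
  have hpp : p' = u := by
    refine O.upp p' ?_ ?_
    · by_contra hcon
      have := ho.spt p' hcon
      omega
    · have l1 := lev_uc G.H hp'
      rw [mem_PU]
      exact ⟨by omega, by rw [cp, card_singleton], y', mem_uc.1 hp', by rw [hc, card_pair hox]⟩
  subst hpp
  have hsite : ∀ a ∈ dc y', e a = 0 ∧ (∀ z ∈ uc a, z ≠ y' → e z = 0) ∧ ∀ z ∈ dc a, e z = 0 := by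
    intro a ha
    have la := lev_dc G.H ha
    have h6 : e a = 0 ∧ ∀ z ∈ uc a, z ≠ y' → e z = 0 := by
      rw [hc, mem_insert, mem_singleton] at ha
      rcases ha with rfl | rfl
      · exact ⟨eo, h4⟩
      · exact ⟨ex, h5⟩
    refine ⟨h6.1, h6.2, fun z hz => ?_⟩
    have := not_both (e := e) ho.adm.d (x := a) (by omega) hz (mem_uc.2 (mem_dc.1 ha))
    omega
  have hv : v ∈ dc y' := by rw [F.dw]; simp
  have hv' : v' ∈ dc y' := by rw [F.dw]; simp
  have ew : e y = 0 := (hsite v hv).2.2 y (mem_dc.2 (mem_uc.1 (by rw [F.uy]; simp)))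
  have lo0 : ∀ a : P, i < lev a → e a = 0 → ∀ b ∈ uc a, e b = 0 → ∀ z ∈ dc a, e z = 0 := by
    intro a ha h0 b hb hb0 z hz
    by_contra h1
    exact ho.adm.l a ha ⟨⟨z, mem_dc.1 hz, by omega⟩, b, mem_uc.1 hb, by omega⟩
  have huw : ∀ z ∈ dc y, e z = 0 := lo0 y (by omega) ew v (by rw [F.uy]; simp) (hsite v hv).1
  have hu0 : e p = 0 := huw p (mem_dc.2 (mem_uc.1 (by rw [F.up]; simp)))
  have huu : ∀ z ∈ dc p, e z = 0 := lo0 p (by omega) hu0 y (by rw [F.up]; simp) ew
  have rz : ∀ z, (z ≠ y' → z ≠ p' → e z = 0) → rm y' p' e z = 0 := by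
    intro z h
    by_cases g1 : z = y'
    · rw [g1, rm_y]
    by_cases g2 : z = p'
    · rw [g2, rm_p]
    rw [rm_of g1 g2]
    exact h g1 g2
  refine ⟨e1, ep, ?_⟩
  exact ⟨rz v fun _ _ => (hsite v hv).1, rz v' fun _ _ => (hsite v' hv').1,
    fun z hz => rz z fun _ _ => (hsite v hv).2.2 z hz,
    fun z hz => rz z fun _ _ => (hsite v' hv').2.2 z hz,
    fun z hz => rz z fun g1 _ => (hsite v hv).2.1 z hz g1,
    fun z hz => rz z fun g1 _ => (hsite v' hv').2.1 z hz g1,
    fun z h7 => rz z fun _ _ => huw z h7,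
    fun z h7 => rz z fun _ _ => huu z h7,
    fun z h7 => rz z fun _ g2 => hz z h7 g2,
    fun z h7 => rz z fun _ _ => hq z h7⟩

/-- at most one block `P1` -/
theorem p1_one : (P1L i psi e).card + (P1U i psi e).card ≤ 1 := by
  classical
  have h1 : (P1L i psi e).card ≤ 1 := by
    rw [card_le_one]
    intro a ha b hb
    rw [p1L_uniq G hT hQ hM ho O (P1s_sub ha), p1L_uniq G hT hQ hM ho O (P1s_sub hb)]
  have h2 : (P1U i psi e).card ≤ 1 := by
    rw [card_le_one]
    intro a ha b hb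
    rw [p1U_uniq G hT hQ hM ho O (P1s_sub ha), p1U_uniq G hT hQ hM ho O (P1s_sub hb)]
  by_contra hcon
  obtain ⟨a, ha⟩ := card_pos.1 (show 0 < (P1L i psi e).card by omega)
  obtain ⟨b, hb⟩ := card_pos.1 (show 0 < (P1U i psi e).card by omega)
  have hL := lop_of G hT hQ hM ho O ha
  have hU := upp_of G hT hQ hM ho O hb
  have F := O.F
  have h3 := hL.2.2.uv w (mem_uc.2 (mem_dc.1 (by rw [F.dw]; simp)))
  have h4 := hU.1
  obtain ⟨n1, n2, n3, n4, n5, n6⟩ := F.nes G.H
  rw [rm_of n1.symm (by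
    rintro rfl
    obtain ⟨k1, k2, k3, k4⟩ := F.lv G.H
    have := F.lw
    omega)] at h3
  omega

/-- a block `P1` is the block of the flip -/
theorem p1_fp (h : (P1L i psi e).card + (P1U i psi e).card ≠ 0) : FP y p w u v v' e := by
  classical
  by_cases h1 : (P1L i psi e).card = 0
  · obtain ⟨b, hb⟩ := card_pos.1 (show 0 < (P1U i psi e).card by omega)
    exact Or.inr (upp_of G hT hQ hM ho O hb)
  · obtain ⟨a, ha⟩ := card_pos.1 (show 0 < (P1L i psi e).card by omega)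
    exact Or.inl (lop_of G hT hQ hM ho O ha)

end main

end Pool.Agent.GaussPoset.Win.Rd

end

/-! From `Pool.Agent.W_448xc_h84.XgQ` -/

section

/-!
# The general exchange (MP_448cb3_co): no guard sites after the exchanges
-/

namespace Pool.Agent.GaussPoset.Win.Rd

set_option linter.unusedSectionVars false

open Finset I2 K2 Xg
open Pool.Agent.GaussPoset.Win.H2 (SdT NoT low_T up_T sum_all)

universe u

variable {P : Type u} [Fintype P] [PartialOrder P] [DecidableEq P] {r i : ℕ} {e : P → ℕ}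
variable {psi : P → P} {C : Finset P} {y p w u v v' : P}

/-- at most one pendant below, one above, matched -/
structure Pnd (i : ℕ) (psi : P → P) (C : Finset P) : Prop where
  low : ∀ q ∈ C, ∀ q' ∈ C, q ∈ PD P i → q' ∈ PD P i → q = q'
  upp : ∀ q ∈ C, ∀ q' ∈ C, q ∈ PU P i → q' ∈ PU P i → q = q'
  mat : ∀ q ∈ C, ∀ q' ∈ C, q ∈ PD P i → q' ∈ PU P i → ∀ a b, uc q = {a} → dc q' = {b} →
    b = psi a

lemma NoP.pnd (h : NoP i C) : Pnd i psi C :=
  ⟨fun q hq _ _ h1 _ => absurd h1 (h q hq).1, fun q hq _ _ h1 _ => absurd h1 (h q hq).2,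
    fun q hq _ _ h1 _ => absurd h1 (h q hq).1⟩

lemma OneP.pnd (O : OneP i psi C y p w u v v') : Pnd i psi C := by
  refine ⟨fun q hq q' hq' h1 h2 => by rw [O.low q hq h1, O.low q' hq' h2],
    fun q hq q' hq' h1 h2 => by rw [O.upp q hq h1, O.upp q' hq' h2],
    fun q hq q' hq' h1 h2 a b ha hb => ?_⟩
  rw [O.low q hq h1, O.F.up] at ha
  rw [O.upp q' hq' h2, O.F.du] at hb
  rw [← singleton_injective ha, ← singleton_injective hb, O.hy]

section main

variable (G : GoodTo P r (i + 1)) (hT : NoT P (i + 2)) (hQ : NoQ P (i + 3)) (hM : Mat P i ∅ psi)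
  (ho : Okc i psi C e) (hex : ∀ d x, CanD i e d x → e x < e d) (hp : Pnd i psi C)
include G hT hQ hM ho hex hp

lemma gs_LL {x y y' : P} (hx : e x = 1) (hy : y ∈ N4L i psi e) (hy' : y' ∈ N4L i psi e)
    (hne : y ≠ y') (h1 : x ∈ uc y) (h2 : x ∈ uc y') : False := by
  classical
  have key : ∀ {y y' : P}, y ∈ N4L i psi e → y' ∈ N4L i psi e → y ≠ y' → x ∈ uc y → x ∈ uc y' →
      ∃ z ∈ C, z ∈ PD P i ∧ uc z = {y} := by
    intro y y' hy hy' hne h1 h2
    obtain ⟨o, x1, z, a1, a2, a3, a4, a5, a6, a7, a8⟩ := n4L_pen G hT hQ hM ho hy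
    have hxx : x = x1 := by
      rw [a2, mem_insert, mem_singleton] at h1
      rcases h1 with rfl | h
      · omega
      · exact h
    subst hxx
    rcases a8 with ⟨b1, b2, b3⟩ | ⟨w1, b1, b2, b3, b4⟩
    · exact ⟨z, b1, b2, b3⟩
    · exfalso
      have h3 := third (dc_card_le G.H x) (mem_dc.2 (mem_uc.1 h2)) (mem_dc.2 (mem_uc.1 h1)) b3
        hne.symm b1
      subst h3
      obtain ⟨d, x', c1, c2⟩ := n4L_place G hT hQ hM ho.adm.l ho.adm.u ho.adm.d ho.core hy hy' hne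
        a6 (mem_dc.2 (mem_uc.1 b2)) a7
      have := hex d x' c1
      omega
  obtain ⟨z, a1, a2, a3⟩ := key hy hy' hne h1 h2
  obtain ⟨z', b1, b2, b3⟩ := key hy' hy hne.symm h2 h1
  have h3 := hp.low z a1 z' b1 a2 b2
  subst h3
  rw [a3] at b3
  exact hne (singleton_injective b3)

lemma gs_UU {x y y' : P} (hx : e x = 1) (hy : y ∈ N4U i psi e) (hy' : y' ∈ N4U i psi e)
    (hne : y ≠ y') (h1 : x ∈ dc y) (h2 : x ∈ dc y') : False := by
  classical
  have key : ∀ {y y' : P}, y ∈ N4U i psi e → y' ∈ N4U i psi e → y ≠ y' → x ∈ dc y → x ∈ dc y' →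
      ∃ z ∈ C, z ∈ PU P i ∧ dc z = {y} := by
    intro y y' hy hy' hne h1 h2
    obtain ⟨o, x1, z, a1, a2, a3, a4, a5, a6, a7, a8⟩ := n4U_pen G hT hQ hM ho hy
    have hxx : x = x1 := by
      rw [a2, mem_insert, mem_singleton] at h1
      rcases h1 with rfl | h
      · omega
      · exact h
    subst hxx
    rcases a8 with ⟨b1, b2, b3⟩ | ⟨w1, b1, b2, b3, b4⟩
    · exact ⟨z, b1, b2, b3⟩
    · exfalso
      have h3 := third (uc_card_le G.H x) (mem_uc.2 (mem_dc.1 h2)) (mem_uc.2 (mem_dc.1 h1)) b3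
        hne.symm b1
      subst h3
      obtain ⟨d, x', c1, c2⟩ := n4U_place G hT hQ hM ho.adm.l ho.adm.u ho.adm.d ho.core hy hy' hne
        a6 (mem_uc.2 (mem_dc.1 b2)) a7
      have := hex d x' c1
      omega
  obtain ⟨z, a1, a2, a3⟩ := key hy hy' hne h1 h2
  obtain ⟨z', b1, b2, b3⟩ := key hy' hy hne.symm h2 h1
  have h3 := hp.upp z a1 z' b1 a2 b2
  subst h3
  rw [a3] at b3
  exact hne (singleton_injective b3)

lemma gs_LU {x y y' : P} (hx : e x = 1) (hy : y ∈ N4L i psi e) (hy' : y' ∈ N4U i psi e)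
    (h1 : x ∈ uc y) (h2 : x ∈ dc y') : False := by
  classical
  obtain ⟨o, x1, z, a1, a2, a3, a4, a5, a6, a7, a8⟩ := n4L_pen G hT hQ hM ho hy
  obtain ⟨o', x1', z', b1, b2, b3, b4, b5, b6, b7, b8⟩ := n4U_pen G hT hQ hM ho hy'
  have hxx : x = x1 := by
    rw [a2, mem_insert, mem_singleton] at h1
    rcases h1 with rfl | h
    · omega
    · exact h
  have hxx' : x = x1' := by
    rw [b2, mem_insert, mem_singleton] at h2
    rcases h2 with rfl | h
    · omega
    · exact h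
  subst hxx
  subst hxx'
  obtain ⟨⟨ly, cy⟩, -, -, -⟩ := mem_N4L' hy
  obtain ⟨⟨ly', cy'⟩, -, -, -⟩ := mem_N4U' hy'
  obtain ⟨⟨p1, p1'⟩, p2, p3⟩ := psiL hM ly cy
  obtain ⟨⟨q1, q1'⟩, q2, q3⟩ := psiU hM ly' cy'
  have ho1 : o ∈ uc y := by rw [a2]; simp
  have ho' : o' ∈ dc y' := by rw [b2]; simp
  have lo := lev_uc G.H ho1
  have lo' := lev_dc G.H ho'
  -- the outer sites are killed on one side only
  have ko : ∀ z ∈ uc o, e z = 0 := by
    intro z hz
    have := not_both (e := e) ho.adm.d (x := o) (by omega) (mem_dc.2 (mem_uc.1 ho1)) hz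
    omega
  have ko' : ∀ z ∈ dc o', e z = 0 := by
    intro z hz
    have := not_both (e := e) ho.adm.d (x := o') (by omega) hz (mem_uc.2 (mem_dc.1 ho'))
    omega
  have hpo : psi y ∈ uc o := by
    rw [mem_uc, ← mem_dc, p2]
    exact ho1
  have hpo' : psi y' ∈ dc o' := by
    rw [mem_dc, ← mem_uc, q2]
    exact ho'
  have hn1 : y' ≠ psi y := by
    rintro rfl
    have := ko _ hpo
    omega
  have hn2 : psi y' ≠ y := by
    intro h
    apply hn1
    rw [← h, q3]
  have mx : psi y ∈ uc x := by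
    rw [mem_uc, ← mem_dc, p2]
    exact h1
  have mx' : psi y' ∈ dc x := by
    rw [mem_dc, ← mem_uc, q2]
    exact h2
  rcases a8 with ⟨c1, c2, c3⟩ | ⟨w1, c1, c2, c3, c4⟩
  · rcases b8 with ⟨d1, d2, d3⟩ | ⟨w2, d1, d2, d3, d4⟩
    · exact hn1 (hp.mat z c1 z' d1 c2 d2 _ _ c3 d3)
    · have h3 := third (uc_card_le G.H x) mx (mem_uc.2 (mem_dc.1 h2)) d3 hn1.symm d1
      subst h3
      have := ko _ hpo
      omega
  · have h3 := third (dc_card_le G.H x) mx' (mem_dc.2 (mem_uc.1 h1)) c3 hn2 c1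
    subst h3
    have := ko' _ hpo'
    omega

/-- no guard sites -/
theorem gs_empty : GS i psi e = ∅ := by
  classical
  rw [eq_empty_iff_forall_notMem]
  intro x hx
  unfold GS at hx
  rw [mem_filter] at hx
  obtain ⟨-, ex, y, y', hne, h1 | h1, h2 | h2⟩ := hx
  · exact gs_LL G hT hQ hM ho hex hp ex h1.1 h2.1 hne h1.2 h2.2
  · exact gs_LU G hT hQ hM ho hex hp ex h1.1 h2.1 h1.2 h2.2
  · exact gs_LU G hT hQ hM ho hex hp ex h2.1 h1.1 h2.2 h1.2
  · exact gs_UU G hT hQ hM ho hex hp ex h1.1 h2.1 hne h1.2 h2.2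

end main

end Pool.Agent.GaussPoset.Win.Rd

end

/-! From `Pool.Agent.W_448xc_h84.XgR` -/

section

/-!
# The general exchange (MP_448cb3_co): window sums of a part with at least four sites, orders
-/

namespace Pool.Agent.GaussPoset.Win.Rd

set_option linter.unusedSectionVars false

open Finset I2 K2 Xg
open Pool.Agent.GaussPoset.Win.H2 (SdT NoT low_T up_T sum_all)

universe u

variable {P : Type u} [Fintype P] [PartialOrder P] [DecidableEq P] {r i : ℕ} {e : P → ℕ}
variable {psi : P → P} {C : Finset P} {y p w u v v' : P}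
variable {Q : (P → ℕ) → Prop} {φ : (P → ℕ) → (P → ℕ)}

/-- the class of parts: no pendants, or one pendant below and one above over matched elements -/
structure Cls (r i : ℕ) (psi : P → P) (C : Finset P) (Q : (P → ℕ) → Prop)
    (φ : (P → ℕ) → (P → ℕ)) : Prop where
  G : GoodTo P r (i + 1)
  hT : NoT P (i + 2)
  hQ : NoQ P (i + 3)
  hi : 1 ≤ i
  hM : Mat P i ∅ psi
  hC : Part (i + 1) C
  F : Flp i psi C Q φ
  pnd : Pnd i psi C
  p1 : ∀ e, Okc i psi C e → (P1L i psi e).card + (P1U i psi e).card ≤ 1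
  pq : ∀ e, Okc i psi C e → (P1L i psi e).card + (P1U i psi e).card ≠ 0 → Q e

section mk

variable (G : GoodTo P r (i + 1)) (hT : NoT P (i + 2)) (hQ : NoQ P (i + 3)) (hi : 1 ≤ i)
  (hM : Mat P i ∅ psi) (hC : Part (i + 1) C)
include G hT hQ hi hM hC

theorem Cls.ofNo (h : NoP i C) : Cls r i psi C (fun _ => False) id := by
  have key : ∀ e, Okc i psi C e → (P1L i psi e).card + (P1U i psi e).card = 0 := by
    intro e ho
    by_contra hcon
    by_cases h1 : (P1L i psi e).card = 0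
    · obtain ⟨b, hb⟩ := card_pos.1 (show 0 < (P1U i psi e).card by omega)
      obtain ⟨q, h2, h3, -⟩ := p1U_pen G hT hQ hM ho (P1s_sub hb)
      exact (h q h2).2 h3
    · obtain ⟨b, hb⟩ := card_pos.1 (show 0 < (P1L i psi e).card by omega)
      obtain ⟨q, h2, h3, -⟩ := p1L_pen G hT hQ hM ho (P1s_sub hb)
      exact (h q h2).1 h3
  exact ⟨G, hT, hQ, hi, hM, hC, flp_none, h.pnd, fun e ho => by rw [key e ho]; omega,
    fun e ho h1 => h1 (key e ho)⟩

theorem Cls.ofOne (O : OneP i psi C y p w u v v') :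
    Cls r i psi C (FP y p w u v v') (fl y p w u) :=
  ⟨G, hT, hQ, hi, hM, hC,
    flp_fl G.H hi G.hr O.F hM O.hy hC O.my O.mp O.mw O.mu,
    O.pnd, fun _ ho => p1_one G hT hQ hM ho O, fun _ ho h1 => p1_fp G hT hQ hM ho O h1⟩

end mk

section num

variable (K : Cls r i psi C Q φ)
include K

/-- the numbers of a core -/
theorem Cls.num (ho : Okc i psi C e) : ∃ p t tx nf : ℕ, p ≤ 1 ∧ (p = 0 ∨ Q e) ∧
    5 * t + 2 * p ≤ ∑ z, e z ∧ tx ≤ t ∧ (tx = 0 ∨ 2 * kp i e + 1 ≤ ∑ z, (e z : ℤ)) ∧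
    (nf = 0 ∨ (10 ≤ ∑ z, e z ∧ 2 * kp i e + 1 ≤ ∑ z, (e z : ℤ))) ∧
    6 * kp i e ≤ 2 * ∑ z, (e z : ℤ) + 2 * p + t + tx + 4 * ((Xg.CC i e).card + nf) := by
  classical
  have G := K.G
  obtain ⟨f, ho', h1, h2, h3, h4, h5⟩ := rep G.H K.hC.pred K.F e ho
  have h3' : ∑ z, (f z : ℤ) = ∑ z, (e z : ℤ) := by exact_mod_cast h3
  have hG := gs_empty G K.hT K.hQ K.hM ho' h5 K.pnd
  have hX := generalx G K.hT K.hQ K.hM ho'.adm.l ho'.adm.u ho'.adm.d ho'.core
  have hE := energy_ge G K.hT K.hQ K.hM ho'.adm.l ho'.adm.u ho'.adm.d ho'.core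
  have hW := TWU_empty (e := f) G
  have hWx := TWx_card (i := i) (e := f)
  have hk : kp i f = (AL i f).card + (AU i f).card - pL i f - pU i f := rfl
  refine ⟨(P1L i psi f).card + (P1U i psi f).card, (TWL i f).card, (TWLx i f).card,
    (NFL i f).card, K.p1 f ho', ?_, ?_, hWx.1, ?_, ?_, ?_⟩
  · by_cases h : (P1L i psi f).card + (P1U i psi f).card = 0
    · exact Or.inl h
    · exact Or.inr (h4.1 (K.pq f ho' h))
  · rw [← h3]
    omega
  · by_cases h : (TWLx i f).card = 0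
    · exact Or.inl h
    · right
      obtain ⟨z, hz⟩ := card_pos.1 (show 0 < (TWLx i f).card by omega)
      have := tw_half G K.hT K.hM ho'.adm.l ho'.adm.u ho'.adm.d ho'.core hz
      rw [← h1, ← h3', hk]
      linarith
  · by_cases h : (NFL i f).card = 0
    · exact Or.inl h
    · right
      obtain ⟨z, hz⟩ := card_pos.1 (show 0 < (NFL i f).card by omega)
      refine ⟨by rw [← h3]; exact nf_energy G K.hT ho'.adm.l hz, ?_⟩
      obtain ⟨q, z2, w, w2, y, lq, -, -, -, -, -, -, -, eq3, -⟩ := nf_spec G K.hT ho'.adm.l hz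
      have := half_oneX G K.hT K.hM ho'.adm.l ho'.adm.u ho'.adm.d ho'.core
        (z := q) (Or.inl (by omega)) (by omega)
      rw [← h1, ← h3', hk]
      linarith
  · rw [hG, hW, card_empty] at hX
    rw [← h1, ← h3', hk, ← h2]
    have h6 : (TWUx i f).card = 0 := by
      have := hWx.2
      rw [hW, card_empty] at this
      omega
    rw [h6] at hX
    push_cast at hX ⊢
    linarith

lemma Cls.hs : ∀ x ∈ C, lev x = i → (uc x).card ≤ 2 ∧ (dc x).card ≤ 2 :=
  fun x _ _ => ⟨uc_card_le K.G.H x, dc_card_le K.G.H x⟩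

/-- the leftovers of the orders vanish -/
lemma Cls.lft_empty {n k : ℕ} (h : n ≤ 10) (h1 : 2 * n + 2 * (n / 5) + 1 ≤ 6 * (k + 1))
    (h2 : 10 ≤ n → n ≤ 2 * k + 2) : Lft i psi C Q n k = ∅ := by
  classical
  rw [eq_empty_iff_forall_notMem]
  intro e he
  rw [mem_Lft] at he
  obtain ⟨a1, a2, a3, a4, a5⟩ := he
  obtain ⟨p, t, tx, nf, b1, b2, b3, b4, b5, b6, b7⟩ := K.num a2
  have a1' : ∑ z, (e z : ℤ) = n := by exact_mod_cast a1
  rw [a4, card_empty, a1', a3] at b7
  rw [a1', a3] at b5 b6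
  rw [a1] at b3 b6
  have hp : p = 0 := by
    rcases b2 with b2 | b2
    · exact b2
    · exact absurd b2 a5
  subst hp
  push_cast at b7
  rcases b6 with b6 | b6
  · subst b6
    omega
  · have := h2 b6.1
    omega

/-- the window sum up to the leftover -/
theorem Cls.sum_lft {n k : ℕ}
    (hA : ∀ e, Okc i psi C e → ∑ z, e z ≤ n → kp i e ≤ k + (Xg.CC i e).card ∨
      (kp i e = k + 1 ∧ Q e) ∨ (∑ z, e z = n ∧ kp i e = k + 1 ∧ Xg.CC i e = ∅)) :
    dd ^ ((st i C).card - k) ∣ ZC i C n - ∑ e ∈ Lft i psi C Q n k, tC i C e :=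
  frame K.G.H K.hi K.G.hr K.hM K.hC K.hs K.F hA

/-- the order of the window sum -/
theorem Cls.order {n k : ℕ} (h : n ≤ 10) (h1 : 2 * n + 2 * (n / 5) + 1 ≤ 6 * (k + 1))
    (h2 : 10 ≤ n → n ≤ 2 * k + 2)
    (hA : ∀ e, Okc i psi C e → ∑ z, e z ≤ n → kp i e ≤ k + (Xg.CC i e).card ∨
      (kp i e = k + 1 ∧ Q e) ∨ (∑ z, e z = n ∧ kp i e = k + 1 ∧ Xg.CC i e = ∅)) :
    dd ^ ((st i C).card - k) ∣ ZC i C n := by
  have h3 := K.sum_lft hA
  rwa [K.lft_empty h h1 h2, sum_empty, sub_zero] at h3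

/-- the condition of the frame -/
lemma Cls.cond {n k : ℕ} (hnk : (n = 0 ∧ k = 0) ∨ (n = 1 ∧ k = 0) ∨ (n = 2 ∧ k = 0) ∨
    (n = 3 ∧ k = 1) ∨ (n = 4 ∧ k = 1) ∨ (n = 5 ∧ k = 1) ∨ (n = 5 ∧ k = 2) ∨ (n = 6 ∧ k = 2) ∨
    (n = 7 ∧ k = 2) ∨ (n = 8 ∧ k = 2) ∨ (n = 8 ∧ k = 3) ∨ (n = 9 ∧ k = 3) ∨ (n = 10 ∧ k = 3) ∨
    (n = 10 ∧ k = 4)) (ho : Okc i psi C e) (hs : ∑ z, e z ≤ n) :
    kp i e ≤ k + (Xg.CC i e).card ∨ (kp i e = k + 1 ∧ Q e) ∨
      (∑ z, e z = n ∧ kp i e = k + 1 ∧ Xg.CC i e = ∅) := by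
  classical
  obtain ⟨p, t, tx, nf, b1, b2, b3, b4, b5, b6, b7⟩ := K.num ho
  have hc : Xg.CC i e = ∅ ↔ (Xg.CC i e).card = 0 := card_eq_zero.symm
  rw [hc]
  have hs' : ∑ z, (e z : ℤ) = ((∑ z, e z : ℕ) : ℤ) := by push_cast; rfl
  rw [hs'] at b5 b6 b7
  generalize ∑ z, e z = q at *
  generalize (Xg.CC i e).card = c at *
  generalize kp i e = κ at *
  have hQ : p = 0 ∨ (p = 1 ∧ Q e) := by
    rcases b2 with b2 | b2
    · exact Or.inl b2
    · by_cases h : p = 0
      · exact Or.inl h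
      · exact Or.inr ⟨by omega, b2⟩
  by_cases hq : Q e
  · simp only [hq, and_true]
    rcases hnk with h | h | h | h | h | h | h | h | h | h | h | h | h | h <;>
      obtain ⟨rfl, rfl⟩ := h <;> rcases b5 with b5 | b5 <;> rcases b6 with b6 | b6 <;> omega
  · simp only [hq, and_false, false_or]
    have hp : p = 0 := by tauto
    subst hp
    rcases hnk with h | h | h | h | h | h | h | h | h | h | h | h | h | h <;>
      obtain ⟨rfl, rfl⟩ := h <;> rcases b5 with b5 | b5 <;> rcases b6 with b6 | b6 <;> omega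

end num

end Pool.Agent.GaussPoset.Win.Rd

end

/-! From `Pool.Agent.W_448xc_h84.XgS` -/

section

/-!
# The general exchange (MP_448cb3_co): the profile of a part with at least four sites up to the
energy ten
-/

namespace Pool.Agent.GaussPoset.Win.Rd

set_option linter.unusedSectionVars false

open Finset I2 K2 Xg
open Pool.Agent.GaussPoset.Win.H2 (SdT NoT low_T up_T sum_all)

universe u

variable {P : Type u} [Fintype P] [PartialOrder P] [DecidableEq P] {r i : ℕ} {e : P → ℕ}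
variable {psi : P → P} {C : Finset P}
variable {Q : (P → ℕ) → Prop} {φ : (P → ℕ) → (P → ℕ)}

/-- the profile: at the energy `n` the window sum has the order `V - K10 n` -/
def K10 (n : ℕ) : ℕ := if n < 3 then 0 else if n < 5 then 1 else if n < 8 then 2 else
  if n < 10 then 3 else 4

variable (K : Cls r i psi C Q φ)
include K

/-- THE PROFILE of a part with at least four sites -/
theorem Cls.prof10 {n : ℕ} (hn : n ≤ 10) : dd ^ ((st i C).card - K10 n) ∣ ZC i C n := by
  refine K.order hn ?_ ?_ (fun e ho hs => K.cond (n := n) (k := K10 n) ?_ ho hs)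
  · interval_cases n <;> simp [K10]
  · interval_cases n <;> simp [K10]
  · interval_cases n <;> simp [K10]

/-- the energy five: the leftover has two deficits -/
theorem Cls.five : dd ^ ((st i C).card - 1) ∣ ZC i C 5 - ∑ e ∈ Lft i psi C Q 5 1, tC i C e :=
  K.sum_lft fun _ ho hs => K.cond (by simp) ho hs

/-- the energy eight: the leftover has three deficits -/
theorem Cls.eight : dd ^ ((st i C).card - 2) ∣ ZC i C 8 - ∑ e ∈ Lft i psi C Q 8 2, tC i C e :=
  K.sum_lft fun _ ho hs => K.cond (by simp) ho hs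

/-- the energy ten: the leftover has four deficits -/
theorem Cls.ten : dd ^ ((st i C).card - 3) ∣ ZC i C 10 - ∑ e ∈ Lft i psi C Q 10 3, tC i C e :=
  K.sum_lft fun _ ho hs => K.cond (by simp) ho hs

end Pool.Agent.GaussPoset.Win.Rd

end

/-! From `Pool.Agent.W_448xc_h84.XhA` -/

section

/-!
# MP_448cb3_co, case B, the window `j - 1`: the pendants of a component with at least four sites
-/

namespace Pool.Agent.GaussPoset.Wd

set_option linter.unusedSectionVars false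

open Finset Win Win.I2 Win.Xg

universe u

variable {P : Type u} [Fintype P] [PartialOrder P] [DecidableEq P] {r j i : ℕ}
  {t : Tops P} {lo hi : ℕ → ℕ} {e : ℕ → ℕ → P} {psi : P → P}

/-- the structure of the level `j + 1`, at the window `i = j - 1` -/
lemma NJ.noTT (h : NJ P r j) (hij : i + 1 = j) (hi1 : 1 ≤ i) : H2.NoT P (i + 2) := by
  classical
  subst hij
  intro z hz y hy y' hy' hne hc
  rcases (near_level' h.g hi1).1 z y y' hz (mem_uc.1 hy) (mem_uc.1 hy') hne with h1 | h1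
  · rw [← card_uc_inter] at h1
    obtain ⟨a, ha⟩ : (uc y ∩ uc y').Nonempty := card_pos.1 (by omega)
    rw [mem_inter] at ha
    exact ⟨a, ha.1, ha.2⟩
  · omega

/-- the part of a top at the window `j - 1`: no pendants, or one pendant below and one above over
matched elements -/
theorem NJ.dich (h : NJ P r j) (hij : i + 1 = j) (hi1 : 1 ≤ i) (C : Cp.Comp j (t : P) lo hi e)
    (h4 : lo i + 3 ≤ hi i) (hM : Mat P i ∅ psi) :
    Rd.NoP i (SS i t) ∨ ∃ y p w u v v', Rd.OneP i psi (SS i t) y p w u v v' := by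
  classical
  have W := C.toWin
  have g := h.g
  have hone := indiv_21 g i (by omega) t t.2
  have hS : S5c lo hi e i := by
    subst hij
    exact (near_level' g hi1).2 t lo hi e t.2 W
  have hmem : ∀ {q : P}, lev q ≤ j + 1 → (q ∈ SS i t ↔ q ≤ (t : P)) := fun hq =>
    h.mem (by omega) t hq
  have huD : ∀ {q q' : P}, q ∈ SS i t → q' ∈ SS i t → q ∈ PD P i → q' ∈ PD P i → q = q' := by
    intro q q' hq hq' h1 h2
    have l1 := (lev_PD h1).1
    have l2 := (lev_PD h2).1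
    have h3 : (PDt i (t : P)).card ≤ 1 := by rw [hone.2]; exact hone.1
    rw [card_le_one] at h3
    exact h3 q (mem_PDt.2 ⟨h1, (hmem (by omega)).1 hq⟩) q' (mem_PDt.2 ⟨h2, (hmem (by omega)).1 hq'⟩)
  have huU : ∀ {q q' : P}, q ∈ SS i t → q' ∈ SS i t → q ∈ PU P i → q' ∈ PU P i → q = q' := by
    intro q q' hq hq' h1 h2
    have l1 := (mem_PU.1 h1).1
    have l2 := (mem_PU.1 h2).1
    have h3 := hone.1
    rw [card_le_one] at h3
    exact h3 q (mem_PUt.2 ⟨h1, (hmem (by omega)).1 hq⟩) q' (mem_PUt.2 ⟨h2, (hmem (by omega)).1 hq'⟩)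
  -- the partner
  have hpsi : ∀ {y w v v' : P}, lev v = i → lev v' = i → v ≠ v' → uc y = {v, v'} →
      dc w = {v, v'} → lev y = i + 1 → psi y = w := by
    intro y w v v' lv lv' hne hy hw ly
    have hyd : y ∈ dbL P i := mem_dbL.2 ⟨ly, by rw [hy, card_pair hne]⟩
    obtain ⟨h1, h2⟩ := hM.low y hyd (notMem_empty _)
    rw [hy] at h2
    refine (ucv_uniq g (v := v) (v' := v') (by omega) hne (by omega) ?_ ?_ ?_ ?_).symm
    · exact mem_dc.1 (by rw [hw]; simp)
    · exact mem_dc.1 (by rw [hw]; simp)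
    · exact mem_dc.1 (by rw [h2]; simp)
    · exact mem_dc.1 (by rw [h2]; simp)
  rcases hS with ⟨g1, g2, -⟩ | ⟨⟨h2i, c1, c2, c3⟩, -, b, hb, hpen⟩ |
    ⟨⟨h2i, c1, c2, c3⟩, -, b, hb, hpen⟩
  · -- no pendants
    left
    have hU0 : ∀ q : P, q ∈ PU P i → ¬ q ≤ (t : P) := by
      intro q hq hqt
      have hl := (mem_PU.1 hq).1
      obtain ⟨m, rfl⟩ : ∃ m, i = m + 2 := ⟨lev q, by omega⟩
      obtain ⟨k1, k2⟩ := W.PU_cases g t.2 (by omega) hq hqt
      rcases k2 with ⟨a1, a2, -⟩ | ⟨a1, a2, -⟩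
      · exact g1 ⟨by omega, a1, a2, by omega⟩
      · exact g2 ⟨by omega, a1, a2, by omega⟩
    have h0 : (PUt i (t : P)).card = 0 := by
      rw [card_eq_zero, eq_empty_iff_forall_notMem]
      intro q hq
      rw [mem_PUt] at hq
      exact hU0 q hq.1 hq.2
    have h1 : (PDt i (t : P)).card = 0 := by rw [hone.2, h0]
    rw [card_eq_zero, eq_empty_iff_forall_notMem] at h1
    intro q hq
    refine ⟨fun h2 => ?_, fun h2 => ?_⟩
    · have l1 := (lev_PD h2).1
      exact h1 q (mem_PDt.2 ⟨h2, (hmem (by omega)).1 hq⟩)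
    · have l1 := (mem_PU.1 h2).1
      exact hU0 q h2 ((hmem (by omega)).1 hq)
  · -- the left end
    right
    obtain ⟨m, rfl⟩ : ∃ m, i = m + 2 := ⟨i - 2, by omega⟩
    rw [show m + 2 - 1 = m + 1 by omega, show m + 2 - 2 = m by omega] at c1
    rw [show m + 2 - 1 = m + 1 by omega] at c2
    have f1 := W.lohi m (by omega)
    have f2 := W.lohi (m + 1) (by omega)
    have f3 := W.lohi (m + 2) (by omega)
    have f4 := W.hi_ge (m + 1) (by omega)
    have f5 := W.hi_ge m (by omega)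
    have f6 := W.hi_le m (by omega)
    have hb' : b = lo (m + 2) + 1 := by
      rcases hb with hb | ⟨hb, hb2⟩
      · exact hb
      · exfalso
        have h5 := NJ.pen_three h (i := m + 1) (by omega) (by omega) C (a := b) (by omega)
          (by rw [show m + 1 + 1 = m + 2 from rfl] at f4; omega)
        have h6 := hpen b (by omega) hb2
        rw [if_pos rfl] at h6
        rw [show m + 2 + 1 = m + 1 + 2 by omega, h5, card_empty] at h6
        omega
    subst hb'
    have h6 := hpen (lo (m + 2) + 1) (by omega) (by omega)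
    rw [if_pos rfl] at h6
    obtain ⟨p, hp⟩ := card_pos.1 (show 0 < (pen (e (m + 2 + 1) (lo (m + 2) + 1))).card by omega)
    have hup := pen_uc hp
    have k1 : lo (m + 3) ≤ lo (m + 2) + 1 := W.lo_ge (m + 2) (by omega)
    have k2 : hi (m + 2) ≤ hi (m + 3) := W.hi_le (m + 2) (by omega)
    have hly := W.lev_x (m + 3) (by omega) (lo (m + 2) + 1) (by omega) (by omega)
    have hyt := W.le_t (m + 3) (by omega) (lo (m + 2) + 1) (by omega) (by omega)
    have hy := W.uc_eq g t.2 (k := m + 2) (a := lo (m + 2) + 1) (by omega) (by omega) (by omega)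
    rw [Nat.add_sub_cancel] at hy
    have hw := W.dc_eq g t.2 (k := m + 1) (b := lo (m + 1)) (by omega) le_rfl f2 (by
      rw [show m + 1 + 1 = m + 2 from rfl]; omega) (by rw [show m + 1 + 1 = m + 2 from rfl]; omega)
    rw [show m + 1 + 1 = m + 2 from rfl, ← c2] at hw
    have lw := W.lev_x (m + 1) (by omega) (lo (m + 1)) le_rfl f2
    have lu := W.lev_x m (by omega) (lo m) le_rfl f1
    have lv0 := W.lev_x (m + 2) (by omega) (lo (m + 2)) le_rfl f3
    have lv1 := W.lev_x (m + 2) (by omega) (lo (m + 2) + 1) (by omega) (by omega)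
    have hne := W.inj (m + 2) (by omega) (lo (m + 2)) (lo (m + 2) + 1) le_rfl (by omega) (by omega)
    have hu : dc (e m (lo m)) = {e (m + 1) (lo (m + 1))} := by
      ext z
      rw [mem_dc, mem_singleton, W.dc_iff g t.2 (by omega) le_rfl f1]
      constructor
      · rintro ⟨a, a1, a2, a3, rfl⟩
        rw [show a = lo (m + 1) by omega]
      · rintro rfl
        exact ⟨lo (m + 1), le_rfl, f2, by omega, rfl⟩
    have hpC : p ∈ SS (m + 2) t := by
      have hpc := (mem_pen.1 hp).1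
      have hlp := lev_cov g.H hpc
      rw [show m + 2 + 1 = m + 3 from rfl] at hlp
      exact (hmem (by omega)).2 (hpc.le.trans hyt)
    have hpD : p ∈ PD P (m + 2) := by
      have hpc := (mem_pen.1 hp).1
      have hlp := lev_cov g.H hpc
      rw [show m + 2 + 1 = m + 3 from rfl] at hlp
      rw [mem_PD]
      exact ⟨by omega, (mem_pen.1 hp).2, _, hpc, by rw [hy, card_pair hne]⟩
    have hwt := W.le_t (m + 1) (by omega) (lo (m + 1)) le_rfl f2
    have hut := W.le_t m (by omega) (lo m) le_rfl f1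
    have huC : e m (lo m) ∈ SS (m + 2) t := (hmem (by omega)).2 hut
    have huU' : e m (lo m) ∈ PU P (m + 2) := W.PU_left g t.2 (by omega) c1 c2 (by omega)
    rw [c2] at hw
    refine ⟨e (m + 3) (lo (m + 2) + 1), p, e (m + 1) (lo (m + 1)), e m (lo m),
      e (m + 2) (lo (m + 2)), e (m + 2) (lo (m + 2) + 1), ?_⟩
    have hw' : dc (e (m + 1) (lo (m + 1))) = {e (m + 2) (lo (m + 2)), e (m + 2) (lo (m + 2) + 1)} := by
      rw [c2]; exact hw
    exact ⟨⟨by omega, by omega, hy, hw', hne, hup, hu⟩,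
      hpsi lv0 lv1 hne hy hw' hly,
      (hmem (by omega)).2 hyt, hpC, (hmem (by omega)).2 hwt, huC,
      fun q hq h1 => huD hq hpC h1 hpD, fun q hq h1 => huU hq huC h1 huU'⟩
  · -- the right end
    right
    obtain ⟨m, rfl⟩ : ∃ m, i = m + 2 := ⟨i - 2, by omega⟩
    rw [show m + 2 - 1 = m + 1 by omega, show m + 2 - 2 = m by omega] at c1
    rw [show m + 2 - 1 = m + 1 by omega] at c2
    have f1 := W.lohi m (by omega)
    have f2 := W.lohi (m + 1) (by omega)
    have f3 := W.lohi (m + 2) (by omega)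
    have f4 := W.lo_le (m + 1) (by omega)
    have f5 := W.lo_le m (by omega)
    have f6 := W.lo_ge m (by omega)
    rw [show m + 1 + 1 = m + 2 from rfl] at f4
    have hb' : b = hi (m + 2) := by
      rcases hb with hb | ⟨hb, hb2⟩
      · exact hb
      · exfalso
        have h5 := NJ.pen_three h (i := m + 1) (by omega) (by omega) C (a := b) (by omega) (by omega)
        have h6 := hpen b (by omega) (by omega)
        rw [if_pos rfl] at h6
        rw [show m + 2 + 1 = m + 1 + 2 by omega, h5, card_empty] at h6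
        omega
    subst hb'
    have h6 := hpen (hi (m + 2)) (by omega) le_rfl
    rw [if_pos rfl] at h6
    obtain ⟨p, hp⟩ := card_pos.1 (show 0 < (pen (e (m + 2 + 1) (hi (m + 2)))).card by omega)
    have hup := pen_uc hp
    have k1 : lo (m + 3) ≤ lo (m + 2) + 1 := W.lo_ge (m + 2) (by omega)
    have k2 : hi (m + 2) ≤ hi (m + 3) := W.hi_le (m + 2) (by omega)
    have hly := W.lev_x (m + 3) (by omega) (hi (m + 2)) (by omega) (by omega)
    have hyt := W.le_t (m + 3) (by omega) (hi (m + 2)) (by omega) (by omega)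
    have hy := W.uc_eq g t.2 (k := m + 2) (a := hi (m + 2)) (by omega) (by omega) le_rfl
    have hw := W.dc_eq g t.2 (k := m + 1) (b := hi (m + 1)) (by omega) f2 le_rfl (by
      rw [show m + 1 + 1 = m + 2 from rfl]; omega) (by rw [show m + 1 + 1 = m + 2 from rfl]; omega)
    rw [show m + 1 + 1 = m + 2 from rfl, ← c2] at hw
    have lw := W.lev_x (m + 1) (by omega) (hi (m + 1)) f2 le_rfl
    have lu := W.lev_x m (by omega) (hi m) f1 le_rfl
    have lv0 := W.lev_x (m + 2) (by omega) (hi (m + 2) - 1) (by omega) (by omega)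
    have lv1 := W.lev_x (m + 2) (by omega) (hi (m + 2)) f3 le_rfl
    have hne := W.inj (m + 2) (by omega) (hi (m + 2) - 1) (hi (m + 2)) (by omega) (by omega) le_rfl
    have hu : dc (e m (hi m)) = {e (m + 1) (hi (m + 1))} := by
      ext z
      rw [mem_dc, mem_singleton, W.dc_iff g t.2 (by omega) f1 le_rfl]
      constructor
      · rintro ⟨a, a1, a2, a3, rfl⟩
        rw [show a = hi (m + 1) by omega]
      · rintro rfl
        exact ⟨hi (m + 1), f2, le_rfl, by omega, rfl⟩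
    have hpC : p ∈ SS (m + 2) t := by
      have hpc := (mem_pen.1 hp).1
      have hlp := lev_cov g.H hpc
      rw [show m + 2 + 1 = m + 3 from rfl] at hlp
      exact (hmem (by omega)).2 (hpc.le.trans hyt)
    have hpD : p ∈ PD P (m + 2) := by
      have hpc := (mem_pen.1 hp).1
      have hlp := lev_cov g.H hpc
      rw [show m + 2 + 1 = m + 3 from rfl] at hlp
      rw [mem_PD]
      exact ⟨by omega, (mem_pen.1 hp).2, _, hpc, by rw [hy, card_pair hne]⟩
    have hwt := W.le_t (m + 1) (by omega) (hi (m + 1)) f2 le_rfl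
    have hut := W.le_t m (by omega) (hi m) f1 le_rfl
    have huC : e m (hi m) ∈ SS (m + 2) t := (hmem (by omega)).2 hut
    have huU' : e m (hi m) ∈ PU P (m + 2) := W.PU_right g t.2 (by omega) c1 c2 (by omega)
    refine ⟨e (m + 3) (hi (m + 2)), p, e (m + 1) (hi (m + 1)), e m (hi m),
      e (m + 2) (hi (m + 2) - 1), e (m + 2) (hi (m + 2)), ?_⟩
    have hw' : dc (e (m + 1) (hi (m + 1))) = {e (m + 2) (hi (m + 2) - 1), e (m + 2) (hi (m + 2))} := by
      rw [hw, show hi (m + 1) = hi (m + 2) - 1 by omega]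
    exact ⟨⟨by omega, by omega, hy, hw', hne, hup, hu⟩,
      hpsi lv0 lv1 hne hy hw' hly,
      (hmem (by omega)).2 hyt, hpC, (hmem (by omega)).2 hwt, huC,
      fun q hq h1 => huD hq hpC h1 hpD, fun q hq h1 => huU hq huC h1 huU'⟩

end Pool.Agent.GaussPoset.Wd

end

/-! From `Pool.Agent.W_448xc_h84.XhB` -/

section

/-!
# MP_448cb3_co, case B, the window `j - 1`: the class of the components with at least four sites
-/

namespace Pool.Agent.GaussPoset.Wd

set_option linter.unusedSectionVars false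

open Finset Win Win.I2 Win.Xg

universe u

variable {P : Type u} [Fintype P] [PartialOrder P] [DecidableEq P] {r j i : ℕ}
  {t : Tops P} {lo hi : ℕ → ℕ} {e : ℕ → ℕ → P} {psi : P → P}

variable (h : NJ P r j) (hij : i + 1 = j) (hi1 : 1 ≤ i) (C : Cp.Comp j (t : P) lo hi e)
  (h4 : lo i + 3 ≤ hi i) (hM : Mat P i ∅ psi)
include h hij hi1 C h4 hM

/-- a component with at least four sites at the window `j - 1` is in the class `Cls` -/
theorem NJ.cls4 : ∃ Q φ, Rd.Cls r i psi (SS i t) Q φ ∧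
    ((Q = fun _ => False) ∧ Rd.NoP i (SS i t) ∨
      ∃ y p w u v v', Rd.OneP i psi (SS i t) y p w u v v' ∧ Q = FP y p w u v v') := by
  have g := h.g
  have hT := h.noTT hij hi1
  have hQ : K2.NoQ P (i + 3) := by
    have h1 := Pool.Agent.GaussPoset.EK.NJ.noQ h (by omega)
    rwa [show j + 2 = i + 3 by omega] at h1
  have hC : Part (i + 1) (SS i t) := h.part (by omega) (by omega) t
  have gi : GoodTo P r (i + 1) := by rw [hij]; exact g
  rcases h.dich hij hi1 C h4 hM with hN | ⟨y, p, w, u, v, v', O⟩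
  · exact ⟨_, _, Rd.Cls.ofNo gi hT hQ hi1 hM hC hN, Or.inl ⟨rfl, hN⟩⟩
  · exact ⟨_, _, Rd.Cls.ofOne gi hT hQ hi1 hM hC O, Or.inr ⟨y, p, w, u, v, v', O, rfl⟩⟩

/-- THE PROFILE of a component with at least four sites, at the window `j - 1` -/
theorem NJ.prof10 {n : ℕ} (hn : n ≤ 10) :
    dd ^ ((st i (SS i t)).card - Rd.K10 n) ∣ ZC i (SS i t) n := by
  obtain ⟨Q, φ, K, -⟩ := h.cls4 hij hi1 C h4 hM
  exact K.prof10 hn

end Pool.Agent.GaussPoset.Wd

end
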