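import Mathlib
import Pool.Agent.W_448zz_h61.Ns
import Pool.Agent.W_448zz_h61.M156
import Pool.Agent.W_448zz_h61.M162

/-! From `Pool.Agent.W_448pn_h63.PnX` -/

section

/-!
# The pinned series in case B at the window `j - 1` (MP_448cb3_co, G2)
-/

set_option autoImplicit false

namespace Pool.Agent.GaussPoset.Win.Pn

set_option linter.unusedSectionVars false

open Finset W4 Wd
open Pool.Agent.GaussPoset.Win.SO (con PN on mem_PN vp)
open Pool.Agent.GaussPoset.Win.I2 (bb VV)

universe u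

variable {P : Type u} [Fintype P] [PartialOrder P] [DecidableEq P] {r j i : ℕ}
  {psi : P → P} {C : Finset P}

section nj

variable (h : NJ P r j) (hij : i + 1 = j) (hi1 : 1 ≤ i)
include h hij hi1

/-- the frame of a part -/
theorem nj_fr (hM : Mat P i ∅ psi) (t : Tops P) : Fr r i psi (SS i t) := by
  have g : GoodTo P r (i + 1) := by rw [hij]; exact h.g
  have hQ : K2.NoQ P (i + 3) := by
    have h1 := Pool.Agent.GaussPoset.EK.NJ.noQ h (by omega)
    rwa [show j + 2 = i + 3 by omega] at h1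
  exact ⟨⟨h.g.H, hi1, g.hr, hM, h.part (by omega) (by omega) t⟩, g, h.noTT hij hi1, hQ⟩

/-- at most one pendant below and one above, and as many below as above -/
theorem nj_one (t : Tops P) : ((SS i t).filter (· ∈ PD P i)).card ≤ 1 ∧
    ((SS i t).filter (· ∈ PU P i)).card ≤ 1 ∧ Bal i (SS i t) := by
  classical
  have hone := indiv_21 h.g i (by omega) t t.2
  have h1 : (SS i t).filter (· ∈ PD P i) = PDt i (t : P) := by
    ext q
    rw [mem_filter, mem_PDt]
    constructor
    · rintro ⟨h1, h2⟩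
      have := (lev_PD h2).1
      exact ⟨h2, (h.mem (by omega) t (by omega)).1 h1⟩
    · rintro ⟨h1, h2⟩
      have := (lev_PD h1).1
      exact ⟨(h.mem (by omega) t (by omega)).2 h2, h1⟩
  have h2 : (SS i t).filter (· ∈ PU P i) = PUt i (t : P) := by
    ext q
    rw [mem_filter, mem_PUt]
    constructor
    · rintro ⟨h1, h2⟩
      have := (mem_PU.1 h2).1
      exact ⟨h2, (h.mem (by omega) t (by omega)).1 h1⟩
    · rintro ⟨h1, h2⟩
      have := (mem_PU.1 h1).1
      exact ⟨(h.mem (by omega) t (by omega)).2 h2, h1⟩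
  unfold Bal
  rw [h1, h2, hone.2]
  exact ⟨hone.1, hone.1, rfl⟩

/-- two pendants of a part have a common site -/
theorem nj_meet (hM : Mat P i ∅ psi) (t : Tops P) : Meet i (SS i t) := by
  classical
  have F := nj_fr h hij hi1 hM t
  have H := h.g.H
  obtain ⟨n1, n2, -⟩ := nj_one h hij hi1 t
  rw [card_le_one] at n1 n2
  have key : ∀ p ∈ SS i t, p ∈ PD P i → ∀ p' ∈ SS i t, p' ∈ PU P i →
      ¬ Disjoint (sit i p) (sit i p') := by
    intro p hp hpD p' hp' hpU hd
    have hpn : p ∈ PN i (SS i t) := mem_PN.2 ⟨hp, Or.inl hpD⟩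
    have hpn' : p' ∈ PN i (SS i t) := mem_PN.2 ⟨hp', Or.inr hpU⟩
    obtain ⟨c1, -⟩ := pn_two F hpn
    obtain ⟨c2, -⟩ := pn_two F hpn'
    have h4 : 4 ≤ (st i (SS i t)).card := by
      have h5 : sit i p ∪ sit i p' ⊆ st i (SS i t) :=
        union_subset (SO.sit_part H F.E.hC hp) (SO.sit_part H F.E.hC hp')
      have h6 := card_le_card h5
      rw [card_union_of_disjoint hd, c1, c2] at h6
      exact h6
    obtain ⟨lo, hi, e, Cm⟩ := Cp.comp_exists h.g.H t.2 h.g.hr h.g.good
    have hc := h.card_SS (i := i) (by omega) Cm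
    rcases h.dich hij hi1 Cm (by omega) hM with hN | ⟨y, q, w, u, v, v', O⟩
    · exact (hN p hp).1 hpD
    · have e1 := O.low p hp hpD
      have e2 := O.upp p' hp' hpU
      subst e1 e2
      rw [sit_PDs H hpD O.F.up, sit_PUs H hpU O.F.du, O.F.uy, O.F.dw, disjoint_self] at hd
      exact (insert_ne_empty _ _) hd
  intro p hp p' hp' hne hd
  obtain ⟨m1, k1⟩ := mem_PN.1 hp
  obtain ⟨m2, k2⟩ := mem_PN.1 hp'
  rcases k1 with k1 | k1 <;> rcases k2 with k2 | k2
  · exact hne (n1 p (mem_filter.2 ⟨m1, k1⟩) p' (mem_filter.2 ⟨m2, k2⟩))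
  · exact key p m1 k1 p' m2 k2 hd
  · exact key p' m2 k2 p m1 k1 hd.symm
  · exact hne (n2 p (mem_filter.2 ⟨m1, k1⟩) p' (mem_filter.2 ⟨m2, k2⟩))

/-- THE PINNED SERIES of the parts in case B -/
theorem nj_pinH : PinH i (topOf : P → Tops P) := by
  classical
  obtain ⟨psi, hM⟩ := good_mat h.g.H (h.g.good i (by omega))
  have hl : i + 2 = j + 1 := by omega
  have hc : ∀ t : Tops P, cext (i + 2) (topOf : P → Tops P) t = SS i t := by
    intro t
    rw [hl]
    exact h.cext_eq (by omega) t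
  have hb : ∀ t : Tops P, bb i (i + 2) (topOf : P → Tops P) t = (st i (SS i t)).card := by
    intro t
    rw [hl]
    exact h.bb_eq (by omega) t
  constructor
  · intro a _ t ht _
    rw [hc, hb]
    exact (nj_fr h hij hi1 hM a).hp ht
  · intro a _ t ht _ h1
    rw [hc] at h1 ⊢
    rw [hb]
    exact (nj_fr h hij hi1 hM a).mo (nj_meet h hij hi1 hM a) ht
      (nj_one h hij hi1 a).2.2 h1

/-- no crossing element has two exchangeable covers -/
theorem nj_noTT : NoTT i (topOf : P → Tops P) := by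
  classical
  intro z hz
  have H := h.g.H
  have hl : i + 2 = j + 1 := by omega
  have hκ : Split (i + 2) (topOf : P → Tops P) := by rw [hl]; exact h.split
  obtain ⟨p, p', a, a', hu, hne, ha, ha', haa, hpa, hpa'⟩ := z1s_covers H hκ hz
  by_contra hcon
  push Not at hcon
  obtain ⟨w, w2, q1, x, q2, T⟩ := hcon p (by rw [hu]; simp)
  obtain ⟨w', w2', q1', x', q2', T'⟩ := hcon p' (by rw [hu]; simp)
  have lp : lev p = i + 2 := by
    have := T.ld
    unfold Xg.laL at this
    omega
  have lz := lev_uc H (show p ∈ uc z by rw [hu]; simp)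
  have hQ : K2.NoQ P (i + 3) := by
    have h1 := Pool.Agent.GaussPoset.EK.NJ.noQ h (by omega)
    rwa [show j + 2 = i + 3 by omega] at h1
  obtain ⟨v, hv, hv'⟩ := hQ z (by omega) p (by rw [hu]; simp) p' (by rw [hu]; simp) hne
    (by rw [T.ud, card_pair T.ne]) (by rw [T'.ud, card_pair T'.ne])
  have lv1 := lev_uc H hv
  have k1 := mem_cext.1 hpa v (mem_uc.1 hv).le (by omega)
  have k2 := mem_cext.1 hpa' v (mem_uc.1 hv').le (by omega)
  exact haa (k1.symm.trans k2)

end nj

end Pool.Agent.GaussPoset.Win.Pn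

end

/-! From `Pool.Agent.W_448pn_h63.PnY` -/

section

/-!
# The crossing numbers in case B at the window `j - 1` (MP_448cb3_co, G2)

`XX 8` and `XX 10`: explicit values.
-/

set_option autoImplicit false

namespace Pool.Agent.GaussPoset.Win.Pn

set_option linter.unusedSectionVars false

open Finset W4 Wd
open Pool.Agent.GaussPoset.Win.SO (con PN on mem_PN vp)
open Pool.Agent.GaussPoset.Win.I2 (bb VV)
open Pool.Agent.GaussPoset.Win.So (N5s)
open Pool.Agent.GaussPoset.Win.T8 (XX)

universe u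

variable {P : Type u} [Fintype P] [PartialOrder P] [DecidableEq P] {r j i : ℕ}
  {psi : P → P} {C : Finset P} {p p' w z : P}

section pair

variable {ι : Type*} [DecidableEq ι] {κ : P → ι}

lemma sg_three (a : ι) : sg i κ 3 a = I2.al 3 (bb i (i + 2) κ a) (VV i (i + 2) κ a) := by
  unfold sg hc I2.al
  rw [show 3 / 2 = 1 from rfl, pow_one]

lemma sg_five (a : ι) : sg i κ 5 a = I2.be 5 (bb i (i + 2) κ a) (VV i (i + 2) κ a) := rfl

end pair

section nj

variable (h : NJ P r j) (hij : i + 1 = j) (hi1 : 1 ≤ i)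
include h hij hi1

/-- THE CROSSING NUMBER at the energy eight -/
theorem nj_XX8 (hb : 1 ≤ (lv P i).card) : XX i (topOf : P → Tops P) 8 =
    ∑ z ∈ X3 i (topOf : P → Tops P), WW i topOf 3 z +
      ((PR i (topOf : P → Tops P) 3).card : ℤ) := by
  have hκ : Split (i + 2) (topOf : P → Tops P) := by
    rw [show i + 2 = j + 1 by omega]
    exact h.split
  exact XX_eight' h.g.H hi1 (by have := h.g.hr; omega) hκ hb (nj_pinH h hij hi1)
    (nj_noTT h hij hi1)

/-- THE CROSSING NUMBER at the energy ten -/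
theorem nj_XX10 (hb : 1 ≤ (lv P i).card) : XX i (topOf : P → Tops P) 10 =
    ∑ z ∈ X3 i (topOf : P → Tops P), WW i topOf 4 z +
      ((PR i (topOf : P → Tops P) 4).card : ℤ) + ((N5s i (topOf : P → Tops P)).card : ℤ) := by
  have hκ : Split (i + 2) (topOf : P → Tops P) := by
    rw [show i + 2 = j + 1 by omega]
    exact h.split
  exact XX_ten' h.g.H hi1 (by have := h.g.hr; omega) (h.g.good i (by omega)) hκ hb
    (nj_pinH h hij hi1) (nj_noTT h hij hi1)

lemma nj_rho (n : ℕ) : rho i (topOf : P → Tops P) n p =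
    hc n (st i (SS i (topOf p))).card (ZPS i (SS i (topOf p)) (ind p)) := by
  unfold rho
  rw [show i + 2 = j + 1 by omega, h.cext_eq (i := i) (by omega), h.bb_eq (i := i) (by omega)]

lemma nj_mem (lw : lev w = i + 2) : w ∈ SS i (topOf w) :=
  (h.mem (by omega) (topOf w) (by omega)).2 (le_topOf w)

open Classical in
theorem nj_rho5_PD (hp : p ∈ PD P i) : rho i (topOf : P → Tops P) 5 p =
    ∑ z ∈ (ZL i (SS i (topOf p)) ∪ ZU i (SS i (topOf p))).filter
      (fun z => Disjoint (sit i z) (sit i p)), chg i (SS i (topOf p)) z +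
        ∑ p' ∈ Ov i (SS i (topOf p)) p, vp i p' := by
  obtain ⟨psi, hM⟩ := good_mat h.g.H (h.g.good i (by omega))
  rw [nj_rho h hij hi1]
  exact rho5_PD (nj_fr h hij hi1 hM _) (nj_meet h hij hi1 hM _)
    (nj_mem h hij hi1 (mem_PD.1 hp).1) hp

open Classical in
theorem nj_rho5_ZL (hz : w ∈ ZL i (SS i (topOf w))) : rho i (topOf : P → Tops P) 5 w =
    -∑ p ∈ (PN i (SS i (topOf w))).filter (fun p => Disjoint (sit i w) (sit i p)), vp i p -
      (ntw (SS i (topOf w)) w : ℤ) := by
  obtain ⟨psi, hM⟩ := good_mat h.g.H (h.g.good i (by omega))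
  rw [nj_rho h hij hi1]
  exact rho5_ZL (nj_fr h hij hi1 hM _) (nj_meet h hij hi1 hM _) hz

theorem nj_rho5_else (lw : lev w = i + 2) (hp : w ∉ PD P i)
    (hz : w ∉ ZL i (SS i (topOf w))) : rho i (topOf : P → Tops P) 5 w = 0 := by
  obtain ⟨psi, hM⟩ := good_mat h.g.H (h.g.good i (by omega))
  rw [nj_rho h hij hi1]
  exact rho5_else (nj_fr h hij hi1 hM _) (nj_meet h hij hi1 hM _) (nj_mem h hij hi1 lw) lw hp hz

open Classical in
theorem nj_rho7_PD (hp : p ∈ PD P i) : rho i (topOf : P → Tops P) 7 p =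
    -(((Tws i (SS i (topOf p))).filter (fun q => Disjoint (sit i q.1) (sit i p))).card : ℤ) := by
  obtain ⟨psi, hM⟩ := good_mat h.g.H (h.g.good i (by omega))
  rw [nj_rho h hij hi1]
  exact rho7_PD (nj_fr h hij hi1 hM _) (nj_meet h hij hi1 hM _)
    (nj_mem h hij hi1 (mem_PD.1 hp).1) hp

open Classical in
theorem nj_rho7_ZL (hz : w ∈ ZL i (SS i (topOf w))) : rho i (topOf : P → Tops P) 7 w =
    -((ntw (SS i (topOf w)) w : ℤ) * ∑ p ∈ (PN i (SS i (topOf w))).filter
      (fun p => Disjoint (sit i w) (sit i p)), vp i p) := by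
  obtain ⟨psi, hM⟩ := good_mat h.g.H (h.g.good i (by omega))
  rw [nj_rho h hij hi1]
  exact rho7_ZL (nj_fr h hij hi1 hM _) (nj_meet h hij hi1 hM _) hz

theorem nj_rho7_else (lw : lev w = i + 2) (hp : w ∉ PD P i)
    (hz : w ∉ ZL i (SS i (topOf w))) : rho i (topOf : P → Tops P) 7 w = 0 := by
  obtain ⟨psi, hM⟩ := good_mat h.g.H (h.g.good i (by omega))
  rw [nj_rho h hij hi1]
  exact rho7_else (nj_fr h hij hi1 hM _) (nj_meet h hij hi1 hM _) (nj_mem h hij hi1 lw) lw hp hz

/-- a part with at least four sites: the sum over the pendants with other sites vanishes -/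
theorem nj_pn_zero (hM : Mat P i ∅ psi) (t : Tops P) (h4 : 4 ≤ (st i (SS i t)).card)
    [DecidablePred (fun p : P => Disjoint (sit i w) (sit i p))] :
    ∑ p ∈ (PN i (SS i t)).filter (fun p => Disjoint (sit i w) (sit i p)), vp i p = 0 := by
  obtain ⟨lo, hi, e, Cm⟩ := Cp.comp_exists h.g.H t.2 h.g.hr h.g.good
  have hc := h.card_SS (i := i) (by omega) Cm
  rcases h.dich hij hi1 Cm (by omega) hM with hN | ⟨y, q, w', u, v, v', O⟩
  · apply Finset.sum_eq_zero
    intro p hp
    exfalso
    obtain ⟨h1, h2⟩ := mem_PN.1 (mem_filter.1 hp).1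
    rcases h2 with h2 | h2
    · exact (hN p h1).1 h2
    · exact (hN p h1).2 h2
  · have H := h.g.H
    have hF := O.F
    have lv1 := lev_uc H (show v ∈ uc y by rw [hF.uy]; simp)
    have ly := hF.ly
    have lw' := hF.lw
    have lq : lev q = i + 2 := by
      have := lev_uc H (show y ∈ uc q by rw [hF.up]; simp)
      omega
    have lu : lev u + 2 = i := by
      have := lev_dc H (show w' ∈ dc u by rw [hF.du]; simp)
      omega
    have hqD : q ∈ PD P i := mem_PD.2 ⟨lq, by rw [hF.up, card_singleton], y,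
      mem_uc.1 (by rw [hF.up]; simp), by rw [hF.uy, card_pair hF.ne]⟩
    have huU : u ∈ PU P i := mem_PU.2 ⟨lu, by rw [hF.du, card_singleton], w',
      mem_dc.1 (by rw [hF.du]; simp), by rw [hF.dw, card_pair hF.ne]⟩
    have s1 : sit i q = {v, v'} := by rw [sit_PDs H hqD hF.up, hF.uy]
    have s2 : sit i u = {v, v'} := by rw [sit_PUs H huU hF.du, hF.dw]
    have hPN : PN i (SS i t) = {q, u} := by
      ext p
      rw [mem_PN, mem_insert, mem_singleton]
      constructor
      · rintro ⟨h1, h2 | h2⟩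
        · exact Or.inl (O.low p h1 h2)
        · exact Or.inr (O.upp p h1 h2)
      · rintro (rfl | rfl)
        · exact ⟨O.mp, Or.inl hqD⟩
        · exact ⟨O.mu, Or.inr huU⟩
    have hqu : q ≠ u := by rintro rfl; omega
    rw [hPN]
    by_cases hd : Disjoint (sit i w) {v, v'}
    · rw [filter_true_of_mem, Finset.sum_pair hqu, SO.vp_PD hqD, SO.vp_PU huU]
      · norm_num
      · intro p hp
        rw [mem_insert, mem_singleton] at hp
        rcases hp with rfl | rfl
        · rw [s1]; exact hd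
        · rw [s2]; exact hd
    · rw [filter_false_of_mem, sum_empty]
      intro p hp
      rw [mem_insert, mem_singleton] at hp
      rcases hp with rfl | rfl
      · rw [s1]; exact hd
      · rw [s2]; exact hd

/-- a part with at least four sites: no pendants with exactly one common site -/
theorem nj_ov_empty (hM : Mat P i ∅ psi) (t : Tops P) (h4 : 4 ≤ (st i (SS i t)).card) :
    Ov i (SS i t) w = ∅ := by
  rw [eq_empty_iff_forall_notMem]
  intro p hp
  obtain ⟨hp1, hw, hne, hc1⟩ := mem_Ov.1 hp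
  obtain ⟨lo, hi, e, Cm⟩ := Cp.comp_exists h.g.H t.2 h.g.hr h.g.good
  have hc := h.card_SS (i := i) (by omega) Cm
  obtain ⟨m1, k1⟩ := mem_PN.1 hp1
  obtain ⟨m2, k2⟩ := mem_PN.1 hw
  have H := h.g.H
  rcases h.dich hij hi1 Cm (by omega) hM with hN | ⟨y, q, w', u, v, v', O⟩
  · rcases k1 with k1 | k1
    · exact (hN p m1).1 k1
    · exact (hN p m1).2 k1
  · have hF := O.F
    rcases k1 with k1 | k1 <;> rcases k2 with k2 | k2
    · exact hne ((O.low w m2 k2).trans (O.low p m1 k1).symm)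
    · have e1 := O.low p m1 k1
      have e2 := O.upp w m2 k2
      subst e1 e2
      rw [sit_PDs H k1 hF.up, sit_PUs H k2 hF.du, hF.uy, hF.dw, inter_self,
        card_pair hF.ne] at hc1
      omega
    · have e1 := O.upp p m1 k1
      have e2 := O.low w m2 k2
      subst e1 e2
      rw [sit_PDs H k2 hF.up, sit_PUs H k1 hF.du, hF.uy, hF.dw, inter_self,
        card_pair hF.ne] at hc1
      omega
    · exact hne ((O.upp w m2 k2).trans (O.upp p m1 k1).symm)

end nj

end Pool.Agent.GaussPoset.Win.Pn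

end

/-! From `Pool.Agent.W_448pn_h63.PnZ` -/

section

/-!
# The totals (8,3) and (10,4) in case B at the window `j - 1` (MP_448cb3_co, G2)
-/

set_option autoImplicit false

namespace Pool.Agent.GaussPoset.Win.Pn

set_option linter.unusedSectionVars false

open Finset W4 Wd
open Pool.Agent.GaussPoset.Win.SO (con PN on mem_PN vp)
open Pool.Agent.GaussPoset.Win.I2 (bb VV)
open Pool.Agent.GaussPoset.Win.So (N5s Z2s mem_Z2s)
open Pool.Agent.GaussPoset.Win.T8 (XX P10 Q8 Q10 cg)

universe u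

variable {P : Type u} [Fintype P] [PartialOrder P] [DecidableEq P] {r j i : ℕ}
  {psi : P → P} {C : Finset P} {p p' w z : P}

section gen

variable {ι : Type*} [DecidableEq ι] {κ : P → ι}

open Classical in
/-- the local contribution of a crossing element of the level `i + 3` -/
noncomputable def Wn (i : ℕ) (κ : P → ι) (m : ℕ) (z : P) : ℤ :=
  ∑ p ∈ uc z, (if ∀ q ∈ uc z, q ≠ p → q ∈ PD P i then rho i κ (2 * m - 1) p else 0) -
    (if ∀ q ∈ uc z, q ∈ PD P i then ∑ p ∈ uc z, sg i κ (2 * m - 3) (κ p) else 0)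

open Classical in
theorem Wn_pair (hu : uc z = {p, p'}) (hne : p ≠ p') (m : ℕ) : Wn i κ m z =
    (if p' ∈ PD P i then rho i κ (2 * m - 1) p else 0) +
      (if p ∈ PD P i then rho i κ (2 * m - 1) p' else 0) -
        (if p ∈ PD P i ∧ p' ∈ PD P i then
          sg i κ (2 * m - 3) (κ p) + sg i κ (2 * m - 3) (κ p') else 0) := by
  unfold Wn
  rw [hu, Finset.sum_pair hne, Finset.sum_pair hne]
  have h1 : (∀ q ∈ ({p, p'} : Finset P), q ≠ p → q ∈ PD P i) ↔ p' ∈ PD P i := by
    simp only [mem_insert, mem_singleton, forall_eq_or_imp, forall_eq]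
    exact ⟨fun h => h.2 hne.symm, fun h => ⟨fun h' => absurd rfl h', fun _ => h⟩⟩
  have h2 : (∀ q ∈ ({p, p'} : Finset P), q ≠ p' → q ∈ PD P i) ↔ p ∈ PD P i := by
    simp only [mem_insert, mem_singleton, forall_eq_or_imp, forall_eq]
    exact ⟨fun h => h.1 hne, fun h => ⟨fun _ => h, fun h' => absurd rfl h'⟩⟩
  have h3 : (∀ q ∈ ({p, p'} : Finset P), q ∈ PD P i) ↔ p ∈ PD P i ∧ p' ∈ PD P i := by
    simp only [mem_insert, mem_singleton, forall_eq_or_imp, forall_eq]
  simp only [h1, h2, h3]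

variable (H : Gr P r) (hκ : Split (i + 2) κ)
include H hκ

/-- the crossing elements with two pendants as covers -/
lemma X3_Z2s : z ∈ Z2s i κ ↔ z ∈ X3 i κ ∧ ∀ q ∈ uc z, q ∈ PD P i := by
  constructor
  · intro hz
    obtain ⟨h1, h2, -, -⟩ := mem_Z2s.1 hz
    exact ⟨mem_X3.2 ⟨h1, h2⟩, fun q hq => (Z2s_cov H hκ hz hq).1⟩
  · rintro ⟨hz, hq⟩
    obtain ⟨h1, h2⟩ := mem_X3.1 hz
    have hcov : ∀ y, z ⋖ y → y ∈ cuni (i + 2) κ := by
      intro y hy
      have := lev_uc H (mem_uc.2 hy)
      exact le_mem_cuni hκ (by omega)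
    obtain ⟨p, p', a, a', huc, hpp, ha, ha', haa, hpa, hpa'⟩ :=
      z1s_covers H hκ (mem_z1s.2 ⟨h2, hcov⟩)
    have q1 := hq p (by rw [huc]; simp)
    have q1' := hq p' (by rw [huc]; simp)
    have l1 := PD_lev q1
    have l1' := PD_lev q1'
    obtain ⟨-, c1, y, hy, c2⟩ := mem_PD.1 q1
    obtain ⟨-, c1', y', hy', c2'⟩ := mem_PD.1 q1'
    have k1 : κ p = a := mem_cext.1 hpa p le_rfl (by omega)
    have k2 : κ p' = a' := mem_cext.1 hpa' p' le_rfl (by omega)
    have u1 : uc p = {y} := by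
      obtain ⟨w, hw⟩ := card_eq_one.1 c1
      have := mem_uc.2 hy
      rw [hw, mem_singleton] at this
      rw [hw, this]
    have u2 : uc p' = {y'} := by
      obtain ⟨w, hw⟩ := card_eq_one.1 c1'
      have := mem_uc.2 hy'
      rw [hw, mem_singleton] at this
      rw [hw, this]
    exact So.ZD.mem (⟨⟨h1, huc, by rw [k1, k2]; exact haa⟩, u1, u2, c2, c2'⟩ :
      So.ZD i κ z p p' y y') H hκ

/-- the local contributions -/
theorem sum_WW (m : ℕ) : ∑ z ∈ X3 i κ, WW i κ m z = ∑ z ∈ X3 i κ, Wn i κ m z +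
    ((Z2s i κ).card : ℤ) * ∑ a ∈ univ.image κ, sg i κ (2 * m - 3) a := by
  classical
  have h1 : ∀ z ∈ X3 i κ, WW i κ m z = Wn i κ m z +
      (if ∀ q ∈ uc z, q ∈ PD P i then ∑ a ∈ univ.image κ, sg i κ (2 * m - 3) a else 0) := by
    intro z _
    unfold WW Wn
    split_ifs <;> ring
  rw [Finset.sum_congr rfl h1, sum_add_distrib, ← Finset.sum_filter, Finset.sum_const,
    nsmul_eq_mul]
  have h2 : (X3 i κ).filter (fun z => ∀ q ∈ uc z, q ∈ PD P i) = Z2s i κ := by
    ext z
    rw [mem_filter, X3_Z2s H hκ]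
  rw [h2]

end gen

section nj

variable (h : NJ P r j) (hij : i + 1 = j) (hi1 : 1 ≤ i)
include h hij hi1

/-- two joins of pendants: no conditions on the sites -/
lemma nj_PR (k : ℕ) : PR i (topOf : P → Tops P) k =
    ((Z2s i (topOf : P → Tops P)).powersetCard 2).filter (fun s => (s.biUnion uc).card = k) := by
  classical
  have H := h.g.H
  have hκ : Split (i + 2) (topOf : P → Tops P) := by
    rw [show i + 2 = j + 1 by omega]
    exact h.split
  ext s
  rw [mem_PR, mem_filter, mem_powersetCard]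
  constructor
  · rintro ⟨h1, h2, -⟩
    exact ⟨h1, h2⟩
  · rintro ⟨h1, h2⟩
    refine ⟨h1, h2, ?_⟩
    intro w hw w' hw' hne hk
    exfalso
    obtain ⟨z, hz, hzw⟩ := mem_biUnion.1 hw
    obtain ⟨z', hz', hzw'⟩ := mem_biUnion.1 hw'
    have q := (Z2s_cov H hκ (h1.1 hz) hzw).1
    have q' := (Z2s_cov H hκ (h1.1 hz') hzw').1
    have m := nj_mem h hij hi1 (PD_lev q)
    have m' := nj_mem h hij hi1 (PD_lev q')
    rw [← hk] at m'
    obtain ⟨n1, -, -⟩ := nj_one h hij hi1 (topOf w)
    rw [card_le_one] at n1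
    exact hne (n1 w (mem_filter.2 ⟨m, q⟩) w' (mem_filter.2 ⟨m', q'⟩))

/-- pairs of joins of the same two pendants -/
noncomputable def DB (i : ℕ) (κ : P → Tops P) : Finset (Finset P) :=
  ((Z2s i κ).powersetCard 2).filter (fun s => (s.biUnion uc).card = 2)

/-- the pairs of joins of pendants -/
theorem nj_pairs : ((Z2s i (topOf : P → Tops P)).card : ℤ) ^ 2 =
    ((Z2s i (topOf : P → Tops P)).card : ℤ) +
      2 * ((PR i (topOf : P → Tops P) 4).card : ℤ) + 2 * ((PR i (topOf : P → Tops P) 3).card : ℤ) +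
        2 * ((DB i (topOf : P → Tops P)).card : ℤ) := by
  classical
  have H := h.g.H
  have hκ : Split (i + 2) (topOf : P → Tops P) := by
    rw [show i + 2 = j + 1 by omega]
    exact h.split
  have hc : ∀ z ∈ Z2s i (topOf : P → Tops P), (uc z).card = 2 := by
    intro z hz
    obtain ⟨p, p', y, y', D⟩ := So.Z2s_ZD H hκ hz
    have hne : p ≠ p' := by
      rintro rfl
      exact D.ne rfl
    rw [D.cov, card_pair hne]
  have h1 : ((Z2s i (topOf : P → Tops P)).powersetCard 2).card =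
      (PR i (topOf : P → Tops P) 4).card + (PR i (topOf : P → Tops P) 3).card +
        (DB i (topOf : P → Tops P)).card := by
    rw [nj_PR h hij hi1, nj_PR h hij hi1]
    unfold DB
    rw [← card_union_of_disjoint, ← card_union_of_disjoint]
    · congr 1
      ext s
      simp only [mem_union, mem_filter]
      constructor
      · intro hs
        obtain ⟨s1, s2⟩ := mem_powersetCard.1 hs
        obtain ⟨a, b, hab, rfl⟩ := card_eq_two.1 s2
        have ha := hc a (s1 (by simp))
        have hb := hc b (s1 (by simp))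
        have h5 : ({a, b} : Finset P).biUnion uc = uc a ∪ uc b := by
          rw [biUnion_insert, singleton_biUnion]
        have h3 := card_union_le (uc a) (uc b)
        have h4 := card_le_card (subset_union_left (s₁ := uc a) (s₂ := uc b))
        rw [h5]
        have : (uc a ∪ uc b).card = 4 ∨ (uc a ∪ uc b).card = 3 ∨ (uc a ∪ uc b).card = 2 := by
          omega
        rcases this with h6 | h6 | h6
        · exact Or.inl (Or.inl ⟨hs, h6⟩)
        · exact Or.inl (Or.inr ⟨hs, h6⟩)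
        · exact Or.inr ⟨hs, h6⟩
      · rintro ((h2 | h2) | h2) <;> exact h2.1
    · rw [disjoint_left]
      intro s hs hs'
      have k2 := (mem_filter.1 hs').2
      rcases mem_union.1 hs with hs | hs
      · have k1 := (mem_filter.1 hs).2
        omega
      · have k1 := (mem_filter.1 hs).2
        omega
    · rw [disjoint_left]
      intro s hs hs'
      have k1 := (mem_filter.1 hs).2
      have k2 := (mem_filter.1 hs').2
      omega
  rw [card_powersetCard, Nat.choose_two_right] at h1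
  have h2 := Nat.even_mul_pred_self (Z2s i (topOf : P → Tops P)).card
  obtain ⟨k, hk⟩ := h2
  rw [hk, show (k + k) / 2 = k by omega] at h1
  rcases Nat.eq_zero_or_pos (Z2s i (topOf : P → Tops P)).card with h3 | h3
  · rw [h3] at hk ⊢
    simp only [Nat.zero_mul] at hk
    have : k = 0 := by omega
    push_cast
    omega
  · obtain ⟨m, hm⟩ := Nat.exists_eq_add_of_le h3
    rw [hm] at hk ⊢
    rw [show 1 + m - 1 = m by omega] at hk
    have h4 : ((1 + m : ℕ) : ℤ) * m = k + k := by exact_mod_cast hk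
    have h5 : (k : ℤ) = (PR i (topOf : P → Tops P) 4).card +
      (PR i (topOf : P → Tops P) 3).card + (DB i (topOf : P → Tops P)).card := by exact_mod_cast h1
    push_cast at h4 ⊢
    nlinarith

variable (hb : 1 ≤ (lv P i).card)
  (hP : ∀ a ∈ univ.image (topOf : P → Tops P), P10 (bb i (i + 2) topOf a)
    (VV i (i + 2) topOf a))
include hb hP

/-- TOTAL (8,3) at the window `j - 1`, case B -/
theorem nj_tot8 : ∑ a ∈ univ.image (topOf : P → Tops P), Q8 (bb i (i + 2) topOf a)
    (VV i (i + 2) topOf a) = ∑ z ∈ X3 i (topOf : P → Tops P), Wn i topOf 3 z +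
      ((PR i (topOf : P → Tops P) 3).card : ℤ) := by
  have H := h.g.H
  have hir : i + 1 ≤ r := by have := h.g.hr; omega
  have hκ : Split (i + 2) (topOf : P → Tops P) := by
    rw [show i + 2 = j + 1 by omega]
    exact h.split
  have h1 := T8.tot_eight H hi1 hir (h.g.good i (by omega)) hκ hb hP
  have h3 : ∑ a ∈ univ.image (topOf : P → Tops P), sg i topOf 3 a = 0 := by
    obtain ⟨-, -, h3, -⟩ := T8.prod_ten (univ.image (topOf : P → Tops P))
      (bb i (i + 2) topOf) (VV i (i + 2) topOf) hP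
      (fun a _ => by rw [T8.cg_cf (by omega), So.cf_zero]; exact I2.eps_VV H (by omega) a)
    rw [So.sum_bb hκ, T8.cg_cf (by omega), So.cf_three, So.al3_prod H (by omega) hκ] at h3
    rw [h3]
    refine Finset.sum_congr rfl fun a _ => ?_
    rw [sg_three, T8.cg_cf (by omega), So.cf_three]
  rw [h1, nj_XX8 h hij hi1 hb, sum_WW H hκ, show 2 * 3 - 3 = 3 from rfl, h3]
  ring

/-- TOTAL (10,4) at the window `j - 1`, case B -/
theorem nj_tot10 : ∑ a ∈ univ.image (topOf : P → Tops P), Q10 (bb i (i + 2) topOf a)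
    (VV i (i + 2) topOf a) + ((Z2s i (topOf : P → Tops P)).card : ℤ) +
      2 * ((PR i (topOf : P → Tops P) 3).card : ℤ) +
        2 * ((DB i (topOf : P → Tops P)).card : ℤ) =
      2 * ∑ z ∈ X3 i (topOf : P → Tops P), Wn i topOf 4 z +
        2 * ((N5s i (topOf : P → Tops P)).card : ℤ) := by
  have H := h.g.H
  have hir : i + 1 ≤ r := by have := h.g.hr; omega
  have hκ : Split (i + 2) (topOf : P → Tops P) := by
    rw [show i + 2 = j + 1 by omega]
    exact h.split
  have h1 := T8.tot_ten H hi1 hir (h.g.good i (by omega)) hκ hb hP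
  have h3 : ∑ a ∈ univ.image (topOf : P → Tops P), sg i topOf 5 a =
      -((Z2s i (topOf : P → Tops P)).card : ℤ) := by
    obtain ⟨-, -, -, h3, -⟩ := T8.prod_ten (univ.image (topOf : P → Tops P))
      (bb i (i + 2) topOf) (VV i (i + 2) topOf) hP
      (fun a _ => by rw [T8.cg_cf (by omega), So.cf_zero]; exact I2.eps_VV H (by omega) a)
    rw [So.sum_bb hκ, T8.cg_cf (by omega),
      So.cf5_prod H hi1 hir (h.g.good i (by omega)) hκ hb] at h3
    rw [h3]
    refine Finset.sum_congr rfl fun a _ => ?_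
    rw [sg_five, T8.cg_cf (by omega), So.cf_five]
  have h4 := nj_pairs h hij hi1
  rw [h1, nj_XX10 h hij hi1 hb, sum_WW H hκ, show 2 * 4 - 3 = 5 from rfl, h3]
  linarith

end nj

end Pool.Agent.GaussPoset.Win.Pn

end

/-! From `Pool.Agent.W_448pn_h63.PoA` -/

section

/-!
# The profile of all parts, and their (5,2) value, in case B at the window `j - 1`
(MP_448cb3_co, G2)
-/

set_option autoImplicit false

namespace Pool.Agent.GaussPoset.Win.Pn

set_option linter.unusedSectionVars false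

open Finset W4 Wd
open Pool.Agent.GaussPoset.Win.Xg (Okc kp CanD)
open Pool.Agent.GaussPoset.Win.SO (con PN on mem_PN vp I5 mem_I5 c5 F5 mem_F5)
open Pool.Agent.GaussPoset.Win.I2 (bb VV)
open Pool.Agent.GaussPoset.Win.T8 (P10)

universe u

variable {P : Type u} [Fintype P] [PartialOrder P] [DecidableEq P] {r j i : ℕ}
  {psi : P → P} {C : Finset P} {p p' w z : P}

/-- a vanishing leading coefficient raises the order -/
lemma up_one {b k : ℕ} {G : A} (h : dd ^ b ∣ dd ^ (k + 1) * G)
    (h0 : PowerSeries.coeff b (dd ^ (k + 1) * G : A) = 0) : dd ^ b ∣ dd ^ k * G := by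
  unfold dd at h h0 ⊢
  rw [PowerSeries.X_pow_dvd_iff] at h ⊢
  intro m hm
  have h1 : PowerSeries.coeff (m + 1) (PowerSeries.X ^ (k + 1) * G : A) = 0 := by
    rcases Nat.lt_or_ge (m + 1) b with h2 | h2
    · exact h _ h2
    · have : m + 1 = b := by omega
      rw [this]
      exact h0
  rw [pow_succ', mul_assoc, PowerSeries.coeff_succ_X_mul] at h1
  exact h1

section part

variable (F : Fr r i psi C) (hm : Meet i C)
include F hm

/-- THE (7,3) COEFFICIENT of a part -/
theorem hc_seven : hc 7 (st i C).card (ZS i C) = ∑ q ∈ F7 i C, -vp i q.2 := by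
  classical
  have H := F.E.H
  have h0 : ZPS i C (fun _ : P => 0) = ZS i C := ZPS_disj fun _ _ => rfl
  rw [← h0, F.top hm (fun w hw => by simp at hw) (fun _ _ _ => Nat.zero_le _) (n := 7) (K := 2)
    rfl (by omega) (by omega)]
  have h1 : TT i psi C (fun _ : P => 0) 7 (2 + 1) =
      (F7 i C).image (fun q => cS i q.1.1 q.1.2 q.2) := by
    ext e
    rw [mem_TT, mem_image]
    constructor
    · rintro ⟨a1, a2, a3, a4, a5⟩
      obtain ⟨z, z', p, T, hp, hd, rfl⟩ := tt_seven F hm a2 a1 (by rw [a4]; rfl) a5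
      exact ⟨((z, z'), p), mem_F7.2 ⟨T, hp, hd⟩, rfl⟩
    · rintro ⟨q, hq, rfl⟩
      obtain ⟨T, hp, hd⟩ := mem_F7.1 hq
      obtain ⟨b1, b2, b3, b4, b5⟩ := cS_ok F T hp hd
      exact ⟨b5, b1, fun _ _ => Nat.zero_le _, by rw [b2]; rfl, b4⟩
  rw [h1, Finset.sum_image]
  · refine Finset.sum_congr rfl fun q hq => ?_
    obtain ⟨T, hp, hd⟩ := mem_F7.1 hq
    exact (cS_ok F T hp hd).2.2.1
  · intro q hq q' hq' h
    exact cS_inj F hq hq' h

open Classical in
/-- the unordered pairs of pendants with exactly one common site -/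
noncomputable def OvP (i : ℕ) (C : Finset P) : Finset (P × P) :=
  (PN i C ×ˢ PN i C).filter (fun q => Xg.rk q.1 < Xg.rk q.2 ∧ (sit i q.1 ∩ sit i q.2).card = 1)

omit F hm in
lemma mem_OvP {q : P × P} : q ∈ OvP i C ↔ q.1 ∈ PN i C ∧ q.2 ∈ PN i C ∧
    Xg.rk q.1 < Xg.rk q.2 ∧ (sit i q.1 ∩ sit i q.2).card = 1 := by
  classical
  unfold OvP
  rw [mem_filter, mem_product, and_assoc]

/-- THE (5,2) COEFFICIENT of a part -/
theorem hc_five : hc 5 (st i C).card (ZS i C) =
    ∑ q ∈ I5 i C, chg i C q.1 * vp i q.2 - ((Tws i C).card : ℤ) +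
      ∑ q ∈ OvP i C, vp i q.1 * vp i q.2 := by
  classical
  have H := F.E.H
  have h0 : ZPS i C (fun _ : P => 0) = ZS i C := ZPS_disj fun _ _ => rfl
  rw [← h0, F.top hm (fun w hw => by simp at hw) (fun _ _ _ => Nat.zero_le _) (n := 5) (K := 1)
    rfl (by omega) (by omega)]
  have h1 : TT i psi C (fun _ : P => 0) 5 (1 + 1) =
      ((I5 i C).image (c5 i) ∪ (Tws i C).image (fun q => cT i q.1 q.2)) ∪
          (OvP i C).image (fun q => cD i q.1 q.2) := by
    ext e
    rw [mem_TT, mem_union, mem_union, mem_image, mem_image, mem_image]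
    constructor
    · rintro ⟨a1, a2, a3, a4, a5⟩
      rcases tt_five F hm a2 a1 (by rw [a4]; rfl) a5 with ⟨q, hq, rfl⟩ | ⟨z, z', T, rfl⟩ |
        ⟨p, hp, p', hp', hne, hI, rfl⟩
      · left; left
        exact ⟨q, hq, rfl⟩
      · left; right
        exact ⟨(z, z'), mem_Tws.2 T, rfl⟩
      · right
        rcases Nat.lt_or_gt_of_ne (fun h => hne (Xg.rk_inj h)) with h | h
        · exact ⟨(p, p'), mem_OvP.2 ⟨hp, hp', h, hI⟩, rfl⟩
        · exact ⟨(p', p), mem_OvP.2 ⟨hp', hp, h, by rw [inter_comm]; exact hI⟩, cD_comm⟩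
    · rintro ((⟨q, hq, rfl⟩ | ⟨q, hq, rfl⟩) | ⟨q, hq, rfl⟩)
      · obtain ⟨b1, b2, b3, b4, b5⟩ := c5_ok F hq
        exact ⟨b5, b1, fun _ _ => Nat.zero_le _, by rw [b2]; rfl, b4⟩
      · rw [mem_Tws] at hq
        obtain ⟨b1, b2, b3, b4, b5⟩ := tw_ok F hq
        exact ⟨b5, b1, fun _ _ => Nat.zero_le _, by rw [b2]; rfl, b4⟩
      · obtain ⟨hp1, hp2, hp3, hp4⟩ := mem_OvP.1 hq
        obtain ⟨b1, b2, b3, b4, b5⟩ := cD_ok F hp1 hp2 (by
          intro h
          rw [h] at hp3
          exact lt_irrefl _ hp3) hp4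
        exact ⟨b5, b1, fun _ _ => Nat.zero_le _, by rw [b2]; rfl, b4⟩
  have d1 : Disjoint ((I5 i C).image (c5 i)) ((Tws i C).image (fun q => cT i q.1 q.2)) := by
    rw [disjoint_left]
    intro e he he'
    obtain ⟨q, hq, rfl⟩ := mem_image.1 he
    obtain ⟨q', hq', h2⟩ := mem_image.1 he'
    have h3 := cT_two F (mem_Tws.1 hq')
    have h4 : c5 i q q'.1 ≤ 1 := on_le
    have h5 := congrFun h2 q'.1
    omega
  have d2 : Disjoint ((I5 i C).image (c5 i) ∪ (Tws i C).image (fun q => cT i q.1 q.2))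
      ((OvP i C).image (fun q => cD i q.1 q.2)) := by
    rw [disjoint_left]
    intro e he he'
    obtain ⟨q0, hq0, rfl⟩ := mem_image.1 he'
    obtain ⟨hp1, hp2, hp3, hp4⟩ := mem_OvP.1 hq0
    rcases mem_union.1 he with he | he
    · obtain ⟨q, hq, h2⟩ := mem_image.1 he
      obtain ⟨v, hv⟩ := card_eq_one.1 hp4
      have hvm : v ∈ sit i q0.1 ∩ sit i q0.2 := by rw [hv]; simp
      have lv' := (pn_two F hp1).2 v (mem_inter.1 hvm).1
      have h3 := c5_site F hq lv'
      have h4 : cD i q0.1 q0.2 v = 1 := by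
        unfold cD
        exact on_one (mem_union_right _ hvm)
      rw [h2, h4] at h3
      omega
    · obtain ⟨q', hq', h2⟩ := mem_image.1 he
      have h3 := cT_two F (mem_Tws.1 hq')
      have h4 : cD i q0.1 q0.2 q'.1 ≤ 1 := on_le
      have h5 := congrFun h2 q'.1
      omega
  rw [h1, sum_union d2, sum_union d1, Finset.sum_image, Finset.sum_image, Finset.sum_image]
  · have s1 : ∑ q ∈ I5 i C, sgn i (c5 i q) = ∑ q ∈ I5 i C, chg i C q.1 * vp i q.2 :=
      Finset.sum_congr rfl fun q hq => (c5_ok F hq).2.2.1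
    have s2 : ∑ q ∈ Tws i C, sgn i (cT i q.1 q.2) = ∑ q ∈ Tws i C, (-1 : ℤ) :=
      Finset.sum_congr rfl fun q hq => (tw_ok F (mem_Tws.1 hq)).2.2.1
    have s3 : ∑ q ∈ OvP i C, sgn i (cD i q.1 q.2) = ∑ q ∈ OvP i C, vp i q.1 * vp i q.2 :=
      Finset.sum_congr rfl fun q hq => by
        obtain ⟨hp1, hp2, hp3, hp4⟩ := mem_OvP.1 hq
        exact (cD_ok F hp1 hp2 (by
          intro h
          rw [h] at hp3
          exact lt_irrefl _ hp3) hp4).2.2.1
    rw [s1, s2, s3, Finset.sum_const, nsmul_eq_mul]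
    ring
  · intro q hq q' hq' h
    obtain ⟨a1, a2, a3, a4⟩ := mem_OvP.1 hq
    obtain ⟨b1, b2, b3, b4⟩ := mem_OvP.1 hq'
    change cD i q.1 q.2 = cD i q'.1 q'.2 at h
    have k1 : 1 ≤ cD i q'.1 q'.2 q.1 := by
      rw [← h, cD_pos F a1 a2 (pn_lev F a1)]
      exact Or.inl rfl
    have k2 : 1 ≤ cD i q'.1 q'.2 q.2 := by
      rw [← h, cD_pos F a1 a2 (pn_lev F a2)]
      exact Or.inr rfl
    rw [cD_pos F b1 b2 (pn_lev F a1)] at k1
    rw [cD_pos F b1 b2 (pn_lev F a2)] at k2
    rcases k1 with k1 | k1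
    · rcases k2 with k2 | k2
      · rw [← k1, ← k2] at a3
        exact absurd a3 (lt_irrefl _)
      · exact Prod.ext k1.symm k2.symm
    · rcases k2 with k2 | k2
      · exfalso
        rw [k1, k2] at b3
        omega
      · rw [← k1, ← k2] at a3
        exact absurd a3 (lt_irrefl _)
  · intro q hq q' hq' h
    exact cT_inj F (mem_Tws.1 hq) (mem_Tws.1 hq') h
  · intro q hq q' hq' h
    exact SO.c5_inj H (by have := F.E.hi2; omega) hq hq' h

/-- THE PROFILE of a part with at most three sites -/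
theorem p10_small (hb : Bal i C) (h3 : (st i C).card ≤ 3) : P10 (st i C).card (ZS i C) := by
  classical
  have h0 : ZPS i C (fun _ : P => 0) = ZS i C := ZPS_disj fun _ _ => rfl
  have hMo := F.mo hm (t := fun _ : P => 0) (fun w hw => by simp at hw) hb
    (fun _ _ _ => Nat.zero_le _)
  have hp0 : pns C (fun _ : P => 0) = ∅ := pns_zero fun _ _ => rfl
  rw [h0, hp0, card_empty] at hMo
  have hHP := hMo.hp
  have hev := hMo.ev
  have e2 : hc 2 (st i C).card (ZS i C) = 0 := by
    have := hev 1 (by omega)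
    rwa [if_neg (by omega)] at this
  have e4 : hc 4 (st i C).card (ZS i C) = 0 := by
    have := hev 2 (by omega)
    rwa [if_neg (by omega)] at this
  have e6 : hc 6 (st i C).card (ZS i C) = 0 := by
    have := hev 3 (by omega)
    rwa [if_neg (by omega)] at this
  have e7 : hc 7 (st i C).card (ZS i C) = 0 := by
    rw [hc_seven F hm]
    apply Finset.sum_eq_zero
    intro q hq
    exfalso
    obtain ⟨T, hp, hd⟩ := mem_F7.1 hq
    have h4 : sit i q.1.1 ∪ sit i q.2 ⊆ st i C :=
      union_subset (SO.sit_part F.E.H F.E.hC (mem_ZL.1 T.zl).1)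
        (SO.sit_part F.E.H F.E.hC (mem_PN.1 hp).1)
    have h5 := card_le_card h4
    have h6 : (sit i q.1.1).card = 3 := by
      rw [sit_low F.E.H (by have := (mem_ZL.1 T.zl).2.1; omega), card_sts]
      exact (mem_ZL.1 T.zl).2.2
    rw [card_union_of_disjoint hd, h6, (pn_two F hp).1] at h5
    omega
  intro n hn
  have big : 3 ≤ T8.kk n → dd ^ (st i C).card ∣ dd ^ T8.kk n * PowerSeries.coeff n (ZS i C) :=
    fun h => dvd_mul_of_dvd_left (pow_dvd_pow dd (h3.trans h)) _
  have cases : n = 0 ∨ n = 1 ∨ n = 2 ∨ n = 3 ∨ n = 4 ∨ n = 5 ∨ n = 6 ∨ n = 7 ∨ 8 ≤ n := by omega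
  rcases cases with rfl | rfl | rfl | rfl | rfl | rfl | rfl | rfl | h8
  · exact hHP 0 (by omega)
  · exact hHP 1 (by omega)
  · exact up_one (k := 0) (hHP 2 (by omega)) e2
  · exact hHP 3 (by omega)
  · exact up_one (k := 1) (hHP 4 (by omega)) e4
  · exact hHP 5 (by omega)
  · exact up_one (k := 2) (hHP 6 (by omega)) e6
  · exact up_one (k := 2) (hHP 7 (by omega)) e7
  · apply big
    unfold T8.kk
    split_ifs <;> omega

end part

section nj

variable (h : NJ P r j) (hij : i + 1 = j) (hi1 : 1 ≤ i)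
include h hij hi1

/-- THE PROFILE of every part in case B at the window `j - 1` -/
theorem nj_P10 (t : Tops P) : P10 (st i (SS i t)).card (ZS i (SS i t)) := by
  obtain ⟨psi, hM⟩ := good_mat h.g.H (h.g.good i (by omega))
  rcases Nat.lt_or_ge 3 (st i (SS i t)).card with h4 | h4
  · obtain ⟨lo, hi, e, Cm⟩ := Cp.comp_exists h.g.H t.2 h.g.hr h.g.good
    have hc := h.card_SS (i := i) (by omega) Cm
    intro n hn
    have h1 := h.prof10 hij hi1 Cm (by omega) hM hn
    rw [coeff_ZS]
    have h2 : Rd.K10 n = T8.kk n := by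
      unfold Rd.K10 T8.kk
      rfl
    rw [h2] at h1
    refine (pow_dvd_pow dd (show (st i (SS i t)).card ≤ T8.kk n +
      ((st i (SS i t)).card - T8.kk n) by omega)).trans ?_
    rw [pow_add]
    exact mul_dvd_mul_left _ h1
  · exact p10_small (nj_fr h hij hi1 hM t) (nj_meet h hij hi1 hM t) (nj_one h hij hi1 t).2.2 h4

theorem nj_P10' : ∀ a ∈ univ.image (topOf : P → Tops P), P10 (bb i (i + 2) topOf a)
    (VV i (i + 2) topOf a) := by
  intro a _
  rw [show i + 2 = j + 1 by omega, h.bb_eq (i := i) (by omega), h.VV_eq (i := i) (by omega)]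
  exact nj_P10 h hij hi1 a

/-- THE (5,2) VALUE of every part in case B at the window `j - 1`: twins and flips -/
theorem nj_be5 (t : Tops P) : I2.be 5 (st i (SS i t)).card (ZS i (SS i t)) =
    -((Tws i (SS i t)).card : ℤ) - ((F5 i (SS i t)).card : ℤ) := by
  classical
  obtain ⟨psi, hM⟩ := good_mat h.g.H (h.g.good i (by omega))
  have F := nj_fr h hij hi1 hM t
  have hm := nj_meet h hij hi1 hM t
  have H := h.g.H
  obtain ⟨n1, n2, -⟩ := nj_one h hij hi1 t
  rw [card_le_one] at n1 n2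
  have h5 := hc_five F hm
  have e1 : ∑ q ∈ I5 i (SS i t), chg i (SS i t) q.1 * vp i q.2 = 0 := by
    have k1 : ∑ q ∈ I5 i (SS i t), chg i (SS i t) q.1 * vp i q.2 =
        ∑ z ∈ ZL i (SS i t) ∪ ZU i (SS i t), chg i (SS i t) z *
          ∑ p ∈ (PN i (SS i t)).filter (fun p => Disjoint (sit i z) (sit i p)), vp i p := by
      unfold SO.I5
      rw [Finset.sum_filter, Finset.sum_product]
      refine Finset.sum_congr rfl fun z _ => ?_
      rw [mul_sum, Finset.sum_filter]
    rw [k1]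
    apply Finset.sum_eq_zero
    intro z hz
    rcases Nat.lt_or_ge 3 (st i (SS i t)).card with h4 | h4
    · rw [nj_pn_zero h hij hi1 hM t h4, mul_zero]
    · rw [filter_false_of_mem, sum_empty, mul_zero]
      intro p hp hd
      have hzC : z ∈ SS i t := by
        rcases mem_union.1 hz with hz | hz
        · exact (mem_ZL.1 hz).1
        · exact (mem_ZU.1 hz).1
      have h6 : (sit i z).card = 3 := by
        rcases mem_union.1 hz with hz | hz
        · rw [sit_low H (by have := (mem_ZL.1 hz).2.1; omega), card_sts]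
          exact (mem_ZL.1 hz).2.2
        · rw [sit_upp H (by have := (mem_ZU.1 hz).2.1; omega), card_stD]
          exact (mem_ZU.1 hz).2.2
      have h7 : sit i z ∪ sit i p ⊆ st i (SS i t) :=
        union_subset (SO.sit_part H F.E.hC hzC) (SO.sit_part H F.E.hC (mem_PN.1 hp).1)
      have h8 := card_le_card h7
      rw [card_union_of_disjoint hd, h6, (pn_two F hp).1] at h8
      omega
  have e2 : ∑ q ∈ OvP i (SS i t), vp i q.1 * vp i q.2 = -((F5 i (SS i t)).card : ℤ) := by
    have key : ∀ q ∈ OvP i (SS i t), (q.1 ∈ PD P i ∧ q.2 ∈ PU P i) ∨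
        (q.1 ∈ PU P i ∧ q.2 ∈ PD P i) := by
      intro q hq
      obtain ⟨a1, a2, a3, a4⟩ := mem_OvP.1 hq
      obtain ⟨m1, k1⟩ := mem_PN.1 a1
      obtain ⟨m2, k2⟩ := mem_PN.1 a2
      have hne : q.1 ≠ q.2 := by
        intro h
        rw [h] at a3
        exact lt_irrefl _ a3
      rcases k1 with k1 | k1 <;> rcases k2 with k2 | k2
      · exact absurd (n1 q.1 (mem_filter.2 ⟨m1, k1⟩) q.2 (mem_filter.2 ⟨m2, k2⟩)) hne
      · exact Or.inl ⟨k1, k2⟩
      · exact Or.inr ⟨k1, k2⟩
      · exact absurd (n2 q.1 (mem_filter.2 ⟨m1, k1⟩) q.2 (mem_filter.2 ⟨m2, k2⟩)) hne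
    have hval : ∀ q ∈ OvP i (SS i t), vp i q.1 * vp i q.2 = -1 := by
      intro q hq
      rcases key q hq with ⟨k1, k2⟩ | ⟨k1, k2⟩
      · rw [SO.vp_PD k1, SO.vp_PU k2]; norm_num
      · rw [SO.vp_PU k1, SO.vp_PD k2]; norm_num
    rw [Finset.sum_congr rfl hval, Finset.sum_const, nsmul_eq_mul]
    have hcard : (OvP i (SS i t)).card = (F5 i (SS i t)).card := by
      refine Finset.card_bij' (fun q _ => if q.1 ∈ PD P i then q else q.swap)
        (fun q _ => if Xg.rk q.1 < Xg.rk q.2 then q else q.swap) ?_ ?_ ?_ ?_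
      · intro q hq
        obtain ⟨a1, a2, a3, a4⟩ := mem_OvP.1 hq
        obtain ⟨m1, -⟩ := mem_PN.1 a1
        obtain ⟨m2, -⟩ := mem_PN.1 a2
        rcases key q hq with ⟨k1, k2⟩ | ⟨k1, k2⟩
        · rw [if_pos k1]
          exact mem_F5.2 ⟨m1, k1, m2, k2, a4⟩
        · rw [if_neg (by
            intro h
            have := (mem_PD.1 h).1
            have := (mem_PU.1 k1).1
            omega)]
          exact mem_F5.2 ⟨m2, k2, m1, k1, by rw [inter_comm]; exact a4⟩
      · intro q hq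
        obtain ⟨a1, a2, a3, a4, a5⟩ := mem_F5.1 hq
        have hne : Xg.rk q.1 ≠ Xg.rk q.2 := by
          intro h
          have := Xg.rk_inj h
          rw [this] at a2
          have := (mem_PD.1 a2).1
          have := (mem_PU.1 a4).1
          omega
        split_ifs with h1
        · exact mem_OvP.2 ⟨mem_PN.2 ⟨a1, Or.inl a2⟩, mem_PN.2 ⟨a3, Or.inr a4⟩, h1, a5⟩
        · exact mem_OvP.2 ⟨mem_PN.2 ⟨a3, Or.inr a4⟩, mem_PN.2 ⟨a1, Or.inl a2⟩,
            by simp only [Prod.fst_swap, Prod.snd_swap]; omega, by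
              simp only [Prod.fst_swap, Prod.snd_swap]
              rw [inter_comm]; exact a5⟩
      · intro q hq
        obtain ⟨a1, a2, a3, a4⟩ := mem_OvP.1 hq
        split_ifs with h1 h2
        · rfl
        · simp only [Prod.fst_swap, Prod.snd_swap] at h2
          omega
        · exact Prod.swap_swap q
      · intro q hq
        obtain ⟨a1, a2, a3, a4, a5⟩ := mem_F5.1 hq
        have hU : q.2 ∉ PD P i := by
          intro h
          have := (mem_PD.1 h).1
          have := (mem_PU.1 a4).1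
          omega
        split_ifs with h1 h2
        · rfl
        · simp only [Prod.fst_swap] at h2
          exact absurd h2 hU
        · exact Prod.swap_swap q
    rw [hcard]
    ring
  have e3 : hc 5 (st i (SS i t)).card (ZS i (SS i t)) =
      I2.be 5 (st i (SS i t)).card (ZS i (SS i t)) := rfl
  rw [← e3, h5, e1, e2]
  ring

/-- TOTAL (8,3) at the window `j - 1`, case B, unconditional -/
theorem nj_tot8' (hb : 1 ≤ (lv P i).card) :
    ∑ a ∈ univ.image (topOf : P → Tops P), T8.Q8 (bb i (i + 2) topOf a)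
    (VV i (i + 2) topOf a) = ∑ z ∈ X3 i (topOf : P → Tops P), Wn i topOf 3 z +
      ((PR i (topOf : P → Tops P) 3).card : ℤ) :=
  nj_tot8 h hij hi1 hb (nj_P10' h hij hi1)

/-- TOTAL (10,4) at the window `j - 1`, case B, unconditional -/
theorem nj_tot10' (hb : 1 ≤ (lv P i).card) :
    ∑ a ∈ univ.image (topOf : P → Tops P), T8.Q10 (bb i (i + 2) topOf a)
    (VV i (i + 2) topOf a) + ((So.Z2s i (topOf : P → Tops P)).card : ℤ) +
      2 * ((PR i (topOf : P → Tops P) 3).card : ℤ) +
        2 * ((DB i (topOf : P → Tops P)).card : ℤ) =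
      2 * ∑ z ∈ X3 i (topOf : P → Tops P), Wn i topOf 4 z +
        2 * ((So.N5s i (topOf : P → Tops P)).card : ℤ) :=
  nj_tot10 h hij hi1 hb (nj_P10' h hij hi1)

end nj

end Pool.Agent.GaussPoset.Win.Pn

end

/-! From `Pool.Agent.W_448pn_h63.PoC` -/

section

/-!
# The (3,1) value of the parts and the net values of a pendant, case B, window `j - 1`
(MP_448cb3_co, G2)
-/

set_option autoImplicit false

namespace Pool.Agent.GaussPoset.Win.Pn

set_option linter.unusedSectionVars false

open Finset W4 Wd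
open Pool.Agent.GaussPoset.Win.SO (con PN on mem_PN vp F5 mem_F5)
open Pool.Agent.GaussPoset.Win.I2 (bb VV)

universe u

variable {P : Type u} [Fintype P] [PartialOrder P] [DecidableEq P] {r j i : ℕ}
  {psi : P → P} {C : Finset P} {p w : P}

section nj

variable (h : NJ P r j) (hij : i + 1 = j) (hi1 : 1 ≤ i)
include h hij hi1

/-- without a flip the pendants are matched -/
theorem nj_mtc (hM : Mat P i ∅ psi) (t : Tops P) (hF : F5 i (SS i t) = ∅) :
    MtcP i (SS i t) psi := by
  classical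
  have H := h.g.H
  have g : GoodTo P r (i + 1) := by rw [hij]; exact h.g
  have F := nj_fr h hij hi1 hM t
  obtain ⟨n1, n2, n3⟩ := nj_one h hij hi1 t
  unfold Bal at n3
  constructor
  by_cases hp : ∃ p ∈ SS i t, p ∈ PD P i
  · right
    obtain ⟨p, hpC, hpD⟩ := hp
    have c1 : 0 < ((SS i t).filter (· ∈ PD P i)).card :=
      card_pos.2 ⟨p, mem_filter.2 ⟨hpC, hpD⟩⟩
    obtain ⟨q, hq⟩ := card_pos.1 (show 0 < ((SS i t).filter (· ∈ PU P i)).card by omega)
    obtain ⟨hqC, hqU⟩ := mem_filter.1 hq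
    have hpn : p ∈ PN i (SS i t) := mem_PN.2 ⟨hpC, Or.inl hpD⟩
    have hqn : q ∈ PN i (SS i t) := mem_PN.2 ⟨hqC, Or.inr hqU⟩
    have hne : p ≠ q := by
      rintro rfl
      have := (mem_PD.1 hpD).1
      have := (mem_PU.1 hqU).1
      omega
    have hmt := nj_meet h hij hi1 hM t p hpn q hqn hne
    have s1 := (pn_two F hpn).1
    have s2 := (pn_two F hqn).1
    have hc2 : (sit i p ∩ sit i q).card = 2 := by
      have h1 : (sit i p ∩ sit i q).card ≠ 0 := by
        rw [card_ne_zero, ← not_disjoint_iff_nonempty_inter]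
        exact hmt
      have h2 : (sit i p ∩ sit i q).card ≠ 1 := by
        intro h2
        have : (p, q) ∈ F5 i (SS i t) := mem_F5.2 ⟨hpC, hpD, hqC, hqU, h2⟩
        rw [hF] at this
        exact notMem_empty _ this
      have h3 := card_le_card (inter_subset_left (s₁ := sit i p) (s₂ := sit i q))
      omega
    have e1 : sit i p ∩ sit i q = sit i p :=
      eq_of_subset_of_card_le inter_subset_left (by omega)
    have e2 : sit i p ∩ sit i q = sit i q :=
      eq_of_subset_of_card_le inter_subset_right (by omega)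
    obtain ⟨y, -, -, hy⟩ := PN_cases F.E hpn
    obtain ⟨u, -, -, hu⟩ := PN_cases F.E hqn
    rcases hy with ⟨a1, a2, a3, a4, a5⟩ | ⟨a1, a2, a3, a4, a5⟩
    · rcases hu with ⟨b1, b2, b3, b4, b5⟩ | ⟨b1, b2, b3, b4, b5⟩
      · have := (mem_PU.1 hqU).1
        omega
      · have e3 : dc u = uc y := by
          rw [← sit_PUs H b5 b3, ← sit_PDs H a5 a3, ← e2, e1]
        refine ⟨p, q, y, u, hpC, hqC, hpD, hqU, a3, b3, e3, a4, ?_, ?_, ?_⟩
        · intro z hz hzD
          rw [card_le_one] at n1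
          exact n1 z (mem_filter.2 ⟨hz, hzD⟩) p (mem_filter.2 ⟨hpC, hpD⟩)
        · intro z hz hzU
          rw [card_le_one] at n2
          exact n2 z (mem_filter.2 ⟨hz, hzU⟩) q (mem_filter.2 ⟨hqC, hqU⟩)
        · exact (psi_eq_of g hM a2 a4 e3).symm
    · have := (mem_PD.1 hpD).1
      omega
  · left
    intro z hz
    refine ⟨fun hD => hp ⟨z, hz, hD⟩, fun hU => ?_⟩
    have c1 : 0 < ((SS i t).filter (· ∈ PU P i)).card :=
      card_pos.2 ⟨z, mem_filter.2 ⟨hz, hU⟩⟩
    obtain ⟨q, hq⟩ := card_pos.1 (show 0 < ((SS i t).filter (· ∈ PD P i)).card by omega)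
    obtain ⟨hqC, hqD⟩ := mem_filter.1 hq
    exact hp ⟨q, hqC, hqD⟩

/-- THE (3,1) VALUE of every part without a flip (twins allowed) -/
theorem nj_al3 (t : Tops P) (hF : F5 i (SS i t) = ∅) :
    I2.al 3 (st i (SS i t)).card (ZS i (SS i t)) =
      (ZU i (SS i t)).card - (ZL i (SS i t)).card + (FL i (SS i t)).card -
        (FU' i (SS i t)).card := by
  obtain ⟨psi, hM⟩ := good_mat h.g.H (h.g.good i (by omega))
  have g : GoodTo P r (i + 1) := by rw [hij]; exact h.g
  exact so_al3_val h.g.H hi1 g.hr hM (fun z hz => so_up3 h.g.H (nll_of g hi1) hz)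
    (fun z hz => so_dn3 h.g.H (nlu_of g) hz) (h.part (by omega) (by omega) t)
    (card_pos.2 (nj_st h hij t)) (nj_mtc h hij hi1 hM t hF)

/-- flips need exactly three sites -/
theorem nj_F5_three (t : Tops P) (h3 : (st i (SS i t)).card ≠ 3) : F5 i (SS i t) = ∅ := by
  classical
  obtain ⟨psi, hM⟩ := good_mat h.g.H (h.g.good i (by omega))
  have F := nj_fr h hij hi1 hM t
  have H := h.g.H
  rw [eq_empty_iff_forall_notMem]
  intro q hq
  obtain ⟨a1, a2, a3, a4, a5⟩ := mem_F5.1 hq
  have hpn : q.1 ∈ PN i (SS i t) := mem_PN.2 ⟨a1, Or.inl a2⟩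
  have hqn : q.2 ∈ PN i (SS i t) := mem_PN.2 ⟨a3, Or.inr a4⟩
  have hne : q.1 ≠ q.2 := by
    intro h
    rw [h] at a2
    have := (mem_PD.1 a2).1
    have := (mem_PU.1 a4).1
    omega
  rcases Nat.lt_or_ge 3 (st i (SS i t)).card with h4 | h4
  · have h5 := nj_ov_empty h hij hi1 hM t h4 (w := q.1)
    have h6 : q.2 ∈ Ov i (SS i t) q.1 := mem_Ov.2 ⟨hqn, hpn, hne, a5⟩
    rw [h5] at h6
    exact notMem_empty _ h6
  · have s1 := (pn_two F hpn).1
    have s2 := (pn_two F hqn).1
    have h5 : sit i q.1 ∪ sit i q.2 ⊆ st i (SS i t) :=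
      union_subset (SO.sit_part H F.E.hC a1) (SO.sit_part H F.E.hC a3)
    have h6 := card_le_card h5
    have h7 := card_union_add_card_inter (sit i q.1) (sit i q.2)
    omega

lemma nj_Ov_F5 (hp : p ∈ PD P i) (hF : F5 i (SS i (topOf p)) = ∅) :
    Ov i (SS i (topOf p)) p = ∅ := by
  rw [eq_empty_iff_forall_notMem]
  intro q hq
  obtain ⟨hq1, hp1, hne, hc⟩ := mem_Ov.1 hq
  obtain ⟨m, k⟩ := mem_PN.1 hq1
  rcases k with k | k
  · obtain ⟨n1, -, -⟩ := nj_one h hij hi1 (topOf p)
    rw [card_le_one] at n1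
    exact hne (n1 p (mem_filter.2 ⟨(mem_PN.1 hp1).1, hp⟩) q (mem_filter.2 ⟨m, k⟩))
  · have : (p, q) ∈ F5 i (SS i (topOf p)) := mem_F5.2 ⟨(mem_PN.1 hp1).1, hp, m, k, hc⟩
    rw [hF] at this
    exact notMem_empty _ this

open Classical in
/-- THE NET VALUE `r5 - A3` of a pendant in a part without a flip -/
theorem nj_net5 (hp : p ∈ PD P i) (hF : F5 i (SS i (topOf p)) = ∅) :
    rho i (topOf : P → Tops P) 5 p -
      I2.al 3 (st i (SS i (topOf p))).card (ZS i (SS i (topOf p))) =
    (((ZL i (SS i (topOf p))).filter (fun z => ¬ Disjoint (sit i z) (sit i p))).card : ℤ) -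
      ((ZU i (SS i (topOf p))).filter (fun z => ¬ Disjoint (sit i z) (sit i p))).card -
        (FL i (SS i (topOf p))).card + (FU' i (SS i (topOf p))).card := by
  have H := h.g.H
  rw [nj_rho5_PD h hij hi1 hp, nj_Ov_F5 h hij hi1 hp hF, sum_empty, nj_al3 h hij hi1 _ hF]
  set S := SS i (topOf p) with hS
  have hdis : Disjoint ((ZL i S).filter (fun z => Disjoint (sit i z) (sit i p)))
      ((ZU i S).filter (fun z => Disjoint (sit i z) (sit i p))) := by
    rw [disjoint_left]
    intro z hz hz'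
    have := (mem_ZL.1 (mem_filter.1 hz).1).2.1
    have := (mem_ZU.1 (mem_filter.1 hz').1).2.1
    omega
  have c1 : ∀ z ∈ (ZL i S).filter (fun z => Disjoint (sit i z) (sit i p)), chg i S z = -1 :=
    fun z hz => chg_ZL (mem_filter.1 hz).1 H
  have c2 : ∀ z ∈ (ZU i S).filter (fun z => Disjoint (sit i z) (sit i p)), chg i S z = 1 := by
    intro z hz
    unfold chg
    rw [if_pos (mem_union_left _ (mem_filter.1 hz).1)]
  rw [filter_union, sum_union hdis, Finset.sum_congr rfl c1, Finset.sum_congr rfl c2,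
    Finset.sum_const, Finset.sum_const]
  have e1 := card_filter_add_card_filter_not (s := ZL i S)
    (fun z => Disjoint (sit i z) (sit i p))
  have e2 := card_filter_add_card_filter_not (s := ZU i S)
    (fun z => Disjoint (sit i z) (sit i p))
  simp only [nsmul_eq_mul, mul_neg, mul_one]
  push_cast [← e1, ← e2]
  ring

open Classical in
/-- THE NET VALUE `r7 - B5` of a pendant -/
theorem nj_net7 (hp : p ∈ PD P i) : rho i (topOf : P → Tops P) 7 p -
      I2.be 5 (st i (SS i (topOf p))).card (ZS i (SS i (topOf p))) =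
    (((Tws i (SS i (topOf p))).filter (fun q => ¬ Disjoint (sit i q.1) (sit i p))).card : ℤ) +
      (F5 i (SS i (topOf p))).card := by
  rw [nj_rho7_PD h hij hi1 hp, nj_be5 h hij hi1]
  have e1 := card_filter_add_card_filter_not (s := Tws i (SS i (topOf p)))
    (fun q => Disjoint (sit i q.1) (sit i p))
  push_cast [← e1]
  ring

end nj

end Pool.Agent.GaussPoset.Win.Pn

end

/-! From `Pool.Agent.W_448v3_h53.V3A` -/

section

/-!
# The (6,2) value of the parts without flips and without twins in case B at the window `j - 1`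
(MP_448cb3_co, G2, piece (f), helper53)

No hypothesis on the number of sites.  For at most three sites the value is `- #N1f`.
-/

set_option autoImplicit false

namespace Pool.Agent.GaussPoset.Win.Pn

set_option linter.unusedSectionVars false

open Finset W4 Wd
open Pool.Agent.GaussPoset.Win.SO (con PN on mem_PN vp F5 mem_F5 N1f N5f mem_N1f mem_N5f)
open Pool.Agent.GaussPoset.Win.I2 (lS uS mem_lS mem_uS)

universe u

variable {P : Type u} [Fintype P] [PartialOrder P] [DecidableEq P] {r j i : ℕ}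
  {psi : P → P} {C : Finset P} {p w z : P}

/-- a charged element has at least two sites -/
lemma chs_two (H : Gr P r) (hz : z ∈ Chs i C) : 2 ≤ (sit i z).card := by
  rcases SO.Chs_cases H hz with ⟨h, hl⟩ | ⟨h, hl⟩ | ⟨h, hl⟩ | ⟨h, hl⟩
  · rw [sit_low H (by omega), card_sts, (mem_ZL.1 h).2.2]
    norm_num
  · rw [sit_upp H (by omega), card_stD, (mem_ZU.1 h).2.2]
    norm_num
  · obtain ⟨p, y, g1, g2, g3, g4, g5, g6⟩ := SO.FL_data H h
    rw [sit_FL H g3 g1, ClE_sts H g4 g2, g6]
  · obtain ⟨p, y, g1, g2, g3, g4, g5, g6⟩ := SO.FU_data H h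
    rw [sit_FU H g3 g1, ClE_stD H g4 g2, g6]

section nj

variable (h : NJ P r j) (hij : i + 1 = j) (hi1 : 1 ≤ i)
include h hij hi1

/-- at most three sites: the charged elements meet -/
lemma nj_meet_three (t : Tops P) (h3 : (st i (SS i t)).card ≤ 3) {z z' : P}
    (hz : z ∈ Chs i (SS i t)) (hz' : z' ∈ Chs i (SS i t)) :
    ¬ Disjoint (sit i z) (sit i z') := by
  intro hd
  have H := h.g.H
  have m1 := (SO.num_Chs H hz).mC
  have m2 := (SO.num_Chs H hz').mC
  have hP : Part (i + 1) (SS i t) := h.part (by omega) (by omega) t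
  have h5 : sit i z ∪ sit i z' ⊆ st i (SS i t) :=
    union_subset (SO.sit_part H hP m1) (SO.sit_part H hP m2)
  have h6 := card_le_card h5
  rw [card_union_of_disjoint hd] at h6
  have := chs_two H hz
  have := chs_two H hz'
  omega

/-- at most three sites: the form of the charges is the square of the (3,1) value -/
lemma nj_QQ_three (t : Tops P) (h3 : (st i (SS i t)).card ≤ 3) (hF : F5 i (SS i t) = ∅) :
    QQ i (SS i t) = (I2.al 3 (st i (SS i t)).card (ZS i (SS i t))) ^ 2 := by
  classical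
  have H := h.g.H
  have h1 : QQ i (SS i t) = (∑ z ∈ Chs i (SS i t), chg i (SS i t) z) ^ 2 := by
    unfold QQ
    rw [sq, sum_mul_sum]
    refine Finset.sum_congr rfl fun z hz => Finset.sum_congr rfl fun z' hz' => ?_
    rw [if_neg (nj_meet_three h hij hi1 t h3 hz hz')]
  have h2 := sum_chg (S := SS i t) H (i := i) (fun _ => True)
  simp only [filter_true] at h2
  rw [h1, h2, nj_al3 h hij hi1 t hF]
  ring

/-- at most three sites: no element over a pendant and a far T-element -/
lemma nj_N5_three (t : Tops P) (h3 : (st i (SS i t)).card ≤ 3) : N5f i (SS i t) = ∅ := by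
  classical
  have H := h.g.H
  have hC : Part (i + 1) (SS i t) := h.part (by omega) (by omega) t
  obtain ⟨psi, hM⟩ := good_mat h.g.H (h.g.good i (by omega))
  have F := nj_fr h hij hi1 hM t
  rw [eq_empty_iff_forall_notMem]
  intro z hz
  obtain ⟨hzC, ⟨hl, p, w, hp, hw, hu, hd⟩ | ⟨hl, p, w, hp, hw, hu, hd⟩⟩ := mem_N5f.1 hz
  · have hwC := (mem_ZL.1 hw).1
    have hpC : p ∈ SS i t := hC.up hzC (by rw [← mem_uc, hu]; simp)
    have hlp := (mem_PD.1 hp).1
    have hlw := (mem_ZL.1 hw).2.1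
    rw [← sit_low H (by omega), ← sit_low H (by omega)] at hd
    have h5 : sit i p ∪ sit i w ⊆ st i (SS i t) :=
      union_subset (SO.sit_part H hC hpC) (SO.sit_part H hC hwC)
    have h6 := card_le_card h5
    have h7 : (sit i w).card = 3 := by
      rw [sit_low H (by omega), card_sts]
      exact (mem_ZL.1 hw).2.2
    rw [card_union_of_disjoint hd, h7, (pn_two F (mem_PN.2 ⟨hpC, Or.inl hp⟩)).1] at h6
    omega
  · have hwC := (mem_ZU.1 hw).1
    have hlp := (mem_PU.1 hp).1
    have hlw := (mem_ZU.1 hw).2.1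
    have hpz : p ⋖ z := by rw [← mem_dc, hu]; simp
    have hpC : p ∈ SS i t := hC.dn hzC (by have := lev_cov H hpz; omega) hpz
    rw [← sit_upp H (by omega), ← sit_upp H (by omega)] at hd
    have h5 : sit i p ∪ sit i w ⊆ st i (SS i t) :=
      union_subset (SO.sit_part H hC hpC) (SO.sit_part H hC hwC)
    have h6 := card_le_card h5
    have h7 : (sit i w).card = 3 := by
      rw [sit_upp H (by omega), card_stD]
      exact (mem_ZU.1 hw).2.2
    rw [card_union_of_disjoint hd, h7, (pn_two F (mem_PN.2 ⟨hpC, Or.inr hp⟩)).1] at h6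
    omega

end nj

end Pool.Agent.GaussPoset.Win.Pn

end

/-! From `Pool.Agent.W_448t8_h97.TC` -/

section

/-!
Window `j - 1` (MP_448cb3_co, case B): regrouping of the crossing sums to the pendants.
-/

set_option autoImplicit false

namespace Pool.Agent.GaussPoset.Win.Pn

set_option linter.unusedSectionVars false

open Finset W4 Wd
open Pool.Agent.GaussPoset.Win.SO (con PN on mem_PN vp)
open Pool.Agent.GaussPoset.Win.I2 (bb VV)
open Pool.Agent.GaussPoset.Win.So (N5s Z2s mem_Z2s env chs nLs nUs Sv Cn TWs mem_TWs)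

universe u

variable {P : Type u} [Fintype P] [PartialOrder P] [DecidableEq P] {r i : ℕ}
  {psi : P → P} {C : Finset P} {p p' y y' w z v x : P}

variable {ι : Type*} [DecidableEq ι] {κ : P → ι}

open Classical in
/-- the joins of two pendants through `p` -/
noncomputable def zs (i : ℕ) (κ : P → ι) (p : P) : Finset P :=
  (Z2s i κ).filter (fun z => p ∈ uc z)

lemma mem_zs : z ∈ zs i κ p ↔ z ∈ Z2s i κ ∧ p ∈ uc z := by
  classical
  unfold zs
  rw [mem_filter]

/-- the number of joins of two pendants through `p` -/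
noncomputable def zc (i : ℕ) (κ : P → ι) (p : P) : ℤ := ((zs i κ p).card : ℤ)

/-- the elements with the only upper cover `x` -/
noncomputable def ks (x : P) : Finset P := univ.filter (fun y => uc y = {x})

lemma mem_ks : y ∈ ks x ↔ uc y = {x} := by
  unfold ks
  simp

/-- the number of the elements with the only upper cover `x` -/
noncomputable def kc (x : P) : ℤ := ((ks x).card : ℤ)

open Classical in
/-- near lower elements which meet the sites of `p` -/
noncomputable def nLp (i : ℕ) (p : P) : Finset P :=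
  univ.filter (fun w => lev w = i + 1 ∧ ¬ Disjoint (uc w) (sit i p))

open Classical in
/-- near upper elements which meet the sites of `p` -/
noncomputable def nUp (i : ℕ) (p : P) : Finset P :=
  univ.filter (fun w => lev w + 1 = i ∧ ¬ Disjoint (dc w) (sit i p))

lemma mem_nLp : w ∈ nLp i p ↔ lev w = i + 1 ∧ ¬ Disjoint (uc w) (sit i p) := by
  classical
  unfold nLp
  simp

lemma mem_nUp : w ∈ nUp i p ↔ lev w + 1 = i ∧ ¬ Disjoint (dc w) (sit i p) := by
  classical
  unfold nUp
  simp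

/-- the number of near elements which meet the sites of `p` -/
noncomputable def nn (i : ℕ) (p : P) : ℤ := ((nLp i p).card : ℤ) + (nUp i p).card

/-- the other joins with the covers of `v` -/
noncomputable def tw (i : ℕ) (κ : P → ι) (v : P) : Finset P :=
  (Z2s i κ).filter (fun x => x ≠ v ∧ uc x = uc v)

lemma mem_tw : x ∈ tw i κ v ↔ x ∈ Z2s i κ ∧ x ≠ v ∧ uc x = uc v := by
  unfold tw
  rw [mem_filter]

section exch

variable (H : Gr P r) (hκ : Split (i + 2) κ)
include H hκ

/-- exchange of the sums over joins and pendants -/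
theorem sum_zs (f : P → P → ℤ) : ∑ z ∈ Z2s i κ, ∑ p ∈ uc z, f z p =
    ∑ p ∈ PD P i, ∑ z ∈ zs i κ p, f z p := by
  refine Finset.sum_comm' ?_
  intro z p
  rw [mem_zs]
  constructor
  · rintro ⟨h1, h2⟩
    exact ⟨⟨h1, h2⟩, (Z2s_cov H hκ h1 h2).1⟩
  · rintro ⟨h1, -⟩
    exact h1

/-- exchange of the sums, functions of the pendant -/
theorem sum_zc (f : P → ℤ) : ∑ z ∈ Z2s i κ, ∑ p ∈ uc z, f p =
    ∑ p ∈ PD P i, zc i κ p * f p := by
  rw [sum_zs H hκ]
  refine Finset.sum_congr rfl fun p _ => ?_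
  rw [sum_const, nsmul_eq_mul]
  rfl

lemma Z2s_pair (hz : z ∈ Z2s i κ) : ∃ p p' y y', So.ZD i κ z p p' y y' ∧ uc z = {p, p'} ∧ p ≠ p' := by
  obtain ⟨p, p', y, y', D⟩ := So.Z2s_ZD H hκ hz
  refine ⟨p, p', y, y', D, D.cov, ?_⟩
  rintro rfl
  exact D.ne rfl

/-- the number of joins -/
theorem two_Z2s : 2 * ((Z2s i κ).card : ℤ) = ∑ p ∈ PD P i, zc i κ p := by
  have h1 := sum_zc H hκ (fun _ => 1)
  simp only [mul_one] at h1
  rw [← h1]
  have h2 : ∀ z ∈ Z2s i κ, ∑ _p ∈ uc z, (1 : ℤ) = 2 := by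
    intro z hz
    obtain ⟨p, p', y, y', D, hu, hne⟩ := Z2s_pair H hκ hz
    rw [hu, Finset.sum_pair hne]
    norm_num
  rw [Finset.sum_congr rfl h2, sum_const, nsmul_eq_mul, mul_comm]

/-- functions of the join -/
theorem two_sum (g : P → ℤ) : 2 * ∑ z ∈ Z2s i κ, g z = ∑ p ∈ PD P i, ∑ z ∈ zs i κ p, g z := by
  rw [← sum_zs H hκ (fun z _ => g z), mul_sum]
  refine Finset.sum_congr rfl fun z hz => ?_
  obtain ⟨p, p', y, y', D, hu, hne⟩ := Z2s_pair H hκ hz
  rw [hu, Finset.sum_pair hne]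
  ring

/-- the crossing contribution of the joins of two pendants -/
theorem sum_Wn (m : ℕ) : ∑ z ∈ X3 i κ, Wn i κ m z =
    ∑ p ∈ PD P i, zc i κ p * (rho i κ (2 * m - 1) p - sg i κ (2 * m - 3) (κ p)) +
      ∑ z ∈ X3 i κ \ Z2s i κ, Wn i κ m z := by
  have hsub : Z2s i κ ⊆ X3 i κ := fun z hz => ((X3_Z2s H hκ).1 hz).1
  rw [← Finset.sum_sdiff hsub, add_comm]
  congr 1
  rw [← sum_zc H hκ]
  refine Finset.sum_congr rfl fun z hz => ?_
  have hq := ((X3_Z2s H hκ).1 hz).2
  obtain ⟨p, p', y, y', D, hu, hne⟩ := Z2s_pair H hκ hz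
  have q1 := hq p (by rw [hu]; simp)
  have q2 := hq p' (by rw [hu]; simp)
  rw [Wn_pair hu hne, hu, Finset.sum_pair hne, if_pos q1, if_pos q2, if_pos ⟨q1, q2⟩]
  ring

/-- a mixed join -/
theorem Wn_mixed (hz : z ∈ X3 i κ) (hn : z ∉ Z2s i κ) (m : ℕ) : Wn i κ m z = 0 ∨
    ∃ p, p ∈ uc z ∧ p ∉ PD P i ∧ Wn i κ m z = rho i κ (2 * m - 1) p := by
  obtain ⟨h1, h2⟩ := mem_X3.1 hz
  have hcov : ∀ y, z ⋖ y → y ∈ cuni (i + 2) κ := by
    intro y hy
    have := lev_uc H (mem_uc.2 hy)
    exact le_mem_cuni hκ (by omega)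
  obtain ⟨p, p', a, a', huc, hpp, ha, ha', haa, hpa, hpa'⟩ :=
    z1s_covers H hκ (mem_z1s.2 ⟨h2, hcov⟩)
  by_cases q : p ∈ PD P i
  · by_cases q' : p' ∈ PD P i
    · exfalso
      apply hn
      rw [X3_Z2s H hκ]
      refine ⟨hz, ?_⟩
      intro w hw
      rw [huc, mem_insert, mem_singleton] at hw
      rcases hw with rfl | rfl
      · exact q
      · exact q'
    · right
      refine ⟨p', by rw [huc]; simp, q', ?_⟩
      rw [Wn_pair huc hpp, if_neg q', if_pos q, if_neg (fun h => q' h.2)]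
      ring
  · by_cases q' : p' ∈ PD P i
    · right
      refine ⟨p, by rw [huc]; simp, q, ?_⟩
      rw [Wn_pair huc hpp, if_neg q, if_pos q', if_neg (fun h => q h.1)]
      ring
    · left
      rw [Wn_pair huc hpp, if_neg q, if_neg q', if_neg (fun h => q h.1)]
      ring

end exch

end Pool.Agent.GaussPoset.Win.Pn

end
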