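import Mathlib
import Pool.Agent.W_448zz_h61.Ns
import Pool.Agent.W_448zz_h61.M150

/-! From `Pool.Agent.W_448rd_h10.RdS` -/

section

/-!
MP_448cb3_co, G2, window `j - 1`: the leftover sum (8,2).  helper10.
-/

namespace Pool.Agent.GaussPoset.Win.Rd

set_option linter.unusedSectionVars false

open Finset I2 K2
open Pool.Agent.GaussPoset.Win.H2 (SdT NoT low_T up_T sum_all)
open Pool.Agent.GaussPoset.Win.Xg (FlS Zr LoP UpP FP rm rm_le rm_of rm_y rm_p Okc kp Lft mem_Lft
  CanD Can Tee Exo SdO Act laL laU)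

universe u

variable {P : Type u} [Fintype P] [PartialOrder P] [DecidableEq P] {r i : ℕ} {e B : P → ℕ}
variable {psi : P → P} {C : Finset P} {Q : (P → ℕ) → Prop} {t : P × P} {c p0 y0 : P}

/-- `c` and the elements above it -/
noncomputable def UE (c : P) : Finset P := insert c (uc c ∪ (uc c).biUnion uc)

/-- the labels of an inner join over a twin -/
noncomputable def eE (t : P × P) (c : P) : P → ℕ :=
  fun v => if v ∈ WT t then bT t v else if v ∈ UE c then 1 else 0

/-- an inner join over a twin and a pendant, away from the twins -/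
structure EtS (i : ℕ) (C : Finset P) (t : P × P) (c p0 y0 : P) : Prop where
  T : IsTw i C t
  mc : c ∈ C
  ly : lev y0 = i + 1
  cy : (uc y0).card = 2
  up : uc p0 = {y0}
  cp : c ∈ dc p0
  cz : c ∈ dc t.1 ∨ c ∈ dc t.2
  dj : Disjoint (uc y0) (XT t)

section ets

variable (H : Gr P r) (S : EtS i C t c p0 y0)
include H S

lemma EtS.lv : lev p0 = i + 2 ∧ lev c = i + 3 := by
  have h1 := lev_uc H (show y0 ∈ uc p0 by rw [S.up]; simp)
  have h2 := lev_dc H S.cp
  have := S.ly
  omega

lemma EtS.lW {v : P} (hv : v ∈ WT t) : lev v = i + 1 ∨ lev v = i + 2 := by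
  have X := add_ex H S.T (cpt_zero (t := t))
  exact (X.levW H hv).1

lemma EtS.nW : y0 ∉ WT t ∧ p0 ∉ WT t ∧ c ∉ WT t := by
  have X := add_ex H S.T (cpt_zero (t := t))
  obtain ⟨w, w2, p, x, q, T, mW, mX⟩ := X.mW
  obtain ⟨l1, l2, l3, l4, l5, l6⟩ := Tw.lv H T
  obtain ⟨h1, h2⟩ := S.lv H
  have ly := S.ly
  refine ⟨?_, ?_, ?_⟩
  · intro h
    have h3 := ((X.levW H h).2.2.2 ly).1
    obtain ⟨s, hs⟩ := uc_nonempty H (x := y0) (by omega)
    refine disjoint_left.1 S.dj hs ?_
    unfold XT
    exact mem_biUnion.2 ⟨y0, h3, hs⟩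
  · intro h
    have hup := S.up
    rcases (mW p0).1 h with h3 | h3 | h3 | h3
    · rw [h3, T.uz] at hup
      have : ({w, w2} : Finset P).card = 1 := by rw [hup, card_singleton]
      rw [card_pair T.ww] at this
      omega
    · rw [h3, T.uz'] at hup
      have : ({w, w2} : Finset P).card = 1 := by rw [hup, card_singleton]
      rw [card_pair T.ww] at this
      omega
    · rw [h3] at h1; omega
    · rw [h3] at h1; omega
  · intro h
    have := S.lW H h
    omega

lemma EtS.ucc : ∃ z0, (z0 = t.1 ∨ z0 = t.2) ∧ z0 ∈ WT t ∧ uc c = {p0, z0} := by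
  obtain ⟨n1, n2, n3⟩ := S.nW H
  have key : ∀ z0, z0 ∈ WT t → c ∈ dc z0 → uc c = {p0, z0} := by
    intro z0 hz hc
    refine pair_eq_of (uc_card_le H c) (mem_uc.2 (mem_dc.1 S.cp)) (mem_uc.2 (mem_dc.1 hc)) ?_
    rintro rfl
    exact n2 hz
  rcases S.cz with h | h
  · exact ⟨t.1, Or.inl rfl, by unfold WT; simp, key t.1 (by unfold WT; simp) h⟩
  · exact ⟨t.2, Or.inr rfl, by unfold WT; simp, key t.2 (by unfold WT; simp) h⟩

lemma EtS.memUE {v : P} (hv : v ∉ WT t) : v ∈ UE c ↔ v = c ∨ v = p0 ∨ v = y0 := by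
  obtain ⟨z0, hz, hzW, hcc⟩ := S.ucc H
  have X := add_ex H S.T (cpt_zero (t := t))
  unfold UE
  rw [hcc, mem_insert, mem_union, biUnion_insert, singleton_biUnion, mem_union, S.up,
    mem_insert, mem_singleton, mem_singleton]
  constructor
  · rintro (h | (h | h) | h | h)
    · exact Or.inl h
    · exact Or.inr (Or.inl h)
    · exact absurd (h ▸ hzW) hv
    · exact Or.inr (Or.inr h)
    · exfalso
      rcases X.ucW H hzW h with h1 | ⟨h1, -⟩
      · exact hv h1
      · obtain ⟨w, w2, p, x, q, T, -⟩ := X.mW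
        obtain ⟨l1, l2, l3, l4, l5, l6⟩ := Tw.lv H T
        have := T.lz
        rcases hz with rfl | rfl <;> omega
  · rintro (h | h | h)
    · exact Or.inl h
    · exact Or.inr (Or.inl (Or.inl h))
    · exact Or.inr (Or.inr (Or.inl h))

lemma EtS.out {v : P} (hv : v ∉ WT t) : eE t c v = if v = c ∨ v = p0 ∨ v = y0 then 1 else 0 := by
  unfold eE
  rw [if_neg hv]
  by_cases h : v ∈ UE c
  · rw [if_pos h, if_pos ((S.memUE H hv).1 h)]
  · rw [if_neg h, if_neg (fun h1 => h ((S.memUE H hv).2 h1))]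

lemma EtS.vals : eE t c c = 1 ∧ eE t c p0 = 1 ∧ eE t c y0 = 1 ∧
    (∀ v ∈ WT t, eE t c v = bT t v) ∧
    ∀ v, v ∉ WT t → v ≠ c → v ≠ p0 → v ≠ y0 → eE t c v = 0 := by
  obtain ⟨n1, n2, n3⟩ := S.nW H
  refine ⟨?_, ?_, ?_, ?_, ?_⟩
  · rw [S.out H n3, if_pos (Or.inl rfl)]
  · rw [S.out H n2, if_pos (Or.inr (Or.inl rfl))]
  · rw [S.out H n1, if_pos (Or.inr (Or.inr rfl))]
  · intro v hv
    unfold eE
    rw [if_pos hv]
  · intro v hv h1 h2 h3
    rw [S.out H hv, if_neg (by tauto)]

/-- the block -/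
lemma EtS.blk : Blk i (WT t ∪ {c, p0, y0}) (XT t ∪ uc y0) (eE t c) ∧
    aW (WT t ∪ {c, p0, y0}) (eE t c) = 2 ∧ pW (WT t ∪ {c, p0, y0}) (eE t c) = 2 ∧
    (XT t ∪ uc y0).card = 5 := by
  classical
  obtain ⟨n1, n2, n3⟩ := S.nW H
  obtain ⟨v1, v2, v3, v4, v5⟩ := S.vals H
  obtain ⟨k1, k2⟩ := S.lv H
  have ly := S.ly
  obtain ⟨z0, hz0, hz0W, hcc⟩ := S.ucc H
  have X := add_ex H S.T (cpt_zero (t := t))
  obtain ⟨w, w2, p, x, q, T, mW, mX⟩ := X.mW
  obtain ⟨l1, l2, l3, l4, l5, l6⟩ := Tw.lv H T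
  have lz := T.lz
  obtain ⟨b1, b2, b3, b4, b5⟩ := Tw.b H T
  have hb : bT (t.1, t.2) = bT t := rfl
  rw [hb] at b1 b2 b3 b4
  have m1 : t.1 ∈ WT t := (mW _).2 (by simp)
  have m2 : t.2 ∈ WT t := (mW _).2 (by simp)
  have m3 : w ∈ WT t := (mW _).2 (by simp)
  have m4 : w2 ∈ WT t := (mW _).2 (by simp)
  have e1 : eE t c t.1 = 2 := by rw [v4 _ m1]; exact b1
  have e2 : eE t c t.2 = 1 := by rw [v4 _ m2]; exact b2
  have e3 : eE t c w = 1 := by rw [v4 _ m3]; exact b3
  have e4 : eE t c w2 = 1 := by rw [v4 _ m4]; exact b4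
  have mV : ∀ v, v ∈ WT t ∪ {c, p0, y0} ↔
      v = t.1 ∨ v = t.2 ∨ v = w ∨ v = w2 ∨ v = c ∨ v = p0 ∨ v = y0 := by
    intro v
    rw [mem_union, mW, mem_insert, mem_insert, mem_singleton]
    tauto
  have mV1 : ∀ v, v ∈ WT t → v ∈ WT t ∪ {c, p0, y0} := fun v hv => mem_union_left _ hv
  have hp0c : p0 ∈ uc c := mem_uc.2 (mem_dc.1 S.cp)
  -- killed elements
  have f1 : bF (WT t ∪ {c, p0, y0}) (eE t c) w :=
    ⟨t.1, by rw [T.dw]; simp, mV1 _ m1, by omega⟩
  have f2 : bF (WT t ∪ {c, p0, y0}) (eE t c) w2 :=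
    ⟨t.1, by rw [T.dw2]; simp, mV1 _ m1, by omega⟩
  have lab : ∀ a, a ∈ WT t ∪ {c, p0, y0} → a ≠ t.1 → eE t c a = 1 := by
    intro a ha hne
    rcases (mV a).1 ha with rfl | rfl | rfl | rfl | rfl | rfl | rfl
    · exact absurd rfl hne
    all_goals assumption
  have f3 : ∀ v, v ∈ WT t ∪ {c, p0, y0} → (∀ a ∈ dc v, a ≠ t.1) →
      ¬ bF (WT t ∪ {c, p0, y0}) (eE t c) v := by
    rintro v hv hno ⟨a, ha, haW, hlt⟩
    have h1 := lab a haW (hno a ha)
    have h2 : 1 ≤ eE t c v := by
      by_cases hvt : v = t.1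
      · rw [hvt, e1]; omega
      · rw [lab v hv hvt]
    omega
  have noz : ∀ v, lev v ≠ i + 1 → ∀ a ∈ dc v, a ≠ t.1 := by
    rintro v hl a ha rfl
    have := lev_dc H ha
    omega
  have f4 : ¬ bF (WT t ∪ {c, p0, y0}) (eE t c) y0 := by
    refine f3 y0 ((mV _).2 (by simp)) ?_
    rintro a ha rfl
    have h1 : y0 ∈ uc t.1 := mem_uc.2 (mem_dc.1 ha)
    rcases X.ucW H m1 h1 with h2 | ⟨h2, -⟩
    · exact n1 h2
    · omega
  have g1 : ¬ bG (WT t ∪ {c, p0, y0}) (eE t c) t.1 := by
    rintro ⟨a, ha, haW, hle⟩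
    have : a ≠ t.1 := by
      rintro rfl
      have := lev_uc H ha
      omega
    rw [lab a haW this] at hle
    omega
  have g2 : bG (WT t ∪ {c, p0, y0}) (eE t c) t.2 :=
    ⟨w, by rw [T.uz']; simp, mV1 _ m3, by omega⟩
  have g3 : ¬ bG (WT t ∪ {c, p0, y0}) (eE t c) y0 := by
    rintro ⟨a, ha, haW, hle⟩
    have := lev_uc H ha
    rcases (mV a).1 haW with rfl | rfl | rfl | rfl | rfl | rfl | rfl <;> omega
  have g4 : bG (WT t ∪ {c, p0, y0}) (eE t c) p0 :=
    ⟨y0, by rw [S.up]; simp, (mV _).2 (by simp), by omega⟩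
  have g5 : bG (WT t ∪ {c, p0, y0}) (eE t c) c :=
    ⟨p0, hp0c, (mV _).2 (by simp), by omega⟩
  refine ⟨⟨?_, ?_, ?_, ?_, ?_, ?_, ?_⟩, ?_, ?_, ?_⟩
  · intro v hv
    rcases (mV v).1 hv with rfl | rfl | rfl | rfl | rfl | rfl | rfl <;> omega
  · intro v hv
    by_cases hvt : v = t.1
    · rw [hvt, e1]; omega
    · rw [lab v hv hvt]
  · intro v hv hl s hs
    by_cases hvy : v = y0
    · exact mem_union_right _ (hvy ▸ hs)
    · refine mem_union_left _ ?_
      have hvW : v ∈ WT t := by
        rcases (mV v).1 hv with rfl | rfl | rfl | rfl | rfl | rfl | rfl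
        · exact m1
        · exact m2
        · exact m3
        · exact m4
        · omega
        · omega
        · exact absurd rfl hvy
      rcases X.ucW H hvW hs with h1 | ⟨-, h1⟩
      · have := S.lW H h1
        have := lev_uc H hs
        omega
      · exact h1
  · intro v hv hl s hs
    rcases (mV v).1 hv with rfl | rfl | rfl | rfl | rfl | rfl | rfl
    · rcases X.ucW H m1 hs with h1 | ⟨h1, -⟩
      · exact mV1 _ h1
      · omega
    · rcases X.ucW H m2 hs with h1 | ⟨h1, -⟩
      · exact mV1 _ h1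
      · omega
    · omega
    · omega
    · rw [hcc, mem_insert, mem_singleton] at hs
      rcases hs with rfl | rfl
      · exact (mV _).2 (by simp)
      · exact mV1 _ hz0W
    · rw [S.up, mem_singleton] at hs
      subst hs
      exact (mV _).2 (by simp)
    · omega
  · rintro v hv hl ⟨h1, -⟩
    exact f3 v hv (noz v (by omega)) h1
  · intro v hv hl
    rcases (mV v).1 hv with rfl | rfl | rfl | rfl | rfl | rfl | rfl
    · omega
    · omega
    · exact ⟨t.1, by rw [T.dw]; simp, mV1 _ m1⟩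
    · exact ⟨t.1, by rw [T.dw2]; simp, mV1 _ m1⟩
    · omega
    · omega
    · exact ⟨p0, mem_dc.2 (mem_uc.1 (by rw [S.up]; simp)), (mV _).2 (by simp)⟩
  · intro s hs
    rcases mem_union.1 hs with h1 | h1
    · refine ⟨(S.T.Xo H h1).2, ?_⟩
      unfold XT at h1
      obtain ⟨a, ha, hsa⟩ := mem_biUnion.1 h1
      refine ⟨a, mV1 _ ?_, mem_dc.2 (mem_uc.1 hsa)⟩
      unfold WT
      exact mem_insert_of_mem (mem_insert_of_mem ha)
    · have := lev_uc H h1
      exact ⟨by omega, y0, (mV _).2 (by simp), mem_dc.2 (mem_uc.1 h1)⟩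
  · unfold aW
    rw [card_eq_two]
    refine ⟨w, w2, T.ww, ?_⟩
    ext v
    rw [mem_filter, mem_insert, mem_singleton]
    constructor
    · rintro ⟨hv, h2⟩
      by_cases hl : lev v = i + 1
      · rcases (mV v).1 hv with rfl | rfl | rfl | rfl | rfl | rfl | rfl
        · omega
        · omega
        · exact Or.inl rfl
        · exact Or.inr rfl
        · omega
        · omega
        · exact absurd h2 f4
      · exact absurd h2 (f3 v hv (noz v hl))
    · rintro (rfl | rfl)
      · exact ⟨mV1 _ m3, f1⟩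
      · exact ⟨mV1 _ m4, f2⟩
  · unfold pW
    rw [card_eq_two]
    refine ⟨t.1, y0, ?_, ?_⟩
    · intro h
      rw [h] at lz
      omega
    ext v
    rw [mem_filter, mem_insert, mem_singleton]
    constructor
    · rintro ⟨hv, h2, h3⟩
      rcases (mV v).1 hv with rfl | rfl | rfl | rfl | rfl | rfl | rfl
      · exact Or.inl rfl
      · exact absurd g2 h3
      · exact absurd f1 h2
      · exact absurd f2 h2
      · exact absurd g5 h3
      · exact absurd g4 h3
      · exact Or.inr rfl
    · rintro (rfl | rfl)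
      · exact ⟨mV1 _ m1, f3 _ (mV1 _ m1) (noz _ (by omega)), g1⟩
      · exact ⟨(mV _).2 (by simp), f4, g3⟩
  · rw [card_union_of_disjoint S.dj.symm, S.cy]
    have := (Tw.nums H T).2.2
    rw [show XT (t.1, t.2) = XT t from rfl] at this
    rw [this]

lemma EtS.rem : Rem (WT t ∪ {c, p0, y0}) (XT t ∪ uc y0) (eE t c) (eE t c) Z0 where
  eW := fun _ _ => rfl
  BW := fun _ _ => rfl
  eq := by
    intro v hv
    rw [mem_union, not_or, mem_insert, mem_insert, mem_singleton, not_or, not_or] at hv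
    obtain ⟨h1, h2, h3, h4⟩ := hv
    exact (S.vals H).2.2.2.2 v h1 h2 h3 h4
  BX := fun _ _ => rfl
  dX := fun _ _ _ _ _ => rfl
  uX := fun _ _ _ _ => rfl
  ch := fun _ _ _ _ _ => rfl

lemma EtS.ex : Ex i (eE t c) t := by
  obtain ⟨v1, v2, v3, v4, v5⟩ := S.vals H
  obtain ⟨k1, k2⟩ := S.lv H
  have ly := S.ly
  refine ⟨S.T.tw, v4, ?_, ?_, ?_⟩
  · intro x hx
    obtain ⟨h1, h2⟩ := S.T.Xo H hx
    refine v5 x h1 ?_ ?_ ?_ <;> (rintro rfl; omega)
  · intro x hx v hv hvW
    obtain ⟨h1, h2⟩ := S.T.Xo H hx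
    have lv := lev_dc H hv
    refine v5 v hvW ?_ ?_ ?_
    · rintro rfl; omega
    · rintro rfl; omega
    · rintro rfl
      exact disjoint_left.1 S.dj (mem_uc.2 (mem_dc.1 hv)) hx
  · intro x hx u hu
    obtain ⟨h1, h2⟩ := S.T.Xo H hx
    have lv := lev_uc H hu
    refine v5 u ?_ ?_ ?_ ?_
    · intro h
      have := S.lW H h
      omega
    · rintro rfl; omega
    · rintro rfl; omega
    · rintro rfl; omega

lemma EtS.sum : ∑ v, eE t c v = 8 := by
  obtain ⟨n1, n2, n3⟩ := S.nW H
  obtain ⟨v1, v2, v3, v4, v5⟩ := S.vals H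
  obtain ⟨k1, k2⟩ := S.lv H
  have ly := S.ly
  have h5 := (S.ex H).sumW H
  have d1 : Disjoint (WT t) ({c, p0, y0} : Finset P) := by
    rw [disjoint_right]
    intro v hv
    rw [mem_insert, mem_insert, mem_singleton] at hv
    rcases hv with rfl | rfl | rfl <;> assumption
  have h6 : ∑ v, eE t c v = ∑ v ∈ WT t ∪ {c, p0, y0}, eE t c v := by
    refine (sum_subset (subset_univ _) ?_).symm
    intro v _ hv
    rw [mem_union, not_or, mem_insert, mem_insert, mem_singleton, not_or, not_or] at hv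
    exact v5 v hv.1 hv.2.1 hv.2.2.1 hv.2.2.2
  have g1 : p0 ∉ ({y0} : Finset P) := by
    rw [mem_singleton]
    rintro rfl
    omega
  have g2 : c ∉ ({p0, y0} : Finset P) := by
    rw [mem_insert, mem_singleton, not_or]
    constructor
    · rintro rfl; omega
    · rintro rfl; omega
  rw [h6, sum_union d1, h5, sum_insert g2, sum_insert g1, sum_singleton, v1, v2, v3]
  rfl

end ets

/-- the core of an inner join is the explicit one -/
lemma EtD.eq (H : Gr P r) (X : Ex i e t) (D : EtD i e t c p0 y0) (T : IsTw i C t)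
    (hs : Spt C e) : EtS i C t c p0 y0 ∧ e = eE t c := by
  have hdj : Disjoint (uc y0) (XT t) := by
    rw [disjoint_left]
    intro s hs hX
    have := X.dX s hX y0 (mem_dc.2 (mem_uc.1 hs)) D.yW
    have := D.ey
    omega
  have S : EtS i C t c p0 y0 := ⟨T, spt_mem hs (by rw [D.ec]), D.ly, D.cy, D.up, D.cp, D.cz, hdj⟩
  refine ⟨S, ?_⟩
  obtain ⟨n1, n2, n3⟩ := S.nW H
  obtain ⟨v1, v2, v3, v4, v5⟩ := S.vals H
  funext v
  by_cases hv : v ∈ WT t
  · rw [v4 v hv, X.lab v hv]
  by_cases h1 : v = c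
  · rw [h1, v1, D.ec]
  by_cases h2 : v = p0
  · rw [h2, v2, D.ep]
  by_cases h3 : v = y0
  · rw [h3, v3, D.ey]
  rw [v5 v hv h1 h2 h3, D.out v hv h3 h2 h1]

section main

variable (E : Ev r i psi C) (K : Kls i psi C Q)
include E K

/-- the explicit core is a leftover core -/
lemma EtS.mem (S : EtS i C t c p0 y0) : eE t c ∈ Lft i psi C Q 8 2 ∧ sg i (eE t c) = -1 := by
  classical
  have H := E.H
  obtain ⟨BK, na, np, nX⟩ := S.blk H
  have R := S.rem H
  obtain ⟨n1, n2, n3⟩ := S.nW H
  obtain ⟨v1, v2, v3, v4, v5⟩ := S.vals H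
  obtain ⟨k1, k2⟩ := S.lv H
  have ly := S.ly
  have mp0 : p0 ∈ C := E.hC.up S.mc (mem_dc.1 S.cp)
  have my0 : y0 ∈ C := E.hC.up mp0 (mem_uc.1 (by rw [S.up]; simp))
  have hW : WT t ∪ {c, p0, y0} ⊆ C := by
    intro v hv
    rcases mem_union.1 hv with h | h
    · exact S.T.sub H E.hC h
    · rw [mem_insert, mem_insert, mem_singleton] at h
      rcases h with rfl | rfl | rfl
      · exact S.mc
      · exact mp0
      · exact my0
  have hkp := R.kp H BK
  rw [nX, np, z0_kp H E.hr] at hkp
  have hsg := R.sg H BK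
  rw [nX, na, z0_sg H E.hr] at hsg
  have hlow : ∀ v, lev v ≤ i → eE t c v = 0 := by
    intro v hv
    refine v5 v ?_ ?_ ?_ ?_
    · intro h
      have := S.lW H h
      omega
    · rintro rfl; omega
    · rintro rfl; omega
    · rintro rfl; omega
  refine ⟨mem_Lft.2 ⟨S.sum H, (R.okc H BK E.hM hW).2 z0_okc, by rw [hkp]; norm_num, ?_, ?_⟩,
    by rw [hsg]; norm_num⟩
  · rw [eq_empty_iff_forall_notMem]
    intro s hs
    have h1 := (S.ex H).cc H S.T.rk hs
    rw [Xg.mem_CC H] at hs
    rcases hs with ⟨w, w2, p, q, T, EE, h⟩ | ⟨w, w2, p, q, T, EE, h⟩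
    · have ld : lev s.1 = i + 2 := by
        have := T.ld
        unfold laL at this
        omega
      have hpos := EE.pos
      by_cases h2 : s.1 = p0
      · have h3 := T.ud
        rw [h2, S.up] at h3
        have : ({w, w2} : Finset P).card = 1 := by rw [← h3, card_singleton]
        rw [card_pair T.ne] at this
        omega
      · have := v5 s.1 h1 (by intro h4; rw [h4] at ld; omega) h2
          (by intro h4; rw [h4] at ld; omega)
        omega
    · have ld : lev s.1 + 2 = i := by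
        have := T.ld
        unfold laU at this
        omega
      have hpos := EE.pos
      have := hlow s.1 (by omega)
      omega
  · rcases K with ⟨-, rfl⟩ | ⟨y, p, w, u, v, v', F, h5, h6, h7, h8, rfl⟩
    · exact id
    · obtain ⟨j1, j2, j3, j4⟩ := F.lv H
      have lw := F.lw
      have lyy := F.ly
      rintro (⟨g1, g2, g3⟩ | ⟨g1, g2, g3⟩)
      · have hp : p = p0 := by
          have hy0 : y0 ∈ uc p0 := by rw [S.up]; simp
          have := h7 p0 mp0 (mem_PD'.2 ⟨k1, by rw [S.up, card_singleton], y0,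
            mem_uc.1 hy0, S.cy⟩)
          exact this.symm
        have h9 := g3.dp c (by rw [hp]; exact S.cp)
        rw [rm_of (by rintro rfl; omega) (by rintro rfl; omega), v1] at h9
        omega
      · have := hlow w (by omega)
        omega

open Classical in
/-- the inner joins over a twin -/
noncomputable def ETs (i : ℕ) (C : Finset P) : Finset ((P × P) × P) :=
  univ.filter (fun s => ∃ p0 y0, EtS i C s.1 s.2 p0 y0)

omit E K in
lemma mem_ETs {s : (P × P) × P} : s ∈ ETs i C ↔ ∃ p0 y0, EtS i C s.1 s.2 p0 y0 := by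
  classical
  unfold ETs
  rw [mem_filter]
  exact ⟨fun h => h.2, fun h => ⟨mem_univ _, h⟩⟩

/-- the block of a leftover core of energy eight is unique -/
lemma lft8_uniq {t' : P × P} (he : e ∈ Lft i psi C Q 8 2) (X : Ex i e t) (X' : Ex i e t') :
    t = t' := by
  obtain ⟨z, hz, -⟩ := lft_small E K he (by norm_num) (by norm_num)
  have h1 := X.twl E.H
  have h2 := X'.twl E.H
  rw [hz, mem_singleton] at h1 h2
  exact X.same X' (h1.trans h2.symm)

open Classical in
/-- THE LEFTOVER SUM (8,2) -/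
theorem sum82 : ∑ e ∈ Lft i psi C Q 8 2, sg i e =
    - (∑ t ∈ TWC i C, ∑ B ∈ (Lft i psi C Q 3 0).filter (fun B => Cpt t B), sg i B) -
      ((ETs i C).card : ℤ) := by
  have H := E.H
  -- the two kinds of cores
  have hsplit : ∑ e ∈ Lft i psi C Q 8 2, sg i e =
      ∑ e ∈ (Lft i psi C Q 8 2).filter (fun e => ∃ s ∈ ETs i C, e = eE s.1 s.2), sg i e +
      ∑ e ∈ (Lft i psi C Q 8 2).filter (fun e => ¬ ∃ s ∈ ETs i C, e = eE s.1 s.2), sg i e :=
    (sum_filter_add_sum_filter_not _ _ _).symm
  have h1 : ∑ e ∈ (Lft i psi C Q 8 2).filter (fun e => ∃ s ∈ ETs i C, e = eE s.1 s.2), sg i e =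
      ∑ _s ∈ ETs i C, (-1 : ℤ) := by
    symm
    refine sum_bij (fun s _ => eE s.1 s.2) ?_ ?_ ?_ ?_
    · intro s hs
      obtain ⟨p0, y0, S⟩ := mem_ETs.1 hs
      exact mem_filter.2 ⟨(S.mem E K).1, s, hs, rfl⟩
    · intro s hs s' hs' heq
      obtain ⟨p0, y0, S⟩ := mem_ETs.1 hs
      obtain ⟨p0', y0', S'⟩ := mem_ETs.1 hs'
      have heq' : eE s.1 s.2 = eE s'.1 s'.2 := heq
      have X := S.ex H
      have X' := S'.ex H
      have ht : s.1 = s'.1 := by
        refine lft8_uniq E K (S.mem E K).1 X ?_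
        rw [heq']
        exact X'
      refine Prod.ext ht ?_
      have h2 := (S.vals H).1
      rw [heq'] at h2
      by_contra hne
      have l1 := (S.lv H).2
      have l2 := (S'.lv H)
      have ly := S'.ly
      have := (S'.vals H).2.2.2.2 s.2 (by
          intro h3
          have := S'.lW H h3
          omega) hne (by rintro h3; rw [h3] at l1; omega) (by rintro h3; rw [h3] at l1; omega)
      omega
    · intro e he
      rw [mem_filter] at he
      obtain ⟨-, s, hs, rfl⟩ := he
      exact ⟨s, hs, rfl⟩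
    · intro s hs
      obtain ⟨p0, y0, S⟩ := mem_ETs.1 hs
      exact (S.mem E K).2.symm
  have h2 : ∑ e ∈ (Lft i psi C Q 8 2).filter (fun e => ¬ ∃ s ∈ ETs i C, e = eE s.1 s.2), sg i e =
      ∑ s ∈ (TWC i C).sigma (fun t => (Lft i psi C Q 3 0).filter (fun B => Cpt t B)),
        - sg i s.2 := by
    symm
    refine sum_bij (fun s _ => addT s.1 s.2) ?_ ?_ ?_ ?_
    · rintro ⟨t, B⟩ hs
      rw [mem_sigma, mem_filter] at hs
      obtain ⟨ht, hB, hc⟩ := hs
      have T := mem_TWC.1 ht
      have hm := add_mem E K T hc hB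
      refine mem_filter.2 ⟨hm, ?_⟩
      rintro ⟨s, hs, heq⟩
      obtain ⟨p0, y0, S⟩ := mem_ETs.1 hs
      have X := add_ex H T hc
      have heq' : addT t B = eE s.1 s.2 := heq
      have X' : Ex i (addT t B) s.1 := by
        rw [heq']
        exact S.ex H
      have h3 := lft8_uniq E K hm X X'
      -- the child `c` has label one
      have h4 := (S.vals H).1
      rw [← heq', add_out H T (by rw [h3]; exact (S.nW H).2.2)] at h4
      have h5 : B s.2 = 0 := by
        rcases S.cz with h6 | h6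
        · refine (hc.W s.1.1 ?_).2 s.2 h6
          rw [h3]
          unfold WT
          simp
        · refine (hc.W s.1.2 ?_).2 s.2 h6
          rw [h3]
          unfold WT
          simp
      omega
    · rintro ⟨t, B⟩ hs ⟨t', B'⟩ hs' heq
      rw [mem_sigma, mem_filter] at hs hs'
      obtain ⟨ht, hB, hc⟩ := hs
      obtain ⟨ht', hB', hc'⟩ := hs'
      have T := mem_TWC.1 ht
      have T' := mem_TWC.1 ht'
      have X := add_ex H T hc
      have heq' : addT t B = addT t' B' := heq
      have X' : Ex i (addT t B) t' := by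
        rw [heq']
        exact add_ex H T' hc'
      have h3 := lft8_uniq E K (add_mem E K T hc hB) X X'
      have h3' : t = t' := h3
      subst h3'
      have h4 : B = B' := by
        funext v
        have := congrFun heq' v
        unfold addT at this
        omega
      subst h4
      rfl
    · intro e he
      rw [mem_filter] at he
      obtain ⟨he, hno⟩ := he
      obtain ⟨hsum, O, hkp, hCC, hnQ⟩ := mem_Lft.1 he
      obtain ⟨t, X, hz, hcases⟩ := lft8_cases E K he
      have hrk : (∀ a ∈ dc t.1, e a ≤ 1) → IsTw i C t := fun h => X.isTw H O.spt (X.rk H h hCC)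
      have h1W : t.1 ∈ WT t := by unfold WT; simp
      rcases hcases with hch | ⟨c, p0, y0, D⟩
      · have T : IsTw i C t := by
          apply hrk
          intro a ha
          by_cases haW : a ∈ WT t
          · obtain ⟨w, w2, p, x, q, T⟩ := X.tw
            have h7 := lev_dc H ha
            have h8 := (X.levW H haW).1
            have h9 := T.lz
            omega
          · rw [hch t.1 h1W a ha haW]
            omega
        refine ⟨⟨t, offB t e⟩, ?_, off_add H X⟩
        rw [mem_sigma, mem_filter]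
        exact ⟨mem_TWC.2 T, off_mem E K T X hch he, off_cpt H X hch⟩
      · exfalso
        have T : IsTw i C t := by
          apply hrk
          intro a ha
          obtain ⟨w, w2, p, x, q, T⟩ := X.tw
          have h7 := lev_dc H ha
          have h9 := T.lz
          by_cases haW : a ∈ WT t
          · have h8 := (X.levW H haW).1
            omega
          by_cases hac : a = c
          · rw [hac, D.ec]
          · have hly := D.ly
            have hlp : lev p0 = i + 2 := by
              have := lev_uc H (show y0 ∈ uc p0 by rw [D.up]; simp)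
              omega
            rw [D.out a haW (by rintro rfl; omega) (by rintro rfl; omega) hac]
            omega
        obtain ⟨S, heq⟩ := D.eq H X T O.spt
        exact hno ⟨(t, c), mem_ETs.2 ⟨p0, y0, S⟩, heq⟩
    · rintro ⟨t, B⟩ hs
      rw [mem_sigma, mem_filter] at hs
      exact (add_sg H (mem_TWC.1 hs.1) hs.2.2).symm
  rw [hsplit, h1, h2, sum_const, nsmul_eq_mul, sum_sigma]
  simp only [sum_neg_distrib]
  ring

end main

end Pool.Agent.GaussPoset.Win.Rd

end

/-! From `Pool.Agent.W_448rd_h10.RdT` -/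

section

/-!
MP_448cb3_co, G2, window `j - 1`: the leftover sum (10,3).  helper10.
-/

namespace Pool.Agent.GaussPoset.Win.Rd

set_option linter.unusedSectionVars false

open Finset I2 K2
open Pool.Agent.GaussPoset.Win.H2 (SdT NoT low_T up_T sum_all)
open Pool.Agent.GaussPoset.Win.Xg (FlS Zr LoP UpP FP rm rm_le rm_of rm_y rm_p Okc kp Lft mem_Lft
  CanD Can Tee Exo SdO Act laL laU)

universe u

variable {P : Type u} [Fintype P] [PartialOrder P] [DecidableEq P] {r i : ℕ} {e B : P → ℕ}
variable {psi : P → P} {C : Finset P} {Q : (P → ℕ) → Prop} {t : P × P}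

/-! ### the inner join with label three -/

/-- the labels three, two, one above `a` -/
noncomputable def eN (a : P) : P → ℕ := fun v => if v = a then 3 else if v ∈ uc a then 2
  else if v ∈ (uc a).biUnion uc then 1 else 0

/-- an inner join over a double element and a pendant without a common site -/
structure NfS (i : ℕ) (C : Finset P) (a z z2 w w2 y : P) : Prop where
  mc : a ∈ C
  la : lev a = i + 3
  ua : uc a = {z, z2}
  uz : uc z = {w, w2}
  uz2 : uc z2 = {y}
  ne : z2 ≠ z
  ww : w ≠ w2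
  yw : y ≠ w
  yw2 : y ≠ w2
  cw : (uc w).card = 2
  cw2 : (uc w2).card = 2
  cy : (uc y).card = 2
  c5 : (uc w ∪ uc w2 ∪ uc y).card = 5

section nf

variable {a z z2 w w2 y : P} (H : Gr P r) (S : NfS i C a z z2 w w2 y)
include H S

lemma NfS.lv : lev z = i + 2 ∧ lev z2 = i + 2 ∧ lev w = i + 1 ∧ lev w2 = i + 1 ∧
    lev y = i + 1 := by
  have h1 := lev_uc H (show z ∈ uc a by rw [S.ua]; simp)
  have h2 := lev_uc H (show z2 ∈ uc a by rw [S.ua]; simp)
  have h3 := lev_uc H (show w ∈ uc z by rw [S.uz]; simp)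
  have h4 := lev_uc H (show w2 ∈ uc z by rw [S.uz]; simp)
  have h5 := lev_uc H (show y ∈ uc z2 by rw [S.uz2]; simp)
  have := S.la
  omega

lemma NfS.vals : eN a a = 3 ∧ eN a z = 2 ∧ eN a z2 = 2 ∧ eN a w = 1 ∧ eN a w2 = 1 ∧
    eN a y = 1 ∧ ∀ v, v ≠ a → v ≠ z → v ≠ z2 → v ≠ w → v ≠ w2 → v ≠ y → eN a v = 0 := by
  obtain ⟨l1, l2, l3, l4, l5⟩ := S.lv H
  have la := S.la
  have hl : ∀ x y : P, lev x ≠ lev y → x ≠ y := fun a b h h' => h (by rw [h'])
  have hB : ∀ v, v ∈ (uc a).biUnion uc ↔ v = w ∨ v = w2 ∨ v = y := by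
    intro v
    rw [S.ua, biUnion_insert, singleton_biUnion, S.uz, S.uz2, mem_union, mem_insert,
      mem_singleton, mem_singleton]
    tauto
  have hU : ∀ v, v ∈ uc a ↔ v = z ∨ v = z2 := by
    intro v
    rw [S.ua, mem_insert, mem_singleton]
  have two : ∀ v, v ≠ a → v ∈ uc a → eN a v = 2 := by
    intro v h1 h2
    unfold eN
    rw [if_neg h1, if_pos h2]
  have one : ∀ v, lev v = i + 1 → v ∈ (uc a).biUnion uc → eN a v = 1 := by
    intro v h1 h2
    unfold eN
    rw [if_neg (hl _ _ (by omega)), if_neg, if_pos h2]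
    intro h3
    have := lev_uc H h3
    omega
  refine ⟨?_, two z (hl _ _ (by omega)) ((hU z).2 (by simp)),
    two z2 (hl _ _ (by omega)) ((hU z2).2 (by simp)), one w l3 ((hB w).2 (by simp)),
    one w2 l4 ((hB w2).2 (by simp)), one y l5 ((hB y).2 (by simp)), ?_⟩
  · unfold eN
    rw [if_pos rfl]
  · intro v h1 h2 h3 h4 h5 h6
    unfold eN
    rw [if_neg h1, if_neg (fun h => by rcases (hU v).1 h with h | h <;> contradiction),
      if_neg (fun h => by rcases (hB v).1 h with h | h | h <;> contradiction)]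

/-- the block -/
lemma NfS.blk : Blk i {a, z, z2, w, w2, y} (uc w ∪ uc w2 ∪ uc y) (eN a) ∧
    aW {a, z, z2, w, w2, y} (eN a) = 5 ∧ pW {a, z, z2, w, w2, y} (eN a) = 1 := by
  classical
  obtain ⟨l1, l2, l3, l4, l5⟩ := S.lv H
  obtain ⟨v1, v2, v3, v4, v5, v6, v7⟩ := S.vals H
  have la := S.la
  have hl : ∀ x y : P, lev x ≠ lev y → x ≠ y := fun a b h h' => h (by rw [h'])
  have mV : ∀ v, v ∈ ({a, z, z2, w, w2, y} : Finset P) ↔
      v = a ∨ v = z ∨ v = z2 ∨ v = w ∨ v = w2 ∨ v = y := by
    intro v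
    simp only [mem_insert, mem_singleton]
  have ma : a ∈ ({a, z, z2, w, w2, y} : Finset P) := (mV _).2 (by simp)
  have mz : z ∈ ({a, z, z2, w, w2, y} : Finset P) := (mV _).2 (by simp)
  have mz2 : z2 ∈ ({a, z, z2, w, w2, y} : Finset P) := (mV _).2 (by simp)
  have mw : w ∈ ({a, z, z2, w, w2, y} : Finset P) := (mV _).2 (by simp)
  have mw2 : w2 ∈ ({a, z, z2, w, w2, y} : Finset P) := (mV _).2 (by simp)
  have my : y ∈ ({a, z, z2, w, w2, y} : Finset P) := (mV _).2 (by simp)
  have d1 : a ∈ dc z := mem_dc.2 (mem_uc.1 (by rw [S.ua]; simp))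
  have d2 : a ∈ dc z2 := mem_dc.2 (mem_uc.1 (by rw [S.ua]; simp))
  have d3 : z ∈ dc w := mem_dc.2 (mem_uc.1 (by rw [S.uz]; simp))
  have d4 : z ∈ dc w2 := mem_dc.2 (mem_uc.1 (by rw [S.uz]; simp))
  have d5 : z2 ∈ dc y := mem_dc.2 (mem_uc.1 (by rw [S.uz2]; simp))
  have fz : bF {a, z, z2, w, w2, y} (eN a) z := ⟨a, d1, ma, by omega⟩
  have fz2 : bF {a, z, z2, w, w2, y} (eN a) z2 := ⟨a, d2, ma, by omega⟩
  have fw : bF {a, z, z2, w, w2, y} (eN a) w := ⟨z, d3, mz, by omega⟩
  have fw2 : bF {a, z, z2, w, w2, y} (eN a) w2 := ⟨z, d4, mz, by omega⟩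
  have fy : bF {a, z, z2, w, w2, y} (eN a) y := ⟨z2, d5, mz2, by omega⟩
  have nfa : ¬ bF {a, z, z2, w, w2, y} (eN a) a := by
    rintro ⟨b, hb, hbW, hlt⟩
    have := lev_dc H hb
    rcases (mV b).1 hbW with rfl | rfl | rfl | rfl | rfl | rfl <;> omega
  have gz : ¬ bG {a, z, z2, w, w2, y} (eN a) z := by
    rintro ⟨b, hb, hbW, hle⟩
    rw [S.uz, mem_insert, mem_singleton] at hb
    rcases hb with rfl | rfl <;> omega
  have gz2 : ¬ bG {a, z, z2, w, w2, y} (eN a) z2 := by
    rintro ⟨b, hb, hbW, hle⟩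
    rw [S.uz2, mem_singleton] at hb
    subst hb
    omega
  have ga : ¬ bG {a, z, z2, w, w2, y} (eN a) a := by
    rintro ⟨b, hb, hbW, hle⟩
    rw [S.ua, mem_insert, mem_singleton] at hb
    rcases hb with rfl | rfl <;> omega
  refine ⟨⟨?_, ?_, ?_, ?_, ?_, ?_, ?_⟩, ?_, ?_⟩
  · intro v hv
    rcases (mV v).1 hv with rfl | rfl | rfl | rfl | rfl | rfl <;> omega
  · intro v hv
    rcases (mV v).1 hv with rfl | rfl | rfl | rfl | rfl | rfl <;> omega
  · intro v hv hlv s hs
    rw [mem_union, mem_union]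
    rcases (mV v).1 hv with rfl | rfl | rfl | rfl | rfl | rfl
    · omega
    · omega
    · omega
    · exact Or.inl (Or.inl hs)
    · exact Or.inl (Or.inr hs)
    · exact Or.inr hs
  · intro v hv hlv s hs
    rcases (mV v).1 hv with rfl | rfl | rfl | rfl | rfl | rfl
    · rw [S.ua, mem_insert, mem_singleton] at hs
      rcases hs with rfl | rfl <;> assumption
    · rw [S.uz, mem_insert, mem_singleton] at hs
      rcases hs with rfl | rfl <;> assumption
    · rw [S.uz2, mem_singleton] at hs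
      subst hs
      exact my
    · omega
    · omega
    · omega
  · rintro v hv hlv ⟨h1, h2⟩
    rcases (mV v).1 hv with rfl | rfl | rfl | rfl | rfl | rfl
    · exact nfa h1
    · exact gz h2
    · exact gz2 h2
    · omega
    · omega
    · omega
  · intro v hv hlv
    rcases (mV v).1 hv with rfl | rfl | rfl | rfl | rfl | rfl
    · omega
    · omega
    · omega
    · exact ⟨z, d3, mz⟩
    · exact ⟨z, d4, mz⟩
    · exact ⟨z2, d5, mz2⟩
  · intro s hs
    rw [mem_union, mem_union] at hs
    rcases hs with (hs | hs) | hs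
    · have := lev_uc H hs
      exact ⟨by omega, w, mw, mem_dc.2 (mem_uc.1 hs)⟩
    · have := lev_uc H hs
      exact ⟨by omega, w2, mw2, mem_dc.2 (mem_uc.1 hs)⟩
    · have := lev_uc H hs
      exact ⟨by omega, y, my, mem_dc.2 (mem_uc.1 hs)⟩
  · unfold aW
    have h1 : ({a, z, z2, w, w2, y} : Finset P).filter
        (fun x => bF {a, z, z2, w, w2, y} (eN a) x) = {z, z2, w, w2, y} := by
      ext v
      rw [mem_filter, mV]
      simp only [mem_insert, mem_singleton]
      constructor
      · rintro ⟨rfl | h, h2⟩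
        · exact absurd h2 nfa
        · exact h
      · rintro (rfl | rfl | rfl | rfl | rfl)
        · exact ⟨by simp, fz⟩
        · exact ⟨by simp, fz2⟩
        · exact ⟨by simp, fw⟩
        · exact ⟨by simp, fw2⟩
        · exact ⟨by simp, fy⟩
    rw [h1, card_insert_of_notMem, card_insert_of_notMem, card_insert_of_notMem,
      card_pair S.yw2.symm]
    · simp only [mem_insert, mem_singleton, not_or]
      exact ⟨S.ww, S.yw.symm⟩
    · simp only [mem_insert, mem_singleton, not_or]
      exact ⟨hl _ _ (by omega), hl _ _ (by omega), hl _ _ (by omega)⟩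
    · simp only [mem_insert, mem_singleton, not_or]
      exact ⟨S.ne.symm, hl _ _ (by omega), hl _ _ (by omega), hl _ _ (by omega)⟩
  · unfold pW
    rw [card_eq_one]
    refine ⟨a, ?_⟩
    ext v
    rw [mem_filter, mem_singleton]
    constructor
    · rintro ⟨hv, h2, h3⟩
      rcases (mV v).1 hv with rfl | rfl | rfl | rfl | rfl | rfl
      · rfl
      · exact absurd fz h2
      · exact absurd fz2 h2
      · exact absurd fw h2
      · exact absurd fw2 h2
      · exact absurd fy h2
    · rintro rfl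
      exact ⟨ma, nfa, ga⟩

lemma NfS.rem : Rem {a, z, z2, w, w2, y} (uc w ∪ uc w2 ∪ uc y) (eN a) (eN a) Z0 where
  eW := fun _ _ => rfl
  BW := fun _ _ => rfl
  eq := by
    intro v hv
    simp only [mem_insert, mem_singleton, not_or] at hv
    exact (S.vals H).2.2.2.2.2.2 v hv.1 hv.2.1 hv.2.2.1 hv.2.2.2.1 hv.2.2.2.2.1 hv.2.2.2.2.2
  BX := fun _ _ => rfl
  dX := fun _ _ _ _ _ => rfl
  uX := fun _ _ _ _ => rfl
  ch := fun _ _ _ _ _ => rfl

lemma NfS.sum : ∑ v, eN a v = 10 := by
  obtain ⟨l1, l2, l3, l4, l5⟩ := S.lv H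
  obtain ⟨v1, v2, v3, v4, v5, v6, v7⟩ := S.vals H
  have la := S.la
  have hl : ∀ x y : P, lev x ≠ lev y → x ≠ y := fun a b h h' => h (by rw [h'])
  have h6 : ∑ v, eN a v = ∑ v ∈ ({a, z, z2, w, w2, y} : Finset P), eN a v := by
    refine (sum_subset (subset_univ _) ?_).symm
    intro v _ hv
    simp only [mem_insert, mem_singleton, not_or] at hv
    exact v7 v hv.1 hv.2.1 hv.2.2.1 hv.2.2.2.1 hv.2.2.2.2.1 hv.2.2.2.2.2
  have g1 : w ∉ ({w2, y} : Finset P) := by
    simp only [mem_insert, mem_singleton, not_or]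
    exact ⟨S.ww, S.yw.symm⟩
  have g2 : z2 ∉ ({w, w2, y} : Finset P) := by
    simp only [mem_insert, mem_singleton, not_or]
    exact ⟨hl _ _ (by omega), hl _ _ (by omega), hl _ _ (by omega)⟩
  have g3 : z ∉ ({z2, w, w2, y} : Finset P) := by
    simp only [mem_insert, mem_singleton, not_or]
    exact ⟨S.ne.symm, hl _ _ (by omega), hl _ _ (by omega), hl _ _ (by omega)⟩
  have g4 : a ∉ ({z, z2, w, w2, y} : Finset P) := by
    simp only [mem_insert, mem_singleton, not_or]
    exact ⟨hl _ _ (by omega), hl _ _ (by omega), hl _ _ (by omega), hl _ _ (by omega),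
      hl _ _ (by omega)⟩
  rw [h6, sum_insert g4, sum_insert g3, sum_insert g2, sum_insert g1,
    Finset.sum_pair S.yw2.symm, v1, v2, v3, v4, v5, v6]
  rfl

end nf

section main

variable (E : Ev r i psi C) (K : Kls i psi C Q)
include E K

/-- the explicit core is a leftover core -/
lemma NfS.mem {a z z2 w w2 y : P} (S : NfS i C a z z2 w w2 y) :
    eN a ∈ Lft i psi C Q 10 3 ∧ sg i (eN a) = 1 := by
  classical
  have H := E.H
  obtain ⟨BK, na, np⟩ := S.blk H
  have R := S.rem H
  obtain ⟨l1, l2, l3, l4, l5⟩ := S.lv H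
  obtain ⟨v1, v2, v3, v4, v5, v6, v7⟩ := S.vals H
  have la := S.la
  have hl : ∀ x y : P, lev x ≠ lev y → x ≠ y := fun a b h h' => h (by rw [h'])
  have mz : z ∈ C := E.hC.up S.mc (mem_uc.1 (by rw [S.ua]; simp))
  have mz2 : z2 ∈ C := E.hC.up S.mc (mem_uc.1 (by rw [S.ua]; simp))
  have mw : w ∈ C := E.hC.up mz (mem_uc.1 (by rw [S.uz]; simp))
  have mw2 : w2 ∈ C := E.hC.up mz (mem_uc.1 (by rw [S.uz]; simp))
  have my : y ∈ C := E.hC.up mz2 (mem_uc.1 (by rw [S.uz2]; simp))
  have hW : ({a, z, z2, w, w2, y} : Finset P) ⊆ C := by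
    intro v hv
    simp only [mem_insert, mem_singleton] at hv
    rcases hv with rfl | rfl | rfl | rfl | rfl | rfl
    · exact S.mc
    all_goals assumption
  have hkp := R.kp H BK
  rw [S.c5, np, z0_kp H E.hr] at hkp
  have hsg := R.sg H BK
  rw [S.c5, na, z0_sg H E.hr] at hsg
  have hlow : ∀ v, lev v ≤ i → eN a v = 0 := by
    intro v hv
    exact v7 v (hl _ _ (by omega)) (hl _ _ (by omega)) (hl _ _ (by omega)) (hl _ _ (by omega))
      (hl _ _ (by omega)) (hl _ _ (by omega))
  refine ⟨mem_Lft.2 ⟨S.sum H, (R.okc H BK E.hM hW).2 z0_okc, by rw [hkp]; norm_num, ?_, ?_⟩,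
    by rw [hsg]; norm_num⟩
  · rw [eq_empty_iff_forall_notMem]
    intro s hs
    rw [Xg.mem_CC H] at hs
    rcases hs with ⟨w', w2', p, q, T, EE, h⟩ | ⟨w', w2', p, q, T, EE, h⟩
    · have ld : lev s.1 = i + 2 := by
        have := T.ld
        unfold laL at this
        omega
      have hpos := EE.pos
      by_cases h1 : s.1 = z
      · have h2 := (EE.t1 a (by rw [h1]; exact mem_dc.2 (mem_uc.1 (by rw [S.ua]; simp)))).1
        rw [h1] at h2
        omega
      by_cases h2 : s.1 = z2
      · have h3 := T.ud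
        rw [h2, S.uz2] at h3
        have : ({w', w2'} : Finset P).card = 1 := by rw [← h3, card_singleton]
        rw [card_pair T.ne] at this
        omega
      · have := v7 s.1 (hl _ _ (by omega)) h1 h2 (hl _ _ (by omega)) (hl _ _ (by omega))
          (hl _ _ (by omega))
        omega
    · have ld : lev s.1 + 2 = i := by
        have := T.ld
        unfold laU at this
        omega
      have hpos := EE.pos
      have := hlow s.1 (by omega)
      omega
  · rcases K with ⟨-, rfl⟩ | ⟨y', p, w', u, v, v', F, h5, h6, h7, h8, rfl⟩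
    · exact id
    · obtain ⟨j1, j2, j3, j4⟩ := F.lv H
      have lw := F.lw
      rintro (⟨g1, g2, g3⟩ | ⟨g1, g2, g3⟩)
      · have hp : z2 = p := by
          have hy0 : y ∈ uc z2 := by rw [S.uz2]; simp
          exact h7 z2 mz2 (mem_PD'.2 ⟨l2, by rw [S.uz2, card_singleton], y,
            mem_uc.1 hy0, S.cy⟩)
        rw [← hp] at g2
        omega
      · have := hlow w' (by omega)
        omega

/-- the exceptional core is the explicit one -/
lemma nf_eN (he : e ∈ Lft i psi C Q 10 3) (hN : (NFL i e).Nonempty) :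
    ∃ a z z2 w w2 y, NfS i C a z z2 w w2 y ∧ e = eN a := by
  classical
  have H := E.H
  obtain ⟨hsum, O, hkp, hCC, hnQ⟩ := mem_Lft.1 he
  obtain ⟨z', hz'⟩ := hN
  obtain ⟨a, z2, w, w2, y, la, hua, huz, huz2, hne, hww, hyw, hyw2, ea, ez, ez2, ew, ew2, ey,
    hout⟩ := nf_exact E.G E.hT O.adm.l hz' hsum
  have l1 := lev_uc H (show z' ∈ uc a by rw [hua]; simp)
  have l2 := lev_uc H (show z2 ∈ uc a by rw [hua]; simp)
  have l3 := lev_uc H (show w ∈ uc z' by rw [huz]; simp)
  have l4 := lev_uc H (show w2 ∈ uc z' by rw [huz]; simp)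
  have l5 := lev_uc H (show y ∈ uc z2 by rw [huz2]; simp)
  have hl : ∀ x y : P, lev x ≠ lev y → x ≠ y := fun a b h h' => h (by rw [h'])
  have hlow : ∀ v, lev v ≤ i → e v = 0 := by
    intro v hv
    refine hout v ?_
    simp only [mem_insert, mem_singleton, not_or]
    exact ⟨hl _ _ (by omega), hl _ _ (by omega), hl _ _ (by omega), hl _ _ (by omega),
      hl _ _ (by omega), hl _ _ (by omega)⟩
  -- the forced sites
  have hAU : AU i e = ∅ := by
    rw [eq_empty_iff_forall_notMem]
    intro s hs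
    rw [NormD_mem_AU] at hs
    obtain ⟨ls, g, hg, hlt⟩ := hs
    have := lev_uc H (mem_uc.2 hg)
    have := hlow g (by omega)
    omega
  have hAL : AL i e ⊆ uc w ∪ uc w2 ∪ uc y := by
    intro s hs
    rw [NormD_mem_AL] at hs
    obtain ⟨ls, g, hg, hlt⟩ := hs
    have lg := lev_dc H (mem_dc.2 hg)
    have hg1 : g ∈ ({a, z', z2, w, w2, y} : Finset P) := by
      by_contra h
      have := hout g h
      omega
    have hsg : s ∈ uc g := mem_uc.2 hg
    simp only [mem_insert, mem_singleton] at hg1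
    rw [mem_union, mem_union]
    rcases hg1 with rfl | rfl | rfl | rfl | rfl | rfl
    · omega
    · omega
    · omega
    · exact Or.inl (Or.inl hsg)
    · exact Or.inl (Or.inr hsg)
    · exact Or.inr hsg
  have hp : 1 ≤ pL i e := by
    unfold Win.pL
    refine card_pos.2 ⟨a, mem_filter.2 ⟨mem_univ _, by omega, ?_, ?_⟩⟩
    · rintro ⟨g, hg, hlt⟩
      have lg := lev_dc H (mem_dc.2 hg)
      have := hout g (by
        simp only [mem_insert, mem_singleton, not_or]
        exact ⟨hl _ _ (by omega), hl _ _ (by omega), hl _ _ (by omega), hl _ _ (by omega),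
          hl _ _ (by omega), hl _ _ (by omega)⟩)
      omega
    · rintro ⟨g, hg, hle⟩
      have : g ∈ uc a := mem_uc.2 hg
      rw [hua, mem_insert, mem_singleton] at this
      rcases this with rfl | rfl <;> omega
  have h5 : 5 ≤ (uc w ∪ uc w2 ∪ uc y).card := by
    have h1 := card_le_card hAL
    unfold Xg.kp at hkp
    rw [hAU, card_empty] at hkp
    omega
  have c1 := uc_card_le H w
  have c2 := uc_card_le H w2
  have c3 := uc_card_le H y
  have u1 := card_union_le (uc w ∪ uc w2) (uc y)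
  have hnt : ∀ x x' : P, x ∈ uc z' → x' ∈ uc z' → x ≠ x' → (uc x).card = 2 →
      (uc x ∪ uc x').card + 1 ≤ (uc x).card + (uc x').card := by
    intro x x' hx hx' hxx hc
    obtain ⟨s, hs1, hs2⟩ := E.hT z' (by omega) x hx x' hx' hxx hc
    have h1 := card_union_add_card_inter (uc x) (uc x')
    have h2 : 1 ≤ (uc x ∩ uc x').card := card_pos.2 ⟨s, mem_inter.2 ⟨hs1, hs2⟩⟩
    omega
  have mw : w ∈ uc z' := by rw [huz]; simp
  have mw2 : w2 ∈ uc z' := by rw [huz]; simp
  have u2 := card_union_le (uc w) (uc w2)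
  have cw : (uc w).card = 2 := by
    by_contra hc
    by_cases hc2 : (uc w2).card = 2
    · have := hnt w2 w mw2 mw hww.symm hc2
      rw [union_comm] at this
      omega
    · omega
  have h6 := hnt w w2 mw mw2 hww cw
  refine ⟨a, z', z2, w, w2, y, ?_, ?_⟩
  · refine ⟨spt_mem O.spt (by omega), la, hua, huz, huz2, hne, hww, hyw, hyw2, cw, by omega,
      by omega, by omega⟩
  · have S : NfS i C a z' z2 w w2 y := ⟨spt_mem O.spt (by omega), la, hua, huz, huz2, hne, hww,
      hyw, hyw2, cw, by omega, by omega, by omega⟩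
    obtain ⟨v1, v2, v3, v4, v5, v6, v7⟩ := S.vals H
    funext v
    by_cases h1 : v = a
    · rw [h1, v1, ea]
    by_cases h2 : v = z'
    · rw [h2, v2, ez]
    by_cases h3 : v = z2
    · rw [h3, v3, ez2]
    by_cases h4 : v = w
    · rw [h4, v4, ew]
    by_cases h5 : v = w2
    · rw [h5, v5, ew2]
    by_cases h6 : v = y
    · rw [h6, v6, ey]
    rw [v7 v h1 h2 h3 h4 h5 h6]
    exact hout v (by simp only [mem_insert, mem_singleton, not_or]; exact ⟨h1, h2, h3, h4, h5, h6⟩)

/-! ### two blocks -/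

omit E K in
/-- two exact blocks of one core are disjoint -/
lemma Ex.disj (H : Gr P r) {t' : P × P} (X : Ex i e t) (X' : Ex i e t') (hne : t ≠ t') :
    Disjoint (WT t) (WT t') := by
  obtain ⟨w, w2, p, x, q, T, mW, mX⟩ := X.mW
  obtain ⟨w', w2', p', x', q', T', mW', mX'⟩ := X'.mW
  have e1 : e t.1 = 2 := by
    rw [X.lab t.1 (by unfold WT; simp)]
    exact (Tw.b H T).1
  have e2 : e t.2 = 1 := by
    rw [X.lab t.2 (by unfold WT; simp)]
    exact (Tw.b H T).2.1
  have e1' : e t'.1 = 2 := by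
    rw [X'.lab t'.1 (by unfold WT; simp)]
    exact (Tw.b H T').1
  have e2' : e t'.2 = 1 := by
    rw [X'.lab t'.2 (by unfold WT; simp)]
    exact (Tw.b H T').2.1
  have key : t.1 ≠ t'.1 := fun h => hne (X.same X' h)
  have near : ∀ a, a ∈ uc t.1 → a ∉ uc t'.1 := by
    intro a h1 h2
    have h3 : dc a = {t.1, t.2} := by
      rw [T.uz, mem_insert, mem_singleton] at h1
      rcases h1 with rfl | rfl
      · exact T.dw
      · exact T.dw2
    have h4 : dc a = {t'.1, t'.2} := by
      rw [T'.uz, mem_insert, mem_singleton] at h2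
      rcases h2 with rfl | rfl
      · exact T'.dw
      · exact T'.dw2
    have h5 : t.1 ∈ ({t'.1, t'.2} : Finset P) := by
      rw [← h4, h3]
      simp
    rw [mem_insert, mem_singleton] at h5
    rcases h5 with h5 | h5
    · exact key h5
    · rw [h5] at e1
      omega
  have uu : uc t.2 = uc t.1 := by rw [T.uz, T.uz']
  have uu' : uc t'.2 = uc t'.1 := by rw [T'.uz, T'.uz']
  have hw : w ∈ uc t.1 := by rw [T.uz]; simp
  rw [disjoint_left]
  intro v h1 h2
  have l1 := T.lz
  have l2 := (Tw.lv H T).1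
  have l1' := T'.lz
  have l2' := (Tw.lv H T').1
  unfold WT at h1 h2
  rw [mem_insert, mem_insert] at h1 h2
  have tri : ∀ v, (v = t.1 ∨ v = t.2) → uc v = uc t.1 := by
    rintro v (rfl | rfl)
    · rfl
    · exact uu
  have tri' : ∀ v, (v = t'.1 ∨ v = t'.2) → uc v = uc t'.1 := by
    rintro v (rfl | rfl)
    · rfl
    · exact uu'
  rcases h1 with h1 | h1 | h1 <;> rcases h2 with h2 | h2 | h2
  · exact near w hw (by rw [← tri' v (Or.inl h2), tri v (Or.inl h1)]; exact hw)
  · exact near w hw (by rw [← tri' v (Or.inr h2), tri v (Or.inl h1)]; exact hw)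
  · have := lev_uc H h2
    rw [h1] at this
    omega
  · exact near w hw (by rw [← tri' v (Or.inl h2), tri v (Or.inr h1)]; exact hw)
  · exact near w hw (by rw [← tri' v (Or.inr h2), tri v (Or.inr h1)]; exact hw)
  · have := lev_uc H h2
    rw [h1] at this
    omega
  · have := lev_uc H h1
    rw [h2] at this
    omega
  · have := lev_uc H h1
    rw [h2] at this
    omega
  · exact near v h1 h2

/-- the single blocks -/
lemma one_mem (T : IsTw i C t) : addT t (Z0 : P → ℕ) ∈ Lft i psi C Q 5 1 := by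
  refine mem_Lft.2 ⟨?_, (add_okc E.H T E.hM E.hC cpt_zero).2 z0_okc, ?_,
    add_CC E.H T cpt_zero (z0_CC E.H), ?_⟩
  · rw [add_sum E.H T cpt_zero]
    unfold Z0
    simp
  · rw [add_kp E.H T cpt_zero, z0_kp E.H E.hr]
    norm_num
  · rw [K.Q_add E T cpt_zero]
    exact K.Q_zero E

omit K in
/-- disjoint sites are compatible -/
lemma cpt_iff {t' : P × P} (T : IsTw i C t) (T' : IsTw i C t') :
    Cpt t (addT t' (Z0 : P → ℕ)) ↔ Disjoint (XT t) (XT t') := by
  have H := E.H
  have X := add_ex H T (cpt_zero (t := t))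
  have X' := add_ex H T' (cpt_zero (t := t'))
  have val : ∀ v, addT t' (Z0 : P → ℕ) v = 0 ↔ v ∉ WT t' := by
    intro v
    constructor
    · intro h hv
      have := (X'.levW H hv).2.1
      omega
    · intro h
      rw [add_out H T' h]
      rfl
  constructor
  · intro h
    rw [disjoint_left]
    intro x hx hx'
    unfold XT at hx'
    obtain ⟨a, ha, hxa⟩ := mem_biUnion.1 hx'
    have h1 := (h.X x hx).2.1 a (mem_dc.2 (mem_uc.1 hxa))
    rw [val] at h1
    apply h1
    unfold WT
    exact mem_insert_of_mem (mem_insert_of_mem ha)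
  · intro hd
    -- an element of both blocks gives a common site
    have hsite : ∀ s : P × P, IsTw i C s → ∀ v ∈ WT s, ∃ a ∈ uc s.1, a = v ∨ a ∈ uc v := by
      intro s Ts v hv
      obtain ⟨w, w2, p, x, q, TT⟩ := Ts.tw
      unfold WT at hv
      rw [mem_insert, mem_insert] at hv
      have hw : w ∈ uc s.1 := by rw [TT.uz]; simp
      rcases hv with rfl | rfl | hv
      · exact ⟨w, hw, Or.inr hw⟩
      · exact ⟨w, hw, Or.inr (by rw [TT.uz']; simp)⟩
      · exact ⟨v, hv, Or.inl rfl⟩
    have hnear : ∀ a, a ∈ WT t → a ∈ WT t' → lev a = i + 1 → False := by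
      intro a h1 h2 hl
      have h3 := ((X.levW H h1).2.2.2 hl).1
      have h4 := ((X'.levW H h2).2.2.2 hl).1
      obtain ⟨s, hs⟩ := uc_nonempty H (x := a) (by omega)
      have h5 : s ∈ XT t := by
        unfold XT
        exact mem_biUnion.2 ⟨a, h3, hs⟩
      have h6 : s ∈ XT t' := by
        unfold XT
        exact mem_biUnion.2 ⟨a, h4, hs⟩
      exact disjoint_left.1 hd h5 h6
    have hboth : ∀ v, v ∈ WT t → v ∈ WT t' → False := by
      intro v h1 h2
      by_cases hl : lev v = i + 1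
      · exact hnear v h1 h2 hl
      · have hl2 : lev v = i + 2 := by
          rcases (X.levW H h1).1 with h | h
          · exact absurd h hl
          · exact h
        obtain ⟨a, ha⟩ := uc_nonempty H (x := v) (by omega)
        have la := lev_uc H ha
        have h3 : a ∈ WT t := by
          rcases X.ucW H h1 ha with h | ⟨h, -⟩
          · exact h
          · omega
        have h4 : a ∈ WT t' := by
          rcases X'.ucW H h2 ha with h | ⟨h, -⟩
          · exact h
          · omega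
        exact hnear a h3 h4 (by omega)
    refine ⟨fun v hv => ⟨(val v).2 (fun h => hboth v hv h), fun z hz => (val z).2 (fun h => ?_)⟩,
      fun x hx => ⟨(val x).2 (fun h => ?_), fun v hv => (val v).2 (fun h => ?_),
        fun u hu => (val u).2 (fun h => ?_)⟩⟩
    · rcases X'.ucW H h (mem_uc.2 (mem_dc.1 hz)) with h1 | ⟨h1, h2⟩
      · exact hboth v hv h1
      · have l1 := (T'.Xo H h2).2
        have l2 := (X.levW H hv).1
        omega
    · have l1 := (T.Xo H hx).2
      have l2 := (X'.levW H h).1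
      omega
    · have l1 := (T.Xo H hx).2
      have lv := lev_dc H hv
      rcases X'.ucW H h (mem_uc.2 (mem_dc.1 hv)) with h1 | ⟨-, h1⟩
      · have l2 := (X'.levW H h1).1
        omega
      · exact disjoint_left.1 hd hx h1
    · have l1 := (T.Xo H hx).2
      have lu := lev_uc H hu
      have l2 := (X'.levW H h).1
      omega

open Classical in
/-- pairs of twin blocks with disjoint sites -/
noncomputable def PrT (i : ℕ) (C : Finset P) : Finset (Finset (P × P)) :=
  ((TWC i C).powersetCard 2).filter (fun s => ∀ t ∈ s, ∀ t' ∈ s, t ≠ t' →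
    Disjoint (XT t) (XT t'))

open Classical in
/-- the inner joins over a double element and a pendant with five sites -/
noncomputable def NfC (i : ℕ) (C : Finset P) : Finset P :=
  univ.filter (fun a => ∃ z z2 w w2 y, NfS i C a z z2 w w2 y)

omit E K in
lemma mem_NfC {a : P} : a ∈ NfC i C ↔ ∃ z z2 w w2 y, NfS i C a z z2 w w2 y := by
  classical
  unfold NfC
  rw [mem_filter]
  exact ⟨fun h => h.2, fun h => ⟨mem_univ _, h⟩⟩

omit E K in
lemma mem_PrT {s : Finset (P × P)} : s ∈ PrT i C ↔ (∃ t t', t ≠ t' ∧ s = {t, t'} ∧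
    IsTw i C t ∧ IsTw i C t' ∧ Disjoint (XT t) (XT t')) := by
  classical
  unfold PrT
  rw [mem_filter, mem_powersetCard]
  constructor
  · rintro ⟨⟨h1, h2⟩, h3⟩
    obtain ⟨t, t', hne, rfl⟩ := card_eq_two.1 h2
    have m1 : t ∈ ({t, t'} : Finset (P × P)) := by simp
    have m2 : t' ∈ ({t, t'} : Finset (P × P)) := by simp
    exact ⟨t, t', hne, rfl, mem_TWC.1 (h1 m1), mem_TWC.1 (h1 m2), h3 t m1 t' m2 hne⟩
  · rintro ⟨t, t', hne, rfl, T, T', hd⟩
    refine ⟨⟨?_, card_pair hne⟩, ?_⟩
    · intro x hx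
      rw [mem_insert, mem_singleton] at hx
      rcases hx with rfl | rfl
      · exact mem_TWC.2 T
      · exact mem_TWC.2 T'
    · intro a ha b hb hab
      rw [mem_insert, mem_singleton] at ha hb
      rcases ha with rfl | rfl <;> rcases hb with rfl | rfl
      · exact absurd rfl hab
      · exact hd
      · exact hd.symm
      · exact absurd rfl hab

/-- THE LEFTOVER SUM (10,3) -/
theorem sum103 : ∑ e ∈ Lft i psi C Q 10 3, sg i e =
    ((PrT i C).card : ℤ) + ((NfC i C).card : ℤ) := by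
  classical
  have H := E.H
  have hsplit : ∑ e ∈ Lft i psi C Q 10 3, sg i e =
      ∑ e ∈ (Lft i psi C Q 10 3).filter (fun e => ∃ a ∈ NfC i C, e = eN a), sg i e +
      ∑ e ∈ (Lft i psi C Q 10 3).filter (fun e => ¬ ∃ a ∈ NfC i C, e = eN a), sg i e :=
    (sum_filter_add_sum_filter_not _ _ _).symm
  have h1 : ∑ e ∈ (Lft i psi C Q 10 3).filter (fun e => ∃ a ∈ NfC i C, e = eN a), sg i e =
      ∑ _a ∈ NfC i C, (1 : ℤ) := by
    symm
    refine sum_bij (fun a _ => eN a) ?_ ?_ ?_ ?_
    · intro a ha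
      obtain ⟨z, z2, w, w2, y, S⟩ := mem_NfC.1 ha
      exact mem_filter.2 ⟨(S.mem E K).1, a, ha, rfl⟩
    · intro a ha b hb heq
      obtain ⟨z, z2, w, w2, y, S⟩ := mem_NfC.1 ha
      have heq' : eN a = eN b := heq
      have h2 := (S.vals H).1
      rw [heq'] at h2
      by_contra hne
      unfold eN at h2
      rw [if_neg hne] at h2
      split_ifs at h2 <;> omega
    · intro e he
      rw [mem_filter] at he
      obtain ⟨-, a, ha, rfl⟩ := he
      exact ⟨a, ha, rfl⟩
    · intro a ha
      obtain ⟨z, z2, w, w2, y, S⟩ := mem_NfC.1 ha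
      exact (S.mem E K).2.symm
  have h2 : ∑ e ∈ (Lft i psi C Q 10 3).filter (fun e => ¬ ∃ a ∈ NfC i C, e = eN a), sg i e =
      ∑ _s ∈ PrT i C, (1 : ℤ) := by
    symm
    have pair : ∀ t t' : P × P, t ≠ t' →
        (fun v => ∑ x ∈ ({t, t'} : Finset (P × P)), bT x v) = addT t (addT t' (Z0 : P → ℕ)) := by
      intro t t' hne
      funext v
      rw [Finset.sum_pair hne]
      unfold addT Z0
      omega
    have facts : ∀ t t' : P × P, t ≠ t' → IsTw i C t → IsTw i C t' → Disjoint (XT t) (XT t') →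
        Cpt t (addT t' (Z0 : P → ℕ)) ∧
        addT t (addT t' (Z0 : P → ℕ)) ∈ Lft i psi C Q 10 3 ∧
        sg i (addT t (addT t' (Z0 : P → ℕ))) = 1 ∧
        Ex i (addT t (addT t' (Z0 : P → ℕ))) t ∧
        Ex i (addT t (addT t' (Z0 : P → ℕ))) t' := by
      intro t t' hne T T' hd
      have hc := (cpt_iff E T T').2 hd
      have hc' := (cpt_iff E T' T).2 hd.symm
      have hswap : addT t (addT t' (Z0 : P → ℕ)) = addT t' (addT t Z0) := by
        funext v
        unfold addT Z0
        omega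
      refine ⟨hc, add_mem E K T hc (one_mem E K T'), ?_, add_ex H T hc, ?_⟩
      · rw [add_sg H T hc, add_sg H T' cpt_zero, z0_sg H E.hr]
        norm_num
      · rw [hswap]
        exact add_ex H T' hc'
    refine sum_bij (fun s _ => fun v => ∑ x ∈ s, bT x v) ?_ ?_ ?_ ?_
    · intro s hs
      obtain ⟨t, t', hne, rfl, T, T', hd⟩ := mem_PrT.1 hs
      obtain ⟨hc, hm, -, X, X'⟩ := facts t t' hne T T' hd
      show (fun v => ∑ x ∈ ({t, t'} : Finset (P × P)), bT x v) ∈ _
      rw [pair t t' hne]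
      refine mem_filter.2 ⟨hm, ?_⟩
      rintro ⟨a, ha, heq⟩
      obtain ⟨z, z2, w, w2, y, S⟩ := mem_NfC.1 ha
      have h3 := (S.vals H).1
      have la := S.la
      have n1 : a ∉ WT t := fun h => by have := (X.levW H h).1; omega
      have n2 : a ∉ WT t' := fun h => by have := (X'.levW H h).1; omega
      rw [← heq, add_out H T n1, add_out H T' n2] at h3
      exact absurd h3 (by unfold Z0; omega)
    · intro s hs s' hs' heq
      obtain ⟨t, t', hne, rfl, T, T', hd⟩ := mem_PrT.1 hs
      obtain ⟨a, a', hne', rfl, A, A', hd'⟩ := mem_PrT.1 hs'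
      have heq' : (fun v => ∑ x ∈ ({t, t'} : Finset (P × P)), bT x v) =
          (fun v => ∑ x ∈ ({a, a'} : Finset (P × P)), bT x v) := heq
      rw [pair t t' hne, pair a a' hne'] at heq'
      obtain ⟨hc, hm, -, X, X'⟩ := facts t t' hne T T' hd
      obtain ⟨hc2, hm2, -, Y, Y'⟩ := facts a a' hne' A A' hd'
      rw [← heq'] at Y Y'
      have hcard := (lft_ineq E K hm).2
      have key : ∀ b, Ex i (addT t (addT t' (Z0 : P → ℕ))) b → b = t ∨ b = t' := by
        intro b hb
        by_contra hno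
        rw [not_or] at hno
        have k1 := X.twl H
        have k2 := X'.twl H
        have k3 := hb.twl H
        have n1 : t.1 ≠ t'.1 := fun h => hne (X.same X' h)
        have n2 : b.1 ≠ t.1 := fun h => hno.1 (hb.same X h)
        have n3 : b.1 ≠ t'.1 := fun h => hno.2 (hb.same X' h)
        have h4 : ({b.1, t.1, t'.1} : Finset P) ⊆ TWL i (addT t (addT t' (Z0 : P → ℕ))) := by
          intro v hv
          simp only [mem_insert, mem_singleton] at hv
          rcases hv with rfl | rfl | rfl <;> assumption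
        have h5 := card_le_card h4
        have h6 : b.1 ∉ ({t.1, t'.1} : Finset P) := by
          simp only [mem_insert, mem_singleton, not_or]
          exact ⟨n2, n3⟩
        rw [card_insert_of_notMem h6, card_pair n1] at h5
        omega
      have k1 := key a Y
      have k2 := key a' Y'
      rcases k1 with rfl | rfl <;> rcases k2 with rfl | rfl
      · exact absurd rfl hne'
      · rfl
      · rw [pair_comm]
      · exact absurd rfl hne'
    · intro e he
      rw [mem_filter] at he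
      obtain ⟨he, hno⟩ := he
      obtain ⟨hsum, O, hkp, hCC, hnQ⟩ := mem_Lft.1 he
      have hN : NFL i e = ∅ := by
        by_contra hN
        obtain ⟨a, z, z2, w, w2, y, S, heq⟩ := nf_eN E K he (nonempty_iff_ne_empty.2 hN)
        exact hno ⟨a, mem_NfC.2 ⟨z, z2, w, w2, y, S⟩, heq⟩
      obtain ⟨g1, g2⟩ := lft_ineq E K he
      rw [hN, card_empty] at g1
      have g3 := (TWx_card (i := i) (e := e)).1
      have g4 : (TWLx i e).card = 2 := by omega
      obtain ⟨z1, z2, hz12, hz⟩ := card_eq_two.1 g4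
      obtain ⟨z1', X1⟩ := twx_ex E O (show z1 ∈ TWLx i e by rw [hz]; simp)
      obtain ⟨z2', X2⟩ := twx_ex E O (show z2 ∈ TWLx i e by rw [hz]; simp)
      have hne : (z1, z1') ≠ (z2, z2') := fun h => hz12 (congrArg Prod.fst h)
      have hdW := X1.disj H X2 hne
      have hout : ∀ v, v ∉ WT (z1, z1') → v ∉ WT (z2, z2') → e v = 0 := by
        intro v hv1 hv2
        have h3 : v ∉ WT (z1, z1') ∪ WT (z2, z2') := by
          rw [mem_union, not_or]
          exact ⟨hv1, hv2⟩
        have h4 : ∑ a ∈ insert v (WT (z1, z1') ∪ WT (z2, z2')), e a ≤ ∑ a, e a :=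
          sum_le_sum_of_subset (subset_univ _)
        rw [sum_insert h3, sum_union hdW, X1.sumW H, X2.sumW H, hsum] at h4
        omega
      have hrk : ∀ s : P × P, Ex i e s → IsTw i C s := by
        intro s Xs
        refine Xs.isTw H O.spt (Xs.rk H ?_ hCC)
        intro a ha
        obtain ⟨w, w2, p, x, q, T⟩ := Xs.tw
        have l1 := lev_dc H ha
        have l2 := T.lz
        rw [hout a (fun h => by have := (X1.levW H h).1; omega)
          (fun h => by have := (X2.levW H h).1; omega)]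
        omega
      have T1 := hrk _ X1
      have T2 := hrk _ X2
      have hd : Disjoint (XT (z1, z1')) (XT (z2, z2')) := by
        rw [disjoint_left]
        intro x hx1 hx2
        unfold XT at hx2
        obtain ⟨a, ha, hxa⟩ := mem_biUnion.1 hx2
        have haW : a ∈ WT (z2, z2') := by
          unfold WT
          exact mem_insert_of_mem (mem_insert_of_mem ha)
        have h3 := X1.dX x hx1 a (mem_dc.2 (mem_uc.1 hxa)) (disjoint_right.1 hdW haW)
        have h4 := (X2.levW H haW).2.1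
        omega
      have heq : e = addT (z1, z1') (addT (z2, z2') (Z0 : P → ℕ)) := by
        funext v
        by_cases hv1 : v ∈ WT (z1, z1')
        · unfold addT
          rw [T2.bo H (disjoint_left.1 hdW hv1), X1.lab v hv1]
          unfold Z0
          omega
        · by_cases hv2 : v ∈ WT (z2, z2')
          · unfold addT
            rw [T1.bo H hv1, X2.lab v hv2]
            unfold Z0
            omega
          · unfold addT
            rw [T1.bo H hv1, T2.bo H hv2, hout v hv1 hv2]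
            rfl
      refine ⟨{(z1, z1'), (z2, z2')}, mem_PrT.2 ⟨_, _, hne, rfl, T1, T2, hd⟩, ?_⟩
      show (fun v => ∑ x ∈ ({(z1, z1'), (z2, z2')} : Finset (P × P)), bT x v) = e
      rw [pair _ _ hne]
      exact heq.symm
    · intro s hs
      obtain ⟨t, t', hne, rfl, T, T', hd⟩ := mem_PrT.1 hs
      show 1 = sg i (fun v => ∑ x ∈ ({t, t'} : Finset (P × P)), bT x v)
      rw [pair t t' hne]
      exact (facts t t' hne T T' hd).2.2.1.symm
  rw [hsplit, h1, h2, sum_const, sum_const, nsmul_eq_mul, nsmul_eq_mul]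
  ring

end main

end Pool.Agent.GaussPoset.Win.Rd

end
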