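import Mathlib
import Pool.Agent.W_448zz_h61.Ns
import Pool.Agent.W_448zz_h61.M149
import Pool.Agent.W_448zz_h61.M150
import Pool.Agent.W_448zz_h61.M158
import Pool.Agent.W_448zz_h61.M159

/-! From `Pool.Agent.W_448rd_h10.RdU` -/

section

/-!
MP_448cb3_co, G2, window `j - 1`: the leftover cores of the energy three, part 1: the charged
elements.  helper10.
-/

namespace Pool.Agent.GaussPoset.Win.Rd

set_option linter.unusedSectionVars false

open Finset I2 K2
open Pool.Agent.GaussPoset.Win.H2 (SdT NoT low_T up_T sum_all)
open Pool.Agent.GaussPoset.Win.Xg (FlS Zr LoP UpP FP rm rm_le rm_of rm_y rm_p Okc Adm kp Lft mem_Lft)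
open Pool.Agent.GaussPoset.Win.SO (con on Num num_Chs num_ZL num_ZU num_FL num_FU Chs_cases
  self_con mem_con con_sub con_cls con_step sit_con sit_sub sit_ne FL_data FU_data con_FL con_FU
  con_two_low con_two_upp BL BU nL nU mem_BL mem_BU)
open Pool.Agent.GaussPoset.Win.Pn (on_one on_zero on_pos core_on adm_on kp_on cc_on)

universe u

variable {P : Type u} [Fintype P] [PartialOrder P] [DecidableEq P] {r i : ℕ} {e B : P → ℕ}
variable {psi : P → P} {C : Finset P} {Q : (P → ℕ) → Prop} {t : P × P}

lemma Ev.env (E : Ev r i psi C) : Pn.Env r i psi C := ⟨E.H, E.hi, E.hr, E.hM, E.hC⟩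

lemma Ev.fr (E : Ev r i psi C) : Pn.Fr r i psi C := ⟨E.env, E.G, E.hT, E.hQ⟩

lemma sg_on (E : Ev r i psi C) {s : Finset P} (hs : SO.Cls i s) :
    sg i (on s) = (-1) ^ ((BL i s).card + (nU i s).card) := by
  have := Pn.sgn_on E.env hs
  unfold Pn.sgn at this
  unfold sg
  exact this

/-- elements of the cone of a charged element -/
lemma con_side (H : Gr P r) {z v : P} (hz : z ∈ Chs i C) (hv : v ∈ con i z) :
    (i < lev z ∧ i < lev v) ∨ (lev z < i ∧ lev v < i) := by
  have N := num_Chs H hz
  rcases Nat.lt_or_gt_of_ne N.ns with h | h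
  · exact Or.inr ⟨h, (SO.con_upp H h hv).1⟩
  · exact Or.inl ⟨h, (SO.con_low H h hv).1⟩

/-- a pendant over a double element in the cone of a charged element -/
lemma con_pen (H : Gr P r) {z p y : P} (hz : z ∈ Chs i C) (hp : p ∈ con i z)
    (lp : lev p = i + 2) (up : uc p = {y}) (cy : (uc y).card = 2) (ly : lev y = i + 1) :
    uc z = {p} ∧ z ∈ dc p ∧ z ≠ p ∧ z ≠ y ∧ lev z = i + 3 := by
  rcases Chs_cases H hz with ⟨h, l⟩ | ⟨h, l⟩ | ⟨h, l⟩ | ⟨h, l⟩
  · exfalso
    have h2 := (mem_ZL.1 h).2.2
    have h3 := card_uc_of_up H l h2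
    rw [con_two_low H l, mem_insert] at hp
    rcases hp with hp | hp
    · rw [← hp, up, card_singleton] at h3
      omega
    · have := lev_uc H hp
      omega
  · exfalso
    have := (con_side H hz hp)
    omega
  · obtain ⟨p1, y1, a1, a2, a3, a4, a5, a6⟩ := FL_data H h
    rw [con_FL H l a1 a2, mem_insert, mem_insert, mem_singleton] at hp
    have h1 : p = p1 := by
      rcases hp with hp | hp | hp
      · rw [hp] at lp
        omega
      · exact hp
      · rw [hp] at lp
        omega
    rw [h1]
    refine ⟨a1, ?_, ?_, ?_, l⟩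
    · rw [mem_dc, ← mem_uc, a1]
      simp
    · intro h2
      rw [h2] at l
      omega
    · intro h2
      rw [h2] at l
      omega
  · exfalso
    have := (con_side H hz hp)
    omega

lemma con_penU (H : Gr P r) {z p y : P} (hz : z ∈ Chs i C) (hp : p ∈ con i z)
    (lp : lev p + 2 = i) (up : dc p = {y}) (cy : (dc y).card = 2) (ly : lev y + 1 = i) :
    dc z = {p} ∧ z ∈ uc p ∧ z ≠ p ∧ z ≠ y ∧ lev z + 3 = i := by
  rcases Chs_cases H hz with ⟨h, l⟩ | ⟨h, l⟩ | ⟨h, l⟩ | ⟨h, l⟩
  · exfalso
    have := (con_side H hz hp)
    omega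
  · exfalso
    have h2 := (mem_ZU.1 h).2.2
    have h3 := card_dc_of_dn H l h2
    rw [con_two_upp H l, mem_insert] at hp
    rcases hp with hp | hp
    · rw [← hp, up, card_singleton] at h3
      omega
    · have := lev_dc H hp
      omega
  · exfalso
    have := (con_side H hz hp)
    omega
  · obtain ⟨p1, y1, a1, a2, a3, a4, a5, a6⟩ := FU_data H h
    rw [con_FU H l a1 a2, mem_insert, mem_insert, mem_singleton] at hp
    have h1 : p = p1 := by
      rcases hp with hp | hp | hp
      · rw [hp] at lp
        omega
      · exact hp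
      · rw [hp] at lp
        omega
    rw [h1]
    refine ⟨a1, ?_, ?_, ?_, l⟩
    · rw [mem_uc, ← mem_dc, a1]
      simp
    · intro h2
      rw [h2] at l
      omega
    · intro h2
      rw [h2] at l
      omega

/-- the cone determines the charged element -/
lemma con_inj (H : Gr P r) {z z' : P} (hz : z ∈ Chs i C) (hz' : z' ∈ Chs i C)
    (h : (on (con i z) : P → ℕ) = on (con i z')) : z = z' := by
  have N := num_Chs H hz
  have N' := num_Chs H hz'
  have h1 : z ∈ con i z' := by
    rw [← on_pos, ← h, on_pos]
    exact self_con N.ns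
  have h2 : z' ∈ con i z := by
    rw [← on_pos, h, on_pos]
    exact self_con N'.ns
  rcases mem_con.1 h1 with h3 | h3
  · rcases mem_con.1 h2 with h4 | h4
    · exact le_antisymm h4.2 h3.2
    · have := con_side H hz' h1
      omega
  · rcases mem_con.1 h2 with h4 | h4
    · have := con_side H hz' h1
      omega
    · exact le_antisymm h3.2 h4.2

lemma on_sum3 {s : Finset P} : ∑ x, (on s : P → ℕ) x = s.card := by
  classical
  unfold SO.on
  rw [sum_ite_mem, univ_inter, sum_const, smul_eq_mul, mul_one]

section mem

variable (E : Ev r i psi C) (K : Kls i psi C Q)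
include E K

/-- a charged element gives a leftover core -/
lemma chs_mem {z : P} (hz : z ∈ Chs i C) : on (con i z) ∈ Lft i psi C Q 3 0 ∧
    sg i (on (con i z)) = chg i C z := by
  classical
  have H := E.H
  have N := num_Chs H hz
  have hcls := con_cls H N.ns
  have hdj : Disjoint (BL i (con i z)) (BU i (con i z)) := by
    rcases Nat.lt_or_gt_of_ne N.ns with h | h
    · rw [SO.BL_con_upp H h]
      exact disjoint_empty_left _
    · rw [SO.BU_con_low H h]
      exact disjoint_empty_right _
  have hlv : lev z = i + 2 ∨ lev z + 2 = i ∨ lev z = i + 3 ∨ lev z + 3 = i := by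
    rcases Chs_cases H hz with ⟨-, l⟩ | ⟨-, l⟩ | ⟨-, l⟩ | ⟨-, l⟩ <;> omega
  refine ⟨mem_Lft.2 ⟨?_, ⟨?_, ?_, adm_on E.env hcls hdj⟩, ?_, cc_on E.env hcls, ?_⟩, ?_⟩
  · rw [on_sum3, N.three]
  · exact SO.on_spt (con_sub H E.hC N.mC N.ns)
  · apply core_on
    intro y hy
    have hne : lev y = i + 1 ∨ lev y + 1 = i → y ≠ z := by
      rintro h rfl
      omega
    refine ⟨fun h => ?_, fun h => ?_⟩
    · obtain ⟨x, hx, h1 | h1⟩ := con_step H N.ns hy (hne (Or.inl h))
      · exact ⟨x, hx, h1.2⟩
      · omega
    · obtain ⟨x, hx, h1 | h1⟩ := con_step H N.ns hy (hne (Or.inr h))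
      · omega
      · exact ⟨x, hx, h1.2⟩
  · rw [kp_on E.env hcls]
    have := N.num
    push_cast
    omega
  · intro hQ
    rcases K with ⟨-, h⟩ | ⟨y, p, w, u, v, v', F, h5, h6, h7, h8, h9⟩
    · rw [h] at hQ
      exact hQ
    · rw [h9] at hQ
      have hlv := F.lv H
      have c1 : (uc y).card = 2 := by rw [F.uy, card_pair F.ne]
      have c2 : (dc w).card = 2 := by rw [F.dw, card_pair F.ne]
      rcases hQ with ⟨q1, q2, q3⟩ | ⟨q1, q2, q3⟩
      · have hp : p ∈ con i z := on_pos.1 (by omega)
        obtain ⟨a1, a2, a3, a4, -⟩ := con_pen H hz hp (by omega) F.up c1 F.ly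
        have := q3.dp z a2
        rw [rm_of a4 a3, on_one (self_con N.ns)] at this
        omega
      · have hp : u ∈ con i z := on_pos.1 (by omega)
        obtain ⟨a1, a2, a3, a4, -⟩ := con_penU H hz hp (by omega) F.du c2 F.lw
        have := q3.uu z a2
        rw [rm_of a4 a3, on_one (self_con N.ns)] at this
        omega
  · rw [sg_on E hcls, N.sgn]

end mem

section cpt

/-- compatibility of a cone -/
lemma cpt_con (H : Gr P r) (hr : i + 1 ≤ r) (T : IsTw i C t) {z : P} (hz : lev z ≠ i) :
    Cpt t (on (con i z)) ↔ Disjoint (sit i z) (XT t) := by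
  classical
  have hcls := con_cls H hz
  obtain ⟨w, w2, p, x, q, T'⟩ := T.tw
  have hlv := T'.lv H
  have hW : WT t = {t.1, t.2, w, w2} := T'.W
  have hX : XT t = {p, x, q} := T'.X
  have lX : ∀ s ∈ XT t, lev s = i := by
    intro s hs
    rw [hX, mem_insert, mem_insert, mem_singleton] at hs
    rcases hs with rfl | rfl | rfl <;> omega
  have lW : ∀ s ∈ WT t, lev s = i + 1 ∨ lev s = i + 2 := by
    intro s hs
    rw [hW, mem_insert, mem_insert, mem_insert, mem_singleton] at hs
    have := T'.lz
    rcases hs with rfl | rfl | rfl | rfl <;> omega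
  have sW : ∀ s ∈ WT t, sit i s ⊆ XT t := by
    intro s hs a ha
    have l1 := lW s hs
    rw [sit_low H (by omega)] at ha
    rw [hX]
    have hsub : ∀ s', s' = w ∨ s' = w2 → ∀ a, s' ≤ a → lev a = i → a ∈ ({p, x, q} : Finset P) := by
      intro s' hs' a ha la
      have l2 : lev s' = i + 1 := by rcases hs' with rfl | rfl <;> omega
      have hlt : s' < a := by
        apply lt_of_le_of_ne ha
        rintro rfl
        omega
      obtain ⟨b, hb1, hb2⟩ := exists_covBy_le_of_lt hlt
      have lb := lev_uc H (mem_uc.2 hb1)
      have hab : a = b := by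
        by_contra hne
        have := lev_strict H (lt_of_le_of_ne hb2 (Ne.symm hne))
        omega
      rw [hab]
      rcases hs' with rfl | rfl
      · have := mem_uc.2 hb1
        rw [T'.uw, mem_insert, mem_singleton] at this
        rcases this with rfl | rfl <;> simp
      · have := mem_uc.2 hb1
        rw [T'.uw2, mem_insert, mem_singleton] at this
        rcases this with rfl | rfl <;> simp
    have ha2 : s ≤ a ∧ lev a = i := ⟨(mem_sts.1 ha).2.le, (mem_sts.1 ha).1⟩
    rw [hW, mem_insert, mem_insert, mem_insert, mem_singleton] at hs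
    have key : ∀ s', s' = t.1 ∨ s' = t.2 → s' ≤ a → a ∈ ({p, x, q} : Finset P) := by
      intro s' hs' hle
      have l2 : lev s' = i + 2 := by
        have := T'.lz
        rcases hs' with rfl | rfl <;> omega
      have hlt : s' < a := by
        apply lt_of_le_of_ne hle
        rintro rfl
        omega
      obtain ⟨b, hb1, hb2⟩ := exists_covBy_le_of_lt hlt
      have h1 := mem_uc.2 hb1
      have h2 : b = w ∨ b = w2 := by
        rcases hs' with rfl | rfl
        · rw [T'.uz, mem_insert, mem_singleton] at h1
          exact h1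
        · rw [T'.uz', mem_insert, mem_singleton] at h1
          exact h1
      exact hsub b h2 a hb2 ha2.2
    rcases hs with h | h | h | h
    · exact key s (Or.inl h) ha2.1
    · exact key s (Or.inr h) ha2.1
    · exact hsub s (Or.inl h) a ha2.1 ha2.2
    · exact hsub s (Or.inr h) a ha2.1 ha2.2
  have hsc := sit_con H hz
  constructor
  · intro h
    rw [disjoint_left]
    intro s hs hs'
    rw [← hsc, mem_union, mem_BL, mem_BU] at hs
    obtain ⟨h1, h2, h3⟩ := h.X s hs'
    rcases hs with ⟨-, a, ha, hb⟩ | ⟨-, a, ha, hb⟩
    · have := h2 a (mem_dc.2 hb)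
      rw [on_one ha] at this
      omega
    · have := h3 a (mem_uc.2 hb)
      rw [on_one ha] at this
      omega
  · intro h
    have key : ∀ s ∈ WT t, s ∉ con i z := by
      intro s hs hs'
      obtain ⟨a, ha⟩ := sit_ne H (by omega : i ≤ r) (y := s) (by have := lW s hs; omega)
      exact disjoint_left.1 h (sit_sub H hz hs' ha) (sW s hs ha)
    refine ⟨fun v hv => ⟨on_zero (key v hv), fun c hc => on_zero ?_⟩,
      fun s hs => ⟨on_zero ?_, fun a ha => on_zero ?_, fun a ha => on_zero ?_⟩⟩
    · intro hc'
      have l1 := lW v hv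
      have l2 := lev_dc H hc
      exact key v hv (hcls.lo c hc' (by omega) v (mem_dc.1 hc))
    · intro hs'
      exact hcls.ns s hs' (lX s hs)
    · intro ha'
      refine (disjoint_left.1 h : ∀ ⦃a⦄, a ∈ sit i z → a ∉ XT t) (a := s) ?_ hs
      rw [← hsc, mem_union, mem_BL]
      exact Or.inl ⟨lX s hs, a, ha', mem_dc.1 ha⟩
    · intro ha'
      refine (disjoint_left.1 h : ∀ ⦃a⦄, a ∈ sit i z → a ∉ XT t) (a := s) ?_ hs
      rw [← hsc, mem_union, mem_BU]
      exact Or.inr ⟨lX s hs, a, ha', mem_uc.1 ha⟩

end cpt

end Pool.Agent.GaussPoset.Win.Rd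

end

/-! From `Pool.Agent.W_448rd_h10.RdV` -/

section

/-!
MP_448cb3_co, G2, window `j - 1`: the leftover cores of the energy three, part 2: the cores over
the pendant.  helper10.
-/

namespace Pool.Agent.GaussPoset.Win.Rd

set_option linter.unusedSectionVars false

open Finset I2 K2
open Pool.Agent.GaussPoset.Win.H2 (SdT NoT low_T up_T sum_all)
open Pool.Agent.GaussPoset.Win.Xg (FlS Zr LoP UpP FP rm rm_le rm_of rm_y rm_p Okc Adm kp Lft mem_Lft)
open Pool.Agent.GaussPoset.Win.SO (con on Num num_Chs num_ZL num_ZU num_FL num_FU Chs_cases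
  self_con mem_con con_sub con_cls con_step sit_con sit_sub sit_ne FL_data FU_data con_FL con_FU
  con_two_low con_two_upp BL BU nL nU mem_BL mem_BU)
open Pool.Agent.GaussPoset.Win.Pn (on_one on_zero on_pos core_on adm_on kp_on cc_on cc_none)

universe u

variable {P : Type u} [Fintype P] [PartialOrder P] [DecidableEq P] {r i : ℕ} {e B : P → ℕ}
variable {psi : P → P} {C : Finset P} {Q : (P → ℕ) → Prop} {t : P × P} {y p w u v v' a : P}

/-- label one on `y`, `p`, and one more at `a` -/
def pa (y p a : P) : P → ℕ := fun z => (if z = y ∨ z = p then 1 else 0) + if z = a then 1 else 0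

lemma pa_off {z : P} (h1 : z ≠ y) (h2 : z ≠ p) (h3 : z ≠ a) : pa y p a z = 0 := by
  unfold pa
  rw [if_neg (by tauto), if_neg h3]

lemma pa_y (h : a ≠ y) : pa y p a y = 1 := by
  unfold pa
  rw [if_pos (Or.inl rfl), if_neg (Ne.symm h)]

lemma pa_p (h : a ≠ p) : pa y p a p = 1 := by
  unfold pa
  rw [if_pos (Or.inr rfl), if_neg (Ne.symm h)]

lemma pa_yy : pa y p y y = 2 := by
  unfold pa
  rw [if_pos (Or.inl rfl), if_pos rfl]

lemma pa_pp : pa y p p p = 2 := by
  unfold pa
  rw [if_pos (Or.inr rfl), if_pos rfl]

lemma pa_a (h1 : a ≠ y) (h2 : a ≠ p) : pa y p a a = 1 := by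
  unfold pa
  rw [if_neg (by tauto), if_pos rfl]

lemma pa_sum (h : y ≠ p) : ∑ z, pa y p a z = 3 := by
  classical
  unfold pa
  rw [sum_add_distrib, sum_ite_eq' univ a, if_pos (mem_univ a)]
  have : ∀ z : P, (if z = y ∨ z = p then 1 else 0) =
      (if z = y then 1 else 0) + if z = p then 1 else 0 := by
    intro z
    by_cases h1 : z = y
    · rw [if_pos (Or.inl h1), if_pos h1, if_neg (by rintro rfl; exact h h1.symm)]
    · by_cases h2 : z = p
      · rw [if_pos (Or.inr h2), if_neg h1, if_pos h2]
      · rw [if_neg (by tauto), if_neg h1, if_neg h2]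
  rw [sum_congr rfl fun z _ => this z, sum_add_distrib, sum_ite_eq' univ y, sum_ite_eq' univ p,
    if_pos (mem_univ y), if_pos (mem_univ p)]

lemma pa_inj {b : P} (h : pa y p a = pa y p b) : a = b := by
  have := congrFun h a
  unfold pa at this
  rw [if_pos rfl] at this
  by_contra hne
  rw [if_neg hne] at this
  omega

lemma pa_pos {z : P} (h : 1 ≤ pa y p a z) : z = y ∨ z = p ∨ z = a := by
  by_contra hc
  push Not at hc
  rw [pa_off hc.1 hc.2.1 hc.2.2] at h
  omega

lemma pa_on (h1 : a ≠ y) (h2 : a ≠ p) : pa y p a = on {y, p, a} := by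
  funext z
  unfold SO.on pa
  by_cases hz1 : z = y
  · rw [if_pos (Or.inl hz1), if_neg (by rw [hz1]; exact Ne.symm h1), if_pos (by simp [hz1])]
  · by_cases hz2 : z = p
    · rw [if_pos (Or.inr hz2), if_neg (by rw [hz2]; exact Ne.symm h2), if_pos (by simp [hz2])]
    · by_cases hz3 : z = a
      · rw [if_neg (by tauto), if_pos hz3, if_pos (by simp [hz3])]
      · rw [if_neg (by tauto), if_neg hz3, if_neg (by simp [hz1, hz2, hz3])]

/-- a core with energy three over a chain -/
lemma eq_pa (h : y ≠ p) (h1 : 1 ≤ e y) (h2 : 1 ≤ e p) (hs : ∑ z, e z = 3) :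
    ∃ a, e = pa y p a := by
  classical
  by_cases hex : ∃ a, a ≠ y ∧ a ≠ p ∧ 1 ≤ e a
  · obtain ⟨a, ha1, ha2, ha3⟩ := hex
    refine ⟨a, ?_⟩
    rw [Pn.eq_on_three h (Ne.symm ha1) (Ne.symm ha2) h1 h2 ha3 hs, pa_on ha1 ha2]
  · push Not at hex
    have h0 : ∀ z, z ≠ y → z ≠ p → e z = 0 := by
      intro z hz1 hz2
      have := hex z hz1 hz2
      omega
    have h3 : e y + e p = 3 := by
      rw [← hs]
      have : ∑ z, e z = ∑ z ∈ ({y, p} : Finset P), e z := by
        symm
        apply sum_subset (subset_univ _)
        intro z _ hz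
        rw [mem_insert, mem_singleton] at hz
        push Not at hz
        exact h0 z hz.1 hz.2
      rw [this, Finset.sum_pair h]
    by_cases h4 : e y = 2
    · refine ⟨y, funext fun z => ?_⟩
      by_cases hz1 : z = y
      · subst hz1
        rw [pa_yy, h4]
      · by_cases hz2 : z = p
        · subst hz2
          rw [pa_p h]
          omega
        · rw [pa_off hz1 hz2 hz1, h0 z hz1 hz2]
    · refine ⟨p, funext fun z => ?_⟩
      by_cases hz1 : z = y
      · subst hz1
        rw [pa_y (Ne.symm h)]
        omega
      · by_cases hz2 : z = p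
        · subst hz2
          rw [pa_pp]
          omega
        · rw [pa_off hz1 hz2 hz2, h0 z hz1 hz2]

lemma up_zero (H : Gr P r) (hr : i ≤ r) (h0 : ∀ z, lev z < i → e z = 0) :
    AdmU i e ∧ aU i e = 0 ∧ pU i e = 0 ∧ AU i e = ∅ := by
  classical
  have hF : ∀ z, lev z ≤ i → ¬ FU e z := by
    rintro z hz ⟨c, hc, h1⟩
    have := lev_uc H (mem_uc.2 hc)
    have := h0 c (by omega)
    omega
  refine ⟨fun z hz hc => hF z hz.le hc.1, ?_, ?_, ?_⟩
  · unfold aU
    rw [card_eq_zero, filter_eq_empty_iff]
    rintro z - ⟨h1, h2⟩
    exact hF z h1.le h2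
  · unfold pU
    rw [card_eq_zero, filter_eq_empty_iff]
    rintro z - ⟨h1, h2, h3⟩
    obtain ⟨c, hc⟩ := dc_nonempty H (x := z) (by omega)
    exact h3 ⟨c, mem_dc.1 hc, by rw [h0 z h1]; omega⟩
  · unfold AU
    rw [filter_eq_empty_iff]
    intro z hz
    exact hF z (mem_lv.1 hz).le

lemma lo_zero (H : Gr P r) (h0 : ∀ z, i < lev z → e z = 0) :
    AdmL i e ∧ aL i e = 0 ∧ pL i e = 0 ∧ AL i e = ∅ := by
  classical
  have hF : ∀ z, i ≤ lev z → ¬ FD e z := by
    rintro z hz ⟨c, hc, h1⟩
    have := lev_dc H (mem_dc.2 hc)
    have := h0 c (by omega)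
    omega
  refine ⟨fun z hz hc => hF z hz.le hc.1, ?_, ?_, ?_⟩
  · unfold aL
    rw [card_eq_zero, filter_eq_empty_iff]
    rintro z - ⟨h1, h2⟩
    exact hF z h1.le h2
  · unfold pL
    rw [card_eq_zero, filter_eq_empty_iff]
    rintro z - ⟨h1, h2, h3⟩
    obtain ⟨c, hc⟩ := uc_nonempty H (x := z) (by omega)
    exact h3 ⟨c, mem_uc.1 hc, by rw [h0 z h1]; omega⟩
  · unfold AL
    rw [filter_eq_empty_iff]
    intro z hz
    exact hF z (mem_lv.1 hz).ge

section lower

variable (E : Ev r i psi C) (F : FlS i y p w u v v')
include E F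

/-- the lower data of a variant -/
lemma pa_low (ha : a = y ∨ a = p ∨ a = v ∨ a = v') :
    Xg.Adm i (pa y p a) ∧ kp i (pa y p a) = 1 ∧ sg i (pa y p a) = if a = y then 1 else -1 := by
  classical
  have H := E.H
  have hlv := F.lv H
  obtain ⟨n1, n2, n3, n4, n5, n6⟩ := F.nes H
  have ly := F.ly
  have lw := F.lw
  have la : lev a = i ∨ lev a = i + 1 ∨ lev a = i + 2 := by
    rcases ha with rfl | rfl | rfl | rfl <;> omega
  obtain ⟨u0, u1, u2, u3⟩ := up_zero (e := pa y p a) H (by have := E.hr; omega : i ≤ r) (by
    intro z hz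
    apply pa_off
    · rintro rfl
      omega
    · rintro rfl
      omega
    · rintro rfl
      omega)
  have hvy : v ≠ y := by rintro rfl; omega
  have hvp : v ≠ p := by rintro rfl; omega
  have hvy' : v' ≠ y := by rintro rfl; omega
  have hvp' : v' ≠ p := by rintro rfl; omega
  have hsup : ∀ x, i < lev x → pa y p a x ≠ 0 → x = y ∨ x = p := by
    intro x hx h
    rcases pa_pos (y := y) (p := p) (a := a) (z := x) (by omega) with h1 | h1 | h1
    · exact Or.inl h1
    · exact Or.inr h1
    · rcases ha with h2 | h2 | h2 | h2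
      · exact Or.inl (h1.trans h2)
      · exact Or.inr (h1.trans h2)
      · rw [h1, h2] at hx
        omega
      · rw [h1, h2] at hx
        omega
  have fin : ∀ {b q : ℕ} {S : Finset P}, LDat i (pa y p a) b q S → (S.card : ℤ) = q + 1 →
      Xg.Adm i (pa y p a) ∧ kp i (pa y p a) = 1 ∧ sg i (pa y p a) = (-1) ^ (b + S.card) := by
    intro b q S D hS
    refine ⟨⟨D.adm, u0, by rw [u3]; exact disjoint_empty_right _⟩, ?_, ?_⟩
    · unfold Xg.kp
      rw [D.al_eq, D.p_eq, u3, u2, card_empty]
      push_cast
      omega
    · unfold sg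
      rw [D.al_eq, D.a_eq, u1, u2]
      congr 1
  have c2 : (uc y).card = 2 := by rw [F.uy, card_pair F.ne]
  have single : ∀ s s' : P, uc y = {s, s'} → s ≠ s' → s ≠ y → s ≠ p → s' ≠ y → s' ≠ p → a = s →
      Xg.Adm i (pa y p a) ∧ kp i (pa y p a) = 1 ∧ sg i (pa y p a) = -1 := by
    intro s s' h1 h2 h3 h4 h5 h6 h7
    subst h7
    have D := chain_dat H (e := pa y p a) F.ly F.up
      (fun x hx h => by rcases hsup x hx h with h | h <;> tauto) (by rw [pa_y h3, pa_p h4])
    rw [h1, pa_y h3] at D
    have e1 : pa y p a a = 1 := pa_a h3 h4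
    have e2 : pa y p a s' = 0 := pa_off h5 h6 (Ne.symm h2)
    have e3 : ({a, s'} : Finset P).filter (fun v => pa y p a v < 1) = {s'} := by
      ext z
      rw [mem_filter, mem_insert, mem_singleton]
      constructor
      · rintro ⟨rfl | rfl, h8⟩
        · omega
        · rfl
      · rintro rfl
        exact ⟨Or.inr rfl, by omega⟩
    rw [e3, if_neg (by
      intro h
      have := h a (by simp)
      omega)] at D
    have := fin D (by simp)
    rw [card_singleton] at this
    simpa using this
  rcases ha with h | h | h | h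
  · subst h
    have D := chain_dat H (e := pa a p a) F.ly F.up
      (fun x hx h => by rcases hsup x hx h with h | h <;> tauto) (by rw [pa_yy, pa_p n2]; omega)
    rw [pa_yy] at D
    have e3 : (uc a).filter (fun v => pa a p a v < 2) = uc a := by
      rw [filter_eq_self]
      intro z hz
      rw [F.uy, mem_insert, mem_singleton] at hz
      rcases hz with rfl | rfl
      · rw [pa_off hvy hvp hvy]
        omega
      · rw [pa_off hvy' hvp' hvy']
        omega
    rw [e3, if_pos (filter_eq_self.1 e3)] at D
    have := fin D (by rw [c2]; norm_num)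
    rw [c2] at this
    rw [if_pos rfl]
    simpa using this
  · subst h
    have e3 : ∀ v ∈ uc y, pa y a a v < pa y a a y := by
      intro z hz
      rw [pa_y n2.symm]
      rw [F.uy, mem_insert, mem_singleton] at hz
      rcases hz with rfl | rfl
      · rw [pa_off hvy hvp hvp]
        omega
      · rw [pa_off hvy' hvp' hvp']
        omega
    have D := kill_dat H (e := pa y a a) F.ly F.up (fun x hx h => hsup x hx h)
      (by rw [pa_y n2.symm, pa_pp]; omega) e3
    have := fin D (by rw [c2]; norm_num)
    rw [c2] at this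
    rw [if_neg n2.symm]
    simpa using this
  · rw [if_neg (by rw [h]; exact hvy)]
    exact single v v' F.uy F.ne hvy hvp hvy' hvp' h
  · rw [if_neg (by rw [h]; exact hvy')]
    exact single v' v (by rw [F.uy, pair_comm]) F.ne.symm hvy' hvp' hvy hvp h

/-- the variants are leftover cores -/
lemma pa_mem (my : y ∈ C) (mp : p ∈ C) (ha : a = y ∨ a = p ∨ a = v ∨ a = v') :
    pa y p a ∈ Lft i psi C (FP y p w u v v') 3 0 := by
  classical
  have H := E.H
  have hlv := F.lv H
  obtain ⟨n1, n2, n3, n4, n5, n6⟩ := F.nes H
  have ly := F.ly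
  have lw := F.lw
  obtain ⟨A1, A2, -⟩ := pa_low E F ha
  have la : lev a = i ∨ lev a = i + 1 ∨ lev a = i + 2 := by
    rcases ha with rfl | rfl | rfl | rfl <;> omega
  have mC : ∀ z, z = y ∨ z = p ∨ z = a → z ∈ C := by
    have h1 : ∀ s ∈ uc y, s ∈ C := fun s hs => E.hC.up my (mem_uc.1 hs)
    rintro z (rfl | rfl | rfl)
    · exact my
    · exact mp
    · rcases ha with rfl | rfl | rfl | rfl
      · exact my
      · exact mp
      · exact h1 _ (by rw [F.uy]; simp)
      · exact h1 _ (by rw [F.uy]; simp)
  have hvy : v ≠ y := by rintro rfl; omega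
  have hvp : v ≠ p := by rintro rfl; omega
  have hvy' : v' ≠ y := by rintro rfl; omega
  have hvp' : v' ≠ p := by rintro rfl; omega
  refine mem_Lft.2 ⟨pa_sum n2, ⟨?_, ?_, A1⟩, by rw [A2]; norm_num, ?_, ?_⟩
  · intro z hz
    by_contra h0
    exact hz (mC z (pa_pos (by omega)))
  · intro z hz
    by_contra h0
    obtain ⟨h1, h2, h3, -⟩ := mem_Rst.1 hz
    apply h3
    rw [mem_Tch]
    have h4 := pa_pos (y := y) (p := p) (a := a) (z := z) (by omega)
    have h5 : z = y := by
      rcases mem_near.1 h1 with h6 | h6
      · rcases h4 with h | h | h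
        · exact h
        · rw [h] at h6
          omega
        · rcases ha with h7 | h7 | h7 | h7
          · exact h.trans h7
          · rw [h, h7] at h6
            omega
          · rw [h, h7] at h6
            omega
          · rw [h, h7] at h6
            omega
      · rcases h4 with h | h | h <;> (rw [h] at h6; omega)
    rw [h5]
    refine Or.inl ⟨F.ly, p, mem_uc.1 (by rw [F.up]; simp), ?_⟩
    unfold pa
    rw [if_pos (Or.inr rfl)]
    omega
  · apply cc_none E.env
    intro d hd
    have h4 := pa_pos hd
    refine ⟨fun h => ?_, fun h => ?_⟩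
    · have : d = p := by
        rcases h4 with h1 | h1 | h1
        · rw [h1] at h
          omega
        · exact h1
        · rcases ha with h7 | h7 | h7 | h7
          · rw [h1, h7] at h
            omega
          · exact h1.trans h7
          · rw [h1, h7] at h
            omega
          · rw [h1, h7] at h
            omega
      rw [this, F.up, card_singleton]
    · exfalso
      rcases h4 with h1 | h1 | h1 <;> (rw [h1] at h; omega)
  · rintro (⟨q1, q2, q3⟩ | ⟨q1, q2, q3⟩)
    · rcases ha with rfl | rfl | rfl | rfl
      · rw [pa_yy] at q1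
        omega
      · rw [pa_pp] at q2
        omega
      · have := q3.v0
        rw [rm_of hvy hvp, pa_a hvy hvp] at this
        omega
      · have := q3.v0'
        rw [rm_of hvy' hvp', pa_a hvy' hvp'] at this
        omega
    · have := pa_pos (y := y) (p := p) (a := a) (z := w) (by omega)
      rcases this with h | h | h
      · exact n1 h.symm
      · exact n4 h
      · rw [← h] at la
        omega

/-- the lower pendant class -/
lemma lo_class (hpsi : psi y = w) (hu1 : ∀ z ∈ C, z ∈ PD P i → z = p)
    (he : e ∈ Lft i psi C (FP y p w u v v') 3 0) (hp : 1 ≤ e p) :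
    (∃ a, (a = y ∨ a = p ∨ a = v ∨ a = v') ∧ e = pa y p a) ∨ ∃ z ∈ FL i C, e = on (con i z) := by
  classical
  have H := E.H
  have hlv := F.lv H
  obtain ⟨n1, n2, n3, n4, n5, n6⟩ := F.nes H
  have ly := F.ly
  have lw := F.lw
  obtain ⟨b1, ho, b3, b4, b5⟩ := mem_Lft.1 he
  have ey : 1 ≤ e y := adm_pos H ho.adm.l (y := y) (z := p) (by omega)
    (by rw [mem_dc, ← mem_uc, F.up]; simp) hp
  obtain ⟨a, ha⟩ := eq_pa n2 ey hp b1
  by_cases h1 : a = y ∨ a = p ∨ a = v ∨ a = v'
  · exact Or.inl ⟨a, h1, ha⟩
  push Not at h1
  obtain ⟨a1, a2, a3, a4⟩ := h1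
  have ea : e a = 1 := by rw [ha, pa_a a1 a2]
  have ey1 : e y = 1 := by rw [ha, pa_y a1]
  have ep1 : e p = 1 := by rw [ha, pa_p a2]
  have hpos : ∀ z, 1 ≤ e z → z = y ∨ z = p ∨ z = a := by
    intro z hz
    rw [ha] at hz
    exact pa_pos hz
  have mpz : p ∈ dc y := by rw [mem_dc, ← mem_uc, F.up]; simp
  rcases lt_trichotomy (lev a) i with hl | hl | hl
  · -- an upper element
    exfalso
    by_cases hl1 : lev a + 1 = i
    · rcases Pn.touched ho.core (Or.inr hl1) (by omega) with h | ⟨h, h'⟩
      · rw [mem_Tch] at h
        rcases h with ⟨h, -⟩ | ⟨-, c, hc, hpc⟩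
        · omega
        · have lc := lev_uc H (mem_uc.2 hc)
          rcases hpos c (by omega) with rfl | rfl | rfl <;> omega
      · rw [mem_Tch] at h'
        rcases h' with ⟨h1, c, hc, hpc⟩ | ⟨h1, c, hc, hpc⟩
        · have lc := lev_dc H (mem_dc.2 hc)
          have hcp : c = p := by
            rcases hpos c (by omega) with h2 | h2 | h2
            · rw [h2] at lc
              omega
            · exact h2
            · rw [h2] at lc
              omega
          rw [hcp] at hc
          have h2 : psi a = y := by
            have := mem_uc.2 hc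
            rw [F.up, mem_singleton] at this
            exact this
          have h3 : a ∈ dbU P i := by
            rcases mem_union.1 h with h4 | h4
            · unfold dbL at h4
              rw [mem_filter] at h4
              omega
            · exact h4
          have h5 := (E.hM.upp a h3 (notMem_empty a)).2
          rw [h2, F.uy] at h5
          have h6 : v ∈ dc a := by rw [← h5]; simp
          have h7 : v ∈ AL i e := by
            unfold AL
            rw [mem_filter, mem_lv]
            refine ⟨hlv.1, y, mem_uc.1 (by rw [F.uy]; simp), ?_⟩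
            have : e v = 0 := by
              by_contra h0
              rcases hpos v (by omega) with h | h | h
              · rw [h] at hlv
                omega
              · rw [h] at hlv
                omega
              · exact a3 h.symm
            omega
          have h8 : v ∈ AU i e := by
            unfold AU
            rw [mem_filter, mem_lv]
            refine ⟨hlv.1, a, mem_dc.1 h6, ?_⟩
            have : e v = 0 := by
              by_contra h0
              rcases hpos v (by omega) with h | h | h
              · rw [h] at hlv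
                omega
              · rw [h] at hlv
                omega
              · exact a3 h.symm
            omega
          exact disjoint_left.1 ho.adm.d h7 h8
        · have lc := lev_uc H (mem_uc.2 hc)
          rcases hpos c (by omega) with rfl | rfl | rfl <;> omega
    · obtain ⟨c, hc⟩ := dc_nonempty H (x := a) (by have := E.hr; omega)
      have lc := lev_dc H hc
      have h2 : 1 ≤ e c := adm_posU H (by have := E.hr; omega) ho.adm.u (y := c) (z := a) (by omega)
        (by rw [mem_uc]; exact mem_dc.1 hc) (by omega)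
      rcases hpos c h2 with rfl | rfl | rfl <;> omega
  · -- a site
    exfalso
    apply b5
    refine Or.inl ⟨ey1, ep1, ?_⟩
    have h0 : ∀ z, z ≠ a → rm y p e z = 0 := by
      intro z hz
      unfold rm
      split_ifs with h2
      · rfl
      · push Not at h2
        by_contra h3
        rcases hpos z (by omega) with h | h | h
        · exact h2.1 h
        · exact h2.2 h
        · exact hz h
    have hl' : ∀ z, lev z ≠ i → z ≠ a := by
      rintro z hz rfl
      exact hz hl
    refine ⟨h0 v (Ne.symm a3), h0 v' (Ne.symm a4), fun z hz => h0 z (hl' z ?_),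
      fun z hz => h0 z (hl' z ?_), fun z hz => h0 z (hl' z ?_), fun z hz => h0 z (hl' z ?_),
      fun z hz => h0 z (hl' z ?_), fun z hz => h0 z (hl' z ?_), fun z hz => h0 z (hl' z ?_),
      fun z hz => h0 z (hl' z ?_)⟩
    · have := lev_dc H hz
      omega
    · have := lev_dc H hz
      omega
    · have := lev_uc H hz
      omega
    · have := lev_uc H hz
      omega
    · have := lev_dc H hz
      omega
    · have := lev_dc H hz
      omega
    · have := lev_uc H hz
      omega
    · have := lev_uc H hz
      omega
  · -- a lower element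
    by_cases hl1 : lev a = i + 1
    · exfalso
      rcases Pn.touched ho.core (Or.inl hl1) (by omega) with h | ⟨h, h'⟩
      · rw [mem_Tch] at h
        rcases h with ⟨-, c, hc, hpc⟩ | ⟨h, -⟩
        · have lc := lev_dc H (mem_dc.2 hc)
          have hcp : c = p := by
            rcases hpos c (by omega) with h2 | h2 | h2
            · rw [h2] at lc
              omega
            · exact h2
            · rw [h2] at lc
              omega
          rw [hcp] at hc
          have := mem_uc.2 hc
          rw [F.up, mem_singleton] at this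
          exact a1 this
        · omega
      · have h3 : a ∈ dbL P i := by
          rcases mem_union.1 h with h4 | h4
          · exact h4
          · unfold dbU at h4
            rw [mem_filter] at h4
            omega
        have h4 := (E.hM.low a h3 (notMem_empty a)).1
        have h5 : lev (psi a) + 1 = i := by
          unfold dbU at h4
          rw [mem_filter] at h4
          exact h4.2.1
        rw [mem_Tch] at h'
        rcases h' with ⟨h1, -⟩ | ⟨h1, c, hc, hpc⟩
        · omega
        · have lc := lev_uc H (mem_uc.2 hc)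
          rcases hpos c (by omega) with rfl | rfl | rfl <;> omega
    · have hup : ∀ c ∈ uc a, c = y ∨ c = p := by
        intro c hc
        have lc := lev_uc H hc
        have h2 : 1 ≤ e c := adm_pos H ho.adm.l (y := c) (z := a) (by omega)
          (by rw [mem_dc, ← mem_uc]; exact hc) (by omega)
        rcases hpos c h2 with h | h | h
        · exact Or.inl h
        · exact Or.inr h
        · rw [h] at lc
          omega
      obtain ⟨c, hc⟩ := uc_nonempty H (x := a) (by omega)
      have lc := lev_uc H hc
      have mcC : a ∈ C := spt_mem ho.spt (by omega)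
      rcases hup c hc with h2 | h2
      · exfalso
        have h3 : uc a = {y} := by
          apply eq_singleton_iff_unique_mem.2 ⟨by rw [← h2]; exact hc, ?_⟩
          intro c' hc'
          have lc' := lev_uc H hc'
          rcases hup c' hc' with h | h
          · exact h
          · rw [h] at lc'
            rw [h2] at lc
            omega
        apply a2
        apply hu1 a mcC
        rw [mem_PD']
        refine ⟨by rw [h2] at lc; omega, by rw [h3, card_singleton], y, mem_uc.1 (by rw [h3]; simp),
          by rw [F.uy, card_pair F.ne]⟩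
      · right
        have h3 : uc a = {p} := by
          apply eq_singleton_iff_unique_mem.2 ⟨by rw [← h2]; exact hc, ?_⟩
          intro c' hc'
          have lc' := lev_uc H hc'
          rcases hup c' hc' with h | h
          · rw [h] at lc'
            rw [h2] at lc
            omega
          · exact h
        have hpd : p ∈ PD P i := by
          rw [mem_PD']
          exact ⟨by omega, by rw [F.up, card_singleton], y, mem_uc.1 (by rw [F.up]; simp),
            by rw [F.uy, card_pair F.ne]⟩
        refine ⟨a, ?_, ?_⟩
        · rw [mem_FL]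
          exact ⟨mcC, p, hpd, h3⟩
        · rw [con_FL H (by rw [h2] at lc; omega) h3 F.up, ha, pa_on a1 a2]
          congr 1
          ext z
          simp only [mem_insert, mem_singleton]
          tauto

end lower

end Pool.Agent.GaussPoset.Win.Rd

end

/-! From `Pool.Agent.W_448rd_h10.RdW` -/

section

/-!
MP_448cb3_co, G2, window `j - 1`: the leftover cores of the energy three, part 3: the cores over
the pendant, upper side, and the sum.  helper10.
-/

namespace Pool.Agent.GaussPoset.Win.Rd

set_option linter.unusedSectionVars false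

open Finset I2 K2
open Pool.Agent.GaussPoset.Win.H2 (SdT NoT low_T up_T sum_all)
open Pool.Agent.GaussPoset.Win.Xg (FlS Zr LoP UpP FP rm rm_le rm_of rm_y rm_p Okc Adm kp Lft mem_Lft)
open Pool.Agent.GaussPoset.Win.SO (con on Num num_Chs num_ZL num_ZU num_FL num_FU Chs_cases
  self_con mem_con con_sub con_cls con_step sit_con sit_sub sit_ne FL_data FU_data con_FL con_FU
  con_two_low con_two_upp BL BU nL nU mem_BL mem_BU)
open Pool.Agent.GaussPoset.Win.Pn (on_one on_zero on_pos core_on adm_on kp_on cc_on cc_none)

universe u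

variable {P : Type u} [Fintype P] [PartialOrder P] [DecidableEq P] {r i : ℕ} {e B : P → ℕ}
variable {psi : P → P} {C : Finset P} {Q : (P → ℕ) → Prop} {t : P × P} {y p w u v v' a : P}

section upper

variable (E : Ev r i psi C) (F : FlS i y p w u v v')
include E F

/-- the upper data of a variant -/
lemma pa_upp (ha : a = w ∨ a = u ∨ a = v ∨ a = v') :
    Xg.Adm i (pa w u a) ∧ kp i (pa w u a) = 1 ∧ sg i (pa w u a) = if a = w then -1 else 1 := by
  classical
  have H := E.H
  have hlv := F.lv H
  obtain ⟨n1, n2, n3, n4, n5, n6⟩ := F.nes H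
  have ly := F.ly
  have lw := F.lw
  have la : lev a = i ∨ lev a + 1 = i ∨ lev a + 2 = i := by
    rcases ha with rfl | rfl | rfl | rfl <;> omega
  obtain ⟨u0, u1, u2, u3⟩ := lo_zero (i := i) (e := pa w u a) H (by
    intro z hz
    apply pa_off
    · rintro rfl
      omega
    · rintro rfl
      omega
    · rintro rfl
      omega)
  have hvy : v ≠ w := by rintro rfl; omega
  have hvp : v ≠ u := by rintro rfl; omega
  have hvy' : v' ≠ w := by rintro rfl; omega
  have hvp' : v' ≠ u := by rintro rfl; omega
  have hsup : ∀ x, lev x < i → pa w u a x ≠ 0 → x = w ∨ x = u := by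
    intro x hx h
    rcases pa_pos (y := w) (p := u) (a := a) (z := x) (by omega) with h1 | h1 | h1
    · exact Or.inl h1
    · exact Or.inr h1
    · rcases ha with h2 | h2 | h2 | h2
      · exact Or.inl (h1.trans h2)
      · exact Or.inr (h1.trans h2)
      · rw [h1, h2] at hx
        omega
      · rw [h1, h2] at hx
        omega
  have fin : ∀ {b q : ℕ} {S : Finset P}, UDat i (pa w u a) b q S → (S.card : ℤ) = q + 1 →
      Xg.Adm i (pa w u a) ∧ kp i (pa w u a) = 1 ∧ sg i (pa w u a) = (-1) ^ (b + q) := by
    intro b q S D hS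
    refine ⟨⟨u0, D.adm, by rw [u3]; exact disjoint_empty_left _⟩, ?_, ?_⟩
    · unfold Xg.kp
      rw [D.au_eq, D.p_eq, u3, u2, card_empty]
      push_cast
      omega
    · unfold sg
      rw [D.a_eq, D.p_eq, u1, u3, card_empty]
      congr 1
      omega
  have c2 : (dc w).card = 2 := by rw [F.dw, card_pair F.ne]
  have hir : i ≤ r := by
    have := E.hr
    omega
  have single : ∀ s s' : P, dc w = {s, s'} → s ≠ s' → s ≠ w → s ≠ u → s' ≠ w → s' ≠ u → a = s →
      Xg.Adm i (pa w u a) ∧ kp i (pa w u a) = 1 ∧ sg i (pa w u a) = 1 := by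
    intro s s' h1 h2 h3 h4 h5 h6 h7
    subst h7
    have D := chain_datU H hir (e := pa w u a) F.lw F.du
      (fun x hx h => by rcases hsup x hx h with h | h <;> tauto) (by rw [pa_y h3, pa_p h4])
    rw [h1, pa_y h3] at D
    have e1 : pa w u a a = 1 := pa_a h3 h4
    have e2 : pa w u a s' = 0 := pa_off h5 h6 (Ne.symm h2)
    have e3 : ({a, s'} : Finset P).filter (fun v => pa w u a v < 1) = {s'} := by
      ext z
      rw [mem_filter, mem_insert, mem_singleton]
      constructor
      · rintro ⟨rfl | rfl, h8⟩
        · omega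
        · rfl
      · rintro rfl
        exact ⟨Or.inr rfl, by omega⟩
    rw [e3, if_neg (by
      intro h
      have := h a (by simp)
      omega)] at D
    have := fin D (by simp)
    simpa using this
  rcases ha with h | h | h | h
  · subst h
    have D := chain_datU H hir (e := pa a u a) F.lw F.du
      (fun x hx h => by rcases hsup x hx h with h | h <;> tauto) (by rw [pa_yy, pa_p n5]; omega)
    rw [pa_yy] at D
    have e3 : (dc a).filter (fun v => pa a u a v < 2) = dc a := by
      rw [filter_eq_self]
      intro z hz
      rw [F.dw, mem_insert, mem_singleton] at hz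
      rcases hz with rfl | rfl
      · rw [pa_off hvy hvp hvy]
        omega
      · rw [pa_off hvy' hvp' hvy']
        omega
    rw [e3, if_pos (filter_eq_self.1 e3)] at D
    have := fin D (by rw [c2]; norm_num)
    rw [if_pos rfl]
    simpa using this
  · subst h
    have e3 : ∀ v ∈ dc w, pa w a a v < pa w a a w := by
      intro z hz
      rw [pa_y n5.symm]
      rw [F.dw, mem_insert, mem_singleton] at hz
      rcases hz with rfl | rfl
      · rw [pa_off hvy hvp hvp]
        omega
      · rw [pa_off hvy' hvp' hvp']
        omega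
    have D := kill_datU H hir (e := pa w a a) F.lw F.du (fun x hx h => hsup x hx h)
      (by rw [pa_y n5.symm, pa_pp]; omega) e3
    have := fin D (by rw [c2]; norm_num)
    rw [if_neg n5.symm]
    simpa using this
  · rw [if_neg (by rw [h]; exact hvy)]
    exact single v v' F.dw F.ne hvy hvp hvy' hvp' h
  · rw [if_neg (by rw [h]; exact hvy')]
    exact single v' v (by rw [F.dw, pair_comm]) F.ne.symm hvy' hvp' hvy hvp h

/-- the variants are leftover cores -/
lemma pa_memU (my : w ∈ C) (mp : u ∈ C) (ha : a = w ∨ a = u ∨ a = v ∨ a = v') :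
    pa w u a ∈ Lft i psi C (FP y p w u v v') 3 0 := by
  classical
  have H := E.H
  have hlv := F.lv H
  obtain ⟨n1, n2, n3, n4, n5, n6⟩ := F.nes H
  have ly := F.ly
  have lw := F.lw
  obtain ⟨A1, A2, -⟩ := pa_upp E F ha
  have la : lev a = i ∨ lev a + 1 = i ∨ lev a + 2 = i := by
    rcases ha with rfl | rfl | rfl | rfl <;> omega
  have mC : ∀ z, z = w ∨ z = u ∨ z = a → z ∈ C := by
    have h1 : ∀ s ∈ dc w, s ∈ C := by
      intro s hs
      have := lev_dc H hs
      exact E.hC.dn my (by omega) (mem_dc.1 hs)
    rintro z (rfl | rfl | rfl)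
    · exact my
    · exact mp
    · rcases ha with rfl | rfl | rfl | rfl
      · exact my
      · exact mp
      · exact h1 _ (by rw [F.dw]; simp)
      · exact h1 _ (by rw [F.dw]; simp)
  have hvy : v ≠ w := by rintro rfl; omega
  have hvp : v ≠ u := by rintro rfl; omega
  have hvy' : v' ≠ w := by rintro rfl; omega
  have hvp' : v' ≠ u := by rintro rfl; omega
  refine mem_Lft.2 ⟨pa_sum n5, ⟨?_, ?_, A1⟩, by rw [A2]; norm_num, ?_, ?_⟩
  · intro z hz
    by_contra h0
    exact hz (mC z (pa_pos (by omega)))
  · intro z hz
    by_contra h0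
    obtain ⟨h1, h2, h3, -⟩ := mem_Rst.1 hz
    apply h3
    rw [mem_Tch]
    have h4 := pa_pos (y := w) (p := u) (a := a) (z := z) (by omega)
    have h5 : z = w := by
      rcases mem_near.1 h1 with h6 | h6
      · rcases h4 with h | h | h <;> (rw [h] at h6; omega)
      · rcases h4 with h | h | h
        · exact h
        · rw [h] at h6
          omega
        · rcases ha with h7 | h7 | h7 | h7
          · exact h.trans h7
          · rw [h, h7] at h6
            omega
          · rw [h, h7] at h6
            omega
          · rw [h, h7] at h6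
            omega
    rw [h5]
    refine Or.inr ⟨F.lw, u, mem_dc.1 (by rw [F.du]; simp), ?_⟩
    unfold pa
    rw [if_pos (Or.inr rfl)]
    omega
  · apply cc_none E.env
    intro d hd
    have h4 := pa_pos hd
    refine ⟨fun h => ?_, fun h => ?_⟩
    · exfalso
      rcases h4 with h1 | h1 | h1 <;> (rw [h1] at h; omega)
    · have : d = u := by
        rcases h4 with h1 | h1 | h1
        · rw [h1] at h
          omega
        · exact h1
        · rcases ha with h7 | h7 | h7 | h7
          · rw [h1, h7] at h
            omega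
          · exact h1.trans h7
          · rw [h1, h7] at h
            omega
          · rw [h1, h7] at h
            omega
      rw [this, F.du, card_singleton]
  · rintro (⟨q1, q2, q3⟩ | ⟨q1, q2, q3⟩)
    · have := pa_pos (y := w) (p := u) (a := a) (z := y) (by omega)
      rcases this with h | h | h
      · exact n1 h
      · exact n3 h
      · rw [← h] at la
        omega
    · rcases ha with rfl | rfl | rfl | rfl
      · rw [pa_yy] at q1
        omega
      · rw [pa_pp] at q2
        omega
      · have := q3.v0
        rw [rm_of hvy hvp, pa_a hvy hvp] at this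
        omega
      · have := q3.v0'
        rw [rm_of hvy' hvp', pa_a hvy' hvp'] at this
        omega

/-- the upper pendant class -/
lemma up_class (hpsi : psi y = w) (hu1 : ∀ z ∈ C, z ∈ PU P i → z = u)
    (he : e ∈ Lft i psi C (FP y p w u v v') 3 0) (hp : 1 ≤ e u) :
    (∃ a, (a = w ∨ a = u ∨ a = v ∨ a = v') ∧ e = pa w u a) ∨ ∃ z ∈ FU' i C, e = on (con i z) := by
  classical
  have H := E.H
  have hir : i ≤ r := by
    have := E.hr
    omega
  have hlv := F.lv H
  obtain ⟨n1, n2, n3, n4, n5, n6⟩ := F.nes H
  have ly := F.ly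
  have lw := F.lw
  obtain ⟨b1, ho, b3, b4, b5⟩ := mem_Lft.1 he
  have ey : 1 ≤ e w := adm_posU H hir ho.adm.u (y := w) (z := u) (by omega)
    (by rw [mem_uc, ← mem_dc, F.du]; simp) hp
  obtain ⟨a, ha⟩ := eq_pa n5 ey hp b1
  by_cases h1 : a = w ∨ a = u ∨ a = v ∨ a = v'
  · exact Or.inl ⟨a, h1, ha⟩
  push Not at h1
  obtain ⟨a1, a2, a3, a4⟩ := h1
  have ea : e a = 1 := by rw [ha, pa_a a1 a2]
  have ey1 : e w = 1 := by rw [ha, pa_y a1]
  have ep1 : e u = 1 := by rw [ha, pa_p a2]
  have hpos : ∀ z, 1 ≤ e z → z = w ∨ z = u ∨ z = a := by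
    intro z hz
    rw [ha] at hz
    exact pa_pos hz
  rcases lt_trichotomy (lev a) i with hl | hl | hl
  · -- an upper element
    by_cases hl1 : lev a + 1 = i
    · exfalso
      rcases Pn.touched ho.core (Or.inr hl1) (by omega) with h | ⟨h, h'⟩
      · rw [mem_Tch] at h
        rcases h with ⟨h, -⟩ | ⟨-, c, hc, hpc⟩
        · omega
        · have lc := lev_uc H (mem_uc.2 hc)
          have hcp : c = u := by
            rcases hpos c (by omega) with h2 | h2 | h2
            · rw [h2] at lc
              omega
            · exact h2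
            · rw [h2] at lc
              omega
          rw [hcp] at hc
          have := mem_dc.2 hc
          rw [F.du, mem_singleton] at this
          exact a1 this
      · have h3 : a ∈ dbU P i := by
          rcases mem_union.1 h with h4 | h4
          · unfold dbL at h4
            rw [mem_filter] at h4
            omega
          · exact h4
        have h4 := (E.hM.upp a h3 (notMem_empty a)).1
        have h5 : lev (psi a) = i + 1 := by
          unfold dbL at h4
          rw [mem_filter] at h4
          exact h4.2.1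
        rw [mem_Tch] at h'
        rcases h' with ⟨h1, c, hc, hpc⟩ | ⟨h1, -⟩
        · have lc := lev_dc H (mem_dc.2 hc)
          rcases hpos c (by omega) with rfl | rfl | rfl <;> omega
        · omega
    · have hup : ∀ c ∈ dc a, c = w ∨ c = u := by
        intro c hc
        have lc := lev_dc H hc
        have h2 : 1 ≤ e c := adm_posU H hir ho.adm.u (y := c) (z := a) (by omega)
          (by rw [mem_uc, ← mem_dc]; exact hc) (by omega)
        rcases hpos c h2 with h | h | h
        · exact Or.inl h
        · exact Or.inr h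
        · rw [h] at lc
          omega
      obtain ⟨c, hc⟩ := dc_nonempty H (x := a) (by omega)
      have lc := lev_dc H hc
      have mcC : a ∈ C := spt_mem ho.spt (by omega)
      rcases hup c hc with h2 | h2
      · exfalso
        have h3 : dc a = {w} := by
          apply eq_singleton_iff_unique_mem.2 ⟨by rw [← h2]; exact hc, ?_⟩
          intro c' hc'
          have lc' := lev_dc H hc'
          rcases hup c' hc' with h | h
          · exact h
          · rw [h] at lc'
            rw [h2] at lc
            omega
        apply a2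
        apply hu1 a mcC
        rw [mem_PU']
        refine ⟨by rw [h2] at lc; omega, by rw [h3, card_singleton], w, mem_dc.1 (by rw [h3]; simp),
          by rw [F.dw, card_pair F.ne]⟩
      · right
        have h3 : dc a = {u} := by
          apply eq_singleton_iff_unique_mem.2 ⟨by rw [← h2]; exact hc, ?_⟩
          intro c' hc'
          have lc' := lev_dc H hc'
          rcases hup c' hc' with h | h
          · rw [h] at lc'
            rw [h2] at lc
            omega
          · exact h
        have hpd : u ∈ PU P i := by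
          rw [mem_PU']
          exact ⟨by omega, by rw [F.du, card_singleton], w, mem_dc.1 (by rw [F.du]; simp),
            by rw [F.dw, card_pair F.ne]⟩
        refine ⟨a, ?_, ?_⟩
        · rw [mem_FU']
          exact ⟨mcC, u, hpd, h3⟩
        · rw [con_FU H (by rw [h2] at lc; omega) h3 F.du, ha, pa_on a1 a2]
          congr 1
          ext z
          simp only [mem_insert, mem_singleton]
          tauto
  · -- a site
    exfalso
    apply b5
    refine Or.inr ⟨ey1, ep1, ?_⟩
    have h0 : ∀ z, z ≠ a → rm w u e z = 0 := by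
      intro z hz
      unfold rm
      split_ifs with h2
      · rfl
      · push Not at h2
        by_contra h3
        rcases hpos z (by omega) with h | h | h
        · exact h2.1 h
        · exact h2.2 h
        · exact hz h
    have hl' : ∀ z, lev z ≠ i → z ≠ a := by
      rintro z hz rfl
      exact hz hl
    refine ⟨h0 v (Ne.symm a3), h0 v' (Ne.symm a4), fun z hz => h0 z (hl' z ?_),
      fun z hz => h0 z (hl' z ?_), fun z hz => h0 z (hl' z ?_), fun z hz => h0 z (hl' z ?_),
      fun z hz => h0 z (hl' z ?_), fun z hz => h0 z (hl' z ?_), fun z hz => h0 z (hl' z ?_),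
      fun z hz => h0 z (hl' z ?_)⟩
    · have := lev_dc H hz
      omega
    · have := lev_dc H hz
      omega
    · have := lev_uc H hz
      omega
    · have := lev_uc H hz
      omega
    · have := lev_dc H hz
      omega
    · have := lev_dc H hz
      omega
    · have := lev_uc H hz
      omega
    · have := lev_uc H hz
      omega
  · -- a lower element
    exfalso
    by_cases hl1 : lev a = i + 1
    · rcases Pn.touched ho.core (Or.inl hl1) (by omega) with h | ⟨h, h'⟩
      · rw [mem_Tch] at h
        rcases h with ⟨-, c, hc, hpc⟩ | ⟨h, -⟩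
        · have lc := lev_dc H (mem_dc.2 hc)
          rcases hpos c (by omega) with rfl | rfl | rfl <;> omega
        · omega
      · rw [mem_Tch] at h'
        rcases h' with ⟨h1, c, hc, hpc⟩ | ⟨h1, c, hc, hpc⟩
        · have lc := lev_dc H (mem_dc.2 hc)
          rcases hpos c (by omega) with rfl | rfl | rfl <;> omega
        · have lc := lev_uc H (mem_uc.2 hc)
          have hcp : c = u := by
            rcases hpos c (by omega) with h2 | h2 | h2
            · rw [h2] at lc
              omega
            · exact h2
            · rw [h2] at lc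
              omega
          rw [hcp] at hc
          have h2 : psi a = w := by
            have := mem_dc.2 hc
            rw [F.du, mem_singleton] at this
            exact this
          have h3 : a ∈ dbL P i := by
            rcases mem_union.1 h with h4 | h4
            · exact h4
            · unfold dbU at h4
              rw [mem_filter] at h4
              omega
          have h5 := (E.hM.low a h3 (notMem_empty a)).2
          rw [h2, F.dw] at h5
          have h6 : v ∈ uc a := by rw [← h5]; simp
          have h0 : e v = 0 := by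
            by_contra h0
            rcases hpos v (by omega) with h | h | h
            · rw [h] at hlv
              omega
            · rw [h] at hlv
              omega
            · exact a3 h.symm
          have h7 : v ∈ AL i e := by
            unfold AL
            rw [mem_filter, mem_lv]
            exact ⟨hlv.1, a, mem_uc.1 h6, by omega⟩
          have h8 : v ∈ AU i e := by
            unfold AU
            rw [mem_filter, mem_lv]
            exact ⟨hlv.1, w, mem_dc.1 (by rw [F.dw]; simp), by omega⟩
          exact disjoint_left.1 ho.adm.d h7 h8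
    · obtain ⟨c, hc⟩ := uc_nonempty H (x := a) (by omega)
      have lc := lev_uc H hc
      have h2 : 1 ≤ e c := adm_pos H ho.adm.l (y := c) (z := a) (by omega)
        (by rw [mem_dc]; exact mem_uc.1 hc) (by omega)
      rcases hpos c h2 with rfl | rfl | rfl <;> omega

end upper

end Pool.Agent.GaussPoset.Win.Rd

end

/-! From `Pool.Agent.W_448g_h5.GE` -/

section

/-! Assembly: if the first bad level never exists the poset is a distributive lattice. -/

namespace Pool.Agent.GaussPoset.Win

set_option linter.unusedSectionVars false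

open Finset OrderDual

universe u

variable {P : Type u} [Fintype P] [PartialOrder P] [DecidableEq P] {r : ℕ}

/-- the last level is good -/
theorem good_last (H : Gr P r) : Good P r := by
  have h1 := good_zero H.dual
  have h2 := Good_od H (i := r) le_rfl
  rw [Nat.sub_self] at h2
  exact h2.mp h1

end Pool.Agent.GaussPoset.Win

end

/-! From `Pool.Agent.W_448g2_h96.Asm` -/

section

/-!
# Final assembly of the theorem on connected Gaussian posets (MP_448cb3_co)

`Bad P r j`: the levels less than `j` are good, level `j` is not (`1 ≤ j`, `j + 1 ≤ r`).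
Step A: then no element of level `j + 1` is below two maximal elements.
Step B: impossible if no element of level `j + 1` is below two maximal elements.
-/

namespace Pool.Agent.GaussPoset.Win

set_option linter.unusedSectionVars false

open Finset OrderDual

universe u

/-- level `j` is the first bad level -/
structure Bad (P : Type u) [Fintype P] [PartialOrder P] [DecidableEq P] (r j : ℕ) : Prop where
  gt : GoodTo P r j
  bad : ¬ Good P j

variable {P : Type u} [Fintype P] [PartialOrder P] [DecidableEq P] {r j : ℕ}

lemma Bad.one_le (h : Bad P r j) : 1 ≤ j := by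
  rcases Nat.eq_zero_or_pos j with h0 | h0
  · subst h0
    exact absurd (good_zero h.gt.H) h.bad
  · exact h0

lemma Bad.lt (h : Bad P r j) : j + 1 ≤ r := by
  by_contra hcon
  have h1 := h.gt.hr
  have h2 : j = r := by omega
  subst h2
  exact h.bad (good_last h.gt.H)

/-- a first bad level exists if some level is bad -/
lemma exists_bad (H : Gr P r) (hM : ¬ Modl P) : ∃ j, Bad P r j := by
  classical
  by_contra hcon
  push Not at hcon
  have key : ∀ j, j ≤ r → Good P j := by
    intro j
    induction j using Nat.strong_induction_on with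
    | _ j ih =>
      intro hj
      by_contra hb
      exact hcon j ⟨⟨H, hj, fun l hl => ih l hl (by omega)⟩, hb⟩
  apply hM
  intro v v' hne
  by_cases hl : lev v = lev v'
  · exact key (lev v) (H.lev_le v) v v' rfl hl.symm hne
  · exact ucv_zero_of_lev H hl

/-- the final assembly -/
theorem distrib_of_bad (hG : IsGaussian P) (hc : (SimpleGraph.hasse P).Connected)
    (hA : ∀ r j, Bad P r j → ∀ z : P, lev z = j + 1 → ¬ Hul.Jn z)
    (hB : ∀ r j, Bad P r j → (∀ z : P, lev z = j + 1 → ¬ Hul.Jn z) → False) :
    IsDistribLatticeOrder P := by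
  obtain ⟨r, H⟩ := gr_of_connected hG hc
  by_cases hM : Modl P
  · exact distrib_of_modl hG hc hM
  · obtain ⟨j, hj⟩ := exists_bad H hM
    exact absurd (hB r j hj (hA r j hj)) id

end Pool.Agent.GaussPoset.Win

end

/-! From `Pool.Agent.W_448p_h97.PbU` -/

section

/-!
MP_448cb3_co, G2, case B, window `j`: the mirror image of a row, and THE VALUE `F` of a component with the
pattern [DL] at both ends.  helper97.
-/

namespace Pool.Agent.GaussPoset.Win.Pb

set_option linter.unusedSectionVars false

open Finset W4 Pa
open Pool.Agent.GaussPoset.Win.SO (PN vp con on mem_PN vp_PD vp_PU)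

universe u

variable {P : Type u} [Fintype P] [PartialOrder P] [DecidableEq P] {r i : ℕ}
variable {psi : P → P} {C K : Finset P} {w v w' v' : P} {m : ℕ} {x : ℕ → P}

/-! ### matched near elements -/

section

variable (Q : K9 r i K psi C w v w' v')
include Q

lemma near_C {y z : P} (hy : y ∈ C) (hl : lev y = i) (hz : z ∈ dc y ∨ z ∈ uc y) : z ∈ C := by
  rcases hz with h | h
  · have h1 := lev_cov Q.H (mem_dc.1 h)
    exact Q.hC.dn hy (by omega) (mem_dc.1 h)
  · exact Q.hC.up hy (mem_uc.1 h)

/-- the number of matched near elements at a site, two stars -/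
theorem K9_dg {y : P} (hy : y ∈ C) (hl : lev y = i) :
    dg i K C y = ((dc y).card : ℤ) + (uc y).card
      - (if y ∈ uc w then 1 else 0) - (if y ∈ dc v then 1 else 0)
      - (if y ∈ uc w' then 1 else 0) - (if y ∈ dc v' then 1 else 0) := by
  classical
  have hd : Disjoint (dc y) (uc y) := by
    rw [disjoint_left]
    intro z h1 h2
    have := lev_cov Q.H (mem_dc.1 h1)
    have := lev_cov Q.H (mem_uc.1 h2)
    omega
  have e1 : (N0 i K C).filter (fun z => y ∈ nz i z) =
      ((dc y).erase w).erase w' ∪ ((uc y).erase v).erase v' := by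
    ext z
    rw [mem_filter, mem_N0, mem_union, mem_erase, mem_erase, mem_erase, mem_erase]
    constructor
    · rintro ⟨⟨h1, h2, h3⟩, h4⟩
      have h5 := fun hh => h3 ((Q.hK z h2).2 hh)
      rcases (kf_site Q.H hl).1 ⟨h1, h4⟩ with h | h
      · exact Or.inl ⟨fun e => h5 (by tauto), fun e => h5 (by tauto), h⟩
      · exact Or.inr ⟨fun e => h5 (by tauto), fun e => h5 (by tauto), h⟩
    · have lw := Q.lw
      have lw' := Q.lw'
      have lv := Q.lv
      have lv' := Q.lv'
      rintro (⟨h1, h1', h2⟩ | ⟨h1, h1', h2⟩)
      · obtain ⟨h3, h4⟩ := (kf_site Q.H hl).2 (Or.inl h2)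
        have h5 := near_C Q hy hl (Or.inl h2)
        have h7 := lev_cov Q.H (mem_dc.1 h2)
        refine ⟨⟨h3, h5, fun h6 => ?_⟩, h4⟩
        rcases (Q.hK z h5).1 h6 with h | h | h | h
        · exact h1' h
        · rw [h] at h7
          omega
        · exact h1 h
        · rw [h] at h7
          omega
      · obtain ⟨h3, h4⟩ := (kf_site Q.H hl).2 (Or.inr h2)
        have h5 := near_C Q hy hl (Or.inr h2)
        have h7 := lev_cov Q.H (mem_uc.1 h2)
        refine ⟨⟨h3, h5, fun h6 => ?_⟩, h4⟩
        rcases (Q.hK z h5).1 h6 with h | h | h | h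
        · rw [h] at h7
          omega
        · exact h1' h
        · rw [h] at h7
          omega
        · exact h1 h
  have hd' : Disjoint (((dc y).erase w).erase w') (((uc y).erase v).erase v') :=
    Disjoint.mono ((erase_subset _ _).trans (erase_subset _ _))
      ((erase_subset _ _).trans (erase_subset _ _)) hd
  have key : ∀ (S : Finset P) (a b : P), a ≠ b → (((S.erase a).erase b).card : ℤ) =
      S.card - (if a ∈ S then 1 else 0) - (if b ∈ S then 1 else 0) := by
    intro S a b hab
    have k1 : ∀ (S : Finset P) (a : P), ((S.erase a).card : ℤ) =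
        S.card - (if a ∈ S then 1 else 0) := by
      intro S a
      by_cases h : a ∈ S
      · rw [card_erase_of_mem h, if_pos h]
        have := card_pos.2 ⟨a, h⟩
        omega
      · rw [erase_eq_of_notMem h, if_neg h]
        omega
    rw [k1, k1]
    have : b ∈ S.erase a ↔ b ∈ S := by
      rw [mem_erase]
      exact ⟨fun h => h.2, fun h => ⟨hab.symm, h⟩⟩
    simp only [this]
  have m1 : ∀ a : P, a ∈ dc y ↔ y ∈ uc a := fun a => by rw [mem_dc, mem_uc]
  have m2 : ∀ a : P, a ∈ uc y ↔ y ∈ dc a := fun a => by rw [mem_dc, mem_uc]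
  unfold dg
  rw [e1, card_union_of_disjoint hd']
  push_cast
  rw [key _ _ _ Q.nww, key _ _ _ Q.nvv]
  simp only [m1, m2]
  ring

/-- the matched lower doubles over a pair, two stars -/
theorem K9_mm {a b : P} (ha : a ∈ C) (hl : lev a = i) (hab : a ≠ b) :
    W4.mm i K C {a, b} = (dcv a b : ℤ) - (if uc w = {a, b} then 1 else 0) -
      (if uc w' = {a, b} then 1 else 0) := by
  classical
  have e1 : (N0 i K C).filter (fun z => z ∈ dbL P i ∧ nz i z ⊆ {a, b}) =
      ((univ.filter (fun y : P => y ⋖ a ∧ y ⋖ b)).erase w).erase w' := by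
    ext z
    rw [mem_filter, mem_N0, mem_erase, mem_erase, mem_filter]
    constructor
    · rintro ⟨⟨h1, h2, h3⟩, h4, h5⟩
      obtain ⟨h6, h7⟩ := mem_dbL.1 h4
      rw [nz_low h6] at h5
      have h8 : uc z = {a, b} := by
        refine eq_of_subset_of_card_le h5 ?_
        rw [card_pair hab, h7]
      have h9 := fun hh => h3 ((Q.hK z h2).2 hh)
      refine ⟨fun e => h9 (by tauto), fun e => h9 (by tauto), mem_univ _, ?_, ?_⟩
      · exact mem_uc.1 (by rw [h8]; exact mem_insert_self _ _)
      · exact mem_uc.1 (by rw [h8]; exact mem_insert_of_mem (mem_singleton_self _))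
    · rintro ⟨h1', h1, -, h2, h3⟩
      have h4 := StB_uc_pair Q.H h2 h3 hab
      have h5 := lev_cov Q.H h2
      have h6 : lev z = i + 1 := by omega
      have h7 : z ∈ dbL P i := mem_dbL.2 ⟨h6, by rw [h4, card_pair hab]⟩
      have h8 := near_C Q ha hl (Or.inl (mem_dc.2 h2))
      refine ⟨⟨mem_near.2 (Or.inl h6), h8, fun h9 => ?_⟩, h7, by rw [nz_low h6, h4]⟩
      have lv := Q.lv
      have lv' := Q.lv'
      rcases (Q.hK z h8).1 h9 with h | h | h | h
      · exact h1 h
      · rw [h] at h6
        omega
      · exact h1' h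
      · rw [h] at h6
        omega
  have e2 : ∀ w : P, (uc w = {a, b}) ↔ w ∈ univ.filter (fun y : P => y ⋖ a ∧ y ⋖ b) := by
    intro w
    rw [mem_filter]
    constructor
    · intro h1
      refine ⟨mem_univ _, mem_uc.1 ?_, mem_uc.1 ?_⟩
      · rw [h1]; exact mem_insert_self _ _
      · rw [h1]; exact mem_insert_of_mem (mem_singleton_self _)
    · rintro ⟨-, h1, h2⟩
      exact StB_uc_pair Q.H h1 h2 hab
  have e3 : W4.mm i K C {a, b} = (((N0 i K C).filter
      (fun z => z ∈ dbL P i ∧ nz i z ⊆ {a, b})).card : ℤ) := rfl
  have e4 : dcv a b = (univ.filter (fun y : P => y ⋖ a ∧ y ⋖ b)).card := rfl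
  have key : ∀ (S : Finset P) (a b : P), a ≠ b → (((S.erase a).erase b).card : ℤ) =
      S.card - (if a ∈ S then 1 else 0) - (if b ∈ S then 1 else 0) := by
    intro S a b hab
    have k1 : ∀ (S : Finset P) (a : P), ((S.erase a).card : ℤ) =
        S.card - (if a ∈ S then 1 else 0) := by
      intro S a
      by_cases h : a ∈ S
      · rw [card_erase_of_mem h, if_pos h]
        have := card_pos.2 ⟨a, h⟩
        omega
      · rw [erase_eq_of_notMem h, if_neg h]
        omega
    rw [k1, k1]
    have : b ∈ S.erase a ↔ b ∈ S := by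
      rw [mem_erase]
      exact ⟨fun h => h.2, fun h => ⟨hab.symm, h⟩⟩
    simp only [this]
  rw [e3, e1, key _ _ _ Q.nww, e4]
  simp only [e2]

end

/-! ### the mirror image -/

lemma ucv_comm' (a b : P) : ucv a b = ucv b a := by
  classical
  unfold ucv
  congr 1
  ext y
  simp only [mem_filter, mem_univ, true_and]
  exact and_comm

lemma prow_mirror (W : PRow r i C m x) (hm : 1 ≤ m) : PRow r i C m (fun k => x (m - k)) where
  H := W.H
  hi := W.hi
  hi2 := W.hi2
  hC := W.hC
  lev_x := fun k _ => W.lev_x (m - k) (by omega)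
  inj := fun k l hk hl e => by
    have := W.inj (m - k) (m - l) (by omega) (by omega) e
    omega
  mem := fun k _ => W.mem (m - k) (by omega)
  surj := fun y hy hl => by
    obtain ⟨k, hk, e⟩ := W.surj y hy hl
    refine ⟨m - k, by omega, ?_⟩
    show x (m - (m - k)) = y
    rw [show m - (m - k) = k by omega, e]
  up := fun k l hkl hl => by
    show ucv (x (m - k)) (x (m - l)) = _
    rw [ucv_comm', W.up (m - l) (m - k) (by omega) (by omega)]
    by_cases h : l = k + 1
    · rw [if_pos h, if_pos (by omega)]
    · rw [if_neg h, if_neg (by omega)]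
  up1 := W.up1
  pu := fun a h1 h2 y hy hy' z hz => by
    refine W.pu (m - a - 1) (by omega) (by omega) y ?_ ?_ z hz
    · have : x (m - (a + 1)) ⋖ y := hy'
      rwa [show m - (a + 1) = m - a - 1 by omega] at this
    · have : x (m - a) ⋖ y := hy
      rwa [show m - a - 1 + 1 = m - a by omega]
  uc1 := W.uc1
  pen0 := fun a h1 h2 => W.pen0 (m - a) (by omega) (by omega)
  e0 := fun h0 u h1 h2 => by
    have h0' : (uc (x (m - 0))).card = 2 := h0
    have h1' : x (m - 0) ⋖ u := h1
    rw [Nat.sub_zero] at h0' h1'
    exact W.em h0' u h2 h1'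
  em := fun h0 u h1 h2 => by
    have h0' : (uc (x (m - m))).card = 2 := h0
    have h1' : x (m - (m - 1)) ⋖ u := h1
    have h2' : x (m - m) ⋖ u := h2
    rw [show m - m = 0 by omega] at h0' h2'
    rw [show m - (m - 1) = 1 by omega] at h1'
    exact W.e0 h0' u h2' h1'
  cl := W.cl
  zu := W.zu

lemma ed_mirror {k : ℕ} (hk : k < m) : ed (fun k => x (m - k)) k = ed x (m - 1 - k) := by
  unfold ed
  show ({x (m - k), x (m - (k + 1))} : Finset P) = _
  rw [pair_comm, show m - (k + 1) = m - 1 - k by omega, show m - 1 - k + 1 = m - k by omega]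

lemma NE_mirror {k : ℕ} (hk : k < m) : NE i C (fun k => x (m - k)) k = NE i C x (m - 1 - k) := by
  rw [NE_eq, NE_eq, ed_mirror hk]

/-! ### the value of `F` -/

end Pool.Agent.GaussPoset.Win.Pb

end
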