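import Mathlib
import Pool.Agent.W_448zz_h61.Ns
import Pool.Agent.W_448zz_h61.M155
import Pool.Agent.W_448zz_h61.M162
import Pool.Agent.W_448zz_h61.M164
import Pool.Agent.W_448zz_h61.M165

/-! From `Pool.Agent.W_448rd_h10.RdX` -/

section

/-!
MP_448cb3_co, G2, window `j - 1`: the leftover sum of the energy three; the leftover sums are the
sums of the charges.  helper10.
-/

namespace Pool.Agent.GaussPoset.Win.Rd

set_option linter.unusedSectionVars false

open Finset I2 K2
open Pool.Agent.GaussPoset.Win.H2 (SdT NoT low_T up_T sum_all)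
open Pool.Agent.GaussPoset.Win.Xg (FlS Zr LoP UpP FP rm rm_le rm_of rm_y rm_p Okc Adm kp Lft mem_Lft)
open Pool.Agent.GaussPoset.Win.SO (con on Num num_Chs num_ZL num_ZU num_FL num_FU Chs_cases
  self_con mem_con con_sub con_cls con_step sit_con sit_sub sit_ne FL_data FU_data con_FL con_FU
  con_two_low con_two_upp BL BU nL nU mem_BL mem_BU PN mem_PN)
open Pool.Agent.GaussPoset.Win.Pn (on_one on_zero on_pos core_on adm_on kp_on cc_on cc_none)

universe u

variable {P : Type u} [Fintype P] [PartialOrder P] [DecidableEq P] {r i : ℕ} {e B : P → ℕ}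
variable {psi : P → P} {C : Finset P} {Q : (P → ℕ) → Prop} {t : P × P} {y p w u v v' a : P}

section four

variable (H : Gr P r) (F : FlS i y p w u v v')
include H F

lemma four_sum (f g : P → ℤ) (hf : ∀ a, a = y ∨ a = p ∨ a = v ∨ a = v' → f a = if a = y then 1 else -1)
    (hg : ∀ a, a = w ∨ a = u ∨ a = v ∨ a = v' → g a = if a = w then -1 else 1) :
    ∑ a ∈ ({y, p, v, v'} : Finset P), f a + ∑ a ∈ ({w, u, v, v'} : Finset P), g a = 0 := by
  have hlv := F.lv H
  obtain ⟨n1, n2, n3, n4, n5, n6⟩ := F.nes H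
  have ly := F.ly
  have lw := F.lw
  have hvy : v ≠ y := by rintro rfl; omega
  have hvp : v ≠ p := by rintro rfl; omega
  have hvy' : v' ≠ y := by rintro rfl; omega
  have hvp' : v' ≠ p := by rintro rfl; omega
  have hvw : v ≠ w := by rintro rfl; omega
  have hvu : v ≠ u := by rintro rfl; omega
  have hvw' : v' ≠ w := by rintro rfl; omega
  have hvu' : v' ≠ u := by rintro rfl; omega
  rw [sum_insert (by simp [n2, hvy.symm, hvy'.symm]), sum_insert (by simp [hvp.symm, hvp'.symm]),
    sum_insert (by simp [F.ne]), sum_singleton,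
    sum_insert (by simp [n5, hvw.symm, hvw'.symm]), sum_insert (by simp [hvu.symm, hvu'.symm]),
    sum_insert (by simp [F.ne]), sum_singleton]
  rw [hf y (by tauto), hf p (by tauto), hf v (by tauto), hf v' (by tauto), hg w (by tauto),
    hg u (by tauto), hg v (by tauto), hg v' (by tauto), if_pos rfl, if_neg n2.symm, if_neg hvy,
    if_neg hvy', if_pos rfl, if_neg n5.symm, if_neg hvw, if_neg hvw']
  norm_num

end four

section main

variable (E : Ev r i psi C) (K : Kls i psi C Q)
include E K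

/-- the leftover sum of the energy three, with a test -/
theorem sum30R (R : (P → ℕ) → Prop) [DecidablePred R] (M : P → Prop) [DecidablePred M]
    (hM : ∀ z ∈ Chs i C, (R (on (con i z)) ↔ M z))
    (hR : ∀ y p w u v v' : P, FlS i y p w u v v' → y ∈ C → p ∈ C → w ∈ C → u ∈ C → ∃ b : Prop,
      (∀ a, a = y ∨ a = p ∨ a = v ∨ a = v' → (R (pa y p a) ↔ b)) ∧
      (∀ a, a = w ∨ a = u ∨ a = v ∨ a = v' → (R (pa w u a) ↔ b))) :
    ∑ e ∈ (Lft i psi C Q 3 0).filter R, sg i e = ∑ z ∈ (Chs i C).filter M, chg i C z := by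
  classical
  have H := E.H
  set g : P → P → ℕ := fun z => on (con i z) with hg
  have hI : ((Lft i psi C Q 3 0).filter R).filter (fun e => e ∈ (Chs i C).image g) =
      ((Chs i C).filter M).image g := by
    ext e
    rw [mem_filter, mem_filter, mem_image, mem_image]
    constructor
    · rintro ⟨⟨h1, h2⟩, z, hz, rfl⟩
      exact ⟨z, mem_filter.2 ⟨hz, (hM z hz).1 h2⟩, rfl⟩
    · rintro ⟨z, hz, rfl⟩
      obtain ⟨h1, h2⟩ := mem_filter.1 hz
      exact ⟨⟨(chs_mem E K h1).1, (hM z h1).2 h2⟩, z, h1, rfl⟩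
  have hsplit := sum_filter_add_sum_filter_not ((Lft i psi C Q 3 0).filter R)
    (fun e => e ∈ (Chs i C).image g) (fun e => sg i e)
  rw [hI, sum_image (fun z hz z' hz' h =>
    con_inj H (mem_filter.1 hz).1 (mem_filter.1 hz').1 h)] at hsplit
  have h1 : ∑ z ∈ (Chs i C).filter M, sg i (g z) = ∑ z ∈ (Chs i C).filter M, chg i C z :=
    sum_congr rfl fun z hz => (chs_mem E K (mem_filter.1 hz).1).2
  rw [h1] at hsplit
  rw [← hsplit]
  suffices h2 : ∑ e ∈ ((Lft i psi C Q 3 0).filter R).filter (fun e => e ∉ (Chs i C).image g),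
      sg i e = 0 by rw [h2, add_zero]
  -- the rest
  have e3 : ∀ e ∈ Lft i psi C Q 3 0, (∀ q ∈ PN i C, e q = 0) → e ∈ (Chs i C).image g := by
    intro e he h0
    obtain ⟨b1, ho, b3, b4, b5⟩ := mem_Lft.1 he
    obtain ⟨z, h3, h4⟩ := Pn.e3_class E.fr ho b1 (by rw [b3]; norm_num) h0
    rw [mem_image]
    refine ⟨z, ?_, h4.symm⟩
    unfold Chs
    rcases h3 with h3 | h3
    · simp [h3]
    · simp [h3]
  rcases K with ⟨h, hQ⟩ | ⟨y, p, w, u, v, v', F, h5, ⟨my, mp, mw, mu⟩, h7, h8, h9⟩
  · apply sum_eq_zero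
    intro e he
    exfalso
    obtain ⟨h3, h4⟩ := mem_filter.1 he
    apply h4
    apply e3 e (mem_filter.1 h3).1
    intro q hq
    obtain ⟨q1, q2⟩ := mem_PN.1 hq
    rcases q2 with q2 | q2
    · exact absurd q2 (h q q1).1
    · exact absurd q2 (h q q1).2
  · obtain ⟨b, hb1, hb2⟩ := hR y p w u v v' F my mp mw mu
    have hlv := F.lv H
    obtain ⟨n1, n2, n3, n4, n5, n6⟩ := F.nes H
    have ly := F.ly
    have lw := F.lw
    have c1 : (uc y).card = 2 := by rw [F.uy, card_pair F.ne]
    have c2 : (dc w).card = 2 := by rw [F.dw, card_pair F.ne]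
    set Lo := ({y, p, v, v'} : Finset P).image (pa y p) with hLo
    set Up := ({w, u, v, v'} : Finset P).image (pa w u) with hUp
    have mLo : ∀ {e}, e ∈ Lo ↔ ∃ a, (a = y ∨ a = p ∨ a = v ∨ a = v') ∧ e = pa y p a := by
      intro e
      rw [hLo, mem_image]
      simp only [mem_insert, mem_singleton]
      constructor
      · rintro ⟨a, h1, h2⟩
        exact ⟨a, h1, h2.symm⟩
      · rintro ⟨a, h1, h2⟩
        exact ⟨a, h1, h2.symm⟩
    have mUp : ∀ {e}, e ∈ Up ↔ ∃ a, (a = w ∨ a = u ∨ a = v ∨ a = v') ∧ e = pa w u a := by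
      intro e
      rw [hUp, mem_image]
      simp only [mem_insert, mem_singleton]
      constructor
      · rintro ⟨a, h1, h2⟩
        exact ⟨a, h1, h2.symm⟩
      · rintro ⟨a, h1, h2⟩
        exact ⟨a, h1, h2.symm⟩
    -- every element of the rest is a variant
    have hcl : ∀ e ∈ Lft i psi C Q 3 0, e ∉ (Chs i C).image g → e ∈ Lo ∨ e ∈ Up := by
      intro e he hI
      rw [h9] at he
      by_cases hp : 1 ≤ e p
      · rcases lo_class E F h5 h7 he hp with h | ⟨z, hz, hez⟩
        · exact Or.inl (mLo.2 h)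
        · exfalso
          apply hI
          rw [mem_image]
          exact ⟨z, by unfold Chs; simp [hz], hez.symm⟩
      · by_cases hu : 1 ≤ e u
        · rcases up_class E F h5 h8 he hu with h | ⟨z, hz, hez⟩
          · exact Or.inr (mUp.2 h)
          · exfalso
            apply hI
            rw [mem_image]
            exact ⟨z, by unfold Chs; simp [hz], hez.symm⟩
        · exfalso
          apply hI
          rw [← h9] at he
          apply e3 e he
          intro q hq
          obtain ⟨q1, q2⟩ := mem_PN.1 hq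
          rcases q2 with q2 | q2
          · rw [h7 q q1 q2]
            omega
          · rw [h8 q q1 q2]
            omega
    by_cases hb : b
    · have hS : ((Lft i psi C Q 3 0).filter R).filter (fun e => e ∉ (Chs i C).image g) =
          Lo ∪ Up := by
        ext e
        rw [mem_filter, mem_filter, mem_union]
        constructor
        · rintro ⟨⟨h1, h2⟩, h3⟩
          exact hcl e h1 h3
        · rintro (h | h)
          · obtain ⟨a, ha, rfl⟩ := mLo.1 h
            refine ⟨⟨?_, (hb1 a ha).2 hb⟩, ?_⟩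
            · rw [h9]
              exact pa_mem E F my mp ha
            · rw [mem_image]
              rintro ⟨z, hz, hez⟩
              have hez' : (on (con i z) : P → ℕ) = pa y p a := hez
              have N := num_Chs H hz
              have hp : p ∈ con i z := by
                rw [← on_pos, hez']
                unfold pa
                rw [if_pos (Or.inr rfl)]
                omega
              obtain ⟨-, -, a3, a4, a5⟩ := con_pen H hz hp (by omega) F.up c1 F.ly
              have hz1 : 1 ≤ pa y p a z := by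
                rw [← hez', on_one (self_con N.ns)]
              rcases pa_pos hz1 with h | h | h
              · exact a4 h
              · exact a3 h
              · rw [h] at a5
                rcases ha with h' | h' | h' | h' <;> (rw [h'] at a5; omega)
          · obtain ⟨a, ha, rfl⟩ := mUp.1 h
            refine ⟨⟨?_, (hb2 a ha).2 hb⟩, ?_⟩
            · rw [h9]
              exact pa_memU E F mw mu ha
            · rw [mem_image]
              rintro ⟨z, hz, hez⟩
              have hez' : (on (con i z) : P → ℕ) = pa w u a := hez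
              have N := num_Chs H hz
              have hp : u ∈ con i z := by
                rw [← on_pos, hez']
                unfold pa
                rw [if_pos (Or.inr rfl)]
                omega
              obtain ⟨-, -, a3, a4, a5⟩ := con_penU H hz hp (by omega) F.du c2 F.lw
              have hz1 : 1 ≤ pa w u a z := by
                rw [← hez', on_one (self_con N.ns)]
              rcases pa_pos hz1 with h | h | h
              · exact a4 h
              · exact a3 h
              · rw [h] at a5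
                rcases ha with h' | h' | h' | h' <;> (rw [h'] at a5; omega)
      have hd : Disjoint Lo Up := by
        rw [disjoint_left]
        intro e he he'
        obtain ⟨a, ha, h1⟩ := mLo.1 he
        obtain ⟨a', ha', h2⟩ := mUp.1 he'
        have h3 : 1 ≤ e p := by
          rw [h1]
          unfold pa
          rw [if_pos (Or.inr rfl)]
          omega
        rw [h2] at h3
        rcases pa_pos h3 with h | h | h
        · exact n4 h.symm
        · exact n6 h
        · rcases ha' with h' | h' | h' | h' <;> (rw [h, h'] at hlv; omega)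
      rw [hS, sum_union hd, hLo, hUp, sum_image (fun _ _ _ _ h => pa_inj h),
        sum_image (fun _ _ _ _ h => pa_inj h)]
      exact four_sum H F _ _ (fun a ha => (pa_low E F ha).2.2) (fun a ha => (pa_upp E F ha).2.2)
    · apply sum_eq_zero
      intro e he
      exfalso
      obtain ⟨h3, h4⟩ := mem_filter.1 he
      obtain ⟨h3, h6⟩ := mem_filter.1 h3
      rcases hcl e h3 h4 with h | h
      · obtain ⟨a, ha, rfl⟩ := mLo.1 h
        exact hb ((hb1 a ha).1 h6)
      · obtain ⟨a, ha, rfl⟩ := mUp.1 h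
        exact hb ((hb2 a ha).1 h6)

/-- the leftover sum of the energy three -/
theorem sum30 : ∑ e ∈ Lft i psi C Q 3 0, sg i e = ∑ z ∈ Chs i C, chg i C z := by
  classical
  have := sum30R E K (fun _ => True) (fun _ => True) (fun _ _ => Iff.rfl)
    (fun _ _ _ _ _ _ _ _ _ _ _ => ⟨True, fun _ _ => Iff.rfl, fun _ _ => Iff.rfl⟩)
  simpa using this

omit K in
/-- compatibility of the variants -/
lemma cpt_pa (F : FlS i y p w u v v') (T : IsTw i C t) (ha : a = y ∨ a = p ∨ a = v ∨ a = v') :
    Cpt t (pa y p a) ↔ Disjoint ({v, v'} : Finset P) (XT t) := by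
  classical
  have H := E.H
  have hlv := F.lv H
  obtain ⟨n1, n2, n3, n4, n5, n6⟩ := F.nes H
  have ly := F.ly
  have lw := F.lw
  obtain ⟨w1, w2, p1, x1, q1, T'⟩ := T.tw
  have hl := T'.lv H
  have hW : WT t = {t.1, t.2, w1, w2} := T'.W
  have hX : XT t = {p1, x1, q1} := T'.X
  have lX : ∀ s ∈ XT t, lev s = i := by
    intro s hs
    rw [hX, mem_insert, mem_insert, mem_singleton] at hs
    rcases hs with rfl | rfl | rfl <;> omega
  have sW : ∀ s ∈ WT t, (lev s = i + 1 ∧ uc s ⊆ XT t) ∨ (lev s = i + 2 ∧ (uc s).card = 2) := by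
    intro s hs
    rw [hW, mem_insert, mem_insert, mem_insert, mem_singleton] at hs
    have lz := T'.lz
    rcases hs with rfl | rfl | rfl | rfl
    · right
      exact ⟨lz, by rw [T'.uz, card_pair T'.ww]⟩
    · right
      exact ⟨by omega, by rw [T'.uz', card_pair T'.ww]⟩
    · left
      refine ⟨by omega, ?_⟩
      rw [T'.uw, hX]
      intro b hb
      rw [mem_insert, mem_singleton] at hb
      rcases hb with rfl | rfl <;> simp
    · left
      refine ⟨by omega, ?_⟩
      rw [T'.uw2, hX]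
      intro b hb
      rw [mem_insert, mem_singleton] at hb
      rcases hb with rfl | rfl <;> simp
  have vv : ∀ s ∈ uc y, s = v ∨ s = v' := by
    intro s hs
    rw [F.uy, mem_insert, mem_singleton] at hs
    exact hs
  constructor
  · intro h
    rw [disjoint_left]
    intro s hs hs'
    have h1 : y ∈ dc s := by
      rw [mem_dc, ← mem_uc, F.uy]
      exact hs
    have h2 := (h.X s hs').2.1 y h1
    unfold pa at h2
    rw [if_pos (Or.inl rfl)] at h2
    omega
  · intro h
    have yW : y ∉ WT t := by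
      intro hy
      rcases sW y hy with ⟨-, h1⟩ | ⟨h1, -⟩
      · exact disjoint_left.1 h (show v ∈ ({v, v'} : Finset P) by simp) (h1 (by rw [F.uy]; simp))
      · omega
    have pW : p ∉ WT t := by
      intro hp
      rcases sW p hp with ⟨h1, -⟩ | ⟨-, h1⟩
      · omega
      · rw [F.up, card_singleton] at h1
        omega
    have aX : ∀ s, s = y ∨ s = p ∨ s = a → s ∉ XT t := by
      intro s hs hs'
      have := lX s hs'
      rcases hs with h1 | h1 | h1
      · rw [h1] at this
        omega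
      · rw [h1] at this
        omega
      · rcases ha with h2 | h2 | h2 | h2
        · rw [h1, h2] at this
          omega
        · rw [h1, h2] at this
          omega
        · exact disjoint_left.1 h (show v ∈ ({v, v'} : Finset P) by simp) (by rw [← h2, ← h1]; exact hs')
        · exact disjoint_left.1 h (show v' ∈ ({v, v'} : Finset P) by simp) (by rw [← h2, ← h1]; exact hs')
    have la : a = y ∨ a = p ∨ lev a = i := by
      rcases ha with h2 | h2 | h2 | h2
      · exact Or.inl h2
      · exact Or.inr (Or.inl h2)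
      · right; right
        rw [h2]
        exact hlv.1
      · right; right
        rw [h2]
        exact hlv.2.1
    -- only y, p, or sites
    have hp3 : ∀ s, 1 ≤ pa y p a s → s = y ∨ s = p ∨ (s = a ∧ lev s = i) := by
      intro s hs
      rcases pa_pos hs with h1 | h1 | h1
      · exact Or.inl h1
      · exact Or.inr (Or.inl h1)
      · rcases la with h2 | h2 | h2
        · exact Or.inl (h1.trans h2)
        · exact Or.inr (Or.inl (h1.trans h2))
        · exact Or.inr (Or.inr ⟨h1, by rw [h1]; exact h2⟩)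
    have z0 : ∀ s, ¬ 1 ≤ pa y p a s → pa y p a s = 0 := fun s h => by omega
    refine ⟨fun s hs => ⟨z0 s fun h1 => ?_, fun c hc => z0 c fun h1 => ?_⟩,
      fun s hs => ⟨z0 s fun h1 => aX s (pa_pos h1) hs, fun c hc => z0 c fun h1 => ?_,
        fun c hc => z0 c fun h1 => ?_⟩⟩
    · rcases hp3 s h1 with h2 | h2 | ⟨-, h2⟩
      · exact yW (by rw [← h2]; exact hs)
      · exact pW (by rw [← h2]; exact hs)
      · rcases sW s hs with h3 | h3 <;> omega
    · have lc := lev_dc H hc
      rcases hp3 c h1 with h2 | h2 | ⟨-, h2⟩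
      · rcases sW s hs with h3 | h3 <;> (rw [h2] at lc; omega)
      · have h3 : s = y := by
          have h4 : s ∈ uc p := by
            rw [mem_uc, ← mem_dc, ← h2]
            exact hc
          rw [F.up, mem_singleton] at h4
          exact h4
        exact yW (by rw [← h3]; exact hs)
      · rcases sW s hs with h3 | h3 <;> omega
    · have lc := lev_dc H hc
      have ls := lX s hs
      rcases hp3 c h1 with h2 | h2 | ⟨-, h2⟩
      · have h3 : s ∈ uc y := by
          rw [mem_uc, ← mem_dc, ← h2]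
          exact hc
        rcases vv s h3 with h4 | h4
        · exact disjoint_left.1 h (show v ∈ ({v, v'} : Finset P) by simp) (by rw [← h4]; exact hs)
        · exact disjoint_left.1 h (show v' ∈ ({v, v'} : Finset P) by simp) (by rw [← h4]; exact hs)
      · rw [h2] at lc
        omega
      · omega
    · have lc := lev_uc H hc
      have ls := lX s hs
      rcases hp3 c h1 with h2 | h2 | ⟨-, h2⟩
      · rw [h2] at lc
        omega
      · rw [h2] at lc
        omega
      · omega

omit K in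
/-- compatibility of the upper variants -/
lemma cpt_paU (F : FlS i y p w u v v') (T : IsTw i C t) (ha : a = w ∨ a = u ∨ a = v ∨ a = v') :
    Cpt t (pa w u a) ↔ Disjoint ({v, v'} : Finset P) (XT t) := by
  classical
  have H := E.H
  have hlv := F.lv H
  obtain ⟨n1, n2, n3, n4, n5, n6⟩ := F.nes H
  have ly := F.ly
  have lw := F.lw
  obtain ⟨w1, w2, p1, x1, q1, T'⟩ := T.tw
  have hl := T'.lv H
  have hW : WT t = {t.1, t.2, w1, w2} := T'.W
  have hX : XT t = {p1, x1, q1} := T'.X
  have lX : ∀ s ∈ XT t, lev s = i := by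
    intro s hs
    rw [hX, mem_insert, mem_insert, mem_singleton] at hs
    rcases hs with rfl | rfl | rfl <;> omega
  have lW : ∀ s ∈ WT t, lev s = i + 1 ∨ lev s = i + 2 := by
    intro s hs
    rw [hW, mem_insert, mem_insert, mem_insert, mem_singleton] at hs
    have lz := T'.lz
    rcases hs with rfl | rfl | rfl | rfl <;> omega
  constructor
  · intro h
    rw [disjoint_left]
    intro s hs hs'
    have h1 : w ∈ uc s := by
      rw [mem_uc, ← mem_dc, F.dw]
      exact hs
    have h2 := (h.X s hs').2.2 w h1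
    unfold pa at h2
    rw [if_pos (Or.inl rfl)] at h2
    omega
  · intro h
    have aX : ∀ s, s = w ∨ s = u ∨ s = a → s ∉ XT t := by
      intro s hs hs'
      have := lX s hs'
      rcases hs with h1 | h1 | h1
      · rw [h1] at this
        omega
      · rw [h1] at this
        omega
      · rcases ha with h2 | h2 | h2 | h2
        · rw [h1, h2] at this
          omega
        · rw [h1, h2] at this
          omega
        · exact disjoint_left.1 h (show v ∈ ({v, v'} : Finset P) by simp) (by rw [← h2, ← h1]; exact hs')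
        · exact disjoint_left.1 h (show v' ∈ ({v, v'} : Finset P) by simp) (by rw [← h2, ← h1]; exact hs')
    have hp3 : ∀ s, 1 ≤ pa w u a s → s = w ∨ s = u ∨ (lev s = i) := by
      intro s hs
      rcases pa_pos hs with h1 | h1 | h1
      · exact Or.inl h1
      · exact Or.inr (Or.inl h1)
      · rcases ha with h2 | h2 | h2 | h2
        · exact Or.inl (h1.trans h2)
        · exact Or.inr (Or.inl (h1.trans h2))
        · right; right
          rw [h1, h2]
          exact hlv.1
        · right; right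
          rw [h1, h2]
          exact hlv.2.1
    have z0 : ∀ s, ¬ 1 ≤ pa w u a s → pa w u a s = 0 := fun s h => by omega
    refine ⟨fun s hs => ⟨z0 s fun h1 => ?_, fun c hc => z0 c fun h1 => ?_⟩,
      fun s hs => ⟨z0 s fun h1 => aX s (pa_pos h1) hs, fun c hc => z0 c fun h1 => ?_,
        fun c hc => z0 c fun h1 => ?_⟩⟩
    · have := lW s hs
      rcases hp3 s h1 with h2 | h2 | h2
      · rw [h2] at this
        omega
      · rw [h2] at this
        omega
      · omega
    · have := lW s hs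
      have lc := lev_dc H hc
      rcases hp3 c h1 with h2 | h2 | h2
      · rw [h2] at lc
        omega
      · rw [h2] at lc
        omega
      · omega
    · have lc := lev_dc H hc
      have ls := lX s hs
      rcases hp3 c h1 with h2 | h2 | h2
      · rw [h2] at lc
        omega
      · rw [h2] at lc
        omega
      · omega
    · have lc := lev_uc H hc
      have ls := lX s hs
      rcases hp3 c h1 with h2 | h2 | h2
      · have h3 : s ∈ dc w := by
          rw [mem_dc, ← mem_uc, ← h2]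
          exact hc
        rw [F.dw] at h3
        exact disjoint_left.1 h h3 hs
      · rw [h2] at lc
        omega
      · omega

open Classical in
/-- the leftover cores of the energy three which are compatible with the twins -/
theorem sum30c (T : IsTw i C t) :
    ∑ B ∈ (Lft i psi C Q 3 0).filter (fun B => Cpt t B), sg i B =
      ∑ z ∈ (Chs i C).filter (fun z => Disjoint (sit i z) (XT t)), chg i C z := by
  classical
  have H := E.H
  refine sum30R E K _ _ (fun z hz => cpt_con H E.hr T (num_Chs H hz).ns) ?_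
  intro y p w u v v' F my mp mw mu
  exact ⟨_, fun a ha => cpt_pa E F T ha, fun a ha => cpt_paU E F T ha⟩

end main

end Pool.Agent.GaussPoset.Win.Rd

end

/-! From `Pool.Agent.W_448rd_h10.RdY` -/

section

/-!
MP_448cb3_co, G2, window `j - 1`: the leading coefficients (3,1), (5,2), (8,3), (10,4) of a part
with at least four sites.  helper10.
-/

namespace Pool.Agent.GaussPoset.Win.Rd

set_option linter.unusedSectionVars false

open Finset I2 K2
open Pool.Agent.GaussPoset.Win.H2 (SdT NoT low_T up_T sum_all)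
open Pool.Agent.GaussPoset.Win.Xg (FlS FP Okc Adm kp Lft mem_Lft)

universe u

variable {P : Type u} [Fintype P] [PartialOrder P] [DecidableEq P] {r i : ℕ} {e B : P → ℕ}
variable {psi : P → P} {C : Finset P} {Q : (P → ℕ) → Prop} {φ : (P → ℕ) → (P → ℕ)}
variable {y p w u v v' : P}

lemma Cls.ev (K : Cls r i psi C Q φ) : Ev r i psi C := ⟨K.G, K.hT, K.hQ, K.hM, K.hi, K.hC⟩

lemma NoP.kls (h : NoP i C) : Kls i psi C (fun _ => False) := Or.inl ⟨fun z hz => h z hz, rfl⟩

lemma OneP.kls (O : OneP i psi C y p w u v v') : Kls i psi C (FP y p w u v v') :=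
  Or.inr ⟨y, p, w, u, v, v', O.F, O.hy, ⟨O.my, O.mp, O.mw, O.mu⟩, O.low, O.upp, rfl⟩

/-- leading coefficient from a divisibility -/
lemma coeff_lead {b k : ℕ} (hk : k + 1 ≤ b) {F G : A} {c : ℤ} (h1 : dd ^ (b - k) ∣ F - G)
    (h2 : dd ^ (b - k) ∣ G - (c : A) * dd ^ (b - (k + 1))) :
    PowerSeries.coeff b (dd ^ (k + 1) * F : A) = c := by
  have h3 : dd ^ (b - k) ∣ F - (c : A) * dd ^ (b - (k + 1)) := by
    have := dvd_add h1 h2
    have h4 : F - G + (G - (c : A) * dd ^ (b - (k + 1))) = F - (c : A) * dd ^ (b - (k + 1)) := by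
      ring
    rwa [h4] at this
  obtain ⟨X, hX⟩ := h3
  have h5 : dd ^ (k + 1) * F = dd ^ b * ((c : A) + dd * X) := by
    have h6 : F = (c : A) * dd ^ (b - (k + 1)) + dd ^ (b - k) * X := by
      rw [← hX]
      ring
    have e1 : dd ^ b = dd ^ (k + 1) * dd ^ (b - (k + 1)) := by
      rw [← pow_add]
      congr 1
      omega
    have e2 : dd ^ (b - k) = dd ^ (b - (k + 1)) * dd := by
      rw [← pow_succ]
      congr 1
      omega
    rw [h6, e2, e1]
    ring
  rw [h5]
  unfold dd
  have h7 := PowerSeries.coeff_X_pow_mul ((c : A) + PowerSeries.X * X) b 0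
  rw [zero_add] at h7
  rw [h7, PowerSeries.coeff_zero_eq_constantCoeff, map_add, map_mul, PowerSeries.constantCoeff_X,
    zero_mul, add_zero]
  simp

section main

variable (K : Cls r i psi C Q φ) (L : Kls i psi C Q)
include K L

/-- the leading coefficient is the leftover sum -/
lemma cg_lft (h4 : 4 ≤ (st i C).card) {n k : ℕ} (hk : T8.kk n = k + 1) (hk3 : k ≤ 3)
    (h : dd ^ ((st i C).card - k) ∣ ZC i C n - ∑ e ∈ Lft i psi C Q n k, tC i C e) :
    T8.cg n (st i C).card (ZS i C) = ∑ e ∈ Lft i psi C Q n k, sg i e := by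
  have E := K.ev
  unfold T8.cg
  rw [coeff_ZS, hk]
  exact coeff_lead (by omega) h (sum_lead E.H E.part n k)

/-- the energy three -/
theorem Cls.three : dd ^ ((st i C).card - 0) ∣ ZC i C 3 - ∑ e ∈ Lft i psi C Q 3 0, tC i C e := by
  refine K.sum_lft ?_
  intro e ho hs
  have h1 := Pn.Fr.half K.ev.fr ho
  have h2 : ∑ x, (e x : ℤ) ≤ 3 := by exact_mod_cast hs
  rcases Nat.eq_zero_or_pos (Xg.CC i e).card with h3 | h3
  · have h3' : Xg.CC i e = ∅ := card_eq_zero.1 h3
    obtain ⟨p, t, tx, nf, b1, b2, b3, b4, b5, b6, b7⟩ := K.num ho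
    rw [h3'] at b7
    rw [card_empty] at b7
    have ht : t = 0 := by omega
    have htx : tx = 0 := by omega
    have hnf : nf = 0 := by
      rcases b6 with h | h
      · exact h
      · omega
    rw [ht, htx, hnf] at b7
    push_cast at b7
    by_cases h4 : kp i e ≤ 0
    · left
      rw [h3']
      simpa using h4
    · have h5 : kp i e = 1 := by omega
      rcases b2 with hp | hp
      · right; right
        rw [hp] at b7
        push_cast at b7
        refine ⟨?_, by rw [h5]; norm_num, h3'⟩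
        have h6 : ∑ x, (e x : ℤ) = ((∑ x, e x : ℕ) : ℤ) := by push_cast; rfl
        omega
      · right; left
        exact ⟨by rw [h5]; norm_num, hp⟩
  · left
    push_cast
    omega

open Classical in
/-- THE COEFFICIENT (3,1): the sum of the charges -/
theorem Cls.cg3 (h4 : 4 ≤ (st i C).card) :
    T8.cg 3 (st i C).card (ZS i C) = ∑ z ∈ Chs i C, chg i C z := by
  rw [cg_lft K L h4 (k := 0) (by simp [T8.kk]) (by omega) (K.three L)]
  exact sum30 K.ev L

/-- THE COEFFICIENT (5,2): the number of the pairs of twins -/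
theorem Cls.cg5 (h4 : 4 ≤ (st i C).card) :
    T8.cg 5 (st i C).card (ZS i C) = - ((TWC i C).card : ℤ) := by
  rw [cg_lft K L h4 (k := 1) (by simp [T8.kk]) (by omega) K.five]
  exact sum51 K.ev L

open Classical in
/-- THE COEFFICIENT (8,3) -/
theorem Cls.cg8 (h4 : 4 ≤ (st i C).card) :
    T8.cg 8 (st i C).card (ZS i C) = - (∑ t ∈ TWC i C,
      ∑ z ∈ (Chs i C).filter (fun z => Disjoint (sit i z) (XT t)), chg i C z) -
      ((ETs i C).card : ℤ) := by
  rw [cg_lft K L h4 (k := 2) (by simp [T8.kk]) (by omega) K.eight, sum82 K.ev L]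
  congr 2
  refine sum_congr rfl fun t ht => ?_
  exact sum30c K.ev L (mem_TWC.1 ht)

/-- THE COEFFICIENT (10,4) -/
theorem Cls.cg10 (h4 : 4 ≤ (st i C).card) :
    T8.cg 10 (st i C).card (ZS i C) = ((PrT i C).card : ℤ) + ((NfC i C).card : ℤ) := by
  rw [cg_lft K L h4 (k := 3) (by simp [T8.kk]) (by omega) K.ten]
  exact sum103 K.ev L

open Classical in
/-- THE LOGARITHMIC COEFFICIENT (8,3): the charges which meet the twins -/
theorem Cls.Q8 (h4 : 4 ≤ (st i C).card) :
    T8.Q8 (st i C).card (ZS i C) = ((ETs i C).card : ℤ) - ∑ t ∈ TWC i C,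
      ∑ z ∈ (Chs i C).filter (fun z => ¬ Disjoint (sit i z) (XT t)), chg i C z := by
  unfold T8.Q8
  rw [K.cg3 L h4, K.cg5 L h4, K.cg8 L h4]
  have h1 : ∀ t ∈ TWC i C, ∑ z ∈ (Chs i C).filter (fun z => Disjoint (sit i z) (XT t)),
      chg i C z = ∑ z ∈ Chs i C, chg i C z -
        ∑ z ∈ (Chs i C).filter (fun z => ¬ Disjoint (sit i z) (XT t)), chg i C z := by
    intro t _
    have := sum_filter_add_sum_filter_not (Chs i C) (fun z => Disjoint (sit i z) (XT t))
      (fun z => chg i C z)
    linarith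
  rw [sum_congr rfl h1, sum_sub_distrib, sum_const, nsmul_eq_mul]
  ring

/-- THE LOGARITHMIC COEFFICIENT (10,4) -/
theorem Cls.Q10 (h4 : 4 ≤ (st i C).card) :
    T8.Q10 (st i C).card (ZS i C) = ((TWC i C).card : ℤ) ^ 2 - 2 * ((PrT i C).card : ℤ) -
      2 * ((NfC i C).card : ℤ) := by
  unfold T8.Q10
  rw [K.cg5 L h4, K.cg10 L h4]
  ring

/-- the profile -/
theorem Cls.P10 : T8.P10 (st i C).card (ZS i C) := by
  intro n hn
  rw [coeff_ZS]
  have h1 := K.prof10 hn
  have h2 : K10 n = T8.kk n := rfl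
  rw [h2] at h1
  have h3 : (dd : A) ^ (st i C).card ∣ dd ^ (T8.kk n) * dd ^ ((st i C).card - T8.kk n) := by
    rw [← pow_add]
    exact pow_dvd_pow _ (by omega)
  exact h3.trans (mul_dvd_mul_left _ h1)

end main

end Pool.Agent.GaussPoset.Win.Rd

end

/-! From `Pool.Agent.W_448rd_h10.RdZ` -/

section

/-!
MP_448cb3_co, G2, case B, window `j - 1`: the coefficients (8,3), (10,4) of every component with
at least four sites, in terms of the twins, charges and inner joins.  helper10.
-/

namespace Pool.Agent.GaussPoset.Win.Rd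

set_option linter.unusedSectionVars false

open Finset I2 K2
open Pool.Agent.GaussPoset.Win.H2 (SdT NoT low_T up_T sum_all)
open Pool.Agent.GaussPoset.Win.Xg (FlS FP Okc Adm kp Lft mem_Lft)

universe u

variable {P : Type u} [Fintype P] [PartialOrder P] [DecidableEq P] {r i j : ℕ} {e B : P → ℕ}
variable {psi : P → P} {C : Finset P} {Q : (P → ℕ) → Prop} {φ : (P → ℕ) → (P → ℕ)}
variable {y p w u v v' : P} {t : P × P}

lemma sts_bi (H : Gr P r) {z : P} (hz : lev z = i + 2) : sts i z = (uc z).biUnion uc := by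
  ext v
  rw [mem_sts_iff H hz, mem_biUnion]

/-- the sites of twins -/
lemma IsTw.sit (H : Gr P r) (T : IsTw i C t) : XT t = Win.sit i t.1 := by
  obtain ⟨w, w2, p, x, q, T'⟩ := T.tw
  rw [sit_low H (by have := T'.lz; omega), sts_bi H T'.lz]
  rfl

lemma IsTw.tws (H : Gr P r) (T : IsTw i C t) : Pn.Tw i C t.1 t.2 := by
  obtain ⟨w, w2, p, x, q, T'⟩ := T.tw
  refine ⟨mem_ZL.2 ⟨T.m1, T'.lz, ?_⟩, T.m2, T'.zz, by rw [T'.uz, T'.uz'], T.rk⟩
  rw [← card_sts, sts_bi H T'.lz]
  have h1 : (uc t.1).biUnion uc = {p, x, q} := T'.X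
  rw [h1]
  rw [card_insert_of_notMem (by simp [T'.px, T'.pq]), card_insert_of_notMem (by simp [T'.xq]),
    card_singleton]

lemma tws_isTw (E : Ev r i psi C) (T : Pn.Tw i C t.1 t.2) : IsTw i C t := by
  have H := E.H
  obtain ⟨h1, h2, h3⟩ := mem_ZL.1 T.zl
  have h4 := card_uc_of_up H h2 h3
  obtain ⟨w, w2, hne, hw⟩ := card_eq_two.1 h4
  have lw := lev_uc H (show w ∈ uc t.1 by rw [hw]; simp)
  have lw2 := lev_uc H (show w2 ∈ uc t.1 by rw [hw]; simp)
  have c1 := uc_card_le H w
  have c2 := uc_card_le H w2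
  have h5 : (uc w ∪ uc w2).card = 3 := by
    rw [← h3, ← card_sts, sts_bi H h2, hw]
    congr 1
    ext v
    simp [mem_biUnion]
  have h6 := card_union_add_card_inter (uc w) (uc w2)
  -- a common cover
  have h7 : ∃ x, x ∈ uc w ∧ x ∈ uc w2 := by
    by_cases h8 : (uc w).card = 2
    · exact E.hT t.1 h2 w (by rw [hw]; simp) w2 (by rw [hw]; simp) hne h8
    · obtain ⟨x, hx1, hx2⟩ := E.hT t.1 h2 w2 (by rw [hw]; simp) w (by rw [hw]; simp) hne.symm
        (by omega)
      exact ⟨x, hx2, hx1⟩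
  obtain ⟨x, hx1, hx2⟩ := h7
  have h8 : 1 ≤ (uc w ∩ uc w2).card := card_pos.2 ⟨x, mem_inter.2 ⟨hx1, hx2⟩⟩
  have h9 : (uc w).card = 2 ∧ (uc w2).card = 2 ∧ (uc w ∩ uc w2).card = 1 := by omega
  have hpair : ∀ {s : Finset P}, s.card = 2 → x ∈ s → ∃ p, p ≠ x ∧ s = {p, x} := by
    intro s hs hx
    obtain ⟨a, b, hab, hs'⟩ := card_eq_two.1 hs
    rw [hs', mem_insert, mem_singleton] at hx
    rcases hx with rfl | rfl
    · exact ⟨b, hab.symm, by rw [hs', pair_comm]⟩
    · exact ⟨a, hab, hs'⟩
  obtain ⟨p, hp1, hp2⟩ := hpair h9.1 hx1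
  obtain ⟨q, hq1, hq2⟩ := hpair h9.2.1 hx2
  have hdc : ∀ s, s ∈ uc t.1 → dc s = {t.1, t.2} := by
    intro s hs
    symm
    apply eq_of_subset_of_card_le
    · intro a ha
      rw [mem_insert, mem_singleton] at ha
      rcases ha with rfl | rfl
      · rw [mem_dc, ← mem_uc]
        exact hs
      · rw [mem_dc, ← mem_uc, ← T.uc]
        exact hs
    · rw [card_pair T.ne]
      exact dc_card_le H s
  refine ⟨⟨w, w2, p, x, q, ?_⟩, h1, T.mC, T.rk⟩
  refine ⟨h2, hw, by rw [← T.uc]; exact hw, hp2, by rw [hq2, pair_comm], ?_,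
    hdc w (by rw [hw]; simp), hdc w2 (by rw [hw]; simp), T.ne, hne, hp1, hq1.symm, ?_⟩
  · -- the lower covers of the common site
    symm
    apply eq_of_subset_of_card_le
    · intro a ha
      rw [mem_insert, mem_singleton] at ha
      rcases ha with rfl | rfl
      · rw [mem_dc, ← mem_uc]
        exact hx1
      · rw [mem_dc, ← mem_uc]
        exact hx2
    · rw [card_pair hne]
      exact dc_card_le H x
  · rintro rfl
    rw [hp2, hq2] at h9
    have h10 := h9.2.2
    rw [inter_self, card_pair hp1] at h10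
    omega

/-- the two descriptions of the twins agree -/
theorem TWC_eq (E : Ev r i psi C) : TWC i C = Pn.Tws i C := by
  ext s
  rw [mem_TWC, Pn.mem_Tws]
  exact ⟨fun h => h.tws E.H, fun h => tws_isTw E h⟩

open Classical in
/-- pairs of twins with disjoint sites, unordered -/
noncomputable def PrS (i : ℕ) (C : Finset P) : Finset (Finset (P × P)) :=
  ((Pn.Tws i C).powersetCard 2).filter (fun s => ∀ t ∈ s, ∀ t' ∈ s, t ≠ t' →
    Disjoint (Win.sit i t.1) (Win.sit i t'.1))

lemma PrT_eq (E : Ev r i psi C) : PrT i C = PrS i C := by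
  classical
  unfold PrT PrS
  rw [TWC_eq E]
  apply filter_congr
  intro s hs
  have h1 := (mem_powersetCard.1 hs).1
  have key : ∀ t ∈ s, XT t = Win.sit i t.1 := by
    intro t ht
    exact (mem_TWC.1 (by rw [TWC_eq E]; exact h1 ht)).sit E.H
  constructor
  · intro h t ht t' ht' hne
    rw [← key t ht, ← key t' ht']
    exact h t ht t' ht' hne
  · intro h t ht t' ht' hne
    rw [key t ht, key t' ht']
    exact h t ht t' ht' hne

end Pool.Agent.GaussPoset.Win.Rd

namespace Pool.Agent.GaussPoset.Wd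

open Finset Win Win.I2 Win.Xg Win.Rd

universe u

variable {P : Type u} [Fintype P] [PartialOrder P] [DecidableEq P] {r j i : ℕ}
  {t : Tops P} {lo hi : ℕ → ℕ} {e : ℕ → ℕ → P} {psi : P → P}

variable (h : NJ P r j) (hij : i + 1 = j) (hi1 : 1 ≤ i) (C : Cp.Comp j (t : P) lo hi e)
  (h4 : lo i + 3 ≤ hi i)
include h hij hi1 C h4

open Classical in
/-- THE COEFFICIENTS OF A COMPONENT WITH AT LEAST FOUR SITES, window `j - 1` -/
theorem NJ.vals4 : T8.P10 (st i (SS i t)).card (ZS i (SS i t)) ∧
    T8.cg 3 (st i (SS i t)).card (ZS i (SS i t)) = ∑ z ∈ Chs i (SS i t), chg i (SS i t) z ∧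
    T8.cg 5 (st i (SS i t)).card (ZS i (SS i t)) = - ((Pn.Tws i (SS i t)).card : ℤ) ∧
    T8.Q8 (st i (SS i t)).card (ZS i (SS i t)) = ((ETs i (SS i t)).card : ℤ) -
      ∑ q ∈ Pn.Tws i (SS i t), ∑ z ∈ (Chs i (SS i t)).filter
        (fun z => ¬ Disjoint (sit i z) (sit i q.1)), chg i (SS i t) z ∧
    T8.Q10 (st i (SS i t)).card (ZS i (SS i t)) = ((Pn.Tws i (SS i t)).card : ℤ) ^ 2 -
      2 * ((PrS i (SS i t)).card : ℤ) - 2 * ((NfC i (SS i t)).card : ℤ) := by
  obtain ⟨psi, hM⟩ := good_mat h.g.H (h.g.good i (by omega))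
  obtain ⟨Q, φ, K, hK⟩ := h.cls4 hij hi1 C h4 hM
  have L : Kls i psi (SS i t) Q := by
    rcases hK with ⟨rfl, hN⟩ | ⟨y, p, w, u, v, v', O, rfl⟩
    · exact hN.kls
    · exact O.kls
  have hb : 4 ≤ (st i (SS i t)).card := by
    have h5 := h.card_SS (i := i) (by omega) C
    have h6 := C.lo_le i (by omega)
    omega
  have E := K.ev
  refine ⟨K.P10 L, K.cg3 L hb, ?_, ?_, ?_⟩
  · rw [K.cg5 L hb, TWC_eq E]
  · rw [K.Q8 L hb]
    congr 1
    rw [TWC_eq E]
    refine sum_congr rfl fun q hq => ?_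
    have h1 : XT q = sit i q.1 := (mem_TWC.1 (by rw [TWC_eq E]; exact hq)).sit E.H
    rw [h1]
  · rw [K.Q10 L hb, TWC_eq E, PrT_eq E]

end Pool.Agent.GaussPoset.Wd

end

/-! From `Pool.Agent.W_448rc_h10.RcA` -/

section

/-!
MP_448cb3_co, G2, case B, window `j - 1`: the twins and the charges of a component in the
coordinates of its row.  helper10.
-/

namespace Pool.Agent.GaussPoset.Win.Rc

set_option linter.unusedSectionVars false

open Finset

universe u

variable {P : Type u} [Fintype P] [PartialOrder P] [DecidableEq P] {r i j : ℕ} {t : P}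
  {lo hi : ℕ → ℕ} {x : ℕ → ℕ → P} {S : Finset P}

/-- centres near `b` -/
def Nb (lo hi : ℕ → ℕ) (i b : ℕ) : Finset ℕ :=
  (Ioo (lo i) (hi i)).filter (fun a => a ≤ b + 2 ∧ b ≤ a + 2)

lemma mem_Nb {a b : ℕ} : a ∈ Nb lo hi i b ↔ (lo i < a ∧ a < hi i) ∧ a ≤ b + 2 ∧ b ≤ a + 2 := by
  unfold Nb
  rw [mem_filter, mem_Ioo]

/-- the number of joins over the centre `a` -/
noncomputable def dv (x : ℕ → ℕ → P) (i a : ℕ) : ℕ := dcv (x (i + 1) a) (x (i + 1) (a + 1))

/-- the centres of the twins -/
noncomputable def D2 (x : ℕ → ℕ → P) (lo hi : ℕ → ℕ) (i : ℕ) : Finset ℕ :=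
  (Ioo (lo i) (hi i)).filter (fun b => dv x i b = 2)

lemma mem_D2 {b : ℕ} : b ∈ D2 x lo hi i ↔ (lo i < b ∧ b < hi i) ∧ dv x i b = 2 := by
  unfold D2
  rw [mem_filter, mem_Ioo]

section comp

variable (C : Comp P t (i + 1) lo hi x)
include C

lemma Tr_meet {a b : ℕ} (ha : lo i < a) (ha' : a < hi i) (hb : lo i < b) (hb' : b < hi i) :
    ¬ Disjoint (Tr x i a) (Tr x i b) ↔ a ≤ b + 2 ∧ b ≤ a + 2 := by
  classical
  rw [not_disjoint_iff]
  constructor
  · rintro ⟨v, h1, h2⟩
    obtain ⟨c, c1, c2, rfl⟩ := Tr_sub h1 ha ha'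
    rw [mem_Tr C (by omega) ha ha' c1 c2] at h1
    rw [mem_Tr C (by omega) hb hb' c1 c2] at h2
    omega
  · intro h
    rcases Nat.le_total a b with hab | hab
    · refine ⟨x i (b - 1), ?_, ?_⟩
      · rw [mem_Tr C (by omega) ha ha' (by omega) (by omega)]
        omega
      · rw [mem_Tr C (by omega) hb hb' (by omega) (by omega)]
        omega
    · refine ⟨x i (a - 1), ?_, ?_⟩
      · rw [mem_Tr C (by omega) ha ha' (by omega) (by omega)]
        omega
      · rw [mem_Tr C (by omega) hb hb' (by omega) (by omega)]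
        omega

/-- sums over sets of triples -/
lemma sum_trs (f : Finset P → ℤ) (R : Finset P → Prop) [DecidablePred R] :
    ∑ k ∈ (Trs x lo hi i).filter R, f k =
      ∑ a ∈ (Ioo (lo i) (hi i)).filter (fun a => R (Tr x i a)), f (Tr x i a) := by
  classical
  have h1 : (Trs x lo hi i).filter R =
      ((Ioo (lo i) (hi i)).filter (fun a => R (Tr x i a))).image (Tr x i) := by
    ext k
    unfold Trs
    rw [mem_filter, mem_image, mem_image]
    constructor
    · rintro ⟨⟨a, ha, rfl⟩, h2⟩
      exact ⟨a, mem_filter.2 ⟨ha, h2⟩, rfl⟩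
    · rintro ⟨a, ha, rfl⟩
      rw [mem_filter] at ha
      exact ⟨⟨a, ha.1, rfl⟩, ha.2⟩
  rw [h1, sum_image]
  intro a ha b hb hab
  rw [mem_coe, mem_filter, mem_Ioo] at ha hb
  exact Tr_inj C (by omega) ha.1.1 ha.1.2 hb.1.1 hb.1.2 hab

end comp

section row

variable (C : Comp P t (i + 1) lo hi x) (h : GoodTo P r (i + 1)) (hi1 : 1 ≤ i) (ht : lev t = 0)
  (hS : ∀ y, lev y ≤ i + 2 → (y ∈ S ↔ y ≤ t)) (hno : ∀ z : P, lev z = i + 2 → ¬ Hul.Jn z)
include C h hi1 ht hS hno

lemma nb_filter {b : ℕ} (hb : lo i < b) (hb' : b < hi i) :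
    (Ioo (lo i) (hi i)).filter (fun a => ¬ Disjoint (Tr x i a) (Tr x i b)) = Nb lo hi i b := by
  classical
  ext a
  rw [mem_filter, mem_Ioo, mem_Nb]
  constructor
  · rintro ⟨h1, h2⟩
    exact ⟨h1, (Tr_meet C h1.1 h1.2 hb hb').1 h2⟩
  · rintro ⟨h1, h2⟩
    exact ⟨h1, (Tr_meet C h1.1 h1.2 hb hb').2 h2⟩

/-- upper charges which meet a triple -/
lemma card_ZU_meet {b : ℕ} (hb : lo i < b) (hb' : b < hi i) :
    (((ZU i S).filter (fun z => ¬ Disjoint (sit i z) (Tr x i b))).card : ℤ) =
      ∑ _a ∈ Nb lo hi i b, (1 : ℤ) := by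
  classical
  have hmap : ∀ z ∈ (ZU i S).filter (fun z => ¬ Disjoint (sit i z) (Tr x i b)),
      sit i z ∈ (Trs x lo hi i).filter (fun k => ¬ Disjoint k (Tr x i b)) := by
    intro z hz
    rw [mem_filter] at hz
    obtain ⟨a, a1, a2, a3, -⟩ := ZU_spec C h ht hS hz.1
    rw [mem_filter]
    refine ⟨?_, hz.2⟩
    unfold Trs
    rw [mem_image]
    exact ⟨a, mem_Ioo.2 ⟨a1, a2⟩, a3.symm⟩
  rw [card_eq_sum_card_fiberwise hmap]
  push_cast
  rw [sum_trs C (fun k => ((((ZU i S).filter (fun z => ¬ Disjoint (sit i z) (Tr x i b))).filter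
    (fun z => sit i z = k)).card : ℤ)), nb_filter C h hi1 ht hS hno hb hb']
  refine sum_congr rfl fun a ha => ?_
  rw [mem_Nb] at ha
  have h1 : ((ZU i S).filter (fun z => ¬ Disjoint (sit i z) (Tr x i b))).filter
      (fun z => sit i z = Tr x i a) = (ZU i S).filter (fun z => sit i z = Tr x i a) := by
    ext z
    rw [mem_filter, mem_filter, mem_filter]
    constructor
    · rintro ⟨⟨h1, -⟩, h2⟩
      exact ⟨h1, h2⟩
    · rintro ⟨h1, h2⟩
      refine ⟨⟨h1, ?_⟩, h2⟩
      rw [h2]
      exact (Tr_meet C ha.1.1 ha.1.2 hb hb').2 ha.2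
  rw [h1, card_ZU_Tr C h ht hS ha.1.1 ha.1.2]
  norm_num

/-- lower charges which meet a triple -/
lemma card_ZL_meet {b : ℕ} (hb : lo i < b) (hb' : b < hi i) :
    (((ZL i S).filter (fun z => ¬ Disjoint (sit i z) (Tr x i b))).card : ℤ) =
      ∑ a ∈ Nb lo hi i b, (dv x i a : ℤ) := by
  classical
  have hmap : ∀ z ∈ (ZL i S).filter (fun z => ¬ Disjoint (sit i z) (Tr x i b)),
      sit i z ∈ (Trs x lo hi i).filter (fun k => ¬ Disjoint k (Tr x i b)) := by
    intro z hz
    rw [mem_filter] at hz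
    obtain ⟨a, a1, a2, a3, -⟩ := ZL_spec C h hi1 ht hS hno hz.1
    rw [mem_filter]
    refine ⟨?_, hz.2⟩
    unfold Trs
    rw [mem_image]
    exact ⟨a, mem_Ioo.2 ⟨a1, a2⟩, a3.symm⟩
  rw [card_eq_sum_card_fiberwise hmap]
  push_cast
  rw [sum_trs C (fun k => ((((ZL i S).filter (fun z => ¬ Disjoint (sit i z) (Tr x i b))).filter
    (fun z => sit i z = k)).card : ℤ)), nb_filter C h hi1 ht hS hno hb hb']
  refine sum_congr rfl fun a ha => ?_
  rw [mem_Nb] at ha
  have h1 : ((ZL i S).filter (fun z => ¬ Disjoint (sit i z) (Tr x i b))).filter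
      (fun z => sit i z = Tr x i a) = (ZL i S).filter (fun z => sit i z = Tr x i a) := by
    ext z
    rw [mem_filter, mem_filter, mem_filter]
    constructor
    · rintro ⟨⟨h1, -⟩, h2⟩
      exact ⟨h1, h2⟩
    · rintro ⟨h1, h2⟩
      refine ⟨⟨h1, ?_⟩, h2⟩
      rw [h2]
      exact (Tr_meet C ha.1.1 ha.1.2 hb hb').2 ha.2
  rw [h1, card_ZL_Tr C h hi1 ht hS hno ha.1.1 ha.1.2]
  rfl

/-- THE CHARGES WHICH MEET A TRIPLE -/
theorem chg_meet {b : ℕ} (hb : lo i < b) (hb' : b < hi i) :
    ∑ z ∈ (Chs i S).filter (fun z => ¬ Disjoint (sit i z) (Tr x i b)), chg i S z =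
      ∑ a ∈ Nb lo hi i b, (1 - (dv x i a : ℤ)) +
        (((FL i S).filter (fun z => ¬ Disjoint (sit i z) (Tr x i b))).card : ℤ) -
          (((FU' i S).filter (fun z => ¬ Disjoint (sit i z) (Tr x i b))).card : ℤ) := by
  classical
  rw [sum_chg h.H (fun z => ¬ Disjoint (sit i z) (Tr x i b)),
    card_ZU_meet C h hi1 ht hS hno hb hb', card_ZL_meet C h hi1 ht hS hno hb hb', sum_sub_distrib]
  ring

/-- THE SUM OF ALL CHARGES -/
theorem chg_all : ∑ z ∈ Chs i S, chg i S z =
    ∑ a ∈ Ioo (lo i) (hi i), (1 - (dv x i a : ℤ)) + ((FL i S).card : ℤ) -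
      ((FU' i S).card : ℤ) := by
  classical
  have h0 := sum_chg (S := S) h.H (i := i) (fun _ => True)
  simp only [filter_true] at h0
  rw [h0]
  have hU : ((ZU i S).card : ℤ) = ∑ _a ∈ Ioo (lo i) (hi i), (1 : ℤ) := by
    have hmap : ∀ z ∈ ZU i S, sit i z ∈ Trs x lo hi i := by
      intro z hz
      obtain ⟨a, a1, a2, a3, -⟩ := ZU_spec C h ht hS hz
      unfold Trs
      rw [mem_image]
      exact ⟨a, mem_Ioo.2 ⟨a1, a2⟩, a3.symm⟩
    rw [card_eq_sum_card_fiberwise hmap]
    push_cast
    have := sum_trs C (fun k => (((ZU i S).filter (fun z => sit i z = k)).card : ℤ))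
      (fun _ => True)
    simp only [filter_true] at this
    rw [this]
    refine sum_congr rfl fun a ha => ?_
    rw [mem_Ioo] at ha
    rw [card_ZU_Tr C h ht hS ha.1 ha.2]
    norm_num
  have hL : ((ZL i S).card : ℤ) = ∑ a ∈ Ioo (lo i) (hi i), (dv x i a : ℤ) := by
    have hmap : ∀ z ∈ ZL i S, sit i z ∈ Trs x lo hi i := by
      intro z hz
      obtain ⟨a, a1, a2, a3, -⟩ := ZL_spec C h hi1 ht hS hno hz
      unfold Trs
      rw [mem_image]
      exact ⟨a, mem_Ioo.2 ⟨a1, a2⟩, a3.symm⟩
    rw [card_eq_sum_card_fiberwise hmap]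
    push_cast
    have := sum_trs C (fun k => (((ZL i S).filter (fun z => sit i z = k)).card : ℤ))
      (fun _ => True)
    simp only [filter_true] at this
    rw [this]
    refine sum_congr rfl fun a ha => ?_
    rw [mem_Ioo] at ha
    rw [card_ZL_Tr C h hi1 ht hS hno ha.1 ha.2]
    rfl
  rw [hU, hL, sum_sub_distrib]
  ring

/-- sums over the twins -/
theorem sum_tws (f : Finset P → ℤ) :
    ∑ q ∈ Pn.Tws i S, f (sit i q.1) = ∑ b ∈ D2 x lo hi i, f (Tr x i b) := by
  classical
  have hmap : ∀ q ∈ Pn.Tws i S, sit i q.1 ∈ Trs x lo hi i := by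
    intro q hq
    obtain ⟨a, a1, a2, a3, -⟩ := ZL_spec C h hi1 ht hS hno (Pn.mem_Tws.1 hq).zl
    unfold Trs
    rw [mem_image]
    exact ⟨a, mem_Ioo.2 ⟨a1, a2⟩, a3.symm⟩
  rw [← sum_fiberwise_of_maps_to hmap]
  have h2 := sum_trs C (fun k => ∑ q ∈ (Pn.Tws i S).filter (fun q => sit i q.1 = k),
    f (sit i q.1)) (fun _ => True)
  simp only [filter_true] at h2
  rw [h2]
  unfold D2
  rw [sum_filter]
  refine sum_congr rfl fun b hb => ?_
  rw [mem_Ioo] at hb
  have h3 : ∑ q ∈ (Pn.Tws i S).filter (fun q => sit i q.1 = Tr x i b), f (sit i q.1) =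
      ((Pn.Tws i S).filter (fun q => sit i q.1 = Tr x i b)).card * f (Tr x i b) := by
    rw [sum_congr rfl (fun q hq => by rw [(mem_filter.1 hq).2]), sum_const, nsmul_eq_mul]
  rw [h3]
  -- the elements over the centre b
  have hZ := card_ZL_Tr C h hi1 ht hS hno hb.1 hb.2
  have hspec : ∀ z ∈ (ZL i S).filter (fun z => sit i z = Tr x i b),
      uc z = {x (i + 1) b, x (i + 1) (b + 1)} := by
    intro z hz
    rw [mem_filter] at hz
    obtain ⟨a, a1, a2, a3, a4, a5⟩ := ZL_spec C h hi1 ht hS hno hz.1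
    have hab : a = b := Tr_inj C (by omega) a1 a2 hb.1 hb.2 (by rw [← a3, hz.2])
    subst hab
    have f1 := C.lo_ge i (by omega)
    have f2 := C.hi_le i (by omega)
    exact StB_uc_pair h.H a4 a5 (C.inj (i + 1) le_rfl a (a + 1) (by omega) (by omega) (by omega))
  by_cases h4 : dv x i b = 2
  · rw [if_pos h4]
    have h5 : ((ZL i S).filter (fun z => sit i z = Tr x i b)).card = 2 := by rw [hZ]; exact h4
    obtain ⟨z, z', hne, hzz⟩ := card_eq_two.1 h5
    have mz : z ∈ (ZL i S).filter (fun z => sit i z = Tr x i b) := by rw [hzz]; simp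
    have mz' : z' ∈ (ZL i S).filter (fun z => sit i z = Tr x i b) := by rw [hzz]; simp
    have hr : Xg.rk z ≠ Xg.rk z' := fun h => hne (Xg.rk_inj h)
    have key : ∀ a a', a ≠ a' → (ZL i S).filter (fun z => sit i z = Tr x i b) = {a, a'} →
        Xg.rk a' < Xg.rk a →
        (Pn.Tws i S).filter (fun q => sit i q.1 = Tr x i b) = {(a, a')} := by
      intro a a' hn hs hrk
      have ma : a ∈ (ZL i S).filter (fun z => sit i z = Tr x i b) := by rw [hs]; simp
      have ma' : a' ∈ (ZL i S).filter (fun z => sit i z = Tr x i b) := by rw [hs]; simp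
      ext q
      rw [mem_filter, Pn.mem_Tws, mem_singleton]
      constructor
      · rintro ⟨T, h6⟩
        have m1 : q.1 ∈ (ZL i S).filter (fun z => sit i z = Tr x i b) :=
          mem_filter.2 ⟨T.zl, h6⟩
        have l1 := (mem_ZL.1 T.zl).2.1
        have m2 : q.2 ∈ (ZL i S).filter (fun z => sit i z = Tr x i b) := by
          have l2 : lev q.2 = i + 2 := by
            have hc : x (i + 1) b ∈ uc q.1 := by rw [hspec _ m1]; simp
            have e1 := lev_uc h.H hc
            have hc' : x (i + 1) b ∈ uc q.2 := by rw [← T.uc]; exact hc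
            have e2 := lev_uc h.H hc'
            omega
          have hst : sts i q.2 = sts i q.1 := by
            ext v
            rw [mem_sts_iff h.H l2, mem_sts_iff h.H l1, T.uc]
          refine mem_filter.2 ⟨mem_ZL.2 ⟨T.mC, l2, ?_⟩, ?_⟩
          · rw [← card_sts, hst, card_sts]
            exact (mem_ZL.1 T.zl).2.2
          · rw [sit_low h.H (by omega), hst, ← sit_low h.H (by omega : i ≤ lev q.1)]
            exact h6
        rw [hs, mem_insert, mem_singleton] at m1 m2
        have hqn := T.ne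
        rcases m1 with m1 | m1 <;> rcases m2 with m2 | m2
        · exact absurd (m1.trans m2.symm) hqn
        · exact Prod.ext m1 m2
        · exfalso
          have := T.rk
          rw [m1, m2] at this
          omega
        · exact absurd (m1.trans m2.symm) hqn
      · rintro rfl
        exact ⟨⟨(mem_filter.1 ma).1, (mem_ZL.1 (mem_filter.1 ma').1).1, hn,
          by rw [hspec _ ma, hspec _ ma'], hrk⟩, (mem_filter.1 ma).2⟩
    rcases Nat.lt_or_gt_of_ne hr with h6 | h6
    · rw [key z' z hne.symm (by rw [hzz, pair_comm]) h6, card_singleton]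
      norm_num
    · rw [key z z' hne hzz h6, card_singleton]
      norm_num
  · rw [if_neg h4]
    have h5 : ((Pn.Tws i S).filter (fun q => sit i q.1 = Tr x i b)) = ∅ := by
      rw [eq_empty_iff_forall_notMem]
      intro q hq
      rw [mem_filter, Pn.mem_Tws] at hq
      obtain ⟨T, h6⟩ := hq
      apply h4
      have m1 : q.1 ∈ (ZL i S).filter (fun z => sit i z = Tr x i b) :=
        mem_filter.2 ⟨T.zl, h6⟩
      have e1 : q.1 ⋖ x (i + 1) b := mem_uc.1 (by rw [hspec _ m1]; simp)
      have e2 : q.1 ⋖ x (i + 1) (b + 1) := mem_uc.1 (by rw [hspec _ m1]; simp)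
      have e3 : q.2 ⋖ x (i + 1) b := mem_uc.1 (by rw [← T.uc, hspec _ m1]; simp)
      have e4 : q.2 ⋖ x (i + 1) (b + 1) := mem_uc.1 (by rw [← T.uc, hspec _ m1]; simp)
      unfold dv dcv
      have hle : (univ.filter (fun z => z ⋖ x (i + 1) b ∧ z ⋖ x (i + 1) (b + 1))).card ≤ 2 := by
        refine (card_le_card ?_).trans (dc_card_le h.H (x (i + 1) b))
        intro z hz
        rw [mem_filter] at hz
        exact mem_dc.2 hz.2.1
      have hge : 2 ≤ (univ.filter (fun z => z ⋖ x (i + 1) b ∧ z ⋖ x (i + 1) (b + 1))).card := by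
        rw [← card_pair T.ne]
        apply card_le_card
        intro z hz
        rw [mem_insert, mem_singleton] at hz
        rw [mem_filter]
        rcases hz with rfl | rfl
        · exact ⟨mem_univ _, e1, e2⟩
        · exact ⟨mem_univ _, e3, e4⟩
      omega
    rw [h5, card_empty]
    norm_num

end row

end Pool.Agent.GaussPoset.Win.Rc

end

/-! From `Pool.Agent.W_448rc_h10.RcB` -/

section

/-!
MP_448cb3_co, G2, case B, window `j - 1`: the coefficients (3,1), (5,2), (8,3), (10,4) of a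
component with at least four sites in the coordinates of its row.  helper10.
-/

namespace Pool.Agent.GaussPoset.Win.Rc

set_option linter.unusedSectionVars false

open Finset

section pairs

variable {α : Type*} [DecidableEq α]

/-- unordered and ordered pairs -/
lemma two_pairs (s : Finset α) (R : α → α → Prop) [DecidableRel R] (hR : ∀ a b, R a b → R b a)
    [DecidablePred fun u : Finset α => ∀ a ∈ u, ∀ b ∈ u, a ≠ b → R a b] :
    2 * ((s.powersetCard 2).filter (fun u => ∀ a ∈ u, ∀ b ∈ u, a ≠ b → R a b)).card =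
      ((s ×ˢ s).filter (fun q => q.1 ≠ q.2 ∧ R q.1 q.2)).card := by
  have hmap : ∀ q ∈ (s ×ˢ s).filter (fun q => q.1 ≠ q.2 ∧ R q.1 q.2),
      ({q.1, q.2} : Finset α) ∈
        (s.powersetCard 2).filter (fun u => ∀ a ∈ u, ∀ b ∈ u, a ≠ b → R a b) := by
    intro q hq
    rw [mem_filter, mem_product] at hq
    obtain ⟨⟨h1, h2⟩, h3, h4⟩ := hq
    rw [mem_filter, mem_powersetCard]
    refine ⟨⟨?_, card_pair h3⟩, ?_⟩
    · intro a ha
      rw [mem_insert, mem_singleton] at ha
      rcases ha with rfl | rfl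
      · exact h1
      · exact h2
    · intro a ha b hb hab
      rw [mem_insert, mem_singleton] at ha hb
      rcases ha with rfl | rfl <;> rcases hb with rfl | rfl
      · exact absurd rfl hab
      · exact h4
      · exact hR _ _ h4
      · exact absurd rfl hab
  rw [card_eq_sum_card_fiberwise hmap, mul_comm, ← smul_eq_mul, ← sum_const]
  symm
  refine sum_congr rfl fun u hu => ?_
  rw [mem_filter, mem_powersetCard] at hu
  obtain ⟨⟨h1, h2⟩, h3⟩ := hu
  obtain ⟨a, b, hab, rfl⟩ := card_eq_two.1 h2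
  have h4 : ((s ×ˢ s).filter (fun q => q.1 ≠ q.2 ∧ R q.1 q.2)).filter
      (fun q => ({q.1, q.2} : Finset α) = {a, b}) = {(a, b), (b, a)} := by
    ext q
    rw [mem_filter, mem_filter, mem_product, mem_insert, mem_singleton]
    constructor
    · rintro ⟨⟨-, h5, -⟩, h6⟩
      have m1 : q.1 ∈ ({a, b} : Finset α) := by rw [← h6]; simp
      have m2 : q.2 ∈ ({a, b} : Finset α) := by rw [← h6]; simp
      rw [mem_insert, mem_singleton] at m1 m2
      rcases m1 with m1 | m1 <;> rcases m2 with m2 | m2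
      · exact absurd (m1.trans m2.symm) h5
      · exact Or.inl (Prod.ext m1 m2)
      · exact Or.inr (Prod.ext m1 m2)
      · exact absurd (m1.trans m2.symm) h5
    · have ma : a ∈ s := h1 (by simp)
      have mb : b ∈ s := h1 (by simp)
      rintro (rfl | rfl)
      · exact ⟨⟨⟨ma, mb⟩, hab, h3 a (by simp) b (by simp) hab⟩, rfl⟩
      · exact ⟨⟨⟨mb, ma⟩, hab.symm, h3 b (by simp) a (by simp) hab.symm⟩, pair_comm _ _⟩
  rw [h4, card_pair]
  intro h5
  exact hab (congrArg Prod.fst h5)

end pairs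

universe u

variable {P : Type u} [Fintype P] [PartialOrder P] [DecidableEq P] {r i j : ℕ} {t : P}
  {lo hi : ℕ → ℕ} {x : ℕ → ℕ → P} {S : Finset P}

/-- centres of twins near `b` -/
noncomputable def D2n (x : ℕ → ℕ → P) (lo hi : ℕ → ℕ) (i b : ℕ) : Finset ℕ :=
  (D2 x lo hi i).filter (fun a => a ≤ b + 2 ∧ b ≤ a + 2)

section row

variable (C : Comp P t (i + 1) lo hi x) (h : GoodTo P r (i + 1)) (hi1 : 1 ≤ i) (ht : lev t = 0)
  (hS : ∀ y, lev y ≤ i + 2 → (y ∈ S ↔ y ≤ t)) (hno : ∀ z : P, lev z = i + 2 → ¬ Hul.Jn z)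
include C h hi1 ht hS hno

lemma card_tws : ((Pn.Tws i S).card : ℤ) = (D2 x lo hi i).card := by
  have := sum_tws C h hi1 ht hS hno (fun _ => (1 : ℤ))
  simpa using this

theorem prs_row : ((Pn.Tws i S).card : ℤ) ^ 2 - 2 * ((Rd.PrS i S).card : ℤ) =
    ∑ b ∈ D2 x lo hi i, ((D2n x lo hi i b).card : ℤ) := by
  classical
  have h1 := two_pairs (Pn.Tws i S) (fun q q' => Disjoint (sit i q.1) (sit i q'.1))
    (fun _ _ h => h.symm)
  have h2 : ((Rd.PrS i S).card : ℤ) * 2 = (((Pn.Tws i S ×ˢ Pn.Tws i S).filter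
      (fun q => q.1 ≠ q.2 ∧ Disjoint (sit i q.1.1) (sit i q.2.1))).card : ℤ) := by
    rw [← h1]
    push_cast
    unfold Rd.PrS
    rw [mul_comm]
  have hne : ∀ q ∈ Pn.Tws i S, ¬ Disjoint (sit i q.1) (sit i q.1) := by
    intro q hq
    obtain ⟨a, a1, a2, a3, -⟩ := ZL_spec C h hi1 ht hS hno (Pn.mem_Tws.1 hq).zl
    rw [a3]
    exact (Tr_meet C a1 a2 a1 a2).2 (by omega)
  have h3 : (Pn.Tws i S ×ˢ Pn.Tws i S).filter
      (fun q => q.1 ≠ q.2 ∧ Disjoint (sit i q.1.1) (sit i q.2.1)) =
      (Pn.Tws i S ×ˢ Pn.Tws i S).filter (fun q => Disjoint (sit i q.1.1) (sit i q.2.1)) := by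
    apply filter_congr
    intro q hq
    rw [mem_product] at hq
    constructor
    · exact fun h => h.2
    · intro hd
      refine ⟨?_, hd⟩
      intro he
      rw [he] at hd
      exact hne _ hq.2 hd
  have h4 : (((Pn.Tws i S ×ˢ Pn.Tws i S).filter
      (fun q => Disjoint (sit i q.1.1) (sit i q.2.1))).card : ℤ) =
      ((Pn.Tws i S).card : ℤ) ^ 2 - (((Pn.Tws i S ×ˢ Pn.Tws i S).filter
      (fun q => ¬ Disjoint (sit i q.1.1) (sit i q.2.1))).card : ℤ) := by
    have := card_filter_add_card_filter_not (s := Pn.Tws i S ×ˢ Pn.Tws i S)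
      (fun q => Disjoint (sit i q.1.1) (sit i q.2.1))
    rw [card_product] at this
    have h5 : ((Pn.Tws i S).card : ℤ) ^ 2 = (((Pn.Tws i S).card * (Pn.Tws i S).card : ℕ) : ℤ) := by
      push_cast
      ring
    rw [h5, ← this]
    push_cast
    ring
  have h5 : (((Pn.Tws i S ×ˢ Pn.Tws i S).filter
      (fun q => ¬ Disjoint (sit i q.1.1) (sit i q.2.1))).card : ℤ) =
      ∑ b ∈ D2 x lo hi i, ((D2n x lo hi i b).card : ℤ) := by
    rw [card_filter]
    push_cast
    rw [sum_product]
    have h6 : ∀ q ∈ Pn.Tws i S, ∑ q' ∈ Pn.Tws i S,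
        (if ¬ Disjoint (sit i q.1) (sit i q'.1) then (1 : ℤ) else 0) =
        ∑ b ∈ D2 x lo hi i, (if ¬ Disjoint (sit i q.1) (Tr x i b) then (1 : ℤ) else 0) :=
      fun q _ => sum_tws C h hi1 ht hS hno
        (fun k => if ¬ Disjoint (sit i q.1) k then (1 : ℤ) else 0)
    rw [sum_congr rfl h6, sum_tws C h hi1 ht hS hno (fun k => ∑ b ∈ D2 x lo hi i,
      (if ¬ Disjoint k (Tr x i b) then (1 : ℤ) else 0))]
    refine sum_congr rfl fun b hb => ?_
    unfold D2n
    rw [card_filter]
    push_cast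
    refine sum_congr rfl fun a ha => ?_
    rw [mem_D2] at ha hb
    have := Tr_meet C hb.1.1 hb.1.2 ha.1.1 ha.1.2
    by_cases h7 : a ≤ b + 2 ∧ b ≤ a + 2
    · rw [if_pos h7, if_pos (this.2 ⟨h7.2, h7.1⟩)]
    · rw [if_neg h7, if_neg (fun h8 => h7 ⟨(this.1 h8).2, (this.1 h8).1⟩)]
  rw [h3, h4, h5] at h2
  linarith

end row

end Pool.Agent.GaussPoset.Win.Rc

namespace Pool.Agent.GaussPoset.Wd

open Finset Win Win.I2 Win.Rc

universe u

variable {P : Type u} [Fintype P] [PartialOrder P] [DecidableEq P] {r j i : ℕ}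
  {t : Tops P} {lo hi : ℕ → ℕ} {e : ℕ → ℕ → P}

variable (h : NJ P r j) (hij : i + 1 = j) (hi1 : 1 ≤ i) (C : Cp.Comp j (t : P) lo hi e)
  (h4 : lo i + 3 ≤ hi i)
include h hij hi1 C h4

open Classical in
/-- THE COEFFICIENTS OF A COMPONENT WITH AT LEAST FOUR SITES IN THE COORDINATES OF ITS ROW:
`dv e i a` joins lie over the centre `a`, twins at the centres `D2` -/
theorem NJ.row4 :
    T8.cg 3 (st i (SS i t)).card (ZS i (SS i t)) = ∑ a ∈ Ioo (lo i) (hi i), (1 - (dv e i a : ℤ)) +
      ((FL i (SS i t)).card : ℤ) - ((FU' i (SS i t)).card : ℤ) ∧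
    T8.cg 5 (st i (SS i t)).card (ZS i (SS i t)) = - ((D2 e lo hi i).card : ℤ) ∧
    T8.Q8 (st i (SS i t)).card (ZS i (SS i t)) = ((Rd.ETs i (SS i t)).card : ℤ) -
      ∑ b ∈ D2 e lo hi i, (∑ a ∈ Nb lo hi i b, (1 - (dv e i a : ℤ)) +
        (((FL i (SS i t)).filter (fun z => ¬ Disjoint (sit i z) (Tr e i b))).card : ℤ) -
        (((FU' i (SS i t)).filter (fun z => ¬ Disjoint (sit i z) (Tr e i b))).card : ℤ)) ∧
    T8.Q10 (st i (SS i t)).card (ZS i (SS i t)) =
      ∑ b ∈ D2 e lo hi i, ((D2n e lo hi i b).card : ℤ) - 2 * ((Rd.NfC i (SS i t)).card : ℤ) := by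
  obtain ⟨-, v3, v5, v8, v10⟩ := h.vals4 hij hi1 C h4
  subst hij
  have W := C.toWin
  have hS : ∀ y, lev y ≤ i + 2 → (y ∈ SS i t ↔ y ≤ (t : P)) :=
    fun y hy => h.mem (i := i) (by omega) t (by omega)
  have hno : ∀ z : P, lev z = i + 2 → ¬ Hul.Jn z := fun z hz => h.no z (by omega)
  refine ⟨?_, ?_, ?_, ?_⟩
  · rw [v3, chg_all W h.g hi1 t.2 hS hno]
  · rw [v5, card_tws W h.g hi1 t.2 hS hno]
  · rw [v8]
    congr 1
    rw [sum_tws W h.g hi1 t.2 hS hno (fun k => ∑ z ∈ (Chs i (SS i t)).filter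
        (fun z => ¬ Disjoint (sit i z) k), chg i (SS i t) z)]
    refine sum_congr rfl fun b hb => ?_
    rw [mem_D2] at hb
    exact chg_meet W h.g hi1 t.2 hS hno hb.1.1 hb.1.2
  · rw [v10, ← prs_row W h.g hi1 t.2 hS hno]

end Pool.Agent.GaussPoset.Wd

end
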