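import Mathlib
import Pool.Agent.W_448zz_h61.Ns
import Pool.Agent.W_448zz_h61.M112
import Pool.Agent.W_448zz_h61.M118

/-! From `Pool.Agent.W_448pn_h63.QaA` -/

section

/-!
# Parts with three sites: the reflection class is cheap (MP_448cb3_co, G2, window `j - 1`)
-/

set_option autoImplicit false

namespace Pool.Agent.GaussPoset.Win.Pf

set_option linter.unusedSectionVars false

open Finset I2
open Pool.Agent.GaussPoset.Win.So

universe u

variable {P : Type u} [DecidableEq P] [Fintype P]
variable {c c' : P → Finset P} {e : P → ℕ} {t t' : P → ℕ} {V Sd Sd' : Finset P} {psi : P → P}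

/-- a near element which is not guarded gives a free element -/
lemma free_of {q : P} (hq : q ∈ Sd) (hg : ¬ gu c e q)
    (h1 : ∀ z ∈ c' q, e q < e z → z ∈ Sd ∧ ¬ gu c e z ∧ ¬ kd c' e z) :
    ∃ f ∈ fr c c' e Sd, f = q ∨ (f ∈ c' q ∧ e q < e f) := by
  classical
  by_cases hk : kd c' e q
  · obtain ⟨z, hz, hlt⟩ := hk
    obtain ⟨a1, a2, a3⟩ := h1 z hz hlt
    refine ⟨z, ?_, Or.inr ⟨hz, hlt⟩⟩
    unfold fr
    rw [mem_filter]
    exact ⟨a1, a3, a2⟩
  · refine ⟨q, ?_, Or.inl rfl⟩
    unfold fr
    rw [mem_filter]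
    exact ⟨hq, hk, hg⟩

/-- THE REFLECTION CLASS HAS AT MOST ONE DEFICIT if there are at most three sites and no flip -/
theorem ref3 (W : SO.Two c c' t t' V Sd Sd' psi) (C : SO.Cfg c c' t t' V Sd Sd' psi e)
    (pd : SO.PDx c t Sd e) (hE : ∑ x, e x ≤ 6) {T : Finset P} (hT : T.card ≤ 3)
    (hT1 : ∀ s ∈ V, s ∉ T → e s = 0) (hT2 : KD c' e V ⊆ T) (hT3 : KD c e V ⊆ T)
    (hnf : ¬ ∃ p y p' u, SO.Pen c t Sd p y ∧ SO.Pen c' t' Sd' p' u ∧ 0 < e p ∧ 0 < e p' ∧
      u ≠ psi y)
    {p y : P} (R : SO.Ref c c' t Sd psi e p y) :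
    SO.kS c c' V Sd e + SO.kS c' c V Sd' e ≤ 1 := by
  classical
  by_contra hk
  have hk' : ¬ SO.kS c' c V Sd' e + SO.kS c c' V Sd e ≤ 1 := by omega
  have S := side0_of W.s1
  have S' := side0_of W.s2
  have near : ∀ x ∈ Sd, t x = 1 → 0 < e x → ∃ z ∈ c' x, 0 < e z := by
    intro x mx tx ex
    rcases C.core1 x mx tx ex with h | ⟨h4, z, hz, ez⟩
    · exact h
    · exact absurd (partner_main W C hE mx tx ex h4 hz ez) hk
  have near' : ∀ x ∈ Sd', t' x = 1 → 0 < e x → ∃ z ∈ c x, 0 < e z := by
    intro x mx tx ex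
    rcases C.core2 x mx tx ex with h | ⟨h4, z, hz, ez⟩
    · exact h
    · exact absurd (partner_main W.symm C.symm hE mx tx ex h4 hz ez) hk'
  have sS : ∀ {x v : P}, x ∈ Sd → v ∈ Sd' → x ≠ v := by
    rintro x v h1 h2 rfl
    exact disjoint_left.1 W.d3 h1 h2
  have sV : ∀ {x v : P}, x ∈ Sd → v ∈ V → x ≠ v := by
    rintro x v h1 h2 rfl
    exact disjoint_left.1 W.d1 h1 h2
  have sV' : ∀ {x v : P}, x ∈ Sd' → v ∈ V → x ≠ v := by
    rintro x v h1 h2 rfl
    exact disjoint_left.1 W.d2 h1 h2
  -- the pendant
  have mp := R.pen.m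
  have tp := R.pen.tp
  have ep : 1 ≤ e p := R.p1
  obtain ⟨my, ty, ey⟩ := z_cov S C.adm1 mp (by omega) ep
    (show y ∈ c p by rw [R.pen.cp]; exact mem_singleton_self _)
  have ty1 : t y = 1 := by omega
  have py : p ≠ y := by rintro rfl; omega
  have hcp : ∀ {x : P}, x ∈ c p → x = y := by
    intro x hx
    rwa [R.pen.cp, mem_singleton] at hx
  have sit : ∀ {x v : P}, x ∈ Sd → t x = 1 → v ∈ c x → v ∈ V := by
    intro x v mx tx hv
    obtain ⟨k1, k2⟩ := S.cin x mx v hv
    rcases k1 with k1 | k1
    · have := S.tS v k1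
      omega
    · exact k1
  have sit' : ∀ {x v : P}, x ∈ Sd' → t' x = 1 → v ∈ c' x → v ∈ V := by
    intro x v mx tx hv
    obtain ⟨k1, k2⟩ := S'.cin x mx v hv
    rcases k1 with k1 | k1
    · have := S'.tS v k1
      omega
    · exact k1
  -- an element below a near element which is not `y`
  have dn : ∀ {q z : P}, q ∈ Sd → q ≠ y → z ∈ c' q → 1 ≤ e z →
      z ∈ Sd ∧ z ≠ p ∧ z ≠ y ∧ (∀ x ∈ c z, x ≠ y) := by
    intro q z mq hqy hz ez
    obtain ⟨m1, m2, m3⟩ := z_chd S (Or.inl mq) hz
    have hzp : z ≠ p := by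
      rintro rfl
      exact hqy (hcp m3)
    have hzy : z ∉ c' y := fun h => by
      have := R.dy z h hzp
      omega
    refine ⟨m1, hzp, ?_, ?_⟩
    · rintro rfl
      have := S.tS q mq
      omega
    · rintro x hx rfl
      exact hzy ((S.dual z x).1 hx)
  -- counting
  have hcount : (fr c c' e Sd).card + (fr c' c e Sd').card + 2 ≤
      (KD c' e V).card + (KD c e V).card := by
    unfold SO.kS at hk
    omega
  have hunion : (KD c' e V ∪ KD c e V).card = (KD c' e V).card + (KD c e V).card :=
    card_union_of_disjoint C.dis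
  have hsub : KD c' e V ∪ KD c e V ⊆ T := union_subset hT2 hT3
  have hle3 := card_le_card hsub
  have allk : 1 ≤ (fr c c' e Sd).card + (fr c' c e Sd').card →
      ∀ s ∈ T, s ∈ KD c' e V ∨ s ∈ KD c e V := by
    intro h s hs
    have := eq_of_subset_of_card_le hsub (by omega)
    rw [← this] at hs
    exact mem_union.1 hs
  have kpos : ∀ {s : P}, s ∈ KD c' e V ∨ s ∈ KD c e V → ∃ q, e s < e q := by
    rintro s (h | h)
    · obtain ⟨-, q, -, hq⟩ := mem_KD.1 h
      exact ⟨q, hq⟩
    · obtain ⟨-, q, -, hq⟩ := mem_KD.1 h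
      exact ⟨q, hq⟩
  have inT : ∀ {s : P}, s ∈ V → 1 ≤ e s → s ∈ T := by
    intro s hs h
    by_contra h1
    have := hT1 s hs h1
    omega
  have frp : ∀ {f : P}, f ∈ fr c c' e Sd → 1 ≤ (fr c c' e Sd).card := fun h => card_pos.2 ⟨_, h⟩
  have frp' : ∀ {f : P}, f ∈ fr c' c e Sd' → 1 ≤ (fr c' c e Sd').card :=
    fun h => card_pos.2 ⟨_, h⟩
  -- a guarded killer below the window is `y`
  have lowG : ∀ q ∈ Sd, t q = 1 → q ≠ y → gu c e q → kl c e q → False := by
    rintro q mq tq hqy ⟨s, hs, hle⟩ hkl
    have eq : 1 ≤ e q := z_kl hkl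
    obtain ⟨b, hb, hlt⟩ := hkl
    have hsb : s ≠ b := by rintro rfl; omega
    have hc2 : (c q).card = 2 := by
      have h1 : ({s, b} : Finset P) ⊆ c q := by
        intro a ha
        rw [mem_insert, mem_singleton] at ha
        rcases ha with rfl | rfl <;> assumption
      have h2 := card_le_card h1
      rw [card_pair hsb] at h2
      have := S.c2 q
      omega
    obtain ⟨z, hz, ez⟩ := near q mq tq eq
    obtain ⟨mz, hzp, hzy, hzx⟩ := dn mq hqy hz ez
    obtain ⟨-, tz, hqz⟩ := z_chd S (Or.inl mq) hz
    obtain ⟨x, hx, hxq⟩ : ∃ x ∈ c z, x ≠ q := by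
      by_contra h
      push Not at h
      have hcz : c z = {q} := eq_singleton_iff_unique_mem.2 ⟨hqz, h⟩
      exact hzp (pd z q p y ⟨mz, by omega, hcz, hc2⟩ R.pen ez ep)
    obtain ⟨mx, tx, ex⟩ := z_cov S C.adm1 mz (by omega) ez hx
    have hxy := hzx x hx
    have ms := sit mq tq hs
    have es : 1 ≤ e s := by omega
    have n1 : [p, y, q, s, z, x].Nodup := by
      simp only [List.nodup_cons, List.mem_cons, List.not_mem_nil, or_false, not_or,
        List.nodup_nil, and_true, not_false_eq_true]
      refine ⟨⟨py, ?_, sV mp ms, hzp.symm, ?_⟩, ⟨hqy.symm, sV my ms, hzy.symm, hxy.symm⟩,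
        ⟨sV mq ms, ?_, hxq.symm⟩, ⟨(sV mz ms).symm, (sV mx ms).symm⟩, ?_⟩
      · rintro rfl; omega
      · rintro rfl; omega
      · rintro rfl; omega
      · rintro rfl; omega
    have on := on_list n1 (by simpa using hE) (by
      simp only [List.forall_mem_cons, List.not_mem_nil, false_imp_iff, implies_true, and_true]
      and_intros <;> assumption)
    have le1 : ∀ a, e a ≤ 1 := by
      intro a
      rw [on a]
      split_ifs <;> omega
    have hfr : (fr c c' e Sd).card + (fr c' c e Sd').card = 0 := by
      by_contra h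
      obtain ⟨a, ha⟩ := kpos (allk (by omega) s (inT ms es))
      have := le1 a
      omega
    have notfree : ∀ {f : P}, f ∈ Sd → 1 ≤ e f → gu c e f := by
      intro f mf ef
      by_contra h
      have h1 : f ∈ fr c c' e Sd := by
        unfold fr
        rw [mem_filter]
        refine ⟨mf, ?_, h⟩
        rintro ⟨a, -, ha⟩
        have := le1 a
        omega
      have := frp h1
      omega
    have key : ∀ {f : P}, f ∈ Sd → t f = 1 → 1 ≤ e f → f ∈ c' s := by
      intro f mf tf ef
      obtain ⟨a, ha, hle⟩ := notfree mf ef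
      have ma := sit mf tf ha
      have h1 : a ∈ [p, y, q, s, z, x] := by
        by_contra h
        rw [on a, if_neg h] at hle
        omega
      simp only [List.mem_cons, List.not_mem_nil, or_false] at h1
      have has : a = s := by
        rcases h1 with h | h | h | h | h | h
        · exact absurd h.symm (sV mp ma)
        · exact absurd h.symm (sV my ma)
        · exact absurd h.symm (sV mq ma)
        · exact h
        · exact absurd h.symm (sV mz ma)
        · exact absurd h.symm (sV mx ma)
      rw [has] at ha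
      exact (S.dual _ _).1 ha
    have h3 : ({y, q, x} : Finset P) ⊆ c' s := by
      intro f hf
      rw [mem_insert, mem_insert, mem_singleton] at hf
      rcases hf with rfl | rfl | rfl
      · exact key my ty1 ey
      · exact key mq tq eq
      · exact key mx (by omega) ex
    have h4 := card_le_card h3
    rw [card_insert_of_notMem (by
        rw [mem_insert, mem_singleton, not_or]
        exact ⟨hqy.symm, hxy.symm⟩), card_pair hxq.symm] at h4
    have := S.c2' s
    omega
  -- no guarded killer above the window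
  have uppG : ∀ q ∈ Sd', t' q = 1 → gu c' e q → kl c' e q → False := by
    rintro q mq tq ⟨s, hs, hle⟩ hkl
    have eq : 1 ≤ e q := z_kl hkl
    obtain ⟨b, hb, hlt⟩ := hkl
    have hsb : s ≠ b := by rintro rfl; omega
    have hc2 : (c' q).card = 2 := by
      have h1 : ({s, b} : Finset P) ⊆ c' q := by
        intro a ha
        rw [mem_insert, mem_singleton] at ha
        rcases ha with rfl | rfl <;> assumption
      have h2 := card_le_card h1
      rw [card_pair hsb] at h2
      have := S'.c2 q
      omega
    have hqpsi : q ≠ psi y := by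
      rintro rfl
      have := R.u0
      omega
    obtain ⟨z, hz, ez⟩ := near' q mq tq eq
    obtain ⟨mz, tz, hqz⟩ := z_chd S' (Or.inl mq) hz
    obtain ⟨x, hx, hxq⟩ : ∃ x ∈ c' z, x ≠ q := by
      by_contra h
      push Not at h
      have hcz : c' z = {q} := eq_singleton_iff_unique_mem.2 ⟨hqz, h⟩
      exact hnf ⟨p, y, z, q, R.pen, ⟨mz, by omega, hcz, hc2⟩, ep, ez, hqpsi⟩
    obtain ⟨mx, tx, ex⟩ := z_cov S' C.adm2 mz (by omega) ez hx
    have ms := sit' mq tq hs
    have es : 1 ≤ e s := by omega
    have n1 : [p, y, q, s, z, x].Nodup := by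
      simp only [List.nodup_cons, List.mem_cons, List.not_mem_nil, or_false, not_or,
        List.nodup_nil, and_true, not_false_eq_true]
      refine ⟨⟨py, sS mp mq, sV mp ms, sS mp mz, sS mp mx⟩,
        ⟨sS my mq, sV my ms, sS my mz, sS my mx⟩,
        ⟨sV' mq ms, ?_, hxq.symm⟩, ⟨(sV' mz ms).symm, (sV' mx ms).symm⟩, ?_⟩
      · rintro rfl; omega
      · rintro rfl; omega
    have on := on_list n1 (by simpa using hE) (by
      simp only [List.forall_mem_cons, List.not_mem_nil, false_imp_iff, implies_true, and_true]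
      and_intros <;> assumption)
    have le1 : ∀ a, e a ≤ 1 := by
      intro a
      rw [on a]
      split_ifs <;> omega
    have hfr : (fr c c' e Sd).card + (fr c' c e Sd').card = 0 := by
      by_contra h
      obtain ⟨a, ha⟩ := kpos (allk (by omega) s (inT ms es))
      have := le1 a
      omega
    have notfree : gu c e y := by
      by_contra h
      have h1 : y ∈ fr c c' e Sd := by
        unfold fr
        rw [mem_filter]
        refine ⟨my, ?_, h⟩
        rintro ⟨a, -, ha⟩
        have := le1 a
        omega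
      have := frp h1
      omega
    have notfree' : ∀ {f : P}, f ∈ Sd' → 1 ≤ e f → gu c' e f := by
      intro f mf ef
      by_contra h
      have h1 : f ∈ fr c' c e Sd' := by
        unfold fr
        rw [mem_filter]
        refine ⟨mf, ?_, h⟩
        rintro ⟨a, -, ha⟩
        have := le1 a
        omega
      have := frp' h1
      omega
    have only : ∀ {a : P}, a ∈ V → 1 ≤ e a → a = s := by
      intro a ma ea
      have h1 : a ∈ [p, y, q, s, z, x] := by
        by_contra h
        rw [on a, if_neg h] at ea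
        omega
      simp only [List.mem_cons, List.not_mem_nil, or_false] at h1
      rcases h1 with h | h | h | h | h | h
      · exact absurd h.symm (sV mp ma)
      · exact absurd h.symm (sV my ma)
      · exact absurd h.symm (sV' mq ma)
      · exact h
      · exact absurd h.symm (sV' mz ma)
      · exact absurd h.symm (sV' mx ma)
    have keyU : ∀ {f : P}, f ∈ Sd' → t' f = 1 → 1 ≤ e f → f ∈ c s := by
      intro f mf tf ef
      obtain ⟨a, ha, hle⟩ := notfree' mf ef
      have has := only (sit' mf tf ha) (by omega)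
      rw [has] at ha
      exact (S'.dual _ _).1 ha
    obtain ⟨a, ha, hle'⟩ := notfree
    have has := only (sit my ty1 ha) (by omega)
    rw [has] at ha
    obtain ⟨g1, g2, g3, -⟩ := W.psi1 y my ty1 R.pen.cy
    rw [← g3] at ha
    have hpsi : psi y ∈ c s := (S'.dual _ _).1 ha
    have h3 : ({psi y, q, x} : Finset P) ⊆ c s := by
      intro f hf
      rw [mem_insert, mem_insert, mem_singleton] at hf
      rcases hf with rfl | rfl | rfl
      · exact hpsi
      · exact keyU mq tq eq
      · exact keyU mx (by omega) ex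
    have hxpsi : x ≠ psi y := by
      rintro rfl
      have := R.u0
      omega
    have h4 := card_le_card h3
    rw [card_insert_of_notMem (by
        rw [mem_insert, mem_singleton, not_or]
        exact ⟨hqpsi.symm, hxpsi.symm⟩), card_pair hxq.symm] at h4
    have := S.c2 s
    omega
  -- an unguarded near element different from `y` gives a free element
  have freeL : ∀ q ∈ Sd, t q = 1 → q ≠ y → kl c e q → ∃ f ∈ fr c c' e Sd, f ≠ y ∧ f ≠ p := by
    intro q mq tq hqy hkl
    have hng : ¬ gu c e q := fun h => lowG q mq tq hqy h hkl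
    have eq : 1 ≤ e q := z_kl hkl
    obtain ⟨f, hf, h1⟩ := free_of (c' := c') mq hng (by
      intro z hz hlt
      obtain ⟨mz, hzp, hzy, hzx⟩ := dn mq hqy hz (by omega)
      obtain ⟨-, tz, hqz⟩ := z_chd S (Or.inl mq) hz
      refine ⟨mz, ?_, ?_⟩
      · rintro ⟨x, hx, hle⟩
        obtain ⟨mx, tx, ex⟩ := z_cov S C.adm1 mz (by omega) (by omega) hx
        have n1 : [p, y, q, z, x].Nodup := by
          simp only [List.nodup_cons, List.mem_cons, List.not_mem_nil, or_false, not_or,
            List.nodup_nil, and_true, not_false_eq_true]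
          refine ⟨⟨py, ?_, hzp.symm, ?_⟩, ⟨hqy.symm, hzy.symm, (hzx x hx).symm⟩,
            ⟨?_, ?_⟩, ?_⟩
          · rintro rfl; omega
          · rintro rfl; omega
          · rintro rfl; omega
          · rintro rfl; omega
          · rintro rfl; omega
        have hT := tot (e := e) n1
        simp only [List.map_cons, List.sum_cons, List.map_nil, List.sum_nil] at hT
        omega
      · rintro ⟨w, hw, hlt2⟩
        obtain ⟨mw, tw, -⟩ := z_chd S (Or.inl mz) hw
        have n1 : [p, y, q, z, w].Nodup := by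
          simp only [List.nodup_cons, List.mem_cons, List.not_mem_nil, or_false, not_or,
            List.nodup_nil, and_true, not_false_eq_true]
          refine ⟨⟨py, ?_, hzp.symm, ?_⟩, ⟨hqy.symm, hzy.symm, ?_⟩, ⟨?_, ?_⟩, ?_⟩
          · rintro rfl; omega
          · rintro rfl; omega
          · rintro rfl; omega
          · rintro rfl; omega
          · rintro rfl; omega
          · rintro rfl; omega
        have hT := tot (e := e) n1
        simp only [List.map_cons, List.sum_cons, List.map_nil, List.sum_nil] at hT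
        omega)
    refine ⟨f, hf, ?_⟩
    rcases h1 with rfl | ⟨h1, h2⟩
    · exact ⟨hqy, by rintro rfl; omega⟩
    · obtain ⟨mz, hzp, hzy, hzx⟩ := dn mq hqy h1 (by omega)
      exact ⟨hzy, hzp⟩
  have freeU : ∀ q ∈ Sd', t' q = 1 → kl c' e q → ∃ f, f ∈ fr c' c e Sd' := by
    intro q mq tq hkl
    have hng : ¬ gu c' e q := fun h => uppG q mq tq h hkl
    have eq : 1 ≤ e q := z_kl hkl
    obtain ⟨f, hf, h1⟩ := free_of (c' := c) mq hng (by
      intro z hz hlt
      obtain ⟨mz, tz, hqz⟩ := z_chd S' (Or.inl mq) hz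
      refine ⟨mz, ?_, ?_⟩
      · rintro ⟨x, hx, hle⟩
        obtain ⟨mx, tx, ex⟩ := z_cov S' C.adm2 mz (by omega) (by omega) hx
        have n1 : [p, y, q, z, x].Nodup := by
          simp only [List.nodup_cons, List.mem_cons, List.not_mem_nil, or_false, not_or,
            List.nodup_nil, and_true, not_false_eq_true]
          refine ⟨⟨py, sS mp mq, sS mp mz, sS mp mx⟩, ⟨sS my mq, sS my mz, sS my mx⟩,
            ⟨?_, ?_⟩, ?_⟩
          · rintro rfl; omega
          · rintro rfl; omega
          · rintro rfl; omega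
        have hT := tot (e := e) n1
        simp only [List.map_cons, List.sum_cons, List.map_nil, List.sum_nil] at hT
        omega
      · rintro ⟨w, hw, hlt2⟩
        obtain ⟨mw, tw, -⟩ := z_chd S' (Or.inl mz) hw
        have n1 : [p, y, q, z, w].Nodup := by
          simp only [List.nodup_cons, List.mem_cons, List.not_mem_nil, or_false, not_or,
            List.nodup_nil, and_true, not_false_eq_true]
          refine ⟨⟨py, sS mp mq, sS mp mz, sS mp mw⟩, ⟨sS my mq, sS my mz, sS my mw⟩,
            ⟨?_, ?_⟩, ?_⟩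
          · rintro rfl; omega
          · rintro rfl; omega
          · rintro rfl; omega
        have hT := tot (e := e) n1
        simp only [List.map_cons, List.sum_cons, List.map_nil, List.sum_nil] at hT
        omega)
    exact ⟨f, hf⟩
  -- the killer of a killed site
  have killer : ∀ {b : P}, (b ∈ KD c' e V ∨ b ∈ KD c e V) →
      (∃ q ∈ Sd, t q = 1 ∧ b ∈ kn c e q) ∨ (∃ q ∈ Sd', t' q = 1 ∧ b ∈ kn c' e q) := by
    rintro b (h | h)
    · obtain ⟨mb, q, hq, hlt⟩ := mem_KD.1 h
      obtain ⟨m1, m2, m3⟩ := z_chd S (Or.inr mb) hq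
      exact Or.inl ⟨q, m1, by rw [m2, S.tV b mb], mem_kn.2 ⟨m3, hlt⟩⟩
    · obtain ⟨mb, q, hq, hlt⟩ := mem_KD.1 h
      obtain ⟨m1, m2, m3⟩ := z_chd S' (Or.inr mb) hq
      exact Or.inr ⟨q, m1, by rw [m2, S'.tV b mb], mem_kn.2 ⟨m3, hlt⟩⟩
  have klk : ∀ {c : P → Finset P} {b q : P}, b ∈ kn c e q → kl c e q := by
    intro c b q h
    exact kl_iff.2 ⟨b, h⟩
  by_cases gy : gu c e y
  · have hy1 := S.kn_le_one gy
    obtain ⟨s, hs, hle⟩ := gy
    have ms := sit my ty1 hs
    have es : 1 ≤ e s := by omega
    obtain ⟨b, hb, hby⟩ : ∃ b ∈ KD c' e V ∪ KD c e V, b ∉ kn c e y := by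
      by_contra h
      push Not at h
      have h2 : KD c' e V ∪ KD c e V ⊆ kn c e y := h
      have h3 := card_le_card h2
      omega
    have hF1 : 1 ≤ (fr c c' e Sd).card + (fr c' c e Sd').card := by
      rcases killer (mem_union.1 hb) with ⟨q, mq, tq, hq⟩ | ⟨q, mq, tq, hq⟩
      · have hqy : q ≠ y := by
          rintro rfl
          exact hby hq
        obtain ⟨f', hf', n1, n2⟩ := freeL q mq tq hqy (klk hq)
        have := frp hf'
        omega
      · obtain ⟨f', hf'⟩ := freeU q mq tq (klk hq)
        have := frp' hf'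
        omega
    rcases killer (allk hF1 s (inT ms es)) with ⟨k, mk, tk, hk1⟩ | ⟨k, mk, tk, hk1⟩
    · obtain ⟨hk2, hk3⟩ := mem_kn.1 hk1
      have hky : k ≠ y := by rintro rfl; omega
      obtain ⟨z, hz, ez⟩ := near k mk tk (by omega)
      obtain ⟨mz, hzp, hzy, hzx⟩ := dn mk hky hz ez
      obtain ⟨-, tz, hkz⟩ := z_chd S (Or.inl mk) hz
      have n1 : [p, y, s, k, z].Nodup := by
        simp only [List.nodup_cons, List.mem_cons, List.not_mem_nil, or_false, not_or,
          List.nodup_nil, and_true, not_false_eq_true]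
        refine ⟨⟨py, sV mp ms, ?_, hzp.symm⟩, ⟨sV my ms, hky.symm, hzy.symm⟩,
          ⟨(sV mk ms).symm, (sV mz ms).symm⟩, ?_⟩
        · rintro rfl; omega
        · rintro rfl; omega
      have pos : ∀ {a : P}, 1 ≤ e a → a = p ∨ a = y ∨ a = s ∨ a = k ∨ a = z := by
        intro a ha
        have := tot_pos n1 hE (by
          simp only [List.map_cons, List.sum_cons, List.map_nil, List.sum_nil]
          omega) ha
        simpa only [List.mem_cons, List.not_mem_nil, or_false] using this
      have nearL : ∀ {a : P}, a ∈ Sd → t a = 1 → 1 ≤ e a → a = y ∨ a = k := by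
        intro a ma ta ea
        rcases pos ea with h | h | h | h | h
        · rw [h] at ta; omega
        · exact Or.inl h
        · exact absurd h (sV ma ms)
        · exact Or.inr h
        · rw [h] at ta; omega
      have hcz : c z = {k} := by
        refine eq_singleton_iff_unique_mem.2 ⟨hkz, fun x hx => ?_⟩
        obtain ⟨mx, tx, ex⟩ := z_cov S C.adm1 mz (by omega) ez hx
        rcases nearL mx (by omega) ex with h | h
        · exact absurd h (hzx x hx)
        · exact h
      have hck : (kn c e k).card ≤ 1 := by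
        have h1 : (kn c e k).card ≤ (c k).card := card_le_card (filter_subset _ _)
        have h2 := S.c2 k
        by_contra h3
        exact hzp (pd z k p y ⟨mz, by omega, hcz, by omega⟩ R.pen ez ep)
      have hsub2 : KD c' e V ∪ KD c e V ⊆ kn c e y ∪ kn c e k := by
        intro a ha
        rw [mem_union]
        rcases killer (mem_union.1 ha) with ⟨q, mq, tq, hq⟩ | ⟨q, mq, tq, hq⟩
        · rcases nearL mq tq (z_kl (klk hq)) with h | h
          · rw [h] at hq; exact Or.inl hq
          · rw [h] at hq; exact Or.inr hq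
        · exfalso
          rcases pos (z_kl (klk hq)) with h | h | h | h | h
          · exact sS mp mq h.symm
          · exact sS my mq h.symm
          · exact sV' mq ms h
          · exact sS mk mq h.symm
          · exact sS mz mq h.symm
      have h4 := card_le_card hsub2
      have h5 := card_union_le (kn c e y) (kn c e k)
      omega
    · obtain ⟨hk2, hk3⟩ := mem_kn.1 hk1
      obtain ⟨z, hz, ez⟩ := near' k mk tk (by omega)
      obtain ⟨mz, tz, hkz⟩ := z_chd S' (Or.inl mk) hz
      have n1 : [p, y, s, k, z].Nodup := by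
        simp only [List.nodup_cons, List.mem_cons, List.not_mem_nil, or_false, not_or,
          List.nodup_nil, and_true, not_false_eq_true]
        refine ⟨⟨py, sV mp ms, sS mp mk, sS mp mz⟩, ⟨sV my ms, sS my mk, sS my mz⟩,
          ⟨(sV' mk ms).symm, (sV' mz ms).symm⟩, ?_⟩
        · rintro rfl; omega
      have pos : ∀ {a : P}, 1 ≤ e a → a = p ∨ a = y ∨ a = s ∨ a = k ∨ a = z := by
        intro a ha
        have := tot_pos n1 hE (by
          simp only [List.map_cons, List.sum_cons, List.map_nil, List.sum_nil]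
          omega) ha
        simpa only [List.mem_cons, List.not_mem_nil, or_false] using this
      have nearL : ∀ {a : P}, a ∈ Sd → t a = 1 → 1 ≤ e a → a = y := by
        intro a ma ta ea
        rcases pos ea with h | h | h | h | h
        · rw [h] at ta; omega
        · exact h
        · exact absurd h (sV ma ms)
        · exact absurd h (sS ma mk)
        · exact absurd h (sS ma mz)
      have nearU : ∀ {a : P}, a ∈ Sd' → t' a = 1 → 1 ≤ e a → a = k := by
        intro a ma ta ea
        rcases pos ea with h | h | h | h | h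
        · exact absurd h.symm (sS mp ma)
        · exact absurd h.symm (sS my ma)
        · exact absurd h (sV' ma ms)
        · exact h
        · rw [h] at ta; omega
      have hcz : c' z = {k} := by
        refine eq_singleton_iff_unique_mem.2 ⟨hkz, fun x hx => ?_⟩
        obtain ⟨mx, tx, ex⟩ := z_cov S' C.adm2 mz (by omega) ez hx
        exact nearU mx (by omega) ex
      have hck : (kn c' e k).card ≤ 1 := by
        have h1 : (kn c' e k).card ≤ (c' k).card := card_le_card (filter_subset _ _)
        have h2 := S'.c2 k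
        by_contra h3
        refine hnf ⟨p, y, z, k, R.pen, ⟨mz, by omega, hcz, by omega⟩, ep, ez, ?_⟩
        rintro rfl
        have := R.u0
        omega
      have hsub2 : KD c' e V ∪ KD c e V ⊆ kn c e y ∪ kn c' e k := by
        intro a ha
        rw [mem_union]
        rcases killer (mem_union.1 ha) with ⟨q, mq, tq, hq⟩ | ⟨q, mq, tq, hq⟩
        · rw [nearL mq tq (z_kl (klk hq))] at hq
          exact Or.inl hq
        · rw [nearU mq tq (z_kl (klk hq))] at hq
          exact Or.inr hq
      have h4 := card_le_card hsub2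
      have h5 := card_union_le (kn c e y) (kn c' e k)
      omega
  · -- `y` kills both its sites
    obtain ⟨f, hf, h1⟩ := free_of (c' := c') my gy (by
      intro z hz hlt
      have hzp : z = p := by
        by_contra h
        have := R.dy z hz h
        omega
      subst hzp
      refine ⟨mp, ?_, ?_⟩
      · rintro ⟨x, hx, hle⟩
        rw [hcp hx] at hle
        omega
      · rintro ⟨x, hx, hle⟩
        have := R.dp x hx
        omega)
    have hfyp : f = y ∨ f = p := by
      rcases h1 with h1 | ⟨h1, h2⟩
      · exact Or.inl h1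
      · right
        by_contra h
        have := R.dy f h1 h
        omega
    have hf1 := frp hf
    obtain ⟨b, hb, hby⟩ : ∃ b ∈ KD c' e V ∪ KD c e V, b ∉ c y := by
      by_contra h
      push Not at h
      have h2 : KD c' e V ∪ KD c e V ⊆ c y := h
      have h3 := card_le_card h2
      rw [R.pen.cy] at h3
      omega
    rcases killer (mem_union.1 hb) with ⟨q, mq, tq, hq⟩ | ⟨q, mq, tq, hq⟩
    · have hqy : q ≠ y := by
        rintro rfl
        exact hby (mem_kn.1 hq).1
      obtain ⟨f', hf', n1, n2⟩ := freeL q mq tq hqy (klk hq)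
      have hne : f ≠ f' := by
        rintro rfl
        rcases hfyp with h | h
        · exact n1 h
        · exact n2 h
      have h4 : ({f, f'} : Finset P) ⊆ fr c c' e Sd := by
        intro a ha
        rw [mem_insert, mem_singleton] at ha
        rcases ha with rfl | rfl <;> assumption
      have h5 := card_le_card h4
      rw [card_pair hne] at h5
      omega
    · obtain ⟨f', hf'⟩ := freeU q mq tq (klk hq)
      have := frp' hf'
      omega

end Pool.Agent.GaussPoset.Win.Pf

end

/-! From `Pool.Agent.W_448pn_h63.QaB` -/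

section

/-!
# Flip parts with three sites: the labellings of energy six over a flip
(MP_448cb3_co, G2, window `j - 1`)
-/

set_option autoImplicit false

namespace Pool.Agent.GaussPoset.Win.Pf

set_option linter.unusedSectionVars false

open Finset
open Pool.Agent.GaussPoset.Win.SO (on PSO PS5)

universe u

variable {P : Type u} [Fintype P] [PartialOrder P] [DecidableEq P] {r i : ℕ} {psi : P → P}
  {e : P → ℕ} {C : Finset P}

/-- a flip in a part with three sites: `p` below `y` with the sites `a, s`, `q` above `u` with the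
sites `s, b` -/
structure Flp (i : ℕ) (C : Finset P) (p y q u a s b : P) : Prop where
  mp : p ∈ C
  mq : q ∈ C
  lp : lev p = i + 2
  ly : lev y = i + 1
  lq : lev q + 2 = i
  lu : lev u + 1 = i
  cp : uc p = {y}
  cy : uc y = {a, s}
  cq : dc q = {u}
  cu : dc u = {s, b}
  as : a ≠ s
  sb : s ≠ b
  ab : a ≠ b
  st : Win.st i C = {a, s, b}

/-- parts with at most one pendant on each side and no closed pair -/
structure Pt (r i : ℕ) (psi : P → P) (C : Finset P) : Prop extends PSO r i psi C where
  ncl : ∀ w ∈ C, ∀ w' ∈ C, ∀ x x' : P, lev w = i + 2 → x ≠ x' → uc w = {x, x'} →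
    uc w' = {x, x'} → (uc x).card = 2 → (uc x').card = 2 → w = w'
  ncu : ∀ w ∈ C, ∀ w' ∈ C, ∀ x x' : P, lev w + 2 = i → x ≠ x' → dc w = {x, x'} →
    dc w' = {x, x'} → (dc x).card = 2 → (dc x').card = 2 → w = w'

variable {p y q u a s b g : P}

namespace Flp

variable (F : Flp i C p y q u a s b)
include F

lemma pD : p ∈ PD P i := mem_PD.2 ⟨F.lp, by rw [F.cp]; exact card_singleton _, y,
  by rw [← mem_uc, F.cp]; exact mem_singleton_self _, by rw [F.cy]; exact card_pair F.as⟩

lemma qU : q ∈ PU P i := mem_PU.2 ⟨F.lq, by rw [F.cq]; exact card_singleton _, u,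
  by rw [← mem_dc, F.cq]; exact mem_singleton_self _, by rw [F.cu]; exact card_pair F.sb⟩

lemma py : p ⋖ y := by rw [← mem_uc, F.cp]; exact mem_singleton_self _
lemma uq : u ⋖ q := by rw [← mem_dc, F.cq]; exact mem_singleton_self _
lemma ya : y ⋖ a := by rw [← mem_uc, F.cy]; exact mem_insert_self _ _
lemma ys : y ⋖ s := by rw [← mem_uc, F.cy]; exact mem_insert_of_mem (mem_singleton_self _)
lemma su : s ⋖ u := by rw [← mem_dc, F.cu]; exact mem_insert_self _ _
lemma bu : b ⋖ u := by rw [← mem_dc, F.cu]; exact mem_insert_of_mem (mem_singleton_self _)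

lemma la : lev a = i := (mem_st.1 (by rw [F.st]; exact mem_insert_self _ _)).2
lemma ls : lev s = i :=
  (mem_st.1 (by rw [F.st]; exact mem_insert_of_mem (mem_insert_self _ _))).2
lemma lb : lev b = i :=
  (mem_st.1 (by rw [F.st]; exact mem_insert_of_mem (mem_insert_of_mem
    (mem_singleton_self _)))).2
lemma sC : s ∈ C := (mem_st.1 (by rw [F.st]; exact mem_insert_of_mem (mem_insert_self _ _))).1

lemma b3 : (Win.st i C).card = 3 := by
  rw [F.st, card_insert_of_notMem, card_pair F.sb]
  rw [mem_insert, mem_singleton, not_or]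
  exact ⟨F.as, F.ab⟩

lemma yC (hC : Part (i + 1) C) : y ∈ C := hC.up F.mp F.py
lemma uC (hC : Part (i + 1) C) : u ∈ C := hC.dn F.mq (by have := F.lq; omega) F.uq

/-- the five elements are different -/
lemma nd : [p, y, s, u, q].Nodup := by
  have h1 := F.lp
  have h2 := F.ly
  have h3 := F.ls
  have h4 := F.lu
  have h5 := F.lq
  have hl : ∀ {v w : P}, lev v ≠ lev w → v ≠ w := fun h h' => h (by rw [h'])
  simp only [List.nodup_cons, List.mem_cons, List.not_mem_nil, or_false, not_or,
    List.nodup_nil, and_true, not_false_eq_true]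
  refine ⟨⟨hl ?_, hl ?_, hl ?_, hl ?_⟩, ⟨hl ?_, hl ?_, hl ?_⟩, ⟨hl ?_, hl ?_⟩, hl ?_⟩ <;> omega

end Flp

/-- labels one on the five elements of a flip -/
def bs (p y q u s : P) : P → ℕ := on {p, y, s, u, q}

lemma bs_apply (x : P) : bs p y q u s x =
    if x = p ∨ x = y ∨ x = s ∨ x = u ∨ x = q then 1 else 0 := by
  unfold bs on
  simp only [mem_insert, mem_singleton]

lemma bs_one (F : Flp i C p y q u a s b) : bs p y q u s p = 1 ∧ bs p y q u s y = 1 ∧
    bs p y q u s s = 1 ∧ bs p y q u s u = 1 ∧ bs p y q u s q = 1 := by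
  simp only [bs_apply]
  simp

/-- the sum of the labels of the flip -/
lemma bs_sum (F : Flp i C p y q u a s b) : ∑ x, bs p y q u s x = 5 := by
  unfold bs on
  rw [Finset.sum_ite_mem, univ_inter, Finset.sum_const, smul_eq_mul, mul_one]
  have h : ({p, y, s, u, q} : Finset P) = [p, y, s, u, q].toFinset := by simp
  rw [h, List.toFinset_card_of_nodup F.nd]
  rfl

/-- one more unit -/
noncomputable def bg (p y q u s g : P) : P → ℕ := bs p y q u s + Pi.single g 1

lemma bg_apply (x : P) : bg p y q u s g x =
    (if x = p ∨ x = y ∨ x = s ∨ x = u ∨ x = q then 1 else 0) + if x = g then 1 else 0 := by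
  unfold bg
  rw [Pi.add_apply, bs_apply, Pi.single_apply]

lemma bg_sum (F : Flp i C p y q u a s b) : ∑ x, bg p y q u s g x = 6 := by
  have h : ∑ x, (Pi.single g 1 : P → ℕ) x = 1 := by
    rw [Finset.sum_pi_single']
    simp
  unfold bg
  simp only [Pi.add_apply]
  rw [Finset.sum_add_distrib, bs_sum F, h]

/-- labels of `bg` outside the five elements -/
lemma bg_out (F : Flp i C p y q u a s b) {x : P} (h : x ≠ p) (h1 : x ≠ y) (h2 : x ≠ s)
    (h3 : x ≠ u) (h4 : x ≠ q) : bg p y q u s g x = if x = g then 1 else 0 := by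
  rw [bg_apply, if_neg, zero_add]
  rintro (h5 | h5 | h5 | h5 | h5)
  · exact h h5
  · exact h1 h5
  · exact h2 h5
  · exact h3 h5
  · exact h4 h5

lemma bg_in (g : P) {x : P} (h : x = p ∨ x = y ∨ x = s ∨ x = u ∨ x = q) :
    bg p y q u s g x = 1 + if x = g then 1 else 0 := by
  rw [bg_apply, if_pos h]

/-- the units which keep two deficits -/
noncomputable def G6 (C : Finset P) (p y q u s : P) : Finset P :=
  {y, u, s} ∪ (FLo C p ∪ FUp C q)

lemma mem_G6 : g ∈ G6 C p y q u s ↔
    g = y ∨ g = u ∨ g = s ∨ (g ∈ C ∧ uc g = {p}) ∨ (g ∈ C ∧ dc g = {q}) := by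
  unfold G6
  rw [mem_union, mem_union, mem_FLo, mem_FUp, mem_insert, mem_insert, mem_singleton]
  tauto

section facts

variable (Q : PSO r i psi C) (F : Flp i C p y q u a s b)
include Q F

/-- the other lower cover of the common site -/
lemma dcs (h : g ⋖ s) (hne : g ≠ y) : g ⋖ b := by
  classical
  have hd : u ∈ dbU P i := by
    unfold dbU
    rw [mem_filter]
    exact ⟨mem_univ _, F.lu, by rw [F.cu]; exact card_pair F.sb⟩
  obtain ⟨g1, g2⟩ := Q.hM.upp u hd (notMem_empty _)
  have hs : s ∈ uc (psi u) := by rw [g2, F.cu]; exact mem_insert_self _ _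
  have hb : b ∈ uc (psi u) := by
    rw [g2, F.cu]; exact mem_insert_of_mem (mem_singleton_self _)
  have hyu : psi u ≠ y := by
    intro h1
    rw [h1, F.cy, mem_insert, mem_singleton] at hb
    rcases hb with h2 | h2
    · exact F.ab h2.symm
    · exact F.sb h2.symm
  have hg : g = psi u := by
    by_contra hgu
    have h3 : ({g, psi u, y} : Finset P) ⊆ dc s := by
      intro x hx
      rw [mem_insert, mem_insert, mem_singleton] at hx
      rcases hx with rfl | rfl | rfl
      · exact mem_dc.2 h
      · exact mem_dc.2 (mem_uc.1 hs)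
      · exact mem_dc.2 F.ys
    have h4 := card_le_card h3
    rw [card_insert_of_notMem (by
      rw [mem_insert, mem_singleton, not_or]
      exact ⟨hgu, hne⟩), card_pair hyu] at h4
    have := dc_card_le Q.H s
    omega
  rw [hg]
  exact mem_uc.1 hb

/-- the other upper cover of the common site -/
lemma ucs (h : s ⋖ g) (hne : g ≠ u) : a ⋖ g := by
  classical
  have hd : y ∈ dbL P i := by
    unfold dbL
    rw [mem_filter]
    exact ⟨mem_univ _, F.ly, by rw [F.cy]; exact card_pair F.as⟩
  obtain ⟨g1, g2⟩ := Q.hM.low y hd (notMem_empty _)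
  have hs : s ∈ dc (psi y) := by
    rw [g2, F.cy]; exact mem_insert_of_mem (mem_singleton_self _)
  have hb : a ∈ dc (psi y) := by rw [g2, F.cy]; exact mem_insert_self _ _
  have hyu : psi y ≠ u := by
    intro h1
    rw [h1, F.cu, mem_insert, mem_singleton] at hb
    rcases hb with h2 | h2
    · exact F.as h2
    · exact F.ab h2
  have hg : g = psi y := by
    by_contra hgu
    have h3 : ({g, psi y, u} : Finset P) ⊆ uc s := by
      intro x hx
      rw [mem_insert, mem_insert, mem_singleton] at hx
      rcases hx with rfl | rfl | rfl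
      · exact mem_uc.2 h
      · exact mem_uc.2 (mem_dc.1 hs)
      · exact mem_uc.2 F.su
    have h4 := card_le_card h3
    rw [card_insert_of_notMem (by
      rw [mem_insert, mem_singleton, not_or]
      exact ⟨hgu, hne⟩), card_pair hyu] at h4
    have := uc_card_le Q.H s
    omega
  rw [hg]
  exact mem_dc.1 hb

lemma site3 {v : P} (hv : v ∈ C) (hl : lev v = i) : v = a ∨ v = s ∨ v = b := by
  have h : v ∈ Win.st i C := mem_st.2 ⟨hv, hl⟩
  rw [F.st, mem_insert, mem_insert, mem_singleton] at h
  exact h

/-- killers below the window -/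
lemma AL_bg {v : P} (hv : v ∈ AL i (bg p y q u s g)) :
    (v = a ∧ g ≠ a) ∨ (v = s ∧ g = y) ∨ (g ≠ y ∧ lev g = i + 1 ∧ g ⋖ v) := by
  rw [NormD_mem_AL] at hv
  obtain ⟨hl, z, hz, hlt⟩ := hv
  have hlz := lev_cov Q.H hz
  have h1 := F.lp
  have h2 := F.ly
  have h3 := F.ls
  have h4 := F.lu
  have h5 := F.lq
  have hla := F.la
  have hl' : ∀ {v w : P}, lev v ≠ lev w → v ≠ w := fun h h' => h (by rw [h'])
  by_cases hzy : z = y
  · rw [hzy] at hz hlt
    rw [← mem_uc, F.cy, mem_insert, mem_singleton] at hz
    rw [bg_in g (x := y) (Or.inr (Or.inl rfl))] at hlt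
    rcases hz with hz | hz
    · left
      refine ⟨hz, ?_⟩
      rintro rfl
      rw [hz, bg_out F (hl' (by omega)) (hl' (by omega)) F.as (hl' (by omega))
        (hl' (by omega)), if_pos rfl, if_neg (hl' (by omega))] at hlt
      omega
    · right; left
      refine ⟨hz, ?_⟩
      rw [hz, bg_in g (x := s) (Or.inr (Or.inr (Or.inl rfl)))] at hlt
      by_contra h
      rw [if_neg (Ne.symm h)] at hlt
      omega
  · right; right
    have : bg p y q u s g z = if z = g then 1 else 0 :=
      bg_out F (hl' (by omega)) hzy (hl' (by omega)) (hl' (by omega)) (hl' (by omega))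
    rw [this] at hlt
    have hzg : z = g := by
      by_contra h
      rw [if_neg h] at hlt
      omega
    rw [← hzg]
    exact ⟨hzy, by omega, hz⟩

/-- killers above the window -/
lemma AU_bg {v : P} (hv : v ∈ AU i (bg p y q u s g)) :
    (v = b ∧ g ≠ b) ∨ (v = s ∧ g = u) ∨ (g ≠ u ∧ lev g + 1 = i ∧ v ⋖ g) := by
  rw [NormD_mem_AU] at hv
  obtain ⟨hl, z, hz, hlt⟩ := hv
  have hlz := lev_cov Q.H hz
  have h1 := F.lp
  have h2 := F.ly
  have h3 := F.ls
  have h4 := F.lu
  have h5 := F.lq
  have hlb := F.lb
  have hl' : ∀ {v w : P}, lev v ≠ lev w → v ≠ w := fun h h' => h (by rw [h'])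
  by_cases hzy : z = u
  · rw [hzy] at hz hlt
    rw [← mem_dc, F.cu, mem_insert, mem_singleton] at hz
    rw [bg_in g (x := u) (Or.inr (Or.inr (Or.inr (Or.inl rfl))))] at hlt
    rcases hz with hz | hz
    · right; left
      refine ⟨hz, ?_⟩
      rw [hz, bg_in g (x := s) (Or.inr (Or.inr (Or.inl rfl)))] at hlt
      by_contra h
      rw [if_neg (Ne.symm h)] at hlt
      omega
    · left
      refine ⟨hz, ?_⟩
      rintro rfl
      rw [hz, bg_out F (hl' (by omega)) (hl' (by omega)) F.sb.symm (hl' (by omega))
        (hl' (by omega)), if_pos rfl, if_neg (hl' (by omega))] at hlt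
      omega
  · right; right
    have : bg p y q u s g z = if z = g then 1 else 0 :=
      bg_out F (hl' (by omega)) (hl' (by omega)) (hl' (by omega)) hzy (hl' (by omega))
    rw [this] at hlt
    have hzg : z = g := by
      by_contra h
      rw [if_neg h] at hlt
      omega
    rw [← hzg]
    exact ⟨hzy, by omega, hz⟩

end facts

/-- ONE MORE UNIT OUTSIDE THE LIST: at most one deficit -/
theorem cheap_g (Q : PSO r i psi C) (F : Flp i C p y q u a s b) (hg : g ∈ C)
    (hG : g ∉ G6 C p y q u s) : Cheap 1 i (bg p y q u s g) := by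
  classical
  have H := Q.H
  have h1 := F.lp
  have h2 := F.ly
  have h3 := F.ls
  have h4 := F.lu
  have h5 := F.lq
  have hla := F.la
  have hlb := F.lb
  have hl' : ∀ {v w : P}, lev v ≠ lev w → v ≠ w := fun h h' => h (by rw [h'])
  rw [mem_G6, not_or, not_or, not_or, not_or] at hG
  obtain ⟨gy, gu, gs, gf, gf'⟩ := hG
  have ea : g ≠ a → bg p y q u s g a = 0 := fun h => by
    rw [bg_out F (hl' (by omega)) (hl' (by omega)) F.as (hl' (by omega)) (hl' (by omega)),
      if_neg (Ne.symm h)]
  have eb : g ≠ b → bg p y q u s g b = 0 := fun h => by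
    rw [bg_out F (hl' (by omega)) (hl' (by omega)) F.sb.symm (hl' (by omega)) (hl' (by omega)),
      if_neg (Ne.symm h)]
  have eg : g ≠ p → g ≠ q → bg p y q u s g g = 1 := fun h h' => by
    rw [bg_out F h gy gs gu h', if_pos rfl]
  have ey : bg p y q u s g y = 1 := by
    rw [bg_in g (Or.inr (Or.inl rfl)), if_neg (Ne.symm gy)]
  have es : bg p y q u s g s = 1 := by
    rw [bg_in g (Or.inr (Or.inr (Or.inl rfl))), if_neg (Ne.symm gs)]
  have eu : bg p y q u s g u = 1 := by
    rw [bg_in g (Or.inr (Or.inr (Or.inr (Or.inl rfl)))), if_neg (Ne.symm gu)]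
  -- levels
  rcases Nat.lt_trichotomy (lev g) i with hlg | hlg | hlg
  · -- above the window
    by_cases hlg1 : lev g + 1 = i
    · have hnp : g ≠ p := hl' (by omega)
      have hnq : g ≠ q := hl' (by omega)
      have hna : g ≠ a := hl' (by omega)
      have hnb : g ≠ b := hl' (by omega)
      by_cases hag : a ⋖ g
      · right; right; left
        intro hd
        have m1 : a ∈ AL i (bg p y q u s g) := by
          rw [NormD_mem_AL]
          exact ⟨hla, y, F.ya, by rw [ea hna, ey]; exact Nat.zero_lt_one⟩
        have m2 : a ∈ AU i (bg p y q u s g) := by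
          rw [NormD_mem_AU]
          exact ⟨hla, g, hag, by rw [ea hna, eg hnp hnq]; exact Nat.zero_lt_one⟩
        exact disjoint_left.1 hd m1 m2
      · have hsg : ¬ s ⋖ g := fun h => hag (ucs Q F h gu)
        have hdg : ∀ v, v ⋖ g → v = b := by
          intro v hv
          have hlv := lev_cov H hv
          rcases site3 Q F (Q.hC.dn hg (by omega) hv) (by omega) with h | h | h
          · rw [h] at hv; exact absurd hv hag
          · rw [h] at hv; exact absurd hv hsg
          · exact h
        right; right; right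
        have hp : 1 ≤ pU i (bg p y q u s g) := by
          unfold pU
          apply card_pos.2
          refine ⟨g, mem_filter.2 ⟨mem_univ _, hlg, ?_, ?_⟩⟩
          · rintro ⟨z, hz, hlt⟩
            have hlz := lev_cov H hz
            rw [eg hnp hnq] at hlt
            by_cases hzq : z = q
            · rw [hzq, bg_in g (Or.inr (Or.inr (Or.inr (Or.inr rfl)))),
                if_neg (Ne.symm hnq)] at hlt
              omega
            · rw [bg_out F (hl' (by omega)) (hl' (by omega)) (hl' (by omega)) (hl' (by omega))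
                hzq, if_neg (hl' (by omega))] at hlt
              omega
          · rintro ⟨z, hz, hle⟩
            rw [hdg z hz, eb hnb, eg hnp hnq] at hle
            omega
        have h6 : AL i (bg p y q u s g) ⊆ {a} := by
          intro v hv
          rw [mem_singleton]
          rcases AL_bg Q F hv with h | h | h
          · exact h.1
          · exact absurd h.2 gy
          · omega
        have h7 : AU i (bg p y q u s g) ⊆ {b} := by
          intro v hv
          rw [mem_singleton]
          rcases AU_bg Q F hv with h | h | h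
          · exact h.1
          · exact absurd h.2 gu
          · exact hdg v h.2.2
        have h8 := card_le_card h6
        have h9 := card_le_card h7
        rw [card_singleton] at h8 h9
        omega
    · by_cases hgq : g = q
      · right; left
        intro hA
        refine hA u (by omega) ⟨⟨q, F.uq, ?_⟩, ⟨s, F.su, by rw [eu, es]⟩⟩
        rw [eu, bg_in g (x := q) (Or.inr (Or.inr (Or.inr (Or.inr rfl)))), if_pos hgq.symm]
        omega
      · have hnp : g ≠ p := hl' (by omega)
        right; left
        intro hA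
        have key : ∀ x, x ⋖ g → bg p y q u s g x ≠ 0 := by
          intro x hx h0
          have hlx := lev_cov H hx
          refine hA x (by omega) ⟨⟨g, hx, by rw [h0, eg hnp hgq]; exact Nat.zero_lt_one⟩, ?_⟩
          obtain ⟨w, hw⟩ := dc_nonempty H (x := x) (by have := Q.hi2; omega)
          exact ⟨w, mem_dc.1 hw, by rw [h0]; exact Nat.zero_le _⟩
        have key2 : ∀ x, x ⋖ g → x = u ∨ x = q := by
          intro x hx
          have hlx := lev_cov H hx
          by_contra h
          rw [not_or] at h
          apply key x hx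
          rw [bg_out F (hl' (by omega)) (hl' (by omega)) (hl' (by omega)) h.1 h.2,
            if_neg (hl' (by omega))]
        obtain ⟨x, hx⟩ := dc_nonempty H (x := g) (by have := Q.hi2; omega)
        have hlx := lev_cov H (mem_dc.1 hx)
        rcases key2 x (mem_dc.1 hx) with h | h
        · apply hgq
          refine Q.pu g hg q F.mq ?_ F.qU
          have hdg : dc g = {u} := by
            refine eq_singleton_iff_unique_mem.2 ⟨by rw [← h]; exact hx, fun x' hx' => ?_⟩
            have hlx' := lev_cov H (mem_dc.1 hx')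
            rcases key2 x' (mem_dc.1 hx') with h' | h'
            · exact h'
            · rw [h'] at hlx'
              rw [h] at hlx
              omega
          exact mem_PU.2 ⟨by rw [h] at hlx; omega, by rw [hdg]; exact card_singleton _, u,
            by rw [← mem_dc, hdg]; exact mem_singleton_self _,
            by rw [F.cu]; exact card_pair F.sb⟩
        · apply gf'
          refine ⟨hg, eq_singleton_iff_unique_mem.2 ⟨by rw [← h]; exact hx, fun x' hx' => ?_⟩⟩
          have hlx' := lev_cov H (mem_dc.1 hx')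
          rcases key2 x' (mem_dc.1 hx') with h' | h'
          · rw [h'] at hlx'
            rw [h] at hlx
            omega
          · exact h'
  · -- sites
    have h6 : g = a ∨ g = b := by
      rcases site3 Q F hg hlg with h | h | h
      · exact Or.inl h
      · exact absurd h gs
      · exact Or.inr h
    right; right; right
    have h7 : AL i (bg p y q u s g) ⊆ ({a} : Finset P).erase g := by
      intro v hv
      rw [mem_erase, mem_singleton]
      rcases AL_bg Q F hv with h | h | h
      · exact ⟨by rw [h.1]; exact Ne.symm h.2, h.1⟩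
      · exact absurd h.2 gy
      · omega
    have h8 : AU i (bg p y q u s g) ⊆ ({b} : Finset P).erase g := by
      intro v hv
      rw [mem_erase, mem_singleton]
      rcases AU_bg Q F hv with h | h | h
      · exact ⟨by rw [h.1]; exact Ne.symm h.2, h.1⟩
      · exact absurd h.2 gu
      · omega
    have h9 := card_le_card h7
    have h10 := card_le_card h8
    rcases h6 with h | h
    · rw [h] at h9 h10
      rw [card_erase_of_mem (mem_singleton_self _), card_singleton] at h9
      have := card_erase_le (s := ({b} : Finset P)) (a := a)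
      rw [card_singleton] at this
      rw [h]
      omega
    · rw [h] at h9 h10
      rw [card_erase_of_mem (mem_singleton_self _), card_singleton] at h10
      have := card_erase_le (s := ({a} : Finset P)) (a := b)
      rw [card_singleton] at this
      rw [h]
      omega
  · -- below the window
    by_cases hlg1 : lev g = i + 1
    · have hnp : g ≠ p := hl' (by omega)
      have hnq : g ≠ q := hl' (by omega)
      have hna : g ≠ a := hl' (by omega)
      have hnb : g ≠ b := hl' (by omega)
      by_cases hbg : g ⋖ b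
      · right; right; left
        intro hd
        have m1 : b ∈ AL i (bg p y q u s g) := by
          rw [NormD_mem_AL]
          exact ⟨hlb, g, hbg, by rw [eb hnb, eg hnp hnq]; exact Nat.zero_lt_one⟩
        have m2 : b ∈ AU i (bg p y q u s g) := by
          rw [NormD_mem_AU]
          exact ⟨hlb, u, F.bu, by rw [eb hnb, eu]; exact Nat.zero_lt_one⟩
        exact disjoint_left.1 hd m1 m2
      · have hsg : ¬ g ⋖ s := fun h => hbg (dcs Q F h gy)
        have hdg : ∀ v, g ⋖ v → v = a := by
          intro v hv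
          have hlv := lev_cov H hv
          rcases site3 Q F (Q.hC.up hg hv) (by omega) with h | h | h
          · exact h
          · rw [h] at hv; exact absurd hv hsg
          · rw [h] at hv; exact absurd hv hbg
        right; right; right
        have hp : 1 ≤ pL i (bg p y q u s g) := by
          unfold pL
          apply card_pos.2
          refine ⟨g, mem_filter.2 ⟨mem_univ _, hlg, ?_, ?_⟩⟩
          · rintro ⟨z, hz, hlt⟩
            have hlz := lev_cov H hz
            rw [eg hnp hnq] at hlt
            by_cases hzq : z = p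
            · rw [hzq, bg_in g (Or.inl rfl), if_neg (Ne.symm hnp)] at hlt
              omega
            · rw [bg_out F hzq (hl' (by omega)) (hl' (by omega)) (hl' (by omega))
                (hl' (by omega)), if_neg (hl' (by omega))] at hlt
              omega
          · rintro ⟨z, hz, hle⟩
            rw [hdg z hz, ea hna, eg hnp hnq] at hle
            omega
        have h6 : AL i (bg p y q u s g) ⊆ {a} := by
          intro v hv
          rw [mem_singleton]
          rcases AL_bg Q F hv with h | h | h
          · exact h.1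
          · exact absurd h.2 gy
          · exact hdg v h.2.2
        have h7 : AU i (bg p y q u s g) ⊆ {b} := by
          intro v hv
          rw [mem_singleton]
          rcases AU_bg Q F hv with h | h | h
          · exact h.1
          · exact absurd h.2 gu
          · omega
        have h8 := card_le_card h6
        have h9 := card_le_card h7
        rw [card_singleton] at h8 h9
        omega
    · by_cases hgq : g = p
      · left
        intro hA
        refine hA y (by omega) ⟨⟨p, F.py, ?_⟩, ⟨s, F.ys, by rw [ey, es]⟩⟩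
        rw [ey, bg_in g (x := p) (Or.inl rfl), if_pos hgq.symm]
        omega
      · have hnp : g ≠ q := hl' (by omega)
        left
        intro hA
        have key : ∀ x, g ⋖ x → bg p y q u s g x ≠ 0 := by
          intro x hx h0
          have hlx := lev_cov H hx
          refine hA x (by omega) ⟨⟨g, hx, by rw [h0, eg hgq hnp]; exact Nat.zero_lt_one⟩, ?_⟩
          obtain ⟨w, hw⟩ := uc_nonempty H (x := x) (by have := Q.hi; omega)
          exact ⟨w, mem_uc.1 hw, by rw [h0]; exact Nat.zero_le _⟩
        have key2 : ∀ x, g ⋖ x → x = y ∨ x = p := by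
          intro x hx
          have hlx := lev_cov H hx
          by_contra h
          rw [not_or] at h
          apply key x hx
          rw [bg_out F h.2 h.1 (hl' (by omega)) (hl' (by omega)) (hl' (by omega)),
            if_neg (hl' (by omega))]
        obtain ⟨x, hx⟩ := uc_nonempty H (x := g) (by omega)
        have hlx := lev_cov H (mem_uc.1 hx)
        rcases key2 x (mem_uc.1 hx) with h | h
        · apply hgq
          refine Q.pd g hg p F.mp ?_ F.pD
          have hdg : uc g = {y} := by
            refine eq_singleton_iff_unique_mem.2 ⟨by rw [← h]; exact hx, fun x' hx' => ?_⟩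
            have hlx' := lev_cov H (mem_uc.1 hx')
            rcases key2 x' (mem_uc.1 hx') with h' | h'
            · exact h'
            · rw [h'] at hlx'
              rw [h] at hlx
              omega
          exact mem_PD.2 ⟨by rw [h] at hlx; omega, by rw [hdg]; exact card_singleton _, y,
            by rw [← mem_uc, hdg]; exact mem_singleton_self _,
            by rw [F.cy]; exact card_pair F.as⟩
        · apply gf
          refine ⟨hg, eq_singleton_iff_unique_mem.2 ⟨by rw [← h]; exact hx, fun x' hx' => ?_⟩⟩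
          have hlx' := lev_cov H (mem_uc.1 hx')
          rcases key2 x' (mem_uc.1 hx') with h' | h'
          · rw [h'] at hlx'
            rw [h] at hlx
            omega
          · exact h'

end Pool.Agent.GaussPoset.Win.Pf

end

/-! From `Pool.Agent.W_448pn_h63.QaC` -/

section

/-!
# Flip parts with three sites: values and the assembly at energy six
(MP_448cb3_co, G2, window `j - 1`)
-/

set_option autoImplicit false

namespace Pool.Agent.GaussPoset.Win.Pf

set_option linter.unusedSectionVars false

open Finset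
open Pool.Agent.GaussPoset.Win.SO (on PSO PS5)

universe u

variable {P : Type u} [Fintype P] [PartialOrder P] [DecidableEq P] {r i : ℕ} {psi : P → P}
  {e f : P → ℕ} {C : Finset P} {p y q u a s b g : P}

/-- the value of a labelling from the data of both sides -/
lemma tC_LU {a0 p0 a1 p1 : ℕ} {B B' : Finset P} (D : LDat i e a0 p0 B) (D' : UDat i e a1 p1 B')
    (hd : Disjoint B B') (C : Finset P) :
    tC i C e = dd ^ (p0 + p1 + ((st i C).card - B.card - B'.card)) *
      (xx ^ (a0 + B.card) * xi ^ (a1 + p1)) := by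
  unfold tC cw
  rw [if_pos (show Disjoint (AL i e) (AU i e) by rw [D.al_eq, D'.au_eq]; exact hd),
    if_pos ⟨D.adm, D'.adm⟩, D.a_eq, D.p_eq, D.al_eq, D'.a_eq, D'.p_eq, D'.au_eq, pow_add xx,
    pow_add dd (p0 + p1)]
  ring

/-- the leading coefficient with two deficits -/
lemma coeff_LU {a0 p0 a1 p1 : ℕ} {B B' : Finset P} (D : LDat i e a0 p0 B)
    (D' : UDat i e a1 p1 B') (hd : Disjoint B B') (C : Finset P)
    (h : 2 + (p0 + p1 + ((st i C).card - B.card - B'.card)) = (st i C).card) :
    PowerSeries.coeff (st i C).card (dd ^ 2 * tC i C e : A) =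
      (-1) ^ (a0 + B.card + (a1 + p1)) := by
  rw [tC_LU D D' hd C, ← mul_assoc, ← pow_add, h]
  exact SO.coef_units _ _ _

/-! ### labellings above a given one -/

lemma eq_of_le (h : ∀ x, f x ≤ e x) (hs : ∑ x, e x = ∑ x, f x) : e = f := by
  have h1 : ∑ x, (e x - f x) = 0 := by
    have h2 : ∑ x, e x = ∑ x, (e x - f x) + ∑ x, f x := by
      rw [← Finset.sum_add_distrib]
      refine Finset.sum_congr rfl fun x _ => ?_
      have := h x
      omega
    omega
  rw [Finset.sum_eq_zero_iff] at h1
  funext x
  have := h1 x (mem_univ _)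
  have := h x
  omega

lemma single_of_le (h : ∀ x, f x ≤ e x) (hs : ∑ x, e x = ∑ x, f x + 1) :
    ∃ g, e = f + Pi.single g 1 := by
  have h1 : ∑ x, (e x - f x) = 1 := by
    have h2 : ∑ x, e x = ∑ x, (e x - f x) + ∑ x, f x := by
      rw [← Finset.sum_add_distrib]
      refine Finset.sum_congr rfl fun x _ => ?_
      have := h x
      omega
    omega
  obtain ⟨g, hg⟩ : ∃ g, e g - f g ≠ 0 := by
    by_contra hcon
    push Not at hcon
    rw [Finset.sum_eq_zero (fun v _ => hcon v)] at h1
    omega
  refine ⟨g, ?_⟩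
  have h7 := Finset.add_sum_erase univ (fun x => e x - f x) (mem_univ g)
  simp only [h1] at h7
  have h8 : ∑ w ∈ univ.erase g, (e w - f w) = 0 := by omega
  rw [Finset.sum_eq_zero_iff] at h8
  funext w
  rw [Pi.add_apply, Pi.single_apply]
  have := h w
  by_cases hwg : w = g
  · rw [if_pos hwg, hwg]
    have := h g
    omega
  · rw [if_neg hwg]
    have := h8 w (mem_erase.2 ⟨hwg, mem_univ _⟩)
    omega

section facts

variable (Q : PSO r i psi C) (F : Flp i C p y q u a s b)
include Q F

/-- a configuration which excites both pendants is above the flip -/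
lemma bs_le (hA : AdmL i e) (hB : AdmU i e) (hd : Disjoint (AL i e) (AU i e)) (ep : 0 < e p)
    (eq : 0 < e q) (x : P) : bs p y q u s x ≤ e x := by
  have h1 := F.lp
  have h2 := F.ly
  have h3 := F.ls
  have h4 := F.lu
  have h5 := F.lq
  have hir := Q.hi2
  have ey : 0 < e y := pos_up Q.H hA (z := p) (y := y) (by omega) ep F.py
  have eu : 0 < e u := pos_dn Q.H (by omega) hB (x := q) (y := u) (by omega) eq F.uq
  have es : 0 < e s := by
    by_contra h
    have m1 : s ∈ AL i e := by
      rw [NormD_mem_AL]
      exact ⟨h3, y, F.ys, by omega⟩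
    have m2 : s ∈ AU i e := by
      rw [NormD_mem_AU]
      exact ⟨h3, u, F.su, by omega⟩
    exact disjoint_left.1 hd m1 m2
  rw [bs_apply]
  split_ifs with h
  · rcases h with rfl | rfl | rfl | rfl | rfl <;> omega
  · exact Nat.zero_le _

omit Q in
/-- the double is free -/
lemma low_free (H : Gr P r) (h1 : ∀ x, i < lev x → e x ≠ 0 → x = y ∨ x = p ∨
    (uc x = {p} ∧ e x ≤ e p)) (h2 : e p ≤ e y) (ha : e a < e y) (hs : e s < e y) :
    LDat i e 0 1 {a, s} := by
  have h := chain_dat H F.ly F.cp h1 h2
  have k1 : ∀ v ∈ uc y, e v < e y := by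
    intro v hv
    rw [F.cy, mem_insert, mem_singleton] at hv
    rcases hv with rfl | rfl <;> assumption
  rw [if_pos k1, filter_true_of_mem k1, F.cy] at h
  exact h

omit Q in
/-- the double is guarded by the common site -/
lemma low_grd (H : Gr P r) (h1 : ∀ x, i < lev x → e x ≠ 0 → x = y ∨ x = p ∨
    (uc x = {p} ∧ e x ≤ e p)) (h2 : e p ≤ e y) (ha : e a < e y) (hs : e y ≤ e s) :
    LDat i e 0 0 {a} := by
  have h := chain_dat H F.ly F.cp h1 h2
  have k1 : ¬ ∀ v ∈ uc y, e v < e y := by
    intro h3
    have := h3 s (by rw [F.cy]; exact mem_insert_of_mem (mem_singleton_self _))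
    omega
  have k2 : (uc y).filter (fun v => e v < e y) = {a} := by
    ext v
    rw [mem_filter, F.cy, mem_insert, mem_singleton, mem_singleton]
    constructor
    · rintro ⟨rfl | rfl, h3⟩
      · rfl
      · omega
    · rintro rfl
      exact ⟨Or.inl rfl, ha⟩
  rw [if_neg k1, k2] at h
  exact h

omit Q in
lemma upp_free (H : Gr P r) (hi : i ≤ r) (h1 : ∀ x, lev x < i → e x ≠ 0 → x = u ∨ x = q ∨
    (dc x = {q} ∧ e x ≤ e q)) (h2 : e q ≤ e u) (hb : e b < e u) (hs : e s < e u) :
    UDat i e 0 1 {s, b} := by
  have h := chain_datU H hi F.lu F.cq h1 h2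
  have k1 : ∀ v ∈ dc u, e v < e u := by
    intro v hv
    rw [F.cu, mem_insert, mem_singleton] at hv
    rcases hv with rfl | rfl <;> assumption
  rw [if_pos k1, filter_true_of_mem k1, F.cu] at h
  exact h

omit Q in
lemma upp_grd (H : Gr P r) (hi : i ≤ r) (h1 : ∀ x, lev x < i → e x ≠ 0 → x = u ∨ x = q ∨
    (dc x = {q} ∧ e x ≤ e q)) (h2 : e q ≤ e u) (hb : e b < e u) (hs : e u ≤ e s) :
    UDat i e 0 0 {b} := by
  have h := chain_datU H hi F.lu F.cq h1 h2
  have k1 : ¬ ∀ v ∈ dc u, e v < e u := by
    intro h3
    have := h3 s (by rw [F.cu]; exact mem_insert_self _ _)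
    omega
  have k2 : (dc u).filter (fun v => e v < e u) = {b} := by
    ext v
    rw [mem_filter, F.cu, mem_insert, mem_singleton]
    constructor
    · rintro ⟨rfl | rfl, h3⟩
      · omega
      · rfl
    · rintro rfl
      exact ⟨Or.inr rfl, hb⟩
  rw [if_neg k1, k2] at h
  exact h

/-- levels of the additional units -/
lemma lev_G6 (hg : g ∈ G6 C p y q u s) :
    g = y ∨ g = u ∨ g = s ∨ (lev g = i + 3 ∧ uc g = {p}) ∨ (lev g + 3 = i ∧ dc g = {q}) := by
  rcases mem_G6.1 hg with h | h | h | h | h
  · exact Or.inl h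
  · exact Or.inr (Or.inl h)
  · exact Or.inr (Or.inr (Or.inl h))
  · have h1 := lev_uc Q.H (x := g) (v := p) (by rw [h.2]; exact mem_singleton_self _)
    have := F.lp
    exact Or.inr (Or.inr (Or.inr (Or.inl ⟨by omega, h.2⟩)))
  · have h1 := lev_dc Q.H (x := g) (v := q) (by rw [h.2]; exact mem_singleton_self _)
    have := F.lq
    exact Or.inr (Or.inr (Or.inr (Or.inr ⟨by omega, h.2⟩)))

/-- excited elements below the window -/
lemma exc_low (hg : g ∈ G6 C p y q u s) (x : P) (hx : i < lev x) (h : bg p y q u s g x ≠ 0) :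
    x = y ∨ x = p ∨ (uc x = {p} ∧ bg p y q u s g x ≤ bg p y q u s g p) := by
  have h3 := F.ls
  have h4 := F.lu
  have h5 := F.lq
  have hl' : ∀ {v w : P}, lev v ≠ lev w → v ≠ w := fun h h' => h (by rw [h'])
  by_cases hxy : x = y
  · exact Or.inl hxy
  by_cases hxp : x = p
  · exact Or.inr (Or.inl hxp)
  have h6 := bg_out (g := g) F hxp hxy (hl' (by omega)) (hl' (by omega)) (hl' (by omega))
  have hxg : x = g := by
    by_contra h7
    rw [h6, if_neg h7] at h
    exact h rfl
  right; right
  rcases lev_G6 Q F hg with k | k | k | k | k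
  · exact absurd (hxg.trans k) hxy
  · have := congrArg lev (hxg.trans k); omega
  · have := congrArg lev (hxg.trans k); omega
  · refine ⟨by rw [hxg]; exact k.2, ?_⟩
    rw [h6, if_pos hxg, bg_in g (x := p) (Or.inl rfl)]
    omega
  · rw [hxg] at hx; omega

/-- excited elements above the window -/
lemma exc_upp (hg : g ∈ G6 C p y q u s) (x : P) (hx : lev x < i) (h : bg p y q u s g x ≠ 0) :
    x = u ∨ x = q ∨ (dc x = {q} ∧ bg p y q u s g x ≤ bg p y q u s g q) := by
  have h1 := F.lp
  have h2 := F.ly
  have h3 := F.ls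
  have hl' : ∀ {v w : P}, lev v ≠ lev w → v ≠ w := fun h h' => h (by rw [h'])
  by_cases hxy : x = u
  · exact Or.inl hxy
  by_cases hxp : x = q
  · exact Or.inr (Or.inl hxp)
  have h6 := bg_out (g := g) F (hl' (by omega)) (hl' (by omega)) (hl' (by omega)) hxy hxp
  have hxg : x = g := by
    by_contra h7
    rw [h6, if_neg h7] at h
    exact h rfl
  right; right
  rcases lev_G6 Q F hg with k | k | k | k | k
  · have := congrArg lev (hxg.trans k); omega
  · exact absurd (hxg.trans k) hxy
  · have := congrArg lev (hxg.trans k); omega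
  · rw [hxg] at hx; omega
  · refine ⟨by rw [hxg]; exact k.2, ?_⟩
    rw [h6, if_pos hxg, bg_in g (x := q) (Or.inr (Or.inr (Or.inr (Or.inr rfl))))]
    omega

/-- the labels of the flip in `bg` -/
lemma bg_vals (hg : g ∈ G6 C p y q u s) : bg p y q u s g p = 1 ∧ bg p y q u s g q = 1 ∧
    bg p y q u s g a = 0 ∧ bg p y q u s g b = 0 ∧
    bg p y q u s g y = 1 + (if y = g then 1 else 0) ∧
    bg p y q u s g u = 1 + (if u = g then 1 else 0) ∧
    bg p y q u s g s = 1 + (if s = g then 1 else 0) := by
  have h1 := F.lp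
  have h2 := F.ly
  have h3 := F.ls
  have h4 := F.lu
  have h5 := F.lq
  have hla := F.la
  have hlb := F.lb
  have hl' : ∀ {v w : P}, lev v ≠ lev w → v ≠ w := fun h h' => h (by rw [h'])
  have hk := lev_G6 Q F hg
  refine ⟨?_, ?_, ?_, ?_, bg_in g (Or.inr (Or.inl rfl)),
    bg_in g (Or.inr (Or.inr (Or.inr (Or.inl rfl)))), bg_in g (Or.inr (Or.inr (Or.inl rfl)))⟩
  · rw [bg_in g (Or.inl rfl), if_neg]
    rcases hk with k | k | k | k | k
    · rw [k]; exact hl' (by omega)
    · rw [k]; exact hl' (by omega)
    · rw [k]; exact hl' (by omega)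
    · exact hl' (by omega)
    · exact hl' (by omega)
  · rw [bg_in g (Or.inr (Or.inr (Or.inr (Or.inr rfl)))), if_neg]
    rcases hk with k | k | k | k | k
    · rw [k]; exact hl' (by omega)
    · rw [k]; exact hl' (by omega)
    · rw [k]; exact hl' (by omega)
    · exact hl' (by omega)
    · exact hl' (by omega)
  · rw [bg_out F (hl' (by omega)) (hl' (by omega)) F.as (hl' (by omega)) (hl' (by omega)),
      if_neg]
    rcases hk with k | k | k | k | k
    · rw [k]; exact hl' (by omega)
    · rw [k]; exact hl' (by omega)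
    · rw [k]; exact F.as
    · exact hl' (by omega)
    · exact hl' (by omega)
  · rw [bg_out F (hl' (by omega)) (hl' (by omega)) F.sb.symm (hl' (by omega)) (hl' (by omega)),
      if_neg]
    rcases hk with k | k | k | k | k
    · rw [k]; exact hl' (by omega)
    · rw [k]; exact hl' (by omega)
    · rw [k]; exact F.sb.symm
    · exact hl' (by omega)
    · exact hl' (by omega)

/-- THE VALUES: `+1` for `y` and `u`, `-1` for all others -/
theorem bg_coeff (hg : g ∈ G6 C p y q u s) :
    PowerSeries.coeff (st i C).card (dd ^ 2 * tC i C (bg p y q u s g) : A) =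
      if g = y ∨ g = u then 1 else -1 := by
  classical
  have H := Q.H
  have hir := Q.hi2
  have h2 := F.ly
  have h3 := F.ls
  have h4 := F.lu
  obtain ⟨v1, v2, v3, v4, v5, v6, v7⟩ := bg_vals Q F hg
  have hl' : ∀ {v w : P}, lev v ≠ lev w → v ≠ w := fun h h' => h (by rw [h'])
  have yu : y ≠ u := hl' (by omega)
  have ys : y ≠ s := hl' (by omega)
  have us : u ≠ s := hl' (by omega)
  have e1 := exc_low Q F hg
  have e2 := exc_upp Q F hg
  have b3 := F.b3
  have ca : ({a} : Finset P).card = 1 := card_singleton _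
  have cb : ({b} : Finset P).card = 1 := card_singleton _
  have cas : ({a, s} : Finset P).card = 2 := card_pair F.as
  have csb : ({s, b} : Finset P).card = 2 := card_pair F.sb
  by_cases gy : g = y
  · rw [if_pos (Or.inl gy)]
    rw [if_pos gy.symm] at v5
    rw [if_neg (by rw [gy]; exact yu.symm)] at v6
    rw [if_neg (by rw [gy]; exact ys.symm)] at v7
    have D := low_free F H e1 (by omega) (by omega) (by omega)
    have D' := upp_grd F H (by omega) e2 (by omega) (by omega) (by omega)
    have hd : Disjoint ({a, s} : Finset P) {b} := by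
      rw [disjoint_singleton_right, mem_insert, mem_singleton, not_or]
      exact ⟨F.ab.symm, F.sb.symm⟩
    rw [coeff_LU D D' hd C (by rw [cas, cb, b3]), cas]
    norm_num
  by_cases gu : g = u
  · rw [if_pos (Or.inr gu)]
    rw [if_pos gu.symm] at v6
    rw [if_neg (by rw [gu]; exact yu)] at v5
    rw [if_neg (by rw [gu]; exact us.symm)] at v7
    have D := low_grd F H e1 (by omega) (by omega) (by omega)
    have D' := upp_free F H (by omega) e2 (by omega) (by omega) (by omega)
    have hd : Disjoint ({a} : Finset P) {s, b} := by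
      rw [disjoint_singleton_left, mem_insert, mem_singleton, not_or]
      exact ⟨F.as, F.ab⟩
    rw [coeff_LU D D' hd C (by rw [ca, csb, b3]), ca]
    norm_num
  · rw [if_neg (by rw [not_or]; exact ⟨gy, gu⟩)]
    rw [if_neg (Ne.symm gu)] at v6
    rw [if_neg (Ne.symm gy)] at v5
    have D := low_grd F H e1 (by omega) (by omega) (by omega)
    have D' := upp_grd F H (by omega) e2 (by omega) (by omega) (by omega)
    have hd : Disjoint ({a} : Finset P) {b} := by
      rw [disjoint_singleton]
      exact F.ab
    rw [coeff_LU D D' hd C (by rw [ca, cb, b3]), ca]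
    norm_num

end facts

end Pool.Agent.GaussPoset.Win.Pf

end

/-! From `Pool.Agent.W_448pn_h63.QaD` -/

section

/-!
# Flip parts with three sites: the value of (6,2)
(MP_448cb3_co, G2, window `j - 1`)
-/

set_option autoImplicit false

namespace Pool.Agent.GaussPoset.Win.Pf

set_option linter.unusedSectionVars false

open Finset
open Pool.Agent.GaussPoset.Win.SO (on PSO PS5 tL tU LO6)
open Pool.Agent.GaussPoset.Win.I2 (lS uS mem_lS mem_uS)
open Pool.Agent.GaussPoset.Win.So (TogL TogU TgP asm_N J spt_pa)

universe u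

variable {P : Type u} [Fintype P] [PartialOrder P] [DecidableEq P] {r i : ℕ} {psi : P → P}
  {e f : P → ℕ} {C : Finset P} {p y q u a s b g : P}

section facts

variable (Q : PSO r i psi C) (F : Flp i C p y q u a s b)
include Q F

/-- a labelling above the flip whose excited elements at distance one are `y`, `u` is a core -/
lemma core_of_two (h1 : ∀ x, lev x = i + 1 → e x ≠ 0 → x = y)
    (h2 : ∀ x, lev x + 1 = i → e x ≠ 0 → x = u) (ep : 0 < e p) (eq : 0 < e q) :
    IsCore i ∅ psi e := by
  refine SO.core_of_f1 Q.H ?_ ?_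
  · intro x hx tx ex
    rw [mem_lS] at hx
    unfold tL at tx
    have := h1 x (by omega) (by omega)
    exact ⟨p, by rw [this]; exact mem_dc.2 F.py, ep⟩
  · intro x hx tx ex
    rw [mem_uS] at hx
    unfold tU at tx
    have := h2 x (by omega) (by omega)
    exact ⟨q, by rw [this]; exact mem_uc.2 F.uq, eq⟩

/-- no toggle if the pendants are the only excited elements at distance two -/
lemma no_tgp_two (h1 : ∀ x, lev x = i + 2 → e x ≠ 0 → x = p)
    (h2 : ∀ x, lev x + 2 = i → e x ≠ 0 → x = q) {w v : P} : ¬ TgP i e w v := by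
  rintro (⟨x, x', c1, c2, T, -⟩ | ⟨x, x', c1, c2, T, -⟩)
  · have := T.hw
    have h3 := h1 w T.lw (by omega)
    have h4 := T.uw
    rw [h3, F.cp] at h4
    have h5 : x ∈ ({y} : Finset P) := by rw [h4]; exact mem_insert_self _ _
    have h6 : x' ∈ ({y} : Finset P) := by
      rw [h4]; exact mem_insert_of_mem (mem_singleton_self _)
    rw [mem_singleton] at h5 h6
    exact T.xx' (h5.trans h6.symm)
  · have := T.hw
    have h3 := h2 w T.lw (by omega)
    have h4 := T.uw
    rw [h3, F.cq] at h4
    have h5 : x ∈ ({u} : Finset P) := by rw [h4]; exact mem_insert_self _ _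
    have h6 : x' ∈ ({u} : Finset P) := by
      rw [h4]; exact mem_insert_of_mem (mem_singleton_self _)
    rw [mem_singleton] at h5 h6
    exact T.xx' (h5.trans h6.symm)

/-- excited elements of the flip -/
lemma bs_exc {x : P} (h : bs p y q u s x ≠ 0) : x = p ∨ x = y ∨ x = s ∨ x = u ∨ x = q := by
  rw [bs_apply] at h
  by_contra h1
  rw [if_neg h1] at h
  exact h rfl

lemma bs_levels (x : P) (h : bs p y q u s x ≠ 0) :
    (lev x = i + 1 → x = y) ∧ (lev x + 1 = i → x = u) ∧ (lev x = i + 2 → x = p) ∧
      (lev x + 2 = i → x = q) := by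
  have h1 := F.lp
  have h2 := F.ly
  have h3 := F.ls
  have h4 := F.lu
  have h5 := F.lq
  refine ⟨?_, ?_, ?_, ?_⟩ <;> intro hl <;> rcases bs_exc Q F h with k | k | k | k | k <;>
    first
      | exact k
      | (exfalso; have := congrArg lev k; omega)

lemma bg_levels (hg : g ∈ G6 C p y q u s) (x : P) (h : bg p y q u s g x ≠ 0) :
    (lev x = i + 1 → x = y) ∧ (lev x + 1 = i → x = u) ∧ (lev x = i + 2 → x = p) ∧
      (lev x + 2 = i → x = q) := by
  have h1 := F.lp
  have h2 := F.ly
  have h3 := F.ls
  have h4 := F.lu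
  have h5 := F.lq
  have hL : ∀ {x : P}, uc x = {p} → lev x = i + 3 := by
    intro x hx
    have := lev_uc Q.H (x := x) (v := p) (by rw [hx]; exact mem_singleton_self _)
    omega
  have hU : ∀ {x : P}, dc x = {q} → lev x + 3 = i := by
    intro x hx
    have := lev_dc Q.H (x := x) (v := q) (by rw [hx]; exact mem_singleton_self _)
    omega
  refine ⟨?_, ?_, ?_, ?_⟩ <;> intro hl
  · rcases exc_low Q F hg x (by omega) h with k | k | k
    · exact k
    · have := congrArg lev k; omega
    · have := hL k.1; omega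
  · rcases exc_upp Q F hg x (by omega) h with k | k | k
    · exact k
    · have := congrArg lev k; omega
    · have := hU k.1; omega
  · rcases exc_low Q F hg x (by omega) h with k | k | k
    · have := congrArg lev k; omega
    · exact k
    · have := hL k.1; omega
  · rcases exc_upp Q F hg x (by omega) h with k | k | k
    · have := congrArg lev k; omega
    · exact k
    · have := hU k.1; omega

lemma bs_core : IsCore i ∅ psi (bs p y q u s) := by
  obtain ⟨v1, -, -, -, v5⟩ := bs_one F
  exact core_of_two Q F (fun x hx h => (bs_levels Q F x h).1 hx)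
    (fun x hx h => (bs_levels Q F x h).2.1 hx) (by omega) (by omega)

lemma bs_tgp {w v : P} : ¬ TgP i (bs p y q u s) w v :=
  no_tgp_two Q F (fun x hx h => (bs_levels Q F x h).2.2.1 hx)
    (fun x hx h => (bs_levels Q F x h).2.2.2 hx)

lemma bg_core (hg : g ∈ G6 C p y q u s) : IsCore i ∅ psi (bg p y q u s g) := by
  obtain ⟨v1, v2, -⟩ := bg_vals Q F hg
  exact core_of_two Q F (fun x hx h => (bg_levels Q F hg x h).1 hx)
    (fun x hx h => (bg_levels Q F hg x h).2.1 hx) (by omega) (by omega)

lemma bg_tgp (hg : g ∈ G6 C p y q u s) {w v : P} : ¬ TgP i (bg p y q u s g) w v :=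
  no_tgp_two Q F (fun x hx h => (bg_levels Q F hg x h).2.2.1 hx)
    (fun x hx h => (bg_levels Q F hg x h).2.2.2 hx)

lemma bs_spt : Spt C (bs p y q u s) := by
  intro x hx
  by_contra h
  apply hx
  rcases bs_exc Q F h with k | k | k | k | k
  · rw [k]; exact F.mp
  · rw [k]; exact F.yC Q.hC
  · rw [k]; exact F.sC
  · rw [k]; exact F.uC Q.hC
  · rw [k]; exact F.mq

lemma G6_sub (hg : g ∈ G6 C p y q u s) : g ∈ C := by
  rcases mem_G6.1 hg with k | k | k | k | k
  · rw [k]; exact F.yC Q.hC
  · rw [k]; exact F.uC Q.hC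
  · rw [k]; exact F.sC
  · exact k.1
  · exact k.1

lemma bg_spt (hg : g ∈ C) : Spt C (bg p y q u s g) := by
  intro x hx
  have h1 := bs_spt Q F x hx
  unfold bg
  rw [Pi.add_apply, h1, zero_add, Pi.single_apply, if_neg]
  rintro rfl
  exact hx hg

end facts

/-- the leftover labellings of a flip part -/
def LF (i : ℕ) (C : Finset P) (p y q u s : P) (e : P → ℕ) : Prop :=
  LO6 uc dc (tL (P := P) i) (tU i) (lS P i) (uS P i) e ∨ e = bs p y q u s ∨
    ∃ g ∈ G6 C p y q u s, e = bg p y q u s g

section cls

variable (Q : Pt r i psi C) (F : Flp i C p y q u a s b)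
include Q F

omit F in
lemma Pt.noClo (hs : Spt C e) : ¬ SO.Clo uc (tL (P := P) i) (lS P i) e := by
  rintro ⟨w, w', x, x', h1, h2, h3, h4, h5, h6, h7, h8, h9, h10, h11, h12⟩
  rw [mem_lS] at h1
  unfold tL at h3
  exact h5 (Q.ncl w (SO.mem_of_spt hs h11) w' (SO.mem_of_spt hs h12) x x' (by omega) h6 h7 h8
    h9 h10)

omit F in
lemma Pt.noCloU (hs : Spt C e) : ¬ SO.Clo dc (tU (P := P) i) (uS P i) e := by
  rintro ⟨w, w', x, x', h1, h2, h3, h4, h5, h6, h7, h8, h9, h10, h11, h12⟩
  rw [mem_uS] at h1
  unfold tU at h3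
  exact h5 (Q.ncu w (SO.mem_of_spt hs h11) w' (SO.mem_of_spt hs h12) x x' (by omega) h6 h7 h8
    h9 h10)

/-- CLASSIFICATION for the cores of a flip part with three sites, energy at most six -/
theorem cls3 (hs : Spt C e) (hc : IsCore i ∅ psi e) (hE : ∑ x, e x ≤ 6) :
    Cheap 1 i e ∨ (Cheap 2 i e ∧ ∃ w v, TgP i e w v) ∨ LF i C p y q u s e := by
  classical
  by_cases hA : AdmL i e
  swap
  · exact Or.inl (Or.inl hA)
  by_cases hB : AdmU i e
  swap
  · exact Or.inl (Or.inr (Or.inl hB))
  by_cases hd : Disjoint (AL i e) (AU i e)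
  swap
  · exact Or.inl (Or.inr (Or.inr (Or.inl hd)))
  have hir := Q.hi2
  have W := Q.toPSO.two
  have hcf := SO.cfg_of Q.H Q.hi2 Q.hM hc hA hB hd
  by_cases hfl : 0 < e p ∧ 0 < e q
  · have hle := bs_le Q.toPSO F hA hB hd hfl.1 hfl.2
    have h5 := bs_sum F
    have h6 : ∑ x, bs p y q u s x ≤ ∑ x, e x := Finset.sum_le_sum fun x _ => hle x
    rcases Nat.lt_or_ge (∑ x, e x) 6 with h7 | h7
    · right; right; right; left
      exact eq_of_le hle (by omega)
    · obtain ⟨g, hg⟩ := single_of_le hle (by omega)
      have hgC : g ∈ C := by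
        by_contra h
        have h8 := hs g h
        rw [hg, Pi.add_apply, Pi.single_apply, if_pos rfl] at h8
        omega
      by_cases hG : g ∈ G6 C p y q u s
      · right; right; right; right
        exact ⟨g, hG, hg⟩
      · left
        rw [hg]
        exact cheap_g Q.toPSO F hgC hG
  -- no flip
  have hPL : ∀ {p1 y1 : P}, SO.Pen uc (tL (P := P) i) (lS P i) p1 y1 → 0 < e p1 → p1 = p :=
    fun h h' => Q.pd _ (SO.mem_of_spt hs h') p F.mp (SO.pen_low Q.H h).1 F.pD
  have hPU : ∀ {p1 y1 : P}, SO.Pen dc (tU (P := P) i) (uS P i) p1 y1 → 0 < e p1 → p1 = q :=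
    fun h h' => Q.pu _ (SO.mem_of_spt hs h') q F.mq (SO.pen_up Q.H h).1 F.qU
  have hCi : Part i C := SO.part_pred Q.hC
  have hst : (st i C).card ≤ 3 := by rw [F.b3]
  have hT1 : ∀ v ∈ lv P i, v ∉ st i C → e v = 0 := by
    intro v hv hv'
    apply hs
    intro h
    exact hv' (mem_st.2 ⟨h, (mem_lv.1 hv)⟩)
  have hT2 : I2.KD dc e (lv P i) ⊆ st i C := by
    rw [I2.KD_low]
    exact AL_sub hCi hs
  have hT3 : I2.KD uc e (lv P i) ⊆ st i C := by
    rw [I2.KD_up]
    exact AU_sub Q.H hCi hs
  rcases SO.classify W hcf (Q.toPSO.pdx hs) (Q.toPSO.pux hs) hE with h | h | h | h | h | h | h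
  · exact Or.inl (SO.cheap_of h)
  · exact absurd h (Q.noClo hs)
  · exact absurd h (Q.noCloU hs)
  · exfalso
    obtain ⟨p1, y1, p2, u1, k1, k2, k3, k4, -⟩ := h
    apply hfl
    rw [← hPL k1 k3, ← hPU k2 k4]
    exact ⟨k3, k4⟩
  · right; left
    refine ⟨SO.cheap_of h.1, ?_⟩
    rcases h.2 with ⟨w, x, x', v, T⟩ | ⟨w, x, x', v, T⟩
    · obtain ⟨c1, c2, k1, k2⟩ := SO.togL_of Q.H Q.hM T
      exact ⟨w, v, Or.inl ⟨x, x', c1, c2, k1, k2⟩⟩
    · obtain ⟨c1, c2, k1, k2⟩ := SO.togU_of Q.H Q.hM T
      exact ⟨w, v, Or.inr ⟨x, x', c1, c2, k1, k2⟩⟩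
  · left
    rcases h.1 with ⟨p1, y1, R⟩ | ⟨p1, y1, R⟩
    · refine SO.cheap_of (k := 1) ?_
      refine ref3 W hcf (Q.toPSO.pdx hs) hE hst hT1 hT2 hT3 ?_ R
      rintro ⟨p1, y1, p2, u1, k1, k2, k3, k4, -⟩
      apply hfl
      rw [← hPL k1 k3, ← hPU k2 k4]
      exact ⟨k3, k4⟩
    · refine SO.cheap_of (k := 1) ?_
      rw [add_comm]
      refine ref3 W.symm hcf.symm (Q.toPSO.pux hs) hE hst hT1 hT3 hT2 ?_ R
      rintro ⟨p1, y1, p2, u1, k1, k2, k3, k4, -⟩
      apply hfl
      rw [← hPL k2 k4, ← hPU k1 k3]
      exact ⟨k4, k3⟩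
  · exact Or.inr (Or.inr (Or.inl h))

/-- the leftover labellings are cores without toggle -/
lemma LF_core (h : LF i C p y q u s e) : IsCore i ∅ psi e ∧ ∀ w v, ¬ TgP i e w v := by
  rcases h with h | h | ⟨g, hg, h⟩
  · have h5 := SO.LO6.ex Q.toPSO.two h
    exact ⟨SO.core_of_f1 Q.H h5.a1.f1 h5.b1.f1, fun w v => SO.no_tgp Q.H h5.v0 h5.a1 h5.b1⟩
  · rw [h]
    exact ⟨bs_core Q.toPSO F, fun w v => bs_tgp Q.toPSO F⟩
  · rw [h]
    exact ⟨bg_core Q.toPSO F hg, fun w v => bg_tgp Q.toPSO F hg⟩

omit F in
theorem Pt.unique (hs : Spt C e) (hE : ∑ x, e x ≤ 6) {w v w1 v1 : P}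
    (T : TgP i e w v) (T1 : TgP i e w1 v1) : w1 = w ∧ v1 = v := by
  refine SO.tgp_unique Q.H hE ?_ ?_ T T1
  · intro w w' x x' a1 a2 a3 a4 a5 a6 a7 a8
    exact Q.ncl w (SO.mem_of_spt hs a7) w' (SO.mem_of_spt hs a8) x x' a1 a2 a3 a4 a5 a6
  · intro w w' x x' a1 a2 a3 a4 a5 a6 a7 a8
    exact Q.ncu w (SO.mem_of_spt hs a7) w' (SO.mem_of_spt hs a8) x x' a1 a2 a3 a4 a5 a6

open Classical in
/-- the sum over the cores of one energy -/
theorem level3 {n : ℕ} (hn : n ≤ 6) (m : ℕ) :
    dd ^ ((st i C).card - 1) ∣
      ∑ e ∈ (C.piAntidiag n).filter (IsCore i ∅ psi), J i psi C m e -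
        ∑ e ∈ (C.piAntidiag n).filter (LF i C p y q u s), J i psi C m e := by
  have hsum : ∀ e ∈ C.piAntidiag n, ∑ x, e x = n := fun e he => by
    rw [I2.mem_pa] at he
    exact he.1
  have h1 := asm_N Q.H Q.hi Q.hi2 Q.hM Q.hC (q := n) m
    (fun _ => True) (fun _ => True) (LF i C p y q u s)
    (fun _ _ _ _ _ => trivial)
    (fun _ _ _ _ _ => trivial)
    (fun e he _ _ _ w v w1 v1 T T1 =>
      Q.unique (spt_pa he) (by rw [hsum e he]; exact hn) T T1)
    (fun e he hc _ _ w v T => by
      rcases cls3 Q F (spt_pa he) hc (by rw [hsum e he]; exact hn) with h | h | h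
      · exact Cheap.mono (by omega) h
      · exact h.1
      · exact absurd T ((LF_core Q F h).2 w v))
    (fun e he hc _ ht hL => by
      rcases cls3 Q F (spt_pa he) hc (by rw [hsum e he]; exact hn) with h | h | h
      · exact h
      · obtain ⟨w, v, T⟩ := h.2
        exact absurd T (ht trivial w v)
      · exact absurd h hL)
    (fun e he hL => ⟨(LF_core Q F hL).1, trivial, fun _ => (LF_core Q F hL).2⟩)
  simp only [and_true] at h1
  exact h1

end cls

end Pool.Agent.GaussPoset.Win.Pf

end

/-! From `Pool.Agent.W_448pn_h63.QaF` -/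

section

/-!
# Flip parts with three sites: the value of (3,1)
(MP_448cb3_co, G2, window `j - 1`)
-/

set_option autoImplicit false

namespace Pool.Agent.GaussPoset.Win.Pf

set_option linter.unusedSectionVars false

open Finset
open Pool.Agent.GaussPoset.Win.SO (on PSO PS5 tL tU)
open Pool.Agent.GaussPoset.Win.I2 (lS uS mem_lS mem_uS)

universe u

variable {P : Type u} [Fintype P] [PartialOrder P] [DecidableEq P] {r i : ℕ} {psi : P → P}
  {e f : P → ℕ} {C : Finset P} {p y q u a s b g v : P}

/-- one near unit with the cone of a lower pendant -/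
lemma low_near (H : Gr P r) (hi : i ≤ r) (hC : Part (i + 1) C) (hpC : p ∈ C)
    (lp : lev p = i + 2) (cp : uc p = {y}) (hvC : v ∈ C) (hv : v ∈ near P i) (hvy : v ≠ y) :
    (lev v = i + 1 → tC i C (cl p + sg v) =
      dd ^ 2 * (xx ^ (uc y ∪ uc v).card * dd ^ ((st i C).card - (uc y ∪ uc v).card))) ∧
    (lev v + 1 = i → tC i C (cl p + sg v) =
      dd ^ 2 * (xi * (if Disjoint (uc y) (dc v) then
        xx ^ (uc y).card * dd ^ ((st i C).card - (uc y).card - (dc v).card) else 0))) := by
  classical
  have hC' : Part i C := SO.part_pred hC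
  have hpy : p ⋖ y := by rw [← mem_uc, cp]; exact mem_singleton_self _
  have ly := lev_cov H hpy
  have hn := mem_near.1 hv
  have hcl : ∀ w, 0 < cl p w → w = p ∨ w = y := by
    intro w hw
    rcases ExpC_cl_pos hw with h | h
    · exact Or.inl h
    · rw [cp, mem_singleton] at h
      exact Or.inr h
  have hT : v ∉ Tch i (cl p) := by
    rw [mem_Tch]
    rintro (⟨h3, z, hz, h4⟩ | ⟨h3, z, hz, h4⟩)
    · have lz := lev_cov H hz
      rcases hcl z h4 with h5 | h5
      · rw [h5] at hz
        have h6 := mem_uc.2 hz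
        rw [cp, mem_singleton] at h6
        exact hvy h6
      · rw [h5] at lz
        omega
    · have lz := lev_cov H hz
      rcases hcl z h4 with h5 | h5
      · rw [h5] at lz
        omega
      · rw [h5] at lz
        omega
  have h0 : cl p v = 0 := by
    by_contra h
    rcases hcl v (Nat.pos_of_ne_zero h) with h5 | h5
    · rw [h5] at hn
      omega
    · exact hvy h5
  have hs : Spt C (cl p + sg v) := by
    rw [spt_add_iff]
    exact ⟨spt_cl hC' hpC, fun w hw => ExpC_sg_ne (by rintro rfl; exact hw hvC)⟩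
  have site : ∀ w, lev w = i → cl p w = 0 := by
    intro w hw
    by_contra h
    rcases hcl w (Nat.pos_of_ne_zero h) with h5 | h5
    · rw [h5] at hw
      omega
    · rw [h5] at hw
      omega
  have hyC : y ∈ C := hC.up hpC hpy
  have hy : uc y ⊆ st i C := by
    intro w hw
    have := lev_uc H hw
    exact mem_st.2 ⟨hC.up hyC (mem_uc.1 hw), by omega⟩
  have hF : ∀ S, Fe i (cl p + sg v) S = dd * chi (uc y) ∅ S * wt i (cl p) v 1 S := by
    intro S
    have h1 : Fe i (cl p + sg v) S = Fe i (cl p) S * wt i (cl p) v 1 S :=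
      fact H hi hv hT h0 1 S
    rw [h1, (cl_dat H lp).Fe H hi (cl_up_zero H lp), ClE_sts H lp cp, cp, card_singleton,
      pow_zero, one_mul, pow_one]
  constructor
  · intro lv
    have hvs : uc v ⊆ st i C := by
      intro w hw
      have := lev_uc H hw
      exact mem_st.2 ⟨hC.up hvC (mem_uc.1 hw), by omega⟩
    have hw : ∀ S, wt i (cl p) v 1 S = dd * (if uc v ⊆ S then 1 else 0) := by
      intro S
      unfold wt wtL
      rw [if_pos lv, if_pos]
      · congr 1
        refine if_congr ?_ rfl rfl
        constructor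
        · intro h w hw
          have := lev_uc H hw
          exact h w hw (by rw [site w (by omega)]; exact one_pos)
        · intro h w hw _
          exact h hw
      · intro w hw
        have := lev_uc H hw
        rw [site w (by omega)]
        exact one_pos
    rw [tC_IV H hC' hs]
    have h2 : IV (st i C) (Fe i (cl p + sg v)) =
        IV (st i C) (fun S => dd ^ 2 * chi (uc y ∪ uc v) ∅ S) := by
      refine IV_congr fun S _ => ?_
      rw [hF S, hw S]
      unfold chi
      simp only [union_subset_iff, disjoint_empty_left, and_true]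
      by_cases k1 : uc y ⊆ S <;> by_cases k2 : uc v ⊆ S <;> simp [k1, k2] <;> ring
    rw [h2, IV_mul, IV_chi (union_subset hy hvs) (empty_subset _),
      if_pos (disjoint_empty_right _), card_empty, Nat.sub_zero]
  · intro lv
    have hvs : dc v ⊆ st i C := by
      intro w hw
      have := lev_dc H hw
      exact mem_st.2 ⟨hC.dn hvC (by omega) (mem_dc.1 hw), by omega⟩
    have hw : ∀ S, wt i (cl p) v 1 S = xi * dd * (if Disjoint (dc v) S then 1 else 0) := by
      intro S
      unfold wt wtU
      rw [if_neg (by omega), if_pos]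
      · congr 1
        refine if_congr ?_ rfl rfl
        rw [disjoint_left]
        constructor
        · intro h w hw
          have := lev_dc H hw
          exact h w hw (by rw [site w (by omega)]; exact one_pos)
        · intro h w hw _
          exact h hw
      · intro w hw
        have := lev_dc H hw
        rw [site w (by omega)]
        exact one_pos
    rw [tC_IV H hC' hs]
    have h2 : IV (st i C) (Fe i (cl p + sg v)) =
        IV (st i C) (fun S => dd ^ 2 * xi * chi (uc y) (dc v) S) := by
      refine IV_congr fun S _ => ?_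
      rw [hF S, hw S]
      unfold chi
      simp only [disjoint_empty_left, and_true]
      by_cases k1 : uc y ⊆ S <;> by_cases k2 : Disjoint (dc v) S <;> simp [k1, k2] <;> ring
    rw [h2, IV_mul, IV_chi hy hvs]
    ring

/-- one near unit with the cone of an upper pendant -/
lemma upp_near (H : Gr P r) (hi : i + 1 ≤ r) (hC : Part (i + 1) C) (hqC : q ∈ C)
    (lq : lev q + 2 = i) (cq : dc q = {u}) (hvC : v ∈ C) (hv : v ∈ near P i) (hvu : v ≠ u) :
    (lev v = i + 1 → tC i C (cu q + sg v) =
      dd ^ 2 * (xi * (if Disjoint (uc v) (dc u) then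
        xx ^ (uc v).card * dd ^ ((st i C).card - (uc v).card - (dc u).card) else 0))) ∧
    (lev v + 1 = i → tC i C (cu q + sg v) =
      dd ^ 2 * (xi ^ 2 * dd ^ ((st i C).card - (dc u ∪ dc v).card))) := by
  classical
  have hir : i ≤ r := by omega
  have hC' : Part i C := SO.part_pred hC
  have huq : u ⋖ q := by rw [← mem_dc, cq]; exact mem_singleton_self _
  have lu := lev_cov H huq
  have hn := mem_near.1 hv
  have hcl : ∀ w, 0 < cu q w → w = q ∨ w = u := by
    intro w hw
    rcases cu_pos hw with h | h
    · exact Or.inl h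
    · rw [cq, mem_singleton] at h
      exact Or.inr h
  have hT : v ∉ Tch i (cu q) := by
    rw [mem_Tch]
    rintro (⟨h3, z, hz, h4⟩ | ⟨h3, z, hz, h4⟩)
    · have lz := lev_cov H hz
      rcases hcl z h4 with h5 | h5
      · rw [h5] at lz
        omega
      · rw [h5] at lz
        omega
    · have lz := lev_cov H hz
      rcases hcl z h4 with h5 | h5
      · rw [h5] at hz
        have h6 := mem_dc.2 hz
        rw [cq, mem_singleton] at h6
        exact hvu h6
      · rw [h5] at lz
        omega
  have h0 : cu q v = 0 := by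
    by_contra h
    rcases hcl v (Nat.pos_of_ne_zero h) with h5 | h5
    · rw [h5] at hn
      omega
    · exact hvu h5
  have hs : Spt C (cu q + sg v) := by
    rw [spt_add_iff]
    exact ⟨spt_cu hC' hqC (by omega), fun w hw => ExpC_sg_ne (by rintro rfl; exact hw hvC)⟩
  have site : ∀ w, lev w = i → cu q w = 0 := by
    intro w hw
    by_contra h
    rcases hcl w (Nat.pos_of_ne_zero h) with h5 | h5
    · rw [h5] at hw
      omega
    · rw [h5] at hw
      omega
  have huC : u ∈ C := hC.dn hqC (by omega) huq
  have hy : dc u ⊆ st i C := by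
    intro w hw
    have := lev_dc H hw
    exact mem_st.2 ⟨hC.dn huC (by omega) (mem_dc.1 hw), by omega⟩
  have hF : ∀ S, Fe i (cu q + sg v) S = xi * dd * chi ∅ (dc u) S * wt i (cu q) v 1 S := by
    intro S
    have h1 : Fe i (cu q + sg v) S = Fe i (cu q) S * wt i (cu q) v 1 S :=
      fact H hir hv hT h0 1 S
    rw [h1, (cu_dat H hir lq).Fe H (cu_low_zero H lq), ClE_stD H lq cq, cq, card_singleton,
      zero_add, pow_one, pow_one]
  constructor
  · intro lv
    have hvs : uc v ⊆ st i C := by
      intro w hw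
      have := lev_uc H hw
      exact mem_st.2 ⟨hC.up hvC (mem_uc.1 hw), by omega⟩
    have hw : ∀ S, wt i (cu q) v 1 S = dd * (if uc v ⊆ S then 1 else 0) := by
      intro S
      unfold wt wtL
      rw [if_pos lv, if_pos]
      · congr 1
        refine if_congr ?_ rfl rfl
        constructor
        · intro h w hw
          have := lev_uc H hw
          exact h w hw (by rw [site w (by omega)]; exact one_pos)
        · intro h w hw _
          exact h hw
      · intro w hw
        have := lev_uc H hw
        rw [site w (by omega)]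
        exact one_pos
    rw [tC_IV H hC' hs]
    have h2 : IV (st i C) (Fe i (cu q + sg v)) =
        IV (st i C) (fun S => dd ^ 2 * xi * chi (uc v) (dc u) S) := by
      refine IV_congr fun S _ => ?_
      rw [hF S, hw S]
      unfold chi
      simp only [empty_subset, true_and]
      by_cases k1 : uc v ⊆ S <;> by_cases k2 : Disjoint (dc u) S <;> simp [k1, k2] <;> ring
    rw [h2, IV_mul, IV_chi hvs hy]
    ring
  · intro lv
    have hvs : dc v ⊆ st i C := by
      intro w hw
      have := lev_dc H hw
      exact mem_st.2 ⟨hC.dn hvC (by omega) (mem_dc.1 hw), by omega⟩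
    have hw : ∀ S, wt i (cu q) v 1 S = xi * dd * (if Disjoint (dc v) S then 1 else 0) := by
      intro S
      unfold wt wtU
      rw [if_neg (by omega), if_pos]
      · congr 1
        refine if_congr ?_ rfl rfl
        rw [disjoint_left]
        constructor
        · intro h w hw
          have := lev_dc H hw
          exact h w hw (by rw [site w (by omega)]; exact one_pos)
        · intro h w hw _
          exact h hw
      · intro w hw
        have := lev_dc H hw
        rw [site w (by omega)]
        exact one_pos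
    rw [tC_IV H hC' hs]
    have h2 : IV (st i C) (Fe i (cu q + sg v)) =
        IV (st i C) (fun S => dd ^ 2 * xi ^ 2 * chi ∅ (dc u ∪ dc v) S) := by
      refine IV_congr fun S _ => ?_
      rw [hF S, hw S]
      unfold chi
      simp only [empty_subset, true_and, disjoint_union_left]
      by_cases k1 : Disjoint (dc u) S <;> by_cases k2 : Disjoint (dc v) S <;>
        simp [k1, k2] <;> ring
    rw [h2, IV_mul, IV_chi (empty_subset _) (union_subset hy hvs),
      if_pos (disjoint_empty_left _), card_empty, pow_zero, one_mul, Nat.sub_zero]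
    ring

/-! ### the near elements -/

/-- near elements over one site -/
noncomputable def Sg (i : ℕ) (C : Finset P) (v : P) : Finset P := by
  classical
  exact C.filter (fun w => (lev w = i + 1 ∧ uc w = {v}) ∨ (lev w + 1 = i ∧ dc w = {v}))

lemma mem_Sg {w : P} : w ∈ Sg i C v ↔
    w ∈ C ∧ ((lev w = i + 1 ∧ uc w = {v}) ∨ (lev w + 1 = i ∧ dc w = {v})) := by
  classical
  unfold Sg
  rw [mem_filter]

lemma Sg_lev {w : P} (h : w ∈ Sg i C v) : lev w = i + 1 ∨ lev w + 1 = i := by
  rcases (mem_Sg.1 h).2 with k | k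
  · exact Or.inl k.1
  · exact Or.inr k.1

section near

variable (Q : PSO r i psi C) (F : Flp i C p y q u a s b)
include Q F

/-- the matched doubles -/
lemma psi_y : psi y ∈ C ∧ lev (psi y) + 1 = i ∧ dc (psi y) = {a, s} ∧ psi (psi y) = y := by
  have hd : y ∈ dbL P i := mem_dbL.2 ⟨F.ly, by rw [F.cy]; exact card_pair F.as⟩
  have h1 := Q.hM.low y hd (notMem_empty _)
  exact ⟨So.psi_mem Q.H Q.hM Q.hC (mem_union_left _ hd) (F.yC Q.hC), (mem_dbU.1 h1.1).1,
    by rw [h1.2, F.cy], (Q.hM.invol y (mem_union_left _ hd) (notMem_empty _)).1⟩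

lemma psi_u : psi u ∈ C ∧ lev (psi u) = i + 1 ∧ uc (psi u) = {s, b} ∧ psi (psi u) = u := by
  have hd : u ∈ dbU P i := mem_dbU.2 ⟨F.lu, by rw [F.cu]; exact card_pair F.sb⟩
  have h1 := Q.hM.upp u hd (notMem_empty _)
  exact ⟨So.psi_mem Q.H Q.hM Q.hC (mem_union_right _ hd) (F.uC Q.hC), (mem_dbL.1 h1.1).1,
    by rw [h1.2, F.cu], (Q.hM.invol u (mem_union_right _ hd) (notMem_empty _)).1⟩

/-- the two lower covers of the common site -/
lemma dc_s {w : P} (h : w ⋖ s) : w = y ∨ w = psi u := by
  classical
  by_contra hcon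
  rw [not_or] at hcon
  obtain ⟨-, -, h3, -⟩ := psi_u Q F
  have hs : psi u ⋖ s := by rw [← mem_uc, h3]; exact mem_insert_self _ _
  have hyu : psi u ≠ y := by
    intro h1
    have h2 : b ∈ uc (psi u) := by rw [h3]; exact mem_insert_of_mem (mem_singleton_self _)
    rw [h1, F.cy, mem_insert, mem_singleton] at h2
    rcases h2 with h2 | h2
    · exact F.ab h2.symm
    · exact F.sb h2.symm
  have h4 : ({w, psi u, y} : Finset P) ⊆ dc s := by
    intro x hx
    rw [mem_insert, mem_insert, mem_singleton] at hx
    rcases hx with rfl | rfl | rfl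
    · exact mem_dc.2 h
    · exact mem_dc.2 hs
    · exact mem_dc.2 F.ys
  have h5 := card_le_card h4
  rw [card_insert_of_notMem (by
    rw [mem_insert, mem_singleton, not_or]
    exact ⟨hcon.2, hcon.1⟩), card_pair hyu] at h5
  have := dc_card_le Q.H s
  omega

/-- the two upper covers of the common site -/
lemma uc_s {w : P} (h : s ⋖ w) : w = u ∨ w = psi y := by
  classical
  by_contra hcon
  rw [not_or] at hcon
  obtain ⟨-, -, h3, -⟩ := psi_y Q F
  have hs : s ⋖ psi y := by
    rw [← mem_dc, h3]; exact mem_insert_of_mem (mem_singleton_self _)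
  have hyu : psi y ≠ u := by
    intro h1
    have h2 : a ∈ dc (psi y) := by rw [h3]; exact mem_insert_self _ _
    rw [h1, F.cu, mem_insert, mem_singleton] at h2
    rcases h2 with h2 | h2
    · exact F.as h2
    · exact F.ab h2
  have h4 : ({w, psi y, u} : Finset P) ⊆ uc s := by
    intro x hx
    rw [mem_insert, mem_insert, mem_singleton] at hx
    rcases hx with rfl | rfl | rfl
    · exact mem_uc.2 h
    · exact mem_uc.2 hs
    · exact mem_uc.2 F.su
  have h5 := card_le_card h4
  rw [card_insert_of_notMem (by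
    rw [mem_insert, mem_singleton, not_or]
    exact ⟨hcon.2, hcon.1⟩), card_pair hyu] at h5
  have := uc_card_le Q.H s
  omega

/-- the near elements of the part -/
lemma near_cls (nt : ∀ w ∈ C, lev w = i + 1 → uc w ≠ {a, b}) {w : P} (hw : w ∈ C)
    (hn : w ∈ near P i) : w = y ∨ w = u ∨ w = psi y ∨ w = psi u ∨ w ∈ Sg i C a ∨
      w ∈ Sg i C b := by
  classical
  have H := Q.H
  have hir := Q.hi2
  have key : ∀ T : Finset P, T.Nonempty → T ⊆ Win.st i C → s ∉ T →
      T = {a} ∨ T = {b} ∨ T = {a, b} := by
    intro T h1 h2 h3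
    rw [F.st] at h2
    by_cases ha : a ∈ T
    · by_cases hb : b ∈ T
      · right; right
        ext x
        rw [mem_insert, mem_singleton]
        constructor
        · intro hx
          have := h2 hx
          rw [mem_insert, mem_insert, mem_singleton] at this
          rcases this with k | k | k
          · exact Or.inl k
          · rw [k] at hx; exact absurd hx h3
          · exact Or.inr k
        · rintro (k | k)
          · rw [k]; exact ha
          · rw [k]; exact hb
      · left
        refine eq_singleton_iff_unique_mem.2 ⟨ha, fun x hx => ?_⟩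
        have := h2 hx
        rw [mem_insert, mem_insert, mem_singleton] at this
        rcases this with k | k | k
        · exact k
        · rw [k] at hx; exact absurd hx h3
        · rw [k] at hx; exact absurd hx hb
    · right; left
      have h4 : ∀ x ∈ T, x = b := by
        intro x hx
        have := h2 hx
        rw [mem_insert, mem_insert, mem_singleton] at this
        rcases this with k | k | k
        · rw [k] at hx; exact absurd hx ha
        · rw [k] at hx; exact absurd hx h3
        · exact k
      obtain ⟨x, hx⟩ := h1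
      exact eq_singleton_iff_unique_mem.2 ⟨by rw [← h4 x hx]; exact hx, h4⟩
  rcases mem_near.1 hn with hl | hl
  · have h2 : uc w ⊆ Win.st i C := by
      intro x hx
      have := lev_uc H hx
      exact mem_st.2 ⟨Q.hC.up hw (mem_uc.1 hx), by omega⟩
    by_cases hs : s ∈ uc w
    · rcases dc_s Q F (mem_uc.1 hs) with k | k
      · exact Or.inl k
      · exact Or.inr (Or.inr (Or.inr (Or.inl k)))
    · rcases key (uc w) (uc_nonempty H (by omega)) h2 hs with k | k | k
      · exact Or.inr (Or.inr (Or.inr (Or.inr (Or.inl (mem_Sg.2 ⟨hw, Or.inl ⟨hl, k⟩⟩)))))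
      · exact Or.inr (Or.inr (Or.inr (Or.inr (Or.inr (mem_Sg.2 ⟨hw, Or.inl ⟨hl, k⟩⟩)))))
      · exact absurd k (nt w hw hl)
  · have h2 : dc w ⊆ Win.st i C := by
      intro x hx
      have := lev_dc H hx
      exact mem_st.2 ⟨Q.hC.dn hw (by omega) (mem_dc.1 hx), by omega⟩
    by_cases hs : s ∈ dc w
    · rcases uc_s Q F (mem_dc.1 hs) with k | k
      · exact Or.inr (Or.inl k)
      · exact Or.inr (Or.inr (Or.inl k))
    · rcases key (dc w) (dc_nonempty H (by omega)) h2 hs with k | k | k
      · exact Or.inr (Or.inr (Or.inr (Or.inr (Or.inl (mem_Sg.2 ⟨hw, Or.inr ⟨hl, k⟩⟩)))))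
      · exact Or.inr (Or.inr (Or.inr (Or.inr (Or.inr (mem_Sg.2 ⟨hw, Or.inr ⟨hl, k⟩⟩)))))
      · exfalso
        have hd : w ∈ dbU P i := mem_dbU.2 ⟨hl, by rw [k]; exact card_pair F.ab⟩
        have h3 := Q.hM.upp w hd (notMem_empty _)
        exact nt (psi w) (So.psi_mem H Q.hM Q.hC (mem_union_right _ hd) hw)
          (mem_dbL.1 h3.1).1 (by rw [h3.2, k])

/-- the near elements besides `y` and its partner -/
lemma Nr_y (nt : ∀ w ∈ C, lev w = i + 1 → uc w ≠ {a, b}) :
    Nr i C y (psi y) = {psi u, u} ∪ (Sg i C a ∪ Sg i C b) := by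
  classical
  obtain ⟨y1, y2, y3, y4⟩ := psi_y Q F
  obtain ⟨u1, u2, u3, u4⟩ := psi_u Q F
  have ly := F.ly
  have lu := F.lu
  have hir := Q.hi2
  have n1 : psi u ≠ y := by
    intro h
    rw [h, F.cy] at u3
    have : b ∈ ({a, s} : Finset P) := by
      rw [u3]; exact mem_insert_of_mem (mem_singleton_self _)
    rw [mem_insert, mem_singleton] at this
    rcases this with k | k
    · exact F.ab k.symm
    · exact F.sb k.symm
  have n2 : psi y ≠ u := by
    intro h
    rw [h, F.cu] at y3
    have : a ∈ ({s, b} : Finset P) := by rw [y3]; exact mem_insert_self _ _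
    rw [mem_insert, mem_singleton] at this
    rcases this with k | k
    · exact F.as k
    · exact F.ab k
  ext w
  rw [mem_Nr, mem_union, mem_union, mem_insert, mem_singleton]
  constructor
  · rintro ⟨h1, h2, h3, h4⟩
    rcases near_cls Q F nt h1 h2 with k | k | k | k | k | k
    · exact absurd k h3
    · exact Or.inl (Or.inr k)
    · exact absurd k h4
    · exact Or.inl (Or.inl k)
    · exact Or.inr (Or.inl k)
    · exact Or.inr (Or.inr k)
  · rintro ((k | k) | k)
    · rw [k]
      exact ⟨u1, mem_near.2 (Or.inl u2), n1, fun h => by have := congrArg lev h; omega⟩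
    · rw [k]
      exact ⟨F.uC Q.hC, mem_near.2 (Or.inr lu), fun h => by have := congrArg lev h; omega,
        n2.symm⟩
    · have hk : w ∈ C ∧ ∃ x, (lev w = i + 1 ∧ uc w = {x}) ∨ (lev w + 1 = i ∧ dc w = {x}) := by
        rcases k with k | k
        · exact ⟨(mem_Sg.1 k).1, a, (mem_Sg.1 k).2⟩
        · exact ⟨(mem_Sg.1 k).1, b, (mem_Sg.1 k).2⟩
      obtain ⟨h1, x, h2⟩ := hk
      refine ⟨h1, mem_near.2 (by rcases h2 with h2 | h2 <;> omega), ?_, ?_⟩
      · rintro rfl
        rcases h2 with h2 | h2
        · have h3 := congrArg Finset.card h2.2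
          rw [F.cy, card_pair F.as, card_singleton] at h3
          omega
        · omega
      · intro h
        rcases h2 with h2 | h2
        · have := congrArg lev h
          omega
        · have h3 := congrArg Finset.card h2.2
          rw [h, y3, card_pair F.as, card_singleton] at h3
          omega

/-- the near elements besides `u` and its partner -/
lemma Nr_u (nt : ∀ w ∈ C, lev w = i + 1 → uc w ≠ {a, b}) :
    Nr i C (psi u) u = {y, psi y} ∪ (Sg i C a ∪ Sg i C b) := by
  classical
  obtain ⟨y1, y2, y3, y4⟩ := psi_y Q F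
  obtain ⟨u1, u2, u3, u4⟩ := psi_u Q F
  have ly := F.ly
  have lu := F.lu
  have hir := Q.hi2
  have n1 : psi u ≠ y := by
    intro h
    rw [h, F.cy] at u3
    have : b ∈ ({a, s} : Finset P) := by
      rw [u3]; exact mem_insert_of_mem (mem_singleton_self _)
    rw [mem_insert, mem_singleton] at this
    rcases this with k | k
    · exact F.ab k.symm
    · exact F.sb k.symm
  have n2 : psi y ≠ u := by
    intro h
    rw [h, F.cu] at y3
    have : a ∈ ({s, b} : Finset P) := by rw [y3]; exact mem_insert_self _ _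
    rw [mem_insert, mem_singleton] at this
    rcases this with k | k
    · exact F.as k
    · exact F.ab k
  ext w
  rw [mem_Nr, mem_union, mem_union, mem_insert, mem_singleton]
  constructor
  · rintro ⟨h1, h2, h3, h4⟩
    rcases near_cls Q F nt h1 h2 with k | k | k | k | k | k
    · exact Or.inl (Or.inl k)
    · exact absurd k h4
    · exact Or.inl (Or.inr k)
    · exact absurd k h3
    · exact Or.inr (Or.inl k)
    · exact Or.inr (Or.inr k)
  · rintro ((k | k) | k)
    · rw [k]
      exact ⟨F.yC Q.hC, mem_near.2 (Or.inl ly), n1.symm, fun h => by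
        have := congrArg lev h; omega⟩
    · rw [k]
      exact ⟨y1, mem_near.2 (Or.inr y2), fun h => by have := congrArg lev h; omega, n2⟩
    · have hk : w ∈ C ∧ ∃ x, (lev w = i + 1 ∧ uc w = {x}) ∨ (lev w + 1 = i ∧ dc w = {x}) := by
        rcases k with k | k
        · exact ⟨(mem_Sg.1 k).1, a, (mem_Sg.1 k).2⟩
        · exact ⟨(mem_Sg.1 k).1, b, (mem_Sg.1 k).2⟩
      obtain ⟨h1, x, h2⟩ := hk
      refine ⟨h1, mem_near.2 (by rcases h2 with h2 | h2 <;> omega), ?_, ?_⟩
      · intro h
        rcases h2 with h2 | h2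
        · have h3 := congrArg Finset.card h2.2
          rw [h, u3, card_pair F.sb, card_singleton] at h3
          omega
        · have := congrArg lev h
          omega
      · rintro rfl
        rcases h2 with h2 | h2
        · omega
        · have h3 := congrArg Finset.card h2.2
          rw [F.cu, card_pair F.sb, card_singleton] at h3
          omega

end near

end Pool.Agent.GaussPoset.Win.Pf

end

/-! From `Pool.Agent.W_448pn_h63.QaG` -/

section

/-!
# Flip parts with three sites: the value of (3,1)
(MP_448cb3_co, G2, window `j - 1`)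
-/

set_option autoImplicit false

namespace Pool.Agent.GaussPoset.Win.Pf

set_option linter.unusedSectionVars false

open Finset
open Pool.Agent.GaussPoset.Win.SO (on PSO PS5 tL tU)
open Pool.Agent.GaussPoset.Win.I2 (lS uS mem_lS mem_uS)

universe u

variable {P : Type u} [Fintype P] [PartialOrder P] [DecidableEq P] {r i : ℕ} {psi : P → P}
  {e f : P → ℕ} {C : Finset P} {p y q u a s b g v : P}

/-- the coefficient of the first order -/
noncomputable def ph (t : A) : ℤ := PowerSeries.coeff 3 (dd * t : A)

lemma ph_add (t t' : A) : ph (t + t') = ph t + ph t' := by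
  unfold ph
  rw [mul_add, map_add]

lemma ph_sum {ι : Type*} (s : Finset ι) (f : ι → A) : ph (∑ x ∈ s, f x) = ∑ x ∈ s, ph (f x) := by
  unfold ph
  rw [mul_sum, map_sum]

lemma ph_zero : ph 0 = 0 := by unfold ph; simp

lemma ph_neg (t : A) : ph (-t) = -ph t := by
  unfold ph
  rw [mul_neg, map_neg]

lemma ph_dvd {t : A} (h : dd ^ 3 ∣ t) : ph t = 0 := by
  unfold ph
  obtain ⟨q, rfl⟩ := h
  apply I2.coeff_eq_zero_of_dvd
  exact ⟨q, by ring⟩

lemma ph_unit (m n : ℕ) : ph (dd ^ 2 * (xx ^ m * xi ^ n)) = (-1) ^ (m + n) := by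
  unfold ph
  rw [← mul_assoc, ← pow_succ']
  exact SO.coef_units m n 3

lemma ph_unit_x (m : ℕ) : ph (xx ^ m * dd ^ 2) = (-1) ^ m := by
  have := ph_unit m 0
  rw [pow_zero, mul_one, add_zero, mul_comm (dd ^ 2)] at this
  exact this

lemma ph_unit_y (n : ℕ) : ph (xi ^ n * dd ^ 2) = (-1) ^ n := by
  have := ph_unit 0 n
  rw [pow_zero, one_mul, zero_add, mul_comm (dd ^ 2)] at this
  exact this

lemma ph_nat (k : ℕ) (t : A) : ph ((k : A) * t) = k * ph t := by
  rw [← nsmul_eq_mul]
  unfold ph
  rw [mul_smul_comm, map_nsmul, nsmul_eq_mul]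

section near

variable (Q : PSO r i psi C) (F : Flp i C p y q u a s b)
include Q F

lemma Sg_disj : Disjoint (Sg i C a) (Sg i C b) := by
  rw [disjoint_left]
  intro w h h'
  rcases (mem_Sg.1 h).2 with k | k <;> rcases (mem_Sg.1 h').2 with k' | k'
  · have h3 := k.2.symm.trans k'.2
    exact F.ab (singleton_injective h3)
  · omega
  · omega
  · have h3 := k.2.symm.trans k'.2
    exact F.ab (singleton_injective h3)

/-- the near sum below -/
theorem low_near_sum (nt : ∀ w ∈ C, lev w = i + 1 → uc w ≠ {a, b}) :
    ∑ v ∈ Nr i C y (psi y), ph (tC i C (cl p + sg v)) = -1 - ((Sg i C b).card : ℤ) := by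
  classical
  have H := Q.H
  have hir := Q.hi2
  have b3 := F.b3
  have ly := F.ly
  have lu := F.lu
  obtain ⟨y1, y2, y3, y4⟩ := psi_y Q F
  obtain ⟨u1, u2, u3, u4⟩ := psi_u Q F
  have hv : ∀ v ∈ Nr i C y (psi y), (lev v = i + 1 → tC i C (cl p + sg v) =
      dd ^ 2 * (xx ^ (uc y ∪ uc v).card * dd ^ ((st i C).card - (uc y ∪ uc v).card))) ∧
    (lev v + 1 = i → tC i C (cl p + sg v) =
      dd ^ 2 * (xi * (if Disjoint (uc y) (dc v) then
        xx ^ (uc y).card * dd ^ ((st i C).card - (uc y).card - (dc v).card) else 0))) := by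
    intro v hv
    obtain ⟨h1, h2, h3, h4⟩ := mem_Nr.1 hv
    exact low_near H (by omega) Q.hC F.mp F.lp F.cp h1 h2 h3
  rw [Nr_y Q F nt] at hv ⊢
  have hd1 : Disjoint ({psi u, u} : Finset P) (Sg i C a ∪ Sg i C b) := by
    rw [disjoint_left]
    intro w hw hw'
    have hk : ∃ x, (lev w = i + 1 ∧ uc w = {x}) ∨ (lev w + 1 = i ∧ dc w = {x}) := by
      rcases mem_union.1 hw' with k | k
      · exact ⟨a, (mem_Sg.1 k).2⟩
      · exact ⟨b, (mem_Sg.1 k).2⟩
    obtain ⟨x, hk⟩ := hk
    rw [mem_insert, mem_singleton] at hw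
    rcases hw with rfl | rfl
    · rcases hk with k | k
      · have h3 := congrArg Finset.card k.2
        rw [u3, card_pair F.sb, card_singleton] at h3
        omega
      · omega
    · rcases hk with k | k
      · omega
      · have h3 := congrArg Finset.card k.2
        rw [F.cu, card_pair F.sb, card_singleton] at h3
        omega
  have hne : psi u ≠ u := fun h => by have := congrArg lev h; omega
  rw [sum_union hd1, sum_union (Sg_disj Q F), sum_pair hne]
  have hU : ({a, s} ∪ {s, b} : Finset P) = {a, s, b} := by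
    ext x
    simp only [mem_union, mem_insert, mem_singleton]
    tauto
  have hUb : ({a, s} ∪ {b} : Finset P) = {a, s, b} := by
    ext x
    simp only [mem_union, mem_insert, mem_singleton]
    tauto
  have hUa : ({a, s} ∪ {a} : Finset P) = {a, s} := by
    ext x
    simp only [mem_union, mem_insert, mem_singleton]
    tauto
  have c3 : ({a, s, b} : Finset P).card = 3 := by rw [← F.st]; exact b3
  have c2 : ({a, s} : Finset P).card = 2 := card_pair F.as
  -- the values
  have t1 : ph (tC i C (cl p + sg (psi u))) = -1 := by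
    have h := (hv (psi u) (mem_union_left _ (mem_insert_self _ _))).1 u2
    rw [h, F.cy, u3, hU, c3, b3, Nat.sub_self, pow_zero]
    have := ph_unit 3 0
    rw [pow_zero, add_zero] at this
    rw [this]
    norm_num
  have t2 : ph (tC i C (cl p + sg u)) = 0 := by
    have h := (hv u (mem_union_left _ (mem_insert_of_mem (mem_singleton_self _)))).2 lu
    rw [h, if_neg]
    · rw [mul_zero, mul_zero, ph_zero]
    · rw [F.cy, F.cu]
      intro hd
      exact disjoint_left.1 hd (mem_insert_of_mem (mem_singleton_self s)) (mem_insert_self s _)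
  have t3 : ∑ v ∈ Sg i C a, ph (tC i C (cl p + sg v)) = 0 := by
    refine Finset.sum_eq_zero fun v hvs => ?_
    have hm := hv v (mem_union_right _ (mem_union_left _ hvs))
    rcases (mem_Sg.1 hvs).2 with k | k
    · rw [hm.1 k.1, F.cy, k.2, hUa, c2, b3]
      apply ph_dvd
      exact ⟨xx ^ 2, by ring⟩
    · rw [hm.2 k.1, if_neg]
      · rw [mul_zero, mul_zero, ph_zero]
      · rw [F.cy, k.2]
        intro hd
        exact disjoint_left.1 hd (mem_insert_self a _) (mem_singleton_self a)
  have t4 : ∑ v ∈ Sg i C b, ph (tC i C (cl p + sg v)) = ∑ v ∈ Sg i C b, (-1 : ℤ) := by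
    refine Finset.sum_congr rfl fun v hvs => ?_
    have hm := hv v (mem_union_right _ (mem_union_right _ hvs))
    rcases (mem_Sg.1 hvs).2 with k | k
    · rw [hm.1 k.1, F.cy, k.2, hUb, c3, b3, Nat.sub_self, pow_zero]
      have := ph_unit 3 0
      rw [pow_zero, add_zero] at this
      rw [this]
      norm_num
    · rw [hm.2 k.1, if_pos]
      · rw [F.cy, k.2, c2, b3, card_singleton]
        have := ph_unit 2 1
        rw [pow_one] at this
        simp only [Nat.reduceSub, pow_zero, mul_one]
        rw [mul_comm xi, this]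
        norm_num
      · rw [F.cy, k.2, disjoint_singleton_right, mem_insert, mem_singleton, not_or]
        exact ⟨F.ab.symm, F.sb.symm⟩
  rw [t1, t2, t3, t4, sum_const, nsmul_eq_mul]
  ring

/-- the near sum above -/
theorem upp_near_sum (nt : ∀ w ∈ C, lev w = i + 1 → uc w ≠ {a, b}) :
    ∑ v ∈ Nr i C (psi u) u, ph (tC i C (cu q + sg v)) = 1 + ((Sg i C a).card : ℤ) := by
  classical
  have H := Q.H
  have hir := Q.hi2
  have b3 := F.b3
  have ly := F.ly
  have lu := F.lu
  obtain ⟨y1, y2, y3, y4⟩ := psi_y Q F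
  obtain ⟨u1, u2, u3, u4⟩ := psi_u Q F
  have hv : ∀ v ∈ Nr i C (psi u) u, (lev v = i + 1 → tC i C (cu q + sg v) =
      dd ^ 2 * (xi * (if Disjoint (uc v) (dc u) then
        xx ^ (uc v).card * dd ^ ((st i C).card - (uc v).card - (dc u).card) else 0))) ∧
    (lev v + 1 = i → tC i C (cu q + sg v) =
      dd ^ 2 * (xi ^ 2 * dd ^ ((st i C).card - (dc u ∪ dc v).card))) := by
    intro v hv
    obtain ⟨h1, h2, h3, h4⟩ := mem_Nr.1 hv
    exact upp_near H hir Q.hC F.mq F.lq F.cq h1 h2 h4
  rw [Nr_u Q F nt] at hv ⊢
  have hd1 : Disjoint ({y, psi y} : Finset P) (Sg i C a ∪ Sg i C b) := by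
    rw [disjoint_left]
    intro w hw hw'
    have hk : ∃ x, (lev w = i + 1 ∧ uc w = {x}) ∨ (lev w + 1 = i ∧ dc w = {x}) := by
      rcases mem_union.1 hw' with k | k
      · exact ⟨a, (mem_Sg.1 k).2⟩
      · exact ⟨b, (mem_Sg.1 k).2⟩
    obtain ⟨x, hk⟩ := hk
    rw [mem_insert, mem_singleton] at hw
    rcases hw with rfl | rfl
    · rcases hk with k | k
      · have h3 := congrArg Finset.card k.2
        rw [F.cy, card_pair F.as, card_singleton] at h3
        omega
      · omega
    · rcases hk with k | k
      · omega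
      · have h3 := congrArg Finset.card k.2
        rw [y3, card_pair F.as, card_singleton] at h3
        omega
  have hne : y ≠ psi y := fun h => by have := congrArg lev h; omega
  rw [sum_union hd1, sum_union (Sg_disj Q F), sum_pair hne]
  have hU : ({s, b} ∪ {a, s} : Finset P) = {a, s, b} := by
    ext x
    simp only [mem_union, mem_insert, mem_singleton]
    tauto
  have hUa : ({s, b} ∪ {a} : Finset P) = {a, s, b} := by
    ext x
    simp only [mem_union, mem_insert, mem_singleton]
    tauto
  have hUb : ({s, b} ∪ {b} : Finset P) = {s, b} := by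
    ext x
    simp only [mem_union, mem_insert, mem_singleton]
    tauto
  have c3 : ({a, s, b} : Finset P).card = 3 := by rw [← F.st]; exact b3
  have c2 : ({s, b} : Finset P).card = 2 := card_pair F.sb
  -- the values
  have t1 : ph (tC i C (cu q + sg y)) = 0 := by
    have h := (hv y (mem_union_left _ (mem_insert_self _ _))).1 ly
    rw [h, if_neg]
    · rw [mul_zero, mul_zero, ph_zero]
    · rw [F.cy, F.cu]
      intro hd
      exact disjoint_left.1 hd (mem_insert_of_mem (mem_singleton_self s)) (mem_insert_self s _)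
  have t2 : ph (tC i C (cu q + sg (psi y))) = 1 := by
    have h := (hv (psi y) (mem_union_left _ (mem_insert_of_mem (mem_singleton_self _)))).2 y2
    rw [h, F.cu, y3, hU, c3, b3, Nat.sub_self, pow_zero, mul_one]
    have := ph_unit 0 2
    rw [pow_zero, one_mul, zero_add] at this
    rw [this]
    norm_num
  have t3 : ∑ v ∈ Sg i C b, ph (tC i C (cu q + sg v)) = 0 := by
    refine Finset.sum_eq_zero fun v hvs => ?_
    have hm := hv v (mem_union_right _ (mem_union_right _ hvs))
    rcases (mem_Sg.1 hvs).2 with k | k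
    · rw [hm.1 k.1, if_neg]
      · rw [mul_zero, mul_zero, ph_zero]
      · rw [F.cu, k.2]
        intro hd
        exact disjoint_left.1 hd (mem_singleton_self b)
          (mem_insert_of_mem (mem_singleton_self b))
    · rw [hm.2 k.1, F.cu, k.2, hUb, c2, b3]
      apply ph_dvd
      exact ⟨xi ^ 2, by ring⟩
  have t4 : ∑ v ∈ Sg i C a, ph (tC i C (cu q + sg v)) = ∑ v ∈ Sg i C a, (1 : ℤ) := by
    refine Finset.sum_congr rfl fun v hvs => ?_
    have hm := hv v (mem_union_right _ (mem_union_left _ hvs))
    rcases (mem_Sg.1 hvs).2 with k | k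
    · rw [hm.1 k.1, if_pos]
      · rw [F.cu, k.2, c2, b3, card_singleton]
        have := ph_unit 1 1
        rw [pow_one, pow_one] at this
        simp only [Nat.reduceSub, pow_zero, mul_one, pow_one]
        rw [mul_comm xi, this]
        norm_num
      · rw [F.cu, k.2, disjoint_singleton_left, mem_insert, mem_singleton, not_or]
        exact ⟨F.as, F.ab⟩
    · rw [hm.2 k.1, F.cu, k.2, hUa, c3, b3, Nat.sub_self, pow_zero, mul_one]
      have := ph_unit 0 2
      rw [pow_zero, one_mul, zero_add] at this
      rw [this]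
      norm_num
  rw [t1, t2, t3, t4, sum_const, nsmul_eq_mul]
  ring

open Classical in
/-- the labellings of energy three: without pendants, with the lower, with the upper pendant -/
theorem dec3 : ZC i C 3 = ∑ e ∈ (Dm i C).piAntidiag 3, tC i C e +
    ∑ e ∈ (C.piAntidiag 3).filter (fun e => e p ≠ 0), tC i C e +
    ∑ e ∈ (C.piAntidiag 3).filter (fun e => e q ≠ 0), tC i C e := by
  classical
  have H := Q.H
  have hir := Q.hi2
  have lp := F.lp
  have ly := F.ly
  have lu := F.lu
  have lq := F.lq
  unfold ZC
  rw [← Finset.sum_filter_add_sum_filter_not (C.piAntidiag 3) (fun e => e p ≠ 0)]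
  rw [← Finset.sum_filter_add_sum_filter_not ((C.piAntidiag 3).filter (fun e => ¬ e p ≠ 0))
    (fun e => e q ≠ 0), Finset.filter_filter, Finset.filter_filter]
  have e1 : ∑ e ∈ (C.piAntidiag 3).filter (fun e => ¬ e p ≠ 0 ∧ e q ≠ 0), tC i C e =
      ∑ e ∈ (C.piAntidiag 3).filter (fun e => e q ≠ 0), tC i C e := by
    refine Finset.sum_subset ?_ ?_
    · intro e he
      rw [mem_filter] at he ⊢
      exact ⟨he.1, he.2.2⟩
    · intro e he hne
      rw [mem_filter, mem_piA] at he
      have hez : e p ≠ 0 := by
        by_contra h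
        apply hne
        rw [mem_filter, mem_piA]
        exact ⟨he.1, fun h' => h' h, he.2⟩
      by_cases hA : AdmL i e
      · by_cases hB : AdmU i e
        · by_cases hd : Disjoint (AL i e) (AU i e)
          · exfalso
            have h1 := bs_le Q F hA hB hd (Nat.pos_of_ne_zero hez)
              (Nat.pos_of_ne_zero he.2)
            have h2 : ∑ x, bs p y q u s x ≤ ∑ x, e x := Finset.sum_le_sum fun x _ => h1 x
            have := bs_sum F
            have := he.1.1
            omega
          · exact tC_not_disj hd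
        · exact tC_not_admU hB
      · exact tC_not_admL hA
  have e2 : (C.piAntidiag 3).filter (fun e => ¬ e p ≠ 0 ∧ ¬ e q ≠ 0) =
      (Dm i C).piAntidiag 3 := by
    ext e
    rw [mem_filter, mem_piA, mem_piA]
    constructor
    · rintro ⟨⟨h3, h4⟩, h5, h6⟩
      refine ⟨h3, fun w hw => ?_⟩
      by_contra hne
      have hwC : w ∈ C := by
        by_contra h
        exact hne (h4 w h)
      apply hw
      refine mem_Dm.2 ⟨hwC, fun h7 => ?_, fun h7 => ?_⟩
      · rw [Q.pd w hwC p F.mp h7 F.pD] at hne
        exact h5 hne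
      · rw [Q.pu w hwC q F.mq h7 F.qU] at hne
        exact h6 hne
    · rintro ⟨h3, h4⟩
      refine ⟨⟨h3, fun w hw => h4 w fun h => hw (mem_Dm.1 h).1⟩, ?_, ?_⟩
      · rw [not_not]
        exact h4 p fun h => (mem_Dm.1 h).2.1 F.pD
      · rw [not_not]
        exact h4 q fun h => (mem_Dm.1 h).2.2 F.qU
  rw [e1, e2]
  ring

/-- THE VALUE OF (3,1) OF A FLIP PART -/
theorem al3_flip (nt : ∀ w ∈ C, lev w = i + 1 → uc w ≠ {a, b}) :
    I2.al 3 (st i C).card (ZS i C) = (ZU i C).card - (ZL i C).card + (FLo C p).card -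
      (FUp C q).card + (Sg i C a).card - (Sg i C b).card := by
  classical
  have H := Q.H
  have hir := Q.hi2
  have hC := Q.hC
  have hC' : Part i C := SO.part_pred hC
  have b3 := F.b3
  have lp := F.lp
  have ly := F.ly
  have lu := F.lu
  have lq := F.lq
  obtain ⟨y1, y2, y3, y4⟩ := psi_y Q F
  obtain ⟨u1, u2, u3, u4⟩ := psi_u Q F
  have hbase := so_base3 H Q.hi Q.hi2 Q.hM (fun z hz => so_up3 H Q.nlL hz)
    (fun x hx => so_dn3 H Q.nlU hx) hC
  have hspt1 : ∀ v ∈ C, Spt C (cl p + sg v) := by
    intro v hv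
    rw [spt_add_iff]
    exact ⟨spt_cl hC' F.mp, fun w hw => ExpC_sg_ne (by rintro rfl; exact hw hv)⟩
  have hspt2 : ∀ v ∈ C, Spt C (cu q + sg v) := by
    intro v hv
    rw [spt_add_iff]
    exact ⟨spt_cu hC' F.mq (by omega), fun w hw => ExpC_sg_ne (by rintro rfl; exact hw hv)⟩
  have hdec := dec3 Q F
  rw [split_cl H lp F.cp, split_cu H (by omega) lq F.cq, Finset.filter_true_of_mem hspt1,
    Finset.filter_true_of_mem hspt2,
    low_class H (by omega) hC ly F.cp (by rw [F.cy]; exact card_pair F.as) y2
      (by rw [y3, F.cy]) F.mp (by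
      intro z' hz' huc
      refine Q.pd z' hz' p F.mp ?_ F.pD
      refine mem_PD.2 ⟨?_, by rw [huc, card_singleton], y, ?_, by
        rw [F.cy]; exact card_pair F.as⟩
      · have := lev_uc H (x := z') (v := y) (by rw [huc]; exact mem_singleton_self y)
        omega
      · rw [← mem_uc, huc]
        exact mem_singleton_self y),
    upp_class H hir hC lu F.cq (by rw [F.cu]; exact card_pair F.sb) u2 (by rw [u3, F.cu]) F.mq
      (by
      intro x' hx' hdc
      refine Q.pu x' hx' q F.mq ?_ F.qU
      refine mem_PU.2 ⟨?_, by rw [hdc, card_singleton], u, ?_, by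
        rw [F.cu]; exact card_pair F.sb⟩
      · have := lev_dc H (x := x') (v := u) (by rw [hdc]; exact mem_singleton_self u)
        omega
      · rw [← mem_dc, hdc]
        exact mem_singleton_self u)] at hdec
  have hb := congrArg ph hdec
  rw [b3] at hb hbase ⊢
  have e0 : I2.al 3 3 (ZS i C) = ph (ZC i C 3) := by
    unfold I2.al ph
    rw [coeff_ZS]
  have k1 : ph (xx ^ 3 * dd ^ (3 - 1)) = -1 := by
    have := ph_unit_x 3
    norm_num at this ⊢
    exact this
  have k4 : ph (xi ^ 2 * dd ^ (3 - 1)) = 1 := by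
    have := ph_unit_y 2
    norm_num at this ⊢
    exact this
  have e1 : ph (∑ e ∈ (Dm i C).piAntidiag 3, tC i C e) =
      (ZU i C).card - (ZL i C).card := by
    have h1 := ph_dvd hbase
    rw [sub_eq_add_neg, ph_add, ph_neg, ph_add, ph_nat, ph_nat, k1, k4] at h1
    linarith
  have e2 := low_near_sum Q F nt
  have e3 := upp_near_sum Q F nt
  rw [← ph_sum] at e2 e3
  rw [e0, hb]
  simp only [ph_add, ph_nat]
  rw [e1, e2, e3]
  have k2 : ph (xx ^ 2 * dd ^ (3 - 1)) = 1 := by
    have := ph_unit_x 2
    norm_num at this ⊢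
    exact this
  have k3 : ph (2 * (xx * dd ^ (3 - 1))) = -2 := by
    have := ph_unit_x 1
    have h4 := ph_nat 2 (xx * dd ^ (3 - 1))
    norm_num at this h4 ⊢
    rw [h4, this]
    norm_num
  have k5 : ph (xi * dd ^ (3 - 1)) = -1 := by
    have := ph_unit_y 1
    norm_num at this ⊢
    exact this
  have k6 : ph (2 * dd ^ (3 - 1)) = 2 := by
    have := ph_unit_y 0
    have h4 := ph_nat 2 (dd ^ (3 - 1))
    norm_num at this h4 ⊢
    rw [h4, this]
    norm_num
  rw [k1, k2, k3, k4, k5, k6]
  push_cast
  ring

end near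

end Pool.Agent.GaussPoset.Win.Pf

end
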