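import Mathlib
import Pool.Agent.W_448zz_h61.Ns
import Pool.Agent.W_448zz_h61.M163
import Pool.Agent.W_448zz_h61.M167

/-! From `Pool.Agent.W_448pn_h63.QaE` -/

section

/-!
# Flip parts with three sites: the value of (6,2)
(MP_448cb3_co, G2, window `j - 1`)
-/

set_option autoImplicit false

namespace Pool.Agent.GaussPoset.Win.Pf

set_option linter.unusedSectionVars false

open Finset
open Pool.Agent.GaussPoset.Win.SO (on PSO PS5 tL tU LO6 N1f N5f mem_N1f mem_N5f Ix PR mem_Ix mem_PR
  Psi val)
open Pool.Agent.GaussPoset.Win.I2 (lS uS mem_lS mem_uS)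
open Pool.Agent.GaussPoset.Win.So (TogL TogU TgP asm_N J spt_pa RC)

universe u

variable {P : Type u} [Fintype P] [PartialOrder P] [DecidableEq P] {r i : ℕ} {psi : P → P}
  {e f : P → ℕ} {C : Finset P} {p y q u a s b g : P}

/-- the contribution of a core as a sum of terms -/
theorem J_sum (H : Gr P r) (hir : i ≤ r) (psi : P → P) (hC : Part i C) (hs : Spt C e)
    (hc : IsCore i ∅ psi e) (m : ℕ) :
    J i psi C m e = ∑ l ∈ (RC i psi C e).piAntidiag m, tC i C (e + l) := by
  have h4 : ∀ l ∈ (RC i psi C e).piAntidiag m, tC i C (e + l) =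
      IV (st i C) (fun S => Fe i e S * ∏ x ∈ RC i psi C e, wt i e x (l x) S) := by
    intro l hl
    rw [I2.mem_pa] at hl
    have hs' : Spt C (e + l) := by
      intro x hx
      rw [Pi.add_apply, hs x hx, hl.2 x (fun h => hx (by
        unfold RC at h
        exact (mem_inter.1 h).2))]
    rw [← So.IV_Fe H hC hs']
    congr 1
    funext S
    refine fact_many H hir (RC i psi C e) (fun x hx => So.RC_near hx) (fun x hx => ?_)
      (fun x hx => ?_) l hl.2 S
    · unfold RC at hx
      exact (mem_Rst.1 (mem_inter.1 hx).1).2.2.1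
    · unfold RC at hx
      exact hc x (mem_inter.1 hx).1
  rw [Finset.sum_congr rfl h4]
  unfold J So.RG IV
  rw [Finset.sum_comm]
  refine Finset.sum_congr rfl fun S _ => ?_
  simp only [Finset.mul_sum]

section two

variable (Q : PSO r i psi C) (F : Flp i C p y q u a s b)
include Q F

/-- the free near elements of the flip are outside the list -/
lemma RC_G6 {x : P} (hx : x ∈ RC i psi C (bs p y q u s)) : x ∈ C ∧ x ∉ G6 C p y q u s := by
  have hx' := hx
  unfold RC at hx'
  obtain ⟨h1, h2⟩ := mem_inter.1 hx'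
  obtain ⟨h3, h4, h5, h6⟩ := mem_Rst.1 h1
  obtain ⟨v1, v2, v3, v4, v5⟩ := bs_one F
  refine ⟨h2, fun h => ?_⟩
  have hn := (mem_near.1 h3)
  rcases lev_G6 Q F h with k | k | k | k | k
  · apply h5
    rw [k, mem_Tch]
    exact Or.inl ⟨F.ly, p, F.py, by omega⟩
  · apply h5
    rw [k, mem_Tch]
    exact Or.inr ⟨F.lu, q, F.uq, by omega⟩
  · have := congrArg lev k
    have := F.ls
    omega
  · omega
  · omega

/-- one more near unit over the flip -/
lemma J_bs : dd ^ ((st i C).card - 1) ∣ J i psi C 1 (bs p y q u s) := by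
  have hir : i ≤ r := by have := Q.hi2; omega
  rw [J_sum Q.H hir psi (SO.part_pred Q.hC) (bs_spt Q F) (bs_core Q F)]
  refine Finset.dvd_sum fun l hl => ?_
  rw [I2.mem_pa] at hl
  obtain ⟨g, hg⟩ : ∃ g, l = Pi.single g 1 := by
    have h1 : ∀ x, (0 : P → ℕ) x ≤ l x := fun x => Nat.zero_le _
    have hz : ∑ x, (0 : P → ℕ) x = 0 := by simp
    have h2 : ∑ x, l x = ∑ x, (0 : P → ℕ) x + 1 := by
      rw [hz]
      have h3 := hl.1
      rw [zero_add]
      exact h3
    obtain ⟨g, hg⟩ := single_of_le h1 h2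
    exact ⟨g, by rw [hg, zero_add]⟩
  have hgR : g ∈ RC i psi C (bs p y q u s) := by
    by_contra h
    have := hl.2 g h
    rw [hg, Pi.single_eq_same] at this
    omega
  obtain ⟨k1, k2⟩ := RC_G6 Q F hgR
  rw [hg]
  exact SO.cheap_dvd Q.H Q.hC (bg_spt Q F k1) (cheap_g Q F k1 k2)

end two

lemma LO6_sum (Q : PSO r i psi C) (hs : Spt C e)
    (h : LO6 uc dc (tL (P := P) i) (tU i) (lS P i) (uS P i) e) : ∑ x, e x = 6 := by
  obtain ⟨T, hT, rfl⟩ := SO.LO6_index Q hs h
  exact (SO.val_ne Q hT).1

section main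

variable (Q : Pt r i psi C) (F : Flp i C p y q u a s b)
include Q F

open Classical in
/-- THE SUM OF ENERGY SIX -/
theorem main6 : dd ^ ((st i C).card - 1) ∣ ZC i C 6 -
    ∑ e ∈ (C.piAntidiag 6).filter (LF i C p y q u s), tC i C e := by
  have hir : i ≤ r := by have := Q.hi2; omega
  have hP := SO.part_pred Q.hC
  have hq5 : ∀ q' ≤ 4, (C.piAntidiag q').filter (LF i C p y q u s) = ∅ := by
    intro q' hq'
    rw [Finset.filter_eq_empty_iff]
    intro e he hL
    have h0 := spt_pa he
    rw [I2.mem_pa] at he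
    rcases hL with h | h | ⟨g, -, h⟩
    · have := LO6_sum Q.toPSO h0 h
      omega
    · have := bs_sum F
      rw [h] at he
      omega
    · have := bg_sum (g := g) F
      rw [h] at he
      omega
  have h5 : (C.piAntidiag 5).filter (LF i C p y q u s) = {bs p y q u s} := by
    ext e
    rw [mem_filter, mem_singleton]
    constructor
    · rintro ⟨he, hL⟩
      have h0 := spt_pa he
      rw [I2.mem_pa] at he
      rcases hL with h | h | ⟨g, -, h⟩
      · have := LO6_sum Q.toPSO h0 h
        omega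
      · exact h
      · have := bg_sum (g := g) F
        rw [h] at he
        omega
    · rintro rfl
      exact ⟨I2.mem_pa.2 ⟨bs_sum F, bs_spt Q.toPSO F⟩, Or.inr (Or.inl rfl)⟩
  have e1 : ∑ e ∈ (C.piAntidiag 6).filter (LF i C p y q u s), tC i C e +
      J i psi C 1 (bs p y q u s) =
      ∑ n ∈ range (6 + 1), ∑ e ∈ (C.piAntidiag n).filter (LF i C p y q u s),
        J i psi C (6 - n) e := by
    rw [Finset.sum_range_succ, Finset.sum_range_succ]
    have e2 : ∑ n ∈ range 5, ∑ e ∈ (C.piAntidiag n).filter (LF i C p y q u s),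
        J i psi C (6 - n) e = 0 := by
      refine Finset.sum_eq_zero fun n hn => ?_
      rw [mem_range] at hn
      rw [hq5 n (by omega), Finset.sum_empty]
    rw [e2, h5, Finset.sum_singleton, zero_add, add_comm]
    congr 1
    refine Finset.sum_congr rfl fun e he => ?_
    rw [Nat.sub_self, So.J_zero Q.H hir hP (spt_pa (mem_filter.1 he).1)]
  have h6 : dd ^ ((st i C).card - 1) ∣ ZC i C 6 -
      (∑ e ∈ (C.piAntidiag 6).filter (LF i C p y q u s), tC i C e +
        J i psi C 1 (bs p y q u s)) := by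
    rw [So.ZC_cores Q.H hir psi hP 6, e1, ← Finset.sum_sub_distrib]
    refine Finset.dvd_sum fun n hn => ?_
    exact level3 Q F (by rw [mem_range] at hn; omega) (6 - n)
  have h7 := dvd_add h6 (J_bs Q.toPSO F)
  convert h7 using 1
  ring

/-- the index set of the leftover labellings outside the flip -/
lemma Ix_three {T : Finset P} (hT : T ∈ Ix i C) : ∃ z ∈ N1f i C, T = {z} := by
  have H := Q.H
  have hir : i ≤ r := by have := Q.hi2; omega
  have b3 := F.b3
  rcases mem_Ix.1 hT with h | ⟨z, h | h, k⟩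
  · exfalso
    obtain ⟨h1, h2, h3⟩ := mem_PR.1 h
    obtain ⟨z, z', hne, rfl⟩ := card_eq_two.1 h2
    have hz := h1 (mem_insert_self z {z'})
    have hz' := h1 (mem_insert_of_mem (mem_singleton_self z') : z' ∈ ({z, z'} : Finset P))
    have hd := h3 z (mem_insert_self z {z'}) z' (mem_insert_of_mem (mem_singleton_self z')) hne
    have m1 := (SO.num_Chs H hz).mC
    have m2 := (SO.num_Chs H hz').mC
    have h5 : sit i z ∪ sit i z' ⊆ st i C :=
      union_subset (SO.sit_part H Q.hC m1) (SO.sit_part H Q.hC m2)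
    have h6 := card_le_card h5
    rw [card_union_of_disjoint hd] at h6
    have := Pn.chs_two H hz
    have := Pn.chs_two H hz'
    omega
  · exact ⟨z, h, k⟩
  · exfalso
    obtain ⟨hzC, ⟨hl, p', w, hp, hw, hu, hd⟩ | ⟨hl, p', w, hp, hw, hu, hd⟩⟩ := mem_N5f.1 h
    · have hpC : p' ∈ C := Q.hC.up hzC (by rw [← mem_uc, hu]; exact mem_insert_self _ _)
      have hpp := Q.pd p' hpC p F.mp hp F.pD
      have hwC := (mem_ZL.1 hw).1
      have hlw := (mem_ZL.1 hw).2.1
      have h7 : (sit i w).card = 3 := by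
        rw [sit_low H (by omega), card_sts]
        exact (mem_ZL.1 hw).2.2
      have h8 := SO.sit_part H Q.hC hwC
      have h9 : sit i w = st i C := eq_of_subset_of_card_le h8 (by omega)
      have hl1 := (mem_PD.1 hp).1
      rw [← sit_low H (by omega), ← sit_low H (by omega), h9] at hd
      have h10 : a ∈ sit i p' := by
        rw [sit_low H (by omega), mem_sts]
        exact ⟨F.la, (by rw [hpp]; exact F.py.lt.trans F.ya.lt)⟩
      exact disjoint_left.1 hd h10 (SO.sit_part H Q.hC hpC h10)
    · have hpz : p' ⋖ z := by rw [← mem_dc, hu]; exact mem_insert_self _ _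
      have hpC : p' ∈ C := Q.hC.dn hzC (by have := lev_cov H hpz; omega) hpz
      have hpp := Q.pu p' hpC q F.mq hp F.qU
      have hwC := (mem_ZU.1 hw).1
      have hlw := (mem_ZU.1 hw).2.1
      have h7 : (sit i w).card = 3 := by
        rw [sit_upp H (by omega), card_stD]
        exact (mem_ZU.1 hw).2.2
      have h8 := SO.sit_part H Q.hC hwC
      have h9 : sit i w = st i C := eq_of_subset_of_card_le h8 (by omega)
      have hl1 := (mem_PU.1 hp).1
      rw [← sit_upp H (by omega), ← sit_upp H (by omega), h9] at hd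
      have h10 : b ∈ sit i p' := by
        rw [sit_upp H (by omega), mem_stD]
        exact ⟨F.lb, (by rw [hpp]; exact F.bu.lt.trans F.uq.lt)⟩
      exact disjoint_left.1 hd h10 (SO.sit_part H Q.hC hpC h10)

/-- the leftover labellings of energy six -/
lemma LF_six (e : P → ℕ) : e ∈ (C.piAntidiag 6) ∧ LF i C p y q u s e ↔
    (∃ z ∈ N1f i C, e = Psi i C {z}) ∨ ∃ g ∈ G6 C p y q u s, e = bg p y q u s g := by
  have H := Q.H
  have hir : i ≤ r := by have := Q.hi2; omega
  have b3 := F.b3
  constructor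
  · rintro ⟨he, h | h | h⟩
    · obtain ⟨T, hT, rfl⟩ := SO.LO6_index Q.toPSO (spt_pa he) h
      obtain ⟨z, hz, rfl⟩ := Ix_three Q F hT
      exact Or.inl ⟨z, hz, rfl⟩
    · exfalso
      rw [I2.mem_pa] at he
      have := bs_sum F
      rw [h] at he
      omega
    · exact Or.inr h
  · rintro (⟨z, hz, rfl⟩ | ⟨g, hg, rfl⟩)
    · have hT : ({z} : Finset P) ∈ Ix i C := mem_Ix.2 (Or.inr ⟨z, Or.inl hz, rfl⟩)
      obtain ⟨h1, h2⟩ := SO.val_ne Q.toPSO hT
      have hs := SO.Psi_spt H Q.hC hT
      refine ⟨I2.mem_pa.2 ⟨h1, hs⟩, ?_⟩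
      rcases cls3 Q F hs (SO.Psi_core H hT) h1.le with h | ⟨h, w, v, h3⟩ | h
      · exfalso
        exact h2 (SO.cheap_coeff H Q.hC hs h (by omega))
      · exfalso
        rcases h3 with ⟨x, x', c1, c2, G, -⟩ | ⟨x, x', c1, c2, G, -⟩
        · exact Pool.Agent.GaussPoset.Win.SO.Psi_noTogL H hT G
        · exact Pool.Agent.GaussPoset.Win.SO.Psi_noTogU H hT G
      · exact h
    · exact ⟨I2.mem_pa.2 ⟨bg_sum F, bg_spt Q.toPSO F (G6_sub Q.toPSO F hg)⟩,
        Or.inr (Or.inr ⟨g, hg, rfl⟩)⟩

lemma bg_inj {g g' : P} (h : bg p y q u s g = bg p y q u s g') : g = g' := by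
  unfold bg at h
  have h1 := add_left_cancel h
  have h2 := congrFun h1 g
  rw [Pi.single_eq_same, Pi.single_apply] at h2
  by_contra h3
  rw [if_neg h3] at h2
  omega

lemma G6_card : ((G6 C p y q u s).card : ℤ) = 3 + (FLo C p).card + (FUp C q).card := by
  classical
  have h1 := F.lp
  have h2 := F.ly
  have h3 := F.ls
  have h4 := F.lu
  have h5 := F.lq
  have lL : ∀ x ∈ FLo C p, lev x = i + 3 := by
    intro x hx
    have := lev_uc Q.H (x := x) (v := p) (by rw [(mem_FLo.1 hx).2]; exact mem_singleton_self _)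
    omega
  have lU : ∀ x ∈ FUp C q, lev x + 3 = i := by
    intro x hx
    have := lev_dc Q.H (x := x) (v := q) (by rw [(mem_FUp.1 hx).2]; exact mem_singleton_self _)
    omega
  have hl' : ∀ {v w : P}, lev v ≠ lev w → v ≠ w := fun h h' => h (by rw [h'])
  have d1 : Disjoint (FLo C p) (FUp C q) := by
    rw [disjoint_left]
    intro x hx hx'
    have := lL x hx
    have := lU x hx'
    omega
  have d2 : Disjoint ({y, u, s} : Finset P) (FLo C p ∪ FUp C q) := by
    rw [disjoint_left]
    intro x hx hx'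
    rw [mem_insert, mem_insert, mem_singleton] at hx
    rw [mem_union] at hx'
    have h6 : lev x = i + 1 ∨ lev x + 1 = i ∨ lev x = i := by
      rcases hx with rfl | rfl | rfl
      · exact Or.inl h2
      · exact Or.inr (Or.inl h4)
      · exact Or.inr (Or.inr h3)
    rcases hx' with h7 | h7
    · have := lL x h7
      omega
    · have := lU x h7
      omega
  unfold G6
  rw [card_union_of_disjoint d2, card_union_of_disjoint d1,
    SO.card_three (hl' (by omega)) (hl' (by omega)) (hl' (by omega))]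
  push_cast
  ring

/-- THE VALUE OF (6,2) OF A FLIP PART -/
theorem Pt.be6 : I2.be 6 (st i C).card (ZS i C) =
    1 - (N1f i C).card - (FLo C p).card - (FUp C q).card := by
  classical
  have H := Q.H
  have hir : i ≤ r := by have := Q.hi2; omega
  have b3 := F.b3
  rw [So.be_sum _ (by omega) (main6 Q F)]
  have h0 : (C.piAntidiag 6).filter (LF i C p y q u s) =
      (N1f i C).image (fun z => Psi i C {z}) ∪ (G6 C p y q u s).image (bg p y q u s) := by
    ext e
    rw [mem_filter, LF_six Q F e, mem_union, mem_image, mem_image]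
    constructor
    · rintro (⟨z, hz, rfl⟩ | ⟨g, hg, rfl⟩)
      · exact Or.inl ⟨z, hz, rfl⟩
      · exact Or.inr ⟨g, hg, rfl⟩
    · rintro (⟨z, hz, rfl⟩ | ⟨g, hg, rfl⟩)
      · exact Or.inl ⟨z, hz, rfl⟩
      · exact Or.inr ⟨g, hg, rfl⟩
  have hIx : ∀ {z}, z ∈ N1f i C → ({z} : Finset P) ∈ Ix i C := fun {z} hz =>
    mem_Ix.2 (Or.inr ⟨z, Or.inl hz, rfl⟩)
  have hd : Disjoint ((N1f i C).image (fun z => Psi i C {z}))
      ((G6 C p y q u s).image (bg p y q u s)) := by
    rw [disjoint_left]
    intro e he he'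
    obtain ⟨z, hz, rfl⟩ := mem_image.1 he
    obtain ⟨g, hg, h1⟩ := mem_image.1 he'
    have h2 := congrFun h1 s
    rw [SO.Psi_site H (hIx hz) F.ls, bg_in g (Or.inr (Or.inr (Or.inl rfl)))] at h2
    omega
  rw [h0, sum_union hd, sum_image, sum_image]
  · have h1 : ∑ z ∈ N1f i C, PowerSeries.coeff (st i C).card
        (dd ^ 2 * tC i C (Psi i C {z}) : A) = ∑ z ∈ N1f i C, (-1 : ℤ) :=
      Finset.sum_congr rfl fun z hz => (SO.N1_value Q.toPSO hz).2
    have h2 : ∑ g ∈ G6 C p y q u s, PowerSeries.coeff (st i C).card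
        (dd ^ 2 * tC i C (bg p y q u s g) : A) =
        ∑ g ∈ G6 C p y q u s, (-1 + if g = y ∨ g = u then 2 else 0 : ℤ) :=
      Finset.sum_congr rfl fun g hg => by
        rw [bg_coeff Q.toPSO F hg]
        split_ifs <;> norm_num
    have h3 : ∑ g ∈ G6 C p y q u s, (if g = y ∨ g = u then 2 else 0 : ℤ) = 4 := by
      rw [← Finset.sum_filter]
      have h4 : (G6 C p y q u s).filter (fun g => g = y ∨ g = u) = {y, u} := by
        ext g
        rw [mem_filter, mem_G6, mem_insert, mem_singleton]
        tauto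
      rw [h4, Finset.sum_const, card_pair (by
        intro h
        have := congrArg lev h
        have := F.ly
        have := F.lu
        omega)]
      norm_num
    rw [h1, h2, sum_add_distrib, h3, sum_const, sum_const, nsmul_eq_mul, nsmul_eq_mul,
      G6_card Q F]
    ring
  · intro g _ g' _ h
    exact bg_inj Q F h
  · intro z hz z' hz' h
    have := SO.Psi_inj H hir (hIx hz) (hIx hz') h
    exact singleton_injective this

end main

end Pool.Agent.GaussPoset.Win.Pf

end

/-! From `Pool.Agent.W_448pn_h63.QaH` -/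

section

/-!
# Flip parts with three sites: the value of (1,0) and the second power sum at the energy six
(MP_448cb3_co, G2, window `j - 1`)
-/

set_option autoImplicit false

namespace Pool.Agent.GaussPoset.Win.Pf

set_option linter.unusedSectionVars false

open Finset
open Pool.Agent.GaussPoset.Win.SO (on PSO PS5 tL tU)
open Pool.Agent.GaussPoset.Win.I2 (lS uS mem_lS mem_uS)

universe u

variable {P : Type u} [Fintype P] [PartialOrder P] [DecidableEq P] {r i : ℕ} {psi : P → P}
  {e f : P → ℕ} {C : Finset P} {p y q u a s b g v : P}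

/-- the coefficient at the energy one -/
lemma cf_one_sum (b : ℕ) (C : Finset P) :
    So.cf 1 b (ZS i C) = ∑ z ∈ C, PowerSeries.coeff b (tC i C (sg z) : A) := by
  classical
  rw [So.cf_one, coeff_ZS, ← map_sum]
  congr 1
  unfold ZC
  rw [So.sum_pa_one]
  rfl

lemma Fe_null (H : Gr P r) (hi : i ≤ r) (S : Finset P) : Fe i (0 : P → ℕ) S = 1 := by
  obtain ⟨u1, u2, u3, u4⟩ := upp_none H hi (e := (0 : P → ℕ)) fun _ _ => rfl
  obtain ⟨l1, l2, l3, l4⟩ := low_none H (i := i) (e := (0 : P → ℕ)) fun _ _ => rfl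
  unfold Fe cw chi
  rw [if_pos ⟨l1, u1⟩, l2, l3, l4, u2, u3, u4]
  simp

/-- one unit on a near element -/
lemma one_near (H : Gr P r) (hi : i ≤ r) (hC : Part (i + 1) C) (hvC : v ∈ C)
    (hv : v ∈ near P i) :
    (lev v = i + 1 → tC i C (sg v) =
      dd * (xx ^ (uc v).card * dd ^ ((st i C).card - (uc v).card))) ∧
    (lev v + 1 = i → tC i C (sg v) =
      dd * (xi * dd ^ ((st i C).card - (dc v).card))) := by
  classical
  have hC' : Part i C := SO.part_pred hC
  have hn := mem_near.1 hv
  have hT : v ∉ Tch i (0 : P → ℕ) := by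
    rw [mem_Tch]
    rintro (⟨h3, z, hz, h4⟩ | ⟨h3, z, hz, h4⟩)
    · exact lt_irrefl _ h4
    · exact lt_irrefl _ h4
  have hs : Spt C (sg v) := fun w hw => ExpC_sg_ne (by rintro rfl; exact hw hvC)
  have hF : ∀ S, Fe i (sg v) S = wt i (0 : P → ℕ) v 1 S := by
    intro S
    have h1 : Fe i ((0 : P → ℕ) + sg v) S = Fe i (0 : P → ℕ) S * wt i (0 : P → ℕ) v 1 S :=
      fact H hi hv hT rfl 1 S
    rw [zero_add, Fe_null H hi, one_mul] at h1
    exact h1
  constructor
  · intro lv
    have hvs : uc v ⊆ st i C := by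
      intro w hw
      have := lev_uc H hw
      exact mem_st.2 ⟨hC.up hvC (mem_uc.1 hw), by omega⟩
    have hw : ∀ S, wt i (0 : P → ℕ) v 1 S = dd * (if uc v ⊆ S then 1 else 0) := by
      intro S
      unfold wt wtL
      rw [if_pos lv, if_pos]
      · congr 1
        refine if_congr ?_ rfl rfl
        constructor
        · intro h w hw
          exact h w hw one_pos
        · intro h w hw _
          exact h hw
      · intro w hw
        exact one_pos
    rw [tC_IV H hC' hs]
    have h2 : IV (st i C) (Fe i (sg v)) = IV (st i C) (fun S => dd * chi (uc v) ∅ S) := by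
      refine IV_congr fun S _ => ?_
      rw [hF S, hw S]
      unfold chi
      simp only [disjoint_empty_left, and_true]
    rw [h2, IV_mul, IV_chi hvs (empty_subset _),
      if_pos (disjoint_empty_right _), card_empty, Nat.sub_zero]
  · intro lv
    have hvs : dc v ⊆ st i C := by
      intro w hw
      have := lev_dc H hw
      exact mem_st.2 ⟨hC.dn hvC (by omega) (mem_dc.1 hw), by omega⟩
    have hw : ∀ S, wt i (0 : P → ℕ) v 1 S = xi * dd * (if Disjoint (dc v) S then 1 else 0) := by
      intro S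
      unfold wt wtU
      rw [if_neg (by omega), if_pos]
      · congr 1
        refine if_congr ?_ rfl rfl
        rw [disjoint_left]
        constructor
        · intro h w hw
          exact h w hw one_pos
        · intro h w hw _
          exact h hw
      · intro w hw
        exact one_pos
    rw [tC_IV H hC' hs]
    have h2 : IV (st i C) (Fe i (sg v)) =
        IV (st i C) (fun S => xi * dd * chi ∅ (dc v) S) := by
      refine IV_congr fun S _ => ?_
      rw [hF S, hw S]
      unfold chi
      simp only [empty_subset, true_and]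
    rw [h2, IV_mul, IV_chi (empty_subset _) hvs, if_pos (disjoint_empty_left _), card_empty,
      pow_zero, one_mul, Nat.sub_zero]
    ring

/-- one unit on a site -/
lemma one_site (H : Gr P r) (hi : i ≤ r) (hC : Part (i + 1) C) (hvC : v ∈ C)
    (hv : lev v = i) : tC i C (sg v) = dd ^ (st i C).card := by
  classical
  obtain ⟨u1, u2, u3, u4⟩ := upp_none H hi (e := sg v) fun w hw =>
    ExpC_sg_ne (by rintro rfl; omega)
  obtain ⟨l1, l2, l3, l4⟩ := low_none H (i := i) (e := sg v) fun w hw =>
    ExpC_sg_ne (by rintro rfl; omega)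
  unfold tC cw
  rw [if_pos (show Disjoint (AL i (sg v)) (AU i (sg v)) by
    rw [l2]; exact disjoint_empty_left _), if_pos ⟨l1, u1⟩, l2, l3, l4, u2, u3, u4]
  simp

/-- one unit far from the sites -/
lemma one_far (H : Gr P r) (hi : i ≤ r) (h : i + 2 ≤ lev v ∨ lev v + 2 ≤ i) :
    tC i C (sg v) = 0 := by
  rcases h with h | h
  · apply tC_not_admL
    intro hA
    obtain ⟨w, hw⟩ := uc_nonempty H (x := v) (by omega)
    have lw := lev_uc H hw
    have h4 := pos_up H hA (z := v) (y := w) (by omega) (by rw [ExpC_sg_self]; exact one_pos)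
      (mem_uc.1 hw)
    rw [ExpC_sg_ne (by rintro rfl; omega)] at h4
    exact lt_irrefl _ h4
  · apply tC_not_admU
    intro hA
    obtain ⟨w, hw⟩ := dc_nonempty H (x := v) (by omega)
    have lw := lev_dc H hw
    have h4 := pos_dn H hi hA (x := v) (y := w) (by omega) (by
      rw [ExpC_sg_self]; exact one_pos) (mem_dc.1 hw)
    rw [ExpC_sg_ne (by rintro rfl; omega)] at h4
    exact lt_irrefl _ h4

lemma co_a (m : ℕ) : PowerSeries.coeff 3 (dd ^ 3 * (xx ^ m) : A) = (-1) ^ m := by
  have := SO.coef_units m 0 3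
  rw [pow_zero, mul_one, add_zero] at this
  exact this

lemma co_b : PowerSeries.coeff 3 (dd ^ 3 * xi : A) = -1 := by
  have := SO.coef_units 0 1 3
  rw [pow_zero, one_mul, pow_one, zero_add, pow_one] at this
  exact this

lemma co_c : PowerSeries.coeff 3 (dd ^ 2 * xx ^ 2 : A) = -2 := by
  have h1 : (dd ^ 2 * xx ^ 2 : A) = dd ^ 4 - 2 * dd ^ 3 + dd ^ 2 := by
    rw [← one_add_xx]
    ring
  have h2 : ∀ n, PowerSeries.coeff 3 (dd ^ n : A) = if 3 = n then 1 else 0 := by
    intro n
    unfold dd
    rw [PowerSeries.coeff_X_pow]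
  have h3 : (2 * dd ^ 3 : A) = dd ^ 3 + dd ^ 3 := by ring
  rw [h1, h3, map_add, map_sub, map_add, h2, h2, h2]
  norm_num

lemma co_d : PowerSeries.coeff 3 (dd ^ 2 * xi : A) = -1 := by
  have h := PowerSeries.coeff_X_pow_mul (xi : A) 2 1
  unfold dd
  rw [h]
  unfold xi
  rw [map_neg, PowerSeries.coeff_mk]

section near

variable (Q : PSO r i psi C) (F : Flp i C p y q u a s b)
include Q F

/-- THE VALUE OF (1,0) OF A FLIP PART -/
theorem c1_flip (nt : ∀ w ∈ C, lev w = i + 1 → uc w ≠ {a, b}) :
    So.cf 1 (st i C).card (ZS i C) = -3 - (Sg i C a).card - (Sg i C b).card := by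
  classical
  have H := Q.H
  have hir := Q.hi2
  have b3 := F.b3
  have ly := F.ly
  have lu := F.lu
  have ls := F.ls
  obtain ⟨y1, y2, y3, y4⟩ := psi_y Q F
  obtain ⟨u1, u2, u3, u4⟩ := psi_u Q F
  have n1 : psi u ≠ y := by
    intro h
    rw [h, F.cy] at u3
    have : b ∈ ({a, s} : Finset P) := by
      rw [u3]; exact mem_insert_of_mem (mem_singleton_self _)
    rw [mem_insert, mem_singleton] at this
    rcases this with k | k
    · exact F.ab k.symm
    · exact F.sb k.symm
  have n2 : psi y ≠ u := by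
    intro h
    rw [h, F.cu] at y3
    have : a ∈ ({s, b} : Finset P) := by rw [y3]; exact mem_insert_self _ _
    rw [mem_insert, mem_singleton] at this
    rcases this with k | k
    · exact F.as k
    · exact F.ab k
  rw [cf_one_sum, b3]
  -- the support
  set W : Finset P := Win.st i C ∪ ({y, psi u} ∪ ({u, psi y} ∪ (Sg i C a ∪ Sg i C b))) with hW
  have hWC : W ⊆ C := by
    intro v hv
    rw [hW] at hv
    simp only [mem_union, mem_insert, mem_singleton] at hv
    rcases hv with h | ((h | h) | (h | h) | h | h)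
    · exact (mem_st.1 h).1
    · rw [h]; exact F.yC Q.hC
    · rw [h]; exact u1
    · rw [h]; exact F.uC Q.hC
    · rw [h]; exact y1
    · exact (mem_Sg.1 h).1
    · exact (mem_Sg.1 h).1
  have hout : ∀ v ∈ C, v ∉ W → PowerSeries.coeff 3 (tC i C (sg v) : A) = 0 := by
    intro v hv hvW
    rw [hW] at hvW
    simp only [mem_union, mem_insert, mem_singleton, not_or] at hvW
    obtain ⟨g1, ⟨g2, g3⟩, ⟨g4, g5⟩, g6, g7⟩ := hvW
    have h1 : ¬ v ∈ near P i := by
      intro h
      rcases near_cls Q F nt hv h with k | k | k | k | k | k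
      · exact g2 k
      · exact g4 k
      · exact g5 k
      · exact g3 k
      · exact g6 k
      · exact g7 k
    have h2 : lev v ≠ i := fun h => g1 (mem_st.2 ⟨hv, h⟩)
    rw [mem_near, not_or] at h1
    rw [one_far H (by omega) (by omega), map_zero]
  have hSl : ∀ x ∈ Sg i C a ∪ Sg i C b, lev x = i + 1 ∨ lev x + 1 = i := by
    intro x hx
    rcases mem_union.1 hx with k | k
    · exact Sg_lev k
    · exact Sg_lev k
  have hSn : ∀ x ∈ Sg i C a ∪ Sg i C b, x ≠ y ∧ x ≠ psi u ∧ x ≠ u ∧ x ≠ psi y := by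
    intro x hx
    have hk : ∃ v, (lev x = i + 1 ∧ uc x = {v}) ∨ (lev x + 1 = i ∧ dc x = {v}) := by
      rcases mem_union.1 hx with k | k
      · exact ⟨a, (mem_Sg.1 k).2⟩
      · exact ⟨b, (mem_Sg.1 k).2⟩
    obtain ⟨v, hk⟩ := hk
    refine ⟨?_, ?_, ?_, ?_⟩ <;> intro hxe <;> rw [hxe] at hk <;> rcases hk with k | k
    · have h3 := congrArg Finset.card k.2
      rw [F.cy, card_pair F.as, card_singleton] at h3
      omega
    · omega
    · have h3 := congrArg Finset.card k.2
      rw [u3, card_pair F.sb, card_singleton] at h3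
      omega
    · omega
    · omega
    · have h3 := congrArg Finset.card k.2
      rw [F.cu, card_pair F.sb, card_singleton] at h3
      omega
    · omega
    · have h3 := congrArg Finset.card k.2
      rw [y3, card_pair F.as, card_singleton] at h3
      omega
  have d3 : Disjoint ({u, psi y} : Finset P) (Sg i C a ∪ Sg i C b) := by
    rw [disjoint_left]
    intro x hx hx'
    rw [mem_insert, mem_singleton] at hx
    obtain ⟨k1, k2, k3, k4⟩ := hSn x hx'
    rcases hx with h | h
    · exact k3 h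
    · exact k4 h
  have d2 : Disjoint ({y, psi u} : Finset P) ({u, psi y} ∪ (Sg i C a ∪ Sg i C b)) := by
    rw [disjoint_left]
    intro x hx hx'
    rw [mem_insert, mem_singleton] at hx
    have hl : lev x = i + 1 := by
      rcases hx with h | h
      · rw [h]; exact ly
      · rw [h]; exact u2
    rcases mem_union.1 hx' with h | h
    · rw [mem_insert, mem_singleton] at h
      rcases h with h | h
      · rw [h] at hl; omega
      · rw [h] at hl; omega
    · obtain ⟨k1, k2, k3, k4⟩ := hSn x h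
      rcases hx with h | h
      · exact k1 h
      · exact k2 h
  have d1 : Disjoint (Win.st i C) ({y, psi u} ∪ ({u, psi y} ∪ (Sg i C a ∪ Sg i C b))) := by
    rw [disjoint_left]
    intro x hx hx'
    have hl := (mem_st.1 hx).2
    rcases mem_union.1 hx' with h | h
    · rw [mem_insert, mem_singleton] at h
      rcases h with h | h
      · rw [h] at hl; omega
      · rw [h] at hl; omega
    · rcases mem_union.1 h with h | h
      · rw [mem_insert, mem_singleton] at h
        rcases h with h | h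
        · rw [h] at hl; omega
        · rw [h] at hl; omega
      · have := hSl x h
        omega
  rw [← Finset.sum_subset hWC hout, hW, sum_union d1, sum_union d2, sum_union d3,
    sum_union (Sg_disj Q F), sum_pair n1.symm, sum_pair n2.symm]
  have s1 : ∑ v ∈ Win.st i C, PowerSeries.coeff 3 (tC i C (sg v) : A) = 3 := by
    have h1 : ∀ v ∈ Win.st i C, PowerSeries.coeff 3 (tC i C (sg v) : A) = 1 := by
      intro v hv
      obtain ⟨k1, k2⟩ := mem_st.1 hv
      rw [one_site H (by omega) Q.hC k1 k2, b3]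
      have := co_a 0
      rw [pow_zero, mul_one, pow_zero] at this
      exact this
    rw [Finset.sum_congr rfl h1, sum_const, b3]
    norm_num
  have s2 : PowerSeries.coeff 3 (tC i C (sg y) : A) = -2 := by
    rw [(one_near H (by omega) Q.hC (F.yC Q.hC) (mem_near.2 (Or.inl ly))).1 ly, F.cy,
      card_pair F.as, b3]
    have : (dd * (xx ^ 2 * dd ^ (3 - 2)) : A) = dd ^ 2 * xx ^ 2 := by ring
    rw [this, co_c]
  have s3 : PowerSeries.coeff 3 (tC i C (sg (psi u)) : A) = -2 := by
    rw [(one_near H (by omega) Q.hC u1 (mem_near.2 (Or.inl u2))).1 u2, u3,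
      card_pair F.sb, b3]
    have : (dd * (xx ^ 2 * dd ^ (3 - 2)) : A) = dd ^ 2 * xx ^ 2 := by ring
    rw [this, co_c]
  have s4 : PowerSeries.coeff 3 (tC i C (sg u) : A) = -1 := by
    rw [(one_near H (by omega) Q.hC (F.uC Q.hC) (mem_near.2 (Or.inr lu))).2 lu, F.cu,
      card_pair F.sb, b3]
    have : (dd * (xi * dd ^ (3 - 2)) : A) = dd ^ 2 * xi := by ring
    rw [this, co_d]
  have s5 : PowerSeries.coeff 3 (tC i C (sg (psi y)) : A) = -1 := by
    rw [(one_near H (by omega) Q.hC y1 (mem_near.2 (Or.inr y2))).2 y2, y3,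
      card_pair F.as, b3]
    have : (dd * (xi * dd ^ (3 - 2)) : A) = dd ^ 2 * xi := by ring
    rw [this, co_d]
  have s6 : ∀ c, ∑ v ∈ Sg i C c, PowerSeries.coeff 3 (tC i C (sg v) : A) =
      -((Sg i C c).card : ℤ) := by
    intro c
    have h1 : ∀ v ∈ Sg i C c, PowerSeries.coeff 3 (tC i C (sg v) : A) = -1 := by
      intro v hv
      obtain ⟨k1, k2⟩ := mem_Sg.1 hv
      rcases k2 with k2 | k2
      · rw [(one_near H (by omega) Q.hC k1 (mem_near.2 (Or.inl k2.1))).1 k2.1, k2.2,
          card_singleton, b3]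
        have : (dd * (xx ^ 1 * dd ^ (3 - 1)) : A) = dd ^ 3 * xx ^ 1 := by ring
        rw [this, co_a]
        norm_num
      · rw [(one_near H (by omega) Q.hC k1 (mem_near.2 (Or.inr k2.1))).2 k2.1, k2.2,
          card_singleton, b3]
        have : (dd * (xi * dd ^ (3 - 1)) : A) = dd ^ 3 * xi := by ring
        rw [this, co_b]
    rw [Finset.sum_congr rfl h1, sum_const, nsmul_eq_mul]
    ring
  rw [s1, s2, s3, s4, s5, s6 a, s6 b]
  ring

end near

end Pool.Agent.GaussPoset.Win.Pf

end

/-! From `Pool.Agent.W_448pn_h63.QaI` -/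

section

/-!
# Flip parts in case B at the window `j - 1`: all values
(MP_448cb3_co, G2)
-/

set_option autoImplicit false

namespace Pool.Agent.GaussPoset.Win.Pf

set_option linter.unusedSectionVars false

open Finset W4 Wd
open Pool.Agent.GaussPoset.Win.SO (con PN on mem_PN vp F5 mem_F5 PSO N1f)
open Pool.Agent.GaussPoset.Win.I2 (bb VV)
open Pool.Agent.GaussPoset.Win.Pn

universe u

variable {P : Type u} [Fintype P] [PartialOrder P] [DecidableEq P] {r j i : ℕ}
  {psi : P → P} {C : Finset P} {p y q u a s b : P}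

section nj

variable (h : NJ P r j) (hij : i + 1 = j) (hi1 : 1 ≤ i)
include h hij hi1

/-- the data of every part -/
theorem nj_pso (hM : Mat P i ∅ psi) (t : Tops P) : PSO r i psi (SS i t) := by
  have g : GoodTo P r (i + 1) := by rw [hij]; exact h.g
  obtain ⟨n1, n2, -⟩ := nj_one h hij hi1 t
  refine ⟨h.g.H, hi1, g.hr, h.part (by omega) (by omega) t, hM, nll_of g hi1, nlu_of g, ?_, ?_⟩
  · intro p hp p' hp' h1 h2
    exact card_le_one.1 n1 p (mem_filter.2 ⟨hp, h1⟩) p' (mem_filter.2 ⟨hp', h2⟩)
  · intro p hp p' hp' h1 h2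
    exact card_le_one.1 n2 p (mem_filter.2 ⟨hp, h1⟩) p' (mem_filter.2 ⟨hp', h2⟩)

/-- a flip has the standard form -/
theorem nj_flp (t : Tops P) {p q : P} (hpq : (p, q) ∈ F5 i (SS i t)) :
    ∃ y u a s b, Flp i (SS i t) p y q u a s b := by
  classical
  obtain ⟨psi, hM⟩ := good_mat h.g.H (h.g.good i (by omega))
  have H := h.g.H
  have Q := nj_pso h hij hi1 hM t
  obtain ⟨a1, a2, a3, a4, a5⟩ := mem_F5.1 hpq
  simp only at a1 a2 a3 a4 a5
  obtain ⟨y, y1, y2, y3, y4, -⟩ := SO.PD_data H a2
  obtain ⟨u, u1, u2, u3, u4, -⟩ := SO.PU_data H a4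
  rw [sit_PDs H a2 y1, sit_PUs H a4 u1] at a5
  obtain ⟨s, hs⟩ := card_eq_one.1 a5
  have hsy : s ∈ uc y := (mem_inter.1 (by rw [hs]; exact mem_singleton_self s)).1
  have hsu : s ∈ dc u := (mem_inter.1 (by rw [hs]; exact mem_singleton_self s)).2
  obtain ⟨a, ha⟩ : ∃ a, (uc y).erase s = {a} := card_eq_one.1 (by
    rw [card_erase_of_mem hsy, y4])
  obtain ⟨b, hb⟩ : ∃ b, (dc u).erase s = {b} := card_eq_one.1 (by
    rw [card_erase_of_mem hsu, u4])
  have ha' : a ∈ (uc y).erase s := by rw [ha]; exact mem_singleton_self a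
  have hb' : b ∈ (dc u).erase s := by rw [hb]; exact mem_singleton_self b
  have has : a ≠ s := (mem_erase.1 ha').1
  have hbs : b ≠ s := (mem_erase.1 hb').1
  have cy : uc y = {a, s} := by
    rw [← insert_erase hsy, ha, pair_comm]
  have cu : dc u = {s, b} := by
    rw [← insert_erase hsu, hb]
  have hab : a ≠ b := by
    rintro rfl
    have : a ∈ uc y ∩ dc u := mem_inter.2 ⟨(mem_erase.1 ha').2, (mem_erase.1 hb').2⟩
    rw [hs, mem_singleton] at this
    exact has this
  have h3 : (st i (SS i t)).card = 3 := by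
    by_contra hc
    rw [nj_F5_three h hij hi1 t hc] at hpq
    exact notMem_empty _ hpq
  refine ⟨y, u, a, s, b, a1, a3, y2, y3, u2, u3, y1, cy, u1, cu, has, hbs.symm, hab, ?_⟩
  symm
  apply eq_of_subset_of_card_le
  · have hyC : y ∈ SS i t := Q.hC.up a1 (by rw [← mem_uc, y1]; exact mem_singleton_self _)
    have huC : u ∈ SS i t := Q.hC.dn a3 (by omega) (by
      rw [← mem_dc, u1]; exact mem_singleton_self _)
    intro x hx
    rw [mem_insert, mem_insert, mem_singleton] at hx
    rcases hx with k | k | k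
    · rw [k]
      have h1 : y ⋖ a := by rw [← mem_uc, cy]; exact mem_insert_self _ _
      have := lev_cov H h1
      exact mem_st.2 ⟨Q.hC.up hyC h1, by omega⟩
    · rw [k]
      have h1 := mem_uc.1 hsy
      have := lev_cov H h1
      exact mem_st.2 ⟨Q.hC.up hyC h1, by omega⟩
    · rw [k]
      have h1 : b ⋖ u := by
        rw [← mem_dc, cu]; exact mem_insert_of_mem (mem_singleton_self _)
      have := lev_cov H h1
      exact mem_st.2 ⟨Q.hC.dn huC (by omega) h1, by omega⟩
  · rw [h3, card_insert_of_notMem, card_pair hbs.symm]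
    rw [mem_insert, mem_singleton, not_or]
    exact ⟨has, hab⟩

/-- no triangle in the row -/
theorem nj_nt (t : Tops P) (F : Flp i (SS i t) p y q u a s b) :
    ∀ w ∈ SS i t, lev w = i + 1 → uc w ≠ {a, b} := by
  classical
  obtain ⟨psi, hM⟩ := good_mat h.g.H (h.g.good i (by omega))
  have H := h.g.H
  have g : GoodTo P r (i + 1) := by rw [hij]; exact h.g
  have Q := nj_pso h hij hi1 hM t
  obtain ⟨lo, hi, e, C⟩ := Cp.comp_exists H (t := (t : P)) t.2 (j := i + 1) g.hr g.good
  obtain ⟨u1, u2, u3, u4⟩ := psi_u Q F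
  have le : ∀ {x : P}, x ∈ SS i t → lev x ≤ i + 1 → x ≤ (t : P) := fun {x} hx hl =>
    (h.mem (by omega) t (by omega)).1 hx
  have site : ∀ x, x ∈ SS i t → lev x = i → ∃ k, lo i ≤ k ∧ k ≤ hi i ∧ e i k = x := by
    intro x hx hl
    obtain ⟨k, k1, k2, k3⟩ := C.surj x (le hx (by omega)) (by omega)
    rw [hl] at k1 k2 k3
    exact ⟨k, k1, k2, k3⟩
  have aC : a ∈ SS i t := Q.hC.up (F.yC Q.hC) F.ya
  have bC : b ∈ SS i t := Q.hC.dn (F.uC Q.hC) (by have := F.lu; omega) F.bu
  obtain ⟨na, a1, a2, a3⟩ := site a aC F.la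
  obtain ⟨ns, s1, s2, s3⟩ := site s F.sC F.ls
  obtain ⟨nb, b1, b2, b3⟩ := site b bC F.lb
  have key : ∀ x, x ∈ SS i t → lev x = i + 1 → ∀ n m, lo i ≤ n → n ≤ hi i → lo i ≤ m →
      m ≤ hi i → x ⋖ e i n → x ⋖ e i m → n = m ∨ n = m + 1 ∨ m = n + 1 := by
    intro x hx hl n m n1 n2 m1 m2 h1 h2
    obtain ⟨k, k1, k2, k3⟩ := C.surj x (le hx (by omega)) (by omega)
    rw [hl] at k1 k2 k3
    rw [← k3] at h1 h2
    have c1 := (C.cov i k n (by omega) k1 k2 n1 n2).1 h1
    have c2 := (C.cov i k m (by omega) k1 k2 m1 m2).1 h2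
    omega
  have e1 := key y (F.yC Q.hC) F.ly na ns a1 a2 s1 s2 (by rw [a3]; exact F.ya)
    (by rw [s3]; exact F.ys)
  have e2 := key (psi u) u1 u2 ns nb s1 s2 b1 b2
    (by rw [s3, ← mem_uc, u3]; exact mem_insert_self _ _)
    (by rw [b3, ← mem_uc, u3]; exact mem_insert_of_mem (mem_singleton_self _))
  intro w hw hl hcon
  have e3 := key w hw hl na nb a1 a2 b1 b2
    (by rw [a3, ← mem_uc, hcon]; exact mem_insert_self _ _)
    (by rw [b3, ← mem_uc, hcon]; exact mem_insert_of_mem (mem_singleton_self _))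
  have n1 : na ≠ ns := fun he => F.as (by rw [← a3, ← s3, he])
  have n2 : ns ≠ nb := fun he => F.sb (by rw [← b3, ← s3, he])
  have n3 : na ≠ nb := fun he => F.ab (by rw [← a3, ← b3, he])
  omega

/-- a flip part has no twins -/
theorem nj_pt (hM : Mat P i ∅ psi) (t : Tops P) (F : Flp i (SS i t) p y q u a s b) :
    Pt r i psi (SS i t) := by
  classical
  have H := h.g.H
  have g : GoodTo P r (i + 1) := by rw [hij]; exact h.g
  have Q := nj_pso h hij hi1 hM t
  have nt := nj_nt h hij hi1 t F
  obtain ⟨u1, u2, u3, u4⟩ := psi_u Q F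
  obtain ⟨y1, y2, y3, y4⟩ := psi_y Q F
  have dbl : ∀ x ∈ SS i t, lev x = i + 1 → (uc x).card = 2 → x = y ∨ x = psi u := by
    intro x hx hl hc
    have hn : x ∈ near P i := mem_near.2 (Or.inl hl)
    rcases near_cls Q F nt hx hn with k | k | k | k | k | k
    · exact Or.inl k
    · have := congrArg lev k
      have := F.lu
      omega
    · have := congrArg lev k
      omega
    · exact Or.inr k
    · rcases (mem_Sg.1 k).2 with k | k
      · rw [k.2, card_singleton] at hc
        omega
      · omega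
    · rcases (mem_Sg.1 k).2 with k | k
      · rw [k.2, card_singleton] at hc
        omega
      · omega
  refine ⟨Q, ?_, ?_⟩
  · intro w hw w' hw' x x' hl hne h1 h2 h3 h4
    by_contra hww
    have hxC : x ∈ SS i t := Q.hC.up hw (by rw [← mem_uc, h1]; exact mem_insert_self _ _)
    have hxC' : x' ∈ SS i t := Q.hC.up hw (by
      rw [← mem_uc, h1]; exact mem_insert_of_mem (mem_singleton_self _))
    have l1 := lev_uc H (x := w) (v := x) (by rw [h1]; exact mem_insert_self _ _)
    have l2 := lev_uc H (x := w) (v := x') (by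
      rw [h1]; exact mem_insert_of_mem (mem_singleton_self _))
    have hy : y ∈ ({x, x'} : Finset P) := by
      rw [mem_insert, mem_singleton]
      rcases dbl x hxC (by omega) h3 with k | k
      · exact Or.inl k.symm
      · rcases dbl x' hxC' (by omega) h4 with k' | k'
        · exact Or.inr k'.symm
        · exact absurd (k.trans k'.symm) hne
    have hwp : ∀ w'' : P, uc w'' = {x, x'} → w'' ≠ p := by
      intro w'' h5 h6
      rw [h6, F.cp] at h5
      have := congrArg Finset.card h5
      rw [card_singleton, card_pair hne] at this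
      omega
    have h5 : ({w, w', p} : Finset P) ⊆ dc y := by
      intro v hv
      rw [mem_insert, mem_insert, mem_singleton] at hv
      rcases hv with k | k | k
      · rw [k, mem_dc, ← mem_uc, h1]; exact hy
      · rw [k, mem_dc, ← mem_uc, h2]; exact hy
      · rw [k, mem_dc]; exact F.py
    have h6 := card_le_card h5
    rw [card_insert_of_notMem (by
      rw [mem_insert, mem_singleton, not_or]
      exact ⟨hww, hwp w h1⟩), card_pair (hwp w' h2)] at h6
    have := dc_card_le H y
    omega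
  · intro w hw w' hw' v v' hl hne h1 h2 _ _
    have m1 : v ⋖ w := by rw [← mem_dc, h1]; exact mem_insert_self _ _
    have m2 : v' ⋖ w := by rw [← mem_dc, h1]; exact mem_insert_of_mem (mem_singleton_self _)
    have m3 : v ⋖ w' := by rw [← mem_dc, h2]; exact mem_insert_self _ _
    have m4 : v' ⋖ w' := by rw [← mem_dc, h2]; exact mem_insert_of_mem (mem_singleton_self _)
    have l1 := lev_cov H m1
    have l2 := lev_cov H m2
    exact ucv_uniq g (by omega) hne (by omega) m1 m2 m3 m4

end nj

end Pool.Agent.GaussPoset.Win.Pf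

end

/-! From `Pool.Agent.W_448pn_h63.QaJ` -/

section

/-!
# Flip parts in case B at the window `j - 1`: the final values
(MP_448cb3_co, G2)
-/

set_option autoImplicit false

namespace Pool.Agent.GaussPoset.Win.Pf

set_option linter.unusedSectionVars false

open Finset W4 Wd
open Pool.Agent.GaussPoset.Win.SO (con PN on mem_PN vp F5 mem_F5 PSO N1f)
open Pool.Agent.GaussPoset.Win.I2 (bb VV)
open Pool.Agent.GaussPoset.Win.Pn

universe u

variable {P : Type u} [Fintype P] [PartialOrder P] [DecidableEq P] {r j i : ℕ}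
  {psi : P → P} {C : Finset P} {p y q u a s b : P}

section facts

variable (Q : PSO r i psi C) (F : Flp i C p y q u a s b)
include Q F

lemma FL_eq : FL i C = FLo C p := by
  ext w
  rw [mem_FL, mem_FLo]
  constructor
  · rintro ⟨h1, z, h2, h3⟩
    have hz : z ∈ C := Q.hC.up h1 (by rw [← mem_uc, h3]; exact mem_singleton_self _)
    rw [← Q.pd z hz p F.mp h2 F.pD]
    exact ⟨h1, h3⟩
  · rintro ⟨h1, h2⟩
    exact ⟨h1, p, F.pD, h2⟩

lemma FU_eq : FU' i C = FUp C q := by
  ext w
  rw [mem_FU', mem_FUp]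
  constructor
  · rintro ⟨h1, z, h2, h3⟩
    have hzw : z ⋖ w := by rw [← mem_dc, h3]; exact mem_singleton_self _
    have l1 := lev_cov Q.H hzw
    have l2 := (lev_PU h2).1
    have hz : z ∈ C := Q.hC.dn h1 (by omega) hzw
    rw [← Q.pu z hz q F.mq h2 F.qU]
    exact ⟨h1, h3⟩
  · rintro ⟨h1, h2⟩
    exact ⟨h1, q, F.qU, h2⟩

lemma F5_eq : F5 i C = {(p, q)} := by
  classical
  have hsit : (sit i p ∩ sit i q).card = 1 := by
    rw [sit_PDs Q.H F.pD F.cp, sit_PUs Q.H F.qU F.cq, F.cy, F.cu]
    have : ({a, s} ∩ {s, b} : Finset P) = {s} := by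
      ext x
      simp only [mem_inter, mem_insert, mem_singleton]
      constructor
      · rintro ⟨h1, h2⟩
        rcases h1 with h1 | h1
        · rcases h2 with h2 | h2
          · exact h2
          · exact absurd (h1.symm.trans h2) F.ab
        · exact h1
      · intro h1
        exact ⟨Or.inr h1, Or.inl h1⟩
    rw [this, card_singleton]
  ext ⟨p', q'⟩
  rw [mem_F5, mem_singleton, Prod.mk.injEq]
  constructor
  · rintro ⟨h1, h2, h3, h4, -⟩
    exact ⟨Q.pd p' h1 p F.mp h2 F.pD, Q.pu q' h3 q F.mq h4 F.qU⟩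
  · rintro ⟨rfl, rfl⟩
    exact ⟨F.mp, F.pD, F.mq, F.qU, hsit⟩

end facts

section nj

variable (h : NJ P r j) (hij : i + 1 = j) (hi1 : 1 ≤ i)
include h hij hi1

/-- a flip part has no twins -/
theorem nj_flip_tws (t : Tops P) (F : Flp i (SS i t) p y q u a s b) :
    Tws i (SS i t) = ∅ := by
  classical
  obtain ⟨psi, hM⟩ := good_mat h.g.H (h.g.good i (by omega))
  have Q := nj_pt h hij hi1 hM t F
  have H := h.g.H
  rw [eq_empty_iff_forall_notMem]
  intro w hw
  have T := mem_Tws.1 hw
  obtain ⟨x, x', s', T1⟩ := SO.td_of_ZL Q.toPSO T.zl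
  have l1 : lev w.1 = i + 2 := (mem_ZL.1 T.zl).2.1
  have c1 := T1.cw
  exact T.ne (Q.ncl w.1 (mem_ZL.1 T.zl).1 w.2 T.mC x x' l1 T1.ne c1 (by rw [← T.uc]; exact c1)
    T1.cx T1.cx')

/-- the (5,2) value of a flip part -/
theorem nj_flip_be5 (t : Tops P) (F : Flp i (SS i t) p y q u a s b) :
    I2.be 5 (st i (SS i t)).card (ZS i (SS i t)) = -1 := by
  obtain ⟨psi, hM⟩ := good_mat h.g.H (h.g.good i (by omega))
  rw [nj_be5 h hij hi1 t, nj_flip_tws h hij hi1 t F, F5_eq (nj_pso h hij hi1 hM t) F,
    card_empty, card_singleton]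
  norm_num

/-- THE (3,1) VALUE OF A FLIP PART -/
theorem nj_flip_al3 (t : Tops P) (F : Flp i (SS i t) p y q u a s b) :
    I2.al 3 (st i (SS i t)).card (ZS i (SS i t)) = (ZU i (SS i t)).card -
      (ZL i (SS i t)).card + (FL i (SS i t)).card - (FU' i (SS i t)).card +
      (Sg i (SS i t) a).card - (Sg i (SS i t) b).card := by
  obtain ⟨psi, hM⟩ := good_mat h.g.H (h.g.good i (by omega))
  have Q := nj_pso h hij hi1 hM t
  rw [al3_flip Q F (nj_nt h hij hi1 t F), FL_eq Q F, FU_eq Q F]

/-- THE (6,2) VALUE OF A FLIP PART -/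
theorem nj_flip_be6 (t : Tops P) (F : Flp i (SS i t) p y q u a s b) :
    I2.be 6 (st i (SS i t)).card (ZS i (SS i t)) = 1 - (N1f i (SS i t)).card -
      (FL i (SS i t)).card - (FU' i (SS i t)).card := by
  obtain ⟨psi, hM⟩ := good_mat h.g.H (h.g.good i (by omega))
  have Q := nj_pt h hij hi1 hM t F
  rw [Pt.be6 Q F, FL_eq Q.toPSO F, FU_eq Q.toPSO F]

/-- THE (1,0) VALUE OF A FLIP PART -/
theorem nj_flip_c1 (t : Tops P) (F : Flp i (SS i t) p y q u a s b) :
    So.cf 1 (st i (SS i t)).card (ZS i (SS i t)) =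
      -3 - (Sg i (SS i t) a).card - (Sg i (SS i t) b).card := by
  obtain ⟨psi, hM⟩ := good_mat h.g.H (h.g.good i (by omega))
  exact c1_flip (nj_pso h hij hi1 hM t) F (nj_nt h hij hi1 t F)

/-- THE SECOND POWER SUM OF A FLIP PART AT THE ENERGY SIX -/
theorem nj_flip_Q6 (t : Tops P) (F : Flp i (SS i t) p y q u a s b) :
    So.Q6 (st i (SS i t)).card (ZS i (SS i t)) =
      (I2.al 3 (st i (SS i t)).card (ZS i (SS i t))) ^ 2 + 4 +
        2 * ((N1f i (SS i t)).card + (FL i (SS i t)).card + (FU' i (SS i t)).card +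
          (Sg i (SS i t) a).card + (Sg i (SS i t) b).card) := by
  unfold So.Q6
  rw [So.cf_three, So.cf_five, So.cf_six, nj_flip_be6 h hij hi1 t F, nj_flip_be5 h hij hi1 t F,
    nj_flip_c1 h hij hi1 t F]
  ring

/-- the values (8,3) and (10,4) of a flip part -/
theorem nj_flip_Q8 (t : Tops P) (F : Flp i (SS i t) p y q u a s b) :
    T8.Q8 (st i (SS i t)).card (ZS i (SS i t)) =
      -(I2.al 3 (st i (SS i t)).card (ZS i (SS i t))) ∧
    T8.Q10 (st i (SS i t)).card (ZS i (SS i t)) = 1 := by
  rw [nj_Q8_small h hij t (by rw [F.b3]), nj_Q10_small h hij t (by rw [F.b3]; norm_num),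
    nj_flip_be5 h hij hi1 t F]
  constructor <;> ring

end nj

end Pool.Agent.GaussPoset.Win.Pf

end

/-! From `Pool.Agent.W_448pn_h63.QbA` -/

section

/-!
# Flip parts in row coordinates
(MP_448cb3_co, G2, window `j - 1`)
-/

set_option autoImplicit false

namespace Pool.Agent.GaussPoset.Win.Pf

set_option linter.unusedSectionVars false

open Finset W4 Wd
open Pool.Agent.GaussPoset.Win.SO (con PN on mem_PN vp F5 mem_F5 PSO N1f)

universe u

variable {P : Type u} [Fintype P] [PartialOrder P] [DecidableEq P] {r j i : ℕ}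
  {psi : P → P} {S : Finset P} {t p y q u a s b : P} {lo hi : ℕ → ℕ} {e : ℕ → ℕ → P}

section row

variable (C : Win.Comp P t (i + 1) lo hi e) (h : GoodTo P r (i + 1)) (ht : lev t = 0)
  (hS : ∀ y, lev y ≤ i + 1 → (y ∈ S ↔ y ≤ t))
include C h ht hS

/-- near elements over the left end -/
lemma sg_left (hi1 : 1 ≤ i) (hV : lo i < hi i) : (Sg i S (e i (lo i))).card =
    (if lo (i + 1) = lo i then 1 else 0) + if lo i = lo (i - 1) + 1 then 1 else 0 := by
  classical
  obtain ⟨k, rfl⟩ : ∃ k, i = k + 1 := ⟨i - 1, by omega⟩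
  have l1 := C.lo_le (k + 1) (by omega)
  have l2 := C.lo_le k (by omega)
  have l3 := C.hi_le (k + 1) (by omega)
  have l4 := C.hi_ge k (by omega)
  have l5 := C.lohi (k + 1 + 1) (by omega)
  have l6 := C.lohi k (by omega)
  have l7 := C.lo_ge k (by omega)
  have l8 := C.lohi (k + 1) (by omega)
  simp only [Nat.add_sub_cancel]
  have hs : Sg (k + 1) S (e (k + 1) (lo (k + 1))) =
      (if lo (k + 1 + 1) = lo (k + 1) then {e (k + 1 + 1) (lo (k + 1))} else ∅) ∪
        (if lo (k + 1) = lo k + 1 then {e k (lo k)} else ∅) := by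
    ext z
    rw [mem_Sg, mem_union]
    constructor
    · rintro ⟨hz, ⟨hl, hu⟩ | ⟨hl, hu⟩⟩
      · left
        obtain ⟨n, n1, n2, rfl⟩ := C.surj (k + 1 + 1) (by omega) z (by omega)
          ((hS z (by omega)).1 hz)
        have h1 := (C.uc_single h ht (k := k + 1) (by omega) n1 n2 le_rfl l8).1 hu
        have hn : n = lo (k + 1) := by omega
        rw [if_pos (by omega), mem_singleton, hn]
      · right
        obtain ⟨n, n1, n2, rfl⟩ := C.surj k (by omega) z (by omega) ((hS z (by omega)).1 hz)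
        have h1 := (C.dc_single h ht (k := k) (by omega) le_rfl l8 n1 n2).1 hu
        have hn : n = lo k := by omega
        rw [if_pos (by omega), mem_singleton, hn]
    · rintro (hz | hz)
      · split_ifs at hz with hc
        · rw [mem_singleton] at hz
          subst hz
          have h5 : lo (k + 1) ≤ hi (k + 1 + 1) := by
            rw [← hc]
            exact l5
          have hl := C.lev_x (k + 1 + 1) (by omega) (lo (k + 1)) hc.le h5
          refine ⟨(hS _ (by omega)).2 (C.le_t (k + 1 + 1) (by omega) _ hc.le h5),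
            Or.inl ⟨hl, ?_⟩⟩
          exact (C.uc_single h ht (k := k + 1) (by omega) hc.le h5 le_rfl l8).2
            (Or.inl ⟨rfl, rfl⟩)
        · exact absurd hz (notMem_empty z)
      · split_ifs at hz with hc
        · rw [mem_singleton] at hz
          subst hz
          have hl := C.lev_x k (by omega) (lo k) le_rfl l6
          refine ⟨(hS _ (by omega)).2 (C.le_t k (by omega) _ le_rfl l6),
            Or.inr ⟨by omega, ?_⟩⟩
          exact (C.dc_single h ht (k := k) (by omega) le_rfl l8 le_rfl l6).2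
            (Or.inr ⟨hc, rfl⟩)
        · exact absurd hz (notMem_empty z)
  have hd : Disjoint (if lo (k + 1 + 1) = lo (k + 1) then
      ({e (k + 1 + 1) (lo (k + 1))} : Finset P) else ∅)
        (if lo (k + 1) = lo k + 1 then {e k (lo k)} else ∅) := by
    split_ifs with h1 h2
    · rw [disjoint_singleton]
      intro he
      have h5 : lo (k + 1) ≤ hi (k + 1 + 1) := by
        rw [← h1]
        exact l5
      have g1 := C.lev_x (k + 1 + 1) (by omega) (lo (k + 1)) h1.le h5
      have g2 := C.lev_x k (by omega) (lo k) le_rfl l6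
      rw [he] at g1
      omega
    · exact disjoint_empty_right _
    · exact disjoint_empty_left _
    · exact disjoint_empty_left _
  rw [hs, card_union_of_disjoint hd]
  congr 1
  · split_ifs <;> simp
  · split_ifs <;> simp

/-- near elements over the right end -/
lemma sg_right (hi1 : 1 ≤ i) (hV : lo i < hi i) : (Sg i S (e i (hi i))).card =
    (if hi (i + 1) = hi i + 1 then 1 else 0) + if hi (i - 1) = hi i then 1 else 0 := by
  classical
  obtain ⟨k, rfl⟩ : ∃ k, i = k + 1 := ⟨i - 1, by omega⟩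
  have l1 := C.hi_le (k + 1) (by omega)
  have l2 := C.hi_le k (by omega)
  have l3 := C.hi_ge (k + 1) (by omega)
  have l4 := C.lo_ge (k + 1) (by omega)
  have l5 := C.lohi (k + 1 + 1) (by omega)
  have l6 := C.lohi k (by omega)
  have l7 := C.lo_le k (by omega)
  have l8 := C.lohi (k + 1) (by omega)
  simp only [Nat.add_sub_cancel]
  have hs : Sg (k + 1) S (e (k + 1) (hi (k + 1))) =
      (if hi (k + 1 + 1) = hi (k + 1) + 1 then {e (k + 1 + 1) (hi (k + 1 + 1))} else ∅) ∪
        (if hi k = hi (k + 1) then {e k (hi k)} else ∅) := by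
    ext z
    rw [mem_Sg, mem_union]
    constructor
    · rintro ⟨hz, ⟨hl, hu⟩ | ⟨hl, hu⟩⟩
      · left
        obtain ⟨n, n1, n2, rfl⟩ := C.surj (k + 1 + 1) (by omega) z (by omega)
          ((hS z (by omega)).1 hz)
        have h1 := (C.uc_single h ht (k := k + 1) (by omega) n1 n2 l8 le_rfl).1 hu
        have hn : n = hi (k + 1 + 1) := by omega
        rw [if_pos (by omega), mem_singleton, hn]
      · right
        obtain ⟨n, n1, n2, rfl⟩ := C.surj k (by omega) z (by omega) ((hS z (by omega)).1 hz)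
        have h1 := (C.dc_single h ht (k := k) (by omega) l8 le_rfl n1 n2).1 hu
        have hn : n = hi k := by omega
        rw [if_pos (by omega), mem_singleton, hn]
    · rintro (hz | hz)
      · split_ifs at hz with hc
        · rw [mem_singleton] at hz
          subst hz
          have hl := C.lev_x (k + 1 + 1) (by omega) (hi (k + 1 + 1)) l5 le_rfl
          refine ⟨(hS _ (by omega)).2 (C.le_t (k + 1 + 1) (by omega) _ l5 le_rfl),
            Or.inl ⟨hl, ?_⟩⟩
          exact (C.uc_single h ht (k := k + 1) (by omega) l5 le_rfl l8 le_rfl).2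
            (Or.inr ⟨hc.symm, rfl⟩)
        · exact absurd hz (notMem_empty z)
      · split_ifs at hz with hc
        · rw [mem_singleton] at hz
          subst hz
          have hl := C.lev_x k (by omega) (hi k) l6 le_rfl
          refine ⟨(hS _ (by omega)).2 (C.le_t k (by omega) _ l6 le_rfl),
            Or.inr ⟨by omega, ?_⟩⟩
          exact (C.dc_single h ht (k := k) (by omega) l8 le_rfl l6 le_rfl).2
            (Or.inl ⟨hc.symm, hc⟩)
        · exact absurd hz (notMem_empty z)
  have hd : Disjoint (if hi (k + 1 + 1) = hi (k + 1) + 1 then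
      ({e (k + 1 + 1) (hi (k + 1 + 1))} : Finset P) else ∅)
        (if hi k = hi (k + 1) then {e k (hi k)} else ∅) := by
    split_ifs with h1 h2
    · rw [disjoint_singleton]
      intro he
      have g1 := C.lev_x (k + 1 + 1) (by omega) (hi (k + 1 + 1)) l5 le_rfl
      have g2 := C.lev_x k (by omega) (hi k) l6 le_rfl
      rw [he] at g1
      omega
    · exact disjoint_empty_right _
    · exact disjoint_empty_left _
    · exact disjoint_empty_left _
  rw [hs, card_union_of_disjoint hd]
  congr 1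
  · split_ifs <;> simp
  · split_ifs <;> simp

/-- the place of a flip in the row -/
theorem flip_pos (F : Flp i S p y q u a s b) {k : ℕ} (hk : i = k + 2) (hP : Part (i + 1) S) :
    hi i = lo i + 2 ∧
    ((lo (k + 1) = lo i ∧ lo (k + 1) = lo k + 1 ∧ b = e i (lo i) ∧ a = e i (hi i) ∧
        q = e k (lo k)) ∨
      (hi i = hi (k + 1) + 1 ∧ hi (k + 1) = hi k ∧ b = e i (hi i) ∧ a = e i (lo i) ∧
        q = e k (hi k))) := by
  classical
  subst hk
  have H := h.H
  have l1 : hi (k + 1) ≤ hi (k + 2) := C.hi_le (k + 1) (by omega)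
  have l2 := C.hi_le k (by omega)
  have l3 : hi (k + 2) ≤ hi (k + 1) + 1 := C.hi_ge (k + 1) (by omega)
  have l4 := C.hi_ge k (by omega)
  have m1 : lo (k + 1) ≤ lo (k + 2) := C.lo_le (k + 1) (by omega)
  have m2 := C.lo_le k (by omega)
  have m3 : lo (k + 2) ≤ lo (k + 1) + 1 := C.lo_ge (k + 1) (by omega)
  have m4 := C.lo_ge k (by omega)
  have l6 := C.lohi (k + 2) (by omega)
  have le : ∀ {x : P}, x ∈ S → lev x ≤ k + 2 + 1 → x ≤ t := fun {x} hx hl =>
    (hS x hl).1 hx
  have site : ∀ x, x ∈ S → lev x = k + 2 → ∃ n, lo (k + 2) ≤ n ∧ n ≤ hi (k + 2) ∧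
      e (k + 2) n = x := fun x hx hl => C.surj (k + 2) (by omega) x hl (le hx (by omega))
  have yC : y ∈ S := F.yC hP
  have uC : u ∈ S := F.uC hP
  have aC : a ∈ S := hP.up yC F.ya
  have bC : b ∈ S := hP.dn uC (by have := F.lu; omega) F.bu
  obtain ⟨na, a1, a2, a3⟩ := site a aC F.la
  obtain ⟨ns, s1, s2, s3⟩ := site s F.sC F.ls
  obtain ⟨nb, b1, b2, b3⟩ := site b bC F.lb
  have n1 : na ≠ ns := fun he => F.as (by rw [← a3, ← s3, he])
  have n2 : ns ≠ nb := fun he => F.sb (by rw [← b3, ← s3, he])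
  have n3 : na ≠ nb := fun he => F.ab (by rw [← a3, ← b3, he])
  -- three sites
  have hall : ∀ n, lo (k + 2) ≤ n → n ≤ hi (k + 2) → n = na ∨ n = ns ∨ n = nb := by
    intro n h1 h2
    have hl := C.lev_x (k + 2) (by omega) n h1 h2
    have hm : e (k + 2) n ∈ st (k + 2) S := mem_st.2
      ⟨(hS _ (by omega)).2 (C.le_t (k + 2) (by omega) n h1 h2), hl⟩
    rw [F.st, mem_insert, mem_insert, mem_singleton] at hm
    rcases hm with hm | hm | hm
    · exact Or.inl (C.inj' (by omega) h1 h2 a1 a2 (by rw [hm, a3]))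
    · exact Or.inr (Or.inl (C.inj' (by omega) h1 h2 s1 s2 (by rw [hm, s3])))
    · exact Or.inr (Or.inr (C.inj' (by omega) h1 h2 b1 b2 (by rw [hm, b3])))
  have hV : hi (k + 2) = lo (k + 2) + 2 := by
    have h1 := hall (lo (k + 2)) le_rfl l6
    have h2 := hall (hi (k + 2)) l6 le_rfl
    by_contra hcon
    rcases Nat.lt_or_gt_of_ne hcon with h3 | h3
    · omega
    · have h4 := hall (lo (k + 2) + 1) (by omega) (by omega)
      have h5 := hall (lo (k + 2) + 2) (by omega) (by omega)
      omega
  -- y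
  have hly := F.ly
  obtain ⟨ny, y1, y2, y3⟩ := C.surj (k + 2 + 1) (by omega) y (by omega) (le yC (by omega))
  have ca := (C.cov (k + 2) (by omega) ny na y1 y2 a1 a2).1 (by rw [y3, a3]; exact F.ya)
  have cs := (C.cov (k + 2) (by omega) ny ns y1 y2 s1 s2).1 (by rw [y3, s3]; exact F.ys)
  -- q, u
  have hlu := F.lu
  have hlq := F.lq
  obtain ⟨nu, u1, u2, u3⟩ := C.surj (k + 1) (by omega) u (by omega) (le uC (by omega))
  obtain ⟨nq, q1, q2, q3⟩ := C.surj k (by omega) q (by omega) (le F.mq (by omega))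
  have cs' := (C.cov (k + 1) (by omega) ns nu s1 s2 u1 u2).1 (by
    rw [u3]
    have : e (k + 1 + 1) ns = s := s3
    rw [this]
    exact F.su)
  have cb' := (C.cov (k + 1) (by omega) nb nu b1 b2 u1 u2).1 (by
    rw [u3]
    have : e (k + 1 + 1) nb = b := b3
    rw [this]
    exact F.bu)
  have cq := (C.dc_single h ht (k := k) (by omega) u1 u2 q1 q2).1 (by rw [q3, u3]; exact F.cq)
  refine ⟨hV, ?_⟩
  rcases cq with cq | cq
  · right
    have e1 : nb = hi (k + 2) := by omega
    have e2 : na = lo (k + 2) := by omega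
    refine ⟨by omega, by omega, ?_, ?_, ?_⟩
    · rw [← b3, e1]
    · rw [← a3, e2]
    · rw [← q3]
      congr 1
      omega
  · left
    have e1 : nb = lo (k + 2) := by omega
    have e2 : na = hi (k + 2) := by omega
    refine ⟨by omega, by omega, ?_, ?_, ?_⟩
    · rw [← b3, e1]
    · rw [← a3, e2]
    · rw [← q3]
      congr 1
      omega

/-- elements above the upper pendant only: right end -/
lemma fup_right {k : ℕ} (hk : i = k + 2) (hV : lo k < hi k) (hq : q = e k (hi k)) (hP : Part (i + 1) S) :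
    (FUp S q).card = if 1 ≤ k ∧ hi (k - 1) = hi k then 1 else 0 := by
  classical
  subst hk
  have H := h.H
  have l6 := C.lohi k (by omega)
  have hl := C.lev_x k (by omega) (hi k) l6 le_rfl
  have lU : ∀ z ∈ FUp S q, lev z + 1 = k := by
    intro z hz
    have := lev_dc H (x := z) (v := q) (by rw [(mem_FUp.1 hz).2]; exact mem_singleton_self _)
    rw [hq, hl] at this
    omega
  rcases Nat.eq_zero_or_pos k with h0 | h0
  · rw [if_neg (by omega)]
    rw [card_eq_zero, eq_empty_iff_forall_notMem]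
    intro z hz
    have := lU z hz
    omega
  · obtain ⟨m, rfl⟩ : ∃ m, k = m + 1 := ⟨k - 1, by omega⟩
    simp only [Nat.add_sub_cancel]
    have l1 := C.hi_le m (by omega)
    have l7 := C.lohi m (by omega)
    have hs : FUp S q = if hi m = hi (m + 1) then {e m (hi m)} else ∅ := by
      ext z
      constructor
      · intro hz
        have hlz := lU z hz
        obtain ⟨hz1, hz2⟩ := mem_FUp.1 hz
        obtain ⟨n, g1, g2, rfl⟩ := C.surj m (by omega) z (by omega) ((hS z (by omega)).1 hz1)
        rw [hq] at hz2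
        have h1 := (C.dc_single h ht (k := m) (by omega) l6 le_rfl g1 g2).1 hz2
        have hn : n = hi m := by omega
        rw [if_pos (by omega), mem_singleton, hn]
      · intro hz
        split_ifs at hz with hc
        · rw [mem_singleton] at hz
          rw [hz, mem_FUp]
          have hlz := C.lev_x m (by omega) (hi m) l7 le_rfl
          refine ⟨(hS _ (by omega)).2 (C.le_t m (by omega) _ l7 le_rfl), ?_⟩
          rw [hq]
          exact (C.dc_single h ht (k := m) (by omega) l6 le_rfl l7 le_rfl).2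
            (Or.inl ⟨hc.symm, hc⟩)
        · exact absurd hz (notMem_empty z)
    rw [hs]
    by_cases hc : hi m = hi (m + 1)
    · rw [if_pos hc, if_pos ⟨by omega, hc⟩, card_singleton]
    · rw [if_neg hc, if_neg (fun hh => hc hh.2), card_empty]

/-- elements above the upper pendant only: left end -/
lemma fup_left {k : ℕ} (hk : i = k + 2) (hV : lo k < hi k) (hq : q = e k (lo k)) (hP : Part (i + 1) S) :
    (FUp S q).card = if 1 ≤ k ∧ lo k = lo (k - 1) + 1 then 1 else 0 := by
  classical
  subst hk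
  have H := h.H
  have l6 := C.lohi k (by omega)
  have hl := C.lev_x k (by omega) (lo k) le_rfl l6
  have lU : ∀ z ∈ FUp S q, lev z + 1 = k := by
    intro z hz
    have := lev_dc H (x := z) (v := q) (by rw [(mem_FUp.1 hz).2]; exact mem_singleton_self _)
    rw [hq, hl] at this
    omega
  rcases Nat.eq_zero_or_pos k with h0 | h0
  · rw [if_neg (by omega)]
    rw [card_eq_zero, eq_empty_iff_forall_notMem]
    intro z hz
    have := lU z hz
    omega
  · obtain ⟨m, rfl⟩ : ∃ m, k = m + 1 := ⟨k - 1, by omega⟩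
    simp only [Nat.add_sub_cancel]
    have l1 := C.lo_ge m (by omega)
    have l7 := C.lohi m (by omega)
    have l8 := C.lo_le m (by omega)
    have hs : FUp S q = if lo (m + 1) = lo m + 1 then {e m (lo m)} else ∅ := by
      ext z
      constructor
      · intro hz
        have hlz := lU z hz
        obtain ⟨hz1, hz2⟩ := mem_FUp.1 hz
        obtain ⟨n, g1, g2, rfl⟩ := C.surj m (by omega) z (by omega) ((hS z (by omega)).1 hz1)
        rw [hq] at hz2
        have h1 := (C.dc_single h ht (k := m) (by omega) le_rfl l6 g1 g2).1 hz2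
        have hn : n = lo m := by omega
        rw [if_pos (by omega), mem_singleton, hn]
      · intro hz
        split_ifs at hz with hc
        · rw [mem_singleton] at hz
          rw [hz, mem_FUp]
          have hlz := C.lev_x m (by omega) (lo m) le_rfl l7
          refine ⟨(hS _ (by omega)).2 (C.le_t m (by omega) _ le_rfl l7), ?_⟩
          rw [hq]
          exact (C.dc_single h ht (k := m) (by omega) le_rfl l6 le_rfl l7).2
            (Or.inr ⟨hc, rfl⟩)
        · exact absurd hz (notMem_empty z)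
    rw [hs]
    by_cases hc : lo (m + 1) = lo m + 1
    · rw [if_pos hc, if_pos ⟨by omega, hc⟩, card_singleton]
    · rw [if_neg hc, if_neg (fun hh => hc hh.2), card_empty]

end row

end Pool.Agent.GaussPoset.Win.Pf

end

/-! From `Pool.Agent.W_448pn_h63.QbB` -/

section

/-!
# Flip parts in row coordinates: the values as numbers
(MP_448cb3_co, G2, window `j - 1`)
-/

set_option autoImplicit false

namespace Pool.Agent.GaussPoset.Win.Pf

set_option linter.unusedSectionVars false

open Finset W4 Wd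
open Pool.Agent.GaussPoset.Win.SO (con PN on mem_PN vp F5 mem_F5 PSO N1f)

universe u

variable {P : Type u} [Fintype P] [PartialOrder P] [DecidableEq P] {r j i : ℕ}
  {psi : P → P} {S : Finset P} {p y q u a s b : P} {lo hi : ℕ → ℕ} {e : ℕ → ℕ → P}

section nj

variable (h : NJ P r j) (hij : i + 1 = j) (hi1 : 1 ≤ i)
include h hij hi1

/-- THE NUMBERS OF A FLIP PART in row coordinates -/
theorem nj_flip_row (t : Tops P) (C : Cp.Comp (i + 1) (t : P) lo hi e)
    (F : Flp i (SS i t) p y q u a s b) : 2 ≤ i ∧ hi i = lo i + 2 ∧ (ZU i (SS i t)).card = 1 ∧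
    ((lo (i - 1) = lo i ∧ lo (i - 1) = lo (i - 2) + 1 ∧
        (Sg i (SS i t) b).card = (if lo (i + 1) = lo i then 1 else 0) ∧
        (Sg i (SS i t) a).card =
          (if hi (i + 1) = hi i + 1 then 1 else 0) + (if hi (i - 1) = hi i then 1 else 0) ∧
        (FU' i (SS i t)).card = if 3 ≤ i ∧ lo (i - 2) = lo (i - 3) + 1 then 1 else 0) ∨
      (hi i = hi (i - 1) + 1 ∧ hi (i - 1) = hi (i - 2) ∧
        (Sg i (SS i t) b).card = (if hi (i + 1) = hi i + 1 then 1 else 0) ∧
        (Sg i (SS i t) a).card =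
          (if lo (i + 1) = lo i then 1 else 0) + (if lo i = lo (i - 1) + 1 then 1 else 0) ∧
        (FU' i (SS i t)).card = if 3 ≤ i ∧ hi (i - 3) = hi (i - 2) then 1 else 0)) := by
  classical
  obtain ⟨psi, hM⟩ := good_mat h.g.H (h.g.good i (by omega))
  have Q := nj_pso h hij hi1 hM t
  have g : GoodTo P r (i + 1) := by rw [hij]; exact h.g
  have W := C.toWin
  have hS : ∀ y, lev y ≤ i + 1 → (y ∈ SS i t ↔ y ≤ (t : P)) := fun y hy =>
    h.mem (by omega) t (by omega)
  obtain ⟨k, hk⟩ : ∃ k, i = k + 2 := ⟨i - 2, by have := F.lq; omega⟩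
  obtain ⟨hV, hpos⟩ := flip_pos W g t.2 hS F hk Q.hC
  have hZ := W.card_ZU g t.2 (i := i) hi1 (by omega) (S := SS i t) fun y hy => hS y (by omega)
  have hL := sg_left W g t.2 hS hi1 (by omega)
  have hR := sg_right W g t.2 hS hi1 (by omega)
  have l1 : hi (k + 1) ≤ hi (k + 2) := W.hi_le (k + 1) (by omega)
  have l2 := W.hi_le k (by omega)
  have l3 : hi (k + 2) ≤ hi (k + 1) + 1 := W.hi_ge (k + 1) (by omega)
  have l4 := W.hi_ge k (by omega)
  have m1 : lo (k + 1) ≤ lo (k + 2) := W.lo_le (k + 1) (by omega)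
  have m2 := W.lo_le k (by omega)
  have m3 : lo (k + 2) ≤ lo (k + 1) + 1 := W.lo_ge (k + 1) (by omega)
  have m4 := W.lo_ge k (by omega)
  have i1 : i - 1 = k + 1 := by omega
  have i2 : i - 2 = k := by omega
  have i3 : i - 3 = k - 1 := by omega
  have hi' : lo (k + 2) = lo i ∧ hi (k + 2) = hi i := by rw [hk]; exact ⟨rfl, rfl⟩
  refine ⟨by omega, hV, by omega, ?_⟩
  rw [i1] at hL hR ⊢
  rw [i2, i3]
  rcases hpos with ⟨g1, g2, g3, g4, g5⟩ | ⟨g1, g2, g3, g4, g5⟩
  · left
    have hU := fup_left W g t.2 hS hk (by omega) g5 Q.hC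
    refine ⟨g1, g2, ?_, ?_, ?_⟩
    · rw [g3, hL, if_neg (show ¬ lo i = lo (k + 1) + 1 by omega), add_zero]
    · rw [g4, hR]
    · rw [FU_eq Q F, hU]
      refine if_congr ?_ rfl rfl
      constructor
      · rintro ⟨c1, c2⟩
        exact ⟨by omega, c2⟩
      · rintro ⟨c1, c2⟩
        exact ⟨by omega, c2⟩
  · right
    have hU := fup_right W g t.2 hS hk (by omega) g5 Q.hC
    refine ⟨g1, g2, ?_, ?_, ?_⟩
    · rw [g3, hR, if_neg (show ¬ hi (k + 1) = hi i by omega), add_zero]
    · rw [g4, hL]
    · rw [FU_eq Q F, hU]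
      refine if_congr ?_ rfl rfl
      constructor
      · rintro ⟨c1, c2⟩
        exact ⟨by omega, c2⟩
      · rintro ⟨c1, c2⟩
        exact ⟨by omega, c2⟩

end nj

end Pool.Agent.GaussPoset.Win.Pf

end
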